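import Pool.Agent.Hyp6.GDefs

/-!
# HYP6: the abstract system of the closing lemma

`M` together with two new points `x`, `y`: `x` is added to the blocks of `E1`, `y` to the blocks of `E2`,
and there are `a` new blocks `{x, y}` and `b` new blocks `{y}`.
-/

set_option autoImplicit false

namespace Pool.Agent.Hyp6

open Finset Pool.Agent.Hyp5

variable {V : Type*} [DecidableEq V]

/-- splitting off one pair of a matching. -/
theorem pm_split {G : SimpleGraph V} {S : Finset V} (h : PM G S) {x : V} (hx : x ∈ S) :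
    ∃ y ∈ S, G.Adj x y ∧ PM G (S \ {x, y}) := by
  obtain ⟨f, hf⟩ := h
  obtain ⟨h1, h2, h3⟩ := hf x hx
  refine ⟨f x, h1, h3, f, fun v hv => ?_⟩
  rw [mem_sdiff, mem_insert, mem_singleton] at hv ⊢
  obtain ⟨h4, h5, h6⟩ := hf v hv.1
  refine ⟨⟨h4, ?_⟩, h5, h6⟩
  rintro (h7 | h7)
  · apply hv.2
    right
    rw [← h5, h7]
  · apply hv.2
    left
    rw [← h5, h7, h2]

/-- a matching only uses the edges inside the set. -/
theorem pm_congr {G G' : SimpleGraph V} {S : Finset V} (h : PM G S)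
    (hG : ∀ u ∈ S, ∀ v ∈ S, G.Adj u v → G'.Adj u v) : PM G' S := by
  obtain ⟨f, hf⟩ := h
  exact ⟨f, fun v hv => ⟨(hf v hv).1, (hf v hv).2.1, hG v hv _ (hf v hv).1 (hf v hv).2.2⟩⟩

variable {ι : Type*}

open Classical in
/-- the abstract system. -/
noncomputable def absB (B : ι → Finset V) (M : Finset V) (E1 E2 : Finset ι) (x y : V) (a b : ℕ) :
    ι ⊕ (Fin a ⊕ Fin b) → Finset V
  | Sum.inl i => (B i ∩ M) ∪ ((if i ∈ E1 then {x} else ∅) ∪ (if i ∈ E2 then {y} else ∅))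
  | Sum.inr (Sum.inl _) => {x, y}
  | Sum.inr (Sum.inr _) => {y}

section

variable {B : ι → Finset V} {M : Finset V} {E1 E2 : Finset ι} {x y : V} {a b : ℕ}

theorem mem_absB_inl {i : ι} {v : V} : v ∈ absB B M E1 E2 x y a b (Sum.inl i) ↔
    (v ∈ B i ∧ v ∈ M) ∨ (v = x ∧ i ∈ E1) ∨ (v = y ∧ i ∈ E2) := by
  classical
  simp only [absB, mem_union, mem_inter]
  by_cases h1 : i ∈ E1 <;> by_cases h2 : i ∈ E2 <;> simp [h1, h2]

theorem mem_absB_M {v : V} (hv : v ∈ M) (hx : x ∉ M) (hy : y ∉ M)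
    {k : ι ⊕ (Fin a ⊕ Fin b)} :
    v ∈ absB B M E1 E2 x y a b k ↔ ∃ i, k = Sum.inl i ∧ v ∈ B i := by
  have hvx : v ≠ x := fun h => hx (h ▸ hv)
  have hvy : v ≠ y := fun h => hy (h ▸ hv)
  rcases k with i | c | c
  · rw [mem_absB_inl]
    constructor
    · rintro (h | h | h)
      · exact ⟨i, rfl, h.1⟩
      · exact absurd h.1 hvx
      · exact absurd h.1 hvy
    · rintro ⟨j, hj, hvj⟩
      have : i = j := Sum.inl.inj hj
      subst this
      exact Or.inl ⟨hvj, hv⟩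
  · simp [absB, hvx, hvy]
  · simp [absB, hvy]

theorem mem_absB_x (hx : x ∉ M) (hxy : x ≠ y) {k : ι ⊕ (Fin a ⊕ Fin b)} :
    x ∈ absB B M E1 E2 x y a b k ↔
      (∃ i ∈ E1, k = Sum.inl i) ∨ ∃ c, k = Sum.inr (Sum.inl c) := by
  rcases k with i | c | c
  · rw [mem_absB_inl]
    constructor
    · rintro (h | h | h)
      · exact absurd h.2 hx
      · exact Or.inl ⟨i, h.2, rfl⟩
      · exact absurd h.1 hxy
    · rintro (⟨j, hj, hk⟩ | ⟨c, hc⟩)
      · have : i = j := Sum.inl.inj hk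
        subst this
        exact Or.inr (Or.inl ⟨rfl, hj⟩)
      · exact absurd hc (by simp)
  · simp [absB]
  · simp [absB, hxy]

theorem mem_absB_y (hy : y ∉ M) (hxy : x ≠ y) {k : ι ⊕ (Fin a ⊕ Fin b)} :
    y ∈ absB B M E1 E2 x y a b k ↔
      (∃ i ∈ E2, k = Sum.inl i) ∨ ∃ c, k = Sum.inr c := by
  rcases k with i | c | c
  · rw [mem_absB_inl]
    constructor
    · rintro (h | h | h)
      · exact absurd h.2 hy
      · exact absurd h.1.symm hxy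
      · exact Or.inl ⟨i, h.2, rfl⟩
    · rintro (⟨j, hj, hk⟩ | ⟨c, hc⟩)
      · have : i = j := Sum.inl.inj hk
        subst this
        exact Or.inr (Or.inr ⟨rfl, hj⟩)
      · exact absurd hc (by simp)
  · simp [absB]
  · simp [absB]

/-- the edges inside `M` are the old ones. -/
theorem absB_adj_M (hx : x ∉ M) (hy : y ∉ M) {u v : V} (hu : u ∈ M) (hv : v ∈ M) :
    (gr (absB B M E1 E2 x y a b)).Adj u v ↔ (gr B).Adj u v := by
  constructor
  · rintro ⟨hne, k, hk1, hk2⟩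
    obtain ⟨i, rfl, hi⟩ := (mem_absB_M hu hx hy).1 hk1
    obtain ⟨j, hj, hvj⟩ := (mem_absB_M hv hx hy).1 hk2
    have : i = j := Sum.inl.inj hj
    subst this
    exact ⟨hne, i, hi, hvj⟩
  · rintro ⟨hne, i, hi, hj⟩
    exact ⟨hne, Sum.inl i, (mem_absB_M hu hx hy).2 ⟨i, rfl, hi⟩,
      (mem_absB_M hv hx hy).2 ⟨i, rfl, hj⟩⟩

theorem absB_adj_x (hx : x ∉ M) (hy : y ∉ M) (hxy : x ≠ y) {u : V} (hu : u ∈ M)
    (h : (gr (absB B M E1 E2 x y a b)).Adj x u) : ∃ i ∈ E1, u ∈ B i := by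
  obtain ⟨_, k, hk1, hk2⟩ := h
  obtain ⟨i, rfl, hi⟩ := (mem_absB_M hu hx hy).1 hk2
  rcases (mem_absB_x hx hxy).1 hk1 with ⟨j, hj, hk⟩ | ⟨c, hc⟩
  · have : i = j := Sum.inl.inj hk
    subst this
    exact ⟨i, hj, hi⟩
  · exact absurd hc (by simp)

theorem absB_adj_y (hx : x ∉ M) (hy : y ∉ M) (hxy : x ≠ y) {u : V} (hu : u ∈ M)
    (h : (gr (absB B M E1 E2 x y a b)).Adj y u) : ∃ i ∈ E2, u ∈ B i := by
  obtain ⟨_, k, hk1, hk2⟩ := h
  obtain ⟨i, rfl, hi⟩ := (mem_absB_M hu hx hy).1 hk2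
  rcases (mem_absB_y hy hxy).1 hk1 with ⟨j, hj, hk⟩ | ⟨c, hc⟩
  · have : i = j := Sum.inl.inj hk
    subst this
    exact ⟨i, hj, hi⟩
  · exact absurd hc (by simp)

/-- the abstract system is factor-critical. -/
theorem absB_fc (hM : FC (gr B) M) (hx : x ∉ M) (hy : y ∉ M) (hxy : x ≠ y)
    (h1 : ∃ i ∈ E1, (B i ∩ M).Nonempty) (h2 : ∃ i ∈ E2, (B i ∩ M).Nonempty) (ha : 0 < a) :
    FC (gr (absB B M E1 E2 x y a b)) (insert x (insert y M)) := by
  have hM' : FC (gr (absB B M E1 E2 x y a b)) M :=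
    ⟨hM.1, fun v hv => pm_congr (hM.2 v hv) fun u hu w hw h =>
      (absB_adj_M hx hy (mem_of_mem_erase hu) (mem_of_mem_erase hw)).2 h⟩
  refine hM'.insert_pair hx hy ⟨hxy, Sum.inr (Sum.inl ⟨0, ha⟩), ?_, ?_⟩ ?_ ?_
  · simp [absB]
  · simp [absB]
  · obtain ⟨i, hi, u, hu⟩ := h1
    rw [mem_inter] at hu
    refine ⟨u, hu.2, fun h => hx (h ▸ hu.2), Sum.inl i, ?_, ?_⟩
    · exact mem_absB_inl.2 (Or.inr (Or.inl ⟨rfl, hi⟩))
    · exact mem_absB_inl.2 (Or.inl hu)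
  · obtain ⟨i, hi, u, hu⟩ := h2
    rw [mem_inter] at hu
    refine ⟨u, hu.2, fun h => hy (h ▸ hu.2), Sum.inl i, ?_, ?_⟩
    · exact mem_absB_inl.2 (Or.inr (Or.inr ⟨rfl, hi⟩))
    · exact mem_absB_inl.2 (Or.inl hu)

end

end Pool.Agent.Hyp6
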