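import Pool.Agent.Hyp6.Abs

/-!
# HYP6: the abstract system: block sizes, regularity and counts
-/

set_option autoImplicit false

namespace Pool.Agent.Hyp6

open Finset Pool.Agent.Hyp5

variable {V : Type*} [DecidableEq V] {ι : Type*} [Fintype ι]
variable {B : ι → Finset V} {M : Finset V} {E1 E2 : Finset ι} {x y : V} {a b : ℕ}

omit [Fintype ι] in
theorem absB_small (hs : Small B) (hd : ∀ i ∈ E1, i ∉ E2)
    (h1 : ∀ i ∈ E1, (B i ∩ M).card ≤ 2) (h2 : ∀ i ∈ E2, (B i ∩ M).card ≤ 2) :
    Small (absB B M E1 E2 x y a b) := by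
  classical
  intro k
  rcases k with i | c | c
  · by_cases hi1 : i ∈ E1
    · have hi2 := hd i hi1
      have h3 := h1 i hi1
      simp only [absB, hi1, hi2, if_true, if_false, union_empty]
      exact (card_union_le _ _).trans (by rw [card_singleton]; omega)
    · by_cases hi2 : i ∈ E2
      · have h3 := h2 i hi2
        simp only [absB, hi1, hi2, if_true, if_false, empty_union]
        exact (card_union_le _ _).trans (by rw [card_singleton]; omega)
      · simp only [absB, hi1, hi2, if_false, union_empty]
        exact (card_le_card inter_subset_left).trans (hs i)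
  · simp only [absB]
    exact (card_le_two).trans (by norm_num)
  · simp only [absB, card_singleton]
    norm_num

theorem card_filter_sum {κ : Type*} [Fintype κ] (p : ι ⊕ κ → Prop) [DecidablePred p] :
    (univ.filter p).card = (univ.filter (fun i : ι => p (Sum.inl i))).card +
      (univ.filter (fun c : κ => p (Sum.inr c))).card := by
  simp only [card_filter]
  rw [Fintype.sum_sum_type]

theorem absB_reg (hr : Reg B M) (hx : x ∉ M) (hy : y ∉ M) (hxy : x ≠ y)
    (hx5 : E1.card + a = 5) (hy5 : E2.card + a + b = 5) :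
    Reg (absB B M E1 E2 x y a b) (insert x (insert y M)) := by
  classical
  intro v hv
  rw [card_filter_sum, card_filter_sum (fun c : Fin a ⊕ Fin b =>
    v ∈ absB B M E1 E2 x y a b (Sum.inr c))]
  rcases mem_insert.1 hv with rfl | hv
  · have h1 : (univ.filter (fun i : ι => v ∈ absB B M E1 E2 v y a b (Sum.inl i))) = E1 := by
      ext i
      rw [mem_filter, mem_absB_x hx hxy]
      simp
    rw [h1]
    simp only [absB, mem_insert, mem_singleton, hxy, true_or, or_false]
    simp
    exact hx5
  · rcases mem_insert.1 hv with rfl | hv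
    · have h1 : (univ.filter (fun i : ι => v ∈ absB B M E1 E2 x v a b (Sum.inl i))) = E2 := by
        ext i
        rw [mem_filter, mem_absB_y hy hxy]
        simp
      rw [h1]
      simp only [absB, mem_insert, mem_singleton, or_true]
      simp
      omega
    · have hvx : v ≠ x := fun h => hx (h ▸ hv)
      have hvy : v ≠ y := fun h => hy (h ▸ hv)
      have h1 : (univ.filter (fun i : ι => v ∈ absB B M E1 E2 x y a b (Sum.inl i))) =
          univ.filter (fun i => v ∈ B i) := by
        ext i
        rw [mem_filter, mem_filter, mem_absB_M hv hx hy]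
        simp
      rw [h1, hr v hv]
      simp [absB, hvx, hvy]

/-- the number of blocks of the abstract system. -/
theorem absB_cm (h1 : ∀ i ∈ E1, (B i ∩ M).Nonempty) (h2 : ∀ i ∈ E2, (B i ∩ M).Nonempty) :
    cm (absB B M E1 E2 x y a b) (insert x (insert y M)) = cm B M + a + b := by
  classical
  unfold cm tch
  rw [card_filter_sum, card_filter_sum (fun c : Fin a ⊕ Fin b =>
    (absB B M E1 E2 x y a b (Sum.inr c) ∩ insert x (insert y M)).Nonempty)]
  have e1 : (univ.filter (fun i : ι => (absB B M E1 E2 x y a b (Sum.inl i) ∩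
      insert x (insert y M)).Nonempty)) = univ.filter (fun i => (B i ∩ M).Nonempty) := by
    ext i
    rw [mem_filter, mem_filter]
    refine and_congr_right fun _ => ?_
    constructor
    · rintro ⟨v, hv⟩
      rw [mem_inter, mem_absB_inl] at hv
      rcases hv.1 with h | h | h
      · exact ⟨v, mem_inter.2 h⟩
      · exact h1 i h.2
      · exact h2 i h.2
    · rintro ⟨v, hv⟩
      rw [mem_inter] at hv
      exact ⟨v, mem_inter.2 ⟨mem_absB_inl.2 (Or.inl hv),
        mem_insert_of_mem (mem_insert_of_mem hv.2)⟩⟩
  have e2 : ∀ c : Fin a, (absB B M E1 E2 x y a b (Sum.inr (Sum.inl c)) ∩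
      insert x (insert y M)).Nonempty := fun c =>
    ⟨x, mem_inter.2 ⟨by simp [absB], mem_insert_self _ _⟩⟩
  have e3 : ∀ c : Fin b, (absB B M E1 E2 x y a b (Sum.inr (Sum.inr c)) ∩
      insert x (insert y M)).Nonempty := fun c =>
    ⟨y, mem_inter.2 ⟨by simp [absB], mem_insert_of_mem (mem_insert_self _ _)⟩⟩
  rw [e1]
  simp only [e2, e3]
  simp
  ring

theorem absB_G (hx : x ∉ M) (hy : y ∉ M) (hxy : x ≠ y)
    (h1 : ∀ i ∈ E1, (B i ∩ M).Nonempty) (h2 : ∀ i ∈ E2, (B i ∩ M).Nonempty) :
    G (absB B M E1 E2 x y a b) (insert x (insert y M)) = G B M + 4 * (a + b : ℤ) - 14 := by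
  have h3 : (insert x (insert y M)).card = M.card + 2 := by
    rw [card_insert_of_notMem, card_insert_of_notMem hy]
    rw [mem_insert]
    rintro (h | h)
    · exact hxy h
    · exact hx h
  unfold G
  rw [absB_cm h1 h2, h3]
  push_cast
  ring

/-- points with two single traces in `Q` keep them. -/
theorem absB_ee {Q : Finset V} (hMQ : M ⊆ Q) (hx : x ∉ M) (hy : y ∉ M) (hxy : x ≠ y)
    (h1 : ∀ i ∈ E1, 2 ≤ (B i ∩ Q).card) (h2 : ∀ i ∈ E2, 2 ≤ (B i ∩ Q).card) :
    ee B Q M + (if 2 ≤ b then 1 else 0) ≤
      ee (absB B M E1 E2 x y a b) (insert x (insert y M)) (insert x (insert y M)) := by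
  classical
  have key : ∀ t ∈ M, (univ.filter (fun i => B i ∩ Q = {t})).card ≤
      (univ.filter (fun k => absB B M E1 E2 x y a b k ∩ insert x (insert y M) = {t})).card := by
    intro t ht
    rw [card_filter_sum]
    refine le_trans (card_le_card fun i hi => ?_) (Nat.le_add_right _ _)
    rw [mem_filter] at hi ⊢
    refine ⟨mem_univ _, ?_⟩
    have hi1 : i ∉ E1 := fun h => by
      have := h1 i h
      rw [hi.2, card_singleton] at this
      omega
    have hi2 : i ∉ E2 := fun h => by
      have := h2 i h
      rw [hi.2, card_singleton] at this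
      omega
    have ht' : t ∈ B i := by
      have : t ∈ B i ∩ Q := by rw [hi.2]; exact mem_singleton_self t
      exact (mem_inter.1 this).1
    ext v
    rw [mem_inter, mem_absB_inl, mem_singleton]
    constructor
    · rintro ⟨h | h | h, _⟩
      · have : v ∈ B i ∩ Q := mem_inter.2 ⟨h.1, hMQ h.2⟩
        rw [hi.2] at this
        exact mem_singleton.1 this
      · exact absurd h.2 hi1
      · exact absurd h.2 hi2
    · rintro rfl
      exact ⟨Or.inl ⟨ht', ht⟩, mem_insert_of_mem (mem_insert_of_mem ht)⟩
  have keyy : b ≤ (univ.filter (fun k => absB B M E1 E2 x y a b k ∩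
      insert x (insert y M) = {y})).card := by
    rw [card_filter_sum, card_filter_sum (fun c : Fin a ⊕ Fin b =>
      absB B M E1 E2 x y a b (Sum.inr c) ∩ insert x (insert y M) = {y})]
    have e3 : ∀ c : Fin b, (absB B M E1 E2 x y a b (Sum.inr (Sum.inr c)) ∩
        insert x (insert y M)) = {y} := by
      intro c
      simp only [absB]
      exact inter_eq_left.2 (by simp)
    simp only [e3]
    simp only [card_univ, Fintype.card_fin, filter_true]
    omega
  unfold ee
  split_ifs with hb
  · have hsub : insert y (M.filter (fun t => 2 ≤ (univ.filter (fun i => B i ∩ Q = {t})).card)) ⊆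
        (insert x (insert y M)).filter (fun t => 2 ≤ (univ.filter (fun k =>
          absB B M E1 E2 x y a b k ∩ insert x (insert y M) = {t})).card) := by
      intro t ht
      rw [mem_filter]
      rcases mem_insert.1 ht with rfl | ht
      · exact ⟨by simp, hb.trans keyy⟩
      · rw [mem_filter] at ht
        exact ⟨mem_insert_of_mem (mem_insert_of_mem ht.1), ht.2.trans (key t ht.1)⟩
    refine le_trans (le_of_eq ?_) (card_le_card hsub)
    rw [card_insert_of_notMem]
    rw [mem_filter]
    exact fun h => hy h.1
  · rw [add_zero]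
    refine card_le_card fun t ht => ?_
    rw [mem_filter] at ht ⊢
    exact ⟨mem_insert_of_mem (mem_insert_of_mem ht.1), ht.2.trans (key t ht.1)⟩

end Pool.Agent.Hyp6
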