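import Pool.Agent.Hyp6.Close

/-! # HYP6: the abstract system is bad -/

set_option autoImplicit false

namespace Pool.Agent.Hyp6

open Finset Pool.Agent.Hyp5

universe u v

variable {V : Type v} [DecidableEq V] {ι : Type u} [Fintype ι] {B : ι → Finset V}

/-- one of the new points lies in the triple. -/
theorem absB_bad_one {Q M J1 J2 : Finset V} (hs : Small B)
    (hbQ : Bad B Q) (hMQ : M ⊆ Q) (h1 : J1 ⊆ Q \ M) (h2 : J2 ⊆ Q \ M) (hd : Disjoint J1 J2)
    (hal : ∀ p ∈ J1, ∀ q ∈ J2, PM (gr B) (Q \ insert p (insert q M)))
    {E1 E2 : Finset ι} (hE1 : E1 ⊆ cxs B M J1) (hE2 : E2 ⊆ cxs B M J2)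
    {i : ι} (hi : i ∈ E1) (hc : (B i ∩ M).card = 2) {w : V} (hw : w ∈ M \ B i)
    (hwE : ∃ j ∈ E2, w ∈ B j) (hpm : PM (gr B) ((M \ B i).erase w)) : False := by
  obtain ⟨j, hj, hwj⟩ := hwE
  obtain ⟨⟨u, hu⟩, p, hp⟩ := mem_cxs.1 (hE1 hi)
  obtain ⟨_, q, hq⟩ := mem_cxs.1 (hE2 hj)
  rw [mem_inter] at hp hq hu
  have hpq : p ≠ q := fun h => disjoint_left.1 hd hp.2 (h ▸ hq.2)
  have hpM := h1 hp.2
  have hqM := h2 hq.2
  have hp' := mem_sdiff.1 hpM
  have hq' := mem_sdiff.1 hqM
  have hw' := mem_sdiff.1 hw
  have hB : B i = insert p (B i ∩ M) := by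
    refine (eq_of_subset_of_card_le ?_ ?_).symm
    · intro v hv
      rcases mem_insert.1 hv with rfl | hv
      · exact hp.1
      · exact (mem_inter.1 hv).1
    · rw [card_insert_of_notMem (fun h => hp'.2 (mem_inter.1 h).2), hc]
      exact hs i
  have hin : Inner B Q i := by
    refine ⟨?_, ?_⟩
    · rw [hB]
      intro v hv
      rcases mem_insert.1 hv with rfl | hv
      · exact hp'.1
      · exact hMQ (mem_inter.1 hv).2
    · rw [hB, card_insert_of_notMem (fun h => hp'.2 (mem_inter.1 h).2), hc]
  refine hbQ i hin ?_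
  have hMi : M \ (B i ∩ M) = M \ B i := by
    ext v
    simp only [mem_sdiff, mem_inter, not_and]
    tauto
  rw [hB]
  refine glue1 hMQ hpM hqM hpq (hal p hp.2 q hq.2) inter_subset_right (w := w) ?_ ?_ ?_
  · rw [hMi]; exact hw
  · exact ⟨fun h => hq'.2 (h ▸ hw'.1), j, hq.1, hwj⟩
  · rw [hMi]; exact hpm

theorem absB_bad {Q M J1 J2 : Finset V} (hs : Small B)
    (hbM : Bad B M) (hbQ : Bad B Q) (hMQ : M ⊆ Q) (h1 : J1 ⊆ Q \ M) (h2 : J2 ⊆ Q \ M)
    (hd : Disjoint J1 J2)
    (hal : ∀ p ∈ J1, ∀ q ∈ J2, PM (gr B) (Q \ insert p (insert q M)))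
    {E1 E2 : Finset ι} (hE1 : E1 ⊆ cxs B M J1) (hE2 : E2 ⊆ cxs B M J2)
    (hdE : ∀ i ∈ E1, i ∉ E2) {x y : V} (hx : x ∉ M) (hy : y ∉ M) (hxy : x ≠ y) {a b : ℕ} :
    Bad (absB B M E1 E2 x y a b) (insert x (insert y M)) := by
  classical
  have hM : ∀ S : Finset V, S ⊆ M → PM (gr (absB B M E1 E2 x y a b)) S → PM (gr B) S :=
    fun S hS h => pm_congr h fun u hu w hw hadj => (absB_adj_M hx hy (hS hu) (hS hw)).1 hadj
  rintro (i | c | c) ⟨hin, hc⟩ hpm
  · by_cases hi1 : i ∈ E1
    · have hi2 := hdE i hi1
      have hBi : absB B M E1 E2 x y a b (Sum.inl i) = insert x (B i ∩ M) := by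
        simp only [absB, hi1, hi2, if_true, if_false, union_empty]
        rw [union_comm]
        rfl
      rw [hBi] at hc hpm
      rw [card_insert_of_notMem (fun h => hx (mem_inter.1 h).2)] at hc
      have hset : insert x (insert y M) \ insert x (B i ∩ M) = insert y (M \ B i) := by
        ext v
        simp only [mem_sdiff, mem_insert, mem_inter, not_or, not_and]
        constructor
        · rintro ⟨h | h | h, h3, h4⟩
          · exact absurd h h3
          · exact Or.inl h
          · exact Or.inr ⟨h, fun h5 => h4 h5 h⟩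
        · rintro (rfl | ⟨h3, h4⟩)
          · exact ⟨Or.inr (Or.inl rfl), hxy.symm, fun _ h => hy h⟩
          · exact ⟨Or.inr (Or.inr h3), fun h => hx (h ▸ h3), fun h => absurd h h4⟩
      rw [hset] at hpm
      obtain ⟨w, hw, hadj, hpm2⟩ := pm_split hpm (mem_insert_self y _)
      have hwM : w ∈ M \ B i := by
        rcases mem_insert.1 hw with h | h
        · exact absurd h hadj.ne'
        · exact h
      have hset2 : insert y (M \ B i) \ {y, w} = (M \ B i).erase w := by
        ext v
        simp only [mem_sdiff, mem_insert, mem_singleton, mem_erase, not_or]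
        constructor
        · rintro ⟨h | h, h3, h4⟩
          · exact absurd h h3
          · exact ⟨h4, h⟩
        · rintro ⟨h4, h3, h5⟩
          exact ⟨Or.inr ⟨h3, h5⟩, fun h => hy (h ▸ h3), h4⟩
      rw [hset2] at hpm2
      exact absB_bad_one hs hbQ hMQ h1 h2 hd hal hE1 hE2 hi1 (by omega) hwM
        (absB_adj_y hx hy hxy (mem_sdiff.1 hwM).1 hadj)
        (hM _ ((erase_subset _ _).trans sdiff_subset) hpm2)
    · by_cases hi2 : i ∈ E2
      · have hBi : absB B M E1 E2 x y a b (Sum.inl i) = insert y (B i ∩ M) := by
          simp only [absB, hi1, hi2, if_true, if_false, empty_union]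
          rw [union_comm]
          rfl
        rw [hBi] at hc hpm
        rw [card_insert_of_notMem (fun h => hy (mem_inter.1 h).2)] at hc
        have hset : insert x (insert y M) \ insert y (B i ∩ M) = insert x (M \ B i) := by
          ext v
          simp only [mem_sdiff, mem_insert, mem_inter, not_or, not_and]
          constructor
          · rintro ⟨h | h | h, h3, h4⟩
            · exact Or.inl h
            · exact absurd h h3
            · exact Or.inr ⟨h, fun h5 => h4 h5 h⟩
          · rintro (rfl | ⟨h3, h4⟩)
            · exact ⟨Or.inl rfl, hxy, fun _ h => hx h⟩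
            · exact ⟨Or.inr (Or.inr h3), fun h => hy (h ▸ h3), fun h => absurd h h4⟩
        rw [hset] at hpm
        obtain ⟨w, hw, hadj, hpm2⟩ := pm_split hpm (mem_insert_self x _)
        have hwM : w ∈ M \ B i := by
          rcases mem_insert.1 hw with h | h
          · exact absurd h hadj.ne'
          · exact h
        have hset2 : insert x (M \ B i) \ {x, w} = (M \ B i).erase w := by
          ext v
          simp only [mem_sdiff, mem_insert, mem_singleton, mem_erase, not_or]
          constructor
          · rintro ⟨h | h, h3, h4⟩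
            · exact absurd h h3
            · exact ⟨h4, h⟩
          · rintro ⟨h4, h3, h5⟩
            exact ⟨Or.inr ⟨h3, h5⟩, fun h => hx (h ▸ h3), h4⟩
        rw [hset2] at hpm2
        have hal' : ∀ p ∈ J2, ∀ q ∈ J1, PM (gr B) (Q \ insert p (insert q M)) := by
          intro p hp q hq
          rw [Finset.insert_comm]
          exact hal q hq p hp
        exact absB_bad_one hs hbQ hMQ h2 h1 hd.symm hal' hE2 hE1 hi2 (by omega) hwM
          (absB_adj_x hx hy hxy (mem_sdiff.1 hwM).1 hadj)
          (hM _ ((erase_subset _ _).trans sdiff_subset) hpm2)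
      · have hBi : absB B M E1 E2 x y a b (Sum.inl i) = B i ∩ M := by
          simp only [absB, hi1, hi2, if_false, union_empty]
        rw [hBi] at hc hpm
        have hBM : B i ∩ M = B i := eq_of_subset_of_card_le inter_subset_left (by
          rw [hc]; exact hs i)
        rw [hBM] at hc hpm
        have hBsub : B i ⊆ M := by rw [← hBM]; exact inter_subset_right
        have hset : insert x (insert y M) \ B i = insert x (insert y (M \ B i)) := by
          ext v
          simp only [mem_sdiff, mem_insert]
          constructor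
          · rintro ⟨h | h | h, h3⟩
            · exact Or.inl h
            · exact Or.inr (Or.inl h)
            · exact Or.inr (Or.inr ⟨h, h3⟩)
          · rintro (h | h | h)
            · exact ⟨Or.inl h, fun h2 => hx (h ▸ hBsub h2)⟩
            · exact ⟨Or.inr (Or.inl h), fun h2 => hy (h ▸ hBsub h2)⟩
            · exact ⟨Or.inr (Or.inr h.1), h.2⟩
        rw [hset] at hpm
        obtain ⟨w, hw, hadj, hpm2⟩ := pm_split hpm (mem_insert_self x _)
        by_cases hwy : w = y
        · subst hwy
          have hset2 : insert x (insert w (M \ B i)) \ {x, w} = M \ B i := by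
            ext v
            simp only [mem_sdiff, mem_insert, mem_singleton, not_or]
            constructor
            · rintro ⟨h | h | h, h3, h4⟩
              · exact absurd h h3
              · exact absurd h h4
              · exact h
            · rintro ⟨h3, h5⟩
              exact ⟨Or.inr (Or.inr ⟨h3, h5⟩), fun h => hx (h ▸ h3), fun h => hy (h ▸ h3)⟩
          rw [hset2] at hpm2
          exact hbM i ⟨hBsub, hc⟩ (hM _ sdiff_subset hpm2)
        · have hwM : w ∈ M \ B i := by
            rcases mem_insert.1 hw with h | h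
            · exact absurd h hadj.ne'
            · rcases mem_insert.1 h with h | h
              · exact absurd h hwy
              · exact h
          have hset2 : insert x (insert y (M \ B i)) \ {x, w} =
              insert y ((M \ B i).erase w) := by
            ext v
            simp only [mem_sdiff, mem_insert, mem_singleton, mem_erase, not_or]
            constructor
            · rintro ⟨h | h | h, h3, h4⟩
              · exact absurd h h3
              · exact Or.inl h
              · exact Or.inr ⟨h4, h⟩
            · rintro (rfl | ⟨h4, h3, h5⟩)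
              · exact ⟨Or.inr (Or.inl rfl), hxy.symm, fun h => hwy h.symm⟩
              · exact ⟨Or.inr (Or.inr ⟨h3, h5⟩), fun h => hx (h ▸ h3), h4⟩
          rw [hset2] at hpm2
          obtain ⟨z, hz, hadj2, hpm3⟩ := pm_split hpm2 (mem_insert_self y _)
          have hzM : z ∈ (M \ B i).erase w := by
            rcases mem_insert.1 hz with h | h
            · exact absurd h hadj2.ne'
            · exact h
          have hzM' := mem_erase.1 hzM
          have hset3 : insert y ((M \ B i).erase w) \ {y, z} =
              ((M \ B i).erase w).erase z := by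
            ext v
            simp only [mem_sdiff, mem_insert, mem_singleton, mem_erase, not_or]
            constructor
            · rintro ⟨h | h, h3, h4⟩
              · exact absurd h h3
              · exact ⟨h4, h⟩
            · rintro ⟨h4, h3, h5, h6⟩
              exact ⟨Or.inr ⟨h3, h5, h6⟩, fun h => hy (h ▸ h5), h4⟩
          rw [hset3] at hpm3
          obtain ⟨j1, hj1, hwj⟩ := absB_adj_x hx hy hxy (mem_sdiff.1 hwM).1 hadj
          obtain ⟨j2, hj2, hzj⟩ := absB_adj_y hx hy hxy (mem_sdiff.1 hzM'.2).1 hadj2
          obtain ⟨_, p, hp⟩ := mem_cxs.1 (hE1 hj1)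
          obtain ⟨_, q, hq⟩ := mem_cxs.1 (hE2 hj2)
          rw [mem_inter] at hp hq
          have hpq : p ≠ q := fun h => disjoint_left.1 hd hp.2 (h ▸ hq.2)
          have hpM := h1 hp.2
          have hqM := h2 hq.2
          refine hbQ i ⟨hBsub.trans hMQ, hc⟩ ?_
          refine glue2 hMQ hpM hqM hpq (hal p hp.2 q hq.2) hBsub (w := z) (z := w) hzM'.2 hwM
            (fun h => hzM'.1 h.symm) ?_ ?_ ?_
          · exact ⟨fun h => (mem_sdiff.1 hqM).2 (h ▸ (mem_sdiff.1 hzM'.2).1), j2, hq.1, hzj⟩
          · exact ⟨fun h => (mem_sdiff.1 hpM).2 (h ▸ (mem_sdiff.1 hwM).1), j1, hp.1, hwj⟩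
          · exact hM _ ((erase_subset _ _).trans ((erase_subset _ _).trans sdiff_subset)) hpm3
  · simp only [absB] at hc
    have := card_le_two (a := x) (b := y)
    omega
  · simp only [absB, card_singleton] at hc
    omega

end Pool.Agent.Hyp6
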