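import Pool.Agent.Hyp6.Peel
import Pool.Agent.Hyp6.Abs2

/-!
# HYP6 ABSG: general abstract systems

`absG B C Y E N`: the set `C` together with new points `Y`; the point `y` is added to the traces on `C`
of the blocks of `E y`, and `N` is a family of new blocks inside `Y`.
-/

set_option autoImplicit false

namespace Pool.Agent.Hyp6

open Finset Pool.Agent.Hyp5

variable {V : Type*} [DecidableEq V] {ι : Type*} {κ : Type*}

open Classical in
/-- the general abstract system. -/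
noncomputable def absG (B : ι → Finset V) (C Y : Finset V) (E : V → Finset ι) (N : κ → Finset V) :
    ι ⊕ κ → Finset V
  | Sum.inl i => (B i ∩ C) ∪ Y.filter (fun y => i ∈ E y)
  | Sum.inr c => N c

open Classical in
/-- the data of a general abstract system. -/
structure AbsData [Fintype κ] (B : ι → Finset V) (C Y : Finset V) (E : V → Finset ι)
    (N : κ → Finset V) : Prop where
  dis : Disjoint C Y
  meets : ∀ y ∈ Y, ∀ i ∈ E y, (B i ∩ C).Nonempty
  ne : ∀ y ∈ Y, (E y).Nonempty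
  subN : ∀ c, N c ⊆ Y
  neN : ∀ c, (N c).Nonempty
  deg : ∀ y ∈ Y, (E y).card + (univ.filter (fun c => y ∈ N c)).card = 5
  size : ∀ i, (B i ∩ C).card + (Y.filter (fun y => i ∈ E y)).card ≤ 3
  sizeN : ∀ c, (N c).card ≤ 3

section

variable {B : ι → Finset V} {C Y : Finset V} {E : V → Finset ι} {N : κ → Finset V}

theorem mem_absG_inl {i : ι} {v : V} : v ∈ absG B C Y E N (Sum.inl i) ↔
    (v ∈ B i ∧ v ∈ C) ∨ (v ∈ Y ∧ i ∈ E v) := by
  simp only [absG, mem_union, mem_inter, mem_filter]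

theorem mem_absG_inr {c : κ} {v : V} : v ∈ absG B C Y E N (Sum.inr c) ↔ v ∈ N c := by
  simp only [absG]

variable [Fintype κ]

theorem AbsData.notMem (h : AbsData B C Y E N) {v : V} (hv : v ∈ C) : v ∉ Y :=
  fun h' => disjoint_left.1 h.dis hv h'

theorem AbsData.notMem' (h : AbsData B C Y E N) {v : V} (hv : v ∈ Y) : v ∉ C :=
  fun h' => disjoint_left.1 h.dis h' hv

theorem AbsData.mem_C (h : AbsData B C Y E N) {v : V} (hv : v ∈ C) {k : ι ⊕ κ} :
    v ∈ absG B C Y E N k ↔ ∃ i, k = Sum.inl i ∧ v ∈ B i := by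
  rcases k with i | c
  · rw [mem_absG_inl]
    constructor
    · rintro (h1 | h1)
      · exact ⟨i, rfl, h1.1⟩
      · exact absurd h1.1 (h.notMem hv)
    · rintro ⟨j, hj, hvj⟩
      have : i = j := Sum.inl.inj hj
      subst this
      exact Or.inl ⟨hvj, hv⟩
  · rw [mem_absG_inr]
    constructor
    · intro h1
      exact absurd (h.subN c h1) (h.notMem hv)
    · rintro ⟨j, hj, _⟩
      exact absurd hj (by simp)

theorem AbsData.mem_Y (h : AbsData B C Y E N) {v : V} (hv : v ∈ Y) {k : ι ⊕ κ} :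
    v ∈ absG B C Y E N k ↔ (∃ i ∈ E v, k = Sum.inl i) ∨ ∃ c, k = Sum.inr c ∧ v ∈ N c := by
  rcases k with i | c
  · rw [mem_absG_inl]
    constructor
    · rintro (h1 | h1)
      · exact absurd h1.2 (h.notMem' hv)
      · exact Or.inl ⟨i, h1.2, rfl⟩
    · rintro (⟨j, hj, hk⟩ | ⟨c, hc, _⟩)
      · have : i = j := Sum.inl.inj hk
        subst this
        exact Or.inr ⟨hv, hj⟩
      · exact absurd hc (by simp)
  · rw [mem_absG_inr]
    constructor
    · intro h1
      exact Or.inr ⟨c, rfl, h1⟩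
    · rintro (⟨j, _, hj⟩ | ⟨d, hd, hvd⟩)
      · exact absurd hj (by simp)
      · have : c = d := Sum.inr.inj hd
        subst this
        exact hvd

theorem AbsData.small (h : AbsData B C Y E N) : Small (absG B C Y E N) := by
  classical
  rintro (i | c)
  · refine (card_union_le _ _).trans ?_
    convert h.size i using 3
  · exact h.sizeN c

/-- the edges inside `C` are the old ones. -/
theorem AbsData.adj_C (h : AbsData B C Y E N) {u v : V} (hu : u ∈ C) (hv : v ∈ C) :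
    (gr (absG B C Y E N)).Adj u v ↔ (gr B).Adj u v := by
  constructor
  · rintro ⟨hne, k, hk1, hk2⟩
    obtain ⟨i, rfl, hi⟩ := (h.mem_C hu).1 hk1
    obtain ⟨j, hj, hvj⟩ := (h.mem_C hv).1 hk2
    have : i = j := Sum.inl.inj hj
    subst this
    exact ⟨hne, i, hi, hvj⟩
  · rintro ⟨hne, i, hi, hj⟩
    exact ⟨hne, Sum.inl i, (h.mem_C hu).2 ⟨i, rfl, hi⟩, (h.mem_C hv).2 ⟨i, rfl, hj⟩⟩

/-- a new point is adjacent to the points of `C` in its blocks. -/
theorem AbsData.adj_Y (h : AbsData B C Y E N) {y u : V} (hy : y ∈ Y) (hu : u ∈ C) {i : ι}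
    (hi : i ∈ E y) (hui : u ∈ B i) : (gr (absG B C Y E N)).Adj y u :=
  ⟨fun he => h.notMem' hy (he ▸ hu), Sum.inl i, (h.mem_Y hy).2 (Or.inl ⟨i, hi, rfl⟩),
    (h.mem_C hu).2 ⟨i, rfl, hui⟩⟩

/-- the abstract system is connected. -/
theorem AbsData.conn (h : AbsData B C Y E N) (hC : Conn (gr B) C) :
    Conn (gr (absG B C Y E N)) (C ∪ Y) := by
  refine ⟨hC.1.mono subset_union_left, fun Z hZ hne => ?_⟩
  have hY : ∀ y ∈ Y, ∃ u ∈ C, (gr (absG B C Y E N)).Adj y u := by
    intro y hy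
    obtain ⟨i, hi⟩ := h.ne y hy
    obtain ⟨u, hu⟩ := h.meets y hy i hi
    rw [mem_inter] at hu
    exact ⟨u, hu.2, h.adj_Y hy hu.2 hi hu.1⟩
  have h1 : (Z ∩ C).Nonempty := by
    obtain ⟨z, hz⟩ := hne
    rcases mem_union.1 (hZ.1 hz) with hzC | hzY
    · exact ⟨z, mem_inter.2 ⟨hz, hzC⟩⟩
    · obtain ⟨u, hu, hadj⟩ := hY z hzY
      exact ⟨u, mem_inter.2 ⟨hZ.2 z hz u (mem_union_left _ hu) hadj, hu⟩⟩
  have h2 : Closed (gr B) C (Z ∩ C) := by
    refine ⟨inter_subset_right, fun x hx y hy hxy => ?_⟩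
    rw [mem_inter] at hx ⊢
    exact ⟨hZ.2 x hx.1 y (mem_union_left _ hy) ((h.adj_C hx.2 hy).2 hxy), hy⟩
  have h3 : Z ∩ C = C := hC.2 _ h2 h1
  have hCZ : C ⊆ Z := by rw [← h3]; exact inter_subset_left
  refine Subset.antisymm hZ.1 fun v hv => ?_
  rcases mem_union.1 hv with hv | hv
  · exact hCZ hv
  · obtain ⟨u, hu, hadj⟩ := hY v hv
    exact hZ.2 u (hCZ hu) v (mem_union_right _ hv) hadj.symm

end

end Pool.Agent.Hyp6
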