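import Pool.Agent.Hyp6.AbsG

/-!
# HYP6 ABSG2: counts and cover number of general abstract systems
-/

set_option autoImplicit false

namespace Pool.Agent.Hyp6

open Finset Pool.Agent.Hyp5

variable {V : Type*} [DecidableEq V] {ι : Type*} [Fintype ι] {κ : Type*} [Fintype κ]
variable {B : ι → Finset V} {C Y : Finset V} {E : V → Finset ι} {N : κ → Finset V}

theorem AbsData.reg (h : AbsData B C Y E N) (hr : Reg B C) :
    Reg (absG B C Y E N) (C ∪ Y) := by
  classical
  intro v hv
  rw [card_filter_sum]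
  rcases mem_union.1 hv with hv | hv
  · have h1 : (univ.filter (fun i : ι => v ∈ absG B C Y E N (Sum.inl i))) =
        univ.filter (fun i => v ∈ B i) := by
      ext i
      rw [mem_filter, mem_filter, h.mem_C hv]
      simp
    have h2 : (univ.filter (fun c : κ => v ∈ absG B C Y E N (Sum.inr c))) = ∅ := by
      ext c
      rw [mem_filter, h.mem_C hv]
      simp
    rw [h1, h2, hr v hv, card_empty]
  · have h1 : (univ.filter (fun i : ι => v ∈ absG B C Y E N (Sum.inl i))) = E v := by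
      ext i
      rw [mem_filter, h.mem_Y hv]
      simp
    have h2 : (univ.filter (fun c : κ => v ∈ absG B C Y E N (Sum.inr c))) =
        univ.filter (fun c => v ∈ N c) := by
      ext c
      rw [mem_filter, mem_filter, mem_absG_inr]
    rw [h1, h2]
    convert h.deg v hv using 2

omit [Fintype ι] in
theorem AbsData.inter_self (h : AbsData B C Y E N) (k : ι ⊕ κ) :
    absG B C Y E N k ∩ (C ∪ Y) = absG B C Y E N k := by
  refine inter_eq_left.2 fun v hv => ?_
  rcases k with i | c
  · rw [mem_absG_inl] at hv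
    rcases hv with h1 | h1
    · exact mem_union_left _ h1.2
    · exact mem_union_right _ h1.1
  · rw [mem_absG_inr] at hv
    exact mem_union_right _ (h.subN c hv)

/-- the number of blocks of the abstract system. -/
theorem AbsData.cm (h : AbsData B C Y E N) :
    cm (absG B C Y E N) (C ∪ Y) = Hyp6.cm B C + Fintype.card κ := by
  classical
  unfold Hyp6.cm tch
  rw [card_filter_sum]
  congr 1
  · congr 1
    ext i
    rw [mem_filter, mem_filter, h.inter_self]
    refine and_congr_right fun _ => ?_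
    constructor
    · rintro ⟨v, hv⟩
      rw [mem_absG_inl] at hv
      rcases hv with h1 | h1
      · exact ⟨v, mem_inter.2 h1⟩
      · exact h.meets v h1.1 i h1.2
    · rintro ⟨v, hv⟩
      exact ⟨v, mem_absG_inl.2 (Or.inl (mem_inter.1 hv))⟩
  · have h1 : (univ.filter (fun c : κ => (absG B C Y E N (Sum.inr c) ∩ (C ∪ Y)).Nonempty)) =
        univ := by
      ext c
      rw [mem_filter, h.inter_self]
      simp only [mem_univ, true_and, iff_true]
      obtain ⟨v, hv⟩ := h.neN c
      exact ⟨v, mem_absG_inr.2 hv⟩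
    rw [h1, card_univ]

/-- a cover of the abstract system gives a cover of `C` and a cover of the remaining new points. -/
theorem AbsData.rho_ge (h : AbsData B C Y E N) {t : ℕ}
    (hcov : Cov (absG B C Y E N) (C ∪ Y))
    (ht : ∀ (T : Finset ι) (K : Finset κ), C ⊆ T.biUnion B →
      (∀ y ∈ Y, (∃ i ∈ T, i ∈ E y) ∨ ∃ c ∈ K, y ∈ N c) → t ≤ T.card + K.card) :
    t ≤ rho (absG B C Y E N) (C ∪ Y) := by
  classical
  refine le_rho hcov fun U hU => ?_
  have hcard : U.card = (univ.filter (fun i : ι => Sum.inl i ∈ U)).card +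
      (univ.filter (fun c : κ => Sum.inr c ∈ U)).card := by
    rw [← card_filter_sum (fun k : ι ⊕ κ => k ∈ U)]
    congr 1
    ext k
    simp
  rw [hcard]
  refine ht _ _ ?_ ?_
  · intro v hv
    obtain ⟨k, hk, hvk⟩ := mem_biUnion.1 (hU (mem_union_left _ hv))
    obtain ⟨i, rfl, hi⟩ := (h.mem_C hv).1 hvk
    exact mem_biUnion.2 ⟨i, mem_filter.2 ⟨mem_univ _, hk⟩, hi⟩
  · intro y hy
    obtain ⟨k, hk, hyk⟩ := mem_biUnion.1 (hU (mem_union_right _ hy))
    rcases (h.mem_Y hy).1 hyk with ⟨i, hi, rfl⟩ | ⟨c, rfl, hc⟩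
    · exact Or.inl ⟨i, mem_filter.2 ⟨mem_univ _, hk⟩, hi⟩
    · exact Or.inr ⟨c, mem_filter.2 ⟨mem_univ _, hk⟩, hc⟩

omit [Fintype ι] in
/-- an upper bound for the cover number of the abstract system. -/
theorem AbsData.rho_le (h : AbsData B C Y E N) {T : Finset ι} {K : Finset κ}
    (hT : C ⊆ T.biUnion B) (hK : ∀ y ∈ Y, (∃ i ∈ T, i ∈ E y) ∨ ∃ c ∈ K, y ∈ N c) :
    rho (absG B C Y E N) (C ∪ Y) ≤ T.card + K.card := by
  classical
  have h1 : C ∪ Y ⊆ (T.disjSum K).biUnion (absG B C Y E N) := by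
    intro v hv
    rw [mem_biUnion]
    rcases mem_union.1 hv with hv | hv
    · obtain ⟨i, hi, hvi⟩ := mem_biUnion.1 (hT hv)
      exact ⟨Sum.inl i, inl_mem_disjSum.2 hi, (h.mem_C hv).2 ⟨i, rfl, hvi⟩⟩
    · rcases hK v hv with ⟨i, hi, hvi⟩ | ⟨c, hc, hvc⟩
      · exact ⟨Sum.inl i, inl_mem_disjSum.2 hi, (h.mem_Y hv).2 (Or.inl ⟨i, hvi, rfl⟩)⟩
      · exact ⟨Sum.inr c, inr_mem_disjSum.2 hc, (h.mem_Y hv).2 (Or.inr ⟨c, rfl, hvc⟩)⟩
  refine (Hyp6.rho_le h1).trans ?_
  rw [card_disjSum]

/-- points with two single traces in `Q` keep them, and new points with two new single blocks are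
counted. -/
theorem AbsData.ee_ge (h : AbsData B C Y E N) {Q : Finset V} (hCQ : C ⊆ Q)
    (hE : ∀ y ∈ Y, ∀ i ∈ E y, 2 ≤ (B i ∩ Q).card) {Y2 : Finset V} (hY2 : Y2 ⊆ Y)
    (hN2 : ∀ y ∈ Y2, 2 ≤ (univ.filter (fun c => N c = {y})).card) :
    ee B Q C + Y2.card ≤ ee (absG B C Y E N) (C ∪ Y) (C ∪ Y) := by
  classical
  have key : ∀ t ∈ C, (univ.filter (fun i => B i ∩ Q = {t})).card ≤
      (univ.filter (fun k => absG B C Y E N k ∩ (C ∪ Y) = {t})).card := by
    intro t ht
    rw [card_filter_sum]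
    refine le_trans (card_le_card fun i hi => ?_) (Nat.le_add_right _ _)
    rw [mem_filter] at hi ⊢
    refine ⟨mem_univ _, ?_⟩
    rw [h.inter_self]
    have ht' : t ∈ B i := by
      have : t ∈ B i ∩ Q := by rw [hi.2]; exact mem_singleton_self t
      exact (mem_inter.1 this).1
    ext v
    rw [mem_absG_inl, mem_singleton]
    constructor
    · rintro (h1 | h1)
      · have : v ∈ B i ∩ Q := mem_inter.2 ⟨h1.1, hCQ h1.2⟩
        rw [hi.2] at this
        exact mem_singleton.1 this
      · have h2 := hE v h1.1 i h1.2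
        rw [hi.2, card_singleton] at h2
        omega
    · rintro rfl
      exact Or.inl ⟨ht', ht⟩
  have key2 : ∀ y ∈ Y2, 2 ≤
      (univ.filter (fun k => absG B C Y E N k ∩ (C ∪ Y) = {y})).card := by
    intro y hy
    rw [card_filter_sum]
    refine le_trans ((hN2 y hy).trans (card_le_card fun c hc => ?_)) (Nat.le_add_left _ _)
    rw [mem_filter] at hc ⊢
    refine ⟨mem_univ _, ?_⟩
    rw [h.inter_self]
    exact hc.2
  have hd : Disjoint (C.filter (fun t => 2 ≤ (univ.filter (fun i => B i ∩ Q = {t})).card)) Y2 :=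
    disjoint_of_subset_left (filter_subset _ _) (disjoint_of_subset_right hY2 h.dis)
  unfold ee
  rw [← card_union_of_disjoint hd]
  refine card_le_card fun t ht => ?_
  rw [mem_filter]
  rcases mem_union.1 ht with ht | ht
  · rw [mem_filter] at ht
    exact ⟨mem_union_left _ ht.1, ht.2.trans (key t ht.1)⟩
  · exact ⟨mem_union_right _ (hY2 ht), key2 t ht⟩

/-- the potential of the abstract system. -/
theorem AbsData.Pv_eq (h : AbsData B C Y E N) :
    Pv (absG B C Y E N) (C ∪ Y) = Pv B C + 5 * (Y.card : ℤ) + 4 * (Fintype.card κ : ℤ) -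
      24 * ((rho (absG B C Y E N) (C ∪ Y) : ℤ) - rho B C) := by
  rw [Hyp6.Pv_eq, Hyp6.Pv_eq, h.cm, card_union_of_disjoint h.dis]
  push_cast
  ring

end Pool.Agent.Hyp6
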