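import Pool.Agent.Hyp6.Cfg

/-!
# HYP6 CFG2: the gadgets of a configuration, as data

`Gdt.ok`: the gadget is valid; `Gdt.sound`: not all the premises of a valid gadget hold.
-/

set_option autoImplicit false

namespace Pool.Agent.Hyp6

open Finset Pool.Agent.Hyp5

universe u v

variable {V : Type v} [DecidableEq V] {ι : Type u} [Fintype ι]

/-- number of new blocks containing the group `z`. -/
def cntd (dum : List ℕ) (z : ℕ) : ℕ := (dum.map (fun m => if m.testBit z = true then 1 else 0)).sum

/-- number of new blocks containing only the group `z`. -/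
def cnt1 (dum : List ℕ) (z : ℕ) : ℕ := (dum.map (fun m => if m = 2 ^ z then 1 else 0)).sum

/-- number of bits. -/
def pcn (p m : ℕ) : ℕ := ((List.range p).map (fun z => if m.testBit z = true then 1 else 0)).sum

/-- number of hits used by a group. -/
def ezn (w : List (ℕ × ℕ)) : ℕ := (w.map Prod.snd).sum

/-- number of groups with two single new blocks. -/
def z2n (p : ℕ) (dum : List ℕ) : ℕ :=
  ((List.range p).map (fun z => if 2 ≤ cnt1 dum z then 1 else 0)).sum

/-- the groups not covered by the new block `c`. -/
def unc (gr : List ℕ) (c : ℕ) : List ℕ :=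
  ((List.range gr.length).filter (fun z => !(c.testBit z))).map (fun z => gr.getD z 0)

/-- the hits of a group are admissible. -/
def wok (N g : ℕ) (w : List (ℕ × ℕ)) : Bool :=
  decide ((w.map Prod.fst).Nodup) &&
    w.all (fun q => decide (q.1 < 2 ^ N) && decide (q.1 &&& g ≠ 0) && decide (1 ≤ q.2))

/-- the gadget is valid. -/
def Gdt.ok (N kap : ℕ) (g : Gdt) : Bool :=
  decide (g.wit.length = g.gr.length) && decide (g.gr.length ≤ N) && decide (1 ≤ g.R) &&
  decide (g.R ≤ 2) &&
  (List.range g.gr.length).all (fun z => (List.range g.gr.length).all (fun z' =>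
    decide (z = z') || decide (g.gr.getD z 0 &&& g.gr.getD z' 0 = 0))) &&
  (List.range g.gr.length).all (fun z => wok N (g.gr.getD z 0) (g.wit.getD z []) &&
    decide (1 ≤ ezn (g.wit.getD z [])) &&
    decide (ezn (g.wit.getD z []) + cntd g.dum z = 5)) &&
  g.dum.all (fun m => decide (1 ≤ pcn g.gr.length m) && decide (pcn g.gr.length m ≤ 3) &&
    decide (m < 2 ^ g.gr.length)) &&
  (decide (kap + 5 * g.gr.length + 4 * g.dum.length + 1 < 24 * g.R + 2 * z2n g.gr.length g.dum) ||
    (g.dum.any (fun m => decide (pcn g.gr.length m ≤ 2)) &&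
    decide (kap + 5 * g.gr.length + 4 * g.dum.length < 24 * g.R + 2 * z2n g.gr.length g.dum)))

/-- the premises of the gadget. -/
def Gdt.Prem (g : Gdt) (B : ι → Finset V) (x : ℕ → V) (N : ℕ) (C : ℕ → Finset V) : Prop :=
  (∀ w ∈ g.wit, ∀ q ∈ w, q.2 ≤ (hb B x N (C g.j) q.1).card) ∧
  (∀ M ∈ trv N g.gr, rf B x N (C g.j) M (g.R - 1)) ∧
  (g.R = 2 → ∀ c ∈ g.dum, ∀ M ∈ trv N (unc g.gr c), rf B x N (C g.j) M 0)

theorem exists_hits {B : ι → Finset V} {x : ℕ → V} {N : ℕ} {W : Finset V} :
    ∀ (w : List (ℕ × ℕ)), (w.map Prod.fst).Nodup → (∀ q ∈ w, q.1 < 2 ^ N) →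
      (∀ q ∈ w, q.2 ≤ (hb B x N W q.1).card) →
      ∃ E : Finset ι, E.card = ezn w ∧ ∀ i ∈ E, ∃ q ∈ w, i ∈ hb B x N W q.1 := by
  classical
  intro w
  induction w with
  | nil =>
    intro _ _ _
    exact ⟨∅, by simp [ezn], by simp⟩
  | cons q w ih =>
    intro hnd hlt hle
    rw [List.map_cons, List.nodup_cons] at hnd
    obtain ⟨E, hE1, hE2⟩ := ih hnd.2 (fun q' hq' => hlt q' (by simp [hq']))
      (fun q' hq' => hle q' (by simp [hq']))
    obtain ⟨E0, hE0, hE0c⟩ := exists_subset_card_eq (hle q (by simp))
    have hdis : Disjoint E0 E := by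
      rw [disjoint_left]
      intro i hi hi'
      obtain ⟨q', hq', hiq'⟩ := hE2 i hi'
      have hne : q.1 ≠ q'.1 := by
        intro he
        exact hnd.1 (he ▸ List.mem_map.2 ⟨q', hq', rfl⟩)
      exact disjoint_left.1 (hb_disj (hlt q (by simp)) (hlt q' (by simp [hq'])) hne)
        (hE0 hi) hiq'
    refine ⟨E0 ∪ E, ?_, ?_⟩
    · rw [card_union_of_disjoint hdis, hE0c, hE1]
      simp [ezn]
    · intro i hi
      rcases mem_union.1 hi with hi | hi
      · exact ⟨q, by simp, hE0 hi⟩
      · obtain ⟨q', hq', hiq'⟩ := hE2 i hi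
        exact ⟨q', by simp [hq'], hiq'⟩

theorem sum_fin_list {M : Type*} [AddCommMonoid M] {α : Type*} (l : List α) (f : α → M) :
    ∑ i : Fin l.length, f l[i] = (l.map f).sum := by
  exact Fin.sum_univ_fun_getElem l f

theorem card_filter_list {α : Type*} (l : List α) (P : α → Prop) [DecidablePred P] :
    (univ.filter (fun i : Fin l.length => P l[i])).card =
      (l.map (fun a => if P a then 1 else 0)).sum := by
  rw [card_filter, ← sum_fin_list l (fun a => if P a then 1 else 0)]

theorem card_filter_range (p : ℕ) (P : ℕ → Prop) [DecidablePred P] :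
    (univ.filter (fun z : Fin p => P z)).card =
      ((List.range p).map (fun z => if P z then 1 else 0)).sum := by
  rw [card_filter, ← Finset.sum_range (fun z => if P z then 1 else 0)]
  rfl

/-- **soundness of gadgets.** -/
theorem Gdt.sound {B : ι → Finset V} {Q : Finset V} {N r : ℕ} {x : ℕ → V} {C : ℕ → Finset V}
    {k : ℕ} (h : Cf B Q N r x C k) (ih : IHE.{u} V Q.card) (hr2 : 2 ≤ r) (g : Gdt) (hj : g.j < r)
    {kap : ℕ} (hkap : Pv B (C g.j) + 1 ≤ kap + 2 * (ee B Q (C g.j) : ℤ))
    (hok : g.ok N kap = true) : ¬ g.Prem B x N C := by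
  classical
  rintro ⟨hp1, hp2, hp3⟩
  unfold Gdt.ok at hok
  simp only [Bool.and_eq_true, decide_eq_true_eq, List.all_eq_true, List.mem_range] at hok
  obtain ⟨⟨⟨⟨⟨⟨⟨hwl, hpN⟩, hR1⟩, hR2⟩, hdisj⟩, hgr⟩, hdum⟩, hineq⟩ := hok
  set p := g.gr.length with hp
  set d := g.dum.length with hd
  set W := C g.j with hW
  have hWQ : W ⊆ Q := h.CQ g.j hj
  -- the hits
  have hE : ∀ z : Fin p, ∃ E : Finset ι, E.card = ezn (g.wit.getD z []) ∧
      ∀ i ∈ E, ∃ q ∈ g.wit.getD z [], i ∈ hb B x N W q.1 := by
    intro z
    have hz := hgr z z.2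
    obtain ⟨⟨hw, _⟩, _⟩ := hz
    unfold wok at hw
    simp only [Bool.and_eq_true, decide_eq_true_eq, List.all_eq_true] at hw
    have hzw : (z : ℕ) < g.wit.length := by rw [hwl]; exact z.2
    have hmem : g.wit.getD z [] ∈ g.wit := by
      rw [List.getD_eq_getElem _ _ hzw]
      exact List.getElem_mem hzw
    exact exists_hits _ hw.1 (fun q hq => (hw.2 q hq).1.1) (fun q hq => hp1 _ hmem q hq)
  choose E hE1 hE2 using hE
  set J : Fin p → Finset V := fun z => ptm x N (g.gr.getD z 0) with hJ
  set NN : Fin d → Finset (Fin p) := fun c => univ.filter (fun z : Fin p =>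
    (g.dum[c]).testBit z = true) with hNN
  have hgetD : ∀ z (hz : z < p), g.gr.getD z 0 = g.gr[z] := fun z hz =>
    List.getD_eq_getElem _ _ hz
  have hJQ : ∀ z, J z ⊆ Q \ W := by
    intro z v hv
    obtain ⟨a, ha, _, rfl⟩ := mem_ptm.1 hv
    exact mem_sdiff.2 ⟨h.xQ a ha, h.xC a ha g.j hj⟩
  have hcovJ : ∀ (S : Finset V), Cov B (W ∪ (S ∩ Q)) := fun S =>
    (cov_of_reg h.reg).mono (union_subset hWQ inter_subset_right)
  have hG : Gcl B Q W J E NN g.R := by
    refine ⟨hWQ, hJQ, ?_, ?_, ?_, ?_, ?_, ?_, ?_⟩
    · intro z z' hne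
      rw [disjoint_left]
      intro v hv hv'
      obtain ⟨a, ha, h1, rfl⟩ := mem_ptm.1 hv
      obtain ⟨b, hb, h2, he⟩ := mem_ptm.1 hv'
      have hab := h.inj b hb a ha he
      subst hab
      have h3 := hdisj z z.2 z' z'.2
      rw [Bool.or_eq_true, decide_eq_true_eq, decide_eq_true_eq] at h3
      rcases h3 with h3 | h3
      · exact hne (Fin.ext h3)
      · have h4 : (g.gr.getD z 0 &&& g.gr.getD z' 0).testBit b = true := by
          rw [Nat.testBit_and, h1, h2]
          rfl
        rw [h3] at h4
        simp at h4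
    · intro z i hi
      obtain ⟨q, hq, hiq⟩ := hE2 z i hi
      obtain ⟨hi1, hi2⟩ := mem_hb.1 hiq
      obtain ⟨⟨hw, _⟩, _⟩ := hgr z z.2
      unfold wok at hw
      simp only [Bool.and_eq_true, decide_eq_true_eq, List.all_eq_true] at hw
      obtain ⟨⟨hlt, hne0⟩, _⟩ := hw.2 q hq
      refine mem_cxs.2 ⟨hi1, ?_⟩
      obtain ⟨b, hb⟩ := Nat.exists_testBit_of_ne_zero hne0
      rw [Nat.testBit_and, Bool.and_eq_true] at hb
      have hbN : b < N := by
        by_contra hcon
        push Not at hcon
        have h2 : (2 : ℕ) ^ N ≤ 2 ^ b := Nat.pow_le_pow_right (by norm_num) hcon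
        rw [Nat.testBit_lt_two_pow (lt_of_lt_of_le hlt h2)] at hb
        exact absurd hb.1 (by simp)
      exact ⟨x b, mem_inter.2 ⟨(hi2 b hbN).2 hb.1, mem_ptm.2 ⟨b, hbN, hb.2, rfl⟩⟩⟩
    · intro z
      rw [← card_pos, hE1]
      exact (hgr z z.2).1.2
    · intro z
      have h1 := (hgr z z.2).2
      rw [hE1]
      have h2 : (univ.filter (fun c => z ∈ NN c)).card = cntd g.dum z := by
        have h3 := card_filter_list g.dum (fun m => m.testBit z = true)
        unfold cntd
        rw [← h3]
        congr 1
        ext c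
        simp only [mem_filter, mem_univ, true_and, hNN]
      rw [h2]
      exact h1
    · intro c
      have h1 := hdum g.dum[c] (List.getElem_mem _)
      have h2 := card_filter_range p (fun z => (g.dum[c]).testBit z = true)
      rw [← card_pos]
      have h3 : (NN c).card = pcn p g.dum[c] := h2
      rw [h3]
      exact h1.1.1
    · intro c
      have h1 := hdum g.dum[c] (List.getElem_mem _)
      have h2 := card_filter_range p (fun z => (g.dum[c]).testBit z = true)
      have h3 : (NN c).card = pcn p g.dum[c] := h2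
      rw [h3]
      exact h1.1.2
    · intro K f hf
      have hsub : ((univ.filter (fun z => ∀ c ∈ K, z ∉ NN c)).image f) ⊆ Q := by
        intro v hv
        obtain ⟨z, hz, rfl⟩ := mem_image.1 hv
        exact (mem_sdiff.1 (hJQ z (hf z (mem_filter.1 hz).2))).1
      have hcovf : Cov B (W ∪ (univ.filter (fun z => ∀ c ∈ K, z ∉ NN c)).image f) :=
        (cov_of_reg h.reg).mono (union_subset hWQ hsub)
      have hmono : rho B W ≤ rho B (W ∪ (univ.filter (fun z => ∀ c ∈ K, z ∉ NN c)).image f) :=
        rho_mono subset_union_left hcovf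
      rcases lt_or_ge K.card g.R with hK | hK
      swap
      · omega
      rcases Nat.eq_zero_or_pos K.card with hK0 | hK0
      · rw [card_eq_zero] at hK0
        subst hK0
        have hf' : ∀ z (hz : z < p), (if hz : z < p then f ⟨z, hz⟩ else f ⟨0, by omega⟩) ∈
            ptm x N g.gr[z] := by
          intro z hz
          rw [dif_pos hz]
          have := hf ⟨z, hz⟩ (by simp)
          rw [hJ] at this
          simp only at this
          rwa [hgetD z hz] at this
        rcases Nat.eq_zero_or_pos p with hp0 | hp0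
        · -- no groups
          obtain ⟨M, hM, hMe⟩ := exists_trv (x := x) (N := N) g.gr (fun _ => x 0)
            (fun z hz => absurd hz (by omega))
          have h1 := hp2 M hM
          unfold rf at h1
          rw [hMe, ← hp, hp0] at h1
          simp only [range_zero, image_empty, union_empty] at h1
          omega
        obtain ⟨M, hM, hMe⟩ := exists_trv (x := x) (N := N) g.gr
          (fun z => if hz : z < p then f ⟨z, hz⟩ else f ⟨0, hp0⟩) hf'
        have h1 := hp2 M hM
        unfold rf at h1
        rw [hMe] at h1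
        have h2 : (range g.gr.length).image (fun z => if hz : z < p then f ⟨z, hz⟩ else
            f ⟨0, hp0⟩) = (univ.filter (fun z => ∀ c ∈ (∅ : Finset (Fin d)), z ∉ NN c)).image f := by
          ext v
          simp only [mem_image, mem_range, mem_filter, mem_univ, true_and]
          constructor
          · rintro ⟨z, hz, rfl⟩
            rw [dif_pos hz]
            exact ⟨⟨z, hz⟩, by simp, rfl⟩
          · rintro ⟨z, _, rfl⟩
            exact ⟨z, z.2, by rw [dif_pos z.2]⟩
        rw [h2] at h1
        rw [card_empty]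
        omega
      · have hR : g.R = 2 := by omega
        have hK1 : K.card = 1 := by omega
        obtain ⟨c, rfl⟩ := card_eq_one.1 hK1
        set cm' := g.dum[c] with hcm
        have hunc : ∀ z, z ∈ (List.range g.gr.length).filter (fun z => !(cm'.testBit z)) ↔
            z < p ∧ cm'.testBit z = false := by
          intro z
          rw [List.mem_filter, List.mem_range]
          simp
          tauto
        set L := (List.range g.gr.length).filter (fun z => !(cm'.testBit z)) with hL
        have hLm : ∀ (t : ℕ) (ht : t < L.length), L[t] < p ∧ cm'.testBit L[t] = false := fun t ht =>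
          (hunc _).1 (List.getElem_mem ht)
        have hlen : (unc g.gr cm').length = L.length := by
          unfold unc
          rw [List.length_map]
        have hf' : ∀ t (ht : t < (unc g.gr cm').length),
            (if ht : t < L.length then f ⟨L[t], (hLm t ht).1⟩ else x 0) ∈
              ptm x N (unc g.gr cm')[t] := by
          intro t ht
          have ht' : t < L.length := by rw [← hlen]; exact ht
          rw [dif_pos ht']
          have h1 : (unc g.gr cm')[t] = g.gr.getD L[t] 0 := by
            unfold unc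
            rw [List.getElem_map]
          rw [h1]
          refine hf ⟨L[t], (hLm t ht').1⟩ ?_
          intro c' hc'
          rw [mem_singleton] at hc'
          subst hc'
          rw [hNN]
          simp only [mem_filter, mem_univ, true_and]
          rw [← hcm, (hLm t ht').2]
          simp
        obtain ⟨M, hM, hMe⟩ := exists_trv (x := x) (N := N) (unc g.gr cm')
          (fun t => if ht : t < L.length then f ⟨L[t], (hLm t ht).1⟩ else x 0) hf'
        have h1 := hp3 hR cm' (List.getElem_mem _) M hM
        unfold rf at h1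
        rw [hMe, hlen] at h1
        have h2 : (range L.length).image (fun t => if ht : t < L.length then
            f ⟨L[t], (hLm t ht).1⟩ else x 0) =
            (univ.filter (fun z => ∀ c' ∈ ({c} : Finset (Fin d)), z ∉ NN c')).image f := by
          ext v
          simp only [mem_image, mem_range, mem_filter, mem_univ, true_and]
          constructor
          · rintro ⟨t, ht, rfl⟩
            rw [dif_pos ht]
            refine ⟨⟨L[t], (hLm t ht).1⟩, ?_, rfl⟩
            intro c' hc'
            rw [mem_singleton] at hc'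
            subst hc'
            rw [hNN]
            simp only [mem_filter, mem_univ, true_and]
            rw [← hcm, (hLm t ht).2]
            simp
          · rintro ⟨z, hz, rfl⟩
            have h3 := hz c (mem_singleton_self _)
            rw [hNN] at h3
            simp only [mem_filter, mem_univ, true_and, Bool.not_eq_true] at h3
            have hzL : (z : ℕ) ∈ L := (hunc z).2 ⟨z.2, h3⟩
            obtain ⟨t, ht, he⟩ := List.mem_iff_getElem.1 hzL
            refine ⟨t, ht, ?_⟩
            rw [dif_pos ht]
            congr 1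
            exact Fin.ext he
        rw [h2] at h1
        rw [card_singleton]
        omega
  have hcardQ : W.card + p < Q.card := by
    have hex : ∃ j' < r, j' ≠ g.j := by
      rcases Nat.eq_zero_or_pos g.j with h0 | h0
      · exact ⟨1, by omega, by omega⟩
      · exact ⟨0, by omega, by omega⟩
    obtain ⟨j', hj', hne⟩ := hex
    have hX : (ptm x N (2 ^ N - 1)).card = N := by
      unfold ptm
      rw [card_image_of_injOn]
      · rw [filter_true_of_mem, card_range]
        intro a ha
        rw [mem_range] at ha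
        rw [Nat.testBit_two_pow_sub_one]
        simpa using ha
      · intro a ha b hb he
        rw [mem_coe, mem_filter, mem_range] at ha hb
        exact h.inj a ha.1 b hb.1 he
    have hsub : W ∪ (ptm x N (2 ^ N - 1) ∪ C j') ⊆ Q := by
      refine union_subset hWQ (union_subset ?_ (h.CQ j' hj'))
      intro v hv
      obtain ⟨a, ha, _, rfl⟩ := mem_ptm.1 hv
      exact h.xQ a ha
    have hd1 : Disjoint (ptm x N (2 ^ N - 1)) (C j') := by
      rw [disjoint_left]
      intro v hv hv'
      obtain ⟨a, ha, _, rfl⟩ := mem_ptm.1 hv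
      exact h.xC a ha j' hj' hv'
    have hd2 : Disjoint W (ptm x N (2 ^ N - 1) ∪ C j') := by
      rw [disjoint_union_right]
      refine ⟨?_, h.dis g.j hj j' hj' (Ne.symm hne)⟩
      rw [disjoint_left]
      intro v hv hv'
      obtain ⟨a, ha, _, rfl⟩ := mem_ptm.1 hv'
      exact h.xC a ha g.j hj hv
    have h1 := card_le_card hsub
    rw [card_union_of_disjoint hd2, card_union_of_disjoint hd1, hX] at h1
    have h2 : 1 ≤ (C j').card := card_pos.2 (h.conn j' hj').1
    omega
  have hWc : Conn (Pool.Agent.Hyp5.gr B) W := h.conn g.j hj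
  set Z2 : Finset (Fin p) := univ.filter (fun z => 2 ≤ cnt1 g.dum z) with hZ2
  have hZ2c : Z2.card = z2n p g.dum := card_filter_range p (fun z => 2 ≤ cnt1 g.dum z)
  have hZ2' : ∀ z ∈ Z2, 2 ≤ (univ.filter (fun c => NN c = {z})).card := by
    intro z hz
    rw [hZ2, mem_filter] at hz
    refine hz.2.trans ?_
    unfold cnt1
    rw [← card_filter_list g.dum (fun m => m = 2 ^ (z : ℕ))]
    refine card_le_card fun c hc => ?_
    rw [mem_filter] at hc ⊢
    refine ⟨mem_univ _, ?_⟩
    ext z'
    rw [hNN]
    simp only [mem_filter, mem_univ, true_and, mem_singleton]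
    have h1 : g.dum[c] = 2 ^ (z : ℕ) := hc.2
    rw [h1]
    constructor
    · intro h2
      by_contra hne
      rw [Nat.testBit_two_pow_of_ne (fun he => hne (Fin.ext he.symm))] at h2
      exact absurd h2 (by simp)
    · rintro rfl
      exact Nat.testBit_two_pow_self
  have hweak := hG.main0 ih hcardQ h.reg h.tr3 hWc hZ2'
  rw [hZ2c] at hweak
  rcases Bool.or_eq_true _ _ ▸ hineq with hin | hin
  · rw [decide_eq_true_eq] at hin
    have : ((kap + 5 * p + 4 * d + 1 : ℕ) : ℤ) < ((24 * g.R + 2 * z2n p g.dum : ℕ) : ℤ) := by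
      exact_mod_cast hin
    push_cast at this
    linarith
  · rw [Bool.and_eq_true, decide_eq_true_eq, List.any_eq_true] at hin
    obtain ⟨⟨m, hm, hm2⟩, hin⟩ := hin
    rw [decide_eq_true_eq] at hm2
    obtain ⟨c, hc, rfl⟩ := List.mem_iff_getElem.1 hm
    have hK : (∃ c, (NN c).card ≤ 2) ∨ W.card + p ≠ 6 := by
      left
      refine ⟨⟨c, hc⟩, ?_⟩
      have h2 := card_filter_range p (fun z => (g.dum[c]).testBit z = true)
      have h3 : (NN ⟨c, hc⟩).card = pcn p g.dum[c] := h2
      rw [h3]
      exact hm2
    have hstr := (hG.main ih hcardQ h.reg h.tr3 hWc hK hZ2').1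
    rw [hZ2c] at hstr
    have : ((kap + 5 * p + 4 * d : ℕ) : ℤ) < ((24 * g.R + 2 * z2n p g.dum : ℕ) : ℤ) := by
      exact_mod_cast hin
    push_cast at this
    linarith

end Pool.Agent.Hyp6
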