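import Pool.Agent.Hyp6.Rup
import Pool.Agent.Hyp6.Cfg2

/-!
# HYP6 CB: the clauses of a configuration, from numbers

`Nm N r ins ec lc rr`: the numeric facts of a configuration with `N` points, `r` components and inner
blocks `ins` (masks): `ec j J` blocks meet the component `j` and the points `J`, `lc j A` of them have the
trace `A`, covering `J` in addition to the component `j` costs `rr j J`.
`Rs`: reasons of clauses; `Rs.sound`: the clause of a correct reason holds.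
-/

set_option autoImplicit false

namespace Pool.Agent.Hyp6

open Finset Rup

/-- `D` is inside one block. -/
def Cv1 (N r : ℕ) (ins : List ℕ) (lc : ℕ → ℕ → ℕ) (D : ℕ) : Prop :=
  (∃ a < N, D &&& 2 ^ a = D) ∨ (∃ b ∈ ins, D &&& b = D) ∨
    ∃ c < r, ∃ A, 1 ≤ lc c A ∧ D &&& A = D

/-- number of inner blocks through the point `a`. -/
def ina (ins : List ℕ) (a : ℕ) : ℕ := (ins.map (fun b => if b.testBit a = true then 1 else 0)).sum

/-- the numeric facts. -/
structure Nm (N r : ℕ) (ins : List ℕ) (ec lc rr : ℕ → ℕ → ℕ) : Prop where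
  N8 : N ≤ 8
  r4 : r ≤ 4
  le5 : ∀ j < r, ∀ a < N, ec j (2 ^ a) ≤ 5
  lc4 : ∀ j < r, ∀ A a, a < 6 → A.testBit a = true → lc j A ≤ 4
  lc_ec : ∀ j < r, ∀ A J a, a < N → A.testBit a = true → J.testBit a = true → lc j A ≤ ec j J
  lc2 : ∀ j < r, ∀ A A' a, a < N → A < 2 ^ N → A' < 2 ^ N → A ≠ A' → A.testBit a = true →
    A'.testBit a = true → lc j A + lc j A' ≤ ec j (2 ^ a)
  deg : ∀ a < N, 5 ≤ ∑ j ∈ range r, ec j (2 ^ a) + ina ins a
  mono : ∀ j < r, ∀ J J', J &&& J' = J → rr j J ≤ rr j J'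
  lip : ∀ j < r, ∀ J D, Cv1 N r ins lc D → rr j (J ||| D) ≤ rr j J + 1
  r0 : ∀ j < r, rr j 0 = 0
  ab : ∀ j < r, ∀ a < N, 1 ≤ ec j (2 ^ a) → rr j (2 ^ a) = 0
  ab2 : ∀ j < r, ∀ A, 1 ≤ lc j A → rr j A = 0
  un : ∀ j < r, ∀ a < N, ec j (2 ^ a) = 0 → 1 ≤ rr j (2 ^ a)
  step : ∀ j < r, ∀ a < N, ∀ J, J.testBit a = false → ec j (2 ^ a) = 0 →
    (∀ b ∈ ins, b.testBit a = true → ∃ M, M &&& J = M ∧ M &&& b = 0 ∧ 1 ≤ rr j M) →
    (∀ y < N, y ≠ a → (∀ c < r, lc c (2 ^ a ||| 2 ^ y) = 0) ∨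
      ∃ M, M &&& J = M ∧ M.testBit y = false ∧ 1 ≤ rr j M) →
    (∃ M, M &&& J = M ∧ 1 ≤ rr j M) → 2 ≤ rr j (J ||| 2 ^ a)
  hall : ∀ S A : List ℕ, S.Nodup → A.Nodup → S ≠ [] → (∀ s ∈ S, s < r) → (∀ a ∈ A, a < N) →
    ((∀ a ∈ A, (7).testBit a = false) ∨ ∀ a ∈ A, (56).testBit a = false) →
    N ≤ S.length + A.length + 3 → ∃ s ∈ S, ∃ a ∈ A, 1 ≤ ec s (2 ^ a)
  part : ∀ (m : ℕ → ℕ) (Ds : List ℕ), (∀ D ∈ Ds, Cv1 N r ins lc D) →
    (∀ a < N, (∃ j < r, (m j).testBit a = true) ∨ ∃ D ∈ Ds, D.testBit a = true) →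
    2 ≤ ∑ j ∈ range r, rr j (m j) + Ds.length
  join : ∀ j < r, ∀ J, ∀ z < N, ∀ L : List ℕ, J.testBit z = false →
    (∀ y < N, J.testBit y = true → y ∈ L) →
    ec j J + ec j (2 ^ z) ≤ ec j (J ||| 2 ^ z) + (L.map (fun y => lc j (2 ^ y ||| 2 ^ z))).sum

/-- comparisons of numbers of hits: for `(j, a, j', a')` in `so` the component `j` has at most as many
hits at the point `a` as the component `j'` at the point `a'`. -/
def Srt (so : List (ℕ × ℕ × ℕ × ℕ)) (ec : ℕ → ℕ → ℕ) : Prop :=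
  ∀ q ∈ so, ec q.1 (2 ^ q.2.1) ≤ ec q.2.2.1 (2 ^ q.2.2.2)

/-- bounds for the number of hits and of shared blocks of the components. -/
structure Nt (N r : ℕ) (sl sn : List ℕ) (ec lc : ℕ → ℕ → ℕ) : Prop where
  slot : ∀ j < r, ∑ a ∈ range N, ec j (2 ^ a) ≤ sl.getD j 0
  shr : ∀ j < r, ∑ A ∈ (range (2 ^ N)).filter (fun A => pcn N A = 2), lc j A ≤ sn.getD j 0

/-! ### variables and literals -/

/-- variable `k <= ec j J`. -/
def vE (j J k : ℕ) : ℕ := (j * 256 + J) * 8 + k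
/-- variable `k <= lc j A`. -/
def vL (j A k : ℕ) : ℕ := 8192 + ((j * 256 + A) * 8 + k)
/-- variable `k <= rr j J`. -/
def vR (j J k : ℕ) : ℕ := 16384 + ((j * 256 + J) * 8 + k)

/-- the valuation. -/
def Vl (ec lc rr : ℕ → ℕ → ℕ) (v : ℕ) : Bool :=
  if v < 8192 then decide (v % 8 ≤ ec (v / 2048 % 4) (v / 8 % 256))
  else if v < 16384 then decide (v % 8 ≤ lc (v / 2048 % 4) (v / 8 % 256))
  else decide (v % 8 ≤ rr (v / 2048 % 4) (v / 8 % 256))

/-- ranges. -/
def rg (r j J k : ℕ) : Bool := Nat.blt j r && Nat.blt J 256 && Nat.blt k 8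

section lits

variable {ec lc rr : ℕ → ℕ → ℕ} {j J k r : ℕ}

theorem rg_iff : rg r j J k = true ↔ j < r ∧ J < 256 ∧ k < 8 := by
  unfold rg
  simp only [Bool.and_eq_true, Nat.blt_eq]
  tauto

theorem Vl_E (hj : j < 4) (hJ : J < 256) (hk : k < 8) :
    Vl ec lc rr (vE j J k) = decide (k ≤ ec j J) := by
  have h1 : vE j J k < 8192 := by unfold vE; omega
  have h2 : vE j J k % 8 = k := by unfold vE; omega
  have h3 : vE j J k / 2048 % 4 = j := by unfold vE; omega
  have h4 : vE j J k / 8 % 256 = J := by unfold vE; omega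
  unfold Vl
  rw [if_pos h1, h2, h3, h4]

theorem Vl_L (hj : j < 4) (hJ : J < 256) (hk : k < 8) :
    Vl ec lc rr (vL j J k) = decide (k ≤ lc j J) := by
  have h0 : ¬ vL j J k < 8192 := by unfold vL; omega
  have h1 : vL j J k < 16384 := by unfold vL; omega
  have h2 : vL j J k % 8 = k := by unfold vL; omega
  have h3 : vL j J k / 2048 % 4 = j := by unfold vL; omega
  have h4 : vL j J k / 8 % 256 = J := by unfold vL; omega
  unfold Vl
  rw [if_neg h0, if_pos h1, h2, h3, h4]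

theorem Vl_R (hj : j < 4) (hJ : J < 256) (hk : k < 8) :
    Vl ec lc rr (vR j J k) = decide (k ≤ rr j J) := by
  have h0 : ¬ vR j J k < 8192 := by unfold vR; omega
  have h1 : ¬ vR j J k < 16384 := by unfold vR; omega
  have h2 : vR j J k % 8 = k := by unfold vR; omega
  have h3 : vR j J k / 2048 % 4 = j := by unfold vR; omega
  have h4 : vR j J k / 8 % 256 = J := by unfold vR; omega
  unfold Vl
  rw [if_neg h0, if_neg h1, h2, h3, h4]

theorem lit_pos {f : ℕ → Bool} {v : ℕ} : Lit f (2 * v) ↔ f v = true := by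
  unfold Lit
  have h1 : 2 * v / 2 = v := by omega
  have h2 : 2 * v % 2 = 0 := by omega
  rw [h1, h2]
  rfl

theorem lit_neg {f : ℕ → Bool} {v : ℕ} : Lit f (2 * v + 1) ↔ f v = false := by
  unfold Lit
  have h1 : (2 * v + 1) / 2 = v := by omega
  have h2 : (2 * v + 1) % 2 = 1 := by omega
  rw [h1, h2]
  rfl

theorem pE (hj : j < 4) (hJ : J < 256) (hk : k < 8) :
    Lit (Vl ec lc rr) (2 * vE j J k) ↔ k ≤ ec j J := by
  rw [lit_pos, Vl_E hj hJ hk, decide_eq_true_eq]

theorem nE (hj : j < 4) (hJ : J < 256) (hk : k < 8) :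
    Lit (Vl ec lc rr) (2 * vE j J k + 1) ↔ ¬ k ≤ ec j J := by
  rw [lit_neg, Vl_E hj hJ hk, decide_eq_false_iff_not]

theorem pL (hj : j < 4) (hJ : J < 256) (hk : k < 8) :
    Lit (Vl ec lc rr) (2 * vL j J k) ↔ k ≤ lc j J := by
  rw [lit_pos, Vl_L hj hJ hk, decide_eq_true_eq]

theorem nL (hj : j < 4) (hJ : J < 256) (hk : k < 8) :
    Lit (Vl ec lc rr) (2 * vL j J k + 1) ↔ ¬ k ≤ lc j J := by
  rw [lit_neg, Vl_L hj hJ hk, decide_eq_false_iff_not]

theorem pR (hj : j < 4) (hJ : J < 256) (hk : k < 8) :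
    Lit (Vl ec lc rr) (2 * vR j J k) ↔ k ≤ rr j J := by
  rw [lit_pos, Vl_R hj hJ hk, decide_eq_true_eq]

theorem nR (hj : j < 4) (hJ : J < 256) (hk : k < 8) :
    Lit (Vl ec lc rr) (2 * vR j J k + 1) ↔ ¬ k ≤ rr j J := by
  rw [lit_neg, Vl_R hj hJ hk, decide_eq_false_iff_not]

end lits

/-! ### reasons -/

/-- positive literal for `k <= rr j J`; nothing for the empty set. -/
def oR (j J k : ℕ) : List ℕ := bif Nat.beq J 0 then [] else [2 * vR j J k]

/-- positive literal for `k <= ec j (2^a)`; nothing for `k` at least six. -/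
def oE (j J k : ℕ) : List ℕ := bif Nat.ble 6 k then [] else [2 * vE j J k]
/-- positive literal for `k <= lc j A`; nothing for `k` at least six, or at least five if `A` meets the
two full blocks. -/
def oL (j J k : ℕ) : List ℕ :=
  bif Nat.ble 6 k || (Nat.ble 5 k && !(Nat.beq (J &&& 63) 0)) then [] else [2 * vL j J k]

/-- reasons of clauses. -/
inductive Rs : Type
  | ordE (j J k : ℕ)
  | ordL (j J k : ℕ)
  | ordR (j J k : ℕ)
  | le (j A J a k : ℕ)
  | l2 (j A A' a k k' : ℕ)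
  | deg (a : ℕ) (t : List ℕ)
  | mono (j J J' k : ℕ)
  | lip (j J J' w : ℕ)
  | lipl (j J J' c A : ℕ)
  | ab (j a : ℕ)
  | ab2 (j A : ℕ)
  | un (j a : ℕ)
  | step (j a J : ℕ) (Ms ys : List ℕ)
  | hall (S A : List ℕ)
  | part (ms ts Ds : List ℕ) (ps : List (ℕ × ℕ))
  | join (j J z k a b : ℕ) (cs : List (ℕ × ℕ))
  | slot (j : ℕ) (l : List (ℕ × ℕ))
  | shr (j : ℕ) (l : List (ℕ × ℕ))
  | srt (j a j' a' k : ℕ)

/-- the clause of a reason. -/
def Rs.cl (r : ℕ) : Rs → List ℕ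
  | .ordE j J k => [2 * vE j J (k + 1) + 1, 2 * vE j J k]
  | .ordL j J k => [2 * vL j J (k + 1) + 1, 2 * vL j J k]
  | .ordR j J k => [2 * vR j J (k + 1) + 1, 2 * vR j J k]
  | .le j A J _ k => [2 * vL j A k + 1, 2 * vE j J k]
  | .l2 j A A' a k k' => (2 * vL j A k + 1) :: (2 * vL j A' k' + 1) :: oE j (2 ^ a) (k + k')
  | .deg a t => (List.range r).map (fun j => 2 * vE j (2 ^ a) (t.getD j 0 + 1))
  | .mono j J J' k => [2 * vR j J k + 1, 2 * vR j J' k]
  | .lip j J J' _ => (2 * vR j J' 2 + 1) :: oR j J 1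
  | .lipl j J J' c A => (2 * vL c A 1 + 1) :: (2 * vR j J' 2 + 1) :: oR j J 1
  | .ab j a => [2 * vE j (2 ^ a) 1 + 1, 2 * vR j (2 ^ a) 1 + 1]
  | .ab2 j A => [2 * vL j A 1 + 1, 2 * vR j A 1 + 1]
  | .un j a => [2 * vE j (2 ^ a) 1, 2 * vR j (2 ^ a) 1]
  | .step j a J Ms ys => (2 * vE j (2 ^ a) 1) :: (2 * vR j (J ||| 2 ^ a) 2) ::
      (Ms.map (fun M => 2 * vR j M 1 + 1) ++
        ys.flatMap (fun y => (List.range r).map (fun c => 2 * vL c (2 ^ a ||| 2 ^ y) 1)))
  | .hall S A => S.flatMap (fun s => A.map (fun a => 2 * vE s (2 ^ a) 1))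
  | .part ms ts _ ps =>
      (List.range r).flatMap (fun j => oR j (ms.getD j 0) (ts.getD j 0 + 1)) ++
        ps.map (fun p => 2 * vL p.1 p.2 1 + 1)
  | .join j J z k a b cs =>
      (bif Nat.beq a 0 then [] else [2 * vE j J a + 1]) ++
        ((bif Nat.beq b 0 then [] else [2 * vE j (2 ^ z) b + 1]) ++ (2 * vE j (J ||| 2 ^ z) k) ::
          cs.flatMap (fun p => oL j (2 ^ p.1 ||| 2 ^ z) (p.2 + 1)))
  | .slot j l => l.map (fun p => 2 * vE j (2 ^ p.1) p.2 + 1)
  | .shr j l => l.map (fun p => 2 * vL j p.1 p.2 + 1)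
  | .srt j a j' a' k => [2 * vE j (2 ^ a) k + 1, 2 * vE j' (2 ^ a') k]

/-- `M` is a subset of `J`. -/
def sbm (M J : ℕ) : Bool := Nat.beq (M &&& J) M

theorem sbm_iff {M J : ℕ} : sbm M J = true ↔ M &&& J = M := by
  unfold sbm
  exact ⟨Nat.eq_of_beq_eq_true, fun h => by rw [h]; exact Nat.beq_refl M⟩

/-- the reason is correct. -/
def Rs.ok (N r : ℕ) (ins sl sn : List ℕ) (so : List (ℕ × ℕ × ℕ × ℕ)) : Rs → Bool
  | .ordE j J k => rg r j J (k + 1)
  | .ordL j J k => rg r j J (k + 1)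
  | .ordR j J k => rg r j J (k + 1)
  | .le j A J a k => rg r j A k && Nat.blt J 256 && Nat.blt a N && A.testBit a && J.testBit a
  | .l2 j A A' a k k' => rg r j A k && rg r j A' k' && Nat.blt a N && Nat.blt A (2 ^ N) &&
      Nat.blt A' (2 ^ N) && !(Nat.beq A A') && A.testBit a && A'.testBit a
  | .deg a t => Nat.blt a N && Nat.blt
      (((List.range r).map (fun j => t.getD j 0)).sum + ina ins a) 5
  | .mono j J J' k => rg r j J k && Nat.blt J' 256 && sbm J J'
  | .lip j J J' w => rg r j J' 2 && Nat.blt J 256 && sbm J' (J ||| w) &&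
      (ins.contains w || (List.range N).any (fun a => Nat.beq w (2 ^ a)))
  | .lipl j J J' c A => rg r j J' 2 && Nat.blt J 256 && rg r c A 1 && sbm J' (J ||| A)
  | .ab j a => Nat.blt j r && Nat.blt a N
  | .ab2 j A => rg r j A 1
  | .un j a => Nat.blt j r && Nat.blt a N
  | .step j a J Ms ys => rg r j J 2 && Nat.blt a N && Ms.all (fun M => Nat.blt M 256) &&
      ys.all (fun y => Nat.blt y N) && !(J.testBit a) &&
      ins.all (fun b => !(b.testBit a) || Ms.any (fun M => sbm M J && Nat.beq (M &&& b) 0)) &&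
      (List.range N).all (fun y => Nat.beq y a || ys.contains y ||
        Ms.any (fun M => sbm M J && !(M.testBit y))) &&
      Ms.any (fun M => sbm M J)
  | .hall S A => decide (S.Nodup) && decide (A.Nodup) && !(S.isEmpty) &&
      S.all (fun s => Nat.blt s r) && A.all (fun a => Nat.blt a N) &&
      (A.all (fun a => !((7).testBit a)) || A.all (fun a => !((56).testBit a))) &&
      Nat.ble N (S.length + A.length + 3)
  | .part ms ts Ds ps =>
      (List.range r).all (fun j => Nat.blt (ms.getD j 0) 256 && Nat.blt (ts.getD j 0 + 1) 8) &&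
      ps.all (fun p => Nat.blt p.1 r && Nat.blt p.2 256) &&
      Ds.all (fun D => ins.any (fun b => sbm D b) ||
        (List.range N).any (fun a => sbm D (2 ^ a))) &&
      (List.range N).all (fun a => (List.range r).any (fun j => (ms.getD j 0).testBit a) ||
        Ds.any (fun D => D.testBit a) || ps.any (fun p => p.2.testBit a)) &&
      Nat.blt (((List.range r).map (fun j => ts.getD j 0)).sum + Ds.length + ps.length) 2
  | .join j J z k a b cs => rg r j J k && Nat.blt a 8 && Nat.blt b 8 && Nat.blt z N &&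
      !(J.testBit z) &&
      (List.range N).all (fun y => !(J.testBit y) || cs.any (fun p => Nat.beq p.1 y)) &&
      cs.all (fun p => Nat.blt p.1 N) &&
      Nat.ble (k + (cs.map Prod.snd).sum) (a + b)
  | .slot j l => Nat.blt j r && decide ((l.map Prod.fst).Nodup) &&
      l.all (fun p => Nat.blt p.1 N && Nat.blt p.2 8) &&
      Nat.blt (sl.getD j 0) (l.map Prod.snd).sum
  | .shr j l => Nat.blt j r && decide ((l.map Prod.fst).Nodup) &&
      l.all (fun p => Nat.blt p.1 256 && Nat.blt p.1 (2 ^ N) && Nat.beq (pcn N p.1) 2 &&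
        Nat.blt p.2 8) &&
      Nat.blt (sn.getD j 0) (l.map Prod.snd).sum
  | .srt j a j' a' k => Nat.blt j r && Nat.blt j' r && Nat.blt a N && Nat.blt a' N && Nat.blt k 8 &&
      so.any (fun q => Nat.beq q.1 j && Nat.beq q.2.1 a && Nat.beq q.2.2.1 j' &&
        Nat.beq q.2.2.2 a')

section sound

variable {N r : ℕ} {ins sl sn : List ℕ} {so : List (ℕ × ℕ × ℕ × ℕ)} {ec lc rr : ℕ → ℕ → ℕ}

theorem two_pow_lt {a N : ℕ} (ha : a < N) (hN : N ≤ 8) : 2 ^ a < 256 := by
  have h1 : (2 : ℕ) ^ a < 2 ^ 8 := Nat.pow_lt_pow_right (by norm_num) (by omega)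
  norm_num at h1
  exact h1

theorem or_lt {a b : ℕ} (ha : a < 256) (hb : b < 256) : a ||| b < 256 := by
  have h1 : a < 2 ^ 8 := by norm_num; exact ha
  have h2 : b < 2 ^ 8 := by norm_num; exact hb
  have h3 := Nat.or_lt_two_pow h1 h2
  norm_num at h3
  exact h3

theorem Nm.j4 (h : Nm N r ins ec lc rr) {j : ℕ} (hj : j < r) : j < 4 := lt_of_lt_of_le hj h.r4

theorem sat_of {f : ℕ → Bool} {c : List ℕ} (h : ¬ ∀ l ∈ c, ¬ Lit f l) : Sat f c := by
  push Not at h
  exact h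

theorem mem_oR {j J k l : ℕ} : l ∈ oR j J k ↔ J ≠ 0 ∧ l = 2 * vR j J k := by
  unfold oR
  rcases h : Nat.beq J 0 with _ | _
  · have : J ≠ 0 := by
      rintro rfl
      simp at h
    simp [this]
  · have : J = 0 := Nat.eq_of_beq_eq_true h
    simp [this]

theorem mem_oE {j J k l : ℕ} : l ∈ oE j J k ↔ k < 6 ∧ l = 2 * vE j J k := by
  unfold oE
  rcases h : Nat.ble 6 k with _ | _
  · have : k < 6 := by
      by_contra hcon
      push Not at hcon
      rw [Nat.ble_eq_true_of_le hcon] at h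
      exact absurd h (by simp)
    simp [this]
  · have : 6 ≤ k := Nat.le_of_ble_eq_true h
    simp
    omega

theorem mem_oL {j J k l : ℕ} : l ∈ oL j J k ↔ (k < 6 ∧ (k < 5 ∨ J &&& 63 = 0)) ∧
    l = 2 * vL j J k := by
  unfold oL
  have h6 : Nat.ble 6 k = true ↔ 6 ≤ k := ⟨Nat.le_of_ble_eq_true, Nat.ble_eq_true_of_le⟩
  have h5 : Nat.ble 5 k = true ↔ 5 ≤ k := ⟨Nat.le_of_ble_eq_true, Nat.ble_eq_true_of_le⟩
  have h0 : Nat.beq (J &&& 63) 0 = true ↔ J &&& 63 = 0 :=
    ⟨Nat.eq_of_beq_eq_true, fun h => by rw [h]; rfl⟩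
  rcases h : (Nat.ble 6 k || (Nat.ble 5 k && !(Nat.beq (J &&& 63) 0))) with _ | _
  · rw [Bool.or_eq_false_iff, Bool.and_eq_false_iff, Bool.not_eq_false', h0] at h
    have k6 : k < 6 := by
      by_contra hcon
      rw [h6.2 (by omega)] at h
      exact absurd h.1 (by simp)
    have k5 : k < 5 ∨ J &&& 63 = 0 := by
      rcases h.2 with h2 | h2
      · left
        by_contra hcon
        rw [h5.2 (by omega)] at h2
        exact absurd h2 (by simp)
      · exact Or.inr h2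
    simp [k6, k5]
  · rw [Bool.or_eq_true, Bool.and_eq_true, Bool.not_eq_true', h6, h5] at h
    simp only [cond_true, List.not_mem_nil, false_iff]
    rintro ⟨⟨k6, k5⟩, _⟩
    rcases h with h | ⟨h, h'⟩
    · omega
    · rcases k5 with k5 | k5
      · omega
      · rw [h0.2 k5] at h'
        exact absurd h' (by simp)

/-- a negated `oR` literal bounds the cost. -/
theorem Nm.oR_le (h : Nm N r ins ec lc rr) {j J k : ℕ} (hj : j < r) (hJ : J < 256) (hk : k < 8)
    (hk0 : 1 ≤ k) (hf : ∀ l ∈ oR j J k, ¬ Lit (Vl ec lc rr) l) : rr j J < k := by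
  by_cases hJ0 : J = 0
  · subst hJ0
    rw [h.r0 j hj]
    omega
  · have h1 := hf _ (mem_oR.2 ⟨hJ0, rfl⟩)
    rw [pR (h.j4 hj) hJ hk] at h1
    omega

theorem sum_range_list (r : ℕ) (f : ℕ → ℕ) : ((List.range r).map f).sum = ∑ j ∈ range r, f j := by
  rfl


theorem getD_list_sum (r : ℕ) (t : List ℕ) : ((List.range r).map (fun j => t.getD j 0)).sum =
    ∑ j ∈ range r, t.getD j 0 := sum_range_list r _

theorem list_sum_le_range (l : List (ℕ × ℕ)) (F : Finset ℕ) (f : ℕ → ℕ)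
    (hnd : (l.map Prod.fst).Nodup) (hF : ∀ p ∈ l, p.1 ∈ F) (hle : ∀ p ∈ l, p.2 ≤ f p.1) :
    (l.map Prod.snd).sum ≤ ∑ a ∈ F, f a := by
  classical
  have h1 : (l.map Prod.snd).sum ≤ ((l.map Prod.fst).map f).sum := by
    rw [List.map_map]
    exact List.sum_le_sum (fun p hp => hle p hp)
  have h2 : ((l.map Prod.fst).map f).sum = ∑ a ∈ (l.map Prod.fst).toFinset, f a :=
    (List.sum_toFinset f hnd).symm
  rw [h2] at h1
  refine h1.trans (sum_le_sum_of_subset ?_)
  intro a ha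
  rw [List.mem_toFinset, List.mem_map] at ha
  obtain ⟨p, hp, rfl⟩ := ha
  exact hF p hp

/-- **the clause of a correct reason holds.** -/
theorem Rs.sound (h : Nm N r ins ec lc rr) (h' : Nt N r sl sn ec lc) (hs : Srt so ec) (q : Rs)
    (hok : q.ok N r ins sl sn so = true) : Sat (Vl ec lc rr) (q.cl r) := by
  apply sat_of
  intro hf
  have hN := h.N8
  cases q with
  | ordE j J k =>
    unfold Rs.ok at hok
    rw [rg_iff] at hok
    obtain ⟨h1, h2, h3⟩ := hok
    have hj := h.j4 h1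
    have f1 := hf (2 * vE j J (k + 1) + 1) (by simp [Rs.cl])
    have f2 := hf (2 * vE j J k) (by simp [Rs.cl])
    rw [nE hj h2 h3] at f1
    rw [pE hj h2 (by omega)] at f2
    omega
  | ordL j J k =>
    unfold Rs.ok at hok
    rw [rg_iff] at hok
    obtain ⟨h1, h2, h3⟩ := hok
    have hj := h.j4 h1
    have f1 := hf (2 * vL j J (k + 1) + 1) (by simp [Rs.cl])
    have f2 := hf (2 * vL j J k) (by simp [Rs.cl])
    rw [nL hj h2 h3] at f1
    rw [pL hj h2 (by omega)] at f2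
    omega
  | ordR j J k =>
    unfold Rs.ok at hok
    rw [rg_iff] at hok
    obtain ⟨h1, h2, h3⟩ := hok
    have hj := h.j4 h1
    have f1 := hf (2 * vR j J (k + 1) + 1) (by simp [Rs.cl])
    have f2 := hf (2 * vR j J k) (by simp [Rs.cl])
    rw [nR hj h2 h3] at f1
    rw [pR hj h2 (by omega)] at f2
    omega
  | le j A J a k =>
    unfold Rs.ok at hok
    simp only [Bool.and_eq_true, rg_iff, Nat.blt_eq] at hok
    obtain ⟨⟨⟨⟨⟨h1, h2, h3⟩, hJ⟩, ha⟩, hAa⟩, hJa⟩ := hok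
    have hj := h.j4 h1
    have f1 := hf (2 * vL j A k + 1) (by simp [Rs.cl])
    have f2 := hf (2 * vE j J k) (by simp [Rs.cl])
    rw [nL hj h2 h3] at f1
    rw [pE hj hJ h3] at f2
    have h4 := h.lc_ec j h1 A J a ha hAa hJa
    omega
  | l2 j A A' a k k' =>
    unfold Rs.ok at hok
    simp only [Bool.and_eq_true, rg_iff, Nat.blt_eq, Bool.not_eq_true'] at hok
    obtain ⟨⟨⟨⟨⟨⟨⟨⟨h1, h2, h3⟩, ⟨_, h5, h6⟩⟩, ha⟩, hA⟩, hA'⟩, hne⟩, hAa⟩, hAa'⟩ := hok
    have hj := h.j4 h1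
    have hne' : A ≠ A' := by
      rintro rfl
      rw [Nat.beq_refl] at hne
      exact absurd hne (by simp)
    have f1 := hf (2 * vL j A k + 1) (by simp [Rs.cl])
    have f2 := hf (2 * vL j A' k' + 1) (by simp [Rs.cl])
    rw [nL hj h2 h3] at f1
    rw [nL hj h5 h6] at f2
    have h7 := h.lc2 j h1 A A' a ha hA hA' hne' hAa hAa'
    have h8 := h.le5 j h1 a ha
    have f3 := hf (2 * vE j (2 ^ a) (k + k')) (by
      simp only [Rs.cl, List.mem_cons, mem_oE]
      right; right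
      exact ⟨by omega, trivial⟩)
    rw [pE hj (two_pow_lt ha hN) (by omega)] at f3
    omega
  | deg a t =>
    unfold Rs.ok at hok
    simp only [Bool.and_eq_true, Nat.blt_eq] at hok
    obtain ⟨ha, hs⟩ := hok
    rw [getD_list_sum] at hs
    have h1 := h.deg a ha
    have h2 : ∀ j ∈ range r, ec j (2 ^ a) ≤ t.getD j 0 := by
      intro j hj
      have hjr := mem_range.1 hj
      have h3 : t.getD j 0 ≤ ∑ j ∈ range r, t.getD j 0 :=
        single_le_sum (f := fun j => t.getD j 0) (fun _ _ => Nat.zero_le _) hj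
      have f1 := hf (2 * vE j (2 ^ a) (t.getD j 0 + 1)) (by
        simp only [Rs.cl, List.mem_map, List.mem_range]
        exact ⟨j, hjr, rfl⟩)
      rw [pE (h.j4 hjr) (two_pow_lt ha hN) (by omega)] at f1
      omega
    have h3 := sum_le_sum h2
    omega
  | mono j J J' k =>
    unfold Rs.ok at hok
    simp only [Bool.and_eq_true, rg_iff, Nat.blt_eq, sbm_iff] at hok
    obtain ⟨⟨⟨h1, h2, h3⟩, hJ'⟩, hs⟩ := hok
    have hj := h.j4 h1
    have f1 := hf (2 * vR j J k + 1) (by simp [Rs.cl])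
    have f2 := hf (2 * vR j J' k) (by simp [Rs.cl])
    rw [nR hj h2 h3] at f1
    rw [pR hj hJ' h3] at f2
    have h4 := h.mono j h1 J J' hs
    omega
  | lip j J J' w =>
    unfold Rs.ok at hok
    simp only [Bool.and_eq_true, rg_iff, Nat.blt_eq, sbm_iff, Bool.or_eq_true,
      List.any_eq_true, List.mem_range, List.contains_iff_mem] at hok
    obtain ⟨⟨⟨⟨h1, h2, h3⟩, hJ⟩, hs⟩, hw⟩ := hok
    have hj := h.j4 h1
    have f1 := hf (2 * vR j J' 2 + 1) (by simp [Rs.cl])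
    rw [nR hj h2 h3] at f1
    have f2 := h.oR_le h1 hJ (k := 1) (by norm_num) le_rfl
      (fun l hl => hf l (by simp only [Rs.cl, List.mem_cons]; exact Or.inr hl))
    have hcv : Cv1 N r ins lc w := by
      rcases hw with hw | ⟨a, ha, hw⟩
      · exact Or.inr (Or.inl ⟨w, hw, Nat.and_self w⟩)
      · have hwa := Nat.eq_of_beq_eq_true hw
        exact Or.inl ⟨a, ha, by rw [hwa, Nat.and_self]⟩
    have h4 := h.lip j h1 J w hcv
    have h5 := h.mono j h1 J' (J ||| w) hs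
    omega
  | lipl j J J' c A =>
    unfold Rs.ok at hok
    simp only [Bool.and_eq_true, rg_iff, Nat.blt_eq, sbm_iff] at hok
    obtain ⟨⟨⟨⟨h1, h2, h3⟩, hJ⟩, ⟨hc, hA, hk⟩⟩, hs⟩ := hok
    have hj := h.j4 h1
    have f0 := hf (2 * vL c A 1 + 1) (by simp [Rs.cl])
    rw [nL (h.j4 hc) hA hk] at f0
    have f1 := hf (2 * vR j J' 2 + 1) (by simp [Rs.cl])
    rw [nR hj h2 h3] at f1
    have f2 := h.oR_le h1 hJ (k := 1) (by norm_num) le_rfl
      (fun l hl => hf l (by simp only [Rs.cl, List.mem_cons]; exact Or.inr (Or.inr hl)))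
    have h4 := h.lip j h1 J A (Or.inr (Or.inr ⟨c, hc, A, by omega, Nat.and_self A⟩))
    have h5 := h.mono j h1 J' (J ||| A) hs
    omega
  | ab j a =>
    unfold Rs.ok at hok
    simp only [Bool.and_eq_true, Nat.blt_eq] at hok
    obtain ⟨h1, ha⟩ := hok
    have hj := h.j4 h1
    have f1 := hf (2 * vE j (2 ^ a) 1 + 1) (by simp [Rs.cl])
    have f2 := hf (2 * vR j (2 ^ a) 1 + 1) (by simp [Rs.cl])
    rw [nE hj (two_pow_lt ha hN) (by norm_num)] at f1
    rw [nR hj (two_pow_lt ha hN) (by norm_num)] at f2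
    have h3 := h.ab j h1 a ha (by omega)
    omega
  | ab2 j A =>
    unfold Rs.ok at hok
    rw [rg_iff] at hok
    obtain ⟨h1, hA, _⟩ := hok
    have hj := h.j4 h1
    have f1 := hf (2 * vL j A 1 + 1) (by simp [Rs.cl])
    have f2 := hf (2 * vR j A 1 + 1) (by simp [Rs.cl])
    rw [nL hj hA (by norm_num)] at f1
    rw [nR hj hA (by norm_num)] at f2
    have h3 := h.ab2 j h1 A (by omega)
    omega
  | un j a =>
    unfold Rs.ok at hok
    simp only [Bool.and_eq_true, Nat.blt_eq] at hok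
    obtain ⟨h1, ha⟩ := hok
    have hj := h.j4 h1
    have f1 := hf (2 * vE j (2 ^ a) 1) (by simp [Rs.cl])
    have f2 := hf (2 * vR j (2 ^ a) 1) (by simp [Rs.cl])
    rw [pE hj (two_pow_lt ha hN) (by norm_num)] at f1
    rw [pR hj (two_pow_lt ha hN) (by norm_num)] at f2
    have h3 := h.un j h1 a ha (by omega)
    omega
  | step j a J Ms ys =>
    unfold Rs.ok at hok
    simp only [Bool.and_eq_true, rg_iff, Nat.blt_eq, List.all_eq_true, Bool.or_eq_true,
      Bool.not_eq_true', List.any_eq_true, sbm_iff, List.mem_range, List.contains_iff_mem] at hok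
    obtain ⟨⟨⟨⟨⟨⟨⟨⟨h1, hJ, _⟩, ha⟩, hMs⟩, hys⟩, hJa⟩, hins⟩, hpt⟩, hM⟩ := hok
    have hj := h.j4 h1
    have f1 := hf (2 * vE j (2 ^ a) 1) (by simp [Rs.cl])
    rw [pE hj (two_pow_lt ha hN) (by norm_num)] at f1
    have f2 := hf (2 * vR j (J ||| 2 ^ a) 2) (by simp [Rs.cl])
    rw [pR hj (or_lt hJ (two_pow_lt ha hN)) (by norm_num)] at f2
    have f3 : ∀ M ∈ Ms, 1 ≤ rr j M := by
      intro M hM
      have := hf (2 * vR j M 1 + 1) (by
        simp only [Rs.cl, List.mem_cons, List.mem_append, List.mem_map]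
        exact Or.inr (Or.inr (Or.inl ⟨M, hM, rfl⟩)))
      rw [nR hj (hMs M hM) (by norm_num)] at this
      omega
    have f4 : ∀ y ∈ ys, ∀ c < r, lc c (2 ^ a ||| 2 ^ y) = 0 := by
      intro y hy c hc
      have := hf (2 * vL c (2 ^ a ||| 2 ^ y) 1) (by
        simp only [Rs.cl, List.mem_cons, List.mem_append, List.mem_flatMap, List.mem_map,
          List.mem_range]
        exact Or.inr (Or.inr (Or.inr ⟨y, hy, c, hc, rfl⟩)))
      rw [pL (h.j4 hc) (or_lt (two_pow_lt ha hN) (two_pow_lt (hys y hy) hN)) (by norm_num)] at this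
      omega
    have h5 := h.step j h1 a ha J hJa (by omega) ?_ ?_ ?_
    · omega
    · intro b hb hba
      rcases hins b hb with h6 | ⟨M, hM1, hM2, hM3⟩
      · rw [hba] at h6
        exact absurd h6 (by simp)
      · exact ⟨M, hM2, Nat.eq_of_beq_eq_true hM3, f3 M hM1⟩
    · intro y hy hya
      rcases hpt y hy with (h6 | h6) | ⟨M, hM1, hM2, hM3⟩
      · exact absurd (Nat.eq_of_beq_eq_true h6) hya
      · exact Or.inl (f4 y h6)
      · exact Or.inr ⟨M, hM2, hM3, f3 M hM1⟩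
    · obtain ⟨M, hM1, hM2⟩ := hM
      exact ⟨M, hM2, f3 M hM1⟩
  | hall S A =>
    unfold Rs.ok at hok
    simp only [Bool.and_eq_true, Nat.blt_eq, List.all_eq_true, Bool.or_eq_true,
      Bool.not_eq_true', decide_eq_true_eq] at hok
    obtain ⟨⟨⟨⟨⟨⟨hS, hA⟩, hne⟩, hSr⟩, hAN⟩, hT⟩, hle⟩ := hok
    have hne' : S ≠ [] := by
      rintro rfl
      simp at hne
    obtain ⟨s, hs, a, ha, h1⟩ := h.hall S A hS hA hne' hSr hAN hT (Nat.le_of_ble_eq_true hle)
    have f1 := hf (2 * vE s (2 ^ a) 1) (by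
      simp only [Rs.cl, List.mem_flatMap, List.mem_map]
      exact ⟨s, hs, a, ha, rfl⟩)
    rw [pE (h.j4 (hSr s hs)) (two_pow_lt (hAN a ha) hN) (by norm_num)] at f1
    omega
  | part ms ts Ds ps =>
    unfold Rs.ok at hok
    simp only [Bool.and_eq_true, Nat.blt_eq, List.all_eq_true, Bool.or_eq_true,
      List.any_eq_true, sbm_iff, List.mem_range] at hok
    obtain ⟨⟨⟨⟨hms, hps⟩, hDs⟩, hcov⟩, hlt⟩ := hok
    rw [getD_list_sum] at hlt
    have f1 : ∀ j ∈ range r, rr j (ms.getD j 0) ≤ ts.getD j 0 := by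
      intro j hj
      have hjr := mem_range.1 hj
      have h1 := h.oR_le hjr (hms j hjr).1 (hms j hjr).2 (by omega) (fun l hl => hf l (by
        simp only [Rs.cl, List.mem_append, List.mem_flatMap, List.mem_range]
        exact Or.inl ⟨j, hjr, hl⟩))
      omega
    have f2 : ∀ p ∈ ps, 1 ≤ lc p.1 p.2 := by
      intro p hp
      have := hf (2 * vL p.1 p.2 1 + 1) (by
        simp only [Rs.cl, List.mem_append, List.mem_map]
        exact Or.inr ⟨p, hp, rfl⟩)
      rw [nL (h.j4 (hps p hp).1) (hps p hp).2 (by norm_num)] at this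
      omega
    have h3 := h.part (fun j => ms.getD j 0) (Ds ++ ps.map Prod.snd) ?_ ?_
    · have h4 := sum_le_sum f1
      rw [List.length_append, List.length_map] at h3
      omega
    · intro D hD
      rcases List.mem_append.1 hD with hD | hD
      · rcases hDs D hD with ⟨b, hb, hb2⟩ | ⟨a, ha, ha2⟩
        · exact Or.inr (Or.inl ⟨b, hb, hb2⟩)
        · exact Or.inl ⟨a, ha, ha2⟩
      · obtain ⟨p, hp, rfl⟩ := List.mem_map.1 hD
        exact Or.inr (Or.inr ⟨p.1, (hps p hp).1, p.2, f2 p hp, Nat.and_self _⟩)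
    · intro a ha
      rcases hcov a ha with (⟨j, hj, h6⟩ | ⟨D, hD, h6⟩) | ⟨p, hp, h6⟩
      · exact Or.inl ⟨j, hj, h6⟩
      · exact Or.inr ⟨D, List.mem_append.2 (Or.inl hD), h6⟩
      · exact Or.inr ⟨p.2, List.mem_append.2 (Or.inr (List.mem_map.2 ⟨p, hp, rfl⟩)), h6⟩
  | join j J z k a b cs =>
    unfold Rs.ok at hok
    simp only [Bool.and_eq_true, rg_iff, Nat.blt_eq, List.all_eq_true, Bool.or_eq_true,
      Bool.not_eq_true', List.any_eq_true, List.mem_range] at hok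
    obtain ⟨⟨⟨⟨⟨⟨⟨⟨h1, hJ, hk⟩, ha⟩, hb⟩, hz⟩, hJz⟩, hcs⟩, hcN⟩, hle⟩ := hok
    have hle' := Nat.le_of_ble_eq_true hle
    have hj := h.j4 h1
    have f1 : a ≤ ec j J := by
      by_cases ha0 : a = 0
      · omega
      · have hb0 : Nat.beq a 0 = false := by
          rcases h2 : Nat.beq a 0 with _ | _
          · rfl
          · exact absurd (Nat.eq_of_beq_eq_true h2) ha0
        have := hf (2 * vE j J a + 1) (by simp [Rs.cl, hb0])
        rw [nE hj hJ ha] at this
        omega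
    have f2 : b ≤ ec j (2 ^ z) := by
      by_cases hb0' : b = 0
      · omega
      · have hb0 : Nat.beq b 0 = false := by
          rcases h2 : Nat.beq b 0 with _ | _
          · rfl
          · exact absurd (Nat.eq_of_beq_eq_true h2) hb0'
        have := hf (2 * vE j (2 ^ z) b + 1) (by simp [Rs.cl, hb0])
        rw [nE hj (two_pow_lt hz hN) hb] at this
        omega
    have f3 := hf (2 * vE j (J ||| 2 ^ z) k) (by simp [Rs.cl])
    rw [pE hj (or_lt hJ (two_pow_lt hz hN)) hk] at f3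
    have f4 : ∀ p ∈ cs, lc j (2 ^ p.1 ||| 2 ^ z) ≤ p.2 := by
      intro p hp
      by_cases h6 : p.2 + 1 < 6 ∧ (p.2 + 1 < 5 ∨ (2 ^ p.1 ||| 2 ^ z) &&& 63 = 0)
      · have := hf (2 * vL j (2 ^ p.1 ||| 2 ^ z) (p.2 + 1)) (by
          simp only [Rs.cl, List.mem_append, List.mem_cons, List.mem_flatMap, mem_oL]
          exact Or.inr (Or.inr (Or.inr ⟨p, hp, h6, rfl⟩)))
        rw [pL hj (or_lt (two_pow_lt (hcN p hp) hN) (two_pow_lt hz hN)) (by omega)] at this
        omega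
      · have h7 := h.lc_ec j h1 (2 ^ p.1 ||| 2 ^ z) (2 ^ z) z hz
          (by rw [Nat.testBit_or, Nat.testBit_two_pow_self, Bool.or_true]) Nat.testBit_two_pow_self
        have h8 := h.le5 j h1 z hz
        by_cases h9 : p.2 + 1 < 6
        · push Not at h6
          obtain ⟨h10, h11⟩ := h6 h9
          obtain ⟨a', ha'⟩ := Nat.exists_testBit_of_ne_zero h11
          rw [Nat.testBit_and, Bool.and_eq_true] at ha'
          have ha6 : a' < 6 := by
            by_contra hcon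
            push Not at hcon
            have h12 : (63 : ℕ) < 2 ^ a' := lt_of_lt_of_le (by norm_num : (63 : ℕ) < 2 ^ 6)
              (Nat.pow_le_pow_right (by norm_num) hcon)
            rw [Nat.testBit_lt_two_pow h12] at ha'
            exact absurd ha'.2 (by simp)
          have h13 := h.lc4 j h1 _ a' ha6 ha'.1
          omega
        · omega
    have h5 := h.join j h1 J z hz (cs.map Prod.fst) hJz (by
      intro y hy hJy
      rcases hcs y hy with h6 | ⟨p, hp, h6⟩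
      · rw [hJy] at h6
        exact absurd h6 (by simp)
      · exact List.mem_map.2 ⟨p, hp, Nat.eq_of_beq_eq_true h6⟩)
    rw [List.map_map] at h5
    have h9 : (cs.map ((fun y => lc j (2 ^ y ||| 2 ^ z)) ∘ Prod.fst)).sum ≤
        (cs.map Prod.snd).sum := List.sum_le_sum (fun p hp => f4 p hp)
    omega
  | slot j l =>
    unfold Rs.ok at hok
    simp only [Bool.and_eq_true, Nat.blt_eq, List.all_eq_true, decide_eq_true_eq] at hok
    obtain ⟨⟨⟨hj, hnd⟩, hl⟩, hlt⟩ := hok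
    have h1 := list_sum_le_range l (range N) (fun a => ec j (2 ^ a)) hnd
      (fun p hp => mem_range.2 (hl p hp).1) (fun p hp => by
        have := hf (2 * vE j (2 ^ p.1) p.2 + 1) (by
          simp only [Rs.cl, List.mem_map]
          exact ⟨p, hp, rfl⟩)
        rw [nE (h.j4 hj) (two_pow_lt (hl p hp).1 hN) (hl p hp).2] at this
        show p.2 ≤ ec j (2 ^ p.1)
        omega)
    have h2 := h'.slot j hj
    omega
  | shr j l =>
    unfold Rs.ok at hok
    simp only [Bool.and_eq_true, Nat.blt_eq, List.all_eq_true, decide_eq_true_eq] at hok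
    obtain ⟨⟨⟨hj, hnd⟩, hl⟩, hlt⟩ := hok
    have h1 := list_sum_le_range l ((range (2 ^ N)).filter (fun A => pcn N A = 2))
      (fun A => lc j A) hnd
      (fun p hp => mem_filter.2 ⟨mem_range.2 (hl p hp).1.1.2, Nat.eq_of_beq_eq_true (hl p hp).1.2⟩)
      (fun p hp => by
        have := hf (2 * vL j p.1 p.2 + 1) (by
          simp only [Rs.cl, List.mem_map]
          exact ⟨p, hp, rfl⟩)
        rw [nL (h.j4 hj) (hl p hp).1.1.1 (hl p hp).2] at this
        show p.2 ≤ lc j p.1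
        omega)
    have h2 := h'.shr j hj
    omega
  | srt j a j' a' k =>
    unfold Rs.ok at hok
    simp only [Bool.and_eq_true, Nat.blt_eq, List.any_eq_true] at hok
    obtain ⟨⟨⟨⟨⟨hj, hj'⟩, ha⟩, ha'⟩, hk⟩, q, hq, ⟨⟨q1, q2⟩, q3⟩, q4⟩ := hok
    have h1 := hs q hq
    rw [Nat.eq_of_beq_eq_true q1, Nat.eq_of_beq_eq_true q2, Nat.eq_of_beq_eq_true q3,
      Nat.eq_of_beq_eq_true q4] at h1
    have f1 := hf (2 * vE j (2 ^ a) k + 1) (by simp [Rs.cl])
    have f2 := hf (2 * vE j' (2 ^ a') k) (by simp [Rs.cl])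
    rw [nE (h.j4 hj) (two_pow_lt ha hN) hk] at f1
    rw [pE (h.j4 hj') (two_pow_lt ha' hN) hk] at f2
    omega

end sound

end Pool.Agent.Hyp6
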