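import Pool.Agent.Hyp6.QClo

/-!
# HYP6 L3RS: facts on the cost of outer points at a critical set

`Cst B C J t`: the set `C` with the outer points `J` needs at least `t` blocks more than `C`.
Monotonicity, one block more, blocks meeting a critical set.
-/

set_option autoImplicit false

namespace Pool.Agent.Hyp6

open Finset Pool.Agent.Hyp5

universe u v

variable {V : Type v} [DecidableEq V] {ι : Type u} [Fintype ι] {B : ι → Finset V}
variable {C J J' A : Finset V} {s t : ℕ} {i : ι}

/-- the cost of `J` at `C` is at least `t`. -/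
def Cst (B : ι → Finset V) (C J : Finset V) (t : ℕ) : Prop := rho B C + t ≤ rho B (C ∪ J)

theorem Cst.le (h : Cst B C J t) (hst : s ≤ t) : Cst B C J s := by
  unfold Cst at *
  omega

theorem Cst.zero (hc : Cov B (C ∪ J)) : Cst B C J 0 := rho_mono subset_union_left hc

/-- (M) monotonicity. -/
theorem Cst.mono (hc : Cov B (C ∪ J')) (hJ : J ⊆ J') (h : Cst B C J t) : Cst B C J' t := by
  have h1 : rho B (C ∪ J) ≤ rho B (C ∪ J') := rho_mono (union_subset_union_right hJ) hc
  unfold Cst at *
  omega

/-- one block more covers a set inside a block. -/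
theorem rho_union_block_le (hc : Cov B C) (hA : A ⊆ B i) : rho B (C ∪ A) ≤ rho B C + 1 := by
  classical
  obtain ⟨T, hT1, hT2⟩ := exists_cover hc
  have h1 : C ∪ A ⊆ (insert i T).biUnion B := by
    intro v hv
    rcases mem_union.1 hv with hv | hv
    · obtain ⟨j, hj, hvj⟩ := mem_biUnion.1 (hT1 hv)
      exact mem_biUnion.2 ⟨j, mem_insert_of_mem hj, hvj⟩
    · exact mem_biUnion.2 ⟨i, mem_insert_self _ _, hA hv⟩
  have h2 := rho_le h1
  have h3 := card_insert_le i T
  omega

/-- (U) a set inside a block costs at most one block. -/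
theorem Cst.block (hc : Cov B (C ∪ J)) (hA : A ⊆ B i) (h : Cst B C (J ∪ A) (t + 1)) :
    Cst B C J t := by
  have h1 : rho B (C ∪ J ∪ A) ≤ rho B (C ∪ J) + 1 := rho_union_block_le hc hA
  unfold Cst at *
  rw [← union_assoc] at h
  omega

/-- (U) one point costs at most one block. -/
theorem Cst.point (hc : Cov B (C ∪ J)) {x : V} (hx : x ∈ B i) (h : Cst B C (insert x J) (t + 1)) :
    Cst B C J t := by
  refine Cst.block (A := {x}) hc (singleton_subset_iff.2 hx) ?_
  rwa [union_comm J, ← insert_eq]

/-- (A) a critical set absorbs everything in a block meeting it. -/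
theorem Crit.not_Cst (hcr : Crit B C) (hc : Cov B C) (hi : (B i ∩ C).Nonempty) (hA : A ⊆ B i) :
    ¬ Cst B C A 1 := by
  obtain ⟨T, hT1, hT2, hiT⟩ := hcr.blkT hc hi
  have h1 : C ∪ A ⊆ T.biUnion B :=
    union_subset hT1 fun v hv => mem_biUnion.2 ⟨i, hiT, hA hv⟩
  have h2 := rho_le h1
  unfold Cst
  omega

/-- (A) with a second set `J`: a block meeting the critical set is free if `J` is absorbed by the rest. -/
theorem Abz.not_Cst (h : Abz B C A) : ¬ Cst B C A 1 := by
  obtain ⟨T, hT1, hT2⟩ := h
  have h2 := rho_le hT1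
  unfold Cst
  omega

theorem abz_iff_not_Cst (hc : Cov B (C ∪ A)) : Abz B C A ↔ ¬ Cst B C A 1 := by
  refine ⟨fun h => h.not_Cst, fun h => ?_⟩
  obtain ⟨T, hT1, hT2⟩ := exists_cover hc
  refine ⟨T, hT1, ?_⟩
  unfold Cst at h
  omega

end Pool.Agent.Hyp6
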