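import Pool.Agent.Hyp6.Cfg
import Pool.Agent.Hyp6.L3Rs

/-!
# HYP6 CFA: elementary facts on the refusals of a configuration

Monotonicity, one block more, blocks meeting a component, points without hits, exact step.
-/

set_option autoImplicit false

namespace Pool.Agent.Hyp6

open Finset Pool.Agent.Hyp5

universe u v

variable {V : Type v} [DecidableEq V] {ι : Type u}

theorem sub_bits {J J' a : ℕ} (h : J &&& J' = J) (ha : J.testBit a = true) :
    J'.testBit a = true := by
  rw [← h, Nat.testBit_and, Bool.and_eq_true] at ha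
  exact ha.2

theorem ptm_mono {x : ℕ → V} {N J J' : ℕ} (h : ∀ a < N, J.testBit a = true → J'.testBit a = true) :
    ptm x N J ⊆ ptm x N J' := by
  intro v hv
  obtain ⟨a, ha, hJ, rfl⟩ := mem_ptm.1 hv
  exact mem_ptm.2 ⟨a, ha, h a ha hJ, rfl⟩

theorem ptm_or {x : ℕ → V} {N J J' : ℕ} : ptm x N (J ||| J') = ptm x N J ∪ ptm x N J' := by
  ext v
  simp only [mem_union, mem_ptm, Nat.testBit_or, Bool.or_eq_true]
  constructor
  · rintro ⟨a, ha, h | h, rfl⟩
    · exact Or.inl ⟨a, ha, h, rfl⟩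
    · exact Or.inr ⟨a, ha, h, rfl⟩
  · rintro (⟨a, ha, h, rfl⟩ | ⟨a, ha, h, rfl⟩)
    · exact ⟨a, ha, Or.inl h, rfl⟩
    · exact ⟨a, ha, Or.inr h, rfl⟩

theorem ptm_zero {x : ℕ → V} {N : ℕ} : ptm x N 0 = ∅ := by
  refine eq_empty_of_forall_notMem fun v hv => ?_
  obtain ⟨a, _, h, _⟩ := mem_ptm.1 hv
  simp at h

theorem ptm_bit {x : ℕ → V} {N b : ℕ} (hb : b < N) : ptm x N (2 ^ b) = {x b} := by
  ext v
  rw [mem_ptm, mem_singleton]
  constructor
  · rintro ⟨a, _, h, rfl⟩
    by_cases hab : a = b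
    · rw [hab]
    · rw [Nat.testBit_two_pow_of_ne (Ne.symm hab)] at h
      exact absurd h (by simp)
  · rintro rfl
    exact ⟨b, hb, Nat.testBit_two_pow_self, rfl⟩

variable [Fintype ι]

theorem rf_iff_Cst {B : ι → Finset V} {x : ℕ → V} {N : ℕ} {W : Finset V} {J t : ℕ} :
    rf B x N W J t ↔ Cst B W (ptm x N J) (t + 1) := by
  unfold rf Cst
  omega

/-- (M) levels. -/
theorem rf_anti {B : ι → Finset V} {x : ℕ → V} {N : ℕ} {W : Finset V} {J t : ℕ}
    (h : rf B x N W J (t + 1)) : rf B x N W J t := by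
  unfold rf at *
  omega

variable {B : ι → Finset V} {Q : Finset V} {N r : ℕ} {x : ℕ → V} {C : ℕ → Finset V} {k : ℕ}

theorem Cf.ptmQ (h : Cf B Q N r x C k) (J : ℕ) : ptm x N J ⊆ Q := by
  intro v hv
  obtain ⟨a, ha, _, rfl⟩ := mem_ptm.1 hv
  exact h.xQ a ha

theorem Cf.covJ (h : Cf B Q N r x C k) {j : ℕ} (hj : j < r) (J : ℕ) :
    Cov B (C j ∪ ptm x N J) :=
  (cov_of_reg h.reg).mono (union_subset (h.CQ j hj) (h.ptmQ J))

theorem Cf.covC (h : Cf B Q N r x C k) {j : ℕ} (hj : j < r) : Cov B (C j) :=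
  (cov_of_reg h.reg).mono (h.CQ j hj)

/-- (M) sets. -/
theorem Cf.rf_mono (h : Cf B Q N r x C k) {j : ℕ} (hj : j < r) {J J' t : ℕ} (hJ : J &&& J' = J)
    (hr : rf B x N (C j) J t) : rf B x N (C j) J' t := by
  rw [rf_iff_Cst] at *
  exact hr.mono (h.covJ hj J') (ptm_mono fun a _ ha => sub_bits hJ ha)

/-- (U) a set inside a block. -/
theorem Cf.rf_block (h : Cf B Q N r x C k) {j : ℕ} (hj : j < r) {J D J' t : ℕ} {i : ι}
    (hD : ∀ a < N, D.testBit a = true → x a ∈ B i) (hJ' : J' &&& (J ||| D) = J')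
    (hr : rf B x N (C j) J' (t + 1)) : rf B x N (C j) J t := by
  have hr' := h.rf_mono hj hJ' hr
  rw [rf_iff_Cst, ptm_or] at hr'
  rw [rf_iff_Cst]
  refine Cst.block (A := ptm x N D) (i := i) (h.covJ hj J) ?_ hr'
  intro v hv
  obtain ⟨a, ha, hDa, rfl⟩ := mem_ptm.1 hv
  exact hD a ha hDa

/-- (U) one point. -/
theorem Cf.rf_point (h : Cf B Q N r x C k) {j : ℕ} (hj : j < r) {J J' b t : ℕ} (hb : b < N)
    (hJ' : J' &&& (J ||| 2 ^ b) = J')
    (hr : rf B x N (C j) J' (t + 1)) : rf B x N (C j) J t := by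
  obtain ⟨i, hi⟩ := cov_of_reg h.reg (x b) (h.xQ b hb)
  refine h.rf_block hj (D := 2 ^ b) (i := i) ?_ hJ' hr
  intro a _ ha
  by_cases hab : a = b
  · rw [hab]
    exact hi
  · rw [Nat.testBit_two_pow_of_ne (Ne.symm hab)] at ha
    exact absurd ha (by simp)

/-- (U) a set of points of a hit. -/
theorem Cf.rf_hit (h : Cf B Q N r x C k) {j j' : ℕ} (hj : j < r) {J D A J' t : ℕ}
    (hA : 1 ≤ (hb B x N (C j') A).card) (hD : D &&& A = D) (hJ' : J' &&& (J ||| D) = J')
    (hr : rf B x N (C j) J' (t + 1)) : rf B x N (C j) J t := by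
  obtain ⟨i, hi⟩ := card_pos.1 hA
  refine h.rf_block hj (D := D) (i := i) ?_ hJ' hr
  intro a ha hDa
  exact ((mem_hb.1 hi).2 a ha).2 (sub_bits hD hDa)

/-- (A) the points of a hit are absorbed. -/
theorem Cf.not_rf_hit (h : Cf B Q N r x C k) {j : ℕ} (hj : j < r) {A D : ℕ}
    (hA : 1 ≤ (hb B x N (C j) A).card) (hD : D &&& A = D) : ¬ rf B x N (C j) D 0 := by
  obtain ⟨i, hi⟩ := card_pos.1 hA
  obtain ⟨hi1, hi2⟩ := mem_hb.1 hi
  rw [rf_iff_Cst]
  refine (h.crit j hj).not_Cst (h.covC hj) hi1 (i := i) ?_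
  intro v hv
  obtain ⟨a, ha, hDa, rfl⟩ := mem_ptm.1 hv
  exact (hi2 a ha).2 (sub_bits hD hDa)

/-- (A') the blocks through `x b` do not meet the component and each of them leaves a refused part of
`J`: adding `x b` to `J` costs one more. -/
theorem Cf.rf_step (h : Cf B Q N r x C k) {j : ℕ} (hj : j < r) {J b t : ℕ}
    (hno : ∀ i, x b ∈ B i → (B i ∩ C j) = ∅)
    (hrest : ∀ i, x b ∈ B i → ∀ J' : ℕ,
      (∀ a < N, J.testBit a = true → x a ∉ B i → J'.testBit a = true) →
      (∀ a < N, J'.testBit a = true → J.testBit a = true ∧ x a ∉ B i) →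
      Pool.Agent.Hyp6.rho B (C j) + t ≤ Pool.Agent.Hyp6.rho B (C j ∪ ptm x N J')) (hb : b < N) :
    rf B x N (C j) (J ||| 2 ^ b) t := by
  classical
  unfold rf
  obtain ⟨T, hT1, hT2⟩ := exists_cover (h.covJ hj (J ||| 2 ^ b))
  have hxb : x b ∈ T.biUnion B := hT1 (mem_union_right _ (mem_ptm.2 ⟨b, hb, by
    rw [Nat.testBit_or, Nat.testBit_two_pow_self, Bool.or_true], rfl⟩))
  obtain ⟨i, hiT, hxi⟩ := mem_biUnion.1 hxb
  -- the mask of the points of J outside B i
  obtain ⟨J', hJ'⟩ : ∃ J' : ℕ, ∀ a, J'.testBit a = true ↔ J.testBit a = true ∧ (a < N → x a ∉ B i) := by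
    have hfin : ∀ n : ℕ, ∃ J' : ℕ, ∀ a, J'.testBit a = true ↔
        (a < n ∧ J.testBit a = true ∧ (a < N → x a ∉ B i)) := by
      intro n
      induction n with
      | zero => exact ⟨0, by simp⟩
      | succ n ihn =>
        obtain ⟨J', hJ'⟩ := ihn
        by_cases hc : J.testBit n = true ∧ (n < N → x n ∉ B i)
        · refine ⟨J' ||| 2 ^ n, fun a => ?_⟩
          rw [Nat.testBit_or, Bool.or_eq_true, hJ' a]
          constructor
          · rintro (⟨h1, h2⟩ | h1)
            · exact ⟨by omega, h2⟩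
            · have han : a = n := by
                by_contra hne
                rw [Nat.testBit_two_pow_of_ne (Ne.symm hne)] at h1
                exact absurd h1 (by simp)
              subst han
              exact ⟨by omega, hc⟩
          · rintro ⟨h1, h2⟩
            rcases Nat.lt_succ_iff_lt_or_eq.1 h1 with h3 | h3
            · exact Or.inl ⟨h3, h2⟩
            · subst h3
              exact Or.inr Nat.testBit_two_pow_self
        · refine ⟨J', fun a => ?_⟩
          rw [hJ' a]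
          constructor
          · rintro ⟨h1, h2⟩
            exact ⟨by omega, h2⟩
          · rintro ⟨h1, h2⟩
            rcases Nat.lt_succ_iff_lt_or_eq.1 h1 with h3 | h3
            · exact ⟨h3, h2⟩
            · subst h3
              exact absurd h2 hc
    obtain ⟨J', hJ'⟩ := hfin (J + 1)
    refine ⟨J', fun a => ?_⟩
    rw [hJ' a]
    constructor
    · rintro ⟨_, h2⟩
      exact h2
    · rintro h2
      refine ⟨?_, h2⟩
      by_contra hcon
      push Not at hcon
      have h3 : J < 2 ^ a := lt_of_lt_of_le (lt_of_lt_of_le (Nat.lt_succ_self J) hcon)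
        (Nat.lt_two_pow_self).le
      rw [Nat.testBit_lt_two_pow h3] at h2
      exact absurd h2.1 (by simp)
  have h1 := hrest i hxi J' (fun a ha h2 h3 => (hJ' a).2 ⟨h2, fun _ => h3⟩)
    (fun a ha h2 => ⟨((hJ' a).1 h2).1, ((hJ' a).1 h2).2 ha⟩)
  have h2 : C j ∪ ptm x N J' ⊆ (T.erase i).biUnion B := by
    intro v hv
    have hvT : v ∈ T.biUnion B := by
      refine hT1 ?_
      rcases mem_union.1 hv with hv | hv
      · exact mem_union_left _ hv
      · refine mem_union_right _ (ptm_mono (fun a _ ha => ?_) hv)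
        rw [Nat.testBit_or, ((hJ' a).1 ha).1, Bool.true_or]
    obtain ⟨i', hi', hvi'⟩ := mem_biUnion.1 hvT
    have hne : i' ≠ i := by
      rintro rfl
      rcases mem_union.1 hv with hv | hv
      · have h3 := hno i' hxi
        have h4 : v ∈ B i' ∩ C j := mem_inter.2 ⟨hvi', hv⟩
        rw [h3] at h4
        exact absurd h4 (notMem_empty _)
      · obtain ⟨a, ha, hJa, rfl⟩ := mem_ptm.1 hv
        exact ((hJ' a).1 hJa).2 ha hvi'
    exact mem_biUnion.2 ⟨i', mem_erase.2 ⟨hne, hi'⟩, hvi'⟩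
  have h3 := rho_le h2
  rw [card_erase_of_mem hiT] at h3
  have h4 : 1 ≤ T.card := card_pos.2 ⟨i, hiT⟩
  omega

/-- (A) converse: a point without hits is refused. -/
theorem Cf.rf_of_nohit (h : Cf B Q N r x C k) {j : ℕ} (hj : j < r) {b : ℕ} (hb' : b < N)
    (hno : ∀ A : ℕ, A < 2 ^ N → A.testBit b = true → (hb B x N (C j) A).card = 0) :
    rf B x N (C j) (2 ^ b) 0 := by
  have h1 := h.rf_step hj (J := 0) (b := b) (t := 0) ?_ ?_ hb'
  · rwa [Nat.zero_or] at h1
  · intro i hxi
    by_contra hne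
    obtain ⟨A, hA1, hA2⟩ : ∃ A : ℕ, A < 2 ^ N ∧ ∀ a < N, (x a ∈ B i ↔ A.testBit a = true) := by
      classical
      have hfin : ∀ n : ℕ, ∃ A : ℕ, A < 2 ^ n ∧ ∀ a < n, (x a ∈ B i ↔ A.testBit a = true) := by
        intro n
        induction n with
        | zero => exact ⟨0, by simp⟩
        | succ n ihn =>
          obtain ⟨A, hA1, hA2⟩ := ihn
          by_cases hc : x n ∈ B i
          · refine ⟨A ||| 2 ^ n, ?_, fun a ha => ?_⟩
            · refine Nat.or_lt_two_pow (hA1.trans (Nat.pow_lt_pow_right (by norm_num) (by omega)))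
                (Nat.pow_lt_pow_right (by norm_num) (by omega))
            · rw [Nat.testBit_or, Bool.or_eq_true]
              rcases Nat.lt_succ_iff_lt_or_eq.1 ha with h3 | h3
              · rw [hA2 a h3, Nat.testBit_two_pow_of_ne (by omega)]
                simp
              · subst h3
                rw [Nat.testBit_two_pow_self]
                simp [hc]
          · refine ⟨A, hA1.trans (Nat.pow_lt_pow_right (by norm_num) (by omega)), fun a ha => ?_⟩
            rcases Nat.lt_succ_iff_lt_or_eq.1 ha with h3 | h3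
            · exact hA2 a h3
            · subst h3
              rw [Nat.testBit_lt_two_pow hA1]
              simp [hc]
      exact hfin N
    have h2 := hno A hA1 ((hA2 b hb').1 hxi)
    rw [card_eq_zero] at h2
    have h3 : i ∈ hb B x N (C j) A := mem_hb.2 ⟨nonempty_iff_ne_empty.2 hne, hA2⟩
    rw [h2] at h3
    exact absurd h3 (notMem_empty _)
  · intro i _ J' _ _
    have h4 := rho_mono (B := B) (W := C j) (W' := C j ∪ ptm x N J') subset_union_left (h.covJ hj J')
    omega

end Pool.Agent.Hyp6
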