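import Pool.Agent.Hyp6.Cfg4
import Pool.Agent.Hyp6.CfA

/-!
# HYP6 CFE: counting facts of a configuration

For a component `C j` of a configuration: the number of blocks meeting `C j` and a set of points
(`(cxs B (C j) (ptm x N J)).card`), the number of blocks meeting `C j` with a given trace
(`(hb B x N (C j) A).card`) and the additional cost of a set of points. Degree, inclusion-exclusion,
covers.
-/

set_option autoImplicit false

namespace Pool.Agent.Hyp6

open Finset Pool.Agent.Hyp5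

universe u v

variable {V : Type v} [DecidableEq V] {ι : Type u} [Fintype ι]

variable {B : ι → Finset V} {Q : Finset V} {N r : ℕ} {x : ℕ → V} {C : ℕ → Finset V} {k : ℕ}

/-! ### blocks meeting a component and a set of points -/

theorem mem_cxs_ptm {W : Finset V} {J : ℕ} {i : ι} : i ∈ cxs B W (ptm x N J) ↔
    (B i ∩ W).Nonempty ∧ ∃ a < N, J.testBit a = true ∧ x a ∈ B i := by
  rw [mem_cxs]
  refine and_congr_right fun _ => ?_
  constructor
  · rintro ⟨v, hv⟩
    rw [mem_inter] at hv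
    obtain ⟨a, ha, hJ, rfl⟩ := mem_ptm.1 hv.2
    exact ⟨a, ha, hJ, hv.1⟩
  · rintro ⟨a, ha, hJ, hx⟩
    exact ⟨x a, mem_inter.2 ⟨hx, mem_ptm.2 ⟨a, ha, hJ, rfl⟩⟩⟩

theorem mem_cxs_bit {W : Finset V} {a : ℕ} (ha : a < N) {i : ι} :
    i ∈ cxs B W (ptm x N (2 ^ a)) ↔ (B i ∩ W).Nonempty ∧ x a ∈ B i := by
  rw [mem_cxs_ptm]
  refine and_congr_right fun _ => ?_
  constructor
  · rintro ⟨b, _, hJ, hx⟩
    by_cases hab : b = a
    · rw [← hab]
      exact hx
    · rw [Nat.testBit_two_pow_of_ne (Ne.symm hab)] at hJ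
      exact absurd hJ (by simp)
  · intro hx
    exact ⟨a, ha, Nat.testBit_two_pow_self, hx⟩

/-- more points. -/
theorem ec_mono {W : Finset V} {J J' : ℕ} (h : J &&& J' = J) :
    (cxs B W (ptm x N J)).card ≤ (cxs B W (ptm x N J')).card := by
  refine card_le_card fun i hi => ?_
  rw [mem_cxs_ptm] at hi ⊢
  obtain ⟨h1, a, ha, hJ, hx⟩ := hi
  exact ⟨h1, a, ha, sub_bits h hJ, hx⟩

theorem ec_zero {W : Finset V} : (cxs B W (ptm x N 0)).card = 0 := by
  rw [card_eq_zero, eq_empty_iff_forall_notMem]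
  intro i hi
  obtain ⟨_, a, _, hJ, _⟩ := mem_cxs_ptm.1 hi
  simp at hJ

/-- the points of a block meeting a component: at most two. -/
theorem Cf.two_points (h : Cf B Q N r x C k) {j : ℕ} (hj : j < r) {i : ι}
    (hi : (B i ∩ C j).Nonempty) {a b c : ℕ} (ha : a < N) (hb : b < N) (hc : c < N)
    (xa : x a ∈ B i) (xb : x b ∈ B i) (xc : x c ∈ B i) (hab : a ≠ b) (hac : a ≠ c) : b = c := by
  by_contra hbc
  obtain ⟨v, hv⟩ := hi
  rw [mem_inter] at hv
  have h1 : ({v, x a, x b, x c} : Finset V) ⊆ B i ∩ Q := by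
    intro w hw
    simp only [mem_insert, mem_singleton] at hw
    rcases hw with rfl | rfl | rfl | rfl
    · exact mem_inter.2 ⟨hv.1, h.CQ j hj hv.2⟩
    · exact mem_inter.2 ⟨xa, h.xQ a ha⟩
    · exact mem_inter.2 ⟨xb, h.xQ b hb⟩
    · exact mem_inter.2 ⟨xc, h.xQ c hc⟩
  have h2 : ({v, x a, x b, x c} : Finset V).card = 4 := by
    have nv : ∀ d < N, v ≠ x d := fun d hd he => h.xC d hd j hj (he ▸ hv.2)
    rw [card_insert_of_notMem, card_insert_of_notMem, card_insert_of_notMem, card_singleton]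
    · rw [mem_singleton]
      exact fun he => hbc (h.inj b hb c hc he)
    · simp only [mem_insert, mem_singleton, not_or]
      exact ⟨fun he => hab (h.inj a ha b hb he), fun he => hac (h.inj a ha c hc he)⟩
    · simp only [mem_insert, mem_singleton, not_or]
      exact ⟨nv a ha, nv b hb, nv c hc⟩
  have h3 := card_le_card h1
  have h4 := h.tr3 i
  omega

theorem testBit_pair {a b c : ℕ} : (2 ^ a ||| 2 ^ b).testBit c = true ↔ c = a ∨ c = b := by
  rw [Nat.testBit_or, Bool.or_eq_true]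
  constructor
  · rintro (h | h)
    · left
      by_contra hne
      rw [Nat.testBit_two_pow_of_ne (Ne.symm hne)] at h
      exact absurd h (by simp)
    · right
      by_contra hne
      rw [Nat.testBit_two_pow_of_ne (Ne.symm hne)] at h
      exact absurd h (by simp)
  · rintro (rfl | rfl)
    · exact Or.inl Nat.testBit_two_pow_self
    · exact Or.inr Nat.testBit_two_pow_self

/-- a block meeting a component and containing two points has exactly these two points. -/
theorem Cf.hb_pair (h : Cf B Q N r x C k) {j : ℕ} (hj : j < r) {a b : ℕ} (ha : a < N)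
    (hb' : b < N) (hab : a ≠ b) {i : ι} :
    i ∈ hb B x N (C j) (2 ^ a ||| 2 ^ b) ↔ (B i ∩ C j).Nonempty ∧ x a ∈ B i ∧ x b ∈ B i := by
  rw [mem_hb]
  refine and_congr_right fun hi => ?_
  constructor
  · intro h1
    exact ⟨(h1 a ha).2 (testBit_pair.2 (Or.inl rfl)), (h1 b hb').2 (testBit_pair.2 (Or.inr rfl))⟩
  · rintro ⟨xa, xb⟩ c hc
    rw [testBit_pair]
    constructor
    · intro xc
      by_cases hca : c = a
      · exact Or.inl hca
      · exact Or.inr (h.two_points hj hi ha hb' hc xa xb xc hab (Ne.symm hca)).symm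
    · rintro (rfl | rfl)
      · exact xa
      · exact xb

/-- (join) inclusion-exclusion. -/
theorem Cf.join (h : Cf B Q N r x C k) {j : ℕ} (hj : j < r) {J z : ℕ} (hz : z < N)
    (hJ : J.testBit z = false) :
    (cxs B (C j) (ptm x N J)).card + (cxs B (C j) (ptm x N (2 ^ z))).card ≤
      (cxs B (C j) (ptm x N (J ||| 2 ^ z))).card +
        ∑ y ∈ (range N).filter (fun y => J.testBit y = true),
          (hb B x N (C j) (2 ^ y ||| 2 ^ z)).card := by
  classical
  rw [← card_union_add_card_inter]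
  refine Nat.add_le_add (card_le_card ?_) ?_
  · intro i hi
    rw [mem_union, mem_cxs_ptm, mem_cxs_ptm] at hi
    rw [mem_cxs_ptm]
    rcases hi with ⟨h1, a, ha, hb1, h2⟩ | ⟨h1, a, ha, hb1, h2⟩
    · exact ⟨h1, a, ha, by rw [Nat.testBit_or, hb1, Bool.true_or], h2⟩
    · exact ⟨h1, a, ha, by rw [Nat.testBit_or, hb1, Bool.or_true], h2⟩
  · refine (card_le_card (t := ((range N).filter (fun y => J.testBit y = true)).biUnion
      (fun y => hb B x N (C j) (2 ^ y ||| 2 ^ z))) ?_).trans card_biUnion_le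
    intro i hi
    rw [mem_inter, mem_cxs_ptm, mem_cxs_bit hz] at hi
    obtain ⟨⟨h1, a, ha, hb1, h2⟩, _, h3⟩ := hi
    rw [mem_biUnion]
    refine ⟨a, mem_filter.2 ⟨mem_range.2 ha, hb1⟩, ?_⟩
    have haz : a ≠ z := by
      rintro rfl
      rw [hJ] at hb1
      exact absurd hb1 (by simp)
    exact (h.hb_pair hj ha hz haz).2 ⟨h1, h2, h3⟩

/-- (join) the other direction. -/
theorem Cf.ec_le_add (_h : Cf B Q N r x C k) (j : ℕ) (J J' : ℕ) :
    (cxs B (C j) (ptm x N (J ||| J'))).card ≤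
      (cxs B (C j) (ptm x N J)).card + (cxs B (C j) (ptm x N J')).card := by
  classical
  refine (card_le_card ?_).trans (card_union_le _ _)
  intro i hi
  rw [mem_cxs_ptm] at hi
  rw [mem_union, mem_cxs_ptm, mem_cxs_ptm]
  obtain ⟨h1, a, ha, hb1, h2⟩ := hi
  rw [Nat.testBit_or, Bool.or_eq_true] at hb1
  rcases hb1 with hb1 | hb1
  · exact Or.inl ⟨h1, a, ha, hb1, h2⟩
  · exact Or.inr ⟨h1, a, ha, hb1, h2⟩

/-- blocks with different traces meeting a set of points. -/
theorem sum_hb_le {W : Finset V} {J : ℕ} (K : Finset ℕ)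
    (hK : ∀ A ∈ K, A < 2 ^ N ∧ ∃ a < N, A.testBit a = true ∧ J.testBit a = true) :
    ∑ A ∈ K, (hb B x N W A).card ≤ (cxs B W (ptm x N J)).card := by
  classical
  have h1 : (K.biUnion (fun A => hb B x N W A)).card = ∑ A ∈ K, (hb B x N W A).card := by
    refine card_biUnion fun A hA A' hA' hne => ?_
    exact hb_disj (hK A hA).1 (hK A' hA').1 hne
  rw [← h1]
  refine card_le_card fun i hi => ?_
  obtain ⟨A, hA, hiA⟩ := mem_biUnion.1 hi
  obtain ⟨-, a, ha, h2, h3⟩ := hK A hA
  rw [mem_hb] at hiA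
  exact mem_cxs_ptm.2 ⟨hiA.1, a, ha, h3, (hiA.2 a ha).2 h2⟩

/-- (le) -/
theorem lc_le {W : Finset V} {A J a : ℕ} (ha : a < N) (hA : A.testBit a = true)
    (hJ : J.testBit a = true) :
    (hb B x N W A).card ≤ (cxs B W (ptm x N J)).card := by
  refine card_le_card fun i hi => ?_
  rw [mem_hb] at hi
  exact mem_cxs_ptm.2 ⟨hi.1, a, ha, hJ, (hi.2 a ha).2 hA⟩

/-- (l2) -/
theorem lc_add_le {W : Finset V} {A A' J a b : ℕ} (hA : A < 2 ^ N) (hA' : A' < 2 ^ N)
    (hne : A ≠ A') (ha : a < N) (h1 : A.testBit a = true) (h2 : J.testBit a = true) (hb' : b < N)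
    (h3 : A'.testBit b = true) (h4 : J.testBit b = true) :
    (hb B x N W A).card + (hb B x N W A').card ≤ (cxs B W (ptm x N J)).card := by
  have h5 := sum_hb_le (B := B) (x := x) (N := N) (W := W) (J := J) {A, A'} (by
    intro D hD
    rw [mem_insert, mem_singleton] at hD
    rcases hD with rfl | rfl
    · exact ⟨hA, a, ha, h1, h2⟩
    · exact ⟨hA', b, hb', h3, h4⟩)
  rwa [sum_pair hne] at h5

/-- no block meeting a component has three points. -/
theorem Cf.lc_three (h : Cf B Q N r x C k) {j : ℕ} (hj : j < r) {A : ℕ}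
    (hA : 3 ≤ pcn N A) : (hb B x N (C j) A).card = 0 := by
  rw [card_eq_zero, eq_empty_iff_forall_notMem]
  intro i hi
  rw [mem_hb] at hi
  rw [pcn_eq] at hA
  obtain ⟨a, b, c, ha, hb1, hc, hab, hac, hbc⟩ := two_lt_card_iff.1 (Nat.lt_of_succ_le hA)
  rw [mem_filter, mem_range] at ha hb1 hc
  exact hbc (h.two_points hj hi.1 ha.1 hb1.1 hc.1 ((hi.2 a ha.1).2 ha.2) ((hi.2 b hb1.1).2 hb1.2)
    ((hi.2 c hc.1).2 hc.2) hab hac)

/-! ### the degree -/

/-- (deg) every point lies on five blocks. -/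
theorem Cf.deg_eq (h : Cf B Q N r x C k) {a : ℕ} (ha : a < N) :
    ∑ j ∈ range r, (cxs B (C j) (ptm x N (2 ^ a))).card +
      ∑ A ∈ (range (2 ^ N)).filter (fun A => A.testBit a = true), (ib B Q x N A).card = 5 := by
  classical
  rw [← h.reg (x a) (h.xQ a ha)]
  have h1 : ((range r).biUnion (fun j => cxs B (C j) (ptm x N (2 ^ a)))).card =
      ∑ j ∈ range r, (cxs B (C j) (ptm x N (2 ^ a))).card := by
    refine card_biUnion fun j hj j' hj' hne => ?_
    refine disjoint_left.2 ?_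
    intro i hi hi'
    exact h.sep j (mem_range.1 hj) j' (mem_range.1 hj') hne i (mem_cxs_ptm.1 hi).1
      (mem_cxs_ptm.1 hi').1
  have h2 : (((range (2 ^ N)).filter (fun A => A.testBit a = true)).biUnion
      (fun A => ib B Q x N A)).card =
      ∑ A ∈ (range (2 ^ N)).filter (fun A => A.testBit a = true), (ib B Q x N A).card := by
    refine card_biUnion fun A hA A' hA' hne => ?_
    exact h.ib_disj (mem_range.1 (mem_filter.1 hA).1) (mem_range.1 (mem_filter.1 hA').1) hne
  rw [← h1, ← h2, ← card_union_of_disjoint]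
  · congr 1
    ext i
    rw [mem_union, mem_biUnion, mem_biUnion, mem_filter]
    constructor
    · rintro (⟨j, hj, hi⟩ | ⟨A, hA, hi⟩)
      · exact ⟨mem_univ _, ((mem_cxs_bit ha).1 hi).2⟩
      · rw [mem_ib] at hi
        rw [mem_filter] at hA
        have h3 : x a ∈ B i ∩ Q := by
          rw [hi]
          exact (h.mem_pt ha).2 hA.2
        exact ⟨mem_univ _, (mem_inter.1 h3).1⟩
    · rintro ⟨-, hxi⟩
      by_cases hex : ∃ j < r, (B i ∩ C j).Nonempty
      · obtain ⟨j, hj, hi⟩ := hex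
        exact Or.inl ⟨j, mem_range.2 hj, (mem_cxs_bit ha).2 ⟨hi, hxi⟩⟩
      · right
        obtain ⟨A, hA, hAb⟩ := exists_msk N (fun b => x b ∈ B i)
        refine ⟨A, mem_filter.2 ⟨mem_range.2 hA, (hAb a ha).2 hxi⟩, ?_⟩
        rw [mem_ib]
        ext v
        rw [mem_inter]
        constructor
        · rintro ⟨hv, hvQ⟩
          rcases h.all v hvQ with ⟨b, hb1, rfl⟩ | ⟨j, hj, hvj⟩
          · exact (h.mem_pt hb1).2 ((hAb b hb1).2 hv)
          · exact absurd ⟨j, hj, v, mem_inter.2 ⟨hv, hvj⟩⟩ hex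
        · intro hv
          obtain ⟨b, hb1, h3, rfl⟩ := mem_ptm.1 hv
          exact ⟨(hAb b hb1).1 h3, h.xQ b hb1⟩
  · rw [disjoint_left]
    intro i hi hi'
    obtain ⟨j, hj, hij⟩ := mem_biUnion.1 hi
    obtain ⟨A, hA, hiA⟩ := mem_biUnion.1 hi'
    rw [mem_ib] at hiA
    obtain ⟨⟨v, hv⟩, _⟩ := mem_cxs_ptm.1 hij
    rw [mem_inter] at hv
    have h3 : v ∈ ptm x N A := by
      rw [← hiA]
      exact mem_inter.2 ⟨hv.1, h.CQ j (mem_range.1 hj) hv.2⟩
    obtain ⟨b, hb1, _, rfl⟩ := mem_ptm.1 h3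
    exact h.xC b hb1 j (mem_range.1 hj) hv.2

theorem sum_count (l : List ℕ) (K : Finset ℕ) (h : ∀ A ∈ l, A ∈ K) (p : ℕ → Bool) :
    ∑ A ∈ K.filter (fun A => p A = true), l.count A = (l.filter p).length := by
  classical
  induction l with
  | nil => simp
  | cons q l ih =>
    have h1 := ih (fun A hA => h A (by simp [hA]))
    simp only [List.count_cons, sum_add_distrib, h1]
    have h2 : ∑ A ∈ K.filter (fun A => p A = true), (if (q == A) = true then 1 else 0) =
        if p q = true then 1 else 0 := by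
      rw [sum_filter]
      have h3 : ∀ A ∈ K, (if p A = true then (if (q == A) = true then 1 else 0) else 0) =
          if q = A then (if p q = true then 1 else 0) else 0 := by
        intro A _
        by_cases hqA : q = A
        · subst hqA
          simp
        · have h4 : (q == A) = false := by simpa using hqA
          rw [h4, if_neg hqA]
          simp
      rw [sum_congr rfl h3, sum_ite_eq]
      rw [if_pos (h q (by simp))]
    rw [h2, List.filter_cons]
    split_ifs with h5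
    · rw [List.length_cons]
    · rw [Nat.add_zero]

/-- (deg) with the list of the inner blocks. -/
theorem Cf.deg_ins (h : Cf B Q N r x C k) {ins : List ℕ} (hin : ∀ A ∈ ins, A < 2 ^ N)
    (hc : ∀ A < 2 ^ N, A ≠ 0 → (ib B Q x N A).card = ins.count A) {a : ℕ} (ha : a < N) :
    ∑ j ∈ range r, (cxs B (C j) (ptm x N (2 ^ a))).card +
      (ins.filter (fun A => A.testBit a)).length = 5 := by
  rw [← h.deg_eq ha, ← sum_count ins (range (2 ^ N)) (fun A hA => mem_range.2 (hin A hA))]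
  congr 1
  refine sum_congr rfl fun A hA => ?_
  rw [mem_filter, mem_range] at hA
  refine (hc A hA.1 ?_).symm
  rintro rfl
  simp at hA

/-! ### covers -/

/-- **the reason `part`**, sets of points inside a block. -/
theorem Cf.part_gen (h : Cf B Q N r x C k) (J t : ℕ → ℕ) (L : List ℕ)
    (hL : ∀ A ∈ L, ∃ i, ∀ a < N, A.testBit a = true → x a ∈ B i)
    (hu : ∀ a < N, (∃ j < r, (J j).testBit a = true) ∨ ∃ A ∈ L, A.testBit a = true)
    (hs : ∑ j ∈ range r, t j + L.length < k) :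
    ∃ j < r, rf B x N (C j) (J j) (t j) := by
  classical
  by_contra hcon
  push Not at hcon
  have hc : ∀ j, ∃ T : Finset ι, j < r → (C j ∪ ptm x N (J j) ⊆ T.biUnion B ∧
      T.card ≤ _root_.Pool.Agent.Hyp6.rho B (C j) + t j) := by
    intro j
    by_cases hj : j < r
    · obtain ⟨T, hT, hTc⟩ := exists_cover (h.covJ hj (J j))
      refine ⟨T, fun _ => ⟨hT, ?_⟩⟩
      have h2 := hcon j hj
      unfold rf at h2
      omega
    · exact ⟨∅, fun hj' => absurd hj' hj⟩
  choose T hT using hc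
  have hA : ∀ A : ℕ, ∃ R : Finset ι, A ∈ L →
      (R.card ≤ 1 ∧ ∃ i ∈ R, ∀ a < N, A.testBit a = true → x a ∈ B i) := by
    intro A
    by_cases hA : A ∈ L
    · obtain ⟨i, hi⟩ := hL A hA
      exact ⟨{i}, fun _ => ⟨by simp, i, by simp, hi⟩⟩
    · exact ⟨∅, fun hA' => absurd hA' hA⟩
  choose I hI using hA
  set R : Finset ι := (range r).biUnion T ∪ L.toFinset.biUnion I with hR
  have hcov : Q ⊆ R.biUnion B := by
    intro v hv
    rw [mem_biUnion]
    rcases h.all v hv with ⟨a, ha, rfl⟩ | ⟨j, hj, hvj⟩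
    · rcases hu a ha with ⟨j, hj, hb1⟩ | ⟨A, hAL, hb1⟩
      · have h1 := (hT j hj).1 (mem_union_right _ ((h.mem_pt ha).2 hb1))
        obtain ⟨i, hi, hxi⟩ := mem_biUnion.1 h1
        exact ⟨i, mem_union_left _ (mem_biUnion.2 ⟨j, mem_range.2 hj, hi⟩), hxi⟩
      · obtain ⟨-, i, hi, h1⟩ := hI A hAL
        exact ⟨i, mem_union_right _ (mem_biUnion.2 ⟨A, List.mem_toFinset.2 hAL, hi⟩), h1 a ha hb1⟩
    · have h1 := (hT j hj).1 (mem_union_left _ hvj)
      obtain ⟨i, hi, hxi⟩ := mem_biUnion.1 h1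
      exact ⟨i, mem_union_left _ (mem_biUnion.2 ⟨j, mem_range.2 hj, hi⟩), hxi⟩
  have h1 : R.card ≤ ∑ j ∈ range r, (_root_.Pool.Agent.Hyp6.rho B (C j) + t j) + L.length := by
    refine (card_union_le _ _).trans (Nat.add_le_add ?_ ?_)
    · refine card_biUnion_le.trans (sum_le_sum fun j hj => (hT j (mem_range.1 hj)).2)
    · refine (card_biUnion_le.trans (sum_le_sum fun A hA => (hI A (List.mem_toFinset.1 hA)).1)).trans ?_
      rw [sum_const, smul_eq_mul, mul_one]
      exact List.toFinset_card_le L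
  have h2 := rho_le hcov
  have h3 := h.rho
  rw [sum_add_distrib] at h1
  omega

/-- (P) the sum of the additional costs. -/
theorem Cf.part_sum (h : Cf B Q N r x C k) (J : ℕ → ℕ) (L : List ℕ)
    (hL : ∀ A ∈ L, ∃ i, ∀ a < N, A.testBit a = true → x a ∈ B i)
    (hu : ∀ a < N, (∃ j < r, (J j).testBit a = true) ∨ ∃ A ∈ L, A.testBit a = true) :
    k ≤ ∑ j ∈ range r, (_root_.Pool.Agent.Hyp6.rho B (C j ∪ ptm x N (J j)) -
      _root_.Pool.Agent.Hyp6.rho B (C j)) + L.length := by
  by_contra hcon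
  push Not at hcon
  obtain ⟨j, hj, h1⟩ := h.part_gen J _ L hL hu hcon
  unfold rf at h1
  omega

/-- a set of points inside an inner block. -/
theorem Cf.ins_block (h : Cf B Q N r x C k) {A D : ℕ} (hA : (ib B Q x N A).Nonempty)
    (hD : D &&& A = D) : ∃ i, ∀ a < N, D.testBit a = true → x a ∈ B i := by
  obtain ⟨i, hi⟩ := hA
  rw [mem_ib] at hi
  refine ⟨i, fun a ha h1 => ?_⟩
  have h2 : x a ∈ B i ∩ Q := by
    rw [hi]
    exact (h.mem_pt ha).2 (sub_bits hD h1)
  exact (mem_inter.1 h2).1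

/-- a single point. -/
theorem Cf.pt_block (h : Cf B Q N r x C k) {b : ℕ} (hb' : b < N) :
    ∃ i, ∀ a < N, (2 ^ b).testBit a = true → x a ∈ B i := by
  obtain ⟨i, hi⟩ := cov_of_reg h.reg (x b) (h.xQ b hb')
  refine ⟨i, fun a _ h1 => ?_⟩
  by_cases hab : a = b
  · rw [hab]
    exact hi
  · rw [Nat.testBit_two_pow_of_ne (Ne.symm hab)] at h1
    exact absurd h1 (by simp)

/-- a set of points inside a hit. -/
theorem Cf.hit_block (_h : Cf B Q N r x C k) {j A D : ℕ} (hA : 1 ≤ (hb B x N (C j) A).card)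
    (hD : D &&& A = D) : ∃ i, ∀ a < N, D.testBit a = true → x a ∈ B i := by
  obtain ⟨i, hi⟩ := card_pos.1 hA
  rw [mem_hb] at hi
  exact ⟨i, fun a ha h1 => (hi.2 a ha).2 (sub_bits hD h1)⟩

end Pool.Agent.Hyp6
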