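import Pool.Agent.Hyp6.Cfg

/-!
# HYP6 CFG1: the inner blocks of a configuration

`ib B Q x N A`: the blocks whose trace on `Q` is the set of points of the mask `A`.
-/

set_option autoImplicit false

namespace Pool.Agent.Hyp6

open Finset Pool.Agent.Hyp5

universe u v

variable {V : Type v} [DecidableEq V] {ι : Type u} [Fintype ι]

open Classical in
/-- the inner blocks with the mask `A`. -/
noncomputable def ib (B : ι → Finset V) (Q : Finset V) (x : ℕ → V) (N : ℕ) (A : ℕ) : Finset ι :=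
  univ.filter (fun i => B i ∩ Q = ptm x N A)

theorem mem_ib {B : ι → Finset V} {Q : Finset V} {x : ℕ → V} {N A : ℕ} {i : ι} :
    i ∈ ib B Q x N A ↔ B i ∩ Q = ptm x N A := by
  simp only [ib, mem_filter, mem_univ, true_and]

variable {B : ι → Finset V} {Q : Finset V} {N r : ℕ} {x : ℕ → V} {C : ℕ → Finset V} {k : ℕ}

theorem Cf.mem_pt (h : Cf B Q N r x C k) {a A : ℕ} (ha : a < N) :
    x a ∈ ptm x N A ↔ A.testBit a = true := by
  rw [mem_ptm]
  constructor
  · rintro ⟨b, hb, h1, h2⟩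
    rw [← h.inj b hb a ha h2]
    exact h1
  · exact fun h1 => ⟨a, ha, h1, rfl⟩

theorem Cf.pt_sub (h : Cf B Q N r x C k) (A : ℕ) : ptm x N A ⊆ Q := by
  intro v hv
  obtain ⟨a, ha, _, rfl⟩ := mem_ptm.1 hv
  exact h.xQ a ha

theorem Cf.ptm_inj (h : Cf B Q N r x C k) {A A' : ℕ} (hA : A < 2 ^ N) (hA' : A' < 2 ^ N)
    (he : ptm x N A = ptm x N A') : A = A' := by
  refine Nat.eq_of_testBit_eq fun a => ?_
  rcases lt_or_ge a N with ha | ha
  · have h1 : A.testBit a = true ↔ A'.testBit a = true := by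
      rw [← h.mem_pt ha, ← h.mem_pt ha, he]
    rcases h2 : A.testBit a with _ | _ <;> rcases h3 : A'.testBit a with _ | _ <;>
      simp_all
  · have h2 : (2 : ℕ) ^ N ≤ 2 ^ a := Nat.pow_le_pow_right (by norm_num) ha
    rw [Nat.testBit_lt_two_pow (lt_of_lt_of_le hA h2),
      Nat.testBit_lt_two_pow (lt_of_lt_of_le hA' h2)]

theorem Cf.ib_disj (h : Cf B Q N r x C k) {A A' : ℕ} (hA : A < 2 ^ N) (hA' : A' < 2 ^ N)
    (hne : A ≠ A') : Disjoint (ib B Q x N A) (ib B Q x N A') := by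
  rw [disjoint_left]
  intro i hi hi'
  rw [mem_ib] at hi hi'
  exact hne (h.ptm_inj hA hA' (hi.symm.trans hi'))

/-- an inner block meets no component. -/
theorem Cf.ib_hb (h : Cf B Q N r x C k) {j A A' : ℕ} (hj : j < r) :
    Disjoint (ib B Q x N A) (hb B x N (C j) A') := by
  rw [disjoint_left]
  intro i hi hi'
  rw [mem_ib] at hi
  obtain ⟨⟨v, hv⟩, _⟩ := mem_hb.1 hi'
  rw [mem_inter] at hv
  have h1 : v ∈ ptm x N A := by
    rw [← hi]
    exact mem_inter.2 ⟨hv.1, h.CQ j hj hv.2⟩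
  obtain ⟨a, ha, _, rfl⟩ := mem_ptm.1 h1
  exact h.xC a ha j hj hv.2

/-- a block meets at most one component. -/
theorem Cf.hb_comp (h : Cf B Q N r x C k) {j j' A A' : ℕ} (hj : j < r) (hj' : j' < r)
    (hne : j ≠ j') : Disjoint (hb B x N (C j) A) (hb B x N (C j') A') := by
  rw [disjoint_left]
  intro i hi hi'
  exact h.sep j hj j' hj' hne i (mem_hb.1 hi).1 (mem_hb.1 hi').1

end Pool.Agent.Hyp6
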