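import Pool.Agent.Hyp6.L3MB2
import Pool.Agent.Hyp6.Cfg1
import Pool.Agent.Hyp6.Cfg2

/-!
# HYP6 CFG6: the configuration of a minimal counterexample with value zero

The structure `KB0` of the two full blocks is written as a configuration `Cf` with `6 + n` points and
`2 + n` components, `n <= 2`; the points `0, 1, 2` and `3, 4, 5` are the traces of the two full blocks.
-/

set_option autoImplicit false

namespace Pool.Agent.Hyp6

open Finset Pool.Agent.Hyp5

universe u v

section lists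

variable {α : Type*}

theorem getD_mem_of_lt {l : List α} {a : ℕ} {d : α} (ha : a < l.length) : l.getD a d ∈ l := by
  rw [List.getD_eq_getElem _ _ ha]
  exact List.getElem_mem ha

theorem mem_iff_getD {l : List α} {d v : α} : v ∈ l ↔ ∃ a < l.length, l.getD a d = v := by
  rw [List.mem_iff_getElem]
  constructor
  · rintro ⟨a, ha, rfl⟩
    exact ⟨a, ha, List.getD_eq_getElem _ _ ha⟩
  · rintro ⟨a, ha, rfl⟩
    exact ⟨a, ha, (List.getD_eq_getElem _ _ ha).symm⟩

theorem getD_inj {l : List α} (hl : l.Nodup) {d : α} {a b : ℕ} (ha : a < l.length)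
    (hb : b < l.length) (h : l.getD a d = l.getD b d) : a = b := by
  rw [List.getD_eq_getElem _ _ ha, List.getD_eq_getElem _ _ hb] at h
  exact (List.Nodup.getElem_inj_iff hl).1 h

end lists

variable {V : Type v} [DecidableEq V] {ι : Type u} [Fintype ι] {B : ι → Finset V}
variable {Q C X Y : Finset V} {F : Finset (Finset V)} {i j : ι}

/-- the value `P' - 2 e` of a component. -/
noncomputable def kpv (B : ι → Finset V) (Q W : Finset V) : ℤ :=
  Pv B W + 1 - 2 * (ee B Q W : ℤ)

theorem kpv_eq (W : Finset V) : kpv B Q W = dv B Q W + 1 := by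
  unfold kpv dv
  ring

/-- the configuration of two full blocks. -/
structure CfK (B : ι → Finset V) (Q : Finset V) (n : ℕ) (x : ℕ → V) (C : ℕ → Finset V)
    (i j : ι) : Prop where
  n2 : n ≤ 2
  cf : Cf B Q (6 + n) (2 + n) x C 2
  ih : IHE.{u} V Q.card
  i7 : B i ∩ Q = ptm x (6 + n) 7
  j56 : B j ∩ Q = ptm x (6 + n) 56
  ij : i ≠ j
  svC : ∀ a < 2 + n, sv B (C a) = -1
  kev : ∀ a < 2 + n, kpv B Q (C a) % 2 = 0
  knn : ∀ a < 2 + n, 0 ≤ kpv B Q (C a)
  kb : ∃ Y F, KB0 B Q Y F i j ∧ (∀ v, v ∈ Y ↔ ∃ a < 6 + n, x a = v) ∧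
    (∀ L, L ∈ F ↔ ∃ a < 2 + n, C a = L)

theorem KB0.exists_cfK (h : KB0 B Q Y F i j) (hY : Y.card ≤ 8) : ∃ n x C, CfK B Q n x C i j := by
  classical
  set T1 := B i ∩ Q with hT1
  set T2 := B j ∩ Q with hT2
  set U := Y \ (T1 ∪ T2) with hU
  obtain ⟨v0, _⟩ : T1.Nonempty := card_pos.1 (by rw [h.fi]; norm_num)
  set l := T1.toList ++ (T2.toList ++ U.toList) with hl
  have hTY : T1 ∪ T2 ⊆ Y := union_subset h.iY h.jY
  have hT12 : (T1 ∪ T2).card = 6 := by rw [card_union_of_disjoint h.dij, h.fi, h.fj]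
  have hUc : U.card + 6 = Y.card := by
    have := card_sdiff_add_card_eq_card hTY
    rw [← hU] at this
    omega
  obtain ⟨n, hn⟩ : ∃ n, n = U.card := ⟨_, rfl⟩
  have hn2 : n ≤ 2 := by omega
  have l1 : T1.toList.length = 3 := by rw [length_toList, h.fi]
  have l2 : T2.toList.length = 3 := by rw [length_toList, h.fj]
  have l3 : U.toList.length = n := by rw [length_toList, hn]
  have hlen : l.length = 6 + n := by
    rw [hl, List.length_append, List.length_append, l1, l2, l3]
    omega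
  have hnd : l.Nodup := by
    rw [hl, List.nodup_append]
    refine ⟨nodup_toList _, ?_, ?_⟩
    · rw [List.nodup_append]
      refine ⟨nodup_toList _, nodup_toList _, ?_⟩
      intro a ha b hb hab
      rw [mem_toList] at ha hb
      subst hab
      exact (mem_sdiff.1 hb).2 (mem_union_right _ ha)
    · intro a ha b hb hab
      subst hab
      rw [mem_toList] at ha
      rw [List.mem_append, mem_toList, mem_toList] at hb
      rcases hb with hb | hb
      · exact disjoint_left.1 h.dij ha hb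
      · exact (mem_sdiff.1 hb).2 (mem_union_left _ ha)
  have hmem : ∀ v, v ∈ l ↔ v ∈ Y := by
    intro v
    rw [hl, List.mem_append, List.mem_append, mem_toList, mem_toList, mem_toList, hU, mem_sdiff,
      mem_union]
    constructor
    · rintro (h1 | h1 | h1)
      · exact h.iY h1
      · exact h.jY h1
      · exact h1.1
    · intro h1
      tauto
  set x : ℕ → V := fun a => l.getD a v0 with hx
  have hxY : ∀ v, v ∈ Y ↔ ∃ a < 6 + n, x a = v := by
    intro v
    rw [← hmem, mem_iff_getD (d := v0), hlen]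
  have hx1 : ∀ a < 3, x a = T1.toList.getD a v0 := by
    intro a ha
    rw [hx]
    simp only
    rw [hl, List.getD_append _ _ _ _ (by omega)]
  have hx2 : ∀ a < 3, x (3 + a) = T2.toList.getD a v0 := by
    intro a ha
    rw [hx]
    simp only
    rw [hl, List.getD_append_right _ _ _ _ (by omega), l1, List.getD_append _ _ _ _ (by omega)]
    congr 1
    omega
  have h7 : T1 = ptm x (6 + n) 7 := by
    ext v
    rw [mem_ptm, ← mem_toList, mem_iff_getD (d := v0), l1]
    constructor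
    · rintro ⟨a, ha, rfl⟩
      refine ⟨a, by omega, ?_, hx1 a ha⟩
      interval_cases a <;> rfl
    · rintro ⟨a, ha, hb, rfl⟩
      have ha3 : a < 3 := by
        by_contra hcon
        push Not at hcon
        have : Nat.testBit 7 a = false := by
          apply Nat.testBit_lt_two_pow
          calc 7 < 2 ^ 3 := by norm_num
            _ ≤ 2 ^ a := Nat.pow_le_pow_right (by norm_num) hcon
        rw [this] at hb
        exact absurd hb (by simp)
      exact ⟨a, ha3, (hx1 a ha3).symm⟩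
  have h56 : T2 = ptm x (6 + n) 56 := by
    ext v
    rw [mem_ptm, ← mem_toList, mem_iff_getD (d := v0), l2]
    constructor
    · rintro ⟨a, ha, rfl⟩
      refine ⟨3 + a, by omega, ?_, hx2 a ha⟩
      interval_cases a <;> rfl
    · rintro ⟨a, ha, hb, rfl⟩
      have ha6 : a < 6 := by
        by_contra hcon
        push Not at hcon
        have : Nat.testBit 56 a = false := by
          apply Nat.testBit_lt_two_pow
          calc 56 < 2 ^ 6 := by norm_num
            _ ≤ 2 ^ a := Nat.pow_le_pow_right (by norm_num) hcon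
        rw [this] at hb
        exact absurd hb (by simp)
      have ha3 : 3 ≤ a := by
        by_contra hcon
        push Not at hcon
        interval_cases a <;> exact absurd hb (by decide)
      refine ⟨a - 3, by omega, ?_⟩
      rw [← hx2 (a - 3) (by omega)]
      congr 1
      omega
  -- the components
  set lF := F.toList with hlF
  have hlenF : lF.length = 2 + n := by
    rw [hlF, length_toList]
    have := h.cardF
    omega
  have hndF : lF.Nodup := nodup_toList _
  set D : ℕ → Finset V := fun a => lF.getD a ∅ with hD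
  have hDF : ∀ L, L ∈ F ↔ ∃ a < 2 + n, D a = L := by
    intro L
    rw [← mem_toList, ← hlF, mem_iff_getD (d := ∅), hlenF]
  have hDm : ∀ a < 2 + n, D a ∈ F := fun a ha => (hDF _).2 ⟨a, ha, rfl⟩
  have hDinj : ∀ a < 2 + n, ∀ b < 2 + n, D a = D b → a = b := fun a ha b hb he =>
    getD_inj hndF (by omega) (by omega) he
  have hxYm : ∀ a < 6 + n, x a ∈ Y := fun a ha => (hxY _).2 ⟨a, ha, rfl⟩
  have hsum : ∀ f : Finset V → ℕ, ∑ a ∈ range (2 + n), f (D a) = ∑ L ∈ F, f L := by
    intro f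
    refine sum_bij (fun a _ => D a) (fun a ha => hDm a (mem_range.1 ha)) ?_ ?_ (fun _ _ => rfl)
    · intro a ha b hb he
      exact hDinj a (mem_range.1 ha) b (mem_range.1 hb) he
    · intro L hL
      obtain ⟨a, ha, he⟩ := (hDF L).1 hL
      exact ⟨a, mem_range.2 ha, he⟩
  refine ⟨n, x, D, hn2, ?_, h.ih, h7, h56, h.ij_ins.2.2, fun a ha => h.svL _ (hDm a ha), ?_, ?_,
    Y, F, h, hxY, hDF⟩
  · refine ⟨h.reg, h.tr, ?_, fun a ha => h.YQ (hxYm a ha), fun a ha => h.subQ (hDm a ha), ?_, ?_,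
      ?_, ?_, fun a ha => (h.parts _ (hDm a ha)).2.2, fun a ha => h.cr _ (hDm a ha), ?_⟩
    · intro a ha b hb he
      exact getD_inj hnd (by omega) (by omega) he
    · intro a ha b hb
      exact h.notMem (hDm b hb) (hxYm a ha)
    · intro v hv
      by_cases hvY : v ∈ Y
      · left
        obtain ⟨a, ha, he⟩ := (hxY v).1 hvY
        exact ⟨a, ha, he.symm⟩
      · right
        have h3 : v ∈ F.biUnion id := by
          rw [h.un]
          exact mem_sdiff.2 ⟨hv, hvY⟩
        obtain ⟨L, hL, hvL⟩ := mem_biUnion.1 h3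
        obtain ⟨a, ha, he⟩ := (hDF L).1 hL
        exact ⟨a, ha, he ▸ hvL⟩
    · intro a ha b hb hne
      exact (h.sep _ (hDm a ha) _ (hDm b hb) (fun he => hne (hDinj a ha b hb he))).1
    · intro a ha b hb hne
      exact (h.sep _ (hDm a ha) _ (hDm b hb) (fun he => hne (hDinj a ha b hb he))).2
    · rw [hsum (fun L => rho B L), h.rhoQ]
  · intro a ha
    rw [kpv_eq]
    exact h.even (hDm a ha)
  · intro a ha
    rw [kpv_eq]
    exact h.nonneg (hDm a ha)

/-- every set of indices has a mask. -/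
theorem exists_mask (N : ℕ) (P : ℕ → Prop) : ∃ m < 2 ^ N, ∀ a < N, (m.testBit a = true ↔ P a) := by
  classical
  refine ⟨Nat.ofBits (fun a : Fin N => decide (P a)), Nat.ofBits_lt_two_pow _, fun a ha => ?_⟩
  rw [Nat.testBit_ofBits_lt _ _ ha]
  simp

theorem mask_ext {N A A' : ℕ} (hA : A < 2 ^ N) (hA' : A' < 2 ^ N)
    (h : ∀ a < N, (A.testBit a = true ↔ A'.testBit a = true)) : A = A' := by
  refine Nat.eq_of_testBit_eq fun a => ?_
  rcases lt_or_ge a N with ha | ha
  · exact Bool.eq_iff_iff.2 (h a ha)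
  · have h2 : (2 : ℕ) ^ N ≤ 2 ^ a := Nat.pow_le_pow_right (by norm_num) ha
    rw [Nat.testBit_lt_two_pow (lt_of_lt_of_le hA h2),
      Nat.testBit_lt_two_pow (lt_of_lt_of_le hA' h2)]

theorem ptm_inj {x : ℕ → V} {N A A' : ℕ} (hinj : ∀ a < N, ∀ b < N, x a = x b → a = b)
    (hA : A < 2 ^ N) (hA' : A' < 2 ^ N) (h : ptm x N A = ptm x N A') : A = A' := by
  refine mask_ext hA hA' fun a ha => ?_
  have h1 : x a ∈ ptm x N A ↔ x a ∈ ptm x N A' := by rw [h]
  rw [mem_ptm, mem_ptm] at h1
  constructor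
  · intro h2
    obtain ⟨b, hb, h3, h4⟩ := h1.1 ⟨a, ha, h2, rfl⟩
    rwa [hinj b hb a ha h4] at h3
  · intro h2
    obtain ⟨b, hb, h3, h4⟩ := h1.2 ⟨a, ha, h2, rfl⟩
    rwa [hinj b hb a ha h4] at h3

theorem ptm_pow1 {x : ℕ → V} {N a : ℕ} (ha : a < N) : ptm x N (2 ^ a) = {x a} := by
  ext v
  rw [mem_ptm, mem_singleton]
  constructor
  · rintro ⟨b, _, hb, rfl⟩
    by_contra hne
    have hab : a ≠ b := by
      rintro rfl
      exact hne rfl
    rw [Nat.testBit_two_pow_of_ne hab] at hb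
    exact absurd hb (by simp)
  · rintro rfl
    exact ⟨a, ha, Nat.testBit_two_pow_self, rfl⟩

theorem ib_disj {x : ℕ → V} {N A A' : ℕ} (hinj : ∀ a < N, ∀ b < N, x a = x b → a = b)
    (hA : A < 2 ^ N) (hA' : A' < 2 ^ N) (hne : A ≠ A') :
    Disjoint (ib B Q x N A) (ib B Q x N A') := by
  rw [disjoint_left]
  intro k hk hk'
  rw [mem_ib] at hk hk'
  exact hne (ptm_inj hinj hA hA' (hk.symm.trans hk'))

theorem ins_eq_ib {x : ℕ → V} {N : ℕ} (hY : ∀ v, v ∈ Y ↔ ∃ a < N, x a = v)
    [DecidableEq ι] : ins B Q Y = ((range (2 ^ N)).erase 0).biUnion (fun A => ib B Q x N A) := by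
  ext k
  rw [mem_ins, mem_biUnion]
  constructor
  · rintro ⟨⟨v, hv⟩, hsub⟩
    obtain ⟨m, hm, hmb⟩ := exists_mask N (fun a => x a ∈ B k ∩ Q)
    have h1 : B k ∩ Q = ptm x N m := by
      ext w
      rw [mem_ptm]
      constructor
      · intro hw
        obtain ⟨a, ha, rfl⟩ := (hY w).1 (hsub hw)
        exact ⟨a, ha, (hmb a ha).2 hw, rfl⟩
      · rintro ⟨a, ha, h2, rfl⟩
        exact (hmb a ha).1 h2
    refine ⟨m, mem_erase.2 ⟨?_, mem_range.2 hm⟩, mem_ib.2 h1⟩
    rintro rfl
    rw [h1, mem_ptm] at hv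
    obtain ⟨a, _, ha, _⟩ := hv
    simp at ha
  · rintro ⟨m, hm, hk⟩
    rw [mem_erase, mem_range] at hm
    rw [mem_ib] at hk
    obtain ⟨a, ha⟩ := Nat.exists_testBit_of_ne_zero hm.1
    have haN : a < N := by
      by_contra hcon
      push Not at hcon
      have h2 : (2 : ℕ) ^ N ≤ 2 ^ a := Nat.pow_le_pow_right (by norm_num) hcon
      rw [Nat.testBit_lt_two_pow (lt_of_lt_of_le hm.2 h2)] at ha
      exact absurd ha (by simp)
    rw [hk]
    refine ⟨⟨x a, mem_ptm.2 ⟨a, haN, ha, rfl⟩⟩, fun v hv => ?_⟩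
    obtain ⟨b, hb, _, rfl⟩ := mem_ptm.1 hv
    exact (hY _).2 ⟨b, hb, rfl⟩

theorem card_ins_eq {x : ℕ → V} {N : ℕ} (hinj : ∀ a < N, ∀ b < N, x a = x b → a = b)
    (hY : ∀ v, v ∈ Y ↔ ∃ a < N, x a = v) :
    (ins B Q Y).card = ∑ A ∈ (range (2 ^ N)).erase 0, (ib B Q x N A).card := by
  classical
  rw [ins_eq_ib hY, card_biUnion]
  intro A hA A' hA' hne
  exact ib_disj hinj (mem_range.1 (mem_erase.1 hA).2) (mem_range.1 (mem_erase.1 hA').2) hne

theorem ee_eq_ib {x : ℕ → V} {N : ℕ} (hinj : ∀ a < N, ∀ b < N, x a = x b → a = b)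
    (hY : ∀ v, v ∈ Y ↔ ∃ a < N, x a = v) :
    ee B Q Y = ((range N).filter (fun a => 2 ≤ (ib B Q x N (2 ^ a)).card)).card := by
  classical
  unfold ee
  have h1 : ∀ a < N, univ.filter (fun i => B i ∩ Q = {x a}) = ib B Q x N (2 ^ a) := by
    intro a ha
    ext k
    rw [mem_ib, ptm_pow1 ha]
    simp
  symm
  refine card_bij (fun a _ => x a) ?_ ?_ ?_
  · intro a ha
    rw [mem_filter, mem_range] at ha
    rw [mem_filter, h1 a ha.1]
    exact ⟨(hY _).2 ⟨a, ha.1, rfl⟩, ha.2⟩
  · intro a ha b hb he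
    rw [mem_filter, mem_range] at ha hb
    exact hinj a ha.1 b hb.1 he
  · intro v hv
    rw [mem_filter] at hv
    obtain ⟨a, ha, rfl⟩ := (hY v).1 hv.1
    rw [h1 a ha] at hv
    exact ⟨a, mem_filter.2 ⟨mem_range.2 ha, hv.2⟩, rfl⟩

variable {n : ℕ} {x : ℕ → V} {D : ℕ → Finset V}

/-- the sum of the values of the components. -/
theorem CfK.tot (h : CfK B Q n x D i j) :
    ∑ a ∈ range (2 + n), kpv B Q (D a) +
      4 * ∑ A ∈ (range (2 ^ (6 + n))).erase 0, ((ib B Q x (6 + n) A).card : ℤ) ≤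
    18 - 4 * (n : ℤ) +
      2 * (((range (6 + n)).filter (fun a => 2 ≤ (ib B Q x (6 + n) (2 ^ a)).card)).card : ℤ) := by
  classical
  obtain ⟨Y, F, hkb, hY, hF⟩ := h.kb
  have hinj := h.cf.inj
  have h1 := hkb.sum_p
  have h2 := card_ins_eq (B := B) (Q := Q) hinj hY
  have h3 := ee_eq_ib (B := B) (Q := Q) hinj hY
  have hneg := hkb.neg
  have hYc : Y.card = 6 + n := by
    have h4 : Y = (range (6 + n)).image x := by
      ext v
      rw [hY, mem_image]
      constructor
      · rintro ⟨a, ha, he⟩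
        exact ⟨a, mem_range.2 ha, he⟩
      · rintro ⟨a, ha, he⟩
        exact ⟨a, mem_range.1 ha, he⟩
    rw [h4, card_image_of_injOn, card_range]
    intro a ha b hb he
    exact hinj a (by simpa using ha) b (by simpa using hb) he
  have hDinj : ∀ a < 2 + n, ∀ b < 2 + n, D a = D b → a = b := by
    intro a ha b hb he
    by_contra hne
    have h5 := h.cf.dis a ha b hb hne
    rw [he, disjoint_self_iff_empty] at h5
    have h6 := (h.cf.conn b hb).1
    rw [h5] at h6
    exact absurd h6 (by simp)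
  have h4 : ∑ a ∈ range (2 + n), kpv B Q (D a) = ∑ L ∈ F, (dv B Q L + 1) := by
    refine sum_bij (fun a _ => D a) (fun a ha => (hF _).2 ⟨a, mem_range.1 ha, rfl⟩) ?_ ?_
      (fun a _ => kpv_eq _)
    · intro a ha b hb he
      exact hDinj a (mem_range.1 ha) b (mem_range.1 hb) he
    · intro L hL
      obtain ⟨a, ha, he⟩ := (hF L).1 hL
      exact ⟨a, mem_range.2 ha, he⟩
  have c2 : ((ins B Q Y).card : ℤ) =
      ∑ A ∈ (range (2 ^ (6 + n))).erase 0, ((ib B Q x (6 + n) A).card : ℤ) := by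
    rw [h2]
    push_cast
    rfl
  rw [h4, ← c2, ← h3]
  rw [hYc] at h1
  push_cast at h1
  linarith

/-- Hall's condition: components `S`, points `A` outside the first full block, `|S| + |A| >= 3 + n`. -/
theorem CfK.hall (h : CfK B Q n x D i j) {S A : Finset ℕ} (hS : ∀ s ∈ S, s < 2 + n)
    (hne : S.Nonempty) (hA : ∀ a ∈ A, a < 6 + n) (hAi : ∀ a ∈ A, x a ∉ B i)
    (hc : 3 + n ≤ S.card + A.card) : ∃ s ∈ S, ∃ a ∈ A, (Ez B (D s) (x a)).Nonempty := by
  classical
  obtain ⟨Y, F, hkb, hY, hF⟩ := h.kb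
  have hinj := h.cf.inj
  have hDinj : ∀ a < 2 + n, ∀ b < 2 + n, D a = D b → a = b := by
    intro a ha b hb he
    by_contra hne
    have h5 := h.cf.dis a ha b hb hne
    rw [he, disjoint_self_iff_empty] at h5
    have h6 := (h.cf.conn b hb).1
    rw [h5] at h6
    exact absurd h6 (by simp)
  have hYc : Y.card = 6 + n := by
    have h4 : Y = (range (6 + n)).image x := by
      ext v
      rw [hY, mem_image]
      constructor
      · rintro ⟨a, ha, he⟩
        exact ⟨a, mem_range.2 ha, he⟩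
      · rintro ⟨a, ha, he⟩
        exact ⟨a, mem_range.1 ha, he⟩
    rw [h4, card_image_of_injOn, card_range]
    intro a ha b hb he
    exact hinj a (by simpa using ha) b (by simpa using hb) he
  have h1 := hkb.hall (S := S.image D) (by
    intro L hL
    obtain ⟨s, hs, rfl⟩ := mem_image.1 hL
    exact (hF _).2 ⟨s, hS s hs, rfl⟩) (hne.image D)
  have h2 : (S.image D).card = S.card := by
    rw [card_image_of_injOn]
    intro a ha b hb he
    exact hDinj a (hS a ha) b (hS b hb) he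
  rw [h2] at h1
  by_contra hcon
  push Not at hcon
  have h3 : nbX B (Y \ (B i ∩ Q)) (S.image D) ⊆ (Y \ (B i ∩ Q)) \ A.image x := by
    intro v hv
    rw [mem_nbX] at hv
    obtain ⟨hvY, L, hL, hE⟩ := hv
    rw [mem_sdiff]
    refine ⟨hvY, fun hvA => ?_⟩
    obtain ⟨a, ha, rfl⟩ := mem_image.1 hvA
    obtain ⟨s, hs, rfl⟩ := mem_image.1 hL
    rw [hcon s hs a ha] at hE
    exact absurd hE (by simp)
  have h4 : A.image x ⊆ Y \ (B i ∩ Q) := by
    intro v hv
    obtain ⟨a, ha, rfl⟩ := mem_image.1 hv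
    rw [mem_sdiff]
    exact ⟨(hY _).2 ⟨a, hA a ha, rfl⟩, fun h5 => hAi a ha (mem_inter.1 h5).1⟩
  have h5 := card_le_card h3
  have h6 := card_sdiff_add_card_eq_card h4
  have h7 := card_sdiff_add_card_eq_card hkb.iY
  have h8 : (A.image x).card = A.card := by
    rw [card_image_of_injOn]
    intro a ha b hb he
    exact hinj a (hA a ha) b (hA b hb) he
  rw [hkb.fi] at h7
  omega

/-- exchange of the two full blocks, Hall's condition for the second one. -/
theorem CfK.hall2 (h : CfK B Q n x D i j) {S A : Finset ℕ} (hS : ∀ s ∈ S, s < 2 + n)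
    (hne : S.Nonempty) (hA : ∀ a ∈ A, a < 6 + n) (hAj : ∀ a ∈ A, x a ∉ B j)
    (hc : 3 + n ≤ S.card + A.card) : ∃ s ∈ S, ∃ a ∈ A, (Ez B (D s) (x a)).Nonempty := by
  classical
  obtain ⟨Y, F, hkb, hY, hF⟩ := h.kb
  have hinj := h.cf.inj
  have hDinj : ∀ a < 2 + n, ∀ b < 2 + n, D a = D b → a = b := by
    intro a ha b hb he
    by_contra hne
    have h5 := h.cf.dis a ha b hb hne
    rw [he, disjoint_self_iff_empty] at h5
    have h6 := (h.cf.conn b hb).1
    rw [h5] at h6
    exact absurd h6 (by simp)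
  have hYc : Y.card = 6 + n := by
    have h4 : Y = (range (6 + n)).image x := by
      ext v
      rw [hY, mem_image]
      constructor
      · rintro ⟨a, ha, he⟩
        exact ⟨a, mem_range.2 ha, he⟩
      · rintro ⟨a, ha, he⟩
        exact ⟨a, mem_range.1 ha, he⟩
    rw [h4, card_image_of_injOn, card_range]
    intro a ha b hb he
    exact hinj a (by simpa using ha) b (by simpa using hb) he
  have h1 := hkb.swap.hall (S := S.image D) (by
    intro L hL
    obtain ⟨s, hs, rfl⟩ := mem_image.1 hL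
    exact (hF _).2 ⟨s, hS s hs, rfl⟩) (hne.image D)
  have h2 : (S.image D).card = S.card := by
    rw [card_image_of_injOn]
    intro a ha b hb he
    exact hDinj a (hS a ha) b (hS b hb) he
  rw [h2] at h1
  by_contra hcon
  push Not at hcon
  have h3 : nbX B (Y \ (B j ∩ Q)) (S.image D) ⊆ (Y \ (B j ∩ Q)) \ A.image x := by
    intro v hv
    rw [mem_nbX] at hv
    obtain ⟨hvY, L, hL, hE⟩ := hv
    rw [mem_sdiff]
    refine ⟨hvY, fun hvA => ?_⟩
    obtain ⟨a, ha, rfl⟩ := mem_image.1 hvA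
    obtain ⟨s, hs, rfl⟩ := mem_image.1 hL
    rw [hcon s hs a ha] at hE
    exact absurd hE (by simp)
  have h4 : A.image x ⊆ Y \ (B j ∩ Q) := by
    intro v hv
    obtain ⟨a, ha, rfl⟩ := mem_image.1 hv
    rw [mem_sdiff]
    exact ⟨(hY _).2 ⟨a, hA a ha, rfl⟩, fun h5 => hAj a ha (mem_inter.1 h5).1⟩
  have h5 := card_le_card h3
  have h6 := card_sdiff_add_card_eq_card h4
  have h7 := card_sdiff_add_card_eq_card hkb.jY
  have h8 : (A.image x).card = A.card := by
    rw [card_image_of_injOn]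
    intro a ha b hb he
    exact hinj a (hA a ha) b (hA b hb) he
  rw [hkb.fj] at h7
  omega

/-- a hit gives a block type. -/
theorem Ez_hb {W : Finset V} {N a : ℕ} (ha : a < N) (h : (Ez B W (x a)).Nonempty) :
    ∃ A < 2 ^ N, A.testBit a = true ∧ (hb B x N W A).Nonempty := by
  obtain ⟨k, hk⟩ := h
  rw [mem_Ez] at hk
  obtain ⟨m, hm, hmb⟩ := exists_mask N (fun a => x a ∈ B k)
  exact ⟨m, hm, (hmb a ha).2 hk.1, k, mem_hb.2 ⟨hk.2, fun b hb => (hmb b hb).symm⟩⟩

/-- **a minimal counterexample with value zero gives a configuration.** -/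
theorem Viol.exists_cfK (h : Viol B Q) (hs : sv B Q = 0) : ∃ n x D i j, CfK B Q n x D i j := by
  obtain ⟨i, hi⟩ := h.exists_full
  obtain ⟨C, X, F, j, hm⟩ := h.exists_MB0 hs hi
  have h1 := hm.kb
  obtain ⟨n, x, D, hc⟩ := h1.exists_cfK (by
    have h2 := h1.cardF
    have h3 := hm.shape
    omega)
  exact ⟨n, x, D, i, j, hc⟩

end Pool.Agent.Hyp6
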