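import Pool.Agent.Hyp6.Cb
import Pool.Agent.Hyp6.CfE
import Pool.Agent.Hyp6.Cfg6

/-!
# HYP6 CB2: the numeric facts of a configuration

`Cf.nm`: a configuration whose inner blocks are the list `ins` satisfies the numeric facts `Nm`.
-/

set_option autoImplicit false

namespace Pool.Agent.Hyp6

open Finset Pool.Agent.Hyp5

universe u v

variable {V : Type v} [DecidableEq V] {ι : Type u} [Fintype ι]

/-- the number of blocks meeting the component `j` and the points `J`. -/
noncomputable def ecB (B : ι → Finset V) (x : ℕ → V) (N : ℕ) (C : ℕ → Finset V) (j J : ℕ) : ℕ :=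
  (cxs B (C j) (ptm x N J)).card

/-- the number of blocks meeting the component `j` with trace `A`. -/
noncomputable def lcB (B : ι → Finset V) (x : ℕ → V) (N : ℕ) (C : ℕ → Finset V) (j A : ℕ) : ℕ :=
  (hb B x N (C j) A).card

/-- the additional cost of the points `J` at the component `j`. -/
noncomputable def rrB (B : ι → Finset V) (x : ℕ → V) (N : ℕ) (C : ℕ → Finset V) (j J : ℕ) : ℕ :=
  rho B (C j ∪ ptm x N J) - rho B (C j)

variable {B : ι → Finset V} {Q : Finset V} {N r : ℕ} {x : ℕ → V} {C : ℕ → Finset V} {k : ℕ}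

theorem ina_eq (ins : List ℕ) (a : ℕ) : ina ins a = (ins.filter (fun A => A.testBit a)).length := by
  unfold ina
  induction ins with
  | nil => rfl
  | cons b l ih =>
    rw [List.map_cons, List.sum_cons, ih, List.filter_cons]
    by_cases h : b.testBit a = true
    · simp [h]
      omega
    · simp [h]

theorem Cf.rho_rr (h : Cf B Q N r x C k) {j : ℕ} (hj : j < r) (J : ℕ) :
    Pool.Agent.Hyp6.rho B (C j) + rrB B x N C j J =
      Pool.Agent.Hyp6.rho B (C j ∪ ptm x N J) := by
  have h1 : Pool.Agent.Hyp6.rho B (C j) ≤ Pool.Agent.Hyp6.rho B (C j ∪ ptm x N J) :=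
    rho_mono subset_union_left (h.covJ hj J)
  unfold rrB
  omega

theorem Cf.rf_rr (h : Cf B Q N r x C k) {j : ℕ} (hj : j < r) {J t : ℕ} :
    rf B x N (C j) J t ↔ t + 1 ≤ rrB B x N C j J := by
  have h1 := h.rho_rr hj J
  unfold rf
  omega

/-- a set of points inside a block costs at most one. -/
theorem Cf.rr_block (h : Cf B Q N r x C k) {j : ℕ} (hj : j < r) {J D : ℕ} {i : ι}
    (hD : ∀ a < N, D.testBit a = true → x a ∈ B i) :
    rrB B x N C j (J ||| D) ≤ rrB B x N C j J + 1 := by
  have h1 := h.rho_rr hj J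
  have h2 := h.rho_rr hj (J ||| D)
  have h3 : Pool.Agent.Hyp6.rho B (C j ∪ ptm x N J ∪ ptm x N D) ≤
      Pool.Agent.Hyp6.rho B (C j ∪ ptm x N J) + 1 := by
    refine rho_union_block_le (i := i) (h.covJ hj J) ?_
    intro v hv
    obtain ⟨a, ha, hDa, rfl⟩ := mem_ptm.1 hv
    exact hD a ha hDa
  rw [ptm_or, ← union_assoc] at h2
  omega

theorem Cf.rr_mono (h : Cf B Q N r x C k) {j : ℕ} (hj : j < r) {J J' : ℕ} (hJ : J &&& J' = J) :
    rrB B x N C j J ≤ rrB B x N C j J' := by
  have h1 := h.rho_rr hj J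
  have h2 := h.rho_rr hj J'
  have h3 : Pool.Agent.Hyp6.rho B (C j ∪ ptm x N J) ≤ Pool.Agent.Hyp6.rho B (C j ∪ ptm x N J') :=
    rho_mono (union_subset_union_right (ptm_mono fun a _ ha => sub_bits hJ ha)) (h.covJ hj J')
  omega

/-- a list of inner blocks, Hall's condition. -/
structure Ci (B : ι → Finset V) (Q : Finset V) (N r : ℕ) (x : ℕ → V) (C : ℕ → Finset V)
    (ins : List ℕ) : Prop where
  cf : Cf B Q N r x C 2
  N8 : N ≤ 8
  r4 : r ≤ 4
  N6 : 6 ≤ N
  i7 : 7 ∈ ins
  i56 : 56 ∈ ins
  insN : ∀ A ∈ ins, A < 2 ^ N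
  cnt : ∀ A < 2 ^ N, A ≠ 0 → (ib B Q x N A).card = ins.count A
  hall : ∀ S A : List ℕ, S.Nodup → A.Nodup → S ≠ [] → (∀ s ∈ S, s < r) → (∀ a ∈ A, a < N) →
    ((∀ a ∈ A, (7).testBit a = false) ∨ ∀ a ∈ A, (56).testBit a = false) →
    N ≤ S.length + A.length + 3 → ∃ s ∈ S, ∃ a ∈ A, 1 ≤ ecB B x N C s (2 ^ a)

theorem Ci.block {ins : List ℕ} (h : Ci B Q N r x C ins) {D : ℕ}
    (hD : Cv1 N r ins (lcB B x N C) D) :
    ∃ i, ∀ a < N, D.testBit a = true → x a ∈ B i := by
  rcases hD with ⟨a, ha, hD⟩ | ⟨b, hb1, hD⟩ | ⟨c, _, A, hA, hD⟩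
  · obtain ⟨i, hi⟩ := h.cf.pt_block ha
    exact ⟨i, fun a' ha' h1 => hi a' ha' (sub_bits hD h1)⟩
  · by_cases hb0 : b = 0
    · subst hb0
      rw [Nat.and_zero] at hD
      subst hD
      rcases Nat.eq_zero_or_pos N with h0 | h0
      · subst h0
        have hne : Q.Nonempty ∨ ¬ Q.Nonempty := em _
        have h1 := h.cf.rho
        rcases hne with hne | hne
        · obtain ⟨v, hv⟩ := hne
          obtain ⟨i, _⟩ := cov_of_reg h.cf.reg v hv
          exact ⟨i, fun a ha => absurd ha (by omega)⟩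
        · rw [not_nonempty_iff_eq_empty] at hne
          rw [hne, rho_empty] at h1
          omega
      · obtain ⟨i, _⟩ := h.cf.pt_block h0
        exact ⟨i, fun a _ h1 => absurd h1 (by simp)⟩
    · have h1 := h.cnt b (h.insN b hb1) hb0
      have h2 : 0 < ins.count b := List.count_pos_iff.2 hb1
      exact h.cf.ins_block (card_pos.1 (by omega)) hD
  · exact h.cf.hit_block hA hD

/-- the step: a point without hits at the component. -/
theorem Ci.step {ins : List ℕ} (h : Ci B Q N r x C ins) {j : ℕ} (hj : j < r) {a : ℕ} (ha : a < N)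
    {J : ℕ} (hJa : J.testBit a = false) (h0 : ecB B x N C j (2 ^ a) = 0)
    (hins : ∀ b ∈ ins, b.testBit a = true →
      ∃ M, M &&& J = M ∧ M &&& b = 0 ∧ 1 ≤ rrB B x N C j M)
    (hpt : ∀ y < N, y ≠ a → (∀ c < r, lcB B x N C c (2 ^ a ||| 2 ^ y) = 0) ∨
      ∃ M, M &&& J = M ∧ M.testBit y = false ∧ 1 ≤ rrB B x N C j M)
    (hM : ∃ M, M &&& J = M ∧ 1 ≤ rrB B x N C j M) :
    2 ≤ rrB B x N C j (J ||| 2 ^ a) := by
  classical
  have hcf := h.cf
  have key := hcf.rf_step (J := J) (b := a) (t := 1) hj ?_ ?_ ha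
  · exact (hcf.rf_rr hj).1 key
  · intro i hi
    by_contra hne
    have h1 : i ∈ cxs B (C j) (ptm x N (2 ^ a)) :=
      (mem_cxs_bit ha).2 ⟨nonempty_iff_ne_empty.2 hne, hi⟩
    unfold ecB at h0
    rw [card_eq_zero] at h0
    rw [h0] at h1
    exact absurd h1 (notMem_empty _)
  · intro i hi J' hJ'1 hJ'2
    -- enough: a refused mask inside J avoiding the block
    have suff : ∀ M : ℕ, M &&& J = M → (∀ b < N, M.testBit b = true → x b ∉ B i) →
        1 ≤ rrB B x N C j M →
        Pool.Agent.Hyp6.rho B (C j) + 1 ≤ Pool.Agent.Hyp6.rho B (C j ∪ ptm x N J') := by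
      intro M hM1 hM2 hM3
      have h1 := hcf.rho_rr hj M
      have h2 : Pool.Agent.Hyp6.rho B (C j ∪ ptm x N M) ≤
          Pool.Agent.Hyp6.rho B (C j ∪ ptm x N J') := by
        refine rho_mono (union_subset_union_right (ptm_mono fun b hb hMb => ?_)) (hcf.covJ hj J')
        exact hJ'1 b hb (sub_bits hM1 hMb) (hM2 b hb hMb)
      omega
    by_cases hc : ∃ c < r, (B i ∩ C c).Nonempty
    · obtain ⟨c, hc, hic⟩ := hc
      by_cases hy : ∃ y < N, y ≠ a ∧ x y ∈ B i
      · obtain ⟨y, hyN, hya, hyi⟩ := hy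
        have honly : ∀ b < N, x b ∈ B i → b = a ∨ b = y := by
          intro b hbN hbi
          by_contra hcon
          push Not at hcon
          have h1 := hcf.two_points hc hic hbN ha hyN hbi hi hyi hcon.1 hcon.2
          exact hya h1.symm
        rcases hpt y hyN hya with h1 | ⟨M, hM1, hM2, hM3⟩
        · exfalso
          have h2 := h1 c hc
          unfold lcB at h2
          rw [card_eq_zero] at h2
          have h3 := (hcf.hb_pair hc ha hyN (Ne.symm hya) (i := i)).2 ⟨hic, hi, hyi⟩
          rw [h2] at h3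
          exact absurd h3 (notMem_empty _)
        · refine suff M hM1 (fun b hbN hMb hbi => ?_) hM3
          rcases honly b hbN hbi with rfl | rfl
          · rw [sub_bits hM1 hMb] at hJa
            exact absurd hJa (by simp)
          · rw [hMb] at hM2
            exact absurd hM2 (by simp)
      · push Not at hy
        obtain ⟨M, hM1, hM3⟩ := hM
        refine suff M hM1 (fun b hbN hMb hbi => ?_) hM3
        have hba : b = a := by
          by_contra hne
          exact hy b hbN hne hbi
        subst hba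
        rw [sub_bits hM1 hMb] at hJa
        exact absurd hJa (by simp)
    · push Not at hc
      obtain ⟨A, hA1, hA2⟩ := exists_mask N (fun b => x b ∈ B i)
      have htr : B i ∩ Q = ptm x N A := by
        ext v
        rw [mem_inter, mem_ptm]
        constructor
        · rintro ⟨hvi, hvQ⟩
          rcases hcf.all v hvQ with ⟨b, hb, rfl⟩ | ⟨c, hc', hv⟩
          · exact ⟨b, hb, (hA2 b hb).2 hvi, rfl⟩
          · exfalso
            have h1 := hc c hc'
            have h2 : v ∈ B i ∩ C c := mem_inter.2 ⟨hvi, hv⟩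
            rw [h1] at h2
            exact absurd h2 (notMem_empty _)
        · rintro ⟨b, hb, hAb, rfl⟩
          exact ⟨(hA2 b hb).1 hAb, hcf.xQ b hb⟩
      have hAa : A.testBit a = true := (hA2 a ha).2 hi
      have hA0 : A ≠ 0 := by
        rintro rfl
        simp at hAa
      have h1 := h.cnt A hA1 hA0
      have h2 : 0 < (ib B Q x N A).card := card_pos.2 ⟨i, mem_ib.2 htr⟩
      have h3 : A ∈ ins := List.count_pos_iff.1 (by omega)
      obtain ⟨M, hM1, hM2, hM3⟩ := hins A h3 hAa
      refine suff M hM1 (fun b hbN hMb hbi => ?_) hM3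
      have h4 : (M &&& A).testBit b = true := by
        rw [Nat.testBit_and, hMb, (hA2 b hbN).2 hbi]
        rfl
      rw [hM2] at h4
      simp at h4

/-- **the numeric facts of a configuration.** -/
theorem Ci.nm {ins : List ℕ} (h : Ci B Q N r x C ins) :
    Nm N r ins (ecB B x N C) (lcB B x N C) (rrB B x N C) := by
  classical
  have hcf := h.cf
  refine ⟨h.N8, h.r4, ?_, ?_, ?_, ?_, ?_, ?_, ?_, ?_, ?_, ?_, ?_, ?_, h.hall, ?_, ?_⟩
  · intro j _ a ha
    unfold ecB
    rw [← hcf.reg (x a) (hcf.xQ a ha)]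
    refine card_le_card fun i hi => ?_
    rw [mem_cxs_bit ha] at hi
    simp [hi.2]
  · intro j hj A a ha hA
    have haN : a < N := lt_of_lt_of_le ha h.N6
    have h1 := hcf.deg_ins h.insN h.cnt haN
    have h2 : lcB B x N C j A ≤ ecB B x N C j (2 ^ a) := lc_le haN hA Nat.testBit_two_pow_self
    have h3 : ecB B x N C j (2 ^ a) ≤ ∑ j ∈ range r, (cxs B (C j) (ptm x N (2 ^ a))).card :=
      single_le_sum (f := fun j => (cxs B (C j) (ptm x N (2 ^ a))).card)
        (fun _ _ => Nat.zero_le _) (mem_range.2 hj)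
    have h4 : 0 < (ins.filter (fun A => A.testBit a)).length := by
      rw [List.length_pos_iff_exists_mem]
      rcases lt_or_ge a 3 with h5 | h5
      · exact ⟨7, List.mem_filter.2 ⟨h.i7, by interval_cases a <;> rfl⟩⟩
      · exact ⟨56, List.mem_filter.2 ⟨h.i56, by interval_cases a <;> rfl⟩⟩
    omega
  · intro j _ A J a ha hA hJ
    exact lc_le ha hA hJ
  · intro j _ A A' a ha hA hA' hne h1 h2
    exact lc_add_le hA hA' hne ha h1 Nat.testBit_two_pow_self ha h2 Nat.testBit_two_pow_self
  · intro a ha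
    have h1 := hcf.deg_ins h.insN h.cnt ha
    rw [ina_eq]
    exact h1.ge
  · intro j hj J J' hJ
    exact hcf.rr_mono hj hJ
  · intro j hj J D hD
    obtain ⟨i, hi⟩ := h.block hD
    exact hcf.rr_block hj hi
  · intro j hj
    unfold rrB
    rw [ptm_zero, union_empty]
    omega
  · intro j hj a ha h1
    unfold ecB at h1
    obtain ⟨i, hi⟩ := card_pos.1 h1
    rw [mem_cxs_bit ha] at hi
    have h2 : ¬ Cst B (C j) (ptm x N (2 ^ a)) 1 := by
      refine (hcf.crit j hj).not_Cst (hcf.covC hj) hi.1 ?_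
      rw [ptm_bit ha]
      exact singleton_subset_iff.2 hi.2
    have h3 := hcf.rho_rr hj (2 ^ a)
    unfold Cst at h2
    omega
  · intro j hj A h1
    have h2 := hcf.not_rf_hit hj h1 (Nat.and_self A)
    have h3 := (hcf.rf_rr (J := A) (t := 0) hj).not.1 h2
    omega
  · intro j hj a ha h1
    have h2 := hcf.rf_of_nohit hj ha (fun A _ hAa => by
      have h3 : (hb B x N (C j) A).card ≤ ecB B x N C j (2 ^ a) :=
        lc_le ha hAa Nat.testBit_two_pow_self
      omega)
    exact (hcf.rf_rr hj).1 h2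
  · intro j hj a ha J hJa h0 hins hpt hM
    exact h.step hj ha hJa h0 hins hpt hM
  · intro m Ds hD hu
    exact hcf.part_sum m Ds (fun D hD' => h.block (hD D hD')) hu
  · intro j hj J z hz L hJz hL
    have h1 := hcf.join hj hz hJz
    have h2 : ∑ y ∈ (range N).filter (fun y => J.testBit y = true),
        (hb B x N (C j) (2 ^ y ||| 2 ^ z)).card ≤
        (L.map (fun y => lcB B x N C j (2 ^ y ||| 2 ^ z))).sum := by
      have h3 : (range N).filter (fun y => J.testBit y = true) ⊆ L.toFinset := by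
        intro y hy
        rw [mem_filter, mem_range] at hy
        exact List.mem_toFinset.2 (hL y hy.1 hy.2)
      refine (sum_le_sum_of_subset h3).trans ?_
      have h4 : ∀ l : List ℕ, ∑ y ∈ l.toFinset, (hb B x N (C j) (2 ^ y ||| 2 ^ z)).card ≤
          (l.map (fun y => lcB B x N C j (2 ^ y ||| 2 ^ z))).sum := by
        intro l
        induction l with
        | nil => simp
        | cons q l ih =>
          rw [List.toFinset_cons, List.map_cons, List.sum_cons]
          by_cases hq : q ∈ l.toFinset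
          · rw [insert_eq_of_mem hq]
            omega
          · rw [sum_insert hq]
            unfold lcB at ih ⊢
            omega
      exact h4 L
    unfold ecB
    omega

end Pool.Agent.Hyp6
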