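import Pool.Agent.Hyp6.Cfg1
import Pool.Agent.Hyp6.Cfg2

/-!
# HYP6 CFG4: the reasons `part` and `deg5`

`Cf.part`: a partition of the points does not give a cheap cover. `Cf.deg_le`, `Cf.deg_ge`: every point lies
on five blocks; `itc` is the number of blocks of an item (kind `0`: blocks meeting a component, kind `2`:
inner blocks).
-/

set_option autoImplicit false

namespace Pool.Agent.Hyp6

open Finset Pool.Agent.Hyp5

universe u v

variable {V : Type v} [DecidableEq V] {ι : Type u} [Fintype ι]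

variable {B : ι → Finset V} {Q : Finset V} {N r : ℕ} {x : ℕ → V} {C : ℕ → Finset V} {k : ℕ}

/-- **the reason `part`**. -/
theorem Cf.part (h : Cf B Q N r x C k) (J t : ℕ → ℕ) (L : List ℕ)
    (hL : ∀ A ∈ L, (ib B Q x N A).Nonempty)
    (hu : ∀ a < N, (∃ j < r, (J j).testBit a = true) ∨ ∃ A ∈ L, A.testBit a = true)
    (hs : ∑ j ∈ range r, t j + L.length < k) :
    ∃ j < r, rf B x N (C j) (J j) (t j) := by
  classical
  by_contra hcon
  push Not at hcon
  have hc : ∀ j, ∃ T : Finset ι, j < r → (C j ∪ ptm x N (J j) ⊆ T.biUnion B ∧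
      T.card ≤ _root_.Pool.Agent.Hyp6.rho B (C j) + t j) := by
    intro j
    by_cases hj : j < r
    · have h1 : Cov B (C j ∪ ptm x N (J j)) :=
        (cov_of_reg h.reg).mono (union_subset (h.CQ j hj) (h.pt_sub _))
      obtain ⟨T, hT, hTc⟩ := exists_cover h1
      refine ⟨T, fun _ => ⟨hT, ?_⟩⟩
      have h2 := hcon j hj
      unfold rf at h2
      omega
    · exact ⟨∅, fun hj' => absurd hj' hj⟩
  choose T hT using hc
  have hA : ∀ A, ∃ i, A ∈ L → B i ∩ Q = ptm x N A := by
    intro A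
    by_cases hA : A ∈ L
    · obtain ⟨i, hi⟩ := hL A hA
      exact ⟨i, fun _ => mem_ib.1 hi⟩
    · by_cases hne : Nonempty ι
      · exact ⟨hne.some, fun hA' => absurd hA' hA⟩
      · exfalso
        rcases Nat.eq_zero_or_pos N with hN | hN
        · rcases Nat.eq_zero_or_pos r with hr | hr
          · have hQ : Q = ∅ := by
              rw [eq_empty_iff_forall_notMem]
              intro v hv
              rcases h.all v hv with ⟨a, ha, _⟩ | ⟨j, hj, _⟩ <;> omega
            have h1 := h.rho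
            rw [hr, hQ] at h1
            simp only [range_zero, sum_empty, zero_add] at h1
            have h2 : _root_.Pool.Agent.Hyp6.rho B (∅ : Finset V) ≤ (∅ : Finset ι).card :=
              rho_le (by simp)
            rw [card_empty] at h2
            omega
          · obtain ⟨v, hv⟩ := (h.conn 0 hr).1
            have h2 := h.reg v (h.CQ 0 hr hv)
            have h3 : (univ.filter (fun i => v ∈ B i)).Nonempty := card_pos.1 (by omega)
            obtain ⟨i, _⟩ := h3
            exact hne ⟨i⟩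
        · have h2 := h.reg (x 0) (h.xQ 0 hN)
          have h3 : (univ.filter (fun i => x 0 ∈ B i)).Nonempty := card_pos.1 (by omega)
          obtain ⟨i, _⟩ := h3
          exact hne ⟨i⟩
  choose I hI using hA
  set R : Finset ι := (range r).biUnion T ∪ L.toFinset.image I with hR
  have hcov : Q ⊆ R.biUnion B := by
    intro v hv
    rw [mem_biUnion]
    rcases h.all v hv with ⟨a, ha, rfl⟩ | ⟨j, hj, hvj⟩
    · rcases hu a ha with ⟨j, hj, hb⟩ | ⟨A, hAL, hb⟩
      · have h1 := (hT j hj).1 (mem_union_right _ ((h.mem_pt ha).2 hb))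
        obtain ⟨i, hi, hxi⟩ := mem_biUnion.1 h1
        exact ⟨i, mem_union_left _ (mem_biUnion.2 ⟨j, mem_range.2 hj, hi⟩), hxi⟩
      · refine ⟨I A, mem_union_right _ (mem_image_of_mem _ (List.mem_toFinset.2 hAL)), ?_⟩
        have h1 : x a ∈ B (I A) ∩ Q := by
          rw [hI A hAL]
          exact (h.mem_pt ha).2 hb
        exact (mem_inter.1 h1).1
    · have h1 := (hT j hj).1 (mem_union_left _ hvj)
      obtain ⟨i, hi, hxi⟩ := mem_biUnion.1 h1
      exact ⟨i, mem_union_left _ (mem_biUnion.2 ⟨j, mem_range.2 hj, hi⟩), hxi⟩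
  have h1 : R.card ≤ ∑ j ∈ range r, (_root_.Pool.Agent.Hyp6.rho B (C j) + t j) + L.length := by
    refine (card_union_le _ _).trans (Nat.add_le_add ?_ ?_)
    · refine card_biUnion_le.trans (sum_le_sum fun j hj => (hT j (mem_range.1 hj)).2)
    · exact card_image_le.trans (List.toFinset_card_le L)
  have h2 := rho_le hcov
  have h3 := h.rho
  rw [sum_add_distrib] at h1
  omega

/-- the blocks of an item. -/
noncomputable def itf (B : ι → Finset V) (Q : Finset V) (x : ℕ → V) (N : ℕ) (C : ℕ → Finset V)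
    (q : ℕ × ℕ × ℕ) : Finset ι :=
  if q.1 = 0 then hb B x N (C q.2.1) q.2.2 else ib B Q x N q.2.2

/-- the number of blocks of an item. -/
noncomputable def itc (B : ι → Finset V) (Q : Finset V) (x : ℕ → V) (N : ℕ) (C : ℕ → Finset V)
    (q : ℕ × ℕ × ℕ) : ℕ := (itf B Q x N C q).card

theorem itc_zero (j A : ℕ) : itc B Q x N C (0, j, A) = (hb B x N (C j) A).card := by
  unfold itc itf
  rw [if_pos rfl]

theorem itc_two (j A : ℕ) : itc B Q x N C (2, j, A) = (ib B Q x N A).card := by
  unfold itc itf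
  rw [if_neg (by norm_num)]

/-- a valid item at the point `a`. -/
def itok (r N a : ℕ) (q : ℕ × ℕ × ℕ) : Bool :=
  (decide (q.1 = 0) && decide (q.2.1 < r) || decide (q.1 = 2) && decide (q.2.1 = 0)) &&
    decide (q.2.2 < 2 ^ N) && q.2.2.testBit a

theorem itok_iff {r N a : ℕ} {q : ℕ × ℕ × ℕ} : itok r N a q = true ↔
    ((q.1 = 0 ∧ q.2.1 < r ∨ q.1 = 2 ∧ q.2.1 = 0) ∧ q.2.2 < 2 ^ N) ∧ q.2.2.testBit a = true := by
  unfold itok
  simp only [Bool.and_eq_true, Bool.or_eq_true, decide_eq_true_eq]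

theorem Cf.itf_sub (h : Cf B Q N r x C k) {a : ℕ} (ha : a < N) {q : ℕ × ℕ × ℕ}
    (hq : itok r N a q = true) : itf B Q x N C q ⊆ univ.filter (fun i => x a ∈ B i) := by
  obtain ⟨⟨h1, h2⟩, h3⟩ := itok_iff.1 hq
  intro i hi
  rw [mem_filter]
  refine ⟨mem_univ _, ?_⟩
  unfold itf at hi
  split_ifs at hi
  · exact ((mem_hb.1 hi).2 a ha).2 h3
  · have h4 : x a ∈ B i ∩ Q := by
      rw [mem_ib.1 hi]
      exact (h.mem_pt ha).2 h3
    exact (mem_inter.1 h4).1

theorem Cf.itf_disj (h : Cf B Q N r x C k) {a : ℕ} {q q' : ℕ × ℕ × ℕ}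
    (hq : itok r N a q = true) (hq' : itok r N a q' = true) (hne : q ≠ q') :
    Disjoint (itf B Q x N C q) (itf B Q x N C q') := by
  obtain ⟨⟨h1, h2⟩, -⟩ := itok_iff.1 hq
  obtain ⟨⟨h1', h2'⟩, -⟩ := itok_iff.1 hq'
  obtain ⟨kd, j, A⟩ := q
  obtain ⟨kd', j', A'⟩ := q'
  simp only at h1 h2 h1' h2'
  unfold itf
  simp only
  rcases h1 with ⟨h1, hj⟩ | ⟨h1, hj⟩ <;> rcases h1' with ⟨h1', hj'⟩ | ⟨h1', hj'⟩
  · rw [if_pos h1, if_pos h1']
    by_cases hjj : j = j'
    · subst hjj
      refine hb_disj h2 h2' ?_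
      rintro rfl
      exact hne (by rw [h1, h1'])
    · exact h.hb_comp hj hj' hjj
  · rw [if_pos h1, if_neg (by omega)]
    exact (h.ib_hb hj).symm
  · rw [if_neg (by omega), if_pos h1']
    exact h.ib_hb hj'
  · rw [if_neg (by omega), if_neg (by omega)]
    refine h.ib_disj h2 h2' ?_
    rintro rfl
    exact hne (by rw [h1, h1', hj, hj'])

/-- different items at a point. -/
theorem Cf.sum_itc_le (h : Cf B Q N r x C k) {a : ℕ} (ha : a < N) (K : Finset (ℕ × ℕ × ℕ))
    (hK : ∀ q ∈ K, itok r N a q = true) : ∑ q ∈ K, itc B Q x N C q ≤ 5 := by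
  classical
  have h1 : (K.biUnion (itf B Q x N C)).card = ∑ q ∈ K, itc B Q x N C q := by
    refine card_biUnion fun q hq q' hq' hne => ?_
    exact h.itf_disj (hK q hq) (hK q' hq') hne
  rw [← h1, ← h.reg (x a) (h.xQ a ha)]
  exact card_le_card (biUnion_subset.2 fun q hq => h.itf_sub ha (hK q hq))

/-- the reason `deg5`, at most five. -/
def degle_ok (r N a : ℕ) (l : List ((ℕ × ℕ × ℕ) × ℕ)) : Bool :=
  decide (a < N) && decide ((l.map Prod.fst).Nodup) && l.all (fun q => itok r N a q.1) &&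
    decide (6 ≤ (l.map Prod.snd).sum)

theorem sum_list_le {α : Type*} (l : List (α × ℕ)) (f : α → ℕ) (h : ∀ q ∈ l, q.2 ≤ f q.1) :
    (l.map Prod.snd).sum ≤ ((l.map Prod.fst).map f).sum := by
  induction l with
  | nil => simp
  | cons q l ih =>
    simp only [List.map_cons, List.sum_cons]
    have h1 := h q (by simp)
    have h2 := ih (fun q' hq' => h q' (by simp [hq']))
    omega

theorem sum_list_ge {α : Type*} (l : List (α × ℕ)) (f : α → ℕ) (h : ∀ q ∈ l, f q.1 ≤ q.2) :
    ((l.map Prod.fst).map f).sum ≤ (l.map Prod.snd).sum := by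
  induction l with
  | nil => simp
  | cons q l ih =>
    simp only [List.map_cons, List.sum_cons]
    have h1 := h q (by simp)
    have h2 := ih (fun q' hq' => h q' (by simp [hq']))
    omega

theorem sum_toF {α : Type*} [DecidableEq α] (l : List α) (hl : l.Nodup) (f : α → ℕ) :
    ∑ q ∈ l.toFinset, f q = (l.map f).sum := by
  induction l with
  | nil => simp
  | cons q l ih =>
    rw [List.nodup_cons] at hl
    rw [List.toFinset_cons, sum_insert (by rw [List.mem_toFinset]; exact hl.1), ih hl.2]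
    simp

theorem Cf.deg_le (h : Cf B Q N r x C k) {a : ℕ} {l : List ((ℕ × ℕ × ℕ) × ℕ)}
    (hok : degle_ok r N a l = true) : ∃ q ∈ l, itc B Q x N C q.1 < q.2 := by
  classical
  unfold degle_ok at hok
  simp only [Bool.and_eq_true, decide_eq_true_eq, List.all_eq_true] at hok
  obtain ⟨⟨⟨ha, hnd⟩, hall⟩, h6⟩ := hok
  by_contra hcon
  push Not at hcon
  have h1 := sum_list_le l (itc B Q x N C) hcon
  have h0 := sum_toF _ hnd (itc B Q x N C)
  have h2 := h.sum_itc_le ha (l.map Prod.fst).toFinset (fun q hq => by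
    rw [List.mem_toFinset, List.mem_map] at hq
    obtain ⟨q', hq', rfl⟩ := hq
    exact hall q' hq')
  omega

/-- all the items at the point `a`. -/
def allIt (r N a : ℕ) : List (ℕ × ℕ × ℕ) :=
  ((List.range r).flatMap (fun j => ((List.range (2 ^ N)).filter
    (fun A => A.testBit a && decide (pcn N A ≤ 2))).map (fun A => (0, j, A)))) ++
  ((List.range (2 ^ N)).filter (fun A => A.testBit a && decide (pcn N A ≤ 3))).map
    (fun A => (2, 0, A))

theorem pcn_eq (N A : ℕ) : pcn N A = ((range N).filter (fun a => A.testBit a = true)).card := by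
  unfold pcn
  rw [card_filter]
  induction N with
  | zero => simp
  | succ N ih =>
    rw [List.range_succ, List.map_append, List.sum_append, ih, sum_range_succ]
    simp

theorem Cf.card_ptm (h : Cf B Q N r x C k) (A : ℕ) : (ptm x N A).card = pcn N A := by
  rw [pcn_eq]
  unfold ptm
  refine card_image_of_injOn ?_
  intro a ha b hb he
  rw [mem_coe, mem_filter, mem_range] at ha hb
  exact h.inj a ha.1 b hb.1 he

/-- the mask of a set of points. -/
theorem exists_msk (N : ℕ) (P : ℕ → Prop) :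
    ∃ A < 2 ^ N, ∀ a < N, (A.testBit a = true ↔ P a) := by
  classical
  refine ⟨Nat.ofBits (fun a : Fin N => decide (P a)), Nat.ofBits_lt_two_pow _, fun a ha => ?_⟩
  rw [Nat.testBit_ofBits_lt _ _ ha]
  simp

/-- every block through a point belongs to an item. -/
theorem Cf.exists_it (h : Cf B Q N r x C k) {a : ℕ} (ha : a < N) {i : ι} (hi : x a ∈ B i) :
    ∃ q ∈ allIt r N a, i ∈ itf B Q x N C q := by
  classical
  obtain ⟨A, hA, hAb⟩ := exists_msk N (fun b => x b ∈ B i)
  have hAa : A.testBit a = true := (hAb a ha).2 hi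
  have hsub : ptm x N A ⊆ B i ∩ Q := by
    intro v hv
    obtain ⟨b, hb, h1, rfl⟩ := mem_ptm.1 hv
    exact mem_inter.2 ⟨(hAb b hb).1 h1, h.xQ b hb⟩
  by_cases hex : ∃ j < r, (B i ∩ C j).Nonempty
  · obtain ⟨j, hj, v, hv⟩ := hex
    rw [mem_inter] at hv
    have h1 : insert v (ptm x N A) ⊆ B i ∩ Q :=
      insert_subset (mem_inter.2 ⟨hv.1, h.CQ j hj hv.2⟩) hsub
    have h2 : v ∉ ptm x N A := by
      intro hv'
      obtain ⟨b, hb, _, rfl⟩ := mem_ptm.1 hv'
      exact h.xC b hb j hj hv.2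
    have h3 := card_le_card h1
    rw [card_insert_of_notMem h2, h.card_ptm] at h3
    have h4 := h.tr3 i
    refine ⟨(0, j, A), ?_, ?_⟩
    · unfold allIt
      rw [List.mem_append]
      left
      rw [List.mem_flatMap]
      refine ⟨j, List.mem_range.2 hj, List.mem_map.2 ⟨A, ?_, rfl⟩⟩
      rw [List.mem_filter, List.mem_range]
      refine ⟨hA, ?_⟩
      rw [hAa, Bool.true_and, decide_eq_true_eq]
      omega
    · unfold itf
      rw [if_pos rfl, mem_hb]
      exact ⟨⟨v, mem_inter.2 hv⟩, fun b hb => (hAb b hb).symm⟩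
  · push Not at hex
    have h1 : B i ∩ Q = ptm x N A := by
      refine subset_antisymm ?_ hsub
      intro v hv
      rw [mem_inter] at hv
      rcases h.all v hv.2 with ⟨b, hb, rfl⟩ | ⟨j, hj, hvj⟩
      · exact (h.mem_pt hb).2 ((hAb b hb).2 hv.1)
      · have h2 := hex j hj
        have h3 : v ∈ B i ∩ C j := mem_inter.2 ⟨hv.1, hvj⟩
        rw [h2] at h3
        exact absurd h3 (notMem_empty _)
    have h4 := h.tr3 i
    rw [h1, h.card_ptm] at h4
    refine ⟨(2, 0, A), ?_, ?_⟩
    · unfold allIt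
      rw [List.mem_append]
      right
      refine List.mem_map.2 ⟨A, ?_, rfl⟩
      rw [List.mem_filter, List.mem_range]
      refine ⟨hA, ?_⟩
      rw [hAa, Bool.true_and, decide_eq_true_eq]
      exact h4
    · unfold itf
      rw [if_neg (by norm_num), mem_ib]
      exact h1

/-- the reason `deg5`, at least five. -/
def degge_ok (r N a : ℕ) (l : List ((ℕ × ℕ × ℕ) × ℕ)) : Bool :=
  decide (a < N) && decide ((l.map Prod.fst).Nodup) &&
    (allIt r N a).all (fun q => decide (q ∈ l.map Prod.fst)) &&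
    decide ((l.map Prod.snd).sum ≤ 4)

theorem Cf.deg_ge (h : Cf B Q N r x C k) {a : ℕ} {l : List ((ℕ × ℕ × ℕ) × ℕ)}
    (hok : degge_ok r N a l = true) : ∃ q ∈ l, q.2 < itc B Q x N C q.1 := by
  classical
  unfold degge_ok at hok
  simp only [Bool.and_eq_true, decide_eq_true_eq, List.all_eq_true] at hok
  obtain ⟨⟨⟨ha, hnd⟩, hall⟩, h6⟩ := hok
  by_contra hcon
  push Not at hcon
  have h1 := sum_list_ge l (itc B Q x N C) hcon
  have h0 := sum_toF _ hnd (itc B Q x N C)
  have h2 : univ.filter (fun i => x a ∈ B i) ⊆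
      (l.map Prod.fst).toFinset.biUnion (itf B Q x N C) := by
    intro i hi
    obtain ⟨q, hq, hiq⟩ := h.exists_it ha (mem_filter.1 hi).2
    exact mem_biUnion.2 ⟨q, List.mem_toFinset.2 (hall q hq), hiq⟩
  have h3 := (card_le_card h2).trans card_biUnion_le
  rw [h.reg (x a) (h.xQ a ha)] at h3
  have h4 : ∑ q ∈ (l.map Prod.fst).toFinset, (itf B Q x N C q).card =
      ∑ q ∈ (l.map Prod.fst).toFinset, itc B Q x N C q := rfl
  omega

end Pool.Agent.Hyp6
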