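import Pool.Agent.Hyp6.Cfg6
import Pool.Agent.Hyp6.Cfg4

/-!
# HYP6 CFG7: instances of a configuration and their symmetries

`CfI B Q n x D i j ub ins`: the configuration `CfK` with upper bounds `ub` for the values of the
components and the list `ins` of the masks of the inner blocks other than the two full blocks. Points
and components can be permuted.
-/

set_option autoImplicit false

namespace Pool.Agent.Hyp6

open Finset Pool.Agent.Hyp5

universe u v

/-! ### lists with prescribed counts -/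

theorem exists_count_list (c : ℕ → ℕ) : ∀ m : ℕ, ∃ L : List ℕ,
    (∀ A, L.count A = if A < m then c A else 0) ∧ L.length = ∑ A ∈ range m, c A ∧
      L.Pairwise (· ≤ ·) := by
  intro m
  induction m with
  | zero => exact ⟨[], by simp, by simp, List.Pairwise.nil⟩
  | succ m ih =>
    obtain ⟨L, h1, h2, h3⟩ := ih
    have hlt : ∀ A ∈ L, A < m := by
      intro A hA
      by_contra hcon
      have h4 := h1 A
      rw [if_neg hcon, List.count_eq_zero] at h4
      exact h4 hA
    refine ⟨L ++ List.replicate (c m) m, ?_, ?_, ?_⟩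
    · intro A
      rw [List.count_append, h1, List.count_replicate]
      rcases lt_trichotomy A m with hA | hA | hA
      · have h5 : (m == A) = false := by
          rw [beq_eq_false_iff_ne]
          omega
        rw [if_pos hA, if_pos (Nat.lt_succ_of_lt hA), h5]
        rfl
      · subst hA
        simp
      · have h5 : (m == A) = false := by
          rw [beq_eq_false_iff_ne]
          omega
        rw [h5, if_neg (show ¬ A < m by omega), if_neg (show ¬ A < m + 1 by omega)]
        rfl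
    · rw [List.length_append, h2, List.length_replicate, sum_range_succ]
    · rw [List.pairwise_append]
      refine ⟨h3, List.pairwise_replicate.2 (Or.inr le_rfl), ?_⟩
      intro a ha b hb
      rw [List.eq_of_mem_replicate hb]
      exact (hlt a ha).le

variable {V : Type v} [DecidableEq V] {ι : Type u} [Fintype ι] {B : ι → Finset V}
variable {Q : Finset V} {i j : ι} {n : ℕ} {x : ℕ → V} {D : ℕ → Finset V}

/-! ### instances -/

/-- a configuration with upper bounds for the values of the components and the list of the masks of the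
inner blocks other than the two full blocks. -/
structure CfI (B : ι → Finset V) (Q : Finset V) (n : ℕ) (x : ℕ → V) (D : ℕ → Finset V) (i j : ι)
    (ub ins : List ℕ) : Prop extends CfK B Q n x D i j where
  cnt : ∀ A < 2 ^ (6 + n), A ≠ 0 → (ib B Q x (6 + n) A).card = (7 :: 56 :: ins).count A
  kle : ∀ a < 2 + n, kpv B Q (D a) ≤ (ub.getD a 0 : ℤ)

/-- number of points with two single inner blocks. -/
def e2n (n : ℕ) (L : List ℕ) : ℕ := ((List.range (6 + n)).filter (fun a => 2 ≤ L.count (2 ^ a))).length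

theorem CfK.mem_i (h : CfK B Q n x D i j) : i ∈ ib B Q x (6 + n) 7 := mem_ib.2 h.i7

theorem CfK.mem_j (h : CfK B Q n x D i j) : j ∈ ib B Q x (6 + n) 56 := mem_ib.2 h.j56

/-- the list of the masks of the inner blocks. -/
theorem CfK.exists_ins (h : CfK B Q n x D i j) : ∃ L : List ℕ, L.Pairwise (· ≤ ·) ∧
    (∀ A ∈ L, A < 2 ^ (6 + n) ∧ A ≠ 0 ∧ pcn (6 + n) A ≤ 3) ∧
    (∀ A < 2 ^ (6 + n), A ≠ 0 → (ib B Q x (6 + n) A).card = (7 :: 56 :: L).count A) ∧
    ∑ a ∈ range (2 + n), kpv B Q (D a) + 4 * (L.length : ℤ) + 4 * (n : ℤ) ≤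
      10 + 2 * (e2n n L : ℤ) := by
  classical
  set N := 6 + n with hN
  set c : ℕ → ℕ := fun A => if A = 0 then 0 else
    (ib B Q x N A).card - (if A = 7 then 1 else 0) - (if A = 56 then 1 else 0) with hc
  obtain ⟨L, h1, h2, h3⟩ := exists_count_list c (2 ^ N)
  have hp7 : 1 ≤ (ib B Q x N 7).card := card_pos.2 ⟨i, h.mem_i⟩
  have hp56 : 1 ≤ (ib B Q x N 56).card := card_pos.2 ⟨j, h.mem_j⟩
  have h64 : 64 ≤ 2 ^ N := by
    calc 64 = 2 ^ 6 := by norm_num
      _ ≤ 2 ^ N := Nat.pow_le_pow_right (by norm_num) (by omega)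
  have hcnt : ∀ A < 2 ^ N, A ≠ 0 → (ib B Q x N A).card = (7 :: 56 :: L).count A := by
    intro A hA hA0
    have h4 : L.count A = c A := by rw [h1, if_pos hA]
    rw [List.count_cons, List.count_cons, h4, hc]
    simp only [if_neg hA0]
    by_cases e7 : A = 7
    · subst e7
      simp
      omega
    · by_cases e56 : A = 56
      · subst e56
        simp
        omega
      · have k1 : (7 == A) = false := by
          rw [beq_eq_false_iff_ne]
          exact fun h => e7 h.symm
        have k2 : (56 == A) = false := by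
          rw [beq_eq_false_iff_ne]
          exact fun h => e56 h.symm
        rw [if_neg e7, if_neg e56, k1, k2]
        simp
  have hmem : ∀ A ∈ L, A < 2 ^ N ∧ A ≠ 0 ∧ 0 < c A := by
    intro A hA
    have h4 := h1 A
    have h5 : 0 < L.count A := List.count_pos_iff.2 hA
    by_cases hlt : A < 2 ^ N
    · rw [if_pos hlt] at h4
      refine ⟨hlt, ?_, by omega⟩
      rintro rfl
      rw [hc] at h4
      simp only [if_true] at h4
      omega
    · rw [if_neg hlt] at h4
      omega
  refine ⟨L, h3, ?_, hcnt, ?_⟩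
  · intro A hA
    obtain ⟨k1, k2, k3⟩ := hmem A hA
    refine ⟨k1, k2, ?_⟩
    have h5 : 0 < (ib B Q x N A).card := by
      rw [hc] at k3
      simp only [if_neg k2] at k3
      omega
    obtain ⟨k, hk⟩ := card_pos.1 h5
    rw [mem_ib] at hk
    rw [← h.cf.card_ptm, ← hk]
    exact h.cf.tr3 k
  · have ht := h.tot
    have hsum : ∑ A ∈ (range (2 ^ N)).erase 0, ((ib B Q x N A).card : ℤ) = 2 + (L.length : ℤ) := by
      have h6 : ∀ A ∈ (range (2 ^ N)).erase 0, ((ib B Q x N A).card : ℤ) =
          (c A : ℤ) + (if A = 7 then 1 else 0) + (if A = 56 then 1 else 0) := by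
        intro A hA
        rw [mem_erase, mem_range] at hA
        rw [hc]
        simp only [if_neg hA.1]
        by_cases e7 : A = 7
        · subst e7
          simp
          omega
        · by_cases e56 : A = 56
          · subst e56
            simp
            omega
          · simp [e7, e56]
      rw [sum_congr rfl h6, sum_add_distrib, sum_add_distrib, sum_ite_eq', sum_ite_eq',
        if_pos (by rw [mem_erase, mem_range]; exact ⟨by norm_num, by omega⟩),
        if_pos (by rw [mem_erase, mem_range]; exact ⟨by norm_num, by omega⟩), h2]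
      have h7 : ∑ A ∈ range (2 ^ N), c A = ∑ A ∈ (range (2 ^ N)).erase 0, c A := by
        rw [← sum_erase_add (range (2 ^ N)) c (a := 0) (mem_range.2 (by omega))]
        have : c 0 = 0 := by rw [hc]; simp
        rw [this, add_zero]
      rw [h7]
      push_cast
      ring
    have he : ((range N).filter (fun a => 2 ≤ (ib B Q x N (2 ^ a)).card)).card = e2n n L := by
      have h8 : ∀ a < N, (2 ≤ (ib B Q x N (2 ^ a)).card ↔ 2 ≤ L.count (2 ^ a)) := by
        intro a ha
        have h9 : (2 : ℕ) ^ a < 2 ^ N := Nat.pow_lt_pow_right (by norm_num) ha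
        have h10 := hcnt (2 ^ a) h9 (by positivity)
        have k1 : (7 == 2 ^ a) = false := by
          rw [beq_eq_false_iff_ne]
          intro hh
          rcases Nat.lt_or_ge a 3 with h11 | h11
          · interval_cases a <;> simp at hh
          · have : 2 ^ 3 ≤ 2 ^ a := Nat.pow_le_pow_right (by norm_num) h11
            omega
        have k2 : (56 == 2 ^ a) = false := by
          rw [beq_eq_false_iff_ne]
          intro hh
          rcases Nat.lt_or_ge a 6 with h11 | h11
          · interval_cases a <;> simp at hh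
          · have : 2 ^ 6 ≤ 2 ^ a := Nat.pow_le_pow_right (by norm_num) h11
            omega
        rw [List.count_cons, List.count_cons, k1, k2] at h10
        simp only [Bool.false_eq_true, if_false, add_zero] at h10
        rw [h10]
      unfold e2n
      rw [← hN]
      have h12 : ((List.range N).filter (fun a => decide (2 ≤ L.count (2 ^ a)))).length =
          (((List.range N).filter (fun a => decide (2 ≤ L.count (2 ^ a)))).toFinset).card := by
        rw [List.toFinset_card_of_nodup (List.nodup_range.filter _)]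
      rw [h12]
      congr 1
      ext a
      rw [mem_filter, mem_range, List.mem_toFinset, List.mem_filter, List.mem_range,
        decide_eq_true_eq]
      exact and_congr_right (h8 a)
    rw [hsum, he] at ht
    linarith

/-! ### permutations of the components -/

theorem exists_pre {m : ℕ} {q : ℕ → ℕ} (hq : ∀ a < m, q a < m)
    (hi : ∀ a < m, ∀ b < m, q a = q b → a = b) {b : ℕ} (hb : b < m) : ∃ a < m, q a = b := by
  have h1 : (range m).image q = range m := by
    apply eq_of_subset_of_card_le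
    · intro c hc
      obtain ⟨a, ha, rfl⟩ := mem_image.1 hc
      exact mem_range.2 (hq a (mem_range.1 ha))
    · rw [card_image_of_injOn]
      intro a ha c hc he
      exact hi a (by simpa using ha) c (by simpa using hc) he
  have h2 : b ∈ (range m).image q := by
    rw [h1]
    exact mem_range.2 hb
  obtain ⟨a, ha, he⟩ := mem_image.1 h2
  exact ⟨a, mem_range.1 ha, he⟩

theorem sum_pre {M : Type*} [AddCommMonoid M] {m : ℕ} {q : ℕ → ℕ} (hq : ∀ a < m, q a < m)
    (hi : ∀ a < m, ∀ b < m, q a = q b → a = b) (f : ℕ → M) :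
    ∑ a ∈ range m, f (q a) = ∑ a ∈ range m, f a := by
  refine sum_bij (fun a _ => q a) (fun a ha => mem_range.2 (hq a (mem_range.1 ha))) ?_ ?_
    (fun _ _ => rfl)
  · intro a ha b hb he
    exact hi a (mem_range.1 ha) b (mem_range.1 hb) he
  · intro b hb
    obtain ⟨a, ha, he⟩ := exists_pre hq hi (mem_range.1 hb)
    exact ⟨a, mem_range.2 ha, he⟩

theorem Cf.permC {N r k : ℕ} {C : ℕ → Finset V} (h : Cf B Q N r x C k) {q : ℕ → ℕ}
    (hq : ∀ a < r, q a < r) (hi : ∀ a < r, ∀ b < r, q a = q b → a = b) :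
    Cf B Q N r x (fun a => C (q a)) k where
  reg := h.reg
  tr3 := h.tr3
  inj := h.inj
  xQ := h.xQ
  CQ := fun j hj => h.CQ _ (hq j hj)
  xC := fun a ha j hj => h.xC a ha _ (hq j hj)
  all := by
    intro v hv
    rcases h.all v hv with h1 | ⟨j, hj, hvj⟩
    · exact Or.inl h1
    · obtain ⟨a, ha, rfl⟩ := exists_pre hq hi hj
      exact Or.inr ⟨a, ha, hvj⟩
  dis := fun j hj j' hj' hne => h.dis _ (hq j hj) _ (hq j' hj') fun he => hne (hi j hj j' hj' he)
  sep := fun j hj j' hj' hne => h.sep _ (hq j hj) _ (hq j' hj') fun he => hne (hi j hj j' hj' he)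
  conn := fun j hj => h.conn _ (hq j hj)
  crit := fun j hj => h.crit _ (hq j hj)
  rho := by
    rw [sum_pre hq hi (fun a => Pool.Agent.Hyp6.rho B (C a))]
    exact h.rho

theorem CfK.permC (h : CfK B Q n x D i j) {q : ℕ → ℕ} (hq : ∀ a < 2 + n, q a < 2 + n)
    (hi : ∀ a < 2 + n, ∀ b < 2 + n, q a = q b → a = b) :
    CfK B Q n x (fun a => D (q a)) i j where
  n2 := h.n2
  cf := h.cf.permC hq hi
  ih := h.ih
  i7 := h.i7
  j56 := h.j56
  ij := h.ij
  svC := fun a ha => h.svC _ (hq a ha)
  kev := fun a ha => h.kev _ (hq a ha)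
  knn := fun a ha => h.knn _ (hq a ha)
  kb := by
    obtain ⟨Y, F, h1, h2, h3⟩ := h.kb
    refine ⟨Y, F, h1, h2, fun L => ?_⟩
    rw [h3]
    constructor
    · rintro ⟨a, ha, he⟩
      obtain ⟨b, hb, rfl⟩ := exists_pre hq hi ha
      exact ⟨b, hb, he⟩
    · rintro ⟨a, ha, he⟩
      exact ⟨q a, hq a ha, he⟩

/-! ### permutations of the points -/

/-- the image of a mask. -/
def pmk (p : ℕ → ℕ) : ℕ → ℕ → ℕ
  | 0, _ => 0
  | N + 1, A => if A.testBit N = true then pmk p N A ||| 2 ^ p N else pmk p N A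

theorem testBit_pmk (p : ℕ → ℕ) (A b : ℕ) : ∀ N, ((pmk p N A).testBit b = true ↔
    ∃ a < N, A.testBit a = true ∧ p a = b) := by
  intro N
  induction N with
  | zero => simp [pmk]
  | succ N ih =>
    unfold pmk
    by_cases h : A.testBit N = true
    · rw [if_pos h, Nat.testBit_or, Bool.or_eq_true, ih]
      constructor
      · rintro (⟨a, ha, h1, h2⟩ | h1)
        · exact ⟨a, by omega, h1, h2⟩
        · refine ⟨N, by omega, h, ?_⟩
          by_contra hne
          rw [Nat.testBit_two_pow_of_ne hne] at h1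
          exact absurd h1 (by simp)
      · rintro ⟨a, ha, h1, h2⟩
        rcases Nat.lt_succ_iff_lt_or_eq.1 ha with h3 | h3
        · exact Or.inl ⟨a, h3, h1, h2⟩
        · subst h3
          right
          rw [h2]
          exact Nat.testBit_two_pow_self
    · rw [if_neg h, ih]
      constructor
      · rintro ⟨a, ha, h1, h2⟩
        exact ⟨a, by omega, h1, h2⟩
      · rintro ⟨a, ha, h1, h2⟩
        rcases Nat.lt_succ_iff_lt_or_eq.1 ha with h3 | h3
        · exact ⟨a, h3, h1, h2⟩
        · subst h3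
          exact absurd h1 h

theorem ptm_pmk {N : ℕ} (p : ℕ → ℕ) (hp : ∀ a < N, p a < N) (A : ℕ) :
    ptm (fun a => x (p a)) N A = ptm x N (pmk p N A) := by
  ext v
  rw [mem_ptm, mem_ptm]
  constructor
  · rintro ⟨a, ha, h1, rfl⟩
    exact ⟨p a, hp a ha, (testBit_pmk p A _ N).2 ⟨a, ha, h1, rfl⟩, rfl⟩
  · rintro ⟨b, _, h1, rfl⟩
    obtain ⟨a, ha, h2, rfl⟩ := (testBit_pmk p A b N).1 h1
    exact ⟨a, ha, h2, rfl⟩

theorem pmk_lt {N : ℕ} {p : ℕ → ℕ} (hp : ∀ a < N, p a < N) (A : ℕ) : pmk p N A < 2 ^ N := by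
  apply Nat.lt_pow_two_of_testBit
  intro b hb
  by_contra h
  rw [Bool.not_eq_false, testBit_pmk] at h
  obtain ⟨a, ha, _, rfl⟩ := h
  exact absurd (hp a ha) (by omega)

theorem pmk_inj {N : ℕ} {p : ℕ → ℕ} (hi : ∀ a < N, ∀ b < N, p a = p b → a = b)
    {A A' : ℕ} (hA : A < 2 ^ N) (hA' : A' < 2 ^ N) (h : pmk p N A = pmk p N A') : A = A' := by
  refine mask_ext hA hA' fun a ha => ?_
  have h1 : (pmk p N A).testBit (p a) = true ↔ (pmk p N A').testBit (p a) = true := by rw [h]
  rw [testBit_pmk, testBit_pmk] at h1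
  constructor
  · intro h2
    obtain ⟨b, hb, h3, h4⟩ := h1.1 ⟨a, ha, h2, rfl⟩
    rwa [hi b hb a ha h4] at h3
  · intro h2
    obtain ⟨b, hb, h3, h4⟩ := h1.2 ⟨a, ha, h2, rfl⟩
    rwa [hi b hb a ha h4] at h3

theorem pmk_ne {N : ℕ} {p : ℕ → ℕ} {A : ℕ} (hA : A < 2 ^ N) (h0 : A ≠ 0) : pmk p N A ≠ 0 := by
  obtain ⟨a, ha⟩ := Nat.exists_testBit_of_ne_zero h0
  have haN : a < N := by
    by_contra hcon
    push Not at hcon
    have h2 : (2 : ℕ) ^ N ≤ 2 ^ a := Nat.pow_le_pow_right (by norm_num) hcon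
    rw [Nat.testBit_lt_two_pow (lt_of_lt_of_le hA h2)] at ha
    exact absurd ha (by simp)
  intro h1
  have h2 := (testBit_pmk p A (p a) N).2 ⟨a, haN, ha, rfl⟩
  rw [h1] at h2
  simp at h2

theorem Cf.permX {N r k : ℕ} {C : ℕ → Finset V} (h : Cf B Q N r x C k) {p : ℕ → ℕ}
    (hp : ∀ a < N, p a < N) (hi : ∀ a < N, ∀ b < N, p a = p b → a = b) :
    Cf B Q N r (fun a => x (p a)) C k where
  reg := h.reg
  tr3 := h.tr3
  inj := fun a ha b hb he => hi a ha b hb (h.inj _ (hp a ha) _ (hp b hb) he)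
  xQ := fun a ha => h.xQ _ (hp a ha)
  CQ := h.CQ
  xC := fun a ha j hj => h.xC _ (hp a ha) j hj
  all := by
    intro v hv
    rcases h.all v hv with ⟨a, ha, rfl⟩ | h1
    · obtain ⟨b, hb, rfl⟩ := exists_pre hp hi ha
      exact Or.inl ⟨b, hb, rfl⟩
    · exact Or.inr h1
  dis := h.dis
  sep := h.sep
  conn := h.conn
  crit := h.crit
  rho := h.rho

theorem CfK.permX (h : CfK B Q n x D i j) {p : ℕ → ℕ} (hp : ∀ a < 6 + n, p a < 6 + n)
    (hi : ∀ a < 6 + n, ∀ b < 6 + n, p a = p b → a = b)
    (h7 : (pmk p (6 + n) 7 = 7 ∧ pmk p (6 + n) 56 = 56) ∨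
      (pmk p (6 + n) 7 = 56 ∧ pmk p (6 + n) 56 = 7)) :
    ∃ i' j', CfK B Q n (fun a => x (p a)) D i' j' := by
  obtain ⟨Y, F, h1, h2, h3⟩ := h.kb
  have hY : ∀ v, v ∈ Y ↔ ∃ a < 6 + n, x (p a) = v := by
    intro v
    rw [h2]
    constructor
    · rintro ⟨a, ha, he⟩
      obtain ⟨b, hb, rfl⟩ := exists_pre hp hi ha
      exact ⟨b, hb, he⟩
    · rintro ⟨a, ha, he⟩
      exact ⟨p a, hp a ha, he⟩
  rcases h7 with ⟨h7, h56⟩ | ⟨h7, h56⟩
  · exact ⟨i, j, h.n2, h.cf.permX hp hi, h.ih, by rw [ptm_pmk p hp, h7, h.i7],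
      by rw [ptm_pmk p hp, h56, h.j56], h.ij, h.svC, h.kev, h.knn, Y, F, h1, hY, h3⟩
  · exact ⟨j, i, h.n2, h.cf.permX hp hi, h.ih, by rw [ptm_pmk p hp, h7, h.j56],
      by rw [ptm_pmk p hp, h56, h.i7], h.ij.symm, h.svC, h.kev, h.knn, Y, F, h1.swap, hY, h3⟩

/-- the counts under a permutation of the points. -/
theorem cnt_perm {N : ℕ} {p : ℕ → ℕ} (hp : ∀ a < N, p a < N)
    (hi : ∀ a < N, ∀ b < N, p a = p b → a = b) {L L' : List ℕ} (hL : ∀ A ∈ L', A < 2 ^ N)
    (hLL : L.Perm (L'.map (pmk p N)))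
    (h : ∀ A < 2 ^ N, A ≠ 0 → (ib B Q x N A).card = L.count A) :
    ∀ A < 2 ^ N, A ≠ 0 → (ib B Q (fun a => x (p a)) N A).card = L'.count A := by
  classical
  intro A hA hA0
  have h1 : ib B Q (fun a => x (p a)) N A = ib B Q x N (pmk p N A) := by
    ext k
    rw [mem_ib, mem_ib, ptm_pmk p hp]
  rw [h1, h _ (pmk_lt hp A) (pmk_ne hA hA0), hLL.count_eq, List.count, List.countP_map]
  rw [List.count]
  apply List.countP_congr
  intro A' hA'
  simp only [Function.comp, beq_iff_eq]
  constructor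
  · intro he
    exact pmk_inj hi (hL A' hA') hA he
  · rintro rfl
    rfl

/-- a permutation of the points, given as a list. -/
def okp (N : ℕ) (pl : List ℕ) : Bool :=
  (List.range N).all (fun a => decide (pl.getD a 0 < N)) &&
  (List.range N).all (fun a => (List.range N).all (fun b =>
    decide (a = b) || !(decide (pl.getD a 0 = pl.getD b 0)))) &&
  ((decide (pmk (fun a => pl.getD a 0) N 7 = 7) && decide (pmk (fun a => pl.getD a 0) N 56 = 56)) ||
    (decide (pmk (fun a => pl.getD a 0) N 7 = 56) && decide (pmk (fun a => pl.getD a 0) N 56 = 7)))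

/-- the list `R` is the image of the list `L`. -/
def okl (N : ℕ) (pl L R : List ℕ) : Bool :=
  okp N pl && R.all (fun A => decide (A < 2 ^ N)) &&
    (L.isPerm (R.map (pmk (fun a => pl.getD a 0) N)))

theorem CfI.permX {ub L : List ℕ} (h : CfI B Q n x D i j ub L) {pl R : List ℕ}
    (hok : okl (6 + n) pl L R = true) : ∃ x' i' j', CfI B Q n x' D i' j' ub R := by
  unfold okl okp at hok
  simp only [Bool.and_eq_true, List.all_eq_true, List.mem_range, decide_eq_true_eq,
    Bool.or_eq_true, Bool.not_eq_true', decide_eq_false_iff_not, List.isPerm_iff] at hok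
  obtain ⟨⟨⟨⟨hp, hi⟩, h7⟩, hR⟩, hLR⟩ := hok
  set p : ℕ → ℕ := fun a => pl.getD a 0 with hpd
  have hi' : ∀ a < 6 + n, ∀ b < 6 + n, p a = p b → a = b := by
    intro a ha b hb he
    rcases hi a ha b hb with h1 | h1
    · exact h1
    · exact absurd he h1
  obtain ⟨i', j', hK⟩ := h.toCfK.permX (p := p) hp hi' h7
  refine ⟨fun a => x (p a), i', j', hK, ?_, h.kle⟩
  have h64 : 64 ≤ 2 ^ (6 + n) := by
    calc 64 = 2 ^ 6 := by norm_num
      _ ≤ 2 ^ (6 + n) := Nat.pow_le_pow_right (by norm_num) (by omega)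
  refine cnt_perm (L := 7 :: 56 :: L) hp hi' ?_ ?_ h.cnt
  · intro A hA
    rw [List.mem_cons, List.mem_cons] at hA
    rcases hA with rfl | rfl | hA
    · omega
    · omega
    · exact hR A hA
  · rw [List.map_cons, List.map_cons]
    rcases h7 with ⟨h7, h56⟩ | ⟨h7, h56⟩
    · rw [h7, h56]
      exact (hLR.cons 56).cons 7
    · rw [h7, h56]
      exact ((hLR.cons 56).cons 7).trans (List.Perm.swap _ _ _)

end Pool.Agent.Hyp6
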