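import Pool.Agent.Hyp6.Cb2
import Pool.Agent.Hyp6.Cfg7

/-!
# HYP6 CB3: contradiction from the clauses of an instance

`CfI.ci`: an instance gives the numeric facts. `Nm.unsat`: if the clauses of the reasons and further true
clauses are refuted by `Rup.chk`, the facts are contradictory.
-/

set_option autoImplicit false

namespace Pool.Agent.Hyp6

open Finset Pool.Agent.Hyp5 Rup

universe u v

/-- all the literals are small and all the clauses short. -/
def okcB (cnf : List (List ℕ)) : Bool :=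
  cnf.all (fun c => Nat.ble c.length 100000 && c.all (fun l => Nat.blt (l + 2) 65536))

theorem okc_of {cnf : List (List ℕ)} (h : okcB cnf = true) : Okc cnf := by
  unfold okcB at h
  simp only [List.all_eq_true, Bool.and_eq_true, Nat.blt_eq] at h
  exact fun c hc => ⟨Nat.le_of_ble_eq_true (h c hc).1, (h c hc).2⟩

/-- all the clauses of the base reasons. -/
def cls (r : ℕ) (base : List Rs) : List (List ℕ) := base.map (fun q => q.cl r)

/-- **contradiction from a refutation of the clauses.** -/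
theorem Nm.unsat {N r : ℕ} {ins sl sn : List ℕ} {so : List (ℕ × ℕ × ℕ × ℕ)}
    {ec lc rr : ℕ → ℕ → ℕ}
    (h : Nm N r ins ec lc rr) (h' : Nt N r sl sn ec lc) (hs : Srt so ec) (base : List Rs)
    (hb : base.all (fun q => q.ok N r ins sl sn so) = true) (gc : List (List ℕ))
    (hg : ∀ c ∈ gc, Sat (Vl ec lc rr) c) (db : Tr) (prf : List ℕ)
    (hne : base ≠ []) (hok : okcB (cls r base ++ gc) = true)
    (hc : chk (cls r base ++ gc) db prf = true) : False := by
  obtain ⟨c, hc1, hc2⟩ := Rup.unsat hc (okc_of hok) (by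
    unfold cls
    intro h1
    rw [List.append_eq_nil_iff, List.map_eq_nil_iff] at h1
    exact hne h1.1) (Vl ec lc rr)
  apply hc2
  rw [List.mem_append] at hc1
  rcases hc1 with hc1 | hc1
  · unfold cls at hc1
    obtain ⟨q, hq, rfl⟩ := List.mem_map.1 hc1
    exact Rs.sound h h' hs q (List.all_eq_true.1 hb q hq)
  · exact hg c hc1

variable {V : Type v} [DecidableEq V] {ι : Type u} [Fintype ι] {B : ι → Finset V}
variable {Q : Finset V} {i j : ι} {n : ℕ} {x : ℕ → V} {D : ℕ → Finset V} {ub ins : List ℕ}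

theorem seven_bit {a : ℕ} : (7).testBit a = true ↔ a < 3 := by
  constructor
  · intro h
    by_contra hcon
    push Not at hcon
    have h1 : (7 : ℕ) < 2 ^ a := lt_of_lt_of_le (by norm_num : (7 : ℕ) < 2 ^ 3)
      (Nat.pow_le_pow_right (by norm_num) hcon)
    rw [Nat.testBit_lt_two_pow h1] at h
    exact absurd h (by simp)
  · intro h
    interval_cases a <;> rfl

theorem CfI.hallB (h : CfI B Q n x D i j ub ins) (S A : List ℕ) (hS : S.Nodup) (hA : A.Nodup)
    (hne : S ≠ []) (hSr : ∀ s ∈ S, s < 2 + n) (hAN : ∀ a ∈ A, a < 6 + n)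
    (hT : (∀ a ∈ A, (7).testBit a = false) ∨ ∀ a ∈ A, (56).testBit a = false)
    (hle : 6 + n ≤ S.length + A.length + 3) :
    ∃ s ∈ S, ∃ a ∈ A, 1 ≤ ecB B x (6 + n) D s (2 ^ a) := by
  classical
  have hcS : S.toFinset.card = S.length := List.toFinset_card_of_nodup hS
  have hcA : A.toFinset.card = A.length := List.toFinset_card_of_nodup hA
  have hneS : S.toFinset.Nonempty := by
    rw [← card_pos, hcS]
    exact List.length_pos_of_ne_nil hne
  have hfin : (∃ s ∈ S.toFinset, ∃ a ∈ A.toFinset, (Ez B (D s) (x a)).Nonempty) →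
      ∃ s ∈ S, ∃ a ∈ A, 1 ≤ ecB B x (6 + n) D s (2 ^ a) := by
    rintro ⟨s, hs, a, ha, k, hk⟩
    rw [List.mem_toFinset] at hs ha
    refine ⟨s, hs, a, ha, ?_⟩
    rw [mem_Ez] at hk
    exact card_pos.2 ⟨k, (mem_cxs_bit (hAN a ha)).2 ⟨hk.2, hk.1⟩⟩
  apply hfin
  rcases hT with hT | hT
  · refine h.hall (fun s hs => hSr s (List.mem_toFinset.1 hs)) hneS
      (fun a ha => hAN a (List.mem_toFinset.1 ha)) ?_ (by omega)
    intro a ha hxa
    rw [List.mem_toFinset] at ha
    have h1 : x a ∈ ptm x (6 + n) 7 := by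
      rw [← h.i7]
      exact mem_inter.2 ⟨hxa, h.cf.xQ a (hAN a ha)⟩
    rw [h.cf.mem_pt (hAN a ha), hT a ha] at h1
    exact absurd h1 (by simp)
  · refine h.hall2 (fun s hs => hSr s (List.mem_toFinset.1 hs)) hneS
      (fun a ha => hAN a (List.mem_toFinset.1 ha)) ?_ (by omega)
    intro a ha hxa
    rw [List.mem_toFinset] at ha
    have h1 : x a ∈ ptm x (6 + n) 56 := by
      rw [← h.j56]
      exact mem_inter.2 ⟨hxa, h.cf.xQ a (hAN a ha)⟩
    rw [h.cf.mem_pt (hAN a ha), hT a ha] at h1
    exact absurd h1 (by simp)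

/-- an instance is a configuration with a list of inner blocks. -/
theorem CfI.ci (h : CfI B Q n x D i j ub ins) (hins : ∀ A ∈ ins, A < 2 ^ (6 + n)) :
    Ci B Q (6 + n) (2 + n) x D (7 :: 56 :: ins) where
  cf := h.cf
  N8 := by have := h.n2; omega
  r4 := by have := h.n2; omega
  N6 := by omega
  i7 := by simp
  i56 := by simp
  insN := by
    have h64 : 64 ≤ 2 ^ (6 + n) := by
      calc 64 = 2 ^ 6 := by norm_num
        _ ≤ 2 ^ (6 + n) := Nat.pow_le_pow_right (by norm_num) (by omega)
    intro A hA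
    simp only [List.mem_cons] at hA
    rcases hA with rfl | rfl | hA
    · omega
    · omega
    · exact hins A hA
  cnt := h.cnt
  hall := h.hallB

end Pool.Agent.Hyp6
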