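import Pool.Agent.Hyp6.Rup

/-!
# HYP6 CNM: refutations with compact variable numbers

The formula is given with compact variable numbers, `nm` is the tree of the names of the variables:
`cmpR nm cnf cs` checks that renaming turns `cnf` into `cs`.
-/

set_option autoImplicit false

namespace Pool.Agent.Hyp6.Rup

/-- the literal with the name of its variable. -/
noncomputable def rnl (nm : Tr) (l : ℕ) : ℕ := Nat.add (Nat.mul 2 (nm.get (Nat.div l 2))) (Nat.mod l 2)

/-- compare two clauses up to renaming. -/
noncomputable def cmpC (nm : Tr) (c : List ℕ) : List ℕ → Bool :=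
  List.rec (fun d => List.rec true (fun _ _ _ => false) d)
    (fun l _ ih d => List.rec false (fun x d' _ =>
      Bool.rec false (ih d') (Nat.beq (rnl nm l) x)) d) c

/-- compare two formulas up to renaming. -/
noncomputable def cmpR (nm : Tr) (s : List (List ℕ)) : List (List ℕ) → Bool :=
  List.rec (fun d => List.rec true (fun _ _ _ => false) d)
    (fun c _ ih d => List.rec false (fun x d' _ =>
      Bool.rec false (ih d') (cmpC nm c x)) d) s

theorem cmpC_eq {nm : Tr} : ∀ (c d : List ℕ), cmpC nm c d = true → d = c.map (rnl nm) := by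
  intro c
  induction c with
  | nil =>
    intro d h
    cases d with
    | nil => rfl
    | cons x d => exact absurd h (by simp [cmpC])
  | cons l c ih =>
    intro d h
    cases d with
    | nil => exact absurd h (by simp [cmpC])
    | cons x d =>
      have h0 : cmpC nm (l :: c) (x :: d) = Bool.rec false (cmpC nm c d) (Nat.beq (rnl nm l) x) := rfl
      rw [h0] at h
      rcases h1 : Nat.beq (rnl nm l) x with _ | _
      · rw [h1] at h
        exact absurd h (by simp)
      · rw [h1] at h
        rw [List.map_cons, ih d h, Nat.eq_of_beq_eq_true h1]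

theorem cmpR_eq {nm : Tr} : ∀ (s d : List (List ℕ)), cmpR nm s d = true →
    d = s.map (fun c => c.map (rnl nm)) := by
  intro s
  induction s with
  | nil =>
    intro d h
    cases d with
    | nil => rfl
    | cons x d => exact absurd h (by simp [cmpR])
  | cons c s ih =>
    intro d h
    cases d with
    | nil => exact absurd h (by simp [cmpR])
    | cons x d =>
      have h0 : cmpR nm (c :: s) (x :: d) = Bool.rec false (cmpR nm s d) (cmpC nm c x) := rfl
      rw [h0] at h
      rcases h1 : cmpC nm c x with _ | _
      · rw [h1] at h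
        exact absurd h (by simp)
      · rw [h1] at h
        rw [List.map_cons, ih d h, cmpC_eq c x h1]

theorem lit_rnl {nm : Tr} {f : ℕ → Bool} {l : ℕ} :
    Lit f (rnl nm l) ↔ Lit (fun i => f (nm.get i)) l := by
  have h0 : rnl nm l = 2 * nm.get (l / 2) + l % 2 := rfl
  unfold Lit
  have h1 : rnl nm l / 2 = nm.get (l / 2) := by rw [h0]; omega
  have h2 : rnl nm l % 2 = l % 2 := by rw [h0]; omega
  rw [h1, h2]

theorem sat_rnl {nm : Tr} {f : ℕ → Bool} {c : List ℕ} :
    Sat f (c.map (rnl nm)) ↔ Sat (fun i => f (nm.get i)) c := by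
  unfold Sat
  constructor
  · rintro ⟨l, hl, h⟩
    obtain ⟨l', hl', rfl⟩ := List.mem_map.1 hl
    exact ⟨l', hl', lit_rnl.1 h⟩
  · rintro ⟨l, hl, h⟩
    exact ⟨rnl nm l, List.mem_map.2 ⟨l, hl, rfl⟩, lit_rnl.2 h⟩

/-- all the literals are small and all the clauses short. -/
noncomputable def okcC (c : List ℕ) : ℕ → Bool :=
  List.rec (fun _ => true) (fun l _ ih k => Nat.rec false (fun k' _ =>
    Bool.rec false (ih k') (Nat.ble l 65533)) k) c

/-- all the literals are small and all the clauses short. -/
noncomputable def okcR (s : List (List ℕ)) : Bool :=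
  List.rec true (fun c _ ih => Bool.rec false ih (okcC c 100000)) s

theorem okcC_ok : ∀ (c : List ℕ) (k : ℕ), okcC c k = true →
    c.length ≤ k ∧ ∀ x ∈ c, x + 2 < 65536 := by
  intro c
  induction c with
  | nil => intro k _; exact ⟨Nat.zero_le k, by simp⟩
  | cons l c ih =>
    intro k h
    cases k with
    | zero => exact absurd h (by simp [okcC])
    | succ k =>
      have h0 : okcC (l :: c) (k + 1) = Bool.rec false (okcC c k) (Nat.ble l 65533) := rfl
      rw [h0] at h
      rcases h1 : Nat.ble l 65533 with _ | _
      · rw [h1] at h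
        exact absurd h (by simp)
      · rw [h1] at h
        obtain ⟨h2, h3⟩ := ih k h
        have h4 := Nat.le_of_ble_eq_true h1
        refine ⟨by simpa using h2, ?_⟩
        intro x hx
        rcases List.mem_cons.1 hx with rfl | hx
        · omega
        · exact h3 x hx

theorem okcR_ok : ∀ (s : List (List ℕ)), okcR s = true → Okc s := by
  intro s
  induction s with
  | nil => intro _ c hc; simp at hc
  | cons c s ih =>
    intro h
    have h0 : okcR (c :: s) = Bool.rec false (okcR s) (okcC c 100000) := rfl
    rw [h0] at h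
    rcases h1 : okcC c 100000 with _ | _
    · rw [h1] at h
      exact absurd h (by simp)
    · rw [h1] at h
      intro d hd
      rcases List.mem_cons.1 hd with rfl | hd
      · exact okcC_ok _ _ h1
      · exact ih h d hd

/-- **refutation with compact variable numbers.** -/
theorem unsat_nm {cnf cs : List (List ℕ)} {nm db : Tr} {prf : List ℕ}
    (h : chk cnf db prf = true) (hok : okcR cnf = true) (hne : cnf ≠ [])
    (hcmp : cmpR nm cnf cs = true) (f : ℕ → Bool) : ∃ c ∈ cs, ¬ Sat f c := by
  obtain ⟨c, hc, hs⟩ := unsat h (okcR_ok _ hok) hne (fun i => f (nm.get i))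
  rw [cmpR_eq _ _ hcmp]
  exact ⟨c.map (rnl nm), List.mem_map.2 ⟨c, hc, rfl⟩, fun h1 => hs (sat_rnl.1 h1)⟩

end Pool.Agent.Hyp6.Rup
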