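import Pool.Agent.Hyp6.Cb3
import Pool.Agent.Hyp6.Cnm

/-!
# HYP6 CB4: contradiction from the clauses of an instance, compact variable numbers
-/

set_option autoImplicit false

namespace Pool.Agent.Hyp6

open Finset Rup

variable {N r : ℕ} {ins sl sn : List ℕ} {so : List (ℕ × ℕ × ℕ × ℕ)} {ec lc rr : ℕ → ℕ → ℕ}

/-- no bounds for the numbers of hits. -/
def big4 : List ℕ := [2000, 2000, 2000, 2000]

theorem big4_get {j : ℕ} (hj : j < 4) : big4.getD j 0 = 2000 := by
  unfold big4
  interval_cases j <;> rfl

/-- trivial bounds for the numbers of hits. -/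
theorem Nm.nt (h : Nm N r ins ec lc rr) : Nt N r big4 big4 ec lc where
  slot := by
    intro j hj
    rw [big4_get (h.j4 hj)]
    have h1 : ∑ a ∈ range N, ec j (2 ^ a) ≤ ∑ _a ∈ range N, 5 :=
      sum_le_sum fun a ha => h.le5 j hj a (mem_range.1 ha)
    rw [sum_const, card_range, smul_eq_mul] at h1
    have := h.N8
    omega
  shr := by
    intro j hj
    rw [big4_get (h.j4 hj)]
    have h1 : ∑ A ∈ (range (2 ^ N)).filter (fun A => pcn N A = 2), lc j A ≤
        ∑ _A ∈ (range (2 ^ N)).filter (fun A => pcn N A = 2), 5 := by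
      refine sum_le_sum fun A hA => ?_
      rw [mem_filter, mem_range] at hA
      have h2 : ∃ a < N, A.testBit a = true := by
        by_contra hcon
        push Not at hcon
        have h3 : pcn N A = 0 := by
          rw [pcn_eq, card_eq_zero, filter_eq_empty_iff]
          intro a ha
          exact hcon a (mem_range.1 ha)
        omega
      obtain ⟨a, ha, hAa⟩ := h2
      exact (h.lc_ec j hj A (2 ^ a) a ha hAa Nat.testBit_two_pow_self).trans (h.le5 j hj a ha)
    rw [sum_const, smul_eq_mul] at h1
    have h2 : ((range (2 ^ N)).filter (fun A => pcn N A = 2)).card ≤ 2 ^ N := by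
      refine (card_le_card (filter_subset _ _)).trans ?_
      rw [card_range]
    have h3 : 2 ^ N ≤ 256 := by
      calc 2 ^ N ≤ 2 ^ 8 := Nat.pow_le_pow_right (by norm_num) h.N8
        _ = 256 := by norm_num
    omega

theorem srt_nil : Srt [] ec := fun q hq => absurd hq (by simp)

/-- **contradiction from a refutation of the clauses, compact variable numbers.** -/
theorem Nm.unsat_nm (h : Nm N r ins ec lc rr) (h' : Nt N r sl sn ec lc) (hs : Srt so ec) (base : List Rs)
    (hb : base.all (fun q => q.ok N r ins sl sn so) = true) (gc : List (List ℕ))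
    (hg : ∀ c ∈ gc, Sat (Vl ec lc rr) c) {cnf : List (List ℕ)} {nm db : Tr} {prf : List ℕ}
    (hne : cnf ≠ []) (hcmp : cmpR nm cnf (cls r base ++ gc) = true) (hok : okcR cnf = true)
    (hc : chk cnf db prf = true) : False := by
  obtain ⟨c, hc1, hc2⟩ := Rup.unsat_nm hc hok hne hcmp (Vl ec lc rr)
  apply hc2
  rw [List.mem_append] at hc1
  rcases hc1 with hc1 | hc1
  · unfold cls at hc1
    obtain ⟨q, hq, rfl⟩ := List.mem_map.1 hc1
    exact Rs.sound h h' hs q (List.all_eq_true.1 hb q hq)
  · exact hg c hc1

end Pool.Agent.Hyp6
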