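import Pool.Agent.Hyp6.Cb4
import Pool.Agent.Hyp6.Cfg8

/-!
# HYP6 CB5: the check of an instance

`instB`: the complete check of an instance as one Boolean; `CfI.absurd`: if it is `true`, there is no
configuration of this instance.
-/

set_option autoImplicit false

namespace Pool.Agent.Hyp6

open Finset Pool.Agent.Hyp5 Rup

universe u v

/-- the check of an instance: `n` points outside the two full blocks, bounds `ub` for the values of the
components, further inner blocks `ins`, comparisons `so`; base reasons, gadgets; names of the compact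
variables, clauses, search tree, refutation. -/
noncomputable def instB (n : ℕ) (ub ins : List ℕ) (so : List (ℕ × ℕ × ℕ × ℕ)) (base : List Rs)
    (gads : List Gt) (nm : Tr) (cnf : List (List ℕ)) (db : Tr) (prf : List ℕ) : Bool :=
  base.all (fun q => q.ok (6 + n) (2 + n) (7 :: 56 :: ins) big4 big4 so) &&
  (gads.all (fun g => Nat.blt g.j (2 + n) && g.ok (6 + n) (ub.getD g.j 0)) &&
  (!(cnf.isEmpty) && (okcR cnf && (cmpR nm cnf (cls (2 + n) base ++ gads.map Gt.cl) &&
    chk cnf db prf))))

variable {V : Type v} [DecidableEq V] {ι : Type u} [Fintype ι] {B : ι → Finset V}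
variable {Q : Finset V} {i j : ι} {n : ℕ} {x : ℕ → V} {D : ℕ → Finset V} {ub ins : List ℕ}

/-- **a checked instance has no configuration**, the checks as separate hypotheses. -/
theorem CfI.absurd' (h : CfI B Q n x D i j ub ins) (hins : ∀ A ∈ ins, A < 2 ^ (6 + n))
    {so : List (ℕ × ℕ × ℕ × ℕ)} (hs : Srt so (ecB B x (6 + n) D)) {base : List Rs}
    {gads : List Gt} {nm db : Tr} {cnf : List (List ℕ)} {prf : List ℕ}
    (hbase : base.all (fun q => q.ok (6 + n) (2 + n) (7 :: 56 :: ins) big4 big4 so) = true)
    (hgads : gads.all (fun g => Nat.blt g.j (2 + n) && g.ok (6 + n) (ub.getD g.j 0)) = true)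
    (hne : cnf ≠ []) (hok : okcR cnf = true)
    (hcmp : cmpR nm cnf (cls (2 + n) base ++ gads.map Gt.cl) = true)
    (hchk : chk cnf db prf = true) : False := by
  have hci := h.ci hins
  have hnm := hci.nm
  have hn2 := h.n2
  refine hnm.unsat_nm hnm.nt hs base hbase (gads.map Gt.cl) ?_ hne hcmp hok hchk
  intro c hc
  obtain ⟨g, hg, rfl⟩ := List.mem_map.1 hc
  have h1 := List.all_eq_true.1 hgads g hg
  rw [Bool.and_eq_true, Nat.blt_eq] at h1
  refine Gt.sat h.cf h.ih (by omega) (by omega) (by omega) g h1.1 (kap := ub.getD g.j 0) ?_ h1.2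
    (fun J => le_rfl) (fun A => le_rfl) (fun J => (h.cf.rho_rr h1.1 J).le)
  have h2 := h.kle g.j h1.1
  unfold kpv at h2
  linarith

/-- **a checked instance has no configuration.** -/
theorem CfI.absurd (h : CfI B Q n x D i j ub ins) (hins : ∀ A ∈ ins, A < 2 ^ (6 + n))
    {so : List (ℕ × ℕ × ℕ × ℕ)} (hs : Srt so (ecB B x (6 + n) D)) {base : List Rs}
    {gads : List Gt} {nm db : Tr} {cnf : List (List ℕ)} {prf : List ℕ}
    (hb : instB n ub ins so base gads nm cnf db prf = true) : False := by
  unfold instB at hb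
  simp only [Bool.and_eq_true] at hb
  obtain ⟨hbase, hgads, hne, hok, hcmp, hchk⟩ := hb
  refine h.absurd' hins hs hbase hgads ?_ hok hcmp hchk
  rintro rfl
  simp at hne

end Pool.Agent.Hyp6
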