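import Pool.Agent.Hyp6.Cfg8

/-!
# HYP6 CFG9: gadgets at a component with nonnegative value

`Gt.exists_gx`: the geometric part of a gadget; `Gt.satP`: the clause for a component with `0 <= sv`,
with the bound in the form `Pv <= kap + 2 ee`.
-/

set_option autoImplicit false

namespace Pool.Agent.Hyp6

open Finset Pool.Agent.Hyp5 Rup

universe u v

/-- the geometric part of the check of a gadget. -/
def Gt.okg (N : ℕ) (g : Gt) : Bool :=
  Nat.ble g.gs.length N && Nat.ble 1 g.R && Nat.ble g.R 2 &&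
  g.gs.all (fun z => z.ok N) &&
  (List.range g.gs.length).all (fun z => (List.range g.gs.length).all (fun z' =>
    Nat.beq z z' || Nat.beq ((g.gs.getD z ⟨0, 0, []⟩).J &&& (g.gs.getD z' ⟨0, 0, []⟩).J) 0)) &&
  (List.range N).all (fun a => (List.range N).all (fun b => Nat.beq a b ||
    Nat.ble ((g.gs.map (fun z => bif z.uses (2 ^ a ||| 2 ^ b) then 1 else 0)).sum) 2)) &&
  (List.range g.gs.length).all (fun z => Nat.ble 1 (g.gs.getD z ⟨0, 0, []⟩).e &&
    Nat.beq ((g.gs.getD z ⟨0, 0, []⟩).e + cntd g.dum z) 5) &&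
  g.dum.all (fun m => Nat.ble 1 (pcn g.gs.length m) && Nat.ble (pcn g.gs.length m) 3) &&
  g.ref.all (fun q => Nat.blt q.1 256 && Nat.blt q.2 8) &&
  rfd g.ref g.R (trv2 (g.gs.map (fun z => z.opts N))) &&
  (Nat.beq g.R 1 || g.dum.all (fun c => rfd g.ref 1 (trv2 (g.unc N c))))

/-- the check of a gadget at a component with nonnegative value. -/
def Gt.okP (N kap : ℕ) (g : Gt) : Bool :=
  g.okg N &&
  ((Nat.ble (2 * g.R) g.gs.length &&
      (g.dum.any (fun m => Nat.ble (pcn g.gs.length m) 2) || Nat.ble 3 g.gs.length) &&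
      Nat.blt (kap + 5 * g.gs.length + 4 * g.dum.length) (24 * g.R)) ||
    (Nat.blt (kap + 5 * g.gs.length + 4 * g.dum.length + 2)
      (24 * g.R + 2 * z2n g.gs.length g.dum) ||
    (g.dum.any (fun m => Nat.ble (pcn g.gs.length m) 2) &&
    Nat.blt (kap + 5 * g.gs.length + 4 * g.dum.length + 1)
      (24 * g.R + 2 * z2n g.gs.length g.dum))))

variable {V : Type v} [DecidableEq V] {ι : Type u} [Fintype ι]

section sound

variable {B : ι → Finset V} {Q : Finset V} {N r : ℕ} {x : ℕ → V} {C : ℕ → Finset V} {k : ℕ}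

/-- **the geometric part of a gadget.** -/
theorem Gt.exists_gx (h : Cf B Q N r x C k) (hr2 : 2 ≤ r) (g : Gt)
    (hj : g.j < r) (hok : g.okg N = true)
    (hp1 : ∀ z ∈ g.gs, z.a ≤ (cxs B (C g.j) (ptm x N z.J)).card ∧
      ∀ q ∈ z.ps, q.2 ≤ (hb B x N (C g.j) q.1).card)
    (hp2 : ∀ q ∈ g.ref, rho B (C g.j) + q.2 ≤ rho B (C g.j ∪ ptm x N q.1)) :
    ∃ (E : Fin g.gs.length → Finset ι) (NN : Fin g.dum.length → Finset (Fin g.gs.length)),
      Gx B Q (C g.j) E NN g.R ∧ (C g.j).card + g.gs.length < Q.card ∧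
      (∃ Z2 : Finset (Fin g.gs.length), Z2.card = z2n g.gs.length g.dum ∧
        ∀ z ∈ Z2, 2 ≤ (univ.filter (fun c => NN c = {z})).card) ∧
      ((g.dum.any (fun m => Nat.ble (pcn g.gs.length m) 2)) = true → ∃ c, (NN c).card ≤ 2) := by
  classical
  unfold Gt.okg at hok
  simp only [Bool.and_eq_true, List.all_eq_true, List.mem_range, Nat.blt_eq, Nat.ble_eq] at hok
  obtain ⟨⟨⟨⟨⟨⟨⟨⟨⟨⟨hpN, hR1⟩, hR2⟩, hgok⟩, hdisj⟩, hcap⟩, hgr⟩, hdum⟩, _⟩, href⟩, href2⟩ := hok
  set p := g.gs.length with hp
  set d := g.dum.length with hd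
  set W := C g.j with hW
  have hWQ : W ⊆ Q := h.CQ g.j hj
  set G : ℕ → Gg := fun z => g.gs.getD z ⟨0, 0, []⟩ with hG
  have hGz : ∀ z < p, G z ∈ g.gs := by
    intro z hz
    show g.gs.getD z ⟨0, 0, []⟩ ∈ g.gs
    rw [List.getD_eq_getElem _ _ hz]
    exact List.getElem_mem hz
  have hGok : ∀ z < p, (((G z).J = 0 ∨ (G z).a ≠ 0) ∧ ((G z).ps.map Prod.fst).Nodup ∧
      ∀ q ∈ (G z).ps, q.1 < 2 ^ N ∧ q.1 &&& (G z).J = 0 ∧ 1 ≤ q.2 ∧ 2 ≤ pcn N q.1) := by
    intro z hz
    have h1 := hgok _ (hGz z hz)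
    unfold Gg.ok at h1
    simp only [Bool.and_eq_true, List.all_eq_true, Bool.or_eq_true, Nat.blt_eq, Nat.ble_eq,
      nbeq_iff, decide_eq_true_eq, Bool.not_eq_true'] at h1
    obtain ⟨⟨⟨⟨h2, _⟩, _⟩, h3⟩, h4⟩ := h1
    refine ⟨?_, h3, fun q hq => ?_⟩
    · rcases h2 with h2 | h2
      · left
        exact h2
      · right
        intro h5
        rw [h5] at h2
        simp at h2
    · have h5 := h4 q hq
      exact ⟨h5.1.1.1.1, h5.1.1.1.2, h5.1.1.2, h5.2⟩
  -- the hits
  have hE : ∀ z : Fin p, ∃ E : Finset ι, E.card = (G z).e ∧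
      ∀ i ∈ E, ((G z).a ≠ 0 ∧ i ∈ cxs B W (ptm x N (G z).J)) ∨
        ∃ q ∈ (G z).ps, i ∈ hb B x N W q.1 := by
    intro z
    obtain ⟨_, hnd, hps⟩ := hGok z z.2
    obtain ⟨ha, hq⟩ := hp1 _ (hGz z z.2)
    obtain ⟨E1, hE1, hE1c⟩ := exists_subset_card_eq ha
    obtain ⟨E2, hE2c, hE2⟩ := exists_hits (B := B) (x := x) (N := N) (W := W) (G z).ps hnd
      (fun q hq' => (hps q hq').1) hq
    have hdis : Disjoint E1 E2 := by
      rw [disjoint_left]
      intro i hi hi'
      obtain ⟨q, hq1, hiq⟩ := hE2 i hi'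
      obtain ⟨_, a, haN, haJ, hai⟩ := mem_cxs_ptm.1 (hE1 hi)
      have h1 := ((mem_hb.1 hiq).2 a haN).1 hai
      have h2 : (q.1 &&& (G z).J).testBit a = true := by
        rw [Nat.testBit_and, h1, haJ]
        rfl
      rw [(hps q hq1).2.1] at h2
      simp at h2
    refine ⟨E1 ∪ E2, ?_, ?_⟩
    · rw [card_union_of_disjoint hdis, hE1c, hE2c]
      rfl
    · intro i hi
      rcases mem_union.1 hi with hi | hi
      · left
        refine ⟨?_, hE1 hi⟩
        intro h0
        rw [h0, card_eq_zero] at hE1c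
        rw [hE1c] at hi
        exact absurd hi (notMem_empty _)
      · right
        exact hE2 i hi
  choose E hE1 hE2 using hE
  set NN : Fin d → Finset (Fin p) := fun c => univ.filter (fun z : Fin p =>
    (g.dum[c]).testBit z = true) with hNN
  have hEW : ∀ z, ∀ i ∈ E z, (B i ∩ W).Nonempty := by
    intro z i hi
    rcases hE2 z i hi with ⟨_, h1⟩ | ⟨q, _, h1⟩
    · exact (mem_cxs_ptm.1 h1).1
    · exact (mem_hb.1 h1).1
  have hcardQ : W.card + N < Q.card := by
    have hex : ∃ j' < r, j' ≠ g.j := by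
      rcases Nat.eq_zero_or_pos g.j with h0 | h0
      · exact ⟨1, by omega, by omega⟩
      · exact ⟨0, by omega, by omega⟩
    obtain ⟨j', hj', hne⟩ := hex
    have hX : (ptm x N (2 ^ N - 1)).card = N := by
      unfold ptm
      rw [card_image_of_injOn]
      · rw [filter_true_of_mem, card_range]
        intro a ha
        rw [mem_range] at ha
        rw [Nat.testBit_two_pow_sub_one]
        simpa using ha
      · intro a ha b hb he
        rw [mem_coe, mem_filter, mem_range] at ha hb
        exact h.inj a ha.1 b hb.1 he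
    have hsub : W ∪ (ptm x N (2 ^ N - 1) ∪ C j') ⊆ Q := by
      refine union_subset hWQ (union_subset ?_ (h.CQ j' hj'))
      intro v hv
      obtain ⟨a, ha, _, rfl⟩ := mem_ptm.1 hv
      exact h.xQ a ha
    have hd1 : Disjoint (ptm x N (2 ^ N - 1)) (C j') := by
      rw [disjoint_left]
      intro v hv hv'
      obtain ⟨a, ha, _, rfl⟩ := mem_ptm.1 hv
      exact h.xC a ha j' hj' hv'
    have hd2 : Disjoint W (ptm x N (2 ^ N - 1) ∪ C j') := by
      rw [disjoint_union_right]
      refine ⟨?_, h.dis g.j hj j' hj' (Ne.symm hne)⟩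
      rw [disjoint_left]
      intro v hv hv'
      obtain ⟨a, ha, _, rfl⟩ := mem_ptm.1 hv'
      exact h.xC a ha g.j hj hv
    have h1 := card_le_card hsub
    rw [card_union_of_disjoint hd2, card_union_of_disjoint hd1, hX] at h1
    have h2 : 1 ≤ (C j').card := card_pos.2 (h.conn j' hj').1
    omega
  -- capacity
  have hcapE : ∀ i, (univ.filter (fun z => i ∈ E z)).card ≤ (B i ∩ (Q \ W)).card := by
    intro i
    rcases (univ.filter (fun z => i ∈ E z)).eq_empty_or_nonempty with h0 | ⟨z0, hz0⟩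
    · rw [h0, card_empty]
      exact Nat.zero_le _
    rw [mem_filter] at hz0
    have hiW := hEW z0 i hz0.2
    set S := (range N).filter (fun a => x a ∈ B i) with hS
    have hSm : ∀ a, a ∈ S ↔ a < N ∧ x a ∈ B i := by
      intro a
      rw [hS, mem_filter, mem_range]
    have hSimg : S.image x ⊆ B i ∩ (Q \ W) := by
      intro v hv
      obtain ⟨a, ha, rfl⟩ := mem_image.1 hv
      obtain ⟨haN, hai⟩ := (hSm a).1 ha
      exact mem_inter.2 ⟨hai, mem_sdiff.2 ⟨h.xQ a haN, h.xC a haN g.j hj⟩⟩
    have hScard : S.card ≤ (B i ∩ (Q \ W)).card := by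
      have h1 := card_le_card hSimg
      rwa [card_image_of_injOn] at h1
      intro a ha b hb he
      exact h.inj a ((hSm a).1 ha).1 b ((hSm b).1 hb).1 he
    have hS2 : S.card ≤ 2 := by
      have h1 : (B i ∩ W).card + (B i ∩ (Q \ W)).card ≤ 3 := by
        rw [← card_union_of_disjoint]
        · refine (card_le_card ?_).trans (h.tr3 i)
          intro v hv
          rcases mem_union.1 hv with hv | hv
          · exact mem_inter.2 ⟨(mem_inter.1 hv).1, hWQ (mem_inter.1 hv).2⟩
          · exact mem_inter.2 ⟨(mem_inter.1 hv).1, (mem_sdiff.1 (mem_inter.1 hv).2).1⟩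
        · rw [disjoint_left]
          intro v hv hv'
          exact (mem_sdiff.1 (mem_inter.1 hv').2).2 (mem_inter.1 hv).2
      have h2 : 1 ≤ (B i ∩ W).card := card_pos.2 hiW
      omega
    -- every group through i meets S or contains the pair S
    have hmeet : ∀ z, i ∈ E z → ∃ a ∈ S, (G z).J.testBit a = true ∨
        ∃ q ∈ (G z).ps, q.1.testBit a = true ∧ i ∈ hb B x N W q.1 := by
      intro z hz
      rcases hE2 z i hz with ⟨_, h1⟩ | ⟨q, hq, h1⟩
      · obtain ⟨_, a, haN, haJ, hai⟩ := mem_cxs_ptm.1 h1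
        exact ⟨a, (hSm a).2 ⟨haN, hai⟩, Or.inl haJ⟩
      · have h2 := ((hGok z z.2).2.2 q hq).2.2.2
        have h3 : q.1 ≠ 0 := by
          intro h4
          rw [h4] at h2
          have : pcn N 0 = 0 := by
            unfold pcn
            simp
          omega
        obtain ⟨a, ha⟩ := Nat.exists_testBit_of_ne_zero h3
        have haN : a < N := by
          by_contra hcon
          push Not at hcon
          have h5 : (2 : ℕ) ^ N ≤ 2 ^ a := Nat.pow_le_pow_right (by norm_num) hcon
          rw [Nat.testBit_lt_two_pow (lt_of_lt_of_le ((hGok z z.2).2.2 q hq).1 h5)] at ha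
          exact absurd ha (by simp)
        exact ⟨a, (hSm a).2 ⟨haN, ((mem_hb.1 h1).2 a haN).2 ha⟩, Or.inr ⟨q, hq, ha, h1⟩⟩
    have hpair : ∀ z, i ∈ E z → ∀ q ∈ (G z).ps, i ∈ hb B x N W q.1 → 2 ≤ S.card := by
      intro z hz q hq h1
      refine ((hGok z z.2).2.2 q hq).2.2.2.trans ?_
      have h2 : pcn N q.1 = ((range N).filter (fun a => q.1.testBit a = true)).card := by
        unfold pcn
        rw [card_filter]
        rfl
      rw [h2]
      refine card_le_card fun a ha => ?_
      rw [mem_filter, mem_range] at ha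
      exact (hSm a).2 ⟨ha.1, ((mem_hb.1 h1).2 a ha.1).2 ha.2⟩
    have hS1 : 1 ≤ S.card := by
      obtain ⟨a, ha, _⟩ := hmeet z0 hz0.2
      exact card_pos.2 ⟨a, ha⟩
    refine le_trans ?_ hScard
    rcases (by omega : S.card = 1 ∨ S.card = 2) with hs | hs
    · obtain ⟨a, ha⟩ := card_eq_one.1 hs
      rw [hs, card_le_one]
      have hJa : ∀ z, i ∈ E z → (G z).J.testBit a = true := by
        intro z hz
        obtain ⟨b, hb', h1⟩ := hmeet z hz
        rw [ha, mem_singleton] at hb'
        subst hb'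
        rcases h1 with h1 | ⟨q, hq, _, h1⟩
        · exact h1
        · have := hpair z hz q hq h1
          omega
      intro z hz z' hz'
      rw [mem_filter] at hz hz'
      by_contra hne
      have h1 := hdisj z z.2 z' z'.2
      rw [Bool.or_eq_true, nbeq_iff, nbeq_iff] at h1
      rcases h1 with h1 | h1
      · exact hne (Fin.ext h1)
      · have h2 : ((G z).J &&& (G z').J).testBit a = true := by
          rw [Nat.testBit_and, hJa z hz.2, hJa z' hz'.2]
          rfl
        have h3 : (G z).J &&& (G z').J = 0 := h1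
        rw [h3] at h2
        simp at h2
    · obtain ⟨a, b, hab, hSab⟩ := card_eq_two.1 hs
      have haS : a ∈ S := by rw [hSab]; simp
      have hbS : b ∈ S := by rw [hSab]; simp
      have haN := ((hSm a).1 haS).1
      have hbN := ((hSm b).1 hbS).1
      have h1 := hcap a haN b hbN
      rw [Bool.or_eq_true, nbeq_iff, Nat.ble_eq] at h1
      rw [hs]
      refine le_trans ?_ (h1.resolve_left hab)
      have h2 : (g.gs.map (fun z => bif z.uses (2 ^ a ||| 2 ^ b) then 1 else 0)).sum =
          (univ.filter (fun z : Fin p => (G z).uses (2 ^ a ||| 2 ^ b) = true)).card := by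
        have h3 := card_filter_list g.gs (fun z => z.uses (2 ^ a ||| 2 ^ b) = true)
        rw [hp]
        have h4 : (univ.filter (fun z : Fin g.gs.length => (G z).uses (2 ^ a ||| 2 ^ b) = true)) =
            univ.filter (fun z : Fin g.gs.length => (g.gs[z]).uses (2 ^ a ||| 2 ^ b) = true) := by
          ext z
          simp only [mem_filter, mem_univ, true_and]
          have h5 : G z = g.gs[z] := by
            show g.gs.getD z ⟨0, 0, []⟩ = g.gs[z]
            exact List.getD_eq_getElem _ _ z.2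
          rw [h5]
        rw [h4, h3]
        congr 1
        refine List.map_congr_left fun z _ => ?_
        rcases z.uses (2 ^ a ||| 2 ^ b) <;> simp
      rw [h2]
      refine card_le_card fun z hz => ?_
      rw [mem_filter] at hz ⊢
      refine ⟨mem_univ _, ?_⟩
      obtain ⟨c, hc, h3⟩ := hmeet z hz.2
      unfold Gg.uses
      rw [Bool.or_eq_true]
      rcases h3 with h3 | ⟨q, hq, _, h3⟩
      · left
        have hc' : c = a ∨ c = b := by
          rw [hSab] at hc
          simpa using hc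
        have h4 : ((G z).J &&& (2 ^ a ||| 2 ^ b)).testBit c = true := by
          rw [Nat.testBit_and, h3, testBit_pair.2 hc']
          rfl
        have h5 : (G z).J &&& (2 ^ a ||| 2 ^ b) ≠ 0 := by
          intro h6
          rw [h6] at h4
          simp at h4
        rw [Bool.not_eq_true', ← Bool.not_eq_true]
        intro h6
        exact h5 (Nat.eq_of_beq_eq_true h6)
      · right
        rw [List.any_eq_true]
        refine ⟨q, hq, ?_⟩
        rw [nbeq_iff]
        refine Nat.eq_of_testBit_eq fun e => ?_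
        have hlt := ((hGok z z.2).2.2 q hq).1
        rw [Bool.eq_iff_iff]
        rw [testBit_pair]
        constructor
        · intro h4
          have heN : e < N := by
            by_contra hcon
            push Not at hcon
            have h5 : (2 : ℕ) ^ N ≤ 2 ^ e := Nat.pow_le_pow_right (by norm_num) hcon
            rw [Nat.testBit_lt_two_pow (lt_of_lt_of_le hlt h5)] at h4
            exact absurd h4 (by simp)
          have h5 : e ∈ S := (hSm e).2 ⟨heN, ((mem_hb.1 h3).2 e heN).2 h4⟩
          rw [hSab] at h5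
          simpa using h5
        · rintro (rfl | rfl)
          · exact ((mem_hb.1 h3).2 _ haN).1 ((hSm _).1 haS).2
          · exact ((mem_hb.1 h3).2 _ hbN).1 ((hSm _).1 hbS).2
  have hoptz : ∀ (z : Fin p) (i : ι), i ∈ E z → ∃ b ∈ (G z).opts N,
      ptm x N b ⊆ B i ∩ (Q \ W) := by
    intro z i hi
    rcases hE2 z i hi with ⟨ha0, h1⟩ | ⟨q, hq, h1⟩
    · obtain ⟨_, a, haN, haJ, hai⟩ := mem_cxs_ptm.1 h1
      refine ⟨2 ^ a, ?_, ?_⟩
      · unfold Gg.opts
        rw [List.mem_append]
        left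
        have h2 : Nat.beq (G z).a 0 = false := by
          rw [← Bool.not_eq_true]
          intro h3
          exact ha0 (Nat.eq_of_beq_eq_true h3)
        rw [h2]
        exact List.mem_map.2 ⟨a, mem_bts.2 ⟨haN, haJ⟩, rfl⟩
      · rw [ptm_bit haN, singleton_subset_iff]
        exact mem_inter.2 ⟨hai, mem_sdiff.2 ⟨h.xQ a haN, h.xC a haN g.j hj⟩⟩
    · refine ⟨q.1, ?_, ?_⟩
      · unfold Gg.opts
        rw [List.mem_append]
        right
        exact List.mem_map.2 ⟨q, hq, rfl⟩
      · intro v hv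
        obtain ⟨a, haN, haq, rfl⟩ := mem_ptm.1 hv
        exact mem_inter.2 ⟨((mem_hb.1 h1).2 a haN).2 haq,
          mem_sdiff.2 ⟨h.xQ a haN, h.xC a haN g.j hj⟩⟩
  have hGx : Gx B Q W E NN g.R := by
    refine ⟨hWQ, ?_, hEW, ?_, ?_, ?_, ?_, ?_, ?_⟩
    · omega
    · intro i
      convert hcapE i using 2
    · intro z
      rw [← card_pos, hE1]
      exact (hgr z z.2).1
    · intro z
      have h1 := (hgr z z.2).2
      rw [nbeq_iff] at h1
      rw [hE1]
      have h2 : (univ.filter (fun c => z ∈ NN c)).card = cntd g.dum z := by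
        have h3 := card_filter_list g.dum (fun m => m.testBit z = true)
        unfold cntd
        rw [← h3]
        congr 1
        ext c
        simp only [mem_filter, mem_univ, true_and, hNN]
      rw [h2]
      exact h1
    · intro c
      have h1 := hdum g.dum[c] (List.getElem_mem _)
      have h2 := card_filter_range p (fun z => (g.dum[c]).testBit z = true)
      rw [← card_pos]
      have h3 : (NN c).card = pcn p g.dum[c] := h2
      rw [h3]
      exact h1.1
    · intro c
      have h1 := hdum g.dum[c] (List.getElem_mem _)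
      have h2 := card_filter_range p (fun z => (g.dum[c]).testBit z = true)
      have h3 : (NN c).card = pcn p g.dum[c] := h2
      rw [h3]
      exact h1.2
    · intro K f hf
      set S := (univ.filter (fun z => ∀ c ∈ K, z ∉ NN c)).biUnion
        (fun z => B (f z) ∩ (Q \ W)) with hS
      have hsub : S ⊆ Q := by
        intro v hv
        obtain ⟨z, _, hvz⟩ := mem_biUnion.1 hv
        exact (mem_sdiff.1 (mem_inter.1 hvz).2).1
      have hcovf : Cov B (W ∪ S) :=
        (cov_of_reg h.reg).mono (union_subset hWQ hsub)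
      have hmono : rho B W ≤ rho B (W ∪ S) := rho_mono subset_union_left hcovf
      have hlev : ∀ (l : ℕ) (M : ℕ), ptm x N M ⊆ S →
          (∃ q ∈ g.ref, q.1 &&& M = q.1 ∧ l ≤ q.2) → rho B W + l ≤ rho B (W ∪ S) := by
        rintro l M hMS ⟨q, hq, hqM, hlq⟩
        have h1 := hp2 q hq
        have h2 : W ∪ ptm x N q.1 ⊆ W ∪ S := by
          refine union_subset_union_right ((ptm_mono fun a _ ha => ?_).trans hMS)
          have h3 : (q.1 &&& M).testBit a = true := by rw [hqM]; exact ha
          rw [Nat.testBit_and, Bool.and_eq_true] at h3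
          exact h3.2
        have h3 := rho_mono h2 hcovf
        omega
      rcases lt_or_ge K.card g.R with hK | hK
      swap
      · omega
      rcases Nat.eq_zero_or_pos K.card with hK0 | hK0
      · rw [card_eq_zero] at hK0
        subst hK0
        obtain ⟨M, hM, hMS⟩ := exists_trv2 (x := x) (N := N) (S := S)
          (g.gs.map (fun z => z.opts N)) (by
            intro o ho
            obtain ⟨z, hz, rfl⟩ := List.mem_map.1 ho
            obtain ⟨t, ht, rfl⟩ := List.mem_iff_getElem.1 hz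
            have h1 : G t = g.gs[t] := List.getD_eq_getElem _ _ ht
            obtain ⟨b, hb1, hb2⟩ := hoptz ⟨t, ht⟩ (f ⟨t, ht⟩) (hf ⟨t, ht⟩ (by simp))
            refine ⟨b, ?_, ?_⟩
            · rw [← h1]
              exact hb1
            · intro v hv
              exact mem_biUnion.2 ⟨⟨t, ht⟩, by simp, hb2 hv⟩)
        have h1 := hlev g.R M hMS (rfd_spec href hM)
        rw [card_empty]
        omega
      · have hR : g.R = 2 := by omega
        have hK1 : K.card = 1 := by omega
        obtain ⟨c, rfl⟩ := card_eq_one.1 hK1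
        have h0 : ∀ c' ∈ g.dum, rfd g.ref 1 (trv2 (g.unc N c')) = true := by
          rw [Bool.or_eq_true, nbeq_iff, List.all_eq_true] at href2
          rcases href2 with h1 | h1
          · omega
          · exact h1
        obtain ⟨M, hM, hMS⟩ := exists_trv2 (x := x) (N := N) (S := S)
          (g.unc N g.dum[c]) (by
            intro o ho
            unfold Gt.unc at ho
            obtain ⟨t, ht, rfl⟩ := List.mem_map.1 ho
            rw [List.mem_filter, List.mem_range, Bool.not_eq_true'] at ht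
            have hzc : ∀ c' ∈ ({c} : Finset (Fin d)), (⟨t, ht.1⟩ : Fin p) ∉ NN c' := by
              intro c' hc'
              rw [mem_singleton] at hc'
              subst hc'
              rw [hNN]
              simp only [mem_filter, mem_univ, true_and]
              rw [ht.2]
              simp
            obtain ⟨b, hb1, hb2⟩ := hoptz ⟨t, ht.1⟩ (f ⟨t, ht.1⟩) (hf ⟨t, ht.1⟩ hzc)
            refine ⟨b, hb1, ?_⟩
            intro v hv
            exact mem_biUnion.2 ⟨⟨t, ht.1⟩, mem_filter.2 ⟨mem_univ _, hzc⟩, hb2 hv⟩)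
        have h1 := hlev 1 M hMS (rfd_spec (h0 _ (List.getElem_mem _)) hM)
        rw [card_singleton]
        omega
  have hWc : Conn (Pool.Agent.Hyp5.gr B) W := h.conn g.j hj
  set Z2 : Finset (Fin p) := univ.filter (fun z => 2 ≤ cnt1 g.dum z) with hZ2
  have hZ2c : Z2.card = z2n p g.dum := card_filter_range p (fun z => 2 ≤ cnt1 g.dum z)
  have hcardp : W.card + p < Q.card := by omega
  -- single new blocks: masks may have irrelevant bits, so compare traces
  have hZ2' : ∀ z ∈ Z2, 2 ≤ (univ.filter (fun c => NN c = {z})).card := by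
    intro z hz
    rw [hZ2, mem_filter] at hz
    refine hz.2.trans ?_
    unfold cnt1
    rw [← card_filter_list g.dum (fun m => m = 2 ^ (z : ℕ))]
    refine card_le_card fun c hc => ?_
    rw [mem_filter] at hc ⊢
    refine ⟨mem_univ _, ?_⟩
    ext z'
    rw [hNN]
    simp only [mem_filter, mem_univ, true_and, mem_singleton]
    have h1 : g.dum[c] = 2 ^ (z : ℕ) := hc.2
    rw [h1]
    constructor
    · intro h2
      by_contra hne
      rw [Nat.testBit_two_pow_of_ne (fun he => hne (Fin.ext he.symm))] at h2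
      exact absurd h2 (by simp)
    · rintro rfl
      exact Nat.testBit_two_pow_self
  refine ⟨E, NN, hGx, hcardp, ⟨Z2, hZ2c, hZ2'⟩, ?_⟩
  intro hin
  rw [List.any_eq_true] at hin
  obtain ⟨m, hm, hm2⟩ := hin
  rw [Nat.ble_eq] at hm2
  obtain ⟨c, hc, rfl⟩ := List.mem_iff_getElem.1 hm
  refine ⟨⟨c, hc⟩, ?_⟩
  have h2 := card_filter_range p (fun z => (g.dum[c]).testBit z = true)
  have h3 : (NN ⟨c, hc⟩).card = pcn p g.dum[c] := h2
  rw [h3]
  exact hm2

/-- the premises of a gadget do not all hold, nonnegative value. -/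
theorem Gt.coreP (h : Cf B Q N r x C k) (ih : IHE.{u} V Q.card) (ihq : IHQ.{u} V Q.card)
    (hr2 : 2 ≤ r) (g : Gt) (hj : g.j < r) (hsv : 0 ≤ sv B (C g.j)) {kap : ℕ}
    (hkap : Pv B (C g.j) ≤ kap + 2 * (ee B Q (C g.j) : ℤ)) (hke : ee B Q (C g.j) = 0)
    (hok : g.okP N kap = true)
    (hp1 : ∀ z ∈ g.gs, z.a ≤ (cxs B (C g.j) (ptm x N z.J)).card ∧
      ∀ q ∈ z.ps, q.2 ≤ (hb B x N (C g.j) q.1).card)
    (hp2 : ∀ q ∈ g.ref, rho B (C g.j) + q.2 ≤ rho B (C g.j ∪ ptm x N q.1)) : False := by
  unfold Gt.okP at hok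
  rw [Bool.and_eq_true] at hok
  obtain ⟨hokg, hin⟩ := hok
  obtain ⟨E, NN, hGx, hcard, ⟨Z2, hZ2c, hZ2⟩, hsm⟩ := Gt.exists_gx h hr2 g hj hokg hp1 hp2
  have hWc : Conn (Pool.Agent.Hyp5.gr B) (C g.j) := h.conn g.j hj
  rw [hke] at hkap
  have hweak := hGx.main0 ih hcard h.reg h.tr3 hWc hZ2
  rw [hZ2c, hke] at hweak
  rw [Bool.or_eq_true, Bool.or_eq_true] at hin
  rcases hin with hin | hin | hin
  · rw [Bool.and_eq_true, Bool.and_eq_true, Nat.blt_eq, Nat.ble_eq, Bool.or_eq_true,
      Nat.ble_eq] at hin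
    obtain ⟨⟨hp, hsd⟩, hin⟩ := hin
    have hK : (∃ c, (NN c).card ≤ 2) ∨ (C g.j).card + g.gs.length ≠ 6 := by
      rcases hsd with hsd | hsd
      · exact Or.inl (hsm hsd)
      · right
        intro h6
        have hne := hWc.1
        have hcov : Cov B (C g.j) := (cov_of_reg h.reg).mono (h.CQ g.j hj)
        have h1 := rho_pos hcov hne
        have h2 : ((C g.j).card : ℤ) - 2 * (rho B (C g.j) : ℤ) ≥ 0 := hsv
        have h3 : rho B (C g.j) = 1 := by omega
        obtain ⟨v, hv⟩ := hne
        have h4 := h.crit g.j hj v hv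
        have h5 : 0 < ((C g.j).erase v).card := by
          rw [card_erase_of_mem hv]
          omega
        have h7 := rho_pos (hcov.mono (erase_subset v (C g.j))) (card_pos.1 h5)
        omega
    have h1 := (hGx.main ih hcard h.reg h.tr3 hWc hK hZ2).2.2 ihq (by
      have h2 : (2 * g.R : ℤ) ≤ g.gs.length := by exact_mod_cast hp
      linarith)
    have h2 : ((kap + 5 * g.gs.length + 4 * g.dum.length : ℕ) : ℤ) < ((24 * g.R : ℕ) : ℤ) := by
      exact_mod_cast hin
    push_cast at h2 hkap
    linarith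
  · rw [Nat.blt_eq] at hin
    have h2 : ((kap + 5 * g.gs.length + 4 * g.dum.length + 2 : ℕ) : ℤ) <
        ((24 * g.R + 2 * z2n g.gs.length g.dum : ℕ) : ℤ) := by
      exact_mod_cast hin
    push_cast at h2 hweak hkap
    linarith
  · rw [Bool.and_eq_true, Nat.blt_eq] at hin
    obtain ⟨hs, hin⟩ := hin
    have hK : (∃ c, (NN c).card ≤ 2) ∨ (C g.j).card + g.gs.length ≠ 6 := Or.inl (hsm hs)
    have hstr := (hGx.main ih hcard h.reg h.tr3 hWc hK hZ2).1
    rw [hZ2c, hke] at hstr
    have h2 : ((kap + 5 * g.gs.length + 4 * g.dum.length + 1 : ℕ) : ℤ) <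
        ((24 * g.R + 2 * z2n g.gs.length g.dum : ℕ) : ℤ) := by
      exact_mod_cast hin
    push_cast at h2 hstr hkap
    linarith

/-- **soundness of the clause of a gadget at a component with nonnegative value.** -/
theorem Gt.satP (h : Cf B Q N r x C k) (ih : IHE.{u} V Q.card) (ihq : IHQ.{u} V Q.card)
    (hr2 : 2 ≤ r) (hr4 : r ≤ 4) (hN : N ≤ 8) (g : Gt) (hj : g.j < r)
    (hsv : 0 ≤ sv B (C g.j)) {kap : ℕ} (hkap : Pv B (C g.j) ≤ kap)
    (hke : ee B Q (C g.j) = 0) (hok : g.okP N kap = true)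
    {ec lc rr : ℕ → ℕ → ℕ} (hec : ∀ J, ec g.j J ≤ (cxs B (C g.j) (ptm x N J)).card)
    (hlc : ∀ A, lc g.j A ≤ (hb B x N (C g.j) A).card)
    (hrr : ∀ J, rho B (C g.j) + rr g.j J ≤ rho B (C g.j ∪ ptm x N J)) :
    Sat (Vl ec lc rr) g.cl := by
  apply sat_of
  intro hf
  have hj4 : g.j < 4 := lt_of_lt_of_le hj hr4
  have hok' := hok
  unfold Gt.okP at hok'
  rw [Bool.and_eq_true] at hok'
  have hok2 := hok'.1
  unfold Gt.okg at hok2
  simp only [Bool.and_eq_true, List.all_eq_true, List.mem_range, Nat.blt_eq, Nat.ble_eq] at hok2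
  obtain ⟨⟨⟨⟨⟨⟨⟨⟨⟨⟨_, _⟩, _⟩, hgok⟩, _⟩, _⟩, _⟩, _⟩, hrf⟩, _⟩, _⟩ := hok2
  refine Gt.coreP h ih ihq hr2 g hj hsv (kap := kap) ?_ hke hok ?_ ?_
  · rw [hke]
    push_cast
    linarith
  · intro z hz
    have h1 := hgok z hz
    unfold Gg.ok at h1
    simp only [Bool.and_eq_true, List.all_eq_true, Bool.or_eq_true, Nat.blt_eq, Nat.ble_eq,
      nbeq_iff, decide_eq_true_eq, Bool.not_eq_true'] at h1
    obtain ⟨⟨⟨⟨_, hJ⟩, ha⟩, _⟩, h4⟩ := h1
    constructor
    · rcases Nat.eq_zero_or_pos z.a with h0 | h0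
      · omega
      · have h5 := hf (2 * vE g.j z.J z.a + 1) (by
          unfold Gt.cl
          rw [List.mem_append, List.mem_flatMap]
          left
          refine ⟨z, hz, ?_⟩
          rw [List.mem_append]
          left
          have h6 : Nat.beq z.a 0 = false := by
            rw [← Bool.not_eq_true, nbeq_iff]
            omega
          rw [h6]
          simp)
        rw [nE hj4 hJ ha, not_not] at h5
        exact h5.trans (hec z.J)
    · intro q hq
      have h5 := h4 q hq
      have h6 := hf (2 * vL g.j q.1 q.2 + 1) (by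
        unfold Gt.cl
        rw [List.mem_append, List.mem_flatMap]
        left
        refine ⟨z, hz, ?_⟩
        rw [List.mem_append]
        right
        exact List.mem_map.2 ⟨q, hq, rfl⟩)
      have h7 : q.1 < 256 := by
        refine lt_of_lt_of_le h5.1.1.1.1 ?_
        calc 2 ^ N ≤ 2 ^ 8 := Nat.pow_le_pow_right (by norm_num) hN
          _ = 256 := by norm_num
      rw [nL hj4 h7 h5.1.2, not_not] at h6
      exact h6.trans (hlc q.1)
  · intro q hq
    have h1 := hrf q hq
    have h2 := hf (2 * vR g.j q.1 q.2 + 1) (by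
      unfold Gt.cl
      rw [List.mem_append]
      right
      exact List.mem_map.2 ⟨q, hq, rfl⟩)
    rw [nR hj4 h1.1 h1.2, not_not] at h2
    have h3 := hrr q.1
    omega

end sound

end Pool.Agent.Hyp6
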