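import Pool.Agent.Hyp6.Cb5
import Pool.Agent.Hyp6.Cfg9

/-!
# HYP6 CB6: instances with components of any value

`CfM`: a configuration whose components have bounds for their values in one of two forms. `Ru`: base
reasons together with the upper bound for the degree. `CfM.absurd`: contradiction from the checks.
-/

set_option autoImplicit false

namespace Pool.Agent.Hyp6

open Finset Pool.Agent.Hyp5 Rup

universe u v

/-! ### the degree from above -/

/-- base reasons and the degree of a point from above. -/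
inductive Ru : Type
  | rs (q : Rs)
  | degU (a : ℕ) (l : List (ℕ × ℕ))

/-- the clause of a reason. -/
def Ru.cl (r : ℕ) : Ru → List ℕ
  | .rs q => q.cl r
  | .degU a l => l.map (fun p => 2 * vE p.1 (2 ^ a) p.2 + 1)

/-- the reason is correct. -/
def Ru.ok (N r : ℕ) (ins sl sn : List ℕ) (so : List (ℕ × ℕ × ℕ × ℕ)) : Ru → Bool
  | .rs q => q.ok N r ins sl sn so
  | .degU a l => Nat.blt a N && decide ((l.map Prod.fst).Nodup) &&
      l.all (fun p => Nat.blt p.1 r && Nat.blt p.2 8) &&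
      Nat.blt 5 ((l.map Prod.snd).sum + ina ins a)

/-- all the clauses of the reasons. -/
def clsu (r : ℕ) (base : List Ru) : List (List ℕ) := base.map (fun q => q.cl r)

section numbers

variable {N r : ℕ} {ins sl sn : List ℕ} {so : List (ℕ × ℕ × ℕ × ℕ)} {ec lc rr : ℕ → ℕ → ℕ}

theorem Ru.sound (h : Nm N r ins ec lc rr) (h' : Nt N r sl sn ec lc) (hs : Srt so ec)
    (hd : ∀ a < N, ∑ j ∈ range r, ec j (2 ^ a) + ina ins a ≤ 5) (q : Ru)
    (hok : q.ok N r ins sl sn so = true) : Sat (Vl ec lc rr) (q.cl r) := by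
  cases q with
  | rs q => exact Rs.sound h h' hs q hok
  | degU a l =>
    apply sat_of
    intro hf
    unfold Ru.ok at hok
    simp only [Bool.and_eq_true, Nat.blt_eq, List.all_eq_true, decide_eq_true_eq] at hok
    obtain ⟨⟨⟨ha, hnd⟩, hl⟩, hlt⟩ := hok
    have h1 := list_sum_le_range l (range r) (fun j => ec j (2 ^ a)) hnd
      (fun p hp => mem_range.2 (hl p hp).1) (fun p hp => by
        have := hf (2 * vE p.1 (2 ^ a) p.2 + 1) (by
          simp only [Ru.cl, List.mem_map]
          exact ⟨p, hp, rfl⟩)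
        rw [nE (h.j4 (hl p hp).1) (two_pow_lt ha h.N8) (hl p hp).2] at this
        show p.2 ≤ ec p.1 (2 ^ a)
        omega)
    have h2 := hd a ha
    omega

/-- **contradiction from a refutation of the clauses**, with the degree from above. -/
theorem Nm.unsat_u (h : Nm N r ins ec lc rr) (h' : Nt N r sl sn ec lc) (hs : Srt so ec)
    (hd : ∀ a < N, ∑ j ∈ range r, ec j (2 ^ a) + ina ins a ≤ 5) (base : List Ru)
    (hb : base.all (fun q => q.ok N r ins sl sn so) = true) (gc : List (List ℕ))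
    (hg : ∀ c ∈ gc, Sat (Vl ec lc rr) c) {cnf : List (List ℕ)} {nm db : Tr} {prf : List ℕ}
    (hne : cnf ≠ []) (hcmp : cmpR nm cnf (clsu r base ++ gc) = true) (hok : okcR cnf = true)
    (hc : chk cnf db prf = true) : False := by
  obtain ⟨c, hc1, hc2⟩ := Rup.unsat_nm hc hok hne hcmp (Vl ec lc rr)
  apply hc2
  rw [List.mem_append] at hc1
  rcases hc1 with hc1 | hc1
  · unfold clsu at hc1
    obtain ⟨q, hq, rfl⟩ := List.mem_map.1 hc1
    exact Ru.sound h h' hs hd q (List.all_eq_true.1 hb q hq)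
  · exact hg c hc1

end numbers

variable {V : Type v} [DecidableEq V] {ι : Type u} [Fintype ι] {B : ι → Finset V}
variable {Q : Finset V} {N r : ℕ} {x : ℕ → V} {C : ℕ → Finset V} {fl ub ins : List ℕ}

theorem Ci.degU (h : Ci B Q N r x C ins) {a : ℕ} (ha : a < N) :
    ∑ j ∈ range r, ecB B x N C j (2 ^ a) + ina ins a ≤ 5 := by
  rw [ina_eq]
  exact (h.cf.deg_ins h.insN h.cnt ha).le

/-- a configuration with two full blocks, components of any value, bounds for the values: `fl j = 0`: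
`Pv + 1 <= ub j + 2 e`; `fl j = 1`: value at least zero and `Pv <= ub j`, no double singles. -/
structure CfM (B : ι → Finset V) (Q : Finset V) (N r : ℕ) (x : ℕ → V) (C : ℕ → Finset V)
    (fl ub ins : List ℕ) : Prop where
  ci : Ci B Q N r x C (7 :: 56 :: ins)
  ihe : IHE.{u} V Q.card
  ihq : IHQ.{u} V Q.card
  r2 : 2 ≤ r
  val : ∀ j < r, (fl.getD j 0 = 0 ∧ Pv B (C j) + 1 ≤ (ub.getD j 0 : ℤ) + 2 * (ee B Q (C j) : ℤ)) ∨
    (fl.getD j 0 = 1 ∧ 0 ≤ sv B (C j) ∧ Pv B (C j) ≤ (ub.getD j 0 : ℤ) ∧ ee B Q (C j) = 0)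

/-- the check of a gadget in one of the two forms. -/
def Gt.okM (N r : ℕ) (fl ub : List ℕ) (g : Gt) : Bool :=
  Nat.blt g.j r && (bif Nat.beq (fl.getD g.j 0) 0 then g.ok N (ub.getD g.j 0)
    else g.okP N (ub.getD g.j 0))

theorem CfM.gt_sat (h : CfM B Q N r x C fl ub ins) {g : Gt} (hg : g.okM N r fl ub = true) :
    Sat (Vl (ecB B x N C) (lcB B x N C) (rrB B x N C)) g.cl := by
  unfold Gt.okM at hg
  rw [Bool.and_eq_true, Nat.blt_eq] at hg
  obtain ⟨hj, hg⟩ := hg
  rcases h.val g.j hj with ⟨h0, h1⟩ | ⟨h0, h1, h2, h3⟩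
  · rw [h0] at hg
    exact Gt.sat h.ci.cf h.ihe h.r2 h.ci.r4 h.ci.N8 g hj h1 hg
      (fun J => le_rfl) (fun A => le_rfl) (fun J => (h.ci.cf.rho_rr hj J).le)
  · rw [h0] at hg
    exact Gt.satP h.ci.cf h.ihe h.ihq h.r2 h.ci.r4 h.ci.N8 g hj h1 h2 h3 hg
      (fun J => le_rfl) (fun A => le_rfl) (fun J => (h.ci.cf.rho_rr hj J).le)

/-- **a checked instance has no configuration**, components of any value. -/
theorem CfM.absurd (h : CfM B Q N r x C fl ub ins)
    {so : List (ℕ × ℕ × ℕ × ℕ)} (hs : Srt so (ecB B x N C)) {base : List Ru}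
    {gads : List Gt} {nm db : Tr} {cnf : List (List ℕ)} {prf : List ℕ}
    (hbase : base.all (fun q => q.ok N r (7 :: 56 :: ins) big4 big4 so) = true)
    (hgads : gads.all (fun g => g.okM N r fl ub) = true)
    (hne : cnf ≠ []) (hok : okcR cnf = true)
    (hcmp : cmpR nm cnf (clsu r base ++ gads.map Gt.cl) = true)
    (hchk : chk cnf db prf = true) : False := by
  have hnm := h.ci.nm
  refine hnm.unsat_u hnm.nt hs (fun a ha => h.ci.degU ha) base hbase (gads.map Gt.cl) ?_ hne hcmp
    hok hchk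
  intro c hc
  obtain ⟨g, hg, rfl⟩ := List.mem_map.1 hc
  exact h.gt_sat (List.all_eq_true.1 hgads g hg)

end Pool.Agent.Hyp6
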