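import Pool.Agent.Hyp6.L3R
import Pool.Agent.Hyp6.Cfg9

/-!
# HYP6 L3RG: general closings and gadgets with both clauses

`close_genRu`: as `close_genR`, new blocks indexed in the large universe. `Gcl.mainR`, `Gx.mainR`: the
general closings with the bound of value `-1` for `lv`. `Gt.satR`: the clause of a gadget.
-/

set_option autoImplicit false

namespace Pool.Agent.Hyp6

open Finset Pool.Agent.Hyp5 Rup

universe u v

variable {V : Type v} [DecidableEq V] {ι : Type u} [Fintype ι] {B : ι → Finset V}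

section

variable {κ : Type u} [Fintype κ] {C Y : Finset V} {E : V → Finset ι}
  {N : κ → Finset V}

/-- closing with both clauses, general universe: with `r` more blocks and `2 r` more points for value `>= 0` the bound is
the one of value `-1` for `lv`. -/
theorem close_genRu {Q : Finset V} {n : ℕ} (h : AbsData B C Y E N) (ih : IHE.{u} V n)
    (ihr : IHR.{u} V n) (hn : C.card + Y.card < n) (hr : Reg B Q) (hCQ : C ⊆ Q)
    (hC : Conn (gr B) C) (hE : ∀ y ∈ Y, ∀ i ∈ E y, 2 ≤ (B i ∩ Q).card)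
    (hK : ¬ KT (absG B C Y E N) (C ∪ Y)) {r : ℕ}
    (hrho : rho B C + r ≤ rho (absG B C Y E N) (C ∪ Y)) {Y2 : Finset V} (hY2 : Y2 ⊆ Y)
    (hN2 : ∀ y ∈ Y2, 2 ≤ (univ.filter (fun c => N c = {y})).card)
    (h2r : 0 ≤ sv B C → 2 * r ≤ Y.card) :
    2 * (Y2.card : ℤ) + 24 * (r : ℤ) ≤
      lv B Q C + 5 * (Y.card : ℤ) + 4 * (Fintype.card κ : ℤ) + 1 := by
  have hc : (C ∪ Y).card = C.card + Y.card := card_union_of_disjoint h.dis
  have hc' : ((C ∪ Y).card : ℤ) = C.card + Y.card := by exact_mod_cast hc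
  have ht3 : Tr3 (absG B C Y E N) (C ∪ Y) := fun k =>
    (card_le_card inter_subset_left).trans (h.small k)
  have hlt : (C ∪ Y).card < n := by rw [hc]; exact hn
  have hr' := h.reg (hr.mono hCQ)
  have hcn := h.conn hC
  have hok := ih (ι ⊕ κ) (absG B C Y E N) (C ∪ Y) hlt hr' ht3 hcn hK
  have hee := h.ee_ge hCQ hE hY2 hN2
  have h2 := h.Pv_eq
  have h3 : (rho B C : ℤ) + r ≤ rho (absG B C Y E N) (C ∪ Y) := by exact_mod_cast hrho
  have h4 : (ee B Q C : ℤ) + Y2.card ≤ ee (absG B C Y E N) (C ∪ Y) (C ∪ Y) := by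
    exact_mod_cast hee
  by_cases hs : 0 ≤ sv B C
  · rw [lv_pos hs]
    unfold dv
    rcases hrho.lt_or_eq with h5 | h5
    · have h6 : (rho B C : ℤ) + r + 1 ≤ rho (absG B C Y E N) (C ∪ Y) := by exact_mod_cast h5
      linarith
    · have h6 : (rho B C : ℤ) + r = rho (absG B C Y E N) (C ∪ Y) := by exact_mod_cast h5
      have h7 : 0 ≤ sv (absG B C Y E N) (C ∪ Y) := by
        have h8 : (2 * r : ℤ) ≤ Y.card := by exact_mod_cast h2r hs
        unfold sv at hs ⊢
        linarith
      have h8 := ih_nonneg ih ihr hlt hr' ht3 hcn hK h7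
      linarith
  · rw [lv_neg (by omega)]
    unfold dv
    linarith


end

section

variable {Q W : Finset V} {p d : ℕ} {J : Fin p → Finset V} {E : Fin p → Finset ι}
  {N : Fin d → Finset (Fin p)} {r : ℕ}

/-- **general closing, both clauses.** -/
theorem Gcl.mainR (h : Gcl B Q W J E N r) {n : ℕ} (ih : IHE.{u} V n) (ihr : IHR.{u} V n) (hn : W.card + p < n)
    (hr : Reg B Q) (h3 : Tr3 B Q) (hW : Conn (gr B) W)
    (hK : (∃ c, (N c).card ≤ 2) ∨ W.card + p ≠ 6)
    {Z2 : Finset (Fin p)} (hZ2 : ∀ z ∈ Z2, 2 ≤ (univ.filter (fun c => N c = {z})).card)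
    (h2r : 0 ≤ sv B W → 2 * r ≤ p) :
    2 * (Z2.card : ℤ) + 24 * (r : ℤ) ≤ lv B Q W + 5 * (p : ℤ) + 4 * (d : ℤ) + 1 := by
  classical
  obtain ⟨y, E', hinj, hy, hEy, habs, hrho⟩ := h.exists_abs hr h3
  have hYc : (univ.image y).card = p := by
    rw [card_image_of_injective _ hinj, card_univ, Fintype.card_fin]
  have hκ : Fintype.card (ULift.{u} (Fin d)) = d := by simp
  have hE2 : ∀ v ∈ univ.image y, ∀ i ∈ E' v, 2 ≤ (B i ∩ Q).card := by
    intro v hv i hi
    obtain ⟨z, _, rfl⟩ := mem_image.1 hv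
    rw [hEy] at hi
    obtain ⟨⟨a, ha⟩, b, hb⟩ := mem_cxs.1 (h.EJ z hi)
    rw [mem_inter] at ha hb
    have hbQ := mem_sdiff.1 (h.JQ z hb.2)
    have h1 : ({a, b} : Finset V) ⊆ B i ∩ Q := by
      intro v hv
      simp only [mem_insert, mem_singleton] at hv
      rcases hv with rfl | rfl
      · exact mem_inter.2 ⟨ha.1, h.WQ ha.2⟩
      · exact mem_inter.2 ⟨hb.1, hbQ.1⟩
    rw [← card_pair (a := a) (b := b)]
    · exact card_le_card h1
    · rintro rfl
      exact hbQ.2 ha.2
  have hnK : ¬ KT (absG B W (univ.image y) E'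
      (fun c : ULift.{u} (Fin d) => (N c.down).image y)) (W ∪ univ.image y) := by
    intro hKT
    rcases hK with ⟨c, hc⟩ | hK
    · have ht3 : Tr3 (absG B W (univ.image y) E'
          (fun c : ULift.{u} (Fin d) => (N c.down).image y)) (W ∪ univ.image y) := fun k =>
        (card_le_card inter_subset_left).trans (habs.small k)
      have hne : (absG B W (univ.image y) E'
          (fun c : ULift.{u} (Fin d) => (N c.down).image y) (Sum.inr ⟨c⟩) ∩
            (W ∪ univ.image y)).Nonempty := by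
        rw [habs.inter_self]
        obtain ⟨v, hv⟩ := habs.neN ⟨c⟩
        exact ⟨v, mem_absG_inr.2 hv⟩
      have h1 := hKT.trace (habs.reg (hr.mono h.WQ)) ht3 hne
      rw [habs.inter_self] at h1
      have h2 : absG B W (univ.image y) E'
          (fun c : ULift.{u} (Fin d) => (N c.down).image y) (Sum.inr ⟨c⟩) ⊆ (N c).image y := by
        intro v hv
        have hv' := (mem_absG_inr (B := B) (C := W) (Y := univ.image y) (E := E')
          (N := fun c : ULift.{u} (Fin d) => (N c.down).image y) (c := ⟨c⟩)).1 hv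
        exact hv'
      have h4 := (card_le_card h2).trans card_image_le
      omega
    · apply hK
      rw [← hKT.1, card_union_of_disjoint habs.dis, hYc]
  have hZ2' : ∀ v ∈ Z2.image y, 2 ≤ (univ.filter (fun c : ULift.{u} (Fin d) =>
      (N c.down).image y = {v})).card := by
    intro v hv
    obtain ⟨z, hz, rfl⟩ := mem_image.1 hv
    refine (hZ2 z hz).trans ?_
    refine Finset.card_le_card_of_injOn (fun c => ULift.up c) ?_ ?_
    · intro c hc
      rw [mem_coe, mem_filter] at hc
      rw [mem_coe, mem_filter]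
      refine ⟨mem_univ _, ?_⟩
      show (N c).image y = {y z}
      rw [hc.2, image_singleton]
    · intro c _ c' _ he
      simpa using he
  have hZc : (Z2.image y).card = Z2.card := card_image_of_injective _ hinj
  have h5 := close_genRu habs ih ihr (by rw [hYc]; exact hn) hr h.WQ hW hE2 hnK hrho
    (image_subset_image (subset_univ Z2)) hZ2' (by rw [hYc]; exact h2r)
  rw [hYc, hκ, hZc] at h5
  exact h5

/-- **general closing with block traces, both clauses.** -/
theorem Gx.mainR (h : Gx B Q W E N r) {n : ℕ} (ih : IHE.{u} V n) (ihr : IHR.{u} V n) (hn : W.card + p < n)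
    (hr : Reg B Q) (h3 : Tr3 B Q) (hW : Conn (gr B) W)
    (hK : (∃ c, (N c).card ≤ 2) ∨ W.card + p ≠ 6)
    {Z2 : Finset (Fin p)} (hZ2 : ∀ z ∈ Z2, 2 ≤ (univ.filter (fun c => N c = {z})).card)
    (h2r : 0 ≤ sv B W → 2 * r ≤ p) :
    2 * (Z2.card : ℤ) + 24 * (r : ℤ) ≤ lv B Q W + 5 * (p : ℤ) + 4 * (d : ℤ) + 1 := by
  classical
  obtain ⟨y, E', hinj, hy, hEy, habs, hrho⟩ := h.exists_abs hr h3
  have hYc : (univ.image y).card = p := by
    rw [card_image_of_injective _ hinj, card_univ, Fintype.card_fin]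
  have hκ : Fintype.card (ULift.{u} (Fin d)) = d := by simp
  have hE2 : ∀ v ∈ univ.image y, ∀ i ∈ E' v, 2 ≤ (B i ∩ Q).card := by
    intro v hv i hi
    obtain ⟨z, _, rfl⟩ := mem_image.1 hv
    rw [hEy] at hi
    exact h.two hi
  have hnK : ¬ KT (absG B W (univ.image y) E'
      (fun c : ULift.{u} (Fin d) => (N c.down).image y)) (W ∪ univ.image y) := by
    intro hKT
    rcases hK with ⟨c, hc⟩ | hK
    · have ht3 : Tr3 (absG B W (univ.image y) E'
          (fun c : ULift.{u} (Fin d) => (N c.down).image y)) (W ∪ univ.image y) := fun k =>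
        (card_le_card inter_subset_left).trans (habs.small k)
      have hne : (absG B W (univ.image y) E'
          (fun c : ULift.{u} (Fin d) => (N c.down).image y) (Sum.inr ⟨c⟩) ∩
            (W ∪ univ.image y)).Nonempty := by
        rw [habs.inter_self]
        obtain ⟨v, hv⟩ := habs.neN ⟨c⟩
        exact ⟨v, mem_absG_inr.2 hv⟩
      have h1 := hKT.trace (habs.reg (hr.mono h.WQ)) ht3 hne
      rw [habs.inter_self] at h1
      have h2 : absG B W (univ.image y) E'
          (fun c : ULift.{u} (Fin d) => (N c.down).image y) (Sum.inr ⟨c⟩) ⊆ (N c).image y := by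
        intro v hv
        have hv' := (mem_absG_inr (B := B) (C := W) (Y := univ.image y) (E := E')
          (N := fun c : ULift.{u} (Fin d) => (N c.down).image y) (c := ⟨c⟩)).1 hv
        exact hv'
      have h4 := (card_le_card h2).trans card_image_le
      omega
    · apply hK
      rw [← hKT.1, card_union_of_disjoint habs.dis, hYc]
  have hZ2' : ∀ v ∈ Z2.image y, 2 ≤ (univ.filter (fun c : ULift.{u} (Fin d) =>
      (N c.down).image y = {v})).card := by
    intro v hv
    obtain ⟨z, hz, rfl⟩ := mem_image.1 hv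
    refine (hZ2 z hz).trans ?_
    refine Finset.card_le_card_of_injOn (fun c => ULift.up c) ?_ ?_
    · intro c hc
      rw [mem_coe, mem_filter] at hc
      rw [mem_coe, mem_filter]
      refine ⟨mem_univ _, ?_⟩
      show (N c).image y = {y z}
      rw [hc.2, image_singleton]
    · intro c _ c' _ he
      simpa using he
  have hZc : (Z2.image y).card = Z2.card := card_image_of_injective _ hinj
  have h5 := close_genRu habs ih ihr (by rw [hYc]; exact hn) hr h.WQ hW hE2 hnK hrho
    (image_subset_image (subset_univ Z2)) hZ2' (by rw [hYc]; exact h2r)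
  rw [hYc, hκ, hZc] at h5
  exact h5

end

/-- the check of a gadget at a component with nonnegative value, both clauses in the strong form. -/
def Gt.okR (N kap : ℕ) (g : Gt) : Bool :=
  g.okg N &&
  ((Nat.ble (2 * g.R) g.gs.length &&
      (g.dum.any (fun m => Nat.ble (pcn g.gs.length m) 2) || Nat.ble 3 g.gs.length) &&
      Nat.blt (kap + 5 * g.gs.length + 4 * g.dum.length)
        (24 * g.R + 2 * z2n g.gs.length g.dum)) ||
    (Nat.blt (kap + 5 * g.gs.length + 4 * g.dum.length + 2)
      (24 * g.R + 2 * z2n g.gs.length g.dum) ||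
    (g.dum.any (fun m => Nat.ble (pcn g.gs.length m) 2) &&
    Nat.blt (kap + 5 * g.gs.length + 4 * g.dum.length + 1)
      (24 * g.R + 2 * z2n g.gs.length g.dum))))

section sound

variable {Q : Finset V} {N r : ℕ} {x : ℕ → V} {C : ℕ → Finset V} {k : ℕ}

/-- the premises of a gadget do not all hold, nonnegative value, both clauses. -/
theorem Gt.coreR (h : Cf B Q N r x C k) (ih : IHE.{u} V Q.card) (ihr : IHR.{u} V Q.card)
    (hr2 : 2 ≤ r) (g : Gt) (hj : g.j < r) (hsv : 0 ≤ sv B (C g.j)) {kap : ℕ}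
    (hkap : dv B Q (C g.j) ≤ kap)
    (hok : g.okR N kap = true)
    (hp1 : ∀ z ∈ g.gs, z.a ≤ (cxs B (C g.j) (ptm x N z.J)).card ∧
      ∀ q ∈ z.ps, q.2 ≤ (hb B x N (C g.j) q.1).card)
    (hp2 : ∀ q ∈ g.ref, rho B (C g.j) + q.2 ≤ rho B (C g.j ∪ ptm x N q.1)) : False := by
  unfold Gt.okR at hok
  rw [Bool.and_eq_true] at hok
  obtain ⟨hokg, hin⟩ := hok
  obtain ⟨E, NN, hGx, hcard, ⟨Z2, hZ2c, hZ2⟩, hsm⟩ := Gt.exists_gx h hr2 g hj hokg hp1 hp2
  have hWc : Conn (Pool.Agent.Hyp5.gr B) (C g.j) := h.conn g.j hj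
  have hweak := hGx.main0 ih hcard h.reg h.tr3 hWc hZ2
  rw [hZ2c] at hweak
  unfold dv at hkap
  rw [Bool.or_eq_true, Bool.or_eq_true] at hin
  rcases hin with hin | hin | hin
  · rw [Bool.and_eq_true, Bool.and_eq_true, Nat.blt_eq, Nat.ble_eq, Bool.or_eq_true,
      Nat.ble_eq] at hin
    obtain ⟨⟨hp, hsd⟩, hin⟩ := hin
    have hK : (∃ c, (NN c).card ≤ 2) ∨ (C g.j).card + g.gs.length ≠ 6 := by
      rcases hsd with hsd | hsd
      · exact Or.inl (hsm hsd)
      · right
        intro h6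
        have hne := hWc.1
        have hcov : Cov B (C g.j) := (cov_of_reg h.reg).mono (h.CQ g.j hj)
        have h1 := rho_pos hcov hne
        have h2 : ((C g.j).card : ℤ) - 2 * (rho B (C g.j) : ℤ) ≥ 0 := hsv
        have h3 : rho B (C g.j) = 1 := by omega
        obtain ⟨v, hv⟩ := hne
        have h4 := h.crit g.j hj v hv
        have h5 : 0 < ((C g.j).erase v).card := by
          rw [card_erase_of_mem hv]
          omega
        have h7 := rho_pos (hcov.mono (erase_subset v (C g.j))) (card_pos.1 h5)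
        omega
    have h1 := hGx.mainR ih ihr hcard h.reg h.tr3 hWc hK hZ2 (fun _ => hp)
    rw [hZ2c, lv_pos hsv] at h1
    unfold dv at h1
    have h2 : ((kap + 5 * g.gs.length + 4 * g.dum.length : ℕ) : ℤ) <
        ((24 * g.R + 2 * z2n g.gs.length g.dum : ℕ) : ℤ) := by
      exact_mod_cast hin
    push_cast at h2
    linarith
  · rw [Nat.blt_eq] at hin
    have h2 : ((kap + 5 * g.gs.length + 4 * g.dum.length + 2 : ℕ) : ℤ) <
        ((24 * g.R + 2 * z2n g.gs.length g.dum : ℕ) : ℤ) := by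
      exact_mod_cast hin
    push_cast at h2 hweak hkap
    linarith
  · rw [Bool.and_eq_true, Nat.blt_eq] at hin
    obtain ⟨hs, hin⟩ := hin
    have hK : (∃ c, (NN c).card ≤ 2) ∨ (C g.j).card + g.gs.length ≠ 6 := Or.inl (hsm hs)
    have hstr := (hGx.main ih hcard h.reg h.tr3 hWc hK hZ2).1
    rw [hZ2c] at hstr
    have h2 : ((kap + 5 * g.gs.length + 4 * g.dum.length + 1 : ℕ) : ℤ) <
        ((24 * g.R + 2 * z2n g.gs.length g.dum : ℕ) : ℤ) := by
      exact_mod_cast hin
    push_cast at h2 hstr hkap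
    linarith

/-- **soundness of the clause of a gadget at a component with nonnegative value, both clauses.** -/
theorem Gt.satR (h : Cf B Q N r x C k) (ih : IHE.{u} V Q.card) (ihr : IHR.{u} V Q.card)
    (hr2 : 2 ≤ r) (hr4 : r ≤ 4) (hN : N ≤ 8) (g : Gt) (hj : g.j < r)
    (hsv : 0 ≤ sv B (C g.j)) {kap : ℕ} (hkap : dv B Q (C g.j) ≤ kap)
    (hok : g.okR N kap = true)
    {ec lc rr : ℕ → ℕ → ℕ} (hec : ∀ J, ec g.j J ≤ (cxs B (C g.j) (ptm x N J)).card)
    (hlc : ∀ A, lc g.j A ≤ (hb B x N (C g.j) A).card)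
    (hrr : ∀ J, rho B (C g.j) + rr g.j J ≤ rho B (C g.j ∪ ptm x N J)) :
    Sat (Vl ec lc rr) g.cl := by
  apply sat_of
  intro hf
  have hj4 : g.j < 4 := lt_of_lt_of_le hj hr4
  have hok' := hok
  unfold Gt.okR at hok'
  rw [Bool.and_eq_true] at hok'
  have hok2 := hok'.1
  unfold Gt.okg at hok2
  simp only [Bool.and_eq_true, List.all_eq_true, List.mem_range, Nat.blt_eq, Nat.ble_eq] at hok2
  obtain ⟨⟨⟨⟨⟨⟨⟨⟨⟨⟨_, _⟩, _⟩, hgok⟩, _⟩, _⟩, _⟩, _⟩, hrf⟩, _⟩, _⟩ := hok2
  refine Gt.coreR h ih ihr hr2 g hj hsv (kap := kap) hkap hok ?_ ?_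
  · intro z hz
    have h1 := hgok z hz
    unfold Gg.ok at h1
    simp only [Bool.and_eq_true, List.all_eq_true, Bool.or_eq_true, Nat.blt_eq, Nat.ble_eq,
      nbeq_iff, decide_eq_true_eq, Bool.not_eq_true'] at h1
    obtain ⟨⟨⟨⟨_, hJ⟩, ha⟩, _⟩, h4⟩ := h1
    constructor
    · rcases Nat.eq_zero_or_pos z.a with h0 | h0
      · omega
      · have h5 := hf (2 * vE g.j z.J z.a + 1) (by
          unfold Gt.cl
          rw [List.mem_append, List.mem_flatMap]
          left
          refine ⟨z, hz, ?_⟩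
          rw [List.mem_append]
          left
          have h6 : Nat.beq z.a 0 = false := by
            rw [← Bool.not_eq_true, nbeq_iff]
            omega
          rw [h6]
          simp)
        rw [nE hj4 hJ ha, not_not] at h5
        exact h5.trans (hec z.J)
    · intro q hq
      have h5 := h4 q hq
      have h6 := hf (2 * vL g.j q.1 q.2 + 1) (by
        unfold Gt.cl
        rw [List.mem_append, List.mem_flatMap]
        left
        refine ⟨z, hz, ?_⟩
        rw [List.mem_append]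
        right
        exact List.mem_map.2 ⟨q, hq, rfl⟩)
      have h7 : q.1 < 256 := by
        refine lt_of_lt_of_le h5.1.1.1.1 ?_
        calc 2 ^ N ≤ 2 ^ 8 := Nat.pow_le_pow_right (by norm_num) hN
          _ = 256 := by norm_num
      rw [nL hj4 h7 h5.1.2, not_not] at h6
      exact h6.trans (hlc q.1)
  · intro q hq
    have h1 := hrf q hq
    have h2 := hf (2 * vR g.j q.1 q.2 + 1) (by
      unfold Gt.cl
      rw [List.mem_append]
      right
      exact List.mem_map.2 ⟨q, hq, rfl⟩)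
    rw [nR hj4 h1.1 h1.2, not_not] at h2
    have h3 := hrr q.1
    omega

end sound

end Pool.Agent.Hyp6
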