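import Pool.Agent.Hyp6.Cb6
import Pool.Agent.Hyp6.L3RG

/-!
# HYP6 CB7: instances with components of any value, both clauses in the strong form

`CfR`: a configuration whose components have the bound `lv + 1 <= ub j`, any value. `CfR.absurd`:
contradiction from the checks; `CfR.absurd_inst`: the same from the check `instB` of an instance.
-/

set_option autoImplicit false

namespace Pool.Agent.Hyp6

open Finset Pool.Agent.Hyp5 Rup

universe u v

/-! ### the check of a gadget -/

theorem Gt.okg_of_ok {N kap : ℕ} {g : Gt} (h : g.ok N kap = true) : g.okg N = true := by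
  unfold Gt.ok at h
  rw [Bool.and_eq_true] at h
  exact h.1

/-- a gadget with `2 R` new points, checked for value `-1`, is correct for every value. -/
theorem Gt.okR_of_ok {N kap : ℕ} {g : Gt} (h : g.ok N kap = true) (h2 : 2 * g.R ≤ g.gs.length)
    (hk : kap ≤ 11) : g.okR N kap = true := by
  have hokg := Gt.okg_of_ok h
  have hR : 1 ≤ g.R := by
    have h1 := hokg
    unfold Gt.okg at h1
    simp only [Bool.and_eq_true, Nat.ble_eq] at h1
    exact h1.1.1.1.1.1.1.1.1.1.2
  have hdum : ∀ m ∈ g.dum, 1 ≤ pcn g.gs.length m ∧ pcn g.gs.length m ≤ 3 := by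
    have h1 := hokg
    unfold Gt.okg at h1
    simp only [Bool.and_eq_true, List.all_eq_true, Nat.ble_eq] at h1
    exact h1.1.1.1.2
  unfold Gt.ok at h
  rw [Bool.and_eq_true] at h
  have hval := h.2
  rw [Bool.or_eq_true, Bool.and_eq_true, Nat.blt_eq, Nat.blt_eq] at hval
  unfold Gt.okR
  rw [hokg, Bool.true_and, Bool.or_eq_true, Bool.and_eq_true, Bool.and_eq_true, Bool.or_eq_true,
    Bool.or_eq_true, Bool.and_eq_true, Nat.ble_eq, Nat.ble_eq, Nat.blt_eq, Nat.blt_eq, Nat.blt_eq]
  rcases hval with hval | ⟨hs, hval⟩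
  · by_cases h3 : 3 ≤ g.gs.length
    · left
      exact ⟨⟨h2, Or.inr h3⟩, by omega⟩
    · have hp2 : g.gs.length = 2 := by omega
      by_cases hd : g.dum = []
      · right
        left
        rw [hd, hp2]
        simp only [List.length_nil]
        omega
      · left
        refine ⟨⟨h2, Or.inl ?_⟩, by omega⟩
        obtain ⟨m, hm⟩ := List.exists_mem_of_ne_nil _ hd
        rw [List.any_eq_true]
        refine ⟨m, hm, ?_⟩
        rw [Nat.ble_eq]
        have h4 := (hdum m hm).1
        have h5 : pcn g.gs.length m ≤ g.gs.length := by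
          rw [pcn_eq]
          exact (card_filter_le _ _).trans (by rw [card_range])
        omega
  · left
    exact ⟨⟨h2, Or.inl hs⟩, hval⟩

/-! ### mixed bounds for the numbers of hits -/

section numbers

variable {N r : ℕ} {ins : List ℕ} {ec lc rr : ℕ → ℕ → ℕ}

/-- bounds for the hits of component `0` only. -/
theorem Nm.nt0 (h : Nm N r ins ec lc rr) {s0 n0 : ℕ}
    (hs : ∑ a ∈ range N, ec 0 (2 ^ a) ≤ s0)
    (hn : ∑ A ∈ (range (2 ^ N)).filter (fun A => pcn N A = 2), lc 0 A ≤ n0) :
    Nt N r [s0, 2000, 2000, 2000] [n0, 2000, 2000, 2000] ec lc where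
  slot := by
    intro j hj
    rcases Nat.eq_zero_or_pos j with rfl | h0
    · exact hs
    · have h1 := (h.nt).slot j hj
      have h4 := h.j4 hj
      rw [big4_get h4] at h1
      interval_cases j <;> exact h1
  shr := by
    intro j hj
    rcases Nat.eq_zero_or_pos j with rfl | h0
    · exact hn
    · have h1 := (h.nt).shr j hj
      have h4 := h.j4 hj
      rw [big4_get h4] at h1
      interval_cases j <;> exact h1

/-- the clause `the numbers of hits of the points of `l` are not all at most the given ones' from a lower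
bound of the sum. -/
theorem sat_low (h : Nm N r ins ec lc rr) {j : ℕ} (hj : j < r) {l : List (ℕ × ℕ)} {X : Finset ℕ}
    {H : ℕ} (hnd : X ⊆ (l.map Prod.fst).toFinset)
    (hl : ∀ p ∈ l, p.1 < N ∧ p.2 + 1 < 8)
    (hH : H ≤ ∑ a ∈ X, ec j (2 ^ a)) (hlt : (l.map Prod.snd).sum < H) :
    Sat (Vl ec lc rr) (l.map (fun p => 2 * vE j (2 ^ p.1) (p.2 + 1))) := by
  apply sat_of
  intro hf
  have h1 : ∀ p ∈ l, ec j (2 ^ p.1) ≤ p.2 := by
    intro p hp
    have h2 := hf (2 * vE j (2 ^ p.1) (p.2 + 1)) (by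
      rw [List.mem_map]
      exact ⟨p, hp, rfl⟩)
    rw [pE (h.j4 hj) (two_pow_lt (hl p hp).1 h.N8) (hl p hp).2] at h2
    omega
  have h3 : ∑ a ∈ (l.map Prod.fst).toFinset, ec j (2 ^ a) ≤ (l.map Prod.snd).sum := by
    clear hlt hl hnd hf
    induction l with
    | nil => simp
    | cons p l ih =>
      rw [List.map_cons, List.toFinset_cons, List.map_cons, List.sum_cons]
      have h4 := ih (fun q hq => h1 q (List.mem_cons_of_mem _ hq))
      have h5 := h1 p (List.mem_cons_self ..)
      have h6 : ∑ a ∈ insert p.1 (l.map Prod.fst).toFinset, ec j (2 ^ a) ≤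
          ec j (2 ^ p.1) + ∑ a ∈ (l.map Prod.fst).toFinset, ec j (2 ^ a) := by
        by_cases hp : p.1 ∈ (l.map Prod.fst).toFinset
        · rw [insert_eq_of_mem hp]
          omega
        · rw [sum_insert hp]
      omega
  have h4 : ∑ a ∈ X, ec j (2 ^ a) ≤ ∑ a ∈ (l.map Prod.fst).toFinset, ec j (2 ^ a) :=
    sum_le_sum_of_subset hnd
  omega

/-- the clause `not more than `c` hits'. -/
theorem sat_cap (h : Nm N r ins ec lc rr) {j a c : ℕ} (hj : j < r) (ha : a < N) (hc : c + 1 < 8)
    (hle : ec j (2 ^ a) ≤ c) : Sat (Vl ec lc rr) [2 * vE j (2 ^ a) (c + 1) + 1] := by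
  apply sat_of
  intro hf
  have h2 := hf (2 * vE j (2 ^ a) (c + 1) + 1) (List.mem_singleton.2 rfl)
  rw [nE (h.j4 hj) (two_pow_lt ha h.N8) hc] at h2
  omega

/-- **contradiction from a refutation of the clauses**, with further given clauses. -/
theorem Nm.unsat_g {sl sn : List ℕ} {so : List (ℕ × ℕ × ℕ × ℕ)} (h : Nm N r ins ec lc rr)
    (h' : Nt N r sl sn ec lc) (hs : Srt so ec)
    (hd : ∀ a < N, ∑ j ∈ range r, ec j (2 ^ a) + ina ins a ≤ 5) (base : List Ru)
    (hb : base.all (fun q => q.ok N r ins sl sn so) = true) (given : List (List ℕ))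
    (hgv : ∀ c ∈ given, Sat (Vl ec lc rr) c) (gc : List (List ℕ))
    (hg : ∀ c ∈ gc, Sat (Vl ec lc rr) c) {cnf : List (List ℕ)} {nm db : Tr} {prf : List ℕ}
    (hne : cnf ≠ []) (hcmp : cmpR nm cnf (clsu r base ++ (given ++ gc)) = true)
    (hok : okcR cnf = true) (hc : chk cnf db prf = true) : False := by
  refine h.unsat_u h' hs hd base hb (given ++ gc) ?_ hne hcmp hok hc
  intro c hc
  rcases List.mem_append.1 hc with hc | hc
  · exact hgv c hc
  · exact hg c hc

end numbers

/-! ### the configuration -/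

variable {V : Type v} [DecidableEq V] {ι : Type u} [Fintype ι] {B : ι → Finset V}
variable {Q : Finset V} {N r : ℕ} {x : ℕ → V} {C : ℕ → Finset V} {ub ins : List ℕ}

/-- a configuration with two full blocks, components of any value, bounds `lv + 1 <= ub j`. -/
structure CfR (B : ι → Finset V) (Q : Finset V) (N r : ℕ) (x : ℕ → V) (C : ℕ → Finset V)
    (ub ins : List ℕ) : Prop where
  ci : Ci B Q N r x C (7 :: 56 :: ins)
  ihe : IHE.{u} V Q.card
  ihr : IHR.{u} V Q.card
  r2 : 2 ≤ r
  val : ∀ j < r, lv B Q (C j) + 1 ≤ (ub.getD j 0 : ℤ)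

/-- the check of a gadget for components of any value. -/
def Gt.okV (N r : ℕ) (ub : List ℕ) (g : Gt) : Bool :=
  Nat.blt g.j r && (g.ok N (ub.getD g.j 0) && (Nat.ble (2 * g.R) g.gs.length &&
    Nat.ble (ub.getD g.j 0) 11))

theorem CfR.gt_sat (h : CfR B Q N r x C ub ins) {g : Gt} (hg : g.okV N r ub = true) :
    Sat (Vl (ecB B x N C) (lcB B x N C) (rrB B x N C)) g.cl := by
  unfold Gt.okV at hg
  rw [Bool.and_eq_true, Bool.and_eq_true, Bool.and_eq_true, Nat.blt_eq, Nat.ble_eq,
    Nat.ble_eq] at hg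
  obtain ⟨hj, hok, h2, hk⟩ := hg
  have hv := h.val g.j hj
  by_cases hs : 0 ≤ sv B (C g.j)
  · rw [lv_pos hs] at hv
    exact Gt.satR h.ci.cf h.ihe h.ihr h.r2 h.ci.r4 h.ci.N8 g hj hs (by linarith)
      (Gt.okR_of_ok hok h2 hk) (fun J => le_rfl) (fun A => le_rfl)
      (fun J => (h.ci.cf.rho_rr hj J).le)
  · rw [lv_neg (by omega)] at hv
    unfold dv at hv
    exact Gt.sat h.ci.cf h.ihe h.r2 h.ci.r4 h.ci.N8 g hj (by linarith) hok
      (fun J => le_rfl) (fun A => le_rfl) (fun J => (h.ci.cf.rho_rr hj J).le)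

/-- **a checked instance has no configuration**, components of any value, given clauses, given bounds for
the numbers of hits. -/
theorem CfR.absurd (h : CfR B Q N r x C ub ins) {sl sn : List ℕ}
    (hnt : Nt N r sl sn (ecB B x N C) (lcB B x N C))
    {so : List (ℕ × ℕ × ℕ × ℕ)} (hs : Srt so (ecB B x N C)) {base : List Ru}
    {given : List (List ℕ)}
    (hgv : ∀ c ∈ given, Sat (Vl (ecB B x N C) (lcB B x N C) (rrB B x N C)) c)
    {gads : List Gt} {nm db : Tr} {cnf : List (List ℕ)} {prf : List ℕ}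
    (hbase : base.all (fun q => q.ok N r (7 :: 56 :: ins) sl sn so) = true)
    (hgads : gads.all (fun g => g.okV N r ub) = true)
    (hne : cnf ≠ []) (hok : okcR cnf = true)
    (hcmp : cmpR nm cnf (clsu r base ++ (given ++ gads.map Gt.cl)) = true)
    (hchk : chk cnf db prf = true) : False := by
  have hnm := h.ci.nm
  refine hnm.unsat_g hnt hs (fun a ha => h.ci.degU ha) base hbase given hgv (gads.map Gt.cl) ?_
    hne hcmp hok hchk
  intro c hc
  obtain ⟨g, hg, rfl⟩ := List.mem_map.1 hc
  exact h.gt_sat (List.all_eq_true.1 hgads g hg)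

/-- **a checked instance of the list for value `0` has no configuration of any value**, if its gadgets have
at least `2 R` new points. -/
theorem CfR.absurd_inst {n : ℕ} (h : CfR B Q (6 + n) (2 + n) x C ub ins)
    {so : List (ℕ × ℕ × ℕ × ℕ)} (hs : Srt so (ecB B x (6 + n) C)) {base : List Rs}
    {gads : List Gt} {nm db : Tr} {cnf : List (List ℕ)} {prf : List ℕ}
    (hb : instB n ub ins so base gads nm cnf db prf = true)
    (hp2 : gads.all (fun g => Nat.ble (2 * g.R) g.gs.length) = true)
    (hub : ub.all (fun k => Nat.ble k 11) = true) : False := by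
  unfold instB at hb
  simp only [Bool.and_eq_true] at hb
  obtain ⟨hbase, hgads, hne, hok, hcmp, hchk⟩ := hb
  have hnm := h.ci.nm
  refine hnm.unsat_nm hnm.nt hs base hbase (gads.map Gt.cl) ?_ ?_ hcmp hok hchk
  · intro c hc
    obtain ⟨g, hg, rfl⟩ := List.mem_map.1 hc
    apply h.gt_sat
    have h1 := List.all_eq_true.1 hgads g hg
    rw [Bool.and_eq_true] at h1
    have h2 := List.all_eq_true.1 hp2 g hg
    have h3 : Nat.ble (ub.getD g.j 0) 11 = true := by
      rw [Nat.ble_eq]
      rcases lt_or_ge g.j ub.length with h4 | h4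
      · rw [List.getD_eq_getElem _ _ h4]
        have h5 := List.all_eq_true.1 hub _ (List.getElem_mem h4)
        rwa [Nat.ble_eq] at h5
      · rw [List.getD_eq_default _ _ h4]
        omega
    unfold Gt.okV
    rw [h1.1, h1.2, h2, h3]
    rfl
  · rintro rfl
    simp at hne

end Pool.Agent.Hyp6
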