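import Pool.Agent.Hyp6.CfGb

/-!
# HYP6 CFB: instances with given linear bounds for the numbers of hits

`Bnd`: a bound for the sum of the numbers of hits over a list of pairs (component, point); `Gb`: a clause
from a bound; `instN`: the check of an instance with bounds; `CfR.absurd_bnd`: contradiction.
-/

set_option autoImplicit false

namespace Pool.Agent.Hyp6

open Finset Pool.Agent.Hyp5 Rup

universe u v

/-- a linear bound: at least `K` (`lo = true`) or at most `K` hits over the list of pairs. -/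
structure Bnd : Type where
  lo : Bool
  S : List (ℕ × ℕ)
  K : ℕ

/-- the sum over the list of pairs. -/
def Bnd.sm (b : Bnd) (e : ℕ → ℕ → ℕ) : ℕ := (b.S.map (fun p => e p.1 (2 ^ p.2))).sum

/-- the bound is true. -/
def Bnd.Holds (b : Bnd) (e : ℕ → ℕ → ℕ) : Prop :=
  (b.lo = true → b.K ≤ b.sm e) ∧ (b.lo = false → b.sm e ≤ b.K)

/-- a clause from the bound with the number `q`: numbers `t` for the pairs. -/
structure Gb : Type where
  q : ℕ
  t : List ℕ

/-- the clause of a bound. -/
def Bnd.cl (b : Bnd) (t : List ℕ) : List ℕ :=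
  bif b.lo then ((b.S.zip t).filter (fun p => Nat.blt p.2 5)).map
      (fun p => 2 * vE p.1.1 (2 ^ p.1.2) (p.2 + 1))
  else ((b.S.zip t).filter (fun p => Nat.blt 0 p.2)).map
      (fun p => 2 * vE p.1.1 (2 ^ p.1.2) p.2 + 1)

/-- the clause of a bound is correct. -/
def Bnd.ok (N r : ℕ) (b : Bnd) (t : List ℕ) : Bool :=
  Nat.beq b.S.length t.length && (b.S.all (fun p => Nat.blt p.1 r && Nat.blt p.2 N) &&
    (t.all (fun k => Nat.blt k 8) && bif b.lo then Nat.blt t.sum b.K else Nat.blt b.K t.sum))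

/-- the default bound. -/
def bnd0 : Bnd := ⟨false, [], 0⟩

/-- the clause. -/
def Gb.cl (bl : List Bnd) (g : Gb) : List ℕ := (bl.getD g.q bnd0).cl g.t

/-- the clause is correct. -/
def Gb.ok (N r : ℕ) (bl : List Bnd) (g : Gb) : Bool :=
  Nat.blt g.q bl.length && (bl.getD g.q bnd0).ok N r g.t

/-- the check of an instance with bounds. -/
noncomputable def instN (n r : ℕ) (ub ins : List ℕ) (bl : List Bnd) (base : List Ru) (gb : List Gb)
    (gads : List Gt) (nm : Tr) (cnf : List (List ℕ)) (db : Tr) (prf : List ℕ) : Bool :=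
  base.all (fun q => q.ok (6 + n) r (7 :: 56 :: ins) big4 big4 []) &&
  (gb.all (fun c => c.ok (6 + n) r bl) && (gads.all (fun g => g.okV (6 + n) r ub) &&
  (!(cnf.isEmpty) && (okcR cnf &&
    (cmpR nm cnf (clsu r base ++ (gb.map (Gb.cl bl) ++ gads.map Gt.cl)) && chk cnf db prf)))))

/-- the check of an instance from its parts. -/
theorem instN_of {n r : ℕ} {ub ins : List ℕ} {bl : List Bnd} {base : List Ru} {gb : List Gb}
    {gads : List Gt} {nm : Tr} {cnf : List (List ℕ)} {db : Tr} {prf : List ℕ}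
    (h1 : base.all (fun q => q.ok (6 + n) r (7 :: 56 :: ins) big4 big4 []) = true)
    (h2 : gb.all (fun c => c.ok (6 + n) r bl) = true)
    (h3 : gads.all (fun g => g.okV (6 + n) r ub) = true)
    (h4 : (!(cnf.isEmpty)) = true) (h5 : okcR cnf = true)
    (h6 : cmpR nm cnf (clsu r base ++ (gb.map (Gb.cl bl) ++ gads.map Gt.cl)) = true)
    (h7 : chk cnf db prf = true) : instN n r ub ins bl base gb gads nm cnf db prf = true := by
  unfold instN
  rw [h1, h2, h3, h4, h5, h6, h7]
  rfl

theorem sum_zip_le {α : Type*} (f : α → ℕ) : ∀ (S : List α) (t : List ℕ), S.length = t.length →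
    (∀ p ∈ S.zip t, f p.1 ≤ p.2) → (S.map f).sum ≤ t.sum
  | [], [], _, _ => by simp
  | [], _ :: _, h, _ => by simp at h
  | _ :: _, [], h, _ => by simp at h
  | a :: S, k :: t, h, hp => by
    have h1 := sum_zip_le f S t (by simpa using h) (fun p hp' => hp p (by simp [hp']))
    have h2 := hp (a, k) (by simp)
    simp only [List.map_cons, List.sum_cons]
    simp only at h2
    omega

theorem sum_zip_ge {α : Type*} (f : α → ℕ) : ∀ (S : List α) (t : List ℕ), S.length = t.length →
    (∀ p ∈ S.zip t, p.2 ≤ f p.1) → t.sum ≤ (S.map f).sum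
  | [], [], _, _ => by simp
  | [], _ :: _, h, _ => by simp at h
  | _ :: _, [], h, _ => by simp at h
  | a :: S, k :: t, h, hp => by
    have h1 := sum_zip_ge f S t (by simpa using h) (fun p hp' => hp p (by simp [hp']))
    have h2 := hp (a, k) (by simp)
    simp only [List.map_cons, List.sum_cons]
    simp only at h2
    omega

variable {V : Type v} [DecidableEq V] {ι : Type u} [Fintype ι] {B : ι → Finset V}
variable {Q : Finset V} {n r : ℕ} {x : ℕ → V} {C : ℕ → Finset V} {ub ins : List ℕ}

theorem CfR.bnd_sat (h : CfR B Q (6 + n) r x C ub ins) {b : Bnd}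
    (hb : b.Holds (ecB B x (6 + n) C)) {t : List ℕ} (hok : b.ok (6 + n) r t = true) :
    Sat (Vl (ecB B x (6 + n) C) (lcB B x (6 + n) C) (rrB B x (6 + n) C)) (b.cl t) := by
  have hnm := h.ci.nm
  unfold Bnd.ok at hok
  simp only [Bool.and_eq_true, List.all_eq_true, Nat.blt_eq] at hok
  obtain ⟨hlen, hS, ht, hK⟩ := hok
  have hlen' : b.S.length = t.length := nbeq_iff.1 hlen
  have hz1 : ∀ p ∈ b.S.zip t, p.1.1 < r ∧ p.1.2 < 6 + n := fun p hp =>
    hS p.1 (List.of_mem_zip hp).1
  have hz2 : ∀ p ∈ b.S.zip t, p.2 < 8 := fun p hp => ht p.2 (List.of_mem_zip hp).2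
  apply sat_of
  intro hf
  unfold Bnd.cl at hf
  rcases hlo : b.lo with _ | _
  · rw [hlo] at hf hK
    simp only [cond_false] at hf hK
    rw [Nat.blt_eq] at hK
    have h1 := hb.2 hlo
    have h2 : t.sum ≤ b.sm (ecB B x (6 + n) C) := by
      refine sum_zip_ge _ b.S t hlen' fun p hp => ?_
      obtain ⟨k1, k2⟩ := hz1 p hp
      by_cases h0 : 0 < p.2
      · have h6 := hf (2 * vE p.1.1 (2 ^ p.1.2) p.2 + 1) (by
          rw [List.mem_map]
          refine ⟨p, ?_, rfl⟩
          rw [List.mem_filter, Nat.blt_eq]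
          exact ⟨hp, h0⟩)
        rw [nE (hnm.j4 k1) (two_pow_lt (N := 6 + n) k2 hnm.N8) (hz2 p hp), not_not] at h6
        exact h6
      · omega
    omega
  · rw [hlo] at hf hK
    simp only [cond_true] at hf hK
    rw [Nat.blt_eq] at hK
    have h1 := hb.1 hlo
    have h2 : b.sm (ecB B x (6 + n) C) ≤ t.sum := by
      refine sum_zip_le _ b.S t hlen' fun p hp => ?_
      obtain ⟨k1, k2⟩ := hz1 p hp
      have h5 := hnm.le5 p.1.1 k1 p.1.2 k2
      by_cases h0 : p.2 < 5
      · have h6 := hf (2 * vE p.1.1 (2 ^ p.1.2) (p.2 + 1)) (by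
          rw [List.mem_map]
          refine ⟨p, ?_, rfl⟩
          rw [List.mem_filter, Nat.blt_eq]
          exact ⟨hp, h0⟩)
        rw [pE (hnm.j4 k1) (two_pow_lt (N := 6 + n) k2 hnm.N8) (by omega)] at h6
        omega
      · omega
    omega

/-- **a checked instance with bounds has no configuration which satisfies them.** -/
theorem CfR.absurd_bnd (h : CfR B Q (6 + n) r x C ub ins) {bl : List Bnd}
    (hbl : ∀ b ∈ bl, b.Holds (ecB B x (6 + n) C)) {base : List Ru} {gb : List Gb}
    {gads : List Gt} {nm db : Tr} {cnf : List (List ℕ)} {prf : List ℕ}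
    (hb : instN n r ub ins bl base gb gads nm cnf db prf = true) : False := by
  unfold instN at hb
  simp only [Bool.and_eq_true] at hb
  obtain ⟨hbase, hgb, hgads, hne, hok, hcmp, hchk⟩ := hb
  have hnm := h.ci.nm
  refine h.absurd hnm.nt (so := []) srt_nil (base := base) (given := gb.map (Gb.cl bl)) ?_
    (gads := gads) (nm := nm) (db := db) (cnf := cnf) (prf := prf) hbase hgads ?_ hok hcmp hchk
  · intro c hc
    obtain ⟨g, hg, rfl⟩ := List.mem_map.1 hc
    have h1 := List.all_eq_true.1 hgb g hg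
    unfold Gb.ok at h1
    rw [Bool.and_eq_true, Nat.blt_eq] at h1
    refine h.bnd_sat (hbl _ ?_) h1.2
    rw [← List.getElem_eq_getD (h := h1.1)]
    exact List.getElem_mem h1.1
  · rintro rfl
    simp at hne

end Pool.Agent.Hyp6
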