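import Pool.Agent.Hyp6.Cb3

/-!
# HYP6 CFO: an ordered labelling

Among the labellings of a configuration without further inner blocks one may choose a labelling in
which the numbers of blocks meeting a component and a point are sorted along the list `srtl`.
-/

set_option autoImplicit false

namespace Pool.Agent.Hyp6

open Finset Pool.Agent.Hyp5

universe u v

variable {V : Type v} [DecidableEq V] {ι : Type u} [Fintype ι] {B : ι → Finset V}
variable {Q : Finset V} {i j : ι} {n : ℕ} {x : ℕ → V} {D : ℕ → Finset V} {ub L : List ℕ}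

/-- number of blocks meeting the component `c` and the point `a`. -/
noncomputable def eh (B : ι → Finset V) (x : ℕ → V) (D : ℕ → Finset V) (c a : ℕ) : ℕ :=
  (cxs B (D c) {x a}).card

theorem ecB_two_pow {N : ℕ} {a : ℕ} (ha : a < N) (c : ℕ) :
    ecB B x N D c (2 ^ a) = eh B x D c a := by
  unfold ecB eh
  rw [ptm_bit ha]

theorem CfI.eh_le (h : CfI B Q n x D i j ub L) {c a : ℕ} (ha : a < 6 + n) : eh B x D c a ≤ 5 := by
  rw [← ecB_two_pow (N := 6 + n) ha]
  unfold ecB
  rw [← h.cf.reg (x a) (h.cf.xQ a ha)]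
  refine card_le_card fun k hk => ?_
  rw [mem_cxs_bit ha] at hk
  simp [hk.2]

/-- points permuted, explicit. -/
theorem CfI.permX2 {R : List ℕ} (h : CfI B Q n x D i j ub L) (pl : List ℕ)
    (hok : okl (6 + n) pl L R = true) :
    ∃ i' j', CfI B Q n (fun a => x (pl.getD a 0)) D i' j' ub R := by
  unfold okl okp at hok
  simp only [Bool.and_eq_true, List.all_eq_true, List.mem_range, decide_eq_true_eq,
    Bool.or_eq_true, Bool.not_eq_true', decide_eq_false_iff_not, List.isPerm_iff] at hok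
  obtain ⟨⟨⟨⟨hp, hi⟩, h7⟩, hR⟩, hLR⟩ := hok
  set p : ℕ → ℕ := fun a => pl.getD a 0 with hpd
  have hi' : ∀ a < 6 + n, ∀ b < 6 + n, p a = p b → a = b := by
    intro a ha b hb he
    rcases hi a ha b hb with h1 | h1
    · exact h1
    · exact absurd he h1
  obtain ⟨i', j', hK⟩ := h.toCfK.permX (p := p) hp hi' h7
  refine ⟨i', j', hK, ?_, h.kle⟩
  have h64 : 64 ≤ 2 ^ (6 + n) := by
    calc 64 = 2 ^ 6 := by norm_num
      _ ≤ 2 ^ (6 + n) := Nat.pow_le_pow_right (by norm_num) (by omega)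
  refine cnt_perm (L := 7 :: 56 :: L) hp hi' ?_ ?_ h.cnt
  · intro A hA
    rw [List.mem_cons, List.mem_cons] at hA
    rcases hA with rfl | rfl | hA
    · omega
    · omega
    · exact hR A hA
  · rw [List.map_cons, List.map_cons]
    rcases h7 with ⟨h7, h56⟩ | ⟨h7, h56⟩
    · rw [h7, h56]
      exact (hLR.cons 56).cons 7
    · rw [h7, h56]
      exact ((hLR.cons 56).cons 7).trans (List.Perm.swap _ _ _)

/-- the components permuted, explicit. -/
theorem CfI.permC2 (h : CfI B Q n x D i j ub L) (ql : List ℕ)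
    (hq : ∀ a < 2 + n, ql.getD a 0 < 2 + n)
    (hi : ∀ a < 2 + n, ∀ b < 2 + n, ql.getD a 0 = ql.getD b 0 → a = b)
    (hub : ∀ a < 2 + n, ub.getD (ql.getD a 0) 0 = ub.getD a 0) :
    CfI B Q n x (fun a => D (ql.getD a 0)) i j ub L where
  toCfK := h.toCfK.permC (q := fun a => ql.getD a 0) hq hi
  cnt := h.cnt
  kle := fun a ha => by
    rw [← hub a ha]
    exact h.kle _ (hq a ha)

/-- a labelling which maximises a bounded weight. -/
theorem CfI.exists_max (h : CfI B Q n x D i j ub L) (W : (ℕ → ℕ → ℕ) → ℕ) (M : ℕ)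
    (hW : ∀ e : ℕ → ℕ → ℕ, (∀ c, ∀ a < 6 + n, e c a ≤ 5) → W e ≤ M) :
    ∃ x' D' i' j', CfI B Q n x' D' i' j' ub L ∧
      ∀ x'' D'' i'' j'', CfI B Q n x'' D'' i'' j'' ub L → W (eh B x'' D'') ≤ W (eh B x' D') := by
  classical
  set P : ℕ → Prop := fun w => ∃ x' D' i' j', CfI B Q n x' D' i' j' ub L ∧ W (eh B x' D') = w
    with hP
  have hb : ∀ w, P w → w ≤ M := by
    rintro w ⟨x', D', i', j', h1, rfl⟩
    exact hW _ fun c a ha => h1.eh_le ha
  have h0 : P (W (eh B x D)) := ⟨x, D, i, j, h, rfl⟩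
  have hs : P (Nat.findGreatest P M) := Nat.findGreatest_spec (hb _ h0) h0
  obtain ⟨x', D', i', j', h1, h2⟩ := hs
  refine ⟨x', D', i', j', h1, fun x'' D'' i'' j'' h3 => ?_⟩
  rw [h2]
  have h4 : P (W (eh B x'' D'')) := ⟨x'', D'', i'', j'', h3, rfl⟩
  exact Nat.le_findGreatest (hb _ h4) h4

/-- the sorted pairs: `(d, b, c, a)` says that the number at `(d, b)` is at most the number
at `(c, a)`. -/
def srtl (n : ℕ) (ub : List ℕ) : List (ℕ × ℕ × ℕ × ℕ) :=
  [(0, 1, 0, 0), (0, 2, 0, 1), (0, 4, 0, 3), (0, 5, 0, 4), (0, 3, 0, 0)] ++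
  (if 1 ≤ n ∧ ub.getD 0 0 = ub.getD 1 0 then [(1, 6, 0, 6)] else []) ++
  (if 1 ≤ n ∧ ub.getD 1 0 = ub.getD 2 0 then [(2, 6, 1, 6)] else []) ++
  (if n = 2 then [(3, 7, 3, 6)] else [])

/-- the weight of a labelling. -/
def wto (n : ℕ) (e : ℕ → ℕ → ℕ) : ℕ :=
  (if n = 2 then 1000000 * e 3 6 else 0) + (if 1 ≤ n then 10000 * (2 * e 0 6 + e 1 6) else 0) +
    100 * (2 * e 0 0 + e 0 1 + 2 * e 0 3 + e 0 4) + e 0 0

theorem wto_le {e : ℕ → ℕ → ℕ} (hn : n ≤ 2) (he : ∀ c, ∀ a < 6 + n, e c a ≤ 5) :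
    wto n e ≤ 6000000 := by
  have k0 := he 0 0 (by omega)
  have k1 := he 0 1 (by omega)
  have k3 := he 0 3 (by omega)
  have k4 := he 0 4 (by omega)
  unfold wto
  by_cases g1 : n = 2
  · have := he 3 6 (by omega)
    have := he 0 6 (by omega)
    have := he 1 6 (by omega)
    rw [if_pos g1, if_pos (show 1 ≤ n by omega)]
    omega
  · rw [if_neg g1]
    by_cases g2 : 1 ≤ n
    · have := he 0 6 (by omega)
      have := he 1 6 (by omega)
      rw [if_pos g2]
      omega
    · rw [if_neg g2]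
      omega

theorem okl_nil {N : ℕ} {pl : List ℕ} (h : okp N pl = true) : okl N pl [] [] = true := by
  unfold okl
  rw [h]
  rfl

/-- a labelling which is maximal satisfies all the inequalities. -/
theorem CfI.ord_max (h : CfI B Q n x D i j ub [])
    (hmax : ∀ x'' D'' i'' j'', CfI B Q n x'' D'' i'' j'' ub [] →
      wto n (eh B x'' D'') ≤ wto n (eh B x D)) :
    (eh B x D 0 1 ≤ eh B x D 0 0 ∧ eh B x D 0 2 ≤ eh B x D 0 1 ∧ eh B x D 0 4 ≤ eh B x D 0 3 ∧
      eh B x D 0 5 ≤ eh B x D 0 4 ∧ eh B x D 0 3 ≤ eh B x D 0 0) ∧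
    (1 ≤ n → ub.getD 0 0 = ub.getD 1 0 → eh B x D 1 6 ≤ eh B x D 0 6) ∧
    (1 ≤ n → ub.getD 1 0 = ub.getD 2 0 → eh B x D 2 6 ≤ eh B x D 1 6) ∧
    (n = 2 → eh B x D 3 7 ≤ eh B x D 3 6) := by
  have hn := h.n2
  have hb : ∀ c, ∀ a < 6 + n, eh B x D c a ≤ 5 := fun c a ha => h.eh_le ha
  set e := eh B x D with he
  have hp : ∀ pl : List ℕ, okp (6 + n) pl = true →
      wto n (fun c a => e c (pl.getD a 0)) ≤ wto n e := by
    intro pl hok
    obtain ⟨i'', j'', h2⟩ := h.permX2 pl (okl_nil hok)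
    exact hmax _ _ _ _ h2
  have hc : ∀ ql : List ℕ, (∀ a < 2 + n, ql.getD a 0 < 2 + n) →
      (∀ a < 2 + n, ∀ b < 2 + n, ql.getD a 0 = ql.getD b 0 → a = b) →
      (∀ a < 2 + n, ub.getD (ql.getD a 0) 0 = ub.getD a 0) →
      wto n (fun c a => e (ql.getD c 0) a) ≤ wto n e := fun ql a1 a2 a3 =>
    hmax _ _ _ _ (h.permC2 ql a1 a2 a3)
  clear_value e
  clear hmax he
  have b00 := hb 0 0 (by omega)
  have b01 := hb 0 1 (by omega)
  have b02 := hb 0 2 (by omega)
  have b03 := hb 0 3 (by omega)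
  have b04 := hb 0 4 (by omega)
  have b05 := hb 0 5 (by omega)
  have b10 := hb 1 0 (by omega)
  have b11 := hb 1 1 (by omega)
  have b13 := hb 1 3 (by omega)
  have b14 := hb 1 4 (by omega)
  have hn3 : n = 0 ∨ n = 1 ∨ n = 2 := by omega
  rcases hn3 with rfl | rfl | rfl
  · have g1 := hp [1, 0, 2, 3, 4, 5] (by decide)
    have g2 := hp [0, 2, 1, 3, 4, 5] (by decide)
    have g3 := hp [0, 1, 2, 4, 3, 5] (by decide)
    have g4 := hp [0, 1, 2, 3, 5, 4] (by decide)
    have g5 := hp [3, 4, 5, 0, 1, 2] (by decide)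
    simp [wto] at g1 g2 g3 g4 g5
    refine ⟨⟨by omega, by omega, by omega, by omega, by omega⟩, by omega, by omega, by omega⟩
  · have g1 := hp [1, 0, 2, 3, 4, 5, 6] (by decide)
    have g2 := hp [0, 2, 1, 3, 4, 5, 6] (by decide)
    have g3 := hp [0, 1, 2, 4, 3, 5, 6] (by decide)
    have g4 := hp [0, 1, 2, 3, 5, 4, 6] (by decide)
    have g5 := hp [3, 4, 5, 0, 1, 2, 6] (by decide)
    simp [wto] at g1 g2 g3 g4 g5
    have b06 := hb 0 6 (by omega)
    have b16 := hb 1 6 (by omega)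
    have b26 := hb 2 6 (by omega)
    refine ⟨⟨by omega, by omega, by omega, by omega, by omega⟩, fun _ hu => ?_, fun _ hu => ?_,
      by omega⟩
    · have g6 := hc [1, 0, 2] (by decide) (by decide) (by
        intro a ha
        interval_cases a
        · exact hu.symm
        · exact hu
        · rfl)
      simp [wto] at g6
      omega
    · have g6 := hc [0, 2, 1] (by decide) (by decide) (by
        intro a ha
        interval_cases a
        · rfl
        · exact hu.symm
        · exact hu)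
      simp [wto] at g6
      omega
  · have g1 := hp [1, 0, 2, 3, 4, 5, 6, 7] (by decide)
    have g2 := hp [0, 2, 1, 3, 4, 5, 6, 7] (by decide)
    have g3 := hp [0, 1, 2, 4, 3, 5, 6, 7] (by decide)
    have g4 := hp [0, 1, 2, 3, 5, 4, 6, 7] (by decide)
    have g5 := hp [3, 4, 5, 0, 1, 2, 6, 7] (by decide)
    have g7 := hp [0, 1, 2, 3, 4, 5, 7, 6] (by decide)
    simp [wto] at g1 g2 g3 g4 g5 g7
    have b06 := hb 0 6 (by omega)
    have b16 := hb 1 6 (by omega)
    have b26 := hb 2 6 (by omega)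
    have b36 := hb 3 6 (by omega)
    have b07 := hb 0 7 (by omega)
    have b17 := hb 1 7 (by omega)
    refine ⟨⟨by omega, by omega, by omega, by omega, by omega⟩, fun _ hu => ?_, fun _ hu => ?_,
      fun _ => by omega⟩
    · have g6 := hc [1, 0, 2, 3] (by decide) (by decide) (by
        intro a ha
        interval_cases a
        · exact hu.symm
        · exact hu
        · rfl
        · rfl)
      simp [wto] at g6
      omega
    · have g6 := hc [0, 2, 1, 3] (by decide) (by decide) (by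
        intro a ha
        interval_cases a
        · rfl
        · exact hu.symm
        · exact hu
        · rfl)
      simp [wto] at g6
      omega

/-- **an ordered labelling.** -/
theorem CfI.exists_ord (h : CfI B Q n x D i j ub []) :
    ∃ x' D' i' j', CfI B Q n x' D' i' j' ub [] ∧ Srt (srtl n ub) (ecB B x' (6 + n) D') := by
  have hn := h.n2
  obtain ⟨x', D', i', j', h1, hmax⟩ := h.exists_max (wto n) 6000000 fun e he => wto_le hn he
  refine ⟨x', D', i', j', h1, ?_⟩
  obtain ⟨⟨k1, k2, k3, k4, k5⟩, k6, k7, k8⟩ := h1.ord_max hmax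
  have key : ∀ c a d b : ℕ, a < 6 + n → b < 6 + n → eh B x' D' d b ≤ eh B x' D' c a →
      ecB B x' (6 + n) D' d (2 ^ b) ≤ ecB B x' (6 + n) D' c (2 ^ a) := by
    intro c a d b ha hb' hh
    rwa [ecB_two_pow ha, ecB_two_pow hb']
  intro t ht
  unfold srtl at ht
  rw [List.mem_append, List.mem_append, List.mem_append] at ht
  rcases ht with ((ht | ht) | ht) | ht
  · simp only [List.mem_cons, List.not_mem_nil, or_false] at ht
    rcases ht with rfl | rfl | rfl | rfl | rfl
    · exact key 0 0 0 1 (by omega) (by omega) k1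
    · exact key 0 1 0 2 (by omega) (by omega) k2
    · exact key 0 3 0 4 (by omega) (by omega) k3
    · exact key 0 4 0 5 (by omega) (by omega) k4
    · exact key 0 0 0 3 (by omega) (by omega) k5
  · split_ifs at ht with hh
    · rw [List.mem_singleton] at ht
      subst ht
      exact key 0 6 1 6 (by omega) (by omega) (k6 hh.1 hh.2)
    · simp at ht
  · split_ifs at ht with hh
    · rw [List.mem_singleton] at ht
      subst ht
      exact key 1 6 2 6 (by omega) (by omega) (k7 hh.1 hh.2)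
    · simp at ht
  · split_ifs at ht with hh
    · rw [List.mem_singleton] at ht
      subst ht
      exact key 3 6 3 7 (by omega) (by omega) (k8 hh)
    · simp at ht

end Pool.Agent.Hyp6
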