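import Pool.Agent.Hyp6.CfGb
import Pool.Agent.Hyp6.CfO

/-!
# HYP6 CFLO: instances with an explicit leaf and an ordered labelling

The points of the two full blocks may be relabelled so that the numbers of hits of the leaf `C 0` are
sorted, and the components `1`, `2` so that their numbers of hits of the point `6` are sorted when
their bounds agree and `r = 3`. `instLS`: the check of an instance with these facts; `CfL.absurd_srt`:
contradiction.
-/

set_option autoImplicit false

namespace Pool.Agent.Hyp6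

open Finset Pool.Agent.Hyp5 Rup

universe u v

variable {V : Type v} [DecidableEq V] {ι : Type u} [Fintype ι] {B : ι → Finset V}
variable {Q : Finset V} {N n r : ℕ} {x : ℕ → V} {C : ℕ → Finset V} {ub : List ℕ} {sl H : ℕ}

/-- the points permuted. -/
theorem Ci.permX (h : Ci B Q N r x C [7, 56]) (pl : List ℕ) (hok : okp N pl = true) :
    Ci B Q N r (fun a => x (pl.getD a 0)) C [7, 56] := by
  unfold okp at hok
  simp only [Bool.and_eq_true, List.all_eq_true, List.mem_range, decide_eq_true_eq,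
    Bool.or_eq_true, Bool.not_eq_true', decide_eq_false_iff_not] at hok
  obtain ⟨⟨hp, hi⟩, h7⟩ := hok
  set p : ℕ → ℕ := fun a => pl.getD a 0 with hpd
  have hi' : ∀ a < N, ∀ b < N, p a = p b → a = b := by
    intro a ha b hb he
    rcases hi a ha b hb with h1 | h1
    · exact h1
    · exact absurd he h1
  have hbit : ∀ A, ∀ a < N, A.testBit a = false → (pmk p N A).testBit (p a) = false := by
    intro A a ha hA
    by_contra hcon
    rw [Bool.not_eq_false] at hcon
    obtain ⟨b, hb, hAb, he⟩ := (testBit_pmk p A (p a) N).1 hcon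
    have := hi' b hb a ha he
    subst this
    rw [hA] at hAb
    simp at hAb
  have hL7 : List.Perm [7, 56] ([7, 56].map (pmk p N)) := by
    rw [List.map_cons, List.map_cons, List.map_nil]
    rcases h7 with ⟨h7, h56⟩ | ⟨h7, h56⟩
    · rw [h7, h56]
    · rw [h7, h56]
      exact List.Perm.swap _ _ _
  constructor
  · exact h.cf.permX hp hi'
  · exact h.N8
  · exact h.r4
  · exact h.N6
  · exact h.i7
  · exact h.i56
  · exact h.insN
  · exact cnt_perm hp hi' h.insN hL7 h.cnt
  · intro S A hS hA hne hSr hAN hor hsz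
    have hAm : (A.map p).Nodup := by
      rw [List.nodup_map_iff_inj_on hA]
      intro a ha b hb he
      exact hi' a (hAN a ha) b (hAN b hb) he
    have hor' : (∀ b ∈ A.map p, (7).testBit b = false) ∨ ∀ b ∈ A.map p, (56).testBit b = false := by
      rcases h7 with ⟨h7, h56⟩ | ⟨h7, h56⟩
      · rcases hor with hor | hor
        · left
          intro b hb
          obtain ⟨a, ha, rfl⟩ := List.mem_map.1 hb
          have := hbit 7 a (hAN a ha) (hor a ha)
          rwa [h7] at this
        · right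
          intro b hb
          obtain ⟨a, ha, rfl⟩ := List.mem_map.1 hb
          have := hbit 56 a (hAN a ha) (hor a ha)
          rwa [h56] at this
      · rcases hor with hor | hor
        · right
          intro b hb
          obtain ⟨a, ha, rfl⟩ := List.mem_map.1 hb
          have := hbit 7 a (hAN a ha) (hor a ha)
          rwa [h7] at this
        · left
          intro b hb
          obtain ⟨a, ha, rfl⟩ := List.mem_map.1 hb
          have := hbit 56 a (hAN a ha) (hor a ha)
          rwa [h56] at this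
    obtain ⟨s, hs, b, hb, h1⟩ := h.hall S (A.map p) hS hAm hne hSr (by
      intro b hb
      obtain ⟨a, ha, rfl⟩ := List.mem_map.1 hb
      exact hp a (hAN a ha)) hor' (by rwa [List.length_map])
    obtain ⟨a, ha, rfl⟩ := List.mem_map.1 hb
    refine ⟨s, hs, a, ha, ?_⟩
    rw [ecB_two_pow (hAN a ha)]
    rw [ecB_two_pow (hp a (hAN a ha))] at h1
    exact h1

/-- the components permuted. -/
theorem Ci.permC {ins : List ℕ} (h : Ci B Q N r x C ins) {q : ℕ → ℕ} (hq : ∀ a < r, q a < r)
    (hi : ∀ a < r, ∀ b < r, q a = q b → a = b) : Ci B Q N r x (fun a => C (q a)) ins where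
  cf := h.cf.permC hq hi
  N8 := h.N8
  r4 := h.r4
  N6 := h.N6
  i7 := h.i7
  i56 := h.i56
  insN := h.insN
  cnt := h.cnt
  hall := by
    intro S A hS hA hne hSr hAN hor hsz
    obtain ⟨s, hs, a, ha, h1⟩ := h.hall (S.map q) A (by
      rw [List.nodup_map_iff_inj_on hS]
      intro a ha b hb he
      exact hi a (hSr a ha) b (hSr b hb) he) hA (by
      intro h0
      exact hne (List.map_eq_nil_iff.1 h0)) (by
      intro b hb
      obtain ⟨a, ha, rfl⟩ := List.mem_map.1 hb
      exact hq a (hSr a ha)) hAN hor (by rwa [List.length_map])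
    obtain ⟨s', hs', rfl⟩ := List.mem_map.1 hs
    exact ⟨s', hs', a, ha, h1⟩

/-- a configuration with an explicit leaf, the six points permuted. -/
theorem CfL.permX (h : CfL B Q n r x C ub [] sl H) (pl : List ℕ) (hok : okp (6 + n) pl = true)
    (h6 : ∀ a < 6, pl.getD a 0 < 6) (h66 : 1 ≤ n → pl.getD 6 0 = 6)
    (h77 : n = 2 → pl.getD 7 0 = 7) : CfL B Q n r (fun a => x (pl.getD a 0)) C ub [] sl H := by
  have hok' := hok
  unfold okp at hok'
  simp only [Bool.and_eq_true, List.all_eq_true, List.mem_range, decide_eq_true_eq,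
    Bool.or_eq_true, Bool.not_eq_true', decide_eq_false_iff_not] at hok'
  obtain ⟨⟨hp, hi⟩, -⟩ := hok'
  have hi' : ∀ a < 6 + n, ∀ b < 6 + n, pl.getD a 0 = pl.getD b 0 → a = b := by
    intro a ha b hb he
    rcases hi a ha b hb with h1 | h1
    · exact h1
    · exact (h1 he).elim
  have he : ∀ c, ∀ a < 6 + n, ecB B (fun a => x (pl.getD a 0)) (6 + n) C c (2 ^ a) =
      ecB B x (6 + n) C c (2 ^ (pl.getD a 0)) := by
    intro c a ha
    rw [ecB_two_pow ha, ecB_two_pow (hp a ha)]
    rfl
  refine { toCfR := ⟨h.ci.permX pl hok, h.ihe, h.ihr, h.r2, h.val⟩, slot := ?_, low := ?_,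
           c6 := ?_, c7 := ?_ }
  · have h1 := h.slot
    rw [← sum_pre (m := 6 + n) (q := fun a => pl.getD a 0) hp hi'
      (fun a => ecB B x (6 + n) C 0 (2 ^ a))] at h1
    rw [sum_congr rfl fun a ha => he 0 a (mem_range.1 ha)]
    exact h1
  · have h1 := h.low
    rw [← sum_pre (m := 6) (q := fun a => pl.getD a 0) h6
      (fun a ha b hb hh => hi' a (by omega) b (by omega) hh)
      (fun a => ecB B x (6 + n) C 0 (2 ^ a))] at h1
    rw [sum_congr rfl fun a ha => he 0 a (by have := mem_range.1 ha; omega)]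
    exact h1
  · intro hn
    rw [he 0 6 (by omega), h66 hn]
    exact h.c6 hn
  · intro hn
    rw [he 0 7 (by omega), h77 hn]
    exact h.c7 hn

/-- a configuration with an explicit leaf, the other components permuted. -/
theorem CfL.permC (h : CfL B Q n r x C ub [] sl H) {q : ℕ → ℕ} (hq : ∀ a < r, q a < r)
    (hi : ∀ a < r, ∀ b < r, q a = q b → a = b) (h0 : q 0 = 0)
    (hub : ∀ a < r, ub.getD (q a) 0 = ub.getD a 0) :
    CfL B Q n r x (fun a => C (q a)) ub [] sl H := by
  have he : ∀ a, ecB B x (6 + n) (fun a => C (q a)) 0 a = ecB B x (6 + n) C 0 a := by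
    intro a
    unfold ecB
    simp only [h0]
  refine { toCfR := ⟨h.ci.permC hq hi, h.ihe, h.ihr, h.r2, fun a ha => ?_⟩, slot := ?_, low := ?_,
           c6 := ?_, c7 := ?_ }
  · rw [← hub a ha]
    exact h.val _ (hq a ha)
  · simp only [he]
    exact h.slot
  · simp only [he]
    exact h.low
  · intro hn
    rw [he]
    exact h.c6 hn
  · intro hn
    rw [he]
    exact h.c7 hn

theorem CfL.eh_le (h : CfL B Q n r x C ub [] sl H) {c a : ℕ} (ha : a < 6 + n) :
    eh B x C c a ≤ 5 := by
  rw [← ecB_two_pow (N := 6 + n) ha]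
  unfold ecB
  rw [← h.ci.cf.reg (x a) (h.ci.cf.xQ a ha)]
  refine card_le_card fun k hk => ?_
  rw [mem_cxs_bit ha] at hk
  simp [hk.2]

/-- the sorted pairs. -/
def srtL (n r : ℕ) (ub : List ℕ) : List (ℕ × ℕ × ℕ × ℕ) :=
  [(0, 1, 0, 0), (0, 2, 0, 1), (0, 4, 0, 3), (0, 5, 0, 4), (0, 3, 0, 0)] ++
  (if 1 ≤ n ∧ r = 3 ∧ ub.getD 1 0 = ub.getD 2 0 then [(2, 6, 1, 6)] else [])

/-- the weight of a labelling. -/
def wtL (n : ℕ) (e : ℕ → ℕ → ℕ) : ℕ :=
  (if 1 ≤ n then 10000 * e 1 6 else 0) + 100 * (2 * e 0 0 + e 0 1 + 2 * e 0 3 + e 0 4) + e 0 0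

theorem wtL_le {e : ℕ → ℕ → ℕ} (he : ∀ c, ∀ a < 6 + n, e c a ≤ 5) : wtL n e ≤ 6000000 := by
  have k0 := he 0 0 (by omega)
  have k1 := he 0 1 (by omega)
  have k3 := he 0 3 (by omega)
  have k4 := he 0 4 (by omega)
  unfold wtL
  by_cases g2 : 1 ≤ n
  · have := he 1 6 (by omega)
    rw [if_pos g2]
    omega
  · rw [if_neg g2]
    omega

/-- a labelling which maximises the weight. -/
theorem CfL.exists_max (h : CfL B Q n r x C ub [] sl H) :
    ∃ x' C', CfL B Q n r x' C' ub [] sl H ∧
      ∀ x'' C'', CfL B Q n r x'' C'' ub [] sl H → wtL n (eh B x'' C'') ≤ wtL n (eh B x' C') := by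
  classical
  set P : ℕ → Prop := fun w => ∃ x' C', CfL B Q n r x' C' ub [] sl H ∧ wtL n (eh B x' C') = w
    with hP
  have hb : ∀ w, P w → w ≤ 6000000 := by
    rintro w ⟨x', C', h1, rfl⟩
    exact wtL_le fun c a ha => h1.eh_le ha
  have h0 : P (wtL n (eh B x C)) := ⟨x, C, h, rfl⟩
  have hs : P (Nat.findGreatest P 6000000) := Nat.findGreatest_spec (hb _ h0) h0
  obtain ⟨x', C', h1, h2⟩ := hs
  refine ⟨x', C', h1, fun x'' C'' h3 => ?_⟩
  rw [h2]
  have h4 : P (wtL n (eh B x'' C'')) := ⟨x'', C'', h3, rfl⟩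
  exact Nat.le_findGreatest (hb _ h4) h4

/-- a labelling which is maximal satisfies all the inequalities. -/
theorem CfL.ord_max (h : CfL B Q n r x C ub [] sl H)
    (hmax : ∀ x'' C'', CfL B Q n r x'' C'' ub [] sl H → wtL n (eh B x'' C'') ≤ wtL n (eh B x C)) :
    (eh B x C 0 1 ≤ eh B x C 0 0 ∧ eh B x C 0 2 ≤ eh B x C 0 1 ∧ eh B x C 0 4 ≤ eh B x C 0 3 ∧
      eh B x C 0 5 ≤ eh B x C 0 4 ∧ eh B x C 0 3 ≤ eh B x C 0 0) ∧
    (1 ≤ n → r = 3 → ub.getD 1 0 = ub.getD 2 0 → eh B x C 2 6 ≤ eh B x C 1 6) := by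
  have hn : n ≤ 2 := by have := h.ci.N8; omega
  have hb : ∀ c, ∀ a < 6 + n, eh B x C c a ≤ 5 := fun c a ha => h.eh_le ha
  set e := eh B x C with he
  have hp : ∀ pl : List ℕ, okp (6 + n) pl = true → (∀ a < 6, pl.getD a 0 < 6) →
      (1 ≤ n → pl.getD 6 0 = 6) → (n = 2 → pl.getD 7 0 = 7) →
      wtL n (fun c a => e c (pl.getD a 0)) ≤ wtL n e := fun pl hok a1 a2 a3 =>
    hmax _ _ (h.permX pl hok a1 a2 a3)
  have hc : r = 3 → ub.getD 1 0 = ub.getD 2 0 →
      wtL n (fun c a => e ([0, 2, 1].getD c 0) a) ≤ wtL n e := by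
    intro hr hu
    subst hr
    refine hmax _ _ (h.permC (q := fun a => [0, 2, 1].getD a 0) (by decide) (by decide) rfl ?_)
    intro a ha
    interval_cases a
    · rfl
    · exact hu.symm
    · exact hu
  clear_value e
  clear hmax he
  have b00 := hb 0 0 (by omega)
  have b01 := hb 0 1 (by omega)
  have b02 := hb 0 2 (by omega)
  have b03 := hb 0 3 (by omega)
  have b04 := hb 0 4 (by omega)
  have b05 := hb 0 5 (by omega)
  have hn3 : n = 0 ∨ n = 1 ∨ n = 2 := by omega
  rcases hn3 with rfl | rfl | rfl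
  · have g1 := hp [1, 0, 2, 3, 4, 5] (by decide) (by decide) (by decide) (by decide)
    have g2 := hp [0, 2, 1, 3, 4, 5] (by decide) (by decide) (by decide) (by decide)
    have g3 := hp [0, 1, 2, 4, 3, 5] (by decide) (by decide) (by decide) (by decide)
    have g4 := hp [0, 1, 2, 3, 5, 4] (by decide) (by decide) (by decide) (by decide)
    have g5 := hp [3, 4, 5, 0, 1, 2] (by decide) (by decide) (by decide) (by decide)
    simp [wtL] at g1 g2 g3 g4 g5
    exact ⟨⟨by omega, by omega, by omega, by omega, by omega⟩, by omega⟩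
  · have g1 := hp [1, 0, 2, 3, 4, 5, 6] (by decide) (by decide) (by decide) (by decide)
    have g2 := hp [0, 2, 1, 3, 4, 5, 6] (by decide) (by decide) (by decide) (by decide)
    have g3 := hp [0, 1, 2, 4, 3, 5, 6] (by decide) (by decide) (by decide) (by decide)
    have g4 := hp [0, 1, 2, 3, 5, 4, 6] (by decide) (by decide) (by decide) (by decide)
    have g5 := hp [3, 4, 5, 0, 1, 2, 6] (by decide) (by decide) (by decide) (by decide)
    simp [wtL] at g1 g2 g3 g4 g5
    refine ⟨⟨by omega, by omega, by omega, by omega, by omega⟩, fun _ hr hu => ?_⟩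
    have g6 := hc hr hu
    simp [wtL] at g6
    omega
  · have g1 := hp [1, 0, 2, 3, 4, 5, 6, 7] (by decide) (by decide) (by decide) (by decide)
    have g2 := hp [0, 2, 1, 3, 4, 5, 6, 7] (by decide) (by decide) (by decide) (by decide)
    have g3 := hp [0, 1, 2, 4, 3, 5, 6, 7] (by decide) (by decide) (by decide) (by decide)
    have g4 := hp [0, 1, 2, 3, 5, 4, 6, 7] (by decide) (by decide) (by decide) (by decide)
    have g5 := hp [3, 4, 5, 0, 1, 2, 6, 7] (by decide) (by decide) (by decide) (by decide)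
    simp [wtL] at g1 g2 g3 g4 g5
    refine ⟨⟨by omega, by omega, by omega, by omega, by omega⟩, fun _ hr hu => ?_⟩
    have g6 := hc hr hu
    simp [wtL] at g6
    omega

/-- **an ordered labelling with the same leaf.** -/
theorem CfL.exists_ord (h : CfL B Q n r x C ub [] sl H) :
    ∃ x' C', CfL B Q n r x' C' ub [] sl H ∧ Srt (srtL n r ub) (ecB B x' (6 + n) C') := by
  obtain ⟨x', C', h1, hmax⟩ := h.exists_max
  refine ⟨x', C', h1, ?_⟩
  obtain ⟨⟨k1, k2, k3, k4, k5⟩, k6⟩ := h1.ord_max hmax
  have key : ∀ c a d b : ℕ, a < 6 + n → b < 6 + n → eh B x' C' d b ≤ eh B x' C' c a →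
      ecB B x' (6 + n) C' d (2 ^ b) ≤ ecB B x' (6 + n) C' c (2 ^ a) := by
    intro c a d b ha hb' hh
    rwa [ecB_two_pow ha, ecB_two_pow hb']
  intro t ht
  unfold srtL at ht
  rw [List.mem_append] at ht
  rcases ht with ht | ht
  · simp only [List.mem_cons, List.not_mem_nil, or_false] at ht
    rcases ht with rfl | rfl | rfl | rfl | rfl
    · exact key 0 0 0 1 (by omega) (by omega) k1
    · exact key 0 1 0 2 (by omega) (by omega) k2
    · exact key 0 3 0 4 (by omega) (by omega) k3
    · exact key 0 4 0 5 (by omega) (by omega) k4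
    · exact key 0 0 0 3 (by omega) (by omega) k5
  · split_ifs at ht with hh
    · rw [List.mem_singleton] at ht
      subst ht
      exact key 1 6 2 6 (by omega) (by omega) (k6 hh.1 hh.2.1 hh.2.2)
    · simp at ht

/-- the check of an instance with an explicit leaf and an ordered labelling. -/
noncomputable def instLS (n r : ℕ) (ub : List ℕ) (sl H : ℕ) (so : List (ℕ × ℕ × ℕ × ℕ))
    (base : List Ru) (gv : List Gv)
    (gads : List Gt) (nm : Tr) (cnf : List (List ℕ)) (db : Tr) (prf : List ℕ) : Bool :=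
  base.all (fun q => q.ok (6 + n) r [7, 56] [sl, 2000, 2000, 2000] big4 so) &&
  (gv.all (fun c => c.ok n H) && (gads.all (fun g => g.okV (6 + n) r ub) &&
  (!(cnf.isEmpty) && (okcR cnf &&
    (cmpR nm cnf (clsu r base ++ (gv.map Gv.cl ++ gads.map Gt.cl)) && chk cnf db prf)))))

/-- the check of an instance from its parts. -/
theorem instLS_of {sl H : ℕ} {so : List (ℕ × ℕ × ℕ × ℕ)} {base : List Ru} {gv : List Gv}
    {gads : List Gt} {nm : Tr} {cnf : List (List ℕ)} {db : Tr} {prf : List ℕ}
    (h1 : base.all (fun q => q.ok (6 + n) r [7, 56] [sl, 2000, 2000, 2000] big4 so) = true)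
    (h2 : gv.all (fun c => c.ok n H) = true)
    (h3 : gads.all (fun g => g.okV (6 + n) r ub) = true)
    (h4 : (!(cnf.isEmpty)) = true) (h5 : okcR cnf = true)
    (h6 : cmpR nm cnf (clsu r base ++ (gv.map Gv.cl ++ gads.map Gt.cl)) = true)
    (h7 : chk cnf db prf = true) : instLS n r ub sl H so base gv gads nm cnf db prf = true := by
  unfold instLS
  rw [h1, h2, h3, h4, h5, h6, h7]
  rfl

/-- **a checked instance with an explicit leaf, ordered labelling, has no configuration.** -/
theorem CfL.absurd_srt (h : CfL B Q n r x C ub [] sl H) {so : List (ℕ × ℕ × ℕ × ℕ)}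
    (hso : so = srtL n r ub) {base : List Ru} {gv : List Gv}
    {gads : List Gt} {nm db : Tr} {cnf : List (List ℕ)} {prf : List ℕ}
    (hb : instLS n r ub sl H so base gv gads nm cnf db prf = true) : False := by
  obtain ⟨x', C', h', hs⟩ := h.exists_ord
  rw [← hso] at hs
  unfold instLS at hb
  simp only [Bool.and_eq_true] at hb
  obtain ⟨hbase, hgv, hgads, hne, hok, hcmp, hchk⟩ := hb
  have hnm := h'.ci.nm
  have hnt : Nt (6 + n) r [sl, 2000, 2000, 2000] big4 (ecB B x' (6 + n) C')
      (lcB B x' (6 + n) C') := by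
    constructor
    · intro j hj
      rcases Nat.eq_zero_or_pos j with rfl | h0
      · exact h'.slot
      · have h1 := (hnm.nt).slot j hj
        have h4 := hnm.j4 hj
        rw [big4_get h4] at h1
        interval_cases j <;> exact h1
    · exact (hnm.nt).shr
  refine h'.toCfR.absurd hnt (so := so) hs (base := base) (given := gv.map Gv.cl) ?_
    (gads := gads) (nm := nm) (db := db) (cnf := cnf) (prf := prf) hbase hgads ?_ hok hcmp hchk
  · intro c hc
    obtain ⟨q, hq, rfl⟩ := List.mem_map.1 hc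
    exact h'.gv_sat (List.all_eq_true.1 hgv q hq)
  · rintro rfl
    simp at hne

end Pool.Agent.Hyp6
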