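import Pool.Agent.Hyp6.CfB
import Pool.Agent.Hyp6.CfLO

/-!
# HYP6 CFBO: instances with linear bounds and an ordered labelling

`CfN`: a configuration `CfR` without inner blocks which satisfies bounds; `Bnd.sym`: the bound does not
change when the points of the two full blocks are relabelled. `CfN.absurd_srt`: contradiction from an
instance whose clauses also say that the numbers of hits of the component `s` are sorted.
-/

set_option autoImplicit false

namespace Pool.Agent.Hyp6

open Finset Pool.Agent.Hyp5 Rup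

universe u v

variable {V : Type v} [DecidableEq V] {ι : Type u} [Fintype ι] {B : ι → Finset V}
variable {Q : Finset V} {n r s : ℕ} {x : ℕ → V} {C : ℕ → Finset V} {ub : List ℕ} {bl : List Bnd}

/-- a configuration with bounds. -/
structure CfN (B : ι → Finset V) (Q : Finset V) (n r : ℕ) (x : ℕ → V) (C : ℕ → Finset V)
    (ub : List ℕ) (bl : List Bnd) : Prop extends CfR B Q (6 + n) r x C ub [] where
  bd : ∀ b ∈ bl, b.Holds (ecB B x (6 + n) C)

/-- the generators of the relabellings. -/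
def gnN (n : ℕ) : List (List ℕ) :=
  [[1, 0, 2, 3, 4, 5] ++ (List.range n).map (6 + ·), [0, 2, 1, 3, 4, 5] ++ (List.range n).map (6 + ·),
    [0, 1, 2, 4, 3, 5] ++ (List.range n).map (6 + ·), [0, 1, 2, 3, 5, 4] ++ (List.range n).map (6 + ·),
    [3, 4, 5, 0, 1, 2] ++ (List.range n).map (6 + ·)]

/-- the bound is invariant under the relabelling. -/
def Bnd.inv (N : ℕ) (b : Bnd) (pl : List ℕ) : Bool :=
  b.S.all (fun p => Nat.blt p.2 N) && (b.S.map (fun p => (p.1, pl.getD p.2 0))).isPerm b.S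

/-- the bound is invariant under the relabellings. -/
def Bnd.sym (n : ℕ) (b : Bnd) : Bool := (gnN n).all (fun pl => b.inv (6 + n) pl)

theorem CfN.permX (h : CfN B Q n r x C ub bl) (pl : List ℕ) (hok : okp (6 + n) pl = true)
    (hi : ∀ b ∈ bl, b.inv (6 + n) pl = true) : CfN B Q n r (fun a => x (pl.getD a 0)) C ub bl := by
  have hok' := hok
  unfold okp at hok'
  simp only [Bool.and_eq_true, List.all_eq_true, List.mem_range, decide_eq_true_eq,
    Bool.or_eq_true, Bool.not_eq_true', decide_eq_false_iff_not] at hok'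
  obtain ⟨⟨hp, -⟩, -⟩ := hok'
  have he : ∀ c, ∀ a < 6 + n, ecB B (fun a => x (pl.getD a 0)) (6 + n) C c (2 ^ a) =
      ecB B x (6 + n) C c (2 ^ (pl.getD a 0)) := by
    intro c a ha
    rw [ecB_two_pow ha, ecB_two_pow (hp a ha)]
    rfl
  refine { toCfR := ⟨h.ci.permX pl hok, h.ihe, h.ihr, h.r2, h.val⟩, bd := ?_ }
  intro b hb
  have h1 := h.bd b hb
  have h2 := hi b hb
  unfold Bnd.inv at h2
  rw [Bool.and_eq_true, List.all_eq_true] at h2
  have h3 : b.sm (ecB B (fun a => x (pl.getD a 0)) (6 + n) C) = b.sm (ecB B x (6 + n) C) := by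
    unfold Bnd.sm
    have h4 : (b.S.map (fun p => (p.1, pl.getD p.2 0))).Perm b.S := List.isPerm_iff.1 h2.2
    rw [← (h4.map (fun p => ecB B x (6 + n) C p.1 (2 ^ p.2))).sum_eq, List.map_map]
    congr 1
    refine List.map_congr_left fun p hp => ?_
    have h5 := h2.1 p hp
    rw [Nat.blt_eq] at h5
    exact he p.1 p.2 h5
  unfold Bnd.Holds
  rw [h3]
  exact h1

theorem CfN.eh_le (h : CfN B Q n r x C ub bl) {c a : ℕ} (ha : a < 6 + n) : eh B x C c a ≤ 5 := by
  rw [← ecB_two_pow (N := 6 + n) ha]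
  unfold ecB
  rw [← h.ci.cf.reg (x a) (h.ci.cf.xQ a ha)]
  refine card_le_card fun k hk => ?_
  rw [mem_cxs_bit ha] at hk
  simp [hk.2]

/-- the sorted pairs. -/
def srtN (s : ℕ) : List (ℕ × ℕ × ℕ × ℕ) :=
  [(s, 1, s, 0), (s, 2, s, 1), (s, 4, s, 3), (s, 5, s, 4), (s, 3, s, 0)]

/-- the weight of a labelling. -/
def wtN (s : ℕ) (e : ℕ → ℕ → ℕ) : ℕ := 100 * (2 * e s 0 + e s 1 + 2 * e s 3 + e s 4) + e s 0

theorem wtN_le {e : ℕ → ℕ → ℕ} (he : ∀ c, ∀ a < 6 + n, e c a ≤ 5) : wtN s e ≤ 6000 := by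
  have k0 := he s 0 (by omega)
  have k1 := he s 1 (by omega)
  have k3 := he s 3 (by omega)
  have k4 := he s 4 (by omega)
  unfold wtN
  omega

/-- a labelling which maximises the weight. -/
theorem CfN.exists_max (h : CfN B Q n r x C ub bl) (s : ℕ) :
    ∃ x', CfN B Q n r x' C ub bl ∧
      ∀ x'', CfN B Q n r x'' C ub bl → wtN s (eh B x'' C) ≤ wtN s (eh B x' C) := by
  classical
  set P : ℕ → Prop := fun w => ∃ x', CfN B Q n r x' C ub bl ∧ wtN s (eh B x' C) = w
    with hP
  have hb : ∀ w, P w → w ≤ 6000 := by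
    rintro w ⟨x', h1, rfl⟩
    exact wtN_le fun c a ha => h1.eh_le ha
  have h0 : P (wtN s (eh B x C)) := ⟨x, h, rfl⟩
  have hs : P (Nat.findGreatest P 6000) := Nat.findGreatest_spec (hb _ h0) h0
  obtain ⟨x', h1, h2⟩ := hs
  refine ⟨x', h1, fun x'' h3 => ?_⟩
  rw [h2]
  have h4 : P (wtN s (eh B x'' C)) := ⟨x'', h3, rfl⟩
  exact Nat.le_findGreatest (hb _ h4) h4

/-- a labelling which is maximal satisfies all the inequalities. -/
theorem CfN.ord_max (h : CfN B Q n r x C ub bl) (hsym : bl.all (Bnd.sym n) = true)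
    (hmax : ∀ x'', CfN B Q n r x'' C ub bl → wtN s (eh B x'' C) ≤ wtN s (eh B x C)) :
    eh B x C s 1 ≤ eh B x C s 0 ∧ eh B x C s 2 ≤ eh B x C s 1 ∧ eh B x C s 4 ≤ eh B x C s 3 ∧
      eh B x C s 5 ≤ eh B x C s 4 ∧ eh B x C s 3 ≤ eh B x C s 0 := by
  have hn : n ≤ 2 := by have := h.ci.N8; omega
  have hb : ∀ c, ∀ a < 6 + n, eh B x C c a ≤ 5 := fun c a ha => h.eh_le ha
  set e := eh B x C with he
  have hp : ∀ pl : List ℕ, okp (6 + n) pl = true → pl ∈ gnN n →
      wtN s (fun c a => e c (pl.getD a 0)) ≤ wtN s e := fun pl hok hm =>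
    hmax _ (h.permX pl hok (by
      intro b hb'
      have h1 := List.all_eq_true.1 hsym b hb'
      unfold Bnd.sym at h1
      exact List.all_eq_true.1 h1 pl hm))
  clear_value e
  clear hmax he
  have b00 := hb s 0 (by omega)
  have b01 := hb s 1 (by omega)
  have b02 := hb s 2 (by omega)
  have b03 := hb s 3 (by omega)
  have b04 := hb s 4 (by omega)
  have b05 := hb s 5 (by omega)
  have hn3 : n = 0 ∨ n = 1 ∨ n = 2 := by omega
  rcases hn3 with rfl | rfl | rfl
  · have g1 := hp [1, 0, 2, 3, 4, 5] (by decide) (by decide)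
    have g2 := hp [0, 2, 1, 3, 4, 5] (by decide) (by decide)
    have g3 := hp [0, 1, 2, 4, 3, 5] (by decide) (by decide)
    have g4 := hp [0, 1, 2, 3, 5, 4] (by decide) (by decide)
    have g5 := hp [3, 4, 5, 0, 1, 2] (by decide) (by decide)
    simp [wtN] at g1 g2 g3 g4 g5
    exact ⟨by omega, by omega, by omega, by omega, by omega⟩
  · have g1 := hp [1, 0, 2, 3, 4, 5, 6] (by decide) (by decide)
    have g2 := hp [0, 2, 1, 3, 4, 5, 6] (by decide) (by decide)
    have g3 := hp [0, 1, 2, 4, 3, 5, 6] (by decide) (by decide)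
    have g4 := hp [0, 1, 2, 3, 5, 4, 6] (by decide) (by decide)
    have g5 := hp [3, 4, 5, 0, 1, 2, 6] (by decide) (by decide)
    simp [wtN] at g1 g2 g3 g4 g5
    exact ⟨by omega, by omega, by omega, by omega, by omega⟩
  · have g1 := hp [1, 0, 2, 3, 4, 5, 6, 7] (by decide) (by decide)
    have g2 := hp [0, 2, 1, 3, 4, 5, 6, 7] (by decide) (by decide)
    have g3 := hp [0, 1, 2, 4, 3, 5, 6, 7] (by decide) (by decide)
    have g4 := hp [0, 1, 2, 3, 5, 4, 6, 7] (by decide) (by decide)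
    have g5 := hp [3, 4, 5, 0, 1, 2, 6, 7] (by decide) (by decide)
    simp [wtN] at g1 g2 g3 g4 g5
    exact ⟨by omega, by omega, by omega, by omega, by omega⟩

/-- **an ordered labelling.** -/
theorem CfN.exists_ord (h : CfN B Q n r x C ub bl) (hsym : bl.all (Bnd.sym n) = true) (s : ℕ) :
    ∃ x', CfN B Q n r x' C ub bl ∧ Srt (srtN s) (ecB B x' (6 + n) C) := by
  obtain ⟨x', h1, hmax⟩ := h.exists_max s
  refine ⟨x', h1, ?_⟩
  obtain ⟨k1, k2, k3, k4, k5⟩ := h1.ord_max hsym hmax
  have key : ∀ c a d b : ℕ, a < 6 + n → b < 6 + n → eh B x' C d b ≤ eh B x' C c a →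
      ecB B x' (6 + n) C d (2 ^ b) ≤ ecB B x' (6 + n) C c (2 ^ a) := by
    intro c a d b ha hb' hh
    rwa [ecB_two_pow ha, ecB_two_pow hb']
  intro t ht
  unfold srtN at ht
  simp only [List.mem_cons, List.not_mem_nil, or_false] at ht
  rcases ht with rfl | rfl | rfl | rfl | rfl
  · exact key s 0 s 1 (by omega) (by omega) k1
  · exact key s 1 s 2 (by omega) (by omega) k2
  · exact key s 3 s 4 (by omega) (by omega) k3
  · exact key s 4 s 5 (by omega) (by omega) k4
  · exact key s 0 s 3 (by omega) (by omega) k5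

/-- the check of an instance with bounds and an ordered labelling. -/
noncomputable def instNS (n r : ℕ) (ub : List ℕ) (bl : List Bnd) (so : List (ℕ × ℕ × ℕ × ℕ))
    (base : List Ru) (gb : List Gb)
    (gads : List Gt) (nm : Tr) (cnf : List (List ℕ)) (db : Tr) (prf : List ℕ) : Bool :=
  base.all (fun q => q.ok (6 + n) r [7, 56] big4 big4 so) &&
  (gb.all (fun c => c.ok (6 + n) r bl) && (gads.all (fun g => g.okV (6 + n) r ub) &&
  (!(cnf.isEmpty) && (okcR cnf &&
    (cmpR nm cnf (clsu r base ++ (gb.map (Gb.cl bl) ++ gads.map Gt.cl)) && chk cnf db prf)))))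

/-- the check of an instance from its parts. -/
theorem instNS_of {so : List (ℕ × ℕ × ℕ × ℕ)} {base : List Ru} {gb : List Gb}
    {gads : List Gt} {nm : Tr} {cnf : List (List ℕ)} {db : Tr} {prf : List ℕ}
    (h1 : base.all (fun q => q.ok (6 + n) r [7, 56] big4 big4 so) = true)
    (h2 : gb.all (fun c => c.ok (6 + n) r bl) = true)
    (h3 : gads.all (fun g => g.okV (6 + n) r ub) = true)
    (h4 : (!(cnf.isEmpty)) = true) (h5 : okcR cnf = true)
    (h6 : cmpR nm cnf (clsu r base ++ (gb.map (Gb.cl bl) ++ gads.map Gt.cl)) = true)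
    (h7 : chk cnf db prf = true) : instNS n r ub bl so base gb gads nm cnf db prf = true := by
  unfold instNS
  rw [h1, h2, h3, h4, h5, h6, h7]
  rfl

/-- **a checked instance with bounds, ordered labelling, has no configuration.** -/
theorem CfN.absurd_srt (h : CfN B Q n r x C ub bl) (hsym : bl.all (Bnd.sym n) = true)
    {so : List (ℕ × ℕ × ℕ × ℕ)} (hso : so = srtN s) {base : List Ru} {gb : List Gb}
    {gads : List Gt} {nm db : Tr} {cnf : List (List ℕ)} {prf : List ℕ}
    (hb : instNS n r ub bl so base gb gads nm cnf db prf = true) : False := by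
  obtain ⟨x', h', hs⟩ := h.exists_ord hsym s
  rw [← hso] at hs
  unfold instNS at hb
  simp only [Bool.and_eq_true] at hb
  obtain ⟨hbase, hgb, hgads, hne, hok, hcmp, hchk⟩ := hb
  have hnm := h'.ci.nm
  refine h'.toCfR.absurd hnm.nt (so := so) hs (base := base) (given := gb.map (Gb.cl bl)) ?_
    (gads := gads) (nm := nm) (db := db) (cnf := cnf) (prf := prf) hbase hgads ?_ hok hcmp hchk
  · intro c hc
    obtain ⟨g, hg, rfl⟩ := List.mem_map.1 hc
    have h1 := List.all_eq_true.1 hgb g hg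
    unfold Gb.ok at h1
    rw [Bool.and_eq_true, Nat.blt_eq] at h1
    refine h'.toCfR.bnd_sat (h'.bd _ ?_) h1.2
    rw [← List.getElem_eq_getD (h := h1.1)]
    exact List.getElem_mem h1.1
  · rintro rfl
    simp at hne

end Pool.Agent.Hyp6
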