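import Pool.Agent.Hyp6.CfgR

/-!
# HYP6 CFGU: reduction to finitely many instances, without bounds for the hits

Every configuration `CfK` is, after permutations of the points and the components, one of the explicit
instances `instU` (number `n`, upper bounds for the values of the components, masks of the further inner
blocks). Only the sum of the values (`CfK.tot`) is used.
-/

set_option autoImplicit false

namespace Pool.Agent.Hyp6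

open Finset Pool.Agent.Hyp5

universe u v

/-- the instances without bounds for the hits. -/
def instU : List (ℕ × List ℕ × List ℕ) :=
  [(0, [0, 10], []),
   (0, [2, 8], []),
   (0, [4, 6], []),
   (0, [0, 6], [1]),
   (0, [2, 4], [1]),
   (0, [0, 6], [3]),
   (0, [2, 4], [3]),
   (0, [0, 6], [7]),
   (0, [2, 4], [7]),
   (0, [0, 6], [9]),
   (0, [2, 4], [9]),
   (0, [0, 6], [11]),
   (0, [2, 4], [11]),
   (0, [0, 4], [1, 1]),
   (0, [2, 2], [1, 1]),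
   (0, [0, 2], [1, 2]),
   (0, [0, 2], [1, 3]),
   (0, [0, 2], [1, 6]),
   (0, [0, 2], [1, 7]),
   (0, [0, 2], [1, 8]),
   (0, [0, 2], [1, 9]),
   (0, [0, 2], [1, 10]),
   (0, [0, 2], [1, 11]),
   (0, [0, 2], [1, 14]),
   (0, [0, 2], [1, 24]),
   (0, [0, 2], [1, 25]),
   (0, [0, 2], [1, 26]),
   (0, [0, 2], [1, 56]),
   (0, [0, 2], [3, 3]),
   (0, [0, 2], [3, 5]),
   (0, [0, 2], [3, 7]),
   (0, [0, 2], [3, 9]),
   (0, [0, 2], [3, 11]),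
   (0, [0, 2], [3, 12]),
   (0, [0, 2], [3, 13]),
   (0, [0, 2], [3, 24]),
   (0, [0, 2], [3, 25]),
   (0, [0, 2], [3, 28]),
   (0, [0, 2], [3, 56]),
   (0, [0, 2], [7, 7]),
   (0, [0, 2], [7, 9]),
   (0, [0, 2], [7, 11]),
   (0, [0, 2], [7, 25]),
   (0, [0, 2], [7, 56]),
   (0, [0, 2], [9, 9]),
   (0, [0, 2], [9, 10]),
   (0, [0, 2], [9, 11]),
   (0, [0, 2], [9, 14]),
   (0, [0, 2], [9, 18]),
   (0, [0, 2], [9, 19]),
   (0, [0, 2], [9, 22]),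
   (0, [0, 2], [11, 11]),
   (0, [0, 2], [11, 13]),
   (0, [0, 2], [11, 19]),
   (0, [0, 2], [11, 21]),
   (0, [0, 2], [11, 25]),
   (0, [0, 2], [11, 28]),
   (0, [0, 2], [11, 52]),
   (0, [0, 0], [1, 1, 1]),
   (0, [0, 0], [1, 1, 2]),
   (0, [0, 0], [1, 1, 3]),
   (0, [0, 0], [1, 1, 6]),
   (0, [0, 0], [1, 1, 7]),
   (0, [0, 0], [1, 1, 8]),
   (0, [0, 0], [1, 1, 9]),
   (0, [0, 0], [1, 1, 10]),
   (0, [0, 0], [1, 1, 11]),
   (0, [0, 0], [1, 1, 14]),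
   (0, [0, 0], [1, 1, 24]),
   (0, [0, 0], [1, 1, 25]),
   (0, [0, 0], [1, 1, 26]),
   (0, [0, 0], [1, 1, 56]),
   (1, [0, 0, 6], []),
   (1, [0, 2, 4], []),
   (1, [2, 2, 2], []),
   (1, [0, 0, 2], [1]),
   (1, [0, 0, 2], [3]),
   (1, [0, 0, 2], [7]),
   (1, [0, 0, 2], [9]),
   (1, [0, 0, 2], [11]),
   (1, [0, 0, 2], [64]),
   (1, [0, 0, 2], [65]),
   (1, [0, 0, 2], [67]),
   (1, [0, 0, 2], [73]),
   (1, [0, 0, 0], [1, 1]),
   (1, [0, 0, 0], [64, 64]),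
   (2, [0, 0, 0, 2], [])]

/-- one further inner block, `n = 0`. -/
def tabUA0 : List (ℕ × ℕ × ℕ) :=
  [(1, 0, 1), (2, 12, 1), (3, 0, 3), (4, 24, 1), (5, 6, 3), (6, 18, 3), (7, 0, 7), (8, 36, 1), (9, 0, 9), (10, 12, 9), (11, 0, 11), (12, 24, 9), (13, 6, 11), (14, 18, 11), (16, 48, 1), (17, 2, 9), (18, 14, 9), (19, 2, 11), (20, 26, 9), (21, 8, 11), (22, 20, 11), (24, 36, 3), (25, 36, 11), (26, 38, 11), (28, 40, 11), (32, 60, 1), (33, 4, 9), (34, 16, 9), (35, 4, 11), (36, 28, 9), (37, 10, 11), (38, 22, 11), (40, 42, 3), (41, 42, 11), (42, 44, 11), (44, 46, 11), (48, 54, 3), (49, 54, 11), (50, 56, 11), (52, 58, 11), (56, 36, 7)]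

/-- two further inner blocks, `n = 0`. -/
def tabUB0 : List (ℕ × List (ℕ × ℕ × ℕ × ℕ)) :=
  [(1, [(1, 0, 1, 1), (2, 0, 1, 2), (3, 0, 1, 3), (4, 6, 1, 2), (5, 6, 1, 3), (6, 0, 1, 6), (7, 0, 1, 7), (8, 0, 1, 8), (9, 0, 1, 9), (10, 0, 1, 10), (11, 0, 1, 11), (12, 6, 1, 10), (13, 6, 1, 11), (14, 0, 1, 14), (16, 2, 1, 8), (17, 2, 1, 9), (18, 2, 1, 10), (19, 2, 1, 11), (20, 8, 1, 10), (21, 8, 1, 11), (22, 2, 1, 14), (24, 0, 1, 24), (25, 0, 1, 25), (26, 0, 1, 26), (28, 6, 1, 26), (32, 4, 1, 8), (33, 4, 1, 9), (34, 4, 1, 10), (35, 4, 1, 11), (36, 10, 1, 10), (37, 10, 1, 11), (38, 4, 1, 14), (40, 1, 1, 24), (41, 1, 1, 25), (42, 1, 1, 26), (44, 7, 1, 26), (48, 3, 1, 24), (49, 3, 1, 25), (50, 3, 1, 26), (52, 9, 1, 26), (56, 0, 1, 56)]),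
   (2, [(2, 12, 1, 1), (3, 12, 1, 3), (4, 18, 1, 2), (5, 12, 1, 6), (6, 18, 1, 3), (7, 12, 1, 7), (8, 12, 1, 8), (9, 12, 1, 10), (10, 12, 1, 9), (11, 12, 1, 11), (12, 18, 1, 10), (13, 12, 1, 14), (14, 18, 1, 11), (16, 14, 1, 8), (17, 14, 1, 10), (18, 14, 1, 9), (19, 14, 1, 11), (20, 20, 1, 10), (21, 14, 1, 14), (22, 20, 1, 11), (24, 12, 1, 24), (25, 12, 1, 26), (26, 12, 1, 25), (28, 18, 1, 26), (32, 16, 1, 8), (33, 16, 1, 10), (34, 16, 1, 9), (35, 16, 1, 11), (36, 22, 1, 10), (37, 16, 1, 14), (38, 22, 1, 11), (40, 13, 1, 24), (41, 13, 1, 26), (42, 13, 1, 25), (44, 19, 1, 26), (48, 15, 1, 24), (49, 15, 1, 26), (50, 15, 1, 25), (52, 21, 1, 26), (56, 12, 1, 56)]),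
   (3, [(3, 0, 3, 3), (4, 24, 1, 6), (5, 0, 3, 5), (6, 12, 3, 5), (7, 0, 3, 7), (8, 36, 1, 24), (9, 0, 3, 9), (10, 12, 3, 9), (11, 0, 3, 11), (12, 0, 3, 12), (13, 0, 3, 13), (14, 12, 3, 13), (16, 48, 1, 24), (17, 2, 3, 9), (18, 14, 3, 9), (19, 2, 3, 11), (20, 2, 3, 12), (21, 2, 3, 13), (22, 14, 3, 13), (24, 0, 3, 24), (25, 0, 3, 25), (26, 12, 3, 25), (28, 0, 3, 28), (32, 60, 1, 24), (33, 4, 3, 9), (34, 16, 3, 9), (35, 4, 3, 11), (36, 4, 3, 12), (37, 4, 3, 13), (38, 16, 3, 13), (40, 1, 3, 24), (41, 1, 3, 25), (42, 13, 3, 25), (44, 1, 3, 28), (48, 3, 3, 24), (49, 3, 3, 25), (50, 15, 3, 25), (52, 3, 3, 28), (56, 0, 3, 56)]),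
   (4, [(4, 24, 1, 1), (5, 24, 1, 3), (6, 30, 1, 3), (7, 24, 1, 7), (8, 24, 1, 8), (9, 24, 1, 10), (10, 30, 1, 10), (11, 24, 1, 14), (12, 24, 1, 9), (13, 24, 1, 11), (14, 30, 1, 11), (16, 26, 1, 8), (17, 26, 1, 10), (18, 32, 1, 10), (19, 26, 1, 14), (20, 26, 1, 9), (21, 26, 1, 11), (22, 32, 1, 11), (24, 24, 1, 24), (25, 24, 1, 26), (26, 30, 1, 26), (28, 24, 1, 25), (32, 28, 1, 8), (33, 28, 1, 10), (34, 34, 1, 10), (35, 28, 1, 14), (36, 28, 1, 9), (37, 28, 1, 11), (38, 34, 1, 11), (40, 25, 1, 24), (41, 25, 1, 26), (42, 31, 1, 26), (44, 25, 1, 25), (48, 27, 1, 24), (49, 27, 1, 26), (50, 33, 1, 26), (52, 27, 1, 25), (56, 24, 1, 56)]),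
   (5, [(5, 6, 3, 3), (6, 24, 3, 5), (7, 6, 3, 7), (8, 37, 1, 24), (9, 6, 3, 9), (10, 6, 3, 12), (11, 6, 3, 13), (12, 24, 3, 9), (13, 6, 3, 11), (14, 24, 3, 13), (16, 49, 1, 24), (17, 8, 3, 9), (18, 8, 3, 12), (19, 8, 3, 13), (20, 26, 3, 9), (21, 8, 3, 11), (22, 26, 3, 13), (24, 6, 3, 24), (25, 6, 3, 25), (26, 6, 3, 28), (28, 24, 3, 25), (32, 61, 1, 24), (33, 10, 3, 9), (34, 10, 3, 12), (35, 10, 3, 13), (36, 28, 3, 9), (37, 10, 3, 11), (38, 28, 3, 13), (40, 7, 3, 24), (41, 7, 3, 25), (42, 7, 3, 28), (44, 25, 3, 25), (48, 9, 3, 24), (49, 9, 3, 25), (50, 9, 3, 28), (52, 27, 3, 25), (56, 6, 3, 56)]),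
   (6, [(6, 18, 3, 3), (7, 18, 3, 7), (8, 39, 1, 24), (9, 18, 3, 12), (10, 18, 3, 9), (11, 18, 3, 13), (12, 30, 3, 9), (13, 30, 3, 13), (14, 18, 3, 11), (16, 51, 1, 24), (17, 20, 3, 12), (18, 20, 3, 9), (19, 20, 3, 13), (20, 32, 3, 9), (21, 32, 3, 13), (22, 20, 3, 11), (24, 18, 3, 24), (25, 18, 3, 28), (26, 18, 3, 25), (28, 30, 3, 25), (32, 63, 1, 24), (33, 22, 3, 12), (34, 22, 3, 9), (35, 22, 3, 13), (36, 34, 3, 9), (37, 34, 3, 13), (38, 22, 3, 11), (40, 19, 3, 24), (41, 19, 3, 28), (42, 19, 3, 25), (44, 31, 3, 25), (48, 21, 3, 24), (49, 21, 3, 28), (50, 21, 3, 25), (52, 33, 3, 25), (56, 18, 3, 56)]),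
   (7, [(7, 0, 7, 7), (8, 36, 1, 56), (9, 0, 7, 9), (10, 12, 7, 9), (11, 0, 7, 11), (12, 24, 7, 9), (13, 6, 7, 11), (14, 18, 7, 11), (16, 48, 1, 56), (17, 2, 7, 9), (18, 14, 7, 9), (19, 2, 7, 11), (20, 26, 7, 9), (21, 8, 7, 11), (22, 20, 7, 11), (24, 36, 3, 56), (25, 0, 7, 25), (26, 12, 7, 25), (28, 24, 7, 25), (32, 60, 1, 56), (33, 4, 7, 9), (34, 16, 7, 9), (35, 4, 7, 11), (36, 28, 7, 9), (37, 10, 7, 11), (38, 22, 7, 11), (40, 42, 3, 56), (41, 1, 7, 25), (42, 13, 7, 25), (44, 25, 7, 25), (48, 54, 3, 56), (49, 3, 7, 25), (50, 15, 7, 25), (52, 27, 7, 25), (56, 0, 7, 56)]),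
   (8, [(8, 36, 1, 1), (9, 36, 1, 9), (10, 38, 1, 9), (11, 36, 1, 25), (12, 40, 1, 9), (13, 37, 1, 25), (14, 39, 1, 25), (16, 36, 1, 2), (17, 36, 1, 10), (18, 38, 1, 10), (19, 36, 1, 26), (20, 40, 1, 10), (21, 37, 1, 26), (22, 39, 1, 26), (24, 36, 1, 3), (25, 36, 1, 11), (26, 38, 1, 11), (28, 40, 1, 11), (32, 42, 1, 2), (33, 42, 1, 10), (34, 44, 1, 10), (35, 42, 1, 26), (36, 46, 1, 10), (37, 43, 1, 26), (38, 45, 1, 26), (40, 42, 1, 3), (41, 42, 1, 11), (42, 44, 1, 11), (44, 46, 1, 11), (48, 36, 1, 6), (49, 36, 1, 14), (50, 38, 1, 14), (52, 40, 1, 14), (56, 36, 1, 7)]),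
   (9, [(9, 0, 9, 9), (10, 0, 9, 10), (11, 0, 9, 11), (12, 6, 9, 10), (13, 6, 9, 11), (14, 0, 9, 14), (16, 48, 1, 10), (17, 36, 9, 10), (18, 0, 9, 18), (19, 0, 9, 19), (20, 6, 9, 18), (21, 6, 9, 19), (22, 0, 9, 22), (24, 36, 3, 9), (25, 36, 9, 11), (26, 36, 9, 19), (28, 37, 9, 19), (32, 60, 1, 10), (33, 42, 9, 10), (34, 1, 9, 18), (35, 1, 9, 19), (36, 7, 9, 18), (37, 7, 9, 19), (38, 1, 9, 22), (40, 42, 3, 9), (41, 42, 9, 11), (42, 42, 9, 19), (44, 43, 9, 19), (48, 54, 3, 12), (49, 36, 9, 14), (50, 36, 9, 22), (52, 37, 9, 22), (56, 36, 7, 9)]),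
   (10, [(10, 12, 9, 9), (11, 12, 9, 11), (12, 18, 9, 10), (13, 12, 9, 14), (14, 18, 9, 11), (16, 50, 1, 10), (17, 2, 9, 18), (18, 38, 9, 10), (19, 12, 9, 19), (20, 18, 9, 18), (21, 12, 9, 22), (22, 18, 9, 19), (24, 38, 3, 9), (25, 38, 9, 19), (26, 38, 9, 11), (28, 39, 9, 19), (32, 62, 1, 10), (33, 4, 9, 18), (34, 44, 9, 10), (35, 13, 9, 19), (36, 19, 9, 18), (37, 13, 9, 22), (38, 19, 9, 19), (40, 44, 3, 9), (41, 44, 9, 19), (42, 44, 9, 11), (44, 45, 9, 19), (48, 56, 3, 12), (49, 38, 9, 22), (50, 38, 9, 14), (52, 39, 9, 22), (56, 38, 7, 9)]),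
   (11, [(11, 0, 11, 11), (12, 24, 9, 14), (13, 0, 11, 13), (14, 12, 11, 13), (16, 48, 1, 26), (17, 2, 9, 19), (18, 14, 9, 19), (19, 0, 11, 19), (20, 26, 9, 22), (21, 0, 11, 21), (22, 12, 11, 21), (24, 36, 3, 25), (25, 0, 11, 25), (26, 12, 11, 25), (28, 0, 11, 28), (32, 60, 1, 26), (33, 4, 9, 19), (34, 16, 9, 19), (35, 1, 11, 19), (36, 28, 9, 22), (37, 1, 11, 21), (38, 13, 11, 21), (40, 42, 3, 25), (41, 1, 11, 25), (42, 13, 11, 25), (44, 1, 11, 28), (48, 54, 3, 28), (49, 54, 11, 28), (50, 56, 11, 28), (52, 0, 11, 52), (56, 36, 7, 25)]),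
   (12, [(12, 24, 9, 9), (13, 24, 9, 11), (14, 30, 9, 11), (16, 52, 1, 10), (17, 8, 9, 18), (18, 20, 9, 18), (19, 24, 9, 22), (20, 40, 9, 10), (21, 24, 9, 19), (22, 30, 9, 19), (24, 40, 3, 9), (25, 40, 9, 19), (26, 41, 9, 19), (28, 40, 9, 11), (32, 64, 1, 10), (33, 10, 9, 18), (34, 22, 9, 18), (35, 25, 9, 22), (36, 46, 9, 10), (37, 25, 9, 19), (38, 31, 9, 19), (40, 46, 3, 9), (41, 46, 9, 19), (42, 47, 9, 19), (44, 46, 9, 11), (48, 58, 3, 12), (49, 40, 9, 22), (50, 41, 9, 22), (52, 40, 9, 14), (56, 40, 7, 9)]),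
   (13, [(13, 6, 11, 11), (14, 24, 11, 13), (16, 49, 1, 26), (17, 8, 9, 19), (18, 14, 9, 22), (19, 2, 11, 21), (20, 26, 9, 19), (21, 6, 11, 19), (22, 24, 11, 21), (24, 37, 3, 25), (25, 6, 11, 25), (26, 6, 11, 28), (28, 24, 11, 25), (32, 61, 1, 26), (33, 10, 9, 19), (34, 16, 9, 22), (35, 4, 11, 21), (36, 28, 9, 19), (37, 7, 11, 19), (38, 25, 11, 21), (40, 43, 3, 25), (41, 7, 11, 25), (42, 7, 11, 28), (44, 25, 11, 25), (48, 55, 3, 28), (49, 55, 11, 28), (50, 6, 11, 52), (52, 58, 11, 28), (56, 37, 7, 25)]),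
   (14, [(14, 18, 11, 11), (16, 51, 1, 26), (17, 2, 9, 22), (18, 20, 9, 19), (19, 14, 11, 21), (20, 32, 9, 19), (21, 26, 11, 21), (22, 18, 11, 19), (24, 39, 3, 25), (25, 18, 11, 28), (26, 18, 11, 25), (28, 30, 11, 25), (32, 63, 1, 26), (33, 4, 9, 22), (34, 22, 9, 19), (35, 16, 11, 21), (36, 34, 9, 19), (37, 28, 11, 21), (38, 19, 11, 19), (40, 45, 3, 25), (41, 19, 11, 28), (42, 19, 11, 25), (44, 31, 11, 25), (48, 57, 3, 28), (49, 18, 11, 52), (50, 57, 11, 28), (52, 59, 11, 28), (56, 39, 7, 25)]),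
   (16, [(16, 48, 1, 1), (17, 48, 1, 9), (18, 50, 1, 9), (19, 48, 1, 25), (20, 52, 1, 9), (21, 49, 1, 25), (22, 51, 1, 25), (24, 48, 1, 3), (25, 48, 1, 11), (26, 50, 1, 11), (28, 52, 1, 11), (32, 54, 1, 2), (33, 54, 1, 10), (34, 56, 1, 10), (35, 54, 1, 26), (36, 58, 1, 10), (37, 55, 1, 26), (38, 57, 1, 26), (40, 48, 1, 6), (41, 48, 1, 14), (42, 50, 1, 14), (44, 52, 1, 14), (48, 54, 1, 3), (49, 54, 1, 11), (50, 56, 1, 11), (52, 58, 1, 11), (56, 48, 1, 7)]),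
   (17, [(17, 2, 9, 9), (18, 2, 9, 10), (19, 2, 9, 11), (20, 8, 9, 10), (21, 8, 9, 11), (22, 2, 9, 14), (24, 48, 3, 9), (25, 48, 9, 11), (26, 48, 9, 19), (28, 49, 9, 19), (32, 66, 1, 10), (33, 54, 9, 10), (34, 3, 9, 18), (35, 3, 9, 19), (36, 9, 9, 18), (37, 9, 9, 19), (38, 3, 9, 22), (40, 42, 3, 12), (41, 48, 9, 14), (42, 48, 9, 22), (44, 49, 9, 22), (48, 54, 3, 9), (49, 54, 9, 11), (50, 54, 9, 19), (52, 55, 9, 19), (56, 48, 7, 9)]),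
   (18, [(18, 14, 9, 9), (19, 14, 9, 11), (20, 20, 9, 10), (21, 14, 9, 14), (22, 20, 9, 11), (24, 50, 3, 9), (25, 50, 9, 19), (26, 50, 9, 11), (28, 51, 9, 19), (32, 68, 1, 10), (33, 5, 9, 18), (34, 56, 9, 10), (35, 15, 9, 19), (36, 21, 9, 18), (37, 15, 9, 22), (38, 21, 9, 19), (40, 44, 3, 12), (41, 50, 9, 22), (42, 50, 9, 14), (44, 51, 9, 22), (48, 56, 3, 9), (49, 56, 9, 19), (50, 56, 9, 11), (52, 57, 9, 19), (56, 50, 7, 9)]),
   (19, [(19, 2, 11, 11), (20, 26, 9, 14), (21, 2, 11, 13), (22, 14, 11, 13), (24, 48, 3, 25), (25, 2, 11, 25), (26, 14, 11, 25), (28, 2, 11, 28), (32, 66, 1, 26), (33, 5, 9, 19), (34, 17, 9, 19), (35, 3, 11, 19), (36, 29, 9, 22), (37, 3, 11, 21), (38, 15, 11, 21), (40, 42, 3, 28), (41, 42, 11, 28), (42, 44, 11, 28), (44, 2, 11, 52), (48, 54, 3, 25), (49, 3, 11, 25), (50, 15, 11, 25), (52, 3, 11, 28), (56, 48, 7, 25)]),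
   (20, [(20, 26, 9, 9), (21, 26, 9, 11), (22, 32, 9, 11), (24, 52, 3, 9), (25, 52, 9, 19), (26, 53, 9, 19), (28, 52, 9, 11), (32, 70, 1, 10), (33, 11, 9, 18), (34, 23, 9, 18), (35, 27, 9, 22), (36, 58, 9, 10), (37, 27, 9, 19), (38, 33, 9, 19), (40, 46, 3, 12), (41, 52, 9, 22), (42, 53, 9, 22), (44, 52, 9, 14), (48, 58, 3, 9), (49, 58, 9, 19), (50, 59, 9, 19), (52, 58, 9, 11), (56, 52, 7, 9)]),
   (21, [(21, 8, 11, 11), (22, 26, 11, 13), (24, 49, 3, 25), (25, 8, 11, 25), (26, 8, 11, 28), (28, 26, 11, 25), (32, 67, 1, 26), (33, 11, 9, 19), (34, 17, 9, 22), (35, 5, 11, 21), (36, 29, 9, 19), (37, 9, 11, 19), (38, 27, 11, 21), (40, 43, 3, 28), (41, 43, 11, 28), (42, 8, 11, 52), (44, 46, 11, 28), (48, 55, 3, 25), (49, 9, 11, 25), (50, 9, 11, 28), (52, 27, 11, 25), (56, 49, 7, 25)]),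
   (22, [(22, 20, 11, 11), (24, 51, 3, 25), (25, 20, 11, 28), (26, 20, 11, 25), (28, 32, 11, 25), (32, 69, 1, 26), (33, 5, 9, 22), (34, 23, 9, 19), (35, 17, 11, 21), (36, 35, 9, 19), (37, 29, 11, 21), (38, 21, 11, 19), (40, 45, 3, 28), (41, 20, 11, 52), (42, 45, 11, 28), (44, 47, 11, 28), (48, 57, 3, 25), (49, 21, 11, 28), (50, 21, 11, 25), (52, 33, 11, 25), (56, 51, 7, 25)]),
   (24, [(24, 36, 3, 3), (25, 36, 3, 11), (26, 38, 3, 11), (28, 40, 3, 11), (32, 60, 1, 6), (33, 36, 3, 12), (34, 38, 3, 12), (35, 36, 3, 28), (36, 40, 3, 12), (37, 37, 3, 28), (38, 39, 3, 28), (40, 36, 3, 5), (41, 36, 3, 13), (42, 38, 3, 13), (44, 40, 3, 13), (48, 48, 3, 5), (49, 48, 3, 13), (50, 50, 3, 13), (52, 52, 3, 13), (56, 36, 3, 7)]),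
   (25, [(25, 36, 11, 11), (26, 36, 11, 19), (28, 37, 11, 19), (32, 60, 1, 14), (33, 60, 9, 14), (34, 62, 9, 22), (35, 36, 11, 28), (36, 64, 9, 22), (37, 37, 11, 28), (38, 22, 11, 52), (40, 42, 3, 13), (41, 36, 11, 13), (42, 36, 11, 21), (44, 37, 11, 21), (48, 54, 3, 13), (49, 48, 11, 13), (50, 48, 11, 21), (52, 49, 11, 21), (56, 36, 7, 11)]),
   (26, [(26, 38, 11, 11), (28, 39, 11, 19), (32, 62, 1, 14), (33, 60, 9, 22), (34, 62, 9, 14), (35, 38, 11, 28), (36, 65, 9, 22), (37, 10, 11, 52), (38, 39, 11, 28), (40, 44, 3, 13), (41, 38, 11, 21), (42, 38, 11, 13), (44, 39, 11, 21), (48, 56, 3, 13), (49, 50, 11, 21), (50, 50, 11, 13), (52, 51, 11, 21), (56, 38, 7, 11)]),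
   (28, [(28, 40, 11, 11), (32, 64, 1, 14), (33, 61, 9, 22), (34, 63, 9, 22), (35, 4, 11, 52), (36, 64, 9, 14), (37, 40, 11, 28), (38, 41, 11, 28), (40, 46, 3, 13), (41, 40, 11, 21), (42, 41, 11, 21), (44, 40, 11, 13), (48, 58, 3, 13), (49, 52, 11, 21), (50, 53, 11, 21), (52, 52, 11, 13), (56, 40, 7, 11)]),
   (32, [(32, 60, 1, 1), (33, 60, 1, 9), (34, 62, 1, 9), (35, 60, 1, 25), (36, 64, 1, 9), (37, 61, 1, 25), (38, 63, 1, 25), (40, 60, 1, 3), (41, 60, 1, 11), (42, 62, 1, 11), (44, 64, 1, 11), (48, 66, 1, 3), (49, 66, 1, 11), (50, 68, 1, 11), (52, 70, 1, 11), (56, 60, 1, 7)]),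
   (33, [(33, 4, 9, 9), (34, 4, 9, 10), (35, 4, 9, 11), (36, 10, 9, 10), (37, 10, 9, 11), (38, 4, 9, 14), (40, 60, 3, 9), (41, 60, 9, 11), (42, 60, 9, 19), (44, 61, 9, 19), (48, 66, 3, 9), (49, 66, 9, 11), (50, 66, 9, 19), (52, 67, 9, 19), (56, 60, 7, 9)]),
   (34, [(34, 16, 9, 9), (35, 16, 9, 11), (36, 22, 9, 10), (37, 16, 9, 14), (38, 22, 9, 11), (40, 62, 3, 9), (41, 62, 9, 19), (42, 62, 9, 11), (44, 63, 9, 19), (48, 68, 3, 9), (49, 68, 9, 19), (50, 68, 9, 11), (52, 69, 9, 19), (56, 62, 7, 9)]),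
   (35, [(35, 4, 11, 11), (36, 28, 9, 14), (37, 4, 11, 13), (38, 16, 11, 13), (40, 60, 3, 25), (41, 4, 11, 25), (42, 16, 11, 25), (44, 4, 11, 28), (48, 66, 3, 25), (49, 5, 11, 25), (50, 17, 11, 25), (52, 5, 11, 28), (56, 60, 7, 25)]),
   (36, [(36, 28, 9, 9), (37, 28, 9, 11), (38, 34, 9, 11), (40, 64, 3, 9), (41, 64, 9, 19), (42, 65, 9, 19), (44, 64, 9, 11), (48, 70, 3, 9), (49, 70, 9, 19), (50, 71, 9, 19), (52, 70, 9, 11), (56, 64, 7, 9)]),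
   (37, [(37, 10, 11, 11), (38, 28, 11, 13), (40, 61, 3, 25), (41, 10, 11, 25), (42, 10, 11, 28), (44, 28, 11, 25), (48, 67, 3, 25), (49, 11, 11, 25), (50, 11, 11, 28), (52, 29, 11, 25), (56, 61, 7, 25)]),
   (38, [(38, 22, 11, 11), (40, 63, 3, 25), (41, 22, 11, 28), (42, 22, 11, 25), (44, 34, 11, 25), (48, 69, 3, 25), (49, 23, 11, 28), (50, 23, 11, 25), (52, 35, 11, 25), (56, 63, 7, 25)]),
   (40, [(40, 42, 3, 3), (41, 42, 3, 11), (42, 44, 3, 11), (44, 46, 3, 11), (48, 60, 3, 5), (49, 60, 3, 13), (50, 62, 3, 13), (52, 64, 3, 13), (56, 42, 3, 7)]),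
   (41, [(41, 42, 11, 11), (42, 42, 11, 19), (44, 43, 11, 19), (48, 66, 3, 13), (49, 60, 11, 13), (50, 60, 11, 21), (52, 61, 11, 21), (56, 42, 7, 11)]),
   (42, [(42, 44, 11, 11), (44, 45, 11, 19), (48, 68, 3, 13), (49, 62, 11, 21), (50, 62, 11, 13), (52, 63, 11, 21), (56, 44, 7, 11)]),
   (44, [(44, 46, 11, 11), (48, 70, 3, 13), (49, 64, 11, 21), (50, 65, 11, 21), (52, 64, 11, 13), (56, 46, 7, 11)]),
   (48, [(48, 54, 3, 3), (49, 54, 3, 11), (50, 56, 3, 11), (52, 58, 3, 11), (56, 54, 3, 7)]),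
   (49, [(49, 54, 11, 11), (50, 54, 11, 19), (52, 55, 11, 19), (56, 54, 7, 11)]),
   (50, [(50, 56, 11, 11), (52, 57, 11, 19), (56, 56, 7, 11)]),
   (52, [(52, 58, 11, 11), (56, 58, 7, 11)]),
   (56, [(56, 36, 7, 7)])]

/-- one further inner block, `n = 1`. -/
def tabUA1 : List (ℕ × ℕ × ℕ) :=
  [(1, 0, 1), (2, 12, 1), (3, 0, 3), (4, 24, 1), (5, 6, 3), (6, 18, 3), (7, 0, 7), (8, 36, 1), (9, 0, 9), (10, 12, 9), (11, 0, 11), (12, 24, 9), (13, 6, 11), (14, 18, 11), (16, 48, 1), (17, 2, 9), (18, 14, 9), (19, 2, 11), (20, 26, 9), (21, 8, 11), (22, 20, 11), (24, 36, 3), (25, 36, 11), (26, 38, 11), (28, 40, 11), (32, 60, 1), (33, 4, 9), (34, 16, 9), (35, 4, 11), (36, 28, 9), (37, 10, 11), (38, 22, 11), (40, 42, 3), (41, 42, 11), (42, 44, 11), (44, 46, 11), (48, 54, 3), (49, 54, 11), (50, 56, 11), (52, 58, 11), (56, 36, 7), (64, 0, 64), (65, 0, 65), (66, 12, 65), (67, 0,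 67), (68, 24, 65), (69, 6, 67), (70, 18, 67), (72, 36, 65), (73, 0, 73), (74, 12, 73), (76, 24, 73), (80, 48, 65), (81, 2, 73), (82, 14, 73), (84, 26, 73), (88, 36, 67), (96, 60, 65), (97, 4, 73), (98, 16, 73), (100, 28, 73), (104, 42, 67), (112, 54, 67)]

/-- two further inner blocks, `n = 1`. -/
def tabUB1 : List (ℕ × List (ℕ × ℕ × ℕ × ℕ)) :=
  [(1, [(1, 0, 1, 1)]),
   (2, [(2, 12, 1, 1)]),
   (4, [(4, 24, 1, 1)]),
   (8, [(8, 36, 1, 1)]),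
   (16, [(16, 48, 1, 1)]),
   (32, [(32, 60, 1, 1)]),
   (64, [(64, 0, 64, 64)])]

/-- two single blocks and a third one, `n = 0`. -/
def tabUC : List (ℕ × List (ℕ × ℕ × List ℕ)) :=
  [(0, [(1, 0, [1, 1, 1]), (2, 0, [1, 1, 2]), (3, 0, [1, 1, 3]), (4, 6, [1, 1, 2]), (5, 6, [1, 1, 3]), (6, 0, [1, 1, 6]), (7, 0, [1, 1, 7]), (8, 0, [1, 1, 8]), (9, 0, [1, 1, 9]), (10, 0, [1, 1, 10]), (11, 0, [1, 1, 11]), (12, 6, [1, 1, 10]), (13, 6, [1, 1, 11]), (14, 0, [1, 1, 14]), (16, 2, [1, 1, 8]), (17, 2, [1, 1, 9]), (18, 2, [1, 1, 10]), (19, 2, [1, 1, 11]), (20, 8, [1, 1, 10]), (21, 8, [1, 1, 11]), (22, 2, [1, 1, 14]), (24, 0, [1, 1, 24]), (25, 0, [1, 1, 25]), (26, 0, [1, 1, 26]), (28, 6, [1, 1, 26]), (32, 4, [1, 1, 8]), (33, 4, [1, 1, 9]), (34, 4, [1, 1, 10]), (35, 4, [1, 1, 11]), (36, 10, [1, 1, 10]), (37, 10, [1, 1, 11]), (38, 4, [1, 1, 14]), (40, 1, [1, 1, 24]), (41, 1, [1,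 1, 25]), (42, 1, [1, 1, 26]), (44, 7, [1, 1, 26]), (48, 3, [1, 1, 24]), (49, 3, [1, 1, 25]), (50, 3, [1, 1, 26]), (52, 9, [1, 1, 26]), (56, 0, [1, 1, 56])]),
   (1, [(1, 12, [1, 1, 2]), (2, 12, [1, 1, 1]), (3, 12, [1, 1, 3]), (4, 18, [1, 1, 2]), (5, 12, [1, 1, 6]), (6, 18, [1, 1, 3]), (7, 12, [1, 1, 7]), (8, 12, [1, 1, 8]), (9, 12, [1, 1, 10]), (10, 12, [1, 1, 9]), (11, 12, [1, 1, 11]), (12, 18, [1, 1, 10]), (13, 12, [1, 1, 14]), (14, 18, [1, 1, 11]), (16, 14, [1, 1, 8]), (17, 14, [1, 1, 10]), (18, 14, [1, 1, 9]), (19, 14, [1, 1, 11]), (20, 20, [1, 1, 10]), (21, 14, [1, 1, 14]), (22, 20, [1, 1, 11]), (24, 12, [1, 1, 24]), (25, 12, [1, 1, 26]), (26, 12, [1, 1, 25]), (28, 18, [1, 1, 26]), (32, 16, [1, 1, 8]), (33, 16, [1, 1, 10]), (34, 16, [1, 1, 9]), (35, 16, [1, 1, 11]), (36, 22, [1, 1, 10]), (37, 16, [1, 1, 14]), (38, 22, [1, 1, 11]), (40, 13, [1, 1, 24]), (41,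 13, [1, 1, 26]), (42, 13, [1, 1, 25]), (44, 19, [1, 1, 26]), (48, 15, [1, 1, 24]), (49, 15, [1, 1, 26]), (50, 15, [1, 1, 25]), (52, 21, [1, 1, 26]), (56, 12, [1, 1, 56])]),
   (2, [(1, 24, [1, 1, 2]), (2, 30, [1, 1, 2]), (3, 24, [1, 1, 6]), (4, 24, [1, 1, 1]), (5, 24, [1, 1, 3]), (6, 30, [1, 1, 3]), (7, 24, [1, 1, 7]), (8, 24, [1, 1, 8]), (9, 24, [1, 1, 10]), (10, 30, [1, 1, 10]), (11, 24, [1, 1, 14]), (12, 24, [1, 1, 9]), (13, 24, [1, 1, 11]), (14, 30, [1, 1, 11]), (16, 26, [1, 1, 8]), (17, 26, [1, 1, 10]), (18, 32, [1, 1, 10]), (19, 26, [1, 1, 14]), (20, 26, [1, 1, 9]), (21, 26, [1, 1, 11]), (22, 32, [1, 1, 11]), (24, 24, [1, 1, 24]), (25, 24, [1, 1, 26]), (26, 30, [1, 1, 26]), (28, 24, [1, 1, 25]), (32, 28, [1, 1, 8]), (33, 28, [1, 1, 10]), (34, 34, [1, 1, 10]), (35, 28, [1, 1, 14]), (36, 28, [1, 1, 9]), (37, 28, [1, 1, 11]), (38, 34, [1, 1, 11]), (40, 25, [1,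 1, 24]), (41, 25, [1, 1, 26]), (42, 31, [1, 1, 26]), (44, 25, [1, 1, 25]), (48, 27, [1, 1, 24]), (49, 27, [1, 1, 26]), (50, 33, [1, 1, 26]), (52, 27, [1, 1, 25]), (56, 24, [1, 1, 56])]),
   (3, [(1, 36, [1, 1, 8]), (2, 38, [1, 1, 8]), (3, 36, [1, 1, 24]), (4, 40, [1, 1, 8]), (5, 37, [1, 1, 24]), (6, 39, [1, 1, 24]), (7, 36, [1, 1, 56]), (8, 36, [1, 1, 1]), (9, 36, [1, 1, 9]), (10, 38, [1, 1, 9]), (11, 36, [1, 1, 25]), (12, 40, [1, 1, 9]), (13, 37, [1, 1, 25]), (14, 39, [1, 1, 25]), (16, 36, [1, 1, 2]), (17, 36, [1, 1, 10]), (18, 38, [1, 1, 10]), (19, 36, [1, 1, 26]), (20, 40, [1, 1, 10]), (21, 37, [1, 1, 26]), (22, 39, [1, 1, 26]), (24, 36, [1, 1, 3]), (25, 36, [1, 1, 11]), (26, 38, [1, 1, 11]), (28, 40, [1, 1, 11]), (32, 42, [1, 1, 2]), (33, 42, [1, 1, 10]), (34, 44, [1, 1, 10]), (35, 42, [1, 1, 26]), (36, 46, [1, 1, 10]), (37, 43, [1, 1, 26]), (38, 45, [1, 1, 26]),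 (40, 42, [1, 1, 3]), (41, 42, [1, 1, 11]), (42, 44, [1, 1, 11]), (44, 46, [1, 1, 11]), (48, 36, [1, 1, 6]), (49, 36, [1, 1, 14]), (50, 38, [1, 1, 14]), (52, 40, [1, 1, 14]), (56, 36, [1, 1, 7])]),
   (4, [(1, 48, [1, 1, 8]), (2, 50, [1, 1, 8]), (3, 48, [1, 1, 24]), (4, 52, [1, 1, 8]), (5, 49, [1, 1, 24]), (6, 51, [1, 1, 24]), (7, 48, [1, 1, 56]), (8, 48, [1, 1, 2]), (9, 48, [1, 1, 10]), (10, 50, [1, 1, 10]), (11, 48, [1, 1, 26]), (12, 52, [1, 1, 10]), (13, 49, [1, 1, 26]), (14, 51, [1, 1, 26]), (16, 48, [1, 1, 1]), (17, 48, [1, 1, 9]), (18, 50, [1, 1, 9]), (19, 48, [1, 1, 25]), (20, 52, [1, 1, 9]), (21, 49, [1, 1, 25]), (22, 51, [1, 1, 25]), (24, 48, [1, 1, 3]), (25, 48, [1, 1, 11]), (26, 50, [1, 1, 11]), (28, 52, [1, 1, 11]), (32, 54, [1, 1, 2]), (33, 54, [1, 1, 10]), (34, 56, [1, 1, 10]), (35, 54, [1, 1, 26]), (36, 58, [1, 1, 10]), (37, 55, [1, 1, 26]), (38, 57,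 [1, 1, 26]), (40, 48, [1, 1, 6]), (41, 48, [1, 1, 14]), (42, 50, [1, 1, 14]), (44, 52, [1, 1, 14]), (48, 54, [1, 1, 3]), (49, 54, [1, 1, 11]), (50, 56, [1, 1, 11]), (52, 58, [1, 1, 11]), (56, 48, [1, 1, 7])]),
   (5, [(1, 60, [1, 1, 8]), (2, 62, [1, 1, 8]), (3, 60, [1, 1, 24]), (4, 64, [1, 1, 8]), (5, 61, [1, 1, 24]), (6, 63, [1, 1, 24]), (7, 60, [1, 1, 56]), (8, 60, [1, 1, 2]), (9, 60, [1, 1, 10]), (10, 62, [1, 1, 10]), (11, 60, [1, 1, 26]), (12, 64, [1, 1, 10]), (13, 61, [1, 1, 26]), (14, 63, [1, 1, 26]), (16, 66, [1, 1, 2]), (17, 66, [1, 1, 10]), (18, 68, [1, 1, 10]), (19, 66, [1, 1, 26]), (20, 70, [1, 1, 10]), (21, 67, [1, 1, 26]), (22, 69, [1, 1, 26]), (24, 60, [1, 1, 6]), (25, 60, [1, 1, 14]), (26, 62, [1, 1, 14]), (28, 64, [1, 1, 14]), (32, 60, [1, 1, 1]), (33, 60, [1, 1, 9]), (34, 62, [1, 1, 9]), (35, 60, [1, 1, 25]), (36, 64, [1, 1, 9]), (37, 61, [1, 1,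 25]), (38, 63, [1, 1, 25]), (40, 60, [1, 1, 3]), (41, 60, [1, 1, 11]), (42, 62, [1, 1, 11]), (44, 64, [1, 1, 11]), (48, 66, [1, 1, 3]), (49, 66, [1, 1, 11]), (50, 68, [1, 1, 11]), (52, 70, [1, 1, 11]), (56, 60, [1, 1, 7])])]

/-- the list of the inner blocks is settled by the representative `R` and the permutation `pl`. -/
def chkU (n : ℕ) (L pl R : List ℕ) : Bool :=
  decide (10 + 2 * e2n n L < 4 * L.length + 4 * n) ||
  ((kvs n (10 + 2 * e2n n L - 4 * L.length - 4 * n)).all (fun kv => instU.contains (n, kv, R)) &&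
    !(pl.isEmpty) && R.all (fun A => decide (A < 2 ^ (6 + n))) &&
      (L.isPerm (R.map (pmk (fun a => pl.getD a 0) (6 + n)))))

/-- lookup, one block. -/
def luA (n A : ℕ) : List ℕ × List ℕ :=
  match ((if n = 0 then tabUA0 else tabUA1).find? (fun t => t.1 == A)) with
  | some t => (prm n t.2.1, [t.2.2])
  | none => ([], [])

/-- lookup, rows. -/
def rowU (n A : ℕ) : List (ℕ × ℕ × ℕ × ℕ) :=
  match ((if n = 0 then tabUB0 else tabUB1).find? (fun t => t.1 == A)) with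
  | some t => t.2
  | none => []

/-- lookup, three blocks. -/
def luC (row : List (ℕ × ℕ × List ℕ)) (A : ℕ) : List ℕ × List ℕ :=
  match (row.find? (fun t => t.1 == A)) with
  | some t => (prm 0 t.2.1, t.2.2)
  | none => ([], [])

/-- lookup, rows. -/
def rowC (a : ℕ) : List (ℕ × ℕ × List ℕ) :=
  match (tabUC.find? (fun t => t.1 == a)) with
  | some t => t.2
  | none => []

theorem chu_one0 : ((mskL 6).all (fun A => chkU 0 [A] (luA 0 A).1 (luA 0 A).2)) = true := by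
  decide +kernel

theorem chu_one1 : ((mskL 7).all (fun A => chkU 1 [A] (luA 1 A).1 (luA 1 A).2)) = true := by
  decide +kernel

theorem chu_two0 : ((mskL 6).all (fun A => let row := rowU 0 A; (mskL 6).all (fun A' =>
    decide (A' < A) || chkU 0 [A, A'] (lkB row 0 A').1 (lkB row 0 A').2))) = true := by
  decide +kernel

theorem chu_two1 : ((mskL 7).all (fun A => let row := rowU 1 A; (mskL 7).all (fun A' =>
    decide (A' < A) || chkU 1 [A, A'] (lkB row 1 A').1 (lkB row 1 A').2))) = true := by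
  decide +kernel

theorem chu_three : ((List.range 6).all (fun a => let row := rowC a; (mskL 6).all (fun A =>
    chkU 0 [2 ^ a, 2 ^ a, A] (luC row A).1 (luC row A).2))) = true := by
  decide +kernel

theorem chu_nil : (chkU 0 [] [0, 1, 2, 3, 4, 5] [] && chkU 1 [] [0, 1, 2, 3, 4, 5, 6] [] &&
    chkU 2 [] [0, 1, 2, 3, 4, 5, 6, 7] [] && okp 6 [0, 1, 2, 3, 4, 5] &&
    okp 7 [0, 1, 2, 3, 4, 5, 6] && okp 8 [0, 1, 2, 3, 4, 5, 6, 7]) = true := by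
  decide +kernel

theorem instU_lt : (instU.all (fun t => t.2.2.all (fun A => decide (A < 2 ^ (6 + t.1))))) = true := by
  decide +kernel

variable {V : Type v} [DecidableEq V] {ι : Type u} [Fintype ι] {B : ι → Finset V}
variable {Q : Finset V} {i j : ι} {n : ℕ} {x : ℕ → V} {D : ℕ → Finset V}

theorem CfK.finU (h : CfK B Q n x D i j)
    (hsrt : ∀ a b, a ≤ b → b < 2 + n → kpv B Q (D a) ≤ kpv B Q (D b))
    {L : List ℕ}
    (hc : ∀ A < 2 ^ (6 + n), A ≠ 0 → (ib B Q x (6 + n) A).card = (7 :: 56 :: L).count A)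
    (hsum : ∑ a ∈ range (2 + n), kpv B Q (D a) + 4 * (L.length : ℤ) + 4 * (n : ℤ) ≤
      10 + 2 * (e2n n L : ℤ)) {pl R : List ℕ} (hp : pl ≠ [] → okp (6 + n) pl = true)
    (hchk : chkU n L pl R = true) :
    ∃ t ∈ instU, ∃ x' i' j', CfI B Q t.1 x' D i' j' t.2.1 t.2.2 := by
  have hnn : 0 ≤ ∑ a ∈ range (2 + n), kpv B Q (D a) :=
    sum_nonneg fun a ha => h.knn a (mem_range.1 ha)
  have h2e := two_e2n_le n L
  unfold chkU at hchk
  rw [Bool.or_eq_true, decide_eq_true_eq] at hchk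
  rcases hchk with hchk | hchk
  · exfalso
    omega
  rw [Bool.and_eq_true, Bool.and_eq_true, Bool.and_eq_true, List.all_eq_true] at hchk
  obtain ⟨⟨⟨h2, h3⟩, h4⟩, h5⟩ := hchk
  obtain ⟨kv, hkv, hlen, hle⟩ := exists_kv (S := 10 + 2 * e2n n L - 4 * L.length - 4 * n) h.n2
    (by omega) (fun a => kpv B Q (D a)) h.knn h.kev hsrt (by omega)
  have h6 : (n, kv, R) ∈ instU := by
    rw [← List.contains_iff_mem]
    exact h2 kv hkv
  have hpl : pl ≠ [] := by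
    rintro rfl
    simp at h3
  have hK : CfI B Q n x D i j kv L := ⟨h, hc, hle⟩
  refine ⟨_, h6, ?_⟩
  refine hK.permX (pl := pl) (R := R) ?_
  unfold okl
  rw [hp hpl, h4, h5]
  rfl

theorem e2n_perm {n : ℕ} {L L' : List ℕ} (h : L.Perm L') : e2n n L = e2n n L' := by
  unfold e2n
  congr 1
  apply List.filter_congr
  intro a _
  rw [h.count_eq]

/-- two equal entries in front. -/
theorem exists_front {L : List ℕ} {c : ℕ} (h : 2 ≤ L.count c) : ∃ L', L.Perm (c :: c :: L') := by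
  have h1 : c ∈ L := List.count_pos_iff.1 (by omega)
  have h2 := List.perm_cons_erase h1
  have h3 := h2.count_eq c
  rw [List.count_cons_self] at h3
  have h4 : c ∈ L.erase c := List.count_pos_iff.1 (by omega)
  exact ⟨(L.erase c).erase c, h2.trans ((List.perm_cons_erase h4).cons c)⟩

/-- **reduction to the instances.** -/
theorem CfK.reduceU (h : CfK B Q n x D i j) :
    ∃ t ∈ instU, ∃ x' D' i' j', (∀ a < 2 + n, ∃ b < 2 + n, D' a = D b) ∧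
      CfI B Q t.1 x' D' i' j' t.2.1 t.2.2 := by
  obtain ⟨q, hq1, hq2, hq3⟩ := exists_sort (2 + n) (fun a => kpv B Q (D a))
  have hK := h.permC hq1 hq2
  obtain ⟨L, hLs, hLm, hc, hsum⟩ := hK.exists_ins
  have h2e := two_e2n_le n L
  have hnn : 0 ≤ ∑ a ∈ range (2 + n), kpv B Q (D (q a)) :=
    sum_nonneg fun a ha => hK.knn a (mem_range.1 ha)
  have hmem : ∀ A ∈ L, A ∈ mskL (6 + n) := by
    intro A hA
    obtain ⟨k1, k2, k3⟩ := hLm A hA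
    unfold mskL
    rw [List.mem_filter, List.mem_range]
    exact ⟨k1, by simp [k2, k3]⟩
  have hD : ∀ a < 2 + n, ∃ b < 2 + n, D (q a) = D b := fun a ha => ⟨q a, hq1 a ha, rfl⟩
  have fin : ∀ {L' pl R : List ℕ}, L.Perm L' → (pl ≠ [] → okp (6 + n) pl = true) →
      chkU n L' pl R = true →
      ∃ t ∈ instU, ∃ x' D' i' j', (∀ a < 2 + n, ∃ b < 2 + n, D' a = D b) ∧
        CfI B Q t.1 x' D' i' j' t.2.1 t.2.2 := by
    intro L' pl R hLL hp hchk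
    obtain ⟨t, ht, x', i', j', hI⟩ := hK.finU hq3 (L := L') (by
      intro A hA hA0
      rw [hc A hA hA0, ((hLL.cons 56).cons 7).count_eq]) (by
      rw [← hLL.length_eq, ← e2n_perm hLL]
      exact hsum) hp hchk
    exact ⟨t, ht, x', _, i', j', hD, hI⟩
  have hn2 := h.n2
  have hA : ∀ A, n ≤ 1 → (luA n A).1 ≠ [] → okp (6 + n) (luA n A).1 = true := by
    intro A hn hne
    unfold luA at hne ⊢
    split at hne
    · exact okp_prm hn hne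
    · exact absurd rfl hne
  have hB : ∀ row A, n ≤ 1 → (lkB row n A).1 ≠ [] → okp (6 + n) (lkB row n A).1 = true := by
    intro row A hn hne
    unfold lkB at hne ⊢
    split at hne
    · exact okp_prm hn hne
    · exact absurd rfl hne
  have hC : ∀ row A, (luC row A).1 ≠ [] → okp (6 + 0) (luC row A).1 = true := by
    intro row A hne
    unfold luC at hne ⊢
    split at hne
    · exact okp_prm (by norm_num) hne
    · exact absurd rfl hne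
  rcases L with _ | ⟨A, _ | ⟨A', _ | ⟨A'', L⟩⟩⟩
  · have h0 := chu_nil
    simp only [Bool.and_eq_true] at h0
    obtain ⟨⟨⟨⟨⟨c0, c1⟩, c2⟩, c3⟩, c4⟩, c5⟩ := h0
    interval_cases n
    · exact fin (List.Perm.refl _) (fun _ => c3) c0
    · exact fin (List.Perm.refl _) (fun _ => c4) c1
    · exact fin (List.Perm.refl _) (fun _ => c5) c2
  · have hn1 : n ≤ 1 := by
      simp only [List.length_cons, List.length_nil] at h2e hsum
      omega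
    have hm := hmem A (by simp)
    refine fin (List.Perm.refl _) (pl := (luA n A).1) (R := (luA n A).2) (hA A hn1) ?_
    interval_cases n
    · exact List.all_eq_true.1 chu_one0 A hm
    · exact List.all_eq_true.1 chu_one1 A hm
  · have hn1 : n ≤ 1 := by
      simp only [List.length_cons, List.length_nil] at h2e hsum
      omega
    have hm := hmem A (by simp)
    have hm' := hmem A' (by simp)
    have hAA : A ≤ A' := by
      rw [List.pairwise_cons] at hLs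
      exact hLs.1 A' (by simp)
    refine fin (List.Perm.refl _) (pl := (lkB (rowU n A) n A').1)
      (R := (lkB (rowU n A) n A').2) (hB _ A' hn1) ?_
    interval_cases n
    · have h1 := List.all_eq_true.1 (List.all_eq_true.1 chu_two0 A hm) A' hm'
      rw [Bool.or_eq_true, decide_eq_true_eq] at h1
      rcases h1 with h1 | h1
      · omega
      · exact h1
    · have h1 := List.all_eq_true.1 (List.all_eq_true.1 chu_two1 A hm) A' hm'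
      rw [Bool.or_eq_true, decide_eq_true_eq] at h1
      rcases h1 with h1 | h1
      · omega
      · exact h1
  · have hlen : (A :: A' :: A'' :: L).length = 3 + L.length := by
      simp only [List.length_cons]
      omega
    have hL0 : L.length = 0 := by
      rw [hlen] at h2e hsum
      omega
    have hn0 : n = 0 := by
      rw [hlen] at h2e hsum
      omega
    subst hn0
    rw [List.length_eq_zero_iff] at hL0
    subst hL0
    have he : 1 ≤ e2n 0 [A, A', A''] := by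
      simp only [List.length_cons, List.length_nil] at hsum
      omega
    obtain ⟨a, ha, h2⟩ : ∃ a < 6, 2 ≤ [A, A', A''].count (2 ^ a) := by
      unfold e2n at he
      have h3 : 0 < ((List.range (6 + 0)).filter (fun a =>
          decide (2 ≤ [A, A', A''].count (2 ^ a)))).length := by omega
      obtain ⟨a, ha⟩ := List.exists_mem_of_length_pos h3
      rw [List.mem_filter, List.mem_range, decide_eq_true_eq] at ha
      exact ⟨a, ha.1, ha.2⟩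
    obtain ⟨L', hL'⟩ := exists_front h2
    have hl3 := hL'.length_eq
    simp only [List.length_cons, List.length_nil] at hl3
    obtain ⟨M, rfl⟩ : ∃ M, L' = [M] := List.length_eq_one_iff.1 (by omega)
    have hM : M ∈ mskL 6 := by
      have h4 : M ∈ [A, A', A''] := hL'.mem_iff.2 (by simp)
      exact hmem M h4
    refine fin hL' (pl := (luC (rowC a) M).1) (R := (luC (rowC a) M).2) (hC _ _) ?_
    exact List.all_eq_true.1 (List.all_eq_true.1 chu_three a (List.mem_range.2 ha)) M hM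

end Pool.Agent.Hyp6
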