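import Pool.Agent.Hyp6.Ins.I00
import Pool.Agent.Hyp6.Ins.I01
import Pool.Agent.Hyp6.Ins.I02
import Pool.Agent.Hyp6.Ins.I03
import Pool.Agent.Hyp6.Ins.I04
import Pool.Agent.Hyp6.Ins.I05
import Pool.Agent.Hyp6.Ins.I06
import Pool.Agent.Hyp6.Ins.I07
import Pool.Agent.Hyp6.Ins.I08
import Pool.Agent.Hyp6.Ins.I09
import Pool.Agent.Hyp6.Ins.I10
import Pool.Agent.Hyp6.Ins.I11
import Pool.Agent.Hyp6.Ins.I12
import Pool.Agent.Hyp6.Ins.I13
import Pool.Agent.Hyp6.Ins.I14
import Pool.Agent.Hyp6.Ins.I15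
import Pool.Agent.Hyp6.Ins.I16
import Pool.Agent.Hyp6.Ins.I17
import Pool.Agent.Hyp6.Ins.I18
import Pool.Agent.Hyp6.Ins.I19
import Pool.Agent.Hyp6.Ins.I20
import Pool.Agent.Hyp6.Ins.I21
import Pool.Agent.Hyp6.Ins.I22
import Pool.Agent.Hyp6.Ins.I23
import Pool.Agent.Hyp6.Ins.I24
import Pool.Agent.Hyp6.Ins.I25
import Pool.Agent.Hyp6.Ins.I26
import Pool.Agent.Hyp6.Ins.I27
import Pool.Agent.Hyp6.Ins.I28
import Pool.Agent.Hyp6.Ins.I29
import Pool.Agent.Hyp6.Ins.I30
import Pool.Agent.Hyp6.Ins.I31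
import Pool.Agent.Hyp6.Ins.I32
import Pool.Agent.Hyp6.Ins.I33
import Pool.Agent.Hyp6.Ins.I34
import Pool.Agent.Hyp6.Ins.I35
import Pool.Agent.Hyp6.Ins.I36
import Pool.Agent.Hyp6.Ins.I37
import Pool.Agent.Hyp6.Ins.I38
import Pool.Agent.Hyp6.Ins.I39
import Pool.Agent.Hyp6.Ins.I40
import Pool.Agent.Hyp6.Ins.I41
import Pool.Agent.Hyp6.Ins.I42
import Pool.Agent.Hyp6.Ins.I43
import Pool.Agent.Hyp6.Ins.I44
import Pool.Agent.Hyp6.Ins.I45
import Pool.Agent.Hyp6.Ins.I46
import Pool.Agent.Hyp6.Ins.I47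
import Pool.Agent.Hyp6.Ins.I48
import Pool.Agent.Hyp6.Ins.I49
import Pool.Agent.Hyp6.Ins.I50
import Pool.Agent.Hyp6.Ins.I51
import Pool.Agent.Hyp6.Ins.I52
import Pool.Agent.Hyp6.Ins.I53
import Pool.Agent.Hyp6.Ins.I54
import Pool.Agent.Hyp6.Ins.I55
import Pool.Agent.Hyp6.Ins.I56
import Pool.Agent.Hyp6.Ins.I57
import Pool.Agent.Hyp6.Ins.I58
import Pool.Agent.Hyp6.Ins.I59
import Pool.Agent.Hyp6.Ins.I60
import Pool.Agent.Hyp6.Ins.I61
import Pool.Agent.Hyp6.Ins.I62
import Pool.Agent.Hyp6.Ins.I63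
import Pool.Agent.Hyp6.Ins.I64
import Pool.Agent.Hyp6.Ins.I65
import Pool.Agent.Hyp6.Ins.I66
import Pool.Agent.Hyp6.Ins.I67
import Pool.Agent.Hyp6.Ins.I68
import Pool.Agent.Hyp6.Ins.I69
import Pool.Agent.Hyp6.Ins.I70
import Pool.Agent.Hyp6.Ins.I71
import Pool.Agent.Hyp6.Ins.I72
import Pool.Agent.Hyp6.Ins.I73
import Pool.Agent.Hyp6.Ins.I74
import Pool.Agent.Hyp6.Ins.I75
import Pool.Agent.Hyp6.Ins.I76
import Pool.Agent.Hyp6.Ins.I77
import Pool.Agent.Hyp6.Ins.I78
import Pool.Agent.Hyp6.Ins.I79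
import Pool.Agent.Hyp6.Ins.I80
import Pool.Agent.Hyp6.Ins.I81
import Pool.Agent.Hyp6.Ins.I82
import Pool.Agent.Hyp6.Ins.I83
import Pool.Agent.Hyp6.Ins.I84
import Pool.Agent.Hyp6.Ins.I85
import Pool.Agent.Hyp6.Ins.I86
import Pool.Agent.Hyp6.CfgU
import Pool.Agent.Hyp6.CfO

/-!
# HYP6 CFF: no minimal counterexample with value zero

All 87 instances `instU` of configurations are impossible (files `Ins/I00` to `Ins/I86`), so a minimal
counterexample to the level-3 theorem has positive value.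
-/

set_option autoImplicit false

namespace Pool.Agent.Hyp6

open Finset Pool.Agent.Hyp5

universe u v

variable {V : Type v} [DecidableEq V] {ι : Type u} [Fintype ι] {B : ι → Finset V}
variable {Q : Finset V} {i j : ι} {n : ℕ} {x : ℕ → V} {D : ℕ → Finset V}

/-- no instance of the list is realised. -/
theorem instU_false {t : ℕ × List ℕ × List ℕ} (ht : t ∈ instU)
    (h : CfI B Q t.1 x D i j t.2.1 t.2.2) : False := by
  unfold instU at ht
  simp only [List.mem_cons, List.not_mem_nil, or_false] at ht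
  rcases ht with rfl | rfl | rfl | rfl | rfl | rfl | rfl | rfl | rfl | rfl | rfl | rfl | rfl | rfl | rfl | rfl | rfl | rfl | rfl | rfl |
    rfl | rfl | rfl | rfl | rfl | rfl | rfl | rfl | rfl | rfl | rfl | rfl | rfl | rfl | rfl | rfl | rfl | rfl | rfl | rfl |
    rfl | rfl | rfl | rfl | rfl | rfl | rfl | rfl | rfl | rfl | rfl | rfl | rfl | rfl | rfl | rfl | rfl | rfl | rfl | rfl |
    rfl | rfl | rfl | rfl | rfl | rfl | rfl | rfl | rfl | rfl | rfl | rfl | rfl | rfl | rfl | rfl | rfl | rfl | rfl | rfl |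
    rfl | rfl | rfl | rfl | rfl | rfl | rfl
  · exact no_00 h
  · exact no_01 h
  · exact no_02 h
  · exact no_03 h
  · exact no_04 h
  · exact no_05 h
  · exact no_06 h
  · exact no_07 h
  · exact no_08 h
  · exact no_09 h
  · exact no_10 h
  · exact no_11 h
  · exact no_12 h
  · exact no_13 h
  · exact no_14 h
  · exact no_15 h
  · exact no_16 h
  · exact no_17 h
  · exact no_18 h
  · exact no_19 h
  · exact no_20 h
  · exact no_21 h
  · exact no_22 h
  · exact no_23 h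
  · exact no_24 h
  · exact no_25 h
  · exact no_26 h
  · exact no_27 h
  · exact no_28 h
  · exact no_29 h
  · exact no_30 h
  · exact no_31 h
  · exact no_32 h
  · exact no_33 h
  · exact no_34 h
  · exact no_35 h
  · exact no_36 h
  · exact no_37 h
  · exact no_38 h
  · exact no_39 h
  · exact no_40 h
  · exact no_41 h
  · exact no_42 h
  · exact no_43 h
  · exact no_44 h
  · exact no_45 h
  · exact no_46 h
  · exact no_47 h
  · exact no_48 h
  · exact no_49 h
  · exact no_50 h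
  · exact no_51 h
  · exact no_52 h
  · exact no_53 h
  · exact no_54 h
  · exact no_55 h
  · exact no_56 h
  · exact no_57 h
  · exact no_58 h
  · exact no_59 h
  · exact no_60 h
  · exact no_61 h
  · exact no_62 h
  · exact no_63 h
  · exact no_64 h
  · exact no_65 h
  · exact no_66 h
  · exact no_67 h
  · exact no_68 h
  · exact no_69 h
  · exact no_70 h
  · exact no_71 h
  · obtain ⟨x1, D1, i1, j1, h1, h2⟩ := CfI.exists_ord h
    exact no_72 h1 h2
  · obtain ⟨x1, D1, i1, j1, h1, h2⟩ := CfI.exists_ord h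
    exact no_73 h1 h2
  · obtain ⟨x1, D1, i1, j1, h1, h2⟩ := CfI.exists_ord h
    exact no_74 h1 h2
  · exact no_75 h
  · exact no_76 h
  · exact no_77 h
  · exact no_78 h
  · exact no_79 h
  · exact no_80 h
  · exact no_81 h
  · exact no_82 h
  · exact no_83 h
  · exact no_84 h
  · exact no_85 h
  · obtain ⟨x1, D1, i1, j1, h1, h2⟩ := CfI.exists_ord h
    exact no_86 h1 h2

/-- **value zero**: there is no minimal counterexample. -/
theorem Viol.no_zero (h : Viol B Q) : sv B Q ≠ 0 := by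
  intro hs
  obtain ⟨n, x, D, i, j, hc⟩ := h.exists_cfK hs
  obtain ⟨t, ht, x1, D1, i1, j1, _, h1⟩ := hc.reduceU
  exact instU_false ht h1

end Pool.Agent.Hyp6
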