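import Pool.Agent.Hyp6.Cnm

/-!
# HYP6 CSEG: checking a refutation in segments

`chk_of`: `chk` from the comparison of the formula with the tree and a check of the learned clauses;
`run_app`: the learned clauses may be checked in segments.
-/

set_option autoImplicit false

namespace Pool.Agent.Hyp6.Rup

/-- check some learned clauses. -/
noncomputable def seg (db : Tr) (s : List ℕ) : ℕ → Bool :=
  List.rec (fun _ => true)
    (fun H _ ih i => Nat.rec false (fun i' _ =>
      Bool.rec false (ih (Nat.succ i'))
        (prop db i 100000 H (nm db (Nat.succ i')) (pm db (Nat.succ i')))) (Nat.succ i)) s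

/-- compare some clauses with the tree. -/
noncomputable def cmpS (db : Tr) (s : List (List ℕ)) : ℕ → Bool :=
  List.rec (fun _ => true)
    (fun c _ ih i => Nat.rec false (fun i' _ =>
      Bool.rec false (ih (Nat.succ i')) (Nat.beq (db.get (Nat.succ i')) (enc c))) (Nat.succ i)) s

theorem run_app {db : Tr} {s' : List ℕ} : ∀ (s : List ℕ) (i : ℕ), seg db s i = true →
    run db s' (i + s.length) = true → run db (s ++ s') i = true := by
  intro s
  induction s with
  | nil => intro i _ h; exact h
  | cons H s ih =>
    intro i h h'
    have h0 : seg db (H :: s) i = Bool.rec false (seg db s (i + 1))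
        (prop db i 100000 H (nm db (i + 1)) (pm db (i + 1))) := rfl
    have h1 : run db (H :: s ++ s') i = Bool.rec false (run db (s ++ s') (i + 1))
        (prop db i 100000 H (nm db (i + 1)) (pm db (i + 1))) := rfl
    rw [h0] at h
    rw [h1]
    rcases h2 : prop db i 100000 H (nm db (i + 1)) (pm db (i + 1)) with _ | _
    · rw [h2] at h
      exact absurd h (by simp)
    · rw [h2] at h
      refine ih (i + 1) h ?_
      have h3 : i + (H :: s).length = i + 1 + s.length := by
        rw [List.length_cons]
        omega
      rw [h3] at h'
      exact h'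

/-- the next segment. -/
theorem run_seg {db : Tr} {s s' : List ℕ} {i j : ℕ} (h : seg db s i = true)
    (hj : Nat.beq (Nat.add i s.length) j = true) (h' : run db s' j = true) :
    run db (s ++ s') i = true := by
  refine run_app s i h ?_
  have h1 : i + s.length = j := Nat.eq_of_beq_eq_true hj
  rw [h1]
  exact h'

theorem cmp_app {db : Tr} {prf : List ℕ} : ∀ (s : List (List ℕ)) (i : ℕ), cmpS db s i = true →
    run db prf (i + s.length) = true → cmp db prf s i = true := by
  intro s
  induction s with
  | nil => intro i _ h; exact h
  | cons c s ih =>
    intro i h h'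
    have h0 : cmpS db (c :: s) i = Bool.rec false (cmpS db s (i + 1))
        (Nat.beq (db.get (i + 1)) (enc c)) := rfl
    have h1 : cmp db prf (c :: s) i = Bool.rec false (cmp db prf s (i + 1))
        (Nat.beq (db.get (i + 1)) (enc c)) := rfl
    rw [h0] at h
    rw [h1]
    rcases h2 : Nat.beq (db.get (i + 1)) (enc c) with _ | _
    · rw [h2] at h
      exact absurd h (by simp)
    · rw [h2] at h
      refine ih (i + 1) h ?_
      have h3 : i + (c :: s).length = i + 1 + s.length := by
        rw [List.length_cons]
        omega
      rw [h3] at h'
      exact h'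

/-- **the check from its parts.** -/
theorem chk_of {cnf : List (List ℕ)} {db : Tr} {prf : List ℕ} {j : ℕ} (h : cmpS db cnf 0 = true)
    (hj : Nat.beq cnf.length j = true) (h' : run db prf j = true) : chk cnf db prf = true := by
  refine cmp_app cnf 0 h ?_
  have h1 : cnf.length = j := Nat.eq_of_beq_eq_true hj
  rw [h1, Nat.zero_add]
  exact h'

end Pool.Agent.Hyp6.Rup
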