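import Pool.Agent.Hyp6.Cb5
import Pool.Agent.Hyp6.Cseg

/-!
# HYP6 CSEG2: the check of an instance from its parts
-/

set_option autoImplicit false

namespace Pool.Agent.Hyp6

open Rup

/-- the check of an instance from its parts. -/
theorem instB_of {n : ℕ} {ub ins : List ℕ} {so : List (ℕ × ℕ × ℕ × ℕ)} {base : List Rs}
    {gads : List Gt} {nm : Tr} {cnf : List (List ℕ)} {db : Tr} {prf : List ℕ}
    (h1 : base.all (fun q => q.ok (6 + n) (2 + n) (7 :: 56 :: ins) big4 big4 so) = true)
    (h2 : gads.all (fun g => Nat.blt g.j (2 + n) && g.ok (6 + n) (ub.getD g.j 0)) = true)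
    (h3 : (!(cnf.isEmpty)) = true) (h4 : okcR cnf = true)
    (h5 : cmpR nm cnf (cls (2 + n) base ++ gads.map Gt.cl) = true)
    (h6 : chk cnf db prf = true) : instB n ub ins so base gads nm cnf db prf = true := by
  unfold instB
  rw [h1, h2, h3, h4, h5, h6]
  rfl

end Pool.Agent.Hyp6
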