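import Pool.Agent.Hyp6.Cb7
import Pool.Agent.Hyp6.Cseg2

/-!
# HYP6 CFGB: instances with an explicit leaf

`CfL`: a configuration `CfR` whose component `0` is a leaf: at most `sl` hits, at least `H` hits of the
six points of the two full blocks, at most one hit of the point `6`, none of the point `7`. `instL`: the
check of such an instance; `CfL.absurd`: contradiction.
-/

set_option autoImplicit false

namespace Pool.Agent.Hyp6

open Finset Pool.Agent.Hyp5 Rup

universe u v

/-- the given clauses: bounds for the hits of the component `0`. -/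
inductive Gv : Type
  | cap6
  | cap7
  | low (t : List ℕ)

/-- the clause. -/
def Gv.cl : Gv → List ℕ
  | .cap6 => [2 * vE 0 64 2 + 1]
  | .cap7 => [2 * vE 0 128 1 + 1]
  | .low t => ((List.range 6).filter (fun a => Nat.blt (t.getD a 0) 5)).map
      (fun a => 2 * vE 0 (2 ^ a) (t.getD a 0 + 1))

/-- the given clause is correct. -/
def Gv.ok (n H : ℕ) : Gv → Bool
  | .cap6 => Nat.ble 1 n
  | .cap7 => Nat.beq n 2
  | .low t => Nat.blt ((List.range 6).map (fun a => t.getD a 0)).sum H

/-- the check of an instance with an explicit leaf. -/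
noncomputable def instL (n r : ℕ) (ub ins : List ℕ) (sl H : ℕ) (base : List Ru) (gv : List Gv)
    (gads : List Gt) (nm : Tr) (cnf : List (List ℕ)) (db : Tr) (prf : List ℕ) : Bool :=
  base.all (fun q => q.ok (6 + n) r (7 :: 56 :: ins) [sl, 2000, 2000, 2000] big4 []) &&
  (gv.all (fun c => c.ok n H) && (gads.all (fun g => g.okV (6 + n) r ub) &&
  (!(cnf.isEmpty) && (okcR cnf &&
    (cmpR nm cnf (clsu r base ++ (gv.map Gv.cl ++ gads.map Gt.cl)) && chk cnf db prf)))))

/-- the check of an instance from its parts. -/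
theorem instL_of {n r : ℕ} {ub ins : List ℕ} {sl H : ℕ} {base : List Ru} {gv : List Gv}
    {gads : List Gt} {nm : Tr} {cnf : List (List ℕ)} {db : Tr} {prf : List ℕ}
    (h1 : base.all (fun q => q.ok (6 + n) r (7 :: 56 :: ins) [sl, 2000, 2000, 2000] big4 []) = true)
    (h2 : gv.all (fun c => c.ok n H) = true)
    (h3 : gads.all (fun g => g.okV (6 + n) r ub) = true)
    (h4 : (!(cnf.isEmpty)) = true) (h5 : okcR cnf = true)
    (h6 : cmpR nm cnf (clsu r base ++ (gv.map Gv.cl ++ gads.map Gt.cl)) = true)
    (h7 : chk cnf db prf = true) : instL n r ub ins sl H base gv gads nm cnf db prf = true := by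
  unfold instL
  rw [h1, h2, h3, h4, h5, h6, h7]
  rfl

variable {V : Type v} [DecidableEq V] {ι : Type u} [Fintype ι] {B : ι → Finset V}
variable {Q : Finset V} {n r : ℕ} {x : ℕ → V} {C : ℕ → Finset V} {ub ins : List ℕ} {sl H : ℕ}

/-- a configuration with an explicit leaf. -/
structure CfL (B : ι → Finset V) (Q : Finset V) (n r : ℕ) (x : ℕ → V) (C : ℕ → Finset V)
    (ub ins : List ℕ) (sl H : ℕ) : Prop extends CfR B Q (6 + n) r x C ub ins where
  slot : ∑ a ∈ range (6 + n), ecB B x (6 + n) C 0 (2 ^ a) ≤ sl
  low : H ≤ ∑ a ∈ range 6, ecB B x (6 + n) C 0 (2 ^ a)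
  c6 : 1 ≤ n → ecB B x (6 + n) C 0 (2 ^ 6) ≤ 1
  c7 : n = 2 → ecB B x (6 + n) C 0 (2 ^ 7) = 0

theorem CfL.gv_sat (h : CfL B Q n r x C ub ins sl H) {c : Gv} (hc : c.ok n H = true) :
    Sat (Vl (ecB B x (6 + n) C) (lcB B x (6 + n) C) (rrB B x (6 + n) C)) c.cl := by
  have hnm := h.ci.nm
  have hr0 : 0 < r := by have := h.r2; omega
  cases c with
  | cap6 =>
    have h1 : 1 ≤ n := by simpa [Gv.ok] using hc
    exact sat_cap hnm (j := 0) (a := 6) (c := 1) hr0 (by omega) (by norm_num) (h.c6 h1)
  | cap7 =>
    have h1 : n = 2 := by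
      have : Nat.beq n 2 = true := hc
      exact nbeq_iff.1 this
    exact sat_cap hnm (j := 0) (a := 7) (c := 0) hr0 (by omega) (by norm_num) (h.c7 h1).le
  | low t =>
    have h2 : ((List.range 6).map (fun a => t.getD a 0)).sum < H := by
      have h0 : Nat.blt ((List.range 6).map (fun a => t.getD a 0)).sum H = true := hc
      rwa [Nat.blt_eq] at h0
    apply sat_of
    intro hf
    have h3 : ∀ a < 6, ecB B x (6 + n) C 0 (2 ^ a) ≤ t.getD a 0 := by
      intro a ha
      have h5 := hnm.le5 0 hr0 a (by omega)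
      by_cases h4 : t.getD a 0 < 5
      · have h6 := hf (2 * vE 0 (2 ^ a) (t.getD a 0 + 1)) (by
          show _ ∈ ((List.range 6).filter (fun a => Nat.blt (t.getD a 0) 5)).map _
          rw [List.mem_map]
          refine ⟨a, ?_, rfl⟩
          rw [List.mem_filter, List.mem_range, Nat.blt_eq]
          exact ⟨ha, h4⟩)
        rw [pE (by norm_num) (two_pow_lt (N := 6 + n) (by omega) hnm.N8) (by omega)] at h6
        omega
      · omega
    have h4 := h.low
    simp only [sum_range_succ, sum_range_zero] at h4
    simp only [List.range_succ, List.range_zero, List.nil_append, List.cons_append,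
      List.map_cons, List.map_nil, List.sum_cons, List.sum_nil] at h2
    have k0 := h3 0 (by norm_num)
    have k1 := h3 1 (by norm_num)
    have k2 := h3 2 (by norm_num)
    have k3 := h3 3 (by norm_num)
    have k4 := h3 4 (by norm_num)
    have k5 := h3 5 (by norm_num)
    omega

/-- **a checked instance with an explicit leaf has no configuration.** -/
theorem CfL.absurd (h : CfL B Q n r x C ub ins sl H) {base : List Ru} {gv : List Gv}
    {gads : List Gt} {nm db : Tr} {cnf : List (List ℕ)} {prf : List ℕ}
    (hb : instL n r ub ins sl H base gv gads nm cnf db prf = true) : False := by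
  unfold instL at hb
  simp only [Bool.and_eq_true] at hb
  obtain ⟨hbase, hgv, hgads, hne, hok, hcmp, hchk⟩ := hb
  have hnm := h.ci.nm
  have hnt : Nt (6 + n) r [sl, 2000, 2000, 2000] big4 (ecB B x (6 + n) C) (lcB B x (6 + n) C) := by
    constructor
    · intro j hj
      rcases Nat.eq_zero_or_pos j with rfl | h0
      · exact h.slot
      · have h1 := (hnm.nt).slot j hj
        have h4 := hnm.j4 hj
        rw [big4_get h4] at h1
        interval_cases j <;> exact h1
    · exact (hnm.nt).shr
  refine h.toCfR.absurd hnt (so := []) srt_nil (base := base) (given := gv.map Gv.cl) ?_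
    (gads := gads) (nm := nm) (db := db) (cnf := cnf) (prf := prf) hbase hgads ?_ hok hcmp hchk
  · intro c hc
    obtain ⟨q, hq, rfl⟩ := List.mem_map.1 hc
    exact h.gv_sat (List.all_eq_true.1 hgv q hq)
  · rintro rfl
    simp at hne

end Pool.Agent.Hyp6
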