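import Pool.Agent.Hyp6.L3G1
import Pool.Agent.Hyp6.CfgU
import Pool.Agent.Hyp6.CfGb

/-!
# HYP6 CFG: reduction of the configurations of any value to the instances

`CfG.no_full`: a configuration with `2 + n` components is one of the instances `instU`.
`CfG.no_leaf`: a configuration with fewer components and an explicit leaf is one of the instances
`instG`.
-/

set_option autoImplicit false

namespace Pool.Agent.Hyp6

open Finset Pool.Agent.Hyp5 Rup

universe u v

variable {V : Type v} [DecidableEq V] {ι : Type u} [Fintype ι] {B : ι → Finset V}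
variable {Q : Finset V} {i j : ι} {n r : ℕ} {x : ℕ → V} {D : ℕ → Finset V}

theorem Cg0.mem_i (h : Cg0 B Q n r x D i j) : i ∈ ib B Q x (6 + n) 7 := mem_ib.2 h.i7

theorem Cg0.mem_j (h : Cg0 B Q n r x D i j) : j ∈ ib B Q x (6 + n) 56 := mem_ib.2 h.j56

/-- the list of the masks of the inner blocks. -/
theorem CfG.exists_ins (h : CfG B Q n r x D i j) : ∃ L : List ℕ, L.Pairwise (· ≤ ·) ∧
    (∀ A ∈ L, A < 2 ^ (6 + n) ∧ A ≠ 0 ∧ pcn (6 + n) A ≤ 3) ∧
    (∀ A < 2 ^ (6 + n), A ≠ 0 → (ib B Q x (6 + n) A).card = (7 :: 56 :: L).count A) ∧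
    ∑ a ∈ range r, wv B Q (D a) + 4 * (L.length : ℤ) + 5 * (n : ℤ) ≤
      9 + r + 2 * (e2n n L : ℤ) := by
  classical
  set N := 6 + n with hN
  set c : ℕ → ℕ := fun A => if A = 0 then 0 else
    (ib B Q x N A).card - (if A = 7 then 1 else 0) - (if A = 56 then 1 else 0) with hc
  obtain ⟨L, h1, h2, h3⟩ := exists_count_list c (2 ^ N)
  have hp7 : 1 ≤ (ib B Q x N 7).card := card_pos.2 ⟨i, h.mem_i⟩
  have hp56 : 1 ≤ (ib B Q x N 56).card := card_pos.2 ⟨j, h.mem_j⟩
  have h64 : 64 ≤ 2 ^ N := by
    calc 64 = 2 ^ 6 := by norm_num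
      _ ≤ 2 ^ N := Nat.pow_le_pow_right (by norm_num) (by omega)
  have hcnt : ∀ A < 2 ^ N, A ≠ 0 → (ib B Q x N A).card = (7 :: 56 :: L).count A := by
    intro A hA hA0
    have h4 : L.count A = c A := by rw [h1, if_pos hA]
    rw [List.count_cons, List.count_cons, h4, hc]
    simp only [if_neg hA0]
    by_cases e7 : A = 7
    · subst e7
      simp
      omega
    · by_cases e56 : A = 56
      · subst e56
        simp
        omega
      · have k1 : (7 == A) = false := by
          rw [beq_eq_false_iff_ne]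
          exact fun h => e7 h.symm
        have k2 : (56 == A) = false := by
          rw [beq_eq_false_iff_ne]
          exact fun h => e56 h.symm
        rw [if_neg e7, if_neg e56, k1, k2]
        simp
  have hmem : ∀ A ∈ L, A < 2 ^ N ∧ A ≠ 0 ∧ 0 < c A := by
    intro A hA
    have h4 := h1 A
    have h5 : 0 < L.count A := List.count_pos_iff.2 hA
    by_cases hlt : A < 2 ^ N
    · rw [if_pos hlt] at h4
      refine ⟨hlt, ?_, by omega⟩
      rintro rfl
      rw [hc] at h4
      simp only [if_true] at h4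
      omega
    · rw [if_neg hlt] at h4
      omega
  refine ⟨L, h3, ?_, hcnt, ?_⟩
  · intro A hA
    obtain ⟨k1, k2, k3⟩ := hmem A hA
    refine ⟨k1, k2, ?_⟩
    have h5 : 0 < (ib B Q x N A).card := by
      rw [hc] at k3
      simp only [if_neg k2] at k3
      omega
    obtain ⟨k, hk⟩ := card_pos.1 h5
    rw [mem_ib] at hk
    rw [← h.cf.card_ptm, ← hk]
    exact h.cf.tr3 k
  · have ht := h.tot
    have hsum : ∑ A ∈ (range (2 ^ N)).erase 0, ((ib B Q x N A).card : ℤ) = 2 + (L.length : ℤ) := by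
      have h6 : ∀ A ∈ (range (2 ^ N)).erase 0, ((ib B Q x N A).card : ℤ) =
          (c A : ℤ) + (if A = 7 then 1 else 0) + (if A = 56 then 1 else 0) := by
        intro A hA
        rw [mem_erase, mem_range] at hA
        rw [hc]
        simp only [if_neg hA.1]
        by_cases e7 : A = 7
        · subst e7
          simp
          omega
        · by_cases e56 : A = 56
          · subst e56
            simp
            omega
          · simp [e7, e56]
      rw [sum_congr rfl h6, sum_add_distrib, sum_add_distrib, sum_ite_eq', sum_ite_eq',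
        if_pos (by rw [mem_erase, mem_range]; exact ⟨by norm_num, by omega⟩),
        if_pos (by rw [mem_erase, mem_range]; exact ⟨by norm_num, by omega⟩), h2]
      have h7 : ∑ A ∈ range (2 ^ N), c A = ∑ A ∈ (range (2 ^ N)).erase 0, c A := by
        rw [← sum_erase_add (range (2 ^ N)) c (a := 0) (mem_range.2 (by omega))]
        have : c 0 = 0 := by rw [hc]; simp
        rw [this, add_zero]
      rw [h7]
      push_cast
      ring
    have he : ((range N).filter (fun a => 2 ≤ (ib B Q x N (2 ^ a)).card)).card = e2n n L := by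
      have h8 : ∀ a < N, (2 ≤ (ib B Q x N (2 ^ a)).card ↔ 2 ≤ L.count (2 ^ a)) := by
        intro a ha
        have h9 : (2 : ℕ) ^ a < 2 ^ N := Nat.pow_lt_pow_right (by norm_num) ha
        have h10 := hcnt (2 ^ a) h9 (by positivity)
        have k1 : (7 == 2 ^ a) = false := by
          rw [beq_eq_false_iff_ne]
          intro hh
          rcases Nat.lt_or_ge a 3 with h11 | h11
          · interval_cases a <;> simp at hh
          · have : 2 ^ 3 ≤ 2 ^ a := Nat.pow_le_pow_right (by norm_num) h11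
            omega
        have k2 : (56 == 2 ^ a) = false := by
          rw [beq_eq_false_iff_ne]
          intro hh
          rcases Nat.lt_or_ge a 6 with h11 | h11
          · interval_cases a <;> simp at hh
          · have : 2 ^ 6 ≤ 2 ^ a := Nat.pow_le_pow_right (by norm_num) h11
            omega
        rw [List.count_cons, List.count_cons, k1, k2] at h10
        simp only [Bool.false_eq_true, if_false, add_zero] at h10
        rw [h10]
      unfold e2n
      rw [← hN]
      have h12 : ((List.range N).filter (fun a => decide (2 ≤ L.count (2 ^ a)))).length =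
          (((List.range N).filter (fun a => decide (2 ≤ L.count (2 ^ a)))).toFinset).card := by
        rw [List.toFinset_card_of_nodup (List.nodup_range.filter _)]
      rw [h12]
      congr 1
      ext a
      rw [mem_filter, mem_range, List.mem_toFinset, List.mem_filter, List.mem_range,
        decide_eq_true_eq]
      exact and_congr_right (h8 a)
    rw [hsum, he] at ht
    linarith

/-! ### permutations -/

theorem Cg0.permC (h : Cg0 B Q n r x D i j) {q : ℕ → ℕ} (hq : ∀ a < r, q a < r)
    (hi : ∀ a < r, ∀ b < r, q a = q b → a = b) :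
    Cg0 B Q n r x (fun a => D (q a)) i j where
  n2 := h.n2
  r1 := h.r1
  rn := h.rn
  cf := h.cf.permC hq hi
  ih := h.ih
  ihr := h.ihr
  i7 := h.i7
  j56 := h.j56
  ij := h.ij
  sge := fun a ha => h.sge _ (hq a ha)
  lge := fun a ha => h.lge _ (hq a ha)
  hall := by
    classical
    intro S A hS hne hA hAij hc
    obtain ⟨s, hs, a, ha, he⟩ := h.hall (S.image q) A (by
      intro s hs
      obtain ⟨t, ht, rfl⟩ := mem_image.1 hs
      exact hq t (hS t ht)) (hne.image q) hA hAij (by
      rw [card_image_of_injOn]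
      · exact hc
      · intro a ha b hb he
        exact hi a (hS a ha) b (hS b hb) he)
    obtain ⟨t, ht, rfl⟩ := mem_image.1 hs
    exact ⟨t, ht, a, ha, he⟩

theorem CfG.permC (h : CfG B Q n r x D i j) {q : ℕ → ℕ} (hq : ∀ a < r, q a < r)
    (hi : ∀ a < r, ∀ b < r, q a = q b → a = b) :
    CfG B Q n r x (fun a => D (q a)) i j where
  toCg0 := h.toCg0.permC hq hi
  tot := by
    rw [sum_pre hq hi (fun a => wv B Q (D a))]
    exact h.tot

theorem Cg0.permX (h : Cg0 B Q n r x D i j) {p : ℕ → ℕ} (hp : ∀ a < 6 + n, p a < 6 + n)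
    (hi : ∀ a < 6 + n, ∀ b < 6 + n, p a = p b → a = b)
    (h7 : (pmk p (6 + n) 7 = 7 ∧ pmk p (6 + n) 56 = 56) ∨
      (pmk p (6 + n) 7 = 56 ∧ pmk p (6 + n) 56 = 7)) :
    ∃ i' j', Cg0 B Q n r (fun a => x (p a)) D i' j' := by
  classical
  have hall : ∀ S A : Finset ℕ, (∀ s ∈ S, s < r) → S.Nonempty → (∀ a ∈ A, a < 6 + n) →
      ((∀ a ∈ A, x (p a) ∉ B i) ∨ ∀ a ∈ A, x (p a) ∉ B j) → 3 + n ≤ S.card + A.card →
      ∃ s ∈ S, ∃ a ∈ A, (Ez B (D s) (x (p a))).Nonempty := by
    intro S A hS hne hA hAij hc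
    obtain ⟨s, hs, a, ha, he⟩ := h.hall S (A.image p) hS hne (by
      intro a ha
      obtain ⟨b, hb, rfl⟩ := mem_image.1 ha
      exact hp b (hA b hb)) (by
      rcases hAij with h1 | h1
      · left
        intro a ha
        obtain ⟨b, hb, rfl⟩ := mem_image.1 ha
        exact h1 b hb
      · right
        intro a ha
        obtain ⟨b, hb, rfl⟩ := mem_image.1 ha
        exact h1 b hb) (by
      rw [card_image_of_injOn (s := A)]
      · exact hc
      · intro a ha b hb he
        exact hi a (hA a ha) b (hA b hb) he)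
    obtain ⟨b, hb, rfl⟩ := mem_image.1 ha
    exact ⟨s, hs, b, hb, he⟩
  rcases h7 with ⟨h7, h56⟩ | ⟨h7, h56⟩
  · exact ⟨i, j, h.n2, h.r1, h.rn, h.cf.permX hp hi, h.ih, h.ihr, by rw [ptm_pmk p hp, h7, h.i7],
      by rw [ptm_pmk p hp, h56, h.j56], h.ij, h.sge, h.lge, hall⟩
  · exact ⟨j, i, h.n2, h.r1, h.rn, h.cf.permX hp hi, h.ih, h.ihr, by rw [ptm_pmk p hp, h7, h.j56],
      by rw [ptm_pmk p hp, h56, h.i7], h.ij.symm, h.sge, h.lge,
      fun S A hS hne hA hAij hc => hall S A hS hne hA hAij.symm hc⟩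

/-! ### the form of the checks -/

/-- the number of the blocks meeting a component and containing a point. -/
theorem ecB_pow {N r k : ℕ} {x : ℕ → V} {C : ℕ → Finset V} (_h : Cf B Q N r x C k) {s a : ℕ}
    (ha : a < N) : ecB B x N C s (2 ^ a) = (Ez B (C s) (x a)).card := by
  unfold ecB
  congr 1
  ext k
  rw [mem_cxs_bit ha, mem_Ez]
  exact and_comm

theorem Cg0.hallB (h : Cg0 B Q n r x D i j) (S A : List ℕ) (hS : S.Nodup) (hA : A.Nodup)
    (hne : S ≠ []) (hSr : ∀ s ∈ S, s < r) (hAN : ∀ a ∈ A, a < 6 + n)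
    (hT : (∀ a ∈ A, (7).testBit a = false) ∨ ∀ a ∈ A, (56).testBit a = false)
    (hle : 6 + n ≤ S.length + A.length + 3) :
    ∃ s ∈ S, ∃ a ∈ A, 1 ≤ ecB B x (6 + n) D s (2 ^ a) := by
  classical
  have hcS : S.toFinset.card = S.length := List.toFinset_card_of_nodup hS
  have hcA : A.toFinset.card = A.length := List.toFinset_card_of_nodup hA
  have hneS : S.toFinset.Nonempty := by
    rw [← card_pos, hcS]
    exact List.length_pos_of_ne_nil hne
  obtain ⟨s, hs, a, ha, hk⟩ := h.hall S.toFinset A.toFinset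
    (fun s hs => hSr s (List.mem_toFinset.1 hs)) hneS
    (fun a ha => hAN a (List.mem_toFinset.1 ha)) (by
      rcases hT with hT | hT
      · left
        intro a ha hxa
        rw [List.mem_toFinset] at ha
        have h1 : x a ∈ ptm x (6 + n) 7 := by
          rw [← h.i7]
          exact mem_inter.2 ⟨hxa, h.cf.xQ a (hAN a ha)⟩
        rw [h.cf.mem_pt (hAN a ha), hT a ha] at h1
        exact absurd h1 (by simp)
      · right
        intro a ha hxa
        rw [List.mem_toFinset] at ha
        have h1 : x a ∈ ptm x (6 + n) 56 := by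
          rw [← h.j56]
          exact mem_inter.2 ⟨hxa, h.cf.xQ a (hAN a ha)⟩
        rw [h.cf.mem_pt (hAN a ha), hT a ha] at h1
        exact absurd h1 (by simp)) (by omega)
  rw [List.mem_toFinset] at hs ha
  refine ⟨s, hs, a, ha, ?_⟩
  rw [ecB_pow h.cf (hAN a ha)]
  exact card_pos.2 hk

/-- the configuration in the form of the checks. -/
theorem Cg0.toR (h : Cg0 B Q n r x D i j) (hr2 : 2 ≤ r) {ub ins : List ℕ}
    (hins : ∀ A ∈ ins, A < 2 ^ (6 + n))
    (hcnt : ∀ A < 2 ^ (6 + n), A ≠ 0 → (ib B Q x (6 + n) A).card = (7 :: 56 :: ins).count A)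
    (hub : ∀ a < r, wv B Q (D a) ≤ (ub.getD a 0 : ℤ)) : CfR B Q (6 + n) r x D ub ins where
  ci := by
    have hn2 := h.n2
    have hrn := h.rn
    refine ⟨h.cf, by omega, by omega, by omega, by simp, by simp, ?_, hcnt, h.hallB⟩
    have h64 : 64 ≤ 2 ^ (6 + n) := by
      calc 64 = 2 ^ 6 := by norm_num
        _ ≤ 2 ^ (6 + n) := Nat.pow_le_pow_right (by norm_num) (by omega)
    intro A hA
    simp only [List.mem_cons] at hA
    rcases hA with rfl | rfl | hA
    · omega
    · omega
    · exact hins A hA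
  ihe := h.ih
  ihr := h.ihr
  r2 := hr2
  val := fun a ha => (wv_ge (D a)).trans (hub a ha)

/-- a configuration with `2 + n` components, bounds for the values and the list of the masks of the inner
blocks other than the two full blocks. -/
structure CgI (B : ι → Finset V) (Q : Finset V) (n : ℕ) (x : ℕ → V) (D : ℕ → Finset V) (i j : ι)
    (ub ins : List ℕ) : Prop extends Cg0 B Q n (2 + n) x D i j where
  cnt : ∀ A < 2 ^ (6 + n), A ≠ 0 → (ib B Q x (6 + n) A).card = (7 :: 56 :: ins).count A
  kle : ∀ a < 2 + n, wv B Q (D a) ≤ (ub.getD a 0 : ℤ)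

/-! ### all components -/

theorem Cg0.finU (h : Cg0 B Q n (2 + n) x D i j)
    (hsrt : ∀ a b, a ≤ b → b < 2 + n → wv B Q (D a) ≤ wv B Q (D b)) {L : List ℕ}
    (hc : ∀ A < 2 ^ (6 + n), A ≠ 0 → (ib B Q x (6 + n) A).card = (7 :: 56 :: L).count A)
    (hsum : ∑ a ∈ range (2 + n), wv B Q (D a) + 4 * (L.length : ℤ) + 4 * (n : ℤ) ≤
      10 + 2 * (e2n n L : ℤ)) {pl R : List ℕ} (hp : pl ≠ [] → okp (6 + n) pl = true)
    (hchk : chkU n L pl R = true) :
    ∃ t ∈ instU, ∃ x' i' j', CgI B Q t.1 x' D i' j' t.2.1 t.2.2 := by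
  have hnn : 0 ≤ ∑ a ∈ range (2 + n), wv B Q (D a) :=
    sum_nonneg fun a ha => wv_nn (h.lge a (mem_range.1 ha))
  have h2e := two_e2n_le n L
  unfold chkU at hchk
  rw [Bool.or_eq_true, decide_eq_true_eq] at hchk
  rcases hchk with hchk | hchk
  · exfalso
    omega
  rw [Bool.and_eq_true, Bool.and_eq_true, Bool.and_eq_true, List.all_eq_true] at hchk
  obtain ⟨⟨⟨h2, h3⟩, h4⟩, h5⟩ := hchk
  obtain ⟨kv, hkv, hlen, hle⟩ := exists_kv (S := 10 + 2 * e2n n L - 4 * L.length - 4 * n) h.n2
    (by omega) (fun a => wv B Q (D a)) (fun a ha => wv_nn (h.lge a ha)) (fun a _ => wv_even _) hsrt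
    (by omega)
  have h6 : (n, kv, R) ∈ instU := by
    rw [← List.contains_iff_mem]
    exact h2 kv hkv
  have hpl : pl ≠ [] := by
    rintro rfl
    simp at h3
  refine ⟨_, h6, ?_⟩
  have hok := hp hpl
  unfold okp at hok
  simp only [Bool.and_eq_true, List.all_eq_true, List.mem_range, decide_eq_true_eq,
    Bool.or_eq_true, Bool.not_eq_true', decide_eq_false_iff_not] at hok
  obtain ⟨⟨hpp, hi⟩, h7⟩ := hok
  set p : ℕ → ℕ := fun a => pl.getD a 0 with hpd
  have hi' : ∀ a < 6 + n, ∀ b < 6 + n, p a = p b → a = b := by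
    intro a ha b hb he
    rcases hi a ha b hb with h1 | h1
    · exact h1
    · exact absurd he h1
  have hRlt : ∀ A ∈ R, A < 2 ^ (6 + n) := by
    intro A hA
    have := List.all_eq_true.1 h4 A hA
    simpa using this
  have hLR : L.Perm (R.map (pmk p (6 + n))) := List.isPerm_iff.1 h5
  have h64 : 64 ≤ 2 ^ (6 + n) := by
    calc 64 = 2 ^ 6 := by norm_num
      _ ≤ 2 ^ (6 + n) := Nat.pow_le_pow_right (by norm_num) (by omega)
  obtain ⟨i', j', hK⟩ := h.permX (p := p) hpp hi' h7
  refine ⟨fun a => x (p a), i', j', hK, ?_, by simpa using hle⟩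
  refine cnt_perm (L := 7 :: 56 :: L) hpp hi' ?_ ?_ hc
  · intro A hA
    rw [List.mem_cons, List.mem_cons] at hA
    rcases hA with rfl | rfl | hA
    · omega
    · omega
    · exact hRlt A hA
  · rw [List.map_cons, List.map_cons]
    rcases h7 with ⟨h7, h56⟩ | ⟨h7, h56⟩
    · rw [h7, h56]
      exact (hLR.cons 56).cons 7
    · rw [h7, h56]
      exact ((hLR.cons 56).cons 7).trans (List.Perm.swap _ _ _)

/-- **reduction to the instances**, `2 + n` components. -/
theorem CfG.reduceU (h : CfG B Q n (2 + n) x D i j) :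
    ∃ t ∈ instU, ∃ x' D' i' j', CgI B Q t.1 x' D' i' j' t.2.1 t.2.2 := by
  obtain ⟨q, hq1, hq2, hq3⟩ := exists_sort (2 + n) (fun a => wv B Q (D a))
  have hK := h.permC hq1 hq2
  obtain ⟨L, hLs, hLm, hc, hsum0⟩ := hK.exists_ins
  have h2e := two_e2n_le n L
  have hnn : 0 ≤ ∑ a ∈ range (2 + n), wv B Q (D (q a)) :=
    sum_nonneg fun a ha => wv_nn (hK.lge a (mem_range.1 ha))
  have hev : (∑ a ∈ range (2 + n), wv B Q (D (q a))) % 2 = 0 := by
    have : (2 : ℤ) ∣ ∑ a ∈ range (2 + n), wv B Q (D (q a)) :=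
      dvd_sum fun a _ => Int.dvd_of_emod_eq_zero (wv_even _)
    omega
  have hsum : ∑ a ∈ range (2 + n), wv B Q (D (q a)) + 4 * (L.length : ℤ) + 4 * (n : ℤ) ≤
      10 + 2 * (e2n n L : ℤ) := by
    push_cast at hsum0
    omega
  have hmem : ∀ A ∈ L, A ∈ mskL (6 + n) := by
    intro A hA
    obtain ⟨k1, k2, k3⟩ := hLm A hA
    unfold mskL
    rw [List.mem_filter, List.mem_range]
    exact ⟨k1, by simp [k2, k3]⟩
  have fin : ∀ {L' pl R : List ℕ}, L.Perm L' → (pl ≠ [] → okp (6 + n) pl = true) →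
      chkU n L' pl R = true →
      ∃ t ∈ instU, ∃ x' D' i' j', CgI B Q t.1 x' D' i' j' t.2.1 t.2.2 := by
    intro L' pl R hLL hp hchk
    obtain ⟨t, ht, x', i', j', hI⟩ := hK.toCg0.finU hq3 (L := L') (by
      intro A hA hA0
      rw [hc A hA hA0, ((hLL.cons 56).cons 7).count_eq]) (by
      rw [← hLL.length_eq, ← e2n_perm hLL]
      exact hsum) hp hchk
    exact ⟨t, ht, x', _, i', j', hI⟩
  have hn2 := h.n2
  have hA : ∀ A, n ≤ 1 → (luA n A).1 ≠ [] → okp (6 + n) (luA n A).1 = true := by
    intro A hn hne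
    unfold luA at hne ⊢
    split at hne
    · exact okp_prm hn hne
    · exact absurd rfl hne
  have hB : ∀ row A, n ≤ 1 → (lkB row n A).1 ≠ [] → okp (6 + n) (lkB row n A).1 = true := by
    intro row A hn hne
    unfold lkB at hne ⊢
    split at hne
    · exact okp_prm hn hne
    · exact absurd rfl hne
  have hC : ∀ row A, (luC row A).1 ≠ [] → okp (6 + 0) (luC row A).1 = true := by
    intro row A hne
    unfold luC at hne ⊢
    split at hne
    · exact okp_prm (by norm_num) hne
    · exact absurd rfl hne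
  rcases L with _ | ⟨A, _ | ⟨A', _ | ⟨A'', L⟩⟩⟩
  · have h0 := chu_nil
    simp only [Bool.and_eq_true] at h0
    obtain ⟨⟨⟨⟨⟨c0, c1⟩, c2⟩, c3⟩, c4⟩, c5⟩ := h0
    interval_cases n
    · exact fin (List.Perm.refl _) (fun _ => c3) c0
    · exact fin (List.Perm.refl _) (fun _ => c4) c1
    · exact fin (List.Perm.refl _) (fun _ => c5) c2
  · have hn1 : n ≤ 1 := by
      simp only [List.length_cons, List.length_nil] at h2e hsum
      omega
    have hm := hmem A (by simp)
    refine fin (List.Perm.refl _) (pl := (luA n A).1) (R := (luA n A).2) (hA A hn1) ?_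
    interval_cases n
    · exact List.all_eq_true.1 chu_one0 A hm
    · exact List.all_eq_true.1 chu_one1 A hm
  · have hn1 : n ≤ 1 := by
      simp only [List.length_cons, List.length_nil] at h2e hsum
      omega
    have hm := hmem A (by simp)
    have hm' := hmem A' (by simp)
    have hAA : A ≤ A' := by
      rw [List.pairwise_cons] at hLs
      exact hLs.1 A' (by simp)
    refine fin (List.Perm.refl _) (pl := (lkB (rowU n A) n A').1)
      (R := (lkB (rowU n A) n A').2) (hB _ A' hn1) ?_
    interval_cases n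
    · have h1 := List.all_eq_true.1 (List.all_eq_true.1 chu_two0 A hm) A' hm'
      rw [Bool.or_eq_true, decide_eq_true_eq] at h1
      rcases h1 with h1 | h1
      · omega
      · exact h1
    · have h1 := List.all_eq_true.1 (List.all_eq_true.1 chu_two1 A hm) A' hm'
      rw [Bool.or_eq_true, decide_eq_true_eq] at h1
      rcases h1 with h1 | h1
      · omega
      · exact h1
  · have hlen : (A :: A' :: A'' :: L).length = 3 + L.length := by
      simp only [List.length_cons]
      omega
    have hL0 : L.length = 0 := by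
      rw [hlen] at h2e hsum
      omega
    have hn0 : n = 0 := by
      rw [hlen] at h2e hsum
      omega
    subst hn0
    rw [List.length_eq_zero_iff] at hL0
    subst hL0
    have he : 1 ≤ e2n 0 [A, A', A''] := by
      simp only [List.length_cons, List.length_nil] at hsum
      omega
    obtain ⟨a, ha, h2⟩ : ∃ a < 6, 2 ≤ [A, A', A''].count (2 ^ a) := by
      unfold e2n at he
      have h3 : 0 < ((List.range (6 + 0)).filter (fun a =>
          decide (2 ≤ [A, A', A''].count (2 ^ a)))).length := by omega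
      obtain ⟨a, ha⟩ := List.exists_mem_of_length_pos h3
      rw [List.mem_filter, List.mem_range, decide_eq_true_eq] at ha
      exact ⟨a, ha.1, ha.2⟩
    obtain ⟨L', hL'⟩ := exists_front h2
    have hl3 := hL'.length_eq
    simp only [List.length_cons, List.length_nil] at hl3
    obtain ⟨M, rfl⟩ : ∃ M, L' = [M] := List.length_eq_one_iff.1 (by omega)
    have hM : M ∈ mskL 6 := by
      have h4 : M ∈ [A, A', A''] := hL'.mem_iff.2 (by simp)
      exact hmem M h4
    refine fin hL' (pl := (luC (rowC a) M).1) (R := (luC (rowC a) M).2) (hC _ _) ?_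
    exact List.all_eq_true.1 (List.all_eq_true.1 chu_three a (List.mem_range.2 ha)) M hM

/-! ### an explicit leaf -/

/-- the instances with an explicit leaf: number of further points, upper bounds for the values of the
components (the leaf first), masks of the further inner blocks. -/
def instG : List (ℕ × List ℕ × List ℕ) :=
  [(1, [0, 6], []),
   (1, [2, 4], []),
   (1, [4, 2], []),
   (1, [6, 0], []),
   (1, [0, 2], [1]),
   (1, [2, 0], [1]),
   (1, [0, 2], [3]),
   (1, [2, 0], [3]),
   (1, [0, 2], [7]),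
   (1, [2, 0], [7]),
   (1, [0, 2], [9]),
   (1, [2, 0], [9]),
   (1, [0, 2], [11]),
   (1, [2, 0], [11]),
   (1, [0, 2], [64]),
   (1, [2, 0], [64]),
   (1, [0, 2], [65]),
   (1, [2, 0], [65]),
   (1, [0, 2], [67]),
   (1, [2, 0], [67]),
   (1, [0, 2], [73]),
   (1, [2, 0], [73]),
   (1, [0, 0], [1, 1]),
   (1, [0, 0], [64, 64]),
   (2, [0, 0], []),
   (2, [0, 0, 2], []),
   (2, [2, 0, 0], [])]

/-- bounds for the hits of the leaf `D 0`. -/
structure Lfc (B : ι → Finset V) (Q : Finset V) (n : ℕ) (x : ℕ → V) (D : ℕ → Finset V) (s : ℕ) :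
    Prop where
  s6 : 6 * (s : ℤ) ≤ 5 * wv B Q (D 0) + 55
  s7 : 5 * wv B Q (D 0) + 49 ≤ 6 * (s : ℤ)
  slot : ∑ a ∈ range (6 + n), (Ez B (D 0) (x a)).card ≤ s
  low : s ≤ ∑ a ∈ range 6, (Ez B (D 0) (x a)).card + 1
  c6 : 1 ≤ n → (Ez B (D 0) (x 6)).card ≤ 1
  c7 : n = 2 → (Ez B (D 0) (x 7)).card = 0

theorem Lfc.toL {s : ℕ} (hl : Lfc B Q n x D s) {ub ins : List ℕ}
    (h : CfR B Q (6 + n) r x D ub ins) {H : ℕ} (hH : H + 1 ≤ s) :
    CfL B Q n r x D ub ins s H where
  toCfR := h
  slot := by
    rw [sum_congr rfl fun a ha => ecB_pow h.ci.cf (mem_range.1 ha)]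
    exact hl.slot
  low := by
    have h1 : ∀ a ∈ range 6, ecB B x (6 + n) D 0 (2 ^ a) = (Ez B (D 0) (x a)).card := fun a ha =>
      ecB_pow h.ci.cf (by have := mem_range.1 ha; omega)
    rw [sum_congr rfl h1]
    have := hl.low
    omega
  c6 := fun h1 => by
    rw [ecB_pow h.ci.cf (by omega)]
    exact hl.c6 h1
  c7 := fun h1 => by
    rw [ecB_pow h.ci.cf (by omega)]
    exact hl.c7 h1

/-- the permutations of the checks do not change the six points of the full blocks. -/
theorem pm_lt6 {p : ℕ → ℕ} (hp : ∀ a < 6 + n, p a < 6 + n)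
    (h7 : (pmk p (6 + n) 7 = 7 ∧ pmk p (6 + n) 56 = 56) ∨
      (pmk p (6 + n) 7 = 56 ∧ pmk p (6 + n) 56 = 7)) : ∀ a < 6, p a < 6 := by
  intro a ha
  by_contra hcon
  push Not at hcon
  have hb : ∀ M, M < 64 → M.testBit (p a) = false := by
    intro M hM
    apply Nat.testBit_lt_two_pow
    calc M < 2 ^ 6 := by omega
      _ ≤ 2 ^ p a := Nat.pow_le_pow_right (by norm_num) hcon
  have h1 : (7).testBit a = true ∨ (56).testBit a = true := by
    interval_cases a <;> decide
  rcases h1 with h1 | h1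
  · have h2 := (testBit_pmk p 7 (p a) (6 + n)).2 ⟨a, by omega, h1, rfl⟩
    rcases h7 with ⟨h7, _⟩ | ⟨h7, _⟩
    · rw [h7, hb 7 (by norm_num)] at h2
      exact absurd h2 (by simp)
    · rw [h7, hb 56 (by norm_num)] at h2
      exact absurd h2 (by simp)
  · have h2 := (testBit_pmk p 56 (p a) (6 + n)).2 ⟨a, by omega, h1, rfl⟩
    rcases h7 with ⟨_, h7⟩ | ⟨_, h7⟩
    · rw [h7, hb 56 (by norm_num)] at h2
      exact absurd h2 (by simp)
    · rw [h7, hb 7 (by norm_num)] at h2
      exact absurd h2 (by simp)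

theorem Lfc.permX {s : ℕ} (hl : Lfc B Q 1 x D s) {p : ℕ → ℕ} (hp : ∀ a < 6 + 1, p a < 6 + 1)
    (hi : ∀ a < 6 + 1, ∀ b < 6 + 1, p a = p b → a = b)
    (h7 : (pmk p (6 + 1) 7 = 7 ∧ pmk p (6 + 1) 56 = 56) ∨
      (pmk p (6 + 1) 7 = 56 ∧ pmk p (6 + 1) 56 = 7)) :
    Lfc B Q 1 (fun a => x (p a)) D s where
  s6 := hl.s6
  s7 := hl.s7
  slot := by
    rw [sum_pre hp hi (fun a => (Ez B (D 0) (x a)).card)]
    exact hl.slot
  low := by
    rw [sum_pre (pm_lt6 hp h7) (fun a ha b hb he => hi a (by omega) b (by omega) he)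
      (fun a => (Ez B (D 0) (x a)).card)]
    exact hl.low
  c6 := fun h1 => by
    have h6 : p 6 = 6 := by
      have h2 := hp 6 (by norm_num)
      by_contra hne
      obtain ⟨a, ha, he⟩ := exists_pre (pm_lt6 hp h7)
        (fun a ha b hb he => hi a (by omega) b (by omega) he) (b := p 6) (by omega)
      have := hi a (by omega) 6 (by norm_num) he
      omega
    show (Ez B (D 0) (x (p 6))).card ≤ 1
    rw [h6]
    exact hl.c6 h1
  c7 := fun h1 => by omega

/-- the impossible instances with an explicit leaf. -/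
def NoG (V : Type v) [DecidableEq V] (ι : Type u) [Fintype ι] : Prop :=
  ∀ (B : ι → Finset V) (Q : Finset V) (x : ℕ → V) (D : ℕ → Finset V), ∀ t ∈ instG,
    ¬ CfL B Q t.1 t.2.1.length x D t.2.1 t.2.2 (sl (t.2.1.getD 0 0)) (sl (t.2.1.getD 0 0) - 1)

/-- one further point, two components, the check for three components settles the permutations. -/
theorem Cg0.finL (hno : NoG.{u} V ι) (h : Cg0 B Q 1 2 x D i j) {s : ℕ} (hl : Lfc B Q 1 x D s)
    {L : List ℕ}
    (hc : ∀ A < 2 ^ (6 + 1), A ≠ 0 → (ib B Q x (6 + 1) A).card = (7 :: 56 :: L).count A)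
    {kv : List ℕ} (hkv : kv.length = 2) (hub : ∀ a < 2, wv B Q (D a) ≤ (kv.getD a 0 : ℤ))
    (hs : sl (kv.getD 0 0) = s) {pl R : List ℕ} (hpl : okp (6 + 1) pl = true)
    (hin : (1, kv, R) ∈ instG) (h4 : R.all (fun A => decide (A < 2 ^ (6 + 1))) = true)
    (h5 : L.isPerm (R.map (pmk (fun a => pl.getD a 0) (6 + 1))) = true) : False := by
  have hok := hpl
  unfold okp at hok
  simp only [Bool.and_eq_true, List.all_eq_true, List.mem_range, decide_eq_true_eq,
    Bool.or_eq_true, Bool.not_eq_true', decide_eq_false_iff_not] at hok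
  obtain ⟨⟨hpp, hi⟩, h7⟩ := hok
  set p : ℕ → ℕ := fun a => pl.getD a 0 with hpd
  have hi' : ∀ a < 6 + 1, ∀ b < 6 + 1, p a = p b → a = b := by
    intro a ha b hb he
    rcases hi a ha b hb with h1 | h1
    · exact h1
    · exact absurd he h1
  have hRlt : ∀ A ∈ R, A < 2 ^ (6 + 1) := by
    intro A hA
    have := List.all_eq_true.1 h4 A hA
    simpa using this
  have hLR : L.Perm (R.map (pmk p (6 + 1))) := List.isPerm_iff.1 h5
  obtain ⟨i', j', hK⟩ := h.permX (p := p) hpp hi' h7
  have hcf : CfR B Q (6 + 1) 2 (fun a => x (p a)) D kv R := hK.toR (by omega) hRlt (by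
    refine cnt_perm (L := 7 :: 56 :: L) hpp hi' ?_ ?_ hc
    · intro A hA
      rw [List.mem_cons, List.mem_cons] at hA
      rcases hA with rfl | rfl | hA
      · norm_num
      · norm_num
      · exact hRlt A hA
    · rw [List.map_cons, List.map_cons]
      rcases h7 with ⟨h7, h56⟩ | ⟨h7, h56⟩
      · rw [h7, h56]
        exact (hLR.cons 56).cons 7
      · rw [h7, h56]
        exact ((hLR.cons 56).cons 7).trans (List.Perm.swap _ _ _)) hub
  have hs1 : 1 ≤ s := by
    rw [← hs]
    unfold sl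
    split_ifs <;> norm_num
  have h1 := (hl.permX hpp hi' h7).toL hcf (H := s - 1) (by omega)
  have h2 := hno B Q (fun a => x (p a)) D _ hin
  apply h2
  show CfL B Q 1 kv.length (fun a => x (p a)) D kv R (sl (kv.getD 0 0)) (sl (kv.getD 0 0) - 1)
  rw [hs, hkv]
  exact h1

theorem chG_one : ((mskL 7).all (fun A => !((luA 1 A).1.isEmpty) &&
    instG.contains (1, [0, 2], (luA 1 A).2) && instG.contains (1, [2, 0], (luA 1 A).2) &&
    (luA 1 A).2.all (fun A => decide (A < 2 ^ (6 + 1))) &&
    [A].isPerm ((luA 1 A).2.map (pmk (fun a => (luA 1 A).1.getD a 0) (6 + 1))))) = true := by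
  decide +kernel

theorem chG_two : ((List.range 7).all (fun a => !((lkB (rowU 1 (2 ^ a)) 1 (2 ^ a)).1.isEmpty) &&
    instG.contains (1, [0, 0], (lkB (rowU 1 (2 ^ a)) 1 (2 ^ a)).2) &&
    (lkB (rowU 1 (2 ^ a)) 1 (2 ^ a)).2.all (fun A => decide (A < 2 ^ (6 + 1))) &&
    [2 ^ a, 2 ^ a].isPerm ((lkB (rowU 1 (2 ^ a)) 1 (2 ^ a)).2.map
      (pmk (fun b => (lkB (rowU 1 (2 ^ a)) 1 (2 ^ a)).1.getD b 0) (6 + 1))))) = true := by
  decide +kernel

/-- one further point, two components. -/
theorem CfG.no_leaf12 (hno : NoG.{u} V ι) (h : CfG B Q 1 2 x D i j) {s : ℕ}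
    (hl : Lfc B Q 1 x D s) : False := by
  obtain ⟨L, hLs, hLm, hc, hsum⟩ := h.exists_ins
  have h2e := two_e2n_le 1 L
  have w0 := wv_nn (h.lge 0 (by norm_num))
  have w1 := wv_nn (h.lge 1 (by norm_num))
  have e0 := wv_even (B := B) (Q := Q) (D 0)
  have e1 := wv_even (B := B) (Q := Q) (D 1)
  have s6 := hl.s6
  have s7 := hl.s7
  simp only [sum_range_succ, sum_range_zero] at hsum
  push_cast at hsum
  have hmem : ∀ A ∈ L, A ∈ mskL (6 + 1) := by
    intro A hA
    obtain ⟨k1, k2, k3⟩ := hLm A hA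
    unfold mskL
    rw [List.mem_filter, List.mem_range]
    exact ⟨k1, by simp [k2, k3]⟩
  have hub : ∀ a b : ℕ, wv B Q (D 0) ≤ a → wv B Q (D 1) ≤ b →
      ∀ c < 2, wv B Q (D c) ≤ (([a, b] : List ℕ).getD c 0 : ℤ) := by
    intro a b ha hb c hc
    interval_cases c
    · exact ha
    · exact hb
  rcases L with _ | ⟨A, _ | ⟨A', _ | ⟨A'', L⟩⟩⟩
  · have h0 := chu_nil
    simp only [Bool.and_eq_true] at h0
    simp only [List.length_nil] at h2e hsum
    have hcs : wv B Q (D 0) = 0 ∨ wv B Q (D 0) = 2 ∨ wv B Q (D 0) = 4 ∨ wv B Q (D 0) = 6 := by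
      omega
    rcases hcs with hk | hk | hk | hk
    · exact h.toCg0.finL hno hl hc (kv := [0, 6]) rfl (hub 0 6 (by omega) (by push_cast; omega))
        (by show 9 = s; omega) (pl := [0, 1, 2, 3, 4, 5, 6]) (R := []) h0.1.2 (by decide) rfl rfl
    · exact h.toCg0.finL hno hl hc (kv := [2, 4]) rfl (hub 2 4 (by push_cast; omega)
        (by push_cast; omega)) (by show 10 = s; omega) (pl := [0, 1, 2, 3, 4, 5, 6]) (R := [])
        h0.1.2 (by decide) rfl rfl
    · exact h.toCg0.finL hno hl hc (kv := [4, 2]) rfl (hub 4 2 (by push_cast; omega)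
        (by push_cast; omega)) (by show 12 = s; omega) (pl := [0, 1, 2, 3, 4, 5, 6]) (R := [])
        h0.1.2 (by decide) rfl rfl
    · exact h.toCg0.finL hno hl hc (kv := [6, 0]) rfl (hub 6 0 (by push_cast; omega)
        (by push_cast; omega)) (by show 14 = s; omega) (pl := [0, 1, 2, 3, 4, 5, 6]) (R := [])
        h0.1.2 (by decide) rfl rfl
  · simp only [List.length_cons, List.length_nil] at h2e hsum
    have hm := hmem A (by simp)
    have h1 := List.all_eq_true.1 chG_one A hm
    simp only [Bool.and_eq_true] at h1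
    obtain ⟨⟨⟨⟨k1, k2⟩, k3⟩, k4⟩, k5⟩ := h1
    have hpl : okp (6 + 1) (luA 1 A).1 = true := by
      unfold luA at k1 ⊢
      split at k1
      · refine okp_prm (by norm_num) ?_
        rintro he
        rw [he] at k1
        simp at k1
      · simp at k1
    rw [List.contains_iff_mem] at k2 k3
    have hcs : wv B Q (D 0) = 0 ∨ wv B Q (D 0) = 2 := by omega
    rcases hcs with hk | hk
    · exact h.toCg0.finL hno hl hc (kv := [0, 2]) rfl (hub 0 2 (by omega) (by push_cast; omega))
        (by show 9 = s; omega) hpl k2 k4 k5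
    · exact h.toCg0.finL hno hl hc (kv := [2, 0]) rfl (hub 2 0 (by push_cast; omega)
        (by push_cast; omega)) (by show 10 = s; omega) hpl k3 k4 k5
  · simp only [List.length_cons, List.length_nil] at h2e hsum
    have he : 1 ≤ e2n 1 [A, A'] := by omega
    obtain ⟨a, ha, h2⟩ : ∃ a < 7, 2 ≤ [A, A'].count (2 ^ a) := by
      unfold e2n at he
      have h3 : 0 < ((List.range (6 + 1)).filter (fun a =>
          decide (2 ≤ [A, A'].count (2 ^ a)))).length := by omega
      obtain ⟨a, ha⟩ := List.exists_mem_of_length_pos h3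
      rw [List.mem_filter, List.mem_range, decide_eq_true_eq] at ha
      exact ⟨a, ha.1, ha.2⟩
    obtain ⟨L', hL'⟩ := exists_front h2
    have hl3 := hL'.length_eq
    simp only [List.length_cons, List.length_nil] at hl3
    have hL0 : L' = [] := List.length_eq_zero_iff.1 (by omega)
    subst hL0
    have h1 := List.all_eq_true.1 chG_two a (List.mem_range.2 ha)
    simp only [Bool.and_eq_true] at h1
    obtain ⟨⟨⟨k1, k2⟩, k4⟩, k5⟩ := h1
    have hpl : okp (6 + 1) (lkB (rowU 1 (2 ^ a)) 1 (2 ^ a)).1 = true := by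
      unfold lkB at k1 ⊢
      split at k1
      · refine okp_prm (by norm_num) ?_
        rintro he
        rw [he] at k1
        simp at k1
      · simp at k1
    rw [List.contains_iff_mem] at k2
    have hc' : ∀ A0 < 2 ^ (6 + 1), A0 ≠ 0 →
        (ib B Q x (6 + 1) A0).card = (7 :: 56 :: [2 ^ a, 2 ^ a]).count A0 := by
      intro A0 hA hA0
      rw [hc A0 hA hA0, ((hL'.cons 56).cons 7).count_eq]
    have e2 : e2n 1 [A, A'] ≤ 1 := by omega
    exact h.toCg0.finL hno hl hc' (kv := [0, 0]) rfl (hub 0 0 (by push_cast; omega)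
      (by push_cast; omega)) (by show 9 = s; omega) hpl k2 k4 k5
  · exfalso
    simp only [List.length_cons] at h2e hsum
    push_cast at hsum
    omega

/-- two further points, two or three components. -/
theorem CfG.no_leaf2 (hno : NoG.{u} V ι) (h : CfG B Q 2 r x D i j) (hr2 : 2 ≤ r) (hr : r ≤ 3) {s : ℕ}
    (hl : Lfc B Q 2 x D s) : False := by
  obtain ⟨L, hLs, hLm, hc, hsum⟩ := h.exists_ins
  have h2e := two_e2n_le 2 L
  have hw : ∀ a < r, 0 ≤ wv B Q (D a) := fun a ha => wv_nn (h.lge a ha)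
  have hev : ∀ a, wv B Q (D a) % 2 = 0 := fun a => wv_even (D a)
  have hnn : 0 ≤ ∑ a ∈ range r, wv B Q (D a) := sum_nonneg fun a ha => hw a (mem_range.1 ha)
  have s6 := hl.s6
  have s7 := hl.s7
  have hL0 : L = [] := by
    rw [← List.length_eq_zero_iff]
    push_cast at hsum
    have : (r : ℤ) ≤ 3 := by exact_mod_cast hr
    omega
  subst hL0
  have he0 : e2n 2 [] = 0 := by
    simp only [List.length_nil] at h2e
    omega
  rw [he0] at hsum
  simp only [List.length_nil] at hsum
  interval_cases r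
  · have w0 := hw 0 (by norm_num)
    have w1 := hw 1 (by norm_num)
    have e0 := hev 0
    have e1 := hev 1
    simp only [sum_range_succ, sum_range_zero] at hsum
    push_cast at hsum
    have hcf : CfR B Q (6 + 2) 2 x D [0, 0] [] := h.toCg0.toR (by norm_num) (by simp) hc (by
      intro a ha
      interval_cases a
      · show wv B Q (D 0) ≤ ((0 : ℕ) : ℤ)
        push_cast
        omega
      · show wv B Q (D 1) ≤ ((0 : ℕ) : ℤ)
        push_cast
        omega)
    have hs : s = 9 := by omega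
    subst hs
    exact hno B Q x D (2, [0, 0], []) (by decide) (hl.toL hcf (H := 8) (by norm_num))
  · have w0 := hw 0 (by norm_num)
    have w1 := hw 1 (by norm_num)
    have w2 := hw 2 (by norm_num)
    have e0 := hev 0
    have e1 := hev 1
    have e2 := hev 2
    simp only [sum_range_succ, sum_range_zero] at hsum
    push_cast at hsum
    have hcs : (wv B Q (D 0) = 0 ∧ wv B Q (D 1) = 0 ∧ wv B Q (D 2) ≤ 2) ∨
        (wv B Q (D 0) = 2 ∧ wv B Q (D 1) = 0 ∧ wv B Q (D 2) = 0) ∨
        (wv B Q (D 0) = 0 ∧ wv B Q (D 1) ≤ 2 ∧ wv B Q (D 2) = 0) := by omega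
    rcases hcs with ⟨k0, k1, k2⟩ | ⟨k0, k1, k2⟩ | ⟨k0, k1, k2⟩
    · have hcf : CfR B Q (6 + 2) 3 x D [0, 0, 2] [] := h.toCg0.toR (by norm_num) (by simp) hc (by
        intro a ha
        interval_cases a
        · show wv B Q (D 0) ≤ ((0 : ℕ) : ℤ)
          push_cast
          omega
        · show wv B Q (D 1) ≤ ((0 : ℕ) : ℤ)
          push_cast
          omega
        · show wv B Q (D 2) ≤ ((2 : ℕ) : ℤ)
          push_cast
          omega)
      have hs : s = 9 := by omega
      subst hs
      exact hno B Q x D (2, [0, 0, 2], []) (by decide) (hl.toL hcf (H := 8) (by norm_num))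
    · have hcf : CfR B Q (6 + 2) 3 x D [2, 0, 0] [] := h.toCg0.toR (by norm_num) (by simp) hc (by
        intro a ha
        interval_cases a
        · show wv B Q (D 0) ≤ ((2 : ℕ) : ℤ)
          push_cast
          omega
        · show wv B Q (D 1) ≤ ((0 : ℕ) : ℤ)
          push_cast
          omega
        · show wv B Q (D 2) ≤ ((0 : ℕ) : ℤ)
          push_cast
          omega)
      have hs : s = 10 := by omega
      subst hs
      exact hno B Q x D (2, [2, 0, 0], []) (by decide) (hl.toL hcf (H := 9) (by norm_num))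
    · set q : ℕ → ℕ := fun a => if a = 1 then 2 else if a = 2 then 1 else a with hq
      have hK := h.toCg0.permC (q := q) (by
        intro a ha
        interval_cases a <;> simp [hq]) (by
        intro a ha b hb
        interval_cases a <;> interval_cases b <;> simp [hq])
      have hcf : CfR B Q (6 + 2) 3 x (fun a => D (q a)) [0, 0, 2] [] :=
        hK.toR (by norm_num) (by simp) hc (by
        intro a ha
        interval_cases a
        · show wv B Q (D 0) ≤ ((0 : ℕ) : ℤ)
          push_cast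
          omega
        · show wv B Q (D 2) ≤ ((0 : ℕ) : ℤ)
          push_cast
          omega
        · show wv B Q (D 1) ≤ ((2 : ℕ) : ℤ)
          push_cast
          omega)
      have hl' : Lfc B Q 2 x (fun a => D (q a)) s := ⟨hl.s6, hl.s7, hl.slot, hl.low, hl.c6, hl.c7⟩
      have hs : s = 9 := by omega
      subst hs
      exact hno B Q x _ (2, [0, 0, 2], []) (by decide) (hl'.toL hcf (H := 8) (by norm_num))

/-- the sum of the numbers of the inner blocks at the points. -/
theorem sum_ina (N : ℕ) (l : List ℕ) : ∑ a ∈ range N, ina l a = (l.map (pcn N)).sum := by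
  induction l with
  | nil => simp [ina]
  | cons b l ih =>
    have h1 : ∀ a ∈ range N, ina (b :: l) a = (if b.testBit a = true then 1 else 0) + ina l a := by
      intro a _
      unfold ina
      rw [List.map_cons, List.sum_cons]
    rw [sum_congr rfl h1, sum_add_distrib, ih, List.map_cons, List.sum_cons, pcn_eq, card_filter]

/-- one component is impossible. -/
theorem CfG.no_one (h : CfG B Q n 1 x D i j) {s : ℕ} (hl : Lfc B Q n x D s) : False := by
  obtain ⟨L, hLs, hLm, hc, hsum⟩ := h.exists_ins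
  have h2e := two_e2n_le n L
  have w0 := wv_nn (h.lge 0 (by norm_num))
  have s6 := hl.s6
  simp only [sum_range_succ, sum_range_zero] at hsum
  have h64 : 64 ≤ 2 ^ (6 + n) := by
    calc 64 = 2 ^ 6 := by norm_num
      _ ≤ 2 ^ (6 + n) := Nat.pow_le_pow_right (by norm_num) (by omega)
  have hin : ∀ A ∈ (7 :: 56 :: L), A < 2 ^ (6 + n) := by
    intro A hA
    simp only [List.mem_cons] at hA
    rcases hA with rfl | rfl | hA
    · omega
    · omega
    · exact (hLm A hA).1
  have hrow : ∀ a ∈ range (6 + n), (Ez B (D 0) (x a)).card + ina (7 :: 56 :: L) a = 5 := by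
    intro a ha
    rw [mem_range] at ha
    have h1 := h.cf.deg_ins hin hc ha
    rw [sum_range_one, ← ina_eq] at h1
    rw [← ecB_pow h.cf ha]
    exact h1
  have htot : ∑ a ∈ range (6 + n), (Ez B (D 0) (x a)).card + ((7 :: 56 :: L).map (pcn (6 + n))).sum =
      5 * (6 + n) := by
    rw [← sum_ina, ← sum_add_distrib, sum_congr rfl hrow, sum_const, card_range, smul_eq_mul]
    ring
  have hp : ((7 :: 56 :: L).map (pcn (6 + n))).sum ≤ 3 * (2 + L.length) := by
    have h7 : pcn (6 + n) 7 ≤ 3 := by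
      rw [← h.cf.card_ptm, ← h.i7]
      exact h.cf.tr3 i
    have h56 : pcn (6 + n) 56 ≤ 3 := by
      rw [← h.cf.card_ptm, ← h.j56]
      exact h.cf.tr3 j
    have h8 : (L.map (pcn (6 + n))).sum ≤ 3 * L.length := by
      have h9 := List.sum_le_card_nsmul (L.map (pcn (6 + n))) 3 (by
        intro m hm
        obtain ⟨A, hA, rfl⟩ := List.mem_map.1 hm
        exact (hLm A hA).2.2)
      rw [List.length_map, smul_eq_mul] at h9
      omega
    rw [List.map_cons, List.map_cons, List.sum_cons, List.sum_cons]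
    omega
  have h3 := hl.slot
  omega

/-- **fewer components and an explicit leaf.** -/
theorem CfG.no_leaf (hno : NoG.{u} V ι) (h : CfG B Q n r x D i j) (hr : r < 2 + n) {s : ℕ}
    (hl : Lfc B Q n x D s) : False := by
  have h1 := h.r1
  have h2 := h.n2
  rcases (by omega : r = 1 ∨ (n = 1 ∧ r = 2) ∨ (n = 2 ∧ 2 ≤ r ∧ r ≤ 3)) with rfl | ⟨rfl, rfl⟩ |
    ⟨rfl, h3, h4⟩
  · exact h.no_one hl
  · exact h.no_leaf12 hno hl
  · exact h.no_leaf2 hno h3 h4 hl

end Pool.Agent.Hyp6
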