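import Pool.Agent.Hyp6.CfG

/-!
# HYP6 CFGP: configurations with an explicit leaf, any number of hits of one further point

`LfP B Q n x D s H`: the leaf `D 0` has at most `s` hits, at least `H` hits of the six points of the two
full blocks, none of the point `7`. `NoP V ι k s H`: the instances of `instG` with the leaf value `k` are
impossible for these bounds. `CfG.no_leafP`: there is no configuration with fewer components and such a
leaf.
-/

set_option autoImplicit false

namespace Pool.Agent.Hyp6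

open Finset Pool.Agent.Hyp5 Rup

universe u v

variable {V : Type v} [DecidableEq V] {ι : Type u} [Fintype ι] {B : ι → Finset V}
variable {Q : Finset V} {n r k s H : ℕ} {x : ℕ → V} {D : ℕ → Finset V} {i j : ι}

/-- a configuration with an explicit leaf. -/
structure CfP (B : ι → Finset V) (Q : Finset V) (n r : ℕ) (x : ℕ → V) (C : ℕ → Finset V)
    (ub ins : List ℕ) (sl H : ℕ) : Prop extends CfR B Q (6 + n) r x C ub ins where
  slot : ∑ a ∈ range (6 + n), ecB B x (6 + n) C 0 (2 ^ a) ≤ sl
  low : H ≤ ∑ a ∈ range 6, ecB B x (6 + n) C 0 (2 ^ a)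
  c7 : n = 2 → ecB B x (6 + n) C 0 (2 ^ 7) = 0

/-- bounds for the hits of the leaf `D 0`. -/
structure LfP (B : ι → Finset V) (Q : Finset V) (n : ℕ) (x : ℕ → V) (D : ℕ → Finset V) (s H : ℕ) :
    Prop where
  s6 : 6 * (s : ℤ) ≤ 5 * wv B Q (D 0) + 55
  slot : ∑ a ∈ range (6 + n), (Ez B (D 0) (x a)).card ≤ s
  low : H ≤ ∑ a ∈ range 6, (Ez B (D 0) (x a)).card
  c7 : n = 2 → (Ez B (D 0) (x 7)).card = 0

theorem LfP.toL (hl : LfP B Q n x D s H) {ub ins : List ℕ}
    (h : CfR B Q (6 + n) r x D ub ins) : CfP B Q n r x D ub ins s H where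
  toCfR := h
  slot := by
    rw [sum_congr rfl fun a ha => ecB_pow h.ci.cf (mem_range.1 ha)]
    exact hl.slot
  low := by
    have h1 : ∀ a ∈ range 6, ecB B x (6 + n) D 0 (2 ^ a) = (Ez B (D 0) (x a)).card := fun a ha =>
      ecB_pow h.ci.cf (by have := mem_range.1 ha; omega)
    rw [sum_congr rfl h1]
    exact hl.low
  c7 := fun h1 => by
    rw [ecB_pow h.ci.cf (by omega)]
    exact hl.c7 h1

theorem LfP.permX (hl : LfP B Q 1 x D s H) {p : ℕ → ℕ} (hp : ∀ a < 6 + 1, p a < 6 + 1)
    (hi : ∀ a < 6 + 1, ∀ b < 6 + 1, p a = p b → a = b)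
    (h7 : (pmk p (6 + 1) 7 = 7 ∧ pmk p (6 + 1) 56 = 56) ∨
      (pmk p (6 + 1) 7 = 56 ∧ pmk p (6 + 1) 56 = 7)) :
    LfP B Q 1 (fun a => x (p a)) D s H where
  s6 := hl.s6
  slot := by
    rw [sum_pre hp hi (fun a => (Ez B (D 0) (x a)).card)]
    exact hl.slot
  low := by
    rw [sum_pre (pm_lt6 hp h7) (fun a ha b hb he => hi a (by omega) b (by omega) he)
      (fun a => (Ez B (D 0) (x a)).card)]
    exact hl.low
  c7 := fun h1 => by omega

/-- the instances with the leaf value `k` are impossible for the bounds `s`, `H`. -/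
def NoP (V : Type v) [DecidableEq V] (ι : Type u) [Fintype ι] (k s H : ℕ) : Prop :=
  ∀ (B : ι → Finset V) (Q : Finset V) (x : ℕ → V) (D : ℕ → Finset V), ∀ t ∈ instG,
    t.2.1.getD 0 0 = k → ¬ CfP B Q t.1 t.2.1.length x D t.2.1 t.2.2 s H

/-- one further point, two components, the check for three components settles the permutations. -/
theorem Cg0.finP (hno : NoP.{u} V ι k s H) (h : Cg0 B Q 1 2 x D i j) (hl : LfP B Q 1 x D s H)
    {L : List ℕ}
    (hc : ∀ A < 2 ^ (6 + 1), A ≠ 0 → (ib B Q x (6 + 1) A).card = (7 :: 56 :: L).count A)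
    {kv : List ℕ} (hkv : kv.length = 2) (hub : ∀ a < 2, wv B Q (D a) ≤ (kv.getD a 0 : ℤ))
    (hs : kv.getD 0 0 = k) {pl R : List ℕ} (hpl : okp (6 + 1) pl = true)
    (hin : (1, kv, R) ∈ instG) (h4 : R.all (fun A => decide (A < 2 ^ (6 + 1))) = true)
    (h5 : L.isPerm (R.map (pmk (fun a => pl.getD a 0) (6 + 1))) = true) : False := by
  have hok := hpl
  unfold okp at hok
  simp only [Bool.and_eq_true, List.all_eq_true, List.mem_range, decide_eq_true_eq,
    Bool.or_eq_true, Bool.not_eq_true', decide_eq_false_iff_not] at hok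
  obtain ⟨⟨hpp, hi⟩, h7⟩ := hok
  set p : ℕ → ℕ := fun a => pl.getD a 0 with hpd
  have hi' : ∀ a < 6 + 1, ∀ b < 6 + 1, p a = p b → a = b := by
    intro a ha b hb he
    rcases hi a ha b hb with h1 | h1
    · exact h1
    · exact absurd he h1
  have hRlt : ∀ A ∈ R, A < 2 ^ (6 + 1) := by
    intro A hA
    have := List.all_eq_true.1 h4 A hA
    simpa using this
  have hLR : L.Perm (R.map (pmk p (6 + 1))) := List.isPerm_iff.1 h5
  obtain ⟨i', j', hK⟩ := h.permX (p := p) hpp hi' h7
  have hcf : CfR B Q (6 + 1) 2 (fun a => x (p a)) D kv R := hK.toR (by omega) hRlt (by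
    refine cnt_perm (L := 7 :: 56 :: L) hpp hi' ?_ ?_ hc
    · intro A hA
      rw [List.mem_cons, List.mem_cons] at hA
      rcases hA with rfl | rfl | hA
      · norm_num
      · norm_num
      · exact hRlt A hA
    · rw [List.map_cons, List.map_cons]
      rcases h7 with ⟨h7, h56⟩ | ⟨h7, h56⟩
      · rw [h7, h56]
        exact (hLR.cons 56).cons 7
      · rw [h7, h56]
        exact ((hLR.cons 56).cons 7).trans (List.Perm.swap _ _ _)) hub
  exact hno B Q (fun a => x (p a)) D _ hin hs (by
    show CfP B Q 1 kv.length (fun a => x (p a)) D kv R s H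
    rw [hkv]
    exact (hl.permX hpp hi' h7).toL hcf)

/-- one further point, two components. -/
theorem CfG.no_leaf12P (hno : NoP.{u} V ι k s H) (h : CfG B Q 1 2 x D i j)
    (hk0 : wv B Q (D 0) = k) (hl : LfP B Q 1 x D s H) : False := by
  obtain ⟨L, hLs, hLm, hc, hsum⟩ := h.exists_ins
  have h2e := two_e2n_le 1 L
  have w0 := wv_nn (h.lge 0 (by norm_num))
  have w1 := wv_nn (h.lge 1 (by norm_num))
  have e0 := wv_even (B := B) (Q := Q) (D 0)
  have e1 := wv_even (B := B) (Q := Q) (D 1)
  have s6 := hl.s6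
  simp only [sum_range_succ, sum_range_zero] at hsum
  push_cast at hsum
  have hmem : ∀ A ∈ L, A ∈ mskL (6 + 1) := by
    intro A hA
    obtain ⟨k1, k2, k3⟩ := hLm A hA
    unfold mskL
    rw [List.mem_filter, List.mem_range]
    exact ⟨k1, by simp [k2, k3]⟩
  have hub : ∀ a b : ℕ, wv B Q (D 0) ≤ a → wv B Q (D 1) ≤ b →
      ∀ c < 2, wv B Q (D c) ≤ (([a, b] : List ℕ).getD c 0 : ℤ) := by
    intro a b ha hb c hc
    interval_cases c
    · exact ha
    · exact hb
  rcases L with _ | ⟨A, _ | ⟨A', _ | ⟨A'', L⟩⟩⟩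
  · have h0 := chu_nil
    simp only [Bool.and_eq_true] at h0
    simp only [List.length_nil] at h2e hsum
    have hcs : wv B Q (D 0) = 0 ∨ wv B Q (D 0) = 2 ∨ wv B Q (D 0) = 4 ∨ wv B Q (D 0) = 6 := by
      omega
    rcases hcs with hk | hk | hk | hk
    · exact h.toCg0.finP hno hl hc (kv := [0, 6]) rfl (hub 0 6 (by omega) (by push_cast; omega))
        (by show 0 = k; omega) (pl := [0, 1, 2, 3, 4, 5, 6]) (R := []) h0.1.2 (by decide) rfl rfl
    · exact h.toCg0.finP hno hl hc (kv := [2, 4]) rfl (hub 2 4 (by push_cast; omega)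
        (by push_cast; omega)) (by show 2 = k; omega) (pl := [0, 1, 2, 3, 4, 5, 6]) (R := [])
        h0.1.2 (by decide) rfl rfl
    · exact h.toCg0.finP hno hl hc (kv := [4, 2]) rfl (hub 4 2 (by push_cast; omega)
        (by push_cast; omega)) (by show 4 = k; omega) (pl := [0, 1, 2, 3, 4, 5, 6]) (R := [])
        h0.1.2 (by decide) rfl rfl
    · exact h.toCg0.finP hno hl hc (kv := [6, 0]) rfl (hub 6 0 (by push_cast; omega)
        (by push_cast; omega)) (by show 6 = k; omega) (pl := [0, 1, 2, 3, 4, 5, 6]) (R := [])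
        h0.1.2 (by decide) rfl rfl
  · simp only [List.length_cons, List.length_nil] at h2e hsum
    have hm := hmem A (by simp)
    have h1 := List.all_eq_true.1 chG_one A hm
    simp only [Bool.and_eq_true] at h1
    obtain ⟨⟨⟨⟨k1, k2⟩, k3⟩, k4⟩, k5⟩ := h1
    have hpl : okp (6 + 1) (luA 1 A).1 = true := by
      unfold luA at k1 ⊢
      split at k1
      · refine okp_prm (by norm_num) ?_
        rintro he
        rw [he] at k1
        simp at k1
      · simp at k1
    rw [List.contains_iff_mem] at k2 k3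
    have hcs : wv B Q (D 0) = 0 ∨ wv B Q (D 0) = 2 := by omega
    rcases hcs with hk | hk
    · exact h.toCg0.finP hno hl hc (kv := [0, 2]) rfl (hub 0 2 (by omega) (by push_cast; omega))
        (by show 0 = k; omega) hpl k2 k4 k5
    · exact h.toCg0.finP hno hl hc (kv := [2, 0]) rfl (hub 2 0 (by push_cast; omega)
        (by push_cast; omega)) (by show 2 = k; omega) hpl k3 k4 k5
  · simp only [List.length_cons, List.length_nil] at h2e hsum
    have he : 1 ≤ e2n 1 [A, A'] := by omega
    obtain ⟨a, ha, h2⟩ : ∃ a < 7, 2 ≤ [A, A'].count (2 ^ a) := by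
      unfold e2n at he
      have h3 : 0 < ((List.range (6 + 1)).filter (fun a =>
          decide (2 ≤ [A, A'].count (2 ^ a)))).length := by omega
      obtain ⟨a, ha⟩ := List.exists_mem_of_length_pos h3
      rw [List.mem_filter, List.mem_range, decide_eq_true_eq] at ha
      exact ⟨a, ha.1, ha.2⟩
    obtain ⟨L', hL'⟩ := exists_front h2
    have hl3 := hL'.length_eq
    simp only [List.length_cons, List.length_nil] at hl3
    have hL0 : L' = [] := List.length_eq_zero_iff.1 (by omega)
    subst hL0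
    have h1 := List.all_eq_true.1 chG_two a (List.mem_range.2 ha)
    simp only [Bool.and_eq_true] at h1
    obtain ⟨⟨⟨k1, k2⟩, k4⟩, k5⟩ := h1
    have hpl : okp (6 + 1) (lkB (rowU 1 (2 ^ a)) 1 (2 ^ a)).1 = true := by
      unfold lkB at k1 ⊢
      split at k1
      · refine okp_prm (by norm_num) ?_
        rintro he
        rw [he] at k1
        simp at k1
      · simp at k1
    rw [List.contains_iff_mem] at k2
    have hc' : ∀ A0 < 2 ^ (6 + 1), A0 ≠ 0 →
        (ib B Q x (6 + 1) A0).card = (7 :: 56 :: [2 ^ a, 2 ^ a]).count A0 := by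
      intro A0 hA hA0
      rw [hc A0 hA hA0, ((hL'.cons 56).cons 7).count_eq]
    have e2 : e2n 1 [A, A'] ≤ 1 := by omega
    exact h.toCg0.finP hno hl hc' (kv := [0, 0]) rfl (hub 0 0 (by push_cast; omega)
      (by push_cast; omega)) (by show 0 = k; omega) hpl k2 k4 k5
  · exfalso
    simp only [List.length_cons] at h2e hsum
    push_cast at hsum
    omega

/-- two further points, two or three components. -/
theorem CfG.no_leaf2P (hno : NoP.{u} V ι k s H) (h : CfG B Q 2 r x D i j) (hr2 : 2 ≤ r)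
    (hr : r ≤ 3) (hk0 : wv B Q (D 0) = k) (hl : LfP B Q 2 x D s H) : False := by
  obtain ⟨L, hLs, hLm, hc, hsum⟩ := h.exists_ins
  have h2e := two_e2n_le 2 L
  have hw : ∀ a < r, 0 ≤ wv B Q (D a) := fun a ha => wv_nn (h.lge a ha)
  have hev : ∀ a, wv B Q (D a) % 2 = 0 := fun a => wv_even (D a)
  have hnn : 0 ≤ ∑ a ∈ range r, wv B Q (D a) := sum_nonneg fun a ha => hw a (mem_range.1 ha)
  have s6 := hl.s6
  have hL0 : L = [] := by
    rw [← List.length_eq_zero_iff]
    push_cast at hsum
    have : (r : ℤ) ≤ 3 := by exact_mod_cast hr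
    omega
  subst hL0
  have he0 : e2n 2 [] = 0 := by
    simp only [List.length_nil] at h2e
    omega
  rw [he0] at hsum
  simp only [List.length_nil] at hsum
  interval_cases r
  · have w0 := hw 0 (by norm_num)
    have w1 := hw 1 (by norm_num)
    have e0 := hev 0
    have e1 := hev 1
    simp only [sum_range_succ, sum_range_zero] at hsum
    push_cast at hsum
    have hcf : CfR B Q (6 + 2) 2 x D [0, 0] [] := h.toCg0.toR (by norm_num) (by simp) hc (by
      intro a ha
      interval_cases a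
      · show wv B Q (D 0) ≤ ((0 : ℕ) : ℤ)
        push_cast
        omega
      · show wv B Q (D 1) ≤ ((0 : ℕ) : ℤ)
        push_cast
        omega)
    exact hno B Q x D (2, [0, 0], []) (by decide) (by show 0 = k; omega) (hl.toL hcf)
  · have w0 := hw 0 (by norm_num)
    have w1 := hw 1 (by norm_num)
    have w2 := hw 2 (by norm_num)
    have e0 := hev 0
    have e1 := hev 1
    have e2 := hev 2
    simp only [sum_range_succ, sum_range_zero] at hsum
    push_cast at hsum
    have hcs : (wv B Q (D 0) = 0 ∧ wv B Q (D 1) = 0 ∧ wv B Q (D 2) ≤ 2) ∨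
        (wv B Q (D 0) = 2 ∧ wv B Q (D 1) = 0 ∧ wv B Q (D 2) = 0) ∨
        (wv B Q (D 0) = 0 ∧ wv B Q (D 1) ≤ 2 ∧ wv B Q (D 2) = 0) := by omega
    rcases hcs with ⟨k0, k1, k2⟩ | ⟨k0, k1, k2⟩ | ⟨k0, k1, k2⟩
    · have hcf : CfR B Q (6 + 2) 3 x D [0, 0, 2] [] := h.toCg0.toR (by norm_num) (by simp) hc (by
        intro a ha
        interval_cases a
        · show wv B Q (D 0) ≤ ((0 : ℕ) : ℤ)
          push_cast
          omega
        · show wv B Q (D 1) ≤ ((0 : ℕ) : ℤ)
          push_cast
          omega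
        · show wv B Q (D 2) ≤ ((2 : ℕ) : ℤ)
          push_cast
          omega)
      exact hno B Q x D (2, [0, 0, 2], []) (by decide) (by show 0 = k; omega) (hl.toL hcf)
    · have hcf : CfR B Q (6 + 2) 3 x D [2, 0, 0] [] := h.toCg0.toR (by norm_num) (by simp) hc (by
        intro a ha
        interval_cases a
        · show wv B Q (D 0) ≤ ((2 : ℕ) : ℤ)
          push_cast
          omega
        · show wv B Q (D 1) ≤ ((0 : ℕ) : ℤ)
          push_cast
          omega
        · show wv B Q (D 2) ≤ ((0 : ℕ) : ℤ)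
          push_cast
          omega)
      exact hno B Q x D (2, [2, 0, 0], []) (by decide) (by show 2 = k; omega) (hl.toL hcf)
    · set q : ℕ → ℕ := fun a => if a = 1 then 2 else if a = 2 then 1 else a with hq
      have hK := h.toCg0.permC (q := q) (by
        intro a ha
        interval_cases a <;> simp [hq]) (by
        intro a ha b hb
        interval_cases a <;> interval_cases b <;> simp [hq])
      have hcf : CfR B Q (6 + 2) 3 x (fun a => D (q a)) [0, 0, 2] [] :=
        hK.toR (by norm_num) (by simp) hc (by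
        intro a ha
        interval_cases a
        · show wv B Q (D 0) ≤ ((0 : ℕ) : ℤ)
          push_cast
          omega
        · show wv B Q (D 2) ≤ ((0 : ℕ) : ℤ)
          push_cast
          omega
        · show wv B Q (D 1) ≤ ((2 : ℕ) : ℤ)
          push_cast
          omega)
      have hl' : LfP B Q 2 x (fun a => D (q a)) s H := ⟨hl.s6, hl.slot, hl.low, hl.c7⟩
      exact hno B Q x _ (2, [0, 0, 2], []) (by decide) (by show 0 = k; omega) (hl'.toL hcf)

/-- one component is impossible. -/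
theorem CfG.no_oneP (h : CfG B Q n 1 x D i j) (hl : LfP B Q n x D s H) : False := by
  obtain ⟨L, hLs, hLm, hc, hsum⟩ := h.exists_ins
  have h2e := two_e2n_le n L
  have w0 := wv_nn (h.lge 0 (by norm_num))
  have s6 := hl.s6
  simp only [sum_range_succ, sum_range_zero] at hsum
  have h64 : 64 ≤ 2 ^ (6 + n) := by
    calc 64 = 2 ^ 6 := by norm_num
      _ ≤ 2 ^ (6 + n) := Nat.pow_le_pow_right (by norm_num) (by omega)
  have hin : ∀ A ∈ (7 :: 56 :: L), A < 2 ^ (6 + n) := by
    intro A hA
    simp only [List.mem_cons] at hA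
    rcases hA with rfl | rfl | hA
    · omega
    · omega
    · exact (hLm A hA).1
  have hrow : ∀ a ∈ range (6 + n), (Ez B (D 0) (x a)).card + ina (7 :: 56 :: L) a = 5 := by
    intro a ha
    rw [mem_range] at ha
    have h1 := h.cf.deg_ins hin hc ha
    rw [sum_range_one, ← ina_eq] at h1
    rw [← ecB_pow h.cf ha]
    exact h1
  have htot : ∑ a ∈ range (6 + n), (Ez B (D 0) (x a)).card + ((7 :: 56 :: L).map (pcn (6 + n))).sum =
      5 * (6 + n) := by
    rw [← sum_ina, ← sum_add_distrib, sum_congr rfl hrow, sum_const, card_range, smul_eq_mul]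
    ring
  have hp : ((7 :: 56 :: L).map (pcn (6 + n))).sum ≤ 3 * (2 + L.length) := by
    have h7 : pcn (6 + n) 7 ≤ 3 := by
      rw [← h.cf.card_ptm, ← h.i7]
      exact h.cf.tr3 i
    have h56 : pcn (6 + n) 56 ≤ 3 := by
      rw [← h.cf.card_ptm, ← h.j56]
      exact h.cf.tr3 j
    have h8 : (L.map (pcn (6 + n))).sum ≤ 3 * L.length := by
      have h9 := List.sum_le_card_nsmul (L.map (pcn (6 + n))) 3 (by
        intro m hm
        obtain ⟨A, hA, rfl⟩ := List.mem_map.1 hm
        exact (hLm A hA).2.2)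
      rw [List.length_map, smul_eq_mul] at h9
      omega
    rw [List.map_cons, List.map_cons, List.sum_cons, List.sum_cons]
    omega
  have h3 := hl.slot
  omega

/-- **fewer components and an explicit leaf.** -/
theorem CfG.no_leafP (hno : NoP.{u} V ι k s H) (h : CfG B Q n r x D i j) (hr : r < 2 + n)
    (hk0 : wv B Q (D 0) = k) (hl : LfP B Q n x D s H) : False := by
  have h1 := h.r1
  have h2 := h.n2
  rcases (by omega : r = 1 ∨ (n = 1 ∧ r = 2) ∨ (n = 2 ∧ 2 ≤ r ∧ r ≤ 3)) with rfl | ⟨rfl, rfl⟩ |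
    ⟨rfl, h3, h4⟩
  · exact h.no_oneP hl
  · exact h.no_leaf12P hno hk0 hl
  · exact h.no_leaf2P hno h3 h4 hk0 hl

end Pool.Agent.Hyp6
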