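import Pool.Agent.Hyp6.CfE
import Pool.Agent.Hyp6.Cfg6

/-!
# HYP6 CFS: the capacity of a component without full blocks

`W` is a part of `Q` with `sv B W = -1` such that every block has at most two points in `W`. Then
`kpv B Q W = 3 |W| + 2 n1 - 11 - 2 ee B Q W`, and the numbers of incidences of the blocks meeting `W` with
points outside `W` and of blocks with two points outside `W` are bounded by a table.
-/

set_option autoImplicit false

namespace Pool.Agent.Hyp6

open Finset Pool.Agent.Hyp5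

universe u v

variable {V : Type v} [DecidableEq V] {ι : Type u} [Fintype ι]

variable {B : ι → Finset V} {Q W : Finset V} {N r : ℕ} {x : ℕ → V} {C : ℕ → Finset V} {k : ℕ}

open Classical in
/-- the blocks whose trace on `Q` is a single point of `W` and is the trace of two blocks. -/
noncomputable def ebl (B : ι → Finset V) (Q W : Finset V) : Finset ι :=
  univ.filter (fun i => ∃ t ∈ W, 2 ≤ (univ.filter (fun i => B i ∩ Q = {t})).card ∧ B i ∩ Q = {t})

theorem mem_ebl {i : ι} (hi : i ∈ ebl B Q W) : ∃ t ∈ W, B i ∩ Q = {t} := by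
  unfold ebl at hi
  obtain ⟨t, ht, _, h2⟩ := (mem_filter.1 hi).2
  exact ⟨t, ht, h2⟩

theorem ebl_two : 2 * ee B Q W ≤ (ebl B Q W).card := by
  classical
  have h0 : ebl B Q W = (W.filter (fun t => 2 ≤ (univ.filter (fun i => B i ∩ Q = {t})).card)).biUnion
      (fun t => univ.filter (fun i => B i ∩ Q = {t})) := by
    ext i
    unfold ebl
    simp only [mem_filter, mem_univ, true_and, mem_biUnion]
    constructor
    · rintro ⟨t, ht, h1, h2⟩
      exact ⟨t, ⟨ht, h1⟩, h2⟩
    · rintro ⟨t, ⟨ht, h1⟩, h2⟩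
      exact ⟨t, ht, h1, h2⟩
  rw [h0]
  unfold ee
  rw [card_biUnion]
  · rw [mul_comm, ← smul_eq_mul]
    refine card_nsmul_le_sum _ _ _ fun t ht => ?_
    have h1 := (mem_filter.1 ht).2
    convert h1
  · intro t _ t' _ hne
    refine disjoint_left.2 ?_
    intro i hi hi'
    have h1 := (mem_filter.1 hi).2
    have h2 := (mem_filter.1 hi').2
    exact hne (singleton_injective (h1.symm.trans h2))

/-- the value of a part without full blocks. -/
theorem kpv_graph (hr : Reg B W) (hgt : ∀ i, (B i ∩ W).card ≤ 2) (hs : sv B W = -1) :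
    kpv B Q W = 3 * (W.card : ℤ) + 2 * (nt B W 1 : ℤ) - 11 - 2 * (ee B Q W : ℤ) := by
  have h3 : nt B W 3 = 0 := by
    unfold nt
    rw [card_eq_zero, eq_empty_iff_forall_notMem]
    intro i hi
    have h4 := mem_trs.1 hi
    have h5 := hgt i
    omega
  have h1 := cm_eq3 (B := B) (W := W) (fun i => (hgt i).trans (by norm_num))
  have h2 := inc_eq3 hr (fun i => (hgt i).trans (by norm_num))
  rw [h3] at h1 h2
  unfold kpv
  rw [Pv_eq]
  unfold sv at hs
  omega

/-- the incidences with the points outside. -/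
theorem hits_le (h3 : Tr3 B Q) (hW : W ⊆ Q) (hgt : ∀ i, (B i ∩ W).card ≤ 2)
    (hinj : ∀ a < N, ∀ b < N, x a = x b → a = b) (hxQ : ∀ a < N, x a ∈ Q)
    (hxW : ∀ a < N, x a ∉ W) :
    ∑ a ∈ range N, (cxs B W (ptm x N (2 ^ a))).card + 4 * ee B Q W ≤ nt B W 2 + 2 * nt B W 1 := by
  classical
  have h1 : ∑ a ∈ range N, (cxs B W (ptm x N (2 ^ a))).card =
      ∑ i : ι, (if (B i ∩ W).Nonempty then ((range N).filter (fun a => x a ∈ B i)).card else 0) := by
    have h2 : ∀ a ∈ range N, (cxs B W (ptm x N (2 ^ a))).card =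
        ∑ i : ι, (if (B i ∩ W).Nonempty ∧ x a ∈ B i then 1 else 0) := by
      intro a ha
      rw [mem_range] at ha
      rw [← card_filter]
      congr 1
      ext i
      rw [mem_cxs_bit ha, mem_filter]
      simp
    rw [sum_congr rfl h2, sum_comm]
    refine sum_congr rfl fun i _ => ?_
    by_cases hi : (B i ∩ W).Nonempty
    · rw [if_pos hi, card_filter]
      refine sum_congr rfl fun a _ => ?_
      simp [hi]
    · rw [if_neg hi]
      refine sum_eq_zero fun a _ => ?_
      rw [if_neg]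
      exact fun hh => hi hh.1
  have h4 : (ebl B Q W).card = ∑ i : ι, (if i ∈ ebl B Q W then 1 else 0) := by
    rw [← card_filter]
    congr 1
    ext i
    simp
  have h5 := ebl_two (B := B) (Q := Q) (W := W)
  have h6 : nt B W 2 + 2 * nt B W 1 =
      ∑ i : ι, ((if (B i ∩ W).card = 2 then 1 else 0) + 2 * (if (B i ∩ W).card = 1 then 1 else 0)) := by
    unfold nt trs
    rw [sum_add_distrib, ← mul_sum, card_filter, card_filter]
  have h7 : ∑ a ∈ range N, (cxs B W (ptm x N (2 ^ a))).card + 2 * (ebl B Q W).card ≤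
      nt B W 2 + 2 * nt B W 1 := by
    rw [h1, h4, h6, mul_sum, ← sum_add_distrib]
    refine sum_le_sum fun i _ => ?_
    have h8 := hgt i
    -- the points outside
    have h9 : ((range N).filter (fun a => x a ∈ B i)).card + (B i ∩ W).card ≤ (B i ∩ Q).card := by
      have h10 : (((range N).filter (fun a => x a ∈ B i)).image x).card =
          ((range N).filter (fun a => x a ∈ B i)).card := by
        refine card_image_of_injOn ?_
        intro a ha b hb he
        rw [mem_coe, mem_filter, mem_range] at ha hb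
        exact hinj a ha.1 b hb.1 he
      rw [← h10, ← card_union_of_disjoint]
      · refine card_le_card (union_subset ?_ (inter_subset_inter_left hW))
        intro v hv
        obtain ⟨a, ha, rfl⟩ := mem_image.1 hv
        rw [mem_filter, mem_range] at ha
        exact mem_inter.2 ⟨ha.2, hxQ a ha.1⟩
      · rw [disjoint_left]
        intro v hv hv'
        obtain ⟨a, ha, rfl⟩ := mem_image.1 hv
        rw [mem_filter, mem_range] at ha
        exact hxW a ha.1 (mem_inter.1 hv').2
    have h11 := h3 i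
    by_cases hi : (B i ∩ W).Nonempty
    · rw [if_pos hi]
      have h12 := card_pos.2 hi
      by_cases he : i ∈ ebl B Q W
      · rw [if_pos he]
        obtain ⟨t, ht, hte⟩ := mem_ebl he
        rw [hte, card_singleton] at h9
        have h13 : (B i ∩ W).card = 1 := by omega
        rw [if_neg (by omega), if_pos h13]
        omega
      · rw [if_neg he]
        split_ifs <;> omega
    · rw [if_neg hi]
      have he : i ∉ ebl B Q W := by
        intro he
        obtain ⟨t, ht, hte⟩ := mem_ebl he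
        have h13 : t ∈ B i ∩ Q := by rw [hte]; exact mem_singleton_self t
        exact hi ⟨t, mem_inter.2 ⟨(mem_inter.1 h13).1, ht⟩⟩
      rw [if_neg he]
      omega
  omega

/-- the blocks with two points outside. -/
theorem shr_le (h3 : Tr3 B Q) (hW : W ⊆ Q)
    (hinj : ∀ a < N, ∀ b < N, x a = x b → a = b) (hxQ : ∀ a < N, x a ∈ Q)
    (hxW : ∀ a < N, x a ∉ W) (K : Finset ℕ) (hK : ∀ A ∈ K, A < 2 ^ N ∧ 2 ≤ pcn N A) :
    ∑ A ∈ K, (hb B x N W A).card + 2 * ee B Q W ≤ nt B W 1 := by
  classical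
  have h1 : (K.biUnion (fun A => hb B x N W A)).card = ∑ A ∈ K, (hb B x N W A).card := by
    refine card_biUnion fun A hA A' hA' hne => ?_
    exact hb_disj (hK A hA).1 (hK A' hA').1 hne
  have h5 := ebl_two (B := B) (Q := Q) (W := W)
  -- a block with two points outside
  have h6 : ∀ i ∈ K.biUnion (fun A => hb B x N W A), (B i ∩ W).card = 1 ∧ i ∉ ebl B Q W := by
    intro i hi
    obtain ⟨A, hA, hi⟩ := mem_biUnion.1 hi
    rw [mem_hb] at hi
    have h2 := (hK A hA).2
    rw [pcn_eq] at h2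
    obtain ⟨a, ha, b, hb1, hab⟩ := one_lt_card.1 (Nat.lt_of_succ_le h2)
    rw [mem_filter, mem_range] at ha hb1
    have h7 : ({x a, x b} ∪ B i ∩ W : Finset V) ⊆ B i ∩ Q := by
      refine union_subset ?_ (inter_subset_inter_left hW)
      intro v hv
      rw [mem_insert, mem_singleton] at hv
      rcases hv with rfl | rfl
      · exact mem_inter.2 ⟨(hi.2 a ha.1).2 ha.2, hxQ a ha.1⟩
      · exact mem_inter.2 ⟨(hi.2 b hb1.1).2 hb1.2, hxQ b hb1.1⟩
    have h8 := card_le_card h7
    rw [card_union_of_disjoint, card_pair (fun he => hab (hinj a ha.1 b hb1.1 he))] at h8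
    · have h9 := card_pos.2 hi.1
      have h10 := h3 i
      refine ⟨by omega, fun he => ?_⟩
      obtain ⟨t, _, hte⟩ := mem_ebl he
      rw [hte, card_singleton] at h8
      omega
    · rw [disjoint_left]
      intro v hv hv'
      rw [mem_insert, mem_singleton] at hv
      rcases hv with rfl | rfl
      · exact hxW a ha.1 (mem_inter.1 hv').2
      · exact hxW b hb1.1 (mem_inter.1 hv').2
  have h7 : (K.biUnion (fun A => hb B x N W A) ∪ ebl B Q W).card ≤ nt B W 1 := by
    refine card_le_card ?_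
    intro i hi
    rw [mem_trs]
    rcases mem_union.1 hi with hi | hi
    · exact (h6 i hi).1
    · obtain ⟨t, ht, hte⟩ := mem_ebl hi
      have h8 : B i ∩ W = {t} := by
        have h9 : t ∈ B i ∩ Q := by rw [hte]; exact mem_singleton_self t
        refine subset_antisymm ?_ ?_
        · rw [← hte]
          exact inter_subset_inter_left hW
        · rw [singleton_subset_iff]
          exact mem_inter.2 ⟨(mem_inter.1 h9).1, ht⟩
      rw [h8, card_singleton]
  rw [card_union_of_disjoint, h1] at h7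
  · omega
  · rw [disjoint_left]
    exact fun i hi => (h6 i hi).2

/-- the table: upper bounds of the number of incidences and of the number of shared blocks, for
`kpv <= kp` (even). -/
def ctb (kp : ℕ) : List (ℕ × ℕ) :=
  if kp = 0 then [(9, 1), (6, 3)]
  else if kp = 2 then [(10, 5)]
  else if kp = 4 then [(12, 3), (10, 5)]
  else if kp = 6 then [(14, 1), (12, 3), (10, 5)]
  else if kp = 8 then [(15, 5)]
  else [(17, 3), (15, 5)]

theorem ctb_arith {m n1 n2 e rh S P kp : ℕ} (hm : m + 1 = 2 * rh) (h5 : 5 * m = n1 + 2 * n2)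
    (hn2 : m = 1 → n2 = 0)
    (hk : 3 * m + 2 * n1 ≤ 11 + kp + 2 * e) (hS : S + 4 * e ≤ n2 + 2 * n1) (hP : P + 2 * e ≤ n1)
    (hkp : kp = 0 ∨ kp = 2 ∨ kp = 4 ∨ kp = 6 ∨ kp = 8 ∨ kp = 10) :
    ∃ p ∈ ctb kp, S ≤ p.1 ∧ P ≤ p.2 := by
  have hm7 : m ≤ 7 := by omega
  rcases hkp with rfl | rfl | rfl | rfl | rfl | rfl <;>
    simp only [ctb, if_true, if_false, List.mem_cons, List.not_mem_nil, or_false,
      exists_eq_or_imp, exists_eq_left, OfNat.ofNat_ne_zero, Nat.reduceEqDiff] <;>
    interval_cases m <;> omega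

/-- **the capacity of a component without full blocks.** -/
theorem Cf.cap (h : Cf B Q N r x C k) {j : ℕ} (hj : j < r) (hgt : ∀ i, (B i ∩ C j).card ≤ 2)
    (hs : sv B (C j) = -1) {kp : ℕ} (hk : kpv B Q (C j) ≤ (kp : ℤ))
    (hkp : kp = 0 ∨ kp = 2 ∨ kp = 4 ∨ kp = 6 ∨ kp = 8 ∨ kp = 10) :
    ∃ p ∈ ctb kp, ∑ a ∈ range N, (cxs B (C j) (ptm x N (2 ^ a))).card ≤ p.1 ∧
      ∀ K : Finset ℕ, (∀ A ∈ K, A < 2 ^ N ∧ 2 ≤ pcn N A) →
        ∑ A ∈ K, (hb B x N (C j) A).card ≤ p.2 := by
  classical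
  have hrW : Reg B (C j) := fun v hv => h.reg v (h.CQ j hj hv)
  have h1 := kpv_graph (Q := Q) hrW hgt hs
  have h2 := hits_le h.tr3 (h.CQ j hj) hgt h.inj h.xQ (fun a ha => h.xC a ha j hj)
  have h3 : nt B (C j) 3 = 0 := by
    unfold nt
    rw [card_eq_zero, eq_empty_iff_forall_notMem]
    intro i hi
    have h4 := mem_trs.1 hi
    have h5 := hgt i
    omega
  have h4 := inc_eq3 hrW (fun i => (hgt i).trans (by norm_num))
  rw [h3] at h4
  set K0 : Finset ℕ := (range (2 ^ N)).filter (fun A => 2 ≤ pcn N A) with hK0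
  have h5 := shr_le h.tr3 (h.CQ j hj) h.inj h.xQ (fun a ha => h.xC a ha j hj) K0 (by
    intro A hA
    rw [hK0, mem_filter, mem_range] at hA
    exact hA)
  have hn2 : (C j).card = 1 → nt B (C j) 2 = 0 := by
    intro hc
    unfold nt
    rw [card_eq_zero, eq_empty_iff_forall_notMem]
    intro i hi
    have h6 := mem_trs.1 hi
    have h7 := card_le_card (inter_subset_right : B i ∩ C j ⊆ C j)
    omega
  unfold sv at hs
  obtain ⟨p, hp, hS, hP⟩ := ctb_arith (m := (C j).card) (n1 := nt B (C j) 1) (n2 := nt B (C j) 2)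
    (e := ee B Q (C j)) (rh := _root_.Pool.Agent.Hyp6.rho B (C j)) (kp := kp) (by omega) (by omega)
    hn2 (by omega) h2 h5 hkp
  refine ⟨p, hp, hS, fun K hK => (sum_le_sum_of_subset ?_).trans hP⟩
  intro A hA
  rw [hK0, mem_filter, mem_range]
  exact hK A hA

/-- no three pairwise disjoint full traces. -/
def K2 (B : ι → Finset V) (Q : Finset V) : Prop :=
  ∀ i₁ i₂ i₃, (B i₁ ∩ Q).card = 3 → (B i₂ ∩ Q).card = 3 → (B i₃ ∩ Q).card = 3 →
    Disjoint (B i₁ ∩ Q) (B i₂ ∩ Q) → Disjoint (B i₁ ∩ Q) (B i₃ ∩ Q) →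
      Disjoint (B i₂ ∩ Q) (B i₃ ∩ Q) → False

/-- the components have no full blocks. -/
theorem CfK.graph {n : ℕ} {i j : ι} (h : CfK B Q n x C i j) (hK : K2 B Q) {a : ℕ}
    (ha : a < 2 + n) (l : ι) : (B l ∩ C a).card ≤ 2 := by
  by_contra hcon
  push Not at hcon
  have hsub : B l ∩ C a ⊆ B l ∩ Q := inter_subset_inter_left (h.cf.CQ a ha)
  have h1 := card_le_card hsub
  have h2 := h.cf.tr3 l
  have h3 : B l ∩ C a = B l ∩ Q := eq_of_subset_of_card_le hsub (by omega)
  have hd : ∀ A : ℕ, Disjoint (ptm x (6 + n) A) (B l ∩ C a) := by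
    intro A
    rw [disjoint_left]
    intro v hv hv'
    obtain ⟨b, hb1, _, rfl⟩ := mem_ptm.1 hv
    exact h.cf.xC b hb1 a ha (mem_inter.1 hv').2
  obtain ⟨Y, F, hkb, _, _⟩ := h.kb
  refine hK i j l hkb.fi hkb.fj (by rw [← h3]; omega) hkb.dij ?_ ?_
  · rw [h.i7, ← h3]
    exact hd 7
  · rw [h.j56, ← h3]
    exact hd 56

/-- **the capacity of the components.** -/
theorem CfK.cap {n : ℕ} {i j : ι} (h : CfK B Q n x C i j) (hK : K2 B Q) {a : ℕ}
    (ha : a < 2 + n) {kp : ℕ} (hk : kpv B Q (C a) ≤ (kp : ℤ))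
    (hkp : kp = 0 ∨ kp = 2 ∨ kp = 4 ∨ kp = 6 ∨ kp = 8 ∨ kp = 10) :
    ∃ p ∈ ctb kp, ∑ b ∈ range (6 + n), (cxs B (C a) (ptm x (6 + n) (2 ^ b))).card ≤ p.1 ∧
      ∀ K : Finset ℕ, (∀ A ∈ K, A < 2 ^ (6 + n) ∧ 2 ≤ pcn (6 + n) A) →
        ∑ A ∈ K, (hb B x (6 + n) (C a) A).card ≤ p.2 :=
  h.cf.cap ha (h.graph hK ha) (h.svC a ha) hk hkp

end Pool.Agent.Hyp6
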