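import Pool.Agent.Hyp6.CfS

/-!
# HYP6 CFS2: the number of incidences of a component without full blocks
-/

set_option autoImplicit false

namespace Pool.Agent.Hyp6

open Finset Pool.Agent.Hyp5

universe u v

variable {V : Type v} [DecidableEq V] {ι : Type u} [Fintype ι]

variable {B : ι → Finset V} {Q W : Finset V} {N r : ℕ} {x : ℕ → V} {C : ℕ → Finset V} {k : ℕ}

/-- the largest number of incidences for `kpv <= kp`. -/
def slN (kp : ℕ) : ℕ :=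
  if kp = 0 then 9 else if kp = 2 then 10 else if kp = 4 then 12 else if kp = 6 then 14
  else if kp = 8 then 15 else 17

/-- the largest number of shared blocks for `kpv <= kp`. -/
def snN (kp : ℕ) : ℕ := if kp = 0 then 3 else 5

theorem ctb_le {kp : ℕ} {p : ℕ × ℕ} (hp : p ∈ ctb kp) : p.1 ≤ slN kp ∧ p.2 ≤ snN kp := by
  unfold ctb at hp
  unfold slN snN
  split_ifs at hp ⊢ <;> simp only [List.mem_cons, List.not_mem_nil, or_false] at hp <;>
    rcases hp with rfl | rfl | rfl <;> norm_num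

/-- the incidences, pure form. -/
theorem Cf.slot_le (h : Cf B Q N r x C k) {j : ℕ} (hj : j < r) (hgt : ∀ i, (B i ∩ C j).card ≤ 2)
    (hs : sv B (C j) = -1) {kp : ℕ} (hk : kpv B Q (C j) ≤ (kp : ℤ))
    (hkp : kp = 0 ∨ kp = 2 ∨ kp = 4 ∨ kp = 6 ∨ kp = 8 ∨ kp = 10) :
    ∑ a ∈ range N, (cxs B (C j) (ptm x N (2 ^ a))).card ≤ slN kp := by
  obtain ⟨p, hp, h1, _⟩ := h.cap hj hgt hs hk hkp
  exact h1.trans (ctb_le hp).1

/-- the shared blocks, pure form. -/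
theorem Cf.shr_le (h : Cf B Q N r x C k) {j : ℕ} (hj : j < r) (hgt : ∀ i, (B i ∩ C j).card ≤ 2)
    (hs : sv B (C j) = -1) {kp : ℕ} (hk : kpv B Q (C j) ≤ (kp : ℤ))
    (hkp : kp = 0 ∨ kp = 2 ∨ kp = 4 ∨ kp = 6 ∨ kp = 8 ∨ kp = 10) (K : Finset ℕ)
    (hK : ∀ A ∈ K, A < 2 ^ N ∧ 2 ≤ pcn N A) :
    ∑ A ∈ K, (hb B x N (C j) A).card ≤ snN kp := by
  obtain ⟨p, hp, _, h1⟩ := h.cap hj hgt hs hk hkp
  exact (h1 K hK).trans (ctb_le hp).2

/-- `kp = 0`: at most nine incidences and one shared block, or at most six incidences and three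
shared blocks. -/
theorem Cf.cap_zero (h : Cf B Q N r x C k) {j : ℕ} (hj : j < r)
    (hgt : ∀ i, (B i ∩ C j).card ≤ 2) (hs : sv B (C j) = -1) (hk : kpv B Q (C j) ≤ 0) :
    (∑ a ∈ range N, (cxs B (C j) (ptm x N (2 ^ a))).card ≤ 9 ∧
      ∀ K : Finset ℕ, (∀ A ∈ K, A < 2 ^ N ∧ 2 ≤ pcn N A) →
        ∑ A ∈ K, (hb B x N (C j) A).card ≤ 1) ∨
    (∑ a ∈ range N, (cxs B (C j) (ptm x N (2 ^ a))).card ≤ 6 ∧
      ∀ K : Finset ℕ, (∀ A ∈ K, A < 2 ^ N ∧ 2 ≤ pcn N A) →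
        ∑ A ∈ K, (hb B x N (C j) A).card ≤ 3) := by
  obtain ⟨p, hp, h1, h2⟩ := h.cap hj hgt hs (kp := 0) (by simpa using hk) (Or.inl rfl)
  simp only [ctb, if_true, List.mem_cons, List.not_mem_nil, or_false] at hp
  rcases hp with rfl | rfl
  · exact Or.inl ⟨h1, h2⟩
  · exact Or.inr ⟨h1, h2⟩

end Pool.Agent.Hyp6
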