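import Pool.Agent.Hyp6.Gad

/-!
# HYP6 CFG: configurations of a few points and the components of the rest

`Cf B Q N r x C k`: the points `x a` (`a < N`) and the components `C j` (`j < r`) of the rest of `Q`;
covering `Q` costs at least `k` more than covering the components. Sets of points are given by bit masks.
-/

set_option autoImplicit false

namespace Pool.Agent.Hyp6

open Finset Pool.Agent.Hyp5

universe u v

variable {V : Type v} [DecidableEq V] {ι : Type u}

/-- the points of the mask `J`. -/
def ptm (x : ℕ → V) (N J : ℕ) : Finset V := ((range N).filter (fun a => J.testBit a = true)).image x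

theorem mem_ptm {x : ℕ → V} {N J : ℕ} {v : V} :
    v ∈ ptm x N J ↔ ∃ a < N, J.testBit a = true ∧ x a = v := by
  simp only [ptm, mem_image, mem_filter, mem_range, and_assoc]

variable [Fintype ι]

open Classical in
/-- the blocks meeting `W` whose trace on the points is the mask `A`. -/
noncomputable def hb (B : ι → Finset V) (x : ℕ → V) (N : ℕ) (W : Finset V) (A : ℕ) : Finset ι :=
  univ.filter (fun i => (B i ∩ W).Nonempty ∧ ∀ a < N, (x a ∈ B i ↔ A.testBit a = true))

theorem mem_hb {B : ι → Finset V} {x : ℕ → V} {N : ℕ} {W : Finset V} {A : ℕ} {i : ι} :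
    i ∈ hb B x N W A ↔ (B i ∩ W).Nonempty ∧ ∀ a < N, (x a ∈ B i ↔ A.testBit a = true) := by
  simp only [hb, mem_filter, mem_univ, true_and]

/-- a configuration. -/
structure Cf (B : ι → Finset V) (Q : Finset V) (N r : ℕ) (x : ℕ → V) (C : ℕ → Finset V) (k : ℕ) :
    Prop where
  reg : Reg B Q
  tr3 : Tr3 B Q
  inj : ∀ a < N, ∀ b < N, x a = x b → a = b
  xQ : ∀ a < N, x a ∈ Q
  CQ : ∀ j < r, C j ⊆ Q
  xC : ∀ a < N, ∀ j < r, x a ∉ C j
  all : ∀ v ∈ Q, (∃ a < N, v = x a) ∨ ∃ j < r, v ∈ C j
  dis : ∀ j < r, ∀ j' < r, j ≠ j' → Disjoint (C j) (C j')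
  sep : ∀ j < r, ∀ j' < r, j ≠ j' → Sep B (C j) (C j')
  conn : ∀ j < r, Conn (gr B) (C j)
  crit : ∀ j < r, Crit B (C j)
  rho : ∑ j ∈ range r, rho B (C j) + k ≤ rho B Q

/-- the mask is refused at level `t`. -/
def rf (B : ι → Finset V) (x : ℕ → V) (N : ℕ) (W : Finset V) (J t : ℕ) : Prop :=
  rho B W + t + 1 ≤ rho B (W ∪ ptm x N J)

section

variable {B : ι → Finset V} {Q : Finset V} {N r : ℕ} {x : ℕ → V} {C : ℕ → Finset V} {k : ℕ}

theorem hb_disj {W : Finset V} {A A' : ℕ} (hA : A < 2 ^ N) (hA' : A' < 2 ^ N) (hne : A ≠ A') :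
    Disjoint (hb B x N W A) (hb B x N W A') := by
  rw [disjoint_left]
  intro i hi hi'
  rw [mem_hb] at hi hi'
  apply hne
  refine Nat.eq_of_testBit_eq fun a => ?_
  rcases lt_or_ge a N with ha | ha
  · have h1 := hi.2 a ha
    have h2 := hi'.2 a ha
    rcases h3 : A.testBit a with _ | _
    · rcases h4 : A'.testBit a with _ | _
      · rfl
      · rw [h4] at h2
        rw [h3] at h1
        simp at h1 h2
        exact absurd h2 h1
    · rcases h4 : A'.testBit a with _ | _
      · rw [h4] at h2
        rw [h3] at h1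
        simp at h1 h2
        exact absurd h1 h2
      · rfl
  · have h2 : (2 : ℕ) ^ N ≤ 2 ^ a := Nat.pow_le_pow_right (by norm_num) ha
    rw [Nat.testBit_lt_two_pow (lt_of_lt_of_le hA h2),
      Nat.testBit_lt_two_pow (lt_of_lt_of_le hA' h2)]

end

/-- the data of a gadget: component, masks of the groups, hits used by every group, new blocks as masks
of groups, level `R` (`1` or `2`). -/
structure Gdt where
  j : ℕ
  gr : List ℕ
  wit : List (List (ℕ × ℕ))
  dum : List ℕ
  R : ℕ

/-- the bits of a mask. -/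
def bts (N g : ℕ) : List ℕ := (List.range N).filter (fun b => g.testBit b)

/-- the masks of the transversals of a list of groups. -/
def trv (N : ℕ) : List ℕ → List ℕ
  | [] => [0]
  | g :: gs => (bts N g).flatMap (fun b => (trv N gs).map (fun M => M ||| 2 ^ b))

theorem mem_bts {N g b : ℕ} : b ∈ bts N g ↔ b < N ∧ g.testBit b = true := by
  unfold bts
  rw [List.mem_filter, List.mem_range]

/-- every transversal of the groups is the set of points of one of the masks. -/
theorem exists_trv {x : ℕ → V} {N : ℕ} : ∀ (l : List ℕ) (f : ℕ → V),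
    (∀ z, (h : z < l.length) → f z ∈ ptm x N l[z]) →
    ∃ M ∈ trv N l, ptm x N M = (range l.length).image f := by
  intro l
  induction l with
  | nil =>
    intro f _
    refine ⟨0, by simp [trv], ?_⟩
    ext v
    simp [mem_ptm]
  | cons g gs ih =>
    intro f hf
    obtain ⟨b, hb, hgb, hbf⟩ := mem_ptm.1 (hf 0 (by simp))
    obtain ⟨M, hM, hMe⟩ := ih (fun z => f (z + 1)) (fun z hz => by
      have := hf (z + 1) (by simpa using hz)
      simpa using this)
    refine ⟨M ||| 2 ^ b, ?_, ?_⟩
    · unfold trv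
      rw [List.mem_flatMap]
      refine ⟨b, mem_bts.2 ⟨hb, hgb⟩, ?_⟩
      rw [List.mem_map]
      exact ⟨M, hM, rfl⟩
    · ext v
      rw [mem_ptm, mem_image]
      constructor
      · rintro ⟨a, ha, hMa, rfl⟩
        rw [Nat.testBit_or, Bool.or_eq_true] at hMa
        rcases hMa with hMa | hMa
        · have h1 : x a ∈ ptm x N M := mem_ptm.2 ⟨a, ha, hMa, rfl⟩
          rw [hMe, mem_image] at h1
          obtain ⟨z, hz, he⟩ := h1
          exact ⟨z + 1, by simpa using hz, he⟩
        · have h2 : a = b := by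
            by_contra hne
            rw [Nat.testBit_two_pow_of_ne (Ne.symm hne)] at hMa
            exact absurd hMa (by simp)
          subst h2
          exact ⟨0, by simp, hbf.symm⟩
      · rintro ⟨z, hz, rfl⟩
        rcases z with _ | z
        · exact ⟨b, hb, by rw [Nat.testBit_or, Nat.testBit_two_pow_self]; simp, hbf⟩
        · have h1 : f (z + 1) ∈ ptm x N M := by
            rw [hMe, mem_image]
            exact ⟨z, by simpa using hz, rfl⟩
          obtain ⟨a, ha, hMa, he⟩ := mem_ptm.1 h1
          exact ⟨a, ha, by rw [Nat.testBit_or, hMa]; simp, he⟩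

end Pool.Agent.Hyp6
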