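import Pool.Agent.Hyp6.Cfg7
import Pool.Agent.Hyp6.CfE

/-!
# HYP6 CFGR: reduction to finitely many instances

Every configuration `CfK` whose components have at most `sl` hits is, after permutations of the points
and the components, one of the explicit instances `insts` (number `n`, upper bounds for the values of
the components, masks of the further inner blocks).
-/

set_option autoImplicit false

namespace Pool.Agent.Hyp6

open Finset Pool.Agent.Hyp5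

universe u v

/-- the instances. -/
def insts : List (ℕ × List ℕ × List ℕ) :=
  [(0, [0, 10], []),
   (0, [2, 8], []),
   (0, [4, 6], []),
   (0, [0, 6], [1]),
   (0, [0, 6], [3]),
   (0, [2, 4], [3]),
   (0, [0, 6], [7]),
   (0, [2, 4], [7]),
   (0, [0, 6], [9]),
   (0, [2, 4], [9]),
   (0, [0, 6], [11]),
   (0, [2, 4], [11]),
   (0, [0, 2], [3, 7]),
   (0, [0, 2], [3, 11]),
   (0, [0, 2], [3, 13]),
   (0, [0, 2], [3, 25]),
   (0, [0, 2], [3, 28]),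
   (0, [0, 2], [3, 56]),
   (0, [0, 2], [7, 7]),
   (0, [0, 2], [7, 9]),
   (0, [0, 2], [7, 11]),
   (0, [0, 2], [7, 25]),
   (0, [0, 2], [7, 56]),
   (0, [0, 2], [9, 11]),
   (0, [0, 2], [9, 14]),
   (0, [0, 2], [9, 19]),
   (0, [0, 2], [9, 22]),
   (0, [0, 2], [11, 11]),
   (0, [0, 2], [11, 13]),
   (0, [0, 2], [11, 19]),
   (0, [0, 2], [11, 21]),
   (0, [0, 2], [11, 25]),
   (0, [0, 2], [11, 28]),
   (0, [0, 2], [11, 52]),
   (1, [0, 0, 6], []),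
   (1, [0, 2, 4], []),
   (1, [2, 2, 2], []),
   (1, [0, 0, 2], [1]),
   (1, [0, 0, 2], [3]),
   (1, [0, 0, 2], [7]),
   (1, [0, 0, 2], [9]),
   (1, [0, 0, 2], [11]),
   (1, [0, 0, 2], [64]),
   (1, [0, 0, 2], [65]),
   (1, [0, 0, 2], [67]),
   (1, [0, 0, 2], [73]),
   (1, [0, 0, 0], [1, 1]),
   (1, [0, 0, 0], [64, 64]),
   (2, [0, 0, 0, 2], [])]

/-- the permutations of the points, `n = 0`. -/
def prmL0 : List (List ℕ) :=
  [[0, 1, 2, 3, 4, 5],
   [0, 1, 2, 3, 5, 4],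
   [0, 1, 2, 4, 3, 5],
   [0, 1, 2, 4, 5, 3],
   [0, 1, 2, 5, 3, 4],
   [0, 1, 2, 5, 4, 3],
   [0, 2, 1, 3, 4, 5],
   [0, 2, 1, 3, 5, 4],
   [0, 2, 1, 4, 3, 5],
   [0, 2, 1, 4, 5, 3],
   [0, 2, 1, 5, 3, 4],
   [0, 2, 1, 5, 4, 3],
   [1, 0, 2, 3, 4, 5],
   [1, 0, 2, 3, 5, 4],
   [1, 0, 2, 4, 3, 5],
   [1, 0, 2, 4, 5, 3],
   [1, 0, 2, 5, 3, 4],
   [1, 0, 2, 5, 4, 3],
   [1, 2, 0, 3, 4, 5],
   [1, 2, 0, 3, 5, 4],
   [1, 2, 0, 4, 3, 5],
   [1, 2, 0, 4, 5, 3],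
   [1, 2, 0, 5, 3, 4],
   [1, 2, 0, 5, 4, 3],
   [2, 0, 1, 3, 4, 5],
   [2, 0, 1, 3, 5, 4],
   [2, 0, 1, 4, 3, 5],
   [2, 0, 1, 4, 5, 3],
   [2, 0, 1, 5, 3, 4],
   [2, 0, 1, 5, 4, 3],
   [2, 1, 0, 3, 4, 5],
   [2, 1, 0, 3, 5, 4],
   [2, 1, 0, 4, 3, 5],
   [2, 1, 0, 4, 5, 3],
   [2, 1, 0, 5, 3, 4],
   [2, 1, 0, 5, 4, 3],
   [3, 4, 5, 0, 1, 2],
   [3, 4, 5, 0, 2, 1],
   [3, 4, 5, 1, 0, 2],
   [3, 4, 5, 1, 2, 0],
   [3, 4, 5, 2, 0, 1],
   [3, 4, 5, 2, 1, 0],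
   [3, 5, 4, 0, 1, 2],
   [3, 5, 4, 0, 2, 1],
   [3, 5, 4, 1, 0, 2],
   [3, 5, 4, 1, 2, 0],
   [3, 5, 4, 2, 0, 1],
   [3, 5, 4, 2, 1, 0],
   [4, 3, 5, 0, 1, 2],
   [4, 3, 5, 0, 2, 1],
   [4, 3, 5, 1, 0, 2],
   [4, 3, 5, 1, 2, 0],
   [4, 3, 5, 2, 0, 1],
   [4, 3, 5, 2, 1, 0],
   [4, 5, 3, 0, 1, 2],
   [4, 5, 3, 0, 2, 1],
   [4, 5, 3, 1, 0, 2],
   [4, 5, 3, 1, 2, 0],
   [4, 5, 3, 2, 0, 1],
   [4, 5, 3, 2, 1, 0],
   [5, 3, 4, 0, 1, 2],
   [5, 3, 4, 0, 2, 1],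
   [5, 3, 4, 1, 0, 2],
   [5, 3, 4, 1, 2, 0],
   [5, 3, 4, 2, 0, 1],
   [5, 3, 4, 2, 1, 0],
   [5, 4, 3, 0, 1, 2],
   [5, 4, 3, 0, 2, 1],
   [5, 4, 3, 1, 0, 2],
   [5, 4, 3, 1, 2, 0],
   [5, 4, 3, 2, 0, 1],
   [5, 4, 3, 2, 1, 0]]

/-- the permutations of the points, `n = 1`. -/
def prmL1 : List (List ℕ) :=
  [[0, 1, 2, 3, 4, 5, 6],
   [0, 1, 2, 3, 5, 4, 6],
   [0, 1, 2, 4, 3, 5, 6],
   [0, 1, 2, 4, 5, 3, 6],
   [0, 1, 2, 5, 3, 4, 6],
   [0, 1, 2, 5, 4, 3, 6],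
   [0, 2, 1, 3, 4, 5, 6],
   [0, 2, 1, 3, 5, 4, 6],
   [0, 2, 1, 4, 3, 5, 6],
   [0, 2, 1, 4, 5, 3, 6],
   [0, 2, 1, 5, 3, 4, 6],
   [0, 2, 1, 5, 4, 3, 6],
   [1, 0, 2, 3, 4, 5, 6],
   [1, 0, 2, 3, 5, 4, 6],
   [1, 0, 2, 4, 3, 5, 6],
   [1, 0, 2, 4, 5, 3, 6],
   [1, 0, 2, 5, 3, 4, 6],
   [1, 0, 2, 5, 4, 3, 6],
   [1, 2, 0, 3, 4, 5, 6],
   [1, 2, 0, 3, 5, 4, 6],
   [1, 2, 0, 4, 3, 5, 6],
   [1, 2, 0, 4, 5, 3, 6],
   [1, 2, 0, 5, 3, 4, 6],
   [1, 2, 0, 5, 4, 3, 6],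
   [2, 0, 1, 3, 4, 5, 6],
   [2, 0, 1, 3, 5, 4, 6],
   [2, 0, 1, 4, 3, 5, 6],
   [2, 0, 1, 4, 5, 3, 6],
   [2, 0, 1, 5, 3, 4, 6],
   [2, 0, 1, 5, 4, 3, 6],
   [2, 1, 0, 3, 4, 5, 6],
   [2, 1, 0, 3, 5, 4, 6],
   [2, 1, 0, 4, 3, 5, 6],
   [2, 1, 0, 4, 5, 3, 6],
   [2, 1, 0, 5, 3, 4, 6],
   [2, 1, 0, 5, 4, 3, 6],
   [3, 4, 5, 0, 1, 2, 6],
   [3, 4, 5, 0, 2, 1, 6],
   [3, 4, 5, 1, 0, 2, 6],
   [3, 4, 5, 1, 2, 0, 6],
   [3, 4, 5, 2, 0, 1, 6],
   [3, 4, 5, 2, 1, 0, 6],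
   [3, 5, 4, 0, 1, 2, 6],
   [3, 5, 4, 0, 2, 1, 6],
   [3, 5, 4, 1, 0, 2, 6],
   [3, 5, 4, 1, 2, 0, 6],
   [3, 5, 4, 2, 0, 1, 6],
   [3, 5, 4, 2, 1, 0, 6],
   [4, 3, 5, 0, 1, 2, 6],
   [4, 3, 5, 0, 2, 1, 6],
   [4, 3, 5, 1, 0, 2, 6],
   [4, 3, 5, 1, 2, 0, 6],
   [4, 3, 5, 2, 0, 1, 6],
   [4, 3, 5, 2, 1, 0, 6],
   [4, 5, 3, 0, 1, 2, 6],
   [4, 5, 3, 0, 2, 1, 6],
   [4, 5, 3, 1, 0, 2, 6],
   [4, 5, 3, 1, 2, 0, 6],
   [4, 5, 3, 2, 0, 1, 6],
   [4, 5, 3, 2, 1, 0, 6],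
   [5, 3, 4, 0, 1, 2, 6],
   [5, 3, 4, 0, 2, 1, 6],
   [5, 3, 4, 1, 0, 2, 6],
   [5, 3, 4, 1, 2, 0, 6],
   [5, 3, 4, 2, 0, 1, 6],
   [5, 3, 4, 2, 1, 0, 6],
   [5, 4, 3, 0, 1, 2, 6],
   [5, 4, 3, 0, 2, 1, 6],
   [5, 4, 3, 1, 0, 2, 6],
   [5, 4, 3, 1, 2, 0, 6],
   [5, 4, 3, 2, 0, 1, 6],
   [5, 4, 3, 2, 1, 0, 6]]

/-- one further inner block, `n = 0`. -/
def tabA0 : List (ℕ × ℕ × ℕ) :=
  [(1, 0, 1),
   (2, 12, 1),
   (3, 0, 3),
   (4, 24, 1),
   (5, 6, 3),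
   (6, 18, 3),
   (7, 0, 7),
   (8, 36, 1),
   (9, 0, 9),
   (10, 12, 9),
   (11, 0, 11),
   (12, 24, 9),
   (13, 6, 11),
   (14, 18, 11),
   (16, 48, 1),
   (17, 2, 9),
   (18, 14, 9),
   (19, 2, 11),
   (20, 26, 9),
   (21, 8, 11),
   (22, 20, 11),
   (24, 36, 3),
   (25, 36, 11),
   (26, 38, 11),
   (28, 40, 11),
   (32, 60, 1),
   (33, 4, 9),
   (34, 16, 9),
   (35, 4, 11),
   (36, 28, 9),
   (37, 10, 11),
   (38, 22, 11),
   (40, 42, 3),
   (41, 42, 11),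
   (42, 44, 11),
   (44, 46, 11),
   (48, 54, 3),
   (49, 54, 11),
   (50, 56, 11),
   (52, 58, 11),
   (56, 36, 7)]

/-- two further inner blocks, `n = 0`. -/
def tabB0 : List (ℕ × List (ℕ × ℕ × ℕ × ℕ)) :=
  [(3, [(7, 0, 3, 7), (11, 0, 3, 11), (13, 0, 3, 13), (14, 12, 3, 13), (19, 2, 3, 11), (21, 2, 3, 13), (22, 14, 3, 13), (25, 0, 3, 25), (26, 12, 3, 25), (28, 0, 3, 28), (35, 4, 3, 11), (37, 4, 3, 13), (38, 16, 3, 13), (41, 1, 3, 25), (42, 13, 3, 25), (44, 1, 3, 28), (49, 3, 3, 25), (50, 15, 3, 25), (52, 3, 3, 28), (56, 0, 3, 56)]),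
   (5, [(7, 6, 3, 7), (11, 6, 3, 13), (13, 6, 3, 11), (14, 24, 3, 13), (19, 8, 3, 13), (21, 8, 3, 11), (22, 26, 3, 13), (25, 6, 3, 25), (26, 6, 3, 28), (28, 24, 3, 25), (35, 10, 3, 13), (37, 10, 3, 11), (38, 28, 3, 13), (41, 7, 3, 25), (42, 7, 3, 28), (44, 25, 3, 25), (49, 9, 3, 25), (50, 9, 3, 28), (52, 27, 3, 25), (56, 6, 3, 56)]),
   (6, [(7, 18, 3, 7), (11, 18, 3, 13), (13, 30, 3, 13), (14, 18, 3, 11), (19, 20, 3, 13), (21, 32, 3, 13), (22, 20, 3, 11), (25, 18, 3, 28), (26, 18, 3, 25), (28, 30, 3, 25), (35, 22, 3, 13), (37, 34, 3, 13), (38, 22, 3, 11), (41, 19, 3, 28), (42, 19, 3, 25), (44, 31, 3, 25), (49, 21, 3, 28), (50, 21, 3, 25), (52, 33, 3, 25), (56, 18, 3, 56)]),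
   (7, [(7, 0, 7, 7), (9, 0, 7, 9), (10, 12, 7, 9), (11, 0, 7, 11), (12, 24, 7, 9), (13, 6, 7, 11), (14, 18, 7, 11), (17, 2, 7, 9), (18, 14, 7, 9), (19, 2, 7, 11), (20, 26, 7, 9), (21, 8, 7, 11), (22, 20, 7, 11), (24, 36, 3, 56), (25, 0, 7, 25), (26, 12, 7, 25), (28, 24, 7, 25), (33, 4, 7, 9), (34, 16, 7, 9), (35, 4, 7, 11), (36, 28, 7, 9), (37, 10, 7, 11), (38, 22, 7, 11), (40, 42, 3, 56), (41, 1, 7, 25), (42, 13, 7, 25), (44, 25, 7, 25), (48, 54, 3, 56), (49, 3, 7, 25), (50, 15, 7, 25), (52, 27, 7, 25), (56, 0, 7, 56)]),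
   (9, [(11, 0, 9, 11), (13, 6, 9, 11), (14, 0, 9, 14), (19, 0, 9, 19), (21, 6, 9, 19), (22, 0, 9, 22), (25, 36, 9, 11), (26, 36, 9, 19), (28, 37, 9, 19), (35, 1, 9, 19), (37, 7, 9, 19), (38, 1, 9, 22), (41, 42, 9, 11), (42, 42, 9, 19), (44, 43, 9, 19), (49, 36, 9, 14), (50, 36, 9, 22), (52, 37, 9, 22), (56, 36, 7, 9)]),
   (10, [(11, 12, 9, 11), (13, 12, 9, 14), (14, 18, 9, 11), (19, 12, 9, 19), (21, 12, 9, 22), (22, 18, 9, 19), (25, 38, 9, 19), (26, 38, 9, 11), (28, 39, 9, 19), (35, 13, 9, 19), (37, 13, 9, 22), (38, 19, 9, 19), (41, 44, 9, 19), (42, 44, 9, 11), (44, 45, 9, 19), (49, 38, 9, 22), (50, 38, 9, 14), (52, 39, 9, 22), (56, 38, 7, 9)]),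
   (11, [(11, 0, 11, 11), (12, 24, 9, 14), (13, 0, 11, 13), (14, 12, 11, 13), (17, 2, 9, 19), (18, 14, 9, 19), (19, 0, 11, 19), (20, 26, 9, 22), (21, 0, 11, 21), (22, 12, 11, 21), (24, 36, 3, 25), (25, 0, 11, 25), (26, 12, 11, 25), (28, 0, 11, 28), (33, 4, 9, 19), (34, 16, 9, 19), (35, 1, 11, 19), (36, 28, 9, 22), (37, 1, 11, 21), (38, 13, 11, 21), (40, 42, 3, 25), (41, 1, 11, 25), (42, 13, 11, 25), (44, 1, 11, 28), (48, 54, 3, 28), (49, 54, 11, 28), (50, 56, 11, 28), (52, 0, 11, 52), (56, 36, 7, 25)]),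
   (12, [(13, 24, 9, 11), (14, 30, 9, 11), (19, 24, 9, 22), (21, 24, 9, 19), (22, 30, 9, 19), (25, 40, 9, 19), (26, 41, 9, 19), (28, 40, 9, 11), (35, 25, 9, 22), (37, 25, 9, 19), (38, 31, 9, 19), (41, 46, 9, 19), (42, 47, 9, 19), (44, 46, 9, 11), (49, 40, 9, 22), (50, 41, 9, 22), (52, 40, 9, 14), (56, 40, 7, 9)]),
   (13, [(13, 6, 11, 11), (14, 24, 11, 13), (17, 8, 9, 19), (18, 14, 9, 22), (19, 2, 11, 21), (20, 26, 9, 19), (21, 6, 11, 19), (22, 24, 11, 21), (24, 37, 3, 25), (25, 6, 11, 25), (26, 6, 11, 28), (28, 24, 11, 25), (33, 10, 9, 19), (34, 16, 9, 22), (35, 4, 11, 21), (36, 28, 9, 19), (37, 7, 11, 19), (38, 25, 11, 21), (40, 43, 3, 25), (41, 7, 11, 25), (42, 7, 11, 28), (44, 25, 11, 25), (48, 55, 3, 28), (49, 55, 11, 28), (50, 6, 11, 52), (52, 58, 11, 28), (56, 37, 7, 25)]),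
   (14, [(14, 18, 11, 11), (17, 2, 9, 22), (18, 20, 9, 19), (19, 14, 11, 21), (20, 32, 9, 19), (21, 26, 11, 21), (22, 18, 11, 19), (24, 39, 3, 25), (25, 18, 11, 28), (26, 18, 11, 25), (28, 30, 11, 25), (33, 4, 9, 22), (34, 22, 9, 19), (35, 16, 11, 21), (36, 34, 9, 19), (37, 28, 11, 21), (38, 19, 11, 19), (40, 45, 3, 25), (41, 19, 11, 28), (42, 19, 11, 25), (44, 31, 11, 25), (48, 57, 3, 28), (49, 18, 11, 52), (50, 57, 11, 28), (52, 59, 11, 28), (56, 39, 7, 25)]),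
   (17, [(19, 2, 9, 11), (21, 8, 9, 11), (22, 2, 9, 14), (25, 48, 9, 11), (26, 48, 9, 19), (28, 49, 9, 19), (35, 3, 9, 19), (37, 9, 9, 19), (38, 3, 9, 22), (41, 48, 9, 14), (42, 48, 9, 22), (44, 49, 9, 22), (49, 54, 9, 11), (50, 54, 9, 19), (52, 55, 9, 19), (56, 48, 7, 9)]),
   (18, [(19, 14, 9, 11), (21, 14, 9, 14), (22, 20, 9, 11), (25, 50, 9, 19), (26, 50, 9, 11), (28, 51, 9, 19), (35, 15, 9, 19), (37, 15, 9, 22), (38, 21, 9, 19), (41, 50, 9, 22), (42, 50, 9, 14), (44, 51, 9, 22), (49, 56, 9, 19), (50, 56, 9, 11), (52, 57, 9, 19), (56, 50, 7, 9)]),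
   (19, [(19, 2, 11, 11), (20, 26, 9, 14), (21, 2, 11, 13), (22, 14, 11, 13), (24, 48, 3, 25), (25, 2, 11, 25), (26, 14, 11, 25), (28, 2, 11, 28), (33, 5, 9, 19), (34, 17, 9, 19), (35, 3, 11, 19), (36, 29, 9, 22), (37, 3, 11, 21), (38, 15, 11, 21), (40, 42, 3, 28), (41, 42, 11, 28), (42, 44, 11, 28), (44, 2, 11, 52), (48, 54, 3, 25), (49, 3, 11, 25), (50, 15, 11, 25), (52, 3, 11, 28), (56, 48, 7, 25)]),
   (20, [(21, 26, 9, 11), (22, 32, 9, 11), (25, 52, 9, 19), (26, 53, 9, 19), (28, 52, 9, 11), (35, 27, 9, 22), (37, 27, 9, 19), (38, 33, 9, 19), (41, 52, 9, 22), (42, 53, 9, 22), (44, 52, 9, 14), (49, 58, 9, 19), (50, 59, 9, 19), (52, 58, 9, 11), (56, 52, 7, 9)]),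
   (21, [(21, 8, 11, 11), (22, 26, 11, 13), (24, 49, 3, 25), (25, 8, 11, 25), (26, 8, 11, 28), (28, 26, 11, 25), (33, 11, 9, 19), (34, 17, 9, 22), (35, 5, 11, 21), (36, 29, 9, 19), (37, 9, 11, 19), (38, 27, 11, 21), (40, 43, 3, 28), (41, 43, 11, 28), (42, 8, 11, 52), (44, 46, 11, 28), (48, 55, 3, 25), (49, 9, 11, 25), (50, 9, 11, 28), (52, 27, 11, 25), (56, 49, 7, 25)]),
   (22, [(22, 20, 11, 11), (24, 51, 3, 25), (25, 20, 11, 28), (26, 20, 11, 25), (28, 32, 11, 25), (33, 5, 9, 22), (34, 23, 9, 19), (35, 17, 11, 21), (36, 35, 9, 19), (37, 29, 11, 21), (38, 21, 11, 19), (40, 45, 3, 28), (41, 20, 11, 52), (42, 45, 11, 28), (44, 47, 11, 28), (48, 57, 3, 25), (49, 21, 11, 28), (50, 21, 11, 25), (52, 33, 11, 25), (56, 51, 7, 25)]),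
   (24, [(25, 36, 3, 11), (26, 38, 3, 11), (28, 40, 3, 11), (35, 36, 3, 28), (37, 37, 3, 28), (38, 39, 3, 28), (41, 36, 3, 13), (42, 38, 3, 13), (44, 40, 3, 13), (49, 48, 3, 13), (50, 50, 3, 13), (52, 52, 3, 13), (56, 36, 3, 7)]),
   (25, [(25, 36, 11, 11), (26, 36, 11, 19), (28, 37, 11, 19), (33, 60, 9, 14), (34, 62, 9, 22), (35, 36, 11, 28), (36, 64, 9, 22), (37, 37, 11, 28), (38, 22, 11, 52), (40, 42, 3, 13), (41, 36, 11, 13), (42, 36, 11, 21), (44, 37, 11, 21), (48, 54, 3, 13), (49, 48, 11, 13), (50, 48, 11, 21), (52, 49, 11, 21), (56, 36, 7, 11)]),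
   (26, [(26, 38, 11, 11), (28, 39, 11, 19), (33, 60, 9, 22), (34, 62, 9, 14), (35, 38, 11, 28), (36, 65, 9, 22), (37, 10, 11, 52), (38, 39, 11, 28), (40, 44, 3, 13), (41, 38, 11, 21), (42, 38, 11, 13), (44, 39, 11, 21), (48, 56, 3, 13), (49, 50, 11, 21), (50, 50, 11, 13), (52, 51, 11, 21), (56, 38, 7, 11)]),
   (28, [(28, 40, 11, 11), (33, 61, 9, 22), (34, 63, 9, 22), (35, 4, 11, 52), (36, 64, 9, 14), (37, 40, 11, 28), (38, 41, 11, 28), (40, 46, 3, 13), (41, 40, 11, 21), (42, 41, 11, 21), (44, 40, 11, 13), (48, 58, 3, 13), (49, 52, 11, 21), (50, 53, 11, 21), (52, 52, 11, 13), (56, 40, 7, 11)]),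
   (33, [(35, 4, 9, 11), (37, 10, 9, 11), (38, 4, 9, 14), (41, 60, 9, 11), (42, 60, 9, 19), (44, 61, 9, 19), (49, 66, 9, 11), (50, 66, 9, 19), (52, 67, 9, 19), (56, 60, 7, 9)]),
   (34, [(35, 16, 9, 11), (37, 16, 9, 14), (38, 22, 9, 11), (41, 62, 9, 19), (42, 62, 9, 11), (44, 63, 9, 19), (49, 68, 9, 19), (50, 68, 9, 11), (52, 69, 9, 19), (56, 62, 7, 9)]),
   (35, [(35, 4, 11, 11), (36, 28, 9, 14), (37, 4, 11, 13), (38, 16, 11, 13), (40, 60, 3, 25), (41, 4, 11, 25), (42, 16, 11, 25), (44, 4, 11, 28), (48, 66, 3, 25), (49, 5, 11, 25), (50, 17, 11, 25), (52, 5, 11, 28), (56, 60, 7, 25)]),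
   (36, [(37, 28, 9, 11), (38, 34, 9, 11), (41, 64, 9, 19), (42, 65, 9, 19), (44, 64, 9, 11), (49, 70, 9, 19), (50, 71, 9, 19), (52, 70, 9, 11), (56, 64, 7, 9)]),
   (37, [(37, 10, 11, 11), (38, 28, 11, 13), (40, 61, 3, 25), (41, 10, 11, 25), (42, 10, 11, 28), (44, 28, 11, 25), (48, 67, 3, 25), (49, 11, 11, 25), (50, 11, 11, 28), (52, 29, 11, 25), (56, 61, 7, 25)]),
   (38, [(38, 22, 11, 11), (40, 63, 3, 25), (41, 22, 11, 28), (42, 22, 11, 25), (44, 34, 11, 25), (48, 69, 3, 25), (49, 23, 11, 28), (50, 23, 11, 25), (52, 35, 11, 25), (56, 63, 7, 25)]),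
   (40, [(41, 42, 3, 11), (42, 44, 3, 11), (44, 46, 3, 11), (49, 60, 3, 13), (50, 62, 3, 13), (52, 64, 3, 13), (56, 42, 3, 7)]),
   (41, [(41, 42, 11, 11), (42, 42, 11, 19), (44, 43, 11, 19), (48, 66, 3, 13), (49, 60, 11, 13), (50, 60, 11, 21), (52, 61, 11, 21), (56, 42, 7, 11)]),
   (42, [(42, 44, 11, 11), (44, 45, 11, 19), (48, 68, 3, 13), (49, 62, 11, 21), (50, 62, 11, 13), (52, 63, 11, 21), (56, 44, 7, 11)]),
   (44, [(44, 46, 11, 11), (48, 70, 3, 13), (49, 64, 11, 21), (50, 65, 11, 21), (52, 64, 11, 13), (56, 46, 7, 11)]),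
   (48, [(49, 54, 3, 11), (50, 56, 3, 11), (52, 58, 3, 11), (56, 54, 3, 7)]),
   (49, [(49, 54, 11, 11), (50, 54, 11, 19), (52, 55, 11, 19), (56, 54, 7, 11)]),
   (50, [(50, 56, 11, 11), (52, 57, 11, 19), (56, 56, 7, 11)]),
   (52, [(52, 58, 11, 11), (56, 58, 7, 11)]),
   (56, [(56, 36, 7, 7)])]

/-- one further inner block, `n = 1`. -/
def tabA1 : List (ℕ × ℕ × ℕ) :=
  [(1, 0, 1),
   (2, 12, 1),
   (3, 0, 3),
   (4, 24, 1),
   (5, 6, 3),
   (6, 18, 3),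
   (7, 0, 7),
   (8, 36, 1),
   (9, 0, 9),
   (10, 12, 9),
   (11, 0, 11),
   (12, 24, 9),
   (13, 6, 11),
   (14, 18, 11),
   (16, 48, 1),
   (17, 2, 9),
   (18, 14, 9),
   (19, 2, 11),
   (20, 26, 9),
   (21, 8, 11),
   (22, 20, 11),
   (24, 36, 3),
   (25, 36, 11),
   (26, 38, 11),
   (28, 40, 11),
   (32, 60, 1),
   (33, 4, 9),
   (34, 16, 9),
   (35, 4, 11),
   (36, 28, 9),
   (37, 10, 11),
   (38, 22, 11),
   (40, 42, 3),
   (41, 42, 11),
   (42, 44, 11),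
   (44, 46, 11),
   (48, 54, 3),
   (49, 54, 11),
   (50, 56, 11),
   (52, 58, 11),
   (56, 36, 7),
   (64, 0, 64),
   (65, 0, 65),
   (66, 12, 65),
   (67, 0, 67),
   (68, 24, 65),
   (69, 6, 67),
   (70, 18, 67),
   (72, 36, 65),
   (73, 0, 73),
   (74, 12, 73),
   (76, 24, 73),
   (80, 48, 65),
   (81, 2, 73),
   (82, 14, 73),
   (84, 26, 73),
   (88, 36, 67),
   (96, 60, 65),
   (97, 4, 73),
   (98, 16, 73),
   (100, 28, 73),
   (104, 42, 67),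
   (112, 54, 67)]

/-- two further inner blocks, `n = 1`. -/
def tabB1 : List (ℕ × List (ℕ × ℕ × ℕ × ℕ)) :=
  [(1, [(1, 0, 1, 1)]),
   (2, [(2, 12, 1, 1)]),
   (4, [(4, 24, 1, 1)]),
   (8, [(8, 36, 1, 1)]),
   (16, [(16, 48, 1, 1)]),
   (32, [(32, 60, 1, 1)]),
   (64, [(64, 0, 64, 64)])]

/-- the masks with at most three points. -/
def mskL (N : ℕ) : List ℕ := (List.range (2 ^ N)).filter (fun A => decide (A ≠ 0) && decide (pcn N A ≤ 3))

/-- upper bound for the number of hits of a component. -/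
def sl (k : ℕ) : ℕ :=
  if k < 2 then 9 else if k < 4 then 10 else if k < 6 then 12 else if k < 8 then 14
    else if k < 10 then 15 else 17

/-- the maximal sorted even vectors with sum at most `S`. -/
def kvs (n S : ℕ) : List (List ℕ) :=
  if n = 0 then
    [0, S] :: ((if 4 ≤ S then [[2, S - 2]] else []) ++ (if 8 ≤ S then [[4, S - 4]] else []))
  else if n = 1 then
    [0, 0, S] :: ((if 4 ≤ S then [[0, 2, S - 2]] else []) ++ (if 6 ≤ S then [[2, 2, S - 4]] else []))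
  else [[0, 0, 0, S]]

/-- the list of the inner blocks is settled by the representative `R` and the permutation `pl`. -/
def chkI (n : ℕ) (L pl R : List ℕ) : Bool :=
  decide (10 + 2 * e2n n L < 4 * L.length + 4 * n) ||
  (kvs n (10 + 2 * e2n n L - 4 * L.length - 4 * n)).all (fun kv =>
    decide ((kv.map sl).sum + 6 + (L.map (pcn (6 + n))).sum < 5 * (6 + n)) ||
    (insts.contains (n, kv, R) && !(pl.isEmpty) && R.all (fun A => decide (A < 2 ^ (6 + n))) &&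
      (L.isPerm (R.map (pmk (fun a => pl.getD a 0) (6 + n))))))

/-- the permutation with the given number. -/
def prm (n k : ℕ) : List ℕ := if n = 0 then prmL0.getD k [] else prmL1.getD k []

/-- lookup, one block. -/
def lkA (n A : ℕ) : List ℕ × List ℕ :=
  match ((if n = 0 then tabA0 else tabA1).find? (fun t => t.1 == A)) with
  | some t => (prm n t.2.1, [t.2.2])
  | none => ([], [])

/-- lookup, two blocks. -/
def lkB (row : List (ℕ × ℕ × ℕ × ℕ)) (n A : ℕ) : List ℕ × List ℕ :=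
  match (row.find? (fun t => t.1 == A)) with
  | some t => (prm n t.2.1, [t.2.2.1, t.2.2.2])
  | none => ([], [])

/-- lookup, rows. -/
def rowB (n A : ℕ) : List (ℕ × ℕ × ℕ × ℕ) :=
  match ((if n = 0 then tabB0 else tabB1).find? (fun t => t.1 == A)) with
  | some t => t.2
  | none => []

theorem chk_prm : (prmL0.all (okp 6) && prmL1.all (okp 7)) = true := by
  decide +kernel

theorem chk_one0 : ((mskL 6).all (fun A => chkI 0 [A] (lkA 0 A).1 (lkA 0 A).2)) = true := by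
  decide +kernel

theorem chk_one1 : ((mskL 7).all (fun A => chkI 1 [A] (lkA 1 A).1 (lkA 1 A).2)) = true := by
  decide +kernel

theorem chk_two0 : ((mskL 6).all (fun A => let row := rowB 0 A; (mskL 6).all (fun A' =>
    decide (A' < A) || chkI 0 [A, A'] (lkB row 0 A').1 (lkB row 0 A').2))) = true := by
  decide +kernel

theorem chk_two1 : ((mskL 7).all (fun A => let row := rowB 1 A; (mskL 7).all (fun A' =>
    decide (A' < A) || chkI 1 [A, A'] (lkB row 1 A').1 (lkB row 1 A').2))) = true := by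
  decide +kernel


theorem chk_nil : (chkI 0 [] [0, 1, 2, 3, 4, 5] [] && chkI 1 [] [0, 1, 2, 3, 4, 5, 6] [] &&
    chkI 2 [] [0, 1, 2, 3, 4, 5, 6, 7] [] && okp 6 [0, 1, 2, 3, 4, 5] &&
    okp 7 [0, 1, 2, 3, 4, 5, 6] && okp 8 [0, 1, 2, 3, 4, 5, 6, 7]) = true := by
  decide +kernel

theorem okp_prm {n k : ℕ} (hn : n ≤ 1) (h : prm n k ≠ []) : okp (6 + n) (prm n k) = true := by
  have h1 := chk_prm
  rw [Bool.and_eq_true, List.all_eq_true, List.all_eq_true] at h1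
  have key : ∀ (l : List (List ℕ)) (k : ℕ), l.getD k [] ≠ [] → l.getD k [] ∈ l := by
    intro l k hk
    rcases lt_or_ge k l.length with h2 | h2
    · rw [List.getD_eq_getElem _ _ h2]
      exact List.getElem_mem h2
    · rw [List.getD_eq_default _ _ h2] at hk
      exact absurd rfl hk
  interval_cases n
  · exact h1.1 _ (key prmL0 k h)
  · exact h1.2 _ (key prmL1 k h)

variable {V : Type v} [DecidableEq V] {ι : Type u} [Fintype ι] {B : ι → Finset V}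
variable {Q : Finset V} {i j : ι} {n : ℕ} {x : ℕ → V} {D : ℕ → Finset V}

/-! ### the hits -/

/-- the number of hits of a component, with multiplicity. -/
noncomputable def hts (B : ι → Finset V) (x : ℕ → V) (N : ℕ) (W : Finset V) : ℕ :=
  ∑ a ∈ range N, (cxs B W (ptm x N (2 ^ a))).card

theorem sum_filter_len (N : ℕ) (l : List ℕ) :
    ∑ a ∈ range N, (l.filter (fun A => A.testBit a)).length = (l.map (pcn N)).sum := by
  induction l with
  | nil => simp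
  | cons A l ih =>
    rw [List.map_cons, List.sum_cons, ← ih, pcn_eq, card_filter, ← sum_add_distrib]
    refine sum_congr rfl fun a _ => ?_
    rw [List.filter_cons]
    by_cases h : A.testBit a = true
    · rw [if_pos h, if_pos h, List.length_cons]
      omega
    · rw [if_neg h, if_neg h]
      omega

theorem CfK.need (h : CfK B Q n x D i j) {L : List ℕ} (hL : ∀ A ∈ L, A < 2 ^ (6 + n))
    (hc : ∀ A < 2 ^ (6 + n), A ≠ 0 → (ib B Q x (6 + n) A).card = (7 :: 56 :: L).count A) :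
    ∑ a ∈ range (2 + n), hts B x (6 + n) (D a) + 6 + (L.map (pcn (6 + n))).sum = 5 * (6 + n) := by
  have h64 : 64 ≤ 2 ^ (6 + n) := by
    calc 64 = 2 ^ 6 := by norm_num
      _ ≤ 2 ^ (6 + n) := Nat.pow_le_pow_right (by norm_num) (by omega)
  have h1 : ∀ a ∈ range (6 + n), ∑ b ∈ range (2 + n), (cxs B (D b) (ptm x (6 + n) (2 ^ a))).card +
      ((7 :: 56 :: L).filter (fun A => A.testBit a)).length = 5 := by
    intro a ha
    refine h.cf.deg_ins ?_ hc (mem_range.1 ha)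
    intro A hA
    rw [List.mem_cons, List.mem_cons] at hA
    rcases hA with rfl | rfl | hA
    · omega
    · omega
    · exact hL A hA
  have h2 := sum_congr rfl h1
  rw [sum_add_distrib, sum_filter_len, sum_comm, sum_const, card_range, smul_eq_mul] at h2
  rw [List.map_cons, List.map_cons, List.sum_cons, List.sum_cons] at h2
  have h3 : pcn (6 + n) 7 = 3 ∧ pcn (6 + n) 56 = 3 := by
    have := h.n2
    interval_cases n <;> decide
  rw [h3.1, h3.2] at h2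
  unfold hts
  omega

theorem two_e2n_le (n : ℕ) (L : List ℕ) : 2 * e2n n L ≤ L.length := by
  classical
  unfold e2n
  have h12 : ((List.range (6 + n)).filter (fun a => decide (2 ≤ L.count (2 ^ a)))).length =
      ((range (6 + n)).filter (fun a => 2 ≤ L.count (2 ^ a))).card := by
    rw [← List.toFinset_card_of_nodup (List.nodup_range.filter _)]
    congr 1
    ext a
    simp
  rw [h12]
  set F := (range (6 + n)).filter (fun a => 2 ≤ L.count (2 ^ a)) with hF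
  have h1 : 2 * F.card ≤ ∑ a ∈ F, L.count (2 ^ a) := by
    rw [mul_comm, ← smul_eq_mul, ← sum_const]
    exact sum_le_sum fun a ha => (mem_filter.1 ha).2
  have h2 : ∑ a ∈ F, L.count (2 ^ a) = ∑ A ∈ F.image (fun a => 2 ^ a), L.count A := by
    rw [sum_image]
    intro a _ b _ he
    exact Nat.pow_right_injective le_rfl he
  have h3 : ∑ A ∈ F.image (fun a => 2 ^ a), L.count A ≤ ∑ A ∈ L.toFinset, L.count A := by
    refine sum_le_sum_of_ne_zero fun A _ hA => ?_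
    rw [List.mem_toFinset]
    by_contra hcon
    exact hA (List.count_eq_zero.2 hcon)
  have h4 : ∑ A ∈ L.toFinset, L.count A = L.length := List.sum_toFinset_count_eq_length L
  omega

/-! ### sorting -/

theorem exists_sort (r : ℕ) (f : ℕ → ℤ) : ∃ q : ℕ → ℕ, (∀ a < r, q a < r) ∧
    (∀ a < r, ∀ b < r, q a = q b → a = b) ∧ ∀ a b, a ≤ b → b < r → f (q a) ≤ f (q b) := by
  set g : Fin r → ℤ := fun a => f a with hg
  set σ := Tuple.sort g with hσ
  have hm := Tuple.monotone_sort g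
  refine ⟨fun a => if h : a < r then σ ⟨a, h⟩ else a, ?_, ?_, ?_⟩
  · intro a ha
    simp only [dif_pos ha]
    exact (σ ⟨a, ha⟩).2
  · intro a ha b hb he
    simp only [dif_pos ha, dif_pos hb] at he
    have h1 := σ.injective (Fin.ext he)
    exact congrArg Fin.val h1
  · intro a b hab hb
    have ha : a < r := lt_of_le_of_lt hab hb
    simp only [dif_pos ha, dif_pos hb]
    have h1 := hm (show (⟨a, ha⟩ : Fin r) ≤ ⟨b, hb⟩ from hab)
    simpa [hg] using h1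

theorem exists_kv {n S : ℕ} (hn : n ≤ 2) (hS : S + 4 * n ≤ 10) (k : ℕ → ℤ)
    (hk0 : ∀ a < 2 + n, 0 ≤ k a) (hk2 : ∀ a < 2 + n, k a % 2 = 0)
    (hs : ∀ a b, a ≤ b → b < 2 + n → k a ≤ k b) (hsum : ∑ a ∈ range (2 + n), k a ≤ (S : ℤ)) :
    ∃ kv ∈ kvs n S, kv.length = 2 + n ∧ ∀ a < 2 + n, k a ≤ (kv.getD a 0 : ℤ) := by
  interval_cases n
  · have a0 := hk0 0 (by norm_num)
    have a1 := hk2 0 (by norm_num)
    have b1 := hk2 1 (by norm_num)
    have c1 := hs 0 1 (by norm_num) (by norm_num)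
    simp only [sum_range_succ, sum_range_zero] at hsum
    unfold kvs
    simp only [if_true]
    have hc : k 0 = 0 ∨ (k 0 = 2 ∧ 4 ≤ S) ∨ (k 0 = 4 ∧ 8 ≤ S) := by omega
    rcases hc with hc | ⟨hc, h4⟩ | ⟨hc, h8⟩
    · refine ⟨[0, S], by simp, rfl, ?_⟩
      intro a ha
      interval_cases a
      · simp [hc]
      · simp
        omega
    · refine ⟨[2, S - 2], by simp [h4], rfl, ?_⟩
      intro a ha
      interval_cases a
      · simp [hc]
      · simp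
        omega
    · refine ⟨[4, S - 4], by simp [h8], rfl, ?_⟩
      intro a ha
      interval_cases a
      · simp [hc]
      · simp
        omega
  · have a0 := hk0 0 (by norm_num)
    have a1 := hk2 0 (by norm_num)
    have b1 := hk2 1 (by norm_num)
    have b2 := hk2 2 (by norm_num)
    have c1 := hs 0 1 (by norm_num) (by norm_num)
    have c2 := hs 1 2 (by norm_num) (by norm_num)
    simp only [sum_range_succ, sum_range_zero] at hsum
    unfold kvs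
    simp only [one_ne_zero, if_false, if_true]
    have hc : (k 0 = 0 ∧ k 1 = 0) ∨ (k 0 = 0 ∧ k 1 = 2 ∧ 4 ≤ S) ∨
        (k 0 = 2 ∧ k 1 = 2 ∧ 6 ≤ S) := by omega
    rcases hc with ⟨hc, hd⟩ | ⟨hc, hd, h4⟩ | ⟨hc, hd, h8⟩
    · refine ⟨[0, 0, S], by simp, rfl, ?_⟩
      intro a ha
      interval_cases a
      · simp [hc]
      · simp [hd]
      · simp
        omega
    · refine ⟨[0, 2, S - 2], by simp [h4], rfl, ?_⟩
      intro a ha
      interval_cases a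
      · simp [hc]
      · simp [hd]
      · simp
        omega
    · refine ⟨[2, 2, S - 4], by simp [h8], rfl, ?_⟩
      intro a ha
      interval_cases a
      · simp [hc]
      · simp [hd]
      · simp
        omega
  · have a0 := hk0 0 (by norm_num)
    have a1 := hk2 0 (by norm_num)
    have b1 := hk2 1 (by norm_num)
    have b2 := hk2 2 (by norm_num)
    have c1 := hs 0 1 (by norm_num) (by norm_num)
    have c2 := hs 1 2 (by norm_num) (by norm_num)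
    have c3 := hs 2 3 (by norm_num) (by norm_num)
    simp only [sum_range_succ, sum_range_zero, Nat.reduceAdd] at hsum
    unfold kvs
    simp only [OfNat.ofNat_ne_zero, OfNat.ofNat_ne_one, if_false]
    refine ⟨[0, 0, 0, S], by simp, rfl, ?_⟩
    intro a ha
    interval_cases a
    · simp
      omega
    · simp
      omega
    · simp
      omega
    · simp
      omega

theorem sl_mono {a b : ℕ} (h : a ≤ b) : sl a ≤ sl b := by
  unfold sl
  split_ifs <;> omega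

theorem sum_sl (kv : List ℕ) : (kv.map sl).sum = ∑ a ∈ range kv.length, sl (kv.getD a 0) := by
  rw [← Fin.sum_univ_fun_getElem, Finset.sum_range]
  refine sum_congr rfl fun a _ => ?_
  congr 1
  exact (List.getD_eq_getElem _ _ a.2).symm

/-! ### the reduction -/

theorem CfK.fin (h : CfK B Q n x D i j)
    (hsrt : ∀ a b, a ≤ b → b < 2 + n → kpv B Q (D a) ≤ kpv B Q (D b))
    (hsl : ∀ a < 2 + n, hts B x (6 + n) (D a) ≤ sl (kpv B Q (D a)).toNat)
    {L : List ℕ} (hL : ∀ A ∈ L, A < 2 ^ (6 + n))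
    (hc : ∀ A < 2 ^ (6 + n), A ≠ 0 → (ib B Q x (6 + n) A).card = (7 :: 56 :: L).count A)
    (hsum : ∑ a ∈ range (2 + n), kpv B Q (D a) + 4 * (L.length : ℤ) + 4 * (n : ℤ) ≤
      10 + 2 * (e2n n L : ℤ)) {pl R : List ℕ} (hp : pl ≠ [] → okp (6 + n) pl = true)
    (hchk : chkI n L pl R = true) :
    ∃ t ∈ insts, ∃ x' i' j', CfI B Q t.1 x' D i' j' t.2.1 t.2.2 := by
  have hnn : 0 ≤ ∑ a ∈ range (2 + n), kpv B Q (D a) :=
    sum_nonneg fun a ha => h.knn a (mem_range.1 ha)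
  have h2e := two_e2n_le n L
  unfold chkI at hchk
  rw [Bool.or_eq_true, decide_eq_true_eq] at hchk
  rcases hchk with hchk | hchk
  · exfalso
    omega
  rw [List.all_eq_true] at hchk
  obtain ⟨kv, hkv, hlen, hle⟩ := exists_kv (S := 10 + 2 * e2n n L - 4 * L.length - 4 * n) h.n2
    (by omega) (fun a => kpv B Q (D a)) h.knn h.kev hsrt (by omega)
  have h1 := hchk kv hkv
  rw [Bool.or_eq_true, decide_eq_true_eq] at h1
  rcases h1 with h1 | h1
  · exfalso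
    have h2 := h.need hL hc
    have h3 : ∑ a ∈ range (2 + n), hts B x (6 + n) (D a) ≤ (kv.map sl).sum := by
      rw [sum_sl, hlen]
      refine sum_le_sum fun a ha => (hsl a (mem_range.1 ha)).trans (sl_mono ?_)
      have h4 := hle a (mem_range.1 ha)
      omega
    omega
  · rw [Bool.and_eq_true, Bool.and_eq_true, Bool.and_eq_true] at h1
    obtain ⟨⟨⟨h2, h3⟩, h4⟩, h5⟩ := h1
    have h6 : (n, kv, R) ∈ insts := by
      rw [← List.contains_iff_mem]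
      exact h2
    have hpl : pl ≠ [] := by
      rintro rfl
      simp at h3
    have hK : CfI B Q n x D i j kv L := ⟨h, hc, hle⟩
    refine ⟨_, h6, ?_⟩
    refine hK.permX (pl := pl) (R := R) ?_
    unfold okl
    rw [hp hpl, h4, h5]
    rfl

/-- **reduction to the instances.** -/
theorem CfK.reduce (h : CfK B Q n x D i j)
    (hsl : ∀ a < 2 + n, hts B x (6 + n) (D a) ≤ sl (kpv B Q (D a)).toNat) :
    ∃ t ∈ insts, ∃ x' D' i' j', (∀ a < 2 + n, ∃ b < 2 + n, D' a = D b) ∧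
      CfI B Q t.1 x' D' i' j' t.2.1 t.2.2 := by
  obtain ⟨q, hq1, hq2, hq3⟩ := exists_sort (2 + n) (fun a => kpv B Q (D a))
  have hK := h.permC hq1 hq2
  have hslq : ∀ a < 2 + n, hts B x (6 + n) (D (q a)) ≤ sl (kpv B Q (D (q a))).toNat :=
    fun a ha => hsl _ (hq1 a ha)
  obtain ⟨L, hLs, hLm, hc, hsum⟩ := hK.exists_ins
  have hLlt : ∀ A ∈ L, A < 2 ^ (6 + n) := fun A hA => (hLm A hA).1
  have h2e := two_e2n_le n L
  have hnn : 0 ≤ ∑ a ∈ range (2 + n), kpv B Q (D (q a)) :=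
    sum_nonneg fun a ha => hK.knn a (mem_range.1 ha)
  have hmem : ∀ A ∈ L, A ∈ mskL (6 + n) := by
    intro A hA
    obtain ⟨k1, k2, k3⟩ := hLm A hA
    unfold mskL
    rw [List.mem_filter, List.mem_range]
    exact ⟨k1, by simp [k2, k3]⟩
  have hD : ∀ a < 2 + n, ∃ b < 2 + n, D (q a) = D b := fun a ha => ⟨q a, hq1 a ha, rfl⟩
  have fin : ∀ {pl R : List ℕ}, (pl ≠ [] → okp (6 + n) pl = true) → chkI n L pl R = true →
      ∃ t ∈ insts, ∃ x' D' i' j', (∀ a < 2 + n, ∃ b < 2 + n, D' a = D b) ∧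
        CfI B Q t.1 x' D' i' j' t.2.1 t.2.2 := by
    intro pl R hp hchk
    obtain ⟨t, ht, x', i', j', hI⟩ := hK.fin hq3 hslq hLlt hc hsum hp hchk
    exact ⟨t, ht, x', _, i', j', hD, hI⟩
  have hn2 := h.n2
  have hA : ∀ A, n ≤ 1 → (lkA n A).1 ≠ [] → okp (6 + n) (lkA n A).1 = true := by
    intro A hn hne
    unfold lkA at hne ⊢
    split at hne
    · exact okp_prm hn hne
    · exact absurd rfl hne
  have hB : ∀ row A, n ≤ 1 → (lkB row n A).1 ≠ [] → okp (6 + n) (lkB row n A).1 = true := by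
    intro row A hn hne
    unfold lkB at hne ⊢
    split at hne
    · exact okp_prm hn hne
    · exact absurd rfl hne
  rcases L with _ | ⟨A, _ | ⟨A', _ | ⟨A'', L⟩⟩⟩
  · have h0 := chk_nil
    simp only [Bool.and_eq_true] at h0
    obtain ⟨⟨⟨⟨⟨c0, c1⟩, c2⟩, c3⟩, c4⟩, c5⟩ := h0
    interval_cases n
    · exact fin (fun _ => c3) c0
    · exact fin (fun _ => c4) c1
    · exact fin (fun _ => c5) c2
  · have hn1 : n ≤ 1 := by
      simp only [List.length_cons, List.length_nil] at h2e hsum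
      omega
    have hm := hmem A (by simp)
    refine fin (pl := (lkA n A).1) (R := (lkA n A).2) (hA A hn1) ?_
    interval_cases n
    · exact List.all_eq_true.1 chk_one0 A hm
    · exact List.all_eq_true.1 chk_one1 A hm
  · have hn1 : n ≤ 1 := by
      simp only [List.length_cons, List.length_nil] at h2e hsum
      omega
    have hm := hmem A (by simp)
    have hm' := hmem A' (by simp)
    have hAA : A ≤ A' := by
      rw [List.pairwise_cons] at hLs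
      exact hLs.1 A' (by simp)
    refine fin (pl := (lkB (rowB n A) n A').1) (R := (lkB (rowB n A) n A').2)
      (hB _ A' hn1) ?_
    interval_cases n
    · have h1 := List.all_eq_true.1 (List.all_eq_true.1 chk_two0 A hm) A' hm'
      rw [Bool.or_eq_true, decide_eq_true_eq] at h1
      rcases h1 with h1 | h1
      · omega
      · exact h1
    · have h1 := List.all_eq_true.1 (List.all_eq_true.1 chk_two1 A hm) A' hm'
      rw [Bool.or_eq_true, decide_eq_true_eq] at h1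
      rcases h1 with h1 | h1
      · omega
      · exact h1
  · exfalso
    have hlen : (A :: A' :: A'' :: L).length = 3 + L.length := by
      simp only [List.length_cons]
      omega
    rw [hlen] at h2e hsum
    have hL0 : L.length = 0 := by omega
    have hn0 : n = 0 := by omega
    subst hn0
    rw [List.length_eq_zero_iff] at hL0
    subst hL0
    have he : e2n 0 [A, A', A''] = 1 := by
      simp only [List.length_nil] at h2e hsum
      omega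
    rw [he] at hsum
    simp only [List.length_nil] at hsum
    have h1 := hK.need hLlt hc
    simp only [List.map_cons, List.map_nil, List.sum_cons, List.sum_nil] at h1
    have hk0 := hK.knn 0 (by norm_num)
    have hk1 := hK.knn 1 (by norm_num)
    have hs0 := hslq 0 (by norm_num)
    have hs1 := hslq 1 (by norm_num)
    simp only [sum_range_succ, sum_range_zero, zero_add, Nat.add_zero] at h1 hsum
    have e0 : kpv B Q (D (q 0)) = 0 := by omega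
    have e1 : kpv B Q (D (q 1)) = 0 := by omega
    rw [e0] at hs0
    rw [e1] at hs1
    have hsl0 : sl ((0 : ℤ).toNat) = 9 := rfl
    rw [hsl0] at hs0 hs1
    -- two equal single blocks
    obtain ⟨a, ha, h2⟩ : ∃ a < 6, 2 ≤ [A, A', A''].count (2 ^ a) := by
      unfold e2n at he
      have h3 : 0 < ((List.range (6 + 0)).filter (fun a =>
          decide (2 ≤ [A, A', A''].count (2 ^ a)))).length := by omega
      obtain ⟨a, ha⟩ := List.exists_mem_of_length_pos h3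
      rw [List.mem_filter, List.mem_range, decide_eq_true_eq] at ha
      exact ⟨a, ha.1, ha.2⟩
    have hp1 : pcn 6 (2 ^ a) = 1 := by
      interval_cases a <;> decide
    have p0 := (hLm A (by simp)).2.2
    have p1 := (hLm A' (by simp)).2.2
    have p2 := (hLm A'' (by simp)).2.2
    simp only [Nat.add_zero] at p0 p1 p2 h1 hs0 hs1
    simp only [List.count_cons, List.count_nil, beq_iff_eq] at h2
    have hh : pcn 6 A + pcn 6 A' + pcn 6 A'' ≤ 5 := by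
      by_cases q0 : A = 2 ^ a
      · by_cases q1 : A' = 2 ^ a
        · rw [q0, q1, hp1]
          omega
        · by_cases q2 : A'' = 2 ^ a
          · rw [q0, q2, hp1]
            omega
          · rw [if_pos q0, if_neg q1, if_neg q2] at h2
            omega
      · by_cases q1 : A' = 2 ^ a
        · by_cases q2 : A'' = 2 ^ a
          · rw [q1, q2, hp1]
            omega
          · rw [if_neg q0, if_pos q1, if_neg q2] at h2
            omega
        · rw [if_neg q0, if_neg q1] at h2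
          split_ifs at h2 <;> omega
    omega

end Pool.Agent.Hyp6
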