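import Pool.Agent.Hyp6.CfgR
import Pool.Agent.Hyp6.CfS
import Pool.Agent.Hyp6.Cb3

/-!
# HYP6 CFGT: the instances with bounds for the hits and for the shared blocks

`dat`: number `n`, upper bounds of the values, masks of the further inner blocks, bounds for the numbers
of hits, bounds for the numbers of shared blocks of the components. Every configuration without three
pairwise disjoint full blocks is, after permutations, one of these instances.
-/

set_option autoImplicit false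

namespace Pool.Agent.Hyp6

open Finset Pool.Agent.Hyp5

universe u v

/-- the instances with bounds for hits and shared blocks. -/
def dat : List (ℕ × List ℕ × List ℕ × List ℕ × List ℕ) :=
  [(0, [0, 10], [], [9, 17], [1, 5]),
   (0, [2, 8], [], [10, 15], [5, 5]),
   (0, [4, 6], [], [12, 14], [5, 3]),
   (0, [0, 6], [1], [9, 14], [1, 1]),
   (0, [0, 6], [3], [9, 14], [1, 1]),
   (0, [2, 4], [3], [10, 12], [5, 3]),
   (0, [0, 6], [7], [9, 14], [1, 3]),
   (0, [2, 4], [7], [10, 12], [5, 3]),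
   (0, [0, 6], [9], [9, 14], [1, 1]),
   (0, [2, 4], [9], [10, 12], [5, 3]),
   (0, [0, 6], [11], [9, 14], [1, 3]),
   (0, [2, 4], [11], [10, 12], [5, 3]),
   (0, [0, 2], [3, 7], [9, 10], [1, 5]),
   (0, [0, 2], [3, 11], [9, 10], [1, 5]),
   (0, [0, 2], [3, 13], [9, 10], [1, 5]),
   (0, [0, 2], [3, 25], [9, 10], [1, 5]),
   (0, [0, 2], [3, 28], [9, 10], [1, 5]),
   (0, [0, 2], [3, 56], [9, 10], [1, 5]),
   (0, [0, 2], [7, 7], [9, 10], [1, 5]),
   (0, [0, 2], [7, 9], [9, 10], [1, 5]),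
   (0, [0, 2], [7, 11], [9, 10], [1, 5]),
   (0, [0, 2], [7, 25], [9, 10], [1, 5]),
   (0, [0, 2], [7, 56], [9, 10], [1, 5]),
   (0, [0, 2], [9, 11], [9, 10], [1, 5]),
   (0, [0, 2], [9, 14], [9, 10], [1, 5]),
   (0, [0, 2], [9, 19], [9, 10], [1, 5]),
   (0, [0, 2], [9, 22], [9, 10], [1, 5]),
   (0, [0, 2], [11, 11], [9, 10], [1, 5]),
   (0, [0, 2], [11, 13], [9, 10], [1, 5]),
   (0, [0, 2], [11, 19], [9, 10], [1, 5]),
   (0, [0, 2], [11, 21], [9, 10], [1, 5]),
   (0, [0, 2], [11, 25], [9, 10], [1, 5]),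
   (0, [0, 2], [11, 28], [9, 10], [1, 5]),
   (0, [0, 2], [11, 52], [9, 10], [1, 5]),
   (1, [0, 0, 6], [], [9, 9, 14], [3, 3, 3]),
   (1, [0, 2, 4], [], [9, 10, 12], [1, 5, 5]),
   (1, [2, 2, 2], [], [10, 10, 10], [5, 5, 5]),
   (1, [0, 0, 2], [1], [9, 9, 10], [1, 1, 5]),
   (1, [0, 0, 2], [3], [9, 9, 10], [1, 1, 5]),
   (1, [0, 0, 2], [7], [9, 9, 10], [1, 1, 5]),
   (1, [0, 0, 2], [9], [9, 9, 10], [1, 1, 5]),
   (1, [0, 0, 2], [11], [9, 9, 10], [1, 1, 5]),
   (1, [0, 0, 2], [64], [9, 9, 10], [1, 1, 5]),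
   (1, [0, 0, 2], [65], [9, 9, 10], [1, 1, 5]),
   (1, [0, 0, 2], [67], [9, 9, 10], [1, 1, 5]),
   (1, [0, 0, 2], [73], [9, 9, 10], [1, 1, 5]),
   (1, [0, 0, 0], [1, 1], [9, 9, 9], [1, 1, 1]),
   (1, [0, 0, 0], [64, 64], [9, 9, 9], [1, 1, 1]),
   (2, [0, 0, 0, 2], [], [9, 9, 9, 10], [3, 3, 3, 5])]

/-- all the choices of the options. -/
def ctbs : List ℕ → List (List (ℕ × ℕ))
  | [] => [[]]
  | k :: ks => (ctb k).flatMap (fun p => (ctbs ks).map (fun l => p :: l))

/-- comparison of lists. -/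
def leL : List ℕ → List ℕ → Bool
  | [], _ => true
  | a :: l, m => decide (a ≤ m.getD 0 0) && leL l m.tail

theorem leL_getD {l m : List ℕ} (h : leL l m = true) (a : ℕ) : l.getD a 0 ≤ m.getD a 0 := by
  induction l generalizing m a with
  | nil => simp
  | cons b l ih =>
    unfold leL at h
    rw [Bool.and_eq_true, decide_eq_true_eq] at h
    rcases a with _ | a
    · simpa using h.1
    · have h1 := ih h.2 a
      rcases m with _ | ⟨c, m⟩
      · simpa using h1
      · simpa using h1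

theorem exists_ctbs {P : ℕ → ℕ × ℕ → Prop} : ∀ (kb : List ℕ) (o : ℕ),
    (∀ a < kb.length, ∃ p ∈ ctb (kb.getD a 0), P (o + a) p) →
    ∃ l ∈ ctbs kb, l.length = kb.length ∧ ∀ a < kb.length, P (o + a) (l.getD a (0, 0)) := by
  intro kb
  induction kb with
  | nil =>
    intro o _
    exact ⟨[], by simp [ctbs], rfl, by simp⟩
  | cons k ks ih =>
    intro o h
    obtain ⟨p, hp, hP⟩ := h 0 (by simp)
    obtain ⟨l, hl, hlen, hall⟩ := ih (o + 1) (by
      intro a ha
      obtain ⟨p, hp, hP⟩ := h (a + 1) (by simpa using ha)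
      refine ⟨p, by simpa using hp, ?_⟩
      have : o + 1 + a = o + (a + 1) := by omega
      rw [this]
      exact hP)
    refine ⟨p :: l, ?_, by simp [hlen], ?_⟩
    · unfold ctbs
      rw [List.mem_flatMap]
      exact ⟨p, by simpa using hp, List.mem_map.2 ⟨l, hl, rfl⟩⟩
    · intro a ha
      rcases a with _ | a
      · simpa using hP
      · have h1 := hall a (by simpa using ha)
        have h2 : o + 1 + a = o + (a + 1) := by omega
        rw [h2] at h1
        simpa using h1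

/-- every choice of options of an instance is dominated by an entry of `dat`, or excluded by the
count. -/
def chkD (t : ℕ × List ℕ × List ℕ) : Bool :=
  decide (t.1 ≤ 2) && decide (t.2.1.length = 2 + t.1) &&
  t.2.1.all (fun k => decide (k = 0 ∨ k = 2 ∨ k = 4 ∨ k = 6 ∨ k = 8 ∨ k = 10)) &&
  t.2.2.all (fun A => decide (A < 2 ^ (6 + t.1))) &&
  (ctbs t.2.1).all (fun l =>
    decide ((l.map Prod.fst).sum + 6 + (t.2.2.map (pcn (6 + t.1))).sum < 5 * (6 + t.1)) ||
    dat.any (fun d => decide (d.1 = t.1) && decide (d.2.1 = t.2.1) && decide (d.2.2.1 = t.2.2) &&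
      leL (l.map Prod.fst) d.2.2.2.1 && leL (l.map Prod.snd) d.2.2.2.2))

theorem chk_dat : insts.all chkD = true := by
  decide +kernel

variable {V : Type v} [DecidableEq V] {ι : Type u} [Fintype ι] {B : ι → Finset V}
variable {Q : Finset V} {i j : ι} {n : ℕ} {x : ℕ → V} {D : ℕ → Finset V}

theorem sl_cap {kp : ℕ} (hkp : kp = 0 ∨ kp = 2 ∨ kp = 4 ∨ kp = 6 ∨ kp = 8 ∨ kp = 10)
    {p : ℕ × ℕ} (hp : p ∈ ctb kp) : p.1 ≤ sl kp := by
  rcases hkp with rfl | rfl | rfl | rfl | rfl | rfl <;> simp [ctb] at hp <;>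
    rcases hp with rfl | rfl | rfl <;> decide

/-- the values are even, between `0` and `10`. -/
theorem CfK.kval (h : CfK B Q n x D i j) {a : ℕ} (ha : a < 2 + n) :
    ∃ kp : ℕ, kpv B Q (D a) = (kp : ℤ) ∧
      (kp = 0 ∨ kp = 2 ∨ kp = 4 ∨ kp = 6 ∨ kp = 8 ∨ kp = 10) := by
  obtain ⟨L, _, _, _, hsum⟩ := h.exists_ins
  have h1 := two_e2n_le n L
  have h2 : kpv B Q (D a) ≤ ∑ b ∈ range (2 + n), kpv B Q (D b) :=
    single_le_sum (f := fun b => kpv B Q (D b)) (fun b hb => h.knn b (mem_range.1 hb))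
      (mem_range.2 ha)
  have h3 := h.knn a ha
  have h4 := h.kev a ha
  refine ⟨(kpv B Q (D a)).toNat, by omega, ?_⟩
  omega

theorem CfK.hsl (h : CfK B Q n x D i j) (hK : K2 B Q) {a : ℕ} (ha : a < 2 + n) :
    hts B x (6 + n) (D a) ≤ sl (kpv B Q (D a)).toNat := by
  obtain ⟨kp, hk, hkp⟩ := h.kval ha
  obtain ⟨p, hp, h1, _⟩ := h.cap hK ha (kp := kp) (by omega) hkp
  have h2 : (kpv B Q (D a)).toNat = kp := by omega
  rw [h2]
  exact h1.trans (sl_cap hkp hp)

/-- **every configuration without three disjoint full blocks is one of the instances.** -/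
theorem CfK.exists_dat (h : CfK B Q n x D i j) (hK : K2 B Q) :
    ∃ d ∈ dat, ∃ x' D' i' j', CfI B Q d.1 x' D' i' j' d.2.1 d.2.2.1 ∧
      (∀ A ∈ d.2.2.1, A < 2 ^ (6 + d.1)) ∧
      Nt (6 + d.1) (2 + d.1) d.2.2.2.1 d.2.2.2.2 (ecB B x' (6 + d.1) D') (lcB B x' (6 + d.1) D') := by
  classical
  obtain ⟨t, ht, x', D', i', j', _, hI⟩ := h.reduce (fun a ha => h.hsl hK ha)
  have hc := List.all_eq_true.1 chk_dat t ht
  unfold chkD at hc
  simp only [Bool.and_eq_true, decide_eq_true_eq, List.all_eq_true] at hc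
  obtain ⟨⟨⟨⟨hn, hlen⟩, hkb⟩, hins⟩, hopt⟩ := hc
  obtain ⟨n', ub, ins⟩ := t
  simp only at hn hlen hkb hins hopt hI ht
  obtain ⟨l, hl, hll, hP⟩ := exists_ctbs (P := fun a p => a < 2 + n' →
      hts B x' (6 + n') (D' a) ≤ p.1 ∧
      ∑ A ∈ (range (2 ^ (6 + n'))).filter (fun A => pcn (6 + n') A = 2),
        lcB B x' (6 + n') D' a A ≤ p.2) ub 0 (by
    intro a ha
    rw [hlen] at ha
    have hmem : ub.getD a 0 ∈ ub := by
      rw [List.getD_eq_getElem _ _ (by omega)]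
      exact List.getElem_mem _
    obtain ⟨p, hp, h1, h2⟩ := hI.cap hK ha (kp := ub.getD a 0) (hI.kle a ha) (hkb _ hmem)
    refine ⟨p, hp, fun _ => ?_⟩
    rw [zero_add]
    refine ⟨h1, h2 _ ?_⟩
    intro A hA
    rw [mem_filter, mem_range] at hA
    exact ⟨hA.1, by omega⟩)
  have hP' : ∀ a < 2 + n', hts B x' (6 + n') (D' a) ≤ (l.map Prod.fst).getD a 0 ∧
      ∑ A ∈ (range (2 ^ (6 + n'))).filter (fun A => pcn (6 + n') A = 2),
        lcB B x' (6 + n') D' a A ≤ (l.map Prod.snd).getD a 0 := by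
    intro a ha
    have h1 := hP a (by omega) (by omega)
    rw [zero_add] at h1
    have h2 : (l.map Prod.fst).getD a 0 = (l.getD a (0, 0)).1 := by
      rw [List.getD_map (n := a) (d := (0, 0)) (l := l) (f := Prod.fst)]
    have h3 : (l.map Prod.snd).getD a 0 = (l.getD a (0, 0)).2 := by
      rw [List.getD_map (n := a) (d := (0, 0)) (l := l) (f := Prod.snd)]
    rw [h2, h3]
    exact h1
  have hneed := hI.toCfK.need (L := ins) hins hI.cnt
  have hs : ∑ a ∈ range (2 + n'), hts B x' (6 + n') (D' a) ≤ (l.map Prod.fst).sum := by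
    have h1 : (l.map Prod.fst).sum = ∑ a ∈ range (2 + n'), (l.map Prod.fst).getD a 0 := by
      have h2 : (l.map Prod.fst).length = 2 + n' := by rw [List.length_map]; omega
      rw [← h2, Finset.sum_range]
      conv_lhs => rw [← List.map_id (l.map Prod.fst)]
      rw [← Fin.sum_univ_fun_getElem (l.map Prod.fst) id]
      refine sum_congr rfl fun a _ => ?_
      exact (List.getD_eq_getElem _ _ a.2).symm
    rw [h1]
    exact sum_le_sum fun a ha => (hP' a (mem_range.1 ha)).1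
  have ho := hopt l hl
  rw [Bool.or_eq_true, decide_eq_true_eq] at ho
  rcases ho with ho | ho
  · exfalso
    omega
  · rw [List.any_eq_true] at ho
    obtain ⟨⟨dn, dub, dins, dsl, dsn⟩, hd, hd'⟩ := ho
    simp only [Bool.and_eq_true, decide_eq_true_eq] at hd'
    obtain ⟨⟨⟨⟨e1, e2⟩, e3⟩, h4⟩, h5⟩ := hd'
    subst e1 e2 e3
    refine ⟨_, hd, x', D', i', j', hI, hins, ?_, ?_⟩
    · intro a ha
      exact ((hP' a ha).1).trans (leL_getD h4 a)
    · intro a ha
      exact ((hP' a ha).2).trans (leL_getD h5 a)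

end Pool.Agent.Hyp6
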