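import Pool.Agent.Hyp6.Abs2

/-!
# HYP6: the abstract system of the closing lemma is bad
-/

set_option autoImplicit false

namespace Pool.Agent.Hyp6

open Finset Pool.Agent.Hyp5

universe u v

variable {V : Type v} [DecidableEq V] {ι : Type u} [Fintype ι] {B : ι → Finset V}

omit [Fintype ι] in
/-- a block with at most three points containing two given points outside `M` and a point of `M`. -/
theorem block_eq3 {i : ι} {u p q : V} (hs : (B i).card ≤ 3) (hu : u ∈ B i) (hp : p ∈ B i)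
    (hq : q ∈ B i) (h1 : u ≠ p) (h2 : u ≠ q) (h3 : p ≠ q) : B i = {u, p, q} := by
  have h4 : ({u, p, q} : Finset V) ⊆ B i := by
    intro v hv
    simp only [mem_insert, mem_singleton] at hv
    rcases hv with rfl | rfl | rfl
    · exact hu
    · exact hp
    · exact hq
  have h5 : ({u, p, q} : Finset V).card = 3 := card_eq_three.2 ⟨u, p, q, h1, h2, h3, rfl⟩
  exact (eq_of_subset_of_card_le h4 (by rw [h5]; exact hs)).symm

/-- no block joins the two groups and `M`. -/
theorem no_cross {Q M : Finset V} (hs : Small B) (hfM : FC (gr B) M) (hbQ : Bad B Q) (hMQ : M ⊆ Q)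
    {p q : V} (hp : p ∈ Q \ M) (hq : q ∈ Q \ M) (hpq : p ≠ q)
    (hal : PM (gr B) (Q \ insert p (insert q M))) (i : ι) (hpi : p ∈ B i) (hqi : q ∈ B i) :
    ¬ (B i ∩ M).Nonempty := by
  rintro ⟨u, hu⟩
  rw [mem_inter] at hu
  rw [mem_sdiff] at hp hq
  have hup : u ≠ p := fun h => hp.2 (h ▸ hu.2)
  have huq : u ≠ q := fun h => hq.2 (h ▸ hu.2)
  have hB : B i = {u, p, q} := block_eq3 (hs i) hu.1 hpi hqi hup huq hpq
  have hc : (B i).card = 3 := by
    rw [hB]
    exact card_eq_three.2 ⟨u, p, q, hup, huq, hpq, rfl⟩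
  refine hbQ i ⟨?_, hc⟩ ?_
  · rw [hB]
    intro v hv
    simp only [mem_insert, mem_singleton] at hv
    rcases hv with rfl | rfl | rfl
    · exact hMQ hu.2
    · exact hp.1
    · exact hq.1
  · have h1 : Q \ B i = M.erase u ∪ Q \ insert p (insert q M) := by
      rw [hB]
      ext v
      simp only [mem_sdiff, mem_union, mem_erase, mem_insert, mem_singleton, not_or]
      constructor
      · rintro ⟨h, h1, h2, h3⟩
        by_cases hvM : v ∈ M
        · exact Or.inl ⟨h1, hvM⟩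
        · exact Or.inr ⟨h, h2, h3, hvM⟩
      · rintro (⟨h1, h2⟩ | ⟨h1, h2, h3, h4⟩)
        · exact ⟨hMQ h2, h1, fun h => hp.2 (h ▸ h2), fun h => hq.2 (h ▸ h2)⟩
        · exact ⟨h1, fun h => h4 (h ▸ hu.2), h2, h3⟩
    rw [h1]
    refine PM.union (hfM.2 u hu.2) hal ?_
    rw [disjoint_left]
    intro v hv hv2
    rw [mem_erase] at hv
    simp only [mem_sdiff, mem_insert, not_or] at hv2
    exact hv2.2.2.2 hv.2

/-- gluing: if `M \ Z` is matchable after the pair `w v` is used, with `w` outside. -/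
theorem glue1 {Q M Z : Finset V} (hMQ : M ⊆ Q) {p q w : V} (hp : p ∈ Q \ M) (hq : q ∈ Q \ M)
    (hpq : p ≠ q) (hal : PM (gr B) (Q \ insert p (insert q M))) (hZ : Z ⊆ M) (hw : w ∈ M \ Z)
    (hadj : (gr B).Adj q w) (hpm : PM (gr B) ((M \ Z).erase w)) :
    PM (gr B) (Q \ insert p Z) := by
  rw [mem_sdiff] at hp hq hw
  have hwp : w ≠ p := fun h => hp.2 (h ▸ hw.1)
  have hwq : w ≠ q := fun h => hq.2 (h ▸ hw.1)
  have h1 : Q \ insert p Z = ((M \ Z).erase w ∪ {q, w}) ∪ Q \ insert p (insert q M) := by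
    ext v
    simp only [mem_sdiff, mem_union, mem_erase, mem_insert, mem_singleton, not_or]
    constructor
    · rintro ⟨h, h1, h2⟩
      by_cases hvM : v ∈ M
      · by_cases hvw : v = w
        · exact Or.inl (Or.inr (Or.inr hvw))
        · exact Or.inl (Or.inl ⟨hvw, hvM, h2⟩)
      · by_cases hvq : v = q
        · exact Or.inl (Or.inr (Or.inl hvq))
        · exact Or.inr ⟨h, h1, hvq, hvM⟩
    · rintro ((⟨h1, h2, h3⟩ | (rfl | rfl)) | ⟨h1, h2, h3, h4⟩)
      · exact ⟨hMQ h2, fun h => hp.2 (h ▸ h2), h3⟩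
      · exact ⟨hq.1, fun h => hpq h.symm, fun h => hq.2 (hZ h)⟩
      · exact ⟨hMQ hw.1, hwp, hw.2⟩
      · exact ⟨h1, h2, fun h => h4 (hZ h)⟩
  rw [h1]
  refine PM.union (PM.union hpm (PM.pair hadj) ?_) hal ?_
  · rw [disjoint_left]
    intro v hv hv2
    simp only [mem_sdiff, mem_erase, mem_insert, mem_singleton] at hv hv2
    rcases hv2 with rfl | rfl
    · exact hq.2 hv.2.1
    · exact hv.1 rfl
  · rw [disjoint_left]
    intro v hv hv2
    simp only [mem_sdiff, mem_union, mem_erase, mem_insert, mem_singleton, not_or] at hv hv2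
    rcases hv with hv | rfl | rfl
    · exact hv2.2.2.2 hv.2.1
    · exact hv2.2.2.1 rfl
    · exact hv2.2.2.2 hw.1

/-- gluing with two pairs. -/
theorem glue2 {Q M Z : Finset V} (hMQ : M ⊆ Q) {p q w z : V} (hp : p ∈ Q \ M) (hq : q ∈ Q \ M)
    (hpq : p ≠ q) (hal : PM (gr B) (Q \ insert p (insert q M))) (hZ : Z ⊆ M) (hw : w ∈ M \ Z)
    (hz : z ∈ M \ Z) (hzw : z ≠ w) (hadj : (gr B).Adj q w) (hadj2 : (gr B).Adj p z)
    (hpm : PM (gr B) (((M \ Z).erase z).erase w)) : PM (gr B) (Q \ Z) := by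
  rw [mem_sdiff] at hz hw
  have hp' := hp
  rw [mem_sdiff] at hp'
  have hzp : z ≠ p := fun h => hp'.2 (h ▸ hz.1)
  have hpm2 : PM (gr B) ((M \ insert z Z).erase w) := by
    have : (M \ insert z Z).erase w = ((M \ Z).erase z).erase w := by
      ext v
      simp only [mem_sdiff, mem_erase, mem_insert, not_or]
      tauto
    rw [this]
    exact hpm
  have h2 : insert z Z ⊆ M := by
    intro v hv
    rcases mem_insert.1 hv with rfl | hv
    · exact hz.1
    · exact hZ hv
  have hw2 : w ∈ M \ insert z Z := by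
    rw [mem_sdiff, mem_insert, not_or]
    exact ⟨hw.1, fun h => hzw h.symm, hw.2⟩
  have h3 := glue1 hMQ hp hq hpq hal h2 hw2 hadj hpm2
  have h4 : Q \ Z = Q \ insert p (insert z Z) ∪ {p, z} := by
    ext v
    simp only [mem_sdiff, mem_union, mem_insert, mem_singleton, not_or]
    constructor
    · rintro ⟨h, h1⟩
      by_cases hvp : v = p
      · exact Or.inr (Or.inl hvp)
      · by_cases hvz : v = z
        · exact Or.inr (Or.inr hvz)
        · exact Or.inl ⟨h, hvp, hvz, h1⟩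
    · rintro (⟨h1, h2, h3, h4⟩ | (rfl | rfl))
      · exact ⟨h1, h4⟩
      · exact ⟨hp'.1, fun h => hp'.2 (hZ h)⟩
      · exact ⟨hMQ hz.1, hz.2⟩
  rw [h4]
  refine PM.union h3 (PM.pair hadj2) ?_
  rw [disjoint_left]
  intro v hv hv2
  simp only [mem_sdiff, mem_insert, mem_singleton, not_or] at hv hv2
  rcases hv2 with rfl | rfl
  · exact hv.2.1 rfl
  · exact hv.2.2.1 rfl

end Pool.Agent.Hyp6
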