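import Pool.Agent.Hyp6.Frame5b

/-!
# HYP6 CLQ: intersecting families of five-point sets, counting

`T : ι → Finset V` are sets, `I` a family of pairwise intersecting sets with five points such that no
point is in more than five of them. `dgr T I x`: the degree, `sx T i j = |T i ∩ T j| - 1`,
`ddx T I i = sum of sx T i j` over the other members of `I`.
-/

set_option autoImplicit false

namespace Pool.Agent.Hyp6

open Finset Pool.Agent.Hyp5

section Count

variable {V : Type*} [DecidableEq V] {ι : Type*} [DecidableEq ι]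

/-- the degree of `x` in the family `I`. -/
def dgr (T : ι → Finset V) (I : Finset ι) (x : V) : ℕ := (I.filter (fun i => x ∈ T i)).card

/-- the overlap minus one. -/
def sx (T : ι → Finset V) (i j : ι) : ℕ := (T i ∩ T j).card - 1

/-- the sum of the overlaps minus one. -/
def ddx (T : ι → Finset V) (I : Finset ι) (i : ι) : ℕ := ∑ j ∈ I.erase i, sx T i j

variable {T : ι → Finset V} {I : Finset ι}

omit [DecidableEq ι] in
theorem sx_comm (i j : ι) : sx T i j = sx T j i := by
  unfold sx
  rw [inter_comm]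

omit [DecidableEq ι] in
theorem dgr_eq_sum (I : Finset ι) (x : V) : dgr T I x = ∑ i ∈ I, if x ∈ T i then 1 else 0 := by
  unfold dgr
  rw [card_filter]

omit [DecidableEq ι] in
theorem sum_dgr (I : Finset ι) (X : Finset V) : ∑ x ∈ X, dgr T I x = ∑ i ∈ I, (T i ∩ X).card := by
  simp_rw [dgr_eq_sum]
  rw [sum_comm]
  refine sum_congr rfl fun i _ => ?_
  rw [← card_filter, inter_comm, ← filter_mem_eq_inter]

omit [DecidableEq ι] in
theorem sum_dgr_mul (I J : Finset ι) (X : Finset V) :
    ∑ x ∈ X, dgr T I x * dgr T J x = ∑ i ∈ I, ∑ j ∈ J, (T i ∩ T j ∩ X).card := by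
  have h1 : ∀ x, dgr T I x * dgr T J x =
      ∑ i ∈ I, ∑ j ∈ J, if x ∈ T i ∩ T j then 1 else 0 := by
    intro x
    rw [dgr_eq_sum, dgr_eq_sum, sum_mul_sum]
    refine sum_congr rfl fun i _ => sum_congr rfl fun j _ => ?_
    by_cases h1 : x ∈ T i <;> by_cases h2 : x ∈ T j <;> simp [h1, h2]
  simp_rw [h1]
  rw [sum_comm]
  refine sum_congr rfl fun i _ => ?_
  rw [sum_comm]
  refine sum_congr rfl fun j _ => ?_
  rw [← card_filter]
  congr 1
  ext x
  simp only [mem_filter, mem_inter]
  tauto

/-- a symmetric sum over ordered pairs is even. -/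
theorem even_sum_symm (S : Finset ι) (g : ι → ι → ℕ) (hg : ∀ a b, g a b = g b a) :
    ∃ k, ∑ a ∈ S, ∑ b ∈ S.erase a, g a b = 2 * k := by
  induction S using Finset.induction_on with
  | empty => exact ⟨0, by simp⟩
  | insert c S hc ih =>
    obtain ⟨k, hk⟩ := ih
    refine ⟨k + ∑ b ∈ S, g c b, ?_⟩
    rw [sum_insert hc, erase_insert hc]
    have h1 : ∀ a ∈ S, ∑ b ∈ (insert c S).erase a, g a b = g c a + ∑ b ∈ S.erase a, g a b := by
      intro a ha
      have hne : c ≠ a := fun h => hc (h ▸ ha)
      rw [erase_insert_of_ne hne, sum_insert (fun h => hc (mem_of_mem_erase h)), hg a c]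
    rw [sum_congr rfl h1, sum_add_distrib, hk]
    ring

/-- an intersecting family of sets with five points and degrees at most five. -/
structure Clq (T : ι → Finset V) (I : Finset ι) : Prop where
  five : ∀ i ∈ I, (T i).card = 5
  meet : ∀ i ∈ I, ∀ j ∈ I, (T i ∩ T j).Nonempty
  deg : ∀ x, dgr T I x ≤ 5

omit [DecidableEq ι] in
theorem Clq.ov (h : Clq T I) {i j : ι} (hi : i ∈ I) (hj : j ∈ I) :
    (T i ∩ T j).card = sx T i j + 1 := by
  have h1 := card_pos.2 (h.meet i hi j hj)
  unfold sx
  omega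

/-- the sum of the overlaps of a member with a subfamily containing it. -/
theorem Clq.sum_ov (h : Clq T I) {J : Finset ι} (hJ : J ⊆ I) {i : ι} (hi : i ∈ J) :
    ∑ j ∈ J, (T i ∩ T j).card = ∑ j ∈ J.erase i, sx T i j + J.card + 4 := by
  rw [← sum_erase_add J _ hi, inter_self, h.five i (hJ hi)]
  have h1 : ∑ j ∈ J.erase i, (T i ∩ T j).card = ∑ j ∈ J.erase i, (sx T i j + 1) :=
    sum_congr rfl fun j hj => h.ov (hJ hi) (hJ (mem_of_mem_erase hj))
  rw [h1, sum_add_distrib, sum_const, smul_eq_mul, mul_one]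
  have h2 := card_erase_add_one hi
  omega

/-- the identity at a member of the family. -/
theorem Clq.sum_deg (h : Clq T I) {i : ι} (hi : i ∈ I) :
    ∑ x ∈ T i, dgr T I x = ddx T I i + I.card + 4 := by
  have h1 := h.sum_ov (Subset.refl I) hi
  unfold ddx
  rw [← h1, sum_dgr]
  refine sum_congr rfl fun j _ => ?_
  rw [inter_comm]

/-- `|I| + ddx <= 21`. -/
theorem Clq.le21 (h : Clq T I) {i : ι} (hi : i ∈ I) : ddx T I i + I.card ≤ 21 := by
  have h1 := h.sum_deg hi
  have h2 : ∑ x ∈ T i, dgr T I x ≤ ∑ x ∈ T i, 5 := sum_le_sum fun x _ => h.deg x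
  rw [sum_const, h.five i hi, smul_eq_mul] at h2
  omega

/-- many points of a member are full. -/
theorem Clq.full_ge (h : Clq T I) {i : ι} (hi : i ∈ I) :
    ddx T I i + I.card ≤ 16 + ((T i).filter (fun x => dgr T I x = 5)).card := by
  have h1 := h.sum_deg hi
  have h2 : ∑ x ∈ T i, dgr T I x ≤ ∑ x ∈ T i, (4 + if dgr T I x = 5 then 1 else 0) := by
    refine sum_le_sum fun x _ => ?_
    have := h.deg x
    split_ifs <;> omega
  rw [sum_add_distrib, sum_const, h.five i hi, smul_eq_mul, ← card_filter] at h2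
  omega

/-- the star of `v`. -/
def star (T : ι → Finset V) (I : Finset ι) (v : V) : Finset ι := I.filter (fun i => v ∈ T i)

omit [DecidableEq ι] in
theorem mem_star {v : V} {i : ι} : i ∈ star T I v ↔ i ∈ I ∧ v ∈ T i := by simp [star]

omit [DecidableEq ι] in
theorem star_sub (v : V) : star T I v ⊆ I := filter_subset _ _

omit [DecidableEq ι] in
theorem card_star (v : V) : (star T I v).card = dgr T I v := rfl

/-- the sum of the values `ddx` in the star of `v`. -/
def ssv (T : ι → Finset V) (I : Finset ι) (v : V) : ℕ := ∑ i ∈ star T I v, ddx T I i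

/-- twice the number of overlaps in the star of `v`. -/
def pp2 (T : ι → Finset V) (I : Finset ι) (v : V) : ℕ :=
  ∑ i ∈ star T I v, ∑ j ∈ (star T I v).erase i, sx T i j

theorem pp2_le (v : V) : pp2 T I v ≤ ssv T I v :=
  sum_le_sum fun i _ => sum_le_sum_of_subset (erase_subset_erase i (star_sub v))

/-- the points of the star of `v`. -/
def wst (T : ι → Finset V) (I : Finset ι) (v : V) : Finset V := (star T I v).biUnion T

/-- **the star of a full point**: `q` is the number of overlaps in the star, `o` bounds the number of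
members of the family which are not inside the star. -/
theorem Clq.star_main (h : Clq T I) {v : V} (hv : dgr T I v = 5) :
    ∃ q : ℕ, (wst T I v).card + q = 21 ∧ 2 * q ≤ pp2 T I v ∧
      (I.filter (fun i => ¬ T i ⊆ wst T I v)).card + ssv T I v ≤ 5 * q := by
  set S := star T I v with hS
  set W := wst T I v with hW
  have hSI : S ⊆ I := star_sub v
  have hSc : S.card = 5 := by rw [hS, card_star, hv]
  have hTW : ∀ i ∈ S, T i ⊆ W := fun i hi => subset_biUnion_of_mem T hi
  have hvW : v ∈ W := by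
    have : 0 < S.card := by omega
    obtain ⟨i, hi⟩ := card_pos.1 this
    exact hTW i hi (mem_star.1 hi).2
  -- the universe
  set U := W ∪ I.biUnion T with hU
  have hWU : W ⊆ U := subset_union_left
  have hTU : ∀ i ∈ I, T i ⊆ U := fun i hi =>
    (subset_biUnion_of_mem T hi).trans subset_union_right
  -- degrees in the star
  have hl0 : ∀ x ∈ W, 1 ≤ dgr T S x := by
    intro x hx
    obtain ⟨i, hi, hxi⟩ := mem_biUnion.1 hx
    exact card_pos.2 ⟨i, mem_filter.2 ⟨hi, hxi⟩⟩
  have hl1 : ∀ x, dgr T S x ≤ dgr T I x := fun x =>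
    card_le_card (filter_subset_filter _ hSI)
  have hl2 : dgr T S v = 5 := by
    rw [← hSc]
    unfold dgr
    rw [filter_true_of_mem fun i hi => (mem_star.1 hi).2]
  have hlz : ∀ x ∉ W, dgr T S x = 0 := by
    intro x hx
    unfold dgr
    rw [card_eq_zero, filter_eq_empty_iff]
    intro i hi hxi
    exact hx (hTW i hi hxi)
  -- sums over the star
  have e1 : ∑ x ∈ W, dgr T S x = 25 := by
    rw [sum_dgr, sum_congr rfl fun i hi => by
      rw [inter_eq_left.2 (hTW i hi), h.five i (hSI hi)]]
    rw [sum_const, hSc]; rfl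
  have e2 : ∑ x ∈ W, dgr T S x * dgr T I x = ssv T I v + 5 * (I.card + 4) := by
    rw [sum_dgr_mul]
    have g : ∀ i ∈ S, ∑ j ∈ I, (T i ∩ T j ∩ W).card = ddx T I i + (I.card + 4) := by
      intro i hi
      rw [← add_assoc, ddx, ← h.sum_ov (Subset.refl I) (hSI hi)]
      refine sum_congr rfl fun j _ => ?_
      rw [inter_eq_left.2 (inter_subset_left.trans (hTW i hi))]
    rw [sum_congr rfl g, sum_add_distrib, sum_const, hSc]
    rfl
  have e3 : ∑ x ∈ W, dgr T S x * dgr T S x = pp2 T I v + 45 := by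
    rw [sum_dgr_mul]
    have g : ∀ i ∈ S, ∑ j ∈ S, (T i ∩ T j ∩ W).card =
        ∑ j ∈ S.erase i, sx T i j + 9 := by
      intro i hi
      have := h.sum_ov hSI hi
      rw [hSc] at this
      rw [← this]
      refine sum_congr rfl fun j _ => ?_
      rw [inter_eq_left.2 (inter_subset_left.trans (hTW i hi))]
    rw [sum_congr rfl g, sum_add_distrib, sum_const, hSc]
    rfl
  have e4 : ∑ x ∈ W, dgr T I x + ∑ x ∈ U \ W, dgr T I x = 5 * I.card := by
    rw [add_comm, sum_sdiff hWU, sum_dgr, sum_congr rfl fun i hi => by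
      rw [inter_eq_left.2 (hTU i hi), h.five i hi]]
    rw [sum_const, smul_eq_mul, mul_comm]
  -- the point `v`
  have s1 : ∑ x ∈ W.erase v, dgr T S x + 5 = 25 := by
    rw [← e1, ← sum_erase_add W _ hvW, hl2]
  have s2 : ∑ x ∈ W.erase v, dgr T S x * dgr T I x + 25 = ssv T I v + 5 * (I.card + 4) := by
    rw [← e2, ← sum_erase_add W _ hvW, hl2, hv]
  have s3 : ∑ x ∈ W.erase v, dgr T S x * dgr T S x + 25 = pp2 T I v + 45 := by
    rw [← e3, ← sum_erase_add W _ hvW, hl2]
  have s4 : ∑ x ∈ W.erase v, dgr T I x + 5 + ∑ x ∈ U \ W, dgr T I x = 5 * I.card := by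
    rw [← e4, ← sum_erase_add W _ hvW, hv]
  have s5 := card_erase_add_one hvW
  have hq : (W.erase v).card ≤ ∑ x ∈ W.erase v, dgr T S x := by
    rw [card_eq_sum_ones]
    exact sum_le_sum fun x hx => hl0 x (mem_of_mem_erase hx)
  refine ⟨21 - W.card, by omega, ?_, ?_⟩
  · -- `2 q <= pp2`
    have g : ∑ x ∈ W.erase v, (3 * dgr T S x) ≤
        ∑ x ∈ W.erase v, (dgr T S x * dgr T S x + 2) := by
      refine sum_le_sum fun x hx => ?_
      have h1 := hl0 x (mem_of_mem_erase hx)
      obtain ⟨m, hm⟩ := Nat.exists_eq_add_of_le h1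
      rw [hm]
      have : (1 + m) * (1 + m) = 1 + 2 * m + m * m := by ring
      rw [this]
      have h2 : m ≤ m * m := by
        rcases Nat.eq_zero_or_pos m with h0 | h0
        · simp [h0]
        · exact Nat.le_mul_of_pos_right m h0
      omega
    rw [← mul_sum, sum_add_distrib, sum_const, smul_eq_mul] at g
    omega
  · -- the open members
    have g1 : ∑ x ∈ W.erase v, (dgr T S x * dgr T I x + 5) ≤
        ∑ x ∈ W.erase v, (dgr T I x + 5 * dgr T S x) := by
      refine sum_le_sum fun x hx => ?_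
      have h1 := hl0 x (mem_of_mem_erase hx)
      have h2 := h.deg x
      obtain ⟨m, hm⟩ := Nat.exists_eq_add_of_le h1
      rw [hm]
      have : (1 + m) * dgr T I x = dgr T I x + m * dgr T I x := by ring
      rw [this]
      have h3 : m * dgr T I x ≤ m * 5 := Nat.mul_le_mul_left m h2
      omega
    rw [sum_add_distrib, sum_add_distrib, ← mul_sum, sum_const, smul_eq_mul] at g1
    have g2 : (I.filter (fun i => ¬ T i ⊆ W)).card ≤ ∑ x ∈ U \ W, dgr T I x := by
      rw [sum_dgr, card_filter]
      refine sum_le_sum fun i hi => ?_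
      by_cases g : T i ⊆ W
      · rw [if_neg (not_not.2 g)]
        exact Nat.zero_le _
      · rw [if_pos g]
        obtain ⟨x, hx, hxW⟩ := not_subset.1 g
        exact card_pos.2 ⟨x, mem_inter.2 ⟨hx, mem_sdiff.2 ⟨hTU i hi hx, hxW⟩⟩⟩
    omega

end Count

end Pool.Agent.Hyp6
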