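import Pool.Agent.Hyp6.Clq

/-!
# HYP6 CLQ2: intersecting families of blocks with five points in a minimal counterexample

`clq_main`: an intersecting family of `t >= 16` sets with five points whose stars are not too small has a
member `i` with `t <= 15 + ddx i`, or `t = 16`, the family is linear and all its points have degree four.
`MinC.clique7`, `MinC.clique13`: in the minimal counterexamples of both slopes the first case holds.
-/

set_option autoImplicit false

namespace Pool.Agent.Hyp6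

open Finset Pool.Agent.Hyp5

section Count

variable {V : Type*} [DecidableEq V] {ι : Type*} [DecidableEq ι]

variable {T : ι → Finset V} {I : Finset ι}

/-- the value of an overlap. -/
def cov2 (s : ℕ) : ℕ := if s = 0 then 0 else if s = 1 then 150 else 260

omit [DecidableEq ι] in
theorem sum_star (F : Finset V) (w : ι → ℕ) :
    ∑ v ∈ F, ∑ i ∈ star T I v, w i = ∑ i ∈ I, w i * (T i ∩ F).card := by
  unfold star
  simp_rw [sum_filter]
  rw [sum_comm]
  refine sum_congr rfl fun i _ => ?_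
  rw [← sum_filter, sum_const, smul_eq_mul, mul_comm]
  congr 2
  ext x
  simp only [mem_filter, mem_inter]
  tauto

theorem sum_star2 (F : Finset V) (g : ι → ι → ℕ) :
    ∑ v ∈ F, ∑ i ∈ star T I v, ∑ j ∈ (star T I v).erase i, g i j =
      ∑ i ∈ I, ∑ j ∈ I.erase i, g i j * (T i ∩ T j ∩ F).card := by
  have h1 : ∀ v ∈ F, ∑ i ∈ star T I v, ∑ j ∈ (star T I v).erase i, g i j =
      ∑ i ∈ I, ∑ j ∈ I.erase i, if v ∈ T i ∩ T j then g i j else 0 := by
    intro v _
    unfold star
    rw [sum_filter]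
    refine sum_congr rfl fun i _ => ?_
    by_cases hi : v ∈ T i
    · rw [if_pos hi]
      have h2 : (I.filter (fun i => v ∈ T i)).erase i = (I.erase i).filter (fun i => v ∈ T i) := by
        ext j
        simp only [mem_erase, mem_filter]
        tauto
      rw [h2, sum_filter]
      refine sum_congr rfl fun j _ => ?_
      by_cases hj : v ∈ T j <;> simp [hi, hj]
    · rw [if_neg hi]
      symm
      exact sum_eq_zero fun j _ => by simp [hi]
  rw [sum_congr rfl h1, sum_comm]
  refine sum_congr rfl fun i _ => ?_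
  rw [sum_comm]
  refine sum_congr rfl fun j _ => ?_
  rw [← sum_filter, sum_const, smul_eq_mul, mul_comm]
  congr 2
  ext x
  simp only [mem_filter, mem_inter]
  tauto

/-- the star inequality. -/
theorem star_ineq (hd : ∀ i ∈ I, ddx T I i ≤ 2) {v : V} (hv : dgr T I v = 5)
    (hs : 8 ≤ pp2 T I v ∨ (6 ≤ pp2 T I v ∧ ssv T I v ≤ 8)) :
    ∑ i ∈ star T I v, (20 + 90 * ddx T I i) ≤
      ∑ i ∈ star T I v, ∑ j ∈ (star T I v).erase i, cov2 (sx T i j) := by
  set S := star T I v with hS
  have hSI : S ⊆ I := star_sub v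
  have hSc : S.card = 5 := by rw [hS, card_star, hv]
  have hle : ∀ i ∈ S, ∀ j ∈ S.erase i, sx T i j ≤ 2 := by
    intro i hi j hj
    have h1 : sx T i j ≤ ddx T I i :=
      single_le_sum (f := fun j => sx T i j) (fun _ _ => Nat.zero_le _)
        (mem_erase.2 ⟨(mem_erase.1 hj).1, hSI (mem_erase.1 hj).2⟩)
    exact h1.trans (hd i (hSI hi))
  obtain ⟨k, hk⟩ := even_sum_symm S (fun i j => if sx T i j = 2 then 1 else 0)
    (fun a b => by simp only [sx_comm (T := T) a b])
  have e1 : ∑ i ∈ S, ∑ j ∈ S.erase i, cov2 (sx T i j) +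
      40 * ∑ i ∈ S, ∑ j ∈ S.erase i, (if sx T i j = 2 then 1 else 0) = 150 * pp2 T I v := by
    unfold pp2
    rw [mul_sum, mul_sum, ← sum_add_distrib]
    refine sum_congr rfl fun i hi => ?_
    rw [mul_sum, mul_sum, ← sum_add_distrib]
    refine sum_congr rfl fun j hj => ?_
    have h1 := hle i hi j hj
    unfold cov2
    split_ifs <;> omega
  have e2 : 2 * ∑ i ∈ S, ∑ j ∈ S.erase i, (if sx T i j = 2 then 1 else 0) ≤ pp2 T I v := by
    unfold pp2
    rw [mul_sum]
    refine sum_le_sum fun i hi => ?_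
    rw [mul_sum]
    refine sum_le_sum fun j hj => ?_
    split_ifs <;> omega
  have e3 : ∑ i ∈ S, (20 + 90 * ddx T I i) = 100 + 90 * ssv T I v := by
    rw [sum_add_distrib, sum_const, hSc, ← mul_sum]
    rfl
  have e4 : ssv T I v ≤ 10 := by
    have : ssv T I v ≤ ∑ i ∈ S, 2 := sum_le_sum fun i hi => hd i (hSI hi)
    rw [sum_const, hSc] at this
    exact this
  have e5 := pp2_le (T := T) (I := I) v
  rw [hk] at e1 e2
  rw [e3]
  have hk2 : k ≤ 2 := by omega
  interval_cases k <;> omega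

/-- the count at a member. -/
theorem Clq.member (h : Clq T I) (ht : 18 ≤ I.card) {i : ι} (hi : i ∈ I) (hd : ddx T I i ≤ 2)
    {F : Finset V} (hF : ∀ x ∈ T i, dgr T I x = 5 → x ∈ F) :
    ∑ j ∈ I.erase i, cov2 (sx T i j) * (T i ∩ T j ∩ F).card <
      (20 + 90 * ddx T I i) * (T i ∩ F).card := by
  have hle : ∀ j ∈ I.erase i, sx T i j ≤ ddx T I i := fun j hj =>
    single_le_sum (f := fun j => sx T i j) (fun _ _ => Nat.zero_le _) hj
  have h1 : ddx T I i + 2 ≤ (T i ∩ F).card := by
    have h2 := h.full_ge hi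
    have h3 : ((T i).filter (fun x => dgr T I x = 5)).card ≤ (T i ∩ F).card :=
      card_le_card fun x hx => by
        rw [mem_filter] at hx
        exact mem_inter.2 ⟨hx.1, hF x hx.1 hx.2⟩
    omega
  have h2 : (20 + 90 * ddx T I i) * (ddx T I i + 2) ≤ (20 + 90 * ddx T I i) * (T i ∩ F).card :=
    Nat.mul_le_mul_left _ h1
  refine lt_of_lt_of_le ?_ h2
  have h3 : ∑ j ∈ I.erase i, cov2 (sx T i j) * (T i ∩ T j ∩ F).card ≤
      ∑ j ∈ I.erase i, cov2 (sx T i j) * (sx T i j + 1) := by
    refine sum_le_sum fun j hj => Nat.mul_le_mul_left _ ?_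
    rw [← h.ov hi (mem_of_mem_erase hj)]
    exact card_le_card inter_subset_left
  refine lt_of_le_of_lt h3 ?_
  have h4 : ddx T I i = ∑ j ∈ I.erase i, sx T i j := rfl
  rcases Nat.lt_or_ge (ddx T I i) 2 with hlt | hge
  · have h5 : ∑ j ∈ I.erase i, cov2 (sx T i j) * (sx T i j + 1) ≤
        ∑ j ∈ I.erase i, 300 * sx T i j := by
      refine sum_le_sum fun j hj => ?_
      have h6 := hle j hj
      have h7 : sx T i j = 0 ∨ sx T i j = 1 := by omega
      rcases h7 with h7 | h7 <;> rw [h7] <;> decide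
    rw [← mul_sum, ← h4] at h5
    have h6 : ddx T I i = 0 ∨ ddx T I i = 1 := by omega
    rcases h6 with h6 | h6 <;> rw [h6] at h5 ⊢ <;> omega
  · have hd2 : ddx T I i = 2 := by omega
    have h5 : ∑ j ∈ I.erase i, cov2 (sx T i j) * (sx T i j + 1) ≤
        ∑ j ∈ I.erase i, 390 * sx T i j := by
      refine sum_le_sum fun j hj => ?_
      have h6 := hle j hj
      have h7 : sx T i j = 0 ∨ sx T i j = 1 ∨ sx T i j = 2 := by omega
      rcases h7 with h7 | h7 | h7 <;> rw [h7] <;> decide
    rw [← mul_sum, ← h4, hd2] at h5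
    rw [hd2]
    omega

/-- no family with at least `18` members and small overlaps. -/
theorem Clq.not18 (h : Clq T I) (ht : 18 ≤ I.card) (hd : ∀ i ∈ I, ddx T I i ≤ 2)
    (hs : ∀ v, dgr T I v = 5 → 8 ≤ pp2 T I v ∨ (6 ≤ pp2 T I v ∧ ssv T I v ≤ 8)) : False := by
  set F := (I.biUnion T).filter (fun x => dgr T I x = 5) with hF
  have h1 : ∑ v ∈ F, ∑ i ∈ star T I v, (20 + 90 * ddx T I i) ≤
      ∑ v ∈ F, ∑ i ∈ star T I v, ∑ j ∈ (star T I v).erase i, cov2 (sx T i j) :=
    sum_le_sum fun v hv => star_ineq hd (mem_filter.1 hv).2 (hs v (mem_filter.1 hv).2)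
  rw [sum_star, sum_star2] at h1
  have hne : I.Nonempty := card_pos.1 (by omega)
  have h2 := sum_lt_sum_of_nonempty hne fun i hi => h.member (F := F) ht hi (hd i hi)
    (fun x hx hd5 => mem_filter.2 ⟨mem_biUnion.2 ⟨i, hi, hx⟩, hd5⟩)
  omega

/-- no family with at least `17` members and overlaps at most one. -/
theorem Clq.not17 (h : Clq T I) (ht : 17 ≤ I.card) (hd : ∀ i ∈ I, ddx T I i ≤ 1)
    (hs : ∀ v, dgr T I v = 5 → 6 ≤ pp2 T I v) : False := by
  obtain ⟨i, hi⟩ := card_pos.1 (show 0 < I.card by omega)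
  have h1 := h.full_ge hi
  obtain ⟨v, hv⟩ := card_pos.1 (show 0 < ((T i).filter (fun x => dgr T I x = 5)).card by omega)
  rw [mem_filter] at hv
  have h2 := hs v hv.2
  have h3 := pp2_le (T := T) (I := I) v
  have h4 : ssv T I v ≤ ∑ i ∈ star T I v, 1 := sum_le_sum fun i hi => hd i (star_sub v hi)
  rw [← card_eq_sum_ones, card_star, hv.2] at h4
  omega

/-- a linear family with `16` members. -/
theorem Clq.type16 (h : Clq T I) (ht : I.card = 16) (hd : ∀ i ∈ I, ddx T I i = 0)
    (hs : ∀ v, dgr T I v = 5 → 2 ≤ pp2 T I v) : ∀ x ∈ I.biUnion T, dgr T I x = 4 := by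
  have hno : ∀ v, dgr T I v ≤ 4 := by
    intro v
    have h1 := h.deg v
    by_contra hcon
    have h2 : dgr T I v = 5 := by omega
    have h3 := hs v h2
    have h4 := pp2_le (T := T) (I := I) v
    have h5 : ssv T I v = 0 := sum_eq_zero fun i hi => hd i (star_sub v hi)
    omega
  intro x hx
  obtain ⟨i, hi, hxi⟩ := mem_biUnion.1 hx
  have h1 := h.sum_deg hi
  rw [hd i hi, ht, ← sum_erase_add _ _ hxi] at h1
  have h2 : ∑ y ∈ (T i).erase x, dgr T I y ≤ ∑ y ∈ (T i).erase x, 4 := sum_le_sum fun y _ => hno y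
  rw [sum_const, smul_eq_mul] at h2
  have h3 := card_erase_add_one hxi
  rw [h.five i hi] at h3
  have h4 := hno x
  omega

/-- the classification of the large intersecting families. -/
theorem clq_main (h : Clq T I) (ht : 16 ≤ I.card)
    (hs : ∀ v, dgr T I v = 5 → 2 ≤ pp2 T I v ∧ (17 ≤ I.card → 6 ≤ pp2 T I v) ∧
      (18 ≤ I.card → 8 ≤ pp2 T I v ∨ (6 ≤ pp2 T I v ∧ ssv T I v ≤ 8))) :
    (∃ i ∈ I, I.card ≤ 15 + ddx T I i) ∨
      (I.card = 16 ∧ (∀ i ∈ I, ddx T I i = 0) ∧ ∀ x ∈ I.biUnion T, dgr T I x = 4) := by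
  by_cases hex : ∃ i ∈ I, I.card ≤ 15 + ddx T I i
  · exact Or.inl hex
  right
  push Not at hex
  have h16 : I.card = 16 := by
    by_contra hne
    rcases Nat.lt_or_ge I.card 18 with h1 | h1
    · refine h.not17 (by omega) (fun i hi => ?_) (fun v hv => (hs v hv).2.1 (by omega))
      have := hex i hi
      omega
    · refine h.not18 h1 (fun i hi => ?_) (fun v hv => (hs v hv).2.2 h1)
      have g1 := hex i hi
      have g2 := h.le21 hi
      omega
  have hd : ∀ i ∈ I, ddx T I i = 0 := fun i hi => by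
    have := hex i hi
    omega
  exact ⟨h16, hd, h.type16 h16 hd fun v hv => (hs v hv).1⟩

end Count

section Min

variable {V : Type*} [DecidableEq V] {ι : Type*} [Fintype ι] [DecidableEq ι] {B : ι → Finset V}
  {U : Finset V} {a b N : ℕ}

/-- the traces. -/
def trc (B : ι → Finset V) (U : Finset V) : ι → Finset V := fun i => B i ∩ U

/-- the star of a full point in a minimal counterexample. -/
theorem MinC.star_irr (h : MinC a b N B U) {I : Finset ι} (hc : Clq (trc B U) I) {v : V}
    (hv : dgr (trc B U) I v = 5) :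
    ∃ q o : ℕ, o ≤ I.card ∧ q ≤ 21 ∧ 2 * q ≤ pp2 (trc B U) I v ∧
      o + ssv (trc B U) I v ≤ 5 * q ∧ a * (I.card - o) + b * (21 - q) + 1 ≤ N * 5 := by
  obtain ⟨q, h1, h2, h3⟩ := hc.star_main hv
  set S := star (trc B U) I v with hS
  have hSc : S.card = 5 := by rw [hS, card_star, hv]
  have hWU : wst (trc B U) I v ⊆ U := by
    intro x hx
    obtain ⟨i, _, hi⟩ := mem_biUnion.1 hx
    exact (mem_inter.1 hi).2
  have hne : (wst (trc B U) I v).Nonempty := by
    obtain ⟨i, hi⟩ := card_pos.1 (show 0 < S.card by omega)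
    exact ⟨v, mem_biUnion.2 ⟨i, hi, (mem_star.1 hi).2⟩⟩
  have hcov : wst (trc B U) I v ⊆ S.biUnion B := by
    intro x hx
    obtain ⟨i, hi, hxi⟩ := mem_biUnion.1 hx
    exact mem_biUnion.2 ⟨i, hi, (mem_inter.1 hxi).1⟩
  have h4 := h.irr_of hWU hne hcov
  rw [hSc] at h4
  set o := (I.filter (fun i => ¬ trc B U i ⊆ wst (trc B U) I v)).card with ho
  have h5 : o ≤ I.card := card_filter_le _ _
  have h6 : I.card - o ≤ (ins B U (wst (trc B U) I v)).card := by
    have g1 := card_filter_add_card_filter_not (s := I)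
      (fun i => trc B U i ⊆ wst (trc B U) I v)
    have g2 : (I.filter (fun i => trc B U i ⊆ wst (trc B U) I v)).card ≤
        (ins B U (wst (trc B U) I v)).card := by
      refine card_le_card fun i hi => ?_
      rw [mem_filter] at hi
      refine mem_ins.2 ⟨card_pos.1 ?_, hi.2⟩
      have := hc.five i hi.1
      unfold trc at this
      omega
    omega
  have h7 : a * (I.card - o) ≤ a * (ins B U (wst (trc B U) I v)).card := Nat.mul_le_mul_left _ h6
  have h8 : 21 - q = (wst (trc B U) I v).card := by omega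
  exact ⟨q, o, h5, by omega, h2, h3, by rw [h8]; omega⟩

/-- the family of type P: four members through a point and the fifth blocks of the three points they
miss. -/
theorem MinC.typeP (h : MinC a b N B U) {I : Finset ι} (hc : Clq (trc B U) I) (ht : I.card = 16)
    (hd : ∀ i ∈ I, ddx (trc B U) I i = 0) (h4 : ∀ x ∈ I.biUnion (trc B U), dgr (trc B U) I x = 4) :
    ∃ r, r ≤ 3 ∧ a * (16 + r) + b * 20 + 1 ≤ N * (4 + r) := by
  set T := trc B U with hT
  set X := I.biUnion T with hX
  have hXU : X ⊆ U := by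
    intro x hx
    obtain ⟨i, _, hi⟩ := mem_biUnion.1 hx
    exact (mem_inter.1 hi).2
  have hTX : ∀ i ∈ I, T i ⊆ X := fun i hi => subset_biUnion_of_mem T hi
  -- twenty points
  have hX20 : X.card = 20 := by
    have e1 := sum_dgr (T := T) I X
    have e2 : ∑ i ∈ I, (T i ∩ X).card = ∑ i ∈ I, 5 := sum_congr rfl fun i hi => by
      rw [inter_eq_left.2 (hTX i hi), hc.five i hi]
    rw [sum_congr rfl h4, e2, sum_const, sum_const, ht, smul_eq_mul, smul_eq_mul] at e1
    omega
  obtain ⟨x, hx⟩ := card_pos.1 (show 0 < X.card by omega)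
  set S := star T I x with hS
  have hSI : S ⊆ I := star_sub x
  have hSc : S.card = 4 := by rw [hS, card_star, h4 x hx]
  set W := wst T I x with hW
  have hTW : ∀ i ∈ S, T i ⊆ W := fun i hi => subset_biUnion_of_mem T hi
  have hWX : W ⊆ X := biUnion_subset_biUnion_of_subset_left T hSI
  have hxW : x ∈ W := by
    obtain ⟨i, hi⟩ := card_pos.1 (show 0 < S.card by omega)
    exact hTW i hi (mem_star.1 hi).2
  have hW17 : 17 ≤ W.card := by
    have e1 : ∑ w ∈ W, dgr T S w = 20 := by
      rw [sum_dgr, sum_congr rfl fun i hi => by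
        rw [inter_eq_left.2 (hTW i hi), hc.five i (hSI hi)]]
      rw [sum_const, hSc]; rfl
    have e2 : dgr T S x = 4 := by
      rw [← hSc]
      unfold dgr
      rw [filter_true_of_mem fun i hi => (mem_star.1 hi).2]
    have e3 : ∀ w ∈ W.erase x, dgr T S w ≤ 1 := by
      intro w hw
      by_contra hcon
      push Not at hcon
      obtain ⟨i, hi, j, hj, hij⟩ := one_lt_card.1 hcon
      rw [mem_filter] at hi hj
      have g1 : sx T i j = 0 := by
        have g2 := hd i (hSI hi.1)
        unfold ddx at g2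
        rw [sum_eq_zero_iff] at g2
        exact g2 j (mem_erase.2 ⟨fun h => hij h.symm, hSI hj.1⟩)
      have g3 := hc.ov (hSI hi.1) (hSI hj.1)
      rw [g1] at g3
      have g4 : ({x, w} : Finset V) ⊆ T i ∩ T j := by
        intro z hz
        rw [mem_insert, mem_singleton] at hz
        rcases hz with rfl | rfl
        · exact mem_inter.2 ⟨(mem_star.1 hi.1).2, (mem_star.1 hj.1).2⟩
        · exact mem_inter.2 ⟨hi.2, hj.2⟩
      have g5 := card_le_card g4
      rw [card_pair (fun h => (mem_erase.1 hw).1 h.symm)] at g5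
      omega
    have e4 : ∑ w ∈ W.erase x, dgr T S w ≤ ∑ w ∈ W.erase x, 1 := sum_le_sum e3
    rw [← card_eq_sum_ones] at e4
    rw [← sum_erase_add W _ hxW, e2] at e1
    have e5 := card_erase_add_one hxW
    omega
  -- the points outside the star and their fifth blocks
  set Y := X \ W with hY
  have hYc : Y.card ≤ 3 := by
    have := card_sdiff_add_card_eq_card hWX
    rw [← hY] at this
    omega
  have hfif : ∀ y, ∃ i, y ∈ Y → i ∉ I ∧ y ∈ B i := by
    intro y
    by_cases hy : y ∈ Y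
    swap
    · obtain ⟨i, _⟩ := card_pos.1 (show 0 < I.card by omega)
      exact ⟨i, fun h => absurd h hy⟩
    suffices hs : ∃ i, i ∉ I ∧ y ∈ B i by
      obtain ⟨i, hi⟩ := hs
      exact ⟨i, fun _ => hi⟩
    have hyX := (mem_sdiff.1 hy).1
    have g1 := h.reg y (hXU hyX)
    have g2 := h4 y hyX
    by_contra hcon
    push Not at hcon
    have g3 : (univ.filter (fun i => y ∈ B i)).card ≤ dgr T I y := by
      refine card_le_card fun i hi => ?_
      rw [mem_filter] at hi ⊢
      have hiI : i ∈ I := by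
        by_contra hni
        exact hcon i hni hi.2
      exact ⟨hiI, mem_inter.2 ⟨hi.2, hXU hyX⟩⟩
    omega
  choose E hE using hfif
  have hE1 : ∀ y ∈ Y, E y ∉ I := fun y hy => (hE y hy).1
  have hE2 : ∀ y ∈ Y, y ∈ B (E y) := fun y hy => (hE y hy).2
  set R := Y.image E with hR
  have hRc : R.card ≤ 3 := card_image_le.trans hYc
  have hRI : Disjoint I R := by
    rw [Finset.disjoint_left]
    intro i hi hiR
    obtain ⟨y, hy, rfl⟩ := mem_image.1 hiR
    exact hE1 y hy hi
  set Z := X ∪ R.biUnion T with hZ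
  have hZU : Z ⊆ U := by
    refine union_subset hXU fun z hz => ?_
    obtain ⟨i, _, hi⟩ := mem_biUnion.1 hz
    exact (mem_inter.1 hi).2
  have hZne : Z.Nonempty := ⟨x, mem_union_left _ hx⟩
  have hcov : Z ⊆ (S ∪ R).biUnion B := by
    intro z hz
    rw [union_biUnion, mem_union]
    have hTB : ∀ i, T i ⊆ B i := fun i => inter_subset_left
    rcases mem_union.1 hz with hz | hz
    · by_cases hzW : z ∈ W
      · obtain ⟨i, hi, hzi⟩ := mem_biUnion.1 hzW
        exact Or.inl (mem_biUnion.2 ⟨i, hi, hTB i hzi⟩)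
      · have hzY : z ∈ Y := mem_sdiff.2 ⟨hz, hzW⟩
        exact Or.inr (mem_biUnion.2 ⟨E z, mem_image_of_mem E hzY, hE2 z hzY⟩)
    · obtain ⟨i, hi, hzi⟩ := mem_biUnion.1 hz
      exact Or.inr (mem_biUnion.2 ⟨i, hi, hTB i hzi⟩)
  have h5 := h.irr_of hZU hZne hcov
  have h6 : 16 + R.card ≤ (ins B U Z).card := by
    rw [← ht, ← card_union_of_disjoint hRI]
    refine card_le_card fun i hi => ?_
    rcases mem_union.1 hi with hi | hi
    · refine mem_ins.2 ⟨card_pos.1 ?_, (hTX i hi).trans subset_union_left⟩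
      have := hc.five i hi
      rw [hT] at this
      unfold trc at this
      omega
    · obtain ⟨y, hy, rfl⟩ := mem_image.1 hi
      refine mem_ins.2 ⟨⟨y, mem_inter.2 ⟨hE2 y hy, hXU (mem_sdiff.1 hy).1⟩⟩, ?_⟩
      exact (subset_biUnion_of_mem T hi).trans subset_union_right
  have h7 : 20 ≤ Z.card := by
    rw [← hX20]
    exact card_le_card subset_union_left
  have h8 : (S ∪ R).card ≤ 4 + R.card := by
    have := card_union_le S R
    omega
  refine ⟨R.card, hRc, ?_⟩
  have h9 : a * (16 + R.card) ≤ a * (ins B U Z).card := Nat.mul_le_mul_left _ h6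
  have h10 : b * 20 ≤ b * Z.card := Nat.mul_le_mul_left _ h7
  have h11 : N * (S ∪ R).card ≤ N * (4 + R.card) := Nat.mul_le_mul_left _ h8
  omega

/-- the large intersecting families of a minimal counterexample, slope 7, 5, 33. -/
theorem MinC.clique7 (h : MinC 7 5 33 B U) {I : Finset ι} (hc : Clq (trc B U) I)
    (ht : 16 ≤ I.card) : ∃ i ∈ I, I.card ≤ 15 + ddx (trc B U) I i := by
  have hmain : (∃ i ∈ I, I.card ≤ 15 + ddx (trc B U) I i) ∨
      (I.card = 16 ∧ (∀ i ∈ I, ddx (trc B U) I i = 0) ∧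
        ∀ x ∈ I.biUnion (trc B U), dgr (trc B U) I x = 4) := by
    refine clq_main hc ht fun v hv => ?_
    obtain ⟨q, o, h1, h2, h3, h4, h5⟩ := h.star_irr hc hv
    have h6 := pp2_le (T := trc B U) (I := I) v
    refine ⟨by omega, fun _ => by omega, fun _ => by omega⟩
  rcases hmain with h1 | ⟨h1, h2, h3⟩
  · exact h1
  · obtain ⟨r, hr, h4⟩ := h.typeP hc h1 h2 h3
    omega

/-- the large intersecting families of a minimal counterexample, slope 13, 7, 55. -/
theorem MinC.clique13 (h : MinC 13 7 55 B U) {I : Finset ι} (hc : Clq (trc B U) I)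
    (ht : 16 ≤ I.card) : ∃ i ∈ I, I.card ≤ 15 + ddx (trc B U) I i := by
  have hmain : (∃ i ∈ I, I.card ≤ 15 + ddx (trc B U) I i) ∨
      (I.card = 16 ∧ (∀ i ∈ I, ddx (trc B U) I i = 0) ∧
        ∀ x ∈ I.biUnion (trc B U), dgr (trc B U) I x = 4) := by
    refine clq_main hc ht fun v hv => ?_
    obtain ⟨q, o, h1, h2, h3, h4, h5⟩ := h.star_irr hc hv
    have h6 := pp2_le (T := trc B U) (I := I) v
    refine ⟨by omega, fun _ => by omega, fun _ => by omega⟩
  rcases hmain with h1 | ⟨h1, h2, h3⟩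
  · exact h1
  · obtain ⟨r, hr, h4⟩ := h.typeP hc h1 h2 h3
    omega

end Min

end Pool.Agent.Hyp6
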