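import Pool.Agent.Hyp6.Clq2

/-!
# HYP6 CLQ3: the choice of the packing at level five

`cl B U F z`: the blocks with five points disjoint from the members of the packing `F` other than `z`.
For a maximum packing this is an intersecting family. `ddt B U z`: the sum of `|overlap| - 1` over the other
blocks with five points. `exists_good`: among the admissible maximum packings there is one such that every
family `cl B U F z` has at most `15 + ddt z` members.
-/

set_option autoImplicit false

namespace Pool.Agent.Hyp6

open Finset Pool.Agent.Hyp5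

variable {V : Type*} [DecidableEq V] {ι : Type*} [Fintype ι] [DecidableEq ι]

/-- the blocks with five points disjoint from the other members of the packing. -/
def cl (B : ι → Finset V) (U : Finset V) (F : Finset ι) (z : ι) : Finset ι :=
  univ.filter (fun i => (B i ∩ U).card = 5 ∧ Disjoint (B i ∩ U) ((F.erase z).biUnion B))

/-- the overlaps of the block `z` with the other blocks with five points. -/
def ddt (B : ι → Finset V) (U : Finset V) (z : ι) : ℕ :=
  ∑ i ∈ (trs B U 5).erase z, sx (trc B U) z i

variable {B : ι → Finset V} {U : Finset V} {F : Finset ι}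

theorem mem_cl {z i : ι} : i ∈ cl B U F z ↔
    (B i ∩ U).card = 5 ∧ Disjoint (B i ∩ U) ((F.erase z).biUnion B) := by simp [cl]

/-- the member itself. -/
theorem Pack.self_mem_cl (h : Pack B U 5 F) {z : ι} (hz : z ∈ F) : z ∈ cl B U F z := by
  refine mem_cl.2 ⟨h.card z hz, ?_⟩
  rw [Finset.disjoint_left]
  intro v hv hv'
  obtain ⟨j, hj, hvj⟩ := mem_biUnion.1 hv'
  rw [mem_erase] at hj
  exact Finset.disjoint_left.1 (h.disj z hz j hj.2 (fun e => hj.1 e.symm)) hv
    (mem_inter.2 ⟨hvj, (mem_inter.1 hv).2⟩)

/-- exchange of a member of the packing. -/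
theorem Pack.swap (h : Pack B U 5 F) {z i : ι} (hz : z ∈ F) (hi : i ∈ cl B U F z) :
    Pack B U 5 (insert i (F.erase z)) ∧ i ∉ F.erase z ∧
      (insert i (F.erase z)).card = F.card := by
  rw [mem_cl] at hi
  have hd : ∀ j ∈ F.erase z, Disjoint (B i ∩ U) (B j ∩ U) := by
    intro j hj
    refine hi.2.mono_right ?_
    exact inter_subset_left.trans (subset_biUnion_of_mem B hj)
  have hni : i ∉ F.erase z := by
    intro hc
    obtain ⟨v, hv⟩ := card_pos.1 (show 0 < (B i ∩ U).card by omega)
    exact Finset.disjoint_left.1 (hd i hc) hv hv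
  refine ⟨⟨?_, ?_⟩, hni, ?_⟩
  · intro j hj
    rcases mem_insert.1 hj with rfl | hj
    · exact hi.1
    · exact h.card j (mem_of_mem_erase hj)
  · intro j hj k hk hne
    rcases mem_insert.1 hj with hj | hj
    · rcases mem_insert.1 hk with hk | hk
      · exact absurd (hj.trans hk.symm) hne
      · rw [hj]; exact hd k hk
    · rcases mem_insert.1 hk with hk | hk
      · rw [hk]; exact (hd j hj).symm
      · exact h.disj j (mem_of_mem_erase hj) k (mem_of_mem_erase hk) hne
  · rw [card_insert_of_notMem hni, card_erase_add_one hz]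

/-- for a maximum packing the family `cl` is an intersecting family. -/
theorem Pack.clq (h : Pack B U 5 F) (hmax : ∀ F', Pack B U 5 F' → F'.card ≤ F.card)
    (hr : Reg B U) {z : ι} (hz : z ∈ F) : Clq (trc B U) (cl B U F z) := by
  refine ⟨fun i hi => (mem_cl.1 hi).1, ?_, ?_⟩
  · intro i hi j hj
    by_contra hcon
    rw [not_nonempty_iff_eq_empty] at hcon
    have hij : Disjoint (B i ∩ U) (B j ∩ U) := by
      rw [disjoint_iff_inter_eq_empty]
      exact hcon
    have hne : j ≠ i := by
      rintro rfl
      have h5 := (mem_cl.1 hi).1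
      unfold trc at hcon
      rw [inter_self] at hcon
      rw [hcon] at h5
      simp at h5
    obtain ⟨h1, h2, h3⟩ := h.swap hz hi
    have hj' := mem_cl.1 hj
    have hdj : ∀ k ∈ F.erase z, Disjoint (B j ∩ U) (B k ∩ U) := by
      intro k hk
      refine hj'.2.mono_right ?_
      exact inter_subset_left.trans (subset_biUnion_of_mem B hk)
    have hnj : j ∉ insert i (F.erase z) := by
      intro hc
      rcases mem_insert.1 hc with hc | hc
      · exact hne hc
      · obtain ⟨v, hv⟩ := card_pos.1 (show 0 < (B j ∩ U).card by omega)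
        exact Finset.disjoint_left.1 (hdj j hc) hv hv
    have hP : Pack B U 5 (insert j (insert i (F.erase z))) := by
      have hd : ∀ k ∈ insert i (F.erase z), Disjoint (B j ∩ U) (B k ∩ U) := by
        intro k hk
        rcases mem_insert.1 hk with hk | hk
        · rw [hk]; exact hij.symm
        · exact hdj k hk
      refine ⟨?_, ?_⟩
      · intro k hk
        rcases mem_insert.1 hk with rfl | hk
        · exact hj'.1
        · exact h1.card k hk
      · intro k hk l hl hkl
        rcases mem_insert.1 hk with hk | hk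
        · rcases mem_insert.1 hl with hl | hl
          · exact absurd (hk.trans hl.symm) hkl
          · rw [hk]; exact hd l hl
        · rcases mem_insert.1 hl with hl | hl
          · rw [hl]; exact (hd k hk).symm
          · exact h1.disj k hk l hl hkl
    have h4 := hmax _ hP
    rw [card_insert_of_notMem hnj, h3] at h4
    omega
  · intro x
    by_cases hx : x ∈ U
    · rw [← hr x hx]
      refine card_le_card fun i hi => ?_
      rw [mem_filter] at hi
      exact mem_filter.2 ⟨mem_univ _, (mem_inter.1 hi.2).1⟩
    · have : dgr (trc B U) (cl B U F z) x = 0 := by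
        unfold dgr
        rw [card_eq_zero, filter_eq_empty_iff]
        intro i _ hxi
        exact hx (mem_inter.1 hxi).2
      omega

/-- the overlaps in a family of blocks with five points. -/
theorem ddx_le_ddt {I : Finset ι} (hI : ∀ i ∈ I, (B i ∩ U).card = 5) (i : ι) :
    ddx (trc B U) I i ≤ ddt B U i := by
  unfold ddx ddt
  refine sum_le_sum_of_subset (erase_subset_erase i fun j hj => ?_)
  exact mem_trs.2 (hI j hj)

/-- **the choice of the packing.** `Adm` is a nonempty set of maximum packings closed under the exchange of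
a member with at most two overlaps. `hcl` is the clique bound. -/
theorem exists_good (hr : Reg B U)
    (hcl : ∀ I : Finset ι, Clq (trc B U) I → 16 ≤ I.card →
      ∃ i ∈ I, I.card ≤ 15 + ddx (trc B U) I i)
    {Adm : Finset ι → Prop} (hne : ∃ F, Adm F) (hP : ∀ F, Adm F → Pack B U 5 F)
    (hmax : ∀ F, Adm F → ∀ F', Pack B U 5 F' → F'.card ≤ F.card)
    (hsw : ∀ F, Adm F → ∀ z ∈ F, ddt B U z ≤ 2 → ∀ i ∈ cl B U F z,
      Adm (insert i (F.erase z))) :
    ∃ F, Adm F ∧ ∀ z ∈ F, (cl B U F z).card ≤ 15 + ddt B U z := by
  classical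
  obtain ⟨F0, hF0⟩ := hne
  obtain ⟨F, hF, hmx⟩ := Finset.exists_max_image
    ((univ : Finset (Finset ι)).filter (fun F => Adm F)) (fun F => ∑ z ∈ F, ddt B U z)
    ⟨F0, mem_filter.2 ⟨mem_univ _, hF0⟩⟩
  have hA := (mem_filter.1 hF).2
  refine ⟨F, hA, fun z hz => ?_⟩
  by_contra hcon
  push Not at hcon
  have hc := (hP F hA).clq (hmax F hA) hr hz
  obtain ⟨i, hi, hi2⟩ := hcl _ hc (by omega)
  have h21 := hc.le21 hi
  have h1 := hsw F hA z hz (by omega) i hi
  obtain ⟨_, h3, _⟩ := (hP F hA).swap hz hi
  have h4 := hmx _ (mem_filter.2 ⟨mem_univ _, h1⟩)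
  simp only [sum_insert h3] at h4
  rw [← sum_erase_add F _ hz] at h4
  have h5 := ddx_le_ddt (B := B) (U := U) (I := cl B U F z) (fun i hi => (mem_cl.1 hi).1) i
  omega

end Pool.Agent.Hyp6
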