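import Pool.Agent.Hyp6.L3Non

/-!
# HYP6 L4DEFS: traces with at most four points, K-pieces

`KP B X`: a K-piece: six points, all traces on `X` have at most three points, ten blocks, cover number
three. `KFree B Q`: no K-piece inside `Q`. `IH4`: the induction hypothesis of the K-free form of T0.
-/

set_option autoImplicit false

namespace Pool.Agent.Hyp6

open Finset Pool.Agent.Hyp5

universe u v

section

variable {V : Type v} [DecidableEq V] {ι : Type u} [Fintype ι]

/-- all traces in `Q` have at most four points. -/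
def Tr4 (B : ι → Finset V) (Q : Finset V) : Prop := ∀ i, (B i ∩ Q).card ≤ 4

/-- a K-piece. -/
def KP (B : ι → Finset V) (X : Finset V) : Prop := Tr3 B X ∧ KT B X

/-- no K-piece inside `Q`. -/
def KFree (B : ι → Finset V) (Q : Finset V) : Prop := ∀ X ⊆ Q, ¬ KP B X

/-- the value of the part `C` of `Q`. -/
noncomputable def dv (B : ι → Finset V) (Q C : Finset V) : ℤ := Pv B C - 2 * (ee B Q C : ℤ)

end

/-- the level-3 theorem, value part with the term for the single traces, for all systems. -/
def L3e (V : Type v) [DecidableEq V] : Prop :=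
  ∀ (κ : Type u) [Fintype κ] (B : κ → Finset V) (Q : Finset V), Reg B Q → Tr3 B Q →
    Conn (gr B) Q → ¬ KT B Q → -1 + 2 * (ee B Q Q : ℤ) ≤ Pv B Q

/-- the induction hypothesis of the K-free level-4 theorem. -/
def IH4 (V : Type v) [DecidableEq V] (n : ℕ) : Prop :=
  ∀ (κ : Type u) [Fintype κ] (B : κ → Finset V) (Q : Finset V), Q.card < n → Reg B Q → Tr4 B Q →
    Conn (gr B) Q → KFree B Q → -1 + 2 * (ee B Q Q : ℤ) ≤ Pv B Q

section

variable {V : Type v} [DecidableEq V] {ι : Type u} {B : ι → Finset V}

theorem Tr4.mono {Q W : Finset V} (h : Tr4 B Q) (hW : W ⊆ Q) : Tr4 B W := fun i =>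
  (card_le_card (inter_subset_inter_left hW)).trans (h i)

variable [Fintype ι]

theorem KFree.mono {Q W : Finset V} (h : KFree B Q) (hW : W ⊆ Q) : KFree B W := fun X hX =>
  h X (hX.trans hW)

/-- the single traces. -/
theorem two_ee_le (Q A : Finset V) :
    2 * ee B Q A ≤ ((ins B Q A).filter (fun i => (B i ∩ Q).card = 1)).card := by
  classical
  unfold ee
  set S := A.filter (fun t => 2 ≤ (univ.filter (fun i => B i ∩ Q = {t})).card) with hS
  have h1 : (S.biUnion (fun t => univ.filter (fun i => B i ∩ Q = {t}))).card =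
      ∑ t ∈ S, (univ.filter (fun i => B i ∩ Q = {t})).card := by
    refine card_biUnion fun t _ t' _ hne => ?_
    rw [Function.onFun, disjoint_left]
    intro i hi hi'
    rw [mem_filter] at hi hi'
    exact hne (singleton_injective (hi.2.symm.trans hi'.2))
  have h2 : ∑ t ∈ S, 2 ≤ ∑ t ∈ S, (univ.filter (fun i => B i ∩ Q = {t})).card :=
    sum_le_sum fun t ht => (mem_filter.1 ht).2
  rw [sum_const, smul_eq_mul, ← h1] at h2
  have h3 : S.biUnion (fun t => univ.filter (fun i => B i ∩ Q = {t})) ⊆
      (ins B Q A).filter (fun i => (B i ∩ Q).card = 1) := by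
    intro i hi
    obtain ⟨t, ht, hit⟩ := mem_biUnion.1 hi
    rw [mem_filter] at hit
    rw [mem_filter, mem_ins, hit.2]
    exact ⟨⟨singleton_nonempty _, singleton_subset_iff.2 (mem_filter.1 ht).1⟩, card_singleton _⟩
  have h4 := card_le_card h3
  omega

theorem two_ee_le' (Q A : Finset V) : 2 * ee B Q A ≤ (ins B Q A).card :=
  (two_ee_le Q A).trans (card_filter_le _ _)

theorem KP.trace {X : Finset V} (hr : Reg B X) (h : KP B X) {i : ι}
    (hi : (B i ∩ X).Nonempty) : (B i ∩ X).card = 3 := h.2.trace hr h.1 hi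

end

end Pool.Agent.Hyp6
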