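import Pool.Agent.Hyp6.Exch
import Pool.Agent.Hyp6.L4Defs

/-!
# HYP6 DISCH: the discharging layer at level 5

`F` is a packing of blocks with five points in `U`, `W = U \ ⋃ F`. Scale `118800 = 9 * 13200`. Every
trace with two points in `W` pays `550` to its component, every trace with one point pays `1100`; the
component `C` then has `550 * MM C`, `MM C = 9 Pv C + NN C`, `NN C = n₂ + 2 n₁`. `kept h s` is what a block
with `h` points in the packing and `s` points altogether keeps after this payment.
-/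

set_option autoImplicit false

namespace Pool.Agent.Hyp6

open Finset Pool.Agent.Hyp5

variable {V : Type*} [DecidableEq V] {ι : Type*} {B : ι → Finset V}

section Parts

variable [Fintype ι]

/-- a sum over the traces on a separated family. -/
theorem sum_parts {K : Finset (Finset V)} (h : SepF B K) (f : ℕ → ℤ) (h0 : f 0 = 0) :
    ∑ i, f (B i ∩ K.biUnion id).card = ∑ C ∈ K, ∑ i, f (B i ∩ C).card := by
  rw [sum_comm]
  refine sum_congr rfl fun i _ => ?_
  by_cases hne : ∃ C ∈ K, (B i ∩ C).Nonempty
  · obtain ⟨C, hC, hi⟩ := hne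
    have h1 : ∀ D ∈ K, D ≠ C → B i ∩ D = ∅ := by
      intro D hD hDC
      by_contra hcon
      exact (h D hD C hC hDC).2 i (nonempty_iff_ne_empty.2 hcon) hi
    rw [sum_eq_single C (fun D hD hDC => by rw [h1 D hD hDC, card_empty, h0])
      (fun g => absurd hC g)]
    congr 2
    ext v
    simp only [mem_inter, mem_biUnion, id]
    constructor
    · rintro ⟨hv, D, hD, hvD⟩
      refine ⟨hv, ?_⟩
      by_cases hDC : D = C
      · exact hDC ▸ hvD
      · have : v ∈ B i ∩ D := mem_inter.2 ⟨hv, hvD⟩
        rw [h1 D hD hDC] at this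
        exact absurd this (notMem_empty v)
    · rintro ⟨hv, hvC⟩
      exact ⟨hv, C, hC, hvC⟩
  · push Not at hne
    have h1 : ∀ D ∈ K, B i ∩ D = ∅ := hne
    rw [sum_eq_zero fun D hD => by rw [h1 D hD, card_empty, h0]]
    have : B i ∩ K.biUnion id = ∅ := by
      ext v
      simp only [mem_inter, mem_biUnion, id, notMem_empty, iff_false, not_and, not_exists]
      intro hv D hD hvD
      have : v ∈ B i ∩ D := mem_inter.2 ⟨hv, hvD⟩
      rw [h1 D hD] at this
      exact absurd this (notMem_empty v)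
    rw [this, card_empty, h0]

/-- the payment of a trace with `w` points. -/
def pay (w : ℕ) : ℤ := if w = 1 then 1100 else if w = 2 then 550 else 0

/-- the number of short traces, with weights. -/
def NN (B : ι → Finset V) (C : Finset V) : ℕ := nt B C 2 + 2 * nt B C 1

theorem sum_pay (C : Finset V) : ∑ i, pay (B i ∩ C).card = 550 * (NN B C : ℤ) := by
  have h1 : ∀ i, pay (B i ∩ C).card = 550 * (if (B i ∩ C).card = 2 then (1 : ℤ) else 0) +
      1100 * (if (B i ∩ C).card = 1 then (1 : ℤ) else 0) := by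
    intro i
    unfold pay
    by_cases g1 : (B i ∩ C).card = 1
    · rw [if_pos g1, g1]; norm_num
    · rw [if_neg g1, if_neg g1]
      by_cases g2 : (B i ∩ C).card = 2
      · rw [if_pos g2, if_pos g2]; norm_num
      · rw [if_neg g2, if_neg g2]; norm_num
  rw [sum_congr rfl fun i _ => h1 i, sum_add_distrib, ← mul_sum, ← mul_sum]
  simp only [sum_boole, NN, nt, trs]
  push_cast
  ring

theorem NN_parts {K : Finset (Finset V)} (h : SepF B K) :
    (NN B (K.biUnion id) : ℤ) = ∑ C ∈ K, (NN B C : ℤ) := by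
  have h1 := sum_parts h pay (by unfold pay; norm_num)
  rw [sum_pay, sum_congr rfl fun C _ => sum_pay C, ← mul_sum] at h1
  exact mul_left_cancel₀ (by norm_num : (550 : ℤ) ≠ 0) h1

/-- traces of size one to four: their number. -/
theorem cm_eq4 {W : Finset V} (hs : Tr4 B W) :
    cm B W = nt B W 1 + nt B W 2 + nt B W 3 + nt B W 4 := by
  have h1 : ∀ i, (if (B i ∩ W).Nonempty then 1 else 0 : ℕ) =
      (if (B i ∩ W).card = 1 then 1 else 0) + (if (B i ∩ W).card = 2 then 1 else 0) +
        (if (B i ∩ W).card = 3 then 1 else 0) + (if (B i ∩ W).card = 4 then 1 else 0) := by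
    intro i
    have h2 := hs i
    by_cases h3 : (B i ∩ W).Nonempty
    · rw [if_pos h3]
      rw [← card_pos] at h3
      split_ifs <;> omega
    · rw [if_neg h3]
      rw [not_nonempty_iff_eq_empty, ← card_eq_zero] at h3
      rw [h3]
      norm_num
  unfold cm nt tch trs
  simp only [card_filter]
  rw [← sum_add_distrib, ← sum_add_distrib, ← sum_add_distrib]
  exact sum_congr rfl fun i _ => h1 i

/-- the incidences of `W`. -/
theorem inc_eq4 {W : Finset V} (hr : Reg B W) (hs : Tr4 B W) :
    5 * W.card = nt B W 1 + 2 * nt B W 2 + 3 * nt B W 3 + 4 * nt B W 4 := by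
  rw [← sum_inc hr]
  have h1 : ∀ i, (B i ∩ W).card =
      (if (B i ∩ W).card = 1 then 1 else 0) + 2 * (if (B i ∩ W).card = 2 then 1 else 0) +
        3 * (if (B i ∩ W).card = 3 then 1 else 0) + 4 * (if (B i ∩ W).card = 4 then 1 else 0) := by
    intro i
    have h2 := hs i
    split_ifs <;> omega
  unfold nt trs
  simp only [card_filter]
  rw [mul_sum, mul_sum, mul_sum, ← sum_add_distrib, ← sum_add_distrib, ← sum_add_distrib]
  exact sum_congr rfl fun i _ => h1 i

/-- the short traces of a set with traces of at most four points. -/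
theorem four_NN {C : Finset V} (hr : Reg B C) (h4 : Tr4 B C) :
    4 * (NN B C : ℤ) = 3 * Pv B C - 36 * sv B C + C.card + 4 * nt B C 4 := by
  have h1 := cm_eq4 h4
  have h2 := inc_eq4 hr h4
  have h1' : (cm B C : ℤ) = nt B C 1 + nt B C 2 + nt B C 3 + nt B C 4 := by exact_mod_cast h1
  have h2' : 5 * (C.card : ℤ) = nt B C 1 + 2 * nt B C 2 + 3 * nt B C 3 + 4 * nt B C 4 := by
    exact_mod_cast h2
  unfold Pv G NN
  push_cast
  linarith

/-- the value of a component with the payments of its short traces (in units of `550`). -/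
noncomputable def MM (B : ι → Finset V) (C : Finset V) : ℤ := 9 * Pv B C + NN B C

/-- an exceptional component has at least nine short traces. -/
theorem MM_exc {C : Finset V} (hr : Reg B C) (h4 : Tr4 B C) (hP : Pv B C = -1)
    (hS : sv B C ≤ -1) : (C.card : ℤ) + 4 * nt B C 4 - 3 ≤ 4 * MM B C := by
  have h1 := four_NN hr h4
  unfold MM
  rw [hP] at h1 ⊢
  linarith

theorem MM_nonneg {C : Finset V} (hr : Reg B C) (h4 : Tr4 B C) (hne : C.Nonempty)
    (hP : -1 ≤ Pv B C) (hS : Pv B C = -1 → sv B C ≤ -1) : 0 ≤ MM B C := by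
  rcases hP.eq_or_lt with h | h
  · have h1 := MM_exc hr h4 h.symm (hS h.symm)
    have h2 : 1 ≤ C.card := card_pos.2 hne
    have h3 : (1 : ℤ) ≤ C.card := by exact_mod_cast h2
    have h5 : (0 : ℤ) ≤ nt B C 4 := by positivity
    omega
  · unfold MM
    have : (0 : ℤ) ≤ NN B C := by positivity
    linarith

end Parts

/-- what a block with `h` points in the packing and `w` points outside keeps (scale `118800`). -/
def kept (h w : ℕ) : ℤ := 9 * cred h (h + w) - pay w

theorem kept_nonneg {h w : ℕ} (h1 : h + w ≤ 5) (h2 : w ≤ 4) (h3 : ¬ (h = 1 ∧ w = 4)) :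
    0 ≤ kept h w := by
  have h4 : h ≤ 5 := by omega
  unfold kept cred vals pay
  interval_cases w <;> interval_cases h <;> first | (exfalso; omega) | norm_num

section Value

variable [Fintype ι]

open Classical in
/-- **the discharged balance** (scale `118800`). -/
theorem val_disch {U : Finset V} {F : Finset ι} (h : Pack B U 5 F) (hr : Reg B U)
    (h5 : ∀ i, (B i ∩ U).card ≤ 5) {K : Finset (Finset V)} (hK : SepF B K)
    (hKU : K.biUnion id = U \ F.biUnion B) :
    550 * ∑ C ∈ K, MM B C + ∑ j ∈ F, (9900 - 675 * (pp B U F j : ℤ)) +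
      ∑ i ∈ (univ \ F).filter (fun i => ¬ Priv B U F i), kept (hh B U F i) (ww B U F i) ≤
      2160 * (13 * cm B U + 7 * U.card - 55 * rho B U : ℤ) := by
  have h1 := val_priv h hr h5
  have hcov : ∀ C ∈ K, Cov B C := fun C hC => (cov_of_reg hr).mono (by
    have : C ⊆ K.biUnion id := fun v hv => mem_biUnion.2 ⟨C, hC, hv⟩
    rw [hKU] at this
    exact this.trans sdiff_subset)
  have h2 := Pv_biUnion hcov hK
  rw [hKU] at h2
  have h3 : ∑ C ∈ K, MM B C = 9 * Pv B (U \ F.biUnion B) + NN B (U \ F.biUnion B) := by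
    unfold MM
    rw [sum_add_distrib, ← mul_sum, h2, ← NN_parts hK, hKU]
  have h4 := sum_pay (B := B) (U \ F.biUnion B)
  have h6 : ∑ i, pay (B i ∩ (U \ F.biUnion B)).card =
      ∑ i ∈ (univ \ F).filter (fun i => ¬ Priv B U F i), pay (ww B U F i) := by
    have e : ∀ i, (B i ∩ (U \ F.biUnion B)).card = ww B U F i := fun i => rfl
    rw [sum_congr rfl fun i _ => by rw [e i]]
    symm
    apply sum_subset (subset_univ _)
    intro i _ hi
    rw [mem_filter, mem_sdiff] at hi
    by_cases g1 : i ∈ F
    · have : ww B U F i = 0 := by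
        rw [← e, card_eq_zero]
        ext v
        simp only [mem_inter, mem_sdiff, mem_biUnion, notMem_empty, iff_false, not_and, not_not]
        intro hv _
        exact ⟨i, g1, hv⟩
      rw [this]; unfold pay; norm_num
    · have g2 : Priv B U F i := by
        by_contra hcon
        exact hi ⟨⟨mem_univ _, g1⟩, hcon⟩
      have g3 := hh_add_ww (B := B) U F i
      have g4 : ww B U F i = 4 := by
        have := g2.2.1
        have := g2.2.2
        omega
      rw [g4]; unfold pay; norm_num
  have h7 : ∑ i ∈ (univ \ F).filter (fun i => ¬ Priv B U F i), kept (hh B U F i) (ww B U F i) =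
      9 * ∑ i ∈ (univ \ F).filter (fun i => ¬ Priv B U F i), cred (hh B U F i) (B i ∩ U).card -
        ∑ i ∈ (univ \ F).filter (fun i => ¬ Priv B U F i), pay (ww B U F i) := by
    rw [mul_sum, ← sum_sub_distrib]
    refine sum_congr rfl fun i _ => ?_
    unfold kept
    rw [hh_add_ww]
  have h8 : ∑ j ∈ F, (9900 - 675 * (pp B U F j : ℤ)) = 9 * ∑ j ∈ F, (1100 - 75 * (pp B U F j : ℤ)) := by
    rw [mul_sum]
    exact sum_congr rfl fun j _ => by ring
  rw [h7, h8, h3, ← h6, h4]
  linarith

open Classical in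
/-- **the balance with an arbitrary transfer `f` from the traces to the components** (scale `13200`):
every trace with `w` points in the component `C` transfers `f w` to it. -/
theorem val_gen {U : Finset V} {F : Finset ι} (h : Pack B U 5 F) (hr : Reg B U)
    (h5 : ∀ i, (B i ∩ U).card ≤ 5) {K : Finset (Finset V)} (hK : SepF B K)
    (hKU : K.biUnion id = U \ F.biUnion B) (f : ℕ → ℤ) (h0 : f 0 = 0) :
    ∑ C ∈ K, (550 * Pv B C + ∑ i, f (B i ∩ C).card) + 1100 * (F.card : ℤ) +
      ∑ i ∈ univ \ F, (cred (hh B U F i) (hh B U F i + ww B U F i) - f (ww B U F i)) ≤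
      240 * (13 * cm B U + 7 * U.card - 55 * rho B U : ℤ) := by
  have h1 := val_Cs' h hr h5
  have hcov : ∀ C ∈ K, Cov B C := fun C hC => (cov_of_reg hr).mono (by
    have : C ⊆ K.biUnion id := fun v hv => mem_biUnion.2 ⟨C, hC, hv⟩
    rw [hKU] at this
    exact this.trans sdiff_subset)
  have h2 := Pv_biUnion hcov hK
  rw [hKU] at h2
  have h3 := sum_parts hK f h0
  rw [hKU] at h3
  have h4 : ∑ i, f (B i ∩ (U \ F.biUnion B)).card = ∑ i ∈ univ \ F, f (ww B U F i) := by
    have e : ∀ i, (B i ∩ (U \ F.biUnion B)).card = ww B U F i := fun i => rfl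
    rw [sum_congr rfl fun i _ => by rw [e i]]
    symm
    apply sum_subset (subset_univ _)
    intro i _ hi
    have g1 : i ∈ F := by
      by_contra hcon
      exact hi (mem_sdiff.2 ⟨mem_univ _, hcon⟩)
    rw [Pack.ww_eq_zero g1, h0]
  have h5' : (∑ i ∈ univ \ F, (hh B U F i : ℤ)) = 20 * (F.card : ℤ) := by
    have := h.sum_hh hr
    exact_mod_cast this
  have h6 : ∑ i ∈ univ \ F, vals (hh B U F i) (B i ∩ U).card =
      ∑ i ∈ univ \ F, cred (hh B U F i) (hh B U F i + ww B U F i) + 75 * (20 * (F.card : ℤ)) := by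
    rw [← h5', mul_sum, ← sum_add_distrib]
    refine sum_congr rfl fun i _ => ?_
    rw [hh_add_ww]
    unfold cred
    ring
  rw [sum_add_distrib, ← mul_sum, ← h2, ← h3, h4, sum_sub_distrib]
  rw [h6] at h1
  linarith

/-- the kept values are nonnegative. -/
theorem kept_nonneg' {U : Finset V} {F : Finset ι} (hm : MaxPack B U F)
    (h5 : ∀ i, (B i ∩ U).card ≤ 5) {i : ι} (hi : i ∉ F) (hp : ¬ Priv B U F i) :
    0 ≤ kept (hh B U F i) (ww B U F i) := by
  have h1 := h5 i
  have h2 := hh_add_ww (B := B) U F i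
  have h3 : ww B U F i ≤ 4 := hm.four h5 i
  refine kept_nonneg (by omega) h3 ?_
  rintro ⟨g1, g2⟩
  exact hp ⟨hi, by omega, g1⟩

end Value

end Pool.Agent.Hyp6
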