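import Pool.Agent.Hyp6.Clq3
import Pool.Agent.Hyp6.Disch

/-!
# HYP6 CLQ4: the choice of the packing with the dense overlaps as potential

`cmn B U z i`: the number of the other blocks with five points meeting both `z` and `i`. `dns B U z`: the
overlaps with the blocks `i` with `14 ≤ cmn z i`. The packing is chosen such that for every member `z` for
which the exchange is allowed `|cl z| ≤ 15 + dns z`.
-/

set_option autoImplicit false

namespace Pool.Agent.Hyp6

open Finset Pool.Agent.Hyp5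

variable {V : Type*} [DecidableEq V] {ι : Type*} [Fintype ι] [DecidableEq ι]

/-- the number of the other blocks with five points meeting both `z` and `i`. -/
def cmn (B : ι → Finset V) (U : Finset V) (z i : ι) : ℕ :=
  ((((trs B U 5).erase z).erase i).filter (fun j =>
    (trc B U j ∩ trc B U z).Nonempty ∧ (trc B U j ∩ trc B U i).Nonempty)).card

/-- the dense overlaps. -/
def dns (B : ι → Finset V) (U : Finset V) (z : ι) : ℕ :=
  ∑ i ∈ (trs B U 5).erase z, if 14 ≤ cmn B U z i then sx (trc B U) z i else 0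

variable {B : ι → Finset V} {U : Finset V} {F : Finset ι}

theorem dns_le_ddt (z : ι) : dns B U z ≤ ddt B U z := by
  unfold dns ddt
  refine sum_le_sum fun i _ => ?_
  split_ifs
  · exact le_refl _
  · exact Nat.zero_le _

theorem Clq.cmn_ge {I : Finset ι} (hc : Clq (trc B U) I) {i j : ι} (hi : i ∈ I) (hj : j ∈ I) :
    I.card ≤ cmn B U i j + 2 := by
  have h1 : (I.erase i).erase j ⊆ (((trs B U 5).erase i).erase j).filter (fun k =>
      (trc B U k ∩ trc B U i).Nonempty ∧ (trc B U k ∩ trc B U j).Nonempty) := by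
    intro k hk
    rw [mem_erase, mem_erase] at hk
    rw [mem_filter, mem_erase, mem_erase]
    exact ⟨⟨hk.1, hk.2.1, mem_trs.2 (hc.five k hk.2.2)⟩, hc.meet k hk.2.2 i hi,
      hc.meet k hk.2.2 j hj⟩
  have h2 := card_le_card h1
  have h3 := pred_card_le_card_erase (s := I) (a := i)
  have h4 := pred_card_le_card_erase (s := I.erase i) (a := j)
  unfold cmn
  omega

theorem Clq.ddx_le_dns {I : Finset ι} (hc : Clq (trc B U) I) (ht : 16 ≤ I.card) {i : ι}
    (hi : i ∈ I) : ddx (trc B U) I i ≤ dns B U i := by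
  unfold ddx dns
  calc ∑ j ∈ I.erase i, sx (trc B U) i j
      = ∑ j ∈ I.erase i, if 14 ≤ cmn B U i j then sx (trc B U) i j else 0 := by
        refine sum_congr rfl fun j hj => ?_
        have := hc.cmn_ge hi (mem_of_mem_erase hj)
        rw [if_pos (by omega)]
    _ ≤ _ := by
        refine sum_le_sum_of_subset (erase_subset_erase i fun j hj => ?_)
        exact mem_trs.2 (hc.five j hj)

/-- the choice of a packing with maximal potential `φ`. `Adm` is a nonempty set of maximum packings,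
`NR F z` says that the exchange of the member `z` of `F` is allowed. -/
theorem exists_pot (φ : ι → ℕ) {Adm : Finset ι → Prop} {NR : Finset ι → ι → Prop}
    (hne : ∃ F, Adm F) (hP : ∀ F, Adm F → Pack B U 5 F)
    (hsw : ∀ F, Adm F → ∀ z ∈ F, NR F z → ∀ i ∈ cl B U F z, Adm (insert i (F.erase z))) :
    ∃ F, Adm F ∧ ∀ z ∈ F, NR F z → ∀ i ∈ cl B U F z, φ i ≤ φ z := by
  classical
  obtain ⟨F0, hF0⟩ := hne
  obtain ⟨F, hF, hmx⟩ := Finset.exists_max_image
    ((univ : Finset (Finset ι)).filter (fun F => Adm F)) (fun F => ∑ z ∈ F, φ z)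
    ⟨F0, mem_filter.2 ⟨mem_univ _, hF0⟩⟩
  have hA := (mem_filter.1 hF).2
  refine ⟨F, hA, fun z hz hNR i hi => ?_⟩
  obtain ⟨_, h3, _⟩ := (hP F hA).swap hz hi
  have h4 := hmx _ (mem_filter.2 ⟨mem_univ _, hsw F hA z hz hNR i hi⟩)
  simp only [sum_insert h3] at h4
  rw [← sum_erase_add F _ hz] at h4
  omega

/-- **the choice of the packing.** -/
theorem exists_dense (hr : Reg B U)
    (hcl : ∀ I : Finset ι, Clq (trc B U) I → 16 ≤ I.card →
      ∃ i ∈ I, I.card ≤ 15 + ddx (trc B U) I i)
    {Adm : Finset ι → Prop} {NR : Finset ι → ι → Prop} (hne : ∃ F, Adm F)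
    (hP : ∀ F, Adm F → Pack B U 5 F)
    (hmax : ∀ F, Adm F → ∀ F', Pack B U 5 F' → F'.card ≤ F.card)
    (hsw : ∀ F, Adm F → ∀ z ∈ F, NR F z → ∀ i ∈ cl B U F z, Adm (insert i (F.erase z))) :
    ∃ F, Adm F ∧ ∀ z ∈ F, NR F z → (cl B U F z).card ≤ 15 + dns B U z := by
  obtain ⟨F, hA, h⟩ := exists_pot (dns B U) hne hP hsw
  refine ⟨F, hA, fun z hz hNR => ?_⟩
  by_contra hcon
  push Not at hcon
  have hc := (hP F hA).clq (hmax F hA) hr hz
  obtain ⟨i, hi, hi2⟩ := hcl _ hc (by omega)
  have h6 := hc.ddx_le_dns (by omega) hi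
  have h7 := h z hz hNR i hi
  omega

end Pool.Agent.Hyp6
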