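import Pool.Agent.Hyp6.Val2
import Pool.Agent.Hyp5.Cost

/-!
# HYP6: numbers of blocks

`cm B W` is the number of blocks meeting `W`, `cx B U W` the number of blocks meeting both `U` and `W`,
and `G B W = 4 * cm B W - 7 * |W|`.
-/

set_option autoImplicit false

namespace Pool.Agent.Hyp6

open Finset Pool.Agent.Hyp5

variable {V : Type*} [DecidableEq V] {ι : Type*} [Fintype ι]

/-- the number of blocks meeting `W`. -/
def cm (B : ι → Finset V) (W : Finset V) : ℕ := (tch B W).card

/-- the blocks meeting `U` and `W`. -/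
def cxs (B : ι → Finset V) (U W : Finset V) : Finset ι :=
  univ.filter (fun i => (B i ∩ U).Nonempty ∧ (B i ∩ W).Nonempty)

/-- the number of blocks meeting `U` and `W`. -/
def cx (B : ι → Finset V) (U W : Finset V) : ℕ := (cxs B U W).card

/-- the blocks meeting `W` in exactly `k` points. -/
def trs (B : ι → Finset V) (W : Finset V) (k : ℕ) : Finset ι :=
  univ.filter (fun i => (B i ∩ W).card = k)

/-- the number of blocks meeting `W` in exactly `k` points. -/
def nt (B : ι → Finset V) (W : Finset V) (k : ℕ) : ℕ := (trs B W k).card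

/-- the number `4 c(W) - 7 |W|`. -/
def G (B : ι → Finset V) (W : Finset V) : ℤ := 4 * (cm B W : ℤ) - 7 * (W.card : ℤ)

variable {B : ι → Finset V}

theorem mem_cxs {U W : Finset V} {i : ι} :
    i ∈ cxs B U W ↔ (B i ∩ U).Nonempty ∧ (B i ∩ W).Nonempty := by simp [cxs]

theorem mem_trs {W : Finset V} {k : ℕ} {i : ι} : i ∈ trs B W k ↔ (B i ∩ W).card = k := by
  simp [trs]

theorem tch_union [DecidableEq ι] (U W : Finset V) : tch B (U ∪ W) = tch B U ∪ tch B W := by
  ext i
  rw [mem_union, cost_mem_tch, cost_mem_tch, cost_mem_tch, inter_union_distrib_left,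
    union_nonempty]

@[simp] theorem cm_empty : cm B ∅ = 0 := by simp [cm, tch]

@[simp] theorem G_empty : G B ∅ = 0 := by simp [G]

theorem cm_union (U W : Finset V) : cm B (U ∪ W) + cx B U W = cm B U + cm B W := by
  classical
  have h1 : cxs B U W = tch B U ∩ tch B W := by
    ext i
    rw [mem_cxs, mem_inter, cost_mem_tch, cost_mem_tch]
  unfold cm cx
  rw [tch_union, h1]
  exact card_union_add_card_inter _ _

theorem G_union {U W : Finset V} (hd : Disjoint U W) :
    G B (U ∪ W) = G B U + G B W - 4 * (cx B U W : ℤ) := by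
  have h1 := cm_union (B := B) U W
  have h2 := card_union_of_disjoint hd
  unfold G
  have h3 : ((cm B (U ∪ W) : ℕ) : ℤ) + cx B U W = cm B U + cm B W := by exact_mod_cast h1
  have h4 : ((U ∪ W).card : ℤ) = U.card + W.card := by exact_mod_cast h2
  linarith

theorem cx_eq_zero {U W : Finset V} (h : Sep B U W) : cx B U W = 0 := by
  unfold cx
  rw [card_eq_zero]
  ext i
  rw [mem_cxs]
  simp only [notMem_empty, iff_false]
  exact fun hi => h i hi.1 hi.2

theorem cx_comm (U W : Finset V) : cx B U W = cx B W U := by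
  unfold cx cxs
  congr 1
  ext i
  simp [and_comm]

theorem cx_mono {U W U' W' : Finset V} (h1 : U ⊆ U') (h2 : W ⊆ W') : cx B U W ≤ cx B U' W' := by
  refine card_le_card fun i hi => ?_
  rw [mem_cxs] at hi ⊢
  exact ⟨hi.1.mono (inter_subset_inter_left h1), hi.2.mono (inter_subset_inter_left h2)⟩

theorem cm_mono {U W : Finset V} (h : U ⊆ W) : cm B U ≤ cm B W := card_le_card (tch_mono h)

theorem cm_add {U W : Finset V} (h : Sep B U W) : cm B (U ∪ W) = cm B U + cm B W := by
  have h1 := cm_union (B := B) U W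
  rw [cx_eq_zero h] at h1
  exact h1

theorem G_add {U W : Finset V} (hd : Disjoint U W) (h : Sep B U W) :
    G B (U ∪ W) = G B U + G B W := by
  rw [G_union hd, cx_eq_zero h]
  simp

theorem cm_biUnion {F : Finset (Finset V)} (h : SepF B F) :
    cm B (F.biUnion id) = ∑ C ∈ F, cm B C := by
  classical
  induction F using Finset.induction_on with
  | empty => simp
  | insert C F hC ih =>
    have hne : ∀ D ∈ F, C ≠ D := fun D hD he => hC (he ▸ hD)
    rw [biUnion_insert, sum_insert hC]
    simp only [id]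
    rw [cm_add (sep_biUnion fun D hD =>
      (h C (mem_insert_self _ _) D (mem_insert_of_mem hD) (hne D hD)).2)]
    rw [ih (h.mono (subset_insert _ _))]

omit [Fintype ι] in
theorem card_biUnion_sepF {F : Finset (Finset V)} (h : SepF B F) :
    (F.biUnion id).card = ∑ C ∈ F, C.card := by
  rw [card_biUnion]
  · rfl
  · intro C hC D hD hne
    exact (h C hC D hD hne).1

theorem G_biUnion {F : Finset (Finset V)} (h : SepF B F) :
    G B (F.biUnion id) = ∑ C ∈ F, G B C := by
  unfold G
  rw [cm_biUnion h, card_biUnion_sepF h, sum_sub_distrib, ← mul_sum, ← mul_sum]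
  push_cast
  rfl

/-- the blocks meeting `Q` whose trace lies in `X`. -/
def ins (B : ι → Finset V) (Q X : Finset V) : Finset ι :=
  univ.filter (fun i => (B i ∩ Q).Nonempty ∧ B i ∩ Q ⊆ X)

theorem mem_ins {Q X : Finset V} {i : ι} :
    i ∈ ins B Q X ↔ (B i ∩ Q).Nonempty ∧ B i ∩ Q ⊆ X := by simp [ins]

theorem cm_sdiff (Q X : Finset V) : cm B Q = cm B (Q \ X) + (ins B Q X).card := by
  classical
  unfold cm
  rw [← card_union_of_disjoint]
  · congr 1
    ext i
    rw [mem_union, mem_ins, cost_mem_tch, cost_mem_tch]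
    constructor
    · intro h
      by_cases h1 : B i ∩ Q ⊆ X
      · exact Or.inr ⟨h, h1⟩
      · left
        rw [not_subset] at h1
        obtain ⟨v, hv, hvX⟩ := h1
        rw [mem_inter] at hv
        exact ⟨v, mem_inter.2 ⟨hv.1, mem_sdiff.2 ⟨hv.2, hvX⟩⟩⟩
    · rintro (h | h)
      · exact h.mono (inter_subset_inter_left sdiff_subset)
      · exact h.1
  · rw [disjoint_left]
    intro i h1 h2
    rw [cost_mem_tch] at h1
    rw [mem_ins] at h2
    obtain ⟨v, hv⟩ := h1
    rw [mem_inter, mem_sdiff] at hv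
    exact hv.2.2 (h2.2 (mem_inter.2 ⟨hv.1, hv.2.1⟩))

/-- the blocks meeting `Q` are counted by a separated family, the rest and the blocks whose trace lies
in `X`. -/
theorem cm_sys {Q X : Finset V} {F : Finset (Finset V)} (hF : FCSys (gr B) (Q \ X) F) :
    cm B Q = ∑ C ∈ F, cm B C + cm B ((Q \ X) \ F.biUnion id) + (ins B Q X).card := by
  have h1 : Closed (gr B) (Q \ X) (F.biUnion id) := Closed.biUnion hF.closed
  have h2 : Q \ X = F.biUnion id ∪ ((Q \ X) \ F.biUnion id) := (union_sdiff_of_subset h1.1).symm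
  have h3 : Sep B (F.biUnion id) ((Q \ X) \ F.biUnion id) :=
    sep_of_closed h1 sdiff_subset disjoint_sdiff
  rw [cm_sdiff Q X]
  congr 1
  conv_lhs => rw [h2]
  rw [cm_add h3, cm_biUnion (sepF_of_fcSys hF)]

theorem G_sys {Q X : Finset V} {F : Finset (Finset V)} (hX : X ⊆ Q)
    (hF : FCSys (gr B) (Q \ X) F) :
    G B Q = ∑ C ∈ F, G B C + G B ((Q \ X) \ F.biUnion id) + 4 * ((ins B Q X).card : ℤ) -
      7 * (X.card : ℤ) := by
  have h1 : Closed (gr B) (Q \ X) (F.biUnion id) := Closed.biUnion hF.closed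
  have h4 := cm_sys hF
  have h5 : Q.card = ∑ C ∈ F, C.card + ((Q \ X) \ F.biUnion id).card + X.card := by
    rw [← card_biUnion_sepF (sepF_of_fcSys hF), ← card_sdiff_add_card_eq_card hX,
      add_comm (F.biUnion id).card, card_sdiff_add_card_eq_card h1.1]
  unfold G
  rw [h4, h5, sum_sub_distrib, ← mul_sum, ← mul_sum]
  push_cast
  ring

end Pool.Agent.Hyp6
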