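import Pool.Agent.Hyp6.Cnt

/-!
# HYP6: incidences

Lower bounds of `G B W` from the sizes of the traces of the blocks.
-/

set_option autoImplicit false

namespace Pool.Agent.Hyp6

open Finset Pool.Agent.Hyp5

variable {V : Type*} [DecidableEq V] {ι : Type*} [Fintype ι] {B : ι → Finset V}

theorem trs_sub_tch {W : Finset V} {k : ℕ} (hk : 1 ≤ k) : trs B W k ⊆ tch B W := by
  intro i hi
  rw [mem_trs] at hi
  rw [cost_mem_tch, ← card_pos]
  omega

/-- traces of size one, two, three: their number. -/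
theorem cm_eq3 {W : Finset V} (hs : ∀ i, (B i ∩ W).card ≤ 3) :
    cm B W = nt B W 1 + nt B W 2 + nt B W 3 := by
  have h1 : ∀ i, (if (B i ∩ W).Nonempty then 1 else 0 : ℕ) =
      (if (B i ∩ W).card = 1 then 1 else 0) + (if (B i ∩ W).card = 2 then 1 else 0) +
        (if (B i ∩ W).card = 3 then 1 else 0) := by
    intro i
    have h2 := hs i
    by_cases h3 : (B i ∩ W).Nonempty
    · rw [if_pos h3]
      rw [← card_pos] at h3
      split_ifs <;> omega
    · rw [if_neg h3]
      rw [not_nonempty_iff_eq_empty, ← card_eq_zero] at h3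
      rw [h3]
      norm_num
  unfold cm nt tch trs
  simp only [card_filter]
  rw [← sum_add_distrib, ← sum_add_distrib]
  exact sum_congr rfl fun i _ => h1 i

/-- the incidences of `W`. -/
theorem inc_eq3 {W : Finset V} (hr : Reg B W) (hs : ∀ i, (B i ∩ W).card ≤ 3) :
    5 * W.card = nt B W 1 + 2 * nt B W 2 + 3 * nt B W 3 := by
  rw [← sum_inc hr]
  have h1 : ∀ i, (B i ∩ W).card =
      (if (B i ∩ W).card = 1 then 1 else 0) + 2 * (if (B i ∩ W).card = 2 then 1 else 0) +
        3 * (if (B i ∩ W).card = 3 then 1 else 0) := by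
    intro i
    have h2 := hs i
    split_ifs <;> omega
  unfold nt trs
  simp only [card_filter]
  rw [mul_sum, mul_sum, ← sum_add_distrib, ← sum_add_distrib]
  exact sum_congr rfl fun i _ => h1 i

theorem small_trace {W : Finset V} (hs : Small B) (i : ι) : (B i ∩ W).card ≤ 3 :=
  (card_le_card inter_subset_left).trans (hs i)

/-- `3 G(W) + |W| = 8 n1 + 4 n2` in terms of the traces. -/
theorem G_eq3 {W : Finset V} (hr : Reg B W) (hs : ∀ i, (B i ∩ W).card ≤ 3) :
    3 * G B W + W.card = 8 * (nt B W 1 : ℤ) + 4 * (nt B W 2 : ℤ) := by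
  have h1 := cm_eq3 hs
  have h2 := inc_eq3 hr hs
  unfold G
  rw [h1]
  have h3 : (5 * W.card : ℤ) = nt B W 1 + 2 * nt B W 2 + 3 * nt B W 3 := by exact_mod_cast h2
  push_cast
  linarith

/-- if no trace has three points, then `G(W) = 3 |W| + 2 n1`. -/
theorem G_eq2 {W : Finset V} (hr : Reg B W) (hs : ∀ i, (B i ∩ W).card ≤ 2) :
    G B W = 3 * (W.card : ℤ) + 2 * (nt B W 1 : ℤ) := by
  have h0 : nt B W 3 = 0 := by
    unfold nt
    rw [card_eq_zero]
    ext i
    rw [mem_trs]
    have := hs i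
    simp only [notMem_empty, iff_false]
    omega
  have hs3 : ∀ i, (B i ∩ W).card ≤ 3 := fun i => (hs i).trans (by norm_num)
  have h1 := cm_eq3 hs3
  have h2 := inc_eq3 hr hs3
  rw [h0] at h1 h2
  unfold G
  rw [h1]
  have h3 : (5 * W.card : ℤ) = nt B W 1 + 2 * nt B W 2 + 3 * (0 : ℕ) := by exact_mod_cast h2
  push_cast at h3 ⊢
  linarith

theorem cm_singleton {v : V} (hr : Reg B {v}) : cm B {v} = 5 := by
  rw [← hr v (mem_singleton_self v)]
  unfold cm tch
  congr 1
  ext i
  rw [mem_filter, mem_filter]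
  constructor
  · rintro ⟨h, w, hw⟩
    rw [mem_inter, mem_singleton] at hw
    exact ⟨h, hw.2 ▸ hw.1⟩
  · rintro ⟨h, hv⟩
    exact ⟨h, v, mem_inter.2 ⟨hv, mem_singleton_self v⟩⟩

theorem G_singleton {v : V} (hr : Reg B {v}) : G B {v} = 13 := by
  unfold G
  rw [cm_singleton hr, card_singleton]
  norm_num

/-- `G(W)` is congruent to `|W|` modulo `4`. -/
theorem G_mod (W : Finset V) : (G B W - (W.card : ℤ)) % 4 = 0 := by
  unfold G
  omega

theorem cm_lower {W : Finset V} (hr : Reg B W) (hs : ∀ i, (B i ∩ W).card ≤ 3) :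
    5 * W.card ≤ 3 * cm B W := by
  have h1 := cm_eq3 hs
  have h2 := inc_eq3 hr hs
  omega

theorem cx_singleton_le {v : V} {W : Finset V} (hr : Reg B {v}) : cx B {v} W ≤ 5 := by
  rw [← cm_singleton hr]
  refine card_le_card fun i hi => ?_
  rw [mem_cxs] at hi
  rw [cost_mem_tch]
  exact hi.1

end Pool.Agent.Hyp6
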