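import Pool.Agent.Hyp5.SysB

/-!
# HYP6 COMPLOW: tight systems with low members and maximal `X`, and the even components

Module B of the odd case of the level-3 growth theorem. `Q` is a low factor-critical set (`Bad B Q`: no
inner triple has a complement with a perfect matching). `exists_max_low`: for an inner triple `i` there
is a tight system `(X, F)` with `B i ⊆ X` and all members low, with `X` as large as possible.
`comp_low`: for a connected component `R` of the even rest of such a system and a point `x` of `X`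
adjacent to `R` the set `insert x R` is factor-critical and low.
-/

set_option autoImplicit false

namespace Pool.Agent.Hyp6

open Finset Pool.Agent.Hyp5

section Graph

variable {V : Type*} [DecidableEq V] {G : SimpleGraph V}

/-- `R` is nonempty and has no proper nonempty closed subset. -/
def Conn (G : SimpleGraph V) (R : Finset V) : Prop :=
  R.Nonempty ∧ ∀ Z : Finset V, Closed G R Z → Z.Nonempty → Z = R

theorem closed_trans {W R Z : Finset V} (hR : Closed G W R) (hZ : Closed G R Z) : Closed G W Z :=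
  ⟨hZ.1.trans hR.1, fun x hx y hy hxy => hZ.2 x hx y (hR.2 x (hZ.1 hx) y hy hxy) hxy⟩

theorem closed_inter {W C D : Finset V} (hC : Closed G W C) (hD : Closed G W D) :
    Closed G W (C ∩ D) := by
  refine ⟨inter_subset_left.trans hC.1, fun x hx y hy hxy => ?_⟩
  rw [mem_inter] at hx ⊢
  exact ⟨hC.2 x hx.1 y hy hxy, hD.2 x hx.2 y hy hxy⟩

theorem closed_sdiff {W C D : Finset V} (hC : Closed G W C) (hD : Closed G W D) :
    Closed G W (C \ D) := by
  refine ⟨sdiff_subset.trans hC.1, fun x hx y hy hxy => ?_⟩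
  rw [mem_sdiff] at hx ⊢
  exact ⟨hC.2 x hx.1 y hy hxy, fun h => hx.2 (hD.2 y h x (hC.1 hx.1) hxy.symm)⟩

/-- a nonempty closed set contains a connected closed set. -/
theorem exists_conn {W R : Finset V} (hR : Closed G W R) (hne : R.Nonempty) :
    ∃ Z ⊆ R, Closed G W Z ∧ Conn G Z := by
  classical
  have hex : ∃ k : ℕ, ∃ Z ⊆ R, Closed G W Z ∧ Z.Nonempty ∧ Z.card = k :=
    ⟨R.card, R, Subset.refl _, hR, hne, rfl⟩
  obtain ⟨Z, hZR, hZ, hZne, hk⟩ := Nat.find_spec hex
  refine ⟨Z, hZR, hZ, hZne, fun Y hY hYne => ?_⟩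
  have h1 : Nat.find hex ≤ Y.card :=
    Nat.find_min' hex ⟨Y, hY.1.trans hZR, closed_trans hZ hY, hYne, rfl⟩
  rw [← hk] at h1
  exact eq_of_subset_of_card_le hY.1 h1

/-- a closed set is the disjoint union of connected closed sets. -/
theorem exists_conn_family {W : Finset V} : ∀ {R : Finset V}, Closed G W R →
    ∃ K : Finset (Finset V), (∀ C ∈ K, Closed G W C ∧ Conn G C) ∧
      (∀ C ∈ K, ∀ D ∈ K, C ≠ D → Disjoint C D) ∧ K.biUnion id = R := by
  classical
  intro R
  induction R using Finset.strongInduction with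
  | H R ih =>
    intro hR
    rcases R.eq_empty_or_nonempty with rfl | hne
    · exact ⟨∅, by simp, by simp, by simp⟩
    obtain ⟨Z, hZR, hZ, hZc⟩ := exists_conn hR hne
    have hss : R \ Z ⊂ R := by
      refine ⟨sdiff_subset, fun h => ?_⟩
      obtain ⟨z, hz⟩ := hZc.1
      exact (mem_sdiff.1 (h (hZR hz))).2 hz
    obtain ⟨K, hK1, hK2, hK3⟩ := ih (R \ Z) hss (closed_sdiff hR hZ)
    have hdis : ∀ C ∈ K, Disjoint Z C := by
      intro C hC
      rw [Finset.disjoint_left]
      intro y hy hy'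
      have h1 : y ∈ R \ Z := by
        rw [← hK3]
        exact mem_biUnion.2 ⟨C, hC, hy'⟩
      exact (mem_sdiff.1 h1).2 hy
    refine ⟨insert Z K, ?_, ?_, ?_⟩
    · intro C hC
      rcases mem_insert.1 hC with rfl | hC
      · exact ⟨hZ, hZc⟩
      · exact hK1 C hC
    · intro C hC D hD hne
      rcases mem_insert.1 hC with h | hC
      · rcases mem_insert.1 hD with h' | hD
        · exact absurd (h.trans h'.symm) hne
        · rw [h]; exact hdis D hD
      · rcases mem_insert.1 hD with h' | hD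
        · rw [h']; exact (hdis C hC).symm
        · exact hK2 C hC D hD hne
    · rw [biUnion_insert, hK3]
      simp only [id]
      exact union_sdiff_of_subset hZR

/-- the easy half of the theorem of Tutte. -/
theorem pm_odd_le {W A : Finset V} {F : Finset (Finset V)} (h : PM G W)
    (hF : OddSys G (W \ A) F) : F.card ≤ A.card := by
  classical
  obtain ⟨f, hf⟩ := h
  have hCW : ∀ C ∈ F, ∀ v ∈ C, v ∈ W := fun C hC v hv =>
    (mem_sdiff.1 ((hF.closed C hC).1 hv)).1
  have hpart : ∀ C ∈ F, ∃ v ∈ C, f v ∈ A := by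
    intro C hC
    by_contra hcon
    push Not at hcon
    have hpm : PM G C := by
      refine ⟨f, fun v hv => ?_⟩
      obtain ⟨h1, h2, h3⟩ := hf v (hCW C hC v hv)
      exact ⟨(hF.closed C hC).2 v hv (f v) (mem_sdiff.2 ⟨h1, hcon v hv⟩) h3, h2, h3⟩
    exact (Nat.not_even_iff_odd.2 (hF.odd C hC)) hpm.even
  rcases F.eq_empty_or_nonempty with rfl | ⟨C0, hC0⟩
  · simp
  obtain ⟨v0, _⟩ := hpart C0 hC0
  haveI : Nonempty V := ⟨v0⟩
  choose! g hg using hpart
  refine card_le_card_of_injOn (fun C => f (g C)) (fun C hC => (hg C hC).2) ?_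
  intro C hC D hD hCD
  simp only at hCD
  have hC' : C ∈ F := hC
  have hD' : D ∈ F := hD
  have h2 : g C = g D := by
    rw [← (hf _ (hCW C hC' _ (hg C hC').1)).2.1, hCD, (hf _ (hCW D hD' _ (hg D hD').1)).2.1]
  by_contra hne
  exact (Finset.disjoint_left.1 (hF.disj C hC' D hD' hne)) (hg C hC').1 (h2 ▸ (hg D hD').1)

theorem nbr_sub (A : Finset V) (T : Finset (Finset V)) : nbr G A T ⊆ A := by
  intro x hx
  exact (sysB_mem_nbr.1 hx).1

/-- the minimal deficient subfamily. -/
theorem exists_min_deficient {A : Finset V} {F : Finset (Finset V)}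
    (hd : ∀ T ⊆ F, T.card ≤ (nbr G A T).card + 1) (hF : A.card + 1 ≤ F.card) :
    ∃ T ⊆ F, T.card = (nbr G A T).card + 1 ∧
      ∀ C ∈ T, ∀ T' ⊆ F.erase C, T'.card ≤ (nbr G A T').card := by
  classical
  have hex : ∃ k : ℕ, ∃ T ⊆ F, T.card = (nbr G A T).card + 1 ∧ T.card = k := by
    refine ⟨F.card, F, Subset.refl _, ?_, rfl⟩
    have h1 := hd F (Subset.refl _)
    have h2 := card_le_card (nbr_sub (G := G) A F)
    omega
  obtain ⟨T, hTF, hT, hk⟩ := Nat.find_spec hex
  refine ⟨T, hTF, hT, fun C hC T' hT' => ?_⟩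
  by_contra hcon
  push Not at hcon
  have hT'F : T' ⊆ F := hT'.trans (erase_subset _ _)
  have h1 := hd T' hT'F
  have h2 := hd (T ∪ T') (union_subset hTF hT'F)
  have h3 := hd (T ∩ T') (inter_subset_left.trans hTF)
  have h4 := card_union_add_card_inter T T'
  have h5 := card_union_add_card_inter (nbr G A T) (nbr G A T')
  rw [← sysB_nbr_union] at h5
  have h6 := card_le_card (sysB_nbr_inter_sub (G := G) A T T')
  have h7 : Nat.find hex ≤ (T ∩ T').card :=
    Nat.find_min' hex ⟨T ∩ T', inter_subset_left.trans hTF, by omega, rfl⟩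
  have h8 : (T ∩ T').card < T.card := by
    refine card_lt_card ⟨inter_subset_left, fun h => ?_⟩
    exact (mem_erase.1 (hT' (mem_inter.1 (h hC)).2)).1 rfl
  omega

/-- in a tight system of a factor-critical set, `X` without one point is matched with the members. -/
theorem tight_erase_pm {Q X : Finset V} {F : Finset (Finset V)} (hQ : FC G Q)
    (ht : Tight G Q X F) {x : V} (hx : x ∈ X) : PM G (X.erase x ∪ F.biUnion id) := by
  classical
  have hne : X.Nonempty := ⟨x, hx⟩
  refine pm_of_hall ht.sys.fc ht.sys.disj ?_ ?_ ?_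
  · intro C hC
    rw [Finset.disjoint_left]
    intro y hy hy'
    exact (mem_sdiff.1 ((ht.sys.closed C hC).1 hy)).2 (mem_of_mem_erase hy')
  · rw [card_erase_of_mem hx, ← ht.card]
    rfl
  · intro T hT
    rcases T.eq_empty_or_nonempty with rfl | hTne
    · simp
    have h1 := hQ.hall ht.sub hne ht.sys.oddSys hT hTne
    have h2 : nbr G (X.erase x) T = (nbr G X T).erase x := by
      ext y
      simp only [sysB_mem_nbr, mem_erase]
      tauto
    rw [h2]
    have h3 := pred_card_le_card_erase (s := nbr G X T) (a := x)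
    omega

/-- a set `S` inside `insert x R`, where `R` is a closed part of the even rest, whose complement in
`insert x R` has a perfect matching. -/
theorem pm_through {Q X : Finset V} {F : Finset (Finset V)} (hQ : FC G Q) (ht : Tight G Q X F)
    {x : V} (hx : x ∈ X) {R : Finset V} (hRc : Closed G (Q \ X) R)
    (hRF : ∀ C ∈ F, Disjoint C R) {S : Finset V} (hS : S ⊆ insert x R)
    (hpm : PM G (insert x R \ S)) : PM G (Q \ S) := by
  classical
  have hRest := ht.rest_pm hQ
  have hRr : R ⊆ (Q \ X) \ F.biUnion id := by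
    intro y hy
    refine mem_sdiff.2 ⟨hRc.1 hy, fun h => ?_⟩
    obtain ⟨C, hC, hyC⟩ := mem_biUnion.1 h
    exact (Finset.disjoint_left.1 (hRF C hC)) hyC hy
  have hRcl : Closed G ((Q \ X) \ F.biUnion id) R := hRc.mono hRr sdiff_subset
  have h1 : PM G (((Q \ X) \ F.biUnion id) \ R) := hRest.restrict hRcl.compl
  have h2 := tight_erase_pm hQ ht hx
  have hCX : ∀ C ∈ F, ∀ y ∈ C, y ∈ Q ∧ y ∉ X := fun C hC y hy =>
    mem_sdiff.1 ((ht.sys.closed C hC).1 hy)
  have h3 : PM G ((insert x R \ S) ∪ (X.erase x ∪ F.biUnion id)) := by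
    refine hpm.union h2 ?_
    rw [Finset.disjoint_left]
    intro y hy hy'
    rcases mem_insert.1 (mem_sdiff.1 hy).1 with h | h
    · rcases mem_union.1 hy' with h' | h'
      · exact (mem_erase.1 h').1 h
      · obtain ⟨C, hC, hyC⟩ := mem_biUnion.1 h'
        rw [h] at hyC
        exact (hCX C hC x hyC).2 hx
    · rcases mem_union.1 hy' with h' | h'
      · exact (mem_sdiff.1 (hRc.1 h)).2 (mem_of_mem_erase h')
      · obtain ⟨C, hC, hyC⟩ := mem_biUnion.1 h'
        exact (Finset.disjoint_left.1 (hRF C hC)) hyC h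
  have h4 : PM G (((insert x R \ S) ∪ (X.erase x ∪ F.biUnion id)) ∪
      (((Q \ X) \ F.biUnion id) \ R)) := by
    refine h3.union h1 ?_
    rw [Finset.disjoint_left]
    intro y hy hy'
    simp only [mem_sdiff] at hy'
    rcases mem_union.1 hy with h | h
    · rcases mem_insert.1 (mem_sdiff.1 h).1 with h | h
      · exact hy'.1.1.2 (h ▸ hx)
      · exact hy'.2 h
    · rcases mem_union.1 h with h | h
      · exact hy'.1.1.2 (mem_of_mem_erase h)
      · exact hy'.1.2 h
  have h5 : ((insert x R \ S) ∪ (X.erase x ∪ F.biUnion id)) ∪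
      (((Q \ X) \ F.biUnion id) \ R) = Q \ S := by
    ext y
    simp only [mem_union, mem_sdiff, mem_insert, mem_erase]
    constructor
    · rintro ((⟨h | h, h'⟩ | h | h) | h)
      · exact ⟨h ▸ ht.sub hx, h'⟩
      · exact ⟨(mem_sdiff.1 (hRc.1 h)).1, h'⟩
      · refine ⟨ht.sub h.2, fun hyS => ?_⟩
        rcases mem_insert.1 (hS hyS) with h' | h'
        · exact h.1 h'
        · exact (mem_sdiff.1 (hRc.1 h')).2 h.2
      · obtain ⟨C, hC, hyC⟩ := mem_biUnion.1 h
        refine ⟨(hCX C hC y hyC).1, fun hyS => ?_⟩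
        rcases mem_insert.1 (hS hyS) with h' | h'
        · exact (hCX C hC y hyC).2 (h' ▸ hx)
        · exact (Finset.disjoint_left.1 (hRF C hC)) hyC h'
      · refine ⟨h.1.1.1, fun hyS => ?_⟩
        rcases mem_insert.1 (hS hyS) with h' | h'
        · exact h.1.1.2 (h' ▸ hx)
        · exact h.2 h'
    · rintro ⟨hyQ, hyS⟩
      by_cases h1 : y = x
      · exact Or.inl (Or.inl ⟨Or.inl h1, hyS⟩)
      by_cases h2 : y ∈ X
      · exact Or.inl (Or.inr (Or.inl ⟨h1, h2⟩))
      by_cases h3 : y ∈ F.biUnion id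
      · exact Or.inl (Or.inr (Or.inr h3))
      by_cases h4 : y ∈ R
      · exact Or.inl (Or.inl ⟨Or.inr h4, hyS⟩)
      · exact Or.inr ⟨⟨⟨hyQ, h2⟩, h3⟩, h4⟩
  rw [h5] at h4
  exact h4

end Graph

section Blocks

variable {V : Type*} [DecidableEq V] {ι : Type*} [Fintype ι] {B : ι → Finset V}

/-- for an inner triple of a low factor-critical set there is a tight system with low members whose
`X` contains the triple, and one with the largest possible `X`. -/
theorem exists_max_low {Q : Finset V} (hQ : FC (gr B) Q) (hb : Bad B Q) {i : ι}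
    (hi : Inner B Q i) :
    ∃ (X : Finset V) (F : Finset (Finset V)), B i ⊆ X ∧ Tight (gr B) Q X F ∧
      (∀ C ∈ F, Bad B C) ∧
      ∀ (X' : Finset V) (F' : Finset (Finset V)), B i ⊆ X' → Tight (gr B) Q X' F' →
        (∀ C ∈ F', Bad B C) → X'.card ≤ X.card := by
  classical
  obtain ⟨X, F, hBX, ht, hmin⟩ := exists_min_tight hQ hi.1 hi.2 (hb i hi)
  have hcl : ∀ x ∈ B i, ∀ y ∈ B i, x ≠ y → (gr B).Adj x y := fun x hx y hy hne =>
    ⟨hne, i, hx, hy⟩
  have hCQ : ∀ C ∈ F, C ⊆ Q := fun C hC => ((ht.sys.closed C hC).1).trans sdiff_subset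
  have hbad : ∀ C ∈ F, Bad B C := by
    intro C hC j hj hpm
    exact hb j ⟨hj.1.trans (hCQ C hC), hj.2⟩
      (good_comp hQ hi.2 hcl hBX ht hmin hC hj.1 hpm)
  have hex : ∃ k : ℕ, ∃ (X : Finset V) (F : Finset (Finset V)), B i ⊆ X ∧
      Tight (gr B) Q X F ∧ (∀ C ∈ F, Bad B C) ∧ X.card + k = Q.card := by
    refine ⟨Q.card - X.card, X, F, hBX, ht, hbad, ?_⟩
    have := card_le_card ht.sub
    omega
  obtain ⟨X₁, F₁, h1, h2, h3, h4⟩ := Nat.find_spec hex
  refine ⟨X₁, F₁, h1, h2, h3, fun X' F' h1' h2' h3' => ?_⟩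
  have h5 := card_le_card h2'.sub
  have h6 : Nat.find hex ≤ Q.card - X'.card :=
    Nat.find_min' hex ⟨X', F', h1', h2', h3', by omega⟩
  omega

/-- low: a good inner triple of `insert x R` would be a good inner triple of `Q`. -/
theorem comp_bad {Q X : Finset V} {F : Finset (Finset V)} (hQ : FC (gr B) Q) (hb : Bad B Q)
    (ht : Tight (gr B) Q X F) {x : V} (hx : x ∈ X) {R : Finset V}
    (hRc : Closed (gr B) (Q \ X) R) (hRF : ∀ C ∈ F, Disjoint C R) : Bad B (insert x R) := by
  intro j hj hpm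
  have hsub : insert x R ⊆ Q := insert_subset (ht.sub hx) (hRc.1.trans sdiff_subset)
  exact hb j ⟨hj.1.trans hsub, hj.2⟩ (pm_through hQ ht hx hRc hRF hj.1 hpm)

/-- the component lemma. -/
theorem comp_low {Q P X : Finset V} {F : Finset (Finset V)} (hQ : FC (gr B) Q) (hb : Bad B Q)
    (hPX : P ⊆ X) (ht : Tight (gr B) Q X F) (hlow : ∀ C ∈ F, Bad B C)
    (hmax : ∀ (X' : Finset V) (F' : Finset (Finset V)), P ⊆ X' → Tight (gr B) Q X' F' →
      (∀ C ∈ F', Bad B C) → X'.card ≤ X.card)
    {R : Finset V} (hRc : Closed (gr B) (Q \ X) R) (hRF : ∀ C ∈ F, Disjoint C R)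
    (hR : Conn (gr B) R) {x : V} (hx : x ∈ X) (hadj : ∃ y ∈ R, (gr B).Adj x y) :
    FC (gr B) (insert x R) ∧ Bad B (insert x R) := by
  classical
  refine ⟨?_, comp_bad hQ hb ht hx hRc hRF⟩
  have hXne : X.Nonempty := ⟨x, hx⟩
  have hxR : x ∉ R := fun h => (mem_sdiff.1 (hRc.1 h)).2 hx
  have hRX : ∀ y ∈ R, y ∈ Q ∧ y ∉ X := fun y hy => mem_sdiff.1 (hRc.1 hy)
  have hRest := ht.rest_pm hQ
  have hRr : R ⊆ (Q \ X) \ F.biUnion id := by
    intro y hy
    refine mem_sdiff.2 ⟨hRc.1 hy, fun h => ?_⟩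
    obtain ⟨C, hC, hyC⟩ := mem_biUnion.1 h
    exact (Finset.disjoint_left.1 (hRF C hC)) hyC hy
  have hRpm : PM (gr B) R := hRest.restrict (hRc.mono hRr sdiff_subset)
  obtain ⟨A, E, _, hAW, hE, hEr, hEmax⟩ := exists_sys (gr B) (insert x R) ∅ (empty_subset _)
  have hmax0 := hEmax ∅ ∅ (Subset.refl _) (empty_subset _)
    ⟨fun C hC => absurd hC (notMem_empty C), fun C hC => absurd hC (notMem_empty C),
      fun C hC => absurd hC (notMem_empty C)⟩
  rw [card_empty, card_empty] at hmax0
  have hdef : ∀ T ⊆ E, T.card + A.card ≤ E.card + (nbr (gr B) A T).card := fun T hT =>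
    hEmax _ T (empty_subset _) ((nbr_sub A T).trans hAW) (hE.oddSys.sub_nbr hAW hT)
  have hEA : ∀ C ∈ E, Disjoint C A := by
    intro C hC
    rw [Finset.disjoint_left]
    intro y hy hy'
    exact (mem_sdiff.1 ((hE.closed C hC).1 hy)).2 hy'
  -- the deficiency is at least one
  have hge : A.card + 1 ≤ E.card := by
    by_contra hcon
    have heq : E.card = A.card := by omega
    have h1 : PM (gr B) (A ∪ E.biUnion id) :=
      pm_of_hall hE.fc hE.disj hEA heq (fun T hT => by have := hdef T hT; omega)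
    have h2 : PM (gr B) ((A ∪ E.biUnion id) ∪ ((insert x R \ A) \ E.biUnion id)) := by
      refine h1.union hEr ?_
      rw [Finset.disjoint_left]
      intro y hy hy'
      simp only [mem_sdiff] at hy'
      rcases mem_union.1 hy with h | h
      · exact hy'.1.2 h
      · exact hy'.2 h
    have h3 : (A ∪ E.biUnion id) ∪ ((insert x R \ A) \ E.biUnion id) = insert x R := by
      ext y
      simp only [mem_union, mem_sdiff]
      constructor
      · rintro ((h | h) | h)
        · exact hAW h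
        · obtain ⟨C, hC, hyC⟩ := mem_biUnion.1 h
          exact (mem_sdiff.1 ((hE.closed C hC).1 hyC)).1
        · exact h.1.1
      · intro h
        by_cases h1 : y ∈ A
        · exact Or.inl (Or.inl h1)
        by_cases h2 : y ∈ E.biUnion id
        · exact Or.inl (Or.inr h2)
        · exact Or.inr ⟨⟨h, h1⟩, h2⟩
    rw [h3] at h2
    have h4 := h2.even
    rw [card_insert_of_notMem hxR] at h4
    have h5 := hRpm.even
    exact (Nat.even_add_one.1 h4) h5
  -- the point x is not in A
  have hxA : x ∉ A := by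
    intro hxA
    have h1 : insert x R \ A = R \ A.erase x := by
      ext y
      simp only [mem_sdiff, mem_insert, mem_erase]
      constructor
      · rintro ⟨h | h, h'⟩
        · exact absurd (h ▸ hxA) h'
        · exact ⟨h, fun h2 => h' h2.2⟩
      · rintro ⟨h, h'⟩
        refine ⟨Or.inr h, fun h2 => h' ⟨?_, h2⟩⟩
        rintro rfl
        exact hxR h
    have h2 := pm_odd_le (A := A.erase x) hRpm (by rw [← h1]; exact hE.oddSys)
    rw [card_erase_of_mem hxA] at h2
    omega
  -- the point x is in a member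
  have hxE : ∃ C₀ ∈ E, x ∈ C₀ := by
    by_contra hcon
    push Not at hcon
    have h1 : OddSys (gr B) (R \ A) E := by
      refine ⟨fun C hC => ?_, hE.oddSys.odd, hE.disj⟩
      refine (hE.closed C hC).mono ?_ (sdiff_subset_sdiff (subset_insert _ _) (Subset.refl _))
      intro y hy
      have h2 := mem_sdiff.1 ((hE.closed C hC).1 hy)
      refine mem_sdiff.2 ⟨?_, h2.2⟩
      rcases mem_insert.1 h2.1 with h3 | h3
      · exact absurd (h3 ▸ hy) (hcon C hC)
      · exact h3
    have h2 := pm_odd_le hRpm h1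
    omega
  obtain ⟨C₀, hC₀, hxC₀⟩ := hxE
  have hle : E.card ≤ A.card + 1 := by
    have h1 : OddSys (gr B) (R \ A) (E.erase C₀) := by
      refine ⟨fun C hC => ?_, fun C hC => hE.oddSys.odd C (mem_of_mem_erase hC),
        fun C hC D hD hne => hE.disj C (mem_of_mem_erase hC) D (mem_of_mem_erase hD) hne⟩
      have hC' := mem_of_mem_erase hC
      refine (hE.closed C hC').mono ?_ (sdiff_subset_sdiff (subset_insert _ _) (Subset.refl _))
      intro y hy
      have h2 := mem_sdiff.1 ((hE.closed C hC').1 hy)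
      refine mem_sdiff.2 ⟨?_, h2.2⟩
      rcases mem_insert.1 h2.1 with h3 | h3
      · exact absurd hxC₀ (Finset.disjoint_left.1 (hE.disj C hC' C₀ hC₀ (ne_of_mem_erase hC))
          (h3 ▸ hy))
      · exact h3
    have h2 := pm_odd_le hRpm h1
    rw [card_erase_of_mem hC₀] at h2
    omega
  obtain ⟨T, hTE, hT, hThall⟩ := exists_min_deficient (G := gr B) (A := A) (F := E)
    (fun T hT => by have := hdef T hT; omega) hge
  -- the members of T are low
  have hWQ : insert x R ⊆ Q := insert_subset (ht.sub hx) (hRc.1.trans sdiff_subset)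
  have hTbad : ∀ C ∈ T, Bad B C := by
    intro C hC j hj hpm
    have hCE := hTE hC
    have hCW : C ⊆ insert x R := ((hE.closed C hCE).1).trans sdiff_subset
    have h1 : PM (gr B) (A ∪ (E.erase C).biUnion id) := by
      refine pm_of_hall (fun D hD => hE.fc D (mem_of_mem_erase hD))
        (fun D hD D' hD' hn => hE.disj D (mem_of_mem_erase hD) D' (mem_of_mem_erase hD') hn)
        (fun D hD => hEA D (mem_of_mem_erase hD)) ?_ (hThall C hC)
      rw [card_erase_of_mem hCE]
      omega
    have h2 : PM (gr B) ((C \ B j) ∪ (A ∪ (E.erase C).biUnion id)) := by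
      refine hpm.union h1 ?_
      rw [Finset.disjoint_left]
      intro y hy hy'
      have hyC : y ∈ C := (mem_sdiff.1 hy).1
      rcases mem_union.1 hy' with h | h
      · exact (Finset.disjoint_left.1 (hEA C hCE)) hyC h
      · obtain ⟨D, hD, hyD⟩ := mem_biUnion.1 h
        exact (Finset.disjoint_left.1 (hE.disj D (mem_of_mem_erase hD) C hCE
          (ne_of_mem_erase hD))) hyD hyC
    have h3 : PM (gr B) (((C \ B j) ∪ (A ∪ (E.erase C).biUnion id)) ∪
        ((insert x R \ A) \ E.biUnion id)) := by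
      refine h2.union hEr ?_
      rw [Finset.disjoint_left]
      intro y hy hy'
      simp only [mem_sdiff] at hy'
      rcases mem_union.1 hy with h | h
      · exact hy'.2 (mem_biUnion.2 ⟨C, hCE, (mem_sdiff.1 h).1⟩)
      · rcases mem_union.1 h with h | h
        · exact hy'.1.2 h
        · obtain ⟨D, hD, hyD⟩ := mem_biUnion.1 h
          exact hy'.2 (mem_biUnion.2 ⟨D, mem_of_mem_erase hD, hyD⟩)
    have h4 : ((C \ B j) ∪ (A ∪ (E.erase C).biUnion id)) ∪
        ((insert x R \ A) \ E.biUnion id) = insert x R \ B j := by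
      ext y
      simp only [mem_union, mem_sdiff]
      constructor
      · rintro ((h | h | h) | h)
        · exact ⟨hCW h.1, h.2⟩
        · exact ⟨hAW h, fun h' => (Finset.disjoint_left.1 (hEA C hCE)) (hj.1 h') h⟩
        · obtain ⟨D, hD, hyD⟩ := mem_biUnion.1 h
          refine ⟨(mem_sdiff.1 ((hE.closed D (mem_of_mem_erase hD)).1 hyD)).1, fun h' => ?_⟩
          exact (Finset.disjoint_left.1 (hE.disj D (mem_of_mem_erase hD) C hCE
            (ne_of_mem_erase hD))) hyD (hj.1 h')
        · exact ⟨h.1.1, fun h' => h.2 (mem_biUnion.2 ⟨C, hCE, hj.1 h'⟩)⟩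
      · rintro ⟨h, h'⟩
        by_cases h1 : y ∈ A
        · exact Or.inl (Or.inr (Or.inl h1))
        by_cases h2 : y ∈ E.biUnion id
        · obtain ⟨D, hD, hyD⟩ := mem_biUnion.1 h2
          by_cases hDC : D = C
          · subst hDC
            exact Or.inl (Or.inl ⟨hyD, h'⟩)
          · exact Or.inl (Or.inr (Or.inr (mem_biUnion.2 ⟨D, mem_erase.2 ⟨hDC, hD⟩, hyD⟩)))
        · exact Or.inr ⟨⟨h, h1⟩, h2⟩
    rw [h4] at h3
    exact comp_bad hQ hb ht hx hRc hRF j ⟨hj.1.trans hCW, hj.2⟩ h3
  -- enlarge the system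
  have hNA : nbr (gr B) A T ⊆ A := nbr_sub A T
  have hNR : nbr (gr B) A T ⊆ R := by
    intro y hy
    rcases mem_insert.1 (hAW (hNA hy)) with h | h
    · exact absurd (h ▸ hNA hy) hxA
    · exact h
  have hXN : Disjoint X (nbr (gr B) A T) := by
    rw [Finset.disjoint_left]
    intro y hy hy'
    exact (hRX y (hNR hy')).2 hy
  have hTR : ∀ C ∈ T.erase C₀, C ⊆ R ∧ Disjoint C A := by
    intro C hC
    have hCE := hTE (mem_of_mem_erase hC)
    refine ⟨fun y hy => ?_, hEA C hCE⟩
    rcases mem_insert.1 (mem_sdiff.1 ((hE.closed C hCE).1 hy)).1 with h | h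
    · exact absurd hxC₀ (Finset.disjoint_left.1 (hE.disj C hCE C₀ hC₀ (ne_of_mem_erase hC))
        (h ▸ hy))
    · exact h
  have hFT : ∀ C ∈ F, ∀ D ∈ T.erase C₀, Disjoint C D := fun C hC D hD =>
    (hRF C hC).mono_right (hTR D hD).1
  have hcardFT : (F ∪ T.erase C₀).card = F.card + (T.erase C₀).card := by
    refine card_union_of_disjoint ?_
    rw [Finset.disjoint_left]
    intro C hC hC'
    have h1 := hFT C hC C hC'
    rw [disjoint_self] at h1
    have h2 := (hE.oddSys.odd C (hTE (mem_of_mem_erase hC'))).pos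
    rw [h1] at h2
    simp at h2
  have hsys : FCSys (gr B) (Q \ (X ∪ nbr (gr B) A T)) (F ∪ T.erase C₀) := by
    have hsub : Q \ (X ∪ nbr (gr B) A T) ⊆ Q \ X :=
      sdiff_subset_sdiff (Subset.refl _) subset_union_left
    refine ⟨?_, ?_, ?_⟩
    · intro C hC
      rcases mem_union.1 hC with hC | hC
      · refine (ht.sys.closed C hC).mono ?_ hsub
        intro y hy
        have h1 := mem_sdiff.1 ((ht.sys.closed C hC).1 hy)
        refine mem_sdiff.2 ⟨h1.1, fun h2 => ?_⟩
        rcases mem_union.1 h2 with h2 | h2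
        · exact h1.2 h2
        · exact (Finset.disjoint_left.1 (hRF C hC)) hy (hNR h2)
      · have hCT := mem_of_mem_erase hC
        have hCE := hTE hCT
        obtain ⟨hCR, hCA⟩ := hTR C hC
        refine ⟨?_, ?_⟩
        · intro y hy
          refine mem_sdiff.2 ⟨(hRX y (hCR hy)).1, fun h2 => ?_⟩
          rcases mem_union.1 h2 with h2 | h2
          · exact (hRX y (hCR hy)).2 h2
          · exact (Finset.disjoint_left.1 hCA) hy (hNA h2)
        · intro z hz y hy hzy
          have hyR : y ∈ R := hRc.2 z (hCR hz) y (hsub hy) hzy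
          have hyA : y ∉ A := by
            intro hyA
            have h1 : y ∈ nbr (gr B) A T := sysB_mem_nbr.2 ⟨hyA, C, hCT, z, hz, hzy.symm⟩
            exact (mem_sdiff.1 hy).2 (mem_union_right _ h1)
          exact (hE.closed C hCE).2 z hz y (mem_sdiff.2 ⟨mem_insert_of_mem hyR, hyA⟩) hzy
    · intro C hC
      rcases mem_union.1 hC with hC | hC
      · exact ht.sys.fc C hC
      · exact hE.fc C (hTE (mem_of_mem_erase hC))
    · intro C hC D hD hne
      rcases mem_union.1 hC with hC | hC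
      · rcases mem_union.1 hD with hD | hD
        · exact ht.sys.disj C hC D hD hne
        · exact hFT C hC D hD
      · rcases mem_union.1 hD with hD | hD
        · exact (hFT D hD C hC).symm
        · exact hE.disj C (hTE (mem_of_mem_erase hC)) D (hTE (mem_of_mem_erase hD)) hne
  have hXNc : (X ∪ nbr (gr B) A T).card = X.card + (nbr (gr B) A T).card :=
    card_union_of_disjoint hXN
  have hXNQ : X ∪ nbr (gr B) A T ⊆ Q :=
    union_subset ht.sub ((hNA.trans hAW).trans hWQ)
  have hXNne : (X ∪ nbr (gr B) A T).Nonempty := ⟨x, mem_union_left _ hx⟩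
  have hle2 := hQ.sys_le hXNQ hXNne hsys.oddSys
  have htc := ht.card
  have hC₀T : C₀ ∈ T := by
    by_contra hcon
    rw [hcardFT, erase_eq_of_notMem hcon, hXNc] at hle2
    omega
  have hTc : (T.erase C₀).card + 1 = T.card := card_erase_add_one hC₀T
  have htight : Tight (gr B) Q (X ∪ nbr (gr B) A T) (F ∪ T.erase C₀) :=
    ⟨hXNQ, hsys, by omega⟩
  have hfin := hmax _ _ (hPX.trans subset_union_left) htight (by
    intro C hC
    rcases mem_union.1 hC with hC | hC
    · exact hlow C hC
    · exact hTbad C (mem_of_mem_erase hC))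
  have hN0 : nbr (gr B) A T = ∅ := by
    rw [← card_eq_zero]
    omega
  have hcl : Closed (gr B) (insert x R) C₀ := by
    refine ⟨((hE.closed C₀ hC₀).1).trans sdiff_subset, fun z hz y hy hzy => ?_⟩
    refine (hE.closed C₀ hC₀).2 z hz y (mem_sdiff.2 ⟨hy, fun hyA => ?_⟩) hzy
    have h1 : y ∈ nbr (gr B) A T := sysB_mem_nbr.2 ⟨hyA, C₀, hC₀T, z, hz, hzy.symm⟩
    rw [hN0] at h1
    exact notMem_empty _ h1
  obtain ⟨y, hy, hxy⟩ := hadj
  have hyC₀ : y ∈ C₀ := hcl.2 x hxC₀ y (mem_insert_of_mem hy) hxy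
  have h1 : C₀ ∩ R = R := by
    refine hR.2 _ ⟨inter_subset_right, fun z hz w hw hzw => ?_⟩ ⟨y, mem_inter.2 ⟨hyC₀, hy⟩⟩
    rw [mem_inter] at hz ⊢
    exact ⟨hcl.2 z hz.1 w (mem_insert_of_mem hw) hzw, hw⟩
  have h2 : C₀ = insert x R := by
    refine Subset.antisymm hcl.1 (insert_subset hxC₀ ?_)
    rw [← h1]
    exact inter_subset_left
  rw [← h2]
  exact hE.fc C₀ hC₀

end Blocks

end Pool.Agent.Hyp6
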