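import Pool.Agent.Hyp6.L4V

/-!
# HYP6 COMPS: connected sets of value at most zero

`D4 B W = 194 cm + 190 |W| - 1056 rho`, that is `44 Pv + 6 (3 cm - 5 |W|)`. A connected set with
traces of at most four points and `sv <= 0` satisfies `-88 kap <= D4`.
-/

set_option autoImplicit false

namespace Pool.Agent.Hyp6

open Finset Pool.Agent.Hyp5

universe u v

section

variable {V : Type v} [DecidableEq V] {ι : Type u} [Fintype ι]

/-- the third potential. -/
noncomputable def D4 (B : ι → Finset V) (W : Finset V) : ℤ :=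
  194 * (cm B W : ℤ) + 190 * (W.card : ℤ) - 1056 * (rho B W : ℤ)

variable {B : ι → Finset V}

theorem D4_eq (W : Finset V) :
    D4 B W = 44 * Pv B W + 6 * (3 * (cm B W : ℤ) - 5 * (W.card : ℤ)) := by
  rw [Pv_eq]
  unfold D4
  ring

theorem D4_eq' (W : Finset V) :
    2 * D4 B W = 97 * Pv B W - 108 * sv B W + 3 * (W.card : ℤ) := by
  rw [Pv_eq]
  unfold D4 sv
  ring

theorem six_kap_le (Q : Finset V) : 6 * kap B Q ≤ Q.card := by
  classical
  obtain ⟨P, hP, hc⟩ := exists_kap B Q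
  have h1 : (P.biUnion id).card = ∑ X ∈ P, X.card :=
    card_biUnion fun X hX Y hY hne => hP.disj X hX Y hY hne
  have h2 : ∑ X ∈ P, X.card = ∑ _X ∈ P, 6 := sum_congr rfl fun X hX => (hP.kp X hX).card
  have h3 : P.biUnion id ⊆ Q := by
    intro v hv
    obtain ⟨X, hX, hvX⟩ := mem_biUnion.1 hv
    exact hP.sub X hX hvX
  have h4 := card_le_card h3
  rw [h1, h2, sum_const, smul_eq_mul, hc] at h4
  omega

/-- connected sets of value at most zero. -/
theorem D4_ge (hL3 : L3e.{u} V) {C : Finset V} (hr : Reg B C) (h4 : Tr4 B C)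
    (hC : Conn (gr B) C) (hs : sv B C ≤ 0) : -88 * (kap B C : ℤ) ≤ D4 B C := by
  have h1 := D4_eq' (B := B) C
  have h2 := six_kap_le (B := B) C
  have h2' : 6 * (kap B C : ℤ) ≤ C.card := by exact_mod_cast h2
  by_cases hk : KFree B C
  · have h3 := T0 hL3 hr h4 hC
    have h5 := kap_eq_zero hk
    rw [h5] at h3 ⊢
    have h6 : Pv B C = 12 * sv B C + (4 * (cm B C : ℤ) - 7 * (C.card : ℤ)) := rfl
    have h7 : sv B C = C.card - 2 * (rho B C : ℤ) := rfl
    push_cast at h3 ⊢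
    omega
  · have h3 := T0_pos hL3 B C hr h4 hC hk
    linarith

theorem D4_biUnion {F : Finset (Finset V)} (hc : ∀ C ∈ F, Cov B C) (h : SepF B F) :
    D4 B (F.biUnion id) = ∑ C ∈ F, D4 B C := by
  have h1 := D4_eq' (B := B) (F.biUnion id)
  have h2 : ∑ C ∈ F, (2 * D4 B C) = ∑ C ∈ F, (97 * Pv B C - 108 * sv B C + 3 * (C.card : ℤ)) :=
    sum_congr rfl fun C _ => D4_eq' C
  rw [← mul_sum, sum_add_distrib, sum_sub_distrib, ← mul_sum, ← mul_sum, ← mul_sum,
    ← Pv_biUnion hc h, ← sv_biUnion hc h, ← Nat.cast_sum, ← card_biUnion_sepF h, ← h1] at h2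
  linarith

/-- a set all of whose components have value at most zero. -/
theorem D4_all (hL3 : L3e.{u} V) {W : Finset V} (hr : Reg B W) (h4 : Tr4 B W)
    (hs : ∀ C ⊆ W, Closed (gr B) W C → Conn (gr B) C → sv B C ≤ 0) :
    -88 * (kap B W : ℤ) ≤ D4 B W := by
  obtain ⟨K, hK1, hK2, hK3⟩ := exists_parts B W
  have hc : ∀ C ∈ K, Cov B C := fun C hC => (cov_of_reg hr).mono (hK1 C hC).1
  have h1 := D4_biUnion hc hK2
  rw [hK3] at h1
  have h2 : ∑ C ∈ K, (-88 * (kap B C : ℤ)) ≤ ∑ C ∈ K, D4 B C := by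
    refine sum_le_sum fun C hC => ?_
    obtain ⟨g1, g2, g3⟩ := hK1 C hC
    exact D4_ge hL3 (fun v hv => hr v (g1 hv)) (h4.mono g1) g3 (hs C g1 g2 g3)
  have h3 := sum_kap_le (B := B) (Q := W) (F := K) (fun C hC => (hK1 C hC).1)
    (fun C hC D hD hne => (hK2 C hC D hD hne).1)
  have h3' : ∑ C ∈ K, (kap B C : ℤ) ≤ kap B W := by exact_mod_cast h3
  rw [← mul_sum, ← h1] at h2
  linarith

end

end Pool.Agent.Hyp6
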