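import Pool.Agent.Hyp6.L3Non
import Pool.Agent.Hyp5.GlobalHall

/-!
# HYP6 CRITLOW: connected critical sets with negative value

A connected set all of whose points are critical and whose value is negative is factor-critical with
value `-1`.
-/

set_option autoImplicit false

namespace Pool.Agent.Hyp6

open Finset Pool.Agent.Hyp5

universe u v

variable {V : Type v} [DecidableEq V]

/-- a matching of the points of `A` with the members of `F1`. -/
theorem pm_matched {G : SimpleGraph V} {A : Finset V} {F1 : Finset (Finset V)}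
    {φ : Finset V → V} (hfc : ∀ C ∈ F1, FC G C)
    (hd : ∀ C ∈ F1, ∀ D ∈ F1, C ≠ D → Disjoint C D) (hA : ∀ C ∈ F1, Disjoint C A)
    (hφ : ∀ C ∈ F1, φ C ∈ A ∧ ∃ y ∈ C, G.Adj (φ C) y)
    (hinj : Set.InjOn φ (F1 : Set (Finset V))) (him : F1.image φ = A) :
    PM G (A ∪ F1.biUnion id) := by
  classical
  have h1 : (F1.image (fun C => insert (φ C) C)).biUnion id = A ∪ F1.biUnion id := by
    ext v
    simp only [mem_biUnion, mem_image, mem_union, id]
    constructor
    · rintro ⟨D, ⟨C, hC, rfl⟩, hv⟩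
      rcases mem_insert.1 hv with rfl | hv
      · exact Or.inl (hφ C hC).1
      · exact Or.inr ⟨C, hC, hv⟩
    · rintro (hv | ⟨C, hC, hv⟩)
      · rw [← him] at hv
        obtain ⟨C, hC, rfl⟩ := mem_image.1 hv
        exact ⟨_, ⟨C, hC, rfl⟩, mem_insert_self _ _⟩
      · exact ⟨_, ⟨C, hC, rfl⟩, mem_insert_of_mem hv⟩
  rw [← h1]
  refine PM.biUnion ?_ ?_
  · intro D hD
    obtain ⟨C, hC, rfl⟩ := mem_image.1 hD
    exact (hfc C hC).pm_insert (fun h => disjoint_left.1 (hA C hC) h (hφ C hC).1) (hφ C hC).2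
  · intro D hD D' hD' hne
    obtain ⟨C, hC, rfl⟩ := mem_image.1 hD
    obtain ⟨C', hC', rfl⟩ := mem_image.1 hD'
    have hCC : C ≠ C' := fun h => hne (by rw [h])
    rw [disjoint_left]
    intro v hv hv'
    rcases mem_insert.1 hv with rfl | hv
    · rcases mem_insert.1 hv' with h | hv'
      · exact hCC (hinj hC hC' h)
      · exact disjoint_left.1 (hA C' hC') hv' (hφ C hC).1
    · rcases mem_insert.1 hv' with rfl | hv'
      · exact disjoint_left.1 (hA C hC) hv (hφ C' hC').1
      · exact disjoint_left.1 (hd C hC C' hC' hCC) hv hv'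

section

variable {ι : Type u} {B : ι → Finset V}

/-- values are superadditive over disjoint families. -/
theorem sv_biUnion_ge {F : Finset (Finset V)} (hc : ∀ C ∈ F, Cov B C)
    (hd : ∀ C ∈ F, ∀ D ∈ F, C ≠ D → Disjoint C D) :
    ∑ C ∈ F, sv B C ≤ sv B (F.biUnion id) := by
  classical
  induction F using Finset.induction_on with
  | empty => simp
  | insert C F hC ih =>
    have hne : ∀ D ∈ F, C ≠ D := fun D hD he => hC (he ▸ hD)
    rw [biUnion_insert, sum_insert hC]
    have h1 := ih (fun D hD => hc D (mem_insert_of_mem hD)) (fun D hD D' hD' hne' =>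
      hd D (mem_insert_of_mem hD) D' (mem_insert_of_mem hD') hne')
    have h2 := sv_union_ge (B := B) (hc C (mem_insert_self _ _))
      (cov_biUnion fun D hD => hc D (mem_insert_of_mem hD))
      (disjoint_biUnion fun D hD => hd C (mem_insert_self _ _) D (mem_insert_of_mem hD) (hne D hD))
    simp only [id]
    linarith

/-- deleting `k` points lowers the value by at most `k`. -/
theorem sv_le_sdiff {W N : Finset V} (hc : Cov B W) (hN : N ⊆ W) :
    sv B W ≤ sv B (W \ N) + N.card := by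
  classical
  have h1 : rho B (W \ N) ≤ rho B W := rho_mono sdiff_subset hc
  have h2 : (W \ N).card + N.card = W.card := card_sdiff_add_card_eq_card hN
  unfold sv
  have h3 : (rho B (W \ N) : ℤ) ≤ rho B W := by exact_mod_cast h1
  have h4 : ((W \ N).card : ℤ) + N.card = W.card := by exact_mod_cast h2
  linarith

end

section

variable {ι : Type u} [Fintype ι] {B : ι → Finset V}

/-- the value of a factor-critical set is `-1` or at least `1`. -/
theorem fc_sv_cases {C : Finset V} (h : FC (gr B) C) (hc : Cov B C) :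
    sv B C = -1 ∨ 1 ≤ sv B C := by
  have h1 := fc_sv_ge h hc
  obtain ⟨k, hk⟩ := h.odd
  have h2 : sv B C = (C.card : ℤ) - 2 * (rho B C : ℤ) := rfl
  have h3 : (C.card : ℤ) = 2 * k + 1 := by exact_mod_cast hk
  omega

/-- lower bound of the value from an assignment. -/
theorem sv_ge_of_assignment {A R : Finset V} {F F1 F2 F3 : Finset (Finset V)}
    {φ : Finset V → V} (hcA : Cov B (A ∪ F.biUnion id ∪ R))
    (hfc : ∀ C ∈ F, FC (gr B) C) (hd : ∀ C ∈ F, ∀ D ∈ F, C ≠ D → Disjoint C D)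
    (hA : ∀ C ∈ F, Disjoint C A) (hR : ∀ C ∈ F, Disjoint C R) (hAR : Disjoint A R)
    (hu : F1 ∪ F2 ∪ F3 = F) (h12 : Disjoint F1 F2) (h13 : Disjoint F1 F3) (h23 : Disjoint F2 F3)
    (hφ : ∀ C ∈ F1, φ C ∈ A ∧ ∃ y ∈ C, (gr B).Adj (φ C) y)
    (hinj : Set.InjOn φ (F1 : Set (Finset V))) (him : F1.image φ = A)
    (h3 : ∀ C ∈ F3, 1 ≤ sv B C) :
    (F3.card : ℤ) - F2.card + sv B R ≤ sv B (A ∪ F.biUnion id ∪ R) := by
  classical
  have s1 : F1 ⊆ F := fun C hC => by rw [← hu]; exact mem_union_left _ (mem_union_left _ hC)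
  have s2 : F2 ⊆ F := fun C hC => by rw [← hu]; exact mem_union_left _ (mem_union_right _ hC)
  have s3 : F3 ⊆ F := fun C hC => by rw [← hu]; exact mem_union_right _ hC
  have hcF : ∀ C ∈ F, Cov B C := fun C hC => hcA.mono fun v hv =>
    mem_union_left _ (mem_union_right _ (mem_biUnion.2 ⟨C, hC, hv⟩))
  have hdF : ∀ {F' F'' : Finset (Finset V)}, F' ⊆ F → F'' ⊆ F → Disjoint F' F'' →
      Disjoint (F'.biUnion id) (F''.biUnion id) := by
    intro F' F'' h' h'' hdis
    rw [disjoint_left]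
    intro v hv hv'
    obtain ⟨C, hC, hvC⟩ := mem_biUnion.1 hv
    obtain ⟨D, hD, hvD⟩ := mem_biUnion.1 hv'
    refine disjoint_left.1 (hd C (h' hC) D (h'' hD) ?_) hvC hvD
    rintro rfl
    exact disjoint_left.1 hdis hC hD
  have hcF' : ∀ {F' : Finset (Finset V)}, F' ⊆ F → Cov B (F'.biUnion id) := fun h' =>
    cov_biUnion fun C hC => hcF C (h' hC)
  have hpm : PM (gr B) (A ∪ F1.biUnion id) :=
    pm_matched (fun C hC => hfc C (s1 hC)) (fun C hC D hD => hd C (s1 hC) D (s1 hD))
      (fun C hC => hA C (s1 hC)) hφ hinj him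
  have e1 := pm_sv_nonneg hpm
  have e2 : -(F2.card : ℤ) ≤ sv B (F2.biUnion id) := by
    refine le_trans ?_ (sv_biUnion_ge (fun C hC => hcF C (s2 hC))
      (fun C hC D hD => hd C (s2 hC) D (s2 hD)))
    have : ∑ C ∈ F2, (-1 : ℤ) ≤ ∑ C ∈ F2, sv B C :=
      sum_le_sum fun C hC => fc_sv_ge (hfc C (s2 hC)) (hcF C (s2 hC))
    rw [sum_const, nsmul_eq_mul] at this
    linarith
  have e3 : (F3.card : ℤ) ≤ sv B (F3.biUnion id) := by
    refine le_trans ?_ (sv_biUnion_ge (fun C hC => hcF C (s3 hC))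
      (fun C hC D hD => hd C (s3 hC) D (s3 hD)))
    have : ∑ C ∈ F3, (1 : ℤ) ≤ ∑ C ∈ F3, sv B C := sum_le_sum fun C hC => h3 C hC
    rw [sum_const, nsmul_eq_mul] at this
    linarith
  have hF : F.biUnion id = F1.biUnion id ∪ (F2.biUnion id ∪ F3.biUnion id) := by
    rw [← hu, union_biUnion, union_biUnion, union_assoc]
  have hset : A ∪ F.biUnion id ∪ R =
      (A ∪ F1.biUnion id) ∪ (F2.biUnion id ∪ (F3.biUnion id ∪ R)) := by
    rw [hF]
    ext v
    simp only [mem_union]
    tauto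
  have hAF : ∀ {F' : Finset (Finset V)}, F' ⊆ F → Disjoint A (F'.biUnion id) := by
    intro F' h'
    exact disjoint_biUnion fun C hC => (hA C (h' hC)).symm
  have hRF : ∀ {F' : Finset (Finset V)}, F' ⊆ F → Disjoint (F'.biUnion id) R := by
    intro F' h'
    exact (disjoint_biUnion fun C hC => (hR C (h' hC)).symm).symm
  have hcR : Cov B R := hcA.mono subset_union_right
  have d3 : Disjoint (F3.biUnion id) R := hRF s3
  have d2 : Disjoint (F2.biUnion id) (F3.biUnion id ∪ R) := by
    rw [disjoint_union_right]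
    exact ⟨hdF s2 s3 h23, hRF s2⟩
  have d1 : Disjoint (A ∪ F1.biUnion id) (F2.biUnion id ∪ (F3.biUnion id ∪ R)) := by
    rw [disjoint_union_left, disjoint_union_right, disjoint_union_right, disjoint_union_right,
      disjoint_union_right]
    exact ⟨⟨hAF s2, hAF s3, hAR⟩, hdF s1 s2 h12, hdF s1 s3 h13, hRF s1⟩
  have c3 : Cov B (F3.biUnion id ∪ R) := (hcF' s3).union hcR
  have c2 : Cov B (F2.biUnion id ∪ (F3.biUnion id ∪ R)) := (hcF' s2).union c3
  have g3 := sv_union_ge (hcF' s3) hcR d3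
  have g2 := sv_union_ge (hcF' s2) c3 d2
  have g1 := sv_union_ge (pm_cov hpm) c2 d1
  rw [hset]
  linarith

end

end Pool.Agent.Hyp6
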