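import Pool.Agent.Hyp6.CritLow

/-!
# HYP6 CRITLOW2: connected critical sets with negative value are factor-critical
-/

set_option autoImplicit false

namespace Pool.Agent.Hyp6

open Finset Pool.Agent.Hyp5

universe u v

variable {V : Type v} [DecidableEq V] {ι : Type u} [Fintype ι] {B : ι → Finset V}

theorem nbr_sub' {G : SimpleGraph V} {X : Finset V} {T : Finset (Finset V)} : nbr G X T ⊆ X := by
  classical
  unfold nbr
  exact filter_subset _ _

theorem nbr_nbr {G : SimpleGraph V} {X : Finset V} {T T' : Finset (Finset V)} (h : T' ⊆ T) :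
    nbr G (nbr G X T) T' = nbr G X T' := by
  ext x
  rw [sysB_mem_nbr, sysB_mem_nbr, sysB_mem_nbr]
  constructor
  · rintro ⟨⟨h1, _⟩, h2⟩
    exact ⟨h1, h2⟩
  · rintro ⟨h1, C, hC, h2⟩
    exact ⟨⟨h1, C, h hC, h2⟩, C, hC, h2⟩

omit [Fintype ι] in
/-- critical points raise the value when deleted. -/
theorem Crit.sv_erase {Q : Finset V} (h : Crit B Q) {x : V} (hx : x ∈ Q) :
    sv B (Q.erase x) = sv B Q + 1 := by
  have h1 := h x hx
  have h2 := card_erase_add_one hx
  unfold sv
  have h3 : (rho B (Q.erase x) : ℤ) + 1 = rho B Q := by exact_mod_cast h1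
  have h4 : ((Q.erase x).card : ℤ) + 1 = Q.card := by exact_mod_cast h2
  linarith

/-- a barrier of low sets: the value of `N` together with the sets of `T`. -/
theorem sv_barrier {N : Finset V} {T : Finset (Finset V)} {dB : ℕ}
    (hc : Cov B (N ∪ T.biUnion id)) (hfc : ∀ C ∈ T, FC (gr B) C)
    (hd : ∀ C ∈ T, ∀ D ∈ T, C ≠ D → Disjoint C D) (hN : ∀ C ∈ T, Disjoint C N)
    (hcard : T.card = N.card + dB) (hT : T.Nonempty)
    (h1 : ∀ T' ⊆ T, T'.card ≤ (nbr (gr B) N T').card + dB) :
    (N.card : ℤ) - T.card ≤ sv B (N ∪ T.biUnion id) := by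
  classical
  obtain ⟨C0, hC0⟩ := hT
  obtain ⟨v0, _⟩ := (hfc C0 hC0).1
  have : Nonempty V := ⟨v0⟩
  obtain ⟨F1, F2, F3, φ, hu, h12, h13, h23, hφ, hinj, him, hF2, hF3, _⟩ :=
    exists_assignment (G := gr B) (A := N) (F := T) (Fb := T) (d := dB) (dB := dB) (Subset.refl _)
      hcard le_rfl h1 h1
  have hF3' : F3 = ∅ := by rw [← card_eq_zero, hF3, Nat.sub_self]
  have hc' : Cov B (N ∪ T.biUnion id ∪ ∅) := by rwa [union_empty]
  have h := sv_ge_of_assignment (R := ∅) hc' hfc hd hN (fun C _ => disjoint_empty_right _)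
    (disjoint_empty_right _) hu h12 h13 h23 hφ hinj him (by rw [hF3']; simp)
  rw [union_empty, sv_empty, hF3', hF2, card_empty] at h
  have h5 : (T.card : ℤ) = N.card + dB := by exact_mod_cast hcard
  push_cast at h
  linarith

/-- a connected critical set with negative value is factor-critical with value `-1`. -/
theorem crit_low {Q : Finset V} (hc : Cov B Q) (hQ : Conn (gr B) Q) (hcr : Crit B Q)
    (hneg : sv B Q ≤ -1) : FC (gr B) Q ∧ sv B Q = -1 := by
  classical
  obtain ⟨A, F, _, hAQ, hF, hR, hmax⟩ := exists_sys (gr B) Q ∅ (empty_subset _)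
  obtain ⟨q0, hq0⟩ := hQ.1
  have : Nonempty V := ⟨q0⟩
  have hFQ : ∀ C ∈ F, C ⊆ Q := fun C hC => (hF.closed C hC).1.trans sdiff_subset
  have hFA : ∀ C ∈ F, Disjoint C A := by
    intro C hC
    rw [disjoint_left]
    intro v hv hvA
    exact (mem_sdiff.1 ((hF.closed C hC).1 hv)).2 hvA
  have hcF : ∀ C ∈ F, Cov B C := fun C hC => hc.mono (hFQ C hC)
  -- the deficiency
  have hd0 : A.card ≤ F.card := by
    have h := hmax ∅ ∅ (Subset.refl _) (empty_subset _)
      ⟨by simp, by simp, by simp⟩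
    simpa using h
  obtain ⟨d, hd⟩ : ∃ d, F.card = A.card + d := ⟨F.card - A.card, by omega⟩
  have h1 : ∀ T ⊆ F, T.card ≤ (nbr (gr B) A T).card + d := by
    intro T hT
    have h := hmax (nbr (gr B) A T) T (empty_subset _) (nbr_sub'.trans hAQ)
      (hF.oddSys.sub_nbr hAQ hT)
    omega
  -- the low members
  set Fb := F.filter (fun C => sv B C = -1) with hFb
  have hFbF : Fb ⊆ F := filter_subset _ _
  obtain ⟨T, hTm, hTmax⟩ := exists_max_image Fb.powerset
    (fun T => (T.card : ℤ) - (nbr (gr B) A T).card) ⟨∅, empty_mem_powerset _⟩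
  rw [mem_powerset] at hTm
  have hT0 : (0 : ℤ) ≤ (T.card : ℤ) - (nbr (gr B) A T).card := by
    have h := hTmax ∅ (empty_mem_powerset _)
    have h' : (nbr (gr B) A ∅).card = 0 := by
      rw [card_eq_zero]
      ext x
      rw [sysB_mem_nbr]
      simp
    rw [h'] at h
    simpa using h
  obtain ⟨dB, hdB⟩ : ∃ dB : ℕ, (T.card : ℤ) = (nbr (gr B) A T).card + dB :=
    ⟨((T.card : ℤ) - (nbr (gr B) A T).card).toNat, by omega⟩
  have h2 : ∀ T' ⊆ Fb, T'.card ≤ (nbr (gr B) A T').card + dB := by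
    intro T' hT'
    have h := hTmax T' (mem_powerset.2 hT')
    omega
  have hle : dB ≤ d := by
    have := h1 T (hTm.trans hFbF)
    omega
  obtain ⟨F1, F2, F3, φ, hu, h12, h13, h23, hφ, hinj, him, hF2, hF3, hF3b⟩ :=
    exists_assignment (G := gr B) hFbF hd hle h1 h2
  have hQset : A ∪ F.biUnion id ∪ ((Q \ A) \ F.biUnion id) = Q := by
    have hcl : F.biUnion id ⊆ Q \ A := (Closed.biUnion hF.closed).1
    rw [union_assoc, union_sdiff_of_subset hcl, union_sdiff_of_subset hAQ]
  have h3 : ∀ C ∈ F3, 1 ≤ sv B C := by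
    intro C hC
    have hCF : C ∈ F := by rw [← hu]; exact mem_union_right _ hC
    rcases fc_sv_cases (hF.fc C hCF) (hcF C hCF) with h | h
    · exact absurd (mem_filter.2 ⟨hCF, h⟩) (fun h' => disjoint_left.1 hF3b hC h')
    · exact h
  have hlow := sv_ge_of_assignment (B := B) (R := (Q \ A) \ F.biUnion id)
    (by rw [hQset]; exact hc) hF.fc hF.disj hFA
    (fun C hC => by
      rw [disjoint_left]
      intro v hv hv'
      exact (mem_sdiff.1 hv').2 (mem_biUnion.2 ⟨C, hC, hv⟩))
    (by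
      rw [disjoint_left]
      intro v hv hv'
      exact (mem_sdiff.1 (mem_sdiff.1 hv').1).2 hv)
    hu h12 h13 h23 hφ hinj him h3
  rw [hQset, hF2, hF3] at hlow
  have hRnn := pm_sv_nonneg hR
  have hdB1 : 1 ≤ dB := by
    by_contra hcon
    have h0 : dB = 0 := by omega
    subst h0
    have : (0 : ℤ) ≤ ((d - 0 : ℕ) : ℤ) := by positivity
    push_cast at hlow
    linarith
  have hTne : T.Nonempty := by
    rw [← card_pos]
    omega
  set N := nbr (gr B) A T with hN
  have hNA : N ⊆ A := nbr_sub'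
  have hNQ : N ⊆ Q := hNA.trans hAQ
  have hTF : T ⊆ F := hTm.trans hFbF
  have hTclosed : ∀ C ∈ T, Closed (gr B) (Q \ N) C := (hF.sub_nbr hAQ hTF).closed
  have hNe : N = ∅ := by
    by_contra hne
    obtain ⟨x, hx⟩ := nonempty_iff_ne_empty.2 hne
    -- the rest
    have hTs : T.biUnion id ⊆ Q \ N := (Closed.biUnion hTclosed).1
    set R' := (Q \ N) \ T.biUnion id with hR'
    have hQN : Q \ N = T.biUnion id ∪ R' := (union_sdiff_of_subset hTs).symm
    have hsepT : SepF B T := fun C hC D hD hne =>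
      ⟨hF.disj C (hTF hC) D (hTF hD) hne,
        sep_of_closed (hTclosed C hC) (hTclosed D hD).1 (hF.disj C (hTF hC) D (hTF hD) hne)⟩
    have hsT : sv B (T.biUnion id) = -(T.card : ℤ) := by
      rw [sv_biUnion (fun C hC => hcF C (hTF hC)) hsepT]
      have : ∑ C ∈ T, sv B C = ∑ C ∈ T, (-1 : ℤ) :=
        sum_congr rfl fun C hC => (mem_filter.1 (hTm hC)).2
      rw [this, sum_const, nsmul_eq_mul]
      ring
    have hdT : Disjoint (T.biUnion id) R' := disjoint_sdiff
    have hsepR : Sep B (T.biUnion id) R' :=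
      sep_of_closed (Closed.biUnion hTclosed) sdiff_subset hdT
    have hcR' : Cov B R' := hc.mono (sdiff_subset.trans sdiff_subset)
    have hcT : Cov B (T.biUnion id) := cov_biUnion fun C hC => hcF C (hTF hC)
    have hup : sv B (Q \ N) = -(T.card : ℤ) + sv B R' := by
      rw [hQN, sv_add hcT hcR' hsepR hdT, hsT]
    -- upper bound for Q without x
    have hNx : (N.erase x) ⊆ Q.erase x := erase_subset_erase _ hNQ
    have hset : Q.erase x \ N.erase x = Q \ N := by
      ext v
      simp only [mem_sdiff, mem_erase, not_and]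
      constructor
      · rintro ⟨⟨h4, h5⟩, h6⟩
        exact ⟨h5, h6 h4⟩
      · rintro ⟨h5, h6⟩
        exact ⟨⟨fun h => h6 (h ▸ hx), h5⟩, fun _ => h6⟩
    have hub := sv_le_sdiff (B := B) (hc.mono (erase_subset x Q)) hNx
    rw [hset, hup, card_erase_of_mem hx, hcr.sv_erase (hNQ hx)] at hub
    have hNpos : 1 ≤ N.card := card_pos.2 ⟨x, hx⟩
    have hNc : (((N.card - 1 : ℕ)) : ℤ) = (N.card : ℤ) - 1 := by omega
    rw [hNc] at hub
    -- lower bound for Q
    have hcard : T.card = N.card + dB := by omega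
    have hNT : ∀ C ∈ T, Disjoint C N := fun C hC =>
      disjoint_of_subset_right hNA (hFA C (hTF hC))
    have hQ2 : Q = (N ∪ T.biUnion id) ∪ R' := by
      rw [union_assoc, ← hQN, union_sdiff_of_subset hNQ]
    have hcNT : Cov B (N ∪ T.biUnion id) := hc.mono (by
      conv_rhs => rw [hQ2]
      exact subset_union_left)
    have hlb := sv_barrier hcNT (fun C hC => hF.fc C (hTF hC))
      (fun C hC D hD => hF.disj C (hTF hC) D (hTF hD)) hNT hcard hTne (by
        intro T' hT'
        rw [hN, nbr_nbr hT']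
        exact h2 T' (hT'.trans hTm))
    have hdNR : Disjoint (N ∪ T.biUnion id) R' := by
      rw [disjoint_union_left]
      refine ⟨?_, hdT⟩
      rw [disjoint_left]
      intro v hv hv'
      exact (mem_sdiff.1 (mem_sdiff.1 hv').1).2 hv
    have hlb2 := sv_union_ge hcNT hcR' hdNR
    rw [← hQ2] at hlb2
    linarith
  obtain ⟨C, hC⟩ := hTne
  have hCc := hTclosed C hC
  rw [hNe, sdiff_empty] at hCc
  have hCQ : C = Q := hQ.2 C hCc (hF.fc C (hTF hC)).1
  have hCl := (mem_filter.1 (hTm hC)).2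
  rw [hCQ] at hCl
  exact ⟨hCQ ▸ hF.fc C (hTF hC), hCl⟩

end Pool.Agent.Hyp6
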