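import Pool.Agent.Hyp6.Home

/-!
# HYP6 HOME2: the private blocks of a member and the credits of the dense overlaps

`uu z i`: the part of the credit of the block `i` reserved for the member `z` (in units of `75`): the overlap
of `z` and `i`, minus one if `i` meets no other member. `sum_uu_le`: these parts add up to at most
`hh i - 2`. `pp_le`: `p(z) ≤ 14 + ∑ uu z i` over the blocks `i` whose trace is empty or lies in the part of
the private blocks of `z`.
-/

set_option autoImplicit false

namespace Pool.Agent.Hyp6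

open Finset Pool.Agent.Hyp5

variable {V : Type*} [DecidableEq V] {ι : Type*} [Fintype ι] [DecidableEq ι]

/-- the part of the credit of the block `i` reserved for the member `z`. -/
def uu (B : ι → Finset V) (U : Finset V) (F : Finset ι) (z i : ι) : ℕ :=
  if i ∈ cl B U F z then sx (trc B U) z i - 1 else sx (trc B U) z i

variable {B : ι → Finset V} {U : Finset V} {F : Finset ι}

theorem hh_eq_sum (hF : Pack B U 5 F) (i : ι) :
    hh B U F i = ∑ z ∈ F, (trc B U z ∩ trc B U i).card := by
  have h1 : B i ∩ (F.biUnion B ∩ U) = F.biUnion (fun z => trc B U z ∩ trc B U i) := by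
    ext v
    unfold trc
    simp only [mem_inter, mem_biUnion]
    constructor
    · rintro ⟨h1, ⟨z, hz, hvz⟩, h2⟩
      exact ⟨z, hz, ⟨hvz, h2⟩, h1, h2⟩
    · rintro ⟨z, hz, ⟨hvz, h2⟩, h1, _⟩
      exact ⟨h1, ⟨z, hz, hvz⟩, h2⟩
  unfold hh
  rw [h1, card_biUnion]
  intro x hx y hy hne
  refine (hF.disj x hx y hy hne).mono ?_ ?_
  · exact inter_subset_left
  · exact inter_subset_left

/-- the other members of the intersecting family of `z`. -/
theorem cl_facts (hF : Pack B U 5 F) (hmax : ∀ F', Pack B U 5 F' → F'.card ≤ F.card) (hr : Reg B U)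
    {z i : ι} (hz : z ∈ F) (hi : i ∈ cl B U F z) (hne : i ≠ z) :
    i ∉ F ∧ hh B U F i = (trc B U z ∩ trc B U i).card ∧ 1 ≤ hh B U F i := by
  have h1 := (mem_cl.1 hi).1
  have h2 := (mem_cl.1 hi).2
  have h3 : ∀ y ∈ F, y ≠ z → (trc B U y ∩ trc B U i).card = 0 := by
    intro y hy hyz
    rw [card_eq_zero, ← disjoint_iff_inter_eq_empty, disjoint_comm]
    refine h2.mono_right ?_
    exact inter_subset_left.trans (subset_biUnion_of_mem B (mem_erase.2 ⟨hyz, hy⟩))
  have h4 := hh_eq_sum hF i
  rw [sum_eq_single z (fun y hy hyz => h3 y hy hyz) (fun g => absurd hz g)] at h4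
  have h5 := (hF.clq hmax hr hz).meet z (hF.self_mem_cl hz) i hi
  rw [← card_pos] at h5
  refine ⟨fun hiF => ?_, h4, by omega⟩
  have h6 := h3 i hiF hne
  unfold trc at h6
  rw [inter_self] at h6
  omega

/-- a private block is a member of the intersecting family with one common point. -/
theorem pri_iff (hF : Pack B U 5 F) (hmax : ∀ F', Pack B U 5 F' → F'.card ≤ F.card) (hr : Reg B U)
    {z i : ι} (hz : z ∈ F) :
    Pri B U F z i ↔ i ∈ cl B U F z ∧ i ≠ z ∧ sx (trc B U) z i = 0 := by
  constructor
  · intro h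
    have h1 := h.1.2.1
    have h2 : i ∈ cl B U F z := by
      rw [mem_cl]
      refine ⟨h1, ?_⟩
      rw [Finset.disjoint_left]
      intro v hv hv'
      obtain ⟨y, hy, hvy⟩ := mem_biUnion.1 hv'
      rw [mem_erase] at hy
      exact Finset.disjoint_left.1 (h.disj hF hz hy.2 hy.1) hv (mem_inter.2 ⟨hvy, (mem_inter.1 hv).2⟩)
    have h3 : i ≠ z := fun e => h.1.1 (e ▸ hz)
    obtain ⟨_, h4, _⟩ := cl_facts hF hmax hr hz h2 h3
    refine ⟨h2, h3, ?_⟩
    have h5 := h.1.2.2
    unfold sx
    omega
  · rintro ⟨h1, h2, h3⟩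
    obtain ⟨h4, h5, h6⟩ := cl_facts hF hmax hr hz h1 h2
    unfold sx at h3
    refine ⟨⟨h4, (mem_cl.1 h1).1, by omega⟩, ?_⟩
    rw [h5] at h6
    obtain ⟨v, hv⟩ := card_pos.1 h6
    rw [mem_inter] at hv
    exact ⟨v, mem_inter.2 ⟨hv.2, hv.1⟩⟩

/-- the reserved parts of the credit of a block. -/
theorem sum_uu_le (hF : Pack B U 5 F) (hmax : ∀ F', Pack B U 5 F' → F'.card ≤ F.card)
    (hr : Reg B U) {i : ι} (hi : i ∉ F) (h5 : (B i ∩ U).card = 5) (h2 : 2 ≤ hh B U F i) :
    ∑ z ∈ F, uu B U F z i ≤ hh B U F i - 2 := by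
  by_cases hex : ∃ z ∈ F, i ∈ cl B U F z
  · obtain ⟨z, hz, hiz⟩ := hex
    have hne : i ≠ z := fun e => hi (e ▸ hz)
    obtain ⟨_, h4, _⟩ := cl_facts hF hmax hr hz hiz hne
    have h6 := hh_eq_sum hF i
    rw [← add_sum_erase F _ hz] at h6
    have h7 : ∀ y ∈ F.erase z, (trc B U y ∩ trc B U i).card = 0 := by
      have : ∑ y ∈ F.erase z, (trc B U y ∩ trc B U i).card = 0 := by omega
      intro y hy
      exact (sum_eq_zero_iff.1 this) y hy
    rw [← add_sum_erase F _ hz]
    have h8 : ∑ y ∈ F.erase z, uu B U F y i = 0 := by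
      refine sum_eq_zero fun y hy => ?_
      have := h7 y hy
      unfold uu sx
      split_ifs <;> omega
    rw [h8]
    unfold uu sx
    rw [if_pos hiz, ← h4]
    omega
  · push Not at hex
    have h3 : ∀ z ∈ F, uu B U F z i = (trc B U z ∩ trc B U i).card - 1 := by
      intro z hz
      unfold uu sx
      rw [if_neg (hex z hz)]
    rw [sum_congr rfl h3]
    have h4 := hh_eq_sum hF i
    -- at least two members meet the block
    set M := F.filter (fun z => (trc B U z ∩ trc B U i).Nonempty) with hM
    have h6 : ∑ z ∈ F, (trc B U z ∩ trc B U i).card =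
        ∑ z ∈ F, ((trc B U z ∩ trc B U i).card - 1) + M.card := by
      rw [hM, card_filter, ← sum_add_distrib]
      refine sum_congr rfl fun z _ => ?_
      by_cases g : (trc B U z ∩ trc B U i).Nonempty
      · rw [if_pos g]
        have := card_pos.2 g
        omega
      · rw [if_neg g]
        rw [not_nonempty_iff_eq_empty] at g
        rw [g]
        simp
    have h7 : 2 ≤ M.card := by
      by_contra hcon
      have h8 : M.card ≤ 1 := by omega
      rcases M.eq_empty_or_nonempty with h9 | ⟨z, hz⟩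
      · have : ∑ z ∈ F, (trc B U z ∩ trc B U i).card = 0 := by
          refine sum_eq_zero fun z hz => ?_
          by_contra hc
          have : z ∈ M := mem_filter.2 ⟨hz, card_pos.1 (Nat.pos_of_ne_zero hc)⟩
          rw [h9] at this
          exact absurd this (notMem_empty z)
        omega
      · have hzF := (mem_filter.1 hz).1
        refine hex z hzF ?_
        rw [mem_cl]
        refine ⟨h5, ?_⟩
        rw [Finset.disjoint_left]
        intro v hv hv'
        obtain ⟨y, hy, hvy⟩ := mem_biUnion.1 hv'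
        rw [mem_erase] at hy
        have : y ∈ M := by
          refine mem_filter.2 ⟨hy.2, v, ?_⟩
          unfold trc
          exact mem_inter.2 ⟨mem_inter.2 ⟨hvy, (mem_inter.1 hv).2⟩, hv⟩
        exact hy.1 (card_le_one.1 h8 y this z hz)
    omega

open Classical in
/-- the blocks whose credit may be used for the member `z`: blocks with five points, not in the packing, not
private, with no point outside the packing or with their trace in `C`. -/
noncomputable def good (B : ι → Finset V) (U : Finset V) (F : Finset ι) (C : Finset V) :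
    Finset ι :=
  (trs B U 5).filter (fun i => i ∉ F ∧ ¬ Priv B U F i ∧
    (ww B U F i = 0 ∨ B i ∩ (U \ F.biUnion B) ⊆ C))

/-- **the number of private blocks of a member.** -/
theorem pp_le (h : MaxPack B U F) (hr : Reg B U) {K : Finset (Finset V)} (hK : SepF B K)
    (hKU : K.biUnion id = U \ F.biUnion B) {z : ι} (hz : z ∈ F)
    (hcl : (cl B U F z).card ≤ 15 + dns B U z) {C : Finset V} (hC : C ∈ K)
    (hhome : ∀ i, Pri B U F z i → B i ∩ (U \ F.biUnion B) ⊆ C) :
    pp B U F z ≤ 14 + ∑ i ∈ good B U F C, uu B U F z i := by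
  classical
  by_cases hp : pp B U F z ≤ 14
  · omega
  have hF := h.pack
  have hmax := h.max
  -- the family of `z`
  set L := (cl B U F z).erase z with hL
  have hLc : L.card + 1 = (cl B U F z).card := card_erase_add_one (hF.self_mem_cl hz)
  have hPL : pp B U F z = (L.filter (fun i => sx (trc B U) z i = 0)).card := by
    unfold pp
    congr 1
    ext i
    rw [mem_filter, mem_filter, hL, mem_erase, pri_iff hF hmax hr hz]
    simp only [mem_univ, true_and]
    tauto
  have hsplit := card_filter_add_card_filter_not (s := L) (fun i => sx (trc B U) z i = 0)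
  set Q := L.filter (fun i => ¬ sx (trc B U) z i = 0) with hQ
  -- dense overlaps are good
  have hgood : ∀ i ∈ (trs B U 5).erase z, 14 ≤ cmn B U z i → sx (trc B U) z i ≠ 0 →
      i ∈ good B U F C := by
    intro i hi hd hs
    rw [mem_erase] at hi
    have hi5 := mem_trs.1 hi.2
    have hhi := hh_eq_sum hF i
    rw [← add_sum_erase F _ hz] at hhi
    have hs2 : 2 ≤ (trc B U z ∩ trc B U i).card := by
      unfold sx at hs
      omega
    have hiF : i ∉ F := by
      intro hiF
      have := hF.disj z hz i hiF (fun e => hi.1 e.symm)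
      rw [disjoint_iff_inter_eq_empty] at this
      unfold trc at hs2
      rw [this] at hs2
      simp at hs2
    have hpriv : ¬ Priv B U F i := by
      intro g
      have := g.2.2
      omega
    unfold good
    rw [mem_filter]
    refine ⟨hi.2, hiF, hpriv, ?_⟩
    by_contra hcon
    rw [not_or] at hcon
    obtain ⟨hw0, hnC⟩ := hcon
    have hne : (B i ∩ K.biUnion id).Nonempty := by
      rw [hKU]
      exact card_pos.1 (Nat.pos_of_ne_zero hw0)
    obtain ⟨D, hD, hDi⟩ := trace_part hK hne
    rw [hKU] at hDi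
    have hDC : D ≠ C := fun e => hnC (e ▸ hDi)
    have h1 := cmn_le hF hr hz hi.1 (fun g => hpriv g.1) (by
      intro j hj w hwi hwj hwU
      by_contra hwF
      have hw : w ∈ U \ F.biUnion B := mem_sdiff.2 ⟨hwU, hwF⟩
      exact hDC (part_eq hK hD hC (hDi (mem_inter.2 ⟨hwi, hw⟩))
        (hhome j hj (mem_inter.2 ⟨hwj, hw⟩))))
    have h2 := hh_add_ww (B := B) U F i
    omega
  -- the counting
  have h1 : dns B U z = ∑ i ∈ ((trs B U 5).erase z).filter
      (fun i => 14 ≤ cmn B U z i ∧ sx (trc B U) z i ≠ 0), sx (trc B U) z i := by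
    unfold dns
    rw [sum_filter]
    refine sum_congr rfl fun i _ => ?_
    by_cases g : 14 ≤ cmn B U z i
    · by_cases g2 : sx (trc B U) z i = 0
      · rw [if_pos g, g2]; simp
      · rw [if_pos g, if_pos ⟨g, g2⟩]
    · rw [if_neg g, if_neg (fun g3 => g g3.1)]
  set Dn := ((trs B U 5).erase z).filter
      (fun i => 14 ≤ cmn B U z i ∧ sx (trc B U) z i ≠ 0) with hDn
  have h2 : ∑ i ∈ Dn, sx (trc B U) z i ≤ ∑ i ∈ Dn, uu B U F z i + (Dn ∩ Q).card := by
    have h3 : (Dn ∩ Q).card = ∑ i ∈ Dn, if i ∈ Q then 1 else 0 := by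
      rw [← card_filter, filter_mem_eq_inter]
    rw [h3, ← sum_add_distrib]
    refine sum_le_sum fun i hi => ?_
    rw [hDn, mem_filter, mem_erase] at hi
    unfold uu
    by_cases g : i ∈ cl B U F z
    · have : i ∈ Q := by
        rw [hQ, mem_filter, hL, mem_erase]
        exact ⟨⟨hi.1.1, g⟩, hi.2.2⟩
      rw [if_pos g, if_pos this]
      omega
    · rw [if_neg g]
      omega
  have h3 : ∑ i ∈ Dn, uu B U F z i ≤ ∑ i ∈ good B U F C, uu B U F z i := by
    refine sum_le_sum_of_subset fun i hi => ?_
    rw [hDn, mem_filter] at hi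
    exact hgood i hi.1 hi.2.1 hi.2.2
  have h4 : (Dn ∩ Q).card ≤ Q.card := card_le_card inter_subset_right
  omega

end Pool.Agent.Hyp6
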