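import Pool.Agent.Hyp6.Star
import Pool.Agent.Hyp6.Home2

/-!
# HYP6 E6: the star property of a rich member

`Y` is a K-piece inside the rest together with the member `j'` which meets `j'`. `prY`: the private blocks of
`j'` through a point of `Y` in `j'`; `prN`: the other ones. Every block of `prN`, and every block `n` meeting
only a member `j` (not rich, joined to `j'` by a K-double at `y`) which avoids `y`, meets every block
`i ∈ prY` in one of the two points of `(B i ∩ U) \ Y`.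
-/

set_option autoImplicit false

namespace Pool.Agent.Hyp6

open Finset Pool.Agent.Hyp5

universe u v

variable {V : Type v} [DecidableEq V] {ι : Type u} [Fintype ι] {B : ι → Finset V}
  {U : Finset V} {F : Finset ι}

/-- the K-piece `Y` of the rich member `z`. -/
structure RichAt (B : ι → Finset V) (U : Finset V) (F : Finset ι) (z : ι) (Y : Finset V) :
    Prop where
  zF : z ∈ F
  kp : KP B Y
  sub : Y ⊆ Wr B U F ∪ (B z ∩ U)
  meet : (B z ∩ Y).Nonempty

namespace RichAt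

variable {z : ι} {Y : Finset V}

theorem subU (h : RichAt B U F z Y) : Y ⊆ U := fun v hv => by
  rcases mem_union.1 (h.sub hv) with g | g
  · exact Wr_sub g
  · exact (mem_inter.1 g).2

theorem regY (h : RichAt B U F z Y) (hr : Reg B U) : Reg B Y := hr.mono h.subU

variable [DecidableEq ι]

/-- a block which meets `Y` meets `Y` in a point of `z`. -/
theorem hit (h : RichAt B U F z Y) (hr : Reg B U) {i : ι} (hi : (B i ∩ Y).Nonempty) :
    ∃ v, v ∈ B i ∧ v ∈ B z ∧ v ∈ Y := by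
  obtain ⟨v, hv⟩ := h.kp.meet (h.regY hr) hi h.meet
  rw [mem_inter, mem_inter, mem_inter] at hv
  exact ⟨v, hv.1.1, hv.2.1, hv.1.2⟩

/-- a block disjoint from `z` avoids `Y`. -/
theorem avoid (h : RichAt B U F z Y) (hr : Reg B U) {i : ι}
    (hi : ∀ v, v ∈ B i → v ∈ B z → v ∈ U → False) : B i ∩ Y = ∅ := by
  by_contra hne
  obtain ⟨v, h1, h2, h3⟩ := h.hit hr (nonempty_iff_ne_empty.2 hne)
  exact hi v h1 h2 (h.subU h3)

/-- a member of the packing other than `z` avoids `Y`. -/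
theorem member (h : RichAt B U F z Y) (hF : Pack B U 5 F) {k : ι} (hk : k ∈ F) (hne : k ≠ z) :
    B k ∩ Y = ∅ := by
  by_contra hcon
  obtain ⟨v, hv⟩ := nonempty_iff_ne_empty.2 hcon
  rw [mem_inter] at hv
  rcases mem_union.1 (h.sub hv.2) with g | g
  · exact (mem_Wr.1 g).2 k hk hv.1
  · exact Finset.disjoint_left.1 (hF.disj k hk z h.zF hne)
      (mem_inter.2 ⟨hv.1, (mem_inter.1 g).2⟩) g

end RichAt

open Classical in
/-- the private blocks of `z` meeting `Y`. -/
noncomputable def prY (B : ι → Finset V) (U : Finset V) (F : Finset ι) (z : ι) (Y : Finset V) :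
    Finset ι :=
  univ.filter (fun i => Pri B U F z i ∧ (B i ∩ Y).Nonempty)

open Classical in
/-- the private blocks of `z` avoiding `Y`. -/
noncomputable def prN (B : ι → Finset V) (U : Finset V) (F : Finset ι) (z : ι) (Y : Finset V) :
    Finset ι :=
  univ.filter (fun i => Pri B U F z i ∧ ¬ (B i ∩ Y).Nonempty)

open Classical in
/-- the blocks which meet only the member `z` and avoid the point `y`. -/
noncomputable def onA (B : ι → Finset V) (U : Finset V) (F : Finset ι) (z : ι) (y : V) :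
    Finset ι :=
  univ.filter (fun i => Onl B U F z i ∧ y ∉ B i)

theorem mem_prY {z : ι} {Y : Finset V} {i : ι} :
    i ∈ prY B U F z Y ↔ Pri B U F z i ∧ (B i ∩ Y).Nonempty := by simp [prY]

theorem mem_prN {z : ι} {Y : Finset V} {i : ι} :
    i ∈ prN B U F z Y ↔ Pri B U F z i ∧ ¬ (B i ∩ Y).Nonempty := by simp [prN]

theorem mem_onA {z : ι} {y : V} {i : ι} : i ∈ onA B U F z y ↔ Onl B U F z i ∧ y ∉ B i := by
  simp [onA]

theorem pp_eq_prYN {z : ι} (Y : Finset V) :
    pp B U F z = (prY B U F z Y).card + (prN B U F z Y).card := by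
  classical
  unfold pp prY prN
  rw [← filter_filter, ← filter_filter]
  exact (card_filter_add_card_filter_not _).symm

variable [DecidableEq ι]

/-- the two other points of a private block through `Y`. -/
theorem prY_two (hr : Reg B U) {z : ι} {Y : Finset V} (hY : RichAt B U F z Y) {i : ι}
    (hi : i ∈ prY B U F z Y) : ((B i ∩ U) \ Y).card = 2 ∧ (B i ∩ U) \ Y ⊆ Wr B U F := by
  rw [mem_prY] at hi
  have h1 := hY.kp.trace (hY.regY hr) hi.2
  have h2 := hi.1.1.2.1
  have h3 : (B i ∩ U) ∩ Y = B i ∩ Y := by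
    ext v
    simp only [mem_inter]
    constructor
    · rintro ⟨⟨g1, _⟩, g2⟩; exact ⟨g1, g2⟩
    · rintro ⟨g1, g2⟩; exact ⟨⟨g1, hY.subU g2⟩, g2⟩
  have h4 := card_sdiff_add_card_inter (B i ∩ U) Y
  rw [h3, h1, h2] at h4
  refine ⟨by omega, fun v hv => ?_⟩
  rw [mem_sdiff, mem_inter] at hv
  rw [mem_Wr]
  refine ⟨hv.1.2, fun k hk hvk => ?_⟩
  -- the point of the private block in the packing lies in `Y`
  obtain ⟨w, hwi, hwz, hwY⟩ := hY.hit hr hi.2
  obtain ⟨x, hx, -⟩ := hi.1.point hY.zF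
  have g1 : w ∈ B i ∩ (F.biUnion B ∩ U) :=
    mem_inter.2 ⟨hwi, mem_inter.2 ⟨mem_biUnion.2 ⟨z, hY.zF, hwz⟩, hY.subU hwY⟩⟩
  have g2 : v ∈ B i ∩ (F.biUnion B ∩ U) :=
    mem_inter.2 ⟨hv.1.1, mem_inter.2 ⟨mem_biUnion.2 ⟨k, hk, hvk⟩, hv.1.2⟩⟩
  rw [hx, mem_singleton] at g1 g2
  rw [g2, ← g1] at hv
  exact hv.2 hwY

/-- two private blocks of a rich member. -/
theorem star_pri (h : MaxPack B U F) (hr : Reg B U) {z : ι} {Y : Finset V}
    (hY : RichAt B U F z Y) {i n : ι} (hi : i ∈ prY B U F z Y) (hn : n ∈ prN B U F z Y) :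
    (((B i ∩ U) \ Y) ∩ B n).Nonempty := by
  rw [mem_prY] at hi
  rw [mem_prN] at hn
  have h1 := h.pri_meet hY.zF hi.1 hn.1
  rw [Finset.not_disjoint_iff] at h1
  obtain ⟨w, h2, h3⟩ := h1
  refine ⟨w, mem_inter.2 ⟨mem_sdiff.2 ⟨h2, fun g => hn.2 ⟨w, ?_⟩⟩, (mem_inter.1 h3).1⟩⟩
  exact mem_inter.2 ⟨(mem_inter.1 h3).1, g⟩

/-- **E6.** -/
theorem OptPack.star_onl (h : OptPack B U F) (hr : Reg B U) {X : Finset V} {b j z : ι} {y y' : V}
    (d : Dbl B U F X b j z y y') (hjz : j ≠ z) (hnr : ¬ Rich B U F j) {Y : Finset V}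
    (hY : RichAt B U F z Y) (hXY : Disjoint X Y) {i n : ι} (hi : i ∈ prY B U F z Y)
    (hn : n ∈ onA B U F j y) : (((B i ∩ U) \ Y) ∩ B n).Nonempty := by
  rw [mem_prY] at hi
  rw [mem_onA] at hn
  have hnz : ∀ v, v ∈ B n → v ∈ B z → v ∈ U → False := fun v h1 h2 h3 =>
    hn.1.notMem_of hY.zF hjz.symm h2 h3 h1
  have hnY := hY.avoid hr hnz
  -- the K-double avoids `Y`
  have hbY : B b ∩ Y = ∅ := by
    by_contra hne
    have h1 := hY.kp.trace (hY.regY hr) (nonempty_iff_ne_empty.2 hne)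
    have h2 := d.kp.trace (hr.mono (d.XW.trans Wr_sub)) d.meet
    have h3 : (B b ∩ X) ∪ (B b ∩ Y) ⊆ B b ∩ U := by
      intro v hv
      rcases mem_union.1 hv with g | g
      · exact mem_inter.2 ⟨(mem_inter.1 g).1, Wr_sub (d.XW (mem_inter.1 g).2)⟩
      · exact mem_inter.2 ⟨(mem_inter.1 g).1, hY.subU (mem_inter.1 g).2⟩
    have h4 : Disjoint (B b ∩ X) (B b ∩ Y) :=
      hXY.mono inter_subset_right inter_subset_right
    have h5 := card_le_card h3
    rw [card_union_of_disjoint h4, h1, h2, d.five] at h5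
    omega
  -- `i` avoids `X`
  have hiX : B i ∩ X = ∅ := by
    by_contra hne
    have h1 := hY.kp.trace (hY.regY hr) hi.2
    have h2 := d.kp.trace (hr.mono (d.XW.trans Wr_sub)) (nonempty_iff_ne_empty.2 hne)
    have h3 : (B i ∩ X) ∪ (B i ∩ Y) ⊆ B i ∩ U := by
      intro v hv
      rcases mem_union.1 hv with g | g
      · exact mem_inter.2 ⟨(mem_inter.1 g).1, Wr_sub (d.XW (mem_inter.1 g).2)⟩
      · exact mem_inter.2 ⟨(mem_inter.1 g).1, hY.subU (mem_inter.1 g).2⟩
    have h4 : Disjoint (B i ∩ X) (B i ∩ Y) :=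
      hXY.mono inter_subset_right inter_subset_right
    have h5 := card_le_card h3
    rw [card_union_of_disjoint h4, h1, h2, hi.1.1.2.1] at h5
    omega
  have hiz : Onl B U F z i := hi.1.onl h.mp.pack hY.zF
  -- `y` and `y'` are not in `i`
  have hyi : y ∉ B i := hiz.notMem_of d.jF hjz d.hy d.yU.2
  have hyi' : y' ∉ B i := by
    intro g
    obtain ⟨w, hwi, hwz, hwY⟩ := hY.hit hr hi.2
    obtain ⟨x, hx, -⟩ := hi.1.point hY.zF
    have g1 : w ∈ B i ∩ (F.biUnion B ∩ U) :=
      mem_inter.2 ⟨hwi, mem_inter.2 ⟨mem_biUnion.2 ⟨z, hY.zF, hwz⟩, hY.subU hwY⟩⟩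
    have g2 : y' ∈ B i ∩ (F.biUnion B ∩ U) :=
      mem_inter.2 ⟨g, mem_inter.2 ⟨mem_biUnion.2 ⟨z, hY.zF, d.hy'⟩, d.yU'.2⟩⟩
    rw [hx, mem_singleton] at g1 g2
    have g3 : y' ∈ B b ∩ Y := mem_inter.2 ⟨d.yU'.1, g2.trans g1.symm ▸ hwY⟩
    rw [hbY] at g3
    exact notMem_empty _ g3
  have hbi := d.disj_of hyi hyi' (disjoint_iff_inter_eq_empty.2 hiX)
  have hyn' : y' ∉ B n := hn.1.notMem_of d.jF' hjz.symm d.hy' d.yU'.2
  have hbn := d.disj_of hn.2 hyn' (h.poor d.jF hn.1 hnr d.kx)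
  have h1 := h.mp.no3 d.jF hY.zF d.five (fun k hk g1 g2 => d.disj h.mp.pack hk g1 g2) hn.1 hiz
    hbn hbi
  rw [Finset.not_disjoint_iff] at h1
  obtain ⟨w, h2, h3⟩ := h1
  refine ⟨w, mem_inter.2 ⟨mem_sdiff.2 ⟨h3, fun g => ?_⟩, (mem_inter.1 h2).1⟩⟩
  have g3 : w ∈ B n ∩ Y := mem_inter.2 ⟨(mem_inter.1 h2).1, g⟩
  rw [hnY] at g3
  exact notMem_empty _ g3

/-- the star system of a rich member: its private blocks avoiding `Y`. -/
theorem starSys_pri (h : MaxPack B U F) (hr : Reg B U) (h5 : ∀ i, (B i ∩ U).card ≤ 5) {z : ι}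
    {Y : Finset V} (hY : RichAt B U F z Y) :
    StarSys B U (prY B U F z Y) (prN B U F z Y) (fun i => (B i ∩ U) \ Y) where
  sub i _ := sdiff_subset.trans inter_subset_left
  subU i _ := sdiff_subset.trans inter_subset_right
  two i hi := (prY_two hr hY hi).1
  dis := by
    rw [Finset.disjoint_left]
    intro i hi hi'
    exact (mem_prN.1 hi').2 (mem_prY.1 hi).2
  hit i hi n hn := star_pri h hr hY hi hn
  four n _ := by
    refine le_trans (card_le_card ?_) (h.four h5 n)
    refine inter_subset_inter_left ?_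
    exact biUnion_subset.2 fun i hi => (prY_two hr hY hi).2

/-- **the star system** of a rich member `z` and a K-double joining it to a member `j` which is not rich. -/
theorem OptPack.starSys (h : OptPack B U F) (hr : Reg B U) (h5 : ∀ i, (B i ∩ U).card ≤ 5)
    {X : Finset V} {b j z : ι} {y y' : V} (d : Dbl B U F X b j z y y') (hjz : j ≠ z)
    (hnr : ¬ Rich B U F j) {Y : Finset V} (hY : RichAt B U F z Y) (hXY : Disjoint X Y) :
    StarSys B U (prY B U F z Y) (prN B U F z Y ∪ onA B U F j y) (fun i => (B i ∩ U) \ Y) where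
  sub i _ := sdiff_subset.trans inter_subset_left
  subU i _ := sdiff_subset.trans inter_subset_right
  two i hi := (prY_two hr hY hi).1
  dis := by
    rw [Finset.disjoint_left]
    intro i hi hi'
    rcases mem_union.1 hi' with g | g
    · exact (mem_prN.1 g).2 (mem_prY.1 hi).2
    · obtain ⟨v, h1, h2, h3⟩ := hY.hit hr (mem_prY.1 hi).2
      exact (mem_onA.1 g).1.notMem_of hY.zF hjz.symm h2 (hY.subU h3) h1
  hit i hi n hn := by
    rcases mem_union.1 hn with g | g
    · exact star_pri h.mp hr hY hi g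
    · exact h.star_onl hr d hjz hnr hY hXY hi g
  four n _ := by
    refine le_trans (card_le_card ?_) (h.mp.four h5 n)
    refine inter_subset_inter_left ?_
    exact biUnion_subset.2 fun i hi => (prY_two hr hY hi).2

/-- the two families of the star system are disjoint. -/
theorem prN_onA_disjoint (h : MaxPack B U F) {j z : ι} {y : V} (hz : z ∈ F)
    (hjz : j ≠ z) (Y : Finset V) : Disjoint (prN B U F z Y) (onA B U F j y) := by
  rw [Finset.disjoint_left]
  intro i hi hi'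
  obtain ⟨v, -, h1, h2, h3⟩ := (mem_prN.1 hi).1.point hz
  exact (mem_onA.1 hi').1.notMem_of hz hjz.symm h2 h3 h1

end Pool.Agent.Hyp6
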