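import Pool.Agent.Hyp6.Frame5b

/-!
# HYP6 EXCH: exchanges for a maximum packing, private blocks

`MaxPack B U F`: `F` is a maximum packing of blocks with five points in `U`. `Priv B U F i`: the block `i`
outside `F` has five points in `U`, exactly one of them in the packing. `Pri B U F j i`: moreover this
point lies in the member `j` of `F`.
-/

set_option autoImplicit false

namespace Pool.Agent.Hyp6

open Finset Pool.Agent.Hyp5

variable {V : Type*} [DecidableEq V] {ι : Type*} {B : ι → Finset V}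

/-- a maximum packing of blocks with five points. -/
structure MaxPack (B : ι → Finset V) (U : Finset V) (F : Finset ι) : Prop where
  pack : Pack B U 5 F
  max : ∀ F', Pack B U 5 F' → F'.card ≤ F.card

theorem exists_maxPack5 [Fintype ι] (B : ι → Finset V) (U : Finset V) :
    ∃ F : Finset ι, MaxPack B U F := by
  obtain ⟨F, h1, h2⟩ := exists_maxPack B U 5
  exact ⟨F, h1, h2⟩

theorem Pack.subset {U : Finset V} {k : ℕ} {F F' : Finset ι} (h : Pack B U k F)
    (hs : F' ⊆ F) : Pack B U k F' :=
  ⟨fun i hi => h.card i (hs hi), fun i hi j hj hne => h.disj i (hs hi) j (hs hj) hne⟩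

theorem Pack.nonempty {U : Finset V} {k : ℕ} {F : Finset ι} (h : Pack B U k F) (hk : 1 ≤ k)
    {i : ι} (hi : i ∈ F) : (B i ∩ U).Nonempty := card_pos.1 (by rw [h.card i hi]; exact hk)

/-- replacing the members `D` by the packing `A`. -/
theorem Pack.exchange [DecidableEq ι] {U : Finset V} {k : ℕ} {F D A : Finset ι}
    (h : Pack B U k F) (hA : Pack B U k A)
    (hd : ∀ i ∈ A, ∀ j ∈ F \ D, Disjoint (B i ∩ U) (B j ∩ U)) : Pack B U k ((F \ D) ∪ A) := by
  constructor
  · intro i hi
    rcases mem_union.1 hi with hi | hi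
    · exact h.card i (mem_sdiff.1 hi).1
    · exact hA.card i hi
  · intro i hi j hj hne
    rcases mem_union.1 hi with hi | hi
    · rcases mem_union.1 hj with hj | hj
      · exact h.disj i (mem_sdiff.1 hi).1 j (mem_sdiff.1 hj).1 hne
      · exact (hd j hj i hi).symm
    · rcases mem_union.1 hj with hj | hj
      · exact hd i hi j hj
      · exact hA.disj i hi j hj hne

theorem Pack.exchange_card [DecidableEq ι] {U : Finset V} {k : ℕ} {F D A : Finset ι}
    (hk : 1 ≤ k) (hA : Pack B U k A) (hD : D ⊆ F)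
    (hd : ∀ i ∈ A, ∀ j ∈ F \ D, Disjoint (B i ∩ U) (B j ∩ U)) :
    ((F \ D) ∪ A).card + D.card = F.card + A.card := by
  rw [card_union_of_disjoint]
  · have := card_sdiff_add_card_eq_card hD
    omega
  · rw [Finset.disjoint_left]
    intro i hi hi'
    have h1 := hd i hi' i hi
    rw [disjoint_self] at h1
    have h2 := hA.nonempty hk hi'
    rw [nonempty_iff_ne_empty] at h2
    exact h2 h1

/-- in a maximum packing no exchange gains. -/
theorem MaxPack.card_le [DecidableEq ι] {U : Finset V} {F D A : Finset ι} (h : MaxPack B U F)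
    (hA : Pack B U 5 A) (hD : D ⊆ F)
    (hd : ∀ i ∈ A, ∀ j ∈ F \ D, Disjoint (B i ∩ U) (B j ∩ U)) : A.card ≤ D.card := by
  have h1 := h.max _ (h.pack.exchange hA hd)
  have h2 := Pack.exchange_card (by norm_num) hA hD hd
  omega

/-- an exchange without loss gives a maximum packing. -/
theorem MaxPack.exchange [DecidableEq ι] {U : Finset V} {F D A : Finset ι} (h : MaxPack B U F)
    (hA : Pack B U 5 A) (hD : D ⊆ F)
    (hd : ∀ i ∈ A, ∀ j ∈ F \ D, Disjoint (B i ∩ U) (B j ∩ U)) (hc : D.card ≤ A.card) :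
    MaxPack B U ((F \ D) ∪ A) := by
  refine ⟨h.pack.exchange hA hd, fun F' hF' => ?_⟩
  have h1 := h.max F' hF'
  have h2 := Pack.exchange_card (by norm_num) hA hD hd
  omega

theorem pack_singleton {U : Finset V} {k : ℕ} {i : ι} (h : (B i ∩ U).card = k) :
    Pack B U k {i} := by
  constructor
  · intro j hj; rw [mem_singleton.1 hj]; exact h
  · intro j hj l hl hne
    exact absurd ((mem_singleton.1 hj).trans (mem_singleton.1 hl).symm) hne

theorem pack_insert [DecidableEq ι] {U : Finset V} {k : ℕ} {A : Finset ι} {i : ι}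
    (hA : Pack B U k A) (h : (B i ∩ U).card = k)
    (hd : ∀ j ∈ A, Disjoint (B i ∩ U) (B j ∩ U)) : Pack B U k (insert i A) := by
  constructor
  · intro j hj
    rcases mem_insert.1 hj with rfl | hj
    · exact h
    · exact hA.card j hj
  · intro a ha b hb hne
    rcases mem_insert.1 ha with h' | ha
    · rcases mem_insert.1 hb with h'' | hb
      · exact absurd (h'.trans h''.symm) hne
      · rw [h']; exact hd b hb
    · rcases mem_insert.1 hb with h'' | hb
      · rw [h'']; exact (hd a ha).symm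
      · exact hA.disj a ha b hb hne

/-- the trace outside a maximum packing has at most four points. -/
theorem MaxPack.four {U : Finset V} {F : Finset ι} (h : MaxPack B U F)
    (h5 : ∀ i, (B i ∩ U).card ≤ 5) (i : ι) : (B i ∩ (U \ F.biUnion B)).card ≤ 4 := by
  have := h.pack.lt_of_max h.max (by norm_num) h5 i
  omega

/-- a block outside the packing with exactly five points, exactly one of them in the packing. -/
def Priv (B : ι → Finset V) (U : Finset V) (F : Finset ι) (i : ι) : Prop :=
  i ∉ F ∧ (B i ∩ U).card = 5 ∧ hh B U F i = 1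

/-- a private block of the member `j`. -/
def Pri (B : ι → Finset V) (U : Finset V) (F : Finset ι) (j i : ι) : Prop :=
  Priv B U F i ∧ ((B i ∩ U) ∩ (B j ∩ U)).Nonempty

theorem Pri.disj {U : Finset V} {F : Finset ι} (hF : Pack B U 5 F) {j i : ι} (hj : j ∈ F)
    (h : Pri B U F j i) {k : ι} (hk : k ∈ F) (hne : k ≠ j) :
    Disjoint (B i ∩ U) (B k ∩ U) := by
  obtain ⟨⟨_, _, h3⟩, v, hv⟩ := h
  rw [Finset.disjoint_left]
  intro w hw hw'
  rw [mem_inter] at hv
  have h4 : v ∈ B i ∩ (F.biUnion B ∩ U) := by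
    rw [mem_inter, mem_inter]
    exact ⟨(mem_inter.1 hv.1).1, mem_biUnion.2 ⟨j, hj, (mem_inter.1 hv.2).1⟩,
      (mem_inter.1 hv.1).2⟩
  have h5 : w ∈ B i ∩ (F.biUnion B ∩ U) := by
    rw [mem_inter, mem_inter]
    exact ⟨(mem_inter.1 hw).1, mem_biUnion.2 ⟨k, hk, (mem_inter.1 hw').1⟩,
      (mem_inter.1 hw).2⟩
  have h6 : v = w := by
    unfold hh at h3
    exact (card_le_one.1 h3.le) v h4 w h5
  rw [h6] at hv
  exact Finset.disjoint_left.1 (hF.disj k hk j hj hne) hw' hv.2

/-- the point of a private block in its member. -/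
theorem Pri.point {U : Finset V} {F : Finset ι} {j i : ι} (hj : j ∈ F) (h : Pri B U F j i) :
    ∃ v, B i ∩ (F.biUnion B ∩ U) = {v} ∧ v ∈ B i ∧ v ∈ B j ∧ v ∈ U := by
  obtain ⟨⟨_, _, h3⟩, v, hv⟩ := h
  rw [mem_inter, mem_inter, mem_inter] at hv
  have h4 : v ∈ B i ∩ (F.biUnion B ∩ U) := by
    rw [mem_inter, mem_inter]
    exact ⟨hv.1.1, mem_biUnion.2 ⟨j, hj, hv.2.1⟩, hv.1.2⟩
  refine ⟨v, ?_, hv.1.1, hv.2.1, hv.1.2⟩
  obtain ⟨w, hw⟩ := card_eq_one.1 h3
  rw [hw] at h4 ⊢
  rw [mem_singleton.1 h4]

/-- a private block has a member. -/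
theorem Priv.exists {U : Finset V} {F : Finset ι} {i : ι} (h : Priv B U F i) :
    ∃ j ∈ F, Pri B U F j i := by
  have h3 : 0 < hh B U F i := by rw [h.2.2]; norm_num
  obtain ⟨v, hv⟩ := card_pos.1 h3
  rw [mem_inter, mem_inter] at hv
  obtain ⟨j, hj, hvj⟩ := mem_biUnion.1 hv.2.1
  exact ⟨j, hj, h, v, mem_inter.2 ⟨mem_inter.2 ⟨hv.1, hv.2.2⟩, mem_inter.2 ⟨hvj, hv.2.2⟩⟩⟩

theorem Pri.unique {U : Finset V} {F : Finset ι} (hF : Pack B U 5 F) {j k i : ι} (hj : j ∈ F)
    (hk : k ∈ F) (h : Pri B U F j i) (h' : Pri B U F k i) : j = k := by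
  by_contra hne
  have h1 := h.disj hF hj hk (fun he => hne he.symm)
  obtain ⟨_, v, hv⟩ := h'
  rw [mem_inter] at hv
  exact Finset.disjoint_left.1 h1 hv.1 hv.2

/-- two private blocks of the same member meet. -/
theorem MaxPack.pri_meet [DecidableEq ι] {U : Finset V} {F : Finset ι} (h : MaxPack B U F)
    {j i i' : ι} (hj : j ∈ F) (hi : Pri B U F j i) (hi' : Pri B U F j i') :
    ¬ Disjoint (B i ∩ U) (B i' ∩ U) := by
  intro hd
  have hne : i ≠ i' := by
    rintro rfl
    rw [disjoint_self] at hd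
    have : (B i ∩ U).card = 0 := by rw [hd]; rfl
    have := hi.1.2.1
    omega
  have hA : Pack B U 5 ({i, i'} : Finset ι) :=
    pack_insert (pack_singleton hi'.1.2.1) hi.1.2.1 (by
      intro l hl; rw [mem_singleton.1 hl]; exact hd)
  have h1 := h.card_le (D := {j}) hA (singleton_subset_iff.2 hj) (by
    intro a ha k hk
    rw [mem_sdiff, mem_singleton] at hk
    rcases mem_insert.1 ha with rfl | ha
    · exact hi.disj h.pack hj hk.1 hk.2
    · rw [mem_singleton.1 ha]; exact hi'.disj h.pack hj hk.1 hk.2)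
  rw [card_pair hne, card_singleton] at h1
  omega

/-- the exchange `F - Z + N`. -/
theorem MaxPack.swap [DecidableEq ι] {U : Finset V} {F : Finset ι} (h : MaxPack B U F)
    {j i : ι} (hj : j ∈ F) (hi : Pri B U F j i) : MaxPack B U ((F \ {j}) ∪ {i}) := by
  refine h.exchange (pack_singleton hi.1.2.1) (singleton_subset_iff.2 hj) ?_ (by simp)
  intro a ha k hk
  rw [mem_sdiff, mem_singleton] at hk
  rw [mem_singleton.1 ha]
  exact hi.disj h.pack hj hk.1 hk.2

/-- the exchange `F - Z - Z' + B + N`: `b` meets only the members `j`, `j'`, and `i` is a private block of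
`j` disjoint from `b`. -/
theorem MaxPack.swap2 [DecidableEq ι] {U : Finset V} {F : Finset ι} (h : MaxPack B U F)
    {j j' b i : ι} (hj : j ∈ F) (hj' : j' ∈ F) (hb : (B b ∩ U).card = 5)
    (hbF : ∀ k ∈ F, k ≠ j → k ≠ j' → Disjoint (B b ∩ U) (B k ∩ U)) (hi : Pri B U F j i)
    (hbi : Disjoint (B b ∩ U) (B i ∩ U)) : MaxPack B U ((F \ {j, j'}) ∪ {b, i}) := by
  have hne : b ≠ i := by
    rintro rfl
    rw [disjoint_self] at hbi
    have : (B b ∩ U).card = 0 := by rw [hbi]; rfl
    omega
  have hA : Pack B U 5 ({b, i} : Finset ι) :=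
    pack_insert (pack_singleton hi.1.2.1) hb (by
      intro l hl; rw [mem_singleton.1 hl]; exact hbi)
  refine h.exchange hA ?_ ?_ ?_
  · intro l hl
    rcases mem_insert.1 hl with rfl | hl
    · exact hj
    · rw [mem_singleton.1 hl]; exact hj'
  · intro a ha k hk
    rw [mem_sdiff, mem_insert, mem_singleton, not_or] at hk
    rcases mem_insert.1 ha with rfl | ha
    · exact hbF k hk.1 hk.2.1 hk.2.2
    · rw [mem_singleton.1 ha]; exact hi.disj h.pack hj hk.1 hk.2.1
  · rw [card_pair hne]
    exact card_le_two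

/-- cross-intersection: a block `b` meeting only the members `j`, `j'` and private blocks of `j` and `j'`
disjoint from `b` meet. -/
theorem MaxPack.cross [DecidableEq ι] {U : Finset V} {F : Finset ι} (h : MaxPack B U F)
    {j j' b i i' : ι} (hj : j ∈ F) (hj' : j' ∈ F) (hb : (B b ∩ U).card = 5)
    (hbF : ∀ k ∈ F, k ≠ j → k ≠ j' → Disjoint (B b ∩ U) (B k ∩ U)) (hi : Pri B U F j i)
    (hi' : Pri B U F j' i') (hbi : Disjoint (B b ∩ U) (B i ∩ U))
    (hbi' : Disjoint (B b ∩ U) (B i' ∩ U)) : ¬ Disjoint (B i ∩ U) (B i' ∩ U) := by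
  intro hd
  have hbne : ∀ l, Disjoint (B b ∩ U) (B l ∩ U) → b ≠ l := by
    rintro l hl rfl
    rw [disjoint_self] at hl
    have : (B b ∩ U).card = 0 := by rw [hl]; rfl
    omega
  have hne : i ≠ i' := by
    rintro rfl
    rw [disjoint_self] at hd
    have : (B i ∩ U).card = 0 := by rw [hd]; rfl
    have := hi.1.2.1
    omega
  have hA2 : Pack B U 5 ({i, i'} : Finset ι) :=
    pack_insert (pack_singleton hi'.1.2.1) hi.1.2.1 (by
      intro l hl; rw [mem_singleton.1 hl]; exact hd)
  have hA : Pack B U 5 (insert b ({i, i'} : Finset ι)) :=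
    pack_insert hA2 hb (by
      intro l hl
      rcases mem_insert.1 hl with rfl | hl
      · exact hbi
      · rw [mem_singleton.1 hl]; exact hbi')
  have h1 := h.card_le (D := {j, j'}) hA (by
    intro l hl
    rcases mem_insert.1 hl with rfl | hl
    · exact hj
    · rw [mem_singleton.1 hl]; exact hj') (by
    intro a ha k hk
    rw [mem_sdiff, mem_insert, mem_singleton, not_or] at hk
    rcases mem_insert.1 ha with rfl | ha
    · exact hbF k hk.1 hk.2.1 hk.2.2
    rcases mem_insert.1 ha with rfl | ha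
    · exact hi.disj h.pack hj hk.1 hk.2.1
    · rw [mem_singleton.1 ha]; exact hi'.disj h.pack hj' hk.1 hk.2.2)
  have h2 : (insert b ({i, i'} : Finset ι)).card = 3 := by
    rw [card_insert_of_notMem, card_pair hne]
    rw [mem_insert, mem_singleton, not_or]
    exact ⟨hbne i hbi, hbne i' hbi'⟩
  have h3 : ({j, j'} : Finset ι).card ≤ 2 := card_le_two
  omega

section Value

variable [Fintype ι]

open Classical in
/-- the number of private blocks of the member `j`. -/
noncomputable def pp (B : ι → Finset V) (U : Finset V) (F : Finset ι) (j : ι) : ℕ :=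
  (univ.filter (fun i => Pri B U F j i)).card

open Classical in
/-- the private blocks are counted by the members. -/
theorem sum_pp {U : Finset V} {F : Finset ι} (hF : Pack B U 5 F) :
    ∑ j ∈ F, pp B U F j = (univ.filter (fun i => Priv B U F i)).card := by
  unfold pp
  rw [← card_biUnion]
  · congr 1
    ext i
    simp only [mem_biUnion, mem_filter, mem_univ, true_and]
    constructor
    · rintro ⟨j, _, h⟩
      exact h.1
    · intro h
      exact h.exists
  · intro j hj k hk hne
    show Disjoint _ _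
    rw [Finset.disjoint_left]
    intro i hi hi'
    exact hne ((mem_filter.1 hi).2.unique hF hj hk (mem_filter.1 hi').2)

/-- the credit of a block which is not private: its value minus `75` for each point in the packing. -/
def cred (h s : ℕ) : ℤ := vals h s - 75 * (h : ℤ)

open Classical in
/-- **the balance with private blocks** (scale 13200, slope `(13, 7, 55)`): every member `j` has
`1100 - 75 p(j)`, every other block its credit. -/
theorem val_priv {U : Finset V} {F : Finset ι} (h : Pack B U 5 F) (hr : Reg B U)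
    (h5 : ∀ i, (B i ∩ U).card ≤ 5) :
    550 * Pv B (U \ F.biUnion B) + ∑ j ∈ F, (1100 - 75 * (pp B U F j : ℤ)) +
      ∑ i ∈ (univ \ F).filter (fun i => ¬ Priv B U F i), cred (hh B U F i) (B i ∩ U).card ≤
      240 * (13 * cm B U + 7 * U.card - 55 * rho B U : ℤ) := by
  have h1 := val_Cs' h hr h5
  have h2 : (∑ i ∈ univ \ F, (hh B U F i : ℤ)) = 20 * (F.card : ℤ) := by
    have := h.sum_hh hr
    exact_mod_cast this
  have h3 : ∑ i ∈ univ \ F, vals (hh B U F i) (B i ∩ U).card =
      ∑ i ∈ univ \ F, cred (hh B U F i) (B i ∩ U).card + 75 * ∑ i ∈ univ \ F, (hh B U F i : ℤ) := by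
    rw [mul_sum, ← sum_add_distrib]
    exact sum_congr rfl fun i _ => by unfold cred; ring
  have h4 := sum_filter_add_sum_filter_not (univ \ F) (fun i => Priv B U F i)
    (fun i => cred (hh B U F i) (B i ∩ U).card)
  have h5' : ∑ i ∈ (univ \ F).filter (fun i => Priv B U F i),
      cred (hh B U F i) (B i ∩ U).card = -75 * ((univ.filter (fun i => Priv B U F i)).card : ℤ) := by
    have e : (univ \ F).filter (fun i => Priv B U F i) = univ.filter (fun i => Priv B U F i) := by
      ext i
      simp only [mem_filter, mem_sdiff, mem_univ, true_and]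
      exact ⟨fun g => g.2, fun g => ⟨g.1, g⟩⟩
    rw [e, sum_congr rfl (fun i hi => by
      have g := (mem_filter.1 hi).2
      rw [g.2.1, g.2.2]
      unfold cred vals
      norm_num : ∀ i ∈ univ.filter (fun i => Priv B U F i),
        cred (hh B U F i) (B i ∩ U).card = -75)]
    simp only [sum_const, nsmul_eq_mul]
    ring
  have h6 : ∑ j ∈ F, (1100 - 75 * (pp B U F j : ℤ)) =
      1100 * (F.card : ℤ) - 75 * ((univ.filter (fun i => Priv B U F i)).card : ℤ) := by
    rw [sum_sub_distrib, ← mul_sum]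
    have := sum_pp h
    have g : (∑ j ∈ F, (pp B U F j : ℤ)) = ((univ.filter (fun i => Priv B U F i)).card : ℤ) := by
      exact_mod_cast this
    rw [g]
    simp only [sum_const, nsmul_eq_mul]
    ring
  rw [h3, h2, ← h4, h5'] at h1
  rw [h6]
  linarith

/-- the credits are nonnegative. -/
theorem cred_nonneg {U : Finset V} {F : Finset ι} (hm : MaxPack B U F)
    (h5 : ∀ i, (B i ∩ U).card ≤ 5) {i : ι} (hi : i ∉ F) (hp : ¬ Priv B U F i) :
    0 ≤ cred (hh B U F i) (B i ∩ U).card := by
  have h1 := h5 i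
  have h2 := hh_add_ww (B := B) U F i
  unfold cred vals
  by_cases h3 : (B i ∩ U).card = 0
  · have : hh B U F i = 0 := by omega
    rw [if_pos h3, this]; norm_num
  · rw [if_neg h3]
    by_cases h4 : (B i ∩ U).card = 5
    · rw [if_pos h4]
      have h6 := hm.four h5 i
      have h7 : ww B U F i ≤ 4 := h6
      have h8 : hh B U F i ≠ 1 := fun g => hp ⟨hi, h4, g⟩
      have h9 : 2 ≤ hh B U F i := by omega
      have h10 : (2 : ℤ) ≤ hh B U F i := by exact_mod_cast h9
      linarith
    · rw [if_neg h4]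
      have h6 : (B i ∩ U).card ≤ 4 := by omega
      have h7 : (((B i ∩ U).card : ℕ) : ℤ) ≤ 4 := by exact_mod_cast h6
      have h8 : (0 : ℤ) ≤ hh B U F i := by positivity
      linarith

end Value

end Pool.Agent.Hyp6
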