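import Pool.Agent.Hyp6.L4V

/-!
# HYP6 L4P: packings of quads touching K-pieces (helper43's T0P1)

`HD B Q`: the K-pieces inside `Q` are pairwise disjoint. `PkF B Q Pk`: a family of blocks with four
points in `Q`, each meeting a K-piece, with pairwise disjoint traces. `R1 = Pv + 2 kap(Q - UPk) + |Pk|`.
-/

set_option autoImplicit false

namespace Pool.Agent.Hyp6

open Finset Pool.Agent.Hyp5

universe u v

variable {V : Type v} [DecidableEq V] {ι : Type u} [Fintype ι] {B : ι → Finset V}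

/-- the K-pieces inside `Q` are pairwise disjoint. -/
def HD (B : ι → Finset V) (Q : Finset V) : Prop :=
  ∀ X ⊆ Q, ∀ Y ⊆ Q, KP B X → KP B Y → X ≠ Y → Disjoint X Y

/-- a packing of quads touching K-pieces. -/
structure PkF (B : ι → Finset V) (Q : Finset V) (Pk : Finset ι) : Prop where
  four : ∀ i ∈ Pk, (B i ∩ Q).card = 4
  hit : ∀ i ∈ Pk, ∃ X ⊆ Q, KP B X ∧ (B i ∩ X).Nonempty
  disj : ∀ i ∈ Pk, ∀ j ∈ Pk, i ≠ j → Disjoint (B i ∩ Q) (B j ∩ Q)

/-- the value of a set with a packing. -/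
noncomputable def R1 (B : ι → Finset V) (Q : Finset V) (Pk : Finset ι) : ℤ :=
  Pv B Q + 2 * (kap B (Q \ Pk.biUnion B) : ℤ) + (Pk.card : ℤ)

/-- the input Q-A: a connected K-free set with value `-1` has `sv = -1`. -/
def QA (V : Type v) [DecidableEq V] : Prop :=
  ∀ (κ : Type u) [Fintype κ] (B : κ → Finset V) (Q : Finset V), Reg B Q → Tr4 B Q →
    Conn (gr B) Q → KFree B Q → Pv B Q = -1 → sv B Q = -1

variable {Q : Finset V} {Pk : Finset ι}

theorem HD.mono {W : Finset V} (h : HD B Q) (hW : W ⊆ Q) : HD B W := fun X hX Y hY =>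
  h X (hX.trans hW) Y (hY.trans hW)

/-- two blocks of a packing do not meet the same K-piece. -/
theorem PkF.two_hits (h : PkF B Q Pk) (hr : Reg B Q) {i j : ι} (hi : i ∈ Pk) (hj : j ∈ Pk)
    (hij : i ≠ j) {X : Finset V} (hX : X ⊆ Q) (hK : KP B X) (hiX : (B i ∩ X).Nonempty)
    (hjX : (B j ∩ X).Nonempty) : False := by
  have hrX := hr.mono hX
  have h1 := hK.trace hrX hiX
  have h2 := hK.trace hrX hjX
  have h3 : Disjoint (B i ∩ X) (B j ∩ X) :=
    disjoint_of_subset_left (inter_subset_inter_left hX)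
      (disjoint_of_subset_right (inter_subset_inter_left hX) (h.disj i hi j hj hij))
  have h4 : (B i ∩ X) ∪ (B j ∩ X) = X := by
    refine eq_of_subset_of_card_le (union_subset inter_subset_right inter_subset_right) ?_
    rw [card_union_of_disjoint h3, hK.card]
    omega
  refine hK.not_cover i j fun v hv => ?_
  rw [← h4] at hv
  rcases mem_union.1 hv with h5 | h5
  · exact mem_union_left _ (mem_inter.1 h5).1
  · exact mem_union_right _ (mem_inter.1 h5).1

theorem PkF.disj_piece (h : PkF B Q Pk) (hr : Reg B Q) {z i : ι} (hz : z ∈ Pk)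
    (hi : i ∈ Pk) (hiz : i ≠ z) {X : Finset V} (hX : X ⊆ Q) (hK : KP B X)
    (hiX : (B i ∩ X).Nonempty) : ∀ v ∈ X, v ∉ B z := by
  intro v hv hvz
  exact h.two_hits hr hi hz hiz hX hK hiX ⟨v, mem_inter.2 ⟨hvz, hv⟩⟩

theorem sdiff_filter_biUnion (C : Finset V) (P : Finset ι) :
    C \ (P.filter (fun i => (B i ∩ C).Nonempty)).biUnion B = C \ P.biUnion B := by
  ext v
  rw [mem_sdiff, mem_sdiff]
  refine and_congr_right fun hv => not_congr ?_
  rw [mem_biUnion, mem_biUnion]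
  constructor
  · rintro ⟨i, hi, hvi⟩
    exact ⟨i, (mem_filter.1 hi).1, hvi⟩
  · rintro ⟨i, hi, hvi⟩
    exact ⟨i, mem_filter.2 ⟨hi, v, mem_inter.2 ⟨hvi, hv⟩⟩, hvi⟩

omit [Fintype ι] in
theorem sum_filter_le {F : Finset (Finset V)} (hF : SepF B F) (P : Finset ι) :
    ∑ C ∈ F, (P.filter (fun i => (B i ∩ C).Nonempty)).card ≤ P.card := by
  classical
  rw [← card_biUnion]
  · refine card_le_card fun i hi => ?_
    obtain ⟨C, _, hi⟩ := mem_biUnion.1 hi
    exact (mem_filter.1 hi).1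
  · intro C hC D hD hne
    rw [Function.onFun, disjoint_left]
    intro i hi hi'
    exact (hF C hC D hD hne).2 i (mem_filter.1 hi).2 (mem_filter.1 hi').2

/-- the packing in a part. -/
theorem PkF.part (h : PkF B Q Pk) (hr : Reg B Q) {W C : Finset V} (hWQ : W ⊆ Q)
    (hC : Closed (gr B) W C) {P' : Finset ι} (hP : P' ⊆ Pk) (hW : ∀ i ∈ P', B i ∩ Q ⊆ W)
    (hX : ∀ i ∈ P', ∀ X ⊆ Q, KP B X → (B i ∩ X).Nonempty → X ⊆ W) :
    PkF B C (P'.filter (fun i => (B i ∩ C).Nonempty)) := by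
  have hCQ : C ⊆ Q := hC.1.trans hWQ
  have key : ∀ i ∈ P'.filter (fun i => (B i ∩ C).Nonempty), B i ∩ C = B i ∩ Q := by
    intro i hi
    rw [mem_filter] at hi
    refine Subset.antisymm (inter_subset_inter_left hCQ) fun v hv => ?_
    have h1 := block_closed hC i hi.2
    exact mem_inter.2 ⟨(mem_inter.1 hv).1,
      h1 (mem_inter.2 ⟨(mem_inter.1 hv).1, hW i hi.1 hv⟩)⟩
  refine ⟨?_, ?_, ?_⟩
  · intro i hi
    rw [key i hi]
    exact h.four i (hP (mem_filter.1 hi).1)
  · intro i hi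
    have hi' := mem_filter.1 hi
    obtain ⟨X, hXQ, hK, hiX⟩ := h.hit i (hP hi'.1)
    refine ⟨X, ?_, hK, hiX⟩
    refine hK.sub_closed (hr.mono hXQ) (hX i hi'.1 X hXQ hK hiX) hC ?_
    obtain ⟨v, hv⟩ := hiX
    rw [mem_inter] at hv
    have h1 : v ∈ B i ∩ C := by
      rw [key i hi]
      exact mem_inter.2 ⟨hv.1, hXQ hv.2⟩
    exact ⟨v, mem_inter.2 ⟨(mem_inter.1 h1).2, hv.2⟩⟩
  · intro i hi j hj hij
    rw [key i hi, key j hj]
    exact h.disj i (hP (mem_filter.1 hi).1) j (hP (mem_filter.1 hj).1) hij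

/-- a point with a block whose trace is the point is in no K-piece. -/
theorem kap_insert_sdiff_le {C S : Finset V} {x : V} (hr : Reg B (insert x C)) {i : ι}
    (hxi : x ∈ B i) (hiC : ¬ (B i ∩ C).Nonempty) : kap B (insert x C \ S) ≤ kap B (C \ S) := by
  obtain ⟨P, hP, hc⟩ := exists_kap B (insert x C \ S)
  rw [← hc]
  have hsub : ∀ Y ∈ P, Y ⊆ insert x C := fun Y hY => (hP.sub Y hY).trans sdiff_subset
  refine KFam.le_kap ⟨fun Y hY v hv => ?_, hP.kp, hP.disj⟩
  have hvS := (mem_sdiff.1 (hP.sub Y hY hv)).2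
  rcases mem_insert.1 (hsub Y hY hv) with h1 | h1
  · exfalso
    rw [h1] at hv
    have h2 := (hP.kp Y hY).trace (hr.mono (hsub Y hY)) (i := i)
      ⟨x, mem_inter.2 ⟨hxi, hv⟩⟩
    have h3 : B i ∩ Y ⊆ {x} := by
      intro w hw
      rw [mem_inter] at hw
      rw [mem_singleton]
      rcases mem_insert.1 (hsub Y hY hw.2) with h4 | h4
      · exact h4
      · exact absurd ⟨w, mem_inter.2 ⟨hw.1, h4⟩⟩ hiC
    have h4 := card_le_card h3
    rw [card_singleton] at h4
    omega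
  · exact mem_sdiff.2 ⟨h1, hvS⟩

/-- superadditivity for an indexed family. -/
theorem sum_kap_le' {Q : Finset V} {F : Finset (Finset V)} (g : Finset V → Finset V)
    (hF : ∀ C ∈ F, g C ⊆ Q) (hd : ∀ C ∈ F, ∀ D ∈ F, C ≠ D → Disjoint (g C) (g D)) :
    ∑ C ∈ F, kap B (g C) ≤ kap B Q := by
  classical
  choose P hP hc using exists_kap B
  have h1 : (F.biUnion (fun C => P (g C))).card = ∑ C ∈ F, (P (g C)).card := by
    refine card_biUnion fun C hC D hD hne => ?_
    rw [Function.onFun, disjoint_left]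
    intro X hX hX'
    have h2 := (hP (g C)).sub X hX
    have h3 := (hP (g D)).sub X hX'
    obtain ⟨v, hv⟩ := ((hP (g C)).kp X hX).nonempty
    exact disjoint_left.1 (hd C hC D hD hne) (h2 hv) (h3 hv)
  have h2 : KFam B Q (F.biUnion (fun C => P (g C))) := by
    refine ⟨?_, ?_, ?_⟩
    · intro X hX
      obtain ⟨C, hC, hXC⟩ := mem_biUnion.1 hX
      exact ((hP (g C)).sub X hXC).trans (hF C hC)
    · intro X hX
      obtain ⟨C, _, hXC⟩ := mem_biUnion.1 hX
      exact (hP (g C)).kp X hXC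
    · intro X hX Y hY hne
      obtain ⟨C, hC, hXC⟩ := mem_biUnion.1 hX
      obtain ⟨D, hD, hYD⟩ := mem_biUnion.1 hY
      by_cases hCD : C = D
      · rw [← hCD] at hYD
        exact (hP (g C)).disj X hXC Y hYD hne
      · exact disjoint_of_subset_left ((hP (g C)).sub X hXC)
          (disjoint_of_subset_right ((hP (g D)).sub Y hYD) (hd C hC D hD hCD))
  have h3 := h2.le_kap
  rw [h1] at h3
  calc ∑ C ∈ F, kap B (g C) = ∑ C ∈ F, (P (g C)).card := sum_congr rfl fun C _ => (hc _).symm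
    _ ≤ kap B Q := h3

/-- the K-pieces of the parts outside the packing. -/
theorem sum_kap_part {W U : Finset V} {F : Finset (Finset V)} (hF : SepF B F)
    (hW : ∀ C ∈ F, C ⊆ W) {P : Finset ι} (hU : W \ P.biUnion B ⊆ U) :
    ∑ C ∈ F, kap B (C \ (P.filter (fun i => (B i ∩ C).Nonempty)).biUnion B) ≤ kap B U := by
  have h1 : ∀ C ∈ F, kap B (C \ (P.filter (fun i => (B i ∩ C).Nonempty)).biUnion B) =
      kap B (C \ P.biUnion B) := fun C _ => by rw [sdiff_filter_biUnion]
  rw [sum_congr rfl h1]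
  refine sum_kap_le' (fun C => C \ P.biUnion B) ?_ ?_
  · intro C hC
    exact (sdiff_subset_sdiff (hW C hC) (Subset.refl _)).trans hU
  · intro C hC D hD hne
    exact disjoint_of_subset_left sdiff_subset
      (disjoint_of_subset_right sdiff_subset (hF C hC D hD hne).1)

end Pool.Agent.Hyp6
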