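import Pool.Agent.Hyp6.QTb
import Pool.Agent.Hyp6.L4P
import Pool.Agent.Hyp6.CritLow2

/-!
# HYP6 QTPP: T0++ (helper90, section 5) from the absorption of `4444` and the level-3 theorem

`F44 V`: a connected K-free set with `Pv = sv = -1` absorbs four points with four blocks each.
`L3p V`: the level-3 theorem for `sv ≥ 1`. Result: `QA V`.
-/

set_option autoImplicit false

namespace Pool.Agent.Hyp6

open Finset Pool.Agent.Hyp5

universe u v

variable {V : Type v} [DecidableEq V] {ι : Type u} [Fintype ι] {B : ι → Finset V}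
variable {Q Z : Finset V} {F : Finset (Finset V)} {i0 : ι}

/-- the last case: the component `D` has one block to three points of `Z`, four to the last point. -/
theorem Cu.last (h : Cu B Q Z F i0) {C D : Finset V} (hF : F = {C, D}) (hCD : C ≠ D)
    (hor : 0 ≤ Pv B D ∨ 0 ≤ sv B C) {a b c d : V} (h4 : Four Z a b c d) (ha : 1 ≤ (Ez B C a).card) (hd : Abz B D {d}) {β : ι}
    (hβ : ∀ x ∈ ({a, b, c} : Finset V), ∀ i ∈ Ez B D x, i = β) : False := by
  classical
  have hC : C ∈ F := by rw [hF]; simp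
  have hD : D ∈ F := by rw [hF]; simp
  have hsum := h.un
  rw [hF, biUnion_insert, singleton_biUnion] at hsum
  simp only [id] at hsum
  have habc : ({a, b, c} : Finset V) ⊆ Z := by
    intro x hx
    simp only [mem_insert, mem_singleton] at hx
    rcases hx with rfl | rfl | rfl
    · exact h4.ma
    · exact h4.mb
    · exact h4.mc
  set M : Finset V := {a, b, c} ∪ C with hM
  have hMQ : M ⊆ Q := union_subset (habc.trans h.ZQ) (h.cp hC).sub
  have hDQ : D ⊆ Q := (h.cp hD).sub
  have hdM : d ∉ M := by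
    rw [hM, mem_union]
    rintro (h1 | h1)
    · simp only [mem_insert, mem_singleton] at h1
      rcases h1 with h1 | h1 | h1
      · exact h4.ad h1.symm
      · exact h4.bd h1.symm
      · exact h4.cd h1.symm
    · exact h.notMem hC h4.md h1
  have hMD : Disjoint M D := by
    rw [hM, disjoint_union_left]
    refine ⟨?_, (h.sep C hC D hD hCD).1⟩
    rw [disjoint_left]
    intro x hx hxD
    exact h.notMem hD (habc hx) hxD
  have hQ : Q = (M ∪ D) ∪ {d} := by
    ext v
    constructor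
    · intro hv
      by_cases hvZ : v ∈ Z
      · rcases h4.cov v hvZ with rfl | rfl | rfl | rfl
        · simp [hM]
        · simp [hM]
        · simp [hM]
        · simp
      · have h1 : v ∈ C ∪ D := by
          rw [hsum]
          exact mem_sdiff.2 ⟨hv, hvZ⟩
        rcases mem_union.1 h1 with h2 | h2
        · exact mem_union_left _ (mem_union_left _ (mem_union_right _ h2))
        · exact mem_union_left _ (mem_union_right _ h2)
    · intro hv
      rcases mem_union.1 hv with h1 | h1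
      · rcases mem_union.1 h1 with h2 | h2
        · exact hMQ h2
        · exact hDQ h2
      · rw [mem_singleton] at h1
        rw [h1]
        exact h.ZQ h4.md
  have hcard : Q.card = M.card + D.card + 1 := by
    conv_lhs => rw [hQ]
    rw [card_union_of_disjoint, card_union_of_disjoint hMD, card_singleton]
    rw [disjoint_singleton_right, mem_union]
    rintro (h1 | h1)
    · exact hdM h1
    · exact h.notMem hD h4.md h1
  have hconn : Conn (gr B) M := by
    refine ⟨⟨a, by simp [hM]⟩, fun S hS hne => ?_⟩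
    have hcomp : (S ∩ C).Nonempty → C ⊆ S := by
      intro hSC
      have h1 : Closed (gr B) C (S ∩ C) := by
        refine ⟨inter_subset_right, fun x hx y hy hxy => ?_⟩
        rw [mem_inter] at hx ⊢
        exact ⟨hS.2 x hx.1 y (mem_union_right _ hy) hxy, hy⟩
      rw [← (h.parts C hC).2.2.2 _ h1 hSC]
      exact inter_subset_left
    obtain ⟨i, hi⟩ := card_pos.1 ha
    obtain ⟨hi1, u, hu⟩ := mem_Ez.1 hi
    rw [mem_inter] at hu
    have hadj : (gr B).Adj a u := by
      refine ⟨?_, i, hi1, hu.1⟩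
      rintro rfl
      exact h.notMem hC h4.ma hu.2
    have haM : a ∈ M := by simp [hM]
    have hclq : ∀ x ∈ ({a, b, c} : Finset V), x ∈ S → ({a, b, c} : Finset V) ⊆ S := by
      intro x hx hxS y hy
      by_cases hxy : x = y
      · rw [← hxy]
        exact hxS
      · exact hS.2 x hxS y (mem_union_left _ hy)
          ⟨hxy, i0, h.i0_mem (habc hx), h.i0_mem (habc hy)⟩
    have haS : a ∈ S := by
      obtain ⟨s, hs⟩ := hne
      rcases mem_union.1 (hS.1 hs) with h1 | h1
      · exact hclq s h1 hs (by simp)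
      · exact hS.2 u (hcomp ⟨s, mem_inter.2 ⟨hs, h1⟩⟩ hu.2) a haM hadj.symm
    refine Subset.antisymm hS.1 fun v hv => ?_
    rcases mem_union.1 hv with h1 | h1
    · exact hclq a (by simp) haS h1
    · have h2 : u ∈ S := hS.2 a haS u (mem_union_right _ hu.2) hadj
      exact hcomp ⟨u, mem_inter.2 ⟨h2, hu.2⟩⟩ h1
  have hPM := h.ih Q.card ι B M (by omega) (h.reg.mono hMQ) (h.tr.mono hMQ) hconn
    (h.kf.mono hMQ)
  have hPD : -1 ≤ Pv B D := h.P_ge hD
  have hPMD : -1 ≤ Pv B M + Pv B D := by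
    rcases hor with h1 | h1
    · have h2 : (0 : ℤ) ≤ ee B M M := by positivity
      linarith
    · have h2 : 0 ≤ Pv B M := by
        refine h.ihp ι B M (by omega) (h.reg.mono hMQ) (h.tr.mono hMQ) hconn
          (h.kf.mono hMQ) ?_
        have h3 : rho B M ≤ rho B C + 1 := by
          have h4 : rho B M ≤ rho B (M \ {a, b, c}) + 1 :=
            rho_le_sdiff (i := i0) (fun x hx => h.i0_mem (habc hx)) (h.cov.mono hMQ)
          have h5 : M \ {a, b, c} ⊆ C := by
            intro v hv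
            rw [mem_sdiff, hM, mem_union] at hv
            rcases hv.1 with h6 | h6
            · exact absurd h6 hv.2
            · exact h6
          have h6 := rho_mono h5 (h.cp hC).cov
          omega
        have h4 : M.card = C.card + 3 := by
          have h5 : Disjoint ({a, b, c} : Finset V) C := by
            rw [disjoint_left]
            intro x hx hxC
            exact h.notMem hC (habc hx) hxC
          have h6 : ({a, b, c} : Finset V).card = 3 :=
            card_eq_three.2 ⟨a, b, c, h4.ab, h4.ac, h4.bc, rfl⟩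
          rw [hM, card_union_of_disjoint h5, h6]
          omega
        unfold sv at h1 ⊢
        have c1 : (M.card : ℤ) = C.card + 3 := by exact_mod_cast h4
        have c2 : (rho B M : ℤ) ≤ rho B C + 1 := by exact_mod_cast h3
        linarith
      linarith
  have hcx : cx B M D ≤ 1 := by
    refine (card_le_card (t := {β}) fun i hi => ?_).trans (by simp)
    rw [mem_cxs] at hi
    obtain ⟨⟨x, hx⟩, hiD⟩ := hi
    rw [mem_inter] at hx
    rw [mem_singleton]
    rcases mem_union.1 hx.2 with h1 | h1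
    · exact hβ x h1 i (mem_Ez.2 ⟨hx.1, hiD⟩)
    · exact absurd hiD (fun h2 =>
        (h.sep C hC D hD hCD).2 i ⟨x, mem_inter.2 ⟨hx.1, h1⟩⟩ h2)
  have hcm : cm B M + cm B D ≤ cm B Q + 1 := by
    have h1 := cm_union (B := B) M D
    have h2 : cm B (M ∪ D) ≤ cm B Q := cm_mono (union_subset hMQ hDQ)
    omega
  have hrho : rho B Q ≤ rho B M + rho B D := by
    obtain ⟨T, hT, hTc⟩ := hd
    obtain ⟨T', hT', hTc'⟩ := exists_cover (h.cov.mono hMQ)
    rw [← hTc']
    refine (Hyp6.rho_le (T := T' ∪ T) ?_).trans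
      ((card_union_le _ _).trans (Nat.add_le_add_left hTc _))
    rw [hQ, union_biUnion, union_assoc]
    exact union_subset_union hT' hT
  have e1 := Hyp6.Pv_eq (B := B) Q
  have e2 := Hyp6.Pv_eq (B := B) M
  have e3 := Hyp6.Pv_eq (B := B) D
  have h1 := h.val
  have c1 : (Q.card : ℤ) = M.card + D.card + 1 := by exact_mod_cast hcard
  have c2 : (cm B M : ℤ) + cm B D ≤ cm B Q + 1 := by exact_mod_cast hcm
  have c3 : (rho B Q : ℤ) ≤ rho B M + rho B D := by exact_mod_cast hrho
  linarith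

/-- a block meeting `D` and containing two points of `Z` absorbs both. -/
theorem Cu.blk2 (h : Cu B Q Z F i0) {D : Finset V} (hD : D ∈ F) {i : ι} (hi : (B i ∩ D).Nonempty)
    {S : Finset V} (hSZ : S ⊆ Z) (hSne : S.Nonempty) (hS : S ⊆ B i) : Abz B D S := by
  obtain ⟨z, hz⟩ := hSne
  obtain ⟨T, h1, h2, h3⟩ := (h.cp hD).blk (h.dv_le3 hD) hi (hS hz)
    (h.ZQ (hSZ hz)) (h.notMem hD (hSZ hz))
  exact ⟨T, union_subset h1 fun x hx => mem_biUnion.2 ⟨i, h3, hS hx⟩, h2⟩

/-- three points of `Z` with three blocks to `C`. -/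
theorem Cu.core (h : Cu B Q Z F i0) {C D : Finset V} (hF : F = {C, D}) (hCD : C ≠ D)
    (hor : (Pv B C ≤ -1 ∧ 0 ≤ Pv B D) ∨ (Pv B C ≤ 0 ∧ 0 ≤ sv B C)) (hPD : Pv B D ≤ 0)
    {a b c d : V} (h4 : Four Z a b c d)
    (ha : 3 ≤ (Ez B C a).card) (hb : 3 ≤ (Ez B C b).card) (hc : 3 ≤ (Ez B C c).card) : False := by
  classical
  obtain ⟨hbi, _, _⟩ := h.summary
  have hC : C ∈ F := by rw [hF]; simp
  have hD : D ∈ F := by rw [hF]; simp
  have hrow : ∀ z ∈ Z, (Ez B C z).card + (Ez B D z).card = 4 := by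
    intro z hz
    have h5 := h.row_eq hbi hz
    rw [hF, sum_pair hCD] at h5
    exact h5
  have ra := hrow a h4.ma
  have rb := hrow b h4.mb
  have rc := hrow c h4.mc
  have rd := hrow d h4.md
  have hpt3 : ∀ x y z : V, x ∈ Z → y ∈ Z → z ∈ Z → x ≠ y → x ≠ z → y ≠ z →
      4 ≤ (Ez B C x).card → 3 ≤ (Ez B C y).card → 3 ≤ (Ez B C z).card →
      Abz B C {x, y, z} := by
    intro x y z hx hy hz hxy hxz hyz e1 e2 e3
    rcases hor with h1 | h1
    · exact (h.cp hC).pt3 (by rw [h.dv_part hC]; exact h1.1) (h.ZQ hx) (h.notMem hC hx) (h.ZQ hy)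
        (h.notMem hC hy) (h.ZQ hz) (h.notMem hC hz) hxy hxz hyz e1 e2 e3
    · exact (h.cp hC).pt3P h.ih h.ihp h1.1 h1.2 (h.ZQ hx) (h.notMem hC hx) (h.ZQ hy)
        (h.notMem hC hy) (h.ZQ hz) (h.notMem hC hz) hxy hxz hyz e1 e2 e3
  -- the fourth point is adjacent to `D`
  have hdD : 1 ≤ (Ez B D d).card := by
    by_contra hcon
    have s1 := h.sup hD h4.rot.rot.rot
    rcases (by omega : 1 ≤ (Ez B D a).card ∨ 1 ≤ (Ez B D b).card ∨ 1 ≤ (Ez B D c).card) with
      t | t | t
    · refine h.assign2 hF hCD (hpt3 d b c h4.md h4.mb h4.mc h4.bd.symm h4.cd.symm h4.bc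
        (by omega) hb hc) (h.ab1 hD h4.ma t) fun z hz => ?_
      rcases h4.cov z hz with rfl | rfl | rfl | rfl <;> simp
    · refine h.assign2 hF hCD (hpt3 d a c h4.md h4.ma h4.mc h4.ad.symm h4.cd.symm h4.ac
        (by omega) ha hc) (h.ab1 hD h4.mb t) fun z hz => ?_
      rcases h4.cov z hz with rfl | rfl | rfl | rfl <;> simp
    · refine h.assign2 hF hCD (hpt3 d a b h4.md h4.ma h4.mb h4.ad.symm h4.bd.symm h4.ab
        (by omega) ha hb) (h.ab1 hD h4.mc t) fun z hz => ?_
      rcases h4.cov z hz with rfl | rfl | rfl | rfl <;> simp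
  have hd1 := h.ab1 hD h4.md hdD
  have ea : (Ez B C a).card = 3 := by
    by_contra hcon
    refine h.assign2 hF hCD (hpt3 a b c h4.ma h4.mb h4.mc h4.ab h4.ac h4.bc
        (by omega) hb hc) hd1 fun z hz => ?_
    rcases h4.cov z hz with rfl | rfl | rfl | rfl <;> simp
  have eb : (Ez B C b).card = 3 := by
    by_contra hcon
    refine h.assign2 hF hCD (hpt3 b a c h4.mb h4.ma h4.mc h4.ab.symm h4.bc h4.ac
        (by omega) ha hc) hd1 fun z hz => ?_
    rcases h4.cov z hz with rfl | rfl | rfl | rfl <;> simp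
  have ec : (Ez B C c).card = 3 := by
    by_contra hcon
    refine h.assign2 hF hCD (hpt3 c a b h4.mc h4.ma h4.mb h4.ac.symm h4.bc.symm h4.ab
        (by omega) ha hb) hd1 fun z hz => ?_
    rcases h4.cov z hz with rfl | rfl | rfl | rfl <;> simp
  obtain ⟨Ba, hBa⟩ := card_eq_one.1 (by omega : (Ez B D a).card = 1)
  obtain ⟨Bb, hBb⟩ := card_eq_one.1 (by omega : (Ez B D b).card = 1)
  obtain ⟨Bc, hBc⟩ := card_eq_one.1 (by omega : (Ez B D c).card = 1)
  have mBa : Ba ∈ Ez B D a := by rw [hBa]; exact mem_singleton_self _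
  have mBb : Bb ∈ Ez B D b := by rw [hBb]; exact mem_singleton_self _
  have mBc : Bc ∈ Ez B D c := by rw [hBc]; exact mem_singleton_self _
  rw [mem_Ez] at mBa mBb mBc
  have hs0 : ∀ i, ∀ x ∈ Z, x ∈ B i → (B i ∩ D).Nonempty → 2 ≤ (B i ∩ Q).card :=
    fun i x hx hxi hi => two_le_of (h.cp hD).sub hi hxi (h.ZQ hx) (h.notMem hD hx)
  have hs1 : ∀ i, ∀ x ∈ Z, x ∈ B i → (B i ∩ D).card ≤ 3 := by
    intro i x hx hxi
    have h5 := (h.cp hD).size (Y := {x}) (singleton_subset_iff.2 (h.ZQ hx))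
      (disjoint_singleton_right.2 (h.notMem hD hx)) i
    have h6 : (({x} : Finset V).filter (fun y => y ∈ B i)) = {x} := by
      rw [filter_eq_self]
      intro y hy
      rw [mem_singleton] at hy
      rw [hy]
      exact hxi
    rw [h6, card_singleton] at h5
    omega
  have hs2 : ∀ i, ∀ x ∈ Z, ∀ y ∈ Z, x ≠ y → x ∈ B i → y ∈ B i → (B i ∩ D).card ≤ 2 := by
    intro i x hx y hy hxy hxi hyi
    have h5 := (h.cp hD).size (Y := {x, y})
      (by
        intro v hv
        rw [mem_insert, mem_singleton] at hv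
        rcases hv with rfl | rfl
        · exact h.ZQ hx
        · exact h.ZQ hy)
      (by
        rw [disjoint_right]
        intro v hv
        rw [mem_insert, mem_singleton] at hv
        rcases hv with rfl | rfl
        · exact h.notMem hD hx
        · exact h.notMem hD hy) i
    have h6 : (({x, y} : Finset V).filter (fun y => y ∈ B i)) = {x, y} := by
      rw [filter_eq_self]
      intro v hv
      rw [mem_insert, mem_singleton] at hv
      rcases hv with rfl | rfl
      · exact hxi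
      · exact hyi
    rw [h6, card_pair hxy] at h5
    omega
  have mk2 : ∀ (T : Finset ι), D ⊆ T.biUnion B → T.card ≤ rho B D → ∀ i ∈ T, ∀ j ∈ T, ∀ x y : V,
      x ∈ B i → y ∈ B j → Abz B D {x, y} := by
    intro T h1 h2 i hi j hj x y hx hy
    refine ⟨T, union_subset h1 fun v hv => ?_, h2⟩
    rw [mem_insert, mem_singleton] at hv
    rcases hv with rfl | rfl
    · exact mem_biUnion.2 ⟨i, hi, hx⟩
    · exact mem_biUnion.2 ⟨j, hj, hy⟩
  by_cases hd2 : (Ez B D d).card ≤ 2
  · -- `C` absorbs every pair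
    have hall : ∀ z ∈ Z, 2 ≤ (Ez B C z).card := by
      intro z hz
      rcases h4.cov z hz with rfl | rfl | rfl | rfl <;> omega
    have hno : ∀ x ∈ Z, ∀ y ∈ Z, x ≠ y → ¬ Abz B D {x, y} := by
      intro x hx y hy hxy hab
      obtain ⟨x', y', h5⟩ := four_of h.cZ hx hy hxy
      refine h.assign2 hF hCD (h.ab2 hC h5.mc h5.md h5.cd (hall _ h5.mc) (hall _ h5.md)) hab
        fun z hz => ?_
      rcases h5.cov z hz with rfl | rfl | rfl | rfl <;> simp
    have hblk : ∀ i, (B i ∩ D).Nonempty → ∀ x ∈ Z, ∀ y ∈ Z, x ≠ y → x ∈ B i → y ∈ B i →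
        False := by
      intro i hi x hx y hy hxy hxi hyi
      refine hno x hx y hy hxy (h.blk2 hD hi ?_ (insert_nonempty _ _) ?_)
      · intro v hv
        rw [mem_insert, mem_singleton] at hv
        rcases hv with rfl | rfl
        · exact hx
        · exact hy
      · intro v hv
        rw [mem_insert, mem_singleton] at hv
        rcases hv with rfl | rfl
        · exact hxi
        · exact hyi
    obtain ⟨i4, hi4⟩ := card_pos.1 hdD
    rw [mem_Ez] at hi4
    obtain ⟨T, hT1, hT2, hT3, hT4⟩ := (h.cp hD).lab2 (by rw [h.dv_part hD]; exact hPD) (h.notMem hD h4.ma)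
      (h.notMem hD h4.mb) h4.ab (i1 := Ba) (i2 := i4) (j1 := Bb) (j2 := Bc)
      (fun he => hblk Ba mBa.2 a h4.ma d h4.md h4.ad mBa.1 (he ▸ hi4.1))
      (fun he => hblk Bb mBb.2 b h4.mb c h4.mc h4.bc mBb.1 (he ▸ mBc.1))
      mBa.2 hi4.2 mBb.2 mBc.2
      (by
        rintro i (rfl | rfl | rfl | rfl)
        · exact hs0 _ a h4.ma mBa.1 mBa.2
        · exact hs0 _ d h4.md hi4.1 hi4.2
        · exact hs0 _ b h4.mb mBb.1 mBb.2
        · exact hs0 _ c h4.mc mBc.1 mBc.2)
      (by
        rintro i (rfl | rfl | rfl | rfl)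
        · exact hs1 _ a h4.ma mBa.1
        · exact hs1 _ d h4.md hi4.1
        · exact hs1 _ b h4.mb mBb.1
        · exact hs1 _ c h4.mc mBc.1)
      (by
        rintro i (rfl | rfl) (hj | hj)
        · exact hs2 _ a h4.ma b h4.mb h4.ab mBa.1 (hj ▸ mBb.1)
        · exact hs2 _ a h4.ma c h4.mc h4.ac mBa.1 (hj ▸ mBc.1)
        · exact hs2 _ d h4.md b h4.mb h4.bd.symm hi4.1 (hj ▸ mBb.1)
        · exact hs2 _ d h4.md c h4.mc h4.cd.symm hi4.1 (hj ▸ mBc.1))
    rcases hT3 with hT3 | hT3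
    · rcases hT4 with hT4 | hT4
      · exact hno a h4.ma b h4.mb h4.ab (mk2 T hT1 hT2 _ hT3 _ hT4 a b mBa.1 mBb.1)
      · exact hno a h4.ma c h4.mc h4.ac (mk2 T hT1 hT2 _ hT3 _ hT4 a c mBa.1 mBc.1)
    · rcases hT4 with hT4 | hT4
      · exact hno d h4.md b h4.mb h4.bd.symm (mk2 T hT1 hT2 _ hT3 _ hT4 d b hi4.1 mBb.1)
      · exact hno d h4.md c h4.mc h4.cd.symm (mk2 T hT1 hT2 _ hT3 _ hT4 d c hi4.1 mBc.1)
  · -- `C` absorbs the pairs in `{a, b, c}`
    have na : ¬ Abz B D {d, a} := by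
      intro hab
      refine h.assign2 hF hCD (h.ab2 hC h4.mb h4.mc h4.bc (by omega) (by omega)) hab
        fun z hz => ?_
      rcases h4.cov z hz with rfl | rfl | rfl | rfl <;> simp
    have nb : ¬ Abz B D {d, b} := by
      intro hab
      refine h.assign2 hF hCD (h.ab2 hC h4.ma h4.mc h4.ac (by omega) (by omega)) hab
        fun z hz => ?_
      rcases h4.cov z hz with rfl | rfl | rfl | rfl <;> simp
    have nc : ¬ Abz B D {d, c} := by
      intro hab
      refine h.assign2 hF hCD (h.ab2 hC h4.ma h4.mb h4.ab (by omega) (by omega)) hab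
        fun z hz => ?_
      rcases h4.cov z hz with rfl | rfl | rfl | rfl <;> simp
    obtain ⟨j1, hj1, j2, hj2, hj⟩ := one_lt_card.1 (by omega : 1 < (Ez B D d).card)
    rw [mem_Ez] at hj1 hj2
    have hEq : ∀ x y : V, x ∈ Z → y ∈ Z → x ≠ d → y ≠ d → ¬ Abz B D {d, x} → ¬ Abz B D {d, y} →
        ∀ i j : ι, x ∈ B i → (B i ∩ D).Nonempty → y ∈ B j → (B j ∩ D).Nonempty → i = j := by
      intro x y hx hy hxd hyd nx ny i j hxi hiD hyj hjD
      by_contra hij
      obtain ⟨T, hT1, hT2, hT3, hT4⟩ := (h.cp hD).lab2 (by rw [h.dv_part hD]; exact hPD) (h.notMem hD h4.md)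
        (h.notMem hD hx) hxd.symm hj hij hj1.2 hj2.2 hiD hjD
        (by
          rintro k (rfl | rfl | rfl | rfl)
          · exact hs0 _ d h4.md hj1.1 hj1.2
          · exact hs0 _ d h4.md hj2.1 hj2.2
          · exact hs0 _ x hx hxi hiD
          · exact hs0 _ y hy hyj hjD)
        (by
          rintro k (rfl | rfl | rfl | rfl)
          · exact hs1 _ d h4.md hj1.1
          · exact hs1 _ d h4.md hj2.1
          · exact hs1 _ x hx hxi
          · exact hs1 _ y hy hyj)
        (by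
          rintro k (rfl | rfl) (hk | hk)
          · exact hs2 _ d h4.md x hx hxd.symm hj1.1 (hk ▸ hxi)
          · exact hs2 _ d h4.md y hy hyd.symm hj1.1 (hk ▸ hyj)
          · exact hs2 _ d h4.md x hx hxd.symm hj2.1 (hk ▸ hxi)
          · exact hs2 _ d h4.md y hy hyd.symm hj2.1 (hk ▸ hyj))
      rcases hT3 with hT3 | hT3
      · rcases hT4 with hT4 | hT4
        · exact nx (mk2 T hT1 hT2 _ hT3 _ hT4 d x hj1.1 hxi)
        · exact ny (mk2 T hT1 hT2 _ hT3 _ hT4 d y hj1.1 hyj)
      · rcases hT4 with hT4 | hT4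
        · exact nx (mk2 T hT1 hT2 _ hT3 _ hT4 d x hj2.1 hxi)
        · exact ny (mk2 T hT1 hT2 _ hT3 _ hT4 d y hj2.1 hyj)
    have hab := hEq a b h4.ma h4.mb h4.ad h4.bd na nb Ba Bb mBa.1 mBa.2 mBb.1 mBb.2
    have hac := hEq a c h4.ma h4.mc h4.ad h4.cd na nc Ba Bc mBa.1 mBa.2 mBc.1 mBc.2
    rw [← hab] at mBb hBb
    rw [← hac] at mBc hBc
    have habc : Abz B D {a, b, c} := by
      refine h.blk2 hD mBa.2 ?_ (insert_nonempty _ _) ?_
      · intro v hv
        simp only [mem_insert, mem_singleton] at hv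
        rcases hv with rfl | rfl | rfl
        · exact h4.ma
        · exact h4.mb
        · exact h4.mc
      · intro v hv
        simp only [mem_insert, mem_singleton] at hv
        rcases hv with rfl | rfl | rfl
        · exact mBa.1
        · exact mBb.1
        · exact mBc.1
    have hor' : 0 ≤ Pv B D ∨ 0 ≤ sv B C := by
      rcases hor with h1 | h1
      · exact Or.inl h1.2
      · exact Or.inr h1.2
    refine h.last hF hCD hor' h4 (by omega) hd1 (β := Ba) fun x hx i hi => ?_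
    simp only [mem_insert, mem_singleton] at hx
    rcases hx with rfl | rfl | rfl
    · rw [hBa] at hi
      exact mem_singleton.1 hi
    · rw [hBb] at hi
      exact mem_singleton.1 hi
    · rw [hBc] at hi
      exact mem_singleton.1 hi

/-- two components. -/
theorem Cu.t2 (h : Cu B Q Z F i0) (h2 : F.card = 2) : False := by
  classical
  obtain ⟨hb, _, hsum⟩ := h.summary
  obtain ⟨C, D, hCD, hF⟩ := card_eq_two.1 h2
  have hC : C ∈ F := by rw [hF]; simp
  have hD : D ∈ F := by rw [hF]; simp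
  rw [hF, sum_pair hCD] at hsum
  have h3 := h.P_ge hC
  have h4 := h.P_ge hD
  have hsv := h.sum_sv
  rw [hF, sum_pair hCD] at hsv
  have hsv1 := h.sv1
  have horCD : (Pv B C ≤ -1 ∧ 0 ≤ Pv B D) ∨ (Pv B C ≤ 0 ∧ 0 ≤ sv B C) := by
    by_cases h5 : Pv B C ≤ -1
    · exact Or.inl ⟨h5, by omega⟩
    · right
      have h6 := h.sv_neg hD (by omega)
      exact ⟨by omega, by omega⟩
  have horDC : (Pv B D ≤ -1 ∧ 0 ≤ Pv B C) ∨ (Pv B D ≤ 0 ∧ 0 ≤ sv B D) := by
    by_cases h5 : Pv B D ≤ -1
    · exact Or.inl ⟨h5, by omega⟩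
    · right
      have h6 := h.sv_neg hC (by omega)
      exact ⟨by omega, by omega⟩
  have hrow : ∀ z ∈ Z, (Ez B C z).card + (Ez B D z).card = 4 := by
    intro z hz
    have h5 := h.row_eq hb hz
    rw [hF, sum_pair hCD] at h5
    exact h5
  set L := Z.filter (fun z => 3 ≤ (Ez B C z).card) with hL
  set S := Z.filter (fun z => (Ez B C z).card ≤ 1) with hS
  by_cases hL3 : 3 ≤ L.card
  · obtain ⟨a, b, c, d, h5, ha, hb, hc⟩ := three_of h.cZ (filter_subset _ _) hL3
    exact h.core hF hCD horCD (by omega) h5 (mem_filter.1 ha).2 (mem_filter.1 hb).2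
      (mem_filter.1 hc).2
  by_cases hS3 : 3 ≤ S.card
  · obtain ⟨a, b, c, d, h5, ha, hb, hc⟩ := three_of h.cZ (filter_subset _ _) hS3
    have hF' : F = {D, C} := by rw [hF, pair_comm]
    have ra := hrow a h5.ma
    have rb := hrow b h5.mb
    have rc := hrow c h5.mc
    have ea := (mem_filter.1 ha).2
    have eb := (mem_filter.1 hb).2
    have ec := (mem_filter.1 hc).2
    exact h.core hF' hCD.symm horDC (by omega) h5 (by omega) (by omega) (by omega)
  have hsub : L ⊆ Z \ S := by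
    intro z hz
    rw [hL, mem_filter] at hz
    rw [mem_sdiff, hS, mem_filter]
    exact ⟨hz.1, fun h6 => by have := h6.2; omega⟩
  have hc := card_sdiff_add_card_eq_card (filter_subset (fun z => (Ez B C z).card ≤ 1) Z)
  rw [← hS, h.cZ] at hc
  obtain ⟨A, hA1, hA2, hA3⟩ := exists_subsuperset_card_eq hsub (n := 2) (by omega) (by omega)
  obtain ⟨a, b, hab, hA⟩ := card_eq_two.1 hA3
  have ha : a ∈ A := by rw [hA]; simp
  have hb' : b ∈ A := by rw [hA]; simp
  have hAZ : A ⊆ Z := hA2.trans sdiff_subset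
  obtain ⟨c, d, h5⟩ := four_of h.cZ (hAZ ha) (hAZ hb') hab
  have hin : ∀ x ∈ A, 2 ≤ (Ez B C x).card := by
    intro x hx
    have h6 := hA2 hx
    rw [mem_sdiff, hS, mem_filter] at h6
    by_contra hcon
    exact h6.2 ⟨h6.1, by omega⟩
  have hout : ∀ x ∈ Z, x ∉ A → 2 ≤ (Ez B D x).card := by
    intro x hx hxA
    have h6 := hrow x hx
    have h7 : x ∉ L := fun h8 => hxA (hA1 h8)
    rw [hL, mem_filter] at h7
    by_contra hcon
    exact h7 ⟨hx, by omega⟩
  have hcA : c ∉ A := by
    rw [hA, mem_insert, mem_singleton]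
    rintro (h6 | h6)
    · exact h5.ac h6.symm
    · exact h5.bc h6.symm
  have hdA : d ∉ A := by
    rw [hA, mem_insert, mem_singleton]
    rintro (h6 | h6)
    · exact h5.ad h6.symm
    · exact h5.bd h6.symm
  refine h.assign2 hF hCD (h.ab2 hC h5.ma h5.mb h5.ab (hin a ha) (hin b hb'))
    (h.ab2 hD h5.mc h5.md h5.cd (hout c h5.mc hcA) (hout d h5.md hdA)) fun z hz => ?_
  rcases h5.cov z hz with rfl | rfl | rfl | rfl <;> simp

/-- the input `4444`: a connected K-free set with `Pv = sv = -1` absorbs four points with four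
blocks each. -/
def F44 (V : Type v) [DecidableEq V] : Prop :=
  ∀ (κ : Type u) [Fintype κ] (B : κ → Finset V) (Q C Y : Finset V), Reg B Q → Tr4 B Q → C ⊆ Q →
    Conn (gr B) C → KFree B C → Pv B C = -1 → sv B C = -1 → Y ⊆ Q → Disjoint C Y → Y.card = 4 →
    (∀ y ∈ Y, 4 ≤ (Ez B C y).card) → Abz B C Y

/-- the level-3 theorem for `sv ≥ 1`. -/
def L3p (V : Type v) [DecidableEq V] : Prop :=
  ∀ (κ : Type u) [Fintype κ] (B : κ → Finset V) (Q : Finset V), Reg B Q → Tr3 B Q →
    Conn (gr B) Q → ¬ KT B Q → 1 ≤ sv B Q → 0 ≤ Pv B Q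

/-- one component. -/
theorem Cu.t1 (hF4 : F44.{u} V) (h : Cu B Q Z F i0) (h1 : F.card = 1) : False := by
  obtain ⟨hb, _, hsum⟩ := h.summary
  obtain ⟨C, hF⟩ := card_eq_one.1 h1
  have hC : C ∈ F := by rw [hF]; simp
  rw [hF, sum_singleton] at hsum
  have hsv := h.sum_sv
  rw [hF, sum_singleton] at hsv
  have hsv1 := h.sv1
  have h2 := h.sv_neg hC hsum
  have hrow : ∀ z ∈ Z, (Ez B C z).card = 4 := by
    intro z hz
    have h5 := h.row_eq hb hz
    rw [hF, sum_singleton] at h5
    exact h5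
  have hd : Disjoint C Z := by
    rw [disjoint_right]
    intro z hz
    exact h.notMem hC hz
  have hab := hF4 ι B Q C Z h.reg h.tr (h.cp hC).sub (h.cp hC).conn ((h.kf).mono (h.cp hC).sub)
    hsum (by omega) h.ZQ hd h.cZ (fun z hz => (hrow z hz).ge)
  refine h.final (fun _ => Z) ?_ ?_
  · intro D hD
    rw [hF, mem_singleton] at hD
    rw [hD]
    exact hab
  · intro z hz
    exact mem_biUnion.2 ⟨C, hC, hz⟩

theorem Cu.false (hF4 : F44.{u} V) (h : Cu B Q Z F i0) : False := by
  obtain ⟨_, h3, hsum⟩ := h.summary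
  have h7 : F.card ≠ 0 := by
    intro h0
    rw [card_eq_zero] at h0
    rw [h0, sum_empty] at hsum
    omega
  rcases (by omega : F.card = 1 ∨ F.card = 2 ∨ F.card = 3) with h9 | h9 | h9
  · exact h.t1 hF4 h9
  · exact h.t2 h9
  · exact h.t3 h9

/-- T0++. -/
theorem T0pp (hL3 : L3e.{u} V) (hL3p : L3p.{u} V) (hF4 : F44.{u} V) : ∀ n, IHP.{u} V n := by
  intro n
  induction n using Nat.strong_induction_on with
  | _ n ih =>
    intro κ _ B Q hn hr h4 hc hk hs
    by_cases h3 : Tr3 B Q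
    · exact hL3p κ B Q hr h3 hc (fun h => hk Q (Subset.refl _) ⟨h3, h⟩) hs
    · unfold Tr3 at h3
      push Not at h3
      obtain ⟨i0, hi0⟩ := h3
      by_contra hcon
      obtain ⟨F, hF1, hF2, hF3⟩ := exists_parts B (Q \ (B i0 ∩ Q))
      have hv : Pv B Q = -1 := by
        have h5 := T0e hL3 hr h4 hc hk
        have h6 : (0 : ℤ) ≤ ee B Q Q := by positivity
        omega
      have hct : Cu B Q (B i0 ∩ Q) F i0 :=
        ⟨T0K hL3, ih Q.card hn, hr, h4, hc, hk, hv, hs, rfl,
          le_antisymm (h4 i0) hi0, hF1, hF2, hF3⟩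
      exact hct.false hF4

/-- a connected K-free set of value `-1` is critical. -/
theorem crit_of_Pv (hL3 : L3e.{u} V) {Q : Finset V} (hr : Reg B Q) (h4 : Tr4 B Q)
    (hQ : Conn (gr B) Q) (hk : KFree B Q) (hP : Pv B Q ≤ -1) : Crit B Q := by
  classical
  intro x hx
  have hcov := cov_of_reg hr
  have h1 : rho B (Q.erase x) ≤ rho B Q := rho_mono (erase_subset _ _) hcov
  have h2 : rho B Q ≤ rho B (Q.erase x) + 1 := by
    obtain ⟨i, hi⟩ := hcov x hx
    have h3 := rho_le_sdiff (B := B) (W := Q) (Z := {x}) (i := i)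
      (singleton_subset_iff.2 hi) hcov
    rwa [sdiff_singleton_eq_erase] at h3
  by_contra hcon
  have h3 : rho B (Q.erase x) = rho B Q := by omega
  obtain ⟨F, hF1, hF2, hF3⟩ := exists_parts B (Q.erase x)
  have hxF : ∀ C ∈ F, x ∉ C := fun C hC hxC => (mem_erase.1 ((hF1 C hC).1 hxC)).1 rfl
  have hsub : ∀ C ∈ F, C ⊆ Q := fun C hC => (hF1 C hC).1.trans (erase_subset _ _)
  have hatt : ∀ C ∈ F, (Ez B C x).Nonempty := by
    intro C hC
    have hne : C ≠ Q := fun he => hxF C hC (he ▸ hx)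
    obtain ⟨u, hu, y, hy, hyC, hadj⟩ := hQ.exists_edge (hsub C hC) (hF1 C hC).2.2.1 hne
    have hyx : y = x := by
      by_contra hyx
      exact hyC ((hF1 C hC).2.1.2 u hu y (mem_erase.2 ⟨hyx, hy⟩) hadj)
    rw [hyx] at hadj
    obtain ⟨_, i, hi1, hi2⟩ := hadj
    exact ⟨i, mem_Ez.2 ⟨hi2, u, mem_inter.2 ⟨hi1, hu⟩⟩⟩
  have h5 : F.card ≤ 5 := by
    have h6 : (F.biUnion (fun C => Ez B C x)).card = ∑ C ∈ F, (Ez B C x).card := by
      rw [card_biUnion]
      intro C hC D hD hne
      rw [Function.onFun, disjoint_left]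
      intro i hi hi2
      exact (hF2 C hC D hD hne).2 i (mem_Ez.1 hi).2 (mem_Ez.1 hi2).2
    have h7 : (F.biUnion (fun C => Ez B C x)).card ≤ 5 := by
      rw [← hr x hx]
      refine card_le_card fun i hi => ?_
      obtain ⟨C, _, hi⟩ := mem_biUnion.1 hi
      exact mem_filter.2 ⟨mem_univ _, (mem_Ez.1 hi).1⟩
    have h8 : ∑ C ∈ F, 1 ≤ ∑ C ∈ F, (Ez B C x).card :=
      sum_le_sum fun C hC => Nat.succ_le_of_lt (card_pos.2 (hatt C hC))
    rw [sum_const, smul_eq_mul, mul_one] at h8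
    omega
  have h6 : ∑ C ∈ F, (-1 : ℤ) ≤ ∑ C ∈ F, Pv B C := by
    refine sum_le_sum fun C hC => ?_
    have h7 := T0e hL3 (hr.mono (hsub C hC)) (h4.mono (hsub C hC)) (hF1 C hC).2.2
      (hk.mono (hsub C hC))
    have h8 : (0 : ℤ) ≤ ee B C C := by positivity
    linarith
  rw [sum_const, nsmul_eq_mul] at h6
  have h7 : Pv B (Q.erase x) = ∑ C ∈ F, Pv B C := by
    rw [← hF3]
    exact Pv_biUnion (fun C hC => cov_of_reg (hr.mono (hsub C hC))) hF2
  have h8 := Pv_sdiff (B := B) (W := Q) (X := {x}) (singleton_subset_iff.2 hx)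
  rw [sdiff_singleton_eq_erase, h3, card_singleton, h7] at h8
  have h9 : (F.card : ℤ) ≤ 5 := by exact_mod_cast h5
  have h10 : (0 : ℤ) ≤ (ins B Q {x}).card := by positivity
  push_cast at h8
  linarith

/-- Q-A from `4444` and the level-3 theorem. -/
theorem QA_of (hL3 : L3e.{u} V) (hL3p : L3p.{u} V) (hF4 : F44.{u} V) : QA.{u} V := by
  intro κ _ B Q hr h4 hc hk hP
  by_cases hs : sv B Q ≤ -1
  · exact (crit_low (cov_of_reg hr) hc (crit_of_Pv hL3 hr h4 hc hk hP.le) hs).2
  · exfalso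
    obtain ⟨k, hk2⟩ := Pv_parity (B := B) Q
    have h1 := T0pp hL3 hL3p hF4 (Q.card + 1) κ B Q (Nat.lt_succ_self _) hr h4 hc hk (by omega)
    omega

end Pool.Agent.Hyp6
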