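import Pool.Agent.Hyp6.Frame5b
import Pool.Agent.Hyp6.QTpp

/-!
# HYP6 FINT: the final assembly

From the level-3 theorem, the theorem `4444` and the level-5 theorem to the bound `55 ρ ≤ 13 cm + 7 |U|`
for all regular systems, and to the two frozen statements.
-/

set_option autoImplicit false

namespace Pool.Agent.Hyp6

open Finset Pool.Agent.Hyp5

/-- the final assembly. -/
theorem dualAll_13 (hL3 : ∀ (V : Type) [DecidableEq V], L3e.{0} V)
    (hL3p : ∀ (V : Type) [DecidableEq V], L3p.{0} V)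
    (hF4 : ∀ (V : Type) [DecidableEq V], F44.{0} V)
    (hlev : ∀ (V ι : Type) [DecidableEq V] [Fintype ι] (B : ι → Finset V) (U : Finset V),
      L3e.{0} V → QA.{0} V → ¬ MinC 13 7 55 B U) : DualAll 13 7 55 := by
  refine dualAll_of (by norm_num) (dualFive_of ?_)
  intro V ι _ _ B U
  exact hlev V ι B U (hL3 V) (QA_of (hL3 V) (hL3p V) (hF4 V))

theorem S11747_fin (h : DualAll 13 7 55) :
    ∀ (n : ℕ) (E : Finset (Finset (Fin n))),
      (∀ e ∈ E, e.card = 5) → E.card = n →
      ∃ T : Finset (Fin n), (∀ e ∈ E, (e ∩ T).Nonempty) ∧ 11 * T.card ≤ 4 * n :=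
  S11747_of' (by norm_num) (by norm_num) h

theorem S12445_fin (h : DualAll 13 7 55) :
    ∀ (V : Type) [Fintype V] (G : SimpleGraph V) [DecidableRel G.Adj],
      G.Connected → 5 ≤ G.minDegree →
        ∃ S : Finset V, (∀ v : V, ∃ u ∈ S, G.Adj v u) ∧
          11 * S.card ≤ 4 * Fintype.card V :=
  S12445_of' (by norm_num) (by norm_num) h

end Pool.Agent.Hyp6
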