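import Pool.Agent.Hyp6.JCE

/-!
# HYP6 L3F: the frame of the level-3 theorem with both clauses

Both clauses (`-1 + 2 e <= Pv`; `0 <= Pv` for value at least one) are proved by one strong induction
on the number of points; only critical sets with value at least `0` are left.
-/

set_option autoImplicit false

namespace Pool.Agent.Hyp6

open Finset Pool.Agent.Hyp5

universe u v

variable {V : Type v} [DecidableEq V]

/-- **frame with both clauses**. -/
theorem L3both_of_crit
    (hpos : ∀ (κ : Type u) [Fintype κ] (B : κ → Finset V) (Q : Finset V), IHE.{u} V Q.card →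
      IHQ.{u} V Q.card → Reg B Q → Tr3 B Q → Conn (gr B) Q → Crit B Q → 0 ≤ sv B Q →
      ¬ KT B Q → -1 + 2 * (ee B Q Q : ℤ) ≤ Pv B Q ∧ (1 ≤ sv B Q → 0 ≤ Pv B Q)) :
    L3e.{u} V ∧ L3p.{u} V := by
  classical
  have key : ∀ n, IHE.{u} V n ∧ IHQ.{u} V n := by
    intro n
    induction n with
    | zero => exact ⟨fun κ _ B Q hn => by omega, fun κ _ B Q hn => by omega⟩
    | succ n ih =>
      have main : ∀ (κ : Type u) [Fintype κ] (B : κ → Finset V) (Q : Finset V),
          Q.card < n + 1 → Reg B Q → Tr3 B Q → Conn (gr B) Q → ¬ KT B Q →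
          -1 + 2 * (ee B Q Q : ℤ) ≤ Pv B Q ∧ (1 ≤ sv B Q → 0 ≤ Pv B Q) := by
        intro κ _ B Q hn hr h3 hQ hK
        have ihE : IHE.{u} V Q.card := ih.1.mono (by omega)
        have ihQ : IHQ.{u} V Q.card := ih.2.mono (by omega)
        by_cases hcr : Crit B Q
        · by_cases hs : sv B Q ≤ -1
          · have h1 := L3_crit_neg (fun m => ihg V m) hr h3 hQ hcr hs
            have h2 := crit_sv_ge hr hQ hcr
            have h3' := h1.1
            refine ⟨?_, fun hh => by omega⟩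
            rw [Pv_eq_Pp]
            linarith
          · exact hpos κ B Q ihE ihQ hr h3 hQ hcr (by omega) hK
        · have h1 := Pv_nonneg_of_noncrit ihE hr h3 hQ hcr
          have h2 : (0 : ℤ) ≤ ee B Q Q := by positivity
          exact ⟨by linarith, fun _ => by linarith⟩
      exact ⟨fun κ _ B Q hn hr h3 hQ hK => (main κ B Q hn hr h3 hQ hK).1,
        fun κ _ B Q hn hr h3 hQ hK => (main κ B Q hn hr h3 hQ hK).2⟩
  exact ⟨fun κ _ B Q hr h3 hQ hK =>
      (key (Q.card + 1)).1 κ B Q (Nat.lt_succ_self _) hr h3 hQ hK,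
    fun κ _ B Q hr h3 hQ hK =>
      (key (Q.card + 1)).2 κ B Q (Nat.lt_succ_self _) hr h3 hQ hK⟩

/-- the same frame with the target in terms of the second potential. -/
theorem L3both_of_Pp
    (hpos : ∀ (κ : Type u) [Fintype κ] (B : κ → Finset V) (Q : Finset V), IHE.{u} V Q.card →
      IHQ.{u} V Q.card → Reg B Q → Tr3 B Q → Conn (gr B) Q → Crit B Q → 0 ≤ sv B Q →
      ¬ KT B Q → 2 * (ee B Q Q : ℤ) ≤ Pp B Q) :
    L3e.{u} V ∧ L3p.{u} V := by
  refine L3both_of_crit fun κ _ B Q ihE ihQ hr h3 hQ hcr hs hK => ?_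
  have h1 := hpos κ B Q ihE ihQ hr h3 hQ hcr hs hK
  have h2 := Pv_eq_Pp (B := B) Q
  have h3' : (0 : ℤ) ≤ ee B Q Q := by positivity
  exact ⟨by linarith, fun _ => by linarith⟩

/-- value `0` and value at least `1` separately. -/
theorem L3both_of_parts
    (h0 : ∀ (κ : Type u) [Fintype κ] (B : κ → Finset V) (Q : Finset V), IHE.{u} V Q.card →
      IHQ.{u} V Q.card → Reg B Q → Tr3 B Q → Conn (gr B) Q → Crit B Q → sv B Q = 0 →
      ¬ KT B Q → 2 * (ee B Q Q : ℤ) ≤ Pp B Q)
    (h1 : ∀ (κ : Type u) [Fintype κ] (B : κ → Finset V) (Q : Finset V), IHE.{u} V Q.card →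
      IHQ.{u} V Q.card → Reg B Q → Tr3 B Q → Conn (gr B) Q → Crit B Q → 1 ≤ sv B Q →
      ¬ KT B Q → 2 * (ee B Q Q : ℤ) ≤ Pp B Q) :
    L3e.{u} V ∧ L3p.{u} V := by
  refine L3both_of_Pp fun κ _ B Q ihE ihQ hr h3 hQ hcr hs hK => ?_
  by_cases h : sv B Q = 0
  · exact h0 κ B Q ihE ihQ hr h3 hQ hcr h hK
  · exact h1 κ B Q ihE ihQ hr h3 hQ hcr (by omega) hK

end Pool.Agent.Hyp6
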