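import Pool.Agent.Hyp6.L3LA
import Pool.Agent.Hyp6.L3F

/-!
# HYP6 FINZ: the level-3 theorem from the two cases of a minimal counterexample
-/

set_option autoImplicit false

namespace Pool.Agent.Hyp6

open Finset Pool.Agent.Hyp5

universe u v

variable {V : Type v} [DecidableEq V]

/-- value `0`: no minimal counterexample. -/
theorem L3zero_of_no
    (hno : ∀ (κ : Type u) [Fintype κ] (B : κ → Finset V) (Q : Finset V), Viol B Q → sv B Q ≠ 0)
    (κ : Type u) [Fintype κ] (B : κ → Finset V) (Q : Finset V) (ihE : IHE.{u} V Q.card)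
    (hr : Reg B Q) (h3 : Tr3 B Q) (hQ : Conn (gr B) Q) (hcr : Crit B Q) (hs : sv B Q = 0)
    (hK : ¬ KT B Q) : 2 * (ee B Q Q : ℤ) ≤ Pp B Q := by
  by_contra hcon
  push Not at hcon
  have h1 := Pv_eq_Pp (B := B) Q
  have h2 := Pv_eq (B := B) Q
  have h4 : (Q.card : ℤ) = 2 * (rho B Q : ℤ) := by
    unfold sv at hs
    linarith
  refine hno κ B Q ⟨ihE, hr, h3, hQ, hcr, by omega, hK, ?_⟩ hs
  unfold dv
  omega

/-- the level-3 theorems from: no minimal counterexample with value `0`, and the statement for positive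
value. -/
theorem L3both_of_no
    (hno : ∀ (κ : Type u) [Fintype κ] (B : κ → Finset V) (Q : Finset V), Viol B Q → sv B Q ≠ 0)
    (h1 : ∀ (κ : Type u) [Fintype κ] (B : κ → Finset V) (Q : Finset V), IHE.{u} V Q.card →
      IHQ.{u} V Q.card → Reg B Q → Tr3 B Q → Conn (gr B) Q → Crit B Q → 1 ≤ sv B Q →
      ¬ KT B Q → -1 + 2 * (ee B Q Q : ℤ) ≤ Pv B Q ∧ 0 ≤ Pv B Q) :
    L3e.{u} V ∧ L3p.{u} V := by
  refine L3both_of_crit fun κ _ B Q ihE ihQ hr h3 hQ hcr hs hK => ?_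
  by_cases h : sv B Q = 0
  · have h2 := L3zero_of_no hno κ B Q ihE hr h3 hQ hcr h hK
    have h4 := Pv_eq_Pp (B := B) Q
    exact ⟨by omega, fun h5 => by omega⟩
  · obtain ⟨h2, h4⟩ := h1 κ B Q ihE ihQ hr h3 hQ hcr (by omega) hK
    exact ⟨h2, fun _ => h4⟩

end Pool.Agent.Hyp6
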