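import Pool.Agent.Hyp6.L6

/-!
# HYP6 RED: the transversal bound and total domination from the dual inequality

If `33 rho <= 7 c + 5 |U|` for all systems, then every 5-uniform hypergraph has a transversal of size
at most `(7 n + 5 m) / 33`, hence at most `4 n / 11` if `m = n`, and every graph with minimum degree at
least five has a total dominating set of size at most `4 n / 11`.
-/

set_option autoImplicit false

namespace Pool.Agent.Hyp6

open Finset Pool.Agent.Hyp5

/-- the dual inequality for all systems. -/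
def MainIneq : Prop :=
  ∀ (V ι : Type) [DecidableEq V] [Fintype ι] (B : ι → Finset V) (U : Finset V), Reg B U →
    33 * rho B U ≤ 7 * cm B U + 5 * U.card

/-- the inequality for the systems with traces of at most five points. -/
def MainFive : Prop :=
  ∀ (V ι : Type) [DecidableEq V] [Fintype ι] (B : ι → Finset V) (U : Finset V), Reg B U →
    (∀ i, (B i ∩ U).card ≤ 5) → 33 * rho B U ≤ 7 * cm B U + 5 * U.card

theorem mainIneq_of_five (h : MainFive) : MainIneq := by
  intro V ι _ _ B U hr
  exact all_of_five (fun W hW h5 => h V ι B W hW h5) U hr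

/-- the transversal form. -/
theorem transversal33 (h : MainIneq) {V κ : Type} [Fintype V] [DecidableEq V] [Fintype κ]
    (e : κ → Finset V) (h5 : ∀ k, (e k).card = 5) :
    ∃ T : Finset V, (∀ k, (e k ∩ T).Nonempty) ∧
      33 * T.card ≤ 7 * Fintype.card V + 5 * Fintype.card κ := by
  classical
  let B : V → Finset κ := fun v => univ.filter (fun k => v ∈ e k)
  have hr : Reg B (univ : Finset κ) := by
    intro k _
    rw [← h5 k]
    congr 1
    ext v
    simp [B]
  obtain ⟨T, hT, hc⟩ := exists_cover (cov_of_reg hr)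
  refine ⟨T, fun k => ?_, ?_⟩
  · obtain ⟨v, hv, hk⟩ := mem_biUnion.1 (hT (mem_univ k))
    exact ⟨v, mem_inter.2 ⟨(mem_filter.1 hk).2, hv⟩⟩
  · have h1 := h κ V B univ hr
    have h2 : cm B (univ : Finset κ) ≤ Fintype.card V := by
      unfold cm
      exact card_le_univ _
    rw [card_univ] at h1
    omega

/-- **S11747** from the dual inequality. -/
theorem S11747_of (h : MainIneq) :
    ∀ (n : ℕ) (E : Finset (Finset (Fin n))),
      (∀ e ∈ E, e.card = 5) → E.card = n →
      ∃ T : Finset (Fin n), (∀ e ∈ E, (e ∩ T).Nonempty) ∧ 11 * T.card ≤ 4 * n := by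
  intro n E h5 hE
  obtain ⟨T, hT, hc⟩ := transversal33 h (V := Fin n) (κ := E) (fun e => e.1)
    (fun e => h5 e.1 e.2)
  refine ⟨T, fun e he => hT ⟨e, he⟩, ?_⟩
  rw [Fintype.card_fin, Fintype.card_coe, hE] at hc
  omega

/-- **S12445** from the dual inequality. -/
theorem S12445_of (h : MainIneq) :
    ∀ (V : Type) [Fintype V] (G : SimpleGraph V) [DecidableRel G.Adj],
      G.Connected → 5 ≤ G.minDegree →
        ∃ S : Finset V, (∀ v : V, ∃ u ∈ S, G.Adj v u) ∧
          11 * S.card ≤ 4 * Fintype.card V := by
  classical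
  intro V _ G _ _ hd
  have h1 : ∀ v : V, ∃ t ⊆ G.neighborFinset v, t.card = 5 := by
    intro v
    refine Finset.exists_subset_card_eq ?_
    rw [SimpleGraph.card_neighborFinset_eq_degree]
    exact hd.trans (G.minDegree_le_degree v)
  choose e he h5 using h1
  obtain ⟨T, hT, hc⟩ := transversal33 h e h5
  refine ⟨T, fun v => ?_, by omega⟩
  obtain ⟨u, hu⟩ := hT v
  rw [Finset.mem_inter] at hu
  exact ⟨u, hu.2, (G.mem_neighborFinset v u).mp (he v hu.1)⟩

end Pool.Agent.Hyp6
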