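import Pool.Agent.Hyp6.Peel
import Pool.Agent.Hyp6.Red

/-!
# HYP6 FRAME5: the frame of level five

`Dual a b N B U` is the inequality `N rho <= a c + b |U|`. For `(a, b, N) = (7, 5, 33)` and
`(13, 7, 55)` it gives `4 n / 11` for `m = n`. `MinC a b N B U`: `U` is a minimal counterexample among the
systems with traces of at most five points. `val_five`, `val_five'`: the value of `U` from a packing of
blocks with five points.
-/

set_option autoImplicit false

namespace Pool.Agent.Hyp6

open Finset Pool.Agent.Hyp5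

variable {V : Type*} [DecidableEq V] {ι : Type*} [Fintype ι]

/-- the inequality `N rho <= a c + b |U|`. -/
def Dual (a b N : ℕ) (B : ι → Finset V) (U : Finset V) : Prop :=
  N * rho B U ≤ a * cm B U + b * U.card

/-- a minimal counterexample. -/
structure MinC (a b N : ℕ) (B : ι → Finset V) (U : Finset V) : Prop where
  reg : Reg B U
  five : ∀ i, (B i ∩ U).card ≤ 5
  gt : a * cm B U + b * U.card + 1 ≤ N * rho B U
  lt : ∀ W, W ⊆ U → W ≠ U → Dual a b N B W

variable {a b N : ℕ} {B : ι → Finset V}

/-- blocks of at least six points. -/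
theorem dual_of_five (hN : N ≤ a + 6 * b)
    (h : ∀ W : Finset V, Reg B W → (∀ i, (B i ∩ W).card ≤ 5) → Dual a b N B W) :
    ∀ W : Finset V, Reg B W → Dual a b N B W := by
  intro W
  induction hn : W.card using Nat.strong_induction_on generalizing W with
  | _ n ih =>
  intro hr
  subst hn
  by_cases h5 : ∀ i, (B i ∩ W).card ≤ 5
  · exact h W hr h5
  · push Not at h5
    obtain ⟨i, hi⟩ := h5
    have h1 := card_sdiff_block (B := B) W i
    have hr' : Reg B (W \ B i) := hr.mono sdiff_subset
    have h2 := ih (W \ B i).card (by omega) (W \ B i) rfl hr'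
    have h3 := rho_le_sdiff_block i (cov_of_reg hr)
    have h4 : cm B (W \ B i) + 1 ≤ cm B W :=
      cm_sdiff_block (card_pos.1 (by omega))
    unfold Dual at h2 ⊢
    have h5 : N * rho B W ≤ N * (rho B (W \ B i) + 1) := Nat.mul_le_mul_left _ h3
    have h6 : a * (cm B (W \ B i) + 1) ≤ a * cm B W := Nat.mul_le_mul_left _ h4
    have h7 : b * ((W \ B i).card + 6) ≤ b * W.card := Nat.mul_le_mul_left _ (by omega)
    have h8 : N * (rho B (W \ B i) + 1) = N * rho B (W \ B i) + N := by ring
    have h9 : a * (cm B (W \ B i) + 1) = a * cm B (W \ B i) + a := by ring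
    have h10 : b * ((W \ B i).card + 6) = b * (W \ B i).card + 6 * b := by ring
    omega

/-- if the inequality fails, there is a minimal counterexample. -/
theorem exists_minC {W : Finset V} (hr : Reg B W) (h5 : ∀ i, (B i ∩ W).card ≤ 5)
    (h : ¬ Dual a b N B W) : ∃ U, MinC a b N B U := by
  classical
  have hex : ∃ k : ℕ, ∃ U : Finset V, Reg B U ∧ (∀ i, (B i ∩ U).card ≤ 5) ∧
      ¬ Dual a b N B U ∧ U.card = k := ⟨W.card, W, hr, h5, h, rfl⟩
  obtain ⟨U, hU1, hU2, hU3, hk⟩ := Nat.find_spec hex
  refine ⟨U, hU1, hU2, ?_, fun Y hY hne => ?_⟩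
  · unfold Dual at hU3
    omega
  · by_contra hcon
    have h1 : Nat.find hex ≤ Y.card := Nat.find_min' hex
      ⟨Y, hU1.mono hY, fun i => (card_le_card (inter_subset_inter_left hY)).trans (hU2 i),
        hcon, rfl⟩
    rw [← hk] at h1
    exact hne (eq_of_subset_of_card_le hY h1)

theorem MinC.cov {U : Finset V} (h : MinC a b N B U) : Cov B U := cov_of_reg h.reg

/-- deleting a nonempty set lowers the cover number a lot. -/
theorem MinC.sdiff {U X : Finset V} (h : MinC a b N B U) (hX : X ⊆ U) (hne : X.Nonempty) :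
    N * rho B (U \ X) + a * (ins B U X).card + b * X.card + 1 ≤ N * rho B U := by
  have h1 : U \ X ≠ U := by
    intro hcon
    obtain ⟨x, hx⟩ := hne
    have := hX hx
    rw [← hcon, mem_sdiff] at this
    exact this.2 hx
  have h2 := h.lt (U \ X) sdiff_subset h1
  have h3 := h.gt
  have h4 := cm_sdiff (B := B) U X
  have h5 := card_sdiff_add_card_eq_card hX
  unfold Dual at h2
  rw [h4, ← h5] at h3
  have h6 : a * (cm B (U \ X) + (ins B U X).card) =
    a * cm B (U \ X) + a * (ins B U X).card := by ring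
  have h7 : b * ((U \ X).card + X.card) = b * (U \ X).card + b * X.card := by ring
  omega

/-- every nonempty set has a large cover number. -/
theorem MinC.irr {U X : Finset V} (h : MinC a b N B U) (hX : X ⊆ U) (hne : X.Nonempty) :
    a * (ins B U X).card + b * X.card + 1 ≤ N * rho B X := by
  have h1 := h.sdiff hX hne
  have hc := h.cov
  have h2 : rho B U ≤ rho B (U \ X) + rho B X := by
    have h3 := rho_union_le (hc.mono (sdiff_subset (s := U) (t := X))) (hc.mono hX)
    rwa [sdiff_union_of_subset hX] at h3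
  have h3 : N * rho B U ≤ N * (rho B (U \ X) + rho B X) := Nat.mul_le_mul_left _ h2
  have h4 : N * (rho B (U \ X) + rho B X) = N * rho B (U \ X) + N * rho B X := by ring
  omega

/-- a set covered by `k` blocks. -/
theorem MinC.irr_of {U X : Finset V} (h : MinC a b N B U) (hX : X ⊆ U) (hne : X.Nonempty)
    {T : Finset ι} (hT : X ⊆ T.biUnion B) :
    a * (ins B U X).card + b * X.card + 1 ≤ N * T.card :=
  (h.irr hX hne).trans (Nat.mul_le_mul_left _ (rho_le hT))

/-- a minimal counterexample is connected. -/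
theorem MinC.conn {U : Finset V} (h : MinC a b N B U) : Conn (gr B) U := by
  have hne : U.Nonempty := by
    rw [nonempty_iff_ne_empty]
    rintro rfl
    have := h.gt
    simp at this
  refine ⟨hne, fun Z hZ hZne => ?_⟩
  by_contra hcon
  have h1 : U \ Z ≠ U := by
    intro he
    obtain ⟨x, hx⟩ := hZne
    have := hZ.1 hx
    rw [← he, mem_sdiff] at this
    exact this.2 hx
  have h2 := h.lt (U \ Z) sdiff_subset h1
  have h3 := h.lt Z hZ.1 hcon
  have hs : Sep B Z (U \ Z) := sep_of_closed hZ sdiff_subset disjoint_sdiff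
  have hc := h.cov
  have h4 := rho_add (hc.mono hZ.1) (hc.mono (sdiff_subset (s := U) (t := Z))) hs
  have h5 := cm_add hs
  rw [union_sdiff_of_subset hZ.1] at h4 h5
  have h6 := card_sdiff_add_card_eq_card hZ.1
  have h7 := h.gt
  unfold Dual at h2 h3
  rw [h4, h5, ← h6] at h7
  have h8 : N * (rho B Z + rho B (U \ Z)) = N * rho B Z + N * rho B (U \ Z) := by ring
  have h9 : a * (cm B Z + cm B (U \ Z)) = a * cm B Z + a * cm B (U \ Z) := by ring
  have h10 : b * ((U \ Z).card + Z.card) = b * (U \ Z).card + b * Z.card := by ring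
  omega

section Packings

/-- the number of points of the block `i` in the packing `F`. -/
def hh (B : ι → Finset V) (U : Finset V) (F : Finset ι) (i : ι) : ℕ :=
  (B i ∩ (F.biUnion B ∩ U)).card

/-- the number of points of the block `i` outside the packing `F`. -/
def ww (B : ι → Finset V) (U : Finset V) (F : Finset ι) (i : ι) : ℕ :=
  (B i ∩ (U \ F.biUnion B)).card

theorem hh_add_ww (U : Finset V) (F : Finset ι) (i : ι) :
    hh B U F i + ww B U F i = (B i ∩ U).card := by
  unfold hh ww
  rw [← card_union_of_disjoint]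
  · congr 1
    ext v
    simp only [mem_union, mem_inter, mem_sdiff]
    tauto
  · rw [Finset.disjoint_left]
    intro v hv hv'
    rw [mem_inter, mem_inter] at hv
    rw [mem_inter, mem_sdiff] at hv'
    exact hv'.2.2 hv.2.1

theorem Pack.ww_eq_zero {U : Finset V} {F : Finset ι} {i : ι} (hi : i ∈ F) :
    ww B U F i = 0 := by
  unfold ww
  rw [card_eq_zero]
  ext v
  simp only [mem_inter, mem_sdiff, notMem_empty, iff_false]
  rintro ⟨h1, _, h3⟩
  exact h3 (mem_biUnion.2 ⟨i, hi, h1⟩)

theorem Pack.hh_eq {U : Finset V} {k : ℕ} {F : Finset ι} (h : Pack B U k F) {i : ι}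
    (hi : i ∈ F) : hh B U F i = k := by
  have h1 := hh_add_ww (B := B) U F i
  rw [Pack.ww_eq_zero hi, h.card i hi] at h1
  omega

/-- the incidences of the points of a packing: `20` for each block with five points. -/
theorem Pack.sum_hh [DecidableEq ι] {U : Finset V} {k : ℕ} {F : Finset ι} (h : Pack B U k F)
    (hr : Reg B U) : ∑ i ∈ univ \ F, hh B U F i = 4 * k * F.card := by
  have h1 : ∑ i, hh B U F i = 5 * (F.biUnion B ∩ U).card :=
    sum_inc (hr.mono inter_subset_right)
  have h2 : ∑ i ∈ univ \ F, hh B U F i + ∑ i ∈ F, hh B U F i = ∑ i, hh B U F i :=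
    sum_sdiff (subset_univ F)
  have h3 : ∑ i ∈ F, hh B U F i = k * F.card := by
    rw [sum_congr rfl fun i hi => h.hh_eq hi]
    simp [mul_comm]
  rw [h.inter_card] at h1
  rw [h3, h1] at h2
  have h4 : 4 * k * F.card = 4 * (k * F.card) := by ring
  rw [h4]
  omega

/-- the incidences of the rest. -/
theorem sum_ww [DecidableEq ι] {U : Finset V} {F : Finset ι} (hr : Reg B U) :
    ∑ i ∈ univ \ F, ww B U F i = 5 * (U \ F.biUnion B).card := by
  have h1 : ∑ i, ww B U F i = 5 * (U \ F.biUnion B).card := sum_inc (hr.mono sdiff_subset)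
  have h2 : ∑ i ∈ univ \ F, ww B U F i + ∑ i ∈ F, ww B U F i = ∑ i, ww B U F i :=
    sum_sdiff (subset_univ F)
  have h3 : ∑ i ∈ F, ww B U F i = 0 := sum_eq_zero fun i hi => Pack.ww_eq_zero hi
  omega

/-- the value of a block outside the packing, as a function of the number `w` of its points outside the
packing and of its size `s`: `C0` if it has no point outside the packing, `C1 - d w` otherwise. -/
def valw (C0 C1 d : ℤ) (w s : ℕ) : ℤ := if s = 0 then 0 else if w = 0 then C0 else C1 - d * w

/-- **the value of a system from a packing of blocks with five points.** The numbers satisfy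
`l N = 24 m`, `5 d = 5 m - l b`, `C0 = l a`, `C1 = l a - 4 m`. -/
theorem val_five [DecidableEq ι] {U : Finset V} {F : Finset ι} (h : Pack B U 5 F)
    (hr : Reg B U) {l m d : ℤ} (hl : 0 ≤ l) (h1 : l * N = 24 * m) (h2 : 5 * d = 5 * m - l * b) :
    m * Pv B (U \ F.biUnion B) + ∑ i ∈ univ \ F, valw (l * a) (l * a - 4 * m) d
        (ww B U F i) (B i ∩ U).card - (l * N - l * a - 5 * (l * b)) * (F.card : ℤ) ≤
      l * ((a : ℤ) * cm B U + (b : ℤ) * U.card - (N : ℤ) * rho B U) := by
  have hc := cov_of_reg hr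
  have e1 : ((rho B U : ℕ) : ℤ) ≤ rho B (U \ F.biUnion B) + F.card := by
    exact_mod_cast rho_le_peel F hc
  have e2 : (((U \ F.biUnion B).card : ℕ) : ℤ) + 5 * F.card = U.card := by
    exact_mod_cast h.card_eq
  have e3 : (∑ i ∈ univ \ F, (ww B U F i : ℤ)) = 5 * ((U \ F.biUnion B).card : ℤ) := by
    exact_mod_cast sum_ww (B := B) (U := U) (F := F) hr
  have hF : ∀ i ∈ F, (B i ∩ U).card = 5 := h.card
  -- the blocks meeting `U`
  have e4 : ((cm B U : ℕ) : ℤ) = F.card + ∑ i ∈ univ \ F, (if (B i ∩ U).card = 0 then 0 else 1) := by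
    have g1 : ((cm B U : ℕ) : ℤ) = ∑ i, (if (B i ∩ U).card = 0 then (0 : ℤ) else 1) := by
      unfold cm tch
      rw [card_filter]
      push_cast
      refine sum_congr rfl fun i _ => ?_
      by_cases g : (B i ∩ U).card = 0
      · rw [if_pos g, if_neg]
        rw [not_nonempty_iff_eq_empty, ← card_eq_zero]
        exact g
      · rw [if_neg g, if_pos (card_pos.1 (Nat.pos_of_ne_zero g))]
    rw [g1, ← sum_sdiff (subset_univ F), add_comm]
    congr 1
    rw [sum_congr rfl (fun i hi => by rw [hF i hi, if_neg (by norm_num)] :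
      ∀ i ∈ F, (if (B i ∩ U).card = 0 then (0 : ℤ) else 1) = 1)]
    simp
  have e5 : ((cm B (U \ F.biUnion B) : ℕ) : ℤ) =
      ∑ i ∈ univ \ F, (if ww B U F i = 0 then 0 else 1) := by
    have g1 : ((cm B (U \ F.biUnion B) : ℕ) : ℤ) =
        ∑ i, (if ww B U F i = 0 then (0 : ℤ) else 1) := by
      unfold cm tch ww
      rw [card_filter]
      push_cast
      refine sum_congr rfl fun i _ => ?_
      by_cases g : (B i ∩ (U \ F.biUnion B)).card = 0
      · rw [if_pos g, if_neg]
        rw [not_nonempty_iff_eq_empty, ← card_eq_zero]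
        exact g
      · rw [if_neg g, if_pos (card_pos.1 (Nat.pos_of_ne_zero g))]
    rw [g1, ← sum_sdiff (subset_univ F)]
    have g2 : ∑ i ∈ F, (if ww B U F i = 0 then (0 : ℤ) else 1) = 0 :=
      sum_eq_zero fun i hi => by rw [Pack.ww_eq_zero hi, if_pos rfl]
    rw [g2, add_zero]
  have e6 : ∑ i ∈ univ \ F, valw (l * a) (l * a - 4 * m) d (ww B U F i) (B i ∩ U).card =
      l * a * ∑ i ∈ univ \ F, (if (B i ∩ U).card = 0 then 0 else 1) -
      4 * m * ∑ i ∈ univ \ F, (if ww B U F i = 0 then 0 else 1) -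
      d * ∑ i ∈ univ \ F, (ww B U F i : ℤ) := by
    rw [mul_sum, mul_sum, mul_sum, ← sum_sub_distrib, ← sum_sub_distrib]
    refine sum_congr rfl fun i _ => ?_
    have g := hh_add_ww (B := B) U F i
    unfold valw
    by_cases g1 : (B i ∩ U).card = 0
    · have g2 : ww B U F i = 0 := by omega
      rw [if_pos g1, if_pos g1, g2]
      simp
    · rw [if_neg g1, if_neg g1]
      by_cases g2 : ww B U F i = 0
      · rw [if_pos g2, if_pos g2, g2]
        simp
      · rw [if_neg g2, if_neg g2]
        ring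
  rw [e6, ← e5, e3, Pv_eq]
  have e7 : ∑ i ∈ univ \ F, (if (B i ∩ U).card = 0 then (0 : ℤ) else 1) =
      cm B U - F.card := by rw [e4]; ring
  rw [e7, ← e2]
  have e8 : l * (N : ℤ) * (rho B U : ℤ) ≤ l * N * (rho B (U \ F.biUnion B) + F.card) :=
    mul_le_mul_of_nonneg_left e1 (mul_nonneg hl (by positivity))
  have e9 : l * (N : ℤ) * (rho B (U \ F.biUnion B) + F.card) =
      24 * m * rho B (U \ F.biUnion B) + l * N * F.card := by
    rw [mul_add, h1]
  have e10 : d * (5 * ((U \ F.biUnion B).card : ℤ)) =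
      (5 * m - l * b) * ((U \ F.biUnion B).card : ℤ) := by
    rw [← h2]; ring
  rw [e10]
  nlinarith [e8, e9]

end Packings

end Pool.Agent.Hyp6
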