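import Pool.Agent.Hyp6.Frame5

/-!
# HYP6 FRAME5B: the frame of level five, the two slopes

Slope `(7, 5, 33)` and slope `(13, 7, 55)`. Facts on minimal counterexamples.
-/

set_option autoImplicit false

namespace Pool.Agent.Hyp6

open Finset Pool.Agent.Hyp5

section Final

/-- the inequality for all systems. -/
def DualAll (a b N : ℕ) : Prop :=
  ∀ (V ι : Type) [DecidableEq V] [Fintype ι] (B : ι → Finset V) (U : Finset V), Reg B U →
    Dual a b N B U

/-- the inequality for all systems with traces of at most five points. -/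
def DualFive (a b N : ℕ) : Prop :=
  ∀ (V ι : Type) [DecidableEq V] [Fintype ι] (B : ι → Finset V) (U : Finset V), Reg B U →
    (∀ i, (B i ∩ U).card ≤ 5) → Dual a b N B U

/-- it is enough to exclude minimal counterexamples. -/
theorem dualFive_of {a b N : ℕ}
    (h : ∀ (V ι : Type) [DecidableEq V] [Fintype ι] (B : ι → Finset V) (U : Finset V),
      ¬ MinC a b N B U) : DualFive a b N := by
  intro V ι _ _ B U hr h5
  by_contra hcon
  obtain ⟨W, hW⟩ := exists_minC hr h5 hcon
  exact h V ι B W hW

theorem dualAll_of {a b N : ℕ} (hN : N ≤ a + 6 * b) (h : DualFive a b N) : DualAll a b N := by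
  intro V ι _ _ B U hr
  exact dual_of_five hN (fun W hW h5 => h V ι B W hW h5) U hr

theorem transversal_of {a b N : ℕ} (h : DualAll a b N) {V κ : Type} [Fintype V] [DecidableEq V]
    [Fintype κ] (e : κ → Finset V) (h5 : ∀ k, (e k).card = 5) :
    ∃ T : Finset V, (∀ k, (e k ∩ T).Nonempty) ∧
      N * T.card ≤ a * Fintype.card V + b * Fintype.card κ := by
  classical
  let B : V → Finset κ := fun v => univ.filter (fun k => v ∈ e k)
  have hr : Reg B (univ : Finset κ) := by
    intro k _
    rw [← h5 k]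
    congr 1
    ext v
    simp [B]
  obtain ⟨T, hT, hc⟩ := exists_cover (cov_of_reg hr)
  refine ⟨T, fun k => ?_, ?_⟩
  · obtain ⟨v, hv, hk⟩ := mem_biUnion.1 (hT (mem_univ k))
    exact ⟨v, mem_inter.2 ⟨(mem_filter.1 hk).2, hv⟩⟩
  · have h1 := h κ V B univ hr
    have h2 : cm B (univ : Finset κ) ≤ Fintype.card V := by
      unfold cm
      exact card_le_univ _
    unfold Dual at h1
    rw [card_univ] at h1
    have h3 : a * cm B (univ : Finset κ) ≤ a * Fintype.card V := Nat.mul_le_mul_left _ h2
    rw [← hc] at h1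
    omega

/-- **S11747**, from the inequality with a slope `11 (a + b) <= 4 N`. -/
theorem S11747_of' {a b N : ℕ} (hab : 11 * (a + b) ≤ 4 * N) (hN : 0 < N) (h : DualAll a b N) :
    ∀ (n : ℕ) (E : Finset (Finset (Fin n))),
      (∀ e ∈ E, e.card = 5) → E.card = n →
      ∃ T : Finset (Fin n), (∀ e ∈ E, (e ∩ T).Nonempty) ∧ 11 * T.card ≤ 4 * n := by
  intro n E h5 hE
  obtain ⟨T, hT, hc⟩ := transversal_of h (V := Fin n) (κ := E) (fun e => e.1)
    (fun e => h5 e.1 e.2)
  refine ⟨T, fun e he => hT ⟨e, he⟩, ?_⟩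
  rw [Fintype.card_fin, Fintype.card_coe, hE] at hc
  have h1 : N * (11 * T.card) ≤ N * (4 * n) := by
    calc N * (11 * T.card) = 11 * (N * T.card) := by ring
      _ ≤ 11 * (a * n + b * n) := Nat.mul_le_mul_left _ hc
      _ = (11 * (a + b)) * n := by ring
      _ ≤ (4 * N) * n := Nat.mul_le_mul_right _ hab
      _ = N * (4 * n) := by ring
  exact Nat.le_of_mul_le_mul_left h1 hN

/-- **S12445**, from the inequality with a slope `11 (a + b) <= 4 N`. -/
theorem S12445_of' {a b N : ℕ} (hab : 11 * (a + b) ≤ 4 * N) (hN : 0 < N) (h : DualAll a b N) :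
    ∀ (V : Type) [Fintype V] (G : SimpleGraph V) [DecidableRel G.Adj],
      G.Connected → 5 ≤ G.minDegree →
        ∃ S : Finset V, (∀ v : V, ∃ u ∈ S, G.Adj v u) ∧
          11 * S.card ≤ 4 * Fintype.card V := by
  classical
  intro V _ G _ _ hd
  have h1 : ∀ v : V, ∃ t ⊆ G.neighborFinset v, t.card = 5 := by
    intro v
    refine Finset.exists_subset_card_eq ?_
    rw [SimpleGraph.card_neighborFinset_eq_degree]
    exact hd.trans (G.minDegree_le_degree v)
  choose e he h5 using h1
  obtain ⟨T, hT, hc⟩ := transversal_of h e h5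
  refine ⟨T, fun v => ?_, ?_⟩
  · obtain ⟨u, hu⟩ := hT v
    rw [Finset.mem_inter] at hu
    exact ⟨u, hu.2, (G.mem_neighborFinset v u).mp (he v hu.1)⟩
  · have h1 : N * (11 * T.card) ≤ N * (4 * Fintype.card V) := by
      calc N * (11 * T.card) = 11 * (N * T.card) := by ring
        _ ≤ 11 * (a * Fintype.card V + b * Fintype.card V) := Nat.mul_le_mul_left _ hc
        _ = (11 * (a + b)) * Fintype.card V := by ring
        _ ≤ (4 * N) * Fintype.card V := Nat.mul_le_mul_right _ hab
        _ = N * (4 * Fintype.card V) := by ring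
    exact Nat.le_of_mul_le_mul_left h1 hN

end Final

variable {V : Type*} [DecidableEq V] {ι : Type*} [Fintype ι] {B : ι → Finset V}

/-- the value for the slope `(7, 5, 33)`, in the scale `264`. -/
theorem val_C [DecidableEq ι] {U : Finset V} {F : Finset ι} (h : Pack B U 5 F) (hr : Reg B U) :
    11 * Pv B (U \ F.biUnion B) + ∑ i ∈ univ \ F, valw 56 12 3 (ww B U F i) (B i ∩ U).card -
      8 * (F.card : ℤ) ≤ 8 * (7 * cm B U + 5 * U.card - 33 * rho B U : ℤ) := by
  have := val_five (a := 7) (b := 5) (N := 33) h hr (l := 8) (m := 11) (d := 3) (by norm_num)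
    (by norm_num) (by norm_num)
  rw [show (8 : ℤ) * ((7 : ℕ) : ℤ) = 56 by norm_num, show (56 : ℤ) - 4 * 11 = 12 by norm_num,
    show (8 : ℤ) * ((33 : ℕ) : ℤ) - 56 - 5 * (8 * ((5 : ℕ) : ℤ)) = 8 by norm_num] at this
  push_cast at this
  exact this

/-- the value for the slope `(13, 7, 55)`, in the scale `13200`. -/
theorem val_Cs [DecidableEq ι] {U : Finset V} {F : Finset ι} (h : Pack B U 5 F) (hr : Reg B U) :
    550 * Pv B (U \ F.biUnion B) +
        ∑ i ∈ univ \ F, valw 3120 920 214 (ww B U F i) (B i ∩ U).card -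
      1680 * (F.card : ℤ) ≤ 240 * (13 * cm B U + 7 * U.card - 55 * rho B U : ℤ) := by
  have := val_five (a := 13) (b := 7) (N := 55) h hr (l := 240) (m := 550) (d := 214)
    (by norm_num) (by norm_num) (by norm_num)
  rw [show (240 : ℤ) * ((13 : ℕ) : ℤ) = 3120 by norm_num,
    show (3120 : ℤ) - 4 * 550 = 920 by norm_num,
    show (240 : ℤ) * ((55 : ℕ) : ℤ) - 3120 - 5 * (240 * ((7 : ℕ) : ℤ)) = 1680 by norm_num] at this
  push_cast at this
  exact this

/-- the value of a block in terms of the number `h` of its points in the packing and its size `s`: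
`150 h - 150 [s = 5] + 64, 278, 492, 706` for `s = 4, 3, 2, 1`. -/
def vals (h s : ℕ) : ℤ :=
  if s = 0 then 0 else 150 * (h : ℤ) + (if s = 5 then (-150 : ℤ) else 278 + 214 * (3 - (s : ℤ)))

/-- the value for the slope `(13, 7, 55)`, in the scale `13200`, second form. -/
theorem val_Cs' [DecidableEq ι] {U : Finset V} {F : Finset ι} (h : Pack B U 5 F) (hr : Reg B U)
    (h5 : ∀ i, (B i ∩ U).card ≤ 5) :
    550 * Pv B (U \ F.biUnion B) + ∑ i ∈ univ \ F, vals (hh B U F i) (B i ∩ U).card -
      400 * (F.card : ℤ) ≤ 240 * (13 * cm B U + 7 * U.card - 55 * rho B U : ℤ) := by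
  have h1 := val_Cs h hr
  have h2 : (∑ i ∈ univ \ F, (hh B U F i : ℤ)) = 20 * (F.card : ℤ) := by
    have := h.sum_hh hr
    exact_mod_cast this
  have h3 : ∑ i ∈ univ \ F, vals (hh B U F i) (B i ∩ U).card + ∑ i ∈ univ \ F, 64 * (hh B U F i : ℤ)
      ≤ ∑ i ∈ univ \ F, valw 3120 920 214 (ww B U F i) (B i ∩ U).card := by
    rw [← sum_add_distrib]
    refine sum_le_sum fun i _ => ?_
    have g := hh_add_ww (B := B) U F i
    have g5 := h5 i
    unfold vals valw
    by_cases g1 : (B i ∩ U).card = 0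
    · have g2 : hh B U F i = 0 := by omega
      rw [if_pos g1, if_pos g1, g2]
      simp
    · rw [if_neg g1, if_neg g1]
      have g3 : ((B i ∩ U).card : ℤ) = hh B U F i + ww B U F i := by exact_mod_cast g.symm
      by_cases g2 : ww B U F i = 0
      · rw [if_pos g2, g3, g2]
        split_ifs <;> push_cast <;> omega
      · rw [if_neg g2, g3]
        split_ifs <;> push_cast <;> omega
  rw [← mul_sum, h2] at h3
  linarith

section Min

variable {U : Finset V}

/-- a minimal counterexample is critical: every point matters. -/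
theorem MinC.point {a b N : ℕ} (h : MinC a b N B U) (hN : N ≤ a + 6 * b) {x : V} (hx : x ∈ U) :
    rho B (U.erase x) + 1 = rho B U := by
  have h1 := h.sdiff (X := {x}) (singleton_subset_iff.2 hx) (singleton_nonempty x)
  rw [sdiff_singleton_eq_erase] at h1
  have h2 := rho_le_erase (B := B) (x := x) h.cov
  have h3 : rho B (U.erase x) < rho B U := by
    by_contra hcon
    push Not at hcon
    have : N * rho B U ≤ N * rho B (U.erase x) := Nat.mul_le_mul_left _ hcon
    omega
  omega

/-- every block with five points of a minimal counterexample. -/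
theorem MinC.quint (h : MinC 7 5 33 B U) {i : ι} (hi : (B i ∩ U).card = 5) :
    ins B U (B i) = {i} ∧ rho B (U \ B i) + 1 = rho B U ∧
      7 * cm B U + 5 * U.card + 1 = 33 * rho B U ∧
      33 * rho B (U \ B i) = 7 * cm B (U \ B i) + 5 * (U \ B i).card := by
  have hne : (B i ∩ U).Nonempty := card_pos.1 (by omega)
  have e1 : U \ (B i ∩ U) = U \ B i := by
    ext v; simp only [mem_sdiff, mem_inter]; tauto
  have e2 : ins B U (B i ∩ U) = ins B U (B i) := by
    ext j
    rw [mem_ins, mem_ins]
    constructor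
    · rintro ⟨g1, g2⟩
      exact ⟨g1, g2.trans inter_subset_left⟩
    · rintro ⟨g1, g2⟩
      exact ⟨g1, subset_inter g2 inter_subset_right⟩
  have h1 := h.sdiff (X := B i ∩ U) inter_subset_right hne
  rw [e1, e2, hi] at h1
  have h2 := rho_le_sdiff_block i h.cov
  have h3 : i ∈ ins B U (B i) := mem_ins.2 ⟨hne, inter_subset_left⟩
  have h4 : 1 ≤ (ins B U (B i)).card := card_pos.2 ⟨i, h3⟩
  have h5 : (ins B U (B i)).card = 1 := by omega
  have h6 : rho B (U \ B i) + 1 = rho B U := by omega
  have h7 := h.gt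
  have h8 : U \ B i ≠ U := by
    intro hcon
    obtain ⟨v, hv⟩ := hne
    rw [mem_inter] at hv
    have := hv.2
    rw [← hcon, mem_sdiff] at this
    exact this.2 hv.1
  have h9 := h.lt _ sdiff_subset h8
  unfold Dual at h9
  have h10 := cm_sdiff (B := B) U (B i)
  have h11 := card_sdiff_block (B := B) U i
  refine ⟨?_, h6, by omega, by omega⟩
  obtain ⟨j, hj⟩ := card_eq_one.1 h5
  rw [hj] at h3 ⊢
  rw [mem_singleton.1 h3]

/-- no further block lies in the union of at most seven disjoint blocks with five points. -/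
theorem MinC.pack_small [DecidableEq ι] (h : MinC 7 5 33 B U) {F : Finset ι} (hF : Pack B U 5 F)
    (hcard : F.card ≤ 7) : ins B U (F.biUnion B) = F := by
  rcases F.eq_empty_or_nonempty with rfl | ⟨i0, hi0⟩
  · ext j
    rw [mem_ins]
    simp only [biUnion_empty, subset_empty, notMem_empty, iff_false, not_and]
    intro g1 g2
    rw [g2] at g1
    simp at g1
  have hne : (F.biUnion B ∩ U).Nonempty := by
    have : 0 < (B i0 ∩ U).card := by rw [hF.card i0 hi0]; norm_num
    obtain ⟨v, hv⟩ := card_pos.1 this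
    rw [mem_inter] at hv
    exact ⟨v, mem_inter.2 ⟨mem_biUnion.2 ⟨i0, hi0, hv.1⟩, hv.2⟩⟩
  have e2 : ins B U (F.biUnion B ∩ U) = ins B U (F.biUnion B) := by
    ext j
    rw [mem_ins, mem_ins]
    constructor
    · rintro ⟨g1, g2⟩
      exact ⟨g1, g2.trans inter_subset_left⟩
    · rintro ⟨g1, g2⟩
      exact ⟨g1, subset_inter g2 inter_subset_right⟩
  have h1 := h.irr_of (X := F.biUnion B ∩ U) inter_subset_right hne (T := F) inter_subset_left
  rw [e2, hF.inter_card] at h1
  have h2 := hF.sub_ins (by norm_num)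
  refine (eq_of_subset_of_card_le h2 ?_).symm
  omega

/-- no block lies in the union of a packing of blocks with five points, except its members. -/
theorem MinC.pack_closed [DecidableEq ι] (h : MinC 7 5 33 B U) {F : Finset ι}
    (hF : Pack B U 5 F) : ins B U (F.biUnion B) = F := by
  classical
  refine subset_antisymm ?_ (hF.sub_ins (by norm_num))
  intro j hj
  rw [mem_ins] at hj
  obtain ⟨hj1, hj2⟩ := hj
  have hex : ∀ v ∈ B j ∩ U, ∃ i ∈ F, v ∈ B i := fun v hv => mem_biUnion.1 (hj2 hv)
  have : Nonempty ι := ⟨j⟩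
  choose! g hg1 hg2 using hex
  set F' := (B j ∩ U).image g with hF'
  have hsub : F' ⊆ F := by
    intro i hi
    obtain ⟨v, hv, rfl⟩ := mem_image.1 hi
    exact hg1 v hv
  have hP : Pack B U 5 F' := ⟨fun i hi => hF.card i (hsub hi),
    fun i hi k hk hne => hF.disj i (hsub hi) k (hsub hk) hne⟩
  have hc : F'.card ≤ 5 := card_image_le.trans (h.five j)
  have h1 := h.pack_small hP (by omega)
  have h2 : j ∈ ins B U (F'.biUnion B) := by
    rw [mem_ins]
    refine ⟨hj1, fun v hv => ?_⟩
    exact mem_biUnion.2 ⟨g v, mem_image_of_mem g hv, hg2 v hv⟩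
  rw [h1] at h2
  exact hsub h2

end Min

end Pool.Agent.Hyp6
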