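import Pool.Agent.Hyp6.AbsBad

/-! # HYP6 GA: the closing lemma -/

set_option autoImplicit false

namespace Pool.Agent.Hyp6

open Finset Pool.Agent.Hyp5

universe u v

variable {V : Type v} [DecidableEq V] {ι : Type u} [Fintype ι] {B : ι → Finset V}

theorem closing_aux {Q M J1 J2 : Finset V} (hs : Small B) (hr : Reg B Q) (hfM : FC (gr B) M)
    (hbM : Bad B M) (hbQ : Bad B Q) (hMQ : M ⊆ Q) (h1 : J1 ⊆ Q \ M) (h2 : J2 ⊆ Q \ M)
    (hd : Disjoint J1 J2)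
    (hal : ∀ p ∈ J1, ∀ q ∈ J2, PM (gr B) (Q \ insert p (insert q M)))
    (ih : IHG.{u} V Q.card) (hcard : M.card + 2 < Q.card)
    {e1 e2 : ℕ} (he1 : 1 ≤ e1) (he2 : 1 ≤ e2) (h41 : e1 ≤ 4) (h42 : e2 ≤ 4)
    (hE1 : e1 ≤ cx B M J1) (hE2 : e2 ≤ cx B M J2) (hle : e2 ≤ e1) :
    4 * (e2 : ℤ) - 6 + (if e2 + 2 ≤ e1 then 2 else 0) ≤ et B Q M := by
  classical
  obtain ⟨E1, hE1s, hE1c⟩ := exists_subset_card_eq hE1
  obtain ⟨E2, hE2s, hE2c⟩ := exists_subset_card_eq hE2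
  obtain ⟨i1, hi1⟩ : E1.Nonempty := card_pos.1 (by omega)
  obtain ⟨i2, hi2⟩ : E2.Nonempty := card_pos.1 (by omega)
  obtain ⟨hM1, x, hx⟩ := mem_cxs.1 (hE1s hi1)
  obtain ⟨hM2, y, hy⟩ := mem_cxs.1 (hE2s hi2)
  rw [mem_inter] at hx hy
  have hxM := h1 hx.2
  have hyM := h2 hy.2
  have hx' := (mem_sdiff.1 hxM).2
  have hy' := (mem_sdiff.1 hyM).2
  have hxy : x ≠ y := fun h => disjoint_left.1 hd hx.2 (h ▸ hy.2)
  have hne1 : ∀ i ∈ E1, (B i ∩ M).Nonempty := fun i hi => (mem_cxs.1 (hE1s hi)).1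
  have hne2 : ∀ i ∈ E2, (B i ∩ M).Nonempty := fun i hi => (mem_cxs.1 (hE2s hi)).1
  have hdE : ∀ i ∈ E1, i ∉ E2 := by
    intro i hi hi'
    obtain ⟨hne, p, hp⟩ := mem_cxs.1 (hE1s hi)
    obtain ⟨_, q, hq⟩ := mem_cxs.1 (hE2s hi')
    rw [mem_inter] at hp hq
    exact no_cross hs hfM hbQ hMQ (h1 hp.2) (h2 hq.2)
      (fun h => disjoint_left.1 hd hp.2 (h ▸ hq.2)) (hal p hp.2 q hq.2) i hp.1 hq.1 hne
  have hcard2 : ∀ i ∈ cxs B M J1, (B i ∩ M).card ≤ 2 := by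
    intro i hi
    obtain ⟨_, p, hp⟩ := mem_cxs.1 hi
    rw [mem_inter] at hp
    have h3 : insert p (B i ∩ M) ⊆ B i := by
      intro v hv
      rcases mem_insert.1 hv with rfl | hv
      · exact hp.1
      · exact (mem_inter.1 hv).1
    have h4 := card_le_card h3
    rw [card_insert_of_notMem (fun h => (mem_sdiff.1 (h1 hp.2)).2 (mem_inter.1 h).2)] at h4
    have := hs i
    omega
  have hcard3 : ∀ i ∈ cxs B M J2, (B i ∩ M).card ≤ 2 := by
    intro i hi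
    obtain ⟨_, p, hp⟩ := mem_cxs.1 hi
    rw [mem_inter] at hp
    have h3 : insert p (B i ∩ M) ⊆ B i := by
      intro v hv
      rcases mem_insert.1 hv with rfl | hv
      · exact hp.1
      · exact (mem_inter.1 hv).1
    have h4 := card_le_card h3
    rw [card_insert_of_notMem (fun h => (mem_sdiff.1 (h2 hp.2)).2 (mem_inter.1 h).2)] at h4
    have := hs i
    omega
  have hq2 : ∀ {J : Finset V}, J ⊆ Q \ M → ∀ i ∈ cxs B M J, 2 ≤ (B i ∩ Q).card := by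
    intro J hJ i hi
    obtain ⟨⟨u, hu⟩, p, hp⟩ := mem_cxs.1 hi
    rw [mem_inter] at hp hu
    have h3 : ({u, p} : Finset V) ⊆ B i ∩ Q := by
      intro v hv
      simp only [mem_insert, mem_singleton] at hv
      rcases hv with rfl | rfl
      · exact mem_inter.2 ⟨hu.1, hMQ hu.2⟩
      · exact mem_inter.2 ⟨hp.1, (mem_sdiff.1 (hJ hp.2)).1⟩
    have h4 := card_le_card h3
    have hup : u ≠ p := fun h => (mem_sdiff.1 (hJ hp.2)).2 (h ▸ hu.2)
    rwa [card_pair hup] at h4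
  obtain ⟨a, ha⟩ : ∃ a, e1 + a = 5 := ⟨5 - e1, by omega⟩
  obtain ⟨b, hb⟩ : ∃ b, e2 + b = e1 := ⟨e1 - e2, by omega⟩
  have hB' : Small (absB B M E1 E2 x y a b) :=
    absB_small hs hdE (fun i hi => hcard2 i (hE1s hi)) (fun i hi => hcard3 i (hE2s hi))
  have hR' : Reg (absB B M E1 E2 x y a b) (insert x (insert y M)) :=
    absB_reg (hr.mono hMQ) hx' hy' hxy (by omega) (by omega)
  have hF' : FC (gr (absB B M E1 E2 x y a b)) (insert x (insert y M)) :=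
    absB_fc hfM hx' hy' hxy ⟨i1, hi1, hM1⟩ ⟨i2, hi2, hM2⟩ (by omega)
  have hBad' : Bad (absB B M E1 E2 x y a b) (insert x (insert y M)) :=
    absB_bad hs hbM hbQ hMQ h1 h2 hd hal hE1s hE2s hdE hx' hy' hxy
  have hc' : (insert x (insert y M)).card = M.card + 2 := by
    rw [card_insert_of_notMem, card_insert_of_notMem hy']
    rw [mem_insert]
    rintro (h | h)
    · exact hxy h
    · exact hx' h
  have hgm := ih _ (absB B M E1 E2 x y a b) (insert x (insert y M)) (by omega) hB' hR' hF' hBad'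
  have hG := absB_G (a := a) (b := b) hx' hy' hxy hne1 hne2
  have hee := absB_ee (a := a) (b := b) hMQ hx' hy' hxy (fun i hi => hq2 h1 i (hE1s hi))
    (fun i hi => hq2 h2 i (hE2s hi))
  unfold GM et at hgm
  unfold et
  rw [hG] at hgm
  have hab : (a : ℤ) + b = 5 - e2 := by omega
  have hee' : (ee B Q M : ℤ) + (if 2 ≤ b then 1 else 0) ≤
      ee (absB B M E1 E2 x y a b) (insert x (insert y M)) (insert x (insert y M)) := by
    have := hee
    split_ifs at this ⊢ <;> exact_mod_cast this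
  have hif : (if e2 + 2 ≤ e1 then (2 : ℤ) else 0) = 2 * (if 2 ≤ b then 1 else 0) := by
    by_cases h : 2 ≤ b
    · rw [if_pos h, if_pos (by omega)]; norm_num
    · rw [if_neg h, if_neg (by omega)]; norm_num
  rw [hif]
  rw [hab] at hgm
  linarith

/-- the closing lemma: `M` has a large excess if two groups of outside points are jointly refused. -/
theorem closing {Q M J1 J2 : Finset V} (hs : Small B) (hr : Reg B Q) (hfM : FC (gr B) M)
    (hbM : Bad B M) (hbQ : Bad B Q) (hMQ : M ⊆ Q) (h1 : J1 ⊆ Q \ M) (h2 : J2 ⊆ Q \ M)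
    (hd : Disjoint J1 J2)
    (hal : ∀ p ∈ J1, ∀ q ∈ J2, PM (gr B) (Q \ insert p (insert q M)))
    (ih : IHG.{u} V Q.card) (hcard : M.card + 2 < Q.card)
    {e1 e2 : ℕ} (he1 : 1 ≤ e1) (he2 : 1 ≤ e2) (h41 : e1 ≤ 4) (h42 : e2 ≤ 4)
    (hE1 : e1 ≤ cx B M J1) (hE2 : e2 ≤ cx B M J2) :
    4 * (min e1 e2 : ℕ) - 6 + (if min e1 e2 + 2 ≤ max e1 e2 then 2 else 0) ≤ et B Q M := by
  rcases le_total e2 e1 with h | h
  · rw [min_eq_right h, max_eq_left h]
    exact closing_aux hs hr hfM hbM hbQ hMQ h1 h2 hd hal ih hcard he1 he2 h41 h42 hE1 hE2 h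
  · rw [min_eq_left h, max_eq_right h]
    refine closing_aux hs hr hfM hbM hbQ hMQ h2 h1 hd.symm ?_ ih hcard he2 he1 h42 h41 hE2 hE1 h
    intro p hp q hq
    rw [Finset.insert_comm]
    exact hal q hq p hp

end Pool.Agent.Hyp6
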