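import Pool.Agent.Hyp6.GDefs
import Pool.Agent.Hyp6.CompLow

/-! # HYP6 GB: maximal tight systems and the even components (owner helper5) -/

set_option autoImplicit false

namespace Pool.Agent.Hyp6

open Finset Pool.Agent.Hyp5

universe u v

variable {V : Type v} [DecidableEq V] {ι : Type u} [Fintype ι] {B : ι → Finset V}

/-- among the tight systems containing the inner triple `i` all of whose members are `Bad` one with a
maximal `X` has the component property. -/
theorem exists_cfg {Q : Finset V} (hs : Small B) (hr : Reg B Q) (hfc : FC (gr B) Q) (hb : Bad B Q)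
    {i : ι} (hi : Inner B Q i) :
    ∃ (X : Finset V) (F : Finset (Finset V)), Cfg B Q X F i := by
  obtain ⟨X, F, hBX, ht, hmem, hmax⟩ := exists_max_low hfc hb hi
  refine ⟨X, F, hs, hr, hfc, hb, hi, hBX, ht, hmem, ?_⟩
  intro R hRsub hRc hRne hRconn x hx hadj
  refine comp_low hfc hb hBX ht hmem hmax hRc ?_ ⟨hRne, ?_⟩ hx hadj
  · intro C hC
    rw [Finset.disjoint_left]
    intro y hy hy'
    exact (mem_sdiff.1 (hRsub hy')).2 (mem_biUnion.2 ⟨C, hC, hy⟩)
  · intro Z hZ hZne
    exact hRconn Z hZ.1 (closed_trans hRc hZ) hZne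

theorem ee_union {Q P P' : Finset V} (hd : Disjoint P P') :
    ee B Q (P ∪ P') = ee B Q P + ee B Q P' := by
  unfold ee
  rw [filter_union, card_union_of_disjoint (disjoint_filter_filter hd)]

@[simp] theorem ee_empty (Q : Finset V) : ee B Q ∅ = 0 := by simp [ee]

/-- a smaller set has at least as many such points. -/
theorem ee_le_ee {Q W P : Finset V} (hPW : P ⊆ W) (hWQ : W ⊆ Q) : ee B Q P ≤ ee B W P := by
  unfold ee
  refine card_le_card fun t ht => ?_
  rw [mem_filter] at ht ⊢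
  refine ⟨ht.1, ht.2.trans (card_le_card fun i hi => ?_)⟩
  rw [mem_filter] at hi ⊢
  refine ⟨hi.1, ?_⟩
  have h1 : B i ∩ W = (B i ∩ Q) ∩ W := by
    rw [inter_assoc, inter_eq_right.2 hWQ]
  rw [h1, hi.2, singleton_inter_of_mem (hPW ht.1)]

theorem ee_mono {Q P P' : Finset V} (h : P ⊆ P') : ee B Q P ≤ ee B Q P' :=
  card_le_card (filter_subset_filter _ h)

theorem er_union {Q U W : Finset V} (hd : Disjoint U W) (h : Sep B U W) :
    er B Q (U ∪ W) = er B Q U + er B Q W := by
  unfold er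
  rw [G_add hd h, ee_union hd]
  push_cast
  ring

theorem er_biUnion {Q : Finset V} {K : Finset (Finset V)} (h : SepF B K) :
    er B Q (K.biUnion id) = ∑ C ∈ K, er B Q C := by
  classical
  induction K using Finset.induction_on with
  | empty => simp [er]
  | insert C K hC ih =>
    have hne : ∀ D ∈ K, C ≠ D := fun D hD he => hC (he ▸ hD)
    have h1 : ∀ D ∈ K, Disjoint C D ∧ Sep B C D := fun D hD =>
      h C (mem_insert_self _ _) D (mem_insert_of_mem hD) (hne D hD)
    rw [biUnion_insert, sum_insert hC]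
    simp only [id]
    rw [er_union (disjoint_biUnion fun D hD => (h1 D hD).1)
      (sep_biUnion fun D hD => (h1 D hD).2)]
    have h2 := ih (h.mono (subset_insert _ _))
    rw [← h2]

/-- the even component `R` with `r` blocks to the point `x` of `X`. -/
theorem comp_er {Q X : Finset V} {F : Finset (Finset V)} {i : ι} (h : Cfg B Q X F i)
    (ih : IHG.{u} V Q.card) {R : Finset V} (hRsub : R ⊆ (Q \ X) \ F.biUnion id)
    (hRc : Closed (gr B) (Q \ X) R) (hRc' : Conn (gr B) R) {x : V} (hx : x ∈ X)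
    (hadj : ∃ y ∈ R, (gr B).Adj x y) :
    4 * (cx B R {x} : ℤ) - 2 + (if cx B R {x} ≤ 3 then 2 else 0) ≤ er B Q R := by
  classical
  have hRX : ∀ y ∈ R, y ∈ Q ∧ y ∉ X := fun y hy => mem_sdiff.1 (hRc.1 hy)
  have hxR : x ∉ R := fun hxR => (hRX x hxR).2 hx
  obtain ⟨hfc, hbad⟩ := h.comp R hRsub hRc hRc'.1
    (fun R' hR' hR'c hR'ne => hRc'.2 R' (hR'c.mono hR' hRc.1) hR'ne) x hx hadj
  have hWQ : insert x R ⊆ Q := insert_subset (h.tight.sub hx) fun y hy => (hRX y hy).1
  have hlt : (insert x R).card < Q.card := by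
    refine card_lt_card ⟨hWQ, fun hcon => ?_⟩
    have h3 : 1 < (B i).card := by rw [h.inner.2]; norm_num
    obtain ⟨y, hy, hyx⟩ := exists_mem_ne h3 x
    have hyX := h.sub hy
    rcases mem_insert.1 (hcon (h.tight.sub hyX)) with h4 | h4
    · exact hyx h4
    · exact (hRX y h4).2 hyX
  have hg := ih ι B (insert x R) hlt h.small (h.reg.mono hWQ) hfc hbad
  unfold GM et at hg
  have hdis : Disjoint R {x} := disjoint_singleton_right.2 hxR
  have hins : insert x R = R ∪ {x} := by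
    rw [union_comm]
    rfl
  have hG : G B (insert x R) = G B R + 13 - 4 * (cx B R {x} : ℤ) := by
    rw [hins, G_union hdis, G_singleton (h.reg.mono (singleton_subset_iff.2 (h.tight.sub hx)))]
  have he1 : ee B (insert x R) (insert x R) = ee B (insert x R) R + ee B (insert x R) {x} := by
    have h9 := ee_union (B := B) (Q := insert x R) hdis
    rw [← hins] at h9
    exact h9
  have he2 : ee B Q R ≤ ee B (insert x R) R := ee_le_ee (subset_insert _ _) hWQ
  have he3 : (if cx B R {x} ≤ 3 then 1 else 0) ≤ ee B (insert x R) {x} := by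
    split_ifs with hc
    · unfold ee
      rw [Nat.succ_le_iff, card_pos]
      refine ⟨x, mem_filter.2 ⟨mem_singleton_self x, ?_⟩⟩
      have h5 := h.reg x (h.tight.sub hx)
      have h6 : (univ.filter (fun j => x ∈ B j)) \ cxs B R {x} ⊆
          univ.filter (fun j => B j ∩ insert x R = {x}) := by
        intro j hj
        rw [mem_sdiff, mem_filter, mem_cxs] at hj
        rw [mem_filter]
        refine ⟨mem_univ j, ?_⟩
        have h7 : ¬ (B j ∩ R).Nonempty := fun h8 =>
          hj.2 ⟨h8, x, mem_inter.2 ⟨hj.1.2, mem_singleton_self x⟩⟩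
        ext y
        rw [mem_inter, mem_insert, mem_singleton]
        constructor
        · rintro ⟨hyj, hyx | hyR⟩
          · exact hyx
          · exact absurd ⟨y, mem_inter.2 ⟨hyj, hyR⟩⟩ h7
        · rintro rfl
          exact ⟨hj.1.2, Or.inl rfl⟩
      have h7 := card_le_card h6
      have h8 := le_card_sdiff (cxs B R {x}) (univ.filter (fun j => x ∈ B j))
      rw [h5] at h8
      unfold cx at hc
      omega
    · exact Nat.zero_le _
  unfold er
  rw [hG, he1] at hg
  push_cast at hg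
  split_ifs at he3 ⊢ with hc
  · omega
  · omega

/-- a nonempty closed set of the rest has a neighbour in `X`. -/
theorem exists_adj {Q X : Finset V} {F : Finset (Finset V)} {i : ι} (h : Cfg B Q X F i)
    {R : Finset V} (hRc : Closed (gr B) (Q \ X) R) (hRne : R.Nonempty) :
    ∃ x ∈ X, ∃ y ∈ R, (gr B).Adj x y := by
  by_contra hcon
  push Not at hcon
  have hc : Closed (gr B) Q R := by
    refine ⟨hRc.1.trans sdiff_subset, fun z hz y hy hzy => ?_⟩
    refine hRc.2 z hz y (mem_sdiff.2 ⟨hy, fun hyX => ?_⟩) hzy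
    exact hcon y hyX z hz hzy.symm
  have h1 := h.fc.conn hc hRne
  have h3 : 0 < (B i).card := by rw [h.inner.2]; norm_num
  obtain ⟨y, hy⟩ := card_pos.1 h3
  have hyX := h.sub hy
  have hyR : y ∈ R := by
    rw [h1]
    exact h.tight.sub hyX
  exact (mem_sdiff.1 (hRc.1 hyR)).2 hyX

theorem cx_pos_of_adj {R : Finset V} {x : V} (hadj : ∃ y ∈ R, (gr B).Adj x y) :
    1 ≤ cx B R {x} := by
  obtain ⟨y, hy, _, j, hj1, hj2⟩ := hadj
  unfold cx
  rw [Nat.succ_le_iff, card_pos]
  exact ⟨j, mem_cxs.2 ⟨⟨y, mem_inter.2 ⟨hj2, hy⟩⟩, ⟨x, mem_inter.2 ⟨hj1, mem_singleton_self x⟩⟩⟩⟩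

/-- every even component has excess at least `2`. -/
theorem comp_er4 {Q X : Finset V} {F : Finset (Finset V)} {i : ι} (h : Cfg B Q X F i)
    (ih : IHG.{u} V Q.card) {R : Finset V} (hRsub : R ⊆ (Q \ X) \ F.biUnion id)
    (hRc : Closed (gr B) (Q \ X) R) (hRc' : Conn (gr B) R) : 4 ≤ er B Q R := by
  obtain ⟨x, hx, hadj⟩ := exists_adj h hRc hRc'.1
  have h1 := comp_er h ih hRsub hRc hRc' hx hadj
  have h2 := cx_pos_of_adj hadj
  split_ifs at h1 with hc
  · omega
  · omega

/-- the components of the even rest. -/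
theorem exists_comps {Q X : Finset V} {F : Finset (Finset V)} {i : ι} (h : Cfg B Q X F i) :
    ∃ K : Finset (Finset V), (∀ C ∈ K, C ⊆ (Q \ X) \ F.biUnion id ∧
      Closed (gr B) (Q \ X) C ∧ Conn (gr B) C) ∧ SepF B K ∧
      K.biUnion id = (Q \ X) \ F.biUnion id := by
  obtain ⟨K, hK1, hK2, hK3⟩ := exists_conn_family
    (W := Q \ X) (R := (Q \ X) \ F.biUnion id) (Closed.biUnion h.tight.sys.closed).compl
  refine ⟨K, fun C hC => ⟨?_, (hK1 C hC).1, (hK1 C hC).2⟩, ?_, hK3⟩
  · rw [← hK3]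
    exact subset_biUnion_of_mem id hC
  · intro C hC D hD hne
    exact ⟨hK2 C hC D hD hne,
      sep_of_closed (hK1 C hC).1 (hK1 D hD).1.1 (hK2 C hC D hD hne)⟩

/-- the even rest has excess at least `0`. -/
theorem rest_nonneg {Q X : Finset V} {F : Finset (Finset V)} {i : ι} (h : Cfg B Q X F i)
    (ih : IHG.{u} V Q.card) : 0 ≤ er B Q ((Q \ X) \ F.biUnion id) := by
  obtain ⟨K, hK1, hK2, hK3⟩ := exists_comps h
  rw [← hK3, er_biUnion hK2]
  refine sum_nonneg fun C hC => ?_
  have := comp_er4 h ih (hK1 C hC).1 (hK1 C hC).2.1 (hK1 C hC).2.2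
  omega

/-- the even rest has excess at least `2`. -/
theorem rest_ge {Q X : Finset V} {F : Finset (Finset V)} {i : ι} (h : Cfg B Q X F i)
    (ih : IHG.{u} V Q.card) (hR : ((Q \ X) \ F.biUnion id).Nonempty) :
    4 ≤ er B Q ((Q \ X) \ F.biUnion id) := by
  obtain ⟨K, hK1, hK2, hK3⟩ := exists_comps h
  have h4 : ∀ C ∈ K, 4 ≤ er B Q C := fun C hC =>
    comp_er4 h ih (hK1 C hC).1 (hK1 C hC).2.1 (hK1 C hC).2.2
  rw [← hK3] at hR
  obtain ⟨y, hy⟩ := hR
  obtain ⟨C, hC, _⟩ := mem_biUnion.1 hy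
  rw [← hK3, er_biUnion hK2]
  refine (h4 C hC).trans ?_
  exact single_le_sum (f := fun C => er B Q C) (fun D hD => by have := h4 D hD; omega) hC

/-- ... and at least `4` if some point of `X` has two blocks to it. -/
theorem rest_ge2 {Q X : Finset V} {F : Finset (Finset V)} {i : ι} (h : Cfg B Q X F i)
    (ih : IHG.{u} V Q.card) {x : V} (hx : x ∈ X)
    (h2 : 2 ≤ cx B ((Q \ X) \ F.biUnion id) {x}) :
    8 ≤ er B Q ((Q \ X) \ F.biUnion id) := by
  classical
  obtain ⟨K, hK1, hK2, hK3⟩ := exists_comps h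
  have h4 : ∀ C ∈ K, 4 ≤ er B Q C := fun C hC =>
    comp_er4 h ih (hK1 C hC).1 (hK1 C hC).2.1 (hK1 C hC).2.2
  rw [← hK3] at h2 ⊢
  rw [er_biUnion hK2]
  have h5 : 1 < (cxs B (K.biUnion id) {x}).card := h2
  obtain ⟨j, k, hj, hk, hjk⟩ := one_lt_card_iff.1 h5
  rw [mem_cxs] at hj hk
  have hmeet : ∀ j : ι, (B j ∩ K.biUnion id).Nonempty → ∃ C ∈ K, (B j ∩ C).Nonempty := by
    rintro j ⟨y, hy⟩
    rw [mem_inter, mem_biUnion] at hy
    obtain ⟨hyj, C, hC, hyC⟩ := hy
    exact ⟨C, hC, y, mem_inter.2 ⟨hyj, hyC⟩⟩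
  obtain ⟨C, hC, hjC⟩ := hmeet j hj.1
  obtain ⟨D, hD, hkD⟩ := hmeet k hk.1
  by_cases hCD : C = D
  · subst hCD
    have hcx : 2 ≤ cx B C {x} := by
      unfold cx
      rw [← Nat.lt_iff_add_one_le, one_lt_card_iff]
      exact ⟨j, k, mem_cxs.2 ⟨hjC, hj.2⟩, mem_cxs.2 ⟨hkD, hk.2⟩, hjk⟩
    have hadj : ∃ y ∈ C, (gr B).Adj x y := by
      obtain ⟨y, hy⟩ := hjC
      rw [mem_inter] at hy
      obtain ⟨x', hx'⟩ := hj.2
      rw [mem_inter, mem_singleton] at hx'
      refine ⟨y, hy.2, ?_, j, hx'.2 ▸ hx'.1, hy.1⟩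
      rintro rfl
      exact (mem_sdiff.1 ((hK1 C hC).2.1.1 hy.2)).2 hx
    have h6 := comp_er h ih (hK1 C hC).1 (hK1 C hC).2.1 (hK1 C hC).2.2 hx hadj
    have h7 : 8 ≤ er B Q C := by
      split_ifs at h6 with hc
      · omega
      · omega
    refine h7.trans ?_
    exact single_le_sum (f := fun C => er B Q C) (fun D hD => by have := h4 D hD; omega) hC
  · have h6 : ({C, D} : Finset (Finset V)) ⊆ K := by
      intro E hE
      rw [mem_insert, mem_singleton] at hE
      rcases hE with rfl | rfl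
      · exact hC
      · exact hD
    have h7 : ∑ E ∈ ({C, D} : Finset (Finset V)), er B Q E ≤ ∑ E ∈ K, er B Q E :=
      sum_le_sum_of_subset_of_nonneg h6 (fun E hE _ => by have := h4 E hE; omega)
    rw [sum_pair hCD] at h7
    have h8 := h4 C hC
    have h9 := h4 D hD
    omega

end Pool.Agent.Hyp6
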