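import Pool.Agent.Hyp6.Cnt2
import Pool.Agent.Hyp5.SysB

/-!
# HYP6 GNum: counts at the points of the barrier
-/

set_option autoImplicit false

namespace Pool.Agent.Hyp6

open Finset Pool.Agent.Hyp5

variable {V : Type*} [DecidableEq V] {ι : Type*} [Fintype ι] {B : ι → Finset V}

theorem cx_add {Z U W : Finset V} (h : Sep B U W) : cx B Z (U ∪ W) = cx B Z U + cx B Z W := by
  classical
  unfold cx
  rw [← card_union_of_disjoint]
  · congr 1
    ext i
    rw [mem_union, mem_cxs, mem_cxs, mem_cxs, inter_union_distrib_left, union_nonempty]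
    tauto
  · rw [disjoint_left]
    intro i h1 h2
    rw [mem_cxs] at h1 h2
    exact h i h1.2 h2.2

@[simp] theorem cx_empty_right (Z : Finset V) : cx B Z ∅ = 0 := by
  unfold cx cxs
  simp

theorem cx_biUnion {Z : Finset V} {F : Finset (Finset V)} (h : SepF B F) :
    cx B Z (F.biUnion id) = ∑ C ∈ F, cx B Z C := by
  classical
  induction F using Finset.induction_on with
  | empty => simp
  | insert C F hC ih =>
    have hne : ∀ D ∈ F, C ≠ D := fun D hD he => hC (he ▸ hD)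
    rw [biUnion_insert, sum_insert hC]
    simp only [id]
    rw [cx_add (sep_biUnion fun D hD =>
      (h C (mem_insert_self _ _) D (mem_insert_of_mem hD) (hne D hD)).2)]
    rw [ih (h.mono (subset_insert _ _))]

theorem mem_cxs_singleton {x : V} {W : Finset V} {i : ι} :
    i ∈ cxs B {x} W ↔ x ∈ B i ∧ (B i ∩ W).Nonempty := by
  rw [mem_cxs]
  refine and_congr_left fun _ => ?_
  constructor
  · rintro ⟨v, hv⟩
    rw [mem_inter, mem_singleton] at hv
    exact hv.2 ▸ hv.1
  · intro h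
    exact ⟨x, mem_inter.2 ⟨h, mem_singleton_self x⟩⟩

/-- the blocks through `x` whose trace on `Q` lies in `X`. -/
def insx (B : ι → Finset V) (Q X : Finset V) (x : V) : Finset ι :=
  univ.filter (fun i => x ∈ B i ∧ B i ∩ Q ⊆ X)

theorem mem_insx {Q X : Finset V} {x : V} {i : ι} :
    i ∈ insx B Q X x ↔ x ∈ B i ∧ B i ∩ Q ⊆ X := by simp [insx]

theorem insx_sub {Q X : Finset V} {x : V} (hx : x ∈ Q) : insx B Q X x ⊆ ins B Q X := by
  intro i hi
  rw [mem_insx] at hi
  rw [mem_ins]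
  exact ⟨⟨x, mem_inter.2 ⟨hi.1, hx⟩⟩, hi.2⟩

/-- the five blocks through `x`. -/
theorem five_eq {Q X : Finset V} (hr : Reg B Q) {x : V} (hx : x ∈ Q) :
    cx B {x} (Q \ X) + (insx B Q X x).card = 5 := by
  classical
  rw [← hr x hx]
  unfold cx
  rw [← card_union_of_disjoint]
  · congr 1
    ext i
    rw [mem_union, mem_cxs_singleton, mem_insx, mem_filter]
    constructor
    · rintro (h | h)
      · exact ⟨mem_univ _, h.1⟩
      · exact ⟨mem_univ _, h.1⟩
    · rintro ⟨_, h⟩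
      by_cases h1 : B i ∩ Q ⊆ X
      · exact Or.inr ⟨h, h1⟩
      · left
        rw [not_subset] at h1
        obtain ⟨v, hv, hvX⟩ := h1
        rw [mem_inter] at hv
        exact ⟨h, v, mem_inter.2 ⟨hv.1, mem_sdiff.2 ⟨hv.2, hvX⟩⟩⟩
  · rw [disjoint_left]
    intro i h1 h2
    rw [mem_cxs_singleton] at h1
    rw [mem_insx] at h2
    obtain ⟨v, hv⟩ := h1.2
    rw [mem_inter, mem_sdiff] at hv
    exact hv.2.2 (h2.2 (mem_inter.2 ⟨hv.1, hv.2.1⟩))

/-- the five blocks through `x` in a tight system. -/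
theorem five_sys {Q X : Finset V} {F : Finset (Finset V)} (hr : Reg B Q)
    (hF : FCSys (gr B) (Q \ X) F) {x : V} (hx : x ∈ Q) :
    ∑ C ∈ F, cx B {x} C + cx B {x} ((Q \ X) \ F.biUnion id) + (insx B Q X x).card = 5 := by
  have h1 : Closed (gr B) (Q \ X) (F.biUnion id) := Closed.biUnion hF.closed
  have h2 : Q \ X = F.biUnion id ∪ ((Q \ X) \ F.biUnion id) := (union_sdiff_of_subset h1.1).symm
  have h3 : Sep B (F.biUnion id) ((Q \ X) \ F.biUnion id) :=
    sep_of_closed h1 sdiff_subset disjoint_sdiff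
  rw [← five_eq (X := X) hr hx]
  congr 1
  conv_rhs => rw [h2]
  rw [cx_add h3, cx_biUnion (sepF_of_fcSys hF)]

/-- the blocks of a point `x` of `X`: those inside `X`, and those to the members and to the rest. -/
theorem point_sys {Q X : Finset V} {F : Finset (Finset V)} (hr : Reg B Q) (hX : X ⊆ Q)
    (hF : FCSys (gr B) (Q \ X) F) {x : V} (hx : x ∈ X) :
    (univ.filter (fun j => x ∈ B j ∧ B j ∩ Q ⊆ X)).card + (∑ C ∈ F, cx B C {x})
      + cx B ((Q \ X) \ F.biUnion id) {x} = 5 := by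
  have h1 := five_sys hr hF (hX hx)
  rw [cx_comm {x} ((Q \ X) \ F.biUnion id)] at h1
  have h2 : ∑ C ∈ F, cx B C {x} = ∑ C ∈ F, cx B {x} C := sum_congr rfl fun C _ => cx_comm C {x}
  rw [h2]
  unfold insx at h1
  omega

theorem cx_union_left {J J' M : Finset V} (h : ∀ i, (B i ∩ J).Nonempty → (B i ∩ J').Nonempty →
    ¬ (B i ∩ M).Nonempty) : cx B (J ∪ J') M = cx B J M + cx B J' M := by
  classical
  unfold cx
  rw [← card_union_of_disjoint]
  · congr 1
    ext i
    rw [mem_union, mem_cxs, mem_cxs, mem_cxs, inter_union_distrib_left, union_nonempty]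
    tauto
  · rw [disjoint_left]
    intro i h1 h2
    rw [mem_cxs] at h1 h2
    exact h i h1.1 h2.1 h2.2

theorem cx_pair {p q : V} {M : Finset V} (h : ∀ i, p ∈ B i → q ∈ B i → ¬ (B i ∩ M).Nonempty) :
    cx B {p, q} M = cx B {p} M + cx B {q} M := by
  have h1 : ({p, q} : Finset V) = {p} ∪ {q} := by
    ext z
    simp
  rw [h1]
  refine cx_union_left fun i h2 h3 => h i ?_ ?_
  · obtain ⟨v, hv⟩ := h2
    rw [mem_inter, mem_singleton] at hv
    exact hv.2 ▸ hv.1
  · obtain ⟨v, hv⟩ := h3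
    rw [mem_inter, mem_singleton] at hv
    exact hv.2 ▸ hv.1

/-- a point adjacent to `M` has a block meeting `M`. -/
theorem cx_pos_adj {x : V} {M : Finset V} (h : ∃ y ∈ M, (gr B).Adj x y) :
    1 ≤ cx B {x} M := by
  obtain ⟨y, hy, _, i, hxi, hyi⟩ := h
  unfold cx
  rw [Nat.one_le_iff_ne_zero, ← Nat.pos_iff_ne_zero, card_pos]
  exact ⟨i, mem_cxs_singleton.2 ⟨hxi, y, mem_inter.2 ⟨hyi, hy⟩⟩⟩

/-- a point outside `M` with a block meeting `M` is adjacent to `M`. -/
theorem adj_of_cx_pos {x : V} {M : Finset V} (hx : x ∉ M) (h : 1 ≤ cx B {x} M) :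
    ∃ y ∈ M, (gr B).Adj x y := by
  unfold cx at h
  rw [Nat.one_le_iff_ne_zero, ← Nat.pos_iff_ne_zero, card_pos] at h
  obtain ⟨i, hi⟩ := h
  obtain ⟨hxi, y, hy⟩ := mem_cxs_singleton.1 hi
  rw [mem_inter] at hy
  exact ⟨y, hy.2, fun h => hx (h ▸ hy.2), i, hxi, hy.1⟩

omit [Fintype ι] in
/-- a pair of points of the barrier is allowed for the member `M` if the complement in the barrier
satisfies the condition of Hall with respect to the other members. -/
theorem pm_allowed {Q X : Finset V} {F : Finset (Finset V)} (hQ : FC (gr B) Q)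
    (ht : Tight (gr B) Q X F) {M : Finset V} (hM : M ∈ F) {p q : V} (hp : p ∈ X) (hq : q ∈ X)
    (hpq : p ≠ q)
    (hall : ∀ T ⊆ F.erase M, T.card ≤ (nbr (gr B) (X \ {p, q}) T).card) :
    PM (gr B) (Q \ (insert p (insert q M))) := by
  classical
  have hrest := ht.rest_pm hQ
  have hcl := ht.sys.closed
  have hXQ := ht.sub
  have h1 := pm_of_hall (G := gr B) (Y := X \ {p, q}) (D := F.erase M)
    (fun C hC => ht.sys.fc C (mem_of_mem_erase hC))
    (fun C hC C' hC' => ht.sys.disj C (mem_of_mem_erase hC) C' (mem_of_mem_erase hC'))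
    (fun C hC => by
      rw [disjoint_left]
      intro v hv hv2
      exact (mem_sdiff.1 ((hcl C (mem_of_mem_erase hC)).1 hv)).2 (mem_sdiff.1 hv2).1)
    (by
      have h2 : ({p, q} : Finset V) ⊆ X := by
        intro z hz
        rcases mem_insert.1 hz with rfl | hz
        · exact hp
        · exact (mem_singleton.1 hz) ▸ hq
      rw [card_erase_of_mem hM, card_sdiff_of_subset h2, card_pair hpq]
      have := ht.card
      omega) hall
  have h3 : Q \ (insert p (insert q M)) =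
      (X \ {p, q} ∪ (F.erase M).biUnion id) ∪ ((Q \ X) \ F.biUnion id) := by
    ext z
    simp only [mem_sdiff, mem_insert, mem_union, mem_biUnion, id, mem_erase, mem_singleton, not_or,
      not_exists, not_and]
    constructor
    · rintro ⟨hzQ, hzp, hzq, hzM⟩
      by_cases hzX : z ∈ X
      · exact Or.inl (Or.inl ⟨hzX, hzp, hzq⟩)
      · by_cases hzF : ∃ C ∈ F, z ∈ C
        · obtain ⟨C, hC, hzC⟩ := hzF
          exact Or.inl (Or.inr ⟨C, ⟨fun h => hzM (h ▸ hzC), hC⟩, hzC⟩)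
        · right
          refine ⟨⟨hzQ, hzX⟩, fun C hC hzC => hzF ⟨C, hC, hzC⟩⟩
    · rintro ((⟨hzX, hzp, hzq⟩ | ⟨C, ⟨hCM, hC⟩, hzC⟩) | ⟨⟨hzQ, hzX⟩, hzF⟩)
      · refine ⟨hXQ hzX, hzp, hzq, fun hzM => ?_⟩
        exact (mem_sdiff.1 ((hcl M hM).1 hzM)).2 hzX
      · have h4 := mem_sdiff.1 ((hcl C hC).1 hzC)
        refine ⟨h4.1, fun h => h4.2 (h ▸ hp), fun h => h4.2 (h ▸ hq), fun hzM => ?_⟩
        exact (disjoint_left.1 (ht.sys.disj C hC M hM hCM)) hzC hzM
      · exact ⟨hzQ, fun h => hzX (h ▸ hp), fun h => hzX (h ▸ hq), fun hzM => hzF M hM hzM⟩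
  rw [h3]
  refine h1.union hrest ?_
  rw [disjoint_left]
  intro z hz hz2
  rw [mem_sdiff, mem_sdiff] at hz2
  rcases mem_union.1 hz with hz | hz
  · exact hz2.1.2 (mem_sdiff.1 hz).1
  · rw [mem_biUnion] at hz
    obtain ⟨C, hC, hzC⟩ := hz
    exact hz2.2 (mem_biUnion.2 ⟨C, mem_of_mem_erase hC, hzC⟩)

end Pool.Agent.Hyp6
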