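import Pool.Agent.Hyp6.GB
import Pool.Agent.Hyp6.GNum

/-! # HYP6 GC: the count (owner helper3) -/

set_option autoImplicit false

namespace Pool.Agent.Hyp6

open Finset Pool.Agent.Hyp5

universe u v

variable {V : Type v} [DecidableEq V] {ι : Type u} [Fintype ι] {B : ι → Finset V}

/-- the points with two single blocks are counted by the parts of a separated family. -/
theorem ee_biUnion {Q : Finset V} {F : Finset (Finset V)} (h : SepF B F) :
    ee B Q (F.biUnion id) = ∑ C ∈ F, ee B Q C := by
  classical
  induction F using Finset.induction_on with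
  | empty => simp
  | insert C F hC ih =>
    have hne : ∀ D ∈ F, C ≠ D := fun D hD he => hC (he ▸ hD)
    rw [biUnion_insert, sum_insert hC]
    simp only [id]
    rw [ee_union, ih (h.mono (subset_insert _ _))]
    rw [disjoint_biUnion_right]
    exact fun D hD => (h C (mem_insert_self _ _) D (mem_insert_of_mem hD) (hne D hD)).1

/-- the exact count of a tight system. -/
theorem count_cfg {Q X : Finset V} {F : Finset (Finset V)} {i : ι} (h : Cfg B Q X F i) :
    4 * (X.card : ℤ) - 22 + 4 * (nX B Q X : ℤ) - 2 * (ee B Q X : ℤ) + (∑ C ∈ F, et B Q C)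
      + er B Q ((Q \ X) \ F.biUnion id) ≤ et B Q Q := by
  have hF := h.tight.sys
  have hX := h.tight.sub
  have hc : (F.card : ℤ) + 1 = X.card := by exact_mod_cast h.tight.card
  have h1 : Closed (gr B) (Q \ X) (F.biUnion id) := Closed.biUnion hF.closed
  have hG := G_sys hX hF
  have he : ee B Q Q = ee B Q X + (∑ C ∈ F, ee B Q C) + ee B Q ((Q \ X) \ F.biUnion id) := by
    rw [← ee_biUnion (sepF_of_fcSys hF), add_assoc, ← ee_union disjoint_sdiff,
      union_sdiff_of_subset h1.1, ← ee_union disjoint_sdiff, union_sdiff_of_subset hX]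
  have hs : ∑ C ∈ F, et B Q C = ∑ C ∈ F, G B C - 11 * (F.card : ℤ) -
      2 * ((∑ C ∈ F, ee B Q C : ℕ) : ℤ) := by
    unfold et
    rw [sum_sub_distrib, sum_sub_distrib, sum_const, nsmul_eq_mul, ← mul_sum]
    push_cast
    ring
  rw [hs]
  unfold er
  have hQ : et B Q Q = G B Q - 11 - 2 * (ee B Q Q : ℤ) := rfl
  rw [hQ, he, hG]
  unfold nX
  push_cast
  linarith

/-- the inner triple and the single blocks are blocks inside `X`. -/
theorem nX_ge {Q X : Finset V} {F : Finset (Finset V)} {i : ι} (h : Cfg B Q X F i) :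
    1 + 2 * ee B Q X ≤ nX B Q X := by
  classical
  unfold nX ee
  set P := X.filter (fun t => 2 ≤ (univ.filter (fun j => B j ∩ Q = {t})).card) with hP
  have hBQ : B i ∩ Q = B i := inter_eq_left.2 h.inner.1
  have hdis : ∀ t ∈ P, ∀ t' ∈ P, t ≠ t' → Disjoint (univ.filter (fun j => B j ∩ Q = {t}))
      (univ.filter (fun j => B j ∩ Q = {t'})) := by
    intro t _ t' _ hne
    rw [disjoint_left]
    intro j h1 h2
    rw [mem_filter] at h1 h2
    exact hne (singleton_injective (h1.2.symm.trans h2.2))
  have hi : i ∉ P.biUnion (fun t => univ.filter (fun j => B j ∩ Q = {t})) := by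
    rw [mem_biUnion]
    rintro ⟨t, _, ht⟩
    rw [mem_filter, hBQ] at ht
    have h1 := h.inner.2
    rw [ht.2, card_singleton] at h1
    omega
  have hsub : insert i (P.biUnion (fun t => univ.filter (fun j => B j ∩ Q = {t}))) ⊆
      ins B Q X := by
    intro j hj
    rw [mem_ins]
    rcases mem_insert.1 hj with rfl | hj
    · rw [hBQ]
      refine ⟨?_, h.sub⟩
      rw [← card_pos, h.inner.2]
      norm_num
    · rw [mem_biUnion] at hj
      obtain ⟨t, ht, htj⟩ := hj
      rw [mem_filter] at htj
      rw [htj.2]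
      refine ⟨singleton_nonempty t, singleton_subset_iff.2 ?_⟩
      rw [hP, mem_filter] at ht
      exact ht.1
  have hcard := card_le_card hsub
  rw [card_insert_of_notMem hi, card_biUnion hdis] at hcard
  have h2 : 2 * P.card ≤ ∑ t ∈ P, (univ.filter (fun j => B j ∩ Q = {t})).card := by
    rw [mul_comm, ← smul_eq_mul]
    refine card_nsmul_le_sum _ _ _ fun t ht => ?_
    rw [hP, mem_filter] at ht
    exact ht.2
  omega

/-- the blocks of a point `x` of `X`: those inside `X`, and those to the members and to the rest. -/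
theorem point_count {Q X : Finset V} {F : Finset (Finset V)} {i : ι} (h : Cfg B Q X F i) {x : V}
    (hx : x ∈ X) :
    (univ.filter (fun j => x ∈ B j ∧ B j ∩ Q ⊆ X)).card + (∑ C ∈ F, cx B C {x})
      + cx B ((Q \ X) \ F.biUnion id) {x} = 5 :=
  point_sys h.reg h.tight.sub h.tight.sys hx

/-- the points with two single blocks are at most half of the single blocks. -/
theorem ee_le_nt (Q : Finset V) : 2 * ee B Q Q ≤ nt B Q 1 := by
  classical
  unfold ee nt
  set P := Q.filter (fun t => 2 ≤ (univ.filter (fun j => B j ∩ Q = {t})).card) with hP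
  have hdis : ∀ t ∈ P, ∀ t' ∈ P, t ≠ t' → Disjoint (univ.filter (fun j => B j ∩ Q = {t}))
      (univ.filter (fun j => B j ∩ Q = {t'})) := by
    intro t _ t' _ hne
    rw [disjoint_left]
    intro j h1 h2
    rw [mem_filter] at h1 h2
    exact hne (singleton_injective (h1.2.symm.trans h2.2))
  have hsub : P.biUnion (fun t => univ.filter (fun j => B j ∩ Q = {t})) ⊆ trs B Q 1 := by
    intro j hj
    rw [mem_biUnion] at hj
    obtain ⟨t, _, htj⟩ := hj
    rw [mem_filter] at htj
    rw [mem_trs, htj.2, card_singleton]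
  have hcard := card_le_card hsub
  rw [card_biUnion hdis] at hcard
  have h2 : 2 * P.card ≤ ∑ t ∈ P, (univ.filter (fun j => B j ∩ Q = {t})).card := by
    rw [mul_comm, ← smul_eq_mul]
    refine card_nsmul_le_sum _ _ _ fun t ht => ?_
    rw [hP, mem_filter] at ht
    exact ht.2
  omega

/-- growth if there is no inner triple. -/
theorem no_inner {Q : Finset V} (hs : Small B) (hr : Reg B Q) (hfc : FC (gr B) Q)
    (hb : Bad B Q) (hno : ∀ i, ¬ Inner B Q i) : GM B Q := by
  have hodd : Odd Q.card := hfc.odd
  have h2 : ∀ j, (B j ∩ Q).card ≤ 2 := by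
    intro j
    by_contra hcon
    have h3 : (B j).card ≤ 3 := hs j
    have h4 : (B j ∩ Q).card ≤ (B j).card := card_le_card inter_subset_left
    have h5 : (B j ∩ Q).card = (B j).card := by omega
    have h6 : B j ∩ Q = B j := eq_of_subset_of_card_le inter_subset_left h5.ge
    exact hno j ⟨inter_eq_left.1 h6, by omega⟩
  have h3 : ∀ j, (B j ∩ Q).card ≤ 3 := fun j => (h2 j).trans (by norm_num)
  have h0 : nt B Q 3 = 0 := by
    unfold nt
    rw [card_eq_zero]
    ext j
    rw [mem_trs]
    have := h2 j
    simp only [notMem_empty, iff_false]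
    omega
  have hG := G_eq2 hr h2
  have hinc := inc_eq3 hr h3
  rw [h0] at hinc
  have he := ee_le_nt (B := B) Q
  have he2 : ee B Q Q ≤ Q.card := card_filter_le _ _
  obtain ⟨k, hk⟩ := hodd
  have h20 : k = 0 → nt B Q 2 = 0 := by
    intro hk0
    unfold nt
    rw [card_eq_zero]
    ext j
    rw [mem_trs]
    have : (B j ∩ Q).card ≤ Q.card := card_le_card inter_subset_right
    simp only [notMem_empty, iff_false]
    omega
  unfold GM et
  rw [hG, hk]
  rw [hk] at hinc he2
  push_cast
  by_cases hk0 : k = 0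
  · have h21 := h20 hk0
    rw [h21] at hinc
    subst hk0
    omega
  · omega

end Pool.Agent.Hyp6
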