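import Pool.Agent.Hyp6.GA
import Pool.Agent.Hyp6.GB
import Pool.Agent.Hyp6.GC
import Pool.Agent.Hyp6.GNum

/-! # HYP6 GD: the cases `|X| = 3` and `|X| = 4` (owner helper13) -/

set_option autoImplicit false

namespace Pool.Agent.Hyp6

open Finset Pool.Agent.Hyp5

universe u v

variable {V : Type v} [DecidableEq V] {ι : Type u} [Fintype ι] {B : ι → Finset V}

theorem Cfg.X_sub {Q X : Finset V} {F : Finset (Finset V)} {i : ι} (h : Cfg B Q X F i) : X ⊆ Q :=
  h.tight.sub

theorem Cfg.mem_sub {Q X : Finset V} {F : Finset (Finset V)} {i : ι} (h : Cfg B Q X F i)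
    {C : Finset V} (hC : C ∈ F) : C ⊆ Q :=
  ((h.tight.sys.closed C hC).1).trans sdiff_subset

theorem Cfg.notMem {Q X : Finset V} {F : Finset (Finset V)} {i : ι} (h : Cfg B Q X F i)
    {C : Finset V} (hC : C ∈ F) {x : V} (hx : x ∈ X) : x ∉ C := fun hxC =>
  (mem_sdiff.1 ((h.tight.sys.closed C hC).1 hxC)).2 hx

theorem Cfg.X_nonempty {Q X : Finset V} {F : Finset (Finset V)} {i : ι} (h : Cfg B Q X F i) :
    X.Nonempty := by
  rw [← card_pos, ← h.tight.card]
  exact Nat.succ_pos _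

theorem Cfg.hall {Q X : Finset V} {F : Finset (Finset V)} {i : ι} (h : Cfg B Q X F i)
    {T : Finset (Finset V)} (hT : T ⊆ F) (hne : T.Nonempty) :
    T.card + 1 ≤ (nbr (gr B) X T).card :=
  h.fc.hall h.X_sub h.X_nonempty h.tight.sys.oddSys hT hne

theorem mem_nbr_iff {Q X : Finset V} {F : Finset (Finset V)} {i : ι} (h : Cfg B Q X F i)
    {Y : Finset V} (hY : Y ⊆ X) {T : Finset (Finset V)} (hT : T ⊆ F) {x : V} :
    x ∈ nbr (gr B) Y T ↔ x ∈ Y ∧ ∃ C ∈ T, 1 ≤ cx B C {x} := by
  rw [sysB_mem_nbr]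
  refine and_congr_right fun hx => ?_
  constructor
  · rintro ⟨C, hC, hy⟩
    refine ⟨C, hC, ?_⟩
    rw [cx_comm]
    exact cx_pos_adj hy
  · rintro ⟨C, hC, hy⟩
    refine ⟨C, hC, ?_⟩
    rw [cx_comm] at hy
    exact adj_of_cx_pos (h.notMem (hT hC) (hY hx)) hy

/-- a member lies far enough from `Q`. -/
theorem mem_card_lt {Q X : Finset V} {F : Finset (Finset V)} {i : ι} (h : Cfg B Q X F i)
    {M : Finset V} (hM : M ∈ F) : M.card + 2 < Q.card := by
  have h1 : Disjoint M X := by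
    rw [disjoint_left]
    intro v hv hvX
    exact h.notMem hM hvX hv
  have h2 : M ∪ X ⊆ Q := union_subset (h.mem_sub hM) h.X_sub
  have h3 := card_le_card h2
  rw [card_union_of_disjoint h1] at h3
  have h4 := card_le_card h.sub
  have h5 := h.inner.2
  omega

/-- the closing lemma for a member of a tight system: `J1 x J2` consists of pairs whose complement in
`X` can be matched into the other members. -/
theorem closing_cfg {Q X M J1 J2 : Finset V} {F : Finset (Finset V)} {i : ι} (h : Cfg B Q X F i)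
    (ih : IHG.{u} V Q.card) (hM : M ∈ F) (h1 : J1 ⊆ X) (h2 : J2 ⊆ X) (hd : Disjoint J1 J2)
    (hal : ∀ p ∈ J1, ∀ q ∈ J2, ∀ T ⊆ F.erase M,
      T.card ≤ (nbr (gr B) ((X.erase p).erase q) T).card)
    {e1 e2 : ℕ} (he1 : 1 ≤ e1) (he2 : 1 ≤ e2) (h41 : e1 ≤ 4) (h42 : e2 ≤ 4)
    (hE1 : e1 ≤ cx B M J1) (hE2 : e2 ≤ cx B M J2) :
    4 * (min e1 e2 : ℕ) - 6 + (if min e1 e2 + 2 ≤ max e1 e2 then 2 else 0) ≤ et B Q M := by
  have hXM : ∀ J : Finset V, J ⊆ X → J ⊆ Q \ M := fun J hJ v hv =>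
    mem_sdiff.2 ⟨h.X_sub (hJ hv), h.notMem hM (hJ hv)⟩
  refine closing h.small h.reg (h.tight.sys.fc M hM) (h.mem M hM) h.bad (h.mem_sub hM) (hXM _ h1)
    (hXM _ h2) hd ?_ ih (mem_card_lt h hM) he1 he2 h41 h42 hE1 hE2
  intro p hp q hq
  refine pm_allowed h.fc h.tight hM (h1 hp) (h2 hq)
    (fun he => (disjoint_left.1 hd) hp (he ▸ hq)) ?_
  intro T hT
  have h3 : X \ {p, q} = (X.erase p).erase q := by
    ext z
    simp only [mem_sdiff, mem_insert, mem_singleton, mem_erase, not_or]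
    tauto
  rw [h3]
  exact hal p hp q hq T hT

/-- no block joins an allowed pair and the member. -/
theorem no_cross_cfg {Q X M : Finset V} {F : Finset (Finset V)} {i : ι} (h : Cfg B Q X F i)
    (hM : M ∈ F) {p q : V} (hp : p ∈ X) (hq : q ∈ X) (hpq : p ≠ q)
    (hal : ∀ T ⊆ F.erase M, T.card ≤ (nbr (gr B) ((X.erase p).erase q) T).card) :
    cx B M {p, q} = cx B M {p} + cx B M {q} := by
  rw [cx_comm M {p, q}, cx_comm M {p}, cx_comm M {q}]
  refine cx_pair fun j hpj hqj => ?_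
  refine no_cross h.small (h.tight.sys.fc M hM) h.bad (h.mem_sub hM)
    (mem_sdiff.2 ⟨h.X_sub hp, h.notMem hM hp⟩) (mem_sdiff.2 ⟨h.X_sub hq, h.notMem hM hq⟩) hpq
    ?_ j hpj hqj
  refine pm_allowed h.fc h.tight hM hp hq hpq ?_
  intro T hT
  have h3 : X \ {p, q} = (X.erase p).erase q := by
    ext z
    simp only [mem_sdiff, mem_insert, mem_singleton, mem_erase, not_or]
    tauto
  rw [h3]
  exact hal T hT

/-- the excess of a member is nonnegative. -/
theorem et_nonneg {Q X M : Finset V} {F : Finset (Finset V)} {i : ι} (h : Cfg B Q X F i)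
    (ih : IHG.{u} V Q.card) (hM : M ∈ F) : 0 ≤ et B Q M := by
  have h1 := mem_card_lt h hM
  have h2 : GM B M := ih ι B M (by omega) h.small (h.reg.mono (h.mem_sub hM))
    (h.tight.sys.fc M hM) (h.mem M hM)
  have h3 : ee B Q M ≤ ee B M M := by
    unfold ee
    refine card_le_card fun t ht => ?_
    rw [mem_filter] at ht ⊢
    refine ⟨ht.1, ht.2.trans (card_le_card fun j hj => ?_)⟩
    rw [mem_filter] at hj ⊢
    refine ⟨hj.1, ?_⟩
    ext z
    rw [mem_inter, mem_singleton]
    constructor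
    · rintro ⟨hz1, hz2⟩
      have : z ∈ B j ∩ Q := mem_inter.2 ⟨hz1, h.mem_sub hM hz2⟩
      rw [hj.2, mem_singleton] at this
      exact this
    · rintro rfl
      have : z ∈ B j ∩ Q := by
        rw [hj.2]
        exact mem_singleton_self _
      exact ⟨(mem_inter.1 this).1, ht.1⟩
  unfold GM at h2
  unfold et at h2 ⊢
  have h4 : (ee B Q M : ℤ) ≤ ee B M M := by exact_mod_cast h3
  linarith

/-- the excess of the rest. -/
theorem er_zero {Q : Finset V} : er B Q ∅ = 0 := by
  unfold er ee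
  simp

section three

variable {Q X L M : Finset V} {F : Finset (Finset V)} {i : ι}

theorem alw3 (h : Cfg B Q X F i) (hLM : L ≠ M) (hF : F = {L, M}) {x y z : V}
    (hX : X = {x, y, z}) (hxy : x ≠ y) (hxz : x ≠ z) (hx : 1 ≤ cx B L {x}) :
    ∀ T ⊆ F.erase M, T.card ≤ (nbr (gr B) ((X.erase y).erase z) T).card := by
  intro T hT
  have h1 : F.erase M = {L} := by
    rw [hF]
    ext C
    simp only [mem_erase, mem_insert, mem_singleton]
    constructor
    · rintro ⟨h1, h2 | h2⟩
      · exact h2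
      · exact absurd h2 h1
    · rintro rfl
      exact ⟨hLM, Or.inl rfl⟩
  rw [h1, subset_singleton_iff] at hT
  rcases hT with rfl | rfl
  · simp
  · rw [card_singleton, Nat.one_le_iff_ne_zero, ← Nat.pos_iff_ne_zero, card_pos]
    have hxX : x ∈ X := by
      rw [hX]
      exact mem_insert_self _ _
    refine ⟨x, (mem_nbr_iff h ((erase_subset _ _).trans (erase_subset _ _))
      (by rw [hF]; simp)).2 ⟨?_, L, mem_singleton_self L, hx⟩⟩
    rw [mem_erase, mem_erase]
    exact ⟨hxz, hxy, hxX⟩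

/-- the closing lemma for one point against two points. -/
theorem c12 (h : Cfg B Q X F i) (ih : IHG.{u} V Q.card) (hLM : L ≠ M) (hF : F = {L, M})
    {x y z : V} (hX : X = {x, y, z}) (hxy : x ≠ y) (hxz : x ≠ z) (hyz : y ≠ z)
    (hy : 1 ≤ cx B L {y}) (hz : 1 ≤ cx B L {z}) {e1 e2 : ℕ} (he1 : 1 ≤ e1) (he2 : 1 ≤ e2)
    (h41 : e1 ≤ 4) (h42 : e2 ≤ 4) (hE1 : e1 ≤ cx B M {x}) (hE2 : e2 ≤ cx B M {y, z}) :
    4 * (min e1 e2 : ℕ) - 6 + (if min e1 e2 + 2 ≤ max e1 e2 then 2 else 0) ≤ et B Q M := by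
  refine closing_cfg h ih (by rw [hF]; simp) ?_ ?_ ?_ ?_ he1 he2 h41 h42 hE1 hE2
  · rw [hX]
    simp
  · rw [hX]
    exact subset_insert _ _
  · rw [disjoint_left]
    intro v hv hv2
    rw [mem_singleton] at hv
    rw [hv, mem_insert, mem_singleton] at hv2
    rcases hv2 with h1 | h1
    · exact hxy h1
    · exact hxz h1
  · intro p hp q hq
    rw [mem_singleton] at hp
    rw [mem_insert, mem_singleton] at hq
    subst hp
    rcases hq with rfl | rfl
    · refine alw3 h hLM hF (x := z) (y := p) (z := q) ?_ hxz.symm hyz.symm hz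
      rw [hX]
      ext w
      simp only [mem_insert, mem_singleton]
      tauto
    · refine alw3 h hLM hF (x := y) (y := p) (z := q) ?_ hxy.symm hyz hy
      rw [hX]
      ext w
      simp only [mem_insert, mem_singleton]
      tauto

/-- the closing lemma for one point against one point. -/
theorem c11 (h : Cfg B Q X F i) (ih : IHG.{u} V Q.card) (hLM : L ≠ M) (hF : F = {L, M})
    {x y z : V} (hX : X = {x, y, z}) (hxy : x ≠ y) (hxz : x ≠ z) (hyz : y ≠ z)
    (hx : 1 ≤ cx B L {x}) {e1 e2 : ℕ} (he1 : 1 ≤ e1) (he2 : 1 ≤ e2)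
    (h41 : e1 ≤ 4) (h42 : e2 ≤ 4) (hE1 : e1 ≤ cx B M {y}) (hE2 : e2 ≤ cx B M {z}) :
    4 * (min e1 e2 : ℕ) - 6 + (if min e1 e2 + 2 ≤ max e1 e2 then 2 else 0) ≤ et B Q M := by
  refine closing_cfg h ih (by rw [hF]; simp) ?_ ?_ ?_ ?_ he1 he2 h41 h42 hE1 hE2
  · rw [hX]
    simp
  · rw [hX]
    simp
  · rw [disjoint_left]
    intro v hv hv2
    rw [mem_singleton] at hv hv2
    exact hyz (hv ▸ hv2)
  · intro p hp q hq
    rw [mem_singleton] at hp hq
    rw [hp, hq]
    exact alw3 h hLM hF hX hxy hxz hx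

/-- the numbers at the pair `y, z`. -/
theorem p2 (h : Cfg B Q X F i) (hLM : L ≠ M) (hF : F = {L, M})
    {x y z : V} (hX : X = {x, y, z}) (hxy : x ≠ y) (hxz : x ≠ z) (hyz : y ≠ z)
    (hx : 1 ≤ cx B L {x}) : cx B M {y, z} = cx B M {y} + cx B M {z} := by
  refine no_cross_cfg h (by rw [hF]; simp) ?_ ?_ hyz (alw3 h hLM hF hX hxy hxz hx)
  · rw [hX]
    simp
  · rw [hX]
    simp

theorem num33 {t : ℤ} (h : 4 * ((min 3 3 : ℕ) : ℤ) - 6 + (if min 3 3 + 2 ≤ max 3 3 then 2 else 0) ≤ t) :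
    6 ≤ t := by
  norm_num at h
  exact h

theorem num22 {t : ℤ} (h : 4 * ((min 2 2 : ℕ) : ℤ) - 6 + (if min 2 2 + 2 ≤ max 2 2 then 2 else 0) ≤ t) :
    2 ≤ t := by
  norm_num at h
  exact h

theorem num24 {t : ℤ} (h : 4 * ((min 2 4 : ℕ) : ℤ) - 6 + (if min 2 4 + 2 ≤ max 2 4 then 2 else 0) ≤ t) :
    4 ≤ t := by
  norm_num at h
  exact h

theorem num42 {t : ℤ} (h : 4 * ((min 4 2 : ℕ) : ℤ) - 6 + (if min 4 2 + 2 ≤ max 4 2 then 2 else 0) ≤ t) :
    4 ≤ t := by
  norm_num at h
  exact h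

/-- a point with three blocks to `M`. -/
theorem three3 (h : Cfg B Q X F i) (ih : IHG.{u} V Q.card) (hLM : L ≠ M) (hF : F = {L, M})
    {x y z : V} (hX : X = {x, y, z}) (hxy : x ≠ y) (hxz : x ≠ z) (hyz : y ≠ z)
    (hlx : 1 ≤ cx B L {x}) (hly : 1 ≤ cx B L {y}) (hlz : 1 ≤ cx B L {z})
    (hmx : 3 ≤ cx B M {x}) (hmy : 1 ≤ cx B M {y}) (hmz : 1 ≤ cx B M {z})
    (hy : cx B L {y} + cx B M {y} = 4) (hz : cx B L {z} + cx B M {z} = 4) :
    6 ≤ et B Q L + et B Q M := by
  have hF' : F = {M, L} := by rw [hF, pair_comm]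
  have hL : 0 ≤ et B Q L := et_nonneg h ih (by rw [hF]; simp)
  have hM : 0 ≤ et B Q M := et_nonneg h ih (by rw [hF]; simp)
  have h2 := p2 h hLM hF hX hxy hxz hyz hlx
  by_cases h3 : 3 ≤ cx B M {y} + cx B M {z}
  · have h4 := num33 (c12 h ih hLM hF hX hxy hxz hyz hly hlz (e1 := 3) (e2 := 3) (by norm_num)
      (by norm_num) (by norm_num) (by norm_num) hmx (by omega))
    linarith
  · have h4 := num33 (c11 h ih hLM.symm hF' hX hxy hxz hyz (by omega) (e1 := 3) (e2 := 3)
      (by norm_num) (by norm_num) (by norm_num) (by norm_num) (by omega) (by omega))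
    linarith

/-- a point with two blocks to `M`. -/
theorem two2 (h : Cfg B Q X F i) (ih : IHG.{u} V Q.card) (hLM : L ≠ M) (hF : F = {L, M})
    {x y z : V} (hX : X = {x, y, z}) (hxy : x ≠ y) (hxz : x ≠ z) (hyz : y ≠ z)
    (hlx : 1 ≤ cx B L {x}) (hly : 1 ≤ cx B L {y}) (hlz : 1 ≤ cx B L {z})
    (hmx : 2 ≤ cx B M {x}) (hmy : 1 ≤ cx B M {y}) (hmz : 1 ≤ cx B M {z}) :
    2 ≤ et B Q M := by
  have h2 := p2 h hLM hF hX hxy hxz hyz hlx
  exact num22 (c12 h ih hLM hF hX hxy hxz hyz hly hlz (e1 := 2) (e2 := 2) (by norm_num)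
      (by norm_num) (by norm_num) (by norm_num) hmx (by omega))

/-- all numbers equal to two. -/
theorem all2 (h : Cfg B Q X F i) (ih : IHG.{u} V Q.card) (hLM : L ≠ M) (hF : F = {L, M})
    {x y z : V} (hX : X = {x, y, z}) (hxy : x ≠ y) (hxz : x ≠ z) (hyz : y ≠ z)
    (hlx : 1 ≤ cx B L {x}) (hly : 1 ≤ cx B L {y}) (hlz : 1 ≤ cx B L {z})
    (hmx : 2 ≤ cx B M {x}) (hmy : 2 ≤ cx B M {y}) (hmz : 2 ≤ cx B M {z}) :
    4 ≤ et B Q M := by
  have h2 := p2 h hLM hF hX hxy hxz hyz hlx
  exact num24 (c12 h ih hLM hF hX hxy hxz hyz hly hlz (e1 := 2) (e2 := 4) (by norm_num)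
      (by norm_num) (by norm_num) (by norm_num) hmx (by omega))

theorem cx_le_pair_left (M : Finset V) (y z : V) : cx B M {y} ≤ cx B M {y, z} :=
  cx_mono subset_rfl (by simp)

theorem cx_le_pair_right (M : Finset V) (y z : V) : cx B M {z} ≤ cx B M {y, z} :=
  cx_mono subset_rfl (by simp)

/-- `x` has no block to `L`: the large excess. -/
theorem zero6 (h : Cfg B Q X F i) (ih : IHG.{u} V Q.card) (hLM : L ≠ M) (hF : F = {L, M})
    {x y z : V} (hX : X = {x, y, z}) (hxy : x ≠ y) (hxz : x ≠ z) (hyz : y ≠ z)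
    (hly : 1 ≤ cx B L {y}) (hlz : 1 ≤ cx B L {z})
    (hmx : 4 ≤ cx B M {x})
    (hy : cx B L {y} + cx B M {y} = 4) (hz : cx B L {z} + cx B M {z} = 4) :
    6 ≤ et B Q L + et B Q M := by
  have hF' : F = {M, L} := by rw [hF, pair_comm]
  have hL : 0 ≤ et B Q L := et_nonneg h ih (by rw [hF]; simp)
  have hM : 0 ≤ et B Q M := et_nonneg h ih (by rw [hF]; simp)
  have h1 := cx_le_pair_left (B := B) M y z
  have h2 := cx_le_pair_right (B := B) M y z
  by_cases h3 : 3 ≤ cx B M {y, z}
  · have h4 := num33 (c12 h ih hLM hF hX hxy hxz hyz hly hlz (e1 := 3) (e2 := 3) (by norm_num)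
      (by norm_num) (by norm_num) (by norm_num) (by omega) h3)
    linarith
  · by_cases h5 : 2 ≤ cx B M {y, z}
    · have h4 := num42 (c12 h ih hLM hF hX hxy hxz hyz hly hlz (e1 := 4) (e2 := 2) (by norm_num)
        (by norm_num) (by norm_num) (by norm_num) hmx h5)
      have h6 := num22 (c11 h ih hLM.symm hF' hX hxy hxz hyz (by omega) (e1 := 2) (e2 := 2)
        (by norm_num) (by norm_num) (by norm_num) (by norm_num) (by omega) (by omega))
      linarith
    · have h6 := num33 (c11 h ih hLM.symm hF' hX hxy hxz hyz (by omega) (e1 := 3) (e2 := 3)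
        (by norm_num) (by norm_num) (by norm_num) (by norm_num) (by omega) (by omega))
      linarith

/-- `x` has no block to `L`: the small excess. -/
theorem zero2 (h : Cfg B Q X F i) (ih : IHG.{u} V Q.card) (hLM : L ≠ M) (hF : F = {L, M})
    {x y z : V} (hX : X = {x, y, z}) (hxy : x ≠ y) (hxz : x ≠ z) (hyz : y ≠ z)
    (hly : 1 ≤ cx B L {y}) (hlz : 1 ≤ cx B L {z})
    (hmx : 2 ≤ cx B M {x})
    (hy : 3 ≤ cx B L {y} + cx B M {y}) (hz : 3 ≤ cx B L {z} + cx B M {z}) :
    2 ≤ et B Q L + et B Q M := by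
  have hF' : F = {M, L} := by rw [hF, pair_comm]
  have hL : 0 ≤ et B Q L := et_nonneg h ih (by rw [hF]; simp)
  have hM : 0 ≤ et B Q M := et_nonneg h ih (by rw [hF]; simp)
  have h1 := cx_le_pair_left (B := B) M y z
  have h2 := cx_le_pair_right (B := B) M y z
  by_cases h3 : 2 ≤ cx B M {y, z}
  · have h4 := num22 (c12 h ih hLM hF hX hxy hxz hyz hly hlz (e1 := 2) (e2 := 2) (by norm_num)
      (by norm_num) (by norm_num) (by norm_num) (by omega) h3)
    linarith
  · have h6 := num22 (c11 h ih hLM.symm hF' hX hxy hxz hyz (by omega) (e1 := 2) (e2 := 2)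
      (by norm_num) (by norm_num) (by norm_num) (by norm_num) (by omega) (by omega))
    linarith

/-- at least two of the three points of `X` have a block to the member. -/
theorem hall3_one (h : Cfg B Q X F i) {C : Finset V} (hC : C ∈ F)
    {x y z : V} (hX : X = {x, y, z}) : 1 ≤ cx B C {x} ∨ 1 ≤ cx B C {y} := by
  by_contra hcon
  push Not at hcon
  have h1 := h.hall (T := {C}) (by simpa using hC) (singleton_nonempty C)
  have h2 : nbr (gr B) X {C} ⊆ {z} := by
    intro w hw
    obtain ⟨hwX, D, hD, hD1⟩ := (mem_nbr_iff h subset_rfl (by simpa using hC)).1 hw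
    rw [mem_singleton] at hD
    subst hD
    rw [hX] at hwX
    simp only [mem_insert, mem_singleton] at hwX
    rcases hwX with rfl | rfl | rfl
    · omega
    · omega
    · simp
  have h3 := card_le_card h2
  rw [card_singleton] at h1 h3
  omega

/-- every point of `X` has a block to a member. -/
theorem hall3_two (h : Cfg B Q X F i) (hLM : L ≠ M) (hF : F = {L, M})
    {x y z : V} (hX : X = {x, y, z}) : 1 ≤ cx B L {x} ∨ 1 ≤ cx B M {x} := by
  by_contra hcon
  push Not at hcon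
  have h1 := h.hall (T := F) subset_rfl (by rw [hF]; simp)
  have h2 : nbr (gr B) X F ⊆ {y, z} := by
    intro w hw
    obtain ⟨hwX, D, hD, hD1⟩ := (mem_nbr_iff h subset_rfl subset_rfl).1 hw
    rw [hF, mem_insert, mem_singleton] at hD
    rw [hX] at hwX
    simp only [mem_insert, mem_singleton] at hwX ⊢
    rcases hwX with rfl | rfl | rfl
    · rcases hD with rfl | rfl <;> omega
    · simp
    · simp
  have h3 := card_le_card h2
  have h4 : F.card = 2 := by rw [hF, card_pair hLM]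
  have h5 := card_le_two (a := y) (b := z)
  omega

/-- the excess needed for `|X| = 3`. -/
theorem tot3 (h : Cfg B Q X F i) (ih : IHG.{u} V Q.card) (hLM : L ≠ M) (hF : F = {L, M})
    {x y z : V} (hX : X = {x, y, z}) (hxy : x ≠ y) (hxz : x ≠ z) (hyz : y ≠ z) :
    (nX B Q X = 1 → 6 ≤ et B Q L + et B Q M + er B Q ((Q \ X) \ F.biUnion id)) ∧
    (nX B Q X = 2 → 2 ≤ et B Q L + et B Q M + er B Q ((Q \ X) \ F.biUnion id)) := by
  have hF' : F = {M, L} := by rw [hF, pair_comm]
  have hL : 0 ≤ et B Q L := et_nonneg h ih (by rw [hF]; simp)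
  have hM : 0 ≤ et B Q M := et_nonneg h ih (by rw [hF]; simp)
  have hBX : B i = X := eq_of_subset_of_card_le h.sub (by
    rw [h.inner.2, hX]
    exact card_le_three)
  have hpt : ∀ w ∈ X, ∃ s, 1 ≤ s ∧ s ≤ nX B Q X ∧
      s + (cx B L {w} + cx B M {w}) + cx B ((Q \ X) \ F.biUnion id) {w} = 5 := by
    intro w hw
    refine ⟨(univ.filter (fun j => w ∈ B j ∧ B j ∩ Q ⊆ X)).card, ?_, ?_, ?_⟩
    · rw [Nat.one_le_iff_ne_zero, ← Nat.pos_iff_ne_zero, card_pos]
      refine ⟨i, mem_filter.2 ⟨mem_univ _, hBX ▸ hw, ?_⟩⟩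
      rw [hBX]
      exact inter_subset_left
    · exact card_le_card (insx_sub (h.X_sub hw))
    · have h1 := point_sys h.reg h.X_sub h.tight.sys hw
      have h2 : ∑ C ∈ F, cx B C {w} = cx B L {w} + cx B M {w} := by
        rw [hF, sum_pair hLM]
      rw [h2] at h1
      exact h1
  have hxX : x ∈ X := by rw [hX]; simp
  have hyX : y ∈ X := by rw [hX]; simp
  have hzX : z ∈ X := by rw [hX]; simp
  obtain ⟨sx, sx1, sx2, hsx⟩ := hpt x hxX
  obtain ⟨sy, sy1, sy2, hsy⟩ := hpt y hyX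
  obtain ⟨sz, sz1, sz2, hsz⟩ := hpt z hzX
  have hX2 : X = {y, z, x} := by
    rw [hX]; ext w; simp only [mem_insert, mem_singleton]; tauto
  have hX3 : X = {z, x, y} := by
    rw [hX]; ext w; simp only [mem_insert, mem_singleton]; tauto
  have hX4 : X = {x, z, y} := by
    rw [hX]; ext w; simp only [mem_insert, mem_singleton]; tauto
  have hLF : L ∈ F := by rw [hF]; simp
  have hMF : M ∈ F := by rw [hF]; simp
  have l1 := hall3_one h hLF hX
  have l2 := hall3_one h hLF hX2
  have l3 := hall3_one h hLF hX3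
  have m1 := hall3_one h hMF hX
  have m2 := hall3_one h hMF hX2
  have m3 := hall3_one h hMF hX3
  have t1 := hall3_two h hLM hF hX
  have t2 := hall3_two h hLM hF hX2
  have t3 := hall3_two h hLM hF hX3
  -- the two main estimates
  have key6 : nX B Q X = 1 → cx B ((Q \ X) \ F.biUnion id) {x} = 0 →
      cx B ((Q \ X) \ F.biUnion id) {y} = 0 → cx B ((Q \ X) \ F.biUnion id) {z} = 0 →
      6 ≤ et B Q L + et B Q M := by
    intro hn r1 r2 r3
    by_cases a1 : 1 ≤ cx B L {x}
    swap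
    · exact zero6 h ih hLM hF hX hxy hxz hyz (by omega) (by omega) (by omega) (by omega)
        (by omega)
    by_cases a2 : 1 ≤ cx B L {y}
    swap
    · exact zero6 h ih hLM hF hX2 hyz hxy.symm hxz.symm (by omega) (by omega) (by omega)
        (by omega) (by omega)
    by_cases a3 : 1 ≤ cx B L {z}
    swap
    · exact zero6 h ih hLM hF hX3 hxz.symm hyz.symm hxy (by omega) (by omega) (by omega)
        (by omega) (by omega)
    by_cases b1 : 1 ≤ cx B M {x}
    swap
    · rw [add_comm]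
      exact zero6 h ih hLM.symm hF' hX hxy hxz hyz (by omega) (by omega) (by omega) (by omega)
        (by omega)
    by_cases b2 : 1 ≤ cx B M {y}
    swap
    · rw [add_comm]
      exact zero6 h ih hLM.symm hF' hX2 hyz hxy.symm hxz.symm (by omega) (by omega) (by omega)
        (by omega) (by omega)
    by_cases b3 : 1 ≤ cx B M {z}
    swap
    · rw [add_comm]
      exact zero6 h ih hLM.symm hF' hX3 hxz.symm hyz.symm hxy (by omega) (by omega) (by omega)
        (by omega) (by omega)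
    by_cases c1 : 3 ≤ cx B M {x}
    · exact three3 h ih hLM hF hX hxy hxz hyz a1 a2 a3 c1 b2 b3 (by omega) (by omega)
    by_cases c2 : 3 ≤ cx B M {y}
    · exact three3 h ih hLM hF hX2 hyz hxy.symm hxz.symm a2 a3 a1 c2 b3 b1 (by omega) (by omega)
    by_cases c3 : 3 ≤ cx B M {z}
    · exact three3 h ih hLM hF hX3 hxz.symm hyz.symm hxy a3 a1 a2 c3 b1 b2 (by omega) (by omega)
    by_cases d1 : 3 ≤ cx B L {x}
    · rw [add_comm]
      exact three3 h ih hLM.symm hF' hX hxy hxz hyz b1 b2 b3 d1 a2 a3 (by omega) (by omega)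
    by_cases d2 : 3 ≤ cx B L {y}
    · rw [add_comm]
      exact three3 h ih hLM.symm hF' hX2 hyz hxy.symm hxz.symm b2 b3 b1 d2 a3 a1 (by omega)
        (by omega)
    by_cases d3 : 3 ≤ cx B L {z}
    · rw [add_comm]
      exact three3 h ih hLM.symm hF' hX3 hxz.symm hyz.symm hxy b3 b1 b2 d3 a1 a2 (by omega)
        (by omega)
    have e1 := all2 h ih hLM hF hX hxy hxz hyz a1 a2 a3 (by omega) (by omega) (by omega)
    have e2 := all2 h ih hLM.symm hF' hX hxy hxz hyz b1 b2 b3 (by omega) (by omega) (by omega)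
    linarith
  have key2 : 3 ≤ cx B L {x} + cx B M {x} → 3 ≤ cx B L {y} + cx B M {y} →
      3 ≤ cx B L {z} + cx B M {z} → 2 ≤ et B Q L + et B Q M := by
    intro r1 r2 r3
    by_cases a1 : 1 ≤ cx B L {x}
    swap
    · exact zero2 h ih hLM hF hX hxy hxz hyz (by omega) (by omega) (by omega) (by omega)
        (by omega)
    by_cases a2 : 1 ≤ cx B L {y}
    swap
    · exact zero2 h ih hLM hF hX2 hyz hxy.symm hxz.symm (by omega) (by omega) (by omega)
        (by omega) (by omega)
    by_cases a3 : 1 ≤ cx B L {z}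
    swap
    · exact zero2 h ih hLM hF hX3 hxz.symm hyz.symm hxy (by omega) (by omega) (by omega)
        (by omega) (by omega)
    by_cases b1 : 1 ≤ cx B M {x}
    swap
    · rw [add_comm]
      exact zero2 h ih hLM.symm hF' hX hxy hxz hyz (by omega) (by omega) (by omega) (by omega)
        (by omega)
    by_cases b2 : 1 ≤ cx B M {y}
    swap
    · rw [add_comm]
      exact zero2 h ih hLM.symm hF' hX2 hyz hxy.symm hxz.symm (by omega) (by omega) (by omega)
        (by omega) (by omega)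
    by_cases b3 : 1 ≤ cx B M {z}
    swap
    · rw [add_comm]
      exact zero2 h ih hLM.symm hF' hX3 hxz.symm hyz.symm hxy (by omega) (by omega) (by omega)
        (by omega) (by omega)
    by_cases c1 : 2 ≤ cx B M {x}
    · have := two2 h ih hLM hF hX hxy hxz hyz a1 a2 a3 c1 b2 b3
      linarith
    · have := two2 h ih hLM.symm hF' hX hxy hxz hyz b1 b2 b3 (by omega) a2 a3
      linarith
  rcases ((Q \ X) \ F.biUnion id).eq_empty_or_nonempty with hR | hR
  · rw [hR] at hsx hsy hsz key6 ⊢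
    rw [er_zero]
    have h0 : ∀ w : V, cx B ∅ {w} = 0 := fun w => by rw [cx_comm]; exact cx_empty_right _
    rw [h0] at hsx hsy hsz
    constructor
    · intro hn
      have := key6 hn (h0 x) (h0 y) (h0 z)
      linarith
    · intro hn
      have := key2 (by omega) (by omega) (by omega)
      linarith
  · have h4 := rest_ge h ih hR
    constructor
    · intro hn
      by_cases r1 : 2 ≤ cx B ((Q \ X) \ F.biUnion id) {x}
      · have := rest_ge2 h ih hxX r1
        linarith
      by_cases r2 : 2 ≤ cx B ((Q \ X) \ F.biUnion id) {y}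
      · have := rest_ge2 h ih hyX r2
        linarith
      by_cases r3 : 2 ≤ cx B ((Q \ X) \ F.biUnion id) {z}
      · have := rest_ge2 h ih hzX r3
        linarith
      have := key2 (by omega) (by omega) (by omega)
      linarith
    · intro hn
      linarith

end three

theorem case3 {Q X : Finset V} {F : Finset (Finset V)} {i : ι} (h : Cfg B Q X F i)
    (ih : IHG.{u} V Q.card) (hX : X.card = 3) : GM B Q := by
  have hFc : F.card = 2 := by
    have := h.tight.card
    omega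
  obtain ⟨L, M, hLM, hF⟩ := card_eq_two.1 hFc
  obtain ⟨x, y, z, hxy, hxz, hyz, hXe⟩ := card_eq_three.1 hX
  have h1 := tot3 h ih hLM hF hXe hxy hxz hyz
  have h2 := count_cfg h
  have h3 := nX_ge h
  have h4 : ∑ C ∈ F, et B Q C = et B Q L + et B Q M := by
    conv_lhs => rw [hF, sum_pair hLM]
  have hL : 0 ≤ et B Q L := et_nonneg h ih (by rw [hF]; simp)
  have hM : 0 ≤ et B Q M := et_nonneg h ih (by rw [hF]; simp)
  have hR : 0 ≤ er B Q ((Q \ X) \ F.biUnion id) := by
    rcases ((Q \ X) \ F.biUnion id).eq_empty_or_nonempty with hR | hR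
    · rw [hR, er_zero]
    · have := rest_ge h ih hR
      linarith
  rw [h4, hX] at h2
  unfold GM
  have h5 : (1 : ℤ) + 2 * (ee B Q X : ℤ) ≤ nX B Q X := by exact_mod_cast h3
  have h6 : (0 : ℤ) ≤ ee B Q X := Int.natCast_nonneg _
  push_cast at h2
  by_cases n1 : nX B Q X = 1
  · have h7 := h1.1 n1
    rw [n1] at h2 h5
    push_cast at h2 h5
    linarith
  by_cases n2 : nX B Q X = 2
  · have h7 := h1.2 n2
    have h8 : ee B Q X = 0 := by omega
    rw [n2, h8] at h2
    push_cast at h2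
    linarith
  · have h9 : 3 ≤ nX B Q X := by omega
    have h10 : (3 : ℤ) ≤ nX B Q X := by exact_mod_cast h9
    linarith

section four

variable {Q X C D E : Finset V} {F : Finset (Finset V)} {i : ι}

theorem erase_three (hCD : C ≠ D) (hCE : C ≠ E) (hF : F = {C, D, E}) : F.erase C = {D, E} := by
  rw [hF]
  ext Z
  simp only [mem_erase, mem_insert, mem_singleton]
  constructor
  · rintro ⟨h1, h2 | h2 | h2⟩
    · exact absurd h2 h1
    · exact Or.inl h2
    · exact Or.inr h2
  · rintro (rfl | rfl)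
    · exact ⟨hCD.symm, Or.inr (Or.inl rfl)⟩
    · exact ⟨hCE.symm, Or.inr (Or.inr rfl)⟩

theorem alw4 (h : Cfg B Q X F i) (hCD : C ≠ D) (hCE : C ≠ E) (hDE : D ≠ E) (hF : F = {C, D, E})
    {p q u w : V} (hX : X = {p, q, u, w}) (hpu : p ≠ u) (hpw : p ≠ w) (hqu : q ≠ u) (hqw : q ≠ w)
    (huw : u ≠ w) (h1 : 1 ≤ cx B D {u}) (h2 : 1 ≤ cx B E {w}) :
    ∀ T ⊆ F.erase C, T.card ≤ (nbr (gr B) ((X.erase p).erase q) T).card := by
  have hDF : D ∈ F := by rw [hF]; simp
  have hEF : E ∈ F := by rw [hF]; simp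
  have hu : u ∈ (X.erase p).erase q := by
    rw [mem_erase, mem_erase, hX]
    exact ⟨hqu.symm, hpu.symm, by simp⟩
  have hw : w ∈ (X.erase p).erase q := by
    rw [mem_erase, mem_erase, hX]
    exact ⟨hqw.symm, hpw.symm, by simp⟩
  have hsub : (X.erase p).erase q ⊆ X := (erase_subset _ _).trans (erase_subset _ _)
  intro T hT
  have hTF : T ⊆ F := hT.trans (erase_subset _ _)
  rw [erase_three hCD hCE hF] at hT
  have hm := @mem_nbr_iff _ _ _ _ B _ _ _ _ h _ hsub _ hTF
  by_cases hD : D ∈ T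
  · by_cases hE : E ∈ T
    · have h3 : ({u, w} : Finset V) ⊆ nbr (gr B) ((X.erase p).erase q) T := by
        intro z hz
        rw [mem_insert, mem_singleton] at hz
        rcases hz with rfl | rfl
        · exact hm.2 ⟨hu, D, hD, h1⟩
        · exact hm.2 ⟨hw, E, hE, h2⟩
      have h4 := card_le_card h3
      rw [card_pair huw] at h4
      have h5 := card_le_card hT
      have h6 := card_le_two (a := D) (b := E)
      omega
    · have h3 : T ⊆ {D} := by
        intro Z hZ
        have := hT hZ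
        rw [mem_insert, mem_singleton] at this
        rcases this with rfl | rfl
        · exact mem_singleton_self _
        · exact absurd hZ hE
      have h4 := card_le_card h3
      rw [card_singleton] at h4
      have h5 : 0 < (nbr (gr B) ((X.erase p).erase q) T).card :=
        card_pos.2 ⟨u, hm.2 ⟨hu, D, hD, h1⟩⟩
      omega
  · have h3 : T ⊆ {E} := by
      intro Z hZ
      have := hT hZ
      rw [mem_insert, mem_singleton] at this
      rcases this with rfl | rfl
      · exact absurd hZ hD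
      · exact mem_singleton_self _
    by_cases hE : E ∈ T
    · have h4 := card_le_card h3
      rw [card_singleton] at h4
      have h5 : 0 < (nbr (gr B) ((X.erase p).erase q) T).card :=
        card_pos.2 ⟨w, hm.2 ⟨hw, E, hE, h2⟩⟩
      omega
    · have h4 : T = ∅ := by
        rw [eq_empty_iff_forall_notMem]
        intro Z hZ
        have := h3 hZ
        rw [mem_singleton] at this
        exact hE (this ▸ hZ)
      rw [h4]
      simp

/-- two points with two blocks to the same member are not allowed if all excesses are small. -/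
theorem ref4 (h : Cfg B Q X F i) (ih : IHG.{u} V Q.card) (het : ∀ Z ∈ F, et B Q Z < 2)
    (hCD : C ≠ D) (hCE : C ≠ E) (hDE : D ≠ E) (hF : F = {C, D, E})
    {p q u w : V} (hX : X = {p, q, u, w}) (hpq : p ≠ q) (hpu : p ≠ u) (hpw : p ≠ w)
    (hqu : q ≠ u) (hqw : q ≠ w) (huw : u ≠ w) (hp : 2 ≤ cx B C {p}) (hq : 2 ≤ cx B C {q})
    (h1 : 1 ≤ cx B D {u}) (h2 : 1 ≤ cx B E {w}) : False := by
  have hC : C ∈ F := by rw [hF]; simp
  have h3 := num22 (closing_cfg h ih hC (J1 := {p}) (J2 := {q}) (by rw [hX]; simp)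
    (by rw [hX]; simp)
    (by
      rw [disjoint_left]
      intro v hv hv2
      rw [mem_singleton] at hv hv2
      exact hpq (hv ▸ hv2))
    (by
      intro a ha b hb
      rw [mem_singleton] at ha hb
      rw [ha, hb]
      exact alw4 h hCD hCE hDE hF hX hpu hpw hqu hqw huw h1 h2)
    (e1 := 2) (e2 := 2) (by norm_num) (by norm_num) (by norm_num) (by norm_num) hp hq)
  have h4 := het C hC
  linarith

theorem hall4_one (h : Cfg B Q X F i) (hC : C ∈ F)
    {a b c d : V} (hX : X = {a, b, c, d}) :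
    1 ≤ cx B C {a} ∨ 1 ≤ cx B C {b} ∨ 1 ≤ cx B C {c} := by
  by_contra hcon
  push Not at hcon
  obtain ⟨k1, k2, k3⟩ := hcon
  have h1 := h.hall (T := {C}) (by simpa using hC) (singleton_nonempty C)
  have h2 : nbr (gr B) X {C} ⊆ {d} := by
    intro w hw
    obtain ⟨hwX, Z, hZ, hZ1⟩ := (mem_nbr_iff h subset_rfl (by simpa using hC)).1 hw
    rw [mem_singleton] at hZ
    subst hZ
    rw [hX] at hwX
    simp only [mem_insert, mem_singleton] at hwX
    rcases hwX with rfl | rfl | rfl | rfl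
    · omega
    · omega
    · omega
    · simp
  have h3 := card_le_card h2
  rw [card_singleton] at h1 h3
  omega

theorem hall4_two (h : Cfg B Q X F i) (hC : C ∈ F) (hD : D ∈ F) (hCD : C ≠ D)
    {a b c d : V} (hX : X = {a, b, c, d}) :
    1 ≤ cx B C {a} ∨ 1 ≤ cx B D {a} ∨ 1 ≤ cx B C {b} ∨ 1 ≤ cx B D {b} := by
  by_contra hcon
  push Not at hcon
  obtain ⟨k1, k2, k3, k4⟩ := hcon
  have hsub : ({C, D} : Finset (Finset V)) ⊆ F := by
    intro Z hZ
    rw [mem_insert, mem_singleton] at hZ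
    rcases hZ with rfl | rfl
    · exact hC
    · exact hD
  have h1 := h.hall (T := {C, D}) hsub (by simp)
  have h2 : nbr (gr B) X {C, D} ⊆ {c, d} := by
    intro w hw
    obtain ⟨hwX, Z, hZ, hZ1⟩ := (mem_nbr_iff h subset_rfl hsub).1 hw
    rw [mem_insert, mem_singleton] at hZ
    rw [hX] at hwX
    simp only [mem_insert, mem_singleton] at hwX
    rcases hwX with rfl | rfl | rfl | rfl
    · rcases hZ with rfl | rfl <;> omega
    · rcases hZ with rfl | rfl <;> omega
    · simp
    · simp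
  have h3 := card_le_card h2
  rw [card_pair hCD] at h1
  have h5 := card_le_two (a := c) (b := d)
  omega

/-- the contradiction for `|X| = 4` if all excesses are small. -/
theorem fin4 (h : Cfg B Q X F i) (ih : IHG.{u} V Q.card) (het : ∀ Z ∈ F, et B Q Z < 2)
    (hCD : C ≠ D) (hCE : C ≠ E) (hDE : D ≠ E) (hF : F = {C, D, E})
    {p q u w : V} (hX : X = {p, q, u, w}) (hpq : p ≠ q) (hpu : p ≠ u) (hpw : p ≠ w)
    (hqu : q ≠ u) (hqw : q ≠ w) (huw : u ≠ w) (hp : 2 ≤ cx B C {p}) (hq : 2 ≤ cx B C {q})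
    (hcu : 4 ≤ cx B C {u} + cx B D {u} + cx B E {u})
    (hcw : 4 ≤ cx B C {w} + cx B D {w} + cx B E {w}) : False := by
  have hFs : F = {C, E, D} := by
    rw [hF]; ext Z; simp only [mem_insert, mem_singleton]; tauto
  have hFD : F = {D, C, E} := by
    rw [hF]; ext Z; simp only [mem_insert, mem_singleton]; tauto
  have hFE : F = {E, C, D} := by
    rw [hF]; ext Z; simp only [mem_insert, mem_singleton]; tauto
  have hDF : D ∈ F := by rw [hF]; simp
  have hEF : E ∈ F := by rw [hF]; simp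
  have hX1 : X = {p, q, w, u} := by
    rw [hX]; ext z; simp only [mem_insert, mem_singleton]; tauto
  have hX2 : X = {p, w, q, u} := by
    rw [hX]; ext z; simp only [mem_insert, mem_singleton]; tauto
  have hX3 : X = {p, w, u, q} := by
    rw [hX]; ext z; simp only [mem_insert, mem_singleton]; tauto
  have hX4 : X = {p, u, q, w} := by
    rw [hX]; ext z; simp only [mem_insert, mem_singleton]; tauto
  have hX5 : X = {p, u, w, q} := by
    rw [hX]; ext z; simp only [mem_insert, mem_singleton]; tauto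
  have hX6 : X = {u, w, p, q} := by
    rw [hX]; ext z; simp only [mem_insert, mem_singleton]; tauto
  have hX7 : X = {w, q, u, p} := by
    rw [hX]; ext z; simp only [mem_insert, mem_singleton]; tauto
  have hX8 : X = {u, q, w, p} := by
    rw [hX]; ext z; simp only [mem_insert, mem_singleton]; tauto
  have hX9 : X = {u, w, q, p} := by
    rw [hX]; ext z; simp only [mem_insert, mem_singleton]; tauto
  have hX10 : X = {w, u, q, p} := by
    rw [hX]; ext z; simp only [mem_insert, mem_singleton]; tauto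
  -- the pair `p, q` is refused by `C`
  have n1 : ¬ (1 ≤ cx B D {u} ∧ 1 ≤ cx B E {w}) := fun hh =>
    ref4 h ih het hCD hCE hDE hF hX hpq hpu hpw hqu hqw huw hp hq hh.1 hh.2
  have n2 : ¬ (1 ≤ cx B E {u} ∧ 1 ≤ cx B D {w}) := fun hh =>
    ref4 h ih het hCE hCD hDE.symm hFs hX hpq hpu hpw hqu hqw huw hp hq hh.1 hh.2
  -- `w` sees neither `D` nor `E`
  by_cases b1 : cx B D {w} = 0 ∧ cx B E {w} = 0
  · have hw : 2 ≤ cx B C {w} := by omega
    have m1 : ¬ (1 ≤ cx B D {q} ∧ 1 ≤ cx B E {u}) := fun hh =>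
      ref4 h ih het hCD hCE hDE hF hX2 hpw hpq hpu hqw.symm huw.symm hqu hp hw hh.1 hh.2
    have m2 : ¬ (1 ≤ cx B E {q} ∧ 1 ≤ cx B D {u}) := fun hh =>
      ref4 h ih het hCE hCD hDE.symm hFs hX2 hpw hpq hpu hqw.symm huw.symm hqu hp hw hh.1 hh.2
    have k1 := hall4_two h hDF hEF hDE hX7
    have k2 := hall4_two h hDF hEF hDE hX10
    have k3 := hall4_one h hDF hX7
    have k4 := hall4_one h hEF hX7
    omega
  by_cases b2 : cx B D {u} = 0 ∧ cx B E {u} = 0
  · have hu : 2 ≤ cx B C {u} := by omega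
    have m1 : ¬ (1 ≤ cx B D {q} ∧ 1 ≤ cx B E {w}) := fun hh =>
      ref4 h ih het hCD hCE hDE hF hX4 hpu hpq hpw hqu.symm huw hqw hp hu hh.1 hh.2
    have m2 : ¬ (1 ≤ cx B E {q} ∧ 1 ≤ cx B D {w}) := fun hh =>
      ref4 h ih het hCE hCD hDE.symm hFs hX4 hpu hpq hpw hqu.symm huw hqw hp hu hh.1 hh.2
    have k1 := hall4_two h hDF hEF hDE hX8
    have k2 := hall4_two h hDF hEF hDE hX6
    have k3 := hall4_one h hDF hX8
    have k4 := hall4_one h hEF hX8
    omega
  -- one of `D`, `E` sees neither `u` nor `w`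
  have hcase : ∀ D' E' : Finset V, C ≠ D' → C ≠ E' → D' ≠ E' → F = {C, D', E'} →
      F = {E', C, D'} → D' ∈ F → cx B D' {u} = 0 → cx B D' {w} = 0 →
      4 ≤ cx B C {u} + cx B D' {u} + cx B E' {u} →
      4 ≤ cx B C {w} + cx B D' {w} + cx B E' {w} →
      1 ≤ cx B E' {u} → 1 ≤ cx B E' {w} → False := by
    intro D' E' c1 c2 c3 f1 f3 hD' z1 z2 z3 z4 z5 z6
    have k1 : 1 ≤ cx B D' {p} := by
      have := hall4_one h hD' hX6
      omega
    have k2 : 1 ≤ cx B D' {q} := by
      have := hall4_one h hD' hX9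
      omega
    have k3 : ¬ 2 ≤ cx B C {u} := fun hu =>
      ref4 h ih het c1 c2 c3 f1 hX4 hpu hpq hpw hqu.symm huw hqw hp hu k2 z6
    have k4 : ¬ 2 ≤ cx B C {w} := fun hw =>
      ref4 h ih het c1 c2 c3 f1 hX2 hpw hpq hpu hqw.symm huw.symm hqu hp hw k2 z5
    exact ref4 h ih het c2.symm c3.symm c1 f3 hX6 huw hpu.symm hqu.symm hpw.symm hqw.symm hpq
      (by omega) (by omega) (by omega) k2
  by_cases b3 : cx B D {u} = 0 ∧ cx B D {w} = 0
  · exact hcase D E hCD hCE hDE hF hFE hDF b3.1 b3.2 (by omega) (by omega) (by omega) (by omega)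
  · have b4 : cx B E {u} = 0 ∧ cx B E {w} = 0 := by omega
    exact hcase E D hCE hCD hDE.symm hFs hFD hEF b4.1 b4.2 (by omega) (by omega) (by omega)
      (by omega)

end four

theorem case4 {Q X : Finset V} {F : Finset (Finset V)} {i : ι} (h : Cfg B Q X F i)
    (ih : IHG.{u} V Q.card) (hX : X.card = 4) : GM B Q := by
  have hFc : F.card = 3 := by
    have := h.tight.card
    omega
  have h2 := count_cfg h
  have h3 := nX_ge h
  have hnn : ∀ C ∈ F, 0 ≤ et B Q C := fun C hC => et_nonneg h ih hC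
  have hsum : 0 ≤ ∑ C ∈ F, et B Q C := sum_nonneg hnn
  have h5 : (1 : ℤ) + 2 * (ee B Q X : ℤ) ≤ nX B Q X := by exact_mod_cast h3
  have h6 : (0 : ℤ) ≤ ee B Q X := Int.natCast_nonneg _
  have hR : 0 ≤ er B Q ((Q \ X) \ F.biUnion id) := by
    rcases ((Q \ X) \ F.biUnion id).eq_empty_or_nonempty with hR | hR
    · rw [hR, er_zero]
    · have := rest_ge h ih hR
      linarith
  rw [hX] at h2
  unfold GM
  push_cast at h2
  by_cases n1 : nX B Q X = 1
  swap
  · have h9 : 2 ≤ nX B Q X := by omega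
    have h10 : (2 : ℤ) ≤ nX B Q X := by exact_mod_cast h9
    linarith
  rw [n1] at h2 h5
  push_cast at h2 h5
  rcases ((Q \ X) \ F.biUnion id).eq_empty_or_nonempty with hR0 | hR0
  swap
  · have := rest_ge h ih hR0
    linarith
  rw [hR0, er_zero] at h2
  suffices hs : ∃ Z ∈ F, 2 ≤ et B Q Z by
    obtain ⟨Z, hZ, hZ2⟩ := hs
    have h11 := single_le_sum hnn hZ
    linarith
  by_contra hcon
  push Not at hcon
  -- every point has at least four blocks to the members
  have hpt : ∀ w ∈ X, 4 ≤ ∑ C ∈ F, cx B C {w} := by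
    intro w hw
    have k1 := point_sys h.reg h.X_sub h.tight.sys hw
    have k2 : (univ.filter (fun j => w ∈ B j ∧ B j ∩ Q ⊆ X)).card ≤ nX B Q X :=
      card_le_card (insx_sub (h.X_sub hw))
    rw [hR0] at k1
    have h0 : cx B ∅ {w} = 0 := by rw [cx_comm]; exact cx_empty_right _
    omega
  have hheavy : ∀ w ∈ X, ∃ C ∈ F, 2 ≤ cx B C {w} := by
    intro w hw
    by_contra hc
    push Not at hc
    have k1 := hpt w hw
    have k2 : ∑ C ∈ F, cx B C {w} ≤ ∑ C ∈ F, 1 := sum_le_sum fun C hC => by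
      have := hc C hC
      omega
    rw [sum_const, smul_eq_mul, mul_one, hFc] at k2
    omega
  choose! g hg1 hg2 using hheavy
  obtain ⟨p, hp, q, hq, hpq, hgpq⟩ := exists_ne_map_eq_of_card_lt_of_maps_to
    (s := X) (t := F) (f := g) (by omega) (fun w hw => hg1 w hw)
  -- names for the other two members and the other two points
  have hC := hg1 p hp
  have hE2 : (F.erase (g p)).card = 2 := by
    rw [card_erase_of_mem hC]
    omega
  obtain ⟨D, E, hDE, hDEe⟩ := card_eq_two.1 hE2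
  have hDm : D ∈ F.erase (g p) := by rw [hDEe]; simp
  have hEm : E ∈ F.erase (g p) := by rw [hDEe]; simp
  have hF : F = {g p, D, E} := by rw [← insert_erase hC, hDEe]
  have hX2 : ((X.erase p).erase q).card = 2 := by
    rw [card_erase_of_mem (mem_erase.2 ⟨hpq.symm, hq⟩), card_erase_of_mem hp]
    omega
  obtain ⟨u, w, huw, huwe⟩ := card_eq_two.1 hX2
  have hum : u ∈ (X.erase p).erase q := by rw [huwe]; simp
  have hwm : w ∈ (X.erase p).erase q := by rw [huwe]; simp
  rw [mem_erase, mem_erase] at hum hwm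
  have hXe : X = {p, q, u, w} := by
    rw [← insert_erase hp, ← insert_erase (mem_erase.2 ⟨hpq.symm, hq⟩), huwe]
  have hCD : g p ≠ D := (ne_of_mem_erase hDm).symm
  have hCE : g p ≠ E := (ne_of_mem_erase hEm).symm
  have hsum3 : ∀ v : V, ∑ C ∈ F, cx B C {v} = cx B (g p) {v} + cx B D {v} + cx B E {v} := by
    intro v
    conv_lhs => rw [hF]
    rw [sum_insert (by
      rw [mem_insert, mem_singleton, not_or]
      exact ⟨hCD, hCE⟩), sum_pair hDE]
    ring
  refine fin4 h ih hcon hCD hCE hDE hF hXe hpq (Ne.symm hum.2.1) (Ne.symm hwm.2.1)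
    (Ne.symm hum.1) (Ne.symm hwm.1) huw (hg2 p hp) (by rw [hgpq]; exact hg2 q hq) ?_ ?_
  · rw [← hsum3]
    exact hpt u hum.2.2
  · rw [← hsum3]
    exact hpt w hwm.2.2

end Pool.Agent.Hyp6
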