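import Pool.Agent.Hyp5.SysB
import Pool.Agent.Hyp6.Cnt2

/-!
# HYP6 G: the growth theorem for odd low sets, definitions

`cm B Q` is the number of blocks meeting `Q`, `G B Q = 4 cm B Q - 7 |Q|`; `ee B Q P` is the number of points `t` of `P` for which at
least two blocks have the trace `{t}` in `Q`. The growth theorem says `G(Q) >= 11 + 2 e(Q)` for
every factor-critical `Q` which is `Bad` (no inner triple has a complement with a perfect matching).
-/

set_option autoImplicit false

namespace Pool.Agent.Hyp6

open Finset Pool.Agent.Hyp5

universe u v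

section

variable {V : Type v} [DecidableEq V] {ι : Type u} [Fintype ι]

/-- the number of points of `P` which are the trace in `Q` of at least two blocks. -/
def ee (B : ι → Finset V) (Q P : Finset V) : ℕ :=
  (P.filter (fun t => 2 ≤ (univ.filter (fun i => B i ∩ Q = {t})).card)).card

/-- twice the excess of the odd set `M` as a part of `Q`. -/
def et (B : ι → Finset V) (Q M : Finset V) : ℤ :=
  G B M - 11 - 2 * (ee B Q M : ℤ)

/-- twice the excess of the even set `R` as a part of `Q`. -/
def er (B : ι → Finset V) (Q R : Finset V) : ℤ :=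
  G B R - 2 * (ee B Q R : ℤ)

/-- the growth inequality for `Q`. -/
def GM (B : ι → Finset V) (Q : Finset V) : Prop := 0 ≤ et B Q Q

end

/-- the induction hypothesis: the growth inequality for all systems on sets with less than `n` points. -/
def IHG (V : Type v) [DecidableEq V] (n : ℕ) : Prop :=
  ∀ (κ : Type u) [Fintype κ] (B : κ → Finset V) (Q : Finset V), Q.card < n → Small B → Reg B Q →
    FC (gr B) Q → Bad B Q → GM B Q

section

variable {V : Type v} [DecidableEq V] {ι : Type u} [Fintype ι]

/-- a tight system with `Bad` members containing an inner triple, and with `Bad` even components. -/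
structure Cfg (B : ι → Finset V) (Q X : Finset V) (F : Finset (Finset V)) (i : ι) : Prop where
  small : Small B
  reg : Reg B Q
  fc : FC (gr B) Q
  bad : Bad B Q
  inner : Inner B Q i
  sub : B i ⊆ X
  tight : Tight (gr B) Q X F
  mem : ∀ C ∈ F, Bad B C
  comp : ∀ R, R ⊆ (Q \ X) \ F.biUnion id → Closed (gr B) (Q \ X) R → R.Nonempty →
    (∀ R' ⊆ R, Closed (gr B) (Q \ X) R' → R'.Nonempty → R' = R) →
    ∀ x ∈ X, (∃ y ∈ R, (gr B).Adj x y) → FC (gr B) (insert x R) ∧ Bad B (insert x R)

/-- the number of blocks meeting `Q` whose trace lies in `X`. -/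
def nX (B : ι → Finset V) (Q X : Finset V) : ℕ := (ins B Q X).card

end

end Pool.Agent.Hyp6
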