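import Pool.Agent.Hyp6.GD

/-! # HYP6 GE: the growth theorem for odd low sets (owner helper44) -/

set_option autoImplicit false

namespace Pool.Agent.Hyp6

open Finset Pool.Agent.Hyp5

universe u v

theorem ihg (V : Type v) [DecidableEq V] (n : ℕ) : IHG.{u} V n := by
  induction n with
  | zero => intro κ _ B Q hn; omega
  | succ n ih =>
    intro κ _ B Q hn hs hr hfc hb
    have ihQ : IHG.{u} V Q.card := fun κ' _ B' Q' h' => ih κ' B' Q' (by omega)
    by_cases hno : ∀ i, ¬ Inner B Q i
    · exact no_inner hs hr hfc hb hno
    · push Not at hno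
      obtain ⟨i, hi⟩ := hno
      obtain ⟨X, F, h⟩ := exists_cfg hs hr hfc hb hi
      by_cases h3 : X.card = 3
      · exact case3 h ihQ h3
      by_cases h4 : X.card = 4
      · exact case4 h ihQ h4
      have hX3 : 3 ≤ X.card := by
        rw [← h.inner.2]
        exact card_le_card h.sub
      have hcount := count_cfg h
      have hnX := nX_ge h
      have hXne : X.Nonempty := card_pos.1 (by omega)
      have het : 0 ≤ ∑ C ∈ F, et B Q C := by
        refine sum_nonneg fun C hC => ?_
        have hCX : C ⊆ Q \ X := (h.tight.sys.closed C hC).1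
        have hCQ : C ⊆ Q := hCX.trans sdiff_subset
        have hlt : C.card < Q.card := by
          have h1 : C.card ≤ (Q \ X).card := card_le_card hCX
          have h2 : (Q \ X).card + X.card = Q.card := card_sdiff_add_card_eq_card h.tight.sub
          omega
        have hg : GM B C := ihQ κ B C hlt hs (fun v hv => hr v (hCQ hv)) (h.tight.sys.fc C hC)
          (h.mem C hC)
        have h1 : ee B Q C ≤ ee B C C := ee_le_ee subset_rfl hCQ
        unfold GM at hg
        unfold et at hg ⊢
        push_cast at hg ⊢
        omega
      have her := rest_nonneg h ihQ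
      unfold GM
      omega

/-- the growth theorem: `11 + 2 e(Q) <= G(Q)`. -/
theorem growth_odd {V : Type v} [DecidableEq V] {ι : Type u} [Fintype ι] {B : ι → Finset V}
    (hs : Small B) {Q : Finset V}
    (hr : Reg B Q) (hfc : FC (gr B) Q) (hb : Bad B Q) :
    11 + 2 * (ee B Q Q : ℤ) ≤ G B Q := by
  have h := ihg V (Q.card + 1) ι B Q (Nat.lt_succ_self _) hs hr hfc hb
  unfold GM et at h
  omega

end Pool.Agent.Hyp6
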