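import Pool.Agent.Hyp6.CritLow2

/-!
# HYP6 GED: the Gallai-Edmonds decomposition of a finite set

`GE G W U F`: `F` are factor-critical sets closed in `W \ U`, the rest has a perfect matching, the
deficiency is `|F| - |U|`, and every nonempty subset `Z` of `U` sees at least `|Z| + 1` members of `F`.
-/

set_option autoImplicit false

namespace Pool.Agent.Hyp6

open Finset Pool.Agent.Hyp5

universe u v

section Graph

variable {V : Type v} [DecidableEq V] {G : SimpleGraph V}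

open Classical in
/-- the members of `F` with a neighbour in `Z`. -/
noncomputable def nbF (G : SimpleGraph V) (F : Finset (Finset V)) (Z : Finset V) :
    Finset (Finset V) :=
  F.filter (fun C => ∃ x ∈ Z, ∃ y ∈ C, G.Adj x y)

omit [DecidableEq V] in
theorem mem_nbF {F : Finset (Finset V)} {Z C : Finset V} :
    C ∈ nbF G F Z ↔ C ∈ F ∧ ∃ x ∈ Z, ∃ y ∈ C, G.Adj x y := by
  simp only [nbF, mem_filter]

omit [DecidableEq V] in
theorem nbF_sub {F : Finset (Finset V)} {Z : Finset V} : nbF G F Z ⊆ F := fun _ hC =>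
  (mem_nbF.1 hC).1

omit [DecidableEq V] in
theorem nbF_mono {F F' : Finset (Finset V)} {Z Z' : Finset V} (hF : F ⊆ F') (hZ : Z ⊆ Z') :
    nbF G F Z ⊆ nbF G F' Z' := by
  intro C hC
  obtain ⟨h1, x, hx, h2⟩ := mem_nbF.1 hC
  exact mem_nbF.2 ⟨hF h1, x, hZ hx, h2⟩

theorem nbF_erase {F : Finset (Finset V)} {Z C : Finset V} :
    (nbF G F Z).card ≤ (nbF G (F.erase C) Z).card + 1 := by
  have h : (nbF G F Z).erase C ⊆ nbF G (F.erase C) Z := by
    intro D hD
    obtain ⟨h1, h2⟩ := mem_erase.1 hD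
    obtain ⟨h3, h4⟩ := mem_nbF.1 h2
    exact mem_nbF.2 ⟨mem_erase.2 ⟨h1, h3⟩, h4⟩
  have h1 := card_le_card h
  have h2 := pred_card_le_card_erase (s := nbF G F Z) (a := C)
  omega

/-- the decomposition of Gallai and Edmonds. -/
structure GE (G : SimpleGraph V) (W U : Finset V) (F : Finset (Finset V)) : Prop where
  sub : U ⊆ W
  sys : FCSys G (W \ U) F
  rest : PM G ((W \ U) \ F.biUnion id)
  max : ∀ (X' : Finset V) (F' : Finset (Finset V)), X' ⊆ W → OddSys G (W \ X') F' →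
    F'.card + U.card ≤ F.card + X'.card
  surplus : ∀ Z ⊆ U, Z.Nonempty → Z.card + 1 ≤ (nbF G F Z).card

/-- members not adjacent to `Z` are closed after giving back `Z`. -/
theorem fcSys_give {W U : Finset V} {F : Finset (Finset V)} (h : FCSys G (W \ U) F)
    {Z : Finset V} : FCSys G (W \ (U \ Z)) (F \ nbF G F Z) := by
  have hsub : F \ nbF G F Z ⊆ F := sdiff_subset
  refine ⟨fun C hC => ?_, fun C hC => h.fc C (hsub hC), fun C hC D hD hne =>
    h.disj C (hsub hC) D (hsub hD) hne⟩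
  obtain ⟨h1, h2⟩ := mem_sdiff.1 hC
  refine ⟨fun v hv => ?_, fun x hx y hy hxy => ?_⟩
  · have h3 := mem_sdiff.1 ((h.closed C h1).1 hv)
    exact mem_sdiff.2 ⟨h3.1, fun h4 => h3.2 (mem_sdiff.1 h4).1⟩
  · obtain ⟨hy1, hy2⟩ := mem_sdiff.1 hy
    by_cases hyU : y ∈ U
    · have hyZ : y ∈ Z := by
        by_contra hcon
        exact hy2 (mem_sdiff.2 ⟨hyU, hcon⟩)
      exact absurd (mem_nbF.2 ⟨h1, y, hyZ, x, hx, hxy.symm⟩) h2
    · exact (h.closed C h1).2 x hx y (mem_sdiff.2 ⟨hy1, hyU⟩) hxy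

theorem exists_GE (G : SimpleGraph V) (W : Finset V) :
    ∃ (U : Finset V) (F : Finset (Finset V)), GE G W U F := by
  classical
  have hex : ∃ k : ℕ, ∃ (U : Finset V) (F : Finset (Finset V)), U ⊆ W ∧ FCSys G (W \ U) F ∧
      PM G ((W \ U) \ F.biUnion id) ∧
      (∀ (X' : Finset V) (F' : Finset (Finset V)), X' ⊆ W → OddSys G (W \ X') F' →
        F'.card + U.card ≤ F.card + X'.card) ∧ U.card = k := by
    obtain ⟨U, F, _, h1, h2, h3, h4⟩ := exists_sys G W ∅ (empty_subset _)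
    exact ⟨_, U, F, h1, h2, h3, fun X' F' => h4 X' F' (empty_subset _), rfl⟩
  obtain ⟨U, F, hU, hF, hR, hmax, hk⟩ := Nat.find_spec hex
  refine ⟨U, F, hU, hF, hR, hmax, fun Z hZ hne => ?_⟩
  have hweak : ∀ Z' ⊆ U, Z'.card ≤ (nbF G F Z').card := by
    intro Z' hZ'
    have h1 := hmax (U \ Z') (F \ nbF G F Z') (sdiff_subset.trans hU) (fcSys_give hF).oddSys
    have h2 := card_sdiff_add_card_eq_card hZ'
    have h3 := card_sdiff_add_card_eq_card (nbF_sub (G := G) (F := F) (Z := Z'))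
    omega
  by_contra hcon
  have h0 := hweak Z hZ
  have heq : (nbF G F Z).card = Z.card := by omega
  have hFU : ∀ C ∈ F, Disjoint C U := by
    intro C hC
    rw [disjoint_left]
    intro v hv hvA
    exact (mem_sdiff.1 ((hF.closed C hC).1 hv)).2 hvA
  have hpm : PM G (Z ∪ (nbF G F Z).biUnion id) := by
    refine pm_of_hall (fun C hC => hF.fc C (nbF_sub hC))
      (fun C hC D hD => hF.disj C (nbF_sub hC) D (nbF_sub hD))
      (fun C hC => disjoint_of_subset_right hZ (hFU C (nbF_sub hC))) heq ?_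
    intro T hT
    have h1 := hweak (Z \ nbr G Z T) (sdiff_subset.trans hZ)
    have h2 : nbF G F (Z \ nbr G Z T) ⊆ nbF G F Z \ T := by
      intro C hC
      obtain ⟨h3, x, hx, y, hy, hxy⟩ := mem_nbF.1 hC
      obtain ⟨hx1, hx2⟩ := mem_sdiff.1 hx
      refine mem_sdiff.2 ⟨mem_nbF.2 ⟨h3, x, hx1, y, hy, hxy⟩, fun h4 => hx2 ?_⟩
      exact sysB_mem_nbr.2 ⟨hx1, C, h4, y, hy, hxy⟩
    have h3 := card_le_card h2
    have h4 := card_sdiff_add_card_eq_card hT
    have h5 := card_sdiff_add_card_eq_card (nbr_sub (G := G) Z T)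
    omega
  have hUZ : U \ Z ⊆ W := sdiff_subset.trans hU
  have hF' : FCSys G (W \ (U \ Z)) (F \ nbF G F Z) := fcSys_give hF
  have hR' : PM G ((W \ (U \ Z)) \ (F \ nbF G F Z).biUnion id) := by
    have hset : (W \ (U \ Z)) \ (F \ nbF G F Z).biUnion id =
        ((W \ U) \ F.biUnion id) ∪ (Z ∪ (nbF G F Z).biUnion id) := by
      ext v
      constructor
      · intro hv
        obtain ⟨h1, h2⟩ := mem_sdiff.1 hv
        obtain ⟨h3, h4⟩ := mem_sdiff.1 h1
        by_cases hvU : v ∈ U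
        · have hvZ : v ∈ Z := by
            by_contra hc
            exact h4 (mem_sdiff.2 ⟨hvU, hc⟩)
          exact mem_union_right _ (mem_union_left _ hvZ)
        · by_cases hvF : v ∈ F.biUnion id
          · obtain ⟨C, hC, hvC⟩ := mem_biUnion.1 hvF
            refine mem_union_right _ (mem_union_right _ (mem_biUnion.2 ⟨C, ?_, hvC⟩))
            by_contra hc
            exact h2 (mem_biUnion.2 ⟨C, mem_sdiff.2 ⟨hC, hc⟩, hvC⟩)
          · exact mem_union_left _ (mem_sdiff.2 ⟨mem_sdiff.2 ⟨h3, hvU⟩, hvF⟩)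
      · intro hv
        rcases mem_union.1 hv with hv | hv
        · obtain ⟨h1, h2⟩ := mem_sdiff.1 hv
          obtain ⟨h3, h4⟩ := mem_sdiff.1 h1
          refine mem_sdiff.2 ⟨mem_sdiff.2 ⟨h3, fun h => h4 (mem_sdiff.1 h).1⟩, fun h => h2 ?_⟩
          obtain ⟨C, hC, hvC⟩ := mem_biUnion.1 h
          exact mem_biUnion.2 ⟨C, (mem_sdiff.1 hC).1, hvC⟩
        rcases mem_union.1 hv with hv | hv
        · refine mem_sdiff.2 ⟨mem_sdiff.2 ⟨hU (hZ hv), fun h => (mem_sdiff.1 h).2 hv⟩, fun h => ?_⟩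
          obtain ⟨C, hC, hvC⟩ := mem_biUnion.1 h
          exact disjoint_left.1 (hFU C (mem_sdiff.1 hC).1) hvC (hZ hv)
        · obtain ⟨C, hC, hvC⟩ := mem_biUnion.1 hv
          have hCF := nbF_sub hC
          have h1 := mem_sdiff.1 ((hF.closed C hCF).1 hvC)
          refine mem_sdiff.2 ⟨mem_sdiff.2 ⟨h1.1, fun h => h1.2 (mem_sdiff.1 h).1⟩, fun h => ?_⟩
          obtain ⟨D, hD, hvD⟩ := mem_biUnion.1 h
          obtain ⟨hD1, hD2⟩ := mem_sdiff.1 hD
          have hne : C ≠ D := fun he => hD2 (he ▸ hC)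
          exact disjoint_left.1 (hF.disj C hCF D hD1 hne) hvC hvD
    rw [hset]
    refine hR.union hpm ?_
    rw [disjoint_left]
    intro v hv hv'
    obtain ⟨h1, h2⟩ := mem_sdiff.1 hv
    rcases mem_union.1 hv' with h | h
    · exact (mem_sdiff.1 h1).2 (hZ h)
    · obtain ⟨C, hC, hvC⟩ := mem_biUnion.1 h
      exact h2 (mem_biUnion.2 ⟨C, nbF_sub hC, hvC⟩)
  have hc1 := card_sdiff_add_card_eq_card hZ
  have hc2 := card_sdiff_add_card_eq_card (nbF_sub (G := G) (F := F) (Z := Z))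
  have hZpos := card_pos.2 hne
  have h7 : Nat.find hex ≤ (U \ Z).card := by
    refine Nat.find_min' hex ⟨U \ Z, F \ nbF G F Z, hUZ, hF', hR', fun X' F'' hX' hF'' => ?_, rfl⟩
    have := hmax X' F'' hX' hF''
    omega
  omega

/-- a matching of `U` into a family with Hall's condition. -/
theorem exists_match [Nonempty V] {U : Finset V} {F : Finset (Finset V)}
    (h : ∀ Z ⊆ U, Z.card ≤ (nbF G F Z).card) :
    ∃ (F1 : Finset (Finset V)) (φ : Finset V → V), F1 ⊆ F ∧ F1.card = U.card ∧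
      (∀ C ∈ F1, φ C ∈ U ∧ ∃ y ∈ C, G.Adj (φ C) y) ∧ Set.InjOn φ (F1 : Set (Finset V)) ∧
      F1.image φ = U := by
  classical
  have hH : ∀ s : Finset {x // x ∈ U}, s.card ≤ (s.biUnion fun x => nbF G F {x.1}).card := by
    intro s
    have h1 := h (s.image Subtype.val) (by
      intro x hx
      obtain ⟨y, _, rfl⟩ := mem_image.1 hx
      exact y.2)
    rw [card_image_of_injective _ Subtype.val_injective] at h1
    refine h1.trans (card_le_card ?_)
    intro C hC
    obtain ⟨hC, x, hx, hy⟩ := mem_nbF.1 hC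
    obtain ⟨z, hz, rfl⟩ := mem_image.1 hx
    rw [mem_biUnion]
    exact ⟨z, hz, mem_nbF.2 ⟨hC, z.1, mem_singleton_self _, hy⟩⟩
  obtain ⟨f, hf, hfm⟩ := (Finset.all_card_le_biUnion_card_iff_exists_injective _).1 hH
  set F1 : Finset (Finset V) := univ.image f with hF1
  have hmemF1 : ∀ C ∈ F1, ∃ u : {x // x ∈ U}, f u = C := by
    intro C hC
    obtain ⟨u, _, hu⟩ := mem_image.1 hC
    exact ⟨u, hu⟩
  let φ : Finset V → V := fun C => if h : ∃ u : {x // x ∈ U}, f u = C then (h.choose : V)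
    else Classical.arbitrary V
  have hφ : ∀ u : {x // x ∈ U}, φ (f u) = u := by
    intro u
    have hex : ∃ u' : {x // x ∈ U}, f u' = f u := ⟨u, rfl⟩
    have h1 : φ (f u) = (hex.choose : V) := dif_pos hex
    rw [h1, hf hex.choose_spec]
  refine ⟨F1, φ, ?_, ?_, ?_, ?_, ?_⟩
  · intro C hC
    obtain ⟨u, rfl⟩ := hmemF1 C hC
    exact nbF_sub (hfm u)
  · rw [hF1, card_image_of_injective _ hf, card_univ, Fintype.card_coe]
  · intro C hC
    obtain ⟨u, rfl⟩ := hmemF1 C hC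
    obtain ⟨_, x, hx, hy⟩ := mem_nbF.1 (hfm u)
    rw [mem_singleton] at hx
    rw [hφ u]
    exact ⟨u.2, hx ▸ hy⟩
  · intro C hC D hD hCD
    obtain ⟨u, rfl⟩ := hmemF1 C hC
    obtain ⟨w, rfl⟩ := hmemF1 D hD
    rw [hφ u, hφ w] at hCD
    rw [Subtype.ext hCD]
  · ext x
    constructor
    · intro hx
      obtain ⟨C, hC, rfl⟩ := mem_image.1 hx
      obtain ⟨u, rfl⟩ := hmemF1 C hC
      rw [hφ u]
      exact u.2
    · intro hx
      exact mem_image.2 ⟨f ⟨x, hx⟩, mem_image_of_mem _ (mem_univ _), hφ ⟨x, hx⟩⟩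

end Graph

end Pool.Agent.Hyp6
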