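import Pool.Agent.Hyp6.JCE

/-!
# HYP6 GAD: general closings

A connected set `W` is closed with `p` new points, which stand for pairwise disjoint groups `J z` of
points outside `W`; the new blocks `N c` are arbitrary. If for every set `K` of new blocks and every
transversal of the groups not covered by `K` the cost of `W` with the transversal is at least
`rho W + r - |K|`, the induction hypothesis for the closed system gives lower bounds for the potentials.
-/

set_option autoImplicit false

namespace Pool.Agent.Hyp6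

open Finset Pool.Agent.Hyp5

universe u v

variable {V : Type v} [DecidableEq V] {ι : Type u} [Fintype ι] {B : ι → Finset V}

/-- the data of a general closing. -/
structure Gcl (B : ι → Finset V) (Q W : Finset V) {p d : ℕ} (J : Fin p → Finset V)
    (E : Fin p → Finset ι) (N : Fin d → Finset (Fin p)) (r : ℕ) : Prop where
  WQ : W ⊆ Q
  JQ : ∀ z, J z ⊆ Q \ W
  Jd : ∀ z z', z ≠ z' → Disjoint (J z) (J z')
  EJ : ∀ z, E z ⊆ cxs B W (J z)
  Ene : ∀ z, (E z).Nonempty
  deg : ∀ z, (E z).card + (univ.filter (fun c => z ∈ N c)).card = 5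
  Nne : ∀ c, (N c).Nonempty
  N3 : ∀ c, (N c).card ≤ 3
  cost : ∀ (K : Finset (Fin d)) (f : Fin p → V), (∀ z, (∀ c ∈ K, z ∉ N c) → f z ∈ J z) →
    rho B W + r ≤ rho B (W ∪ (univ.filter (fun z => ∀ c ∈ K, z ∉ N c)).image f) + K.card

variable {Q W : Finset V} {p d : ℕ} {J : Fin p → Finset V} {E : Fin p → Finset ι}
  {N : Fin d → Finset (Fin p)} {r : ℕ}

theorem Gcl.exists_abs (h : Gcl B Q W J E N r) (hr : Reg B Q) (h3 : Tr3 B Q) :
    ∃ (y : Fin p → V) (E' : V → Finset ι), Function.Injective y ∧ (∀ z, y z ∈ J z) ∧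
      (∀ z, E' (y z) = E z) ∧
      AbsData B W (univ.image y) E' (fun c : ULift.{u} (Fin d) => (N c.down).image y) ∧
      rho B W + r ≤ rho (absG B W (univ.image y) E'
        (fun c : ULift.{u} (Fin d) => (N c.down).image y)) (W ∪ univ.image y) := by
  classical
  have hex : ∀ z, ∃ v, v ∈ J z := by
    intro z
    obtain ⟨i, hi⟩ := h.Ene z
    obtain ⟨_, q, hq⟩ := mem_cxs.1 (h.EJ z hi)
    exact ⟨q, (mem_inter.1 hq).2⟩
  choose y hy using hex
  have hinj : Function.Injective y := by
    intro z z' he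
    by_contra hne
    exact disjoint_left.1 (h.Jd z z' hne) (hy z) (he ▸ hy z')
  set E' : V → Finset ι := fun v => if hv : ∃ z, y z = v then E hv.choose else ∅ with hE'
  have hEy : ∀ z, E' (y z) = E z := by
    intro z
    have hv : ∃ z', y z' = y z := ⟨z, rfl⟩
    have h1 : E' (y z) = E hv.choose := dif_pos hv
    rw [h1, hinj hv.choose_spec]
  have hYm : ∀ v, v ∈ univ.image y ↔ ∃ z, y z = v := by
    intro v
    simp
  set N' : ULift.{u} (Fin d) → Finset V := fun c => (N c.down).image y with hN'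
  have hmN : ∀ z c, y z ∈ N' c ↔ z ∈ N c.down := by
    intro z c
    rw [hN']
    simp only [mem_image]
    constructor
    · rintro ⟨z', hz', he⟩
      rwa [← hinj he]
    · intro hz
      exact ⟨z, hz, rfl⟩
  have habs : AbsData B W (univ.image y) E' N' := by
    refine ⟨?_, ?_, ?_, ?_, ?_, ?_, ?_, ?_⟩
    · rw [disjoint_left]
      intro v hv hv'
      obtain ⟨z, rfl⟩ := (hYm v).1 hv'
      exact (mem_sdiff.1 (h.JQ z (hy z))).2 hv
    · intro v hv i hi
      obtain ⟨z, rfl⟩ := (hYm v).1 hv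
      rw [hEy] at hi
      exact (mem_cxs.1 (h.EJ z hi)).1
    · intro v hv
      obtain ⟨z, rfl⟩ := (hYm v).1 hv
      rw [hEy]
      exact h.Ene z
    · intro c v hv
      rw [hN'] at hv
      obtain ⟨z, _, rfl⟩ := mem_image.1 hv
      exact (hYm _).2 ⟨z, rfl⟩
    · intro c
      exact (h.Nne c.down).image y
    · intro v hv
      obtain ⟨z, rfl⟩ := (hYm v).1 hv
      rw [hEy, ← h.deg z]
      congr 1
      refine Finset.card_bij (fun c _ => c.down) ?_ ?_ ?_
      · intro c hc
        rw [mem_filter] at hc ⊢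
        exact ⟨mem_univ _, (hmN z c).1 hc.2⟩
      · intro c _ c' _ he
        exact ULift.down_injective he
      · intro c hc
        rw [mem_filter] at hc
        exact ⟨⟨c⟩, mem_filter.2 ⟨mem_univ _, (hmN z ⟨c⟩).2 hc.2⟩, rfl⟩
    · intro i
      have h1 : ((univ.image y).filter (fun v => i ∈ E' v)).card ≤ (B i ∩ (Q \ W)).card := by
        have hex : ∀ v ∈ (univ.image y).filter (fun v => i ∈ E' v),
            ∃ q, q ∈ B i ∧ ∃ z, y z = v ∧ q ∈ J z := by
          intro v hv
          rw [mem_filter] at hv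
          obtain ⟨z, rfl⟩ := (hYm v).1 hv.1
          rw [hEy] at hv
          obtain ⟨_, q, hq⟩ := mem_cxs.1 (h.EJ z hv.2)
          rw [mem_inter] at hq
          exact ⟨q, hq.1, z, rfl, hq.2⟩
        choose! g hg1 hg2 using hex
        refine Finset.card_le_card_of_injOn g ?_ ?_
        · intro v hv
          obtain ⟨z, _, hz⟩ := hg2 v hv
          exact mem_inter.2 ⟨hg1 v hv, h.JQ z hz⟩
        · intro v hv w hw he
          obtain ⟨z, hz1, hz2⟩ := hg2 v hv
          obtain ⟨z', hz1', hz2'⟩ := hg2 w hw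
          by_contra hne
          have hzz : z ≠ z' := by
            rintro rfl
            exact hne (hz1.symm.trans hz1')
          exact disjoint_left.1 (h.Jd z z' hzz) hz2 (he ▸ hz2')
      have h2 : (B i ∩ W).card + (B i ∩ (Q \ W)).card ≤ 3 := by
        rw [← card_union_of_disjoint]
        · refine (card_le_card ?_).trans (h3 i)
          intro v hv
          rcases mem_union.1 hv with hv | hv
          · exact mem_inter.2 ⟨(mem_inter.1 hv).1, h.WQ (mem_inter.1 hv).2⟩
          · exact mem_inter.2 ⟨(mem_inter.1 hv).1, (mem_sdiff.1 (mem_inter.1 hv).2).1⟩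
        · rw [disjoint_left]
          intro v hv hv'
          exact (mem_sdiff.1 (mem_inter.1 hv').2).2 (mem_inter.1 hv).2
      convert (Nat.add_le_add_left h1 _).trans h2 using 3
    · intro c
      exact card_image_le.trans (h.N3 c.down)
  refine ⟨y, E', hinj, hy, hEy, habs, ?_⟩
  refine habs.rho_ge (cov_of_reg (habs.reg (hr.mono h.WQ))) fun T K hT hK => ?_
  set K' : Finset (Fin d) := K.image ULift.down with hK'
  have hKc : K'.card ≤ K.card := card_image_le
  have hex : ∀ z, (∀ c ∈ K', z ∉ N c) → ∃ q, q ∈ J z ∧ ∃ i ∈ T, q ∈ B i := by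
    intro z hz
    rcases hK (y z) ((hYm _).2 ⟨z, rfl⟩) with ⟨i, hi, hiE⟩ | ⟨c, hc, hyc⟩
    · rw [hEy] at hiE
      obtain ⟨_, q, hq⟩ := mem_cxs.1 (h.EJ z hiE)
      rw [mem_inter] at hq
      exact ⟨q, hq.2, i, hi, hq.1⟩
    · exact absurd ((hmN z c).1 hyc) (hz c.down (mem_image_of_mem _ hc))
  set f : Fin p → V := fun z => if hz : ∀ c ∈ K', z ∉ N c then (hex z hz).choose else y z with hf
  have hf1 : ∀ z, (∀ c ∈ K', z ∉ N c) → f z ∈ J z ∧ ∃ i ∈ T, f z ∈ B i := by
    intro z hz
    have h1 : f z = (hex z hz).choose := dif_pos hz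
    rw [h1]
    exact (hex z hz).choose_spec
  have h4 := h.cost K' f (fun z hz => (hf1 z hz).1)
  have h5 : W ∪ (univ.filter (fun z => ∀ c ∈ K', z ∉ N c)).image f ⊆ T.biUnion B := by
    intro v hv
    rcases mem_union.1 hv with hv | hv
    · exact hT hv
    · obtain ⟨z, hz, rfl⟩ := mem_image.1 hv
      rw [mem_filter] at hz
      obtain ⟨i, hi, hvi⟩ := (hf1 z hz.2).2
      exact mem_biUnion.2 ⟨i, hi, hvi⟩
  have h6 := rho_le h5
  omega

/-- **general closing.** -/
theorem Gcl.main (h : Gcl B Q W J E N r) {n : ℕ} (ih : IHE.{u} V n) (hn : W.card + p < n)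
    (hr : Reg B Q) (h3 : Tr3 B Q) (hW : Conn (gr B) W)
    (hK : (∃ c, (N c).card ≤ 2) ∨ W.card + p ≠ 6)
    {Z2 : Finset (Fin p)} (hZ2 : ∀ z ∈ Z2, 2 ≤ (univ.filter (fun c => N c = {z})).card) :
    (2 * (ee B Q W : ℤ) + 2 * (Z2.card : ℤ) + 24 * (r : ℤ) ≤
      Pv B W + 5 * (p : ℤ) + 4 * (d : ℤ) + 1) ∧
    (sv B W + p ≤ 2 * r →
      2 * (ee B Q W : ℤ) + 2 * (Z2.card : ℤ) + 22 * (r : ℤ) +
        2 * (((ee B Q W : ℤ) + Z2.card + rho B W + r) % 2) ≤
      Pp B W + 4 * (p : ℤ) + 4 * (d : ℤ)) ∧
    (IHQ.{u} V n → 2 * r ≤ sv B W + p →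
      24 * (r : ℤ) ≤ Pv B W + 5 * (p : ℤ) + 4 * (d : ℤ)) := by
  classical
  obtain ⟨y, E', hinj, hy, hEy, habs, hrho⟩ := h.exists_abs hr h3
  have hYc : (univ.image y).card = p := by
    rw [card_image_of_injective _ hinj, card_univ, Fintype.card_fin]
  have hκ : Fintype.card (ULift.{u} (Fin d)) = d := by simp
  have hE2 : ∀ v ∈ univ.image y, ∀ i ∈ E' v, 2 ≤ (B i ∩ Q).card := by
    intro v hv i hi
    obtain ⟨z, _, rfl⟩ := mem_image.1 hv
    rw [hEy] at hi
    obtain ⟨⟨a, ha⟩, b, hb⟩ := mem_cxs.1 (h.EJ z hi)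
    rw [mem_inter] at ha hb
    have hbQ := mem_sdiff.1 (h.JQ z hb.2)
    have h1 : ({a, b} : Finset V) ⊆ B i ∩ Q := by
      intro v hv
      simp only [mem_insert, mem_singleton] at hv
      rcases hv with rfl | rfl
      · exact mem_inter.2 ⟨ha.1, h.WQ ha.2⟩
      · exact mem_inter.2 ⟨hb.1, hbQ.1⟩
    rw [← card_pair (a := a) (b := b)]
    · exact card_le_card h1
    · rintro rfl
      exact hbQ.2 ha.2
  have hnK : ¬ KT (absG B W (univ.image y) E'
      (fun c : ULift.{u} (Fin d) => (N c.down).image y)) (W ∪ univ.image y) := by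
    intro hKT
    rcases hK with ⟨c, hc⟩ | hK
    · have ht3 : Tr3 (absG B W (univ.image y) E'
          (fun c : ULift.{u} (Fin d) => (N c.down).image y)) (W ∪ univ.image y) := fun k =>
        (card_le_card inter_subset_left).trans (habs.small k)
      have hne : (absG B W (univ.image y) E'
          (fun c : ULift.{u} (Fin d) => (N c.down).image y) (Sum.inr ⟨c⟩) ∩
            (W ∪ univ.image y)).Nonempty := by
        rw [habs.inter_self]
        obtain ⟨v, hv⟩ := habs.neN ⟨c⟩
        exact ⟨v, mem_absG_inr.2 hv⟩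
      have h1 := hKT.trace (habs.reg (hr.mono h.WQ)) ht3 hne
      rw [habs.inter_self] at h1
      have h2 : absG B W (univ.image y) E'
          (fun c : ULift.{u} (Fin d) => (N c.down).image y) (Sum.inr ⟨c⟩) ⊆ (N c).image y := by
        intro v hv
        have hv' := (mem_absG_inr (B := B) (C := W) (Y := univ.image y) (E := E')
          (N := fun c : ULift.{u} (Fin d) => (N c.down).image y) (c := ⟨c⟩)).1 hv
        exact hv'
      have h4 := (card_le_card h2).trans card_image_le
      omega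
    · apply hK
      rw [← hKT.1, card_union_of_disjoint habs.dis, hYc]
  have hZ2' : ∀ v ∈ Z2.image y, 2 ≤ (univ.filter (fun c : ULift.{u} (Fin d) =>
      (N c.down).image y = {v})).card := by
    intro v hv
    obtain ⟨z, hz, rfl⟩ := mem_image.1 hv
    refine (hZ2 z hz).trans ?_
    refine Finset.card_le_card_of_injOn (fun c => ULift.up c) ?_ ?_
    · intro c hc
      rw [mem_coe, mem_filter] at hc
      rw [mem_coe, mem_filter]
      refine ⟨mem_univ _, ?_⟩
      show (N c).image y = {y z}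
      rw [hc.2, image_singleton]
    · intro c _ c' _ he
      simpa using he
  have hZc : (Z2.image y).card = Z2.card := card_image_of_injective _ hinj
  have h5 := close_genE habs ih (by rw [hYc]; exact hn) hr h.WQ hW hE2 hnK hrho
    (image_subset_image (subset_univ Z2)) hZ2'
  rw [hYc, hκ, hZc] at h5
  exact h5

/-- the hits of a general closing come from blocks with at least two points in `Q`. -/
theorem Gcl.two (h : Gcl B Q W J E N r) {z : Fin p} {i : ι} (hi : i ∈ E z) :
    2 ≤ (B i ∩ Q).card := by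
  obtain ⟨⟨a, ha⟩, b, hb⟩ := mem_cxs.1 (h.EJ z hi)
  rw [mem_inter] at ha hb
  have hbQ := mem_sdiff.1 (h.JQ z hb.2)
  have h1 : ({a, b} : Finset V) ⊆ B i ∩ Q := by
    intro v hv
    simp only [mem_insert, mem_singleton] at hv
    rcases hv with rfl | rfl
    · exact mem_inter.2 ⟨ha.1, h.WQ ha.2⟩
    · exact mem_inter.2 ⟨hb.1, hbQ.1⟩
  rw [← card_pair (a := a) (b := b)]
  · exact card_le_card h1
  · rintro rfl
    exact hbQ.2 ha.2

/-- **general closing, exceptional sets allowed.** -/
theorem Gcl.main0 (h : Gcl B Q W J E N r) {n : ℕ} (ih : IHE.{u} V n) (hn : W.card + p < n)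
    (hr : Reg B Q) (h3 : Tr3 B Q) (hW : Conn (gr B) W)
    {Z2 : Finset (Fin p)} (hZ2 : ∀ z ∈ Z2, 2 ≤ (univ.filter (fun c => N c = {z})).card) :
    2 * (ee B Q W : ℤ) + 2 * (Z2.card : ℤ) + 24 * (r : ℤ) ≤
      Pv B W + 5 * (p : ℤ) + 4 * (d : ℤ) + 2 := by
  classical
  by_cases hK : (∃ c, (N c).card ≤ 2) ∨ W.card + p ≠ 6
  · have := (h.main ih hn hr h3 hW hK hZ2).1
    linarith
  push Not at hK
  obtain ⟨hN, h6⟩ := hK
  have hZ0 : Z2 = ∅ := by
    by_contra hne
    obtain ⟨z, hz⟩ := nonempty_iff_ne_empty.2 hne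
    have h1 := hZ2 z hz
    have h2 : (univ.filter (fun c => N c = {z})).Nonempty := by
      rw [← card_pos]
      omega
    obtain ⟨c, hc⟩ := h2
    rw [mem_filter] at hc
    have h4 := hN c
    rw [hc.2, card_singleton] at h4
    omega
  obtain ⟨y, E', hinj, hy, hEy, habs, hrho⟩ := h.exists_abs hr h3
  have hYc : (univ.image y).card = p := by
    rw [card_image_of_injective _ hinj, card_univ, Fintype.card_fin]
  have hκ : Fintype.card (ULift.{u} (Fin d)) = d := by simp
  by_cases hKT : KT (absG B W (univ.image y) E'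
      (fun c : ULift.{u} (Fin d) => (N c.down).image y)) (W ∪ univ.image y)
  · have hE2 : ∀ v ∈ univ.image y, ∀ i ∈ E' v, 2 ≤ (B i ∩ Q).card := by
      intro v hv i hi
      obtain ⟨z, _, rfl⟩ := mem_image.1 hv
      rw [hEy] at hi
      exact h.two hi
    have ht3 : Tr3 (absG B W (univ.image y) E'
        (fun c : ULift.{u} (Fin d) => (N c.down).image y)) (W ∪ univ.image y) := fun k =>
      (card_le_card inter_subset_left).trans (habs.small k)
    have hee := habs.ee_ge h.WQ hE2 (empty_subset _) (Y2 := ∅) (by simp)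
    have hreg := habs.reg (hr.mono h.WQ)
    have hee0 : ee (absG B W (univ.image y) E' (fun c : ULift.{u} (Fin d) =>
        (N c.down).image y)) (W ∪ univ.image y) (W ∪ univ.image y) = 0 := by
      unfold ee
      rw [card_eq_zero, filter_eq_empty_iff]
      intro t ht h2
      have h3' : (univ.filter (fun k => absG B W (univ.image y) E' (fun c : ULift.{u} (Fin d) =>
          (N c.down).image y) k ∩ (W ∪ univ.image y) = {t})).Nonempty := by
        rw [← card_pos]
        omega
      obtain ⟨k, hk⟩ := h3'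
      rw [mem_filter] at hk
      have h4 := hKT.trace hreg ht3 (i := k) (by rw [hk.2]; exact singleton_nonempty t)
      rw [hk.2, card_singleton] at h4
      omega
    rw [hee0] at hee
    have hpv := habs.Pv_eq
    rw [hYc, hκ] at hpv
    have h7 : Pv (absG B W (univ.image y) E' (fun c : ULift.{u} (Fin d) =>
        (N c.down).image y)) (W ∪ univ.image y) = -2 := by
      obtain ⟨k1, k2, k3⟩ := hKT
      rw [Hyp6.Pv_eq, k1, k2, k3]
      norm_num
    rw [h7] at hpv
    have h8 : (rho B W : ℤ) + r ≤ rho (absG B W (univ.image y) E' (fun c : ULift.{u} (Fin d) =>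
        (N c.down).image y)) (W ∪ univ.image y) := by exact_mod_cast hrho
    have h9 : ee B Q W = 0 := by
      rw [card_empty] at hee
      omega
    rw [h9, hZ0, card_empty]
    push_cast
    linarith
  · have hE2 : ∀ v ∈ univ.image y, ∀ i ∈ E' v, 2 ≤ (B i ∩ Q).card := by
      intro v hv i hi
      obtain ⟨z, _, rfl⟩ := mem_image.1 hv
      rw [hEy] at hi
      exact h.two hi
    have h5 := (close_genE habs ih (by rw [hYc]; exact hn) hr h.WQ hW hE2 hKT hrho
      (empty_subset _) (Y2 := ∅) (by simp)).1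
    rw [hYc, hκ, card_empty] at h5
    rw [hZ0, card_empty]
    push_cast at h5 ⊢
    linarith

end Pool.Agent.Hyp6
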