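import Pool.Agent.Hyp6.Gad

/-!
# HYP6 GAD2: general closings with block traces

As in `Gad`, but a new point is given only by the blocks through it; the cost is measured with the whole
traces of these blocks.
-/

set_option autoImplicit false

namespace Pool.Agent.Hyp6

open Finset Pool.Agent.Hyp5

universe u v

variable {V : Type v} [DecidableEq V] {ι : Type u} [Fintype ι] {B : ι → Finset V}

open Classical in
/-- the data of a general closing: the blocks `E z` through the new point `z`, the new blocks `N c`. -/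
structure Gx (B : ι → Finset V) (Q W : Finset V) {p d : ℕ}
    (E : Fin p → Finset ι) (N : Fin d → Finset (Fin p)) (r : ℕ) : Prop where
  WQ : W ⊆ Q
  room : W.card + p ≤ Q.card
  EW : ∀ z, ∀ i ∈ E z, (B i ∩ W).Nonempty
  cap : ∀ i, (univ.filter (fun z => i ∈ E z)).card ≤ (B i ∩ (Q \ W)).card
  Ene : ∀ z, (E z).Nonempty
  deg : ∀ z, (E z).card + (univ.filter (fun c => z ∈ N c)).card = 5
  Nne : ∀ c, (N c).Nonempty
  N3 : ∀ c, (N c).card ≤ 3
  cost : ∀ (K : Finset (Fin d)) (g : Fin p → ι), (∀ z, (∀ c ∈ K, z ∉ N c) → g z ∈ E z) →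
    rho B W + r ≤ rho B (W ∪ (univ.filter (fun z => ∀ c ∈ K, z ∉ N c)).biUnion
      (fun z => B (g z) ∩ (Q \ W))) + K.card

variable {Q W : Finset V} {p d : ℕ}
  {E : Fin p → Finset ι} {N : Fin d → Finset (Fin p)} {r : ℕ}

theorem Gx.two (h : Gx B Q W E N r) {z : Fin p} {i : ι} (hi : i ∈ E z) :
    2 ≤ (B i ∩ Q).card := by
  classical
  obtain ⟨a, ha⟩ := h.EW z i hi
  have h0 : 0 < (B i ∩ (Q \ W)).card := by
    refine lt_of_lt_of_le ?_ (h.cap i)
    exact card_pos.2 ⟨z, mem_filter.2 ⟨mem_univ _, hi⟩⟩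
  obtain ⟨b, hb⟩ := card_pos.1 h0
  rw [mem_inter] at ha hb
  have hbQ := mem_sdiff.1 hb.2
  have h1 : ({a, b} : Finset V) ⊆ B i ∩ Q := by
    intro v hv
    simp only [mem_insert, mem_singleton] at hv
    rcases hv with rfl | rfl
    · exact mem_inter.2 ⟨ha.1, h.WQ ha.2⟩
    · exact mem_inter.2 ⟨hb.1, hbQ.1⟩
  rw [← card_pair (a := a) (b := b)]
  · exact card_le_card h1
  · rintro rfl
    exact hbQ.2 ha.2

theorem Gx.exists_abs (h : Gx B Q W E N r) (hr : Reg B Q) (h3 : Tr3 B Q) :
    ∃ (y : Fin p → V) (E' : V → Finset ι), Function.Injective y ∧ (∀ z, y z ∈ Q \ W) ∧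
      (∀ z, E' (y z) = E z) ∧
      AbsData B W (univ.image y) E' (fun c : ULift.{u} (Fin d) => (N c.down).image y) ∧
      rho B W + r ≤ rho (absG B W (univ.image y) E'
        (fun c : ULift.{u} (Fin d) => (N c.down).image y)) (W ∪ univ.image y) := by
  classical
  obtain ⟨y, hinj, hy⟩ : ∃ y : Fin p → V, Function.Injective y ∧ ∀ z, y z ∈ Q \ W := by
    have h1 : p ≤ (Q \ W).card := by
      have h2 := card_sdiff_add_card_eq_card h.WQ
      have h3 := h.room
      omega
    obtain ⟨Y, hY, hYc⟩ := exists_subset_card_eq h1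
    refine ⟨fun z => (Y.equivFinOfCardEq hYc).symm z, ?_, ?_⟩
    · intro z z' he
      exact (Y.equivFinOfCardEq hYc).symm.injective (Subtype.ext he)
    · intro z
      exact hY ((Y.equivFinOfCardEq hYc).symm z).2
  set E' : V → Finset ι := fun v => if hv : ∃ z, y z = v then E hv.choose else ∅ with hE'
  have hEy : ∀ z, E' (y z) = E z := by
    intro z
    have hv : ∃ z', y z' = y z := ⟨z, rfl⟩
    have h1 : E' (y z) = E hv.choose := dif_pos hv
    rw [h1, hinj hv.choose_spec]
  have hYm : ∀ v, v ∈ univ.image y ↔ ∃ z, y z = v := by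
    intro v
    simp
  set N' : ULift.{u} (Fin d) → Finset V := fun c => (N c.down).image y with hN'
  have hmN : ∀ z c, y z ∈ N' c ↔ z ∈ N c.down := by
    intro z c
    rw [hN']
    simp only [mem_image]
    constructor
    · rintro ⟨z', hz', he⟩
      rwa [← hinj he]
    · intro hz
      exact ⟨z, hz, rfl⟩
  have habs : AbsData B W (univ.image y) E' N' := by
    refine ⟨?_, ?_, ?_, ?_, ?_, ?_, ?_, ?_⟩
    · rw [disjoint_left]
      intro v hv hv'
      obtain ⟨z, rfl⟩ := (hYm v).1 hv'
      exact (mem_sdiff.1 (hy z)).2 hv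
    · intro v hv i hi
      obtain ⟨z, rfl⟩ := (hYm v).1 hv
      rw [hEy] at hi
      exact h.EW z i hi
    · intro v hv
      obtain ⟨z, rfl⟩ := (hYm v).1 hv
      rw [hEy]
      exact h.Ene z
    · intro c v hv
      rw [hN'] at hv
      obtain ⟨z, _, rfl⟩ := mem_image.1 hv
      exact (hYm _).2 ⟨z, rfl⟩
    · intro c
      exact (h.Nne c.down).image y
    · intro v hv
      obtain ⟨z, rfl⟩ := (hYm v).1 hv
      rw [hEy, ← h.deg z]
      congr 1
      refine Finset.card_bij (fun c _ => c.down) ?_ ?_ ?_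
      · intro c hc
        rw [mem_filter] at hc ⊢
        exact ⟨mem_univ _, (hmN z c).1 hc.2⟩
      · intro c _ c' _ he
        exact ULift.down_injective he
      · intro c hc
        rw [mem_filter] at hc
        exact ⟨⟨c⟩, mem_filter.2 ⟨mem_univ _, (hmN z ⟨c⟩).2 hc.2⟩, rfl⟩
    · intro i
      have h1 : ((univ.image y).filter (fun v => i ∈ E' v)).card ≤ (B i ∩ (Q \ W)).card := by
        refine le_trans ?_ (h.cap i)
        refine le_of_eq ?_
        symm
        refine Finset.card_bij (fun z _ => y z) ?_ ?_ ?_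
        · intro z hz
          rw [mem_filter] at hz ⊢
          refine ⟨(hYm _).2 ⟨z, rfl⟩, ?_⟩
          rw [hEy]
          exact hz.2
        · intro z _ z' _ he
          exact hinj he
        · intro v hv
          rw [mem_filter] at hv
          obtain ⟨z, rfl⟩ := (hYm v).1 hv.1
          refine ⟨z, mem_filter.2 ⟨mem_univ _, ?_⟩, rfl⟩
          rw [← hEy]
          exact hv.2
      have h2 : (B i ∩ W).card + (B i ∩ (Q \ W)).card ≤ 3 := by
        rw [← card_union_of_disjoint]
        · refine (card_le_card ?_).trans (h3 i)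
          intro v hv
          rcases mem_union.1 hv with hv | hv
          · exact mem_inter.2 ⟨(mem_inter.1 hv).1, h.WQ (mem_inter.1 hv).2⟩
          · exact mem_inter.2 ⟨(mem_inter.1 hv).1, (mem_sdiff.1 (mem_inter.1 hv).2).1⟩
        · rw [disjoint_left]
          intro v hv hv'
          exact (mem_sdiff.1 (mem_inter.1 hv').2).2 (mem_inter.1 hv).2
      convert (Nat.add_le_add_left h1 _).trans h2 using 3
    · intro c
      exact card_image_le.trans (h.N3 c.down)
  refine ⟨y, E', hinj, hy, hEy, habs, ?_⟩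
  refine habs.rho_ge (cov_of_reg (habs.reg (hr.mono h.WQ))) fun T K hT hK => ?_
  set K' : Finset (Fin d) := K.image ULift.down with hK'
  have hKc : K'.card ≤ K.card := card_image_le
  have hex : ∀ z, (∀ c ∈ K', z ∉ N c) → ∃ i, i ∈ E z ∧ i ∈ T := by
    intro z hz
    rcases hK (y z) ((hYm _).2 ⟨z, rfl⟩) with ⟨i, hi, hiE⟩ | ⟨c, hc, hyc⟩
    · rw [hEy] at hiE
      exact ⟨i, hiE, hi⟩
    · exact absurd ((hmN z c).1 hyc) (hz c.down (mem_image_of_mem _ hc))
  set g : Fin p → ι := fun z => if hz : ∀ c ∈ K', z ∉ N c then (hex z hz).choose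
    else (h.Ene z).choose with hg
  have hg1 : ∀ z, (∀ c ∈ K', z ∉ N c) → g z ∈ E z ∧ g z ∈ T := by
    intro z hz
    have h1 : g z = (hex z hz).choose := dif_pos hz
    rw [h1]
    exact (hex z hz).choose_spec
  have h4 := h.cost K' g (fun z hz => (hg1 z hz).1)
  have h5 : W ∪ (univ.filter (fun z => ∀ c ∈ K', z ∉ N c)).biUnion
      (fun z => B (g z) ∩ (Q \ W)) ⊆ T.biUnion B := by
    intro v hv
    rcases mem_union.1 hv with hv | hv
    · exact hT hv
    · obtain ⟨z, hz, hvz⟩ := mem_biUnion.1 hv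
      rw [mem_filter] at hz
      exact mem_biUnion.2 ⟨g z, (hg1 z hz.2).2, (mem_inter.1 hvz).1⟩
  have h6 := rho_le h5
  omega

/-- **general closing.** -/
theorem Gx.main (h : Gx B Q W E N r) {n : ℕ} (ih : IHE.{u} V n) (hn : W.card + p < n)
    (hr : Reg B Q) (h3 : Tr3 B Q) (hW : Conn (gr B) W)
    (hK : (∃ c, (N c).card ≤ 2) ∨ W.card + p ≠ 6)
    {Z2 : Finset (Fin p)} (hZ2 : ∀ z ∈ Z2, 2 ≤ (univ.filter (fun c => N c = {z})).card) :
    (2 * (ee B Q W : ℤ) + 2 * (Z2.card : ℤ) + 24 * (r : ℤ) ≤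
      Pv B W + 5 * (p : ℤ) + 4 * (d : ℤ) + 1) ∧
    (sv B W + p ≤ 2 * r →
      2 * (ee B Q W : ℤ) + 2 * (Z2.card : ℤ) + 22 * (r : ℤ) +
        2 * (((ee B Q W : ℤ) + Z2.card + rho B W + r) % 2) ≤
      Pp B W + 4 * (p : ℤ) + 4 * (d : ℤ)) ∧
    (IHQ.{u} V n → 2 * r ≤ sv B W + p →
      24 * (r : ℤ) ≤ Pv B W + 5 * (p : ℤ) + 4 * (d : ℤ)) := by
  classical
  obtain ⟨y, E', hinj, hy, hEy, habs, hrho⟩ := h.exists_abs hr h3
  have hYc : (univ.image y).card = p := by
    rw [card_image_of_injective _ hinj, card_univ, Fintype.card_fin]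
  have hκ : Fintype.card (ULift.{u} (Fin d)) = d := by simp
  have hE2 : ∀ v ∈ univ.image y, ∀ i ∈ E' v, 2 ≤ (B i ∩ Q).card := by
    intro v hv i hi
    obtain ⟨z, _, rfl⟩ := mem_image.1 hv
    rw [hEy] at hi
    exact h.two hi
  have hnK : ¬ KT (absG B W (univ.image y) E'
      (fun c : ULift.{u} (Fin d) => (N c.down).image y)) (W ∪ univ.image y) := by
    intro hKT
    rcases hK with ⟨c, hc⟩ | hK
    · have ht3 : Tr3 (absG B W (univ.image y) E'
          (fun c : ULift.{u} (Fin d) => (N c.down).image y)) (W ∪ univ.image y) := fun k =>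
        (card_le_card inter_subset_left).trans (habs.small k)
      have hne : (absG B W (univ.image y) E'
          (fun c : ULift.{u} (Fin d) => (N c.down).image y) (Sum.inr ⟨c⟩) ∩
            (W ∪ univ.image y)).Nonempty := by
        rw [habs.inter_self]
        obtain ⟨v, hv⟩ := habs.neN ⟨c⟩
        exact ⟨v, mem_absG_inr.2 hv⟩
      have h1 := hKT.trace (habs.reg (hr.mono h.WQ)) ht3 hne
      rw [habs.inter_self] at h1
      have h2 : absG B W (univ.image y) E'
          (fun c : ULift.{u} (Fin d) => (N c.down).image y) (Sum.inr ⟨c⟩) ⊆ (N c).image y := by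
        intro v hv
        have hv' := (mem_absG_inr (B := B) (C := W) (Y := univ.image y) (E := E')
          (N := fun c : ULift.{u} (Fin d) => (N c.down).image y) (c := ⟨c⟩)).1 hv
        exact hv'
      have h4 := (card_le_card h2).trans card_image_le
      omega
    · apply hK
      rw [← hKT.1, card_union_of_disjoint habs.dis, hYc]
  have hZ2' : ∀ v ∈ Z2.image y, 2 ≤ (univ.filter (fun c : ULift.{u} (Fin d) =>
      (N c.down).image y = {v})).card := by
    intro v hv
    obtain ⟨z, hz, rfl⟩ := mem_image.1 hv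
    refine (hZ2 z hz).trans ?_
    refine Finset.card_le_card_of_injOn (fun c => ULift.up c) ?_ ?_
    · intro c hc
      rw [mem_coe, mem_filter] at hc
      rw [mem_coe, mem_filter]
      refine ⟨mem_univ _, ?_⟩
      show (N c).image y = {y z}
      rw [hc.2, image_singleton]
    · intro c _ c' _ he
      simpa using he
  have hZc : (Z2.image y).card = Z2.card := card_image_of_injective _ hinj
  have h5 := close_genE habs ih (by rw [hYc]; exact hn) hr h.WQ hW hE2 hnK hrho
    (image_subset_image (subset_univ Z2)) hZ2'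
  rw [hYc, hκ, hZc] at h5
  exact h5

/-- **general closing, exceptional sets allowed.** -/
theorem Gx.main0 (h : Gx B Q W E N r) {n : ℕ} (ih : IHE.{u} V n) (hn : W.card + p < n)
    (hr : Reg B Q) (h3 : Tr3 B Q) (hW : Conn (gr B) W)
    {Z2 : Finset (Fin p)} (hZ2 : ∀ z ∈ Z2, 2 ≤ (univ.filter (fun c => N c = {z})).card) :
    2 * (ee B Q W : ℤ) + 2 * (Z2.card : ℤ) + 24 * (r : ℤ) ≤
      Pv B W + 5 * (p : ℤ) + 4 * (d : ℤ) + 2 := by
  classical
  by_cases hK : (∃ c, (N c).card ≤ 2) ∨ W.card + p ≠ 6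
  · have := (h.main ih hn hr h3 hW hK hZ2).1
    linarith
  push Not at hK
  obtain ⟨hN, h6⟩ := hK
  have hZ0 : Z2 = ∅ := by
    by_contra hne
    obtain ⟨z, hz⟩ := nonempty_iff_ne_empty.2 hne
    have h1 := hZ2 z hz
    have h2 : (univ.filter (fun c => N c = {z})).Nonempty := by
      rw [← card_pos]
      omega
    obtain ⟨c, hc⟩ := h2
    rw [mem_filter] at hc
    have h4 := hN c
    rw [hc.2, card_singleton] at h4
    omega
  obtain ⟨y, E', hinj, hy, hEy, habs, hrho⟩ := h.exists_abs hr h3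
  have hYc : (univ.image y).card = p := by
    rw [card_image_of_injective _ hinj, card_univ, Fintype.card_fin]
  have hκ : Fintype.card (ULift.{u} (Fin d)) = d := by simp
  have hE2 : ∀ v ∈ univ.image y, ∀ i ∈ E' v, 2 ≤ (B i ∩ Q).card := by
    intro v hv i hi
    obtain ⟨z, _, rfl⟩ := mem_image.1 hv
    rw [hEy] at hi
    exact h.two hi
  by_cases hKT : KT (absG B W (univ.image y) E'
      (fun c : ULift.{u} (Fin d) => (N c.down).image y)) (W ∪ univ.image y)
  · have ht3 : Tr3 (absG B W (univ.image y) E'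
        (fun c : ULift.{u} (Fin d) => (N c.down).image y)) (W ∪ univ.image y) := fun k =>
      (card_le_card inter_subset_left).trans (habs.small k)
    have hee := habs.ee_ge h.WQ hE2 (empty_subset _) (Y2 := ∅) (by simp)
    have hreg := habs.reg (hr.mono h.WQ)
    have hee0 : ee (absG B W (univ.image y) E' (fun c : ULift.{u} (Fin d) =>
        (N c.down).image y)) (W ∪ univ.image y) (W ∪ univ.image y) = 0 := by
      unfold ee
      rw [card_eq_zero, filter_eq_empty_iff]
      intro t ht h2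
      have h3' : (univ.filter (fun k => absG B W (univ.image y) E' (fun c : ULift.{u} (Fin d) =>
          (N c.down).image y) k ∩ (W ∪ univ.image y) = {t})).Nonempty := by
        rw [← card_pos]
        omega
      obtain ⟨k, hk⟩ := h3'
      rw [mem_filter] at hk
      have h4 := hKT.trace hreg ht3 (i := k) (by rw [hk.2]; exact singleton_nonempty t)
      rw [hk.2, card_singleton] at h4
      omega
    rw [hee0] at hee
    have hpv := habs.Pv_eq
    rw [hYc, hκ] at hpv
    have h7 : Pv (absG B W (univ.image y) E' (fun c : ULift.{u} (Fin d) =>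
        (N c.down).image y)) (W ∪ univ.image y) = -2 := by
      obtain ⟨k1, k2, k3⟩ := hKT
      rw [Hyp6.Pv_eq, k1, k2, k3]
      norm_num
    rw [h7] at hpv
    have h8 : (rho B W : ℤ) + r ≤ rho (absG B W (univ.image y) E' (fun c : ULift.{u} (Fin d) =>
        (N c.down).image y)) (W ∪ univ.image y) := by exact_mod_cast hrho
    have h9 : ee B Q W = 0 := by
      rw [card_empty] at hee
      omega
    rw [h9, hZ0, card_empty]
    push_cast
    linarith
  · have h5 := (close_genE habs ih (by rw [hYc]; exact hn) hr h.WQ hW hE2 hKT hrho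
      (empty_subset _) (Y2 := ∅) (by simp)).1
    rw [hYc, hκ, card_empty] at h5
    rw [hZ0, card_empty]
    push_cast at h5 ⊢
    linarith

end Pool.Agent.Hyp6
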