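import Pool.Agent.Hyp6.L3K3

/-!
# HYP6 L3K4: exchanges in the max-K frame

`Frm.exch`: a pair trace of `a` on a leaf `L` and a hit of `b` on another leaf `M` (both free together)
force the third point `c` to have at most one further point in every block.
`Frm.even_hit`: if `a` has a hit on an allowed pair of the even part, then `b` and `c` see no leaf.
-/

set_option autoImplicit false

namespace Pool.Agent.Hyp6

open Finset Pool.Agent.Hyp5

universe u v

variable {V : Type v} [DecidableEq V] {ι : Type u} [Fintype ι] {B : ι → Finset V}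

/-- a new point adjacent to a factor-critical set of value `-1` is absorbed. -/
theorem rho_insert_fc {C : Finset V} (hfc : FC (gr B) C) (hsv : sv B C = -1)
    {b : V} (hb : ∃ w ∈ C, (gr B).Adj b w) (hbC : b ∉ C) : rho B (insert b C) ≤ rho B C := by
  have h1 := pm_sv_nonneg (hfc.pm_insert hbC hb)
  have h2 := card_insert_of_notMem hbC
  unfold sv at h1 hsv
  omega

/-- deleting a point of a factor-critical set of value `-1`. -/
theorem rho_erase_fc {C : Finset V} (hfc : FC (gr B) C) (hsv : sv B C = -1) {v : V} (hv : v ∈ C) :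
    rho B (C.erase v) + 1 ≤ rho B C := by
  have h1 := pm_sv_nonneg (hfc.2 v hv)
  have h2 := card_erase_add_one hv
  unfold sv at h1 hsv
  omega

omit [Fintype ι] in
/-- the rest after an exchange. -/
theorem exch_set {Q D : Finset V} {i j : ι} {a b c v v' : V} (hj : B j ∩ Q = {a, b, c})
    (hi : B i ∩ Q = {a, v, v'}) (hD : D ⊆ Q) (haD : a ∉ D) (hbi : b ∉ B i) (hci : c ∉ B i) :
    (D ∪ (B j ∩ Q)) \ B i = (D \ {v, v'}) ∪ {b, c} := by
  have hai : a ∈ B i := (mem_inter.1 (by rw [hi]; simp : a ∈ B i ∩ Q)).1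
  ext x
  rw [hj]
  simp only [mem_sdiff, mem_union, mem_insert, mem_singleton, not_or]
  constructor
  · rintro ⟨h1 | h1 | h1 | h1, h2⟩
    · refine Or.inl ⟨h1, ?_, ?_⟩
      · rintro rfl
        exact h2 (mem_inter.1 (by rw [hi]; simp : x ∈ B i ∩ Q)).1
      · rintro rfl
        exact h2 (mem_inter.1 (by rw [hi]; simp : x ∈ B i ∩ Q)).1
    · exact absurd (h1 ▸ hai) h2
    · exact Or.inr (Or.inl h1)
    · exact Or.inr (Or.inr h1)
  · rintro (⟨h1, h2, h3⟩ | h1 | h1)
    · refine ⟨Or.inl h1, fun h4 => ?_⟩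
      have h5 : x ∈ B i ∩ Q := mem_inter.2 ⟨h4, hD h1⟩
      rw [hi] at h5
      simp only [mem_insert, mem_singleton] at h5
      rcases h5 with rfl | h5 | h5
      · exact haD h1
      · exact h2 h5
      · exact h3 h5
    · exact ⟨Or.inr (Or.inr (Or.inl h1)), h1 ▸ hbi⟩
    · exact ⟨Or.inr (Or.inr (Or.inr h1)), h1 ▸ hci⟩

namespace Frm

variable {Q U : Finset V} {T : Finset ι} {F : Finset (Finset V)}

omit [Fintype ι] in
theorem T_notD {j : ι} (hj : j ∈ T) {a : V} (ha : a ∈ B j) : a ∉ Dp B Q T := fun h =>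
  (mem_sdiff.1 h).2 (mem_biUnion.2 ⟨j, hj, ha⟩)

theorem exch_dis (h : Frm B Q T U F) {i j : ι} (hj : j ∈ T) {a b c v v' : V}
    (hjQ : B j ∩ Q = {a, b, c}) (hiQ : B i ∩ Q = {a, v, v'}) (hv : v ∈ Dp B Q T)
    (hv' : v' ∈ Dp B Q T) : ∀ k ∈ T, k ≠ j → Disjoint (B i ∩ Q) (B k ∩ Q) := by
  intro k hk hne
  rw [hiQ, disjoint_left]
  intro x hx hxk
  simp only [mem_insert, mem_singleton] at hx
  rcases hx with rfl | rfl | rfl
  · have h1 : x ∈ B j ∩ Q := by rw [hjQ]; simp
    exact disjoint_left.1 (h.mtp.tpk.pack.disj k hk j hj hne) hxk h1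
  · exact T_notD hk (mem_inter.1 hxk).1 hv
  · exact T_notD hk (mem_inter.1 hxk).1 hv'

/-- **exchange on two leaves.** -/
theorem exch [DecidableEq ι] (h : Frm B Q T U F) {i j : ι} (hj : j ∈ T) {a b c v v' : V}
    (hjQ : B j ∩ Q = {a, b, c}) (hiQ : B i ∩ Q = {a, v, v'}) (hi3 : (B i ∩ Q).card = 3)
    (hbi : b ∉ B i) (hci : c ∉ B i) (hbc : b ≠ c) {L M : Finset V} (hL : L ∈ F) (hM : M ∈ F)
    (hne : L ≠ M) (hv : v ∈ L) (hv' : v' ∈ L) (hfree : Frr B (Dp B Q T) {L, M})
    (hb : ∃ w ∈ M, (gr B).Adj b w) {k : ι} (hk : c ∈ B k) :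
    (B k ∩ ((Dp B Q T \ {v, v'}) ∪ {b, c})).card ≤ 2 := by
  have haj : a ∈ B j := (mem_inter.1 (by rw [hjQ]; simp : a ∈ B j ∩ Q)).1
  have hbj : b ∈ B j := (mem_inter.1 (by rw [hjQ]; simp : b ∈ B j ∩ Q)).1
  have hcj : c ∈ B j := (mem_inter.1 (by rw [hjQ]; simp : c ∈ B j ∩ Q)).1
  have hbQ : b ∈ Q := (mem_inter.1 (by rw [hjQ]; simp : b ∈ B j ∩ Q)).2
  have haD := T_notD (Q := Q) hj haj
  have hbD := T_notD (Q := Q) hj hbj
  have hcD := T_notD (Q := Q) hj hcj
  have hset := exch_set hjQ hiQ (DQ (B := B) (Q := Q) (T := T)) haD hbi hci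
  have hrho : rho B (((Dp B Q T ∪ (B j ∩ Q)) \ B i).erase c) + 1 ≤ rho B (Dp B Q T) := by
    rw [hset]
    have h1 : ((Dp B Q T \ {v, v'}) ∪ {b, c}).erase c ⊆
        (Dp B Q T \ ({L, M} : Finset (Finset V)).biUnion id) ∪ (L.erase v ∪ insert b M) := by
      intro x hx
      obtain ⟨hx1, hx2⟩ := mem_erase.1 hx
      rcases mem_union.1 hx2 with hx3 | hx3
      · obtain ⟨hx4, hx5⟩ := mem_sdiff.1 hx3
        by_cases hxL : x ∈ L
        · refine mem_union_right _ (mem_union_left _ (mem_erase.2 ⟨?_, hxL⟩))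
          rintro rfl
          exact hx5 (by simp)
        by_cases hxM : x ∈ M
        · exact mem_union_right _ (mem_union_right _ (mem_insert_of_mem hxM))
        · refine mem_union_left _ (mem_sdiff.2 ⟨hx4, fun h6 => ?_⟩)
          obtain ⟨C, hC, hxC⟩ := mem_biUnion.1 h6
          rcases mem_insert.1 hC with rfl | hC
          · exact hxL hxC
          · rw [mem_singleton] at hC
            rw [hC] at hxC
            exact hxM hxC
      · rcases mem_insert.1 hx3 with rfl | hx3
        · exact mem_union_right _ (mem_union_right _ (mem_insert_self _ _))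
        · rw [mem_singleton] at hx3
          exact absurd hx3 hx1
    have hcL : Cov B (L.erase v) := (h.covF L hL).mono (erase_subset _ _)
    have hcM : Cov B (insert b M) := h.cov.mono (by
      intro x hx
      rcases mem_insert.1 hx with rfl | hx
      · exact hbQ
      · exact h.FQ hM hx)
    have h2 := hfree.rho_le h.covD (hcL.union hcM) h1
    rw [sum_pair hne] at h2
    have h3 := rho_union_le hcL hcM
    have h4 := rho_erase_fc (h.ge.sys.fc L hL) (h.sv_leaf hL) hv
    have h5 := rho_insert_fc (h.ge.sys.fc M hM) (h.sv_leaf hM) hb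
      (fun hbM => hbD (h.FD hM hbM))
    omega
  have h6 := h.mtp.swap_third h.cov h.reg3 hj hi3
    (h.exch_dis hj hjQ hiQ (h.FD hL hv) (h.FD hL hv')) hrho
  have h7 := h6.2 k hk
  rwa [hset] at h7

/-- **exchange on one leaf.** -/
theorem exch_one [DecidableEq ι] (h : Frm B Q T U F) {i j : ι} (hj : j ∈ T) {a b c v v' : V}
    (hjQ : B j ∩ Q = {a, b, c}) (hiQ : B i ∩ Q = {a, v, v'}) (hi3 : (B i ∩ Q).card = 3)
    (hbi : b ∉ B i) (hci : c ∉ B i) {L : Finset V} (hL : L ∈ F)
    (hv : v ∈ L) (hv' : v' ∈ L) (habs : rho B (insert b (L \ {v, v'})) + 1 ≤ rho B L)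
    {k : ι} (hk : c ∈ B k) :
    (B k ∩ ((Dp B Q T \ {v, v'}) ∪ {b, c})).card ≤ 2 := by
  have haj : a ∈ B j := (mem_inter.1 (by rw [hjQ]; simp : a ∈ B j ∩ Q)).1
  have hbj : b ∈ B j := (mem_inter.1 (by rw [hjQ]; simp : b ∈ B j ∩ Q)).1
  have hcj : c ∈ B j := (mem_inter.1 (by rw [hjQ]; simp : c ∈ B j ∩ Q)).1
  have hbQ : b ∈ Q := (mem_inter.1 (by rw [hjQ]; simp : b ∈ B j ∩ Q)).2
  have haD := T_notD (Q := Q) hj haj
  have hset := exch_set hjQ hiQ (DQ (B := B) (Q := Q) (T := T)) haD hbi hci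
  have hrho : rho B (((Dp B Q T ∪ (B j ∩ Q)) \ B i).erase c) + 1 ≤ rho B (Dp B Q T) := by
    rw [hset]
    have h1 : ((Dp B Q T \ {v, v'}) ∪ {b, c}).erase c ⊆
        (Dp B Q T \ ({L} : Finset (Finset V)).biUnion id) ∪ insert b (L \ {v, v'}) := by
      intro x hx
      obtain ⟨hx1, hx2⟩ := mem_erase.1 hx
      rcases mem_union.1 hx2 with hx3 | hx3
      · obtain ⟨hx4, hx5⟩ := mem_sdiff.1 hx3
        by_cases hxL : x ∈ L
        · exact mem_union_right _ (mem_insert_of_mem (mem_sdiff.2 ⟨hxL, hx5⟩))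
        · refine mem_union_left _ (mem_sdiff.2 ⟨hx4, fun h6 => ?_⟩)
          obtain ⟨C, hC, hxC⟩ := mem_biUnion.1 h6
          rw [mem_singleton] at hC
          rw [hC] at hxC
          exact hxL hxC
      · rcases mem_insert.1 hx3 with rfl | hx3
        · exact mem_union_right _ (mem_insert_self _ _)
        · rw [mem_singleton] at hx3
          exact absurd hx3 hx1
    have hcL : Cov B (insert b (L \ {v, v'})) := h.cov.mono (by
      intro x hx
      rcases mem_insert.1 hx with rfl | hx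
      · exact hbQ
      · exact h.FQ hL (mem_sdiff.1 hx).1)
    have h2 := (h.frr_single hL).rho_le h.covD hcL h1
    rw [sum_singleton] at h2
    omega
  have h6 := h.mtp.swap_third h.cov h.reg3 hj hi3
    (h.exch_dis hj hjQ hiQ (h.FD hL hv) (h.FD hL hv')) hrho
  have h7 := h6.2 k hk
  rwa [hset] at h7

/-- the cover number of the part outside `E` with a leaf replaced by a subset. -/
theorem rho_noE (h : Frm B Q T U F) {C : Finset V} (hC : C ∈ F) {w : V} (hw : w ∈ C) :
    rho B ((Dp B Q T \ Ep B Q T U F).erase w) + 1 ≤ rho B (Dp B Q T \ Ep B Q T U F) := by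
  classical
  have : Nonempty V := ⟨w⟩
  obtain ⟨F1, φ, hF1, hcard, hφ, hinj, him⟩ := exists_match (h.ge.weak_erase C)
  have hsub : F.erase C ⊆ F := erase_subset _ _
  have hq' : U ∪ F.biUnion id ∪ Ep B Q T U F = Dp B Q T := h.ge.set_eq
  have hd : Disjoint (U ∪ F.biUnion id) (Ep B Q T U F) := by
    rw [disjoint_union_left]
    refine ⟨?_, disE⟩
    rw [disjoint_left]
    intro v hv hv'
    exact (mem_sdiff.1 (mem_sdiff.1 hv').1).2 hv
  have hDE : Dp B Q T \ Ep B Q T U F = U ∪ F.biUnion id := by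
    rw [← hq', union_sdiff_cancel_right hd]
  have hset : U ∪ (F.erase C).biUnion id ∪ C.erase w = (Dp B Q T \ Ep B Q T U F).erase w := by
    rw [hDE]
    ext v
    simp only [mem_union, mem_biUnion, mem_erase, id]
    constructor
    · rintro ((hv | ⟨C', ⟨hne, hC'⟩, hv⟩) | ⟨hvw, hv⟩)
      · refine ⟨?_, Or.inl hv⟩
        rintro rfl
        exact disjoint_left.1 (h.ge.FU C hC) hw hv
      · refine ⟨?_, Or.inr ⟨C', hC', hv⟩⟩
        rintro rfl
        exact disjoint_left.1 (h.ge.sys.disj C' hC' C hC hne) hv hw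
      · exact ⟨hvw, Or.inr ⟨C, hC, hv⟩⟩
    · rintro ⟨hvw, hv | ⟨C', hC', hv⟩⟩
      · exact Or.inl (Or.inl hv)
      · by_cases he : C' = C
        · exact Or.inr ⟨hvw, he ▸ hv⟩
        · exact Or.inl (Or.inr ⟨C', ⟨he, hC'⟩, hv⟩)
  have h1 := sv_ge_of_assignment (B := B) (A := U) (R := C.erase w) (F := F.erase C)
    (F1 := F1) (F2 := F.erase C \ F1) (F3 := ∅) (φ := φ)
    (by rw [hset]; exact h.covD.mono ((erase_subset _ _).trans sdiff_subset))
    (fun C' hC' => h.ge.sys.fc C' (hsub hC'))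
    (fun C' hC' C'' hC'' => h.ge.sys.disj C' (hsub hC') C'' (hsub hC''))
    (fun C' hC' => h.ge.FU C' (hsub hC'))
    (fun C' hC' => disjoint_of_subset_right (erase_subset _ _)
      (h.ge.sys.disj C' (hsub hC') C hC (mem_erase.1 hC').1))
    (disjoint_of_subset_right (erase_subset _ _) (h.ge.FU C hC).symm)
    (by rw [union_empty, union_sdiff_of_subset hF1]) disjoint_sdiff (disjoint_empty_right _)
    (disjoint_empty_right _) hφ hinj him (by simp)
  rw [hset, card_empty] at h1
  have h2 := card_sdiff_add_card_eq_card hF1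
  have h2' := card_erase_add_one hC
  have h3 := pm_sv_nonneg ((h.ge.sys.fc C hC).2 w hw)
  have h4 := h.rho_E
  have h5 := h.svE
  have h6 := h.svD
  have hED : Ep B Q T U F ⊆ Dp B Q T := ED
  have h7 := card_sdiff_add_card_eq_card hED
  have hwD : w ∈ Dp B Q T \ Ep B Q T U F := by
    rw [hDE]
    exact mem_union_right _ (mem_biUnion.2 ⟨C, hC, hw⟩)
  have h8 := card_erase_add_one hwD
  push_cast at h1
  unfold sv at h1 h3 h5 h6
  omega

/-- **a hit on an allowed pair of the even part**: the other points of the triple see no leaf. -/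
theorem even_hit [DecidableEq ι] (h : Frm B Q T U F) (hT : MTC B Q T) {i j : ι} (hj : j ∈ T)
    {a b c y y' : V} (hjQ : B j ∩ Q = {a, b, c}) (hiQ : B i ∩ Q = {a, y, y'})
    (hi3 : (B i ∩ Q).card = 3) (hbi : b ∉ B i) (hci : c ∉ B i) (hbc : b ≠ c)
    (hy : y ∈ Ep B Q T U F) (hy' : y' ∈ Ep B Q T U F) (hyy : y ≠ y')
    (hpm : PM (gr B) (Ep B Q T U F \ {y, y'})) {C : Finset V} (hC : C ∈ F) :
    ∀ w ∈ C, ¬ (gr B).Adj b w := by
  intro w hw hbw
  have haj : a ∈ B j := (mem_inter.1 (by rw [hjQ]; simp : a ∈ B j ∩ Q)).1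
  have hbj : b ∈ B j := (mem_inter.1 (by rw [hjQ]; simp : b ∈ B j ∩ Q)).1
  have hcj : c ∈ B j := (mem_inter.1 (by rw [hjQ]; simp : c ∈ B j ∩ Q)).1
  have hbQ : b ∈ Q := (mem_inter.1 (by rw [hjQ]; simp : b ∈ B j ∩ Q)).2
  have hcQ : c ∈ Q := (mem_inter.1 (by rw [hjQ]; simp : c ∈ B j ∩ Q)).2
  have haD := T_notD (Q := Q) hj haj
  have hbD := T_notD (Q := Q) hj hbj
  have hcD := T_notD (Q := Q) hj hcj
  have hED : Ep B Q T U F ⊆ Dp B Q T := ED
  have hset := exch_set hjQ hiQ (DQ (B := B) (Q := Q) (T := T)) haD hbi hci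
  set D := Dp B Q T with hD
  set E := Ep B Q T U F with hE
  have hcDE : Cov B (D \ E) := h.covD.mono sdiff_subset
  have hcE : Cov B (E \ {y, y'}) := (h.covD.mono hED).mono sdiff_subset
  have hsub2 : ({y, y'} : Finset V) ⊆ E := by
    intro v hv
    rcases mem_insert.1 hv with rfl | hv
    · exact hy
    · rw [mem_singleton] at hv
      rw [hv]
      exact hy'
  have hrE : rho B (E \ {y, y'}) + 1 ≤ rho B E := by
    have h1 := pm_sv_nonneg hpm
    have h2 := h.svE
    have h3 := card_sdiff_add_card_eq_card hsub2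
    rw [card_pair hyy] at h3
    rw [← hE] at h2
    unfold sv at h1 h2
    omega
  have hsplit := h.rho_E
  rw [← hD, ← hE] at hsplit
  have hcbc : Cov B ({b, c} : Finset V) := by
    intro x hx
    rcases mem_insert.1 hx with rfl | hx
    · exact ⟨j, hbj⟩
    · rw [mem_singleton] at hx
      rw [hx]
      exact ⟨j, hcj⟩
  have hrbc : rho B ({b, c} : Finset V) ≤ 1 := by
    refine rho_le_one (i := j) ?_
    intro x hx
    rcases mem_insert.1 hx with rfl | hx
    · exact hbj
    · rw [mem_singleton] at hx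
      rw [hx]
      exact hcj
  -- the exchanged packing
  have hrho : rho B ((D ∪ (B j ∩ Q)) \ B i) ≤ rho B D := by
    rw [hset]
    have h1 : (D \ {y, y'}) ∪ {b, c} ⊆ ((D \ E) ∪ (E \ {y, y'})) ∪ {b, c} := by
      refine union_subset_union ?_ (Subset.refl _)
      intro x hx
      obtain ⟨h1, h2⟩ := mem_sdiff.1 hx
      by_cases h3 : x ∈ E
      · exact mem_union_right _ (mem_sdiff.2 ⟨h3, h2⟩)
      · exact mem_union_left _ (mem_sdiff.2 ⟨h1, h3⟩)
    have h2 := rho_mono h1 ((hcDE.union hcE).union hcbc)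
    have h3 := rho_union_le (hcDE.union hcE) hcbc
    have h4 := rho_union_le hcDE hcE
    omega
  obtain ⟨hM, hMset⟩ := h.mtp.swap h.cov hj hi3
    (h.exch_dis hj hjQ hiQ (hED hy) (hED hy')) hrho
  rw [← hD] at hMset
  rw [hset] at hMset
  have hrnew : rho B ((D \ {y, y'}) ∪ {b, c}) = rho B D := by
    have h1 := hM.tpk.opt
    have h2 := h.mtp.tpk.opt
    have h3 := hM.max _ h.mtp.tpk
    have h4 := h.mtp.max _ hM.tpk
    have h5 : Q \ (insert i (T.erase j)).biUnion B = (D \ {y, y'}) ∪ {b, c} := hMset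
    have h6 : Q \ T.biUnion B = D := rfl
    rw [h5] at h1
    rw [h6] at h2
    omega
  -- all the points of the leaves and `c` are critical
  have hcrit : ∀ v ∈ insert c (F.biUnion id), v ∈ (D \ {y, y'}) ∪ {b, c} ∧
      rho B (((D \ {y, y'}) ∪ {b, c}).erase v) + 1 = rho B ((D \ {y, y'}) ∪ {b, c}) := by
    intro v hv
    have hcovn : Cov B ((D \ {y, y'}) ∪ {b, c}) :=
      (h.covD.mono sdiff_subset).union hcbc
    have hlow := rho_le_erase (x := v) hcovn
    rcases mem_insert.1 hv with rfl | hv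
    · refine ⟨by simp, ?_⟩
      have h1 : ((D \ {y, y'}) ∪ {b, v}).erase v ⊆
          (((D \ E).erase w) ∪ (E \ {y, y'})) ∪ {b, w} := by
        intro x hx
        obtain ⟨hx1, hx2⟩ := mem_erase.1 hx
        rcases mem_union.1 hx2 with hx3 | hx3
        · obtain ⟨hx4, hx5⟩ := mem_sdiff.1 hx3
          by_cases hxE : x ∈ E
          · exact mem_union_left _ (mem_union_right _ (mem_sdiff.2 ⟨hxE, hx5⟩))
          by_cases hxw : x = w
          · exact mem_union_right _ (by simp [hxw])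
          · exact mem_union_left _ (mem_union_left _
              (mem_erase.2 ⟨hxw, mem_sdiff.2 ⟨hx4, hxE⟩⟩))
        · rcases mem_insert.1 hx3 with rfl | hx3
          · exact mem_union_right _ (by simp)
          · rw [mem_singleton] at hx3
            exact absurd hx3 hx1
      obtain ⟨_, l, hbl, hwl⟩ := hbw
      have hsubl : ({b, w} : Finset V) ⊆ B l := by
        intro x hx
        rcases mem_insert.1 hx with rfl | hx
        · exact hbl
        · rw [mem_singleton] at hx
          rw [hx]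
          exact hwl
      have hcw : Cov B ({b, w} : Finset V) := cov_of_sub_block hsubl
      have hrw := rho_le_one hsubl
      have hce : Cov B ((D \ E).erase w) := hcDE.mono (erase_subset _ _)
      have h2 := rho_mono h1 ((hce.union hcE).union hcw)
      have h3 := rho_union_le (hce.union hcE) hcw
      have h4 := rho_union_le hce hcE
      have h5 := h.rho_noE hC hw
      rw [← hD, ← hE] at h5
      omega
    · obtain ⟨C', hC', hvC'⟩ := mem_biUnion.1 hv
      have hvD : v ∈ D := h.FD hC' hvC'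
      have hvE : v ∉ E := fun h1 => disjoint_left.1 (h.ge.FE C' hC') hvC' h1
      have hvy : v ∉ ({y, y'} : Finset V) := fun h1 => hvE (hsub2 h1)
      refine ⟨mem_union_left _ (mem_sdiff.2 ⟨hvD, hvy⟩), ?_⟩
      have h1 : ((D \ {y, y'}) ∪ {b, c}).erase v ⊆
          (((D \ E).erase v) ∪ (E \ {y, y'})) ∪ {b, c} := by
        intro x hx
        obtain ⟨hx1, hx2⟩ := mem_erase.1 hx
        rcases mem_union.1 hx2 with hx3 | hx3
        · obtain ⟨hx4, hx5⟩ := mem_sdiff.1 hx3
          by_cases hxE : x ∈ E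
          · exact mem_union_left _ (mem_union_right _ (mem_sdiff.2 ⟨hxE, hx5⟩))
          · exact mem_union_left _ (mem_union_left _
              (mem_erase.2 ⟨hx1, mem_sdiff.2 ⟨hx4, hxE⟩⟩))
        · exact mem_union_right _ hx3
      have hce : Cov B ((D \ E).erase v) := hcDE.mono (erase_subset _ _)
      have h2 := rho_mono h1 ((hce.union hcE).union hcbc)
      have h3 := rho_union_le (hce.union hcE) hcbc
      have h4 := rho_union_le hce hcE
      have h5 := h.rho_noE hC' hvC'
      rw [← hD, ← hE] at h5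
      omega
  have hbig : (F.biUnion id).card + 1 ≤ ncr B Q (insert i (T.erase j)) := by
    have hcF : c ∉ F.biUnion id := by
      intro h1
      obtain ⟨C', hC', hcC'⟩ := mem_biUnion.1 h1
      exact hcD (h.FD hC' hcC')
    rw [← card_insert_of_notMem hcF]
    unfold ncr
    rw [hMset]
    refine card_le_card fun v hv => ?_
    rw [mem_filter]
    exact hcrit v hv
  have h1 := hT.top _ hM
  rw [h.ncr_eq] at h1
  omega

end Frm

end Pool.Agent.Hyp6
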