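import Pool.Agent.Hyp6.L3X4
import Pool.Agent.Hyp6.L3K4

/-!
# HYP6 L3X5: leaves with three points and nine blocks, conclusion

`Lt3.le7`: a full block has at most seven hits on a part with three points, cover number two and nine
blocks. `ViolR.le7`: the form for a leaf of a frame.
-/

set_option autoImplicit false

namespace Pool.Agent.Hyp6

open Finset Pool.Agent.Hyp5

universe u v

variable {V : Type v} [DecidableEq V] {ι : Type u} [Fintype ι] {B : ι → Finset V}

namespace Lt3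

variable {Q L : Finset V} {j0 : ι} {p q r : V}

/-- labelling of the points by the number of single blocks. -/
theorem exists_sorted (h : Lt3 B Q L j0) : ∃ p q r, L = {p, q, r} ∧ p ≠ q ∧ p ≠ r ∧ q ≠ r ∧
    k1 B (tch B L) q p r ≤ k1 B (tch B L) p q r ∧ k1 B (tch B L) r p q ≤ k1 B (tch B L) q p r := by
  obtain ⟨x, y, z, hxy, hxz, hyz, hL⟩ := card_eq_three.1 h.cL
  set f := k1 B (tch B L) x y z with hf
  set g := k1 B (tch B L) y x z with hg
  set k := k1 B (tch B L) z x y with hk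
  have hf' : k1 B (tch B L) x z y = f := k1_comm _ _ _ _
  have hg' : k1 B (tch B L) y z x = g := k1_comm _ _ _ _
  have hk' : k1 B (tch B L) z y x = k := k1_comm _ _ _ _
  have perm : ∀ {p q r : V}, (∀ v, v ∈ ({p, q, r} : Finset V) ↔ v ∈ ({x, y, z} : Finset V)) →
      L = {p, q, r} := fun h1 => by
    rw [hL]
    ext v
    exact (h1 v).symm
  rcases le_total f g with h1 | h1 <;> rcases le_total f k with h2 | h2 <;>
    rcases le_total g k with h3 | h3
  · exact ⟨z, y, x, perm fun v => by simp only [mem_insert, mem_singleton]; tauto, hyz.symm,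
      hxz.symm, hxy.symm, by rw [hg', hk']; exact h3, by rw [hf', hg']; exact h1⟩
  · exact ⟨y, z, x, perm fun v => by simp only [mem_insert, mem_singleton]; tauto, hyz, hxy.symm,
      hxz.symm, by rw [hk', hg']; exact h3, by rw [← hf, hk']; exact h2⟩
  · exact ⟨z, y, x, perm fun v => by simp only [mem_insert, mem_singleton]; tauto, hyz.symm,
      hxz.symm, hxy.symm, by rw [hg', hk']; exact h3, by rw [hf', hg']; exact h1⟩
  · exact ⟨y, x, z, perm fun v => by simp only [mem_insert, mem_singleton]; tauto, hxy.symm, hyz,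
      hxz, by rw [← hf, ← hg]; exact h1, by rw [hk', ← hf]; exact h2⟩
  · exact ⟨z, x, y, perm fun v => by simp only [mem_insert, mem_singleton]; tauto, hxz.symm,
      hyz.symm, hxy, by rw [hf', ← hk]; exact h2, by rw [hg', hf']; exact h1⟩
  · exact ⟨y, x, z, perm fun v => by simp only [mem_insert, mem_singleton]; tauto, hxy.symm, hyz,
      hxz, by rw [← hf, ← hg]; omega, by rw [hk', ← hf]; omega⟩
  · exact ⟨x, z, y, perm fun v => by simp only [mem_insert, mem_singleton]; tauto, hxz, hxy,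
      hyz.symm, by rw [← hk, hf']; exact h2, by rw [← hg, ← hk]; exact h3⟩
  · exact ⟨x, y, z, hL, hxy, hxz, hyz, h1, h3⟩

/-- refused points with disjoint hits. -/
theorem disj (h : Lt3 B Q L j0) (hL : L = {p, q, r}) (hpq : p ≠ q) (hpr : p ≠ r) (hqr : q ≠ r)
    {a x : V} (hna : ¬ Abz B L {a, x}) : Disjoint (Ez B L a) (Ez B L x) := by
  obtain ⟨_, n1, n2, n3, _⟩ := h.nums hL hpq hpr hqr
  rw [disjoint_left]
  intro i hi hi'
  obtain ⟨ha, w, hw⟩ := mem_Ez.1 hi
  have hx := (mem_Ez.1 hi').1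
  obtain ⟨hw1, hw2⟩ := mem_inter.1 hw
  have hax : ∀ j, ({a, x} : Finset V) ⊆ B i ∪ B j := by
    intro j v hv
    simp only [mem_insert, mem_singleton] at hv
    rcases hv with rfl | rfl
    · exact mem_union_left _ ha
    · exact mem_union_left _ hx
  rw [hL] at hw2
  simp only [mem_insert, mem_singleton] at hw2
  rcases hw2 with rfl | rfl | rfl
  · obtain ⟨j, hj⟩ := card_pos.1 (by unfold k2 at n1; omega :
      0 < ((tch B L).filter (fun i => q ∈ B i ∧ r ∈ B i)).card)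
    obtain ⟨_, h2, h3⟩ := mem_filter.1 hj
    refine hna (h.abz (i := i) (j := j) ?_ (hax j))
    rw [hL]
    intro v hv
    simp only [mem_insert, mem_singleton] at hv
    rcases hv with rfl | rfl | rfl
    · exact mem_union_left _ hw1
    · exact mem_union_right _ h2
    · exact mem_union_right _ h3
  · obtain ⟨j, hj⟩ := card_pos.1 (by unfold k2 at n2; omega :
      0 < ((tch B L).filter (fun i => p ∈ B i ∧ r ∈ B i)).card)
    obtain ⟨_, h2, h3⟩ := mem_filter.1 hj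
    refine hna (h.abz (i := i) (j := j) ?_ (hax j))
    rw [hL]
    intro v hv
    simp only [mem_insert, mem_singleton] at hv
    rcases hv with rfl | rfl | rfl
    · exact mem_union_right _ h2
    · exact mem_union_left _ hw1
    · exact mem_union_right _ h3
  · obtain ⟨j, hj⟩ := card_pos.1 (by unfold k2 at n3; omega :
      0 < ((tch B L).filter (fun i => p ∈ B i ∧ q ∈ B i)).card)
    obtain ⟨_, h2, h3⟩ := mem_filter.1 hj
    refine hna (h.abz (i := i) (j := j) ?_ (hax j))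
    rw [hL]
    intro v hv
    simp only [mem_insert, mem_singleton] at hv
    rcases hv with rfl | rfl | rfl
    · exact mem_union_right _ h2
    · exact mem_union_right _ h3
    · exact mem_union_left _ hw1

omit [Fintype ι] in
/-- two sets of blocks cover the part. -/
theorem cov2 (hL : L = {p, q, r}) {i j : ι} (hp : p ∈ B i ∨ p ∈ B j) (hq : q ∈ B i ∨ q ∈ B j)
    (hr : r ∈ B i ∨ r ∈ B j) : L ⊆ B i ∪ B j := by
  rw [hL]
  intro v hv
  simp only [mem_insert, mem_singleton] at hv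
  rcases hv with rfl | rfl | rfl
  · exact mem_union.2 hp
  · exact mem_union.2 hq
  · exact mem_union.2 hr

/-- the pattern of a refused pair with four and two hits. -/
theorem pat (h : Lt3 B Q L j0) (hL : L = {p, q, r}) (hpq : p ≠ q) (hpr : p ≠ r) (hqr : q ≠ r)
    (h1 : k1 B (tch B L) q p r ≤ k1 B (tch B L) p q r)
    (h2 : k1 B (tch B L) r p q ≤ k1 B (tch B L) q p r) {a x : V} (hna : ¬ Abz B L {a, x})
    (ha : (Ez B L a).card = 4) (hx : (Ez B L x).card = 2) :
    k1 B (tch B L) p q r = 2 ∧ k1 B (tch B L) q p r = 1 ∧ k1 B (tch B L) r p q = 0 ∧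
    k2 B (Ez B L a) p q = 1 ∧ k2 B (Ez B L a) p r = 2 ∧ k2 B (Ez B L a) q r = 0 ∧
    k1 B (Ez B L a) p q r = 0 ∧ k1 B (Ez B L a) q p r = 1 ∧ k1 B (Ez B L x) p q r = 2 ∧
    k1 B (Ez B L x) q p r = 0 ∧ k2 B (Ez B L x) p q = 0 ∧ k2 B (Ez B L x) p r = 0 ∧
    k2 B (Ez B L x) q r = 0 := by
  classical
  obtain ⟨n0, n1, n2, n3, n4, _, _⟩ := h.nums hL hpq hpr hqr
  have hsub : ∀ v, Ez B L v ⊆ tch B L := fun v i hi => cost_mem_tch.2 (mem_Ez.1 hi).2
  have hd := h.disj hL hpq hpr hqr hna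
  have ca := h.cls hL (hsub a)
  have cx := h.cls hL (hsub x)
  rw [ha] at ca
  rw [hx] at cx
  have g : ∀ (P : ι → Prop) [DecidablePred P], ((Ez B L a).filter P).card +
      ((Ez B L x).filter P).card ≤ ((tch B L).filter P).card := fun P _ =>
    add_le hd (hsub a) (hsub x) P
  have g1 := g (fun i => p ∈ B i ∧ q ∉ B i ∧ r ∉ B i)
  have g2 := g (fun i => q ∈ B i ∧ p ∉ B i ∧ r ∉ B i)
  have g3 := g (fun i => r ∈ B i ∧ p ∉ B i ∧ q ∉ B i)
  have g12 := g (fun i => p ∈ B i ∧ q ∈ B i)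
  have g13 := g (fun i => p ∈ B i ∧ r ∈ B i)
  have g23 := g (fun i => q ∈ B i ∧ r ∈ B i)
  have d1 := h.ref hna (P := fun i => q ∈ B i ∧ r ∈ B i)
    (P' := fun i => p ∈ B i ∧ q ∉ B i ∧ r ∉ B i)
    (fun i j hi hj => cov2 hL (Or.inr hj.1) (Or.inl hi.1) (Or.inl hi.2))
  have d2 := h.ref hna (P := fun i => p ∈ B i ∧ r ∈ B i)
    (P' := fun i => q ∈ B i ∧ p ∉ B i ∧ r ∉ B i)
    (fun i j hi hj => cov2 hL (Or.inl hi.1) (Or.inr hj.1) (Or.inl hi.2))
  have d3 := h.ref hna (P := fun i => p ∈ B i ∧ q ∈ B i)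
    (P' := fun i => r ∈ B i ∧ p ∉ B i ∧ q ∉ B i)
    (fun i j hi hj => cov2 hL (Or.inl hi.1) (Or.inl hi.2) (Or.inr hj.1))
  have e1 := h.ref hna (P := fun i => p ∈ B i ∧ q ∉ B i ∧ r ∉ B i)
    (P' := fun i => q ∈ B i ∧ r ∈ B i)
    (fun i j hi hj => cov2 hL (Or.inl hi.1) (Or.inr hj.1) (Or.inr hj.2))
  have e2 := h.ref hna (P := fun i => q ∈ B i ∧ p ∉ B i ∧ r ∉ B i)
    (P' := fun i => p ∈ B i ∧ r ∈ B i)
    (fun i j hi hj => cov2 hL (Or.inr hj.1) (Or.inl hi.1) (Or.inr hj.2))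
  have e3 := h.ref hna (P := fun i => r ∈ B i ∧ p ∉ B i ∧ q ∉ B i)
    (P' := fun i => p ∈ B i ∧ q ∈ B i)
    (fun i j hi hj => cov2 hL (Or.inr hj.1) (Or.inr hj.2) (Or.inl hi.1))
  have f1 := h.ref hna (P := fun i => p ∈ B i ∧ q ∈ B i) (P' := fun i => p ∈ B i ∧ r ∈ B i)
    (fun i j hi hj => cov2 hL (Or.inl hi.1) (Or.inl hi.2) (Or.inr hj.2))
  have f2 := h.ref hna (P := fun i => p ∈ B i ∧ q ∈ B i) (P' := fun i => q ∈ B i ∧ r ∈ B i)
    (fun i j hi hj => cov2 hL (Or.inl hi.1) (Or.inl hi.2) (Or.inr hj.2))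
  have f3 := h.ref hna (P := fun i => p ∈ B i ∧ r ∈ B i) (P' := fun i => p ∈ B i ∧ q ∈ B i)
    (fun i j hi hj => cov2 hL (Or.inl hi.1) (Or.inr hj.2) (Or.inl hi.2))
  have f4 := h.ref hna (P := fun i => p ∈ B i ∧ r ∈ B i) (P' := fun i => q ∈ B i ∧ r ∈ B i)
    (fun i j hi hj => cov2 hL (Or.inl hi.1) (Or.inr hj.1) (Or.inl hi.2))
  have f5 := h.ref hna (P := fun i => q ∈ B i ∧ r ∈ B i) (P' := fun i => p ∈ B i ∧ q ∈ B i)
    (fun i j hi hj => cov2 hL (Or.inr hj.1) (Or.inl hi.1) (Or.inl hi.2))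
  have f6 := h.ref hna (P := fun i => q ∈ B i ∧ r ∈ B i) (P' := fun i => p ∈ B i ∧ r ∈ B i)
    (fun i j hi hj => cov2 hL (Or.inr hj.1) (Or.inl hi.1) (Or.inl hi.2))
  have e := num422 (s1 := k1 B (tch B L) p q r) (s2 := k1 B (tch B L) q p r)
    (s3 := k1 B (tch B L) r p q) (a1 := k1 B (Ez B L a) p q r) (a2 := k1 B (Ez B L a) q p r)
    (a3 := k1 B (Ez B L a) r p q) (a12 := k2 B (Ez B L a) p q) (a13 := k2 B (Ez B L a) p r)
    (a23 := k2 B (Ez B L a) q r) (x1 := k1 B (Ez B L x) p q r) (x2 := k1 B (Ez B L x) q p r)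
    (x3 := k1 B (Ez B L x) r p q) (x12 := k2 B (Ez B L x) p q) (x13 := k2 B (Ez B L x) p r)
    (x23 := k2 B (Ez B L x) q r) n0 h1 h2 n4 ca.symm cx.symm g1 g2 g3
    (by rw [← n3]; exact g12) (by rw [← n2]; exact g13) (by rw [← n1]; exact g23)
    d1 d2 d3 e1 e2 e3 f1 f2 f3 f4 f5 f6
  exact e

/-- the row `4, 2, 2`. -/
theorem row422 (h : Lt3 B Q L j0) (h8 : 8 ≤ hit B (B j0 ∩ Q) L) {a b c : V}
    (hT : B j0 ∩ Q = {a, b, c}) (hab : a ≠ b) (hac : a ≠ c) (hbc : b ≠ c)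
    (ha : (Ez B L a).card = 4) (hb : (Ez B L b).card = 2) (hc : (Ez B L c).card = 2) : False := by
  classical
  have hnab : ¬ Abz B L {a, b} := by
    have h1 := h.refuse h8 (t := c) (by rw [hT]; simp) (by omega)
    have h2 : (B j0 ∩ Q).erase c = {a, b} := by
      rw [hT]
      ext v
      simp only [mem_erase, mem_insert, mem_singleton]
      constructor
      · tauto
      · rintro (rfl | rfl)
        · exact ⟨hac, Or.inl rfl⟩
        · exact ⟨hbc, Or.inr (Or.inl rfl)⟩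
    rwa [h2] at h1
  have hnac : ¬ Abz B L {a, c} := by
    have h1 := h.refuse h8 (t := b) (by rw [hT]; simp) (by omega)
    have h2 : (B j0 ∩ Q).erase b = {a, c} := by
      rw [hT]
      ext v
      simp only [mem_erase, mem_insert, mem_singleton]
      constructor
      · tauto
      · rintro (rfl | rfl)
        · exact ⟨hab, Or.inl rfl⟩
        · exact ⟨hbc.symm, Or.inr (Or.inr rfl)⟩
    rwa [h2] at h1
  obtain ⟨p, q, r, hL, hpq, hpr, hqr, s1, s2⟩ := h.exists_sorted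
  obtain ⟨n0, n1, n2, n3, n4, _, _⟩ := h.nums hL hpq hpr hqr
  obtain ⟨u1, u2, u3, u4, u5, u6, u7, u8, u9, u10, u11, u12, u13⟩ :=
    h.pat hL hpq hpr hqr s1 s2 hnab ha hb
  obtain ⟨_, _, _, _, _, _, _, _, v9, v10, v11, v12, v13⟩ :=
    h.pat hL hpq hpr hqr s1 s2 hnac ha hc
  have hsub : ∀ v, Ez B L v ⊆ tch B L := fun v i hi => cost_mem_tch.2 (mem_Ez.1 hi).2
  have hpL : p ∈ L := by rw [hL]; simp
  have hqL : q ∈ L := by rw [hL]; simp
  have hrL : r ∈ L := by rw [hL]; simp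
  -- all blocks of a class
  have hfull : ∀ (v : V) (P : ι → Prop) [DecidablePred P],
      ((tch B L).filter P).card ≤ ((Ez B L v).filter P).card →
      ∀ i, (B i ∩ L).Nonempty → P i → v ∈ B i := by
    intro v P _ hc i hi hP
    have h1 := eq_of_subset_of_card_le (filter_subset_filter P (hsub v)) hc
    have h2 : i ∈ (tch B L).filter P := mem_filter.2 ⟨cost_mem_tch.2 hi, hP⟩
    rw [← h1] at h2
    exact (mem_Ez.1 (mem_filter.1 h2).1).1
  have hnone : ∀ (v : V) (P : ι → Prop) [DecidablePred P], ((Ez B L v).filter P).card = 0 →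
      ∀ i, (B i ∩ L).Nonempty → P i → v ∉ B i := by
    intro v P _ hc i hi hP hv
    rw [card_eq_zero] at hc
    have h2 : i ∈ (Ez B L v).filter P := mem_filter.2 ⟨mem_Ez.2 ⟨hv, hi⟩, hP⟩
    rw [hc] at h2
    exact notMem_empty _ h2
  obtain ⟨t2, ht2⟩ := card_pos.1 (by unfold k1 at u8; omega :
    0 < ((Ez B L a).filter (fun i => q ∈ B i ∧ p ∉ B i ∧ r ∉ B i)).card)
  obtain ⟨ht2a, ht2q, ht2p, ht2r⟩ := mem_filter.1 ht2
  obtain ⟨ip, hip⟩ := card_pos.1 (by unfold k1 at u1; omega :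
    0 < ((tch B L).filter (fun i => p ∈ B i ∧ q ∉ B i ∧ r ∉ B i)).card)
  obtain ⟨_, hip1, hip2, hip3⟩ := mem_filter.1 hip
  obtain ⟨ir, hir⟩ := card_pos.1 (by unfold k2 at n2; omega :
    0 < ((tch B L).filter (fun i => p ∈ B i ∧ r ∈ B i)).card)
  obtain ⟨_, hir1, hir2⟩ := mem_filter.1 hir
  have hmp : ∀ i, p ∈ B i → (B i ∩ L).Nonempty := fun i hi => ⟨p, mem_inter.2 ⟨hi, hpL⟩⟩
  have hmq : ∀ i, q ∈ B i → (B i ∩ L).Nonempty := fun i hi => ⟨q, mem_inter.2 ⟨hi, hqL⟩⟩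
  have hmr : ∀ i, r ∈ B i → (B i ∩ L).Nonempty := fun i hi => ⟨r, mem_inter.2 ⟨hi, hrL⟩⟩
  have hX : X2c B Q L j0 p q r a b c t2 :=
    { lt := h
      hL := hL
      pq := hpq
      pr := hpr
      qr := hqr
      hT := hT
      ab := hab
      ac := hac
      bc := hbc
      kpq := fun i h1 h2 => hfull a (fun i => p ∈ B i ∧ q ∈ B i) (by
        unfold k2 at u4 n3
        rw [u4]
        omega) i (hmp i h1) ⟨h1, h2⟩
      kpr := fun i h1 h2 => hfull a (fun i => p ∈ B i ∧ r ∈ B i) (by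
        unfold k2 at u5 n2
        rw [u5]
        omega) i (hmp i h1) ⟨h1, h2⟩
      kqr := fun i h1 h2 => ⟨hnone a (fun i => q ∈ B i ∧ r ∈ B i) u6 i (hmq i h1) ⟨h1, h2⟩,
        hnone b (fun i => q ∈ B i ∧ r ∈ B i) u13 i (hmq i h1) ⟨h1, h2⟩,
        hnone c (fun i => q ∈ B i ∧ r ∈ B i) v13 i (hmq i h1) ⟨h1, h2⟩⟩
      sp := fun i h1 h2 h3 => ⟨hfull b (fun i => p ∈ B i ∧ q ∉ B i ∧ r ∉ B i) (by
        unfold k1 at u1 u9
        rw [u1, u9]) i (hmp i h1) ⟨h1, h2, h3⟩, hfull c (fun i => p ∈ B i ∧ q ∉ B i ∧ r ∉ B i) (by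
        unfold k1 at u1 v9
        rw [u1, v9]) i (hmp i h1) ⟨h1, h2, h3⟩⟩
      sq := fun i h1 h2 h3 => by
        unfold k1 at u2
        obtain ⟨w, hw⟩ := card_eq_one.1 u2
        have h4 : i ∈ (tch B L).filter (fun i => q ∈ B i ∧ p ∉ B i ∧ r ∉ B i) :=
          mem_filter.2 ⟨cost_mem_tch.2 (hmq i h1), h1, h2, h3⟩
        have h5 : t2 ∈ (tch B L).filter (fun i => q ∈ B i ∧ p ∉ B i ∧ r ∉ B i) :=
          mem_filter.2 ⟨hsub a ht2a, ht2q, ht2p, ht2r⟩
        rw [hw, mem_singleton] at h4 h5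
        rw [h4, h5]
      sr := fun i h1 => by
        by_contra hcon
        push Not at hcon
        unfold k1 at u3
        rw [card_eq_zero] at u3
        have h4 : i ∈ (tch B L).filter (fun i => r ∈ B i ∧ p ∉ B i ∧ q ∉ B i) :=
          mem_filter.2 ⟨cost_mem_tch.2 (hmr i h1), h1, hcon.1, hcon.2⟩
        rw [u3] at h4
        exact notMem_empty _ h4
      q2 := ht2q
      a2 := (mem_Ez.1 ht2a).1
      b2 := hnone b (fun i => q ∈ B i ∧ p ∉ B i ∧ r ∉ B i) u10 t2 (hmq t2 ht2q)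
        ⟨ht2q, ht2p, ht2r⟩
      c2 := hnone c (fun i => q ∈ B i ∧ p ∉ B i ∧ r ∉ B i) v10 t2 (hmq t2 ht2q)
        ⟨ht2q, ht2p, ht2r⟩
      n23 := by rw [n1, u1]
      exp := ⟨ip, hip1, hip2, hip3⟩
      exr := ⟨ir, hir1, hir2⟩
      hb := hb
      hc := hc
      dv3 := by
        have h1 := h.hits
        have h2 := h.out_pos
        have h3 : ee B Q L = 0 := by omega
        unfold dv
        rw [h.PvL, h3]
        norm_num }
  exact hX.false

/-- **at most seven hits.** -/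
theorem le7 (h : Lt3 B Q L j0) : hit B (B j0 ∩ Q) L ≤ 7 := by
  classical
  by_contra hcon
  have h8 : 8 ≤ hit B (B j0 ∩ Q) L := by omega
  have h1 := h.hits
  have h2 := h.out_pos
  obtain ⟨a, b, c, hab, hac, hbc, hT⟩ := card_eq_three.1 h.c3
  have hTb : B j0 ∩ Q = {b, a, c} := by
    rw [hT]
    exact insert_comm _ _ _
  have hTc : B j0 ∩ Q = {c, a, b} := by
    rw [hT]
    clear h1 h2
    ext v
    simp only [mem_insert, mem_singleton]
    tauto
  have hsum : hit B (B j0 ∩ Q) L = (Ez B L a).card + ((Ez B L b).card + (Ez B L c).card) := by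
    rw [hit_eq_Ez, hT, sum_insert (by simp [hab, hac]), sum_pair hbc]
  have haT : a ∈ B j0 ∩ Q := by rw [hT]; simp
  have hbT : b ∈ B j0 ∩ Q := by rw [hT]; simp
  have hcT : c ∈ B j0 ∩ Q := by rw [hT]; simp
  have fa := h.four haT
  have fb := h.four hbT
  have fc := h.four hcT
  have er : ∀ {x y t : V}, (∀ v, v ∈ ({x, y, t} : Finset V) ↔ v ∈ ({a, b, c} : Finset V)) →
      x ≠ t → y ≠ t → (B j0 ∩ Q).erase t = {x, y} := by
    intro x y t hv hx hy
    ext v
    rw [mem_erase, hT, ← hv v]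
    simp only [mem_insert, mem_singleton]
    constructor
    · tauto
    · rintro (rfl | rfl)
      · exact ⟨hx, Or.inl rfl⟩
      · exact ⟨hy, Or.inr (Or.inl rfl)⟩
  have key : ∀ {x y t : V}, x ∈ B j0 ∩ Q → y ∈ B j0 ∩ Q → t ∈ B j0 ∩ Q → x ≠ y →
      (B j0 ∩ Q).erase t = {x, y} → 3 ≤ (Ez B L x).card → 3 ≤ (Ez B L y).card →
      4 ≤ (Ez B L t).card := by
    intro x y t hx hy ht hxy he h3 h4
    by_contra h5
    have h6 := h.refuse h8 ht (by omega)
    rw [he] at h6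
    exact h6 (h.cp3.pt2b (h.dvL_le.trans (by norm_num)) (mem_inter.1 hx).2 (h.out hx)
      (mem_inter.1 hy).2 (h.out hy) hxy h3 h4)
  have k1' := key haT hbT hcT hab (er (fun v => Iff.rfl) hac hbc)
  have k2' := key haT hcT hbT hac (er (fun v => by
    simp only [mem_insert, mem_singleton]
    tauto) hab hbc.symm)
  have k3' := key hbT hcT haT hbc (er (fun v => by
    simp only [mem_insert, mem_singleton]
    tauto) hab.symm hac.symm)
  have hcases : ((Ez B L a).card = 4 ∧ (Ez B L b).card = 2 ∧ (Ez B L c).card = 2) ∨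
      ((Ez B L b).card = 4 ∧ (Ez B L a).card = 2 ∧ (Ez B L c).card = 2) ∨
      ((Ez B L c).card = 4 ∧ (Ez B L a).card = 2 ∧ (Ez B L b).card = 2) := by
    have q1 : (Ez B L a).card + (Ez B L b).card + (Ez B L c).card ≤ 11 := by omega
    have q2 : 8 ≤ (Ez B L a).card + (Ez B L b).card + (Ez B L c).card := by omega
    clear h1 h2 hsum h8 hcon key er
    rcases Nat.lt_or_ge (Ez B L a).card 3 with r1 | r1
    · rcases Nat.lt_or_ge (Ez B L b).card 3 with r2 | r2
      · right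
        right
        clear k1' k2' k3'
        omega
      · rcases Nat.lt_or_ge (Ez B L c).card 3 with r3 | r3
        · right
          left
          clear k1' k2' k3'
          omega
        · have r4 := k3' r2 r3
          omega
    · rcases Nat.lt_or_ge (Ez B L b).card 3 with r2 | r2
      · rcases Nat.lt_or_ge (Ez B L c).card 3 with r3 | r3
        · left
          clear k1' k2' k3'
          omega
        · have r4 := k2' r1 r3
          omega
      · have r4 := k1' r1 r2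
        have r5 := k2' r1 (by omega)
        have r6 := k3' r2 (by omega)
        clear k1' k2' k3'
        omega
  rcases hcases with ⟨e1, e2, e3⟩ | ⟨e1, e2, e3⟩ | ⟨e1, e2, e3⟩
  · exact h.row422 h8 hT hab hac hbc e1 e2 e3
  · exact h.row422 h8 hTb hab.symm hbc hac e1 e2 e3
  · exact h.row422 h8 hTc hac.symm hbc.symm hab e1 e2 e3

end Lt3

namespace ViolR

variable {Q U : Finset V} {T : Finset ι} {F : Finset (Finset V)}

/-- a leaf with three points and nine blocks. -/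
theorem lt3 (hv : ViolR B Q) (h : Frm B Q T U F) {j0 : ι} (hj0 : j0 ∈ T) {L : Finset V}
    (hL : L ∈ F) (hL3 : L.card = 3) (h9 : cm B L = 9) : Lt3 B Q L j0 where
  viol := hv
  c3 := h.full hj0
  LQ := fun _ hvL => mem_sdiff.2 ⟨h.FQ hL hvL, fun h1 => (h.T_out hj0 h1).2 L hL hvL⟩
  conn := ⟨(h.ge.sys.fc L hL).1, fun _ hZ hne => (h.ge.sys.fc L hL).conn hZ hne⟩
  crit := fun v hv => le_antisymm (rho_erase_fc (h.ge.sys.fc L hL) (h.sv_leaf hL) hv)
    (rho_le_erase (x := v) (h.cov.mono (h.FQ hL)))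
  svL := h.sv_leaf hL
  cL := hL3
  cmL := h9

/-- **a triple has at most seven hits on a leaf with three points and nine blocks.** -/
theorem le7 (hv : ViolR B Q) (h : Frm B Q T U F) {j0 : ι} (hj0 : j0 ∈ T) {L : Finset V}
    (hL : L ∈ F) (hL3 : L.card = 3) (h9 : cm B L = 9) : hit B (B j0 ∩ Q) L ≤ 7 :=
  (hv.lt3 h hj0 hL hL3 h9).le7

end ViolR

end Pool.Agent.Hyp6
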