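import Pool.Agent.Hyp6.Gdw2
import Pool.Agent.Hyp6.L3X5

/-!
# HYP6 GD33: the context of the tables for a leaf of type (3;3)

`exists_blk`: a set with given numbers of blocks for every trace has a block list. `Lt3.exists_gx33`:
the context of the tables for a leaf with three points and nine blocks.
-/

set_option autoImplicit false

namespace Pool.Agent.Hyp6

open Finset Pool.Agent.Hyp5 Gdx

universe u v

variable {V : Type v} [DecidableEq V] {ι : Type u} [Fintype ι] {B : ι → Finset V}

open Classical in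
/-- the blocks with the trace `A` on the points `zt`. -/
noncomputable def trm (B : ι → Finset V) (zt : ℕ → V) (zn A : ℕ) : Finset ι :=
  univ.filter (fun i => ∀ z < zn, (zt z ∈ B i ↔ A.testBit z = true))

theorem mem_trm {zt : ℕ → V} {zn A : ℕ} {i : ι} :
    i ∈ trm B zt zn A ↔ ∀ z < zn, (zt z ∈ B i ↔ A.testBit z = true) := by
  unfold trm
  simp only [mem_filter, mem_univ, true_and]

/-- **a block list from the numbers of blocks for every trace.** -/
theorem exists_blk {Z : Finset V} {zn : ℕ} {zt : ℕ → V} {zm : List ℕ} [Nonempty ι]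
    (hmem : ∀ v, v ∈ Z ↔ ∃ z < zn, zt z = v)
    (hinj : ∀ z < zn, ∀ z' < zn, zt z = zt z' → z = z')
    (hlt : ∀ A ∈ zm, A < 2 ^ zn ∧ A ≠ 0)
    (hc : ∀ A < 2 ^ zn, A ≠ 0 → (trm B zt zn A).card = zm.count A) :
    ∃ bl, Blk B Z zn zm bl zt := by
  classical
  have hdi : DecidableEq ι := inferInstance
  have : Inhabited ι := ⟨Classical.arbitrary ι⟩
  choose f hf1 hf2 using fun i : ι => exists_msk zn (fun z => zt z ∈ B i)
  set S := (univ : Finset ι).filter (fun i => (B i ∩ Z).Nonempty) with hS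
  have hf0 : ∀ i, f i ≠ 0 ↔ (B i ∩ Z).Nonempty := by
    intro i
    constructor
    · intro h1
      obtain ⟨z, hz⟩ := Nat.exists_testBit_of_ne_zero h1
      have hzn : z < zn := by
        by_contra h2
        have h3 : (f i).testBit z = false := Nat.testBit_lt_two_pow
          (lt_of_lt_of_le (hf1 i) (Nat.pow_le_pow_right (by norm_num) (by omega)))
        rw [h3] at hz
        exact absurd hz (by simp)
      exact ⟨zt z, mem_inter.2 ⟨(hf2 i z hzn).1 hz, (hmem _).2 ⟨z, hzn, rfl⟩⟩⟩
    · rintro ⟨v, hv⟩ h1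
      obtain ⟨hv1, hv2⟩ := mem_inter.1 hv
      obtain ⟨z, hz, rfl⟩ := (hmem v).1 hv2
      have h2 := (hf2 i z hz).2 hv1
      rw [h1] at h2
      simp at h2
  have hcnt : ∀ A, (S.filter (fun i => f i = A)).card = zm.count A := by
    intro A
    by_cases hA : A < 2 ^ zn ∧ A ≠ 0
    · rw [← hc A hA.1 hA.2]
      congr 1
      ext i
      rw [mem_trm]
      simp only [hS, mem_filter, mem_univ, true_and]
      constructor
      · rintro ⟨_, h2⟩ z hz
        rw [← h2]
        exact (hf2 i z hz).symm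
      · intro h1
        have h2 : f i = A := by
          refine Nat.eq_of_testBit_eq fun z => ?_
          by_cases hz : z < zn
          · rw [Bool.eq_iff_iff, hf2 i z hz]
            exact h1 z hz
          · rw [Nat.testBit_lt_two_pow (lt_of_lt_of_le (hf1 i)
              (Nat.pow_le_pow_right (by norm_num) (by omega))),
              Nat.testBit_lt_two_pow (lt_of_lt_of_le hA.1
              (Nat.pow_le_pow_right (by norm_num) (by omega)))]
        exact ⟨(hf0 i).1 (by rw [h2]; exact hA.2), h2⟩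
    · have h1 : S.filter (fun i => f i = A) = ∅ := by
        rw [filter_eq_empty_iff]
        intro i hi h2
        refine hA ⟨by rw [← h2]; exact hf1 i, ?_⟩
        rw [← h2]
        exact (hf0 i).2 (mem_filter.1 hi).2
      have h2 : zm.count A = 0 := List.count_eq_zero.2 fun h3 => hA (hlt A h3)
      rw [h1, h2, card_empty]
  obtain ⟨e, e1, e2, e3, e4⟩ := exists_enum_count S f hcnt 0
  refine ⟨e, ⟨hmem, hinj, e2, fun b hb z hz => ?_, fun b hb => (mem_filter.1 (e1 b hb)).2,
    fun i hi => e4 i (mem_filter.2 ⟨mem_univ _, hi⟩)⟩⟩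
  rw [← e3 b hb]
  exact hf2 (e b) z hz

/-- the blocks of the symmetric leaf of type (3;3). -/
abbrev z33a : List ℕ := [3, 3, 5, 5, 6, 6, 1, 2, 4]
/-- the blocks of the leaf of type (3;3) with two single blocks at one point. -/
abbrev z33b : List ℕ := [3, 5, 5, 6, 6, 6, 1, 1, 2]

namespace Lt3

variable {Q L : Finset V} {j0 : ι}

/-- **the block list of a leaf of type (3;3)**. -/
theorem exists_blocks (h : Lt3 B Q L j0) :
    ∃ zm, (zm = z33a ∨ zm = z33b) ∧ ∃ bl zt, Blk B L 3 zm bl zt := by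
  classical
  obtain ⟨p, q, r, hL, hpq, hpr, hqr, h1, h2⟩ := h.exists_sorted
  have h3 := h.nums hL hpq hpr hqr
  have hne : Nonempty ι := ⟨j0⟩
  set zt : ℕ → V := fun z => if z = 0 then p else if z = 1 then q else r with hzt
  have z0 : zt 0 = p := rfl
  have z1 : zt 1 = q := rfl
  have z2 : zt 2 = r := rfl
  have hmem : ∀ v, v ∈ L ↔ ∃ z < 3, zt z = v := by
    intro v
    rw [hL, mem_insert, mem_insert, mem_singleton]
    constructor
    · rintro (rfl | rfl | rfl)
      · exact ⟨0, by norm_num, z0⟩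
      · exact ⟨1, by norm_num, z1⟩
      · exact ⟨2, by norm_num, z2⟩
    · rintro ⟨z, hz, rfl⟩
      have hz3 : z = 0 ∨ z = 1 ∨ z = 2 := by omega
      rcases hz3 with rfl | rfl | rfl
      · exact Or.inl z0
      · exact Or.inr (Or.inl z1)
      · exact Or.inr (Or.inr z2)
  have hinj : ∀ z < 3, ∀ z' < 3, zt z = zt z' → z = z' := by
    intro z hz z' hz' he
    have hz3 : z = 0 ∨ z = 1 ∨ z = 2 := by omega
    have hz3' : z' = 0 ∨ z' = 1 ∨ z' = 2 := by omega
    rcases hz3 with rfl | rfl | rfl <;> rcases hz3' with rfl | rfl | rfl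
    · rfl
    · rw [z0, z1] at he
      exact absurd he hpq
    · rw [z0, z2] at he
      exact absurd he hpr
    · rw [z1, z0] at he
      exact absurd he.symm hpq
    · rfl
    · rw [z1, z2] at he
      exact absurd he hqr
    · rw [z2, z0] at he
      exact absurd he.symm hpr
    · rw [z2, z1] at he
      exact absurd he.symm hqr
    · rfl
  have hno3 := h.not3
  have hall : ∀ i, ¬ (p ∈ B i ∧ q ∈ B i ∧ r ∈ B i) := by
    rintro i ⟨h4, h5, h6⟩
    refine hno3 i ?_
    rw [hL]
    intro v hv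
    simp only [mem_insert, mem_singleton] at hv
    rcases hv with rfl | rfl | rfl
    · exact h4
    · exact h5
    · exact h6
  -- the masks
  have hbit : ∀ (A : ℕ) (i : ι), (∀ z < 3, (zt z ∈ B i ↔ A.testBit z = true)) ↔
      ((p ∈ B i ↔ A.testBit 0 = true) ∧ (q ∈ B i ↔ A.testBit 1 = true) ∧
        (r ∈ B i ↔ A.testBit 2 = true)) := by
    intro A i
    constructor
    · intro h4
      exact ⟨h4 0 (by norm_num), h4 1 (by norm_num), h4 2 (by norm_num)⟩
    · rintro ⟨h4, h5, h6⟩ z hz
      have hz3 : z = 0 ∨ z = 1 ∨ z = 2 := by omega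
      rcases hz3 with rfl | rfl | rfl
      · exact h4
      · exact h5
      · exact h6
  have hm1 : (trm B zt 3 1).card =
      k1 B (tch B L) p q r := by
    unfold k1
    congr 1
    ext i
    rw [mem_trm, hbit, mem_filter, cost_mem_tch]
    have t0 : (1 : ℕ).testBit 0 = true := by decide
    have t1 : (1 : ℕ).testBit 1 = false := by decide
    have t2 : (1 : ℕ).testBit 2 = false := by decide
    rw [t0, t1, t2]
    simp only [iff_true, Bool.false_eq_true, iff_false]
    constructor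
    · rintro ⟨h4, h5, h6⟩
      exact ⟨⟨p, mem_inter.2 ⟨h4, (hmem p).2 ⟨0, by norm_num, z0⟩⟩⟩, h4, h5, h6⟩
    · rintro ⟨_, h4, h5, h6⟩
      exact ⟨h4, h5, h6⟩
  have hm2 : (trm B zt 3 2).card =
      k1 B (tch B L) q p r := by
    unfold k1
    congr 1
    ext i
    rw [mem_trm, hbit, mem_filter, cost_mem_tch]
    have t0 : (2 : ℕ).testBit 0 = false := by decide
    have t1 : (2 : ℕ).testBit 1 = true := by decide
    have t2 : (2 : ℕ).testBit 2 = false := by decide
    rw [t0, t1, t2]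
    simp only [iff_true, Bool.false_eq_true, iff_false]
    constructor
    · rintro ⟨h4, h5, h6⟩
      exact ⟨⟨q, mem_inter.2 ⟨h5, (hmem q).2 ⟨1, by norm_num, z1⟩⟩⟩, h5, h4, h6⟩
    · rintro ⟨_, h4, h5, h6⟩
      exact ⟨h5, h4, h6⟩
  have hm4 : (trm B zt 3 4).card =
      k1 B (tch B L) r p q := by
    unfold k1
    congr 1
    ext i
    rw [mem_trm, hbit, mem_filter, cost_mem_tch]
    have t0 : (4 : ℕ).testBit 0 = false := by decide
    have t1 : (4 : ℕ).testBit 1 = false := by decide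
    have t2 : (4 : ℕ).testBit 2 = true := by decide
    rw [t0, t1, t2]
    simp only [iff_true, Bool.false_eq_true, iff_false]
    constructor
    · rintro ⟨h4, h5, h6⟩
      exact ⟨⟨r, mem_inter.2 ⟨h6, (hmem r).2 ⟨2, by norm_num, z2⟩⟩⟩, h6, h4, h5⟩
    · rintro ⟨_, h4, h5, h6⟩
      exact ⟨h5, h6, h4⟩
  have hm3 : (trm B zt 3 3).card =
      k2 B (tch B L) p q := by
    unfold k2
    congr 1
    ext i
    rw [mem_trm, hbit, mem_filter, cost_mem_tch]
    have t0 : (3 : ℕ).testBit 0 = true := by decide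
    have t1 : (3 : ℕ).testBit 1 = true := by decide
    have t2 : (3 : ℕ).testBit 2 = false := by decide
    rw [t0, t1, t2]
    simp only [iff_true, Bool.false_eq_true, iff_false]
    constructor
    · rintro ⟨h4, h5, h6⟩
      exact ⟨⟨p, mem_inter.2 ⟨h4, (hmem p).2 ⟨0, by norm_num, z0⟩⟩⟩, h4, h5⟩
    · rintro ⟨_, h4, h5⟩
      exact ⟨h4, h5, fun h6 => hall i ⟨h4, h5, h6⟩⟩
  have hm5 : (trm B zt 3 5).card =
      k2 B (tch B L) p r := by
    unfold k2
    congr 1
    ext i
    rw [mem_trm, hbit, mem_filter, cost_mem_tch]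
    have t0 : (5 : ℕ).testBit 0 = true := by decide
    have t1 : (5 : ℕ).testBit 1 = false := by decide
    have t2 : (5 : ℕ).testBit 2 = true := by decide
    rw [t0, t1, t2]
    simp only [iff_true, Bool.false_eq_true, iff_false]
    constructor
    · rintro ⟨h4, h5, h6⟩
      exact ⟨⟨p, mem_inter.2 ⟨h4, (hmem p).2 ⟨0, by norm_num, z0⟩⟩⟩, h4, h6⟩
    · rintro ⟨_, h4, h6⟩
      exact ⟨h4, fun h5 => hall i ⟨h4, h5, h6⟩, h6⟩
  have hm6 : (trm B zt 3 6).card =
      k2 B (tch B L) q r := by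
    unfold k2
    congr 1
    ext i
    rw [mem_trm, hbit, mem_filter, cost_mem_tch]
    have t0 : (6 : ℕ).testBit 0 = false := by decide
    have t1 : (6 : ℕ).testBit 1 = true := by decide
    have t2 : (6 : ℕ).testBit 2 = true := by decide
    rw [t0, t1, t2]
    simp only [iff_true, Bool.false_eq_true, iff_false]
    constructor
    · rintro ⟨h4, h5, h6⟩
      exact ⟨⟨q, mem_inter.2 ⟨h5, (hmem q).2 ⟨1, by norm_num, z1⟩⟩⟩, h5, h6⟩
    · rintro ⟨_, h5, h6⟩
      exact ⟨fun h4 => hall i ⟨h4, h5, h6⟩, h5, h6⟩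
  have hm7 : (trm B zt 3 7).card = 0 := by
    rw [card_eq_zero]
    refine eq_empty_of_forall_notMem fun i h4 => ?_
    rw [mem_trm, hbit] at h4
    have t0 : (7 : ℕ).testBit 0 = true := by decide
    have t1 : (7 : ℕ).testBit 1 = true := by decide
    have t2 : (7 : ℕ).testBit 2 = true := by decide
    rw [t0, t1, t2] at h4
    exact hall i ⟨h4.1.2 rfl, h4.2.1.2 rfl, h4.2.2.2 rfl⟩
  have key : ∀ zm : List ℕ, (∀ A ∈ zm, A < 2 ^ 3 ∧ A ≠ 0) →
      k1 B (tch B L) p q r = zm.count 1 → k1 B (tch B L) q p r = zm.count 2 →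
      k1 B (tch B L) r p q = zm.count 4 → k2 B (tch B L) p q = zm.count 3 →
      k2 B (tch B L) p r = zm.count 5 → k2 B (tch B L) q r = zm.count 6 → 0 = zm.count 7 →
      ∃ bl zt, Blk B L 3 zm bl zt := by
    intro zm hz c1 c2 c4 c3 c5 c6 c7
    obtain ⟨bl, hb⟩ := exists_blk hmem hinj hz (fun A hA hA0 => by
      have hA8 : A = 1 ∨ A = 2 ∨ A = 3 ∨ A = 4 ∨ A = 5 ∨ A = 6 ∨ A = 7 := by
        have : A < 8 := hA
        omega
      rcases hA8 with rfl | rfl | rfl | rfl | rfl | rfl | rfl
      · exact hm1.trans c1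
      · exact hm2.trans c2
      · exact hm3.trans c3
      · exact hm4.trans c4
      · exact hm5.trans c5
      · exact hm6.trans c6
      · exact hm7.trans c7)
    exact ⟨bl, zt, hb⟩
  rcases Nat.lt_or_ge (k1 B (tch B L) p q r) 2 with h4 | h4
  · refine ⟨z33a, Or.inl rfl, key z33a (by decide) ?_ ?_ ?_ ?_ ?_ ?_ rfl⟩
    · show _ = 1
      omega
    · show _ = 1
      omega
    · show _ = 1
      omega
    · show _ = 2
      omega
    · show _ = 2
      omega
    · show _ = 2
      omega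
  · refine ⟨z33b, Or.inr rfl, key z33b (by decide) ?_ ?_ ?_ ?_ ?_ ?_ rfl⟩
    · show _ = 2
      omega
    · show _ = 1
      omega
    · show _ = 0
      omega
    · show _ = 1
      omega
    · show _ = 2
      omega
    · show _ = 3
      omega

/-- the number of contact places. -/
theorem hit12 (h : Lt3 B Q L j0) : hit B (Q \ L) L + fs B Q L = 12 := by
  have h4 := hit_add_fsQ (B := B) (h.viol.reg.mono h.LQ') h.LQ'
  have h5 : hc B L = 12 := by
    unfold Hyp6.hc
    rw [h.cmL, h.cL]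
    norm_num
  rw [h5] at h4
  exact h4

/-- **the context of a leaf of type (3;3)** with at least nine hits. -/
theorem exists_gx33 (h : Lt3 B Q L j0) (h9 : 9 ≤ hit B (Q \ L) L) :
    ∃ zm, (zm = z33a ∨ zm = z33b) ∧ ∃ hT hW bl ct zt, Lbl B Q L j0 hT hW ct ∧
      9 ≤ hT.sum + hW.sum ∧ hT.sum + hW.sum ≤ 12 ∧
      Gdx.Gx B Q L (Pgx 3 2 13 13 zm hT hW) bl ct zt (fun _ => j0) := by
  classical
  obtain ⟨zm, hzm, bl, zt, hb⟩ := h.exists_blocks
  have hjL : ¬ (B j0 ∩ L).Nonempty := by
    rintro ⟨v, hv⟩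
    obtain ⟨hv1, hv2⟩ := mem_inter.1 hv
    exact h.out (mem_inter.2 ⟨hv1, h.LQ' hv2⟩) hv2
  obtain ⟨hT, hW, ct, hl⟩ := exists_labels h.c3 hjL
  have hsum := hl.sum_all hjL
  have h12 := h.hit12
  have hee : ee B Q L = 0 := by
    have h6 := four_ee_le_fs (B := B) (Q := Q) (W := L) h.viol.tr
    by_contra h7
    have h8 : (1 : ℤ) ≤ ee B Q L := by
      have : 1 ≤ ee B Q L := Nat.one_le_iff_ne_zero.2 h7
      exact_mod_cast this
    omega
  have hlen : hW.length ≤ hW.sum := by
    have : ∀ l : List ℕ, (∀ x ∈ l, 1 ≤ x) → l.length ≤ l.sum := by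
      intro l
      induction l with
      | nil => intro _; simp
      | cons x t ih =>
        intro hx
        rw [List.length_cons, List.sum_cons]
        have h2 := ih fun y hy => hx y (List.mem_cons_of_mem _ hy)
        have h3 := hx x List.mem_cons_self
        omega
    exact this hW hl.posW
  have hfs : (0 : ℤ) ≤ fs B Q L := by
    have h6 := four_ee_le_fs (B := B) (Q := Q) (W := L) h.viol.tr
    have h7 : (0 : ℤ) ≤ ee B Q L := by positivity
    linarith
  refine ⟨zm, hzm, hT, hW, bl, ct, zt, hl, by rw [hsum]; exact h9, by rw [hsum]; omega, ?_⟩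
  refine hl.gx hb h.viol h.LQ' (card_pos.1 (by rw [h.cL]; norm_num)) h.c3 (by omega) h.rhoL ?_ ?_
  · unfold dv
    rw [hee, h.PvL]
    norm_num
  · rw [h.PvL]
    norm_num

end Lt3

end Pool.Agent.Hyp6
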