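import Pool.Agent.Hyp6.Gdw3

/-!
# HYP6 GDW4: the list of the hit vectors

`cand`: all possible hit vectors of a triple and of the other contact points. `NoX`: the instance does
not occur. `Frm.gx_list31`: a leaf of type (3;1) and a triple with at least four hits have one of the
vectors of the list `exc`, if all the others are excluded.
-/

set_option autoImplicit false

namespace Pool.Agent.Hyp6

open Finset Pool.Agent.Hyp5 Gdx Rup

universe u v

/-- decreasing lists of positive numbers, sum at most `n`, entries at most `m`. -/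
def prt : ℕ → ℕ → ℕ → List (List ℕ)
  | 0, _, _ => [[]]
  | f + 1, n, m => [] :: (List.range (min m n)).flatMap
      (fun k => (prt f (n - (k + 1)) (k + 1)).map (fun l => (k + 1) :: l))

theorem mem_prt : ∀ (f n m : ℕ) (l : List ℕ), l.Pairwise (fun a b => b ≤ a) →
    (∀ x ∈ l, 1 ≤ x ∧ x ≤ m) → l.sum ≤ n → l.length ≤ f → l ∈ prt f n m := by
  intro f
  induction f with
  | zero =>
    intro n m l _ _ _ hl
    have : l = [] := List.length_eq_zero_iff.1 (by omega)
    rw [this]
    exact List.mem_cons_self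
  | succ f ih =>
    intro n m l hd hx hs hl
    rcases l with _ | ⟨a, t⟩
    · exact List.mem_cons_self
    · obtain ⟨h1, h2⟩ := hx a List.mem_cons_self
      rw [List.sum_cons] at hs
      rw [List.length_cons] at hl
      rw [List.pairwise_cons] at hd
      refine List.mem_cons_of_mem _ (List.mem_flatMap.2 ⟨a - 1, List.mem_range.2 ?_, ?_⟩)
      · rw [lt_min_iff]
        omega
      · rw [show a - 1 + 1 = a by omega]
        refine List.mem_map.2 ⟨t, ih (n - a) a t hd.2 (fun x hx' => ⟨(hx x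
          (List.mem_cons_of_mem _ hx')).1, hd.1 x hx'⟩) (by omega) (by omega), rfl⟩

/-- decreasing triples with entries at most `m`. -/
def tri (m : ℕ) : List (List ℕ) :=
  (List.range (m + 1)).flatMap (fun a => (List.range (a + 1)).flatMap
    (fun b => (List.range (b + 1)).map (fun c => [a, b, c])))

theorem mem_tri {m : ℕ} {l : List ℕ} (h3 : l.length = 3) (hd : l.Pairwise (fun a b => b ≤ a))
    (hm : ∀ x ∈ l, x ≤ m) : l ∈ tri m := by
  rcases l with _ | ⟨a, _ | ⟨b, _ | ⟨c, _ | ⟨d, t⟩⟩⟩⟩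
  · simp at h3
  · simp at h3
  · simp at h3
  · rw [List.pairwise_cons, List.pairwise_cons] at hd
    have h1 := hd.1 b List.mem_cons_self
    have h2 := hd.2.1 c List.mem_cons_self
    have h4 := hm a List.mem_cons_self
    refine List.mem_flatMap.2 ⟨a, List.mem_range.2 (by omega), List.mem_flatMap.2
      ⟨b, List.mem_range.2 (by omega), List.mem_map.2 ⟨c, List.mem_range.2 (by omega), rfl⟩⟩⟩
  · simp at h3

/-- all hit vectors with at least `lo` hits of the triple and at most `s` hits in all. -/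
def cand (lo s : ℕ) : List (List ℕ × List ℕ) :=
  ((tri 4).filter (fun t => decide (lo ≤ t.sum))).flatMap
    (fun t => ((prt s (s - t.sum) 5).filter (fun w => decide (t.sum + w.sum ≤ s))).map
      (fun w => (t, w)))

section

variable {V : Type v} [DecidableEq V] {ι : Type u} [Fintype ι] {B : ι → Finset V}

/-- the hit vector of labels is in the list. -/
theorem Lbl.mem_cand {Q Z : Finset V} {j : ι} {hT hW : List ℕ} {ct : ℕ → V}
    (hl : Lbl B Q Z j hT hW ct) (hr : Reg B Q) (hjZ : ¬ (B j ∩ Z).Nonempty) {lo s : ℕ}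
    (hlo : lo ≤ hT.sum) (hs : hT.sum + hW.sum ≤ s) : (hT, hW) ∈ cand lo s := by
  classical
  have h5 : ∀ x ∈ Q, (Ez B Z x).card ≤ 5 := by
    intro x hx
    have h1 : (univ.filter (fun i => x ∈ B i)).card = 5 := hr x hx
    rw [← h1]
    exact card_le_card fun i hi => mem_filter.2 ⟨mem_univ _, (mem_Ez.1 hi).1⟩
  have h4 : ∀ x ∈ B j ∩ Q, (Ez B Z x).card ≤ 4 := by
    intro x hx
    obtain ⟨hxj, hxQ⟩ := mem_inter.1 hx
    have h1 : (univ.filter (fun i => x ∈ B i)).card = 5 := hr x hxQ
    have h2 : Ez B Z x ⊆ (univ.filter (fun i => x ∈ B i)).erase j := by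
      intro i hi
      obtain ⟨h3, h6⟩ := mem_Ez.1 hi
      refine mem_erase.2 ⟨?_, mem_filter.2 ⟨mem_univ _, h3⟩⟩
      rintro rfl
      exact hjZ h6
    have hjm : j ∈ univ.filter (fun i => x ∈ B i) := mem_filter.2 ⟨mem_univ _, hxj⟩
    have h3 := card_le_card h2
    rw [card_erase_of_mem hjm, h1] at h3
    exact h3
  have hlen : hW.length ≤ hW.sum := by
    have : ∀ l : List ℕ, (∀ x ∈ l, 1 ≤ x) → l.length ≤ l.sum := by
      intro l
      induction l with
      | nil => intro _; simp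
      | cons x t ih =>
        intro hx
        rw [List.length_cons, List.sum_cons]
        have h2 := ih fun y hy => hx y (List.mem_cons_of_mem _ hy)
        have h3 := hx x List.mem_cons_self
        omega
    exact this hW hl.posW
  have hT4 : ∀ x ∈ hT, x ≤ 4 := by
    intro x hx
    obtain ⟨a, ha, rfl⟩ := List.getElem_of_mem hx
    have ha3 : a < 3 := by rw [← hl.lenT]; exact ha
    have h1 := hl.hits a (by omega)
    rw [List.getD_append _ _ _ _ ha, List.getD_eq_getElem _ _ ha] at h1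
    rw [← h1]
    exact h4 _ ((hl.trip _).2 ⟨a, ha3, rfl⟩)
  have hW5 : ∀ x ∈ hW, 1 ≤ x ∧ x ≤ 5 := by
    intro x hx
    refine ⟨hl.posW x hx, ?_⟩
    obtain ⟨a, ha, rfl⟩ := List.getElem_of_mem hx
    have h1 := hl.hits (3 + a) (by omega)
    rw [List.getD_append_right _ _ _ _ (by rw [hl.lenT]; omega), hl.lenT,
      show 3 + a - 3 = a by omega, List.getD_eq_getElem _ _ ha] at h1
    rw [← h1]
    exact h5 _ (hl.memQ (3 + a) (by omega)).1
  refine List.mem_flatMap.2 ⟨hT, List.mem_filter.2 ⟨mem_tri hl.lenT hl.desT hT4, by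
    simpa using hlo⟩, List.mem_map.2 ⟨hW, List.mem_filter.2 ⟨mem_prt s _ 5 hW hl.desW hW5
    (by omega) (by omega), by simpa using hs⟩, rfl⟩⟩

end

/-- the instance does not occur at a leaf. -/
def NoX (V : Type v) [DecidableEq V] (ι : Type u) [Fintype ι] [DecidableEq ι] (zn r d0 pz : ℕ)
    (zm : List ℕ) (p : List ℕ × List ℕ) : Prop :=
  ∀ (B : ι → Finset V) (Q U L : Finset V) (T : Finset ι) (F : Finset (Finset V)) (j : ι)
    (ct zt : ℕ → V) (bl : ℕ → ι), Frm B Q T U F → ViolR B Q → L ∈ F → j ∈ T →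
    Lbl B Q L j p.1 p.2 ct →
    Gdx.Gx B Q L (Pgx zn r d0 pz zm p.1 p.2) bl ct zt (fun _ => j) → False

section

variable {V : Type v} [DecidableEq V] {ι : Type u} [Fintype ι] [DecidableEq ι]

/-- an instance from its check. -/
theorem noX_of {zn r d0 pz : ℕ} {zm hT hW : List ℕ} {given : List (List ℕ)} {bs : List Gb}
    {ks : List Gk} {nm db : Tr} {cnf : List (List ℕ)} {prf : List ℕ}
    (hb : instX (Pgx zn r d0 pz zm hT hW) given bs ks nm cnf db prf = true)
    (hgv : given.all (okg d0 hT hW) = true) : NoX V ι zn r d0 pz zm (hT, hW) :=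
  fun _ _ _ _ _ _ _ _ _ _ h hv hL hj hl hg => hl.no h hv hL hj hg hgv hb

variable {B : ι → Finset V}

/-- the check of the lists: every vector is excluded by A2, by `S0`, or is in one of the two lists. -/
def chkL (lo s d0 : ℕ) (need exc : List (List ℕ × List ℕ)) : Bool :=
  (cand lo s).all (fun p => decide (p.2.sum ≤ 1) || s0t d0 p.1 p.2 || need.contains p ||
    exc.contains p)

/-- **the exceptional hit vectors of a leaf of type (3;1)**. -/
theorem Frm.gx_list31 {Q U L : Finset V} {T : Finset ι} {F : Finset (Finset V)}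
    (h : Frm B Q T U F) (hv : ViolR B Q) (hL : L ∈ F) (hc3 : L.card = 3) (h1 : nt B L 1 = 1)
    {j : ι} (hj : j ∈ T) {lo : ℕ} (hlo : lo ≤ hit B (B j ∩ Q) L)
    (hout : 2 ≤ hit B ((Q \ L) \ B j) L) {need exc : List (List ℕ × List ℕ)}
    (hno : ∀ p ∈ need, NoX V ι 3 2 9 9 [3, 3, 3, 5, 5, 6, 6, 4] p)
    (hchk : chkL lo 9 9 need exc = true) :
    ∃ hT hW bl ct zt, Lbl B Q L j hT hW ct ∧
      Gdx.Gx B Q L (P31 hT hW) bl ct zt (fun _ => j) ∧ (hT, hW) ∈ exc := by
  classical
  have hjL : ¬ (B j ∩ L).Nonempty := by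
    rintro ⟨v, hv'⟩
    obtain ⟨h2, h3⟩ := mem_inter.1 hv'
    exact (h.T_out hj (mem_inter.2 ⟨h2, h.FQ hL h3⟩)).2 L hL h3
  obtain ⟨hT, hW, bl, ct, zt, hl, hs, hg⟩ := h.exists_gx31 hv hL hc3 h1 (h.full hj) hjL
  refine ⟨hT, hW, bl, ct, zt, hl, hg, ?_⟩
  have hmem := hl.mem_cand hv.reg hjL (lo := lo) (s := 9) (by rw [hl.sumT]; exact hlo) hs
  have h2 := List.all_eq_true.1 hchk _ hmem
  simp only [Bool.or_eq_true, decide_eq_true_eq, List.contains_iff_mem] at h2
  rcases h2 with ((h2 | h2) | h2) | h2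
  · rw [hl.sumW] at h2
    omega
  · exact (hl.s0 h hv hL hj hg.d0 h2).elim
  · exact (hno _ h2 B Q U L T F j ct zt bl h hv hL hj hl hg).elim
  · exact h2

end

end Pool.Agent.Hyp6
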