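import Pool.Agent.Hyp6.Gd33
import Pool.Agent.Hyp6.Gdw4

/-!
# HYP6 GD34: the list of the hit vectors for a leaf of type (3;3)

`Frm.gx_list33`: a leaf of type (3;3) and a triple with at least seven hits have one of the vectors of
the list `exc`, if all the others are excluded.
-/

set_option autoImplicit false

namespace Pool.Agent.Hyp6

open Finset Pool.Agent.Hyp5 Gdx Rup

universe u v

variable {V : Type v} [DecidableEq V] {ι : Type u} [Fintype ι] [DecidableEq ι] {B : ι → Finset V}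

/-- the check of the lists with exact number of hits of the triple. -/
def chkL7 (lo s d0 : ℕ) (need exc : List (List ℕ × List ℕ)) : Bool :=
  (cand lo s).all (fun p => Nat.blt lo p.1.sum || decide (p.2.sum ≤ 1) || s0t d0 p.1 p.2 ||
    need.contains p || exc.contains p)

/-- **the exceptional hit vectors of a leaf of type (3;3)**, seven hits of the triple. -/
theorem Frm.gx_list33 {Q U L : Finset V} {T : Finset ι} {F : Finset (Finset V)}
    (h : Frm B Q T U F) (hv : ViolR B Q) (hL : L ∈ F) (hL3 : L.card = 3) (h9 : cm B L = 9)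
    {j : ι} (hj : j ∈ T) (h7 : 7 ≤ hit B (B j ∩ Q) L)
    (hout : 2 ≤ hit B ((Q \ L) \ B j) L) {na nb exc : List (List ℕ × List ℕ)}
    (hna : ∀ p ∈ na, NoX V ι 3 2 13 13 z33a p) (hnb : ∀ p ∈ nb, NoX V ι 3 2 13 13 z33b p)
    (hca : chkL7 7 12 13 na exc = true) (hcb : chkL7 7 12 13 nb exc = true) :
    ∃ zm, (zm = z33a ∨ zm = z33b) ∧ ∃ hT hW bl ct zt, Lbl B Q L j hT hW ct ∧
      Gdx.Gx B Q L (Pgx 3 2 13 13 zm hT hW) bl ct zt (fun _ => j) ∧ (hT, hW) ∈ exc := by
  classical
  have hl3 := hv.lt3 h hj hL hL3 h9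
  have hle7 := hl3.le7
  have hjL : ¬ (B j ∩ L).Nonempty := by
    rintro ⟨v, hv'⟩
    obtain ⟨h2, h3⟩ := mem_inter.1 hv'
    exact (h.T_out hj (mem_inter.2 ⟨h2, h.FQ hL h3⟩)).2 L hL h3
  have hall : 9 ≤ hit B (Q \ L) L := by
    obtain ⟨hT, hW, ct, hl⟩ := exists_labels (B := B) (Q := Q) (Z := L) hl3.c3 hjL
    have h1 := hl.sum_all hjL
    have h2 := hl.sumT
    have h3 := hl.sumW
    omega
  obtain ⟨zm, hzm, hT, hW, bl, ct, zt, hl, hs9, hs12, hg⟩ := hl3.exists_gx33 hall
  refine ⟨zm, hzm, hT, hW, bl, ct, zt, hl, hg, ?_⟩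
  have hmem := hl.mem_cand hv.reg hjL (lo := 7) (s := 12) (by rw [hl.sumT]; exact h7) hs12
  have key : ∀ need : List (List ℕ × List ℕ), (∀ p ∈ need, NoX V ι 3 2 13 13 zm p) →
      chkL7 7 12 13 need exc = true → (hT, hW) ∈ exc := by
    intro need hno hchk
    have h2 := List.all_eq_true.1 hchk _ hmem
    simp only [Bool.or_eq_true, decide_eq_true_eq, List.contains_iff_mem, Nat.blt_eq] at h2
    rcases h2 with (((h2 | h2) | h2) | h2) | h2
    · rw [hl.sumT] at h2
      omega
    · rw [hl.sumW] at h2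
      omega
    · exact (hl.s0 h hv hL hj hg.d0 h2).elim
    · exact (hno _ h2 B Q U L T F j ct zt bl h hv hL hj hl hg).elim
    · exact h2
  rcases hzm with rfl | rfl
  · exact key na hna hca
  · exact key nb hnb hcb

end Pool.Agent.Hyp6
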