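import Pool.Agent.Hyp6.L4Abs

/-!
# HYP6 L4F: the absorption facts F1, F2, F3
-/

set_option autoImplicit false

namespace Pool.Agent.Hyp6

open Finset Pool.Agent.Hyp5

universe u v

variable {V : Type v} [DecidableEq V] {ι : Type u} [Fintype ι] {B : ι → Finset V}

/-- the blocks of `z` meeting `C`. -/
def Ez (B : ι → Finset V) (C : Finset V) (z : V) : Finset ι :=
  univ.filter (fun i => z ∈ B i ∧ (B i ∩ C).Nonempty)

theorem mem_Ez {C : Finset V} {z : V} {i : ι} : i ∈ Ez B C z ↔ z ∈ B i ∧ (B i ∩ C).Nonempty := by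
  simp [Ez]

/-- the set `A` is absorbed by `C`. -/
def Abz (B : ι → Finset V) (C A : Finset V) : Prop :=
  ∃ T : Finset ι, C ∪ A ⊆ T.biUnion B ∧ T.card ≤ rho B C

/-- F1. -/
theorem absorb1 {n : ℕ} (ih : IH4.{u} V n) {Q C : Finset V} (hCQ : C ⊆ Q) (hr : Reg B C)
    (hC : Conn (gr B) C) (hk : KFree B C) (h4 : Tr4 B C) {w : V} (hw : w ∉ C)
    (hn : C.card + 1 < n) {i : ι} (hi : (B i ∩ C).Nonempty) (hi3 : (B i ∩ C).card ≤ 3)
    (hi2 : 2 ≤ (B i ∩ Q).card) (hd : dv B Q C ≤ 3) :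
    ∃ T : Finset ι, C ⊆ T.biUnion B ∧ T.card ≤ rho B C ∧ i ∈ T := by
  classical
  have h : AbsD B C {w} (fun _ => {i}) (fun _ : Fin 4 => ({w} : Finset V)) := by
    refine ⟨disjoint_singleton_right.2 hw, ?_, ?_, ?_, ?_, ?_, ?_, ?_, ?_⟩
    · intro y _ j hj
      rw [mem_singleton] at hj
      rw [hj]
      exact hi
    · intro y _
      exact singleton_nonempty _
    · intro c
      exact Subset.refl _
    · intro c
      exact singleton_nonempty _
    · intro y hy
      rw [mem_singleton] at hy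
      rw [hy]
      simp
    · intro j
      by_cases hj : j = i
      · rw [hj]
        have h5 : (({w} : Finset V).filter (fun _ => i ∈ ({i} : Finset ι))).card ≤ 1 :=
          (card_filter_le _ _).trans (by simp)
        omega
      · have h5 : (({w} : Finset V).filter (fun _ => j ∈ ({i} : Finset ι))).card = 0 := by
          rw [card_eq_zero, filter_eq_empty_iff]
          intro _ _
          rw [mem_singleton]
          exact hj
        rw [h5]
        exact h4 j
    · intro c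
      simp
    · intro S hS hne
      have h5 : ({w} : Finset V) ∩ S = S := inter_eq_right.2 hS
      refine Or.inl ⟨0, ?_, ?_⟩
      · rw [h5]
        exact hne
      · refine (card_le_card inter_subset_left).trans ?_
        simp
  obtain ⟨T, h1, h2, h3⟩ := h.absorb ih hr hC hk (by simpa using hn) hCQ
    (fun y _ j hj => by rw [mem_singleton.1 hj]; exact hi2) (Subset.refl _)
    (fun y hy => by rw [mem_singleton.1 hy]; simp)
    (by rw [card_singleton, Fintype.card_fin]; push_cast; linarith)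
  obtain ⟨j, hj, hji⟩ := h3 w (mem_singleton_self w)
  rw [mem_singleton] at hji
  exact ⟨T, h1, h2, hji ▸ hj⟩

open Classical in
/-- F2. -/
theorem absorb2 {n : ℕ} (ih : IH4.{u} V n) {Q C : Finset V} (hCQ : C ⊆ Q) (hr : Reg B C)
    (hC : Conn (gr B) C) (hk : KFree B C) {w1 w2 : V} (hw1 : w1 ∉ C) (hw2 : w2 ∉ C)
    (h12 : w1 ≠ w2) (hn : C.card + 2 < n) {E : V → Finset ι}
    (hm : ∀ y ∈ ({w1, w2} : Finset V), ∀ i ∈ E y, (B i ∩ C).Nonempty)
    (hm2 : ∀ y ∈ ({w1, w2} : Finset V), ∀ i ∈ E y, 2 ≤ (B i ∩ Q).card)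
    (hE1 : (E w1).card = 2) (hE2 : (E w2).card = 2)
    (hs : ∀ i, (B i ∩ C).card +
      (({w1, w2} : Finset V).filter (fun y => i ∈ E y)).card ≤ 4) (hd : dv B Q C ≤ 0) :
    ∃ T : Finset ι, C ⊆ T.biUnion B ∧ T.card ≤ rho B C ∧
      ∀ y ∈ ({w1, w2} : Finset V), ∃ i ∈ T, i ∈ E y := by
  classical
  have hE : ∀ y ∈ ({w1, w2} : Finset V), (E y).card = 2 := by
    intro y hy
    rw [mem_insert, mem_singleton] at hy
    rcases hy with rfl | rfl
    · exact hE1
    · exact hE2
  have h : AbsD B C {w1, w2} E (fun _ : Fin 3 => ({w1, w2} : Finset V)) := by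
    refine ⟨?_, hm, ?_, ?_, ?_, ?_, ?_, ?_, ?_⟩
    · rw [disjoint_right]
      intro y hy
      rw [mem_insert, mem_singleton] at hy
      rcases hy with rfl | rfl
      · exact hw1
      · exact hw2
    · intro y hy
      rw [← card_pos, hE y hy]
      norm_num
    · intro c
      exact Subset.refl _
    · intro c
      exact insert_nonempty _ _
    · intro y hy
      rw [hE y hy]
      have h5 : (univ.filter (fun _ : Fin 3 => y ∈ ({w1, w2} : Finset V))) = univ := by
        ext c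
        rw [mem_filter]
        exact ⟨fun h => h.1, fun h => ⟨h, hy⟩⟩
      rw [h5, card_univ, Fintype.card_fin]
    · intro j
      convert hs j using 3
    · intro c
      exact card_le_two.trans (by norm_num)
    · intro S hS hne
      refine Or.inl ⟨0, ?_, ?_⟩
      · rw [inter_eq_right.2 hS]
        exact hne
      · exact (card_le_card inter_subset_left).trans card_le_two
  refine h.absorb ih hr hC hk ?_ hCQ hm2 (empty_subset _) (by simp) ?_
  · rw [card_pair h12]
    exact hn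
  · rw [card_pair h12, Fintype.card_fin, card_empty]
    push_cast
    linarith

open Classical in
/-- F3. -/
theorem absorb3 {n : ℕ} (ih : IH4.{u} V n) {Q C : Finset V} (hCQ : C ⊆ Q) (hr : Reg B C)
    (hC : Conn (gr B) C) (hk : KFree B C) {w1 w2 w3 : V} (hw1 : w1 ∉ C) (hw2 : w2 ∉ C) (hw3 : w3 ∉ C) (h12 : w1 ≠ w2)
    (h13 : w1 ≠ w3) (h23 : w2 ≠ w3) (hn : C.card + 3 < n) {E : V → Finset ι}
    (hm : ∀ y ∈ ({w1, w2, w3} : Finset V), ∀ i ∈ E y, (B i ∩ C).Nonempty)
    (hm2 : ∀ y ∈ ({w1, w2, w3} : Finset V), ∀ i ∈ E y, 2 ≤ (B i ∩ Q).card)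
    (hE1 : (E w1).card = 4) (hE2 : (E w2).card = 3) (hE3 : (E w3).card = 3)
    (hs : ∀ i, (B i ∩ C).card +
      (({w1, w2, w3} : Finset V).filter (fun y => i ∈ E y)).card ≤ 4) (hd : dv B Q C ≤ -1) :
    ∃ T : Finset ι, C ⊆ T.biUnion B ∧ T.card ≤ rho B C ∧
      ∀ y ∈ ({w1, w2, w3} : Finset V), ∃ i ∈ T, i ∈ E y := by
  classical
  have hc3 : ({w1, w2, w3} : Finset V).card = 3 := card_eq_three.2 ⟨w1, w2, w3, h12, h13, h23, rfl⟩
  have h : AbsD B C {w1, w2, w3} E
      (fun c : Fin 2 => if c = 0 then ({w1, w2, w3} : Finset V) else {w2, w3}) := by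
    refine ⟨?_, hm, ?_, ?_, ?_, ?_, ?_, ?_, ?_⟩
    · rw [disjoint_right]
      intro y hy
      rw [mem_insert, mem_insert, mem_singleton] at hy
      rcases hy with rfl | rfl | rfl
      · exact hw1
      · exact hw2
      · exact hw3
    · intro y hy
      rw [mem_insert, mem_insert, mem_singleton] at hy
      rw [← card_pos]
      rcases hy with rfl | rfl | rfl
      · omega
      · omega
      · omega
    · intro c
      split_ifs
      · exact Subset.refl _
      · exact subset_insert _ _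
    · intro c
      split_ifs
      · exact insert_nonempty _ _
      · exact insert_nonempty _ _
    · intro y hy
      rw [mem_insert, mem_insert, mem_singleton] at hy
      have h5 : (univ.filter (fun c : Fin 2 =>
          y ∈ (if c = 0 then ({w1, w2, w3} : Finset V) else {w2, w3}))).card =
          (if y ∈ ({w1, w2, w3} : Finset V) then 1 else 0) +
            (if y ∈ ({w2, w3} : Finset V) then 1 else 0) := by
        rw [card_filter, Fin.sum_univ_two]
        simp
      rw [h5]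
      rcases hy with rfl | rfl | rfl
      · rw [hE1, if_pos (by simp), if_neg (by simp [h12, h13])]
      · rw [hE2, if_pos (by simp), if_pos (by simp)]
      · rw [hE3, if_pos (by simp), if_pos (by simp)]
    · intro j
      convert hs j using 3
    · intro c
      split_ifs
      · rw [hc3]
        norm_num
      · exact card_le_two.trans (by norm_num)
    · intro S hS hne
      by_cases h5 : (({w2, w3} : Finset V) ∩ S).Nonempty
      · refine Or.inl ⟨1, ?_, ?_⟩
        · simpa using h5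
        · simp only [one_ne_zero, if_false]
          exact (card_le_card inter_subset_left).trans card_le_two
      · rw [not_nonempty_iff_eq_empty] at h5
        refine Or.inl ⟨0, ?_, ?_⟩
        · simp only [if_true]
          rw [inter_eq_right.2 hS]
          exact hne
        · simp only [if_true]
          rw [inter_eq_right.2 hS]
          have h6 : S ⊆ {w1} := by
            intro v hv
            have h7 := hS hv
            rw [mem_insert] at h7
            rcases h7 with h7 | h7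
            · rw [h7]
              exact mem_singleton_self _
            · have : v ∈ ({w2, w3} : Finset V) ∩ S := mem_inter.2 ⟨h7, hv⟩
              rw [h5] at this
              exact absurd this (notMem_empty _)
          exact (card_le_card h6).trans (by simp)
  refine h.absorb ih hr hC hk ?_ hCQ hm2 (empty_subset _) (by simp) ?_
  · rw [hc3]
    exact hn
  · rw [hc3, Fintype.card_fin, card_empty]
    push_cast
    linarith

/-- a part of a system to which the induction hypothesis applies. -/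
structure Cp (B : ι → Finset V) (Q C : Finset V) : Prop where
  ih : IH4.{u} V Q.card
  reg : Reg B Q
  tr : Tr4 B Q
  kf : KFree B Q
  sub : C ⊆ Q
  conn : Conn (gr B) C
  card : C.card + 4 ≤ Q.card

variable {Q C : Finset V}

theorem Cp.d_ge (h : Cp B Q C) : -1 ≤ dv B Q C := by
  have h1 := h.ih ι B C (by have := h.card; omega) (h.reg.mono h.sub) (h.tr.mono h.sub) h.conn
    (h.kf.mono h.sub)
  have h2 : (ee B Q C : ℤ) ≤ ee B C C := by exact_mod_cast ee_le_ee (Subset.refl _) h.sub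
  unfold dv
  linarith

omit [Fintype ι] in
/-- a block meeting `C` and containing a point outside has at least two points in `Q`. -/
theorem two_le_of {Q C : Finset V} (hCQ : C ⊆ Q) {i : ι} {z : V} (hi : (B i ∩ C).Nonempty)
    (hz : z ∈ B i) (hzQ : z ∈ Q) (hzC : z ∉ C) : 2 ≤ (B i ∩ Q).card := by
  obtain ⟨u, hu⟩ := hi
  rw [mem_inter] at hu
  have h1 : ({z, u} : Finset V) ⊆ B i ∩ Q := by
    intro v hv
    rw [mem_insert, mem_singleton] at hv
    rcases hv with rfl | rfl
    · exact mem_inter.2 ⟨hz, hzQ⟩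
    · exact mem_inter.2 ⟨hu.1, hCQ hu.2⟩
  have h2 := card_le_card h1
  have h3 : z ≠ u := by
    rintro rfl
    exact hzC hu.2
  rw [card_pair h3] at h2
  exact h2

theorem Cp.cov (h : Cp B Q C) : Cov B C := cov_of_reg (h.reg.mono h.sub)

/-- the points of `Y` outside `C` in a block. -/
theorem Cp.size (h : Cp B Q C) {Y : Finset V} (hY : Y ⊆ Q) (hd : Disjoint C Y) (i : ι) :
    (B i ∩ C).card + (Y.filter (fun y => y ∈ B i)).card ≤ 4 := by
  refine le_trans ?_ (h.tr i)
  rw [← card_union_of_disjoint]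
  · refine card_le_card fun v hv => ?_
    rw [mem_union, mem_inter, mem_filter] at hv
    rw [mem_inter]
    rcases hv with hv | hv
    · exact ⟨hv.1, h.sub hv.2⟩
    · exact ⟨hv.2, hY hv.1⟩
  · rw [disjoint_left]
    intro v hv hv2
    exact disjoint_left.1 hd (mem_inter.1 hv).2 (mem_filter.1 hv2).1

/-- F1 for a block containing a point of `Q` outside `C`. -/
theorem Cp.blk (h : Cp B Q C) (hd : dv B Q C ≤ 3) {i : ι} {z : V} (hi : (B i ∩ C).Nonempty)
    (hz : z ∈ B i) (hzQ : z ∈ Q) (hzC : z ∉ C) :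
    ∃ T : Finset ι, C ⊆ T.biUnion B ∧ T.card ≤ rho B C ∧ i ∈ T := by
  have h1 := h.size (Y := {z}) (singleton_subset_iff.2 hzQ) (disjoint_singleton_right.2 hzC) i
  have h2 : (({z} : Finset V).filter (fun y => y ∈ B i)) = {z} := by
    rw [filter_eq_self]
    intro y hy
    rw [mem_singleton] at hy
    rw [hy]
    exact hz
  rw [h2, card_singleton] at h1
  exact absorb1 h.ih h.sub (h.reg.mono h.sub) h.conn (h.kf.mono h.sub) (h.tr.mono h.sub) hzC
    (by have := h.card; omega) hi (by omega) (two_le_of h.sub hi hz hzQ hzC) hd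

theorem Cp.pt1 (h : Cp B Q C) (hd : dv B Q C ≤ 3) {z : V} (hzQ : z ∈ Q) (hzC : z ∉ C)
    (hE : (Ez B C z).Nonempty) : Abz B C {z} := by
  obtain ⟨i, hi⟩ := hE
  rw [mem_Ez] at hi
  obtain ⟨T, h1, h2, h3⟩ := h.blk hd hi.2 hi.1 hzQ hzC
  refine ⟨T, union_subset h1 ?_, h2⟩
  rw [singleton_subset_iff]
  exact mem_biUnion.2 ⟨i, h3, hi.1⟩

theorem Cp.lab2 (h : Cp B Q C) (hd : dv B Q C ≤ 0) {z1 z2 : V} (h1 : z1 ∉ C)
    (h2 : z2 ∉ C) (h12 : z1 ≠ z2) {i1 i2 j1 j2 : ι} (hi : i1 ≠ i2) (hj : j1 ≠ j2)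
    (hi1 : (B i1 ∩ C).Nonempty) (hi2 : (B i2 ∩ C).Nonempty) (hj1 : (B j1 ∩ C).Nonempty)
    (hj2 : (B j2 ∩ C).Nonempty)
    (hs0 : ∀ i, i = i1 ∨ i = i2 ∨ i = j1 ∨ i = j2 → 2 ≤ (B i ∩ Q).card)
    (hs1 : ∀ i, i = i1 ∨ i = i2 ∨ i = j1 ∨ i = j2 → (B i ∩ C).card ≤ 3)
    (hs2 : ∀ i, i = i1 ∨ i = i2 → i = j1 ∨ i = j2 → (B i ∩ C).card ≤ 2) :
    ∃ T : Finset ι, C ⊆ T.biUnion B ∧ T.card ≤ rho B C ∧ (i1 ∈ T ∨ i2 ∈ T) ∧
      (j1 ∈ T ∨ j2 ∈ T) := by
  classical
  obtain ⟨E, hE1, hE2⟩ : ∃ E : V → Finset ι, E z1 = {i1, i2} ∧ E z2 = {j1, j2} :=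
    ⟨fun y => if y = z1 then ({i1, i2} : Finset ι) else {j1, j2}, if_pos rfl,
      if_neg (fun h => h12 h.symm)⟩
  have key1 : ∀ y ∈ ({z1, z2} : Finset V), ∀ i ∈ E y, (B i ∩ C).Nonempty := by
    intro y hy i hiE
    rw [mem_insert, mem_singleton] at hy
    rcases hy with rfl | rfl
    · rw [hE1, mem_insert, mem_singleton] at hiE
      rcases hiE with rfl | rfl
      · exact hi1
      · exact hi2
    · rw [hE2, mem_insert, mem_singleton] at hiE
      rcases hiE with rfl | rfl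
      · exact hj1
      · exact hj2
  have key0 : ∀ y ∈ ({z1, z2} : Finset V), ∀ i ∈ E y, 2 ≤ (B i ∩ Q).card := by
    intro y hy i hiE
    rw [mem_insert, mem_singleton] at hy
    rcases hy with rfl | rfl
    · rw [hE1, mem_insert, mem_singleton] at hiE
      exact hs0 i (by tauto)
    · rw [hE2, mem_insert, mem_singleton] at hiE
      exact hs0 i (by tauto)
  have key2 : ∀ i, (B i ∩ C).card +
      (({z1, z2} : Finset V).filter (fun y => i ∈ E y)).card ≤ 4 := by
    intro i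
    rw [card_filter, sum_pair h12, hE1, hE2]
    have h5 := hs1 i
    have h6 := hs2 i
    have h7 := h.tr.mono h.sub i
    simp only [mem_insert, mem_singleton]
    by_cases ha : i = i1 ∨ i = i2
    · by_cases hb : i = j1 ∨ i = j2
      · rw [if_pos ha, if_pos hb]
        have := h6 ha hb
        omega
      · rw [if_pos ha, if_neg hb]
        have := h5 (by tauto)
        omega
    · by_cases hb : i = j1 ∨ i = j2
      · rw [if_neg ha, if_pos hb]
        have := h5 (by tauto)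
        omega
      · rw [if_neg ha, if_neg hb]
        omega
  obtain ⟨T, hT1, hT2, hT3⟩ := absorb2 h.ih h.sub (h.reg.mono h.sub) h.conn (h.kf.mono h.sub)
    h1 h2 h12 (by have := h.card; omega) key1 key0
    (by rw [hE1]; exact card_pair hi) (by rw [hE2]; exact card_pair hj)
    (fun i => by convert key2 i using 3) hd
  refine ⟨T, hT1, hT2, ?_, ?_⟩
  · obtain ⟨i, hiT, hiE⟩ := hT3 z1 (mem_insert_self _ _)
    rw [hE1, mem_insert, mem_singleton] at hiE
    rcases hiE with rfl | rfl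
    · exact Or.inl hiT
    · exact Or.inr hiT
  · obtain ⟨i, hiT, hiE⟩ := hT3 z2 (mem_insert_of_mem (mem_singleton_self _))
    rw [hE2, mem_insert, mem_singleton] at hiE
    rcases hiE with rfl | rfl
    · exact Or.inl hiT
    · exact Or.inr hiT

theorem Cp.size' (h : Cp B Q C) {Y : Finset V} (hY : Y ⊆ Q) (hd : Disjoint C Y)
    {E : V → Finset ι} (hE : ∀ y ∈ Y, E y ⊆ Ez B C y) (i : ι) [∀ y, Decidable (i ∈ E y)] :
    (B i ∩ C).card + (Y.filter (fun y => i ∈ E y)).card ≤ 4 := by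
  refine le_trans (Nat.add_le_add_left (card_le_card fun y hy => ?_) _) (h.size hY hd i)
  rw [mem_filter] at hy ⊢
  exact ⟨hy.1, (mem_Ez.1 (hE y hy.1 hy.2)).1⟩

theorem Cp.pt2 (h : Cp B Q C) (hd : dv B Q C ≤ 0) {z1 z2 : V} (h1Q : z1 ∈ Q) (h1 : z1 ∉ C)
    (h2Q : z2 ∈ Q) (h2 : z2 ∉ C) (h12 : z1 ≠ z2) (hE1 : 2 ≤ (Ez B C z1).card)
    (hE2 : 2 ≤ (Ez B C z2).card) : Abz B C {z1, z2} := by
  classical
  obtain ⟨S1, hS1, hc1⟩ := exists_subset_card_eq hE1
  obtain ⟨S2, hS2, hc2⟩ := exists_subset_card_eq hE2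
  obtain ⟨E, hi1, hi2⟩ : ∃ E : V → Finset ι, E z1 = S1 ∧ E z2 = S2 :=
    ⟨fun y => if y = z1 then S1 else S2, if_pos rfl, if_neg (fun h => h12 h.symm)⟩
  have hsub : ∀ y ∈ ({z1, z2} : Finset V), E y ⊆ Ez B C y := by
    intro y hy
    rw [mem_insert, mem_singleton] at hy
    rcases hy with rfl | rfl
    · rw [hi1]
      exact hS1
    · rw [hi2]
      exact hS2
  have hY : ({z1, z2} : Finset V) ⊆ Q := by
    intro y hy
    rw [mem_insert, mem_singleton] at hy
    rcases hy with rfl | rfl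
    · exact h1Q
    · exact h2Q
  have hYC : Disjoint C {z1, z2} := by
    rw [disjoint_right]
    intro y hy
    rw [mem_insert, mem_singleton] at hy
    rcases hy with rfl | rfl
    · exact h1
    · exact h2
  obtain ⟨T, hT1, hT2, hT3⟩ := absorb2 h.ih h.sub (h.reg.mono h.sub) h.conn (h.kf.mono h.sub)
    h1 h2 h12 (by have := h.card; omega) (fun y hy i hiE => (mem_Ez.1 (hsub y hy hiE)).2)
    (fun y hy i hiE => two_le_of h.sub (mem_Ez.1 (hsub y hy hiE)).2
      (mem_Ez.1 (hsub y hy hiE)).1 (hY hy) (disjoint_right.1 hYC hy))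
    (by rw [hi1]; exact hc1) (by rw [hi2]; exact hc2) (fun i => h.size' hY hYC hsub i) hd
  refine ⟨T, union_subset hT1 fun y hy => ?_, hT2⟩
  obtain ⟨i, hiT, hiE⟩ := hT3 y hy
  exact mem_biUnion.2 ⟨i, hiT, (mem_Ez.1 (hsub y hy hiE)).1⟩

theorem Cp.pt3 (h : Cp B Q C) (hd : dv B Q C ≤ -1) {z1 z2 z3 : V} (h1Q : z1 ∈ Q) (h1 : z1 ∉ C)
    (h2Q : z2 ∈ Q) (h2 : z2 ∉ C) (h3Q : z3 ∈ Q) (h3 : z3 ∉ C) (h12 : z1 ≠ z2) (h13 : z1 ≠ z3)
    (h23 : z2 ≠ z3) (hE1 : 4 ≤ (Ez B C z1).card)
    (hE2 : 3 ≤ (Ez B C z2).card) (hE3 : 3 ≤ (Ez B C z3).card) : Abz B C {z1, z2, z3} := by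
  classical
  obtain ⟨S1, hS1, hc1⟩ := exists_subset_card_eq hE1
  obtain ⟨S2, hS2, hc2⟩ := exists_subset_card_eq hE2
  obtain ⟨S3, hS3, hc3⟩ := exists_subset_card_eq hE3
  obtain ⟨E, hi1, hi2, hi3⟩ : ∃ E : V → Finset ι, E z1 = S1 ∧ E z2 = S2 ∧ E z3 = S3 :=
    ⟨fun y => if y = z1 then S1 else if y = z2 then S2 else S3, if_pos rfl,
      by simp [h12.symm], by simp [h13.symm, h23.symm]⟩
  have hsub : ∀ y ∈ ({z1, z2, z3} : Finset V), E y ⊆ Ez B C y := by
    intro y hy
    rw [mem_insert, mem_insert, mem_singleton] at hy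
    rcases hy with rfl | rfl | rfl
    · rw [hi1]
      exact hS1
    · rw [hi2]
      exact hS2
    · rw [hi3]
      exact hS3
  have hY : ({z1, z2, z3} : Finset V) ⊆ Q := by
    intro y hy
    rw [mem_insert, mem_insert, mem_singleton] at hy
    rcases hy with rfl | rfl | rfl
    · exact h1Q
    · exact h2Q
    · exact h3Q
  have hYC : Disjoint C {z1, z2, z3} := by
    rw [disjoint_right]
    intro y hy
    rw [mem_insert, mem_insert, mem_singleton] at hy
    rcases hy with rfl | rfl | rfl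
    · exact h1
    · exact h2
    · exact h3
  obtain ⟨T, hT1, hT2, hT3⟩ := absorb3 h.ih h.sub (h.reg.mono h.sub) h.conn (h.kf.mono h.sub)
    h1 h2 h3 h12 h13 h23 (by have := h.card; omega)
    (fun y hy i hiE => (mem_Ez.1 (hsub y hy hiE)).2)
    (fun y hy i hiE => two_le_of h.sub (mem_Ez.1 (hsub y hy hiE)).2
      (mem_Ez.1 (hsub y hy hiE)).1 (hY hy) (disjoint_right.1 hYC hy))
    (by rw [hi1]; exact hc1) (by rw [hi2]; exact hc2) (by rw [hi3]; exact hc3)
    (fun i => h.size' hY hYC hsub i) hd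
  refine ⟨T, union_subset hT1 fun y hy => ?_, hT2⟩
  obtain ⟨i, hiT, hiE⟩ := hT3 y hy
  exact mem_biUnion.2 ⟨i, hiT, (mem_Ez.1 (hsub y hy hiE)).1⟩

omit [Fintype ι] in
theorem Abz.empty (h : Cov B C) : Abz B C ∅ := by
  obtain ⟨T, h1, h2⟩ := exists_cover h
  exact ⟨T, by rw [union_empty]; exact h1, h2.le⟩

omit [Fintype ι] in
theorem Abz.mono {A A' : Finset V} (h : Abz B C A) (hA : A' ⊆ A) : Abz B C A' := by
  obtain ⟨T, h1, h2⟩ := h
  exact ⟨T, (union_subset_union_right hA).trans h1, h2⟩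

/-- the family `L` absorbs `A`. -/
def JA (B : ι → Finset V) (L : Finset (Finset V)) (A : Finset V) : Prop :=
  ∃ T : Finset ι, L.biUnion id ∪ A ⊆ T.biUnion B ∧ T.card ≤ ∑ C ∈ L, rho B C

omit [Fintype ι] in
theorem JA_of {L : Finset (Finset V)} {A : Finset V} (f : Finset V → Finset V)
    (hf : ∀ C ∈ L, Abz B C (f C)) (hA : A ⊆ L.biUnion f) : JA B L A := by
  classical
  rcases L.eq_empty_or_nonempty with rfl | ⟨C0, hC0⟩
  · refine ⟨∅, ?_, by simp⟩
    intro v hv
    rw [mem_union] at hv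
    rcases hv with hv | hv
    · simp at hv
    · exact absurd (hA hv) (by simp)
  choose! T hT1 hT2 using hf
  refine ⟨L.biUnion T, ?_, card_biUnion_le.trans (sum_le_sum hT2)⟩
  intro v hv
  rw [mem_union] at hv
  rcases hv with hv | hv
  · obtain ⟨C, hC, hvC⟩ := mem_biUnion.1 hv
    obtain ⟨i, hi, hvi⟩ := mem_biUnion.1 (hT1 C hC (mem_union_left _ hvC))
    exact mem_biUnion.2 ⟨i, mem_biUnion.2 ⟨C, hC, hi⟩, hvi⟩
  · obtain ⟨C, hC, hvC⟩ := mem_biUnion.1 (hA hv)
    obtain ⟨i, hi, hvi⟩ := mem_biUnion.1 (hT1 C hC (mem_union_right _ hvC))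
    exact mem_biUnion.2 ⟨i, mem_biUnion.2 ⟨C, hC, hi⟩, hvi⟩

end Pool.Agent.Hyp6
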