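import Pool.Agent.Hyp6.JC2
import Pool.Agent.Hyp6.L4F

/-!
# HYP6 L3Pt: the pattern table of an edge triple

`T` is a triple between the nodes `W` and `X`: every block through a point of `T` other than `T` meets
`W` or `X`, and a pair of `T` whose third point sees one node has no common block meeting the other
node. `kpt B W X T` is the largest value of a closing of `T` at `W`. Main facts: `kpt W + kpt X` is at
least `6`, with the list of the cases of equality, and at least `2` if every point of `T` has at most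
one useless hit.
-/

set_option autoImplicit false

namespace Pool.Agent.Hyp6

open Finset Pool.Agent.Hyp5

universe u v

/-- the value of a closing by two groups with `m1` and `m2` blocks (zero if it is negative). -/
def fv (m1 m2 : ℕ) : ℕ :=
  4 * min (min m1 m2) 4 +
    (if min (min m1 m2) 4 + 2 ≤ min (max m1 m2) 5 then 2 else 0) - 6

/-- the largest of the six values: `a` hits at the node, `b` hits at the other node, `s1` common blocks
of the points `2` and `3`, and so on. -/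
def kN (a1 a2 a3 b1 b2 b3 s1 s2 s3 : ℕ) : ℕ :=
  max (max (if 0 < b3 then fv a1 a2 else 0)
    (max (if 0 < b2 then fv a1 a3 else 0) (if 0 < b1 then fv a2 a3 else 0)))
    (max (if 0 < b2 ∧ 0 < b3 then fv a1 (a2 + a3 - s1) else 0)
      (max (if 0 < b1 ∧ 0 < b3 then fv a2 (a1 + a3 - s2) else 0)
        (if 0 < b1 ∧ 0 < b2 then fv a3 (a1 + a2 - s3) else 0)))

/-- the exact patterns: one point with four hits at the node, `y` and `z` hits of the other two,
all hits of the last point are shared. -/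
def pN (k x y z s : ℕ) : Prop :=
  x = 4 ∧ s = z ∧ z ≤ y ∧ y = k ∧ (k = 3 ∨ 1 ≤ z)

instance (k x y z s : ℕ) : Decidable (pN k x y z s) := by unfold pN; infer_instance

/-- the exact patterns, all labellings. -/
def pA (k a1 a2 a3 s1 s2 s3 : ℕ) : Prop :=
  pN k a1 a2 a3 s1 ∨ pN k a1 a3 a2 s1 ∨ pN k a2 a1 a3 s2 ∨ pN k a2 a3 a1 s2 ∨
    pN k a3 a1 a2 s3 ∨ pN k a3 a2 a1 s3

instance (k a1 a2 a3 s1 s2 s3 : ℕ) : Decidable (pA k a1 a2 a3 s1 s2 s3) := by
  unfold pA; infer_instance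

/-- the patterns with one useless hit and sum less than six. -/
def qN (k x xb y yb z zb s : ℕ) : Prop :=
  xb = 0 ∧ s = z ∧ z ≤ y ∧
    ((k = 2 ∧ x = 4 ∧ y = 1 ∧ yb = 3 ∧ z = 1 ∧ zb = 2) ∨
    (k = 2 ∧ x = 4 ∧ y = 1 ∧ yb = 2 ∧ z = 1 ∧ zb = 3) ∨
    (k = 4 ∧ x = 3 ∧ y = 2 ∧ yb = 2 ∧ ((z = 1 ∧ zb = 3) ∨ (z = 2 ∧ zb = 2))) ∨
    (k = 4 ∧ x = 4 ∧ y = 2 ∧ yb = 1 ∧ ((z = 0 ∧ zb = 4) ∨ (z = 1 ∧ zb = 3) ∨ (z = 2 ∧ zb = 2))))

instance (k x xb y yb z zb s : ℕ) : Decidable (qN k x xb y yb z zb s) := by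
  unfold qN; infer_instance

/-- the same, all labellings. -/
def qA (k a1 a2 a3 b1 b2 b3 s1 s2 s3 : ℕ) : Prop :=
  qN k a1 b1 a2 b2 a3 b3 s1 ∨ qN k a1 b1 a3 b3 a2 b2 s1 ∨ qN k a2 b2 a1 b1 a3 b3 s2 ∨
    qN k a2 b2 a3 b3 a1 b1 s2 ∨ qN k a3 b3 a1 b1 a2 b2 s3 ∨ qN k a3 b3 a2 b2 a1 b1 s3

instance (k a1 a2 a3 b1 b2 b3 s1 s2 s3 : ℕ) : Decidable (qA k a1 a2 a3 b1 b2 b3 s1 s2 s3) := by
  unfold qA; infer_instance

/-- bound for the number of common blocks of two points with `x` and `y` hits, where `b` is the number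
of hits of the third point at the other node. -/
def sR (b x y : ℕ) : ℕ := if b = 0 then min x y + 1 else 1

/-- what the table says about the two values. -/
def tb (k k' a1 a2 a3 b1 b2 b3 s1 s2 s3 t1 t2 t3 : ℕ) : Prop :=
  6 ≤ k + k' ∧ (k < 2 → 6 ≤ k') ∧ (k' < 2 → 6 ≤ k) ∧
    (2 ≤ k → 2 ≤ k' → 6 ≤ min k 4 + min k' 4) ∧
    (k + k' < 8 → (k < 2 ∧ (pA 1 a1 a2 a3 s1 s2 s3 ∨ pA 3 b1 b2 b3 t1 t2 t3)) ∨
      (k' < 2 ∧ (pA 1 b1 b2 b3 t1 t2 t3 ∨ pA 3 a1 a2 a3 s1 s2 s3)) ∨
      (k < 6 ∧ k' < 6 ∧ (pA 2 a1 a2 a3 s1 s2 s3 ∨ pA 2 b1 b2 b3 t1 t2 t3)))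

instance (k k' a1 a2 a3 b1 b2 b3 s1 s2 s3 t1 t2 t3 : ℕ) :
    Decidable (tb k k' a1 a2 a3 b1 b2 b3 s1 s2 s3 t1 t2 t3) := by
  unfold tb; infer_instance

/-- what the table says with at most one useless hit at every point. -/
def tc (e k k' a1 a2 a3 b1 b2 b3 s1 s2 s3 t1 t2 t3 : ℕ) : Prop :=
  2 ≤ k + k' ∧ (e = 1 → (k + k' < 4 → qA 2 a1 a2 a3 b1 b2 b3 s1 s2 s3 ∨
      qA 2 b1 b2 b3 a1 a2 a3 t1 t2 t3) ∧
    (k + k' < 6 → 4 ≤ k + k' → qA 4 a1 a2 a3 b1 b2 b3 s1 s2 s3 ∨
      qA 4 b1 b2 b3 a1 a2 a3 t1 t2 t3))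

instance (e k k' a1 a2 a3 b1 b2 b3 s1 s2 s3 t1 t2 t3 : ℕ) :
    Decidable (tc e k k' a1 a2 a3 b1 b2 b3 s1 s2 s3 t1 t2 t3) := by
  unfold tc; infer_instance

/-- all triples in a box. -/
def all3 (l m n : ℕ) (f : ℕ → ℕ → ℕ → Bool) : Bool :=
  (List.range l).all fun a => (List.range m).all fun b => (List.range n).all fun c => f a b c

theorem all3_spec {l m n : ℕ} {f : ℕ → ℕ → ℕ → Bool} (h : all3 l m n f = true) {a b c : ℕ}
    (ha : a < l) (hb : b < m) (hc : c < n) : f a b c = true := by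
  unfold all3 at h
  rw [List.all_eq_true] at h
  have h1 := h a (List.mem_range.2 ha)
  rw [List.all_eq_true] at h1
  have h2 := h1 b (List.mem_range.2 hb)
  rw [List.all_eq_true] at h2
  exact h2 c (List.mem_range.2 hc)

/-- all numbers of common blocks. -/
def allS (a1 a2 a3 b1 b2 b3 : ℕ) (f : ℕ → ℕ → ℕ → ℕ → ℕ → ℕ → Bool) : Bool :=
  all3 (sR b1 a2 a3) (sR b2 a1 a3) (sR b3 a1 a2) fun s1 s2 s3 =>
    all3 (sR a1 b2 b3) (sR a2 b1 b3) (sR a3 b1 b2) fun t1 t2 t3 => f s1 s2 s3 t1 t2 t3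

/-- the table without useless hits. -/
def tab0 : Bool := all3 5 5 5 fun a1 a2 a3 =>
  decide (a1 + a2 + a3 = 0) || (decide (4 - a1 + (4 - a2) + (4 - a3) = 0) ||
    allS a1 a2 a3 (4 - a1) (4 - a2) (4 - a3) fun s1 s2 s3 t1 t2 t3 =>
      decide (tb (kN a1 a2 a3 (4 - a1) (4 - a2) (4 - a3) s1 s2 s3)
        (kN (4 - a1) (4 - a2) (4 - a3) a1 a2 a3 t1 t2 t3) a1 a2 a3 (4 - a1) (4 - a2) (4 - a3)
        s1 s2 s3 t1 t2 t3))

set_option maxRecDepth 20000 in
theorem tab0_true : tab0 = true := by decide +kernel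

/-- the table with at most one useless hit at every point. -/
def tab1 : Bool := all3 2 2 2 fun e1 e2 e3 => all3 5 5 5 fun a1 a2 a3 =>
  decide (a1 + a2 + a3 = 0) || (decide (4 - e1 - a1 + (4 - e2 - a2) + (4 - e3 - a3) = 0) ||
    (decide (¬ (a1 + e1 ≤ 4 ∧ a2 + e2 ≤ 4 ∧ a3 + e3 ≤ 4)) ||
    allS a1 a2 a3 (4 - e1 - a1) (4 - e2 - a2) (4 - e3 - a3) fun s1 s2 s3 t1 t2 t3 =>
      decide (tc (e1 + e2 + e3) (kN a1 a2 a3 (4 - e1 - a1) (4 - e2 - a2) (4 - e3 - a3) s1 s2 s3)
        (kN (4 - e1 - a1) (4 - e2 - a2) (4 - e3 - a3) a1 a2 a3 t1 t2 t3) a1 a2 a3 (4 - e1 - a1)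
        (4 - e2 - a2) (4 - e3 - a3) s1 s2 s3 t1 t2 t3)))

set_option maxRecDepth 20000 in
theorem tab1_true : tab1 = true := by decide +kernel

theorem tab0_spec {a1 a2 a3 b1 b2 b3 s1 s2 s3 t1 t2 t3 : ℕ} (h1 : a1 + b1 = 4) (h2 : a2 + b2 = 4)
    (h3 : a3 + b3 = 4) (ha : 0 < a1 + a2 + a3) (hb : 0 < b1 + b2 + b3)
    (hs1 : s1 < sR b1 a2 a3) (hs2 : s2 < sR b2 a1 a3) (hs3 : s3 < sR b3 a1 a2)
    (ht1 : t1 < sR a1 b2 b3) (ht2 : t2 < sR a2 b1 b3) (ht3 : t3 < sR a3 b1 b2) :
    tb (kN a1 a2 a3 b1 b2 b3 s1 s2 s3) (kN b1 b2 b3 a1 a2 a3 t1 t2 t3) a1 a2 a3 b1 b2 b3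
      s1 s2 s3 t1 t2 t3 := by
  have e1 : 4 - a1 = b1 := by omega
  have e2 : 4 - a2 = b2 := by omega
  have e3 : 4 - a3 = b3 := by omega
  have h := all3_spec tab0_true (a := a1) (b := a2) (c := a3) (by omega) (by omega) (by omega)
  simp only [e1, e2, e3, Bool.or_eq_true, decide_eq_true_eq] at h
  rcases h with h | h | h
  · omega
  · omega
  · unfold allS at h
    have h4 := all3_spec h hs1 hs2 hs3
    have h5 := all3_spec h4 ht1 ht2 ht3
    exact of_decide_eq_true h5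

theorem tab1_spec {a1 a2 a3 b1 b2 b3 s1 s2 s3 t1 t2 t3 e1 e2 e3 : ℕ} (h1 : a1 + b1 + e1 = 4)
    (h2 : a2 + b2 + e2 = 4) (h3 : a3 + b3 + e3 = 4) (he1 : e1 ≤ 1) (he2 : e2 ≤ 1) (he3 : e3 ≤ 1)
    (ha : 0 < a1 + a2 + a3) (hb : 0 < b1 + b2 + b3)
    (hs1 : s1 < sR b1 a2 a3) (hs2 : s2 < sR b2 a1 a3) (hs3 : s3 < sR b3 a1 a2)
    (ht1 : t1 < sR a1 b2 b3) (ht2 : t2 < sR a2 b1 b3) (ht3 : t3 < sR a3 b1 b2) :
    tc (e1 + e2 + e3) (kN a1 a2 a3 b1 b2 b3 s1 s2 s3) (kN b1 b2 b3 a1 a2 a3 t1 t2 t3)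
      a1 a2 a3 b1 b2 b3 s1 s2 s3 t1 t2 t3 := by
  have c1 : 4 - e1 - a1 = b1 := by omega
  have c2 : 4 - e2 - a2 = b2 := by omega
  have c3 : 4 - e3 - a3 = b3 := by omega
  have h0 := all3_spec tab1_true (a := e1) (b := e2) (c := e3) (by omega) (by omega) (by omega)
  have h := all3_spec h0 (a := a1) (b := a2) (c := a3) (by omega) (by omega) (by omega)
  simp only [c1, c2, c3, Bool.or_eq_true, decide_eq_true_eq] at h
  rcases h with h | h | h | h
  · omega
  · omega
  · omega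
  · unfold allS at h
    have h4 := all3_spec h hs1 hs2 hs3
    have h5 := all3_spec h4 ht1 ht2 ht3
    exact of_decide_eq_true h5

section

variable {V : Type v} [DecidableEq V] {ι : Type u} [Fintype ι] {B : ι → Finset V}

/-- two groups of points of `T` which can be closed at `W`; every point of `T` which can be the third
point sees `X`. -/
structure POpt (B : ι → Finset V) (W X T J1 J2 : Finset V) (E1 E2 : Finset ι) : Prop where
  J1T : J1 ⊆ T
  J2T : J2 ⊆ T
  J12 : Disjoint J1 J2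
  E1J : E1 ⊆ cxs B W J1
  E2J : E2 ⊆ cxs B W J2
  E2ne : E2.Nonempty
  le : E2.card ≤ E1.card
  le4 : E2.card ≤ 4
  le5 : E1.card ≤ 5
  third : ∀ p ∈ J1, ∀ q ∈ J2, ∀ r ∈ T, r ≠ p → r ≠ q → (Ez B X r).Nonempty

/-- the triple `T` has a closing at `W` of value at least `d`. -/
def Dem (B : ι → Finset V) (W X T : Finset V) (d : ℕ) : Prop :=
  d = 0 ∨ ∃ (J1 J2 : Finset V) (E1 E2 : Finset ι), POpt B W X T J1 J2 E1 E2 ∧
    (d : ℤ) ≤ 4 * (E2.card : ℤ) - 6 + (if E2.card + 2 ≤ E1.card then 2 else 0)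

theorem Dem.zero {W X T : Finset V} : Dem B W X T 0 := Or.inl rfl

theorem Dem.mono {W X T : Finset V} {d d' : ℕ} (h : Dem B W X T d) (hd : d' ≤ d) :
    Dem B W X T d' := by
  rcases h with rfl | ⟨J1, J2, E1, E2, hO, hv⟩
  · exact Or.inl (by omega)
  · refine Or.inr ⟨J1, J2, E1, E2, hO, ?_⟩
    have : (d' : ℤ) ≤ d := by exact_mod_cast hd
    linarith

/-- the points `p` of `T` which can be third see `X`. -/
def Thd (B : ι → Finset V) (X T J1 J2 : Finset V) : Prop :=
  ∀ p ∈ J1, ∀ q ∈ J2, ∀ r ∈ T, r ≠ p → r ≠ q → (Ez B X r).Nonempty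

omit [Fintype ι] in
theorem Thd.symm [Fintype ι] {X T J1 J2 : Finset V} (h : Thd B X T J1 J2) : Thd B X T J2 J1 :=
  fun p hp q hq r hr h1 h2 => h q hq p hp r hr h2 h1

theorem Dem.mk' {W X T J1 J2 : Finset V} (h1 : J1 ⊆ T) (h2 : J2 ⊆ T) (h12 : Disjoint J1 J2)
    (ht : Thd B X T J1 J2) (hle : (cxs B W J2).card ≤ (cxs B W J1).card) :
    Dem B W X T (fv (cxs B W J1).card (cxs B W J2).card) := by
  rcases Nat.eq_zero_or_pos (fv (cxs B W J1).card (cxs B W J2).card) with hf | hf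
  · exact Or.inl hf
  · have h0 : 0 < (cxs B W J2).card := by
      rw [pos_iff_ne_zero]
      intro h0
      unfold fv at hf
      rw [h0] at hf
      split_ifs at hf <;> simp at hf
    obtain ⟨E1, hE1, hc1⟩ := exists_subset_card_eq
      (min_le_left (cxs B W J1).card 5)
    obtain ⟨E2, hE2, hc2⟩ := exists_subset_card_eq
      (min_le_left (cxs B W J2).card 4)
    refine Or.inr ⟨J1, J2, E1, E2, ⟨h1, h2, h12, hE1, hE2, ?_, ?_, ?_, ?_, ht⟩, ?_⟩
    · rw [← card_pos, hc2]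
      omega
    · rw [hc1, hc2]
      omega
    · rw [hc2]
      exact min_le_right _ _
    · rw [hc1]
      exact min_le_right _ _
    · have h3 : min (min (cxs B W J1).card (cxs B W J2).card) 4 = E2.card := by
        rw [hc2, min_eq_right hle]
      have h4 : min (max (cxs B W J1).card (cxs B W J2).card) 5 = E1.card := by
        rw [hc1, max_eq_left hle]
      unfold fv at hf ⊢
      rw [h3, h4] at hf ⊢
      split_ifs at hf ⊢ <;> omega

theorem fv_comm (a b : ℕ) : fv a b = fv b a := by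
  unfold fv
  rw [min_comm a b, max_comm a b]

theorem Dem.mk {W X T J1 J2 : Finset V} (h1 : J1 ⊆ T) (h2 : J2 ⊆ T) (h12 : Disjoint J1 J2)
    (ht : Thd B X T J1 J2) : Dem B W X T (fv (cxs B W J1).card (cxs B W J2).card) := by
  rcases le_total (cxs B W J2).card (cxs B W J1).card with hle | hle
  · exact Dem.mk' h1 h2 h12 ht hle
  · rw [fv_comm]
    exact Dem.mk' h2 h1 h12.symm ht.symm hle

/-- the values of the closings of `T` at `W`. -/
def kptS (B : ι → Finset V) (W X T : Finset V) : Set ℕ :=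
  {m | ∃ J1 J2 : Finset V, J1 ⊆ T ∧ J2 ⊆ T ∧ Disjoint J1 J2 ∧ Thd B X T J1 J2 ∧
    m = fv (cxs B W J1).card (cxs B W J2).card}

/-- the largest value of a closing of `T` at `W`. -/
noncomputable def kpt (B : ι → Finset V) (W X T : Finset V) : ℕ := sSup (kptS B W X T)

theorem fv_le (a b : ℕ) : fv a b ≤ 12 := by
  unfold fv
  split_ifs <;> omega

theorem kptS_bdd (W X T : Finset V) : BddAbove (kptS B W X T) := by
  refine ⟨12, ?_⟩
  rintro m ⟨J1, J2, _, _, _, _, rfl⟩
  exact fv_le _ _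

theorem kptS_ne (W X T : Finset V) : (kptS B W X T).Nonempty :=
  ⟨_, ∅, ∅, empty_subset _, empty_subset _, disjoint_empty_left _,
    fun _ hp => absurd hp (notMem_empty _), rfl⟩

theorem kpt_mem (W X T : Finset V) : kpt B W X T ∈ kptS B W X T :=
  Nat.sSup_mem (kptS_ne W X T) (kptS_bdd W X T)

theorem le_kpt {W X T J1 J2 : Finset V} (h1 : J1 ⊆ T) (h2 : J2 ⊆ T) (h12 : Disjoint J1 J2)
    (ht : Thd B X T J1 J2) : fv (cxs B W J1).card (cxs B W J2).card ≤ kpt B W X T :=
  le_csSup (kptS_bdd W X T) ⟨J1, J2, h1, h2, h12, ht, rfl⟩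

theorem kpt_even (W X T : Finset V) : kpt B W X T % 2 = 0 := by
  obtain ⟨J1, J2, _, _, _, _, he⟩ := kpt_mem (B := B) W X T
  rw [he]
  unfold fv
  split_ifs <;> omega

theorem Dem_kpt (W X T : Finset V) : Dem B W X T (kpt B W X T) := by
  obtain ⟨J1, J2, h1, h2, h3, h4, he⟩ := kpt_mem (B := B) W X T
  rw [he]
  exact Dem.mk h1 h2 h3 h4

theorem Dem.of_le_kpt {W X T : Finset V} {d : ℕ} (h : d ≤ kpt B W X T) : Dem B W X T d :=
  (Dem_kpt W X T).mono h

/-- the closings never give more than the largest value. -/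
theorem Dem.le_kpt {W X T : Finset V} {d : ℕ} (h : Dem B W X T d) : d ≤ kpt B W X T := by
  rcases h with rfl | ⟨J1, J2, E1, E2, hO, hv⟩
  · exact Nat.zero_le _
  · refine le_trans ?_ (Hyp6.le_kpt (W := W) hO.J1T hO.J2T hO.J12 hO.third)
    have h1 := card_le_card hO.E1J
    have h2 := card_le_card hO.E2J
    have h3 := hO.le
    have h4 := hO.le4
    have h5 := hO.le5
    unfold fv
    have h6 : E2.card ≤ min (min (cxs B W J1).card (cxs B W J2).card) 4 := by omega
    split_ifs at hv ⊢ <;> omega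

/-- `p`, `q`, `r` are the points of `T`. -/
structure Lab (T : Finset V) (p q r : V) : Prop where
  eq : T = {p, q, r}
  pq : p ≠ q
  pr : p ≠ r
  qr : q ≠ r

theorem Lab.swap {T : Finset V} {p q r : V} (h : Lab T p q r) : Lab T p r q :=
  ⟨by rw [h.eq]; congr 1; exact pair_comm q r, h.pr, h.pq, h.qr.symm⟩

theorem Lab.rot {T : Finset V} {p q r : V} (h : Lab T p q r) : Lab T q r p :=
  ⟨by
    rw [h.eq]
    ext v
    simp only [mem_insert, mem_singleton]
    tauto, h.qr, h.pq.symm, h.pr.symm⟩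

theorem exists_lab {T : Finset V} (h : T.card = 3) : ∃ p q r, Lab T p q r := by
  obtain ⟨p, q, r, h1, h2, h3, h4⟩ := card_eq_three.1 h
  exact ⟨p, q, r, h4, h1, h2, h3⟩

theorem Lab.mp {T : Finset V} {p q r : V} (h : Lab T p q r) : p ∈ T := by rw [h.eq]; simp

theorem Lab.mq {T : Finset V} {p q r : V} (h : Lab T p q r) : q ∈ T := by rw [h.eq]; simp

theorem Lab.mr {T : Finset V} {p q r : V} (h : Lab T p q r) : r ∈ T := by rw [h.eq]; simp

/-- a pair of `T` whose third point sees `X` has no common block meeting `W`. -/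
def Shr (B : ι → Finset V) (W X T : Finset V) : Prop :=
  ∀ p q r, Lab T p q r → (Ez B X r).Nonempty → Disjoint (Ez B W p) (Ez B W q)

theorem cxs_single (W : Finset V) (p : V) : cxs B W {p} = Ez B W p := by
  ext i
  rw [mem_cxs, mem_Ez]
  constructor
  · rintro ⟨h1, v, hv⟩
    rw [mem_inter, mem_singleton] at hv
    exact ⟨hv.2 ▸ hv.1, h1⟩
  · rintro ⟨h1, h2⟩
    exact ⟨h2, p, mem_inter.2 ⟨h1, mem_singleton_self p⟩⟩

theorem cxs_pair [DecidableEq ι] (W : Finset V) (p q : V) :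
    cxs B W {p, q} = Ez B W p ∪ Ez B W q := by
  ext i
  rw [mem_cxs, mem_union, mem_Ez, mem_Ez]
  constructor
  · rintro ⟨h1, v, hv⟩
    rw [mem_inter, mem_insert, mem_singleton] at hv
    rcases hv with ⟨h2, rfl | rfl⟩
    · exact Or.inl ⟨h2, h1⟩
    · exact Or.inr ⟨h2, h1⟩
  · rintro (⟨h1, h2⟩ | ⟨h1, h2⟩)
    · exact ⟨h2, p, mem_inter.2 ⟨h1, by simp⟩⟩
    · exact ⟨h2, q, mem_inter.2 ⟨h1, by simp⟩⟩

/-- a block containing `p` and `q` and meeting the critical set `W` absorbs the pair. -/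
theorem rho_pair_le {W : Finset V} (hc : Cov B W) (hcr : ∀ w ∈ W, rho B (W.erase w) + 1 = rho B W)
    {p q : V} {i : ι} (hp : p ∈ B i) (hq : q ∈ B i) (hi : (B i ∩ W).Nonempty) :
    rho B (W ∪ {p, q}) ≤ rho B W := by
  classical
  obtain ⟨w, hw⟩ := hi
  rw [mem_inter] at hw
  have hc2 : Cov B (W ∪ {p, q}) := by
    intro v hv
    rw [mem_union, mem_insert, mem_singleton] at hv
    rcases hv with hv | rfl | rfl
    · exact hc v hv
    · exact ⟨i, hp⟩
    · exact ⟨i, hq⟩
  have h1 := rho_le_sdiff (i := i) (Subset.refl (B i)) hc2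
  have h2 : rho B ((W ∪ {p, q}) \ B i) ≤ rho B (W.erase w) := by
    refine rho_mono ?_ (hc.mono (erase_subset _ _))
    intro v hv
    rw [mem_sdiff, mem_union, mem_insert, mem_singleton] at hv
    rcases hv with ⟨hv | rfl | rfl, hvi⟩
    · exact mem_erase.2 ⟨fun he => hvi (he ▸ hw.1), hv⟩
    · exact absurd hp hvi
    · exact absurd hq hvi
  have h3 := hcr w hw.2
  omega

/-- refused pairs of a critical set have no common block. -/
theorem Shr.of_refused {W X T : Finset V} (hc : Cov B W)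
    (hcr : ∀ w ∈ W, rho B (W.erase w) + 1 = rho B W)
    (h : ∀ p q r, Lab T p q r → (Ez B X r).Nonempty → rho B W < rho B (W ∪ {p, q})) :
    Shr B W X T := by
  intro p q r hL hr
  rw [disjoint_left]
  intro i hi hi'
  rw [mem_Ez] at hi hi'
  have h1 := rho_pair_le hc hcr hi.1 hi'.1 hi.2
  have h2 := h p q r hL hr
  omega

/-- the numbers of a labelled triple. -/
theorem Lab.nums [DecidableEq ι] {W X T : Finset V} {p q r : V} (hL : Lab T p q r)
    (hS : Shr B W X T) :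
    kN (Ez B W p).card (Ez B W q).card (Ez B W r).card (Ez B X p).card (Ez B X q).card
      (Ez B X r).card (Ez B W q ∩ Ez B W r).card (Ez B W p ∩ Ez B W r).card
      (Ez B W p ∩ Ez B W q).card ≤ kpt B W X T := by
  have hpT := hL.mp
  have hqT := hL.mq
  have hrT := hL.mr
  have hor : ∀ v ∈ T, v = p ∨ v = q ∨ v = r := by
    intro v hv
    rw [hL.eq] at hv
    simpa using hv
  have single : ∀ x y z : V, Lab T x y z → 0 < (Ez B X z).card →
      fv (Ez B W x).card (Ez B W y).card ≤ kpt B W X T := by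
    intro x y z h hz
    have h1 := le_kpt (B := B) (W := W) (X := X) (T := T) (J1 := {x}) (J2 := {y})
      (singleton_subset_iff.2 h.mp) (singleton_subset_iff.2 h.mq)
      (disjoint_singleton.2 h.pq) (by
        intro a ha b hb c hc h1 h2
        rw [mem_singleton] at ha hb
        subst ha hb
        rw [h.eq, mem_insert, mem_insert, mem_singleton] at hc
        rcases hc with rfl | rfl | rfl
        · exact absurd rfl h1
        · exact absurd rfl h2
        · exact card_pos.1 hz)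
    rwa [cxs_single, cxs_single] at h1
  have double : ∀ x y z : V, Lab T x y z → 0 < (Ez B X y).card → 0 < (Ez B X z).card →
      fv (Ez B W x).card ((Ez B W y).card + (Ez B W z).card - (Ez B W y ∩ Ez B W z).card) ≤
        kpt B W X T := by
    intro x y z h hy hz
    have h1 := le_kpt (B := B) (W := W) (X := X) (T := T) (J1 := {x}) (J2 := {y, z})
      (singleton_subset_iff.2 h.mp) (by
        intro v hv
        rw [mem_insert, mem_singleton] at hv
        rcases hv with rfl | rfl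
        · exact h.mq
        · exact h.mr)
      (by
        rw [disjoint_singleton_left, mem_insert, mem_singleton]
        rintro (h2 | h2)
        · exact h.pq h2
        · exact h.pr h2) (by
        intro a ha b hb c hc h1 h2
        rw [mem_singleton] at ha
        rw [mem_insert, mem_singleton] at hb
        subst ha
        rw [h.eq, mem_insert, mem_insert, mem_singleton] at hc
        rcases hc with rfl | rfl | rfl
        · exact absurd rfl h1
        · exact card_pos.1 hy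
        · exact card_pos.1 hz)
    rw [cxs_single, cxs_pair] at h1
    have h2 := card_union_add_card_inter (Ez B W y) (Ez B W z)
    have h3 : (Ez B W y).card + (Ez B W z).card - (Ez B W y ∩ Ez B W z).card =
        (Ez B W y ∪ Ez B W z).card := by omega
    rw [h3]
    exact h1
  unfold kN
  refine max_le (max_le ?_ (max_le ?_ ?_)) (max_le ?_ (max_le ?_ ?_))
  · split_ifs with h
    · exact single p q r hL h
    · exact Nat.zero_le _
  · split_ifs with h
    · exact single p r q hL.swap h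
    · exact Nat.zero_le _
  · split_ifs with h
    · exact single q r p hL.rot h
    · exact Nat.zero_le _
  · split_ifs with h
    · exact double p q r hL h.1 h.2
    · exact Nat.zero_le _
  · split_ifs with h
    · exact double q p r hL.swap.rot.rot h.1 h.2
    · exact Nat.zero_le _
  · split_ifs with h
    · exact double r p q hL.rot.rot h.1 h.2
    · exact Nat.zero_le _

/-- bounds for the numbers of common blocks. -/
theorem Shr.bound [DecidableEq ι] {W X T : Finset V} (hS : Shr B W X T) {p q r : V}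
    (hL : Lab T p q r) :
    (Ez B W p ∩ Ez B W q).card < sR (Ez B X r).card (Ez B W p).card (Ez B W q).card := by
  unfold sR
  split_ifs with h
  · rw [Nat.lt_succ_iff]
    exact le_min (card_le_card inter_subset_left) (card_le_card inter_subset_right)
  · have h1 := hS p q r hL (card_pos.1 (by omega))
    rw [disjoint_iff_inter_eq_empty.1 h1]
    simp

/-- an exact pattern of class `k` at the node `Y`. -/
def PatY (B : ι → Finset V) (Y T : Finset V) (k : ℕ) : Prop :=
  ∃ p q r, Lab T p q r ∧ (Ez B Y p).card = 4 ∧ Ez B Y r ⊆ Ez B Y q ∧ (Ez B Y q).card = k ∧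
    (k = 3 ∨ (Ez B Y r).Nonempty)

theorem sub_of_card_inter [DecidableEq ι] {S S' : Finset ι} (h : (S ∩ S').card = S'.card) :
    S' ⊆ S := by
  have h1 : S ∩ S' = S' := eq_of_subset_of_card_le inter_subset_right h.ge
  rw [← h1]
  exact inter_subset_left

theorem PatY.of_pN [DecidableEq ι] {Y T : Finset V} {k : ℕ} {p q r : V} (hL : Lab T p q r)
    (h : pN k (Ez B Y p).card (Ez B Y q).card (Ez B Y r).card (Ez B Y q ∩ Ez B Y r).card) :
    PatY B Y T k := by
  obtain ⟨h1, h2, _, h4, h5⟩ := h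
  exact ⟨p, q, r, hL, h1, sub_of_card_inter h2, h4, h5.imp id fun h => card_pos.1 h⟩

theorem PatY.of_pA [DecidableEq ι] {Y T : Finset V} {k : ℕ} {p q r : V} (hL : Lab T p q r)
    (h : pA k (Ez B Y p).card (Ez B Y q).card (Ez B Y r).card (Ez B Y q ∩ Ez B Y r).card
      (Ez B Y p ∩ Ez B Y r).card (Ez B Y p ∩ Ez B Y q).card) : PatY B Y T k := by
  rcases h with h | h | h | h | h | h
  · exact PatY.of_pN hL h
  · rw [inter_comm] at h
    exact PatY.of_pN hL.swap h
  · exact PatY.of_pN hL.swap.rot.rot h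
  · rw [inter_comm] at h
    exact PatY.of_pN hL.rot h
  · exact PatY.of_pN hL.rot.rot h
  · rw [inter_comm] at h
    exact PatY.of_pN hL.swap.rot h

/-- the table of an edge triple without useless hits. -/
structure KapT (B : ι → Finset V) (W X T : Finset V) : Prop where
  six : 6 ≤ kpt B W X T + kpt B X W T
  weakW : kpt B W X T < 2 → 6 ≤ kpt B X W T
  weakX : kpt B X W T < 2 → 6 ≤ kpt B W X T
  both : 2 ≤ kpt B W X T → 2 ≤ kpt B X W T → 6 ≤ min (kpt B W X T) 4 + min (kpt B X W T) 4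
  exact : kpt B W X T + kpt B X W T < 8 →
    (kpt B W X T < 2 ∧ (PatY B W T 1 ∨ PatY B X T 3)) ∨
    (kpt B X W T < 2 ∧ (PatY B X T 1 ∨ PatY B W T 3)) ∨
    (kpt B W X T < 6 ∧ kpt B X W T < 6 ∧ (PatY B W T 2 ∨ PatY B X T 2))

/-- **the pattern table.** -/
theorem kpt_table {W X T : Finset V} (hT : T.card = 3) (h1 : Shr B W X T) (h2 : Shr B X W T)
    (hrow : ∀ p ∈ T, (Ez B W p).card + (Ez B X p).card = 4)
    (hW : ∃ p ∈ T, (Ez B W p).Nonempty) (hX : ∃ p ∈ T, (Ez B X p).Nonempty) :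
    KapT B W X T := by
  classical
  obtain ⟨p, q, r, hL⟩ := exists_lab hT
  have hsum : ∀ Y : Finset V, (∃ p ∈ T, (Ez B Y p).Nonempty) →
      0 < (Ez B Y p).card + (Ez B Y q).card + (Ez B Y r).card := by
    rintro Y ⟨x, hx, hxe⟩
    have h3 := card_pos.2 hxe
    rw [hL.eq, mem_insert, mem_insert, mem_singleton] at hx
    rcases hx with rfl | rfl | rfl <;> omega
  have hb1 := h1.bound hL.rot
  have hb2 := h1.bound hL.swap
  have hb3 := h1.bound hL
  have hc1 := h2.bound hL.rot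
  have hc2 := h2.bound hL.swap
  have hc3 := h2.bound hL
  have ht := tab0_spec (hrow p hL.mp) (hrow q hL.mq) (hrow r hL.mr) (hsum W hW) (hsum X hX)
    hb1 hb2 hb3 hc1 hc2 hc3
  have hk1 := hL.nums h1
  have hk2 := hL.nums h2
  have he1 := kpt_even (B := B) W X T
  have he2 := kpt_even (B := B) X W T
  obtain ⟨t1, t2, t3, t4, t5⟩ := ht
  refine ⟨by omega, by omega, by omega, by omega, fun h8 => ?_⟩
  rcases t5 (by omega) with ⟨t6, t7⟩ | ⟨t6, t7⟩ | ⟨t6, t7, t8⟩
  · refine Or.inl ⟨by omega, ?_⟩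
    rcases t7 with t7 | t7
    · exact Or.inl (PatY.of_pA hL t7)
    · exact Or.inr (PatY.of_pA hL t7)
  · refine Or.inr (Or.inl ⟨by omega, ?_⟩)
    rcases t7 with t7 | t7
    · exact Or.inl (PatY.of_pA hL t7)
    · exact Or.inr (PatY.of_pA hL t7)
  · refine Or.inr (Or.inr ⟨by omega, by omega, ?_⟩)
    rcases t8 with t7 | t7
    · exact Or.inl (PatY.of_pA hL t7)
    · exact Or.inr (PatY.of_pA hL t7)

/-- even demands with sum six; a demand six only if the other value is zero. -/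
theorem KapT.demands {W X T : Finset V} (h : KapT B W X T) :
    ∃ d d' : ℕ, d + d' = 6 ∧ d % 2 = 0 ∧ d ≤ kpt B W X T ∧ d' ≤ kpt B X W T ∧
      (4 < d → kpt B X W T < 2) ∧ (4 < d' → kpt B W X T < 2) := by
  have h1 := h.weakW
  have h2 := h.weakX
  have h3 := h.both
  have he1 := kpt_even (B := B) W X T
  have he2 := kpt_even (B := B) X W T
  by_cases hW : kpt B W X T < 2
  · exact ⟨0, 6, by omega, by omega, by omega, h1 hW, by omega, fun _ => hW⟩
  by_cases hX : kpt B X W T < 2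
  · exact ⟨6, 0, by omega, by omega, h2 hX, by omega, fun _ => hX, by omega⟩
  have h4 := h3 (by omega) (by omega)
  by_cases h5 : 4 ≤ kpt B X W T
  · exact ⟨2, 4, by omega, by omega, by omega, by omega, by omega, by omega⟩
  · exact ⟨4, 2, by omega, by omega, by omega, by omega, by omega, by omega⟩

/-- a pattern with one useless hit and sum `k` less than six. -/
def QatY (B : ι → Finset V) (Y Z T : Finset V) (k : ℕ) : Prop :=
  ∃ p q r, Lab T p q r ∧ Ez B Z p = ∅ ∧ Ez B Y r ⊆ Ez B Y q ∧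
    ((k = 2 ∧ (Ez B Y p).card = 4 ∧ (Ez B Y q).card = 1 ∧ (Ez B Z q).card = 3 ∧
      (Ez B Y r).card = 1 ∧ (Ez B Z r).card = 2) ∨
    (k = 2 ∧ (Ez B Y p).card = 4 ∧ (Ez B Y q).card = 1 ∧ (Ez B Z q).card = 2 ∧
      (Ez B Y r).card = 1 ∧ (Ez B Z r).card = 3) ∨
    (k = 4 ∧ (Ez B Y p).card = 3 ∧ (Ez B Y q).card = 2 ∧ (Ez B Z q).card = 2 ∧
      (((Ez B Y r).card = 1 ∧ (Ez B Z r).card = 3) ∨
        ((Ez B Y r).card = 2 ∧ (Ez B Z r).card = 2))) ∨
    (k = 4 ∧ (Ez B Y p).card = 4 ∧ (Ez B Y q).card = 2 ∧ (Ez B Z q).card = 1 ∧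
      (((Ez B Y r).card = 0 ∧ (Ez B Z r).card = 4) ∨
        ((Ez B Y r).card = 1 ∧ (Ez B Z r).card = 3) ∨
        ((Ez B Y r).card = 2 ∧ (Ez B Z r).card = 2))))

theorem QatY.of_qN [DecidableEq ι] {Y Z T : Finset V} {k : ℕ} {p q r : V} (hL : Lab T p q r)
    (h : qN k (Ez B Y p).card (Ez B Z p).card (Ez B Y q).card (Ez B Z q).card (Ez B Y r).card
      (Ez B Z r).card (Ez B Y q ∩ Ez B Y r).card) : QatY B Y Z T k := by
  obtain ⟨h1, h2, _, h4⟩ := h
  exact ⟨p, q, r, hL, card_eq_zero.1 h1, sub_of_card_inter h2, h4⟩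

theorem QatY.of_qA [DecidableEq ι] {Y Z T : Finset V} {k : ℕ} {p q r : V} (hL : Lab T p q r)
    (h : qA k (Ez B Y p).card (Ez B Y q).card (Ez B Y r).card (Ez B Z p).card (Ez B Z q).card
      (Ez B Z r).card (Ez B Y q ∩ Ez B Y r).card (Ez B Y p ∩ Ez B Y r).card
      (Ez B Y p ∩ Ez B Y q).card) : QatY B Y Z T k := by
  rcases h with h | h | h | h | h | h
  · exact QatY.of_qN hL h
  · rw [inter_comm] at h
    exact QatY.of_qN hL.swap h
  · exact QatY.of_qN hL.swap.rot.rot h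
  · rw [inter_comm] at h
    exact QatY.of_qN hL.rot h
  · exact QatY.of_qN hL.rot.rot h
  · rw [inter_comm] at h
    exact QatY.of_qN hL.swap.rot h

/-- at most one useless hit at every point: the sum of the values is at least two. -/
theorem kpt_useless {W X T : Finset V} (hT : T.card = 3) (h1 : Shr B W X T) (h2 : Shr B X W T)
    (hrow : ∀ p ∈ T, (Ez B W p).card + (Ez B X p).card ≤ 4)
    (hrow' : ∀ p ∈ T, 3 ≤ (Ez B W p).card + (Ez B X p).card)
    (hW : ∃ p ∈ T, (Ez B W p).Nonempty) (hX : ∃ p ∈ T, (Ez B X p).Nonempty) :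
    2 ≤ kpt B W X T + kpt B X W T ∧
    (∑ p ∈ T, ((Ez B W p).card + (Ez B X p).card) = 11 →
      kpt B W X T + kpt B X W T < 6 →
      (QatY B W X T 2 ∨ QatY B X W T 2) ∨
        (4 ≤ kpt B W X T + kpt B X W T ∧ (QatY B W X T 4 ∨ QatY B X W T 4))) := by
  classical
  obtain ⟨p, q, r, hL⟩ := exists_lab hT
  have hsum : ∀ Y : Finset V, (∃ p ∈ T, (Ez B Y p).Nonempty) →
      0 < (Ez B Y p).card + (Ez B Y q).card + (Ez B Y r).card := by
    rintro Y ⟨x, hx, hxe⟩
    have h3 := card_pos.2 hxe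
    rw [hL.eq, mem_insert, mem_insert, mem_singleton] at hx
    rcases hx with rfl | rfl | rfl <;> omega
  have hb1 := h1.bound hL.rot
  have hb2 := h1.bound hL.swap
  have hb3 := h1.bound hL
  have hc1 := h2.bound hL.rot
  have hc2 := h2.bound hL.swap
  have hc3 := h2.bound hL
  have p1 := hrow p hL.mp
  have q1 := hrow q hL.mq
  have r1 := hrow r hL.mr
  have p2 := hrow' p hL.mp
  have q2 := hrow' q hL.mq
  have r2 := hrow' r hL.mr
  have ht := tab1_spec (e1 := 4 - ((Ez B W p).card + (Ez B X p).card))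
    (e2 := 4 - ((Ez B W q).card + (Ez B X q).card))
    (e3 := 4 - ((Ez B W r).card + (Ez B X r).card))
    (by omega) (by omega) (by omega) (by omega) (by omega) (by omega) (hsum W hW) (hsum X hX)
    hb1 hb2 hb3 hc1 hc2 hc3
  have hk1 := hL.nums h1
  have hk2 := hL.nums h2
  have he1 := kpt_even (B := B) W X T
  have he2 := kpt_even (B := B) X W T
  obtain ⟨t1, t2⟩ := ht
  refine ⟨by omega, fun h3 h4 => ?_⟩
  have hs : ∑ p ∈ T, ((Ez B W p).card + (Ez B X p).card) =
      (Ez B W p).card + (Ez B X p).card + ((Ez B W q).card + (Ez B X q).card +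
        ((Ez B W r).card + (Ez B X r).card)) := by
    rw [hL.eq, sum_insert (by simp [hL.pq, hL.pr]), sum_insert (by simp [hL.qr]), sum_singleton]
  rw [hs] at h3
  obtain ⟨t3, t4⟩ := t2 (by omega)
  by_cases h5 : kN (Ez B W p).card (Ez B W q).card (Ez B W r).card (Ez B X p).card
      (Ez B X q).card (Ez B X r).card (Ez B W q ∩ Ez B W r).card (Ez B W p ∩ Ez B W r).card
      (Ez B W p ∩ Ez B W q).card + kN (Ez B X p).card (Ez B X q).card (Ez B X r).card
      (Ez B W p).card (Ez B W q).card (Ez B W r).card (Ez B X q ∩ Ez B X r).card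
      (Ez B X p ∩ Ez B X r).card (Ez B X p ∩ Ez B X q).card < 4
  · refine Or.inl ?_
    rcases t3 h5 with t5 | t5
    · exact Or.inl (QatY.of_qA hL t5)
    · exact Or.inr (QatY.of_qA hL t5)
  · refine Or.inr ⟨by omega, ?_⟩
    rcases t4 (by omega) (by omega) with t5 | t5
    · exact Or.inl (QatY.of_qA hL t5)
    · exact Or.inr (QatY.of_qA hL t5)

/-- closings of disjoint triples at the same node. -/
theorem PairCl.of_opts {Q W : Finset V} {τ : Type u} {T X J1 J2 : τ → Finset V}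
    {E1 E2 : τ → Finset ι} (hO : ∀ t, POpt B W (X t) (T t) (J1 t) (J2 t) (E1 t) (E2 t))
    (hWQ : W ⊆ Q) (hT : ∀ t, T t ⊆ Q \ W) (hT3 : ∀ t, (T t).card = 3)
    (hd : ∀ s t, s ≠ t → Disjoint (T s) (T t))
    (hcost : ∀ (I : Finset τ) (f g r : τ → V),
      (∀ t ∈ I, Lab (T t) (f t) (g t) (r t) ∧ (Ez B (X t) (r t)).Nonempty) →
      rho B W + I.card ≤ rho B (W ∪ (I.image f ∪ I.image g))) :
    PairCl B Q W J1 J2 E1 E2 := by
  refine ⟨hWQ, fun t => (hO t).J1T.trans (hT t), fun t => (hO t).J2T.trans (hT t),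
    fun t => (hO t).J12, fun s t hst => ?_, fun t => (hO t).E1J, fun t => (hO t).E2J,
    fun t => (hO t).E2ne, fun t => (hO t).le, fun t => (hO t).le4, fun t => (hO t).le5, ?_⟩
  · exact disjoint_of_subset_left (union_subset (hO s).J1T (hO s).J2T)
      (disjoint_of_subset_right (union_subset (hO t).J1T (hO t).J2T) (hd s t hst))
  · intro I f g hfg
    have hex : ∀ t, ∃ r, t ∈ I → Lab (T t) (f t) (g t) r := by
      intro t
      by_cases ht : t ∈ I
      · obtain ⟨h1, h2⟩ := hfg t ht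
        have hne : f t ≠ g t := fun he => disjoint_left.1 (hO t).J12 h1 (he ▸ h2)
        have hfT := (hO t).J1T h1
        have hgT := (hO t).J2T h2
        have hc : ((T t \ {f t, g t})).card = 1 := by
          rw [card_sdiff_of_subset (by
            intro v hv
            rw [mem_insert, mem_singleton] at hv
            rcases hv with rfl | rfl
            · exact hfT
            · exact hgT), hT3 t, card_pair hne]
        obtain ⟨r, hr⟩ := card_eq_one.1 hc
        have hr' : r ∈ T t \ {f t, g t} := by rw [hr]; simp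
        rw [mem_sdiff, mem_insert, mem_singleton] at hr'
        push Not at hr'
        refine ⟨r, fun _ => ⟨?_, hne, hr'.2.1.symm, hr'.2.2.symm⟩⟩
        ext v
        rw [mem_insert, mem_insert, mem_singleton]
        constructor
        · intro hv
          by_cases h5 : v = f t
          · exact Or.inl h5
          by_cases h6 : v = g t
          · exact Or.inr (Or.inl h6)
          have h7 : v ∈ T t \ {f t, g t} := mem_sdiff.2 ⟨hv, by simp [h5, h6]⟩
          rw [hr, mem_singleton] at h7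
          exact Or.inr (Or.inr h7)
        · rintro (rfl | rfl | rfl)
          · exact hfT
          · exact hgT
          · exact hr'.1
      · exact ⟨f t, fun h => absurd h ht⟩
    choose r hr using hex
    refine hcost I f g r fun t ht => ⟨hr t ht, ?_⟩
    obtain ⟨h1, h2⟩ := hfg t ht
    exact (hO t).third _ h1 _ h2 _ (hr t ht).mr (hr t ht).pr.symm (hr t ht).qr.symm

end

end Pool.Agent.Hyp6
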