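import Pool.Agent.Hyp6.L3Cap
import Pool.Agent.Hyp6.L3Pt

/-!
# HYP6 L3CNT: the count at a class

`Cn B Q W K u`: the count inequality for the class `W` with `K` inner triples and `u` inner points of
`U` (also blocks with three points of `U` are allowed). `star_*`: the star inequality in the cases in
which it follows from the count.
-/

set_option autoImplicit false

namespace Pool.Agent.Hyp6

open Finset Pool.Agent.Hyp5

universe u v

variable {V : Type v} [DecidableEq V] {ι : Type u} [Fintype ι] {B : ι → Finset V}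

section Hits

theorem hit_union_left {Y Y' : Finset V} (W : Finset V) (hd : Disjoint Y Y') :
    hit B (Y ∪ Y') W = hit B Y W + hit B Y' W := by
  unfold hit
  rw [← sum_add_distrib]
  refine sum_congr rfl fun i _ => ?_
  rw [inter_union_distrib_left]
  exact card_union_of_disjoint (disjoint_of_subset_left inter_subset_right
    (disjoint_of_subset_right inter_subset_right hd))

theorem hit_mono_left {Y Y' : Finset V} (W : Finset V) (h : Y ⊆ Y') : hit B Y W ≤ hit B Y' W :=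
  sum_le_sum fun _ _ => card_le_card (inter_subset_inter_left h)

theorem hit_empty_left (W : Finset V) : hit B ∅ W = 0 := by
  simp [hit]

/-- disjoint sets of outside points have disjoint hits. -/
theorem sum_hit_le {γ : Type*} [DecidableEq γ] (J : Finset γ) (Y : γ → Finset V)
    {Z W : Finset V} (hY : ∀ j ∈ J, Y j ⊆ Z) (hd : ∀ j ∈ J, ∀ k ∈ J, j ≠ k → Disjoint (Y j) (Y k)) :
    ∑ j ∈ J, hit B (Y j) W ≤ hit B Z W := by
  have h1 : ∑ j ∈ J, hit B (Y j) W = hit B (J.biUnion Y) W := by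
    clear hY
    induction J using Finset.induction_on with
    | empty => simp [hit]
    | insert j J hj ih =>
      rw [sum_insert hj, biUnion_insert, hit_union_left W, ih]
      · exact fun a ha b hb => hd a (mem_insert_of_mem ha) b (mem_insert_of_mem hb)
      · rw [disjoint_biUnion_right]
        intro k hk
        refine hd j (mem_insert_self _ _) k (mem_insert_of_mem hk) ?_
        rintro rfl
        exact hj hk
  rw [h1]
  exact hit_mono_left W (biUnion_subset.2 hY)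

/-- the capacity of `W` in `Q`. -/
theorem hit_add_fsQ {Q W : Finset V} (hr : Reg B W) (hW : W ⊆ Q) :
    (hit B (Q \ W) W : ℤ) + fs B Q W = hc B W := by
  have h1 := hit_add_fs (Y := Q \ W) hr disjoint_sdiff
  rwa [union_sdiff_of_subset hW] at h1

/-- a point with two single traces has four free places. -/
theorem four_ee_le_fs {Q W : Finset V} (h3 : Tr3 B Q) :
    4 * (ee B Q W : ℤ) ≤ fs B Q W := by
  classical
  have h1 := two_ee_le (B := B) Q W
  set S := (ins B Q W).filter (fun i => (B i ∩ Q).card = 1) with hS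
  have h2 : S ⊆ tch B W := by
    intro i hi
    obtain ⟨h4, h5⟩ := mem_filter.1 hi
    rw [mem_ins] at h4
    obtain ⟨v, hv⟩ := h4.1
    exact cost_mem_tch.2 ⟨v, mem_inter.2 ⟨(mem_inter.1 hv).1, h4.2 hv⟩⟩
  have h3' : ∑ i ∈ S, (3 - ((B i ∩ Q).card : ℤ)) ≤ fs B Q W := by
    unfold fs
    refine sum_le_sum_of_subset_of_nonneg h2 fun i _ _ => ?_
    have := h3 i
    omega
  have h4 : ∑ i ∈ S, (3 - ((B i ∩ Q).card : ℤ)) = 2 * S.card := by
    rw [sum_congr rfl fun i hi => by rw [(mem_filter.1 hi).2], sum_const, nsmul_eq_mul]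
    push_cast
    ring
  have h5 : (2 * (ee B Q W : ℤ)) ≤ S.card := by exact_mod_cast h1
  linarith

end Hits

/-- the number of blocks inside `X` with three points of `U`. -/
def utr [DecidableEq ι] (B : ι → Finset V) (W X : Finset V) (T : Finset ι) (U : Finset V) : ℕ :=
  ((ins B W X \ T).filter (fun i => (B i ∩ U).card = 3)).card

namespace Cpd

variable {Z U X : Finset V} {T : Finset ι}

theorem sum_beta_ge (h : Cpd B Z T U X) [DecidableEq ι] :
    -(utr B Z X T U : ℤ) ≤ ∑ i ∈ ins B Z X \ T, (2 - ((B i ∩ U).card : ℤ)) := by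
  unfold utr
  rw [card_filter]
  push_cast
  rw [← sum_neg_distrib]
  refine sum_le_sum fun i _ => ?_
  have h1 : (B i ∩ U).card ≤ 3 := (card_le_card (inter_subset_inter_left h.sub)).trans (h.tr3 i)
  split_ifs <;> omega

/-- the count with the blocks with three points of `U`. -/
theorem count_A (h : Cpd B Z T U X) [DecidableEq ι] (h2 : ∀ i, (B i ∩ (Z \ X)).card ≤ 2)
    (hU : ∀ i, (B i ∩ (Z \ X)).Nonempty → (B i ∩ U).Nonempty →
      (B i ∩ (Z \ X)).card = 1 ∧ (B i ∩ U).card = 1) :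
    55 * sv B Z + 6 * hc B Z - 13 * (T.card : ℤ) - utr B Z X T U ≤ 5 * Pp B Z := by
  have h1 := h.five_Pp_ge h2 hU
  have h3 := h.sum_beta_ge
  linarith

/-- the potential of `Z` if the inner triples belong to an optimal cover. -/
theorem count_B (h : Cpd B Z T U X) [DecidableEq ι]
    (hr : (rho B Z : ℤ) = rho B (Z \ X) + T.card) (hp : 0 ≤ Pp B (Z \ X)) :
    4 * (U.card : ℤ) - 6 * (T.card : ℤ) + 4 * (utr B Z X T U : ℤ) ≤ Pp B Z := by
  have h1 := Pp_sdiff (B := B) h.XZ
  have h2 := h.card_X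
  have h3 : (ins B Z X).card = T.card + (ins B Z X \ T).card := by
    have := card_sdiff_add_card_eq_card h.T_sub
    omega
  have h4 : utr B Z X T U ≤ (ins B Z X \ T).card := card_filter_le _ _
  have h5 : (utr B Z X T U : ℤ) ≤ (ins B Z X \ T).card := by exact_mod_cast h4
  rw [h1, hr, h2, h3]
  push_cast
  linarith

/-- **the count**: the blocks with three points of `U` are eliminated. -/
theorem count_C (h : Cpd B Z T U X) [DecidableEq ι] (h2 : ∀ i, (B i ∩ (Z \ X)).card ≤ 2)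
    (hU : ∀ i, (B i ∩ (Z \ X)).Nonempty → (B i ∩ U).Nonempty →
      (B i ∩ (Z \ X)).card = 1 ∧ (B i ∩ U).card = 1)
    (hr : (rho B Z : ℤ) = rho B (Z \ X) + T.card) (hp : 0 ≤ Pp B (Z \ X)) :
    1100 * sv B Z + 120 * hc B Z - 290 * (T.card : ℤ) + 20 * (U.card : ℤ) ≤ 105 * Pp B Z := by
  have h3 := h.count_A h2 hU
  have h4 := h.count_B hr hp
  linarith

end Cpd

/-- the count inequality for the class `W` of `Q` with `K` inner triples and `u` inner points of
`U`. -/
structure Cn (B : ι → Finset V) (Q W : Finset V) (K u : ℕ) : Prop where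
  sub : W ⊆ Q
  cnt : 1100 * sv B W + 120 * (hit B (Q \ W) W : ℤ) + 480 * (ee B Q W : ℤ) - 290 * (K : ℤ) +
    20 * (u : ℤ) ≤ 105 * Pp B W

theorem Cpd.cn {Q Z U X : Finset V} {T : Finset ι} (h : Cpd B Z T U X) [DecidableEq ι]
    (h2 : ∀ i, (B i ∩ (Z \ X)).card ≤ 2)
    (hU : ∀ i, (B i ∩ (Z \ X)).Nonempty → (B i ∩ U).Nonempty →
      (B i ∩ (Z \ X)).card = 1 ∧ (B i ∩ U).card = 1)
    (hr : (rho B Z : ℤ) = rho B (Z \ X) + T.card) (hp : 0 ≤ Pp B (Z \ X)) (hZ : Z ⊆ Q)
    (h3 : Tr3 B Q) : Cn B Q Z T.card U.card := by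
  refine ⟨hZ, ?_⟩
  have h4 := h.count_C h2 hU hr hp
  have h5 := hit_add_fsQ h.reg hZ
  have h6 := four_ee_le_fs (W := Z) h3
  linarith

namespace Frm

variable {Q U : Finset V} {T : Finset ι} {F : Finset (Finset V)} {T' : Finset ι} {U' : Finset V}
  {F' : Finset (Finset V)}

theorem sv_leaves (h : Frm B Q T U F) (hF : F' ⊆ F) : sv B (F'.biUnion id) = -(F'.card : ℤ) := by
  rw [sv_biUnion (fun C hC => h.covF C (hF hC)) (h.sepF.mono hF),
    sum_congr rfl fun C hC => h.sv_leaf (hF hC), sum_const, nsmul_eq_mul]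
  ring

theorem Pp_leaves (h : Frm B Q T U F) (hF : F' ⊆ F) :
    Pp B (F'.biUnion id) = ∑ C ∈ F', Pp B C :=
  Pp_biUnion (fun C hC => h.covF C (hF hC)) (h.sepF.mono hF)

/-- **the count for a class of the frame.** -/
theorem cn (h : Frm B Q T U F) (hr : Reg B Q) (hT : T' ⊆ T) (hU : U' ⊆ U) (hF : F' ⊆ F)
    (hs : sv B (Zp B Q T' U' F') = (T'.card : ℤ) + U'.card - F'.card)
    (hp : ∀ C ∈ F', 0 ≤ Pp B C) : Cn B Q (Zp B Q T' U' F') T'.card U'.card := by
  classical
  have hc' := h.cpd hr hT hU hF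
  have hsd := h.Zp_sdiff hT hU hF
  refine hc'.cn ?_ ?_ ?_ ?_ (h.ZpQ hU hF) h.reg3
  · rw [hsd]
    exact h.leaf_two hF
  · rw [hsd]
    exact fun i h1 h2 => h.leaf_U hF hU h1 h2
  · have h1 := card_sdiff_add_card_eq_card hc'.XZ
    have h2 := hc'.card_X
    have h3 := h.sv_leaves hF
    rw [hsd] at h1 ⊢
    unfold sv at hs h3
    omega
  · rw [hsd, h.Pp_leaves hF]
    exact sum_nonneg hp

end Frm

section Star

variable {Q W : Finset V} {K w : ℕ} {γ : Type*} [DecidableEq γ] {J Jb : Finset γ}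
  {Y : γ → Finset V} {d : γ → ℤ}

/-- the elements of a star at `W`: pairwise disjoint sets of outside points with their hits and
demands; the elements of `Jb` have more hits. -/
structure StarD (B : ι → Finset V) (Q W : Finset V) (J Jb : Finset γ) (Y : γ → Finset V)
    (d : γ → ℤ) : Prop where
  sub : Jb ⊆ J
  out : ∀ j ∈ J, Y j ⊆ Q \ W
  dis : ∀ j ∈ J, ∀ k ∈ J, j ≠ k → Disjoint (Y j) (Y k)
  le : ∀ j ∈ J, d j ≤ 6
  even : ∀ j ∈ J, d j % 2 = 0
  ord : ∀ j ∈ J, 5 * d j + 6 ≤ 6 * (hit B (Y j) W : ℤ)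
  typb : ∀ j ∈ Jb, 5 * d j + 18 ≤ 6 * (hit B (Y j) W : ℤ)

/-- **the general inequality.** -/
theorem star_gen (h : Cn B Q W K w) (hs : StarD B Q W J Jb Y d) :
    1100 * sv B W - 290 * (K : ℤ) + 20 * (w : ℤ) + 480 * (ee B Q W : ℤ) +
      90 * (J.card : ℤ) + 240 * (Jb.card : ℤ) ≤ 105 * (Pp B W - ∑ j ∈ J, d j) := by
  have h1 := h.cnt
  have h2 := sum_hit_le (B := B) (W := W) J Y hs.out hs.dis
  have h3 : ∑ j ∈ J, (hit B (Y j) W : ℤ) ≤ (hit B (Q \ W) W : ℤ) := by exact_mod_cast h2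
  have h4 : ∀ j ∈ J, 105 * d j + 90 + (if j ∈ Jb then 240 else 0) ≤
      120 * (hit B (Y j) W : ℤ) := by
    intro j hj
    have a1 := hs.le j hj
    have a2 := hs.ord j hj
    split_ifs with hb
    · have a3 := hs.typb j hb
      linarith
    · linarith
  have h5 := sum_le_sum h4
  rw [sum_add_distrib, sum_add_distrib, ← mul_sum, ← mul_sum, sum_const, nsmul_eq_mul,
    ← sum_filter, filter_mem_eq_inter, inter_eq_right.2 hs.sub, sum_const, nsmul_eq_mul] at h5
  linarith

omit [DecidableEq γ] in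
theorem star_even (hs : StarD B Q W J Jb Y d) : (Pp B W - ∑ j ∈ J, d j) % 2 = 0 := by
  have h1 := Pp_even (B := B) W
  have h2 : (∑ j ∈ J, d j) % 2 = 0 := by
    rw [Finset.sum_int_mod, sum_congr rfl fun j hj => hs.even j hj]
    simp
  omega

/-- (1.1): value at least one. -/
theorem star_pos (h : Cn B Q W K w) (hs : StarD B Q W J Jb Y d) (h1 : 1 ≤ sv B W)
    (hK : (K : ℤ) ≤ 2 * (sv B W + 1)) : ∑ j ∈ J, d j + 2 * (ee B Q W : ℤ) ≤ Pp B W := by
  have h2 := star_gen h hs
  have h3 : (0 : ℤ) ≤ J.card := by positivity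
  have h4 : (0 : ℤ) ≤ Jb.card := by positivity
  have h5 : (0 : ℤ) ≤ ee B Q W := by positivity
  have h6 : (0 : ℤ) ≤ w := by positivity
  omega

/-- (1.3): value zero. -/
theorem star_zero (h : Cn B Q W K w) (hs : StarD B Q W J Jb Y d) (h1 : sv B W = 0)
    (hK : K ≤ 2) (ht : 3 ≤ J.card) {n : ℕ} (hn : 1 ≤ n ∨ 1 ≤ Jb.card) :
    ∑ j ∈ J, d j + 2 * (ee B Q W : ℤ) ≤ Pp B W + 4 * (n : ℤ) := by
  have h2 := star_gen h hs
  rw [h1] at h2
  have h5 : (0 : ℤ) ≤ ee B Q W := by positivity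
  have h6 : (0 : ℤ) ≤ w := by positivity
  omega

/-- (1.4): value `-1`, nullity at least two: at least five elements. -/
theorem star_neg2 (h : Cn B Q W 0 w) (hs : StarD B Q W J Jb Y d) (h1 : sv B W = -1)
    (ht : 5 ≤ J.card) {n : ℕ} (hn : 2 ≤ n + Jb.card) :
    ∑ j ∈ J, d j + 2 * (ee B Q W : ℤ) ≤ Pp B W + 4 * (n : ℤ) := by
  have h2 := star_gen h hs
  have h3 := star_even hs
  rw [h1] at h2
  have h5 : (0 : ℤ) ≤ ee B Q W := by positivity
  have h6 : (0 : ℤ) ≤ w := by positivity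
  omega

/-- (1.5): value `-1`, two elements of type B and nullity one of the ordinary star. -/
theorem star_neg1 (h : Cn B Q W 0 w) (hs : StarD B Q W J Jb Y d) (h1 : sv B W = -1)
    (ht : 3 ≤ J.card) (hb : 2 ≤ Jb.card) {n : ℕ} (hn : 1 ≤ n) :
    ∑ j ∈ J, d j + 2 * (ee B Q W : ℤ) ≤ Pp B W + 4 * (n : ℤ) := by
  have h2 := star_gen h hs
  rw [h1] at h2
  have h5 : (0 : ℤ) ≤ ee B Q W := by positivity
  have h6 : (0 : ℤ) ≤ w := by positivity
  omega

/-- value `-1`: big stars, the count alone. -/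
theorem star_neg_big (h : Cn B Q W 0 w) (hs : StarD B Q W J Jb Y d) (h1 : sv B W = -1)
    (ht : 891 ≤ 90 * J.card + 240 * Jb.card) :
    ∑ j ∈ J, d j + 2 * (ee B Q W : ℤ) ≤ Pp B W := by
  have h2 := star_gen h hs
  have h3 := star_even hs
  rw [h1] at h2
  have h5 : (0 : ℤ) ≤ ee B Q W := by positivity
  have h6 : (0 : ℤ) ≤ w := by positivity
  omega

/-- value `-1`: three elements of type B. -/
theorem star_neg_b3 (h : Cn B Q W 0 w) (hs : StarD B Q W J Jb Y d) (h1 : sv B W = -1)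
    (hb : 3 ≤ Jb.card) : ∑ j ∈ J, d j + 2 * (ee B Q W : ℤ) ≤ Pp B W := by
  have h7 := card_le_card hs.sub
  exact star_neg_big h hs h1 (by omega)

/-- value zero: big stars. -/
theorem star_zero_big (h : Cn B Q W K w) (hs : StarD B Q W J Jb Y d) (h1 : sv B W = 0)
    (hK : K ≤ 2) (ht : 476 ≤ 90 * J.card + 240 * Jb.card) :
    ∑ j ∈ J, d j + 2 * (ee B Q W : ℤ) ≤ Pp B W := by
  have h2 := star_gen h hs
  rw [h1] at h2
  have h5 : (0 : ℤ) ≤ ee B Q W := by positivity
  have h6 : (0 : ℤ) ≤ w := by positivity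
  omega

end Star

section Opt

/-- the hits of an option. -/
theorem POpt.hit_ge {W X T J1 J2 : Finset V} {E1 E2 : Finset ι} (h : POpt B W X T J1 J2 E1 E2) :
    E1.card + E2.card ≤ hit B T W := by
  classical
  have hsub : ∀ {J : Finset V} {E : Finset ι}, E ⊆ cxs B W J → E.card ≤ hit B J W := by
    intro J E hE
    have h1 : E ⊆ tch B W := fun i hi => cost_mem_tch.2 (mem_cxs.1 (hE hi)).1
    unfold hit
    calc E.card = ∑ _i ∈ E, 1 := by simp
      _ ≤ ∑ i ∈ E, (B i ∩ J).card := sum_le_sum fun i hi => card_pos.2 (mem_cxs.1 (hE hi)).2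
      _ ≤ ∑ i ∈ tch B W, (B i ∩ J).card := sum_le_sum_of_subset h1
  have h1 := hsub h.E1J
  have h2 := hsub h.E2J
  have h3 := hit_union_left (B := B) W h.J12
  have h4 := hit_mono_left (B := B) W (union_subset h.J1T h.J2T)
  omega

/-- a demand is paid by the hits. -/
theorem Dem.ord {W X T : Finset V} {d : ℕ} (h : Dem B W X T d) (hd : d ≤ 6) (he : d % 2 = 0)
    (h1 : 1 ≤ hit B T W) : 5 * (d : ℤ) + 6 ≤ 6 * (hit B T W : ℤ) := by
  rcases h with rfl | ⟨J1, J2, E1, E2, hO, hv⟩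
  · push_cast
    omega
  · have h2 := hO.hit_ge
    have h3 := hO.le
    have h4 := card_pos.2 hO.E2ne
    split_ifs at hv <;> omega

/-- a triple with four hits in both groups. -/
theorem POpt.typb {W X T J1 J2 : Finset V} {E1 E2 : Finset ι} (h : POpt B W X T J1 J2 E1 E2)
    (h4 : E2.card = 4) {d : ℤ} (hd : d ≤ 6) : 5 * d + 18 ≤ 6 * (hit B T W : ℤ) := by
  have h2 := h.hit_ge
  have h3 := h.le
  omega

end Opt

end Pool.Agent.Hyp6
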