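import Pool.Agent.Hyp6.L3Ep
import Pool.Agent.Hyp6.L3Cnt

/-!
# HYP6 L3RT: the rent identity of the max-K frame

All numbers carry the factor `15`. `jh B Q j L` is the number of hits of the triple `j` on blocks
meeting `L`; `jn`, `ja`, `jb` are its hits on the not allowed blocks of the even part, on the allowed
blocks and on the blocks between the removed points; together a triple has twelve hits. The total
`15 Pp Q` is the sum of the leaf terms `15 Pp L + 12 (hits of U on L)`, of `20, 10, 20` for the three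
other kinds of hits of the triples, of `-90` for every triple, and of the free places and hits of `U`
outside of the leaves.
-/

set_option autoImplicit false

namespace Pool.Agent.Hyp6

open Finset Pool.Agent.Hyp5

universe u v

variable {V : Type v} [DecidableEq V] {ι : Type u}

namespace Rt

variable (B : ι → Finset V) (Q : Finset V)

/-- the hits of the triple `j` on `L`. -/
def jh [Fintype ι] (j : ι) (L : Finset V) : ℕ := hit B (B j ∩ Q) L

/-- the hits of the triple `j` on the not allowed blocks of `D`. -/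
noncomputable def jn [Fintype ι] [DecidableEq ι] (D : Finset V) (j : ι) : ℕ :=
  ∑ i ∈ tch B D \ Als B D, (B i ∩ (B j ∩ Q)).card

/-- the hits of the triple `j` on the allowed blocks of `D`. -/
noncomputable def ja [Fintype ι] (D : Finset V) (j : ι) : ℕ :=
  ∑ i ∈ Als B D, (B i ∩ (B j ∩ Q)).card

/-- the blocks between the removed points. -/
def bt [Fintype ι] [DecidableEq ι] (T : Finset ι) (U : Finset V) : Finset ι :=
  ins B Q (Xp B Q T U) \ T

/-- the hits of the triple `j` on the blocks between the removed points. -/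
def jb [Fintype ι] [DecidableEq ι] (T : Finset ι) (U : Finset V) (j : ι) : ℕ :=
  ∑ i ∈ bt B Q T U, (B i ∩ (B j ∩ Q)).card

/-- the free places of the not allowed blocks of `D`. -/
noncomputable def fn [Fintype ι] [DecidableEq ι] (D : Finset V) : ℤ :=
  ∑ i ∈ tch B D \ Als B D, (3 - ((B i ∩ Q).card : ℤ))

/-- the free places of the allowed blocks of `D`. -/
noncomputable def fa [Fintype ι] (D : Finset V) : ℤ := ∑ i ∈ Als B D, (3 - ((B i ∩ Q).card : ℤ))

/-- the free places of the blocks between the removed points. -/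
def fb [Fintype ι] [DecidableEq ι] (T : Finset ι) (U : Finset V) : ℤ :=
  ∑ i ∈ bt B Q T U, (3 - ((B i ∩ Q).card : ℤ))

/-- the hits of `U` on the blocks between the removed points. -/
def ub [Fintype ι] [DecidableEq ι] (T : Finset ι) (U : Finset V) : ℕ :=
  ∑ i ∈ bt B Q T U, (B i ∩ U).card

/-- the hits of the point `u` on `L`. -/
def uh [Fintype ι] (u : V) (L : Finset V) : ℕ := hit B {u} L

/-- the hits of the point `u` outside of the leaves. -/
noncomputable def uo [Fintype ι] [DecidableEq ι] (T : Finset ι) (U : Finset V)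
    (F : Finset (Finset V)) (u : V) : ℕ :=
  hit B {u} (Ep B Q T U F) + ∑ i ∈ bt B Q T U, (B i ∩ {u}).card

/-- the leaf term. -/
noncomputable def lt [Fintype ι] (U L : Finset V) : ℤ := 15 * Pp B L + 12 * (hit B U L : ℤ)

end Rt

open Rt

variable [Fintype ι] {B : ι → Finset V}

omit [Fintype ι] in
/-- incidences with the points of a packing. -/
theorem pack_inter_card {Q : Finset V} {T : Finset ι} (h : Pack B Q 3 T) (S : Finset V) :
    (S ∩ (T.biUnion B ∩ Q)).card = ∑ j ∈ T, (S ∩ (B j ∩ Q)).card := by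
  classical
  have h1 : S ∩ (T.biUnion B ∩ Q) = T.biUnion (fun j => S ∩ (B j ∩ Q)) := by
    ext v
    simp only [mem_inter, mem_biUnion]
    constructor
    · rintro ⟨h1, ⟨j, hj, h2⟩, h3⟩
      exact ⟨j, hj, h1, h2, h3⟩
    · rintro ⟨j, hj, h1, h2, h3⟩
      exact ⟨h1, ⟨j, hj, h2⟩, h3⟩
  rw [h1, card_biUnion]
  intro i hi j hj hne
  exact disjoint_of_subset_left inter_subset_right
    (disjoint_of_subset_right inter_subset_right (h.disj i hi j hj hne))

namespace Frm

variable {Q U : Finset V} {T : Finset ι} {F : Finset (Finset V)}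

omit [Fintype ι] in
/-- a block meeting a leaf: its points in `Q` are in the leaf or removed points. -/
theorem inter_leaf (h : Frm B Q T U F) {L : Finset V} (hL : L ∈ F) {i : ι}
    (hi : (B i ∩ L).Nonempty) :
    (B i ∩ Q).card = (B i ∩ L).card + (B i ∩ (T.biUnion B ∩ Q)).card + (B i ∩ U).card := by
  classical
  have h1 : B i ∩ Q = (B i ∩ L) ∪ ((B i ∩ (T.biUnion B ∩ Q)) ∪ (B i ∩ U)) := by
    ext v
    constructor
    · intro hv
      obtain ⟨hv1, hv2⟩ := mem_inter.1 hv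
      by_cases hX : v ∈ Xp B Q T U
      · refine mem_union_right _ ?_
        rcases mem_union.1 hX with hX | hX
        · exact mem_union_left _ (mem_inter.2 ⟨hv1, hX⟩)
        · exact mem_union_right _ (mem_inter.2 ⟨hv1, hX⟩)
      · refine mem_union_left _ (mem_inter.2 ⟨hv1, ?_⟩)
        have h2 : v ∈ Q \ Xp B Q T U := mem_sdiff.2 ⟨hv2, hX⟩
        rw [h.sdiff_X] at h2
        rcases mem_union.1 h2 with h3 | h3
        · obtain ⟨L', hL', hvL⟩ := mem_biUnion.1 h3
          by_cases he : L' = L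
          · exact he ▸ hvL
          · exact absurd ⟨v, mem_inter.2 ⟨hv1, hvL⟩⟩ ((h.sepF L hL L' hL' (Ne.symm he)).2 i hi)
        · obtain ⟨x, hx⟩ := hi
          obtain ⟨hx1, hx2⟩ := mem_inter.1 hx
          exact absurd ⟨v, mem_inter.2 ⟨hv1, h3⟩⟩
            (h.sepE i ⟨x, mem_inter.2 ⟨hx1, mem_biUnion.2 ⟨L, hL, hx2⟩⟩⟩)
    · intro hv
      rcases mem_union.1 hv with hv | hv
      · exact mem_inter.2 ⟨(mem_inter.1 hv).1, h.FQ hL (mem_inter.1 hv).2⟩
      · rcases mem_union.1 hv with hv | hv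
        · exact mem_inter.2 ⟨(mem_inter.1 hv).1, (mem_inter.1 (mem_inter.1 hv).2).2⟩
        · exact mem_inter.2 ⟨(mem_inter.1 hv).1, DQ (h.UD (mem_inter.1 hv).2)⟩
  have hTU : Disjoint (T.biUnion B ∩ Q) U := by
    rw [disjoint_left]
    intro v hv hv'
    exact (mem_sdiff.1 (h.UD hv')).2 (mem_inter.1 hv).1
  have hLX : Disjoint L (T.biUnion B ∩ Q) := by
    rw [disjoint_left]
    intro v hv hv'
    exact (mem_sdiff.1 (h.FD hL hv)).2 (mem_inter.1 hv').1
  have d1 : Disjoint (B i ∩ (T.biUnion B ∩ Q)) (B i ∩ U) :=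
    disjoint_of_subset_left inter_subset_right (disjoint_of_subset_right inter_subset_right hTU)
  have d2 : Disjoint (B i ∩ L) ((B i ∩ (T.biUnion B ∩ Q)) ∪ (B i ∩ U)) := by
    rw [disjoint_union_right]
    exact ⟨disjoint_of_subset_left inter_subset_right
      (disjoint_of_subset_right inter_subset_right hLX),
      disjoint_of_subset_left inter_subset_right
      (disjoint_of_subset_right inter_subset_right (h.ge.FU L hL))⟩
  rw [h1, card_union_of_disjoint d2, card_union_of_disjoint d1]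
  ring

/-- (R1) the places of a leaf. -/
theorem leaf_places (h : Frm B Q T U F) (hr : Reg B Q) {L : Finset V} (hL : L ∈ F) :
    hc B L = ∑ j ∈ T, (jh B Q j L : ℤ) + hit B U L + fs B Q L := by
  classical
  rw [hc_sum (hr.mono (h.FQ hL))]
  unfold jh hit fs
  push_cast
  rw [sum_comm, ← sum_add_distrib, ← sum_add_distrib]
  refine sum_congr rfl fun i hi => ?_
  have h1 := h.inter_leaf hL (cost_mem_tch.1 hi)
  have h2 := pack_inter_card h.mtp.tpk.pack (B i)
  rw [h1, h2]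
  push_cast
  ring

/-- (R1) the leaf term. -/
theorem leaf_term (h : Frm B Q T U F) (hr : Reg B Q) {L : Finset V} (hL : L ∈ F) :
    lt B U L = 18 * ∑ j ∈ T, (jh B Q j L : ℤ) + 33 * hit B U L + 18 * fs B Q L +
      3 * ((nt B L 1 : ℤ) - hit B U L) - 165 := by
  have h1 := h.leaf_places hr hL
  have h2 : ∀ i, (B i ∩ L).card ≤ 2 := by
    intro i
    rcases (B i ∩ L).eq_empty_or_nonempty with h0 | ⟨v, hv⟩
    · rw [h0, card_empty]
      exact Nat.zero_le _
    · obtain ⟨hv1, hv2⟩ := mem_inter.1 hv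
      exact (card_le_card (inter_subset_inter_left (h.FD hL))).trans (h.two_leaf hL hv1 hv2)
  have h3 := five_Pp_leaf (hr.mono (h.FQ hL)) h2 (h.sv_leaf hL)
  unfold lt
  linarith

/-- the hits of `U` on a leaf are single traces. -/
theorem hitU_one (h : Frm B Q T U F) {L : Finset V} (hL : L ∈ F) :
    hit B U L ≤ nt B L 1 := by
  have h1 := h.hitU_leaf (singleton_subset_iff.2 hL) (Subset.refl U)
  rwa [singleton_biUnion] at h1

omit [Fintype ι] in
theorem dcl_self : Dcl B Q T U F (Ep B Q T U F) :=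
  ⟨Subset.refl _, fun i _ h2 => by simp at h2⟩

theorem Als_tch (D : Finset V) : Als B D ⊆ tch B D := by
  intro i hi
  obtain ⟨x, hx, y, hy, hne, hxi, hyi, hpm⟩ := mem_Als.1 hi
  exact cost_mem_tch.2 ⟨x, mem_inter.2 ⟨hxi, hx⟩⟩

/-- (R2) every triple has twelve hits. -/
theorem twelve (h : Frm B Q T U F) [DecidableEq ι] (hr : Reg B Q) {j : ι} (hj : j ∈ T) :
    ∑ L ∈ F, jh B Q j L + jn B Q (Ep B Q T U F) j + ja B Q (Ep B Q T U F) j +
      jb B Q T U j = 12 := by
  have h1 := sum_inc_sub hr (inter_subset_right (s₁ := B j) (s₂ := Q))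
  rw [h.mtp.tpk.pack.card j hj, sum_tch_split Q (Xp B Q T U), h.sdiff_X,
    (h.cpdQ hr).sum_ins] at h1
  have h2 : ∑ i ∈ tch B (F.biUnion id ∪ Ep B Q T U F), ((B i ∩ (B j ∩ Q)).card : ℤ) =
      ((∑ L ∈ F, jh B Q j L + (jn B Q (Ep B Q T U F) j + ja B Q (Ep B Q T U F) j) : ℕ) : ℤ) := by
    have h3 : ∑ i ∈ tch B (F.biUnion id ∪ Ep B Q T U F), ((B i ∩ (B j ∩ Q)).card : ℤ) =
        ((hit B (B j ∩ Q) (F.biUnion id ∪ Ep B Q T U F) : ℕ) : ℤ) := by
      unfold hit
      push_cast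
      rfl
    rw [h3, hit_add _ h.sepE, hit_biUnion _ h.sepF]
    have h4 : hit B (B j ∩ Q) (Ep B Q T U F) =
        jn B Q (Ep B Q T U F) j + ja B Q (Ep B Q T U F) j := by
      unfold hit jn ja
      exact (sum_sdiff (Als_tch _)).symm
    rw [h4]
    rfl
  have h3 : ∑ i ∈ T, ((B i ∩ (B j ∩ Q)).card : ℤ) = 3 := by
    have h4 : ∀ i ∈ T, ((B i ∩ (B j ∩ Q)).card : ℤ) = if i = j then 3 else 0 := by
      intro i hi
      split_ifs with he
      · subst he
        rw [← inter_assoc, inter_self, h.mtp.tpk.pack.card i hi]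
        rfl
      · have h5 := h.mtp.tpk.pack.disj i hi j hj he
        have h6 : B i ∩ (B j ∩ Q) = ∅ := by
          rw [eq_empty_iff_forall_notMem]
          intro v hv
          obtain ⟨hv1, hv2⟩ := mem_inter.1 hv
          exact disjoint_left.1 h5 (mem_inter.2 ⟨hv1, (mem_inter.1 hv2).2⟩) hv2
        rw [h6, card_empty]
        rfl
    rw [sum_congr rfl h4, sum_ite_eq' T j, if_pos hj]
  rw [h2, h3] at h1
  have h4 : ∑ i ∈ ins B Q (Xp B Q T U) \ T, ((B i ∩ (B j ∩ Q)).card : ℤ) =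
      ((jb B Q T U j : ℕ) : ℤ) := by
    unfold jb bt
    push_cast
    rfl
  rw [h4] at h1
  omega

omit [Fintype ι] in
/-- a block meeting the even part. -/
theorem inter_even (h : Frm B Q T U F) {i : ι} (hi : (B i ∩ Ep B Q T U F).Nonempty) :
    (B i ∩ Q).card = (B i ∩ Ep B Q T U F).card + (B i ∩ (T.biUnion B ∩ Q)).card +
      (B i ∩ U).card := by
  classical
  have h1 : B i ∩ Q = (B i ∩ Ep B Q T U F) ∪ ((B i ∩ (T.biUnion B ∩ Q)) ∪ (B i ∩ U)) := by
    ext v
    constructor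
    · intro hv
      obtain ⟨hv1, hv2⟩ := mem_inter.1 hv
      by_cases hX : v ∈ Xp B Q T U
      · refine mem_union_right _ ?_
        rcases mem_union.1 hX with hX | hX
        · exact mem_union_left _ (mem_inter.2 ⟨hv1, hX⟩)
        · exact mem_union_right _ (mem_inter.2 ⟨hv1, hX⟩)
      · refine mem_union_left _ (mem_inter.2 ⟨hv1, ?_⟩)
        have h2 : v ∈ Q \ Xp B Q T U := mem_sdiff.2 ⟨hv2, hX⟩
        rw [h.sdiff_X] at h2
        rcases mem_union.1 h2 with h3 | h3
        · exact absurd hi (h.sepE i ⟨v, mem_inter.2 ⟨hv1, h3⟩⟩)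
        · exact h3
    · intro hv
      rcases mem_union.1 hv with hv | hv
      · exact mem_inter.2 ⟨(mem_inter.1 hv).1, DQ (ED (mem_inter.1 hv).2)⟩
      · rcases mem_union.1 hv with hv | hv
        · exact mem_inter.2 ⟨(mem_inter.1 hv).1, (mem_inter.1 (mem_inter.1 hv).2).2⟩
        · exact mem_inter.2 ⟨(mem_inter.1 hv).1, DQ (h.UD (mem_inter.1 hv).2)⟩
  have hTU : Disjoint (T.biUnion B ∩ Q) U := by
    rw [disjoint_left]
    intro v hv hv'
    exact (mem_sdiff.1 (h.UD hv')).2 (mem_inter.1 hv).1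
  have hLX : Disjoint (Ep B Q T U F) (T.biUnion B ∩ Q) := by
    rw [disjoint_left]
    intro v hv hv'
    exact (mem_sdiff.1 (ED hv)).2 (mem_inter.1 hv').1
  have hLU : Disjoint (Ep B Q T U F) U := by
    rw [disjoint_left]
    intro v hv hv'
    exact (mem_sdiff.1 (mem_sdiff.1 hv).1).2 hv'
  have d1 : Disjoint (B i ∩ (T.biUnion B ∩ Q)) (B i ∩ U) :=
    disjoint_of_subset_left inter_subset_right (disjoint_of_subset_right inter_subset_right hTU)
  have d2 : Disjoint (B i ∩ Ep B Q T U F) ((B i ∩ (T.biUnion B ∩ Q)) ∪ (B i ∩ U)) := by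
    rw [disjoint_union_right]
    exact ⟨disjoint_of_subset_left inter_subset_right
      (disjoint_of_subset_right inter_subset_right hLX),
      disjoint_of_subset_left inter_subset_right
      (disjoint_of_subset_right inter_subset_right hLU)⟩
  rw [h1, card_union_of_disjoint d2, card_union_of_disjoint d1]
  ring

/-- (R3) the places of the not allowed blocks of the even part. -/
theorem even_places_n (h : Frm B Q T U F) [DecidableEq ι] (hr : Reg B Q) :
    2 * (nt B (Ep B Q T U F) 1 : ℤ) + nNa B (Ep B Q T U F) =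
      ∑ j ∈ T, (jn B Q (Ep B Q T U F) j : ℤ) + hit B U (Ep B Q T U F) +
        fn B Q (Ep B Q T U F) := by
  have he := h.evn hr dcl_self
  have h1 : ∑ i ∈ tch B (Ep B Q T U F) \ Als B (Ep B Q T U F),
      (3 - ((B i ∩ Ep B Q T U F).card : ℤ)) =
      2 * (nt B (Ep B Q T U F) 1 : ℤ) + nNa B (Ep B Q T U F) := by
    have h2 := he.hc_eq
    rw [hc_sum he.reg, ← sum_sdiff (Als_tch (B := B) (Ep B Q T U F))] at h2
    have h3 : ∑ i ∈ Als B (Ep B Q T U F), (3 - ((B i ∩ Ep B Q T U F).card : ℤ)) =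
        nAl B (Ep B Q T U F) := by
      rw [sum_congr rfl fun i hi => by rw [he.alB_two (mem_Als.1 hi)], sum_const, nsmul_eq_mul]
      unfold nAl
      push_cast
      ring
    rw [h3] at h2
    linarith
  rw [← h1]
  have h2 : (hit B U (Ep B Q T U F) : ℤ) =
      ∑ i ∈ tch B (Ep B Q T U F) \ Als B (Ep B Q T U F), ((B i ∩ U).card : ℤ) := by
    unfold hit
    push_cast
    rw [← sum_sdiff (Als_tch (B := B) (Ep B Q T U F))]
    have h3 : ∑ i ∈ Als B (Ep B Q T U F), ((B i ∩ U).card : ℤ) = 0 :=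
      sum_eq_zero fun i hi => by
        rw [h.alB_U hr dcl_self (mem_Als.1 hi)]
        rfl
    rw [h3, add_zero]
  rw [h2]
  unfold jn fn
  push_cast
  rw [sum_comm, ← sum_add_distrib, ← sum_add_distrib]
  refine sum_congr rfl fun i hi => ?_
  have h1 := h.inter_even (cost_mem_tch.1 (mem_sdiff.1 hi).1)
  have h2 := pack_inter_card h.mtp.tpk.pack (B i)
  rw [h1, h2]
  push_cast
  ring

/-- (R3) the places of the allowed blocks of the even part. -/
theorem even_places_a (h : Frm B Q T U F) (hr : Reg B Q) :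
    (nAl B (Ep B Q T U F) : ℤ) = ∑ j ∈ T, (ja B Q (Ep B Q T U F) j : ℤ) +
      fa B Q (Ep B Q T U F) := by
  classical
  have he := h.evn hr dcl_self
  unfold nAl ja fa
  push_cast
  rw [sum_comm, ← sum_add_distrib]
  have h0 : ((Als B (Ep B Q T U F)).card : ℤ) = ∑ i ∈ Als B (Ep B Q T U F), (1 : ℤ) := by simp
  rw [h0]
  refine sum_congr rfl fun i hi => ?_
  have h1 := h.inter_even (cost_mem_tch.1 (Als_tch _ hi))
  have h2 := pack_inter_card h.mtp.tpk.pack (B i)
  rw [h1, h2, he.alB_two (mem_Als.1 hi), h.alB_U hr dcl_self (mem_Als.1 hi),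
    card_empty]
  push_cast
  ring

/-- (R3) the value of the even part. -/
theorem even_term (h : Frm B Q T U F) [DecidableEq ι] (hr : Reg B Q) :
    20 * (∑ j ∈ T, (jn B Q (Ep B Q T U F) j : ℤ) + hit B U (Ep B Q T U F) +
        fn B Q (Ep B Q T U F)) +
      10 * (∑ j ∈ T, (ja B Q (Ep B Q T U F) j : ℤ) + fa B Q (Ep B Q T U F)) ≤
      15 * Pp B (Ep B Q T U F) := by
  have he := h.evn hr dcl_self
  rw [← h.even_places_n hr, ← h.even_places_a hr]
  have h1 := he.five_Pp
  have h2 := he.hc_eq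
  have h3 := he.inc
  have h4 := he.card_le
  rw [h2] at h1
  have h5 : (nt B (Ep B Q T U F) 1 : ℤ) + 2 * nNa B (Ep B Q T U F) +
      3 * nt B (Ep B Q T U F) 3 ≤ 8 * nAl B (Ep B Q T U F) := by
    omega
  linarith

/-- a block between the removed points. -/
theorem inter_bt (h : Frm B Q T U F) [DecidableEq ι] {i : ι} (hi : i ∈ bt B Q T U) :
    (B i ∩ Q).card = (B i ∩ (T.biUnion B ∩ Q)).card + (B i ∩ U).card := by
  have h1 : B i ∩ Q = (B i ∩ (T.biUnion B ∩ Q)) ∪ (B i ∩ U) := by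
    have h2 := (mem_ins.1 (mem_sdiff.1 hi).1).2
    refine Subset.antisymm (fun v hv => ?_) (union_subset ?_ ?_)
    · obtain ⟨hv1, hv2⟩ := mem_inter.1 hv
      rcases mem_union.1 (h2 hv) with h3 | h3
      · exact mem_union_left _ (mem_inter.2 ⟨hv1, h3⟩)
      · exact mem_union_right _ (mem_inter.2 ⟨hv1, h3⟩)
    · exact inter_subset_inter_left inter_subset_right
    · exact inter_subset_inter_left (h.UD.trans DQ)
  have hTU : Disjoint (T.biUnion B ∩ Q) U := by
    rw [disjoint_left]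
    intro v hv hv'
    exact (mem_sdiff.1 (h.UD hv')).2 (mem_inter.1 hv).1
  rw [h1]
  exact card_union_of_disjoint (disjoint_of_subset_left inter_subset_right
    (disjoint_of_subset_right inter_subset_right hTU))

/-- (R4) the places of the blocks between the removed points. -/
theorem bt_places (h : Frm B Q T U F) [DecidableEq ι] :
    3 * ((bt B Q T U).card : ℤ) = ∑ j ∈ T, (jb B Q T U j : ℤ) + ub B Q T U + fb B Q T U := by
  unfold jb ub fb
  push_cast
  rw [sum_comm, ← sum_add_distrib, ← sum_add_distrib]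
  have h0 : 3 * ((bt B Q T U).card : ℤ) = ∑ i ∈ bt B Q T U, (3 : ℤ) := by
    rw [sum_const, nsmul_eq_mul]
    ring
  rw [h0]
  refine sum_congr rfl fun i hi => ?_
  have h1 := h.inter_bt hi
  have h2 := pack_inter_card h.mtp.tpk.pack (B i)
  rw [h1, h2]
  push_cast
  ring

/-- the hits of `U`. -/
theorem five_U (h : Frm B Q T U F) [DecidableEq ι] (hr : Reg B Q) :
    5 * (U.card : ℤ) = ∑ L ∈ F, (hit B U L : ℤ) + hit B U (Ep B Q T U F) + ub B Q T U := by
  have h1 := (h.cpdQ hr).hitU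
  rw [h.sdiff_X, hit_add U h.sepE, hit_biUnion U h.sepF] at h1
  unfold ub bt
  push_cast at h1 ⊢
  linarith

/-- (R5) **the total**, exact form. -/
theorem total_eq (h : Frm B Q T U F) [DecidableEq ι] (hr : Reg B Q) :
    15 * Pp B Q = ∑ L ∈ F, lt B U L + (15 * Pp B (Ep B Q T U F) +
      12 * (hit B U (Ep B Q T U F) : ℤ)) + (60 * ((bt B Q T U).card : ℤ) + 12 * ub B Q T U) -
      90 * (T.card : ℤ) := by
  have h1 := h.Pp_eq
  have h2 := h.five_U hr
  have h3 : (((ins B Q (Xp B Q T U)) \ T).card : ℤ) + T.card =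
      (ins B Q (Xp B Q T U)).card := by
    exact_mod_cast card_sdiff_add_card_eq_card h.T_sub_ins
  unfold lt bt
  rw [sum_add_distrib, ← mul_sum, ← mul_sum]
  linarith

/-- (R5) **the total**, lower bound. -/
theorem total_ge (h : Frm B Q T U F) [DecidableEq ι] (hr : Reg B Q) :
    ∑ L ∈ F, lt B U L + ∑ j ∈ T, (20 * ((jn B Q (Ep B Q T U F) j : ℤ) + jb B Q T U j) +
      10 * ja B Q (Ep B Q T U F) j - 90) +
      (20 * (fn B Q (Ep B Q T U F) + fb B Q T U) + 10 * fa B Q (Ep B Q T U F)) +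
      32 * ((hit B U (Ep B Q T U F) : ℤ) + ub B Q T U) ≤ 15 * Pp B Q := by
  have h1 := h.total_eq hr
  have h2 := h.even_term hr
  have h3 := h.bt_places
  rw [sum_sub_distrib, sum_add_distrib, ← mul_sum, ← mul_sum, sum_add_distrib, sum_const,
    nsmul_eq_mul]
  linarith

/-- the points with two single traces. -/
theorem ee_split (h : Frm B Q T U F) :
    ee B Q Q = ∑ L ∈ F, ee B Q L + ee B Q (Ep B Q T U F) + ee B Q (Xp B Q T U) := by
  rw [← ee_biUnion h.sepF, ← ee_union disE, ← h.sdiff_X, ← ee_union sdiff_disjoint,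
    sdiff_union_of_subset h.XQ]

end Frm

/-- free places of points with two single traces. -/
theorem four_ee_le_sum {Q A : Finset V} (h3 : Tr3 B Q) {S : Finset ι}
    (hS : ∀ i ∈ ins B Q A, (B i ∩ Q).card = 1 → i ∈ S) :
    4 * (ee B Q A : ℤ) ≤ ∑ i ∈ S, (3 - ((B i ∩ Q).card : ℤ)) := by
  classical
  have h1 := two_ee_le (B := B) Q A
  set R := (ins B Q A).filter (fun i => (B i ∩ Q).card = 1) with hR
  have h2 : R ⊆ S := fun i hi => hS i (mem_filter.1 hi).1 (mem_filter.1 hi).2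
  have h3' : ∑ i ∈ R, (3 - ((B i ∩ Q).card : ℤ)) ≤ ∑ i ∈ S, (3 - ((B i ∩ Q).card : ℤ)) := by
    refine sum_le_sum_of_subset_of_nonneg h2 fun i _ _ => ?_
    have := h3 i
    omega
  have h4 : ∑ i ∈ R, (3 - ((B i ∩ Q).card : ℤ)) = 2 * R.card := by
    rw [sum_congr rfl fun i hi => by rw [(mem_filter.1 hi).2], sum_const, nsmul_eq_mul]
    push_cast
    ring
  have h5 : (2 * (ee B Q A : ℤ)) ≤ R.card := by exact_mod_cast h1
  linarith

namespace Frm

variable {Q U : Finset V} {T : Finset ι} {F : Finset (Finset V)}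

theorem four_ee_X (h : Frm B Q T U F) [DecidableEq ι] :
    4 * (ee B Q (Xp B Q T U) : ℤ) ≤ fb B Q T U := by
  refine four_ee_le_sum h.reg3 fun i hi h1 => mem_sdiff.2 ⟨hi, fun hT => ?_⟩
  have h2 := h.mtp.tpk.pack.card i hT
  omega

theorem four_ee_E (h : Frm B Q T U F) [DecidableEq ι] (hr : Reg B Q) :
    4 * (ee B Q (Ep B Q T U F) : ℤ) ≤ fn B Q (Ep B Q T U F) := by
  refine four_ee_le_sum h.reg3 fun i hi h1 => ?_
  rw [mem_ins] at hi
  rw [mem_sdiff, cost_mem_tch, mem_Als]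
  obtain ⟨v, hv⟩ := hi.1
  refine ⟨⟨v, mem_inter.2 ⟨(mem_inter.1 hv).1, hi.2 hv⟩⟩, fun hal => ?_⟩
  have h2 := (h.evn hr dcl_self).alB_two hal
  have h3 := card_le_card (inter_subset_inter_left (ED.trans DQ) :
    B i ∩ Ep B Q T U F ⊆ B i ∩ Q)
  omega

theorem fa_nonneg (h : Frm B Q T U F) : 0 ≤ fa B Q (Ep B Q T U F) := by
  refine sum_nonneg fun i _ => ?_
  have := h.reg3 i
  omega

/-- **the rent criterion**: the sum of the leaf terms and of the terms of the triples is large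
enough. -/
theorem of_rent (h : Frm B Q T U F) [DecidableEq ι] (hr : Reg B Q)
    (hm : 30 * ∑ L ∈ F, (ee B Q L : ℤ) - 29 ≤ ∑ L ∈ F, lt B U L +
      ∑ j ∈ T, (20 * ((jn B Q (Ep B Q T U F) j : ℤ) + jb B Q T U j) +
        10 * ja B Q (Ep B Q T U F) j - 90) +
      32 * ((hit B U (Ep B Q T U F) : ℤ) + ub B Q T U) +
      12 * (fn B Q (Ep B Q T U F) + fb B Q T U) + 10 * fa B Q (Ep B Q T U F)) :
    2 * (ee B Q Q : ℤ) ≤ Pp B Q := by
  have h1 := h.total_ge hr
  have h2 := h.four_ee_X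
  have h3 := h.four_ee_E hr
  have h5 := Pp_even (B := B) Q
  have h6 : (ee B Q Q : ℤ) = ∑ L ∈ F, (ee B Q L : ℤ) + ee B Q (Ep B Q T U F) +
      ee B Q (Xp B Q T U) := by
    rw [h.ee_split]
    push_cast
    rfl
  have h7 : (0 : ℤ) ≤ ee B Q (Ep B Q T U F) := by positivity
  have h8 : (0 : ℤ) ≤ ee B Q (Xp B Q T U) := by positivity
  rw [h6]
  omega

/-- **the rent criterion with payments**: `r j L` is the payment of the triple `j` to the leaf `L`. -/
theorem of_pay (h : Frm B Q T U F) [DecidableEq ι] (hr : Reg B Q) (r : ι → Finset V → ℤ)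
    (hL : ∀ L ∈ F, 18 * ∑ j ∈ T, (jh B Q j L : ℤ) - ∑ j ∈ T, r j L + 30 * (ee B Q L : ℤ) ≤
      lt B U L)
    (hT : ∀ j ∈ T, ∑ L ∈ F, r j L ≤ 126 + 2 * ((jn B Q (Ep B Q T U F) j : ℤ) + jb B Q T U j) -
      8 * ja B Q (Ep B Q T U F) j) :
    2 * (ee B Q Q : ℤ) ≤ Pp B Q := by
  refine h.of_rent hr ?_
  have h1 := sum_le_sum hL
  have h2 : ∀ j ∈ T, ∑ L ∈ F, r j L ≤ 18 * ∑ L ∈ F, (jh B Q j L : ℤ) +
      (20 * ((jn B Q (Ep B Q T U F) j : ℤ) + jb B Q T U j) +
        10 * ja B Q (Ep B Q T U F) j - 90) := by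
    intro j hj
    have h3 := hT j hj
    have h4 : (∑ L ∈ F, (jh B Q j L : ℤ)) + jn B Q (Ep B Q T U F) j +
        ja B Q (Ep B Q T U F) j + jb B Q T U j = 12 := by
      exact_mod_cast h.twelve hr hj
    linarith
  have h3 := sum_le_sum h2
  rw [sum_add_distrib, ← mul_sum] at h3
  rw [sum_add_distrib, sum_sub_distrib, ← mul_sum, ← mul_sum] at h1
  have h4 : ∑ L ∈ F, ∑ j ∈ T, (jh B Q j L : ℤ) = ∑ j ∈ T, ∑ L ∈ F, (jh B Q j L : ℤ) := sum_comm
  have h5 : ∑ L ∈ F, ∑ j ∈ T, r j L = ∑ j ∈ T, ∑ L ∈ F, r j L := sum_comm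
  have h6 : 0 ≤ fn B Q (Ep B Q T U F) := by
    refine sum_nonneg fun i _ => ?_
    have := h.reg3 i
    omega
  have h7 : 0 ≤ fb B Q T U := by
    refine sum_nonneg fun i _ => ?_
    have := h.reg3 i
    omega
  have h8 := h.fa_nonneg
  have h9 : (0 : ℤ) ≤ hit B U (Ep B Q T U F) := by positivity
  have h10 : (0 : ℤ) ≤ ub B Q T U := by positivity
  rw [h4, h5] at h1
  linarith

omit [Fintype ι] in
theorem inter_card_sum (S U : Finset V) : (S ∩ U).card = ∑ u ∈ U, (S ∩ {u}).card := by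
  have h1 : S ∩ U = U.biUnion (fun u => S ∩ {u}) := by
    ext v
    simp only [mem_inter, mem_biUnion, mem_singleton]
    constructor
    · rintro ⟨h1, h2⟩
      exact ⟨v, h2, h1, rfl⟩
    · rintro ⟨u, hu, h1, rfl⟩
      exact ⟨h1, hu⟩
  rw [h1, card_biUnion]
  intro a _ b _ hne
  refine disjoint_left.2 fun v hv hv' => ?_
  exact hne ((mem_singleton.1 (mem_inter.1 hv).2).symm.trans (mem_singleton.1 (mem_inter.1 hv').2))

theorem hit_U_sum (U L : Finset V) : hit B U L = ∑ u ∈ U, uh B u L := by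
  unfold hit uh hit
  rw [sum_comm]
  exact sum_congr rfl fun i _ => inter_card_sum _ _

/-- every point of `U` has five hits. -/
theorem five_u (h : Frm B Q T U F) [DecidableEq ι] (hr : Reg B Q) {u : V} (hu : u ∈ U) :
    ∑ L ∈ F, uh B u L + uo B Q T U F u = 5 := by
  have huQ : {u} ⊆ Q := singleton_subset_iff.2 (DQ (h.UD hu))
  have h1 := sum_inc_sub hr huQ
  rw [card_singleton, sum_tch_split Q (Xp B Q T U), h.sdiff_X, (h.cpdQ hr).sum_ins] at h1
  have h2 : ∑ i ∈ tch B (F.biUnion id ∪ Ep B Q T U F), ((B i ∩ {u}).card : ℤ) =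
      ((∑ L ∈ F, uh B u L + hit B {u} (Ep B Q T U F) : ℕ) : ℤ) := by
    have h3 : ∑ i ∈ tch B (F.biUnion id ∪ Ep B Q T U F), ((B i ∩ {u}).card : ℤ) =
        ((hit B {u} (F.biUnion id ∪ Ep B Q T U F) : ℕ) : ℤ) := by
      unfold hit
      push_cast
      rfl
    rw [h3, hit_add _ h.sepE, hit_biUnion _ h.sepF]
    rfl
  have h3 : ∑ i ∈ T, ((B i ∩ {u}).card : ℤ) = 0 := by
    refine sum_eq_zero fun i hi => ?_
    have h6 : B i ∩ {u} = ∅ := by
      rw [eq_empty_iff_forall_notMem]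
      intro v hv
      obtain ⟨hv1, hv2⟩ := mem_inter.1 hv
      rw [mem_singleton] at hv2
      subst hv2
      exact (mem_sdiff.1 (h.UD hu)).2 (mem_biUnion.2 ⟨i, hi, hv1⟩)
    rw [h6]
    rfl
  rw [h2, h3] at h1
  have h4 : ∑ i ∈ ins B Q (Xp B Q T U) \ T, ((B i ∩ {u}).card : ℤ) =
      ((∑ i ∈ bt B Q T U, (B i ∩ {u}).card : ℕ) : ℤ) := by
    unfold bt
    push_cast
    rfl
  rw [h4] at h1
  unfold uo
  omega

/-- **the rent criterion, total form**: the demands of the leaves are at most the supplies of the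
triples and of the points of `U`. -/
theorem of_total (h : Frm B Q T U F) [DecidableEq ι] (hr : Reg B Q)
    (hm : ∑ L ∈ F, (18 * ∑ j ∈ T, (jh B Q j L : ℤ) + 33 * hit B U L + 30 * (ee B Q L : ℤ) -
      lt B U L) ≤ ∑ j ∈ T, (126 + 2 * ((jn B Q (Ep B Q T U F) j : ℤ) + jb B Q T U j) -
      8 * ja B Q (Ep B Q T U F) j) + ∑ u ∈ U, (165 - (uo B Q T U F u : ℤ)) + 29) :
    2 * (ee B Q Q : ℤ) ≤ Pp B Q := by
  refine h.of_rent hr ?_
  have h2 : ∀ j ∈ T, 126 + 2 * ((jn B Q (Ep B Q T U F) j : ℤ) + jb B Q T U j) -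
      8 * ja B Q (Ep B Q T U F) j = 18 * ∑ L ∈ F, (jh B Q j L : ℤ) +
      (20 * ((jn B Q (Ep B Q T U F) j : ℤ) + jb B Q T U j) +
        10 * ja B Q (Ep B Q T U F) j - 90) := by
    intro j hj
    have h4 : (∑ L ∈ F, (jh B Q j L : ℤ)) + jn B Q (Ep B Q T U F) j +
        ja B Q (Ep B Q T U F) j + jb B Q T U j = 12 := by
      exact_mod_cast h.twelve hr hj
    linarith
  rw [sum_congr rfl h2, sum_add_distrib (s := T), ← mul_sum, sum_sub_distrib (s := F),
    sum_add_distrib (s := F), sum_add_distrib (s := F), ← mul_sum, ← mul_sum, ← mul_sum,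
    sum_sub_distrib (s := U), sum_const, nsmul_eq_mul] at hm
  have h4 : ∑ L ∈ F, ∑ j ∈ T, (jh B Q j L : ℤ) = ∑ j ∈ T, ∑ L ∈ F, (jh B Q j L : ℤ) := sum_comm
  have h6 : 0 ≤ fn B Q (Ep B Q T U F) := by
    refine sum_nonneg fun i _ => ?_
    have := h.reg3 i
    omega
  have h7 : 0 ≤ fb B Q T U := by
    refine sum_nonneg fun i _ => ?_
    have := h.reg3 i
    omega
  have h8 := h.fa_nonneg
  have h10 : ∑ u ∈ U, (uo B Q T U F u : ℤ) = hit B U (Ep B Q T U F) + ub B Q T U := by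
    unfold uo
    push_cast
    rw [sum_add_distrib]
    congr 1
    · have h11 := hit_U_sum (B := B) U (Ep B Q T U F)
      rw [h11]
      unfold uh
      push_cast
      rfl
    · unfold ub
      push_cast
      rw [sum_comm]
      refine sum_congr rfl fun i _ => ?_
      rw [inter_card_sum (B i) U]
      push_cast
      rfl
  have h12 := h.five_U hr
  rw [h10, h4] at hm
  linarith

/-- **the rent criterion with supplies**: the triples have the supply `126 + 2 e - 8 a`, the points of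
`U` have the supply `165 - (hits outside of the leaves)`; supplies may be given to any leaves. The
demand of a leaf is `18 H + 33 g - lt`, which is at most `165` minus the free places and so on. -/
theorem of_supply (h : Frm B Q T U F) [DecidableEq ι] (hr : Reg B Q) (r : ι → Finset V → ℤ)
    (s : V → Finset V → ℤ)
    (hL : ∀ L ∈ F, 18 * ∑ j ∈ T, (jh B Q j L : ℤ) + 33 * hit B U L + 30 * (ee B Q L : ℤ) -
      lt B U L ≤ ∑ j ∈ T, r j L + ∑ u ∈ U, s u L)
    (hT : ∀ j ∈ T, ∑ L ∈ F, r j L ≤ 126 + 2 * ((jn B Q (Ep B Q T U F) j : ℤ) + jb B Q T U j) -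
      8 * ja B Q (Ep B Q T U F) j)
    (hU : ∀ u ∈ U, ∑ L ∈ F, s u L ≤ 165 - uo B Q T U F u) :
    2 * (ee B Q Q : ℤ) ≤ Pp B Q := by
  refine h.of_total hr ?_
  have h1 := sum_le_sum hL
  have h2 := sum_le_sum hT
  have h3 := sum_le_sum hU
  have h5 : ∑ L ∈ F, ∑ j ∈ T, r j L = ∑ j ∈ T, ∑ L ∈ F, r j L := sum_comm
  have h5' : ∑ L ∈ F, ∑ u ∈ U, s u L = ∑ u ∈ U, ∑ L ∈ F, s u L := sum_comm
  rw [sum_add_distrib (f := fun L => ∑ j ∈ T, r j L), h5, h5'] at h1
  linarith

/-- **the rent criterion with supplies for a partition of the leaves**: `P` is a partition of the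
leaves into classes. -/
theorem of_supply_cls (h : Frm B Q T U F) [DecidableEq ι] (hr : Reg B Q)
    (P : Finset (Finset (Finset V))) (hP : P.biUnion id = F)
    (hd : ∀ C ∈ P, ∀ D ∈ P, C ≠ D → Disjoint C D)
    (r : ι → Finset (Finset V) → ℤ) (s : V → Finset (Finset V) → ℤ)
    (hL : ∀ C ∈ P, ∑ L ∈ C, (18 * ∑ j ∈ T, (jh B Q j L : ℤ) + 33 * hit B U L +
      30 * (ee B Q L : ℤ) - lt B U L) ≤ ∑ j ∈ T, r j C + ∑ u ∈ U, s u C)
    (hT : ∀ j ∈ T, ∑ C ∈ P, r j C ≤ 126 + 2 * ((jn B Q (Ep B Q T U F) j : ℤ) + jb B Q T U j) -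
      8 * ja B Q (Ep B Q T U F) j)
    (hU : ∀ u ∈ U, ∑ C ∈ P, s u C ≤ 165 - uo B Q T U F u) :
    2 * (ee B Q Q : ℤ) ≤ Pp B Q := by
  refine h.of_total hr ?_
  have h1 := sum_le_sum hL
  have h2 := sum_le_sum hT
  have h3 := sum_le_sum hU
  have h5 : ∑ C ∈ P, ∑ j ∈ T, r j C = ∑ j ∈ T, ∑ C ∈ P, r j C := sum_comm
  have h5' : ∑ C ∈ P, ∑ u ∈ U, s u C = ∑ u ∈ U, ∑ C ∈ P, s u C := sum_comm
  have h6 : ∑ L ∈ F, (18 * ∑ j ∈ T, (jh B Q j L : ℤ) + 33 * hit B U L + 30 * (ee B Q L : ℤ) -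
      lt B U L) = ∑ C ∈ P, ∑ L ∈ C, (18 * ∑ j ∈ T, (jh B Q j L : ℤ) + 33 * hit B U L +
      30 * (ee B Q L : ℤ) - lt B U L) := by
    rw [← hP]
    exact sum_biUnion (fun C hC D hD hne => hd C hC D hD hne)
  rw [sum_add_distrib (f := fun C => ∑ j ∈ T, r j C), h5, h5'] at h1
  rw [h6]
  linarith

/-- the rent of a leaf: `165 - 33 g - 18 f - 3 (n1 - g)`, and the free places pay for the points with
two single traces. -/
theorem leaf_rent (h : Frm B Q T U F) (hr : Reg B Q) {L : Finset V} (hL : L ∈ F) :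
    18 * ∑ j ∈ T, (jh B Q j L : ℤ) + 30 * (hit B U L : ℤ) + 3 * (nt B L 1 : ℤ) +
      72 * (ee B Q L : ℤ) - 165 ≤ lt B U L := by
  have h1 := h.leaf_term hr hL
  have h2 := four_ee_le_fs (W := L) h.reg3
  linarith

/-- a leaf with odd number of single traces. -/
theorem leaf_n1 (h : Frm B Q T U F) (hr : Reg B Q) {L : Finset V} (hL : L ∈ F) :
    nt B L 1 % 2 = 1 := by
  have h2 : ∀ i, (B i ∩ L).card ≤ 2 := by
    intro i
    rcases (B i ∩ L).eq_empty_or_nonempty with h0 | ⟨v, hv⟩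
    · rw [h0, card_empty]
      exact Nat.zero_le _
    · obtain ⟨hv1, hv2⟩ := mem_inter.1 hv
      exact (card_le_card (inter_subset_inter_left (h.FD hL))).trans (h.two_leaf hL hv1 hv2)
  rw [nt1_mod (hr.mono (h.FQ hL)) h2]
  exact odd_of_sv_neg_one (h.sv_leaf hL)

/-- payment of a leaf with at least three triples: `54` each. -/
theorem pay_three (h : Frm B Q T U F) (hr : Reg B Q) {L : Finset V} (hL : L ∈ F) {q : ℕ}
    (hq : 3 ≤ q) : 18 * ∑ j ∈ T, (jh B Q j L : ℤ) - 54 * (q : ℤ) + 30 * (ee B Q L : ℤ) ≤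
      lt B U L := by
  have h1 := h.leaf_rent hr hL
  have h2 := h.leaf_n1 hr hL
  have h3 : (0 : ℤ) ≤ ee B Q L := by positivity
  omega

/-- payment of a leaf with two triples and two hits of `U`: `48` each. -/
theorem pay_two (h : Frm B Q T U F) (hr : Reg B Q) {L : Finset V} (hL : L ∈ F)
    (hg : 2 ≤ hit B U L) : 18 * ∑ j ∈ T, (jh B Q j L : ℤ) - 96 + 30 * (ee B Q L : ℤ) ≤
      lt B U L := by
  have h1 := h.leaf_rent hr hL
  have h2 := h.leaf_n1 hr hL
  have h3 : (0 : ℤ) ≤ ee B Q L := by positivity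
  have h4 := h.hitU_one hL
  omega

end Frm

end Pool.Agent.Hyp6
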