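import Pool.Agent.Hyp6.L3Km
import Pool.Agent.Hyp6.L3Rt

/-!
# HYP6 L3Kw: weak contacts

If a point of a triple of the max-K frame has a block with two points in the rest meeting a leaf
`W`, then the blocks of the other points of this triple meeting an independent leaf `M` have a
single point in the rest.  The places of such blocks are few: they are bounded by the single
traces of `M`.
-/

set_option autoImplicit false

namespace Pool.Agent.Hyp6

open Finset Pool.Agent.Hyp5

universe u v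

variable {V : Type v} [DecidableEq V] {ι : Type u} {B : ι → Finset V}

namespace Frm

variable [Fintype ι] {Q U : Finset V} {T : Finset ι} {F : Finset (Finset V)}

omit [Fintype ι] in
/-- the points of the rest on a block meeting a leaf are in this leaf or in `U`. -/
theorem mem_leaf_or_U (h : Frm B Q T U F) {L : Finset V} (hL : L ∈ F) {i : ι}
    (hi : (B i ∩ L).Nonempty) {v : V} (hv : v ∈ B i) (hvD : v ∈ Dp B Q T) : v ∈ L ∨ v ∈ U := by
  classical
  by_cases hvU : v ∈ U
  · exact Or.inr hvU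
  left
  have hX : v ∉ Xp B Q T U := by
    intro hX
    rcases mem_union.1 hX with hX | hX
    · exact (mem_sdiff.1 hvD).2 (mem_inter.1 hX).1
    · exact hvU hX
  have h2 : v ∈ Q \ Xp B Q T U := mem_sdiff.2 ⟨DQ hvD, hX⟩
  rw [h.sdiff_X] at h2
  rcases mem_union.1 h2 with h3 | h3
  · obtain ⟨L', hL', hvL⟩ := mem_biUnion.1 h3
    by_cases he : L' = L
    · exact he ▸ hvL
    · exact absurd ⟨v, mem_inter.2 ⟨hv, hvL⟩⟩ ((h.sepF L hL L' hL' (Ne.symm he)).2 i hi)
  · obtain ⟨x, hx⟩ := hi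
    obtain ⟨hx1, hx2⟩ := mem_inter.1 hx
    exact absurd ⟨v, mem_inter.2 ⟨hv, h3⟩⟩
      (h.sepE i ⟨x, mem_inter.2 ⟨hx1, mem_biUnion.2 ⟨L, hL, hx2⟩⟩⟩)

/-- KM2 when the two leaves are free together. -/
theorem km2_ind [DecidableEq ι] (h : Frm B Q T U F) {C C' : Finset V} (hC : C ∈ F)
    (hC' : C' ∈ F) (hne : C ≠ C') {i i' j : ι}
    (hH : ∀ Z ⊆ U, Z.card ≤ (nbF (gr B) (F \ {C, C'}) Z).card) (hj : j ∈ T) {x z : V}
    (hxz : x ≠ z) (hx : x ∈ B j ∩ Q) (hz : z ∈ B j ∩ Q) (hzi : z ∈ B i) (hxi : x ∈ B i')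
    (hi : (B i ∩ Dp B Q T).card = 2) (hi' : (B i' ∩ Dp B Q T).card = 2)
    (hd : Disjoint (B i ∩ Dp B Q T) (B i' ∩ Dp B Q T)) (hp : (B i ∩ C).Nonempty)
    (hp' : (B i' ∩ C').Nonempty) : False := by
  refine h.km2_leaves hC hC' hne (U' := U \ (B i ∪ B i')) sdiff_subset ?_
    (fun Z hZ => hH Z (hZ.trans sdiff_subset)) hj hxz hx hz hzi hxi hi hi' hd hp hp'
  intro v hv
  obtain ⟨h1, h2⟩ := mem_sdiff.1 hv
  by_contra hcon
  exact h2 (mem_sdiff.2 ⟨h1, hcon⟩)

/-- **weak contacts**: `z`, `x` are different points of a triple of the max-K frame, the block `i`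
of `z` has two points in the rest and meets the leaf `W`; the leaf `M` is free together with `W`.
Then a block of `x` meeting `M` has no other point in the rest, if it has no common point of `U`
with `B i`. -/
theorem weak_of_pair [DecidableEq ι] (h : Frm B Q T U F) {W M : Finset V} (hW : W ∈ F)
    (hM : M ∈ F) (hne : W ≠ M) {i i' j : ι}
    (hH : ∀ Z ⊆ U, Z.card ≤ (nbF (gr B) (F \ {W, M}) Z).card) (hj : j ∈ T) {x z : V}
    (hxz : x ≠ z) (hx : x ∈ B j ∩ Q) (hz : z ∈ B j ∩ Q) (hzi : z ∈ B i) (hxi : x ∈ B i')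
    (hi : (B i ∩ Dp B Q T).card = 2) (hiW : (B i ∩ W).Nonempty) (hiM : (B i' ∩ M).Nonempty)
    (hU : ∀ u ∈ U, u ∈ B i → u ∉ B i') : (B i' ∩ Dp B Q T).card = 1 := by
  obtain ⟨p, hp⟩ := hiM
  have hiM : (B i' ∩ M).Nonempty := ⟨p, hp⟩
  have h1 := h.two_leaf hM (mem_inter.1 hp).1 (mem_inter.1 hp).2
  have h2 : 0 < (B i' ∩ Dp B Q T).card :=
    card_pos.2 ⟨p, mem_inter.2 ⟨(mem_inter.1 hp).1, h.FD hM (mem_inter.1 hp).2⟩⟩
  by_contra hcon
  have h3 : (B i' ∩ Dp B Q T).card = 2 := by omega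
  refine h.km2_ind hW hM hne hH hj hxz hx hz hzi hxi hi h3 ?_ hiW hiM
  rw [disjoint_left]
  intro v hv hv'
  obtain ⟨hv1, hv2⟩ := mem_inter.1 hv
  have hv3 := (mem_inter.1 hv').1
  by_cases hvU : v ∈ U
  · exact hU v hvU hv1 hv3
  · rcases h.mem_leaf_or_U hW hiW hv1 hv2 with h4 | h4
    · rcases h.mem_leaf_or_U hM hiM hv3 hv2 with h5 | h5
      · exact disjoint_left.1 (h.ge.sys.disj W hW M hM hne) h4 h5
      · exact hvU h5
    · exact hvU h4

/-- the case in which the two points of `B i` are in the leaf `W`. -/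
theorem weak_of_two [DecidableEq ι] (h : Frm B Q T U F) {W M : Finset V} (hW : W ∈ F)
    (hM : M ∈ F) (hne : W ≠ M) {i i' j : ι}
    (hH : ∀ Z ⊆ U, Z.card ≤ (nbF (gr B) (F \ {W, M}) Z).card) (hj : j ∈ T) {x z : V}
    (hxz : x ≠ z) (hx : x ∈ B j ∩ Q) (hz : z ∈ B j ∩ Q) (hzi : z ∈ B i) (hxi : x ∈ B i')
    (hi : (B i ∩ W).card = 2) (hiM : (B i' ∩ M).Nonempty) : (B i' ∩ Dp B Q T).card = 1 := by
  have hiW : (B i ∩ W).Nonempty := card_pos.1 (by omega)
  obtain ⟨p, hp⟩ := hiW
  have h1 := h.two_leaf hW (mem_inter.1 hp).1 (mem_inter.1 hp).2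
  have h2 : B i ∩ W ⊆ B i ∩ Dp B Q T := inter_subset_inter_left (h.FD hW)
  have h3 := card_le_card h2
  have h4 : B i ∩ W = B i ∩ Dp B Q T := eq_of_subset_of_card_le h2 (by omega)
  refine h.weak_of_pair hW hM hne hH hj hxz hx hz hzi hxi (by rw [← h4]; exact hi) ⟨p, hp⟩ hiM ?_
  intro u hu hui
  have h5 : u ∈ B i ∩ W := by
    rw [h4]
    exact mem_inter.2 ⟨hui, h.UD hu⟩
  exact absurd hu (disjoint_left.1 (h.ge.FU W hW) (mem_inter.1 h5).2)

/-- **few weak contacts**, with a bound `k` for the places of one block: the blocks of the points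
of `Y` meeting the leaf `M` have one point in the rest, hence they are single traces without `U`. -/
theorem weak_le_mul (h : Frm B Q T U F) {M : Finset V} (hM : M ∈ F) {Y : Finset V} {k : ℕ}
    (hk : ∀ i ∈ tch B M, (B i ∩ Y).card ≤ k)
    (hw : ∀ i ∈ tch B M, (B i ∩ Y).Nonempty → (B i ∩ Dp B Q T).card ≤ 1) :
    hit B Y M + k * hit B U M ≤ k * nt B M 1 := by
  classical
  unfold hit nt
  rw [mul_sum, ← sum_add_distrib]
  have h3 : ∑ i ∈ tch B M, ((B i ∩ Y).card + k * (B i ∩ U).card) ≤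
      ∑ i ∈ tch B M, k * if (B i ∩ M).card = 1 then 1 else 0 := by
    refine sum_le_sum fun i hi => ?_
    obtain ⟨p, hp⟩ := cost_mem_tch.1 hi
    have hpD : p ∈ B i ∩ Dp B Q T := mem_inter.2 ⟨(mem_inter.1 hp).1, h.FD hM (mem_inter.1 hp).2⟩
    have hM1 : 0 < (B i ∩ M).card := card_pos.2 ⟨p, hp⟩
    have hMD : (B i ∩ M).card ≤ (B i ∩ Dp B Q T).card :=
      card_le_card (inter_subset_inter_left (h.FD hM))
    rcases (B i ∩ Y).eq_empty_or_nonempty with hY | hY
    · rcases (B i ∩ U).eq_empty_or_nonempty with h0 | h0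
      · rw [hY, h0, card_empty]
        simp
      · have hcost : (B i ∩ ({M} : Finset (Finset V)).biUnion id).Nonempty := by
          rw [singleton_biUnion]
          exact ⟨p, hp⟩
        obtain ⟨h4, h5⟩ := h.leaf_U (singleton_subset_iff.2 hM) (Subset.refl U) hcost h0
        rw [singleton_biUnion] at h4
        have h4' : (B i ∩ M).card = 1 := h4
        rw [hY, card_empty, h4', h5]
        simp
    · have h4 := hw i hi hY
      have h5 : (B i ∩ M).card = 1 := by omega
      have h6 : (B i ∩ U).card = 0 := by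
        rw [card_eq_zero, eq_empty_iff_forall_notMem]
        intro w hw'
        have h7 : ({p, w} : Finset V) ⊆ B i ∩ Dp B Q T := by
          intro t ht
          rcases mem_insert.1 ht with h8 | h8
          · rw [h8]; exact hpD
          · rw [mem_singleton.1 h8]
            exact mem_inter.2 ⟨(mem_inter.1 hw').1, h.UD (mem_inter.1 hw').2⟩
        have h8 : p ≠ w := by
          intro he
          exact disjoint_left.1 (h.ge.FU M hM) (mem_inter.1 hp).2 (he ▸ (mem_inter.1 hw').2)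
        have h9 := card_le_card h7
        rw [card_pair h8] at h9
        omega
      rw [h5, h6]
      simpa using hk i hi
  refine h3.trans ?_
  rw [← mul_sum, ← card_filter]
  exact Nat.mul_le_mul_left _ (card_le_card fun i hi => mem_trs.2 (mem_filter.1 hi).2)

/-- **few weak contacts**: two places for each single trace not met by `U`. -/
theorem weak_le (h : Frm B Q T U F) {M : Finset V} (hM : M ∈ F) {Y : Finset V} (hYQ : Y ⊆ Q)
    (hYD : Disjoint Y (Dp B Q T))
    (hw : ∀ i ∈ tch B M, (B i ∩ Y).Nonempty → (B i ∩ Dp B Q T).card ≤ 1) :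
    hit B Y M + 2 * hit B U M ≤ 2 * nt B M 1 := by
  refine h.weak_le_mul hM (k := 2) (fun i hi => ?_) hw
  obtain ⟨p, hp⟩ := cost_mem_tch.1 hi
  have hpD : p ∈ Dp B Q T := h.FD hM (mem_inter.1 hp).2
  have h1 : p ∉ B i ∩ Y := fun h2 => disjoint_left.1 hYD (mem_inter.1 h2).2 hpD
  have h2 : insert p (B i ∩ Y) ⊆ B i ∩ Q := by
    intro v hv
    rcases mem_insert.1 hv with h3 | h3
    · rw [h3]; exact mem_inter.2 ⟨(mem_inter.1 hp).1, DQ hpD⟩
    · exact mem_inter.2 ⟨(mem_inter.1 h3).1, hYQ (mem_inter.1 h3).2⟩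
  have h3 := card_le_card h2
  rw [card_insert_of_notMem h1] at h3
  have h4 := h.reg3 i
  omega

/-- one weak point has at most one place for each single trace not met by `U`. -/
theorem weak_le_one (h : Frm B Q T U F) {M : Finset V} (hM : M ∈ F) {y : V}
    (hw : ∀ i ∈ tch B M, y ∈ B i → (B i ∩ Dp B Q T).card ≤ 1) :
    hit B {y} M + hit B U M ≤ nt B M 1 := by
  have h1 := h.weak_le_mul hM (Y := {y}) (k := 1) (fun i _ => ?_) (fun i hi hy => ?_)
  · omega
  · exact (card_le_card inter_subset_right).trans (by simp)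
  · obtain ⟨v, hv⟩ := hy
    obtain ⟨h2, h3⟩ := mem_inter.1 hv
    rw [mem_singleton] at h3
    exact hw i hi (h3 ▸ h2)

/-- a leaf with a single trace has at most two weak places, and none if `U` meets it. -/
theorem weak_le_two (h : Frm B Q T U F) {M : Finset V} (hM : M ∈ F) (h1 : nt B M 1 = 1)
    {Y : Finset V} (hYQ : Y ⊆ Q) (hYD : Disjoint Y (Dp B Q T))
    (hw : ∀ i ∈ tch B M, (B i ∩ Y).Nonempty → (B i ∩ Dp B Q T).card ≤ 1) :
    hit B Y M ≤ 2 ∧ (0 < hit B U M → hit B Y M = 0) := by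
  have h2 := h.weak_le hM hYQ hYD hw
  omega

/-- the weak contacts of a triple: if a block of the point `z` has two points in the leaf `W`, the
other points of the triple have few places on a leaf `M` which is free together with `W`. -/
theorem jh_weak [DecidableEq ι] (h : Frm B Q T U F) {W M : Finset V} (hW : W ∈ F) (hM : M ∈ F)
    (hne : W ≠ M) {i j : ι} (hH : ∀ Z ⊆ U, Z.card ≤ (nbF (gr B) (F \ {W, M}) Z).card)
    (hj : j ∈ T) {z : V} (hz : z ∈ B j ∩ Q) (hzi : z ∈ B i) (hi : (B i ∩ W).card = 2) :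
    hit B ((B j ∩ Q).erase z) M + 2 * hit B U M ≤ 2 * nt B M 1 := by
  refine h.weak_le hM ((erase_subset _ _).trans inter_subset_right) ?_ ?_
  · rw [disjoint_left]
    intro v hv hv'
    exact (mem_sdiff.1 hv').2 (mem_biUnion.2 ⟨j, hj, (mem_inter.1 (mem_erase.1 hv).2).1⟩)
  · intro i' hi' hY
    obtain ⟨x, hx⟩ := hY
    obtain ⟨hx1, hx2⟩ := mem_inter.1 hx
    obtain ⟨hx3, hx4⟩ := mem_erase.1 hx2
    exact (h.weak_of_two hW hM hne hH hj hx3 hx4 hz hzi hx1 hi (cost_mem_tch.1 hi')).le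

end Frm

end Pool.Agent.Hyp6
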