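import Pool.Agent.Hyp6.Gda1
import Pool.Agent.Hyp6.InsX.V00
import Pool.Agent.Hyp6.L3Kw

/-!
# HYP6 GDA: a triple with at least four hits at a leaf of type (3;1)

`Frm.gda_exc`: the hit vector is one of the eleven vectors of `exc31`. `Frm.gda`: if `U` has at most two
hits, the triple has at most four hits. `Frm.gda4`: if `U` has at most two hits and the triple has four,
there are nine hits in all and the other contact points have one hit each.
-/

set_option autoImplicit false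
set_option maxRecDepth 100000

namespace Pool.Agent.Hyp6

open Finset Pool.Agent.Hyp5 Gdx Rup

universe u v

/-- the instance with `k` triples does not occur at a leaf. -/
def NoN (V : Type v) [DecidableEq V] (ι : Type u) [Fintype ι] [DecidableEq ι] (zn r d0 pz : ℕ)
    (zm : List ℕ) (k : ℕ) (hs : List (List ℕ)) (hW : List ℕ) : Prop :=
  ∀ (B : ι → Finset V) (Q U L : Finset V) (T : Finset ι) (F : Finset (Finset V)) (tb : ℕ → ι)
    (ct zt : ℕ → V) (bl : ℕ → ι), Frm B Q T U F → ViolR B Q → L ∈ F → (∀ i < k, tb i ∈ T) →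
    (∀ i < k, ∀ i' < k, tb i = tb i' → i = i') → LblN B Q L k tb hs hW ct →
    Gdx.Gx B Q L (PgN zn r d0 pz zm hs hW) bl ct zt tb → False

section

variable {V : Type v} [DecidableEq V] {ι : Type u} [Fintype ι] [DecidableEq ι]

/-- an instance with `k` triples from its check. -/
theorem noN_of {zn r d0 pz : ℕ} {zm : List ℕ} (k : ℕ) {hs : List (List ℕ)} {hW : List ℕ}
    {given : List (List ℕ)} {bs : List Gb} {ks : List Gk} {nm db : Tr} {cnf : List (List ℕ)}
    {prf : List ℕ} (hb : instX (PgN zn r d0 pz zm hs hW) given bs ks nm cnf db prf = true)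
    (hgv : given.all (okgN d0 hs hW) = true) : NoN V ι zn r d0 pz zm k hs hW :=
  fun _ _ _ _ _ _ _ _ _ _ h hv hL hT hinj hl hg => hl.no h hv hL hT hinj hg hgv hb

end

/-- the block list of a leaf of type (3;1). -/
abbrev z31 : List ℕ := [3, 3, 3, 5, 5, 6, 6, 4]

/-- the exceptional vectors without the five single hits. -/
def excA : List (List ℕ × List ℕ) :=
  [([3, 1, 1], [1, 1, 1]), ([2, 2, 1], [3, 1]), ([3, 1, 0], [1, 1, 1]), ([4, 0, 0], [1, 1, 1]),
   ([2, 2, 0], [3, 1]), ([3, 1, 0], [1, 1, 1, 1]), ([2, 2, 0], [3, 1, 1])]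

/-- the vectors with two triples which are excluded by the tables. -/
def need2 : List (List ℕ × List ℕ × List ℕ) :=
  [([3, 1, 1], [1, 0, 0], [1, 1]), ([3, 1, 0], [1, 0, 0], [1, 1]), ([4, 0, 0], [1, 0, 0], [1, 1]),
   ([3, 1, 0], [1, 1, 0], [1, 1]), ([2, 2, 0], [3, 0, 0], [1, 1])]

theorem no31_2 (V : Type v) [DecidableEq V] (ι : Type u) [Fintype ι] [DecidableEq ι] :
    ∀ p ∈ need2, NoN V ι 3 2 9 9 z31 2 [p.1, p.2.1] p.2.2 :=
  List.forall_mem_cons.2 ⟨noN_of 2 Gdx.V31_311_100_u11.inst (by decide),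
  List.forall_mem_cons.2 ⟨noN_of 2 Gdx.V31_310_100_u11.inst (by decide),
  List.forall_mem_cons.2 ⟨noN_of 2 Gdx.V31_400_100_u11.inst (by decide),
  List.forall_mem_cons.2 ⟨noN_of 2 Gdx.V31_310_110_u11.inst (by decide),
  List.forall_mem_cons.2 ⟨noN_of 2 Gdx.V31_220_300_u11.inst (by decide),
  fun _ h => absurd h List.not_mem_nil⟩⟩⟩⟩⟩

theorem no31_3 (V : Type v) [DecidableEq V] (ι : Type u) [Fintype ι] [DecidableEq ι] :
    NoN V ι 3 2 9 9 z31 3 [[3, 1, 0], [1, 0, 0], [1, 0, 0]] [1, 1] :=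
  noN_of 3 Gdx.V31_310_100_100_u11.inst (by decide)

/-- the test of the vectors with two triples. -/
def tst2 (p q : List ℕ × List ℕ) : Bool :=
  decide (q.2.sum ≤ 1) || decide (q.1.sum = 0) || (decide (p.2.getD 0 0 = 3) && !(q.1.contains 3)) ||
    need2.contains (p.1, q.1, q.2) ||
    decide (p = ([3, 1, 0], [1, 1, 1, 1]) ∧ q = ([1, 0, 0], [1, 1, 1]))

theorem chk31_2 : excA.all (fun p => (sps 4 p.2).all (fun q => tst2 p q)) = true := by
  decide +kernel

section

variable {V : Type v} [DecidableEq V] {ι : Type u} [Fintype ι] {B : ι → Finset V}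

/-- more hits than `U` has: there is a contact point outside `U`. -/
theorem exists_out {U W L : Finset V} (hlt : hit B U L < hit B W L) :
    ∃ v ∈ W, v ∉ U ∧ (Ez B L v).Nonempty := by
  classical
  by_contra hcon
  push Not at hcon
  rw [hit_eq_Ez, hit_eq_Ez] at hlt
  have h1 : ∑ y ∈ W, (Ez B L y).card = ∑ y ∈ W ∩ U, (Ez B L y).card := by
    refine (sum_subset inter_subset_left fun y hy hy' => ?_).symm
    have h2 : y ∉ U := fun h => hy' (mem_inter.2 ⟨hy, h⟩)
    have h3 := hcon y hy h2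
    rw [h3, card_empty]
  have h2 : ∑ y ∈ W ∩ U, (Ez B L y).card ≤ ∑ y ∈ U, (Ez B L y).card :=
    sum_le_sum_of_subset inter_subset_right
  omega

/-- a contact point outside `U` and the leaf is in a triple of `T`. -/
theorem Frm.exists_T {Q U L : Finset V} {T : Finset ι} {F : Finset (Finset V)}
    (h : Frm B Q T U F) (hL : L ∈ F) {v : V} (hvQ : v ∈ Q) (hvL : v ∉ L) (hvU : v ∉ U)
    (hne : (Ez B L v).Nonempty) : ∃ j ∈ T, v ∈ B j := by
  classical
  by_contra hcon
  push Not at hcon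
  obtain ⟨i, hi⟩ := hne
  obtain ⟨h1, h2⟩ := mem_Ez.1 hi
  have h3 : v ∈ Dp B Q T := mem_sdiff.2 ⟨hvQ, fun h4 => by
    obtain ⟨j, hj, h5⟩ := mem_biUnion.1 h4
    exact hcon j hj h5⟩
  rcases h.mem_leaf_or_U hL h2 h1 h3 with h4 | h4
  · exact hvL h4
  · exact hvU h4

/-- **the context of a leaf of type (3;1)**, `k` triples. -/
theorem Frm.exists_gxN31 {Q U L : Finset V} {T : Finset ι} {F : Finset (Finset V)}
    (h : Frm B Q T U F) (hv : ViolR B Q) (hL : L ∈ F) (hc3 : L.card = 3) (h1 : nt B L 1 = 1)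
    {k : ℕ} {tb : ℕ → ι} (hT : ∀ i < k, tb i ∈ T)
    (hinj : ∀ i < k, ∀ i' < k, tb i = tb i' → i = i') {hs : List (List ℕ)} {hW : List ℕ}
    {ct : ℕ → V} (hl : LblN B Q L k tb hs hW ct) (hM : 3 * k + hW.length ≤ 32) :
    ∃ bl zt, Gdx.Gx B Q L (PgN 3 2 9 9 z31 hs hW) bl ct zt tb := by
  classical
  obtain ⟨hcm, hrho, hP, hit9⟩ := h.leaf31 hv hL hc3 h1
  have hLQ := h.FQ hL
  have hLne : L.Nonempty := card_pos.1 (by omega)
  obtain ⟨a, b, c, s, ht⟩ := exists_t31 (hv.reg.mono hLQ) (hv.tr.mono hLQ) hc3 hcm hrho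
  obtain ⟨bl, zt, hb, _⟩ := ht.exists_blocks
  exact ⟨bl, zt, hl.gx hb hv hLQ hLne (fun i hi => h.full (hT i hi)) hinj hM hrho (by
    have := hv.leaf_dv h hL
    push_cast
    linarith) (by rw [hP]; norm_num)⟩

variable [DecidableEq ι]

/-- an excluded instance with `k` triples. -/
theorem Frm.noN31 {Q U L : Finset V} {T : Finset ι} {F : Finset (Finset V)}
    (h : Frm B Q T U F) (hv : ViolR B Q) (hL : L ∈ F) (hc3 : L.card = 3) (h1 : nt B L 1 = 1)
    {k : ℕ} {tb : ℕ → ι} (hT : ∀ i < k, tb i ∈ T)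
    (hinj : ∀ i < k, ∀ i' < k, tb i = tb i' → i = i') {hs : List (List ℕ)} {hW : List ℕ}
    {ct : ℕ → V} (hl : LblN B Q L k tb hs hW ct) (hM : 3 * k + hW.length ≤ 32)
    (hno : NoN V ι 3 2 9 9 z31 k hs hW) : False := by
  obtain ⟨bl, zt, hg⟩ := h.exists_gxN31 hv hL hc3 h1 hT hinj hl hM
  exact hno B Q U L T F tb ct zt bl h hv hL hT hinj hl hg

/-- at least two hits outside a triple with at least three hits. -/
theorem Frm.two_out {Q U L : Finset V} {T : Finset ι} {F : Finset (Finset V)}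
    (h : Frm B Q T U F) (hv : ViolR B Q) (hL : L ∈ F) (hdv : dv B Q L = -1) {j : ι} (hj : j ∈ T)
    (h3 : 3 ≤ hit B (B j ∩ Q) L) : 2 ≤ hit B ((Q \ L) \ B j) L := by
  classical
  by_contra hcon
  have h2 := (hv.frm_two h).2
  obtain ⟨j', hj', hne⟩ : ∃ j' ∈ T, j' ≠ j := by
    by_contra hc
    push Not at hc
    have h4 : T ⊆ {j} := fun i hi => mem_singleton.2 (hc i hi)
    have := card_le_card h4
    rw [card_singleton] at this
    omega
  have h4 : hit B (Q \ (L ∪ ((B j ∩ Q) ∪ (B j' ∩ Q)))) L ≤ hit B ((Q \ L) \ B j) L := by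
    refine hit_mono_left _ fun v hv' => ?_
    simp only [mem_sdiff, mem_union, mem_inter] at hv' ⊢
    tauto
  have h5 := h.few_neg hv hj hj' hne.symm hL hdv (by omega)
  have h6 : hit B (B j ∩ Q) L ≤ hit B ((B j ∩ Q) ∪ (B j' ∩ Q)) L :=
    hit_mono_left _ subset_union_left
  omega

/-- **the vectors of a triple with at least four hits at a leaf of type (3;1)**. -/
theorem Frm.gda_exc {Q U L : Finset V} {T : Finset ι} {F : Finset (Finset V)}
    (h : Frm B Q T U F) (hv : ViolR B Q) (hL : L ∈ F) (hc3 : L.card = 3) (h1 : nt B L 1 = 1)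
    {j : ι} (hj : j ∈ T) (h4 : 4 ≤ hit B (B j ∩ Q) L) (hout : 2 ≤ hit B ((Q \ L) \ B j) L) :
    ∃ hT hW ct, Lbl B Q L j hT hW ct ∧ (hT, hW) ∈ exc31 := by
  obtain ⟨hT, hW, bl, ct, zt, h2, _, h3⟩ := h.gx_list31 hv hL hc3 h1 hj h4 hout (no31 V ι) chk31
  exact ⟨hT, hW, ct, h2, h3⟩

/-- **two triples** at an exceptional vector without the five single hits. -/
theorem Frm.gda_pair {Q U L : Finset V} {T : Finset ι} {F : Finset (Finset V)}
    (h : Frm B Q T U F) (hv : ViolR B Q) (hL : L ∈ F) (hc3 : L.card = 3) (h1 : nt B L 1 = 1)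
    (hdv : dv B Q L = -1) {j j' : ι} (hj : j ∈ T) (hj' : j' ∈ T) (hne : j ≠ j')
    {hT hW : List ℕ} {ct : ℕ → V} (hl : Lbl B Q L j hT hW ct) (hmem : (hT, hW) ∈ excA)
    (hpos : 1 ≤ hit B (B j' ∩ Q) L)
    (h3 : hW.getD 0 0 = 3 → ∃ v ∈ B j' ∩ Q, (Ez B L v).card = 3) :
    hT = [3, 1, 0] ∧ hW = [1, 1, 1, 1] ∧ hit B (B j' ∩ Q) L = 1 := by
  classical
  set tb : ℕ → ι := fun i => if i = 0 then j else j' with htb
  have hT2 : ∀ i < 2, tb i ∈ T := by
    intro i hi
    rw [htb]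
    dsimp only
    split_ifs
    · exact hj
    · exact hj'
  have hinj : ∀ i < 2, ∀ i' < 2, tb i = tb i' → i = i' := by
    intro i hi i' hi' he
    rw [htb] at he
    dsimp only at he
    split_ifs at he with h5 h6 h6
    · omega
    · exact absurd he hne
    · exact absurd he.symm hne
    · omega
  have hjZ : ∀ i < 2, ¬ (B (tb i) ∩ L).Nonempty := by
    rintro i hi ⟨v, hv'⟩
    obtain ⟨h2, h5⟩ := mem_inter.1 hv'
    exact (h.T_out (hT2 i hi) (mem_inter.2 ⟨h2, h.FQ hL h5⟩)).2 L hL h5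
  have hdis : ∀ i < 2, ∀ i' < 2, i ≠ i' → Disjoint (B (tb i) ∩ Q) (B (tb i') ∩ Q) :=
    fun i hi i' hi' hn => h.mtp.tpk.pack.disj _ (hT2 i hi) _ (hT2 i' hi')
      fun he => hn (hinj i hi i' hi' he)
  obtain ⟨hs, hW', ct', hn⟩ := exists_labelsN (Z := L) (k := 2) (by norm_num)
    (fun i hi => h.full (hT2 i hi)) hjZ hdis
  obtain ⟨a, b, rfl⟩ : ∃ a b, hs = [a, b] := List.length_eq_two.1 hn.len
  have ha : a = hT := hl.fst_of hn (i := 0) (by norm_num) rfl
  subst ha
  have hp := hl.perm_of hn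
  rw [List.flatten_cons, List.flatten_nil, List.append_nil] at hp
  have hb3 : b.length = 3 := hn.len3 b (by simp)
  have hbd : b.Pairwise (fun a b => b ≤ a) := hn.desT b (by simp)
  have hsum : b.sum = hit B (B j' ∩ Q) L := hn.sumT 1 (by norm_num)
  have hb4 : ∀ x ∈ b, x ≤ 4 := by
    intro x hx
    rcases Nat.eq_zero_or_pos x with h0 | h0
    · omega
    · have h5 : x ∈ hW := hp.mem_iff.1 (List.mem_append_left _ (List.mem_filter.2
        ⟨hx, by simpa using h0⟩))
      have h6 : ∀ p ∈ excA, ∀ x ∈ p.2, x ≤ 4 := by decide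
      exact h6 _ hmem x h5
  have hsps := mem_sps (mem_tri hb3 hbd hb4) hp hl.desW hn.desW
  have hchk := List.all_eq_true.1 (List.all_eq_true.1 chk31_2 _ hmem) _ hsps
  unfold tst2 at hchk
  simp only [Bool.or_eq_true, Bool.and_eq_true, decide_eq_true_eq, Bool.not_eq_true',
    List.contains_iff_mem] at hchk
  have hlen : hW'.length ≤ hW.length := by
    have := hp.length_eq
    rw [List.length_append] at this
    omega
  have hlen2 : ∀ p ∈ excA, p.2.length ≤ 5 := by decide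
  have hlen3 : hW.length ≤ 5 := hlen2 _ hmem
  rcases hchk with (((hc | hc) | hc) | hc) | hc
  · exfalso
    have h5 : hit B (Q \ (L ∪ ((B j ∩ Q) ∪ (B j' ∩ Q)))) L ≤ 1 := by
      refine le_trans (hit_mono_left _ fun v hv' => ?_) (le_trans (le_of_eq hn.sumW.symm) hc)
      simp only [mem_sdiff, mem_union, mem_inter, mem_biUnion, Finset.mem_range, not_or, not_and,
        not_exists] at hv' ⊢
      obtain ⟨h6, h7, h8, h9⟩ := hv'
      refine ⟨⟨h6, h7⟩, fun i hi hvi => ?_⟩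
      rw [htb] at hvi
      dsimp only at hvi
      split_ifs at hvi
      · exact h8 hvi h6
      · exact h9 hvi h6
    have h6 := h.few_neg hv hj hj' hne hL hdv h5
    have h7 : hit B (B j ∩ Q) L ≤ hit B ((B j ∩ Q) ∪ (B j' ∩ Q)) L :=
      hit_mono_left _ subset_union_left
    have h8 : ∀ p ∈ excA, 4 ≤ p.1.sum := by decide
    have h9 := h8 _ hmem
    have h10 := hl.sumT
    dsimp only at h9
    omega
  · exfalso
    have h5 : b.sum = 0 := hc
    omega
  · exfalso
    obtain ⟨v, hv1, hv2⟩ := h3 hc.1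
    have h5 : b.count 3 = ((B j' ∩ Q).filter (fun v => (Ez B L v).card = 3)).card :=
      hn.cntT (i := 1) (by norm_num) 3
    have h6 : 0 < b.count 3 := by
      rw [h5]
      exact card_pos.2 ⟨v, mem_filter.2 ⟨hv1, hv2⟩⟩
    have h7 : 3 ∈ b := List.count_pos_iff.1 h6
    have h8 : b.contains 3 = true := by simpa using h7
    have h9 : b.contains 3 = false := hc.2
    rw [h8] at h9
    exact absurd h9 (by simp)
  · exfalso
    exact h.noN31 hv hL hc3 h1 hT2 hinj hn (by omega) (no31_2 V ι _ hc)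
  · obtain ⟨h5, h6⟩ := hc
    have h7 : a = [3, 1, 0] ∧ hW = [1, 1, 1, 1] := by simpa using h5
    have h8 : b = [1, 0, 0] ∧ hW' = [1, 1, 1] := by simpa using h6
    refine ⟨h7.1, h7.2, ?_⟩
    rw [← hsum, h8.1]
    rfl

/-- the vectors without the five single hits need three hits of `U`. -/
theorem Frm.gda_excA {Q U L : Finset V} {T : Finset ι} {F : Finset (Finset V)}
    (h : Frm B Q T U F) (hv : ViolR B Q) (hL : L ∈ F) (hc3 : L.card = 3) (h1 : nt B L 1 = 1)
    (hdv : dv B Q L = -1) {j : ι} (hj : j ∈ T) {hT hW : List ℕ} {ct : ℕ → V}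
    (hl : Lbl B Q L j hT hW ct) (hmem : (hT, hW) ∈ excA) : 3 ≤ hit B U L := by
  classical
  by_contra hg
  have hs3 : 3 ≤ hW.sum := by
    have h2 : ∀ p ∈ excA, 3 ≤ p.2.sum := by decide
    exact h2 _ hmem
  have hpos : ∀ j' v, v ∈ B j' → v ∈ Q → (Ez B L v).Nonempty → 1 ≤ hit B (B j' ∩ Q) L := by
    intro j' v hvj hvQ hne
    rw [hit_eq_Ez]
    exact (card_pos.2 hne).trans_le (single_le_sum (f := fun y => (Ez B L y).card)
      (fun _ _ => Nat.zero_le _) (mem_inter.2 ⟨hvj, hvQ⟩))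
  by_cases h3 : hW.getD 0 0 = 3
  · have hlen : 0 < hW.length := by
      rcases hW with _ | ⟨x, t⟩
      · simp at h3
      · simp
    obtain ⟨hvQ, hvL⟩ := hl.memQ 3 (by omega)
    have hez : (Ez B L (ct 3)).card = 3 := by
      rw [hl.hits 3 (by omega), List.getD_append_right _ _ _ _ (by rw [hl.lenT]), hl.lenT]
      exact h3
    have hvj : ct 3 ∉ B j := by
      intro h4
      obtain ⟨a, ha, he⟩ := (hl.trip _).1 (mem_inter.2 ⟨h4, hvQ⟩)
      have := hl.inj a (by omega) 3 (by omega) he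
      omega
    have hvU : ct 3 ∉ U := by
      intro h4
      have h5 : (Ez B L (ct 3)).card ≤ hit B U L := by
        rw [hit_eq_Ez]
        exact single_le_sum (f := fun y => (Ez B L y).card) (fun _ _ => Nat.zero_le _) h4
      omega
    have hne : (Ez B L (ct 3)).Nonempty := card_pos.1 (by omega)
    obtain ⟨j', hj', hvj'⟩ := h.exists_T hL hvQ hvL hvU hne
    have hjj : j ≠ j' := by
      rintro rfl
      exact hvj hvj'
    have h6 := h.gda_pair hv hL hc3 h1 hdv hj hj' hjj hl hmem (hpos j' _ hvj' hvQ hne)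
      (fun _ => ⟨ct 3, mem_inter.2 ⟨hvj', hvQ⟩, hez⟩)
    rw [h6.2.1] at h3
    simp at h3
  · have hfirst : ∀ W ⊆ (Q \ L) \ B j, hit B U L < hit B W L → ∃ j' ∈ T, j ≠ j' ∧
        hT = [3, 1, 0] ∧ hW = [1, 1, 1, 1] ∧ hit B (B j' ∩ Q) L = 1 ∧ (W ∩ B j').Nonempty := by
      intro W hW' hlt
      obtain ⟨v, hvW, hvU, hne⟩ := exists_out hlt
      obtain ⟨h4, hvj⟩ := mem_sdiff.1 (hW' hvW)
      obtain ⟨hvQ, hvL⟩ := mem_sdiff.1 h4
      obtain ⟨j', hj', hvj'⟩ := h.exists_T hL hvQ hvL hvU hne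
      have hjj : j ≠ j' := by
        rintro rfl
        exact hvj hvj'
      have h6 := h.gda_pair hv hL hc3 h1 hdv hj hj' hjj hl hmem (hpos j' _ hvj' hvQ hne)
        (fun h7 => absurd h7 h3)
      exact ⟨j', hj', hjj, h6.1, h6.2.1, h6.2.2, v, mem_inter.2 ⟨hvW, hvj'⟩⟩
    obtain ⟨j', hj', hjj, e1, e2, e3, _⟩ := hfirst _ (Subset.refl _) (by
      rw [← hl.sumW]
      omega)
    have h5 : hit B ((Q \ L) \ B j) L ≤ hit B (B j' ∩ Q) L +
        hit B (((Q \ L) \ B j) \ B j') L := by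
      rw [hit_eq_Ez, hit_eq_Ez, hit_eq_Ez,
        ← Finset.sum_inter_add_sum_sdiff ((Q \ L) \ B j) (B j') (fun y => (Ez B L y).card)]
      refine Nat.add_le_add_right (sum_le_sum_of_subset fun v hv' => ?_) _
      simp only [mem_inter, mem_sdiff] at hv' ⊢
      exact ⟨hv'.2, hv'.1.1.1⟩
    have h6 : hW.sum = 4 := by rw [e2]; rfl
    obtain ⟨j2, hj2, hjj2, _, _, e4, v2, hv2⟩ := hfirst (((Q \ L) \ B j) \ B j') sdiff_subset (by
      rw [← hl.sumW] at h5
      omega)
    have hj12 : j' ≠ j2 := by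
      rintro rfl
      obtain ⟨h7, h8⟩ := mem_inter.1 hv2
      exact (mem_sdiff.1 h7).2 h8
    subst e1
    subst e2
    set tb : ℕ → ι := fun i => if i = 0 then j else if i = 1 then j' else j2 with htb
    have hT3 : ∀ i < 3, tb i ∈ T := by
      intro i hi
      rw [htb]
      dsimp only
      split_ifs
      · exact hj
      · exact hj'
      · exact hj2
    have hinj : ∀ i < 3, ∀ i' < 3, tb i = tb i' → i = i' := by
      intro i hi i' hi' he
      have h7 : i = 0 ∨ i = 1 ∨ i = 2 := by omega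
      have h8 : i' = 0 ∨ i' = 1 ∨ i' = 2 := by omega
      rcases h7 with rfl | rfl | rfl <;> rcases h8 with rfl | rfl | rfl <;>
        first
        | rfl
        | (exfalso
           simp only [htb, if_true, if_false, one_ne_zero, OfNat.ofNat_ne_zero,
             OfNat.ofNat_ne_one] at he
           first
           | exact hjj he
           | exact hjj he.symm
           | exact hjj2 he
           | exact hjj2 he.symm
           | exact hj12 he
           | exact hj12 he.symm)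
    have hjZ : ∀ i < 3, ¬ (B (tb i) ∩ L).Nonempty := by
      rintro i hi ⟨v, hv'⟩
      obtain ⟨h7, h8⟩ := mem_inter.1 hv'
      exact (h.T_out (hT3 i hi) (mem_inter.2 ⟨h7, h.FQ hL h8⟩)).2 L hL h8
    have hdis : ∀ i < 3, ∀ i' < 3, i ≠ i' → Disjoint (B (tb i) ∩ Q) (B (tb i') ∩ Q) :=
      fun i hi i' hi' hn => h.mtp.tpk.pack.disj _ (hT3 i hi) _ (hT3 i' hi')
        fun he => hn (hinj i hi i' hi' he)
    obtain ⟨hs, hW2, ct2, hn⟩ := exists_labelsN (Z := L) (k := 3) (by norm_num)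
      (fun i hi => h.full (hT3 i hi)) hjZ hdis
    obtain ⟨a, b, c, rfl⟩ : ∃ a b c, hs = [a, b, c] := List.length_eq_three.1 hn.len
    have ha : a = [3, 1, 0] := hl.fst_of hn (i := 0) (by norm_num) rfl
    subst ha
    have hone : ∀ l : List ℕ, l.length = 3 → l.Pairwise (fun a b => b ≤ a) → l.sum = 1 →
        l = [1, 0, 0] := by
      intro l hl3 hld hls
      rcases l with _ | ⟨x, _ | ⟨y, _ | ⟨z, _ | ⟨w, t⟩⟩⟩⟩
      · simp at hl3
      · simp at hl3
      · simp at hl3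
      · rw [List.pairwise_cons, List.pairwise_cons] at hld
        have h7 := hld.1 y List.mem_cons_self
        have h8 := hld.2.1 z List.mem_cons_self
        simp only [List.sum_cons, List.sum_nil] at hls
        have h9 : x = 1 ∧ y = 0 ∧ z = 0 := by omega
        obtain ⟨rfl, rfl, rfl⟩ := h9
        rfl
      · simp at hl3
    have hb : b = [1, 0, 0] := hone b (hn.len3 b (by simp)) (hn.desT b (by simp))
      ((hn.sumT 1 (by norm_num)).trans e3)
    have hc : c = [1, 0, 0] := hone c (hn.len3 c (by simp)) (hn.desT c (by simp))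
      ((hn.sumT 2 (by norm_num)).trans e4)
    subst hb
    subst hc
    have hp := hl.perm_of hn
    have hp2 : ([1, 1] ++ hW2).Perm ([1, 1] ++ [1, 1]) := hp
    rw [List.perm_append_left_iff] at hp2
    have hW3 : hW2 = [1, 1] := List.perm_replicate.1
      (show hW2.Perm (List.replicate 2 1) from hp2)
    subst hW3
    exact h.noN31 hv hL hc3 h1 hT3 hinj hn (by norm_num) (no31_3 V ι)

/-- **GD.a**: a triple with at least four hits at a leaf of type (3;1), at most two hits of `U`: four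
hits, and five single hits of other points. -/
theorem Frm.gda4 {Q U L : Finset V} {T : Finset ι} {F : Finset (Finset V)}
    (h : Frm B Q T U F) (hv : ViolR B Q) (hL : L ∈ F) (hc3 : L.card = 3) (h1 : nt B L 1 = 1)
    (hdv : dv B Q L = -1) (hg : hit B U L ≤ 2) {j : ι} (hj : j ∈ T)
    (h4 : 4 ≤ hit B (B j ∩ Q) L) : ∃ hT hW ct, Lbl B Q L j hT hW ct ∧ hW = [1, 1, 1, 1, 1] ∧
      (hT = [4, 0, 0] ∨ hT = [3, 1, 0] ∨ hT = [2, 2, 0] ∨ hT = [2, 1, 1]) := by
  obtain ⟨hT, hW, ct, hl, hmem⟩ := h.gda_exc hv hL hc3 h1 hj h4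
    (h.two_out hv hL hdv hj (by omega))
  refine ⟨hT, hW, ct, hl, ?_⟩
  have h2 : ∀ p ∈ exc31, p ∈ excA ∨ (p.2 = [1, 1, 1, 1, 1] ∧
      (p.1 = [4, 0, 0] ∨ p.1 = [3, 1, 0] ∨ p.1 = [2, 2, 0] ∨ p.1 = [2, 1, 1])) := by decide
  rcases h2 _ hmem with h3 | h3
  · have := h.gda_excA hv hL hc3 h1 hdv hj hl h3
    omega
  · exact h3

/-- **GD.a**, the bound: at most four hits. -/
theorem Frm.gda {Q U L : Finset V} {T : Finset ι} {F : Finset (Finset V)}
    (h : Frm B Q T U F) (hv : ViolR B Q) (hL : L ∈ F) (hc3 : L.card = 3) (h1 : nt B L 1 = 1)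
    (hdv : dv B Q L = -1) (hg : hit B U L ≤ 2) {j : ι} (hj : j ∈ T) :
    hit B (B j ∩ Q) L ≤ 4 := by
  by_contra hcon
  obtain ⟨hT, hW, ct, hl, _, h2⟩ := h.gda4 hv hL hc3 h1 hdv hg hj (by omega)
  have h3 := hl.sumT
  rcases h2 with rfl | rfl | rfl | rfl <;> norm_num at h3 <;> omega

/-- **GD.a**, the case of four hits in numbers. -/
theorem Frm.gda4' {Q U L : Finset V} {T : Finset ι} {F : Finset (Finset V)}
    (h : Frm B Q T U F) (hv : ViolR B Q) (hL : L ∈ F) (hc3 : L.card = 3) (h1 : nt B L 1 = 1)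
    (hdv : dv B Q L = -1) (hg : hit B U L ≤ 2) {j : ι} (hj : j ∈ T)
    (h4 : 4 ≤ hit B (B j ∩ Q) L) : hit B (B j ∩ Q) L = 4 ∧ hit B ((Q \ L) \ B j) L = 5 ∧
      hit B (Q \ L) L = 9 ∧ ∀ v ∈ Q, v ∉ L → v ∉ B j → (Ez B L v).card ≤ 1 := by
  classical
  obtain ⟨hT, hW, ct, hl, rfl, h2⟩ := h.gda4 hv hL hc3 h1 hdv hg hj h4
  have h3 := hl.sumT
  have h5 := hl.sumW
  have hjL : ¬ (B j ∩ L).Nonempty := by
    rintro ⟨v, hv'⟩
    obtain ⟨h7, h8⟩ := mem_inter.1 hv'
    exact (h.T_out hj (mem_inter.2 ⟨h7, h.FQ hL h8⟩)).2 L hL h8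
  have h6 := hl.sum_all hjL
  have h7 : hit B (B j ∩ Q) L = 4 := by
    rcases h2 with rfl | rfl | rfl | rfl <;> norm_num at h3 <;> omega
  norm_num at h5
  refine ⟨h7, h5.symm, ?_, fun v hvQ hvL hvj => ?_⟩
  · rw [← h6, h3, h7]
    rfl
  · by_contra hcon
    obtain ⟨a, ha, rfl⟩ := hl.all v hvQ hvL (card_pos.1 (by omega))
    have ha3 : 3 ≤ a := by
      by_contra hc
      exact hvj (mem_inter.1 ((hl.trip _).2 ⟨a, by omega, rfl⟩)).1
    have h8 := hl.hits a ha
    rw [List.getD_append_right _ _ _ _ (by rw [hl.lenT]; exact ha3), hl.lenT] at h8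
    have h9 : a = 3 ∨ a = 4 ∨ a = 5 ∨ a = 6 ∨ a = 7 := by
      simp only [List.length_cons, List.length_nil] at ha
      omega
    rcases h9 with rfl | rfl | rfl | rfl | rfl <;> simp at h8 <;> omega

/-- without a condition on `U`: at most five hits. -/
theorem Frm.gda5 {Q U L : Finset V} {T : Finset ι} {F : Finset (Finset V)}
    (h : Frm B Q T U F) (hv : ViolR B Q) (hL : L ∈ F) (hc3 : L.card = 3) (h1 : nt B L 1 = 1)
    (hdv : dv B Q L = -1) {j : ι} (hj : j ∈ T) : hit B (B j ∩ Q) L ≤ 5 := by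
  by_contra hcon
  obtain ⟨hT, hW, ct, hl, hmem⟩ := h.gda_exc hv hL hc3 h1 hj (by omega)
    (h.two_out hv hL hdv hj (by omega))
  have h2 : ∀ p ∈ exc31, p.1.sum ≤ 5 := by decide
  have h3 := h2 _ hmem
  have h4 := hl.sumT
  dsimp only at h3
  omega

end

end Pool.Agent.Hyp6
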