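import Pool.Agent.Hyp6.Ins.J00
import Pool.Agent.Hyp6.Ins.J01
import Pool.Agent.Hyp6.Ins.J02
import Pool.Agent.Hyp6.Ins.J03
import Pool.Agent.Hyp6.Ins.J04
import Pool.Agent.Hyp6.Ins.J05
import Pool.Agent.Hyp6.Ins.J06
import Pool.Agent.Hyp6.Ins.J07
import Pool.Agent.Hyp6.Ins.J08
import Pool.Agent.Hyp6.Ins.J09
import Pool.Agent.Hyp6.Ins.J10
import Pool.Agent.Hyp6.Ins.J11
import Pool.Agent.Hyp6.Ins.J12
import Pool.Agent.Hyp6.CfgU

/-!
# HYP6 TQ3: the tight case is impossible

All the instances of the tight case are refuted (files `Ins/J00` to `Ins/J12`); so in a minimal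
counterexample with value at least one the rest of every full block is critical.
-/

set_option autoImplicit false

namespace Pool.Agent.Hyp6

open Finset Pool.Agent.Hyp5 Rup

universe u v

/-- permutations of the points `0, 1, 2` and of the points `3, 4, 5`. -/
def prmQ : List (List ℕ) :=
  [[0, 1, 2, 3, 4, 5, 6],
   [0, 1, 2, 3, 5, 4, 6],
   [0, 1, 2, 4, 3, 5, 6],
   [0, 1, 2, 4, 5, 3, 6],
   [0, 1, 2, 5, 3, 4, 6],
   [0, 1, 2, 5, 4, 3, 6],
   [0, 2, 1, 3, 4, 5, 6],
   [0, 2, 1, 3, 5, 4, 6],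
   [0, 2, 1, 4, 3, 5, 6],
   [0, 2, 1, 4, 5, 3, 6],
   [0, 2, 1, 5, 3, 4, 6],
   [0, 2, 1, 5, 4, 3, 6],
   [1, 0, 2, 3, 4, 5, 6],
   [1, 0, 2, 3, 5, 4, 6],
   [1, 0, 2, 4, 3, 5, 6],
   [1, 0, 2, 4, 5, 3, 6],
   [1, 0, 2, 5, 3, 4, 6],
   [1, 0, 2, 5, 4, 3, 6],
   [1, 2, 0, 3, 4, 5, 6],
   [1, 2, 0, 3, 5, 4, 6],
   [1, 2, 0, 4, 3, 5, 6],
   [1, 2, 0, 4, 5, 3, 6],
   [1, 2, 0, 5, 3, 4, 6],
   [1, 2, 0, 5, 4, 3, 6],
   [2, 0, 1, 3, 4, 5, 6],
   [2, 0, 1, 3, 5, 4, 6],
   [2, 0, 1, 4, 3, 5, 6],
   [2, 0, 1, 4, 5, 3, 6],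
   [2, 0, 1, 5, 3, 4, 6],
   [2, 0, 1, 5, 4, 3, 6],
   [2, 1, 0, 3, 4, 5, 6],
   [2, 1, 0, 3, 5, 4, 6],
   [2, 1, 0, 4, 3, 5, 6],
   [2, 1, 0, 4, 5, 3, 6],
   [2, 1, 0, 5, 3, 4, 6],
   [2, 1, 0, 5, 4, 3, 6]]

/-- representatives of the masks of one further inner block. -/
def repQ : List ℕ := [8, 9, 11, 24, 25, 56, 72, 73, 88]

/-- the list is an admissible permutation of seven points. -/
def okq (pl : List ℕ) : Bool :=
  (List.range 7).all (fun a => decide (pl.getD a 0 < 7)) &&
  (List.range 7).all (fun a => (List.range 7).all (fun b =>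
    decide (a = b) || !(decide (pl.getD a 0 = pl.getD b 0)))) &&
  (decide (pmk (fun a => pl.getD a 0) 7 7 = 7) && decide (pmk (fun a => pl.getD a 0) 7 56 = 56) &&
    (decide (pmk (fun a => pl.getD a 0) 7 71 = 71) &&
      decide (pmk (fun a => pl.getD a 0) 7 184 = 56)))

theorem okq_prmQ : prmQ.all okq = true := by decide +kernel

theorem repQ_all : ((mskL 7).all (fun A => decide (A &&& 184 = 0) || prmQ.any (fun pl =>
    repQ.any (fun R => decide (pmk (fun a => pl.getD a 0) 7 R = A))))) = true := by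
  decide +kernel

variable {V : Type v} [DecidableEq V] {ι : Type u} [Fintype ι] {B : ι → Finset V}
variable {Q X Z : Finset V} {F : Finset (Finset V)} {i j : ι} {n : ℕ} {x : ℕ → V} {D : ℕ → Finset V}
variable {ub L : List ℕ}

theorem CfQ.mem_i (h : CfQ B Q n x D i j) : i ∈ ib B Q x (6 + n) 7 := mem_ib.2 h.i7

theorem CfQ.mem_j (h : CfQ B Q n x D i j) : j ∈ ib B Q x (6 + n) 56 := mem_ib.2 h.j56

theorem CfQ.kev (h : CfQ B Q n x D i j) {a : ℕ} (ha : a < 1 + n) : kpv B Q (D a) % 2 = 0 := by
  rw [kpv_eq]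
  exact h.tq.even (h.memF ha)

theorem CfQ.knn (h : CfQ B Q n x D i j) {a : ℕ} (ha : a < 1 + n) : 0 ≤ kpv B Q (D a) := by
  rw [kpv_eq]
  exact h.tq.nonneg (h.memF ha)

/-- the sum of the values of the components. -/
theorem CfQ.tot (h : CfQ B Q n x D i j) :
    ∑ a ∈ range (1 + n), kpv B Q (D a) +
      4 * ∑ A ∈ (range (2 ^ (6 + n))).erase 0, ((ib B Q x (6 + n) A).card : ℤ) =
    18 - 4 * (n : ℤ) +
      2 * (((range (6 + n)).filter (fun a => 2 ≤ (ib B Q x (6 + n) (2 ^ a)).card)).card : ℤ) := by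
  classical
  have hinj := h.cf.inj
  have hY : ∀ v, v ∈ ptm x (6 + n) 71 ∪ ptm x (6 + n) 184 ↔ ∃ a < 6 + n, x a = v :=
    fun v => h.pt255
  have h1 := h.tq.sum_p
  have h2 := card_ins_eq (B := B) (Q := Q) hinj hY
  have h3 := ee_eq_ib (B := B) (Q := Q) hinj hY
  have h4 : ∑ a ∈ range (1 + n), kpv B Q (D a) =
      ∑ L ∈ (range (1 + n)).image D, (dv B Q L + 1) := by
    rw [sum_image]
    · exact sum_congr rfl fun a _ => kpv_eq _
    · intro a ha b hb he
      exact h.Dinj a (by simpa using ha) b (by simpa using hb) he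
  have c2 : ((ins B Q (ptm x (6 + n) 71 ∪ ptm x (6 + n) 184)).card : ℤ) =
      ∑ A ∈ (range (2 ^ (6 + n))).erase 0, ((ib B Q x (6 + n) A).card : ℤ) := by
    rw [h2]
    push_cast
    rfl
  have h5 := h.cZ
  rw [h4, ← c2, ← h3]
  rw [h5] at h1
  push_cast at h1
  linarith

/-- the list of the masks of the inner blocks. -/
theorem CfQ.exists_ins (h : CfQ B Q n x D i j) : ∃ L : List ℕ,
    (∀ A ∈ L, A < 2 ^ (6 + n) ∧ A ≠ 0 ∧ pcn (6 + n) A ≤ 3 ∧ A &&& 184 ≠ 0) ∧
    (∀ A < 2 ^ (6 + n), A ≠ 0 → (ib B Q x (6 + n) A).card = (7 :: 56 :: L).count A) ∧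
    ∑ a ∈ range (1 + n), kpv B Q (D a) + 4 * (L.length : ℤ) + 4 * (n : ℤ) =
      10 + 2 * (e2n n L : ℤ) := by
  classical
  set N := 6 + n with hN
  set c : ℕ → ℕ := fun A => if A = 0 then 0 else
    (ib B Q x N A).card - (if A = 7 then 1 else 0) - (if A = 56 then 1 else 0) with hc
  obtain ⟨L, h1, h2, h3⟩ := exists_count_list c (2 ^ N)
  have hp7 : 1 ≤ (ib B Q x N 7).card := card_pos.2 ⟨i, h.mem_i⟩
  have hp56 : 1 ≤ (ib B Q x N 56).card := card_pos.2 ⟨j, h.mem_j⟩
  have h64 : 64 ≤ 2 ^ N := by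
    calc 64 = 2 ^ 6 := by norm_num
      _ ≤ 2 ^ N := Nat.pow_le_pow_right (by norm_num) (by omega)
  have hcnt : ∀ A < 2 ^ N, A ≠ 0 → (ib B Q x N A).card = (7 :: 56 :: L).count A := by
    intro A hA hA0
    have h4 : L.count A = c A := by rw [h1, if_pos hA]
    rw [List.count_cons, List.count_cons, h4, hc]
    simp only [if_neg hA0]
    by_cases e7 : A = 7
    · subst e7
      simp
      omega
    · by_cases e56 : A = 56
      · subst e56
        simp
        omega
      · have k1 : (7 == A) = false := by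
          rw [beq_eq_false_iff_ne]
          exact fun h => e7 h.symm
        have k2 : (56 == A) = false := by
          rw [beq_eq_false_iff_ne]
          exact fun h => e56 h.symm
        rw [if_neg e7, if_neg e56, k1, k2]
        simp
  have hmem : ∀ A ∈ L, A < 2 ^ N ∧ A ≠ 0 ∧ 0 < c A := by
    intro A hA
    have h4 := h1 A
    have h5 : 0 < L.count A := List.count_pos_iff.2 hA
    by_cases hlt : A < 2 ^ N
    · rw [if_pos hlt] at h4
      refine ⟨hlt, ?_, by omega⟩
      rintro rfl
      rw [hc] at h4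
      simp only [if_true] at h4
      omega
    · rw [if_neg hlt] at h4
      omega
  refine ⟨L, ?_, hcnt, ?_⟩
  · intro A hA
    obtain ⟨k1, k2, k3⟩ := hmem A hA
    have h5 : 0 < (ib B Q x N A).card := by
      rw [hc] at k3
      simp only [if_neg k2] at k3
      omega
    obtain ⟨k, hk⟩ := card_pos.1 h5
    refine ⟨k1, k2, ?_, ?_⟩
    · rw [mem_ib] at hk
      rw [← h.cf.card_ptm, ← hk]
      exact h.cf.tr3 k
    · intro h184
      -- the block would be inside `X`
      have hsub : ∀ k ∈ ib B Q x N A, k ∈ ins B Q (ptm x N 71) := by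
        intro k hk
        rw [mem_ib] at hk
        rw [mem_ins, hk]
        constructor
        · obtain ⟨a, ha⟩ := Nat.exists_testBit_of_ne_zero k2
          have haN : a < N := by
            by_contra hcon
            push Not at hcon
            have h2 : (2 : ℕ) ^ N ≤ 2 ^ a := Nat.pow_le_pow_right (by norm_num) hcon
            rw [Nat.testBit_lt_two_pow (lt_of_lt_of_le k1 h2)] at ha
            exact absurd ha (by simp)
          exact ⟨x a, mem_ptm.2 ⟨a, haN, ha, rfl⟩⟩
        · intro v hv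
          obtain ⟨a, ha, hAa, rfl⟩ := mem_ptm.1 hv
          refine mem_ptm.2 ⟨a, ha, ?_, rfl⟩
          have h8 := h.bit8 ha
          have h9 : (A &&& 184).testBit a = false := by rw [h184]; simp
          rw [Nat.testBit_and, hAa, Bool.true_and] at h9
          interval_cases a <;> first | rfl | exact absurd h9 (by decide)
      have hi7 : i ∈ ins B Q (ptm x N 71) := h.tq.i0_ins
      have hone := h.tq.n1
      have huni : ∀ k ∈ ins B Q (ptm x N 71), k = i := by
        intro k hk
        exact card_le_one.1 hone.le k hk i hi7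
      have hki := huni k (hsub k hk)
      have hA7 : A = 7 := by
        rw [hki, mem_ib] at hk
        exact ptm_inj h.cf.inj k1 (show (7 : ℕ) < 2 ^ N by omega) (hk.symm.trans h.i7)
      subst hA7
      have h10 : (ib B Q x N 7).card ≤ 1 := by
        rw [card_le_one]
        intro a ha b hb
        rw [huni a (hsub a ha), huni b (hsub b hb)]
      rw [hc] at k3
      simp at k3
      omega
  · have ht := h.tot
    have hsum : ∑ A ∈ (range (2 ^ N)).erase 0, ((ib B Q x N A).card : ℤ) = 2 + (L.length : ℤ) := by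
      have h6 : ∀ A ∈ (range (2 ^ N)).erase 0, ((ib B Q x N A).card : ℤ) =
          (c A : ℤ) + (if A = 7 then 1 else 0) + (if A = 56 then 1 else 0) := by
        intro A hA
        rw [mem_erase, mem_range] at hA
        rw [hc]
        simp only [if_neg hA.1]
        by_cases e7 : A = 7
        · subst e7
          simp
          omega
        · by_cases e56 : A = 56
          · subst e56
            simp
            omega
          · simp [e7, e56]
      rw [sum_congr rfl h6, sum_add_distrib, sum_add_distrib, sum_ite_eq', sum_ite_eq',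
        if_pos (by rw [mem_erase, mem_range]; exact ⟨by norm_num, by omega⟩),
        if_pos (by rw [mem_erase, mem_range]; exact ⟨by norm_num, by omega⟩), h2]
      have h7 : ∑ A ∈ range (2 ^ N), c A = ∑ A ∈ (range (2 ^ N)).erase 0, c A := by
        rw [← sum_erase_add (range (2 ^ N)) c (a := 0) (mem_range.2 (by omega))]
        have : c 0 = 0 := by rw [hc]; simp
        rw [this, add_zero]
      rw [h7]
      push_cast
      ring
    have he : ((range N).filter (fun a => 2 ≤ (ib B Q x N (2 ^ a)).card)).card = e2n n L := by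
      have h8 : ∀ a < N, (2 ≤ (ib B Q x N (2 ^ a)).card ↔ 2 ≤ L.count (2 ^ a)) := by
        intro a ha
        have h9 : (2 : ℕ) ^ a < 2 ^ N := Nat.pow_lt_pow_right (by norm_num) ha
        have h10 := hcnt (2 ^ a) h9 (by positivity)
        have k1 : (7 == 2 ^ a) = false := by
          rw [beq_eq_false_iff_ne]
          intro hh
          rcases Nat.lt_or_ge a 3 with h11 | h11
          · interval_cases a <;> simp at hh
          · have : 2 ^ 3 ≤ 2 ^ a := Nat.pow_le_pow_right (by norm_num) h11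
            omega
        have k2 : (56 == 2 ^ a) = false := by
          rw [beq_eq_false_iff_ne]
          intro hh
          rcases Nat.lt_or_ge a 6 with h11 | h11
          · interval_cases a <;> simp at hh
          · have : 2 ^ 6 ≤ 2 ^ a := Nat.pow_le_pow_right (by norm_num) h11
            omega
        rw [List.count_cons, List.count_cons, k1, k2] at h10
        simp only [Bool.false_eq_true, if_false, add_zero] at h10
        rw [h10]
      unfold e2n
      rw [← hN]
      have h12 : ((List.range N).filter (fun a => decide (2 ≤ L.count (2 ^ a)))).length =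
          (((List.range N).filter (fun a => decide (2 ≤ L.count (2 ^ a)))).toFinset).card := by
        rw [List.toFinset_card_of_nodup (List.nodup_range.filter _)]
      rw [h12]
      congr 1
      ext a
      rw [mem_filter, mem_range, List.mem_toFinset, List.mem_filter, List.mem_range,
        decide_eq_true_eq]
      exact and_congr_right (h8 a)
    rw [hsum, he] at ht
    linarith

/-- permutations of the components. -/
theorem CfQ.permC (h : CfQ B Q n x D i j) {q : ℕ → ℕ} (hq : ∀ a < 1 + n, q a < 1 + n)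
    (hi : ∀ a < 1 + n, ∀ b < 1 + n, q a = q b → a = b) :
    CfQ B Q n x (fun a => D (q a)) i j where
  n1 := h.n1
  n2 := h.n2
  cf := h.cf.permC hq hi
  i7 := h.i7
  j56 := h.j56
  tq := by
    have h1 : (range (1 + n)).image (fun a => D (q a)) = (range (1 + n)).image D := by
      ext W
      rw [mem_image, mem_image]
      constructor
      · rintro ⟨a, ha, he⟩
        exact ⟨q a, mem_range.2 (hq a (mem_range.1 ha)), he⟩
      · rintro ⟨a, ha, he⟩
        obtain ⟨b, hb, rfl⟩ := exists_pre hq hi (mem_range.1 ha)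
        exact ⟨b, mem_range.2 hb, he⟩
    rw [h1]
    exact h.tq

/-- permutations of the points, `n = 1`. -/
theorem CfQI.permX {A : List ℕ} (h : CfQI B Q 1 x D i j ub A) {pl R : List ℕ}
    (hok : okq pl = true) (hR : ∀ r ∈ R, r < 2 ^ 7)
    (hA : A = R.map (pmk (fun a => pl.getD a 0) 7)) : ∃ x', CfQI B Q 1 x' D i j ub R := by
  unfold okq at hok
  simp only [Bool.and_eq_true, List.all_eq_true, List.mem_range, decide_eq_true_eq,
    Bool.or_eq_true, Bool.not_eq_true', decide_eq_false_iff_not] at hok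
  obtain ⟨⟨hp, hi⟩, ⟨h7, h56⟩, h71, h184⟩ := hok
  set p : ℕ → ℕ := fun a => pl.getD a 0 with hpd
  have hi' : ∀ a < 7, ∀ b < 7, p a = p b → a = b := by
    intro a ha b hb he
    rcases hi a ha b hb with h1 | h1
    · exact h1
    · exact Not.elim h1 he
  have e184 : ptm x 7 56 = ptm x 7 184 := by
    ext v
    rw [mem_ptm, mem_ptm]
    constructor <;>
    · rintro ⟨a, ha, hb, rfl⟩
      refine ⟨a, ha, ?_, rfl⟩
      interval_cases a <;> first | rfl | exact _root_.absurd hb (by decide)
  refine ⟨fun a => x (p a), ⟨h.n1, h.n2, h.cf.permX hp hi', ?_, ?_, ?_⟩, ?_, h.kle⟩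
  · rw [ptm_pmk p hp, show pmk p (6 + 1) 7 = 7 from h7, h.i7]
  · rw [ptm_pmk p hp, show pmk p (6 + 1) 56 = 56 from h56, h.j56]
  · rw [ptm_pmk p hp, ptm_pmk p hp, show pmk p (6 + 1) 71 = 71 from h71,
      show pmk p (6 + 1) 184 = 56 from h184, show ptm x (6 + 1) 56 = ptm x (6 + 1) 184 from e184]
    exact h.tq
  · refine cnt_perm (L := 7 :: 56 :: A) hp hi' ?_ ?_ h.cnt
    · intro r hr
      rw [List.mem_cons, List.mem_cons] at hr
      rcases hr with rfl | rfl | hr
      · norm_num
      · norm_num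
      · exact hR r hr
    · rw [List.map_cons, List.map_cons, show pmk p (6 + 1) 7 = 7 from h7,
        show pmk p (6 + 1) 56 = 56 from h56]
      exact (List.Perm.of_eq hA).cons 56 |>.cons 7

/-- one further inner block. -/
theorem CfQI.one_false {A : ℕ} (h : CfQI B Q 1 x D i j [0, 2] [A]) (hA : A ∈ mskL 7)
    (hA' : A &&& 184 ≠ 0) : False := by
  have h1 := List.all_eq_true.1 repQ_all A hA
  rw [Bool.or_eq_true, decide_eq_true_eq, List.any_eq_true] at h1
  rcases h1 with h1 | ⟨pl, hpl, h1⟩
  · exact hA' h1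
  rw [List.any_eq_true] at h1
  obtain ⟨R, hR, h1⟩ := h1
  rw [decide_eq_true_eq] at h1
  have hok := List.all_eq_true.1 okq_prmQ pl hpl
  have hR7 : R < 2 ^ 7 := by
    simp only [repQ, List.mem_cons, List.not_mem_nil, or_false] at hR
    rcases hR with rfl | rfl | rfl | rfl | rfl | rfl | rfl | rfl | rfl <;> norm_num
  obtain ⟨x', h2⟩ := h.permX (R := [R]) hok (by
    intro r hr
    rw [List.mem_singleton] at hr
    rw [hr]
    exact hR7) (by rw [List.map_cons, List.map_nil, h1])
  simp only [repQ, List.mem_cons, List.not_mem_nil, or_false] at hR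
  rcases hR with rfl | rfl | rfl | rfl | rfl | rfl | rfl | rfl | rfl
  · exact noT_02 h2
  · exact noT_03 h2
  · exact noT_04 h2
  · exact noT_05 h2
  · exact noT_06 h2
  · exact noT_07 h2
  · exact noT_08 h2
  · exact noT_09 h2
  · exact noT_10 h2

/-- two further inner blocks. -/
theorem CfQI.two_false {a : ℕ} (h : CfQI B Q 1 x D i j [0, 0] [2 ^ a, 2 ^ a]) (ha : a < 7)
    (ha' : 2 ^ a &&& 184 ≠ 0) : False := by
  have key : ∃ pl ∈ prmQ, pmk (fun b => pl.getD b 0) 7 8 = 2 ^ a := by
    interval_cases a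
    · exact _root_.absurd rfl ha'
    · exact _root_.absurd rfl ha'
    · exact _root_.absurd rfl ha'
    · exact ⟨[0, 1, 2, 3, 4, 5, 6], by decide, by decide⟩
    · exact ⟨[0, 1, 2, 4, 3, 5, 6], by decide, by decide⟩
    · exact ⟨[0, 1, 2, 5, 4, 3, 6], by decide, by decide⟩
    · exact _root_.absurd rfl ha'
  obtain ⟨pl, hpl, h1⟩ := key
  obtain ⟨x', h2⟩ := h.permX (R := [8, 8]) (List.all_eq_true.1 okq_prmQ pl hpl) (by
    intro r hr
    simp only [List.mem_cons, List.not_mem_nil, or_false] at hr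
    rcases hr with rfl | rfl <;> norm_num) (by
    rw [List.map_cons, List.map_cons, List.map_nil, h1])
  exact noT_11 h2

/-- **there is no configuration of the tight case.** -/
theorem CfQ.false (h0 : CfQ B Q n x D i j) : False := by
  obtain ⟨q, hq1, hq2, hq3⟩ := exists_sort (1 + n) (fun a => kpv B Q (D a))
  have h := h0.permC hq1 hq2
  obtain ⟨L, hLm, hc, hsum⟩ := h.exists_ins
  have h2e := two_e2n_le n L
  have n1 := h.n1
  have n2 := h.n2
  rcases (by omega : n = 1 ∨ n = 2) with rfl | rfl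
  · have a0 := h.knn (a := 0) (by norm_num)
    have a1 := h.knn (a := 1) (by norm_num)
    have b0 := h.kev (a := 0) (by norm_num)
    have b1 := h.kev (a := 1) (by norm_num)
    have c1 := hq3 0 1 (by norm_num) (by norm_num)
    have hs : ∑ a ∈ range (1 + 1), kpv B Q (D (q a)) = kpv B Q (D (q 0)) + kpv B Q (D (q 1)) := by
      rw [sum_range_succ, sum_range_one]
    rw [hs] at hsum
    have mk : ∀ u0 u1 : ℕ, kpv B Q (D (q 0)) ≤ u0 → kpv B Q (D (q 1)) ≤ u1 →
        CfQI B Q 1 x (fun a => D (q a)) i j [u0, u1] L := by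
      intro u0 u1 g0 g1
      refine ⟨h, hc, ?_⟩
      intro a ha
      rcases (by omega : a = 0 ∨ a = 1) with rfl | rfl
      · exact g0
      · exact g1
    rcases L with _ | ⟨A, _ | ⟨A', _ | ⟨A'', L⟩⟩⟩
    · have e0 : e2n 1 [] = 0 := by decide
      rw [e0] at hsum
      simp only [List.length_nil] at hsum
      rcases (by omega : kpv B Q (D (q 0)) ≤ 0 ∨ 2 ≤ kpv B Q (D (q 0))) with g | g
      · exact noT_00 (mk 0 6 (by push_cast; omega) (by push_cast; omega))
      · exact noT_01 (mk 2 4 (by push_cast; omega) (by push_cast; omega))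
    · simp only [List.length_cons, List.length_nil] at hsum h2e
      obtain ⟨k1, k2, k3, k4⟩ := hLm A (by simp)
      refine CfQI.one_false (mk 0 2 (by push_cast; omega) (by push_cast; omega)) ?_ k4
      unfold mskL
      rw [List.mem_filter, List.mem_range]
      exact ⟨k1, by simp [k2, k3]⟩
    · simp only [List.length_cons, List.length_nil] at hsum h2e
      obtain ⟨a, ha, h2⟩ : ∃ a < 7, 2 ≤ [A, A'].count (2 ^ a) := by
        have he : 1 ≤ e2n 1 [A, A'] := by omega
        unfold e2n at he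
        have h3 : 0 < ((List.range (6 + 1)).filter (fun a =>
            decide (2 ≤ [A, A'].count (2 ^ a)))).length := by omega
        obtain ⟨a, ha⟩ := List.exists_mem_of_length_pos h3
        rw [List.mem_filter, List.mem_range, decide_eq_true_eq] at ha
        exact ⟨a, ha.1, ha.2⟩
      have hAA : A = 2 ^ a ∧ A' = 2 ^ a := by
        rw [List.count_cons, List.count_cons, List.count_nil] at h2
        constructor
        · by_contra hne
          have : (A == 2 ^ a) = false := by
            rw [beq_eq_false_iff_ne]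
            exact hne
          rw [this] at h2
          split_ifs at h2 <;> omega
        · by_contra hne
          have : (A' == 2 ^ a) = false := by
            rw [beq_eq_false_iff_ne]
            exact hne
          rw [this] at h2
          split_ifs at h2 <;> omega
      obtain ⟨rfl, rfl⟩ := hAA
      obtain ⟨k1, k2, k3, k4⟩ := hLm (2 ^ a) (by simp)
      exact CfQI.two_false (mk 0 0 (by push_cast; omega) (by push_cast; omega)) ha k4
    · simp only [List.length_cons] at hsum h2e
      omega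
  · have a0 := h.knn (a := 0) (by norm_num)
    have a1 := h.knn (a := 1) (by norm_num)
    have a2 := h.knn (a := 2) (by norm_num)
    have b0 := h.kev (a := 0) (by norm_num)
    have b1 := h.kev (a := 1) (by norm_num)
    have b2 := h.kev (a := 2) (by norm_num)
    have c1 := hq3 0 1 (by norm_num) (by norm_num)
    have c2 := hq3 1 2 (by norm_num) (by norm_num)
    have hs : ∑ a ∈ range (1 + 2), kpv B Q (D (q a)) =
        kpv B Q (D (q 0)) + kpv B Q (D (q 1)) + kpv B Q (D (q 2)) := by
      rw [sum_range_succ, sum_range_succ, sum_range_one]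
    rw [hs] at hsum
    rcases L with _ | ⟨A, L⟩
    · have e0 : e2n 2 [] = 0 := by decide
      rw [e0] at hsum
      simp only [List.length_nil] at hsum
      refine noT_12 (x := x) (D := fun a => D (q a)) ⟨h, hc, ?_⟩
      intro a ha
      rcases (by omega : a = 0 ∨ a = 1 ∨ a = 2) with rfl | rfl | rfl
      · show kpv B Q (D (q 0)) ≤ ((0 : ℕ) : ℤ)
        push_cast
        omega
      · show kpv B Q (D (q 1)) ≤ ((0 : ℕ) : ℤ)
        push_cast
        omega
      · show kpv B Q (D (q 2)) ≤ ((2 : ℕ) : ℤ)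
        push_cast
        omega
    · simp only [List.length_cons] at hsum h2e
      omega

theorem TQ.false (h : TQ B Q X Z F i j) : False := by
  obtain ⟨n, x, D, hc⟩ := h.exists_cfQ
  exact hc.false

/-- **the tight case is impossible.** -/
theorem TT.false (h : TT B Q X i) : False := by
  obtain ⟨Z, F, j, hq⟩ := h.exists_TQ
  exact hq.false

/-- **Lemma A** for value at least one, sharp form: the closure of a full block is its trace. -/
theorem VCR.one' (h : VCR B Q X F i) :
    F = {Q \ X} ∧ (ins B Q X).card ≤ 2 ∧ X = B i ∩ Q := by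
  obtain ⟨h1, h2, h3⟩ := h.one
  rcases h3 with h3 | ⟨k1, k2, k3, k4, k5, k6⟩
  · exact ⟨h1, h2, h3⟩
  · exfalso
    subst h1
    exact TT.false (i := i) ⟨h, k1, k2, k3, k4, k5, k6⟩

/-- **no separation**, sharp form: a set containing a full block which lowers the cover number by one
only is its trace. -/
theorem ViolR.sep1' (h : ViolR B Q) (hi : (B i ∩ Q).card = 3) {P : Finset V}
    (hPQ : P ⊆ Q) (hiP : B i ∩ Q ⊆ P) (hP1 : rho B (Q \ P) + 1 = rho B Q) : P = B i ∩ Q := by
  obtain ⟨X, F, hPX, hv⟩ := h.exists_VCR hi hPQ hiP hP1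
  exact Subset.antisymm (hPX.trans hv.one'.2.2.le) hiP

/-- **Lemma A** for a minimal counterexample with value at least one: the rest of every full block is
connected and critical. -/
theorem ViolR.lemA' (h : ViolR B Q) (hi : (B i ∩ Q).card = 3) :
    Conn (gr B) (Q \ (B i ∩ Q)) ∧ Crit B (Q \ (B i ∩ Q)) ∧
    rho B (Q \ (B i ∩ Q)) + 1 = rho B Q ∧ ¬ Abz B (Q \ (B i ∩ Q)) (B i ∩ Q) ∧
    sv B (Q \ (B i ∩ Q)) = sv B Q - 1 ∧ (ins B Q (B i ∩ Q)).card ≤ 2 := by
  have hiQ : B i ∩ Q ⊆ Q := inter_subset_right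
  obtain ⟨h1, h2, h3, h4, h5, -⟩ := h.lemA hi
  refine ⟨h1, ?_, h2, h3, h4, h5⟩
  obtain ⟨X, F, hPX, hv⟩ := h.exists_VCR hi hiQ (Subset.refl _) h2
  obtain ⟨k1, k2, k3⟩ := hv.one'
  have hm : Q \ X ∈ F := by rw [k1]; simp
  rw [← k3]
  exact hv.clo.crit _ hm

end Pool.Agent.Hyp6
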