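import Pool.Agent.Hyp6.L3G2
import Pool.Agent.Hyp6.L3K4
import Pool.Agent.Hyp6.Tq3

/-!
# HYP6 L3G4: A2 for the leaves of a frame, from the impossibility of the instances

`Frm.two_triples_of`: for two triples of the frame the further hits and the free places of a leaf are at
least two, or the leaf has at least seven blocks with one point.
-/

set_option autoImplicit false

namespace Pool.Agent.Hyp6

open Finset Pool.Agent.Hyp5

universe u v

variable {V : Type v} [DecidableEq V] {ι : Type u} [Fintype ι] {B : ι → Finset V}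
variable {Q U C : Finset V} {T : Finset ι} {F : Finset (Finset V)} {i j : ι}

namespace Frm

/-- a leaf contains no full block. -/
theorem nt3 (h : Frm B Q T U F) (hC : C ∈ F) : nt B C 3 = 0 := by
  apply nt3_zero
  intro k
  rcases (B k ∩ C).eq_empty_or_nonempty with he | ⟨v, hv⟩
  · rw [he]
    simp
  · exact (card_le_card (inter_subset_inter_left (h.FD hC))).trans
      (h.two_leaf hC (mem_inter.1 hv).1 (mem_inter.1 hv).2)

/-- a leaf is connected. -/
theorem conn_leaf (h : Frm B Q T U F) (hC : C ∈ F) : Conn (gr B) C :=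
  ⟨(h.ge.sys.fc C hC).1, fun _ hZ hne => (h.ge.sys.fc C hC).conn hZ hne⟩

/-- a leaf is critical. -/
theorem critL (h : Frm B Q T U F) (hC : C ∈ F) : Crit B C := fun v hv =>
  le_antisymm (rho_erase_fc (h.ge.sys.fc C hC) (h.sv_leaf hC) hv)
    (rho_le_erase (x := v) (h.cov.mono (h.FQ hC)))

/-- a leaf is disjoint from the triples. -/
theorem disT (h : Frm B Q T U F) (hC : C ∈ F) (hi : i ∈ T) : Disjoint C (B i ∩ Q) := by
  rw [disjoint_left]
  intro v hv hv'
  exact (mem_sdiff.1 (h.FD hC hv)).2 (mem_biUnion.2 ⟨i, hi, (mem_inter.1 hv').1⟩)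

/-- **A2**, from the impossibility of the instances. -/
theorem two_triples_of (hnoG : NoG.{u} V ι) (hnoU : NoU.{u} V ι) (h : Frm B Q T U F)
    (hv : ViolR B Q) (hi : i ∈ T) (hj : j ∈ T) (hij : i ≠ j) (hC : C ∈ F) (hn1 : nt B C 1 ≤ 6) :
    2 ≤ (hit B (Q \ (C ∪ ((B i ∩ Q) ∪ (B j ∩ Q)))) C : ℤ) + fs B Q C := by
  have fi := h.mtp.tpk.pack.card i hi
  have fj := h.mtp.tpk.pack.card j hj
  exact hv.two_full_of hnoG hnoU fi fj (h.mtp.tpk.pack.disj i hi j hj hij) (hv.lemA' fi).1
    (hv.lemA' fi).2.1 (hv.lemA' fj).1 (hv.lemA' fj).2.1 (h.FQ hC) (h.conn_leaf hC) (h.critL hC)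
    (h.sv_leaf hC) (h.nt3 hC) (h.disT hC hi) (h.disT hC hj) hn1

end Frm

end Pool.Agent.Hyp6
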