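import Pool.Agent.Hyp6.L3G6
import Pool.Agent.Hyp6.L3G4

/-!
# HYP6 L3G7: few hits from outside two triples, from the impossibility of the instances

For a leaf `C` of the frame and two triples, `w` the number of hits on `C` from all other points, `H`
the number of hits from the two triples: `dv B Q C = -1` and `w ≤ 1` give `H ≤ 2`; `dv B Q C = 1` and
`w ≤ 1` give `H ≤ 8`, with `w = 0` even `H ≤ 7`; `3 ≤ dv B Q C` gives `2 ≤ w`.
-/

set_option autoImplicit false

namespace Pool.Agent.Hyp6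

open Finset Pool.Agent.Hyp5

universe u v

variable {V : Type v} [DecidableEq V] {ι : Type u} [Fintype ι] {B : ι → Finset V}
variable {Q U C L : Finset V} {T : Finset ι} {F : Finset (Finset V)} {i j : ι} {k s H : ℕ}

/-- the number of hits on a set with value `-1` without full blocks. -/
theorem hit_neg_le (hr : Reg B Q) (h3 : Tr3 B Q) (hLQ : L ⊆ Q) (hs : sv B L = -1)
    (hn3 : nt B L 3 = 0) : 6 * (hit B (Q \ L) L : ℤ) ≤ 5 * dv B Q L + 60 := by
  have h1 := hit_add_fsQ (B := B) (hr.mono hLQ) hLQ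
  have h2 := four_ee_le_fs (B := B) (Q := Q) (W := L) h3
  have h4 := hc_neg (hr.mono hLQ) (h3.mono hLQ) hs hn3
  have h5 : (0 : ℤ) ≤ nt B L 1 := by positivity
  have h6 : (0 : ℤ) ≤ ee B Q L := by positivity
  unfold dv
  linarith

/-- the value of a set with value `-1` is odd. -/
theorem dv_odd (hs : sv B L = -1) : (dv B Q L + 1) % 2 = 0 := by
  rw [← wv_neg (Q := Q) hs]
  exact wv_even L

/-- the hits from outside, split. -/
theorem hit_split (hLQ : L ⊆ Q) {X : Finset V} (hX : X ⊆ Q) (hLX : Disjoint L X) :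
    hit B (Q \ L) L = hit B X L + hit B (Q \ (L ∪ X)) L := by
  rw [← hit_union_left]
  · congr 1
    ext v
    constructor
    · intro h1
      obtain ⟨h2, h3⟩ := mem_sdiff.1 h1
      by_cases h4 : v ∈ X
      · exact mem_union_left _ h4
      · refine mem_union_right _ (mem_sdiff.2 ⟨h2, fun h5 => ?_⟩)
        rcases mem_union.1 h5 with h6 | h6
        · exact h3 h6
        · exact h4 h6
    · intro h1
      rcases mem_union.1 h1 with h2 | h2
      · exact mem_sdiff.2 ⟨hX h2, fun h3 => disjoint_left.1 hLX h3 h2⟩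
      · obtain ⟨h3, h4⟩ := mem_sdiff.1 h2
        exact mem_sdiff.2 ⟨h3, fun h5 => h4 (mem_union_left _ h5)⟩
  · rw [disjoint_left]
    intro v hv hv'
    exact (mem_sdiff.1 hv').2 (mem_union_right _ hv)

/-- there is no instance with a large leaf value. -/
theorem noM_big (hk : 8 ≤ k) : NoM.{u} V ι k s H := by
  intro B Q x D t ht hk0
  exfalso
  have h1 : ∀ t ∈ instG, t.2.1.getD 0 0 ≤ 6 := by decide
  have h2 := h1 t ht
  omega

namespace Frm

/-- **few hits from outside two triples**, general bounds. -/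
theorem few_of (hnoM : NoM.{u} V ι k s H) (hnoU : NoU.{u} V ι) (h : Frm B Q T U F)
    (hv : ViolR B Q) (hi : i ∈ T) (hj : j ∈ T) (hij : i ≠ j) (hC : C ∈ F)
    (hdv : dv B Q C + 1 = k) (hsk : 6 * s ≤ 5 * k + 55)
    (hw : hit B (Q \ (C ∪ ((B i ∩ Q) ∪ (B j ∩ Q)))) C ≤ 1) (hslot : hit B (Q \ C) C ≤ s)
    (hH : H ≤ hit B ((B i ∩ Q) ∪ (B j ∩ Q)) C) : False := by
  have fi := h.mtp.tpk.pack.card i hi
  have fj := h.mtp.tpk.pack.card j hj
  exact hv.few_of hnoM hnoU fi fj (h.mtp.tpk.pack.disj i hi j hj hij) (hv.lemA' fi).1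
    (hv.lemA' fi).2.1 (hv.lemA' fj).1 (hv.lemA' fj).2.1 (h.FQ hC) (h.conn_leaf hC) (h.critL hC)
    (h.sv_leaf hC) (h.disT hC hi) (h.disT hC hj) hdv hsk hw hslot hH

/-- the number of hits on a leaf. -/
theorem hit_le_dv (h : Frm B Q T U F) (hv : ViolR B Q) (hC : C ∈ F) :
    6 * (hit B (Q \ C) C : ℤ) ≤ 5 * dv B Q C + 60 :=
  hit_neg_le hv.reg hv.tr (h.FQ hC) (h.sv_leaf hC) (h.nt3 hC)

/-- leaf value `0`: at most one hit from outside, then at most two hits from the two triples. -/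
theorem few_neg_of (hS : NoM.{u} V ι 0 9 3) (hnoU : NoU.{u} V ι) (h : Frm B Q T U F)
    (hv : ViolR B Q) (hi : i ∈ T) (hj : j ∈ T) (hij : i ≠ j) (hC : C ∈ F) (hdv : dv B Q C = -1)
    (hw : hit B (Q \ (C ∪ ((B i ∩ Q) ∪ (B j ∩ Q)))) C ≤ 1) :
    hit B ((B i ∩ Q) ∪ (B j ∩ Q)) C ≤ 2 := by
  by_contra hcon
  push Not at hcon
  have h1 := h.hit_le_dv hv hC
  exact h.few_of hS hnoU hv hi hj hij hC (by rw [hdv]; norm_num) (by norm_num) hw (by omega) hcon

/-- leaf value `2`: at most one hit from outside, then at most eight hits from the two triples. -/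
theorem few_one_of (hP : NoM.{u} V ι 2 10 9) (hnoU : NoU.{u} V ι) (h : Frm B Q T U F)
    (hv : ViolR B Q) (hi : i ∈ T) (hj : j ∈ T) (hij : i ≠ j) (hC : C ∈ F) (hdv : dv B Q C = 1)
    (hw : hit B (Q \ (C ∪ ((B i ∩ Q) ∪ (B j ∩ Q)))) C ≤ 1) :
    hit B ((B i ∩ Q) ∪ (B j ∩ Q)) C ≤ 8 := by
  by_contra hcon
  push Not at hcon
  have h1 := h.hit_le_dv hv hC
  exact h.few_of hP hnoU hv hi hj hij hC (by rw [hdv]; norm_num) (by norm_num) hw (by omega) hcon

/-- leaf value `2`: no hit from outside, then at most seven hits from the two triples. -/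
theorem few_zero_of (hP : NoM.{u} V ι 2 10 9) (hP' : NoM.{u} V ι 2 8 8) (hnoU : NoU.{u} V ι)
    (h : Frm B Q T U F) (hv : ViolR B Q) (hi : i ∈ T) (hj : j ∈ T) (hij : i ≠ j) (hC : C ∈ F)
    (hdv : dv B Q C = 1) (hw : hit B (Q \ (C ∪ ((B i ∩ Q) ∪ (B j ∩ Q)))) C = 0) :
    hit B ((B i ∩ Q) ∪ (B j ∩ Q)) C ≤ 7 := by
  by_contra hcon
  push Not at hcon
  have h1 := h.few_one_of hP hnoU hv hi hj hij hC hdv (by omega)
  have h2 := hit_split (B := B) (h.FQ hC) (X := (B i ∩ Q) ∪ (B j ∩ Q))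
    (union_subset inter_subset_right inter_subset_right)
    (disjoint_union_right.2 ⟨h.disT hC hi, h.disT hC hj⟩)
  exact h.few_of hP' hnoU hv hi hj hij hC (by rw [hdv]; norm_num) (by norm_num) (by omega)
    (by omega) hcon

/-- leaf value at least `4`: at least two hits from outside. -/
theorem few_big_of (h4 : NoM.{u} V ι 4 12 0) (h6 : NoM.{u} V ι 6 14 0) (hnoU : NoU.{u} V ι)
    (h : Frm B Q T U F) (hv : ViolR B Q) (hi : i ∈ T) (hj : j ∈ T) (hij : i ≠ j) (hC : C ∈ F)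
    (hdv : 3 ≤ dv B Q C) : 2 ≤ hit B (Q \ (C ∪ ((B i ∩ Q) ∪ (B j ∩ Q)))) C := by
  by_contra hcon
  push Not at hcon
  have h1 := h.hit_le_dv hv hC
  have h2 := dv_odd (Q := Q) (h.sv_leaf hC)
  obtain ⟨k, hk⟩ : ∃ k : ℕ, dv B Q C + 1 = k := ⟨(dv B Q C + 1).toNat, by omega⟩
  rcases (by omega : k = 4 ∨ k = 6 ∨ 8 ≤ k) with rfl | rfl | h8
  · exact h.few_of h4 hnoU hv hi hj hij hC hk (by norm_num) (by omega) (by omega) (Nat.zero_le _)
  · exact h.few_of h6 hnoU hv hi hj hij hC hk (by norm_num) (by omega) (by omega) (Nat.zero_le _)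
  · exact h.few_of (s := (5 * k + 55) / 6) (H := 0) (noM_big h8) hnoU hv hi hj hij hC hk (by omega)
      (by omega) (by omega) (Nat.zero_le _)

end Frm

end Pool.Agent.Hyp6
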