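import Pool.Agent.Hyp6.L3G3
import Pool.Agent.Hyp6.L3G7
import Pool.Agent.Hyp6.InsG.S00
import Pool.Agent.Hyp6.InsG.S04
import Pool.Agent.Hyp6.InsG.S06
import Pool.Agent.Hyp6.InsG.S08
import Pool.Agent.Hyp6.InsG.S10
import Pool.Agent.Hyp6.InsG.S12
import Pool.Agent.Hyp6.InsG.S14
import Pool.Agent.Hyp6.InsG.S16
import Pool.Agent.Hyp6.InsG.S18
import Pool.Agent.Hyp6.InsG.S20
import Pool.Agent.Hyp6.InsG.S22
import Pool.Agent.Hyp6.InsG.S23
import Pool.Agent.Hyp6.InsG.S24
import Pool.Agent.Hyp6.InsG.S25
import Pool.Agent.Hyp6.InsH.H00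
import Pool.Agent.Hyp6.InsH.H01
import Pool.Agent.Hyp6.InsH.H02
import Pool.Agent.Hyp6.InsH.H03
import Pool.Agent.Hyp6.InsH.H04
import Pool.Agent.Hyp6.InsH.H05
import Pool.Agent.Hyp6.InsH.H06
import Pool.Agent.Hyp6.InsH.H07
import Pool.Agent.Hyp6.InsH.H08
import Pool.Agent.Hyp6.InsH.H09
import Pool.Agent.Hyp6.InsH.H10
import Pool.Agent.Hyp6.InsH.H11
import Pool.Agent.Hyp6.InsH.H12

/-!
# HYP6 L3G8: few hits from outside two triples (A2, strong form)

For a leaf `C` of the frame and two triples, `w` the number of hits on `C` from all other points, `H`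
the number of hits from the two triples: `Frm.few_neg`: `dv B Q C = -1` and `w ≤ 1` give `H ≤ 2`;
`Frm.few_one`: `dv B Q C = 1` and `w ≤ 1` give `H ≤ 8`; `Frm.few_zero`: `dv B Q C = 1` and `w = 0` give
`H ≤ 7`; `Frm.few_big`: `3 ≤ dv B Q C` gives `2 ≤ w`.
-/

set_option autoImplicit false

namespace Pool.Agent.Hyp6

open Finset Pool.Agent.Hyp5

universe u v

variable {V : Type v} [DecidableEq V] {ι : Type u} [Fintype ι] {B : ι → Finset V}
variable {Q U C : Finset V} {T : Finset ι} {F : Finset (Finset V)} {i j : ι}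

/-- leaf value `0`. -/
theorem noM_S : NoM.{u} V ι 0 9 3 := by
  intro B Q x D t ht h0 h
  unfold instG at ht
  simp only [List.mem_cons, List.not_mem_nil, or_false] at ht
  rcases ht with rfl | rfl | rfl | rfl | rfl | rfl | rfl | rfl | rfl | rfl | rfl | rfl | rfl | rfl |
    rfl | rfl | rfl | rfl | rfl | rfl | rfl | rfl | rfl | rfl | rfl | rfl | rfl
  · exact nol3_00 h
  · exact absurd h0 (by decide)
  · exact absurd h0 (by decide)
  · exact absurd h0 (by decide)
  · exact nol3_04 h
  · exact absurd h0 (by decide)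
  · exact nol3_06 h
  · exact absurd h0 (by decide)
  · exact nol3_08 h
  · exact absurd h0 (by decide)
  · exact nol3_10 h
  · exact absurd h0 (by decide)
  · exact nol3_12 h
  · exact absurd h0 (by decide)
  · exact nol3_14 h
  · exact absurd h0 (by decide)
  · exact nol3_16 h
  · exact absurd h0 (by decide)
  · exact nol3_18 h
  · exact absurd h0 (by decide)
  · exact nol3_20 h
  · exact absurd h0 (by decide)
  · exact nol3_22 h
  · exact nol3_23 h
  · exact nol3_24 h
  · exact nol3_25 h
  · exact absurd h0 (by decide)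

/-- leaf value `2`, eight hits. -/
theorem noM_P : NoM.{u} V ι 2 8 8 := by
  intro B Q x D t ht h0 h
  unfold instG at ht
  simp only [List.mem_cons, List.not_mem_nil, or_false] at ht
  rcases ht with rfl | rfl | rfl | rfl | rfl | rfl | rfl | rfl | rfl | rfl | rfl | rfl | rfl | rfl |
    rfl | rfl | rfl | rfl | rfl | rfl | rfl | rfl | rfl | rfl | rfl | rfl | rfl
  · exact absurd h0 (by decide)
  · exact nolh_02 h
  · exact absurd h0 (by decide)
  · exact absurd h0 (by decide)
  · exact absurd h0 (by decide)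
  · exact nolh_03 h
  · exact absurd h0 (by decide)
  · exact nolh_04 h
  · exact absurd h0 (by decide)
  · exact nolh_05 h
  · exact absurd h0 (by decide)
  · exact nolh_06 h
  · exact absurd h0 (by decide)
  · exact nolh_07 h
  · exact absurd h0 (by decide)
  · exact nolh_08 h
  · exact absurd h0 (by decide)
  · exact nolh_09 h
  · exact absurd h0 (by decide)
  · exact nolh_10 h
  · exact absurd h0 (by decide)
  · exact nolh_11 h
  · exact absurd h0 (by decide)
  · exact absurd h0 (by decide)
  · exact absurd h0 (by decide)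
  · exact absurd h0 (by decide)
  · exact nolh_12 h

/-- leaf value `4`. -/
theorem noM_T4 : NoM.{u} V ι 4 12 0 := by
  intro B Q x D t ht h0 h
  unfold instG at ht
  simp only [List.mem_cons, List.not_mem_nil, or_false] at ht
  rcases ht with rfl | rfl | rfl | rfl | rfl | rfl | rfl | rfl | rfl | rfl | rfl | rfl | rfl | rfl |
    rfl | rfl | rfl | rfl | rfl | rfl | rfl | rfl | rfl | rfl | rfl | rfl | rfl
  · exact absurd h0 (by decide)
  · exact absurd h0 (by decide)
  · exact nolh_00 h
  · exact absurd h0 (by decide)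
  · exact absurd h0 (by decide)
  · exact absurd h0 (by decide)
  · exact absurd h0 (by decide)
  · exact absurd h0 (by decide)
  · exact absurd h0 (by decide)
  · exact absurd h0 (by decide)
  · exact absurd h0 (by decide)
  · exact absurd h0 (by decide)
  · exact absurd h0 (by decide)
  · exact absurd h0 (by decide)
  · exact absurd h0 (by decide)
  · exact absurd h0 (by decide)
  · exact absurd h0 (by decide)
  · exact absurd h0 (by decide)
  · exact absurd h0 (by decide)
  · exact absurd h0 (by decide)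
  · exact absurd h0 (by decide)
  · exact absurd h0 (by decide)
  · exact absurd h0 (by decide)
  · exact absurd h0 (by decide)
  · exact absurd h0 (by decide)
  · exact absurd h0 (by decide)
  · exact absurd h0 (by decide)

/-- leaf value `6`. -/
theorem noM_T6 : NoM.{u} V ι 6 14 0 := by
  intro B Q x D t ht h0 h
  unfold instG at ht
  simp only [List.mem_cons, List.not_mem_nil, or_false] at ht
  rcases ht with rfl | rfl | rfl | rfl | rfl | rfl | rfl | rfl | rfl | rfl | rfl | rfl | rfl | rfl |
    rfl | rfl | rfl | rfl | rfl | rfl | rfl | rfl | rfl | rfl | rfl | rfl | rfl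
  · exact absurd h0 (by decide)
  · exact absurd h0 (by decide)
  · exact absurd h0 (by decide)
  · exact nolh_01 h
  · exact absurd h0 (by decide)
  · exact absurd h0 (by decide)
  · exact absurd h0 (by decide)
  · exact absurd h0 (by decide)
  · exact absurd h0 (by decide)
  · exact absurd h0 (by decide)
  · exact absurd h0 (by decide)
  · exact absurd h0 (by decide)
  · exact absurd h0 (by decide)
  · exact absurd h0 (by decide)
  · exact absurd h0 (by decide)
  · exact absurd h0 (by decide)
  · exact absurd h0 (by decide)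
  · exact absurd h0 (by decide)
  · exact absurd h0 (by decide)
  · exact absurd h0 (by decide)
  · exact absurd h0 (by decide)
  · exact absurd h0 (by decide)
  · exact absurd h0 (by decide)
  · exact absurd h0 (by decide)
  · exact absurd h0 (by decide)
  · exact absurd h0 (by decide)
  · exact absurd h0 (by decide)

/-- leaf value `2`, nine hits. -/
theorem noM_Q : NoM.{u} V ι 2 10 9 := by
  intro B Q x D t ht h0 h
  have h1 := noG (ι := ι) B Q x D t ht
  rw [h0] at h1
  exact h1 h

namespace Frm

/-- leaf value `0`: at most one hit from outside, then at most two hits from the two triples. -/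
theorem few_neg (h : Frm B Q T U F) (hv : ViolR B Q) (hi : i ∈ T) (hj : j ∈ T) (hij : i ≠ j)
    (hC : C ∈ F) (hdv : dv B Q C = -1)
    (hw : hit B (Q \ (C ∪ ((B i ∩ Q) ∪ (B j ∩ Q)))) C ≤ 1) :
    hit B ((B i ∩ Q) ∪ (B j ∩ Q)) C ≤ 2 :=
  h.few_neg_of noM_S noU hv hi hj hij hC hdv hw

/-- leaf value `2`: at most one hit from outside, then at most eight hits from the two triples. -/
theorem few_one (h : Frm B Q T U F) (hv : ViolR B Q) (hi : i ∈ T) (hj : j ∈ T) (hij : i ≠ j)
    (hC : C ∈ F) (hdv : dv B Q C = 1)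
    (hw : hit B (Q \ (C ∪ ((B i ∩ Q) ∪ (B j ∩ Q)))) C ≤ 1) :
    hit B ((B i ∩ Q) ∪ (B j ∩ Q)) C ≤ 8 :=
  h.few_one_of noM_Q noU hv hi hj hij hC hdv hw

/-- leaf value `2`: no hit from outside, then at most seven hits from the two triples. -/
theorem few_zero (h : Frm B Q T U F) (hv : ViolR B Q) (hi : i ∈ T) (hj : j ∈ T) (hij : i ≠ j)
    (hC : C ∈ F) (hdv : dv B Q C = 1)
    (hw : hit B (Q \ (C ∪ ((B i ∩ Q) ∪ (B j ∩ Q)))) C = 0) :
    hit B ((B i ∩ Q) ∪ (B j ∩ Q)) C ≤ 7 :=
  h.few_zero_of noM_Q noM_P noU hv hi hj hij hC hdv hw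

/-- leaf value at least `4`: at least two hits from outside. -/
theorem few_big (h : Frm B Q T U F) (hv : ViolR B Q) (hi : i ∈ T) (hj : j ∈ T) (hij : i ≠ j)
    (hC : C ∈ F) (hdv : 3 ≤ dv B Q C) : 2 ≤ hit B (Q \ (C ∪ ((B i ∩ Q) ∪ (B j ∩ Q)))) C :=
  h.few_big_of noM_T4 noM_T6 noU hv hi hj hij hC hdv

end Frm

end Pool.Agent.Hyp6
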