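import Pool.Agent.Hyp6.Gdv3
import Pool.Agent.Hyp6.L3G8

/-!
# HYP6 GDA0: the list of the hit vectors of a leaf of type (3;1)

`need31`: the vectors excluded by the tables; `exc31`: the exceptional vectors. `chk31`: all other
vectors with at least four hits of the triple are excluded by `S0` and A2.
-/

set_option autoImplicit false
set_option maxRecDepth 100000

namespace Pool.Agent.Hyp6

open Finset Pool.Agent.Hyp5 Gdx Rup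

universe u v

/-- the vectors which are excluded by the tables. -/
def need31 : List (List ℕ × List ℕ) :=
  [([2, 1, 1], [1, 1, 1]), ([2, 1, 1], [1, 1, 1, 1]), ([2, 1, 1], [2, 1]), ([2, 1, 1], [2, 1, 1]),
   ([2, 1, 1], [2, 1, 1, 1]), ([2, 1, 1], [2, 2]), ([2, 1, 1], [2, 2, 1]), ([2, 1, 1], [3]),
   ([2, 1, 1], [3, 1]), ([2, 1, 1], [3, 1, 1]), ([2, 1, 1], [3, 2]), ([2, 1, 1], [4]),
   ([2, 1, 1], [4, 1]), ([2, 1, 1], [5]), ([2, 2, 0], [1, 1]), ([2, 2, 0], [1, 1, 1]),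
   ([2, 2, 0], [1, 1, 1, 1]), ([2, 2, 0], [2]), ([2, 2, 0], [2, 1]), ([2, 2, 0], [2, 1, 1]),
   ([2, 2, 0], [2, 1, 1, 1]), ([2, 2, 0], [2, 2]), ([2, 2, 0], [2, 2, 1]), ([2, 2, 0], [3]),
   ([2, 2, 0], [3, 2]), ([2, 2, 0], [4]), ([2, 2, 0], [4, 1]), ([2, 2, 0], [5]),
   ([2, 2, 1], [1, 1]), ([2, 2, 1], [1, 1, 1]), ([2, 2, 1], [1, 1, 1, 1]), ([2, 2, 1], [2]),
   ([2, 2, 1], [2, 1]), ([2, 2, 1], [2, 1, 1]), ([2, 2, 1], [2, 2]), ([2, 2, 1], [3]),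
   ([2, 2, 1], [4]), ([2, 2, 2], [1, 1]), ([2, 2, 2], [1, 1, 1]), ([2, 2, 2], [2]),
   ([2, 2, 2], [2, 1]), ([2, 2, 2], [3]), ([3, 1, 0], [2, 1]), ([3, 1, 0], [2, 1, 1]),
   ([3, 1, 0], [2, 1, 1, 1]), ([3, 1, 0], [2, 2]), ([3, 1, 0], [2, 2, 1]), ([3, 1, 0], [3]),
   ([3, 1, 0], [3, 1]), ([3, 1, 0], [3, 1, 1]), ([3, 1, 0], [3, 2]), ([3, 1, 0], [4]),
   ([3, 1, 0], [4, 1]), ([3, 1, 0], [5]), ([3, 1, 1], [1, 1, 1, 1]), ([3, 1, 1], [2, 1]),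
   ([3, 1, 1], [2, 1, 1]), ([3, 1, 1], [2, 2]), ([3, 1, 1], [3]), ([3, 1, 1], [3, 1]),
   ([3, 1, 1], [4]), ([3, 2, 0], [1, 1]), ([3, 2, 0], [1, 1, 1]), ([3, 2, 0], [1, 1, 1, 1]),
   ([3, 2, 0], [2]), ([3, 2, 0], [2, 1]), ([3, 2, 0], [2, 1, 1]), ([3, 2, 0], [2, 2]),
   ([3, 2, 0], [3]), ([3, 2, 0], [3, 1]), ([3, 2, 0], [4]), ([3, 2, 1], [1, 1]),
   ([3, 2, 1], [1, 1, 1]), ([3, 2, 1], [2]), ([3, 2, 1], [2, 1]), ([3, 2, 1], [3]),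
   ([3, 2, 2], [1, 1]), ([3, 2, 2], [2]), ([3, 3, 0], [1, 1]), ([3, 3, 0], [1, 1, 1]),
   ([3, 3, 0], [2]), ([3, 3, 0], [2, 1]), ([3, 3, 0], [3]), ([3, 3, 1], [1, 1]),
   ([3, 3, 1], [2]), ([4, 0, 0], [1, 1, 1, 1]), ([4, 0, 0], [2, 1]), ([4, 0, 0], [2, 1, 1]),
   ([4, 0, 0], [2, 1, 1, 1]), ([4, 0, 0], [2, 2]), ([4, 0, 0], [2, 2, 1]), ([4, 0, 0], [3]),
   ([4, 0, 0], [3, 1]), ([4, 0, 0], [3, 1, 1]), ([4, 0, 0], [3, 2]), ([4, 0, 0], [4]),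
   ([4, 0, 0], [4, 1]), ([4, 0, 0], [5]), ([4, 1, 0], [1, 1, 1]), ([4, 1, 0], [1, 1, 1, 1]),
   ([4, 1, 0], [2, 1]), ([4, 1, 0], [2, 1, 1]), ([4, 1, 0], [2, 2]), ([4, 1, 0], [3]),
   ([4, 1, 0], [3, 1]), ([4, 1, 0], [4]), ([4, 1, 1], [1, 1, 1]), ([4, 1, 1], [2, 1]),
   ([4, 1, 1], [3]), ([4, 2, 0], [1, 1]), ([4, 2, 0], [1, 1, 1]), ([4, 2, 0], [2]),
   ([4, 2, 0], [2, 1]), ([4, 2, 0], [3]), ([4, 2, 1], [1, 1]), ([4, 2, 1], [2]),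
   ([4, 3, 0], [1, 1]), ([4, 3, 0], [2])]

/-- the exceptional vectors. -/
def exc31 : List (List ℕ × List ℕ) :=
  [([3, 1, 1], [1, 1, 1]), ([2, 2, 1], [3, 1]), ([3, 1, 0], [1, 1, 1]), ([4, 0, 0], [1, 1, 1]),
   ([2, 2, 0], [3, 1]), ([3, 1, 0], [1, 1, 1, 1]), ([2, 2, 0], [3, 1, 1]), ([4, 0, 0], [1, 1, 1, 1, 1]),
   ([3, 1, 0], [1, 1, 1, 1, 1]), ([2, 2, 0], [1, 1, 1, 1, 1]), ([2, 1, 1], [1, 1, 1, 1, 1])]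

theorem chk31 : chkL 4 9 9 need31 exc31 = true := by decide +kernel

end Pool.Agent.Hyp6
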