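import Pool.Agent.Hyp6.Gda0
import Pool.Agent.Hyp6.InsX.A00
import Pool.Agent.Hyp6.InsX.A01
import Pool.Agent.Hyp6.InsX.A02
import Pool.Agent.Hyp6.InsX.A03
import Pool.Agent.Hyp6.InsX.A04
import Pool.Agent.Hyp6.InsX.A05
import Pool.Agent.Hyp6.InsX.A06
import Pool.Agent.Hyp6.InsX.A07

/-!
# HYP6 GDA1: the tables exclude the vectors of `need31`
-/

set_option autoImplicit false
set_option maxRecDepth 100000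

namespace Pool.Agent.Hyp6

universe u v

theorem no31 (V : Type v) [DecidableEq V] (ι : Type u) [Fintype ι] [DecidableEq ι] :
    ∀ p ∈ need31, NoX V ι 3 2 9 9 [3, 3, 3, 5, 5, 6, 6, 4] p :=
  List.forall_mem_cons.2 ⟨Gdx.G31_211_u111.no V ι,
  List.forall_mem_cons.2 ⟨Gdx.G31_211_u1111.no V ι,
  List.forall_mem_cons.2 ⟨Gdx.G31_211_u21.no V ι,
  List.forall_mem_cons.2 ⟨Gdx.G31_211_u211.no V ι,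
  List.forall_mem_cons.2 ⟨Gdx.G31_211_u2111.no V ι,
  List.forall_mem_cons.2 ⟨Gdx.G31_211_u22.no V ι,
  List.forall_mem_cons.2 ⟨Gdx.G31_211_u221.no V ι,
  List.forall_mem_cons.2 ⟨Gdx.G31_211_u3.no V ι,
  List.forall_mem_cons.2 ⟨Gdx.G31_211_u31.no V ι,
  List.forall_mem_cons.2 ⟨Gdx.G31_211_u311.no V ι,
  List.forall_mem_cons.2 ⟨Gdx.G31_211_u32.no V ι,
  List.forall_mem_cons.2 ⟨Gdx.G31_211_u4.no V ι,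
  List.forall_mem_cons.2 ⟨Gdx.G31_211_u41.no V ι,
  List.forall_mem_cons.2 ⟨Gdx.G31_211_u5.no V ι,
  List.forall_mem_cons.2 ⟨Gdx.G31_220_u11.no V ι,
  List.forall_mem_cons.2 ⟨Gdx.G31_220_u111.no V ι,
  List.forall_mem_cons.2 ⟨Gdx.G31_220_u1111.no V ι,
  List.forall_mem_cons.2 ⟨Gdx.G31_220_u2.no V ι,
  List.forall_mem_cons.2 ⟨Gdx.G31_220_u21.no V ι,
  List.forall_mem_cons.2 ⟨Gdx.G31_220_u211.no V ι,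
  List.forall_mem_cons.2 ⟨Gdx.G31_220_u2111.no V ι,
  List.forall_mem_cons.2 ⟨Gdx.G31_220_u22.no V ι,
  List.forall_mem_cons.2 ⟨Gdx.G31_220_u221.no V ι,
  List.forall_mem_cons.2 ⟨Gdx.G31_220_u3.no V ι,
  List.forall_mem_cons.2 ⟨Gdx.G31_220_u32.no V ι,
  List.forall_mem_cons.2 ⟨Gdx.G31_220_u4.no V ι,
  List.forall_mem_cons.2 ⟨Gdx.G31_220_u41.no V ι,
  List.forall_mem_cons.2 ⟨Gdx.G31_220_u5.no V ι,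
  List.forall_mem_cons.2 ⟨Gdx.G31_221_u11.no V ι,
  List.forall_mem_cons.2 ⟨Gdx.G31_221_u111.no V ι,
  List.forall_mem_cons.2 ⟨Gdx.G31_221_u1111.no V ι,
  List.forall_mem_cons.2 ⟨Gdx.G31_221_u2.no V ι,
  List.forall_mem_cons.2 ⟨Gdx.G31_221_u21.no V ι,
  List.forall_mem_cons.2 ⟨Gdx.G31_221_u211.no V ι,
  List.forall_mem_cons.2 ⟨Gdx.G31_221_u22.no V ι,
  List.forall_mem_cons.2 ⟨Gdx.G31_221_u3.no V ι,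
  List.forall_mem_cons.2 ⟨Gdx.G31_221_u4.no V ι,
  List.forall_mem_cons.2 ⟨Gdx.G31_222_u11.no V ι,
  List.forall_mem_cons.2 ⟨Gdx.G31_222_u111.no V ι,
  List.forall_mem_cons.2 ⟨Gdx.G31_222_u2.no V ι,
  List.forall_mem_cons.2 ⟨Gdx.G31_222_u21.no V ι,
  List.forall_mem_cons.2 ⟨Gdx.G31_222_u3.no V ι,
  List.forall_mem_cons.2 ⟨Gdx.G31_310_u21.no V ι,
  List.forall_mem_cons.2 ⟨Gdx.G31_310_u211.no V ι,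
  List.forall_mem_cons.2 ⟨Gdx.G31_310_u2111.no V ι,
  List.forall_mem_cons.2 ⟨Gdx.G31_310_u22.no V ι,
  List.forall_mem_cons.2 ⟨Gdx.G31_310_u221.no V ι,
  List.forall_mem_cons.2 ⟨Gdx.G31_310_u3.no V ι,
  List.forall_mem_cons.2 ⟨Gdx.G31_310_u31.no V ι,
  List.forall_mem_cons.2 ⟨Gdx.G31_310_u311.no V ι,
  List.forall_mem_cons.2 ⟨Gdx.G31_310_u32.no V ι,
  List.forall_mem_cons.2 ⟨Gdx.G31_310_u4.no V ι,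
  List.forall_mem_cons.2 ⟨Gdx.G31_310_u41.no V ι,
  List.forall_mem_cons.2 ⟨Gdx.G31_310_u5.no V ι,
  List.forall_mem_cons.2 ⟨Gdx.G31_311_u1111.no V ι,
  List.forall_mem_cons.2 ⟨Gdx.G31_311_u21.no V ι,
  List.forall_mem_cons.2 ⟨Gdx.G31_311_u211.no V ι,
  List.forall_mem_cons.2 ⟨Gdx.G31_311_u22.no V ι,
  List.forall_mem_cons.2 ⟨Gdx.G31_311_u3.no V ι,
  List.forall_mem_cons.2 ⟨Gdx.G31_311_u31.no V ι,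
  List.forall_mem_cons.2 ⟨Gdx.G31_311_u4.no V ι,
  List.forall_mem_cons.2 ⟨Gdx.G31_320_u11.no V ι,
  List.forall_mem_cons.2 ⟨Gdx.G31_320_u111.no V ι,
  List.forall_mem_cons.2 ⟨Gdx.G31_320_u1111.no V ι,
  List.forall_mem_cons.2 ⟨Gdx.G31_320_u2.no V ι,
  List.forall_mem_cons.2 ⟨Gdx.G31_320_u21.no V ι,
  List.forall_mem_cons.2 ⟨Gdx.G31_320_u211.no V ι,
  List.forall_mem_cons.2 ⟨Gdx.G31_320_u22.no V ι,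
  List.forall_mem_cons.2 ⟨Gdx.G31_320_u3.no V ι,
  List.forall_mem_cons.2 ⟨Gdx.G31_320_u31.no V ι,
  List.forall_mem_cons.2 ⟨Gdx.G31_320_u4.no V ι,
  List.forall_mem_cons.2 ⟨Gdx.G31_321_u11.no V ι,
  List.forall_mem_cons.2 ⟨Gdx.G31_321_u111.no V ι,
  List.forall_mem_cons.2 ⟨Gdx.G31_321_u2.no V ι,
  List.forall_mem_cons.2 ⟨Gdx.G31_321_u21.no V ι,
  List.forall_mem_cons.2 ⟨Gdx.G31_321_u3.no V ι,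
  List.forall_mem_cons.2 ⟨Gdx.G31_322_u11.no V ι,
  List.forall_mem_cons.2 ⟨Gdx.G31_322_u2.no V ι,
  List.forall_mem_cons.2 ⟨Gdx.G31_330_u11.no V ι,
  List.forall_mem_cons.2 ⟨Gdx.G31_330_u111.no V ι,
  List.forall_mem_cons.2 ⟨Gdx.G31_330_u2.no V ι,
  List.forall_mem_cons.2 ⟨Gdx.G31_330_u21.no V ι,
  List.forall_mem_cons.2 ⟨Gdx.G31_330_u3.no V ι,
  List.forall_mem_cons.2 ⟨Gdx.G31_331_u11.no V ι,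
  List.forall_mem_cons.2 ⟨Gdx.G31_331_u2.no V ι,
  List.forall_mem_cons.2 ⟨Gdx.G31_400_u1111.no V ι,
  List.forall_mem_cons.2 ⟨Gdx.G31_400_u21.no V ι,
  List.forall_mem_cons.2 ⟨Gdx.G31_400_u211.no V ι,
  List.forall_mem_cons.2 ⟨Gdx.G31_400_u2111.no V ι,
  List.forall_mem_cons.2 ⟨Gdx.G31_400_u22.no V ι,
  List.forall_mem_cons.2 ⟨Gdx.G31_400_u221.no V ι,
  List.forall_mem_cons.2 ⟨Gdx.G31_400_u3.no V ι,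
  List.forall_mem_cons.2 ⟨Gdx.G31_400_u31.no V ι,
  List.forall_mem_cons.2 ⟨Gdx.G31_400_u311.no V ι,
  List.forall_mem_cons.2 ⟨Gdx.G31_400_u32.no V ι,
  List.forall_mem_cons.2 ⟨Gdx.G31_400_u4.no V ι,
  List.forall_mem_cons.2 ⟨Gdx.G31_400_u41.no V ι,
  List.forall_mem_cons.2 ⟨Gdx.G31_400_u5.no V ι,
  List.forall_mem_cons.2 ⟨Gdx.G31_410_u111.no V ι,
  List.forall_mem_cons.2 ⟨Gdx.G31_410_u1111.no V ι,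
  List.forall_mem_cons.2 ⟨Gdx.G31_410_u21.no V ι,
  List.forall_mem_cons.2 ⟨Gdx.G31_410_u211.no V ι,
  List.forall_mem_cons.2 ⟨Gdx.G31_410_u22.no V ι,
  List.forall_mem_cons.2 ⟨Gdx.G31_410_u3.no V ι,
  List.forall_mem_cons.2 ⟨Gdx.G31_410_u31.no V ι,
  List.forall_mem_cons.2 ⟨Gdx.G31_410_u4.no V ι,
  List.forall_mem_cons.2 ⟨Gdx.G31_411_u111.no V ι,
  List.forall_mem_cons.2 ⟨Gdx.G31_411_u21.no V ι,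
  List.forall_mem_cons.2 ⟨Gdx.G31_411_u3.no V ι,
  List.forall_mem_cons.2 ⟨Gdx.G31_420_u11.no V ι,
  List.forall_mem_cons.2 ⟨Gdx.G31_420_u111.no V ι,
  List.forall_mem_cons.2 ⟨Gdx.G31_420_u2.no V ι,
  List.forall_mem_cons.2 ⟨Gdx.G31_420_u21.no V ι,
  List.forall_mem_cons.2 ⟨Gdx.G31_420_u3.no V ι,
  List.forall_mem_cons.2 ⟨Gdx.G31_421_u11.no V ι,
  List.forall_mem_cons.2 ⟨Gdx.G31_421_u2.no V ι,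
  List.forall_mem_cons.2 ⟨Gdx.G31_430_u11.no V ι,
  List.forall_mem_cons.2 ⟨Gdx.G31_430_u2.no V ι,
  fun _ h => absurd h List.not_mem_nil⟩⟩⟩⟩⟩⟩⟩⟩⟩⟩⟩⟩⟩⟩⟩⟩⟩⟩⟩⟩⟩⟩⟩⟩⟩⟩⟩⟩⟩⟩⟩⟩⟩⟩⟩⟩⟩⟩⟩⟩⟩⟩⟩⟩⟩⟩⟩⟩⟩⟩⟩⟩⟩⟩⟩⟩⟩⟩⟩⟩⟩⟩⟩⟩⟩⟩⟩⟩⟩⟩⟩⟩⟩⟩⟩⟩⟩⟩⟩⟩⟩⟩⟩⟩⟩⟩⟩⟩⟩⟩⟩⟩⟩⟩⟩⟩⟩⟩⟩⟩⟩⟩⟩⟩⟩⟩⟩⟩⟩⟩⟩⟩⟩⟩⟩⟩⟩⟩

end Pool.Agent.Hyp6
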