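import Pool.Agent.Hyp6.Gda
import Pool.Agent.Hyp6.InsX.C02
import Pool.Agent.Hyp6.InsX.V01

/-!
# HYP6 GDA5: a triple with four hits at a leaf of type (3;1) and the other triples

A leaf of type (3;1) with value `-1`, at most two hits of `U`, and a triple `T'` with at least four hits
(then: exactly four, and five other points with one hit each, `Frm.gda4`).
`Frm.gda_le1`: for the hit vectors (4,0,0) and (3,1,0) every other triple has at most one hit.
`Frm.gda_220`: for (2,2,0) every other triple has at most two hits, and at most one has two.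
`Frm.gda_le2_of`: every other triple has at most two hits (from the impossibility of (2,1,1) with
(1,1,1)).
-/

set_option autoImplicit false
set_option maxRecDepth 100000

namespace Pool.Agent.Hyp6

open Finset Pool.Agent.Hyp5 Gdx Rup

universe u v

/-- the vector of a triple with single hits. -/
def v1 : ℕ → List ℕ
  | 0 => [0, 0, 0]
  | 1 => [1, 0, 0]
  | 2 => [1, 1, 0]
  | _ => [1, 1, 1]

theorem eq_v1 {l : List ℕ} (h3 : l.length = 3) (hd : l.Pairwise (fun a b => b ≤ a))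
    (h1 : ∀ x ∈ l, x ≤ 1) : l = v1 l.sum ∧ l.sum ≤ 3 := by
  obtain ⟨x, y, z, rfl⟩ := List.length_eq_three.1 h3
  rw [List.pairwise_cons, List.pairwise_cons] at hd
  have h4 := hd.1 y List.mem_cons_self
  have h5 := hd.2.1 z List.mem_cons_self
  have h6 := h1 x List.mem_cons_self
  have h7 : (x = 0 ∧ y = 0 ∧ z = 0) ∨ (x = 1 ∧ y = 0 ∧ z = 0) ∨ (x = 1 ∧ y = 1 ∧ z = 0) ∨
      (x = 1 ∧ y = 1 ∧ z = 1) := by omega
  rcases h7 with ⟨rfl, rfl, rfl⟩ | ⟨rfl, rfl, rfl⟩ | ⟨rfl, rfl, rfl⟩ | ⟨rfl, rfl, rfl⟩ <;>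
    exact ⟨rfl, by decide⟩

section

variable {V : Type v} [DecidableEq V] {ι : Type u} [Fintype ι] {B : ι → Finset V}

/-- the labels of several triples if the points outside the first have single hits. -/
theorem Lbl.one_of {Q Z : Finset V} {j : ι} {hT : List ℕ} {m : ℕ} {ct : ℕ → V}
    (hl : Lbl B Q Z j hT (List.replicate m 1) ct) {k : ℕ} {tb : ℕ → ι} {hs : List (List ℕ)}
    {hW' : List ℕ} {ct' : ℕ → V} (hn : LblN B Q Z (k + 1) tb (hT :: hs) hW' ct') :
    (∀ l ∈ hs, l = v1 l.sum ∧ l.sum ≤ 3) ∧ hW' = List.replicate (m - hs.flatten.sum) 1 ∧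
      hs.flatten.sum ≤ m := by
  have hp := hl.perm_of hn
  have hone : ∀ x, x ∈ hs.flatten.filter (fun x => decide (0 < x)) ++ hW' → x = 1 := fun x hx =>
    List.eq_of_mem_replicate (hp.mem_iff.1 hx)
  have h1 : ∀ l ∈ hs, ∀ x ∈ l, x ≤ 1 := by
    intro l hl' x hx
    rcases Nat.eq_zero_or_pos x with h0 | h0
    · omega
    · have := hone x (List.mem_append_left _ (List.mem_filter.2
        ⟨List.mem_flatten.2 ⟨l, hl', hx⟩, by simpa using h0⟩))
      omega
  have h2 : ∀ l : List ℕ, (l.filter (fun x => decide (0 < x))).sum = l.sum := by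
    intro l
    induction l with
    | nil => rfl
    | cons a t ih =>
      rw [List.filter_cons]
      split_ifs with h3
      · rw [List.sum_cons, List.sum_cons, ih]
      · have h4 : a = 0 := by
          have : ¬ (0 < a) := by simpa using h3
          omega
        rw [List.sum_cons, ih, h4, Nat.zero_add]
  have h3 := hp.sum_eq
  rw [List.sum_append, h2, List.sum_replicate, smul_eq_mul, mul_one] at h3
  have h4 : hW' = List.replicate hW'.length 1 :=
    List.eq_replicate_of_mem fun x hx => hone x (List.mem_append_right _ hx)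
  have h5 : hW'.sum = hW'.length := by
    conv_lhs => rw [h4]
    rw [List.sum_replicate, smul_eq_mul, mul_one]
  refine ⟨fun l hl' => eq_v1 (hn.len3 l (List.mem_cons_of_mem _ hl'))
    (hn.desT l (List.mem_cons_of_mem _ hl')) (h1 l hl'), ?_, by omega⟩
  rw [h4]
  congr 1
  omega

variable {Q U L : Finset V} {T : Finset ι} {F : Finset (Finset V)}

/-- the labels of several triples of the frame. -/
theorem Frm.exists_lblN (h : Frm B Q T U F) (hL : L ∈ F) {k : ℕ} (hk : 0 < k) {tb : ℕ → ι}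
    (hT : ∀ i < k, tb i ∈ T) (hinj : ∀ i < k, ∀ i' < k, tb i = tb i' → i = i') :
    ∃ hs hW ct, LblN B Q L k tb hs hW ct := by
  refine exists_labelsN hk (fun i hi => h.full (hT i hi)) ?_
    (fun i hi i' hi' hn => h.mtp.tpk.pack.disj _ (hT i hi) _ (hT i' hi')
      fun he => hn (hinj i hi i' hi' he))
  rintro i hi ⟨v, hv'⟩
  obtain ⟨h7, h8⟩ := mem_inter.1 hv'
  exact (h.T_out (hT i hi) (mem_inter.2 ⟨h7, h.FQ hL h8⟩)).2 L hL h8

/-- two triples as labels. -/
theorem Frm.five2 (h : Frm B Q T U F) (hL : L ∈ F) {j j' : ι} (hj : j ∈ T) (hj' : j' ∈ T)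
    (hne : j ≠ j') {hT : List ℕ} {m : ℕ} {ct : ℕ → V}
    (hl : Lbl B Q L j hT (List.replicate m 1) ct) : ∃ tb : ℕ → ι, ∃ ct' s, (∀ i < 2, tb i ∈ T) ∧
      (∀ i < 2, ∀ i' < 2, tb i = tb i' → i = i') ∧ tb 0 = j ∧ tb 1 = j' ∧
      s = hit B (B j' ∩ Q) L ∧ s ≤ 3 ∧ s ≤ m ∧
      LblN B Q L 2 tb [hT, v1 s] (List.replicate (m - s) 1) ct' := by
  classical
  set tb : ℕ → ι := fun i => if i = 0 then j else j' with htb
  have hT2 : ∀ i < 2, tb i ∈ T := by
    intro i hi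
    rw [htb]
    dsimp only
    split_ifs
    · exact hj
    · exact hj'
  have hinj : ∀ i < 2, ∀ i' < 2, tb i = tb i' → i = i' := by
    intro i hi i' hi' he
    rw [htb] at he
    dsimp only at he
    split_ifs at he with h5 h6 h6
    · omega
    · exact absurd he hne
    · exact absurd he.symm hne
    · omega
  obtain ⟨hs, hW', ct', hn⟩ := h.exists_lblN hL (by norm_num) hT2 hinj
  obtain ⟨a, b, rfl⟩ : ∃ a b, hs = [a, b] := List.length_eq_two.1 hn.len
  have ha : a = hT := hl.fst_of hn (i := 0) (by norm_num) rfl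
  subst ha
  obtain ⟨h1, h2, h3⟩ := hl.one_of hn
  have hsum : b.sum = hit B (B j' ∩ Q) L := hn.sumT 1 (by norm_num)
  obtain ⟨h4, h5⟩ := h1 b List.mem_cons_self
  have h6 : ([b] : List (List ℕ)).flatten.sum = b.sum := by simp
  rw [h6] at h2 h3
  refine ⟨tb, ct', b.sum, hT2, hinj, rfl, rfl, hsum, h5, h3, ?_⟩
  rw [← h4, ← h2]
  exact hn

/-- three triples as labels. -/
theorem Frm.five3 (h : Frm B Q T U F) (hL : L ∈ F) {j j' j2 : ι} (hj : j ∈ T) (hj' : j' ∈ T)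
    (hj2 : j2 ∈ T) (hne : j ≠ j') (hne2 : j ≠ j2) (hne3 : j' ≠ j2) {hT : List ℕ} {m : ℕ}
    {ct : ℕ → V}
    (hl : Lbl B Q L j hT (List.replicate m 1) ct) : ∃ tb : ℕ → ι, ∃ ct' s s', (∀ i < 3, tb i ∈ T) ∧
      (∀ i < 3, ∀ i' < 3, tb i = tb i' → i = i') ∧ tb 0 = j ∧ tb 1 = j' ∧ tb 2 = j2 ∧
      s = hit B (B j' ∩ Q) L ∧ s' = hit B (B j2 ∩ Q) L ∧ s ≤ 3 ∧ s' ≤ 3 ∧ s + s' ≤ m ∧
      LblN B Q L 3 tb [hT, v1 s, v1 s'] (List.replicate (m - (s + s')) 1) ct' := by
  classical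
  set tb : ℕ → ι := fun i => if i = 0 then j else if i = 1 then j' else j2 with htb
  have hT3 : ∀ i < 3, tb i ∈ T := by
    intro i hi
    rw [htb]
    dsimp only
    split_ifs
    · exact hj
    · exact hj'
    · exact hj2
  have hinj : ∀ i < 3, ∀ i' < 3, tb i = tb i' → i = i' := by
    intro i hi i' hi' he
    have h7 : i = 0 ∨ i = 1 ∨ i = 2 := by omega
    have h8 : i' = 0 ∨ i' = 1 ∨ i' = 2 := by omega
    rcases h7 with rfl | rfl | rfl <;> rcases h8 with rfl | rfl | rfl <;>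
      first
      | rfl
      | (exfalso
         simp only [htb, if_true, if_false, one_ne_zero, OfNat.ofNat_ne_zero,
           OfNat.ofNat_ne_one] at he
         first
         | exact hne he
         | exact hne he.symm
         | exact hne2 he
         | exact hne2 he.symm
         | exact hne3 he
         | exact hne3 he.symm)
  obtain ⟨hs, hW', ct', hn⟩ := h.exists_lblN hL (by norm_num) hT3 hinj
  obtain ⟨a, b, c, rfl⟩ : ∃ a b c, hs = [a, b, c] := List.length_eq_three.1 hn.len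
  have ha : a = hT := hl.fst_of hn (i := 0) (by norm_num) rfl
  subst ha
  obtain ⟨h1, h2, h3⟩ := hl.one_of hn
  have hsum : b.sum = hit B (B j' ∩ Q) L := hn.sumT 1 (by norm_num)
  have hsum2 : c.sum = hit B (B j2 ∩ Q) L := hn.sumT 2 (by norm_num)
  obtain ⟨h4, h5⟩ := h1 b List.mem_cons_self
  obtain ⟨h4', h5'⟩ := h1 c (List.mem_cons_of_mem _ List.mem_cons_self)
  have h6 : ([b, c] : List (List ℕ)).flatten.sum = b.sum + c.sum := by
    simp
  rw [h6] at h2 h3
  refine ⟨tb, ct', b.sum, c.sum, hT3, hinj, rfl, rfl, rfl, hsum, hsum2, h5, h5', h3, ?_⟩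
  rw [← h4, ← h4', ← h2]
  exact hn

variable [DecidableEq ι]

/-- an excluded table with two triples. -/
theorem Frm.five2_no (h : Frm B Q T U F) (hv : ViolR B Q) (hL : L ∈ F) (hc3 : L.card = 3)
    (h1 : nt B L 1 = 1) {j j' : ι} (hj : j ∈ T) (hj' : j' ∈ T)
    (hne : j ≠ j') {hT : List ℕ} {ct : ℕ → V} (hl : Lbl B Q L j hT [1, 1, 1, 1, 1] ct)
    {s : ℕ} (hs : hit B (B j' ∩ Q) L = s)
    (hno : NoN V ι 3 2 9 9 z31 2 [hT, v1 s] (List.replicate (5 - s) 1)) : False := by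
  obtain ⟨tb, ct', s', a1, a2, _, _, a5, a6, a7, a8⟩ := h.five2 hL hj hj' hne (m := 5) hl
  rw [hs] at a5
  subst a5
  refine h.noN31 hv hL hc3 h1 a1 a2 a8 ?_ hno
  rw [List.length_replicate]
  omega

/-- an excluded table with three triples. -/
theorem Frm.five3_no (h : Frm B Q T U F) (hv : ViolR B Q) (hL : L ∈ F) (hc3 : L.card = 3)
    (h1 : nt B L 1 = 1) {j j' j2 : ι} (hj : j ∈ T) (hj' : j' ∈ T) (hj2 : j2 ∈ T)
    (hne : j ≠ j') (hne2 : j ≠ j2) (hne3 : j' ≠ j2) {hT : List ℕ} {ct : ℕ → V}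
    (hl : Lbl B Q L j hT [1, 1, 1, 1, 1] ct) {s s' : ℕ} (hs : hit B (B j' ∩ Q) L = s)
    (hs' : hit B (B j2 ∩ Q) L = s')
    (hno : NoN V ι 3 2 9 9 z31 3 [hT, v1 s, v1 s'] (List.replicate (5 - (s + s')) 1)) : False := by
  obtain ⟨tb, ct', t, t', a1, a2, _, _, _, a5, a6, _, _, _, a8⟩ :=
    h.five3 hL hj hj' hj2 hne hne2 hne3 (m := 5) hl
  rw [hs] at a5
  rw [hs'] at a6
  subst a5
  subst a6
  refine h.noN31 hv hL hc3 h1 a1 a2 a8 ?_ hno
  rw [List.length_replicate]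
  omega

/-- the number of hits of another triple. -/
theorem Frm.five_le (h : Frm B Q T U F) (hL : L ∈ F) {j j' : ι} (hj : j ∈ T) (hj' : j' ∈ T)
    (hne : j ≠ j') {hT : List ℕ} {ct : ℕ → V} (hl : Lbl B Q L j hT [1, 1, 1, 1, 1] ct) :
    hit B (B j' ∩ Q) L ≤ 3 := by
  obtain ⟨tb, ct', s', a1, a2, _, _, a5, a6, _⟩ := h.five2 hL hj hj' hne (m := 5) hl
  omega

/-- for (4,0,0) every other triple has at most one hit. -/
theorem Frm.gda_400 (h : Frm B Q T U F) (hv : ViolR B Q) (hL : L ∈ F) (hc3 : L.card = 3)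
    (h1 : nt B L 1 = 1) {j j' : ι} (hj : j ∈ T) (hj' : j' ∈ T) (hne : j ≠ j') {ct : ℕ → V}
    (hl : Lbl B Q L j [4, 0, 0] [1, 1, 1, 1, 1] ct) : hit B (B j' ∩ Q) L ≤ 1 := by
  by_contra hcon
  have h3 := h.five_le hL hj hj' hne hl
  rcases (by omega : hit B (B j' ∩ Q) L = 2 ∨ hit B (B j' ∩ Q) L = 3) with h4 | h4
  · exact h.five2_no hv hL hc3 h1 hj hj' hne hl h4 (noN_of 2 Gdx.V31_400_110_u111.inst (by decide))
  · exact h.five2_no hv hL hc3 h1 hj hj' hne hl h4 (noN_of 2 Gdx.N31_400_111_u11.inst (by decide))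

/-- for (3,1,0) and at most two hits of `U` every other triple has at most one hit. -/
theorem Frm.gda_310 (h : Frm B Q T U F) (hv : ViolR B Q) (hL : L ∈ F) (hc3 : L.card = 3)
    (h1 : nt B L 1 = 1) (hg : hit B U L ≤ 2) {j j' : ι} (hj : j ∈ T) (hj' : j' ∈ T)
    (hne : j ≠ j') {ct : ℕ → V}
    (hl : Lbl B Q L j [3, 1, 0] [1, 1, 1, 1, 1] ct) : hit B (B j' ∩ Q) L ≤ 1 := by
  have hle2 : ∀ j' ∈ T, j ≠ j' → hit B (B j' ∩ Q) L ≤ 2 := by
    intro j' hj' hne
    by_contra hcon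
    have h3 := h.five_le hL hj hj' hne hl
    exact h.five2_no hv hL hc3 h1 hj hj' hne hl (by omega : _ = 3)
      (noN_of 2 Gdx.N31_310_111_u11.inst (by decide))
  by_contra hcon
  have h2 : hit B (B j' ∩ Q) L = 2 := by
    have := hle2 j' hj' hne
    omega
  -- a third triple
  obtain ⟨tb, ct', s, a1, a2, a3, a4, a5, a6, _, a8⟩ := h.five2 hL hj hj' hne (m := 5) hl
  have hsW := a8.sumW
  rw [List.sum_replicate, smul_eq_mul, mul_one, a5, h2] at hsW
  obtain ⟨v, hvW, hvU, hne'⟩ := exists_out (B := B) (U := U) (L := L)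
    (W := (Q \ L) \ (Finset.range 2).biUnion (fun i => B (tb i))) (by omega)
  simp only [mem_sdiff, mem_biUnion, Finset.mem_range, not_exists, not_and] at hvW
  obtain ⟨⟨hvQ, hvL⟩, hvt⟩ := hvW
  obtain ⟨j2, hj2, hvj2⟩ := h.exists_T hL hvQ hvL hvU hne'
  have hne2 : j ≠ j2 := by
    rintro rfl
    have := hvt 0 (by norm_num)
    rw [a3] at this
    exact this hvj2
  have hne3 : j' ≠ j2 := by
    rintro rfl
    have := hvt 1 (by norm_num)
    rw [a4] at this
    exact this hvj2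
  have hpos : 1 ≤ hit B (B j2 ∩ Q) L := by
    rw [hit_eq_Ez]
    exact (card_pos.2 hne').trans_le (single_le_sum (f := fun y => (Ez B L y).card)
      (fun _ _ => Nat.zero_le _) (mem_inter.2 ⟨hvj2, hvQ⟩))
  have h5 := hle2 j2 hj2 hne2
  rcases (by omega : hit B (B j2 ∩ Q) L = 1 ∨ hit B (B j2 ∩ Q) L = 2) with h6 | h6
  · exact h.five3_no hv hL hc3 h1 hj hj' hj2 hne hne2 hne3 hl h2 h6
      (noN_of 3 Gdx.V31_310_110_100_u11.inst (by decide))
  · exact h.five3_no hv hL hc3 h1 hj hj' hj2 hne hne2 hne3 hl h2 h6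
      (noN_of 3 Gdx.V31_310_110_110_u1.inst (by decide))

/-- for (2,2,0) every other triple has at most two hits. -/
theorem Frm.gda_220 (h : Frm B Q T U F) (hv : ViolR B Q) (hL : L ∈ F) (hc3 : L.card = 3)
    (h1 : nt B L 1 = 1) {j j' : ι} (hj : j ∈ T) (hj' : j' ∈ T) (hne : j ≠ j') {ct : ℕ → V}
    (hl : Lbl B Q L j [2, 2, 0] [1, 1, 1, 1, 1] ct) : hit B (B j' ∩ Q) L ≤ 2 := by
  by_contra hcon
  have h3 := h.five_le hL hj hj' hne hl
  exact h.five2_no hv hL hc3 h1 hj hj' hne hl (by omega : _ = 3)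
    (noN_of 2 Gdx.N31_220_111_u11.inst (by decide))

/-- for (2,2,0) at most one other triple has two hits. -/
theorem Frm.gda_220' (h : Frm B Q T U F) (hv : ViolR B Q) (hL : L ∈ F) (hc3 : L.card = 3)
    (h1 : nt B L 1 = 1) {j j' j2 : ι} (hj : j ∈ T) (hj' : j' ∈ T) (hj2 : j2 ∈ T) (hne : j ≠ j')
    (hne2 : j ≠ j2) (hne3 : j' ≠ j2) {ct : ℕ → V}
    (hl : Lbl B Q L j [2, 2, 0] [1, 1, 1, 1, 1] ct) :
    hit B (B j' ∩ Q) L ≤ 1 ∨ hit B (B j2 ∩ Q) L ≤ 1 := by
  by_contra hcon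
  push Not at hcon
  have h3 := h.gda_220 hv hL hc3 h1 hj hj' hne hl
  have h4 := h.gda_220 hv hL hc3 h1 hj hj2 hne2 hl
  exact h.five3_no hv hL hc3 h1 hj hj' hj2 hne hne2 hne3 hl (by omega : _ = 2) (by omega : _ = 2)
    (noN_of 3 Gdx.V31_220_110_110_u1.inst (by decide))

/-- **a triple with four hits**: every other triple has at most two hits, from the impossibility of the
vectors (2,1,1) and (1,1,1). -/
theorem Frm.gda_le2_of (hno : NoN V ι 3 2 9 9 z31 2 [[2, 1, 1], [1, 1, 1]] [1, 1])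
    (h : Frm B Q T U F) (hv : ViolR B Q) (hL : L ∈ F) (hc3 : L.card = 3)
    (h1 : nt B L 1 = 1) (hdv : dv B Q L = -1) (hg : hit B U L ≤ 2) {j j' : ι} (hj : j ∈ T)
    (hj' : j' ∈ T) (hne : j ≠ j') (h4 : 4 ≤ hit B (B j ∩ Q) L) : hit B (B j' ∩ Q) L ≤ 2 := by
  obtain ⟨hT, hW, ct, hl, rfl, h2⟩ := h.gda4 hv hL hc3 h1 hdv hg hj h4
  rcases h2 with rfl | rfl | rfl | rfl
  · have := h.gda_400 hv hL hc3 h1 hj hj' hne hl
    omega
  · have := h.gda_310 hv hL hc3 h1 hg hj hj' hne hl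
    omega
  · exact h.gda_220 hv hL hc3 h1 hj hj' hne hl
  · by_contra hcon
    have h3 := h.five_le hL hj hj' hne hl
    exact h.five2_no hv hL hc3 h1 hj hj' hne hl (by omega : _ = 3) hno

end

end Pool.Agent.Hyp6
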