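import Pool.Agent.Hyp6.Gda
import Pool.Agent.Hyp6.InsX.V02

/-!
# HYP6 GDA6: the single block of a leaf of type (3;1) with a triple with four hits

`Frm.gda_S`: a leaf of type (3;1) with value `-1`, a triple with at least four hits, at most two hits of
`U`; the block which meets the leaf in one point only contains a point of `U`. Then it contains a point
of the triple.
-/

set_option autoImplicit false
set_option maxRecDepth 100000

namespace Pool.Agent.Hyp6

open Finset Pool.Agent.Hyp5 Gdx Rup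

universe u v

variable {V : Type v} [DecidableEq V] {ι : Type u} [Fintype ι] {B : ι → Finset V}

/-- the labels of the points with one hit can be permuted. -/
theorem Lbl.perm1 {Q Z : Finset V} {j : ι} {hT : List ℕ} {m : ℕ} {ct : ℕ → V}
    (hl : Lbl B Q Z j hT (List.replicate m 1) ct) (s : Equiv.Perm ℕ)
    (h0 : ∀ n, (3 ≤ s n ∧ s n < 3 + m) ↔ (3 ≤ n ∧ n < 3 + m)) (h1 : ∀ n < 3, s n = n) :
    Lbl B Q Z j hT (List.replicate m 1) (fun n => ct (s n)) := by
  have hlen : (List.replicate m 1).length = m := List.length_replicate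
  have hb : ∀ a < 3 + m, s a < 3 + m := by
    intro a ha
    rcases Nat.lt_or_ge a 3 with h2 | h2
    · rw [h1 a h2]
      exact ha
    · exact ((h0 a).2 ⟨h2, ha⟩).2
  refine ⟨hl.lenT, hl.desT, hl.desW, hl.posW, ?_, ?_, ?_, ?_, ?_, hl.sumT, hl.sumW⟩
  · intro a ha
    rw [hlen] at ha
    exact hl.memQ _ (by rw [hlen]; exact hb a ha)
  · intro a ha a' ha' he
    rw [hlen] at ha ha'
    exact s.injective (hl.inj _ (by rw [hlen]; exact hb a ha) _ (by rw [hlen]; exact hb a' ha') he)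
  · intro v
    rw [hl.trip]
    constructor
    · rintro ⟨a, ha, rfl⟩
      exact ⟨a, ha, by rw [h1 a ha]⟩
    · rintro ⟨a, ha, rfl⟩
      exact ⟨a, ha, by rw [h1 a ha]⟩
  · intro v hv hvZ hne
    obtain ⟨a, ha, rfl⟩ := hl.all v hv hvZ hne
    rw [hlen] at ha
    refine ⟨s.symm a, ?_, by rw [Equiv.apply_symm_apply]⟩
    rw [hlen]
    rcases Nat.lt_or_ge a 3 with h2 | h2
    · have h3 : s.symm a = a := by rw [Equiv.symm_apply_eq, h1 a h2]
      rw [h3]
      exact ha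
    · exact ((h0 (s.symm a)).1 (by rw [Equiv.apply_symm_apply]; exact ⟨h2, ha⟩)).2
  · intro a ha
    rw [hlen] at ha
    rw [hl.hits _ (by rw [hlen]; exact hb a ha)]
    rcases Nat.lt_or_ge a 3 with h2 | h2
    · rw [h1 a h2]
    · obtain ⟨h3, h4⟩ := (h0 a).2 ⟨h2, ha⟩
      rw [List.getD_append_right _ _ _ _ (by rw [hl.lenT]; exact h3),
        List.getD_append_right _ _ _ _ (by rw [hl.lenT]; exact h2), hl.lenT,
        List.getD_replicate _ (by omega), List.getD_replicate _ (by omega)]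

/-- the first two labels after the triple can be two given points. -/
theorem Lbl.two_first {Q Z : Finset V} {j : ι} {hT : List ℕ} {m : ℕ} {ct : ℕ → V}
    (hl : Lbl B Q Z j hT (List.replicate m 1) ct) {u x : V} (hu : u ∈ Q) (huZ : u ∉ Z)
    (huj : u ∉ B j) (hun : (Ez B Z u).Nonempty) (hx : x ∈ Q) (hxZ : x ∉ Z)
    (hxj : x ∉ B j) (hxn : (Ez B Z x).Nonempty) (hux : u ≠ x) :
    ∃ ct' : ℕ → V, Lbl B Q Z j hT (List.replicate m 1) ct' ∧ ct' 3 = u ∧ ct' 4 = x ∧ 2 ≤ m := by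
  have hlen : (List.replicate m 1).length = m := List.length_replicate
  have hge : ∀ a v, ct a = v → v ∉ B j → 3 ≤ a := by
    intro a v he hv
    by_contra hc
    exact hv (mem_inter.1 ((hl.trip v).2 ⟨a, by omega, he⟩)).1
  obtain ⟨a, ha, hau⟩ := hl.all u hu huZ hun
  obtain ⟨b, hb, hbx⟩ := hl.all x hx hxZ hxn
  rw [hlen] at ha hb
  have ha3 := hge a u hau huj
  have hb3 := hge b x hbx hxj
  have hab : a ≠ b := by
    rintro rfl
    exact hux (hau.symm.trans hbx)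
  set t := Equiv.swap 3 a with ht
  have ht3 : t 3 = a := Equiv.swap_apply_left 3 a
  have hta : t a = 3 := Equiv.swap_apply_right 3 a
  set c := t b with hc
  have htc : t c = b := by
    rw [hc, ht, Equiv.swap_apply_self]
  have hc3 : c ≠ 3 := by
    intro h1
    rw [h1, ht3] at htc
    exact hab htc
  have hcr : 3 ≤ c ∧ c < 3 + m := by
    rw [hc, ht]
    rcases eq_or_ne b 3 with h1 | h1
    · rw [h1, Equiv.swap_apply_left]
      omega
    · rw [Equiv.swap_apply_of_ne_of_ne h1 (Ne.symm hab)]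
      omega
  set s : Equiv.Perm ℕ := (Equiv.swap 4 c).trans t with hs
  have s3 : s 3 = a := by
    rw [hs, Equiv.trans_apply, Equiv.swap_apply_of_ne_of_ne (by norm_num) (Ne.symm hc3), ht3]
  have s4 : s 4 = b := by
    rw [hs, Equiv.trans_apply, Equiv.swap_apply_left, htc]
  have hm2 : 2 ≤ m := by omega
  have hsw : ∀ p q n : ℕ, (3 ≤ p ∧ p < 3 + m) → (3 ≤ q ∧ q < 3 + m) →
      ((3 ≤ Equiv.swap p q n ∧ Equiv.swap p q n < 3 + m) ↔ (3 ≤ n ∧ n < 3 + m)) := by
    intro p q n hp hq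
    rcases eq_or_ne n p with h1 | h1
    · subst h1
      rw [Equiv.swap_apply_left]
      exact iff_of_true hq hp
    · rcases eq_or_ne n q with h2 | h2
      · subst h2
        rw [Equiv.swap_apply_right]
        exact iff_of_true hp hq
      · rw [Equiv.swap_apply_of_ne_of_ne h1 h2]
  refine ⟨fun n => ct (s n), hl.perm1 s ?_ ?_, ?_, ?_, hm2⟩
  · intro n
    rw [hs, Equiv.trans_apply, ht, hsw 3 a _ ⟨by norm_num, by omega⟩ ⟨ha3, ha⟩,
      hsw 4 c _ ⟨by norm_num, by omega⟩ hcr]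
  · intro n hn
    have k1 : Equiv.swap 4 c n = n := Equiv.swap_apply_of_ne_of_ne (by omega) (by omega)
    have k2 : Equiv.swap 3 a n = n := Equiv.swap_apply_of_ne_of_ne (by omega) (by omega)
    rw [hs, Equiv.trans_apply, k1, ht, k2]
  · dsimp only
    rw [s3, hau]
  · dsimp only
    rw [s4, hbx]

omit [Fintype ι] in
/-- the single block of a set of type (3;1) is the last one of the list. -/
theorem Blk.last31 {Z : Finset V} {bl : ℕ → ι} {zt : ℕ → V}
    (hb : Blk B Z 3 [3, 3, 3, 5, 5, 6, 6, 4] bl zt) {i : ι} (hi : (B i ∩ Z).card = 1) :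
    bl 7 = i := by
  classical
  obtain ⟨b, hb8, rfl⟩ := hb.all i (card_pos.1 (by omega))
  by_contra hcon
  have h8 : b < 8 := hb8
  have h7 : b ≠ 7 := by
    rintro rfl
    exact hcon rfl
  obtain ⟨z, z', hz, hz', hne, h1, h2⟩ : ∃ z z', z < 3 ∧ z' < 3 ∧ z ≠ z' ∧
      (([3, 3, 3, 5, 5, 6, 6, 4] : List ℕ).getD b 0).testBit z = true ∧
      (([3, 3, 3, 5, 5, 6, 6, 4] : List ℕ).getD b 0).testBit z' = true := by
    rcases (by omega : b = 0 ∨ b = 1 ∨ b = 2 ∨ b = 3 ∨ b = 4 ∨ b = 5 ∨ b = 6) with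
      rfl | rfl | rfl | rfl | rfl | rfl | rfl
    · exact ⟨0, 1, by decide⟩
    · exact ⟨0, 1, by decide⟩
    · exact ⟨0, 1, by decide⟩
    · exact ⟨0, 2, by decide⟩
    · exact ⟨0, 2, by decide⟩
    · exact ⟨1, 2, by decide⟩
    · exact ⟨1, 2, by decide⟩
  have m1 : zt z ∈ B (bl b) ∩ Z :=
    mem_inter.2 ⟨(hb.tr b hb8 z hz).1 h1, (hb.mem _).2 ⟨z, hz, rfl⟩⟩
  have m2 : zt z' ∈ B (bl b) ∩ Z :=
    mem_inter.2 ⟨(hb.tr b hb8 z' hz').1 h2, (hb.mem _).2 ⟨z', hz', rfl⟩⟩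
  have h3 := card_le_one.1 hi.le _ m1 _ m2
  exact hne (hb.injz z hz z' hz' h3)

/-- all places of a leaf of type (3;1) are hits: its blocks are full. -/
theorem Frm.full31 {Q U L : Finset V} {T : Finset ι} {F : Finset (Finset V)}
    (h : Frm B Q T U F) (hv : ViolR B Q) (hL : L ∈ F) (hc3 : L.card = 3) (h1 : nt B L 1 = 1)
    (h9 : hit B (Q \ L) L = 9) {i : ι} (hi : (B i ∩ L).Nonempty) : (B i ∩ Q).card = 3 := by
  classical
  obtain ⟨hcm, _, _, _⟩ := h.leaf31 hv hL hc3 h1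
  have hLQ := h.FQ hL
  have h4 := hit_add_fsQ (B := B) (hv.reg.mono hLQ) hLQ
  have h5 : hc B L = 9 := by
    unfold Hyp6.hc
    rw [hcm, hc3]
    norm_num
  rw [h5, h9] at h4
  have h6 : fs B Q L = 0 := by
    push_cast at h4
    linarith
  unfold fs at h6
  rw [sum_eq_zero_iff_of_nonneg (fun k _ => by
    have := hv.tr k
    omega)] at h6
  have h7 := h6 i (cost_mem_tch.2 hi)
  omega

variable [DecidableEq ι]

/-- a checked instance with two single hits on the single block. -/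
theorem Lbl.no_S {Q U L : Finset V} {T : Finset ι} {F : Finset (Finset V)}
    (h : Frm B Q T U F) (hv : ViolR B Q) (hL : L ∈ F) (hc3 : L.card = 3) (h1 : nt B L 1 = 1)
    {j : ι} (hj : j ∈ T) {hT : List ℕ} {ct : ℕ → V} (hl : Lbl B Q L j hT [1, 1, 1, 1, 1] ct)
    {i : ι} (hi : (B i ∩ L).card = 1) (h3 : ct 3 ∈ B i) (h4 : ct 4 ∈ B i)
    {given : List (List ℕ)} {bs : List Gb} {ks : List Gk} {nm db : Tr} {cnf : List (List ℕ)}
    {prf : List ℕ} (hg : given = [[ps (vP 7 3)], [ps (vP 7 4)]])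
    (hb : instX (P31 hT [1, 1, 1, 1, 1]) given bs ks nm cnf db prf = true) : False := by
  classical
  obtain ⟨hcm, hrho, hP, hit9⟩ := h.leaf31 hv hL hc3 h1
  have hLQ := h.FQ hL
  have hLne : L.Nonempty := card_pos.1 (by omega)
  obtain ⟨a, b, c, s, ht⟩ := exists_t31 (hv.reg.mono hLQ) (hv.tr.mono hLQ) hc3 hcm hrho
  obtain ⟨bl, zt, hbk, _⟩ := ht.exists_blocks
  have h7 := hbk.last31 hi
  have hgx : Gdx.Gx B Q L (P31 hT [1, 1, 1, 1, 1]) bl ct zt (fun _ => j) :=
    hl.gx hbk hv hLQ hLne (h.full hj) (by decide) hrho (by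
      have := hv.leaf_dv h hL
      push_cast
      linarith) (by rw [hP]; norm_num)
  refine hgx.no (fun c hc => ?_) hb
  rw [hg, List.mem_cons, List.mem_singleton] at hc
  rcases hc with rfl | rfl
  · refine ⟨_, List.mem_singleton_self _, ?_⟩
    rw [lit_ps, gval_P (by norm_num), h7]
    exact h3
  · refine ⟨_, List.mem_singleton_self _, ?_⟩
    rw [lit_ps, gval_P (by norm_num), h7]
    exact h4

/-- **the single block**: with four hits of a triple, at most two hits of `U` and a point of `U` on the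
single block, there is a point of the triple on it. -/
theorem Frm.gda_S {Q U L : Finset V} {T : Finset ι} {F : Finset (Finset V)}
    (h : Frm B Q T U F) (hv : ViolR B Q) (hL : L ∈ F) (hc3 : L.card = 3) (h1 : nt B L 1 = 1)
    (hdv : dv B Q L = -1) (hg : hit B U L ≤ 2) {j : ι} (hj : j ∈ T)
    (h4 : 4 ≤ hit B (B j ∩ Q) L) {i : ι} (hi : (B i ∩ L).card = 1) {u : V} (hu : u ∈ U)
    (hui : u ∈ B i) : ∃ x ∈ B j ∩ Q, x ∈ B i := by
  classical
  by_contra hcon
  push Not at hcon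
  obtain ⟨_, _, h9, _⟩ := h.gda4' hv hL hc3 h1 hdv hg hj h4
  obtain ⟨hT, hW, ct, hl, rfl, hTs⟩ := h.gda4 hv hL hc3 h1 hdv hg hj h4
  have hine : (B i ∩ L).Nonempty := card_pos.1 (by omega)
  have hfull := h.full31 hv hL hc3 h1 h9 hine
  have hLQ := h.FQ hL
  have huD := h.UD hu
  have huQ : u ∈ Q := DQ huD
  have huj : u ∉ B j := fun h5 => (mem_sdiff.1 huD).2 (mem_biUnion.2 ⟨j, hj, h5⟩)
  have huL : u ∉ L := fun h5 => (mem_sdiff.1 ((h.ge.sys.closed L hL).1 h5)).2 hu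
  -- the third point of the block
  obtain ⟨x, hx, hxu⟩ : ∃ x ∈ (B i ∩ Q) \ L, x ≠ u := by
    by_contra hc
    push Not at hc
    have k1 : (B i ∩ Q) \ L ⊆ {u} := fun v hv' => mem_singleton.2 (hc v hv')
    have k2 := card_le_card k1
    rw [card_singleton] at k2
    have k3 : (B i ∩ Q) ∩ L = B i ∩ L := by
      ext v
      simp only [mem_inter]
      constructor
      · rintro ⟨⟨a, _⟩, b⟩
        exact ⟨a, b⟩
      · rintro ⟨a, b⟩
        exact ⟨⟨a, hLQ b⟩, b⟩
    have k4 := card_inter_add_card_sdiff (B i ∩ Q) L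
    rw [k3] at k4
    omega
  obtain ⟨hx1, hxL⟩ := mem_sdiff.1 hx
  obtain ⟨hxi, hxQ⟩ := mem_inter.1 hx1
  have hxj : x ∉ B j := fun h5 => hcon x (mem_inter.2 ⟨h5, hxQ⟩) hxi
  obtain ⟨ct', hl', e3, e4, _⟩ := hl.two_first (m := 5) huQ huL huj ⟨i, mem_Ez.2 ⟨hui, hine⟩⟩ hxQ hxL
    hxj ⟨i, mem_Ez.2 ⟨hxi, hine⟩⟩ (Ne.symm hxu)
  have m3 : ct' 3 ∈ B i := by rw [e3]; exact hui
  have m4 : ct' 4 ∈ B i := by rw [e4]; exact hxi
  rcases hTs with rfl | rfl | rfl | rfl
  · exact Lbl.no_S h hv hL hc3 h1 hj hl' hi m3 m4 rfl Gdx.V31S_400.inst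
  · exact Lbl.no_S h hv hL hc3 h1 hj hl' hi m3 m4 rfl Gdx.V31S_310.inst
  · exact Lbl.no_S h hv hL hc3 h1 hj hl' hi m3 m4 rfl Gdx.V31S_220.inst
  · exact Lbl.no_S h hv hL hc3 h1 hj hl' hi m3 m4 rfl Gdx.V31S_211.inst

end Pool.Agent.Hyp6
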