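import Pool.Agent.Hyp6.Gda5
import Pool.Agent.Hyp6.InsX.R00

/-!
# HYP6 GDA7: a triple with four hits at a leaf of type (3;1), the other triples

`Frm.gda_le2`: a leaf of type (3;1) with value `-1`, at most two hits of `U` and a triple with at least
four hits: every other triple has at most two hits.
-/

set_option autoImplicit false
set_option maxRecDepth 100000

namespace Pool.Agent.Hyp6

open Finset Pool.Agent.Hyp5 Gdx Rup

universe u v

variable {V : Type v} [DecidableEq V] {ι : Type u} [Fintype ι] [DecidableEq ι]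
variable {B : ι → Finset V} {Q U L : Finset V} {T : Finset ι} {F : Finset (Finset V)}

/-- the vectors (2,1,1) and (1,1,1) do not occur together. -/
theorem noN_211_111 : NoN V ι 3 2 9 9 z31 2 [[2, 1, 1], [1, 1, 1]] [1, 1] :=
  fun _ _ _ _ _ _ _ _ _ _ h hv hL hT hinj hl hg => Gdx.N31_211_111_u11.no h hv hL hT hinj hl hg

/-- **a triple with four hits**: every other triple has at most two hits. -/
theorem Frm.gda_le2 (h : Frm B Q T U F) (hv : ViolR B Q) (hL : L ∈ F) (hc3 : L.card = 3)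
    (h1 : nt B L 1 = 1) (hdv : dv B Q L = -1) (hg : hit B U L ≤ 2) {j j' : ι} (hj : j ∈ T)
    (hj' : j' ∈ T) (hne : j ≠ j') (h4 : 4 ≤ hit B (B j ∩ Q) L) : hit B (B j' ∩ Q) L ≤ 2 :=
  h.gda_le2_of noN_211_111 hv hL hc3 h1 hdv hg hj hj' hne h4

/-- two triples with four and three hits. -/
theorem Frm.gda_43 (h : Frm B Q T U F) (hv : ViolR B Q) (hL : L ∈ F) (hc3 : L.card = 3)
    (h1 : nt B L 1 = 1) (hdv : dv B Q L = -1) (hg : hit B U L ≤ 2) {j j' : ι} (hj : j ∈ T)
    (hj' : j' ∈ T) (hne : j ≠ j') (h4 : 4 ≤ hit B (B j ∩ Q) L)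
    (h3 : 3 ≤ hit B (B j' ∩ Q) L) : False := by
  have := h.gda_le2 hv hL hc3 h1 hdv hg hj hj' hne h4
  omega

end Pool.Agent.Hyp6
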