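import Pool.Agent.Hyp6.L3RB

/-!
# HYP6 L3RL: Lemma B for value at least one

`ViolR.lemB`: parts with value `>= 0` count nothing. `ViolR.ee_T`, `ViolR.ee_bi`: no point of a full block
has two single traces. `ViolR.lemBk`: `k` full blocks.
-/

set_option autoImplicit false

namespace Pool.Agent.Hyp6

open Finset Pool.Agent.Hyp5

universe u v

variable {V : Type v} [DecidableEq V] {ι : Type u} [Fintype ι] {B : ι → Finset V}
  {Q : Finset V}

/-- a proper connected part has `dv >= -1`, and `dv >= 0` if its value is `>= 0`. -/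
theorem ViolR.part (h : ViolR B Q) {C : Finset V} (hCQ : C ⊆ Q) (hne : C ≠ Q)
    (hC : Conn (gr B) C) : -1 ≤ dv B Q C ∧ (0 ≤ sv B C → 0 ≤ dv B Q C) := by
  have hlt := card_lt_card (lt_of_le_of_ne hCQ hne)
  have hr := h.reg.mono hCQ
  have ht := h.tr.mono hCQ
  have hk := not_KT_of_ssubset h.conn h.reg h.tr hCQ hne
  have h2 : (ee B Q C : ℤ) ≤ ee B C C := by
    exact_mod_cast ee_le_ee (Subset.refl _) hCQ
  refine ⟨?_, fun hs => ?_⟩
  · have h1 := h.ih ι B C hlt hr ht hC hk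
    unfold dv
    linarith
  · have h1 := ih_nonneg h.ih h.ihr hlt hr ht hC hk hs
    unfold dv
    linarith

open Classical in
/-- **Lemma B** for value at least one. -/
theorem ViolR.lemB (h : ViolR B Q) {W : Finset V} (hW : W ⊆ Q) (hne : W.Nonempty)
    {K : Finset (Finset V)}
    (hK1 : ∀ C ∈ K, C ⊆ Q \ W ∧ Closed (gr B) (Q \ W) C ∧ Conn (gr B) C) (hK2 : SepF B K)
    (hK3 : K.biUnion id = Q \ W) :
    5 * (W.card : ℤ) + 4 * ((ins B Q W).card : ℤ) + 1 ≤
      24 * ((rho B Q : ℤ) - rho B (Q \ W)) + 2 * (ee B Q W : ℤ) +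
        (K.filter (fun C => sv B C ≤ -1)).card := by
  have hKQ : ∀ C ∈ K, C ⊆ Q := fun C hC => (hK1 C hC).1.trans sdiff_subset
  have hcov := h.cov
  have hKcov : ∀ C ∈ K, Cov B C := fun C hC => hcov.mono (hKQ C hC)
  have hval : ∀ C ∈ K, (if sv B C ≤ -1 then (-1 : ℤ) else 0) ≤ dv B Q C := by
    intro C hC
    have hneQ : C ≠ Q := by
      rintro rfl
      obtain ⟨w, hw⟩ := hne
      exact (mem_sdiff.1 ((hK1 _ hC).1 (hW hw))).2 hw
    obtain ⟨h1, h2⟩ := h.part (hKQ C hC) hneQ (hK1 C hC).2.2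
    split_ifs with hs
    · exact h1
    · exact h2 (by omega)
  have h2 := Pv_sdiff (B := B) hW
  rw [← hK3, Pv_biUnion hKcov hK2, hK3] at h2
  have hee : ee B Q Q = ∑ C ∈ K, ee B Q C + ee B Q W := by
    rw [← ee_biUnion hK2, hK3, ← ee_union sdiff_disjoint, sdiff_union_of_subset hW]
  have h6 : ∑ C ∈ K, (if sv B C ≤ -1 then (-1 : ℤ) else 0) ≤ ∑ C ∈ K, dv B Q C :=
    sum_le_sum fun C hC => hval C hC
  rw [← sum_filter, sum_const, nsmul_eq_mul] at h6
  have h7 : ∑ C ∈ K, dv B Q C = ∑ C ∈ K, Pv B C - 2 * ∑ C ∈ K, (ee B Q C : ℤ) := by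
    unfold dv
    rw [sum_sub_distrib, ← mul_sum]
  have c1 : (ee B Q Q : ℤ) = ∑ C ∈ K, (ee B Q C : ℤ) + ee B Q W := by
    rw [hee]
    push_cast
    ring
  have h8 := h.neg
  unfold dv at h8
  linarith

/-- **Lemma B** if the rest is connected. -/
theorem ViolR.lemB1 (h : ViolR B Q) {W : Finset V} (hW : W ⊆ Q) (hne : W.Nonempty)
    (hcon : Conn (gr B) (Q \ W)) :
    5 * (W.card : ℤ) + 4 * ((ins B Q W).card : ℤ) ≤
      24 * ((rho B Q : ℤ) - rho B (Q \ W)) + 2 * (ee B Q W : ℤ) ∧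
    (0 ≤ sv B (Q \ W) → 5 * (W.card : ℤ) + 4 * ((ins B Q W).card : ℤ) + 1 ≤
      24 * ((rho B Q : ℤ) - rho B (Q \ W)) + 2 * (ee B Q W : ℤ)) := by
  classical
  have h1 := h.lemB hW hne (K := {Q \ W}) (by
    intro C hC
    rw [mem_singleton] at hC
    rw [hC]
    exact ⟨Subset.refl _, ⟨Subset.refl _, fun x hx y hy _ => hy⟩, hcon⟩) (by
    intro C hC D hD hne
    rw [mem_singleton] at hC hD
    exact absurd (hC.trans hD.symm) hne) (by rw [singleton_biUnion, id])
  constructor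
  · have h2 : ((({Q \ W} : Finset (Finset V)).filter (fun C => sv B C ≤ -1)).card : ℤ) ≤ 1 := by
      exact_mod_cast (card_filter_le _ _).trans (card_singleton (Q \ W)).le
    linarith
  · intro hs
    have h2 : (({Q \ W} : Finset (Finset V)).filter (fun C => sv B C ≤ -1)) = ∅ := by
      rw [filter_eq_empty_iff]
      intro C hC
      rw [mem_singleton] at hC
      rw [hC]
      omega
    rw [h2, card_empty] at h1
    push_cast at h1
    linarith

/-- no point of a full block has two single traces. -/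
theorem ViolR.ee_T (h : ViolR B Q) {i : ι} (hi : (B i ∩ Q).card = 3) :
    ee B Q (B i ∩ Q) = 0 := by
  classical
  obtain ⟨-, -, -, -, hn, -⟩ := h.lemA hi
  have h1 := two_ee_le (B := B) Q (B i ∩ Q)
  have hi0 : i ∈ ins B Q (B i ∩ Q) := by
    rw [mem_ins]
    exact ⟨card_pos.1 (by omega), Subset.refl _⟩
  have h2 : (ins B Q (B i ∩ Q)).filter (fun j => (B j ∩ Q).card = 1) ⊆
      (ins B Q (B i ∩ Q)).erase i := by
    intro j hj
    rw [mem_filter] at hj
    refine mem_erase.2 ⟨?_, hj.1⟩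
    rintro rfl
    omega
  have h3 := card_le_card h2
  have h4 := card_erase_add_one hi0
  omega

/-- a point with two single traces is in no full block. -/
theorem ViolR.single_two (h : ViolR B Q) {i : ι} (hi : (B i ∩ Q).card = 3) {t : V}
    (ht : t ∈ B i) (htQ : t ∈ Q) : (univ.filter (fun j => B j ∩ Q = {t})).card ≤ 1 := by
  classical
  by_contra hcon
  push Not at hcon
  have h1 := h.ee_T hi
  unfold ee at h1
  rw [card_eq_zero, filter_eq_empty_iff] at h1
  exact h1 (mem_inter.2 ⟨ht, htQ⟩) hcon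

/-- no point of a union of full blocks has two single traces. -/
theorem ViolR.ee_bi (h : ViolR B Q) {I : Finset ι} (hI : ∀ i ∈ I, (B i ∩ Q).card = 3) :
    ee B Q (I.biUnion B ∩ Q) = 0 := by
  classical
  unfold ee
  rw [card_eq_zero, filter_eq_empty_iff]
  intro t ht h2
  rw [mem_inter, mem_biUnion] at ht
  obtain ⟨⟨i, hi, hti⟩, htQ⟩ := ht
  have := h.single_two (hI i hi) hti htQ
  omega

/-- **k disjoint full blocks**: with `b` blocks inside (the `k` blocks included), `Q` minus the blocks cut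
into parts of which `m` have value `-1`: `4 b <= 9 k + m - 1`. -/
theorem ViolR.lemBk (h : ViolR B Q) {I : Finset ι} (hI : ∀ i ∈ I, (B i ∩ Q).card = 3)
    (hne : I.Nonempty) (hdis : ∀ i ∈ I, ∀ j ∈ I, i ≠ j → Disjoint (B i ∩ Q) (B j ∩ Q))
    (hrho : rho B (Q \ (I.biUnion B ∩ Q)) + I.card = rho B Q) {K : Finset (Finset V)}
    (hK1 : ∀ C ∈ K, C ⊆ Q \ (I.biUnion B ∩ Q) ∧ Closed (gr B) (Q \ (I.biUnion B ∩ Q)) C ∧
      Conn (gr B) C) (hK2 : SepF B K) (hK3 : K.biUnion id = Q \ (I.biUnion B ∩ Q)) {m : ℕ}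
    (hm : ∀ K' ⊆ K, (∀ C ∈ K', sv B C ≤ -1) → K'.card ≤ m) :
    4 * (ins B Q (I.biUnion B ∩ Q)).card + 1 ≤ 9 * I.card + m := by
  classical
  have hcard : (I.biUnion B ∩ Q).card = 3 * I.card := by
    have h1 : I.biUnion B ∩ Q = I.biUnion (fun i => B i ∩ Q) := by
      ext v
      simp only [mem_inter, mem_biUnion]
      constructor
      · rintro ⟨⟨i, hi, hv⟩, hQ⟩
        exact ⟨i, hi, hv, hQ⟩
      · rintro ⟨i, hi, hv, hQ⟩
        exact ⟨⟨i, hi, hv⟩, hQ⟩
    rw [h1, card_biUnion (fun i hi j hj hij => hdis i hi j hj hij), sum_congr rfl hI, sum_const,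
      smul_eq_mul]
    ring
  obtain ⟨i, hi⟩ := hne
  have hWne : (I.biUnion B ∩ Q).Nonempty := by
    obtain ⟨v, hv⟩ := card_pos.1 (by rw [hI i hi]; norm_num : 0 < (B i ∩ Q).card)
    rw [mem_inter] at hv
    exact ⟨v, mem_inter.2 ⟨mem_biUnion.2 ⟨i, hi, hv.1⟩, hv.2⟩⟩
  have h1 := h.lemB inter_subset_right hWne hK1 hK2 hK3
  rw [h.ee_bi hI, hcard] at h1
  have h2 := hm (K.filter (fun C => sv B C ≤ -1)) (filter_subset _ _)
    (fun C hC => (mem_filter.1 hC).2)
  have h3 : (rho B (Q \ (I.biUnion B ∩ Q)) : ℤ) + I.card = rho B Q := by exact_mod_cast hrho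
  have h4 : ((K.filter (fun C => sv B C ≤ -1)).card : ℤ) ≤ m := by exact_mod_cast h2
  push_cast at h1
  have h5 : 4 * ((ins B Q (I.biUnion B ∩ Q)).card : ℤ) + 1 ≤ 9 * I.card + m := by linarith
  exact_mod_cast h5

end Pool.Agent.Hyp6
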