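import Pool.Agent.Hyp6.L4Z

/-!
# HYP6 L4T: three components
-/

set_option autoImplicit false

namespace Pool.Agent.Hyp6

open Finset Pool.Agent.Hyp5

universe u v

variable {V : Type v} [DecidableEq V] {ι : Type u} [Fintype ι] {B : ι → Finset V}
variable {Q Z : Finset V} {F : Finset (Finset V)} {i0 : ι}

theorem Ct.final (h : Ct B Q Z F i0) (f : Finset V → Finset V) (hf : ∀ C ∈ F, Abz B C (f C))
    (hZ : Z ⊆ F.biUnion f) : False := h.not_JA_Z (JA_of f hf hZ)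

theorem Ct.assign3 (h : Ct B Q Z F i0) {I J K : Finset V} (hF : F = {I, J, K}) (hIJ : I ≠ J)
    (hIK : I ≠ K) (hJK : J ≠ K) {SI SJ SK : Finset V} (hI : Abz B I SI) (hJ : Abz B J SJ)
    (hK : Abz B K SK) (hZ : ∀ z ∈ Z, z ∈ SI ∨ z ∈ SJ ∨ z ∈ SK) : False := by
  classical
  obtain ⟨f, h1, h2, h3⟩ : ∃ f : Finset V → Finset V, f I = SI ∧ f J = SJ ∧ f K = SK :=
    ⟨fun C => if C = I then SI else if C = J then SJ else SK, if_pos rfl, by simp [hIJ.symm],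
      by simp [hIK.symm, hJK.symm]⟩
  refine h.final f ?_ ?_
  · intro C hC
    rw [hF, mem_insert, mem_insert, mem_singleton] at hC
    rcases hC with rfl | rfl | rfl
    · rw [h1]
      exact hI
    · rw [h2]
      exact hJ
    · rw [h3]
      exact hK
  · intro z hz
    rw [mem_biUnion, hF]
    rcases hZ z hz with h4 | h4 | h4
    · exact ⟨I, by simp, by rw [h1]; exact h4⟩
    · exact ⟨J, by simp, by rw [h2]; exact h4⟩
    · exact ⟨K, by simp, by rw [h3]; exact h4⟩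

theorem Ct.assign2 (h : Ct B Q Z F i0) {I J : Finset V} (hF : F = {I, J}) (hIJ : I ≠ J)
    {SI SJ : Finset V} (hI : Abz B I SI) (hJ : Abz B J SJ)
    (hZ : ∀ z ∈ Z, z ∈ SI ∨ z ∈ SJ) : False := by
  classical
  obtain ⟨f, h1, h2⟩ : ∃ f : Finset V → Finset V, f I = SI ∧ f J = SJ :=
    ⟨fun C => if C = I then SI else SJ, if_pos rfl, by simp [hIJ.symm]⟩
  refine h.final f ?_ ?_
  · intro C hC
    rw [hF, mem_insert, mem_singleton] at hC
    rcases hC with rfl | rfl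
    · rw [h1]
      exact hI
    · rw [h2]
      exact hJ
  · intro z hz
    rw [mem_biUnion, hF]
    rcases hZ z hz with h4 | h4
    · exact ⟨I, by simp, by rw [h1]; exact h4⟩
    · exact ⟨J, by simp, by rw [h2]; exact h4⟩

theorem Ct.FA_Z (_h : Ct B Q Z F i0) : FA B Z F Z = F := by
  ext C
  rw [mem_FA]
  exact ⟨fun h => h.1, fun h => ⟨h, fun z hz _ => hz⟩⟩

/-- one inner block, at most three components, all with `dv ≤ 0`. -/
theorem Ct.summary (h : Ct B Q Z F i0) : (ins B Q Z).card = 1 ∧ F.card ≤ 3 ∧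
    (∀ C ∈ F, dv B Q C ≤ 0) ∧ ∑ C ∈ F, dv B Q C ≤ -2 := by
  classical
  have h1 := h.good_lt (Subset.refl Z) (card_pos.1 (by rw [h.cZ]; norm_num))
  rw [h.FA_Z, h.cZ] at h1
  have h2 := sum_filter_add_sum_filter_not F (fun C => dv B Q C ≤ 3) (fun C => dv B Q C)
  have h3 : ∑ C ∈ F.filter (fun C => dv B Q C ≤ 3), (-1 : ℤ) ≤
      ∑ C ∈ F.filter (fun C => dv B Q C ≤ 3), dv B Q C :=
    sum_le_sum fun C hC => (h.cp (mem_filter.1 hC).1).d_ge
  have h4 : ∑ C ∈ F.filter (fun C => ¬ dv B Q C ≤ 3), (4 : ℤ) ≤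
      ∑ C ∈ F.filter (fun C => ¬ dv B Q C ≤ 3), dv B Q C := by
    refine sum_le_sum fun C hC => ?_
    have := (mem_filter.1 hC).2
    omega
  rw [sum_const, nsmul_eq_mul] at h3 h4
  have h5 := h.dv_ge
  have h6 := h.neg
  have h7 : 0 < (ins B Q Z).card := card_pos.2 ⟨i0, h.i0_ins⟩
  have c1 : ((F.filter (fun C => dv B Q C ≤ 3)).card : ℤ) ≤ 3 := by
    exact_mod_cast (by omega : (F.filter (fun C => dv B Q C ≤ 3)).card ≤ 3)
  have c2 : (1 : ℤ) ≤ (ins B Q Z).card := by exact_mod_cast h7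
  have h8 : (F.filter (fun C => ¬ dv B Q C ≤ 3)).card = 0 := by
    by_contra hcon
    have c3 : (1 : ℤ) ≤ (F.filter (fun C => ¬ dv B Q C ≤ 3)).card := by
      exact_mod_cast (by omega : 1 ≤ (F.filter (fun C => ¬ dv B Q C ≤ 3)).card)
    linarith
  have h9 : (ins B Q Z).card = 1 := by
    by_contra hcon
    have c3 : (2 : ℤ) ≤ (ins B Q Z).card := by
      exact_mod_cast (by omega : 2 ≤ (ins B Q Z).card)
    have c4 : (0 : ℤ) ≤ (F.filter (fun C => ¬ dv B Q C ≤ 3)).card := by positivity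
    linarith
  have h10 : F.filter (fun C => dv B Q C ≤ 3) = F := by
    rw [filter_eq_self]
    intro C hC
    by_contra hcon
    have : C ∈ F.filter (fun C => ¬ dv B Q C ≤ 3) := mem_filter.2 ⟨hC, hcon⟩
    rw [card_eq_zero] at h8
    rw [h8] at this
    exact absurd this (notMem_empty _)
  rw [h10] at h1 c1
  have h11 : ∑ C ∈ F, dv B Q C ≤ -2 := by
    rw [h9] at h5
    push_cast at h5
    linarith
  refine ⟨h9, by omega, fun C hC => ?_, h11⟩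
  have h12 := add_sum_erase F (fun C => dv B Q C) hC
  have h13 : ∑ D ∈ F.erase C, (-1 : ℤ) ≤ ∑ D ∈ F.erase C, dv B Q D :=
    sum_le_sum fun D hD => (h.cp (mem_of_mem_erase hD)).d_ge
  rw [sum_const, nsmul_eq_mul] at h13
  have h14 := card_erase_add_one hC
  have c3 : ((F.erase C).card : ℤ) + 1 = F.card := by exact_mod_cast h14
  linarith

theorem Ct.two_att (h : Ct B Q Z F i0) {C : Finset V} (hC : C ∈ F) {a : V} (ha : a ∈ Z) :
    ∃ x ∈ Z, x ≠ a ∧ (Ez B C x).Nonempty := by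
  classical
  by_contra hcon
  push Not at hcon
  have h1 := h.good_lt (singleton_subset_iff.2 ha) (singleton_nonempty a)
  rw [card_singleton, Nat.lt_one_iff, card_eq_zero, filter_eq_empty_iff] at h1
  refine h1 (x := C) ?_ ?_
  · rw [mem_FA]
    refine ⟨hC, fun z hz hzE => ?_⟩
    rw [mem_singleton]
    by_contra hza
    rw [hcon z hz hza] at hzE
    exact absurd hzE (by simp)
  · have := h.summary.2.2.1 C hC
    linarith

theorem Ct.pair_att (h : Ct B Q Z F i0) {C D : Finset V} (hC : C ∈ F) (hD : D ∈ F) (hCD : C ≠ D)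
    {a b : V} (ha : a ∈ Z) (hb : b ∈ Z) :
    ∃ x ∈ Z, x ≠ a ∧ x ≠ b ∧ ((Ez B C x).Nonempty ∨ (Ez B D x).Nonempty) := by
  classical
  by_contra hcon
  push Not at hcon
  have hsub : ({a, b} : Finset V) ⊆ Z := by
    intro v hv
    rw [mem_insert, mem_singleton] at hv
    rcases hv with rfl | rfl
    · exact ha
    · exact hb
  have h1 := h.good_lt hsub (insert_nonempty _ _)
  have h2 : ({C, D} : Finset (Finset V)) ⊆
      (FA B Z F {a, b}).filter (fun C => dv B Q C ≤ 3) := by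
    intro E hE
    rw [mem_insert, mem_singleton] at hE
    rw [mem_filter, mem_FA]
    have hEF : E ∈ F := by
      rcases hE with rfl | rfl
      · exact hC
      · exact hD
    refine ⟨⟨hEF, fun z hz hzE => ?_⟩, ?_⟩
    · rw [mem_insert, mem_singleton]
      by_contra hza
      push Not at hza
      have h3 := hcon z hz hza.1 hza.2
      rcases hE with rfl | rfl
      · rw [h3.1] at hzE
        exact absurd hzE (by simp)
      · rw [h3.2] at hzE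
        exact absurd hzE (by simp)
    · have := h.summary.2.2.1 E hEF
      linarith
  have h3 := card_le_card h2
  rw [card_pair hCD] at h3
  have h4 : ({a, b} : Finset V).card ≤ 2 := card_le_two
  omega

theorem Ct.ab1 (h : Ct B Q Z F i0) {C : Finset V} (hC : C ∈ F) {z : V} (hz : z ∈ Z)
    (he : 1 ≤ (Ez B C z).card) : Abz B C {z} :=
  (h.cp hC).pt1 (by have := h.summary.2.2.1 C hC; linarith) (h.ZQ hz) (h.notMem hC hz)
    (card_pos.1 he)

theorem Ct.ab2 (h : Ct B Q Z F i0) {C : Finset V} (hC : C ∈ F) {z z' : V} (hz : z ∈ Z)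
    (hz' : z' ∈ Z) (hne : z ≠ z') (he : 2 ≤ (Ez B C z).card) (he' : 2 ≤ (Ez B C z').card) :
    Abz B C {z, z'} :=
  (h.cp hC).pt2 (h.summary.2.2.1 C hC) (h.ZQ hz) (h.notMem hC hz) (h.ZQ hz') (h.notMem hC hz')
    hne he he'

theorem Ct.ab0 (h : Ct B Q Z F i0) {C : Finset V} (hC : C ∈ F) : Abz B C ∅ :=
  Abz.empty (h.cp hC).cov

theorem col3 (a3 a4 b1 b2 b3 b4 c1 c2 c3 c4 : ℕ) (r3 : a3 + b3 + c3 = 4) (r4 : a4 + b4 + c4 = 4)
    (sb1 : 1 ≤ b2 + b3 + b4) (sb2 : 1 ≤ b1 + b3 + b4) (sc1 : 1 ≤ c2 + c3 + c4)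
    (sc3 : 1 ≤ c1 + c2 + c4) (sc4 : 1 ≤ c1 + c2 + c3) (p12 : 1 ≤ b3 + b4 + c3 + c4) :
    (1 ≤ b3 ∧ 1 ≤ c4) ∨ (1 ≤ b4 ∧ 1 ≤ c3) ∨
    (2 ≤ a3 ∧ 1 ≤ b2 ∧ 1 ≤ c4) ∨ (2 ≤ a3 ∧ 1 ≤ b4 ∧ 1 ≤ c2) ∨
    (2 ≤ a3 ∧ 1 ≤ b4 ∧ 1 ≤ c1) ∨
    (2 ≤ a4 ∧ 1 ≤ b2 ∧ 1 ≤ c3) ∨ (2 ≤ a4 ∧ 1 ≤ b3 ∧ 1 ≤ c2) ∨
    (2 ≤ a4 ∧ 1 ≤ b3 ∧ 1 ≤ c1) ∨
    (2 ≤ b3 ∧ 2 ≤ b4) ∨ (2 ≤ c3 ∧ 2 ≤ c4) := by
  by_cases hA : b3 = 0 ∧ b4 = 0
  · obtain ⟨h1, h2⟩ := hA
    by_cases h3 : 2 ≤ c3 ∧ 2 ≤ c4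
    · exact Or.inr (Or.inr (Or.inr (Or.inr (Or.inr (Or.inr (Or.inr (Or.inr (Or.inr h3))))))))
    · by_cases h4 : 1 ≤ c4 ∧ c3 ≤ 1
      · exact Or.inr (Or.inr (Or.inl ⟨by omega, by omega, by omega⟩))
      · exact Or.inr (Or.inr (Or.inr (Or.inr (Or.inr (Or.inl ⟨by omega, by omega, by omega⟩)))))
  by_cases hB : c3 = 0 ∧ c4 = 0
  · obtain ⟨h1, h2⟩ := hB
    by_cases h3 : 2 ≤ b3 ∧ 2 ≤ b4
    · exact Or.inr (Or.inr (Or.inr (Or.inr (Or.inr (Or.inr (Or.inr (Or.inr (Or.inl h3))))))))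
    · by_cases h4 : 1 ≤ b4 ∧ b3 ≤ 1
      · exact Or.inr (Or.inr (Or.inr (Or.inl ⟨by omega, by omega, by omega⟩)))
      · exact Or.inr (Or.inr (Or.inr (Or.inr (Or.inr (Or.inr (Or.inl
          ⟨by omega, by omega, by omega⟩))))))
  by_cases hC : b3 = 0 ∧ c3 = 0
  · obtain ⟨h1, h2⟩ := hC
    by_cases h3 : 1 ≤ c2
    · exact Or.inr (Or.inr (Or.inr (Or.inl ⟨by omega, by omega, by omega⟩)))
    · exact Or.inr (Or.inr (Or.inr (Or.inr (Or.inl ⟨by omega, by omega, by omega⟩))))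
  by_cases hD : b4 = 0 ∧ c4 = 0
  · obtain ⟨h1, h2⟩ := hD
    by_cases h3 : 1 ≤ c2
    · exact Or.inr (Or.inr (Or.inr (Or.inr (Or.inr (Or.inr (Or.inl
          ⟨by omega, by omega, by omega⟩))))))
    · exact Or.inr (Or.inr (Or.inr (Or.inr (Or.inr (Or.inr (Or.inr (Or.inl
          ⟨by omega, by omega, by omega⟩)))))))
  by_cases h3 : 1 ≤ b3 ∧ 1 ≤ c4
  · exact Or.inl h3
  · exact Or.inr (Or.inl ⟨by omega, by omega⟩)

/-- the four points of `Z`. -/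
structure Four (Z : Finset V) (a b c d : V) : Prop where
  ma : a ∈ Z
  mb : b ∈ Z
  mc : c ∈ Z
  md : d ∈ Z
  ab : a ≠ b
  ac : a ≠ c
  ad : a ≠ d
  bc : b ≠ c
  bd : b ≠ d
  cd : c ≠ d
  cov : ∀ x ∈ Z, x = a ∨ x = b ∨ x = c ∨ x = d

theorem four_of {a b : V} (hc : Z.card = 4) (ha : a ∈ Z) (hb : b ∈ Z) (hab : a ≠ b) :
    ∃ c d, Four Z a b c d := by
  have h1 : ((Z.erase a).erase b).card = 2 := by
    rw [card_erase_of_mem (mem_erase.2 ⟨hab.symm, hb⟩), card_erase_of_mem ha, hc]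
  obtain ⟨c, d, hcd, h2⟩ := card_eq_two.1 h1
  have hc' : c ∈ (Z.erase a).erase b := by rw [h2]; simp
  have hd' : d ∈ (Z.erase a).erase b := by rw [h2]; simp
  simp only [mem_erase] at hc' hd'
  refine ⟨c, d, ha, hb, hc'.2.2, hd'.2.2, hab, fun h => hc'.2.1 h.symm, fun h => hd'.2.1 h.symm,
    fun h => hc'.1 h.symm, fun h => hd'.1 h.symm, hcd, fun x hx => ?_⟩
  by_cases h3 : x = a
  · exact Or.inl h3
  by_cases h4 : x = b
  · exact Or.inr (Or.inl h4)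
  have h5 : x ∈ (Z.erase a).erase b := mem_erase.2 ⟨h4, mem_erase.2 ⟨h3, hx⟩⟩
  rw [h2, mem_insert, mem_singleton] at h5
  exact Or.inr (Or.inr h5)

omit [DecidableEq V] in
theorem Four.swap {a b c d : V} (h : Four Z a b c d) : Four Z b a c d :=
  ⟨h.mb, h.ma, h.mc, h.md, h.ab.symm, h.bc, h.bd, h.ac, h.ad, h.cd,
    fun x hx => by have := h.cov x hx; tauto⟩

omit [DecidableEq V] in
theorem Four.rot {a b c d : V} (h : Four Z a b c d) : Four Z b c d a :=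
  ⟨h.mb, h.mc, h.md, h.ma, h.bc, h.bd, h.ab.symm, h.cd, h.ac.symm, h.ad.symm,
    fun x hx => by have := h.cov x hx; tauto⟩

theorem Ct.sup (h : Ct B Q Z F i0) {C : Finset V} (hC : C ∈ F) {a b c d : V}
    (h4 : Four Z a b c d) :
    1 ≤ (Ez B C b).card + (Ez B C c).card + (Ez B C d).card := by
  obtain ⟨x, hx, hxa, hE⟩ := h.two_att hC h4.ma
  have h1 := card_pos.2 hE
  rcases h4.cov x hx with rfl | rfl | rfl | rfl
  · exact absurd rfl hxa
  · omega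
  · omega
  · omega

theorem Ct.sup2 (h : Ct B Q Z F i0) {C D : Finset V} (hC : C ∈ F) (hD : D ∈ F) (hCD : C ≠ D)
    {a b c d : V} (h4 : Four Z a b c d) :
    1 ≤ (Ez B C c).card + (Ez B C d).card + (Ez B D c).card + (Ez B D d).card := by
  obtain ⟨x, hx, hxa, hxb, hE⟩ := h.pair_att hC hD hCD h4.ma h4.mb
  rcases h4.cov x hx with rfl | rfl | rfl | rfl
  · exact absurd rfl hxa
  · exact absurd rfl hxb
  · rcases hE with hE | hE
    · have := card_pos.2 hE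
      omega
    · have := card_pos.2 hE
      omega
  · rcases hE with hE | hE
    · have := card_pos.2 hE
      omega
    · have := card_pos.2 hE
      omega

/-- three components. -/
theorem Ct.t3 (h : Ct B Q Z F i0) (h3 : F.card = 3) : False := by
  classical
  obtain ⟨hb, _, hd, _⟩ := h.summary
  have hbig : ∀ z ∈ Z, ∃ C ∈ F, 2 ≤ (Ez B C z).card := by
    intro z hz
    by_contra hcon
    push Not at hcon
    have h1 := h.row_eq hb hz
    have h2 : ∑ C ∈ F, (Ez B C z).card ≤ ∑ C ∈ F, 1 :=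
      sum_le_sum fun C hC => by have := hcon C hC; omega
    rw [sum_const, smul_eq_mul, mul_one] at h2
    omega
  choose! g hg1 hg2 using hbig
  obtain ⟨z1, hz1, z2, hz2, h12, hg⟩ := exists_ne_map_eq_of_card_lt_of_maps_to
    (s := Z) (t := F) (by rw [h.cZ, h3]; norm_num) hg1
  obtain ⟨z3, z4, h4⟩ := four_of h.cZ hz1 hz2 h12
  obtain ⟨I, hI⟩ : ∃ I, I = g z1 := ⟨_, rfl⟩
  have hIF : I ∈ F := by rw [hI]; exact hg1 z1 hz1
  have h1 : (F.erase I).card = 2 := by rw [card_erase_of_mem hIF, h3]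
  obtain ⟨J, K, hJK, h2⟩ := card_eq_two.1 h1
  have hJ : J ∈ F.erase I := by rw [h2]; simp
  have hK : K ∈ F.erase I := by rw [h2]; simp
  rw [mem_erase] at hJ hK
  have hF : F = {I, J, K} := by rw [← insert_erase hIF, h2]
  have hIJ : I ≠ J := hJ.1.symm
  have hIK : I ≠ K := hK.1.symm
  have e1 : 2 ≤ (Ez B I z1).card := by rw [hI]; exact hg2 z1 hz1
  have e2 : 2 ≤ (Ez B I z2).card := by rw [hI, hg]; exact hg2 z2 hz2
  have hrow : ∀ z ∈ Z, (Ez B I z).card + (Ez B J z).card + (Ez B K z).card = 4 := by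
    intro z hz
    have h5 := h.row_eq hb hz
    rw [hF, sum_insert (by simp [hIJ, hIK]), sum_pair hJK] at h5
    omega
  have q1 := h.sup hJ.2 h4
  have q2 := h.sup hJ.2 h4.swap
  have q3 := h.sup hK.2 h4
  have q4 := h.sup hK.2 h4.rot.rot
  have q5 := h.sup hK.2 h4.rot.rot.rot
  have q6 := h.sup2 hJ.2 hK.2 hJK h4
  have r3 := hrow z3 h4.mc
  have r4 := hrow z4 h4.md
  have ha := h4.ab
  rcases col3 (Ez B I z3).card (Ez B I z4).card (Ez B J z1).card (Ez B J z2).card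
    (Ez B J z3).card (Ez B J z4).card (Ez B K z1).card (Ez B K z2).card (Ez B K z3).card
    (Ez B K z4).card r3 r4 q1 q2 q3 (by omega) (by omega) q6 with
    t | t | t | t | t | t | t | t | t | t
  · refine h.assign3 hF hIJ hIK hJK (h.ab2 hIF h4.ma h4.mb h4.ab e1 e2) (h.ab1 hJ.2 h4.mc t.1)
      (h.ab1 hK.2 h4.md t.2) fun z hz => ?_
    rcases h4.cov z hz with rfl | rfl | rfl | rfl <;> simp
  · refine h.assign3 hF hIJ hIK hJK (h.ab2 hIF h4.ma h4.mb h4.ab e1 e2) (h.ab1 hJ.2 h4.md t.1)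
      (h.ab1 hK.2 h4.mc t.2) fun z hz => ?_
    rcases h4.cov z hz with rfl | rfl | rfl | rfl <;> simp
  · refine h.assign3 hF hIJ hIK hJK (h.ab2 hIF h4.ma h4.mc h4.ac e1 t.1)
      (h.ab1 hJ.2 h4.mb t.2.1) (h.ab1 hK.2 h4.md t.2.2) fun z hz => ?_
    rcases h4.cov z hz with rfl | rfl | rfl | rfl <;> simp
  · refine h.assign3 hF hIJ hIK hJK (h.ab2 hIF h4.ma h4.mc h4.ac e1 t.1)
      (h.ab1 hJ.2 h4.md t.2.1) (h.ab1 hK.2 h4.mb t.2.2) fun z hz => ?_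
    rcases h4.cov z hz with rfl | rfl | rfl | rfl <;> simp
  · refine h.assign3 hF hIJ hIK hJK (h.ab2 hIF h4.mb h4.mc h4.bc e2 t.1)
      (h.ab1 hJ.2 h4.md t.2.1) (h.ab1 hK.2 h4.ma t.2.2) fun z hz => ?_
    rcases h4.cov z hz with rfl | rfl | rfl | rfl <;> simp
  · refine h.assign3 hF hIJ hIK hJK (h.ab2 hIF h4.ma h4.md h4.ad e1 t.1)
      (h.ab1 hJ.2 h4.mb t.2.1) (h.ab1 hK.2 h4.mc t.2.2) fun z hz => ?_
    rcases h4.cov z hz with rfl | rfl | rfl | rfl <;> simp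
  · refine h.assign3 hF hIJ hIK hJK (h.ab2 hIF h4.ma h4.md h4.ad e1 t.1)
      (h.ab1 hJ.2 h4.mc t.2.1) (h.ab1 hK.2 h4.mb t.2.2) fun z hz => ?_
    rcases h4.cov z hz with rfl | rfl | rfl | rfl <;> simp
  · refine h.assign3 hF hIJ hIK hJK (h.ab2 hIF h4.mb h4.md h4.bd e2 t.1)
      (h.ab1 hJ.2 h4.mc t.2.1) (h.ab1 hK.2 h4.ma t.2.2) fun z hz => ?_
    rcases h4.cov z hz with rfl | rfl | rfl | rfl <;> simp
  · refine h.assign3 hF hIJ hIK hJK (h.ab2 hIF h4.ma h4.mb h4.ab e1 e2)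
      (h.ab2 hJ.2 h4.mc h4.md h4.cd t.1 t.2) (h.ab0 hK.2) fun z hz => ?_
    rcases h4.cov z hz with rfl | rfl | rfl | rfl <;> simp
  · refine h.assign3 hF hIJ hIK hJK (h.ab2 hIF h4.ma h4.mb h4.ab e1 e2) (h.ab0 hJ.2)
      (h.ab2 hK.2 h4.mc h4.md h4.cd t.1 t.2) fun z hz => ?_
    rcases h4.cov z hz with rfl | rfl | rfl | rfl <;> simp

end Pool.Agent.Hyp6
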