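import Pool.Agent.Hyp6.CritLow2
import Pool.Agent.Hyp6.L4Z

/-!
# HYP6 QCLO: closures in a critical set

`Clo B C X F`: deleting `X` from `C` lowers the cover number by one, and `F` is the family of the
components of the rest, all of them critical. In a critical connected set such a system exists for
every set `P` inside a block, the components attached only inside a nonempty `A` do not absorb `A`,
and their number is smaller than `|A|`. If `sv B C = -1` there are exactly `|X| - 1` components, all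
with value `-1`.
-/

set_option autoImplicit false

namespace Pool.Agent.Hyp6

open Finset Pool.Agent.Hyp5

universe u v

section

variable {V : Type v} [DecidableEq V] {ι : Type u} [Fintype ι] {B : ι → Finset V}

/-- a set `X` lowering the cover number by one and the critical components of the rest. -/
structure Clo (B : ι → Finset V) (C X : Finset V) (F : Finset (Finset V)) : Prop where
  sub : X ⊆ C
  parts : ∀ L ∈ F, L ⊆ C \ X ∧ Closed (gr B) (C \ X) L ∧ Conn (gr B) L
  sep : SepF B F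
  un : F.biUnion id = C \ X
  crit : ∀ L ∈ F, Crit B L
  rhoX : rho B (C \ X) + 1 = rho B C

omit [Fintype ι] in
theorem Crit.sdiff {C : Finset V} (hcr : Crit B C) (hc : Cov B C) {P : Finset V} {i : ι}
    (hP : P ⊆ B i) (hPC : P ⊆ C) (hne : P.Nonempty) : rho B (C \ P) + 1 = rho B C := by
  obtain ⟨x, hx⟩ := hne
  have h1 : rho B (C \ P) ≤ rho B (C.erase x) := by
    refine rho_mono ?_ (hc.mono (erase_subset _ _))
    intro v hv
    rw [mem_sdiff] at hv
    exact mem_erase.2 ⟨fun h => hv.2 (h ▸ hx), hv.1⟩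
  have h2 := hcr x (hPC hx)
  have h3 := rho_le_sdiff (W := C) hP hc
  omega

/-- a critical set absorbs every point adjacent to it. -/
theorem Crit.pt1 {L : Finset V} (hcr : Crit B L) (hc : Cov B L) {z : V}
    (hE : (Ez B L z).Nonempty) : Abz B L {z} := by
  classical
  obtain ⟨i, hi⟩ := hE
  rw [mem_Ez] at hi
  obtain ⟨hzi, u, hu⟩ := hi
  rw [mem_inter] at hu
  obtain ⟨T, hT1, hT2⟩ := exists_cover (hc.mono (erase_subset u L))
  have h1 := hcr u hu.2
  refine ⟨insert i T, ?_, ?_⟩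
  · intro v hv
    rw [mem_union, mem_singleton] at hv
    rcases hv with hv | hv
    · by_cases hvu : v = u
      · rw [hvu]
        exact mem_biUnion.2 ⟨i, mem_insert_self _ _, hu.1⟩
      · obtain ⟨j, hj, hvj⟩ := mem_biUnion.1 (hT1 (mem_erase.2 ⟨hvu, hv⟩))
        exact mem_biUnion.2 ⟨j, mem_insert_of_mem hj, hvj⟩
    · rw [hv]
      exact mem_biUnion.2 ⟨i, mem_insert_self _ _, hzi⟩
  · have h2 := card_insert_le i T
    omega

/-- in a critical set every block meeting it is in an optimal cover. -/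
theorem Crit.blkT {L : Finset V} (hcr : Crit B L) (hc : Cov B L) {i : ι}
    (hi : (B i ∩ L).Nonempty) : ∃ T : Finset ι, L ⊆ T.biUnion B ∧ T.card ≤ rho B L ∧ i ∈ T := by
  classical
  obtain ⟨u, hu⟩ := hi
  rw [mem_inter] at hu
  obtain ⟨T, hT1, hT2⟩ := exists_cover (hc.mono (erase_subset u L))
  have h1 := hcr u hu.2
  refine ⟨insert i T, ?_, ?_, mem_insert_self _ _⟩
  · intro v hv
    by_cases hvu : v = u
    · rw [hvu]
      exact mem_biUnion.2 ⟨i, mem_insert_self _ _, hu.1⟩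
    · obtain ⟨j, hj, hvj⟩ := mem_biUnion.1 (hT1 (mem_erase.2 ⟨hvu, hv⟩))
      exact mem_biUnion.2 ⟨j, mem_insert_of_mem hj, hvj⟩
  · have h2 := card_insert_le i T
    omega

/-- closures exist. -/
theorem exists_clo {C : Finset V} (hcr : Crit B C) (hc : Cov B C) {P : Finset V} {i : ι}
    (hP : P ⊆ B i) (hPC : P ⊆ C) (hne : P.Nonempty) : ∃ X F, P ⊆ X ∧ Clo B C X F := by
  classical
  obtain ⟨X, hXm, hXmax⟩ := exists_max_image
    (C.powerset.filter (fun X => P ⊆ X ∧ rho B (C \ X) + 1 = rho B C)) card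
    ⟨P, mem_filter.2 ⟨mem_powerset.2 hPC, Subset.refl _, hcr.sdiff hc hP hPC hne⟩⟩
  rw [mem_filter, mem_powerset] at hXm
  obtain ⟨hXC, hPX, hrho⟩ := hXm
  obtain ⟨F, hF1, hF2, hF3⟩ := exists_parts B (C \ X)
  refine ⟨X, F, hPX, hXC, hF1, hF2, hF3, ?_, hrho⟩
  intro L hL x hx
  have hcL : Cov B L := hc.mono ((hF1 L hL).1.trans sdiff_subset)
  have h1 := rho_erase_le (B := B) (x := x) hcL
  have h2 := rho_le_erase (B := B) (x := x) hcL
  by_contra hcon
  have h3 : rho B (L.erase x) = rho B L := by omega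
  have hxCX : x ∈ C \ X := (hF1 L hL).1 hx
  rw [mem_sdiff] at hxCX
  -- the rest
  set R := (F.erase L).biUnion id with hR
  have hRC : R ⊆ C \ X := by
    rw [← hF3]
    exact biUnion_subset_biUnion_of_subset_left _ (erase_subset _ _)
  have hun : C \ X = L ∪ R := by
    rw [← hF3]
    conv_lhs => rw [← insert_erase hL]
    rw [biUnion_insert]
    simp only [id]
    rfl
  have hsepLR : Sep B L R := by
    refine sep_biUnion fun D hD => ?_
    rw [mem_erase] at hD
    exact (hF2 L hL D hD.2 hD.1.symm).2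
  have hcR : Cov B R := hc.mono (hRC.trans sdiff_subset)
  have h4 : rho B (C \ X) = rho B L + rho B R := by
    rw [hun, rho_add hcL hcR hsepLR]
  have hdis : Disjoint L R := by
    refine disjoint_biUnion fun D hD => ?_
    rw [mem_erase] at hD
    exact (hF2 L hL D hD.2 hD.1.symm).1
  have h5 : C \ insert x X = L.erase x ∪ R := by
    rw [sdiff_insert, hun]
    ext v
    simp only [mem_erase, mem_union]
    constructor
    · rintro ⟨ha, hb | hb⟩
      · exact Or.inl ⟨ha, hb⟩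
      · exact Or.inr hb
    · rintro (⟨ha, hb⟩ | hb)
      · exact ⟨ha, Or.inl hb⟩
      · refine ⟨?_, Or.inr hb⟩
        rintro rfl
        exact disjoint_left.1 hdis hx hb
  have h6 : rho B (C \ insert x X) + 1 = rho B C := by
    rw [h5, rho_add (hcL.mono (erase_subset _ _)) hcR (hsepLR.mono (erase_subset _ _)
      (Subset.refl _)), h3, ← h4]
    exact hrho
  have h7 := hXmax (insert x X) (mem_filter.2 ⟨mem_powerset.2 (insert_subset hxCX.1 hXC),
    hPX.trans (subset_insert _ _), h6⟩)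
  rw [card_insert_of_notMem hxCX.2] at h7
  omega

variable {C X : Finset V} {F : Finset (Finset V)}

theorem Clo.subC (h : Clo B C X F) {L : Finset V} (hL : L ∈ F) : L ⊆ C :=
  (h.parts L hL).1.trans sdiff_subset

theorem Clo.notMem (h : Clo B C X F) {L : Finset V} (hL : L ∈ F) {z : V} (hz : z ∈ X) :
    z ∉ L := fun hzL => (mem_sdiff.1 ((h.parts L hL).1 hzL)).2 hz

theorem Clo.sum_rho (h : Clo B C X F) (hc : Cov B C) :
    rho B (C \ X) = ∑ L ∈ F, rho B L := by
  rw [← h.un]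
  exact rho_biUnion (fun L hL => hc.mono (h.subC hL)) h.sep

/-- a component is attached to `X`. -/
theorem Clo.att (h : Clo B C X F) (hC : Conn (gr B) C) (hX : X.Nonempty) {L : Finset V}
    (hL : L ∈ F) : ∃ z ∈ X, (Ez B L z).Nonempty := by
  have hne : L ≠ C := by
    rintro rfl
    obtain ⟨z, hz⟩ := hX
    exact h.notMem hL hz (h.sub hz)
  obtain ⟨x, hx, y, hy, hyL, hadj⟩ := hC.exists_edge (h.subC hL) (h.parts L hL).2.2.1 hne
  have hyX : y ∈ X := by
    by_contra hyX
    exact hyL ((h.parts L hL).2.1.2 x hx y (mem_sdiff.2 ⟨hy, hyX⟩) hadj)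
  obtain ⟨_, i, hi1, hi2⟩ := hadj
  exact ⟨y, hyX, i, mem_Ez.2 ⟨hi2, x, mem_inter.2 ⟨hi1, hx⟩⟩⟩

/-- no block meets a component attached only inside `A` and the rest. -/
theorem Clo.sep_FA (h : Clo B C X F) (A : Finset V) :
    Sep B ((FA B X F A).biUnion id) (C \ ((FA B X F A).biUnion id ∪ A)) := by
  intro i hi hj
  obtain ⟨u, hu⟩ := hi
  obtain ⟨m, hm⟩ := hj
  rw [mem_inter, mem_biUnion] at hu
  obtain ⟨hui, L, hL, huL⟩ := hu
  rw [mem_inter, mem_sdiff, mem_union, not_or] at hm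
  obtain ⟨hmi, hmC, hmN, hmA⟩ := hm
  have hLF := (mem_FA.1 hL).1
  by_cases hmX : m ∈ X
  · exact hmA ((mem_FA.1 hL).2 m hmX ⟨i, mem_Ez.2 ⟨hmi, u, mem_inter.2 ⟨hui, huL⟩⟩⟩)
  · have hmL : m ∈ L := by
      by_cases hum : u = m
      · rw [← hum]
        exact huL
      · exact (h.parts L hLF).2.1.2 u huL m (mem_sdiff.2 ⟨hmC, hmX⟩) ⟨hum, i, hui, hmi⟩
    exact hmN (mem_biUnion.2 ⟨L, hL, hmL⟩)

/-- in a critical set no nonempty set `A` is absorbed by the components attached only inside it. -/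
theorem Clo.not_JA (h : Clo B C X F) (hcr : Crit B C) (hc : Cov B C) {A : Finset V} (hA : A ⊆ X)
    (hne : A.Nonempty) : ¬ JA B (FA B X F A) A := by
  classical
  rintro ⟨T, hT, hTc⟩
  set L := FA B X F A with hL
  set N := L.biUnion id with hN
  set M := C \ (N ∪ A) with hM
  have hLF : L ⊆ F := fun D hD => (mem_FA.1 hD).1
  have hNC : N ⊆ C := by
    intro v hv
    obtain ⟨D, hD, hvD⟩ := mem_biUnion.1 hv
    exact h.subC (hLF hD) hvD
  have hAC : A ⊆ C := hA.trans h.sub
  have hrN : rho B N = ∑ D ∈ L, rho B D :=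
    rho_biUnion (fun D hD => hc.mono (h.subC (hLF hD))) (h.sep.mono hLF)
  have h1 : rho B C ≤ rho B (N ∪ A) + rho B M := by
    have h2 : C = (N ∪ A) ∪ M := by
      rw [hM, union_sdiff_of_subset (union_subset hNC hAC)]
    conv_lhs => rw [h2]
    exact rho_union_le (hc.mono (union_subset hNC hAC)) (hc.mono sdiff_subset)
  have h3 : rho B (N ∪ A) ≤ ∑ D ∈ L, rho B D := (Hyp6.rho_le hT).trans hTc
  obtain ⟨x, hx⟩ := hne
  have h4 : rho B N + rho B M ≤ rho B (C.erase x) := by
    rw [← rho_add (hc.mono hNC) (hc.mono sdiff_subset) (h.sep_FA A)]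
    refine rho_mono ?_ (hc.mono (erase_subset _ _))
    intro v hv
    rw [mem_erase]
    rcases mem_union.1 hv with hv | hv
    · refine ⟨?_, hNC hv⟩
      rintro rfl
      obtain ⟨D, hD, hvD⟩ := mem_biUnion.1 hv
      exact h.notMem (hLF hD) (hA hx) hvD
    · rw [mem_sdiff, mem_union, not_or] at hv
      refine ⟨?_, hv.1⟩
      rintro rfl
      exact hv.2.2 hx
  have h5 := hcr x (hAC hx)
  omega

/-- fewer than `|A|` components are attached only inside `A`. -/
theorem Clo.card_FA_lt (h : Clo B C X F) (hcr : Crit B C) (hc : Cov B C) (hC : Conn (gr B) C) :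
    ∀ {A : Finset V}, A ⊆ X → A.Nonempty → (FA B X F A).card < A.card := by
  classical
  intro A
  induction A using Finset.strongInduction with
  | H A ihA =>
    intro hA hne
    by_contra hcon
    push Not at hcon
    set t : {z // z ∈ A} → Finset (Finset V) := fun z =>
      (FA B X F A).filter (fun D => (Ez B D z.1).Nonempty) with ht
    have hall : ∀ s : Finset {z // z ∈ A}, s.card ≤ (s.biUnion t).card := by
      intro s
      rcases s.eq_empty_or_nonempty with rfl | hs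
      · simp
      set S : Finset V := s.map (Function.Embedding.subtype _) with hS
      have hSc : S.card = s.card := card_map _
      have hSA : S ⊆ A := by
        intro v hv
        rw [hS, mem_map] at hv
        obtain ⟨w, _, rfl⟩ := hv
        exact w.2
      have hSne : S.Nonempty := by
        rw [← card_pos, hSc]
        exact card_pos.2 hs
      have h1 : FA B X F A ⊆ s.biUnion t ∪ FA B X F (A \ S) := by
        intro D hD
        by_cases h2 : ∃ z ∈ S, (Ez B D z).Nonempty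
        · obtain ⟨z, hz, hzE⟩ := h2
          rw [hS, mem_map] at hz
          obtain ⟨w, hw, rfl⟩ := hz
          refine mem_union_left _ (mem_biUnion.2 ⟨w, hw, ?_⟩)
          rw [ht]
          exact mem_filter.2 ⟨hD, hzE⟩
        · push Not at h2
          refine mem_union_right _ ?_
          rw [mem_FA] at hD ⊢
          refine ⟨hD.1, fun z hz hzE => mem_sdiff.2 ⟨hD.2 z hz hzE, fun hzS => ?_⟩⟩
          rw [h2 z hzS] at hzE
          exact absurd hzE (by simp)
      have h2 := (card_le_card h1).trans (card_union_le _ _)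
      have h3 := card_sdiff_add_card_eq_card hSA
      rcases (A \ S).eq_empty_or_nonempty with h4 | h4
      · have h5 : FA B X F (A \ S) = ∅ := by
          rw [eq_empty_iff_forall_notMem]
          intro D hD
          rw [mem_FA] at hD
          obtain ⟨z, hz, hzE⟩ := h.att hC (hne.mono hA) hD.1
          have := hD.2 z hz hzE
          rw [h4] at this
          exact absurd this (notMem_empty _)
        rw [h5, card_empty] at h2
        rw [h4, card_empty] at h3
        omega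
      · have h5 : A \ S ⊂ A := by
          refine ⟨sdiff_subset, fun hcon2 => ?_⟩
          obtain ⟨z, hz⟩ := hSne
          exact (mem_sdiff.1 (hcon2 (hSA hz))).2 hz
        have h6 := ihA (A \ S) h5 (sdiff_subset.trans hA) h4
        omega
    obtain ⟨f, hf1, hf2⟩ := (all_card_le_biUnion_card_iff_exists_injective t).1 hall
    refine h.not_JA hcr hc hA hne
      (JA_of (fun D => A.filter (fun z => ∃ hz : z ∈ A, f ⟨z, hz⟩ = D)) ?_ ?_)
    · intro D hD
      have hDF := (mem_FA.1 hD).1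
      rcases (A.filter (fun z => ∃ hz : z ∈ A, f ⟨z, hz⟩ = D)).eq_empty_or_nonempty with h1 | h1
      · rw [h1]
        exact Abz.empty (hc.mono (h.subC hDF))
      · obtain ⟨z, hz⟩ := h1
        obtain ⟨hzA, _, hfz⟩ := mem_filter.1 hz
        have h2 : A.filter (fun z => ∃ hz : z ∈ A, f ⟨z, hz⟩ = D) ⊆ {z} := by
          intro y hy
          obtain ⟨hyA, _, hfy⟩ := mem_filter.1 hy
          rw [mem_singleton]
          have := hf1 (hfy.trans hfz.symm)
          exact congrArg Subtype.val this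
        have h3 := hf2 ⟨z, hzA⟩
        rw [hfz, ht] at h3
        exact ((h.crit D hDF).pt1 (hc.mono (h.subC hDF)) (mem_filter.1 h3).2).mono h2
    · intro z hz
      refine mem_biUnion.2 ⟨f ⟨z, hz⟩, ?_, mem_filter.2 ⟨hz, hz, rfl⟩⟩
      exact (mem_filter.1 (hf2 ⟨z, hz⟩)).1

theorem FA_self : FA B X F X = F := by
  ext D
  rw [mem_FA]
  exact ⟨fun h => h.1, fun h => ⟨h, fun z hz _ => hz⟩⟩

/-- `X` is not absorbed by the components. -/
theorem Clo.not_JA_X (h : Clo B C X F) (hcr : Crit B C) (hc : Cov B C) (hX : X.Nonempty) :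
    ¬ JA B F X := by
  have h1 := h.not_JA hcr hc (Subset.refl X) hX
  rwa [FA_self] at h1

open Classical in
/-- the points of `X` seen by the family `S`. -/
noncomputable def nbX (B : ι → Finset V) (X : Finset V) (S : Finset (Finset V)) : Finset V :=
  X.filter (fun z => ∃ L ∈ S, (Ez B L z).Nonempty)

theorem mem_nbX {S : Finset (Finset V)} {z : V} :
    z ∈ nbX B X S ↔ z ∈ X ∧ ∃ L ∈ S, (Ez B L z).Nonempty := by
  unfold nbX
  rw [mem_filter]

/-- Hall's condition with surplus one. -/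
theorem Clo.hall (h : Clo B C X F) (hcr : Crit B C) (hc : Cov B C) (hC : Conn (gr B) C)
    (hX : X.Nonempty) {S : Finset (Finset V)} (hS : S ⊆ F) (hne : S.Nonempty) :
    S.card + 1 ≤ (nbX B X S).card := by
  have h1 : S ⊆ FA B X F (nbX B X S) := by
    intro L hL
    rw [mem_FA]
    exact ⟨hS hL, fun z hz hzE => mem_nbX.2 ⟨hz, L, hL, hzE⟩⟩
  have h2 : (nbX B X S).Nonempty := by
    obtain ⟨L, hL⟩ := hne
    obtain ⟨z, hz, hzE⟩ := h.att hC hX (hS hL)
    exact ⟨z, mem_nbX.2 ⟨hz, L, hL, hzE⟩⟩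
  have h3 := h.card_FA_lt hcr hc hC (fun z hz => (mem_nbX.1 hz).1) h2
  have h4 := card_le_card h1
  omega

/-- a connected critical set has value at least `-1`. -/
theorem crit_sv_ge_cov {Q : Finset V} (hc : Cov B Q) (hQ : Conn (gr B) Q) (hcr : Crit B Q) :
    -1 ≤ sv B Q := by
  by_contra hcon
  push Not at hcon
  have h1 := (crit_low hc hQ hcr (by linarith)).2
  linarith

/-- the number of the components and their values. -/
theorem Clo.card_eq (h : Clo B C X F) (hcr : Crit B C) (hc : Cov B C) (hC : Conn (gr B) C)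
    (hs : sv B C = -1) (hX : X.Nonempty) :
    F.card + 1 = X.card ∧ ∀ L ∈ F, sv B L = -1 := by
  have h1 := h.card_FA_lt hcr hc hC (Subset.refl X) hX
  rw [FA_self] at h1
  have h2 : ∑ L ∈ F, sv B L = sv B (C \ X) := by
    rw [← h.un]
    exact (sv_biUnion (fun L hL => hc.mono (h.subC hL)) h.sep).symm
  have h3 : sv B (C \ X) = 1 - X.card := by
    have h4 := card_sdiff_add_card_eq_card h.sub
    have h5 := h.rhoX
    unfold sv at hs ⊢
    have h6 : ((C \ X).card : ℤ) + X.card = C.card := by exact_mod_cast h4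
    have h7 : (rho B (C \ X) : ℤ) + 1 = rho B C := by exact_mod_cast h5
    linarith
  have hge : ∀ L ∈ F, -1 ≤ sv B L := fun L hL =>
    crit_sv_ge_cov (hc.mono (h.subC hL)) (h.parts L hL).2.2 (h.crit L hL)
  have h8 : ∑ L ∈ F, (-1 : ℤ) ≤ ∑ L ∈ F, sv B L := sum_le_sum hge
  rw [sum_const, nsmul_eq_mul, h2, h3] at h8
  have h9 : (F.card : ℤ) + 1 ≤ X.card := by exact_mod_cast h1
  have h10 : (F.card : ℤ) + 1 = X.card := by linarith
  refine ⟨by exact_mod_cast h10, ?_⟩
  have h11 : ∑ L ∈ F, (-1 : ℤ) = ∑ L ∈ F, sv B L := by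
    rw [sum_const, nsmul_eq_mul, h2, h3]
    linarith
  intro L hL
  exact ((sum_eq_sum_iff_of_le hge).1 h11 L hL).symm

theorem Clo.sum_Pv (h : Clo B C X F) (hc : Cov B C) :
    ∑ L ∈ F, Pv B L = Pv B C + 24 - 5 * (X.card : ℤ) - 4 * ((ins B C X).card : ℤ) := by
  have h1 := Pv_sdiff (B := B) h.sub
  have h2 : ∑ L ∈ F, Pv B L = Pv B (C \ X) := by
    rw [← h.un]
    exact (Pv_biUnion (fun L hL => hc.mono (h.subC hL)) h.sep).symm
  have h3 : (rho B (C \ X) : ℤ) + 1 = rho B C := by exact_mod_cast h.rhoX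
  rw [h2]
  linarith


/-- the five blocks of a point of `X`. -/
theorem Clo.row (h : Clo B C X F) (hr : Reg B C) {z : V} (hz : z ∈ X) :
    ∑ L ∈ F, (Ez B L z).card + ((ins B C X).filter (fun i => z ∈ B i)).card = 5 := by
  classical
  rw [← hr z (h.sub hz)]
  have h1 : (F.biUnion (fun L => Ez B L z)).card = ∑ L ∈ F, (Ez B L z).card := by
    rw [card_biUnion]
    intro L hL D hD hne
    rw [Function.onFun, disjoint_left]
    intro i hi hi2
    exact (h.sep L hL D hD hne).2 i (mem_Ez.1 hi).2 (mem_Ez.1 hi2).2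
  rw [← h1, ← card_union_of_disjoint]
  · congr 1
    ext i
    rw [mem_union, mem_biUnion, mem_filter, mem_filter, mem_ins]
    constructor
    · rintro (⟨L, _, hi⟩ | ⟨_, hi⟩)
      · exact ⟨mem_univ _, (mem_Ez.1 hi).1⟩
      · exact ⟨mem_univ _, hi⟩
    · rintro ⟨_, hi⟩
      by_cases h2 : B i ∩ C ⊆ X
      · exact Or.inr ⟨⟨⟨z, mem_inter.2 ⟨hi, h.sub hz⟩⟩, h2⟩, hi⟩
      · left
        rw [not_subset] at h2
        obtain ⟨v, hv, hvX⟩ := h2
        rw [mem_inter] at hv
        have h3 : v ∈ F.biUnion id := by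
          rw [h.un]
          exact mem_sdiff.2 ⟨hv.2, hvX⟩
        obtain ⟨L, hL, hvL⟩ := mem_biUnion.1 h3
        exact ⟨L, hL, mem_Ez.2 ⟨hi, v, mem_inter.2 ⟨hv.1, hvL⟩⟩⟩
  · rw [disjoint_left]
    intro i hi hi2
    obtain ⟨L, hL, hiL⟩ := mem_biUnion.1 hi
    rw [mem_filter, mem_ins] at hi2
    obtain ⟨v, hv⟩ := (mem_Ez.1 hiL).2
    rw [mem_inter] at hv
    have h3 := (h.parts L hL).1 hv.2
    exact (mem_sdiff.1 h3).2 (hi2.1.2 (mem_inter.2 ⟨hv.1, (mem_sdiff.1 h3).1⟩))

/-- a block meeting a component and `X`: it meets no other component. -/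
theorem Clo.sub_of_mem (h : Clo B C X F) {L : Finset V} (hL : L ∈ F) {i : ι}
    (hi : (B i ∩ L).Nonempty) : B i ∩ C ⊆ X ∪ L := by
  intro v hv
  rw [mem_inter] at hv
  rw [mem_union]
  by_cases hvX : v ∈ X
  · exact Or.inl hvX
  · right
    obtain ⟨u, hu⟩ := hi
    rw [mem_inter] at hu
    by_cases huv : u = v
    · rw [← huv]
      exact hu.2
    · exact (h.parts L hL).2.1.2 u hu.2 v (mem_sdiff.2 ⟨hv.2, hvX⟩) ⟨huv, i, hu.1, hv.1⟩

section types

variable {M L K : Finset V}

theorem Clo.assign2 (h : Clo B C X {M, L}) (hcr : Crit B C) (hc : Cov B C) (hX : X.Nonempty)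
    (hne : M ≠ L) {SM SL : Finset V} (hM : Abz B M SM) (hL : Abz B L SL)
    (hZ : X ⊆ SM ∪ SL) : False := by
  classical
  obtain ⟨f, h1, h2⟩ : ∃ f : Finset V → Finset V, f M = SM ∧ f L = SL :=
    ⟨fun C => if C = M then SM else SL, if_pos rfl, by simp [hne.symm]⟩
  refine h.not_JA_X hcr hc hX (JA_of f ?_ ?_)
  · intro D hD
    rw [mem_insert, mem_singleton] at hD
    rcases hD with rfl | rfl
    · rw [h1]
      exact hM
    · rw [h2]
      exact hL
  · intro z hz
    rw [mem_biUnion]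
    rcases mem_union.1 (hZ hz) with h4 | h4
    · exact ⟨M, by simp, by rw [h1]; exact h4⟩
    · exact ⟨L, by simp, by rw [h2]; exact h4⟩

theorem Clo.assign3 (h : Clo B C X {M, L, K}) (hcr : Crit B C) (hc : Cov B C) (hX : X.Nonempty)
    (hML : M ≠ L) (hMK : M ≠ K) (hLK : L ≠ K) {SM SL SK : Finset V} (hM : Abz B M SM)
    (hL : Abz B L SL) (hK : Abz B K SK) (hZ : X ⊆ SM ∪ SL ∪ SK) : False := by
  classical
  obtain ⟨f, h1, h2, h3⟩ : ∃ f : Finset V → Finset V, f M = SM ∧ f L = SL ∧ f K = SK :=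
    ⟨fun C => if C = M then SM else if C = L then SL else SK, if_pos rfl, by simp [hML.symm],
      by simp [hMK.symm, hLK.symm]⟩
  refine h.not_JA_X hcr hc hX (JA_of f ?_ ?_)
  · intro D hD
    rw [mem_insert, mem_insert, mem_singleton] at hD
    rcases hD with rfl | rfl | rfl
    · rw [h1]
      exact hM
    · rw [h2]
      exact hL
    · rw [h3]
      exact hK
  · intro z hz
    rw [mem_biUnion]
    rcases mem_union.1 (hZ hz) with h4 | h4
    · rcases mem_union.1 h4 with h4 | h4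
      · exact ⟨M, by simp, by rw [h1]; exact h4⟩
      · exact ⟨L, by simp, by rw [h2]; exact h4⟩
    · exact ⟨K, by simp, by rw [h3]; exact h4⟩

end types

omit [Fintype ι] in
/-- a proper component of a K-free set. -/
theorem Pv_odd [Fintype ι] {Q : Finset V} (hs : sv B Q = -1) : ∃ k : ℤ, Pv B Q = 2 * k + 1 := by
  unfold sv at hs
  refine ⟨5 * (rho B Q : ℤ) - 3 + 2 * cm B Q - 12 * rho B Q, ?_⟩
  rw [Pv_eq]
  linarith


theorem Clo.Pv_ge (hT : ∀ n, IH4.{u} V n) (h : Clo B C X F) (hr : Reg B C) (h4 : Tr4 B C)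
    (hk : KFree B C) {L : Finset V} (hL : L ∈ F) : -1 ≤ Pv B L := by
  have h1 := hT (L.card + 1) ι B L (Nat.lt_succ_self _) (hr.mono (h.subC hL))
    (h4.mono (h.subC hL)) (h.parts L hL).2.2 (hk.mono (h.subC hL))
  have h2 : (0 : ℤ) ≤ ee B L L := by positivity
  linarith

/-- the four types of closures. -/
theorem Clo.types (hT : ∀ n, IH4.{u} V n) (h : Clo B C X F) (hr : Reg B C) (h4 : Tr4 B C)
    (hk : KFree B C) (hC : Conn (gr B) C) (hcr : Crit B C) (hP : Pv B C = -1)
    (hs : sv B C = -1) {i : ι} (hi : B i ∩ C ⊆ X) (hi3 : 3 ≤ (B i ∩ C).card) :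
    (X = B i ∩ C ∧ X.card = 3 ∧ (ins B C X).card = 1 ∧
      ∃ M L, M ≠ L ∧ F = {M, L} ∧ Pv B M = -1 ∧ Pv B L = 5) ∨
    (X = B i ∩ C ∧ X.card = 3 ∧ (ins B C X).card = 1 ∧
      ∃ M L, M ≠ L ∧ F = {M, L} ∧ Pv B M = 1 ∧ Pv B L = 3) ∨
    (X = B i ∩ C ∧ X.card = 3 ∧ (ins B C X).card = 2 ∧
      ∃ M L, M ≠ L ∧ F = {M, L} ∧ Pv B M = -1 ∧ Pv B L = 1) ∨
    (X.card = 4 ∧ (ins B C X).card = 1 ∧ ∃ M1 M2 L, M1 ≠ M2 ∧ M1 ≠ L ∧ M2 ≠ L ∧
      F = {M1, M2, L} ∧ Pv B M1 = -1 ∧ Pv B M2 = -1 ∧ Pv B L = 1) := by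
  classical
  have hc : Cov B C := cov_of_reg hr
  have hX3 : 3 ≤ X.card := hi3.trans (card_le_card hi)
  have hXne : X.Nonempty := card_pos.1 (by omega)
  obtain ⟨hFc, hsv⟩ := h.card_eq hcr hc hC hs hXne
  have hsum := h.sum_Pv hc
  have hge : ∀ L ∈ F, -1 ≤ Pv B L := fun L hL => h.Pv_ge hT hr h4 hk hL
  have hn : 1 ≤ (ins B C X).card :=
    card_pos.2 ⟨i, mem_ins.2 ⟨card_pos.1 (by omega), hi⟩⟩
  have h1 : ∑ L ∈ F, (-1 : ℤ) ≤ ∑ L ∈ F, Pv B L := sum_le_sum hge
  rw [sum_const, nsmul_eq_mul, hsum, hP] at h1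
  have h2 : (F.card : ℤ) + 1 = X.card := by exact_mod_cast hFc
  have h3 : X.card + (ins B C X).card ≤ 5 := by
    have : (X.card : ℤ) + (ins B C X).card ≤ 5 := by
      have h5 : 4 * ((X.card : ℤ) + (ins B C X).card) ≤ 22 := by linarith
      omega
    exact_mod_cast this
  have hodd : ∀ L ∈ F, ∃ k : ℤ, Pv B L = 2 * k + 1 := fun L hL => Pv_odd (hsv L hL)
  have hXB : X.card = 3 → X = B i ∩ C := fun h5 =>
    (eq_of_subset_of_card_le hi (by omega)).symm
  rcases (by omega : X.card = 3 ∨ X.card = 4) with h5 | h5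
  · have h6 : F.card = 2 := by omega
    obtain ⟨M, L, hML, hFe⟩ := card_eq_two.1 h6
    have hMF : M ∈ F := by rw [hFe]; simp
    have hLF : L ∈ F := by rw [hFe]; simp
    obtain ⟨a, ha⟩ := hodd M hMF
    obtain ⟨b, hb⟩ := hodd L hLF
    have h7 := hge M hMF
    have h8 := hge L hLF
    have h9 : ∑ D ∈ F, Pv B D = Pv B M + Pv B L := by
      rw [hFe, sum_pair hML]
    rw [h9, hP, h5] at hsum
    push_cast at hsum
    rcases (by omega : (ins B C X).card = 1 ∨ (ins B C X).card = 2) with h10 | h10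
    · rw [h10] at hsum
      push_cast at hsum
      rcases (by omega : (Pv B M = -1 ∧ Pv B L = 5) ∨ (Pv B M = 1 ∧ Pv B L = 3) ∨
          (Pv B L = 1 ∧ Pv B M = 3) ∨ (Pv B L = -1 ∧ Pv B M = 5)) with h11 | h11 | h11 | h11
      · exact Or.inl ⟨hXB h5, h5, h10, M, L, hML, hFe, h11.1, h11.2⟩
      · exact Or.inr (Or.inl ⟨hXB h5, h5, h10, M, L, hML, hFe, h11.1, h11.2⟩)
      · exact Or.inr (Or.inl ⟨hXB h5, h5, h10, L, M, hML.symm, by rw [hFe, pair_comm], h11.1,
          h11.2⟩)
      · exact Or.inl ⟨hXB h5, h5, h10, L, M, hML.symm, by rw [hFe, pair_comm], h11.1, h11.2⟩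
    · rw [h10] at hsum
      push_cast at hsum
      rcases (by omega : (Pv B M = -1 ∧ Pv B L = 1) ∨ (Pv B L = -1 ∧ Pv B M = 1)) with h11 | h11
      · exact Or.inr (Or.inr (Or.inl ⟨hXB h5, h5, h10, M, L, hML, hFe, h11.1, h11.2⟩))
      · exact Or.inr (Or.inr (Or.inl ⟨hXB h5, h5, h10, L, M, hML.symm, by rw [hFe, pair_comm],
          h11.1, h11.2⟩))
  · have h6 : F.card = 3 := by omega
    have h10 : (ins B C X).card = 1 := by omega
    obtain ⟨M, L, K, hML, hMK, hLK, hFe⟩ := card_eq_three.1 h6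
    have hMF : M ∈ F := by rw [hFe]; simp
    have hLF : L ∈ F := by rw [hFe]; simp
    have hKF : K ∈ F := by rw [hFe]; simp
    obtain ⟨a, ha⟩ := hodd M hMF
    obtain ⟨b, hb⟩ := hodd L hLF
    obtain ⟨c, hc'⟩ := hodd K hKF
    have h7 := hge M hMF
    have h8 := hge L hLF
    have h9 := hge K hKF
    have h11 : ∑ D ∈ F, Pv B D = Pv B M + Pv B L + Pv B K := by
      rw [hFe, sum_insert (by simp [hML, hMK]), sum_pair hLK]
      ring
    rw [h11, hP, h5, h10] at hsum
    push_cast at hsum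
    refine Or.inr (Or.inr (Or.inr ⟨h5, h10, ?_⟩))
    rcases (by omega : (Pv B M = -1 ∧ Pv B L = -1 ∧ Pv B K = 1) ∨
        (Pv B M = -1 ∧ Pv B K = -1 ∧ Pv B L = 1) ∨ (Pv B L = -1 ∧ Pv B K = -1 ∧ Pv B M = 1))
      with h12 | h12 | h12
    · exact ⟨M, L, K, hML, hMK, hLK, hFe, h12.1, h12.2.1, h12.2.2⟩
    · refine ⟨M, K, L, hMK, hML, hLK.symm, ?_, h12.1, h12.2.1, h12.2.2⟩
      rw [hFe]
      ext D
      simp only [mem_insert, mem_singleton]
      tauto
    · refine ⟨L, K, M, hLK, hML.symm, hMK.symm, ?_, h12.1, h12.2.1, h12.2.2⟩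
      rw [hFe]
      ext D
      simp only [mem_insert, mem_singleton]
      tauto

/-- the only block inside `X`. -/
theorem ins_eq_singleton {i : ι} (hn : (ins B C X).card = 1) (hi : B i ∩ C ⊆ X)
    (hne : (B i ∩ C).Nonempty) : ins B C X = {i} := by
  obtain ⟨j, hj⟩ := card_eq_one.1 hn
  have h1 : i ∈ ins B C X := mem_ins.2 ⟨hne, hi⟩
  rw [hj, mem_singleton] at h1
  rw [hj, h1]

/-- the rows if only the block `i` is inside `X`. -/
theorem Clo.row1 (h : Clo B C X F) (hr : Reg B C) {i : ι} (hn : ins B C X = {i}) {z : V}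
    (hz : z ∈ X) (hzi : z ∈ B i) : ∑ L ∈ F, (Ez B L z).card = 4 := by
  classical
  have h1 := h.row hr hz
  rw [hn, filter_singleton, if_pos hzi, card_singleton] at h1
  omega

theorem Clo.row1' (h : Clo B C X F) (hr : Reg B C) {i : ι} (hn : ins B C X = {i}) {z : V}
    (hz : z ∈ X) (hzi : z ∉ B i) : ∑ L ∈ F, (Ez B L z).card = 5 := by
  classical
  have h1 := h.row hr hz
  rw [hn, filter_singleton, if_neg hzi, card_empty] at h1
  omega

theorem Clo.row_ge (h : Clo B C X F) (hr : Reg B C) (hn : (ins B C X).card = 1) {z : V}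
    (hz : z ∈ X) : 4 ≤ ∑ L ∈ F, (Ez B L z).card := by
  classical
  have h1 := h.row hr hz
  have h2 := card_filter_le (ins B C X) (fun i => z ∈ B i)
  omega

/-- a component is attached to at least two points of `X`. -/
theorem Clo.two (h : Clo B C X F) (hcr : Crit B C) (hc : Cov B C) (hC : Conn (gr B) C)
    (hX : X.Nonempty) {L : Finset V} (hL : L ∈ F) :
    ∃ z ∈ X, ∃ y ∈ X, z ≠ y ∧ (Ez B L z).Nonempty ∧ (Ez B L y).Nonempty := by
  have h1 := h.hall hcr hc hC hX (S := {L}) (singleton_subset_iff.2 hL) (singleton_nonempty _)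
  rw [card_singleton] at h1
  obtain ⟨z, hz, y, hy, hzy⟩ := one_lt_card.1 (by omega : 1 < (nbX B X {L}).card)
  rw [mem_nbX] at hz hy
  obtain ⟨hzX, L1, hL1, hz1⟩ := hz
  obtain ⟨hyX, L2, hL2, hy2⟩ := hy
  rw [mem_singleton] at hL1 hL2
  subst hL1
  subst hL2
  exact ⟨z, hzX, y, hyX, hzy, hz1, hy2⟩

/-- with two components: if `L` is attached to `z` then `M` does not absorb the rest of `X`. -/
theorem Clo.refuse2 {M L : Finset V} (h : Clo B C X {M, L}) (hcr : Crit B C) (hc : Cov B C)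
    (hne : M ≠ L) {z : V} (hz : z ∈ X) (hL : (Ez B L z).Nonempty) : ¬ Abz B M (X.erase z) := by
  intro hM
  have hLF : L ∈ ({M, L} : Finset (Finset V)) := by simp
  refine h.assign2 hcr hc ⟨z, hz⟩ hne hM
    ((h.crit L hLF).pt1 (hc.mono (h.subC hLF)) hL) ?_
  intro v hv
  rw [mem_union, mem_erase, mem_singleton]
  by_cases hvz : v = z
  · exact Or.inr hvz
  · exact Or.inl ⟨hvz, hv⟩

theorem Clo.swap2 {M L : Finset V} (h : Clo B C X {M, L}) : Clo B C X {L, M} := by
  rwa [pair_comm]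

end

end Pool.Agent.Hyp6
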