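import Pool.Agent.Hyp6.L3T
import Pool.Agent.Hyp6.L4T
import Pool.Agent.Hyp6.QClo

/-!
# HYP6 L3LA: the full blocks of a minimal counterexample of level 3

Lemma A of helper79: in a minimal counterexample the closure of every block with three points is the
block itself, the rest is connected and critical, and at most two blocks lie inside.
Lemma B: there is no reducible set.
-/

set_option autoImplicit false

namespace Pool.Agent.Hyp6

open Finset Pool.Agent.Hyp5

universe u v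

variable {V : Type v} [DecidableEq V] {ι : Type u} [Fintype ι] {B : ι → Finset V}
variable {Q C X : Finset V} {F : Finset (Finset V)} {i0 : ι}

/-! ### merged points -/

open Classical in
/-- two points of which the second one is merged from two points of `Q`. -/
theorem Cp3.mrgT (h : Cp3 B Q C) {y z1 z2 : V} (hyQ : y ∈ Q) (hyC : y ∉ C) (h1Q : z1 ∈ Q)
    (h1C : z1 ∉ C) (h2Q : z2 ∈ Q) (h2C : z2 ∉ C) (hy1 : y ≠ z1) (hy2 : y ≠ z2)
    {S1 S2 : Finset ι} (hS1 : S1 ⊆ Ez B C y) (hS2 : S2 ⊆ Ez B C z1 ∪ Ez B C z2)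
    (h1ne : S1.Nonempty) (h2ne : S2.Nonempty)
    {κ : Type} [Fintype κ] {N : κ → Finset V} (hN : ∀ c, N c ⊆ {y, z1})
    (hNne : ∀ c, (N c).Nonempty)
    (hdy : ∀ n : κ → Prop, (∀ c, n c ↔ y ∈ N c) → ∀ [DecidablePred n],
      S1.card + (univ.filter n).card = 5)
    (hdz : ∀ n : κ → Prop, (∀ c, n c ↔ z1 ∈ N c) → ∀ [DecidablePred n],
      S2.card + (univ.filter n).card = 5) (hκ : Nonempty κ)
    {Y2 : Finset V} (hY2 : Y2 ⊆ {y, z1})
    (hN2 : ∀ v ∈ Y2, 2 ≤ (univ.filter (fun c => N c = {v})).card)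
    (hd : dv B Q C + 10 + 4 * (Fintype.card κ : ℤ) ≤ 22 + 2 * (Y2.card : ℤ)) :
    Abz B C {y, z1} ∨ Abz B C {y, z2} := by
  obtain ⟨E, hEy, hEz⟩ : ∃ E : V → Finset ι, E y = S1 ∧ E z1 = S2 :=
    ⟨fun v => if v = y then S1 else S2, if_pos rfl, if_neg (fun h => hy1 h.symm)⟩
  have hor : ∀ v ∈ ({y, z1} : Finset V), v = y ∨ v = z1 := fun v hv => by simpa using hv
  have hEC : ∀ v ∈ ({y, z1} : Finset V), ∀ i ∈ E v, (B i ∩ C).Nonempty := by
    intro v hv i hi
    rcases hor v hv with rfl | rfl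
    · rw [hEy] at hi
      exact (mem_Ez.1 (hS1 hi)).2
    · rw [hEz] at hi
      rcases mem_union.1 (hS2 hi) with h1 | h1
      · exact (mem_Ez.1 h1).2
      · exact (mem_Ez.1 h1).2
  have hE2 : ∀ v ∈ ({y, z1} : Finset V), ∀ i ∈ E v, 2 ≤ (B i ∩ Q).card := by
    intro v hv i hi
    rcases hor v hv with rfl | rfl
    · rw [hEy] at hi
      exact two_le_of h.sub (mem_Ez.1 (hS1 hi)).2 (mem_Ez.1 (hS1 hi)).1 hyQ hyC
    · rw [hEz] at hi
      rcases mem_union.1 (hS2 hi) with h1 | h1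
      · exact two_le_of h.sub (mem_Ez.1 h1).2 (mem_Ez.1 h1).1 h1Q h1C
      · exact two_le_of h.sub (mem_Ez.1 h1).2 (mem_Ez.1 h1).1 h2Q h2C
  have hdis : Disjoint C {y, z1} := by
    rw [disjoint_right]
    intro v hv
    rcases hor v hv with rfl | rfl
    · exact hyC
    · exact h1C
  have hY3 : ({y, z1, z2} : Finset V) ⊆ Q := by
    intro v hv
    simp only [mem_insert, mem_singleton] at hv
    rcases hv with rfl | rfl | rfl
    · exact hyQ
    · exact h1Q
    · exact h2Q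
  have hdis3 : Disjoint C ({y, z1, z2} : Finset V) := by
    rw [disjoint_right]
    intro v hv
    simp only [mem_insert, mem_singleton] at hv
    rcases hv with rfl | rfl | rfl
    · exact hyC
    · exact h1C
    · exact h2C
  have hsz : ∀ i, (B i ∩ C).card + (({y, z1} : Finset V).filter (fun v => i ∈ E v)).card ≤ 3 := by
    intro i
    refine le_trans (Nat.add_le_add_left ?_ _) (h.size hY3 hdis3 i)
    -- an injection of the points carrying `i` into the points of the block `i`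
    by_cases hiy : i ∈ E y
    · have hyi : y ∈ B i := by
        rw [hEy] at hiy
        exact (mem_Ez.1 (hS1 hiy)).1
      by_cases hiz : i ∈ E z1
      · rw [hEz] at hiz
        have h5 : (({y, z1} : Finset V).filter (fun v => i ∈ E v)).card ≤ 2 :=
          (card_filter_le _ _).trans card_le_two
        rcases mem_union.1 (hS2 hiz) with h1 | h1
        · have h6 : ({y, z1} : Finset V) ⊆ ({y, z1, z2} : Finset V).filter (fun v => v ∈ B i) := by
            intro v hv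
            rw [mem_filter]
            rcases hor v hv with rfl | rfl
            · exact ⟨by simp, hyi⟩
            · exact ⟨by simp, (mem_Ez.1 h1).1⟩
          have h7 := card_le_card h6
          rw [card_pair hy1] at h7
          omega
        · have h6 : ({y, z2} : Finset V) ⊆ ({y, z1, z2} : Finset V).filter (fun v => v ∈ B i) := by
            intro v hv
            rw [mem_filter]
            simp only [mem_insert, mem_singleton] at hv
            rcases hv with rfl | rfl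
            · exact ⟨by simp, hyi⟩
            · exact ⟨by simp, (mem_Ez.1 h1).1⟩
          have h7 := card_le_card h6
          rw [card_pair hy2] at h7
          omega
      · have h5 : ({y, z1} : Finset V).filter (fun v => i ∈ E v) ⊆ {y} := by
          intro v hv
          rw [mem_filter] at hv
          rcases hor v hv.1 with rfl | rfl
          · simp
          · exact absurd hv.2 hiz
        have h6 : ({y} : Finset V) ⊆ ({y, z1, z2} : Finset V).filter (fun v => v ∈ B i) := by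
          intro v hv
          rw [mem_singleton] at hv
          rw [mem_filter, hv]
          exact ⟨by simp, hyi⟩
        exact (card_le_card h5).trans (card_le_card h6)
    · have h5 : ({y, z1} : Finset V).filter (fun v => i ∈ E v) ⊆ {z1} := by
        intro v hv
        rw [mem_filter] at hv
        rcases hor v hv.1 with rfl | rfl
        · exact absurd hv.2 hiy
        · simp
      by_cases hiz : i ∈ E z1
      · rw [hEz] at hiz
        have h6 : 0 < (({y, z1, z2} : Finset V).filter (fun v => v ∈ B i)).card := by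
          rw [card_pos]
          rcases mem_union.1 (hS2 hiz) with h1 | h1
          · exact ⟨z1, mem_filter.2 ⟨by simp, (mem_Ez.1 h1).1⟩⟩
          · exact ⟨z2, mem_filter.2 ⟨by simp, (mem_Ez.1 h1).1⟩⟩
        have h7 := card_le_card h5
        rw [card_singleton] at h7
        omega
      · have h6 : ({y, z1} : Finset V).filter (fun v => i ∈ E v) = ∅ := by
          rw [filter_eq_empty_iff]
          intro v hv
          rcases hor v hv with rfl | rfl
          · exact hiy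
          · exact hiz
        rw [h6, card_empty]
        exact Nat.zero_le _
  have hA : AbsData B C {y, z1} E N := by
    refine ⟨hdis, hEC, ?_, hN, hNne, ?_, ?_, ?_⟩
    · intro v hv
      rcases hor v hv with rfl | rfl
      · rw [hEy]
        exact h1ne
      · rw [hEz]
        exact h2ne
    · intro v hv
      rcases hor v hv with rfl | rfl
      · rw [hEy]
        exact hdy _ (fun _ => Iff.rfl)
      · rw [hEz]
        exact hdz _ (fun _ => Iff.rfl)
    · intro i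
      convert hsz i using 3
    · intro c
      exact (card_le_card (hN c)).trans (card_le_two.trans (by norm_num))
  obtain ⟨c⟩ := hκ
  have hk : ¬ KT (absG B C {y, z1} E N) (C ∪ {y, z1}) :=
    hA.not_KT (h.reg.mono h.sub) (k := Sum.inr c) (hNne c)
      ((card_le_card (hN c)).trans card_le_two)
  obtain ⟨T, hT1, hT2, hT3⟩ := hA.absorbE h.ih (h.reg.mono h.sub) h.conn hk
    (by rw [card_pair hy1]; have := h.card; omega) h.sub hE2 hY2
    (fun v hv => by convert hN2 v hv using 2) (by rw [card_pair hy1]; push_cast; linarith)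
  obtain ⟨i, hiT, hiE⟩ := hT3 y (by simp)
  obtain ⟨j, hjT, hjE⟩ := hT3 z1 (by simp)
  rw [hEy] at hiE
  rw [hEz] at hjE
  have hyT : y ∈ T.biUnion B := mem_biUnion.2 ⟨i, hiT, (mem_Ez.1 (hS1 hiE)).1⟩
  rcases mem_union.1 (hS2 hjE) with h1 | h1
  · left
    refine ⟨T, union_subset hT1 fun v hv => ?_, hT2⟩
    rcases hor v hv with rfl | rfl
    · exact hyT
    · exact mem_biUnion.2 ⟨j, hjT, (mem_Ez.1 h1).1⟩
  · right
    refine ⟨T, union_subset hT1 fun v hv => ?_, hT2⟩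
    simp only [mem_insert, mem_singleton] at hv
    rcases hv with rfl | rfl
    · exact hyT
    · exact mem_biUnion.2 ⟨j, hjT, (mem_Ez.1 h1).1⟩

open Classical in
/-- merged pair `(2, 2)`. -/
theorem Cp3.mrg22 (h : Cp3 B Q C) (hd : dv B Q C ≤ 0) {y z1 z2 : V} (hyQ : y ∈ Q) (hyC : y ∉ C)
    (h1Q : z1 ∈ Q) (h1C : z1 ∉ C) (h2Q : z2 ∈ Q) (h2C : z2 ∉ C) (hy1 : y ≠ z1) (hy2 : y ≠ z2)
    (hE1 : 2 ≤ (Ez B C y).card) (hE2 : 2 ≤ (Ez B C z1 ∪ Ez B C z2).card) :
    Abz B C {y, z1} ∨ Abz B C {y, z2} := by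
  obtain ⟨S1, hS1, hc1⟩ := exists_subset_card_eq hE1
  obtain ⟨S2, hS2, hc2⟩ := exists_subset_card_eq hE2
  refine h.mrgT hyQ hyC h1Q h1C h2Q h2C hy1 hy2 hS1 hS2 (card_pos.1 (by omega))
    (card_pos.1 (by omega)) (κ := Fin 3) (N := fun _ => {y, z1}) (Y2 := ∅)
    (fun _ => Subset.refl _) (fun _ => insert_nonempty _ _) ?_ ?_ ⟨0⟩ (empty_subset _)
    (by simp) ?_
  · intro n hn _
    have h5 : univ.filter n = univ := filter_true_of_mem fun c _ => (hn c).2 (by simp)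
    rw [h5, hc1, card_univ, Fintype.card_fin]
  · intro n hn _
    have h5 : univ.filter n = univ := filter_true_of_mem fun c _ => (hn c).2 (by simp)
    rw [h5, hc2, card_univ, Fintype.card_fin]
  · rw [Fintype.card_fin, card_empty]
    push_cast
    linarith

open Classical in
/-- merged pair `(2, 4)`. -/
theorem Cp3.mrg24 (h : Cp3 B Q C) (hd : dv B Q C ≤ 2) {y z1 z2 : V} (hyQ : y ∈ Q) (hyC : y ∉ C)
    (h1Q : z1 ∈ Q) (h1C : z1 ∉ C) (h2Q : z2 ∈ Q) (h2C : z2 ∉ C) (hy1 : y ≠ z1) (hy2 : y ≠ z2)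
    (hE1 : 2 ≤ (Ez B C y).card) (hE2 : 4 ≤ (Ez B C z1 ∪ Ez B C z2).card) :
    Abz B C {y, z1} ∨ Abz B C {y, z2} := by
  obtain ⟨S1, hS1, hc1⟩ := exists_subset_card_eq hE1
  obtain ⟨S2, hS2, hc2⟩ := exists_subset_card_eq hE2
  refine h.mrgT hyQ hyC h1Q h1C h2Q h2C hy1 hy2 hS1 hS2 (card_pos.1 (by omega))
    (card_pos.1 (by omega)) (κ := Fin 3) (N := fun c => if c = 0 then {y, z1} else {y})
    (Y2 := {y}) ?_ ?_ ?_ ?_ ⟨0⟩ (by simp) ?_ ?_
  · intro c
    split_ifs
    · exact Subset.refl _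
    · simp
  · intro c
    split_ifs
    · exact insert_nonempty _ _
    · exact singleton_nonempty _
  · intro n hn _
    have h5 : univ.filter n = univ := filter_true_of_mem fun c _ => (hn c).2 (by
      split_ifs <;> simp)
    rw [h5, hc1, card_univ, Fintype.card_fin]
  · intro n hn _
    have h5 : univ.filter n = {0} := by
      ext c
      rw [mem_filter, hn c, mem_singleton]
      by_cases hc : c = 0
      · simp [hc]
      · simp [hc, hy1.symm]
    rw [h5, hc2, card_singleton]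
  · intro v hv
    rw [mem_singleton.1 hv]
    have h6 : ({1, 2} : Finset (Fin 3)) ⊆ univ.filter (fun c : Fin 3 =>
        (if c = 0 then ({y, z1} : Finset V) else {y}) = {y}) := by
      intro c hc
      rw [mem_filter]
      refine ⟨mem_univ _, ?_⟩
      rw [if_neg]
      rintro rfl
      simp at hc
    have h7 := card_le_card h6
    have h8 : ({1, 2} : Finset (Fin 3)).card = 2 := by decide
    omega
  · rw [Fintype.card_fin, card_singleton]
    push_cast
    linarith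

/-! ### the closure of a full block -/

/-- a minimal counterexample of the level-3 theorem. -/
structure Viol (B : ι → Finset V) (Q : Finset V) : Prop where
  ih : IHE.{u} V Q.card
  reg : Reg B Q
  tr : Tr3 B Q
  conn : Conn (gr B) Q
  crit : Crit B Q
  sv0 : 0 ≤ sv B Q
  nkt : ¬ KT B Q
  neg : dv B Q Q ≤ -2

/-- a closure of the full block `i0`. -/
structure VC (B : ι → Finset V) (Q X : Finset V) (F : Finset (Finset V)) (i0 : ι) : Prop
    extends Viol B Q where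
  clo : Clo B Q X F
  inc : B i0 ∩ Q ⊆ X
  c3 : (B i0 ∩ Q).card = 3

theorem Viol.cov (h : Viol B Q) : Cov B Q := cov_of_reg h.reg

theorem Viol.exists_VC (h : Viol B Q) {i : ι} (hi : (B i ∩ Q).card = 3) :
    ∃ X F, VC B Q X F i := by
  obtain ⟨X, F, hP, hC⟩ := exists_clo h.crit h.cov (P := B i ∩ Q) inter_subset_left
    inter_subset_right (card_pos.1 (by omega))
  exact ⟨X, F, h, hC, hP, hi⟩

theorem VC.X3 (h : VC B Q X F i0) : 3 ≤ X.card := by
  rw [← h.c3]
  exact card_le_card h.inc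

theorem VC.Xne (h : VC B Q X F i0) : X.Nonempty := card_pos.1 (by have := h.X3; omega)

theorem VC.cov (h : VC B Q X F i0) : Cov B Q := cov_of_reg h.reg

theorem VC.sizeL (h : VC B Q X F i0) {L : Finset V} (hL : L ∈ F) : L.card + X.card ≤ Q.card := by
  have h1 := card_le_card (h.clo.parts L hL).1
  have h2 := card_sdiff_add_card_eq_card h.clo.sub
  omega

theorem VC.cp (h : VC B Q X F i0) {L : Finset V} (hL : L ∈ F) : Cp3 B Q L :=
  ⟨h.ih, h.reg, h.tr, h.conn, h.clo.subC hL, (h.clo.parts L hL).2.2, by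
    have := h.sizeL hL
    have := h.X3
    omega⟩

theorem VC.i0_ins (h : VC B Q X F i0) : i0 ∈ ins B Q X := by
  rw [mem_ins]
  exact ⟨card_pos.1 (by rw [h.c3]; norm_num), h.inc⟩

theorem VC.ee_X (h : VC B Q X F i0) : 2 * ee B Q X + 1 ≤ (ins B Q X).card := by
  classical
  have h1 := two_ee_le (B := B) Q X
  have h2 : (ins B Q X).filter (fun i => (B i ∩ Q).card = 1) ⊆ (ins B Q X).erase i0 := by
    intro i hi
    rw [mem_filter] at hi
    refine mem_erase.2 ⟨?_, hi.1⟩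
    rintro rfl
    rw [h.c3] at hi
    omega
  have h3 := card_le_card h2
  have h4 := card_erase_add_one h.i0_ins
  omega

theorem VC.sum_dv (h : VC B Q X F i0) : ∑ L ∈ F, dv B Q L =
    dv B Q Q + 2 * (ee B Q X : ℤ) + 24 - 5 * (X.card : ℤ) - 4 * ((ins B Q X).card : ℤ) := by
  have h1 := h.clo.sum_Pv h.cov
  have h2 : ee B Q Q = ∑ L ∈ F, ee B Q L + ee B Q X := by
    rw [← ee_biUnion h.clo.sep, h.clo.un, ← ee_union sdiff_disjoint,
      sdiff_union_of_subset h.clo.sub]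
  have h3 : ∑ L ∈ F, dv B Q L = ∑ L ∈ F, Pv B L - 2 * ∑ L ∈ F, (ee B Q L : ℤ) := by
    unfold dv
    rw [sum_sub_distrib, ← mul_sum]
  have c1 : (ee B Q Q : ℤ) = ∑ L ∈ F, (ee B Q L : ℤ) + ee B Q X := by
    rw [h2]
    push_cast
    ring
  rw [h3, h1]
  unfold dv
  linarith

theorem VC.lt (h : VC B Q X F i0) : F.card < X.card := by
  have h1 := h.clo.card_FA_lt h.crit h.cov h.conn (Subset.refl X) h.Xne
  rwa [FA_self] at h1

theorem VC.shape (h : VC B Q X F i0) : (X.card = 3 ∧ (ins B Q X).card = 1) ∨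
    (X.card = 3 ∧ (ins B Q X).card = 2) ∨ (X.card = 4 ∧ (ins B Q X).card = 1) := by
  have h1 := h.sum_dv
  have h2 := h.ee_X
  have h3 := h.lt
  have h4 := h.X3
  have h5 := h.neg
  have h6 : ∑ L ∈ F, (-1 : ℤ) ≤ ∑ L ∈ F, dv B Q L := sum_le_sum fun L hL => (h.cp hL).d_ge
  rw [sum_const, nsmul_eq_mul] at h6
  omega

theorem VC.ee0 (h : VC B Q X F i0) : ee B Q X = 0 := by
  have h1 := h.shape
  have h2 := h.ee_X
  omega

theorem VC.F_ne (h : VC B Q X F i0) : F.Nonempty := by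
  rw [nonempty_iff_ne_empty]
  intro hF
  obtain ⟨z, hz⟩ := h.Xne
  have h1 := h.clo.row h.reg hz
  rw [hF, sum_empty] at h1
  have h2 := card_filter_le (ins B Q X) (fun i => z ∈ B i)
  have h3 := h.shape
  omega

theorem VC.two_att (h : VC B Q X F i0) {L : Finset V} (hL : L ∈ F) (a : V) :
    ∃ x ∈ X, x ≠ a ∧ 1 ≤ (Ez B L x).card := by
  obtain ⟨z, hz, y, hy, hzy, h1, h2⟩ := h.clo.two h.crit h.cov h.conn h.Xne hL
  by_cases hza : z = a
  · exact ⟨y, hy, fun h => hzy (hza.trans h.symm), card_pos.2 h2⟩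
  · exact ⟨z, hz, hza, card_pos.2 h1⟩

theorem VC.pair_att (h : VC B Q X F i0) {L M : Finset V} (hL : L ∈ F) (hM : M ∈ F) (hLM : L ≠ M)
    (a b : V) : ∃ x ∈ X, x ≠ a ∧ x ≠ b ∧ (1 ≤ (Ez B L x).card ∨ 1 ≤ (Ez B M x).card) := by
  classical
  by_contra hcon
  push Not at hcon
  have h1 := h.clo.hall h.crit h.cov h.conn h.Xne (S := {L, M}) (by
    intro D hD
    rw [mem_insert, mem_singleton] at hD
    rcases hD with rfl | rfl
    · exact hL
    · exact hM) (insert_nonempty _ _)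
  rw [card_pair hLM] at h1
  have h2 : nbX B X {L, M} ⊆ {a, b} := by
    intro x hx
    rw [mem_nbX] at hx
    obtain ⟨hxX, D, hD, hE⟩ := hx
    rw [mem_insert, mem_singleton]
    by_contra h3
    push Not at h3
    have h4 := hcon x hxX h3.1 h3.2
    have h5 := card_pos.2 hE
    rw [mem_insert, mem_singleton] at hD
    rcases hD with rfl | rfl
    · omega
    · omega
  have h3 := card_le_card h2
  have h4 : ({a, b} : Finset V).card ≤ 2 := card_le_two
  omega

theorem VC.ab1 (h : VC B Q X F i0) {L : Finset V} (hL : L ∈ F) {z : V}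
    (he : 1 ≤ (Ez B L z).card) : Abz B L {z} :=
  (h.clo.crit L hL).pt1 (h.cp hL).cov (card_pos.1 he)

theorem VC.ab0 (h : VC B Q X F i0) {L : Finset V} (hL : L ∈ F) : Abz B L ∅ :=
  Abz.empty (h.cp hL).cov

theorem VC.ab2 (h : VC B Q X F i0) {L : Finset V} (hL : L ∈ F) (hd : dv B Q L ≤ 0) {z z' : V}
    (hz : z ∈ X) (hz' : z' ∈ X) (hne : z ≠ z') (he : 2 ≤ (Ez B L z).card)
    (he' : 2 ≤ (Ez B L z').card) : Abz B L {z, z'} :=
  (h.cp hL).pt2 hd (h.clo.sub hz) (h.clo.notMem hL hz) (h.clo.sub hz') (h.clo.notMem hL hz')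
    hne he he'

theorem VC.ab2b (h : VC B Q X F i0) {L : Finset V} (hL : L ∈ F) (hd : dv B Q L ≤ 4) {z z' : V}
    (hz : z ∈ X) (hz' : z' ∈ X) (hne : z ≠ z') (he : 3 ≤ (Ez B L z).card)
    (he' : 3 ≤ (Ez B L z').card) : Abz B L {z, z'} :=
  (h.cp hL).pt2b hd (h.clo.sub hz) (h.clo.notMem hL hz) (h.clo.sub hz') (h.clo.notMem hL hz')
    hne he he'

theorem VC.ab2c (h : VC B Q X F i0) {L : Finset V} (hL : L ∈ F) (hd : dv B Q L ≤ 2) {z z' : V}
    (hz : z ∈ X) (hz' : z' ∈ X) (hne : z ≠ z') (he : 4 ≤ (Ez B L z).card)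
    (he' : 2 ≤ (Ez B L z').card) : Abz B L {z, z'} :=
  (h.cp hL).pt2c hd (h.clo.sub hz) (h.clo.notMem hL hz) (h.clo.sub hz') (h.clo.notMem hL hz')
    hne he he'

theorem VC.a2 (h : VC B Q X F i0) {M L : Finset V} (hF : F = {M, L}) (hne : M ≠ L)
    {SM SL : Finset V} (hM : Abz B M SM) (hL : Abz B L SL) (hZ : ∀ z ∈ X, z ∈ SM ∨ z ∈ SL) :
    False := by
  have hc : Clo B Q X {M, L} := hF ▸ h.clo
  exact hc.assign2 h.crit h.cov h.Xne hne hM hL fun z hz => mem_union.2 (hZ z hz)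

theorem VC.a3 (h : VC B Q X F i0) {M L K : Finset V} (hF : F = {M, L, K}) (hML : M ≠ L)
    (hMK : M ≠ K) (hLK : L ≠ K) {SM SL SK : Finset V} (hM : Abz B M SM) (hL : Abz B L SL)
    (hK : Abz B K SK) (hZ : ∀ z ∈ X, z ∈ SM ∨ z ∈ SL ∨ z ∈ SK) : False := by
  have hc : Clo B Q X {M, L, K} := hF ▸ h.clo
  refine hc.assign3 h.crit h.cov h.Xne hML hMK hLK hM hL hK fun z hz => ?_
  have := hZ z hz
  simp only [mem_union]
  tauto

theorem VC.row_ge (h : VC B Q X F i0) {z : V} (hz : z ∈ X) :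
    3 ≤ ∑ L ∈ F, (Ez B L z).card := by
  have h1 := h.clo.row h.reg hz
  have h2 := card_filter_le (ins B Q X) (fun i => z ∈ B i)
  have h3 := h.shape
  omega

/-- two components, three points: not two points absorbed by `M` together. -/
theorem VC.nk (h : VC B Q X F i0) (hX : X.card = 3) {M L : Finset V} (hF : F = {M, L})
    (hne : M ≠ L) {p : ℕ}
    (hp : ∀ x ∈ X, ∀ y ∈ X, x ≠ y → p ≤ (Ez B M x).card → p ≤ (Ez B M y).card → Abz B M {x, y})
    (hr : ∀ z ∈ X, p ≤ (Ez B M z).card + (Ez B L z).card) :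
    ∀ x ∈ X, ∀ y ∈ X, x ≠ y → ¬ (p ≤ (Ez B M x).card ∧ p ≤ (Ez B M y).card) := by
  rintro x hx y hy hxy ⟨e1, e2⟩
  have mL : L ∈ F := by rw [hF]; simp
  obtain ⟨w, h3⟩ := thr_of hX hx hy hxy
  have hstep : ∀ x' ∈ X, ∀ y' ∈ X, ∀ w' ∈ X, x' ≠ y' → (∀ z ∈ X, z = x' ∨ z = y' ∨ z = w') →
      p ≤ (Ez B M x').card → p ≤ (Ez B M y').card → (Ez B L w').card = 0 := by
    intro x' hx' y' hy' w' hw' hne' hcov hpx hpy
    by_contra hcon
    refine h.a2 hF hne (hp x' hx' y' hy' hne' hpx hpy) (h.ab1 mL (z := w') (by omega))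
      fun z hz => ?_
    rcases hcov z hz with rfl | rfl | rfl <;> simp
  have hw := hstep x hx y hy w h3.mc hxy h3.cov e1 e2
  have hw2 : p ≤ (Ez B M w).card := by
    have := hr w h3.mc
    omega
  have hy2 := hstep x hx w h3.mc y hy h3.ac (fun z hz => by have := h3.cov z hz; tauto) e1 hw2
  have hx2 := hstep y hy w h3.mc x hx h3.bc (fun z hz => by have := h3.cov z hz; tauto) e2 hw2
  obtain ⟨z, hz, _, hE⟩ := h.two_att mL x
  rcases h3.cov z hz with rfl | rfl | rfl <;> omega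

/-- the values of two components are positive: one inner block, three points. -/
theorem VC.pos2 (h : VC B Q X F i0) (hX : X.card = 3) {M L : Finset V} (hF : F = {M, L})
    (hne : M ≠ L) (hr : ∀ z ∈ X, (Ez B M z).card + (Ez B L z).card = 4)
    (hs : dv B Q M + dv B Q L ≤ 3) : 1 ≤ dv B Q M := by
  by_contra hcon
  have mM : M ∈ F := by rw [hF]; simp
  have mL : L ∈ F := by rw [hF]; simp
  have hFD : F = {L, M} := by rw [hF, pair_comm]
  have gM := (h.cp mM).d_ge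
  have k := h.nk hX hF hne (p := 2)
    (fun x hx y hy hxy e1 e2 => h.ab2 mM (by omega) hx hy hxy e1 e2)
    (fun z hz => by have := hr z hz; omega)
  have l := h.nk hX hFD hne.symm (p := 3)
    (fun x hx y hy hxy e1 e2 => h.ab2b mL (by omega) hx hy hxy e1 e2)
    (fun z hz => by have := hr z hz; omega)
  obtain ⟨a, ha⟩ := h.Xne
  obtain ⟨b, hb, hba⟩ := exists_mem_ne (by rw [hX]; norm_num : 1 < X.card) a
  obtain ⟨c, ht⟩ := thr_of hX ha hb hba.symm
  have ra := hr a ht.ma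
  have rb := hr b ht.mb
  have rc := hr c ht.mc
  have k1 := k a ht.ma b ht.mb ht.ab
  have k2 := k a ht.ma c ht.mc ht.ac
  have k3 := k b ht.mb c ht.mc ht.bc
  have k4 := l a ht.ma b ht.mb ht.ab
  have k5 := l a ht.ma c ht.mc ht.ac
  have k6 := l b ht.mb c ht.mc ht.bc
  omega

/-- merging: the point `b` has two hits on `M`, the others have together at least four. -/
theorem VC.mg (h : VC B Q X F i0) {M L : Finset V} (hF : F = {M, L}) (hne : M ≠ L)
    (hd : dv B Q M ≤ 2) {a b c : V} (ht : Thr X a b c) (hmb : 2 ≤ (Ez B M b).card)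
    (hla : 1 ≤ (Ez B L a).card) (hlb : 1 ≤ (Ez B L b).card) (hlc : 1 ≤ (Ez B L c).card)
    (hs : 4 ≤ (Ez B M a).card + (Ez B M c).card) : False := by
  classical
  have mM : M ∈ F := by rw [hF]; simp
  have mL : L ∈ F := by rw [hF]; simp
  by_cases hdis : Disjoint (Ez B M a) (Ez B M c)
  · rw [← card_union_of_disjoint hdis] at hs
    rcases (h.cp mM).mrg24 hd (h.clo.sub ht.mb) (h.clo.notMem mM ht.mb) (h.clo.sub ht.ma)
      (h.clo.notMem mM ht.ma) (h.clo.sub ht.mc) (h.clo.notMem mM ht.mc) ht.ab.symm ht.bc hmb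
      (by convert hs using 2) with h1 | h1
    · refine h.a2 hF hne h1 (h.ab1 mL hlc) fun z hz => ?_
      rcases ht.cov z hz with rfl | rfl | rfl <;> simp
    · refine h.a2 hF hne h1 (h.ab1 mL hla) fun z hz => ?_
      rcases ht.cov z hz with rfl | rfl | rfl <;> simp
  · rw [not_disjoint_iff] at hdis
    obtain ⟨i, hi1, hi2⟩ := hdis
    rw [mem_Ez] at hi1 hi2
    obtain ⟨T, hT1, hT2, hT3⟩ := (h.clo.crit M mM).blkT (h.cp mM).cov hi1.2
    have h1 : Abz B M {a, c} := by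
      refine ⟨T, union_subset hT1 fun v hv => ?_, hT2⟩
      rw [mem_insert, mem_singleton] at hv
      rcases hv with rfl | rfl
      · exact mem_biUnion.2 ⟨i, hT3, hi1.1⟩
      · exact mem_biUnion.2 ⟨i, hT3, hi2.1⟩
    refine h.a2 hF hne h1 (h.ab1 mL hlb) fun z hz => ?_
    rcases ht.cov z hz with rfl | rfl | rfl <;> simp

theorem VC.hit3 (h : VC B Q X F i0) (hX : X.card = 3) {M L : Finset V} (hF : F = {M, L})
    (hne : M ≠ L) (hd : dv B Q M ≤ 2)
    (hr : ∀ z ∈ X, (Ez B M z).card + (Ez B L z).card = 4)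
    (k : ∀ x ∈ X, ∀ y ∈ X, x ≠ y → ¬ (3 ≤ (Ez B M x).card ∧ 3 ≤ (Ez B M y).card))
    (l : ∀ x ∈ X, ∀ y ∈ X, x ≠ y → ¬ (3 ≤ (Ez B L x).card ∧ 3 ≤ (Ez B L y).card)) :
    ∀ z ∈ X, (Ez B M z).card ≤ 3 := by
  intro z hz
  have mM : M ∈ F := by rw [hF]; simp
  have mL : L ∈ F := by rw [hF]; simp
  by_contra hcon
  obtain ⟨x, hx, hxz⟩ := exists_mem_ne (by rw [hX]; norm_num : 1 < X.card) z
  obtain ⟨y, ht⟩ := thr_of hX hz hx hxz.symm
  have rz := hr z ht.ma
  have rx := hr x ht.mb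
  have ry := hr y ht.mc
  have k1 := k z ht.ma x ht.mb ht.ab
  have k2 := k z ht.ma y ht.mc ht.ac
  have l3 := l x ht.mb y ht.mc ht.bc
  rcases (by omega : (2 ≤ (Ez B M x).card ∧ 1 ≤ (Ez B L y).card) ∨
    (2 ≤ (Ez B M y).card ∧ 1 ≤ (Ez B L x).card)) with t | t
  · refine h.a2 hF hne (h.ab2c mM hd ht.ma ht.mb ht.ab (by omega) t.1)
      (h.ab1 mL t.2) fun v hv => ?_
    rcases ht.cov v hv with rfl | rfl | rfl <;> simp
  · refine h.a2 hF hne (h.ab2c mM hd ht.ma ht.mc ht.ac (by omega) t.1)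
      (h.ab1 mL t.2) fun v hv => ?_
    rcases ht.cov v hv with rfl | rfl | rfl <;> simp

theorem num31 {a b c : ℕ} (a1 : 1 ≤ a) (a3 : a ≤ 3) (b1 : 1 ≤ b) (b3 : b ≤ 3) (c1 : 1 ≤ c)
    (c3 : c ≤ 3) (k1 : ¬ (3 ≤ a ∧ 3 ≤ b)) (k2 : ¬ (3 ≤ a ∧ 3 ≤ c)) (k3 : ¬ (3 ≤ b ∧ 3 ≤ c))
    (l1 : ¬ (a ≤ 1 ∧ b ≤ 1)) (l2 : ¬ (a ≤ 1 ∧ c ≤ 1)) (l3 : ¬ (b ≤ 1 ∧ c ≤ 1)) :
    b = 2 ∨ a = 2 ∨ c = 2 := by
  interval_cases a <;> interval_cases b <;> interval_cases c <;> simp_all

/-- three points, one inner block: not two components. -/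
theorem VC.not31 (h : VC B Q X F i0) (hX : X.card = 3) (hn : (ins B Q X).card = 1)
    {M L : Finset V} (hF : F = {M, L}) (hne : M ≠ L) : False := by
  have mM : M ∈ F := by rw [hF]; simp
  have mL : L ∈ F := by rw [hF]; simp
  have hFD : F = {L, M} := by rw [hF, pair_comm]
  have hXB : ∀ z ∈ X, z ∈ B i0 := by
    have h1 : B i0 ∩ Q = X := eq_of_subset_of_card_le h.inc (by rw [h.c3, hX])
    intro z hz
    rw [← h1] at hz
    exact (mem_inter.1 hz).1
  have hins : ins B Q X = {i0} := ins_eq_singleton hn h.inc (card_pos.1 (by rw [h.c3]; norm_num))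
  have hr : ∀ z ∈ X, (Ez B M z).card + (Ez B L z).card = 4 := by
    intro z hz
    have h1 := h.clo.row1 h.reg hins hz (hXB z hz)
    rw [hF, sum_pair hne] at h1
    exact h1
  have hr' : ∀ z ∈ X, (Ez B L z).card + (Ez B M z).card = 4 := fun z hz => by
    have := hr z hz
    omega
  have hs := h.sum_dv
  rw [h.ee0, hX, hn, hF, sum_pair hne] at hs
  have hv := h.neg
  push_cast at hs
  have p1 := h.pos2 hX hF hne hr (by linarith)
  have p2 := h.pos2 hX hFD hne.symm hr' (by linarith)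
  have k := h.nk hX hF hne (p := 3)
    (fun x hx y hy hxy e1 e2 => h.ab2b mM (by linarith) hx hy hxy e1 e2)
    (fun z hz => by have := hr z hz; omega)
  have l := h.nk hX hFD hne.symm (p := 3)
    (fun x hx y hy hxy e1 e2 => h.ab2b mL (by linarith) hx hy hxy e1 e2)
    (fun z hz => by have := hr z hz; omega)
  have m3 := h.hit3 hX hF hne (by linarith) hr k l
  have l3 := h.hit3 hX hFD hne.symm (by linarith) hr' l k
  obtain ⟨a, ha⟩ := h.Xne
  obtain ⟨b, hb, hba⟩ := exists_mem_ne (by rw [hX]; norm_num : 1 < X.card) a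
  obtain ⟨c, ht⟩ := thr_of hX ha hb hba.symm
  have ra := hr a ht.ma
  have rb := hr b ht.mb
  have rc := hr c ht.mc
  have ma := m3 a ht.ma
  have mb := m3 b ht.mb
  have mc := m3 c ht.mc
  have la := l3 a ht.ma
  have lb := l3 b ht.mb
  have lc := l3 c ht.mc
  have key := num31 (a := (Ez B M a).card) (b := (Ez B M b).card) (c := (Ez B M c).card)
    (by omega) ma (by omega) mb (by omega) mc (k a ht.ma b ht.mb ht.ab) (k a ht.ma c ht.mc ht.ac)
    (k b ht.mb c ht.mc ht.bc)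
    (fun e => l a ht.ma b ht.mb ht.ab ⟨by omega, by omega⟩)
    (fun e => l a ht.ma c ht.mc ht.ac ⟨by omega, by omega⟩)
    (fun e => l b ht.mb c ht.mc ht.bc ⟨by omega, by omega⟩)
  have ht2 : Thr X b a c := ⟨ht.mb, ht.ma, ht.mc, ht.ab.symm, ht.bc, ht.ac,
    fun x hx => by have := ht.cov x hx; tauto⟩
  have ht3 : Thr X a c b := ⟨ht.ma, ht.mc, ht.mb, ht.ac, ht.ab, ht.bc.symm,
    fun x hx => by have := ht.cov x hx; tauto⟩
  rcases key with t | t | t
  · rcases (by omega : 4 ≤ (Ez B M a).card + (Ez B M c).card ∨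
      4 ≤ (Ez B L a).card + (Ez B L c).card) with q | q
    · exact h.mg hF hne (by linarith) ht (by omega) (by omega) (by omega) (by omega) q
    · exact h.mg hFD hne.symm (by linarith) ht (by omega) (by omega) (by omega) (by omega) q
  · rcases (by omega : 4 ≤ (Ez B M b).card + (Ez B M c).card ∨
      4 ≤ (Ez B L b).card + (Ez B L c).card) with q | q
    · exact h.mg hF hne (by linarith) ht2 (by omega) (by omega) (by omega) (by omega) q
    · exact h.mg hFD hne.symm (by linarith) ht2 (by omega) (by omega) (by omega) (by omega) q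
  · rcases (by omega : 4 ≤ (Ez B M a).card + (Ez B M b).card ∨
      4 ≤ (Ez B L a).card + (Ez B L b).card) with q | q
    · exact h.mg hF hne (by linarith) ht3 (by omega) (by omega) (by omega) (by omega) q
    · exact h.mg hFD hne.symm (by linarith) ht3 (by omega) (by omega) (by omega) (by omega) q

/-- three points, two inner blocks: not two components. -/
theorem VC.not32 (h : VC B Q X F i0) (hX : X.card = 3) (hn : (ins B Q X).card = 2)
    {M L : Finset V} (hF : F = {M, L}) (hne : M ≠ L) : False := by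
  have mM : M ∈ F := by rw [hF]; simp
  have mL : L ∈ F := by rw [hF]; simp
  have hFD : F = {L, M} := by rw [hF, pair_comm]
  have hr : ∀ z ∈ X, 3 ≤ (Ez B M z).card + (Ez B L z).card := by
    intro z hz
    have h1 := h.row_ge hz
    rw [hF, sum_pair hne] at h1
    exact h1
  have hs := h.sum_dv
  rw [h.ee0, hX, hn, hF, sum_pair hne] at hs
  have hv := h.neg
  push_cast at hs
  have gM := (h.cp mM).d_ge
  have gL := (h.cp mL).d_ge
  have k := h.nk hX hF hne (p := 2)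
    (fun x hx y hy hxy e1 e2 => h.ab2 mM (by linarith) hx hy hxy e1 e2)
    (fun z hz => by have := hr z hz; omega)
  have l := h.nk hX hFD hne.symm (p := 2)
    (fun x hx y hy hxy e1 e2 => h.ab2 mL (by linarith) hx hy hxy e1 e2)
    (fun z hz => by have := hr z hz; omega)
  obtain ⟨a, ha⟩ := h.Xne
  obtain ⟨b, hb, hba⟩ := exists_mem_ne (by rw [hX]; norm_num : 1 < X.card) a
  obtain ⟨c, ht⟩ := thr_of hX ha hb hba.symm
  have ra := hr a ht.ma
  have rb := hr b ht.mb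
  have rc := hr c ht.mc
  have k1 := k a ht.ma b ht.mb ht.ab
  have k2 := k a ht.ma c ht.mc ht.ac
  have k3 := k b ht.mb c ht.mc ht.bc
  have k4 := l a ht.ma b ht.mb ht.ab
  have k5 := l a ht.ma c ht.mc ht.ac
  have k6 := l b ht.mb c ht.mc ht.bc
  omega

/-! ### four points -/

theorem VC.x4 (h : VC B Q X F i0) (hX : X.card = 4) : ∃ x a b c, Four X x a b c ∧ x ∉ B i0 ∧
    a ∈ B i0 ∧ b ∈ B i0 ∧ c ∈ B i0 := by
  classical
  have h1 : (X \ (B i0 ∩ Q)).card = 1 := by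
    have := card_sdiff_add_card_eq_card h.inc
    have := h.c3
    omega
  obtain ⟨x, hx⟩ := card_eq_one.1 h1
  obtain ⟨a, b, c, hab, hac, hbc, habc⟩ := card_eq_three.1 h.c3
  have hxm : x ∈ X \ (B i0 ∩ Q) := by rw [hx]; simp
  rw [mem_sdiff] at hxm
  have hT : ∀ z ∈ ({a, b, c} : Finset V), z ∈ X ∧ z ∈ B i0 ∧ z ≠ x := by
    intro z hz
    rw [← habc] at hz
    exact ⟨h.inc hz, (mem_inter.1 hz).1, fun h => hxm.2 (h ▸ hz)⟩
  have ha := hT a (by simp)
  have hb := hT b (by simp)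
  have hc := hT c (by simp)
  refine ⟨x, a, b, c, ⟨hxm.1, ha.1, hb.1, hc.1, ha.2.2.symm, hb.2.2.symm, hc.2.2.symm, hab, hac,
    hbc, fun z hz => ?_⟩, ?_, ha.2.1, hb.2.1, hc.2.1⟩
  · by_cases h2 : z ∈ B i0 ∩ Q
    · rw [habc, mem_insert, mem_insert, mem_singleton] at h2
      exact Or.inr h2
    · have h3 : z ∈ X \ (B i0 ∩ Q) := mem_sdiff.2 ⟨hz, h2⟩
      rw [hx, mem_singleton] at h3
      exact Or.inl h3
  · intro hxB
    exact hxm.2 (mem_inter.2 ⟨hxB, h.clo.sub hxm.1⟩)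

theorem VC.ab3 (h : VC B Q X F i0) (hX : X.card = 4) {L : Finset V} (hL : L ∈ F)
    (hd : dv B Q L ≤ -1) {u v w : V} (hu : u ∈ X) (hv : v ∈ X) (hw : w ∈ X) (huv : u ≠ v)
    (huw : u ≠ w) (hvw : v ≠ w) (eu : 3 ≤ (Ez B L u).card) (ev : 3 ≤ (Ez B L v).card)
    (ew : 3 ≤ (Ez B L w).card) (hex : 4 ≤ (Ez B L u).card ∨ L.card ≠ 3) : Abz B L {u, v, w} :=
  (h.cp hL).pt3 hd (h.clo.sub hu) (h.clo.notMem hL hu) (h.clo.sub hv) (h.clo.notMem hL hv)
    (h.clo.sub hw) (h.clo.notMem hL hw) huv huw hvw (by have := h.sizeL hL; omega) eu ev ew hex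

/-- four points, two components: not three points with three hits on `M`. -/
theorem VC.heavy (h : VC B Q X F i0) (hX : X.card = 4) (hn : (ins B Q X).card = 1)
    {M L : Finset V} (hF : F = {M, L}) (hne : M ≠ L) (hdM : dv B Q M ≤ -1)
    (hdL : dv B Q L ≤ -1) {u v w t : V} (h4 : Four X u v w t) (eu : (Ez B L u).card ≤ 1)
    (ev : (Ez B L v).card ≤ 1) (ew : (Ez B L w).card ≤ 1) : False := by
  classical
  have mM : M ∈ F := by rw [hF]; simp
  have mL : L ∈ F := by rw [hF]; simp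
  have hins : ins B Q X = {i0} := ins_eq_singleton hn h.inc (card_pos.1 (by rw [h.c3]; norm_num))
  obtain ⟨x, a, b, c, h5, hxB, haB, hbB, hcB⟩ := h.x4 hX
  have hr4 : ∀ z ∈ X, 4 ≤ (Ez B M z).card + (Ez B L z).card := by
    intro z hz
    have h1 := h.clo.row_ge h.reg hn hz
    rw [hF, sum_pair hne] at h1
    exact h1
  have hrx : (Ez B M x).card + (Ez B L x).card = 5 := by
    have h1 := h.clo.row1' h.reg hins h5.ma hxB
    rw [hF, sum_pair hne] at h1
    exact h1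
  -- a triple containing `x` is absorbed by `M`
  have htri : ∀ u v w t : V, Four X u v w t → (Ez B L u).card ≤ 1 → (Ez B L v).card ≤ 1 →
      (Ez B L w).card ≤ 1 → 1 ≤ (Ez B L t).card →
      (4 ≤ (Ez B M u).card ∨ M.card ≠ 3) → False := by
    intro u v w t h4 eu ev ew et hex
    have ru := hr4 u h4.ma
    have rv := hr4 v h4.mb
    have rw' := hr4 w h4.mc
    refine h.a2 hF hne (h.ab3 hX mM hdM h4.ma h4.mb h4.mc h4.ab h4.ac h4.bc (by omega) (by omega)
      (by omega) hex) (h.ab1 mL et) fun z hz => ?_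
    rcases h4.cov z hz with rfl | rfl | rfl | rfl <;> simp
  by_cases et : (Ez B L t).card ≤ 1
  · -- all points have at most one hit on `L`
    have hall : ∀ z ∈ X, (Ez B L z).card ≤ 1 := by
      intro z hz
      rcases h4.cov z hz with rfl | rfl | rfl | rfl
      · exact eu
      · exact ev
      · exact ew
      · exact et
    obtain ⟨z, hz, hzx, hE⟩ := h.two_att mL x
    have ex := hall x h5.ma
    have hfin : ∀ y p q, Four X x y p q → 1 ≤ (Ez B L y).card → False := by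
      intro y p q h6 hy
      exact htri x p q y ⟨h6.ma, h6.mc, h6.md, h6.mb, h6.ac, h6.ad, h6.ab, h6.cd, h6.bc.symm,
        h6.bd.symm, fun z hz => by have := h6.cov z hz; tauto⟩ ex (hall p h6.mc) (hall q h6.md)
        hy (Or.inl (by omega))
    rcases h5.cov z hz with rfl | rfl | rfl | rfl
    · exact hzx rfl
    · exact hfin _ _ _ h5 hE
    · exact hfin z c a ⟨h5.ma, h5.mc, h5.md, h5.mb, h5.ac, h5.ad, h5.ab, h5.cd, h5.bc.symm,
        h5.bd.symm, fun z hz => by have := h5.cov z hz; tauto⟩ hE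
    · exact hfin z a b ⟨h5.ma, h5.md, h5.mb, h5.mc, h5.ad, h5.ab, h5.ac, h5.bd.symm, h5.cd.symm,
        h5.bc, fun z hz => by have := h5.cov z hz; tauto⟩ hE
  · -- the point `t` has two hits on `L`
    push Not at et
    have hux : u ≠ x := by
      rintro rfl
      exact htri u v w t h4 eu ev ew (by omega) (Or.inl (by omega))
    have hvx : v ≠ x := by
      rintro rfl
      exact htri v w u t ⟨h4.mb, h4.mc, h4.ma, h4.md, h4.bc, h4.ab.symm, h4.bd, h4.ac.symm,
        h4.cd, h4.ad, fun z hz => by have := h4.cov z hz; tauto⟩ ev ew eu (by omega)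
        (Or.inl (by omega))
    have hwx : w ≠ x := by
      rintro rfl
      exact htri w u v t ⟨h4.mc, h4.ma, h4.mb, h4.md, h4.ac.symm, h4.bc.symm, h4.cd, h4.ab,
        h4.ad, h4.bd, fun z hz => by have := h4.cov z hz; tauto⟩ ew eu ev (by omega)
        (Or.inl (by omega))
    have hB : ∀ z ∈ X, z ≠ x → z ∈ B i0 := by
      intro z hz hzx
      rcases h5.cov z hz with rfl | rfl | rfl | rfl
      · exact absurd rfl hzx
      · exact haB
      · exact hbB
      · exact hcB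
    have hr : ∀ z ∈ X, z ≠ x → (Ez B M z).card + (Ez B L z).card = 4 := by
      intro z hz hzx
      have h1 := h.clo.row1 h.reg hins hz (hB z hz hzx)
      rw [hF, sum_pair hne] at h1
      exact h1
    have ru := hr u h4.ma hux
    have rv := hr v h4.mb hvx
    have rw' := hr w h4.mc hwx
    have lu : (Ez B L u).card = 1 := by
      by_contra hcon
      exact htri u v w t h4 eu ev ew (by omega) (Or.inl (by omega))
    have lv : (Ez B L v).card = 1 := by
      by_contra hcon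
      exact htri v w u t ⟨h4.mb, h4.mc, h4.ma, h4.md, h4.bc, h4.ab.symm, h4.bd, h4.ac.symm,
        h4.cd, h4.ad, fun z hz => by have := h4.cov z hz; tauto⟩ ev ew eu (by omega)
        (Or.inl (by omega))
    have lw : (Ez B L w).card = 1 := by
      by_contra hcon
      exact htri w u v t ⟨h4.mc, h4.ma, h4.mb, h4.md, h4.ac.symm, h4.bc.symm, h4.cd, h4.ab,
        h4.ad, h4.bd, fun z hz => by have := h4.cov z hz; tauto⟩ ew eu ev (by omega)
        (Or.inl (by omega))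
    have heq : ∀ u v w : V, Four X u v w t → (Ez B L u).card = 1 → (Ez B L v).card = 1 →
        2 ≤ (Ez B M u).card → 2 ≤ (Ez B M v).card → 2 ≤ (Ez B M w).card →
        Ez B L u = Ez B L v := by
      intro u v w h4 eu ev mu mv mw
      by_contra hcon
      obtain ⟨i, hi⟩ := card_eq_one.1 eu
      obtain ⟨j, hj⟩ := card_eq_one.1 ev
      have hij : i ≠ j := by
        rintro rfl
        exact hcon (hi.trans hj.symm)
      have h2 : 2 ≤ (Ez B L u ∪ Ez B L v).card := by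
        rw [hi, hj, singleton_union, card_pair hij]
      rcases (h.cp mL).mrg22 (by linarith) (h.clo.sub h4.md) (h.clo.notMem mL h4.md)
        (h.clo.sub h4.ma) (h.clo.notMem mL h4.ma) (h.clo.sub h4.mb) (h.clo.notMem mL h4.mb)
        h4.ad.symm h4.bd.symm (by omega) (by convert h2 using 2) with h1 | h1
      · refine h.a2 hF hne (h.ab2 mM (by linarith) h4.mb h4.mc h4.bc mv mw) h1 fun z hz => ?_
        rcases h4.cov z hz with rfl | rfl | rfl | rfl <;> simp
      · refine h.a2 hF hne (h.ab2 mM (by linarith) h4.ma h4.mc h4.ac mu mw) h1 fun z hz => ?_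
        rcases h4.cov z hz with rfl | rfl | rfl | rfl <;> simp
    have e1 := heq u v w h4 lu lv (by omega) (by omega) (by omega)
    have e2 := heq u w v ⟨h4.ma, h4.mc, h4.mb, h4.md, h4.ac, h4.ab, h4.ad, h4.bc.symm, h4.cd,
      h4.bd, fun z hz => by have := h4.cov z hz; tauto⟩ lu lw (by omega) (by omega) (by omega)
    obtain ⟨i, hi⟩ := card_eq_one.1 lu
    have iu : i ∈ Ez B L u := by rw [hi]; simp
    have iv : i ∈ Ez B L v := by rw [← e1, hi]; simp
    have iw : i ∈ Ez B L w := by rw [← e2, hi]; simp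
    rw [mem_Ez] at iu iv iw
    obtain ⟨y, hy⟩ := iu.2
    rw [mem_inter] at hy
    have h6 : ({u, v, w, y} : Finset V) ⊆ B i ∩ Q := by
      intro z hz
      simp only [mem_insert, mem_singleton] at hz
      rw [mem_inter]
      rcases hz with rfl | rfl | rfl | rfl
      · exact ⟨iu.1, h.clo.sub h4.ma⟩
      · exact ⟨iv.1, h.clo.sub h4.mb⟩
      · exact ⟨iw.1, h.clo.sub h4.mc⟩
      · exact ⟨hy.1, h.clo.subC mL hy.2⟩
    have h7 : ({u, v, w, y} : Finset V).card = 4 := by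
      have n1 : u ≠ y := fun he => h.clo.notMem mL h4.ma (he ▸ hy.2)
      have n2 : v ≠ y := fun he => h.clo.notMem mL h4.mb (he ▸ hy.2)
      have n3 : w ≠ y := fun he => h.clo.notMem mL h4.mc (he ▸ hy.2)
      rw [card_insert_of_notMem (by simp [h4.ab, h4.ac, n1]),
        card_insert_of_notMem (by simp [h4.bc, n2]), card_pair n3]
    have h8 := card_le_card h6
    have h9 := h.tr i
    omega

theorem bool42' : ∀ px pa pb pc qx qa qb qc : Bool, (px || qx) → (pa || qa) → (pb || qb) →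
    (pc || qc) → !(px && pa && qb && qc) → !(px && pb && qa && qc) → !(px && pc && qa && qb) →
    !(pa && pb && qx && qc) → !(pa && pc && qx && qb) → !(pb && pc && qx && qa) →
    (qx || qa || qb) → (qx || qc || qa) → (qx || qb || qc) → (qa || qb || qc) →
    (px || pa || pb) → (px || pc || pa) → (px || pb || pc) → (pa || pb || pc) → False := by
  decide

theorem bool42 {px pa pb pc qx qa qb qc : Prop} (r1 : px ∨ qx) (r2 : pa ∨ qa) (r3 : pb ∨ qb)
    (r4 : pc ∨ qc) (s1 : ¬ (px ∧ pa ∧ qb ∧ qc)) (s2 : ¬ (px ∧ pb ∧ qa ∧ qc))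
    (s3 : ¬ (px ∧ pc ∧ qa ∧ qb)) (s4 : ¬ (pa ∧ pb ∧ qx ∧ qc)) (s5 : ¬ (pa ∧ pc ∧ qx ∧ qb))
    (s6 : ¬ (pb ∧ pc ∧ qx ∧ qa)) (k1 : qx ∨ qa ∨ qb) (k2 : qx ∨ qc ∨ qa) (k3 : qx ∨ qb ∨ qc)
    (k4 : qa ∨ qb ∨ qc) (l1 : px ∨ pa ∨ pb) (l2 : px ∨ pc ∨ pa) (l3 : px ∨ pb ∨ pc)
    (l4 : pa ∨ pb ∨ pc) : False := by
  classical
  refine bool42' (decide px) (decide pa) (decide pb) (decide pc) (decide qx) (decide qa)
    (decide qb) (decide qc) ?_ ?_ ?_ ?_ ?_ ?_ ?_ ?_ ?_ ?_ ?_ ?_ ?_ ?_ ?_ ?_ ?_ ?_ <;>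
  simp only [Bool.or_eq_true, Bool.and_eq_true, decide_eq_true_eq, Bool.not_eq_true',
    Bool.and_eq_false_imp, Bool.not_eq_true, Bool.eq_false_iff, ne_eq, and_assoc, or_assoc] <;>
  first | assumption | tauto

/-- four points: not two components. -/
theorem VC.not42 (h : VC B Q X F i0) (hX : X.card = 4) (hn : (ins B Q X).card = 1)
    {M L : Finset V} (hF : F = {M, L}) (hne : M ≠ L) : False := by
  have mM : M ∈ F := by rw [hF]; simp
  have mL : L ∈ F := by rw [hF]; simp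
  have hFD : F = {L, M} := by rw [hF, pair_comm]
  have hs := h.sum_dv
  rw [h.ee0, hX, hn, hF, sum_pair hne] at hs
  have hv := h.neg
  push_cast at hs
  have gM := (h.cp mM).d_ge
  have gL := (h.cp mL).d_ge
  have dM : dv B Q M ≤ -1 := by linarith
  have dL : dv B Q L ≤ -1 := by linarith
  obtain ⟨x, a, b, c, h5, -⟩ := h.x4 hX
  have hr4 : ∀ z ∈ X, 4 ≤ (Ez B M z).card + (Ez B L z).card := by
    intro z hz
    have h1 := h.clo.row_ge h.reg hn hz
    rw [hF, sum_pair hne] at h1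
    exact h1
  have hsplit : ∀ u v w t : V, Four X u v w t → ¬ (2 ≤ (Ez B M u).card ∧ 2 ≤ (Ez B M v).card ∧
      2 ≤ (Ez B L w).card ∧ 2 ≤ (Ez B L t).card) := by
    rintro u v w t h4 ⟨e1, e2, e3, e4⟩
    refine h.a2 hF hne (h.ab2 mM (by linarith) h4.ma h4.mb h4.ab e1 e2)
      (h.ab2 mL (by linarith) h4.mc h4.md h4.cd e3 e4) fun z hz => ?_
    rcases h4.cov z hz with rfl | rfl | rfl | rfl <;> simp
  have f1 := h5
  have f2 : Four X x b a c := ⟨h5.ma, h5.mc, h5.mb, h5.md, h5.ac, h5.ab, h5.ad, h5.bc.symm,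
    h5.cd, h5.bd, fun z hz => by have := h5.cov z hz; tauto⟩
  have f3 : Four X x c a b := ⟨h5.ma, h5.md, h5.mb, h5.mc, h5.ad, h5.ab, h5.ac, h5.bd.symm,
    h5.cd.symm, h5.bc, fun z hz => by have := h5.cov z hz; tauto⟩
  have g1 : Four X a b x c := ⟨h5.mb, h5.mc, h5.ma, h5.md, h5.bc, h5.ab.symm, h5.bd, h5.ac.symm,
    h5.cd, h5.ad, fun z hz => by have := h5.cov z hz; tauto⟩
  have g2 : Four X a c x b := ⟨h5.mb, h5.md, h5.ma, h5.mc, h5.bd, h5.ab.symm, h5.bc,
    h5.ad.symm, h5.cd.symm, h5.ac, fun z hz => by have := h5.cov z hz; tauto⟩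
  have g3 : Four X b c x a := ⟨h5.mc, h5.md, h5.ma, h5.mb, h5.cd, h5.ac.symm, h5.bc.symm,
    h5.ad.symm, h5.bd.symm, h5.ab, fun z hz => by have := h5.cov z hz; tauto⟩
  have f4 : Four X x b c a := ⟨h5.ma, h5.mc, h5.md, h5.mb, h5.ac, h5.ad, h5.ab, h5.cd,
    h5.bc.symm, h5.bd.symm, fun z hz => by have := h5.cov z hz; tauto⟩
  have hv1 : ∀ u v w t : V, Four X u v w t → 2 ≤ (Ez B L u).card ∨ 2 ≤ (Ez B L v).card ∨
      2 ≤ (Ez B L w).card := by
    intro u v w t h4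
    by_contra hcon
    push Not at hcon
    exact h.heavy hX hn hF hne dM dL h4 (by omega) (by omega) (by omega)
  have hv2 : ∀ u v w t : V, Four X u v w t → 2 ≤ (Ez B M u).card ∨ 2 ≤ (Ez B M v).card ∨
      2 ≤ (Ez B M w).card := by
    intro u v w t h4
    by_contra hcon
    push Not at hcon
    exact h.heavy hX hn hFD hne.symm dL dM h4 (by omega) (by omega) (by omega)
  have hor : ∀ z ∈ X, 2 ≤ (Ez B M z).card ∨ 2 ≤ (Ez B L z).card := by
    intro z hz
    have := hr4 z hz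
    omega
  exact bool42 (hor x h5.ma) (hor a h5.mb) (hor b h5.mc) (hor c h5.md) (hsplit _ _ _ _ f1)
    (hsplit _ _ _ _ f2) (hsplit _ _ _ _ f3) (hsplit _ _ _ _ g1) (hsplit _ _ _ _ g2)
    (hsplit _ _ _ _ g3) (hv1 _ _ _ _ f1) (hv1 _ _ _ _ f3) (hv1 _ _ _ _ f4)
    (hv1 _ _ _ _ f1.rot) (hv2 _ _ _ _ f1) (hv2 _ _ _ _ f3) (hv2 _ _ _ _ f4)
    (hv2 _ _ _ _ f1.rot)

theorem col3' (a3 a4 b1 b2 b3 b4 c1 c2 c3 c4 : ℕ) (r3 : 4 ≤ a3 + b3 + c3) (r4 : 4 ≤ a4 + b4 + c4)
    (sb1 : 1 ≤ b2 + b3 + b4) (sc1 : 1 ≤ c2 + c3 + c4)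
    (sc3 : 1 ≤ c1 + c2 + c4) (sc4 : 1 ≤ c1 + c2 + c3) (p12 : 1 ≤ b3 + b4 + c3 + c4) :
    (1 ≤ b3 ∧ 1 ≤ c4) ∨ (1 ≤ b4 ∧ 1 ≤ c3) ∨
    (2 ≤ a3 ∧ 1 ≤ b2 ∧ 1 ≤ c4) ∨ (2 ≤ a3 ∧ 1 ≤ b4 ∧ 1 ≤ c2) ∨
    (2 ≤ a3 ∧ 1 ≤ b4 ∧ 1 ≤ c1) ∨
    (2 ≤ a4 ∧ 1 ≤ b2 ∧ 1 ≤ c3) ∨ (2 ≤ a4 ∧ 1 ≤ b3 ∧ 1 ≤ c2) ∨
    (2 ≤ a4 ∧ 1 ≤ b3 ∧ 1 ≤ c1) ∨
    (2 ≤ b3 ∧ 2 ≤ b4) ∨ (2 ≤ c3 ∧ 2 ≤ c4) := by
  by_cases hA : b3 = 0 ∧ b4 = 0
  · obtain ⟨h1, h2⟩ := hA
    by_cases h3 : 2 ≤ c3 ∧ 2 ≤ c4
    · exact Or.inr (Or.inr (Or.inr (Or.inr (Or.inr (Or.inr (Or.inr (Or.inr (Or.inr h3))))))))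
    · by_cases h4 : 1 ≤ c4 ∧ c3 ≤ 1
      · exact Or.inr (Or.inr (Or.inl ⟨by omega, by omega, by omega⟩))
      · exact Or.inr (Or.inr (Or.inr (Or.inr (Or.inr (Or.inl ⟨by omega, by omega, by omega⟩)))))
  by_cases hB : c3 = 0 ∧ c4 = 0
  · obtain ⟨h1, h2⟩ := hB
    by_cases h3 : 2 ≤ b3 ∧ 2 ≤ b4
    · exact Or.inr (Or.inr (Or.inr (Or.inr (Or.inr (Or.inr (Or.inr (Or.inr (Or.inl h3))))))))
    · by_cases h4 : 1 ≤ b4 ∧ b3 ≤ 1
      · exact Or.inr (Or.inr (Or.inr (Or.inl ⟨by omega, by omega, by omega⟩)))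
      · exact Or.inr (Or.inr (Or.inr (Or.inr (Or.inr (Or.inr (Or.inl
          ⟨by omega, by omega, by omega⟩))))))
  by_cases hC : b3 = 0 ∧ c3 = 0
  · obtain ⟨h1, h2⟩ := hC
    by_cases h3 : 1 ≤ c2
    · exact Or.inr (Or.inr (Or.inr (Or.inl ⟨by omega, by omega, by omega⟩)))
    · exact Or.inr (Or.inr (Or.inr (Or.inr (Or.inl ⟨by omega, by omega, by omega⟩))))
  by_cases hD : b4 = 0 ∧ c4 = 0
  · obtain ⟨h1, h2⟩ := hD
    by_cases h3 : 1 ≤ c2
    · exact Or.inr (Or.inr (Or.inr (Or.inr (Or.inr (Or.inr (Or.inl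
          ⟨by omega, by omega, by omega⟩))))))
    · exact Or.inr (Or.inr (Or.inr (Or.inr (Or.inr (Or.inr (Or.inr (Or.inl
          ⟨by omega, by omega, by omega⟩)))))))
  by_cases h3 : 1 ≤ b3 ∧ 1 ≤ c4
  · exact Or.inl h3
  · exact Or.inr (Or.inl ⟨by omega, by omega⟩)

theorem VC.sup (h : VC B Q X F i0) {L : Finset V} (hL : L ∈ F) {a b c d : V}
    (h4 : Four X a b c d) :
    1 ≤ (Ez B L b).card + (Ez B L c).card + (Ez B L d).card := by
  obtain ⟨x, hx, hxa, hE⟩ := h.two_att hL a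
  rcases h4.cov x hx with rfl | rfl | rfl | rfl
  · exact absurd rfl hxa
  · omega
  · omega
  · omega

theorem VC.sup2 (h : VC B Q X F i0) {L M : Finset V} (hL : L ∈ F) (hM : M ∈ F) (hLM : L ≠ M)
    {a b c d : V} (h4 : Four X a b c d) :
    1 ≤ (Ez B L c).card + (Ez B L d).card + (Ez B M c).card + (Ez B M d).card := by
  obtain ⟨x, hx, hxa, hxb, hE⟩ := h.pair_att hL hM hLM a b
  rcases h4.cov x hx with rfl | rfl | rfl | rfl
  · exact absurd rfl hxa
  · exact absurd rfl hxb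
  · omega
  · omega

/-- four points: not three components. -/
theorem VC.not43 (h : VC B Q X F i0) (hX : X.card = 4) (hn : (ins B Q X).card = 1)
    (h3 : F.card = 3) : False := by
  classical
  have hs := h.sum_dv
  rw [h.ee0, hX, hn] at hs
  have hv := h.neg
  push_cast at hs
  have hd : ∀ L ∈ F, dv B Q L ≤ 0 := by
    intro L hL
    have h12 := add_sum_erase F (fun L => dv B Q L) hL
    have h13 : ∑ D ∈ F.erase L, (-1 : ℤ) ≤ ∑ D ∈ F.erase L, dv B Q D :=
      sum_le_sum fun D hD => (h.cp (mem_of_mem_erase hD)).d_ge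
    rw [sum_const, nsmul_eq_mul, card_erase_of_mem hL, h3] at h13
    push_cast at h13
    linarith
  have hrow : ∀ z ∈ X, 4 ≤ ∑ L ∈ F, (Ez B L z).card := fun z hz =>
    h.clo.row_ge h.reg hn hz
  have hbig : ∀ z ∈ X, ∃ C ∈ F, 2 ≤ (Ez B C z).card := by
    intro z hz
    by_contra hcon
    push Not at hcon
    have h1 := hrow z hz
    have h2 : ∑ C ∈ F, (Ez B C z).card ≤ ∑ C ∈ F, 1 :=
      sum_le_sum fun C hC => by have := hcon C hC; omega
    rw [sum_const, smul_eq_mul, mul_one] at h2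
    omega
  choose! g hg1 hg2 using hbig
  obtain ⟨z1, hz1, z2, hz2, h12, hg⟩ := exists_ne_map_eq_of_card_lt_of_maps_to
    (s := X) (t := F) (by rw [hX, h3]; norm_num) hg1
  obtain ⟨z3, z4, h4⟩ := four_of hX hz1 hz2 h12
  obtain ⟨I, hI⟩ : ∃ I, I = g z1 := ⟨_, rfl⟩
  have hIF : I ∈ F := by rw [hI]; exact hg1 z1 hz1
  have h1 : (F.erase I).card = 2 := by rw [card_erase_of_mem hIF, h3]
  obtain ⟨J, K, hJK, h2⟩ := card_eq_two.1 h1
  have hJ : J ∈ F.erase I := by rw [h2]; simp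
  have hK : K ∈ F.erase I := by rw [h2]; simp
  rw [mem_erase] at hJ hK
  have hF : F = {I, J, K} := by rw [← insert_erase hIF, h2]
  have hIJ : I ≠ J := hJ.1.symm
  have hIK : I ≠ K := hK.1.symm
  have e1 : 2 ≤ (Ez B I z1).card := by rw [hI]; exact hg2 z1 hz1
  have e2 : 2 ≤ (Ez B I z2).card := by rw [hI, hg]; exact hg2 z2 hz2
  have hrow' : ∀ z ∈ X, 4 ≤ (Ez B I z).card + (Ez B J z).card + (Ez B K z).card := by
    intro z hz
    have h5 := hrow z hz
    rw [hF, sum_insert (by simp [hIJ, hIK]), sum_pair hJK] at h5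
    omega
  have q1 := h.sup hJ.2 h4
  have q3 := h.sup hK.2 h4
  have q4 := h.sup hK.2 h4.rot.rot
  have q5 := h.sup hK.2 h4.rot.rot.rot
  have q6 := h.sup2 hJ.2 hK.2 hJK h4
  have r3 := hrow' z3 h4.mc
  have r4 := hrow' z4 h4.md
  have dI := hd I hIF
  have dJ := hd J hJ.2
  have dK := hd K hK.2
  rcases col3' (Ez B I z3).card (Ez B I z4).card (Ez B J z1).card (Ez B J z2).card
    (Ez B J z3).card (Ez B J z4).card (Ez B K z1).card (Ez B K z2).card (Ez B K z3).card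
    (Ez B K z4).card r3 r4 q1 q3 (by omega) (by omega) q6 with
    t | t | t | t | t | t | t | t | t | t
  · refine h.a3 hF hIJ hIK hJK (h.ab2 hIF dI h4.ma h4.mb h4.ab e1 e2) (h.ab1 hJ.2 t.1)
      (h.ab1 hK.2 t.2) fun z hz => ?_
    rcases h4.cov z hz with rfl | rfl | rfl | rfl <;> simp
  · refine h.a3 hF hIJ hIK hJK (h.ab2 hIF dI h4.ma h4.mb h4.ab e1 e2) (h.ab1 hJ.2 t.1)
      (h.ab1 hK.2 t.2) fun z hz => ?_
    rcases h4.cov z hz with rfl | rfl | rfl | rfl <;> simp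
  · refine h.a3 hF hIJ hIK hJK (h.ab2 hIF dI h4.ma h4.mc h4.ac e1 t.1)
      (h.ab1 hJ.2 t.2.1) (h.ab1 hK.2 t.2.2) fun z hz => ?_
    rcases h4.cov z hz with rfl | rfl | rfl | rfl <;> simp
  · refine h.a3 hF hIJ hIK hJK (h.ab2 hIF dI h4.ma h4.mc h4.ac e1 t.1)
      (h.ab1 hJ.2 t.2.1) (h.ab1 hK.2 t.2.2) fun z hz => ?_
    rcases h4.cov z hz with rfl | rfl | rfl | rfl <;> simp
  · refine h.a3 hF hIJ hIK hJK (h.ab2 hIF dI h4.mb h4.mc h4.bc e2 t.1)
      (h.ab1 hJ.2 t.2.1) (h.ab1 hK.2 t.2.2) fun z hz => ?_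
    rcases h4.cov z hz with rfl | rfl | rfl | rfl <;> simp
  · refine h.a3 hF hIJ hIK hJK (h.ab2 hIF dI h4.ma h4.md h4.ad e1 t.1)
      (h.ab1 hJ.2 t.2.1) (h.ab1 hK.2 t.2.2) fun z hz => ?_
    rcases h4.cov z hz with rfl | rfl | rfl | rfl <;> simp
  · refine h.a3 hF hIJ hIK hJK (h.ab2 hIF dI h4.ma h4.md h4.ad e1 t.1)
      (h.ab1 hJ.2 t.2.1) (h.ab1 hK.2 t.2.2) fun z hz => ?_
    rcases h4.cov z hz with rfl | rfl | rfl | rfl <;> simp
  · refine h.a3 hF hIJ hIK hJK (h.ab2 hIF dI h4.mb h4.md h4.bd e2 t.1)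
      (h.ab1 hJ.2 t.2.1) (h.ab1 hK.2 t.2.2) fun z hz => ?_
    rcases h4.cov z hz with rfl | rfl | rfl | rfl <;> simp
  · refine h.a3 hF hIJ hIK hJK (h.ab2 hIF dI h4.ma h4.mb h4.ab e1 e2)
      (h.ab2 hJ.2 dJ h4.mc h4.md h4.cd t.1 t.2) (h.ab0 hK.2) fun z hz => ?_
    rcases h4.cov z hz with rfl | rfl | rfl | rfl <;> simp
  · refine h.a3 hF hIJ hIK hJK (h.ab2 hIF dI h4.ma h4.mb h4.ab e1 e2) (h.ab0 hJ.2)
      (h.ab2 hK.2 dK h4.mc h4.md h4.cd t.1 t.2) fun z hz => ?_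
    rcases h4.cov z hz with rfl | rfl | rfl | rfl <;> simp

/-! ### Lemma A and Lemma B -/

/-- **Lemma A**: the closure of a full block of a minimal counterexample is the block, and the rest is
connected. -/
theorem VC.lemA (h : VC B Q X F i0) : X = B i0 ∩ Q ∧ F = {Q \ (B i0 ∩ Q)} ∧
    (ins B Q X).card ≤ 2 := by
  have h1 := h.lt
  have h2 := card_pos.2 h.F_ne
  have h3 := h.neg
  rcases h.shape with ⟨hX, hn⟩ | ⟨hX, hn⟩ | ⟨hX, hn⟩
  · have hXe : B i0 ∩ Q = X := eq_of_subset_of_card_le h.inc (by rw [h.c3, hX])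
    rcases (by omega : F.card = 1 ∨ F.card = 2) with hF | hF
    · obtain ⟨C, hC⟩ := card_eq_one.1 hF
      have h4 := h.clo.un
      rw [hC, singleton_biUnion, id] at h4
      refine ⟨hXe.symm, ?_, by omega⟩
      rw [hC, h4, hXe]
    · obtain ⟨M, L, hne, hF⟩ := card_eq_two.1 hF
      exact (h.not31 hX hn hF hne).elim
  · have hXe : B i0 ∩ Q = X := eq_of_subset_of_card_le h.inc (by rw [h.c3, hX])
    rcases (by omega : F.card = 1 ∨ F.card = 2) with hF | hF
    · obtain ⟨C, hC⟩ := card_eq_one.1 hF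
      have h4 := h.clo.un
      rw [hC, singleton_biUnion, id] at h4
      refine ⟨hXe.symm, ?_, by omega⟩
      rw [hC, h4, hXe]
    · obtain ⟨M, L, hne, hF⟩ := card_eq_two.1 hF
      exact (h.not32 hX hn hF hne).elim
  · rcases (by omega : F.card = 1 ∨ F.card = 2 ∨ F.card = 3) with hF | hF | hF
    · exfalso
      obtain ⟨C, hC⟩ := card_eq_one.1 hF
      have h4 := h.sum_dv
      rw [hC, sum_singleton, h.ee0, hX, hn] at h4
      have h5 := (h.cp (L := C) (by rw [hC]; simp)).d_ge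
      push_cast at h4
      linarith
    · obtain ⟨M, L, hne, hF⟩ := card_eq_two.1 hF
      exact (h.not42 hX hn hF hne).elim
    · exact (h.not43 hX hn hF).elim

/-- **Lemma A** for a minimal counterexample: for every full block the rest is connected and critical;
`n = 1` and four hits at each of the three points, or `n = 2`, the value is `-2` and the value of
the rest is `-1`. -/
theorem Viol.lemA (h : Viol B Q) {i : ι} (hi : (B i ∩ Q).card = 3) :
    Conn (gr B) (Q \ (B i ∩ Q)) ∧ Crit B (Q \ (B i ∩ Q)) ∧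
    rho B (Q \ (B i ∩ Q)) + 1 = rho B Q ∧ ¬ Abz B (Q \ (B i ∩ Q)) (B i ∩ Q) ∧
    sv B (Q \ (B i ∩ Q)) = sv B Q - 1 ∧
    (((ins B Q (B i ∩ Q)).card = 1 ∧ dv B Q (Q \ (B i ∩ Q)) = dv B Q Q + 5 ∧
      ∀ z ∈ B i ∩ Q, (Ez B (Q \ (B i ∩ Q)) z).card = 4) ∨
     ((ins B Q (B i ∩ Q)).card = 2 ∧ dv B Q Q = -2 ∧ dv B Q (Q \ (B i ∩ Q)) = -1 ∧
      ∀ z ∈ B i ∩ Q, (Ez B (Q \ (B i ∩ Q)) z).card +
        ((ins B Q (B i ∩ Q)).filter (fun j => z ∈ B j)).card = 5)) := by
  classical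
  obtain ⟨X, F, hv⟩ := h.exists_VC hi
  obtain ⟨hX, hF, hn⟩ := hv.lemA
  have hmem : Q \ (B i ∩ Q) ∈ F := by rw [hF]; simp
  have hX3 : X.card = 3 := by rw [hX, hi]
  have h1 := hv.sum_dv
  rw [hF, sum_singleton, hv.ee0, hX3, hX] at h1
  have h2 := (hv.cp hmem).d_ge
  have h3 := h.neg
  have h4 := card_pos.2 ⟨i, hv.i0_ins⟩
  have hrho : rho B (Q \ (B i ∩ Q)) + 1 = rho B Q := by
    have := hv.clo.rhoX
    rwa [hX] at this
  rw [hX] at hn h4
  push_cast at h1
  refine ⟨(hv.clo.parts _ hmem).2.2, hv.clo.crit _ hmem, hrho, ?_, ?_, ?_⟩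
  · intro hA
    have h5 := hv.clo.not_JA_X h.crit h.cov hv.Xne
    rw [hF, hX] at h5
    refine h5 (JA_of (fun _ => B i ∩ Q) ?_ ?_)
    · intro C hC
      rw [mem_singleton] at hC
      rw [hC]
      exact hA
    · intro z hz
      exact mem_biUnion.2 ⟨_, mem_singleton_self _, hz⟩
  · have h5 := card_sdiff_add_card_eq_card (inter_subset_right : B i ∩ Q ⊆ Q)
    unfold sv
    have h6 : ((Q \ (B i ∩ Q)).card : ℤ) + 3 = Q.card := by
      rw [hi] at h5
      exact_mod_cast h5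
    have h7 : (rho B (Q \ (B i ∩ Q)) : ℤ) + 1 = rho B Q := by exact_mod_cast hrho
    linarith
  · have hrow : ∀ z ∈ B i ∩ Q, (Ez B (Q \ (B i ∩ Q)) z).card +
        ((ins B Q (B i ∩ Q)).filter (fun j => z ∈ B j)).card = 5 := by
      intro z hz
      have h5 := hv.clo.row h.reg (z := z) (by rw [hX]; exact hz)
      rw [hF, sum_singleton, hX] at h5
      exact h5
    rcases (by omega : (ins B Q (B i ∩ Q)).card = 1 ∨ (ins B Q (B i ∩ Q)).card = 2) with h5 | h5
    · left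
      rw [h5] at h1
      push_cast at h1
      refine ⟨h5, by linarith, fun z hz => ?_⟩
      have h6 := hrow z hz
      have h7 : ((ins B Q (B i ∩ Q)).filter (fun j => z ∈ B j)).card = 1 := by
        have h8 : ins B Q (B i ∩ Q) = {i} :=
          ins_eq_singleton h5 (Subset.refl _) (card_pos.1 (by omega))
        rw [h8, filter_singleton, if_pos (mem_inter.1 hz).1, card_singleton]
      omega
    · right
      rw [h5] at h1
      push_cast at h1
      exact ⟨h5, by linarith, by linarith, hrow⟩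

/-- **Lemma B**: there is no reducible set `W`. -/
theorem Viol.lemB (h : Viol B Q) {W : Finset V} (hW : W ⊆ Q) (hne : W.Nonempty)
    {K : Finset (Finset V)}
    (hK1 : ∀ C ∈ K, C ⊆ Q \ W ∧ Closed (gr B) (Q \ W) C ∧ Conn (gr B) C) (hK2 : SepF B K)
    (hK3 : K.biUnion id = Q \ W) :
    5 * (W.card : ℤ) + 4 * ((ins B Q W).card : ℤ) <
      24 * ((rho B Q : ℤ) - rho B (Q \ W)) + 2 * (ee B Q W : ℤ) + K.card - 1 := by
  have hKQ : ∀ C ∈ K, C ⊆ Q := fun C hC => (hK1 C hC).1.trans sdiff_subset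
  have hcov := h.cov
  have hKcov : ∀ C ∈ K, Cov B C := fun C hC => hcov.mono (hKQ C hC)
  have hval : ∀ C ∈ K, -1 ≤ dv B Q C := by
    intro C hC
    have hneQ : C ≠ Q := by
      rintro rfl
      obtain ⟨w, hw⟩ := hne
      exact (mem_sdiff.1 ((hK1 _ hC).1 (hW hw))).2 hw
    have h1 := h.ih ι B C (card_lt_card (lt_of_le_of_ne (hKQ C hC) hneQ)) (h.reg.mono (hKQ C hC))
      (h.tr.mono (hKQ C hC)) (hK1 C hC).2.2 (not_KT_of_ssubset h.conn h.reg h.tr (hKQ C hC) hneQ)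
    have h2 : (ee B Q C : ℤ) ≤ ee B C C := by
      exact_mod_cast ee_le_ee (Subset.refl _) (hKQ C hC)
    unfold dv
    linarith
  have h2 := Pv_sdiff (B := B) hW
  rw [← hK3, Pv_biUnion hKcov hK2, hK3] at h2
  have hee : ee B Q Q = ∑ C ∈ K, ee B Q C + ee B Q W := by
    rw [← ee_biUnion hK2, hK3, ← ee_union sdiff_disjoint, sdiff_union_of_subset hW]
  have h6 : ∑ C ∈ K, (-1 : ℤ) ≤ ∑ C ∈ K, dv B Q C := sum_le_sum fun C hC => hval C hC
  rw [sum_const, nsmul_eq_mul] at h6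
  have h7 : ∑ C ∈ K, dv B Q C = ∑ C ∈ K, Pv B C - 2 * ∑ C ∈ K, (ee B Q C : ℤ) := by
    unfold dv
    rw [sum_sub_distrib, ← mul_sum]
  have c1 : (ee B Q Q : ℤ) = ∑ C ∈ K, (ee B Q C : ℤ) + ee B Q W := by
    rw [hee]
    push_cast
    ring
  have h8 := h.neg
  unfold dv at h8
  linarith

/-- **Lemma B** if the rest is connected. -/
theorem Viol.lemB1 (h : Viol B Q) {W : Finset V} (hW : W ⊆ Q) (hne : W.Nonempty)
    (hcon : Conn (gr B) (Q \ W)) :
    5 * (W.card : ℤ) + 4 * ((ins B Q W).card : ℤ) <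
      24 * ((rho B Q : ℤ) - rho B (Q \ W)) + 2 * (ee B Q W : ℤ) := by
  have h1 := h.lemB hW hne (K := {Q \ W}) (by
    intro C hC
    rw [mem_singleton] at hC
    rw [hC]
    exact ⟨Subset.refl _, ⟨Subset.refl _, fun x hx y hy _ => hy⟩, hcon⟩) (by
    intro C hC D hD hne
    rw [mem_singleton] at hC hD
    exact absurd (hC.trans hD.symm) hne) (by rw [singleton_biUnion, id])
  rw [card_singleton] at h1
  push_cast at h1
  linarith

end Pool.Agent.Hyp6
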