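import Pool.Agent.Hyp6.L3F
import Pool.Agent.Hyp6.L3LA

/-!
# HYP6 L3R: the second clause with the term for the single traces

`IHR`: `2 ee <= Pv` for sets with value at least one (stronger than `IHQ`). With `lv = dv` for negative
value and `dv - 1` for value `>= 0` every closing has the same form as at value `-1`.
-/

set_option autoImplicit false

namespace Pool.Agent.Hyp6

open Finset Pool.Agent.Hyp5

universe u v

/-- the strong second clause of the induction hypothesis of the level-3 theorem. -/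
def IHR (V : Type v) [DecidableEq V] (n : ℕ) : Prop :=
  ∀ (κ : Type u) [Fintype κ] (B : κ → Finset V) (Q : Finset V), Q.card < n → Reg B Q → Tr3 B Q →
    Conn (gr B) Q → ¬ KT B Q → 1 ≤ sv B Q → 2 * (ee B Q Q : ℤ) ≤ Pv B Q

/-- the strong level-3 theorem for value at least one. -/
def L3r (V : Type v) [DecidableEq V] : Prop :=
  ∀ (κ : Type u) [Fintype κ] (B : κ → Finset V) (Q : Finset V), Reg B Q → Tr3 B Q →
    Conn (gr B) Q → ¬ KT B Q → 1 ≤ sv B Q → 2 * (ee B Q Q : ℤ) ≤ Pv B Q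

section

variable {V : Type v} [DecidableEq V]

theorem IHR.mono {m n : ℕ} (h : IHR.{u} V n) (hmn : m ≤ n) : IHR.{u} V m :=
  fun κ _ B Q hQ => h κ B Q (lt_of_lt_of_le hQ hmn)

theorem IHR.ihq {n : ℕ} (h : IHR.{u} V n) : IHQ.{u} V n := fun κ _ B Q hn hr h3 hQ hK hs => by
  have h1 := h κ B Q hn hr h3 hQ hK hs
  have h2 : (0 : ℤ) ≤ ee B Q Q := by positivity
  linarith

theorem L3r.l3p (h : L3r.{u} V) : L3p.{u} V := fun κ _ B Q hr h3 hQ hK hs => by
  have h1 := h κ B Q hr h3 hQ hK hs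
  have h2 : (0 : ℤ) ≤ ee B Q Q := by positivity
  linarith

/-- both clauses: every set with value `>= 0` has `2 ee <= Pv`. -/
theorem ih_nonneg {n : ℕ} (h : IHE.{u} V n) (h' : IHR.{u} V n) {κ : Type u} [Fintype κ]
    {B : κ → Finset V} {Q : Finset V} (hn : Q.card < n) (hr : Reg B Q) (h3 : Tr3 B Q)
    (hQ : Conn (gr B) Q) (hK : ¬ KT B Q) (hs : 0 ≤ sv B Q) : 2 * (ee B Q Q : ℤ) ≤ Pv B Q := by
  by_cases h1 : 1 ≤ sv B Q
  · exact h' κ B Q hn hr h3 hQ hK h1
  · have h2 : sv B Q = 0 := by omega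
    have h4 := h κ B Q hn hr h3 hQ hK
    have h5 := Pp_even (B := B) Q
    have h6 := Pv_eq_Pp (B := B) Q
    omega

/-- **frame with both clauses, strong form**: value `0` and value at least one separately. -/
theorem L3both_of_partsR
    (h0 : ∀ (κ : Type u) [Fintype κ] (B : κ → Finset V) (Q : Finset V), IHE.{u} V Q.card →
      IHR.{u} V Q.card → Reg B Q → Tr3 B Q → Conn (gr B) Q → Crit B Q → sv B Q = 0 →
      ¬ KT B Q → -1 + 2 * (ee B Q Q : ℤ) ≤ Pv B Q)
    (h1 : ∀ (κ : Type u) [Fintype κ] (B : κ → Finset V) (Q : Finset V), IHE.{u} V Q.card →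
      IHR.{u} V Q.card → Reg B Q → Tr3 B Q → Conn (gr B) Q → Crit B Q → 1 ≤ sv B Q →
      ¬ KT B Q → 2 * (ee B Q Q : ℤ) ≤ Pv B Q) :
    L3e.{u} V ∧ L3r.{u} V := by
  classical
  have key : ∀ n, IHE.{u} V n ∧ IHR.{u} V n := by
    intro n
    induction n with
    | zero => exact ⟨fun κ _ B Q hn => by omega, fun κ _ B Q hn => by omega⟩
    | succ n ih =>
      have main : ∀ (κ : Type u) [Fintype κ] (B : κ → Finset V) (Q : Finset V),
          Q.card < n + 1 → Reg B Q → Tr3 B Q → Conn (gr B) Q → ¬ KT B Q →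
          -1 + 2 * (ee B Q Q : ℤ) ≤ Pv B Q ∧ (1 ≤ sv B Q → 2 * (ee B Q Q : ℤ) ≤ Pv B Q) := by
        intro κ _ B Q hn hr h3 hQ hK
        have ihE : IHE.{u} V Q.card := ih.1.mono (by omega)
        have ihR : IHR.{u} V Q.card := ih.2.mono (by omega)
        by_cases hcr : Crit B Q
        · rcases lt_trichotomy (sv B Q) 0 with hs | hs | hs
          · have h2 := L3_crit_neg (fun m => ihg V m) hr h3 hQ hcr (by omega)
            have h4 := crit_sv_ge hr hQ hcr
            have h5 := h2.1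
            refine ⟨?_, fun hh => by omega⟩
            rw [Pv_eq_Pp]
            linarith
          · exact ⟨h0 κ B Q ihE ihR hr h3 hQ hcr hs hK, fun hh => by omega⟩
          · have h2 := h1 κ B Q ihE ihR hr h3 hQ hcr (by omega) hK
            exact ⟨by linarith, fun _ => h2⟩
        · have h2 := Pv_nonneg_of_noncrit ihE hr h3 hQ hcr
          exact ⟨by linarith, fun _ => h2⟩
      exact ⟨fun κ _ B Q hn hr h3 hQ hK => (main κ B Q hn hr h3 hQ hK).1,
        fun κ _ B Q hn hr h3 hQ hK => (main κ B Q hn hr h3 hQ hK).2⟩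
  exact ⟨fun κ _ B Q hr h3 hQ hK =>
      (key (Q.card + 1)).1 κ B Q (Nat.lt_succ_self _) hr h3 hQ hK,
    fun κ _ B Q hr h3 hQ hK =>
      (key (Q.card + 1)).2 κ B Q (Nat.lt_succ_self _) hr h3 hQ hK⟩

end

section

variable {V : Type v} [DecidableEq V] {ι : Type u} [Fintype ι] {B : ι → Finset V}

open Classical in
/-- `dv` for negative value, `dv - 1` for value `>= 0`. -/
noncomputable def lv (B : ι → Finset V) (Q C : Finset V) : ℤ :=
  dv B Q C - if 0 ≤ sv B C then 1 else 0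

theorem lv_pos {Q C : Finset V} (h : 0 ≤ sv B C) : lv B Q C = dv B Q C - 1 := by
  unfold lv
  rw [if_pos h]

theorem lv_neg {Q C : Finset V} (h : sv B C ≤ -1) : lv B Q C = dv B Q C := by
  unfold lv
  rw [if_neg (by omega), sub_zero]

theorem lv_le (Q C : Finset V) : lv B Q C ≤ dv B Q C := by
  unfold lv
  split_ifs <;> linarith

variable {κ : Type} [Fintype κ] {C Y : Finset V} {E : V → Finset ι}
  {N : κ → Finset V}

/-- closing with both clauses: with `r` more blocks and `2 r` more points for value `>= 0` the bound is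
the one of value `-1` for `lv`. -/
theorem close_genR {Q : Finset V} {n : ℕ} (h : AbsData B C Y E N) (ih : IHE.{u} V n)
    (ihr : IHR.{u} V n) (hn : C.card + Y.card < n) (hr : Reg B Q) (hCQ : C ⊆ Q)
    (hC : Conn (gr B) C) (hE : ∀ y ∈ Y, ∀ i ∈ E y, 2 ≤ (B i ∩ Q).card)
    (hK : ¬ KT (absG B C Y E N) (C ∪ Y)) {r : ℕ}
    (hrho : rho B C + r ≤ rho (absG B C Y E N) (C ∪ Y)) {Y2 : Finset V} (hY2 : Y2 ⊆ Y)
    (hN2 : ∀ y ∈ Y2, 2 ≤ (univ.filter (fun c => N c = {y})).card)
    (h2r : 0 ≤ sv B C → 2 * r ≤ Y.card) :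
    2 * (Y2.card : ℤ) + 24 * (r : ℤ) ≤
      lv B Q C + 5 * (Y.card : ℤ) + 4 * (Fintype.card κ : ℤ) + 1 := by
  have hc : (C ∪ Y).card = C.card + Y.card := card_union_of_disjoint h.dis
  have hc' : ((C ∪ Y).card : ℤ) = C.card + Y.card := by exact_mod_cast hc
  have ht3 : Tr3 (absG B C Y E N) (C ∪ Y) := fun k =>
    (card_le_card inter_subset_left).trans (h.small k)
  have hlt : (C ∪ Y).card < n := by rw [hc]; exact hn
  have hr' := h.reg (hr.mono hCQ)
  have hcn := h.conn hC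
  have hok := ih (ι ⊕ κ) (absG B C Y E N) (C ∪ Y) hlt hr' ht3 hcn hK
  have hee := h.ee_ge hCQ hE hY2 hN2
  have h2 := h.Pv_eq
  have h3 : (rho B C : ℤ) + r ≤ rho (absG B C Y E N) (C ∪ Y) := by exact_mod_cast hrho
  have h4 : (ee B Q C : ℤ) + Y2.card ≤ ee (absG B C Y E N) (C ∪ Y) (C ∪ Y) := by
    exact_mod_cast hee
  by_cases hs : 0 ≤ sv B C
  · rw [lv_pos hs]
    unfold dv
    rcases hrho.lt_or_eq with h5 | h5
    · have h6 : (rho B C : ℤ) + r + 1 ≤ rho (absG B C Y E N) (C ∪ Y) := by exact_mod_cast h5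
      linarith
    · have h6 : (rho B C : ℤ) + r = rho (absG B C Y E N) (C ∪ Y) := by exact_mod_cast h5
      have h7 : 0 ≤ sv (absG B C Y E N) (C ∪ Y) := by
        have h8 : (2 * r : ℤ) ≤ Y.card := by exact_mod_cast h2r hs
        unfold sv at hs ⊢
        linarith
      have h8 := ih_nonneg ih ihr hlt hr' ht3 hcn hK h7
      linarith
  · rw [lv_neg (by omega)]
    unfold dv
    linarith

/-- absorption with both clauses. -/
theorem AbsData.absorbR {n : ℕ} (ih : IHE.{u} V n) (ihr : IHR.{u} V n) (h : AbsData B C Y E N)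
    {Q : Finset V} (hr : Reg B Q) (hCQ : C ⊆ Q)
    (hC : Conn (gr B) C) (hk : ¬ KT (absG B C Y E N) (C ∪ Y)) (hn : C.card + Y.card < n)
    (hE : ∀ y ∈ Y, ∀ i ∈ E y, 2 ≤ (B i ∩ Q).card) {Y2 : Finset V} (hY2 : Y2 ⊆ Y)
    (hN2 : ∀ y ∈ Y2, 2 ≤ (univ.filter (fun c => N c = {y})).card) (hY : 2 ≤ Y.card)
    (hd : lv B Q C + 5 * (Y.card : ℤ) + 4 * (Fintype.card κ : ℤ) ≤ 22 + 2 * (Y2.card : ℤ)) :
    ∃ T : Finset ι, C ⊆ T.biUnion B ∧ T.card ≤ rho B C ∧ ∀ y ∈ Y, ∃ i ∈ T, i ∈ E y := by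
  classical
  by_contra hcon
  push Not at hcon
  have hreg := h.reg (hr.mono hCQ)
  have h1 : rho B C + 1 ≤ rho (absG B C Y E N) (C ∪ Y) := by
    refine h.rho_ge (cov_of_reg hreg) fun T K hT hK => ?_
    have h2 := Hyp6.rho_le hT
    rcases K.eq_empty_or_nonempty with rfl | hKne
    · by_contra h3
      have h4 : T.card ≤ rho B C := by
        rw [card_empty] at h3
        omega
      obtain ⟨y, hy, h5⟩ := hcon T hT h4
      rcases hK y hy with ⟨i, hi, hiE⟩ | ⟨c, hc, _⟩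
      · exact h5 i hi hiE
      · exact absurd hc (notMem_empty _)
    · have := card_pos.2 hKne
      omega
  have h2 := close_genR h ih ihr hn hr hCQ hC hE hk (r := 1) h1 hY2 hN2 (fun _ => by omega)
  push_cast at h2
  linarith

end

end Pool.Agent.Hyp6
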