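import Pool.Agent.Hyp6.L3Wr
import Pool.Agent.Hyp6.L3R

/-!
# HYP6 L3Gd: the general deletion

The set `L` absorbs `X`; `L`, `X` and the full blocks of `I` are deleted, the points of `Y` (all other
contact points of `L` and the remaining points of the blocks of `I`) get new blocks instead of the
deleted ones, and every set of `k` new blocks can be absorbed by `L` with `X` at the cost `k`. Then the
value of `Q` is at least the value of `L` plus `5 |X| + 4 |I| - 4 |N|` plus the value of the new system.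
-/

set_option autoImplicit false

namespace Pool.Agent.Hyp6

open Finset Pool.Agent.Hyp5

universe u v

variable {V : Type v} [DecidableEq V] {ι : Type u} [Fintype ι] {κ : Type u} [Fintype κ]
  {B : ι → Finset V}

/-- the data of a general deletion. -/
structure Gdl (B : ι → Finset V) (Q L X Y : Finset V) (I : Finset ι) (E : V → Finset ι)
    (N : κ → Finset V) : Prop where
  reg : Reg B Q
  tr : Tr3 B Q
  LQ : L ⊆ Q
  XQ : X ⊆ Q
  YQ : Y ⊆ Q
  dLX : Disjoint L X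
  dLY : Disjoint L Y
  dXY : Disjoint X Y
  con : ∀ i, (B i ∩ L).Nonempty → B i ∩ Q ⊆ (L ∪ X) ∪ Y
  full : ∀ i ∈ I, B i ∩ Q ⊆ X ∪ Y ∧ (B i ∩ Q).card = 3
  mem : ∀ y ∈ Y, ∀ i ∈ E y, y ∈ B i
  keep : ∀ y ∈ Y, ∀ i ∈ E y, ¬ (B i ∩ L).Nonempty ∧ i ∉ I
  subN : ∀ c, N c ⊆ Y
  deg : ∀ y ∈ Y, (E y).card + (univ.filter (fun c => y ∈ N c)).card = 5
  sizeN : ∀ c, (N c).card ≤ 3
  cost : ∀ K : Finset κ, rho B ((L ∪ X) ∪ K.biUnion N) ≤ rho B L + K.card

namespace Gdl

variable {Q L X Y : Finset V} {I : Finset ι} {E : V → Finset ι} {N : κ → Finset V}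

/-- the unchanged points. -/
def rm (Q L X Y : Finset V) : Finset V := Q \ ((L ∪ X) ∪ Y)

/-- the blocks which disappear completely. -/
noncomputable def lost (B : ι → Finset V) (Q L X Y : Finset V) (I : Finset ι)
    (E : V → Finset ι) : Finset ι := by
  classical
  exact univ.filter (fun i => (B i ∩ Q).Nonempty ∧ ¬ (B i ∩ L).Nonempty ∧ i ∉ I ∧
    ¬ (B i ∩ rm Q L X Y).Nonempty ∧ ∀ y ∈ Y, i ∉ E y)

theorem mem_lost {i : ι} : i ∈ lost B Q L X Y I E ↔ (B i ∩ Q).Nonempty ∧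
    ¬ (B i ∩ L).Nonempty ∧ i ∉ I ∧ ¬ (B i ∩ rm Q L X Y).Nonempty ∧ ∀ y ∈ Y, i ∉ E y := by
  unfold lost
  simp

theorem mem_rm {v : V} : v ∈ rm Q L X Y ↔ v ∈ Q ∧ v ∉ L ∧ v ∉ X ∧ v ∉ Y := by
  unfold rm
  simp only [mem_sdiff, mem_union]
  tauto

theorem wir (h : Gdl B Q L X Y I E N) : Wir B Q (rm Q L X Y) Y E N where
  CQ := sdiff_subset
  YQ := h.YQ
  dis := disjoint_left.2 fun _ hv => (mem_rm.1 hv).2.2.2
  mem := h.mem
  subN := h.subN
  deg := h.deg
  sizeN := h.sizeN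

theorem cov (h : Gdl B Q L X Y I E N) : Cov B Q := cov_of_reg h.reg

/-- **the cover number of the new system**. -/
theorem rho_le (h : Gdl B Q L X Y I E N) :
    rho B Q ≤ rho B L + rho (absG B (rm Q L X Y) Y E N) (rm Q L X Y ∪ Y) := by
  classical
  have h1 : rho B Q - rho B L ≤ rho (absG B (rm Q L X Y) Y E N) (rm Q L X Y ∪ Y) := by
    refine h.wir.rho_ge' h.reg fun K Y' hY' _ hK => ?_
    have hNK : K.biUnion N ⊆ Q := biUnion_subset.2 fun c _ => (h.subN c).trans h.YQ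
    have h2 : rho B Q ≤ rho B ((L ∪ X) ∪ K.biUnion N) + rho B (rm Q L X Y ∪ Y') := by
      refine le_trans (rho_mono ?_ ?_) (rho_union_le ?_ ?_)
      · intro v hv
        by_cases h3 : v ∈ L ∪ X
        · exact mem_union_left _ (mem_union_left _ h3)
        by_cases h4 : v ∈ Y
        · by_cases h5 : ∀ c ∈ K, v ∉ N c
          · exact mem_union_right _ (mem_union_right _ (hK v h4 h5))
          · push Not at h5
            obtain ⟨c, hc, hvc⟩ := h5
            exact mem_union_left _ (mem_union_right _ (mem_biUnion.2 ⟨c, hc, hvc⟩))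
        · refine mem_union_right _ (mem_union_left _ (mem_rm.2 ⟨hv, ?_, ?_, h4⟩))
          · exact fun h5 => h3 (mem_union_left _ h5)
          · exact fun h5 => h3 (mem_union_right _ h5)
      · exact h.cov.mono (union_subset (union_subset (union_subset h.LQ h.XQ) hNK)
          (union_subset sdiff_subset (hY'.trans h.YQ)))
      · exact h.cov.mono (union_subset (union_subset h.LQ h.XQ) hNK)
      · exact h.cov.mono (union_subset sdiff_subset (hY'.trans h.YQ))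
    have h3 := h.cost K
    omega
  omega

/-- the count of the blocks. -/
theorem cm_ge (h : Gdl B Q L X Y I E N) :
    cm (absG B (rm Q L X Y) Y E N) (rm Q L X Y ∪ Y) + (cm B L + I.card +
      (lost B Q L X Y I E).card) ≤ cm B Q + Fintype.card κ := by
  classical
  set C := rm Q L X Y with hC
  set S : Finset ι := univ.filter (fun i => B i ∩ C = ∅ ∧ ∃ y ∈ Y, i ∈ E y) with hS
  have h1 := h.wir.cm_le (S := S) (fun y hy i hi h0 =>
    mem_filter.2 ⟨mem_univ _, h0, y, hy, hi⟩)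
  rw [← hC] at h1
  have hCQ : C ⊆ Q := sdiff_subset
  -- disjointness
  have d1 : Disjoint (tch B L) (tch B C) := by
    rw [disjoint_left]
    intro i hi hi'
    obtain ⟨v, hv⟩ := cost_mem_tch.1 hi'
    obtain ⟨hvi, hvC⟩ := mem_inter.1 hv
    have h2 := h.con i (cost_mem_tch.1 hi) (mem_inter.2 ⟨hvi, hCQ hvC⟩)
    obtain ⟨_, h3, h4, h5⟩ := mem_rm.1 hvC
    rcases mem_union.1 h2 with h6 | h6
    · rcases mem_union.1 h6 with h7 | h7
      · exact h3 h7
      · exact h4 h7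
    · exact h5 h6
  have d2 : Disjoint (tch B L ∪ tch B C) I := by
    rw [disjoint_left]
    intro i hi hiI
    have hf := (h.full i hiI).1
    rcases mem_union.1 hi with h2 | h2
    · obtain ⟨v, hv⟩ := cost_mem_tch.1 h2
      obtain ⟨hvi, hvL⟩ := mem_inter.1 hv
      rcases mem_union.1 (hf (mem_inter.2 ⟨hvi, h.LQ hvL⟩)) with h3 | h3
      · exact disjoint_left.1 h.dLX hvL h3
      · exact disjoint_left.1 h.dLY hvL h3
    · obtain ⟨v, hv⟩ := cost_mem_tch.1 h2
      obtain ⟨hvi, hvC⟩ := mem_inter.1 hv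
      obtain ⟨h4, _, h5, h6⟩ := mem_rm.1 hvC
      rcases mem_union.1 (hf (mem_inter.2 ⟨hvi, h4⟩)) with h3 | h3
      · exact h5 h3
      · exact h6 h3
  have d3 : Disjoint ((tch B L ∪ tch B C) ∪ I) S := by
    rw [disjoint_left]
    intro i hi hiS
    obtain ⟨_, h2, y, hy, hiy⟩ := mem_filter.1 hiS
    rcases mem_union.1 hi with h3 | h3
    · rcases mem_union.1 h3 with h4 | h4
      · exact (h.keep y hy i hiy).1 (cost_mem_tch.1 h4)
      · have h5 := cost_mem_tch.1 h4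
        rw [h2] at h5
        exact not_nonempty_empty h5
    · exact (h.keep y hy i hiy).2 h3
  have d4 : Disjoint (((tch B L ∪ tch B C) ∪ I) ∪ S) (lost B Q L X Y I E) := by
    rw [disjoint_left]
    intro i hi hil
    obtain ⟨_, h2, h3, h4, h5⟩ := mem_lost.1 hil
    rcases mem_union.1 hi with h6 | h6
    · rcases mem_union.1 h6 with h7 | h7
      · rcases mem_union.1 h7 with h8 | h8
        · exact h2 (cost_mem_tch.1 h8)
        · exact h4 (cost_mem_tch.1 h8)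
      · exact h3 h7
    · obtain ⟨_, _, y, hy, hiy⟩ := mem_filter.1 h6
      exact h5 y hy hiy
  have hsub : (((tch B L ∪ tch B C) ∪ I) ∪ S) ∪ lost B Q L X Y I E ⊆ tch B Q := by
    intro i hi
    rw [cost_mem_tch]
    rcases mem_union.1 hi with h6 | h6
    · rcases mem_union.1 h6 with h7 | h7
      · rcases mem_union.1 h7 with h8 | h8
        · rcases mem_union.1 h8 with h9 | h9
          · exact (cost_mem_tch.1 h9).mono (inter_subset_inter_left h.LQ)
          · exact (cost_mem_tch.1 h9).mono (inter_subset_inter_left hCQ)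
        · exact card_pos.1 (by rw [(h.full i h8).2]; norm_num)
      · obtain ⟨_, _, y, hy, hiy⟩ := mem_filter.1 h7
        exact ⟨y, mem_inter.2 ⟨h.mem y hy i hiy, h.YQ hy⟩⟩
    · exact (mem_lost.1 h6).1
  have h2 := card_le_card hsub
  rw [card_union_of_disjoint d4, card_union_of_disjoint d3, card_union_of_disjoint d2,
    card_union_of_disjoint d1] at h2
  unfold Hyp6.cm at h1 ⊢
  omega

/-- the lost blocks pay for the lost single traces. -/
theorem ee_lost (h : Gdl B Q L X Y I E N) {Y3 : Finset V} (hY3 : Y3 ⊆ Y)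
    (hd : ∀ y ∈ Y3, ∃ i, B i ∩ Q = {y} ∧ i ∉ E y) :
    ee B Q X + ee B Q Y3 ≤ (lost B Q L X Y I E).card := by
  classical
  have h1 := two_ee_le (B := B) Q X
  set S := (ins B Q X).filter (fun i => (B i ∩ Q).card = 1) with hS
  have hSl : S ⊆ lost B Q L X Y I E := by
    intro i hi
    obtain ⟨h2, h3⟩ := mem_filter.1 hi
    obtain ⟨h4, h5⟩ := mem_ins.1 h2
    refine mem_lost.2 ⟨h4, ?_, ?_, ?_, ?_⟩
    · rintro ⟨v, hv⟩
      obtain ⟨hvi, hvL⟩ := mem_inter.1 hv
      exact disjoint_left.1 h.dLX hvL (h5 (mem_inter.2 ⟨hvi, h.LQ hvL⟩))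
    · intro hI
      have := (h.full i hI).2
      omega
    · rintro ⟨v, hv⟩
      obtain ⟨hvi, hvC⟩ := mem_inter.1 hv
      obtain ⟨h6, _, h7, _⟩ := mem_rm.1 hvC
      exact h7 (h5 (mem_inter.2 ⟨hvi, h6⟩))
    · intro y hy hiy
      have h6 := h5 (mem_inter.2 ⟨h.mem y hy i hiy, h.YQ hy⟩)
      exact disjoint_left.1 h.dXY h6 hy
  rcases Y3.eq_empty_or_nonempty with rfl | ⟨y0, hy0⟩
  · rw [ee_empty]
    have := card_le_card hSl
    omega
  have : Nonempty ι := ⟨(hd y0 hy0).choose⟩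
  choose! f hf using hd
  have hinj : Set.InjOn f (Y3 : Set V) := by
    intro a ha b hb hab
    have h2 := (hf a ha).1
    have h3 := (hf b hb).1
    rw [hab, h3] at h2
    exact (singleton_injective h2).symm
  have hfl : Y3.image f ⊆ lost B Q L X Y I E := by
    intro i hi
    obtain ⟨y, hy, rfl⟩ := mem_image.1 hi
    obtain ⟨h2, h3⟩ := hf y hy
    have hyi : y ∈ B (f y) ∩ Q := by rw [h2]; exact mem_singleton_self y
    have hall : ∀ v, v ∈ B (f y) → v ∈ Q → v = y := by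
      intro v hv hvQ
      have h4 : v ∈ B (f y) ∩ Q := mem_inter.2 ⟨hv, hvQ⟩
      rw [h2] at h4
      exact mem_singleton.1 h4
    refine mem_lost.2 ⟨⟨y, hyi⟩, ?_, ?_, ?_, ?_⟩
    · rintro ⟨v, hv⟩
      obtain ⟨hvi, hvL⟩ := mem_inter.1 hv
      have h4 := hall v hvi (h.LQ hvL)
      rw [h4] at hvL
      exact disjoint_left.1 h.dLY hvL (hY3 hy)
    · intro hI
      have h4 := (h.full _ hI).2
      rw [h2, card_singleton] at h4
      omega
    · rintro ⟨v, hv⟩
      obtain ⟨hvi, hvC⟩ := mem_inter.1 hv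
      obtain ⟨h6, _, _, h7⟩ := mem_rm.1 hvC
      have h4 := hall v hvi h6
      rw [h4] at h7
      exact h7 (hY3 hy)
    · intro y' hy' hiy
      have h4 := hall y' (h.mem y' hy' _ hiy) (h.YQ hy')
      rw [h4] at hiy
      exact h3 hiy
  have hdis : Disjoint S (Y3.image f) := by
    rw [disjoint_left]
    intro i hi hi'
    obtain ⟨y, hy, rfl⟩ := mem_image.1 hi'
    have h2 := (mem_ins.1 (mem_filter.1 hi).1).2
    have hyi : y ∈ B (f y) ∩ Q := by rw [(hf y hy).1]; exact mem_singleton_self y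
    exact disjoint_left.1 h.dXY (h2 hyi) (hY3 hy)
  have h2 := card_le_card (union_subset hSl hfl)
  rw [card_union_of_disjoint hdis, card_image_of_injOn hinj] at h2
  have h3 : ee B Q Y3 ≤ Y3.card := card_filter_le _ _
  omega

/-- **the general deletion**. `Y2` is a set of points of `Y` with two new single blocks. -/
theorem main (h : Gdl B Q L X Y I E N) {n : ℕ} (ih : IHE.{u} V n) (ihr : IHR.{u} V n)
    (hn : (rm Q L X Y).card + Y.card < n)
    (hconn : Conn (gr (absG B (rm Q L X Y) Y E N)) (rm Q L X Y ∪ Y))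
    (hK : ¬ KT (absG B (rm Q L X Y) Y E N) (rm Q L X Y ∪ Y)) {Y2 : Finset V} (hY2 : Y2 ⊆ Y)
    (hN2 : ∀ y ∈ Y2, 2 ≤ (univ.filter (fun c => N c = {y})).card) (hY2e : ee B Q Y2 = 0) :
    dv B Q L + 5 * (X.card : ℤ) + 4 * (I.card : ℤ) + 2 * ((lost B Q L X Y I E).card : ℤ) +
      2 * (Y2.card : ℤ) - 4 * (Fintype.card κ : ℤ) - 1 ≤ dv B Q Q ∧
    ((X.card : ℤ) ≤ sv B Q - sv B L →
      dv B Q L + 5 * (X.card : ℤ) + 4 * (I.card : ℤ) + 2 * ((lost B Q L X Y I E).card : ℤ) +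
      2 * (Y2.card : ℤ) - 4 * (Fintype.card κ : ℤ) ≤ dv B Q Q) := by
  classical
  have hw := h.wir
  have hrho := h.rho_le
  have hcm := h.cm_ge
  set C := rm Q L X Y with hC
  set B' := absG B C Y E N with hB'
  -- the points with all single blocks kept
  set Y1 := (Y \ Y2).filter (fun y => ∀ i, B i ∩ Q = {y} → i ∈ E y) with hY1
  set Y3 := (Y \ Y2).filter (fun y => ¬ ∀ i, B i ∩ Q = {y} → i ∈ E y) with hY3
  have hY1Y : Y1 ⊆ Y := (filter_subset _ _).trans sdiff_subset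
  have hY3Y : Y3 ⊆ Y := (filter_subset _ _).trans sdiff_subset
  have hee := hw.ee_ge (Y1 := Y1) (Y2 := Y2) hY1Y hY2
    (disjoint_left.2 fun v hv hv' => (mem_sdiff.1 (mem_filter.1 hv).1).2 hv')
    (fun y hy => (mem_filter.1 hy).2) hN2
  rw [← hB'] at hee
  have hlost := h.ee_lost (Y3 := Y3) hY3Y (fun y hy => by
    have h1 := (mem_filter.1 hy).2
    push Not at h1
    exact h1)
  have hCQ : C ⊆ Q := sdiff_subset
  have hdC : Disjoint ((L ∪ X) ∪ Y) C := disjoint_sdiff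
  have hQe : ((L ∪ X) ∪ Y) ∪ C = Q :=
    union_sdiff_of_subset (union_subset (union_subset h.LQ h.XQ) h.YQ)
  have hdY : Disjoint (L ∪ X) Y := by
    rw [disjoint_union_left]
    exact ⟨h.dLY, h.dXY⟩
  have heQ : ee B Q Q = ee B Q L + ee B Q X + ee B Q Y + ee B Q C := by
    have h1 := ee_union (B := B) (Q := Q) hdC
    rw [hQe, ee_union hdY, ee_union h.dLX] at h1
    exact h1
  have heY : ee B Q Y = ee B Q Y1 + ee B Q Y3 := by
    have h1 := ee_union (B := B) (Q := Q) (P := Y2) (P' := Y \ Y2) disjoint_sdiff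
    rw [union_sdiff_of_subset hY2, hY2e, zero_add] at h1
    have h2 : Y1 ∪ Y3 = Y \ Y2 := filter_union_filter_not_eq _ _
    have h3 : Disjoint Y1 Y3 := disjoint_filter_filter_not _ _ _
    have h4 := ee_union (B := B) (Q := Q) h3
    rw [h2] at h4
    rw [h1, h4]
  have hcard : Q.card = L.card + X.card + Y.card + C.card := by
    conv_lhs => rw [← hQe]
    rw [card_union_of_disjoint hdC, card_union_of_disjoint hdY, card_union_of_disjoint h.dLX]
  have hCY : (C ∪ Y).card = C.card + Y.card := card_union_of_disjoint hw.dis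
  have ht3 := hw.tr3 h.tr
  have hr' := hw.reg h.reg
  have hlt : (C ∪ Y).card < n := by rw [hCY]; exact hn
  have hok := ih (ι ⊕ κ) B' (C ∪ Y) hlt hr' ht3 hconn hK
  have hok2 : 0 ≤ sv B' (C ∪ Y) → 2 * (ee B' (C ∪ Y) (C ∪ Y) : ℤ) ≤ Pv B' (C ∪ Y) := fun hs =>
    ih_nonneg ih ihr hlt hr' ht3 hconn hK hs
  have hPv' := Pv_eq (B := B') (C ∪ Y)
  have hPvQ := Pv_eq (B := B) Q
  have hPvL := Pv_eq (B := B) L
  have hsv' : sv B' (C ∪ Y) = (C.card : ℤ) + Y.card - 2 * (rho B' (C ∪ Y) : ℤ) := by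
    unfold sv
    rw [hCY]
    push_cast
    ring
  have hsvQ : sv B Q = (L.card : ℤ) + X.card + Y.card + C.card - 2 * (rho B Q : ℤ) := by
    unfold sv
    rw [hcard]
    push_cast
    ring
  have hsvL : sv B L = (L.card : ℤ) - 2 * (rho B L : ℤ) := rfl
  rw [hCY] at hPv'
  rw [hcard] at hPvQ
  unfold dv
  push_cast at hPv' hPvQ
  rw [hPvQ, hPvL, heQ, heY]
  rw [hPv'] at hok hok2
  rw [hsv'] at hok2
  push_cast
  constructor
  · omega
  · intro hX
    rw [hsvQ, hsvL] at hX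
    rcases Nat.lt_or_ge (rho B Q) (rho B L + rho B' (C ∪ Y)) with h1 | h1
    · omega
    · have h2 := hok2 (by omega)
      omega

/-- **the connectivity criterion**. -/
theorem conn_of (h : Gdl B Q L X Y I E N) (hYne : Y.Nonempty)
    (hlink : ∀ Z ⊆ Y, Z.Nonempty → Z ≠ Y → ∃ c, (N c ∩ Z).Nonempty ∧ (N c \ Z).Nonempty)
    (hpart : ∀ W ⊆ rm Q L X Y, Closed (gr B) (rm Q L X Y) W → W.Nonempty →
      ∃ y ∈ Y, ∃ i ∈ E y, (B i ∩ W).Nonempty) :
    Conn (gr (absG B (rm Q L X Y) Y E N)) (rm Q L X Y ∪ Y) := by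
  classical
  have hw := h.wir
  set C := rm Q L X Y with hC
  refine ⟨hYne.mono subset_union_right, fun Z hZ hne => ?_⟩
  -- the trace of a closed set on `C`, and the rest of `C`
  have hclo : Closed (gr B) C (Z ∩ C) := by
    refine ⟨inter_subset_right, fun x hx y hy hxy => ?_⟩
    obtain ⟨hx1, hx2⟩ := mem_inter.1 hx
    exact mem_inter.2 ⟨hZ.2 x hx1 y (mem_union_left _ hy) (hw.adj_C hx2 hy hxy), hy⟩
  have hclo' : Closed (gr B) C (C \ Z) := by
    refine ⟨sdiff_subset, fun x hx y hy hxy => ?_⟩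
    obtain ⟨hx1, hx2⟩ := mem_sdiff.1 hx
    exact mem_sdiff.2 ⟨hy, fun hyZ => hx2 (hZ.2 y hyZ x (mem_union_left _ hx1)
      (hw.adj_C hy hx1 hxy.symm))⟩
  have hYZ : (Z ∩ Y).Nonempty := by
    by_contra h0
    rw [not_nonempty_iff_eq_empty] at h0
    have h1 : (Z ∩ C).Nonempty := by
      obtain ⟨v, hv⟩ := hne
      rcases mem_union.1 (hZ.1 hv) with h2 | h2
      · exact ⟨v, mem_inter.2 ⟨hv, h2⟩⟩
      · have h3 : v ∈ Z ∩ Y := mem_inter.2 ⟨hv, h2⟩
        rw [h0] at h3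
        exact absurd h3 (notMem_empty _)
    obtain ⟨y, hy, i, hi, w, hw'⟩ := hpart (Z ∩ C) inter_subset_right hclo h1
    obtain ⟨hwi, hwZ⟩ := mem_inter.1 hw'
    obtain ⟨hwZ', hwC⟩ := mem_inter.1 hwZ
    have h2 : y ∈ Z := hZ.2 w hwZ' y (mem_union_right _ hy) (hw.adj_Y hy hwC hi hwi).symm
    have h3 : y ∈ Z ∩ Y := mem_inter.2 ⟨h2, hy⟩
    rw [h0] at h3
    exact absurd h3 (notMem_empty _)
  have hall : Z ∩ Y = Y := by
    by_contra hne'
    obtain ⟨c, ⟨a, ha⟩, ⟨b, hb⟩⟩ := hlink (Z ∩ Y) inter_subset_right hYZ hne'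
    obtain ⟨ha1, ha2⟩ := mem_inter.1 ha
    obtain ⟨ha3, ha4⟩ := mem_inter.1 ha2
    obtain ⟨hb1, hb2⟩ := mem_sdiff.1 hb
    have hbY : b ∈ Y := h.subN c hb1
    have hab : a ≠ b := by
      rintro rfl
      exact hb2 ha2
    have h3 : b ∈ Z := hZ.2 a ha3 b (mem_union_right _ hbY) (hw.adj_N hab ha1 hb1)
    exact hb2 (mem_inter.2 ⟨h3, hbY⟩)
  refine subset_antisymm hZ.1 ?_
  intro v hv
  rcases mem_union.1 hv with h1 | h1
  · by_contra h2
    obtain ⟨y, hy, i, hi, w, hw'⟩ := hpart (C \ Z) sdiff_subset hclo'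
      ⟨v, mem_sdiff.2 ⟨h1, h2⟩⟩
    obtain ⟨hwi, hwZ⟩ := mem_inter.1 hw'
    obtain ⟨hwC, hwZ'⟩ := mem_sdiff.1 hwZ
    have hyZ : y ∈ Z := by
      have : y ∈ Z ∩ Y := by
        rw [hall]
        exact hy
      exact (mem_inter.1 this).1
    exact hwZ' (hZ.2 y hyZ w (mem_union_left _ hwC) (hw.adj_Y hy hwC hi hwi))
  · have : v ∈ Z ∩ Y := by
      rw [hall]
      exact h1
    exact (mem_inter.1 this).1

/-- the criterion for `X` inside a full block with connected rest: the contact points outside of the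
full block keep their blocks at the rest. -/
theorem conn_one (h : Gdl B Q L X Y I E N) (hYne : Y.Nonempty) (hLne : L.Nonempty) {i0 : ι}
    (hXT : X ⊆ B i0 ∩ Q) (hLT : Disjoint L (B i0 ∩ Q))
    (hconn : Conn (gr B) (Q \ (B i0 ∩ Q)))
    (hlink : ∀ Z ⊆ Y, Z.Nonempty → Z ≠ Y → ∃ c, (N c ∩ Z).Nonempty ∧ (N c \ Z).Nonempty)
    (hkeep : ∀ y ∈ Y, y ∉ B i0 → ∀ i, y ∈ B i → (B i ∩ rm Q L X Y).Nonempty → i ∈ E y)
    (hTY : B i0 ∩ Q ⊆ X ∪ Y) :
    Conn (gr (absG B (rm Q L X Y) Y E N)) (rm Q L X Y ∪ Y) := by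
  classical
  refine h.conn_of hYne hlink fun W hW hWc hWne => ?_
  by_contra hcon
  push Not at hcon
  have hWT : W ⊆ Q \ (B i0 ∩ Q) := by
    intro v hv
    obtain ⟨h1, _, h2, h3⟩ := mem_rm.1 (hW hv)
    refine mem_sdiff.2 ⟨h1, fun h4 => ?_⟩
    rcases mem_union.1 (hTY h4) with h5 | h5
    · exact h2 h5
    · exact h3 h5
  have hcl : Closed (gr B) (Q \ (B i0 ∩ Q)) W := by
    refine ⟨hWT, fun v hv w hw hvw => ?_⟩
    obtain ⟨hwQ, hwT⟩ := mem_sdiff.1 hw
    obtain ⟨hne, i, hi1, hi2⟩ := hvw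
    have hvC := hW hv
    obtain ⟨hvQ, hvL, hvX, hvY⟩ := mem_rm.1 hvC
    by_cases hwC : w ∈ rm Q L X Y
    · exact hWc.2 v hv w hwC ⟨hne, i, hi1, hi2⟩
    exfalso
    by_cases hwL : w ∈ L
    · have h1 := h.con i ⟨w, mem_inter.2 ⟨hi2, hwL⟩⟩ (mem_inter.2 ⟨hi1, hvQ⟩)
      rcases mem_union.1 h1 with h2 | h2
      · rcases mem_union.1 h2 with h3 | h3
        · exact hvL h3
        · exact hvX h3
      · exact hvY h2
    by_cases hwX : w ∈ X
    · exact hwT (hXT hwX)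
    by_cases hwY : w ∈ Y
    · have hwi0 : w ∉ B i0 := fun h1 => hwT (mem_inter.2 ⟨h1, hwQ⟩)
      have h1 := hkeep w hwY hwi0 i hi2 ⟨v, mem_inter.2 ⟨hi1, hvC⟩⟩
      have h2 := hcon w hwY i h1
      have h3 : v ∈ B i ∩ W := mem_inter.2 ⟨hi1, hv⟩
      rw [h2] at h3
      exact notMem_empty _ h3
    · exact hwC (mem_rm.2 ⟨hwQ, hwL, hwX, hwY⟩)
  have heq := hconn.2 W hcl hWne
  obtain ⟨l, hl⟩ := hLne
  have hlT : l ∈ Q \ (B i0 ∩ Q) :=
    mem_sdiff.2 ⟨h.LQ hl, fun h1 => disjoint_left.1 hLT hl h1⟩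
  rw [← heq] at hlT
  exact (mem_rm.1 (hW hlT)).2.1 hl

/-- a small new block. -/
theorem nkt (h : Gdl B Q L X Y I E N) {c : κ} (hc : (N c).Nonempty) (hc2 : (N c).card ≤ 2) :
    ¬ KT (absG B (rm Q L X Y) Y E N) (rm Q L X Y ∪ Y) := by
  intro hKT
  have hw := h.wir
  have hne : (absG B (rm Q L X Y) Y E N (Sum.inr c) ∩ (rm Q L X Y ∪ Y)).Nonempty := by
    rw [hw.inter_self]
    obtain ⟨v, hv⟩ := hc
    exact ⟨v, mem_absG_inr.2 hv⟩
  have h1 := hKT.trace (hw.reg h.reg) (hw.tr3 h.tr) hne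
  rw [hw.inter_self] at h1
  have h2 : absG B (rm Q L X Y) Y E N (Sum.inr c) = N c := by
    ext v
    exact mem_absG_inr
  rw [h2] at h1
  omega

/-- the old blocks of `y` which are kept if nothing is trimmed. -/
noncomputable def kp (B : ι → Finset V) (L : Finset V) (I : Finset ι) (y : V) : Finset ι := by
  classical
  exact univ.filter (fun i => y ∈ B i ∧ ¬ (B i ∩ L).Nonempty ∧ i ∉ I)

theorem mem_kp {y : V} {i : ι} :
    i ∈ kp B L I y ↔ y ∈ B i ∧ ¬ (B i ∩ L).Nonempty ∧ i ∉ I := by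
  unfold kp
  simp

/-- **the data without trimming**: the point `y` is in as many new blocks as it has deleted ones. -/
theorem of_keep (hr : Reg B Q) (h3 : Tr3 B Q) (hL : L ⊆ Q) (hX : X ⊆ Q) (hY : Y ⊆ Q)
    (dLX : Disjoint L X) (dLY : Disjoint L Y) (dXY : Disjoint X Y)
    (con : ∀ i, (B i ∩ L).Nonempty → B i ∩ Q ⊆ (L ∪ X) ∪ Y)
    (full : ∀ i ∈ I, B i ∩ Q ⊆ X ∪ Y ∧ (B i ∩ Q).card = 3) (subN : ∀ c, N c ⊆ Y)
    (deg : ∀ y ∈ Y, (univ.filter (fun c => y ∈ N c)).card =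
      (univ.filter (fun i => y ∈ B i ∧ (B i ∩ L).Nonempty)).card +
      (I.filter (fun i => y ∈ B i)).card)
    (sizeN : ∀ c, (N c).card ≤ 3)
    (cost : ∀ K : Finset κ, rho B ((L ∪ X) ∪ K.biUnion N) ≤ rho B L + K.card) :
    Gdl B Q L X Y I (kp B L I) N := by
  classical
  refine ⟨hr, h3, hL, hX, hY, dLX, dLY, dXY, con, full, fun y _ i hi => (mem_kp.1 hi).1,
    fun y _ i hi => (mem_kp.1 hi).2, subN, fun y hy => ?_, sizeN, cost⟩
  have h1 : (univ.filter (fun i => y ∈ B i)).card = 5 := hr y (hY hy)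
  have h2 : univ.filter (fun i => y ∈ B i) = (kp B L I y ∪
      univ.filter (fun i => y ∈ B i ∧ (B i ∩ L).Nonempty)) ∪ I.filter (fun i => y ∈ B i) := by
    ext i
    simp only [mem_union, mem_filter, mem_univ, true_and, mem_kp]
    tauto
  have h4 : Disjoint (kp B L I y) (univ.filter (fun i => y ∈ B i ∧ (B i ∩ L).Nonempty)) := by
    rw [disjoint_left]
    intro i hi hi'
    exact (mem_kp.1 hi).2.1 (mem_filter.1 hi').2.2
  have h5 : Disjoint (kp B L I y ∪ univ.filter (fun i => y ∈ B i ∧ (B i ∩ L).Nonempty))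
      (I.filter (fun i => y ∈ B i)) := by
    rw [disjoint_left]
    intro i hi hi'
    rcases mem_union.1 hi with h6 | h6
    · exact (mem_kp.1 h6).2.2 (mem_filter.1 hi').1
    · obtain ⟨v, hv⟩ := (mem_filter.1 h6).2.2
      obtain ⟨hvi, hvL⟩ := mem_inter.1 hv
      rcases mem_union.1 ((full i (mem_filter.1 hi').1).1 (mem_inter.2 ⟨hvi, hL hvL⟩)) with h7 | h7
      · exact disjoint_left.1 dLX hvL h7
      · exact disjoint_left.1 dLY hvL h7
  rw [h2, card_union_of_disjoint h5, card_union_of_disjoint h4] at h1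
  rw [deg y hy]
  omega

end Gdl

end Pool.Agent.Hyp6
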