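import Pool.Agent.Hyp6.L3S4
import Pool.Agent.Hyp6.L3Gd
import Pool.Agent.Hyp6.L3RG

/-!
# HYP6 L3S5: a minimal counterexample has no separator with two points

`AbsData.closeS`: closing with both clauses and the bookkeeping of the value. `pt_geS`: one merged new
point. `two_geS`: several new points with single new blocks. `pair_geS`: two new points with common new
blocks. `ViolR.sep2`: the rest of two points is connected. `Gdl.conn_sep`: the connectivity of the new
system of a general deletion.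
-/

set_option autoImplicit false

namespace Pool.Agent.Hyp6

open Finset Pool.Agent.Hyp5

universe u v

variable {V : Type v} [DecidableEq V] {ι : Type u} [Fintype ι] {B : ι → Finset V}

/-- closing with both clauses and the bookkeeping of the value. -/
theorem AbsData.closeS {κ : Type u} [Fintype κ] {C Y : Finset V} {E : V → Finset ι}
    {N : κ → Finset V} {Q : Finset V} {n : ℕ} (h : AbsData B C Y E N) (ih : IHE.{u} V n)
    (ihr : IHR.{u} V n) (hn : C.card + Y.card < n) (hr : Reg B Q) (hCQ : C ⊆ Q)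
    (hC : Conn (gr B) C) (hE : ∀ y ∈ Y, ∀ i ∈ E y, 2 ≤ (B i ∩ Q).card)
    (hK : ¬ KT (absG B C Y E N) (C ∪ Y)) {r : ℕ}
    (hrho : rho B C + r ≤ rho (absG B C Y E N) (C ∪ Y)) {Y2 : Finset V} (hY2 : Y2 ⊆ Y)
    (hN2 : ∀ y ∈ Y2, 2 ≤ (univ.filter (fun c => N c = {y})).card) :
    2 * (Y2.card : ℤ) + 24 * (r : ℤ) ≤
      dv B Q C + 5 * (Y.card : ℤ) + 4 * (Fintype.card κ : ℤ) + 1 ∧
    (2 * (r : ℤ) ≤ sv B C + Y.card → 2 * (Y2.card : ℤ) + 24 * (r : ℤ) ≤
      dv B Q C + 5 * (Y.card : ℤ) + 4 * (Fintype.card κ : ℤ)) := by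
  have hc : (C ∪ Y).card = C.card + Y.card := card_union_of_disjoint h.dis
  have hc' : ((C ∪ Y).card : ℤ) = C.card + Y.card := by exact_mod_cast hc
  have ht3 : Tr3 (absG B C Y E N) (C ∪ Y) := fun k =>
    (card_le_card inter_subset_left).trans (h.small k)
  have hlt : (C ∪ Y).card < n := by rw [hc]; exact hn
  have hr' := h.reg (hr.mono hCQ)
  have hcn := h.conn hC
  have hok := ih (ι ⊕ κ) (absG B C Y E N) (C ∪ Y) hlt hr' ht3 hcn hK
  have hee := h.ee_ge hCQ hE hY2 hN2
  have h2 := h.Pv_eq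
  have h3 : (rho B C : ℤ) + r ≤ rho (absG B C Y E N) (C ∪ Y) := by exact_mod_cast hrho
  have h4 : (ee B Q C : ℤ) + Y2.card ≤ ee (absG B C Y E N) (C ∪ Y) (C ∪ Y) := by
    exact_mod_cast hee
  unfold dv
  constructor
  · linarith
  · intro hs
    rcases hrho.lt_or_eq with h5 | h5
    · have h6 : (rho B C : ℤ) + r + 1 ≤ rho (absG B C Y E N) (C ∪ Y) := by exact_mod_cast h5
      linarith
    · have h6 : (rho B C : ℤ) + r = rho (absG B C Y E N) (C ∪ Y) := by exact_mod_cast h5
      have h7 : 0 ≤ sv (absG B C Y E N) (C ∪ Y) := by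
        unfold sv at hs ⊢
        linarith
      have h8 := ih_nonneg ih ihr hlt hr' ht3 hcn hK h7
      linarith

/-- **the bound for a set which refuses the points of `e` blocks**, with the bookkeeping. -/
theorem pt_geS {Q K : Finset V} (hr : Reg B Q) (h3 : Tr3 B Q) (hKc : Conn (gr B) K) (hK : K ⊆ Q)
    {n : ℕ} (ih : IHE.{u} V n) (ihr : IHR.{u} V n) (hn : K.card + 1 < n) (hKQ : K.card < Q.card)
    {E : Finset ι} (hE : ∀ i ∈ E, (B i ∩ K).Nonempty) (hE1 : 1 ≤ E.card)
    (href : ∀ i ∈ E, rho B K + 1 ≤ rho B (K ∪ (B i ∩ (Q \ K)))) :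
    phi (min 4 E.card) ≤ dv B Q K ∧ (1 ≤ sv B K → phi (min 4 E.card) + 1 ≤ dv B Q K) := by
  classical
  obtain ⟨E', hE', hE'c⟩ := exists_subset_card_eq (s := E) (n := min 4 E.card) (by omega)
  have h1 : 1 ≤ E'.card := by omega
  have h5 : E'.card ≤ 4 := by omega
  have hg := gx_pt hK hKQ (E := E') (fun i hi => hE i (hE' hi)) h1 (by omega)
    (fun i hi => href i (hE' hi))
  obtain ⟨y, E2, hinj, hy, hEy, habs, hrho⟩ := hg.exists_abs hr h3
  have hYc : (univ.image y).card = 1 := by
    rw [card_image_of_injective _ hinj, card_univ, Fintype.card_fin]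
  have hκ : Fintype.card (ULift.{u} (Fin (5 - E'.card))) = 5 - E'.card := by simp
  have hE2 : ∀ v ∈ univ.image y, ∀ i ∈ E2 v, 2 ≤ (B i ∩ Q).card := by
    intro v hv i hi
    obtain ⟨z, _, rfl⟩ := mem_image.1 hv
    rw [hEy] at hi
    exact hg.two (z := z) hi
  have hN : ∀ c : ULift.{u} (Fin (5 - E'.card)), (({0} : Finset (Fin 1))).image y = {y 0} :=
    fun _ => image_singleton _ _
  have hnK : ¬ KT (absG B K (univ.image y) E2
      (fun c : ULift.{u} (Fin (5 - E'.card)) => (({0} : Finset (Fin 1))).image y))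
      (K ∪ univ.image y) := by
    intro hKT
    have ht3 : Tr3 (absG B K (univ.image y) E2
        (fun c : ULift.{u} (Fin (5 - E'.card)) => (({0} : Finset (Fin 1))).image y))
        (K ∪ univ.image y) := fun k => (card_le_card inter_subset_left).trans (habs.small k)
    have hne : (absG B K (univ.image y) E2
        (fun c : ULift.{u} (Fin (5 - E'.card)) => (({0} : Finset (Fin 1))).image y)
          (Sum.inr ⟨⟨0, by omega⟩⟩) ∩ (K ∪ univ.image y)).Nonempty := by
      rw [habs.inter_self]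
      exact ⟨y 0, mem_absG_inr.2 (mem_image_of_mem _ (mem_singleton_self _))⟩
    have h6 := hKT.trace (habs.reg (hr.mono hK)) ht3 hne
    rw [habs.inter_self] at h6
    have h7 : absG B K (univ.image y) E2
        (fun c : ULift.{u} (Fin (5 - E'.card)) => (({0} : Finset (Fin 1))).image y)
          (Sum.inr ⟨⟨0, by omega⟩⟩) ⊆ {y 0} := by
      intro v hv
      have hv' := mem_absG_inr.1 hv
      rwa [image_singleton] at hv'
    have h8 := card_le_card h7
    rw [card_singleton] at h8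
    omega
  have hgen : ∀ Y2 : Finset V, Y2 ⊆ univ.image y → (∀ v ∈ Y2, 2 ≤ (univ.filter
      (fun c : ULift.{u} (Fin (5 - E'.card)) => (({0} : Finset (Fin 1))).image y = {v})).card) →
      24 + 2 * (Y2.card : ℤ) ≤ dv B Q K + 5 + 4 * ((5 - E'.card : ℕ) : ℤ) + 1 ∧
      (1 ≤ sv B K → 24 + 2 * (Y2.card : ℤ) ≤ dv B Q K + 5 + 4 * ((5 - E'.card : ℕ) : ℤ)) := by
    intro Y2 hY2 hN2
    have h9 := habs.closeS ih ihr (by rw [hYc]; exact hn) hr hK hKc hE2 hnK hrho hY2 hN2
    rw [hYc, hκ] at h9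
    push_cast at h9 ⊢
    obtain ⟨h10, h11⟩ := h9
    exact ⟨by linarith, fun hs => by linarith [h11 (by linarith)]⟩
  have hEc : min 4 E.card = E'.card := hE'c.symm
  rw [hEc]
  by_cases h8 : E'.card ≤ 3
  · obtain ⟨h9, h10⟩ := hgen {y 0} (by
      rw [singleton_subset_iff]
      exact mem_image_of_mem _ (mem_univ _)) (fun v hv => by
        rw [mem_singleton] at hv
        subst hv
        rw [filter_true_of_mem (fun _ _ => image_singleton _ _), card_univ, hκ]
        omega)
    rw [card_singleton] at h9 h10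
    unfold phi
    rw [if_pos h8]
    constructor
    · omega
    · intro hs
      have := h10 hs
      omega
  · obtain ⟨h9, h10⟩ := hgen ∅ (empty_subset _) (fun v hv => absurd hv (notMem_empty _))
    rw [card_empty] at h9 h10
    have h11 : E'.card = 4 := by omega
    rw [h11] at h9 h10 ⊢
    unfold phi
    rw [if_neg (by norm_num), if_pos rfl]
    constructor
    · omega
    · intro hs
      have := h10 hs
      omega

/-- the blocks through `y` which meet `K`. -/
noncomputable def bk (B : ι → Finset V) (K : Finset V) (y : V) : Finset ι :=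
  univ.filter (fun i => y ∈ B i ∧ (B i ∩ K).Nonempty)

theorem mem_bk {K : Finset V} {y : V} {i : ι} :
    i ∈ bk B K y ↔ y ∈ B i ∧ (B i ∩ K).Nonempty := by
  unfold bk
  simp

theorem bk_le {Q K : Finset V} (hr : Reg B Q) {y : V} (hy : y ∈ Q) : (bk B K y).card ≤ 5 := by
  have h1 : (univ.filter (fun i => y ∈ B i)).card = 5 := hr y hy
  rw [← h1]
  exact card_le_card fun i hi => mem_filter.2 ⟨mem_univ _, (mem_bk.1 hi).1⟩

omit [DecidableEq V] in
/-- a family of single new blocks with given multiplicities. -/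
theorem exists_sing5 [DecidableEq V] (Y : Finset V) (f : V → ℕ) :
    ∃ N : ULift.{u} (Fin (∑ y ∈ Y, f y)) → Finset V, (∀ c, ∃ y ∈ Y, N c = {y}) ∧
      ∀ y ∈ Y, (univ.filter (fun c => N c = {y})).card = f y := by
  classical
  have hcard : Fintype.card (Σ y : Y, Fin (f y)) = ∑ y ∈ Y, f y := by
    rw [Fintype.card_sigma]
    simp only [Fintype.card_fin]
    exact Finset.sum_coe_sort Y f
  obtain ⟨e⟩ : Nonempty (Fin (∑ y ∈ Y, f y) ≃ Σ y : Y, Fin (f y)) := by
    rw [← Fintype.card_eq, Fintype.card_fin, hcard]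
  refine ⟨fun c => {((e c.down).1 : V)}, fun c => ⟨_, (e c.down).1.2, rfl⟩, fun y hy => ?_⟩
  have h1 : (univ : Finset (Fin (f y))).card = f y := by rw [card_univ, Fintype.card_fin]
  rw [← h1]
  symm
  refine Finset.card_bij (fun k _ => ⟨e.symm ⟨⟨y, hy⟩, k⟩⟩) ?_ ?_ ?_
  · intro k _
    rw [mem_filter]
    refine ⟨mem_univ _, ?_⟩
    simp
  · intro k _ k' _ he
    have h2 := e.symm.injective (ULift.up_injective he)
    simpa using h2
  · intro c hc
    rw [mem_filter] at hc
    have h2 : ((e c.down).1 : V) = y := singleton_injective hc.2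
    obtain ⟨c⟩ := c
    rcases hh : e c with ⟨⟨w, hw⟩, k⟩
    simp only [hh] at h2
    subst h2
    refine ⟨k, mem_univ _, ?_⟩
    rw [← hh, Equiv.symm_apply_apply]

/-- the value of a set which refuses several points, with the bookkeeping. -/
theorem single_geS {Q K Y : Finset V} (hr : Reg B Q) (h3 : Tr3 B Q) (hKc : Conn (gr B) K)
    (hK : K ⊆ Q) (hY : Y ⊆ Q) (hd : Disjoint K Y) {n : ℕ} (ih : IHE.{u} V n)
    (ihr : IHR.{u} V n) (hn : K.card + Y.card < n) (hsee : ∀ y ∈ Y, 1 ≤ (bk B K y).card)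
    (hsm : ∃ y ∈ Y, (bk B K y).card ≤ 4)
    (href : ∀ Y' ⊆ Y, rho B K + Y'.card ≤ rho B (K ∪ Y')) :
    ∑ y ∈ Y, (phi (bk B K y).card + 1) - 1 ≤ dv B Q K ∧
      ((Y.card : ℤ) ≤ sv B K → ∑ y ∈ Y, (phi (bk B K y).card + 1) ≤ dv B Q K) := by
  classical
  obtain ⟨N, hN1, hN2⟩ := exists_sing5.{u, v} Y (fun y => 5 - (bk B K y).card)
  have hmN : ∀ y ∈ Y, ∀ c, y ∈ N c ↔ N c = {y} := by
    intro y _ c
    obtain ⟨w, _, hw⟩ := hN1 c
    rw [hw, mem_singleton, singleton_inj]
    exact ⟨fun h => h.symm, fun h => h.symm⟩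
  have habs : AbsData B K Y (bk B K) N := by
    refine ⟨hd, fun y _ i hi => (mem_bk.1 hi).2, fun y hy => card_pos.1 (hsee y hy), ?_, ?_, ?_,
      ?_, ?_⟩
    · intro c
      obtain ⟨w, hw, hc⟩ := hN1 c
      rw [hc]
      exact singleton_subset_iff.2 hw
    · intro c
      obtain ⟨w, hw, hc⟩ := hN1 c
      rw [hc]
      exact singleton_nonempty w
    · intro y hy
      have h1 : univ.filter (fun c => y ∈ N c) = univ.filter (fun c => N c = {y}) :=
        filter_congr fun c _ => hmN y hy c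
      rw [h1, hN2 y hy]
      have h2 := bk_le (K := K) hr (hY hy)
      omega
    · intro i
      have h1 : Disjoint (B i ∩ K) (Y.filter (fun y => i ∈ bk B K y)) :=
        disjoint_of_subset_left inter_subset_right
          (disjoint_of_subset_right (filter_subset _ _) hd)
      rw [← card_union_of_disjoint h1]
      refine (card_le_card ?_).trans (h3 i)
      intro v hv
      rcases mem_union.1 hv with h2 | h2
      · exact mem_inter.2 ⟨(mem_inter.1 h2).1, hK (mem_inter.1 h2).2⟩
      · obtain ⟨h4, h5⟩ := mem_filter.1 h2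
        exact mem_inter.2 ⟨(mem_bk.1 h5).1, hY h4⟩
    · intro c
      obtain ⟨w, hw, hc⟩ := hN1 c
      rw [hc, card_singleton]
      norm_num
  have hreg := habs.reg (hr.mono hK)
  have hrho : rho B K + Y.card ≤ rho (absG B K Y (bk B K) N) (K ∪ Y) := by
    refine habs.rho_ge (cov_of_reg hreg) fun T K' hT hK' => ?_
    set Y' := Y.filter (fun y => ∃ i ∈ T, i ∈ bk B K y) with hY'
    have h1 : rho B (K ∪ Y') ≤ T.card := by
      refine Hyp6.rho_le ?_
      intro v hv
      rcases mem_union.1 hv with h2 | h2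
      · exact hT h2
      · obtain ⟨_, i, hi, hib⟩ := mem_filter.1 h2
        exact mem_biUnion.2 ⟨i, hi, (mem_bk.1 hib).1⟩
    have h2 : (Y \ Y').card ≤ K'.card := by
      have h4 : Y \ Y' ⊆ K'.biUnion N := by
        intro v hv
        obtain ⟨hv1, hv2⟩ := mem_sdiff.1 hv
        rcases hK' v hv1 with h5 | ⟨c, hc, hvc⟩
        · exact absurd (mem_filter.2 ⟨hv1, h5⟩) hv2
        · exact mem_biUnion.2 ⟨c, hc, hvc⟩
      refine (card_le_card h4).trans (card_biUnion_le.trans ?_)
      rw [card_eq_sum_ones]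
      refine sum_le_sum fun c _ => ?_
      obtain ⟨w, hw, hc⟩ := hN1 c
      rw [hc, card_singleton]
    have h4 := href Y' (filter_subset _ _)
    have h5 := card_sdiff_add_card_eq_card (filter_subset (fun y => ∃ i ∈ T, i ∈ bk B K y) Y)
    rw [← hY'] at h5
    omega
  have hE2 : ∀ y ∈ Y, ∀ i ∈ bk B K y, 2 ≤ (B i ∩ Q).card := by
    intro y hy i hi
    obtain ⟨h1, a, ha⟩ := mem_bk.1 hi
    obtain ⟨ha1, ha2⟩ := mem_inter.1 ha
    rw [← card_pair (a := a) (b := y)]
    · refine card_le_card (insert_subset (mem_inter.2 ⟨ha1, hK ha2⟩)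
        (singleton_subset_iff.2 (mem_inter.2 ⟨h1, hY hy⟩)))
    · rintro rfl
      exact disjoint_left.1 hd ha2 hy
  have hnK : ¬ KT (absG B K Y (bk B K) N) (K ∪ Y) := by
    intro hKT
    obtain ⟨y, hy, hy4⟩ := hsm
    have h1 : 0 < (univ.filter (fun c => N c = {y})).card := by
      rw [hN2 y hy]
      omega
    obtain ⟨c, hc⟩ := card_pos.1 h1
    have hc' := (mem_filter.1 hc).2
    have ht3 : Tr3 (absG B K Y (bk B K) N) (K ∪ Y) := fun k =>
      (card_le_card inter_subset_left).trans (habs.small k)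
    have hne : (absG B K Y (bk B K) N (Sum.inr c) ∩ (K ∪ Y)).Nonempty := by
      rw [habs.inter_self]
      exact ⟨y, mem_absG_inr.2 (by rw [hc']; exact mem_singleton_self y)⟩
    have h6 := hKT.trace hreg ht3 hne
    rw [habs.inter_self] at h6
    have h7 : absG B K Y (bk B K) N (Sum.inr c) ⊆ {y} := by
      intro v hv
      rw [← hc']
      exact mem_absG_inr.1 hv
    have h8 := card_le_card h7
    rw [card_singleton] at h8
    omega
  have h9 := habs.closeS ih ihr hn hr hK hKc hE2 hnK hrho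
    (Y2 := Y.filter (fun y => (bk B K y).card ≤ 3)) (filter_subset _ _) (fun y hy => by
      obtain ⟨h1, h2⟩ := mem_filter.1 hy
      rw [hN2 y h1]
      omega)
  have hκ : Fintype.card (ULift.{u} (Fin (∑ y ∈ Y, (5 - (bk B K y).card)))) =
      ∑ y ∈ Y, (5 - (bk B K y).card) := by simp
  rw [hκ] at h9
  have hsum : ∑ y ∈ Y, (phi (bk B K y).card + 1) =
      2 * ((Y.filter (fun y => (bk B K y).card ≤ 3)).card : ℤ) + 19 * (Y.card : ℤ) -
        4 * ((∑ y ∈ Y, (5 - (bk B K y).card) : ℕ) : ℤ) := by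
    have h1 : ∀ y ∈ Y, phi (bk B K y).card + 1 =
        2 * (if (bk B K y).card ≤ 3 then (1 : ℤ) else 0) + 19 -
          4 * ((5 - (bk B K y).card : ℕ) : ℤ) := by
      intro y hy
      have h2 := bk_le (K := K) hr (hY hy)
      have h4 := hsee y hy
      unfold phi
      split_ifs <;> omega
    rw [sum_congr rfl h1, sum_sub_distrib, sum_add_distrib, ← mul_sum, ← mul_sum, sum_boole,
      sum_const, nsmul_eq_mul]
    push_cast
    ring
  rw [hsum]
  push_cast at h9 ⊢
  obtain ⟨h10, h11⟩ := h9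
  constructor
  · linarith
  · intro hs
    have := h11 (by linarith)
    linarith

/-- the value of a set which refuses two points together, with the bookkeeping. -/
theorem pair_geS {Q K : Finset V} {x z : V} (hr : Reg B Q) (h3 : Tr3 B Q) (hKc : Conn (gr B) K)
    (hK : K ⊆ Q) (hx : x ∈ Q) (hz : z ∈ Q) (hxK : x ∉ K) (hzK : z ∉ K) (hxz : x ≠ z) {n : ℕ}
    (ih : IHE.{u} V n) (ihr : IHR.{u} V n) (hn : K.card + 2 < n) (hbx : 1 ≤ (bk B K x).card)
    (hbz : (bk B K x).card ≤ (bk B K z).card) (hsm : (bk B K x).card ≤ 4)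
    (href : rho B K + 1 ≤ rho B (K ∪ {x, z})) {e : ℕ} (he1 : e ≤ 1)
    (he : e = 1 → (bk B K x).card + 2 ≤ (bk B K z).card) :
    13 - 4 * ((5 - (bk B K x).card : ℕ) : ℤ) + 2 * (e : ℤ) ≤ dv B Q K ∧
      (0 ≤ sv B K → 14 - 4 * ((5 - (bk B K x).card : ℕ) : ℤ) + 2 * (e : ℤ) ≤ dv B Q K) := by
  classical
  set a := 5 - (bk B K x).card with ha
  set b := 5 - (bk B K z).card with hb
  have hx5 := bk_le (K := K) hr hx
  have hz5 := bk_le (K := K) hr hz
  have hba : b ≤ a := by omega
  set N : (ULift.{u} (Fin b) ⊕ ULift.{u} (Fin (a - b))) → Finset V :=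
    fun c => Sum.elim (fun _ => ({x, z} : Finset V)) (fun _ => {x}) c with hN
  have hNl : ∀ c, N (Sum.inl c) = {x, z} := fun _ => rfl
  have hNr : ∀ c, N (Sum.inr c) = {x} := fun _ => rfl
  have hd : Disjoint K ({x, z} : Finset V) := by
    rw [disjoint_left]
    intro v hv hv'
    rw [mem_insert, mem_singleton] at hv'
    rcases hv' with rfl | rfl
    · exact hxK hv
    · exact hzK hv
  have hXQ : ({x, z} : Finset V) ⊆ Q := insert_subset hx (singleton_subset_iff.2 hz)
  have hcard : Fintype.card (ULift.{u} (Fin b) ⊕ ULift.{u} (Fin (a - b))) = a := by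
    rw [Fintype.card_sum]
    simp
    omega
  have habs : AbsData B K {x, z} (bk B K) N := by
    refine ⟨hd, fun y _ i hi => (mem_bk.1 hi).2, ?_, ?_, ?_, ?_, ?_, ?_⟩
    · intro y hy
      rw [mem_insert, mem_singleton] at hy
      rcases hy with rfl | rfl
      · exact card_pos.1 (by omega)
      · exact card_pos.1 (by omega)
    · rintro (c | c)
      · rw [hNl]
      · rw [hNr]
        exact singleton_subset_iff.2 (mem_insert_self _ _)
    · rintro (c | c)
      · rw [hNl]
        exact ⟨x, mem_insert_self _ _⟩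
      · rw [hNr]
        exact singleton_nonempty x
    · intro y hy
      rw [card_filter_sum]
      simp only [hNl, hNr]
      rw [mem_insert, mem_singleton] at hy
      rcases hy with rfl | rfl
      · rw [filter_true_of_mem (fun _ _ => mem_insert_self _ _),
          filter_true_of_mem (fun _ _ => mem_singleton_self _)]
        simp only [card_univ, Fintype.card_ulift, Fintype.card_fin]
        omega
      · rw [filter_true_of_mem (fun _ _ => mem_insert_of_mem (mem_singleton_self _)),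
          filter_false_of_mem (fun _ _ => by rw [mem_singleton]; exact fun h => hxz h.symm)]
        simp only [card_univ, Fintype.card_ulift, Fintype.card_fin, card_empty]
        omega
    · intro i
      have h1 : Disjoint (B i ∩ K) (({x, z} : Finset V).filter (fun y => i ∈ bk B K y)) :=
        disjoint_of_subset_left inter_subset_right
          (disjoint_of_subset_right (filter_subset _ _) hd)
      rw [← card_union_of_disjoint h1]
      refine (card_le_card ?_).trans (h3 i)
      intro v hv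
      rcases mem_union.1 hv with h2 | h2
      · exact mem_inter.2 ⟨(mem_inter.1 h2).1, hK (mem_inter.1 h2).2⟩
      · obtain ⟨h4, h5⟩ := mem_filter.1 h2
        exact mem_inter.2 ⟨(mem_bk.1 h5).1, hXQ h4⟩
    · rintro (c | c)
      · rw [hNl]
        exact card_le_two.trans (by norm_num)
      · rw [hNr, card_singleton]
        norm_num
  have hreg := habs.reg (hr.mono hK)
  have hrho : rho B K + 1 ≤ rho (absG B K {x, z} (bk B K) N) (K ∪ {x, z}) := by
    refine habs.rho_ge (cov_of_reg hreg) fun T K' hT hK' => ?_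
    rcases K'.eq_empty_or_nonempty with rfl | hne
    · have h1 : rho B (K ∪ {x, z}) ≤ T.card := by
        refine Hyp6.rho_le ?_
        intro v hv
        rcases mem_union.1 hv with h2 | h2
        · exact hT h2
        · rcases hK' v h2 with ⟨i, hi, hib⟩ | ⟨c, hc, _⟩
          · exact mem_biUnion.2 ⟨i, hi, (mem_bk.1 hib).1⟩
          · exact absurd hc (notMem_empty _)
      rw [card_empty]
      omega
    · have h1 := card_pos.2 hne
      have h2 := Hyp6.rho_le hT
      omega
  have hE2 : ∀ y ∈ ({x, z} : Finset V), ∀ i ∈ bk B K y, 2 ≤ (B i ∩ Q).card := by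
    intro y hy i hi
    obtain ⟨h1, w, hw⟩ := mem_bk.1 hi
    obtain ⟨hw1, hw2⟩ := mem_inter.1 hw
    rw [← card_pair (a := w) (b := y)]
    · refine card_le_card (insert_subset (mem_inter.2 ⟨hw1, hK hw2⟩)
        (singleton_subset_iff.2 (mem_inter.2 ⟨h1, hXQ hy⟩)))
    · rintro rfl
      exact disjoint_left.1 hd hw2 hy
  have ha1 : 0 < a := by omega
  have hnK : ¬ KT (absG B K {x, z} (bk B K) N) (K ∪ {x, z}) := by
    intro hKT
    obtain ⟨c⟩ : Nonempty (ULift.{u} (Fin b) ⊕ ULift.{u} (Fin (a - b))) := by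
      rw [← Fintype.card_pos_iff, hcard]
      exact ha1
    have ht3 : Tr3 (absG B K {x, z} (bk B K) N) (K ∪ {x, z}) := fun k =>
      (card_le_card inter_subset_left).trans (habs.small k)
    have hne : (absG B K {x, z} (bk B K) N (Sum.inr c) ∩ (K ∪ {x, z})).Nonempty := by
      rw [habs.inter_self]
      exact (habs.neN c).imp fun v hv => mem_absG_inr.2 hv
    have h6 := hKT.trace hreg ht3 hne
    rw [habs.inter_self] at h6
    have h7 : absG B K {x, z} (bk B K) N (Sum.inr c) ⊆ {x, z} := by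
      intro v hv
      exact habs.subN c (mem_absG_inr.1 hv)
    have h8 := (card_le_card h7).trans card_le_two
    omega
  have hY2 : ∃ Y2 : Finset V, Y2 ⊆ {x, z} ∧ Y2.card = e ∧
      ∀ y ∈ Y2, 2 ≤ (univ.filter (fun c => N c = {y})).card := by
    rcases Nat.eq_zero_or_pos e with h0 | h0
    · exact ⟨∅, empty_subset _, by rw [card_empty, h0], fun y hy => absurd hy (notMem_empty _)⟩
    · have h1 : e = 1 := by omega
      have h2 := he h1
      refine ⟨{x}, singleton_subset_iff.2 (mem_insert_self _ _), by rw [card_singleton, h1], ?_⟩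
      intro y hy
      rw [mem_singleton] at hy
      subst hy
      rw [card_filter_sum]
      simp only [hNr]
      rw [filter_true_of_mem (s := (univ : Finset (ULift.{u} (Fin (a - b))))) (fun _ _ => trivial)]
      simp only [card_univ, Fintype.card_ulift, Fintype.card_fin]
      omega
  obtain ⟨Y2, hY2a, hY2b, hY2c⟩ := hY2
  have h9 := habs.closeS ih ihr (by rw [card_pair hxz]; exact hn) hr hK hKc hE2 hnK hrho hY2a
    hY2c
  rw [hcard, card_pair hxz, hY2b] at h9
  push_cast at h9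
  obtain ⟨h10, h11⟩ := h9
  constructor
  · linarith
  · intro hs
    have := h11 (by linarith)
    linarith

omit [Fintype ι] in
/-- one more point is absorbed by one of the separated parts. -/
theorem exists_part_abs {Ks : Finset (Finset V)} (hs : SepF B Ks) {x : V}
    (hxK : ∀ K ∈ Ks, x ∉ K) (hc : Cov B (Ks.biUnion id ∪ {x}))
    (hle : rho B (Ks.biUnion id ∪ {x}) ≤ ∑ K ∈ Ks, rho B K) :
    ∃ K ∈ Ks, rho B (K ∪ {x}) ≤ rho B K := by
  classical
  by_contra hcon
  push Not at hcon
  obtain ⟨T, hT, hTc⟩ := exists_cover hc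
  set TK : Finset V → Finset ι := fun K => T.filter (fun i => (B i ∩ K).Nonempty) with hTK
  have hcovK : ∀ K ∈ Ks, K ⊆ (TK K).biUnion B := by
    intro K hK v hv
    obtain ⟨i, hi, hvi⟩ := mem_biUnion.1 (hT (mem_union_left _ (mem_biUnion.2 ⟨K, hK, hv⟩)))
    exact mem_biUnion.2 ⟨i, mem_filter.2 ⟨hi, v, mem_inter.2 ⟨hvi, hv⟩⟩, hvi⟩
  have hle1 : ∀ K ∈ Ks, rho B K ≤ (TK K).card := fun K hK => Hyp6.rho_le (hcovK K hK)
  have hdis : ∀ K ∈ Ks, ∀ K' ∈ Ks, K ≠ K' → Disjoint (TK K) (TK K') := by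
    intro K hK K' hK' hne
    rw [disjoint_left]
    intro i hi hi'
    exact (hs K hK K' hK' hne).2 i (mem_filter.1 hi).2 (mem_filter.1 hi').2
  have hsum : ∑ K ∈ Ks, (TK K).card = (Ks.biUnion TK).card := by
    rw [card_biUnion]
    intro K hK K' hK' hne
    exact hdis K hK K' hK' hne
  have hsubT : Ks.biUnion TK ⊆ T := biUnion_subset.2 fun K _ => filter_subset _ _
  obtain ⟨i0, hi0, hxi⟩ := mem_biUnion.1 (hT (mem_union_right _ (mem_singleton_self x)))
  by_cases h1 : i0 ∈ Ks.biUnion TK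
  · obtain ⟨K1, hK1, hi1⟩ := mem_biUnion.1 h1
    have h2 : rho B K1 + 1 ≤ (TK K1).card := by
      refine (hcon K1 hK1).trans_le (Hyp6.rho_le ?_)
      intro v hv
      rcases mem_union.1 hv with h4 | h4
      · exact hcovK K1 hK1 h4
      · rw [mem_singleton] at h4
        subst h4
        exact mem_biUnion.2 ⟨i0, hi1, hxi⟩
    have h4 : ∑ K ∈ Ks, rho B K < ∑ K ∈ Ks, (TK K).card :=
      sum_lt_sum hle1 ⟨K1, hK1, h2⟩
    have h5 := card_le_card hsubT
    omega
  · have h2 := card_le_card (insert_subset hi0 hsubT)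
    rw [card_insert_of_notMem h1] at h2
    have h4 := sum_le_sum hle1
    omega

/-- a minimal counterexample with the parts of the rest of two points. -/
structure Sp2 (B : ι → Finset V) (Q : Finset V) (x z : V) (Ks : Finset (Finset V)) : Prop where
  viol : ViolR B Q
  xQ : x ∈ Q
  zQ : z ∈ Q
  ne : x ≠ z
  part : ∀ K ∈ Ks, K ⊆ Q \ {x, z} ∧ Closed (gr B) (Q \ {x, z}) K ∧ Conn (gr B) K
  sep : SepF B Ks
  un : Ks.biUnion id = Q \ {x, z}
  two : 2 ≤ Ks.card

namespace Sp2

variable {Q K : Finset V} {x z : V} {Ks : Finset (Finset V)}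

theorem symm (h : Sp2 B Q x z Ks) : Sp2 B Q z x Ks :=
  ⟨h.viol, h.zQ, h.xQ, h.ne.symm, by rw [pair_comm]; exact h.part, h.sep,
    by rw [pair_comm]; exact h.un, h.two⟩

theorem XQ (h : Sp2 B Q x z Ks) : ({x, z} : Finset V) ⊆ Q :=
  insert_subset h.xQ (singleton_subset_iff.2 h.zQ)

theorem KQ (h : Sp2 B Q x z Ks) (hK : K ∈ Ks) : K ⊆ Q := (h.part K hK).1.trans sdiff_subset

theorem KX (h : Sp2 B Q x z Ks) (hK : K ∈ Ks) : Disjoint K ({x, z} : Finset V) :=
  disjoint_left.2 fun _ hv => (mem_sdiff.1 ((h.part K hK).1 hv)).2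

theorem cov (h : Sp2 B Q x z Ks) : Cov B Q := cov_of_reg h.viol.reg

theorem covK (h : Sp2 B Q x z Ks) (hK : K ∈ Ks) : Cov B K := h.cov.mono (h.KQ hK)

theorem other (h : Sp2 B Q x z Ks) (hK : K ∈ Ks) :
    ∃ K' ∈ Ks, K' ≠ K ∧ K'.Nonempty ∧ Disjoint K K' := by
  obtain ⟨K', hK', hne⟩ := exists_mem_ne h.two K
  exact ⟨K', hK', hne, (h.part K' hK').2.2.1, (h.sep K hK K' hK' hne.symm).1⟩

theorem lt (h : Sp2 B Q x z Ks) (hK : K ∈ Ks) : K.card + 2 < Q.card := by
  obtain ⟨K', hK', hne, hne', hd⟩ := h.other hK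
  have h1 : Disjoint (K ∪ K') ({x, z} : Finset V) := by
    rw [disjoint_union_left]
    exact ⟨h.KX hK, h.KX hK'⟩
  have h2 := card_le_card (union_subset (union_subset (h.KQ hK) (h.KQ hK')) h.XQ)
  rw [card_union_of_disjoint h1, card_union_of_disjoint hd, card_pair h.ne] at h2
  have h3 := card_pos.2 hne'
  omega

theorem rhoR (h : Sp2 B Q x z Ks) : rho B (Q \ {x, z}) = ∑ K ∈ Ks, rho B K := by
  rw [← h.un, rho_biUnion (fun K hK => h.covK hK) h.sep]

/-- a block through a point of a part. -/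
theorem adj_part (h : Sp2 B Q x z Ks) (hK : K ∈ Ks) {i : ι} (hi : (B i ∩ K).Nonempty) {w : V}
    (hw : w ∈ B i) (hwQ : w ∈ Q) : w ∈ K ∪ {x, z} := by
  obtain ⟨v, hv⟩ := hi
  obtain ⟨hvi, hvK⟩ := mem_inter.1 hv
  by_cases hwX : w ∈ ({x, z} : Finset V)
  · exact mem_union_right _ hwX
  refine mem_union_left _ ?_
  by_cases hvw : v = w
  · rwa [← hvw]
  · exact (h.part K hK).2.1.2 v hvK w (mem_sdiff.2 ⟨hwQ, hwX⟩) ⟨hvw, i, hvi, hw⟩

theorem see (h : Sp2 B Q x z Ks) (hK : K ∈ Ks) :
    ∃ y ∈ ({x, z} : Finset V), 1 ≤ (bk B K y).card := by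
  by_contra hcon
  push Not at hcon
  obtain ⟨K', hK', hne, hne', hd⟩ := h.other hK
  have hcl : Closed (gr B) Q K := by
    refine ⟨h.KQ hK, fun v hv w hw hvw => ?_⟩
    obtain ⟨hne2, i, hi1, hi2⟩ := hvw
    rcases mem_union.1 (h.adj_part hK ⟨v, mem_inter.2 ⟨hi1, hv⟩⟩ hi2 hw) with h1 | h1
    · exact h1
    · have h2 := hcon w h1
      have h3 : 0 < (bk B K w).card :=
        card_pos.2 ⟨i, mem_bk.2 ⟨hi2, v, mem_inter.2 ⟨hi1, hv⟩⟩⟩
      omega
  have h1 := h.viol.conn.2 K hcl (h.part K hK).2.2.1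
  obtain ⟨w, hw⟩ := hne'
  have h2 := h.KQ hK' hw
  rw [← h1] at h2
  exact disjoint_left.1 hd h2 hw

/-- not all blocks of the points which see `K` meet `K`. -/
theorem small (h : Sp2 B Q x z Ks) (hK : K ∈ Ks) :
    ∃ y ∈ ({x, z} : Finset V), 1 ≤ (bk B K y).card ∧ (bk B K y).card ≤ 4 := by
  classical
  by_contra hcon
  push Not at hcon
  obtain ⟨K', hK', hne, hne', hd⟩ := h.other hK
  set Y := ({x, z} : Finset V).filter (fun y => 1 ≤ (bk B K y).card) with hY
  have hall : ∀ y ∈ Y, ∀ i, y ∈ B i → (B i ∩ K).Nonempty := by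
    intro y hy i hi
    obtain ⟨hyX, hy1⟩ := mem_filter.1 hy
    have h1 := hcon y hyX hy1
    have h2 : (univ.filter (fun i => y ∈ B i)).card = 5 := h.viol.reg y (h.XQ hyX)
    have h3 : bk B K y = univ.filter (fun i => y ∈ B i) := by
      refine eq_of_subset_of_card_le (fun j hj => mem_filter.2 ⟨mem_univ _, (mem_bk.1 hj).1⟩) ?_
      omega
    have h4 : i ∈ bk B K y := by
      rw [h3]
      exact mem_filter.2 ⟨mem_univ _, hi⟩
    exact (mem_bk.1 h4).2
  have hYm : ∀ w ∈ ({x, z} : Finset V), ∀ i, w ∈ B i → (B i ∩ K).Nonempty → w ∈ Y := by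
    intro w hw i hwi hi
    exact mem_filter.2 ⟨hw, card_pos.2 ⟨i, mem_bk.2 ⟨hwi, hi⟩⟩⟩
  have hcl : Closed (gr B) Q (K ∪ Y) := by
    refine ⟨union_subset (h.KQ hK) ((filter_subset _ _).trans h.XQ), fun v hv w hw hvw => ?_⟩
    obtain ⟨hne2, i, hi1, hi2⟩ := hvw
    have hiK : (B i ∩ K).Nonempty := by
      rcases mem_union.1 hv with h1 | h1
      · exact ⟨v, mem_inter.2 ⟨hi1, h1⟩⟩
      · exact hall v h1 i hi1
    rcases mem_union.1 (h.adj_part hK hiK hi2 hw) with h1 | h1
    · exact mem_union_left _ h1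
    · exact mem_union_right _ (hYm w h1 i hi2 hiK)
  have h1 := h.viol.conn.2 _ hcl ((h.part K hK).2.2.1.mono subset_union_left)
  obtain ⟨w, hw⟩ := hne'
  have h2 := h.KQ hK' hw
  rw [← h1] at h2
  rcases mem_union.1 h2 with h3 | h3
  · exact disjoint_left.1 hd h3 hw
  · exact disjoint_left.1 (h.KX hK') hw (mem_filter.1 h3).1

omit [Fintype ι] in
theorem rho_le_card' {Z : Finset V} (hc : Cov B Z) : rho B Z ≤ Z.card := by
  classical
  induction Z using Finset.induction_on with
  | empty => simp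
  | insert v Z hv ih =>
    have h1 : rho B (insert v Z) ≤ rho B {v} + rho B Z := by
      rw [insert_eq]
      exact rho_union_le (hc.mono (singleton_subset_iff.2 (mem_insert_self _ _)))
        (hc.mono (subset_insert _ _))
    obtain ⟨i, hi⟩ := hc v (mem_insert_self _ _)
    have h2 : rho B ({v} : Finset V) ≤ 1 := rho_le_one (singleton_subset_iff.2 hi)
    have h3 := ih (hc.mono (subset_insert _ _))
    rw [card_insert_of_notMem hv]
    omega

/-- the cover number of a part with some of the two points. -/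
theorem rho_ge (h : Sp2 B Q x z Ks) (hK : K ∈ Ks) {J : Finset V} (hJ : J ⊆ {x, z}) :
    rho B Q + rho B K + J.card ≤ rho B (K ∪ J) + rho B (Q \ {x, z}) + 2 := by
  classical
  have hKR := (h.part K hK).1
  have hcR : Cov B (Q \ {x, z}) := h.cov.mono sdiff_subset
  have h1 : rho B (Q \ {x, z}) = rho B K + rho B ((Q \ {x, z}) \ K) := by
    have h2 : Q \ {x, z} = K ∪ ((Q \ {x, z}) \ K) := (union_sdiff_of_subset hKR).symm
    have h4 := rho_add (B := B) (hcR.mono hKR) (hcR.mono sdiff_subset)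
      (sep_of_closed (h.part K hK).2.1 sdiff_subset disjoint_sdiff)
    rw [← h2] at h4
    exact h4
  have hJQ : J ⊆ Q := hJ.trans h.XQ
  have h2 : rho B Q ≤ rho B (K ∪ J) + (rho B ((Q \ {x, z}) \ K) + rho B ({x, z} \ J)) := by
    refine le_trans (rho_mono (W' := (K ∪ J) ∪ (((Q \ {x, z}) \ K) ∪ ({x, z} \ J))) ?_ ?_)
      ((rho_union_le ?_ ?_).trans (Nat.add_le_add_left (rho_union_le ?_ ?_) _))
    · intro v hv
      by_cases h3 : v ∈ ({x, z} : Finset V)
      · by_cases h4 : v ∈ J
        · exact mem_union_left _ (mem_union_right _ h4)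
        · exact mem_union_right _ (mem_union_right _ (mem_sdiff.2 ⟨h3, h4⟩))
      · by_cases h4 : v ∈ K
        · exact mem_union_left _ (mem_union_left _ h4)
        · exact mem_union_right _ (mem_union_left _ (mem_sdiff.2 ⟨mem_sdiff.2 ⟨hv, h3⟩, h4⟩))
    · exact h.cov.mono (union_subset (union_subset (h.KQ hK) hJQ)
        (union_subset (sdiff_subset.trans sdiff_subset) (sdiff_subset.trans h.XQ)))
    · exact h.cov.mono (union_subset (h.KQ hK) hJQ)
    · exact h.cov.mono (union_subset (sdiff_subset.trans sdiff_subset)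
        (sdiff_subset.trans h.XQ))
    · exact h.cov.mono (sdiff_subset.trans sdiff_subset)
    · exact h.cov.mono (sdiff_subset.trans h.XQ)
  have h3 : rho B ({x, z} \ J) ≤ ({x, z} \ J).card :=
    rho_le_card' (h.cov.mono (sdiff_subset.trans h.XQ))
  have h4 := card_sdiff_add_card_eq_card hJ
  rw [card_pair h.ne] at h4
  omega

/-- the blocks inside the two points through `y`. -/
noncomputable def sy (B : ι → Finset V) (Q : Finset V) (x z y : V) : Finset ι := by
  classical
  exact (ins B Q {x, z}).filter (fun i => y ∈ B i)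

theorem mem_sy {y : V} {i : ι} : i ∈ sy B Q x z y ↔ i ∈ ins B Q {x, z} ∧ y ∈ B i := by
  unfold sy
  rw [mem_filter]

theorem deg (h : Sp2 B Q x z Ks) {y : V} (hy : y ∈ ({x, z} : Finset V)) :
    5 ≤ ∑ K ∈ Ks, (bk B K y).card + (sy B Q x z y).card := by
  classical
  have h1 : (univ.filter (fun i => y ∈ B i)).card = 5 := h.viol.reg y (h.XQ hy)
  rw [← h1]
  have h2 : univ.filter (fun i => y ∈ B i) ⊆ (Ks.biUnion (fun K => bk B K y)) ∪
      sy B Q x z y := by
    intro i hi
    have hyi := (mem_filter.1 hi).2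
    by_cases h3 : ∃ K ∈ Ks, (B i ∩ K).Nonempty
    · obtain ⟨K, hK, h4⟩ := h3
      exact mem_union_left _ (mem_biUnion.2 ⟨K, hK, mem_bk.2 ⟨hyi, h4⟩⟩)
    · push Not at h3
      refine mem_union_right _ (mem_sy.2 ⟨mem_ins.2 ⟨⟨y, mem_inter.2 ⟨hyi, h.XQ hy⟩⟩, ?_⟩, hyi⟩)
      intro w hw
      obtain ⟨hw1, hw2⟩ := mem_inter.1 hw
      by_contra hwX
      have h4 : w ∈ Ks.biUnion id := by
        rw [h.un]
        exact mem_sdiff.2 ⟨hw2, hwX⟩
      obtain ⟨K, hK, hwK⟩ := mem_biUnion.1 h4
      have h5 := h3 K hK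
      have h6 : w ∈ B i ∩ K := mem_inter.2 ⟨hw1, hwK⟩
      rw [h5] at h6
      exact notMem_empty _ h6
  exact (card_le_card h2).trans ((card_union_le _ _).trans
    (Nat.add_le_add_right card_biUnion_le _))

theorem dvQ (h : Sp2 B Q x z Ks) : dv B Q Q = ∑ K ∈ Ks, dv B Q K + 10 +
    4 * ((ins B Q {x, z}).card : ℤ) - 24 * ((rho B Q : ℤ) - rho B (Q \ {x, z})) -
      2 * ((ee B Q {x} : ℤ) + ee B Q {z}) := by
  classical
  have h1 := Pv_sdiff (B := B) (W := Q) (X := {x, z}) h.XQ
  have h2 : Pv B (Q \ {x, z}) = ∑ K ∈ Ks, Pv B K := by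
    rw [← h.un, Pv_biUnion (fun K hK => h.covK hK) h.sep]
  have h3 : ee B Q Q = ee B Q {x} + ee B Q {z} + ∑ K ∈ Ks, ee B Q K := by
    have h4 := ee_union (B := B) (Q := Q) (P := {x, z}) (P' := Q \ {x, z}) disjoint_sdiff
    rw [union_sdiff_of_subset h.XQ, ← h.un, ee_biUnion h.sep] at h4
    have h5 := ee_union (B := B) (Q := Q) (P := {x}) (P' := {z})
      (disjoint_singleton.2 h.ne)
    rw [← insert_eq] at h5
    rw [h4, h5]
  unfold dv
  rw [h1, h2, h3, card_pair h.ne, sum_sub_distrib, ← mul_sum]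
  push_cast
  ring

theorem svR (h : Sp2 B Q x z Ks) :
    ∑ K ∈ Ks, sv B K = sv B Q - 2 + 2 * ((rho B Q : ℤ) - rho B (Q \ {x, z})) := by
  have h1 := sv_biUnion (fun K hK => h.covK hK) h.sep
  rw [← h1, h.un]
  unfold sv
  have h2 := card_sdiff_add_card_eq_card h.XQ
  rw [card_pair h.ne] at h2
  have h3 : (Q.card : ℤ) = (Q \ {x, z}).card + 2 := by exact_mod_cast h2.symm
  rw [h3]
  ring

theorem rho_bounds (h : Sp2 B Q x z Ks) :
    rho B (Q \ {x, z}) + 1 ≤ rho B Q ∧ rho B Q ≤ rho B (Q \ {x, z}) + 2 := by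
  classical
  have h1 := h.viol.crit x h.xQ
  have h2 : rho B (Q \ {x, z}) ≤ rho B (Q.erase x) := by
    refine rho_mono ?_ (h.cov.mono (erase_subset _ _))
    intro v hv
    obtain ⟨hv1, hv2⟩ := mem_sdiff.1 hv
    exact mem_erase.2 ⟨fun h3 => hv2 (by rw [h3]; exact mem_insert_self _ _), hv1⟩
  refine ⟨by omega, ?_⟩
  have h3 : rho B Q ≤ rho B (Q \ {x, z}) + rho B ({x, z} : Finset V) := by
    refine le_trans (rho_mono ?_ ?_) (rho_union_le ?_ ?_)
    · rw [sdiff_union_of_subset h.XQ]
    · rw [sdiff_union_of_subset h.XQ]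
      exact h.cov
    · exact h.cov.mono sdiff_subset
    · exact h.cov.mono h.XQ
  have h4 : rho B ({x, z} : Finset V) ≤ ({x, z} : Finset V).card := rho_le_card' (h.cov.mono h.XQ)
  rw [card_pair h.ne] at h4
  omega

end Sp2

/-- the bound for a component in terms of at most four blocks. -/
def phi4 (m : ℕ) : ℤ := phi (min 4 m)

theorem phi4_zero : phi4 0 = 0 := by
  unfold phi4 phi
  simp

theorem phi4_add (a b : ℕ) : phi4 (a + b) ≤ phi4 a + phi4 b := by
  unfold phi4 phi
  split_ifs <;> omega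

theorem phi4_sum {α : Type*} [DecidableEq α] (S : Finset α) (f : α → ℕ) :
    phi4 (∑ a ∈ S, f a) ≤ ∑ a ∈ S, phi4 (f a) := by
  induction S using Finset.induction_on with
  | empty => rw [sum_empty, sum_empty, phi4_zero]
  | insert a S ha ih =>
    rw [sum_insert ha, sum_insert ha]
    exact (phi4_add _ _).trans (by linarith)

namespace Sp2

variable {Q K : Finset V} {x z : V} {Ks : Finset (Finset V)}

/-- the first case: both points lower the cover number. -/
theorem not_two (h : Sp2 B Q x z Ks) : rho B Q ≠ rho B (Q \ {x, z}) + 2 := by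
  classical
  intro hrho
  have hno : ∀ i, x ∈ B i → z ∉ B i := by
    intro i hi hi'
    have h1 : rho B Q ≤ rho B (Q \ {x, z}) + rho B ({x, z} : Finset V) := by
      refine le_trans (rho_mono ?_ ?_) (rho_union_le ?_ ?_)
      · rw [sdiff_union_of_subset h.XQ]
      · rw [sdiff_union_of_subset h.XQ]
        exact h.cov
      · exact h.cov.mono sdiff_subset
      · exact h.cov.mono h.XQ
    have h2 : rho B ({x, z} : Finset V) ≤ 1 :=
      rho_le_one (insert_subset hi (singleton_subset_iff.2 hi'))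
    omega
  set c : Finset V → ℕ := fun K =>
    (({x, z} : Finset V).filter (fun y => 1 ≤ (bk B K y).card)).card with hc
  have hc1 : ∀ K ∈ Ks, 1 ≤ c K := by
    intro K hK
    obtain ⟨y, hy, hy1⟩ := h.see hK
    exact card_pos.2 ⟨y, mem_filter.2 ⟨hy, hy1⟩⟩
  have hc2 : ∀ K, c K ≤ 2 := fun K => (card_filter_le _ _).trans card_le_two
  have hphi : ∀ K ∈ Ks, phi (bk B K x).card + phi (bk B K z).card + (c K : ℤ) - 1 ≤ dv B Q K ∧
      ((c K : ℤ) ≤ sv B K →
        phi (bk B K x).card + phi (bk B K z).card + (c K : ℤ) ≤ dv B Q K) := by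
    intro K hK
    set Y := ({x, z} : Finset V).filter (fun y => 1 ≤ (bk B K y).card) with hY
    have hYX : Y ⊆ {x, z} := filter_subset _ _
    have hYc : Y.card ≤ 2 := hc2 K
    obtain ⟨y0, hy0, hy01, hy04⟩ := h.small hK
    have h1 := single_geS (Y := Y) h.viol.reg h.viol.tr (h.part K hK).2.2 (h.KQ hK)
      (hYX.trans h.XQ) (disjoint_of_subset_right hYX (h.KX hK)) h.viol.ih h.viol.ihr
      (by have := h.lt hK; omega) (fun y hy => (mem_filter.1 hy).2)
      ⟨y0, mem_filter.2 ⟨hy0, hy01⟩, hy04⟩ (fun Y' hY' => by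
        have h2 := h.rho_ge hK (hY'.trans hYX)
        omega)
    have h2 : ∑ y ∈ Y, (phi (bk B K y).card + 1) =
        phi (bk B K x).card + phi (bk B K z).card + (c K : ℤ) := by
      have h3 : ∑ y ∈ Y, phi (bk B K y).card = ∑ y ∈ ({x, z} : Finset V), phi (bk B K y).card := by
        refine sum_subset hYX fun y hy hyY => ?_
        have h4 : (bk B K y).card = 0 := by
          by_contra h5
          exact hyY (mem_filter.2 ⟨hy, Nat.one_le_iff_ne_zero.2 h5⟩)
        rw [h4, phi_zero]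
      rw [sum_add_distrib, h3, sum_pair h.ne, sum_const, nsmul_eq_mul, mul_one]
    rw [h2] at h1
    exact h1
  -- a part seen by both points
  have hboth : ∃ K ∈ Ks, c K = 2 := by
    by_contra hcon
    push Not at hcon
    set W : Finset V := insert x ((Ks.filter (fun K => 1 ≤ (bk B K x).card)).biUnion id) with hW
    have hone : ∀ K ∈ Ks, 1 ≤ (bk B K x).card → ¬ 1 ≤ (bk B K z).card := by
      intro K hK h1 h2
      refine hcon K hK ?_
      have h4 : ({x, z} : Finset V).filter (fun y => 1 ≤ (bk B K y).card) = {x, z} := by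
        rw [filter_eq_self]
        intro y hy
        rw [mem_insert, mem_singleton] at hy
        rcases hy with rfl | rfl
        · exact h1
        · exact h2
      show (({x, z} : Finset V).filter (fun y => 1 ≤ (bk B K y).card)).card = 2
      rw [h4, card_pair h.ne]
    have hcl : Closed (gr B) Q W := by
      constructor
      · refine insert_subset h.xQ (biUnion_subset.2 fun K hK => h.KQ (mem_filter.1 hK).1)
      · intro v hv w hw hvw
        obtain ⟨hne2, i, hi1, hi2⟩ := hvw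
        rcases mem_insert.1 hv with rfl | hv
        · -- v = x
          by_cases hwz : w = z
          · subst hwz
            exact absurd hi2 (hno i hi1)
          have hwX : w ∉ ({v, z} : Finset V) := by
            rw [mem_insert, mem_singleton]
            rintro (h1 | h1)
            · exact hne2 h1.symm
            · exact hwz h1
          have hwR : w ∈ Ks.biUnion id := by
            rw [h.un]
            exact mem_sdiff.2 ⟨hw, hwX⟩
          obtain ⟨K, hK, hwK⟩ := mem_biUnion.1 hwR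
          refine mem_insert_of_mem (mem_biUnion.2 ⟨K, mem_filter.2 ⟨hK, ?_⟩, hwK⟩)
          exact card_pos.2 ⟨i, mem_bk.2 ⟨hi1, w, mem_inter.2 ⟨hi2, hwK⟩⟩⟩
        · obtain ⟨K, hK, hvK⟩ := mem_biUnion.1 hv
          obtain ⟨hK1, hKx⟩ := mem_filter.1 hK
          have hvK' : v ∈ K := hvK
          have hiK : (B i ∩ K).Nonempty := ⟨v, mem_inter.2 ⟨hi1, hvK'⟩⟩
          rcases mem_union.1 (h.adj_part hK1 hiK hi2 hw) with h1 | h1
          · exact mem_insert_of_mem (mem_biUnion.2 ⟨K, hK, h1⟩)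
          · rw [mem_insert, mem_singleton] at h1
            rcases h1 with rfl | rfl
            · exact mem_insert_self _ _
            · exact absurd (card_pos.2 ⟨i, mem_bk.2 ⟨hi2, hiK⟩⟩) (hone K hK1 hKx)
    have h1 := h.viol.conn.2 W hcl ⟨x, mem_insert_self _ _⟩
    have h2 := h.zQ
    rw [← h1] at h2
    rcases mem_insert.1 h2 with h3 | h3
    · exact h.ne h3.symm
    · obtain ⟨K, hK, hzK⟩ := mem_biUnion.1 h3
      have hzK' : z ∈ K := hzK
      exact disjoint_left.1 (h.KX (mem_filter.1 hK).1) hzK'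
        (mem_insert_of_mem (mem_singleton_self z))
  -- the counts at the two points
  have hins : (sy B Q x z x).card + (sy B Q x z z).card ≤ (ins B Q {x, z}).card := by
    rw [← card_union_of_disjoint]
    · exact card_le_card (union_subset (fun i hi => (mem_sy.1 hi).1) fun i hi => (mem_sy.1 hi).1)
    · rw [disjoint_left]
      intro i hi hi'
      exact hno i (mem_sy.1 hi).2 (mem_sy.1 hi').2
  have hee : ∀ y ∈ ({x, z} : Finset V), 2 * ee B Q {y} ≤ (sy B Q x z y).card ∧
      ee B Q {y} ≤ 1 := by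
    intro y hy
    obtain ⟨h1, h2⟩ := ee_singleton_le (B := B) (Q := Q) (x := y)
    refine ⟨h1.trans (card_le_card fun i hi => ?_), h2⟩
    obtain ⟨h3, h4⟩ := mem_ins.1 hi
    refine mem_sy.2 ⟨mem_ins.2 ⟨h3, h4.trans (singleton_subset_iff.2 hy)⟩, ?_⟩
    obtain ⟨v, hv⟩ := h3
    have h5 := h4 hv
    rw [mem_singleton] at h5
    rw [← h5]
    exact (mem_inter.1 hv).1
  have hcnt : ∀ y ∈ ({x, z} : Finset V), 18 + 2 * (ee B Q {y} : ℤ) ≤
      ∑ K ∈ Ks, phi (bk B K y).card + 4 * ((sy B Q x z y).card : ℤ) := by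
    intro y hy
    have h1 := h.deg hy
    have h2 := phi_sum Ks (fun K => (bk B K y).card)
    obtain ⟨h3, h4⟩ := hee y hy
    have h5 : phi (5 - (sy B Q x z y).card) ≤ phi (∑ K ∈ Ks, (bk B K y).card) :=
      phi_mono (by omega)
    have h6 : 18 + 2 * (ee B Q {y} : ℤ) ≤ phi (5 - (sy B Q x z y).card) +
        4 * ((sy B Q x z y).card : ℤ) := by
      unfold phi
      split_ifs <;> omega
    linarith
  have hx := hcnt x (mem_insert_self _ _)
  have hz := hcnt z (mem_insert_of_mem (mem_singleton_self z))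
  have hdv := h.dvQ
  have hsv := h.svR
  have hneg := h.viol.neg
  have hs1 := h.viol.sv1
  have hr2 : (rho B Q : ℤ) - rho B (Q \ {x, z}) = 2 := by
    rw [hrho]
    push_cast
    ring
  rw [hr2] at hdv hsv
  have hcsum : 1 ≤ ∑ K ∈ Ks, ((c K : ℤ) - 1) := by
    obtain ⟨K, hK, hcK⟩ := hboth
    have h1 : ((c K : ℤ) - 1) ≤ ∑ K ∈ Ks, ((c K : ℤ) - 1) :=
      single_le_sum (f := fun K => ((c K : ℤ) - 1)) (fun K' hK' => by
        have := hc1 K' hK'
        omega) hK
    rw [hcK] at h1
    push_cast at h1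
    linarith
  set g : Finset V → ℤ := fun K => if (c K : ℤ) ≤ sv B K then 1 else 0 with hg
  have hg0 : ∀ K, 0 ≤ g K := fun K => by
    rw [hg]
    dsimp only
    split_ifs <;> norm_num
  have hdK : ∀ K ∈ Ks, phi (bk B K x).card + phi (bk B K z).card + ((c K : ℤ) - 1) + g K ≤
      dv B Q K := by
    intro K hK
    obtain ⟨h1, h2⟩ := hphi K hK
    rw [hg]
    dsimp only
    split_ifs with h3
    · have := h2 h3
      linarith
    · linarith
  have hsumd := sum_le_sum hdK
  rw [sum_add_distrib, sum_add_distrib, sum_add_distrib] at hsumd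
  have hinsZ : ((sy B Q x z x).card : ℤ) + (sy B Q x z z).card ≤ (ins B Q {x, z}).card := by
    exact_mod_cast hins
  by_cases hgood : ∃ K ∈ Ks, (c K : ℤ) ≤ sv B K
  · obtain ⟨K, hK, hcK⟩ := hgood
    have h1 : g K ≤ ∑ K ∈ Ks, g K := single_le_sum (fun K' _ => hg0 K') hK
    have h2 : g K = 1 := by
      rw [hg]
      dsimp only
      rw [if_pos hcK]
    linarith
  · push Not at hgood
    have h1 : ∑ K ∈ Ks, sv B K ≤ ∑ K ∈ Ks, ((c K : ℤ) - 1) := by
      refine sum_le_sum fun K hK => ?_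
      have := hgood K hK
      omega
    have h2 : 0 ≤ ∑ K ∈ Ks, g K := sum_nonneg fun K _ => hg0 K
    linarith

/-- the second case, the part `K0` absorbs each of the two points. -/
theorem not_abs (h : Sp2 B Q x z Ks) (hrho : rho B Q = rho B (Q \ {x, z}) + 1) {K0 : Finset V}
    (hK0 : K0 ∈ Ks) (hbx : 1 ≤ (bk B K0 x).card) (hbz : (bk B K0 x).card ≤ (bk B K0 z).card)
    (href : ∀ c ∈ Ks, c ≠ K0 → ∀ y ∈ ({x, z} : Finset V), rho B c + 1 ≤ rho B (c ∪ {y})) :
    False := by
  classical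
  have hx5 := bk_le (K := K0) h.viol.reg h.xQ
  have hz5 := bk_le (K := K0) h.viol.reg h.zQ
  -- the blocks missing `K0`
  set A : V → Finset ι := fun y => univ.filter (fun i => y ∈ B i ∧ ¬ (B i ∩ K0).Nonempty) with hA
  have hAc : ∀ y ∈ ({x, z} : Finset V), (A y).card + (bk B K0 y).card = 5 := by
    intro y hy
    have h1 : (univ.filter (fun i => y ∈ B i)).card = 5 := h.viol.reg y (h.XQ hy)
    rw [← h1, ← card_union_of_disjoint]
    · congr 1
      ext i
      simp only [hA, mem_union, mem_filter, mem_univ, true_and, mem_bk]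
      tauto
    · rw [disjoint_left]
      intro i hi hi'
      exact (mem_filter.1 hi).2.2 (mem_bk.1 hi').2
  set M : Finset V → Finset ι := fun c =>
    univ.filter (fun i => (B i ∩ {x, z}).Nonempty ∧ (B i ∩ c).Nonempty) with hM
  set m := ∑ c ∈ Ks.erase K0, (M c).card with hm
  set s := (ins B Q {x, z}).card with hs
  have hU : (A x ∪ A z).card ≤ m + s := by
    have h1 : A x ∪ A z ⊆ ((Ks.erase K0).biUnion M) ∪ ins B Q {x, z} := by
      intro i hi
      have h2 : ∃ y ∈ ({x, z} : Finset V), y ∈ B i ∧ ¬ (B i ∩ K0).Nonempty := by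
        rcases mem_union.1 hi with h3 | h3
        · exact ⟨x, mem_insert_self _ _, (mem_filter.1 h3).2⟩
        · exact ⟨z, mem_insert_of_mem (mem_singleton_self z), (mem_filter.1 h3).2⟩
      obtain ⟨y, hy, hyi, hiK⟩ := h2
      by_cases h3 : ∃ K ∈ Ks, (B i ∩ K).Nonempty
      · obtain ⟨K, hK, h4⟩ := h3
        refine mem_union_left _ (mem_biUnion.2 ⟨K, mem_erase.2 ⟨?_, hK⟩, ?_⟩)
        · rintro rfl
          exact hiK h4
        · exact mem_filter.2 ⟨mem_univ _, ⟨y, mem_inter.2 ⟨hyi, hy⟩⟩, h4⟩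
      · push Not at h3
        refine mem_union_right _ (mem_ins.2 ⟨⟨y, mem_inter.2 ⟨hyi, h.XQ hy⟩⟩, ?_⟩)
        intro w hw
        obtain ⟨hw1, hw2⟩ := mem_inter.1 hw
        by_contra hwX
        have h4 : w ∈ Ks.biUnion id := by
          rw [h.un]
          exact mem_sdiff.2 ⟨hw2, hwX⟩
        obtain ⟨K, hK, hwK⟩ := mem_biUnion.1 h4
        have h5 := h3 K hK
        have h6 : w ∈ B i ∩ K := mem_inter.2 ⟨hw1, hwK⟩
        rw [h5] at h6
        exact notMem_empty _ h6
    exact (card_le_card h1).trans ((card_union_le _ _).trans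
      (Nat.add_le_add_right card_biUnion_le _))
  -- the single blocks
  have hS : ∀ y y' : V, y ∈ ({x, z} : Finset V) → y' ∈ ({x, z} : Finset V) → y ≠ y' →
      (A y).card + 2 * ee B Q {y'} ≤ (A x ∪ A z).card := by
    intro y y' hy hy' hyy
    obtain ⟨h1, _⟩ := ee_singleton_le (B := B) (Q := Q) (x := y')
    have h2 : Disjoint (A y) (ins B Q {y'}) := by
      rw [disjoint_left]
      intro i hi hi'
      have h3 := (mem_ins.1 hi').2 (mem_inter.2 ⟨(mem_filter.1 hi).2.1, h.XQ hy⟩)
      exact hyy (mem_singleton.1 h3)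
    have hAsub : ∀ w ∈ ({x, z} : Finset V), A w ⊆ A x ∪ A z := by
      intro w hw
      rw [mem_insert, mem_singleton] at hw
      rcases hw with rfl | rfl
      · exact subset_union_left
      · exact subset_union_right
    have h3 : ins B Q {y'} ⊆ A y' := by
      intro i hi
      obtain ⟨h4, h5⟩ := mem_ins.1 hi
      obtain ⟨v, hv⟩ := h4
      have h6 := h5 hv
      rw [mem_singleton] at h6
      subst h6
      refine mem_filter.2 ⟨mem_univ _, (mem_inter.1 hv).1, ?_⟩
      rintro ⟨w, hw⟩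
      obtain ⟨hw1, hw2⟩ := mem_inter.1 hw
      have h7 := h5 (mem_inter.2 ⟨hw1, h.KQ hK0 hw2⟩)
      rw [mem_singleton] at h7
      subst h7
      exact disjoint_left.1 (h.KX hK0) hw2 hy'
    have h4 := card_le_card (union_subset (hAsub y hy) (h3.trans (hAsub y' hy')))
    rw [card_union_of_disjoint h2] at h4
    omega
  have hSx := hS x z (mem_insert_self _ _) (mem_insert_of_mem (mem_singleton_self z)) h.ne
  have hSz := hS z x (mem_insert_of_mem (mem_singleton_self z)) (mem_insert_self _ _) h.ne.symm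
  have hAx := hAc x (mem_insert_self _ _)
  have hAz := hAc z (mem_insert_of_mem (mem_singleton_self z))
  have hex := (ee_singleton_le (B := B) (Q := Q) (x := x)).2
  have hez := (ee_singleton_le (B := B) (Q := Q) (x := z)).2
  have hes : 2 * ee B Q {x} + 2 * ee B Q {z} ≤ s := by
    have h1 := two_ee_le' (B := B) Q ({x, z} : Finset V)
    have h5 := ee_union (B := B) (Q := Q) (P := {x}) (P' := {z})
      (disjoint_singleton.2 h.ne)
    rw [← insert_eq] at h5
    rw [h5] at h1
    omega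
  -- the other parts
  have hMne : ∀ c ∈ Ks, 1 ≤ (M c).card := by
    intro c hc
    obtain ⟨y, hy, hy1⟩ := h.see hc
    obtain ⟨i, hi⟩ := card_pos.1 hy1
    obtain ⟨h1, h2⟩ := mem_bk.1 hi
    exact card_pos.2 ⟨i, mem_filter.2 ⟨mem_univ _, ⟨y, mem_inter.2 ⟨h1, hy⟩⟩, h2⟩⟩
  have hpt : ∀ c ∈ Ks.erase K0, phi4 (M c).card ≤ dv B Q c ∧
      (1 ≤ sv B c → phi4 (M c).card + 1 ≤ dv B Q c) := by
    intro c hc
    obtain ⟨hcne, hcK⟩ := mem_erase.1 hc
    have hlt := h.lt hcK
    exact pt_geS h.viol.reg h.viol.tr (h.part c hcK).2.2 (h.KQ hcK) h.viol.ih h.viol.ihr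
      (by omega) (by omega) (fun i hi => (mem_filter.1 hi).2.2) (hMne c hcK) (by
        intro i hi
        obtain ⟨_, ⟨y, hy⟩, _⟩ := mem_filter.1 hi
        obtain ⟨hyi, hyX⟩ := mem_inter.1 hy
        refine (href c hcK hcne y hyX).trans (rho_mono (union_subset_union_right ?_) ?_)
        · exact singleton_subset_iff.2 (mem_inter.2 ⟨hyi, mem_sdiff.2 ⟨h.XQ hyX,
            fun h1 => disjoint_left.1 (h.KX hcK) h1 hyX⟩⟩)
        · exact h.cov.mono (union_subset (h.KQ hcK) (inter_subset_right.trans sdiff_subset)))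
  set g : Finset V → ℤ := fun c => if 1 ≤ sv B c then 1 else 0 with hg
  have hg0 : ∀ c, 0 ≤ g c := fun c => by
    rw [hg]
    dsimp only
    split_ifs <;> norm_num
  have hdc : ∀ c ∈ Ks.erase K0, phi4 (M c).card + g c ≤ dv B Q c := by
    intro c hc
    obtain ⟨h1, h2⟩ := hpt c hc
    rw [hg]
    dsimp only
    split_ifs with h3
    · exact h2 h3
    · linarith
  have hsum1 := sum_le_sum hdc
  rw [sum_add_distrib] at hsum1
  have hphi := phi4_sum (Ks.erase K0) (fun c => (M c).card)
  have hm1 : 1 ≤ m := by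
    obtain ⟨K', hK', hne, _⟩ := h.other hK0
    exact (hMne K' hK').trans (single_le_sum (f := fun c => (M c).card)
      (fun _ _ => Nat.zero_le _) (mem_erase.2 ⟨hne, hK'⟩))
  -- the part `K0`
  have hsm : (bk B K0 x).card ≤ 4 := by
    obtain ⟨y, hy, hy1, hy4⟩ := h.small hK0
    rw [mem_insert, mem_singleton] at hy
    rcases hy with rfl | rfl
    · omega
    · omega
  have hdisj : ∀ y ∈ ({x, z} : Finset V), y ∉ K0 := fun y hy h1 =>
    disjoint_left.1 (h.KX hK0) h1 hy
  set e : ℕ := if (bk B K0 x).card + 2 ≤ (bk B K0 z).card then 1 else 0 with he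
  have hpair := pair_geS (e := e) h.viol.reg h.viol.tr (h.part K0 hK0).2.2 (h.KQ hK0) h.xQ h.zQ
    (hdisj x (mem_insert_self _ _)) (hdisj z (mem_insert_of_mem (mem_singleton_self z))) h.ne
    h.viol.ih h.viol.ihr (h.lt hK0) hbx hbz hsm (by
      have h1 := h.rho_ge hK0 (Subset.refl _)
      rw [card_pair h.ne] at h1
      omega) (by rw [he]; split_ifs <;> norm_num) (by
      intro h1
      rw [he] at h1
      by_contra h2
      rw [if_neg h2] at h1
      exact absurd h1 (by norm_num))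
  have hnK : ¬ KT B K0 := by
    refine not_KT_of_ssubset h.viol.conn h.viol.reg h.viol.tr (h.KQ hK0) ?_
    rintro rfl
    exact hdisj x (mem_insert_self _ _) h.xQ
  have hltK0 := h.lt hK0
  have hself : -1 ≤ dv B Q K0 ∧ (0 ≤ sv B K0 → 0 ≤ dv B Q K0) := by
    have h1 := h.viol.ih ι B K0 (by omega) (h.viol.reg.mono (h.KQ hK0))
      (h.viol.tr.mono (h.KQ hK0)) (h.part K0 hK0).2.2 hnK
    have h2 : (ee B Q K0 : ℤ) ≤ ee B K0 K0 := by
      exact_mod_cast ee_le_ee (Subset.refl _) (h.KQ hK0)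
    unfold dv
    refine ⟨by linarith, fun hs => ?_⟩
    have h3 := ih_nonneg h.viol.ih h.viol.ihr (by omega) (h.viol.reg.mono (h.KQ hK0))
      (h.viol.tr.mono (h.KQ hK0)) (h.part K0 hK0).2.2 hnK hs
    linarith
  set g0 : ℤ := if 0 ≤ sv B K0 then 1 else 0 with hg0'
  have hA1 : 13 - 4 * ((5 - (bk B K0 x).card : ℕ) : ℤ) + 2 * (e : ℤ) + g0 ≤ dv B Q K0 := by
    rw [hg0']
    split_ifs with h1
    · have := hpair.2 h1
      linarith
    · linarith [hpair.1]
  have hB1 : -1 + g0 ≤ dv B Q K0 := by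
    rw [hg0']
    split_ifs with h1
    · have := hself.2 h1
      linarith
    · linarith [hself.1]
  -- the value of the whole set
  have hdv := h.dvQ
  have hsv := h.svR
  have hneg := h.viol.neg
  have hs1 := h.viol.sv1
  have hr2 : (rho B Q : ℤ) - rho B (Q \ {x, z}) = 1 := by
    rw [hrho]
    push_cast
    ring
  rw [hr2] at hdv hsv
  rw [← add_sum_erase _ _ hK0] at hdv hsv
  have hgood : 1 ≤ g0 + ∑ c ∈ Ks.erase K0, g c := by
    have hgs : 0 ≤ ∑ c ∈ Ks.erase K0, g c := sum_nonneg fun c _ => hg0 c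
    by_cases h1 : 0 ≤ sv B K0
    · rw [hg0', if_pos h1]
      linarith
    · by_cases h2 : ∃ c ∈ Ks.erase K0, 1 ≤ sv B c
      · obtain ⟨c, hc, hc1⟩ := h2
        have h3 : g c ≤ ∑ c ∈ Ks.erase K0, g c := single_le_sum (fun c' _ => hg0 c') hc
        have h4 : g c = 1 := by
          rw [hg]
          dsimp only
          rw [if_pos hc1]
        have h5 : 0 ≤ g0 := by
          rw [hg0']
          split_ifs <;> norm_num
        linarith
      · push Not at h2
        have h3 : ∑ c ∈ Ks.erase K0, sv B c ≤ 0 := by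
          refine sum_nonpos fun c hc => ?_
          have := h2 c hc
          omega
        omega
  have hkey : min 14 (4 * ((5 - (bk B K0 x).card : ℕ) : ℤ) - 2 * (e : ℤ)) +
      2 * ((ee B Q {x} : ℤ) + ee B Q {z}) ≤ phi4 m + 4 * (s : ℤ) := by
    have he2 : (e = 1 ∧ (bk B K0 x).card + 2 ≤ (bk B K0 z).card) ∨
        (e = 0 ∧ (bk B K0 z).card ≤ (bk B K0 x).card + 1) := by
      rw [he]
      split_ifs with h1
      · exact Or.inl ⟨rfl, h1⟩
      · exact Or.inr ⟨rfl, by omega⟩
    clear_value m s e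
    unfold phi4 phi
    split_ifs
    all_goals omega
  have hphi' : phi4 m ≤ ∑ c ∈ Ks.erase K0, phi4 (M c).card := hphi
  rcases min_le_iff.1 (le_refl (min (14 : ℤ)
      (4 * ((5 - (bk B K0 x).card : ℕ) : ℤ) - 2 * (e : ℤ)))) with h1 | h1
  · linarith
  · linarith

end Sp2

/-- **three-connectivity**: a minimal counterexample has no separator with two points. -/
theorem ViolR.sep2 {Q : Finset V} (hv : ViolR B Q) {x z : V} (hx : x ∈ Q) (hz : z ∈ Q)
    (hxz : x ≠ z) : Conn (gr B) (Q \ {x, z}) := by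
  classical
  by_contra hcon
  obtain ⟨Ks, hK1, hK2, hK3⟩ := exists_parts B (Q \ {x, z})
  have hXQ : ({x, z} : Finset V) ⊆ Q := insert_subset hx (singleton_subset_iff.2 hz)
  have hcov := hv.cov
  have hne : (Q \ {x, z}).Nonempty := by
    have h1 := card_sdiff_add_card_eq_card hXQ
    rw [card_pair hxz] at h1
    have h2 := hv.sv1
    unfold sv at h2
    have h3 := rho_pos hcov ⟨x, hx⟩
    rw [← card_pos]
    omega
  have htwo : 2 ≤ Ks.card := by
    by_contra h2
    rcases Ks.eq_empty_or_nonempty with h3 | h3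
    · rw [h3, biUnion_empty] at hK3
      rw [← hK3] at hne
      exact not_nonempty_empty hne
    · have h4 : Ks.card = 1 := le_antisymm (by omega) (card_pos.2 h3)
      obtain ⟨K, hK⟩ := card_eq_one.1 h4
      have h5 : K = Q \ {x, z} := by
        rw [← hK3, hK, singleton_biUnion]
        rfl
      refine hcon ?_
      rw [← h5]
      exact (hK1 K (by rw [hK]; exact mem_singleton_self K)).2.2
  have h : Sp2 B Q x z Ks := ⟨hv, hx, hz, hxz, hK1, hK2, hK3, htwo⟩
  obtain ⟨hb1, hb2⟩ := h.rho_bounds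
  have hrho : rho B Q = rho B (Q \ {x, z}) + 1 := by
    have := h.not_two
    omega
  have habs : ∀ y ∈ ({x, z} : Finset V), ∀ y' ∈ ({x, z} : Finset V), y ≠ y' →
      ∃ K ∈ Ks, rho B (K ∪ {y}) ≤ rho B K := by
    intro y hy y' hy' hyy
    have hsub : Ks.biUnion id ∪ {y} ⊆ Q.erase y' := by
      intro v hv'
      rcases mem_union.1 hv' with h1 | h1
      · rw [hK3] at h1
        obtain ⟨h2, h3⟩ := mem_sdiff.1 h1
        refine mem_erase.2 ⟨?_, h2⟩
        rintro rfl
        exact h3 hy'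
      · rw [mem_singleton] at h1
        subst h1
        exact mem_erase.2 ⟨hyy, hXQ hy⟩
    refine exists_part_abs hK2 (fun K hK h1 => ?_) (hcov.mono (hsub.trans (erase_subset _ _))) ?_
    · exact (mem_sdiff.1 ((hK1 K hK).1 h1)).2 hy
    · have h1 := rho_mono hsub (hcov.mono (erase_subset _ _))
      have h2 := hv.crit y' (hXQ hy')
      have h3 := h.rhoR
      omega
  have hU : ∀ K1 ∈ Ks, ∀ K2 ∈ Ks, rho B (K1 ∪ {x}) ≤ rho B K1 → rho B (K2 ∪ {z}) ≤ rho B K2 →
      K1 = K2 := by
    intro K1 hK1' K2 hK2' h1 h2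
    by_contra hne12
    have h3 := rho_absorb (B := B) (K := Ks) (Z := {x, z}) (fun K hK => h.covK hK)
      (hcov.mono hXQ) (fun v => if v = x then K1 else K2) (fun v _ => by
        split_ifs
        · exact hK1'
        · exact hK2') (fun _ => 0) (fun C hC => by
        rw [add_zero]
        by_cases hC1 : C = K1
        · subst hC1
          refine (rho_mono (union_subset_union_right ?_) ?_).trans h1
          · intro v hv'
            obtain ⟨_, h5⟩ := mem_filter.1 hv'
            rw [mem_singleton]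
            by_contra h6
            rw [if_neg h6] at h5
            exact hne12 h5.symm
          · exact hcov.mono (union_subset (h.KQ hC) (singleton_subset_iff.2 hx))
        · by_cases hC2 : C = K2
          · subst hC2
            refine (rho_mono (union_subset_union_right ?_) ?_).trans h2
            · intro v hv'
              obtain ⟨h4, h5⟩ := mem_filter.1 hv'
              rw [mem_insert, mem_singleton] at h4
              rw [mem_singleton]
              rcases h4 with h6 | h6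
              · rw [if_pos h6] at h5
                exact absurd h5.symm hC1
              · exact h6
            · exact hcov.mono (union_subset (h.KQ hC) (singleton_subset_iff.2 hz))
          · have h4 : ({x, z} : Finset V).filter
                (fun v => (if v = x then K1 else K2) = C) = ∅ := by
              rw [filter_eq_empty_iff]
              intro v _ h5
              split_ifs at h5
              · exact hC1 h5.symm
              · exact hC2 h5.symm
            rw [h4, union_empty])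
    rw [hK3, sdiff_union_of_subset hXQ, sum_const_zero, add_zero, ← h.rhoR] at h3
    omega
  obtain ⟨K0, hK0, h0x⟩ := habs x (mem_insert_self _ _) z
    (mem_insert_of_mem (mem_singleton_self z)) hxz
  obtain ⟨K2, hK2', h2z⟩ := habs z (mem_insert_of_mem (mem_singleton_self z)) x
    (mem_insert_self _ _) hxz.symm
  have he := hU K0 hK0 K2 hK2' h0x h2z
  subst he
  have hb : ∀ y ∈ ({x, z} : Finset V), rho B (K0 ∪ {y}) ≤ rho B K0 → 1 ≤ (bk B K0 y).card := by
    intro y hy h1
    by_contra h2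
    have h3 : bk B K0 y = ∅ := card_eq_zero.1 (by omega)
    have h4 : Sep B K0 {y} := by
      rintro i hi ⟨v, hv'⟩
      obtain ⟨hv1, hv2⟩ := mem_inter.1 hv'
      rw [mem_singleton] at hv2
      subst hv2
      have h5 : i ∈ bk B K0 v := mem_bk.2 ⟨hv1, hi⟩
      rw [h3] at h5
      exact notMem_empty _ h5
    have h5 := rho_add (h.covK hK0) (hcov.mono (singleton_subset_iff.2 (hXQ hy))) h4
    have h6 := rho_pos (hcov.mono (singleton_subset_iff.2 (hXQ hy))) (singleton_nonempty y)
    omega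
  have hbx := hb x (mem_insert_self _ _) h0x
  have hbz := hb z (mem_insert_of_mem (mem_singleton_self z)) h2z
  have href : ∀ c ∈ Ks, c ≠ K0 → ∀ y ∈ ({x, z} : Finset V), rho B c + 1 ≤ rho B (c ∪ {y}) := by
    intro c hc hc0 y hy
    by_contra h1
    push Not at h1
    rw [mem_insert, mem_singleton] at hy
    rcases hy with rfl | rfl
    · exact hc0 (hU c hc K0 hK0 (by omega) h2z)
    · exact hc0 (hU K0 hK0 c hc h0x (by omega)).symm
  rcases le_total (bk B K0 x).card (bk B K0 z).card with h1 | h1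
  · exact h.not_abs hrho hK0 hbx h1 href
  · refine h.symm.not_abs ?_ hK0 hbz h1 ?_
    · rw [pair_comm]
      exact hrho
    · rw [pair_comm]
      exact href

/-- a minimal counterexample has no separator with one point. -/
theorem ViolR.sep_pt {Q : Finset V} (hv : ViolR B Q) {x : V} (hx : x ∈ Q) :
    Conn (gr B) (Q \ {x}) := by
  classical
  have hcov := hv.cov
  have hcard : 5 ≤ Q.card := by
    have h1 := hv.crit x hx
    have h2 := hv.sv1
    have h0 := rho_pos hcov ⟨x, hx⟩
    unfold sv at h2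
    have h3 : (Q.erase x).Nonempty := by
      rw [← card_pos, card_erase_of_mem hx]
      omega
    have h4 := rho_pos (hcov.mono (erase_subset x Q)) h3
    omega
  have hd := card_sdiff_add_card_eq_card (singleton_subset_iff.2 hx)
  rw [card_singleton] at hd
  have key : ∀ Z, Closed (gr B) (Q \ {x}) Z → 2 ≤ Z.card → Z = Q \ {x} := by
    intro Z hZ hZ2
    by_contra hne
    obtain ⟨z, hz⟩ := card_pos.1 (show 0 < Z.card by omega)
    obtain ⟨hzQ, hzx⟩ := mem_sdiff.1 (hZ.1 hz)
    have hxz : x ≠ z := fun h1 => hzx (by rw [h1]; exact mem_singleton_self z)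
    have hcl : Closed (gr B) (Q \ {x, z}) (Z.erase z) := by
      constructor
      · intro v hv'
        obtain ⟨h1, h2⟩ := mem_erase.1 hv'
        obtain ⟨h3, h4⟩ := mem_sdiff.1 (hZ.1 h2)
        refine mem_sdiff.2 ⟨h3, fun h5 => ?_⟩
        rw [mem_insert, mem_singleton] at h5
        rcases h5 with h6 | h6
        · exact h4 (mem_singleton.2 h6)
        · exact h1 h6
      · intro v hv' w hw hvw
        obtain ⟨h1, h2⟩ := mem_sdiff.1 hw
        rw [mem_insert, mem_singleton, not_or] at h2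
        refine mem_erase.2 ⟨h2.2, hZ.2 v (mem_of_mem_erase hv') w (mem_sdiff.2 ⟨h1, ?_⟩) hvw⟩
        rw [mem_singleton]
        exact h2.1
    have h1 := (hv.sep2 hx hzQ hxz).2 _ hcl (card_pos.1 (by
      rw [card_erase_of_mem hz]
      omega))
    refine hne (subset_antisymm hZ.1 fun w hw => ?_)
    obtain ⟨h2, h3⟩ := mem_sdiff.1 hw
    by_cases h4 : w = z
    · rw [h4]
      exact hz
    · have h5 : w ∈ Q \ {x, z} := by
        refine mem_sdiff.2 ⟨h2, fun h5 => ?_⟩
        rw [mem_insert, mem_singleton] at h5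
        rcases h5 with h6 | h6
        · exact h3 (mem_singleton.2 h6)
        · exact h4 h6
      rw [← h1] at h5
      exact mem_of_mem_erase h5
  refine ⟨card_pos.1 (by omega), fun Z hZ hne => ?_⟩
  by_cases h2 : 2 ≤ Z.card
  · exact key Z hZ h2
  exfalso
  have hcl : Closed (gr B) (Q \ {x}) ((Q \ {x}) \ Z) := by
    refine ⟨sdiff_subset, fun v hv' w hw hvw => ?_⟩
    obtain ⟨h3, h4⟩ := mem_sdiff.1 hv'
    exact mem_sdiff.2 ⟨hw, fun h5 => h4 (hZ.2 w h5 v h3 hvw.symm)⟩
  have h3 := card_sdiff_add_card_eq_card hZ.1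
  have h4 := key _ hcl (by omega)
  obtain ⟨z, hz⟩ := hne
  have h5 := hZ.1 hz
  rw [← h4] at h5
  exact (mem_sdiff.1 h5).2 hz

/-- **the rest of at most two points is connected** in a minimal counterexample. -/
theorem ViolR.conn_sdiff {Q X : Finset V} (hv : ViolR B Q) (hX : X ⊆ Q) (hc : X.card ≤ 2) :
    Conn (gr B) (Q \ X) := by
  rcases Nat.lt_or_ge X.card 2 with h1 | h1
  · rcases X.eq_empty_or_nonempty with rfl | hne
    · rw [sdiff_empty]
      exact hv.conn
    · obtain ⟨x, rfl⟩ := card_eq_one.1 (le_antisymm (by omega) (card_pos.2 hne))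
      exact hv.sep_pt (singleton_subset_iff.1 hX)
  · obtain ⟨a, b, hab, rfl⟩ := card_eq_two.1 (le_antisymm hc h1)
    exact hv.sep2 (hX (mem_insert_self _ _)) (hX (mem_insert_of_mem (mem_singleton_self b))) hab

namespace Gdl

variable {κ : Type u} [Fintype κ] {Q L X Y : Finset V} {I : Finset ι} {E : V → Finset ι}
  {N : κ → Finset V}

/-- **the connectivity of the new system, general form**: the rest of `X` is connected, the points of
`Y` keep their old blocks at the unchanged points and are in one component of the new system. -/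
theorem conn_gen (h : Gdl B Q L X Y I E N) (hYne : Y.Nonempty) (hLne : L.Nonempty)
    (hconn : Conn (gr B) (Q \ X))
    (hlink : ∀ Z, Closed (gr (absG B (rm Q L X Y) Y E N)) (rm Q L X Y ∪ Y) Z →
      (Z ∩ Y).Nonempty → Y ⊆ Z)
    (hkeep : ∀ y ∈ Y, ∀ i, y ∈ B i → (B i ∩ rm Q L X Y).Nonempty → i ∈ E y) :
    Conn (gr (absG B (rm Q L X Y) Y E N)) (rm Q L X Y ∪ Y) := by
  classical
  have hw := h.wir
  have key : ∀ Z, Closed (gr (absG B (rm Q L X Y) Y E N)) (rm Q L X Y ∪ Y) Z →
      Z.Nonempty → (Z ∩ Y).Nonempty := by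
    intro Z hZ hZne
    by_contra h0
    rw [not_nonempty_iff_eq_empty] at h0
    have hZC : ∀ v ∈ Z, v ∈ rm Q L X Y := by
      intro v hv
      rcases mem_union.1 (hZ.1 hv) with h1 | h1
      · exact h1
      · have h2 : v ∈ Z ∩ Y := mem_inter.2 ⟨hv, h1⟩
        rw [h0] at h2
        exact absurd h2 (notMem_empty _)
    have hZX : Z ⊆ Q \ X := by
      intro v hv
      obtain ⟨h1, _, h2, _⟩ := mem_rm.1 (hZC v hv)
      exact mem_sdiff.2 ⟨h1, h2⟩
    have hcl : Closed (gr B) (Q \ X) Z := by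
      refine ⟨hZX, fun v hv w hw' hvw => ?_⟩
      obtain ⟨hwQ, hwX⟩ := mem_sdiff.1 hw'
      obtain ⟨hne, i, hi1, hi2⟩ := hvw
      have hvC := hZC v hv
      obtain ⟨hvQ, hvL, hvX, hvY⟩ := mem_rm.1 hvC
      by_cases hwL : w ∈ L
      · exfalso
        have h1 := h.con i ⟨w, mem_inter.2 ⟨hi2, hwL⟩⟩ (mem_inter.2 ⟨hi1, hvQ⟩)
        rcases mem_union.1 h1 with h2 | h2
        · rcases mem_union.1 h2 with h3 | h3
          · exact hvL h3
          · exact hvX h3
        · exact hvY h2
      by_cases hwY : w ∈ Y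
      · exfalso
        have h1 := hkeep w hwY i hi2 ⟨v, mem_inter.2 ⟨hi1, hvC⟩⟩
        have h2 := hZ.2 v hv w (mem_union_right _ hwY) (hw.adj_Y hwY hvC h1 hi1).symm
        have h3 : w ∈ Z ∩ Y := mem_inter.2 ⟨h2, hwY⟩
        rw [h0] at h3
        exact notMem_empty _ h3
      · have hwC : w ∈ rm Q L X Y := mem_rm.2 ⟨hwQ, hwL, hwX, hwY⟩
        exact hZ.2 v hv w (mem_union_left _ hwC) (hw.adj_C hvC hwC ⟨hne, i, hi1, hi2⟩)
    have heq := hconn.2 Z hcl hZne
    obtain ⟨l, hl⟩ := hLne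
    have hlX : l ∈ Q \ X := mem_sdiff.2 ⟨h.LQ hl, fun h1 => disjoint_left.1 h.dLX hl h1⟩
    rw [← heq] at hlX
    exact (mem_rm.1 (hZC l hlX)).2.1 hl
  refine ⟨hYne.mono subset_union_right, fun Z hZ hne => ?_⟩
  have hYZ := hlink Z hZ (key Z hZ hne)
  by_contra hneq
  have hne2 : ((rm Q L X Y ∪ Y) \ Z).Nonempty := by
    rw [sdiff_nonempty]
    intro h1
    exact hneq (subset_antisymm hZ.1 h1)
  have hcl2 : Closed (gr (absG B (rm Q L X Y) Y E N)) (rm Q L X Y ∪ Y)
      ((rm Q L X Y ∪ Y) \ Z) := by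
    refine ⟨sdiff_subset, fun v hv w hw' hvw => ?_⟩
    obtain ⟨hv1, hv2⟩ := mem_sdiff.1 hv
    exact mem_sdiff.2 ⟨hw', fun h1 => hv2 (hZ.2 w h1 v hv1 hvw.symm)⟩
  obtain ⟨y, hy⟩ := key _ hcl2 hne2
  obtain ⟨hy1, hy2⟩ := mem_inter.1 hy
  exact (mem_sdiff.1 hy1).2 (hYZ hy2)

/-- **the criterion with a connected rest of `X`**: the points of `Y` are linked by the new blocks and
keep their old blocks at the unchanged points. -/
theorem conn_sep (h : Gdl B Q L X Y I E N) (hYne : Y.Nonempty) (hLne : L.Nonempty)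
    (hconn : Conn (gr B) (Q \ X))
    (hlink : ∀ Z ⊆ Y, Z.Nonempty → Z ≠ Y → ∃ c, (N c ∩ Z).Nonempty ∧ (N c \ Z).Nonempty)
    (hkeep : ∀ y ∈ Y, ∀ i, y ∈ B i → (B i ∩ rm Q L X Y).Nonempty → i ∈ E y) :
    Conn (gr (absG B (rm Q L X Y) Y E N)) (rm Q L X Y ∪ Y) := by
  classical
  refine h.conn_gen hYne hLne hconn (fun Z hZ hZY => ?_) hkeep
  by_contra hcon
  obtain ⟨c, ⟨a, ha⟩, ⟨b, hb⟩⟩ := hlink (Z ∩ Y) inter_subset_right hZY (fun h1 =>
    hcon (by rw [← h1]; exact inter_subset_left))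
  obtain ⟨ha1, ha2⟩ := mem_inter.1 ha
  obtain ⟨ha3, ha4⟩ := mem_inter.1 ha2
  obtain ⟨hb1, hb2⟩ := mem_sdiff.1 hb
  have hbY : b ∈ Y := h.subN c hb1
  have hab : a ≠ b := by
    rintro rfl
    exact hb2 ha2
  have h3 : b ∈ Z := hZ.2 a ha3 b (mem_union_right _ hbY) (h.wir.adj_N hab ha1 hb1)
  exact hb2 (mem_inter.2 ⟨h3, hbY⟩)

/-- at most two deleted points: the rest is connected in a minimal counterexample. -/
theorem conn_two (h : Gdl B Q L X Y I E N) (hv : ViolR B Q) (hX : X.card ≤ 2)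
    (hYne : Y.Nonempty) (hLne : L.Nonempty)
    (hlink : ∀ Z, Closed (gr (absG B (rm Q L X Y) Y E N)) (rm Q L X Y ∪ Y) Z →
      (Z ∩ Y).Nonempty → Y ⊆ Z)
    (hkeep : ∀ y ∈ Y, ∀ i, y ∈ B i → (B i ∩ rm Q L X Y).Nonempty → i ∈ E y) :
    Conn (gr (absG B (rm Q L X Y) Y E N)) (rm Q L X Y ∪ Y) :=
  h.conn_gen hYne hLne (hv.conn_sdiff h.XQ hX) hlink hkeep

end Gdl

end Pool.Agent.Hyp6
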