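import Pool.Agent.Hyp6.L3Gd
import Pool.Agent.Hyp6.L3S5
import Pool.Agent.Hyp6.L3RL

/-!
# HYP6 L3P6d: merging blocks at a full block

The points of a full block `i0` are deleted together with the blocks of `D` (each has a point of `i0`);
the blocks of `K0` come back as the new blocks `N k`. The rest without `i0` is connected, so the new
system is connected if every deleted trace is in a new block. `ViolR.blk`: the value of `Q` is at least
`4 |D| - 4 |K0| - 9`, plus `2` for every point with two new single blocks.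
-/

set_option autoImplicit false

namespace Pool.Agent.Hyp6

open Finset Pool.Agent.Hyp5

universe u v

variable {V : Type v} [DecidableEq V] {ι : Type u} [Fintype ι] {B : ι → Finset V}

/-- the data of a merging at a full block. -/
structure Mgb (B : ι → Finset V) (Q : Finset V) (i0 : ι) (D K0 : Finset ι)
    (N : ι → Finset V) : Prop where
  c3 : (B i0 ∩ Q).card = 3
  D0 : ∀ i ∈ D, (B i ∩ (B i0 ∩ Q)).Nonempty
  NQ : ∀ k ∈ K0, N k ⊆ Q \ B i0
  N3 : ∀ k ∈ K0, (N k).card ≤ 3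
  deg : ∀ y ∈ Q, y ∉ B i0 →
    ∑ i ∈ D, (if y ∈ B i then 1 else 0) = ∑ k ∈ K0, (if y ∈ N k then 1 else 0)
  cost : ∀ K ⊆ K0, rho B ((B i0 ∩ Q) ∪ K.biUnion N) ≤ 1 + K.card
  tr : ∀ i ∈ D, ∃ k ∈ K0, (B i ∩ Q) \ B i0 ⊆ N k

namespace Mgb

variable {Q : Finset V} {i0 : ι} {D K0 : Finset ι} {N : ι → Finset V}

/-- the points with new blocks. -/
noncomputable def Yp (B : ι → Finset V) (Q : Finset V) (i0 : ι) (D : Finset ι) : Finset V := by
  classical
  exact Q.filter (fun v => v ∉ B i0 ∧ ∃ i ∈ D, v ∈ B i)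

/-- the unchanged points. -/
noncomputable def Cp (B : ι → Finset V) (Q : Finset V) (i0 : ι) (D : Finset ι) : Finset V := by
  classical
  exact Q.filter (fun v => v ∉ B i0 ∧ ∀ i ∈ D, v ∉ B i)

/-- the blocks kept at a point. -/
noncomputable def Ek (B : ι → Finset V) (D : Finset ι) (y : V) : Finset ι := by
  classical
  exact univ.filter (fun i => y ∈ B i ∧ i ∉ D)

theorem mem_Yp {v : V} : v ∈ Yp B Q i0 D ↔ v ∈ Q ∧ v ∉ B i0 ∧ ∃ i ∈ D, v ∈ B i := by
  unfold Yp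
  simp

theorem mem_Cp {v : V} : v ∈ Cp B Q i0 D ↔ v ∈ Q ∧ v ∉ B i0 ∧ ∀ i ∈ D, v ∉ B i := by
  unfold Cp
  simp

theorem mem_Ek {y : V} {i : ι} : i ∈ Ek B D y ↔ y ∈ B i ∧ i ∉ D := by
  unfold Ek
  simp

/-- the new blocks. -/
def Nn (K0 : Finset ι) (N : ι → Finset V) : {k // k ∈ K0} → Finset V := fun k => N k.1

open Classical in
theorem deg' (h : Mgb B Q i0 D K0 N) {y : V} (hy : y ∈ Q) (hyi : y ∉ B i0) :
    (D.filter (fun i => y ∈ B i)).card =
      (univ.filter (fun c : {k // k ∈ K0} => y ∈ Nn K0 N c)).card := by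
  have h1 := h.deg y hy hyi
  rw [card_filter, card_filter, h1]
  rw [← sum_coe_sort K0 (fun k => if y ∈ N k then 1 else 0)]
  rfl

open Classical in
theorem wir (h : Mgb B Q i0 D K0 N) (hr : Reg B Q) :
    Wir B Q (Cp B Q i0 D) (Yp B Q i0 D) (Ek B D) (Nn K0 N) where
  CQ := fun v hv => (mem_Cp.1 hv).1
  YQ := fun v hv => (mem_Yp.1 hv).1
  dis := by
    rw [disjoint_left]
    intro v hv hv'
    obtain ⟨_, _, i, hi, hvi⟩ := mem_Yp.1 hv'
    exact (mem_Cp.1 hv).2.2 i hi hvi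
  mem := fun y _ i hi => (mem_Ek.1 hi).1
  subN := by
    rintro ⟨c, hc⟩ v hv
    have hv' : v ∈ N c := hv
    obtain ⟨h1, h2⟩ := mem_sdiff.1 (h.NQ c hc hv')
    have h3 := h.deg v h1 h2
    have h4 : 1 ≤ ∑ k ∈ K0, (if v ∈ N k then 1 else 0) := by
      refine le_trans ?_ (single_le_sum (f := fun k => if v ∈ N k then 1 else 0)
        (fun _ _ => Nat.zero_le _) hc)
      simp [hv']
    rw [← h3] at h4
    have h5 : ∑ i ∈ D, (if v ∈ B i then 1 else 0) ≠ 0 := by omega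
    obtain ⟨i, hi, hi2⟩ := exists_ne_zero_of_sum_ne_zero h5
    refine mem_Yp.2 ⟨h1, h2, i, hi, ?_⟩
    by_contra hcon
    rw [if_neg hcon] at hi2
    exact hi2 rfl
  deg := by
    intro y hy
    obtain ⟨h1, h2, _⟩ := mem_Yp.1 hy
    have h3 := h.deg' h1 h2
    have h4 := hr y h1
    have h5 : univ.filter (fun i => y ∈ B i) = Ek B D y ∪ D.filter (fun i => y ∈ B i) := by
      ext i
      rw [mem_filter, mem_union, mem_Ek, mem_filter]
      simp only [mem_univ, true_and]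
      tauto
    have h6 : Disjoint (Ek B D y) (D.filter (fun i => y ∈ B i)) := by
      rw [disjoint_left]
      intro i hi hi'
      exact (mem_Ek.1 hi).2 (mem_filter.1 hi').1
    rw [h5, card_union_of_disjoint h6, h3] at h4
    convert h4
  sizeN := fun c => h.N3 c.1 c.2

theorem CY (h : Mgb B Q i0 D K0 N) : Cp B Q i0 D ∪ Yp B Q i0 D = Q \ (B i0 ∩ Q) := by
  ext v
  rw [mem_union, mem_Cp, mem_Yp, mem_sdiff, mem_inter]
  constructor
  · rintro (⟨h1, h2, _⟩ | ⟨h1, h2, _⟩) <;> exact ⟨h1, fun h3 => h2 h3.1⟩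
  · rintro ⟨h1, h2⟩
    have h3 : v ∉ B i0 := fun h4 => h2 ⟨h4, h1⟩
    by_cases h4 : ∃ i ∈ D, v ∈ B i
    · exact Or.inr ⟨h1, h3, h4⟩
    · push Not at h4
      exact Or.inl ⟨h1, h3, h4⟩

open Classical in
/-- the new system is connected. -/
theorem conn (h : Mgb B Q i0 D K0 N) (hr : Reg B Q)
    (hc : Conn (gr B) (Q \ (B i0 ∩ Q))) :
    Conn (gr (absG B (Cp B Q i0 D) (Yp B Q i0 D) (Ek B D) (Nn K0 N)))
      (Cp B Q i0 D ∪ Yp B Q i0 D) := by
  have hw := h.wir hr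
  have hadj : ∀ p ∈ Cp B Q i0 D ∪ Yp B Q i0 D, ∀ q ∈ Cp B Q i0 D ∪ Yp B Q i0 D,
      (gr B).Adj p q →
      (gr (absG B (Cp B Q i0 D) (Yp B Q i0 D) (Ek B D) (Nn K0 N))).Adj p q := by
    rintro p hp q hq ⟨hne, i, hpi, hqi⟩
    by_cases hiD : i ∈ D
    · -- both points are in a new block
      obtain ⟨k, hk, hsub⟩ := h.tr i hiD
      have hmem : ∀ v ∈ Cp B Q i0 D ∪ Yp B Q i0 D, v ∈ B i → v ∈ N k := by
        intro v hv hvi
        rw [h.CY] at hv
        obtain ⟨h1, h2⟩ := mem_sdiff.1 hv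
        exact hsub (mem_sdiff.2 ⟨mem_inter.2 ⟨hvi, h1⟩, fun h3 => h2 (mem_inter.2 ⟨h3, h1⟩)⟩)
      exact hw.adj_N (c := ⟨k, hk⟩) hne (hmem p hp hpi) (hmem q hq hqi)
    · have hmem : ∀ v ∈ Cp B Q i0 D ∪ Yp B Q i0 D, v ∈ B i →
          v ∈ absG B (Cp B Q i0 D) (Yp B Q i0 D) (Ek B D) (Nn K0 N) (Sum.inl i) := by
        intro v hv hvi
        rcases mem_union.1 hv with h1 | h1
        · exact (hw.mem_C h1).2 ⟨i, rfl, hvi⟩
        · exact (hw.mem_Y h1).2 (Or.inl ⟨i, mem_Ek.2 ⟨hvi, hiD⟩, rfl⟩)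
      exact ⟨hne, Sum.inl i, hmem p hp hpi, hmem q hq hqi⟩
  rw [h.CY]
  rw [h.CY] at hadj
  refine ⟨hc.1, fun Z hZ hne => hc.2 Z ⟨hZ.1, fun p hp q hq hpq => ?_⟩ hne⟩
  exact hZ.2 p hp q hq (hadj p (hZ.1 hp) q hq hpq)

open Classical in
/-- the cover number. -/
theorem rho_le (h : Mgb B Q i0 D K0 N) (hr : Reg B Q) :
    rho B Q ≤ 1 + rho (absG B (Cp B Q i0 D) (Yp B Q i0 D) (Ek B D) (Nn K0 N))
      (Cp B Q i0 D ∪ Yp B Q i0 D) := by
  have hw := h.wir hr
  have hcov := cov_of_reg hr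
  have h1 : rho B Q - 1 ≤ rho (absG B (Cp B Q i0 D) (Yp B Q i0 D) (Ek B D) (Nn K0 N))
      (Cp B Q i0 D ∪ Yp B Q i0 D) := by
    refine hw.rho_ge' hr fun K Y' hY' _ hK => ?_
    set K1 : Finset ι := K.image Subtype.val with hK1
    have hK1s : K1 ⊆ K0 := by
      intro k hk
      obtain ⟨c, _, rfl⟩ := mem_image.1 hk
      exact c.2
    have hK1c : K1.card = K.card := card_image_of_injective _ Subtype.val_injective
    have hNK : K1.biUnion N ⊆ Q := biUnion_subset.2 fun c hc =>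
      (h.NQ c (hK1s hc)).trans sdiff_subset
    have h2 : rho B Q ≤ rho B ((B i0 ∩ Q) ∪ K1.biUnion N) + rho B (Cp B Q i0 D ∪ Y') := by
      refine le_trans (rho_mono ?_ ?_) (rho_union_le ?_ ?_)
      · intro v hv
        by_cases h3 : v ∈ B i0
        · exact mem_union_left _ (mem_union_left _ (mem_inter.2 ⟨h3, hv⟩))
        have hvCY : v ∈ Cp B Q i0 D ∪ Yp B Q i0 D := by
          rw [h.CY]
          exact mem_sdiff.2 ⟨hv, fun h4 => h3 (mem_inter.1 h4).1⟩
        rcases mem_union.1 hvCY with h4 | h4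
        · exact mem_union_right _ (mem_union_left _ h4)
        · by_cases h5 : ∀ c ∈ K, v ∉ Nn K0 N c
          · exact mem_union_right _ (mem_union_right _ (hK v h4 h5))
          · push Not at h5
            obtain ⟨c, hc, hvc⟩ := h5
            exact mem_union_left _ (mem_union_right _ (mem_biUnion.2
              ⟨c.1, mem_image_of_mem _ hc, hvc⟩))
      · exact hcov.mono (union_subset (union_subset inter_subset_right hNK)
          (union_subset hw.CQ (hY'.trans hw.YQ)))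
      · exact hcov.mono (union_subset inter_subset_right hNK)
      · exact hcov.mono (union_subset hw.CQ (hY'.trans hw.YQ))
    have h3 := h.cost K1 hK1s
    omega
  omega

open Classical in
/-- the number of blocks. -/
theorem cm_ge (h : Mgb B Q i0 D K0 N) (hr : Reg B Q) :
    cm (absG B (Cp B Q i0 D) (Yp B Q i0 D) (Ek B D) (Nn K0 N))
      (Cp B Q i0 D ∪ Yp B Q i0 D) + D.card ≤ cm B Q + K0.card := by
  have hw := h.wir hr
  set C := Cp B Q i0 D with hC
  set Y := Yp B Q i0 D with hY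
  set S : Finset ι := univ.filter (fun i => B i ∩ C = ∅ ∧ ∃ y ∈ Y, i ∈ Ek B D y) with hS
  have h1 := hw.cm_le (S := S) (fun y hy i hi h0 =>
    mem_filter.2 ⟨mem_univ _, h0, y, hy, hi⟩)
  rw [Fintype.card_coe] at h1
  have d1 : Disjoint (tch B C) S := by
    rw [disjoint_left]
    intro i hi hiS
    have h2 := cost_mem_tch.1 hi
    rw [(mem_filter.1 hiS).2.1] at h2
    exact not_nonempty_empty h2
  have d2 : Disjoint (tch B C ∪ S) D := by
    rw [disjoint_left]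
    intro i hi hiD
    rcases mem_union.1 hi with h2 | h2
    · obtain ⟨v, hv⟩ := cost_mem_tch.1 h2
      obtain ⟨hvi, hvC⟩ := mem_inter.1 hv
      exact (mem_Cp.1 hvC).2.2 i hiD hvi
    · obtain ⟨_, _, y, _, hy⟩ := mem_filter.1 h2
      exact (mem_Ek.1 hy).2 hiD
  have hsub : (tch B C ∪ S) ∪ D ⊆ tch B Q := by
    intro i hi
    rw [cost_mem_tch]
    rcases mem_union.1 hi with h6 | h6
    · rcases mem_union.1 h6 with h7 | h7
      · exact (cost_mem_tch.1 h7).mono (inter_subset_inter_left hw.CQ)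
      · obtain ⟨_, _, y, hy, hiy⟩ := mem_filter.1 h7
        exact ⟨y, mem_inter.2 ⟨(mem_Ek.1 hiy).1, hw.YQ hy⟩⟩
    · obtain ⟨v, hv⟩ := h.D0 i h6
      obtain ⟨h7, h8⟩ := mem_inter.1 hv
      exact ⟨v, mem_inter.2 ⟨h7, (mem_inter.1 h8).2⟩⟩
  have h2 := card_le_card hsub
  rw [card_union_of_disjoint d2, card_union_of_disjoint d1] at h2
  unfold Hyp6.cm at h1 ⊢
  omega

end Mgb

open Classical in
/-- **merging blocks at a full block.** -/
theorem ViolR.blk {Q : Finset V} (hv : ViolR B Q) {i0 : ι} {D K0 : Finset ι} {N : ι → Finset V}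
    (h : Mgb B Q i0 D K0 N) {Y2 : Finset V} (hY2 : Y2 ⊆ Q \ B i0) (he2 : ee B Q Y2 = 0)
    (hN2 : ∀ y ∈ Y2, 2 ≤ (K0.filter (fun k => N k = {y})).card)
    (hsm : ∃ k ∈ K0, (N k).Nonempty ∧ (N k).card ≤ 2) :
    4 * (D.card : ℤ) + 2 * (Y2.card : ℤ) - 4 * (K0.card : ℤ) - 9 ≤ dv B Q Q := by
  have hr := hv.reg
  have hw := h.wir hr
  have hcov := cov_of_reg hr
  set R := B i0 ∩ Q with hR
  have hRQ : R ⊆ Q := inter_subset_right
  have hcr : rho B (Q \ R) + 1 = rho B Q := by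
    have hne : R.Nonempty := card_pos.1 (by rw [h.c3]; norm_num)
    obtain ⟨v, hv'⟩ := hne
    have h1 := hv.crit v (hRQ hv')
    have h2 : rho B (Q \ R) ≤ rho B (Q.erase v) := by
      refine rho_mono ?_ (hcov.mono (erase_subset _ _))
      intro w hw
      obtain ⟨h3, h4⟩ := mem_sdiff.1 hw
      exact mem_erase.2 ⟨fun h5 => h4 (h5 ▸ hv'), h3⟩
    have h3 : rho B Q ≤ rho B R + rho B (Q \ R) := by
      refine le_trans (rho_mono ?_ ?_) (rho_union_le (hcov.mono hRQ) (hcov.mono sdiff_subset))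
      · intro w hw
        by_cases h5 : w ∈ R
        · exact mem_union_left _ h5
        · exact mem_union_right _ (mem_sdiff.2 ⟨hw, h5⟩)
      · exact hcov.mono (union_subset hRQ sdiff_subset)
    have h4 : rho B R ≤ 1 := rho_le_one (i := i0) inter_subset_left
    omega
  have hconn := h.conn hr (hv.clo h.c3 R hRQ (Subset.refl _) hcr)
  have hrho := h.rho_le hr
  have hcm := h.cm_ge hr
  set C := Mgb.Cp B Q i0 D with hC
  set Y := Mgb.Yp B Q i0 D with hY
  set B' := absG B C Y (Mgb.Ek B D) (Mgb.Nn K0 N) with hB'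
  have hCYe : C ∪ Y = Q \ R := h.CY
  have hr' := hw.reg hr
  have ht3 := hw.tr3 hv.tr
  have hcard : (C ∪ Y).card + 3 = Q.card := by
    rw [hCYe, ← h.c3]
    exact card_sdiff_add_card_eq_card hRQ
  have hlt : (C ∪ Y).card < Q.card := by omega
  have hKT : ¬ KT B' (C ∪ Y) := by
    intro hK
    obtain ⟨k, hk, hne, h2⟩ := hsm
    have htr : B' (Sum.inr ⟨k, hk⟩) ∩ (C ∪ Y) = N k := by
      rw [hB', hw.inter_self]
      ext v
      rw [mem_absG_inr]
      rfl
    have h3 := hK.trace hr' ht3 (i := Sum.inr ⟨k, hk⟩) (by rw [htr]; exact hne)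
    rw [htr] at h3
    omega
  -- the double single blocks
  have hY2Y : Y2 ⊆ Y := by
    intro y hy
    obtain ⟨h1, h2⟩ := mem_sdiff.1 (hY2 hy)
    obtain ⟨k, hk⟩ := card_pos.1 (lt_of_lt_of_le (by norm_num) (hN2 y hy))
    obtain ⟨hk1, hk2⟩ := mem_filter.1 hk
    have h3 := hw.subN ⟨k, hk1⟩ (show y ∈ N k by rw [hk2]; exact mem_singleton_self y)
    exact h3
  have hee := hw.ee_ge (Y1 := Y \ Y2) (Y2 := Y2) sdiff_subset hY2Y sdiff_disjoint
    (fun y hy i hi => by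
      refine Mgb.mem_Ek.2 ⟨?_, fun hiD => ?_⟩
      · have : y ∈ B i ∩ Q := by rw [hi]; exact mem_singleton_self y
        exact (mem_inter.1 this).1
      · obtain ⟨w, hw'⟩ := h.D0 i hiD
        obtain ⟨h1, h2⟩ := mem_inter.1 hw'
        have h3 : w ∈ B i ∩ Q := mem_inter.2 ⟨h1, (mem_inter.1 h2).2⟩
        rw [hi, mem_singleton] at h3
        have h4 := (Mgb.mem_Yp.1 (mem_sdiff.1 hy).1).2.1
        exact h4 (h3 ▸ (mem_inter.1 h2).1))
    (fun y hy => by
      refine (hN2 y hy).trans ?_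
      have h1 : (K0.filter (fun k => N k = {y})).card =
          (univ.filter (fun c : {k // k ∈ K0} => Mgb.Nn K0 N c = {y})).card := by
        rw [card_filter, card_filter, ← sum_coe_sort K0 (fun k => if N k = {y} then 1 else 0)]
        rfl
      exact h1.le)
  rw [← hB'] at hee
  have heR : ee B Q R = 0 := hv.ee_T h.c3
  have heQ : ee B Q Q = ee B Q C + ee B Q (Y \ Y2) := by
    have h1 : Q = (C ∪ Y) ∪ R := by
      rw [hCYe]
      exact (sdiff_union_of_subset hRQ).symm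
    have h2 : Disjoint (C ∪ Y) R := by
      rw [hCYe]
      exact sdiff_disjoint
    have h3 := ee_union (B := B) (Q := Q) h2
    rw [← h1, heR, add_zero, ee_union hw.dis] at h3
    have h4 := ee_union (B := B) (Q := Q) (P := Y2) (P' := Y \ Y2) disjoint_sdiff
    rw [union_sdiff_of_subset hY2Y, he2, zero_add] at h4
    rw [h3, h4]
  have hok := hv.ih (ι ⊕ {k // k ∈ K0}) B' (C ∪ Y) hlt hr' ht3 hconn hKT
  have hok2 : 0 ≤ sv B' (C ∪ Y) → 2 * (ee B' (C ∪ Y) (C ∪ Y) : ℤ) ≤ Pv B' (C ∪ Y) := fun hs =>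
    ih_nonneg hv.ih hv.ihr hlt hr' ht3 hconn hKT hs
  have hPv' := Pv_eq (B := B') (C ∪ Y)
  have hPvQ := Pv_eq (B := B) Q
  have hs1 := hv.sv1
  unfold sv at hs1 hok2
  unfold dv
  rw [hPv'] at hok hok2
  rw [hPvQ, heQ]
  push_cast
  rcases Nat.lt_or_ge (rho B Q) (1 + rho B' (C ∪ Y)) with h1 | h1
  · omega
  · have h2 := hok2 (by omega)
    omega

end Pool.Agent.Hyp6
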