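import Pool.Agent.Hyp6.Gda5
import Pool.Agent.Hyp6.L3P6d
import Pool.Agent.Hyp6.InsX.V03
import Pool.Agent.Hyp6.InsX.V04

/-!
# HYP6 GDB3: a triple with three hits and few further hits at a leaf of type (3;1)

`ViolR.dbl`: two blocks with the same three points and two further blocks meeting them which leave the
same single point do not exist. `Frm.gdb3`: a leaf of type (3;1) with value `-1` without hits of `U` and
a triple with three hits, not all of different points, has at least five further hits.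
-/

set_option autoImplicit false
set_option maxRecDepth 100000

namespace Pool.Agent.Hyp6

open Finset Pool.Agent.Hyp5 Gdx Rup

universe u v

section

variable {V : Type v} [DecidableEq V] {ι : Type u} [Fintype ι] {B : ι → Finset V}

/-- **two equal full blocks and two blocks leaving the same point.** -/
theorem ViolR.dbl {Q : Finset V} (hv : ViolR B Q) {i0 i1 k1 k2 : ι} (h01 : i0 ≠ i1) (hk : k1 ≠ k2)
    (c3 : (B i0 ∩ Q).card = 3) (h1 : B i1 ∩ Q ⊆ B i0) (n1 : (B i1 ∩ Q).Nonempty) {y : V}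
    (hy : y ∈ Q) (hyi : y ∉ B i0) (e1 : (B k1 ∩ Q) \ B i0 = {y}) (e2 : (B k2 ∩ Q) \ B i0 = {y})
    (m1 : (B k1 ∩ (B i0 ∩ Q)).Nonempty) (m2 : (B k2 ∩ (B i0 ∩ Q)).Nonempty)
    (hee : ee B Q {y} = 0) : False := by
  classical
  have y1 : y ∈ B k1 := (mem_inter.1 (mem_sdiff.1 (by rw [e1]; exact mem_singleton_self y :
    y ∈ (B k1 ∩ Q) \ B i0)).1).1
  have y2 : y ∈ B k2 := (mem_inter.1 (mem_sdiff.1 (by rw [e2]; exact mem_singleton_self y :
    y ∈ (B k2 ∩ Q) \ B i0)).1).1
  have yi1 : y ∉ B i1 := fun h => hyi (h1 (mem_inter.2 ⟨h, hy⟩))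
  have d1 : k1 ≠ i0 := fun h => hyi (h ▸ y1)
  have d2 : k2 ≠ i0 := fun h => hyi (h ▸ y2)
  have d3 : k1 ≠ i1 := fun h => yi1 (h ▸ y1)
  have d4 : k2 ≠ i1 := fun h => yi1 (h ▸ y2)
  have hM : Mgb B Q i0 {i0, i1, k1, k2} {k1, k2} (fun _ => {y}) := by
    refine ⟨c3, ?_, ?_, ?_, ?_, ?_, ?_⟩
    · intro i hi
      simp only [mem_insert, mem_singleton] at hi
      rcases hi with rfl | rfl | rfl | rfl
      · obtain ⟨v, hv'⟩ : (B i ∩ Q).Nonempty := card_pos.1 (by omega)
        exact ⟨v, mem_inter.2 ⟨(mem_inter.1 hv').1, hv'⟩⟩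
      · obtain ⟨v, hv'⟩ := n1
        exact ⟨v, mem_inter.2 ⟨(mem_inter.1 hv').1, mem_inter.2 ⟨h1 hv', (mem_inter.1 hv').2⟩⟩⟩
      · exact m1
      · exact m2
    · intro k _
      exact singleton_subset_iff.2 (mem_sdiff.2 ⟨hy, hyi⟩)
    · intro k _
      simp
    · intro w hw hwi
      rw [sum_insert (by
          simp only [mem_insert, mem_singleton, not_or]
          exact ⟨h01, d1.symm, d2.symm⟩),
        sum_insert (by
          simp only [mem_insert, mem_singleton, not_or]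
          exact ⟨d3.symm, d4.symm⟩), sum_pair hk, sum_pair hk, if_neg hwi,
        if_neg (fun h => hwi (h1 (mem_inter.2 ⟨h, hw⟩))), Nat.zero_add, Nat.zero_add]
      by_cases hwy : w = y
      · subst hwy
        rw [if_pos y1, if_pos y2, if_pos (mem_singleton_self _)]
      · have n1' : w ∉ B k1 := fun h => hwy (mem_singleton.1 (by
          rw [← e1]; exact mem_sdiff.2 ⟨mem_inter.2 ⟨h, hw⟩, hwi⟩))
        have n2' : w ∉ B k2 := fun h => hwy (mem_singleton.1 (by
          rw [← e2]; exact mem_sdiff.2 ⟨mem_inter.2 ⟨h, hw⟩, hwi⟩))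
        rw [if_neg n1', if_neg n2', if_neg (fun h => hwy (mem_singleton.1 h))]
    · intro K hK
      rcases K.eq_empty_or_nonempty with rfl | hne
      · rw [biUnion_empty, union_empty, card_empty]
        exact rho_le_one (i := i0) inter_subset_left
      · have h5 : rho B ((B i0 ∩ Q) ∪ K.biUnion (fun _ => ({y} : Finset V))) ≤ 2 := by
          refine (rho_le (T := {i0, k1}) ?_).trans (card_le_two)
          intro v hv'
          rw [mem_biUnion]
          rcases mem_union.1 hv' with h6 | h6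
          · exact ⟨i0, mem_insert_self _ _, (mem_inter.1 h6).1⟩
          · obtain ⟨k, _, h7⟩ := mem_biUnion.1 h6
            rw [mem_singleton] at h7
            subst h7
            exact ⟨k1, mem_insert_of_mem (mem_singleton_self _), y1⟩
        have h6 := card_pos.2 hne
        omega
    · intro i hi
      simp only [mem_insert, mem_singleton] at hi
      refine ⟨k1, mem_insert_self _ _, ?_⟩
      rcases hi with rfl | rfl | rfl | rfl
      · intro v hv'
        obtain ⟨h5, h6⟩ := mem_sdiff.1 hv'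
        exact absurd (mem_inter.1 h5).1 h6
      · intro v hv'
        obtain ⟨h5, h6⟩ := mem_sdiff.1 hv'
        exact absurd (h1 h5) h6
      · rw [e1]
      · rw [e2]
  have h5 := hv.blk hM (Y2 := {y}) (singleton_subset_iff.2 (mem_sdiff.2 ⟨hy, hyi⟩)) hee
    (fun w hw => by
      rw [mem_singleton] at hw
      subst hw
      rw [filter_true_of_mem (fun k _ => rfl), card_pair hk])
    ⟨k1, mem_insert_self _ _, singleton_nonempty y, by simp⟩
  have c4 : ({i0, i1, k1, k2} : Finset ι).card = 4 := by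
    rw [card_insert_of_notMem (by
          simp only [mem_insert, mem_singleton, not_or]
          exact ⟨h01, d1.symm, d2.symm⟩),
        card_insert_of_notMem (by
          simp only [mem_insert, mem_singleton, not_or]
          exact ⟨d3.symm, d4.symm⟩), card_pair hk]
  rw [c4, card_pair hk, card_singleton] at h5
  have := hv.neg
  push_cast at h5
  linarith

namespace Gdx

/-- the clause: the label `a` is not on both blocks `i`, `j`, or one of the blocks `k`, `l` has a
label. -/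
def dbc (P : Gp) (i j a k l : ℕ) : List ℕ :=
  ng (vP i a) :: ng (vP j a) ::
    (((List.range P.M).filter (fun x => Nat.blt 0 (P.h x))).map (fun x => ps (vP k x)) ++
    ((List.range P.M).filter (fun x => Nat.blt 0 (P.h x))).map (fun x => ps (vP l x)))

/-- a block of the leaf without labels. -/
theorem Gx.no_label {Q Z : Finset V} {P : Gp} {bl : ℕ → ι} {ct zt : ℕ → V} {tb : ℕ → ι}
    (h : Gx B Q Z P bl ct zt tb) {k : ℕ} (hk : k < P.m)
    (hn : ∀ x < P.M, 0 < P.h x → ct x ∉ B (bl k)) : B (bl k) ∩ Q ⊆ Z := by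
  classical
  intro v hv'
  obtain ⟨h1, h2⟩ := mem_inter.1 hv'
  rcases h.con k hk v h1 h2 with h3 | ⟨x, hx, rfl⟩
  · exact h3
  exfalso
  have h4 : 0 < hts B P.m bl (ct x) := by
    unfold hts
    exact card_pos.2 ⟨k, mem_filter.2 ⟨mem_range.2 hk, h1⟩⟩
  have h5 := h.hhi x hx
  exact hn x hx (by omega) h1

/-- **the clause of two equal blocks holds**. -/
theorem Gx.sat_dbc {Q Z : Finset V} {P : Gp} {bl : ℕ → ι} {ct zt : ℕ → V} {tb : ℕ → ι}
    (h : Gx B Q Z P bl ct zt tb) (hee : ee B Q Z = 0) (hzn : P.zn = 3) {i j a k l : ℕ}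
    (hi : i < P.m) (hj : j < P.m) (hij : i ≠ j) (ha : a < P.M) (hk : k < P.m) (hl : l < P.m)
    (hkl : k ≠ l) (zi : P.z i = 3) (zj : P.z j = 3) (zk : P.z k = 5 ∨ P.z k = 6)
    (zl : P.z l = 5 ∨ P.z l = 6) : Sat (gval B Q Z P bl ct) (dbc P i j a k l) := by
  classical
  by_contra hcon
  have hM := h.M32
  have pi : ct a ∈ B (bl i) := by
    by_contra hc
    refine hcon ⟨ng (vP i a), List.mem_cons_self, ?_⟩
    rw [lit_ng, gval_P (by omega)]
    exact hc
  have pj : ct a ∈ B (bl j) := by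
    by_contra hc
    refine hcon ⟨ng (vP j a), List.mem_cons_of_mem _ List.mem_cons_self, ?_⟩
    rw [lit_ng, gval_P (by omega)]
    exact hc
  have nk : ∀ x < P.M, 0 < P.h x → ct x ∉ B (bl k) := by
    intro x hx h0 hc
    refine hcon ⟨ps (vP k x), ?_, ?_⟩
    · refine List.mem_cons_of_mem _ (List.mem_cons_of_mem _ (List.mem_append_left _ ?_))
      exact List.mem_map.2 ⟨x, List.mem_filter.2 ⟨List.mem_range.2 hx, by simpa using h0⟩, rfl⟩
    · rw [lit_ps, gval_P (by omega)]
      exact hc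
  have nl : ∀ x < P.M, 0 < P.h x → ct x ∉ B (bl l) := by
    intro x hx h0 hc
    refine hcon ⟨ps (vP l x), ?_, ?_⟩
    · refine List.mem_cons_of_mem _ (List.mem_cons_of_mem _ (List.mem_append_right _ ?_))
      exact List.mem_map.2 ⟨x, List.mem_filter.2 ⟨List.mem_range.2 hx, by simpa using h0⟩, rfl⟩
    · rw [lit_ps, gval_P (by omega)]
      exact hc
  have sk := h.no_label hk nk
  have sl := h.no_label hl nl
  -- the traces
  have tr : ∀ b < P.m, ∀ z < 3, (zt z ∈ B (bl b) ↔ (P.z b).testBit z = true) := fun b hb z hz =>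
    h.ztr b hb z (by rw [hzn]; exact hz)
  have zQ : ∀ z < 3, zt z ∈ Q := fun z hz => h.ZQ (h.ztZ z (by rw [hzn]; exact hz))
  have i01 : zt 0 ∈ B (bl i) ∧ zt 1 ∈ B (bl i) ∧ zt 2 ∉ B (bl i) := by
    refine ⟨(tr i hi 0 (by norm_num)).2 (by rw [zi]; rfl),
      (tr i hi 1 (by norm_num)).2 (by rw [zi]; rfl), fun hc => ?_⟩
    have := (tr i hi 2 (by norm_num)).1 hc
    rw [zi] at this
    exact _root_.absurd this (by decide)
  have j01 : zt 0 ∈ B (bl j) ∧ zt 1 ∈ B (bl j) := by
    exact ⟨(tr j hj 0 (by norm_num)).2 (by rw [zj]; rfl),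
      (tr j hj 1 (by norm_num)).2 (by rw [zj]; rfl)⟩
  have aQ := h.ctQ a ha
  have aZ := h.ctZ a ha
  have z01 : zt 0 ≠ zt 1 := fun he => by
    have := h.zt_inj 0 (by rw [hzn]; norm_num) 1 (by rw [hzn]; norm_num) he
    omega
  have za : ∀ z < 3, zt z ≠ ct a := fun z hz he =>
    aZ (he ▸ h.ztZ z (by rw [hzn]; exact hz))
  have full : ∀ b, zt 0 ∈ B (bl b) → zt 1 ∈ B (bl b) → ct a ∈ B (bl b) →
      B (bl b) ∩ Q = {zt 0, zt 1, ct a} := by
    intro b h1 h2 h3
    symm
    apply eq_of_subset_of_card_le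
    · intro v hv'
      simp only [mem_insert, mem_singleton] at hv'
      rcases hv' with rfl | rfl | rfl
      · exact mem_inter.2 ⟨h1, zQ 0 (by norm_num)⟩
      · exact mem_inter.2 ⟨h2, zQ 1 (by norm_num)⟩
      · exact mem_inter.2 ⟨h3, aQ⟩
    · rw [card_eq_three.2 ⟨_, _, _, z01, za 0 (by norm_num), za 1 (by norm_num), rfl⟩]
      exact h.hv.tr (bl b)
  have fi := full i i01.1 i01.2.1 pi
  have fj := full j j01.1 j01.2 pj
  have side : ∀ b < P.m, (P.z b = 5 ∨ P.z b = 6) → B (bl b) ∩ Q ⊆ Z →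
      (B (bl b) ∩ Q) \ B (bl i) = {zt 2} ∧ (B (bl b) ∩ (B (bl i) ∩ Q)).Nonempty := by
    intro b hb hz hs
    have m2 : zt 2 ∈ B (bl b) := (tr b hb 2 (by norm_num)).2 (by rcases hz with hz | hz <;> rw [hz] <;> rfl)
    constructor
    · ext v
      rw [mem_sdiff, mem_singleton]
      constructor
      · rintro ⟨h1, h2⟩
        obtain ⟨z, hz', rfl⟩ := h.Zsub v (hs h1)
        rw [hzn] at hz'
        rcases (by omega : z = 0 ∨ z = 1 ∨ z = 2) with rfl | rfl | rfl
        · exact _root_.absurd i01.1 h2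
        · exact _root_.absurd i01.2.1 h2
        · rfl
      · rintro rfl
        exact ⟨mem_inter.2 ⟨m2, zQ 2 (by norm_num)⟩, i01.2.2⟩
    · rcases hz with hz | hz
      · have m0 : zt 0 ∈ B (bl b) := (tr b hb 0 (by norm_num)).2 (by rw [hz]; rfl)
        exact ⟨zt 0, mem_inter.2 ⟨m0, mem_inter.2 ⟨i01.1, zQ 0 (by norm_num)⟩⟩⟩
      · have m0 : zt 1 ∈ B (bl b) := (tr b hb 1 (by norm_num)).2 (by rw [hz]; rfl)
        exact ⟨zt 1, mem_inter.2 ⟨m0, mem_inter.2 ⟨i01.2.1, zQ 1 (by norm_num)⟩⟩⟩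
  obtain ⟨e1, m1⟩ := side k hk zk sk
  obtain ⟨e2, m2⟩ := side l hl zl sl
  have hee' : ee B Q {zt 2} = 0 := by
    have h1 : ({zt 2} : Finset V) ⊆ Z :=
      singleton_subset_iff.2 (h.ztZ 2 (by rw [hzn]; norm_num))
    have h2 : ee B Q {zt 2} ≤ ee B Q Z := by
      unfold ee
      exact card_le_card (filter_subset_filter _ h1)
    omega
  refine h.hv.dbl (i0 := bl i) (i1 := bl j) (k1 := bl k) (k2 := bl l)
    (fun he => hij (h.bl_inj i hi j hj he)) (fun he => hkl (h.bl_inj k hk l hl he))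
    (by rw [fi]; exact card_eq_three.2 ⟨_, _, _, z01, za 0 (by norm_num), za 1 (by norm_num), rfl⟩)
    (by rw [fj, ← fi]; exact inter_subset_left)
    ⟨ct a, mem_inter.2 ⟨pj, aQ⟩⟩ (zQ 2 (by norm_num)) i01.2.2 e1 e2 m1 m2 hee'

end Gdx

variable {Q U L : Finset V} {T : Finset ι} {F : Finset (Finset V)}

/-- the labels of a list of triples if the points outside the first have single hits. -/
theorem Frm.fiveL (h : Frm B Q T U F) (hL : L ∈ F) {j : ι} {l : List ι} (hj : j ∈ T)
    (hlT : ∀ i ∈ l, i ∈ T) (hnd : (j :: l).Nodup) {hT : List ℕ} {m : ℕ} {ct : ℕ → V}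
    (hl : Lbl B Q L j hT (List.replicate m 1) ct) :
    (∀ i < l.length + 1, (j :: l).getD i j ∈ T) ∧
      (∀ i < l.length + 1, ∀ i' < l.length + 1,
        (j :: l).getD i j = (j :: l).getD i' j → i = i') ∧
      (∀ i ∈ l, hit B (B i ∩ Q) L ≤ 3) ∧
      ∃ ct', LblN B Q L (l.length + 1) (fun i => (j :: l).getD i j)
        (hT :: l.map (fun i => v1 (hit B (B i ∩ Q) L)))
        (List.replicate (m - (l.map (fun i => hit B (B i ∩ Q) L)).sum) 1) ct' := by
  classical
  have hT1 : ∀ i < l.length + 1, (j :: l).getD i j ∈ T := by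
    intro i hi
    rw [List.getD_eq_getElem _ _ (by simpa using hi)]
    rcases List.mem_cons.1 (List.getElem_mem (by simpa using hi) : (j :: l)[i] ∈ j :: l) with h1 | h1
    · rw [h1]
      exact hj
    · exact hlT _ h1
  have hinj : ∀ i < l.length + 1, ∀ i' < l.length + 1,
      (j :: l).getD i j = (j :: l).getD i' j → i = i' := by
    intro i hi i' hi' he
    rw [List.getD_eq_getElem _ _ (by simpa using hi), List.getD_eq_getElem _ _ (by simpa using hi')]
      at he
    exact (List.Nodup.getElem_inj_iff hnd).1 he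
  obtain ⟨hs, hW', ct', hn⟩ := h.exists_lblN hL (k := l.length + 1) (by omega)
    (tb := fun i => (j :: l).getD i j) hT1 hinj
  have hlen := hn.len
  obtain ⟨a, hs', rfl⟩ : ∃ a hs', hs = a :: hs' := by
    rcases hs with _ | ⟨a, hs'⟩
    · simp at hlen
    · exact ⟨a, hs', rfl⟩
  rw [List.length_cons] at hlen
  have ha : a = hT := hl.fst_of hn (i := 0) (by omega) rfl
  subst ha
  obtain ⟨h1, h2, h3⟩ := hl.one_of hn
  have hlen' : hs'.length = l.length := by omega
  have hsum : ∀ i (hi : i < l.length), (hs'.getD i []).sum = hit B (B l[i] ∩ Q) L := by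
    intro i hi
    have h4 := hn.sumT (i + 1) (by omega)
    rw [List.getD_cons_succ] at h4
    rw [h4]
    rw [List.getD_cons_succ, List.getD_eq_getElem _ _ hi]
  have hmap : hs' = l.map (fun i => v1 (hit B (B i ∩ Q) L)) := by
    apply List.ext_getElem
    · rw [List.length_map, hlen']
    · intro i hi hi'
      have hi2 : i < l.length := by omega
      rw [List.getElem_map]
      have h4 := (h1 _ (List.getElem_mem hi)).1
      have h5 := hsum i hi2
      rw [List.getD_eq_getElem _ _ hi] at h5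
      rw [h5] at h4
      exact h4
  have hfl : hs'.flatten.sum = (l.map (fun i => hit B (B i ∩ Q) L)).sum := by
    rw [List.sum_flatten]
    congr 1
    apply List.ext_getElem
    · rw [List.length_map, List.length_map, hlen']
    · intro i hi hi'
      rw [List.length_map] at hi hi'
      rw [List.getElem_map, List.getElem_map, ← hsum i hi', List.getD_eq_getElem _ _ hi]
  refine ⟨hT1, hinj, fun i hi => ?_, ct', ?_⟩
  · obtain ⟨n, hn', rfl⟩ := List.mem_iff_getElem.1 hi
    rw [← hsum n hn', List.getD_eq_getElem _ _ (by omega)]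
    exact (h1 _ (List.getElem_mem (by omega))).2
  · rw [← hmap, ← hfl, ← h2]
    exact hn

/-- the triples with hits outside a given one, in decreasing order. -/
theorem Frm.exists_trips (h : Frm B Q T U F) (hL : L ∈ F) (hg : hit B U L = 0) {j : ι}
    (hj : j ∈ T) : ∃ l : List ι, (∀ i ∈ l, i ∈ T) ∧ (j :: l).Nodup ∧
      (∀ i ∈ l, 1 ≤ hit B (B i ∩ Q) L) ∧
      (l.map (fun i => hit B (B i ∩ Q) L)).Pairwise (fun a b => b ≤ a) ∧
      (l.map (fun i => hit B (B i ∩ Q) L)).sum = hit B ((Q \ L) \ B j) L := by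
  classical
  set S := T.filter (fun i => i ≠ j ∧ 1 ≤ hit B (B i ∩ Q) L) with hS
  obtain ⟨l2, hp, hd⟩ := exists_desc (S.toList.map (fun i => hit B (B i ∩ Q) L))
  obtain ⟨l, hp2, hl2⟩ := exists_perm_map hp S.toList rfl
  have hmem : ∀ i, i ∈ l ↔ i ∈ S := fun i => by rw [← hp2.mem_iff, mem_toList]
  refine ⟨l, fun i hi => (mem_filter.1 ((hmem i).1 hi)).1, ?_, fun i hi =>
    (mem_filter.1 ((hmem i).1 hi)).2.2, by rw [hl2]; exact hd, ?_⟩
  · rw [List.nodup_cons]
    refine ⟨fun hc => (mem_filter.1 ((hmem j).1 hc)).2.1 rfl, hp2.nodup_iff.1 (nodup_toList _)⟩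
  · have e1 : (l.map (fun i => hit B (B i ∩ Q) L)).sum = ∑ i ∈ S, hit B (B i ∩ Q) L := by
      rw [← (hp2.map _).sum_eq, Finset.sum_map_toList]
    rw [e1]
    have e2 : ∑ i ∈ S, hit B (B i ∩ Q) L = ∑ y ∈ S.biUnion (fun i => B i ∩ Q), (Ez B L y).card := by
      rw [sum_biUnion]
      · exact sum_congr rfl fun i _ => hit_eq_Ez _ _
      · intro a ha b hb hab
        exact h.mtp.tpk.pack.disj a (mem_filter.1 ha).1 b (mem_filter.1 hb).1 hab
    rw [e2, hit_eq_Ez]
    have hnoU : ∀ v ∈ U, Ez B L v = ∅ := by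
      intro v hv'
      rw [hit_eq_Ez, sum_eq_zero_iff] at hg
      exact card_eq_zero.1 (hg v hv')
    refine sum_subset_zero_on_sdiff ?_ ?_ (fun _ _ => rfl)
    · intro v hv'
      obtain ⟨i, hi, hvi⟩ := mem_biUnion.1 hv'
      obtain ⟨hi1, hi2, _⟩ := mem_filter.1 hi
      rw [mem_sdiff, mem_sdiff]
      refine ⟨⟨(mem_inter.1 hvi).2, fun hc => disjoint_left.1 (h.disT hL hi1) hc hvi⟩, fun hc => ?_⟩
      exact disjoint_left.1 (h.mtp.tpk.pack.disj i hi1 j hj hi2) hvi
        (mem_inter.2 ⟨hc, (mem_inter.1 hvi).2⟩)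
    · intro v hv'
      rw [mem_sdiff, mem_sdiff, mem_sdiff] at hv'
      obtain ⟨⟨⟨hvQ, hvL⟩, hvj⟩, hvS⟩ := hv'
      by_contra hc
      have hne : (Ez B L v).Nonempty := card_pos.1 (by omega)
      have hvU : v ∉ U := fun hu => by
        rw [hnoU v hu] at hne
        exact absurd hne (by simp)
      obtain ⟨i, hi, hvi⟩ := h.exists_T hL hvQ hvL hvU hne
      refine hvS (mem_biUnion.2 ⟨i, mem_filter.2 ⟨hi, ?_, ?_⟩, mem_inter.2 ⟨hvi, hvQ⟩⟩)
      · rintro rfl
        exact hvj hvi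
      · rw [hit_eq_Ez]
        exact (card_pos.2 hne).trans_le (single_le_sum (f := fun y => (Ez B L y).card)
          (fun _ _ => Nat.zero_le _) (mem_inter.2 ⟨hvi, hvQ⟩))

variable [DecidableEq ι]

/-- an excluded table with several triples and no further contact point. -/
theorem Frm.fiveL_no (h : Frm B Q T U F) (hv : ViolR B Q) (hL : L ∈ F) (hc3 : L.card = 3)
    (h1 : nt B L 1 = 1) {j : ι} {l : List ι} (hj : j ∈ T)
    (hlT : ∀ i ∈ l, i ∈ T) (hnd : (j :: l).Nodup) {hT : List ℕ} {m : ℕ} {ct : ℕ → V}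
    (hl : Lbl B Q L j hT (List.replicate m 1) ct) {ss : List ℕ}
    (hss : l.map (fun i => hit B (B i ∩ Q) L) = ss) (hsm : ss.sum = m) (hlen : ss.length ≤ 9)
    (hno : NoN V ι 3 2 9 9 z31 (ss.length + 1) (hT :: ss.map v1) []) : False := by
  obtain ⟨a1, a2, _, ct', a3⟩ := h.fiveL hL hj hlT hnd hl
  have hlen' : l.length = ss.length := by rw [← hss, List.length_map]
  have e1 : l.map (fun i => v1 (hit B (B i ∩ Q) L)) = ss.map v1 := by
    rw [← hss, List.map_map]
    rfl
  rw [e1, hss, hsm, Nat.sub_self, List.replicate_zero, hlen'] at a3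
  rw [hlen'] at a1 a2
  exact h.noN31 hv hL hc3 h1 a1 a2 a3 (by simp; omega) hno

/-- the impossible vector with four further triples. -/
theorem noN_210_1111 {B : ι → Finset V} {Q U L : Finset V} {T : Finset ι} {F : Finset (Finset V)}
    (h : Frm B Q T U F) (hv : ViolR B Q) (hL : L ∈ F) (hee : ee B Q L = 0)
    {tb : ℕ → ι} (hT : ∀ i < 5, tb i ∈ T) (hinj : ∀ i < 5, ∀ i' < 5, tb i = tb i' → i = i')
    {ct zt : ℕ → V} {bl : ℕ → ι}
    (hl : LblN B Q L 5 tb [[2, 1, 0], [1, 0, 0], [1, 0, 0], [1, 0, 0], [1, 0, 0]] [] ct)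
    (hg : Gdx.Gx B Q L (PgN 3 2 9 9 z31 [[2, 1, 0], [1, 0, 0], [1, 0, 0], [1, 0, 0], [1, 0, 0]] [])
      bl ct zt tb) : False := by
  refine hg.no (fun c hc => ?_) Gdx.V31_210_100_100_100_100.inst
  have hc' : ∃ i j a k l, c = Gdx.dbc (PgN 3 2 9 9 z31
      [[2, 1, 0], [1, 0, 0], [1, 0, 0], [1, 0, 0], [1, 0, 0]] []) i j a k l ∧
      i < 3 ∧ j < 3 ∧ i ≠ j ∧ a < 15 ∧ ((k = 3 ∧ l = 4) ∨ (k = 5 ∧ l = 6)) := by
    have h5 : ∀ c ∈ Gdx.V31_210_100_100_100_100.given,
        ([(0, 1, 3, 4), (0, 1, 5, 6), (0, 2, 3, 4), (0, 2, 5, 6), (1, 2, 3, 4), (1, 2, 5, 6)] :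
          List (ℕ × ℕ × ℕ × ℕ)).any (fun q => decide (c = Gdx.dbc (PgN 3 2 9 9 z31
            [[2, 1, 0], [1, 0, 0], [1, 0, 0], [1, 0, 0], [1, 0, 0]] [])
            q.1 q.2.1 0 q.2.2.1 q.2.2.2)) = true := by decide
    have h6 := h5 c hc
    rw [List.any_eq_true] at h6
    obtain ⟨q, hq, h7⟩ := h6
    rw [decide_eq_true_eq] at h7
    refine ⟨q.1, q.2.1, 0, q.2.2.1, q.2.2.2, h7, ?_⟩
    simp only [List.mem_cons, List.not_mem_nil, or_false] at hq
    rcases hq with rfl | rfl | rfl | rfl | rfl | rfl <;> decide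
  obtain ⟨i, j, a, k, l, rfl, hi, hj, hij, ha, hkl⟩ := hc'
  have zz : ∀ b < 3, (PgN 3 2 9 9 z31
      [[2, 1, 0], [1, 0, 0], [1, 0, 0], [1, 0, 0], [1, 0, 0]] []).z b = 3 := by decide
  have hm : (PgN 3 2 9 9 z31
      [[2, 1, 0], [1, 0, 0], [1, 0, 0], [1, 0, 0], [1, 0, 0]] []).m = 8 := rfl
  have hMM : (PgN 3 2 9 9 z31
      [[2, 1, 0], [1, 0, 0], [1, 0, 0], [1, 0, 0], [1, 0, 0]] []).M = 15 := rfl
  rcases hkl with ⟨rfl, rfl⟩ | ⟨rfl, rfl⟩
  · exact hg.sat_dbc hee rfl (by omega) (by omega) hij (by omega) (by omega) (by omega)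
      (by norm_num) (zz i hi) (zz j hj) (Or.inl rfl) (Or.inl rfl)
  · exact hg.sat_dbc hee rfl (by omega) (by omega) hij (by omega) (by omega) (by omega)
      (by norm_num) (zz i hi) (zz j hj) (Or.inr rfl) (Or.inr rfl)

/-- an ungrouped table. -/
theorem Frm.lbl_no (h : Frm B Q T U F) (hv : ViolR B Q) (hL : L ∈ F) (hc3 : L.card = 3)
    (h1 : nt B L 1 = 1) {j : ι} (hj : j ∈ T) {hT hW : List ℕ} {ct : ℕ → V}
    (hl : Lbl B Q L j hT hW ct) (hlen : hW.length ≤ 20)
    (hno : NoN V ι 3 2 9 9 z31 1 [hT] hW) : False := by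
  classical
  obtain ⟨hs, hW', ct', hn⟩ := h.exists_lblN hL (k := 1) (by norm_num) (tb := fun _ => j)
    (fun _ _ => hj) (fun i hi i' hi' _ => by omega)
  obtain ⟨a, rfl⟩ : ∃ a, hs = [a] := List.length_eq_one_iff.1 hn.len
  have ha : a = hT := hl.fst_of hn (i := 0) (by omega) rfl
  subst ha
  have hp := hl.perm_of hn
  rw [List.flatten_nil, List.filter_nil, List.nil_append] at hp
  have hW : hW' = hW := List.Perm.eq_of_pairwise (fun a b _ _ h3 h4 => le_antisymm h4 h3) hn.desW
    hl.desW hp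
  subst hW
  exact h.noN31 hv hL hc3 h1 (fun _ _ => hj) (fun i hi i' hi' _ => by omega) hn (by omega) hno

omit [DecidableEq V] [Fintype ι] [DecidableEq ι] in
/-- the decreasing lists of positive numbers with sum `2`, `3` or `4`. -/
theorem parts4 {l : List ℕ} (hd : l.Pairwise (fun a b => b ≤ a)) (hp : ∀ x ∈ l, 1 ≤ x)
    (h2 : 2 ≤ l.sum) (h4 : l.sum ≤ 4) : l = [2] ∨ l = [1, 1] ∨ l = [3] ∨ l = [2, 1] ∨
      l = [1, 1, 1] ∨ l = [4] ∨ l = [3, 1] ∨ l = [2, 2] ∨ l = [2, 1, 1] ∨ l = [1, 1, 1, 1] := by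
  rcases l with _ | ⟨a, _ | ⟨b, _ | ⟨c, _ | ⟨d, _ | ⟨e, t⟩⟩⟩⟩⟩
  · simp at h2
  · simp only [List.sum_cons, List.sum_nil, Nat.add_zero] at h2 h4
    rcases (by omega : a = 2 ∨ a = 3 ∨ a = 4) with rfl | rfl | rfl <;> simp
  · have pa := hp a (by simp)
    have pb := hp b (by simp)
    simp only [List.pairwise_cons, List.mem_singleton, forall_eq] at hd
    simp only [List.sum_cons, List.sum_nil, Nat.add_zero] at h2 h4
    have hab := hd.1
    rcases (by omega : (a = 1 ∧ b = 1) ∨ (a = 2 ∧ b = 1) ∨ (a = 3 ∧ b = 1) ∨ (a = 2 ∧ b = 2))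
      with ⟨rfl, rfl⟩ | ⟨rfl, rfl⟩ | ⟨rfl, rfl⟩ | ⟨rfl, rfl⟩ <;> simp
  · have pa := hp a (by simp)
    have pb := hp b (by simp)
    have pc := hp c (by simp)
    rw [List.pairwise_cons, List.pairwise_cons] at hd
    have hab := hd.1 b (by simp)
    have hbc := hd.2.1 c (by simp)
    simp only [List.sum_cons, List.sum_nil, Nat.add_zero] at h2 h4
    rcases (by omega : (a = 1 ∧ b = 1 ∧ c = 1) ∨ (a = 2 ∧ b = 1 ∧ c = 1))
      with ⟨rfl, rfl, rfl⟩ | ⟨rfl, rfl, rfl⟩ <;> simp
  · have pa := hp a (by simp)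
    have pb := hp b (by simp)
    have pc := hp c (by simp)
    have pd := hp d (by simp)
    simp only [List.sum_cons, List.sum_nil, Nat.add_zero] at h2 h4
    have : a = 1 ∧ b = 1 ∧ c = 1 ∧ d = 1 := by omega
    obtain ⟨rfl, rfl, rfl, rfl⟩ := this
    simp
  · exfalso
    have pa := hp a (by simp)
    have pb := hp b (by simp)
    have pc := hp c (by simp)
    have pd := hp d (by simp)
    have pe := hp e (by simp)
    simp only [List.sum_cons] at h4
    omega

/-- **a triple with three hits at a leaf of type (3;1)**: without hits of `U` there are at least five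
hits outside the triple, unless its three points have one hit each. -/
theorem Frm.gdb3 (h : Frm B Q T U F) (hv : ViolR B Q) (hL : L ∈ F) (hc3 : L.card = 3)
    (h1 : nt B L 1 = 1) (hdv : dv B Q L = -1) (hg : hit B U L = 0) {j : ι} (hj : j ∈ T)
    (h3 : hit B (B j ∩ Q) L = 3) (hrow : ∃ v ∈ B j ∩ Q, 2 ≤ (Ez B L v).card) :
    5 ≤ hit B ((Q \ L) \ B j) L := by
  classical
  by_contra hcon
  push Not at hcon
  obtain ⟨W, hW⟩ : ∃ W, W = hit B ((Q \ L) \ B j) L := ⟨_, rfl⟩
  rw [← hW] at hcon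
  have hW2 : 2 ≤ W := hW ▸ h.two_out hv hL hdv hj (by omega)
  obtain ⟨_, _, hP, _⟩ := h.leaf31 hv hL hc3 h1
  have hee : ee B Q L = 0 := by
    unfold dv at hdv
    omega
  have hjL : ¬ (B j ∩ L).Nonempty := by
    rintro ⟨v, hv'⟩
    obtain ⟨h7, h8⟩ := mem_inter.1 hv'
    exact (h.T_out hj (mem_inter.2 ⟨h7, h.FQ hL h8⟩)).2 L hL h8
  -- two triples
  have hA2 : ∀ j' ∈ T, j ≠ j' → hit B (B j' ∩ Q) L + 2 ≤ W := by
    intro j' hj' hne
    by_contra hc
    have e1 : W = hit B (B j' ∩ Q) L + hit B (Q \ (L ∪ ((B j ∩ Q) ∪ (B j' ∩ Q)))) L := by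
      rw [hW, hit_eq_Ez, hit_eq_Ez, hit_eq_Ez, ← sum_union]
      · refine sum_congr ?_ fun _ _ => rfl
        ext v
        have k1 : v ∈ B j' → v ∈ Q → v ∉ L ∧ v ∉ B j := fun a b =>
          ⟨fun c => disjoint_left.1 (h.disT hL hj') c (mem_inter.2 ⟨a, b⟩),
            fun c => disjoint_left.1 (h.mtp.tpk.pack.disj j hj j' hj' hne)
              (mem_inter.2 ⟨c, b⟩) (mem_inter.2 ⟨a, b⟩)⟩
        simp only [mem_union, mem_inter, mem_sdiff]
        tauto
      · rw [disjoint_left]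
        intro v a b
        exact (mem_sdiff.1 b).2 (mem_union_right _ (mem_union_right _ a))
    have e2 := h.few_neg hv hj hj' hne hL hdv (by omega)
    have e3 : hit B (B j ∩ Q) L ≤ hit B ((B j ∩ Q) ∪ (B j' ∩ Q)) L :=
      hit_mono_left _ subset_union_left
    omega
  obtain ⟨hT, hWl, ct, hl⟩ := exists_labels (h.full hj) hjL
  have hTs : hT = [3, 0, 0] ∨ hT = [2, 1, 0] := by
    have k1 := hl.lenT
    have k2 := hl.sumT
    have k3 := hl.desT
    obtain ⟨x, y, z, rfl⟩ := List.length_eq_three.1 k1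
    rw [List.pairwise_cons, List.pairwise_cons] at k3
    have h4 := k3.1 y List.mem_cons_self
    have h5 := k3.2.1 z List.mem_cons_self
    rw [h3] at k2
    simp only [List.sum_cons, List.sum_nil, Nat.add_zero] at k2
    obtain ⟨v, hv1, hv2⟩ := hrow
    obtain ⟨a, ha, rfl⟩ := (hl.trip v).1 hv1
    rw [hl.hits a (by omega), List.getD_append _ _ _ _ (by simpa using ha)] at hv2
    have h6 : x = 3 ∧ y = 0 ∧ z = 0 ∨ x = 2 ∧ y = 1 ∧ z = 0 ∨ x = 1 ∧ y = 1 ∧ z = 1 := by omega
    rcases h6 with ⟨rfl, rfl, rfl⟩ | ⟨rfl, rfl, rfl⟩ | ⟨rfl, rfl, rfl⟩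
    · exact Or.inl rfl
    · exact Or.inr rfl
    · exfalso
      rcases (by omega : a = 0 ∨ a = 1 ∨ a = 2) with rfl | rfl | rfl <;> simp at hv2
  obtain ⟨l, l1, l2, l3, l4, l5⟩ := h.exists_trips hL hg hj
  rw [← hW] at l5
  have l6 : ∀ x ∈ l.map (fun i => hit B (B i ∩ Q) L), 1 ≤ x ∧ x + 2 ≤ W := by
    intro x hx
    obtain ⟨i, hi, rfl⟩ := List.mem_map.1 hx
    refine ⟨l3 i hi, hA2 i (l1 i hi) ?_⟩
    rintro rfl
    exact (List.nodup_cons.1 l2).1 hi
  have hlist : ∀ m, m ≤ 4 → hWl = List.replicate m 1 → False := by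
    intro m hm hrep
    subst hrep
    have hm' : W = m := by
      have := hl.sumW
      rw [List.sum_replicate, smul_eq_mul, mul_one, ← hW] at this
      exact this.symm
    subst hm'
    rcases parts4 l4 (fun x hx => (l6 x hx).1) (by omega) (by omega) with
      e | e | e | e | e | e | e | e | e | e
    · rw [e] at l5 l6
      have := l6 2 (by simp)
      simp at l5
      omega
    · rw [e] at l5 l6
      have := l6 1 (by simp)
      simp at l5
      omega
    · rw [e] at l5 l6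
      have := l6 3 (by simp)
      simp at l5
      omega
    · rw [e] at l5 l6
      have := l6 2 (by simp)
      simp at l5
      omega
    · rw [e] at l5
      have hm3 : W = 3 := by simpa using l5.symm
      subst hm3
      rcases hTs with rfl | rfl
      · exact h.fiveL_no hv hL hc3 h1 hj l1 l2 hl e rfl (by decide)
          (noN_of 4 Gdx.V31_300_100_100_100.inst (by decide))
      · exact h.fiveL_no hv hL hc3 h1 hj l1 l2 hl e rfl (by decide)
          (noN_of 4 Gdx.V31_210_100_100_100.inst (by decide))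
    · rw [e] at l5 l6
      have := l6 4 (by simp)
      omega
    · rw [e] at l5 l6
      have := l6 3 (by simp)
      simp at l5
      omega
    · rw [e] at l5
      have hm3 : W = 4 := by simpa using l5.symm
      subst hm3
      rcases hTs with rfl | rfl
      · exact h.fiveL_no hv hL hc3 h1 hj l1 l2 hl e rfl (by decide)
          (noN_of 3 Gdx.V31_300_110_110.inst (by decide))
      · exact h.fiveL_no hv hL hc3 h1 hj l1 l2 hl e rfl (by decide)
          (noN_of 3 Gdx.V31_210_110_110.inst (by decide))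
    · rw [e] at l5
      have hm3 : W = 4 := by simpa using l5.symm
      subst hm3
      rcases hTs with rfl | rfl
      · exact h.fiveL_no hv hL hc3 h1 hj l1 l2 hl e rfl (by decide)
          (noN_of 4 Gdx.V31_300_110_100_100.inst (by decide))
      · exact h.fiveL_no hv hL hc3 h1 hj l1 l2 hl e rfl (by decide)
          (noN_of 4 Gdx.V31_210_110_100_100.inst (by decide))
    · rw [e] at l5
      have hm3 : W = 4 := by simpa using l5.symm
      subst hm3
      rcases hTs with rfl | rfl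
      · exact h.fiveL_no hv hL hc3 h1 hj l1 l2 hl e rfl (by decide)
          (noN_of 5 Gdx.V31_300_100_100_100_100.inst (by decide))
      · obtain ⟨a1, a2, _, ct', a3⟩ := h.fiveL hL hj l1 l2 hl
        have hlen' : l.length = 4 := by
          have := congrArg List.length e
          simpa using this
        have e1 : l.map (fun i => v1 (hit B (B i ∩ Q) L)) =
            [[1, 0, 0], [1, 0, 0], [1, 0, 0], [1, 0, 0]] := by
          have e2 : l.map (fun i => v1 (hit B (B i ∩ Q) L)) =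
            (l.map (fun i => hit B (B i ∩ Q) L)).map v1 := by
            rw [List.map_map]
            rfl
          rw [e2, e]
          rfl
        rw [e1, e, hlen'] at a3
        rw [hlen'] at a1 a2
        obtain ⟨bl, zt, hgx⟩ := h.exists_gxN31 hv hL hc3 h1 a1 a2 a3 (by decide)
        exact noN_210_1111 h hv hL hee a1 a2 a3 hgx
  have hsW := hl.sumW
  rw [← hW] at hsW
  rcases parts4 hl.desW hl.posW (by omega) (by omega) with
    e | e | e | e | e | e | e | e | e | e
  · -- one point with two hits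
    subst e
    have hm2 : W = 2 := by simpa using hsW.symm
    rcases l with _ | ⟨i, t⟩
    · simp at l5
      omega
    · have := l6 _ (List.mem_map.2 ⟨i, List.mem_cons_self, rfl⟩)
      omega
  · exact hlist 2 (by norm_num) e
  · subst e
    rcases hTs with rfl | rfl
    · exact h.lbl_no hv hL hc3 h1 hj hl (by decide) (noN_of 1 Gdx.V31_300_u3.inst (by decide))
    · exact h.lbl_no hv hL hc3 h1 hj hl (by decide) (noN_of 1 Gdx.V31_210_u3.inst (by decide))
  · subst e
    rcases hTs with rfl | rfl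
    · exact h.lbl_no hv hL hc3 h1 hj hl (by decide) (noN_of 1 Gdx.V31_300_u21.inst (by decide))
    · exact h.lbl_no hv hL hc3 h1 hj hl (by decide) (noN_of 1 Gdx.V31_210_u21.inst (by decide))
  · exact hlist 3 (by norm_num) e
  · subst e
    rcases hTs with rfl | rfl
    · exact h.lbl_no hv hL hc3 h1 hj hl (by decide) (noN_of 1 Gdx.V31_300_u4.inst (by decide))
    · exact h.lbl_no hv hL hc3 h1 hj hl (by decide) (noN_of 1 Gdx.V31_210_u4.inst (by decide))
  · subst e
    rcases hTs with rfl | rfl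
    · exact h.lbl_no hv hL hc3 h1 hj hl (by decide) (noN_of 1 Gdx.V31_300_u31.inst (by decide))
    · exact h.lbl_no hv hL hc3 h1 hj hl (by decide) (noN_of 1 Gdx.V31_210_u31.inst (by decide))
  · subst e
    rcases hTs with rfl | rfl
    · exact h.lbl_no hv hL hc3 h1 hj hl (by decide) (noN_of 1 Gdx.V31_300_u22.inst (by decide))
    · exact h.lbl_no hv hL hc3 h1 hj hl (by decide) (noN_of 1 Gdx.V31_210_u22.inst (by decide))
  · subst e
    rcases hTs with rfl | rfl
    · exact h.lbl_no hv hL hc3 h1 hj hl (by decide) (noN_of 1 Gdx.V31_300_u211.inst (by decide))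
    · exact h.lbl_no hv hL hc3 h1 hj hl (by decide) (noN_of 1 Gdx.V31_210_u211.inst (by decide))
  · exact hlist 4 (by norm_num) e

end

end Pool.Agent.Hyp6
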