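import Pool.Agent.Hyp6.Gdw3

/-!
# HYP6 GDG: labels in groups

The contact points of a set `Z` with the triples which contain them. A triple is coded by a number with
three decreasing digits, the numbers of hits of its points. `exists_labelsG`: labels with all three
points of every triple which meets the contact points, the triple `j` first, then the other triples,
then the contact points outside the triples. `Lbg.gx`: the context of the tables.
-/

set_option autoImplicit false

namespace Pool.Agent.Hyp6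

open Finset Pool.Agent.Hyp5 Gdx Rup

universe u v

variable {V : Type v} [DecidableEq V] {ι : Type u} [Fintype ι] {B : ι → Finset V}

/-- the digits of a code. -/
def dig (c : ℕ) : List ℕ := [c / 100, c / 10 % 10, c % 10]

/-- the vector of the numbers of hits. -/
def vcg (l us : List ℕ) : List ℕ := l.flatMap dig ++ us

theorem dig_flat_len : ∀ l : List ℕ, (l.flatMap dig).length = 3 * l.length
  | [] => rfl
  | c :: l => by
    rw [List.flatMap_cons, List.length_append, dig_flat_len l, List.length_cons]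
    have : (dig c).length = 3 := rfl
    omega

theorem vcg_group : ∀ (l us : List ℕ) (k t : ℕ), k < l.length → t < 3 →
    (vcg l us).getD (3 * k + t) 0 = (dig (l.getD k 0)).getD t 0
  | [], _, k, _, hk, _ => absurd hk (by simp)
  | c :: l, us, 0, t, _, ht => by
    have h1 : vcg (c :: l) us = dig c ++ vcg l us := by
      unfold vcg
      rw [List.flatMap_cons, List.append_assoc]
    have h3 : (dig c).length = 3 := rfl
    rw [h1, show 3 * 0 + t = t by omega, List.getD_append _ _ _ _ (by rw [h3]; exact ht)]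
    rfl
  | c :: l, us, k + 1, t, hk, ht => by
    have h1 : vcg (c :: l) us = dig c ++ vcg l us := by
      unfold vcg
      rw [List.flatMap_cons, List.append_assoc]
    have h3 : (dig c).length = 3 := rfl
    rw [h1, List.getD_append_right _ _ _ _ (by rw [h3]; omega), h3,
      show 3 * (k + 1) + t - 3 = 3 * k + t by omega,
      vcg_group l us k t (by rw [List.length_cons] at hk; omega) ht]
    rfl

theorem vcg_u (l us : List ℕ) (a : ℕ) : (vcg l us).getD (3 * l.length + a) 0 = us.getD a 0 := by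
  unfold vcg
  rw [List.getD_append_right _ _ _ _ (by rw [dig_flat_len]; omega), dig_flat_len,
    show 3 * l.length + a - 3 * l.length = a by omega]

/-- the labels in groups: `l` the codes of the triples, `us` the hits of the other contact points. -/
structure Lbg (B : ι → Finset V) (Q Z : Finset V) (T : Finset ι) (U : Finset V) (j : ι)
    (l us : List ℕ) (ct : ℕ → V) (tb : ℕ → ι) : Prop where
  lpos : 0 < l.length
  desG : l.tail.Pairwise (fun a b => b ≤ a)
  digs : ∀ k < l.length, (dig (l.getD k 0)).Pairwise (fun a b => b ≤ a)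
  dig4 : ∀ k < l.length, l.getD k 0 < 500
  posG : ∀ k < l.length, 0 < k → 0 < l.getD k 0
  desU : us.Pairwise (fun a b => b ≤ a)
  posU : ∀ x ∈ us, 1 ≤ x
  memQ : ∀ a < 3 * l.length + us.length, ct a ∈ Q ∧ ct a ∉ Z
  inj : ∀ a < 3 * l.length + us.length, ∀ a' < 3 * l.length + us.length, ct a = ct a' → a = a'
  trip : ∀ k < l.length, ∀ v, v ∈ B (tb k) ∩ Q ↔ ∃ t < 3, ct (3 * k + t) = v
  tb0 : tb 0 = j
  tbT : ∀ k < l.length, tb k ∈ T
  tbinj : ∀ k < l.length, ∀ k' < l.length, tb k = tb k' → k = k'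
  allT : ∀ i ∈ T, 0 < hit B (B i ∩ Q) Z → ∃ k < l.length, tb k = i
  inU : ∀ a < us.length, ct (3 * l.length + a) ∈ U
  all : ∀ v ∈ Q, v ∉ Z → (Ez B Z v).Nonempty → ∃ a < 3 * l.length + us.length, ct a = v
  hits : ∀ a < 3 * l.length + us.length, (Ez B Z (ct a)).card = (vcg l us).getD a 0
  sumG : ∀ k < l.length, (dig (l.getD k 0)).sum = hit B (B (tb k) ∩ Q) Z
  sumU : us.sum = hit B U Z

/-- **the labels in groups exist**. -/
theorem exists_labelsG {Q Z U : Finset V} {T : Finset ι} {j : ι} (hr : Reg B Q) (hj : j ∈ T)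
    (hT3 : ∀ i ∈ T, (B i ∩ Q).card = 3) (hTZ : ∀ i ∈ T, ¬ (B i ∩ Z).Nonempty)
    (hTd : ∀ i ∈ T, ∀ i' ∈ T, i ≠ i' → Disjoint (B i ∩ Q) (B i' ∩ Q))
    (hUQ : U ⊆ Q) (hUZ : Disjoint U Z) (hUT : ∀ i ∈ T, Disjoint (B i ∩ Q) U)
    (hcov : ∀ v ∈ Q, v ∉ Z → (Ez B Z v).Nonempty → v ∈ U ∨ ∃ i ∈ T, v ∈ B i) :
    ∃ l us ct tb, Lbg B Q Z T U j l us ct tb := by
  classical
  have hne : (B j ∩ Q).Nonempty := card_pos.1 (by rw [hT3 j hj]; norm_num)
  obtain ⟨v0, _⟩ := hne
  have : Inhabited V := ⟨v0⟩
  have : Inhabited ι := ⟨j⟩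
  set f : V → ℕ := fun v => (Ez B Z v).card with hf
  -- one triple
  have h4 : ∀ i ∈ T, ∀ x ∈ B i ∩ Q, f x ≤ 4 := by
    intro i hi x hx
    obtain ⟨hxj, hxQ⟩ := mem_inter.1 hx
    have h1 : (univ.filter (fun i => x ∈ B i)).card = 5 := hr x hxQ
    have h2 : Ez B Z x ⊆ (univ.filter (fun i => x ∈ B i)).erase i := by
      intro k hk
      obtain ⟨h3, h6⟩ := mem_Ez.1 hk
      refine mem_erase.2 ⟨?_, mem_filter.2 ⟨mem_univ _, h3⟩⟩
      rintro rfl
      exact hTZ k hi h6
    have hjm : i ∈ univ.filter (fun i => x ∈ B i) := mem_filter.2 ⟨mem_univ _, hxj⟩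
    have h3 := card_le_card h2
    rw [card_erase_of_mem hjm, h1] at h3
    exact h3
  have hone : ∀ i ∈ T, ∃ e : ℕ → V, (∀ t < 3, e t ∈ B i ∩ Q) ∧
      (∀ t < 3, ∀ t' < 3, e t = e t' → t = t') ∧ (∀ v ∈ B i ∩ Q, ∃ t < 3, e t = v) ∧
      f (e 1) ≤ f (e 0) ∧ f (e 2) ≤ f (e 1) := by
    intro i hi
    obtain ⟨lT, pT, dT⟩ := exists_desc ((B i ∩ Q).toList.map f)
    have lenT : lT.length = 3 := by
      rw [← pT.length_eq, List.length_map, Finset.length_toList, hT3 i hi]
    obtain ⟨e, a1, a2, a3, a4⟩ := exists_enum (B i ∩ Q) f pT 0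
    rw [lenT] at a1 a2 a3 a4
    refine ⟨e, a1, a2, a4, ?_, ?_⟩
    · rw [a3 0 (by norm_num), a3 1 (by norm_num), List.getD_eq_getElem _ _ (by omega),
        List.getD_eq_getElem _ _ (by omega)]
      exact List.pairwise_iff_getElem.1 dT 0 1 (by omega) (by omega) (by norm_num)
    · rw [a3 1 (by norm_num), a3 2 (by norm_num), List.getD_eq_getElem _ _ (by omega),
        List.getD_eq_getElem _ _ (by omega)]
      exact List.pairwise_iff_getElem.1 dT 1 2 (by omega) (by omega) (by norm_num)
  choose! e e1 e2 e3 e4 e5 using hone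
  set code : ι → ℕ := fun i => 100 * f (e i 0) + 10 * f (e i 1) + f (e i 2) with hcode
  have hdig : ∀ i ∈ T, dig (code i) = [f (e i 0), f (e i 1), f (e i 2)] := by
    intro i hi
    have k0 := h4 i hi _ (e1 i hi 0 (by norm_num))
    have k1 := h4 i hi _ (e1 i hi 1 (by norm_num))
    have k2 := h4 i hi _ (e1 i hi 2 (by norm_num))
    unfold dig
    simp only [hcode]
    rw [show (100 * f (e i 0) + 10 * f (e i 1) + f (e i 2)) / 100 = f (e i 0) by omega,
      show (100 * f (e i 0) + 10 * f (e i 1) + f (e i 2)) / 10 % 10 = f (e i 1) by omega,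
      show (100 * f (e i 0) + 10 * f (e i 1) + f (e i 2)) % 10 = f (e i 2) by omega]
  have hset : ∀ i ∈ T, B i ∩ Q = {e i 0, e i 1, e i 2} := by
    intro i hi
    ext v
    simp only [mem_insert, mem_singleton]
    constructor
    · intro hv
      obtain ⟨t, ht, rfl⟩ := e3 i hi v hv
      have h3 : t = 0 ∨ t = 1 ∨ t = 2 := by omega
      rcases h3 with rfl | rfl | rfl <;> tauto
    · rintro (rfl | rfl | rfl)
      · exact e1 i hi 0 (by norm_num)
      · exact e1 i hi 1 (by norm_num)
      · exact e1 i hi 2 (by norm_num)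
  have hhit : ∀ i ∈ T, (dig (code i)).sum = hit B (B i ∩ Q) Z := by
    intro i hi
    have n01 : e i 0 ≠ e i 1 := fun h1 => by
      have := e2 i hi 0 (by norm_num) 1 (by norm_num) h1
      omega
    have n02 : e i 0 ≠ e i 2 := fun h1 => by
      have := e2 i hi 0 (by norm_num) 2 (by norm_num) h1
      omega
    have n12 : e i 1 ≠ e i 2 := fun h1 => by
      have := e2 i hi 1 (by norm_num) 2 (by norm_num) h1
      omega
    rw [hdig i hi, hit_eq_Ez]
    have h5 : ∑ v ∈ B i ∩ Q, (Ez B Z v).card = f (e i 0) + (f (e i 1) + f (e i 2)) := by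
      rw [hset i hi, sum_insert (by simp [n01, n02]), sum_insert (by simp [n12]), sum_singleton]
    rw [h5]
    simp
  -- the other triples
  set G := (T.erase j).filter (fun i => 0 < code i) with hG
  obtain ⟨lG, pG, dG⟩ := exists_desc (G.toList.map code)
  obtain ⟨eg, g1, g2, g3, g4⟩ := exists_enum G code pG 0
  -- the points of U
  set W := U.filter (fun v => (Ez B Z v).Nonempty) with hW
  obtain ⟨lU, pU, dU⟩ := exists_desc (W.toList.map f)
  obtain ⟨eu, u1, u2, u3, u4⟩ := exists_enum W f pU 0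
  set tb : ℕ → ι := fun k => if k = 0 then j else eg (k - 1) with htb
  set l : List ℕ := code j :: lG with hl
  have hlen : l.length = lG.length + 1 := by rw [hl, List.length_cons]
  set ct : ℕ → V := fun a => if a < 3 * l.length then e (tb (a / 3)) (a % 3) else
    eu (a - 3 * l.length) with hct
  have hGT : ∀ k < lG.length, eg k ∈ T ∧ eg k ≠ j ∧ 0 < code (eg k) := by
    intro k hk
    obtain ⟨h1, h2⟩ := mem_filter.1 (g1 k hk)
    obtain ⟨h3, h4'⟩ := mem_erase.1 h1
    exact ⟨h4', h3, h2⟩
  have htbT : ∀ k < l.length, tb k ∈ T := by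
    intro k hk
    rw [htb]
    simp only
    split_ifs with h1
    · exact hj
    · exact (hGT (k - 1) (by omega)).1
  have htbinj : ∀ k < l.length, ∀ k' < l.length, tb k = tb k' → k = k' := by
    intro k hk k' hk' he
    rw [htb] at he
    simp only at he
    split_ifs at he with h1 h2 h2
    · omega
    · exact absurd he.symm (hGT (k' - 1) (by omega)).2.1
    · exact absurd he (hGT (k - 1) (by omega)).2.1
    · have := g2 (k - 1) (by omega) (k' - 1) (by omega) he
      omega
  have hlcode : ∀ k < l.length, l.getD k 0 = code (tb k) := by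
    intro k hk
    rcases k with _ | k
    · rfl
    · have h1 : tb (k + 1) = eg k := by
        rw [htb]
        simp
      rw [h1, g3 k (by omega), hl]
      rfl
  have hctg : ∀ k < l.length, ∀ t < 3, ct (3 * k + t) = e (tb k) t := by
    intro k hk t ht
    rw [hct]
    simp only
    rw [if_pos (by omega), show (3 * k + t) / 3 = k by omega, show (3 * k + t) % 3 = t by omega]
  have hctu : ∀ a, ct (3 * l.length + a) = eu a := by
    intro a
    rw [hct]
    simp only
    rw [if_neg (by omega), show 3 * l.length + a - 3 * l.length = a by omega]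
  have hsplit : ∀ a < 3 * l.length + lU.length,
      (∃ k < l.length, ∃ t < 3, a = 3 * k + t) ∨ ∃ b < lU.length, a = 3 * l.length + b := by
    intro a ha
    rcases Nat.lt_or_ge a (3 * l.length) with h1 | h1
    · exact Or.inl ⟨a / 3, by omega, a % 3, by omega, by omega⟩
    · exact Or.inr ⟨a - 3 * l.length, by omega, by omega⟩
  have hTmem : ∀ k < l.length, ∀ t < 3, ct (3 * k + t) ∈ B (tb k) ∩ Q := by
    intro k hk t ht
    rw [hctg k hk t ht]
    exact e1 _ (htbT k hk) t ht
  have hUm : ∀ a < lU.length, ct (3 * l.length + a) ∈ U ∧ (Ez B Z (ct (3 * l.length + a))).Nonempty := by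
    intro a ha
    rw [hctu]
    exact ⟨(mem_filter.1 (u1 a ha)).1, (mem_filter.1 (u1 a ha)).2⟩
  refine ⟨l, lU, ct, tb, ?_⟩
  refine ⟨by omega, ?_, ?_, ?_, ?_, dU, ?_, ?_, ?_, ?_, ?_, htbT, htbinj, ?_, ?_, ?_, ?_, ?_, ?_⟩
  · rw [hl, List.tail_cons]
    exact dG
  · intro k hk
    rw [hlcode k hk, hdig _ (htbT k hk)]
    simp only [List.pairwise_cons, List.mem_cons, List.not_mem_nil, or_false, forall_eq_or_imp,
      forall_eq, List.Pairwise.nil, and_true, IsEmpty.forall_iff, implies_true]
    have k1 := e4 _ (htbT k hk)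
    have k2 := e5 _ (htbT k hk)
    exact ⟨⟨k1, k2.trans k1⟩, k2⟩
  · intro k hk
    rw [hlcode k hk, hcode]
    simp only
    have k0 := h4 _ (htbT k hk) _ (e1 _ (htbT k hk) 0 (by norm_num))
    have k1 := h4 _ (htbT k hk) _ (e1 _ (htbT k hk) 1 (by norm_num))
    have k2 := h4 _ (htbT k hk) _ (e1 _ (htbT k hk) 2 (by norm_num))
    omega
  · intro k hk hk0
    rw [hlcode k hk]
    have h1 : tb k = eg (k - 1) := by
      rw [htb]
      simp only
      rw [if_neg (by omega)]
    rw [h1]
    exact (hGT (k - 1) (by omega)).2.2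
  · intro x hx
    obtain ⟨v, hv, rfl⟩ := List.mem_map.1 (pU.mem_iff.2 hx)
    exact card_pos.2 (mem_filter.1 (Finset.mem_toList.1 hv)).2
  · intro a ha
    rcases hsplit a ha with ⟨k, hk, t, ht, rfl⟩ | ⟨b, hb, rfl⟩
    · obtain ⟨h1, h2⟩ := mem_inter.1 (hTmem k hk t ht)
      exact ⟨h2, fun h3 => hTZ _ (htbT k hk) ⟨_, mem_inter.2 ⟨h1, h3⟩⟩⟩
    · have h1 := (hUm b hb).1
      exact ⟨hUQ h1, fun h3 => disjoint_left.1 hUZ h1 h3⟩
  · intro a ha a' ha' he
    rcases hsplit a ha with ⟨k, hk, t, ht, rfl⟩ | ⟨b, hb, rfl⟩ <;>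
      rcases hsplit a' ha' with ⟨k', hk', t', ht', rfl⟩ | ⟨b', hb', rfl⟩
    · have h1 := hTmem k hk t ht
      have h2 := hTmem k' hk' t' ht'
      by_cases h3 : k = k'
      · subst h3
        rw [hctg k hk t ht, hctg k hk t' ht'] at he
        have := e2 _ (htbT k hk) t ht t' ht' he
        omega
      · exfalso
        have h5 : tb k ≠ tb k' := fun h6 => h3 (htbinj k hk k' hk' h6)
        rw [he] at h1
        exact disjoint_left.1 (hTd _ (htbT k hk) _ (htbT k' hk') h5) h1 h2
    · exfalso
      have h1 := hTmem k hk t ht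
      rw [he] at h1
      exact disjoint_left.1 (hUT _ (htbT k hk)) h1 (hUm b' hb').1
    · exfalso
      have h1 := hTmem k' hk' t' ht'
      rw [← he] at h1
      exact disjoint_left.1 (hUT _ (htbT k' hk')) h1 (hUm b hb).1
    · rw [hctu, hctu] at he
      have := u2 b hb b' hb' he
      omega
  · intro k hk v
    constructor
    · intro hv
      obtain ⟨t, ht, h1⟩ := e3 _ (htbT k hk) v hv
      exact ⟨t, ht, by rw [hctg k hk t ht]; exact h1⟩
    · rintro ⟨t, ht, rfl⟩
      exact hTmem k hk t ht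
  · rw [htb]
    simp
  · intro i hi hpos
    by_cases hij : i = j
    · refine ⟨0, by omega, ?_⟩
      rw [htb, hij]
      simp
    · have h1 : i ∈ G := by
        refine mem_filter.2 ⟨mem_erase.2 ⟨hij, hi⟩, ?_⟩
        by_contra h2
        have h3 : code i = 0 := by omega
        have h5 := hhit i hi
        rw [h3] at h5
        have h6 : (dig 0).sum = 0 := rfl
        omega
      obtain ⟨k, hk, h2⟩ := g4 i h1
      refine ⟨k + 1, by omega, ?_⟩
      rw [htb]
      simpa using h2
  · intro a ha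
    exact (hUm a ha).1
  · intro v hvQ hvZ hvE
    rcases hcov v hvQ hvZ hvE with h1 | ⟨i, hi, h1⟩
    · obtain ⟨a, ha, h2⟩ := u4 v (mem_filter.2 ⟨h1, hvE⟩)
      exact ⟨3 * l.length + a, by omega, by rw [hctu]; exact h2⟩
    · have hvi : v ∈ B i ∩ Q := mem_inter.2 ⟨h1, hvQ⟩
      have hk : ∃ k < l.length, tb k = i := by
        by_cases hij : i = j
        · refine ⟨0, by omega, ?_⟩
          rw [htb, hij]
          simp
        · have h2 : i ∈ G := by
            refine mem_filter.2 ⟨mem_erase.2 ⟨hij, hi⟩, ?_⟩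
            obtain ⟨t, ht, h3⟩ := e3 i hi v hvi
            have h5 : 0 < f (e i t) := by
              rw [h3]
              exact card_pos.2 hvE
            have h6 : t = 0 ∨ t = 1 ∨ t = 2 := by omega
            rw [hcode]
            simp only
            rcases h6 with rfl | rfl | rfl <;> omega
          obtain ⟨k, hk, h3⟩ := g4 i h2
          refine ⟨k + 1, by omega, ?_⟩
          rw [htb]
          simpa using h3
      obtain ⟨k, hk, hki⟩ := hk
      rw [← hki] at hvi
      obtain ⟨t, ht, h2⟩ := e3 _ (htbT k hk) v hvi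
      exact ⟨3 * k + t, by omega, by rw [hctg k hk t ht]; exact h2⟩
  · intro a ha
    rcases hsplit a ha with ⟨k, hk, t, ht, rfl⟩ | ⟨b, hb, rfl⟩
    · rw [vcg_group l lU k t hk ht, hlcode k hk, hdig _ (htbT k hk), hctg k hk t ht]
      have h6 : t = 0 ∨ t = 1 ∨ t = 2 := by omega
      rcases h6 with rfl | rfl | rfl <;> rfl
    · rw [vcg_u, hctu]
      exact u3 b hb
  · intro k hk
    rw [hlcode k hk]
    exact hhit _ (htbT k hk)
  · rw [← pU.sum_eq, Finset.sum_map_toList, hit_eq_Ez, hW, sum_filter]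
    refine sum_congr rfl fun v _ => ?_
    split_ifs with h1
    · rfl
    · rw [not_nonempty_iff_eq_empty] at h1
      show 0 = (Ez B Z v).card
      rw [h1, card_empty]

end Pool.Agent.Hyp6
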