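import Pool.Agent.Hyp6.Gdg

/-!
# HYP6 GDH: the context of the tables from labels in groups

`Lbg.gx`: the context; `Lbg.given`: no triple is absorbed, and the conditions `S1`, for every triple;
`Lbg.no`: a checked instance does not occur; `Frm.exists_lbg`: the labels of a leaf.
-/

set_option autoImplicit false

namespace Pool.Agent.Hyp6

open Finset Pool.Agent.Hyp5 Gdx Rup

universe u v

variable {V : Type v} [DecidableEq V] {ι : Type u} [Fintype ι] {B : ι → Finset V}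

/-- the instance with the block list `zm`, the triples `l` and the other contact points `us`. -/
def Pgg (zn r d0 pz : ℕ) (zm l us : List ℕ) : Gp :=
  ⟨zm.length, 3 * l.length + us.length, zn, r, d0, pz, zm, vcg l us, vcg l us,
    (List.range l.length).map (fun k => 7 * 8 ^ k)⟩

theorem vcg_len (l us : List ℕ) : (vcg l us).length = 3 * l.length + us.length := by
  unfold vcg
  rw [List.length_append, dig_flat_len]

theorem testBit_7 {k a : ℕ} : (7 * 8 ^ k).testBit a = true ↔ 3 * k ≤ a ∧ a < 3 * k + 3 := by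
  have h1 : 7 * 8 ^ k = 2 ^ (3 * k) * 7 := by
    rw [pow_mul, show (2 : ℕ) ^ 3 = 8 by norm_num]
    ring
  rw [h1, Nat.testBit_two_pow_mul, Bool.and_eq_true, decide_eq_true_eq]
  constructor
  · rintro ⟨h2, h3⟩
    refine ⟨h2, ?_⟩
    by_contra h4
    have h5 : (7 : ℕ).testBit (a - 3 * k) = false := Nat.testBit_lt_two_pow (lt_of_lt_of_le
      (by norm_num : (7 : ℕ) < 2 ^ 3) (Nat.pow_le_pow_right (by norm_num) (by omega)))
    rw [h5] at h3
    exact absurd h3 (by simp)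
  · rintro ⟨h2, h3⟩
    refine ⟨h2, ?_⟩
    have h4 : a - 3 * k = 0 ∨ a - 3 * k = 1 ∨ a - 3 * k = 2 := by omega
    rcases h4 with h4 | h4 | h4 <;> rw [h4] <;> decide

theorem testBit_7e {k a t : ℕ} (ht : t < 3) :
    ((7 - 2 ^ t) * 8 ^ k).testBit a = true ↔ (3 * k ≤ a ∧ a < 3 * k + 3) ∧ a ≠ 3 * k + t := by
  have h1 : (7 - 2 ^ t) * 8 ^ k = 2 ^ (3 * k) * (7 - 2 ^ t) := by
    rw [pow_mul, show (2 : ℕ) ^ 3 = 8 by norm_num]
    ring
  rw [h1, Nat.testBit_two_pow_mul, Bool.and_eq_true, decide_eq_true_eq]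
  have h3t : t = 0 ∨ t = 1 ∨ t = 2 := by omega
  constructor
  · rintro ⟨h2, h3⟩
    have h6 : a < 3 * k + 3 := by
      by_contra h4
      have h5 : (7 - 2 ^ t : ℕ).testBit (a - 3 * k) = false := Nat.testBit_lt_two_pow
        (lt_of_lt_of_le (lt_of_le_of_lt (Nat.sub_le 7 _) (by norm_num : (7 : ℕ) < 2 ^ 3))
          (Nat.pow_le_pow_right (by norm_num) (by omega)))
      rw [h5] at h3
      exact absurd h3 (by simp)
    refine ⟨⟨h2, h6⟩, ?_⟩
    rintro rfl
    rw [show 3 * k + t - 3 * k = t by omega] at h3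
    rcases h3t with rfl | rfl | rfl <;> revert h3 <;> decide
  · rintro ⟨⟨h2, h3⟩, hne⟩
    refine ⟨h2, ?_⟩
    have h4 : a - 3 * k = 0 ∨ a - 3 * k = 1 ∨ a - 3 * k = 2 := by omega
    rcases h4 with h4 | h4 | h4 <;> rcases h3t with rfl | rfl | rfl <;> rw [h4] <;>
      first
      | (exfalso; omega)
      | decide

variable {Q Z U : Finset V} {T : Finset ι} {j : ι} {l us : List ℕ} {ct : ℕ → V} {tb : ℕ → ι}

theorem Lbg.ptm_grp (h : Lbg B Q Z T U j l us ct tb) {k : ℕ} (hk : k < l.length) :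
    ptm ct (3 * l.length + us.length) (7 * 8 ^ k) = B (tb k) ∩ Q := by
  ext v
  rw [h.trip k hk, mem_ptm]
  constructor
  · rintro ⟨a, _, h1, rfl⟩
    rw [testBit_7] at h1
    exact ⟨a - 3 * k, by omega, by rw [show 3 * k + (a - 3 * k) = a by omega]⟩
  · rintro ⟨t, ht, rfl⟩
    exact ⟨3 * k + t, by omega, testBit_7.2 ⟨by omega, by omega⟩, rfl⟩

theorem Lbg.ptm_pair (h : Lbg B Q Z T U j l us ct tb) {k t : ℕ} (hk : k < l.length) (ht : t < 3) :
    ptm ct (3 * l.length + us.length) ((7 - 2 ^ t) * 8 ^ k) =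
      (B (tb k) ∩ Q).erase (ct (3 * k + t)) := by
  ext v
  rw [mem_ptm, mem_erase, h.trip k hk]
  constructor
  · rintro ⟨a, ha, h1, rfl⟩
    rw [testBit_7e ht] at h1
    refine ⟨fun h2 => h1.2 (h.inj a ha (3 * k + t) (by omega) h2), a - 3 * k, by omega, ?_⟩
    rw [show 3 * k + (a - 3 * k) = a by omega]
  · rintro ⟨h1, s, hs, rfl⟩
    refine ⟨3 * k + s, by omega, (testBit_7e ht).2 ⟨⟨by omega, by omega⟩, ?_⟩, rfl⟩
    intro h2
    exact h1 (by rw [h2])

/-- **the context from the labels in groups**. -/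
theorem Lbg.gx {zn r d0 pz : ℕ} {zm : List ℕ} {bl : ℕ → ι} {zt : ℕ → V}
    (h : Lbg B Q Z T U j l us ct tb) (hb : Blk B Z zn zm bl zt) (hv : ViolR B Q) (hZQ : Z ⊆ Q)
    (hZne : Z.Nonempty) (hT3 : ∀ i ∈ T, (B i ∩ Q).card = 3)
    (hM : 3 * l.length + us.length ≤ 32) (hr : rho B Z = r)
    (hd : (d0 : ℤ) ≤ dv B Q Z + 10) (hp : (pz : ℤ) = Pv B Z + 10) :
    Gdx.Gx B Q Z (Pgg zn r d0 pz zm l us) bl ct zt tb := by
  classical
  have htm : (Pgg zn r d0 pz zm l us).tm.length = l.length := by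
    show ((List.range l.length).map (fun k => 7 * 8 ^ k)).length = l.length
    rw [List.length_map, List.length_range]
  have ht : ∀ k < l.length, (Pgg zn r d0 pz zm l us).t k = 7 * 8 ^ k := by
    intro k hk
    show ((List.range l.length).map (fun k => 7 * 8 ^ k)).getD k 0 = 7 * 8 ^ k
    rw [List.getD_eq_getElem _ _ (by rw [List.length_map, List.length_range]; exact hk),
      List.getElem_map, List.getElem_range]
  refine ⟨hv, hM, hZQ, hZne, hb.inj, fun i => ⟨hb.all i, ?_⟩, fun z hz => (hb.mem _).2 ⟨z, hz, rfl⟩,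
    hb.injz, fun v hv' => (hb.mem v).1 hv', fun b hb' z hz => (hb.tr b hb' z hz).symm, h.inj,
    fun a ha => (h.memQ a ha).1, fun a ha => (h.memQ a ha).2, fun b hb' v hvb hvQ => ?_,
    fun a ha => ?_, fun a ha => ?_, fun k hk => ?_, fun k hk => ?_, fun k hk k' hk' he => ?_,
    hr, hd, hp⟩
  · rintro ⟨b, hb', rfl⟩
    exact hb.touch b hb'
  · by_cases hvZ : v ∈ Z
    · exact Or.inl hvZ
    · exact Or.inr (h.all v hvQ hvZ ⟨bl b, mem_Ez.2 ⟨hvb, hb.touch b hb'⟩⟩)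
  · show (vcg l us).getD a 0 ≤ hts B zm.length bl (ct a)
    rw [hb.hts_eq, h.hits a ha]
  · show hts B zm.length bl (ct a) ≤ (vcg l us).getD a 0
    rw [hb.hts_eq, h.hits a ha]
  · rw [htm] at hk
    rw [ht k hk]
    exact (h.ptm_grp hk).symm
  · rw [htm] at hk
    exact hT3 _ (h.tbT k hk)
  · rw [htm] at hk hk'
    exact h.tbinj k hk k' hk' he

theorem sum_getD : ∀ l : List ℕ, ∑ a ∈ range l.length, l.getD a 0 = l.sum
  | [] => by simp
  | c :: l => by
    rw [List.length_cons, sum_range_succ', List.sum_cons, ← sum_getD l]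
    have h1 : ∀ a, (c :: l).getD (a + 1) 0 = l.getD a 0 := fun a => rfl
    have h2 : (c :: l).getD 0 0 = c := rfl
    simp only [h1, h2]
    ring

/-- the total number of hits. -/
theorem Lbg.sum_all (h : Lbg B Q Z T U j l us ct tb) : (vcg l us).sum = hit B (Q \ Z) Z := by
  classical
  rw [← sum_getD, vcg_len, hit_eq_Ez]
  have h1 : (range (3 * l.length + us.length)).image ct ⊆ Q \ Z := by
    intro v hv
    obtain ⟨a, ha, rfl⟩ := mem_image.1 hv
    exact mem_sdiff.2 (h.memQ a (mem_range.1 ha))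
  rw [← sum_subset h1 (fun v hv hv' => ?_), sum_image]
  · refine sum_congr rfl fun a ha => ?_
    exact (h.hits a (mem_range.1 ha)).symm
  · intro a ha b hb hab
    exact h.inj a (mem_range.1 (mem_coe.1 ha)) b (mem_range.1 (mem_coe.1 hb)) hab
  · rw [card_eq_zero]
    by_contra hne
    obtain ⟨hvQ, hvZ⟩ := mem_sdiff.1 hv
    obtain ⟨a, ha, rfl⟩ := h.all v hvQ hvZ (nonempty_iff_ne_empty.2 hne)
    exact hv' (mem_image.2 ⟨a, mem_range.2 ha, rfl⟩)

/-- the hits outside of one triple. -/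
theorem Lbg.sum_out (h : Lbg B Q Z T U j l us ct tb) (hTZ : ∀ i ∈ T, ¬ (B i ∩ Z).Nonempty) {k : ℕ}
    (hk : k < l.length) :
    (vcg l us).sum = (dig (l.getD k 0)).sum + hit B ((Q \ (B (tb k) ∩ Q)) \ Z) Z := by
  classical
  rw [h.sum_all, h.sumG k hk, hit_eq_Ez, hit_eq_Ez, hit_eq_Ez, ← sum_union]
  · refine sum_congr ?_ fun _ _ => rfl
    ext v
    simp only [mem_union, mem_inter, mem_sdiff]
    constructor
    · rintro ⟨h1, h2⟩
      by_cases h3 : v ∈ B (tb k)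
      · exact Or.inl ⟨h3, h1⟩
      · exact Or.inr ⟨⟨h1, fun h4 => h3 h4.1⟩, h2⟩
    · rintro (⟨h1, h2⟩ | ⟨⟨h1, h2⟩, h3⟩)
      · exact ⟨h2, fun h3 => hTZ _ (h.tbT k hk) ⟨v, mem_inter.2 ⟨h1, h3⟩⟩⟩
      · exact ⟨h1, h3⟩
  · rw [disjoint_left]
    intro v h1 h2
    exact (mem_sdiff.1 (mem_sdiff.1 h2).1).2 h1

/-- the test of the condition `S1` for the point `t` of the triple `k`. -/
def s1tg (d0 : ℕ) (l us : List ℕ) (k t : ℕ) : Bool :=
  decide (max ((dig (l.getD k 0)).getD t 0 + 1) ((vcg l us).sum - (dig (l.getD k 0)).sum) ≤ 5) &&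
    decide (4 * max ((dig (l.getD k 0)).getD t 0 + 1) ((vcg l us).sum - (dig (l.getD k 0)).sum) <
      d0 + 5 + (if ((vcg l us).sum - (dig (l.getD k 0)).sum) + 2 ≤
        max ((dig (l.getD k 0)).getD t 0 + 1) ((vcg l us).sum - (dig (l.getD k 0)).sum)
        then 2 else 0))

/-- the test of a given clause. -/
def okgg (d0 : ℕ) (l us : List ℕ) (c : List ℕ) : Bool :=
  (List.range l.length).any (fun k => decide (c = [ng (vA (7 * 8 ^ k))]) ||
    (List.range 3).any (fun t => decide (c = [ng (vA ((7 - 2 ^ t) * 8 ^ k))]) && s1tg d0 l us k t))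

/-- **the given clauses hold**. -/
theorem Lbg.given [DecidableEq ι] {L : Finset V} {F : Finset (Finset V)}
    (h : Frm B Q T U F) (hv : ViolR B Q) (hL : L ∈ F) (hl : Lbg B Q L T U j l us ct tb)
    {zn r d0 pz : ℕ} {zm : List ℕ} {bl : ℕ → ι} (hd : (d0 : ℤ) ≤ dv B Q L + 10) {c : List ℕ}
    (hc : okgg d0 l us c = true) :
    Sat (gval B Q L (Pgg zn r d0 pz zm l us) bl ct) c := by
  classical
  have hkey : ∀ S, ¬ rho B (L ∪ ptm ct (3 * l.length + us.length) S) ≤ rho B L →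
      c = [ng (vA S)] → Sat (gval B Q L (Pgg zn r d0 pz zm l us) bl ct) c := by
    intro S h1 h2
    subst h2
    refine ⟨_, List.mem_singleton_self _, ?_⟩
    rw [lit_ng, gval_A]
    exact h1
  have hLQ := h.FQ hL
  have hTZ : ∀ i ∈ T, ¬ (B i ∩ L).Nonempty := by
    rintro i hi ⟨v, hv'⟩
    obtain ⟨h2, h3⟩ := mem_inter.1 hv'
    exact (h.T_out hi (mem_inter.2 ⟨h2, hLQ h3⟩)).2 L hL h3
  unfold okgg at hc
  obtain ⟨k, hk, hc⟩ := List.any_eq_true.1 hc
  rw [List.mem_range] at hk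
  rw [Bool.or_eq_true, decide_eq_true_eq] at hc
  rcases hc with hc | hc
  · refine hkey _ ?_ hc
    rw [hl.ptm_grp hk]
    exact h.nab (hl.tbT k hk) hL
  · obtain ⟨t, ht, hc⟩ := List.any_eq_true.1 hc
    rw [List.mem_range] at ht
    rw [Bool.and_eq_true, decide_eq_true_eq] at hc
    obtain ⟨hc, ht1⟩ := hc
    refine hkey _ ?_ hc
    rw [hl.ptm_pair hk ht]
    intro habs
    unfold s1tg at ht1
    rw [Bool.and_eq_true, decide_eq_true_eq, decide_eq_true_eq] at ht1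
    obtain ⟨ht1, ht2⟩ := ht1
    have hd' : Disjoint L (B (tb k) ∩ Q) := disjoint_left.2 fun v hvL hvT =>
      (h.T_out (hl.tbT k hk) hvT).2 L hL hvL
    have hca : ct (3 * k + t) ∈ B (tb k) ∩ Q := (hl.trip k hk _).2 ⟨t, ht, rfl⟩
    have hez : (Ez B L (ct (3 * k + t))).card = (dig (l.getD k 0)).getD t 0 := by
      rw [hl.hits (3 * k + t) (by omega), vcg_group l us k t hk ht]
    have hH := hl.sum_out hTZ hk
    have hab : Abz B L ((B (tb k) ∩ Q).erase (ct (3 * k + t))) := by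
      obtain ⟨T0, h1, h2⟩ := exists_cover (B := B) (W := L ∪ (B (tb k) ∩ Q).erase (ct (3 * k + t)))
        (hv.cov.mono (union_subset hLQ ((erase_subset _ _).trans inter_subset_right)))
      exact ⟨T0, h1, by rw [h2]; exact habs⟩
    have hHe : hit B ((Q \ (B (tb k) ∩ Q)) \ L) L = (vcg l us).sum - (dig (l.getD k 0)).sum := by
      omega
    have h3 := hv.s1 (h.full (hl.tbT k hk)) (fun v hv' => mem_sdiff.2 ⟨hLQ hv', fun h4 =>
      disjoint_left.1 hd' hv' h4⟩) (h.ge.sys.fc L hL).1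
      (fun v hv' => le_antisymm (rho_erase_fc (h.ge.sys.fc L hL) (h.sv_leaf hL) hv')
        (rho_le_erase (x := v) (h.cov.mono hLQ))) (h.sv_leaf hL) (mem_inter.1 hca).1
      (mem_inter.1 hca).2 (nu := max ((dig (l.getD k 0)).getD t 0 + 1)
        ((vcg l us).sum - (dig (l.getD k 0)).sum)) ht1 (by rw [hez]; omega)
      (by rw [hHe]; omega) (Or.inl hab)
    rw [hHe] at h3
    split_ifs at h3 ht2 <;> omega

/-- **a checked instance of a leaf does not occur**. -/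
theorem Lbg.no [DecidableEq ι] {L : Finset V} {F : Finset (Finset V)} {zt : ℕ → V}
    (h : Frm B Q T U F) (hv : ViolR B Q) (hL : L ∈ F) (hl : Lbg B Q L T U j l us ct tb)
    {zn r d0 pz : ℕ} {zm : List ℕ} {bl : ℕ → ι}
    (hg : Gdx.Gx B Q L (Pgg zn r d0 pz zm l us) bl ct zt tb)
    {given : List (List ℕ)} (hgv : given.all (okgg d0 l us) = true) {bs : List Gb} {ks : List Gk}
    {nm db : Tr} {cnf : List (List ℕ)} {prf : List ℕ}
    (hb : instX (Pgg zn r d0 pz zm l us) given bs ks nm cnf db prf = true) : False :=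
  hg.no (fun c hc => hl.given h hv hL hg.d0 (List.all_eq_true.1 hgv c hc)) hb

/-- **the labels in groups of a leaf**. -/
theorem Frm.exists_lbg [DecidableEq ι] {L : Finset V} {F : Finset (Finset V)}
    (h : Frm B Q T U F) (hv : ViolR B Q) (hL : L ∈ F) (hj : j ∈ T) :
    ∃ l us ct tb, Lbg B Q L T U j l us ct tb := by
  classical
  have hLQ := h.FQ hL
  have hTZ : ∀ i ∈ T, ¬ (B i ∩ L).Nonempty := by
    rintro i hi ⟨v, hv'⟩
    obtain ⟨h2, h3⟩ := mem_inter.1 hv'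
    exact (h.T_out hi (mem_inter.2 ⟨h2, hLQ h3⟩)).2 L hL h3
  have hUD : U ⊆ Q \ T.biUnion B := h.ge.sub
  have hLD : L ⊆ (Q \ T.biUnion B) \ U := (h.ge.sys.closed L hL).1
  refine exists_labelsG hv.reg hj (fun i hi => h.full hi) hTZ ?_ (hUD.trans sdiff_subset) ?_ ?_ ?_
  · intro i hi i' hi' hne
    exact h.mtp.tpk.pack.disj i hi i' hi' hne
  · rw [disjoint_left]
    intro v hvU hvL
    exact (mem_sdiff.1 (hLD hvL)).2 hvU
  · intro i hi
    rw [disjoint_left]
    intro v hv1 hv2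
    exact (mem_sdiff.1 (hUD hv2)).2 (mem_biUnion.2 ⟨i, hi, (mem_inter.1 hv1).1⟩)
  · intro v hvQ hvL hvE
    by_cases hvT : v ∈ T.biUnion B
    · obtain ⟨i, hi, h1⟩ := mem_biUnion.1 hvT
      exact Or.inr ⟨i, hi, h1⟩
    · left
      by_contra hvU
      obtain ⟨i, hi⟩ := hvE
      obtain ⟨hvi, w, hw⟩ := mem_Ez.1 hi
      obtain ⟨hwi, hwL⟩ := mem_inter.1 hw
      refine hvL ((h.ge.sys.closed L hL).2 w hwL v (mem_sdiff.2 ⟨mem_sdiff.2 ⟨hvQ, hvT⟩, hvU⟩)
        ⟨?_, i, hwi, hvi⟩)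
      rintro rfl
      exact hvL hwL

end Pool.Agent.Hyp6
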