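import Pool.Agent.Hyp6.Gdlk

/-!
# HYP6 GDJ: points which see a common connected set

`Gdl.joined`: two points of `Y` which see a connected set `D` of untouched points by kept blocks are in
the same part of the new system.
-/

set_option autoImplicit false

namespace Pool.Agent.Hyp6

open Finset Pool.Agent.Hyp5

universe u v

namespace Gdl

variable {V : Type v} [DecidableEq V] {ι : Type u} [Fintype ι] {κ : Type u} [Fintype κ]
  {B : ι → Finset V} {Q L X Y : Finset V} {I : Finset ι} {E : V → Finset ι} {N : κ → Finset V}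

/-- **two points which see a connected set outside are linked**. -/
theorem joined (h : Gdl B Q L X Y I E N) {D : Finset V} (hD : D ⊆ rm Q L X Y)
    (hDc : Conn (gr B) D) {u u' : V} (hu : u ∈ Y) (hu' : u' ∈ Y) {i i' : ι}
    (hiD : (B i ∩ D).Nonempty) (hiD' : (B i' ∩ D).Nonempty) (hiE : i ∈ E u) (hiE' : i' ∈ E u')
    {W : Finset V} (hW : Closed (gr (absG B (rm Q L X Y) Y E N)) (rm Q L X Y ∪ Y) W)
    (huW : u ∈ W) : u' ∈ W := by
  classical
  have hw := h.wir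
  obtain ⟨d, hd⟩ := hiD
  obtain ⟨hdi, hdD⟩ := mem_inter.1 hd
  obtain ⟨d', hd'⟩ := hiD'
  obtain ⟨hdi', hdD'⟩ := mem_inter.1 hd'
  have hne : ∀ {y w : V}, y ∈ Y → w ∈ D → y ≠ w := by
    rintro y w hy hw' rfl
    exact (mem_rm.1 (hD hw')).2.2.2 hy
  have h1 : d ∈ W := hW.2 u huW d (mem_union_left _ (hD hdD))
    ⟨hne hu hdD, Sum.inl i, mem_absG_inl.2 (Or.inr ⟨hu, hiE⟩),
      mem_absG_inl.2 (Or.inl ⟨hdi, hD hdD⟩)⟩
  have hcl : Closed (gr B) D (W ∩ D) := by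
    refine ⟨inter_subset_right, fun v hv w hwD hadj => ?_⟩
    obtain ⟨hvW, hvD⟩ := mem_inter.1 hv
    obtain ⟨hvw, k, hk1, hk2⟩ := hadj
    exact mem_inter.2 ⟨hW.2 v hvW w (mem_union_left _ (hD hwD))
      (hw.adj_C (hD hvD) (hD hwD) ⟨hvw, k, hk1, hk2⟩), hwD⟩
  have h2 := hDc.2 (W ∩ D) hcl ⟨d, mem_inter.2 ⟨h1, hdD⟩⟩
  have h3 : d' ∈ W := by
    rw [← h2] at hdD'
    exact (mem_inter.1 hdD').1
  exact hW.2 d' h3 u' (mem_union_right _ hu')
    ⟨(hne hu' hdD').symm, Sum.inl i', mem_absG_inl.2 (Or.inl ⟨hdi', hD hdD'⟩),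
      mem_absG_inl.2 (Or.inr ⟨hu', hiE'⟩)⟩

end Gdl

end Pool.Agent.Hyp6
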