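import Pool.Agent.Hyp6.Gdj

/-!
# HYP6 GDJ2: the general deletion with the improved bonus

`dv_parts6`: a system in `p` parts has `- p ≤ dv`, and `1 - p ≤ dv` if `- p < sv`.
-/

set_option autoImplicit false

namespace Pool.Agent.Hyp6

open Finset Pool.Agent.Hyp5

universe u v

section

variable {V : Type v} [DecidableEq V] {ι : Type u} [Fintype ι] {B : ι → Finset V}

/-- **the value of a system in parts, with the improved bonus**. -/
theorem dv_parts6 {n : ℕ} (ih : IHE.{u} V n) (ihr : IHR.{u} V n) :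
    ∀ (W : Finset V) (A : Finset (Finset V)), W.card < n → Reg B W → Tr3 B W →
      (∀ a ∈ A, a ⊆ W) →
      (∀ Z, Closed (gr B) W Z → ∀ a ∈ A, a ⊆ Z ∨ Disjoint a Z) →
      (∀ Z, Closed (gr B) W Z → Z.Nonempty → ∃ a ∈ A, a ⊆ Z) →
      (∀ a ∈ A, ∃ i, (B i ∩ W).Nonempty ∧ (B i ∩ W).card ≤ 2 ∧ B i ∩ W ⊆ a) →
      W.Nonempty → -(A.card : ℤ) ≤ dv B W W ∧ (-(A.card : ℤ) < sv B W → 1 - (A.card : ℤ) ≤ dv B W W) := by
  classical
  intro W
  induction W using Finset.strongInduction with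
  | H W IH =>
    intro A hn hr h3 hAW hlink hmeet hsm hne
    by_cases hc : Conn (gr B) W
    · obtain ⟨a, ha, haW⟩ := hmeet W ⟨Subset.refl _, fun _ _ y hy _ => hy⟩ hne
      have hA1 : 1 ≤ A.card := card_pos.2 ⟨a, ha⟩
      obtain ⟨i, hi1, hi2, _⟩ := hsm a ha
      have hK : ¬ KT B W := by
        intro hK
        have := hK.trace hr h3 hi1
        omega
      have h1 := ih ι B W hn hr h3 hc hK
      have h2 := ih_nonneg ih ihr hn hr h3 hc hK
      unfold dv
      constructor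
      · have : (1 : ℤ) ≤ (A.card : ℤ) := by exact_mod_cast hA1
        linarith
      · intro hs
        have h5 : (1 : ℤ) ≤ (A.card : ℤ) := by exact_mod_cast hA1
        rcases lt_or_ge (A.card : ℤ) 2 with h6 | h6
        · have := h2 (by omega)
          linarith
        · linarith
    · have hex : ∃ Z, Closed (gr B) W Z ∧ Z.Nonempty ∧ Z ≠ W := by
        by_contra hcon
        push Not at hcon
        exact hc ⟨hne, fun Z hZ hZne => hcon Z hZ hZne⟩
      obtain ⟨Z, hZ, hZne, hZW⟩ := hex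
      have hD := closed_compl hZ
      have hDne : (W \ Z).Nonempty := by
        rw [sdiff_nonempty]
        exact fun h => hZW (subset_antisymm hZ.1 h)
      set A1 := A.filter (fun a => a ⊆ Z) with hA1
      set A2 := A.filter (fun a => a ⊆ W \ Z) with hA2
      have hdisA : Disjoint A1 A2 := by
        rw [disjoint_left]
        intro a ha1 ha2
        obtain ⟨ha, h1⟩ := mem_filter.1 ha1
        obtain ⟨_, h2⟩ := mem_filter.1 ha2
        obtain ⟨i, ⟨w, hw⟩, _, hi3⟩ := hsm a ha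
        exact (mem_sdiff.1 (h2 (hi3 hw))).2 (h1 (hi3 hw))
      have hcardA : A1.card + A2.card ≤ A.card := by
        rw [← card_union_of_disjoint hdisA]
        exact card_le_card (union_subset (filter_subset _ _) (filter_subset _ _))
      have key : ∀ (Y : Finset V) (A' : Finset (Finset V)), Closed (gr B) W Y → Y.Nonempty →
          Y ⊂ W → A' = A.filter (fun a => a ⊆ Y) →
          -(A'.card : ℤ) ≤ dv B Y Y ∧ (-(A'.card : ℤ) < sv B Y → 1 - (A'.card : ℤ) ≤ dv B Y Y) := by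
        intro Y A' hY hYne hYW hA'
        have hinter : ∀ i, (B i ∩ Y).Nonempty → B i ∩ Y = B i ∩ W := by
          intro i ⟨y, hy⟩
          obtain ⟨hyi, hyY⟩ := mem_inter.1 hy
          ext w
          simp only [mem_inter]
          constructor
          · rintro ⟨h1, h2⟩
            exact ⟨h1, hY.1 h2⟩
          · rintro ⟨h1, h2⟩
            refine ⟨h1, ?_⟩
            by_cases h5 : y = w
            · rw [← h5]
              exact hyY
            · exact hY.2 y hyY w h2 ⟨h5, i, hyi, h1⟩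
        refine IH Y hYW A' (lt_of_lt_of_le (card_lt_card hYW) hn.le) (fun v hv => hr v (hY.1 hv))
          (fun i => (card_le_card (inter_subset_inter_left hY.1)).trans (h3 i)) ?_ ?_ ?_ ?_ hYne
        · intro a ha
          rw [hA'] at ha
          exact (mem_filter.1 ha).2
        · intro Z' hZ' a ha
          rw [hA'] at ha
          exact hlink Z' (closed_trans hY hZ') a (mem_filter.1 ha).1
        · intro Z' hZ' hZne'
          obtain ⟨a, ha, haZ⟩ := hmeet Z' (closed_trans hY hZ') hZne'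
          refine ⟨a, ?_, haZ⟩
          rw [hA']
          exact mem_filter.2 ⟨ha, haZ.trans hZ'.1⟩
        · intro a ha
          rw [hA'] at ha
          obtain ⟨ha1, ha2⟩ := mem_filter.1 ha
          obtain ⟨i, hi1, hi2, hi3⟩ := hsm a ha1
          have h5 : (B i ∩ Y).Nonempty := by
            obtain ⟨w, hw⟩ := hi1
            exact ⟨w, mem_inter.2 ⟨(mem_inter.1 hw).1, ha2 (hi3 hw)⟩⟩
          refine ⟨i, h5, ?_, ?_⟩
          · rw [hinter i h5]
            exact hi2
          · rw [hinter i h5]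
            exact hi3
      have hZss : Z ⊂ W := ssubset_of_subset_of_ne hZ.1 hZW
      have hDss : W \ Z ⊂ W := by
        refine ssubset_of_subset_of_ne sdiff_subset fun h => ?_
        obtain ⟨z, hz⟩ := hZne
        have : z ∈ W \ Z := by
          rw [h]
          exact hZ.1 hz
        exact (mem_sdiff.1 this).2 hz
      obtain ⟨k1, k2⟩ := key Z A1 hZ hZne hZss rfl
      obtain ⟨k3, k4⟩ := key (W \ Z) A2 hD hDne hDss rfl
      obtain ⟨h1, h2⟩ := dv_split hr hZ
      have hcA : (A1.card : ℤ) + A2.card ≤ A.card := by exact_mod_cast hcardA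
      constructor
      · linarith
      · intro hs
        rw [h2] at hs
        rcases lt_or_ge ((A1.card : ℤ) + A2.card) (A.card : ℤ) with h5 | h5
        · linarith
        rcases lt_or_ge (-(A1.card : ℤ)) (sv B Z) with h6 | h6
        · have := k2 h6
          linarith
        · have := k4 (by linarith)
          linarith

end

namespace Gdl

variable {V : Type v} [DecidableEq V] {ι : Type u} [Fintype ι] {κ : Type u} [Fintype κ]
  {B : ι → Finset V} {Q L X Y : Finset V} {I : Finset ι} {E : V → Finset ι} {N : κ → Finset V}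

/-- the general deletion from a bound for the new system. -/
theorem main_gen6r (h : Gdl B Q L X Y I E N) {p : ℤ}
    (hp : -p ≤ dv (absG B (rm Q L X Y) Y E N) (rm Q L X Y ∪ Y) (rm Q L X Y ∪ Y))
    (hp2 : -p < sv (absG B (rm Q L X Y) Y E N) (rm Q L X Y ∪ Y) →
      1 - p ≤ dv (absG B (rm Q L X Y) Y E N) (rm Q L X Y ∪ Y) (rm Q L X Y ∪ Y)) :
    dv B Q L + 5 * (X.card : ℤ) + 4 * (I.card : ℤ) + 2 * ((lost B Q L X Y I E).card : ℤ)
       - 4 * (Fintype.card κ : ℤ) - p ≤ dv B Q Q ∧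
    ((X.card : ℤ) < sv B Q - sv B L + p →
      dv B Q L + 5 * (X.card : ℤ) + 4 * (I.card : ℤ) + 2 * ((lost B Q L X Y I E).card : ℤ)
       - 4 * (Fintype.card κ : ℤ) + 1 - p ≤ dv B Q Q) := by
  classical
  have hw := h.wir
  have hrho := h.rho_le
  have hcm := h.cm_ge
  set C := rm Q L X Y with hC
  set B' := absG B C Y E N with hB'
  set Y1 := Y.filter (fun y => ∀ i, B i ∩ Q = {y} → i ∈ E y) with hY1
  set Y3 := Y.filter (fun y => ¬ ∀ i, B i ∩ Q = {y} → i ∈ E y) with hY3
  have hY1Y : Y1 ⊆ Y := filter_subset _ _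
  have hY3Y : Y3 ⊆ Y := filter_subset _ _
  have hee := hw.ee_ge (Y1 := Y1) (Y2 := ∅) hY1Y (empty_subset _)
    (disjoint_empty_right _) (fun y hy => (mem_filter.1 hy).2)
    (fun y hy => absurd hy (notMem_empty _))
  rw [← hB', card_empty] at hee
  have hlost := h.ee_lost (Y3 := Y3) hY3Y (fun y hy => by
    have h1 := (mem_filter.1 hy).2
    push Not at h1
    exact h1)
  have hdC : Disjoint ((L ∪ X) ∪ Y) C := disjoint_sdiff
  have hQe : ((L ∪ X) ∪ Y) ∪ C = Q :=
    union_sdiff_of_subset (union_subset (union_subset h.LQ h.XQ) h.YQ)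
  have hdY : Disjoint (L ∪ X) Y := by
    rw [disjoint_union_left]
    exact ⟨h.dLY, h.dXY⟩
  have heQ : ee B Q Q = ee B Q L + ee B Q X + ee B Q Y + ee B Q C := by
    have h1 := ee_union (B := B) (Q := Q) hdC
    rw [hQe, ee_union hdY, ee_union h.dLX] at h1
    exact h1
  have heY : ee B Q Y = ee B Q Y1 + ee B Q Y3 := by
    have h2 : Y1 ∪ Y3 = Y := filter_union_filter_not_eq _ _
    have h3 : Disjoint Y1 Y3 := disjoint_filter_filter_not _ _ _
    have h4 := ee_union (B := B) (Q := Q) h3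
    rw [h2] at h4
    exact h4
  have hcard : Q.card = L.card + X.card + Y.card + C.card := by
    conv_lhs => rw [← hQe]
    rw [card_union_of_disjoint hdC, card_union_of_disjoint hdY, card_union_of_disjoint h.dLX]
  have hCY : (C ∪ Y).card = C.card + Y.card := card_union_of_disjoint hw.dis
  have hPv' := Pv_eq (B := B') (C ∪ Y)
  have hPvQ := Pv_eq (B := B) Q
  have hPvL := Pv_eq (B := B) L
  have hsv' : sv B' (C ∪ Y) = (C.card : ℤ) + Y.card - 2 * (rho B' (C ∪ Y) : ℤ) := by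
    unfold sv
    rw [hCY]
    push_cast
    ring
  have hsvQ : sv B Q = (L.card : ℤ) + X.card + Y.card + C.card - 2 * (rho B Q : ℤ) := by
    unfold sv
    rw [hcard]
    push_cast
    ring
  have hsvL : sv B L = (L.card : ℤ) - 2 * (rho B L : ℤ) := rfl
  rw [hCY] at hPv'
  rw [hcard] at hPvQ
  unfold dv at hp hp2 ⊢
  push_cast at hPv' hPvQ
  rw [hPvQ, hPvL, heQ, heY]
  rw [hPv'] at hp hp2
  rw [hsv'] at hp2
  push_cast
  constructor
  · omega
  · intro hX
    rw [hsvQ, hsvL] at hX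
    rcases Nat.lt_or_ge (rho B Q) (rho B L + rho B' (C ∪ Y)) with h1 | h1
    · omega
    · have h2 := hp2 (by omega)
      omega

/-- **the general deletion with further parts and the improved bonus**. -/
theorem main_ext6 (h : Gdl B Q L X Y I E N) (hv : ViolR B Q) (hLne : L.Nonempty)
    {n : ℕ} (ih : IHE.{u} V n) (ihr : IHR.{u} V n)
    (hn : (rm Q L X Y).card + Y.card < n) (hYne : Y.Nonempty) {S : Finset V} (hSY : S ⊆ Y)
    (hkeep : ∀ y ∈ Y, y ∉ S → ∀ i, y ∈ B i → (B i ∩ rm Q L X Y).Nonempty → i ∈ E y)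
    {A : Finset (Finset V)} (hAY : ∀ a ∈ A, a ⊆ Y) (hcov : ∀ y ∈ Y, ∃ a ∈ A, y ∈ a)
    (hlink : ∀ Z, Closed (gr (absG B (rm Q L X Y) Y E N)) (rm Q L X Y ∪ Y) Z →
      ∀ a ∈ A, a ⊆ Z ∨ Disjoint a Z)
    (hsm : ∀ a ∈ A, ∃ c, (N c).Nonempty ∧ (N c).card ≤ 2 ∧ N c ⊆ a) {m : ℕ}
    (hm : ∑ x ∈ X, min (5 - los B L I x) (m + 1) +
      ∑ y ∈ S, min (nnd N y - los B L I y) (m + 1) < 3 * (m + 1)) :
    dv B Q L + 5 * (X.card : ℤ) + 4 * (I.card : ℤ) + 2 * ((lost B Q L X Y I E).card : ℤ)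
       - 4 * (Fintype.card κ : ℤ) - (A.card + m) ≤ dv B Q Q ∧
    ((X.card : ℤ) < sv B Q - sv B L + (A.card + m) →
      dv B Q L + 5 * (X.card : ℤ) + 4 * (I.card : ℤ) + 2 * ((lost B Q L X Y I E).card : ℤ)
       - 4 * (Fintype.card κ : ℤ) + 1 - (A.card + m) ≤ dv B Q Q) := by
  classical
  have hw := h.wir
  have hCY : (rm Q L X Y ∪ Y).card = (rm Q L X Y).card + Y.card := card_union_of_disjoint hw.dis
  obtain ⟨Ks, hK1, hK2, hK3⟩ := exists_parts (absG B (rm Q L X Y) Y E N) (rm Q L X Y ∪ Y)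
  set Kx := Ks.filter (fun K => Disjoint K Y) with hKx
  have hrm : ∀ K ∈ Kx, ∀ v ∈ K, v ∈ rm Q L X Y := by
    intro K hK v hv'
    obtain ⟨hK', hd⟩ := mem_filter.1 hK
    rcases mem_union.1 ((hK1 K hK').1 hv') with h1 | h1
    · exact h1
    · exact absurd h1 (disjoint_left.1 hd hv')
  -- a closed set contains a part or is disjoint from it
  have hpz : ∀ K ∈ Ks, ∀ Z, Closed (gr (absG B (rm Q L X Y) Y E N)) (rm Q L X Y ∪ Y) Z →
      K ⊆ Z ∨ Disjoint K Z := by
    intro K hK Z hZ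
    by_cases hd : Disjoint K Z
    · exact Or.inr hd
    left
    rw [not_disjoint_iff] at hd
    obtain ⟨z, hzK, hzZ⟩ := hd
    obtain ⟨k1, k2, k3⟩ := hK1 K hK
    have hcl : Closed (gr (absG B (rm Q L X Y) Y E N)) K (Z ∩ K) := by
      refine ⟨inter_subset_right, fun v hv' w hw' hvw => ?_⟩
      obtain ⟨h1, h2⟩ := mem_inter.1 hv'
      exact mem_inter.2 ⟨hZ.2 v h1 w (k1 hw') hvw, hw'⟩
    have heq := k3.2 (Z ∩ K) hcl ⟨z, mem_inter.2 ⟨hzZ, hzK⟩⟩
    rw [← heq]
    exact inter_subset_left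
  -- a block meets at most one part
  have hone : ∀ i, ∀ K ∈ Kx, ∀ K' ∈ Kx, (B i ∩ K).Nonempty → (B i ∩ K').Nonempty → K = K' := by
    intro i K hK K' hK' ⟨w, hw1⟩ ⟨w', hw1'⟩
    obtain ⟨hwi, hwK⟩ := mem_inter.1 hw1
    obtain ⟨hwi', hwK'⟩ := mem_inter.1 hw1'
    by_contra hne
    have hd := (hK2 K (mem_filter.1 hK).1 K' (mem_filter.1 hK').1 hne).1
    have h1 : w' ∈ K := by
      by_cases he : w = w'
      · exact he ▸ hwK
      · exact (hK1 K (mem_filter.1 hK).1).2.1.2 w hwK w'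
          (mem_union_left _ (hrm K' hK' w' hwK'))
          (hw.adj_C (hrm K hK w hwK) (hrm K' hK' w' hwK') ⟨he, i, hwi, hwi'⟩)
    exact disjoint_left.1 hd h1 hwK'
  -- the numbers of the given up blocks
  have hkpc : ∀ y ∈ Q, (kp B L I y).card + los B L I y = 5 := fun y hy =>
    kp_card hv.reg h.LQ h.dLX h.dLY h.full hy
  have hgX : ∀ x ∈ X, (giv B L X I E x).card = 5 - los B L I x := by
    intro x hx
    unfold giv
    rw [if_pos hx]
    have := hkpc x (h.XQ hx)
    omega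
  have hgS : ∀ y ∈ S, (giv B L X I E y).card = nnd N y - los B L I y := by
    intro y hy
    have hyY := hSY hy
    have hyX : y ∉ X := fun h1 => disjoint_left.1 h.dXY h1 hyY
    unfold giv
    rw [if_neg hyX]
    have h1 : E y ⊆ kp B L I y := fun i hi =>
      mem_kp.2 ⟨h.mem y hyY i hi, (h.keep y hyY i hi).1, (h.keep y hyY i hi).2⟩
    rw [card_sdiff_of_subset h1]
    have h2 := hkpc y (h.YQ hyY)
    have h3 := h.deg y hyY
    unfold nnd
    omega
  have hcount : ∀ K1 ⊆ Kx, 3 * K1.card ≤ ∑ x ∈ X, min (5 - los B L I x) K1.card +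
      ∑ y ∈ S, min (nnd N y - los B L I y) K1.card := by
    intro K1 hK1'
    have h1 := count_parts K1 (X ∪ S) (giv B L X I E) (fun x K i => x ∈ B i ∧ (B i ∩ K).Nonempty)
      (fun K hK => by
        have hKm := hK1' hK
        obtain ⟨hKs, hd⟩ := mem_filter.1 hKm
        exact h.see_three hv hLne hSY hkeep (hK1 K hKs).2.1 (hK1 K hKs).2.2.1 hd)
      (fun x _ i _ K hK K' hK' hr1 hr2 => hone i K (hK1' hK) K' (hK1' hK') hr1.2 hr2.2)
    rw [sum_union (disjoint_of_subset_right hSY h.dXY)] at h1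
    rw [sum_congr rfl fun x hx => by rw [hgX x hx], sum_congr (s₁ := S) rfl fun y hy => by
      rw [hgS y hy]] at h1
    exact h1
  have hKm : Kx.card ≤ m := by
    by_contra hcon
    push Not at hcon
    obtain ⟨K1, hK1', hc1⟩ := exists_subset_card_eq (show m + 1 ≤ Kx.card by omega)
    have h1 := hcount K1 hK1'
    rw [hc1] at h1
    omega
  -- the parts which avoid `Y` have a small block
  have hsmK : ∀ K ∈ Kx, ∃ i, (absG B (rm Q L X Y) Y E N i ∩ (rm Q L X Y ∪ Y)).Nonempty ∧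
      (absG B (rm Q L X Y) Y E N i ∩ (rm Q L X Y ∪ Y)).card ≤ 2 ∧
      absG B (rm Q L X Y) Y E N i ∩ (rm Q L X Y ∪ Y) ⊆ K := by
    intro K hK
    obtain ⟨hKs, hd⟩ := mem_filter.1 hK
    obtain ⟨W3, hW3, hc3, hs3⟩ := h.see_three hv hLne hSY hkeep (hK1 K hKs).2.1
      (hK1 K hKs).2.2.1 hd
    obtain ⟨x, hx⟩ := card_pos.1 (show 0 < W3.card by omega)
    obtain ⟨i, _, hxi, w, hw1⟩ := hs3 x hx
    obtain ⟨hwi, hwK⟩ := mem_inter.1 hw1
    have hwC := hrm K hK w hwK
    have hsub : absG B (rm Q L X Y) Y E N (Sum.inl i) ∩ (rm Q L X Y ∪ Y) ⊆ B i ∩ K := by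
      intro v hv'
      obtain ⟨hv1, hv2⟩ := mem_inter.1 hv'
      rcases mem_union.1 hv2 with h1 | h1
      · have hvi : v ∈ B i := by
          have h2 := (mem_absG_inl.1 hv1)
          rcases h2 with h3 | h3
          · exact h3.1
          · exact absurd h3.1 (mem_rm.1 h1).2.2.2
        refine mem_inter.2 ⟨hvi, ?_⟩
        by_cases he : w = v
        · exact he ▸ hwK
        · exact (hK1 K hKs).2.1.2 w hwK v (mem_union_left _ h1)
            (hw.adj_C hwC h1 ⟨he, i, hwi, hvi⟩)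
      · exfalso
        have h2 := (mem_absG_inl.1 hv1)
        have hiE : i ∈ E v := by
          rcases h2 with h3 | h3
          · exact absurd h1 (mem_rm.1 h3.2).2.2.2
          · exact h3.2
        have h4 : v ∈ K := (hK1 K hKs).2.1.2 w hwK v (mem_union_right _ h1)
          (hw.adj_Y h1 hwC hiE hwi).symm
        exact disjoint_left.1 hd h4 h1
    refine ⟨Sum.inl i, ⟨w, mem_inter.2 ⟨mem_absG_inl.2 (Or.inl ⟨hwi, hwC⟩),
      mem_union_left _ hwC⟩⟩, ?_, hsub.trans inter_subset_right⟩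
    have hxXS := hW3 hx
    have hxQ : x ∈ Q := by
      rcases mem_union.1 hxXS with h1 | h1
      · exact h.XQ h1
      · exact h.YQ (hSY h1)
    have hxK : x ∉ K := by
      intro h1
      have h2 := hrm K hK x h1
      rcases mem_union.1 hxXS with h3 | h3
      · exact (mem_rm.1 h2).2.2.1 h3
      · exact (mem_rm.1 h2).2.2.2 (hSY h3)
    have h5 : B i ∩ K ⊆ (B i ∩ Q).erase x := by
      intro v hv'
      obtain ⟨h6, h7⟩ := mem_inter.1 hv'
      refine mem_erase.2 ⟨fun he => hxK (he ▸ h7), mem_inter.2 ⟨h6, ?_⟩⟩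
      exact (mem_rm.1 (hrm K hK v h7)).1
    have h6 := card_le_card (hsub.trans h5)
    rw [card_erase_of_mem (mem_inter.2 ⟨hxi, hxQ⟩)] at h6
    have h7 := h.tr i
    omega
  have hcA : (A ∪ Kx).card ≤ A.card + m := (card_union_le _ _).trans (by omega)
  obtain ⟨h1, h2⟩ := dv_parts6 ih ihr (B := absG B (rm Q L X Y) Y E N) (rm Q L X Y ∪ Y) (A ∪ Kx)
    (by rw [hCY]; exact hn) (hw.reg h.reg) (hw.tr3 h.tr)
    (fun a ha => by
      rcases mem_union.1 ha with h1 | h1
      · exact (hAY a h1).trans subset_union_right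
      · exact (hK1 a (mem_filter.1 h1).1).1)
    (fun Z hZ a ha => by
      rcases mem_union.1 ha with h1 | h1
      · exact hlink Z hZ a h1
      · exact hpz a (mem_filter.1 h1).1 Z hZ)
    (fun Z hZ hne => by
      by_cases hZY : (Z ∩ Y).Nonempty
      · obtain ⟨y, hy⟩ := hZY
        obtain ⟨hyZ, hyY⟩ := mem_inter.1 hy
        obtain ⟨a, ha, hya⟩ := hcov y hyY
        refine ⟨a, mem_union_left _ ha, ?_⟩
        rcases hlink Z hZ a ha with h3 | h3
        · exact h3
        · exact absurd hyZ (disjoint_left.1 h3 hya)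
      · obtain ⟨z, hz⟩ := hne
        have hzU : z ∈ Ks.biUnion id := by
          rw [hK3]
          exact hZ.1 hz
        obtain ⟨K, hK, hzK⟩ := mem_biUnion.1 hzU
        have hKZ : K ⊆ Z := by
          rcases hpz K hK Z hZ with h3 | h3
          · exact h3
          · exact absurd hz (disjoint_left.1 h3 hzK)
        refine ⟨K, mem_union_right _ (mem_filter.2 ⟨hK, ?_⟩), hKZ⟩
        rw [disjoint_left]
        intro v hvK hvY
        exact hZY ⟨v, mem_inter.2 ⟨hKZ hvK, hvY⟩⟩)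
    (fun a ha => by
      rcases mem_union.1 ha with h1 | h1
      · obtain ⟨c, hc1, hc2, hc3⟩ := hsm a h1
        have h4 : absG B (rm Q L X Y) Y E N (Sum.inr c) ∩ (rm Q L X Y ∪ Y) = N c := by
          rw [hw.inter_self]
          ext v
          exact mem_absG_inr
        exact ⟨Sum.inr c, by rw [h4]; exact hc1, by rw [h4]; exact hc2, by rw [h4]; exact hc3⟩
      · exact hsmK a h1)
    (hYne.mono subset_union_right)
  have hcA' : ((A ∪ Kx).card : ℤ) ≤ A.card + m := by exact_mod_cast hcA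
  refine h.main_gen6r (p := (A.card : ℤ) + m) (by linarith) fun hs => ?_
  rcases lt_or_ge ((A ∪ Kx).card : ℤ) ((A.card : ℤ) + m) with h5 | h5
  · linarith
  · have := h2 (by linarith)
    linarith

/-- **two linked classes, with the improved bonus**. -/
theorem main_lk6 (h : Gdl B Q L X Y I E N) (hv : ViolR B Q) (hLne : L.Nonempty)
    {n : ℕ} (ih : IHE.{u} V n) (ihr : IHR.{u} V n)
    (hn : (rm Q L X Y).card + Y.card < n) (hYne : Y.Nonempty) {S : Finset V} (hSY : S ⊆ Y)
    (hkeep : ∀ y ∈ Y, y ∉ S → ∀ i, y ∈ B i → (B i ∩ rm Q L X Y).Nonempty → i ∈ E y)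
    {A : Finset (Finset V)} (hAY : ∀ a ∈ A, a ⊆ Y) (hcov : ∀ y ∈ Y, ∃ a ∈ A, y ∈ a)
    (hlink : ∀ Z, Closed (gr (absG B (rm Q L X Y) Y E N)) (rm Q L X Y ∪ Y) Z →
      ∀ a ∈ A, a ⊆ Z ∨ Disjoint a Z)
    (hsm : ∀ a ∈ A, ∃ c, (N c).Nonempty ∧ (N c).card ≤ 2 ∧ N c ⊆ a) {m : ℕ}
    (hm : ∑ x ∈ X, min (5 - los B L I x) (m + 1) +
      ∑ y ∈ S, min (nnd N y - los B L I y) (m + 1) < 3 * (m + 1))
    (hlk : ∃ a ∈ A, ∃ b ∈ A, a ≠ b ∧ Lkd B Q L X Y E N a b) :
    dv B Q L + 5 * (X.card : ℤ) + 4 * (I.card : ℤ) + 2 * ((lost B Q L X Y I E).card : ℤ)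
       - 4 * (Fintype.card κ : ℤ) - ((A.card : ℤ) - 1 + m) ≤ dv B Q Q ∧
    ((X.card : ℤ) < sv B Q - sv B L + ((A.card : ℤ) - 1 + m) →
      dv B Q L + 5 * (X.card : ℤ) + 4 * (I.card : ℤ) + 2 * ((lost B Q L X Y I E).card : ℤ)
       - 4 * (Fintype.card κ : ℤ) + 1 - ((A.card : ℤ) - 1 + m) ≤ dv B Q Q) := by
  classical
  obtain ⟨a, ha, b, hb, hab, hl⟩ := hlk
  set A2 : Finset (Finset V) := insert (a ∪ b) ((A.erase a).erase b) with hA2
  have hbe : b ∈ A.erase a := mem_erase.2 ⟨hab.symm, hb⟩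
  have hc : A2.card + 1 ≤ A.card := by
    have h1 := card_insert_le (a ∪ b) ((A.erase a).erase b)
    have h2 := card_erase_add_one ha
    have h3 := card_erase_add_one hbe
    rw [← hA2] at h1
    omega
  have hmem : ∀ c ∈ A2, c = a ∪ b ∨ c ∈ A := by
    intro c hc1
    rcases mem_insert.1 hc1 with h1 | h1
    · exact Or.inl h1
    · exact Or.inr (mem_of_mem_erase (mem_of_mem_erase h1))
  obtain ⟨h1, h2⟩ := h.main_ext6 hv hLne ih ihr hn hYne hSY hkeep (A := A2)
    (fun c hc1 => by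
      rcases hmem c hc1 with rfl | h1
      · exact union_subset (hAY a ha) (hAY b hb)
      · exact hAY c h1)
    (fun y hy => by
      obtain ⟨c, hc1, hyc⟩ := hcov y hy
      by_cases hca : c = a
      · exact ⟨a ∪ b, mem_insert_self _ _, mem_union_left _ (hca ▸ hyc)⟩
      by_cases hcb : c = b
      · exact ⟨a ∪ b, mem_insert_self _ _, mem_union_right _ (hcb ▸ hyc)⟩
      · exact ⟨c, mem_insert_of_mem (mem_erase.2 ⟨hcb, mem_erase.2 ⟨hca, hc1⟩⟩), hyc⟩)
    (fun Z hZ c hc1 => by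
      rcases hmem c hc1 with rfl | h1
      · exact hl Z hZ
      · exact hlink Z hZ c h1)
    (fun c hc1 => by
      rcases hmem c hc1 with rfl | h1
      · obtain ⟨d, hd1, hd2, hd3⟩ := hsm a ha
        exact ⟨d, hd1, hd2, hd3.trans subset_union_left⟩
      · exact hsm c h1) hm
  have hc' : (A2.card : ℤ) + 1 ≤ A.card := by exact_mod_cast hc
  refine ⟨by linarith, fun hs => ?_⟩
  rcases lt_or_ge ((A2.card : ℤ) + 1) (A.card : ℤ) with h5 | h5
  · linarith
  · have := h2 (by linarith)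
    linarith

end Gdl

end Pool.Agent.Hyp6
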