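import Pool.Agent.Hyp6.L3Non

/-!
# HYP6 GDKT: covering five points of an exceptional set

`KT.pair`: for every point `y` of an exceptional set and every block `i0` there are two blocks different
from `i0` which do not contain `y` and cover the other five points.
-/

set_option autoImplicit false

namespace Pool.Agent.Hyp6

open Finset Pool.Agent.Hyp5

universe u v

variable {V : Type v} [DecidableEq V] {ι : Type u} [Fintype ι] {B : ι → Finset V}

/-- two blocks of an exceptional set meet. -/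
theorem KT.meet {K : Finset V} (hr : Reg B K) (h3 : Tr3 B K) (h : KT B K) {i j : ι}
    (hi : (B i ∩ K).Nonempty) (hj : (B j ∩ K).Nonempty) : ∃ v ∈ K, v ∈ B i ∧ v ∈ B j := by
  classical
  by_contra hcon
  push Not at hcon
  have hd : Disjoint (B i ∩ K) (B j ∩ K) := by
    rw [disjoint_left]
    intro v hv hv'
    exact hcon v (mem_inter.1 hv).2 (mem_inter.1 hv).1 (mem_inter.1 hv').1
  have h1 := h.trace hr h3 hi
  have h2 := h.trace hr h3 hj
  have h4 : (B i ∩ K) ∪ (B j ∩ K) = K := by
    refine eq_of_subset_of_card_le (union_subset inter_subset_right inter_subset_right) ?_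
    rw [card_union_of_disjoint hd, h.1]
    omega
  have h5 : K ⊆ ({i, j} : Finset ι).biUnion B := by
    intro v hv
    rw [← h4] at hv
    rcases mem_union.1 hv with h6 | h6
    · exact mem_biUnion.2 ⟨i, by simp, (mem_inter.1 h6).1⟩
    · exact mem_biUnion.2 ⟨j, by simp, (mem_inter.1 h6).1⟩
  have h6 := rho_le h5
  rw [h.2.2] at h6
  have h7 : ({i, j} : Finset ι).card ≤ 2 := card_le_two
  omega

/-- **five points of an exceptional set are covered by two blocks** avoiding the sixth point and a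
given block. -/
theorem KT.pair {K : Finset V} (hr : Reg B K) (h3 : Tr3 B K) (h : KT B K) {y : V} (hy : y ∈ K)
    {J : Finset ι} (hJ : J.card ≤ 1) :
    ∃ i j, i ∉ J ∧ j ∉ J ∧ y ∉ B i ∧ y ∉ B j ∧ (B i ∩ K).Nonempty ∧ (B j ∩ K).Nonempty ∧
      K.erase y ⊆ B i ∪ B j := by
  classical
  set E := K.erase y with hE
  have hEc : E.card = 5 := by
    rw [hE, card_erase_of_mem hy, h.1]
  set M := univ.filter (fun i => (B i ∩ K).Nonempty) with hM
  have hMc : M.card = 10 := h.2.1
  set D := M.filter (fun i => y ∉ B i) with hD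
  have hMy : (M.filter (fun i => y ∈ B i)).card = 5 := by
    rw [← hr y hy]
    congr 1
    ext i
    simp only [hM, mem_filter, mem_univ, true_and]
    exact ⟨fun h1 => h1.2, fun h1 => ⟨⟨y, mem_inter.2 ⟨h1, hy⟩⟩, h1⟩⟩
  have hDc : D.card = 5 := by
    have h1 := card_filter_add_card_filter_not (s := M) (fun i => y ∈ B i)
    have h2 : (M.filter (fun i => ¬ y ∈ B i)).card = D.card := rfl
    omega
  set D' := D \ J with hD'
  have hD'c : 4 ≤ D'.card := by
    have h1 := le_card_sdiff J D
    rw [← hD'] at h1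
    omega
  have hmD : ∀ i ∈ D', (B i ∩ K).Nonempty ∧ y ∉ B i ∧ i ∉ J := by
    intro i hi
    obtain ⟨h1, h2⟩ := mem_sdiff.1 hi
    obtain ⟨h4, h5⟩ := mem_filter.1 h1
    exact ⟨(mem_filter.1 h4).2, h5, h2⟩
  have hbE : ∀ i ∈ D', B i ∩ K ⊆ E ∧ (B i ∩ K).card = 3 := by
    intro i hi
    obtain ⟨h1, h2, _⟩ := hmD i hi
    refine ⟨fun v hv => ?_, h.trace hr h3 h1⟩
    obtain ⟨h4, h5⟩ := mem_inter.1 hv
    exact mem_erase.2 ⟨fun he => h2 (he ▸ h4), h5⟩
  by_contra hcon
  push Not at hcon
  -- two blocks of `D'` have two common points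
  have hpair : ∀ i ∈ D', ∀ j ∈ D', 2 ≤ ((B i ∩ K) ∩ (B j ∩ K)).card := by
    intro i hi j hj
    obtain ⟨i1, i2, i3⟩ := hmD i hi
    obtain ⟨j1, j2, j3⟩ := hmD j hj
    have h1 := hcon i j i3 j3 i2 j2 i1 j1
    have h2 : ((B i ∩ K) ∪ (B j ∩ K)).card < 5 := by
      rw [← hEc]
      refine card_lt_card (ssubset_of_subset_of_ne (union_subset (hbE i hi).1 (hbE j hj).1)
        fun he => h1 fun v hv => ?_)
      rw [← he] at hv
      rcases mem_union.1 hv with h4 | h4
      · exact mem_union_left _ (mem_inter.1 h4).1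
      · exact mem_union_right _ (mem_inter.1 h4).1
    have h4 := card_union_add_card_inter (B i ∩ K) (B j ∩ K)
    rw [(hbE i hi).2, (hbE j hj).2] at h4
    omega
  obtain ⟨i1, hi1⟩ : D'.Nonempty := card_pos.1 (by omega)
  -- a missing point is impossible
  have hmiss : ∀ e ∈ E, ∃ i ∈ D', e ∈ B i := by
    intro e he
    by_contra hno
    push Not at hno
    obtain ⟨hey, heK⟩ := mem_erase.1 he
    -- the blocks containing both
    set Wk := univ.filter (fun i => e ∈ B i ∧ y ∈ B i) with hWk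
    have hWc : 4 ≤ Wk.card := by
      have h1 := hr e heK
      have h2 : univ.filter (fun i => e ∈ B i) ⊆ Wk ∪ J := by
        intro i hi
        have h4 := (mem_filter.1 hi).2
        by_cases h5 : y ∈ B i
        · exact mem_union_left _ (mem_filter.2 ⟨mem_univ _, h4, h5⟩)
        · refine mem_union_right _ ?_
          by_contra h6
          refine hno i (mem_sdiff.2 ⟨mem_filter.2 ⟨mem_filter.2 ⟨mem_univ _, ⟨e,
            mem_inter.2 ⟨h4, heK⟩⟩⟩, h5⟩, h6⟩) h4
      have h4 := (card_le_card h2).trans (card_union_le _ _)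
      omega
    -- every block of `Wk` has its third point in all blocks of `D'`
    have hthird : ∀ i ∈ Wk, ∃ w ∈ B i1 ∩ K, w ∈ B i ∧ w ≠ e ∧ w ≠ y := by
      intro i hi
      obtain ⟨_, h4, h5⟩ := mem_filter.1 hi
      obtain ⟨v, hvK, hv1, hv2⟩ := h.meet hr h3 (i := i) (j := i1) ⟨e, mem_inter.2 ⟨h4, heK⟩⟩
        (hmD i1 hi1).1
      exact ⟨v, mem_inter.2 ⟨hv2, hvK⟩, hv1, fun h6 => hno i1 hi1 (h6 ▸ hv2),
        fun h6 => (hmD i1 hi1).2.1 (h6 ▸ hv2)⟩
    have : Nonempty V := ⟨y⟩
    choose! w hw1 hw2 hw3 hw4 using hthird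
    obtain ⟨i, hi, j, hj, hij, hwij⟩ := exists_ne_map_eq_of_card_lt_of_maps_to
      (s := Wk) (t := B i1 ∩ K) (f := w) (by rw [(hbE i1 hi1).2]; omega) (fun i hi => hw1 i hi)
    obtain ⟨_, hie, hiy⟩ := mem_filter.1 hi
    obtain ⟨_, hje, hjy⟩ := mem_filter.1 hj
    have hwK := (mem_inter.1 (hw1 i hi)).2
    have hcase : ∀ k ∈ D', w i ∈ B k := by
      intro k hk
      obtain ⟨v, hvK, hv1, hv2⟩ := h.meet hr h3 (i := i) (j := k) ⟨e, mem_inter.2 ⟨hie, heK⟩⟩
        (hmD k hk).1
      have h4 : v = w i := by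
        by_contra h5
        have h6 : ({e, y, v, w i} : Finset V) ⊆ B i ∩ K := by
          intro t ht
          simp only [mem_insert, mem_singleton] at ht
          rcases ht with rfl | rfl | rfl | rfl
          · exact mem_inter.2 ⟨hie, heK⟩
          · exact mem_inter.2 ⟨hiy, hy⟩
          · exact mem_inter.2 ⟨hv1, hvK⟩
          · exact mem_inter.2 ⟨hw2 i hi, hwK⟩
        have h7 : ({e, y, v, w i} : Finset V).card = 4 := by
          have k1 : v ≠ e := fun h8 => hno k hk (h8 ▸ hv2)
          have k2 : v ≠ y := fun h8 => (hmD k hk).2.1 (h8 ▸ hv2)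
          rw [card_insert_of_notMem, card_insert_of_notMem, card_insert_of_notMem, card_singleton]
          · simp only [mem_singleton]
            exact h5
          · simp only [mem_insert, mem_singleton, not_or]
            exact ⟨k2.symm, (hw4 i hi).symm⟩
          · simp only [mem_insert, mem_singleton, not_or]
            exact ⟨hey, k1.symm, (hw3 i hi).symm⟩
        have h8 := card_le_card h6
        have h9 := h3 i
        omega
      exact h4 ▸ hv2
    have h4 := hr (w i) hwK
    have h5 : D' ∪ {i, j} ⊆ univ.filter (fun k => w i ∈ B k) := by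
      intro k hk
      refine mem_filter.2 ⟨mem_univ _, ?_⟩
      rcases mem_union.1 hk with h6 | h6
      · exact hcase k h6
      · simp only [mem_insert, mem_singleton] at h6
        rcases h6 with rfl | rfl
        · exact hw2 _ hi
        · rw [hwij]
          exact hw2 _ hj
    have h6 : Disjoint D' {i, j} := by
      rw [disjoint_left]
      intro k hk h7
      simp only [mem_insert, mem_singleton] at h7
      rcases h7 with rfl | rfl
      · exact (hmD _ hk).2.1 hiy
      · exact (hmD _ hk).2.1 hjy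
    have h7 := card_le_card h5
    rw [card_union_of_disjoint h6, card_pair hij, h4] at h7
    omega
  -- a common pair
  have hb1 := hbE i1 hi1
  have hdc : (E \ (B i1 ∩ K)).card = 2 := by
    rw [card_sdiff_of_subset hb1.1, hEc, hb1.2]
  obtain ⟨s, t, hst, hst'⟩ := card_eq_two.1 hdc
  have hs : s ∈ E \ (B i1 ∩ K) := by rw [hst']; simp
  have ht : t ∈ E \ (B i1 ∩ K) := by rw [hst']; simp
  obtain ⟨hsE, hs1⟩ := mem_sdiff.1 hs
  obtain ⟨htE, ht1⟩ := mem_sdiff.1 ht
  obtain ⟨i, hi, hsi⟩ := hmiss s hsE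
  obtain ⟨j, hj, htj⟩ := hmiss t htE
  have hsK := (mem_erase.1 hsE).2
  have htK := (mem_erase.1 htE).2
  set P := (B i ∩ K) ∩ (B i1 ∩ K) with hP
  have hPc : P.card = 2 := by
    have h1 := hpair i hi i1 hi1
    rw [← hP] at h1
    have h2 : P ⊆ (B i ∩ K).erase s := fun v hv => mem_erase.2
      ⟨fun he => hs1 (he ▸ (mem_inter.1 hv).2), (mem_inter.1 hv).1⟩
    have h4 := card_le_card h2
    rw [card_erase_of_mem (mem_inter.2 ⟨hsi, hsK⟩), (hbE i hi).2] at h4
    omega
  have hbi : B i ∩ K = insert s P := by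
    symm
    refine eq_of_subset_of_card_le (insert_subset (mem_inter.2 ⟨hsi, hsK⟩) inter_subset_left) ?_
    rw [card_insert_of_notMem (fun h1 => hs1 (mem_inter.1 h1).2), hPc, (hbE i hi).2]
  set P' := (B j ∩ K) ∩ (B i1 ∩ K) with hP'
  have hPc' : P'.card = 2 := by
    have h1 := hpair j hj i1 hi1
    rw [← hP'] at h1
    have h2 : P' ⊆ (B j ∩ K).erase t := fun v hv => mem_erase.2
      ⟨fun he => ht1 (he ▸ (mem_inter.1 hv).2), (mem_inter.1 hv).1⟩
    have h4 := card_le_card h2
    rw [card_erase_of_mem (mem_inter.2 ⟨htj, htK⟩), (hbE j hj).2] at h4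
    omega
  have hbj : B j ∩ K = insert t P' := by
    symm
    refine eq_of_subset_of_card_le (insert_subset (mem_inter.2 ⟨htj, htK⟩) inter_subset_left) ?_
    rw [card_insert_of_notMem (fun h1 => ht1 (mem_inter.1 h1).2), hPc', (hbE j hj).2]
  have hPP : P = P' := by
    have h1 := hpair i hi j hj
    have h2 : (B i ∩ K) ∩ (B j ∩ K) ⊆ P ∩ P' := by
      rw [hbi, hbj]
      intro v hv
      obtain ⟨h4, h5⟩ := mem_inter.1 hv
      rcases mem_insert.1 h4 with rfl | h6
      · rcases mem_insert.1 h5 with h7 | h7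
        · exact absurd h7 hst
        · exact absurd (mem_inter.1 h7).2 hs1
      · rcases mem_insert.1 h5 with rfl | h7
        · exact absurd (mem_inter.1 h6).2 ht1
        · exact mem_inter.2 ⟨h6, h7⟩
    have h4 := h1.trans (card_le_card h2)
    have h5 : P ∩ P' = P := eq_of_subset_of_card_le inter_subset_left (by omega)
    have h6 : P ∩ P' = P' := eq_of_subset_of_card_le inter_subset_right (by omega)
    rw [← h5, h6]
  have hPall : ∀ k ∈ D', P ⊆ B k ∩ K := by
    intro k hk
    by_contra hno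
    have h1 : ((B k ∩ K) ∩ P).card ≤ 1 := by
      by_contra h2
      push Not at h2
      have h4 : (B k ∩ K) ∩ P = P := eq_of_subset_of_card_le inter_subset_right (by omega)
      exact hno (by rw [← h4]; exact inter_subset_left)
    have hks : s ∈ B k ∩ K := by
      by_contra h2
      have h4 := hpair k hk i hi
      have h5 : (B k ∩ K) ∩ (B i ∩ K) ⊆ (B k ∩ K) ∩ P := by
        rw [hbi]
        intro v hv
        obtain ⟨h6, h7⟩ := mem_inter.1 hv
        rcases mem_insert.1 h7 with rfl | h8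
        · exact absurd h6 h2
        · exact mem_inter.2 ⟨h6, h8⟩
      have h6 := card_le_card h5
      omega
    have hkt : t ∈ B k ∩ K := by
      by_contra h2
      have h4 := hpair k hk j hj
      have h5 : (B k ∩ K) ∩ (B j ∩ K) ⊆ (B k ∩ K) ∩ P := by
        rw [hbj, ← hPP]
        intro v hv
        obtain ⟨h6, h7⟩ := mem_inter.1 hv
        rcases mem_insert.1 h7 with rfl | h8
        · exact absurd h6 h2
        · exact mem_inter.2 ⟨h6, h8⟩
      have h6 := card_le_card h5
      omega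
    have h2 := hpair k hk i1 hi1
    have h4 : (B k ∩ K) ∩ (B i1 ∩ K) ⊆ ((B k ∩ K).erase s).erase t := by
      intro v hv
      obtain ⟨h6, h7⟩ := mem_inter.1 hv
      exact mem_erase.2 ⟨fun he => ht1 (he ▸ h7), mem_erase.2 ⟨fun he => hs1 (he ▸ h7), h6⟩⟩
    have h5 := card_le_card h4
    rw [card_erase_of_mem (mem_erase.2 ⟨hst.symm, hkt⟩), card_erase_of_mem hks,
      (hbE k hk).2] at h5
    omega
  obtain ⟨p, q, hpq, hPpq⟩ := card_eq_two.1 hPc
  have hpP : p ∈ P := by rw [hPpq]; simp
  have hqP : q ∈ P := by rw [hPpq]; simp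
  have hPE : P ⊆ E := fun v hv => (hbE i hi).1 (mem_inter.1 hv).1
  -- a block containing `y`, but no point of `P`
  have hone : ∀ z ∈ P, ((M.filter (fun k => y ∈ B k)).filter (fun k => z ∈ B k)).card ≤ 1 := by
    intro z hz
    have hzK := (mem_erase.1 (hPE hz)).2
    have h1 := hr z hzK
    have h2 : Disjoint D' ((M.filter (fun k => y ∈ B k)).filter (fun k => z ∈ B k)) := by
      rw [disjoint_left]
      intro k hk h4
      exact (hmD k hk).2.1 (mem_filter.1 (mem_filter.1 h4).1).2
    have h4 : D' ∪ ((M.filter (fun k => y ∈ B k)).filter (fun k => z ∈ B k)) ⊆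
        univ.filter (fun k => z ∈ B k) := by
      intro k hk
      refine mem_filter.2 ⟨mem_univ _, ?_⟩
      rcases mem_union.1 hk with h5 | h5
      · exact (mem_inter.1 (hPall k h5 hz)).1
      · exact (mem_filter.1 h5).2
    have h5 := card_le_card h4
    rw [card_union_of_disjoint h2, h1] at h5
    omega
  obtain ⟨k, hk⟩ : ((M.filter (fun k => y ∈ B k)) \ ((M.filter (fun k => y ∈ B k)).filter
      (fun k => p ∈ B k) ∪ (M.filter (fun k => y ∈ B k)).filter (fun k => q ∈ B k))).Nonempty := by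
    rw [← card_pos]
    have h1 := le_card_sdiff ((M.filter (fun k => y ∈ B k)).filter
      (fun k => p ∈ B k) ∪ (M.filter (fun k => y ∈ B k)).filter (fun k => q ∈ B k))
      (M.filter (fun k => y ∈ B k))
    have h2 := card_union_le ((M.filter (fun k => y ∈ B k)).filter
      (fun k => p ∈ B k)) ((M.filter (fun k => y ∈ B k)).filter (fun k => q ∈ B k))
    have h4 := hone p hpP
    have h5 := hone q hqP
    omega
  obtain ⟨hk1, hk2⟩ := mem_sdiff.1 hk
  rw [mem_union, not_or] at hk2
  have hyk : y ∈ B k := (mem_filter.1 hk1).2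
  have hkp : p ∉ B k := fun h1 => hk2.1 (mem_filter.2 ⟨hk1, h1⟩)
  have hkq : q ∉ B k := fun h1 => hk2.2 (mem_filter.2 ⟨hk1, h1⟩)
  have hkne : (B k ∩ K).Nonempty := ⟨y, mem_inter.2 ⟨hyk, hy⟩⟩
  have hR : E \ P ⊆ (B k ∩ K).erase y := by
    intro r hr'
    obtain ⟨hrE, hrP⟩ := mem_sdiff.1 hr'
    obtain ⟨m, hm, hrm⟩ := hmiss r hrE
    have hrK := (mem_erase.1 hrE).2
    obtain ⟨v, hvK, hv1, hv2⟩ := h.meet hr h3 (i := k) (j := m) hkne (hmD m hm).1
    have h1 : B m ∩ K = insert r P := by
      symm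
      refine eq_of_subset_of_card_le (insert_subset (mem_inter.2 ⟨hrm, hrK⟩) (hPall m hm)) ?_
      rw [card_insert_of_notMem hrP, hPc, (hbE m hm).2]
    have h2 : v ∈ B m ∩ K := mem_inter.2 ⟨hv2, hvK⟩
    rw [h1] at h2
    rcases mem_insert.1 h2 with h4 | h4
    · rw [← h4]
      exact mem_erase.2 ⟨fun he => (hmD m hm).2.1 (he ▸ hv2), mem_inter.2 ⟨hv1, hvK⟩⟩
    · exfalso
      rw [hPpq] at h4
      simp only [mem_insert, mem_singleton] at h4
      rcases h4 with h5 | h5
      · exact hkp (h5 ▸ hv1)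
      · exact hkq (h5 ▸ hv1)
  have h1 := card_le_card hR
  rw [card_sdiff_of_subset hPE, hEc, hPc, card_erase_of_mem (mem_inter.2 ⟨hyk, hy⟩),
    h.trace hr h3 hkne] at h1
  omega

end Pool.Agent.Hyp6
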