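import Pool.Agent.Hyp6.Gdr

/-!
# HYP6 GDLK: the two phantom lemma

Two general deletions with the same data, where the new blocks `N'` come from `N` by the exchange of two
points `u`, `u'` of a deleted block `{p, u, u'}`. If at most one other point of `X` or of the trimmed
points has given up a block, then in one of the two new systems two different link classes are
connected (`Gdl.exists_link`). `Gdl.main_link`: the value with one part less.
-/

set_option autoImplicit false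

namespace Pool.Agent.Hyp6

open Finset Pool.Agent.Hyp5

universe u v

namespace Gdl

variable {V : Type v} [DecidableEq V] {ι : Type u} [Fintype ι] {κ : Type u} [Fintype κ]
  {κ' : Type u} [Fintype κ']
  {B : ι → Finset V} {Q L X Y : Finset V} {I : Finset ι} {E : V → Finset ι} {N : κ → Finset V}
  {N' : κ' → Finset V}

/-- two classes are linked: every closed set contains both or avoids both. -/
def Lkd (B : ι → Finset V) (Q L X Y : Finset V) (E : V → Finset ι) (N : κ → Finset V)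
    (a b : Finset V) : Prop :=
  ∀ Z, Closed (gr (absG B (rm Q L X Y) Y E N)) (rm Q L X Y ∪ Y) Z → (a ∪ b) ⊆ Z ∨
    Disjoint (a ∪ b) Z

/-- if no two classes are linked, then the part of a point of `Y` meets `Y` in its class only. -/
theorem exists_part_of (_h : Gdl B Q L X Y I E N) {A : Finset (Finset V)}
    (hcov : ∀ y ∈ Y, ∃ a ∈ A, y ∈ a)
    (hlink : ∀ Z, Closed (gr (absG B (rm Q L X Y) Y E N)) (rm Q L X Y ∪ Y) Z →
      ∀ a ∈ A, a ⊆ Z ∨ Disjoint a Z)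
    (hno : ∀ a ∈ A, ∀ b ∈ A, a ≠ b → ¬ Lkd B Q L X Y E N a b) {y0 : V} (hy0 : y0 ∈ Y) :
    ∃ P, y0 ∈ P ∧ Closed (gr (absG B (rm Q L X Y) Y E N)) (rm Q L X Y ∪ Y) P ∧
      ∀ a ∈ A, y0 ∈ a → P ∩ Y ⊆ a := by
  classical
  obtain ⟨Ks, hK1, hK2, hK3⟩ := exists_parts (absG B (rm Q L X Y) Y E N) (rm Q L X Y ∪ Y)
  have hy0U : y0 ∈ Ks.biUnion id := by
    rw [hK3]
    exact mem_union_right _ hy0
  obtain ⟨P, hP, hyP⟩ := mem_biUnion.1 hy0U
  obtain ⟨k1, k2, k3⟩ := hK1 P hP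
  refine ⟨P, hyP, k2, fun a ha hya y hy => ?_⟩
  obtain ⟨hyP', hyY⟩ := mem_inter.1 hy
  obtain ⟨b, hb, hyb⟩ := hcov y hyY
  by_cases hab : b = a
  · exact hab ▸ hyb
  exfalso
  have haP : a ⊆ P := by
    rcases hlink P k2 a ha with h1 | h1
    · exact h1
    · exact absurd hyP (disjoint_left.1 h1 hya)
  have hbP : b ⊆ P := by
    rcases hlink P k2 b hb with h1 | h1
    · exact h1
    · exact absurd hyP' (disjoint_left.1 h1 hyb)
  refine hno b hb a ha hab fun Z hZ => ?_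
  by_cases hd : Disjoint (b ∪ a) Z
  · exact Or.inr hd
  left
  rw [not_disjoint_iff] at hd
  obtain ⟨z, hzK, hzZ⟩ := hd
  have hzP : z ∈ P := (union_subset hbP haP) hzK
  have hcl : Closed (gr (absG B (rm Q L X Y) Y E N)) P (Z ∩ P) := by
    refine ⟨inter_subset_right, fun v hv' w hw' hvw => ?_⟩
    obtain ⟨h1, h2⟩ := mem_inter.1 hv'
    exact mem_inter.2 ⟨hZ.2 v h1 w (k1 hw') hvw, hw'⟩
  have heq := k3.2 (Z ∩ P) hcl ⟨z, mem_inter.2 ⟨hzZ, hzP⟩⟩
  exact (union_subset hbP haP).trans (by rw [← heq]; exact inter_subset_left)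

/-- **the two phantom lemma**. -/
theorem exists_link [DecidableEq ι] (h : Gdl B Q L X Y I E N) (h' : Gdl B Q L X Y I E N')
    (hv : ViolR B Q) (hLne : L.Nonempty) {S : Finset V} (hSY : S ⊆ Y)
    (hkeep : ∀ y ∈ Y, y ∉ S → kp B L I y ⊆ E y)
    {A A' : Finset (Finset V)} (hcov : ∀ y ∈ Y, ∃ a ∈ A, y ∈ a)
    (hlink : ∀ Z, Closed (gr (absG B (rm Q L X Y) Y E N)) (rm Q L X Y ∪ Y) Z →
      ∀ a ∈ A, a ⊆ Z ∨ Disjoint a Z)
    (hcov' : ∀ y ∈ Y, ∃ a ∈ A', y ∈ a)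
    (hlink' : ∀ Z, Closed (gr (absG B (rm Q L X Y) Y E N')) (rm Q L X Y ∪ Y) Z →
      ∀ a ∈ A', a ⊆ Z ∨ Disjoint a Z)
    {p u u' : V} (hp : p ∈ X) (hu : u ∈ Y) (hu' : u' ∈ Y) (huS : u ∉ S) (huS' : u' ∉ S)
    {j : ι} (hj : B j ∩ Q = {p, u, u'}) (hub : ∀ i, u ∈ B i → i ≠ j → i ∈ kp B L I u)
    (hub' : ∀ i, u' ∈ B i → i ≠ j → i ∈ kp B L I u')
    (hatt : (((X.erase p) ∪ S).filter (fun x => (giv B L X I E x).Nonempty)).card ≤ 1)
    (hm : ∀ a ∈ A, ∀ a' ∈ A', u ∈ a → u ∈ a' → a ∩ a' ⊆ {u})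
    (hm' : ∀ a ∈ A, ∀ a' ∈ A', u' ∈ a → u' ∈ a' → a ∩ a' ⊆ {u'}) :
    (∃ a ∈ A, ∃ b ∈ A, a ≠ b ∧ Lkd B Q L X Y E N a b) ∨
      (∃ a ∈ A', ∃ b ∈ A', a ≠ b ∧ Lkd B Q L X Y E N' a b) := by
  classical
  by_contra hcon
  push Not at hcon
  obtain ⟨hno, hno'⟩ := hcon
  have hw := h.wir
  have hw' := h'.wir
  obtain ⟨P1, hu1, hP1, hP1a⟩ := h.exists_part_of hcov hlink hno hu
  obtain ⟨P2, hu2, hP2, hP2a⟩ := h'.exists_part_of hcov' hlink' hno' hu
  obtain ⟨R1, hr1, hR1, hR1a⟩ := h.exists_part_of hcov hlink hno hu'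
  obtain ⟨R2, hr2, hR2, hR2a⟩ := h'.exists_part_of hcov' hlink' hno' hu'
  set W2 := insert p (((X.erase p) ∪ S).filter (fun x => (giv B L X I E x).Nonempty)) with hW2
  have hW2c : W2.card ≤ 2 := (card_insert_le _ _).trans (by omega)
  have hW2s : W2 ⊆ X ∪ Y := by
    intro x hx
    rcases mem_insert.1 hx with rfl | hx
    · exact mem_union_left _ hp
    · rcases mem_union.1 (mem_filter.1 hx).1 with h1 | h1
      · exact mem_union_left _ (erase_subset _ _ h1)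
      · exact mem_union_right _ (hSY h1)
  have hXW : ∀ x ∈ X, (giv B L X I E x).Nonempty → x ∈ W2 := by
    intro x hx hg
    by_cases he : x = p
    · rw [he]
      exact mem_insert_self _ _
    · exact mem_insert_of_mem (mem_filter.2 ⟨mem_union_left _ (mem_erase.2 ⟨he, hx⟩), hg⟩)
  -- the neighbours of an intersection of parts
  have key : ∀ (P P' : Finset V) (t : V),
      Closed (gr (absG B (rm Q L X Y) Y E N)) (rm Q L X Y ∪ Y) P →
      Closed (gr (absG B (rm Q L X Y) Y E N')) (rm Q L X Y ∪ Y) P' →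
      (∀ y ∈ P ∩ P', y ∈ Y → y = t) → t ∈ Y → t ∉ S →
      (∀ i, t ∈ B i → i ≠ j → i ∈ kp B L I t) →
      ∀ w ∈ P ∩ P', ∀ v ∈ Q, ∀ i, w ≠ v → w ∈ B i → v ∈ B i →
        v ∈ P ∩ P' ∨ v ∈ W2 ∨ (w = t ∧ i = j) := by
    intro P P' t hP hP' hPY htY htS htb w hw1 v hvQ i hne hwi hvi
    obtain ⟨hwP, hwP'⟩ := mem_inter.1 hw1
    -- the block is kept at `w` or it is the deleted block
    have hold : (i ∈ kp B L I v ∧ w ∈ absG B (rm Q L X Y) Y E N (Sum.inl i) ∧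
        w ∈ absG B (rm Q L X Y) Y E N' (Sum.inl i)) ∨ (w = t ∧ i = j) := by
      rcases mem_union.1 (hP.1 hwP) with hwC | hwY
      · left
        refine ⟨mem_kp_of h.full h.con hvi ⟨w, mem_inter.2 ⟨hwi, hwC⟩⟩, ?_, ?_⟩
        · exact mem_absG_inl.2 (Or.inl ⟨hwi, hwC⟩)
        · exact mem_absG_inl.2 (Or.inl ⟨hwi, hwC⟩)
      · have hwt := hPY w hw1 hwY
        subst hwt
        by_cases hij : i = j
        · exact Or.inr ⟨rfl, hij⟩
        · left
          have hk := htb i hwi hij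
          have hE := hkeep w htY htS hk
          obtain ⟨_, k2, k3⟩ := mem_kp.1 hk
          exact ⟨mem_kp.2 ⟨hvi, k2, k3⟩, mem_absG_inl.2 (Or.inr ⟨hwY, hE⟩),
            mem_absG_inl.2 (Or.inr ⟨hwY, hE⟩)⟩
    rcases hold with ⟨hk, hwN, hwN'⟩ | hold
    swap
    · exact Or.inr (Or.inr hold)
    have hin : ∀ (hvU : v ∈ rm Q L X Y ∪ Y), v ∈ absG B (rm Q L X Y) Y E N (Sum.inl i) →
        v ∈ absG B (rm Q L X Y) Y E N' (Sum.inl i) → v ∈ P ∩ P' := fun hvU h1 h2 =>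
      mem_inter.2 ⟨hP.2 w hwP v hvU ⟨hne, Sum.inl i, hwN, h1⟩,
        hP'.2 w hwP' v hvU ⟨hne, Sum.inl i, hwN', h2⟩⟩
    by_cases hvC : v ∈ rm Q L X Y
    · exact Or.inl (hin (mem_union_left _ hvC) (mem_absG_inl.2 (Or.inl ⟨hvi, hvC⟩))
        (mem_absG_inl.2 (Or.inl ⟨hvi, hvC⟩)))
    by_cases hvL : v ∈ L
    · exact absurd ⟨v, mem_inter.2 ⟨hvi, hvL⟩⟩ (mem_kp.1 hk).2.1
    by_cases hvX : v ∈ X
    · refine Or.inr (Or.inl (hXW v hvX ⟨i, ?_⟩))
      unfold giv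
      rw [if_pos hvX]
      exact hk
    by_cases hvY : v ∈ Y
    swap
    · exact absurd (mem_rm.2 ⟨hvQ, hvL, hvX, hvY⟩) hvC
    by_cases hiE : i ∈ E v
    · exact Or.inl (hin (mem_union_right _ hvY) (mem_absG_inl.2 (Or.inr ⟨hvY, hiE⟩))
        (mem_absG_inl.2 (Or.inr ⟨hvY, hiE⟩)))
    · have hvS : v ∈ S := by
        by_contra h1
        exact hiE (hkeep v hvY h1 hk)
      refine Or.inr (Or.inl (mem_insert_of_mem (mem_filter.2 ⟨mem_union_right _ hvS, i, ?_⟩)))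
      unfold giv
      rw [if_neg hvX]
      exact mem_sdiff.2 ⟨hk, hiE⟩
  have hPY : ∀ y ∈ P1 ∩ P2, y ∈ Y → y = u := by
    intro y hy hyY
    obtain ⟨h1, h2⟩ := mem_inter.1 hy
    obtain ⟨a, ha, hua⟩ := hcov u hu
    obtain ⟨b, hb, hub2⟩ := hcov' u hu
    exact mem_singleton.1 (hm a ha b hb hua hub2 (mem_inter.2
      ⟨hP1a a ha hua (mem_inter.2 ⟨h1, hyY⟩), hP2a b hb hub2 (mem_inter.2 ⟨h2, hyY⟩)⟩))
  have hRY : ∀ y ∈ R1 ∩ R2, y ∈ Y → y = u' := by
    intro y hy hyY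
    obtain ⟨h1, h2⟩ := mem_inter.1 hy
    obtain ⟨a, ha, hua⟩ := hcov u' hu'
    obtain ⟨b, hb, hub2⟩ := hcov' u' hu'
    exact mem_singleton.1 (hm' a ha b hb hua hub2 (mem_inter.2
      ⟨hR1a a ha hua (mem_inter.2 ⟨h1, hyY⟩), hR2a b hb hub2 (mem_inter.2 ⟨h2, hyY⟩)⟩))
  set W := (P1 ∩ P2) ∪ (R1 ∩ R2) with hW
  have huW : u ∈ W := mem_union_left _ (mem_inter.2 ⟨hu1, hu2⟩)
  have huW' : u' ∈ W := mem_union_right _ (mem_inter.2 ⟨hr1, hr2⟩)
  have hWU : W ⊆ rm Q L X Y ∪ Y :=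
    union_subset (inter_subset_left.trans hP1.1) (inter_subset_left.trans hR1.1)
  have hWn : ∀ w ∈ W, w ∉ W2 := by
    intro w hw1 hw2
    have hwY : w ∈ Y → w = u ∨ w = u' := by
      intro hy
      rcases mem_union.1 hw1 with h1 | h1
      · exact Or.inl (hPY w h1 hy)
      · exact Or.inr (hRY w h1 hy)
    rcases mem_union.1 (hWU hw1) with h1 | h1
    · obtain ⟨_, _, h2, h3⟩ := mem_rm.1 h1
      rcases mem_union.1 (hW2s hw2) with h4 | h4
      · exact h2 h4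
      · exact h3 h4
    · have hwX : w ∉ X := fun h2 => disjoint_left.1 h.dXY h2 h1
      rcases mem_insert.1 hw2 with h2 | h2
      · exact hwX (h2 ▸ hp)
      · rcases mem_union.1 (mem_filter.1 h2).1 with h3 | h3
        · exact hwX (erase_subset _ _ h3)
        · rcases hwY h1 with h4 | h4
          · exact huS (h4 ▸ h3)
          · exact huS' (h4 ▸ h3)
  have hWQ : ∀ w ∈ W, w ∈ Q := by
    intro w hw1
    rcases mem_union.1 (hWU hw1) with h1 | h1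
    · exact (mem_rm.1 h1).1
    · exact h.YQ h1
  have hfin : ∀ w ∈ W, ∀ v, v ∉ W2 → v ∈ Q → ∀ i, w ≠ v → w ∈ B i → v ∈ B i → v ∈ W := by
    intro w hw1 v hvW hvQ i hne hwi hvi
    have hj' : i = j → v ∈ W := by
      rintro rfl
      have h1 : v ∈ ({p, u, u'} : Finset V) := by
        rw [← hj]
        exact mem_inter.2 ⟨hvi, hvQ⟩
      rw [mem_insert, mem_insert, mem_singleton] at h1
      rcases h1 with rfl | rfl | rfl
      · exact absurd (mem_insert_self _ _) hvW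
      · exact huW
      · exact huW'
    rcases mem_union.1 hw1 with h1 | h1
    · rcases key P1 P2 u hP1 hP2 hPY hu huS hub w h1 v hvQ i hne hwi hvi with h2 | h2 | h2
      · exact mem_union_left _ h2
      · exact absurd h2 hvW
      · exact hj' h2.2
    · rcases key R1 R2 u' hR1 hR2 hRY hu' huS' hub' w h1 v hvQ i hne hwi hvi with h2 | h2 | h2
      · exact mem_union_right _ h2
      · exact absurd h2 hvW
      · exact hj' h2.2
  have hcl : Closed (gr B) (Q \ W2) W := by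
    refine ⟨fun w hw1 => mem_sdiff.2 ⟨hWQ w hw1, hWn w hw1⟩, fun w hw1 v hv1 hadj => ?_⟩
    obtain ⟨hne, i, hi1, hi2⟩ := hadj
    obtain ⟨hvQ, hvW⟩ := mem_sdiff.1 hv1
    exact hfin w hw1 v hvW hvQ i hne hi1 hi2
  have hW2Q : W2 ⊆ Q := hW2s.trans (union_subset h.XQ h.YQ)
  have hconn := hv.conn_sdiff (X := W2) hW2Q hW2c
  have heq := hconn.2 W hcl ⟨u, huW⟩
  obtain ⟨l, hl⟩ := hLne
  have hlW : l ∈ W := by
    rw [heq]
    refine mem_sdiff.2 ⟨h.LQ hl, fun h4 => ?_⟩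
    rcases mem_union.1 (hW2s h4) with h5 | h5
    · exact disjoint_left.1 h.dLX hl h5
    · exact disjoint_left.1 h.dLY hl h5
  rcases mem_union.1 (hWU hlW) with h1 | h1
  · exact (mem_rm.1 h1).2.1 hl
  · exact disjoint_left.1 h.dLY hl h1

/-- **the general deletion with two linked classes**: one part less. -/
theorem main_lk (h : Gdl B Q L X Y I E N) (hv : ViolR B Q) (hLne : L.Nonempty)
    {n : ℕ} (ih : IHE.{u} V n) (ihr : IHR.{u} V n)
    (hn : (rm Q L X Y).card + Y.card < n) (hYne : Y.Nonempty) {S : Finset V} (hSY : S ⊆ Y)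
    (hkeep : ∀ y ∈ Y, y ∉ S → ∀ i, y ∈ B i → (B i ∩ rm Q L X Y).Nonempty → i ∈ E y)
    {A : Finset (Finset V)} (hAY : ∀ a ∈ A, a ⊆ Y) (hcov : ∀ y ∈ Y, ∃ a ∈ A, y ∈ a)
    (hlink : ∀ Z, Closed (gr (absG B (rm Q L X Y) Y E N)) (rm Q L X Y ∪ Y) Z →
      ∀ a ∈ A, a ⊆ Z ∨ Disjoint a Z)
    (hsm : ∀ a ∈ A, ∃ c, (N c).Nonempty ∧ (N c).card ≤ 2 ∧ N c ⊆ a) {m : ℕ}
    (hm : ∑ x ∈ X, min (5 - los B L I x) (m + 1) +
      ∑ y ∈ S, min (nnd N y - los B L I y) (m + 1) < 3 * (m + 1))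
    (hlk : ∃ a ∈ A, ∃ b ∈ A, a ≠ b ∧ Lkd B Q L X Y E N a b) :
    dv B Q L + 5 * (X.card : ℤ) + 4 * (I.card : ℤ) + 2 * ((lost B Q L X Y I E).card : ℤ)
       - 4 * (Fintype.card κ : ℤ) - ((A.card : ℤ) - 1 + m) ≤ dv B Q Q ∧
    ((X.card : ℤ) ≤ sv B Q - sv B L →
      dv B Q L + 5 * (X.card : ℤ) + 4 * (I.card : ℤ) + 2 * ((lost B Q L X Y I E).card : ℤ)
       - 4 * (Fintype.card κ : ℤ) + 1 - ((A.card : ℤ) - 1 + m) ≤ dv B Q Q) := by
  classical
  obtain ⟨a, ha, b, hb, hab, hl⟩ := hlk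
  set A2 : Finset (Finset V) := insert (a ∪ b) ((A.erase a).erase b) with hA2
  have hbe : b ∈ A.erase a := mem_erase.2 ⟨hab.symm, hb⟩
  have hc : A2.card + 1 ≤ A.card := by
    have h1 := card_insert_le (a ∪ b) ((A.erase a).erase b)
    have h2 := card_erase_add_one ha
    have h3 := card_erase_add_one hbe
    rw [← hA2] at h1
    omega
  have hmem : ∀ c ∈ A2, c = a ∪ b ∨ c ∈ A := by
    intro c hc1
    rcases mem_insert.1 hc1 with h1 | h1
    · exact Or.inl h1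
    · exact Or.inr (mem_of_mem_erase (mem_of_mem_erase h1))
  obtain ⟨h1, h2⟩ := h.main_ext hv hLne ih ihr hn hYne hSY hkeep (A := A2)
    (fun c hc1 => by
      rcases hmem c hc1 with rfl | h1
      · exact union_subset (hAY a ha) (hAY b hb)
      · exact hAY c h1)
    (fun y hy => by
      obtain ⟨c, hc1, hyc⟩ := hcov y hy
      by_cases hca : c = a
      · exact ⟨a ∪ b, mem_insert_self _ _, mem_union_left _ (hca ▸ hyc)⟩
      by_cases hcb : c = b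
      · exact ⟨a ∪ b, mem_insert_self _ _, mem_union_right _ (hcb ▸ hyc)⟩
      · exact ⟨c, mem_insert_of_mem (mem_erase.2 ⟨hcb, mem_erase.2 ⟨hca, hc1⟩⟩), hyc⟩)
    (fun Z hZ c hc1 => by
      rcases hmem c hc1 with rfl | h1
      · exact hl Z hZ
      · exact hlink Z hZ c h1)
    (fun c hc1 => by
      rcases hmem c hc1 with rfl | h1
      · obtain ⟨d, hd1, hd2, hd3⟩ := hsm a ha
        exact ⟨d, hd1, hd2, hd3.trans subset_union_left⟩
      · exact hsm c h1) hm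
  have hc' : (A2.card : ℤ) + 1 ≤ A.card := by exact_mod_cast hc
  exact ⟨by linarith, fun hs => by
    have := h2 hs
    linarith⟩

end Gdl

end Pool.Agent.Hyp6
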