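import Pool.Agent.Hyp6.L3S5

/-!
# HYP6 GDP: the general deletion with several parts

`dv_parts`: a system whose closed sets contain one of `p` link classes, each with a small block, has
value at least `-p`, and at least `1 - p` if the value `sv` is not negative. `Gdl.main_parts`: the
general deletion when the new system falls into at most `p` parts.
-/

set_option autoImplicit false

namespace Pool.Agent.Hyp6

open Finset Pool.Agent.Hyp5

universe u v

section

variable {V : Type v} [DecidableEq V] {ι : Type u} [Fintype ι] {B : ι → Finset V}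

theorem closed_compl {G : SimpleGraph V} {W Z : Finset V} (hZ : Closed G W Z) :
    Closed G W (W \ Z) :=
  ⟨sdiff_subset, fun x hx y hy hxy => mem_sdiff.2 ⟨hy, fun h =>
    (mem_sdiff.1 hx).2 (hZ.2 y h x (mem_sdiff.1 hx).1 hxy.symm)⟩⟩

theorem dv_split {W Z : Finset V} (hr : Reg B W) (hZ : Closed (gr B) W Z) :
    dv B Z Z + dv B (W \ Z) (W \ Z) ≤ dv B W W ∧ sv B W = sv B Z + sv B (W \ Z) := by
  have hsep : Sep B Z (W \ Z) := sep_of_closed hZ sdiff_subset disjoint_sdiff
  have hcW := cov_of_reg hr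
  have hcZ : Cov B Z := hcW.mono hZ.1
  have hcD : Cov B (W \ Z) := hcW.mono sdiff_subset
  have hd : Disjoint Z (W \ Z) := disjoint_sdiff
  have hu : Z ∪ (W \ Z) = W := union_sdiff_of_subset hZ.1
  have h1 := sv_add hcZ hcD hsep hd
  have h2 := G_add (B := B) hd hsep
  have h3 := ee_union (B := B) (Q := W) hd
  have h4 : ee B W Z ≤ ee B Z Z := ee_le_ee (Subset.refl _) hZ.1
  have h5 : ee B W (W \ Z) ≤ ee B (W \ Z) (W \ Z) := ee_le_ee (Subset.refl _) sdiff_subset
  rw [hu] at h1 h2 h3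
  refine ⟨?_, h1⟩
  unfold dv Pv
  rw [h1, h2, h3]
  push_cast
  have h4' : (ee B W Z : ℤ) ≤ ee B Z Z := by exact_mod_cast h4
  have h5' : (ee B W (W \ Z) : ℤ) ≤ ee B (W \ Z) (W \ Z) := by exact_mod_cast h5
  linarith

/-- **the value of a system in parts**. -/
theorem dv_parts {n : ℕ} (ih : IHE.{u} V n) (ihr : IHR.{u} V n) :
    ∀ (W : Finset V) (A : Finset (Finset V)), W.card < n → Reg B W → Tr3 B W →
      (∀ a ∈ A, a ⊆ W) →
      (∀ Z, Closed (gr B) W Z → ∀ a ∈ A, a ⊆ Z ∨ Disjoint a Z) →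
      (∀ Z, Closed (gr B) W Z → Z.Nonempty → ∃ a ∈ A, a ⊆ Z) →
      (∀ a ∈ A, ∃ i, (B i ∩ W).Nonempty ∧ (B i ∩ W).card ≤ 2 ∧ B i ∩ W ⊆ a) →
      W.Nonempty → -(A.card : ℤ) ≤ dv B W W ∧ (0 ≤ sv B W → 1 - (A.card : ℤ) ≤ dv B W W) := by
  classical
  intro W
  induction W using Finset.strongInduction with
  | H W IH =>
    intro A hn hr h3 hAW hlink hmeet hsm hne
    by_cases hc : Conn (gr B) W
    · obtain ⟨a, ha, haW⟩ := hmeet W ⟨Subset.refl _, fun _ _ y hy _ => hy⟩ hne
      have hA1 : 1 ≤ A.card := card_pos.2 ⟨a, ha⟩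
      obtain ⟨i, hi1, hi2, _⟩ := hsm a ha
      have hK : ¬ KT B W := by
        intro hK
        have := hK.trace hr h3 hi1
        omega
      have h1 := ih ι B W hn hr h3 hc hK
      have h2 := ih_nonneg ih ihr hn hr h3 hc hK
      unfold dv
      constructor
      · have : (1 : ℤ) ≤ (A.card : ℤ) := by exact_mod_cast hA1
        linarith
      · intro hs
        have := h2 hs
        have : (1 : ℤ) ≤ (A.card : ℤ) := by exact_mod_cast hA1
        linarith
    · have hex : ∃ Z, Closed (gr B) W Z ∧ Z.Nonempty ∧ Z ≠ W := by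
        by_contra hcon
        push Not at hcon
        exact hc ⟨hne, fun Z hZ hZne => hcon Z hZ hZne⟩
      obtain ⟨Z, hZ, hZne, hZW⟩ := hex
      have hD := closed_compl hZ
      have hDne : (W \ Z).Nonempty := by
        rw [sdiff_nonempty]
        exact fun h => hZW (subset_antisymm hZ.1 h)
      set A1 := A.filter (fun a => a ⊆ Z) with hA1
      set A2 := A.filter (fun a => a ⊆ W \ Z) with hA2
      have hdisA : Disjoint A1 A2 := by
        rw [disjoint_left]
        intro a ha1 ha2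
        obtain ⟨ha, h1⟩ := mem_filter.1 ha1
        obtain ⟨_, h2⟩ := mem_filter.1 ha2
        obtain ⟨i, ⟨w, hw⟩, _, hi3⟩ := hsm a ha
        exact (mem_sdiff.1 (h2 (hi3 hw))).2 (h1 (hi3 hw))
      have hcardA : A1.card + A2.card ≤ A.card := by
        rw [← card_union_of_disjoint hdisA]
        exact card_le_card (union_subset (filter_subset _ _) (filter_subset _ _))
      have key : ∀ (Y : Finset V) (A' : Finset (Finset V)), Closed (gr B) W Y → Y.Nonempty →
          Y ⊂ W → A' = A.filter (fun a => a ⊆ Y) →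
          -(A'.card : ℤ) ≤ dv B Y Y ∧ (0 ≤ sv B Y → 1 - (A'.card : ℤ) ≤ dv B Y Y) := by
        intro Y A' hY hYne hYW hA'
        have hinter : ∀ i, (B i ∩ Y).Nonempty → B i ∩ Y = B i ∩ W := by
          intro i ⟨y, hy⟩
          obtain ⟨hyi, hyY⟩ := mem_inter.1 hy
          ext w
          simp only [mem_inter]
          constructor
          · rintro ⟨h1, h2⟩
            exact ⟨h1, hY.1 h2⟩
          · rintro ⟨h1, h2⟩
            refine ⟨h1, ?_⟩
            by_cases h5 : y = w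
            · rw [← h5]
              exact hyY
            · exact hY.2 y hyY w h2 ⟨h5, i, hyi, h1⟩
        refine IH Y hYW A' (lt_of_lt_of_le (card_lt_card hYW) hn.le) (fun v hv => hr v (hY.1 hv))
          (fun i => (card_le_card (inter_subset_inter_left hY.1)).trans (h3 i)) ?_ ?_ ?_ ?_ hYne
        · intro a ha
          rw [hA'] at ha
          exact (mem_filter.1 ha).2
        · intro Z' hZ' a ha
          rw [hA'] at ha
          exact hlink Z' (closed_trans hY hZ') a (mem_filter.1 ha).1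
        · intro Z' hZ' hZne'
          obtain ⟨a, ha, haZ⟩ := hmeet Z' (closed_trans hY hZ') hZne'
          refine ⟨a, ?_, haZ⟩
          rw [hA']
          exact mem_filter.2 ⟨ha, haZ.trans hZ'.1⟩
        · intro a ha
          rw [hA'] at ha
          obtain ⟨ha1, ha2⟩ := mem_filter.1 ha
          obtain ⟨i, hi1, hi2, hi3⟩ := hsm a ha1
          have h5 : (B i ∩ Y).Nonempty := by
            obtain ⟨w, hw⟩ := hi1
            exact ⟨w, mem_inter.2 ⟨(mem_inter.1 hw).1, ha2 (hi3 hw)⟩⟩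
          refine ⟨i, h5, ?_, ?_⟩
          · rw [hinter i h5]
            exact hi2
          · rw [hinter i h5]
            exact hi3
      have hZss : Z ⊂ W := ssubset_of_subset_of_ne hZ.1 hZW
      have hDss : W \ Z ⊂ W := by
        refine ssubset_of_subset_of_ne sdiff_subset fun h => ?_
        obtain ⟨z, hz⟩ := hZne
        have : z ∈ W \ Z := by
          rw [h]
          exact hZ.1 hz
        exact (mem_sdiff.1 this).2 hz
      obtain ⟨k1, k2⟩ := key Z A1 hZ hZne hZss rfl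
      obtain ⟨k3, k4⟩ := key (W \ Z) A2 hD hDne hDss rfl
      obtain ⟨h1, h2⟩ := dv_split hr hZ
      have hcA : (A1.card : ℤ) + A2.card ≤ A.card := by exact_mod_cast hcardA
      constructor
      · linarith
      · intro hs
        rw [h2] at hs
        rcases le_or_gt 0 (sv B Z) with h5 | h5
        · have := k2 h5
          linarith
        · have := k4 (by linarith)
          linarith

end

namespace Gdl

variable {V : Type v} [DecidableEq V] {ι : Type u} [Fintype ι] {κ : Type u} [Fintype κ]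
  {B : ι → Finset V} {Q L X Y : Finset V} {I : Finset ι} {E : V → Finset ι} {N : κ → Finset V}

/-- the general deletion from a bound of the value of the new system. -/
theorem main_gen (h : Gdl B Q L X Y I E N) {p : ℤ}
    (hp : -p ≤ dv (absG B (rm Q L X Y) Y E N) (rm Q L X Y ∪ Y) (rm Q L X Y ∪ Y))
    (hp2 : 0 ≤ sv (absG B (rm Q L X Y) Y E N) (rm Q L X Y ∪ Y) →
      1 - p ≤ dv (absG B (rm Q L X Y) Y E N) (rm Q L X Y ∪ Y) (rm Q L X Y ∪ Y)) :
    dv B Q L + 5 * (X.card : ℤ) + 4 * (I.card : ℤ) + 2 * ((lost B Q L X Y I E).card : ℤ)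
       - 4 * (Fintype.card κ : ℤ) - p ≤ dv B Q Q ∧
    ((X.card : ℤ) ≤ sv B Q - sv B L →
      dv B Q L + 5 * (X.card : ℤ) + 4 * (I.card : ℤ) + 2 * ((lost B Q L X Y I E).card : ℤ)
       - 4 * (Fintype.card κ : ℤ) + 1 - p ≤ dv B Q Q) := by
  classical
  have hw := h.wir
  have hrho := h.rho_le
  have hcm := h.cm_ge
  set C := rm Q L X Y with hC
  set B' := absG B C Y E N with hB'
  set Y1 := Y.filter (fun y => ∀ i, B i ∩ Q = {y} → i ∈ E y) with hY1
  set Y3 := Y.filter (fun y => ¬ ∀ i, B i ∩ Q = {y} → i ∈ E y) with hY3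
  have hY1Y : Y1 ⊆ Y := filter_subset _ _
  have hY3Y : Y3 ⊆ Y := filter_subset _ _
  have hee := hw.ee_ge (Y1 := Y1) (Y2 := ∅) hY1Y (empty_subset _)
    (disjoint_empty_right _) (fun y hy => (mem_filter.1 hy).2)
    (fun y hy => absurd hy (notMem_empty _))
  rw [← hB', card_empty] at hee
  have hlost := h.ee_lost (Y3 := Y3) hY3Y (fun y hy => by
    have h1 := (mem_filter.1 hy).2
    push Not at h1
    exact h1)
  have hdC : Disjoint ((L ∪ X) ∪ Y) C := disjoint_sdiff
  have hQe : ((L ∪ X) ∪ Y) ∪ C = Q :=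
    union_sdiff_of_subset (union_subset (union_subset h.LQ h.XQ) h.YQ)
  have hdY : Disjoint (L ∪ X) Y := by
    rw [disjoint_union_left]
    exact ⟨h.dLY, h.dXY⟩
  have heQ : ee B Q Q = ee B Q L + ee B Q X + ee B Q Y + ee B Q C := by
    have h1 := ee_union (B := B) (Q := Q) hdC
    rw [hQe, ee_union hdY, ee_union h.dLX] at h1
    exact h1
  have heY : ee B Q Y = ee B Q Y1 + ee B Q Y3 := by
    have h2 : Y1 ∪ Y3 = Y := filter_union_filter_not_eq _ _
    have h3 : Disjoint Y1 Y3 := disjoint_filter_filter_not _ _ _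
    have h4 := ee_union (B := B) (Q := Q) h3
    rw [h2] at h4
    exact h4
  have hcard : Q.card = L.card + X.card + Y.card + C.card := by
    conv_lhs => rw [← hQe]
    rw [card_union_of_disjoint hdC, card_union_of_disjoint hdY, card_union_of_disjoint h.dLX]
  have hCY : (C ∪ Y).card = C.card + Y.card := card_union_of_disjoint hw.dis
  have hPv' := Pv_eq (B := B') (C ∪ Y)
  have hPvQ := Pv_eq (B := B) Q
  have hPvL := Pv_eq (B := B) L
  have hsv' : sv B' (C ∪ Y) = (C.card : ℤ) + Y.card - 2 * (rho B' (C ∪ Y) : ℤ) := by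
    unfold sv
    rw [hCY]
    push_cast
    ring
  have hsvQ : sv B Q = (L.card : ℤ) + X.card + Y.card + C.card - 2 * (rho B Q : ℤ) := by
    unfold sv
    rw [hcard]
    push_cast
    ring
  have hsvL : sv B L = (L.card : ℤ) - 2 * (rho B L : ℤ) := rfl
  rw [hCY] at hPv'
  rw [hcard] at hPvQ
  unfold dv at hp hp2 ⊢
  push_cast at hPv' hPvQ
  rw [hPvQ, hPvL, heQ, heY]
  rw [hPv'] at hp hp2
  rw [hsv'] at hp2
  push_cast
  constructor
  · omega
  · intro hX
    rw [hsvQ, hsvL] at hX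
    rcases Nat.lt_or_ge (rho B Q) (rho B L + rho B' (C ∪ Y)) with h1 | h1
    · omega
    · have h2 := hp2 (by omega)
      omega

/-- every closed set of the new system meets `Y`. -/
theorem meets (h : Gdl B Q L X Y I E N) (hLne : L.Nonempty) {S : Finset V} (hSY : S ⊆ Y)
    (hconn : Conn (gr B) (Q \ (X ∪ S)))
    (hkeep : ∀ y ∈ Y, y ∉ S → ∀ i, y ∈ B i → (B i ∩ rm Q L X Y).Nonempty → i ∈ E y)
    {W : Finset V} (hW : Closed (gr (absG B (rm Q L X Y) Y E N)) (rm Q L X Y ∪ Y) W)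
    (hne : W.Nonempty) : (W ∩ Y).Nonempty := by
  classical
  have hw := h.wir
  by_contra h0
  rw [not_nonempty_iff_eq_empty] at h0
  have hWY : ∀ v ∈ W, v ∉ Y := by
    intro v hv hvY
    have h1 : v ∈ W ∩ Y := mem_inter.2 ⟨hv, hvY⟩
    rw [h0] at h1
    exact notMem_empty _ h1
  have hWrm : ∀ v ∈ W, v ∈ rm Q L X Y := by
    intro v hv
    rcases mem_union.1 (hW.1 hv) with h1 | h1
    · exact h1
    · exact absurd h1 (hWY v hv)
  have hcl : Closed (gr B) (Q \ (X ∪ S)) W := by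
    refine ⟨fun v hv => ?_, fun w hw1 v hv hwv => ?_⟩
    · obtain ⟨h1, _, h2, h3⟩ := mem_rm.1 (hWrm v hv)
      refine mem_sdiff.2 ⟨h1, fun h4 => ?_⟩
      rcases mem_union.1 h4 with h5 | h5
      · exact h2 h5
      · exact h3 (hSY h5)
    · obtain ⟨hvQ, hvXS⟩ := mem_sdiff.1 hv
      rw [mem_union, not_or] at hvXS
      obtain ⟨hvX, hvS⟩ := hvXS
      obtain ⟨hne', i, hi1, hi2⟩ := hwv
      have hwC := hWrm w hw1
      obtain ⟨hwQ, hwL, hwX, hwY⟩ := mem_rm.1 hwC
      by_cases hvC : v ∈ rm Q L X Y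
      · exact hW.2 w hw1 v (mem_union_left _ hvC) (hw.adj_C hwC hvC ⟨hne', i, hi1, hi2⟩)
      exfalso
      by_cases hvL : v ∈ L
      · rcases mem_union.1 (h.con i ⟨v, mem_inter.2 ⟨hi2, hvL⟩⟩ (mem_inter.2 ⟨hi1, hwQ⟩)) with
          h2 | h2
        · rcases mem_union.1 h2 with h3 | h3
          · exact hwL h3
          · exact hwX h3
        · exact hwY h2
      by_cases hvY : v ∈ Y
      · have h1 := hkeep v hvY hvS i hi2 ⟨w, mem_inter.2 ⟨hi1, hwC⟩⟩
        have h2 : v ∈ W := hW.2 w hw1 v (mem_union_right _ hvY)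
          (hw.adj_Y hvY hwC h1 hi1).symm
        exact hWY v h2 hvY
      · exact hvC (mem_rm.2 ⟨hvQ, hvL, hvX, hvY⟩)
  have heq := hconn.2 W hcl hne
  obtain ⟨l, hl⟩ := hLne
  have hlm : l ∈ Q \ (X ∪ S) := by
    refine mem_sdiff.2 ⟨h.LQ hl, fun h1 => ?_⟩
    rcases mem_union.1 h1 with h2 | h2
    · exact disjoint_left.1 h.dLX hl h2
    · exact disjoint_left.1 h.dLY hl (hSY h2)
  rw [← heq] at hlm
  exact (mem_rm.1 (hWrm l hlm)).2.1 hl

/-- **the general deletion with several parts**. -/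
theorem main_parts (h : Gdl B Q L X Y I E N) {n : ℕ} (ih : IHE.{u} V n) (ihr : IHR.{u} V n)
    (hn : (rm Q L X Y).card + Y.card < n) (hYne : Y.Nonempty)
    {A : Finset (Finset V)} (hAY : ∀ a ∈ A, a ⊆ Y) (hcov : ∀ y ∈ Y, ∃ a ∈ A, y ∈ a)
    (hlink : ∀ Z, Closed (gr (absG B (rm Q L X Y) Y E N)) (rm Q L X Y ∪ Y) Z →
      ∀ a ∈ A, a ⊆ Z ∨ Disjoint a Z)
    (hmeet : ∀ Z, Closed (gr (absG B (rm Q L X Y) Y E N)) (rm Q L X Y ∪ Y) Z → Z.Nonempty →
      (Z ∩ Y).Nonempty)
    (hsm : ∀ a ∈ A, ∃ c, (N c).Nonempty ∧ (N c).card ≤ 2 ∧ N c ⊆ a) :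
    dv B Q L + 5 * (X.card : ℤ) + 4 * (I.card : ℤ) + 2 * ((lost B Q L X Y I E).card : ℤ)
       - 4 * (Fintype.card κ : ℤ) - A.card ≤ dv B Q Q ∧
    ((X.card : ℤ) ≤ sv B Q - sv B L →
      dv B Q L + 5 * (X.card : ℤ) + 4 * (I.card : ℤ) + 2 * ((lost B Q L X Y I E).card : ℤ)
       - 4 * (Fintype.card κ : ℤ) + 1 - A.card ≤ dv B Q Q) := by
  classical
  have hw := h.wir
  have hCY : (rm Q L X Y ∪ Y).card = (rm Q L X Y).card + Y.card := card_union_of_disjoint hw.dis
  obtain ⟨h1, h2⟩ := dv_parts ih ihr (B := absG B (rm Q L X Y) Y E N) (rm Q L X Y ∪ Y) A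
    (by rw [hCY]; exact hn) (hw.reg h.reg) (hw.tr3 h.tr)
    (fun a ha => (hAY a ha).trans subset_union_right) hlink
    (fun Z hZ hne => by
      obtain ⟨y, hy⟩ := hmeet Z hZ hne
      obtain ⟨hyZ, hyY⟩ := mem_inter.1 hy
      obtain ⟨a, ha, hya⟩ := hcov y hyY
      refine ⟨a, ha, ?_⟩
      rcases hlink Z hZ a ha with h3 | h3
      · exact h3
      · exact absurd hyZ (disjoint_left.1 h3 hya))
    (fun a ha => by
      obtain ⟨c, hc1, hc2, hc3⟩ := hsm a ha
      have h4 : absG B (rm Q L X Y) Y E N (Sum.inr c) ∩ (rm Q L X Y ∪ Y) = N c := by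
        rw [hw.inter_self]
        ext v
        exact mem_absG_inr
      exact ⟨Sum.inr c, by rw [h4]; exact hc1, by rw [h4]; exact hc2, by rw [h4]; exact hc3⟩)
    (hYne.mono subset_union_right)
  exact h.main_gen h1 h2

end Gdl

end Pool.Agent.Hyp6
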