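import Pool.Agent.Hyp6.L3Gk
import Pool.Agent.Hyp6.Gdp

/-!
# HYP6 GDM: trimmed points and the link rule

`Gdl.exists_trim3`: the data of a general deletion with trimmed points `S`, such that every closed set
of the new system meets `Y`, for `|X| + |S| <= 2`, or for `|X| + |S| = 3` if some trimmed point is in at
most as many new blocks as some point of `X` or `S` has lost. `Gdl.main_one`: one class of linked
points, no small new block, for `|X| <= - sv L`.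
-/

set_option autoImplicit false

namespace Pool.Agent.Hyp6

open Finset Pool.Agent.Hyp5

universe u v

namespace Gdl

variable {V : Type v} [DecidableEq V] {ι : Type u} [Fintype ι] {κ : Type u} [Fintype κ]
  {B : ι → Finset V} {Q L X Y : Finset V} {I : Finset ι} {E : V → Finset ι} {N : κ → Finset V}

/-- the number of the deleted blocks through a point: blocks meeting `L` and blocks of `I`. -/
noncomputable def los (B : ι → Finset V) (L : Finset V) (I : Finset ι) (y : V) : ℕ :=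
  (univ.filter (fun i => y ∈ B i ∧ (B i ∩ L).Nonempty)).card + (I.filter (fun i => y ∈ B i)).card

/-- the number of the new blocks through a point. -/
def nnd (N : κ → Finset V) (y : V) : ℕ := (univ.filter (fun c => y ∈ N c)).card

theorem kp_card (hr : Reg B Q) (hL : L ⊆ Q) (dLX : Disjoint L X) (dLY : Disjoint L Y)
    (full : ∀ i ∈ I, B i ∩ Q ⊆ X ∪ Y ∧ (B i ∩ Q).card = 3) {y : V} (hy : y ∈ Q) :
    (kp B L I y).card + los B L I y = 5 := by
  classical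
  have h1 : (univ.filter (fun i => y ∈ B i)).card = 5 := hr y hy
  have h2 : univ.filter (fun i => y ∈ B i) = (kp B L I y ∪
      univ.filter (fun i => y ∈ B i ∧ (B i ∩ L).Nonempty)) ∪ I.filter (fun i => y ∈ B i) := by
    ext i
    simp only [mem_union, mem_filter, mem_univ, true_and, mem_kp]
    tauto
  have h4 : Disjoint (kp B L I y) (univ.filter (fun i => y ∈ B i ∧ (B i ∩ L).Nonempty)) := by
    rw [disjoint_left]
    intro i hi hi'
    exact (mem_kp.1 hi).2.1 (mem_filter.1 hi').2.2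
  have h5 : Disjoint (kp B L I y ∪ univ.filter (fun i => y ∈ B i ∧ (B i ∩ L).Nonempty))
      (I.filter (fun i => y ∈ B i)) := by
    rw [disjoint_left]
    intro i hi hi'
    rcases mem_union.1 hi with h6 | h6
    · exact (mem_kp.1 h6).2.2 (mem_filter.1 hi').1
    · obtain ⟨v, hv⟩ := (mem_filter.1 h6).2.2
      obtain ⟨hvi, hvL⟩ := mem_inter.1 hv
      rcases mem_union.1 ((full i (mem_filter.1 hi').1).1
        (mem_inter.2 ⟨hvi, hL hvL⟩)) with h7 | h7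
      · exact disjoint_left.1 dLX hvL h7
      · exact disjoint_left.1 dLY hvL h7
  rw [h2, card_union_of_disjoint h5, card_union_of_disjoint h4] at h1
  unfold los
  omega

/-- a block through a point which meets an unchanged point is kept. -/
theorem mem_kp_of (hrmI : ∀ i ∈ I, B i ∩ Q ⊆ X ∪ Y ∧ (B i ∩ Q).card = 3)
    (con : ∀ i, (B i ∩ L).Nonempty → B i ∩ Q ⊆ (L ∪ X) ∪ Y) {y : V} {i : ι} (hy : y ∈ B i)
    (hne : (B i ∩ rm Q L X Y).Nonempty) : i ∈ kp B L I y := by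
  obtain ⟨w, hw⟩ := hne
  obtain ⟨hwi, hwC⟩ := mem_inter.1 hw
  obtain ⟨hwQ, hwL, hwX, hwY⟩ := mem_rm.1 hwC
  refine mem_kp.2 ⟨hy, fun h1 => ?_, fun h1 => ?_⟩
  · rcases mem_union.1 (con i h1 (mem_inter.2 ⟨hwi, hwQ⟩)) with h2 | h2
    · rcases mem_union.1 h2 with h3 | h3
      · exact hwL h3
      · exact hwX h3
    · exact hwY h2
  · rcases mem_union.1 ((hrmI i h1).1 (mem_inter.2 ⟨hwi, hwQ⟩)) with h2 | h2
    · exact hwX h2
    · exact hwY h2

/-- a closed set of the new system which avoids `Y` is closed in the rest of `X` and the trimmed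
points. -/
theorem closed_rest (h : Gdl B Q L X Y I E N) {S : Finset V} (hSY : S ⊆ Y)
    (hkeep : ∀ y ∈ Y, y ∉ S → ∀ i, y ∈ B i → (B i ∩ rm Q L X Y).Nonempty → i ∈ E y)
    {W : Finset V} (hW : Closed (gr (absG B (rm Q L X Y) Y E N)) (rm Q L X Y ∪ Y) W)
    (hWY : ∀ v ∈ W, v ∉ Y) : W ⊆ rm Q L X Y ∧ Closed (gr B) (Q \ (X ∪ S)) W := by
  classical
  have hw := h.wir
  have hWrm : ∀ v ∈ W, v ∈ rm Q L X Y := by
    intro v hv
    rcases mem_union.1 (hW.1 hv) with h1 | h1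
    · exact h1
    · exact absurd h1 (hWY v hv)
  refine ⟨hWrm, fun v hv => ?_, fun w hw1 v hv hwv => ?_⟩
  · obtain ⟨h1, _, h2, h3⟩ := mem_rm.1 (hWrm v hv)
    refine mem_sdiff.2 ⟨h1, fun h4 => ?_⟩
    rcases mem_union.1 h4 with h5 | h5
    · exact h2 h5
    · exact h3 (hSY h5)
  · obtain ⟨hvQ, hvXS⟩ := mem_sdiff.1 hv
    rw [mem_union, not_or] at hvXS
    obtain ⟨hvX, hvS⟩ := hvXS
    obtain ⟨hne', i, hi1, hi2⟩ := hwv
    have hwC := hWrm w hw1
    obtain ⟨hwQ, hwL, hwX, hwY⟩ := mem_rm.1 hwC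
    by_cases hvC : v ∈ rm Q L X Y
    · exact hW.2 w hw1 v (mem_union_left _ hvC) (hw.adj_C hwC hvC ⟨hne', i, hi1, hi2⟩)
    exfalso
    by_cases hvL : v ∈ L
    · rcases mem_union.1 (h.con i ⟨v, mem_inter.2 ⟨hi2, hvL⟩⟩ (mem_inter.2 ⟨hi1, hwQ⟩)) with
        h2 | h2
      · rcases mem_union.1 h2 with h3 | h3
        · exact hwL h3
        · exact hwX h3
      · exact hwY h2
    by_cases hvY : v ∈ Y
    · have h1 := hkeep v hvY hvS i hi2 ⟨w, mem_inter.2 ⟨hi1, hwC⟩⟩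
      have h2 : v ∈ W := hW.2 w hw1 v (mem_union_right _ hvY)
        (hw.adj_Y hvY hwC h1 hi1).symm
      exact hWY v h2 hvY
    · exact hvC (mem_rm.2 ⟨hvQ, hvL, hvX, hvY⟩)

/-- **the data with trimmed points**. Every closed set of the new system meets `Y`. -/
theorem exists_trim3 (hv : ViolR B Q) (hL : L ⊆ Q) (hLne : L.Nonempty) (hX : X ⊆ Q) (hY : Y ⊆ Q)
    (dLX : Disjoint L X) (dLY : Disjoint L Y) (dXY : Disjoint X Y)
    (con : ∀ i, (B i ∩ L).Nonempty → B i ∩ Q ⊆ (L ∪ X) ∪ Y)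
    (full : ∀ i ∈ I, B i ∩ Q ⊆ X ∪ Y ∧ (B i ∩ Q).card = 3) (subN : ∀ c, N c ⊆ Y)
    (deg : ∀ y ∈ Y, los B L I y ≤ nnd N y) (deg5 : ∀ y ∈ Y, nnd N y ≤ 5)
    (sizeN : ∀ c, (N c).card ≤ 3)
    (cost : ∀ K : Finset κ, rho B ((L ∪ X) ∪ K.biUnion N) ≤ rho B L + K.card)
    {S : Finset V} (hSY : S ⊆ Y) (hS : ∀ y ∈ Y, y ∉ S → nnd N y ≤ los B L I y)
    (h3 : X.card + S.card ≤ 2 ∨ (X.card + S.card ≤ 3 ∧ ∃ y0 ∈ S, ∃ x0 ∈ X ∪ S,
      nnd N y0 ≤ los B L I x0)) :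
    ∃ E : V → Finset ι, Gdl B Q L X Y I E N ∧
      (∀ y ∈ Y, y ∉ S → ∀ i, y ∈ B i → ¬ (B i ∩ L).Nonempty → i ∉ I → i ∈ E y) ∧
      ∀ Z, Closed (gr (absG B (rm Q L X Y) Y E N)) (rm Q L X Y ∪ Y) Z → Z.Nonempty →
        (Z ∩ Y).Nonempty := by
  classical
  have hkp : ∀ y ∈ Q, (kp B L I y).card + los B L I y = 5 := fun y hy =>
    kp_card hv.reg hL dLX dLY full hy
  have hE1 : ∀ y ∈ Y, ∀ J : Finset ι, J ⊆ kp B L I y → J.card ≤ 5 - nnd N y →
      ∃ E' : Finset ι, J ⊆ E' ∧ E' ⊆ kp B L I y ∧ E'.card = 5 - nnd N y := by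
    intro y hy J hJ hJc
    refine exists_subsuperset_card_eq hJ hJc ?_
    have h1 := hkp y (hY hy)
    have h2 := deg y hy
    omega
  -- the common part: a choice of the blocks
  have hmk : ∀ J : V → Finset ι, (∀ y ∈ Y, J y ⊆ kp B L I y ∧ (J y).card ≤ 5 - nnd N y) →
      ∃ E : V → Finset ι, Gdl B Q L X Y I E N ∧ (∀ y ∈ Y, J y ⊆ E y) ∧
      (∀ y ∈ Y, y ∉ S → ∀ i, y ∈ B i → ¬ (B i ∩ L).Nonempty → i ∉ I → i ∈ E y) := by
    intro J hJ
    have hex : ∀ y ∈ Y, ∃ E' : Finset ι, J y ⊆ E' ∧ E' ⊆ kp B L I y ∧ E'.card = 5 - nnd N y :=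
      fun y hy => hE1 y hy (J y) (hJ y hy).1 (hJ y hy).2
    choose! E e1 e2 e3 using hex
    refine ⟨E, ⟨hv.reg, hv.tr, hL, hX, hY, dLX, dLY, dXY, con, full,
      fun y hy i hi => (mem_kp.1 (e2 y hy hi)).1, fun y hy i hi => (mem_kp.1 (e2 y hy hi)).2,
      subN, fun y hy => ?_, sizeN, cost⟩, e1, fun y hy hyS i h1 h2 h3 => ?_⟩
    · rw [e3 y hy]
      have := deg5 y hy
      unfold nnd at this ⊢
      omega
    · have h4 : E y = kp B L I y := by
        refine eq_of_subset_of_card_le (e2 y hy) ?_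
        rw [e3 y hy]
        have h5 := hkp y (hY hy)
        have h6 := hS y hy hyS
        omega
      rw [h4]
      exact mem_kp.2 ⟨h1, h2, h3⟩
  have hkeep : ∀ E : V → Finset ι,
      (∀ y ∈ Y, y ∉ S → ∀ i, y ∈ B i → ¬ (B i ∩ L).Nonempty → i ∉ I → i ∈ E y) →
      ∀ y ∈ Y, y ∉ S → ∀ i, y ∈ B i → (B i ∩ rm Q L X Y).Nonempty → i ∈ E y := by
    intro E hE y hy hyS i hi hne
    have h1 := mem_kp.1 (mem_kp_of full con hi hne)
    exact hE y hy hyS i hi h1.2.1 h1.2.2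
  have hlQ : ∀ {W : Finset V}, W ⊆ X ∪ S → (Q \ W).Nonempty ∧ ∀ l ∈ L, l ∈ Q \ W := by
    intro W hW
    have h1 : ∀ l ∈ L, l ∈ Q \ W := by
      intro l hl
      refine mem_sdiff.2 ⟨hL hl, fun h2 => ?_⟩
      rcases mem_union.1 (hW h2) with h4 | h4
      · exact disjoint_left.1 dLX hl h4
      · exact disjoint_left.1 dLY hl (hSY h4)
    obtain ⟨l, hl⟩ := hLne
    exact ⟨⟨l, h1 l hl⟩, h1⟩
  rcases Nat.lt_or_ge 2 (X.card + S.card) with hbig | hsm
  swap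
  · obtain ⟨E, hG, _, hE⟩ := hmk (fun _ => ∅) (fun y _ => ⟨empty_subset _, by simp⟩)
    refine ⟨E, hG, hE, fun Z hZ hne => hG.meets hLne hSY (hv.conn_sdiff (X := X ∪ S)
      (union_subset hX (hSY.trans hY)) ((card_union_le _ _).trans hsm)) (hkeep E hE) hZ hne⟩
  -- three points
  obtain ⟨h3c, y0, hy0, x0, hx0, hle⟩ : X.card + S.card ≤ 3 ∧ ∃ y0 ∈ S, ∃ x0 ∈ X ∪ S,
      nnd N y0 ≤ los B L I x0 := by
    rcases h3 with h4 | h4
    · omega
    · exact h4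
  have hXSQ : X ∪ S ⊆ Q := union_subset hX (hSY.trans hY)
  have hXSc : (X ∪ S).card ≤ 3 := (card_union_le _ _).trans h3c
  obtain ⟨Ks, hK1, hK2, hK3⟩ := exists_parts B (Q \ (X ∪ S))
  set Kr : Finset (Finset V) := Ks.filter (fun K => K ⊆ rm Q L X Y) with hKr
  have hsee : ∀ w ∈ X ∪ S, ∀ K ∈ Kr, ∃ i, i ∈ kp B L I w ∧ (B i ∩ K).Nonempty := by
    intro w hw K hK
    obtain ⟨hK', hKrm⟩ := mem_filter.1 hK
    obtain ⟨k1, k2, k3⟩ := hK1 K hK'
    by_contra hcon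
    push Not at hcon
    have hno : ∀ i, w ∈ B i → B i ∩ K = ∅ := by
      intro i hi
      by_contra h4
      have h5 : (B i ∩ K).Nonempty := nonempty_iff_ne_empty.2 h4
      have h6 : (B i ∩ rm Q L X Y).Nonempty := h5.mono (inter_subset_inter_left hKrm)
      exact h4 (hcon i (mem_kp_of full con hi h6))
    have hcl : Closed (gr B) (Q \ (X ∪ S).erase w) K := by
      refine ⟨k1.trans (sdiff_subset_sdiff (Subset.refl _) (erase_subset _ _)),
        fun v hv' u hu hvu => ?_⟩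
      obtain ⟨hu1, hu2⟩ := mem_sdiff.1 hu
      by_cases huw : u = w
      · exfalso
        obtain ⟨_, i, hi1, hi2⟩ := hvu
        rw [huw] at hi2
        have h4 := hno i hi2
        have h5 : v ∈ B i ∩ K := mem_inter.2 ⟨hi1, hv'⟩
        rw [h4] at h5
        exact notMem_empty _ h5
      · exact k2.2 v hv' u (mem_sdiff.2 ⟨hu1, fun h4 => hu2 (mem_erase.2 ⟨huw, h4⟩)⟩) hvu
    have hconn := hv.conn_sdiff (X := (X ∪ S).erase w) ((erase_subset _ _).trans hXSQ) (by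
      rw [card_erase_of_mem hw]
      omega)
    have heq := hconn.2 K hcl k3.1
    obtain ⟨l, hl⟩ := hLne
    have hlK : l ∈ K := by
      rw [heq]
      exact (hlQ (erase_subset w (X ∪ S))).2 l hl
    exact (mem_rm.1 (hKrm hlK)).2.1 hl
  have hinj : ∀ f : Finset V → ι, (∀ K ∈ Kr, (B (f K) ∩ K).Nonempty) →
      Set.InjOn f (Kr : Set (Finset V)) := by
    intro f hf K hK K' hK' he
    by_contra hne
    have hK'' : (B (f K) ∩ K').Nonempty := by
      rw [he]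
      exact hf K' hK'
    exact (hK2 K (mem_filter.1 hK).1 K' (mem_filter.1 hK').1 hne).2 (f K) (hf K hK) hK''
  have hcKr : Kr.card ≤ 5 - nnd N y0 := by
    rcases Kr.eq_empty_or_nonempty with h4 | ⟨K0, hK0⟩
    · rw [h4, card_empty]
      exact Nat.zero_le _
    obtain ⟨i0, _⟩ := hsee x0 hx0 K0 hK0
    have : Nonempty ι := ⟨i0⟩
    choose! g hg1 hg2 using hsee x0 hx0
    have h5 : (Kr.image g).card = Kr.card := card_image_of_injOn (hinj g hg2)
    have h6 : Kr.image g ⊆ kp B L I x0 := by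
      intro i hi
      obtain ⟨K, hK, rfl⟩ := mem_image.1 hi
      exact hg1 K hK
    have h7 := card_le_card h6
    have h8 := hkp x0 (hXSQ hx0)
    omega
  have hy0Y : y0 ∈ Y := hSY hy0
  obtain ⟨J0, hJ1, hJ2, hJ3⟩ : ∃ J0 : Finset ι, J0 ⊆ kp B L I y0 ∧ J0.card ≤ 5 - nnd N y0 ∧
      ∀ K ∈ Kr, ∃ i ∈ J0, (B i ∩ K).Nonempty := by
    rcases Kr.eq_empty_or_nonempty with h4 | ⟨K0, hK0⟩
    · refine ⟨∅, empty_subset _, by simp, fun K hK => ?_⟩
      rw [h4] at hK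
      exact absurd hK (notMem_empty _)
    obtain ⟨i0, _⟩ := hsee y0 (mem_union_right _ hy0) K0 hK0
    have : Nonempty ι := ⟨i0⟩
    choose! g hg1 hg2 using hsee y0 (mem_union_right _ hy0)
    refine ⟨Kr.image g, ?_, card_image_le.trans hcKr, fun K hK =>
      ⟨g K, mem_image_of_mem _ hK, hg2 K hK⟩⟩
    intro i hi
    obtain ⟨K, hK, rfl⟩ := mem_image.1 hi
    exact hg1 K hK
  obtain ⟨E, hG, hJE, hE⟩ := hmk (fun y => if y = y0 then J0 else ∅) (fun y _ => by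
    split_ifs with h4
    · rw [h4]
      exact ⟨hJ1, hJ2⟩
    · exact ⟨empty_subset _, by simp⟩)
  refine ⟨E, hG, hE, fun Z hZ hne => ?_⟩
  by_contra h0
  rw [not_nonempty_iff_eq_empty] at h0
  have hZY : ∀ v ∈ Z, v ∉ Y := by
    intro v hv' hvY
    have h1 : v ∈ Z ∩ Y := mem_inter.2 ⟨hv', hvY⟩
    rw [h0] at h1
    exact notMem_empty _ h1
  obtain ⟨hZrm, hZc⟩ := hG.closed_rest hSY (hkeep E hE) hZ hZY
  obtain ⟨z, hz⟩ := hne
  have hzU : z ∈ Ks.biUnion id := by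
    rw [hK3]
    exact hZc.1 hz
  obtain ⟨K, hK, hzK⟩ := mem_biUnion.1 hzU
  obtain ⟨k1, k2, k3⟩ := hK1 K hK
  have hKZ : K ⊆ Z := by
    have hcl : Closed (gr B) K (Z ∩ K) := by
      refine ⟨inter_subset_right, fun v hv' w hw hvw => ?_⟩
      obtain ⟨h1, h2⟩ := mem_inter.1 hv'
      exact mem_inter.2 ⟨hZc.2 v h1 w (k1 hw) hvw, hw⟩
    have heq := k3.2 (Z ∩ K) hcl ⟨z, mem_inter.2 ⟨hz, hzK⟩⟩
    rw [← heq]
    exact inter_subset_left
  have hKr' : K ∈ Kr := mem_filter.2 ⟨hK, hKZ.trans hZrm⟩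
  obtain ⟨i, hi, w, hw⟩ := hJ3 K hKr'
  obtain ⟨hwi, hwK⟩ := mem_inter.1 hw
  have hiE : i ∈ E y0 := by
    have h1 := hJE y0 hy0Y
    rw [if_pos rfl] at h1
    exact h1 hi
  have hwC := hZrm (hKZ hwK)
  have h2 : y0 ∈ Z := hZ.2 w (hKZ hwK) y0 (mem_union_right _ hy0Y)
    (hG.wir.adj_Y hy0Y hwC hiE hwi).symm
  exact hZY y0 h2 hy0Y

/-- **one class of linked points**: no small new block is needed if `|X| <= sv Q - sv L - 1`. -/
theorem main_one (h : Gdl B Q L X Y I E N) {n : ℕ} (ih : IHE.{u} V n) (ihr : IHR.{u} V n)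
    (hn : (rm Q L X Y).card + Y.card < n) (hYne : Y.Nonempty)
    (hlink : ∀ Z, Closed (gr (absG B (rm Q L X Y) Y E N)) (rm Q L X Y ∪ Y) Z →
      (Z ∩ Y).Nonempty → Y ⊆ Z)
    (hmeet : ∀ Z, Closed (gr (absG B (rm Q L X Y) Y E N)) (rm Q L X Y ∪ Y) Z → Z.Nonempty →
      (Z ∩ Y).Nonempty) (hX : (X.card : ℤ) + 1 ≤ sv B Q - sv B L) :
    dv B Q L + 5 * (X.card : ℤ) + 4 * (I.card : ℤ) + 2 * ((lost B Q L X Y I E).card : ℤ)
       - 4 * (Fintype.card κ : ℤ) ≤ dv B Q Q := by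
  classical
  have hconn : Conn (gr (absG B (rm Q L X Y) Y E N)) (rm Q L X Y ∪ Y) := by
    refine ⟨hYne.mono subset_union_right, fun Z hZ hne => ?_⟩
    have hYZ := hlink Z hZ (hmeet Z hZ hne)
    by_contra hneq
    have hne2 : ((rm Q L X Y ∪ Y) \ Z).Nonempty := by
      rw [sdiff_nonempty]
      intro h1
      exact hneq (subset_antisymm hZ.1 h1)
    obtain ⟨y, hy⟩ := hmeet _ (closed_compl hZ) hne2
    obtain ⟨hy1, hy2⟩ := mem_inter.1 hy
    exact (mem_sdiff.1 hy1).2 (hYZ hy2)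
  have h1 := (h.mainK ih ihr hn hconn (Y2 := ∅) (empty_subset _)
    (fun y hy => absurd hy (notMem_empty _)) (by simp [ee_empty])).2 hX
  rw [card_empty] at h1
  push_cast at h1
  linarith

end Gdl

end Pool.Agent.Hyp6
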