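import Pool.Agent.Hyp6.L3Dl

/-!
# HYP6 L3Y7: a dense class without one of its triples

`G` has value `-1` and lies outside the full block `T = B i0`; the contact points are absorbed one by
one. If a point of `T` has at most three hits on `G` and `G` has at most four hits from outside `T`, then
`dv G <= 1`; if `G` has at most five such hits, then `dv G <= 5`. The absorption and the missable points
come from the induction hypothesis alone.
-/

set_option autoImplicit false

namespace Pool.Agent.Hyp6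

open Finset Pool.Agent.Hyp5

universe u v

variable {V : Type v} [DecidableEq V] {ι : Type u} [Fintype ι] {B : ι → Finset V}
variable {Q G X : Finset V}

theorem KT.sv_zero (h : KT B Q) : sv B Q = 0 := by
  unfold sv
  rw [h.1, h.2.2]
  norm_num

omit [Fintype ι] in
/-- a point which can be missed gives absorption. -/
theorem abz_of_miss {A : Finset V} {v : V} (hc : Cov B G) (hm : rho B (G.erase v) + 1 ≤ rho B G)
    {i : ι} (hv : v ∈ B i) (hA : A ⊆ B i) : Abz B G A := by
  classical
  obtain ⟨T, hT, hTc⟩ := exists_cover (hc.mono (erase_subset v G))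
  refine ⟨insert i T, ?_, ?_⟩
  · intro w hw
    rw [biUnion_insert, mem_union]
    rcases mem_union.1 hw with hw | hw
    · by_cases he : w = v
      · exact Or.inl (he ▸ hv)
      · exact Or.inr (hT (mem_erase.2 ⟨he, hw⟩))
    · exact Or.inl (hA hw)
  · have := card_insert_le i T
    omega

namespace ViolR

/-- the induction hypothesis for a connected part with negative value. -/
theorem part_neg (h : ViolR B Q) {W : Finset V} (hWQ : W ⊆ Q) (hlt : W.card < Q.card)
    (hc : Conn (gr B) W) (hs : sv B W ≤ -1) : -1 ≤ Pv B W := by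
  have h1 := h.ih ι B W hlt (h.reg.mono hWQ) (h.tr.mono hWQ) hc (fun hk => by
    have := hk.sv_zero
    omega)
  have h2 : (0 : ℤ) ≤ ee B W W := by positivity
  linarith

/-- **absorption from the induction hypothesis**. -/
theorem abz_of (h : ViolR B Q) (hW : G ∪ X ⊆ Q) (hlt : (G ∪ X).card < Q.card)
    (hd : Disjoint G X) (hc : Conn (gr B) (G ∪ X)) (hs : sv B G ≤ -1) (hX : X.card ≤ 2)
    (hP : Pv B G + 5 * (X.card : ℤ) + 4 * ((ins B (G ∪ X) X).card : ℤ) ≤ 22) : Abz B G X := by
  have hcW : Cov B (G ∪ X) := h.cov.mono hW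
  obtain ⟨T, hT1, hT2⟩ := exists_cover hcW
  refine ⟨T, hT1, ?_⟩
  by_contra hcon
  have h1 := Pv_sdiff (B := B) (W := G ∪ X) (X := X) subset_union_right
  rw [union_sdiff_cancel_right hd] at h1
  have h3 : (rho B G : ℤ) + 1 ≤ rho B (G ∪ X) := by omega
  have h5 : ((G ∪ X).card : ℤ) = G.card + X.card := by
    rw [card_union_of_disjoint hd]
    push_cast
    ring
  have h6 : (X.card : ℤ) ≤ 2 := by exact_mod_cast hX
  have h4 := h.part_neg hW hlt hc (by
    unfold sv at hs ⊢
    rw [h5]
    linarith)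
  linarith

/-- **missable points from the induction hypothesis**. -/
theorem miss_of (h : ViolR B Q) (hG : G ⊆ Q) {v : V} (hv : v ∈ G)
    (hc : Conn (gr B) (G.erase v)) (hs : sv B G ≤ 0)
    (hP : Pv B G ≤ 3 + 4 * ((ins B G {v}).card : ℤ)) : rho B (G.erase v) + 1 = rho B G := by
  have hcG : Cov B G := h.cov.mono hG
  have h1 := rho_erase_le (B := B) (x := v) hcG
  have h2 := rho_le_erase (B := B) (x := v) hcG
  by_contra hcon
  have h3 : rho B (G.erase v) = rho B G := by omega
  have h4 := Pv_sdiff (B := B) (W := G) (X := {v}) (singleton_subset_iff.2 hv)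
  rw [sdiff_singleton_eq_erase, h3, card_singleton] at h4
  have h5 := card_erase_add_one hv
  have h5' : ((G.erase v).card : ℤ) + 1 = G.card := by exact_mod_cast h5
  have h6 := card_le_card hG
  have h7 := h.part_neg ((erase_subset v G).trans hG) (by omega) hc (by
    unfold sv at hs ⊢
    rw [h3]
    linarith)
  push_cast at h4
  linarith

/-- the data of a deletion, with absorption as a hypothesis. -/
theorem dlt_abs (h : ViolR B Q) {i0 : ι} (hi : (B i0 ∩ Q).card = 3) (hGQ : G ⊆ Q \ (B i0 ∩ Q))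
    (hne : G.Nonempty) (hs : sv B G = -1)
    (habs : ∀ v ∈ Q, v ∉ G → v ∉ B i0 → (Ez B G v).Nonempty → Abz B G {v}) : Dlt B Q G i0 where
  ih := h.ih
  ihr := h.ihr
  reg := h.reg
  tr := h.tr
  s1 := h.sv1
  c3 := hi
  connC := (h.lemA hi).1
  eeT := h.eeT hi
  LQ := hGQ
  Lne := hne
  svL := hs
  abs := habs

/-- **four new blocks**: the point `t` of the full block has at most three hits. -/
theorem nu4 (h : ViolR B Q) {i0 : ι} (hi : (B i0 ∩ Q).card = 3) (hGQ : G ⊆ Q \ (B i0 ∩ Q))
    (hne : G.Nonempty) (hs : sv B G = -1)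
    (habs : ∀ v ∈ Q, v ∉ G → v ∉ B i0 → (Ez B G v).Nonempty → Abz B G {v})
    {t : V} (ht : t ∈ B i0) (htQ : t ∈ Q) (h3 : (Ez B G t).card ≤ 3)
    (hH : hit B ((Q \ (B i0 ∩ Q)) \ G) G ≤ 4) (hX : Abz B G ((B i0 ∩ Q).erase t)) :
    dv B Q G + (if hit B ((Q \ (B i0 ∩ Q)) \ G) G ≤ 2 then 2 else 0) ≤ 1 := by
  have h1 := (h.dlt_abs hi hGQ hne hs habs).s1D ht htQ (nu := 4) (by norm_num) (by norm_num)
    (by omega) hH (Or.inl hX)
  have h2 := h.neg
  by_cases h4 : hit B ((Q \ (B i0 ∩ Q)) \ G) G ≤ 2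
  · rw [if_pos h4]
    rw [if_pos (by omega)] at h1
    push_cast at h1
    linarith
  · rw [if_neg h4]
    rw [if_neg (by omega)] at h1
    push_cast at h1
    linarith

/-- **five new blocks**: no absorption of a pair is needed. -/
theorem nu5 (h : ViolR B Q) {i0 : ι} (hi : (B i0 ∩ Q).card = 3) (hGQ : G ⊆ Q \ (B i0 ∩ Q))
    (hne : G.Nonempty) (hs : sv B G = -1)
    (habs : ∀ v ∈ Q, v ∉ G → v ∉ B i0 → (Ez B G v).Nonempty → Abz B G {v})
    (hH : hit B ((Q \ (B i0 ∩ Q)) \ G) G ≤ 5) :
    dv B Q G + (if hit B ((Q \ (B i0 ∩ Q)) \ G) G ≤ 3 then 2 else 0) ≤ 5 := by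
  obtain ⟨t, ht⟩ := card_pos.1 (by omega : 0 < (B i0 ∩ Q).card)
  obtain ⟨ht1, ht2⟩ := mem_inter.1 ht
  have h0 := h.dlt_abs hi hGQ hne hs habs
  have h3 := h0.five ht2
  rw [if_pos ht1] at h3
  have h1 := h0.s1D ht1 ht2 (nu := 5) (by norm_num) le_rfl (by omega) hH (Or.inr rfl)
  have h2 := h.neg
  by_cases h4 : hit B ((Q \ (B i0 ∩ Q)) \ G) G ≤ 3
  · rw [if_pos h4]
    rw [if_pos (by omega)] at h1
    push_cast at h1
    linarith
  · rw [if_neg h4]
    rw [if_neg (by omega)] at h1
    push_cast at h1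
    linarith

end ViolR

end Pool.Agent.Hyp6
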