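import Pool.Agent.Hyp6.Gdr
import Pool.Agent.Hyp6.Gdkt
import Pool.Agent.Hyp6.L3Y7

/-!
# HYP6 GDQ: the general deletion with classes without small blocks

`dv_parts_pen`: the value of a system in parts, exceptional parts cost one more. `Gdl.Ext`: at most `m`
parts avoid the contact points. `Gdl.main_core`: the general deletion with three kinds of link classes:
with a small block, with an absorbed point (an exceptional part through such a class is impossible),
and the others, which cost one more.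
-/

set_option autoImplicit false

namespace Pool.Agent.Hyp6

open Finset Pool.Agent.Hyp5

universe u v

section

variable {V : Type v} [DecidableEq V] {ι : Type u} [Fintype ι] {B : ι → Finset V}

/-- **the value of a system in parts**, with a penalty for the classes `Ab`, which may be exceptional. -/
theorem dv_parts_pen {n : ℕ} (ih : IHE.{u} V n) (ihr : IHR.{u} V n) :
    ∀ (W : Finset V) (A Ab : Finset (Finset V)), Ab ⊆ A → W.card < n → Reg B W → Tr3 B W →
      (∀ a ∈ A, a ⊆ W) → (∀ a ∈ A, a.Nonempty) →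
      (∀ Z, Closed (gr B) W Z → ∀ a ∈ A, a ⊆ Z ∨ Disjoint a Z) →
      (∀ Z, Closed (gr B) W Z → Z.Nonempty → ∃ a ∈ A, a ⊆ Z) →
      (∀ Z, Closed (gr B) W Z → Conn (gr B) Z → KT B Z → ∀ a ∈ A, a ⊆ Z → a ∈ Ab) →
      W.Nonempty → -((A.card : ℤ) + Ab.card) ≤ dv B W W ∧
        (1 ≤ sv B W → 1 - ((A.card : ℤ) + Ab.card) ≤ dv B W W) ∧
        (0 ≤ sv B W → (∃ a ∈ A, a ∉ Ab) → 1 - ((A.card : ℤ) + Ab.card) ≤ dv B W W) := by
  classical
  intro W
  induction W using Finset.strongInduction with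
  | H W IH =>
    intro A Ab hAb hn hr h3 hAW hAne hlink hmeet hkt hne
    have hWW : Closed (gr B) W W := ⟨Subset.refl _, fun _ _ y hy _ => hy⟩
    by_cases hc : Conn (gr B) W
    · obtain ⟨a, ha, haW⟩ := hmeet W hWW hne
      have hA1 : 1 ≤ A.card := card_pos.2 ⟨a, ha⟩
      by_cases hK : KT B W
      · have h1 : a ∈ Ab := hkt W hWW hc hK a ha haW
        have hA2 : 1 ≤ Ab.card := card_pos.2 ⟨a, h1⟩
        have h2 := hK.Pv_eq
        have h4 := hK.ee_zero hr h3
        have h5 := hK.sv_zero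
        unfold dv
        rw [h2, h4]
        refine ⟨by push_cast; omega, fun h6 => ?_, fun _ ⟨b, hb, hb'⟩ => ?_⟩
        · rw [h5] at h6
          omega
        · exact absurd (hkt W hWW hc hK b hb (hAW b hb)) hb'
      · have h1 := ih ι B W hn hr h3 hc hK
        have h2 := ih_nonneg ih ihr hn hr h3 hc hK
        unfold dv
        refine ⟨by omega, fun hs => ?_, fun hs _ => ?_⟩
        · have := h2 (by omega)
          omega
        · have := h2 hs
          omega
    · have hex : ∃ Z, Closed (gr B) W Z ∧ Z.Nonempty ∧ Z ≠ W := by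
        by_contra hcon
        push Not at hcon
        exact hc ⟨hne, fun Z hZ hZne => hcon Z hZ hZne⟩
      obtain ⟨Z, hZ, hZne, hZW⟩ := hex
      have hD := closed_compl hZ
      have hDne : (W \ Z).Nonempty := by
        rw [sdiff_nonempty]
        exact fun h => hZW (subset_antisymm hZ.1 h)
      have hdisA : ∀ S : Finset (Finset V), S ⊆ A →
          (S.filter (fun a => a ⊆ Z)).card + (S.filter (fun a => a ⊆ W \ Z)).card ≤ S.card := by
        intro S hS
        have h1 : Disjoint (S.filter (fun a => a ⊆ Z)) (S.filter (fun a => a ⊆ W \ Z)) := by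
          rw [disjoint_left]
          intro a ha1 ha2
          obtain ⟨ha, h1⟩ := mem_filter.1 ha1
          obtain ⟨_, h2⟩ := mem_filter.1 ha2
          obtain ⟨w, hw⟩ := hAne a (hS ha)
          exact (mem_sdiff.1 (h2 hw)).2 (h1 hw)
        rw [← card_union_of_disjoint h1]
        exact card_le_card (union_subset (filter_subset _ _) (filter_subset _ _))
      have key : ∀ (Y : Finset V), Closed (gr B) W Y → Y.Nonempty → Y ⊂ W →
          -(((A.filter (fun a => a ⊆ Y)).card : ℤ) + (Ab.filter (fun a => a ⊆ Y)).card) ≤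
            dv B Y Y ∧
          (1 ≤ sv B Y → 1 - (((A.filter (fun a => a ⊆ Y)).card : ℤ) +
            (Ab.filter (fun a => a ⊆ Y)).card) ≤ dv B Y Y) ∧
          (0 ≤ sv B Y → (∃ a ∈ A.filter (fun a => a ⊆ Y), a ∉ Ab.filter (fun a => a ⊆ Y)) →
            1 - (((A.filter (fun a => a ⊆ Y)).card : ℤ) + (Ab.filter (fun a => a ⊆ Y)).card) ≤
            dv B Y Y) := by
        intro Y hY hYne hYW
        refine IH Y hYW _ _ (filter_subset_filter _ hAb)
          (lt_of_lt_of_le (card_lt_card hYW) hn.le) (fun v hv => hr v (hY.1 hv))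
          (fun i => (card_le_card (inter_subset_inter_left hY.1)).trans (h3 i))
          (fun a ha => (mem_filter.1 ha).2) (fun a ha => hAne a (mem_filter.1 ha).1)
          (fun Z' hZ' a ha => hlink Z' (closed_trans hY hZ') a (mem_filter.1 ha).1)
          (fun Z' hZ' hZne' => ?_) (fun Z' hZ' hcZ hKZ a ha haZ => ?_) hYne
        · obtain ⟨a, ha, haZ⟩ := hmeet Z' (closed_trans hY hZ') hZne'
          exact ⟨a, mem_filter.2 ⟨ha, haZ.trans hZ'.1⟩, haZ⟩
        · obtain ⟨ha1, ha2⟩ := mem_filter.1 ha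
          exact mem_filter.2 ⟨hkt Z' (closed_trans hY hZ') hcZ hKZ a ha1 haZ, ha2⟩
      have hZss : Z ⊂ W := ssubset_of_subset_of_ne hZ.1 hZW
      have hDss : W \ Z ⊂ W := by
        refine ssubset_of_subset_of_ne sdiff_subset fun h => ?_
        obtain ⟨z, hz⟩ := hZne
        have : z ∈ W \ Z := by
          rw [h]
          exact hZ.1 hz
        exact (mem_sdiff.1 this).2 hz
      obtain ⟨k1, k2, k3⟩ := key Z hZ hZne hZss
      obtain ⟨l1, l2, l3⟩ := key (W \ Z) hD hDne hDss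
      obtain ⟨h1, h2⟩ := dv_split hr hZ
      have c1 := hdisA A (Subset.refl _)
      have c2 := hdisA Ab hAb
      refine ⟨by omega, fun hs => ?_, fun hs ⟨a, ha, haB⟩ => ?_⟩
      · rw [h2] at hs
        rcases le_or_gt 1 (sv B Z) with h5 | h5
        · have := k2 h5
          omega
        · have := l2 (by omega)
          omega
      · rw [h2] at hs
        rcases hlink Z hZ a ha with h4 | h4
        · rcases le_or_gt 0 (sv B Z) with h5 | h5
          · have := k3 h5 ⟨a, mem_filter.2 ⟨ha, h4⟩, fun h6 => haB (mem_filter.1 h6).1⟩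
            omega
          · have := l2 (by omega)
            omega
        · have h4' : a ⊆ W \ Z := fun v hv => mem_sdiff.2 ⟨hAW a ha hv, disjoint_left.1 h4 hv⟩
          rcases le_or_gt 0 (sv B (W \ Z)) with h5 | h5
          · have := l3 h5 ⟨a, mem_filter.2 ⟨ha, h4'⟩, fun h6 => haB (mem_filter.1 h6).1⟩
            omega
          · have := k2 (by omega)
            omega

end

namespace Gdl

variable {V : Type v} [DecidableEq V] {ι : Type u} [Fintype ι] {κ : Type u} [Fintype κ]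
  {B : ι → Finset V} {Q L X Y : Finset V} {I : Finset ι} {E : V → Finset ι} {N : κ → Finset V}

/-- at most `m` parts avoid the contact points. -/
def Ext {τ : Type u} (B' : τ → Finset V) (W Y : Finset V) (m : ℕ) : Prop :=
  ∃ Kx : Finset (Finset V), Kx.card ≤ m ∧ (∀ K ∈ Kx, K ⊆ W) ∧
    (∀ K ∈ Kx, ∀ Z, Closed (gr B') W Z → K ⊆ Z ∨ Disjoint K Z) ∧
    (∀ Z, Closed (gr B') W Z → Z.Nonempty → (Z ∩ Y).Nonempty ∨ ∃ K ∈ Kx, K ⊆ Z) ∧
    (∀ K ∈ Kx, ∃ i, (B' i ∩ W).Nonempty ∧ (B' i ∩ W).card ≤ 2 ∧ B' i ∩ W ⊆ K)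

theorem ext_of_meet {τ : Type u} {B' : τ → Finset V} {W Y : Finset V}
    (h : ∀ Z, Closed (gr B') W Z → Z.Nonempty → (Z ∩ Y).Nonempty) : Ext B' W Y 0 :=
  ⟨∅, by simp, fun K hK => absurd hK (notMem_empty _), fun K hK => absurd hK (notMem_empty _),
    fun Z hZ hne => Or.inl (h Z hZ hne), fun K hK => absurd hK (notMem_empty _)⟩

/-- the number of parts which avoid the contact points, by counting given up blocks. -/
theorem ext_of_count (h : Gdl B Q L X Y I E N) (hv : ViolR B Q) (hLne : L.Nonempty)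
    {S : Finset V} (hSY : S ⊆ Y)
    (hkeep : ∀ y ∈ Y, y ∉ S → ∀ i, y ∈ B i → (B i ∩ rm Q L X Y).Nonempty → i ∈ E y) {m : ℕ}
    (hm : ∑ x ∈ X, min (5 - los B L I x) (m + 1) +
      ∑ y ∈ S, min (nnd N y - los B L I y) (m + 1) < 3 * (m + 1)) :
    Ext (absG B (rm Q L X Y) Y E N) (rm Q L X Y ∪ Y) Y m := by
  classical
  have hw := h.wir
  have hCY : (rm Q L X Y ∪ Y).card = (rm Q L X Y).card + Y.card := card_union_of_disjoint hw.dis
  obtain ⟨Ks, hK1, hK2, hK3⟩ := exists_parts (absG B (rm Q L X Y) Y E N) (rm Q L X Y ∪ Y)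
  set Kx := Ks.filter (fun K => Disjoint K Y) with hKx
  have hrm : ∀ K ∈ Kx, ∀ v ∈ K, v ∈ rm Q L X Y := by
    intro K hK v hv'
    obtain ⟨hK', hd⟩ := mem_filter.1 hK
    rcases mem_union.1 ((hK1 K hK').1 hv') with h1 | h1
    · exact h1
    · exact absurd h1 (disjoint_left.1 hd hv')
  -- a closed set contains a part or is disjoint from it
  have hpz : ∀ K ∈ Ks, ∀ Z, Closed (gr (absG B (rm Q L X Y) Y E N)) (rm Q L X Y ∪ Y) Z →
      K ⊆ Z ∨ Disjoint K Z := by
    intro K hK Z hZ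
    by_cases hd : Disjoint K Z
    · exact Or.inr hd
    left
    rw [not_disjoint_iff] at hd
    obtain ⟨z, hzK, hzZ⟩ := hd
    obtain ⟨k1, k2, k3⟩ := hK1 K hK
    have hcl : Closed (gr (absG B (rm Q L X Y) Y E N)) K (Z ∩ K) := by
      refine ⟨inter_subset_right, fun v hv' w hw' hvw => ?_⟩
      obtain ⟨h1, h2⟩ := mem_inter.1 hv'
      exact mem_inter.2 ⟨hZ.2 v h1 w (k1 hw') hvw, hw'⟩
    have heq := k3.2 (Z ∩ K) hcl ⟨z, mem_inter.2 ⟨hzZ, hzK⟩⟩
    rw [← heq]
    exact inter_subset_left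
  -- a block meets at most one part
  have hone : ∀ i, ∀ K ∈ Kx, ∀ K' ∈ Kx, (B i ∩ K).Nonempty → (B i ∩ K').Nonempty → K = K' := by
    intro i K hK K' hK' ⟨w, hw1⟩ ⟨w', hw1'⟩
    obtain ⟨hwi, hwK⟩ := mem_inter.1 hw1
    obtain ⟨hwi', hwK'⟩ := mem_inter.1 hw1'
    by_contra hne
    have hd := (hK2 K (mem_filter.1 hK).1 K' (mem_filter.1 hK').1 hne).1
    have h1 : w' ∈ K := by
      by_cases he : w = w'
      · exact he ▸ hwK
      · exact (hK1 K (mem_filter.1 hK).1).2.1.2 w hwK w'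
          (mem_union_left _ (hrm K' hK' w' hwK'))
          (hw.adj_C (hrm K hK w hwK) (hrm K' hK' w' hwK') ⟨he, i, hwi, hwi'⟩)
    exact disjoint_left.1 hd h1 hwK'
  -- the numbers of the given up blocks
  have hkpc : ∀ y ∈ Q, (kp B L I y).card + los B L I y = 5 := fun y hy =>
    kp_card hv.reg h.LQ h.dLX h.dLY h.full hy
  have hgX : ∀ x ∈ X, (giv B L X I E x).card = 5 - los B L I x := by
    intro x hx
    unfold giv
    rw [if_pos hx]
    have := hkpc x (h.XQ hx)
    omega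
  have hgS : ∀ y ∈ S, (giv B L X I E y).card = nnd N y - los B L I y := by
    intro y hy
    have hyY := hSY hy
    have hyX : y ∉ X := fun h1 => disjoint_left.1 h.dXY h1 hyY
    unfold giv
    rw [if_neg hyX]
    have h1 : E y ⊆ kp B L I y := fun i hi =>
      mem_kp.2 ⟨h.mem y hyY i hi, (h.keep y hyY i hi).1, (h.keep y hyY i hi).2⟩
    rw [card_sdiff_of_subset h1]
    have h2 := hkpc y (h.YQ hyY)
    have h3 := h.deg y hyY
    unfold nnd
    omega
  have hcount : ∀ K1 ⊆ Kx, 3 * K1.card ≤ ∑ x ∈ X, min (5 - los B L I x) K1.card +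
      ∑ y ∈ S, min (nnd N y - los B L I y) K1.card := by
    intro K1 hK1'
    have h1 := count_parts K1 (X ∪ S) (giv B L X I E) (fun x K i => x ∈ B i ∧ (B i ∩ K).Nonempty)
      (fun K hK => by
        have hKm := hK1' hK
        obtain ⟨hKs, hd⟩ := mem_filter.1 hKm
        exact h.see_three hv hLne hSY hkeep (hK1 K hKs).2.1 (hK1 K hKs).2.2.1 hd)
      (fun x _ i _ K hK K' hK' hr1 hr2 => hone i K (hK1' hK) K' (hK1' hK') hr1.2 hr2.2)
    rw [sum_union (disjoint_of_subset_right hSY h.dXY)] at h1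
    rw [sum_congr rfl fun x hx => by rw [hgX x hx], sum_congr (s₁ := S) rfl fun y hy => by
      rw [hgS y hy]] at h1
    exact h1
  have hKm : Kx.card ≤ m := by
    by_contra hcon
    push Not at hcon
    obtain ⟨K1, hK1', hc1⟩ := exists_subset_card_eq (show m + 1 ≤ Kx.card by omega)
    have h1 := hcount K1 hK1'
    rw [hc1] at h1
    omega
  -- the parts which avoid `Y` have a small block
  have hsmK : ∀ K ∈ Kx, ∃ i, (absG B (rm Q L X Y) Y E N i ∩ (rm Q L X Y ∪ Y)).Nonempty ∧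
      (absG B (rm Q L X Y) Y E N i ∩ (rm Q L X Y ∪ Y)).card ≤ 2 ∧
      absG B (rm Q L X Y) Y E N i ∩ (rm Q L X Y ∪ Y) ⊆ K := by
    intro K hK
    obtain ⟨hKs, hd⟩ := mem_filter.1 hK
    obtain ⟨W3, hW3, hc3, hs3⟩ := h.see_three hv hLne hSY hkeep (hK1 K hKs).2.1
      (hK1 K hKs).2.2.1 hd
    obtain ⟨x, hx⟩ := card_pos.1 (show 0 < W3.card by omega)
    obtain ⟨i, _, hxi, w, hw1⟩ := hs3 x hx
    obtain ⟨hwi, hwK⟩ := mem_inter.1 hw1
    have hwC := hrm K hK w hwK
    have hsub : absG B (rm Q L X Y) Y E N (Sum.inl i) ∩ (rm Q L X Y ∪ Y) ⊆ B i ∩ K := by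
      intro v hv'
      obtain ⟨hv1, hv2⟩ := mem_inter.1 hv'
      rcases mem_union.1 hv2 with h1 | h1
      · have hvi : v ∈ B i := by
          have h2 := (mem_absG_inl.1 hv1)
          rcases h2 with h3 | h3
          · exact h3.1
          · exact absurd h3.1 (mem_rm.1 h1).2.2.2
        refine mem_inter.2 ⟨hvi, ?_⟩
        by_cases he : w = v
        · exact he ▸ hwK
        · exact (hK1 K hKs).2.1.2 w hwK v (mem_union_left _ h1)
            (hw.adj_C hwC h1 ⟨he, i, hwi, hvi⟩)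
      · exfalso
        have h2 := (mem_absG_inl.1 hv1)
        have hiE : i ∈ E v := by
          rcases h2 with h3 | h3
          · exact absurd h1 (mem_rm.1 h3.2).2.2.2
          · exact h3.2
        have h4 : v ∈ K := (hK1 K hKs).2.1.2 w hwK v (mem_union_right _ h1)
          (hw.adj_Y h1 hwC hiE hwi).symm
        exact disjoint_left.1 hd h4 h1
    refine ⟨Sum.inl i, ⟨w, mem_inter.2 ⟨mem_absG_inl.2 (Or.inl ⟨hwi, hwC⟩),
      mem_union_left _ hwC⟩⟩, ?_, hsub.trans inter_subset_right⟩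
    have hxXS := hW3 hx
    have hxQ : x ∈ Q := by
      rcases mem_union.1 hxXS with h1 | h1
      · exact h.XQ h1
      · exact h.YQ (hSY h1)
    have hxK : x ∉ K := by
      intro h1
      have h2 := hrm K hK x h1
      rcases mem_union.1 hxXS with h3 | h3
      · exact (mem_rm.1 h2).2.2.1 h3
      · exact (mem_rm.1 h2).2.2.2 (hSY h3)
    have h5 : B i ∩ K ⊆ (B i ∩ Q).erase x := by
      intro v hv'
      obtain ⟨h6, h7⟩ := mem_inter.1 hv'
      refine mem_erase.2 ⟨fun he => hxK (he ▸ h7), mem_inter.2 ⟨h6, ?_⟩⟩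
      exact (mem_rm.1 (hrm K hK v h7)).1
    have h6 := card_le_card (hsub.trans h5)
    rw [card_erase_of_mem (mem_inter.2 ⟨hxi, hxQ⟩)] at h6
    have h7 := h.tr i
    omega
  refine ⟨Kx, hKm, fun K hK => (hK1 K (mem_filter.1 hK).1).1,
    fun K hK Z hZ => hpz K (mem_filter.1 hK).1 Z hZ, fun Z hZ hne => ?_, hsmK⟩
  by_cases hZY : (Z ∩ Y).Nonempty
  · exact Or.inl hZY
  · right
    obtain ⟨z, hz⟩ := hne
    have hzU : z ∈ Ks.biUnion id := by
      rw [hK3]
      exact hZ.1 hz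
    obtain ⟨K, hK, hzK⟩ := mem_biUnion.1 hzU
    have hKZ : K ⊆ Z := by
      rcases hpz K hK Z hZ with h3 | h3
      · exact h3
      · exact absurd hz (disjoint_left.1 h3 hzK)
    refine ⟨K, mem_filter.2 ⟨hK, ?_⟩, hKZ⟩
    rw [disjoint_left]
    intro v hvK hvY
    exact hZY ⟨v, mem_inter.2 ⟨hKZ hvK, hvY⟩⟩

/-- the sets of the new blocks. -/
theorem absG_sub (h : Gdl B Q L X Y I E N) {i : ι} {v : V}
    (hv : v ∈ absG B (rm Q L X Y) Y E N (Sum.inl i)) : v ∈ B i := by
  rcases mem_absG_inl.1 hv with h1 | h1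
  · exact h1.1
  · exact h.mem v h1.1 i h1.2

/-- **an exceptional part with an absorbed point** makes the cover number of the new system too large. -/
theorem rho_gain (h : Gdl B Q L X Y I E N) {K a : Finset V}
    (hK : Closed (gr (absG B (rm Q L X Y) Y E N)) (rm Q L X Y ∪ Y) K)
    (hKT : KT (absG B (rm Q L X Y) Y E N) K) {y : V} (hyK : y ∈ K) (haK : a ⊆ K)
    (hcost : ∀ J : Finset κ, (∀ c ∈ J, Disjoint (N c) a) →
      rho B (((L ∪ X) ∪ {y}) ∪ J.biUnion N) ≤ rho B L + J.card)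
    (hone : (univ.filter (fun c => y ∉ N c ∧ (N c ∩ K).Nonempty)).card ≤ 1) :
    rho B Q + 1 ≤ rho B L + rho (absG B (rm Q L X Y) Y E N) (rm Q L X Y ∪ Y) := by
  classical
  have hw := h.wir
  set W := rm Q L X Y ∪ Y with hW
  set B' := absG B (rm Q L X Y) Y E N with hB'
  have hrW : Reg B' W := hw.reg h.reg
  have h3W : Tr3 B' W := hw.tr3 h.tr
  have hWQ : W ⊆ Q := union_subset hw.CQ h.YQ
  have hrK : Reg B' K := fun v hv => hrW v (hK.1 hv)
  have h3K : Tr3 B' K := fun i => (card_le_card (inter_subset_inter_left hK.1)).trans (h3W i)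
  have hsep : Sep B' K (W \ K) := sep_of_closed hK sdiff_subset disjoint_sdiff
  have hcW := cov_of_reg hrW
  have hrho : rho B' W = 3 + rho B' (W \ K) := by
    have h1 := rho_add (hcW.mono hK.1) (hcW.mono sdiff_subset) hsep
    rw [union_sdiff_of_subset hK.1, hKT.2.2] at h1
    exact h1
  -- the two blocks of the part
  obtain ⟨i, j, hi, hj, hyi, hyj, hKi, hKj, hcov2⟩ := hKT.pair hrK h3K hyK
    (J := (univ.filter (fun c => y ∉ N c ∧ (N c ∩ K).Nonempty)).image Sum.inr)
    (card_image_le.trans hone)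
  have hinl : ∀ k : ι ⊕ κ, k ∉ (univ.filter (fun c => y ∉ N c ∧ (N c ∩ K).Nonempty)).image
      (Sum.inr : κ → ι ⊕ κ) → y ∉ B' k → (B' k ∩ K).Nonempty → ∃ k0, k = Sum.inl k0 := by
    intro k hk hyk hne
    rcases k with k0 | c
    · exact ⟨k0, rfl⟩
    · exfalso
      refine hk (mem_image.2 ⟨c, mem_filter.2 ⟨mem_univ _, fun h1 => hyk (mem_absG_inr.2 h1), ?_⟩,
        rfl⟩)
      obtain ⟨v, hv⟩ := hne
      obtain ⟨h1, h2⟩ := mem_inter.1 hv
      exact ⟨v, mem_inter.2 ⟨mem_absG_inr.1 h1, h2⟩⟩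
  obtain ⟨i0, rfl⟩ := hinl i hi hyi hKi
  obtain ⟨j0, rfl⟩ := hinl j hj hyj hKj
  -- a cover of the other parts
  obtain ⟨T, hT1, hT2⟩ := exists_cover (hcW.mono (sdiff_subset : W \ K ⊆ W))
  set T1 := T.filter (fun k => (B' k ∩ (W \ K)).Nonempty) with hT1'
  have hT1c : T1.card ≤ rho B' (W \ K) := by
    rw [← hT2]
    exact card_filter_le _ _
  set J := T1.toRight with hJ
  set S := T1.toLeft with hS
  have hJS : S.card + J.card = T1.card := card_toLeft_add_card_toRight
  have hJa : ∀ c ∈ J, Disjoint (N c) a := by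
    intro c hc
    have h1 := mem_toRight.1 hc
    obtain ⟨v, hv⟩ := (mem_filter.1 h1).2
    obtain ⟨hv1, hv2⟩ := mem_inter.1 hv
    have hv1' : v ∈ N c := mem_absG_inr.1 hv1
    obtain ⟨hvW, hvK⟩ := mem_sdiff.1 hv2
    rw [disjoint_left]
    intro u hu hua
    refine hvK ?_
    by_cases he : u = v
    · rw [← he]
      exact haK hua
    · exact hK.2 u (haK hua) v hvW (hw.adj_N he hu hv1')
  have h1 := hcost J hJa
  have hJQ : J.biUnion N ⊆ Q := biUnion_subset.2 fun c _ => (h.subN c).trans h.YQ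
  have hyQ : y ∈ Q := hWQ (hK.1 hyK)
  have hcL : Cov B (((L ∪ X) ∪ {y}) ∪ J.biUnion N) := h.cov.mono (union_subset (union_subset
    (union_subset h.LQ h.XQ) (singleton_subset_iff.2 hyQ)) hJQ)
  obtain ⟨T2, hT3, hT4⟩ := exists_cover hcL
  have h2 : Q ⊆ ((T2 ∪ S) ∪ {i0, j0}).biUnion B := by
    intro v hv
    by_cases hv1 : v ∈ W
    · by_cases hv2 : v ∈ K
      · by_cases hv3 : v = y
        · obtain ⟨k, hk, hvk⟩ := mem_biUnion.1 (hT3 (mem_union_left _ (mem_union_right _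
            (mem_singleton.2 hv3))))
          exact mem_biUnion.2 ⟨k, mem_union_left _ (mem_union_left _ hk), hvk⟩
        · rcases mem_union.1 (hcov2 (mem_erase.2 ⟨hv3, hv2⟩)) with h4 | h4
          · exact mem_biUnion.2 ⟨i0, mem_union_right _ (by simp), h.absG_sub h4⟩
          · exact mem_biUnion.2 ⟨j0, mem_union_right _ (by simp), h.absG_sub h4⟩
      · have hvD : v ∈ W \ K := mem_sdiff.2 ⟨hv1, hv2⟩
        obtain ⟨k, hk, hvk⟩ := mem_biUnion.1 (hT1 hvD)
        have hk1 : k ∈ T1 := mem_filter.2 ⟨hk, v, mem_inter.2 ⟨hvk, hvD⟩⟩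
        rcases k with k0 | c
        · exact mem_biUnion.2 ⟨k0, mem_union_left _ (mem_union_right _ (mem_toLeft.2 hk1)),
            h.absG_sub hvk⟩
        · have hc : c ∈ J := mem_toRight.2 hk1
          obtain ⟨k, hk, hvk'⟩ := mem_biUnion.1 (hT3 (mem_union_right _ (mem_biUnion.2
            ⟨c, hc, mem_absG_inr.1 hvk⟩)))
          exact mem_biUnion.2 ⟨k, mem_union_left _ (mem_union_left _ hk), hvk'⟩
    · have hv2 : v ∈ L ∪ X := by
        by_contra h4
        rw [mem_union, not_or] at h4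
        refine hv1 ?_
        rw [hW, mem_union]
        by_cases h5 : v ∈ Y
        · exact Or.inr h5
        · exact Or.inl (mem_rm.2 ⟨hv, h4.1, h4.2, h5⟩)
      obtain ⟨k, hk, hvk⟩ := mem_biUnion.1 (hT3 (mem_union_left _ (mem_union_left _ hv2)))
      exact mem_biUnion.2 ⟨k, mem_union_left _ (mem_union_left _ hk), hvk⟩
  have h4 := Hyp6.rho_le h2
  have h5 := card_union_le (T2 ∪ S) {i0, j0}
  have h6 := card_union_le T2 S
  have h7 : ({i0, j0} : Finset ι).card ≤ 2 := card_le_two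
  omega

/-- the general deletion from a bound of the value of the new system, with a gain. -/
theorem main_gain (h : Gdl B Q L X Y I E N) {p : ℤ} {g : ℕ}
    (hp : -p ≤ dv (absG B (rm Q L X Y) Y E N) (rm Q L X Y ∪ Y) (rm Q L X Y ∪ Y))
    (hg : rho B Q + g ≤ rho B L + rho (absG B (rm Q L X Y) Y E N) (rm Q L X Y ∪ Y)) :
    dv B Q L + 5 * (X.card : ℤ) + 4 * (I.card : ℤ) + 2 * ((lost B Q L X Y I E).card : ℤ)
       - 4 * (Fintype.card κ : ℤ) + 24 * g - p ≤ dv B Q Q := by
  classical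
  have hw := h.wir
  have hcm := h.cm_ge
  set C := rm Q L X Y with hC
  set B' := absG B C Y E N with hB'
  set Y1 := Y.filter (fun y => ∀ i, B i ∩ Q = {y} → i ∈ E y) with hY1
  set Y3 := Y.filter (fun y => ¬ ∀ i, B i ∩ Q = {y} → i ∈ E y) with hY3
  have hY1Y : Y1 ⊆ Y := filter_subset _ _
  have hY3Y : Y3 ⊆ Y := filter_subset _ _
  have hee := hw.ee_ge (Y1 := Y1) (Y2 := ∅) hY1Y (empty_subset _)
    (disjoint_empty_right _) (fun y hy => (mem_filter.1 hy).2)
    (fun y hy => absurd hy (notMem_empty _))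
  rw [← hB', card_empty] at hee
  have hlost := h.ee_lost (Y3 := Y3) hY3Y (fun y hy => by
    have h1 := (mem_filter.1 hy).2
    push Not at h1
    exact h1)
  have hdC : Disjoint ((L ∪ X) ∪ Y) C := disjoint_sdiff
  have hQe : ((L ∪ X) ∪ Y) ∪ C = Q :=
    union_sdiff_of_subset (union_subset (union_subset h.LQ h.XQ) h.YQ)
  have hdY : Disjoint (L ∪ X) Y := by
    rw [disjoint_union_left]
    exact ⟨h.dLY, h.dXY⟩
  have heQ : ee B Q Q = ee B Q L + ee B Q X + ee B Q Y + ee B Q C := by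
    have h1 := ee_union (B := B) (Q := Q) hdC
    rw [hQe, ee_union hdY, ee_union h.dLX] at h1
    exact h1
  have heY : ee B Q Y = ee B Q Y1 + ee B Q Y3 := by
    have h2 : Y1 ∪ Y3 = Y := filter_union_filter_not_eq _ _
    have h3 : Disjoint Y1 Y3 := disjoint_filter_filter_not _ _ _
    have h4 := ee_union (B := B) (Q := Q) h3
    rw [h2] at h4
    exact h4
  have hcard : Q.card = L.card + X.card + Y.card + C.card := by
    conv_lhs => rw [← hQe]
    rw [card_union_of_disjoint hdC, card_union_of_disjoint hdY, card_union_of_disjoint h.dLX]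
  have hCY : (C ∪ Y).card = C.card + Y.card := card_union_of_disjoint hw.dis
  have hPv' := Pv_eq (B := B') (C ∪ Y)
  have hPvQ := Pv_eq (B := B) Q
  have hPvL := Pv_eq (B := B) L
  rw [hCY] at hPv'
  rw [hcard] at hPvQ
  unfold dv at hp ⊢
  push_cast at hPv' hPvQ
  rw [hPvQ, hPvL, heQ, heY]
  rw [hPv'] at hp
  push_cast
  omega

/-- the class has a small new block. -/
def Sml (N : κ → Finset V) (a : Finset V) : Prop :=
  ∃ c, (N c).Nonempty ∧ (N c).card ≤ 2 ∧ N c ⊆ a

/-- **the general deletion with three kinds of link classes**. -/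
theorem main_core (h : Gdl B Q L X Y I E N)
    {n : ℕ} (ih : IHE.{u} V n) (ihr : IHR.{u} V n)
    (hn : (rm Q L X Y).card + Y.card < n) (hYne : Y.Nonempty)
    {A A4 Ap : Finset (Finset V)} (h4A : A4 ⊆ A) (hpA : Ap ⊆ A)
    (hAY : ∀ a ∈ A, a ⊆ Y) (hAne : ∀ a ∈ A, a.Nonempty) (hcov : ∀ y ∈ Y, ∃ a ∈ A, y ∈ a)
    (hlink : ∀ Z, Closed (gr (absG B (rm Q L X Y) Y E N)) (rm Q L X Y ∪ Y) Z →
      ∀ a ∈ A, a ⊆ Z ∨ Disjoint a Z) {m : ℕ}
    (hext : Ext (absG B (rm Q L X Y) Y E N) (rm Q L X Y ∪ Y) Y m)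
    (hsm : ∀ a ∈ A, a ∉ A4 → a ∉ Ap → Sml N a)
    (h4 : ∀ a ∈ A4, ∃ y ∈ a, (∀ J : Finset κ, (∀ c ∈ J, Disjoint (N c) a) →
      rho B (((L ∪ X) ∪ {y}) ∪ J.biUnion N) ≤ rho B L + J.card) ∧
      ∀ T : Finset κ, (∀ c ∈ T, y ∉ N c ∧ ∀ b ∈ A, Sml N b → ¬ N c ⊆ b) → T.card ≤ 1)
    (hc4 : A4.card ≤ 20) :
    dv B Q L + 5 * (X.card : ℤ) + 4 * (I.card : ℤ) + 2 * ((lost B Q L X Y I E).card : ℤ)
       - 4 * (Fintype.card κ : ℤ) - (A.card + Ap.card + m) ≤ dv B Q Q ∧
    ((X.card : ℤ) ≤ sv B Q - sv B L → (∃ a ∈ A, a ∉ Ap) →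
      dv B Q L + 5 * (X.card : ℤ) + 4 * (I.card : ℤ) + 2 * ((lost B Q L X Y I E).card : ℤ)
       - 4 * (Fintype.card κ : ℤ) + 1 - (A.card + Ap.card + m) ≤ dv B Q Q) := by
  classical
  have hw := h.wir
  set W := rm Q L X Y ∪ Y with hW
  set B' := absG B (rm Q L X Y) Y E N with hB'
  have hCY : W.card = (rm Q L X Y).card + Y.card := card_union_of_disjoint hw.dis
  have hrW : Reg B' W := hw.reg h.reg
  have h3W : Tr3 B' W := hw.tr3 h.tr
  obtain ⟨Kx, hx1, hx2, hx3, hx4, hx5⟩ := hext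
  have hNW : ∀ c, B' (Sum.inr c) ∩ W = N c := by
    intro c
    rw [hB', hw.inter_self]
    ext v
    exact mem_absG_inr
  -- exceptional sets have no small blocks
  have hktsm : ∀ Z, Closed (gr B') W Z → KT B' Z → ∀ i, (B' i ∩ W).Nonempty →
      (B' i ∩ W).card ≤ 2 → ¬ B' i ∩ W ⊆ Z := by
    intro Z hZ hK i hi1 hi2 hi3
    have hrZ : Reg B' Z := fun v hv => hrW v (hZ.1 hv)
    have h3Z : Tr3 B' Z := fun i => (card_le_card (inter_subset_inter_left hZ.1)).trans (h3W i)
    obtain ⟨v, hv⟩ := hi1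
    have h1 : (B' i ∩ Z).Nonempty := ⟨v, mem_inter.2 ⟨(mem_inter.1 hv).1, hi3 hv⟩⟩
    have h2 := hK.trace hrZ h3Z h1
    have h5 := card_le_card (inter_subset_inter_left (s := B' i) hZ.1)
    omega
  have hktS : ∀ Z, Closed (gr B') W Z → KT B' Z → ∀ a, Sml N a → ¬ a ⊆ Z := by
    rintro Z hZ hK a ⟨c, hc1, hc2, hc3⟩ haZ
    refine hktsm Z hZ hK (Sum.inr c) ?_ ?_ ?_
    · rw [hNW]
      exact hc1
    · rw [hNW]
      exact hc2
    · rw [hNW]
      exact hc3.trans haZ
  have hWne : W.Nonempty := hYne.mono subset_union_right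
  have hcA : ((A ∪ Kx).card : ℤ) ≤ A.card + m := by
    have h1 := card_union_le A Kx
    have h2 : ((A ∪ Kx).card : ℤ) ≤ A.card + Kx.card := by exact_mod_cast h1
    have h3 : (Kx.card : ℤ) ≤ m := by exact_mod_cast hx1
    linarith
  have hparts := fun (Ab : Finset (Finset V)) (hAb : Ab ⊆ A)
      (hk : ∀ Z, Closed (gr B') W Z → Conn (gr B') Z → KT B' Z → ∀ a ∈ A, a ⊆ Z → a ∈ Ab) =>
    dv_parts_pen ih ihr (B := B') W (A ∪ Kx) Ab (hAb.trans subset_union_left)
      (by rw [hCY]; exact hn) hrW h3W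
      (fun a ha => by
        rcases mem_union.1 ha with h1 | h1
        · exact (hAY a h1).trans subset_union_right
        · exact hx2 a h1)
      (fun a ha => by
        rcases mem_union.1 ha with h1 | h1
        · exact hAne a h1
        · obtain ⟨i, ⟨v, hv⟩, _, hi3⟩ := hx5 a h1
          exact ⟨v, hi3 hv⟩)
      (fun Z hZ a ha => by
        rcases mem_union.1 ha with h1 | h1
        · exact hlink Z hZ a h1
        · exact hx3 a h1 Z hZ)
      (fun Z hZ hne => by
        rcases hx4 Z hZ hne with h1 | ⟨K, hK, hKZ⟩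
        · obtain ⟨y, hy⟩ := h1
          obtain ⟨hyZ, hyY⟩ := mem_inter.1 hy
          obtain ⟨a, ha, hya⟩ := hcov y hyY
          refine ⟨a, mem_union_left _ ha, ?_⟩
          rcases hlink Z hZ a ha with h3 | h3
          · exact h3
          · exact absurd hyZ (disjoint_left.1 h3 hya)
        · exact ⟨K, mem_union_right _ hK, hKZ⟩)
      (fun Z hZ hcZ hKZ a ha haZ => by
        rcases mem_union.1 ha with h1 | h1
        · exact hk Z hZ hcZ hKZ a h1 haZ
        · obtain ⟨i, hi1, hi2, hi3⟩ := hx5 a h1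
          exact absurd (hi3.trans haZ) (hktsm Z hZ hKZ i hi1 hi2))
      hWne
  by_cases hcase : ∃ Z, Closed (gr B') W Z ∧ Conn (gr B') Z ∧ KT B' Z ∧ ∃ a ∈ A4, a ⊆ Z
  · obtain ⟨K, hK, hcK, hKT, a, ha, haK⟩ := hcase
    obtain ⟨y, hya, hJ, hone⟩ := h4 a ha
    have hg := h.rho_gain hK hKT (haK hya) haK hJ (by
      refine hone _ fun c hc => ?_
      obtain ⟨_, h1, h2⟩ := mem_filter.1 hc
      refine ⟨h1, fun b hb hbS hcb => ?_⟩
      obtain ⟨v, hv⟩ := h2
      obtain ⟨hvc, hvK⟩ := mem_inter.1 hv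
      rcases hlink K hK b hb with h5 | h5
      · exact hktS K hK hKT b hbS h5
      · exact disjoint_left.1 h5 (hcb hvc) hvK)
    obtain ⟨h1, _, _⟩ := hparts (A4 ∪ Ap) (union_subset h4A hpA)
      (fun Z hZ hcZ hKZ b hb hbZ => by
        by_contra h5
        rw [mem_union, not_or] at h5
        exact hktS Z hZ hKZ b (hsm b hb h5.1 h5.2) hbZ)
    have h2 := h.main_gain h1 hg
    push_cast at h2
    have h3 := card_union_le A4 Ap
    have h5 : ((A4 ∪ Ap).card : ℤ) ≤ A4.card + Ap.card := by exact_mod_cast h3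
    have h6 : (A4.card : ℤ) ≤ 20 := by exact_mod_cast hc4
    exact ⟨by linarith, fun _ _ => by linarith⟩
  · push Not at hcase
    obtain ⟨h1, _, h2⟩ := hparts Ap hpA
      (fun Z hZ hcZ hKZ b hb hbZ => by
        by_contra h5
        by_cases h6 : b ∈ A4
        · exact hcase Z hZ hcZ hKZ b h6 hbZ
        · exact hktS Z hZ hKZ b (hsm b hb h6 h5) hbZ)
    by_cases hgd : ∃ a ∈ A, a ∉ Ap
    · obtain ⟨a, ha, ha'⟩ := hgd
      obtain ⟨k1, k2⟩ := h.main_gen h1 (fun hs => h2 hs ⟨a, mem_union_left _ ha, ha'⟩)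
      exact ⟨by linarith, fun hX _ => by
        have := k2 hX
        linarith⟩
    · have h5 := h.main_gain (g := 0) h1 h.rho_le
      push_cast at h5
      exact ⟨by linarith, fun _ hg => absurd hg hgd⟩

end Gdl

end Pool.Agent.Hyp6
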