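import Pool.Agent.Hyp6.Gdq

/-!
# HYP6 GDQ6: the general deletion, the bonus for many parts, two systems together

`dv_parts_b`: without exceptional parts the value is at least `1 - p` as soon as `sv` is at least `1 - p`.
`Gdl.main6`: the corresponding general deletion. `Gdl.ext_pair`: for two general deletions with three
deleted points, the further parts of both need different blocks of a common deleted point.
-/

set_option autoImplicit false

namespace Pool.Agent.Hyp6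

open Finset Pool.Agent.Hyp5

universe u v

section

variable {V : Type v} [DecidableEq V] {ι : Type u} [Fintype ι] {B : ι → Finset V}

/-- **the value of a system in parts** without exceptional parts, strong form. -/
theorem dv_parts_b {n : ℕ} (ih : IHE.{u} V n) (ihr : IHR.{u} V n) :
    ∀ (W : Finset V) (A : Finset (Finset V)), W.card < n → Reg B W → Tr3 B W →
      (∀ a ∈ A, a ⊆ W) → (∀ a ∈ A, a.Nonempty) →
      (∀ Z, Closed (gr B) W Z → ∀ a ∈ A, a ⊆ Z ∨ Disjoint a Z) →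
      (∀ Z, Closed (gr B) W Z → Z.Nonempty → ∃ a ∈ A, a ⊆ Z) →
      (∀ Z, Closed (gr B) W Z → Conn (gr B) Z → ¬ KT B Z) →
      W.Nonempty → -(A.card : ℤ) ≤ dv B W W ∧
        (1 - (A.card : ℤ) ≤ sv B W → 1 - (A.card : ℤ) ≤ dv B W W) := by
  classical
  intro W
  induction W using Finset.strongInduction with
  | H W IH =>
    intro A hn hr h3 hAW hAne hlink hmeet hkt hne
    have hWW : Closed (gr B) W W := ⟨Subset.refl _, fun _ _ y hy _ => hy⟩
    by_cases hc : Conn (gr B) W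
    · obtain ⟨a, ha, haW⟩ := hmeet W hWW hne
      have hA1 : 1 ≤ A.card := card_pos.2 ⟨a, ha⟩
      have hK := hkt W hWW hc
      have h1 := ih ι B W hn hr h3 hc hK
      have h2 := ih_nonneg ih ihr hn hr h3 hc hK
      unfold dv
      refine ⟨by omega, fun hs => ?_⟩
      by_cases h5 : 2 ≤ A.card
      · omega
      · have := h2 (by omega)
        omega
    · have hex : ∃ Z, Closed (gr B) W Z ∧ Z.Nonempty ∧ Z ≠ W := by
        by_contra hcon
        push Not at hcon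
        exact hc ⟨hne, fun Z hZ hZne => hcon Z hZ hZne⟩
      obtain ⟨Z, hZ, hZne, hZW⟩ := hex
      have hD := closed_compl hZ
      have hDne : (W \ Z).Nonempty := by
        rw [sdiff_nonempty]
        exact fun h => hZW (subset_antisymm hZ.1 h)
      have hAc : (A.filter (fun a => a ⊆ Z)).card + (A.filter (fun a => a ⊆ W \ Z)).card =
          A.card := by
        have h1 : Disjoint (A.filter (fun a => a ⊆ Z)) (A.filter (fun a => a ⊆ W \ Z)) := by
          rw [disjoint_left]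
          intro a ha1 ha2
          obtain ⟨ha, h1⟩ := mem_filter.1 ha1
          obtain ⟨_, h2⟩ := mem_filter.1 ha2
          obtain ⟨w, hw⟩ := hAne a ha
          exact (mem_sdiff.1 (h2 hw)).2 (h1 hw)
        rw [← card_union_of_disjoint h1]
        congr 1
        ext a
        simp only [mem_union, mem_filter]
        constructor
        · rintro (h2 | h2)
          · exact h2.1
          · exact h2.1
        · intro ha
          rcases hlink Z hZ a ha with h2 | h2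
          · exact Or.inl ⟨ha, h2⟩
          · exact Or.inr ⟨ha, fun v hv => mem_sdiff.2 ⟨hAW a ha hv, disjoint_left.1 h2 hv⟩⟩
      have key : ∀ (Y : Finset V), Closed (gr B) W Y → Y.Nonempty → Y ⊂ W →
          -((A.filter (fun a => a ⊆ Y)).card : ℤ) ≤ dv B Y Y ∧
          (1 - ((A.filter (fun a => a ⊆ Y)).card : ℤ) ≤ sv B Y →
            1 - ((A.filter (fun a => a ⊆ Y)).card : ℤ) ≤ dv B Y Y) := by
        intro Y hY hYne hYW
        refine IH Y hYW _
          (lt_of_lt_of_le (card_lt_card hYW) hn.le) (fun v hv => hr v (hY.1 hv))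
          (fun i => (card_le_card (inter_subset_inter_left hY.1)).trans (h3 i))
          (fun a ha => (mem_filter.1 ha).2) (fun a ha => hAne a (mem_filter.1 ha).1)
          (fun Z' hZ' a ha => hlink Z' (closed_trans hY hZ') a (mem_filter.1 ha).1)
          (fun Z' hZ' hZne' => ?_) (fun Z' hZ' hcZ => hkt Z' (closed_trans hY hZ') hcZ) hYne
        obtain ⟨a, ha, haZ⟩ := hmeet Z' (closed_trans hY hZ') hZne'
        exact ⟨a, mem_filter.2 ⟨ha, haZ.trans hZ'.1⟩, haZ⟩
      have hZss : Z ⊂ W := ssubset_of_subset_of_ne hZ.1 hZW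
      have hDss : W \ Z ⊂ W := by
        refine ssubset_of_subset_of_ne sdiff_subset fun h => ?_
        obtain ⟨z, hz⟩ := hZne
        have : z ∈ W \ Z := by
          rw [h]
          exact hZ.1 hz
        exact (mem_sdiff.1 this).2 hz
      obtain ⟨k1, k2⟩ := key Z hZ hZne hZss
      obtain ⟨l1, l2⟩ := key (W \ Z) hD hDne hDss
      obtain ⟨h1, h2⟩ := dv_split hr hZ
      refine ⟨by omega, fun hs => ?_⟩
      rw [h2] at hs
      by_cases h5 : 1 - ((A.filter (fun a => a ⊆ Z)).card : ℤ) ≤ sv B Z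
      · have := k2 h5
        omega
      · have := l2 (by omega)
        omega

end

namespace Gdl

variable {V : Type v} [DecidableEq V] {ι : Type u} [Fintype ι] {κ κ' : Type u} [Fintype κ]
  [Fintype κ']
  {B : ι → Finset V} {Q L X Y X' Y' : Finset V} {I : Finset ι} {E E' : V → Finset ι}
  {N : κ → Finset V} {N' : κ' → Finset V}

/-- the general deletion from a bound of the value of the new system, with a threshold. -/
theorem main_gen6 (h : Gdl B Q L X Y I E N) {p t : ℤ}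
    (hp : -p ≤ dv (absG B (rm Q L X Y) Y E N) (rm Q L X Y ∪ Y) (rm Q L X Y ∪ Y))
    (hp2 : -t ≤ sv (absG B (rm Q L X Y) Y E N) (rm Q L X Y ∪ Y) →
      1 - p ≤ dv (absG B (rm Q L X Y) Y E N) (rm Q L X Y ∪ Y) (rm Q L X Y ∪ Y))
    (hX : (X.card : ℤ) ≤ sv B Q - sv B L + t) :
    dv B Q L + 5 * (X.card : ℤ) + 4 * (I.card : ℤ) + 2 * ((lost B Q L X Y I E).card : ℤ)
       - 4 * (Fintype.card κ : ℤ) + 1 - p ≤ dv B Q Q := by
  classical
  have hrho := h.rho_le
  rcases Nat.lt_or_ge (rho B Q) (rho B L + rho (absG B (rm Q L X Y) Y E N) (rm Q L X Y ∪ Y)) with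
    h1 | h1
  · have h2 := h.main_gain (g := 1) hp h1
    push_cast at h2
    linarith
  · have hw := h.wir
    have hs : -t ≤ sv (absG B (rm Q L X Y) Y E N) (rm Q L X Y ∪ Y) := by
      have hdC : Disjoint ((L ∪ X) ∪ Y) (rm Q L X Y) := disjoint_sdiff
      have hQe : ((L ∪ X) ∪ Y) ∪ rm Q L X Y = Q :=
        union_sdiff_of_subset (union_subset (union_subset h.LQ h.XQ) h.YQ)
      have hdY : Disjoint (L ∪ X) Y := by
        rw [disjoint_union_left]
        exact ⟨h.dLY, h.dXY⟩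
      have hcard : Q.card = L.card + X.card + Y.card + (rm Q L X Y).card := by
        conv_lhs => rw [← hQe]
        rw [card_union_of_disjoint hdC, card_union_of_disjoint hdY, card_union_of_disjoint h.dLX]
      have hCY : (rm Q L X Y ∪ Y).card = (rm Q L X Y).card + Y.card :=
        card_union_of_disjoint hw.dis
      have e1 : sv B Q = (Q.card : ℤ) - 2 * (rho B Q : ℤ) := rfl
      have e2 : sv B L = (L.card : ℤ) - 2 * (rho B L : ℤ) := rfl
      have e3 : sv (absG B (rm Q L X Y) Y E N) (rm Q L X Y ∪ Y) =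
        ((rm Q L X Y ∪ Y).card : ℤ) -
          2 * (rho (absG B (rm Q L X Y) Y E N) (rm Q L X Y ∪ Y) : ℤ) := rfl
      omega
    have h2 := h.main_gain (g := 0) (p := p - 1) (by linarith [hp2 hs]) hrho
    push_cast at h2
    linarith

/-- **the general deletion**, all classes with small blocks, with the bonus for many parts. -/
theorem main6 (h : Gdl B Q L X Y I E N)
    {n : ℕ} (ih : IHE.{u} V n) (ihr : IHR.{u} V n)
    (hn : (rm Q L X Y).card + Y.card < n) (hYne : Y.Nonempty)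
    {A : Finset (Finset V)}
    (hAY : ∀ a ∈ A, a ⊆ Y) (hcov : ∀ y ∈ Y, ∃ a ∈ A, y ∈ a)
    (hlink : ∀ Z, Closed (gr (absG B (rm Q L X Y) Y E N)) (rm Q L X Y ∪ Y) Z →
      ∀ a ∈ A, a ⊆ Z ∨ Disjoint a Z) {m : ℕ}
    (hext : Ext (absG B (rm Q L X Y) Y E N) (rm Q L X Y ∪ Y) Y m)
    (hsm : ∀ a ∈ A, Sml N a) :
    dv B Q L + 5 * (X.card : ℤ) + 4 * (I.card : ℤ) + 2 * ((lost B Q L X Y I E).card : ℤ)
       - 4 * (Fintype.card κ : ℤ) - (A.card + m) ≤ dv B Q Q ∧
    ((X.card : ℤ) ≤ sv B Q - sv B L + (A.card + m - 1) →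
      dv B Q L + 5 * (X.card : ℤ) + 4 * (I.card : ℤ) + 2 * ((lost B Q L X Y I E).card : ℤ)
       - 4 * (Fintype.card κ : ℤ) + 1 - (A.card + m) ≤ dv B Q Q) := by
  classical
  have hw := h.wir
  set W := rm Q L X Y ∪ Y with hW
  set B' := absG B (rm Q L X Y) Y E N with hB'
  have hCY : W.card = (rm Q L X Y).card + Y.card := card_union_of_disjoint hw.dis
  have hrW : Reg B' W := hw.reg h.reg
  have h3W : Tr3 B' W := hw.tr3 h.tr
  obtain ⟨Kx, hx1, hx2, hx3, hx4, hx5⟩ := hext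
  have hNW : ∀ c, B' (Sum.inr c) ∩ W = N c := by
    intro c
    rw [hB', hw.inter_self]
    ext v
    exact mem_absG_inr
  have hktsm : ∀ Z, Closed (gr B') W Z → KT B' Z → ∀ i, (B' i ∩ W).Nonempty →
      (B' i ∩ W).card ≤ 2 → ¬ B' i ∩ W ⊆ Z := by
    intro Z hZ hK i hi1 hi2 hi3
    have hrZ : Reg B' Z := fun v hv => hrW v (hZ.1 hv)
    have h3Z : Tr3 B' Z := fun i => (card_le_card (inter_subset_inter_left hZ.1)).trans (h3W i)
    obtain ⟨v, hv⟩ := hi1
    have h1 : (B' i ∩ Z).Nonempty := ⟨v, mem_inter.2 ⟨(mem_inter.1 hv).1, hi3 hv⟩⟩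
    have h2 := hK.trace hrZ h3Z h1
    have h5 := card_le_card (inter_subset_inter_left (s := B' i) hZ.1)
    omega
  have hWne : W.Nonempty := hYne.mono subset_union_right
  have hcA : (A ∪ Kx).card ≤ A.card + m := (card_union_le _ _).trans (by omega)
  have hmeet : ∀ Z, Closed (gr B') W Z → Z.Nonempty → ∃ a ∈ A ∪ Kx, a ⊆ Z := by
    intro Z hZ hne
    rcases hx4 Z hZ hne with h1 | ⟨K, hK, hKZ⟩
    · obtain ⟨y, hy⟩ := h1
      obtain ⟨hyZ, hyY⟩ := mem_inter.1 hy
      obtain ⟨a, ha, hya⟩ := hcov y hyY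
      refine ⟨a, mem_union_left _ ha, ?_⟩
      rcases hlink Z hZ a ha with h3 | h3
      · exact h3
      · exact absurd hyZ (disjoint_left.1 h3 hya)
    · exact ⟨K, mem_union_right _ hK, hKZ⟩
  obtain ⟨h1, h2⟩ := dv_parts_b ih ihr (B := B') W (A ∪ Kx)
      (by rw [hCY]; exact hn) hrW h3W
      (fun a ha => by
        rcases mem_union.1 ha with h1 | h1
        · exact (hAY a h1).trans subset_union_right
        · exact hx2 a h1)
      (fun a ha => by
        rcases mem_union.1 ha with h1 | h1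
        · obtain ⟨c, ⟨v, hv⟩, _, hc3⟩ := hsm a h1
          exact ⟨v, hc3 hv⟩
        · obtain ⟨i, ⟨v, hv⟩, _, hi3⟩ := hx5 a h1
          exact ⟨v, hi3 hv⟩)
      (fun Z hZ a ha => by
        rcases mem_union.1 ha with h1 | h1
        · exact hlink Z hZ a h1
        · exact hx3 a h1 Z hZ) hmeet
      (fun Z hZ hcZ hKZ => by
        obtain ⟨a, ha, haZ⟩ := hmeet Z hZ hcZ.1
        rcases mem_union.1 ha with h1 | h1
        · obtain ⟨c, hc1, hc2, hc3⟩ := hsm a h1
          refine hktsm Z hZ hKZ (Sum.inr c) ?_ ?_ ?_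
          · rw [hNW]
            exact hc1
          · rw [hNW]
            exact hc2
          · rw [hNW]
            exact hc3.trans haZ
        · obtain ⟨i, hi1, hi2, hi3⟩ := hx5 a h1
          exact hktsm Z hZ hKZ i hi1 hi2 (hi3.trans haZ))
      hWne
  have hcA' : ((A ∪ Kx).card : ℤ) ≤ A.card + m := by exact_mod_cast hcA
  have h5 := h.main_gain (g := 0) h1 h.rho_le
  push_cast at h5
  refine ⟨by linarith, fun hX => ?_⟩
  by_cases h6 : ((A ∪ Kx).card : ℤ) = A.card + m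
  · have h7 := h.main_gen6 (p := A.card + m) (t := A.card + m - 1) (by linarith)
      (fun hs => by
        have := h2 (by linarith)
        linarith) hX
    linarith
  · have h7 : ((A ∪ Kx).card : ℤ) + 1 ≤ A.card + m := by omega
    linarith

/-- the further parts. -/
def Fur {τ : Type u} (B' : τ → Finset V) (W Y K : Finset V) : Prop :=
  Closed (gr B') W K ∧ Conn (gr B') K ∧ Disjoint K Y

/-- the number of parts which avoid the contact points from a bound for families of such parts. -/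
theorem ext_of_bd (h : Gdl B Q L X Y I E N) (hv : ViolR B Q) (hLne : L.Nonempty)
    {S : Finset V} (hSY : S ⊆ Y)
    (hkeep : ∀ y ∈ Y, y ∉ S → ∀ i, y ∈ B i → (B i ∩ rm Q L X Y).Nonempty → i ∈ E y) {m : ℕ}
    (hbd : ∀ Kx : Finset (Finset V),
      (∀ K ∈ Kx, Fur (absG B (rm Q L X Y) Y E N) (rm Q L X Y ∪ Y) Y K) → Kx.card ≤ m) :
    Ext (absG B (rm Q L X Y) Y E N) (rm Q L X Y ∪ Y) Y m := by
  classical
  have hw := h.wir
  have hCY : (rm Q L X Y ∪ Y).card = (rm Q L X Y).card + Y.card := card_union_of_disjoint hw.dis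
  obtain ⟨Ks, hK1, hK2, hK3⟩ := exists_parts (absG B (rm Q L X Y) Y E N) (rm Q L X Y ∪ Y)
  set Kx := Ks.filter (fun K => Disjoint K Y) with hKx
  have hrm : ∀ K ∈ Kx, ∀ v ∈ K, v ∈ rm Q L X Y := by
    intro K hK v hv'
    obtain ⟨hK', hd⟩ := mem_filter.1 hK
    rcases mem_union.1 ((hK1 K hK').1 hv') with h1 | h1
    · exact h1
    · exact absurd h1 (disjoint_left.1 hd hv')
  -- a closed set contains a part or is disjoint from it
  have hpz : ∀ K ∈ Ks, ∀ Z, Closed (gr (absG B (rm Q L X Y) Y E N)) (rm Q L X Y ∪ Y) Z →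
      K ⊆ Z ∨ Disjoint K Z := by
    intro K hK Z hZ
    by_cases hd : Disjoint K Z
    · exact Or.inr hd
    left
    rw [not_disjoint_iff] at hd
    obtain ⟨z, hzK, hzZ⟩ := hd
    obtain ⟨k1, k2, k3⟩ := hK1 K hK
    have hcl : Closed (gr (absG B (rm Q L X Y) Y E N)) K (Z ∩ K) := by
      refine ⟨inter_subset_right, fun v hv' w hw' hvw => ?_⟩
      obtain ⟨h1, h2⟩ := mem_inter.1 hv'
      exact mem_inter.2 ⟨hZ.2 v h1 w (k1 hw') hvw, hw'⟩
    have heq := k3.2 (Z ∩ K) hcl ⟨z, mem_inter.2 ⟨hzZ, hzK⟩⟩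
    rw [← heq]
    exact inter_subset_left
  -- a block meets at most one part
  have hone : ∀ i, ∀ K ∈ Kx, ∀ K' ∈ Kx, (B i ∩ K).Nonempty → (B i ∩ K').Nonempty → K = K' := by
    intro i K hK K' hK' ⟨w, hw1⟩ ⟨w', hw1'⟩
    obtain ⟨hwi, hwK⟩ := mem_inter.1 hw1
    obtain ⟨hwi', hwK'⟩ := mem_inter.1 hw1'
    by_contra hne
    have hd := (hK2 K (mem_filter.1 hK).1 K' (mem_filter.1 hK').1 hne).1
    have h1 : w' ∈ K := by
      by_cases he : w = w'
      · exact he ▸ hwK
      · exact (hK1 K (mem_filter.1 hK).1).2.1.2 w hwK w'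
          (mem_union_left _ (hrm K' hK' w' hwK'))
          (hw.adj_C (hrm K hK w hwK) (hrm K' hK' w' hwK') ⟨he, i, hwi, hwi'⟩)
    exact disjoint_left.1 hd h1 hwK'
  have hKm : Kx.card ≤ m := hbd Kx fun K hK => by
    obtain ⟨hKs, hd⟩ := mem_filter.1 hK
    exact ⟨(hK1 K hKs).2.1, (hK1 K hKs).2.2, hd⟩
  -- the parts which avoid `Y` have a small block
  have hsmK : ∀ K ∈ Kx, ∃ i, (absG B (rm Q L X Y) Y E N i ∩ (rm Q L X Y ∪ Y)).Nonempty ∧
      (absG B (rm Q L X Y) Y E N i ∩ (rm Q L X Y ∪ Y)).card ≤ 2 ∧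
      absG B (rm Q L X Y) Y E N i ∩ (rm Q L X Y ∪ Y) ⊆ K := by
    intro K hK
    obtain ⟨hKs, hd⟩ := mem_filter.1 hK
    obtain ⟨W3, hW3, hc3, hs3⟩ := h.see_three hv hLne hSY hkeep (hK1 K hKs).2.1
      (hK1 K hKs).2.2.1 hd
    obtain ⟨x, hx⟩ := card_pos.1 (show 0 < W3.card by omega)
    obtain ⟨i, _, hxi, w, hw1⟩ := hs3 x hx
    obtain ⟨hwi, hwK⟩ := mem_inter.1 hw1
    have hwC := hrm K hK w hwK
    have hsub : absG B (rm Q L X Y) Y E N (Sum.inl i) ∩ (rm Q L X Y ∪ Y) ⊆ B i ∩ K := by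
      intro v hv'
      obtain ⟨hv1, hv2⟩ := mem_inter.1 hv'
      rcases mem_union.1 hv2 with h1 | h1
      · have hvi : v ∈ B i := by
          have h2 := (mem_absG_inl.1 hv1)
          rcases h2 with h3 | h3
          · exact h3.1
          · exact absurd h3.1 (mem_rm.1 h1).2.2.2
        refine mem_inter.2 ⟨hvi, ?_⟩
        by_cases he : w = v
        · exact he ▸ hwK
        · exact (hK1 K hKs).2.1.2 w hwK v (mem_union_left _ h1)
            (hw.adj_C hwC h1 ⟨he, i, hwi, hvi⟩)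
      · exfalso
        have h2 := (mem_absG_inl.1 hv1)
        have hiE : i ∈ E v := by
          rcases h2 with h3 | h3
          · exact absurd h1 (mem_rm.1 h3.2).2.2.2
          · exact h3.2
        have h4 : v ∈ K := (hK1 K hKs).2.1.2 w hwK v (mem_union_right _ h1)
          (hw.adj_Y h1 hwC hiE hwi).symm
        exact disjoint_left.1 hd h4 h1
    refine ⟨Sum.inl i, ⟨w, mem_inter.2 ⟨mem_absG_inl.2 (Or.inl ⟨hwi, hwC⟩),
      mem_union_left _ hwC⟩⟩, ?_, hsub.trans inter_subset_right⟩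
    have hxXS := hW3 hx
    have hxQ : x ∈ Q := by
      rcases mem_union.1 hxXS with h1 | h1
      · exact h.XQ h1
      · exact h.YQ (hSY h1)
    have hxK : x ∉ K := by
      intro h1
      have h2 := hrm K hK x h1
      rcases mem_union.1 hxXS with h3 | h3
      · exact (mem_rm.1 h2).2.2.1 h3
      · exact (mem_rm.1 h2).2.2.2 (hSY h3)
    have h5 : B i ∩ K ⊆ (B i ∩ Q).erase x := by
      intro v hv'
      obtain ⟨h6, h7⟩ := mem_inter.1 hv'
      refine mem_erase.2 ⟨fun he => hxK (he ▸ h7), mem_inter.2 ⟨h6, ?_⟩⟩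
      exact (mem_rm.1 (hrm K hK v h7)).1
    have h6 := card_le_card (hsub.trans h5)
    rw [card_erase_of_mem (mem_inter.2 ⟨hxi, hxQ⟩)] at h6
    have h7 := h.tr i
    omega
  refine ⟨Kx, hKm, fun K hK => (hK1 K (mem_filter.1 hK).1).1,
    fun K hK Z hZ => hpz K (mem_filter.1 hK).1 Z hZ, fun Z hZ hne => ?_, hsmK⟩
  by_cases hZY : (Z ∩ Y).Nonempty
  · exact Or.inl hZY
  · right
    obtain ⟨z, hz⟩ := hne
    have hzU : z ∈ Ks.biUnion id := by
      rw [hK3]
      exact hZ.1 hz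
    obtain ⟨K, hK, hzK⟩ := mem_biUnion.1 hzU
    have hKZ : K ⊆ Z := by
      rcases hpz K hK Z hZ with h3 | h3
      · exact h3
      · exact absurd hz (disjoint_left.1 h3 hzK)
    refine ⟨K, mem_filter.2 ⟨hK, ?_⟩, hKZ⟩
    rw [disjoint_left]
    intro v hvK hvY
    exact hZY ⟨v, mem_inter.2 ⟨hKZ hvK, hvY⟩⟩

/-- two further parts of the same system with a common point are equal. -/
theorem fur_eq (_h : Gdl B Q L X Y I E N) {K K1 : Finset V}
    (hK : Fur (absG B (rm Q L X Y) Y E N) (rm Q L X Y ∪ Y) Y K)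
    (hK1 : Fur (absG B (rm Q L X Y) Y E N) (rm Q L X Y ∪ Y) Y K1)
    (hne : (K ∩ K1).Nonempty) : K = K1 := by
  classical
  have key : ∀ {A A' : Finset V}, Fur (absG B (rm Q L X Y) Y E N) (rm Q L X Y ∪ Y) Y A →
      Fur (absG B (rm Q L X Y) Y E N) (rm Q L X Y ∪ Y) Y A' → (A ∩ A').Nonempty → A ⊆ A' := by
    intro A A' hA hA' hne
    have hcl : Closed (gr (absG B (rm Q L X Y) Y E N)) A (A' ∩ A) := by
      refine ⟨inter_subset_right, fun v hv w hw hvw => ?_⟩
      obtain ⟨h1, h2⟩ := mem_inter.1 hv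
      exact mem_inter.2 ⟨hA'.1.2 v h1 w (hA.1.1 hw) hvw, hw⟩
    have heq := hA.2.1.2 (A' ∩ A) hcl (by rwa [inter_comm])
    rw [← heq]
    exact inter_subset_left
  exact subset_antisymm (key hK hK1 hne) (key hK1 hK (by rwa [inter_comm]))

/-- the points of a further part. -/
theorem fur_rm {K : Finset V}
    (hK : Fur (absG B (rm Q L X Y) Y E N) (rm Q L X Y ∪ Y) Y K) : K ⊆ rm Q L X Y := by
  intro v hv
  rcases mem_union.1 (hK.1.1 hv) with h1 | h1
  · exact h1
  · exact absurd h1 (disjoint_left.1 hK.2.2 hv)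

/-- a block with points in two further parts. -/
theorem fur_block (h : Gdl B Q L X Y I E N) {K K1 : Finset V}
    (hK : Fur (absG B (rm Q L X Y) Y E N) (rm Q L X Y ∪ Y) Y K)
    (hK1 : Fur (absG B (rm Q L X Y) Y E N) (rm Q L X Y ∪ Y) Y K1) {i : ι}
    (hi : (B i ∩ K).Nonempty) (hi1 : (B i ∩ K1).Nonempty) : K = K1 := by
  classical
  have hw := h.wir
  obtain ⟨w, hw0⟩ := hi
  obtain ⟨w', hw0'⟩ := hi1
  obtain ⟨hwi, hwK⟩ := mem_inter.1 hw0
  obtain ⟨hwi', hwK'⟩ := mem_inter.1 hw0'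
  refine h.fur_eq hK hK1 ?_
  by_cases he : w = w'
  · exact ⟨w, mem_inter.2 ⟨hwK, he ▸ hwK'⟩⟩
  · exact ⟨w', mem_inter.2 ⟨hK.1.2 w hwK w' (hK1.1.1 hwK')
      (hw.adj_C (fur_rm hK hwK) (fur_rm hK1 hwK') ⟨he, i, hwi, hwi'⟩), hwK'⟩⟩

/-- all the deleted points see a further part, if there are three and no trimmed points. -/
theorem fur_see (h : Gdl B Q L X Y I E N) (hv : ViolR B Q) (hLne : L.Nonempty)
    (hX3 : X.card = 3)
    (hkeep : ∀ y ∈ Y, ∀ i, y ∈ B i → (B i ∩ rm Q L X Y).Nonempty → i ∈ E y) {K : Finset V}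
    (hK : Fur (absG B (rm Q L X Y) Y E N) (rm Q L X Y ∪ Y) Y K) {x : V} (hx : x ∈ X) :
    ∃ i ∈ kp B L I x, (B i ∩ K).Nonempty := by
  classical
  obtain ⟨W3, hW3, hc3, hs3⟩ := h.see_three hv hLne (S := ∅) (empty_subset _)
    (fun y hy _ => hkeep y hy) hK.1 hK.2.1.1 hK.2.2
  rw [union_empty] at hW3
  have h1 : W3 = X := eq_of_subset_of_card_le hW3 (by omega)
  obtain ⟨i, hi1, _, hi3⟩ := hs3 x (h1 ▸ hx)
  unfold giv at hi1
  rw [if_pos hx] at hi1
  exact ⟨i, hi1, hi3⟩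

/-- **two general deletions**: one of them has few further parts. -/
theorem ext_pair (h : Gdl B Q L X Y I E N) (h' : Gdl B Q L X' Y' I E' N') (hv : ViolR B Q)
    (hLne : L.Nonempty) (hXY : X ∪ Y = X' ∪ Y') (hX3 : X.card = 3) (hX3' : X'.card = 3)
    (hkeep : ∀ y ∈ Y, ∀ i, y ∈ B i → (B i ∩ rm Q L X Y).Nonempty → i ∈ E y)
    (hkeep' : ∀ y ∈ Y', ∀ i, y ∈ B i → (B i ∩ rm Q L X' Y').Nonempty → i ∈ E' y)
    {s x : V} (hs : s ∈ X) (hs' : s ∈ X') (hx : x ∈ X) (hx' : x ∉ X') {m m' : ℕ}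
    (hm : 5 < (m + 1) + (m' + 1) + los B L I s) :
    Ext (absG B (rm Q L X Y) Y E N) (rm Q L X Y ∪ Y) Y m ∨
      Ext (absG B (rm Q L X' Y') Y' E' N') (rm Q L X' Y' ∪ Y') Y' m' := by
  classical
  have hrm : rm Q L X Y = rm Q L X' Y' := by
    unfold rm
    rw [union_assoc, union_assoc, hXY]
  have hw := h.wir
  have hw' := h'.wir
  have hxY' : x ∈ Y' := by
    have h1 : x ∈ X' ∪ Y' := hXY ▸ mem_union_left _ hx
    exact (mem_union.1 h1).resolve_left hx'
  by_contra hcon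
  rw [not_or] at hcon
  obtain ⟨c1, c2⟩ := hcon
  have e1 : ∃ Kx : Finset (Finset V),
      (∀ K ∈ Kx, Fur (absG B (rm Q L X Y) Y E N) (rm Q L X Y ∪ Y) Y K) ∧ m < Kx.card := by
    by_contra h1
    push Not at h1
    exact c1 (h.ext_of_bd hv hLne (S := ∅) (empty_subset _) (fun y hy _ => hkeep y hy) h1)
  have e2 : ∃ Kx : Finset (Finset V),
      (∀ K ∈ Kx, Fur (absG B (rm Q L X' Y') Y' E' N') (rm Q L X' Y' ∪ Y') Y' K) ∧
        m' < Kx.card := by
    by_contra h1
    push Not at h1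
    exact c2 (h'.ext_of_bd hv hLne (S := ∅) (empty_subset _) (fun y hy _ => hkeep' y hy) h1)
  obtain ⟨K1, hK1, hc1⟩ := e1
  obtain ⟨K2, hK2, hc2⟩ := e2
  have s1 := fun K (hK : K ∈ K1) => h.fur_see hv hLne hX3 hkeep (hK1 K hK) hs
  have s2 := fun K (hK : K ∈ K2) => h'.fur_see hv hLne hX3' hkeep' (hK2 K hK) hs'
  obtain ⟨K0, hK0⟩ : K1.Nonempty := card_pos.1 (by omega)
  obtain ⟨i0, _⟩ := s1 K0 hK0
  have : Nonempty ι := ⟨i0⟩
  choose! f hf1 hf2 using s1
  choose! f' hf1' hf2' using s2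
  -- the blocks are different
  have hcross : ∀ K ∈ K1, ∀ K' ∈ K2, f K ≠ f' K' := by
    intro K hK K' hK' he
    obtain ⟨w, hw0⟩ := hf2 K hK
    obtain ⟨w', hw0'⟩ := hf2' K' hK'
    obtain ⟨hwi, hwK⟩ := mem_inter.1 hw0
    obtain ⟨hwi', hwK'⟩ := mem_inter.1 hw0'
    rw [← he] at hwi'
    have hKC := fur_rm (hK1 K hK)
    have hKC' := fur_rm (hK2 K' hK')
    -- a common point
    have hcom : (K' ∩ K).Nonempty := by
      by_cases hww : w = w'
      · exact ⟨w, mem_inter.2 ⟨hww ▸ hwK', hwK⟩⟩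
      · refine ⟨w, mem_inter.2 ⟨(hK2 K' hK').1.2 w' hwK' w ?_ (hw'.adj_C (hKC' hwK')
          (hrm ▸ hKC hwK) ⟨fun h1 => hww h1.symm, f K, hwi', hwi⟩), hwK⟩⟩
        exact mem_union_left _ (hrm ▸ hKC hwK)
    -- the first part is inside the second
    have hsub : K ⊆ K' := by
      have hcl : Closed (gr (absG B (rm Q L X Y) Y E N)) K (K' ∩ K) := by
        refine ⟨inter_subset_right, fun u hu w1 hw1 huw => ?_⟩
        obtain ⟨h1, h2⟩ := mem_inter.1 hu
        refine mem_inter.2 ⟨?_, hw1⟩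
        obtain ⟨hne, k, hk1, hk2⟩ := huw
        rcases k with k | c
        · have h5 : u ∈ B k := h.absG_sub hk1
          have h6 : w1 ∈ B k := h.absG_sub hk2
          exact (hK2 K' hK').1.2 u h1 w1 (mem_union_left _ (hrm ▸ hKC hw1))
            (hw'.adj_C (hrm ▸ hKC h2) (hrm ▸ hKC hw1) ⟨hne, k, h5, h6⟩)
        · have h5 : u ∈ N c := mem_absG_inr.1 hk1
          exact absurd (h.subN c h5) (mem_rm.1 (hKC h2)).2.2.2
      have heq := (hK1 K hK).2.1.2 (K' ∩ K) hcl hcom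
      rw [← heq]
      exact inter_subset_left
    obtain ⟨k, hk1, ⟨v, hv0⟩⟩ := h.fur_see hv hLne hX3 hkeep (hK1 K hK) hx
    obtain ⟨hvk, hvK⟩ := mem_inter.1 hv0
    obtain ⟨hxk, _, _⟩ := mem_kp.1 hk1
    have hvC' : v ∈ rm Q L X' Y' := hrm ▸ hKC hvK
    have h5 := hkeep' x hxY' k hxk ⟨v, mem_inter.2 ⟨hvk, hvC'⟩⟩
    have h6 : x ∈ K' := (hK2 K' hK').1.2 v (hsub hvK) x (mem_union_right _ hxY')
      (hw'.adj_Y hxY' hvC' h5 hvk).symm
    exact disjoint_left.1 (hK2 K' hK').2.2 h6 hxY'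
  have hinj1 : Set.InjOn f (K1 : Set (Finset V)) := by
    intro K hK K' hK' he
    exact h.fur_block (hK1 K hK) (hK1 K' hK') (hf2 K hK) (he ▸ hf2 K' hK')
  have hinj2 : Set.InjOn f' (K2 : Set (Finset V)) := by
    intro K hK K' hK' he
    exact h'.fur_block (hK2 K hK) (hK2 K' hK') (hf2' K hK) (he ▸ hf2' K' hK')
  have hd : Disjoint (K1.image f) (K2.image f') := by
    rw [disjoint_left]
    intro i hi hi'
    obtain ⟨K, hK, rfl⟩ := mem_image.1 hi
    obtain ⟨K', hK', he⟩ := mem_image.1 hi'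
    exact hcross K hK K' hK' he.symm
  have hsubs : K1.image f ∪ K2.image f' ⊆ kp B L I s := by
    refine union_subset ?_ ?_
    · intro i hi
      obtain ⟨K, hK, rfl⟩ := mem_image.1 hi
      exact hf1 K hK
    · intro i hi
      obtain ⟨K, hK, rfl⟩ := mem_image.1 hi
      exact hf1' K hK
  have h1 := card_le_card hsubs
  rw [card_union_of_disjoint hd, card_image_of_injOn hinj1, card_image_of_injOn hinj2] at h1
  have h2 := kp_card (B := B) (I := I) hv.reg h.LQ h.dLX h.dLY h.full (h.XQ hs)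
  omega

end Gdl

end Pool.Agent.Hyp6
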