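import Pool.Agent.Hyp6.Gdq6

/-!
# HYP6 GDQ8: the general deletion with points which get two single blocks

A repaired point with two new single blocks and at most one single trace in `Q` gives a bonus of two.
-/

set_option autoImplicit false

namespace Pool.Agent.Hyp6

open Finset Pool.Agent.Hyp5

universe u v

namespace Gdl

variable {V : Type v} [DecidableEq V] {ι : Type u} [Fintype ι] {κ : Type u} [Fintype κ]
  {B : ι → Finset V} {Q L X Y : Finset V} {I : Finset ι} {E : V → Finset ι} {N : κ → Finset V}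

/-- the general deletion from a bound of the value of the new system, with a gain and points
with two new single blocks. -/
theorem main_gainY (h : Gdl B Q L X Y I E N) {p : ℤ} {g : ℕ} {Y2 : Finset V}
    (hY2 : Y2 ⊆ Y) (hs2 : ∀ y ∈ Y2, (univ.filter (fun i => B i ∩ Q = {y})).card ≤ 1)
    (hN2 : ∀ y ∈ Y2, 2 ≤ (univ.filter (fun c => N c = {y})).card)
    (hp : -p ≤ dv (absG B (rm Q L X Y) Y E N) (rm Q L X Y ∪ Y) (rm Q L X Y ∪ Y))
    (hg : rho B Q + g ≤ rho B L + rho (absG B (rm Q L X Y) Y E N) (rm Q L X Y ∪ Y)) :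
    dv B Q L + 5 * (X.card : ℤ) + 4 * (I.card : ℤ) + 2 * ((lost B Q L X Y I E).card : ℤ)
       - 4 * (Fintype.card κ : ℤ) + 24 * g + 2 * (Y2.card : ℤ) - p ≤ dv B Q Q := by
  classical
  have hw := h.wir
  have hcm := h.cm_ge
  set C := rm Q L X Y with hC
  set B' := absG B C Y E N with hB'
  set Y1 := (Y \ Y2).filter (fun y => ∀ i, B i ∩ Q = {y} → i ∈ E y) with hY1
  set Y3 := (Y \ Y2).filter (fun y => ¬ ∀ i, B i ∩ Q = {y} → i ∈ E y) with hY3
  have hY1Y : Y1 ⊆ Y := (filter_subset _ _).trans sdiff_subset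
  have hY3Y : Y3 ⊆ Y := (filter_subset _ _).trans sdiff_subset
  have hee := hw.ee_ge (Y1 := Y1) (Y2 := Y2) hY1Y hY2
    (disjoint_of_subset_left (filter_subset _ _) sdiff_disjoint) (fun y hy => (mem_filter.1 hy).2)
    hN2
  rw [← hB'] at hee
  have hee2 : ee B Q Y2 = 0 := by
    unfold ee
    rw [card_eq_zero, filter_eq_empty_iff]
    intro y hy h2
    have := hs2 y hy
    omega
  have hlost := h.ee_lost (Y3 := Y3) hY3Y (fun y hy => by
    have h1 := (mem_filter.1 hy).2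
    push Not at h1
    exact h1)
  have hdC : Disjoint ((L ∪ X) ∪ Y) C := disjoint_sdiff
  have hQe : ((L ∪ X) ∪ Y) ∪ C = Q :=
    union_sdiff_of_subset (union_subset (union_subset h.LQ h.XQ) h.YQ)
  have hdY : Disjoint (L ∪ X) Y := by
    rw [disjoint_union_left]
    exact ⟨h.dLY, h.dXY⟩
  have heQ : ee B Q Q = ee B Q L + ee B Q X + ee B Q Y + ee B Q C := by
    have h1 := ee_union (B := B) (Q := Q) hdC
    rw [hQe, ee_union hdY, ee_union h.dLX] at h1
    exact h1
  have heY : ee B Q Y = ee B Q Y1 + ee B Q Y3 := by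
    have h2 : Y1 ∪ Y3 = Y \ Y2 := filter_union_filter_not_eq _ _
    have h3 : Disjoint Y1 Y3 := disjoint_filter_filter_not _ _ _
    have h4 := ee_union (B := B) (Q := Q) h3
    rw [h2] at h4
    have h5 := ee_union (B := B) (Q := Q) (disjoint_sdiff : Disjoint Y2 (Y \ Y2))
    rw [union_sdiff_of_subset hY2, hee2, h4] at h5
    omega
  have hcard : Q.card = L.card + X.card + Y.card + C.card := by
    conv_lhs => rw [← hQe]
    rw [card_union_of_disjoint hdC, card_union_of_disjoint hdY, card_union_of_disjoint h.dLX]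
  have hCY : (C ∪ Y).card = C.card + Y.card := card_union_of_disjoint hw.dis
  have hPv' := Pv_eq (B := B') (C ∪ Y)
  have hPvQ := Pv_eq (B := B) Q
  have hPvL := Pv_eq (B := B) L
  rw [hCY] at hPv'
  rw [hcard] at hPvQ
  unfold dv at hp ⊢
  push_cast at hPv' hPvQ
  rw [hPvQ, hPvL, heQ, heY]
  rw [hPv'] at hp
  push_cast
  omega

/-- the general deletion from a bound of the value of the new system, with a threshold and
points with two new single blocks. -/
theorem main_gen6Y (h : Gdl B Q L X Y I E N) {p t : ℤ} {Y2 : Finset V}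
    (hY2 : Y2 ⊆ Y) (hs2 : ∀ y ∈ Y2, (univ.filter (fun i => B i ∩ Q = {y})).card ≤ 1)
    (hN2 : ∀ y ∈ Y2, 2 ≤ (univ.filter (fun c => N c = {y})).card)
    (hp : -p ≤ dv (absG B (rm Q L X Y) Y E N) (rm Q L X Y ∪ Y) (rm Q L X Y ∪ Y))
    (hp2 : -t ≤ sv (absG B (rm Q L X Y) Y E N) (rm Q L X Y ∪ Y) →
      1 - p ≤ dv (absG B (rm Q L X Y) Y E N) (rm Q L X Y ∪ Y) (rm Q L X Y ∪ Y))
    (hX : (X.card : ℤ) ≤ sv B Q - sv B L + t) :
    dv B Q L + 5 * (X.card : ℤ) + 4 * (I.card : ℤ) + 2 * ((lost B Q L X Y I E).card : ℤ)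
       - 4 * (Fintype.card κ : ℤ) + 2 * (Y2.card : ℤ) + 1 - p ≤ dv B Q Q := by
  classical
  have hrho := h.rho_le
  rcases Nat.lt_or_ge (rho B Q) (rho B L + rho (absG B (rm Q L X Y) Y E N) (rm Q L X Y ∪ Y)) with
    h1 | h1
  · have h2 := h.main_gainY (g := 1) hY2 hs2 hN2 hp h1
    push_cast at h2
    linarith
  · have hw := h.wir
    have hs : -t ≤ sv (absG B (rm Q L X Y) Y E N) (rm Q L X Y ∪ Y) := by
      have hdC : Disjoint ((L ∪ X) ∪ Y) (rm Q L X Y) := disjoint_sdiff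
      have hQe : ((L ∪ X) ∪ Y) ∪ rm Q L X Y = Q :=
        union_sdiff_of_subset (union_subset (union_subset h.LQ h.XQ) h.YQ)
      have hdY : Disjoint (L ∪ X) Y := by
        rw [disjoint_union_left]
        exact ⟨h.dLY, h.dXY⟩
      have hcard : Q.card = L.card + X.card + Y.card + (rm Q L X Y).card := by
        conv_lhs => rw [← hQe]
        rw [card_union_of_disjoint hdC, card_union_of_disjoint hdY, card_union_of_disjoint h.dLX]
      have hCY : (rm Q L X Y ∪ Y).card = (rm Q L X Y).card + Y.card :=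
        card_union_of_disjoint hw.dis
      have e1 : sv B Q = (Q.card : ℤ) - 2 * (rho B Q : ℤ) := rfl
      have e2 : sv B L = (L.card : ℤ) - 2 * (rho B L : ℤ) := rfl
      have e3 : sv (absG B (rm Q L X Y) Y E N) (rm Q L X Y ∪ Y) =
        ((rm Q L X Y ∪ Y).card : ℤ) -
          2 * (rho (absG B (rm Q L X Y) Y E N) (rm Q L X Y ∪ Y) : ℤ) := rfl
      omega
    have h2 := h.main_gainY (g := 0) (p := p - 1) hY2 hs2 hN2 (by linarith [hp2 hs]) hrho
    push_cast at h2
    linarith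

/-- **the general deletion**, all classes with small blocks, with the bonus for many parts and
points with two new single blocks. -/
theorem main6Y (h : Gdl B Q L X Y I E N) {Y2 : Finset V}
    (hY2 : Y2 ⊆ Y) (hs2 : ∀ y ∈ Y2, (univ.filter (fun i => B i ∩ Q = {y})).card ≤ 1)
    (hN2 : ∀ y ∈ Y2, 2 ≤ (univ.filter (fun c => N c = {y})).card)
    {n : ℕ} (ih : IHE.{u} V n) (ihr : IHR.{u} V n)
    (hn : (rm Q L X Y).card + Y.card < n) (hYne : Y.Nonempty)
    {A : Finset (Finset V)}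
    (hAY : ∀ a ∈ A, a ⊆ Y) (hcov : ∀ y ∈ Y, ∃ a ∈ A, y ∈ a)
    (hlink : ∀ Z, Closed (gr (absG B (rm Q L X Y) Y E N)) (rm Q L X Y ∪ Y) Z →
      ∀ a ∈ A, a ⊆ Z ∨ Disjoint a Z) {m : ℕ}
    (hext : Ext (absG B (rm Q L X Y) Y E N) (rm Q L X Y ∪ Y) Y m)
    (hsm : ∀ a ∈ A, Sml N a) :
    dv B Q L + 5 * (X.card : ℤ) + 4 * (I.card : ℤ) + 2 * ((lost B Q L X Y I E).card : ℤ)
       - 4 * (Fintype.card κ : ℤ) + 2 * (Y2.card : ℤ) - (A.card + m) ≤ dv B Q Q ∧
    ((X.card : ℤ) ≤ sv B Q - sv B L + (A.card + m - 1) →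
      dv B Q L + 5 * (X.card : ℤ) + 4 * (I.card : ℤ) + 2 * ((lost B Q L X Y I E).card : ℤ)
       - 4 * (Fintype.card κ : ℤ) + 2 * (Y2.card : ℤ) + 1 - (A.card + m) ≤ dv B Q Q) := by
  classical
  have hw := h.wir
  set W := rm Q L X Y ∪ Y with hW
  set B' := absG B (rm Q L X Y) Y E N with hB'
  have hCY : W.card = (rm Q L X Y).card + Y.card := card_union_of_disjoint hw.dis
  have hrW : Reg B' W := hw.reg h.reg
  have h3W : Tr3 B' W := hw.tr3 h.tr
  obtain ⟨Kx, hx1, hx2, hx3, hx4, hx5⟩ := hext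
  have hNW : ∀ c, B' (Sum.inr c) ∩ W = N c := by
    intro c
    rw [hB', hw.inter_self]
    ext v
    exact mem_absG_inr
  have hktsm : ∀ Z, Closed (gr B') W Z → KT B' Z → ∀ i, (B' i ∩ W).Nonempty →
      (B' i ∩ W).card ≤ 2 → ¬ B' i ∩ W ⊆ Z := by
    intro Z hZ hK i hi1 hi2 hi3
    have hrZ : Reg B' Z := fun v hv => hrW v (hZ.1 hv)
    have h3Z : Tr3 B' Z := fun i => (card_le_card (inter_subset_inter_left hZ.1)).trans (h3W i)
    obtain ⟨v, hv⟩ := hi1
    have h1 : (B' i ∩ Z).Nonempty := ⟨v, mem_inter.2 ⟨(mem_inter.1 hv).1, hi3 hv⟩⟩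
    have h2 := hK.trace hrZ h3Z h1
    have h5 := card_le_card (inter_subset_inter_left (s := B' i) hZ.1)
    omega
  have hWne : W.Nonempty := hYne.mono subset_union_right
  have hcA : (A ∪ Kx).card ≤ A.card + m := (card_union_le _ _).trans (by omega)
  have hmeet : ∀ Z, Closed (gr B') W Z → Z.Nonempty → ∃ a ∈ A ∪ Kx, a ⊆ Z := by
    intro Z hZ hne
    rcases hx4 Z hZ hne with h1 | ⟨K, hK, hKZ⟩
    · obtain ⟨y, hy⟩ := h1
      obtain ⟨hyZ, hyY⟩ := mem_inter.1 hy
      obtain ⟨a, ha, hya⟩ := hcov y hyY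
      refine ⟨a, mem_union_left _ ha, ?_⟩
      rcases hlink Z hZ a ha with h3 | h3
      · exact h3
      · exact absurd hyZ (disjoint_left.1 h3 hya)
    · exact ⟨K, mem_union_right _ hK, hKZ⟩
  obtain ⟨h1, h2⟩ := dv_parts_b ih ihr (B := B') W (A ∪ Kx)
      (by rw [hCY]; exact hn) hrW h3W
      (fun a ha => by
        rcases mem_union.1 ha with h1 | h1
        · exact (hAY a h1).trans subset_union_right
        · exact hx2 a h1)
      (fun a ha => by
        rcases mem_union.1 ha with h1 | h1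
        · obtain ⟨c, ⟨v, hv⟩, _, hc3⟩ := hsm a h1
          exact ⟨v, hc3 hv⟩
        · obtain ⟨i, ⟨v, hv⟩, _, hi3⟩ := hx5 a h1
          exact ⟨v, hi3 hv⟩)
      (fun Z hZ a ha => by
        rcases mem_union.1 ha with h1 | h1
        · exact hlink Z hZ a h1
        · exact hx3 a h1 Z hZ) hmeet
      (fun Z hZ hcZ hKZ => by
        obtain ⟨a, ha, haZ⟩ := hmeet Z hZ hcZ.1
        rcases mem_union.1 ha with h1 | h1
        · obtain ⟨c, hc1, hc2, hc3⟩ := hsm a h1
          refine hktsm Z hZ hKZ (Sum.inr c) ?_ ?_ ?_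
          · rw [hNW]
            exact hc1
          · rw [hNW]
            exact hc2
          · rw [hNW]
            exact hc3.trans haZ
        · obtain ⟨i, hi1, hi2, hi3⟩ := hx5 a h1
          exact hktsm Z hZ hKZ i hi1 hi2 (hi3.trans haZ))
      hWne
  have hcA' : ((A ∪ Kx).card : ℤ) ≤ A.card + m := by exact_mod_cast hcA
  have h5 := h.main_gainY (g := 0) hY2 hs2 hN2 h1 h.rho_le
  push_cast at h5
  refine ⟨by linarith, fun hX => ?_⟩
  by_cases h6 : ((A ∪ Kx).card : ℤ) = A.card + m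
  · have h7 := h.main_gen6Y (p := A.card + m) (t := A.card + m - 1) hY2 hs2 hN2 (by linarith)
      (fun hs => by
        have := h2 (by linarith)
        linarith) hX
    linarith
  · have h7 : ((A ∪ Kx).card : ℤ) + 1 ≤ A.card + m := by omega
    linarith

end Gdl

end Pool.Agent.Hyp6
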