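import Pool.Agent.Hyp6.Gdm

/-!
# HYP6 GDR: general deletion with further parts

A closed set of the new system which avoids `Y` sees three points of `X` and of the trimmed points `S`,
each through a block which this point has given up. So there are few such parts, and they cost one
each. `Gdl.main_ext`: the general deletion with `|A| + m` parts if
`Σ min (c_x, m + 1) < 3 (m + 1)`, where `c_x` is the number of blocks given up by the point `x`.
-/

set_option autoImplicit false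

namespace Pool.Agent.Hyp6

open Finset Pool.Agent.Hyp5

universe u v

namespace Gdl

variable {V : Type v} [DecidableEq V] {ι : Type u} [Fintype ι] {κ : Type u} [Fintype κ]
  {B : ι → Finset V} {Q L X Y : Finset V} {I : Finset ι} {E : V → Finset ι} {N : κ → Finset V}

/-- double counting of seen parts. -/
theorem count_parts {α β γ : Type*} [DecidableEq α] [DecidableEq γ] (Ks : Finset α)
    (W : Finset β) (D : β → Finset γ) (r : β → α → γ → Prop)
    (h3 : ∀ K ∈ Ks, ∃ W3 ⊆ W, 3 ≤ W3.card ∧ ∀ x ∈ W3, ∃ i ∈ D x, r x K i)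
    (h1 : ∀ x ∈ W, ∀ i ∈ D x, ∀ K ∈ Ks, ∀ K' ∈ Ks, r x K i → r x K' i → K = K') :
    3 * Ks.card ≤ ∑ x ∈ W, min (D x).card Ks.card := by
  classical
  have e1 : 3 * Ks.card ≤ ∑ K ∈ Ks, (W.filter (fun x => ∃ i ∈ D x, r x K i)).card := by
    have e2 : ∑ K ∈ Ks, 3 ≤ ∑ K ∈ Ks, (W.filter (fun x => ∃ i ∈ D x, r x K i)).card := by
      refine sum_le_sum fun K hK => ?_
      obtain ⟨W3, hW, hc, hs⟩ := h3 K hK
      exact hc.trans (card_le_card fun x hx => mem_filter.2 ⟨hW hx, hs x hx⟩)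
    rw [sum_const, smul_eq_mul] at e2
    linarith
  have e2 : ∑ K ∈ Ks, (W.filter (fun x => ∃ i ∈ D x, r x K i)).card =
      ∑ x ∈ W, (Ks.filter (fun K => ∃ i ∈ D x, r x K i)).card := by
    simp only [card_filter]
    exact sum_comm
  rw [e2] at e1
  refine e1.trans (sum_le_sum fun x hx => le_min ?_ (card_le_card (filter_subset _ _)))
  have hex : ∀ K ∈ Ks.filter (fun K => ∃ i ∈ D x, r x K i), ∃ i ∈ D x, r x K i :=
    fun K hK => (mem_filter.1 hK).2
  rcases (Ks.filter (fun K => ∃ i ∈ D x, r x K i)).eq_empty_or_nonempty with h0 | ⟨K0, hK0⟩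
  · rw [h0, card_empty]
    exact Nat.zero_le _
  obtain ⟨i0, _, _⟩ := hex K0 hK0
  have : Nonempty γ := ⟨i0⟩
  choose! g hg1 hg2 using hex
  refine card_le_card_of_injOn g (fun K hK => hg1 K hK) fun K hK K' hK' he => ?_
  have hg' := hg2 K' hK'
  rw [← he] at hg'
  exact h1 x hx (g K) (hg1 K hK) K (mem_filter.1 hK).1 K' (mem_filter.1 hK').1 (hg2 K hK) hg'

/-- the blocks given up by a point. -/
noncomputable def giv [DecidableEq ι] (B : ι → Finset V) (L X : Finset V) (I : Finset ι)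
    (E : V → Finset ι) (x : V) : Finset ι :=
  if x ∈ X then kp B L I x else kp B L I x \ E x

/-- **few parts avoid `Y`**: they see three points of `X` and of the trimmed points. -/
theorem see_three [DecidableEq ι] (h : Gdl B Q L X Y I E N) (hv : ViolR B Q)
    (hLne : L.Nonempty) {S : Finset V} (hSY : S ⊆ Y)
    (hkeep : ∀ y ∈ Y, y ∉ S → ∀ i, y ∈ B i → (B i ∩ rm Q L X Y).Nonempty → i ∈ E y)
    {K : Finset V} (hK : Closed (gr (absG B (rm Q L X Y) Y E N)) (rm Q L X Y ∪ Y) K)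
    (hne : K.Nonempty) (hKY : Disjoint K Y) :
    ∃ W3 ⊆ X ∪ S, 3 ≤ W3.card ∧ ∀ x ∈ W3, ∃ i ∈ giv B L X I E x, x ∈ B i ∧ (B i ∩ K).Nonempty := by
  classical
  have hw := h.wir
  have hKrm : ∀ v ∈ K, v ∈ rm Q L X Y := by
    intro v hv'
    rcases mem_union.1 (hK.1 hv') with h1 | h1
    · exact h1
    · exact absurd h1 (disjoint_left.1 hKY hv')
  set W2 := (X ∪ S).filter (fun x => ∃ i ∈ giv B L X I E x, x ∈ B i ∧ (B i ∩ K).Nonempty) with hW2
  refine ⟨W2, filter_subset _ _, ?_, fun x hx => (mem_filter.1 hx).2⟩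
  by_contra hlt
  have hW2Q : W2 ⊆ Q := (filter_subset _ _).trans (union_subset h.XQ (hSY.trans h.YQ))
  have hcl : Closed (gr B) (Q \ W2) K := by
    refine ⟨fun v hv' => ?_, fun w hw1 v hv' hwv => ?_⟩
    · obtain ⟨h1, _, h2, h3⟩ := mem_rm.1 (hKrm v hv')
      refine mem_sdiff.2 ⟨h1, fun h4 => ?_⟩
      rcases mem_union.1 (mem_filter.1 h4).1 with h5 | h5
      · exact h2 h5
      · exact h3 (hSY h5)
    · obtain ⟨hvQ, hvW⟩ := mem_sdiff.1 hv'
      obtain ⟨hne', i, hi1, hi2⟩ := hwv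
      have hwC := hKrm w hw1
      have hkp : i ∈ kp B L I v := mem_kp_of h.full h.con hi2 ⟨w, mem_inter.2 ⟨hi1, hwC⟩⟩
      have hiK : (B i ∩ K).Nonempty := ⟨w, mem_inter.2 ⟨hi1, hw1⟩⟩
      by_cases hvC : v ∈ rm Q L X Y
      · exact hK.2 w hw1 v (mem_union_left _ hvC) (hw.adj_C hwC hvC ⟨hne', i, hi1, hi2⟩)
      exfalso
      by_cases hvL : v ∈ L
      · exact (mem_kp.1 hkp).2.1 ⟨v, mem_inter.2 ⟨hi2, hvL⟩⟩
      by_cases hvX : v ∈ X
      · refine hvW (mem_filter.2 ⟨mem_union_left _ hvX, i, ?_, hi2, hiK⟩)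
        unfold giv
        rw [if_pos hvX]
        exact hkp
      by_cases hvY : v ∈ Y
      · have hnE : i ∉ E v := by
          intro h1
          have h2 : v ∈ K := hK.2 w hw1 v (mem_union_right _ hvY)
            (hw.adj_Y hvY hwC h1 hi1).symm
          exact disjoint_left.1 hKY h2 hvY
        have hvS : v ∈ S := by
          by_contra h1
          exact hnE (hkeep v hvY h1 i hi2 ⟨w, mem_inter.2 ⟨hi1, hwC⟩⟩)
        refine hvW (mem_filter.2 ⟨mem_union_right _ hvS, i, ?_, hi2, hiK⟩)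
        unfold giv
        rw [if_neg hvX]
        exact mem_sdiff.2 ⟨hkp, hnE⟩
      · exact hvC (mem_rm.2 ⟨hvQ, hvL, hvX, hvY⟩)
  have hconn := hv.conn_sdiff (X := W2) hW2Q (by omega)
  have heq := hconn.2 K hcl hne
  obtain ⟨l, hl⟩ := hLne
  have hlK : l ∈ K := by
    rw [heq]
    refine mem_sdiff.2 ⟨h.LQ hl, fun h4 => ?_⟩
    rcases mem_union.1 (mem_filter.1 h4).1 with h5 | h5
    · exact disjoint_left.1 h.dLX hl h5
    · exact disjoint_left.1 h.dLY hl (hSY h5)
  exact (mem_rm.1 (hKrm l hlK)).2.1 hl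

/-- **the general deletion with further parts**. -/
theorem main_ext (h : Gdl B Q L X Y I E N) (hv : ViolR B Q) (hLne : L.Nonempty)
    {n : ℕ} (ih : IHE.{u} V n) (ihr : IHR.{u} V n)
    (hn : (rm Q L X Y).card + Y.card < n) (hYne : Y.Nonempty) {S : Finset V} (hSY : S ⊆ Y)
    (hkeep : ∀ y ∈ Y, y ∉ S → ∀ i, y ∈ B i → (B i ∩ rm Q L X Y).Nonempty → i ∈ E y)
    {A : Finset (Finset V)} (hAY : ∀ a ∈ A, a ⊆ Y) (hcov : ∀ y ∈ Y, ∃ a ∈ A, y ∈ a)
    (hlink : ∀ Z, Closed (gr (absG B (rm Q L X Y) Y E N)) (rm Q L X Y ∪ Y) Z →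
      ∀ a ∈ A, a ⊆ Z ∨ Disjoint a Z)
    (hsm : ∀ a ∈ A, ∃ c, (N c).Nonempty ∧ (N c).card ≤ 2 ∧ N c ⊆ a) {m : ℕ}
    (hm : ∑ x ∈ X, min (5 - los B L I x) (m + 1) +
      ∑ y ∈ S, min (nnd N y - los B L I y) (m + 1) < 3 * (m + 1)) :
    dv B Q L + 5 * (X.card : ℤ) + 4 * (I.card : ℤ) + 2 * ((lost B Q L X Y I E).card : ℤ)
       - 4 * (Fintype.card κ : ℤ) - (A.card + m) ≤ dv B Q Q ∧
    ((X.card : ℤ) ≤ sv B Q - sv B L →
      dv B Q L + 5 * (X.card : ℤ) + 4 * (I.card : ℤ) + 2 * ((lost B Q L X Y I E).card : ℤ)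
       - 4 * (Fintype.card κ : ℤ) + 1 - (A.card + m) ≤ dv B Q Q) := by
  classical
  have hw := h.wir
  have hCY : (rm Q L X Y ∪ Y).card = (rm Q L X Y).card + Y.card := card_union_of_disjoint hw.dis
  obtain ⟨Ks, hK1, hK2, hK3⟩ := exists_parts (absG B (rm Q L X Y) Y E N) (rm Q L X Y ∪ Y)
  set Kx := Ks.filter (fun K => Disjoint K Y) with hKx
  have hrm : ∀ K ∈ Kx, ∀ v ∈ K, v ∈ rm Q L X Y := by
    intro K hK v hv'
    obtain ⟨hK', hd⟩ := mem_filter.1 hK
    rcases mem_union.1 ((hK1 K hK').1 hv') with h1 | h1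
    · exact h1
    · exact absurd h1 (disjoint_left.1 hd hv')
  -- a closed set contains a part or is disjoint from it
  have hpz : ∀ K ∈ Ks, ∀ Z, Closed (gr (absG B (rm Q L X Y) Y E N)) (rm Q L X Y ∪ Y) Z →
      K ⊆ Z ∨ Disjoint K Z := by
    intro K hK Z hZ
    by_cases hd : Disjoint K Z
    · exact Or.inr hd
    left
    rw [not_disjoint_iff] at hd
    obtain ⟨z, hzK, hzZ⟩ := hd
    obtain ⟨k1, k2, k3⟩ := hK1 K hK
    have hcl : Closed (gr (absG B (rm Q L X Y) Y E N)) K (Z ∩ K) := by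
      refine ⟨inter_subset_right, fun v hv' w hw' hvw => ?_⟩
      obtain ⟨h1, h2⟩ := mem_inter.1 hv'
      exact mem_inter.2 ⟨hZ.2 v h1 w (k1 hw') hvw, hw'⟩
    have heq := k3.2 (Z ∩ K) hcl ⟨z, mem_inter.2 ⟨hzZ, hzK⟩⟩
    rw [← heq]
    exact inter_subset_left
  -- a block meets at most one part
  have hone : ∀ i, ∀ K ∈ Kx, ∀ K' ∈ Kx, (B i ∩ K).Nonempty → (B i ∩ K').Nonempty → K = K' := by
    intro i K hK K' hK' ⟨w, hw1⟩ ⟨w', hw1'⟩
    obtain ⟨hwi, hwK⟩ := mem_inter.1 hw1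
    obtain ⟨hwi', hwK'⟩ := mem_inter.1 hw1'
    by_contra hne
    have hd := (hK2 K (mem_filter.1 hK).1 K' (mem_filter.1 hK').1 hne).1
    have h1 : w' ∈ K := by
      by_cases he : w = w'
      · exact he ▸ hwK
      · exact (hK1 K (mem_filter.1 hK).1).2.1.2 w hwK w'
          (mem_union_left _ (hrm K' hK' w' hwK'))
          (hw.adj_C (hrm K hK w hwK) (hrm K' hK' w' hwK') ⟨he, i, hwi, hwi'⟩)
    exact disjoint_left.1 hd h1 hwK'
  -- the numbers of the given up blocks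
  have hkpc : ∀ y ∈ Q, (kp B L I y).card + los B L I y = 5 := fun y hy =>
    kp_card hv.reg h.LQ h.dLX h.dLY h.full hy
  have hgX : ∀ x ∈ X, (giv B L X I E x).card = 5 - los B L I x := by
    intro x hx
    unfold giv
    rw [if_pos hx]
    have := hkpc x (h.XQ hx)
    omega
  have hgS : ∀ y ∈ S, (giv B L X I E y).card = nnd N y - los B L I y := by
    intro y hy
    have hyY := hSY hy
    have hyX : y ∉ X := fun h1 => disjoint_left.1 h.dXY h1 hyY
    unfold giv
    rw [if_neg hyX]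
    have h1 : E y ⊆ kp B L I y := fun i hi =>
      mem_kp.2 ⟨h.mem y hyY i hi, (h.keep y hyY i hi).1, (h.keep y hyY i hi).2⟩
    rw [card_sdiff_of_subset h1]
    have h2 := hkpc y (h.YQ hyY)
    have h3 := h.deg y hyY
    unfold nnd
    omega
  have hcount : ∀ K1 ⊆ Kx, 3 * K1.card ≤ ∑ x ∈ X, min (5 - los B L I x) K1.card +
      ∑ y ∈ S, min (nnd N y - los B L I y) K1.card := by
    intro K1 hK1'
    have h1 := count_parts K1 (X ∪ S) (giv B L X I E) (fun x K i => x ∈ B i ∧ (B i ∩ K).Nonempty)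
      (fun K hK => by
        have hKm := hK1' hK
        obtain ⟨hKs, hd⟩ := mem_filter.1 hKm
        exact h.see_three hv hLne hSY hkeep (hK1 K hKs).2.1 (hK1 K hKs).2.2.1 hd)
      (fun x _ i _ K hK K' hK' hr1 hr2 => hone i K (hK1' hK) K' (hK1' hK') hr1.2 hr2.2)
    rw [sum_union (disjoint_of_subset_right hSY h.dXY)] at h1
    rw [sum_congr rfl fun x hx => by rw [hgX x hx], sum_congr (s₁ := S) rfl fun y hy => by
      rw [hgS y hy]] at h1
    exact h1
  have hKm : Kx.card ≤ m := by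
    by_contra hcon
    push Not at hcon
    obtain ⟨K1, hK1', hc1⟩ := exists_subset_card_eq (show m + 1 ≤ Kx.card by omega)
    have h1 := hcount K1 hK1'
    rw [hc1] at h1
    omega
  -- the parts which avoid `Y` have a small block
  have hsmK : ∀ K ∈ Kx, ∃ i, (absG B (rm Q L X Y) Y E N i ∩ (rm Q L X Y ∪ Y)).Nonempty ∧
      (absG B (rm Q L X Y) Y E N i ∩ (rm Q L X Y ∪ Y)).card ≤ 2 ∧
      absG B (rm Q L X Y) Y E N i ∩ (rm Q L X Y ∪ Y) ⊆ K := by
    intro K hK
    obtain ⟨hKs, hd⟩ := mem_filter.1 hK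
    obtain ⟨W3, hW3, hc3, hs3⟩ := h.see_three hv hLne hSY hkeep (hK1 K hKs).2.1
      (hK1 K hKs).2.2.1 hd
    obtain ⟨x, hx⟩ := card_pos.1 (show 0 < W3.card by omega)
    obtain ⟨i, _, hxi, w, hw1⟩ := hs3 x hx
    obtain ⟨hwi, hwK⟩ := mem_inter.1 hw1
    have hwC := hrm K hK w hwK
    have hsub : absG B (rm Q L X Y) Y E N (Sum.inl i) ∩ (rm Q L X Y ∪ Y) ⊆ B i ∩ K := by
      intro v hv'
      obtain ⟨hv1, hv2⟩ := mem_inter.1 hv'
      rcases mem_union.1 hv2 with h1 | h1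
      · have hvi : v ∈ B i := by
          have h2 := (mem_absG_inl.1 hv1)
          rcases h2 with h3 | h3
          · exact h3.1
          · exact absurd h3.1 (mem_rm.1 h1).2.2.2
        refine mem_inter.2 ⟨hvi, ?_⟩
        by_cases he : w = v
        · exact he ▸ hwK
        · exact (hK1 K hKs).2.1.2 w hwK v (mem_union_left _ h1)
            (hw.adj_C hwC h1 ⟨he, i, hwi, hvi⟩)
      · exfalso
        have h2 := (mem_absG_inl.1 hv1)
        have hiE : i ∈ E v := by
          rcases h2 with h3 | h3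
          · exact absurd h1 (mem_rm.1 h3.2).2.2.2
          · exact h3.2
        have h4 : v ∈ K := (hK1 K hKs).2.1.2 w hwK v (mem_union_right _ h1)
          (hw.adj_Y h1 hwC hiE hwi).symm
        exact disjoint_left.1 hd h4 h1
    refine ⟨Sum.inl i, ⟨w, mem_inter.2 ⟨mem_absG_inl.2 (Or.inl ⟨hwi, hwC⟩),
      mem_union_left _ hwC⟩⟩, ?_, hsub.trans inter_subset_right⟩
    have hxXS := hW3 hx
    have hxQ : x ∈ Q := by
      rcases mem_union.1 hxXS with h1 | h1
      · exact h.XQ h1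
      · exact h.YQ (hSY h1)
    have hxK : x ∉ K := by
      intro h1
      have h2 := hrm K hK x h1
      rcases mem_union.1 hxXS with h3 | h3
      · exact (mem_rm.1 h2).2.2.1 h3
      · exact (mem_rm.1 h2).2.2.2 (hSY h3)
    have h5 : B i ∩ K ⊆ (B i ∩ Q).erase x := by
      intro v hv'
      obtain ⟨h6, h7⟩ := mem_inter.1 hv'
      refine mem_erase.2 ⟨fun he => hxK (he ▸ h7), mem_inter.2 ⟨h6, ?_⟩⟩
      exact (mem_rm.1 (hrm K hK v h7)).1
    have h6 := card_le_card (hsub.trans h5)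
    rw [card_erase_of_mem (mem_inter.2 ⟨hxi, hxQ⟩)] at h6
    have h7 := h.tr i
    omega
  have hcA : (A ∪ Kx).card ≤ A.card + m := (card_union_le _ _).trans (by omega)
  obtain ⟨h1, h2⟩ := dv_parts ih ihr (B := absG B (rm Q L X Y) Y E N) (rm Q L X Y ∪ Y) (A ∪ Kx)
    (by rw [hCY]; exact hn) (hw.reg h.reg) (hw.tr3 h.tr)
    (fun a ha => by
      rcases mem_union.1 ha with h1 | h1
      · exact (hAY a h1).trans subset_union_right
      · exact (hK1 a (mem_filter.1 h1).1).1)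
    (fun Z hZ a ha => by
      rcases mem_union.1 ha with h1 | h1
      · exact hlink Z hZ a h1
      · exact hpz a (mem_filter.1 h1).1 Z hZ)
    (fun Z hZ hne => by
      by_cases hZY : (Z ∩ Y).Nonempty
      · obtain ⟨y, hy⟩ := hZY
        obtain ⟨hyZ, hyY⟩ := mem_inter.1 hy
        obtain ⟨a, ha, hya⟩ := hcov y hyY
        refine ⟨a, mem_union_left _ ha, ?_⟩
        rcases hlink Z hZ a ha with h3 | h3
        · exact h3
        · exact absurd hyZ (disjoint_left.1 h3 hya)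
      · obtain ⟨z, hz⟩ := hne
        have hzU : z ∈ Ks.biUnion id := by
          rw [hK3]
          exact hZ.1 hz
        obtain ⟨K, hK, hzK⟩ := mem_biUnion.1 hzU
        have hKZ : K ⊆ Z := by
          rcases hpz K hK Z hZ with h3 | h3
          · exact h3
          · exact absurd hz (disjoint_left.1 h3 hzK)
        refine ⟨K, mem_union_right _ (mem_filter.2 ⟨hK, ?_⟩), hKZ⟩
        rw [disjoint_left]
        intro v hvK hvY
        exact hZY ⟨v, mem_inter.2 ⟨hKZ hvK, hvY⟩⟩)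
    (fun a ha => by
      rcases mem_union.1 ha with h1 | h1
      · obtain ⟨c, hc1, hc2, hc3⟩ := hsm a h1
        have h4 : absG B (rm Q L X Y) Y E N (Sum.inr c) ∩ (rm Q L X Y ∪ Y) = N c := by
          rw [hw.inter_self]
          ext v
          exact mem_absG_inr
        exact ⟨Sum.inr c, by rw [h4]; exact hc1, by rw [h4]; exact hc2, by rw [h4]; exact hc3⟩
      · exact hsmK a h1)
    (hYne.mono subset_union_right)
  have hcA' : ((A ∪ Kx).card : ℤ) ≤ A.card + m := by exact_mod_cast hcA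
  exact h.main_gen (p := (A.card : ℤ) + m) (by linarith) (fun hs => by
    have := h2 hs
    linarith)

end Gdl

end Pool.Agent.Hyp6
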