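import Pool.Agent.Hyp6.Gdt4

/-!
# HYP6 GDS: sorted blocks

`Gx.perm`: the blocks with equal traces can be permuted in a context. `bw`: the weight of a block, its
set of labels as a number, the label `0` most significant. `okS`: the test of a clause of the sorting:
if the block `b` contains the labels of `A`, then the later block `b'` with the same trace contains the
largest label of `A`, or a smaller label which is not in `A`. `noX2_ofs`: an instance for two leaves
with sorted blocks.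
-/

set_option autoImplicit false

namespace Pool.Agent.Hyp6

open Finset Pool.Agent.Hyp5 Gdx Rup

universe u v

variable {V : Type v} [DecidableEq V] {ι : Type u} [Fintype ι] {B : ι → Finset V}

/-! ### permutations of the blocks -/

/-- an injective map of `{b | b < m}` to itself is onto. -/
theorem surj_of_inj {m : ℕ} {p : ℕ → ℕ} (p1 : ∀ b < m, p b < m)
    (p2 : ∀ b < m, ∀ b' < m, p b = p b' → b = b') : ∀ c < m, ∃ b < m, p b = c := by
  classical
  intro c hc
  have h1 : (range m).image p = range m := by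
    refine eq_of_subset_of_card_le ?_ ?_
    · intro x hx
      obtain ⟨b, hb, rfl⟩ := mem_image.1 hx
      exact mem_range.2 (p1 b (mem_range.1 hb))
    · rw [card_image_of_injOn]
      intro a ha b hb hab
      exact p2 a (mem_range.1 (mem_coe.1 ha)) b (mem_range.1 (mem_coe.1 hb)) hab
  have h2 : c ∈ (range m).image p := by
    rw [h1]
    exact mem_range.2 hc
  obtain ⟨b, hb, he⟩ := mem_image.1 h2
  exact ⟨b, mem_range.1 hb, he⟩

omit [Fintype ι] in
/-- the hits do not depend on the order of the blocks. -/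
theorem hts_perm {m : ℕ} {p : ℕ → ℕ} {bl : ℕ → ι} (p1 : ∀ b < m, p b < m)
    (p2 : ∀ b < m, ∀ b' < m, p b = p b' → b = b') (x : V) :
    hts B m (fun b => bl (p b)) x = hts B m bl x := by
  classical
  unfold hts
  have h1 : ((range m).filter (fun b => x ∈ B (bl b))) =
      ((range m).filter (fun b => x ∈ B (bl (p b)))).image p := by
    ext c
    simp only [mem_filter, mem_range, mem_image]
    constructor
    · rintro ⟨hc, hx⟩
      obtain ⟨b, hb, rfl⟩ := surj_of_inj p1 p2 c hc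
      exact ⟨b, ⟨hb, hx⟩, rfl⟩
    · rintro ⟨b, ⟨hb, hx⟩, rfl⟩
      exact ⟨p1 b hb, hx⟩
  rw [h1, card_image_of_injOn]
  intro a ha b hb hab
  exact p2 a (mem_range.1 (mem_filter.1 (mem_coe.1 ha)).1) b
    (mem_range.1 (mem_filter.1 (mem_coe.1 hb)).1) hab

/-- **permuted blocks**: the context for the blocks in another order. -/
theorem Gdx.Gx.perm {Q Z : Finset V} {P : Gp} {bl : ℕ → ι} {ct zt : ℕ → V} {tb : ℕ → ι}
    (h : Gx B Q Z P bl ct zt tb) {p : ℕ → ℕ} (p1 : ∀ b < P.m, p b < P.m)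
    (p2 : ∀ b < P.m, ∀ b' < P.m, p b = p b' → b = b') (p3 : ∀ b < P.m, P.z (p b) = P.z b) :
    Gx B Q Z P (fun b => bl (p b)) ct zt tb where
  hv := h.hv
  M32 := h.M32
  ZQ := h.ZQ
  Zne := h.Zne
  bl_inj := fun a ha b hb hab => p2 a ha b hb (h.bl_inj _ (p1 a ha) _ (p1 b hb) hab)
  bl_all := fun i => by
    rw [h.bl_all i]
    constructor
    · rintro ⟨c, hc, rfl⟩
      obtain ⟨b, hb, rfl⟩ := surj_of_inj p1 p2 c hc
      exact ⟨b, hb, rfl⟩
    · rintro ⟨b, hb, rfl⟩
      exact ⟨p b, p1 b hb, rfl⟩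
  ztZ := h.ztZ
  zt_inj := h.zt_inj
  Zsub := h.Zsub
  ztr := fun b hb z hz => by
    rw [h.ztr (p b) (p1 b hb) z hz, p3 b hb]
  ct_inj := h.ct_inj
  ctQ := h.ctQ
  ctZ := h.ctZ
  con := fun b hb v hv hvQ => h.con (p b) (p1 b hb) v hv hvQ
  hlo := fun a ha => by
    rw [hts_perm p1 p2]
    exact h.hlo a ha
  hhi := fun a ha => by
    rw [hts_perm p1 p2]
    exact h.hhi a ha
  tbT := h.tbT
  tb3 := h.tb3
  tb_inj := h.tb_inj
  rZ := h.rZ
  d0 := h.d0
  pz := h.pz

omit [Fintype ι] in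
/-- the block list in another order. -/
theorem Blk.perm {Z : Finset V} {zn : ℕ} {zm : List ℕ} {bl : ℕ → ι} {zt : ℕ → V}
    (h : Blk B Z zn zm bl zt) {p : ℕ → ℕ} (p1 : ∀ b < zm.length, p b < zm.length)
    (p2 : ∀ b < zm.length, ∀ b' < zm.length, p b = p b' → b = b')
    (p3 : ∀ b < zm.length, zm.getD (p b) 0 = zm.getD b 0) :
    Blk B Z zn zm (fun b => bl (p b)) zt where
  mem := h.mem
  injz := h.injz
  inj := fun a ha b hb hab => p2 a ha b hb (h.inj _ (p1 a ha) _ (p1 b hb) hab)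
  tr := fun b hb z hz => by
    rw [← p3 b hb]
    exact h.tr (p b) (p1 b hb) z hz
  touch := fun b hb => h.touch (p b) (p1 b hb)
  all := fun i hi => by
    obtain ⟨c, hc, rfl⟩ := h.all i hi
    obtain ⟨b, hb, rfl⟩ := surj_of_inj p1 p2 c hc
    exact ⟨b, hb, rfl⟩

/-! ### the weight of a block -/

open Classical in
/-- the labels of the block `b`, reversed. -/
noncomputable def bwS (B : ι → Finset V) (bl : ℕ → ι) (ct : ℕ → V) (M b : ℕ) : Finset ℕ :=
  (range M).filter (fun k => ct (M - 1 - k) ∈ B (bl b))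

/-- the weight of the block `b`. -/
noncomputable def bw (B : ι → Finset V) (bl : ℕ → ι) (ct : ℕ → V) (M b : ℕ) : ℕ :=
  ∑ k ∈ bwS B bl ct M b, 2 ^ k

omit [Fintype ι] in
theorem mem_bwS {bl : ℕ → ι} {ct : ℕ → V} {M b a : ℕ} (ha : a < M) :
    M - 1 - a ∈ bwS B bl ct M b ↔ ct a ∈ B (bl b) := by
  unfold bwS
  rw [mem_filter, mem_range, show M - 1 - (M - 1 - a) = a by omega]
  exact ⟨fun h => h.2, fun h => ⟨by omega, h⟩⟩

/-- comparison of two sets of exponents. -/
theorem sum_two_pow_lt {S S' : Finset ℕ} {k : ℕ} (hk : k ∈ S) (hk' : k ∉ S')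
    (h : ∀ i ∈ S', k < i → i ∈ S) : ∑ i ∈ S', 2 ^ i < ∑ i ∈ S, 2 ^ i := by
  classical
  have h1 : ∑ i ∈ S', 2 ^ i = ∑ i ∈ S'.filter (fun i => k < i), 2 ^ i +
      ∑ i ∈ S'.filter (fun i => ¬ k < i), 2 ^ i := (sum_filter_add_sum_filter_not _ _ _).symm
  have h2 : ∑ i ∈ S'.filter (fun i => ¬ k < i), 2 ^ i < 2 ^ k := by
    refine Nat.geomSum_lt (le_refl 2) fun i hi => ?_
    obtain ⟨h3, h4⟩ := mem_filter.1 hi
    rcases Nat.lt_or_ge i k with h5 | h5
    · exact h5
    · exfalso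
      have h6 : i = k := by omega
      rw [h6] at h3
      exact hk' h3
  have h3 : ∑ i ∈ insert k (S'.filter (fun i => k < i)), 2 ^ i ≤ ∑ i ∈ S, 2 ^ i := by
    refine sum_le_sum_of_subset fun i hi => ?_
    rcases mem_insert.1 hi with rfl | hi
    · exact hk
    · obtain ⟨h4, h5⟩ := mem_filter.1 hi
      exact h i h4 h5
  rw [sum_insert (by
    intro h4
    exact absurd (mem_filter.1 h4).2 (lt_irrefl k))] at h3
  omega

omit [Fintype ι] in
/-- **the clause of the sorting**. -/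
theorem bw_clause {bl : ℕ → ι} {ct : ℕ → V} {M b b' mx : ℕ} {A : ℕ → Prop}
    (hle : bw B bl ct M b ≤ bw B bl ct M b') (hmx : mx < M)
    (hA : ∀ a < M, A a → ct a ∈ B (bl b)) (hm : ct mx ∈ B (bl b)) (hn : ct mx ∉ B (bl b'))
    (hlt : ∀ a < mx, ct a ∈ B (bl b') → A a) : False := by
  have h1 := sum_two_pow_lt (S := bwS B bl ct M b) (S' := bwS B bl ct M b') (k := M - 1 - mx)
    ((mem_bwS hmx).2 hm) (fun h => hn ((mem_bwS hmx).1 h)) (by
      intro i hi hk
      have h2 : i < M := mem_range.1 (mem_filter.1 hi).1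
      have h3 : M - 1 - (M - 1 - i) = i := by omega
      rw [← h3] at hi ⊢
      have h4 := (mem_bwS (a := M - 1 - i) (by omega)).1 hi
      exact (mem_bwS (by omega)).2 (hA _ (by omega) (hlt _ (by omega) h4)))
  unfold bw at hle
  omega

/-- the test of a clause of the sorting. -/
def okS (P : Gp) (c : List ℕ) : Bool :=
  c.all (fun x => Nat.ble (x % 16) 1) &&
  (match (c.filter (fun x => Nat.beq (x % 16) 1)), (c.filter (fun x => Nat.beq (x % 16) 0)) with
    | x :: xs, y :: _ =>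
      Nat.blt (x / 16 / 32) (y / 16 / 32) && (Nat.blt (y / 16 / 32) P.m &&
      (Nat.beq (P.z (x / 16 / 32)) (P.z (y / 16 / 32)) &&
      ((x :: xs).all (fun w => Nat.beq (w / 16 / 32) (x / 16 / 32)) &&
      (x :: xs).any (fun w => Nat.blt (w / 16 % 32) P.M &&
        (c.contains (ps (vP (y / 16 / 32) (w / 16 % 32))) &&
        (List.range (w / 16 % 32)).all (fun a =>
          c.contains (ng (vP (x / 16 / 32) a)) || c.contains (ps (vP (y / 16 / 32) a))))))))
    | _, _ => false)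

omit [Fintype ι] in
/-- the blocks are sorted. -/
def Srtd (B : ι → Finset V) (P : Gp) (bl : ℕ → ι) (ct : ℕ → V) : Prop :=
  ∀ b b', b < b' → b' < P.m → P.z b = P.z b' → bw B bl ct P.M b ≤ bw B bl ct P.M b'

theorem sat_okS {Q Z : Finset V} {P : Gp} {bl : ℕ → ι} {ct : ℕ → V}
    (hs : Srtd B P bl ct) {c : List ℕ} (hc : okS P c = true) : Sat (gval B Q Z P bl ct) c := by
  classical
  by_contra hcon
  have hneg : ∀ b a, a < 32 → ng (vP b a) ∈ c → ct a ∈ B (bl b) := by
    intro b a ha hmem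
    by_contra h1
    refine hcon ⟨_, hmem, ?_⟩
    rw [lit_ng, gval_P ha]
    exact h1
  have hpos : ∀ b a, a < 32 → ps (vP b a) ∈ c → ct a ∉ B (bl b) := by
    intro b a ha hmem h1
    refine hcon ⟨_, hmem, ?_⟩
    rw [lit_ps, gval_P ha]
    exact h1
  unfold okS at hc
  rw [Bool.and_eq_true, List.all_eq_true] at hc
  obtain ⟨_, hc⟩ := hc
  have hsub : ∀ x ∈ c.filter (fun x => Nat.beq (x % 16) 1), x = ng (vP (x / 16 / 32) (x / 16 % 32)) ∧
      x ∈ c := by
    intro x hx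
    obtain ⟨h1, h2⟩ := List.mem_filter.1 hx
    rw [Nat.beq_eq] at h2
    refine ⟨?_, h1⟩
    unfold ng vP
    omega
  generalize hN : c.filter (fun x => Nat.beq (x % 16) 1) = N at hc hsub
  generalize hP : c.filter (fun x => Nat.beq (x % 16) 0) = R at hc
  rcases N with _ | ⟨x, xs⟩
  · simp at hc
  rcases R with _ | ⟨y, ys⟩
  · simp at hc
  simp only [Bool.and_eq_true, Nat.blt_eq, Nat.beq_eq, List.all_eq_true, List.any_eq_true,
    List.mem_range, Bool.or_eq_true, List.contains_iff_mem] at hc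
  obtain ⟨h1, h2, h3, h4, w, hw, hwM, hwp, hall⟩ := hc
  obtain ⟨e1, e2⟩ := hsub w hw
  have e3 := h4 w hw
  rw [e3] at e1
  rw [e1] at e2
  refine bw_clause (A := fun a => ct a ∈ B (bl (x / 16 / 32)))
    (hs _ _ h1 h2 h3) hwM (fun a _ h => h) (hneg _ _ (by omega) e2)
    (hpos _ _ (by omega) hwp) (fun a ha hm => ?_)
  rcases hall a ha with h5 | h5
  · exact hneg _ _ (by omega) h5
  · exact absurd hm (hpos _ _ (by omega) h5)

omit [Fintype ι] in
/-- **sorted blocks exist**. -/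
theorem exists_bsort (B : ι → Finset V) (P : Gp) (bl : ℕ → ι) (ct : ℕ → V) :
    ∃ p : ℕ → ℕ, (∀ b < P.m, p b < P.m) ∧ (∀ b < P.m, ∀ b' < P.m, p b = p b' → b = b') ∧
      (∀ b < P.m, P.z (p b) = P.z b) ∧ Srtd B P (fun b => bl (p b)) ct := by
  obtain ⟨p, p1, p2, p3, p4⟩ := exists_sort_cls P.m P.z (bw B bl ct P.M)
  exact ⟨p, p1, p2, p3, fun b b' h1 h2 h3 => p4 b b' h1 h2 h3⟩

omit [Fintype ι] in
/-- the traces of the blocks are equal. -/
theorem Blk.inter_eq {Z : Finset V} {zn : ℕ} {zm : List ℕ} {bl : ℕ → ι} {zt : ℕ → V}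
    (h : Blk B Z zn zm bl zt) {b b' : ℕ} (hb : b < zm.length) (hb' : b' < zm.length)
    (he : zm.getD b 0 = zm.getD b' 0) {W : Finset V} (hW : W ⊆ Z) :
    (B (bl b) ∩ W).Nonempty ↔ (B (bl b') ∩ W).Nonempty := by
  have key : ∀ c c', c < zm.length → c' < zm.length → zm.getD c 0 = zm.getD c' 0 →
      (B (bl c) ∩ W).Nonempty → (B (bl c') ∩ W).Nonempty := by
    rintro c c' hc hc' hcc ⟨v, hv⟩
    obtain ⟨h1, h2⟩ := mem_inter.1 hv
    obtain ⟨z, hz, rfl⟩ := (h.mem v).1 (hW h2)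
    have h3 := (h.tr c hc z hz).2 h1
    rw [hcc] at h3
    exact ⟨_, mem_inter.2 ⟨(h.tr c' hc' z hz).1 h3, h2⟩⟩
  exact ⟨key b b' hb hb' he, key b' b hb' hb he.symm⟩

/-- **sorted blocks for two leaves**. -/
theorem Gx2.exists_sorted {Q L M : Finset V} {j : ι} {zn r d0 pz nL nM : ℕ} {zm hT hW : List ℕ}
    {bl : ℕ → ι} {ct zt : ℕ → V} (h : Gx2 B Q L M j zn r d0 pz zm nL nM hT hW bl ct zt) :
    ∃ bl', Gx2 B Q L M j zn r d0 pz zm nL nM hT hW bl' ct zt ∧
      Srtd B (Pg2 zn r d0 pz zm hT hW) bl' ct := by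
  obtain ⟨p, p1, p2, p3, p4⟩ := exists_bsort B (Pg2 zn r d0 pz zm hT hW) bl ct
  have q1 : ∀ b < zm.length, p b < zm.length := p1
  have q3 : ∀ b < zm.length, zm.getD (p b) 0 = zm.getD b 0 := p3
  refine ⟨fun b => bl (p b), ⟨h.lbl, h.blk.perm q1 p2 q3, h.len, fun b hb => ?_,
    fun b hb => ?_, h.lenW, h.gx.perm p1 p2 p3⟩, p4⟩
  · exact (h.blk.inter_eq (q1 b hb) hb (q3 b hb) subset_union_left).trans (h.pL b hb)
  · exact (h.blk.inter_eq (q1 b hb) hb (q3 b hb) subset_union_right).trans (h.pM b hb)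

/-- **an instance with sorted blocks from its check**. -/
theorem noX2_ofs {zn r d0 pz : ℕ} {zm : List ℕ} {nL nM : ℕ} {hT hW : List ℕ}
    {given : List (List ℕ)} {bs : List Gb} {ks : List Gk} {k2 : List (ℕ × Gk)} {nm db : Tr}
    {cnf : List (List ℕ)} {prf : List ℕ}
    (hb : instX2 (Pg2 zn r d0 pz zm hT hW) given bs ks k2 nm cnf db prf = true)
    (hgv : given.all (fun c => okg2 nL nM hT hW c || okS (Pg2 zn r d0 pz zm hT hW) c) = true) :
    NoX2 V ι zn r d0 pz zm nL nM (hT, hW) := by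
  intro B' Q U L M T F j ct zt bl _ _ _ _ _ _ hnab hg0
  obtain ⟨bl', hg, hs⟩ := Gx2.exists_sorted hg0
  refine hg.gx.no2 (fun c hc => ?_) hb
  have h1 := List.all_eq_true.1 hgv c hc
  rw [Bool.or_eq_true] at h1
  rcases h1 with h1 | h1
  · exact hg.given hnab h1
  · exact sat_okS hs h1

end Pool.Agent.Hyp6
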