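import Pool.Agent.Hyp6.Gdz6

/-!
# HYP6 GDSB: sub-records

A sub-record is a general deletion with `Z'` = a part of the leaf `Z` which is inside one block. Its
labels are the labels of the leaf and the other points of the leaf, its blocks are those which meet `Z'`,
its triples are the old ones and blocks of the leaf which do not meet `Z'` and whose three points are
known. The clause of a sub-record negates the assumed incidences `as` (block, label).
-/

set_option autoImplicit false

namespace Pool.Agent.Hyp6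

open Finset Pool.Agent.Hyp5 Rup

universe u v

namespace Gdx

/-- the mask of the numbers below `n` with `p`. -/
def mkm (n : ℕ) (p : ℕ → Bool) : ℕ := orl (((List.range n).filter p).map (fun a => 2 ^ a))

theorem mkm_bit {n : ℕ} {p : ℕ → Bool} {x : ℕ} :
    (mkm n p).testBit x = true ↔ x < n ∧ p x = true := by
  unfold mkm
  rw [orl_bit]
  constructor
  · rintro ⟨c, hc, hx⟩
    obtain ⟨a, ha, rfl⟩ := List.mem_map.1 hc
    rw [Nat.testBit_two_pow] at hx
    have h1 : a = x := by simpa using hx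
    subst h1
    rw [List.mem_filter, List.mem_range] at ha
    exact ha
  · rintro ⟨h1, h2⟩
    refine ⟨2 ^ x, List.mem_map.2 ⟨x, ?_, rfl⟩, by rw [Nat.testBit_two_pow]; simp⟩
    rw [List.mem_filter, List.mem_range]
    exact ⟨h1, h2⟩

/-- a sub-record: the points `zs` of `Z'`, the blocks `ts` used as triples, the assumed incidences
`as` (block, label), the number `e` of further parts, the general deletion `g` and the parameters `q`
of the instance of `Z'`. -/
structure Gsb where
  zs : List ℕ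
  ts : List ℕ
  as : List (ℕ × ℕ)
  e : ℕ
  g : Gk
  q : Gp

/-- equality of parameters. -/
def Gp.eqb (P P' : Gp) : Bool :=
  Nat.beq P.m P'.m && (Nat.beq P.M P'.M && (Nat.beq P.zn P'.zn && (Nat.beq P.r P'.r &&
  (Nat.beq P.d0 P'.d0 && (Nat.beq P.pz P'.pz && (decide (P.zm = P'.zm) && (decide (P.lo = P'.lo) &&
  (decide (P.hi = P'.hi) && decide (P.tm = P'.tm)))))))))

theorem Gp.eq_of_eqb {P P' : Gp} (h : P.eqb P' = true) : P = P' := by
  unfold Gp.eqb at h
  simp only [Bool.and_eq_true, decide_eq_true_eq] at h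
  obtain ⟨h1, h2, h3, h4, h5, h6, h7, h8, h9, h10⟩ := h
  have h1 := Nat.eq_of_beq_eq_true h1
  have h2 := Nat.eq_of_beq_eq_true h2
  have h3 := Nat.eq_of_beq_eq_true h3
  have h4 := Nat.eq_of_beq_eq_true h4
  have h5 := Nat.eq_of_beq_eq_true h5
  have h6 := Nat.eq_of_beq_eq_true h6
  cases P
  cases P'
  simp_all

/-- the other points of the leaf. -/
def Gsb.rz (P : Gp) (s : Gsb) : List ℕ := (List.range P.zn).filter (fun z => !(s.zs.contains z))

/-- the blocks which meet `Z'`. -/
def Gsb.bs (P : Gp) (s : Gsb) : List ℕ :=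
  (List.range P.m).filter (fun b => s.zs.any (fun z => (P.z b).testBit z))

/-- the incidence of the block `b` and the label `a` is assumed. -/
def Gsb.ka (s : Gsb) (b a : ℕ) : Bool := s.as.any (fun q => Nat.beq q.1 b && Nat.beq q.2 a)

/-- the incidence of the block `b` and the new label `a` is known. -/
def Gsb.kn (P : Gp) (s : Gsb) (b a : ℕ) : Bool :=
  if Nat.blt a P.M then s.ka b a else (P.z b).testBit ((s.rz P).getD (a - P.M) 0)

/-- the number of labels. -/
def Gsb.M' (P : Gp) (s : Gsb) : ℕ := P.M + (s.rz P).length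

/-- the known part of the block `b`. -/
def Gsb.cm (P : Gp) (s : Gsb) (b : ℕ) : ℕ := mkm (s.M' P) (s.kn P b)

/-- the instance of `Z'`. -/
def Gsb.P' (P : Gp) (s : Gsb) : Gp where
  m := (s.bs P).length
  M := s.M' P
  zn := s.zs.length
  r := 1
  d0 := 5 * s.zs.length + 4 * (s.bs P).length - 14
  pz := 5 * s.zs.length + 4 * (s.bs P).length - 14
  zm := (s.bs P).map (fun b => mkm s.zs.length (fun i => (P.z b).testBit (s.zs.getD i 0)))
  lo := (List.range (s.M' P)).map (fun a => (s.bs P).countP (fun b => s.kn P b a))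
  hi := (List.range (s.M' P)).map (fun a => if Nat.blt a P.M then
    min (s.bs P).length (P.h a - ((List.range P.m).filter (fun b =>
      !(s.zs.any (fun z => (P.z b).testBit z)))).countP (fun b => s.ka b a))
    else (s.bs P).countP (fun b => s.kn P b a))
  tm := P.tm ++ s.ts.map (s.cm P)

/-- the literal is false by the known incidences. -/
def Gsb.lf (P : Gp) (s : Gsb) (l : ℕ) : Bool :=
  (List.range (s.bs P).length).any (fun b => (List.range (s.M' P)).any (fun a =>
    Nat.beq l (ng (vP b a)) && s.kn P ((s.bs P).getD b 0) a)) ||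
  (Nat.beq l (ng (vS (l / 16))) && (List.range P.m).any (fun b => (List.range (s.M' P)).all (fun a =>
    !((l / 16).testBit a) || s.kn P b a)))

/-- the frame of the sub-record is correct. -/
def Gsb.okp (P : Gp) (s : Gsb) : Bool :=
  inc s.zs && (s.zs.all (fun z => Nat.blt z P.zn) && (Nat.blt 0 s.zs.length &&
  (Nat.ble (s.M' P) 32 &&
  ((List.range P.m).any (fun b => s.zs.all (fun z => (P.z b).testBit z)) &&
  (Nat.ble 14 (5 * s.zs.length + 4 * (s.bs P).length) &&
  (P.tm.all (fun t => (List.range (s.rz P).length).all (fun i => !(t.testBit (P.M + i)))) &&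
  (s.as.all (fun q => Nat.blt q.1 P.m && Nat.blt q.2 P.M) &&
  (inc s.ts && (s.ts.all (fun b => Nat.blt b P.m &&
    (!(s.zs.any (fun z => (P.z b).testBit z)) && Nat.beq (pcn (s.M' P) (s.cm P b)) 3)) &&
  s.zs.all (fun z => Nat.ble (((List.range P.m).filter (fun b =>
    Nat.beq ((P.z b) &&& (2 ^ P.zn - 1)) (2 ^ z) &&
      !(s.as.any (fun q => Nat.beq q.1 b)))).length) 1))))))))))

/-- the sub-record is correct. -/
def Gsb.ok (P : Gp) (s : Gsb) : Bool :=
  s.okp P && (s.q.eqb (s.P' P) && ((s.g.ok s.q || s.g.ok6 s.q s.e) && s.g.lits.all (s.lf P)))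

/-- the clause of the sub-record. -/
def Gsb.cl (s : Gsb) : List ℕ := s.as.map (fun q => ng (vP q.1 q.2))

section

variable {V : Type v} [DecidableEq V] {ι : Type u} [Fintype ι] {B : ι → Finset V}

theorem hts_countP (m : ℕ) (bl : ℕ → ι) (x : V) :
    hts B m bl x = (List.range m).countP (fun b => decide (x ∈ B (bl b))) := by
  classical
  unfold hts
  rw [List.countP_eq_length_filter, ← List.toFinset_card_of_nodup
    ((List.nodup_range (n := m)).filter _)]
  congr 1
  ext b
  simp

theorem range_getD (l : List ℕ) : (List.range l.length).map (fun i => l.getD i 0) = l := by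
  refine List.ext_getElem (by simp) fun i h1 h2 => ?_
  rw [List.getElem_map, List.getElem_range, List.getD_eq_getElem _ _ h2]

theorem hts_list (l : List ℕ) (bl : ℕ → ι) (x : V) :
    hts B l.length (fun i => bl (l.getD i 0)) x = l.countP (fun b => decide (x ∈ B (bl b))) := by
  rw [hts_countP]
  conv_rhs => rw [← range_getD l]
  rw [List.countP_map]
  rfl

theorem getD_map_range {n : ℕ} {f : ℕ → ℕ} {a : ℕ} (ha : a < n) :
    ((List.range n).map f).getD a 0 = f a := by
  rw [List.getD_eq_getElem _ _ (by simpa using ha), List.getElem_map, List.getElem_range]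

end

variable {V : Type v} [DecidableEq V] {ι : Type u} [Fintype ι]
  {B : ι → Finset V} {Q Z : Finset V} {P : Gp} {bl : ℕ → ι} {ct zt : ℕ → V} {tb : ℕ → ι}

/-- the points of `Z'`. -/
def Gsb.Zs (s : Gsb) (zt : ℕ → V) : Finset V := (s.zs.map zt).toFinset

theorem Gsb.mem_Zs {s : Gsb} {v : V} : v ∈ s.Zs zt ↔ ∃ z ∈ s.zs, zt z = v := by
  unfold Gsb.Zs
  rw [List.mem_toFinset, List.mem_map]

/-- the new labels. -/
def Gsb.ct' (P : Gp) (s : Gsb) (ct zt : ℕ → V) (a : ℕ) : V :=
  if a < P.M then ct a else zt ((s.rz P).getD (a - P.M) 0)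

/-- the new triples. -/
def Gsb.tb' (P : Gp) (s : Gsb) (bl tb : ℕ → ι) (j : ℕ) : ι :=
  if j < P.tm.length then tb j else bl (s.ts.getD (j - P.tm.length) 0)

theorem Gsb.mem_rz {s : Gsb} {z : ℕ} : z ∈ s.rz P ↔ z < P.zn ∧ z ∉ s.zs := by
  unfold Gsb.rz
  rw [List.mem_filter, List.mem_range, Bool.not_eq_true', ← Bool.not_eq_true,
    List.contains_iff_mem]

theorem Gsb.mem_bs {s : Gsb} {b : ℕ} :
    b ∈ s.bs P ↔ b < P.m ∧ ∃ z ∈ s.zs, (P.z b).testBit z = true := by
  unfold Gsb.bs
  rw [List.mem_filter, List.mem_range, List.any_eq_true]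

theorem Gsb.nodup_rz {s : Gsb} : (s.rz P).Nodup := List.nodup_range.filter _

theorem Gsb.nodup_bs {s : Gsb} : (s.bs P).Nodup := List.nodup_range.filter _

theorem Gsb.ka_iff {s : Gsb} {b a : ℕ} : s.ka b a = true ↔ (b, a) ∈ s.as := by
  unfold Gsb.ka
  rw [List.any_eq_true]
  constructor
  · rintro ⟨q, hq, h1⟩
    rw [Bool.and_eq_true] at h1
    have h2 := Nat.eq_of_beq_eq_true h1.1
    have h3 := Nat.eq_of_beq_eq_true h1.2
    subst h2
    subst h3
    exact hq
  · intro h1
    exact ⟨_, h1, by simp⟩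

/-- a known incidence is an incidence. -/
theorem Gx.kn_mem (h : Gx B Q Z P bl ct zt tb) {s : Gsb}
    (has : ∀ q ∈ s.as, ct q.2 ∈ B (bl q.1)) {b a : ℕ} (hb : b < P.m) (ha : a < s.M' P)
    (hk : s.kn P b a = true) : s.ct' P ct zt a ∈ B (bl b) := by
  unfold Gsb.kn at hk
  unfold Gsb.ct'
  by_cases h1 : a < P.M
  · rw [if_pos h1]
    rw [if_pos (by rwa [Nat.blt_eq])] at hk
    exact has _ (Gsb.ka_iff.1 hk)
  · rw [if_neg h1]
    rw [if_neg (by rwa [Nat.blt_eq])] at hk
    unfold Gsb.M' at ha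
    have h2 : (s.rz P).getD (a - P.M) 0 ∈ s.rz P := getD_mem (by omega)
    exact (h.ztr b hb _ (Gsb.mem_rz.1 h2).1).2 hk

/-- the incidences of the new labels from the leaf are known. -/
theorem Gx.mem_kn (h : Gx B Q Z P bl ct zt tb) {s : Gsb} {b a : ℕ} (hb : b < P.m)
    (ha : a < s.M' P) (ha' : ¬ a < P.M) (hm : s.ct' P ct zt a ∈ B (bl b)) : s.kn P b a = true := by
  unfold Gsb.ct' at hm
  unfold Gsb.kn
  rw [if_neg ha'] at hm
  rw [if_neg (by rwa [Nat.blt_eq])]
  unfold Gsb.M' at ha
  have h2 : (s.rz P).getD (a - P.M) 0 ∈ s.rz P := getD_mem (by omega)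
  exact (h.ztr b hb _ (Gsb.mem_rz.1 h2).1).1 hm

/-- **the instance of a part of the leaf.** -/
theorem Gx.sub (h : Gx B Q Z P bl ct zt tb) {s : Gsb} (hok : s.okp P = true)
    (has : ∀ q ∈ s.as, ct q.2 ∈ B (bl q.1)) :
    Gx B Q (s.Zs zt) (s.P' P) (fun i => bl ((s.bs P).getD i 0)) (s.ct' P ct zt)
      (fun i => zt (s.zs.getD i 0)) (s.tb' P bl tb) := by
  classical
  unfold Gsb.okp at hok
  simp only [Bool.and_eq_true] at hok
  obtain ⟨k1, k2, k3, k4, k5, k6, k11, k7, k8, k9, k10⟩ := hok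
  rw [List.all_eq_true] at k2 k7 k9 k10 k11
  rw [List.any_eq_true] at k5
  rw [Nat.blt_eq] at k3
  have k4 := Nat.le_of_ble_eq_true k4
  have k6 := Nat.le_of_ble_eq_true k6
  obtain ⟨b0, hb0, hb0z⟩ := k5
  rw [List.mem_range] at hb0
  rw [List.all_eq_true] at hb0z
  have hzs : ∀ z ∈ s.zs, z < P.zn := fun z hz => by
    have := k2 z hz
    rwa [Nat.blt_eq] at this
  have hnz := inc_nodup k1
  have hnt := inc_nodup k8
  have hZ' : s.Zs zt ⊆ Z := by
    intro v hv
    obtain ⟨z, hz, rfl⟩ := Gsb.mem_Zs.1 hv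
    exact h.ztZ z (hzs z hz)
  have hgz : ∀ i < s.zs.length, s.zs.getD i 0 ∈ s.zs := fun i hi => getD_mem hi
  have hgb : ∀ i < (s.bs P).length, (s.bs P).getD i 0 ∈ s.bs P := fun i hi => getD_mem hi
  have hgb' : ∀ i < (s.bs P).length, (s.bs P).getD i 0 < P.m := fun i hi =>
    (Gsb.mem_bs.1 (hgb i hi)).1
  have hgr : ∀ i < (s.rz P).length, (s.rz P).getD i 0 ∈ s.rz P := fun i hi => getD_mem hi
  have hinj : ∀ (l : List ℕ), l.Nodup → ∀ i < l.length, ∀ j < l.length,
      l.getD i 0 = l.getD j 0 → i = j := by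
    intro l hl i hi j hj he
    rw [List.getD_eq_getElem _ _ hi, List.getD_eq_getElem _ _ hj] at he
    exact (List.Nodup.getElem_inj_iff hl).1 he
  have hne : (s.Zs zt).Nonempty := ⟨_, Gsb.mem_Zs.2 ⟨_, hgz 0 k3, rfl⟩⟩
  have hctQ : ∀ a < s.M' P, s.ct' P ct zt a ∈ Q := by
    intro a ha
    unfold Gsb.ct'
    unfold Gsb.M' at ha
    split_ifs with h1
    · exact h.ctQ a h1
    · exact h.ZQ (h.ztZ _ (Gsb.mem_rz.1 (hgr _ (by omega))).1)
  have hct_inj : ∀ a < s.M' P, ∀ b < s.M' P, s.ct' P ct zt a = s.ct' P ct zt b → a = b := by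
    intro a ha b hb hab
    unfold Gsb.ct' at hab
    unfold Gsb.M' at ha hb
    split_ifs at hab with h1 h2 h2
    · exact h.ct_inj a h1 b h2 hab
    · exact _root_.absurd (h.ztZ _ (Gsb.mem_rz.1 (hgr (b - P.M) (by omega))).1) (hab ▸ h.ctZ a h1)
    · exact _root_.absurd (h.ztZ _ (Gsb.mem_rz.1 (hgr (a - P.M) (by omega))).1) (hab ▸ h.ctZ b h2)
    · have h3 := h.zt_inj _ (Gsb.mem_rz.1 (hgr (a - P.M) (by omega))).1 _
        (Gsb.mem_rz.1 (hgr (b - P.M) (by omega))).1 hab
      have h4 := hinj _ Gsb.nodup_rz (a - P.M) (by omega) (b - P.M) (by omega) h3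
      omega
  have hcm : ∀ b < P.m, ptm (s.ct' P ct zt) (s.M' P) (s.cm P b) ⊆ B (bl b) ∩ Q := by
    intro b hb v hv
    obtain ⟨a, ha, h1, rfl⟩ := mem_ptm.1 hv
    unfold Gsb.cm at h1
    rw [mkm_bit] at h1
    exact mem_inter.2 ⟨h.kn_mem has hb ha h1.2, hctQ a ha⟩
  have hcc : ∀ A : ℕ, (ptm (s.ct' P ct zt) (s.M' P) A).card = pcn (s.M' P) A := by
    intro A
    rw [pcn_eq]
    unfold ptm
    refine card_image_of_injOn ?_
    intro a ha b hb he
    rw [mem_coe, mem_filter, mem_range] at ha hb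
    exact hct_inj a ha.1 b hb.1 he
  have hts' : ∀ b ∈ s.ts, b < P.m ∧ (¬ ∃ z ∈ s.zs, (P.z b).testBit z = true) ∧
      B (bl b) ∩ Q = ptm (s.ct' P ct zt) (s.M' P) (s.cm P b) ∧ (B (bl b) ∩ Q).card = 3 := by
    intro b hb
    have h1 := k9 b hb
    simp only [Bool.and_eq_true] at h1
    obtain ⟨h1, h2, h3⟩ := h1
    rw [Nat.blt_eq] at h1
    have h3 := Nat.eq_of_beq_eq_true h3
    rw [Bool.not_eq_true', ← Bool.not_eq_true, List.any_eq_true] at h2
    have h4 := hcm b h1
    have h5 := h.hv.tr (bl b)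
    have h6 := hcc (s.cm P b)
    have h7 : ptm (s.ct' P ct zt) (s.M' P) (s.cm P b) = B (bl b) ∩ Q :=
      eq_of_subset_of_card_le h4 (by omega)
    refine ⟨h1, h2, h7.symm, ?_⟩
    rw [← h7, h6, h3]
  have hgt : ∀ i < s.ts.length, s.ts.getD i 0 ∈ s.ts := fun i hi => getD_mem hi
  have hb0' : s.Zs zt ⊆ B (bl b0) := by
    intro v hv
    obtain ⟨z, hz, rfl⟩ := Gsb.mem_Zs.1 hv
    exact (h.ztr b0 hb0 z (hzs z hz)).2 (hb0z z hz)
  have hrho : rho B (s.Zs zt) = 1 := by
    have h1 : rho B (s.Zs zt) ≤ ({bl b0} : Finset ι).card :=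
      rho_le (by rw [singleton_biUnion]; exact hb0')
    rw [card_singleton] at h1
    have h2 := rho_pos (fun v hv => h.cov v (hZ'.trans h.ZQ hv)) hne
    omega
  have hblall : ∀ i, (B i ∩ s.Zs zt).Nonempty ↔ ∃ b ∈ s.bs P, bl b = i := by
    intro i
    constructor
    · rintro ⟨v, hv⟩
      obtain ⟨hv1, hv2⟩ := mem_inter.1 hv
      obtain ⟨z, hz, rfl⟩ := Gsb.mem_Zs.1 hv2
      obtain ⟨b, hb, rfl⟩ := (h.bl_all i).1 ⟨_, mem_inter.2 ⟨hv1, hZ' hv2⟩⟩
      exact ⟨b, Gsb.mem_bs.2 ⟨hb, z, hz, (h.ztr b hb z (hzs z hz)).1 hv1⟩, rfl⟩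
    · rintro ⟨b, hb, rfl⟩
      obtain ⟨hb, z, hz, hbz⟩ := Gsb.mem_bs.1 hb
      exact ⟨zt z, mem_inter.2 ⟨(h.ztr _ hb z (hzs z hz)).2 hbz, Gsb.mem_Zs.2 ⟨z, hz, rfl⟩⟩⟩
  have hcm' : cm B (s.Zs zt) = (s.bs P).length := by
    unfold cm
    have h1 : tch B (s.Zs zt) = (s.bs P).toFinset.image bl := by
      ext i
      rw [mem_image, tch, mem_filter]
      constructor
      · rintro ⟨_, h2⟩
        obtain ⟨b, hb, rfl⟩ := (hblall i).1 h2
        exact ⟨b, List.mem_toFinset.2 hb, rfl⟩
      · rintro ⟨b, hb, rfl⟩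
        exact ⟨mem_univ _, (hblall _).2 ⟨b, List.mem_toFinset.1 hb, rfl⟩⟩
    rw [h1, card_image_of_injOn, List.toFinset_card_of_nodup Gsb.nodup_bs]
    intro a ha b hb hab
    rw [mem_coe, List.mem_toFinset] at ha hb
    exact h.bl_inj a (Gsb.mem_bs.1 ha).1 b (Gsb.mem_bs.1 hb).1 hab
  have hcz : (s.Zs zt).card = s.zs.length := by
    unfold Gsb.Zs
    rw [List.toFinset_card_of_nodup, List.length_map]
    exact hnz.map_on fun x hx y hy hxy => h.zt_inj x (hzs x hx) y (hzs y hy) hxy
  have hPv : Pv B (s.Zs zt) = 5 * (s.zs.length : ℤ) + 4 * ((s.bs P).length : ℤ) - 24 := by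
    rw [Pv_eq, hcz, hcm', hrho]
    push_cast
    ring
  have hee : ee B Q (s.Zs zt) = 0 := by
    unfold ee
    rw [card_eq_zero, filter_eq_empty_iff]
    intro t ht h2
    obtain ⟨z, hz, rfl⟩ := Gsb.mem_Zs.1 ht
    have hzn := hzs z hz
    have h3 := Nat.le_of_ble_eq_true (k10 z hz)
    set J := (List.range P.m).filter (fun b =>
      Nat.beq ((P.z b) &&& (2 ^ P.zn - 1)) (2 ^ z) && !(s.as.any (fun q => Nat.beq q.1 b))) with hJ
    have h4 : univ.filter (fun i => B i ∩ Q = {zt z}) ⊆ J.toFinset.image bl := by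
      intro i hi
      have hi' := (mem_filter.1 hi).2
      have hzi : zt z ∈ B i ∩ Q := by
        rw [hi']
        exact mem_singleton_self _
      obtain ⟨b, hb, rfl⟩ := (h.bl_all i).1 ⟨zt z, mem_inter.2 ⟨(mem_inter.1 hzi).1, h.ztZ z hzn⟩⟩
      refine mem_image.2 ⟨b, List.mem_toFinset.2 ?_, rfl⟩
      rw [hJ, List.mem_filter, List.mem_range, Bool.and_eq_true]
      refine ⟨hb, ?_, ?_⟩
      · have h5 : (P.z b) &&& (2 ^ P.zn - 1) = 2 ^ z := by
          refine Nat.eq_of_testBit_eq fun x => ?_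
          rw [Nat.testBit_and, Nat.testBit_two_pow_sub_one, Nat.testBit_two_pow]
          by_cases hx : x < P.zn
          · have h6 := h.ztr b hb x hx
            have h7 : (zt x ∈ B (bl b)) ↔ z = x := by
              constructor
              · intro h8
                have h9 : zt x ∈ B (bl b) ∩ Q := mem_inter.2 ⟨h8, h.ZQ (h.ztZ x hx)⟩
                rw [hi', mem_singleton] at h9
                exact (h.zt_inj x hx z hzn h9).symm
              · rintro rfl
                exact (mem_inter.1 hzi).1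
            rw [h7] at h6
            by_cases h8 : z = x
            · rw [h6.1 h8]
              simp [h8, hx]
            · have h9 : (P.z b).testBit x = false := by
                rw [Bool.eq_false_iff]
                exact fun h10 => h8 (h6.2 h10)
              rw [h9]
              simp [h8]
          · have h8 : z ≠ x := by omega
            simp [hx, h8]
        rw [h5]
        exact Nat.beq_refl _
      · rw [Bool.not_eq_true', List.any_eq_false]
        intro q hq h5
        have h5 := Nat.eq_of_beq_eq_true h5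
        have h6 := has q hq
        rw [h5] at h6
        have h8 : q.2 < P.M := by
          have := k7 q hq
          rw [Bool.and_eq_true, Nat.blt_eq, Nat.blt_eq] at this
          exact this.2
        have h7 : ct q.2 ∈ B (bl b) ∩ Q := mem_inter.2 ⟨h6, h.ctQ q.2 h8⟩
        rw [hi', mem_singleton] at h7
        exact h.ctZ q.2 h8 (by rw [h7]; exact h.ztZ z hzn)
    have h5 := card_le_card h4
    have h6 : (J.toFinset.image bl).card ≤ J.length :=
      card_image_le.trans (List.toFinset_card_le _)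
    omega
  refine ⟨h.hv, k4, hZ'.trans h.ZQ, hne, ?_, ?_, ?_, ?_, ?_, ?_, hct_inj, hctQ, ?_, ?_, ?_, ?_, ?_,
    ?_, ?_, ?_, ?_, ?_⟩
  · -- bl_inj
    intro a ha b hb hab
    exact hinj _ Gsb.nodup_bs a ha b hb (h.bl_inj _ (hgb' a ha) _ (hgb' b hb) hab)
  · -- bl_all
    intro i
    constructor
    · rintro ⟨v, hv⟩
      obtain ⟨hv1, hv2⟩ := mem_inter.1 hv
      obtain ⟨z, hz, rfl⟩ := Gsb.mem_Zs.1 hv2
      obtain ⟨b, hb, rfl⟩ := (h.bl_all i).1 ⟨_, mem_inter.2 ⟨hv1, hZ' hv2⟩⟩
      have h1 := (h.ztr b hb z (hzs z hz)).1 hv1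
      have h2 : b ∈ s.bs P := Gsb.mem_bs.2 ⟨hb, z, hz, h1⟩
      obtain ⟨j, hj, hjb⟩ := List.mem_iff_getElem.1 h2
      exact ⟨j, hj, by
        show bl ((s.bs P).getD j 0) = bl b
        rw [List.getD_eq_getElem _ _ hj, hjb]⟩
    · rintro ⟨j, hj, rfl⟩
      obtain ⟨hb, z, hz, hbz⟩ := Gsb.mem_bs.1 (hgb j hj)
      exact ⟨zt z, mem_inter.2 ⟨(h.ztr _ hb z (hzs z hz)).2 hbz, Gsb.mem_Zs.2 ⟨z, hz, rfl⟩⟩⟩
  · -- ztZ
    intro z hz
    exact Gsb.mem_Zs.2 ⟨_, hgz z hz, rfl⟩
  · -- zt_inj
    intro a ha b hb hab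
    exact hinj _ hnz a ha b hb (h.zt_inj _ (hzs _ (hgz a ha)) _ (hzs _ (hgz b hb)) hab)
  · -- Zsub
    intro v hv
    obtain ⟨z, hz, rfl⟩ := Gsb.mem_Zs.1 hv
    obtain ⟨j, hj, hjz⟩ := List.mem_iff_getElem.1 hz
    exact ⟨j, hj, by
      show zt (s.zs.getD j 0) = zt z
      rw [List.getD_eq_getElem _ _ hj, hjz]⟩
  · -- ztr
    intro b hb z hz
    have h1 : (s.P' P).z b =
        mkm s.zs.length (fun i => (P.z ((s.bs P).getD b 0)).testBit (s.zs.getD i 0)) := by
      have hb' : b < (s.bs P).length := hb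
      show ((s.bs P).map (fun b => mkm s.zs.length
        (fun i => (P.z b).testBit (s.zs.getD i 0)))).getD b 0 = _
      rw [List.getD_eq_getElem _ _ (by rw [List.length_map]; exact hb'), List.getElem_map,
        List.getD_eq_getElem _ _ hb']
    rw [h1, mkm_bit]
    have h2 := h.ztr _ (hgb' b hb) _ (hzs _ (hgz z hz))
    rw [h2]
    exact ⟨fun h3 => ⟨hz, h3⟩, fun h3 => h3.2⟩
  · -- ctZ
    intro a ha hmem
    obtain ⟨z, hz, he⟩ := Gsb.mem_Zs.1 hmem
    have ha' : a < P.M + (s.rz P).length := ha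
    unfold Gsb.ct' at he
    split_ifs at he with h1
    · exact h.ctZ a h1 (he ▸ h.ztZ z (hzs z hz))
    · have h2 := hgr (a - P.M) (by omega)
      have h3 := h.zt_inj _ (hzs z hz) _ (Gsb.mem_rz.1 h2).1 he
      exact (Gsb.mem_rz.1 h2).2 (h3 ▸ hz)
  · -- con
    intro b hb v hv hvQ
    rcases h.con _ (hgb' b hb) v hv hvQ with h1 | ⟨a, ha, rfl⟩
    · obtain ⟨z, hz, rfl⟩ := h.Zsub v h1
      by_cases h2 : z ∈ s.zs
      · exact Or.inl (Gsb.mem_Zs.2 ⟨z, h2, rfl⟩)
      · right
        obtain ⟨j, hj, hjz⟩ := List.mem_iff_getElem.1 (Gsb.mem_rz.2 ⟨hz, h2⟩ : z ∈ s.rz P)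
        refine ⟨P.M + j, ?_, ?_⟩
        · show P.M + j < P.M + (s.rz P).length
          omega
        · unfold Gsb.ct'
          rw [if_neg (by omega), Nat.add_sub_cancel_left, List.getD_eq_getElem _ _ hj, hjz]
    · right
      refine ⟨a, ?_, ?_⟩
      · show a < P.M + (s.rz P).length
        omega
      · unfold Gsb.ct'
        rw [if_pos ha]
  · -- hlo
    intro a ha
    have ha' : a < s.M' P := ha
    have h1 : (s.P' P).l a = (s.bs P).countP (fun b => s.kn P b a) := by
      unfold Gp.l Gsb.P'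
      exact getD_map_range ha'
    show (s.P' P).l a ≤ hts B (s.bs P).length _ _
    rw [h1, hts_list]
    refine List.countP_mono_left fun b hb hk => ?_
    exact decide_eq_true (h.kn_mem has (Gsb.mem_bs.1 hb).1 ha' hk)
  · -- hhi
    intro a ha
    have ha' : a < s.M' P := ha
    have h1 : (s.P' P).h a = if Nat.blt a P.M then
        min (s.bs P).length (P.h a - ((List.range P.m).filter (fun b =>
          !(s.zs.any (fun z => (P.z b).testBit z)))).countP (fun b => s.ka b a))
        else (s.bs P).countP (fun b => s.kn P b a) := by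
      unfold Gp.h Gsb.P'
      exact getD_map_range ha'
    show hts B (s.bs P).length _ _ ≤ (s.P' P).h a
    rw [h1, hts_list]
    by_cases h2 : a < P.M
    · rw [if_pos (by rwa [Nat.blt_eq])]
      refine le_min (List.countP_le_length) ?_
      have h3 : s.ct' P ct zt a = ct a := by
        unfold Gsb.ct'
        rw [if_pos h2]
      rw [h3]
      have h4 := h.hhi a h2
      rw [hts_countP, List.countP_eq_countP_filter_add _ _
        (fun b => s.zs.any (fun z => (P.z b).testBit z))] at h4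
      have h5 : ((List.range P.m).filter (fun b =>
          !(s.zs.any (fun z => (P.z b).testBit z)))).countP (fun b => s.ka b a) ≤
          ((List.range P.m).filter (fun b =>
          !(s.zs.any (fun z => (P.z b).testBit z)))).countP (fun b => decide (ct a ∈ B (bl b))) :=
        List.countP_mono_left fun b _ hk => decide_eq_true (has _ (Gsb.ka_iff.1 hk))
      have h6 : (s.bs P).countP (fun b => decide (ct a ∈ B (bl b))) =
          ((List.range P.m).filter (fun b => s.zs.any (fun z => (P.z b).testBit z))).countP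
            (fun b => decide (ct a ∈ B (bl b))) := rfl
      omega
    · rw [if_neg (by rwa [Nat.blt_eq])]
      refine List.countP_mono_left fun b hb hk => ?_
      exact h.mem_kn (Gsb.mem_bs.1 hb).1 ha' h2 (of_decide_eq_true hk)
  · -- tbT
    intro j hj
    have hj' : j < P.tm.length + s.ts.length := by
      have : j < (P.tm ++ s.ts.map (s.cm P)).length := hj
      simpa using this
    unfold Gsb.tb'
    by_cases h1 : j < P.tm.length
    · rw [if_pos h1]
      have h2 : (s.P' P).t j = P.t j := by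
        unfold Gp.t Gsb.P'
        rw [List.getD_append _ _ _ _ h1]
      have h3 := h.tbT j h1
      rw [h2, h3]
      ext v
      rw [mem_ptm, mem_ptm]
      constructor
      · rintro ⟨a, ha, hA, rfl⟩
        refine ⟨a, ?_, hA, ?_⟩
        · show a < P.M + (s.rz P).length
          omega
        · unfold Gsb.ct'
          rw [if_pos ha]
      · rintro ⟨a, ha, hA, rfl⟩
        have ha' : a < P.M + (s.rz P).length := ha
        by_cases h4 : a < P.M
        · refine ⟨a, h4, hA, ?_⟩
          unfold Gsb.ct'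
          rw [if_pos h4]
        · exfalso
          have h5 := k11 (P.t j) (by
            unfold Gp.t
            exact getD_mem h1)
          rw [List.all_eq_true] at h5
          have h6 := h5 (a - P.M) (List.mem_range.2 (by omega))
          rw [Bool.not_eq_true', show P.M + (a - P.M) = a by omega, hA] at h6
          exact Bool.noConfusion h6
    · rw [if_neg h1]
      have h2 : (s.P' P).t j = s.cm P (s.ts.getD (j - P.tm.length) 0) := by
        unfold Gp.t Gsb.P'
        rw [List.getD_append_right _ _ _ _ (by omega), List.getD_eq_getElem _ _ (by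
          rw [List.length_map]; omega), List.getElem_map, ← List.getD_eq_getElem s.ts 0 (by omega)]
      rw [h2]
      exact (hts' _ (hgt _ (by omega))).2.2.1
  · -- tb3
    intro j hj
    have hj' : j < P.tm.length + s.ts.length := by
      have : j < (P.tm ++ s.ts.map (s.cm P)).length := hj
      simpa using this
    unfold Gsb.tb'
    split_ifs with h1
    · exact h.tb3 j h1
    · exact (hts' _ (hgt _ (by omega))).2.2.2
  · -- tb_inj
    intro j hj k hk hjk
    have hj' : j < P.tm.length + s.ts.length := by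
      have : j < (P.tm ++ s.ts.map (s.cm P)).length := hj
      simpa using this
    have hk' : k < P.tm.length + s.ts.length := by
      have : k < (P.tm ++ s.ts.map (s.cm P)).length := hk
      simpa using this
    unfold Gsb.tb' at hjk
    split_ifs at hjk with h1 h2 h2
    · exact h.tb_inj j h1 k h2 hjk
    · have h3 := (hts' _ (hgt (k - P.tm.length) (by omega))).1
      exact _root_.absurd (hjk ▸ h.meetZ h3) (h.tb_not_meet h1)
    · have h3 := (hts' _ (hgt (j - P.tm.length) (by omega))).1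
      exact _root_.absurd (hjk ▸ h.meetZ h3) (h.tb_not_meet h2)
    · have h3 := h.bl_inj _ (hts' _ (hgt (j - P.tm.length) (by omega))).1 _
        (hts' _ (hgt (k - P.tm.length) (by omega))).1 hjk
      have h4 := hinj _ hnt _ (by omega) _ (by omega) h3
      omega
  · -- rZ
    exact hrho
  · -- d0
    show ((5 * s.zs.length + 4 * (s.bs P).length - 14 : ℕ) : ℤ) ≤ _
    unfold dv
    rw [hee, hPv]
    push_cast
    omega
  · -- pz
    show ((5 * s.zs.length + 4 * (s.bs P).length - 14 : ℕ) : ℤ) = _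
    rw [hPv]
    omega

/-- the false literals of a sub-record. -/
theorem Gx.lf_false (h : Gx B Q Z P bl ct zt tb) {s : Gsb} (hok : s.okp P = true)
    (has : ∀ q ∈ s.as, ct q.2 ∈ B (bl q.1)) {l : ℕ} (hl : s.lf P l = true) :
    ¬ Lit (gval B Q (s.Zs zt) (s.P' P) (fun i => bl ((s.bs P).getD i 0)) (s.ct' P ct zt)) l := by
  classical
  have hs := h.sub hok has
  have h32 := hs.M32
  unfold Gsb.lf at hl
  rw [Bool.or_eq_true] at hl
  rcases hl with h1 | h1
  · rw [List.any_eq_true] at h1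
    obtain ⟨b, hb, h1⟩ := h1
    rw [List.any_eq_true] at h1
    obtain ⟨a, ha, h1⟩ := h1
    rw [List.mem_range] at hb ha
    rw [Bool.and_eq_true] at h1
    have h2 := Nat.eq_of_beq_eq_true h1.1
    have h3 : (s.P' P).M = s.M' P := rfl
    rw [h2, lit_ng, not_not, gval_P (by omega)]
    have h4 : (s.bs P).getD b 0 ∈ s.bs P := getD_mem hb
    exact h.kn_mem has (Gsb.mem_bs.1 h4).1 ha h1.2
  · rw [Bool.and_eq_true, List.any_eq_true] at h1
    obtain ⟨h1, b, hb, h2⟩ := h1
    rw [List.mem_range] at hb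
    rw [List.all_eq_true] at h2
    rw [Nat.eq_of_beq_eq_true h1, lit_ng, not_not, gval_S]
    refine ⟨bl b, fun v hv => ?_⟩
    obtain ⟨a, ha, hA, rfl⟩ := mem_ptm.1 hv
    have h3 := h2 a (List.mem_range.2 ha)
    rw [hA, Bool.not_true, Bool.false_or] at h3
    exact h.kn_mem has hb ha h3

/-- **every checked sub-record gives a clause which holds.** -/
theorem Gx.sat_sb (h : Gx B Q Z P bl ct zt tb) (s : Gsb) (hok : s.ok P = true) :
    Sat (gval B Q Z P bl ct) s.cl := by
  classical
  have h32 := h.M32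
  unfold Gsb.ok at hok
  rw [Bool.and_eq_true, Bool.and_eq_true, Bool.and_eq_true, Bool.or_eq_true] at hok
  obtain ⟨h1, h0, h2, h3⟩ := hok
  rw [Gp.eq_of_eqb h0] at h2
  by_contra hcon
  have hm : ∀ q ∈ s.as, q.2 < P.M := by
    unfold Gsb.okp at h1
    simp only [Bool.and_eq_true] at h1
    obtain ⟨_, _, _, _, _, _, _, h4, _⟩ := h1
    rw [List.all_eq_true] at h4
    intro q hq
    have := h4 q hq
    rw [Bool.and_eq_true, Nat.blt_eq, Nat.blt_eq] at this
    exact this.2
  have has : ∀ q ∈ s.as, ct q.2 ∈ B (bl q.1) := by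
    intro q hq
    by_contra h4
    refine hcon ⟨ng (vP q.1 q.2), List.mem_map.2 ⟨q, hq, rfl⟩, ?_⟩
    have := hm q hq
    rw [lit_ng, gval_P (by omega)]
    exact h4
  have hs := h.sub h1 has
  have h5 : ∃ l ∈ s.g.lits, Lit (gval B Q (s.Zs zt) (s.P' P) (fun i => bl ((s.bs P).getD i 0))
      (s.ct' P ct zt)) l := by
    rcases h2 with h2 | h2
    · exact hs.sat_gd s.g h2
    · exact hs.sat6 s.g s.e h2
  obtain ⟨l, hl, hL⟩ := h5
  exact h.lf_false h1 has (List.all_eq_true.1 h3 l hl) hL

/-- the complete check of an instance; `sb` holds the sub-records. -/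
noncomputable def instX7 (P : Gp) (given : List (List ℕ)) (bs : List Gb) (ks : List Gk)
    (k6 : List (ℕ × Gk)) (kp : List Gp6) (sb : List Gsb) (nm : Tr) (cnf : List (List ℕ)) (db : Tr)
    (prf : List ℕ) : Bool :=
  sb.all (fun s => s.ok P) &&
    instX6 P (given ++ sb.map Gsb.cl) bs ks k6 kp nm cnf db prf

/-- **a checked instance does not occur.** -/
theorem Gx.no7 (h : Gx B Q Z P bl ct zt tb) {given : List (List ℕ)}
    (hg : ∀ c ∈ given, Sat (gval B Q Z P bl ct) c) {bs : List Gb} {ks : List Gk}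
    {k6 : List (ℕ × Gk)} {kp : List Gp6} {sb : List Gsb} {nm db : Tr}
    {cnf : List (List ℕ)} {prf : List ℕ}
    (hb : instX7 P given bs ks k6 kp sb nm cnf db prf = true) : False := by
  unfold instX7 at hb
  rw [Bool.and_eq_true] at hb
  refine h.no6 (given := given ++ sb.map Gsb.cl) (fun c hc => ?_) hb.2
  rcases List.mem_append.1 hc with h1 | h1
  · exact hg c h1
  · obtain ⟨s, hs, rfl⟩ := List.mem_map.1 h1
    exact h.sat_sb s (List.all_eq_true.1 hb.1 s hs)

end Gdx

end Pool.Agent.Hyp6
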