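import Pool.Agent.Hyp6.Gdw3

/-!
# HYP6 GDT2: the tables for two leaves

`Blk.point`: the blocks of a point. `Blk.union`: the block list of `L ∪ M` for two separated sets.
`exists_labels2`: labels of the contact points of `L ∪ M` with the pairs (hits on `L`, hits on `M`),
coded as `8 a + b`. `Lbl2.gx`: the context of the tables for `Z = L ∪ M`. `Lbl2.given`: the given
clauses for the numbers of hits on one of the two sets.
-/

set_option autoImplicit false

namespace Pool.Agent.Hyp6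

open Finset Pool.Agent.Hyp5 Gdx

universe u v

variable {V : Type v} [DecidableEq V] {ι : Type u} [Fintype ι] {B : ι → Finset V}

/-! ### block lists -/

/-- **the blocks of a point**. -/
theorem Blk.point {x : V} (hr : (univ.filter (fun i : ι => x ∈ B i)).card = 5) :
    ∃ bl zt, Blk B {x} 1 [1, 1, 1, 1, 1] bl zt := by
  classical
  set S := (univ : Finset ι).filter (fun i => x ∈ B i) with hS
  obtain ⟨i0, _⟩ : S.Nonempty := card_pos.1 (by omega)
  have : Inhabited ι := ⟨i0⟩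
  have hcnt : ∀ k : ℕ, (S.filter (fun _ => (1 : ℕ) = k)).card = [1, 1, 1, 1, 1].count k := by
    intro k
    by_cases hk : k = 1
    · subst hk
      rw [filter_true_of_mem (fun _ _ => rfl), hr]
      rfl
    · rw [filter_false_of_mem (fun _ _ h => hk h.symm), card_empty]
      symm
      rw [List.count_eq_zero]
      simp only [List.mem_cons, List.not_mem_nil, or_false]
      omega
  obtain ⟨e, e1, e2, e3, e4⟩ := exists_enum_count S (fun _ => (1 : ℕ)) hcnt 0
  refine ⟨e, fun _ => x, ⟨?_, ?_, e2, ?_, ?_, ?_⟩⟩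
  · intro v
    rw [mem_singleton]
    constructor
    · rintro rfl
      exact ⟨0, by norm_num, rfl⟩
    · rintro ⟨_, _, rfl⟩
      rfl
  · intro z hz z' hz' _
    omega
  · intro b hb z hz
    have h1 := e3 b hb
    have hz0 : z = 0 := by omega
    subst hz0
    rw [← h1]
    have h2 := (mem_filter.1 (e1 b hb)).2
    exact ⟨fun _ => h2, fun _ => by decide⟩
  · intro b hb
    exact ⟨x, mem_inter.2 ⟨(mem_filter.1 (e1 b hb)).2, mem_singleton_self x⟩⟩
  · rintro i ⟨v, hv⟩
    obtain ⟨h1, h2⟩ := mem_inter.1 hv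
    rw [mem_singleton] at h2
    subst h2
    exact e4 i (mem_filter.2 ⟨mem_univ _, h1⟩)

/-- the masks of the second set. -/
def shm (zn : ℕ) (zm' : List ℕ) : List ℕ := zm'.map (fun m => m * 2 ^ zn)

theorem testBit_mul_two_pow' {m zn z : ℕ} :
    (m * 2 ^ zn).testBit z = (decide (zn ≤ z) && m.testBit (z - zn)) := by
  rw [← Nat.shiftLeft_eq, Nat.testBit_shiftLeft]

omit [Fintype ι] in
/-- **the block list of two separated sets**. -/
theorem Blk.union {L M : Finset V} {zn zn' : ℕ} {zm zm' : List ℕ} {bl bl' : ℕ → ι}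
    {zt zt' : ℕ → V} (h : Blk B L zn zm bl zt) (h' : Blk B M zn' zm' bl' zt')
    (hd : Disjoint L M) (hs : Sep B L M) (hm : ∀ m ∈ zm, m < 2 ^ zn) :
    Blk B (L ∪ M) (zn + zn') (zm ++ shm zn zm')
      (fun b => if b < zm.length then bl b else bl' (b - zm.length))
      (fun z => if z < zn then zt z else zt' (z - zn)) := by
  classical
  have hlen : (zm ++ shm zn zm').length = zm.length + zm'.length := by
    rw [List.length_append, shm, List.length_map]
  have hno : ∀ b < zm.length, ∀ v ∈ M, v ∉ B (bl b) := by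
    intro b hb v hv hvb
    exact hs (bl b) (h.touch b hb) ⟨v, mem_inter.2 ⟨hvb, hv⟩⟩
  have hno' : ∀ b < zm'.length, ∀ v ∈ L, v ∉ B (bl' b) := by
    intro b hb v hv hvb
    exact hs (bl' b) ⟨v, mem_inter.2 ⟨hvb, hv⟩⟩ (h'.touch b hb)
  have hne : ∀ b < zm.length, ∀ b' < zm'.length, bl b ≠ bl' b' := by
    intro b hb b' hb' he
    have h1 := h.touch b hb
    rw [he] at h1
    exact hs _ h1 (h'.touch b' hb')
  refine ⟨?_, ?_, ?_, ?_, ?_, ?_⟩
  · intro v
    rw [mem_union, h.mem, h'.mem]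
    constructor
    · rintro (⟨z, hz, rfl⟩ | ⟨z, hz, rfl⟩)
      · exact ⟨z, by omega, by simp only [hz, if_true]⟩
      · refine ⟨zn + z, by omega, ?_⟩
        simp only [show ¬ (zn + z < zn) by omega, if_false, show zn + z - zn = z by omega]
    · rintro ⟨z, hz, rfl⟩
      by_cases h1 : z < zn
      · exact Or.inl ⟨z, h1, by simp only [h1, if_true]⟩
      · exact Or.inr ⟨z - zn, by omega, by simp only [h1, if_false]⟩
  · intro z hz z' hz' he
    have hdd : ∀ a < zn, ∀ b < zn', zt a ≠ zt' b := by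
      intro a ha b hb hab
      exact disjoint_left.1 hd ((h.mem _).2 ⟨a, ha, rfl⟩) ((h'.mem _).2 ⟨b, hb, hab.symm⟩)
    split_ifs at he with h1 h2 h2
    · exact h.injz z h1 z' h2 he
    · exact absurd he (hdd z h1 (z' - zn) (by omega))
    · exact absurd he.symm (hdd z' h2 (z - zn) (by omega))
    · have := h'.injz (z - zn) (by omega) (z' - zn) (by omega) he
      omega
  · intro b hb b' hb' he
    rw [hlen] at hb hb'
    split_ifs at he with h1 h2 h2
    · exact h.inj b h1 b' h2 he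
    · exact absurd he (hne b h1 (b' - zm.length) (by omega))
    · exact absurd he.symm (hne b' h2 (b - zm.length) (by omega))
    · have := h'.inj (b - zm.length) (by omega) (b' - zm.length) (by omega) he
      omega
  · intro b hb z hz
    rw [hlen] at hb
    by_cases h1 : b < zm.length
    · rw [List.getD_append _ _ _ _ h1]
      simp only [h1, if_true]
      by_cases h2 : z < zn
      · simp only [h2, if_true]
        exact h.tr b h1 z h2
      · simp only [h2, if_false]
        have h3 : zm.getD b 0 ∈ zm := by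
          rw [List.getD_eq_getElem _ _ h1]
          exact List.getElem_mem h1
        have h4 : (zm.getD b 0).testBit z = false := Nat.testBit_lt_two_pow
          (lt_of_lt_of_le (hm _ h3) (Nat.pow_le_pow_right (by norm_num) (by omega)))
        rw [h4]
        refine ⟨fun h5 => absurd h5 (by simp), fun h5 => ?_⟩
        exact absurd h5 (hno b h1 _ ((h'.mem _).2 ⟨z - zn, by omega, rfl⟩))
    · rw [List.getD_append_right _ _ _ _ (by omega)]
      simp only [h1, if_false]
      have hb' : b - zm.length < zm'.length := by omega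
      have h3 : (shm zn zm').getD (b - zm.length) 0 = zm'.getD (b - zm.length) 0 * 2 ^ zn := by
        have h4 : b - zm.length < (shm zn zm').length := by
          rw [shm, List.length_map]
          exact hb'
        rw [List.getD_eq_getElem _ _ h4, List.getD_eq_getElem _ _ hb']
        unfold shm
        rw [List.getElem_map]
      rw [h3, testBit_mul_two_pow']
      by_cases h2 : z < zn
      · simp only [h2, if_true]
        rw [decide_eq_false (by omega), Bool.false_and]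
        refine ⟨fun h5 => absurd h5 (by simp), fun h5 => ?_⟩
        exact absurd h5 (hno' _ hb' _ ((h.mem _).2 ⟨z, h2, rfl⟩))
      · simp only [h2, if_false]
        rw [decide_eq_true (by omega), Bool.true_and]
        exact h'.tr _ hb' (z - zn) (by omega)
  · intro b hb
    rw [hlen] at hb
    by_cases h1 : b < zm.length
    · simp only [h1, if_true]
      exact (h.touch b h1).mono (inter_subset_inter_left subset_union_left)
    · simp only [h1, if_false]
      exact (h'.touch _ (by omega)).mono (inter_subset_inter_left subset_union_right)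
  · rintro i ⟨v, hv⟩
    obtain ⟨h1, h2⟩ := mem_inter.1 hv
    rcases mem_union.1 h2 with h3 | h3
    · obtain ⟨b, hb, he⟩ := h.all i ⟨v, mem_inter.2 ⟨h1, h3⟩⟩
      exact ⟨b, by omega, by simp only [hb, if_true]; exact he⟩
    · obtain ⟨b, hb, he⟩ := h'.all i ⟨v, mem_inter.2 ⟨h1, h3⟩⟩
      refine ⟨zm.length + b, by omega, ?_⟩
      simp only [show ¬ (zm.length + b < zm.length) by omega, if_false,
        show zm.length + b - zm.length = b by omega]
      exact he

/-! ### labels -/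

/-- labels of the contact points of `Z` with the values of a function `f`. -/
theorem exists_labelsF {Q Z : Finset V} {j : ι} (hj : (B j ∩ Q).card = 3)
    (hjZ : ¬ (B j ∩ Z).Nonempty) (f : V → ℕ) (hf : ∀ v, 1 ≤ f v ↔ (Ez B Z v).Nonempty) :
    ∃ (hT hW : List ℕ) (ct : ℕ → V), hT.length = 3 ∧ hT.Pairwise (fun a b => b ≤ a) ∧
      hW.Pairwise (fun a b => b ≤ a) ∧ (∀ x ∈ hW, 1 ≤ x) ∧
      (∀ a < 3 + hW.length, ct a ∈ Q ∧ ct a ∉ Z) ∧
      (∀ a < 3 + hW.length, ∀ a' < 3 + hW.length, ct a = ct a' → a = a') ∧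
      (∀ v, v ∈ B j ∩ Q ↔ ∃ a < 3, ct a = v) ∧
      (∀ v ∈ Q, v ∉ Z → (Ez B Z v).Nonempty → ∃ a < 3 + hW.length, ct a = v) ∧
      (∀ a < 3 + hW.length, f (ct a) = (hT ++ hW).getD a 0) ∧
      ((B j ∩ Q).toList.map f).Perm hT ∧
      ((((Q \ Z) \ B j).filter (fun v => (Ez B Z v).Nonempty)).toList.map f).Perm hW := by
  classical
  have hTne : (B j ∩ Q).Nonempty := card_pos.1 (by omega)
  obtain ⟨v0, _⟩ := hTne
  have : Inhabited V := ⟨v0⟩
  set T := B j ∩ Q with hT
  set W := ((Q \ Z) \ B j).filter (fun v => (Ez B Z v).Nonempty) with hW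
  obtain ⟨lT, pT, dT⟩ := exists_desc (T.toList.map f)
  obtain ⟨lW, pW, dW⟩ := exists_desc (W.toList.map f)
  have lenT : lT.length = 3 := by
    rw [← pT.length_eq, List.length_map, Finset.length_toList, hj]
  obtain ⟨e1, a1, a2, a3, a4⟩ := exists_enum T f pT 0
  obtain ⟨e2, b1, b2, b3, b4⟩ := exists_enum W f pW 0
  rw [lenT] at a1 a2 a3 a4
  have hWm : ∀ v ∈ W, v ∈ Q ∧ v ∉ Z ∧ v ∉ B j := by
    intro v hv
    obtain ⟨h1, h2⟩ := mem_sdiff.1 (mem_filter.1 hv).1
    obtain ⟨h3, h4⟩ := mem_sdiff.1 h1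
    exact ⟨h3, h4, h2⟩
  have hTm : ∀ v ∈ T, v ∈ Q ∧ v ∉ Z ∧ v ∈ B j := by
    intro v hv
    obtain ⟨h1, h2⟩ := mem_inter.1 hv
    exact ⟨h2, fun h3 => hjZ ⟨v, mem_inter.2 ⟨h1, h3⟩⟩, h1⟩
  refine ⟨lT, lW, fun a => if a < 3 then e1 a else e2 (a - 3), lenT, dT, dW, ?_, ?_, ?_, ?_, ?_,
    ?_, pT, pW⟩
  · intro x hx
    obtain ⟨v, hv, rfl⟩ := List.mem_map.1 (pW.mem_iff.2 hx)
    exact (hf v).2 (mem_filter.1 (Finset.mem_toList.1 hv)).2
  · intro a ha
    dsimp only
    split_ifs with h1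
    · have h2 := hTm _ (a1 a h1)
      exact ⟨h2.1, h2.2.1⟩
    · have h2 := hWm _ (b1 (a - 3) (by omega))
      exact ⟨h2.1, h2.2.1⟩
  · intro a ha a' ha' he
    dsimp only at he
    split_ifs at he with h1 h2 h2
    · exact a2 a h1 a' h2 he
    · exfalso
      have h3 := (hTm _ (a1 a h1)).2.2
      rw [he] at h3
      exact (hWm _ (b1 (a' - 3) (by omega))).2.2 h3
    · exfalso
      have h3 := (hTm _ (a1 a' h2)).2.2
      rw [← he] at h3
      exact (hWm _ (b1 (a - 3) (by omega))).2.2 h3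
    · have := b2 (a - 3) (by omega) (a' - 3) (by omega) he
      omega
  · intro v
    constructor
    · intro hv
      obtain ⟨a, ha, he⟩ := a4 v hv
      exact ⟨a, ha, by simp only [ha, if_true]; exact he⟩
    · rintro ⟨a, ha, he⟩
      simp only [ha, if_true] at he
      rw [← he]
      exact a1 a ha
  · intro v hvQ hvZ hvE
    by_cases hvj : v ∈ B j
    · obtain ⟨a, ha, he⟩ := a4 v (mem_inter.2 ⟨hvj, hvQ⟩)
      exact ⟨a, by omega, by simp only [ha, if_true]; exact he⟩
    · obtain ⟨a, ha, he⟩ := b4 v (mem_filter.2 ⟨mem_sdiff.2 ⟨mem_sdiff.2 ⟨hvQ, hvZ⟩, hvj⟩, hvE⟩)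
      refine ⟨3 + a, by omega, ?_⟩
      simp only [show ¬ (3 + a < 3) by omega, if_false, show 3 + a - 3 = a by omega]
      exact he
  · intro a ha
    dsimp only
    split_ifs with h1
    · rw [List.getD_append _ _ _ _ (by rw [lenT]; exact h1)]
      exact a3 a h1
    · rw [List.getD_append_right _ _ _ _ (by rw [lenT]; omega), lenT]
      exact b3 (a - 3) (by omega)

/-- the code of the numbers of hits on `L` and `M`. -/
def cd2 (B : ι → Finset V) (L M : Finset V) (v : V) : ℕ := 8 * (Ez B L v).card + (Ez B M v).card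

/-- the labels of the contact points of `L ∪ M`: first the three points of `j`, then the others; the
codes `8 a + b` of the numbers of hits `a` on `L` and `b` on `M` are `hT` and `hW`. -/
structure Lbl2 (B : ι → Finset V) (Q L M : Finset V) (j : ι) (hT hW : List ℕ) (ct : ℕ → V) :
    Prop where
  lenT : hT.length = 3
  desT : hT.Pairwise (fun a b => b ≤ a)
  desW : hW.Pairwise (fun a b => b ≤ a)
  posW : ∀ x ∈ hW, 1 ≤ x
  memQ : ∀ a < 3 + hW.length, ct a ∈ Q ∧ ct a ∉ L ∪ M
  inj : ∀ a < 3 + hW.length, ∀ a' < 3 + hW.length, ct a = ct a' → a = a'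
  trip : ∀ v, v ∈ B j ∩ Q ↔ ∃ a < 3, ct a = v
  all : ∀ v ∈ Q, v ∉ L ∪ M → (Ez B (L ∪ M) v).Nonempty → ∃ a < 3 + hW.length, ct a = v
  code : ∀ a < 3 + hW.length, cd2 B L M (ct a) = (hT ++ hW).getD a 0
  bdL : ∀ a < 3 + hW.length, (Ez B L (ct a)).card ≤ 5
  bdM : ∀ a < 3 + hW.length, (Ez B M (ct a)).card ≤ 5
  sumTL : (hT.map (fun c => c / 8)).sum = hit B (B j ∩ Q) L
  sumTM : (hT.map (fun c => c % 8)).sum = hit B (B j ∩ Q) M
  sumWL : (hW.map (fun c => c / 8)).sum = hit B ((Q \ (L ∪ M)) \ B j) L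
  sumWM : (hW.map (fun c => c % 8)).sum = hit B ((Q \ (L ∪ M)) \ B j) M

/-- the hits on a union. -/
theorem mem_Ez_union {L M : Finset V} {v : V} {i : ι} :
    i ∈ Ez B (L ∪ M) v ↔ i ∈ Ez B L v ∨ i ∈ Ez B M v := by
  rw [mem_Ez, mem_Ez, mem_Ez, inter_union_distrib_left, union_nonempty]
  tauto

theorem Ez_union_ne {L M : Finset V} {v : V} :
    (Ez B (L ∪ M) v).Nonempty ↔ (Ez B L v).Nonempty ∨ (Ez B M v).Nonempty := by
  constructor
  · rintro ⟨i, hi⟩
    rcases mem_Ez_union.1 hi with h | h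
    · exact Or.inl ⟨i, h⟩
    · exact Or.inr ⟨i, h⟩
  · rintro (⟨i, h⟩ | ⟨i, h⟩)
    · exact ⟨i, mem_Ez_union.2 (Or.inl h)⟩
    · exact ⟨i, mem_Ez_union.2 (Or.inr h)⟩

theorem card_Ez_union {L M : Finset V} (hs : Sep B L M) (v : V) :
    (Ez B (L ∪ M) v).card = (Ez B L v).card + (Ez B M v).card := by
  classical
  rw [← card_union_of_disjoint]
  · congr 1
    ext i
    rw [mem_Ez_union, mem_union]
  · rw [disjoint_left]
    intro i h1 h2
    exact hs i (mem_Ez.1 h1).2 (mem_Ez.1 h2).2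

theorem card_Ez_le {W : Finset V} {v : V}
    (hr : (univ.filter (fun i : ι => v ∈ B i)).card = 5) : (Ez B W v).card ≤ 5 := by
  refine (card_le_card ?_).trans hr.le
  intro i hi
  exact mem_filter.2 ⟨mem_univ _, (mem_Ez.1 hi).1⟩

/-- **labels for two sets exist**. -/
theorem exists_labels2 {Q L M : Finset V} {j : ι} (hr : Reg B Q) (hj : (B j ∩ Q).card = 3)
    (hjL : ¬ (B j ∩ L).Nonempty) (hjM : ¬ (B j ∩ M).Nonempty) :
    ∃ hT hW ct, Lbl2 B Q L M j hT hW ct := by
  classical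
  have hjZ : ¬ (B j ∩ (L ∪ M)).Nonempty := by
    rw [inter_union_distrib_left, union_nonempty]
    tauto
  obtain ⟨hT, hW, ct, h1, h2, h3, h4, h5, h6, h7, h8, h9, h10, h11⟩ :=
    exists_labelsF (B := B) hj hjZ (cd2 B L M) (by
      intro v
      rw [Ez_union_ne, ← card_pos, ← card_pos]
      unfold cd2
      omega)
  have hbd : ∀ (W : Finset V), ∀ v ∈ Q, (Ez B W v).card ≤ 5 := by
    intro W v hv
    exact card_Ez_le (hr v hv)
  have hdiv : ∀ v ∈ Q, cd2 B L M v / 8 = (Ez B L v).card := by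
    intro v hv
    have := hbd M v hv
    unfold cd2
    omega
  have hmod : ∀ v ∈ Q, cd2 B L M v % 8 = (Ez B M v).card := by
    intro v hv
    have := hbd M v hv
    unfold cd2
    omega
  have hWsum : ∀ W : Finset V, W ⊆ L ∪ M →
      ∑ v ∈ ((Q \ (L ∪ M)) \ B j).filter (fun v => (Ez B (L ∪ M) v).Nonempty), (Ez B W v).card =
        hit B ((Q \ (L ∪ M)) \ B j) W := by
    intro W hWs
    rw [hit_eq_Ez, sum_filter]
    refine sum_congr rfl fun v _ => ?_
    split_ifs with h12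
    · rfl
    · rw [not_nonempty_iff_eq_empty] at h12
      symm
      rw [card_eq_zero, ← subset_empty, ← h12]
      intro i hi
      obtain ⟨h13, h14⟩ := mem_Ez.1 hi
      exact mem_Ez.2 ⟨h13, h14.mono (inter_subset_inter_left hWs)⟩
  refine ⟨hT, hW, ct, h1, h2, h3, h4, h5, h6, h7, h8, h9, fun a ha => hbd _ _ (h5 a ha).1,
    fun a ha => hbd _ _ (h5 a ha).1, ?_, ?_, ?_, ?_⟩
  · rw [← (h10.map (fun c => c / 8)).sum_eq, List.map_map, Finset.sum_map_toList, hit_eq_Ez]
    exact sum_congr rfl fun v hv => hdiv v (mem_inter.1 hv).2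
  · rw [← (h10.map (fun c => c % 8)).sum_eq, List.map_map, Finset.sum_map_toList, hit_eq_Ez]
    exact sum_congr rfl fun v hv => hmod v (mem_inter.1 hv).2
  · rw [← (h11.map (fun c => c / 8)).sum_eq, List.map_map, Finset.sum_map_toList,
      ← hWsum L subset_union_left]
    exact sum_congr rfl fun v hv =>
      hdiv v (mem_sdiff.1 (mem_sdiff.1 (mem_filter.1 hv).1).1).1
  · rw [← (h11.map (fun c => c % 8)).sum_eq, List.map_map, Finset.sum_map_toList,
      ← hWsum M subset_union_right]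
    exact sum_congr rfl fun v hv =>
      hmod v (mem_sdiff.1 (mem_sdiff.1 (mem_filter.1 hv).1).1).1

theorem Lbl2.hitL {Q L M : Finset V} {j : ι} {hT hW : List ℕ} {ct : ℕ → V}
    (h : Lbl2 B Q L M j hT hW ct) {a : ℕ} (ha : a < 3 + hW.length) :
    (Ez B L (ct a)).card = (hT ++ hW).getD a 0 / 8 := by
  have h1 := h.code a ha
  have h2 := h.bdM a ha
  unfold cd2 at h1
  omega

theorem Lbl2.hitM {Q L M : Finset V} {j : ι} {hT hW : List ℕ} {ct : ℕ → V}
    (h : Lbl2 B Q L M j hT hW ct) {a : ℕ} (ha : a < 3 + hW.length) :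
    (Ez B M (ct a)).card = (hT ++ hW).getD a 0 % 8 := by
  have h1 := h.code a ha
  have h2 := h.bdM a ha
  unfold cd2 at h1
  omega

/-- the total of a code. -/
def tot (c : ℕ) : ℕ := c / 8 + c % 8

/-- the instance with the block list `zm` and the codes `hT`, `hW`. -/
def Pg2 (zn r d0 pz : ℕ) (zm hT hW : List ℕ) : Gp :=
  ⟨zm.length, 3 + hW.length, zn, r, d0, pz, zm, (hT ++ hW).map tot, (hT ++ hW).map tot, [7]⟩

/-- **the context for two sets**. -/
theorem Lbl2.gx {Q L M : Finset V} {j : ι} {hT hW : List ℕ} {ct : ℕ → V} {zn r d0 pz : ℕ}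
    {zm : List ℕ} {bl : ℕ → ι} {zt : ℕ → V} (hl : Lbl2 B Q L M j hT hW ct) (hs : Sep B L M)
    (hb : Blk B (L ∪ M) zn zm bl zt) (hv : ViolR B Q) (hZQ : L ∪ M ⊆ Q)
    (hZne : (L ∪ M).Nonempty)
    (hj3 : (B j ∩ Q).card = 3) (hM : hW.length ≤ 29) (hr : rho B (L ∪ M) = r)
    (hd : (d0 : ℤ) ≤ dv B Q (L ∪ M) + 10) (hp : (pz : ℤ) = Pv B (L ∪ M) + 10) :
    Gdx.Gx B Q (L ∪ M) (Pg2 zn r d0 pz zm hT hW) bl ct zt (fun _ => j) := by
  classical
  have htot : ∀ a < 3 + hW.length, ((hT ++ hW).map tot).getD a 0 = hts B zm.length bl (ct a) := by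
    intro a ha
    have hlen : a < (hT ++ hW).length := by
      rw [List.length_append, hl.lenT]
      exact ha
    have h1 : ((hT ++ hW).map tot).getD a 0 = tot ((hT ++ hW).getD a 0) := by
      rw [List.getD_eq_getElem _ _ (by rw [List.length_map]; exact hlen),
        List.getD_eq_getElem _ _ hlen, List.getElem_map]
    rw [h1, hb.hts_eq, card_Ez_union hs, hl.hitL ha, hl.hitM ha]
    rfl
  refine ⟨hv, ?_, hZQ, hZne, hb.inj, fun i => ⟨hb.all i, ?_⟩, fun z hz => (hb.mem _).2 ⟨z, hz, rfl⟩,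
    hb.injz, fun v hv' => (hb.mem v).1 hv', fun b hb' z hz => (hb.tr b hb' z hz).symm, hl.inj,
    fun a ha => (hl.memQ a ha).1, fun a ha => (hl.memQ a ha).2, fun b hb' v hvb hvQ => ?_,
    fun a ha => ?_, fun a ha => ?_, fun k hk => ?_, fun k hk => hj3, fun k hk k' hk' _ => ?_,
    hr, hd, hp⟩
  · show 3 + hW.length ≤ 32
    omega
  · rintro ⟨b, hb', rfl⟩
    exact hb.touch b hb'
  · by_cases hvZ : v ∈ L ∪ M
    · exact Or.inl hvZ
    · exact Or.inr (hl.all v hvQ hvZ ⟨bl b, mem_Ez.2 ⟨hvb, hb.touch b hb'⟩⟩)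
  · show ((hT ++ hW).map tot).getD a 0 ≤ hts B zm.length bl (ct a)
    rw [htot a ha]
  · show hts B zm.length bl (ct a) ≤ ((hT ++ hW).map tot).getD a 0
    rw [htot a ha]
  · have hk0 : k = 0 := by
      have : k < 1 := hk
      omega
    subst hk0
    ext v
    rw [hl.trip, mem_ptm]
    constructor
    · rintro ⟨a, ha, he⟩
      refine ⟨a, ?_, ?_, he⟩
      · show a < 3 + hW.length
        omega
      · show (7 : ℕ).testBit a = true
        have h3 : a = 0 ∨ a = 1 ∨ a = 2 := by omega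
        rcases h3 with rfl | rfl | rfl <;> decide
    · rintro ⟨a, _, ht, he⟩
      refine ⟨a, ?_, he⟩
      by_contra h3
      have h4 : (7 : ℕ).testBit a = false := Nat.testBit_lt_two_pow (lt_of_lt_of_le
        (by norm_num : (7 : ℕ) < 2 ^ 3) (Nat.pow_le_pow_right (by norm_num) (by omega)))
      have ht' : (7 : ℕ).testBit a = true := ht
      rw [h4] at ht'
      exact absurd ht' (by simp)
  · have h1 : k < 1 := hk
    have h2 : k' < 1 := hk'
    omega

/-! ### the numbers of two leaves -/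

theorem dv_union {Q L M : Finset V} (hcL : Cov B L) (hcM : Cov B M) (hd : Disjoint L M)
    (hs : Sep B L M) : dv B Q (L ∪ M) = dv B Q L + dv B Q M := by
  unfold dv
  rw [Pv_add hcL hcM hd hs, ee_union hd]
  push_cast
  ring

/-! ### the given clauses for the hits on one set -/

/-- the number of the blocks `[p, p + n)` containing a point. -/
theorem Blk.part_eq {W Z : Finset V} {zn : ℕ} {zm : List ℕ} {bl : ℕ → ι} {zt : ℕ → V}
    (h : Blk B Z zn zm bl zt) {p n : ℕ} (hn : p + n ≤ zm.length)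
    (hW : ∀ b < zm.length, (B (bl b) ∩ W).Nonempty ↔ p ≤ b ∧ b < p + n) (hWZ : W ⊆ Z) (x : V) :
    ((Finset.Ico p (p + n)).filter (fun b => x ∈ B (bl b))).card = (Ez B W x).card := by
  classical
  have h1 : Ez B W x = ((Finset.Ico p (p + n)).filter (fun b => x ∈ B (bl b))).image bl := by
    ext i
    simp only [mem_Ez, mem_filter, mem_image, Finset.mem_Ico]
    constructor
    · rintro ⟨h2, h3⟩
      obtain ⟨b, hb, rfl⟩ := h.all i (h3.mono (inter_subset_inter_left hWZ))
      exact ⟨b, ⟨(hW b hb).1 h3, h2⟩, rfl⟩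
    · rintro ⟨b, ⟨hb, h2⟩, rfl⟩
      exact ⟨h2, (hW b (by omega)).2 hb⟩
  rw [h1, card_image_of_injOn]
  intro a ha b hb hab
  rw [mem_coe, mem_filter, Finset.mem_Ico] at ha hb
  exact h.inj a (by omega) b (by omega) hab

/-- a positive clause for the label `a` with `k` hits on the blocks `[p, p + n)`: one of the blocks of
`l` is a hit. -/
def okP (p n k a : ℕ) (l c : List ℕ) : Bool :=
  decide (c = l.map (fun b => ps (vP b a))) && (inc l &&
    (l.all (fun b => Nat.ble p b && Nat.blt b (p + n)) && Nat.blt n (l.length + k)))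

/-- a negative clause: the blocks of `l` are not all hits of `a`. -/
def okN (p n k a : ℕ) (l c : List ℕ) : Bool :=
  decide (c = l.map (fun b => ng (vP b a))) && (inc l &&
    (l.all (fun b => Nat.ble p b && Nat.blt b (p + n)) && Nat.blt k l.length))

theorem sat_okP {Q Z W : Finset V} {P : Gp} {zn : ℕ} {zm : List ℕ} {bl : ℕ → ι} {zt ct : ℕ → V}
    (h : Blk B Z zn zm bl zt) {p n k a : ℕ} (hn : p + n ≤ zm.length)
    (hW : ∀ b < zm.length, (B (bl b) ∩ W).Nonempty ↔ p ≤ b ∧ b < p + n) (hWZ : W ⊆ Z)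
    (hk : (Ez B W (ct a)).card = k) (ha : a < 32) {l c : List ℕ} (hc : okP p n k a l c = true) :
    Rup.Sat (gval B Q Z P bl ct) c := by
  classical
  unfold okP at hc
  simp only [Bool.and_eq_true, decide_eq_true_eq, List.all_eq_true, Nat.ble_eq, Nat.blt_eq] at hc
  obtain ⟨rfl, hinc, hall, hlen⟩ := hc
  by_contra hcon
  have h1 : ∀ b ∈ l, ct a ∉ B (bl b) := by
    intro b hb hmem
    refine hcon ⟨ps (vP b a), List.mem_map.2 ⟨b, hb, rfl⟩, ?_⟩
    rw [lit_ps, gval_P ha]
    exact hmem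
  have h2 := h.part_eq hn hW hWZ (ct a)
  have h3 : ((Finset.Ico p (p + n)).filter (fun b => ct a ∈ B (bl b))) ⊆
      Finset.Ico p (p + n) \ l.toFinset := by
    intro b hb
    obtain ⟨h4, h5⟩ := mem_filter.1 hb
    exact mem_sdiff.2 ⟨h4, fun h6 => h1 b (List.mem_toFinset.1 h6) h5⟩
  have h4 := card_le_card h3
  have h5 : l.toFinset ⊆ Finset.Ico p (p + n) := by
    intro b hb
    have := hall b (List.mem_toFinset.1 hb)
    exact Finset.mem_Ico.2 this
  have h6 := card_sdiff_add_card_eq_card h5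
  rw [List.toFinset_card_of_nodup (inc_nodup hinc), Nat.card_Ico] at h6
  omega

theorem sat_okN {Q Z W : Finset V} {P : Gp} {zn : ℕ} {zm : List ℕ} {bl : ℕ → ι} {zt ct : ℕ → V}
    (h : Blk B Z zn zm bl zt) {p n k a : ℕ} (hn : p + n ≤ zm.length)
    (hW : ∀ b < zm.length, (B (bl b) ∩ W).Nonempty ↔ p ≤ b ∧ b < p + n) (hWZ : W ⊆ Z)
    (hk : (Ez B W (ct a)).card = k) (ha : a < 32) {l c : List ℕ} (hc : okN p n k a l c = true) :
    Rup.Sat (gval B Q Z P bl ct) c := by
  classical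
  unfold okN at hc
  simp only [Bool.and_eq_true, decide_eq_true_eq, List.all_eq_true, Nat.ble_eq, Nat.blt_eq] at hc
  obtain ⟨rfl, hinc, hall, hlen⟩ := hc
  by_contra hcon
  have h1 : ∀ b ∈ l, ct a ∈ B (bl b) := by
    intro b hb
    by_contra hmem
    refine hcon ⟨ng (vP b a), List.mem_map.2 ⟨b, hb, rfl⟩, ?_⟩
    rw [lit_ng, gval_P ha]
    exact hmem
  have h2 := h.part_eq hn hW hWZ (ct a)
  have h3 : l.toFinset ⊆ ((Finset.Ico p (p + n)).filter (fun b => ct a ∈ B (bl b))) := by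
    intro b hb
    have h4 := hall b (List.mem_toFinset.1 hb)
    exact mem_filter.2 ⟨Finset.mem_Ico.2 h4, h1 b (List.mem_toFinset.1 hb)⟩
  have h4 := card_le_card h3
  rw [List.toFinset_card_of_nodup (inc_nodup hinc)] at h4
  omega

/-! ### the triple is not absorbed by two leaves -/

/-- **the triple is not absorbed by two leaves** which are free together. -/
theorem Frm.nab2 {Q U L M : Finset V} {T : Finset ι} {F : Finset (Finset V)}
    (h : Frm B Q T U F) {j : ι} (hj : j ∈ T) (hL : L ∈ F) (hM : M ∈ F) (hLM : L ≠ M)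
    (hdf : Sp.dfc U (slf B F) {L, M} ≤ 0) :
    ¬ rho B ((L ∪ M) ∪ (B j ∩ Q)) ≤ rho B (L ∪ M) := by
  classical
  intro habs
  obtain ⟨hdis, hsep⟩ := h.sepF L hL M hM hLM
  have hLQ := h.FQ hL
  have hMQ := h.FQ hM
  have hcL := h.cov.mono hLQ
  have hcM := h.cov.mono hMQ
  have hcZ : Cov B ((L ∪ M) ∪ (B j ∩ Q)) :=
    h.cov.mono (union_subset (union_subset hLQ hMQ) inter_subset_right)
  obtain ⟨K, hK, hKc⟩ := exists_cover hcZ
  rw [rho_add hcL hcM hsep] at habs
  set KL := K.filter (fun i => (B i ∩ L).Nonempty) with hKL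
  set KM := K.filter (fun i => (B i ∩ M).Nonempty) with hKM
  have hKd : Disjoint KL KM := by
    rw [disjoint_left]
    intro i h1 h2
    exact hsep i (mem_filter.1 h1).2 (mem_filter.1 h2).2
  have hcovL : L ⊆ KL.biUnion B := by
    intro v hv
    obtain ⟨i, hi, hvi⟩ := mem_biUnion.1 (hK (mem_union_left _ (mem_union_left _ hv)))
    exact mem_biUnion.2 ⟨i, mem_filter.2 ⟨hi, v, mem_inter.2 ⟨hvi, hv⟩⟩, hvi⟩
  have hcovM : M ⊆ KM.biUnion B := by
    intro v hv
    obtain ⟨i, hi, hvi⟩ := mem_biUnion.1 (hK (mem_union_left _ (mem_union_right _ hv)))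
    exact mem_biUnion.2 ⟨i, mem_filter.2 ⟨hi, v, mem_inter.2 ⟨hvi, hv⟩⟩, hvi⟩
  have hrL := rho_le hcovL
  have hrM := rho_le hcovM
  have hcard : KL.card + KM.card ≤ K.card := by
    rw [← card_union_of_disjoint hKd]
    exact card_le_card (union_subset (filter_subset _ _) (filter_subset _ _))
  have hKeq : KL ∪ KM = K := by
    refine eq_of_subset_of_card_le (union_subset (filter_subset _ _) (filter_subset _ _)) ?_
    rw [card_union_of_disjoint hKd]
    omega
  have h1 := h.no_match_abs (Dcl.empty) (A := {L, M}) (by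
      intro C hC
      rw [mem_insert, mem_singleton] at hC
      rcases hC with rfl | rfl <;> assumption) (I := {j})
    (singleton_subset_iff.2 hj)
    (X := fun C => if C = L then KL.biUnion B ∩ Q else KM.biUnion B ∩ Q) (Y := ∅) (R := ∅)
    (fun C _ => by
      show (if C = L then KL.biUnion B ∩ Q else KM.biUnion B ∩ Q) ⊆ Q
      split_ifs <;> exact inter_subset_right) (empty_subset _) (by
      intro C hC
      rw [mem_insert, mem_singleton] at hC
      rcases hC with rfl | rfl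
      · rw [if_pos rfl]
        refine (rho_le (T := KL) (union_subset hcovL inter_subset_left)).trans ?_
        omega
      · rw [if_neg hLM.symm]
        refine (rho_le (T := KM) (union_subset hcovM inter_subset_left)).trans ?_
        omega) (by simp [rho_empty]) (by
      intro k hk v hv
      rw [mem_singleton.1 hk] at hv
      have hvQ := (mem_inter.1 hv).2
      obtain ⟨i, hi, hvi⟩ := mem_biUnion.1 (hK (mem_union_right _ hv))
      rw [← hKeq] at hi
      left
      rcases mem_union.1 hi with h2 | h2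
      · refine ⟨L, mem_insert_self _ _, ?_⟩
        rw [if_pos rfl]
        exact mem_inter.2 ⟨mem_biUnion.2 ⟨i, h2, hvi⟩, hvQ⟩
      · refine ⟨M, mem_insert_of_mem (mem_singleton_self _), ?_⟩
        rw [if_neg hLM.symm]
        exact mem_inter.2 ⟨mem_biUnion.2 ⟨i, h2, hvi⟩, hvQ⟩) (empty_subset _) (x := fun _ => ∅)
    (fun p hp => absurd hp (notMem_empty _)) (fun p hp => absurd hp (notMem_empty _))
  rw [image_empty, union_empty] at h1
  linarith

/-! ### the contexts -/

omit [Fintype ι] in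
/-- the blocks of the first set. -/
theorem Blk.part_L {L M : Finset V} {zn : ℕ} {zm zm' : List ℕ} {bl : ℕ → ι} {bl' : ℕ → ι}
    (h1 : ∀ b < zm.length, (B (bl b) ∩ L).Nonempty)
    (h2 : ∀ b < zm'.length, (B (bl' b) ∩ M).Nonempty) (hs : Sep B L M) :
    ∀ b < (zm ++ shm zn zm').length,
      (B (if b < zm.length then bl b else bl' (b - zm.length)) ∩ L).Nonempty ↔
        0 ≤ b ∧ b < 0 + zm.length := by
  intro b hb
  rw [List.length_append, shm, List.length_map] at hb
  split_ifs with h3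
  · exact ⟨fun _ => ⟨by omega, by omega⟩, fun _ => h1 b h3⟩
  · refine ⟨fun h4 => ?_, fun h4 => by omega⟩
    exact absurd h4 fun h5 => hs _ h5 (h2 _ (by omega))

omit [Fintype ι] in
/-- the blocks of the second set. -/
theorem Blk.part_M {L M : Finset V} {zn : ℕ} {zm zm' : List ℕ} {bl : ℕ → ι} {bl' : ℕ → ι}
    (h1 : ∀ b < zm.length, (B (bl b) ∩ L).Nonempty)
    (h2 : ∀ b < zm'.length, (B (bl' b) ∩ M).Nonempty) (hs : Sep B L M) :
    ∀ b < (zm ++ shm zn zm').length,
      (B (if b < zm.length then bl b else bl' (b - zm.length)) ∩ M).Nonempty ↔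
        zm.length ≤ b ∧ b < zm.length + zm'.length := by
  intro b hb
  rw [List.length_append, shm, List.length_map] at hb
  split_ifs with h3
  · refine ⟨fun h4 => ?_, fun h4 => by omega⟩
    exact absurd h4 fun h5 => hs _ (h1 _ h3) h5
  · exact ⟨fun _ => ⟨by omega, by omega⟩, fun _ => h2 _ (by omega)⟩

/-- the numbers of a point. -/
theorem Frm.leafpt {Q U : Finset V} {T : Finset ι} {F : Finset (Finset V)} {x : V}
    (h : Frm B Q T U F) (hv : ViolR B Q) (hL : {x} ∈ F) :
    rho B {x} = 1 ∧ Pv B {x} = 1 ∧ dv B Q {x} = 1 - 2 * (ee B Q {x} : ℤ) ∧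
      (hit B (Q \ {x}) {x} : ℤ) + fs B Q {x} = 10 := by
  have hLQ := h.FQ hL
  have hs := h.sv_leaf hL
  have hcm : cm B {x} = 5 := cm_singleton (hv.reg.mono hLQ)
  have hrho : rho B {x} = 1 := by
    unfold sv at hs
    rw [card_singleton] at hs
    omega
  have hP : Pv B {x} = 1 := by
    rw [Hyp6.Pv_eq, hcm, hrho, card_singleton]
    norm_num
  refine ⟨hrho, hP, ?_, ?_⟩
  · unfold dv
    rw [hP]
  · have h4 := hit_add_fsQ (B := B) (hv.reg.mono hLQ) hLQ
    rw [h4]
    unfold Hyp6.hc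
    rw [hcm, card_singleton]
    norm_num

/-- the data of a table for two leaves. -/
structure Gx2 (B : ι → Finset V) (Q L M : Finset V) (j : ι) (zn r d0 pz : ℕ) (zm : List ℕ)
    (nL nM : ℕ) (hT hW : List ℕ) (bl : ℕ → ι) (ct zt : ℕ → V) : Prop where
  lbl : Lbl2 B Q L M j hT hW ct
  blk : Blk B (L ∪ M) zn zm bl zt
  len : zm.length = nL + nM
  pL : ∀ b < zm.length, (B (bl b) ∩ L).Nonempty ↔ 0 ≤ b ∧ b < 0 + nL
  pM : ∀ b < zm.length, (B (bl b) ∩ M).Nonempty ↔ nL ≤ b ∧ b < nL + nM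
  lenW : hW.length ≤ 20
  gx : Gdx.Gx B Q (L ∪ M) (Pg2 zn r d0 pz zm hT hW) bl ct zt (fun _ => j)

/-- the number of the labels is bounded by the number of the hits. -/
theorem Lbl2.length_le {Q L M : Finset V} {j : ι} {hT hW : List ℕ} {ct : ℕ → V}
    (hl : Lbl2 B Q L M j hT hW ct) : hW.length ≤ hit B (Q \ L) L + hit B (Q \ M) M := by
  have h1 : ∀ l : List ℕ, (∀ x ∈ l, 1 ≤ x) →
      l.length ≤ (l.map (fun c => c / 8)).sum + (l.map (fun c => c % 8)).sum := by
    intro l
    induction l with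
    | nil => intro _; simp
    | cons x t ih =>
      intro hx
      rw [List.length_cons, List.map_cons, List.map_cons, List.sum_cons, List.sum_cons]
      have h2 := ih fun y hy => hx y (List.mem_cons_of_mem _ hy)
      have h3 := hx x List.mem_cons_self
      omega
  have h2 := h1 hW hl.posW
  rw [hl.sumWL, hl.sumWM] at h2
  have h3 : hit B ((Q \ (L ∪ M)) \ B j) L ≤ hit B (Q \ L) L := by
    refine hit_mono_left _ ?_
    intro v hv
    obtain ⟨h4, _⟩ := mem_sdiff.1 hv
    obtain ⟨h5, h6⟩ := mem_sdiff.1 h4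
    exact mem_sdiff.2 ⟨h5, fun h7 => h6 (mem_union_left _ h7)⟩
  have h4 : hit B ((Q \ (L ∪ M)) \ B j) M ≤ hit B (Q \ M) M := by
    refine hit_mono_left _ ?_
    intro v hv
    obtain ⟨h4, _⟩ := mem_sdiff.1 hv
    obtain ⟨h5, h6⟩ := mem_sdiff.1 h4
    exact mem_sdiff.2 ⟨h5, fun h7 => h6 (mem_union_right _ h7)⟩
  omega

/-- **the context for two points**. -/
theorem Frm.exists_gxpp {Q U : Finset V} {T : Finset ι} {F : Finset (Finset V)} {x y : V}
    (h : Frm B Q T U F) (hv : ViolR B Q) (hx : {x} ∈ F) (hy : {y} ∈ F) (hxy : x ≠ y)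
    (ex : ee B Q {x} = 0) (ey : ee B Q {y} = 0) {j : ι} (hj3 : (B j ∩ Q).card = 3)
    (hjx : ¬ (B j ∩ {x}).Nonempty) (hjy : ¬ (B j ∩ {y}).Nonempty) :
    ∃ hT hW bl ct zt, Gx2 B Q {x} {y} j 2 2 12 12 [1, 1, 1, 1, 1, 2, 2, 2, 2, 2] 5 5 hT hW bl ct
      zt := by
  classical
  have hne : ({x} : Finset V) ≠ {y} := fun he => hxy (singleton_injective he)
  obtain ⟨hdis, hsep⟩ := h.sepF _ hx _ hy hne
  have hxQ := h.FQ hx
  have hyQ := h.FQ hy
  obtain ⟨rx, Px, dx, fx⟩ := h.leafpt hv hx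
  obtain ⟨ry, Py, dy, fy⟩ := h.leafpt hv hy
  obtain ⟨b1, z1, k1⟩ := Blk.point (B := B) (hv.reg x (hxQ (mem_singleton_self x)))
  obtain ⟨b2, z2, k2⟩ := Blk.point (B := B) (hv.reg y (hyQ (mem_singleton_self y)))
  obtain ⟨hT, hW, ct, hl⟩ := exists_labels2 hv.reg hj3 hjx hjy
  have hblk := k1.union k2 hdis hsep (by
    intro m hm
    simp only [List.mem_cons, List.not_mem_nil, or_false, or_self] at hm
    subst hm
    norm_num)
  have hfx := fs_nonneg (B := B) (Z := Q) (C := {x}) hv.tr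
  have hfy := fs_nonneg (B := B) (Z := Q) (C := {y}) hv.tr
  have hlen := hl.length_le
  have hlen' : hW.length ≤ 20 := by omega
  have hcx := h.cov.mono hxQ
  have hcy := h.cov.mono hyQ
  refine ⟨hT, hW, _, ct, _, hl, hblk, by decide, ?_, ?_, hlen', ?_⟩
  · exact Blk.part_L (zn := 1) (zm := [1, 1, 1, 1, 1]) (zm' := [1, 1, 1, 1, 1]) k1.touch k2.touch
      hsep
  · exact Blk.part_M (zn := 1) (zm := [1, 1, 1, 1, 1]) (zm' := [1, 1, 1, 1, 1]) k1.touch k2.touch
      hsep
  · refine hl.gx hsep hblk hv (union_subset hxQ hyQ) ⟨x, mem_union_left _ (mem_singleton_self x)⟩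
      hj3 (by omega) ?_ ?_ ?_
    · rw [rho_add hcx hcy hsep, rx, ry]
    · rw [dv_union hcx hcy hdis hsep, dx, dy, ex, ey]
      norm_num
    · rw [Pv_add hcx hcy hdis hsep, Px, Py]
      norm_num

/-- **the context for a leaf of type (3;1) and a point**. -/
theorem Frm.exists_gx3p {Q U L : Finset V} {T : Finset ι} {F : Finset (Finset V)} {y : V}
    (h : Frm B Q T U F) (hv : ViolR B Q) (hL : L ∈ F) (hc3 : L.card = 3) (h1 : nt B L 1 = 1)
    (hy : {y} ∈ F) (ey : ee B Q {y} = 0) {j : ι} (hj3 : (B j ∩ Q).card = 3)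
    (hjL : ¬ (B j ∩ L).Nonempty) (hjy : ¬ (B j ∩ {y}).Nonempty) :
    ∃ hT hW bl ct zt, Gx2 B Q L {y} j 4 3 10 10 [3, 3, 3, 5, 5, 6, 6, 4, 8, 8, 8, 8, 8] 8 5 hT hW
      bl ct zt := by
  classical
  have hne : L ≠ ({y} : Finset V) := by
    rintro rfl
    rw [card_singleton] at hc3
    omega
  obtain ⟨hdis, hsep⟩ := h.sepF _ hL _ hy hne
  have hLQ := h.FQ hL
  have hyQ := h.FQ hy
  obtain ⟨hcm, hrho, hP, hit9⟩ := h.leaf31 hv hL hc3 h1
  obtain ⟨ry, Py, dy, fy⟩ := h.leafpt hv hy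
  obtain ⟨a, b, c, s, ht⟩ := exists_t31 (hv.reg.mono hLQ) (hv.tr.mono hLQ) hc3 hcm hrho
  obtain ⟨b1, z1, k1, _⟩ := ht.exists_blocks
  obtain ⟨b2, z2, k2⟩ := Blk.point (B := B) (hv.reg y (hyQ (mem_singleton_self y)))
  obtain ⟨hT, hW, ct, hl⟩ := exists_labels2 hv.reg hj3 hjL hjy
  have hblk := k1.union k2 hdis hsep (by
    intro m hm
    simp only [List.mem_cons, List.not_mem_nil, or_false] at hm
    omega)
  have hfy := fs_nonneg (B := B) (Z := Q) (C := {y}) hv.tr
  have hlen := hl.length_le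
  have hlen' : hW.length ≤ 20 := by omega
  have hcL := h.cov.mono hLQ
  have hcy := h.cov.mono hyQ
  have hdL := hv.leaf_dv h hL
  refine ⟨hT, hW, _, ct, _, hl, hblk, by decide, ?_, ?_, hlen', ?_⟩
  · exact Blk.part_L (zn := 3) (zm := [3, 3, 3, 5, 5, 6, 6, 4]) (zm' := [1, 1, 1, 1, 1]) k1.touch
      k2.touch hsep
  · exact Blk.part_M (zn := 3) (zm := [3, 3, 3, 5, 5, 6, 6, 4]) (zm' := [1, 1, 1, 1, 1]) k1.touch
      k2.touch hsep
  · refine hl.gx hsep hblk hv (union_subset hLQ hyQ) ⟨y, mem_union_right _ (mem_singleton_self y)⟩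
      hj3 (by omega) ?_ ?_ ?_
    · rw [rho_add hcL hcy hsep, hrho, ry]
    · rw [dv_union hcL hcy hdis hsep, dy, ey]
      push_cast
      linarith
    · rw [Pv_add hcL hcy hdis hsep, hP, Py]
      norm_num

/-! ### the checked instances -/

/-- the test of a given clause for the hits on one set: `[p, p + n)` are its blocks, `k a` the number
of hits of the label `a`. -/
def okh (p n m : ℕ) (k : ℕ → ℕ) (c : List ℕ) : Bool :=
  Nat.blt (c.getD 0 0 / 16 % 32) m &&
    (okP p n (k (c.getD 0 0 / 16 % 32)) (c.getD 0 0 / 16 % 32) (c.map (fun x => x / 16 / 32)) c ||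
      okN p n (k (c.getD 0 0 / 16 % 32)) (c.getD 0 0 / 16 % 32) (c.map (fun x => x / 16 / 32)) c)

/-- the test of a given clause: the triple is not absorbed, or the hits on one set. -/
def okg2 (nL nM : ℕ) (hT hW : List ℕ) (c : List ℕ) : Bool :=
  decide (c = [ng (vA 7)]) || okh 0 nL (3 + hW.length) (fun a => (hT ++ hW).getD a 0 / 8) c ||
    okh nL nM (3 + hW.length) (fun a => (hT ++ hW).getD a 0 % 8) c

/-- the triple as a mask. -/
theorem Lbl2.ptm7 {Q L M : Finset V} {j : ι} {hT hW : List ℕ} {ct : ℕ → V}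
    (hl : Lbl2 B Q L M j hT hW ct) : ptm ct (3 + hW.length) 7 = B j ∩ Q := by
  ext v
  rw [mem_ptm, hl.trip]
  constructor
  · rintro ⟨b, _, hb1, rfl⟩
    refine ⟨b, ?_, rfl⟩
    by_contra h3
    have h4 : (7 : ℕ).testBit b = false := Nat.testBit_lt_two_pow (lt_of_lt_of_le
      (by norm_num : (7 : ℕ) < 2 ^ 3) (Nat.pow_le_pow_right (by norm_num) (by omega)))
    rw [h4] at hb1
    exact absurd hb1 (by simp)
  · rintro ⟨b, hb, rfl⟩
    refine ⟨b, by omega, ?_, rfl⟩
    have h3 : b = 0 ∨ b = 1 ∨ b = 2 := by omega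
    rcases h3 with rfl | rfl | rfl <;> decide

/-- **the given clauses hold**. -/
theorem Gx2.given {Q L M : Finset V} {j : ι} {zn r d0 pz nL nM : ℕ} {zm hT hW : List ℕ}
    {bl : ℕ → ι} {ct zt : ℕ → V} (h : Gx2 B Q L M j zn r d0 pz zm nL nM hT hW bl ct zt)
    (hnab : ¬ rho B ((L ∪ M) ∪ (B j ∩ Q)) ≤ rho B (L ∪ M)) {c : List ℕ}
    (hc : okg2 nL nM hT hW c = true) :
    Rup.Sat (gval B Q (L ∪ M) (Pg2 zn r d0 pz zm hT hW) bl ct) c := by
  classical
  have hlW := h.lenW
  have key : ∀ (W : Finset V) (p n : ℕ) (k : ℕ → ℕ), W ⊆ L ∪ M → p + n ≤ zm.length →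
      (∀ b < zm.length, (B (bl b) ∩ W).Nonempty ↔ p ≤ b ∧ b < p + n) →
      (∀ a < 3 + hW.length, (Ez B W (ct a)).card = k a) →
      okh p n (3 + hW.length) k c = true →
      Rup.Sat (gval B Q (L ∪ M) (Pg2 zn r d0 pz zm hT hW) bl ct) c := by
    intro W p n k hWZ hpn hW' hk hc'
    unfold okh at hc'
    simp only [Bool.and_eq_true, Bool.or_eq_true, Nat.blt_eq] at hc'
    obtain ⟨h1, h2⟩ := hc'
    rcases h2 with h2 | h2
    · exact sat_okP h.blk hpn hW' hWZ (hk _ h1) (by omega) h2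
    · exact sat_okN h.blk hpn hW' hWZ (hk _ h1) (by omega) h2
  unfold okg2 at hc
  simp only [Bool.or_eq_true, decide_eq_true_eq] at hc
  rcases hc with (hc | hc) | hc
  · subst hc
    refine ⟨_, List.mem_singleton_self _, ?_⟩
    rw [lit_ng, gval_A]
    show ¬ rho B ((L ∪ M) ∪ ptm ct (3 + hW.length) 7) ≤ rho B (L ∪ M)
    rw [h.lbl.ptm7]
    exact hnab
  · exact key L 0 nL _ subset_union_left (by rw [h.len]; omega) h.pL
      (fun a ha => h.lbl.hitL ha) hc
  · exact key M nL nM _ subset_union_right (by rw [h.len]) h.pM (fun a ha => h.lbl.hitM ha) hc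

/-- **a checked instance for two leaves does not occur**. -/
theorem Gx2.no {Q L M : Finset V} {j : ι} {zn r d0 pz nL nM : ℕ} {zm hT hW : List ℕ}
    {bl : ℕ → ι} {ct zt : ℕ → V} (h : Gx2 B Q L M j zn r d0 pz zm nL nM hT hW bl ct zt)
    (hnab : ¬ rho B ((L ∪ M) ∪ (B j ∩ Q)) ≤ rho B (L ∪ M)) {given : List (List ℕ)}
    (hgv : given.all (okg2 nL nM hT hW) = true) {bs : List Gb} {ks : List Gk}
    {nm db : Rup.Tr} {cnf : List (List ℕ)} {prf : List ℕ}
    (hb : instX (Pg2 zn r d0 pz zm hT hW) given bs ks nm cnf db prf = true) : False :=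
  h.gx.no (fun c hc => h.given hnab (List.all_eq_true.1 hgv c hc)) hb

end Pool.Agent.Hyp6
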