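import Pool.Agent.Hyp6.Gdt2

/-!
# HYP6 GDT3: the list of the code vectors for two leaves

`prt2`, `tri2`: the decreasing lists of codes `8 a + b` with given sums. `Lbl2.mem_cand2`: the codes of
the labels are in the list `cand2`. `Lbl2.swap`: the codes for `(M, L)` are the swapped codes.
-/

set_option autoImplicit false

namespace Pool.Agent.Hyp6

open Finset Pool.Agent.Hyp5 Gdx Rup

universe u v

/-- the test of one code: at most `mL`, `mM` hits, at most `mt` in all. -/
def okc2 (mL mM mt c : ℕ) : Bool :=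
  Nat.ble (c / 8) mL && (Nat.ble (c % 8) mM && Nat.ble (c / 8 + c % 8) mt)

/-- decreasing lists of positive codes at most `top` with the sums `sL`, `sM`. -/
def prt2 (mL mM mt : ℕ) : ℕ → ℕ → ℕ → ℕ → List (List ℕ)
  | 0, sL, sM, _ => if sL = 0 ∧ sM = 0 then [[]] else []
  | f + 1, sL, sM, top => (if sL = 0 ∧ sM = 0 then [[]] else []) ++
      ((List.range (top + 1)).filter (fun c => Nat.ble 1 c && (okc2 mL mM mt c &&
        (Nat.ble (c / 8) sL && Nat.ble (c % 8) sM)))).flatMap
        (fun c => (prt2 mL mM mt f (sL - c / 8) (sM - c % 8) c).map (fun l => c :: l))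

theorem mem_prt2 {mL mM mt : ℕ} : ∀ (f sL sM top : ℕ) (l : List ℕ),
    l.Pairwise (fun a b => b ≤ a) → (∀ x ∈ l, 1 ≤ x ∧ x ≤ top ∧ okc2 mL mM mt x = true) →
    (l.map (fun c => c / 8)).sum = sL → (l.map (fun c => c % 8)).sum = sM → l.length ≤ f →
    l ∈ prt2 mL mM mt f sL sM top := by
  intro f
  induction f with
  | zero =>
    intro sL sM top l _ _ h1 h2 hl
    have h3 : l = [] := List.length_eq_zero_iff.1 (by omega)
    subst h3
    simp only [List.map_nil, List.sum_nil] at h1 h2
    subst h1 h2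
    simp [prt2]
  | succ f ih =>
    intro sL sM top l hd hx h1 h2 hl
    rcases l with _ | ⟨a, t⟩
    · simp only [List.map_nil, List.sum_nil] at h1 h2
      subst h1 h2
      simp [prt2]
    · obtain ⟨h3, h4, h5⟩ := hx a List.mem_cons_self
      rw [List.map_cons, List.sum_cons] at h1 h2
      rw [List.length_cons] at hl
      rw [List.pairwise_cons] at hd
      refine List.mem_append_right _ (List.mem_flatMap.2 ⟨a, List.mem_filter.2
        ⟨List.mem_range.2 (by omega), ?_⟩, ?_⟩)
      · rw [Bool.and_eq_true, Bool.and_eq_true, Bool.and_eq_true, Nat.ble_eq, Nat.ble_eq,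
          Nat.ble_eq]
        exact ⟨h3, h5, by omega, by omega⟩
      · refine List.mem_map.2 ⟨t, ih _ _ a t hd.2 (fun x hx' => ?_) (by omega) (by omega)
          (by omega), rfl⟩
        obtain ⟨h6, _, h8⟩ := hx x (List.mem_cons_of_mem _ hx')
        exact ⟨h6, hd.1 x hx', h8⟩

/-- decreasing triples of codes with the sums `sL`, `sM`. -/
def tri2 (mL mM mt sL sM : ℕ) : List (List ℕ) :=
  ((List.range (8 * sL + sM + 1)).filter (fun a => okc2 mL mM mt a)).flatMap (fun a =>
    ((List.range (a + 1)).filter (fun b => okc2 mL mM mt b &&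
      (Nat.ble (a / 8 + b / 8) sL && Nat.ble (a % 8 + b % 8) sM))).flatMap (fun b =>
        if okc2 mL mM mt (8 * (sL - (a / 8 + b / 8)) + (sM - (a % 8 + b % 8))) ∧
          8 * (sL - (a / 8 + b / 8)) + (sM - (a % 8 + b % 8)) ≤ b then
          [[a, b, 8 * (sL - (a / 8 + b / 8)) + (sM - (a % 8 + b % 8))]] else []))

theorem mem_tri2 {mL mM mt sL sM : ℕ} {l : List ℕ} (h3 : l.length = 3)
    (hd : l.Pairwise (fun a b => b ≤ a)) (hx : ∀ x ∈ l, okc2 mL mM mt x = true)
    (h1 : (l.map (fun c => c / 8)).sum = sL) (h2 : (l.map (fun c => c % 8)).sum = sM) :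
    l ∈ tri2 mL mM mt sL sM := by
  rcases l with _ | ⟨a, _ | ⟨b, _ | ⟨c, _ | ⟨d, t⟩⟩⟩⟩
  · simp at h3
  · simp at h3
  · simp at h3
  · rw [List.pairwise_cons, List.pairwise_cons] at hd
    have e1 := hd.1 b List.mem_cons_self
    have e2 := hd.2.1 c List.mem_cons_self
    have e3 := hx a List.mem_cons_self
    have e4 := hx b (List.mem_cons_of_mem _ List.mem_cons_self)
    have e5 := hx c (List.mem_cons_of_mem _ (List.mem_cons_of_mem _ List.mem_cons_self))
    simp only [List.map_cons, List.map_nil, List.sum_cons, List.sum_nil] at h1 h2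
    have hc : 8 * (sL - (a / 8 + b / 8)) + (sM - (a % 8 + b % 8)) = c := by omega
    refine List.mem_flatMap.2 ⟨a, List.mem_filter.2 ⟨List.mem_range.2 (by omega), e3⟩,
      List.mem_flatMap.2 ⟨b, List.mem_filter.2 ⟨List.mem_range.2 (by omega), ?_⟩, ?_⟩⟩
    · rw [Bool.and_eq_true, Bool.and_eq_true, Nat.ble_eq, Nat.ble_eq]
      exact ⟨e4, by omega, by omega⟩
    · rw [hc, if_pos ⟨e5, e2⟩]
      exact List.mem_singleton_self _
  · simp at h3

/-- the pairs of code lists with the sums `(tL, tM)` at the triple, `(wL, wM)` at the others. -/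
def cand2 (mL mM tL tM wL wM : ℕ) : List (List ℕ × List ℕ) :=
  (tri2 mL mM 4 tL tM).flatMap (fun t =>
    (prt2 mL mM 5 (wL + wM) wL wM (8 * wL + wM)).map (fun w => (t, w)))

/-- the swapped code. -/
def sw (c : ℕ) : ℕ := 8 * (c % 8) + c / 8

/-- insertion into a decreasing list. -/
def insD (a : ℕ) : List ℕ → List ℕ
  | [] => [a]
  | b :: l => if b ≤ a then a :: b :: l else b :: insD a l

/-- decreasing sorting. -/
def srtD : List ℕ → List ℕ
  | [] => []
  | a :: l => insD a (srtD l)

theorem insD_perm (a : ℕ) : ∀ l, (insD a l).Perm (a :: l)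
  | [] => List.Perm.refl _
  | b :: l => by
    unfold insD
    split_ifs with h
    · exact List.Perm.refl _
    · exact ((insD_perm a l).cons b).trans (List.Perm.swap _ _ _)

theorem srtD_perm : ∀ l, (srtD l).Perm l
  | [] => List.Perm.refl _
  | a :: l => (insD_perm a (srtD l)).trans ((srtD_perm l).cons a)

theorem insD_sorted (a : ℕ) : ∀ l : List ℕ, l.Pairwise (fun a b => b ≤ a) →
    (insD a l).Pairwise (fun a b => b ≤ a)
  | [], _ => List.pairwise_singleton _ _
  | b :: l, h => by
    rw [List.pairwise_cons] at h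
    unfold insD
    split_ifs with h1
    · rw [List.pairwise_cons, List.pairwise_cons]
      refine ⟨fun x hx => ?_, h.1, h.2⟩
      rcases List.mem_cons.1 hx with rfl | hx
      · exact h1
      · exact (h.1 x hx).trans h1
    · rw [List.pairwise_cons]
      refine ⟨fun x hx => ?_, insD_sorted a l h.2⟩
      rcases List.mem_cons.1 ((insD_perm a l).mem_iff.1 hx) with rfl | hx
      · omega
      · exact h.1 x hx

theorem srtD_sorted : ∀ l : List ℕ, (srtD l).Pairwise (fun a b => b ≤ a)
  | [] => List.Pairwise.nil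
  | a :: l => insD_sorted a _ (srtD_sorted l)

theorem sorted_unique {l l' : List ℕ} (hp : l.Perm l') (h : l.Pairwise (fun a b => b ≤ a))
    (h' : l'.Pairwise (fun a b => b ≤ a)) : l = l' :=
  hp.eq_of_pairwise (fun _ _ _ _ h1 h2 => le_antisymm h2 h1) h h'

/-- the swapped pair. -/
def sw2p (p : List ℕ × List ℕ) : List ℕ × List ℕ := (srtD (p.1.map sw), srtD (p.2.map sw))

section

variable {V : Type v} [DecidableEq V] {ι : Type u} [Fintype ι] {B : ι → Finset V}

/-- the codes are the values on the points. -/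
theorem Lbl2.perms {Q L M : Finset V} {j : ι} {hT hW : List ℕ} {ct : ℕ → V}
    (hl : Lbl2 B Q L M j hT hW ct) :
    ((B j ∩ Q).toList.map (cd2 B L M)).Perm hT ∧
      ((((Q \ (L ∪ M)) \ B j).filter (fun v => (Ez B (L ∪ M) v).Nonempty)).toList.map
        (cd2 B L M)).Perm hW := by
  classical
  have hperm : ∀ (s : Finset V) (f : V → ℕ) (l : List ℕ) (e : ℕ → V),
      (∀ b < l.length, e b ∈ s) → (∀ b < l.length, ∀ b' < l.length, e b = e b' → b = b') →
      (∀ b < l.length, f (e b) = l.getD b 0) → (∀ a ∈ s, ∃ b < l.length, e b = a) →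
      (s.toList.map f).Perm l := by
    intro s f l e h1 h2 h3 h4
    have h5 : s.toList.Perm ((List.range l.length).map e) := by
      rw [List.perm_ext_iff_of_nodup s.nodup_toList]
      · intro a
        rw [Finset.mem_toList, List.mem_map]
        constructor
        · intro ha
          obtain ⟨b, hb, he⟩ := h4 a ha
          exact ⟨b, List.mem_range.2 hb, he⟩
        · rintro ⟨b, hb, rfl⟩
          exact h1 b (List.mem_range.1 hb)
      · refine List.Nodup.map_on ?_ List.nodup_range
        intro b hb b' hb' he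
        exact h2 b (List.mem_range.1 hb) b' (List.mem_range.1 hb') he
    refine (h5.map f).trans (List.Perm.of_eq ?_)
    rw [List.map_map]
    refine List.ext_getElem (by simp) fun n h6 h7 => ?_
    rw [List.getElem_map, List.getElem_range, Function.comp_apply, h3 n h7,
      List.getD_eq_getElem _ _ h7]
  have hlT := hl.lenT
  constructor
  · refine hperm (B j ∩ Q) _ hT ct (fun b hb => (hl.trip _).2 ⟨b, by omega, rfl⟩)
      (fun b hb b' hb' he => hl.inj b (by omega) b' (by omega) he) (fun b hb => ?_)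
      (fun a ha => ?_)
    · rw [hl.code b (by omega), List.getD_append _ _ _ _ hb]
    · obtain ⟨b, hb, he⟩ := (hl.trip a).1 ha
      exact ⟨b, by omega, he⟩
  · refine hperm _ _ hW (fun b => ct (3 + b)) (fun b hb => ?_)
      (fun b hb b' hb' he => ?_) (fun b hb => ?_) (fun a ha => ?_)
    · obtain ⟨h1, h2⟩ := hl.memQ (3 + b) (by omega)
      refine mem_filter.2 ⟨mem_sdiff.2 ⟨mem_sdiff.2 ⟨h1, h2⟩, fun h3 => ?_⟩, ?_⟩
      · obtain ⟨a, ha, he⟩ := (hl.trip _).1 (mem_inter.2 ⟨h3, h1⟩)
        have := hl.inj a (by omega) (3 + b) (by omega) he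
        omega
      · have h4 := hl.code (3 + b) (by omega)
        rw [List.getD_append_right _ _ _ _ (by omega), show 3 + b - hT.length = b by omega,
          List.getD_eq_getElem _ _ hb] at h4
        have h5 := hl.posW _ (List.getElem_mem hb)
        rw [Ez_union_ne, ← card_pos, ← card_pos]
        unfold cd2 at h4
        omega
    · have := hl.inj (3 + b) (by omega) (3 + b') (by omega) he
      omega
    · rw [hl.code (3 + b) (by omega), List.getD_append_right _ _ _ _ (by omega),
        show 3 + b - hT.length = b by omega]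
    · obtain ⟨h1, h2⟩ := mem_filter.1 ha
      obtain ⟨h3, h4⟩ := mem_sdiff.1 h1
      obtain ⟨h5, h6⟩ := mem_sdiff.1 h3
      obtain ⟨c, hc, he⟩ := hl.all a h5 h6 h2
      have h7 : ¬ c < 3 := by
        intro h8
        have h9 := (hl.trip a).2 ⟨c, h8, he⟩
        exact h4 (mem_inter.1 h9).1
      exact ⟨c - 3, by omega, by rw [show 3 + (c - 3) = c by omega]; exact he⟩

/-- **the codes in the other order**. -/
theorem Lbl2.swap {Q L M : Finset V} {j : ι} {hT hW hT' hW' : List ℕ} {ct ct' : ℕ → V}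
    (hl : Lbl2 B Q L M j hT hW ct) (hl' : Lbl2 B Q M L j hT' hW' ct') (hr : Reg B Q) :
    (hT', hW') = sw2p (hT, hW) := by
  classical
  obtain ⟨p1, p2⟩ := hl.perms
  obtain ⟨q1, q2⟩ := hl'.perms
  have hsw : ∀ v ∈ Q, cd2 B M L v = sw (cd2 B L M v) := by
    intro v hv
    have h1 : (Ez B M v).card ≤ 5 := card_Ez_le (hr v hv)
    unfold sw cd2
    omega
  have hset : (((Q \ (M ∪ L)) \ B j).filter (fun v => (Ez B (M ∪ L) v).Nonempty)) =
      (((Q \ (L ∪ M)) \ B j).filter (fun v => (Ez B (L ∪ M) v).Nonempty)) := by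
    rw [union_comm M L]
  rw [hset] at q2
  have key : ∀ (s : Finset V) (l l' : List ℕ), s ⊆ Q → (s.toList.map (cd2 B L M)).Perm l →
      (s.toList.map (cd2 B M L)).Perm l' → l'.Pairwise (fun a b => b ≤ a) →
      l' = srtD (l.map sw) := by
    intro s l l' hs h1 h2 h3
    refine sorted_unique ?_ h3 (srtD_sorted _)
    have h4 : s.toList.map (cd2 B M L) = (s.toList.map (cd2 B L M)).map sw := by
      rw [List.map_map]
      refine List.map_congr_left fun v hv => ?_
      rw [Function.comp_apply]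
      exact hsw v (hs (Finset.mem_toList.1 hv))
    rw [h4] at h2
    exact h2.symm.trans ((h1.map sw).trans (srtD_perm _).symm)
  unfold sw2p
  rw [key _ _ _ inter_subset_right p1 q1 hl'.desT, key _ _ _ (fun v hv =>
    (mem_sdiff.1 (mem_sdiff.1 (mem_filter.1 hv).1).1).1) p2 q2 hl'.desW]

/-- **the codes of the labels are in the list**. -/
theorem Lbl2.mem_cand2 {Q L M : Finset V} {j : ι} {hT hW : List ℕ} {ct : ℕ → V}
    (hl : Lbl2 B Q L M j hT hW ct) (hs : Sep B L M) (hr : Reg B Q) {mL mM : ℕ}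
    (hjL : ¬ (B j ∩ L).Nonempty) (hjM : ¬ (B j ∩ M).Nonempty)
    (hmL : ∀ v ∈ Q, v ∉ L ∪ M → (Ez B L v).card ≤ mL)
    (hmM : ∀ v ∈ Q, v ∉ L ∪ M → (Ez B M v).card ≤ mM) :
    (hT, hW) ∈ cand2 mL mM (hit B (B j ∩ Q) L) (hit B (B j ∩ Q) M)
      (hit B ((Q \ (L ∪ M)) \ B j) L) (hit B ((Q \ (L ∪ M)) \ B j) M) := by
  classical
  have hlT := hl.lenT
  have hcode : ∀ a < 3 + hW.length, okc2 mL mM 5 ((hT ++ hW).getD a 0) = true := by
    intro a ha
    obtain ⟨h1, h2⟩ := hl.memQ a ha
    have h3 := hl.hitL ha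
    have h4 := hl.hitM ha
    have h5 := hmL _ h1 h2
    have h6 := hmM _ h1 h2
    have h7 := card_Ez_union hs (ct a)
    have h8 : (Ez B (L ∪ M) (ct a)).card ≤ 5 := card_Ez_le (hr _ h1)
    unfold okc2
    rw [Bool.and_eq_true, Bool.and_eq_true, Nat.ble_eq, Nat.ble_eq, Nat.ble_eq]
    omega
  have hcodeT : ∀ a < 3, okc2 mL mM 4 (hT.getD a 0) = true := by
    intro a ha
    obtain ⟨h1, h2⟩ := hl.memQ a (by omega)
    have h9 : (hT ++ hW).getD a 0 = hT.getD a 0 := List.getD_append _ _ _ _ (by omega)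
    have h3 := hl.hitL (a := a) (by omega)
    have h4 := hl.hitM (a := a) (by omega)
    rw [h9] at h3 h4
    have h5 := hmL _ h1 h2
    have h6 := hmM _ h1 h2
    have h7 := card_Ez_union hs (ct a)
    have h8 : (Ez B (L ∪ M) (ct a)).card ≤ 4 := by
      have h10 : insert j (Ez B (L ∪ M) (ct a)) ⊆ univ.filter (fun i => ct a ∈ B i) := by
        intro i hi
        rcases mem_insert.1 hi with rfl | hi
        · exact mem_filter.2 ⟨mem_univ _, (mem_inter.1 ((hl.trip _).2 ⟨a, ha, rfl⟩)).1⟩
        · exact mem_filter.2 ⟨mem_univ _, (mem_Ez.1 hi).1⟩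
      have h11 := card_le_card h10
      rw [hr _ h1, card_insert_of_notMem] at h11
      · omega
      · intro h12
        rw [mem_Ez_union, mem_Ez, mem_Ez] at h12
        rcases h12 with ⟨_, h13⟩ | ⟨_, h13⟩
        · exact hjL h13
        · exact hjM h13
    unfold okc2
    rw [Bool.and_eq_true, Bool.and_eq_true, Nat.ble_eq, Nat.ble_eq, Nat.ble_eq]
    omega
  refine List.mem_flatMap.2 ⟨hT, mem_tri2 hlT hl.desT ?_ hl.sumTL hl.sumTM, List.mem_map.2
    ⟨hW, mem_prt2 _ _ _ _ _ hl.desW ?_ hl.sumWL hl.sumWM ?_, rfl⟩⟩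
  · intro x hx
    obtain ⟨n, hn, he⟩ := List.getElem_of_mem hx
    rw [← he, ← List.getD_eq_getElem _ 0 hn]
    exact hcodeT n (by omega)
  · intro x hx
    obtain ⟨n, hn, he⟩ := List.getElem_of_mem hx
    have h1 := hcode (3 + n) (by omega)
    rw [List.getD_append_right _ _ _ _ (by omega), show 3 + n - hT.length = n by omega,
      List.getD_eq_getElem _ _ hn, he] at h1
    have h2 : x / 8 ≤ (hW.map (fun c => c / 8)).sum :=
      List.single_le_sum (by simp) _ (List.mem_map.2 ⟨x, hx, rfl⟩)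
    have h3 : x % 8 ≤ (hW.map (fun c => c % 8)).sum :=
      List.single_le_sum (by simp) _ (List.mem_map.2 ⟨x, hx, rfl⟩)
    rw [hl.sumWL] at h2
    rw [hl.sumWM] at h3
    refine ⟨hl.posW x hx, by omega, h1⟩
  · have h1 : ∀ l : List ℕ, (∀ x ∈ l, 1 ≤ x) →
        l.length ≤ (l.map (fun c => c / 8)).sum + (l.map (fun c => c % 8)).sum := by
      intro l
      induction l with
      | nil => intro _; simp
      | cons x t ih =>
        intro hx
        rw [List.length_cons, List.map_cons, List.map_cons, List.sum_cons, List.sum_cons]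
        have h2 := ih fun y hy => hx y (List.mem_cons_of_mem _ hy)
        have h3 := hx x List.mem_cons_self
        omega
    have h2 := h1 hW hl.posW
    rw [hl.sumWL, hl.sumWM] at h2
    exact h2

end

end Pool.Agent.Hyp6
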