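import Pool.Agent.Hyp6.Gdz
import Pool.Agent.Hyp6.Gdr

/-!
# HYP6 GDZ2: tables for the general deletion with further parts

The record `Gk` with the number `e` of further parts (`Gdl.main_ext`): `|X|` and the number of trimmed
labels are not bounded, but `Σ min (c_x, e + 1) < 3 (e + 1)` for the numbers `c_x` of given up blocks.
`instX2`: instances with both kinds of records.
-/

set_option autoImplicit false

namespace Pool.Agent.Hyp6

open Finset Pool.Agent.Hyp5 Rup

universe u v

namespace Gdx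

/-- the number of blocks given up by the label `a` of `X`, at most `e + 1`. -/
def Gk.cx (P : Gp) (g : Gk) (e a : ℕ) : ℕ :=
  if g.X.testBit a then min (5 - (P.l a + g.idg P a)) (e + 1) else 0

/-- the number of blocks given up by the trimmed label `a`, at most `e + 1`. -/
def Gk.cs (P : Gp) (g : Gk) (e a : ℕ) : ℕ :=
  if g.S.testBit a && (!(g.X.testBit a) && Nat.blt 0 (deg1 g.N a)) then
    min (deg1 g.N a - (P.l a + g.idg P a)) (e + 1) else 0

/-- the link class is correct, with a small first block. -/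
def Gk.cok2 (P : Gp) (g : Gk) : List ℕ → Bool
  | [] => false
  | c :: l => g.N.contains c && (Nat.ble (pcn P.M c) 2 && (Nat.ble 1 (pcn P.M c) && g.lnk P l c))

/-- the general deletion with `e` further parts is correct. -/
def Gk.ok2 (P : Gp) (e : ℕ) (g : Gk) : Bool :=
  (List.range P.M).all (fun a => g.lab P a) &&
  (g.N.all (fun c => Nat.ble (pcn P.M c) 3) &&
  (Nat.blt (((List.range P.M).map (fun a => g.cx P e a)).sum +
    ((List.range P.M).map (fun a => g.cs P e a)).sum) (3 * (e + 1)) &&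
  (inc g.I && (g.I.all (fun j => Nat.blt j P.tm.length) &&
  (g.es.all (fun e => e.ok P g.lits) &&
  (chkK g.es g.N g.X 0 &&
  (g.cl.all (fun c => g.cok2 P c) &&
  ((List.range P.M).all (fun a => Nat.beq (deg1 g.N a) 0 ||
    g.cl.any (fun c => (orl c).testBit a)) &&
  (Nat.blt 0 g.cl.length &&
  (Nat.ble (4 * g.N.length + g.cl.length + e + 9 +
    (if Nat.ble (pcn P.M g.X + P.zn) (1 + 2 * P.r) then 0 else 1))
      (g.dn + 5 * pcn P.M g.X + 4 * g.I.length) &&
  (Nat.ble g.dn P.d0 || g.lits.contains (ng (vD g.dn)))))))))))))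

variable {V : Type v} [DecidableEq V] {ι : Type u} [Fintype ι]
  {B : ι → Finset V} {Q Z : Finset V} {P : Gp} {bl : ℕ → ι} {ct zt : ℕ → V} {tb : ℕ → ι}

theorem sum_range_map (f : ℕ → ℕ) : ∀ n : ℕ, ((List.range n).map f).sum = ∑ a ∈ range n, f a
  | 0 => by simp
  | n + 1 => by
    rw [List.range_succ, List.map_append, List.sum_append, sum_range_map f n, sum_range_succ]
    simp

/-- **every checked general deletion with further parts gives a clause which holds.** -/
theorem Gx.sat_gd2 (h : Gx B Q Z P bl ct zt tb) (g : Gk) (e0 : ℕ) (hok : g.ok2 P e0 = true) :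
    Sat (gval B Q Z P bl ct) g.lits := by
  classical
  by_contra hcon
  have hf : ∀ l ∈ g.lits, ¬ Lit (gval B Q Z P bl ct) l := fun l hl hL => hcon ⟨l, hl, hL⟩
  unfold Gk.ok2 at hok
  simp only [Bool.and_eq_true] at hok
  obtain ⟨hlab, hN3, hXS, hinc, hIl, hes, hK, hcl, hcov, hcl0, hnum, hdn⟩ := hok
  have hlab : ∀ a < P.M, g.lab P a = true := fun a ha =>
    List.all_eq_true.1 hlab a (List.mem_range.2 ha)
  have hN3 : ∀ c ∈ g.N, pcn P.M c ≤ 3 := fun c hc =>
    Nat.le_of_ble_eq_true (List.all_eq_true.1 hN3 c hc)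
  have hInd := inc_nodup hinc
  have hIl : ∀ j ∈ g.I, j < P.tm.length := fun j hj => by
    have := List.all_eq_true.1 hIl j hj
    rwa [Nat.blt_eq] at this
  have hes : ∀ e ∈ g.es, e.ok P g.lits = true := fun e he => List.all_eq_true.1 hes e he
  have hcl : ∀ c ∈ g.cl, g.cok2 P c = true := fun c hc => List.all_eq_true.1 hcl c hc
  have hnum := Nat.le_of_ble_eq_true hnum
  rw [Nat.blt_eq] at hcl0 hXS
  have hv := h.hv
  -- the sets
  set X := ptm ct P.M g.X with hX
  set Yl := (range P.M).filter (fun a => ¬ g.X.testBit a = true ∧ 0 < deg1 g.N a) with hYl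
  set Y := Yl.image ct with hY
  set I := g.I.toFinset.image tb with hI
  set N : ULift.{u} (Fin g.N.length) → Finset V := fun c =>
    ptm ct P.M (g.N.getD c.down.val 0) with hN
  have hmY : ∀ {v : V}, v ∈ Y ↔ ∃ a < P.M, (¬ g.X.testBit a = true ∧ 0 < deg1 g.N a) ∧ ct a = v := by
    intro v
    rw [hY, mem_image]
    constructor
    · rintro ⟨a, ha, hav⟩
      rw [hYl, mem_filter, mem_range] at ha
      exact ⟨a, ha.1, ha.2, hav⟩
    · rintro ⟨a, ha, h1, hav⟩
      exact ⟨a, mem_filter.2 ⟨mem_range.2 ha, h1⟩, hav⟩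
  have hmYct : ∀ {a : ℕ}, a < P.M → (ct a ∈ Y ↔ (¬ g.X.testBit a = true ∧ 0 < deg1 g.N a)) := by
    intro a ha
    rw [hmY]
    constructor
    · rintro ⟨b, hb, h1, hab⟩
      rw [← h.ct_inj b hb a ha hab]
      exact h1
    · intro h1
      exact ⟨a, ha, h1, rfl⟩
  have hXQ : X ⊆ Q := h.ptmQ g.X
  have hYQ : Y ⊆ Q := by
    intro v hv'
    obtain ⟨a, ha, _, rfl⟩ := hmY.1 hv'
    exact h.ctQ a ha
  have dZX : Disjoint Z X := by
    rw [disjoint_left]
    intro v hv1 hv2
    obtain ⟨a, ha, _, rfl⟩ := mem_ptm.1 hv2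
    exact h.ctZ a ha hv1
  have dZY : Disjoint Z Y := by
    rw [disjoint_left]
    intro v hv1 hv2
    obtain ⟨a, ha, _, rfl⟩ := hmY.1 hv2
    exact h.ctZ a ha hv1
  have dXY : Disjoint X Y := by
    rw [disjoint_left]
    intro v hv1 hv2
    obtain ⟨a, ha, h1, rfl⟩ := hmY.1 hv2
    exact h1.1 ((h.mem_ptm_iff ha).1 hv1)
  -- labels with a hit or in a deleted triple are in X or Y
  have hin : ∀ a < P.M, 0 < hts B P.m bl (ct a) + g.idg P a → ct a ∈ X ∪ Y := by
    intro a ha h1
    by_cases h2 : g.X.testBit a = true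
    · exact mem_union_left _ ((h.mem_ptm_iff ha).2 h2)
    · have h3 := h.lab_out hf ha (hlab a ha) h2
      exact mem_union_right _ ((hmYct ha).2 ⟨h2, by omega⟩)
  have hcon' : ∀ i, (B i ∩ Z).Nonempty → B i ∩ Q ⊆ (Z ∪ X) ∪ Y := by
    intro i hi v hv'
    obtain ⟨hvi, hvQ⟩ := mem_inter.1 hv'
    obtain ⟨b, hb, rfl⟩ := (h.bl_all i).1 hi
    rcases h.con b hb v hvi hvQ with h1 | ⟨a, ha, rfl⟩
    · exact mem_union_left _ (mem_union_left _ h1)
    · have h1 : 0 < hts B P.m bl (ct a) :=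
        card_pos.2 ⟨b, mem_filter.2 ⟨mem_range.2 hb, hvi⟩⟩
      rcases mem_union.1 (hin a ha (by omega)) with h2 | h2
      · exact mem_union_left _ (mem_union_right _ h2)
      · exact mem_union_right _ h2
  have hfull : ∀ i ∈ I, B i ∩ Q ⊆ X ∪ Y ∧ (B i ∩ Q).card = 3 := by
    intro i hi
    obtain ⟨j, hj, rfl⟩ := mem_image.1 hi
    have hj' := List.mem_toFinset.1 hj
    refine ⟨?_, h.tb3 j (hIl j hj')⟩
    rw [h.tbT j (hIl j hj')]
    intro v hv'
    obtain ⟨a, ha, h1, rfl⟩ := mem_ptm.1 hv'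
    refine hin a ha ?_
    have h2 : 0 < g.idg P a := by
      unfold Gk.idg
      rw [List.countP_pos_iff]
      exact ⟨j, hj', h1⟩
    omega
  have hsubN : ∀ c, N c ⊆ Y := by
    intro c v hv'
    obtain ⟨a, ha, h1, rfl⟩ := mem_ptm.1 hv'
    have h2 : 0 < deg1 g.N a := deg1_pos.2 ⟨_, getD_mem c.down.isLt, h1⟩
    refine (hmYct ha).2 ⟨fun h3 => ?_, h2⟩
    have h4 := hlab a ha
    unfold Gk.lab at h4
    rw [if_pos h3] at h4
    have h5 := Nat.eq_of_beq_eq_true h4
    omega
  have hdegN : ∀ a < P.M, (univ.filter (fun c => ct a ∈ N c)).card = deg1 g.N a := by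
    intro a ha
    rw [deg1_eq, ← card_ul.{u} (n := g.N.length)
      (fun c => (g.N.getD c 0).testBit a = true)]
    congr 1
    ext c
    simp only [mem_filter, mem_univ, true_and]
    exact h.mem_ptm_iff ha
  have hkp : ∀ a < P.M, (Gdl.kp B Z I (ct a)).card +
      (hts B P.m bl (ct a) + g.idg P a) = 5 := fun a ha => h.card_kp hInd hIl ha
  -- the cost
  have hcost : ∀ K : Finset (ULift.{u} (Fin g.N.length)),
      rho B ((Z ∪ X) ∪ K.biUnion N) ≤ rho B Z + K.card := by
    intro K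
    set K' := K.image (fun c => c.down.val) with hK'
    have hK'c : K'.card = K.card := card_image_of_injective _ fun c d hcd =>
      ULift.down_injective (Fin.ext hcd)
    have hK's : K' ⊆ range g.N.length := by
      intro k hk
      obtain ⟨c, _, rfl⟩ := mem_image.1 hk
      exact mem_range.2 c.down.isLt
    obtain ⟨e, he, h1, h2, h3⟩ := chkK_spec hK K' hK's
    have h4 := h.cover hf (hes e he)
    have h5 : (Z ∪ X) ∪ K.biUnion N ⊆ Z ∪ ptm ct P.M e.E := by
      refine union_subset (union_subset_union (Subset.refl _) (ptm_mono fun a _ ha => h2 a ha)) ?_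
      intro v hv'
      obtain ⟨c, hc, hvc⟩ := mem_biUnion.1 hv'
      obtain ⟨a, ha, h6, rfl⟩ := mem_ptm.1 hvc
      exact mem_union_right _ ((h.mem_ptm_iff ha).2 (h3 c.down.val (mem_image.2 ⟨c, hc, rfl⟩) a h6))
    have h6 := rho_mono h5 (h.cov.mono (union_subset h.ZQ (h.ptmQ e.E)))
    omega
  -- lost and new blocks
  have hlos : ∀ a < P.M, Gdl.los B Z I (ct a) = hts B P.m bl (ct a) + g.idg P a := by
    intro a ha
    have k1 := hkp a ha
    have k2 := Gdl.kp_card (B := B) (I := I) hv.reg h.ZQ dZX dZY hfull (h.ctQ a ha)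
    omega
  have hnnd : ∀ a < P.M, Gdl.nnd N (ct a) = deg1 g.N a := hdegN
  set S' := Y ∩ ptm ct P.M g.S with hS'
  have hS'c : S'.card ≤ pcn P.M g.S := by
    rw [← h.card_ptm]
    exact card_le_card inter_subset_right
  have hXc : X.card = pcn P.M g.X := h.card_ptm g.X
  have hdegle : ∀ y ∈ Y, Gdl.los B Z I y ≤ Gdl.nnd N y ∧ Gdl.nnd N y ≤ 5 := fun y hy => by
    obtain ⟨a, ha, h1, rfl⟩ := hmY.1 hy
    rw [hlos a ha, hnnd a ha]
    exact ⟨(h.lab_out hf ha (hlab a ha) h1.1).2.2.1, (h.lab_out hf ha (hlab a ha) h1.1).2.1⟩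
  have hEx : ∀ y ∈ Y, ∃ s ⊆ Gdl.kp B Z I y, s.card = 5 - Gdl.nnd N y := by
    intro y hy
    refine exists_subset_card_eq ?_
    have k1 := Gdl.kp_card (B := B) (I := I) hv.reg h.ZQ dZX dZY hfull (hYQ hy)
    have k2 := hdegle y hy
    omega
  choose! E hE1 hE2 using hEx
  have hG : Gdl B Q Z X Y I E N :=
    { reg := hv.reg
      tr := hv.tr
      LQ := h.ZQ
      XQ := hXQ
      YQ := hYQ
      dLX := dZX
      dLY := dZY
      dXY := dXY
      con := hcon'
      full := hfull
      mem := fun y hy i hi => (Gdl.mem_kp.1 (hE1 y hy hi)).1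
      keep := fun y hy i hi => (Gdl.mem_kp.1 (hE1 y hy hi)).2
      subN := hsubN
      deg := fun y hy => by
        have k1 : (univ.filter (fun c => y ∈ N c)).card = Gdl.nnd N y := rfl
        have k2 := hdegle y hy
        rw [hE2 y hy, k1]
        omega
      sizeN := fun c => by
        have h1 := h.card_ptm (g.N.getD c.down.val 0)
        rw [hN]
        simp only
        rw [h1]
        exact hN3 _ (getD_mem c.down.isLt)
      cost := hcost }
  have hEk : ∀ y ∈ Y, y ∉ S' → ∀ i, y ∈ B i → ¬ (B i ∩ Z).Nonempty → i ∉ I → i ∈ E y := by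
    intro y hy hyS i hyi hi1 hi2
    have k1 : E y = Gdl.kp B Z I y := by
      refine eq_of_subset_of_card_le (hE1 y hy) ?_
      have k2 := Gdl.kp_card (B := B) (I := I) hv.reg h.ZQ dZX dZY hfull (hYQ hy)
      rw [hE2 y hy]
      obtain ⟨a, ha, h1, rfl⟩ := hmY.1 hy
      have k3 := (h.lab_out hf ha (hlab a ha) h1.1).2.2.2 (by omega)
        (fun h3 => hyS (mem_inter.2 ⟨hy, (h.mem_ptm_iff ha).2 h3⟩))
      rw [← hlos a ha, ← hnnd a ha] at k3
      omega
    rw [k1, Gdl.mem_kp]
    exact ⟨hyi, hi1, hi2⟩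
  have hkeep : ∀ y ∈ Y, y ∉ S' → ∀ i, y ∈ B i → (B i ∩ Gdl.rm Q Z X Y).Nonempty → i ∈ E y := by
    intro y hy hyS i hyi hne
    obtain ⟨_, k2, k3⟩ := Gdl.mem_kp.1 (Gdl.mem_kp_of hfull hcon' hyi hne)
    exact hEk y hy hyS i hyi k2 k3
  have hm0 : ∑ x ∈ X, min (5 - Gdl.los B Z I x) (e0 + 1) +
      ∑ y ∈ S', min (Gdl.nnd N y - Gdl.los B Z I y) (e0 + 1) < 3 * (e0 + 1) := by
    refine lt_of_le_of_lt ?_ hXS
    rw [sum_range_map, sum_range_map]
    refine Nat.add_le_add ?_ ?_
    · have k1 : X = ((range P.M).filter (fun a => g.X.testBit a = true)).image ct := rfl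
      rw [k1, sum_image (fun a ha b hb hab => by
        rw [mem_coe, mem_filter, mem_range] at ha hb
        exact h.ct_inj a ha.1 b hb.1 hab), sum_filter]
      refine sum_le_sum fun a ha => ?_
      rw [mem_range] at ha
      unfold Gk.cx
      split_ifs with k2
      · rw [hlos a ha]
        have := h.hlo a ha
        exact min_le_min_right _ (by omega)
      · exact le_rfl
    · have k1 : S' = ((range P.M).filter (fun a => g.S.testBit a = true ∧
          (¬ g.X.testBit a = true ∧ 0 < deg1 g.N a))).image ct := by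
        ext v
        rw [hS', mem_inter, hmY, mem_image]
        constructor
        · rintro ⟨⟨a, ha, k3, rfl⟩, k4⟩
          exact ⟨a, mem_filter.2 ⟨mem_range.2 ha, (h.mem_ptm_iff ha).1 k4, k3⟩, rfl⟩
        · rintro ⟨a, ha, rfl⟩
          obtain ⟨k3, k4, k5⟩ := mem_filter.1 ha
          rw [mem_range] at k3
          exact ⟨⟨a, k3, k5, rfl⟩, (h.mem_ptm_iff k3).2 k4⟩
      rw [k1, sum_image (fun a ha b hb hab => by
        rw [mem_coe, mem_filter, mem_range] at ha hb
        exact h.ct_inj a ha.1 b hb.1 hab), sum_filter]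
      refine sum_le_sum fun a ha => ?_
      rw [mem_range] at ha
      unfold Gk.cs
      by_cases k2 : g.S.testBit a = true ∧ (¬ g.X.testBit a = true ∧ 0 < deg1 g.N a)
      · rw [if_pos k2]
        have k3 : (g.S.testBit a && (!(g.X.testBit a) && Nat.blt 0 (deg1 g.N a))) = true := by
          rw [Bool.and_eq_true, Bool.and_eq_true, Nat.blt_eq, Bool.not_eq_true']
          exact ⟨k2.1, by
            rw [Bool.eq_false_iff]
            exact k2.2.1, k2.2.2⟩
        rw [if_pos k3, hlos a ha, hnnd a ha]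
        have := h.hlo a ha
        exact min_le_min_right _ (by omega)
      · rw [if_neg k2]
        exact Nat.zero_le _
  have hw := hG.wir
  -- the link classes
  have hlk : ∀ c, g.lk P c = true → ptm ct P.M c ⊆ Y ∧
      ∀ W, Closed (gr (absG B (Gdl.rm Q Z X Y) Y E N)) (Gdl.rm Q Z X Y ∪ Y) W →
        ∀ x ∈ ptm ct P.M c, x ∈ W → ptm ct P.M c ⊆ W := by
    intro c hc
    unfold Gk.lk at hc
    rw [Bool.or_eq_true] at hc
    rcases hc with hc | hc
    · rw [List.contains_iff_mem] at hc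
      obtain ⟨k, hk, hkc⟩ := List.mem_iff_getElem.1 hc
      have h1 : N (ULift.up ⟨k, hk⟩) = ptm ct P.M c := by
        rw [hN]
        simp only
        rw [List.getD_eq_getElem _ _ hk, hkc]
      have h2 : ptm ct P.M c ⊆ Y := by
        rw [← h1]
        exact hsubN _
      refine ⟨h2, fun W hW x hx hxW y hy => ?_⟩
      by_cases hxy : x = y
      · rw [← hxy]
        exact hxW
      · rw [← h1] at hx hy
        exact hW.2 x hxW y (mem_union_right _ (hsubN _ hy)) (hw.adj_N hxy hx hy)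
    · obtain ⟨j, hj, h1⟩ := List.any_eq_true.1 hc
      rw [List.mem_range] at hj
      rw [Bool.and_eq_true, Bool.not_eq_true', List.all_eq_true] at h1
      obtain ⟨hjI, h1⟩ := h1
      have hjI' : tb j ∉ I := by
        intro h2
        obtain ⟨j', hj', h3⟩ := mem_image.1 h2
        have hj'' := List.mem_toFinset.1 hj'
        have h4 := h.tb_inj j' (hIl j' hj'') j hj h3
        rw [h4] at hj''
        have h5 : g.I.contains j = true := List.contains_iff_mem.2 hj''
        rw [h5] at hjI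
        exact _root_.absurd hjI (by simp)
      have h2 : ∀ a < P.M, c.testBit a = true → (P.t j).testBit a = true ∧ ct a ∈ Y ∧
          ¬ g.S.testBit a = true := by
        intro a ha hca
        have h3 := h1 a (List.mem_range.2 ha)
        rw [hca] at h3
        simp only [Bool.not_true, Bool.false_or, Bool.and_eq_true, Nat.blt_eq,
          Bool.not_eq_true'] at h3
        obtain ⟨h4, h5, h6, h7⟩ := h3
        refine ⟨h4, (hmYct ha).2 ⟨?_, h6⟩, ?_⟩
        · rw [h5]
          simp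
        · rw [h7]
          simp
      have hkey : ∀ a < P.M, c.testBit a = true → tb j ∈ E (ct a) := by
        intro a ha hca
        obtain ⟨h3, h4, h5⟩ := h2 a ha hca
        refine hEk _ h4 (fun k1 => h5 ((h.mem_ptm_iff ha).1 (mem_inter.1 k1).2)) _ ?_
          (h.tb_not_meet hj) hjI'
        have h6 := (h.mem_ptm_iff ha).2 h3
        rw [← h.tbT j hj] at h6
        exact (mem_inter.1 h6).1
      refine ⟨fun v hv' => ?_, fun W hW x hx hxW y hy => ?_⟩
      · obtain ⟨a, ha, hca, rfl⟩ := mem_ptm.1 hv'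
        exact (h2 a ha hca).2.1
      · by_cases hxy : x = y
        · rw [← hxy]
          exact hxW
        · obtain ⟨a, ha, hca, rfl⟩ := mem_ptm.1 hx
          obtain ⟨b, hb, hcb, rfl⟩ := mem_ptm.1 hy
          refine hW.2 _ hxW _ (mem_union_right _ (h2 b hb hcb).2.1)
            ⟨hxy, Sum.inl (tb j), ?_, ?_⟩
          · exact mem_absG_inl.2 (Or.inr ⟨(h2 a ha hca).2.1, hkey a ha hca⟩)
          · exact mem_absG_inl.2 (Or.inr ⟨(h2 b hb hcb).2.1, hkey b hb hcb⟩)
  have hlnk : ∀ (l : List ℕ) (acc : ℕ), g.lnk P l acc = true → ptm ct P.M acc ⊆ Y →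
      (∀ W, Closed (gr (absG B (Gdl.rm Q Z X Y) Y E N)) (Gdl.rm Q Z X Y ∪ Y) W →
        ∀ x ∈ ptm ct P.M acc, x ∈ W → ptm ct P.M acc ⊆ W) →
      ptm ct P.M (acc ||| orl l) ⊆ Y ∧
      ∀ W, Closed (gr (absG B (Gdl.rm Q Z X Y) Y E N)) (Gdl.rm Q Z X Y ∪ Y) W →
        ∀ x ∈ ptm ct P.M (acc ||| orl l), x ∈ W → ptm ct P.M (acc ||| orl l) ⊆ W := by
    intro l
    induction l with
    | nil =>
      intro acc _ h1 h2
      have h3 : acc ||| orl [] = acc := Nat.or_zero acc
      rw [h3]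
      exact ⟨h1, h2⟩
    | cons c l ih =>
      intro acc hl h1 h2
      have hl' : (g.lk P c && ((List.range P.M).any (fun a => c.testBit a && acc.testBit a) &&
        g.lnk P l (acc ||| c))) = true := hl
      rw [Bool.and_eq_true, Bool.and_eq_true] at hl'
      obtain ⟨h3, h4, h5⟩ := hl'
      obtain ⟨h6, h7⟩ := hlk c h3
      obtain ⟨a, ha, h8⟩ := List.any_eq_true.1 h4
      rw [List.mem_range] at ha
      rw [Bool.and_eq_true] at h8
      have h9 : acc ||| orl (c :: l) = (acc ||| c) ||| orl l := (Nat.or_assoc acc c (orl l)).symm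
      rw [h9]
      have hac := (h.mem_ptm_iff (A := c) ha).2 h8.1
      have haa := (h.mem_ptm_iff (A := acc) ha).2 h8.2
      refine ih (acc ||| c) h5 ?_ ?_
      · rw [ptm_or]
        exact union_subset h1 h6
      · intro W hW x hx hxW
        rw [ptm_or] at hx ⊢
        rcases mem_union.1 hx with hx | hx
        · have k1 := h2 W hW x hx hxW
          exact union_subset k1 (h7 W hW (ct a) hac (k1 haa))
        · have k1 := h7 W hW x hx hxW
          exact union_subset (h2 W hW (ct a) haa (k1 hac)) k1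
  have hcls : ∀ c ∈ g.cl, ptm ct P.M (orl c) ⊆ Y ∧
      (∀ W, Closed (gr (absG B (Gdl.rm Q Z X Y) Y E N)) (Gdl.rm Q Z X Y ∪ Y) W →
        ∀ x ∈ ptm ct P.M (orl c), x ∈ W → ptm ct P.M (orl c) ⊆ W) ∧
      ∃ k, (N k).Nonempty ∧ (N k).card ≤ 2 ∧ N k ⊆ ptm ct P.M (orl c) := by
    intro c hc
    have h1 := hcl c hc
    rcases c with _ | ⟨c0, l⟩
    · exact _root_.absurd h1 (by simp [Gk.cok2])
    · have h1' : (g.N.contains c0 && (Nat.ble (pcn P.M c0) 2 &&
        (Nat.ble 1 (pcn P.M c0) && g.lnk P l c0))) = true := h1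
      rw [Bool.and_eq_true, Bool.and_eq_true, Bool.and_eq_true, List.contains_iff_mem] at h1'
      obtain ⟨h2, h3, h4, h5⟩ := h1'
      have h3 := Nat.le_of_ble_eq_true h3
      have h4 := Nat.le_of_ble_eq_true h4
      have h6 : g.lk P c0 = true := by
        unfold Gk.lk
        rw [List.contains_iff_mem.2 h2, Bool.true_or]
      obtain ⟨h7, h8⟩ := hlk c0 h6
      obtain ⟨h9, h10⟩ := hlnk l c0 h5 h7 h8
      have h11 : orl (c0 :: l) = c0 ||| orl l := rfl
      rw [h11]
      refine ⟨h9, h10, ?_⟩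
      obtain ⟨k, hk, hkc⟩ := List.mem_iff_getElem.1 h2
      have h12 : N (ULift.up ⟨k, hk⟩) = ptm ct P.M c0 := by
        rw [hN]
        simp only
        rw [List.getD_eq_getElem _ _ hk, hkc]
      refine ⟨ULift.up ⟨k, hk⟩, ?_, ?_, ?_⟩
      · rw [h12, ← card_pos, h.card_ptm]
        omega
      · rw [h12, h.card_ptm]
        exact h3
      · rw [h12, ptm_or]
        exact subset_union_left
  set A : Finset (Finset V) := (g.cl.map (fun c => ptm ct P.M (orl c))).toFinset with hA
  have hmA : ∀ {s : Finset V}, s ∈ A ↔ ∃ c ∈ g.cl, ptm ct P.M (orl c) = s := by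
    intro s
    rw [hA, List.mem_toFinset, List.mem_map]
  have hAcard : A.card ≤ g.cl.length := by
    rw [hA]
    exact (List.toFinset_card_le _).trans (by rw [List.length_map])
  have hYne : Y.Nonempty := by
    obtain ⟨c, hc⟩ : ∃ c, c ∈ g.cl := List.exists_mem_of_length_pos hcl0
    obtain ⟨h1, _, k, ⟨v, hv'⟩, _, _⟩ := hcls c hc
    exact ⟨v, hsubN k hv'⟩
  have hn : (Gdl.rm Q Z X Y).card + Y.card < Q.card := by
    rw [← card_union_of_disjoint hw.dis]
    refine card_lt_card (Finset.ssubset_iff_subset_ne.2 ⟨union_subset hw.CQ hYQ, fun h1 => ?_⟩)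
    obtain ⟨z, hz⟩ := h.Zne
    have h2 := h.ZQ hz
    rw [← h1] at h2
    rcases mem_union.1 h2 with h3 | h3
    · exact (Gdl.mem_rm.1 h3).2.1 hz
    · exact disjoint_left.1 dZY hz h3
  have hAY : ∀ a ∈ A, a ⊆ Y := fun a ha => by
    obtain ⟨c, hc, rfl⟩ := hmA.1 ha
    exact (hcls c hc).1
  have hcovA : ∀ y ∈ Y, ∃ a ∈ A, y ∈ a := fun y hy => by
    obtain ⟨a, ha, h1, rfl⟩ := hmY.1 hy
    have h2 := List.all_eq_true.1 hcov a (List.mem_range.2 ha)
    rw [Bool.or_eq_true] at h2
    rcases h2 with h2 | h2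
    · have h3 := Nat.eq_of_beq_eq_true h2
      omega
    · obtain ⟨c, hc, h3⟩ := List.any_eq_true.1 h2
      exact ⟨_, hmA.2 ⟨c, hc, rfl⟩, (h.mem_ptm_iff ha).2 h3⟩
  have hlinkA : ∀ W, Closed (gr (absG B (Gdl.rm Q Z X Y) Y E N)) (Gdl.rm Q Z X Y ∪ Y) W →
      ∀ a ∈ A, a ⊆ W ∨ Disjoint a W := fun W hW a ha => by
    obtain ⟨c, hc, rfl⟩ := hmA.1 ha
    by_cases h1 : Disjoint (ptm ct P.M (orl c)) W
    · exact Or.inr h1
    · rw [not_disjoint_iff] at h1
      obtain ⟨x, hx1, hx2⟩ := h1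
      exact Or.inl ((hcls c hc).2.1 W hW x hx1 hx2)
  have hIc : I.card = g.I.length := by
    rw [hI, card_image_of_injOn, List.toFinset_card_of_nodup hInd]
    intro x hx y hy hxy
    rw [mem_coe, List.mem_toFinset] at hx hy
    exact h.tb_inj x (hIl x hx) y (hIl y hy) hxy
  have hκ : Fintype.card (ULift.{u} (Fin g.N.length)) = g.N.length := by
    rw [Fintype.card_ulift, Fintype.card_fin]
  have hsZ : sv B Z = (P.zn : ℤ) - 2 * (P.r : ℤ) := by
    unfold sv
    rw [h.cardZ, h.rZ]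
  have hsv1 := hv.sv1
  have h4 : (A.card : ℤ) ≤ (g.cl.length : ℤ) := by exact_mod_cast hAcard
  have hmain := hG.main_ext hv h.Zne hv.ih hv.ihr hn hYne (S := S') inter_subset_left hkeep hAY
    hcovA hlinkA
    (fun a ha => by
      obtain ⟨c, hc, rfl⟩ := hmA.1 ha
      exact (hcls c hc).2.2) hm0
  have hd : (g.dn : ℤ) ≤ dv B Q Z + 10 := by
    rw [Bool.or_eq_true] at hdn
    rcases hdn with h2 | h2
    · have h3 := Nat.le_of_ble_eq_true h2
      have h4 := h.d0
      have h5 : (g.dn : ℤ) ≤ (P.d0 : ℤ) := by exact_mod_cast h3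
      linarith
    · rw [List.contains_iff_mem] at h2
      have h3 := hf _ h2
      rw [lit_ng, gval_D, not_not] at h3
      exact h3
  rw [hXc, hIc, hκ] at hmain
  have h2 := hv.neg
  have h5 : (0 : ℤ) ≤ ((Gdl.lost B Q Z X Y I E).card : ℤ) := by positivity
  split_ifs at hnum with hXz
  · have h1 := hmain.2 (by
      rw [hsZ]
      have k1 := Nat.le_of_ble_eq_true hXz
      have k2 : ((pcn P.M g.X + P.zn : ℕ) : ℤ) ≤ ((1 + 2 * P.r : ℕ) : ℤ) := by exact_mod_cast k1
      push_cast at k2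
      linarith)
    have h3 : ((4 * g.N.length + g.cl.length + e0 + 9 + 0 : ℕ) : ℤ) ≤
        ((g.dn + 5 * pcn P.M g.X + 4 * g.I.length : ℕ) : ℤ) := by exact_mod_cast hnum
    push_cast at h3
    linarith
  · have h1 := hmain.1
    have h3 : ((4 * g.N.length + g.cl.length + e0 + 9 + 1 : ℕ) : ℤ) ≤
        ((g.dn + 5 * pcn P.M g.X + 4 * g.I.length : ℕ) : ℤ) := by exact_mod_cast hnum
    push_cast at h3
    linarith

/-- the complete check of an instance with both kinds of records; `k2` holds the records with the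
numbers of further parts. -/
noncomputable def instX2 (P : Gp) (given : List (List ℕ)) (bs : List Gb) (ks : List Gk)
    (k2 : List (ℕ × Gk)) (nm : Tr) (cnf : List (List ℕ)) (db : Tr) (prf : List ℕ) : Bool :=
  bs.all (fun g => g.ok P) && (ks.all (fun g => g.ok P) && (k2.all (fun q => q.2.ok2 P q.1) &&
    (!(cnf.isEmpty) && (okcR cnf && (cmpR nm cnf (given ++ (bs.map (Gb.cl P) ++
      (ks.map Gk.lits ++ k2.map (fun q => q.2.lits)))) && chk cnf db prf)))))

/-- the check of an instance from its parts. -/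
theorem instX2_of {P : Gp} {given : List (List ℕ)} {bs : List Gb} {ks : List Gk}
    {k2 : List (ℕ × Gk)} {nm : Tr} {cnf : List (List ℕ)} {db : Tr} {prf : List ℕ}
    (h1 : bs.all (fun g => g.ok P) = true)
    (h2 : ks.all (fun g => g.ok P) = true) (h2' : k2.all (fun q => q.2.ok2 P q.1) = true)
    (h3 : (!(cnf.isEmpty)) = true) (h4 : okcR cnf = true)
    (h5 : cmpR nm cnf (given ++ (bs.map (Gb.cl P) ++
      (ks.map Gk.lits ++ k2.map (fun q => q.2.lits)))) = true)
    (h6 : chk cnf db prf = true) : instX2 P given bs ks k2 nm cnf db prf = true := by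
  unfold instX2
  rw [h1, h2, h2', h3, h4, h5, h6]
  rfl

/-- **a checked instance with further parts does not occur.** -/
theorem Gx.no2 (h : Gx B Q Z P bl ct zt tb) {given : List (List ℕ)}
    (hg : ∀ c ∈ given, Sat (gval B Q Z P bl ct) c) {bs : List Gb} {ks : List Gk}
    {k2 : List (ℕ × Gk)} {nm db : Tr}
    {cnf : List (List ℕ)} {prf : List ℕ} (hb : instX2 P given bs ks k2 nm cnf db prf = true) :
    False := by
  unfold instX2 at hb
  simp only [Bool.and_eq_true] at hb
  obtain ⟨h1, h2, h2', h3, h4, h5, h6⟩ := hb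
  have hne : cnf ≠ [] := by
    rintro rfl
    simp at h3
  obtain ⟨c, hc, hs⟩ := unsat_nm h6 h4 hne h5 (gval B Q Z P bl ct)
  rcases List.mem_append.1 hc with k1 | k1
  · exact hs (hg c k1)
  · rcases List.mem_append.1 k1 with k2 | k2
    · obtain ⟨g, hgm, rfl⟩ := List.mem_map.1 k2
      exact hs (h.sat_base g (List.all_eq_true.1 h1 g hgm))
    · rcases List.mem_append.1 k2 with k3 | k3
      · obtain ⟨g, hgm, rfl⟩ := List.mem_map.1 k3
        exact hs (h.sat_gd g (List.all_eq_true.1 h2 g hgm))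
      · obtain ⟨q, hqm, rfl⟩ := List.mem_map.1 k3
        exact hs (h.sat_gd2 q.2 q.1 (List.all_eq_true.1 h2' q hqm))

end Gdx

end Pool.Agent.Hyp6
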