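import Pool.Agent.Hyp6.Gdt3
import Pool.Agent.Hyp6.Gdz2

/-!
# HYP6 GDT4: exclusion of lists of code vectors for two leaves

`NoX2`: the instance does not occur; `noX2_of`: from its check. `Frm.no_pp`: two points which are free
together and a triple: no violation, if all the vectors of a list are excluded.
-/

set_option autoImplicit false

namespace Pool.Agent.Hyp6

open Finset Pool.Agent.Hyp5 Gdx Rup

universe u v

/-- the instance does not occur at two leaves. -/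
def NoX2 (V : Type v) [DecidableEq V] (ι : Type u) [Fintype ι] (zn r d0 pz : ℕ)
    (zm : List ℕ) (nL nM : ℕ) (p : List ℕ × List ℕ) : Prop :=
  ∀ (B : ι → Finset V) (Q U L M : Finset V) (T : Finset ι) (F : Finset (Finset V)) (j : ι)
    (ct zt : ℕ → V) (bl : ℕ → ι), Frm B Q T U F → ViolR B Q → L ∈ F → M ∈ F → L ≠ M → j ∈ T →
    ¬ rho B ((L ∪ M) ∪ (B j ∩ Q)) ≤ rho B (L ∪ M) →
    Gx2 B Q L M j zn r d0 pz zm nL nM p.1 p.2 bl ct zt → False

section

variable {V : Type v} [DecidableEq V] {ι : Type u} [Fintype ι]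

/-- an instance from its check. -/
theorem noX2_of {zn r d0 pz : ℕ} {zm : List ℕ} {nL nM : ℕ} {hT hW : List ℕ}
    {given : List (List ℕ)} {bs : List Gb} {ks : List Gk} {k2 : List (ℕ × Gk)} {nm db : Tr}
    {cnf : List (List ℕ)} {prf : List ℕ}
    (hb : instX2 (Pg2 zn r d0 pz zm hT hW) given bs ks k2 nm cnf db prf = true)
    (hgv : given.all (okg2 nL nM hT hW) = true) : NoX2 V ι zn r d0 pz zm nL nM (hT, hW) :=
  fun _ _ _ _ _ _ _ _ _ _ _ _ _ _ _ _ _ hnab hg =>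
    hg.gx.no2 (fun c hc => hg.given hnab (List.all_eq_true.1 hgv c hc)) hb

variable {B : ι → Finset V}

/-- the block list of two points. -/
def zpp : List ℕ := [1, 1, 1, 1, 1, 2, 2, 2, 2, 2]

/-- the block list of a leaf of type (3;1) and a point. -/
def z3p : List ℕ := [3, 3, 3, 5, 5, 6, 6, 4, 8, 8, 8, 8, 8]

/-- the check of the list for two points. -/
def chkpp (tL tM : ℕ) (ws : List (ℕ × ℕ)) (need : List (List ℕ × List ℕ)) : Bool :=
  ws.all (fun w => (cand2 3 3 tL tM w.1 w.2).all (fun p => need.contains p ||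
    need.contains (sw2p p)))

/-- the outer hits on one of two separated sets. -/
theorem hit_sep {Q L M : Finset V} {j : ι} (hs : Sep B L M) :
    hit B ((Q \ (L ∪ M)) \ B j) L = hit B ((Q \ L) \ B j) L := by
  classical
  rw [hit_eq_Ez, hit_eq_Ez]
  have h1 : (Q \ (L ∪ M)) \ B j ⊆ (Q \ L) \ B j := by
    intro v hv
    obtain ⟨h2, h3⟩ := mem_sdiff.1 hv
    obtain ⟨h4, h5⟩ := mem_sdiff.1 h2
    exact mem_sdiff.2 ⟨mem_sdiff.2 ⟨h4, fun h6 => h5 (mem_union_left _ h6)⟩, h3⟩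
  refine sum_subset h1 fun v hv hv' => ?_
  obtain ⟨h2, h3⟩ := mem_sdiff.1 hv
  obtain ⟨h4, h5⟩ := mem_sdiff.1 h2
  have hvM : v ∈ M := by
    by_contra h6
    refine hv' (mem_sdiff.2 ⟨mem_sdiff.2 ⟨h4, fun h7 => ?_⟩, h3⟩)
    rcases mem_union.1 h7 with h8 | h8
    · exact h5 h8
    · exact h6 h8
  rw [card_eq_zero, ← not_nonempty_iff_eq_empty]
  rintro ⟨i, hi⟩
  obtain ⟨h6, h7⟩ := mem_Ez.1 hi
  exact hs i h7 ⟨v, mem_inter.2 ⟨h6, hvM⟩⟩

/-- a point of `Q` and another point have at most three common blocks. -/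
theorem ViolR.card_Ez_pt {Q : Finset V} (hv : ViolR B Q) {x v : V} (hx : x ∈ Q) (hvQ : v ∈ Q)
    (hne : v ≠ x) : (Ez B {x} v).card ≤ 3 := by
  classical
  have h1 := hv.twin hx hvQ hne.symm
  refine le_trans (card_le_card ?_) h1
  intro i hi
  obtain ⟨h2, y, h3⟩ := mem_Ez.1 hi
  obtain ⟨h4, h5⟩ := mem_inter.1 h3
  rw [mem_singleton] at h5
  subst h5
  exact mem_bl.2 ⟨h4, h2⟩

/-- **two points and a triple**: all code vectors are excluded. -/
theorem Frm.no_pp {Q U : Finset V} {T : Finset ι} {F : Finset (Finset V)} {x y : V}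
    (h : Frm B Q T U F) (hv : ViolR B Q) (hx : {x} ∈ F) (hy : {y} ∈ F) (hxy : x ≠ y)
    (ex : ee B Q {x} = 0) (ey : ee B Q {y} = 0) {j : ι} (hj : j ∈ T)
    (hdf : Sp.dfc U (slf B F) {{x}, {y}} ≤ 0) {tL tM : ℕ} (hL : hit B (B j ∩ Q) {x} = tL)
    (hM : hit B (B j ∩ Q) {y} = tM) {ws : List (ℕ × ℕ)} {need : List (List ℕ × List ℕ)}
    (hw : (hit B ((Q \ {x}) \ B j) {x}, hit B ((Q \ {y}) \ B j) {y}) ∈ ws)
    (hno : ∀ p ∈ need, NoX2 V ι 2 2 12 12 zpp 5 5 p) (hchk : chkpp tL tM ws need = true) :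
    False := by
  classical
  have hne : ({x} : Finset V) ≠ {y} := fun he => hxy (singleton_injective he)
  obtain ⟨hdis, hsep⟩ := h.sepF _ hx _ hy hne
  have hxQ := h.FQ hx (mem_singleton_self x)
  have hyQ := h.FQ hy (mem_singleton_self y)
  have hout : ∀ L ∈ F, ¬ (B j ∩ L).Nonempty := by
    rintro L hLF ⟨v, hv'⟩
    obtain ⟨h2, h3⟩ := mem_inter.1 hv'
    exact (h.T_out hj (mem_inter.2 ⟨h2, h.FQ hLF h3⟩)).2 L hLF h3
  obtain ⟨hT, hW, bl, ct, zt, hg⟩ := h.exists_gxpp hv hx hy hxy ex ey (h.full hj) (hout _ hx)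
    (hout _ hy)
  obtain ⟨hT', hW', bl', ct', zt', hg'⟩ := h.exists_gxpp hv hy hx hxy.symm ey ex (h.full hj)
    (hout _ hy) (hout _ hx)
  have hdf' : Sp.dfc U (slf B F) {{y}, {x}} ≤ 0 := by
    rw [pair_comm]
    exact hdf
  have n1 := h.nab2 hj hx hy hne hdf
  have n2 := h.nab2 hj hy hx hne.symm hdf'
  have hmem := hg.lbl.mem_cand2 hsep hv.reg (mL := 3) (mM := 3) (hout _ hx) (hout _ hy)
    (fun v hvQ hvZ => hv.card_Ez_pt hxQ hvQ fun he => hvZ (mem_union_left _ (mem_singleton.2 he)))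
    (fun v hvQ hvZ => hv.card_Ez_pt hyQ hvQ fun he => hvZ (mem_union_right _ (mem_singleton.2 he)))
  rw [hit_sep hsep, union_comm, hit_sep hsep.symm, hL, hM] at hmem
  have h1 := List.all_eq_true.1 hchk _ hw
  have h2 := List.all_eq_true.1 h1 _ hmem
  simp only [Bool.or_eq_true, List.contains_iff_mem] at h2
  rcases h2 with h2 | h2
  · exact hno _ h2 B Q U {x} {y} T F j ct zt bl h hv hx hy hne hj n1 hg
  · rw [← hg.lbl.swap hg'.lbl hv.reg] at h2
    exact hno _ h2 B Q U {y} {x} T F j ct' zt' bl' h hv hy hx hne.symm hj n2 hg'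

end

end Pool.Agent.Hyp6
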