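import Pool.Agent.Hyp6.Gdz2
import Pool.Agent.Hyp6.Gdlk

/-!
# HYP6 GDZ5: tables for the general deletion with exchanged phantoms

A pair of records `g`, `g'` which differ by the exchange of two labels `u`, `u'` of a deleted triple
`{p, u, u'}` (`Gdl.exists_link`): in one of the two new systems two link classes are connected, so the
number of the parts is smaller by one. `instX3`: instances with all three kinds of records.
-/

set_option autoImplicit false

namespace Pool.Agent.Hyp6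

open Finset Pool.Agent.Hyp5 Rup

universe u v

namespace Gdx

/-- the checks of one record without the value. -/
def Gk.pok (P : Gp) (e : ℕ) (g : Gk) : Bool :=
  (List.range P.M).all (fun a => g.lab P a) &&
  (g.N.all (fun c => Nat.ble (pcn P.M c) 3) &&
  (Nat.blt (((List.range P.M).map (fun a => g.cx P e a)).sum +
    ((List.range P.M).map (fun a => g.cs P e a)).sum) (3 * (e + 1)) &&
  (inc g.I && (g.I.all (fun j => Nat.blt j P.tm.length) &&
  (g.es.all (fun e => e.ok P g.lits) &&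
  (chkK g.es g.N g.X 0 &&
  (g.cl.all (fun c => g.cok2 P c) &&
  ((List.range P.M).all (fun a => Nat.beq (deg1 g.N a) 0 ||
    g.cl.any (fun c => (orl c).testBit a)) &&
  Nat.blt 0 g.cl.length))))))))

/-- a pair of records. -/
structure Gq where
  e : ℕ
  g : Gk
  g' : Gk
  p : ℕ
  u : ℕ
  u' : ℕ

/-- the label `a` is another point of `X` or a trimmed point which has given up a block. -/
def Gq.att (P : Gp) (q : Gq) (a : ℕ) : Bool :=
  (q.g.X.testBit a && (!(Nat.beq a q.p) && Nat.blt (P.l a + q.g.idg P a) 5)) ||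
    (q.g.S.testBit a && (!(q.g.X.testBit a) && Nat.blt 0 (deg1 q.g.N a)))

/-- the check of the phantom `u` with the partner `u'`. -/
def Gq.pho (P : Gp) (q : Gq) (u : ℕ) : Bool :=
  Nat.blt u P.M && (!(q.g.X.testBit u) && (!(q.g.S.testBit u) && (Nat.beq (P.h u) 0 &&
    (Nat.beq (q.g.idg P u) 1 && q.g.cl.all (fun c => q.g'.cl.all (fun c' =>
      !((orl c).testBit u && (orl c').testBit u) || (List.range P.M).all (fun a =>
        !((orl c).testBit a && (orl c').testBit a) || Nat.beq a u)))))))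

/-- the pair of records is correct. -/
def Gq.ok (P : Gp) (q : Gq) : Bool :=
  q.g.pok P q.e && (q.g'.pok P q.e && (Nat.beq q.g'.X q.g.X && (decide (q.g'.I = q.g.I) &&
  (Nat.beq q.g'.S q.g.S && (decide (q.g'.lits = q.g.lits) &&
  ((List.range P.M).all (fun a => Nat.beq (deg1 q.g'.N a) (deg1 q.g.N a)) &&
  (Nat.beq q.g'.N.length q.g.N.length && (Nat.ble q.g'.cl.length q.g.cl.length &&
  (Nat.blt q.p P.M && (q.g.X.testBit q.p && (q.pho P q.u && (q.pho P q.u' &&
  (!(Nat.beq q.u q.u') &&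
  (q.g.I.any (fun j => (List.range P.M).all (fun a => (P.t j).testBit a ==
    (Nat.beq a q.p || (Nat.beq a q.u || Nat.beq a q.u')))) &&
  (Nat.ble (((List.range P.M).map (fun a => if q.att P a then 1 else 0)).sum) 1 &&
  (Nat.ble (4 * q.g.N.length + q.g.cl.length + q.e + 8 +
    (if Nat.ble (pcn P.M q.g.X + P.zn) (1 + 2 * P.r) then 0 else 1))
      (q.g.dn + 5 * pcn P.M q.g.X + 4 * q.g.I.length) &&
  (Nat.ble q.g.dn P.d0 || q.g.lits.contains (ng (vD q.g.dn)))))))))))))))))))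

variable {V : Type v} [DecidableEq V] {ι : Type u} [Fintype ι]
  {B : ι → Finset V} {Q Z : Finset V} {P : Gp} {bl : ℕ → ι} {ct zt : ℕ → V} {tb : ℕ → ι}

/-- the deleted labels. -/
def gX (ct : ℕ → V) (P : Gp) (g : Gk) : Finset V := ptm ct P.M g.X

/-- the points with new blocks. -/
def gY (ct : ℕ → V) (P : Gp) (g : Gk) : Finset V :=
  ((range P.M).filter (fun a => ¬ g.X.testBit a = true ∧ 0 < deg1 g.N a)).image ct

/-- the trimmed points. -/
def gS (ct : ℕ → V) (P : Gp) (g : Gk) : Finset V := gY ct P g ∩ ptm ct P.M g.S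

open Classical in
/-- the deleted triples. -/
noncomputable def gI (tb : ℕ → ι) (g : Gk) : Finset ι := g.I.toFinset.image tb

/-- the new blocks. -/
def gNn (ct : ℕ → V) (P : Gp) (g : Gk) : ULift.{u} (Fin g.N.length) → Finset V := fun c =>
  ptm ct P.M (g.N.getD c.down.val 0)

/-- the link classes. -/
def gA (ct : ℕ → V) (P : Gp) (g : Gk) : Finset (Finset V) :=
  (g.cl.map (fun c => ptm ct P.M (orl c))).toFinset

omit [Fintype ι] in
theorem mem_gI {g : Gk} {i : ι} : i ∈ gI tb g ↔ ∃ j ∈ g.I, tb j = i := by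
  classical
  unfold gI
  rw [mem_image]
  simp only [List.mem_toFinset]

theorem mem_gY {g : Gk} {v : V} : v ∈ gY ct P g ↔
    ∃ a < P.M, (¬ g.X.testBit a = true ∧ 0 < deg1 g.N a) ∧ ct a = v := by
  unfold gY
  rw [mem_image]
  constructor
  · rintro ⟨a, ha, hav⟩
    rw [mem_filter, mem_range] at ha
    exact ⟨a, ha.1, ha.2, hav⟩
  · rintro ⟨a, ha, h1, hav⟩
    exact ⟨a, mem_filter.2 ⟨mem_range.2 ha, h1⟩, hav⟩

/-- the facts about one record. -/
structure Rdat (B : ι → Finset V) (Q Z : Finset V) (P : Gp) (bl : ℕ → ι) (ct : ℕ → V)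
    (tb : ℕ → ι) (g : Gk) (e0 : ℕ) (E : V → Finset ι) : Prop where
  G : Gdl B Q Z (gX ct P g) (gY ct P g) (gI tb g) E (gNn.{u} ct P g)
  keep : ∀ y ∈ gY ct P g, y ∉ gS ct P g → Gdl.kp B Z (gI tb g) y ⊆ E y
  keepr : ∀ y ∈ gY ct P g, y ∉ gS ct P g → ∀ i, y ∈ B i →
    (B i ∩ Gdl.rm Q Z (gX ct P g) (gY ct P g)).Nonempty → i ∈ E y
  los : ∀ a < P.M, Gdl.los B Z (gI tb g) (ct a) = hts B P.m bl (ct a) + g.idg P a
  m0 : ∑ x ∈ gX ct P g, min (5 - Gdl.los B Z (gI tb g) x) (e0 + 1) +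
      ∑ y ∈ gS ct P g, min (Gdl.nnd (gNn.{u} ct P g) y - Gdl.los B Z (gI tb g) y) (e0 + 1) <
        3 * (e0 + 1)
  AY : ∀ a ∈ gA ct P g, a ⊆ gY ct P g
  cov : ∀ y ∈ gY ct P g, ∃ a ∈ gA ct P g, y ∈ a
  link : ∀ W, Closed (gr (absG B (Gdl.rm Q Z (gX ct P g) (gY ct P g)) (gY ct P g) E
      (gNn.{u} ct P g))) (Gdl.rm Q Z (gX ct P g) (gY ct P g) ∪ gY ct P g) W →
      ∀ a ∈ gA ct P g, a ⊆ W ∨ Disjoint a W
  sm : ∀ a ∈ gA ct P g, ∃ k, (gNn.{u} ct P g k).Nonempty ∧ (gNn.{u} ct P g k).card ≤ 2 ∧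
      gNn.{u} ct P g k ⊆ a
  Ac : (gA ct P g).card ≤ g.cl.length
  Yne : (gY ct P g).Nonempty
  lt : (Gdl.rm Q Z (gX ct P g) (gY ct P g)).card + (gY ct P g).card < Q.card
  Ic : (gI tb g).card = g.I.length
  Xc : (gX ct P g).card = pcn P.M g.X

theorem Gk.pok_spec {g : Gk} {e0 : ℕ} (hok : g.pok P e0 = true) :
    (∀ a < P.M, g.lab P a = true) ∧ g.I.Nodup ∧ (∀ j ∈ g.I, j < P.tm.length) := by
  unfold Gk.pok at hok
  simp only [Bool.and_eq_true] at hok
  obtain ⟨hlab, hN3, hXS, hinc, hIl, hes, hK, hcl, hcov, hcl0⟩ := hok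
  exact ⟨fun a ha => List.all_eq_true.1 hlab a (List.mem_range.2 ha), inc_nodup hinc,
    fun j hj => by
      have := List.all_eq_true.1 hIl j hj
      rwa [Nat.blt_eq] at this⟩

/-- the kept blocks can be chosen. -/
theorem Gx.exE (h : Gx B Q Z P bl ct zt tb) (g : Gk) (e0 : ℕ) (hok : g.pok P e0 = true)
    (hf : ∀ l ∈ g.lits, ¬ Lit (gval B Q Z P bl ct) l) :
    ∃ E : V → Finset ι, (∀ y ∈ gY ct P g, E y ⊆ Gdl.kp B Z (gI tb g) y) ∧
      ∀ a < P.M, ct a ∈ gY ct P g → (E (ct a)).card = 5 - deg1 g.N a := by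
  classical
  obtain ⟨hlab, hInd, hIl⟩ := Gk.pok_spec hok
  have hEx : ∀ y ∈ gY ct P g, ∃ s ⊆ Gdl.kp B Z (gI tb g) y, ∀ a < P.M, ct a = y →
      s.card = 5 - deg1 g.N a := by
    intro y hy
    obtain ⟨a, ha, h1, rfl⟩ := mem_gY.1 hy
    have k1 : (Gdl.kp B Z (gI tb g) (ct a)).card + (hts B P.m bl (ct a) + g.idg P a) = 5 := by
      have := h.card_kp hInd hIl ha
      exact this
    have k2 := h.lab_out hf ha (hlab a ha) h1.1
    obtain ⟨s, hs, hsc⟩ := exists_subset_card_eq (s := Gdl.kp B Z (gI tb g) (ct a))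
      (n := 5 - deg1 g.N a) (by omega)
    refine ⟨s, hs, fun b hb hab => ?_⟩
    rw [h.ct_inj b hb a ha hab]
    exact hsc
  choose! E hE1 hE2 using hEx
  exact ⟨E, hE1, fun a ha hy => hE2 _ hy a ha rfl⟩

/-- **the facts about one record**. -/
theorem Gx.rdat (h : Gx B Q Z P bl ct zt tb) (g : Gk) (e0 : ℕ) (hok : g.pok P e0 = true)
    (hf : ∀ l ∈ g.lits, ¬ Lit (gval B Q Z P bl ct) l) {E : V → Finset ι}
    (hE1 : ∀ y ∈ gY ct P g, E y ⊆ Gdl.kp B Z (gI tb g) y)
    (hE2' : ∀ a < P.M, ct a ∈ gY ct P g → (E (ct a)).card = 5 - deg1 g.N a) :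
    Rdat B Q Z P bl ct tb g e0 E := by
  classical
  unfold Gk.pok at hok
  simp only [Bool.and_eq_true] at hok
  obtain ⟨hlab, hN3, hXS, hinc, hIl, hes, hK, hcl, hcov, hcl0⟩ := hok
  have hlab : ∀ a < P.M, g.lab P a = true := fun a ha =>
    List.all_eq_true.1 hlab a (List.mem_range.2 ha)
  have hN3 : ∀ c ∈ g.N, pcn P.M c ≤ 3 := fun c hc =>
    Nat.le_of_ble_eq_true (List.all_eq_true.1 hN3 c hc)
  have hInd := inc_nodup hinc
  have hIl : ∀ j ∈ g.I, j < P.tm.length := fun j hj => by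
    have := List.all_eq_true.1 hIl j hj
    rwa [Nat.blt_eq] at this
  have hes : ∀ e ∈ g.es, e.ok P g.lits = true := fun e he => List.all_eq_true.1 hes e he
  have hcl : ∀ c ∈ g.cl, g.cok2 P c = true := fun c hc => List.all_eq_true.1 hcl c hc
  rw [Nat.blt_eq] at hcl0 hXS
  have hv := h.hv
  -- the sets
  set X := gX ct P g with hX
  set Y := gY ct P g with hY
  set I := gI tb g with hI
  set N : ULift.{u} (Fin g.N.length) → Finset V := gNn ct P g with hN
  have hmY : ∀ {v : V}, v ∈ Y ↔ ∃ a < P.M, (¬ g.X.testBit a = true ∧ 0 < deg1 g.N a) ∧ ct a = v := by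
    intro v
    exact mem_gY
  have hmYct : ∀ {a : ℕ}, a < P.M → (ct a ∈ Y ↔ (¬ g.X.testBit a = true ∧ 0 < deg1 g.N a)) := by
    intro a ha
    rw [hmY]
    constructor
    · rintro ⟨b, hb, h1, hab⟩
      rw [← h.ct_inj b hb a ha hab]
      exact h1
    · intro h1
      exact ⟨a, ha, h1, rfl⟩
  have hXQ : X ⊆ Q := h.ptmQ g.X
  have hYQ : Y ⊆ Q := by
    intro v hv'
    obtain ⟨a, ha, _, rfl⟩ := hmY.1 hv'
    exact h.ctQ a ha
  have dZX : Disjoint Z X := by
    rw [disjoint_left]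
    intro v hv1 hv2
    obtain ⟨a, ha, _, rfl⟩ := mem_ptm.1 hv2
    exact h.ctZ a ha hv1
  have dZY : Disjoint Z Y := by
    rw [disjoint_left]
    intro v hv1 hv2
    obtain ⟨a, ha, _, rfl⟩ := hmY.1 hv2
    exact h.ctZ a ha hv1
  have dXY : Disjoint X Y := by
    rw [disjoint_left]
    intro v hv1 hv2
    obtain ⟨a, ha, h1, rfl⟩ := hmY.1 hv2
    exact h1.1 ((h.mem_ptm_iff ha).1 hv1)
  -- labels with a hit or in a deleted triple are in X or Y
  have hin : ∀ a < P.M, 0 < hts B P.m bl (ct a) + g.idg P a → ct a ∈ X ∪ Y := by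
    intro a ha h1
    by_cases h2 : g.X.testBit a = true
    · exact mem_union_left _ ((h.mem_ptm_iff ha).2 h2)
    · have h3 := h.lab_out hf ha (hlab a ha) h2
      exact mem_union_right _ ((hmYct ha).2 ⟨h2, by omega⟩)
  have hcon' : ∀ i, (B i ∩ Z).Nonempty → B i ∩ Q ⊆ (Z ∪ X) ∪ Y := by
    intro i hi v hv'
    obtain ⟨hvi, hvQ⟩ := mem_inter.1 hv'
    obtain ⟨b, hb, rfl⟩ := (h.bl_all i).1 hi
    rcases h.con b hb v hvi hvQ with h1 | ⟨a, ha, rfl⟩
    · exact mem_union_left _ (mem_union_left _ h1)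
    · have h1 : 0 < hts B P.m bl (ct a) :=
        card_pos.2 ⟨b, mem_filter.2 ⟨mem_range.2 hb, hvi⟩⟩
      rcases mem_union.1 (hin a ha (by omega)) with h2 | h2
      · exact mem_union_left _ (mem_union_right _ h2)
      · exact mem_union_right _ h2
  have hfull : ∀ i ∈ I, B i ∩ Q ⊆ X ∪ Y ∧ (B i ∩ Q).card = 3 := by
    intro i hi
    obtain ⟨j, hj, rfl⟩ := mem_image.1 hi
    have hj' := List.mem_toFinset.1 hj
    refine ⟨?_, h.tb3 j (hIl j hj')⟩
    rw [h.tbT j (hIl j hj')]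
    intro v hv'
    obtain ⟨a, ha, h1, rfl⟩ := mem_ptm.1 hv'
    refine hin a ha ?_
    have h2 : 0 < g.idg P a := by
      unfold Gk.idg
      rw [List.countP_pos_iff]
      exact ⟨j, hj', h1⟩
    omega
  have hsubN : ∀ c, N c ⊆ Y := by
    intro c v hv'
    obtain ⟨a, ha, h1, rfl⟩ := mem_ptm.1 hv'
    have h2 : 0 < deg1 g.N a := deg1_pos.2 ⟨_, getD_mem c.down.isLt, h1⟩
    refine (hmYct ha).2 ⟨fun h3 => ?_, h2⟩
    have h4 := hlab a ha
    unfold Gk.lab at h4
    rw [if_pos h3] at h4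
    have h5 := Nat.eq_of_beq_eq_true h4
    omega
  have hdegN : ∀ a < P.M, (univ.filter (fun c => ct a ∈ N c)).card = deg1 g.N a := by
    intro a ha
    rw [deg1_eq, ← card_ul.{u} (n := g.N.length)
      (fun c => (g.N.getD c 0).testBit a = true)]
    congr 1
    ext c
    simp only [mem_filter, mem_univ, true_and]
    exact h.mem_ptm_iff ha
  have hkp : ∀ a < P.M, (Gdl.kp B Z I (ct a)).card +
      (hts B P.m bl (ct a) + g.idg P a) = 5 := fun a ha => h.card_kp hInd hIl ha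
  -- the cost
  have hcost : ∀ K : Finset (ULift.{u} (Fin g.N.length)),
      rho B ((Z ∪ X) ∪ K.biUnion N) ≤ rho B Z + K.card := by
    intro K
    set K' := K.image (fun c => c.down.val) with hK'
    have hK'c : K'.card = K.card := card_image_of_injective _ fun c d hcd =>
      ULift.down_injective (Fin.ext hcd)
    have hK's : K' ⊆ range g.N.length := by
      intro k hk
      obtain ⟨c, _, rfl⟩ := mem_image.1 hk
      exact mem_range.2 c.down.isLt
    obtain ⟨e, he, h1, h2, h3⟩ := chkK_spec hK K' hK's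
    have h4 := h.cover hf (hes e he)
    have h5 : (Z ∪ X) ∪ K.biUnion N ⊆ Z ∪ ptm ct P.M e.E := by
      refine union_subset (union_subset_union (Subset.refl _) (ptm_mono fun a _ ha => h2 a ha)) ?_
      intro v hv'
      obtain ⟨c, hc, hvc⟩ := mem_biUnion.1 hv'
      obtain ⟨a, ha, h6, rfl⟩ := mem_ptm.1 hvc
      exact mem_union_right _ ((h.mem_ptm_iff ha).2 (h3 c.down.val (mem_image.2 ⟨c, hc, rfl⟩) a h6))
    have h6 := rho_mono h5 (h.cov.mono (union_subset h.ZQ (h.ptmQ e.E)))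
    omega
  -- lost and new blocks
  have hlos : ∀ a < P.M, Gdl.los B Z I (ct a) = hts B P.m bl (ct a) + g.idg P a := by
    intro a ha
    have k1 := hkp a ha
    have k2 := Gdl.kp_card (B := B) (I := I) hv.reg h.ZQ dZX dZY hfull (h.ctQ a ha)
    omega
  have hnnd : ∀ a < P.M, Gdl.nnd N (ct a) = deg1 g.N a := hdegN
  set S' := gS ct P g with hS'
  have hS'c : S'.card ≤ pcn P.M g.S := by
    rw [← h.card_ptm]
    exact card_le_card inter_subset_right
  have hXc : X.card = pcn P.M g.X := h.card_ptm g.X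
  have hdegle : ∀ y ∈ Y, Gdl.los B Z I y ≤ Gdl.nnd N y ∧ Gdl.nnd N y ≤ 5 := fun y hy => by
    obtain ⟨a, ha, h1, rfl⟩ := hmY.1 hy
    rw [hlos a ha, hnnd a ha]
    exact ⟨(h.lab_out hf ha (hlab a ha) h1.1).2.2.1, (h.lab_out hf ha (hlab a ha) h1.1).2.1⟩
  have hE2 : ∀ y ∈ Y, (E y).card = 5 - Gdl.nnd N y := fun y hy => by
    obtain ⟨a, ha, h1, rfl⟩ := hmY.1 hy
    rw [hnnd a ha]
    exact hE2' a ha hy
  have hG : Gdl B Q Z X Y I E N :=
    { reg := hv.reg
      tr := hv.tr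
      LQ := h.ZQ
      XQ := hXQ
      YQ := hYQ
      dLX := dZX
      dLY := dZY
      dXY := dXY
      con := hcon'
      full := hfull
      mem := fun y hy i hi => (Gdl.mem_kp.1 (hE1 y hy hi)).1
      keep := fun y hy i hi => (Gdl.mem_kp.1 (hE1 y hy hi)).2
      subN := hsubN
      deg := fun y hy => by
        have k1 : (univ.filter (fun c => y ∈ N c)).card = Gdl.nnd N y := rfl
        have k2 := hdegle y hy
        rw [hE2 y hy, k1]
        omega
      sizeN := fun c => by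
        have h1 := h.card_ptm (g.N.getD c.down.val 0)
        show (ptm ct P.M (g.N.getD c.down.val 0)).card ≤ 3
        rw [h1]
        exact hN3 _ (getD_mem c.down.isLt)
      cost := hcost }
  have hEk : ∀ y ∈ Y, y ∉ S' → ∀ i, y ∈ B i → ¬ (B i ∩ Z).Nonempty → i ∉ I → i ∈ E y := by
    intro y hy hyS i hyi hi1 hi2
    have k1 : E y = Gdl.kp B Z I y := by
      refine eq_of_subset_of_card_le (hE1 y hy) ?_
      have k2 := Gdl.kp_card (B := B) (I := I) hv.reg h.ZQ dZX dZY hfull (hYQ hy)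
      rw [hE2 y hy]
      obtain ⟨a, ha, h1, rfl⟩ := hmY.1 hy
      have k3 := (h.lab_out hf ha (hlab a ha) h1.1).2.2.2 (by omega)
        (fun h3 => hyS (mem_inter.2 ⟨hy, (h.mem_ptm_iff ha).2 h3⟩))
      rw [← hlos a ha, ← hnnd a ha] at k3
      omega
    rw [k1, Gdl.mem_kp]
    exact ⟨hyi, hi1, hi2⟩
  have hkeep : ∀ y ∈ Y, y ∉ S' → ∀ i, y ∈ B i → (B i ∩ Gdl.rm Q Z X Y).Nonempty → i ∈ E y := by
    intro y hy hyS i hyi hne
    obtain ⟨_, k2, k3⟩ := Gdl.mem_kp.1 (Gdl.mem_kp_of hfull hcon' hyi hne)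
    exact hEk y hy hyS i hyi k2 k3
  have hm0 : ∑ x ∈ X, min (5 - Gdl.los B Z I x) (e0 + 1) +
      ∑ y ∈ S', min (Gdl.nnd N y - Gdl.los B Z I y) (e0 + 1) < 3 * (e0 + 1) := by
    refine lt_of_le_of_lt ?_ hXS
    rw [sum_range_map, sum_range_map]
    refine Nat.add_le_add ?_ ?_
    · have k1 : X = ((range P.M).filter (fun a => g.X.testBit a = true)).image ct := rfl
      rw [k1, sum_image (fun a ha b hb hab => by
        rw [mem_coe, mem_filter, mem_range] at ha hb
        exact h.ct_inj a ha.1 b hb.1 hab), sum_filter]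
      refine sum_le_sum fun a ha => ?_
      rw [mem_range] at ha
      unfold Gk.cx
      split_ifs with k2
      · rw [hlos a ha]
        have := h.hlo a ha
        exact min_le_min_right _ (by omega)
      · exact le_rfl
    · have k1 : S' = ((range P.M).filter (fun a => g.S.testBit a = true ∧
          (¬ g.X.testBit a = true ∧ 0 < deg1 g.N a))).image ct := by
        ext v
        show v ∈ gY ct P g ∩ ptm ct P.M g.S ↔ _
        rw [mem_inter, mem_gY, mem_image]
        constructor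
        · rintro ⟨⟨a, ha, k3, rfl⟩, k4⟩
          exact ⟨a, mem_filter.2 ⟨mem_range.2 ha, (h.mem_ptm_iff ha).1 k4, k3⟩, rfl⟩
        · rintro ⟨a, ha, rfl⟩
          obtain ⟨k3, k4, k5⟩ := mem_filter.1 ha
          rw [mem_range] at k3
          exact ⟨⟨a, k3, k5, rfl⟩, (h.mem_ptm_iff k3).2 k4⟩
      rw [k1, sum_image (fun a ha b hb hab => by
        rw [mem_coe, mem_filter, mem_range] at ha hb
        exact h.ct_inj a ha.1 b hb.1 hab), sum_filter]
      refine sum_le_sum fun a ha => ?_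
      rw [mem_range] at ha
      unfold Gk.cs
      by_cases k2 : g.S.testBit a = true ∧ (¬ g.X.testBit a = true ∧ 0 < deg1 g.N a)
      · rw [if_pos k2]
        have k3 : (g.S.testBit a && (!(g.X.testBit a) && Nat.blt 0 (deg1 g.N a))) = true := by
          rw [Bool.and_eq_true, Bool.and_eq_true, Nat.blt_eq, Bool.not_eq_true']
          exact ⟨k2.1, by
            rw [Bool.eq_false_iff]
            exact k2.2.1, k2.2.2⟩
        rw [if_pos k3, hlos a ha, hnnd a ha]
        have := h.hlo a ha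
        exact min_le_min_right _ (by omega)
      · rw [if_neg k2]
        exact Nat.zero_le _
  have hw := hG.wir
  -- the link classes
  have hlk : ∀ c, g.lk P c = true → ptm ct P.M c ⊆ Y ∧
      ∀ W, Closed (gr (absG B (Gdl.rm Q Z X Y) Y E N)) (Gdl.rm Q Z X Y ∪ Y) W →
        ∀ x ∈ ptm ct P.M c, x ∈ W → ptm ct P.M c ⊆ W := by
    intro c hc
    unfold Gk.lk at hc
    rw [Bool.or_eq_true] at hc
    rcases hc with hc | hc
    · rw [List.contains_iff_mem] at hc
      obtain ⟨k, hk, hkc⟩ := List.mem_iff_getElem.1 hc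
      have h1 : N (ULift.up ⟨k, hk⟩) = ptm ct P.M c := by
        show ptm ct P.M (g.N.getD k 0) = _
        rw [List.getD_eq_getElem _ _ hk, hkc]
      have h2 : ptm ct P.M c ⊆ Y := by
        rw [← h1]
        exact hsubN _
      refine ⟨h2, fun W hW x hx hxW y hy => ?_⟩
      by_cases hxy : x = y
      · rw [← hxy]
        exact hxW
      · rw [← h1] at hx hy
        exact hW.2 x hxW y (mem_union_right _ (hsubN _ hy)) (hw.adj_N hxy hx hy)
    · obtain ⟨j, hj, h1⟩ := List.any_eq_true.1 hc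
      rw [List.mem_range] at hj
      rw [Bool.and_eq_true, Bool.not_eq_true', List.all_eq_true] at h1
      obtain ⟨hjI, h1⟩ := h1
      have hjI' : tb j ∉ I := by
        intro h2
        obtain ⟨j', hj', h3⟩ := mem_image.1 h2
        have hj'' := List.mem_toFinset.1 hj'
        have h4 := h.tb_inj j' (hIl j' hj'') j hj h3
        rw [h4] at hj''
        have h5 : g.I.contains j = true := List.contains_iff_mem.2 hj''
        rw [h5] at hjI
        exact _root_.absurd hjI (by simp)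
      have h2 : ∀ a < P.M, c.testBit a = true → (P.t j).testBit a = true ∧ ct a ∈ Y ∧
          ¬ g.S.testBit a = true := by
        intro a ha hca
        have h3 := h1 a (List.mem_range.2 ha)
        rw [hca] at h3
        simp only [Bool.not_true, Bool.false_or, Bool.and_eq_true, Nat.blt_eq,
          Bool.not_eq_true'] at h3
        obtain ⟨h4, h5, h6, h7⟩ := h3
        refine ⟨h4, (hmYct ha).2 ⟨?_, h6⟩, ?_⟩
        · rw [h5]
          simp
        · rw [h7]
          simp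
      have hkey : ∀ a < P.M, c.testBit a = true → tb j ∈ E (ct a) := by
        intro a ha hca
        obtain ⟨h3, h4, h5⟩ := h2 a ha hca
        refine hEk _ h4 (fun k1 => h5 ((h.mem_ptm_iff ha).1 (mem_inter.1 k1).2)) _ ?_
          (h.tb_not_meet hj) hjI'
        have h6 := (h.mem_ptm_iff ha).2 h3
        rw [← h.tbT j hj] at h6
        exact (mem_inter.1 h6).1
      refine ⟨fun v hv' => ?_, fun W hW x hx hxW y hy => ?_⟩
      · obtain ⟨a, ha, hca, rfl⟩ := mem_ptm.1 hv'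
        exact (h2 a ha hca).2.1
      · by_cases hxy : x = y
        · rw [← hxy]
          exact hxW
        · obtain ⟨a, ha, hca, rfl⟩ := mem_ptm.1 hx
          obtain ⟨b, hb, hcb, rfl⟩ := mem_ptm.1 hy
          refine hW.2 _ hxW _ (mem_union_right _ (h2 b hb hcb).2.1)
            ⟨hxy, Sum.inl (tb j), ?_, ?_⟩
          · exact mem_absG_inl.2 (Or.inr ⟨(h2 a ha hca).2.1, hkey a ha hca⟩)
          · exact mem_absG_inl.2 (Or.inr ⟨(h2 b hb hcb).2.1, hkey b hb hcb⟩)
  have hlnk : ∀ (l : List ℕ) (acc : ℕ), g.lnk P l acc = true → ptm ct P.M acc ⊆ Y →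
      (∀ W, Closed (gr (absG B (Gdl.rm Q Z X Y) Y E N)) (Gdl.rm Q Z X Y ∪ Y) W →
        ∀ x ∈ ptm ct P.M acc, x ∈ W → ptm ct P.M acc ⊆ W) →
      ptm ct P.M (acc ||| orl l) ⊆ Y ∧
      ∀ W, Closed (gr (absG B (Gdl.rm Q Z X Y) Y E N)) (Gdl.rm Q Z X Y ∪ Y) W →
        ∀ x ∈ ptm ct P.M (acc ||| orl l), x ∈ W → ptm ct P.M (acc ||| orl l) ⊆ W := by
    intro l
    induction l with
    | nil =>
      intro acc _ h1 h2
      have h3 : acc ||| orl [] = acc := Nat.or_zero acc
      rw [h3]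
      exact ⟨h1, h2⟩
    | cons c l ih =>
      intro acc hl h1 h2
      have hl' : (g.lk P c && ((List.range P.M).any (fun a => c.testBit a && acc.testBit a) &&
        g.lnk P l (acc ||| c))) = true := hl
      rw [Bool.and_eq_true, Bool.and_eq_true] at hl'
      obtain ⟨h3, h4, h5⟩ := hl'
      obtain ⟨h6, h7⟩ := hlk c h3
      obtain ⟨a, ha, h8⟩ := List.any_eq_true.1 h4
      rw [List.mem_range] at ha
      rw [Bool.and_eq_true] at h8
      have h9 : acc ||| orl (c :: l) = (acc ||| c) ||| orl l := (Nat.or_assoc acc c (orl l)).symm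
      rw [h9]
      have hac := (h.mem_ptm_iff (A := c) ha).2 h8.1
      have haa := (h.mem_ptm_iff (A := acc) ha).2 h8.2
      refine ih (acc ||| c) h5 ?_ ?_
      · rw [ptm_or]
        exact union_subset h1 h6
      · intro W hW x hx hxW
        rw [ptm_or] at hx ⊢
        rcases mem_union.1 hx with hx | hx
        · have k1 := h2 W hW x hx hxW
          exact union_subset k1 (h7 W hW (ct a) hac (k1 haa))
        · have k1 := h7 W hW x hx hxW
          exact union_subset (h2 W hW (ct a) haa (k1 hac)) k1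
  have hcls : ∀ c ∈ g.cl, ptm ct P.M (orl c) ⊆ Y ∧
      (∀ W, Closed (gr (absG B (Gdl.rm Q Z X Y) Y E N)) (Gdl.rm Q Z X Y ∪ Y) W →
        ∀ x ∈ ptm ct P.M (orl c), x ∈ W → ptm ct P.M (orl c) ⊆ W) ∧
      ∃ k, (N k).Nonempty ∧ (N k).card ≤ 2 ∧ N k ⊆ ptm ct P.M (orl c) := by
    intro c hc
    have h1 := hcl c hc
    rcases c with _ | ⟨c0, l⟩
    · exact _root_.absurd h1 (by simp [Gk.cok2])
    · have h1' : (g.N.contains c0 && (Nat.ble (pcn P.M c0) 2 &&
        (Nat.ble 1 (pcn P.M c0) && g.lnk P l c0))) = true := h1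
      rw [Bool.and_eq_true, Bool.and_eq_true, Bool.and_eq_true, List.contains_iff_mem] at h1'
      obtain ⟨h2, h3, h4, h5⟩ := h1'
      have h3 := Nat.le_of_ble_eq_true h3
      have h4 := Nat.le_of_ble_eq_true h4
      have h6 : g.lk P c0 = true := by
        unfold Gk.lk
        rw [List.contains_iff_mem.2 h2, Bool.true_or]
      obtain ⟨h7, h8⟩ := hlk c0 h6
      obtain ⟨h9, h10⟩ := hlnk l c0 h5 h7 h8
      have h11 : orl (c0 :: l) = c0 ||| orl l := rfl
      rw [h11]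
      refine ⟨h9, h10, ?_⟩
      obtain ⟨k, hk, hkc⟩ := List.mem_iff_getElem.1 h2
      have h12 : N (ULift.up ⟨k, hk⟩) = ptm ct P.M c0 := by
        show ptm ct P.M (g.N.getD k 0) = _
        rw [List.getD_eq_getElem _ _ hk, hkc]
      refine ⟨ULift.up ⟨k, hk⟩, ?_, ?_, ?_⟩
      · rw [h12, ← card_pos, h.card_ptm]
        omega
      · rw [h12, h.card_ptm]
        exact h3
      · rw [h12, ptm_or]
        exact subset_union_left
  set A : Finset (Finset V) := gA ct P g with hA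
  have hmA : ∀ {s : Finset V}, s ∈ A ↔ ∃ c ∈ g.cl, ptm ct P.M (orl c) = s := by
    intro s
    show s ∈ (g.cl.map (fun c => ptm ct P.M (orl c))).toFinset ↔ _
    rw [List.mem_toFinset, List.mem_map]
  have hAcard : A.card ≤ g.cl.length := by
    show ((g.cl.map (fun c => ptm ct P.M (orl c))).toFinset).card ≤ _
    exact (List.toFinset_card_le _).trans (by rw [List.length_map])
  have hYne : Y.Nonempty := by
    obtain ⟨c, hc⟩ : ∃ c, c ∈ g.cl := List.exists_mem_of_length_pos hcl0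
    obtain ⟨h1, _, k, ⟨v, hv'⟩, _, _⟩ := hcls c hc
    exact ⟨v, hsubN k hv'⟩
  have hn : (Gdl.rm Q Z X Y).card + Y.card < Q.card := by
    rw [← card_union_of_disjoint hw.dis]
    refine card_lt_card (Finset.ssubset_iff_subset_ne.2 ⟨union_subset hw.CQ hYQ, fun h1 => ?_⟩)
    obtain ⟨z, hz⟩ := h.Zne
    have h2 := h.ZQ hz
    rw [← h1] at h2
    rcases mem_union.1 h2 with h3 | h3
    · exact (Gdl.mem_rm.1 h3).2.1 hz
    · exact disjoint_left.1 dZY hz h3
  have hAY : ∀ a ∈ A, a ⊆ Y := fun a ha => by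
    obtain ⟨c, hc, rfl⟩ := hmA.1 ha
    exact (hcls c hc).1
  have hcovA : ∀ y ∈ Y, ∃ a ∈ A, y ∈ a := fun y hy => by
    obtain ⟨a, ha, h1, rfl⟩ := hmY.1 hy
    have h2 := List.all_eq_true.1 hcov a (List.mem_range.2 ha)
    rw [Bool.or_eq_true] at h2
    rcases h2 with h2 | h2
    · have h3 := Nat.eq_of_beq_eq_true h2
      omega
    · obtain ⟨c, hc, h3⟩ := List.any_eq_true.1 h2
      exact ⟨_, hmA.2 ⟨c, hc, rfl⟩, (h.mem_ptm_iff ha).2 h3⟩
  have hlinkA : ∀ W, Closed (gr (absG B (Gdl.rm Q Z X Y) Y E N)) (Gdl.rm Q Z X Y ∪ Y) W →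
      ∀ a ∈ A, a ⊆ W ∨ Disjoint a W := fun W hW a ha => by
    obtain ⟨c, hc, rfl⟩ := hmA.1 ha
    by_cases h1 : Disjoint (ptm ct P.M (orl c)) W
    · exact Or.inr h1
    · rw [not_disjoint_iff] at h1
      obtain ⟨x, hx1, hx2⟩ := h1
      exact Or.inl ((hcls c hc).2.1 W hW x hx1 hx2)
  have hIc : I.card = g.I.length := by
    rw [hI]
    unfold gI
    rw [card_image_of_injOn, List.toFinset_card_of_nodup hInd]
    intro x hx y hy hxy
    rw [mem_coe, List.mem_toFinset] at hx hy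
    exact h.tb_inj x (hIl x hx) y (hIl y hy) hxy
  have hkeep0 : ∀ y ∈ Y, y ∉ S' → Gdl.kp B Z I y ⊆ E y := by
    intro y hy hyS i hi
    obtain ⟨k1, k2, k3⟩ := Gdl.mem_kp.1 hi
    exact hEk y hy hyS i k1 k2 k3
  exact ⟨hG, hkeep0, hkeep, hlos, hm0, hAY, hcovA, hlinkA, (fun a ha => by
    obtain ⟨c, hc, rfl⟩ := hmA.1 ha
    exact (hcls c hc).2.2), hAcard, hYne, hn, hIc, hXc⟩

theorem Gq.pho_spec {q : Gq} {u : ℕ} (h : q.pho P u = true) :
    u < P.M ∧ ¬ q.g.X.testBit u = true ∧ ¬ q.g.S.testBit u = true ∧ P.h u = 0 ∧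
      q.g.idg P u = 1 ∧ ∀ c ∈ q.g.cl, ∀ c' ∈ q.g'.cl, (orl c).testBit u = true →
        (orl c').testBit u = true → ∀ a < P.M, (orl c).testBit a = true →
          (orl c').testBit a = true → a = u := by
  unfold Gq.pho at h
  simp only [Bool.and_eq_true, Bool.not_eq_true', Nat.blt_eq] at h
  obtain ⟨h1, h2, h3, h4, h5, h6⟩ := h
  refine ⟨h1, by rw [h2]; simp, by rw [h3]; simp, Nat.eq_of_beq_eq_true h4,
    Nat.eq_of_beq_eq_true h5, ?_⟩
  intro c hc c' hc' k1 k2 a ha k3 k4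
  have h7 := List.all_eq_true.1 (List.all_eq_true.1 h6 c hc) c' hc'
  rw [k1, k2, Bool.and_self, Bool.not_true, Bool.false_or, List.all_eq_true] at h7
  have h8 := h7 a (List.mem_range.2 ha)
  rw [k3, k4, Bool.and_self, Bool.not_true, Bool.false_or] at h8
  exact Nat.eq_of_beq_eq_true h8

/-- **every checked pair of records gives a clause which holds.** -/
theorem Gx.sat_gq (h : Gx B Q Z P bl ct zt tb) (q : Gq) (hok : q.ok P = true) :
    Sat (gval B Q Z P bl ct) q.g.lits := by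
  classical
  by_contra hcon
  have hf : ∀ l ∈ q.g.lits, ¬ Lit (gval B Q Z P bl ct) l := fun l hl hL => hcon ⟨l, hl, hL⟩
  unfold Gq.ok at hok
  rw [Bool.and_eq_true, Bool.and_eq_true, Bool.and_eq_true, Bool.and_eq_true, Bool.and_eq_true,
    Bool.and_eq_true, Bool.and_eq_true, Bool.and_eq_true, Bool.and_eq_true, Bool.and_eq_true,
    Bool.and_eq_true, Bool.and_eq_true, Bool.and_eq_true, Bool.and_eq_true, Bool.and_eq_true,
    Bool.and_eq_true, Bool.and_eq_true] at hok
  obtain ⟨hok, hok', kX, kI, kS, kl, kd, kN, kc, kp, kpX, ku, ku', kuu, kj, katt, knum, kdn⟩ := hok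
  have kX := Nat.eq_of_beq_eq_true kX
  have kS := Nat.eq_of_beq_eq_true kS
  have kI := of_decide_eq_true kI
  have kl := of_decide_eq_true kl
  have kN := Nat.eq_of_beq_eq_true kN
  have kc := Nat.le_of_ble_eq_true kc
  have katt := Nat.le_of_ble_eq_true katt
  have knum := Nat.le_of_ble_eq_true knum
  rw [Nat.blt_eq] at kp
  have kd : ∀ a < P.M, deg1 q.g'.N a = deg1 q.g.N a := fun a ha =>
    Nat.eq_of_beq_eq_true (List.all_eq_true.1 kd a (List.mem_range.2 ha))
  have hXe : gX ct P q.g' = gX ct P q.g := by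
    unfold gX
    rw [kX]
  have hYe : gY ct P q.g' = gY ct P q.g := by
    ext v
    rw [mem_gY, mem_gY]
    constructor
    · rintro ⟨a, ha, h1, h2⟩
      rw [kX, kd a ha] at h1
      exact ⟨a, ha, h1, h2⟩
    · rintro ⟨a, ha, h1, h2⟩
      rw [← kX, ← kd a ha] at h1
      exact ⟨a, ha, h1, h2⟩
  have hSe : gS ct P q.g' = gS ct P q.g := by
    unfold gS
    rw [hYe, kS]
  have hIe : gI tb q.g' = gI tb q.g := by
    unfold gI
    rw [kI]
  obtain ⟨E, hE1, hE2⟩ := h.exE q.g q.e hok hf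
  have R := h.rdat q.g q.e hok hf hE1 hE2
  have hf' : ∀ l ∈ q.g'.lits, ¬ Lit (gval B Q Z P bl ct) l := by
    rw [kl]
    exact hf
  have R' := h.rdat q.g' q.e hok' hf' (E := E) (by
    rw [hYe, hIe]
    exact hE1) (by
    rw [hYe]
    intro a ha hy
    rw [kd a ha]
    exact hE2 a ha hy)
  obtain ⟨hlab, hInd, hIl⟩ := Gk.pok_spec hok
  have hv := h.hv
  have G' := R'.G
  rw [hXe, hYe, hIe] at G'
  have r'keep := R'.keepr
  rw [hXe, hYe, hSe] at r'keep
  have r'm0 := R'.m0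
  rw [hXe, hIe, hSe] at r'm0
  have r'AY := R'.AY
  rw [hYe] at r'AY
  have r'cov := R'.cov
  rw [hYe] at r'cov
  have r'link := R'.link
  rw [hXe, hYe] at r'link
  have r'sm := R'.sm
  obtain ⟨hu1, hu2, hu3, hu4, hu5, hu6⟩ := Gq.pho_spec ku
  obtain ⟨hw1, hw2, hw3, hw4, hw5, hw6⟩ := Gq.pho_spec ku'
  obtain ⟨j, hj, hj2⟩ := List.any_eq_true.1 kj
  rw [List.all_eq_true] at hj2
  have hjl := hIl j hj
  have hjI : tb j ∈ gI tb q.g := mem_gI.2 ⟨j, hj, rfl⟩
  have hjb : ∀ a < P.M, ((P.t j).testBit a = true ↔ a = q.p ∨ a = q.u ∨ a = q.u') := by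
    intro a ha
    have h1 := hj2 a (List.mem_range.2 ha)
    rw [beq_iff_eq] at h1
    rw [h1, Bool.or_eq_true, Bool.or_eq_true]
    constructor
    · rintro (h2 | h2 | h2)
      · exact Or.inl (Nat.eq_of_beq_eq_true h2)
      · exact Or.inr (Or.inl (Nat.eq_of_beq_eq_true h2))
      · exact Or.inr (Or.inr (Nat.eq_of_beq_eq_true h2))
    · rintro (h2 | h2 | h2)
      · exact Or.inl (by rw [h2]; exact Nat.beq_refl _)
      · exact Or.inr (Or.inl (by rw [h2]; exact Nat.beq_refl _))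
      · exact Or.inr (Or.inr (by rw [h2]; exact Nat.beq_refl _))
  have hjQ : B (tb j) ∩ Q = {ct q.p, ct q.u, ct q.u'} := by
    rw [h.tbT j hjl]
    ext v
    rw [mem_ptm, mem_insert, mem_insert, mem_singleton]
    constructor
    · rintro ⟨a, ha, h1, rfl⟩
      rcases (hjb a ha).1 h1 with h2 | h2 | h2
      · exact Or.inl (by rw [h2])
      · exact Or.inr (Or.inl (by rw [h2]))
      · exact Or.inr (Or.inr (by rw [h2]))
    · rintro (h2 | h2 | h2)
      · exact ⟨q.p, kp, (hjb _ kp).2 (Or.inl rfl), h2.symm⟩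
      · exact ⟨q.u, hu1, (hjb _ hu1).2 (Or.inr (Or.inl rfl)), h2.symm⟩
      · exact ⟨q.u', hw1, (hjb _ hw1).2 (Or.inr (Or.inr rfl)), h2.symm⟩
  have hub : ∀ a < P.M, P.h a = 0 → q.g.idg P a = 1 → ct a ∈ B (tb j) → ∀ i, ct a ∈ B i →
      i ≠ tb j → i ∈ Gdl.kp B Z (gI tb q.g) (ct a) := by
    intro a ha h0 h1 h2 i hi hij
    have h3 := R.los a ha
    have h4 := h.hhi a ha
    have h5 : 0 < ((gI tb q.g).filter (fun i => ct a ∈ B i)).card :=
      card_pos.2 ⟨tb j, mem_filter.2 ⟨hjI, h2⟩⟩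
    have h6 : Gdl.los B Z (gI tb q.g) (ct a) =
      (univ.filter (fun i => ct a ∈ B i ∧ (B i ∩ Z).Nonempty)).card +
        ((gI tb q.g).filter (fun i => ct a ∈ B i)).card := by
      unfold Gdl.los
      congr!
    have h7 : (univ.filter (fun i => ct a ∈ B i ∧ (B i ∩ Z).Nonempty)).card = 0 := by omega
    have h8 : ((gI tb q.g).filter (fun i => ct a ∈ B i)).card = 1 := by omega
    refine Gdl.mem_kp.2 ⟨hi, fun h9 => ?_, fun h9 => ?_⟩
    · rw [card_eq_zero] at h7
      have h10 : i ∈ univ.filter (fun i => ct a ∈ B i ∧ (B i ∩ Z).Nonempty) :=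
        mem_filter.2 ⟨mem_univ _, hi, h9⟩
      rw [h7] at h10
      exact notMem_empty _ h10
    · obtain ⟨x, hx⟩ := card_eq_one.1 h8
      have h10 : i ∈ (gI tb q.g).filter (fun i => ct a ∈ B i) := mem_filter.2 ⟨h9, hi⟩
      have h11 : tb j ∈ (gI tb q.g).filter (fun i => ct a ∈ B i) := mem_filter.2 ⟨hjI, h2⟩
      rw [hx, mem_singleton] at h10 h11
      exact hij (h10.trans h11.symm)
  have hinj : ∀ {a : ℕ}, a ∈ ({q.p, q.u, q.u'} : Finset ℕ) → ct a ∈ B (tb j) := by
    intro a ha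
    have h1 : ct a ∈ B (tb j) ∩ Q := by
      rw [hjQ]
      rw [mem_insert, mem_insert, mem_singleton] at ha ⊢
      rcases ha with rfl | rfl | rfl
      · exact Or.inl rfl
      · exact Or.inr (Or.inl rfl)
      · exact Or.inr (Or.inr rfl)
    exact (mem_inter.1 h1).1
  have hmemY : ∀ a < P.M, ¬ q.g.X.testBit a = true → q.g.idg P a = 1 → ct a ∈ gY ct P q.g := by
    intro a ha h1 h2
    have h3 := h.lab_out hf ha (hlab a ha) h1
    exact mem_gY.2 ⟨a, ha, ⟨h1, by omega⟩, rfl⟩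
  have huY := hmemY q.u hu1 hu2 hu5
  have hwY := hmemY q.u' hw1 hw2 hw5
  have hsS : ∀ a < P.M, ¬ q.g.S.testBit a = true → ct a ∉ gS ct P q.g := fun a ha h1 h2 =>
    h1 ((h.mem_ptm_iff ha).1 (mem_inter.1 h2).2)
  have hpX : ct q.p ∈ gX ct P q.g := (h.mem_ptm_iff kp).2 kpX
  have hatt : ((((gX ct P q.g).erase (ct q.p)) ∪ gS ct P q.g).filter
      (fun x => (Gdl.giv B Z (gX ct P q.g) (gI tb q.g) E x).Nonempty)).card ≤ 1 := by
    rw [sum_range_map] at katt
    refine le_trans ?_ katt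
    rw [← card_filter]
    have hsub : (((gX ct P q.g).erase (ct q.p)) ∪ gS ct P q.g).filter
      (fun x => (Gdl.giv B Z (gX ct P q.g) (gI tb q.g) E x).Nonempty) ⊆
        ((range P.M).filter (fun a => q.att P a = true)).image ct := by
      intro x hx
      obtain ⟨h1, h2⟩ := mem_filter.1 hx
      rw [mem_image]
      rcases mem_union.1 h1 with h3 | h3
      · obtain ⟨h4, h5⟩ := mem_erase.1 h3
        obtain ⟨a, ha, h6, rfl⟩ := mem_ptm.1 h5
        refine ⟨a, mem_filter.2 ⟨mem_range.2 ha, ?_⟩, rfl⟩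
        unfold Gdl.giv at h2
        rw [if_pos h5] at h2
        have h7 := card_pos.2 h2
        have h9 := h.hlo a ha
        have h10 : (Gdl.kp B Z (gI tb q.g) (ct a)).card +
          (hts B P.m bl (ct a) + q.g.idg P a) = 5 := h.card_kp hInd hIl ha
        unfold Gq.att
        rw [Bool.or_eq_true, Bool.and_eq_true, Bool.and_eq_true, Nat.blt_eq]
        refine Or.inl ⟨h6, ?_, by omega⟩
        rw [Bool.not_eq_true', Bool.eq_false_iff]
        intro h11
        exact h4 (by rw [Nat.eq_of_beq_eq_true h11])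
      · obtain ⟨h4, h5⟩ := mem_inter.1 h3
        obtain ⟨a, ha, h6, rfl⟩ := mem_gY.1 h4
        refine ⟨a, mem_filter.2 ⟨mem_range.2 ha, ?_⟩, rfl⟩
        unfold Gq.att
        rw [Bool.or_eq_true, Bool.and_eq_true, Bool.and_eq_true, Bool.and_eq_true,
          Bool.and_eq_true, Nat.blt_eq, Nat.blt_eq]
        refine Or.inr ⟨(h.mem_ptm_iff ha).1 h5, ?_, h6.2⟩
        rw [Bool.not_eq_true', Bool.eq_false_iff]
        exact h6.1
    exact (card_le_card hsub).trans card_image_le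
  have hmm : ∀ u < P.M, (∀ c ∈ q.g.cl, ∀ c' ∈ q.g'.cl, (orl c).testBit u = true →
        (orl c').testBit u = true → ∀ a < P.M, (orl c).testBit a = true →
          (orl c').testBit a = true → a = u) →
      ∀ a ∈ gA ct P q.g, ∀ a' ∈ gA ct P q.g', ct u ∈ a → ct u ∈ a' → a ∩ a' ⊆ {ct u} := by
    intro u hu h1 a ha a' ha' h2 h3 v hv'
    have h4 : ∃ c ∈ q.g.cl, ptm ct P.M (orl c) = a := by
      have : a ∈ (q.g.cl.map (fun c => ptm ct P.M (orl c))).toFinset := ha
      rwa [List.mem_toFinset, List.mem_map] at this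
    have h5 : ∃ c ∈ q.g'.cl, ptm ct P.M (orl c) = a' := by
      have : a' ∈ (q.g'.cl.map (fun c => ptm ct P.M (orl c))).toFinset := ha'
      rwa [List.mem_toFinset, List.mem_map] at this
    obtain ⟨c, hc, rfl⟩ := h4
    obtain ⟨c', hc', rfl⟩ := h5
    obtain ⟨h6, h7⟩ := mem_inter.1 hv'
    obtain ⟨b, hb, h8, rfl⟩ := mem_ptm.1 h6
    rw [mem_singleton, h1 c hc c' hc' ((h.mem_ptm_iff hu).1 h2) ((h.mem_ptm_iff hu).1 h3) b hb h8
      ((h.mem_ptm_iff hb).1 h7)]
  have hlk := R.G.exists_link G' hv h.Zne (S := gS ct P q.g) inter_subset_left R.keep R.cov R.link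
    r'cov r'link hpX huY hwY (hsS _ hu1 hu3) (hsS _ hw1 hw3) hjQ
    (hub _ hu1 hu4 hu5 (hinj (by simp))) (hub _ hw1 hw4 hw5 (hinj (by simp))) hatt
    (hmm _ hu1 hu6) (hmm _ hw1 hw6)
  have hκ : ∀ n : ℕ, Fintype.card (ULift.{u} (Fin n)) = n := fun n => by
    rw [Fintype.card_ulift, Fintype.card_fin]
  have hsZ : sv B Z = (P.zn : ℤ) - 2 * (P.r : ℤ) := by
    unfold sv
    rw [h.cardZ, h.rZ]
  have hsv1 := hv.sv1
  have hneg := hv.neg
  have hd : (q.g.dn : ℤ) ≤ dv B Q Z + 10 := by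
    rw [Bool.or_eq_true] at kdn
    rcases kdn with h2 | h2
    · have h3 := Nat.le_of_ble_eq_true h2
      have h4 := h.d0
      have h5 : (q.g.dn : ℤ) ≤ (P.d0 : ℤ) := by exact_mod_cast h3
      linarith
    · rw [List.contains_iff_mem] at h2
      have h3 := hf _ h2
      rw [lit_ng, gval_D, not_not] at h3
      exact h3
  have hIc := R.Ic
  have hXc := R.Xc
  have h5 : (0 : ℤ) ≤ ((Gdl.lost B Q Z (gX ct P q.g) (gY ct P q.g) (gI tb q.g) E).card : ℤ) := by
    positivity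
  -- the value of one of the two systems
  have hval : dv B Q Z + 5 * ((gX ct P q.g).card : ℤ) + 4 * ((gI tb q.g).card : ℤ) +
      2 * ((Gdl.lost B Q Z (gX ct P q.g) (gY ct P q.g) (gI tb q.g) E).card : ℤ)
       - 4 * (q.g.N.length : ℤ) - ((q.g.cl.length : ℤ) - 1 + q.e) ≤ dv B Q Q ∧
    (((gX ct P q.g).card : ℤ) ≤ sv B Q - sv B Z →
      dv B Q Z + 5 * ((gX ct P q.g).card : ℤ) + 4 * ((gI tb q.g).card : ℤ) +
      2 * ((Gdl.lost B Q Z (gX ct P q.g) (gY ct P q.g) (gI tb q.g) E).card : ℤ)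
       - 4 * (q.g.N.length : ℤ) + 1 - ((q.g.cl.length : ℤ) - 1 + q.e) ≤ dv B Q Q) := by
    rcases hlk with hlk | hlk
    · have hmain := R.G.main_lk hv h.Zne hv.ih hv.ihr R.lt R.Yne (S := gS ct P q.g)
        inter_subset_left R.keepr R.AY R.cov R.link R.sm R.m0 hlk
      rw [hκ] at hmain
      have h4 : ((gA ct P q.g).card : ℤ) ≤ (q.g.cl.length : ℤ) := by exact_mod_cast R.Ac
      exact ⟨by linarith [hmain.1], fun hs => by linarith [hmain.2 hs]⟩
    · have hmain := G'.main_lk hv h.Zne hv.ih hv.ihr R.lt R.Yne (S := gS ct P q.g)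
        inter_subset_left r'keep r'AY r'cov r'link r'sm r'm0 hlk
      rw [hκ, kN] at hmain
      have h4 : ((gA ct P q.g').card : ℤ) ≤ (q.g'.cl.length : ℤ) := by exact_mod_cast R'.Ac
      have h4' : (q.g'.cl.length : ℤ) ≤ (q.g.cl.length : ℤ) := by exact_mod_cast kc
      exact ⟨by linarith [hmain.1], fun hs => by linarith [hmain.2 hs]⟩
  rw [hIc, hXc] at hval
  split_ifs at knum with hXz
  · have h1 := hval.2 (by
      rw [hsZ]
      have k1 := Nat.le_of_ble_eq_true hXz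
      have k2 : ((pcn P.M q.g.X + P.zn : ℕ) : ℤ) ≤ ((1 + 2 * P.r : ℕ) : ℤ) := by exact_mod_cast k1
      push_cast at k2
      linarith)
    have h3 : ((4 * q.g.N.length + q.g.cl.length + q.e + 8 + 0 : ℕ) : ℤ) ≤
        ((q.g.dn + 5 * pcn P.M q.g.X + 4 * q.g.I.length : ℕ) : ℤ) := by exact_mod_cast knum
    push_cast at h3
    linarith
  · have h1 := hval.1
    have h3 : ((4 * q.g.N.length + q.g.cl.length + q.e + 8 + 1 : ℕ) : ℤ) ≤
        ((q.g.dn + 5 * pcn P.M q.g.X + 4 * q.g.I.length : ℕ) : ℤ) := by exact_mod_cast knum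
    push_cast at h3
    linarith

/-- the complete check of an instance with all kinds of records; `kq` holds the pairs of records. -/
noncomputable def instX3 (P : Gp) (given : List (List ℕ)) (bs : List Gb) (ks : List Gk)
    (k2 : List (ℕ × Gk)) (kq : List Gq) (nm : Tr) (cnf : List (List ℕ)) (db : Tr)
    (prf : List ℕ) : Bool :=
  bs.all (fun g => g.ok P) && (ks.all (fun g => g.ok P) && (k2.all (fun q => q.2.ok2 P q.1) &&
    (kq.all (fun q => q.ok P) && (!(cnf.isEmpty) && (okcR cnf && (cmpR nm cnf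
      (given ++ (bs.map (Gb.cl P) ++ (ks.map Gk.lits ++ (k2.map (fun q => q.2.lits) ++
        kq.map (fun q => q.g.lits))))) && chk cnf db prf))))))

/-- the check of an instance from its parts. -/
theorem instX3_of {P : Gp} {given : List (List ℕ)} {bs : List Gb} {ks : List Gk}
    {k2 : List (ℕ × Gk)} {kq : List Gq} {nm : Tr} {cnf : List (List ℕ)} {db : Tr} {prf : List ℕ}
    (h1 : bs.all (fun g => g.ok P) = true)
    (h2 : ks.all (fun g => g.ok P) = true) (h2' : k2.all (fun q => q.2.ok2 P q.1) = true)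
    (hq : kq.all (fun q => q.ok P) = true)
    (h3 : (!(cnf.isEmpty)) = true) (h4 : okcR cnf = true)
    (h5 : cmpR nm cnf (given ++ (bs.map (Gb.cl P) ++ (ks.map Gk.lits ++
      (k2.map (fun q => q.2.lits) ++ kq.map (fun q => q.g.lits))))) = true)
    (h6 : chk cnf db prf = true) : instX3 P given bs ks k2 kq nm cnf db prf = true := by
  unfold instX3
  rw [h1, h2, h2', hq, h3, h4, h5, h6]
  rfl

/-- **a checked instance with pairs of records does not occur.** -/
theorem Gx.no3 (h : Gx B Q Z P bl ct zt tb) {given : List (List ℕ)}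
    (hg : ∀ c ∈ given, Sat (gval B Q Z P bl ct) c) {bs : List Gb} {ks : List Gk}
    {k2 : List (ℕ × Gk)} {kq : List Gq} {nm db : Tr}
    {cnf : List (List ℕ)} {prf : List ℕ}
    (hb : instX3 P given bs ks k2 kq nm cnf db prf = true) : False := by
  unfold instX3 at hb
  simp only [Bool.and_eq_true] at hb
  obtain ⟨h1, h2, h2', hq, h3, h4, h5, h6⟩ := hb
  have hne : cnf ≠ [] := by
    rintro rfl
    simp at h3
  obtain ⟨c, hc, hs⟩ := unsat_nm h6 h4 hne h5 (gval B Q Z P bl ct)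
  rcases List.mem_append.1 hc with k1 | k1
  · exact hs (hg c k1)
  · rcases List.mem_append.1 k1 with k2 | k2
    · obtain ⟨g, hgm, rfl⟩ := List.mem_map.1 k2
      exact hs (h.sat_base g (List.all_eq_true.1 h1 g hgm))
    · rcases List.mem_append.1 k2 with k3 | k3
      · obtain ⟨g, hgm, rfl⟩ := List.mem_map.1 k3
        exact hs (h.sat_gd g (List.all_eq_true.1 h2 g hgm))
      · rcases List.mem_append.1 k3 with k4 | k4
        · obtain ⟨q, hqm, rfl⟩ := List.mem_map.1 k4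
          exact hs (h.sat_gd2 q.2 q.1 (List.all_eq_true.1 h2' q hqm))
        · obtain ⟨q, hqm, rfl⟩ := List.mem_map.1 k4
          exact hs (h.sat_gq q (List.all_eq_true.1 hq q hqm))

end Gdx

end Pool.Agent.Hyp6
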