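import Mathlib

/-!
# HYP6 L3Sp: the sparse lemma for stars and lines in a matroid

`n` is the nullity of a matroid on the nodes, the lines `l T` are flats of rank two (as sets of nodes),
two lines share at most one node and every set `E` of at least two nodes contains at most
`2 (|E| - n E) - 3` lines (lines with at least two nodes in `E`). Then the sum of the dependencies of the stars
and of the lines is at most the nullity of the whole.
-/

set_option autoImplicit false

namespace Pool.Agent.Hyp6.Sp

open Finset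

section

variable {V : Type*} [DecidableEq V] {τ : Type*} [DecidableEq τ]

/-- nullity functions. -/
structure Nul (n : Finset V → ℤ) : Prop where
  empty : n ∅ = 0
  mono : ∀ A B, A ⊆ B → n A ≤ n B
  ins : ∀ A v, n (insert v A) ≤ n A + 1
  super : ∀ A B, n A + n B ≤ n (A ∪ B) + n (A ∩ B)

/-- the rank. -/
def rkn (n : Finset V → ℤ) (A : Finset V) : ℤ := (A.card : ℤ) - n A

variable {n : Finset V → ℤ}

theorem Nul.rk_ins (h : Nul n) (A : Finset V) (v : V) : rkn n A ≤ rkn n (insert v A) := by
  unfold rkn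
  by_cases hv : v ∈ A
  · rw [insert_eq_of_mem hv]
  · have h1 := h.ins A v
    rw [card_insert_of_notMem hv]
    push_cast
    linarith

theorem Nul.rk_mono (h : Nul n) {A B : Finset V} (hAB : A ⊆ B) : rkn n A ≤ rkn n B := by
  have key : ∀ C : Finset V, rkn n A ≤ rkn n (A ∪ C) := by
    intro C
    induction C using Finset.induction_on with
    | empty => rw [union_empty]
    | insert v C _ ih =>
      rw [union_insert]
      exact ih.trans (h.rk_ins _ v)
  have := key B
  rwa [union_eq_right.2 hAB] at this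

theorem Nul.rk_ins_le (h : Nul n) (A : Finset V) (v : V) : rkn n (insert v A) ≤ rkn n A + 1 := by
  unfold rkn
  by_cases hv : v ∈ A
  · rw [insert_eq_of_mem hv]
    linarith
  · have h1 := h.mono A (insert v A) (subset_insert v A)
    rw [card_insert_of_notMem hv]
    push_cast
    linarith

theorem Nul.rk_sub (h : Nul n) (A B : Finset V) :
    rkn n (A ∪ B) + rkn n (A ∩ B) ≤ rkn n A + rkn n B := by
  unfold rkn
  have h1 := h.super A B
  have h2 := card_union_add_card_inter A B
  have h3 : (((A ∪ B).card : ℕ) : ℤ) + ((A ∩ B).card : ℕ) = A.card + B.card := by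
    exact_mod_cast h2
  linarith

theorem Nul.nonneg (h : Nul n) (A : Finset V) : 0 ≤ n A := by
  rw [← h.empty]
  exact h.mono _ _ (empty_subset A)

/-- the data: lines of rank two, sparse. -/
structure Lin (n : Finset V → ℤ) (Vs : Finset V) (Ts : Finset τ) (l : τ → Finset V) : Prop where
  sub : ∀ T ∈ Ts, l T ⊆ Vs
  two : ∀ T ∈ Ts, 2 ≤ (l T).card
  nl : ∀ T ∈ Ts, n (l T) = (l T).card - 2
  one : ∀ T ∈ Ts, ∀ T' ∈ Ts, T ≠ T' → (l T ∩ l T').card ≤ 1
  sparse : ∀ E, E ⊆ Vs → 2 ≤ E.card →
    ((Ts.filter (fun T => 2 ≤ (l T ∩ E).card)).card : ℤ) ≤ 2 * ((E.card : ℤ) - n E) - 3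

/-- the dependency of the star at `W` formed by the lines in `S`. -/
def nst (n : Finset V → ℤ) (l : τ → Finset V) (W : V) (S : Finset τ) : ℤ :=
  (S.card : ℤ) + 1 - rkn n (insert W (S.biUnion l))

variable {Vs : Finset V} {Ts : Finset τ} {l : τ → Finset V}

omit [DecidableEq τ] in
theorem Lin.pair (hL : Lin n Vs Ts l) {x y : V} (hx : x ∈ Vs) (hy : y ∈ Vs)
    (hxy : x ≠ y) : n {x, y} ≤ 0 := by
  have h1 := hL.sparse {x, y} (by
    intro z hz
    rw [mem_insert, mem_singleton] at hz
    rcases hz with rfl | rfl <;> assumption) (by rw [card_pair hxy])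
  rw [card_pair hxy] at h1
  have h2 : (0 : ℤ) ≤ ((Ts.filter (fun T => 2 ≤ (l T ∩ {x, y}).card)).card : ℤ) := by positivity
  push_cast at h1
  linarith

omit [DecidableEq τ] in
/-- a set meeting a line in two nodes contains it in its closure. -/
theorem Lin.cls (h : Nul n) (hL : Lin n Vs Ts l) {T : τ} (hT : T ∈ Ts) {X : Finset V} {x y : V}
    (hx : x ∈ l T) (hy : y ∈ l T) (hxy : x ≠ y) (hxX : x ∈ X) (hyX : y ∈ X) :
    rkn n (X ∪ l T) ≤ rkn n X := by
  have h1 := h.rk_sub X (l T)
  have h2 : rkn n {x, y} ≤ rkn n (X ∩ l T) := by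
    refine h.rk_mono ?_
    intro z hz
    rw [mem_insert, mem_singleton] at hz
    rcases hz with rfl | rfl
    · exact mem_inter.2 ⟨hxX, hx⟩
    · exact mem_inter.2 ⟨hyX, hy⟩
  have h3 := hL.pair (hL.sub T hT hx) (hL.sub T hT hy) hxy
  have h4 : rkn n (l T) = 2 := by
    unfold rkn
    rw [hL.nl T hT]
    ring
  have h5 : 2 ≤ rkn n {x, y} := by
    unfold rkn
    rw [card_pair hxy]
    push_cast
    linarith
  linarith

/-- the same for several lines through `W`. -/
theorem Lin.cls_star (h : Nul n) (hL : Lin n Vs Ts l) {W : V} {S : Finset τ} (hS : S ⊆ Ts)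
    (hW : ∀ T ∈ S, W ∈ l T) {X : Finset V} (hWX : W ∈ X)
    (hX : ∀ T ∈ S, ∃ y ∈ l T, y ≠ W ∧ y ∈ X) :
    rkn n (X ∪ insert W (S.biUnion l)) ≤ rkn n X := by
  have h0 : X ∪ insert W (S.biUnion l) = X ∪ S.biUnion l := by
    rw [union_insert, insert_eq_of_mem (mem_union_left _ hWX)]
  rw [h0]
  induction S using Finset.induction_on with
  | empty => rw [biUnion_empty, union_empty]
  | insert T S hTS ih =>
    have ih' := ih ((subset_insert T S).trans hS) (fun T' h' => hW T' (mem_insert_of_mem h'))
      (fun T' h' => hX T' (mem_insert_of_mem h'))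
      (by rw [union_insert, insert_eq_of_mem (mem_union_left _ hWX)])
    refine le_trans ?_ ih'
    obtain ⟨y, hy1, hy2, hy3⟩ := hX T (mem_insert_self T S)
    rw [biUnion_insert, ← union_assoc, union_right_comm]
    exact hL.cls h (hS (mem_insert_self T S)) (hW T (mem_insert_self T S)) hy1
      (fun e => hy2 e.symm) (mem_union_left _ hWX) (mem_union_left _ hy3)

/-- dropping a line from a star. -/
theorem nst_erase (h : Nul n) {W : V} {S : Finset τ} {T : τ} (hT : T ∈ S) :
    nst n l W S ≤ nst n l W (S.erase T) + 1 := by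
  unfold nst
  have h1 : rkn n (insert W ((S.erase T).biUnion l)) ≤ rkn n (insert W (S.biUnion l)) :=
    h.rk_mono (insert_subset_insert W (biUnion_subset_biUnion_of_subset_left l (erase_subset T S)))
  have h2 := card_erase_add_one hT
  have h3 : (((S.erase T).card : ℕ) : ℤ) + 1 = S.card := by exact_mod_cast h2
  linarith

/-- dropping a line from a star, together with the node `e`. -/
theorem Lin.nst_drop (h : Nul n) (hL : Lin n Vs Ts l) {W : V} {S : Finset τ} (hS : S ⊆ Ts)
    (hW : ∀ T ∈ S, W ∈ l T) {E : Finset V} (hWE : W ∈ E) (hE : ∀ T ∈ S, 2 ≤ (l T ∩ E).card)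
    {T : τ} (hT : T ∈ S) {e : V} (he : e ∈ l T) (heE : e ∈ E) (heW : e ≠ W) :
    nst n l W S + n (E.erase e) ≤ nst n l W (S.erase T) + n E := by
  set A := insert W ((S.erase T).biUnion l) with hA
  -- the closure
  have hcl : rkn n (E.erase e ∪ A) ≤ rkn n (E.erase e) := by
    refine hL.cls_star h ((erase_subset T S).trans hS)
      (fun T' h' => hW T' (mem_of_mem_erase h')) (mem_erase.2 ⟨fun h => heW h.symm, hWE⟩)
      fun T' h' => ?_
    have hT'S := mem_of_mem_erase h'
    have h2 := hE T' hT'S
    obtain ⟨y, hy, hyW⟩ := exists_mem_ne (show 1 < (l T' ∩ E).card by omega) W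
    rw [mem_inter] at hy
    refine ⟨y, hy.1, hyW, mem_erase.2 ⟨?_, hy.2⟩⟩
    rintro rfl
    have h3 := hL.one T' (hS hT'S) T (hS hT) (mem_erase.1 h').1
    have h4 : ({W, y} : Finset V) ⊆ l T' ∩ l T := by
      intro z hz
      rw [mem_insert, mem_singleton] at hz
      rcases hz with rfl | rfl
      · exact mem_inter.2 ⟨hW T' hT'S, hW T hT⟩
      · exact mem_inter.2 ⟨hy.1, he⟩
    have h5 := card_le_card h4
    rw [card_pair (fun h => heW h.symm)] at h5
    omega
  -- the marginal of `e`
  have h1 := h.rk_sub (E.erase e ∪ A) (insert e A)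
  have h2 : (E.erase e ∪ A) ∪ insert e A = E ∪ A := by
    ext z
    simp only [mem_union, mem_erase, mem_insert]
    constructor
    · rintro ((⟨_, hz⟩ | hz) | (rfl | hz))
      · exact Or.inl hz
      · exact Or.inr hz
      · exact Or.inl heE
      · exact Or.inr hz
    · rintro (hz | hz)
      · by_cases hze : z = e
        · exact Or.inr (Or.inl hze)
        · exact Or.inl (Or.inl ⟨hze, hz⟩)
      · exact Or.inl (Or.inr hz)
  have h3 : rkn n A ≤ rkn n ((E.erase e ∪ A) ∩ insert e A) :=
    h.rk_mono (subset_inter subset_union_right (subset_insert e A))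
  have h4 : rkn n E ≤ rkn n (E ∪ A) := h.rk_mono subset_union_left
  have h5 : rkn n (insert e A) ≤ rkn n (insert W (S.biUnion l)) := by
    refine h.rk_mono ?_
    intro z hz
    rw [mem_insert] at hz
    rcases hz with rfl | hz
    · exact mem_insert_of_mem (mem_biUnion.2 ⟨T, hT, he⟩)
    · exact (insert_subset_insert W
        (biUnion_subset_biUnion_of_subset_left l (erase_subset T S))) hz
  rw [h2] at h1
  unfold nst
  have h6 := card_erase_add_one hT
  have h7 : (((S.erase T).card : ℕ) : ℤ) + 1 = S.card := by exact_mod_cast h6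
  have h8 := card_erase_add_one heE
  have h9 : (((E.erase e).card : ℕ) : ℤ) + 1 = E.card := by exact_mod_cast h8
  have h10 : rkn n E = (E.card : ℤ) - n E := rfl
  have h11 : rkn n (E.erase e) = ((E.erase e).card : ℤ) - n (E.erase e) := rfl
  linarith

/-- a configuration of stars and lines in `E`. -/
structure Cfg (Vs : Finset V) (Ts : Finset τ) (l : τ → Finset V) (C : Finset V)
    (S : V → Finset τ) (R : Finset τ) (k : τ → ℕ) (E : Finset V) : Prop where
  CE : C ⊆ E
  EV : E ⊆ Vs
  ST : ∀ W ∈ C, S W ⊆ Ts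
  WT : ∀ W ∈ C, ∀ T ∈ S W, W ∈ l T
  TE : ∀ W ∈ C, ∀ T ∈ S W, 2 ≤ (l T ∩ E).card
  RT : R ⊆ Ts
  k3 : ∀ T ∈ R, 3 ≤ k T
  kE : ∀ T ∈ R, k T ≤ (l T ∩ E).card

/-- the value of a configuration. -/
def cval (n : Finset V → ℤ) (l : τ → Finset V) (C : Finset V) (S : V → Finset τ) (R : Finset τ)
    (k : τ → ℕ) : ℤ := ∑ W ∈ C, nst n l W (S W) + ∑ T ∈ R, ((k T : ℤ) - 2)

/-- the size of a configuration. -/
def cmu (C : Finset V) (S : V → Finset τ) (R : Finset τ) (k : τ → ℕ) (E : Finset V) : ℕ :=
  ∑ W ∈ C, (1 + (S W).card) + ∑ T ∈ R, k T + E.card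

theorem sum_upd {M : Type*} [AddCommMonoid M] {ι β : Type*} [DecidableEq ι] {C : Finset ι}
    (S : ι → β) {W : ι} (hW : W ∈ C) (s : β) (f : ι → β → M) :
    ∑ W' ∈ C, f W' (Function.update S W s W') + f W (S W) = ∑ W' ∈ C, f W' (S W') + f W s := by
  rw [← add_sum_erase C (fun W' => f W' (Function.update S W s W')) hW,
    ← add_sum_erase C (fun W' => f W' (S W')) hW]
  have h1 : ∑ x ∈ C.erase W, f x (Function.update S W s x) = ∑ x ∈ C.erase W, f x (S x) := by
    refine sum_congr rfl fun x hx => ?_
    rw [Function.update_of_ne (mem_erase.1 hx).1]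
  rw [h1, Function.update_self]
  rw [add_comm (f W s), add_comm (f W (S W)), add_assoc, add_assoc, add_comm (f W s)]

/-- erasing a node from `E` and a node of a line. -/
theorem card_inter_erase_ge {A E : Finset V} {e : V} : (A ∩ E).card ≤ (A ∩ E.erase e).card + 1 := by
  rw [inter_erase]
  have := pred_card_le_card_erase (s := A ∩ E) (a := e)
  omega

theorem card_inter_erase_eq {A E : Finset V} {e : V} (he : e ∉ A) :
    (A ∩ E.erase e).card = (A ∩ E).card := by
  rw [inter_erase, erase_eq_of_notMem (fun h => he (mem_inter.1 h).1)]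

variable {C E : Finset V} {S : V → Finset τ} {R : Finset τ} {k : τ → ℕ}

omit [DecidableEq τ] in
/-- replace one star by a smaller one. -/
theorem Cfg.upd (hc : Cfg Vs Ts l C S R k E) {W : V} {s : Finset τ}
    (hs : s ⊆ S W) : Cfg Vs Ts l C (Function.update S W s) R k E := by
  have key : ∀ W', Function.update S W s W' ⊆ S W' := by
    intro W'
    by_cases h : W' = W
    · subst h
      rw [Function.update_self]
      exact hs
    · rw [Function.update_of_ne h]
  exact ⟨hc.CE, hc.EV, fun W' hW' => (key W').trans (hc.ST W' hW'),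
    fun W' hW' T hT => hc.WT W' hW' T (key W' hT), fun W' hW' T hT => hc.TE W' hW' T (key W' hT),
    hc.RT, hc.k3, hc.kE⟩

omit [DecidableEq τ] in
/-- remove a centre. -/
theorem Cfg.erC (hc : Cfg Vs Ts l C S R k E) (W : V) : Cfg Vs Ts l (C.erase W) S R k E :=
  ⟨(erase_subset _ _).trans hc.CE, hc.EV, fun W' h => hc.ST W' (mem_of_mem_erase h),
    fun W' h => hc.WT W' (mem_of_mem_erase h), fun W' h => hc.TE W' (mem_of_mem_erase h),
    hc.RT, hc.k3, hc.kE⟩

/-- lower the value of a line. -/
theorem low_exists (hk : ∀ T ∈ R, 3 ≤ k T) {T : τ} (hT : T ∈ R) :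
    ∃ (R' : Finset τ) (k' : τ → ℕ), R' ⊆ R ∧ (∀ T' ∈ R', T' ≠ T → k' T' = k T') ∧
      (T ∈ R' → k' T + 1 = k T ∧ 4 ≤ k T) ∧
      ∑ x ∈ R', ((k' x : ℤ) - 2) + 1 = ∑ x ∈ R, ((k x : ℤ) - 2) ∧
      ∑ x ∈ R', k' x < ∑ x ∈ R, k x := by
  by_cases h4 : 4 ≤ k T
  · refine ⟨R, Function.update k T (k T - 1), subset_rfl, ?_, ?_, ?_, ?_⟩
    · intro T' _ hne
      rw [Function.update_of_ne hne]
    · intro _
      rw [Function.update_self]
      omega
    · have h1 := sum_upd k hT (k T - 1) (fun _ (x : ℕ) => ((x : ℤ) - 2))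
      have h2 : ((k T - 1 : ℕ) : ℤ) = (k T : ℤ) - 1 := by omega
      rw [h2] at h1
      linarith
    · have h1 := sum_upd k hT (k T - 1) (fun _ (x : ℕ) => x)
      omega
  · have h3 := hk T hT
    have h5 : k T = 3 := by omega
    refine ⟨R.erase T, k, erase_subset _ _, fun _ _ _ => rfl, ?_, ?_, ?_⟩
    · intro h
      exact absurd rfl (mem_erase.1 h).1
    · have h1 := add_sum_erase R (fun x => ((k x : ℤ) - 2)) hT
      rw [h5] at h1
      push_cast at h1
      linarith
    · have h1 := add_sum_erase R (fun x => k x) hT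
      omega

/-- the induction hypothesis. -/
def IHc (n : Finset V → ℤ) (Vs : Finset V) (Ts : Finset τ) (l : τ → Finset V) (m : ℕ) : Prop :=
  ∀ C S R k E, Cfg Vs Ts l C S R k E → cmu C S R k E < m → cval n l C S R k ≤ n E

omit [DecidableEq τ] in
theorem IHc.star (hc : Cfg Vs Ts l C S R k E) (ih : IHc n Vs Ts l (cmu C S R k E))
    (hb : n E < cval n l C S R k) {W : V} (hW : W ∈ C) : 1 ≤ nst n l W (S W) := by
  have h1 := ih _ _ _ _ _ (hc.erC W) (by
    unfold cmu
    have := add_sum_erase C (fun W => 1 + (S W).card) hW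
    omega)
  unfold cval at *
  have h2 := add_sum_erase C (fun W => nst n l W (S W)) hW
  linarith

omit [DecidableEq τ] in
theorem IHc.star_ne (hpt : ∀ W ∈ Vs, n {W} ≤ 0) (hc : Cfg Vs Ts l C S R k E)
    (ih : IHc n Vs Ts l (cmu C S R k E))
    (hb : n E < cval n l C S R k) {W : V} (hW : W ∈ C) : (S W).Nonempty := by
  rw [nonempty_iff_ne_empty]
  intro h0
  have h1 := ih.star hc hb hW
  rw [h0] at h1
  unfold nst rkn at h1
  rw [biUnion_empty, insert_empty] at h1
  have h2 := hpt W (hc.EV (hc.CE hW))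
  rw [card_singleton, card_empty] at h1
  push_cast at h1
  linarith

theorem IHc.val_le (h : Nul n) (hpt : ∀ W ∈ Vs, n {W} ≤ 0) (hc : Cfg Vs Ts l C S R k E)
    (ih : IHc n Vs Ts l (cmu C S R k E))
    (hb : n E < cval n l C S R k) : cval n l C S R k ≤ n E + 1 := by
  rcases C.eq_empty_or_nonempty with hC | ⟨W, hW⟩
  · rcases R.eq_empty_or_nonempty with hR | ⟨T, hT⟩
    · subst hC hR
      have := h.nonneg E
      unfold cval at hb
      rw [sum_empty, sum_empty] at hb
      omega
    · obtain ⟨R', k', h1, h2, h3, h4, h5⟩ := low_exists hc.k3 hT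
      have hc' : Cfg Vs Ts l C S R' k' E := by
        refine ⟨hc.CE, hc.EV, hc.ST, hc.WT, hc.TE, h1.trans hc.RT, ?_, ?_⟩
        · intro T' hT'
          by_cases he : T' = T
          · subst he
            have := h3 hT'
            omega
          · rw [h2 T' hT' he]
            exact hc.k3 T' (h1 hT')
        · intro T' hT'
          by_cases he : T' = T
          · subst he
            have := h3 hT'
            have := hc.kE T' hT
            omega
          · rw [h2 T' hT' he]
            exact hc.kE T' (h1 hT')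
      have h6 := ih _ _ _ _ _ hc' (by
        unfold cmu
        omega)
      unfold cval at *
      linarith
  · obtain ⟨T, hT⟩ := ih.star_ne hpt hc hb hW
    have h6 := ih _ _ _ _ _ (hc.upd (erase_subset T (S W))) (by
      unfold cmu
      have h1 := sum_upd S hW ((S W).erase T) (fun _ (x : Finset τ) => 1 + x.card)
      have h2 := card_erase_add_one hT
      omega)
    have h1 := sum_upd S hW ((S W).erase T) (fun W x => nst n l W x)
    have h2 := nst_erase (l := l) h (W := W) hT
    unfold cval at *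
    linarith

omit [DecidableEq τ] in
/-- nullity of a part of a line. -/
theorem Lin.part (h : Nul n) (hL : Lin n Vs Ts l) {T : τ} (hT : T ∈ Ts) {D : Finset V}
    (hD : D ⊆ l T) (h2 : 2 ≤ D.card) : n D = (D.card : ℤ) - 2 := by
  obtain ⟨x, hx, y, hy, hxy⟩ := one_lt_card.1 (show 1 < D.card by omega)
  have h3 := hL.pair (hL.sub T hT (hD hx)) (hL.sub T hT (hD hy)) hxy
  have h4 : rkn n {x, y} ≤ rkn n D := by
    refine h.rk_mono ?_
    intro z hz
    rw [mem_insert, mem_singleton] at hz
    rcases hz with rfl | rfl <;> assumption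
  have h5 : rkn n D ≤ rkn n (l T) := h.rk_mono hD
  unfold rkn at h4 h5
  rw [card_pair hxy] at h4
  rw [hL.nl T hT] at h5
  push_cast at h4
  linarith

/-- the lines with two nodes in `E` which belong to a star. -/
def A1 (Ts : Finset τ) (l : τ → Finset V) (C : Finset V) (S : V → Finset τ) (E : Finset V) :
    Finset τ := Ts.filter (fun T => (l T ∩ E).card = 2 ∧ ∃ W ∈ C, T ∈ S W)

theorem A1_pair {T : τ} {W e : V} (hT : T ∈ A1 Ts l C S E) (hW : W ∈ l T) (hWE : W ∈ E)
    (he : e ∈ l T) (heE : e ∈ E) (hne : e ≠ W) {z : V} (hz : z ∈ l T) (hzE : z ∈ E) :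
    z = W ∨ z = e := by
  have h1 : (l T ∩ E).card = 2 := (mem_filter.1 hT).2.1
  have h2 : ({W, e} : Finset V) ⊆ l T ∩ E := by
    intro y hy
    rw [mem_insert, mem_singleton] at hy
    rcases hy with rfl | rfl
    · exact mem_inter.2 ⟨hW, hWE⟩
    · exact mem_inter.2 ⟨he, heE⟩
  have h3 : ({W, e} : Finset V) = l T ∩ E := by
    refine eq_of_subset_of_card_le h2 ?_
    rw [card_pair (fun h => hne h.symm), h1]
  have h4 : z ∈ l T ∩ E := mem_inter.2 ⟨hz, hzE⟩
  rw [← h3, mem_insert, mem_singleton] at h4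
  exact h4

theorem IHc.need (h : Nul n) (hL : Lin n Vs Ts l) (hc : Cfg Vs Ts l C S R k E)
    (ih : IHc n Vs Ts l (cmu C S R k E))
    (hb : n E < cval n l C S R k) {e : V} (heE : e ∈ E) (heC : e ∉ C) :
    2 ≤ ((A1 Ts l C S E).filter (fun T => e ∈ l T)).card +
      (R.filter (fun T => e ∈ l T ∧ (l T ∩ E).card = k T)).card := by
  by_contra hlt
  have hmu : (E.erase e).card < E.card := card_erase_lt_of_mem heE
  have hCE : C ⊆ E.erase e := fun z hz => mem_erase.2 ⟨fun h => heC (h ▸ hz), hc.CE hz⟩
  have hEV : E.erase e ⊆ Vs := (erase_subset _ _).trans hc.EV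
  -- the stars
  have hst : ∀ W ∈ C, ∀ T ∈ S W, ¬ (T ∈ A1 Ts l C S E ∧ e ∈ l T) →
      2 ≤ (l T ∩ E.erase e).card := by
    intro W hW T hT hn
    by_cases he : e ∈ l T
    · have h1 := hc.TE W hW T hT
      have h2 : (l T ∩ E).card ≠ 2 := fun h2 =>
        hn ⟨mem_filter.2 ⟨hc.ST W hW hT, h2, W, hW, hT⟩, he⟩
      have h3 := card_inter_erase_ge (A := l T) (E := E) (e := e)
      omega
    · rw [card_inter_erase_eq he]
      exact hc.TE W hW T hT
  have hln : ∀ T ∈ R, ¬ (e ∈ l T ∧ (l T ∩ E).card = k T) → k T ≤ (l T ∩ E.erase e).card := by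
    intro T hT hn
    by_cases he : e ∈ l T
    · have h1 := hc.kE T hT
      have h2 : (l T ∩ E).card ≠ k T := fun h2 => hn ⟨he, h2⟩
      have h3 := card_inter_erase_ge (A := l T) (E := E) (e := e)
      omega
    · rw [card_inter_erase_eq he]
      exact hc.kE T hT
  by_cases hN2 : (R.filter (fun T => e ∈ l T ∧ (l T ∩ E).card = k T)).card = 0
  · rw [card_eq_zero] at hN2
    have hR' : ∀ T ∈ R, k T ≤ (l T ∩ E.erase e).card := by
      intro T hT
      refine hln T hT fun hn => ?_
      have : T ∈ R.filter (fun T => e ∈ l T ∧ (l T ∩ E).card = k T) := mem_filter.2 ⟨hT, hn⟩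
      rw [hN2] at this
      exact absurd this (notMem_empty T)
    by_cases hN1 : ((A1 Ts l C S E).filter (fun T => e ∈ l T)).card = 0
    · -- nothing needs `e`
      rw [card_eq_zero] at hN1
      have hc' : Cfg Vs Ts l C S R k (E.erase e) := by
        refine ⟨hCE, hEV, hc.ST, hc.WT, ?_, hc.RT, hc.k3, hR'⟩
        intro W hW T hT
        refine hst W hW T hT fun hn => ?_
        have : T ∈ (A1 Ts l C S E).filter (fun T => e ∈ l T) := mem_filter.2 hn
        rw [hN1] at this
        exact absurd this (notMem_empty T)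
      have h1 := ih _ _ _ _ _ hc' (by
        unfold cmu
        omega)
      have h2 := h.mono _ _ (erase_subset e E)
      linarith
    · -- one star line needs `e`
      have hN11 : ((A1 Ts l C S E).filter (fun T => e ∈ l T)).card = 1 := by omega
      obtain ⟨T, hT⟩ := card_eq_one.1 hN11
      have hTm : T ∈ (A1 Ts l C S E).filter (fun T => e ∈ l T) := by
        rw [hT]
        exact mem_singleton_self T
      obtain ⟨hTA, heT⟩ := mem_filter.1 hTm
      obtain ⟨hTTs, hT2, W, hW, hTW⟩ := mem_filter.1 hTA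
      have hWT := hc.WT W hW T hTW
      have hne : e ≠ W := fun h => heC (h ▸ hW)
      have hc' : Cfg Vs Ts l C (Function.update S W ((S W).erase T)) R k (E.erase e) := by
        have hu := hc.upd (erase_subset T (S W))
        refine ⟨hCE, hEV, hu.ST, hu.WT, ?_, hc.RT, hc.k3, hR'⟩
        intro W' hW' T' hT'
        by_cases hWW : W' = W
        · subst hWW
          rw [Function.update_self] at hT'
          refine hst W' hW' T' (mem_of_mem_erase hT') fun hn => ?_
          have h3 : T' ∈ (A1 Ts l C S E).filter (fun T => e ∈ l T) := mem_filter.2 hn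
          rw [hT, mem_singleton] at h3
          exact (mem_erase.1 hT').1 h3
        · rw [Function.update_of_ne hWW] at hT'
          refine hst W' hW' T' hT' fun hn => ?_
          have h3 : T' ∈ (A1 Ts l C S E).filter (fun T => e ∈ l T) := mem_filter.2 hn
          rw [hT, mem_singleton] at h3
          subst h3
          rcases A1_pair hTA hWT (hc.CE hW) heT heE hne (hc.WT W' hW' T' hT') (hc.CE hW')
            with h4 | h4
          · exact hWW h4
          · exact heC (h4 ▸ hW')
      have h1 := ih _ _ _ _ _ hc' (by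
        unfold cmu
        have h1 := sum_upd S hW ((S W).erase T) (fun _ (x : Finset τ) => 1 + x.card)
        have h2 := card_erase_add_one hTW
        omega)
      have h2 := sum_upd S hW ((S W).erase T) (fun W x => nst n l W x)
      have h3 := hL.nst_drop h (hc.ST W hW) (hc.WT W hW) (hc.CE hW) (hc.TE W hW) hTW heT heE hne
      unfold cval at *
      linarith
  · -- one line needs `e`
    have hN21 : (R.filter (fun T => e ∈ l T ∧ (l T ∩ E).card = k T)).card = 1 := by omega
    have hN1 : ((A1 Ts l C S E).filter (fun T => e ∈ l T)).card = 0 := by omega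
    rw [card_eq_zero] at hN1
    obtain ⟨T, hT⟩ := card_eq_one.1 hN21
    have hTm : T ∈ R.filter (fun T => e ∈ l T ∧ (l T ∩ E).card = k T) := by
      rw [hT]
      exact mem_singleton_self T
    obtain ⟨hTR, heT, hTk⟩ := mem_filter.1 hTm
    obtain ⟨R', k', h1, h2, h3, h4, h5⟩ := low_exists hc.k3 hTR
    have hc' : Cfg Vs Ts l C S R' k' (E.erase e) := by
      refine ⟨hCE, hEV, hc.ST, hc.WT, ?_, h1.trans hc.RT, ?_, ?_⟩
      · intro W hW T hT
        refine hst W hW T hT fun hn => ?_
        have : T ∈ (A1 Ts l C S E).filter (fun T => e ∈ l T) := mem_filter.2 hn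
        rw [hN1] at this
        exact absurd this (notMem_empty T)
      · intro T' hT'
        by_cases he : T' = T
        · subst he
          have := h3 hT'
          omega
        · rw [h2 T' hT' he]
          exact hc.k3 T' (h1 hT')
      · intro T' hT'
        by_cases he : T' = T
        · subst he
          have := h3 hT'
          have := card_inter_erase_ge (A := l T') (E := E) (e := e)
          omega
        · rw [h2 T' hT' he]
          refine hln T' (h1 hT') fun hn => ?_
          have h6 : T' ∈ R.filter (fun T => e ∈ l T ∧ (l T ∩ E).card = k T) :=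
            mem_filter.2 ⟨h1 hT', hn⟩
          rw [hT, mem_singleton] at h6
          exact he h6
    have h6 := ih _ _ _ _ _ hc' (by
      unfold cmu
      omega)
    -- the marginal of `e`
    have h7 := h.super (l T ∩ E) (E.erase e)
    have h8 : (l T ∩ E) ∪ E.erase e = E := by
      ext z
      simp only [mem_union, mem_inter, mem_erase]
      constructor
      · rintro (⟨_, hz⟩ | ⟨_, hz⟩) <;> exact hz
      · intro hz
        by_cases hze : z = e
        · subst hze
          exact Or.inl ⟨heT, hz⟩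
        · exact Or.inr ⟨hze, hz⟩
    have h9 : (l T ∩ E) ∩ E.erase e = (l T ∩ E).erase e := by
      ext z
      simp only [mem_inter, mem_erase]
      tauto
    have hk3 := hc.k3 T hTR
    have h10 : e ∈ l T ∩ E := mem_inter.2 ⟨heT, heE⟩
    have h11 := card_erase_add_one h10
    have h12 := hL.part h (hc.RT hTR) (D := l T ∩ E) inter_subset_left (by omega)
    have h13 := hL.part h (hc.RT hTR) (D := (l T ∩ E).erase e)
      ((erase_subset _ _).trans inter_subset_left) (by omega)
    rw [h8, h9] at h7
    have h14 : ((((l T ∩ E).erase e).card : ℕ) : ℤ) + 1 = (l T ∩ E).card := by exact_mod_cast h11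
    unfold cval at *
    linarith

/-- double counting. -/
theorem sum_filter_swap {α β : Type*} (F : Finset α) (G : Finset β) (p : α → β → Prop)
    [∀ a b, Decidable (p a b)] :
    ∑ e ∈ F, (G.filter (fun T => p e T)).card = ∑ T ∈ G, (F.filter (fun e => p e T)).card := by
  simp only [card_filter]
  exact sum_comm

theorem IHc.step (h : Nul n) (hL : Lin n Vs Ts l) (hpt : ∀ W ∈ Vs, n {W} ≤ 0)
    (hc : Cfg Vs Ts l C S R k E) (ih : IHc n Vs Ts l (cmu C S R k E)) :
    cval n l C S R k ≤ n E := by
  by_contra hb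
  rw [not_le] at hb
  -- two nodes
  have hE2 : 2 ≤ E.card := by
    rcases C.eq_empty_or_nonempty with hC | ⟨W, hW⟩
    · rcases R.eq_empty_or_nonempty with hR | ⟨T, hT⟩
      · subst hC hR
        have := h.nonneg E
        unfold cval at hb
        rw [sum_empty, sum_empty] at hb
        omega
      · have h1 := hc.k3 T hT
        have h2 := hc.kE T hT
        have h3 := card_le_card (inter_subset_right : l T ∩ E ⊆ E)
        omega
    · obtain ⟨T, hT⟩ := ih.star_ne hpt hc hb hW
      have h2 := hc.TE W hW T hT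
      have h3 := card_le_card (inter_subset_right : l T ∩ E ⊆ E)
      omega
  have hval := ih.val_le h hpt hc hb
  -- the needs
  have hF : 2 * (E \ C).card ≤ (A1 Ts l C S E).card + ∑ T ∈ R, k T := by
    have h1 : ∀ e ∈ E \ C, 2 ≤ ((A1 Ts l C S E).filter (fun T => e ∈ l T)).card +
        (R.filter (fun T => e ∈ l T ∧ (l T ∩ E).card = k T)).card := by
      intro e he
      rw [mem_sdiff] at he
      exact ih.need h hL hc hb he.1 he.2
    have h2 := card_nsmul_le_sum _ _ _ h1
    rw [sum_add_distrib] at h2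
    have h21 := sum_filter_swap (E \ C) (A1 Ts l C S E) (fun e T => e ∈ l T)
    have h22 := sum_filter_swap (E \ C) R (fun e T => e ∈ l T ∧ (l T ∩ E).card = k T)
    have h3 : ∑ T ∈ A1 Ts l C S E, ((E \ C).filter (fun e => e ∈ l T)).card ≤
        ∑ T ∈ A1 Ts l C S E, 1 := by
      refine sum_le_sum fun T hT => ?_
      obtain ⟨hTTs, hT2, W, hW, hTW⟩ := mem_filter.1 hT
      have h4 : (E \ C).filter (fun e => e ∈ l T) ⊆ (l T ∩ E).erase W := by
        intro z hz
        rw [mem_filter, mem_sdiff] at hz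
        exact mem_erase.2 ⟨fun h => hz.1.2 (h ▸ hW), mem_inter.2 ⟨hz.2, hz.1.1⟩⟩
      have h5 := card_le_card h4
      have h6 := card_erase_add_one (mem_inter.2 ⟨hc.WT W hW T hTW, hc.CE hW⟩ : W ∈ l T ∩ E)
      omega
    have h4 : ∑ T ∈ R, ((E \ C).filter (fun e => e ∈ l T ∧ (l T ∩ E).card = k T)).card ≤
        ∑ T ∈ R, k T := by
      refine sum_le_sum fun T hT => ?_
      by_cases hk : (l T ∩ E).card = k T
      · rw [← hk]
        refine card_le_card ?_
        intro z hz
        rw [mem_filter, mem_sdiff] at hz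
        exact mem_inter.2 ⟨hz.2.1, hz.1.1⟩
      · have : (E \ C).filter (fun e => e ∈ l T ∧ (l T ∩ E).card = k T) = ∅ := by
          rw [filter_eq_empty_iff]
          rintro z _ ⟨_, h⟩
          exact hk h
        rw [this, card_empty]
        omega
    rw [sum_const, smul_eq_mul, mul_one] at h3
    rw [smul_eq_mul] at h2
    omega
  -- the lines
  have hK := hL.sparse E hc.EV hE2
  have hK2 : (A1 Ts l C S E).card + R.card ≤
      (Ts.filter (fun T => 2 ≤ (l T ∩ E).card)).card := by
    rw [← card_union_of_disjoint]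
    · refine card_le_card ?_
      intro T hT
      rw [mem_union] at hT
      rcases hT with hT | hT
      · obtain ⟨hTTs, hT2, -⟩ := mem_filter.1 hT
        exact mem_filter.2 ⟨hTTs, by omega⟩
      · have h1 := hc.k3 T hT
        have h2 := hc.kE T hT
        exact mem_filter.2 ⟨hc.RT hT, by omega⟩
    · rw [disjoint_left]
      intro T hT hTR
      have h1 := hc.k3 T hTR
      have h2 := hc.kE T hTR
      have h3 := (mem_filter.1 hT).2.1
      omega
  -- the centres
  have hCn : (C.card : ℤ) ≤ ∑ W ∈ C, nst n l W (S W) := by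
    have h1 : ∀ W ∈ C, (1 : ℤ) ≤ nst n l W (S W) := fun W hW => ih.star hc hb hW
    have h2 := card_nsmul_le_sum _ _ _ h1
    simpa using h2
  have hk3 : 3 * R.card ≤ ∑ T ∈ R, k T := by
    have h2 := card_nsmul_le_sum R (fun T => k T) 3 hc.k3
    rw [smul_eq_mul] at h2
    omega
  have hk2 : ∑ T ∈ R, ((k T : ℤ) - 2) = ((∑ T ∈ R, k T : ℕ) : ℤ) - 2 * R.card := by
    rw [sum_sub_distrib, sum_const]
    push_cast
    ring
  have hEC := card_sdiff_add_card_eq_card hc.CE
  unfold cval at hval hb
  rw [hk2] at hval hb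
  generalize ∑ T ∈ R, k T = K at *
  generalize ∑ W ∈ C, nst n l W (S W) = N at *
  omega

theorem Cfg.le (h : Nul n) (hL : Lin n Vs Ts l) (hpt : ∀ W ∈ Vs, n {W} ≤ 0) :
    ∀ m : ℕ, IHc n Vs Ts l m := by
  intro m
  induction m with
  | zero =>
    intro C S R k E _ h0
    omega
  | succ m ihm =>
    intro C S R k E hc h0
    refine IHc.step h hL hpt hc ?_
    intro C' S' R' k' E' hc' h1
    exact ihm C' S' R' k' E' hc' (by omega)

omit [DecidableEq τ] in
/-- a single node is independent. -/
theorem Lin.pt (h : Nul n) (hL : Lin n Vs Ts l) (h2 : 2 ≤ Vs.card) : ∀ W ∈ Vs, n {W} ≤ 0 := by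
  intro W hW
  obtain ⟨y, hy, hyW⟩ := exists_mem_ne (show 1 < Vs.card by omega) W
  refine (h.mono {W} {W, y} ?_).trans (hL.pair hW hy (fun h => hyW h.symm))
  intro z hz
  rw [mem_singleton] at hz
  rw [hz]
  exact mem_insert_self _ _

omit [DecidableEq τ] in
/-- the number of nodes of a star. -/
theorem Lin.star_card (hL : Lin n Vs Ts l) {W : V} {S : Finset τ} (hS : S ⊆ Ts)
    (hW : ∀ T ∈ S, W ∈ l T) :
    ((insert W (S.biUnion l)).card : ℤ) = 1 + ∑ T ∈ S, ((l T).card - 1 : ℤ) := by
  have h0 : insert W (S.biUnion l) = insert W (S.biUnion (fun T => (l T).erase W)) := by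
    ext z
    simp only [mem_insert, mem_biUnion, mem_erase]
    by_cases hz : z = W
    · simp [hz]
    · simp [hz]
  rw [h0, card_insert_of_notMem (by simp), card_biUnion]
  · push_cast
    have h1 : ∀ T ∈ S, ((((l T).erase W).card : ℕ) : ℤ) = (l T).card - 1 := by
      intro T hT
      have := card_erase_add_one (hW T hT)
      omega
    rw [sum_congr rfl h1]
    ring
  · intro T hT T' hT' hne
    show Disjoint ((l T).erase W) ((l T').erase W)
    rw [disjoint_left]
    intro z hz hz'
    have h1 := hL.one T (hS hT) T' (hS hT') hne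
    have h2 : ({W, z} : Finset V) ⊆ l T ∩ l T' := by
      intro y hy
      rw [mem_insert, mem_singleton] at hy
      rcases hy with rfl | rfl
      · exact mem_inter.2 ⟨hW T hT, hW T' hT'⟩
      · exact mem_inter.2 ⟨(mem_erase.1 hz).2, (mem_erase.1 hz').2⟩
    have h3 := card_le_card h2
    rw [card_pair (fun h => (mem_erase.1 hz).1 h.symm)] at h3
    omega

omit [DecidableEq τ] in
/-- the dependency of a star in terms of the nullity. -/
theorem Lin.nst_eq (hL : Lin n Vs Ts l) {W : V} {S : Finset τ} (hS : S ⊆ Ts)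
    (hW : ∀ T ∈ S, W ∈ l T) :
    nst n l W S = n (insert W (S.biUnion l)) - ∑ T ∈ S, (((l T).card : ℤ) - 2) := by
  unfold nst rkn
  rw [hL.star_card hS hW, sum_sub_distrib, sum_sub_distrib, sum_const, sum_const]
  simp only [nsmul_eq_mul]
  ring

/-- THE SPARSE LEMMA, general form: stars at the centres `C` (with some of the lines through them)
and parts of lines with at least three nodes. -/
theorem Lin.main_gen (h : Nul n) (hL : Lin n Vs Ts l) (h2 : 2 ≤ Vs.card)
    (hc : Cfg Vs Ts l C S R k E) :
    ∑ W ∈ C, (n (insert W ((S W).biUnion l)) - ∑ T ∈ S W, (((l T).card : ℤ) - 2)) +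
      ∑ T ∈ R, ((k T : ℤ) - 2) ≤ n E := by
  have h1 := Cfg.le h hL (hL.pt h h2) (cmu C S R k E + 1) C S R k E hc (by omega)
  unfold cval at h1
  rw [sum_congr rfl (fun W hW => hL.nst_eq (hc.ST W hW) (hc.WT W hW))] at h1
  exact h1

/-- THE SPARSE LEMMA. -/
theorem Lin.main (h : Nul n) (hL : Lin n Vs Ts l) :
    ∑ W ∈ Vs, (n (insert W ((Ts.filter (fun T => W ∈ l T)).biUnion l)) -
      ∑ T ∈ Ts.filter (fun T => W ∈ l T), (((l T).card : ℤ) - 2)) +
      ∑ T ∈ Ts, (((l T).card : ℤ) - 2) ≤ n Vs := by
  by_cases h2 : 2 ≤ Vs.card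
  · have hc : Cfg Vs Ts l Vs (fun W => Ts.filter (fun T => W ∈ l T))
        (Ts.filter (fun T => 3 ≤ (l T).card)) (fun T => (l T).card) Vs := by
      refine ⟨subset_rfl, subset_rfl, fun W _ => filter_subset _ _,
        fun W _ T hT => (mem_filter.1 hT).2, ?_, filter_subset _ _,
        fun T hT => (mem_filter.1 hT).2, ?_⟩
      · intro W _ T hT
        have hT' := (mem_filter.1 hT).1
        rw [inter_eq_left.2 (hL.sub T hT')]
        exact hL.two T hT'
      · intro T hT
        have hT' := (mem_filter.1 hT).1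
        rw [inter_eq_left.2 (hL.sub T hT')]
    have h1 := hL.main_gen h h2 hc
    have h3 : ∑ T ∈ Ts.filter (fun T => 3 ≤ (l T).card), (((l T).card : ℤ) - 2) =
        ∑ T ∈ Ts, (((l T).card : ℤ) - 2) := by
      refine sum_subset (filter_subset _ _) fun T hT hT' => ?_
      have h4 := hL.two T hT
      have h5 : ¬ 3 ≤ (l T).card := fun h => hT' (mem_filter.2 ⟨hT, h⟩)
      have h6 : (l T).card = 2 := by omega
      rw [h6]
      norm_num
    rw [h3] at h1
    exact h1
  · have hTs : Ts = ∅ := by
      rw [eq_empty_iff_forall_notMem]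
      intro T hT
      have h3 := card_le_card (hL.sub T hT)
      have h4 := hL.two T hT
      omega
    subst hTs
    simp only [filter_empty, biUnion_empty, sum_empty, sub_zero, add_zero]
    rcases Vs.eq_empty_or_nonempty with h0 | ⟨W, hW⟩
    · subst h0
      rw [sum_empty, h.empty]
    · have h1 : Vs = {W} := by
        refine (eq_of_subset_of_card_le (singleton_subset_iff.2 hW) ?_).symm
        rw [card_singleton]
        omega
      rw [h1, sum_singleton, insert_empty]

end

end Pool.Agent.Hyp6.Sp
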