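import Mathlib
import Pool.Agent.Hyp6.L3Sp

/-!
# HYP6 L3Sp2: the deficiency of a bipartite graph is a nullity function
-/

set_option autoImplicit false

namespace Pool.Agent.Hyp6.Sp

open Finset

section

variable {V : Type*} [DecidableEq V] {α : Type*} [DecidableEq α]

/-- the deficiency of `U` into the nodes outside `D`. -/
def dfc (U : Finset α) (N : α → Finset V) (D : Finset V) : ℤ :=
  U.powerset.sup' ⟨∅, empty_mem_powerset U⟩ (fun B => (B.card : ℤ) - ((B.biUnion N) \ D).card)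

variable {U : Finset α} {N : α → Finset V} {D : Finset V}

omit [DecidableEq α] in
theorem le_dfc {B : Finset α} (hB : B ⊆ U) :
    (B.card : ℤ) - ((B.biUnion N) \ D).card ≤ dfc U N D :=
  le_sup' (fun B => (B.card : ℤ) - ((B.biUnion N) \ D).card) (mem_powerset.2 hB)

omit [DecidableEq α] in
theorem dfc_exists (U : Finset α) (N : α → Finset V) (D : Finset V) :
    ∃ B ⊆ U, dfc U N D = (B.card : ℤ) - ((B.biUnion N) \ D).card := by
  obtain ⟨B, hB, h⟩ := exists_mem_eq_sup' (⟨∅, empty_mem_powerset U⟩ : U.powerset.Nonempty)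
    (fun B => (B.card : ℤ) - ((B.biUnion N) \ D).card)
  exact ⟨B, mem_powerset.1 hB, h⟩

omit [DecidableEq α] in
theorem dfc_le {m : ℤ} (h : ∀ B ⊆ U, (B.card : ℤ) - ((B.biUnion N) \ D).card ≤ m) :
    dfc U N D ≤ m := by
  obtain ⟨B, hB, h1⟩ := dfc_exists U N D
  rw [h1]
  exact h B hB

omit [DecidableEq α] in
theorem dfc_nonneg : 0 ≤ dfc U N D := by
  have h := le_dfc (U := U) (N := N) (D := D) (empty_subset U)
  simpa using h

omit [DecidableEq α] in
theorem dfc_mono {D' : Finset V} (hD : D ⊆ D') : dfc U N D ≤ dfc U N D' := by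
  refine dfc_le fun B hB => ?_
  have h1 := le_dfc (U := U) (N := N) (D := D') hB
  have h2 : ((B.biUnion N) \ D').card ≤ ((B.biUnion N) \ D).card :=
    card_le_card (sdiff_subset_sdiff subset_rfl hD)
  omega

omit [DecidableEq α] in
theorem dfc_ins (v : V) : dfc U N (insert v D) ≤ dfc U N D + 1 := by
  refine dfc_le fun B hB => ?_
  have h1 := le_dfc (U := U) (N := N) (D := D) hB
  have h2 : (B.biUnion N) \ D ⊆ insert v ((B.biUnion N) \ insert v D) := by
    intro z hz
    rw [mem_sdiff] at hz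
    by_cases hzv : z = v
    · rw [hzv]
      exact mem_insert_self _ _
    · refine mem_insert_of_mem (mem_sdiff.2 ⟨hz.1, fun h => ?_⟩)
      rcases mem_insert.1 h with h | h
      · exact hzv h
      · exact hz.2 h
  have h3 := card_le_card h2
  have h4 := card_insert_le v ((B.biUnion N) \ insert v D)
  omega

theorem dfc_super (A B : Finset V) :
    dfc U N A + dfc U N B ≤ dfc U N (A ∪ B) + dfc U N (A ∩ B) := by
  obtain ⟨X, hX, h1⟩ := dfc_exists U N A
  obtain ⟨Y, hY, h2⟩ := dfc_exists U N B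
  have h3 := le_dfc (U := U) (N := N) (D := A ∪ B) (union_subset hX hY)
  have h4 := le_dfc (U := U) (N := N) (D := A ∩ B) (inter_subset_left.trans hX : X ∩ Y ⊆ U)
  have h5 := card_union_add_card_inter X Y
  have h6 : (((X ∪ Y).biUnion N) \ (A ∪ B)).card + (((X ∩ Y).biUnion N) \ (A ∩ B)).card ≤
      ((X.biUnion N) \ A).card + ((Y.biUnion N) \ B).card := by
    rw [← card_union_add_card_inter ((X.biUnion N) \ A) ((Y.biUnion N) \ B),
      ← card_union_add_card_inter (((X ∪ Y).biUnion N) \ (A ∪ B))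
        (((X ∩ Y).biUnion N) \ (A ∩ B))]
    refine add_le_add (card_le_card ?_) (card_le_card ?_)
    · intro z hz
      simp only [mem_union, mem_inter, mem_sdiff, mem_biUnion, not_or, not_and] at hz ⊢
      rcases hz with ⟨⟨u, hu | hu, hzu⟩, hzA, hzB⟩ | ⟨⟨u, ⟨huX, huY⟩, hzu⟩, hz⟩
      · exact Or.inl ⟨⟨u, hu, hzu⟩, hzA⟩
      · exact Or.inr ⟨⟨u, hu, hzu⟩, hzB⟩
      · by_cases hzA : z ∈ A
        · exact Or.inr ⟨⟨u, huY, hzu⟩, hz hzA⟩
        · exact Or.inl ⟨⟨u, huX, hzu⟩, hzA⟩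
    · intro z hz
      simp only [mem_union, mem_inter, mem_sdiff, mem_biUnion, not_or, not_and] at hz ⊢
      obtain ⟨⟨-, hzA, hzB⟩, ⟨u, ⟨huX, huY⟩, hzu⟩, -⟩ := hz
      exact ⟨⟨⟨u, huX, hzu⟩, hzA⟩, ⟨⟨u, huY, hzu⟩, hzB⟩⟩
  rw [h1, h2]
  omega

/-- the deficiency is a nullity function when Hall's condition holds. -/
theorem dfc_nul (hall : ∀ B ⊆ U, B.card ≤ (B.biUnion N).card) : Nul (dfc U N) where
  empty := by
    refine le_antisymm (dfc_le fun B hB => ?_) dfc_nonneg
    have := hall B hB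
    rw [sdiff_empty]
    omega
  mono := fun _ _ h => dfc_mono h
  ins := fun _ v => dfc_ins v
  super := dfc_super

omit [DecidableEq α] in
/-- a matching of `U` into the nodes outside `D`. -/
theorem exists_match (h : dfc U N D ≤ 0) :
    ∃ f : {u // u ∈ U} → V, Function.Injective f ∧
      ∀ u : {u // u ∈ U}, f u ∈ N u.1 ∧ f u ∉ D := by
  have h1 : ∀ s : Finset {u // u ∈ U}, s.card ≤ (s.biUnion (fun u => N u.1 \ D)).card := by
    intro s
    have hsub : s.map (Function.Embedding.subtype _) ⊆ U := by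
      intro u hu
      obtain ⟨v, -, rfl⟩ := mem_map.1 hu
      exact v.2
    have h2 := le_dfc (U := U) (N := N) (D := D) hsub
    rw [card_map] at h2
    have h3 : (s.map (Function.Embedding.subtype _)).biUnion N \ D =
        s.biUnion (fun u => N u.1 \ D) := by
      ext z
      simp only [mem_sdiff, mem_biUnion, mem_map, Function.Embedding.coe_subtype]
      constructor
      · rintro ⟨⟨u, ⟨v, hv, rfl⟩, hz⟩, hzD⟩
        exact ⟨v, hv, hz, hzD⟩
      · rintro ⟨v, hv, hz, hzD⟩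
        exact ⟨⟨v, ⟨v, hv, rfl⟩, hz⟩, hzD⟩
    rw [h3] at h2
    omega
  obtain ⟨f, hf, hf2⟩ := (all_card_le_biUnion_card_iff_exists_injective _).1 h1
  exact ⟨f, hf, fun u => mem_sdiff.1 (hf2 u)⟩

omit [DecidableEq α] in
/-- the converse. -/
theorem dfc_le_zero (f : α → V) (hf : Set.InjOn f U) (h : ∀ u ∈ U, f u ∈ N u ∧ f u ∉ D) :
    dfc U N D ≤ 0 := by
  refine dfc_le fun B hB => ?_
  have h1 : B.image f ⊆ (B.biUnion N) \ D := by
    intro z hz
    obtain ⟨u, hu, rfl⟩ := mem_image.1 hz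
    exact mem_sdiff.2 ⟨mem_biUnion.2 ⟨u, hu, (h u (hB hu)).1⟩, (h u (hB hu)).2⟩
  have h2 := card_le_card h1
  rw [card_image_of_injOn (hf.mono (by exact_mod_cast hB))] at h2
  omega

end

end Pool.Agent.Hyp6.Sp
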