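import Mathlib
import Pool.Agent.Hyp6.L3Sp2

/-!
# HYP6 L3Nd0: the partition of the nodes into dense classes

Nodes `Fn`, the nodes of weight one `Fl` (leaves; the others have weight zero), points `u` of `U` with
neighbour sets `N u`, triples `T` of `Ts` with neighbour sets `NT T`. A class is valid if it is
connected through the points and triples inside and `2 (w - U) - 2 ≤ K`. In a partition with the
fewest valid classes every set of classes is sparse.
-/

set_option autoImplicit false

namespace Pool.Agent.Hyp6.Sp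

open Finset

section

variable {L : Type*} [DecidableEq L] {α : Type*} {τ : Type*}

/-- the data. -/
structure Gd (Fn Fl : Finset L) (U : Finset α) (N : α → Finset L) (Ts : Finset τ)
    (NT : τ → Finset L) : Prop where
  sub : Fl ⊆ Fn
  NU : ∀ u ∈ U, N u ⊆ Fn
  NTs : ∀ T ∈ Ts, NT T ⊆ Fn
  sur : ∀ B ⊆ U, B.Nonempty → B.card + 1 ≤ ((B.biUnion N) ∩ Fl).card

/-- the triples inside `C`. -/
def Kin (Ts : Finset τ) (NT : τ → Finset L) (C : Finset L) : Finset τ :=
  Ts.filter (fun T => (NT T).Nonempty ∧ NT T ⊆ C)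

/-- the points inside `C`. -/
def Uin (U : Finset α) (N : α → Finset L) (C : Finset L) : Finset α :=
  U.filter (fun u => N u ⊆ C)

/-- `C` is connected through the triples and points inside. -/
def Cnn (U : Finset α) (N : α → Finset L) (Ts : Finset τ) (NT : τ → Finset L)
    (C : Finset L) : Prop :=
  ∀ A ⊆ C, A.Nonempty → A ≠ C →
    (∃ T ∈ Kin Ts NT C, ¬ NT T ⊆ A ∧ ¬ NT T ⊆ C \ A) ∨
      (∃ u ∈ Uin U N C, ¬ N u ⊆ A ∧ ¬ N u ⊆ C \ A)

/-- valid classes. -/
structure Vc (Fn Fl : Finset L) (U : Finset α) (N : α → Finset L) (Ts : Finset τ)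
    (NT : τ → Finset L) (C : Finset L) : Prop where
  sub : C ⊆ Fn
  ne : C.Nonempty
  dens : 2 * (((C ∩ Fl).card : ℤ) - (Uin U N C).card) - 2 ≤ (Kin Ts NT C).card
  conn : Cnn U N Ts NT C

/-- partitions into valid classes. -/
structure Ptn (Fn Fl : Finset L) (U : Finset α) (N : α → Finset L) (Ts : Finset τ)
    (NT : τ → Finset L) (P : Finset (Finset L)) : Prop where
  vc : ∀ C ∈ P, Vc Fn Fl U N Ts NT C
  dj : ∀ C ∈ P, ∀ D ∈ P, C ≠ D → Disjoint C D
  un : P.biUnion id = Fn

/-- partitions with the fewest valid classes. -/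
structure MinP (Fn Fl : Finset L) (U : Finset α) (N : α → Finset L) (Ts : Finset τ)
    (NT : τ → Finset L) (P : Finset (Finset L)) : Prop where
  ptn : Ptn Fn Fl U N Ts NT P
  min : ∀ P', Ptn Fn Fl U N Ts NT P' → P.card ≤ P'.card

variable {Fn Fl : Finset L} {U : Finset α} {N : α → Finset L} {Ts : Finset τ}
  {NT : τ → Finset L}

theorem Gd.N_ne (h : Gd Fn Fl U N Ts NT) {u : α} (hu : u ∈ U) : (N u).Nonempty := by
  have h1 := h.sur {u} (singleton_subset_iff.2 hu) (singleton_nonempty u)
  rw [singleton_biUnion, card_singleton] at h1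
  have h2 : 0 < (N u ∩ Fl).card := by omega
  obtain ⟨x, hx⟩ := card_pos.1 h2
  exact ⟨x, (mem_inter.1 hx).1⟩

theorem Gd.two_leaf (h : Gd Fn Fl U N Ts NT) {u : α} (hu : u ∈ U) : 2 ≤ (N u ∩ Fl).card := by
  have h1 := h.sur {u} (singleton_subset_iff.2 hu) (singleton_nonempty u)
  rwa [singleton_biUnion, card_singleton] at h1

theorem vc_single {x : L} (hx : x ∈ Fn) :
    Vc Fn Fl U N Ts NT {x} where
  sub := singleton_subset_iff.2 hx
  ne := singleton_nonempty x
  dens := by
    have h1 : (({x} : Finset L) ∩ Fl).card ≤ 1 := by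
      refine (card_le_card inter_subset_left).trans ?_
      rw [card_singleton]
    have h2 : (0 : ℤ) ≤ ((Uin U N {x}).card : ℤ) := by positivity
    have h3 : (0 : ℤ) ≤ ((Kin Ts NT {x}).card : ℤ) := by positivity
    have h4 : ((({x} : Finset L) ∩ Fl).card : ℤ) ≤ 1 := by exact_mod_cast h1
    linarith
  conn := by
    intro A hA hne hA'
    exact absurd ((subset_singleton_iff.1 hA).resolve_left hne.ne_empty) hA'

theorem ptn_single :
    Ptn Fn Fl U N Ts NT (Fn.image (fun x => ({x} : Finset L))) where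
  vc := by
    intro C hC
    obtain ⟨x, hx, rfl⟩ := mem_image.1 hC
    exact vc_single hx
  dj := by
    intro C hC D hD hne
    obtain ⟨x, _, rfl⟩ := mem_image.1 hC
    obtain ⟨y, _, rfl⟩ := mem_image.1 hD
    rw [disjoint_singleton]
    rintro rfl
    exact hne rfl
  un := by
    ext x
    simp only [mem_biUnion, mem_image, id]
    constructor
    · rintro ⟨C, ⟨y, hy, rfl⟩, hx⟩
      rw [mem_singleton] at hx
      exact hx ▸ hy
    · intro hx
      exact ⟨{x}, ⟨x, hx, rfl⟩, mem_singleton_self x⟩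

theorem exists_minP (Fn Fl : Finset L) (U : Finset α) (N : α → Finset L) (Ts : Finset τ)
    (NT : τ → Finset L) : ∃ P, MinP Fn Fl U N Ts NT P := by
  classical
  have key : ∀ P, Ptn Fn Fl U N Ts NT P → P ∈ Fn.powerset.powerset := by
    intro P hP
    rw [mem_powerset]
    intro C hC
    exact mem_powerset.2 (hP.vc C hC).sub
  have h0 : Ptn Fn Fl U N Ts NT (Fn.image (fun x => ({x} : Finset L))) := ptn_single
  obtain ⟨P, hP, hmin⟩ := Finset.exists_min_image
    (Fn.powerset.powerset.filter (fun P => Ptn Fn Fl U N Ts NT P)) Finset.card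
    ⟨_, mem_filter.2 ⟨key _ h0, h0⟩⟩
  exact ⟨P, (mem_filter.1 hP).2, fun P' hP' => hmin P' (mem_filter.2 ⟨key P' hP', hP'⟩)⟩

/-- the triples which are in no class. -/
def Tx (Ts : Finset τ) (NT : τ → Finset L) (P : Finset (Finset L)) : Finset τ :=
  Ts.filter (fun T => (NT T).Nonempty ∧ ∀ C ∈ P, ¬ NT T ⊆ C)

/-- the points which are in no class. -/
def Ux (U : Finset α) (N : α → Finset L) (P : Finset (Finset L)) : Finset α :=
  U.filter (fun u => ∀ C ∈ P, ¬ N u ⊆ C)

/-- the crossing triples inside the set `A` of classes. -/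
def KK (Ts : Finset τ) (NT : τ → Finset L) (P A : Finset (Finset L)) : Finset τ :=
  (Tx Ts NT P).filter (fun T => NT T ⊆ A.biUnion id)

/-- the crossing points inside the set `A` of classes. -/
def UU (U : Finset α) (N : α → Finset L) (P A : Finset (Finset L)) : Finset α :=
  (Ux U N P).filter (fun u => N u ⊆ A.biUnion id)

/-- the number of classes with a leaf. -/
def wl (Fl : Finset L) (A : Finset (Finset L)) : ℕ :=
  (A.filter (fun C => (C ∩ Fl).Nonempty)).card

/-- sets of classes connected through the crossing triples and points inside. -/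
def Cnc (U : Finset α) (N : α → Finset L) (Ts : Finset τ) (NT : τ → Finset L)
    (P A : Finset (Finset L)) : Prop :=
  ∀ B ⊆ A, B.Nonempty → B ≠ A →
    (∃ T ∈ KK Ts NT P A, ¬ NT T ⊆ B.biUnion id ∧ ¬ NT T ⊆ (A \ B).biUnion id) ∨
      (∃ u ∈ UU U N P A, ¬ N u ⊆ B.biUnion id ∧ ¬ N u ⊆ (A \ B).biUnion id)

variable {P : Finset (Finset L)}

theorem biUnion_sdiff_eq (hdj : ∀ C ∈ P, ∀ D ∈ P, C ≠ D → Disjoint C D)
    {A B : Finset (Finset L)} (hA : A ⊆ P) (hB : B ⊆ A) :
    (A \ B).biUnion id = A.biUnion id \ B.biUnion id := by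
  ext x
  simp only [mem_biUnion, mem_sdiff, id]
  constructor
  · rintro ⟨C, ⟨hC, hCB⟩, hx⟩
    refine ⟨⟨C, hC, hx⟩, ?_⟩
    rintro ⟨D, hD, hxD⟩
    have hne : C ≠ D := fun h => hCB (h ▸ hD)
    exact disjoint_left.1 (hdj C (hA hC) D (hA (hB hD)) hne) hx hxD
  · rintro ⟨⟨C, hC, hx⟩, hn⟩
    exact ⟨C, ⟨hC, fun hCB => hn ⟨C, hCB, hx⟩⟩, hx⟩

theorem Ptn.merge_conn (h : Ptn Fn Fl U N Ts NT P) {A : Finset (Finset L)} (hA : A ⊆ P)
    (hc : Cnc U N Ts NT P A) : Cnn U N Ts NT (A.biUnion id) := by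
  intro X hX hXne hXA
  by_cases hs : ∃ C ∈ A, (C ∩ X).Nonempty ∧ C ∩ X ≠ C
  · obtain ⟨C, hC, h1, h2⟩ := hs
    have hCA : C ⊆ A.biUnion id := subset_biUnion_of_mem id hC
    rcases (h.vc C (hA hC)).conn (C ∩ X) inter_subset_left h1 h2 with ⟨T, hT, h3, h4⟩ |
      ⟨u, hu, h3, h4⟩
    · obtain ⟨hT1, hT2, hT3⟩ := mem_filter.1 hT
      refine Or.inl ⟨T, mem_filter.2 ⟨hT1, hT2, hT3.trans hCA⟩, ?_, ?_⟩
      · exact fun h5 => h3 (subset_inter hT3 h5)
      · intro h5
        refine h4 fun x hx => mem_sdiff.2 ⟨hT3 hx, fun hx2 => ?_⟩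
        exact (mem_sdiff.1 (h5 hx)).2 (mem_inter.1 hx2).2
    · obtain ⟨hu1, hu3⟩ := mem_filter.1 hu
      refine Or.inr ⟨u, mem_filter.2 ⟨hu1, hu3.trans hCA⟩, ?_, ?_⟩
      · exact fun h5 => h3 (subset_inter hu3 h5)
      · intro h5
        refine h4 fun x hx => mem_sdiff.2 ⟨hu3 hx, fun hx2 => ?_⟩
        exact (mem_sdiff.1 (h5 hx)).2 (mem_inter.1 hx2).2
  · push Not at hs
    set B := A.filter (fun C => (C ∩ X).Nonempty) with hB
    have hBA : B ⊆ A := filter_subset _ _
    have hBX : B.biUnion id = X := by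
      ext x
      simp only [mem_biUnion, id]
      constructor
      · rintro ⟨C, hC, hx⟩
        obtain ⟨hC1, hC2⟩ := mem_filter.1 hC
        have h3 := hs C hC1 hC2
        rw [← h3] at hx
        exact (mem_inter.1 hx).2
      · intro hx
        obtain ⟨C, hC, hxC⟩ := mem_biUnion.1 (hX hx)
        exact ⟨C, mem_filter.2 ⟨hC, x, mem_inter.2 ⟨hxC, hx⟩⟩, hxC⟩
    have hBne : B.Nonempty := by
      obtain ⟨x, hx⟩ := hXne
      rw [← hBX] at hx
      obtain ⟨C, hC, _⟩ := mem_biUnion.1 hx
      exact ⟨C, hC⟩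
    have hBA' : B ≠ A := by
      intro h5
      rw [h5] at hBX
      exact hXA hBX.symm
    have hdiff := biUnion_sdiff_eq h.dj hA hBA
    rw [hBX] at hdiff
    rcases hc B hBA hBne hBA' with ⟨T, hT, h3, h4⟩ | ⟨u, hu, h3, h4⟩
    · rw [hBX] at h3
      rw [hdiff] at h4
      obtain ⟨hT1, hT2⟩ := mem_filter.1 hT
      obtain ⟨hT3, hT4, -⟩ := mem_filter.1 hT1
      exact Or.inl ⟨T, mem_filter.2 ⟨hT3, hT4, hT2⟩, h3, h4⟩
    · rw [hBX] at h3
      rw [hdiff] at h4
      obtain ⟨hu1, hu2⟩ := mem_filter.1 hu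
      exact Or.inr ⟨u, mem_filter.2 ⟨(mem_filter.1 hu1).1, hu2⟩, h3, h4⟩

theorem Ptn.merge_dens [DecidableEq α] [DecidableEq τ] (hg : Gd Fn Fl U N Ts NT)
    (h : Ptn Fn Fl U N Ts NT P) {A : Finset (Finset L)} (hA : A ⊆ P)
    (hd : 2 * ((wl Fl A : ℤ) - (UU U N P A).card) - 2 ≤ (KK Ts NT P A).card) :
    2 * (((A.biUnion id ∩ Fl).card : ℤ) - (Uin U N (A.biUnion id)).card) - 2 ≤
      (Kin Ts NT (A.biUnion id)).card := by
  have h1 : ((A.biUnion id ∩ Fl).card : ℤ) = ∑ C ∈ A, ((C ∩ Fl).card : ℤ) := by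
    have e1 : A.biUnion id ∩ Fl = A.biUnion (fun C => C ∩ Fl) := by
      ext x
      simp only [mem_inter, mem_biUnion, id]
      constructor
      · rintro ⟨⟨C, hC, hx⟩, hx2⟩
        exact ⟨C, hC, hx, hx2⟩
      · rintro ⟨C, hC, hx, hx2⟩
        exact ⟨⟨C, hC, hx⟩, hx2⟩
    rw [e1, card_biUnion]
    · push_cast
      rfl
    · intro C hC D hD hne
      show Disjoint (C ∩ Fl) (D ∩ Fl)
      exact disjoint_of_subset_left inter_subset_left (disjoint_of_subset_right inter_subset_left
        (h.dj C (hA hC) D (hA hD) hne))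
  have h2 : ∑ C ∈ A, (Uin U N C).card + (UU U N P A).card ≤ (Uin U N (A.biUnion id)).card := by
    rw [← card_biUnion, ← card_union_of_disjoint]
    · refine card_le_card (union_subset ?_ ?_)
      · intro u hu
        obtain ⟨C, hC, hu⟩ := mem_biUnion.1 hu
        obtain ⟨hu1, hu2⟩ := mem_filter.1 hu
        exact mem_filter.2 ⟨hu1, hu2.trans (subset_biUnion_of_mem id hC)⟩
      · intro u hu
        obtain ⟨hu1, hu2⟩ := mem_filter.1 hu
        exact mem_filter.2 ⟨(mem_filter.1 hu1).1, hu2⟩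
    · rw [disjoint_left]
      intro u hu hu'
      obtain ⟨C, hC, hu⟩ := mem_biUnion.1 hu
      exact (mem_filter.1 (mem_filter.1 hu').1).2 C (hA hC) (mem_filter.1 hu).2
    · intro C hC D hD hne
      show Disjoint (Uin U N C) (Uin U N D)
      rw [disjoint_left]
      intro u hu hu'
      obtain ⟨hu1, hu2⟩ := mem_filter.1 hu
      obtain ⟨x, hx⟩ := hg.N_ne hu1
      exact disjoint_left.1 (h.dj C (hA hC) D (hA hD) hne) (hu2 hx) ((mem_filter.1 hu').2 hx)
  have h3 : ∑ C ∈ A, (Kin Ts NT C).card + (KK Ts NT P A).card ≤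
      (Kin Ts NT (A.biUnion id)).card := by
    rw [← card_biUnion, ← card_union_of_disjoint]
    · refine card_le_card (union_subset ?_ ?_)
      · intro T hT
        obtain ⟨C, hC, hT⟩ := mem_biUnion.1 hT
        obtain ⟨hT1, hT2, hT3⟩ := mem_filter.1 hT
        exact mem_filter.2 ⟨hT1, hT2, hT3.trans (subset_biUnion_of_mem id hC)⟩
      · intro T hT
        obtain ⟨hT1, hT2⟩ := mem_filter.1 hT
        obtain ⟨hT3, hT4, -⟩ := mem_filter.1 hT1
        exact mem_filter.2 ⟨hT3, hT4, hT2⟩
    · rw [disjoint_left]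
      intro T hT hT'
      obtain ⟨C, hC, hT⟩ := mem_biUnion.1 hT
      exact (mem_filter.1 (mem_filter.1 hT').1).2.2 C (hA hC) (mem_filter.1 hT).2.2
    · intro C hC D hD hne
      show Disjoint (Kin Ts NT C) (Kin Ts NT D)
      rw [disjoint_left]
      intro T hT hT'
      obtain ⟨hT1, ⟨x, hx⟩, hT3⟩ := mem_filter.1 hT
      exact disjoint_left.1 (h.dj C (hA hC) D (hA hD) hne) (hT3 hx)
        ((mem_filter.1 hT').2.2 hx)
  have h4 : ∑ C ∈ A, (2 * (((C ∩ Fl).card : ℤ) - (Uin U N C).card) -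
      (if (C ∩ Fl).Nonempty then 2 else 0)) ≤ ∑ C ∈ A, ((Kin Ts NT C).card : ℤ) := by
    refine sum_le_sum fun C hC => ?_
    split_ifs with hne
    · exact (h.vc C (hA hC)).dens
    · rw [not_nonempty_iff_eq_empty] at hne
      rw [hne, card_empty]
      have e1 : (0 : ℤ) ≤ ((Uin U N C).card : ℤ) := by positivity
      have e2 : (0 : ℤ) ≤ ((Kin Ts NT C).card : ℤ) := by positivity
      push_cast
      linarith
  have h5 : ∑ C ∈ A, (if (C ∩ Fl).Nonempty then (2 : ℤ) else 0) = 2 * (wl Fl A : ℤ) := by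
    rw [← sum_filter, sum_const, nsmul_eq_mul]
    unfold wl
    ring
  rw [sum_sub_distrib, h5, ← mul_sum, sum_sub_distrib] at h4
  have h2' : ∑ C ∈ A, ((Uin U N C).card : ℤ) + (UU U N P A).card ≤
      (Uin U N (A.biUnion id)).card := by exact_mod_cast h2
  have h3' : ∑ C ∈ A, ((Kin Ts NT C).card : ℤ) + (KK Ts NT P A).card ≤
      (Kin Ts NT (A.biUnion id)).card := by exact_mod_cast h3
  rw [h1]
  linarith

/-- connected sets of at least two classes are sparse. -/
theorem MinP.merge [DecidableEq α] [DecidableEq τ] (hg : Gd Fn Fl U N Ts NT)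
    (h : MinP Fn Fl U N Ts NT P) {A : Finset (Finset L)} (hA : A ⊆ P) (h2 : 2 ≤ A.card)
    (hc : Cnc U N Ts NT P A) :
    ((KK Ts NT P A).card : ℤ) ≤ 2 * ((wl Fl A : ℤ) - (UU U N P A).card) - 3 := by
  by_contra hcon
  have hp := h.ptn
  have hd : 2 * ((wl Fl A : ℤ) - (UU U N P A).card) - 2 ≤ (KK Ts NT P A).card := by omega
  have hnew : Ptn Fn Fl U N Ts NT (insert (A.biUnion id) (P \ A)) := by
    refine ⟨fun C hC => ?_, fun C hC D hD hne => ?_, ?_⟩
    · rcases mem_insert.1 hC with rfl | hC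
      · refine ⟨?_, ?_, hp.merge_dens hg hA hd, hp.merge_conn hA hc⟩
        · intro x hx
          obtain ⟨C, hC, hx⟩ := mem_biUnion.1 hx
          exact (hp.vc C (hA hC)).sub hx
        · obtain ⟨C, hC⟩ := card_pos.1 (show 0 < A.card by omega)
          obtain ⟨x, hx⟩ := (hp.vc C (hA hC)).ne
          exact ⟨x, mem_biUnion.2 ⟨C, hC, hx⟩⟩
      · exact hp.vc C (mem_sdiff.1 hC).1
    · have key : ∀ D ∈ P \ A, Disjoint (A.biUnion id) D := by
        intro D hD
        rw [disjoint_biUnion_left]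
        intro C hC
        refine hp.dj C (hA hC) D (mem_sdiff.1 hD).1 ?_
        rintro rfl
        exact (mem_sdiff.1 hD).2 hC
      rcases mem_insert.1 hC with hC1 | hC1
      · rcases mem_insert.1 hD with hD1 | hD1
        · exact absurd (hC1.trans hD1.symm) hne
        · rw [hC1]
          exact key D hD1
      · rcases mem_insert.1 hD with hD1 | hD1
        · rw [hD1]
          exact (key C hC1).symm
        · exact hp.dj C (mem_sdiff.1 hC1).1 D (mem_sdiff.1 hD1).1 hne
    · rw [← hp.un, biUnion_insert, id]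
      ext x
      simp only [mem_union, mem_biUnion, mem_sdiff, id]
      constructor
      · rintro (⟨C, hC, hx⟩ | ⟨C, hC, hx⟩)
        · exact ⟨C, hA hC, hx⟩
        · exact ⟨C, hC.1, hx⟩
      · rintro ⟨C, hC, hx⟩
        by_cases hCA : C ∈ A
        · exact Or.inl ⟨C, hCA, hx⟩
        · exact Or.inr ⟨C, ⟨hC, hCA⟩, hx⟩
  have h3 := h.min _ hnew
  have h4 := card_insert_le (A.biUnion id) (P \ A)
  have h5 := card_sdiff_add_card_eq_card hA
  omega

/-- the constant. -/
def kap (m : ℕ) : ℤ := if m = 0 then 0 else if m = 1 then 2 else 3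

theorem kap_add (a b : ℕ) : kap (a + b) ≤ kap a + kap b := by
  unfold kap
  split_ifs <;> omega

theorem wl_add {A B : Finset (Finset L)} (hB : B ⊆ A) : wl Fl B + wl Fl (A \ B) = wl Fl A := by
  unfold wl
  rw [← card_union_of_disjoint]
  · congr 1
    rw [← filter_union, union_sdiff_of_subset hB]
  · exact disjoint_filter_filter disjoint_sdiff

/-- **every set of classes is sparse**. -/
theorem MinP.sparse [DecidableEq α] [DecidableEq τ] (hg : Gd Fn Fl U N Ts NT)
    (h : MinP Fn Fl U N Ts NT P) : ∀ (k : ℕ) (A : Finset (Finset L)), A ⊆ P → A.Nonempty →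
    A.card ≤ k → ((KK Ts NT P A).card : ℤ) ≤ 2 * ((wl Fl A : ℤ) - (UU U N P A).card) -
      kap (wl Fl A) := by
  intro k
  induction k with
  | zero =>
    intro A _ hne hk
    have := card_pos.2 hne
    omega
  | succ k ih =>
    intro A hA hne hk
    by_cases h1 : A.card = 1
    · obtain ⟨C, rfl⟩ := card_eq_one.1 h1
      have hCP : C ∈ P := hA (mem_singleton_self C)
      have e1 : KK Ts NT P {C} = ∅ := by
        rw [eq_empty_iff_forall_notMem]
        intro T hT
        obtain ⟨hT1, hT2⟩ := mem_filter.1 hT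
        rw [singleton_biUnion] at hT2
        exact (mem_filter.1 hT1).2.2 C hCP hT2
      have e2 : UU U N P {C} = ∅ := by
        rw [eq_empty_iff_forall_notMem]
        intro T hT
        obtain ⟨hT1, hT2⟩ := mem_filter.1 hT
        rw [singleton_biUnion] at hT2
        exact (mem_filter.1 hT1).2 C hCP hT2
      have e3 : wl Fl {C} ≤ 1 := by
        unfold wl
        exact (card_filter_le _ _).trans (by rw [card_singleton])
      rw [e1, e2, card_empty, card_empty]
      unfold kap
      split_ifs <;> omega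
    · have h2 : 2 ≤ A.card := by
        have := card_pos.2 hne
        omega
      by_cases hc : Cnc U N Ts NT P A
      · have h3 := h.merge hg hA h2 hc
        have h4 : (0 : ℤ) ≤ ((KK Ts NT P A).card : ℤ) := by positivity
        have h5 : (0 : ℤ) ≤ ((UU U N P A).card : ℤ) := by positivity
        unfold kap
        split_ifs <;> omega
      · unfold Cnc at hc
        push Not at hc
        obtain ⟨B, hB, hBne, hBA, hT, hu⟩ := hc
        have hBc : B.card < A.card := card_lt_card (hB.ssubset_of_ne hBA)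
        have hAB : (A \ B).Nonempty := by
          rw [sdiff_nonempty]
          exact fun h5 => hBA (hB.antisymm h5)
        have hcc := card_sdiff_add_card_eq_card hB
        have hBpos := card_pos.2 hBne
        have i1 := ih B (hB.trans hA) hBne (by omega)
        have i2 := ih (A \ B) (sdiff_subset.trans hA) hAB (by omega)
        have hT' : (KK Ts NT P A).card ≤ (KK Ts NT P B).card + (KK Ts NT P (A \ B)).card := by
          refine le_trans (card_le_card ?_) (card_union_le _ _)
          intro T hT1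
          obtain ⟨hT2, hT3⟩ := mem_filter.1 hT1
          by_cases hT4 : NT T ⊆ B.biUnion id
          · exact mem_union_left _ (mem_filter.2 ⟨hT2, hT4⟩)
          · exact mem_union_right _ (mem_filter.2 ⟨hT2, hT T hT1 hT4⟩)
        have hu' : (UU U N P A).card ≤ (UU U N P B).card + (UU U N P (A \ B)).card := by
          refine le_trans (card_le_card ?_) (card_union_le _ _)
          intro T hT1
          obtain ⟨hT2, hT3⟩ := mem_filter.1 hT1
          by_cases hT4 : N T ⊆ B.biUnion id
          · exact mem_union_left _ (mem_filter.2 ⟨hT2, hT4⟩)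
          · exact mem_union_right _ (mem_filter.2 ⟨hT2, hu T hT1 hT4⟩)
        have hu'' : (UU U N P B).card + (UU U N P (A \ B)).card ≤ (UU U N P A).card := by
          rw [← card_union_of_disjoint]
          · refine card_le_card (union_subset ?_ ?_)
            · intro u hu1
              obtain ⟨hu2, hu3⟩ := mem_filter.1 hu1
              exact mem_filter.2 ⟨hu2, hu3.trans (biUnion_subset_biUnion_of_subset_left id hB)⟩
            · intro u hu1
              obtain ⟨hu2, hu3⟩ := mem_filter.1 hu1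
              exact mem_filter.2 ⟨hu2, hu3.trans
                (biUnion_subset_biUnion_of_subset_left id sdiff_subset)⟩
          · rw [disjoint_left]
            intro u hu1 hu2
            obtain ⟨hu3, hu4⟩ := mem_filter.1 hu1
            obtain ⟨-, hu5⟩ := mem_filter.1 hu2
            obtain ⟨x, hx⟩ := hg.N_ne (mem_filter.1 hu3).1
            rw [biUnion_sdiff_eq h.ptn.dj hA hB] at hu5
            exact (mem_sdiff.1 (hu5 hx)).2 (hu4 hx)
        have hw := wl_add (Fl := Fl) hB
        have hk' := kap_add (wl Fl B) (wl Fl (A \ B))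
        rw [hw] at hk'
        have hw' : (wl Fl B : ℤ) + wl Fl (A \ B) = wl Fl A := by exact_mod_cast hw
        have hT'' : ((KK Ts NT P A).card : ℤ) ≤ (KK Ts NT P B).card +
            (KK Ts NT P (A \ B)).card := by exact_mod_cast hT'
        have hu3 : ((UU U N P A).card : ℤ) ≤ (UU U N P B).card +
            (UU U N P (A \ B)).card := by exact_mod_cast hu'
        linarith

end

end Pool.Agent.Hyp6.Sp
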