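import Mathlib
import Pool.Agent.Hyp6.L3Nd0

/-!
# HYP6 L3Nd1: the matroid of the classes, lines, free sets
-/

set_option autoImplicit false

namespace Pool.Agent.Hyp6.Sp

open Finset

section

variable {V : Type*} [DecidableEq V] {n : Finset V → ℤ}

/-- the closure. -/
def clo (n : Finset V → ℤ) (Vs A : Finset V) : Finset V :=
  Vs.filter (fun v => rkn n (insert v A) ≤ rkn n A)

theorem subset_clo {Vs A : Finset V} (hA : A ⊆ Vs) : A ⊆ clo n Vs A := fun v hv =>
  mem_filter.2 ⟨hA hv, by rw [insert_eq_of_mem hv]⟩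

theorem clo_subset {Vs A : Finset V} : clo n Vs A ⊆ Vs := filter_subset _ _

theorem Nul.rk_union_le (h : Nul n) {A X : Finset V} (hX : ∀ v ∈ X, rkn n (insert v A) ≤ rkn n A) :
    rkn n (A ∪ X) ≤ rkn n A := by
  induction X using Finset.induction_on with
  | empty => rw [union_empty]
  | insert v X _ ih =>
    have h1 := ih (fun w hw => hX w (mem_insert_of_mem hw))
    have h2 := hX v (mem_insert_self v X)
    have h3 := h.rk_sub (A ∪ X) (insert v A)
    have h4 : rkn n A ≤ rkn n ((A ∪ X) ∩ insert v A) :=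
      h.rk_mono (subset_inter subset_union_left (subset_insert v A))
    have h5 : A ∪ insert v X = (A ∪ X) ∪ insert v A := by
      ext w
      simp only [mem_union, mem_insert]
      tauto
    rw [h5]
    linarith

theorem Nul.rk_clo (h : Nul n) {Vs A : Finset V} (hA : A ⊆ Vs) :
    rkn n (clo n Vs A) = rkn n A := by
  refine le_antisymm ?_ (h.rk_mono (subset_clo hA))
  have h1 := h.rk_union_le (A := A) (X := clo n Vs A) (fun v hv => (mem_filter.1 hv).2)
  exact (h.rk_mono subset_union_right).trans h1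

/-- elements of a set of the same rank are in the closure. -/
theorem Nul.mem_clo (h : Nul n) {Vs A X : Finset V} (hAX : A ⊆ X) (hXV : X ⊆ Vs)
    (hr : rkn n X ≤ rkn n A) : X ⊆ clo n Vs A := fun _ hv =>
  mem_filter.2 ⟨hXV hv, (h.rk_mono (insert_subset hv hAX)).trans hr⟩

theorem Nul.clo_mono (h : Nul n) {Vs A B : Finset V} (hAB : A ⊆ B) :
    clo n Vs A ⊆ clo n Vs B := by
  intro v hv
  obtain ⟨h1, h2⟩ := mem_filter.1 hv
  refine mem_filter.2 ⟨h1, ?_⟩
  have h3 := h.rk_sub B (insert v A)
  have h4 : rkn n A ≤ rkn n (B ∩ insert v A) :=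
    h.rk_mono (subset_inter hAB (subset_insert v A))
  have h5 : insert v B = B ∪ insert v A := by
    ext w
    simp only [mem_union, mem_insert]
    constructor
    · rintro (rfl | hw)
      · exact Or.inr (Or.inl rfl)
      · exact Or.inl hw
    · rintro (hw | rfl | hw)
      · exact Or.inr hw
      · exact Or.inl rfl
      · exact Or.inr (hAB hw)
  rw [h5]
  linarith

theorem Nul.clo_clo (h : Nul n) {Vs A : Finset V} (hA : A ⊆ Vs) {v : V} (hv : v ∈ Vs)
    (hr : rkn n (insert v (clo n Vs A)) ≤ rkn n (clo n Vs A)) : v ∈ clo n Vs A := by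
  rw [h.rk_clo hA] at hr
  exact mem_filter.2 ⟨hv, (h.rk_mono (insert_subset_insert v (subset_clo hA))).trans hr⟩

/-- extension of an independent set to a basis. -/
theorem Nul.exists_basis (h : Nul n) : ∀ (k : ℕ) (I X : Finset V), (X \ I).card ≤ k → I ⊆ X →
    n I ≤ 0 → ∃ J, I ⊆ J ∧ J ⊆ X ∧ n J = 0 ∧ (J.card : ℤ) = rkn n X := by
  intro k
  induction k with
  | zero =>
    intro I X hk hI hn
    have h0 : X \ I = ∅ := card_eq_zero.1 (by omega)
    have h1 : X = I := (sdiff_eq_empty_iff_subset.1 h0).antisymm hI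
    have h2 := h.nonneg I
    subst h1
    refine ⟨X, Subset.refl _, Subset.refl _, by omega, ?_⟩
    unfold rkn
    omega
  | succ k ih =>
    intro I X hk hI hn
    have hn0 := h.nonneg I
    by_cases hex : ∃ v ∈ X \ I, n (insert v I) ≤ 0
    · obtain ⟨v, hv, h1⟩ := hex
      obtain ⟨hvX, hvI⟩ := mem_sdiff.1 hv
      have h2 : (X \ insert v I).card ≤ k := by
        have h3 : X \ insert v I = (X \ I).erase v := by
          ext w
          simp only [mem_sdiff, mem_insert, mem_erase, not_or]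
          tauto
        have h4 := card_erase_add_one hv
        rw [h3]
        omega
      obtain ⟨J, hJ1, hJ2, hJ3, hJ4⟩ := ih (insert v I) X h2 (insert_subset hvX hI) h1
      exact ⟨J, (subset_insert v I).trans hJ1, hJ2, hJ3, hJ4⟩
    · push Not at hex
      refine ⟨I, Subset.refl _, hI, by omega, ?_⟩
      have h1 : rkn n (I ∪ (X \ I)) ≤ rkn n I := by
        refine h.rk_union_le fun v hv => ?_
        have h2 := hex v hv
        unfold rkn
        rw [card_insert_of_notMem (mem_sdiff.1 hv).2]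
        push_cast
        omega
      rw [union_sdiff_of_subset hI] at h1
      have h2 := h.rk_mono hI
      have h3 : rkn n I = I.card - n I := rfl
      omega

/-- the circuit case: an element different from `w` can be dropped. -/
theorem Nul.exists_drop (h : Nul n) {X : Finset V} {w : V} (hw : w ∈ X) (hw0 : n {w} ≤ 0)
    (hX : n X = 1) : ∃ v ∈ X, v ≠ w ∧ n (X.erase v) = 0 := by
  obtain ⟨J, hJ1, hJ2, hJ3, hJ4⟩ := h.exists_basis _ {w} X le_rfl (singleton_subset_iff.2 hw) hw0
  have h1 : rkn n X = X.card - n X := rfl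
  have h2 := card_sdiff_add_card_eq_card hJ2
  have h3 : (X \ J).card = 1 := by omega
  obtain ⟨v, hv⟩ := card_eq_one.1 h3
  have hvm : v ∈ X \ J := by rw [hv]; exact mem_singleton_self v
  obtain ⟨hvX, hvJ⟩ := mem_sdiff.1 hvm
  refine ⟨v, hvX, fun he => hvJ (hJ1 (by rw [he]; exact mem_singleton_self w)), ?_⟩
  have h4 : X.erase v = J := by
    ext z
    rw [mem_erase]
    constructor
    · rintro ⟨h5, h6⟩
      by_contra h7
      have h8 : z ∈ X \ J := mem_sdiff.2 ⟨h6, h7⟩
      rw [hv, mem_singleton] at h8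
      exact h5 h8
    · intro h5
      exact ⟨fun he => hvJ (he ▸ h5), hJ2 h5⟩
  rw [h4, hJ3]

end

section

variable {V : Type*} [DecidableEq V] {α : Type*} [DecidableEq α] {U : Finset α}
  {N : α → Finset V} {D : Finset V}

/-- if the deficiency is one, some point can be left out. -/
theorem dfc_one (h : dfc U N D = 1) : ∃ u ∈ U, dfc (U.erase u) N D ≤ 0 := by
  -- a minimal maximizer
  obtain ⟨B, hB, hmin⟩ := Finset.exists_min_image
    (U.powerset.filter (fun B => (B.card : ℤ) - ((B.biUnion N) \ D).card = 1)) Finset.card (by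
      obtain ⟨B, hB, h1⟩ := dfc_exists U N D
      exact ⟨B, mem_filter.2 ⟨mem_powerset.2 hB, by rw [← h1, h]⟩⟩)
  obtain ⟨hBU, hB1⟩ := mem_filter.1 hB
  rw [mem_powerset] at hBU
  have hne : B.Nonempty := by
    rw [nonempty_iff_ne_empty]
    rintro rfl
    simp at hB1
  obtain ⟨u, hu⟩ := hne
  refine ⟨u, hBU hu, dfc_le fun X hX => ?_⟩
  by_contra hcon
  have hXU : X ⊆ U := hX.trans (erase_subset _ _)
  have h1 := le_dfc (N := N) (D := D) hXU
  have hX1 : (X.card : ℤ) - ((X.biUnion N) \ D).card = 1 := by omega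
  -- intersection
  have h2 := le_dfc (N := N) (D := D) (union_subset hXU hBU)
  have h3 := card_union_add_card_inter X B
  have h4 : (((X ∪ B).biUnion N) \ D).card + (((X ∩ B).biUnion N) \ D).card ≤
      ((X.biUnion N) \ D).card + ((B.biUnion N) \ D).card := by
    rw [← card_union_add_card_inter ((X.biUnion N) \ D) ((B.biUnion N) \ D)]
    refine add_le_add (card_le_card ?_) (card_le_card ?_)
    · intro z hz
      simp only [mem_union, mem_sdiff, mem_biUnion] at hz ⊢
      obtain ⟨⟨w, hw | hw, hzw⟩, hzD⟩ := hz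
      · exact Or.inl ⟨⟨w, hw, hzw⟩, hzD⟩
      · exact Or.inr ⟨⟨w, hw, hzw⟩, hzD⟩
    · intro z hz
      simp only [mem_inter, mem_sdiff, mem_biUnion] at hz ⊢
      obtain ⟨⟨w, ⟨hw1, hw2⟩, hzw⟩, hzD⟩ := hz
      exact ⟨⟨⟨w, hw1, hzw⟩, hzD⟩, ⟨⟨w, hw2, hzw⟩, hzD⟩⟩
  have h5 := le_dfc (N := N) (D := D) (inter_subset_left.trans hXU : X ∩ B ⊆ U)
  have h6 : ((X ∩ B).card : ℤ) - (((X ∩ B).biUnion N) \ D).card = 1 := by omega
  have h7 := hmin (X ∩ B) (mem_filter.2 ⟨mem_powerset.2 (inter_subset_left.trans hXU), h6⟩)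
  have h8 : X ∩ B = B := eq_of_subset_of_card_le inter_subset_right h7
  have h9 : u ∈ X ∩ B := by rw [h8]; exact hu
  exact (mem_erase.1 (hX (mem_inter.1 h9).1)).1 rfl

end

section

variable {L : Type*} [DecidableEq L] {α : Type*} [DecidableEq α] {τ : Type*} [DecidableEq τ]
variable {F : Finset L} {U : Finset α} {N : α → Finset L} {Ts : Finset τ} {NT : τ → Finset L}
  {P : Finset (Finset L)}

/-- the classes met by a set of nodes. -/
def met (P : Finset (Finset L)) (X : Finset L) : Finset (Finset L) :=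
  P.filter (fun C => ¬ Disjoint X C)

omit [DecidableEq α] [DecidableEq τ] in
theorem met_subset {X : Finset L} : met P X ⊆ P := filter_subset _ _

omit [DecidableEq α] [DecidableEq τ] in
theorem mem_met {X C : Finset L} : C ∈ met P X ↔ C ∈ P ∧ ¬ Disjoint X C := mem_filter

/-- the nullity of the matroid of the classes. -/
def nP (U : Finset α) (N : α → Finset L) (P A : Finset (Finset L)) : ℤ :=
  dfc (Ux U N P) (fun u => met P (N u)) A

omit [DecidableEq α] [DecidableEq τ] in
theorem Ptn.sub_met (h : Ptn F F U N Ts NT P) {X : Finset L} (hX : X ⊆ F)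
    {A : Finset (Finset L)} (hA : A ⊆ P) : X ⊆ A.biUnion id ↔ met P X ⊆ A := by
  constructor
  · intro h1 C hC
    obtain ⟨hC1, hC2⟩ := mem_met.1 hC
    rw [not_disjoint_iff] at hC2
    obtain ⟨x, hx, hxC⟩ := hC2
    obtain ⟨D, hD, hxD⟩ := mem_biUnion.1 (h1 hx)
    by_cases hCD : C = D
    · exact hCD ▸ hD
    · exact absurd hxD (disjoint_left.1 (h.dj C hC1 D (hA hD) hCD) hxC)
  · intro h1 x hx
    have h2 := hX hx
    rw [← h.un] at h2
    obtain ⟨C, hC, hxC⟩ := mem_biUnion.1 h2
    exact mem_biUnion.2 ⟨C, h1 (mem_met.2 ⟨hC, not_disjoint_iff.2 ⟨x, hx, hxC⟩⟩), hxC⟩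

omit [DecidableEq α] [DecidableEq τ] in
theorem Ptn.wl_eq (h : Ptn F F U N Ts NT P) {A : Finset (Finset L)} (hA : A ⊆ P) :
    wl F A = A.card := by
  unfold wl
  congr 1
  refine filter_true_of_mem fun C hC => ?_
  rw [inter_eq_left.2 (h.vc C (hA hC)).sub]
  exact (h.vc C (hA hC)).ne

omit [DecidableEq α] [DecidableEq τ] in
/-- a set of nodes which is in no class meets at least two classes. -/
theorem Ptn.two_met (h : Ptn F F U N Ts NT P) {X : Finset L} (hX : X ⊆ F) (hne : X.Nonempty)
    (hn : ∀ C ∈ P, ¬ X ⊆ C) : 2 ≤ (met P X).card := by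
  obtain ⟨x, hx⟩ := hne
  have h2 := hX hx
  rw [← h.un] at h2
  obtain ⟨C, hC, hxC⟩ := mem_biUnion.1 h2
  have hCm : C ∈ met P X := mem_met.2 ⟨hC, not_disjoint_iff.2 ⟨x, hx, hxC⟩⟩
  by_contra hcon
  have h3 : (met P X).card = 1 := by
    have := card_pos.2 ⟨C, hCm⟩
    omega
  obtain ⟨D, hD⟩ := card_eq_one.1 h3
  have hCD : C = D := by
    rw [hD, mem_singleton] at hCm
    exact hCm
  refine hn C hC fun y hy => ?_
  have h4 := hX hy
  rw [← h.un] at h4
  obtain ⟨C', hC', hyC'⟩ := mem_biUnion.1 h4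
  have h5 : C' ∈ met P X := mem_met.2 ⟨hC', not_disjoint_iff.2 ⟨y, hy, hyC'⟩⟩
  rw [hD, mem_singleton] at h5
  rw [hCD, ← h5]
  exact hyC'

theorem MinP.surplus (hg : Gd F F U N Ts NT) (h : MinP F F U N Ts NT P) {B : Finset α}
    (hB : B ⊆ Ux U N P) (hne : B.Nonempty) :
    B.card + 2 ≤ (B.biUnion (fun u => met P (N u))).card := by
  set A := B.biUnion (fun u => met P (N u)) with hA
  have hAP : A ⊆ P := by
    intro C hC
    obtain ⟨u, _, hC⟩ := mem_biUnion.1 hC
    exact met_subset hC
  have hUB : B ⊆ UU U N P A := by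
    intro u hu
    refine mem_filter.2 ⟨hB hu, (h.ptn.sub_met (hg.NU u (mem_filter.1 (hB hu)).1) hAP).2 ?_⟩
    exact subset_biUnion_of_mem (fun u => met P (N u)) hu
  obtain ⟨u, hu⟩ := hne
  have hu2 := h.ptn.two_met (hg.NU u (mem_filter.1 (hB hu)).1) (hg.N_ne (mem_filter.1 (hB hu)).1)
    (mem_filter.1 (hB hu)).2
  have hA2 : 2 ≤ A.card := hu2.trans (card_le_card
    (subset_biUnion_of_mem (fun u => met P (N u)) hu))
  have h1 := h.sparse hg A.card A hAP (card_pos.1 (by omega)) le_rfl
  have h2 := h.ptn.wl_eq hAP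
  have h3 : (0 : ℤ) ≤ ((KK Ts NT P A).card : ℤ) := by positivity
  have h4 := card_le_card hUB
  rw [h2] at h1
  unfold kap at h1
  split_ifs at h1 <;> omega

theorem MinP.nul (hg : Gd F F U N Ts NT) (h : MinP F F U N Ts NT P) : Nul (nP U N P) := by
  refine dfc_nul fun B hB => ?_
  rcases B.eq_empty_or_nonempty with rfl | hne
  · simp
  · have := h.surplus hg hB hne
    omega

/-- the nullity of a flat. -/
theorem MinP.nP_clo (hg : Gd F F U N Ts NT) (h : MinP F F U N Ts NT P)
    {A : Finset (Finset L)} (hA : A ⊆ P) :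
    nP U N P (clo (nP U N P) P A) = (UU U N P (clo (nP U N P) P A)).card := by
  set X := clo (nP U N P) P A with hX
  have hXP : X ⊆ P := clo_subset
  have hn := h.nul hg
  refine le_antisymm ?_ ?_
  · obtain ⟨B, hB, h1⟩ := dfc_exists (Ux U N P) (fun u => met P (N u)) X
    have hsub : B.biUnion (fun u => met P (N u)) ⊆ X := by
      intro C hC
      by_contra hCX
      have hCP : C ∈ P := by
        obtain ⟨u, _, hC⟩ := mem_biUnion.1 hC
        exact met_subset hC
      refine hCX (hn.clo_clo hA hCP ?_)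
      have h2 := le_dfc (N := fun u => met P (N u)) (D := insert C X) hB
      have h3 : (B.biUnion (fun u => met P (N u)) \ insert C X) =
          (B.biUnion (fun u => met P (N u)) \ X).erase C := by
        ext z
        simp only [mem_sdiff, mem_insert, mem_erase, not_or]
        tauto
      have h4 := card_erase_add_one (mem_sdiff.2 ⟨hC, hCX⟩)
      rw [h3] at h2
      unfold rkn
      rw [← hX, card_insert_of_notMem hCX]
      unfold nP
      push_cast
      omega
    have h2 : B ⊆ UU U N P X := by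
      intro u hu
      refine mem_filter.2 ⟨hB hu, (h.ptn.sub_met (hg.NU u (mem_filter.1 (hB hu)).1) hXP).2 ?_⟩
      exact (subset_biUnion_of_mem (fun u => met P (N u)) hu).trans hsub
    have h3 := card_le_card h2
    have h4 : nP U N P X = (B.card : ℤ) - ((B.biUnion (fun u => met P (N u))) \ X).card := h1
    rw [h4]
    omega
  · have hsubU : UU U N P X ⊆ Ux U N P := filter_subset _ _
    have h1 := le_dfc (N := fun u => met P (N u)) (D := X) hsubU
    have h2 : ((UU U N P X).biUnion (fun u => met P (N u))) \ X = ∅ := by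
      rw [sdiff_eq_empty_iff_subset]
      intro C hC
      obtain ⟨u, hu, hC⟩ := mem_biUnion.1 hC
      obtain ⟨hu1, hu2⟩ := mem_filter.1 hu
      exact (h.ptn.sub_met (hg.NU u (mem_filter.1 hu1).1) hXP).1 hu2 hC
    rw [h2, card_empty] at h1
    unfold nP
    push_cast at h1
    linarith

/-- SPARSE in the matroid of the classes. -/
theorem MinP.sparse_clo (hg : Gd F F U N Ts NT) (h : MinP F F U N Ts NT P)
    {A : Finset (Finset L)} (hA : A ⊆ P) (h2 : 2 ≤ A.card) :
    ((KK Ts NT P (clo (nP U N P) P A)).card : ℤ) ≤ 2 * rkn (nP U N P) A - 3 := by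
  have hn := h.nul hg
  set X := clo (nP U N P) P A with hX
  have hXP : X ⊆ P := clo_subset
  have hAX : A ⊆ X := subset_clo hA
  have h3 := card_le_card hAX
  have h1 := h.sparse hg X.card X hXP (card_pos.1 (by omega)) le_rfl
  rw [h.ptn.wl_eq hXP, ← h.nP_clo hg hA] at h1
  have h4 := hn.rk_clo hA
  unfold rkn at h4 ⊢
  unfold kap at h1
  split_ifs at h1
  · omega
  · omega
  · rw [← hX] at h4
    linarith

/-- no parallel classes. -/
theorem MinP.pair (hg : Gd F F U N Ts NT) (h : MinP F F U N Ts NT P) {C D : Finset L}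
    (hC : C ∈ P) (hD : D ∈ P) (hne : C ≠ D) : nP U N P {C, D} ≤ 0 := by
  have h1 := h.sparse_clo hg (A := {C, D}) (by
    intro z hz
    rw [mem_insert, mem_singleton] at hz
    rcases hz with rfl | rfl <;> assumption) (by rw [card_pair hne])
  have h2 : (0 : ℤ) ≤ ((KK Ts NT P (clo (nP U N P) P {C, D})).card : ℤ) := by positivity
  unfold rkn at h1
  rw [card_pair hne] at h1
  push_cast at h1
  omega

/-- the crossing triples of rank two. -/
def T2 (U : Finset α) (N : α → Finset L) (Ts : Finset τ) (NT : τ → Finset L)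
    (P : Finset (Finset L)) : Finset τ :=
  (Tx Ts NT P).filter (fun T => rkn (nP U N P) (met P (NT T)) = 2)

/-- the line of a triple. -/
def ln (U : Finset α) (N : α → Finset L) (NT : τ → Finset L) (P : Finset (Finset L)) (T : τ) :
    Finset (Finset L) := clo (nP U N P) P (met P (NT T))

/-- **the lines of the crossing triples satisfy the hypotheses of the sparse lemma**. -/
theorem MinP.lin (hg : Gd F F U N Ts NT) (h : MinP F F U N Ts NT P) :
    Lin (nP U N P) P (T2 U N Ts NT P) (ln U N NT P) := by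
  have hn := h.nul hg
  have hmet : ∀ T ∈ T2 U N Ts NT P, 2 ≤ (met P (NT T)).card := by
    intro T hT
    obtain ⟨h1, h2, h3⟩ := mem_filter.1 (mem_filter.1 hT).1
    exact h.ptn.two_met (hg.NTs T h1) h2 h3
  have hrk : ∀ T ∈ T2 U N Ts NT P, rkn (nP U N P) (ln U N NT P T) = 2 := by
    intro T hT
    unfold ln
    rw [hn.rk_clo met_subset]
    exact (mem_filter.1 hT).2
  -- two classes of a line span it
  have hspan : ∀ T ∈ T2 U N Ts NT P, ∀ E ⊆ P, 2 ≤ (ln U N NT P T ∩ E).card →
      ln U N NT P T ⊆ clo (nP U N P) P E := by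
    intro T hT E hE h2
    obtain ⟨C, hC, D, hD, hne⟩ := one_lt_card.1 (show 1 < (ln U N NT P T ∩ E).card by omega)
    obtain ⟨hC1, hC2⟩ := mem_inter.1 hC
    obtain ⟨hD1, hD2⟩ := mem_inter.1 hD
    have hsub : ({C, D} : Finset (Finset L)) ⊆ ln U N NT P T := by
      intro z hz
      rw [mem_insert, mem_singleton] at hz
      rcases hz with rfl | rfl <;> assumption
    have hsubE : ({C, D} : Finset (Finset L)) ⊆ E := by
      intro z hz
      rw [mem_insert, mem_singleton] at hz
      rcases hz with rfl | rfl <;> assumption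
    have h3 := h.pair hg (hE hC2) (hE hD2) hne
    refine Subset.trans (hn.mem_clo hsub clo_subset ?_) (hn.clo_mono hsubE)
    rw [hrk T hT]
    unfold rkn
    rw [card_pair hne]
    push_cast
    omega
  have hKK : ∀ T ∈ T2 U N Ts NT P, ∀ E ⊆ P, 2 ≤ (ln U N NT P T ∩ E).card →
      T ∈ KK Ts NT P (clo (nP U N P) P E) := by
    intro T hT E hE h2
    have h3 := (mem_filter.1 hT).1
    refine mem_filter.2 ⟨h3, (h.ptn.sub_met (hg.NTs T (mem_filter.1 h3).1) clo_subset).2 ?_⟩
    exact (subset_clo met_subset).trans (hspan T hT E hE h2)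
  refine ⟨fun T _ => clo_subset, fun T hT => ?_, fun T hT => ?_, fun T hT T' hT' hne => ?_,
    fun E hE h2 => ?_⟩
  · exact (hmet T hT).trans (card_le_card (subset_clo met_subset))
  · have h1 := hrk T hT
    unfold rkn at h1
    linarith
  · by_contra hcon
    obtain ⟨C, hC, D, hD, hCD⟩ := one_lt_card.1
      (show 1 < (ln U N NT P T ∩ ln U N NT P T').card by omega)
    obtain ⟨hC1, hC2⟩ := mem_inter.1 hC
    obtain ⟨hD1, hD2⟩ := mem_inter.1 hD
    have hCP : C ∈ P := clo_subset hC1
    have hDP : D ∈ P := clo_subset hD1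
    have hsub : ({C, D} : Finset (Finset L)) ⊆ P := by
      intro z hz
      rw [mem_insert, mem_singleton] at hz
      rcases hz with rfl | rfl <;> assumption
    have key : ∀ T'' ∈ T2 U N Ts NT P, C ∈ ln U N NT P T'' → D ∈ ln U N NT P T'' →
        T'' ∈ KK Ts NT P (clo (nP U N P) P {C, D}) := by
      intro T'' hT'' h1 h3
      refine hKK T'' hT'' _ hsub ?_
      rw [← card_pair hCD]
      refine card_le_card (subset_inter ?_ (Subset.refl _))
      intro z hz
      rw [mem_insert, mem_singleton] at hz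
      rcases hz with rfl | rfl <;> assumption
    have h3 := h.sparse_clo hg hsub (by rw [card_pair hCD])
    have h4 : ({T, T'} : Finset τ) ⊆ KK Ts NT P (clo (nP U N P) P {C, D}) := by
      intro z hz
      rw [mem_insert, mem_singleton] at hz
      rcases hz with rfl | rfl
      · exact key _ hT hC1 hD1
      · exact key _ hT' hC2 hD2
    have h5 := card_le_card h4
    rw [card_pair hne] at h5
    have h6 := hn.nonneg ({C, D} : Finset (Finset L))
    unfold rkn at h3
    rw [card_pair hCD] at h3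
    push_cast at h3
    omega
  · have h3 := h.sparse_clo hg hE h2
    have h4 : (T2 U N Ts NT P).filter (fun T => 2 ≤ (ln U N NT P T ∩ E).card) ⊆
        KK Ts NT P (clo (nP U N P) P E) := by
      intro T hT
      obtain ⟨h5, h6⟩ := mem_filter.1 hT
      exact hKK T h5 E hE h6
    have h5 := card_le_card h4
    unfold rkn at h3
    omega

end

end Pool.Agent.Hyp6.Sp
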