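import Mathlib
import Pool.Agent.Hyp6.L3Nd1

/-!
# HYP6 L3Nd2: free sets of classes, on the level of the leaves
-/

set_option autoImplicit false

namespace Pool.Agent.Hyp6.Sp

open Finset

section

variable {L : Type*} [DecidableEq L] {α : Type*} [DecidableEq α] {τ : Type*} [DecidableEq τ]
variable {F : Finset L} {U : Finset α} {N : α → Finset L} {Ts : Finset τ} {NT : τ → Finset L}
  {P : Finset (Finset L)}

omit [DecidableEq α] [DecidableEq τ] in
/-- inside one class the points can be matched with any node left out. -/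
theorem Gd.hall_in (hg : Gd F F U N Ts NT) {C : Finset L} (x : L) {B : Finset α} (hB : B ⊆ Uin U N C) (hne : B.Nonempty) :
    B.card ≤ (((B.biUnion N) ∩ C).erase x).card := by
  have h1 := hg.sur B (hB.trans (filter_subset _ _)) hne
  have h2 : (B.biUnion N) ∩ F ⊆ (B.biUnion N) ∩ C := by
    intro z hz
    obtain ⟨hz1, hz2⟩ := mem_inter.1 hz
    obtain ⟨u, hu, hzu⟩ := mem_biUnion.1 hz1
    exact mem_inter.2 ⟨hz1, (mem_filter.1 (hB hu)).2 hzu⟩
  have h3 := card_le_card h2
  have h4 := pred_card_le_card_erase (s := (B.biUnion N) ∩ C) (a := x)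
  omega

omit [DecidableEq τ] in
/-- **free sets**: let `S` be a set of classes outside which the crossing points `X` can be
matched. Then, with the classes of `W ⊆ S` completely free and with one free node `x C` in every
other class of `S`, the points of `X` and the points inside the classes outside `W` can be matched
into the other nodes. -/
theorem Ptn.free (hg : Gd F F U N Ts NT) (h : Ptn F F U N Ts NT P) {X : Finset α}
    {S W : Finset (Finset L)} (hSP : S ⊆ P) (hWS : W ⊆ S)
    (hS : dfc X (fun u => met P (N u)) S ≤ 0) {x : Finset L → L}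
    (hx : ∀ D ∈ S \ W, x D ∈ D) :
    dfc (X ∪ (P \ W).biUnion (fun C => Uin U N C)) N
      (W.biUnion id ∪ (S \ W).image x) ≤ 0 := by
  classical
  refine dfc_le fun B hB => ?_
  set R := W.biUnion id ∪ (S \ W).image x with hR
  -- the parts of `B`
  set B0 := B ∩ X with hB0
  have hBc : ∀ C ∈ P \ W, B ∩ Uin U N C ⊆ Uin U N C := fun C _ => inter_subset_right
  have hcard : B.card ≤ B0.card + ∑ C ∈ P \ W, (B ∩ Uin U N C).card := by
    have h1 : B ⊆ B0 ∪ (P \ W).biUnion (fun C => B ∩ Uin U N C) := by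
      intro u hu
      rcases mem_union.1 (hB hu) with h2 | h2
      · exact mem_union_left _ (mem_inter.2 ⟨hu, h2⟩)
      · obtain ⟨C, hC, h3⟩ := mem_biUnion.1 h2
        exact mem_union_right _ (mem_biUnion.2 ⟨C, hC, mem_inter.2 ⟨hu, h3⟩⟩)
    exact (card_le_card h1).trans ((card_union_le _ _).trans
      (add_le_add le_rfl card_biUnion_le))
  -- the classes met by `B0`
  set M := B0.biUnion (fun u => met P (N u)) \ S with hM
  have hMP : M ⊆ P \ W := by
    intro C hC
    obtain ⟨h1, h2⟩ := mem_sdiff.1 hC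
    obtain ⟨u, _, h3⟩ := mem_biUnion.1 h1
    exact mem_sdiff.2 ⟨met_subset h3, fun h4 => h2 (hWS h4)⟩
  have hB0M : B0.card ≤ M.card := by
    have hB0X : B0 ⊆ X := inter_subset_right
    have h1 := le_dfc (N := fun u => met P (N u)) (D := S) hB0X
    rw [← hM] at h1
    omega
  -- the nodes met by `B` in one class
  have hnode : ∀ C ∈ P \ W, (B ∩ Uin U N C).card + (if C ∈ M then 1 else 0) ≤
      (((B.biUnion N) \ R) ∩ C).card := by
    intro C hC
    obtain ⟨hCP, hCW⟩ := mem_sdiff.1 hC
    have hCW' : Disjoint C (W.biUnion id) := by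
      rw [disjoint_biUnion_right]
      intro D hD
      refine h.dj C hCP D (hSP (hWS hD)) ?_
      rintro rfl
      exact hCW hD
    -- nodes of `R` in `C`
    have hR1 : ∀ z ∈ C, z ∈ R → C ∈ S ∧ z = x C := by
      intro z hz hzR
      rcases mem_union.1 hzR with h1 | h1
      · exact absurd h1 (disjoint_left.1 hCW' hz)
      · obtain ⟨D, hD, rfl⟩ := mem_image.1 h1
        have hDS := (mem_sdiff.1 hD).1
        by_cases hDC : D = C
        · subst hDC
          exact ⟨hDS, rfl⟩
        · exact absurd hz (disjoint_left.1 (h.dj D (hSP hDS) C hCP hDC) (hx D hD))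
    rcases (B ∩ Uin U N C).eq_empty_or_nonempty with h0 | hne
    · rw [h0, card_empty]
      split_ifs with hCM
      · obtain ⟨h1, h2⟩ := mem_sdiff.1 hCM
        obtain ⟨u, hu, h3⟩ := mem_biUnion.1 h1
        have h4 := (mem_met.1 h3).2
        rw [not_disjoint_iff] at h4
        obtain ⟨z, hz, hzC⟩ := h4
        have h5 : z ∈ ((B.biUnion N) \ R) ∩ C :=
          mem_inter.2 ⟨mem_sdiff.2 ⟨mem_biUnion.2 ⟨u, (mem_inter.1 hu).1, hz⟩,
            fun h6 => h2 (hR1 z hzC h6).1⟩, hzC⟩
        have := card_pos.2 ⟨z, h5⟩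
        omega
      · omega
    · split_ifs with hCM
      · have hCS : C ∉ S := (mem_sdiff.1 hCM).2
        have h1 := hg.sur (B ∩ Uin U N C) (inter_subset_right.trans (filter_subset _ _)) hne
        have h2 : ((B ∩ Uin U N C).biUnion N) ∩ F ⊆ ((B.biUnion N) \ R) ∩ C := by
          intro z hz
          obtain ⟨hz1, hz2⟩ := mem_inter.1 hz
          obtain ⟨u, hu, hzu⟩ := mem_biUnion.1 hz1
          obtain ⟨hu1, hu2⟩ := mem_inter.1 hu
          have hzC : z ∈ C := (mem_filter.1 hu2).2 hzu
          exact mem_inter.2 ⟨mem_sdiff.2 ⟨mem_biUnion.2 ⟨u, hu1, hzu⟩,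
            fun h6 => hCS (hR1 z hzC h6).1⟩, hzC⟩
        have h3 := card_le_card h2
        omega
      · have h1 := hg.hall_in (C := C) (x C) (inter_subset_right : B ∩ Uin U N C ⊆ _) hne
        have h2 : (((B ∩ Uin U N C).biUnion N) ∩ C).erase (x C) ⊆
            ((B.biUnion N) \ R) ∩ C := by
          intro z hz
          obtain ⟨hzx, hz'⟩ := mem_erase.1 hz
          obtain ⟨hz1, hzC⟩ := mem_inter.1 hz'
          obtain ⟨u, hu, hzu⟩ := mem_biUnion.1 hz1
          exact mem_inter.2 ⟨mem_sdiff.2 ⟨mem_biUnion.2 ⟨u, (mem_inter.1 hu).1, hzu⟩,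
            fun h6 => hzx (hR1 z hzC h6).2⟩, hzC⟩
        have h3 := card_le_card h2
        omega
  have hsum : ∑ C ∈ P \ W, (((B.biUnion N) \ R) ∩ C).card ≤ ((B.biUnion N) \ R).card := by
    rw [← card_biUnion]
    · refine card_le_card ?_
      intro z hz
      obtain ⟨C, _, hz⟩ := mem_biUnion.1 hz
      exact (mem_inter.1 hz).1
    · intro C hC D hD hne
      show Disjoint (((B.biUnion N) \ R) ∩ C) (((B.biUnion N) \ R) ∩ D)
      exact disjoint_of_subset_left inter_subset_right (disjoint_of_subset_right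
        inter_subset_right (h.dj C (mem_sdiff.1 hC).1 D (mem_sdiff.1 hD).1 hne))
  have h2 := sum_le_sum hnode
  rw [sum_add_distrib] at h2
  have h3 : ∑ C ∈ P \ W, (if C ∈ M then 1 else 0) = M.card := by
    rw [← sum_filter, sum_const, smul_eq_mul, mul_one]
    congr 1
    ext C
    rw [mem_filter]
    exact ⟨fun h => h.2, fun h => ⟨hMP h, h⟩⟩
  omega

end

end Pool.Agent.Hyp6.Sp
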