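import Pool.Agent.Hyp6.L3Nd
import Pool.Agent.Hyp6.L3Nd2

/-!
# HYP6 L3NC: nodes and classes of the max-K frame

The nodes are the leaves (weight one), the components of the even part and the blocks between the
removed points (weight zero). `ND` is the data of a frame, `Z d C` the set of points of a class `C`
of nodes: leaves and even components of `C`, triples and points of `U` all of whose contacts are
in `C`.
-/

set_option autoImplicit false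

namespace Pool.Agent.Hyp6

open Finset Pool.Agent.Hyp5

universe u v

section

variable {V : Type v} [DecidableEq V] {ι : Type u} {B : ι → Finset V}

/-- Hall's theorem for matchings into leaves. -/
theorem mti_of_hall {P : Finset V} {A : Finset (Finset V)}
    (hH : ∀ Y ⊆ P, Y.card ≤ (nbF (gr B) A Y).card) : ∃ g, MtI B P A g := by
  classical
  have h1 : ∀ s : Finset {p // p ∈ P}, s.card ≤
      (s.biUnion (fun p => nbF (gr B) A {p.1})).card := by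
    intro s
    have hsub : s.map (Function.Embedding.subtype _) ⊆ P := by
      intro u hu
      obtain ⟨v, -, rfl⟩ := mem_map.1 hu
      exact v.2
    have h2 := hH _ hsub
    rw [card_map] at h2
    refine h2.trans (card_le_card ?_)
    intro C hC
    obtain ⟨hC1, x, hx, y, hy, hxy⟩ := mem_nbF.1 hC
    obtain ⟨v, hv, rfl⟩ := mem_map.1 hx
    exact mem_biUnion.2 ⟨v, hv, mem_nbF.2 ⟨hC1, v.1, mem_singleton_self _, y, hy, hxy⟩⟩
  obtain ⟨f, hf, hf2⟩ := (all_card_le_biUnion_card_iff_exists_injective _).1 h1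
  refine ⟨fun p => if hp : p ∈ P then f ⟨p, hp⟩ else ∅, ?_, ?_, ?_⟩
  · intro p hp
    rw [dif_pos hp]
    exact (mem_nbF.1 (hf2 ⟨p, hp⟩)).1
  · intro p hp
    rw [dif_pos hp]
    obtain ⟨-, x, hx, y, hy, hxy⟩ := mem_nbF.1 (hf2 ⟨p, hp⟩)
    have hx' : x = p := mem_singleton.1 hx
    subst hx'
    exact ⟨y, hy, hxy⟩
  · intro p hp q hq he
    simp only [dif_pos hp, dif_pos hq] at he
    have := hf he
    exact congrArg Subtype.val this

/-- two matchings with disjoint targets. -/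
theorem MtI.union {P P' : Finset V} {A A' A'' : Finset (Finset V)} {g g' : V → Finset V}
    (h : MtI B P A g) (h' : MtI B P' A' g') (hA : A ⊆ A'') (hA' : A' ⊆ A'') (hd : Disjoint A A') :
    ∃ g'', MtI B (P ∪ P') A'' g'' ∧ (∀ p ∈ P, g'' p = g p) ∧ (∀ p, p ∉ P → g'' p = g' p) := by
  classical
  obtain ⟨k, e1, e2⟩ : ∃ k : V → Finset V, (∀ p ∈ P, k p = g p) ∧ (∀ p, p ∉ P → k p = g' p) :=
    ⟨fun p => if p ∈ P then g p else g' p, fun p hp => if_pos hp, fun p hp => if_neg hp⟩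
  refine ⟨k, ⟨?_, ?_, ?_⟩, e1, e2⟩
  · intro p hp
    by_cases hpP : p ∈ P
    · rw [e1 p hpP]
      exact hA (h.mem p hpP)
    · rw [e2 p hpP]
      exact hA' (h'.mem p ((mem_union.1 hp).resolve_left hpP))
  · intro p hp
    by_cases hpP : p ∈ P
    · rw [e1 p hpP]
      exact h.see p hpP
    · rw [e2 p hpP]
      exact h'.see p ((mem_union.1 hp).resolve_left hpP)
  · intro p hp q hq he
    by_cases hpP : p ∈ P
    · rw [e1 p hpP] at he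
      by_cases hqP : q ∈ P
      · rw [e1 q hqP] at he
        exact h.inj p hpP q hqP he
      · rw [e2 q hqP] at he
        have h1 := h.mem p hpP
        rw [he] at h1
        exact absurd (h'.mem q ((mem_union.1 hq).resolve_left hqP)) (disjoint_left.1 hd h1)
    · rw [e2 p hpP] at he
      by_cases hqP : q ∈ P
      · rw [e1 q hqP] at he
        have h1 := h.mem q hqP
        rw [← he] at h1
        exact absurd (h'.mem p ((mem_union.1 hp).resolve_left hpP)) (disjoint_left.1 hd h1)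
      · rw [e2 q hqP] at he
        exact h'.inj p ((mem_union.1 hp).resolve_left hpP) q
          ((mem_union.1 hq).resolve_left hqP) he

theorem MtI.singleton {p : V} {A : Finset V} (hA : ∃ y ∈ A, (gr B).Adj p y) :
    MtI B {p} {A} (fun _ => A) := by
  refine ⟨fun _ _ => mem_singleton_self _, fun q hq => ?_, fun q hq r hr _ => ?_⟩
  · rw [mem_singleton.1 hq]
    exact hA
  · rw [mem_singleton.1 hq, mem_singleton.1 hr]

end

/-- the data of a frame. -/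
structure ND (V : Type v) (ι : Type u) where
  B : ι → Finset V
  Q : Finset V
  T : Finset ι
  U : Finset V
  F : Finset (Finset V)
  ec : Finset (Finset V)

section

variable {V : Type v} [DecidableEq V] {ι : Type u} [Fintype ι] [DecidableEq ι]

namespace ND

/-- the conditions. -/
structure Ok (d : ND V ι) : Prop where
  frm : Frm d.B d.Q d.T d.U d.F
  ecc : ∀ C ∈ d.ec, Conn (gr d.B) C
  sep : SepF d.B d.ec
  un : d.ec.biUnion id = Ep d.B d.Q d.T d.U d.F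
  conn : Conn (gr d.B) d.Q
  big : 4 ≤ d.Q.card

/-- the blocks between the removed points. -/
def bta (d : ND V ι) : Finset ι := (ins d.B d.Q (Xp d.B d.Q d.T d.U)) \ d.T

/-- a point meets a node. -/
def Sees (d : ND V ι) (p : V) (ν : Finset V ⊕ ι) : Prop :=
  Sum.elim (fun C => ∃ y ∈ C, (gr d.B).Adj p y) (fun i => p ∈ d.B i) ν

/-- the nodes. -/
def nodes (d : ND V ι) : Finset (Finset V ⊕ ι) :=
  (d.F ∪ d.ec).image Sum.inl ∪ d.bta.image Sum.inr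

/-- the leaves as nodes. -/
def lf (d : ND V ι) : Finset (Finset V ⊕ ι) := d.F.image Sum.inl

open Classical in
/-- the nodes met by a point. -/
noncomputable def N (d : ND V ι) (p : V) : Finset (Finset V ⊕ ι) := d.nodes.filter (d.Sees p)

open Classical in
/-- the nodes met by a triple. -/
noncomputable def NT (d : ND V ι) (j : ι) : Finset (Finset V ⊕ ι) :=
  d.nodes.filter (fun ν => ∃ p ∈ d.B j ∩ d.Q, d.Sees p ν)

/-- the leaves of a class. -/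
def lv (d : ND V ι) (C : Finset (Finset V ⊕ ι)) : Finset (Finset V) :=
  d.F.filter (fun A => Sum.inl A ∈ C)

/-- the even part of a class. -/
def ev (d : ND V ι) (C : Finset (Finset V ⊕ ι)) : Finset V :=
  (d.ec.filter (fun A => Sum.inl A ∈ C)).biUnion id

/-- the triples inside a class. -/
noncomputable def tin (d : ND V ι) (C : Finset (Finset V ⊕ ι)) : Finset ι :=
  Sp.Kin d.T d.NT C

/-- the points of `U` inside a class. -/
noncomputable def uin (d : ND V ι) (C : Finset (Finset V ⊕ ι)) : Finset V :=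
  Sp.Uin d.U d.N C

/-- the point set of a class. -/
noncomputable def Z (d : ND V ι) (C : Finset (Finset V ⊕ ι)) : Finset V :=
  Zn d.B d.Q (d.tin C) (d.uin C) (d.lv C) (d.ev C)

variable {d : ND V ι}

theorem mem_lv {C : Finset (Finset V ⊕ ι)} {A : Finset V} :
    A ∈ d.lv C ↔ A ∈ d.F ∧ Sum.inl A ∈ C := by
  unfold lv
  rw [mem_filter]

theorem mem_tin {C : Finset (Finset V ⊕ ι)} {j : ι} :
    j ∈ d.tin C ↔ j ∈ d.T ∧ (d.NT j).Nonempty ∧ d.NT j ⊆ C := by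
  unfold tin Sp.Kin
  rw [mem_filter]

theorem mem_uin {C : Finset (Finset V ⊕ ι)} {u : V} :
    u ∈ d.uin C ↔ u ∈ d.U ∧ d.N u ⊆ C := by
  unfold uin Sp.Uin
  rw [mem_filter]

theorem mem_ev {C : Finset (Finset V ⊕ ι)} {v : V} :
    v ∈ d.ev C ↔ ∃ A ∈ d.ec, Sum.inl A ∈ C ∧ v ∈ A := by
  unfold ev
  simp only [mem_biUnion, mem_filter, id]
  constructor
  · rintro ⟨A, ⟨h1, h2⟩, h3⟩
    exact ⟨A, h1, h2, h3⟩
  · rintro ⟨A, h1, h2, h3⟩
    exact ⟨A, ⟨h1, h2⟩, h3⟩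

theorem mem_nodes_inl {A : Finset V} :
    (Sum.inl A : Finset V ⊕ ι) ∈ d.nodes ↔ A ∈ d.F ∨ A ∈ d.ec := by
  unfold nodes
  simp only [mem_union, mem_image, Sum.inl.injEq, exists_eq_right, reduceCtorEq, and_false,
    exists_false, or_false]

theorem mem_nodes_inr {i : ι} :
    (Sum.inr i : Finset V ⊕ ι) ∈ d.nodes ↔ i ∈ d.bta := by
  unfold nodes
  simp only [mem_union, mem_image, Sum.inr.injEq, exists_eq_right, reduceCtorEq, and_false,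
    exists_false, false_or]

theorem mem_N {p : V} {ν : Finset V ⊕ ι} : ν ∈ d.N p ↔ ν ∈ d.nodes ∧ d.Sees p ν := by
  simp only [N, mem_filter]

theorem mem_NT {j : ι} {ν : Finset V ⊕ ι} :
    ν ∈ d.NT j ↔ ν ∈ d.nodes ∧ ∃ p ∈ d.B j ∩ d.Q, d.Sees p ν := by
  simp only [NT, mem_filter]

theorem mem_Z {C : Finset (Finset V ⊕ ι)} {v : V} :
    v ∈ d.Z C ↔ (∃ j ∈ d.tin C, v ∈ d.B j ∧ v ∈ d.Q) ∨ v ∈ d.uin C ∨
      (∃ A ∈ d.lv C, v ∈ A) ∨ v ∈ d.ev C := mem_Zn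

namespace Ok

variable {C : Finset (Finset V ⊕ ι)}

omit [Fintype ι] [DecidableEq ι] in
theorem ec_sub (h : d.Ok) {A : Finset V} (hA : A ∈ d.ec) : A ⊆ Ep d.B d.Q d.T d.U d.F := by
  rw [← h.un]
  exact subset_biUnion_of_mem id hA

theorem ev_sub (h : d.Ok) : d.ev C ⊆ Ep d.B d.Q d.T d.U d.F := by
  intro v hv
  obtain ⟨A, hA, _, hvA⟩ := mem_ev.1 hv
  exact h.ec_sub hA hvA

theorem lv_sub : d.lv C ⊆ d.F := filter_subset _ _

theorem tin_sub : d.tin C ⊆ d.T := filter_subset _ _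

theorem uin_sub : d.uin C ⊆ d.U := filter_subset _ _

/-- the even part of a class is closed. -/
theorem dcl (h : d.Ok) : Frm.Dcl d.B d.Q d.T d.U d.F (d.ev C) := by
  refine ⟨h.ev_sub, fun i hi1 hi2 => ?_⟩
  obtain ⟨v, hv⟩ := hi1
  obtain ⟨w, hw⟩ := hi2
  obtain ⟨hv1, hv2⟩ := mem_inter.1 hv
  obtain ⟨hw1, hw2⟩ := mem_inter.1 hw
  obtain ⟨hw2, hw3⟩ := mem_sdiff.1 hw2
  obtain ⟨A, hA, hAC, hvA⟩ := mem_ev.1 hv2
  rw [← h.un] at hw2
  obtain ⟨A', hA', hwA'⟩ := mem_biUnion.1 hw2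
  have hne : A ≠ A' := by
    rintro rfl
    exact hw3 (mem_ev.2 ⟨A, hA, hAC, hwA'⟩)
  exact (h.sep A hA A' hA' hne).2 i ⟨v, mem_inter.2 ⟨hv1, hvA⟩⟩ ⟨w, mem_inter.2 ⟨hw1, hwA'⟩⟩

theorem Z_sub (h : d.Ok) : d.Z C ⊆ d.Q :=
  h.frm.Zn_sub lv_sub (uin_sub.trans (h.frm.UD.trans Frm.DQ)) h.ev_sub

/-- the nodes of a block. -/
def AtN (d : ND V ι) (i : ι) (ν : Finset V ⊕ ι) : Prop :=
  ν ∈ d.nodes ∧ Sum.elim (fun C => (d.B i ∩ C).Nonempty) (fun k => i = k) ν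

/-- every block other than the triples has a node. -/
theorem exists_at (h : d.Ok) {i : ι} (hi : (d.B i ∩ d.Q).Nonempty) (hT : i ∉ d.T) :
    ∃ ν, AtN d i ν := by
  by_cases hX : d.B i ∩ d.Q ⊆ Xp d.B d.Q d.T d.U
  · refine ⟨Sum.inr i, mem_nodes_inr.2 ?_, rfl⟩
    exact mem_sdiff.2 ⟨mem_ins.2 ⟨hi, hX⟩, hT⟩
  · rw [not_subset] at hX
    obtain ⟨v, hv, hvX⟩ := hX
    obtain ⟨hv1, hv2⟩ := mem_inter.1 hv
    have h1 : v ∈ d.Q \ Xp d.B d.Q d.T d.U := mem_sdiff.2 ⟨hv2, hvX⟩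
    rw [h.frm.sdiff_X] at h1
    rcases mem_union.1 h1 with h2 | h2
    · obtain ⟨A, hA, hvA⟩ := mem_biUnion.1 h2
      exact ⟨Sum.inl A, mem_nodes_inl.2 (Or.inl hA), ⟨v, mem_inter.2 ⟨hv1, hvA⟩⟩⟩
    · rw [← h.un] at h2
      obtain ⟨A, hA, hvA⟩ := mem_biUnion.1 h2
      exact ⟨Sum.inl A, mem_nodes_inl.2 (Or.inr hA), ⟨v, mem_inter.2 ⟨hv1, hvA⟩⟩⟩

theorem node_sub (h : d.Ok) {A : Finset V} (hA : A ∈ d.F ∨ A ∈ d.ec) :
    A ⊆ d.Q \ Xp d.B d.Q d.T d.U := by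
  rw [h.frm.sdiff_X]
  rcases hA with hA | hA
  · exact (subset_biUnion_of_mem id hA).trans subset_union_left
  · exact (h.ec_sub hA).trans subset_union_right

/-- a removed point meets all the nodes of its blocks. -/
theorem sees_at (h : d.Ok) {i : ι} {p : V} (hp : p ∈ d.B i) (hX : p ∈ Xp d.B d.Q d.T d.U)
    {ν : Finset V ⊕ ι} (hν : AtN d i ν) : d.Sees p ν := by
  obtain ⟨h1, h2⟩ := hν
  rcases ν with A | k
  · obtain ⟨y, hy⟩ := h2
    obtain ⟨hy1, hy2⟩ := mem_inter.1 hy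
    refine ⟨y, hy2, ?_, i, hp, hy1⟩
    rintro rfl
    exact (mem_sdiff.1 (h.node_sub (mem_nodes_inl.1 h1) hy2)).2 hX
  · have h3 : i = k := h2
    subst h3
    exact hp

/-- leaves and even components are separated. -/
theorem node_sep (h : d.Ok) {A A' : Finset V} (hA : A ∈ d.F ∨ A ∈ d.ec)
    (hA' : A' ∈ d.F ∨ A' ∈ d.ec) {i : ι} (h1 : (d.B i ∩ A).Nonempty) (h2 : (d.B i ∩ A').Nonempty) :
    A = A' := by
  by_contra hne
  have key : ∀ {A A' : Finset V}, A ∈ d.F → A' ∈ d.ec → (d.B i ∩ A).Nonempty →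
      (d.B i ∩ A').Nonempty → False := by
    intro A A' hA hA' h1 h2
    refine h.frm.sepE i ?_ (h2.mono (inter_subset_inter_left (h.ec_sub hA')))
    exact h1.mono (inter_subset_inter_left (subset_biUnion_of_mem id hA))
  rcases hA with hA | hA
  · rcases hA' with hA' | hA'
    · exact (h.frm.sepF A hA A' hA' hne).2 i h1 h2
    · exact key hA hA' h1 h2
  · rcases hA' with hA' | hA'
    · exact key hA' hA h2 h1
    · exact (h.sep A hA A' hA' hne).2 i h1 h2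

theorem mem_X_of_T (h : d.Ok) {j : ι} (hj : j ∈ d.T) {p : V} (hp : p ∈ d.B j) (hQ : p ∈ d.Q) :
    p ∈ Xp d.B d.Q d.T d.U :=
  mem_union_left _ (mem_inter.2 ⟨mem_biUnion.2 ⟨j, hj, hp⟩, hQ⟩)

omit [Fintype ι] [DecidableEq ι] in
theorem mem_X_of_U {p : V} (hp : p ∈ d.U) : p ∈ Xp d.B d.Q d.T d.U := mem_union_right _ hp

/-- the nodes of a block meeting a class are in the class. -/
theorem at_sub (h : d.Ok) (hC : C ⊆ d.nodes) {i : ι} {p : V} (hp : p ∈ d.B i) (hpZ : p ∈ d.Z C)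
    {ν : Finset V ⊕ ι} (hν : AtN d i ν) : ν ∈ C := by
  have key : ∀ {A : Finset V}, (A ∈ d.F ∨ A ∈ d.ec) → (Sum.inl A : Finset V ⊕ ι) ∈ C → p ∈ A →
      ν ∈ C := by
    intro A hA hAC hpA
    rcases ν with A' | k
    · have h2 := h.node_sep hA (mem_nodes_inl.1 hν.1) ⟨p, mem_inter.2 ⟨hp, hpA⟩⟩ hν.2
      exact h2 ▸ hAC
    · exfalso
      have h2 : i = k := hν.2
      have h3 := mem_nodes_inr.1 hν.1
      rw [← h2] at h3
      have h4 := (mem_ins.1 (mem_sdiff.1 h3).1).2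
      have h5 := mem_sdiff.1 (h.node_sub hA hpA)
      exact h5.2 (h4 (mem_inter.2 ⟨hp, h5.1⟩))
  rcases mem_Z.1 hpZ with ⟨j, hj, hpj, hpQ⟩ | hpU | ⟨A, hA, hpA⟩ | hpE
  · obtain ⟨hjT, -, hjC⟩ := mem_tin.1 hj
    refine hjC (mem_NT.2 ⟨hν.1, p, mem_inter.2 ⟨hpj, hpQ⟩, ?_⟩)
    exact h.sees_at hp (h.mem_X_of_T hjT hpj hpQ) hν
  · obtain ⟨hpU1, hpC⟩ := mem_uin.1 hpU
    exact hpC (mem_N.2 ⟨hν.1, h.sees_at hp (mem_X_of_U hpU1) hν⟩)
  · obtain ⟨hA1, hA2⟩ := mem_lv.1 hA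
    exact key (Or.inl hA1) hA2 hpA
  · obtain ⟨A, hA1, hA2, hpA⟩ := mem_ev.1 hpE
    exact key (Or.inr hA1) hA2 hpA

/-- every triple meets a node. -/
theorem NT_ne (h : d.Ok) {j : ι} (hj : j ∈ d.T) : (d.NT j).Nonempty := by
  have hc3 := h.frm.mtp.tpk.pack.card j hj
  have hZne : (d.B j ∩ d.Q).Nonempty := card_pos.1 (by omega)
  have hne : d.B j ∩ d.Q ≠ d.Q := by
    intro he
    have h1 := h.big
    rw [← he] at h1
    omega
  have h1 : ¬ Closed (gr d.B) d.Q (d.B j ∩ d.Q) := fun hcl => hne (h.conn.2 _ hcl hZne)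
  unfold Closed at h1
  rw [not_and] at h1
  have h2 := h1 inter_subset_right
  push Not at h2
  obtain ⟨x, hx, y, hy, ⟨_, i, hxi, hyi⟩, hyn⟩ := h2
  obtain ⟨hxj, hxQ⟩ := mem_inter.1 hx
  have hiT : i ∉ d.T := by
    intro hiT
    by_cases hij : i = j
    · subst hij
      exact hyn (mem_inter.2 ⟨hyi, hy⟩)
    · exact disjoint_left.1 (h.frm.mtp.tpk.pack.disj i hiT j hj hij)
        (mem_inter.2 ⟨hxi, hxQ⟩) hx
  obtain ⟨ν, hν⟩ := h.exists_at ⟨x, mem_inter.2 ⟨hxi, hxQ⟩⟩ hiT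
  exact ⟨ν, mem_NT.2 ⟨hν.1, x, hx, h.sees_at hxi (h.mem_X_of_T hj hxj hxQ) hν⟩⟩

/-- every point of `U` meets two leaves. -/
theorem surplus (h : d.Ok) {Y : Finset V} (hY : Y ⊆ d.U) (hne : Y.Nonempty) :
    Y.card + 1 ≤ ((Y.biUnion d.N) ∩ d.lf).card := by
  have h1 := h.frm.ge.surplus Y hY hne
  have h2 : (nbF (gr d.B) d.F Y).card = ((nbF (gr d.B) d.F Y).image
      (Sum.inl : Finset V → Finset V ⊕ ι)).card := by
    rw [card_image_of_injective _ Sum.inl_injective]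
  rw [h2] at h1
  refine h1.trans (card_le_card ?_)
  intro ν hν
  obtain ⟨A, hA, rfl⟩ := mem_image.1 hν
  obtain ⟨hA1, x, hx, y, hy, hxy⟩ := mem_nbF.1 hA
  refine mem_inter.2 ⟨mem_biUnion.2 ⟨x, hx, mem_N.2 ⟨mem_nodes_inl.2 (Or.inl hA1), ?_⟩⟩,
    mem_image.2 ⟨A, hA1, rfl⟩⟩
  exact ⟨y, hy, hxy⟩

/-- the data for the graph part. -/
theorem gd (h : d.Ok) : Sp.Gd d.nodes d.lf d.U d.N d.T d.NT where
  sub := by
    intro ν hν
    obtain ⟨A, hA, rfl⟩ := mem_image.1 hν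
    exact mem_nodes_inl.2 (Or.inl hA)
  NU := fun u _ ν hν => (mem_N.1 hν).1
  NTs := fun j _ ν hν => (mem_NT.1 hν).1
  sur := fun Y hY hne => h.surplus hY hne

theorem N_ne (h : d.Ok) {u : V} (hu : u ∈ d.U) : (d.N u).Nonempty := h.gd.N_ne hu

/-- a point of a triple in a class: the triple is inside the class. -/
theorem tin_of_mem (h : d.Ok) {j : ι} (hj : j ∈ d.T) {p : V} (hp : p ∈ d.B j) (hpQ : p ∈ d.Q)
    (hZ : p ∈ d.Z C) : j ∈ d.tin C := by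
  have hpD : p ∉ Dp d.B d.Q d.T := fun h1 => (mem_sdiff.1 h1).2 (mem_biUnion.2 ⟨j, hj, hp⟩)
  rcases mem_Z.1 hZ with ⟨k, hk, hpk, _⟩ | hpU | ⟨A, hA, hpA⟩ | hpE
  · by_cases hkj : k = j
    · exact hkj ▸ hk
    · exact absurd (mem_inter.2 ⟨hp, hpQ⟩) (disjoint_left.1
        (h.frm.mtp.tpk.pack.disj k (tin_sub hk) j hj hkj) (mem_inter.2 ⟨hpk, hpQ⟩))
  · exact absurd (h.frm.UD (uin_sub hpU)) hpD
  · exact absurd (h.frm.FD (lv_sub hA) hpA) hpD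
  · exact absurd (Frm.ED (h.ev_sub hpE)) hpD

theorem uin_of_mem (h : d.Ok) {u : V} (hu : u ∈ d.U) (hZ : u ∈ d.Z C) : u ∈ d.uin C := by
  rcases mem_Z.1 hZ with ⟨k, hk, hpk, _⟩ | hpU | ⟨A, hA, hpA⟩ | hpE
  · exact absurd (mem_biUnion.2 ⟨k, tin_sub hk, hpk⟩) (mem_sdiff.1 (h.frm.UD hu)).2
  · exact hpU
  · exact absurd hu (disjoint_left.1 (h.frm.ge.FU A (lv_sub hA)) hpA)
  · exact absurd hu (mem_sdiff.1 (mem_sdiff.1 (h.ev_sub hpE)).1).2

/-- a point of a node in a class: the node is in the class. -/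
theorem node_of_mem (h : d.Ok) {A : Finset V} (hA : A ∈ d.F ∨ A ∈ d.ec) {p : V} (hp : p ∈ A)
    (hZ : p ∈ d.Z C) : (Sum.inl A : Finset V ⊕ ι) ∈ C := by
  have h1 := mem_sdiff.1 (h.node_sub hA hp)
  have hcov := h.frm.cov p h1.1
  obtain ⟨i, hi⟩ := hcov
  have key : ∀ {A' : Finset V}, (A' ∈ d.F ∨ A' ∈ d.ec) → p ∈ A' → A' = A := fun hA' hp' =>
    h.node_sep hA' hA ⟨p, mem_inter.2 ⟨hi, hp'⟩⟩ ⟨p, mem_inter.2 ⟨hi, hp⟩⟩
  rcases mem_Z.1 hZ with ⟨k, hk, hpk, hpQ⟩ | hpU | ⟨A', hA', hpA⟩ | hpE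
  · exact absurd (h.mem_X_of_T (tin_sub hk) hpk hpQ) h1.2
  · exact absurd (mem_X_of_U (uin_sub hpU)) h1.2
  · obtain ⟨h2, h3⟩ := mem_lv.1 hA'
    exact key (Or.inl h2) hpA ▸ h3
  · obtain ⟨A', h2, h3, h4⟩ := mem_ev.1 hpE
    exact key (Or.inr h2) h4 ▸ h3

/-- disjoint classes have disjoint and separated point sets. -/
theorem Z_sep (h : d.Ok) {C C' : Finset (Finset V ⊕ ι)} (hC : C ⊆ d.nodes) (hC' : C' ⊆ d.nodes)
    (hd : Disjoint C C') : Disjoint (d.Z C) (d.Z C') ∧ Sep d.B (d.Z C) (d.Z C') := by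
  have hs : Sep d.B (d.Z C) (d.Z C') := by
    rintro i ⟨p, hp⟩ ⟨q, hq⟩
    obtain ⟨hp1, hp2⟩ := mem_inter.1 hp
    obtain ⟨hq1, hq2⟩ := mem_inter.1 hq
    by_cases hiT : i ∈ d.T
    · obtain ⟨-, ⟨ν, hν⟩, h1⟩ := mem_tin.1 (h.tin_of_mem hiT hp1 (h.Z_sub hp2) hp2)
      obtain ⟨-, -, h2⟩ := mem_tin.1 (h.tin_of_mem hiT hq1 (h.Z_sub hq2) hq2)
      exact disjoint_left.1 hd (h1 hν) (h2 hν)
    · obtain ⟨ν, hν⟩ := h.exists_at ⟨p, mem_inter.2 ⟨hp1, h.Z_sub hp2⟩⟩ hiT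
      exact disjoint_left.1 hd (h.at_sub hC hp1 hp2 hν) (h.at_sub hC' hq1 hq2 hν)
  refine ⟨?_, hs⟩
  rw [disjoint_left]
  intro p hp hp'
  obtain ⟨i, hi⟩ := h.frm.cov p (h.Z_sub hp)
  exact hs i ⟨p, mem_inter.2 ⟨hi, hp⟩⟩ ⟨p, mem_inter.2 ⟨hi, hp'⟩⟩

theorem node_conn (h : d.Ok) {A : Finset V} (hA : A ∈ d.F ∨ A ∈ d.ec) : Conn (gr d.B) A := by
  rcases hA with hA | hA
  · have hfc := h.frm.ge.sys.fc A hA
    exact ⟨hfc.1, fun Y hY hne => hfc.conn hY hne⟩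
  · exact h.ecc A hA

omit [Fintype ι] in
theorem node_sub_Z {A : Finset V} (hA : A ∈ d.F ∨ A ∈ d.ec)
    (hAC : (Sum.inl A : Finset V ⊕ ι) ∈ C) [Fintype ι] : A ⊆ d.Z C := by
  intro v hv
  rcases hA with hA | hA
  · exact mem_Z.2 (Or.inr (Or.inr (Or.inl ⟨A, mem_lv.2 ⟨hA, hAC⟩, hv⟩)))
  · exact mem_Z.2 (Or.inr (Or.inr (Or.inr (mem_ev.2 ⟨A, hA, hAC, hv⟩))))

/-- connected classes have connected point sets. -/
theorem Z_conn (h : d.Ok) (hC : C ⊆ d.nodes) (hc : Sp.Cnn d.U d.N d.T d.NT C)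
    (hne : (d.Z C).Nonempty) : Conn (gr d.B) (d.Z C) := by
  classical
  refine ⟨hne, fun Y hY hYne => ?_⟩
  obtain ⟨hYZ, hcl⟩ := hY
  have hleaf : ∀ {A : Finset V}, (Sum.inl A : Finset V ⊕ ι) ∈ C → (A ∩ Y).Nonempty → A ⊆ Y := by
    intro A hAC hAY
    have hA := mem_nodes_inl.1 (hC hAC)
    have h1 := (h.node_conn hA).2 (A ∩ Y) ⟨inter_subset_left, fun x hx y hy hxy =>
      mem_inter.2 ⟨hy, hcl x (mem_inter.1 hx).2 y (node_sub_Z hA hAC hy) hxy⟩⟩ hAY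
    rw [← h1]
    exact inter_subset_right
  have htri : ∀ j ∈ d.tin C, ∀ p ∈ d.B j ∩ d.Q, p ∈ Y → d.B j ∩ d.Q ⊆ Y := by
    intro j hj p hp hpY q hq
    by_cases hpq : p = q
    · exact hpq ▸ hpY
    · exact hcl p hpY q (mem_Z.2 (Or.inl ⟨j, hj, (mem_inter.1 hq).1, (mem_inter.1 hq).2⟩))
        ⟨hpq, j, (mem_inter.1 hp).1, (mem_inter.1 hq).1⟩
  set A0 : Finset (Finset V ⊕ ι) := C.filter
    (fun ν => Sum.elim (fun A => (A ∩ Y).Nonempty) (fun i => (d.B i ∩ Y).Nonempty) ν) with hA0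
  have hside : ∀ p ∈ d.Z C, ∀ ν ∈ C, d.Sees p ν → (p ∈ Y ↔ ν ∈ A0) := by
    intro p hp ν hν hsee
    rcases ν with A | k
    · obtain ⟨y, hy, hadj⟩ := hsee
      have hA := mem_nodes_inl.1 (hC hν)
      constructor
      · intro hpY
        exact mem_filter.2 ⟨hν, ⟨y, mem_inter.2 ⟨hy, hcl p hpY y (node_sub_Z hA hν hy) hadj⟩⟩⟩
      · intro hA'
        have h1 : (A ∩ Y).Nonempty := (mem_filter.1 hA').2
        exact hcl y (hleaf hν h1 hy) p hp hadj.symm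
    · have hpk : p ∈ d.B k := hsee
      constructor
      · intro hpY
        exact mem_filter.2 ⟨hν, ⟨p, mem_inter.2 ⟨hpk, hpY⟩⟩⟩
      · intro hA'
        have h1 : (d.B k ∩ Y).Nonempty := (mem_filter.1 hA').2
        obtain ⟨q, hq⟩ := h1
        obtain ⟨hq1, hq2⟩ := mem_inter.1 hq
        by_cases hpq : q = p
        · exact hpq ▸ hq2
        · exact hcl q hq2 p hp ⟨hpq, k, hq1, hpk⟩
  have hTZ : ∀ j ∈ d.tin C, ∀ p ∈ d.B j ∩ d.Q, p ∈ d.Z C := fun j hj p hp =>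
    mem_Z.2 (Or.inl ⟨j, hj, (mem_inter.1 hp).1, (mem_inter.1 hp).2⟩)
  have hUZ : ∀ u ∈ d.uin C, u ∈ d.Z C := fun u hu => mem_Z.2 (Or.inr (Or.inl hu))
  have hTin : ∀ j ∈ d.tin C, ∀ ν ∈ d.NT j, (ν ∈ A0 ↔ d.B j ∩ d.Q ⊆ Y) := by
    intro j hj ν hν
    obtain ⟨hν1, p, hp, hsee⟩ := mem_NT.1 hν
    have hνC : ν ∈ C := (mem_tin.1 hj).2.2 hν
    rw [← hside p (hTZ j hj p hp) ν hνC hsee]
    exact ⟨fun h1 => htri j hj p hp h1, fun h1 => h1 hp⟩
  have hUin : ∀ u ∈ d.uin C, ∀ ν ∈ d.N u, (ν ∈ A0 ↔ u ∈ Y) := by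
    intro u hu ν hν
    obtain ⟨hν1, hsee⟩ := mem_N.1 hν
    exact (hside u (hUZ u hu) ν ((mem_uin.1 hu).2 hν) hsee).symm
  have hA0C : A0 ⊆ C := filter_subset _ _
  have hA0ne : A0.Nonempty := by
    obtain ⟨y, hy⟩ := hYne
    rcases mem_Z.1 (hYZ hy) with ⟨j, hj, hyj, hyQ⟩ | hyU | ⟨A, hA, hyA⟩ | hyE
    · obtain ⟨-, ⟨ν, hν⟩, -⟩ := mem_tin.1 hj
      exact ⟨ν, (hTin j hj ν hν).2 (htri j hj y (mem_inter.2 ⟨hyj, hyQ⟩) hy)⟩
    · obtain ⟨ν, hν⟩ := h.N_ne (uin_sub hyU)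
      exact ⟨ν, (hUin y hyU ν hν).2 hy⟩
    · exact ⟨Sum.inl A, mem_filter.2 ⟨(mem_lv.1 hA).2, ⟨y, mem_inter.2 ⟨hyA, hy⟩⟩⟩⟩
    · obtain ⟨A, _, hAC, hyA⟩ := mem_ev.1 hyE
      exact ⟨Sum.inl A, mem_filter.2 ⟨hAC, ⟨y, mem_inter.2 ⟨hyA, hy⟩⟩⟩⟩
  have hall : A0 = C := by
    by_contra hne'
    rcases hc A0 hA0C hA0ne hne' with ⟨j, hj, h1, h2⟩ | ⟨u, hu, h1, h2⟩
    · have hj' : j ∈ d.tin C := hj
      by_cases hjY : d.B j ∩ d.Q ⊆ Y
      · exact h1 fun ν hν => (hTin j hj' ν hν).2 hjY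
      · exact h2 fun ν hν => mem_sdiff.2 ⟨(mem_tin.1 hj').2.2 hν,
          fun h3 => hjY ((hTin j hj' ν hν).1 h3)⟩
    · have hu' : u ∈ d.uin C := hu
      by_cases huY : u ∈ Y
      · exact h1 fun ν hν => (hUin u hu' ν hν).2 huY
      · exact h2 fun ν hν => mem_sdiff.2 ⟨(mem_uin.1 hu').2 hν,
          fun h3 => huY ((hUin u hu' ν hν).1 h3)⟩
  refine hYZ.antisymm fun z hz => ?_
  rcases mem_Z.1 hz with ⟨j, hj, hyj, hyQ⟩ | hyU | ⟨A, hA, hyA⟩ | hyE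
  · obtain ⟨-, ⟨ν, hν⟩, h2⟩ := mem_tin.1 hj
    have h1 : ν ∈ A0 := by
      rw [hall]
      exact h2 hν
    exact (hTin j hj ν hν).1 h1 (mem_inter.2 ⟨hyj, hyQ⟩)
  · obtain ⟨ν, hν⟩ := h.N_ne (uin_sub hyU)
    have h1 : ν ∈ A0 := by
      rw [hall]
      exact (mem_uin.1 hyU).2 hν
    exact (hUin z hyU ν hν).1 h1
  · have hAC := (mem_lv.1 hA).2
    have h1 : (Sum.inl A : Finset V ⊕ ι) ∈ A0 := by
      rw [hall]
      exact hAC
    exact hleaf hAC (mem_filter.1 h1).2 hyA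
  · obtain ⟨A, _, hAC, hyA⟩ := mem_ev.1 hyE
    have h1 : (Sum.inl A : Finset V ⊕ ι) ∈ A0 := by
      rw [hall]
      exact hAC
    exact hleaf hAC (mem_filter.1 h1).2 hyA

/-- the points of `U` inside a class are absorbed by the class, also with one leaf left out. -/
theorem mt_in (h : d.Ok) (C : Finset (Finset V ⊕ ι)) (A0 : Finset V) :
    ∃ g, MtI d.B (d.uin C) ((d.lv C).erase A0) g := by
  refine mti_of_hall fun Y hY => ?_
  rcases Y.eq_empty_or_nonempty with rfl | hne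
  · simp
  have h1 := h.frm.ge.surplus Y (hY.trans uin_sub) hne
  have h2 : nbF (gr d.B) d.F Y ⊆ nbF (gr d.B) (d.lv C) Y := by
    intro A hA
    obtain ⟨hA1, x, hx, y, hy, hxy⟩ := mem_nbF.1 hA
    refine mem_nbF.2 ⟨mem_lv.2 ⟨hA1, ?_⟩, x, hx, y, hy, hxy⟩
    exact (mem_uin.1 (hY hx)).2 (mem_N.2 ⟨mem_nodes_inl.2 (Or.inl hA1), y, hy, hxy⟩)
  have h3 := card_le_card h2
  have h4 := nbF_erase (G := gr d.B) (F := d.lv C) (Z := Y) (C := A0)
  omega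

/-- a class with one more point at one of its leaves. -/
theorem mt_in_insert (h : d.Ok) {C : Finset (Finset V ⊕ ι)} {A0 : Finset V} (hA0 : A0 ∈ d.lv C)
    {p : V} (hp : ∃ y ∈ A0, (gr d.B).Adj p y) : ∃ g, MtI d.B (insert p (d.uin C)) (d.lv C) g := by
  classical
  obtain ⟨g, hg⟩ := h.mt_in C A0
  have hd : Disjoint ({A0} : Finset (Finset V)) ((d.lv C).erase A0) := by
    rw [disjoint_singleton_left]
    exact notMem_erase _ _
  obtain ⟨g'', hg'', -, -⟩ := (MtI.singleton hp).union hg (singleton_subset_iff.2 hA0)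
    (erase_subset _ _) hd
  exact ⟨g'', by rwa [insert_eq]⟩

end Ok

/-- the outer points. -/
noncomputable def Xo (d : ND V ι) (P : Finset (Finset (Finset V ⊕ ι))) : Finset V :=
  ((Sp.Tx d.T d.NT P).biUnion d.B ∩ d.Q) ∪ Sp.Ux d.U d.N P

/-- a partition of the nodes. -/
structure Par (d : ND V ι) (P : Finset (Finset (Finset V ⊕ ι))) : Prop where
  dj : ∀ C ∈ P, ∀ D ∈ P, C ≠ D → Disjoint C D
  un : P.biUnion id = d.nodes

/-- the blocks between the outer points. -/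
noncomputable def bo (d : ND V ι) (P : Finset (Finset (Finset V ⊕ ι))) : Finset ι :=
  (ins d.B d.Q (d.Xo P)) \ Sp.Tx d.T d.NT P

/-- every class can be free. -/
def Fre (d : ND V ι) (P : Finset (Finset (Finset V ⊕ ι))) : Prop :=
  ∀ C ∈ P, ∃ g, MtI d.B (d.U \ d.uin C) (d.F \ d.lv C) g

variable {P : Finset (Finset (Finset V ⊕ ι))}

theorem Par.sub (hP : d.Par P) {C : Finset (Finset V ⊕ ι)} (hC : C ∈ P) : C ⊆ d.nodes := by
  rw [← hP.un]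
  exact subset_biUnion_of_mem id hC

namespace Ok

variable {C : Finset (Finset V ⊕ ι)}

theorem mem_Tx {j : ι} : j ∈ Sp.Tx d.T d.NT P ↔
    j ∈ d.T ∧ (d.NT j).Nonempty ∧ ∀ C ∈ P, ¬ d.NT j ⊆ C := by
  simp only [Sp.Tx, mem_filter]

theorem mem_Ux {u : V} : u ∈ Sp.Ux d.U d.N P ↔ u ∈ d.U ∧ ∀ C ∈ P, ¬ d.N u ⊆ C := by
  simp only [Sp.Ux, mem_filter]

/-- the classes cover everything except the outer points. -/
theorem cover (h : d.Ok) (hP : d.Par P) : d.Q \ d.Xo P = P.biUnion d.Z := by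
  ext v
  have hnode : ∀ {A : Finset V}, (A ∈ d.F ∨ A ∈ d.ec) → v ∈ A → v ∈ P.biUnion d.Z := by
    intro A hA hv
    have h1 : (Sum.inl A : Finset V ⊕ ι) ∈ P.biUnion id := by
      rw [hP.un]
      exact mem_nodes_inl.2 hA
    obtain ⟨C, hC, hAC⟩ := mem_biUnion.1 h1
    exact mem_biUnion.2 ⟨C, hC, node_sub_Z hA hAC hv⟩
  constructor
  · intro hv
    obtain ⟨hvQ, hvX⟩ := mem_sdiff.1 hv
    by_cases hvT : v ∈ d.T.biUnion d.B
    · obtain ⟨j, hj, hvj⟩ := mem_biUnion.1 hvT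
      have hjx : j ∉ Sp.Tx d.T d.NT P := fun h1 => hvX (mem_union_left _
        (mem_inter.2 ⟨mem_biUnion.2 ⟨j, h1, hvj⟩, hvQ⟩))
      rw [mem_Tx] at hjx
      push Not at hjx
      obtain ⟨C, hC, hjC⟩ := hjx hj (h.NT_ne hj)
      exact mem_biUnion.2 ⟨C, hC, mem_Z.2 (Or.inl ⟨j, mem_tin.2 ⟨hj, h.NT_ne hj, hjC⟩, hvj, hvQ⟩)⟩
    by_cases hvU : v ∈ d.U
    · have hux : v ∉ Sp.Ux d.U d.N P := fun h1 => hvX (mem_union_right _ h1)
      rw [mem_Ux] at hux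
      push Not at hux
      obtain ⟨C, hC, huC⟩ := hux hvU
      exact mem_biUnion.2 ⟨C, hC, mem_Z.2 (Or.inr (Or.inl (mem_uin.2 ⟨hvU, huC⟩)))⟩
    by_cases hvF : v ∈ d.F.biUnion id
    · obtain ⟨A, hA, hvA⟩ := mem_biUnion.1 hvF
      exact hnode (Or.inl hA) hvA
    · have hvE : v ∈ Ep d.B d.Q d.T d.U d.F :=
        mem_sdiff.2 ⟨mem_sdiff.2 ⟨mem_sdiff.2 ⟨hvQ, hvT⟩, hvU⟩, hvF⟩
      rw [← h.un] at hvE
      obtain ⟨A, hA, hvA⟩ := mem_biUnion.1 hvE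
      exact hnode (Or.inr hA) hvA
  · intro hv
    obtain ⟨C, hC, hvC⟩ := mem_biUnion.1 hv
    refine mem_sdiff.2 ⟨h.Z_sub hvC, fun hX => ?_⟩
    rcases mem_union.1 hX with h1 | h1
    · obtain ⟨h2, hvQ⟩ := mem_inter.1 h1
      obtain ⟨j, hj, hvj⟩ := mem_biUnion.1 h2
      obtain ⟨hjT, -, hjn⟩ := mem_Tx.1 hj
      exact hjn C hC (mem_tin.1 (h.tin_of_mem hjT hvj hvQ hvC)).2.2
    · obtain ⟨huU, hun⟩ := mem_Ux.1 h1
      exact hun C hC (mem_uin.1 (h.uin_of_mem huU hvC)).2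

theorem Xo_sub (h : d.Ok) : d.Xo P ⊆ d.Q :=
  union_subset inter_subset_right ((filter_subset _ _).trans (h.frm.UD.trans Frm.DQ))

theorem card_Xo (h : d.Ok) :
    (d.Xo P).card = 3 * (Sp.Tx d.T d.NT P).card + (Sp.Ux d.U d.N P).card := by
  have hT : Sp.Tx d.T d.NT P ⊆ d.T := filter_subset _ _
  have hpk : Pack d.B d.Q 3 (Sp.Tx d.T d.NT P) := ⟨fun i hi => h.frm.mtp.tpk.pack.card i (hT hi),
    fun i hi j hj => h.frm.mtp.tpk.pack.disj i (hT hi) j (hT hj)⟩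
  unfold Xo
  rw [card_union_of_disjoint, hpk.inter_card]
  rw [disjoint_left]
  intro v hv hv'
  obtain ⟨h1, _⟩ := mem_inter.1 hv
  obtain ⟨j, hj, hvj⟩ := mem_biUnion.1 h1
  exact (mem_sdiff.1 (h.frm.UD (mem_Ux.1 hv').1)).2 (mem_biUnion.2 ⟨j, hT hj, hvj⟩)

theorem Tx_sub_ins (h : d.Ok) : Sp.Tx d.T d.NT P ⊆ ins d.B d.Q (d.Xo P) := by
  intro j hj
  have h1 := h.frm.mtp.tpk.pack.card j (mem_Tx.1 hj).1
  refine mem_ins.2 ⟨card_pos.1 (by omega), fun v hv => mem_union_left _ (mem_inter.2 ⟨?_, ?_⟩)⟩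
  · exact mem_biUnion.2 ⟨j, hj, (mem_inter.1 hv).1⟩
  · exact (mem_inter.1 hv).2

theorem sum_lv (hP : d.Par P) (f : Finset V → ℕ) :
    ∑ C ∈ P, ∑ A ∈ d.lv C, f A = ∑ A ∈ d.F, f A := by
  rw [← sum_biUnion]
  · congr 1
    ext A
    simp only [mem_biUnion, mem_lv]
    constructor
    · rintro ⟨C, _, hA, _⟩
      exact hA
    · intro hA
      have h1 : (Sum.inl A : Finset V ⊕ ι) ∈ P.biUnion id := by
        rw [hP.un]
        exact mem_nodes_inl.2 (Or.inl hA)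
      obtain ⟨C, hC, hAC⟩ := mem_biUnion.1 h1
      exact ⟨C, hC, hA, hAC⟩
  · intro C hC D hD hne
    show Disjoint (d.lv C) (d.lv D)
    rw [disjoint_left]
    intro A hA hA'
    exact disjoint_left.1 (hP.dj C hC D hD hne) (mem_lv.1 hA).2 (mem_lv.1 hA').2

theorem sum_tin (h : d.Ok) (hP : d.Par P) :
    ∑ C ∈ P, (d.tin C).card + (Sp.Tx d.T d.NT P).card = d.T.card := by
  rw [← card_biUnion, ← card_union_of_disjoint]
  · congr 1
    ext j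
    simp only [mem_union, mem_biUnion, mem_tin, mem_Tx]
    constructor
    · rintro (⟨C, _, hj, _⟩ | ⟨hj, _⟩)
      · exact hj
      · exact hj
    · intro hj
      by_cases hx : ∀ C ∈ P, ¬ d.NT j ⊆ C
      · exact Or.inr ⟨hj, h.NT_ne hj, hx⟩
      · push Not at hx
        obtain ⟨C, hC, h1⟩ := hx
        exact Or.inl ⟨C, hC, hj, h.NT_ne hj, h1⟩
  · rw [disjoint_left]
    intro j hj hj'
    obtain ⟨C, hC, h1⟩ := mem_biUnion.1 hj
    exact (mem_Tx.1 hj').2.2 C hC (mem_tin.1 h1).2.2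
  · intro C hC D hD hne
    show Disjoint (d.tin C) (d.tin D)
    rw [disjoint_left]
    intro j hj hj'
    obtain ⟨ν, hν⟩ := (mem_tin.1 hj).2.1
    exact disjoint_left.1 (hP.dj C hC D hD hne) ((mem_tin.1 hj).2.2 hν) ((mem_tin.1 hj').2.2 hν)

theorem sum_uin (h : d.Ok) (hP : d.Par P) :
    ∑ C ∈ P, (d.uin C).card + (Sp.Ux d.U d.N P).card = d.U.card := by
  rw [← card_biUnion, ← card_union_of_disjoint]
  · congr 1
    ext j
    simp only [mem_union, mem_biUnion, mem_uin, mem_Ux]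
    constructor
    · rintro (⟨C, _, hj, _⟩ | ⟨hj, _⟩)
      · exact hj
      · exact hj
    · intro hj
      by_cases hx : ∀ C ∈ P, ¬ d.N j ⊆ C
      · exact Or.inr ⟨hj, hx⟩
      · push Not at hx
        obtain ⟨C, hC, h1⟩ := hx
        exact Or.inl ⟨C, hC, hj, h1⟩
  · rw [disjoint_left]
    intro j hj hj'
    obtain ⟨C, hC, h1⟩ := mem_biUnion.1 hj
    exact (mem_Ux.1 hj').2 C hC (mem_uin.1 h1).2
  · intro C hC D hD hne
    show Disjoint (d.uin C) (d.uin D)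
    rw [disjoint_left]
    intro j hj hj'
    obtain ⟨ν, hν⟩ := h.N_ne (mem_uin.1 hj).1
    exact disjoint_left.1 (hP.dj C hC D hD hne) ((mem_uin.1 hj).2 hν) ((mem_uin.1 hj').2 hν)

theorem cov_Z (h : d.Ok) : Cov d.B (d.Z C) := h.frm.cov.mono h.Z_sub

theorem ev_sep (h : d.Ok) {D : Finset (Finset V ⊕ ι)} (hd : Disjoint C D) :
    Disjoint (d.ev C) (d.ev D) ∧ Sep d.B (d.ev C) (d.ev D) := by
  have key : ∀ {A A' : Finset V}, A ∈ d.ec → A' ∈ d.ec → (Sum.inl A : Finset V ⊕ ι) ∈ C →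
      (Sum.inl A' : Finset V ⊕ ι) ∈ D → A ≠ A' := by
    rintro A A' _ _ h1 h2 rfl
    exact disjoint_left.1 hd h1 h2
  constructor
  · rw [disjoint_left]
    intro v hv hv'
    obtain ⟨A, hA, hAC, hvA⟩ := mem_ev.1 hv
    obtain ⟨A', hA', hAC', hvA'⟩ := mem_ev.1 hv'
    exact disjoint_left.1 (h.sep A hA A' hA' (key hA hA' hAC hAC')).1 hvA hvA'
  · rintro i ⟨v, hv⟩ ⟨w, hw⟩
    obtain ⟨hv1, hv2⟩ := mem_inter.1 hv
    obtain ⟨hw1, hw2⟩ := mem_inter.1 hw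
    obtain ⟨A, hA, hAC, hvA⟩ := mem_ev.1 hv2
    obtain ⟨A', hA', hAC', hwA'⟩ := mem_ev.1 hw2
    exact (h.sep A hA A' hA' (key hA hA' hAC hAC')).2 i ⟨v, mem_inter.2 ⟨hv1, hvA⟩⟩
      ⟨w, mem_inter.2 ⟨hw1, hwA'⟩⟩

theorem sum_ev (h : d.Ok) (hP : d.Par P) :
    ∑ C ∈ P, rho d.B (d.ev C) = rho d.B (Ep d.B d.Q d.T d.U d.F) := by
  rw [← rho_biUnion' P d.ev (fun C _ => h.frm.covE.mono h.ev_sub)
    (fun C hC D hD hne => h.ev_sep (hP.dj C hC D hD hne))]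
  congr 1
  ext v
  constructor
  · intro hv
    obtain ⟨C, _, hvC⟩ := mem_biUnion.1 hv
    exact h.ev_sub hvC
  · intro hv
    rw [← h.un] at hv
    obtain ⟨A, hA, hvA⟩ := mem_biUnion.1 hv
    have h1 : (Sum.inl A : Finset V ⊕ ι) ∈ P.biUnion id := by
      rw [hP.un]
      exact mem_nodes_inl.2 (Or.inr hA)
    obtain ⟨C, hC, hAC⟩ := mem_biUnion.1 h1
    exact mem_biUnion.2 ⟨C, hC, mem_ev.2 ⟨A, hA, hAC, hvA⟩⟩

theorem rho_Z (h : d.Ok) (hf : d.Fre P) (hC : C ∈ P) :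
    rho d.B (d.Z C) = ∑ A ∈ d.lv C, rho d.B A + rho d.B (d.ev C) + (d.tin C).card := by
  obtain ⟨g, hg⟩ := hf C hC
  obtain ⟨g', hg'⟩ := h.mt_in C ∅
  exact h.frm.rho_cls lv_sub h.dcl tin_sub uin_sub
    (hg'.mono (Subset.refl _) (erase_subset _ _)) hg

/-- the value of a class. -/
theorem sv_Z (h : d.Ok) (hf : d.Fre P) (hC : C ∈ P) :
    sv d.B (d.Z C) = ((d.tin C).card : ℤ) + (d.uin C).card - (d.lv C).card := by
  obtain ⟨g, hg⟩ := hf C hC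
  obtain ⟨g', hg'⟩ := h.mt_in C ∅
  exact h.frm.sv_cls lv_sub h.dcl tin_sub uin_sub
    (hg'.mono (Subset.refl _) (erase_subset _ _)) hg

theorem rho_outer (h : d.Ok) (hP : d.Par P) (hf : d.Fre P) :
    rho d.B (d.Q \ d.Xo P) + (Sp.Tx d.T d.NT P).card = rho d.B d.Q := by
  rw [h.cover hP, rho_biUnion' P d.Z (fun C _ => h.cov_Z)
    (fun C hC D hD hne => h.Z_sep (hP.sub hC) (hP.sub hD) (hP.dj C hC D hD hne)),
    sum_congr rfl (fun C hC => h.rho_Z hf hC), sum_add_distrib, sum_add_distrib, sum_lv hP,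
    h.sum_ev hP]
  have h1 := h.sum_tin hP
  have h2 := h.frm.rho_split
  omega

/-- **the sum over the classes.** -/
theorem Pp_sum (h : d.Ok) (hP : d.Par P) (hf : d.Fre P) :
    Pp d.B d.Q = ∑ C ∈ P, Pp d.B (d.Z C) + 4 * ((Sp.Ux d.U d.N P).card : ℤ) -
      6 * ((Sp.Tx d.T d.NT P).card : ℤ) + 4 * ((d.bo P).card : ℤ) := by
  have h1 := Pp_sdiff (B := d.B) (h.Xo_sub (P := P))
  have h2 := h.rho_outer hP hf
  rw [h.cover hP, Pp_biUnion' P d.Z (fun C _ => h.cov_Z)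
    (fun C hC D hD hne => h.Z_sep (hP.sub hC) (hP.sub hD) (hP.dj C hC D hD hne)),
    h.card_Xo] at h1
  rw [h.cover hP] at h2
  have h3 := card_sdiff_add_card_eq_card (h.Tx_sub_ins (P := P))
  unfold bo
  push_cast at h1
  have h3' : (((ins d.B d.Q (d.Xo P)) \ Sp.Tx d.T d.NT P).card : ℤ) +
      (Sp.Tx d.T d.NT P).card = (ins d.B d.Q (d.Xo P)).card := by exact_mod_cast h3
  have h2' : (rho d.B (P.biUnion d.Z) : ℤ) + (Sp.Tx d.T d.NT P).card = rho d.B d.Q := by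
    exact_mod_cast h2
  linarith

theorem sv_sum (h : d.Ok) (hP : d.Par P) (hf : d.Fre P) :
    sv d.B d.Q = ∑ C ∈ P, sv d.B (d.Z C) + ((Sp.Ux d.U d.N P).card : ℤ) +
      ((Sp.Tx d.T d.NT P).card : ℤ) := by
  have h2 := h.rho_outer hP hf
  have h3 := card_sdiff_add_card_eq_card (h.Xo_sub (P := P))
  rw [h.card_Xo] at h3
  have hs : ∀ C ∈ P, ∀ D ∈ P, C ≠ D → Disjoint (d.Z C) (d.Z D) ∧ Sep d.B (d.Z C) (d.Z D) :=
    fun C hC D hD hne => h.Z_sep (hP.sub hC) (hP.sub hD) (hP.dj C hC D hD hne)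
  have h4 : ((P.biUnion d.Z).card : ℤ) = ∑ C ∈ P, ((d.Z C).card : ℤ) := by
    have h5 := card_biUnion (s := P) (t := d.Z) (fun C hC D hD hne => (hs C hC D hD hne).1)
    rw [h5]
    push_cast
    rfl
  have h5 : (rho d.B (P.biUnion d.Z) : ℤ) = ∑ C ∈ P, (rho d.B (d.Z C) : ℤ) := by
    rw [rho_biUnion' P d.Z (fun C _ => h.cov_Z) hs]
    push_cast
    rfl
  rw [h.cover hP] at h2 h3
  have h6 : ∑ C ∈ P, sv d.B (d.Z C) = ((P.biUnion d.Z).card : ℤ) -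
      2 * (rho d.B (P.biUnion d.Z) : ℤ) := by
    rw [h4, h5, mul_sum, ← sum_sub_distrib]
    rfl
  rw [h6]
  unfold sv
  have h2' : (rho d.B (P.biUnion d.Z) : ℤ) + (Sp.Tx d.T d.NT P).card = rho d.B d.Q := by
    exact_mod_cast h2
  have h3' : ((P.biUnion d.Z).card : ℤ) + (3 * (Sp.Tx d.T d.NT P).card +
      (Sp.Ux d.U d.N P).card) = d.Q.card := by exact_mod_cast h3
  linarith

/-- the sum for the first potential. -/
theorem Pv_sum (h : d.Ok) (hP : d.Par P) (hf : d.Fre P) :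
    Pv d.B d.Q = ∑ C ∈ P, Pv d.B (d.Z C) + 5 * ((Sp.Ux d.U d.N P).card : ℤ) -
      5 * ((Sp.Tx d.T d.NT P).card : ℤ) + 4 * ((d.bo P).card : ℤ) := by
  have h1 := h.Pp_sum hP hf
  have h2 := h.sv_sum hP hf
  rw [Pv_eq_Pp, h1, h2, sum_congr rfl (fun C _ => Pv_eq_Pp (B := d.B) (d.Z C)), sum_add_distrib]
  ring

end Ok

end ND

end

end Pool.Agent.Hyp6
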