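import Pool.Agent.Hyp6.L3Tp
import Pool.Agent.Hyp6.L3Nc
import Pool.Agent.Hyp6.L3Rs

/-!
# HYP6 L3Pv: sets of leaves seen by one triple only

`Frm.sepA`: a set of leaves is separated from the rest without its contact points.
`Frm.priv`: if the rest of `Q` without one triple is connected and critical, then a set of `a` leaves
seen by no other triple of the frame is seen by at least `a + 1` points of `U`.
-/

set_option autoImplicit false

namespace Pool.Agent.Hyp6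

open Finset Pool.Agent.Hyp5

universe u v

variable {V : Type v} [DecidableEq V] {ι : Type u} {B : ι → Finset V}

/-- the points of `U` which see a leaf of `A`. -/
noncomputable def uA (B : ι → Finset V) (U : Finset V) (F A : Finset (Finset V)) : Finset V :=
  U.filter (fun u => ¬ Disjoint (slf B F u) A)

section

variable {Q U : Finset V} {T : Finset ι} {F : Finset (Finset V)}

theorem mem_uA {A : Finset (Finset V)} {u : V} :
    u ∈ uA B U F A ↔ u ∈ U ∧ ∃ L ∈ slf B F u, L ∈ A := by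
  unfold uA
  rw [mem_filter, not_disjoint_iff]

namespace Frm

/-- the outside contacts of a leaf. -/
theorem leaf_contact (h : Frm B Q T U F) {L : Finset V} (hL : L ∈ F) {v : V} (hv : v ∈ Q)
    (hvL : v ∉ L) (hs : ∃ y ∈ L, (gr B).Adj v y) : v ∈ U ∨ ∃ j ∈ T, v ∈ B j ∩ Q := by
  by_cases h1 : v ∈ T.biUnion B
  · obtain ⟨j, hj, hvj⟩ := mem_biUnion.1 h1
    exact Or.inr ⟨j, hj, mem_inter.2 ⟨hvj, hv⟩⟩
  by_cases h2 : v ∈ U
  · exact Or.inl h2
  exfalso
  obtain ⟨y, hy, hvy⟩ := hs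
  exact hvL ((h.ge.sys.closed L hL).2 y hy v (mem_sdiff.2 ⟨mem_sdiff.2 ⟨hv, h1⟩, h2⟩) hvy.symm)

/-- **separation**: a set of leaves is separated from the rest without its contact points. -/
theorem sepA (h : Frm B Q T U F) {A : Finset (Finset V)} (hA : A ⊆ F) {X : Finset V}
    (hT : ∀ j ∈ T, ∀ v ∈ B j ∩ Q, ¬ Disjoint (slf B F v) A → v ∈ X)
    (hU : ∀ u ∈ U, ¬ Disjoint (slf B F u) A → u ∈ X) :
    Sep B (A.biUnion id) ((Q \ X) \ A.biUnion id) := by
  rintro i ⟨y, hy⟩ ⟨v, hv⟩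
  obtain ⟨hyi, hyA⟩ := mem_inter.1 hy
  obtain ⟨hvi, hv2⟩ := mem_inter.1 hv
  obtain ⟨hv3, hvA⟩ := mem_sdiff.1 hv2
  obtain ⟨hvQ, hvX⟩ := mem_sdiff.1 hv3
  obtain ⟨L, hL, hyL⟩ := mem_biUnion.1 hyA
  have hvL : v ∉ L := fun hvL => hvA (mem_biUnion.2 ⟨L, hL, hvL⟩)
  have hadj : (gr B).Adj v y := by
    refine ⟨?_, i, hvi, hyi⟩
    rintro rfl
    exact hvL hyL
  have hsee : L ∈ slf B F v := mem_slf.2 ⟨hA hL, y, hyL, hadj⟩
  have hnd : ¬ Disjoint (slf B F v) A := not_disjoint_iff.2 ⟨L, hsee, hL⟩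
  rcases h.leaf_contact (hA hL) hvQ hvL ⟨y, hyL, hadj⟩ with h1 | ⟨j, hj, hvj⟩
  · exact hvX (hU v h1 hnd)
  · exact hvX (hT j hj v hvj hnd)

/-- the points of `U` are outside the triples. -/
theorem U_out (h : Frm B Q T U F) {u : V} (hu : u ∈ U) {j : ι} (hj : j ∈ T) : u ∉ B j ∩ Q :=
  fun h1 => (h.T_out hj h1).1 hu

/-- one triple of the frame removed. -/
theorem rho_one [Fintype ι] (h : Frm B Q T U F) {j0 : ι} (hj0 : j0 ∈ T) :
    rho B (Q \ (B j0 ∩ Q)) + 1 = rho B Q := by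
  classical
  have he : Q \ (B j0 ∩ Q) = Q \ B j0 := by
    ext v
    simp only [mem_sdiff, mem_inter]
    tauto
  rw [he]
  have h1 : rho B Q ≤ rho B (Q \ B j0) + 1 := rho_le_sdiff (i := j0) (Subset.refl _) h.cov
  have h2 := rho_le_peel (B := B) (T.erase j0) (h.cov.mono (sdiff_subset : Q \ B j0 ⊆ Q))
  have h3 : (Q \ B j0) \ (T.erase j0).biUnion B = Q \ T.biUnion B := by
    ext v
    simp only [mem_sdiff, mem_biUnion, mem_erase]
    constructor
    · rintro ⟨⟨h4, h5⟩, h6⟩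
      refine ⟨h4, fun ⟨j, hj, hvj⟩ => ?_⟩
      by_cases hjj : j = j0
      · exact h5 (hjj ▸ hvj)
      · exact h6 ⟨j, ⟨hjj, hj⟩, hvj⟩
    · rintro ⟨h4, h5⟩
      exact ⟨⟨h4, fun h6 => h5 ⟨j0, hj0, h6⟩⟩, fun ⟨j, ⟨_, hj⟩, hvj⟩ => h5 ⟨j, hj, hvj⟩⟩
  rw [h3] at h2
  have h4 := h.mtp.tpk.opt
  have h5 := card_erase_of_mem hj0
  have h6 := card_pos.2 ⟨j0, hj0⟩
  omega

/-- the hypothesis on the sets containing a triple, from connected and critical. -/
theorem clo_of_crit [Fintype ι] (h : Frm B Q T U F) {j0 : ι} (hj0 : j0 ∈ T)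
    (hconn : Conn (gr B) (Q \ (B j0 ∩ Q))) (hcrit : Crit B (Q \ (B j0 ∩ Q))) :
    ∀ Y ⊆ Q, B j0 ∩ Q ⊆ Y → rho B (Q \ Y) + 1 = rho B Q → Conn (gr B) (Q \ Y) := by
  intro Y hY hjY hrho
  by_cases he : Y ⊆ B j0 ∩ Q
  · rwa [subset_antisymm he hjY]
  exfalso
  rw [not_subset] at he
  obtain ⟨x, hx, hxj⟩ := he
  have h1 := hcrit x (mem_sdiff.2 ⟨hY hx, hxj⟩)
  have h2 := h.rho_one hj0
  have h3 : rho B (Q \ Y) ≤ rho B ((Q \ (B j0 ∩ Q)).erase x) := by
    refine rho_mono ?_ (h.cov.mono ((erase_subset _ _).trans sdiff_subset))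
    intro v hv
    obtain ⟨hv1, hv2⟩ := mem_sdiff.1 hv
    refine mem_erase.2 ⟨?_, mem_sdiff.2 ⟨hv1, fun h4 => hv2 (hjY h4)⟩⟩
    rintro rfl
    exact hv2 hx
  omega

/-- the rest of `Q` without a triple, the contact points in `U` and the leaves of `A`. -/
def rst (B : ι → Finset V) (Q : Finset V) (j0 : ι) (X : Finset V) (A : Finset (Finset V)) :
    Finset V := ((Q \ (B j0 ∩ Q)) \ X) \ A.biUnion id

theorem rst_sub {j0 : ι} {X : Finset V} {A : Finset (Finset V)} : rst B Q j0 X A ⊆ Q :=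
  sdiff_subset.trans (sdiff_subset.trans sdiff_subset)

/-- the pieces. -/
theorem rst_union (h : Frm B Q T U F) {j0 : ι} (hj0 : j0 ∈ T) {A : Finset (Finset V)}
    (hA : A ⊆ F) {X : Finset V} (hX : X ⊆ U) :
    Q \ ((B j0 ∩ Q) ∪ X) = A.biUnion id ∪ rst B Q j0 X A := by
  ext v
  simp only [rst, mem_union, mem_sdiff]
  constructor
  · rintro ⟨h1, h2⟩
    push Not at h2
    by_cases h3 : v ∈ A.biUnion id
    · exact Or.inl h3
    · exact Or.inr ⟨⟨⟨h1, h2.1⟩, h2.2⟩, h3⟩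
  · rintro (h1 | ⟨⟨⟨h1, h2⟩, h3⟩, _⟩)
    · obtain ⟨L, hL, hvL⟩ := mem_biUnion.1 h1
      refine ⟨h.FQ (hA hL) hvL, ?_⟩
      rintro (h2 | h2)
      · exact (h.T_out hj0 h2).2 L (hA hL) hvL
      · exact disjoint_left.1 (h.ge.FU L (hA hL)) hvL (hX h2)
    · refine ⟨h1, ?_⟩
      rintro (h4 | h4)
      · exact h2 h4
      · exact h3 h4

/-- the leaves of `A` seen by one triple only are separated from the rest. -/
theorem rst_sep (h : Frm B Q T U F) {j0 : ι} {A : Finset (Finset V)} (hA : A ⊆ F)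
    (hp : ∀ j ∈ T, j ≠ j0 → Disjoint (slj B Q F j) A) :
    Sep B (A.biUnion id) (rst B Q j0 (uA B U F A) A) := by
  have h1 := h.sepA hA (X := uA B U F A ∪ (B j0 ∩ Q)) (fun j hj v hv hnd => by
    by_cases he : j = j0
    · subst he
      exact mem_union_right _ hv
    · exfalso
      apply hnd
      refine (hp j hj he).mono_left ?_
      exact subset_biUnion_of_mem (slf B F) hv) (fun u hu hnd => by
    obtain ⟨L, hL, hLA⟩ := not_disjoint_iff.1 hnd
    exact mem_union_left _ (mem_uA.2 ⟨hu, L, hL, hLA⟩))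
  refine h1.mono (Subset.refl _) ?_
  intro v hv
  obtain ⟨hv1, hv2⟩ := mem_sdiff.1 hv
  obtain ⟨hv3, hv4⟩ := mem_sdiff.1 hv1
  obtain ⟨hv5, hv6⟩ := mem_sdiff.1 hv3
  refine mem_sdiff.2 ⟨mem_sdiff.2 ⟨hv5, fun h2 => ?_⟩, hv2⟩
  rcases mem_union.1 h2 with h3 | h3
  · exact hv4 h3
  · exact hv6 h3

/-- the rest of `Q` can not be covered as if the contact points were free. -/
theorem rst_lt [Fintype ι] (h : Frm B Q T U F) {j0 : ι} (hj0 : j0 ∈ T)
    (hcl : ∀ Y ⊆ Q, B j0 ∩ Q ⊆ Y → rho B (Q \ Y) + 1 = rho B Q → Conn (gr B) (Q \ Y))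
    (hT2 : ∃ j ∈ T, j ≠ j0) {A : Finset (Finset V)} (hA : A ⊆ F) (hne : A.Nonempty)
    (hp : ∀ j ∈ T, j ≠ j0 → Disjoint (slj B Q F j) A) :
    ∑ C ∈ A, rho B C + rho B (rst B Q j0 (uA B U F A) A) + 2 ≤ rho B Q := by
  classical
  have hUQ : U ⊆ Q := h.UD.trans DQ
  have hXU : uA B U F A ⊆ U := filter_subset _ _
  have hsep := h.rst_sep hA hp
  have hu := h.rst_union hj0 hA hXU
  have hcF : ∀ L ∈ A, Cov B L := fun L hL => h.covF L (hA hL)
  have h2 : rho B (A.biUnion id) = ∑ C ∈ A, rho B C := rho_biUnion hcF (h.sepF.mono hA)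
  have h4 : rho B (Q \ ((B j0 ∩ Q) ∪ uA B U F A)) =
      rho B (A.biUnion id) + rho B (rst B Q j0 (uA B U F A) A) := by
    rw [hu]
    exact rho_add (cov_biUnion hcF) (h.cov.mono rst_sub) hsep
  have h5 := h.rho_one hj0
  have h6 : rho B (Q \ ((B j0 ∩ Q) ∪ uA B U F A)) ≤ rho B (Q \ (B j0 ∩ Q)) := by
    refine rho_mono ?_ (h.cov.mono sdiff_subset)
    intro v hv
    obtain ⟨hv1, hv2⟩ := mem_sdiff.1 hv
    exact mem_sdiff.2 ⟨hv1, fun h7 => hv2 (mem_union_left _ h7)⟩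
  by_contra hcon
  push Not at hcon
  have hcn := hcl ((B j0 ∩ Q) ∪ uA B U F A)
    (union_subset inter_subset_right (hXU.trans hUQ)) subset_union_left (by omega)
  rw [hu] at hcn
  obtain ⟨L, hL⟩ := hne
  obtain ⟨y, hy⟩ := (h.ge.sys.fc L (hA hL)).1
  have hcl2 : Closed (gr B) (A.biUnion id ∪ rst B Q j0 (uA B U F A) A) (A.biUnion id) := by
    refine ⟨subset_union_left, fun v hv w hw hvw => ?_⟩
    rcases mem_union.1 hw with hw | hw
    · exact hw
    · obtain ⟨_, i, hi1, hi2⟩ := hvw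
      exact (hsep i ⟨v, mem_inter.2 ⟨hi1, hv⟩⟩ ⟨w, mem_inter.2 ⟨hi2, hw⟩⟩).elim
  have heq := hcn.2 _ hcl2 ⟨y, mem_biUnion.2 ⟨L, hL, hy⟩⟩
  obtain ⟨j, hj, hne'⟩ := hT2
  obtain ⟨a, b, c, hT, _⟩ := h.three_points hj
  have ha : a ∈ B j ∩ Q := by rw [hT]; simp
  have haA : a ∉ A.biUnion id := fun h1 => by
    obtain ⟨L', hL', haL'⟩ := mem_biUnion.1 h1
    exact (h.T_out hj ha).2 L' (hA hL') haL'
  have haR : a ∈ rst B Q j0 (uA B U F A) A := by
    refine mem_sdiff.2 ⟨mem_sdiff.2 ⟨mem_sdiff.2 ⟨(mem_inter.1 ha).2, fun h1 => ?_⟩,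
      fun h1 => ?_⟩, haA⟩
    · exact disjoint_left.1 (h.mtp.tpk.pack.disj j hj j0 hj0 hne') ha h1
    · exact (h.T_out hj ha).1 (hXU h1)
  exact haA (by rw [heq]; exact mem_union_right _ haR)

/-- the upper bound for the rest if contact points are matched into the leaves. -/
theorem rst_le [Fintype ι] (h : Frm B Q T U F) {j0 : ι} (hj0 : j0 ∈ T)
    {A : Finset (Finset V)} (hA : A ⊆ F) {Z Z' : Finset V} (hZ : Z ⊆ U) (hZ' : Z' ⊆ Q)
    (hZZ : uA B U F A ⊆ Z ∪ Z') {g : V → Finset V} (hg : MtI B Z A g) :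
    rho B Q ≤ ∑ C ∈ A, rho B C + rho B (rst B Q j0 (uA B U F A) A ∪ Z') + 1 := by
  have hUQ : U ⊆ Q := h.UD.trans DQ
  have hcF : ∀ L ∈ A, Cov B L := fun L hL => h.covF L (hA hL)
  have h1 : rho B (A.biUnion id ∪ Z) ≤ ∑ C ∈ A, rho B C :=
    rho_match_le A (fun C hC => h.fcF (hA hC)) hcF Z g hg (h.cov.mono (hZ.trans hUQ))
      (fun C hC => disjoint_of_subset_right hZ (h.ge.FU C (hA hC)))
  have hAQ : A.biUnion id ⊆ Q := biUnion_subset.2 fun C hC => h.FQ (hA hC)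
  have h3 : rho B (Q \ (B j0 ∩ Q)) ≤ rho B (A.biUnion id ∪ Z) +
      rho B (rst B Q j0 (uA B U F A) A ∪ Z') := by
    refine le_trans (rho_mono ?_ ?_) (rho_union_le ?_ ?_)
    · intro v hv
      by_cases hvX : v ∈ uA B U F A
      · rcases mem_union.1 (hZZ hvX) with h4 | h4
        · exact mem_union_left _ (mem_union_right _ h4)
        · exact mem_union_right _ (mem_union_right _ h4)
      by_cases hvA : v ∈ A.biUnion id
      · exact mem_union_left _ (mem_union_left _ hvA)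
      · exact mem_union_right _ (mem_union_left _
          (mem_sdiff.2 ⟨mem_sdiff.2 ⟨hv, hvX⟩, hvA⟩))
    · exact h.cov.mono (union_subset (union_subset hAQ (hZ.trans hUQ))
        (union_subset rst_sub hZ'))
    · exact h.cov.mono (union_subset hAQ (hZ.trans hUQ))
    · exact h.cov.mono (union_subset rst_sub hZ')
  have h5 := h.rho_one hj0
  omega

/-- **sets of leaves seen by one triple only**. -/
theorem priv [Fintype ι] (h : Frm B Q T U F) {j0 : ι} (hj0 : j0 ∈ T)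
    (hcl : ∀ Y ⊆ Q, B j0 ∩ Q ⊆ Y → rho B (Q \ Y) + 1 = rho B Q → Conn (gr B) (Q \ Y))
    (hT2 : ∃ j ∈ T, j ≠ j0) : ∀ (n : ℕ) (A : Finset (Finset V)), A.card ≤ n → A ⊆ F →
    A.Nonempty → (∀ j ∈ T, j ≠ j0 → Disjoint (slj B Q F j) A) →
    A.card + 1 ≤ (uA B U F A).card := by
  classical
  intro n
  induction n with
  | zero =>
    intro A hn _ hne _
    have := card_pos.2 hne
    omega
  | succ n ih =>
    intro A hn hA hne hp
    by_contra hcon
    push Not at hcon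
    set X := uA B U F A with hX
    have hXU : X ⊆ U := filter_subset _ _
    -- Hall's condition
    have hall : ∀ Y ⊆ X, Y.card ≤ (nbF (gr B) A Y).card := by
      intro Y hY
      by_contra hYc
      push Not at hYc
      have hYne : Y.Nonempty := card_pos.1 (by omega)
      have hsub : nbF (gr B) A Y ⊆ A := nbF_sub
      set A' := A \ nbF (gr B) A Y with hA'
      have hc1 : A'.card + (nbF (gr B) A Y).card = A.card := card_sdiff_add_card_eq_card hsub
      have hc2 : uA B U F A' ⊆ X \ Y := by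
        intro u hu
        obtain ⟨hu1, L, hL, hLA⟩ := mem_uA.1 hu
        obtain ⟨hL1, hL2⟩ := mem_sdiff.1 hLA
        refine mem_sdiff.2 ⟨mem_uA.2 ⟨hu1, L, hL, hL1⟩, fun huY => hL2 ?_⟩
        obtain ⟨_, y, hy, hadj⟩ := mem_slf.1 hL
        exact mem_nbF.2 ⟨hL1, u, huY, y, hy, hadj⟩
      have hc3 := card_le_card hc2
      have hc4 : (X \ Y).card + Y.card = X.card := card_sdiff_add_card_eq_card hY
      have hpos : 0 < (nbF (gr B) A Y).card := by
        obtain ⟨u, hu⟩ := hYne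
        obtain ⟨_, L, hL, hLA⟩ := mem_uA.1 (hY hu)
        obtain ⟨_, y, hy, hadj⟩ := mem_slf.1 hL
        exact card_pos.2 ⟨L, mem_nbF.2 ⟨hLA, u, hu, y, hy, hadj⟩⟩
      have h5 := ih A' (by omega) (sdiff_subset.trans hA) (card_pos.1 (by omega))
        (fun j hj hne' => (hp j hj hne').mono_right sdiff_subset)
      omega
    obtain ⟨g, hg⟩ := mti_of_hall hall
    have h1 := h.rst_le hj0 hA hXU (Z' := ∅) (empty_subset _)
      (by rw [union_empty]) hg
    rw [union_empty] at h1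
    have h2 := h.rst_lt hj0 hcl hT2 hA hne hp
    omega

/-- the matchings for a tight set. -/
theorem priv_match [Fintype ι] (h : Frm B Q T U F) {j0 : ι} (hj0 : j0 ∈ T)
    (hcl : ∀ Y ⊆ Q, B j0 ∩ Q ⊆ Y → rho B (Q \ Y) + 1 = rho B Q → Conn (gr B) (Q \ Y))
    (hT2 : ∃ j ∈ T, j ≠ j0) {A : Finset (Finset V)} (hA : A ⊆ F)
    (hp : ∀ j ∈ T, j ≠ j0 → Disjoint (slj B Q F j) A)
    (hX : (uA B U F A).card ≤ A.card + 1) {p : V} (hpX : p ∈ uA B U F A) :
    ∃ g, MtI B ((uA B U F A).erase p) A g := by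
  classical
  refine mti_of_hall fun Y hY => ?_
  have hYX : Y ⊆ uA B U F A := hY.trans (erase_subset _ _)
  have hYp : Y.card + 1 ≤ (uA B U F A).card := by
    have h1 := card_le_card hY
    have h2 := card_erase_of_mem hpX
    have h3 := card_pos.2 ⟨p, hpX⟩
    omega
  have hsub : nbF (gr B) A Y ⊆ A := nbF_sub
  set A' := A \ nbF (gr B) A Y with hA'
  have hc1 : A'.card + (nbF (gr B) A Y).card = A.card := card_sdiff_add_card_eq_card hsub
  rcases A'.eq_empty_or_nonempty with h0 | hne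
  · rw [h0, card_empty] at hc1
    omega
  · have hc2 : uA B U F A' ⊆ uA B U F A \ Y := by
      intro u hu
      obtain ⟨hu1, L, hL, hLA⟩ := mem_uA.1 hu
      obtain ⟨hL1, hL2⟩ := mem_sdiff.1 hLA
      refine mem_sdiff.2 ⟨mem_uA.2 ⟨hu1, L, hL, hL1⟩, fun huY => hL2 ?_⟩
      obtain ⟨_, y, hy, hadj⟩ := mem_slf.1 hL
      exact mem_nbF.2 ⟨hL1, u, huY, y, hy, hadj⟩
    have hc3 := card_le_card hc2
    have hc4 : (uA B U F A \ Y).card + Y.card = (uA B U F A).card :=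
      card_sdiff_add_card_eq_card hYX
    have h5 := h.priv hj0 hcl hT2 A'.card A' le_rfl (sdiff_subset.trans hA) hne
      (fun j hj hne' => (hp j hj hne').mono_right sdiff_subset)
    omega

/-- **the tight sets of leaves**: seen by one triple and by exactly one point of `U` more than leaves:
the rest refuses every contact point. -/
theorem sep1 [Fintype ι] (h : Frm B Q T U F) {j0 : ι} (hj0 : j0 ∈ T)
    (hcl : ∀ Y ⊆ Q, B j0 ∩ Q ⊆ Y → rho B (Q \ Y) + 1 = rho B Q → Conn (gr B) (Q \ Y))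
    (hT2 : ∃ j ∈ T, j ≠ j0) {A : Finset (Finset V)} (hA : A ⊆ F) (hne : A.Nonempty)
    (hp : ∀ j ∈ T, j ≠ j0 → Disjoint (slj B Q F j) A)
    (hX : (uA B U F A).card ≤ A.card + 1) :
    rho B Q = ∑ C ∈ A, rho B C + rho B (rst B Q j0 (uA B U F A) A) + 2 ∧
    ∀ p ∈ uA B U F A, rho B (rst B Q j0 (uA B U F A) A ∪ {p}) =
      rho B (rst B Q j0 (uA B U F A) A) + 1 := by
  classical
  have h1 := h.rst_lt hj0 hcl hT2 hA hne hp
  have hUQ : U ⊆ Q := h.UD.trans DQ
  have hXU : uA B U F A ⊆ U := filter_subset _ _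
  have key : ∀ p ∈ uA B U F A, rho B Q ≤
      ∑ C ∈ A, rho B C + rho B (rst B Q j0 (uA B U F A) A ∪ {p}) + 1 := by
    intro p hp'
    obtain ⟨g, hg⟩ := h.priv_match hj0 hcl hT2 hA hp hX hp'
    refine h.rst_le hj0 hA ((erase_subset _ _).trans hXU)
      (singleton_subset_iff.2 (hUQ (hXU hp'))) ?_ hg
    intro v hv
    by_cases he : v = p
    · exact mem_union_right _ (mem_singleton.2 he)
    · exact mem_union_left _ (mem_erase.2 ⟨he, hv⟩)
  have hle : ∀ p ∈ uA B U F A, rho B (rst B Q j0 (uA B U F A) A ∪ {p}) ≤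
      rho B (rst B Q j0 (uA B U F A) A) + 1 := by
    intro p hp'
    have h2 : Cov B ({p} : Finset V) :=
      h.cov.mono (singleton_subset_iff.2 (hUQ (hXU hp')))
    obtain ⟨i, hi⟩ := h2 p (mem_singleton_self p)
    exact rho_union_block_le (h.cov.mono rst_sub) (singleton_subset_iff.2 hi)
  have hpos : 0 < (uA B U F A).card := by
    have := h.priv hj0 hcl hT2 A.card A le_rfl hA hne hp
    omega
  obtain ⟨p0, hp0⟩ := card_pos.1 hpos
  have h2 := key p0 hp0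
  have h3 := hle p0 hp0
  refine ⟨by omega, fun p hp' => ?_⟩
  have h4 := key p hp'
  have h5 := hle p hp'
  omega

end Frm

end

end Pool.Agent.Hyp6
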