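import Pool.Agent.Hyp6.Gds
import Pool.Agent.Hyp6.Gdz5
import Pool.Agent.Hyp6.L3Pv

/-!
# HYP6 GDT5: two leaves and a second triple

The labels for two leaves with the points of a second triple `k`: the keys `2 c + 1` are the codes `c`
of the labels in `k`, the keys `2 c` the others; the points of `k` without hits are the last labels
(phantoms). `NoX3`: the instance does not occur, `noX3_of`: from its check. `Frm.no_pp3`: two points
which are free together and a triple.
-/

set_option autoImplicit false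

namespace Pool.Agent.Hyp6

open Finset Pool.Agent.Hyp5 Gdx Rup

universe u v

/-- the number of the phantoms. -/
def nph (kW : List ℕ) : ℕ := 3 - ((range kW.length).filter (fun a => kW.getD a 0 % 2 = 1)).card

/-- the test of the mask of the second triple. -/
def okt (kW : List ℕ) (t3 : ℕ) : Bool :=
  (List.range (3 + kW.length + nph kW)).all (fun a => t3.testBit a ==
    (Nat.ble 3 a && (Nat.ble (3 + kW.length) a || Nat.beq (kW.getD (a - 3) 0 % 2) 1)))

/-- the instance with a second triple. -/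
def Pg3 (zn r d0 pz : ℕ) (zm hT hW : List ℕ) (n0 t3 : ℕ) : Gp :=
  ⟨zm.length, 3 + hW.length + n0, zn, r, d0, pz, zm, (hT ++ hW).map tot ++ List.replicate n0 0,
    (hT ++ hW).map tot ++ List.replicate n0 0, [7, t3]⟩

section

variable {V : Type v} [DecidableEq V] {ι : Type u} [Fintype ι] {B : ι → Finset V}

/-- the labels only matter below their number. -/
theorem Lbl2.congr {Q L M : Finset V} {j : ι} {hT hW : List ℕ} {ct ct' : ℕ → V}
    (h : Lbl2 B Q L M j hT hW ct) (he : ∀ a < 3 + hW.length, ct' a = ct a) :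
    Lbl2 B Q L M j hT hW ct' where
  lenT := h.lenT
  desT := h.desT
  desW := h.desW
  posW := h.posW
  memQ := fun a ha => by
    rw [he a ha]
    exact h.memQ a ha
  inj := fun a ha a' ha' hab => h.inj a ha a' ha' (by rw [← he a ha, ← he a' ha']; exact hab)
  trip := fun v => by
    rw [h.trip v]
    constructor
    · rintro ⟨a, ha, hv⟩
      exact ⟨a, ha, by rw [he a (by omega)]; exact hv⟩
    · rintro ⟨a, ha, hv⟩
      exact ⟨a, ha, by rw [← he a (by omega)]; exact hv⟩
  all := fun v hv hvZ hne => by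
    obtain ⟨a, ha, h1⟩ := h.all v hv hvZ hne
    exact ⟨a, ha, by rw [he a ha]; exact h1⟩
  code := fun a ha => by
    rw [he a ha]
    exact h.code a ha
  bdL := fun a ha => by
    rw [he a ha]
    exact h.bdL a ha
  bdM := fun a ha => by
    rw [he a ha]
    exact h.bdM a ha
  sumTL := h.sumTL
  sumTM := h.sumTM
  sumWL := h.sumWL
  sumWM := h.sumWM

open Classical in
/-- the key of a point. -/
noncomputable def kyt (B : ι → Finset V) (L M : Finset V) (k : ι) (v : V) : ℕ :=
  if (Ez B (L ∪ M) v).Nonempty then 2 * cd2 B L M v + (if v ∈ B k then 1 else 0) else 0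

theorem kyt_div {L M : Finset V} {k : ι} (v : V) : kyt B L M k v / 2 = cd2 B L M v := by
  unfold kyt
  split_ifs with h1 h2
  · omega
  · omega
  · rw [Ez_union_ne, ← card_pos, ← card_pos] at h1
    unfold cd2
    omega

theorem kyt_pos {L M : Finset V} {k : ι} (v : V) :
    1 ≤ kyt B L M k v ↔ (Ez B (L ∪ M) v).Nonempty := by
  have h1 : (Ez B (L ∪ M) v).Nonempty → 1 ≤ cd2 B L M v := by
    intro h
    rw [Ez_union_ne, ← card_pos, ← card_pos] at h
    unfold cd2
    omega
  unfold kyt
  split_ifs with h2 h3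
  · exact ⟨fun _ => h2, fun _ => by omega⟩
  · have := h1 h2
    exact ⟨fun _ => h2, fun _ => by omega⟩
  · exact ⟨fun h => by omega, fun h => absurd h h2⟩

/-- **labels with keys**. -/
theorem exists_labelsk {Q L M : Finset V} {j k : ι} (hr : Reg B Q) (hj : (B j ∩ Q).card = 3)
    (hjL : ¬ (B j ∩ L).Nonempty) (hjM : ¬ (B j ∩ M).Nonempty) :
    ∃ (hT kW : List ℕ) (ct : ℕ → V), Lbl2 B Q L M j hT (kW.map (fun c => c / 2)) ct ∧
      kW.Pairwise (fun a b => b ≤ a) ∧
      ∀ a < kW.length, (ct (3 + a) ∈ B k ↔ kW.getD a 0 % 2 = 1) := by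
  classical
  have hjZ : ¬ (B j ∩ (L ∪ M)).Nonempty := by
    rw [inter_union_distrib_left, union_nonempty]
    tauto
  obtain ⟨lT, kW, ct, h1, h2, h3, h4, h5, h6, h7, h8, h9, h10, h11⟩ :=
    exists_labelsF (B := B) hj hjZ (kyt B L M k) kyt_pos
  have hbd : ∀ (W : Finset V), ∀ v ∈ Q, (Ez B W v).card ≤ 5 := by
    intro W v hv
    exact card_Ez_le (hr v hv)
  have hdiv : ∀ v ∈ Q, cd2 B L M v / 8 = (Ez B L v).card := by
    intro v hv
    have := hbd M v hv
    unfold cd2
    omega
  have hmod : ∀ v ∈ Q, cd2 B L M v % 8 = (Ez B M v).card := by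
    intro v hv
    have := hbd M v hv
    unfold cd2
    omega
  have hWsum : ∀ W : Finset V, W ⊆ L ∪ M →
      ∑ v ∈ ((Q \ (L ∪ M)) \ B j).filter (fun v => (Ez B (L ∪ M) v).Nonempty), (Ez B W v).card =
        hit B ((Q \ (L ∪ M)) \ B j) W := by
    intro W hWs
    rw [hit_eq_Ez, sum_filter]
    refine sum_congr rfl fun v _ => ?_
    split_ifs with h12
    · rfl
    · rw [not_nonempty_iff_eq_empty] at h12
      symm
      rw [card_eq_zero, ← subset_empty, ← h12]
      intro i hi
      obtain ⟨h13, h14⟩ := mem_Ez.1 hi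
      exact mem_Ez.2 ⟨h13, h14.mono (inter_subset_inter_left hWs)⟩
  have hkd : (fun v => kyt B L M k v / 2) = cd2 B L M := funext fun v => kyt_div v
  have p10 : ((B j ∩ Q).toList.map (cd2 B L M)).Perm (lT.map (fun c => c / 2)) := by
    have h12 := h10.map (fun c => c / 2)
    rw [List.map_map] at h12
    have h13 : ((fun c => c / 2) ∘ kyt B L M k) = cd2 B L M := hkd
    rw [h13] at h12
    exact h12
  have p11 : ((((Q \ (L ∪ M)) \ B j).filter (fun v => (Ez B (L ∪ M) v).Nonempty)).toList.map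
      (cd2 B L M)).Perm (kW.map (fun c => c / 2)) := by
    have h12 := h11.map (fun c => c / 2)
    rw [List.map_map] at h12
    have h13 : ((fun c => c / 2) ∘ kyt B L M k) = cd2 B L M := hkd
    rw [h13] at h12
    exact h12
  have hlen : (kW.map (fun c => c / 2)).length = kW.length := List.length_map _
  have hmono : ∀ l : List ℕ, l.Pairwise (fun a b => b ≤ a) →
      (l.map (fun c => c / 2)).Pairwise (fun a b => b ≤ a) := by
    intro l hl
    rw [List.pairwise_map]
    exact hl.imp fun {a b} hab => Nat.div_le_div_right hab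
  refine ⟨lT.map (fun c => c / 2), kW, ct, ⟨by rw [List.length_map]; exact h1, hmono _ h2,
    hmono _ h3, ?_, by rw [hlen]; exact h5, by rw [hlen]; exact h6, h7, by rw [hlen]; exact h8,
    ?_, ?_, ?_, ?_, ?_, ?_, ?_⟩, h3, ?_⟩
  · intro x hx
    obtain ⟨v, hv, rfl⟩ := List.mem_map.1 (p11.mem_iff.2 hx)
    have h12 := (mem_filter.1 (Finset.mem_toList.1 hv)).2
    rw [Ez_union_ne, ← card_pos, ← card_pos] at h12
    unfold cd2
    omega
  · rw [hlen]
    intro a ha
    have h12 := h9 a ha
    rw [← kyt_div (k := k), h12, ← List.map_append]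
    have h13 : a < (lT ++ kW).length := by
      rw [List.length_append, h1]
      exact ha
    rw [List.getD_eq_getElem _ _ h13, List.getD_eq_getElem _ _ (by
      rw [List.length_map]
      exact h13), List.getElem_map]
  · rw [hlen]
    exact fun a ha => hbd _ _ (h5 a ha).1
  · rw [hlen]
    exact fun a ha => hbd _ _ (h5 a ha).1
  · rw [← (p10.map (fun c => c / 8)).sum_eq, List.map_map, Finset.sum_map_toList, hit_eq_Ez]
    exact sum_congr rfl fun v hv => hdiv v (mem_inter.1 hv).2
  · rw [← (p10.map (fun c => c % 8)).sum_eq, List.map_map, Finset.sum_map_toList, hit_eq_Ez]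
    exact sum_congr rfl fun v hv => hmod v (mem_inter.1 hv).2
  · rw [← (p11.map (fun c => c / 8)).sum_eq, List.map_map, Finset.sum_map_toList,
      ← hWsum L subset_union_left]
    exact sum_congr rfl fun v hv =>
      hdiv v (mem_sdiff.1 (mem_sdiff.1 (mem_filter.1 hv).1).1).1
  · rw [← (p11.map (fun c => c % 8)).sum_eq, List.map_map, Finset.sum_map_toList,
      ← hWsum M subset_union_right]
    exact sum_congr rfl fun v hv =>
      hmod v (mem_sdiff.1 (mem_sdiff.1 (mem_filter.1 hv).1).1).1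
  · intro a ha
    have h12 := h9 (3 + a) (by omega)
    rw [List.getD_append_right _ _ _ _ (by omega), show 3 + a - lT.length = a by omega] at h12
    rw [← h12]
    have h13 : 1 ≤ kyt B L M k (ct (3 + a)) := by
      rw [h12, List.getD_eq_getElem _ _ ha]
      exact h4 _ (List.getElem_mem ha)
    rw [kyt_pos] at h13
    unfold kyt
    rw [if_pos h13]
    split_ifs with h14
    · exact ⟨fun _ => by omega, fun _ => h14⟩
    · exact ⟨fun h => absurd h h14, fun h => by omega⟩

/-- the data of a table for two leaves and a second triple. -/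
structure Gx3 (B : ι → Finset V) (Q L M : Finset V) (j k : ι) (zn r d0 pz : ℕ) (zm : List ℕ)
    (nL nM : ℕ) (hT kW : List ℕ) (bl : ℕ → ι) (ct zt : ℕ → V) : Prop where
  lbl : Lbl2 B Q L M j hT (kW.map (fun c => c / 2)) ct
  flag : ∀ a < kW.length, (ct (3 + a) ∈ B k ↔ kW.getD a 0 % 2 = 1)
  ph : ∀ a < nph kW, ct (3 + kW.length + a) ∈ B k ∩ Q ∧
    ¬ (Ez B (L ∪ M) (ct (3 + kW.length + a))).Nonempty
  phinj : ∀ a < nph kW, ∀ a' < nph kW, ct (3 + kW.length + a) = ct (3 + kW.length + a') → a = a'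
  phall : ∀ v ∈ B k ∩ Q, ¬ (Ez B (L ∪ M) v).Nonempty → ∃ a < nph kW, ct (3 + kW.length + a) = v
  k3 : (B k ∩ Q).card = 3
  kj : k ≠ j
  dis : Disjoint (B k ∩ Q) (B j ∩ Q)
  kZ : Disjoint (B k ∩ Q) (L ∪ M)
  blk : Blk B (L ∪ M) zn zm bl zt
  len : zm.length = nL + nM
  pL : ∀ b < zm.length, (B (bl b) ∩ L).Nonempty ↔ 0 ≤ b ∧ b < 0 + nL
  pM : ∀ b < zm.length, (B (bl b) ∩ M).Nonempty ↔ nL ≤ b ∧ b < nL + nM
  lenW : kW.length ≤ 20
  gx : Gdx.Gx B Q (L ∪ M) (Pg2 zn r d0 pz zm hT (kW.map (fun c => c / 2))) bl ct zt (fun _ => j)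

variable {Q L M : Finset V} {j k : ι} {zn r d0 pz : ℕ} {zm : List ℕ}
  {nL nM : ℕ} {hT kW : List ℕ} {bl : ℕ → ι} {ct zt : ℕ → V}

theorem nph_le (kW : List ℕ) : nph kW ≤ 3 := Nat.sub_le _ _

/-- the labels of the second triple. -/
theorem Gx3.mem_k (h : Gx3 B Q L M j k zn r d0 pz zm nL nM hT kW bl ct zt) {a : ℕ}
    (ha : a < 3 + kW.length + nph kW) :
    ct a ∈ B k ∩ Q ↔ (3 ≤ a ∧ (3 + kW.length ≤ a ∨ kW.getD (a - 3) 0 % 2 = 1)) := by
  have hlen : (kW.map (fun c => c / 2)).length = kW.length := List.length_map _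
  by_cases h1 : a < 3
  · refine ⟨fun h2 => ?_, fun h2 => by omega⟩
    exact absurd ((h.lbl.trip _).2 ⟨a, h1, rfl⟩) (disjoint_left.1 h.dis h2)
  · by_cases h2 : a < 3 + kW.length
    · have h3 := h.flag (a - 3) (by omega)
      rw [show 3 + (a - 3) = a by omega] at h3
      have h4 := (h.lbl.memQ a (by rw [hlen]; exact h2)).1
      rw [mem_inter, h3]
      constructor
      · rintro ⟨h5, _⟩
        exact ⟨by omega, Or.inr h5⟩
      · rintro ⟨_, h5 | h5⟩
        · omega
        · exact ⟨h5, h4⟩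
    · have h3 := (h.ph (a - (3 + kW.length)) (by omega)).1
      rw [show 3 + kW.length + (a - (3 + kW.length)) = a by omega] at h3
      exact ⟨fun _ => ⟨by omega, Or.inl (by omega)⟩, fun _ => h3⟩

/-- **the context with the second triple**. -/
theorem Gx3.gx3 (h : Gx3 B Q L M j k zn r d0 pz zm nL nM hT kW bl ct zt) {t3 : ℕ}
    (ht : okt kW t3 = true) :
    Gdx.Gx B Q (L ∪ M) (Pg3 zn r d0 pz zm hT (kW.map (fun c => c / 2)) (nph kW) t3) bl ct zt
      (fun i => if i = 0 then j else k) := by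
  classical
  have hlen : (kW.map (fun c => c / 2)).length = kW.length := List.length_map _
  have hlT := h.lbl.lenT
  have hn3 := nph_le kW
  have hg := h.gx
  have hM2 : (Pg2 zn r d0 pz zm hT (kW.map (fun c => c / 2))).M = 3 + kW.length := by
    show 3 + (kW.map (fun c => c / 2)).length = 3 + kW.length
    rw [hlen]
  have hM3 : (Pg3 zn r d0 pz zm hT (kW.map (fun c => c / 2)) (nph kW) t3).M =
      3 + kW.length + nph kW := by
    show 3 + (kW.map (fun c => c / 2)).length + nph kW = _
    rw [hlen]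
  have htot : ((hT ++ kW.map (fun c => c / 2)).map tot).length = 3 + kW.length := by
    rw [List.length_map, List.length_append, hlen, hlT]
  have hph : ∀ a, 3 + kW.length ≤ a → a < 3 + kW.length + nph kW → ct a ∈ B k ∩ Q ∧
      ¬ (Ez B (L ∪ M) (ct a)).Nonempty := by
    intro a h1 h2
    have h3 := h.ph (a - (3 + kW.length)) (by omega)
    rwa [show 3 + kW.length + (a - (3 + kW.length)) = a by omega] at h3
  have hhit0 : ∀ a, 3 + kW.length ≤ a → a < 3 + kW.length + nph kW →
      hts B zm.length bl (ct a) = 0 := by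
    intro a h1 h2
    rw [h.blk.hts_eq, card_eq_zero, ← not_nonempty_iff_eq_empty]
    exact (hph a h1 h2).2
  have hpos : ∀ a < 3 + kW.length, 3 ≤ a → (Ez B (L ∪ M) (ct a)).Nonempty := by
    intro a h1 h2
    have h3 := h.lbl.code a (by rw [hlen]; exact h1)
    rw [List.getD_append_right _ _ _ _ (by omega), hlT, List.getD_eq_getElem _ _ (by
      rw [hlen]
      omega)] at h3
    have h4 := h.lbl.posW _ (List.getElem_mem (by rw [hlen]; omega : a - 3 < _))
    rw [Ez_union_ne, ← card_pos, ← card_pos]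
    unfold cd2 at h3
    omega
  have htb : B k ∩ Q = ptm ct (3 + kW.length + nph kW) t3 := by
    unfold okt at ht
    rw [List.all_eq_true] at ht
    have hbit : ∀ a < 3 + kW.length + nph kW, (t3.testBit a = true ↔ ct a ∈ B k ∩ Q) := by
      intro a ha
      have h1 := ht a (List.mem_range.2 ha)
      rw [beq_iff_eq] at h1
      rw [h1, h.mem_k ha, Bool.and_eq_true, Bool.or_eq_true, Nat.ble_eq, Nat.ble_eq, Nat.beq_eq]
    ext v
    rw [mem_ptm]
    constructor
    · intro hv
      by_cases h1 : (Ez B (L ∪ M) v).Nonempty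
      · obtain ⟨a, ha, he⟩ := h.lbl.all v (mem_inter.1 hv).2 (disjoint_left.1 h.kZ hv) h1
        rw [hlen] at ha
        exact ⟨a, by omega, (hbit a (by omega)).2 (he ▸ hv), he⟩
      · obtain ⟨a, ha, he⟩ := h.phall v hv h1
        exact ⟨3 + kW.length + a, by omega, (hbit _ (by omega)).2 (he ▸ hv), he⟩
    · rintro ⟨a, ha, h1, rfl⟩
      exact (hbit a ha).1 h1
  have hgetl : ∀ a < 3 + kW.length, ((hT ++ kW.map (fun c => c / 2)).map tot ++
      List.replicate (nph kW) 0).getD a 0 = ((hT ++ kW.map (fun c => c / 2)).map tot).getD a 0 :=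
    fun a ha => List.getD_append _ _ _ _ (by rw [htot]; exact ha)
  have hgetr : ∀ a, 3 + kW.length ≤ a → ((hT ++ kW.map (fun c => c / 2)).map tot ++
      List.replicate (nph kW) 0).getD a 0 = 0 := by
    intro a ha
    rw [List.getD_append_right _ _ _ _ (by rw [htot]; exact ha), htot]
    by_cases h1 : a - (3 + kW.length) < (List.replicate (nph kW) 0).length
    · rw [List.getD_eq_getElem _ _ h1, List.getElem_replicate]
    · rw [List.getD_eq_default _ _ (by omega)]
  refine ⟨hg.hv, ?_, hg.ZQ, hg.Zne, hg.bl_inj, hg.bl_all, hg.ztZ, hg.zt_inj, hg.Zsub, hg.ztr,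
    ?_, ?_, ?_, ?_, ?_, ?_, ?_, ?_, ?_, hg.rZ, hg.d0, hg.pz⟩
  · rw [hM3]
    have := h.lenW
    omega
  · -- injective
    rw [hM3]
    have key : ∀ a a', a < 3 + kW.length → 3 + kW.length ≤ a' → a' < 3 + kW.length + nph kW →
        ct a = ct a' → False := by
      intro a a' h1 h2 h3 h4
      obtain ⟨h5, h6⟩ := hph a' h2 h3
      by_cases h7 : a < 3
      · rw [← h4] at h5
        exact disjoint_left.1 h.dis h5 ((h.lbl.trip _).2 ⟨a, h7, rfl⟩)
      · rw [← h4] at h6
        exact h6 (hpos a h1 (by omega))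
    intro a ha a' ha' hab
    by_cases h1 : a < 3 + kW.length
    · by_cases h2 : a' < 3 + kW.length
      · exact h.lbl.inj a (by rw [hlen]; exact h1) a' (by rw [hlen]; exact h2) hab
      · exact (key a a' h1 (by omega) ha' hab).elim
    · by_cases h2 : a' < 3 + kW.length
      · exact (key a' a h2 (by omega) ha hab.symm).elim
      · have h3 := h.phinj (a - (3 + kW.length)) (by omega) (a' - (3 + kW.length)) (by omega)
          (by
            rw [show 3 + kW.length + (a - (3 + kW.length)) = a by omega,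
              show 3 + kW.length + (a' - (3 + kW.length)) = a' by omega]
            exact hab)
        omega
  · rw [hM3]
    intro a ha
    by_cases h1 : a < 3 + kW.length
    · exact hg.ctQ a (by rw [hM2]; exact h1)
    · exact (mem_inter.1 (hph a (by omega) ha).1).2
  · rw [hM3]
    intro a ha
    by_cases h1 : a < 3 + kW.length
    · exact hg.ctZ a (by rw [hM2]; exact h1)
    · exact disjoint_left.1 h.kZ (hph a (by omega) ha).1
  · rw [hM3]
    intro b hb v hvb hvQ
    rcases hg.con b hb v hvb hvQ with h1 | ⟨a, ha, he⟩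
    · exact Or.inl h1
    · rw [hM2] at ha
      exact Or.inr ⟨a, by omega, he⟩
  · rw [hM3]
    intro a ha
    show ((hT ++ kW.map (fun c => c / 2)).map tot ++ List.replicate (nph kW) 0).getD a 0 ≤ _
    by_cases h1 : a < 3 + kW.length
    · rw [hgetl a h1]
      exact hg.hlo a (by rw [hM2]; exact h1)
    · rw [hgetr a (by omega)]
      exact Nat.zero_le _
  · rw [hM3]
    intro a ha
    show hts B zm.length bl (ct a) ≤
      ((hT ++ kW.map (fun c => c / 2)).map tot ++ List.replicate (nph kW) 0).getD a 0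
    by_cases h1 : a < 3 + kW.length
    · rw [hgetl a h1]
      exact hg.hhi a (by rw [hM2]; exact h1)
    · rw [hgetr a (by omega), hhit0 a (by omega) ha]
  · rw [hM3]
    intro i hi
    have hi2 : i < 2 := hi
    split_ifs with h1
    · subst h1
      have h2 := hg.tbT 0 (by show 0 < 1; omega)
      rw [hM2] at h2
      have h2' : B j ∩ Q = ptm ct (3 + kW.length) 7 := h2
      show B j ∩ Q = ptm ct (3 + kW.length + nph kW) 7
      rw [h2']
      ext v
      rw [mem_ptm, mem_ptm]
      constructor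
      · rintro ⟨a, ha, h3, h4⟩
        exact ⟨a, by omega, h3, h4⟩
      · rintro ⟨a, ha, h3, h4⟩
        refine ⟨a, ?_, h3, h4⟩
        by_contra h5
        have h6 : (7 : ℕ).testBit a = false := Nat.testBit_lt_two_pow (lt_of_lt_of_le
          (by norm_num : (7 : ℕ) < 2 ^ 3) (Nat.pow_le_pow_right (by norm_num) (by omega)))
        rw [h6] at h3
        exact absurd h3 (by simp)
    · have h2 : i = 1 := by omega
      subst h2
      exact htb
  · intro i hi
    split_ifs with h1
    · have h2 := hg.tb3 0 (by show 0 < 1; omega)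
      exact h2
    · exact h.k3
  · intro i hi i' hi' hii
    have hi2 : i < 2 := hi
    have hi2' : i' < 2 := hi'
    split_ifs at hii with h1 h2 h2
    · omega
    · exact absurd hii.symm h.kj
    · exact absurd hii h.kj
    · omega

/-- **sorted blocks with the second triple**. -/
theorem Gx3.exists_sorted (h : Gx3 B Q L M j k zn r d0 pz zm nL nM hT kW bl ct zt)
    (hW : List ℕ) (n0 t3 : ℕ) :
    ∃ bl', Gx3 B Q L M j k zn r d0 pz zm nL nM hT kW bl' ct zt ∧
      Srtd B (Pg3 zn r d0 pz zm hT hW n0 t3) bl' ct := by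
  obtain ⟨p, p1, p2, p3, p4⟩ := exists_bsort B (Pg3 zn r d0 pz zm hT hW n0 t3) bl ct
  have q1 : ∀ b < zm.length, p b < zm.length := p1
  have q3 : ∀ b < zm.length, zm.getD (p b) 0 = zm.getD b 0 := p3
  refine ⟨fun b => bl (p b), ⟨h.lbl, h.flag, h.ph, h.phinj, h.phall, h.k3, h.kj, h.dis, h.kZ,
    h.blk.perm q1 p2 q3, h.len, fun b hb => ?_,
    fun b hb => ?_, h.lenW, h.gx.perm p1 p2 p3⟩, p4⟩
  · exact (h.blk.inter_eq (q1 b hb) hb (q3 b hb) subset_union_left).trans (h.pL b hb)
  · exact (h.blk.inter_eq (q1 b hb) hb (q3 b hb) subset_union_right).trans (h.pM b hb)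

/-- **the given clauses hold**. -/
theorem Gx3.given (h : Gx3 B Q L M j k zn r d0 pz zm nL nM hT kW bl ct zt) {n0 t3 : ℕ}
    (hnab : ¬ rho B ((L ∪ M) ∪ (B j ∩ Q)) ≤ rho B (L ∪ M)) {c : List ℕ}
    (hc : okg2 nL nM hT (kW.map (fun c => c / 2)) c = true) :
    Rup.Sat (gval B Q (L ∪ M) (Pg3 zn r d0 pz zm hT (kW.map (fun c => c / 2)) n0 t3) bl ct) c := by
  classical
  have hlen : (kW.map (fun c => c / 2)).length = kW.length := List.length_map _
  have hlW := h.lenW
  have key : ∀ (W : Finset V) (p n : ℕ) (f : ℕ → ℕ), W ⊆ L ∪ M → p + n ≤ zm.length →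
      (∀ b < zm.length, (B (bl b) ∩ W).Nonempty ↔ p ≤ b ∧ b < p + n) →
      (∀ a < 3 + kW.length, (Ez B W (ct a)).card = f a) →
      okh p n (3 + (kW.map (fun c => c / 2)).length) f c = true →
      Rup.Sat (gval B Q (L ∪ M) (Pg3 zn r d0 pz zm hT (kW.map (fun c => c / 2)) n0 t3) bl ct)
        c := by
    intro W p n f hWZ hpn hW' hk hc'
    unfold okh at hc'
    rw [hlen] at hc'
    simp only [Bool.and_eq_true, Bool.or_eq_true, Nat.blt_eq] at hc'
    obtain ⟨h1, h2⟩ := hc'
    rcases h2 with h2 | h2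
    · exact sat_okP h.blk hpn hW' hWZ (hk _ h1) (by omega) h2
    · exact sat_okN h.blk hpn hW' hWZ (hk _ h1) (by omega) h2
  unfold okg2 at hc
  simp only [Bool.or_eq_true, decide_eq_true_eq] at hc
  rcases hc with (hc | hc) | hc
  · subst hc
    refine ⟨_, List.mem_singleton_self _, ?_⟩
    rw [lit_ng, gval_A]
    intro h1
    apply hnab
    have h2 : B j ∩ Q = ptm ct (3 + (kW.map (fun c => c / 2)).length + n0) 7 := by
      have h3 := h.lbl.ptm7
      rw [← h3]
      ext v
      rw [mem_ptm, mem_ptm]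
      constructor
      · rintro ⟨a, ha, h3, h4⟩
        exact ⟨a, by omega, h3, h4⟩
      · rintro ⟨a, ha, h3, h4⟩
        refine ⟨a, ?_, h3, h4⟩
        by_contra h5
        have h6 : (7 : ℕ).testBit a = false := Nat.testBit_lt_two_pow (lt_of_lt_of_le
          (by norm_num : (7 : ℕ) < 2 ^ 3) (Nat.pow_le_pow_right (by norm_num) (by omega)))
        rw [h6] at h3
        exact absurd h3 (by simp)
    rw [h2]
    exact h1
  · exact key L 0 nL _ subset_union_left (by rw [h.len]; omega) h.pL
      (fun a ha => h.lbl.hitL (by rw [hlen]; exact ha)) hc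
  · exact key M nL nM _ subset_union_right (by rw [h.len]) h.pM
      (fun a ha => h.lbl.hitM (by rw [hlen]; exact ha)) hc

end

/-- the instance does not occur at two leaves and two triples. -/
def NoX3 (V : Type v) [DecidableEq V] (ι : Type u) [Fintype ι] (zn r d0 pz : ℕ)
    (zm : List ℕ) (nL nM : ℕ) (p : List ℕ × List ℕ) : Prop :=
  ∀ (B : ι → Finset V) (Q U L M : Finset V) (T : Finset ι) (F : Finset (Finset V)) (j k : ι)
    (ct zt : ℕ → V) (bl : ℕ → ι), Frm B Q T U F → ViolR B Q → L ∈ F → M ∈ F → L ≠ M → j ∈ T →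
    k ∈ T → ¬ rho B ((L ∪ M) ∪ (B j ∩ Q)) ≤ rho B (L ∪ M) →
    Gx3 B Q L M j k zn r d0 pz zm nL nM p.1 p.2 bl ct zt → False

section

variable {V : Type v} [DecidableEq V] {ι : Type u} [Fintype ι]

/-- **an instance with two triples from its check**. -/
theorem noX3_of {zn r d0 pz : ℕ} {zm : List ℕ} {nL nM : ℕ} {hT kW hW : List ℕ} {n0 t3 : ℕ}
    {given : List (List ℕ)} {bs : List Gb} {ks : List Gk} {k2 : List (ℕ × Gk)} {kq : List Gq}
    {nm db : Tr} {cnf : List (List ℕ)} {prf : List ℕ}
    (hb : instX3 (Pg3 zn r d0 pz zm hT hW n0 t3) given bs ks k2 kq nm cnf db prf = true)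
    (hgv : given.all (fun c => okg2 nL nM hT hW c ||
      okS (Pg3 zn r d0 pz zm hT hW n0 t3) c) = true)
    (hW' : kW.map (fun c => c / 2) = hW) (hn : nph kW = n0) (ht : okt kW t3 = true) :
    NoX3 V ι zn r d0 pz zm nL nM (hT, kW) := by
  subst hW' hn
  intro B' Q U L M T F j k ct zt bl _ _ _ _ _ _ _ hnab hg0
  obtain ⟨bl', hg, hs⟩ := hg0.exists_sorted (kW.map (fun c => c / 2)) (nph kW) t3
  refine (hg.gx3 ht).no3 (fun c hc => ?_) hb
  have h1 := List.all_eq_true.1 hgv c hc
  rw [Bool.or_eq_true] at h1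
  rcases h1 with h1 | h1
  · exact hg.given hnab h1
  · exact sat_okS hs h1

end

end Pool.Agent.Hyp6
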