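import Pool.Agent.Hyp6.Gdt5

/-!
# HYP6 GDT6: two points and two triples

`Frm.no_pp3`: two points which are free together, without hits of `U`, and a triple with given hits:
all the code vectors are excluded, some of them only with a second triple.
-/

set_option autoImplicit false

namespace Pool.Agent.Hyp6

open Finset Pool.Agent.Hyp5 Gdx Rup

universe u v

/-- the flaggings of a list of codes. -/
def flgs : List ℕ → List (List ℕ)
  | [] => [[]]
  | c :: l => (flgs l).flatMap (fun t => [2 * c :: t, (2 * c + 1) :: t])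

theorem mem_flgs : ∀ kW : List ℕ, kW ∈ flgs (kW.map (fun c => c / 2))
  | [] => List.mem_singleton_self _
  | c :: l => by
    rw [List.map_cons]
    refine List.mem_flatMap.2 ⟨l, mem_flgs l, ?_⟩
    rcases Nat.even_or_odd' c with ⟨d, h | h⟩
    · rw [List.mem_cons]
      left
      congr 1
      omega
    · rw [List.mem_cons, List.mem_singleton]
      right
      congr 1
      omega

/-- decreasing lists. -/
def dsc : List ℕ → Bool
  | [] => true
  | a :: l => l.all (fun b => Nat.ble b a) && dsc l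

theorem dsc_of : ∀ {l : List ℕ}, l.Pairwise (fun a b => b ≤ a) → dsc l = true
  | [], _ => rfl
  | a :: l, h => by
    rw [List.pairwise_cons] at h
    unfold dsc
    rw [Bool.and_eq_true, List.all_eq_true]
    exact ⟨fun b hb => Nat.ble_eq_true_of_le (h.1 b hb), dsc_of h.2⟩

/-- the number of the flagged labels. -/
def oddc : List ℕ → ℕ
  | [] => 0
  | a :: l => a % 2 + oddc l

theorem oddc_eq : ∀ l : List ℕ,
    oddc l = ((range l.length).filter (fun a => l.getD a 0 % 2 = 1)).card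
  | [] => rfl
  | a :: l => by
    rw [List.length_cons, card_filter, sum_range_succ', List.getD_cons_zero]
    have h1 : ∑ i ∈ range l.length, (if (a :: l).getD (i + 1) 0 % 2 = 1 then 1 else 0) =
        oddc l := by
      rw [oddc_eq l, card_filter]
      refine sum_congr rfl fun i _ => ?_
      rw [List.getD_cons_succ]
    have h2 : oddc (a :: l) = a % 2 + oddc l := rfl
    rw [h1, h2]
    split_ifs with h3
    · omega
    · omega

/-- the vector is excluded with all second triples through a label of code `8`. -/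
def grp3 (m3 : List ℕ → List ℕ → Bool) (p : List ℕ × List ℕ) : Bool :=
  p.2.contains 8 && (flgs p.2).all (fun kW => !(dsc kW) || (!(kW.contains 17) ||
    (Nat.blt 3 (oddc kW) || m3 p.1 kW)))

/-- the check of the lists for two points and two triples; `m2`, `m3` are the tests of the excluded
vectors. -/
def chkpp3 (tL tM : ℕ) (ws : List (ℕ × ℕ)) (m2 m3 : List ℕ → List ℕ → Bool) : Bool :=
  ws.all (fun w => (cand2 3 3 tL tM w.1 w.2).all (fun p => m2 p.1 p.2 ||
    (m2 (sw2p p).1 (sw2p p).2 || (grp3 m3 p || grp3 m3 (sw2p p)))))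

/-- equality of lists. -/
def eqL : List ℕ → List ℕ → Bool
  | [], [] => true
  | a :: l, b :: l' => Nat.beq a b && eqL l l'
  | _, _ => false

theorem eqL_eq : ∀ {l l' : List ℕ}, eqL l l' = true → l = l'
  | [], [], _ => rfl
  | [], _ :: _, h => absurd h (by simp [eqL])
  | _ :: _, [], h => absurd h (by simp [eqL])
  | a :: l, b :: l', h => by
    have h1 : (Nat.beq a b && eqL l l') = true := h
    rw [Bool.and_eq_true] at h1
    rw [Nat.eq_of_beq_eq_true h1.1, eqL_eq h1.2]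

/-- the lookup of a vector in a grouped list. -/
def lkG (g : List (List ℕ × List (List ℕ))) (a w : List ℕ) : Bool :=
  g.any (fun q => eqL q.1 a && q.2.any (fun l => eqL l w))

theorem lkG_spec {P : List ℕ × List ℕ → Prop} {g : List (List ℕ × List (List ℕ))}
    (hg : ∀ q ∈ g, ∀ l ∈ q.2, P (q.1, l)) {a w : List ℕ} (h : lkG g a w = true) : P (a, w) := by
  unfold lkG at h
  obtain ⟨q, hq, h1⟩ := List.any_eq_true.1 h
  rw [Bool.and_eq_true] at h1
  obtain ⟨l, hl, h2⟩ := List.any_eq_true.1 h1.2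
  rw [← eqL_eq h1.1, ← eqL_eq h2]
  exact hg q hq l hl

section

variable {V : Type v} [DecidableEq V] {ι : Type u} [Fintype ι] {B : ι → Finset V}

/-- the codes are unique. -/
theorem Lbl2.unique {Q L M : Finset V} {j : ι} {hT hW hT' hW' : List ℕ} {ct ct' : ℕ → V}
    (hl : Lbl2 B Q L M j hT hW ct) (hl' : Lbl2 B Q L M j hT' hW' ct') : hT' = hT ∧ hW' = hW := by
  obtain ⟨p1, p2⟩ := hl.perms
  obtain ⟨q1, q2⟩ := hl'.perms
  exact ⟨sorted_unique (q1.symm.trans p1) hl'.desT hl.desT,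
    sorted_unique (q2.symm.trans p2) hl'.desW hl.desW⟩

/-- **the context with the phantoms**. -/
theorem exists_gx3 {Q L M : Finset V} {j k : ι} {zn r d0 pz : ℕ} {zm : List ℕ}
    {nL nM : ℕ} {hT kW : List ℕ} {bl : ℕ → ι} {ct zt : ℕ → V}
    (hl : Lbl2 B Q L M j hT (kW.map (fun c => c / 2)) ct)
    (hflag : ∀ a < kW.length, (ct (3 + a) ∈ B k ↔ kW.getD a 0 % 2 = 1))
    (hk3 : (B k ∩ Q).card = 3) (hkj : k ≠ j) (hdis : Disjoint (B k ∩ Q) (B j ∩ Q))
    (hkZ : Disjoint (B k ∩ Q) (L ∪ M)) (hblk : Blk B (L ∪ M) zn zm bl zt)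
    (hlen : zm.length = nL + nM)
    (hpL : ∀ b < zm.length, (B (bl b) ∩ L).Nonempty ↔ 0 ≤ b ∧ b < 0 + nL)
    (hpM : ∀ b < zm.length, (B (bl b) ∩ M).Nonempty ↔ nL ≤ b ∧ b < nL + nM)
    (hlenW : kW.length ≤ 20)
    (hgx : ∀ ct', Lbl2 B Q L M j hT (kW.map (fun c => c / 2)) ct' →
      Gdx.Gx B Q (L ∪ M) (Pg2 zn r d0 pz zm hT (kW.map (fun c => c / 2))) bl ct' zt
        (fun _ => j)) :
    ∃ ct', Gx3 B Q L M j k zn r d0 pz zm nL nM hT kW bl ct' zt ∧ oddc kW ≤ 3 := by
  classical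
  have hlm : (kW.map (fun c => c / 2)).length = kW.length := List.length_map _
  have hTl := hl.lenT
  obtain ⟨v0, _⟩ : (B k ∩ Q).Nonempty := card_pos.1 (by omega)
  have : Inhabited V := ⟨v0⟩
  set Ph := (B k ∩ Q).filter (fun v => ¬ (Ez B (L ∪ M) v).Nonempty) with hPh
  set W := (B k ∩ Q).filter (fun v => (Ez B (L ∪ M) v).Nonempty) with hW
  have hsum : W.card + Ph.card = 3 := by
    rw [← hk3, hPh, hW, Finset.card_filter_add_card_filter_not]
  have hpos : ∀ a < kW.length, (Ez B (L ∪ M) (ct (3 + a))).Nonempty := by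
    intro a ha
    have h3 := hl.code (3 + a) (by omega)
    rw [List.getD_append_right _ _ _ _ (by omega), hTl, show 3 + a - 3 = a by omega,
      List.getD_eq_getElem _ _ (by rw [hlm]; exact ha)] at h3
    have h4 := hl.posW _ (List.getElem_mem (by rw [hlm]; exact ha : a < _))
    rw [Ez_union_ne, ← card_pos, ← card_pos]
    unfold cd2 at h3
    omega
  have hWc : W.card = oddc kW := by
    have h1 : W = ((range kW.length).filter (fun a => kW.getD a 0 % 2 = 1)).image
        (fun a => ct (3 + a)) := by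
      ext v
      rw [hW, mem_filter, mem_image]
      constructor
      · rintro ⟨h1, h2⟩
        obtain ⟨a, ha, he⟩ := hl.all v (mem_inter.1 h1).2 (disjoint_left.1 hkZ h1) h2
        rw [hlm] at ha
        have h3 : ¬ a < 3 := by
          intro h4
          exact disjoint_left.1 hdis h1 ((hl.trip _).2 ⟨a, h4, he⟩)
        have h5 : ct (3 + (a - 3)) = v := by
          rw [show 3 + (a - 3) = a by omega]
          exact he
        refine ⟨a - 3, mem_filter.2 ⟨mem_range.2 (by omega), ?_⟩, h5⟩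
        rw [← hflag (a - 3) (by omega), h5]
        exact (mem_inter.1 h1).1
      · rintro ⟨a, ha, rfl⟩
        rw [mem_filter, mem_range] at ha
        exact ⟨mem_inter.2 ⟨(hflag a ha.1).2 ha.2, (hl.memQ (3 + a) (by omega)).1⟩, hpos a ha.1⟩
    rw [h1, oddc_eq, card_image_of_injOn]
    intro a ha b hb hab
    rw [mem_coe, mem_filter, mem_range] at ha hb
    have := hl.inj (3 + a) (by omega) (3 + b) (by omega) hab
    omega
  have hn : nph kW = Ph.card := by
    unfold nph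
    rw [← oddc_eq]
    omega
  obtain ⟨e, e1, e2, _, e4⟩ := exists_enum Ph (fun _ => (0 : ℕ)) (List.Perm.refl _) 0
  rw [List.length_map, Finset.length_toList, ← hn] at e1 e2 e4
  set ct' : ℕ → V := fun a => if a < 3 + kW.length then ct a else e (a - (3 + kW.length)) with hct
  have hc1 : ∀ a < 3 + kW.length, ct' a = ct a := fun a ha => by
    simp only [hct, ha, if_true]
  have hc2 : ∀ a, ct' (3 + kW.length + a) = e a := fun a => by
    simp only [hct, show ¬ (3 + kW.length + a < 3 + kW.length) by omega, if_false]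
    rw [show 3 + kW.length + a - (3 + kW.length) = a by omega]
  have hl' : Lbl2 B Q L M j hT (kW.map (fun c => c / 2)) ct' :=
    hl.congr fun a ha => hc1 a (by rw [hlm] at ha; exact ha)
  refine ⟨ct', ⟨hl', fun a ha => ?_, fun a ha => ?_, fun a ha a' ha' hab => ?_, fun v hv hne => ?_,
    hk3, hkj, hdis, hkZ, hblk, hlen, hpL, hpM, hlenW, hgx ct' hl'⟩, by omega⟩
  · rw [hc1 _ (by omega)]
    exact hflag a ha
  · rw [hc2]
    exact mem_filter.1 (e1 a ha)
  · rw [hc2, hc2] at hab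
    exact e2 a ha a' ha' hab
  · obtain ⟨a, ha, he⟩ := e4 v (mem_filter.2 ⟨hv, hne⟩)
    exact ⟨a, ha, by rw [hc2]; exact he⟩

/-- **the context for two points and two triples**. -/
theorem Frm.exists_gx3pp {Q U : Finset V} {T : Finset ι} {F : Finset (Finset V)} {x y : V}
    (h : Frm B Q T U F) (hv : ViolR B Q) (hx : {x} ∈ F) (hy : {y} ∈ F) (hxy : x ≠ y)
    (ex : ee B Q {x} = 0) (ey : ee B Q {y} = 0) {j k : ι} (hj : j ∈ T) (hk : k ∈ T)
    (hkj : k ≠ j) :
    ∃ hT kW bl ct zt, Gx3 B Q {x} {y} j k 2 2 12 12 zpp 5 5 hT kW bl ct zt ∧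
      kW.Pairwise (fun a b => b ≤ a) ∧ oddc kW ≤ 3 := by
  classical
  have hne : ({x} : Finset V) ≠ {y} := fun he => hxy (singleton_injective he)
  obtain ⟨hdis, hsep⟩ := h.sepF _ hx _ hy hne
  have hxQ := h.FQ hx
  have hyQ := h.FQ hy
  have hout : ∀ i ∈ T, ∀ L ∈ F, ¬ (B i ∩ L).Nonempty := by
    rintro i hi L hLF ⟨v, hv'⟩
    obtain ⟨h2, h3⟩ := mem_inter.1 hv'
    exact (h.T_out hi (mem_inter.2 ⟨h2, h.FQ hLF h3⟩)).2 L hLF h3
  obtain ⟨rx, Px, dx, fx⟩ := h.leafpt hv hx
  obtain ⟨ry, Py, dy, fy⟩ := h.leafpt hv hy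
  obtain ⟨b1, z1, k1⟩ := Blk.point (B := B) (hv.reg x (hxQ (mem_singleton_self x)))
  obtain ⟨b2, z2, k2⟩ := Blk.point (B := B) (hv.reg y (hyQ (mem_singleton_self y)))
  obtain ⟨hT, kW, ct, hl, hdes, hflag⟩ := exists_labelsk (k := k) hv.reg (h.full hj)
    (hout j hj _ hx) (hout j hj _ hy)
  have hblk := k1.union k2 hdis hsep (by
    intro m hm
    simp only [List.mem_cons, List.not_mem_nil, or_false, or_self] at hm
    subst hm
    norm_num)
  have hfx := fs_nonneg (B := B) (Z := Q) (C := {x}) hv.tr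
  have hfy := fs_nonneg (B := B) (Z := Q) (C := {y}) hv.tr
  have hlen := hl.length_le
  rw [List.length_map] at hlen
  have hlen' : kW.length ≤ 20 := by omega
  have hcx := h.cov.mono hxQ
  have hcy := h.cov.mono hyQ
  have hdjk : Disjoint (B k ∩ Q) (B j ∩ Q) := h.mtp.tpk.pack.disj k hk j hj hkj
  have hkZ : Disjoint (B k ∩ Q) ({x} ∪ {y}) := by
    rw [disjoint_left]
    intro v h1 h2
    rcases mem_union.1 h2 with h3 | h3
    · exact hout k hk _ hx ⟨v, mem_inter.2 ⟨(mem_inter.1 h1).1, h3⟩⟩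
    · exact hout k hk _ hy ⟨v, mem_inter.2 ⟨(mem_inter.1 h1).1, h3⟩⟩
  obtain ⟨ct', h1, h2⟩ := exists_gx3 (k := k) (nL := 5) (nM := 5) (r := 2) (d0 := 12) (pz := 12)
    hl hflag (h.full hk) hkj hdjk hkZ hblk (by decide)
    (Blk.part_L (zn := 1) (zm := [1, 1, 1, 1, 1]) (zm' := [1, 1, 1, 1, 1]) k1.touch k2.touch hsep)
    (Blk.part_M (zn := 1) (zm := [1, 1, 1, 1, 1]) (zm' := [1, 1, 1, 1, 1]) k1.touch k2.touch hsep)
    hlen' (fun ct' hl' => by
      refine hl'.gx hsep hblk hv (union_subset hxQ hyQ) ⟨x, mem_union_left _ (mem_singleton_self x)⟩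
        (h.full hj) (by rw [List.length_map]; omega) ?_ ?_ ?_
      · rw [rho_add hcx hcy hsep, rx, ry]
      · rw [dv_union hcx hcy hdis hsep, dx, dy, ex, ey]
        norm_num
      · rw [Pv_add hcx hcy hdis hsep, Px, Py]
        norm_num)
  exact ⟨hT, kW, _, ct', _, h1, hdes, h2⟩

/-- **a vector which is excluded with all second triples**. -/
theorem Frm.no_grp3 {Q U : Finset V} {T : Finset ι} {F : Finset (Finset V)} {x y : V}
    (h : Frm B Q T U F) (hv : ViolR B Q) (hx : {x} ∈ F) (hy : {y} ∈ F) (hxy : x ≠ y)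
    (ex : ee B Q {x} = 0) (ey : ee B Q {y} = 0) {j : ι} (hj : j ∈ T) (hU : hit B U {x} = 0)
    (hnab : ¬ rho B (({x} ∪ {y}) ∪ (B j ∩ Q)) ≤ rho B ({x} ∪ {y}))
    {m3 : List ℕ → List ℕ → Bool} (hno : ∀ a w, m3 a w = true → NoX3 V ι 2 2 12 12 zpp 5 5 (a, w))
    {hT hW : List ℕ} {ct : ℕ → V} (hl : Lbl2 B Q {x} {y} j hT hW ct)
    (hgr : grp3 m3 (hT, hW) = true) : False := by
  classical
  have hne : ({x} : Finset V) ≠ {y} := fun he => hxy (singleton_injective he)
  unfold grp3 at hgr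
  rw [Bool.and_eq_true, List.contains_iff_mem, List.all_eq_true] at hgr
  obtain ⟨h8, hall⟩ := hgr
  have hTl := hl.lenT
  obtain ⟨i, hi, he⟩ := List.getElem_of_mem h8
  have hi' : i < hW.length := hi
  set v := ct (3 + i) with hvd
  have hvc : cd2 B {x} {y} v = 8 := by
    rw [hvd, hl.code (3 + i) (by omega), List.getD_append_right _ _ _ _ (by omega), hTl,
      show 3 + i - 3 = i by omega, List.getD_eq_getElem _ _ hi']
    exact he
  obtain ⟨hvQ, hvZ⟩ := hl.memQ (3 + i) (by omega)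
  rw [← hvd] at hvQ hvZ
  have hvx : v ∉ ({x} : Finset V) := fun h1 => hvZ (mem_union_left _ h1)
  have h5 : (Ez B {y} v).card ≤ 5 := card_Ez_le (hv.reg v hvQ)
  have hEx : (Ez B {x} v).Nonempty := by
    rw [← card_pos]
    unfold cd2 at hvc
    omega
  have hadj : ∃ w ∈ ({x} : Finset V), (gr B).Adj v w := by
    obtain ⟨i0, h1⟩ := hEx
    obtain ⟨h2, w, h3⟩ := mem_Ez.1 h1
    obtain ⟨h4, h6⟩ := mem_inter.1 h3
    exact ⟨w, h6, fun h7 => hvx (h7 ▸ h6), i0, h2, h4⟩
  rcases h.leaf_contact hx hvQ hvx hadj with h1 | ⟨k, hk, hvk⟩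
  · rw [hit_eq_Ez] at hU
    have h2 := (sum_eq_zero_iff.1 hU) v h1
    rw [card_eq_zero] at h2
    exact hEx.ne_empty h2
  have hvj : v ∉ B j ∩ Q := by
    intro h1
    obtain ⟨a, ha, h2⟩ := (hl.trip v).1 h1
    have := hl.inj a (by omega) (3 + i) (by omega) h2
    omega
  have hkj : k ≠ j := by
    rintro rfl
    exact hvj hvk
  obtain ⟨hT', kW, bl', ct', zt', hg, hdes, hodd⟩ := h.exists_gx3pp hv hx hy hxy ex ey hj hk hkj
  obtain ⟨e1, e2⟩ := hl.unique hg.lbl
  subst e1
  have hf := mem_flgs kW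
  rw [e2] at hf
  have h1 := hall kW hf
  have hlm : (kW.map (fun c => c / 2)).length = kW.length := List.length_map _
  have h17 : 17 ∈ kW := by
    obtain ⟨a, ha, h2⟩ := hg.lbl.all v hvQ hvZ (by
      rw [Ez_union_ne]
      exact Or.inl hEx)
    rw [hlm] at ha
    have h3 : ¬ a < 3 := fun h4 => hvj ((hg.lbl.trip v).2 ⟨a, h4, h2⟩)
    have h4 := hg.flag (a - 3) (by omega)
    rw [show 3 + (a - 3) = a by omega, h2] at h4
    have h6 := h4.1 (mem_inter.1 hvk).1
    have h7 := hg.lbl.code a (by omega)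
    rw [h2, hvc, List.getD_append_right _ _ _ _ (by omega), hTl,
      List.getD_eq_getElem _ _ (by omega), List.getElem_map] at h7
    rw [List.getD_eq_getElem _ _ (by omega : a - 3 < kW.length)] at h6
    have h8 : kW[a - 3] = 17 := by omega
    rw [← h8]
    exact List.getElem_mem _
  rw [dsc_of hdes, List.contains_iff_mem.2 h17] at h1
  simp only [Bool.not_true, Bool.false_or, Bool.or_eq_true, Nat.blt_eq] at h1
  rcases h1 with h1 | h1
  · omega
  · exact hno _ _ h1 B Q U {x} {y} T F j k ct' zt' bl' h hv hx hy hne hj hk hnab hg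

/-- **two points, a triple and a second triple**: all code vectors are excluded. -/
theorem Frm.no_pp3 {Q U : Finset V} {T : Finset ι} {F : Finset (Finset V)} {x y : V}
    (h : Frm B Q T U F) (hv : ViolR B Q) (hx : {x} ∈ F) (hy : {y} ∈ F) (hxy : x ≠ y)
    (ex : ee B Q {x} = 0) (ey : ee B Q {y} = 0) {j : ι} (hj : j ∈ T)
    (hdf : Sp.dfc U (slf B F) {{x}, {y}} ≤ 0) (hUx : hit B U {x} = 0) (hUy : hit B U {y} = 0)
    {tL tM : ℕ} (hL : hit B (B j ∩ Q) {x} = tL)
    (hM : hit B (B j ∩ Q) {y} = tM) {ws : List (ℕ × ℕ)} {m2 m3 : List ℕ → List ℕ → Bool}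
    (hw : (hit B ((Q \ {x}) \ B j) {x}, hit B ((Q \ {y}) \ B j) {y}) ∈ ws)
    (hno : ∀ a w, m2 a w = true → NoX2 V ι 2 2 12 12 zpp 5 5 (a, w))
    (hno3 : ∀ a w, m3 a w = true → NoX3 V ι 2 2 12 12 zpp 5 5 (a, w))
    (hchk : chkpp3 tL tM ws m2 m3 = true) : False := by
  classical
  have hne : ({x} : Finset V) ≠ {y} := fun he => hxy (singleton_injective he)
  obtain ⟨hdis, hsep⟩ := h.sepF _ hx _ hy hne
  have hxQ := h.FQ hx (mem_singleton_self x)
  have hyQ := h.FQ hy (mem_singleton_self y)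
  have hout : ∀ L ∈ F, ¬ (B j ∩ L).Nonempty := by
    rintro L hLF ⟨v, hv'⟩
    obtain ⟨h2, h3⟩ := mem_inter.1 hv'
    exact (h.T_out hj (mem_inter.2 ⟨h2, h.FQ hLF h3⟩)).2 L hLF h3
  obtain ⟨hT, hW, bl, ct, zt, hg⟩ := h.exists_gxpp hv hx hy hxy ex ey (h.full hj) (hout _ hx)
    (hout _ hy)
  obtain ⟨hT', hW', bl', ct', zt', hg'⟩ := h.exists_gxpp hv hy hx hxy.symm ey ex (h.full hj)
    (hout _ hy) (hout _ hx)
  have hdf' : Sp.dfc U (slf B F) {{y}, {x}} ≤ 0 := by
    rw [pair_comm]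
    exact hdf
  have n1 := h.nab2 hj hx hy hne hdf
  have n2 := h.nab2 hj hy hx hne.symm hdf'
  have hmem := hg.lbl.mem_cand2 hsep hv.reg (mL := 3) (mM := 3) (hout _ hx) (hout _ hy)
    (fun v hvQ hvZ => hv.card_Ez_pt hxQ hvQ fun he => hvZ (mem_union_left _ (mem_singleton.2 he)))
    (fun v hvQ hvZ => hv.card_Ez_pt hyQ hvQ fun he => hvZ (mem_union_right _ (mem_singleton.2 he)))
  rw [hit_sep hsep, union_comm, hit_sep hsep.symm, hL, hM] at hmem
  have h1 := List.all_eq_true.1 hchk _ hw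
  have h2 := List.all_eq_true.1 h1 _ hmem
  simp only [Bool.or_eq_true] at h2
  have hsw := hg.lbl.swap hg'.lbl hv.reg
  rcases h2 with h2 | h2 | h2 | h2
  · exact hno _ _ h2 B Q U {x} {y} T F j ct zt bl h hv hx hy hne hj n1 hg
  · rw [← hsw] at h2
    exact hno _ _ h2 B Q U {y} {x} T F j ct' zt' bl' h hv hy hx hne.symm hj n2 hg'
  · exact h.no_grp3 hv hx hy hxy ex ey hj hUx n1 hno3 hg.lbl h2
  · rw [← hsw] at h2
    exact h.no_grp3 hv hy hx hxy.symm ey ex hj hUy n2 hno3 hg'.lbl h2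

end

end Pool.Agent.Hyp6
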