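import Pool.Agent.Hyp6.Gdt6
import Pool.Agent.Hyp6.InsX.D00
import Pool.Agent.Hyp6.InsX.D01
import Pool.Agent.Hyp6.InsX.D02
import Pool.Agent.Hyp6.InsX.D03
import Pool.Agent.Hyp6.InsX.D04
import Pool.Agent.Hyp6.InsX.D05
import Pool.Agent.Hyp6.InsX.D06
import Pool.Agent.Hyp6.InsX.D07
import Pool.Agent.Hyp6.InsX.D08
import Pool.Agent.Hyp6.InsX.D09
import Pool.Agent.Hyp6.InsX.D10
import Pool.Agent.Hyp6.InsX.D11
import Pool.Agent.Hyp6.InsX.D12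
import Pool.Agent.Hyp6.InsX.D13
import Pool.Agent.Hyp6.InsX.D14
import Pool.Agent.Hyp6.InsX.D15
import Pool.Agent.Hyp6.InsX.D16
import Pool.Agent.Hyp6.InsX.D17
import Pool.Agent.Hyp6.InsX.E00
import Pool.Agent.Hyp6.InsX.E01
import Pool.Agent.Hyp6.InsX.E02
import Pool.Agent.Hyp6.InsX.E03
import Pool.Agent.Hyp6.InsX.E04
import Pool.Agent.Hyp6.InsX.E05
import Pool.Agent.Hyp6.InsX.E06

/-!
# HYP6 GDT7: the list of the excluded code vectors for two points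
-/

set_option autoImplicit false

namespace Pool.Agent.Hyp6

open Finset Pool.Agent.Hyp5 Gdx Rup

universe u v

/-- the vectors with the first part `[17, 17, 11]`. -/
def gvA0 : List (List ℕ) := [[8, 8, 8, 2, 1, 1], [8, 8, 8, 2, 2], [8, 8, 8, 3, 1], [9, 8, 8, 1, 1, 1],
  [9, 8, 8, 2, 1], [9, 8, 8, 3], [9, 9, 8, 1, 1], [9, 9, 8, 2], [9, 9, 9, 1],
  [10, 8, 8, 1, 1], [10, 8, 8, 2], [10, 9, 8, 1], [10, 9, 9], [10, 10, 8], [11, 8, 8, 1],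
  [11, 9, 8], [16, 8, 1, 1, 1, 1], [16, 8, 2, 1, 1], [16, 8, 2, 2], [16, 8, 3, 1],
  [16, 9, 1, 1, 1], [16, 9, 2, 1], [16, 9, 3], [16, 10, 1, 1], [16, 10, 2], [16, 11, 1],
  [17, 8, 1, 1, 1], [17, 8, 2, 1], [17, 8, 3], [17, 9, 1, 1], [17, 9, 2], [17, 10, 1],
  [17, 11], [18, 8, 1, 1], [18, 8, 2], [18, 9, 1], [18, 10], [19, 8, 1], [19, 9],
  [24, 1, 1, 1, 1], [24, 2, 1, 1], [24, 2, 2], [24, 3, 1], [25, 1, 1, 1], [25, 2, 1],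
  [25, 3], [26, 1, 1], [26, 2]]

theorem gvA0_no (V : Type v) [DecidableEq V] (ι : Type u) [Fintype ι] :
    ∀ l ∈ gvA0, NoX2 V ι 2 2 12 12 zpp 5 5 ([17, 17, 11], l) := by
  unfold gvA0
  simp only [List.forall_mem_cons, List.not_mem_nil, false_imp_iff, implies_true, and_true]
  exact ⟨L17_17_11_u8_8_8_2_1_1.no V ι,
    L17_17_11_u8_8_8_2_2.no V ι,
    L17_17_11_u8_8_8_3_1.no V ι,
    L17_17_11_u9_8_8_1_1_1.no V ι,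
    L17_17_11_u9_8_8_2_1.no V ι,
    L17_17_11_u9_8_8_3.no V ι,
    L17_17_11_u9_9_8_1_1.no V ι,
    L17_17_11_u9_9_8_2.no V ι,
    L17_17_11_u9_9_9_1.no V ι,
    L17_17_11_u10_8_8_1_1.no V ι,
    L17_17_11_u10_8_8_2.no V ι,
    L17_17_11_u10_9_8_1.no V ι,
    L17_17_11_u10_9_9.no V ι,
    L17_17_11_u10_10_8.no V ι,
    L17_17_11_u11_8_8_1.no V ι,
    L17_17_11_u11_9_8.no V ι,
    L17_17_11_u16_8_1_1_1_1.no V ι,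
    L17_17_11_u16_8_2_1_1.no V ι,
    L17_17_11_u16_8_2_2.no V ι,
    L17_17_11_u16_8_3_1.no V ι,
    L17_17_11_u16_9_1_1_1.no V ι,
    L17_17_11_u16_9_2_1.no V ι,
    L17_17_11_u16_9_3.no V ι,
    L17_17_11_u16_10_1_1.no V ι,
    L17_17_11_u16_10_2.no V ι,
    L17_17_11_u16_11_1.no V ι,
    L17_17_11_u17_8_1_1_1.no V ι,
    L17_17_11_u17_8_2_1.no V ι,
    L17_17_11_u17_8_3.no V ι,
    L17_17_11_u17_9_1_1.no V ι,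
    L17_17_11_u17_9_2.no V ι,
    L17_17_11_u17_10_1.no V ι,
    L17_17_11_u17_11.no V ι,
    L17_17_11_u18_8_1_1.no V ι,
    L17_17_11_u18_8_2.no V ι,
    L17_17_11_u18_9_1.no V ι,
    L17_17_11_u18_10.no V ι,
    L17_17_11_u19_8_1.no V ι,
    L17_17_11_u19_9.no V ι,
    L17_17_11_u24_1_1_1_1.no V ι,
    L17_17_11_u24_2_1_1.no V ι,
    L17_17_11_u24_2_2.no V ι,
    L17_17_11_u24_3_1.no V ι,
    L17_17_11_u25_1_1_1.no V ι,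
    L17_17_11_u25_2_1.no V ι,
    L17_17_11_u25_3.no V ι,
    L17_17_11_u26_1_1.no V ι,
    L17_17_11_u26_2.no V ι⟩

/-- the vectors with the first part `[18, 16, 11]`. -/
def gvA1 : List (List ℕ) := [[8, 8, 8, 2, 1, 1], [8, 8, 8, 2, 2], [8, 8, 8, 3, 1], [9, 8, 8, 1, 1, 1],
  [9, 8, 8, 2, 1], [9, 8, 8, 3], [9, 9, 8, 1, 1], [9, 9, 8, 2], [9, 9, 9, 1],
  [10, 8, 8, 1, 1], [10, 8, 8, 2], [10, 9, 8, 1], [10, 9, 9], [10, 10, 8], [11, 8, 8, 1],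
  [11, 9, 8], [16, 8, 1, 1, 1, 1], [16, 8, 2, 1, 1], [16, 8, 2, 2], [16, 8, 3, 1],
  [16, 9, 1, 1, 1], [16, 9, 2, 1], [16, 9, 3], [16, 10, 1, 1], [16, 10, 2], [16, 11, 1],
  [17, 8, 1, 1, 1], [17, 8, 2, 1], [17, 8, 3], [17, 9, 1, 1], [17, 9, 2], [17, 10, 1],
  [17, 11], [18, 8, 1, 1], [18, 8, 2], [18, 9, 1], [18, 10], [19, 8, 1], [19, 9],
  [24, 1, 1, 1, 1], [24, 2, 1, 1], [24, 2, 2], [24, 3, 1], [25, 1, 1, 1], [25, 2, 1],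
  [25, 3], [26, 1, 1], [26, 2]]

theorem gvA1_no (V : Type v) [DecidableEq V] (ι : Type u) [Fintype ι] :
    ∀ l ∈ gvA1, NoX2 V ι 2 2 12 12 zpp 5 5 ([18, 16, 11], l) := by
  unfold gvA1
  simp only [List.forall_mem_cons, List.not_mem_nil, false_imp_iff, implies_true, and_true]
  exact ⟨L18_16_11_u8_8_8_2_1_1.no V ι,
    L18_16_11_u8_8_8_2_2.no V ι,
    L18_16_11_u8_8_8_3_1.no V ι,
    L18_16_11_u9_8_8_1_1_1.no V ι,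
    L18_16_11_u9_8_8_2_1.no V ι,
    L18_16_11_u9_8_8_3.no V ι,
    L18_16_11_u9_9_8_1_1.no V ι,
    L18_16_11_u9_9_8_2.no V ι,
    L18_16_11_u9_9_9_1.no V ι,
    L18_16_11_u10_8_8_1_1.no V ι,
    L18_16_11_u10_8_8_2.no V ι,
    L18_16_11_u10_9_8_1.no V ι,
    L18_16_11_u10_9_9.no V ι,
    L18_16_11_u10_10_8.no V ι,
    L18_16_11_u11_8_8_1.no V ι,
    L18_16_11_u11_9_8.no V ι,
    L18_16_11_u16_8_1_1_1_1.no V ι,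
    L18_16_11_u16_8_2_1_1.no V ι,
    L18_16_11_u16_8_2_2.no V ι,
    L18_16_11_u16_8_3_1.no V ι,
    L18_16_11_u16_9_1_1_1.no V ι,
    L18_16_11_u16_9_2_1.no V ι,
    L18_16_11_u16_9_3.no V ι,
    L18_16_11_u16_10_1_1.no V ι,
    L18_16_11_u16_10_2.no V ι,
    L18_16_11_u16_11_1.no V ι,
    L18_16_11_u17_8_1_1_1.no V ι,
    L18_16_11_u17_8_2_1.no V ι,
    L18_16_11_u17_8_3.no V ι,
    L18_16_11_u17_9_1_1.no V ι,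
    L18_16_11_u17_9_2.no V ι,
    L18_16_11_u17_10_1.no V ι,
    L18_16_11_u17_11.no V ι,
    L18_16_11_u18_8_1_1.no V ι,
    L18_16_11_u18_8_2.no V ι,
    L18_16_11_u18_9_1.no V ι,
    L18_16_11_u18_10.no V ι,
    L18_16_11_u19_8_1.no V ι,
    L18_16_11_u19_9.no V ι,
    L18_16_11_u24_1_1_1_1.no V ι,
    L18_16_11_u24_2_1_1.no V ι,
    L18_16_11_u24_2_2.no V ι,
    L18_16_11_u24_3_1.no V ι,
    L18_16_11_u25_1_1_1.no V ι,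
    L18_16_11_u25_2_1.no V ι,
    L18_16_11_u25_3.no V ι,
    L18_16_11_u26_1_1.no V ι,
    L18_16_11_u26_2.no V ι⟩

/-- the vectors with the first part `[18, 17, 10]`. -/
def gvA2 : List (List ℕ) := [[8, 8, 8, 1, 1, 1], [8, 8, 8, 2, 1, 1], [8, 8, 8, 2, 2], [8, 8, 8, 3, 1],
  [9, 8, 8, 1, 1], [9, 8, 8, 1, 1, 1], [9, 8, 8, 2, 1], [9, 8, 8, 3], [9, 9, 8, 1],
  [9, 9, 8, 1, 1], [9, 9, 8, 2], [9, 9, 9], [9, 9, 9, 1], [10, 8, 8, 1, 1], [10, 8, 8, 2],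
  [10, 9, 8, 1], [10, 9, 9], [10, 10, 8], [11, 8, 8, 1], [11, 9, 8], [16, 8, 1, 1, 1],
  [16, 8, 1, 1, 1, 1], [16, 8, 2, 1], [16, 8, 2, 1, 1], [16, 8, 2, 2], [16, 8, 3, 1],
  [16, 9, 1, 1], [16, 9, 1, 1, 1], [16, 9, 2], [16, 9, 2, 1], [16, 9, 3], [16, 10, 1, 1],
  [16, 10, 2], [16, 11, 1], [17, 8, 1, 1], [17, 8, 1, 1, 1], [17, 8, 2], [17, 8, 2, 1],
  [17, 8, 3], [17, 9, 1], [17, 9, 1, 1], [17, 9, 2], [17, 10], [17, 10, 1], [17, 11],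
  [18, 8, 1], [18, 8, 1, 1], [18, 8, 2], [18, 9], [18, 9, 1], [18, 10], [19, 8, 1],
  [19, 9], [24, 1, 1, 1], [24, 1, 1, 1, 1], [24, 2, 1], [24, 2, 1, 1], [24, 2, 2], [24, 3],
  [24, 3, 1], [25, 1, 1], [25, 1, 1, 1], [25, 2], [25, 2, 1], [25, 3], [26, 1], [26, 1, 1],
  [26, 2]]

theorem gvA2_no (V : Type v) [DecidableEq V] (ι : Type u) [Fintype ι] :
    ∀ l ∈ gvA2, NoX2 V ι 2 2 12 12 zpp 5 5 ([18, 17, 10], l) := by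
  unfold gvA2
  simp only [List.forall_mem_cons, List.not_mem_nil, false_imp_iff, implies_true, and_true]
  exact ⟨L18_17_10_u8_8_8_1_1_1.no V ι,
    L18_17_10_u8_8_8_2_1_1.no V ι,
    L18_17_10_u8_8_8_2_2.no V ι,
    L18_17_10_u8_8_8_3_1.no V ι,
    L18_17_10_u9_8_8_1_1.no V ι,
    L18_17_10_u9_8_8_1_1_1.no V ι,
    L18_17_10_u9_8_8_2_1.no V ι,
    L18_17_10_u9_8_8_3.no V ι,
    L18_17_10_u9_9_8_1.no V ι,
    L18_17_10_u9_9_8_1_1.no V ι,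
    L18_17_10_u9_9_8_2.no V ι,
    L18_17_10_u9_9_9.no V ι,
    L18_17_10_u9_9_9_1.no V ι,
    L18_17_10_u10_8_8_1_1.no V ι,
    L18_17_10_u10_8_8_2.no V ι,
    L18_17_10_u10_9_8_1.no V ι,
    L18_17_10_u10_9_9.no V ι,
    L18_17_10_u10_10_8.no V ι,
    L18_17_10_u11_8_8_1.no V ι,
    L18_17_10_u11_9_8.no V ι,
    L18_17_10_u16_8_1_1_1.no V ι,
    L18_17_10_u16_8_1_1_1_1.no V ι,
    L18_17_10_u16_8_2_1.no V ι,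
    L18_17_10_u16_8_2_1_1.no V ι,
    L18_17_10_u16_8_2_2.no V ι,
    L18_17_10_u16_8_3_1.no V ι,
    L18_17_10_u16_9_1_1.no V ι,
    L18_17_10_u16_9_1_1_1.no V ι,
    L18_17_10_u16_9_2.no V ι,
    L18_17_10_u16_9_2_1.no V ι,
    L18_17_10_u16_9_3.no V ι,
    L18_17_10_u16_10_1_1.no V ι,
    L18_17_10_u16_10_2.no V ι,
    L18_17_10_u16_11_1.no V ι,
    L18_17_10_u17_8_1_1.no V ι,
    L18_17_10_u17_8_1_1_1.no V ι,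
    L18_17_10_u17_8_2.no V ι,
    L18_17_10_u17_8_2_1.no V ι,
    L18_17_10_u17_8_3.no V ι,
    L18_17_10_u17_9_1.no V ι,
    L18_17_10_u17_9_1_1.no V ι,
    L18_17_10_u17_9_2.no V ι,
    L18_17_10_u17_10.no V ι,
    L18_17_10_u17_10_1.no V ι,
    L18_17_10_u17_11.no V ι,
    L18_17_10_u18_8_1.no V ι,
    L18_17_10_u18_8_1_1.no V ι,
    L18_17_10_u18_8_2.no V ι,
    L18_17_10_u18_9.no V ι,
    L18_17_10_u18_9_1.no V ι,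
    L18_17_10_u18_10.no V ι,
    L18_17_10_u19_8_1.no V ι,
    L18_17_10_u19_9.no V ι,
    L18_17_10_u24_1_1_1.no V ι,
    L18_17_10_u24_1_1_1_1.no V ι,
    L18_17_10_u24_2_1.no V ι,
    L18_17_10_u24_2_1_1.no V ι,
    L18_17_10_u24_2_2.no V ι,
    L18_17_10_u24_3.no V ι,
    L18_17_10_u24_3_1.no V ι,
    L18_17_10_u25_1_1.no V ι,
    L18_17_10_u25_1_1_1.no V ι,
    L18_17_10_u25_2.no V ι,
    L18_17_10_u25_2_1.no V ι,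
    L18_17_10_u25_3.no V ι,
    L18_17_10_u26_1.no V ι,
    L18_17_10_u26_1_1.no V ι,
    L18_17_10_u26_2.no V ι⟩

/-- the vectors with the first part `[18, 18, 9]`. -/
def gvA3 : List (List ℕ) := [[8, 8, 8, 1, 1, 1], [8, 8, 8, 2, 1, 1], [8, 8, 8, 2, 2], [8, 8, 8, 3, 1],
  [9, 8, 8, 1, 1], [9, 8, 8, 1, 1, 1], [9, 8, 8, 2, 1], [9, 8, 8, 3], [9, 9, 8, 1],
  [9, 9, 8, 1, 1], [9, 9, 8, 2], [9, 9, 9], [9, 9, 9, 1], [10, 8, 8, 1, 1], [10, 8, 8, 2],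
  [10, 9, 8, 1], [10, 9, 9], [10, 10, 8], [11, 8, 8, 1], [11, 9, 8], [16, 8, 1, 1, 1],
  [16, 8, 1, 1, 1, 1], [16, 8, 2, 1], [16, 8, 2, 1, 1], [16, 8, 2, 2], [16, 8, 3, 1],
  [16, 9, 1, 1], [16, 9, 1, 1, 1], [16, 9, 2], [16, 9, 2, 1], [16, 9, 3], [16, 10, 1, 1],
  [16, 10, 2], [16, 11, 1], [17, 8, 1, 1], [17, 8, 1, 1, 1], [17, 8, 2], [17, 8, 2, 1],
  [17, 8, 3], [17, 9, 1], [17, 9, 1, 1], [17, 9, 2], [17, 10], [17, 10, 1], [17, 11],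
  [18, 8, 1], [18, 8, 1, 1], [18, 8, 2], [18, 9], [18, 9, 1], [18, 10], [19, 8, 1],
  [19, 9], [24, 1, 1, 1], [24, 1, 1, 1, 1], [24, 2, 1], [24, 2, 1, 1], [24, 2, 2], [24, 3],
  [24, 3, 1], [25, 1, 1], [25, 1, 1, 1], [25, 2], [25, 2, 1], [25, 3], [26, 1], [26, 1, 1],
  [26, 2]]

theorem gvA3_no (V : Type v) [DecidableEq V] (ι : Type u) [Fintype ι] :
    ∀ l ∈ gvA3, NoX2 V ι 2 2 12 12 zpp 5 5 ([18, 18, 9], l) := by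
  unfold gvA3
  simp only [List.forall_mem_cons, List.not_mem_nil, false_imp_iff, implies_true, and_true]
  exact ⟨L18_18_9_u8_8_8_1_1_1.no V ι,
    L18_18_9_u8_8_8_2_1_1.no V ι,
    L18_18_9_u8_8_8_2_2.no V ι,
    L18_18_9_u8_8_8_3_1.no V ι,
    L18_18_9_u9_8_8_1_1.no V ι,
    L18_18_9_u9_8_8_1_1_1.no V ι,
    L18_18_9_u9_8_8_2_1.no V ι,
    L18_18_9_u9_8_8_3.no V ι,
    L18_18_9_u9_9_8_1.no V ι,
    L18_18_9_u9_9_8_1_1.no V ι,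
    L18_18_9_u9_9_8_2.no V ι,
    L18_18_9_u9_9_9.no V ι,
    L18_18_9_u9_9_9_1.no V ι,
    L18_18_9_u10_8_8_1_1.no V ι,
    L18_18_9_u10_8_8_2.no V ι,
    L18_18_9_u10_9_8_1.no V ι,
    L18_18_9_u10_9_9.no V ι,
    L18_18_9_u10_10_8.no V ι,
    L18_18_9_u11_8_8_1.no V ι,
    L18_18_9_u11_9_8.no V ι,
    L18_18_9_u16_8_1_1_1.no V ι,
    L18_18_9_u16_8_1_1_1_1.no V ι,
    L18_18_9_u16_8_2_1.no V ι,
    L18_18_9_u16_8_2_1_1.no V ι,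
    L18_18_9_u16_8_2_2.no V ι,
    L18_18_9_u16_8_3_1.no V ι,
    L18_18_9_u16_9_1_1.no V ι,
    L18_18_9_u16_9_1_1_1.no V ι,
    L18_18_9_u16_9_2.no V ι,
    L18_18_9_u16_9_2_1.no V ι,
    L18_18_9_u16_9_3.no V ι,
    L18_18_9_u16_10_1_1.no V ι,
    L18_18_9_u16_10_2.no V ι,
    L18_18_9_u16_11_1.no V ι,
    L18_18_9_u17_8_1_1.no V ι,
    L18_18_9_u17_8_1_1_1.no V ι,
    L18_18_9_u17_8_2.no V ι,
    L18_18_9_u17_8_2_1.no V ι,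
    L18_18_9_u17_8_3.no V ι,
    L18_18_9_u17_9_1.no V ι,
    L18_18_9_u17_9_1_1.no V ι,
    L18_18_9_u17_9_2.no V ι,
    L18_18_9_u17_10.no V ι,
    L18_18_9_u17_10_1.no V ι,
    L18_18_9_u17_11.no V ι,
    L18_18_9_u18_8_1.no V ι,
    L18_18_9_u18_8_1_1.no V ι,
    L18_18_9_u18_8_2.no V ι,
    L18_18_9_u18_9.no V ι,
    L18_18_9_u18_9_1.no V ι,
    L18_18_9_u18_10.no V ι,
    L18_18_9_u19_8_1.no V ι,
    L18_18_9_u19_9.no V ι,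
    L18_18_9_u24_1_1_1.no V ι,
    L18_18_9_u24_1_1_1_1.no V ι,
    L18_18_9_u24_2_1.no V ι,
    L18_18_9_u24_2_1_1.no V ι,
    L18_18_9_u24_2_2.no V ι,
    L18_18_9_u24_3.no V ι,
    L18_18_9_u24_3_1.no V ι,
    L18_18_9_u25_1_1.no V ι,
    L18_18_9_u25_1_1_1.no V ι,
    L18_18_9_u25_2.no V ι,
    L18_18_9_u25_2_1.no V ι,
    L18_18_9_u25_3.no V ι,
    L18_18_9_u26_1.no V ι,
    L18_18_9_u26_1_1.no V ι,
    L18_18_9_u26_2.no V ι⟩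

/-- the vectors with the first part `[24, 11, 10]`. -/
def gvA4 : List (List ℕ) := [[8, 8, 8, 1, 1, 1, 1], [8, 8, 8, 2, 1, 1], [8, 8, 8, 2, 2], [8, 8, 8, 3, 1],
  [9, 8, 8, 1, 1, 1], [9, 8, 8, 2, 1], [9, 8, 8, 3], [9, 9, 8, 1, 1], [9, 9, 8, 2],
  [9, 9, 9, 1], [10, 8, 8, 1, 1], [10, 8, 8, 2], [10, 9, 8, 1], [10, 9, 9], [10, 10, 8],
  [11, 8, 8, 1], [11, 9, 8], [16, 8, 1, 1, 1, 1], [16, 8, 2, 1, 1], [16, 8, 2, 2],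
  [16, 8, 3, 1], [16, 9, 1, 1, 1], [16, 9, 2, 1], [16, 9, 3], [16, 10, 1, 1], [16, 10, 2],
  [16, 11, 1], [17, 8, 1, 1, 1], [17, 8, 2, 1], [17, 8, 3], [17, 9, 1, 1], [17, 9, 2],
  [17, 10, 1], [17, 11], [18, 8, 1, 1], [18, 8, 2], [18, 9, 1], [18, 10], [19, 8, 1],
  [19, 9], [24, 1, 1, 1, 1], [24, 2, 1, 1], [24, 2, 2], [24, 3, 1], [25, 1, 1, 1],
  [25, 2, 1], [25, 3], [26, 1, 1], [26, 2]]

theorem gvA4_no (V : Type v) [DecidableEq V] (ι : Type u) [Fintype ι] :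
    ∀ l ∈ gvA4, NoX2 V ι 2 2 12 12 zpp 5 5 ([24, 11, 10], l) := by
  unfold gvA4
  simp only [List.forall_mem_cons, List.not_mem_nil, false_imp_iff, implies_true, and_true]
  exact ⟨L24_11_10_u8_8_8_1_1_1_1.no V ι,
    L24_11_10_u8_8_8_2_1_1.no V ι,
    L24_11_10_u8_8_8_2_2.no V ι,
    L24_11_10_u8_8_8_3_1.no V ι,
    L24_11_10_u9_8_8_1_1_1.no V ι,
    L24_11_10_u9_8_8_2_1.no V ι,
    L24_11_10_u9_8_8_3.no V ι,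
    L24_11_10_u9_9_8_1_1.no V ι,
    L24_11_10_u9_9_8_2.no V ι,
    L24_11_10_u9_9_9_1.no V ι,
    L24_11_10_u10_8_8_1_1.no V ι,
    L24_11_10_u10_8_8_2.no V ι,
    L24_11_10_u10_9_8_1.no V ι,
    L24_11_10_u10_9_9.no V ι,
    L24_11_10_u10_10_8.no V ι,
    L24_11_10_u11_8_8_1.no V ι,
    L24_11_10_u11_9_8.no V ι,
    L24_11_10_u16_8_1_1_1_1.no V ι,
    L24_11_10_u16_8_2_1_1.no V ι,
    L24_11_10_u16_8_2_2.no V ι,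
    L24_11_10_u16_8_3_1.no V ι,
    L24_11_10_u16_9_1_1_1.no V ι,
    L24_11_10_u16_9_2_1.no V ι,
    L24_11_10_u16_9_3.no V ι,
    L24_11_10_u16_10_1_1.no V ι,
    L24_11_10_u16_10_2.no V ι,
    L24_11_10_u16_11_1.no V ι,
    L24_11_10_u17_8_1_1_1.no V ι,
    L24_11_10_u17_8_2_1.no V ι,
    L24_11_10_u17_8_3.no V ι,
    L24_11_10_u17_9_1_1.no V ι,
    L24_11_10_u17_9_2.no V ι,
    L24_11_10_u17_10_1.no V ι,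
    L24_11_10_u17_11.no V ι,
    L24_11_10_u18_8_1_1.no V ι,
    L24_11_10_u18_8_2.no V ι,
    L24_11_10_u18_9_1.no V ι,
    L24_11_10_u18_10.no V ι,
    L24_11_10_u19_8_1.no V ι,
    L24_11_10_u19_9.no V ι,
    L24_11_10_u24_1_1_1_1.no V ι,
    L24_11_10_u24_2_1_1.no V ι,
    L24_11_10_u24_2_2.no V ι,
    L24_11_10_u24_3_1.no V ι,
    L24_11_10_u25_1_1_1.no V ι,
    L24_11_10_u25_2_1.no V ι,
    L24_11_10_u25_3.no V ι,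
    L24_11_10_u26_1_1.no V ι,
    L24_11_10_u26_2.no V ι⟩

/-- the vectors with the first part `[24, 18, 3]`. -/
def gvA5 : List (List ℕ) := [[8, 8, 8, 1, 1, 1, 1], [8, 8, 8, 2, 1, 1], [8, 8, 8, 2, 2], [8, 8, 8, 3, 1],
  [9, 8, 8, 1, 1], [9, 8, 8, 1, 1, 1], [9, 8, 8, 2, 1], [9, 8, 8, 3], [9, 9, 8, 1],
  [9, 9, 8, 1, 1], [9, 9, 8, 2], [9, 9, 9], [9, 9, 9, 1], [10, 8, 8, 1, 1], [10, 8, 8, 2],
  [10, 9, 8, 1], [10, 9, 9], [10, 10, 8], [11, 8, 8, 1], [11, 9, 8], [16, 8, 1, 1, 1],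
  [16, 8, 1, 1, 1, 1], [16, 8, 2, 1], [16, 8, 2, 1, 1], [16, 8, 2, 2], [16, 8, 3, 1],
  [16, 9, 1, 1], [16, 9, 1, 1, 1], [16, 9, 2], [16, 9, 2, 1], [16, 9, 3], [16, 10, 1, 1],
  [16, 10, 2], [16, 11, 1], [17, 8, 1, 1], [17, 8, 1, 1, 1], [17, 8, 2], [17, 8, 2, 1],
  [17, 8, 3], [17, 9, 1], [17, 9, 1, 1], [17, 9, 2], [17, 10], [17, 10, 1], [17, 11],
  [18, 8, 1], [18, 8, 1, 1], [18, 8, 2], [18, 9], [18, 9, 1], [18, 10], [19, 8, 1],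
  [19, 9], [24, 1, 1, 1], [24, 1, 1, 1, 1], [24, 2, 1], [24, 2, 1, 1], [24, 2, 2], [24, 3],
  [24, 3, 1], [25, 1, 1], [25, 1, 1, 1], [25, 2], [25, 2, 1], [25, 3], [26, 1], [26, 1, 1],
  [26, 2]]

theorem gvA5_no (V : Type v) [DecidableEq V] (ι : Type u) [Fintype ι] :
    ∀ l ∈ gvA5, NoX2 V ι 2 2 12 12 zpp 5 5 ([24, 18, 3], l) := by
  unfold gvA5
  simp only [List.forall_mem_cons, List.not_mem_nil, false_imp_iff, implies_true, and_true]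
  exact ⟨L24_18_3_u8_8_8_1_1_1_1.no V ι,
    L24_18_3_u8_8_8_2_1_1.no V ι,
    L24_18_3_u8_8_8_2_2.no V ι,
    L24_18_3_u8_8_8_3_1.no V ι,
    L24_18_3_u9_8_8_1_1.no V ι,
    L24_18_3_u9_8_8_1_1_1.no V ι,
    L24_18_3_u9_8_8_2_1.no V ι,
    L24_18_3_u9_8_8_3.no V ι,
    L24_18_3_u9_9_8_1.no V ι,
    L24_18_3_u9_9_8_1_1.no V ι,
    L24_18_3_u9_9_8_2.no V ι,
    L24_18_3_u9_9_9.no V ι,
    L24_18_3_u9_9_9_1.no V ι,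
    L24_18_3_u10_8_8_1_1.no V ι,
    L24_18_3_u10_8_8_2.no V ι,
    L24_18_3_u10_9_8_1.no V ι,
    L24_18_3_u10_9_9.no V ι,
    L24_18_3_u10_10_8.no V ι,
    L24_18_3_u11_8_8_1.no V ι,
    L24_18_3_u11_9_8.no V ι,
    L24_18_3_u16_8_1_1_1.no V ι,
    L24_18_3_u16_8_1_1_1_1.no V ι,
    L24_18_3_u16_8_2_1.no V ι,
    L24_18_3_u16_8_2_1_1.no V ι,
    L24_18_3_u16_8_2_2.no V ι,
    L24_18_3_u16_8_3_1.no V ι,
    L24_18_3_u16_9_1_1.no V ι,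
    L24_18_3_u16_9_1_1_1.no V ι,
    L24_18_3_u16_9_2.no V ι,
    L24_18_3_u16_9_2_1.no V ι,
    L24_18_3_u16_9_3.no V ι,
    L24_18_3_u16_10_1_1.no V ι,
    L24_18_3_u16_10_2.no V ι,
    L24_18_3_u16_11_1.no V ι,
    L24_18_3_u17_8_1_1.no V ι,
    L24_18_3_u17_8_1_1_1.no V ι,
    L24_18_3_u17_8_2.no V ι,
    L24_18_3_u17_8_2_1.no V ι,
    L24_18_3_u17_8_3.no V ι,
    L24_18_3_u17_9_1.no V ι,
    L24_18_3_u17_9_1_1.no V ι,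
    L24_18_3_u17_9_2.no V ι,
    L24_18_3_u17_10.no V ι,
    L24_18_3_u17_10_1.no V ι,
    L24_18_3_u17_11.no V ι,
    L24_18_3_u18_8_1.no V ι,
    L24_18_3_u18_8_1_1.no V ι,
    L24_18_3_u18_8_2.no V ι,
    L24_18_3_u18_9.no V ι,
    L24_18_3_u18_9_1.no V ι,
    L24_18_3_u18_10.no V ι,
    L24_18_3_u19_8_1.no V ι,
    L24_18_3_u19_9.no V ι,
    L24_18_3_u24_1_1_1.no V ι,
    L24_18_3_u24_1_1_1_1.no V ι,
    L24_18_3_u24_2_1.no V ι,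
    L24_18_3_u24_2_1_1.no V ι,
    L24_18_3_u24_2_2.no V ι,
    L24_18_3_u24_3.no V ι,
    L24_18_3_u24_3_1.no V ι,
    L24_18_3_u25_1_1.no V ι,
    L24_18_3_u25_1_1_1.no V ι,
    L24_18_3_u25_2.no V ι,
    L24_18_3_u25_2_1.no V ι,
    L24_18_3_u25_3.no V ι,
    L24_18_3_u26_1.no V ι,
    L24_18_3_u26_1_1.no V ι,
    L24_18_3_u26_2.no V ι⟩

/-- the vectors with the first part `[25, 10, 10]`. -/
def gvA6 : List (List ℕ) := [[8, 8, 8, 1, 1, 1], [8, 8, 8, 1, 1, 1, 1], [8, 8, 8, 2, 1], [8, 8, 8, 2, 1, 1],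
  [8, 8, 8, 2, 2], [8, 8, 8, 3], [8, 8, 8, 3, 1], [9, 8, 8, 1, 1], [9, 8, 8, 1, 1, 1],
  [9, 8, 8, 2], [9, 8, 8, 2, 1], [9, 8, 8, 3], [9, 9, 8, 1], [9, 9, 8, 1, 1], [9, 9, 8, 2],
  [9, 9, 9], [9, 9, 9, 1], [10, 8, 8, 1], [10, 8, 8, 1, 1], [10, 8, 8, 2], [10, 9, 8],
  [10, 9, 8, 1], [10, 9, 9], [10, 10, 8], [11, 8, 8], [11, 8, 8, 1], [11, 9, 8],
  [16, 8, 1, 1, 1], [16, 8, 1, 1, 1, 1], [16, 8, 2, 1], [16, 8, 2, 1, 1], [16, 8, 2, 2],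
  [16, 8, 3], [16, 8, 3, 1], [16, 9, 1, 1], [16, 9, 1, 1, 1], [16, 9, 2], [16, 9, 2, 1],
  [16, 9, 3], [16, 10, 1], [16, 10, 1, 1], [16, 10, 2], [16, 11], [16, 11, 1],
  [17, 8, 1, 1], [17, 8, 1, 1, 1], [17, 8, 2], [17, 8, 2, 1], [17, 8, 3], [17, 9, 1],
  [17, 9, 1, 1], [17, 9, 2], [17, 10], [17, 10, 1], [17, 11], [18, 8, 1], [18, 8, 1, 1],
  [18, 8, 2], [18, 9], [18, 9, 1], [18, 10], [19, 8], [19, 8, 1], [19, 9], [24, 1, 1, 1],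
  [24, 1, 1, 1, 1], [24, 2, 1], [24, 2, 1, 1], [24, 2, 2], [24, 3], [24, 3, 1], [25, 1, 1],
  [25, 1, 1, 1], [25, 2], [25, 2, 1], [25, 3], [26, 1], [26, 1, 1], [26, 2]]

theorem gvA6_no (V : Type v) [DecidableEq V] (ι : Type u) [Fintype ι] :
    ∀ l ∈ gvA6, NoX2 V ι 2 2 12 12 zpp 5 5 ([25, 10, 10], l) := by
  unfold gvA6
  simp only [List.forall_mem_cons, List.not_mem_nil, false_imp_iff, implies_true, and_true]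
  exact ⟨L25_10_10_u8_8_8_1_1_1.no V ι,
    L25_10_10_u8_8_8_1_1_1_1.no V ι,
    L25_10_10_u8_8_8_2_1.no V ι,
    L25_10_10_u8_8_8_2_1_1.no V ι,
    L25_10_10_u8_8_8_2_2.no V ι,
    L25_10_10_u8_8_8_3.no V ι,
    L25_10_10_u8_8_8_3_1.no V ι,
    L25_10_10_u9_8_8_1_1.no V ι,
    L25_10_10_u9_8_8_1_1_1.no V ι,
    L25_10_10_u9_8_8_2.no V ι,
    L25_10_10_u9_8_8_2_1.no V ι,
    L25_10_10_u9_8_8_3.no V ι,
    L25_10_10_u9_9_8_1.no V ι,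
    L25_10_10_u9_9_8_1_1.no V ι,
    L25_10_10_u9_9_8_2.no V ι,
    L25_10_10_u9_9_9.no V ι,
    L25_10_10_u9_9_9_1.no V ι,
    L25_10_10_u10_8_8_1.no V ι,
    L25_10_10_u10_8_8_1_1.no V ι,
    L25_10_10_u10_8_8_2.no V ι,
    L25_10_10_u10_9_8.no V ι,
    L25_10_10_u10_9_8_1.no V ι,
    L25_10_10_u10_9_9.no V ι,
    L25_10_10_u10_10_8.no V ι,
    L25_10_10_u11_8_8.no V ι,
    L25_10_10_u11_8_8_1.no V ι,
    L25_10_10_u11_9_8.no V ι,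
    L25_10_10_u16_8_1_1_1.no V ι,
    L25_10_10_u16_8_1_1_1_1.no V ι,
    L25_10_10_u16_8_2_1.no V ι,
    L25_10_10_u16_8_2_1_1.no V ι,
    L25_10_10_u16_8_2_2.no V ι,
    L25_10_10_u16_8_3.no V ι,
    L25_10_10_u16_8_3_1.no V ι,
    L25_10_10_u16_9_1_1.no V ι,
    L25_10_10_u16_9_1_1_1.no V ι,
    L25_10_10_u16_9_2.no V ι,
    L25_10_10_u16_9_2_1.no V ι,
    L25_10_10_u16_9_3.no V ι,
    L25_10_10_u16_10_1.no V ι,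
    L25_10_10_u16_10_1_1.no V ι,
    L25_10_10_u16_10_2.no V ι,
    L25_10_10_u16_11.no V ι,
    L25_10_10_u16_11_1.no V ι,
    L25_10_10_u17_8_1_1.no V ι,
    L25_10_10_u17_8_1_1_1.no V ι,
    L25_10_10_u17_8_2.no V ι,
    L25_10_10_u17_8_2_1.no V ι,
    L25_10_10_u17_8_3.no V ι,
    L25_10_10_u17_9_1.no V ι,
    L25_10_10_u17_9_1_1.no V ι,
    L25_10_10_u17_9_2.no V ι,
    L25_10_10_u17_10.no V ι,
    L25_10_10_u17_10_1.no V ι,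
    L25_10_10_u17_11.no V ι,
    L25_10_10_u18_8_1.no V ι,
    L25_10_10_u18_8_1_1.no V ι,
    L25_10_10_u18_8_2.no V ι,
    L25_10_10_u18_9.no V ι,
    L25_10_10_u18_9_1.no V ι,
    L25_10_10_u18_10.no V ι,
    L25_10_10_u19_8.no V ι,
    L25_10_10_u19_8_1.no V ι,
    L25_10_10_u19_9.no V ι,
    L25_10_10_u24_1_1_1.no V ι,
    L25_10_10_u24_1_1_1_1.no V ι,
    L25_10_10_u24_2_1.no V ι,
    L25_10_10_u24_2_1_1.no V ι,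
    L25_10_10_u24_2_2.no V ι,
    L25_10_10_u24_3.no V ι,
    L25_10_10_u24_3_1.no V ι,
    L25_10_10_u25_1_1.no V ι,
    L25_10_10_u25_1_1_1.no V ι,
    L25_10_10_u25_2.no V ι,
    L25_10_10_u25_2_1.no V ι,
    L25_10_10_u25_3.no V ι,
    L25_10_10_u26_1.no V ι,
    L25_10_10_u26_1_1.no V ι,
    L25_10_10_u26_2.no V ι⟩

/-- the vectors with the first part `[25, 11, 9]`. -/
def gvA7 : List (List ℕ) := [[8, 8, 8, 2, 1, 1], [8, 8, 8, 2, 2], [8, 8, 8, 3, 1], [9, 8, 8, 1, 1],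
  [9, 8, 8, 1, 1, 1], [9, 8, 8, 2, 1], [9, 8, 8, 3], [9, 9, 8, 1], [9, 9, 8, 1, 1],
  [9, 9, 8, 2], [9, 9, 9], [9, 9, 9, 1], [10, 8, 8, 1, 1], [10, 8, 8, 2], [10, 9, 8, 1],
  [10, 9, 9], [10, 10, 8], [11, 8, 8, 1], [11, 9, 8], [16, 8, 1, 1, 1],
  [16, 8, 1, 1, 1, 1], [16, 8, 2, 1], [16, 8, 2, 1, 1], [16, 8, 2, 2], [16, 8, 3, 1],
  [16, 9, 1, 1], [16, 9, 1, 1, 1], [16, 9, 2], [16, 9, 2, 1], [16, 9, 3], [16, 10, 1, 1],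
  [16, 10, 2], [16, 11, 1], [17, 8, 1, 1], [17, 8, 1, 1, 1], [17, 8, 2], [17, 8, 2, 1],
  [17, 8, 3], [17, 9, 1], [17, 9, 1, 1], [17, 9, 2], [17, 10], [17, 10, 1], [17, 11],
  [18, 8, 1], [18, 8, 1, 1], [18, 8, 2], [18, 9], [18, 9, 1], [18, 10], [19, 8, 1],
  [19, 9], [24, 1, 1, 1], [24, 1, 1, 1, 1], [24, 2, 1], [24, 2, 1, 1], [24, 2, 2], [24, 3],
  [24, 3, 1], [25, 1, 1], [25, 1, 1, 1], [25, 2], [25, 2, 1], [25, 3], [26, 1], [26, 1, 1],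
  [26, 2]]

theorem gvA7_no (V : Type v) [DecidableEq V] (ι : Type u) [Fintype ι] :
    ∀ l ∈ gvA7, NoX2 V ι 2 2 12 12 zpp 5 5 ([25, 11, 9], l) := by
  unfold gvA7
  simp only [List.forall_mem_cons, List.not_mem_nil, false_imp_iff, implies_true, and_true]
  exact ⟨L25_11_9_u8_8_8_2_1_1.no V ι,
    L25_11_9_u8_8_8_2_2.no V ι,
    L25_11_9_u8_8_8_3_1.no V ι,
    L25_11_9_u9_8_8_1_1.no V ι,
    L25_11_9_u9_8_8_1_1_1.no V ι,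
    L25_11_9_u9_8_8_2_1.no V ι,
    L25_11_9_u9_8_8_3.no V ι,
    L25_11_9_u9_9_8_1.no V ι,
    L25_11_9_u9_9_8_1_1.no V ι,
    L25_11_9_u9_9_8_2.no V ι,
    L25_11_9_u9_9_9.no V ι,
    L25_11_9_u9_9_9_1.no V ι,
    L25_11_9_u10_8_8_1_1.no V ι,
    L25_11_9_u10_8_8_2.no V ι,
    L25_11_9_u10_9_8_1.no V ι,
    L25_11_9_u10_9_9.no V ι,
    L25_11_9_u10_10_8.no V ι,
    L25_11_9_u11_8_8_1.no V ι,
    L25_11_9_u11_9_8.no V ι,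
    L25_11_9_u16_8_1_1_1.no V ι,
    L25_11_9_u16_8_1_1_1_1.no V ι,
    L25_11_9_u16_8_2_1.no V ι,
    L25_11_9_u16_8_2_1_1.no V ι,
    L25_11_9_u16_8_2_2.no V ι,
    L25_11_9_u16_8_3_1.no V ι,
    L25_11_9_u16_9_1_1.no V ι,
    L25_11_9_u16_9_1_1_1.no V ι,
    L25_11_9_u16_9_2.no V ι,
    L25_11_9_u16_9_2_1.no V ι,
    L25_11_9_u16_9_3.no V ι,
    L25_11_9_u16_10_1_1.no V ι,
    L25_11_9_u16_10_2.no V ι,
    L25_11_9_u16_11_1.no V ι,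
    L25_11_9_u17_8_1_1.no V ι,
    L25_11_9_u17_8_1_1_1.no V ι,
    L25_11_9_u17_8_2.no V ι,
    L25_11_9_u17_8_2_1.no V ι,
    L25_11_9_u17_8_3.no V ι,
    L25_11_9_u17_9_1.no V ι,
    L25_11_9_u17_9_1_1.no V ι,
    L25_11_9_u17_9_2.no V ι,
    L25_11_9_u17_10.no V ι,
    L25_11_9_u17_10_1.no V ι,
    L25_11_9_u17_11.no V ι,
    L25_11_9_u18_8_1.no V ι,
    L25_11_9_u18_8_1_1.no V ι,
    L25_11_9_u18_8_2.no V ι,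
    L25_11_9_u18_9.no V ι,
    L25_11_9_u18_9_1.no V ι,
    L25_11_9_u18_10.no V ι,
    L25_11_9_u19_8_1.no V ι,
    L25_11_9_u19_9.no V ι,
    L25_11_9_u24_1_1_1.no V ι,
    L25_11_9_u24_1_1_1_1.no V ι,
    L25_11_9_u24_2_1.no V ι,
    L25_11_9_u24_2_1_1.no V ι,
    L25_11_9_u24_2_2.no V ι,
    L25_11_9_u24_3.no V ι,
    L25_11_9_u24_3_1.no V ι,
    L25_11_9_u25_1_1.no V ι,
    L25_11_9_u25_1_1_1.no V ι,
    L25_11_9_u25_2.no V ι,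
    L25_11_9_u25_2_1.no V ι,
    L25_11_9_u25_3.no V ι,
    L25_11_9_u26_1.no V ι,
    L25_11_9_u26_1_1.no V ι,
    L25_11_9_u26_2.no V ι⟩

/-- the vectors with the first part `[25, 17, 3]`. -/
def gvA8 : List (List ℕ) := [[8, 8, 8, 2, 1], [8, 8, 8, 3], [8, 8, 8, 3, 1], [9, 8, 8, 1, 1], [9, 8, 8, 1, 1, 1],
  [9, 8, 8, 2], [9, 8, 8, 2, 1], [9, 8, 8, 3], [9, 9, 8, 1], [9, 9, 8, 1, 1], [9, 9, 8, 2],
  [9, 9, 9], [9, 9, 9, 1], [10, 8, 8, 1], [10, 8, 8, 1, 1], [10, 8, 8, 2], [10, 9, 8],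
  [10, 9, 8, 1], [10, 9, 9], [10, 10, 8], [11, 8, 8], [11, 8, 8, 1], [11, 9, 8],
  [16, 8, 1, 1, 1], [16, 8, 1, 1, 1, 1], [16, 8, 2, 1], [16, 8, 2, 1, 1], [16, 8, 2, 2],
  [16, 8, 3], [16, 8, 3, 1], [16, 9, 1, 1], [16, 9, 1, 1, 1], [16, 9, 2], [16, 9, 2, 1],
  [16, 9, 3], [16, 10, 1], [16, 10, 1, 1], [16, 10, 2], [16, 11], [16, 11, 1],
  [17, 8, 1, 1], [17, 8, 1, 1, 1], [17, 8, 2], [17, 8, 2, 1], [17, 8, 3], [17, 9, 1],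
  [17, 9, 1, 1], [17, 9, 2], [17, 10], [17, 10, 1], [17, 11], [18, 8, 1], [18, 8, 1, 1],
  [18, 8, 2], [18, 9], [18, 9, 1], [18, 10], [19, 8], [19, 8, 1], [19, 9], [24, 1, 1, 1],
  [24, 1, 1, 1, 1], [24, 2, 1], [24, 2, 1, 1], [24, 2, 2], [24, 3], [24, 3, 1], [25, 1, 1],
  [25, 1, 1, 1], [25, 2], [25, 2, 1], [25, 3], [26, 1], [26, 1, 1], [26, 2]]

theorem gvA8_no (V : Type v) [DecidableEq V] (ι : Type u) [Fintype ι] :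
    ∀ l ∈ gvA8, NoX2 V ι 2 2 12 12 zpp 5 5 ([25, 17, 3], l) := by
  unfold gvA8
  simp only [List.forall_mem_cons, List.not_mem_nil, false_imp_iff, implies_true, and_true]
  exact ⟨L25_17_3_u8_8_8_2_1.no V ι,
    L25_17_3_u8_8_8_3.no V ι,
    L25_17_3_u8_8_8_3_1.no V ι,
    L25_17_3_u9_8_8_1_1.no V ι,
    L25_17_3_u9_8_8_1_1_1.no V ι,
    L25_17_3_u9_8_8_2.no V ι,
    L25_17_3_u9_8_8_2_1.no V ι,
    L25_17_3_u9_8_8_3.no V ι,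
    L25_17_3_u9_9_8_1.no V ι,
    L25_17_3_u9_9_8_1_1.no V ι,
    L25_17_3_u9_9_8_2.no V ι,
    L25_17_3_u9_9_9.no V ι,
    L25_17_3_u9_9_9_1.no V ι,
    L25_17_3_u10_8_8_1.no V ι,
    L25_17_3_u10_8_8_1_1.no V ι,
    L25_17_3_u10_8_8_2.no V ι,
    L25_17_3_u10_9_8.no V ι,
    L25_17_3_u10_9_8_1.no V ι,
    L25_17_3_u10_9_9.no V ι,
    L25_17_3_u10_10_8.no V ι,
    L25_17_3_u11_8_8.no V ι,
    L25_17_3_u11_8_8_1.no V ι,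
    L25_17_3_u11_9_8.no V ι,
    L25_17_3_u16_8_1_1_1.no V ι,
    L25_17_3_u16_8_1_1_1_1.no V ι,
    L25_17_3_u16_8_2_1.no V ι,
    L25_17_3_u16_8_2_1_1.no V ι,
    L25_17_3_u16_8_2_2.no V ι,
    L25_17_3_u16_8_3.no V ι,
    L25_17_3_u16_8_3_1.no V ι,
    L25_17_3_u16_9_1_1.no V ι,
    L25_17_3_u16_9_1_1_1.no V ι,
    L25_17_3_u16_9_2.no V ι,
    L25_17_3_u16_9_2_1.no V ι,
    L25_17_3_u16_9_3.no V ι,
    L25_17_3_u16_10_1.no V ι,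
    L25_17_3_u16_10_1_1.no V ι,
    L25_17_3_u16_10_2.no V ι,
    L25_17_3_u16_11.no V ι,
    L25_17_3_u16_11_1.no V ι,
    L25_17_3_u17_8_1_1.no V ι,
    L25_17_3_u17_8_1_1_1.no V ι,
    L25_17_3_u17_8_2.no V ι,
    L25_17_3_u17_8_2_1.no V ι,
    L25_17_3_u17_8_3.no V ι,
    L25_17_3_u17_9_1.no V ι,
    L25_17_3_u17_9_1_1.no V ι,
    L25_17_3_u17_9_2.no V ι,
    L25_17_3_u17_10.no V ι,
    L25_17_3_u17_10_1.no V ι,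
    L25_17_3_u17_11.no V ι,
    L25_17_3_u18_8_1.no V ι,
    L25_17_3_u18_8_1_1.no V ι,
    L25_17_3_u18_8_2.no V ι,
    L25_17_3_u18_9.no V ι,
    L25_17_3_u18_9_1.no V ι,
    L25_17_3_u18_10.no V ι,
    L25_17_3_u19_8.no V ι,
    L25_17_3_u19_8_1.no V ι,
    L25_17_3_u19_9.no V ι,
    L25_17_3_u24_1_1_1.no V ι,
    L25_17_3_u24_1_1_1_1.no V ι,
    L25_17_3_u24_2_1.no V ι,
    L25_17_3_u24_2_1_1.no V ι,
    L25_17_3_u24_2_2.no V ι,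
    L25_17_3_u24_3.no V ι,
    L25_17_3_u24_3_1.no V ι,
    L25_17_3_u25_1_1.no V ι,
    L25_17_3_u25_1_1_1.no V ι,
    L25_17_3_u25_2.no V ι,
    L25_17_3_u25_2_1.no V ι,
    L25_17_3_u25_3.no V ι,
    L25_17_3_u26_1.no V ι,
    L25_17_3_u26_1_1.no V ι,
    L25_17_3_u26_2.no V ι⟩

/-- the vectors with the first part `[25, 18, 2]`. -/
def gvA9 : List (List ℕ) := [[8, 8, 8, 2, 1], [8, 8, 8, 2, 1, 1], [8, 8, 8, 2, 2], [8, 8, 8, 3], [8, 8, 8, 3, 1],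
  [9, 8, 8, 1, 1], [9, 8, 8, 1, 1, 1], [9, 8, 8, 2], [9, 8, 8, 2, 1], [9, 8, 8, 3],
  [9, 9, 8, 1], [9, 9, 8, 1, 1], [9, 9, 8, 2], [9, 9, 9], [9, 9, 9, 1], [10, 8, 8, 1],
  [10, 8, 8, 1, 1], [10, 8, 8, 2], [10, 9, 8], [10, 9, 8, 1], [10, 9, 9], [10, 10, 8],
  [11, 8, 8], [11, 8, 8, 1], [11, 9, 8], [16, 8, 1, 1, 1], [16, 8, 1, 1, 1, 1],
  [16, 8, 2, 1], [16, 8, 2, 1, 1], [16, 8, 2, 2], [16, 8, 3], [16, 8, 3, 1], [16, 9, 1, 1],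
  [16, 9, 1, 1, 1], [16, 9, 2], [16, 9, 2, 1], [16, 9, 3], [16, 10, 1], [16, 10, 1, 1],
  [16, 10, 2], [16, 11], [16, 11, 1], [17, 8, 1, 1], [17, 8, 1, 1, 1], [17, 8, 2],
  [17, 8, 2, 1], [17, 8, 3], [17, 9, 1], [17, 9, 1, 1], [17, 9, 2], [17, 10], [17, 10, 1],
  [17, 11], [18, 8, 1], [18, 8, 1, 1], [18, 8, 2], [18, 9], [18, 9, 1], [18, 10], [19, 8],
  [19, 8, 1], [19, 9], [24, 1, 1, 1], [24, 1, 1, 1, 1], [24, 2, 1], [24, 2, 1, 1],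
  [24, 2, 2], [24, 3], [24, 3, 1], [25, 1, 1], [25, 1, 1, 1], [25, 2], [25, 2, 1], [25, 3],
  [26, 1], [26, 1, 1], [26, 2]]

theorem gvA9_no (V : Type v) [DecidableEq V] (ι : Type u) [Fintype ι] :
    ∀ l ∈ gvA9, NoX2 V ι 2 2 12 12 zpp 5 5 ([25, 18, 2], l) := by
  unfold gvA9
  simp only [List.forall_mem_cons, List.not_mem_nil, false_imp_iff, implies_true, and_true]
  exact ⟨L25_18_2_u8_8_8_2_1.no V ι,
    L25_18_2_u8_8_8_2_1_1.no V ι,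
    L25_18_2_u8_8_8_2_2.no V ι,
    L25_18_2_u8_8_8_3.no V ι,
    L25_18_2_u8_8_8_3_1.no V ι,
    L25_18_2_u9_8_8_1_1.no V ι,
    L25_18_2_u9_8_8_1_1_1.no V ι,
    L25_18_2_u9_8_8_2.no V ι,
    L25_18_2_u9_8_8_2_1.no V ι,
    L25_18_2_u9_8_8_3.no V ι,
    L25_18_2_u9_9_8_1.no V ι,
    L25_18_2_u9_9_8_1_1.no V ι,
    L25_18_2_u9_9_8_2.no V ι,
    L25_18_2_u9_9_9.no V ι,
    L25_18_2_u9_9_9_1.no V ι,
    L25_18_2_u10_8_8_1.no V ι,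
    L25_18_2_u10_8_8_1_1.no V ι,
    L25_18_2_u10_8_8_2.no V ι,
    L25_18_2_u10_9_8.no V ι,
    L25_18_2_u10_9_8_1.no V ι,
    L25_18_2_u10_9_9.no V ι,
    L25_18_2_u10_10_8.no V ι,
    L25_18_2_u11_8_8.no V ι,
    L25_18_2_u11_8_8_1.no V ι,
    L25_18_2_u11_9_8.no V ι,
    L25_18_2_u16_8_1_1_1.no V ι,
    L25_18_2_u16_8_1_1_1_1.no V ι,
    L25_18_2_u16_8_2_1.no V ι,
    L25_18_2_u16_8_2_1_1.no V ι,
    L25_18_2_u16_8_2_2.no V ι,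
    L25_18_2_u16_8_3.no V ι,
    L25_18_2_u16_8_3_1.no V ι,
    L25_18_2_u16_9_1_1.no V ι,
    L25_18_2_u16_9_1_1_1.no V ι,
    L25_18_2_u16_9_2.no V ι,
    L25_18_2_u16_9_2_1.no V ι,
    L25_18_2_u16_9_3.no V ι,
    L25_18_2_u16_10_1.no V ι,
    L25_18_2_u16_10_1_1.no V ι,
    L25_18_2_u16_10_2.no V ι,
    L25_18_2_u16_11.no V ι,
    L25_18_2_u16_11_1.no V ι,
    L25_18_2_u17_8_1_1.no V ι,
    L25_18_2_u17_8_1_1_1.no V ι,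
    L25_18_2_u17_8_2.no V ι,
    L25_18_2_u17_8_2_1.no V ι,
    L25_18_2_u17_8_3.no V ι,
    L25_18_2_u17_9_1.no V ι,
    L25_18_2_u17_9_1_1.no V ι,
    L25_18_2_u17_9_2.no V ι,
    L25_18_2_u17_10.no V ι,
    L25_18_2_u17_10_1.no V ι,
    L25_18_2_u17_11.no V ι,
    L25_18_2_u18_8_1.no V ι,
    L25_18_2_u18_8_1_1.no V ι,
    L25_18_2_u18_8_2.no V ι,
    L25_18_2_u18_9.no V ι,
    L25_18_2_u18_9_1.no V ι,
    L25_18_2_u18_10.no V ι,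
    L25_18_2_u19_8.no V ι,
    L25_18_2_u19_8_1.no V ι,
    L25_18_2_u19_9.no V ι,
    L25_18_2_u24_1_1_1.no V ι,
    L25_18_2_u24_1_1_1_1.no V ι,
    L25_18_2_u24_2_1.no V ι,
    L25_18_2_u24_2_1_1.no V ι,
    L25_18_2_u24_2_2.no V ι,
    L25_18_2_u24_3.no V ι,
    L25_18_2_u24_3_1.no V ι,
    L25_18_2_u25_1_1.no V ι,
    L25_18_2_u25_1_1_1.no V ι,
    L25_18_2_u25_2.no V ι,
    L25_18_2_u25_2_1.no V ι,
    L25_18_2_u25_3.no V ι,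
    L25_18_2_u26_1.no V ι,
    L25_18_2_u26_1_1.no V ι,
    L25_18_2_u26_2.no V ι⟩

/-- all the vectors. -/
def gvAl : List (List ℕ × List (List ℕ)) := [([17, 17, 11], gvA0),
  ([18, 16, 11], gvA1),
  ([18, 17, 10], gvA2),
  ([18, 18, 9], gvA3),
  ([24, 11, 10], gvA4),
  ([24, 18, 3], gvA5),
  ([25, 10, 10], gvA6),
  ([25, 11, 9], gvA7),
  ([25, 17, 3], gvA8),
  ([25, 18, 2], gvA9)]

theorem gvAl_no (V : Type v) [DecidableEq V] (ι : Type u) [Fintype ι] :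
    ∀ q ∈ gvAl, ∀ l ∈ q.2, NoX2 V ι 2 2 12 12 zpp 5 5 (q.1, l) := by
  unfold gvAl
  simp only [List.forall_mem_cons, List.not_mem_nil, false_imp_iff, implies_true, and_true]
  exact ⟨gvA0_no V ι, gvA1_no V ι, gvA2_no V ι, gvA3_no V ι, gvA4_no V ι, gvA5_no V ι, gvA6_no V ι, gvA7_no V ι, gvA8_no V ι, gvA9_no V ι⟩

/-- the test of a vector. -/
def tstA (a w : List ℕ) : Bool := lkG gvAl a w

theorem tstA_no (V : Type v) [DecidableEq V] (ι : Type u) [Fintype ι] (a w : List ℕ)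
    (h : tstA a w = true) : NoX2 V ι 2 2 12 12 zpp 5 5 (a, w) :=
  lkG_spec (P := NoX2 V ι 2 2 12 12 zpp 5 5) (gvAl_no V ι) h

end Pool.Agent.Hyp6
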