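import Pool.Agent.Hyp6.Gdt6
import Pool.Agent.Hyp6.InsX.F00
import Pool.Agent.Hyp6.InsX.F01
import Pool.Agent.Hyp6.InsX.F02
import Pool.Agent.Hyp6.InsX.F03
import Pool.Agent.Hyp6.InsX.F04
import Pool.Agent.Hyp6.InsX.F05
import Pool.Agent.Hyp6.InsX.F06
import Pool.Agent.Hyp6.InsX.F07
import Pool.Agent.Hyp6.InsX.F08
import Pool.Agent.Hyp6.InsX.F09
import Pool.Agent.Hyp6.InsX.F10
import Pool.Agent.Hyp6.InsX.F11
import Pool.Agent.Hyp6.InsX.F12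
import Pool.Agent.Hyp6.InsX.F13
import Pool.Agent.Hyp6.InsX.F14
import Pool.Agent.Hyp6.InsX.F15
import Pool.Agent.Hyp6.InsX.F16
import Pool.Agent.Hyp6.InsX.F17
import Pool.Agent.Hyp6.InsX.F18
import Pool.Agent.Hyp6.InsX.F19

/-!
# HYP6 GDT8: the list of the excluded key vectors for two points and two triples
-/

set_option autoImplicit false

namespace Pool.Agent.Hyp6

open Finset Pool.Agent.Hyp5 Gdx Rup

universe u v

/-- the vectors with the first part `[17, 17, 11]`. -/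
def gvB0 : List (List ℕ) := [[17, 16, 16, 2, 2, 2, 2], [17, 16, 16, 3, 2, 2, 2], [17, 16, 16, 3, 3, 2, 2],
  [17, 17, 16, 2, 2, 2, 2], [17, 17, 16, 3, 2, 2, 2], [17, 17, 17, 2, 2, 2, 2]]

theorem gvB0_no (V : Type v) [DecidableEq V] (ι : Type u) [Fintype ι] :
    ∀ l ∈ gvB0, NoX3 V ι 2 2 12 12 zpp 5 5 ([17, 17, 11], l) := by
  unfold gvB0
  simp only [List.forall_mem_cons, List.not_mem_nil, false_imp_iff, implies_true, and_true]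
  exact ⟨K17_17_11_k17_16_16_2_2_2_2.no V ι,
    K17_17_11_k17_16_16_3_2_2_2.no V ι,
    K17_17_11_k17_16_16_3_3_2_2.no V ι,
    K17_17_11_k17_17_16_2_2_2_2.no V ι,
    K17_17_11_k17_17_16_3_2_2_2.no V ι,
    K17_17_11_k17_17_17_2_2_2_2.no V ι⟩

/-- the vectors with the first part `[18, 16, 11]`. -/
def gvB1 : List (List ℕ) := [[17, 16, 16, 2, 2, 2, 2], [17, 16, 16, 3, 2, 2, 2], [17, 16, 16, 3, 3, 2, 2],
  [17, 17, 16, 2, 2, 2, 2], [17, 17, 16, 3, 2, 2, 2], [17, 17, 17, 2, 2, 2, 2]]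

theorem gvB1_no (V : Type v) [DecidableEq V] (ι : Type u) [Fintype ι] :
    ∀ l ∈ gvB1, NoX3 V ι 2 2 12 12 zpp 5 5 ([18, 16, 11], l) := by
  unfold gvB1
  simp only [List.forall_mem_cons, List.not_mem_nil, false_imp_iff, implies_true, and_true]
  exact ⟨K18_16_11_k17_16_16_2_2_2_2.no V ι,
    K18_16_11_k17_16_16_3_2_2_2.no V ι,
    K18_16_11_k17_16_16_3_3_2_2.no V ι,
    K18_16_11_k17_17_16_2_2_2_2.no V ι,
    K18_16_11_k17_17_16_3_2_2_2.no V ι,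
    K18_16_11_k17_17_17_2_2_2_2.no V ι⟩

/-- the vectors with the first part `[18, 17, 10]`. -/
def gvB2 : List (List ℕ) := [[17, 16, 16, 2, 2, 2, 2], [17, 16, 16, 3, 2, 2, 2], [17, 16, 16, 3, 3, 2, 2],
  [17, 17, 16, 2, 2, 2, 2], [17, 17, 16, 3, 2, 2, 2], [17, 17, 17, 2, 2, 2, 2]]

theorem gvB2_no (V : Type v) [DecidableEq V] (ι : Type u) [Fintype ι] :
    ∀ l ∈ gvB2, NoX3 V ι 2 2 12 12 zpp 5 5 ([18, 17, 10], l) := by
  unfold gvB2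
  simp only [List.forall_mem_cons, List.not_mem_nil, false_imp_iff, implies_true, and_true]
  exact ⟨K18_17_10_k17_16_16_2_2_2_2.no V ι,
    K18_17_10_k17_16_16_3_2_2_2.no V ι,
    K18_17_10_k17_16_16_3_3_2_2.no V ι,
    K18_17_10_k17_17_16_2_2_2_2.no V ι,
    K18_17_10_k17_17_16_3_2_2_2.no V ι,
    K18_17_10_k17_17_17_2_2_2_2.no V ι⟩

/-- the vectors with the first part `[18, 18, 9]`. -/
def gvB3 : List (List ℕ) := [[17, 16, 16, 2, 2, 2, 2], [17, 16, 16, 3, 2, 2, 2], [17, 16, 16, 3, 3, 2, 2],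
  [17, 17, 16, 2, 2, 2, 2], [17, 17, 16, 3, 2, 2, 2], [17, 17, 17, 2, 2, 2, 2]]

theorem gvB3_no (V : Type v) [DecidableEq V] (ι : Type u) [Fintype ι] :
    ∀ l ∈ gvB3, NoX3 V ι 2 2 12 12 zpp 5 5 ([18, 18, 9], l) := by
  unfold gvB3
  simp only [List.forall_mem_cons, List.not_mem_nil, false_imp_iff, implies_true, and_true]
  exact ⟨K18_18_9_k17_16_16_2_2_2_2.no V ι,
    K18_18_9_k17_16_16_3_2_2_2.no V ι,
    K18_18_9_k17_16_16_3_3_2_2.no V ι,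
    K18_18_9_k17_17_16_2_2_2_2.no V ι,
    K18_18_9_k17_17_16_3_2_2_2.no V ι,
    K18_18_9_k17_17_17_2_2_2_2.no V ι⟩

/-- the vectors with the first part `[24, 18, 3]`. -/
def gvB4 : List (List ℕ) := [[17, 16, 16, 2, 2, 2], [17, 16, 16, 3, 2, 2], [17, 16, 16, 3, 3, 2],
  [17, 17, 16, 2, 2, 2], [17, 17, 16, 3, 2, 2], [17, 17, 17, 2, 2, 2]]

theorem gvB4_no (V : Type v) [DecidableEq V] (ι : Type u) [Fintype ι] :
    ∀ l ∈ gvB4, NoX3 V ι 2 2 12 12 zpp 5 5 ([24, 18, 3], l) := by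
  unfold gvB4
  simp only [List.forall_mem_cons, List.not_mem_nil, false_imp_iff, implies_true, and_true]
  exact ⟨K24_18_3_k17_16_16_2_2_2.no V ι,
    K24_18_3_k17_16_16_3_2_2.no V ι,
    K24_18_3_k17_16_16_3_3_2.no V ι,
    K24_18_3_k17_17_16_2_2_2.no V ι,
    K24_18_3_k17_17_16_3_2_2.no V ι,
    K24_18_3_k17_17_17_2_2_2.no V ι⟩

/-- the vectors with the first part `[25, 11, 9]`. -/
def gvB5 : List (List ℕ) := [[17, 16, 16, 2, 2, 2], [17, 16, 16, 2, 2, 2, 2], [17, 16, 16, 3, 2, 2],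
  [17, 16, 16, 3, 2, 2, 2], [17, 16, 16, 3, 3, 2], [17, 16, 16, 3, 3, 2, 2],
  [17, 17, 16, 2, 2, 2], [17, 17, 16, 2, 2, 2, 2], [17, 17, 16, 3, 2, 2],
  [17, 17, 16, 3, 2, 2, 2], [17, 17, 17, 2, 2, 2], [17, 17, 17, 2, 2, 2, 2]]

theorem gvB5_no (V : Type v) [DecidableEq V] (ι : Type u) [Fintype ι] :
    ∀ l ∈ gvB5, NoX3 V ι 2 2 12 12 zpp 5 5 ([25, 11, 9], l) := by
  unfold gvB5
  simp only [List.forall_mem_cons, List.not_mem_nil, false_imp_iff, implies_true, and_true]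
  exact ⟨K25_11_9_k17_16_16_2_2_2.no V ι,
    K25_11_9_k17_16_16_2_2_2_2.no V ι,
    K25_11_9_k17_16_16_3_2_2.no V ι,
    K25_11_9_k17_16_16_3_2_2_2.no V ι,
    K25_11_9_k17_16_16_3_3_2.no V ι,
    K25_11_9_k17_16_16_3_3_2_2.no V ι,
    K25_11_9_k17_17_16_2_2_2.no V ι,
    K25_11_9_k17_17_16_2_2_2_2.no V ι,
    K25_11_9_k17_17_16_3_2_2.no V ι,
    K25_11_9_k17_17_16_3_2_2_2.no V ι,
    K25_11_9_k17_17_17_2_2_2.no V ι,
    K25_11_9_k17_17_17_2_2_2_2.no V ι⟩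

/-- the vectors with the first part `[25, 17, 3]`. -/
def gvB6 : List (List ℕ) := [[17, 16, 16, 2, 2, 2], [17, 16, 16, 2, 2, 2, 2], [17, 16, 16, 3, 2, 2],
  [17, 16, 16, 3, 2, 2, 2], [17, 16, 16, 3, 3, 2], [17, 16, 16, 3, 3, 2, 2],
  [17, 16, 16, 4, 2, 2], [17, 16, 16, 4, 3, 2], [17, 16, 16, 4, 3, 3], [17, 16, 16, 4, 4],
  [17, 16, 16, 5, 2, 2], [17, 16, 16, 5, 3, 2], [17, 16, 16, 5, 4], [17, 16, 16, 5, 5],
  [17, 17, 16, 2, 2, 2], [17, 17, 16, 2, 2, 2, 2], [17, 17, 16, 3, 2, 2],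
  [17, 17, 16, 3, 2, 2, 2], [17, 17, 16, 4, 2, 2], [17, 17, 16, 4, 3, 2],
  [17, 17, 16, 4, 4], [17, 17, 16, 5, 2, 2], [17, 17, 16, 5, 4], [17, 17, 17, 2, 2, 2],
  [17, 17, 17, 2, 2, 2, 2], [17, 17, 17, 4, 2, 2], [17, 17, 17, 4, 4]]

theorem gvB6_no (V : Type v) [DecidableEq V] (ι : Type u) [Fintype ι] :
    ∀ l ∈ gvB6, NoX3 V ι 2 2 12 12 zpp 5 5 ([25, 17, 3], l) := by
  unfold gvB6
  simp only [List.forall_mem_cons, List.not_mem_nil, false_imp_iff, implies_true, and_true]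
  exact ⟨K25_17_3_k17_16_16_2_2_2.no V ι,
    K25_17_3_k17_16_16_2_2_2_2.no V ι,
    K25_17_3_k17_16_16_3_2_2.no V ι,
    K25_17_3_k17_16_16_3_2_2_2.no V ι,
    K25_17_3_k17_16_16_3_3_2.no V ι,
    K25_17_3_k17_16_16_3_3_2_2.no V ι,
    K25_17_3_k17_16_16_4_2_2.no V ι,
    K25_17_3_k17_16_16_4_3_2.no V ι,
    K25_17_3_k17_16_16_4_3_3.no V ι,
    K25_17_3_k17_16_16_4_4.no V ι,
    K25_17_3_k17_16_16_5_2_2.no V ι,
    K25_17_3_k17_16_16_5_3_2.no V ι,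
    K25_17_3_k17_16_16_5_4.no V ι,
    K25_17_3_k17_16_16_5_5.no V ι,
    K25_17_3_k17_17_16_2_2_2.no V ι,
    K25_17_3_k17_17_16_2_2_2_2.no V ι,
    K25_17_3_k17_17_16_3_2_2.no V ι,
    K25_17_3_k17_17_16_3_2_2_2.no V ι,
    K25_17_3_k17_17_16_4_2_2.no V ι,
    K25_17_3_k17_17_16_4_3_2.no V ι,
    K25_17_3_k17_17_16_4_4.no V ι,
    K25_17_3_k17_17_16_5_2_2.no V ι,
    K25_17_3_k17_17_16_5_4.no V ι,
    K25_17_3_k17_17_17_2_2_2.no V ι,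
    K25_17_3_k17_17_17_2_2_2_2.no V ι,
    K25_17_3_k17_17_17_4_2_2.no V ι,
    K25_17_3_k17_17_17_4_4.no V ι⟩

/-- the vectors with the first part `[25, 18, 2]`. -/
def gvB7 : List (List ℕ) := [[17, 16, 16, 2, 2, 2], [17, 16, 16, 2, 2, 2, 2], [17, 16, 16, 3, 2, 2],
  [17, 16, 16, 3, 2, 2, 2], [17, 16, 16, 3, 3, 2], [17, 16, 16, 3, 3, 2, 2],
  [17, 17, 16, 2, 2, 2], [17, 17, 16, 2, 2, 2, 2], [17, 17, 16, 3, 2, 2],
  [17, 17, 16, 3, 2, 2, 2], [17, 17, 17, 2, 2, 2], [17, 17, 17, 2, 2, 2, 2]]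

theorem gvB7_no (V : Type v) [DecidableEq V] (ι : Type u) [Fintype ι] :
    ∀ l ∈ gvB7, NoX3 V ι 2 2 12 12 zpp 5 5 ([25, 18, 2], l) := by
  unfold gvB7
  simp only [List.forall_mem_cons, List.not_mem_nil, false_imp_iff, implies_true, and_true]
  exact ⟨K25_18_2_k17_16_16_2_2_2.no V ι,
    K25_18_2_k17_16_16_2_2_2_2.no V ι,
    K25_18_2_k17_16_16_3_2_2.no V ι,
    K25_18_2_k17_16_16_3_2_2_2.no V ι,
    K25_18_2_k17_16_16_3_3_2.no V ι,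
    K25_18_2_k17_16_16_3_3_2_2.no V ι,
    K25_18_2_k17_17_16_2_2_2.no V ι,
    K25_18_2_k17_17_16_2_2_2_2.no V ι,
    K25_18_2_k17_17_16_3_2_2.no V ι,
    K25_18_2_k17_17_16_3_2_2_2.no V ι,
    K25_18_2_k17_17_17_2_2_2.no V ι,
    K25_18_2_k17_17_17_2_2_2_2.no V ι⟩

/-- all the vectors. -/
def gvBl : List (List ℕ × List (List ℕ)) := [([17, 17, 11], gvB0),
  ([18, 16, 11], gvB1),
  ([18, 17, 10], gvB2),
  ([18, 18, 9], gvB3),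
  ([24, 18, 3], gvB4),
  ([25, 11, 9], gvB5),
  ([25, 17, 3], gvB6),
  ([25, 18, 2], gvB7)]

theorem gvBl_no (V : Type v) [DecidableEq V] (ι : Type u) [Fintype ι] :
    ∀ q ∈ gvBl, ∀ l ∈ q.2, NoX3 V ι 2 2 12 12 zpp 5 5 (q.1, l) := by
  unfold gvBl
  simp only [List.forall_mem_cons, List.not_mem_nil, false_imp_iff, implies_true, and_true]
  exact ⟨gvB0_no V ι, gvB1_no V ι, gvB2_no V ι, gvB3_no V ι, gvB4_no V ι, gvB5_no V ι, gvB6_no V ι, gvB7_no V ι⟩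

/-- the test of a vector. -/
def tstB (a w : List ℕ) : Bool := lkG gvBl a w

theorem tstB_no (V : Type v) [DecidableEq V] (ι : Type u) [Fintype ι] (a w : List ℕ)
    (h : tstB a w = true) : NoX3 V ι 2 2 12 12 zpp 5 5 (a, w) :=
  lkG_spec (P := NoX3 V ι 2 2 12 12 zpp 5 5) (gvBl_no V ι) h

end Pool.Agent.Hyp6
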