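import Pool.Agent.Hyp6.Gdt7
import Pool.Agent.Hyp6.Gdt8

/-!
# HYP6 GDT9: two points with five hits each

`Frm.no_A`: two points which are free together, without hits of `U`, both with five hits of a triple and
with at most seven other hits in all (at least three each): impossible.
-/

set_option autoImplicit false

namespace Pool.Agent.Hyp6

open Finset Pool.Agent.Hyp5 Gdx Rup

universe u v

/-- all the candidate vectors are excluded. -/
theorem chkA : chkpp3 5 5 [(3, 3), (3, 4), (4, 3)] tstA tstB = true := by decide +kernel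

section

variable {V : Type v} [DecidableEq V] {ι : Type u} [Fintype ι] {B : ι → Finset V}

/-- **two points with five hits each of a triple**. -/
theorem Frm.no_A {Q U : Finset V} {T : Finset ι} {F : Finset (Finset V)} {x y : V}
    (h : Frm B Q T U F) (hv : ViolR B Q) (hx : {x} ∈ F) (hy : {y} ∈ F) (hxy : x ≠ y)
    (ex : ee B Q {x} = 0) (ey : ee B Q {y} = 0) {j : ι} (hj : j ∈ T)
    (hdf : Sp.dfc U (slf B F) {{x}, {y}} ≤ 0) (hUx : hit B U {x} = 0) (hUy : hit B U {y} = 0)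
    (hL : hit B (B j ∩ Q) {x} = 5) (hM : hit B (B j ∩ Q) {y} = 5)
    (hwx : 3 ≤ hit B ((Q \ {x}) \ B j) {x}) (hwy : 3 ≤ hit B ((Q \ {y}) \ B j) {y})
    (hw : hit B ((Q \ {x}) \ B j) {x} + hit B ((Q \ {y}) \ B j) {y} ≤ 7) : False := by
  refine h.no_pp3 hv hx hy hxy ex ey hj hdf hUx hUy hL hM (ws := [(3, 3), (3, 4), (4, 3)]) ?_
    (tstA_no V ι) (tstB_no V ι) chkA
  generalize hit B ((Q \ {x}) \ B j) {x} = a at *
  generalize hit B ((Q \ {y}) \ B j) {y} = b at *
  have h1 : (a = 3 ∧ b = 3) ∨ (a = 3 ∧ b = 4) ∨ (a = 4 ∧ b = 3) := by omega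
  rcases h1 with ⟨rfl, rfl⟩ | ⟨rfl, rfl⟩ | ⟨rfl, rfl⟩ <;> simp

end

end Pool.Agent.Hyp6
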