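import Pool.Agent.Hyp6.Gdw4

/-!
# HYP6 GDV: labels for several triples

`LblN`: the points of `k` disjoint full blocks off `Z` (labels `3 i + a`) and all other contact points of
`Z`, with their numbers of hits. `exists_labelsN`, `LblN.gx`: the context of the tables.
-/

set_option autoImplicit false

namespace Pool.Agent.Hyp6

open Finset Pool.Agent.Hyp5 Gdx Rup

universe u v

/-- entries of a flattened list of lists of length three. -/
theorem getD_flat3 (w : List ℕ) : ∀ (hs : List (List ℕ)), (∀ l ∈ hs, l.length = 3) →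
    ∀ i < hs.length, ∀ a < 3, (hs.flatten ++ w).getD (3 * i + a) 0 = (hs.getD i []).getD a 0 := by
  intro hs
  induction hs with
  | nil => intro _ i hi; simp at hi
  | cons l t ih =>
    intro hl i hi a ha
    have h3 := hl l List.mem_cons_self
    rw [List.flatten_cons, List.append_assoc]
    rcases i with _ | i
    · rw [List.getD_append _ _ _ _ (by omega), List.getD_cons_zero]
      congr 1
      omega
    · rw [List.getD_append_right _ _ _ _ (by omega), List.getD_cons_succ, h3,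
        show 3 * (i + 1) + a - 3 = 3 * i + a by omega]
      refine ih (fun l' hl' => hl l' (List.mem_cons_of_mem _ hl')) i ?_ a ha
      rw [List.length_cons] at hi
      omega

theorem length_flat3 : ∀ (hs : List (List ℕ)), (∀ l ∈ hs, l.length = 3) →
    hs.flatten.length = 3 * hs.length := by
  intro hs
  induction hs with
  | nil => intro _; rfl
  | cons l t ih =>
    intro hl
    rw [List.flatten_cons, List.length_append, List.length_cons, hl l List.mem_cons_self,
      ih (fun l' hl' => hl l' (List.mem_cons_of_mem _ hl'))]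
    omega

section

variable {V : Type v} [DecidableEq V] {ι : Type u} [Fintype ι] {B : ι → Finset V}

/-- the labels of the contact points: the three points of every full block `tb i`, `i < k`, then the
other contact points of `Z`; the numbers of hits are `hs` and `hW`. -/
structure LblN (B : ι → Finset V) (Q Z : Finset V) (k : ℕ) (tb : ℕ → ι) (hs : List (List ℕ))
    (hW : List ℕ) (ct : ℕ → V) : Prop where
  len : hs.length = k
  len3 : ∀ l ∈ hs, l.length = 3
  desT : ∀ l ∈ hs, l.Pairwise (fun a b => b ≤ a)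
  desW : hW.Pairwise (fun a b => b ≤ a)
  posW : ∀ x ∈ hW, 1 ≤ x
  memQ : ∀ a < 3 * k + hW.length, ct a ∈ Q ∧ ct a ∉ Z
  inj : ∀ a < 3 * k + hW.length, ∀ a' < 3 * k + hW.length, ct a = ct a' → a = a'
  trip : ∀ i < k, ∀ v, v ∈ B (tb i) ∩ Q ↔ ∃ a < 3, ct (3 * i + a) = v
  all : ∀ v ∈ Q, v ∉ Z → (Ez B Z v).Nonempty → ∃ a < 3 * k + hW.length, ct a = v
  hits : ∀ a < 3 * k + hW.length, (Ez B Z (ct a)).card = (hs.flatten ++ hW).getD a 0
  sumT : ∀ i < k, (hs.getD i []).sum = hit B (B (tb i) ∩ Q) Z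
  sumW : hW.sum = hit B ((Q \ Z) \ (Finset.range k).biUnion (fun i => B (tb i))) Z

theorem exists_labelsN {Q Z : Finset V} {k : ℕ} (hk : 0 < k) {tb : ℕ → ι}
    (hj : ∀ i < k, (B (tb i) ∩ Q).card = 3) (hjZ : ∀ i < k, ¬ (B (tb i) ∩ Z).Nonempty)
    (hd : ∀ i < k, ∀ i' < k, i ≠ i' → Disjoint (B (tb i) ∩ Q) (B (tb i') ∩ Q)) :
    ∃ hs hW ct, LblN B Q Z k tb hs hW ct := by
  classical
  have hTne : (B (tb 0) ∩ Q).Nonempty := card_pos.1 (by rw [hj 0 hk]; norm_num)
  obtain ⟨v0, _⟩ := hTne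
  have : Inhabited V := ⟨v0⟩
  set f : V → ℕ := fun v => (Ez B Z v).card with hf
  set U := (Finset.range k).biUnion (fun i => B (tb i)) with hU
  set W := ((Q \ Z) \ U).filter (fun v => (Ez B Z v).Nonempty) with hW
  have hex : ∀ i, ∃ (l : List ℕ) (e : ℕ → V), i < k → (l.length = 3 ∧
      l.Pairwise (fun a b => b ≤ a) ∧ l.sum = hit B (B (tb i) ∩ Q) Z ∧
      (∀ a < 3, e a ∈ B (tb i) ∩ Q) ∧ (∀ a < 3, ∀ a' < 3, e a = e a' → a = a') ∧
      (∀ a < 3, f (e a) = l.getD a 0) ∧ ∀ v ∈ B (tb i) ∩ Q, ∃ a < 3, e a = v) := by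
    intro i
    by_cases hi : i < k
    swap
    · exact ⟨[], fun _ => v0, fun h => absurd h hi⟩
    obtain ⟨l, p, d⟩ := exists_desc ((B (tb i) ∩ Q).toList.map f)
    have len : l.length = 3 := by
      rw [← p.length_eq, List.length_map, Finset.length_toList, hj i hi]
    obtain ⟨e, a1, a2, a3, a4⟩ := exists_enum (B (tb i) ∩ Q) f p 0
    rw [len] at a1 a2 a3 a4
    refine ⟨l, e, fun _ => ⟨len, d, ?_, a1, a2, a3, a4⟩⟩
    rw [← p.sum_eq, Finset.sum_map_toList, hit_eq_Ez]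
  choose l e hle using hex
  obtain ⟨lW, pW, dW⟩ := exists_desc (W.toList.map f)
  obtain ⟨e2, b1, b2, b3, b4⟩ := exists_enum W f pW 0
  have hlen3 : ∀ l' ∈ (List.range k).map l, l'.length = 3 := by
    intro l' hl'
    obtain ⟨i, hi, rfl⟩ := List.mem_map.1 hl'
    exact (hle i (List.mem_range.1 hi)).1
  have hgetD : ∀ i < k, ((List.range k).map l).getD i [] = l i := by
    intro i hi
    rw [List.getD_eq_getElem _ _ (by rw [List.length_map, List.length_range]; exact hi),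
      List.getElem_map, List.getElem_range]
  have hWm : ∀ v ∈ W, v ∈ Q ∧ v ∉ Z ∧ v ∉ U := by
    intro v hv
    obtain ⟨h1, h2⟩ := mem_sdiff.1 (mem_filter.1 hv).1
    obtain ⟨h3, h4⟩ := mem_sdiff.1 h1
    exact ⟨h3, h4, h2⟩
  have hTm : ∀ i < k, ∀ v ∈ B (tb i) ∩ Q, v ∈ Q ∧ v ∉ Z ∧ v ∈ U := by
    intro i hi v hv
    obtain ⟨h1, h2⟩ := mem_inter.1 hv
    exact ⟨h2, fun h3 => hjZ i hi ⟨v, mem_inter.2 ⟨h1, h3⟩⟩,
      mem_biUnion.2 ⟨i, Finset.mem_range.2 hi, h1⟩⟩
  have hdm : ∀ n < 3 * k, n / 3 < k ∧ n % 3 < 3 ∧ 3 * (n / 3) + n % 3 = n := by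
    intro n hn
    omega
  refine ⟨(List.range k).map l, lW, fun n => if n < 3 * k then e (n / 3) (n % 3) else
    e2 (n - 3 * k), ⟨by rw [List.length_map, List.length_range], hlen3, ?_, dW, ?_, ?_, ?_, ?_,
    ?_, ?_, ?_, ?_⟩⟩
  · intro l' hl'
    obtain ⟨i, hi, rfl⟩ := List.mem_map.1 hl'
    exact (hle i (List.mem_range.1 hi)).2.1
  · intro x hx
    obtain ⟨v, hv, rfl⟩ := List.mem_map.1 (pW.mem_iff.2 hx)
    exact card_pos.2 (mem_filter.1 (Finset.mem_toList.1 hv)).2
  · intro n hn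
    split_ifs with h1
    · obtain ⟨g1, g2, _⟩ := hdm n h1
      have h2 := hTm _ g1 _ ((hle _ g1).2.2.2.1 _ g2)
      exact ⟨h2.1, h2.2.1⟩
    · have h2 := hWm _ (b1 (n - 3 * k) (by omega))
      exact ⟨h2.1, h2.2.1⟩
  · intro n hn n' hn' he
    split_ifs at he with h1 h2 h2
    · obtain ⟨g1, g2, g3⟩ := hdm n h1
      obtain ⟨g1', g2', g3'⟩ := hdm n' h2
      have m1 := (hle _ g1).2.2.2.1 _ g2
      have m2 := (hle _ g1').2.2.2.1 _ g2'
      by_cases h3 : n / 3 = n' / 3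
      · rw [h3] at he
        have := (hle _ g1').2.2.2.2.1 (n % 3) g2 (n' % 3) g2' he
        omega
      · exfalso
        rw [he] at m1
        exact disjoint_left.1 (hd _ g1 _ g1' h3) m1 m2
    · exfalso
      obtain ⟨g1, g2, _⟩ := hdm n h1
      have h3 := (hTm _ g1 _ ((hle _ g1).2.2.2.1 _ g2)).2.2
      rw [he] at h3
      exact (hWm _ (b1 (n' - 3 * k) (by omega))).2.2 h3
    · exfalso
      obtain ⟨g1, g2, _⟩ := hdm n' h2
      have h3 := (hTm _ g1 _ ((hle _ g1).2.2.2.1 _ g2)).2.2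
      rw [← he] at h3
      exact (hWm _ (b1 (n - 3 * k) (by omega))).2.2 h3
    · have := b2 (n - 3 * k) (by omega) (n' - 3 * k) (by omega) he
      omega
  · intro i hi v
    have hn : ∀ a < 3, 3 * i + a < 3 * k ∧ (3 * i + a) / 3 = i ∧ (3 * i + a) % 3 = a := by
      intro a ha
      omega
    constructor
    · intro hv
      obtain ⟨a, ha, he⟩ := (hle i hi).2.2.2.2.2.2 v hv
      obtain ⟨g1, g2, g3⟩ := hn a ha
      exact ⟨a, ha, by rw [if_pos g1, g2, g3]; exact he⟩
    · rintro ⟨a, ha, he⟩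
      obtain ⟨g1, g2, g3⟩ := hn a ha
      rw [if_pos g1, g2, g3] at he
      rw [← he]
      exact (hle i hi).2.2.2.1 a ha
  · intro v hvQ hvZ hvE
    by_cases hvj : v ∈ U
    · obtain ⟨i, hi, hvi⟩ := mem_biUnion.1 hvj
      have hi' := Finset.mem_range.1 hi
      obtain ⟨a, ha, he⟩ := (hle i hi').2.2.2.2.2.2 v (mem_inter.2 ⟨hvi, hvQ⟩)
      refine ⟨3 * i + a, by omega, ?_⟩
      rw [if_pos (by omega), show (3 * i + a) / 3 = i by omega,
        show (3 * i + a) % 3 = a by omega]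
      exact he
    · obtain ⟨a, ha, he⟩ := b4 v (mem_filter.2 ⟨mem_sdiff.2 ⟨mem_sdiff.2 ⟨hvQ, hvZ⟩, hvj⟩, hvE⟩)
      refine ⟨3 * k + a, by omega, ?_⟩
      rw [if_neg (by omega), show 3 * k + a - 3 * k = a by omega]
      exact he
  · intro n hn
    have hfl := length_flat3 _ hlen3
    rw [List.length_map, List.length_range] at hfl
    split_ifs with h1
    · obtain ⟨g1, g2, g3⟩ := hdm n h1
      have h2 := getD_flat3 lW _ hlen3 (n / 3)
        (by rw [List.length_map, List.length_range]; exact g1) (n % 3) g2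
      rw [g3, hgetD _ g1] at h2
      rw [h2]
      exact (hle _ g1).2.2.2.2.2.1 _ g2
    · rw [List.getD_append_right _ _ _ _ (by rw [hfl]; omega), hfl]
      exact b3 (n - 3 * k) (by omega)
  · intro i hi
    rw [hgetD i hi]
    exact (hle i hi).2.2.1
  · rw [← pW.sum_eq, Finset.sum_map_toList, hit_eq_Ez, hW, sum_filter]
    refine sum_congr rfl fun v _ => ?_
    split_ifs with h1
    · rfl
    · rw [not_nonempty_iff_eq_empty] at h1
      rw [h1, card_empty]

/-- the instance with `k` triples. -/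
def PgN (zn r d0 pz : ℕ) (zm : List ℕ) (hs : List (List ℕ)) (hW : List ℕ) : Gp :=
  ⟨zm.length, 3 * hs.length + hW.length, zn, r, d0, pz, zm, hs.flatten ++ hW, hs.flatten ++ hW,
    (List.range hs.length).map (fun i => 7 <<< (3 * i))⟩

theorem bit7 (i n : ℕ) : (7 <<< (3 * i)).testBit n = true ↔ 3 * i ≤ n ∧ n < 3 * i + 3 := by
  rw [Nat.testBit_shiftLeft, Bool.and_eq_true, decide_eq_true_eq]
  constructor
  · rintro ⟨h1, h2⟩
    refine ⟨h1, ?_⟩
    by_contra h3
    have h4 : (7 : ℕ).testBit (n - 3 * i) = false := Nat.testBit_lt_two_pow (lt_of_lt_of_le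
      (by norm_num : (7 : ℕ) < 2 ^ 3) (Nat.pow_le_pow_right (by norm_num) (by omega)))
    rw [h4] at h2
    exact absurd h2 (by simp)
  · rintro ⟨h1, h2⟩
    refine ⟨h1, ?_⟩
    have h3 : n - 3 * i = 0 ∨ n - 3 * i = 1 ∨ n - 3 * i = 2 := by omega
    rcases h3 with h | h | h <;> rw [h] <;> decide

/-- the points of the mask of the triple `i`. -/
theorem LblN.ptm7 {Q Z : Finset V} {k : ℕ} {tb : ℕ → ι} {hs : List (List ℕ)} {hW : List ℕ}
    {ct : ℕ → V} (hl : LblN B Q Z k tb hs hW ct) {i : ℕ} (hi : i < k) :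
    ptm ct (3 * k + hW.length) (7 <<< (3 * i)) = B (tb i) ∩ Q := by
  ext v
  rw [hl.trip i hi, mem_ptm]
  constructor
  · rintro ⟨n, hn, ht, he⟩
    obtain ⟨h1, h2⟩ := (bit7 i n).1 ht
    exact ⟨n - 3 * i, by omega, by rw [show 3 * i + (n - 3 * i) = n by omega]; exact he⟩
  · rintro ⟨a, ha, he⟩
    exact ⟨3 * i + a, by omega, (bit7 i _).2 ⟨by omega, by omega⟩, he⟩

/-- **the context from the labels and the block list**, `k` triples. -/
theorem LblN.gx {Q Z : Finset V} {k : ℕ} {tb : ℕ → ι} {hs : List (List ℕ)} {hW : List ℕ}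
    {ct : ℕ → V} {zn r d0 pz : ℕ} {zm : List ℕ} {bl : ℕ → ι} {zt : ℕ → V}
    (hl : LblN B Q Z k tb hs hW ct) (hb : Blk B Z zn zm bl zt) (hv : ViolR B Q) (hZQ : Z ⊆ Q)
    (hZne : Z.Nonempty) (hj3 : ∀ i < k, (B (tb i) ∩ Q).card = 3)
    (hinj : ∀ i < k, ∀ i' < k, tb i = tb i' → i = i') (hM : 3 * k + hW.length ≤ 32)
    (hr : rho B Z = r) (hd : (d0 : ℤ) ≤ dv B Q Z + 10) (hp : (pz : ℤ) = Pv B Z + 10) :
    Gdx.Gx B Q Z (PgN zn r d0 pz zm hs hW) bl ct zt tb := by
  classical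
  have hMeq : (PgN zn r d0 pz zm hs hW).M = 3 * k + hW.length := by
    show 3 * hs.length + hW.length = _
    rw [hl.len]
  have htm : (PgN zn r d0 pz zm hs hW).tm.length = k := by
    show ((List.range hs.length).map (fun i => 7 <<< (3 * i))).length = k
    rw [List.length_map, List.length_range, hl.len]
  refine ⟨hv, ?_, hZQ, hZne, hb.inj, fun i => ⟨hb.all i, ?_⟩, fun z hz => (hb.mem _).2 ⟨z, hz, rfl⟩,
    hb.injz, fun v hv' => (hb.mem v).1 hv', fun b hb' z hz => (hb.tr b hb' z hz).symm, ?_,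
    fun a ha => ?_, fun a ha => ?_, fun b hb' v hvb hvQ => ?_,
    fun a ha => ?_, fun a ha => ?_, fun i hi => ?_, fun i hi => ?_, fun i hi i' hi' he => ?_,
    hr, hd, hp⟩
  · rw [hMeq]
    exact hM
  · rintro ⟨b, hb', rfl⟩
    exact hb.touch b hb'
  · rw [hMeq]
    exact hl.inj
  · rw [hMeq] at ha
    exact (hl.memQ a ha).1
  · rw [hMeq] at ha
    exact (hl.memQ a ha).2
  · by_cases hvZ : v ∈ Z
    · exact Or.inl hvZ
    · right
      rw [hMeq]
      exact hl.all v hvQ hvZ ⟨bl b, mem_Ez.2 ⟨hvb, hb.touch b hb'⟩⟩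
  · rw [hMeq] at ha
    show (hs.flatten ++ hW).getD a 0 ≤ hts B zm.length bl (ct a)
    rw [hb.hts_eq, hl.hits a ha]
  · rw [hMeq] at ha
    show hts B zm.length bl (ct a) ≤ (hs.flatten ++ hW).getD a 0
    rw [hb.hts_eq, hl.hits a ha]
  · rw [htm] at hi
    have h1 : (PgN zn r d0 pz zm hs hW).t i = 7 <<< (3 * i) := by
      show ((List.range hs.length).map (fun i => 7 <<< (3 * i))).getD i 0 = _
      rw [List.getD_eq_getElem _ _ (by rw [List.length_map, List.length_range, hl.len]; exact hi),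
        List.getElem_map, List.getElem_range]
    rw [h1, hMeq, hl.ptm7 hi]
  · rw [htm] at hi
    exact hj3 i hi
  · rw [htm] at hi hi'
    exact hinj i hi i' hi' he

/-- the total number of hits. -/
theorem LblN.sum_all {Q Z : Finset V} {k : ℕ} {tb : ℕ → ι} {hs : List (List ℕ)} {hW : List ℕ}
    {ct : ℕ → V} (hl : LblN B Q Z k tb hs hW ct) (hjZ : ∀ i < k, ¬ (B (tb i) ∩ Z).Nonempty)
    (hd : ∀ i < k, ∀ i' < k, i ≠ i' → Disjoint (B (tb i) ∩ Q) (B (tb i') ∩ Q)) :
    hs.flatten.sum + hW.sum = hit B (Q \ Z) Z := by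
  classical
  have h1 : hs.flatten.sum = ∑ i ∈ Finset.range k, hit B (B (tb i) ∩ Q) Z := by
    have h2 : ∀ (l : List (List ℕ)), l.flatten.sum = (l.map List.sum).sum := by
      intro l
      induction l with
      | nil => rfl
      | cons a t ih => rw [List.flatten_cons, List.sum_append, ih, List.map_cons, List.sum_cons]
    rw [h2]
    have h3 : hs.map List.sum = (List.range k).map (fun i => hit B (B (tb i) ∩ Q) Z) := by
      refine List.ext_getElem (by simp [hl.len]) fun i hi hi' => ?_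
      rw [List.getElem_map, List.getElem_map, List.getElem_range]
      rw [List.length_map] at hi
      rw [← hl.sumT i (by rw [← hl.len]; exact hi), List.getD_eq_getElem _ _ hi]
    rw [h3]
    have h4 : ∀ n, ((List.range n).map (fun i => hit B (B (tb i) ∩ Q) Z)).sum =
        ∑ i ∈ Finset.range n, hit B (B (tb i) ∩ Q) Z := by
      intro n
      induction n with
      | zero => rfl
      | succ n ih =>
        rw [List.range_succ, List.map_append, List.sum_append, ih, Finset.sum_range_succ]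
        simp
    exact h4 k
  rw [h1, hl.sumW, hit_eq_Ez ((Q \ Z) \ _), hit_eq_Ez (Q \ Z)]
  have h5 : Q \ Z = ((Finset.range k).biUnion (fun i => B (tb i) ∩ Q)) ∪
      ((Q \ Z) \ (Finset.range k).biUnion (fun i => B (tb i))) := by
    ext v
    simp only [mem_union, mem_biUnion, Finset.mem_range, mem_inter, mem_sdiff]
    constructor
    · rintro ⟨h6, h7⟩
      by_cases h8 : ∃ i < k, v ∈ B (tb i)
      · obtain ⟨i, hi, h9⟩ := h8
        exact Or.inl ⟨i, hi, h9, h6⟩
      · exact Or.inr ⟨⟨h6, h7⟩, h8⟩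
    · rintro (⟨i, hi, h6, h7⟩ | ⟨h6, _⟩)
      · exact ⟨h7, fun h8 => hjZ i hi ⟨v, mem_inter.2 ⟨h6, h8⟩⟩⟩
      · exact h6
  conv_rhs => rw [h5]
  rw [sum_union, sum_biUnion]
  · congr 1
    exact sum_congr rfl fun i _ => hit_eq_Ez _ _
  · intro i hi i' hi' hne
    exact hd i (Finset.mem_range.1 (mem_coe.1 hi)) i' (Finset.mem_range.1 (mem_coe.1 hi')) hne
  · rw [disjoint_left]
    intro v h6 h7
    obtain ⟨i, hi, h8⟩ := mem_biUnion.1 h6
    exact (mem_sdiff.1 h7).2 (mem_biUnion.2 ⟨i, hi, (mem_inter.1 h8).1⟩)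

/-- the pairs of a triple as masks. -/
theorem LblN.ptm_pair {Q Z : Finset V} {k : ℕ} {tb : ℕ → ι} {hs : List (List ℕ)} {hW : List ℕ}
    {ct : ℕ → V} (hl : LblN B Q Z k tb hs hW ct) {i a : ℕ} (hi : i < k) (ha : a < 3) :
    ptm ct (3 * k + hW.length) ((7 - 2 ^ a) <<< (3 * i)) = (B (tb i) ∩ Q).erase (ct (3 * i + a)) := by
  classical
  have hbit : ∀ n, ((7 - 2 ^ a) <<< (3 * i)).testBit n = true ↔
      (3 * i ≤ n ∧ n < 3 * i + 3) ∧ n ≠ 3 * i + a := by
    intro n
    rw [Nat.testBit_shiftLeft, Bool.and_eq_true, decide_eq_true_eq]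
    have h1 : 7 - 2 ^ a < 2 ^ 3 := lt_of_le_of_lt (Nat.sub_le _ _) (by norm_num)
    constructor
    · rintro ⟨h2, h3⟩
      have h5 : n < 3 * i + 3 := by
        by_contra h4
        have h6 : (7 - 2 ^ a).testBit (n - 3 * i) = false := Nat.testBit_lt_two_pow
          (lt_of_lt_of_le h1 (Nat.pow_le_pow_right (by norm_num) (by omega)))
        rw [h6] at h3
        exact absurd h3 (by simp)
      refine ⟨⟨h2, h5⟩, ?_⟩
      rintro rfl
      rw [show 3 * i + a - 3 * i = a by omega] at h3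
      have h6 : a = 0 ∨ a = 1 ∨ a = 2 := by omega
      rcases h6 with rfl | rfl | rfl <;> revert h3 <;> decide
    · rintro ⟨⟨h2, h3⟩, h4⟩
      refine ⟨h2, ?_⟩
      have h5 : n - 3 * i = 0 ∨ n - 3 * i = 1 ∨ n - 3 * i = 2 := by omega
      have h6 : a = 0 ∨ a = 1 ∨ a = 2 := by omega
      rcases h5 with h5 | h5 | h5 <;> rw [h5] <;> rcases h6 with rfl | rfl | rfl <;>
        first | decide | (exfalso; omega)
  ext v
  rw [mem_ptm, mem_erase, hl.trip i hi]
  constructor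
  · rintro ⟨n, hn, hb1, rfl⟩
    obtain ⟨⟨h2, h3⟩, h4⟩ := (hbit n).1 hb1
    refine ⟨fun h5 => h4 (hl.inj n hn (3 * i + a) (by omega) h5), n - 3 * i, by omega, ?_⟩
    rw [show 3 * i + (n - 3 * i) = n by omega]
  · rintro ⟨h1, b, hb, rfl⟩
    refine ⟨3 * i + b, by omega, (hbit _).2 ⟨⟨by omega, by omega⟩, fun h2 => h1 (by rw [h2])⟩, rfl⟩

end

end Pool.Agent.Hyp6
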