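import Pool.Agent.Hyp6.Gdv

/-!
# HYP6 GDV2: the given clauses for several triples

`Frm.s1_pair`: the condition `S1` for one point of a triple. `okgN`, `LblN.given`: the given clauses.
`LblN.no`: a checked instance with `k` triples does not occur.
-/

set_option autoImplicit false

namespace Pool.Agent.Hyp6

open Finset Pool.Agent.Hyp5 Gdx Rup

universe u v

variable {V : Type v} [DecidableEq V] {ι : Type u} [Fintype ι] {B : ι → Finset V}

/-- the test of the condition `S1`: a point with `e` hits is deleted, `H` hits off the triple. -/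
def s1h (d0 e H : ℕ) : Bool :=
  decide (max (e + 1) H ≤ 5) &&
    decide (4 * max (e + 1) H < d0 + 5 + (if H + 2 ≤ max (e + 1) H then 2 else 0))

/-- **the condition `S1`**: the two other points of the triple are not absorbed. -/
theorem Frm.s1_pair [DecidableEq ι] {Q U L : Finset V} {T : Finset ι} {F : Finset (Finset V)}
    (h : Frm B Q T U F) (hv : ViolR B Q) (hL : L ∈ F) {j : ι} (hj : j ∈ T) {x : V}
    (hx : x ∈ B j ∩ Q) {e H d0 : ℕ} (he : (Ez B L x).card = e) (hH : hit B ((Q \ L) \ B j) L = H)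
    (hd : (d0 : ℤ) ≤ dv B Q L + 10) (ht : s1h d0 e H = true) :
    ¬ rho B (L ∪ (B j ∩ Q).erase x) ≤ rho B L := by
  classical
  intro habs
  have hLQ := h.FQ hL
  have hd' : Disjoint L (B j ∩ Q) := disjoint_left.2 fun v hvL hvT =>
    (h.T_out hj hvT).2 L hL hvL
  unfold s1h at ht
  simp only [Bool.and_eq_true, decide_eq_true_eq] at ht
  obtain ⟨ht1, ht2⟩ := ht
  have hset : (Q \ (B j ∩ Q)) \ L = (Q \ L) \ B j := by
    ext v
    simp only [mem_sdiff, mem_inter]
    tauto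
  have hH' : hit B ((Q \ (B j ∩ Q)) \ L) L = H := by rw [hset, hH]
  have hab : Abz B L ((B j ∩ Q).erase x) := by
    obtain ⟨T0, h1, h2⟩ := exists_cover (B := B) (W := L ∪ (B j ∩ Q).erase x)
      (hv.cov.mono (union_subset hLQ ((erase_subset _ _).trans inter_subset_right)))
    exact ⟨T0, h1, by rw [h2]; exact habs⟩
  have h3 := hv.s1 (h.full hj) (fun v hv' => mem_sdiff.2 ⟨hLQ hv', fun h4 =>
    disjoint_left.1 hd' hv' h4⟩) (h.ge.sys.fc L hL).1
    (fun v hv' => le_antisymm (rho_erase_fc (h.ge.sys.fc L hL) (h.sv_leaf hL) hv')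
      (rho_le_erase (x := v) (h.cov.mono hLQ))) (h.sv_leaf hL) (mem_inter.1 hx).1
    (mem_inter.1 hx).2 (nu := max (e + 1) H) ht1 (by rw [he]; omega)
    (by rw [hH']; omega) (Or.inl hab)
  rw [hH'] at h3
  split_ifs at h3 ht2 <;> omega

/-- the test of a given clause for `k` triples: the triple `i` is not absorbed, or `S1`. -/
def okgN (d0 : ℕ) (hs : List (List ℕ)) (hW : List ℕ) (c : List ℕ) : Bool :=
  (List.range hs.length).any (fun i => decide (c = [ng (vA (7 <<< (3 * i)))]) ||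
    (List.range 3).any (fun a => decide (c = [ng (vA ((7 - 2 ^ a) <<< (3 * i)))]) &&
      s1h d0 ((hs.getD i []).getD a 0) (hs.flatten.sum + hW.sum - (hs.getD i []).sum)))

/-- the hits outside one of the triples. -/
theorem LblN.out {Q Z : Finset V} {k : ℕ} {tb : ℕ → ι} {hs : List (List ℕ)} {hW : List ℕ}
    {ct : ℕ → V} (hl : LblN B Q Z k tb hs hW ct) (hjZ : ∀ i < k, ¬ (B (tb i) ∩ Z).Nonempty)
    (hd : ∀ i < k, ∀ i' < k, i ≠ i' → Disjoint (B (tb i) ∩ Q) (B (tb i') ∩ Q)) {i : ℕ}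
    (hi : i < k) : hit B ((Q \ Z) \ B (tb i)) Z =
      hs.flatten.sum + hW.sum - (hs.getD i []).sum := by
  classical
  rw [hl.sum_all hjZ hd, hl.sumT i hi]
  have h1 : hit B (Q \ Z) Z = hit B (B (tb i) ∩ Q) Z + hit B ((Q \ Z) \ B (tb i)) Z := by
    rw [hit_eq_Ez, hit_eq_Ez, hit_eq_Ez, ← sum_union]
    · refine sum_congr ?_ fun _ _ => rfl
      ext v
      simp only [mem_union, mem_inter, mem_sdiff]
      constructor
      · rintro ⟨h1, h2⟩
        by_cases h3 : v ∈ B (tb i)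
        · exact Or.inl ⟨h3, h1⟩
        · exact Or.inr ⟨⟨h1, h2⟩, h3⟩
      · rintro (⟨h1, h2⟩ | ⟨⟨h1, h2⟩, _⟩)
        · exact ⟨h2, fun h3 => hjZ i hi ⟨v, mem_inter.2 ⟨h1, h3⟩⟩⟩
        · exact ⟨h1, h2⟩
    · rw [disjoint_left]
      intro v h1 h2
      exact (mem_sdiff.1 h2).2 (mem_inter.1 h1).1
  omega

/-- **the given clauses hold**, `k` triples. -/
theorem LblN.given [DecidableEq ι] {Q U L : Finset V} {T : Finset ι} {F : Finset (Finset V)}
    (h : Frm B Q T U F) (hv : ViolR B Q) (hL : L ∈ F) {k : ℕ} {tb : ℕ → ι}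
    (hT : ∀ i < k, tb i ∈ T) (hinj : ∀ i < k, ∀ i' < k, tb i = tb i' → i = i')
    {hs : List (List ℕ)} {hW : List ℕ} {ct : ℕ → V} (hl : LblN B Q L k tb hs hW ct)
    {zn r d0 pz : ℕ} {zm : List ℕ} {bl : ℕ → ι} (hd : (d0 : ℤ) ≤ dv B Q L + 10)
    {c : List ℕ} (hc : okgN d0 hs hW c = true) :
    Sat (gval B Q L (PgN zn r d0 pz zm hs hW) bl ct) c := by
  classical
  have hM : (PgN zn r d0 pz zm hs hW).M = 3 * k + hW.length := by
    show 3 * hs.length + hW.length = _
    rw [hl.len]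
  have hkey : ∀ S, ¬ rho B (L ∪ ptm ct (3 * k + hW.length) S) ≤ rho B L → c = [ng (vA S)] →
      Sat (gval B Q L (PgN zn r d0 pz zm hs hW) bl ct) c := by
    intro S h1 h2
    subst h2
    refine ⟨_, List.mem_singleton_self _, ?_⟩
    rw [lit_ng, gval_A, hM]
    exact h1
  have hjZ : ∀ i < k, ¬ (B (tb i) ∩ L).Nonempty := by
    rintro i hi ⟨v, hv'⟩
    obtain ⟨h2, h3⟩ := mem_inter.1 hv'
    exact (h.T_out (hT i hi) (mem_inter.2 ⟨h2, h.FQ hL h3⟩)).2 L hL h3
  have hdis : ∀ i < k, ∀ i' < k, i ≠ i' → Disjoint (B (tb i) ∩ Q) (B (tb i') ∩ Q) :=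
    fun i hi i' hi' hne => h.mtp.tpk.pack.disj _ (hT i hi) _ (hT i' hi')
      fun he => hne (hinj i hi i' hi' he)
  unfold okgN at hc
  rw [List.any_eq_true] at hc
  obtain ⟨i, hi, hc⟩ := hc
  rw [List.mem_range, hl.len] at hi
  rw [Bool.or_eq_true, decide_eq_true_eq, List.any_eq_true] at hc
  rcases hc with hc | ⟨a, ha, hc⟩
  · refine hkey _ ?_ hc
    rw [hl.ptm7 hi]
    exact h.nab (hT i hi) hL
  · rw [List.mem_range] at ha
    rw [Bool.and_eq_true, decide_eq_true_eq] at hc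
    refine hkey _ ?_ hc.1
    rw [hl.ptm_pair hi ha]
    refine h.s1_pair hv hL (hT i hi) ((hl.trip i hi _).2 ⟨a, ha, rfl⟩) ?_ (hl.out hjZ hdis hi) hd
      hc.2
    rw [hl.hits _ (by omega), getD_flat3 hW hs hl.len3 i (by rw [hl.len]; exact hi) a ha]

/-- **a checked instance with `k` triples does not occur**. -/
theorem LblN.no [DecidableEq ι] {Q U L : Finset V} {T : Finset ι} {F : Finset (Finset V)}
    (h : Frm B Q T U F) (hv : ViolR B Q) (hL : L ∈ F) {k : ℕ} {tb : ℕ → ι}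
    (hT : ∀ i < k, tb i ∈ T) (hinj : ∀ i < k, ∀ i' < k, tb i = tb i' → i = i')
    {hs : List (List ℕ)} {hW : List ℕ} {ct zt : ℕ → V} (hl : LblN B Q L k tb hs hW ct)
    {zn r d0 pz : ℕ} {zm : List ℕ} {bl : ℕ → ι}
    (hg : Gdx.Gx B Q L (PgN zn r d0 pz zm hs hW) bl ct zt tb) {given : List (List ℕ)}
    (hgv : given.all (okgN d0 hs hW) = true) {bs : List Gb} {ks : List Gk} {nm db : Tr}
    {cnf : List (List ℕ)} {prf : List ℕ}
    (hb : instX (PgN zn r d0 pz zm hs hW) given bs ks nm cnf db prf = true) : False :=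
  hg.no (fun c hc => hl.given h hv hL hT hinj hg.d0 (List.all_eq_true.1 hgv c hc)) hb

end Pool.Agent.Hyp6
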