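import Pool.Agent.Hyp6.Gdv2

/-!
# HYP6 GDV3: the hit vectors of two lists of labels

`LblN.cnt`, `Lbl.cnt`: the hit vector as a multiset. `Lbl.perm_of`: the vector with one triple and the
vector with several triples are the same up to the order. `sps`: the ways to split a vector.
-/

set_option autoImplicit false

namespace Pool.Agent.Hyp6

open Finset Pool.Agent.Hyp5 Gdx Rup

universe u v

theorem count_range (x : ℕ) : ∀ l : List ℕ,
    l.count x = ((Finset.range l.length).filter (fun a => l.getD a 0 = x)).card := by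
  intro l
  rw [card_filter]
  induction l with
  | nil => rfl
  | cons a t ih =>
    rw [List.count_cons, List.length_cons, Finset.sum_range_succ', ih]
    simp only [List.getD_cons_succ, List.getD_cons_zero, beq_iff_eq]

theorem count_enum {V : Type v} [DecidableEq V] {S : Finset V} {f : V → ℕ} {l : List ℕ} {e : ℕ → V}
    (h1 : ∀ a < l.length, e a ∈ S) (h2 : ∀ a < l.length, ∀ b < l.length, e a = e b → a = b)
    (h3 : ∀ a < l.length, f (e a) = l.getD a 0) (h4 : ∀ v ∈ S, ∃ a < l.length, e a = v) (x : ℕ) :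
    l.count x = (S.filter (fun v => f v = x)).card := by
  classical
  rw [count_range]
  refine card_bij (fun a _ => e a) ?_ ?_ ?_
  · intro a ha
    obtain ⟨ha1, ha2⟩ := mem_filter.1 ha
    rw [Finset.mem_range] at ha1
    exact mem_filter.2 ⟨h1 a ha1, by rw [h3 a ha1]; exact ha2⟩
  · intro a ha b hb he
    exact h2 a (Finset.mem_range.1 (mem_filter.1 ha).1) b (Finset.mem_range.1 (mem_filter.1 hb).1) he
  · intro v hv
    obtain ⟨hv1, hv2⟩ := mem_filter.1 hv
    obtain ⟨a, ha, rfl⟩ := h4 v hv1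
    exact ⟨a, mem_filter.2 ⟨Finset.mem_range.2 ha, by rw [← h3 a ha]; exact hv2⟩, rfl⟩

section

variable {V : Type v} [DecidableEq V] {ι : Type u} [Fintype ι] {B : ι → Finset V}

/-- the positive entries of a list of labels of all contact points. -/
theorem count_all {Q Z : Finset V} {n : ℕ} {l : List ℕ} {ct : ℕ → V} (hn : l.length = n)
    (memQ : ∀ a < n, ct a ∈ Q ∧ ct a ∉ Z)
    (inj : ∀ a < n, ∀ b < n, ct a = ct b → a = b)
    (all : ∀ v ∈ Q, v ∉ Z → (Ez B Z v).Nonempty → ∃ a < n, ct a = v)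
    (hits : ∀ a < n, (Ez B Z (ct a)).card = l.getD a 0) {x : ℕ} (hx : 1 ≤ x) :
    l.count x = ((Q \ Z).filter (fun v => (Ez B Z v).card = x)).card := by
  classical
  subst hn
  rw [count_enum (S := (Finset.range l.length).image ct) (f := fun v => (Ez B Z v).card)
    (fun a ha => mem_image.2 ⟨a, Finset.mem_range.2 ha, rfl⟩) inj hits (fun v hv => by
      obtain ⟨a, ha, rfl⟩ := mem_image.1 hv
      exact ⟨a, Finset.mem_range.1 ha, rfl⟩) x]
  congr 1
  ext v
  simp only [mem_filter, mem_image, Finset.mem_range, mem_sdiff]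
  constructor
  · rintro ⟨⟨a, ha, rfl⟩, h2⟩
    exact ⟨memQ a ha, h2⟩
  · rintro ⟨⟨h1, h2⟩, h3⟩
    exact ⟨all v h1 h2 (card_pos.1 (by omega)), h3⟩

theorem Lbl.cnt {Q Z : Finset V} {j : ι} {hT hW : List ℕ} {ct : ℕ → V}
    (hl : Lbl B Q Z j hT hW ct) {x : ℕ} (hx : 1 ≤ x) :
    (hT ++ hW).count x = ((Q \ Z).filter (fun v => (Ez B Z v).card = x)).card :=
  count_all (by rw [List.length_append, hl.lenT]) hl.memQ hl.inj hl.all hl.hits hx

theorem LblN.cnt {Q Z : Finset V} {k : ℕ} {tb : ℕ → ι} {hs : List (List ℕ)} {hW : List ℕ}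
    {ct : ℕ → V} (hl : LblN B Q Z k tb hs hW ct) {x : ℕ} (hx : 1 ≤ x) :
    (hs.flatten ++ hW).count x = ((Q \ Z).filter (fun v => (Ez B Z v).card = x)).card :=
  count_all (by rw [List.length_append, length_flat3 _ hl.len3, hl.len]) hl.memQ hl.inj hl.all
    hl.hits hx

theorem Lbl.cntT {Q Z : Finset V} {j : ι} {hT hW : List ℕ} {ct : ℕ → V}
    (hl : Lbl B Q Z j hT hW ct) (x : ℕ) :
    hT.count x = ((B j ∩ Q).filter (fun v => (Ez B Z v).card = x)).card := by
  refine count_enum (e := ct) (fun a ha => (hl.trip _).2 ⟨a, by rw [← hl.lenT]; exact ha, rfl⟩)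
    (fun a ha b hb => hl.inj a ?_ b ?_) (fun a ha => ?_) (fun v hv => ?_) x
  · have := hl.lenT
    omega
  · have := hl.lenT
    omega
  · rw [hl.hits a (by have := hl.lenT; omega), List.getD_append _ _ _ _ ha]
  · obtain ⟨a, ha, he⟩ := (hl.trip v).1 hv
    exact ⟨a, by rw [hl.lenT]; exact ha, he⟩

theorem LblN.cntT {Q Z : Finset V} {k : ℕ} {tb : ℕ → ι} {hs : List (List ℕ)} {hW : List ℕ}
    {ct : ℕ → V} (hl : LblN B Q Z k tb hs hW ct) {i : ℕ} (hi : i < k) (x : ℕ) :
    (hs.getD i []).count x = ((B (tb i) ∩ Q).filter (fun v => (Ez B Z v).card = x)).card := by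
  have hi' : i < hs.length := by rw [hl.len]; exact hi
  have h3 : (hs.getD i []).length = 3 := by
    rw [List.getD_eq_getElem _ _ hi']
    exact hl.len3 _ (List.getElem_mem hi')
  refine count_enum (e := fun a => ct (3 * i + a)) (fun a ha => (hl.trip i hi _).2
    ⟨a, by rw [← h3]; exact ha, rfl⟩) (fun a ha b hb he => ?_) (fun a ha => ?_) (fun v hv => ?_) x
  · have := hl.inj (3 * i + a) (by omega) (3 * i + b) (by omega) he
    omega
  · rw [h3] at ha
    show (Ez B Z (ct (3 * i + a))).card = _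
    rw [hl.hits _ (by omega), getD_flat3 hW hs hl.len3 i hi' a ha]
  · obtain ⟨a, ha, he⟩ := (hl.trip i hi v).1 hv
    exact ⟨a, by rw [h3]; exact ha, he⟩

/-- **the two hit vectors**. -/
theorem Lbl.perm_of {Q Z : Finset V} {j : ι} {hT hW : List ℕ} {ct : ℕ → V}
    (hl : Lbl B Q Z j hT hW ct) {k : ℕ} {tb : ℕ → ι} {hs : List (List ℕ)} {hW' : List ℕ}
    {ct' : ℕ → V} (hn : LblN B Q Z (k + 1) tb (hT :: hs) hW' ct') :
    (hs.flatten.filter (fun x => decide (0 < x)) ++ hW').Perm hW := by
  classical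
  rw [List.perm_iff_count]
  intro x
  rcases Nat.eq_zero_or_pos x with rfl | hx
  · have h1 : hW.count 0 = 0 := List.count_eq_zero.2 fun h => by
      have := hl.posW 0 h
      omega
    have h2 : hW'.count 0 = 0 := List.count_eq_zero.2 fun h => by
      have := hn.posW 0 h
      omega
    have h3 : (hs.flatten.filter (fun x => decide (0 < x))).count 0 = 0 :=
      List.count_eq_zero.2 fun h => by
        have := (List.mem_filter.1 h).2
        simp at this
    rw [List.count_append, h1, h2, h3]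
  · have h1 := hl.cnt hx
    have h2 := hn.cnt hx
    rw [← h1] at h2
    simp only [List.flatten_cons, List.count_append] at h2
    rw [List.count_append, List.count_filter (by simpa using hx)]
    omega

/-- the first triple. -/
theorem Lbl.fst_of {Q Z : Finset V} {j : ι} {hT hW : List ℕ} {ct : ℕ → V}
    (hl : Lbl B Q Z j hT hW ct) {k : ℕ} {tb : ℕ → ι} {hs : List (List ℕ)} {hW' : List ℕ}
    {ct' : ℕ → V} (hn : LblN B Q Z k tb hs hW' ct') {i : ℕ} (hi : i < k) (hj : tb i = j) :
    hs.getD i [] = hT := by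
  have hi' : i < hs.length := by rw [hn.len]; exact hi
  have h1 : (hs.getD i []).Perm hT := by
    rw [List.perm_iff_count]
    intro x
    rw [hn.cntT hi x, hl.cntT x, hj]
  have h2 : (hs.getD i []).Pairwise (fun a b => b ≤ a) := by
    rw [List.getD_eq_getElem _ _ hi']
    exact hn.desT _ (List.getElem_mem hi')
  exact List.Perm.eq_of_pairwise (fun a b _ _ h3 h4 => le_antisymm h4 h3) h2 hl.desT h1

end

/-- the positive entries. -/
def pos (l : List ℕ) : List ℕ := l.filter (fun x => decide (0 < x))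

/-- the ways to take a triple out of a vector: the triple and the rest. -/
def sps (m : ℕ) (hW : List ℕ) : List (List ℕ × List ℕ) :=
  ((tri m).map (fun t => (t, hW.diff (pos t)))).filter
    (fun p => decide ((pos p.1 ++ p.2).Perm hW))

theorem mem_sps {m : ℕ} {t hW' hW : List ℕ} (ht : t ∈ tri m) (hp : (pos t ++ hW').Perm hW)
    (hd : hW.Pairwise (fun a b => b ≤ a)) (hd' : hW'.Pairwise (fun a b => b ≤ a)) :
    (t, hW') ∈ sps m hW := by
  have h1 : (hW.diff (pos t)).Perm hW' := by
    rw [List.perm_iff_count]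
    intro x
    rw [List.count_diff, ← hp.count_eq x, List.count_append]
    omega
  have h2 : (hW.diff (pos t)).Pairwise (fun a b => b ≤ a) := hd.sublist (List.diff_sublist _ _)
  have h3 : hW.diff (pos t) = hW' :=
    List.Perm.eq_of_pairwise (fun a b _ _ h3 h4 => le_antisymm h4 h3) h2 hd' h1
  refine List.mem_filter.2 ⟨List.mem_map.2 ⟨t, ht, by rw [h3]⟩, ?_⟩
  simpa using hp

end Pool.Agent.Hyp6
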