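import Pool.Agent.Hyp6.L3Gd
import Pool.Agent.Hyp6.L3RL

/-!
# HYP6 L3Gp: the general deletion without connectivity

`Gdl.parts`: if every part of the new system meets `Y` (free by 3-connectivity for `|X| <= 2`,
`Gdl.part_of_conn`), every part contains a new block, and no connectivity of the new system is needed:
each new block costs at most one more, a new block with three points at most two more.
-/

set_option autoImplicit false

namespace Pool.Agent.Hyp6

open Finset Pool.Agent.Hyp5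

universe u v

variable {V : Type v} [DecidableEq V] {ι : Type u} [Fintype ι] {κ : Type u} [Fintype κ]
  {B : ι → Finset V}

/-- the exceptional system has `dv = -2`. -/
theorem KT.dv_ge {Q D : Finset V} (h : KT B D) (hr : Reg B D) (h3 : Tr3 B D) (hDQ : D ⊆ Q) :
    -2 ≤ dv B Q D := by
  classical
  have h1 := Pv_eq (B := B) D
  rw [h.1, h.2.1, h.2.2] at h1
  have h2 : ee B Q D ≤ ee B D D := ee_le_ee (Subset.refl _) hDQ
  have h4 := two_ee_le (B := B) D D
  have h5 : (ins B D D).filter (fun i => (B i ∩ D).card = 1) = ∅ := by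
    rw [filter_eq_empty_iff]
    intro i hi h6
    have h7 := h.trace hr h3 (mem_ins.1 hi).1
    omega
  rw [h5, card_empty] at h4
  unfold dv
  push_cast at h1
  omega

namespace Gdl

variable {Q L X Y : Finset V} {I : Finset ι} {E : V → Finset ι} {N : κ → Finset V}

/-- **the parts of the new system**: every part meets `Y`. -/
theorem part_meet (h : Gdl B Q L X Y I E N)
    (hpart : ∀ W ⊆ rm Q L X Y, Closed (gr B) (rm Q L X Y) W → W.Nonempty →
      ∃ y ∈ Y, ∃ i ∈ E y, (B i ∩ W).Nonempty) {Z : Finset V}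
    (hZ : Closed (gr (absG B (rm Q L X Y) Y E N)) (rm Q L X Y ∪ Y) Z) (hne : Z.Nonempty) :
    (Z ∩ Y).Nonempty := by
  classical
  have hw := h.wir
  set C := rm Q L X Y with hC
  have hclo : Closed (gr B) C (Z ∩ C) := by
    refine ⟨inter_subset_right, fun x hx y hy hxy => ?_⟩
    obtain ⟨hx1, hx2⟩ := mem_inter.1 hx
    exact mem_inter.2 ⟨hZ.2 x hx1 y (mem_union_left _ hy) (hw.adj_C hx2 hy hxy), hy⟩
  by_contra h0
  rw [not_nonempty_iff_eq_empty] at h0
  have h1 : (Z ∩ C).Nonempty := by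
    obtain ⟨v, hv⟩ := hne
    rcases mem_union.1 (hZ.1 hv) with h2 | h2
    · exact ⟨v, mem_inter.2 ⟨hv, h2⟩⟩
    · have h3 : v ∈ Z ∩ Y := mem_inter.2 ⟨hv, h2⟩
      rw [h0] at h3
      exact absurd h3 (notMem_empty _)
  obtain ⟨y, hy, i, hi, w, hw'⟩ := hpart (Z ∩ C) inter_subset_right hclo h1
  obtain ⟨hwi, hwZ⟩ := mem_inter.1 hw'
  obtain ⟨hwZ', hwC⟩ := mem_inter.1 hwZ
  have h2 : y ∈ Z := hZ.2 w hwZ' y (mem_union_right _ hy) (hw.adj_Y hy hwC hi hwi).symm
  have h3 : y ∈ Z ∩ Y := mem_inter.2 ⟨h2, hy⟩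
  rw [h0] at h3
  exact absurd h3 (notMem_empty _)

/-- the value of the new system, by parts. Every part contains a block of `K0`. -/
theorem val_ge (h : Gdl B Q L X Y I E N) {n : ℕ} (ih : IHE.{u} V n) (ihr : IHR.{u} V n)
    (hn : (rm Q L X Y).card + Y.card < n)
    {K0 : Finset κ} (hrep : ∀ Z, Closed (gr (absG B (rm Q L X Y) Y E N)) (rm Q L X Y ∪ Y) Z →
      Z.Nonempty → ∃ c ∈ K0, (N c).Nonempty ∧ N c ⊆ Z) :
    -((K0.card : ℤ) + (K0.filter (fun c => (N c).card = 3)).card) ≤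
      dv (absG B (rm Q L X Y) Y E N) (rm Q L X Y ∪ Y) (rm Q L X Y ∪ Y) ∧
    ((∀ c ∈ K0, (N c).card ≤ 2) → 0 ≤ sv (absG B (rm Q L X Y) Y E N) (rm Q L X Y ∪ Y) →
      (rm Q L X Y ∪ Y).Nonempty →
      -((K0.card : ℤ) - 1) ≤
      dv (absG B (rm Q L X Y) Y E N) (rm Q L X Y ∪ Y) (rm Q L X Y ∪ Y)) := by
  classical
  have hw := h.wir
  have ht3 := hw.tr3 h.tr
  have hr' := hw.reg h.reg
  set C := rm Q L X Y with hC
  set B' := absG B C Y E N with hB'
  have hCY : (C ∪ Y).card = C.card + Y.card := card_union_of_disjoint hw.dis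
  obtain ⟨Ks, hK1, hK2, hK3⟩ := exists_parts B' (C ∪ Y)
  have hcov' : Cov B' (C ∪ Y) := cov_of_reg hr'
  have hKcov : ∀ D ∈ Ks, Cov B' D := fun D hD => hcov'.mono (hK1 D hD).1
  -- each part contains a new block
  have hex : ∀ D ∈ Ks, ∃ c ∈ K0, N c ⊆ D ∧ (N c).Nonempty := by
    intro D hD
    obtain ⟨hD1, hD2, hD3⟩ := hK1 D hD
    obtain ⟨c, hc, hcne, hcD⟩ := hrep D hD2 hD3.1
    exact ⟨c, hc, hcD, hcne⟩
  have hval : ∀ D ∈ Ks, ∃ c, c ∈ K0 ∧ N c ⊆ D ∧ (N c).Nonempty ∧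
      -(1 + (if (N c).card = 3 then 1 else 0 : ℤ)) ≤ dv B' (C ∪ Y) D ∧
      ((N c).card ≤ 2 → 0 ≤ sv B' D → 0 ≤ dv B' (C ∪ Y) D) := by
    intro D hD
    obtain ⟨c, hc0, hc, hcne⟩ := hex D hD
    obtain ⟨hD1, hD2, hD3⟩ := hK1 D hD
    have hrD := hr'.mono hD1
    have htD := ht3.mono hD1
    have hlt : D.card < n := lt_of_le_of_lt (card_le_card hD1) (by rw [hCY]; exact hn)
    have h2 : (ee B' (C ∪ Y) D : ℤ) ≤ ee B' D D := by
      exact_mod_cast ee_le_ee (Subset.refl _) hD1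
    have htr : B' (Sum.inr c) ∩ D = N c := by
      ext v
      rw [mem_inter, hB', mem_absG_inr]
      exact ⟨fun h3 => h3.1, fun h3 => ⟨h3, hc h3⟩⟩
    by_cases hKT : KT B' D
    · have h3 : (N c).card = 3 := by
        have h4 := hKT.trace hrD htD (i := Sum.inr c) (by rw [htr]; exact hcne)
        rwa [htr] at h4
      refine ⟨c, hc0, hc, hcne, ?_, fun h4 => by omega⟩
      rw [if_pos h3]
      have := hKT.dv_ge hrD htD hD1
      linarith
    · have h3 := ih (ι ⊕ κ) B' D hlt hrD htD hD3 hKT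
      refine ⟨c, hc0, hc, hcne, ?_, fun _ hs => ?_⟩
      · unfold dv
        split_ifs <;> linarith
      · have h4 := ih_nonneg ih ihr hlt hrD htD hD3 hKT hs
        unfold dv
        linarith
  have hdv : dv B' (C ∪ Y) (C ∪ Y) = ∑ D ∈ Ks, dv B' (C ∪ Y) D := by
    have h1 := Pv_biUnion hKcov hK2
    have h2 := ee_biUnion (B := B') (Q := C ∪ Y) hK2
    rw [hK3] at h1 h2
    unfold dv
    rw [h1, h2, sum_sub_distrib, ← mul_sum]
    push_cast
    rfl
  rcases isEmpty_or_nonempty κ with hemp | hemp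
  · have h0 : Ks = ∅ := by
      by_contra h1
      obtain ⟨D, hD⟩ := nonempty_iff_ne_empty.2 h1
      obtain ⟨c, _⟩ := hex D hD
      exact hemp.false c
    rw [h0] at hdv hK3
    rw [hdv, sum_empty]
    refine ⟨by have h1 := Nat.zero_le K0.card; have h2 := Nat.zero_le (K0.filter (fun c => (N c).card = 3)).card; omega,
      fun _ _ hne => ?_⟩
    rw [← hK3] at hne
    obtain ⟨v, hv⟩ := hne
    simp at hv
  choose! f hf using hval
  have hinj : Set.InjOn f (Ks : Set (Finset V)) := by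
    intro D hD D' hD' hDD
    by_contra hne
    obtain ⟨_, h1, h2, _⟩ := hf D hD
    obtain ⟨_, h3, _⟩ := hf D' hD'
    obtain ⟨v, hv⟩ := h2
    exact disjoint_left.1 (hK2 D hD D' hD' hne).1 (h1 hv) (h3 (by rw [← hDD]; exact hv))
  have himg : Ks.image f ⊆ K0 := by
    intro c hc
    obtain ⟨D, hD, rfl⟩ := mem_image.1 hc
    exact (hf D hD).1
  have hcardK : Ks.card ≤ K0.card := by
    rw [← card_image_of_injOn hinj]
    exact card_le_card himg
  constructor
  · rw [hdv]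
    have h1 : ∑ D ∈ Ks, -(1 + (if (N (f D)).card = 3 then 1 else 0 : ℤ)) ≤
        ∑ D ∈ Ks, dv B' (C ∪ Y) D := sum_le_sum fun D hD => (hf D hD).2.2.2.1
    have h2 : ∑ D ∈ Ks, (1 + (if (N (f D)).card = 3 then 1 else 0 : ℤ)) =
        ∑ c ∈ Ks.image f, (1 + (if (N c).card = 3 then 1 else 0 : ℤ)) := by
      rw [sum_image hinj]
    have h3 : ∑ c ∈ Ks.image f, (1 + (if (N c).card = 3 then 1 else 0 : ℤ)) ≤
        ∑ c ∈ K0, (1 + (if (N c).card = 3 then 1 else 0 : ℤ)) := by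
      refine sum_le_sum_of_subset_of_nonneg himg fun c _ _ => ?_
      split_ifs <;> norm_num
    have h4 : ∑ c ∈ K0, (1 + (if (N c).card = 3 then 1 else 0 : ℤ)) =
        (K0.card : ℤ) + (K0.filter (fun c => (N c).card = 3)).card := by
      rw [sum_add_distrib, sum_const, nsmul_eq_mul, mul_one, sum_boole]
    rw [sum_neg_distrib] at h1
    linarith
  · intro h2 hs hne
    have hsum : sv B' (C ∪ Y) = ∑ D ∈ Ks, sv B' D := by
      rw [← hK3]
      exact sv_biUnion hKcov hK2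
    -- some part has value at least 0
    have hKne : Ks.Nonempty := by
      by_contra h0
      rw [not_nonempty_iff_eq_empty] at h0
      rw [h0] at hK3
      rw [← hK3] at hne
      obtain ⟨v, hv⟩ := hne
      simp at hv
    have hpos : ∃ D ∈ Ks, 0 ≤ sv B' D := by
      by_contra hcon
      push Not at hcon
      have h3 : ∑ D ∈ Ks, sv B' D < 0 := by
        have h4 := sum_lt_sum_of_nonempty hKne (f := fun D => sv B' D) (g := fun _ => (0 : ℤ))
          (fun D hD => hcon D hD)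
        simpa using h4
      linarith
    obtain ⟨D0, hD0, hs0⟩ := hpos
    have h3 : ∀ D ∈ Ks, -1 ≤ dv B' (C ∪ Y) D := by
      intro D hD
      have h4 := (hf D hD).2.2.2.1
      have h5 := h2 (f D) (hf D hD).1
      rw [if_neg (by omega)] at h4
      linarith
    have h4 : 0 ≤ dv B' (C ∪ Y) D0 := (hf D0 hD0).2.2.2.2 (h2 _ (hf D0 hD0).1) hs0
    have h5 : ∑ D ∈ Ks.erase D0, (-1 : ℤ) ≤ ∑ D ∈ Ks.erase D0, dv B' (C ∪ Y) D :=
      sum_le_sum fun D hD => h3 D (mem_of_mem_erase hD)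
    rw [sum_const, nsmul_eq_mul, card_erase_of_mem hD0] at h5
    have h6 : 1 ≤ Ks.card := card_pos.2 hKne
    rw [hdv, ← add_sum_erase _ _ hD0]
    push_cast [Nat.cast_sub h6] at h5
    have h7 : (Ks.card : ℤ) ≤ K0.card := by exact_mod_cast hcardK
    linarith

/-- **the general deletion without connectivity**, with a set `K0` of new blocks such that every part of
the new system contains a block of `K0`. -/
theorem partsC (h : Gdl B Q L X Y I E N) {n : ℕ} (ih : IHE.{u} V n) (ihr : IHR.{u} V n)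
    (hn : (rm Q L X Y).card + Y.card < n)
    {K0 : Finset κ} (hrep : ∀ Z, Closed (gr (absG B (rm Q L X Y) Y E N)) (rm Q L X Y ∪ Y) Z →
      Z.Nonempty → ∃ c ∈ K0, (N c).Nonempty ∧ N c ⊆ Z) :
    dv B Q L + 5 * (X.card : ℤ) + 4 * (I.card : ℤ) + 2 * ((lost B Q L X Y I E).card : ℤ) -
      4 * (Fintype.card κ : ℤ) - K0.card - (K0.filter (fun c => (N c).card = 3)).card ≤
        dv B Q Q ∧
    ((∀ c ∈ K0, (N c).card ≤ 2) → (X.card : ℤ) ≤ sv B Q - sv B L → (rm Q L X Y ∪ Y).Nonempty →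
      (K0.card : ℤ) ≤ 24 →
      dv B Q L + 5 * (X.card : ℤ) + 4 * (I.card : ℤ) + 2 * ((lost B Q L X Y I E).card : ℤ) -
      4 * (Fintype.card κ : ℤ) - K0.card + 1 ≤ dv B Q Q) := by
  classical
  have hw := h.wir
  have hrho := h.rho_le
  have hcm := h.cm_ge
  obtain ⟨hv1, hv2⟩ := h.val_ge ih ihr hn hrep
  set C := rm Q L X Y with hC
  set B' := absG B C Y E N with hB'
  -- the points with all single blocks kept
  set Y1 := Y.filter (fun y => ∀ i, B i ∩ Q = {y} → i ∈ E y) with hY1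
  set Y3 := Y.filter (fun y => ¬ ∀ i, B i ∩ Q = {y} → i ∈ E y) with hY3
  have hY1Y : Y1 ⊆ Y := filter_subset _ _
  have hY3Y : Y3 ⊆ Y := filter_subset _ _
  have hee := hw.ee_ge (Y1 := Y1) (Y2 := ∅) hY1Y (empty_subset _) (disjoint_empty_right _)
    (fun y hy => (mem_filter.1 hy).2) (fun y hy => absurd hy (notMem_empty _))
  rw [← hB'] at hee
  have hlost := h.ee_lost (Y3 := Y3) hY3Y (fun y hy => by
    have h1 := (mem_filter.1 hy).2
    push Not at h1
    exact h1)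
  have hCQ : C ⊆ Q := sdiff_subset
  have hdC : Disjoint ((L ∪ X) ∪ Y) C := disjoint_sdiff
  have hQe : ((L ∪ X) ∪ Y) ∪ C = Q :=
    union_sdiff_of_subset (union_subset (union_subset h.LQ h.XQ) h.YQ)
  have hdY : Disjoint (L ∪ X) Y := by
    rw [disjoint_union_left]
    exact ⟨h.dLY, h.dXY⟩
  have heQ : ee B Q Q = ee B Q L + ee B Q X + ee B Q Y + ee B Q C := by
    have h1 := ee_union (B := B) (Q := Q) hdC
    rw [hQe, ee_union hdY, ee_union h.dLX] at h1
    exact h1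
  have heY : ee B Q Y = ee B Q Y1 + ee B Q Y3 := by
    have h2 : Y1 ∪ Y3 = Y := filter_union_filter_not_eq _ _
    have h3 : Disjoint Y1 Y3 := disjoint_filter_filter_not _ _ _
    have h4 := ee_union (B := B) (Q := Q) h3
    rw [h2] at h4
    exact h4
  have hcard : Q.card = L.card + X.card + Y.card + C.card := by
    conv_lhs => rw [← hQe]
    rw [card_union_of_disjoint hdC, card_union_of_disjoint hdY, card_union_of_disjoint h.dLX]
  have hCY : (C ∪ Y).card = C.card + Y.card := card_union_of_disjoint hw.dis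
  have hPv' := Pv_eq (B := B') (C ∪ Y)
  have hPvQ := Pv_eq (B := B) Q
  have hPvL := Pv_eq (B := B) L
  have hsv' : sv B' (C ∪ Y) = (C.card : ℤ) + Y.card - 2 * (rho B' (C ∪ Y) : ℤ) := by
    unfold sv
    rw [hCY]
    push_cast
    ring
  have hsvQ : sv B Q = (L.card : ℤ) + X.card + Y.card + C.card - 2 * (rho B Q : ℤ) := by
    unfold sv
    rw [hcard]
    push_cast
    ring
  have hsvL : sv B L = (L.card : ℤ) - 2 * (rho B L : ℤ) := rfl
  rw [hCY] at hPv'
  rw [hcard] at hPvQ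
  have hd' : dv B' (C ∪ Y) (C ∪ Y) = Pv B' (C ∪ Y) - 2 * (ee B' (C ∪ Y) (C ∪ Y) : ℤ) := rfl
  rw [hd'] at hv1 hv2
  unfold dv
  push_cast at hPv' hPvQ
  rw [hPvQ, hPvL, heQ, heY]
  rw [hPv'] at hv1 hv2
  rw [hsv'] at hv2
  rw [card_empty] at hee
  push_cast
  constructor
  · omega
  · intro h3 hX hne hk
    have hN0 : (K0.filter (fun c => (N c).card = 3)) = ∅ := by
      rw [filter_eq_empty_iff]
      intro c hc h4
      have := h3 c hc
      omega
    rw [hN0, card_empty] at hv1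
    rw [hsvQ, hsvL] at hX
    rcases Nat.lt_or_ge (rho B Q) (rho B L + rho B' (C ∪ Y)) with h1 | h1
    · push_cast at hv1
      omega
    · have h2 := hv2 h3 (by omega) hne
      omega

/-- **the general deletion without connectivity**, with a set `K0` of new blocks which contains a block of
each class of linked new blocks. -/
theorem partsR (h : Gdl B Q L X Y I E N) {n : ℕ} (ih : IHE.{u} V n) (ihr : IHR.{u} V n)
    (hn : (rm Q L X Y).card + Y.card < n)
    (hpart : ∀ W ⊆ rm Q L X Y, Closed (gr B) (rm Q L X Y) W → W.Nonempty →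
      ∃ y ∈ Y, ∃ i ∈ E y, (B i ∩ W).Nonempty)
    {K0 : Finset κ} (hrep : ∀ Z ⊆ Y, Z.Nonempty → (∀ c, (N c ∩ Z).Nonempty → N c ⊆ Z) →
      ∃ c ∈ K0, (N c).Nonempty ∧ N c ⊆ Z) :
    dv B Q L + 5 * (X.card : ℤ) + 4 * (I.card : ℤ) + 2 * ((lost B Q L X Y I E).card : ℤ) -
      4 * (Fintype.card κ : ℤ) - K0.card - (K0.filter (fun c => (N c).card = 3)).card ≤
        dv B Q Q ∧
    ((∀ c ∈ K0, (N c).card ≤ 2) → (X.card : ℤ) ≤ sv B Q - sv B L → (rm Q L X Y ∪ Y).Nonempty →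
      (K0.card : ℤ) ≤ 24 →
      dv B Q L + 5 * (X.card : ℤ) + 4 * (I.card : ℤ) + 2 * ((lost B Q L X Y I E).card : ℤ) -
      4 * (Fintype.card κ : ℤ) - K0.card + 1 ≤ dv B Q Q) := by
  classical
  refine h.partsC ih ihr hn fun D hD hDne => ?_
  have hw := h.wir
  obtain ⟨c, hc, hcne, hcD⟩ := hrep (D ∩ Y) inter_subset_right (h.part_meet hpart hD hDne) (by
    rintro c ⟨y, hy⟩ v hv
    obtain ⟨hyc, hyD⟩ := mem_inter.1 hy
    obtain ⟨hyD, hyY⟩ := mem_inter.1 hyD
    refine mem_inter.2 ⟨?_, h.subN c hv⟩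
    by_cases hvy : v = y
    · rw [hvy]
      exact hyD
    · exact hD.2 y hyD v (mem_union_right _ (h.subN c hv))
        (hw.adj_N (fun h1 => hvy h1.symm) hyc hv))
  exact ⟨c, hc, hcne, hcD.trans inter_subset_left⟩

/-- **the general deletion without connectivity**. -/
theorem parts (h : Gdl B Q L X Y I E N) {n : ℕ} (ih : IHE.{u} V n) (ihr : IHR.{u} V n)
    (hn : (rm Q L X Y).card + Y.card < n)
    (hpart : ∀ W ⊆ rm Q L X Y, Closed (gr B) (rm Q L X Y) W → W.Nonempty →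
      ∃ y ∈ Y, ∃ i ∈ E y, (B i ∩ W).Nonempty)
    (hcov : ∀ y ∈ Y, ∃ c, y ∈ N c) :
    dv B Q L + 5 * (X.card : ℤ) + 4 * (I.card : ℤ) + 2 * ((lost B Q L X Y I E).card : ℤ) -
      5 * (Fintype.card κ : ℤ) - (univ.filter (fun c => (N c).card = 3)).card ≤ dv B Q Q ∧
    ((∀ c, (N c).card ≤ 2) → (X.card : ℤ) ≤ sv B Q - sv B L → (rm Q L X Y ∪ Y).Nonempty →
      (Fintype.card κ : ℤ) ≤ 24 →
      dv B Q L + 5 * (X.card : ℤ) + 4 * (I.card : ℤ) + 2 * ((lost B Q L X Y I E).card : ℤ) -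
      5 * (Fintype.card κ : ℤ) + 1 ≤ dv B Q Q) := by
  classical
  have h1 := h.partsR ih ihr hn hpart (K0 := univ) (fun Z hZ hne hcl => by
    obtain ⟨y, hy⟩ := hne
    obtain ⟨c, hc⟩ := hcov y (hZ hy)
    exact ⟨c, mem_univ _, ⟨y, hc⟩, hcl c ⟨y, mem_inter.2 ⟨hc, hy⟩⟩⟩)
  rw [card_univ] at h1
  refine ⟨by linarith [h1.1], fun h2 h3 h4 h5 => ?_⟩
  have h6 := h1.2 (fun c _ => h2 c) h3 h4 h5
  linarith

/-- the parts meet `Y` if the rest without `X` is connected. -/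
theorem part_of_conn (h : Gdl B Q L X Y I E N) (hLne : L.Nonempty)
    (hconn : Conn (gr B) (Q \ X))
    (hkeep : ∀ y ∈ Y, ∀ i, y ∈ B i → (B i ∩ rm Q L X Y).Nonempty → i ∈ E y) :
    ∀ W ⊆ rm Q L X Y, Closed (gr B) (rm Q L X Y) W → W.Nonempty →
      ∃ y ∈ Y, ∃ i ∈ E y, (B i ∩ W).Nonempty := by
  classical
  intro W hW hWc hWne
  by_contra hcon
  push Not at hcon
  have hWX : W ⊆ Q \ X := by
    intro v hv
    obtain ⟨h1, _, h2, _⟩ := mem_rm.1 (hW hv)
    exact mem_sdiff.2 ⟨h1, h2⟩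
  have hcl : Closed (gr B) (Q \ X) W := by
    refine ⟨hWX, fun v hv w hw hvw => ?_⟩
    obtain ⟨hwQ, hwX⟩ := mem_sdiff.1 hw
    obtain ⟨hne, i, hi1, hi2⟩ := hvw
    have hvC := hW hv
    obtain ⟨hvQ, hvL, hvX, hvY⟩ := mem_rm.1 hvC
    by_cases hwC : w ∈ rm Q L X Y
    · exact hWc.2 v hv w hwC ⟨hne, i, hi1, hi2⟩
    exfalso
    by_cases hwL : w ∈ L
    · have h1 := h.con i ⟨w, mem_inter.2 ⟨hi2, hwL⟩⟩ (mem_inter.2 ⟨hi1, hvQ⟩)
      rcases mem_union.1 h1 with h2 | h2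
      · rcases mem_union.1 h2 with h3 | h3
        · exact hvL h3
        · exact hvX h3
      · exact hvY h2
    by_cases hwY : w ∈ Y
    · have h1 := hkeep w hwY i hi2 ⟨v, mem_inter.2 ⟨hi1, hvC⟩⟩
      have h2 := hcon w hwY i h1
      have h3 : v ∈ B i ∩ W := mem_inter.2 ⟨hi1, hv⟩
      rw [h2] at h3
      exact notMem_empty _ h3
    · exact hwC (mem_rm.2 ⟨hwQ, hwL, hwX, hwY⟩)
  have heq := hconn.2 W hcl hWne
  obtain ⟨l, hl⟩ := hLne
  have hlT : l ∈ Q \ X := mem_sdiff.2 ⟨h.LQ hl, fun h1 => disjoint_left.1 h.dLX hl h1⟩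
  rw [← heq] at hlT
  exact (mem_rm.1 (hW hlT)).2.1 hl

/-- without trimming all blocks at the rest are kept. -/
theorem keep_kp (h : Gdl B Q L X Y I (kp B L I) N) :
    ∀ y ∈ Y, ∀ i, y ∈ B i → (B i ∩ rm Q L X Y).Nonempty → i ∈ kp B L I y := by
  intro y _ i hy hne
  obtain ⟨v, hv⟩ := hne
  obtain ⟨hvi, hvC⟩ := mem_inter.1 hv
  obtain ⟨hvQ, hvL, hvX, hvY⟩ := mem_rm.1 hvC
  refine mem_kp.2 ⟨hy, fun h1 => ?_, fun h1 => ?_⟩
  · have h2 := h.con i h1 (mem_inter.2 ⟨hvi, hvQ⟩)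
    rcases mem_union.1 h2 with h3 | h3
    · rcases mem_union.1 h3 with h4 | h4
      · exact hvL h4
      · exact hvX h4
    · exact hvY h3
  · have h2 := (h.full i h1).1 (mem_inter.2 ⟨hvi, hvQ⟩)
    rcases mem_union.1 h2 with h3 | h3
    · exact hvX h3
    · exact hvY h3

end Gdl

end Pool.Agent.Hyp6
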