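import Pool.Agent.Hyp6.L3Dl
import Pool.Agent.Hyp6.L3S5
import Pool.Agent.Hyp6.L3Gp

/-!
# HYP6 L3T0: the leaf (3;1) without line triples

A set `L` with three points, eight blocks and cover number two in a violation with value at least one, all
of whose contact points lie in own full blocks, has at least six hits (`ViolR.six`).
`ViolR.k3`: four contact points `p, q, p', q'`, one hit each, `L` absorbs the four pairs of the cycle,
at most one more hit: impossible. `ViolR.lb2`: two contact points absorbed together, the rest meets at most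
two blocks of `L`: impossible.
-/

set_option autoImplicit false

namespace Pool.Agent.Hyp6

open Finset Pool.Agent.Hyp5

universe u v

variable {V : Type v} [DecidableEq V] {ι : Type u} [Fintype ι] {B : ι → Finset V}

/-- counting over three new blocks. -/
theorem fin3_card (P : Fin 3 → Prop) [DecidablePred P] :
    ((univ : Finset (ULift.{u} (Fin 3))).filter (fun c => P c.down)).card =
      (if P 0 then 1 else 0) + (if P 1 then 1 else 0) + (if P 2 then 1 else 0) := by
  rw [card_filter, ← Equiv.ulift.symm.sum_comp, Fin.sum_univ_three]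
  rfl

omit [Fintype ι] in
/-- the cover number of a pair together with `L`, two blocks. -/
theorem rho_two {L : Finset V} {i i' : ι} {v w : V} (hL : L ⊆ B i ∪ B i')
    (hv : v ∈ B i ∪ B i') (hw : w ∈ B i ∪ B i') : rho B (L ∪ {v, w}) ≤ 2 := by
  classical
  have h1 : rho B (L ∪ {v, w}) ≤ ({i, i'} : Finset ι).card := by
    refine rho_le fun x hx => ?_
    have h2 : x ∈ B i ∪ B i' := by
      rcases mem_union.1 hx with h3 | h3
      · exact hL h3
      · rw [mem_insert, mem_singleton] at h3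
        rcases h3 with rfl | rfl
        · exact hv
        · exact hw
    rw [mem_biUnion]
    rcases mem_union.1 h2 with h3 | h3
    · exact ⟨i, by simp, h3⟩
    · exact ⟨i', by simp, h3⟩
  exact h1.trans card_le_two

/-- **the four cycle**: `L` absorbs `{p,q}, {q,p'}, {p',q'}, {q',p}`; the points have one hit each and lie in own
full blocks, one more point `r` with one hit. -/
theorem ViolR.k3 {Q L : Finset V} (hv : ViolR B Q) (hLQ : L ⊆ Q) (hLne : L.Nonempty)
    (hdv : -1 ≤ dv B Q L) {p q p' q' r : V} {i j : ι} (hi : (B i ∩ Q).card = 3)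
    (hj : (B j ∩ Q).card = 3) (hp : p ∈ B i ∩ Q) (hq : q ∈ B j ∩ Q)
    (hij : Disjoint (B i ∩ Q) (B j ∩ Q))
    (hip : ∀ y ∈ B i ∩ Q, y ≠ p → Ez B L y = ∅) (hjq : ∀ y ∈ B j ∩ Q, y ≠ q → Ez B L y = ∅)
    (hpL : p ∉ L) (hqL : q ∉ L) (hp'Q : p' ∈ Q) (hq'Q : q' ∈ Q) (hrQ : r ∈ Q)
    (hp'L : p' ∉ L) (hq'L : q' ∉ L) (hrL : r ∉ L)
    (h1 : (Ez B L p').card = 1) (h2 : (Ez B L q').card = 1) (h3 : (Ez B L r).card = 1)
    (n1 : p ≠ p') (n2 : p ≠ q') (n3 : p ≠ r) (n4 : q ≠ p') (n5 : q ≠ q') (n6 : q ≠ r)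
    (n7 : p' ≠ q') (n8 : p' ≠ r) (n9 : q' ≠ r)
    (hall : ∀ v ∈ Q, v ∉ L → (Ez B L v).Nonempty → v = p ∨ v = q ∨ v = p' ∨ v = q' ∨ v = r)
    (a1 : rho B (L ∪ {p, q}) ≤ rho B L) (a2 : rho B (L ∪ {q, p'}) ≤ rho B L)
    (a3 : rho B (L ∪ {p, q'}) ≤ rho B L) (a4 : rho B (L ∪ {p', q'}) ≤ rho B L) : False := by
  classical
  obtain ⟨hpi, hpQ⟩ := mem_inter.1 hp
  obtain ⟨hqj, hqQ⟩ := mem_inter.1 hq
  have hpq : p ≠ q := by
    rintro rfl
    exact disjoint_left.1 hij hp hq
  have hcov := hv.cov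
  -- points of `L` have blocks at `L`
  have hEL : ∀ y ∈ L, (Ez B L y).Nonempty := by
    intro y hy
    have h4 : (univ.filter (fun k => y ∈ B k)).card = 5 := hv.reg y (hLQ hy)
    obtain ⟨k, hk⟩ := card_pos.1 (by omega : 0 < (univ.filter (fun k => y ∈ B k)).card)
    exact ⟨k, mem_Ez.2 ⟨(mem_filter.1 hk).2, y, mem_inter.2 ⟨(mem_filter.1 hk).2, hy⟩⟩⟩
  have hiL : ∀ y ∈ B i ∩ Q, y ∉ L := by
    intro y hy hyL
    by_cases h4 : y = p
    · exact hpL (h4 ▸ hyL)
    · have h5 := hEL y hyL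
      rw [hip y hy h4] at h5
      exact not_nonempty_empty h5
  have hjL : ∀ y ∈ B j ∩ Q, y ∉ L := by
    intro y hy hyL
    by_cases h4 : y = q
    · exact hqL (h4 ▸ hyL)
    · have h5 := hEL y hyL
      rw [hjq y hy h4] at h5
      exact not_nonempty_empty h5
  have ne1 : ∀ y, (Ez B L y).card = 1 → y ≠ p → y ∉ B i ∩ Q := by
    intro y hy hyp hyi
    rw [hip y hyi hyp, card_empty] at hy
    omega
  have ne2 : ∀ y, (Ez B L y).card = 1 → y ≠ q → y ∉ B j ∩ Q := by
    intro y hy hyp hyi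
    rw [hjq y hyi hyp, card_empty] at hy
    omega
  set Ti := (B i ∩ Q).erase p with hTi
  set Tj := (B j ∩ Q).erase q with hTj
  have cTi : Ti.card = 2 := by rw [hTi, card_erase_of_mem hp, hi]
  have cTj : Tj.card = 2 := by rw [hTj, card_erase_of_mem hq, hj]
  have mTi : ∀ y, y ∈ Ti ↔ y ≠ p ∧ y ∈ B i ∧ y ∈ Q := by
    intro y
    rw [hTi, mem_erase, mem_inter]
  have mTj : ∀ y, y ∈ Tj ↔ y ≠ q ∧ y ∈ B j ∧ y ∈ Q := by
    intro y
    rw [hTj, mem_erase, mem_inter]
  set N : ULift.{u} (Fin 3) → Finset V := fun c =>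
    if c.down = 0 then insert p' Ti else if c.down = 1 then insert q' Tj else {r} with hN
  have mN : ∀ (c : ULift.{u} (Fin 3)) (y : V), y ∈ N c ↔
      (c.down = 0 ∧ (y = p' ∨ y ∈ Ti)) ∨ (c.down = 1 ∧ (y = q' ∨ y ∈ Tj)) ∨
        (c.down = 2 ∧ y = r) := by
    rintro ⟨c⟩ y
    simp only [hN]
    fin_cases c <;> simp
  set Y : Finset V := (Ti ∪ Tj) ∪ {p', q', r} with hY
  have mY : ∀ y, y ∈ Y ↔ y ∈ Ti ∨ y ∈ Tj ∨ y = p' ∨ y = q' ∨ y = r := by
    intro y
    simp only [hY, mem_union, mem_insert, mem_singleton]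
    tauto
  set X : Finset V := {p, q} with hX
  have hXc : X.card = 2 := card_pair hpq
  have hTiE : ∀ y ∈ Ti, Ez B L y = ∅ := fun y hy =>
    hip y (mem_inter.2 ((mTi y).1 hy).2) ((mTi y).1 hy).1
  have hTjE : ∀ y ∈ Tj, Ez B L y = ∅ := fun y hy =>
    hjq y (mem_inter.2 ((mTj y).1 hy).2) ((mTj y).1 hy).1
  have hTij : ∀ y ∈ Ti, y ∉ B j := fun y hy h4 =>
    disjoint_left.1 hij (mem_inter.2 ((mTi y).1 hy).2) (mem_inter.2 ⟨h4, ((mTi y).1 hy).2.2⟩)
  have hTji : ∀ y ∈ Tj, y ∉ B i := fun y hy h4 =>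
    disjoint_right.1 hij (mem_inter.2 ((mTj y).1 hy).2) (mem_inter.2 ⟨h4, ((mTj y).1 hy).2.2⟩)
  have hd : ∀ y, (Ez B L y).card = 1 → y ∈ Q → y ≠ p → y ≠ q → y ∉ B i ∧ y ∉ B j := by
    intro y hy hyQ h4 h5
    exact ⟨fun h6 => ne1 y hy h4 (mem_inter.2 ⟨h6, hyQ⟩),
      fun h6 => ne2 y hy h5 (mem_inter.2 ⟨h6, hyQ⟩)⟩
  obtain ⟨hp'i, hp'j⟩ := hd p' h1 hp'Q n1.symm n4.symm
  obtain ⟨hq'i, hq'j⟩ := hd q' h2 hq'Q n2.symm n5.symm
  obtain ⟨hri, hrj⟩ := hd r h3 hrQ n3.symm n6.symm
  have hineqj : i ≠ j := by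
    rintro rfl
    exact disjoint_left.1 hij hp hp
  have hYQ : Y ⊆ Q := by
    intro y hy
    rcases (mY y).1 hy with h4 | h4 | rfl | rfl | rfl
    · exact ((mTi y).1 h4).2.2
    · exact ((mTj y).1 h4).2.2
    · exact hp'Q
    · exact hq'Q
    · exact hrQ
  have hXQ : X ⊆ Q := by
    intro y hy
    rw [hX, mem_insert, mem_singleton] at hy
    rcases hy with rfl | rfl
    · exact hpQ
    · exact hqQ
  have dLX : Disjoint L X := by
    rw [disjoint_right]
    intro y hy
    rw [hX, mem_insert, mem_singleton] at hy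
    rcases hy with rfl | rfl
    · exact hpL
    · exact hqL
  have dLY : Disjoint L Y := by
    rw [disjoint_right]
    intro y hy
    rcases (mY y).1 hy with h4 | h4 | rfl | rfl | rfl
    · exact hiL y (mem_inter.2 ((mTi y).1 h4).2)
    · exact hjL y (mem_inter.2 ((mTj y).1 h4).2)
    · exact hp'L
    · exact hq'L
    · exact hrL
  have dXY : Disjoint X Y := by
    rw [disjoint_right]
    intro y hy h4
    rw [hX, mem_insert, mem_singleton] at h4
    rcases (mY y).1 hy with h5 | h5 | h5 | h5 | h5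
    · rcases h4 with h6 | h6
      · exact ((mTi y).1 h5).1 h6
      · exact hTij y h5 (h6 ▸ hqj)
    · rcases h4 with h6 | h6
      · exact hTji y h5 (h6 ▸ hpi)
      · exact ((mTj y).1 h5).1 h6
    · rcases h4 with h6 | h6
      · exact n1 (h6.symm.trans h5)
      · exact n4 (h6.symm.trans h5)
    · rcases h4 with h6 | h6
      · exact n2 (h6.symm.trans h5)
      · exact n5 (h6.symm.trans h5)
    · rcases h4 with h6 | h6
      · exact n3 (h6.symm.trans h5)
      · exact n6 (h6.symm.trans h5)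
  have hcon : ∀ k, (B k ∩ L).Nonempty → B k ∩ Q ⊆ (L ∪ X) ∪ Y := by
    intro k hk y hy
    obtain ⟨hyk, hyQ⟩ := mem_inter.1 hy
    by_cases hyL : y ∈ L
    · exact mem_union_left _ (mem_union_left _ hyL)
    rcases hall y hyQ hyL ⟨k, mem_Ez.2 ⟨hyk, hk⟩⟩ with h4 | h4 | h4 | h4 | h4
    · exact mem_union_left _ (mem_union_right _ (by rw [h4, hX]; exact mem_insert_self _ _))
    · exact mem_union_left _ (mem_union_right _ (by rw [h4, hX]; simp))
    · exact mem_union_right _ ((mY y).2 (Or.inr (Or.inr (Or.inl h4))))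
    · exact mem_union_right _ ((mY y).2 (Or.inr (Or.inr (Or.inr (Or.inl h4)))))
    · exact mem_union_right _ ((mY y).2 (Or.inr (Or.inr (Or.inr (Or.inr h4)))))
  have hfull : ∀ k ∈ ({i, j} : Finset ι), B k ∩ Q ⊆ X ∪ Y ∧ (B k ∩ Q).card = 3 := by
    intro k hk
    rw [mem_insert, mem_singleton] at hk
    rcases hk with rfl | rfl
    · refine ⟨fun y hy => ?_, hi⟩
      by_cases h4 : y = p
      · exact mem_union_left _ (by rw [h4, hX]; exact mem_insert_self _ _)
      · exact mem_union_right _ ((mY y).2 (Or.inl ((mTi y).2 ⟨h4, mem_inter.1 hy⟩)))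
    · refine ⟨fun y hy => ?_, hj⟩
      by_cases h4 : y = q
      · exact mem_union_left _ (by rw [h4, hX]; simp)
      · exact mem_union_right _ ((mY y).2 (Or.inr (Or.inl ((mTj y).2 ⟨h4, mem_inter.1 hy⟩))))
  have hsub : ∀ c, N c ⊆ Y := by
    intro c y hy
    rw [mY]
    rcases (mN c y).1 hy with ⟨_, h4 | h4⟩ | ⟨_, h4 | h4⟩ | ⟨_, h4⟩
    · exact Or.inr (Or.inr (Or.inl h4))
    · exact Or.inl h4
    · exact Or.inr (Or.inr (Or.inr (Or.inl h4)))
    · exact Or.inr (Or.inl h4)
    · exact Or.inr (Or.inr (Or.inr (Or.inr h4)))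
  have hdeg : ∀ y ∈ Y, (univ.filter (fun c => y ∈ N c)).card =
      (univ.filter (fun k => y ∈ B k ∧ (B k ∩ L).Nonempty)).card +
      (({i, j} : Finset ι).filter (fun k => y ∈ B k)).card := by
    intro y hy
    have e1 : (univ.filter (fun c : ULift.{u} (Fin 3) => y ∈ N c)).card =
        (if (y = p' ∨ y ∈ Ti) then 1 else 0) + (if (y = q' ∨ y ∈ Tj) then 1 else 0) +
          (if y = r then 1 else 0) := by
      have h4 := fin3_card.{u} (fun c => (c = 0 ∧ (y = p' ∨ y ∈ Ti)) ∨
        (c = 1 ∧ (y = q' ∨ y ∈ Tj)) ∨ (c = 2 ∧ y = r))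
      rw [filter_congr (fun c _ => mN c y)]
      rw [h4]
      simp
    have e2 : (univ.filter (fun k => y ∈ B k ∧ (B k ∩ L).Nonempty)) = Ez B L y := rfl
    have e3 : (({i, j} : Finset ι).filter (fun k => y ∈ B k)).card =
        (if y ∈ B i then 1 else 0) + (if y ∈ B j then 1 else 0) := by
      rw [card_filter, sum_pair hineqj]
    rw [e1, e2, e3]
    have q1 : ∀ y ∈ Ti, y ∈ B i := fun y hy => ((mTi y).1 hy).2.1
    have q2 : ∀ y ∈ Tj, y ∈ B j := fun y hy => ((mTj y).1 hy).2.1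
    rcases (mY y).1 hy with h4 | h4 | h4 | h4 | h4
    · have g1 : y ≠ p' := fun h5 => hp'i (h5 ▸ q1 y h4)
      have g2 : y ≠ q' := fun h5 => hq'i (h5 ▸ q1 y h4)
      have g3 : y ≠ r := fun h5 => hri (h5 ▸ q1 y h4)
      have g4 : y ∉ Tj := fun h5 => hTij y h4 (q2 y h5)
      rw [hTiE y h4, if_pos (Or.inr h4), if_neg (fun h5 => h5.elim g2 g4), if_neg g3,
        if_pos (q1 y h4), if_neg (hTij y h4), card_empty]
    · have g1 : y ≠ p' := fun h5 => hp'j (h5 ▸ q2 y h4)
      have g2 : y ≠ q' := fun h5 => hq'j (h5 ▸ q2 y h4)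
      have g3 : y ≠ r := fun h5 => hrj (h5 ▸ q2 y h4)
      have g4 : y ∉ Ti := fun h5 => hTji y h4 (q1 y h5)
      rw [hTjE y h4, if_neg (fun h5 => h5.elim g1 g4), if_pos (Or.inr h4), if_neg g3,
        if_neg (hTji y h4), if_pos (q2 y h4), card_empty]
    · subst h4
      have g4 : y ∉ Ti := fun h5 => hp'i (q1 y h5)
      have g5 : y ∉ Tj := fun h5 => hp'j (q2 y h5)
      rw [h1, if_pos (Or.inl rfl), if_neg (fun h5 => h5.elim n7 g5), if_neg n8, if_neg hp'i,
        if_neg hp'j]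
    · subst h4
      have g4 : y ∉ Ti := fun h5 => hq'i (q1 y h5)
      have g5 : y ∉ Tj := fun h5 => hq'j (q2 y h5)
      rw [h2, if_neg (fun h5 => h5.elim n7.symm g4), if_pos (Or.inl rfl), if_neg n9, if_neg hq'i,
        if_neg hq'j]
    · subst h4
      have g4 : y ∉ Ti := fun h5 => hri (q1 y h5)
      have g5 : y ∉ Tj := fun h5 => hrj (q2 y h5)
      rw [h3, if_neg (fun h5 => h5.elim n8.symm g4), if_neg (fun h5 => h5.elim n9.symm g5),
        if_pos rfl, if_neg hri, if_neg hrj]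
  have hsize : ∀ c, (N c).card ≤ 3 := by
    rintro ⟨c⟩
    simp only [hN]
    fin_cases c
    · simp only [Fin.zero_eta, if_true]
      have := card_insert_le p' Ti
      omega
    · simp only [Fin.mk_one, one_ne_zero, if_false, if_true]
      have := card_insert_le q' Tj
      omega
    · simp
  -- the costs
  have hQc : ∀ {S : Finset V}, S ⊆ Q → Cov B S := fun hS => hcov.mono hS
  have hTiQ : Ti ⊆ Q := fun y hy => ((mTi y).1 hy).2.2
  have hTjQ : Tj ⊆ Q := fun y hy => ((mTj y).1 hy).2.2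
  have hcost : ∀ K : Finset (ULift.{u} (Fin 3)),
      rho B ((L ∪ X) ∪ K.biUnion N) ≤ rho B L + K.card := by
    intro K
    have hKc : K.card = (if ULift.up 0 ∈ K then 1 else 0) + (if ULift.up 1 ∈ K then 1 else 0) +
        (if ULift.up 2 ∈ K then 1 else 0) := by
      have h4 := fin3_card.{u} (fun c => ULift.up c ∈ K)
      rw [← h4]
      congr 1
      ext c
      simp
    -- the third block
    have key : ∀ S : Finset V, S ⊆ Q → (∀ y ∈ K.biUnion N, y ∈ S ∨ (ULift.up 2 ∈ K ∧ y = r)) →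
        L ∪ X ⊆ S → rho B ((L ∪ X) ∪ K.biUnion N) ≤
          rho B S + (if ULift.up 2 ∈ K then 1 else 0) := by
      intro S hS hK hLX
      by_cases h4 : ULift.up 2 ∈ K
      · rw [if_pos h4]
        obtain ⟨k, hk⟩ := card_pos.1 (by omega : 0 < (Ez B L r).card)
        refine le_trans (rho_mono ?_ (hQc (union_subset hS (singleton_subset_iff.2 hrQ))))
          (rho_union_block_le (hQc hS) (i := k) (A := {r})
            (singleton_subset_iff.2 (mem_Ez.1 hk).1))
        intro y hy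
        rcases mem_union.1 hy with h5 | h5
        · exact mem_union_left _ (hLX h5)
        · rcases hK y h5 with h6 | h6
          · exact mem_union_left _ h6
          · exact mem_union_right _ (mem_singleton.2 h6.2)
      · rw [if_neg h4, add_zero]
        refine rho_mono ?_ (hQc hS)
        intro y hy
        rcases mem_union.1 hy with h5 | h5
        · exact hLX h5
        · rcases hK y h5 with h6 | h6
          · exact h6
          · exact absurd h6.1 h4
    have hbi : ∀ y ∈ K.biUnion N, (ULift.up 0 ∈ K ∧ (y = p' ∨ y ∈ Ti)) ∨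
        (ULift.up 1 ∈ K ∧ (y = q' ∨ y ∈ Tj)) ∨ (ULift.up 2 ∈ K ∧ y = r) := by
      intro y hy
      obtain ⟨c, hc, hyc⟩ := mem_biUnion.1 hy
      rcases (mN c y).1 hyc with ⟨h4, h5⟩ | ⟨h4, h5⟩ | ⟨h4, h5⟩
      · exact Or.inl ⟨by rw [← h4]; exact hc, h5⟩
      · exact Or.inr (Or.inl ⟨by rw [← h4]; exact hc, h5⟩)
      · exact Or.inr (Or.inr ⟨by rw [← h4]; exact hc, h5⟩)
    have pairQ : ∀ {x y : V}, x ∈ Q → y ∈ Q → L ∪ {x, y} ⊆ Q := by
      intro x y hx hy
      refine union_subset hLQ ?_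
      intro z hz
      rw [mem_insert, mem_singleton] at hz
      rcases hz with rfl | rfl
      · exact hx
      · exact hy
    rw [hKc]
    by_cases k0 : ULift.up 0 ∈ K
    · by_cases k1 : ULift.up 1 ∈ K
      · rw [if_pos k0, if_pos k1]
        have h4 := key (((L ∪ {p', q'}) ∪ (B i ∩ Q)) ∪ (B j ∩ Q))
          (union_subset (union_subset (pairQ hp'Q hq'Q) inter_subset_right) inter_subset_right)
          (fun y hy => by
            rcases hbi y hy with ⟨_, h5 | h5⟩ | ⟨_, h5 | h5⟩ | h5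
            · exact Or.inl (mem_union_left _ (mem_union_left _ (mem_union_right _
                (by rw [h5]; exact mem_insert_self _ _))))
            · exact Or.inl (mem_union_left _ (mem_union_right _ (mem_inter.2 ((mTi y).1 h5).2)))
            · exact Or.inl (mem_union_left _ (mem_union_left _ (mem_union_right _
                (by rw [h5]; exact mem_insert_of_mem (mem_singleton_self _)))))
            · exact Or.inl (mem_union_right _ (mem_inter.2 ((mTj y).1 h5).2))
            · exact Or.inr h5)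
          (fun y hy => by
            rcases mem_union.1 hy with h5 | h5
            · exact mem_union_left _ (mem_union_left _ (mem_union_left _ h5))
            · rw [hX, mem_insert, mem_singleton] at h5
              rcases h5 with rfl | rfl
              · exact mem_union_left _ (mem_union_right _ hp)
              · exact mem_union_right _ hq)
        have h5 : rho B (((L ∪ {p', q'}) ∪ (B i ∩ Q)) ∪ (B j ∩ Q)) ≤
            rho B ((L ∪ {p', q'}) ∪ (B i ∩ Q)) + 1 :=
          rho_union_block_le (hQc (union_subset (pairQ hp'Q hq'Q) inter_subset_right))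
            inter_subset_left
        have h6 : rho B ((L ∪ {p', q'}) ∪ (B i ∩ Q)) ≤ rho B (L ∪ {p', q'}) + 1 :=
          rho_union_block_le (hQc (pairQ hp'Q hq'Q)) inter_subset_left
        omega
      · rw [if_pos k0, if_neg k1]
        have h4 := key ((L ∪ {q, p'}) ∪ (B i ∩ Q))
          (union_subset (pairQ hqQ hp'Q) inter_subset_right)
          (fun y hy => by
            rcases hbi y hy with ⟨_, h5 | h5⟩ | ⟨h5, _⟩ | h5
            · exact Or.inl (mem_union_left _ (mem_union_right _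
                (by rw [h5]; exact mem_insert_of_mem (mem_singleton_self _))))
            · exact Or.inl (mem_union_right _ (mem_inter.2 ((mTi y).1 h5).2))
            · exact absurd h5 k1
            · exact Or.inr h5)
          (fun y hy => by
            rcases mem_union.1 hy with h5 | h5
            · exact mem_union_left _ (mem_union_left _ h5)
            · rw [hX, mem_insert, mem_singleton] at h5
              rcases h5 with rfl | rfl
              · exact mem_union_right _ hp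
              · exact mem_union_left _ (mem_union_right _ (mem_insert_self _ _)))
        have h6 : rho B ((L ∪ {q, p'}) ∪ (B i ∩ Q)) ≤ rho B (L ∪ {q, p'}) + 1 :=
          rho_union_block_le (hQc (pairQ hqQ hp'Q)) inter_subset_left
        omega
    · by_cases k1 : ULift.up 1 ∈ K
      · rw [if_neg k0, if_pos k1]
        have h4 := key ((L ∪ {p, q'}) ∪ (B j ∩ Q))
          (union_subset (pairQ hpQ hq'Q) inter_subset_right)
          (fun y hy => by
            rcases hbi y hy with ⟨h5, _⟩ | ⟨_, h5 | h5⟩ | h5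
            · exact absurd h5 k0
            · exact Or.inl (mem_union_left _ (mem_union_right _
                (by rw [h5]; exact mem_insert_of_mem (mem_singleton_self _))))
            · exact Or.inl (mem_union_right _ (mem_inter.2 ((mTj y).1 h5).2))
            · exact Or.inr h5)
          (fun y hy => by
            rcases mem_union.1 hy with h5 | h5
            · exact mem_union_left _ (mem_union_left _ h5)
            · rw [hX, mem_insert, mem_singleton] at h5
              rcases h5 with rfl | rfl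
              · exact mem_union_left _ (mem_union_right _ (mem_insert_self _ _))
              · exact mem_union_right _ hq)
        have h6 : rho B ((L ∪ {p, q'}) ∪ (B j ∩ Q)) ≤ rho B (L ∪ {p, q'}) + 1 :=
          rho_union_block_le (hQc (pairQ hpQ hq'Q)) inter_subset_left
        omega
      · rw [if_neg k0, if_neg k1]
        have h4 := key (L ∪ X) (union_subset hLQ hXQ)
          (fun y hy => by
            rcases hbi y hy with ⟨h5, _⟩ | ⟨h5, _⟩ | h5
            · exact absurd h5 k0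
            · exact absurd h5 k1
            · exact Or.inr h5)
          (Subset.refl _)
        omega
  have hg : Gdl B Q L X Y {i, j} (Gdl.kp B L {i, j}) N :=
    Gdl.of_keep hv.reg hv.tr hLQ hXQ hYQ dLX dLY dXY hcon hfull hsub hdeg hsize hcost
  have hpart := hg.part_of_conn hLne (hv.conn_sdiff hXQ (by omega)) hg.keep_kp
  have hn : (Gdl.rm Q L X Y).card + Y.card < Q.card := by
    have h4 : Gdl.rm Q L X Y ∪ Y ⊂ Q := by
      refine ⟨union_subset sdiff_subset hYQ, fun h5 => ?_⟩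
      obtain ⟨l, hl⟩ := hLne
      rcases mem_union.1 (h5 (hLQ hl)) with h6 | h6
      · exact (Gdl.mem_rm.1 h6).2.1 hl
      · exact disjoint_left.1 dLY hl h6
    have h5 := card_lt_card h4
    rwa [card_union_of_disjoint hg.wir.dis] at h5
  have hfin := (hg.parts hv.ih hv.ihr hn hpart (fun y hy => by
    rcases (mY y).1 hy with h4 | h4 | h4 | h4 | h4
    · exact ⟨ULift.up 0, (mN _ _).2 (Or.inl ⟨rfl, Or.inr h4⟩)⟩
    · exact ⟨ULift.up 1, (mN _ _).2 (Or.inr (Or.inl ⟨rfl, Or.inr h4⟩))⟩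
    · exact ⟨ULift.up 0, (mN _ _).2 (Or.inl ⟨rfl, Or.inl h4⟩)⟩
    · exact ⟨ULift.up 1, (mN _ _).2 (Or.inr (Or.inl ⟨rfl, Or.inl h4⟩))⟩
    · exact ⟨ULift.up 2, (mN _ _).2 (Or.inr (Or.inr ⟨rfl, h4⟩))⟩)).1
  have hcI : (({i, j} : Finset ι).card : ℤ) = 2 := by
    rw [card_pair hineqj]
    norm_num
  have hck : (Fintype.card (ULift.{u} (Fin 3)) : ℤ) = 3 := by simp
  have ha : (univ.filter (fun c => (N c).card = 3)).card ≤ 2 := by
    have h4 : (univ.filter (fun c => (N c).card = 3)) ⊆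
        ({ULift.up 0, ULift.up 1} : Finset (ULift.{u} (Fin 3))) := by
      intro c hc
      have h5 := (mem_filter.1 hc).2
      obtain ⟨c⟩ := c
      simp only [hN] at h5
      fin_cases c
      · simp
      · simp
      · simp at h5
    exact (card_le_card h4).trans card_le_two
  have h4 := hv.neg
  have h5 : (0 : ℤ) ≤ ((Gdl.lost B Q L X Y {i, j} (Gdl.kp B L {i, j})).card : ℤ) := by positivity
  rw [hcI, hck, hXc] at hfin
  push_cast at hfin
  omega

/-- **two contact points absorbed together**: the rest cannot meet at most two blocks of `L`. -/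
theorem ViolR.lb2 {Q L : Finset V} (hv : ViolR B Q) (hLQ : L ⊆ Q) (hL3 : L.card = 3)
    (hcm : cm B L = 8) (heL : ee B Q L = 0) {x y : V} (hxQ : x ∈ Q) (hyQ : y ∈ Q)
    (hxL : x ∉ L) (hyL : y ∉ L) (hxy : x ≠ y) (hex : ee B Q {x, y} = 0)
    (hab : rho B (L ∪ {x, y}) ≤ 2)
    {S : Finset ι} (hS : ∀ i, (B i ∩ L).Nonempty → (B i ∩ (Q \ (L ∪ {x, y}))).Nonempty → i ∈ S)
    (hSc : S.card ≤ 2) : False := by
  classical
  set W : Finset V := L ∪ {x, y} with hW
  have hWQ : W ⊆ Q := by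
    refine union_subset hLQ ?_
    intro z hz
    rw [mem_insert, mem_singleton] at hz
    rcases hz with rfl | rfl
    · exact hxQ
    · exact hyQ
  have hdLX : Disjoint L {x, y} := by
    rw [disjoint_right]
    intro z hz
    rw [mem_insert, mem_singleton] at hz
    rcases hz with rfl | rfl
    · exact hxL
    · exact hyL
  have hWc : W.card = 5 := by
    rw [hW, card_union_of_disjoint hdLX, hL3, card_pair hxy]
  have hWe : ee B Q W = 0 := by
    rw [hW, ee_union hdLX, heL, hex]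
  have hcov := hv.cov
  obtain ⟨Ks, hK1, hK2, hK3⟩ := exists_parts B (Q \ W)
  have h1 := hv.lemB hWQ (card_pos.1 (by omega)) hK1 hK2 hK3
  rw [hWc, hWe] at h1
  -- the blocks inside
  have hins : 8 ≤ (ins B Q W).card + S.card := by
    have h2 : tch B L ⊆ ins B Q W ∪ S := by
      intro i hi
      have hi' := cost_mem_tch.1 hi
      by_cases h3 : (B i ∩ (Q \ W)).Nonempty
      · exact mem_union_right _ (hS i hi' h3)
      · refine mem_union_left _ (mem_ins.2 ⟨hi'.mono (inter_subset_inter_left hLQ), ?_⟩)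
        intro z hz
        by_contra hzW
        exact h3 ⟨z, mem_inter.2 ⟨(mem_inter.1 hz).1, mem_sdiff.2 ⟨(mem_inter.1 hz).2, hzW⟩⟩⟩
    have h3 := (card_le_card h2).trans (card_union_le _ _)
    have h4 : (tch B L).card = 8 := hcm
    omega
  -- the drop of the cover number
  have hdrop : rho B Q ≤ rho B (Q \ W) + 2 := by
    have h2 : rho B Q ≤ rho B (Q \ W) + rho B W := by
      refine le_trans (rho_mono ?_ ?_) (rho_union_le (hcov.mono sdiff_subset) (hcov.mono hWQ))
      · intro z hz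
        by_cases h3 : z ∈ W
        · exact mem_union_right _ h3
        · exact mem_union_left _ (mem_sdiff.2 ⟨hz, h3⟩)
      · exact hcov.mono (union_subset sdiff_subset hWQ)
    omega
  -- the parts meet the blocks of `S`
  have hconn := hv.conn_sdiff (X := {x, y}) (by
    intro z hz
    exact hWQ (mem_union_right _ hz)) card_le_two
  have hpm : ∀ D ∈ Ks, ∃ i ∈ S, (B i ∩ D).Nonempty := by
    intro D hD
    obtain ⟨hD1, hD2, hD3⟩ := hK1 D hD
    by_contra hcon
    push Not at hcon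
    have hDX : D ⊆ Q \ {x, y} := fun z hz => by
      obtain ⟨h2, h3⟩ := mem_sdiff.1 (hD1 hz)
      exact mem_sdiff.2 ⟨h2, fun h4 => h3 (mem_union_right _ h4)⟩
    have hcl : Closed (gr B) (Q \ {x, y}) D := by
      refine ⟨hDX, fun z hz w hw hzw => ?_⟩
      by_cases hwL : w ∈ L
      · exfalso
        obtain ⟨_, i, hi1, hi2⟩ := hzw
        have h2 := hS i ⟨w, mem_inter.2 ⟨hi2, hwL⟩⟩ ⟨z, mem_inter.2 ⟨hi1, hD1 hz⟩⟩
        have h3 := hcon i h2
        have h4 : z ∈ B i ∩ D := mem_inter.2 ⟨hi1, hz⟩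
        rw [h3] at h4
        exact notMem_empty _ h4
      · refine hD2.2 z hz w (mem_sdiff.2 ⟨(mem_sdiff.1 hw).1, fun h4 => ?_⟩) hzw
        rcases mem_union.1 h4 with h5 | h5
        · exact hwL h5
        · exact (mem_sdiff.1 hw).2 h5
    have h2 := hconn.2 D hcl hD3.1
    obtain ⟨l, hl⟩ := card_pos.1 (by omega : 0 < L.card)
    have h3 : l ∈ Q \ {x, y} := mem_sdiff.2 ⟨hLQ hl, fun h4 => disjoint_left.1 hdLX hl h4⟩
    rw [← h2] at h3
    exact (mem_sdiff.1 (hD1 h3)).2 (mem_union_left _ hl)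
  have hKc : Ks.card ≤ 2 := by
    rcases Ks.eq_empty_or_nonempty with rfl | ⟨D0, hD0⟩
    · simp
    obtain ⟨i0, _⟩ := hpm D0 hD0
    have : Nonempty ι := ⟨i0⟩
    choose! f hf using hpm
    have hinj : Set.InjOn f (Ks : Set (Finset V)) := by
      intro D hD D' hD' hDD
      by_contra hne
      obtain ⟨_, h2⟩ := hf D hD
      obtain ⟨_, h3⟩ := hf D' hD'
      exact (hK2 D hD D' hD' hne).2 (f D) h2 (by rw [hDD]; exact h3)
    refine le_trans ?_ hSc
    rw [← card_image_of_injOn hinj]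
    refine card_le_card fun i hi => ?_
    obtain ⟨D, hD, rfl⟩ := mem_image.1 hi
    exact (hf D hD).1
  have h2 : (Ks.filter (fun D => sv B D ≤ -1)).card ≤ Ks.card := card_filter_le _ _
  have h3 : (rho B (Q \ W) : ℤ) + 2 = rho B Q := by omega
  have h4 : (Ks.filter (fun D => sv B D ≤ -1)).card = 2 := by omega
  -- all parts are negative
  have h5 : Ks.filter (fun D => sv B D ≤ -1) = Ks :=
    eq_of_subset_of_card_le (filter_subset _ _) (by omega)
  have h6 : sv B (Q \ W) = ∑ D ∈ Ks, sv B D := by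
    rw [← hK3]
    exact sv_biUnion (fun D hD => hcov.mono ((hK1 D hD).1.trans sdiff_subset)) hK2
  have h7 : ∑ D ∈ Ks, sv B D ≤ ∑ D ∈ Ks, (-1 : ℤ) := sum_le_sum fun D hD => by
    rw [← h5] at hD
    exact (mem_filter.1 hD).2
  rw [sum_const, nsmul_eq_mul] at h7
  have h8 : (Ks.card : ℤ) = 2 := by
    rw [← h5, h4]
    norm_num
  have h9 : (Q \ W).card + 5 = Q.card := by
    rw [← hWc, card_sdiff_add_card_eq_card hWQ]
  have h10 := hv.sv1
  have h11 : sv B (Q \ W) ≤ -2 := by
    rw [h6]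
    linarith
  unfold sv at h10 h11
  omega

/-- the blocks through two points. -/
def bl (B : ι → Finset V) (x y : V) : Finset ι := univ.filter (fun i => x ∈ B i ∧ y ∈ B i)

theorem mem_bl {x y : V} {i : ι} : i ∈ bl B x y ↔ x ∈ B i ∧ y ∈ B i := by simp [bl]

/-- the structure of a set with three points, eight blocks and cover number two. -/
structure T31 (B : ι → Finset V) (L : Finset V) (a b c : V) (s : ι) : Prop where
  eq : L = {a, b, c}
  ab : a ≠ b
  ac : a ≠ c
  bc : b ≠ c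
  cA : (bl B b c).card = 3
  cB : (bl B a b).card = 2
  cC : (bl B a c).card = 2
  tr : B s ∩ L = {a}
  cov : ∀ i, (B i ∩ L).Nonempty → i ∈ bl B b c ∨ i ∈ bl B a b ∨ i ∈ bl B a c ∨ i = s
  two : ∀ i, (B i ∩ L).card ≤ 2

theorem exists_t31 {L : Finset V} (hr : Reg B L) (h3 : Tr3 B L) (hc : L.card = 3)
    (hcm : cm B L = 8) (hrho : rho B L = 2) : ∃ a b c s, T31 B L a b c s := by
  classical
  have h1 := cm_eq3 h3
  have h2 := inc_eq3 hr h3
  have hno : ∀ i, ¬ L ⊆ B i := by
    intro i hi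
    have := rho_le_one hi
    omega
  have hn3 : nt B L 3 = 0 := by
    unfold nt
    rw [card_eq_zero]
    by_contra hne
    obtain ⟨i, hi⟩ := nonempty_iff_ne_empty.2 hne
    have h4 := (mem_filter.1 hi).2
    have h5 : B i ∩ L = L := eq_of_subset_of_card_le inter_subset_right (by omega)
    exact hno i (by rw [← h5]; exact inter_subset_left)
  have htwo : ∀ i, (B i ∩ L).card ≤ 2 := by
    intro i
    have h4 := h3 i
    by_contra h5
    have h6 : i ∈ trs B L 3 := mem_filter.2 ⟨mem_univ _, by omega⟩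
    have h7 : 0 < nt B L 3 := card_pos.2 ⟨i, h6⟩
    omega
  rw [hcm] at h1
  rw [hc] at h2
  have hn1 : nt B L 1 = 1 := by omega
  obtain ⟨s, hs⟩ := card_eq_one.1 hn1
  have hs1 : (B s ∩ L).card = 1 := by
    have h4 : s ∈ trs B L 1 := by
      rw [hs]
      exact mem_singleton_self s
    exact (mem_filter.1 h4).2
  have hs2 : ∀ i, (B i ∩ L).card = 1 → i = s := by
    intro i hi
    have h4 : i ∈ trs B L 1 := mem_filter.2 ⟨mem_univ _, hi⟩
    rw [hs] at h4
    exact mem_singleton.1 h4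
  obtain ⟨a, ha⟩ := card_eq_one.1 hs1
  have haL : a ∈ L := by
    have h4 : a ∈ B s ∩ L := by
      rw [ha]
      exact mem_singleton_self a
    exact (mem_inter.1 h4).2
  have has : a ∈ B s := by
    have h4 : a ∈ B s ∩ L := by
      rw [ha]
      exact mem_singleton_self a
    exact (mem_inter.1 h4).1
  obtain ⟨b, c, hbc, hbc'⟩ := card_eq_two.1 (by rw [card_erase_of_mem haL, hc] :
    (L.erase a).card = 2)
  have hb : b ∈ L.erase a := by
    rw [hbc']
    exact mem_insert_self _ _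
  have hcc : c ∈ L.erase a := by
    rw [hbc']
    simp
  have hab : a ≠ b := (mem_erase.1 hb).1.symm
  have hac : a ≠ c := (mem_erase.1 hcc).1.symm
  have hL : L = {a, b, c} := by
    rw [← insert_erase haL, hbc']
  have hbL := (mem_erase.1 hb).2
  have hcL := (mem_erase.1 hcc).2
  have mL : ∀ v, v ∈ L ↔ v = a ∨ v = b ∨ v = c := by
    intro v
    rw [hL, mem_insert, mem_insert, mem_singleton]
  -- three points of one block
  have hnot3 : ∀ i, a ∈ B i → b ∈ B i → c ∉ B i := by
    intro i h4 h5 h6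
    refine hno i fun v hv => ?_
    rcases (mL v).1 hv with rfl | rfl | rfl <;> assumption
  have hpair : ∀ i v, v ∈ L → v ∈ B i → i ≠ s → ∃ w ∈ L, w ≠ v ∧ w ∈ B i := by
    intro i v hv hvi his
    by_contra hcon
    push Not at hcon
    refine his (hs2 i (card_eq_one.2 ⟨v, ?_⟩))
    ext w
    rw [mem_inter, mem_singleton]
    constructor
    · rintro ⟨h4, h5⟩
      by_contra h6
      exact hcon w h5 h6 h4
    · rintro rfl
      exact ⟨hvi, hv⟩
  have hbs : b ∉ B s := by
    intro h4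
    have h5 : b ∈ B s ∩ L := mem_inter.2 ⟨h4, hbL⟩
    rw [ha, mem_singleton] at h5
    exact hab h5.symm
  have hcs : c ∉ B s := by
    intro h4
    have h5 : c ∈ B s ∩ L := mem_inter.2 ⟨h4, hcL⟩
    rw [ha, mem_singleton] at h5
    exact hac h5.symm
  -- degrees
  have dB : (bl B a b).card + (bl B b c).card = 5 := by
    rw [← hr b hbL, ← card_union_of_disjoint]
    · congr 1
      ext i
      rw [mem_union, mem_bl, mem_bl, mem_filter]
      constructor
      · rintro (h4 | h4)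
        · exact ⟨mem_univ _, h4.2⟩
        · exact ⟨mem_univ _, h4.1⟩
      · rintro ⟨_, h4⟩
        obtain ⟨w, hw, hwb, hwi⟩ := hpair i b hbL h4 (fun h5 => hbs (h5 ▸ h4))
        rcases (mL w).1 hw with rfl | rfl | rfl
        · exact Or.inl ⟨hwi, h4⟩
        · exact absurd rfl hwb
        · exact Or.inr ⟨h4, hwi⟩
    · rw [disjoint_left]
      intro i h4 h5
      exact hnot3 i (mem_bl.1 h4).1 (mem_bl.1 h4).2 (mem_bl.1 h5).2
  have dC : (bl B a c).card + (bl B b c).card = 5 := by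
    rw [← hr c hcL, ← card_union_of_disjoint]
    · congr 1
      ext i
      rw [mem_union, mem_bl, mem_bl, mem_filter]
      constructor
      · rintro (h4 | h4)
        · exact ⟨mem_univ _, h4.2⟩
        · exact ⟨mem_univ _, h4.2⟩
      · rintro ⟨_, h4⟩
        obtain ⟨w, hw, hwb, hwi⟩ := hpair i c hcL h4 (fun h5 => hcs (h5 ▸ h4))
        rcases (mL w).1 hw with rfl | rfl | rfl
        · exact Or.inl ⟨hwi, h4⟩
        · exact Or.inr ⟨hwi, h4⟩
        · exact absurd rfl hwb
    · rw [disjoint_left]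
      intro i h4 h5
      exact hnot3 i (mem_bl.1 h4).1 (mem_bl.1 h5).1 (mem_bl.1 h4).2
  have dA : (bl B a b).card + (bl B a c).card + 1 = 5 := by
    have h4 : (univ.filter (fun i => a ∈ B i)) = (bl B a b ∪ bl B a c) ∪ {s} := by
      ext i
      rw [mem_union, mem_union, mem_bl, mem_bl, mem_filter, mem_singleton]
      constructor
      · rintro ⟨_, h4⟩
        by_cases his : i = s
        · exact Or.inr his
        obtain ⟨w, hw, hwb, hwi⟩ := hpair i a haL h4 his
        rcases (mL w).1 hw with rfl | rfl | rfl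
        · exact absurd rfl hwb
        · exact Or.inl (Or.inl ⟨h4, hwi⟩)
        · exact Or.inl (Or.inr ⟨h4, hwi⟩)
      · rintro ((h4 | h4) | rfl)
        · exact ⟨mem_univ _, h4.1⟩
        · exact ⟨mem_univ _, h4.1⟩
        · exact ⟨mem_univ _, has⟩
    have h5 := hr a haL
    rw [h4, card_union_of_disjoint, card_union_of_disjoint, card_singleton] at h5
    · exact h5
    · rw [disjoint_left]
      intro i h6 h7
      exact hnot3 i (mem_bl.1 h6).1 (mem_bl.1 h6).2 (mem_bl.1 h7).2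
    · rw [disjoint_singleton_right, mem_union, mem_bl, mem_bl]
      rintro (h6 | h6)
      · exact hbs h6.2
      · exact hcs h6.2
  refine ⟨a, b, c, s, hL, hab, hac, hbc, by omega, by omega, by omega, ha, ?_, htwo⟩
  intro i hi
  by_cases his : i = s
  · exact Or.inr (Or.inr (Or.inr his))
  obtain ⟨v, hv⟩ := hi
  obtain ⟨hvi, hvL⟩ := mem_inter.1 hv
  obtain ⟨w, hw, hwv, hwi⟩ := hpair i v hvL hvi his
  rw [mem_bl, mem_bl, mem_bl]
  rcases (mL v).1 hvL with rfl | rfl | rfl
  · rcases (mL w).1 hw with rfl | rfl | rfl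
    · exact absurd rfl hwv
    · exact Or.inr (Or.inl ⟨hvi, hwi⟩)
    · exact Or.inr (Or.inr (Or.inl ⟨hvi, hwi⟩))
  · rcases (mL w).1 hw with rfl | rfl | rfl
    · exact Or.inr (Or.inl ⟨hwi, hvi⟩)
    · exact absurd rfl hwv
    · exact Or.inl ⟨hvi, hwi⟩
  · rcases (mL w).1 hw with rfl | rfl | rfl
    · exact Or.inr (Or.inr (Or.inl ⟨hwi, hvi⟩))
    · exact Or.inl ⟨hwi, hvi⟩
    · exact absurd rfl hwv

/-- the hits on `L`. -/
def hs (B : ι → Finset V) (Q L : Finset V) : Finset (ι × V) :=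
  (univ ×ˢ (Q \ L)).filter (fun p => p.2 ∈ B p.1 ∧ (B p.1 ∩ L).Nonempty)

theorem mem_hs {Q L : Finset V} {p : ι × V} :
    p ∈ hs B Q L ↔ p.2 ∈ Q ∧ p.2 ∉ L ∧ p.2 ∈ B p.1 ∧ (B p.1 ∩ L).Nonempty := by
  unfold hs
  rw [mem_filter, mem_product, mem_sdiff]
  simp only [mem_univ, true_and]
  tauto

theorem hs_fiber {Q L : Finset V} {y : V} (hy : y ∈ Q) (hyL : y ∉ L) :
    ((hs B Q L).filter (fun p => p.2 = y)).card = (Ez B L y).card := by
  classical
  have h1 : (hs B Q L).filter (fun p => p.2 = y) = (Ez B L y) ×ˢ {y} := by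
    ext ⟨i, v⟩
    rw [mem_filter, mem_hs, mem_product, mem_Ez, mem_singleton]
    constructor
    · rintro ⟨⟨_, _, h3, h4⟩, h5⟩
      simp only at h3 h5
      subst h5
      exact ⟨⟨h3, h4⟩, rfl⟩
    · rintro ⟨⟨h3, h4⟩, h5⟩
      simp only at h3 h4 h5
      subst h5
      exact ⟨⟨hy, hyL, h3, h4⟩, rfl⟩
  rw [h1, card_product, card_singleton, mul_one]

theorem hs_card (B : ι → Finset V) (Q L : Finset V) : (hs B Q L).card = hit B (Q \ L) L := by
  classical
  rw [hit_eq_Ez, card_eq_sum_card_fiberwise (f := Prod.snd) (t := Q \ L)]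
  · refine sum_congr rfl fun y hy => ?_
    obtain ⟨h1, h2⟩ := mem_sdiff.1 hy
    exact hs_fiber h1 h2
  · intro p hp
    have h1 := mem_hs.1 hp
    exact mem_sdiff.2 ⟨h1.1, h1.2.1⟩

theorem hs_out {Q L T : Finset V} :
    hit B ((Q \ T) \ L) L = ((hs B Q L).filter (fun p => p.2 ∉ T)).card := by
  classical
  rw [hit_eq_Ez, card_eq_sum_card_fiberwise (f := Prod.snd) (t := (Q \ T) \ L)]
  · refine sum_congr rfl fun y hy => ?_
    obtain ⟨h1, h2⟩ := mem_sdiff.1 hy
    obtain ⟨h3, h4⟩ := mem_sdiff.1 h1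
    rw [← hs_fiber h3 h2, filter_filter]
    congr 1
    ext p
    rw [mem_filter, mem_filter]
    constructor
    · rintro ⟨h5, h6⟩
      exact ⟨h5, by rw [h6]; exact h4, h6⟩
    · rintro ⟨h5, _, h6⟩
      exact ⟨h5, h6⟩
  · intro p hp
    obtain ⟨h1, h2⟩ := mem_filter.1 hp
    have h3 := mem_hs.1 h1
    exact mem_sdiff.2 ⟨mem_sdiff.2 ⟨h3.1, h2⟩, h3.2.1⟩

open Classical in
/-- the four classes of the hits on a set of type (3;1). -/
theorem T31.bounds {Q L : Finset V} {a b c : V} {s : ι} (h : T31 B L a b c s) (h3 : Tr3 B Q)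
    (hLQ : L ⊆ Q) :
    ((hs B Q L).filter (fun p => p.1 ∈ bl B b c)).card ≤ 3 ∧
    ((hs B Q L).filter (fun p => p.1 ∈ bl B a b)).card ≤ 2 ∧
    ((hs B Q L).filter (fun p => p.1 ∈ bl B a c)).card ≤ 2 ∧
    ((hs B Q L).filter (fun p => p.1 = s)).card ≤ 2 := by
  have mL : ∀ v, v ∈ L ↔ v = a ∨ v = b ∨ v = c := by
    intro v
    rw [h.eq, mem_insert, mem_insert, mem_singleton]
  have key : ∀ x ∈ L, ∀ y ∈ L, x ≠ y →
      ((hs B Q L).filter (fun p => p.1 ∈ bl B x y)).card ≤ (bl B x y).card := by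
    intro x hx y hy hxy
    refine card_le_card_of_injOn Prod.fst (fun p hp => (mem_filter.1 hp).2) ?_
    intro p hp r hr hpr
    obtain ⟨hp1, hp2⟩ := mem_filter.1 (mem_coe.1 hp)
    obtain ⟨hr1, hr2⟩ := mem_filter.1 (mem_coe.1 hr)
    have h4 := mem_hs.1 hp1
    have h5 := mem_hs.1 hr1
    have h6 := mem_bl.1 hp2
    by_contra hne
    have h7 : p.2 ≠ r.2 := fun h8 => hne (Prod.ext hpr h8)
    have hpr' : p.1 = r.1 := hpr
    have h8 : ({x, y, p.2, r.2} : Finset V) ⊆ B p.1 ∩ Q := by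
      intro z hz
      simp only [mem_insert, mem_singleton] at hz
      rcases hz with rfl | rfl | rfl | rfl
      · exact mem_inter.2 ⟨h6.1, hLQ hx⟩
      · exact mem_inter.2 ⟨h6.2, hLQ hy⟩
      · exact mem_inter.2 ⟨h4.2.2.1, h4.1⟩
      · exact mem_inter.2 ⟨by rw [hpr']; exact h5.2.2.1, h5.1⟩
    have h9 := card_le_card h8
    have h10 := h3 p.1
    have h11 : ({x, y, p.2, r.2} : Finset V).card = 4 := by
      rw [card_insert_of_notMem, card_insert_of_notMem, card_pair h7]
      · rw [mem_insert, mem_singleton]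
        rintro (h12 | h12)
        · exact h4.2.1 (h12 ▸ hy)
        · exact h5.2.1 (h12 ▸ hy)
      · rw [mem_insert, mem_insert, mem_singleton]
        rintro (h12 | h12 | h12)
        · exact hxy h12
        · exact h4.2.1 (h12 ▸ hx)
        · exact h5.2.1 (h12 ▸ hx)
    omega
  have haL : a ∈ L := (mL a).2 (Or.inl rfl)
  have hbL : b ∈ L := (mL b).2 (Or.inr (Or.inl rfl))
  have hcL : c ∈ L := (mL c).2 (Or.inr (Or.inr rfl))
  refine ⟨(key b hbL c hcL h.bc).trans h.cA.le, (key a haL b hbL h.ab).trans h.cB.le,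
    (key a haL c hcL h.ac).trans h.cC.le, ?_⟩
  have has : a ∈ B s := by
    have h4 : a ∈ B s ∩ L := by
      rw [h.tr]
      exact mem_singleton_self a
    exact (mem_inter.1 h4).1
  have h4 : ((B s ∩ Q).erase a).card ≤ 2 := by
    have h5 := h3 s
    have h6 := card_erase_add_one (mem_inter.2 ⟨has, hLQ haL⟩)
    omega
  refine le_trans (card_le_card_of_injOn Prod.snd (t := (B s ∩ Q).erase a) ?_ ?_) h4
  · intro p hp
    obtain ⟨hp1, hp2⟩ := mem_filter.1 (mem_coe.1 hp)
    have h5 := mem_hs.1 hp1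
    rw [mem_coe, mem_erase, mem_inter]
    exact ⟨fun h6 => h5.2.1 (h6 ▸ haL), by rw [← hp2]; exact h5.2.2.1, h5.1⟩
  · intro p hp r hr hpr
    obtain ⟨_, hp2⟩ := mem_filter.1 (mem_coe.1 hp)
    obtain ⟨_, hr2⟩ := mem_filter.1 (mem_coe.1 hr)
    exact Prod.ext (hp2.trans hr2.symm) hpr

/-- **six hits**: a set of type (3;1) whose contact points lie in own full blocks has at least six hits. -/
theorem ViolR.six {Q L : Finset V} (hv : ViolR B Q) (hLQ : L ⊆ Q) (hL3 : L.card = 3)
    (hcm : cm B L = 8) (hrho : rho B L = 2) (hcr : Crit B L) {τ : V → ι}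
    (hτ : ∀ v ∈ Q, v ∉ L → (Ez B L v).Nonempty → (B (τ v) ∩ Q).card = 3 ∧ v ∈ B (τ v) ∧
      ∀ y ∈ B (τ v) ∩ Q, y ≠ v → Ez B L y = ∅)
    (hd : ∀ v ∈ Q, v ∉ L → (Ez B L v).Nonempty → ∀ w ∈ Q, w ∉ L → (Ez B L w).Nonempty →
      v ≠ w → Disjoint (B (τ v) ∩ Q) (B (τ w) ∩ Q)) :
    6 ≤ hit B (Q \ L) L := by
  classical
  obtain ⟨a, b, c, s, h⟩ := exists_t31 (hv.reg.mono hLQ) (hv.tr.mono hLQ) hL3 hcm hrho
  have mL : ∀ v, v ∈ L ↔ v = a ∨ v = b ∨ v = c := by
    intro v
    rw [h.eq, mem_insert, mem_insert, mem_singleton]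
  have haL : a ∈ L := (mL a).2 (Or.inl rfl)
  have hLne : L.Nonempty := ⟨a, haL⟩
  have has : a ∈ B s := by
    have h4 : a ∈ B s ∩ L := by
      rw [h.tr]
      exact mem_singleton_self a
    exact (mem_inter.1 h4).1
  have hsL : sv B L = -1 := by
    unfold sv
    rw [hL3, hrho]
    norm_num
  have heL : ee B Q L = 0 := by
    have h1 := two_ee_le (B := B) Q L
    have h2 : (ins B Q L).filter (fun i => (B i ∩ Q).card = 1) ⊆ {s} := by
      intro i hi
      obtain ⟨h3, h4⟩ := mem_filter.1 hi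
      have h5 := (mem_ins.1 h3)
      rw [mem_singleton]
      obtain ⟨z, hz⟩ := h5.1
      have h6 : (B i ∩ L).Nonempty := ⟨z, mem_inter.2 ⟨(mem_inter.1 hz).1, h5.2 hz⟩⟩
      have key : ∀ x y, x ∈ L → y ∈ L → x ≠ y → i ∉ bl B x y := by
        intro x y hx hy hxy h7
        obtain ⟨h8, h9⟩ := mem_bl.1 h7
        have h10 := (card_le_one (s := B i ∩ Q)).1 h4.le x (mem_inter.2 ⟨h8, hLQ hx⟩) y
          (mem_inter.2 ⟨h9, hLQ hy⟩)
        exact hxy h10
      rcases h.cov i h6 with h7 | h7 | h7 | h7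
      · exact absurd h7 (key b c ((mL b).2 (by simp)) ((mL c).2 (by simp)) h.bc)
      · exact absurd h7 (key a b haL ((mL b).2 (by simp)) h.ab)
      · exact absurd h7 (key a c haL ((mL c).2 (by simp)) h.ac)
      · exact h7
    have h3 := card_le_card h2
    rw [card_singleton] at h3
    omega
  have hdv : dv B Q L = -1 := by
    have h1 := Pv_eq (B := B) L
    rw [hL3, hcm, hrho] at h1
    unfold dv
    rw [h1, heL]
    norm_num
  set H := hs B Q L with hH
  have mem := fun {p : ι × V} => mem_hs (B := B) (Q := Q) (L := L) (p := p)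
  obtain ⟨bA, bB, bC, bS⟩ := h.bounds hv.tr hLQ
  rw [← hH] at bA bB bC bS
  set HA := H.filter (fun p => p.1 ∈ bl B b c) with hHA
  set HB := H.filter (fun p => p.1 ∈ bl B a b) with hHB
  set HC := H.filter (fun p => p.1 ∈ bl B a c) with hHC
  set HS := H.filter (fun p => p.1 = s) with hHS
  have hcov4 : ∀ p ∈ H, p ∈ HA ∨ p ∈ HB ∨ p ∈ HC ∨ p ∈ HS := by
    intro p hp
    rcases h.cov p.1 (mem.1 hp).2.2.2 with h1 | h1 | h1 | h1
    · exact Or.inl (mem_filter.2 ⟨hp, h1⟩)
    · exact Or.inr (Or.inl (mem_filter.2 ⟨hp, h1⟩))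
    · exact Or.inr (Or.inr (Or.inl (mem_filter.2 ⟨hp, h1⟩)))
    · exact Or.inr (Or.inr (Or.inr (mem_filter.2 ⟨hp, h1⟩)))
  have hsum4 : H.card ≤ HA.card + HB.card + HC.card + HS.card := by
    have h1 : H ⊆ ((HA ∪ HB) ∪ HC) ∪ HS := by
      intro p hp
      simp only [mem_union]
      rcases hcov4 p hp with h1 | h1 | h1 | h1
      · exact Or.inl (Or.inl (Or.inl h1))
      · exact Or.inl (Or.inl (Or.inr h1))
      · exact Or.inl (Or.inr h1)
      · exact Or.inr h1
    have h2 := card_le_card h1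
    have h3 := card_union_le ((HA ∪ HB) ∪ HC) HS
    have h4 := card_union_le (HA ∪ HB) HC
    have h5 := card_union_le HA HB
    omega
  -- absorption
  have hpc : ∀ v w : V, L ∪ {v, w} = L ∪ {w, v} := fun v w => by rw [pair_comm]
  have f1 : ∀ p ∈ HA, ∀ r ∈ H, r ∉ HA → rho B (L ∪ {p.2, r.2}) ≤ 2 := by
    intro p hp r hr hrA
    obtain ⟨hp1, hp2⟩ := mem_filter.1 hp
    have h1 := mem_bl.1 hp2
    have h2 : a ∈ B r.1 := by
      rcases hcov4 r hr with h3 | h3 | h3 | h3
      · exact absurd h3 hrA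
      · exact (mem_bl.1 (mem_filter.1 h3).2).1
      · exact (mem_bl.1 (mem_filter.1 h3).2).1
      · rw [(mem_filter.1 h3).2]
        exact has
    refine rho_two (i := p.1) (i' := r.1) (fun z hz => ?_) (mem_union_left _ (mem.1 hp1).2.2.1)
      (mem_union_right _ (mem.1 hr).2.2.1)
    rcases (mL z).1 hz with rfl | rfl | rfl
    · exact mem_union_right _ h2
    · exact mem_union_left _ h1.1
    · exact mem_union_left _ h1.2
  have f2 : ∀ p ∈ HB, ∀ r ∈ HC, rho B (L ∪ {p.2, r.2}) ≤ 2 := by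
    intro p hp r hr
    obtain ⟨hp1, hp2⟩ := mem_filter.1 hp
    obtain ⟨hr1, hr2⟩ := mem_filter.1 hr
    have h1 := mem_bl.1 hp2
    have h2 := mem_bl.1 hr2
    refine rho_two (i := p.1) (i' := r.1) (fun z hz => ?_) (mem_union_left _ (mem.1 hp1).2.2.1)
      (mem_union_right _ (mem.1 hr1).2.2.1)
    rcases (mL z).1 hz with rfl | rfl | rfl
    · exact mem_union_left _ h1.1
    · exact mem_union_left _ h1.2
    · exact mem_union_right _ h2.2
  have f3 : ∀ p ∈ HS, ∀ r ∈ HS, rho B (L ∪ {p.2, r.2}) ≤ 2 := by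
    intro p hp r hr
    obtain ⟨hp1, hp2⟩ := mem_filter.1 hp
    obtain ⟨hr1, hr2⟩ := mem_filter.1 hr
    have h3 := h.cA
    obtain ⟨k, hk⟩ := card_pos.1 (by omega : 0 < (bl B b c).card)
    have h1 := mem_bl.1 hk
    refine rho_two (i := s) (i' := k) (fun z hz => ?_)
      (mem_union_left _ (by rw [← hp2]; exact (mem.1 hp1).2.2.1))
      (mem_union_left _ (by rw [← hr2]; exact (mem.1 hr1).2.2.1))
    rcases (mL z).1 hz with rfl | rfl | rfl
    · exact mem_union_left _ has
    · exact mem_union_right _ h1.1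
    · exact mem_union_right _ h1.2
  have dAB : ∀ p ∈ HB, p ∉ HA := by
    intro p hp hpA
    have h1 := mem_bl.1 (mem_filter.1 hp).2
    have h2 := mem_bl.1 (mem_filter.1 hpA).2
    have h3 : L ⊆ B p.1 := fun z hz => by
      rcases (mL z).1 hz with rfl | rfl | rfl
      · exact h1.1
      · exact h1.2
      · exact h2.2
    have := rho_le_one h3
    omega
  have dAC : ∀ p ∈ HC, p ∉ HA := by
    intro p hp hpA
    have h1 := mem_bl.1 (mem_filter.1 hp).2
    have h2 := mem_bl.1 (mem_filter.1 hpA).2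
    have h3 : L ⊆ B p.1 := fun z hz => by
      rcases (mL z).1 hz with rfl | rfl | rfl
      · exact h1.1
      · exact h2.1
      · exact h1.2
    have := rho_le_one h3
    omega
  have dBC : ∀ p ∈ HC, p ∉ HB := by
    intro p hp hpA
    have h1 := mem_bl.1 (mem_filter.1 hp).2
    have h2 := mem_bl.1 (mem_filter.1 hpA).2
    have h3 : L ⊆ B p.1 := fun z hz => by
      rcases (mL z).1 hz with rfl | rfl | rfl
      · exact h1.1
      · exact h2.2
      · exact h1.2
    have := rho_le_one h3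
    omega
  have hez : ∀ p ∈ H, (Ez B L p.2).Nonempty := fun p hp =>
    ⟨p.1, mem_Ez.2 ⟨(mem.1 hp).2.2.1, (mem.1 hp).2.2.2⟩⟩
  -- (S0)
  have s0 : ∀ p ∈ H, 3 ≤ (H.filter (fun r => r.2 ≠ p.2)).card := by
    intro p hp
    obtain ⟨hpQ, hpL, hpb, hpm⟩ := mem.1 hp
    obtain ⟨t1, t2, t3⟩ := hτ p.2 hpQ hpL (hez p hp)
    have hTL : L ⊆ Q \ (B (τ p.2) ∩ Q) := by
      intro z hz
      refine mem_sdiff.2 ⟨hLQ hz, fun h1 => ?_⟩
      have h2 : z ≠ p.2 := fun h3 => hpL (h3 ▸ hz)
      have h3 := t3 z h1 h2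
      have h4 : (univ.filter (fun k => z ∈ B k)).card = 5 := hv.reg z (hLQ hz)
      obtain ⟨k, hk⟩ := card_pos.1 (by omega : 0 < (univ.filter (fun k => z ∈ B k)).card)
      have h5 : k ∈ Ez B L z :=
        mem_Ez.2 ⟨(mem_filter.1 hk).2, z, mem_inter.2 ⟨(mem_filter.1 hk).2, hz⟩⟩
      rw [h3] at h5
      exact notMem_empty _ h5
    have h1 : hit B ((Q \ (B (τ p.2) ∩ Q)) \ L) L ≤ (H.filter (fun r => r.2 ≠ p.2)).card := by
      rw [hs_out]
      refine card_le_card fun r hr => ?_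
      obtain ⟨h2, h3⟩ := mem_filter.1 hr
      refine mem_filter.2 ⟨h2, fun h4 => h3 ?_⟩
      rw [h4]
      exact mem_inter.2 ⟨t2, hpQ⟩
    by_contra hcon
    have h2 := hv.s0 t1 hTL hLne hcr hsL t2 hpQ (hez p hp) (nu := 2) (by norm_num) (by norm_num)
      (fun y hy => by
        rw [t3 y (mem_of_mem_erase hy) (ne_of_mem_erase hy), card_empty]
        norm_num) (by omega)
    rw [hdv] at h2
    norm_num at h2
  have hex : ∀ x ∈ Q, x ∉ L → (Ez B L x).Nonempty → ∀ y ∈ Q, y ∉ L → (Ez B L y).Nonempty →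
      ee B Q {x, y} = 0 := by
    intro x hx hxL hxE y hy hyL hyE
    unfold ee
    rw [card_eq_zero, filter_eq_empty_iff]
    intro t ht
    rw [mem_insert, mem_singleton] at ht
    rcases ht with rfl | rfl
    · obtain ⟨t1, t2, _⟩ := hτ t hx hxL hxE
      have := hv.single_two t1 t2 hx
      omega
    · obtain ⟨t1, t2, _⟩ := hτ t hy hyL hyE
      have := hv.single_two t1 t2 hy
      omega
  -- two points
  have two : ∀ p ∈ H, ∀ r ∈ H, p.2 ≠ r.2 → rho B (L ∪ {p.2, r.2}) ≤ 2 →
      ((H.filter (fun z => z.2 ≠ p.2 ∧ z.2 ≠ r.2)).image Prod.fst).card ≤ 2 → False := by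
    intro p hp r hr hpr hab hc
    obtain ⟨hpQ, hpL, _, _⟩ := mem.1 hp
    obtain ⟨hrQ, hrL, _, _⟩ := mem.1 hr
    refine hv.lb2 hLQ hL3 hcm heL hpQ hrQ hpL hrL hpr
      (hex _ hpQ hpL (hez p hp) _ hrQ hrL (hez r hr)) hab (fun i hi hi2 => ?_) hc
    obtain ⟨z, hz⟩ := hi2
    obtain ⟨hzi, hzR⟩ := mem_inter.1 hz
    obtain ⟨hzQ, hzW⟩ := mem_sdiff.1 hzR
    rw [mem_union, mem_insert, mem_singleton, not_or, not_or] at hzW
    exact mem_image.2 ⟨(i, z), mem_filter.2 ⟨mem.2 ⟨hzQ, hzW.1, hzi, hi⟩, hzW.2.1, hzW.2.2⟩, rfl⟩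
  have rest2 : ∀ p ∈ H, ∀ r ∈ H, p ≠ r →
      (H.filter (fun z => z.2 ≠ p.2 ∧ z.2 ≠ r.2)).card + 2 ≤ H.card := by
    intro p hp r hr hpr
    have h1 : (H.filter (fun z => z.2 ≠ p.2 ∧ z.2 ≠ r.2)) ⊆ (H.erase p).erase r := by
      intro z hz
      obtain ⟨h2, h3, h4⟩ := mem_filter.1 hz
      exact mem_erase.2 ⟨fun h5 => h4 (by rw [h5]), mem_erase.2 ⟨fun h5 => h3 (by rw [h5]), h2⟩⟩
    have h2 := card_le_card h1
    have h3 := card_erase_add_one hp
    have h4 := card_erase_add_one (mem_erase.2 ⟨hpr.symm, hr⟩)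
    omega
  by_contra hcon
  rw [← hs_card, ← hH] at hcon
  have hle : H.card ≤ 5 := by omega
  -- there is a hit
  have hne : H.Nonempty := by
    by_contra h0
    rw [not_nonempty_iff_eq_empty] at h0
    have hcl : Closed (gr B) Q L := by
      refine ⟨hLQ, fun x hx y hy hxy => ?_⟩
      by_contra hyL
      obtain ⟨_, i, hi1, hi2⟩ := hxy
      have h1 : (i, y) ∈ H := mem.2 ⟨hy, hyL, hi2, x, mem_inter.2 ⟨hi1, hx⟩⟩
      rw [h0] at h1
      exact notMem_empty _ h1
    have h1 := hv.conn.2 L hcl hLne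
    have h2 := hv.sv1
    rw [← h1, hsL] at h2
    norm_num at h2
  obtain ⟨p0, hp0⟩ := hne
  have h4 : 4 ≤ H.card := by
    have h1 := s0 p0 hp0
    have h2 : (H.filter (fun r => r.2 ≠ p0.2)) ⊆ H.erase p0 := by
      intro z hz
      obtain ⟨h2, h3⟩ := mem_filter.1 hz
      exact mem_erase.2 ⟨fun h5 => h3 (by rw [h5]), h2⟩
    have h3 := card_le_card h2
    have h5 := card_erase_add_one hp0
    omega
  by_cases hinj : ∀ p ∈ H, ∀ r ∈ H, p ≠ r → p.2 ≠ r.2
  · rcases (by omega : H.card = 4 ∨ H.card = 5) with h5 | h5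
    · -- four points
      have hfin : ∀ p ∈ H, ∀ r ∈ H, p ≠ r → rho B (L ∪ {p.2, r.2}) ≤ 2 → False := by
        intro p hp r hr hpr hab
        refine two p hp r hr (hinj p hp r hr hpr) hab ?_
        have h6 := rest2 p hp r hr hpr
        exact card_image_le.trans (by omega)
      rcases HA.eq_empty_or_nonempty with hA | ⟨p, hp⟩
      · rw [hA, card_empty] at hsum4
        rcases HB.eq_empty_or_nonempty with hB | ⟨p, hp⟩
        · rw [hB, card_empty] at hsum4
          obtain ⟨p, r, hp, hr, hpr⟩ := one_lt_card_iff.1 (by omega : 1 < HS.card)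
          exact hfin p (mem_filter.1 hp).1 r (mem_filter.1 hr).1 hpr (f3 p hp r hr)
        · rcases HC.eq_empty_or_nonempty with hC | ⟨r, hr⟩
          · rw [hC, card_empty] at hsum4
            obtain ⟨p, r, hp, hr, hpr⟩ := one_lt_card_iff.1 (by omega : 1 < HS.card)
            exact hfin p (mem_filter.1 hp).1 r (mem_filter.1 hr).1 hpr (f3 p hp r hr)
          · exact hfin p (mem_filter.1 hp).1 r (mem_filter.1 hr).1
              (fun h6 => dBC r hr (h6 ▸ hp)) (f2 p hp r hr)
      · have h6 : ∃ r ∈ H, r ∉ HA := by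
          by_contra h7
          push Not at h7
          have := card_le_card (fun r hr => h7 r hr : H ⊆ HA)
          omega
        obtain ⟨r, hr, hrA⟩ := h6
        exact hfin p (mem_filter.1 hp).1 r hr (fun h7 => hrA (h7 ▸ hp)) (f1 p hp r hr hrA)
    · -- five points: the four cycle
      have c4 : ∀ p ∈ H, ∀ q ∈ H, ∀ p' ∈ H, ∀ q' ∈ H, p ≠ q → p ≠ p' → p ≠ q' → q ≠ p' →
          q ≠ q' → p' ≠ q' → rho B (L ∪ {p.2, q.2}) ≤ 2 → rho B (L ∪ {q.2, p'.2}) ≤ 2 →
          rho B (L ∪ {p.2, q'.2}) ≤ 2 → rho B (L ∪ {p'.2, q'.2}) ≤ 2 → False := by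
        intro p hp q hq p' hp' q' hq' n1 n2 n3 n4 n5 n6 a1 a2 a3 a4
        have e1 := card_erase_add_one hp
        have m2 : q ∈ H.erase p := mem_erase.2 ⟨n1.symm, hq⟩
        have e2 := card_erase_add_one m2
        have m3 : p' ∈ (H.erase p).erase q := mem_erase.2 ⟨n4.symm, mem_erase.2 ⟨n2.symm, hp'⟩⟩
        have e3 := card_erase_add_one m3
        have m4 : q' ∈ ((H.erase p).erase q).erase p' :=
          mem_erase.2 ⟨n6.symm, mem_erase.2 ⟨n5.symm, mem_erase.2 ⟨n3.symm, hq'⟩⟩⟩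
        have e4 := card_erase_add_one m4
        obtain ⟨r, hr⟩ := card_eq_one.1 (by omega :
          ((((H.erase p).erase q).erase p').erase q').card = 1)
        have hrm : r ∈ (((H.erase p).erase q).erase p').erase q' := by
          rw [hr]
          exact mem_singleton_self r
        simp only [mem_erase] at hrm
        obtain ⟨r4, r3, r2, r1, hrH⟩ := hrm
        have hallH : ∀ z ∈ H, z = p ∨ z = q ∨ z = p' ∨ z = q' ∨ z = r := by
          intro z hz
          by_contra h6
          push Not at h6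
          have h7 : z ∈ (((H.erase p).erase q).erase p').erase q' :=
            mem_erase.2 ⟨h6.2.2.2.1, mem_erase.2 ⟨h6.2.2.1, mem_erase.2 ⟨h6.2.1,
              mem_erase.2 ⟨h6.1, hz⟩⟩⟩⟩
          rw [hr, mem_singleton] at h7
          exact h6.2.2.2.2 h7
        have one : ∀ z ∈ H, (Ez B L z.2).card = 1 := by
          intro z hz
          obtain ⟨hzQ, hzL, _, _⟩ := mem.1 hz
          rw [← hs_fiber hzQ hzL, ← hH, card_eq_one]
          refine ⟨z, ?_⟩
          ext w
          rw [mem_filter, mem_singleton]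
          constructor
          · rintro ⟨h6, h7⟩
            by_contra h8
            exact hinj w h6 z hz h8 h7
          · rintro rfl
            exact ⟨hz, rfl⟩
        obtain ⟨hpQ, hpL, _, _⟩ := mem.1 hp
        obtain ⟨hqQ, hqL, _, _⟩ := mem.1 hq
        obtain ⟨hp'Q, hp'L, _, _⟩ := mem.1 hp'
        obtain ⟨hq'Q, hq'L, _, _⟩ := mem.1 hq'
        obtain ⟨hrQ, hrL, _, _⟩ := mem.1 hrH
        obtain ⟨ti, ti', ti''⟩ := hτ p.2 hpQ hpL (hez p hp)
        obtain ⟨tj, tj', tj''⟩ := hτ q.2 hqQ hqL (hez q hq)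
        refine hv.k3 hLQ hLne hdv.ge ti tj (mem_inter.2 ⟨ti', hpQ⟩) (mem_inter.2 ⟨tj', hqQ⟩)
          (hd p.2 hpQ hpL (hez p hp) q.2 hqQ hqL (hez q hq) (hinj p hp q hq n1)) ti'' tj''
          hpL hqL hp'Q hq'Q hrQ hp'L hq'L hrL (one p' hp') (one q' hq') (one r hrH)
          (hinj p hp p' hp' n2) (hinj p hp q' hq' n3) (hinj p hp r hrH r1.symm)
          (hinj q hq p' hp' n4) (hinj q hq q' hq' n5) (hinj q hq r hrH r2.symm)
          (hinj p' hp' q' hq' n6) (hinj p' hp' r hrH r3.symm) (hinj q' hq' r hrH r4.symm)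
          ?_ (by rw [hrho]; exact a1) (by rw [hrho]; exact a2) (by rw [hrho]; exact a3)
          (by rw [hrho]; exact a4)
        intro v hvQ hvL hvE
        obtain ⟨i, hi⟩ := hvE
        obtain ⟨hi1, hi2⟩ := mem_Ez.1 hi
        rcases hallH (i, v) (mem.2 ⟨hvQ, hvL, hi1, hi2⟩) with h6 | h6 | h6 | h6 | h6
        · exact Or.inl (by rw [← h6])
        · exact Or.inr (Or.inl (by rw [← h6]))
        · exact Or.inr (Or.inr (Or.inl (by rw [← h6])))
        · exact Or.inr (Or.inr (Or.inr (Or.inl (by rw [← h6]))))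
        · exact Or.inr (Or.inr (Or.inr (Or.inr (by rw [← h6]))))
      have sub : ∀ {S : Finset (ι × V)}, S ⊆ H → (H \ S).card + S.card = H.card := fun hS =>
        card_sdiff_add_card_eq_card hS
      have hAH : HA ⊆ H := filter_subset _ _
      have hBH : HB ⊆ H := filter_subset _ _
      have hCH : HC ⊆ H := filter_subset _ _
      have hSH : HS ⊆ H := filter_subset _ _
      by_cases hA2 : 2 ≤ HA.card
      · obtain ⟨p, p', hp, hp', hpp⟩ := one_lt_card_iff.1 (by omega : 1 < HA.card)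
        have h6 := sub hAH
        obtain ⟨q, q', hq, hq', hqq⟩ := one_lt_card_iff.1 (by omega : 1 < (H \ HA).card)
        obtain ⟨hq1, hq2⟩ := mem_sdiff.1 hq
        obtain ⟨hq'1, hq'2⟩ := mem_sdiff.1 hq'
        exact c4 p (hAH hp) q hq1 p' (hAH hp') q' hq'1 (fun h7 => hq2 (h7 ▸ hp)) hpp
          (fun h7 => hq'2 (h7 ▸ hp)) (fun h7 => hq2 (h7 ▸ hp')) hqq (fun h7 => hq'2 (h7 ▸ hp'))
          (f1 p hp q hq1 hq2) (by rw [hpc]; exact f1 p' hp' q hq1 hq2)
          (f1 p hp q' hq'1 hq'2) (f1 p' hp' q' hq'1 hq'2)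
      by_cases hB2 : 2 ≤ HB.card ∧ 2 ≤ (HA ∪ HC).card
      · obtain ⟨p, p', hp, hp', hpp⟩ := one_lt_card_iff.1 (by omega : 1 < HB.card)
        obtain ⟨q, q', hq, hq', hqq⟩ := one_lt_card_iff.1 (by omega : 1 < (HA ∪ HC).card)
        have g1 : ∀ x ∈ HB, ∀ z ∈ HA ∪ HC, x ≠ z ∧ z ∈ H ∧ rho B (L ∪ {x.2, z.2}) ≤ 2 := by
          intro x hx z hz
          rcases mem_union.1 hz with h6 | h6
          · exact ⟨fun h7 => dAB x hx (h7 ▸ h6), hAH h6,
              by rw [hpc]; exact f1 z h6 x (hBH hx) (dAB x hx)⟩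
          · exact ⟨fun h7 => dBC z h6 (h7 ▸ hx), hCH h6, f2 x hx z h6⟩
        obtain ⟨u1, u2, u3⟩ := g1 p hp q hq
        obtain ⟨w1, w2, w3⟩ := g1 p hp q' hq'
        obtain ⟨x1, x2, x3⟩ := g1 p' hp' q hq
        obtain ⟨y1, y2, y3⟩ := g1 p' hp' q' hq'
        exact c4 p (hBH hp) q u2 p' (hBH hp') q' w2 u1 hpp w1 x1.symm hqq y1 u3
          (by rw [hpc]; exact x3) w3 y3
      by_cases hC2 : 2 ≤ HC.card ∧ 2 ≤ (HA ∪ HB).card
      · obtain ⟨p, p', hp, hp', hpp⟩ := one_lt_card_iff.1 (by omega : 1 < HC.card)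
        obtain ⟨q, q', hq, hq', hqq⟩ := one_lt_card_iff.1 (by omega : 1 < (HA ∪ HB).card)
        have g1 : ∀ x ∈ HC, ∀ z ∈ HA ∪ HB, x ≠ z ∧ z ∈ H ∧ rho B (L ∪ {x.2, z.2}) ≤ 2 := by
          intro x hx z hz
          rcases mem_union.1 hz with h6 | h6
          · exact ⟨fun h7 => dAC x hx (h7 ▸ h6), hAH h6,
              by rw [hpc]; exact f1 z h6 x (hCH hx) (dAC x hx)⟩
          · exact ⟨fun h7 => dBC x hx (h7 ▸ h6), hBH h6, by rw [hpc]; exact f2 z h6 x hx⟩
        obtain ⟨u1, u2, u3⟩ := g1 p hp q hq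
        obtain ⟨w1, w2, w3⟩ := g1 p hp q' hq'
        obtain ⟨x1, x2, x3⟩ := g1 p' hp' q hq
        obtain ⟨y1, y2, y3⟩ := g1 p' hp' q' hq'
        exact c4 p (hCH hp) q u2 p' (hCH hp') q' w2 u1 hpp w1 x1.symm hqq y1 u3
          (by rw [hpc]; exact x3) w3 y3
      -- both places of the single block
      have uAC : (HA ∪ HC).card = HA.card + HC.card := card_union_of_disjoint
        (disjoint_left.2 fun z h6 h7 => dAC z h7 h6)
      have uAB : (HA ∪ HB).card = HA.card + HB.card := card_union_of_disjoint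
        (disjoint_left.2 fun z h6 h7 => dAB z h7 h6)
      have hS2 : HS.card = 2 := by omega
      have dS : ∀ z ∈ HA ∪ HB ∪ HC, z ∉ HS := by
        intro z hz h6
        have h7 := (mem_filter.1 h6).2
        have h8 : b ∈ B s ∨ c ∈ B s := by
          rw [mem_union, mem_union] at hz
          rcases hz with (h9 | h9) | h9
          · left
            rw [← h7]
            exact (mem_bl.1 (mem_filter.1 h9).2).1
          · left
            rw [← h7]
            exact (mem_bl.1 (mem_filter.1 h9).2).2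
          · right
            rw [← h7]
            exact (mem_bl.1 (mem_filter.1 h9).2).2
        rcases h8 with h9 | h9
        · have h10 : b ∈ B s ∩ L := mem_inter.2 ⟨h9, (mL b).2 (by simp)⟩
          rw [h.tr, mem_singleton] at h10
          exact h.ab h10.symm
        · have h10 : c ∈ B s ∩ L := mem_inter.2 ⟨h9, (mL c).2 (by simp)⟩
          rw [h.tr, mem_singleton] at h10
          exact h.ac h10.symm
      have hfin : ∀ p ∈ HA ∪ HB ∪ HC, ∀ r ∈ HA ∪ HB ∪ HC, p ∈ H → r ∈ H → p ≠ r →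
          rho B (L ∪ {p.2, r.2}) ≤ 2 → False := by
        intro p hp' r hr' hp hr hpr hab
        refine two p hp r hr (hinj p hp r hr hpr) hab ?_
        set R := H.filter (fun z => z.2 ≠ p.2 ∧ z.2 ≠ r.2) with hR
        have h6 := rest2 p hp r hr hpr
        have h7 : HS ⊆ R := by
          intro z hz
          refine mem_filter.2 ⟨hSH hz, hinj z (hSH hz) p hp ?_, hinj z (hSH hz) r hr ?_⟩
          · rintro rfl
            exact dS z hp' hz
          · rintro rfl
            exact dS z hr' hz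
        have h8 : (R \ HS).card + HS.card = R.card := card_sdiff_add_card_eq_card h7
        have h9 : R.image Prod.fst ⊆ insert s ((R \ HS).image Prod.fst) := by
          intro i hi
          obtain ⟨z, hz, rfl⟩ := mem_image.1 hi
          by_cases h10 : z ∈ HS
          · rw [(mem_filter.1 h10).2]
            exact mem_insert_self _ _
          · exact mem_insert_of_mem (mem_image_of_mem _ (mem_sdiff.2 ⟨hz, h10⟩))
        have h10 := card_le_card h9
        have h11 := card_insert_le s ((R \ HS).image Prod.fst)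
        have h12 : ((R \ HS).image Prod.fst).card ≤ (R \ HS).card := card_image_le
        rw [← hR] at h6
        omega
      rcases HA.eq_empty_or_nonempty with hA | ⟨p, hp⟩
      · rw [hA, card_empty] at hsum4
        obtain ⟨p, hp⟩ := card_pos.1 (by omega : 0 < HB.card)
        obtain ⟨r, hr⟩ := card_pos.1 (by omega : 0 < HC.card)
        exact hfin p (mem_union_left _ (mem_union_right _ hp)) r (mem_union_right _ hr) (hBH hp)
          (hCH hr) (fun h6 => dBC r hr (h6 ▸ hp)) (f2 p hp r hr)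
      · by_cases hB : HB.Nonempty
        · obtain ⟨r, hr⟩ := hB
          exact hfin p (mem_union_left _ (mem_union_left _ hp)) r
            (mem_union_left _ (mem_union_right _ hr)) (hAH hp) (hBH hr)
            (fun h6 => dAB r hr (h6 ▸ hp)) (f1 p hp r (hBH hr) (dAB r hr))
        · rw [not_nonempty_iff_eq_empty] at hB
          rw [hB, card_empty] at hsum4
          obtain ⟨r, hr⟩ := card_pos.1 (by omega : 0 < HC.card)
          exact hfin p (mem_union_left _ (mem_union_left _ hp)) r (mem_union_right _ hr) (hAH hp)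
            (hCH hr) (fun h6 => dAC r hr (h6 ▸ hp)) (f1 p hp r (hCH hr) (dAC r hr))
  · -- a point with two hits
    push Not at hinj
    obtain ⟨p1, hp1, p2, hp2, hne12, heq⟩ := hinj
    set O := H.filter (fun r => r.2 ≠ p1.2) with hO
    have hO3 : 3 ≤ O.card := s0 p1 hp1
    have hOH : O ⊆ H := filter_subset _ _
    have hO1 : O ⊆ (H.erase p1).erase p2 := by
      intro z hz
      obtain ⟨h2, h3⟩ := mem_filter.1 hz
      refine mem_erase.2 ⟨fun h5 => h3 (by rw [h5, heq]), mem_erase.2 ⟨fun h5 => h3 (by rw [h5]),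
        h2⟩⟩
    have hOc : O.card ≤ 3 := by
      have h1 := card_le_card hO1
      have h2 := card_erase_add_one hp1
      have h3 := card_erase_add_one (mem_erase.2 ⟨hne12.symm, hp2⟩)
      omega
    have hfin : ∀ p ∈ H, p.2 = p1.2 → ∀ r ∈ O, rho B (L ∪ {p.2, r.2}) ≤ 2 → False := by
      intro p hp hpp r hr hab
      have h1 : p.2 ≠ r.2 := by
        rw [hpp]
        exact (mem_filter.1 hr).2.symm
      refine two p hp r (hOH hr) h1 hab ?_
      have h2 : (H.filter (fun z => z.2 ≠ p.2 ∧ z.2 ≠ r.2)) ⊆ O.erase r := by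
        intro z hz
        obtain ⟨h3, h4, h5⟩ := mem_filter.1 hz
        exact mem_erase.2 ⟨fun h6 => h5 (by rw [h6]), mem_filter.2 ⟨h3, by rw [← hpp]; exact h4⟩⟩
      have h3 := card_le_card h2
      have h4 := card_erase_add_one hr
      exact card_image_le.trans (by omega)
    -- no neighbour in A
    have noA : ∀ p ∈ H, p.2 = p1.2 → p ∉ HA := by
      intro p hp hpp hpA
      have h1 : O ⊆ HA.erase p := by
        intro r hr
        refine mem_erase.2 ⟨fun h2 => (mem_filter.1 hr).2 (by rw [h2, hpp]), ?_⟩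
        by_contra h2
        exact hfin p hp hpp r hr (f1 p hpA r (hOH hr) h2)
      have h2 := card_le_card h1
      have h3 := card_erase_add_one hpA
      omega
    have noA' : ∀ r ∈ O, r ∉ HA := by
      intro r hr hrA
      exact hfin p1 hp1 rfl r hr (by
        rw [hpc]
        exact f1 r hrA p1 hp1 (noA p1 hp1 rfl))
    -- the classes of the two hits
    have noB : ∀ p ∈ H, p.2 = p1.2 → ∀ p' ∈ H, p'.2 = p1.2 → p ≠ p' → p ∈ HB → False := by
      intro p hp hpp p' hp' hpp' hne hpB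
      have h1 : ∀ r ∈ O, r ∉ HC := fun r hr hrC => hfin p hp hpp r hr (f2 p hpB r hrC)
      have h2 : O ⊆ (O ∩ HB) ∪ (O ∩ HS) := by
        intro r hr
        rw [mem_union, mem_inter, mem_inter]
        rcases hcov4 r (hOH hr) with h3 | h3 | h3 | h3
        · exact absurd h3 (noA' r hr)
        · exact Or.inl ⟨hr, h3⟩
        · exact absurd h3 (h1 r hr)
        · exact Or.inr ⟨hr, h3⟩
      have h3 : O ∩ HB ⊆ HB.erase p := by
        intro r hr
        obtain ⟨h4, h5⟩ := mem_inter.1 hr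
        exact mem_erase.2 ⟨fun h6 => (mem_filter.1 h4).2 (by rw [h6, hpp]), h5⟩
      have h4 := card_le_card h3
      have h5 := card_erase_add_one hpB
      have h6 := (card_le_card h2).trans (card_union_le _ _)
      have h7 : (O ∩ HS).card ≤ HS.card := card_le_card inter_subset_right
      have h8 : O ∩ HS = HS := eq_of_subset_of_card_le inter_subset_right (by omega)
      have h9 : O ∩ HB = HB.erase p := eq_of_subset_of_card_le h3 (by omega)
      have hp'O : p' ∉ O := fun h10 => (mem_filter.1 h10).2 hpp'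
      rcases hcov4 p' hp' with h10 | h10 | h10 | h10
      · exact noA p' hp' hpp' h10
      · have h11 : p' ∈ HB.erase p := mem_erase.2 ⟨hne.symm, h10⟩
        rw [← h9] at h11
        exact hp'O (mem_inter.1 h11).1
      · obtain ⟨r, hr⟩ := card_pos.1 (by omega : 0 < (O ∩ HB).card)
        obtain ⟨hr1, hr2⟩ := mem_inter.1 hr
        exact hfin p' hp' hpp' r hr1 (by
          rw [hpc]
          exact f2 r hr2 p' h10)
      · rw [← h8] at h10
        exact hp'O (mem_inter.1 h10).1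
    have noC : ∀ p ∈ H, p.2 = p1.2 → ∀ p' ∈ H, p'.2 = p1.2 → p ≠ p' → p ∈ HC → False := by
      intro p hp hpp p' hp' hpp' hne hpC
      have h1 : ∀ r ∈ O, r ∉ HB := fun r hr hrB => hfin p hp hpp r hr (by
        rw [hpc]
        exact f2 r hrB p hpC)
      have h2 : O ⊆ (O ∩ HC) ∪ (O ∩ HS) := by
        intro r hr
        rw [mem_union, mem_inter, mem_inter]
        rcases hcov4 r (hOH hr) with h3 | h3 | h3 | h3
        · exact absurd h3 (noA' r hr)
        · exact absurd h3 (h1 r hr)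
        · exact Or.inl ⟨hr, h3⟩
        · exact Or.inr ⟨hr, h3⟩
      have h3 : O ∩ HC ⊆ HC.erase p := by
        intro r hr
        obtain ⟨h4, h5⟩ := mem_inter.1 hr
        exact mem_erase.2 ⟨fun h6 => (mem_filter.1 h4).2 (by rw [h6, hpp]), h5⟩
      have h4 := card_le_card h3
      have h5 := card_erase_add_one hpC
      have h6 := (card_le_card h2).trans (card_union_le _ _)
      have h7 : (O ∩ HS).card ≤ HS.card := card_le_card inter_subset_right
      have h8 : O ∩ HS = HS := eq_of_subset_of_card_le inter_subset_right (by omega)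
      have h9 : O ∩ HC = HC.erase p := eq_of_subset_of_card_le h3 (by omega)
      have hp'O : p' ∉ O := fun h10 => (mem_filter.1 h10).2 hpp'
      rcases hcov4 p' hp' with h10 | h10 | h10 | h10
      · exact noA p' hp' hpp' h10
      · exact noB p' hp' hpp' p hp hpp hne.symm h10
      · have h11 : p' ∈ HC.erase p := mem_erase.2 ⟨hne.symm, h10⟩
        rw [← h9] at h11
        exact hp'O (mem_inter.1 h11).1
      · rw [← h8] at h10
        exact hp'O (mem_inter.1 h10).1
    rcases hcov4 p1 hp1 with h6 | h6 | h6 | h6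
    · exact noA p1 hp1 rfl h6
    · exact noB p1 hp1 rfl p2 hp2 heq.symm hne12 h6
    · exact noC p1 hp1 rfl p2 hp2 heq.symm hne12 h6
    · rcases hcov4 p2 hp2 with h7 | h7 | h7 | h7
      · exact noA p2 hp2 heq.symm h7
      · exact noB p2 hp2 heq.symm p1 hp1 rfl hne12.symm h7
      · exact noC p2 hp2 heq.symm p1 hp1 rfl hne12.symm h7
      · exact hne12 (Prod.ext ((mem_filter.1 h6).2.trans (mem_filter.1 h7).2.symm) heq)

/-- **six hits**, for a family `T` of disjoint full blocks: a block of `T` with two contact points of `L`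
has them on single traces, and its third point sees nothing. -/
theorem ViolR.six_T {Q L : Finset V} (hv : ViolR B Q) (hLQ : L ⊆ Q) (hL3 : L.card = 3)
    (hcm : cm B L = 8) (hrho : rho B L = 2) (hcr : Crit B L) {T : Finset ι}
    (hT : ∀ j ∈ T, (B j ∩ Q).card = 3) (hTL : ∀ j ∈ T, Disjoint (B j ∩ Q) L)
    (hTd : ∀ j ∈ T, ∀ k ∈ T, j ≠ k → Disjoint (B j ∩ Q) (B k ∩ Q))
    (hc : ∀ v ∈ Q, v ∉ L → (Ez B L v).Nonempty → ∃ j ∈ T, v ∈ B j)
    (htw : ∀ j ∈ T, ∀ b ∈ B j ∩ Q, ∀ c ∈ B j ∩ Q, b ≠ c → (Ez B L b).Nonempty →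
      (Ez B L c).Nonempty → (∀ a ∈ B j ∩ Q, a ≠ b → a ≠ c → Ez B L a = ∅) ∧
        (∀ i ∈ Ez B L b, (B i ∩ L).card = 1) ∧ (∀ i ∈ Ez B L c, (B i ∩ L).card = 1)) :
    6 ≤ hit B (Q \ L) L := by
  classical
  by_cases hown : ∀ j ∈ T, ∀ b ∈ B j ∩ Q, ∀ c ∈ B j ∩ Q, b ≠ c → (Ez B L b).Nonempty →
      Ez B L c = ∅
  · obtain ⟨_, _, _, s, _⟩ := exists_t31 (hv.reg.mono hLQ) (hv.tr.mono hLQ) hL3 hcm hrho
    have : Nonempty ι := ⟨s⟩
    choose! τ hτ using hc
    refine hv.six hLQ hL3 hcm hrho hcr (τ := τ) ?_ ?_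
    · intro v hvQ hvL hvE
      obtain ⟨h1, h2⟩ := hτ v hvQ hvL hvE
      exact ⟨hT _ h1, h2, fun y hy hne => hown _ h1 v (mem_inter.2 ⟨h2, hvQ⟩) y hy hne.symm hvE⟩
    · intro v hvQ hvL hvE w hwQ hwL hwE hne
      obtain ⟨h1, h2⟩ := hτ v hvQ hvL hvE
      obtain ⟨h3, h4⟩ := hτ w hwQ hwL hwE
      refine hTd _ h1 _ h3 fun h5 => ?_
      have h6 := hown _ h1 v (mem_inter.2 ⟨h2, hvQ⟩) w
        (mem_inter.2 ⟨by rw [h5]; exact h4, hwQ⟩) hne hvE
      rw [h6] at hwE
      exact not_nonempty_empty hwE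
  · push Not at hown
    obtain ⟨j, hj, b, hb, c, hc', hbc, hbE, hcE⟩ := hown
    obtain ⟨h1, h2, h3⟩ := htw j hj b hb c hc' hbc hbE hcE
    obtain ⟨a1, b1, c1, s, h⟩ := exists_t31 (hv.reg.mono hLQ) (hv.tr.mono hLQ) hL3 hcm hrho
    have mL : ∀ v, v ∈ L ↔ v = a1 ∨ v = b1 ∨ v = c1 := by
      intro v
      rw [h.eq, mem_insert, mem_insert, mem_singleton]
    have haL : a1 ∈ L := (mL a1).2 (Or.inl rfl)
    have hsL : sv B L = -1 := by
      unfold sv
      rw [hL3, hrho]
      norm_num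
    have has : a1 ∈ B s := by
      have h4 : a1 ∈ B s ∩ L := by
        rw [h.tr]
        exact mem_singleton_self a1
      exact (mem_inter.1 h4).1
    have hsing : ∀ i, (B i ∩ L).card = 1 → i = s := by
      intro i hi
      have key : ∀ x y, x ∈ L → y ∈ L → x ≠ y → i ∉ bl B x y := by
        intro x y hx hy hxy h7
        obtain ⟨h8, h9⟩ := mem_bl.1 h7
        exact hxy ((card_le_one (s := B i ∩ L)).1 hi.le x (mem_inter.2 ⟨h8, hx⟩) y
          (mem_inter.2 ⟨h9, hy⟩))
      rcases h.cov i (card_pos.1 (by omega)) with h7 | h7 | h7 | h7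
      · exact absurd h7 (key b1 c1 ((mL b1).2 (by simp)) ((mL c1).2 (by simp)) h.bc)
      · exact absurd h7 (key a1 b1 haL ((mL b1).2 (by simp)) h.ab)
      · exact absurd h7 (key a1 c1 haL ((mL c1).2 (by simp)) h.ac)
      · exact h7
    have hbs : b ∈ B s := by
      obtain ⟨i, hi⟩ := hbE
      rw [← hsing i (h2 i hi)]
      exact (mem_Ez.1 hi).1
    have hcs : c ∈ B s := by
      obtain ⟨i, hi⟩ := hcE
      rw [← hsing i (h3 i hi)]
      exact (mem_Ez.1 hi).1
    -- the third point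
    obtain ⟨t, ht⟩ := card_pos.1 (by
      have h4 := card_erase_add_one hb
      have h5 := card_erase_add_one (mem_erase.2 ⟨hbc.symm, hc'⟩)
      have h6 := hT j hj
      omega : 0 < (((B j ∩ Q).erase b).erase c).card)
    obtain ⟨htc, ht1⟩ := mem_erase.1 ht
    obtain ⟨htb, htT⟩ := mem_erase.1 ht1
    have hsubT : (B j ∩ Q).erase t ⊆ {b, c} := by
      have h4 : ({b, c} : Finset V) ⊆ (B j ∩ Q).erase t := by
        intro z hz
        rw [mem_insert, mem_singleton] at hz
        rcases hz with rfl | rfl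
        · exact mem_erase.2 ⟨htb.symm, hb⟩
        · exact mem_erase.2 ⟨htc.symm, hc'⟩
      have h5 := card_erase_add_one htT
      have h6 := hT j hj
      rw [eq_of_subset_of_card_le h4 (by rw [card_pair hbc]; omega)]
    have habs : Abz B L ((B j ∩ Q).erase t) := by
      have h4 := h.cA
      obtain ⟨k, hk⟩ := card_pos.1 (by omega : 0 < (bl B b1 c1).card)
      have h5 := mem_bl.1 hk
      refine ⟨{s, k}, fun z hz => ?_, by rw [hrho]; exact card_le_two⟩
      rw [mem_biUnion]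
      rcases mem_union.1 hz with h6 | h6
      · rcases (mL z).1 h6 with rfl | rfl | rfl
        · exact ⟨s, by simp, has⟩
        · exact ⟨k, by simp, h5.1⟩
        · exact ⟨k, by simp, h5.2⟩
      · have h7 := hsubT h6
        rw [mem_insert, mem_singleton] at h7
        rcases h7 with rfl | rfl
        · exact ⟨s, by simp, hbs⟩
        · exact ⟨s, by simp, hcs⟩
    have hEt := h1 t htT htb htc
    by_contra hcon
    have hH : hit B ((Q \ (B j ∩ Q)) \ L) L + 2 ≤ hit B (Q \ L) L := by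
      rw [hs_out, ← hs_card]
      have h4 : ((s, b) : ι × V) ∈ hs B Q L := mem_hs.2 ⟨(mem_inter.1 hb).2,
        disjoint_left.1 (hTL j hj) hb, hbs, a1, mem_inter.2 ⟨has, haL⟩⟩
      have h5 : ((s, c) : ι × V) ∈ hs B Q L := mem_hs.2 ⟨(mem_inter.1 hc').2,
        disjoint_left.1 (hTL j hj) hc', hcs, a1, mem_inter.2 ⟨has, haL⟩⟩
      have h6 : (hs B Q L).filter (fun p => p.2 ∉ B j ∩ Q) ⊆
          ((hs B Q L).erase (s, b)).erase (s, c) := by
        intro z hz
        obtain ⟨h7, h8⟩ := mem_filter.1 hz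
        refine mem_erase.2 ⟨?_, mem_erase.2 ⟨?_, h7⟩⟩
        · rintro rfl
          exact h8 hc'
        · rintro rfl
          exact h8 hb
      have h7 := card_le_card h6
      have h8 := card_erase_add_one h4
      have h9 : ((s, c) : ι × V) ∈ (hs B Q L).erase (s, b) := mem_erase.2 ⟨fun h10 =>
        hbc (congrArg Prod.snd h10).symm, h5⟩
      have h10 := card_erase_add_one h9
      omega
    have hLT : L ⊆ Q \ (B j ∩ Q) := fun z hz => mem_sdiff.2 ⟨hLQ hz, fun h4 =>
      disjoint_left.1 (hTL j hj) h4 hz⟩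
    have heL : -1 ≤ dv B Q L := by
      have h4 := Pv_eq (B := B) L
      rw [hL3, hcm, hrho] at h4
      have h5 := two_ee_le (B := B) Q L
      have h6 : (ins B Q L).filter (fun i => (B i ∩ Q).card = 1) ⊆ {s} := by
        intro i hi
        obtain ⟨h7, h8⟩ := mem_filter.1 hi
        have h9 := (mem_ins.1 h7)
        rw [mem_singleton]
        refine hsing i (le_antisymm ?_ (card_pos.2 ?_))
        · rw [← h8]
          exact card_le_card (inter_subset_inter_left hLQ)
        · obtain ⟨z, hz⟩ := h9.1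
          exact ⟨z, mem_inter.2 ⟨(mem_inter.1 hz).1, h9.2 hz⟩⟩
      have h7 := card_le_card h6
      rw [card_singleton] at h7
      unfold dv
      rw [h4]
      push_cast
      omega
    have h4 := hv.s1 (hT j hj) hLT ⟨a1, haL⟩ hcr hsL (mem_inter.1 htT).1 (mem_inter.1 htT).2
      (nu := 3) (by norm_num) (by rw [hEt, card_empty]; norm_num) (by omega) (Or.inl habs)
    split_ifs at h4 <;> omega

end Pool.Agent.Hyp6
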