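import Pool.Agent.Hyp6.Gsr
import Pool.Agent.Hyp6.L3T0

/-!
# HYP6 GDW: labels for the contact points of a set

`exists_labels`: the points of a full block `j` which does not meet `Z` and all other contact points of
`Z`, with their numbers of hits, as two decreasing lists. `T31.exists_blocks`: the blocks of a set of
type (3;1) in the order of the tables.
-/

set_option autoImplicit false

namespace Pool.Agent.Hyp6

open Finset Pool.Agent.Hyp5

universe u v

variable {V : Type v} [DecidableEq V] {ι : Type u} [Fintype ι] {B : ι → Finset V}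

/-- the labels of the contact points: first the three points of `j`, then the other contact points of
`Z`; the numbers of hits are `hT` and `hW`. -/
structure Lbl (B : ι → Finset V) (Q Z : Finset V) (j : ι) (hT hW : List ℕ) (ct : ℕ → V) : Prop where
  lenT : hT.length = 3
  desT : hT.Pairwise (fun a b => b ≤ a)
  desW : hW.Pairwise (fun a b => b ≤ a)
  posW : ∀ x ∈ hW, 1 ≤ x
  memQ : ∀ a < 3 + hW.length, ct a ∈ Q ∧ ct a ∉ Z
  inj : ∀ a < 3 + hW.length, ∀ a' < 3 + hW.length, ct a = ct a' → a = a'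
  trip : ∀ v, v ∈ B j ∩ Q ↔ ∃ a < 3, ct a = v
  all : ∀ v ∈ Q, v ∉ Z → (Ez B Z v).Nonempty → ∃ a < 3 + hW.length, ct a = v
  hits : ∀ a < 3 + hW.length, (Ez B Z (ct a)).card = (hT ++ hW).getD a 0
  sumT : hT.sum = hit B (B j ∩ Q) Z
  sumW : hW.sum = hit B ((Q \ Z) \ B j) Z

theorem exists_labels {Q Z : Finset V} {j : ι} (hj : (B j ∩ Q).card = 3)
    (hjZ : ¬ (B j ∩ Z).Nonempty) : ∃ hT hW ct, Lbl B Q Z j hT hW ct := by
  classical
  have hTne : (B j ∩ Q).Nonempty := card_pos.1 (by omega)
  obtain ⟨v0, _⟩ := hTne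
  have : Inhabited V := ⟨v0⟩
  set f : V → ℕ := fun v => (Ez B Z v).card with hf
  set T := B j ∩ Q with hT
  set W := ((Q \ Z) \ B j).filter (fun v => (Ez B Z v).Nonempty) with hW
  obtain ⟨lT, pT, dT⟩ := exists_desc (T.toList.map f)
  obtain ⟨lW, pW, dW⟩ := exists_desc (W.toList.map f)
  have lenT : lT.length = 3 := by
    rw [← pT.length_eq, List.length_map, Finset.length_toList, hj]
  obtain ⟨e1, a1, a2, a3, a4⟩ := exists_enum T f pT 0
  obtain ⟨e2, b1, b2, b3, b4⟩ := exists_enum W f pW 0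
  rw [lenT] at a1 a2 a3 a4
  have hWm : ∀ v ∈ W, v ∈ Q ∧ v ∉ Z ∧ v ∉ B j := by
    intro v hv
    obtain ⟨h1, h2⟩ := mem_sdiff.1 (mem_filter.1 hv).1
    obtain ⟨h3, h4⟩ := mem_sdiff.1 h1
    exact ⟨h3, h4, h2⟩
  have hTm : ∀ v ∈ T, v ∈ Q ∧ v ∉ Z ∧ v ∈ B j := by
    intro v hv
    obtain ⟨h1, h2⟩ := mem_inter.1 hv
    exact ⟨h2, fun h3 => hjZ ⟨v, mem_inter.2 ⟨h1, h3⟩⟩, h1⟩
  refine ⟨lT, lW, fun a => if a < 3 then e1 a else e2 (a - 3), ⟨lenT, dT, dW, ?_, ?_, ?_, ?_, ?_,
    ?_, ?_, ?_⟩⟩
  · intro x hx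
    obtain ⟨v, hv, rfl⟩ := List.mem_map.1 (pW.mem_iff.2 hx)
    exact card_pos.2 (mem_filter.1 (Finset.mem_toList.1 hv)).2
  · intro a ha
    split_ifs with h1
    · have h2 := hTm _ (a1 a h1)
      exact ⟨h2.1, h2.2.1⟩
    · have h2 := hWm _ (b1 (a - 3) (by omega))
      exact ⟨h2.1, h2.2.1⟩
  · intro a ha a' ha' he
    split_ifs at he with h1 h2 h2
    · exact a2 a h1 a' h2 he
    · exfalso
      have h3 := (hTm _ (a1 a h1)).2.2
      rw [he] at h3
      exact (hWm _ (b1 (a' - 3) (by omega))).2.2 h3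
    · exfalso
      have h3 := (hTm _ (a1 a' h2)).2.2
      rw [← he] at h3
      exact (hWm _ (b1 (a - 3) (by omega))).2.2 h3
    · have := b2 (a - 3) (by omega) (a' - 3) (by omega) he
      omega
  · intro v
    constructor
    · intro hv
      obtain ⟨a, ha, he⟩ := a4 v hv
      exact ⟨a, ha, by simp only [ha, if_true]; exact he⟩
    · rintro ⟨a, ha, he⟩
      simp only [ha, if_true] at he
      rw [← he]
      exact a1 a ha
  · intro v hvQ hvZ hvE
    by_cases hvj : v ∈ B j
    · obtain ⟨a, ha, he⟩ := a4 v (mem_inter.2 ⟨hvj, hvQ⟩)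
      exact ⟨a, by omega, by simp only [ha, if_true]; exact he⟩
    · obtain ⟨a, ha, he⟩ := b4 v (mem_filter.2 ⟨mem_sdiff.2 ⟨mem_sdiff.2 ⟨hvQ, hvZ⟩, hvj⟩, hvE⟩)
      refine ⟨3 + a, by omega, ?_⟩
      simp only [show ¬ (3 + a < 3) by omega, if_false, show 3 + a - 3 = a by omega]
      exact he
  · intro a ha
    split_ifs with h1
    · rw [List.getD_append _ _ _ _ (by rw [lenT]; exact h1)]
      exact a3 a h1
    · rw [List.getD_append_right _ _ _ _ (by rw [lenT]; omega), lenT]
      exact b3 (a - 3) (by omega)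
  · rw [← pT.sum_eq, Finset.sum_map_toList, hit_eq_Ez]
  · rw [← pW.sum_eq, Finset.sum_map_toList, hit_eq_Ez, hW, sum_filter]
    refine sum_congr rfl fun v _ => ?_
    split_ifs with h1
    · rfl
    · rw [not_nonempty_iff_eq_empty] at h1
      rw [h1, card_empty]

/-- the total number of hits. -/
theorem Lbl.sum_all {Q Z : Finset V} {j : ι} {hT hW : List ℕ} {ct : ℕ → V}
    (h : Lbl B Q Z j hT hW ct) (hjZ : ¬ (B j ∩ Z).Nonempty) :
    hT.sum + hW.sum = hit B (Q \ Z) Z := by
  classical
  rw [h.sumT, h.sumW, hit_eq_Ez, hit_eq_Ez, hit_eq_Ez, ← sum_union]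
  · refine sum_congr ?_ fun _ _ => rfl
    ext v
    simp only [mem_union, mem_inter, mem_sdiff]
    constructor
    · rintro (⟨h1, h2⟩ | ⟨⟨h1, h2⟩, _⟩)
      · exact ⟨h2, fun h3 => hjZ ⟨v, mem_inter.2 ⟨h1, h3⟩⟩⟩
      · exact ⟨h1, h2⟩
    · rintro ⟨h1, h2⟩
      by_cases h3 : v ∈ B j
      · exact Or.inl ⟨h3, h1⟩
      · exact Or.inr ⟨⟨h1, h2⟩, h3⟩
  · rw [disjoint_left]
    intro v h1 h2
    exact (mem_sdiff.1 h2).2 (mem_inter.1 h1).1

/-- the blocks of a set in a given order: `zt` the points of `Z`, `bl` the blocks meeting `Z`, `zm` their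
traces as masks. -/
structure Blk (B : ι → Finset V) (Z : Finset V) (zn : ℕ) (zm : List ℕ) (bl : ℕ → ι)
    (zt : ℕ → V) : Prop where
  mem : ∀ v, v ∈ Z ↔ ∃ z < zn, zt z = v
  injz : ∀ z < zn, ∀ z' < zn, zt z = zt z' → z = z'
  inj : ∀ b < zm.length, ∀ b' < zm.length, bl b = bl b' → b = b'
  tr : ∀ b < zm.length, ∀ z < zn, (zm.getD b 0).testBit z = true ↔ zt z ∈ B (bl b)
  touch : ∀ b < zm.length, (B (bl b) ∩ Z).Nonempty
  all : ∀ i, (B i ∩ Z).Nonempty → ∃ b < zm.length, bl b = i

/-- **the blocks of a set of type (3;1)**. -/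
theorem T31.exists_blocks {L : Finset V} {a b c : V} {s : ι} (h : T31 B L a b c s) :
    ∃ bl zt, Blk B L 3 [3, 3, 3, 5, 5, 6, 6, 4] bl zt ∧ L.card = 3 := by
  classical
  have : Inhabited ι := ⟨s⟩
  have mL : ∀ v, v ∈ L ↔ v = a ∨ v = b ∨ v = c := by
    intro v
    rw [h.eq, mem_insert, mem_insert, mem_singleton]
  have haL : a ∈ L := (mL a).2 (Or.inl rfl)
  have hbL : b ∈ L := (mL b).2 (Or.inr (Or.inl rfl))
  have hcL : c ∈ L := (mL c).2 (Or.inr (Or.inr rfl))
  have hno3 : ∀ i, ¬ (a ∈ B i ∧ b ∈ B i ∧ c ∈ B i) := by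
    rintro i ⟨h1, h2, h3⟩
    have h4 : L ⊆ B i ∩ L := by
      intro v hv
      refine mem_inter.2 ⟨?_, hv⟩
      rcases (mL v).1 hv with rfl | rfl | rfl
      · exact h1
      · exact h2
      · exact h3
    have h5 := card_le_card h4
    have h6 := h.two i
    have h7 : L.card = 3 := by rw [h.eq]; exact card_eq_three.2 ⟨a, b, c, h.ab, h.ac, h.bc, rfl⟩
    omega
  have hsa : a ∈ B s ∧ b ∉ B s ∧ c ∉ B s := by
    have h1 : a ∈ B s ∩ L := by rw [h.tr]; exact mem_singleton_self a
    refine ⟨(mem_inter.1 h1).1, fun h2 => ?_, fun h2 => ?_⟩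
    · have h3 : b ∈ B s ∩ L := mem_inter.2 ⟨h2, hbL⟩
      rw [h.tr, mem_singleton] at h3
      exact h.ab h3.symm
    · have h3 : c ∈ B s ∩ L := mem_inter.2 ⟨h2, hcL⟩
      rw [h.tr, mem_singleton] at h3
      exact h.ac h3.symm
  set f : ι → ℕ := fun i => (if b ∈ B i then 1 else 0) + (if c ∈ B i then 2 else 0) +
    (if a ∈ B i then 4 else 0) with hf
  set S := (univ : Finset ι).filter (fun i => (B i ∩ L).Nonempty) with hS
  have hfS : ∀ i ∈ S, f i = 3 ∨ f i = 5 ∨ f i = 6 ∨ f i = 4 := by
    intro i hi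
    have h1 := hno3 i
    rcases h.cov i (mem_filter.1 hi).2 with h2 | h2 | h2 | h2
    · obtain ⟨h3, h4⟩ := mem_bl.1 h2
      left
      rw [hf]
      simp only [h3, h4, if_true, if_neg (fun h5 => h1 ⟨h5, h3, h4⟩)]
    · obtain ⟨h3, h4⟩ := mem_bl.1 h2
      right; left
      rw [hf]
      simp only [h3, h4, if_true, if_neg (fun h5 => h1 ⟨h3, h4, h5⟩)]
    · obtain ⟨h3, h4⟩ := mem_bl.1 h2
      right; right; left
      rw [hf]
      simp only [h3, h4, if_true, if_neg (fun h5 => h1 ⟨h3, h5, h4⟩)]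
    · right; right; right
      rw [h2, hf]
      simp only [hsa.1, if_true, if_neg hsa.2.1, if_neg hsa.2.2]
  have hcnt : ∀ k, (S.filter (fun i => f i = k)).card = [3, 3, 3, 5, 5, 6, 6, 4].count k := by
    intro k
    by_cases h3 : k = 3
    · subst h3
      have : S.filter (fun i => f i = 3) = bl B b c := by
        ext i
        rw [mem_filter, mem_bl]
        constructor
        · rintro ⟨_, h4⟩
          rw [hf] at h4
          dsimp only at h4
          split_ifs at h4 <;> first | omega | exact ⟨by assumption, by assumption⟩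
        · rintro ⟨h4, h5⟩
          refine ⟨mem_filter.2 ⟨mem_univ _, b, mem_inter.2 ⟨h4, hbL⟩⟩, ?_⟩
          rw [hf]
          simp only [h4, h5, if_true, if_neg (fun h6 => hno3 i ⟨h6, h4, h5⟩)]
      rw [this, h.cA]
      rfl
    by_cases h5 : k = 5
    · subst h5
      have : S.filter (fun i => f i = 5) = bl B a b := by
        ext i
        rw [mem_filter, mem_bl]
        constructor
        · rintro ⟨_, h4⟩
          rw [hf] at h4
          dsimp only at h4
          split_ifs at h4 <;> first | omega | exact ⟨by assumption, by assumption⟩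
        · rintro ⟨h4, h5⟩
          refine ⟨mem_filter.2 ⟨mem_univ _, b, mem_inter.2 ⟨h5, hbL⟩⟩, ?_⟩
          rw [hf]
          simp only [h4, h5, if_true, if_neg (fun h6 => hno3 i ⟨h4, h5, h6⟩)]
      rw [this, h.cB]
      rfl
    by_cases h6 : k = 6
    · subst h6
      have : S.filter (fun i => f i = 6) = bl B a c := by
        ext i
        rw [mem_filter, mem_bl]
        constructor
        · rintro ⟨_, h4⟩
          rw [hf] at h4
          dsimp only at h4
          split_ifs at h4 <;> first | omega | exact ⟨by assumption, by assumption⟩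
        · rintro ⟨h4, h5⟩
          refine ⟨mem_filter.2 ⟨mem_univ _, c, mem_inter.2 ⟨h5, hcL⟩⟩, ?_⟩
          rw [hf]
          simp only [h4, h5, if_true, if_neg (fun h6 => hno3 i ⟨h4, h6, h5⟩)]
      rw [this, h.cC]
      rfl
    by_cases h4 : k = 4
    · subst h4
      have : S.filter (fun i => f i = 4) = {s} := by
        ext i
        rw [mem_filter, mem_singleton]
        constructor
        · rintro ⟨h4, h7⟩
          rcases h.cov i (mem_filter.1 h4).2 with h2 | h2 | h2 | h2
          · exfalso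
            obtain ⟨h8, h9⟩ := mem_bl.1 h2
            rw [hf] at h7
            simp only [h8, h9, if_true] at h7
            split_ifs at h7 <;> omega
          · exfalso
            obtain ⟨h8, h9⟩ := mem_bl.1 h2
            rw [hf] at h7
            simp only [h8, h9, if_true] at h7
            split_ifs at h7 <;> omega
          · exfalso
            obtain ⟨h8, h9⟩ := mem_bl.1 h2
            rw [hf] at h7
            simp only [h8, h9, if_true] at h7
            split_ifs at h7 <;> omega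
          · exact h2
        · rintro rfl
          refine ⟨mem_filter.2 ⟨mem_univ _, a, mem_inter.2 ⟨hsa.1, haL⟩⟩, ?_⟩
          rw [hf]
          simp only [hsa.1, if_true, if_neg hsa.2.1, if_neg hsa.2.2]
      rw [this, card_singleton]
      rfl
    · have h7 : S.filter (fun i => f i = k) = ∅ := by
        rw [filter_eq_empty_iff]
        intro i hi h8
        have := hfS i hi
        omega
      rw [h7, card_empty]
      symm
      rw [List.count_eq_zero]
      simp only [List.mem_cons, List.not_mem_nil, or_false]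
      tauto
  obtain ⟨e, e1, e2, e3, e4⟩ := exists_enum_count S f hcnt 0
  have hb3 : ∀ p q r : Prop, ∀ [Decidable p] [Decidable q] [Decidable r],
      ((((if p then 1 else 0) + (if q then 2 else 0) + (if r then 4 else 0) : ℕ)).testBit 0 = true
        ↔ p) ∧
      ((((if p then 1 else 0) + (if q then 2 else 0) + (if r then 4 else 0) : ℕ)).testBit 1 = true
        ↔ q) ∧
      ((((if p then 1 else 0) + (if q then 2 else 0) + (if r then 4 else 0) : ℕ)).testBit 2 = true
        ↔ r) := by
    intro p q r _ _ _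
    by_cases hp : p <;> by_cases hq : q <;> by_cases hr : r <;>
      simp only [hp, hq, hr, if_true, if_false] <;> decide
  have hbit : ∀ i z, z < 3 → ((f i).testBit z = true ↔
      (if z = 0 then b else if z = 1 then c else a) ∈ B i) := by
    intro i z hz
    have h1 := hb3 (b ∈ B i) (c ∈ B i) (a ∈ B i)
    have hz3 : z = 0 ∨ z = 1 ∨ z = 2 := by omega
    rcases hz3 with rfl | rfl | rfl
    · rw [if_pos rfl]
      exact h1.1
    · rw [if_neg (by norm_num), if_pos rfl]
      exact h1.2.1
    · rw [if_neg (by norm_num), if_neg (by norm_num)]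
      exact h1.2.2
  refine ⟨e, fun z => if z = 0 then b else if z = 1 then c else a, ⟨?_, ?_, e2, ?_, ?_, ?_⟩, by
    rw [h.eq]; exact card_eq_three.2 ⟨a, b, c, h.ab, h.ac, h.bc, rfl⟩⟩
  · intro v
    rw [mL]
    constructor
    · rintro (rfl | rfl | rfl)
      · exact ⟨2, by norm_num, by norm_num⟩
      · exact ⟨0, by norm_num, by norm_num⟩
      · exact ⟨1, by norm_num, by norm_num⟩
    · rintro ⟨z, hz, rfl⟩
      have hz3 : z = 0 ∨ z = 1 ∨ z = 2 := by omega
      rcases hz3 with rfl | rfl | rfl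
      · right; left; norm_num
      · right; right; norm_num
      · left; norm_num
  · intro z hz z' hz' he
    have hz3 : z = 0 ∨ z = 1 ∨ z = 2 := by omega
    have hz3' : z' = 0 ∨ z' = 1 ∨ z' = 2 := by omega
    have h1 := h.ab
    have h2 := h.ac
    have h3 := h.bc
    rcases hz3 with rfl | rfl | rfl <;> rcases hz3' with rfl | rfl | rfl <;>
      first
      | rfl
      | (exfalso
         norm_num at he
         first
         | exact h3 he
         | exact h1 he
         | exact h2 he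
         | exact h3 he.symm
         | exact h1 he.symm
         | exact h2 he.symm)
  · intro k hk z hz
    rw [← e3 k hk]
    exact hbit (e k) z hz
  · intro k hk
    exact (mem_filter.1 (e1 k hk)).2
  · intro i hi
    obtain ⟨k, hk, he⟩ := e4 i (mem_filter.2 ⟨mem_univ _, hi⟩)
    exact ⟨k, hk, he⟩

end Pool.Agent.Hyp6
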