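import Pool.Agent.Hyp6.Gdy

/-!
# HYP6 GDZ: tables for the general deletion, the main theorem

`Gx.sat_gd`: every checked general deletion gives a clause which holds. `Gx.absurd`: a checked
refutation excludes the instance.
-/

set_option autoImplicit false

namespace Pool.Agent.Hyp6

open Finset Pool.Agent.Hyp5 Rup

universe u v

namespace Gdx

variable {V : Type v} [DecidableEq V] {ι : Type u} [Fintype ι]
  {B : ι → Finset V} {Q Z : Finset V} {P : Gp} {bl : ℕ → ι} {ct zt : ℕ → V} {tb : ℕ → ι}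

/-- masks inside blocks cost one block each. -/
theorem Gx.rho_ms (h : Gx B Q Z P bl ct zt tb) {A : Finset V} (hA : A ⊆ Q) : ∀ {ms : List ℕ},
    (∀ m ∈ ms, ∃ i, ptm ct P.M m ⊆ B i) →
    rho B (A ∪ ptm ct P.M (orl ms)) ≤ rho B A + ms.length := by
  intro ms
  induction ms with
  | nil =>
    intro _
    have h1 : orl [] = 0 := rfl
    rw [h1, ptm_zero, union_empty]
    simp
  | cons m ms ih =>
    intro hm
    have h1 : orl (m :: ms) = m ||| orl ms := rfl
    obtain ⟨i, hi⟩ := hm m List.mem_cons_self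
    have h2 := ih (fun m' hm' => hm m' (List.mem_cons_of_mem _ hm'))
    have h3 : A ∪ ptm ct P.M (orl (m :: ms)) = (A ∪ ptm ct P.M (orl ms)) ∪ ptm ct P.M m := by
      rw [h1, ptm_or, union_comm (ptm ct P.M m), union_assoc]
    rw [h3, List.length_cons]
    have h4 := rho_union_le (B := B) (h.cov.mono (union_subset hA (h.ptmQ (orl ms))))
      (h.cov.mono (h.ptmQ m))
    have h5 := rho_le_one hi
    omega

theorem Gx.exists_block (h : Gx B Q Z P bl ct zt tb) {x : V} (hx : x ∈ Q) : ∃ i, x ∈ B i :=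
  h.cov x hx

theorem Gx.free_block (h : Gx B Q Z P bl ct zt tb) {m : ℕ} (hm : P.free m = true) :
    ∃ i, ptm ct P.M m ⊆ B i := by
  unfold Gp.free at hm
  rw [Bool.or_eq_true] at hm
  rcases hm with hm | hm
  · have h1 := Nat.le_of_ble_eq_true hm
    rw [← h.card_ptm] at h1
    rcases (ptm ct P.M m).eq_empty_or_nonempty with h2 | ⟨x, hx⟩
    · obtain ⟨z, hz⟩ := h.Zne
      obtain ⟨i, _⟩ := h.exists_block (h.ZQ hz)
      exact ⟨i, by rw [h2]; exact empty_subset _⟩
    · obtain ⟨i, hi⟩ := h.exists_block (h.ptmQ m hx)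
      refine ⟨i, fun y hy => ?_⟩
      rw [card_le_one.1 h1 y hy x hx]
      exact hi
  · obtain ⟨t, ht, h1⟩ := List.any_eq_true.1 hm
    have h1 := Nat.eq_of_beq_eq_true h1
    obtain ⟨j, hj, hjt⟩ := List.mem_iff_getElem.1 ht
    have h2 : P.t j = t := by
      unfold Gp.t
      rw [List.getD_eq_getElem _ _ hj, hjt]
    refine ⟨tb j, ?_⟩
    have h3 : ptm ct P.M m ⊆ ptm ct P.M t := ptm_mono fun a _ ha => by
      rw [← h1, Nat.testBit_or, ha, Bool.true_or]
    refine h3.trans ?_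
    rw [← h2, ← h.tbT j hj]
    exact inter_subset_left

/-- the cost of a checked cover. -/
theorem Gx.cover (h : Gx B Q Z P bl ct zt tb) {lits : List ℕ}
    (hf : ∀ l ∈ lits, ¬ Lit (gval B Q Z P bl ct) l) {e : Ge} (hok : e.ok P lits = true) :
    rho B (Z ∪ ptm ct P.M e.E) ≤ rho B Z + e.n := by
  classical
  have h32 := h.M32
  unfold Ge.ok at hok
  rw [Bool.and_eq_true] at hok
  obtain ⟨hok, hms⟩ := hok
  have hms' : ∀ m ∈ e.ms, ∃ i, ptm ct P.M m ⊆ B i := by
    intro m hm
    have h1 := List.all_eq_true.1 hms m hm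
    rw [Bool.or_eq_true] at h1
    rcases h1 with h1 | h1
    · exact h.free_block h1
    · rw [List.contains_iff_mem] at h1
      have h2 := hf _ h1
      rw [lit_ng, gval_S, not_not] at h2
      exact h2
  rcases hbs : e.bs with _ | ⟨b0, bs⟩
  · rw [hbs] at hok
    simp only [Bool.and_eq_true, Bool.or_eq_true] at hok
    obtain ⟨h1, h2, h3⟩ := hok
    have h1 := Nat.eq_of_beq_eq_true h1
    have h2 := Nat.eq_of_beq_eq_true h2
    have h4 : rho B (Z ∪ ptm ct P.M e.S) ≤ rho B Z := by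
      rcases h3 with h3 | h3
      · rw [Nat.eq_of_beq_eq_true h3, ptm_zero, union_empty]
      · rw [List.contains_iff_mem] at h3
        have h5 := hf _ h3
        rw [lit_ng, gval_A, not_not] at h5
        exact h5
    have h5 := h.rho_ms (union_subset h.ZQ (h.ptmQ e.S)) hms'
    rw [← h2, ptm_or, ← union_assoc]
    omega
  · have hne : e.bs = b0 :: bs := hbs
    rw [hbs] at hok
    simp only [Bool.and_eq_true, List.all_eq_true, Nat.blt_eq, List.contains_iff_mem] at hok
    obtain ⟨h1, h2, h3, h4, h5⟩ := hok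
    have h1 := Nat.eq_of_beq_eq_true h1
    have h2 := Nat.eq_of_beq_eq_true h2
    have h4 := Nat.eq_of_beq_eq_true h4
    set C := orl (e.ch.map (fun q => 2 ^ q.1)) with hC
    have h6 : Z ∪ ptm ct P.M C ⊆ ((b0 :: bs).toFinset.image bl).biUnion B := by
      refine union_subset ?_ ?_
      · intro v hv
        obtain ⟨b, hb, hvb⟩ := h.covers h3 h4 hv
        exact mem_biUnion.2 ⟨bl b, mem_image.2 ⟨b, List.mem_toFinset.2 hb, rfl⟩, hvb⟩
      · intro v hv
        obtain ⟨a, ha, hSa, rfl⟩ := mem_ptm.1 hv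
        rw [hC, orl_bit] at hSa
        obtain ⟨c, hc, hca⟩ := hSa
        obtain ⟨q, hq, rfl⟩ := List.mem_map.1 hc
        have hqa : q.1 = a := by
          by_contra hne'
          rw [Nat.testBit_two_pow_of_ne hne'] at hca
          exact absurd hca (by simp)
        obtain ⟨h7, h8, h9⟩ := h5 q hq
        have h10 := hf _ h9
        rw [lit_ng, gval_P (by omega), not_not] at h10
        refine mem_biUnion.2 ⟨bl q.2, mem_image.2 ⟨q.2, List.mem_toFinset.2 h8, rfl⟩, ?_⟩
        rw [← hqa]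
        exact h10
    have h7 : rho B (Z ∪ ptm ct P.M C) ≤ (b0 :: bs).length :=
      (rho_le h6).trans (card_image_le.trans (List.toFinset_card_le _))
    have h8 := h.rho_ms (union_subset h.ZQ (h.ptmQ C)) hms'
    rw [← h2, ptm_or, ← union_assoc]
    have h9 := h.rZ
    omega

/-- the number of blocks of a label which meet `Z`. -/
theorem Gx.card_meet (h : Gx B Q Z P bl ct zt tb) (x : V) :
    (univ.filter (fun i => x ∈ B i ∧ (B i ∩ Z).Nonempty)).card = hts B P.m bl x := by
  classical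
  have h1 : univ.filter (fun i => x ∈ B i ∧ (B i ∩ Z).Nonempty) =
      ((range P.m).filter (fun b => x ∈ B (bl b))).image bl := by
    ext i
    simp only [mem_filter, mem_univ, true_and, mem_image, mem_range]
    constructor
    · rintro ⟨h2, h3⟩
      obtain ⟨b, hb, rfl⟩ := (h.bl_all i).1 h3
      exact ⟨b, ⟨hb, h2⟩, rfl⟩
    · rintro ⟨b, ⟨hb, h2⟩, rfl⟩
      exact ⟨h2, h.meetZ hb⟩
  rw [h1, card_image_of_injOn]
  · rfl
  · intro a ha b hb hab
    rw [mem_coe, mem_filter, mem_range] at ha hb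
    exact h.bl_inj a ha.1 b hb.1 hab

theorem Gx.tb_not_meet (h : Gx B Q Z P bl ct zt tb) {j : ℕ} (hj : j < P.tm.length) :
    ¬ (B (tb j) ∩ Z).Nonempty := by
  rintro ⟨v, hv⟩
  obtain ⟨hv1, hv2⟩ := mem_inter.1 hv
  have h1 : v ∈ B (tb j) ∩ Q := mem_inter.2 ⟨hv1, h.ZQ hv2⟩
  rw [h.tbT j hj] at h1
  obtain ⟨a, ha, _, rfl⟩ := mem_ptm.1 h1
  exact h.ctZ a ha hv2

/-- the number of kept blocks. -/
theorem Gx.card_kp (h : Gx B Q Z P bl ct zt tb) {J : List ℕ} (hJ : J.Nodup)
    (hJl : ∀ j ∈ J, j < P.tm.length) [DecidableEq ι] {a : ℕ} (ha : a < P.M) :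
    (Gdl.kp B Z (J.toFinset.image tb) (ct a)).card +
      (hts B P.m bl (ct a) + J.countP (fun j => (P.t j).testBit a)) = 5 := by
  classical
  set I := J.toFinset.image tb with hI
  have h1 : (univ.filter (fun i => ct a ∈ B i)).card = 5 := h.hv.reg (ct a) (h.ctQ a ha)
  have h2 : univ.filter (fun i => ct a ∈ B i) = (Gdl.kp B Z I (ct a) ∪
      univ.filter (fun i => ct a ∈ B i ∧ (B i ∩ Z).Nonempty)) ∪
        I.filter (fun i => ct a ∈ B i) := by
    ext i
    simp only [mem_union, mem_filter, mem_univ, true_and, Gdl.mem_kp]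
    tauto
  have h4 : Disjoint (Gdl.kp B Z I (ct a))
      (univ.filter (fun i => ct a ∈ B i ∧ (B i ∩ Z).Nonempty)) := by
    rw [disjoint_left]
    intro i hi hi'
    exact (Gdl.mem_kp.1 hi).2.1 (mem_filter.1 hi').2.2
  have h5 : Disjoint (Gdl.kp B Z I (ct a) ∪
      univ.filter (fun i => ct a ∈ B i ∧ (B i ∩ Z).Nonempty))
      (I.filter (fun i => ct a ∈ B i)) := by
    rw [disjoint_left]
    intro i hi hi'
    have hiI := (mem_filter.1 hi').1
    rcases mem_union.1 hi with h6 | h6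
    · exact (Gdl.mem_kp.1 h6).2.2 hiI
    · rw [hI] at hiI
      obtain ⟨j, hj, rfl⟩ := mem_image.1 hiI
      exact h.tb_not_meet (hJl j (List.mem_toFinset.1 hj)) (mem_filter.1 h6).2.2
  have h6 : (I.filter (fun i => ct a ∈ B i)).card = J.countP (fun j => (P.t j).testBit a) := by
    have h7 : I.filter (fun i => ct a ∈ B i) =
        (J.toFinset.filter (fun j => (P.t j).testBit a = true)).image tb := by
      ext i
      simp only [hI, mem_filter, mem_image]
      constructor
      · rintro ⟨⟨j, hj, rfl⟩, h8⟩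
        refine ⟨j, ⟨hj, ?_⟩, rfl⟩
        have h9 : ct a ∈ B (tb j) ∩ Q := mem_inter.2 ⟨h8, h.ctQ a ha⟩
        rw [h.tbT j (hJl j (List.mem_toFinset.1 hj))] at h9
        exact (h.mem_ptm_iff ha).1 h9
      · rintro ⟨j, ⟨hj, h8⟩, rfl⟩
        refine ⟨⟨j, hj, rfl⟩, ?_⟩
        have h9 := (h.mem_ptm_iff ha).2 h8
        rw [← h.tbT j (hJl j (List.mem_toFinset.1 hj))] at h9
        exact (mem_inter.1 h9).1
    rw [h7, card_image_of_injOn, List.countP_eq_length_filter,
      ← List.toFinset_card_of_nodup (hJ.filter _)]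
    · congr 1
      ext j
      simp
    · intro x hx y hy hxy
      rw [mem_coe, mem_filter, List.mem_toFinset] at hx hy
      exact h.tb_inj x (hJl x hx.1) y (hJl y hy.1) hxy
  rw [h2, card_union_of_disjoint h5, card_union_of_disjoint h4, h6, h.card_meet] at h1
  omega

/-- the facts of a checked label outside `X`. -/
theorem Gx.lab_out (h : Gx B Q Z P bl ct zt tb) {g : Gk}
    (hf : ∀ l ∈ g.lits, ¬ Lit (gval B Q Z P bl ct) l) {a : ℕ} (ha : a < P.M)
    (hok : g.lab P a = true) (hX : ¬ g.X.testBit a = true) :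
    g.idg P a ≤ deg1 g.N a ∧ deg1 g.N a ≤ 5 ∧ hts B P.m bl (ct a) + g.idg P a ≤ deg1 g.N a ∧
      (deg1 g.N a ≠ 0 → ¬ g.S.testBit a = true →
        deg1 g.N a ≤ hts B P.m bl (ct a) + g.idg P a) := by
  have h32 := h.M32
  unfold Gk.lab at hok
  rw [if_neg hX] at hok
  simp only [Bool.and_eq_true, Bool.or_eq_true, Nat.blt_eq, List.contains_iff_mem] at hok
  obtain ⟨h1, h2, h3, h4⟩ := hok
  have h1 := Nat.le_of_ble_eq_true h1
  have h2 := Nat.le_of_ble_eq_true h2
  refine ⟨h1, h2, ?_, ?_⟩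
  · rcases h3 with h3 | h3
    · have := h.hhi a ha
      omega
    · have h5 := hf _ h3
      rw [lit_ps, gval_E (by omega)] at h5
      omega
  · intro h5 h6
    rcases h4 with h4 | h4 | h4 | h4
    · exact absurd (Nat.eq_of_beq_eq_true h4) h5
    · exact absurd h4 h6
    · have h7 := Nat.le_of_ble_eq_true h4
      have := h.hlo a ha
      omega
    · have h7 := hf _ h4
      rw [lit_ng, gval_E (by omega), not_not] at h7
      omega

theorem getD_mem {N : List ℕ} {k : ℕ} (hk : k < N.length) : N.getD k 0 ∈ N := by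
  rw [List.getD_eq_getElem _ _ hk]
  exact List.getElem_mem hk

theorem deg1_pos {N : List ℕ} {a : ℕ} : 0 < deg1 N a ↔ ∃ c ∈ N, c.testBit a = true := by
  unfold deg1
  rw [List.countP_pos_iff]

/-- **every checked general deletion gives a clause which holds.** -/
theorem Gx.sat_gd (h : Gx B Q Z P bl ct zt tb) (g : Gk) (hok : g.ok P = true) :
    Sat (gval B Q Z P bl ct) g.lits := by
  classical
  by_contra hcon
  have hf : ∀ l ∈ g.lits, ¬ Lit (gval B Q Z P bl ct) l := fun l hl hL => hcon ⟨l, hl, hL⟩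
  unfold Gk.ok at hok
  simp only [Bool.and_eq_true] at hok
  obtain ⟨hlab, hN3, hXS, hinc, hIl, hes, hK, hcl, hcov, hcl0, hnum, hXz, hdn⟩ := hok
  have hlab : ∀ a < P.M, g.lab P a = true := fun a ha =>
    List.all_eq_true.1 hlab a (List.mem_range.2 ha)
  have hN3 : ∀ c ∈ g.N, pcn P.M c ≤ 3 := fun c hc =>
    Nat.le_of_ble_eq_true (List.all_eq_true.1 hN3 c hc)
  have hInd := inc_nodup hinc
  have hIl : ∀ j ∈ g.I, j < P.tm.length := fun j hj => by
    have := List.all_eq_true.1 hIl j hj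
    rwa [Nat.blt_eq] at this
  have hes : ∀ e ∈ g.es, e.ok P g.lits = true := fun e he => List.all_eq_true.1 hes e he
  have hcl : ∀ c ∈ g.cl, g.cok P c = true := fun c hc => List.all_eq_true.1 hcl c hc
  have hnum := Nat.le_of_ble_eq_true hnum
  have hXz := Nat.le_of_ble_eq_true hXz
  rw [Nat.blt_eq] at hcl0
  have hv := h.hv
  -- the sets
  set X := ptm ct P.M g.X with hX
  set Yl := (range P.M).filter (fun a => ¬ g.X.testBit a = true ∧ 0 < deg1 g.N a) with hYl
  set Y := Yl.image ct with hY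
  set I := g.I.toFinset.image tb with hI
  set N : ULift.{u} (Fin g.N.length) → Finset V := fun c =>
    ptm ct P.M (g.N.getD c.down.val 0) with hN
  have hmY : ∀ {v : V}, v ∈ Y ↔ ∃ a < P.M, (¬ g.X.testBit a = true ∧ 0 < deg1 g.N a) ∧ ct a = v := by
    intro v
    rw [hY, mem_image]
    constructor
    · rintro ⟨a, ha, hav⟩
      rw [hYl, mem_filter, mem_range] at ha
      exact ⟨a, ha.1, ha.2, hav⟩
    · rintro ⟨a, ha, h1, hav⟩
      exact ⟨a, mem_filter.2 ⟨mem_range.2 ha, h1⟩, hav⟩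
  have hmYct : ∀ {a : ℕ}, a < P.M → (ct a ∈ Y ↔ (¬ g.X.testBit a = true ∧ 0 < deg1 g.N a)) := by
    intro a ha
    rw [hmY]
    constructor
    · rintro ⟨b, hb, h1, hab⟩
      rw [← h.ct_inj b hb a ha hab]
      exact h1
    · intro h1
      exact ⟨a, ha, h1, rfl⟩
  have hXQ : X ⊆ Q := h.ptmQ g.X
  have hYQ : Y ⊆ Q := by
    intro v hv'
    obtain ⟨a, ha, _, rfl⟩ := hmY.1 hv'
    exact h.ctQ a ha
  have dZX : Disjoint Z X := by
    rw [disjoint_left]
    intro v hv1 hv2
    obtain ⟨a, ha, _, rfl⟩ := mem_ptm.1 hv2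
    exact h.ctZ a ha hv1
  have dZY : Disjoint Z Y := by
    rw [disjoint_left]
    intro v hv1 hv2
    obtain ⟨a, ha, _, rfl⟩ := hmY.1 hv2
    exact h.ctZ a ha hv1
  have dXY : Disjoint X Y := by
    rw [disjoint_left]
    intro v hv1 hv2
    obtain ⟨a, ha, h1, rfl⟩ := hmY.1 hv2
    exact h1.1 ((h.mem_ptm_iff ha).1 hv1)
  -- labels with a hit or in a deleted triple are in X or Y
  have hin : ∀ a < P.M, 0 < hts B P.m bl (ct a) + g.idg P a → ct a ∈ X ∪ Y := by
    intro a ha h1
    by_cases h2 : g.X.testBit a = true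
    · exact mem_union_left _ ((h.mem_ptm_iff ha).2 h2)
    · have h3 := h.lab_out hf ha (hlab a ha) h2
      exact mem_union_right _ ((hmYct ha).2 ⟨h2, by omega⟩)
  have hcon' : ∀ i, (B i ∩ Z).Nonempty → B i ∩ Q ⊆ (Z ∪ X) ∪ Y := by
    intro i hi v hv'
    obtain ⟨hvi, hvQ⟩ := mem_inter.1 hv'
    obtain ⟨b, hb, rfl⟩ := (h.bl_all i).1 hi
    rcases h.con b hb v hvi hvQ with h1 | ⟨a, ha, rfl⟩
    · exact mem_union_left _ (mem_union_left _ h1)
    · have h1 : 0 < hts B P.m bl (ct a) :=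
        card_pos.2 ⟨b, mem_filter.2 ⟨mem_range.2 hb, hvi⟩⟩
      rcases mem_union.1 (hin a ha (by omega)) with h2 | h2
      · exact mem_union_left _ (mem_union_right _ h2)
      · exact mem_union_right _ h2
  have hfull : ∀ i ∈ I, B i ∩ Q ⊆ X ∪ Y ∧ (B i ∩ Q).card = 3 := by
    intro i hi
    obtain ⟨j, hj, rfl⟩ := mem_image.1 hi
    have hj' := List.mem_toFinset.1 hj
    refine ⟨?_, h.tb3 j (hIl j hj')⟩
    rw [h.tbT j (hIl j hj')]
    intro v hv'
    obtain ⟨a, ha, h1, rfl⟩ := mem_ptm.1 hv'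
    refine hin a ha ?_
    have h2 : 0 < g.idg P a := by
      unfold Gk.idg
      rw [List.countP_pos_iff]
      exact ⟨j, hj', h1⟩
    omega
  have hsubN : ∀ c, N c ⊆ Y := by
    intro c v hv'
    obtain ⟨a, ha, h1, rfl⟩ := mem_ptm.1 hv'
    have h2 : 0 < deg1 g.N a := deg1_pos.2 ⟨_, getD_mem c.down.isLt, h1⟩
    refine (hmYct ha).2 ⟨fun h3 => ?_, h2⟩
    have h4 := hlab a ha
    unfold Gk.lab at h4
    rw [if_pos h3] at h4
    have h5 := Nat.eq_of_beq_eq_true h4
    omega
  have hdegN : ∀ a < P.M, (univ.filter (fun c => ct a ∈ N c)).card = deg1 g.N a := by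
    intro a ha
    rw [deg1_eq, ← card_ul.{u} (n := g.N.length)
      (fun c => (g.N.getD c 0).testBit a = true)]
    congr 1
    ext c
    simp only [mem_filter, mem_univ, true_and]
    exact h.mem_ptm_iff ha
  have hkp : ∀ a < P.M, (Gdl.kp B Z I (ct a)).card +
      (hts B P.m bl (ct a) + g.idg P a) = 5 := fun a ha => h.card_kp hInd hIl ha
  -- the cost
  have hcost : ∀ K : Finset (ULift.{u} (Fin g.N.length)),
      rho B ((Z ∪ X) ∪ K.biUnion N) ≤ rho B Z + K.card := by
    intro K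
    set K' := K.image (fun c => c.down.val) with hK'
    have hK'c : K'.card = K.card := card_image_of_injective _ fun c d hcd =>
      ULift.down_injective (Fin.ext hcd)
    have hK's : K' ⊆ range g.N.length := by
      intro k hk
      obtain ⟨c, _, rfl⟩ := mem_image.1 hk
      exact mem_range.2 c.down.isLt
    obtain ⟨e, he, h1, h2, h3⟩ := chkK_spec hK K' hK's
    have h4 := h.cover hf (hes e he)
    have h5 : (Z ∪ X) ∪ K.biUnion N ⊆ Z ∪ ptm ct P.M e.E := by
      refine union_subset (union_subset_union (Subset.refl _) (ptm_mono fun a _ ha => h2 a ha)) ?_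
      intro v hv'
      obtain ⟨c, hc, hvc⟩ := mem_biUnion.1 hv'
      obtain ⟨a, ha, h6, rfl⟩ := mem_ptm.1 hvc
      exact mem_union_right _ ((h.mem_ptm_iff ha).2 (h3 c.down.val (mem_image.2 ⟨c, hc, rfl⟩) a h6))
    have h6 := rho_mono h5 (h.cov.mono (union_subset h.ZQ (h.ptmQ e.E)))
    omega
  -- lost and new blocks
  have hlos : ∀ a < P.M, Gdl.los B Z I (ct a) = hts B P.m bl (ct a) + g.idg P a := by
    intro a ha
    have k1 := hkp a ha
    have k2 := Gdl.kp_card (B := B) (I := I) hv.reg h.ZQ dZX dZY hfull (h.ctQ a ha)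
    omega
  have hnnd : ∀ a < P.M, Gdl.nnd N (ct a) = deg1 g.N a := hdegN
  set S' := Y ∩ ptm ct P.M g.S with hS'
  have hS'c : S'.card ≤ pcn P.M g.S := by
    rw [← h.card_ptm]
    exact card_le_card inter_subset_right
  have hXc : X.card = pcn P.M g.X := h.card_ptm g.X
  have htrim : X.card + S'.card ≤ 2 ∨ (X.card + S'.card ≤ 3 ∧ ∃ y0 ∈ S', ∃ x0 ∈ X ∪ S',
      Gdl.nnd N y0 ≤ Gdl.los B Z I x0) := by
    unfold Gk.trim at hXS
    rw [Bool.or_eq_true, Bool.and_eq_true] at hXS
    rcases hXS with h1 | ⟨h1, h2⟩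
    · have h1 := Nat.le_of_ble_eq_true h1
      left
      omega
    · have h1 := Nat.le_of_ble_eq_true h1
      obtain ⟨a, ha, h3⟩ := List.any_eq_true.1 h2
      rw [List.mem_range] at ha
      simp only [Bool.and_eq_true, Bool.not_eq_true', Nat.blt_eq] at h3
      obtain ⟨k1, k2, k3, k4⟩ := h3
      obtain ⟨b, hb, k5⟩ := List.any_eq_true.1 k4
      rw [List.mem_range] at hb
      simp only [Bool.and_eq_true, Bool.or_eq_true, Nat.blt_eq] at k5
      obtain ⟨k5, k6⟩ := k5
      have k6 := Nat.le_of_ble_eq_true k6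
      right
      refine ⟨by omega, ct a, ?_, ct b, ?_, ?_⟩
      · refine mem_inter.2 ⟨(hmYct ha).2 ⟨?_, k3⟩, (h.mem_ptm_iff ha).2 k1⟩
        rw [k2]
        simp
      · by_cases k7 : g.X.testBit b = true
        · exact mem_union_left _ ((h.mem_ptm_iff hb).2 k7)
        · rcases k5 with k5 | k5
          · exact absurd k5 k7
          · exact mem_union_right _ (mem_inter.2 ⟨(hmYct hb).2 ⟨k7, k5.2⟩,
              (h.mem_ptm_iff hb).2 k5.1⟩)
      · rw [hnnd a ha, hlos b hb]
        have := h.hlo b hb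
        omega
  obtain ⟨E, hG, hEk, hmeet⟩ := Gdl.exists_trim3 hv h.ZQ h.Zne hXQ hYQ dZX dZY dXY hcon' hfull
    hsubN
    (fun y hy => by
      obtain ⟨a, ha, h1, rfl⟩ := hmY.1 hy
      rw [hlos a ha, hnnd a ha]
      exact (h.lab_out hf ha (hlab a ha) h1.1).2.2.1)
    (fun y hy => by
      obtain ⟨a, ha, h1, rfl⟩ := hmY.1 hy
      rw [hnnd a ha]
      exact (h.lab_out hf ha (hlab a ha) h1.1).2.1)
    (fun c => by
      have h1 := h.card_ptm (g.N.getD c.down.val 0)
      rw [hN]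
      simp only
      rw [h1]
      exact hN3 _ (getD_mem c.down.isLt)) hcost (S := S') inter_subset_left
    (fun y hy hyS => by
      obtain ⟨a, ha, h1, rfl⟩ := hmY.1 hy
      rw [hlos a ha, hnnd a ha]
      exact (h.lab_out hf ha (hlab a ha) h1.1).2.2.2 (by omega)
        (fun h3 => hyS (mem_inter.2 ⟨hy, (h.mem_ptm_iff ha).2 h3⟩))) htrim
  have hw := hG.wir
  -- the link classes
  have hlk : ∀ c, g.lk P c = true → ptm ct P.M c ⊆ Y ∧
      ∀ W, Closed (gr (absG B (Gdl.rm Q Z X Y) Y E N)) (Gdl.rm Q Z X Y ∪ Y) W →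
        ∀ x ∈ ptm ct P.M c, x ∈ W → ptm ct P.M c ⊆ W := by
    intro c hc
    unfold Gk.lk at hc
    rw [Bool.or_eq_true] at hc
    rcases hc with hc | hc
    · rw [List.contains_iff_mem] at hc
      obtain ⟨k, hk, hkc⟩ := List.mem_iff_getElem.1 hc
      have h1 : N (ULift.up ⟨k, hk⟩) = ptm ct P.M c := by
        rw [hN]
        simp only
        rw [List.getD_eq_getElem _ _ hk, hkc]
      have h2 : ptm ct P.M c ⊆ Y := by
        rw [← h1]
        exact hsubN _
      refine ⟨h2, fun W hW x hx hxW y hy => ?_⟩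
      by_cases hxy : x = y
      · rw [← hxy]
        exact hxW
      · rw [← h1] at hx hy
        exact hW.2 x hxW y (mem_union_right _ (hsubN _ hy)) (hw.adj_N hxy hx hy)
    · obtain ⟨j, hj, h1⟩ := List.any_eq_true.1 hc
      rw [List.mem_range] at hj
      rw [Bool.and_eq_true, Bool.not_eq_true', List.all_eq_true] at h1
      obtain ⟨hjI, h1⟩ := h1
      have hjI' : tb j ∉ I := by
        intro h2
        obtain ⟨j', hj', h3⟩ := mem_image.1 h2
        have hj'' := List.mem_toFinset.1 hj'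
        have h4 := h.tb_inj j' (hIl j' hj'') j hj h3
        rw [h4] at hj''
        have h5 : g.I.contains j = true := List.contains_iff_mem.2 hj''
        rw [h5] at hjI
        exact absurd hjI (by simp)
      have h2 : ∀ a < P.M, c.testBit a = true → (P.t j).testBit a = true ∧ ct a ∈ Y ∧
          ¬ g.S.testBit a = true := by
        intro a ha hca
        have h3 := h1 a (List.mem_range.2 ha)
        rw [hca] at h3
        simp only [Bool.not_true, Bool.false_or, Bool.and_eq_true, Nat.blt_eq,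
          Bool.not_eq_true'] at h3
        obtain ⟨h4, h5, h6, h7⟩ := h3
        refine ⟨h4, (hmYct ha).2 ⟨?_, h6⟩, ?_⟩
        · rw [h5]
          simp
        · rw [h7]
          simp
      have hkey : ∀ a < P.M, c.testBit a = true → tb j ∈ E (ct a) := by
        intro a ha hca
        obtain ⟨h3, h4, h5⟩ := h2 a ha hca
        refine hEk _ h4 (fun k1 => h5 ((h.mem_ptm_iff ha).1 (mem_inter.1 k1).2)) _ ?_
          (h.tb_not_meet hj) hjI'
        have h6 := (h.mem_ptm_iff ha).2 h3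
        rw [← h.tbT j hj] at h6
        exact (mem_inter.1 h6).1
      refine ⟨fun v hv' => ?_, fun W hW x hx hxW y hy => ?_⟩
      · obtain ⟨a, ha, hca, rfl⟩ := mem_ptm.1 hv'
        exact (h2 a ha hca).2.1
      · by_cases hxy : x = y
        · rw [← hxy]
          exact hxW
        · obtain ⟨a, ha, hca, rfl⟩ := mem_ptm.1 hx
          obtain ⟨b, hb, hcb, rfl⟩ := mem_ptm.1 hy
          refine hW.2 _ hxW _ (mem_union_right _ (h2 b hb hcb).2.1)
            ⟨hxy, Sum.inl (tb j), ?_, ?_⟩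
          · exact mem_absG_inl.2 (Or.inr ⟨(h2 a ha hca).2.1, hkey a ha hca⟩)
          · exact mem_absG_inl.2 (Or.inr ⟨(h2 b hb hcb).2.1, hkey b hb hcb⟩)
  have hlnk : ∀ (l : List ℕ) (acc : ℕ), g.lnk P l acc = true → ptm ct P.M acc ⊆ Y →
      (∀ W, Closed (gr (absG B (Gdl.rm Q Z X Y) Y E N)) (Gdl.rm Q Z X Y ∪ Y) W →
        ∀ x ∈ ptm ct P.M acc, x ∈ W → ptm ct P.M acc ⊆ W) →
      ptm ct P.M (acc ||| orl l) ⊆ Y ∧
      ∀ W, Closed (gr (absG B (Gdl.rm Q Z X Y) Y E N)) (Gdl.rm Q Z X Y ∪ Y) W →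
        ∀ x ∈ ptm ct P.M (acc ||| orl l), x ∈ W → ptm ct P.M (acc ||| orl l) ⊆ W := by
    intro l
    induction l with
    | nil =>
      intro acc _ h1 h2
      have h3 : acc ||| orl [] = acc := Nat.or_zero acc
      rw [h3]
      exact ⟨h1, h2⟩
    | cons c l ih =>
      intro acc hl h1 h2
      have hl' : (g.lk P c && ((List.range P.M).any (fun a => c.testBit a && acc.testBit a) &&
        g.lnk P l (acc ||| c))) = true := hl
      rw [Bool.and_eq_true, Bool.and_eq_true] at hl'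
      obtain ⟨h3, h4, h5⟩ := hl'
      obtain ⟨h6, h7⟩ := hlk c h3
      obtain ⟨a, ha, h8⟩ := List.any_eq_true.1 h4
      rw [List.mem_range] at ha
      rw [Bool.and_eq_true] at h8
      have h9 : acc ||| orl (c :: l) = (acc ||| c) ||| orl l := (Nat.or_assoc acc c (orl l)).symm
      rw [h9]
      have hac := (h.mem_ptm_iff (A := c) ha).2 h8.1
      have haa := (h.mem_ptm_iff (A := acc) ha).2 h8.2
      refine ih (acc ||| c) h5 ?_ ?_
      · rw [ptm_or]
        exact union_subset h1 h6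
      · intro W hW x hx hxW
        rw [ptm_or] at hx ⊢
        rcases mem_union.1 hx with hx | hx
        · have k1 := h2 W hW x hx hxW
          exact union_subset k1 (h7 W hW (ct a) hac (k1 haa))
        · have k1 := h7 W hW x hx hxW
          exact union_subset (h2 W hW (ct a) haa (k1 hac)) k1
  have hcls : ∀ c ∈ g.cl, ptm ct P.M (orl c) ⊆ Y ∧
      (∀ W, Closed (gr (absG B (Gdl.rm Q Z X Y) Y E N)) (Gdl.rm Q Z X Y ∪ Y) W →
        ∀ x ∈ ptm ct P.M (orl c), x ∈ W → ptm ct P.M (orl c) ⊆ W) ∧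
      ∃ k, (N k).Nonempty ∧ (g.one P = false → (N k).card ≤ 2) ∧ N k ⊆ ptm ct P.M (orl c) := by
    intro c hc
    have h1 := hcl c hc
    rcases c with _ | ⟨c0, l⟩
    · exact absurd h1 (by simp [Gk.cok])
    · have h1' : (g.N.contains c0 && ((g.one P || Nat.ble (pcn P.M c0) 2) &&
        (Nat.ble 1 (pcn P.M c0) && g.lnk P l c0))) = true := h1
      rw [Bool.and_eq_true, Bool.and_eq_true, Bool.and_eq_true, List.contains_iff_mem] at h1'
      obtain ⟨h2, h3, h4, h5⟩ := h1'
      have h4 := Nat.le_of_ble_eq_true h4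
      have h6 : g.lk P c0 = true := by
        unfold Gk.lk
        rw [List.contains_iff_mem.2 h2, Bool.true_or]
      obtain ⟨h7, h8⟩ := hlk c0 h6
      obtain ⟨h9, h10⟩ := hlnk l c0 h5 h7 h8
      have h11 : orl (c0 :: l) = c0 ||| orl l := rfl
      rw [h11]
      refine ⟨h9, h10, ?_⟩
      obtain ⟨k, hk, hkc⟩ := List.mem_iff_getElem.1 h2
      have h12 : N (ULift.up ⟨k, hk⟩) = ptm ct P.M c0 := by
        rw [hN]
        simp only
        rw [List.getD_eq_getElem _ _ hk, hkc]
      refine ⟨ULift.up ⟨k, hk⟩, ?_, ?_, ?_⟩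
      · rw [h12, ← card_pos, h.card_ptm]
        omega
      · intro h13
        rw [h13, Bool.false_or] at h3
        rw [h12, h.card_ptm]
        exact Nat.le_of_ble_eq_true h3
      · rw [h12, ptm_or]
        exact subset_union_left
  set A : Finset (Finset V) := (g.cl.map (fun c => ptm ct P.M (orl c))).toFinset with hA
  have hmA : ∀ {s : Finset V}, s ∈ A ↔ ∃ c ∈ g.cl, ptm ct P.M (orl c) = s := by
    intro s
    rw [hA, List.mem_toFinset, List.mem_map]
  have hAcard : A.card ≤ g.cl.length := by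
    rw [hA]
    exact (List.toFinset_card_le _).trans (by rw [List.length_map])
  have hYne : Y.Nonempty := by
    obtain ⟨c, hc⟩ : ∃ c, c ∈ g.cl := List.exists_mem_of_length_pos hcl0
    obtain ⟨h1, _, k, ⟨v, hv'⟩, _, _⟩ := hcls c hc
    exact ⟨v, hsubN k hv'⟩
  have hn : (Gdl.rm Q Z X Y).card + Y.card < Q.card := by
    rw [← card_union_of_disjoint hw.dis]
    refine card_lt_card (Finset.ssubset_iff_subset_ne.2 ⟨union_subset hw.CQ hYQ, fun h1 => ?_⟩)
    obtain ⟨z, hz⟩ := h.Zne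
    have h2 := h.ZQ hz
    rw [← h1] at h2
    rcases mem_union.1 h2 with h3 | h3
    · exact (Gdl.mem_rm.1 h3).2.1 hz
    · exact disjoint_left.1 dZY hz h3
  have hAY : ∀ a ∈ A, a ⊆ Y := fun a ha => by
    obtain ⟨c, hc, rfl⟩ := hmA.1 ha
    exact (hcls c hc).1
  have hcovA : ∀ y ∈ Y, ∃ a ∈ A, y ∈ a := fun y hy => by
    obtain ⟨a, ha, h1, rfl⟩ := hmY.1 hy
    have h2 := List.all_eq_true.1 hcov a (List.mem_range.2 ha)
    rw [Bool.or_eq_true] at h2
    rcases h2 with h2 | h2
    · have h3 := Nat.eq_of_beq_eq_true h2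
      omega
    · obtain ⟨c, hc, h3⟩ := List.any_eq_true.1 h2
      exact ⟨_, hmA.2 ⟨c, hc, rfl⟩, (h.mem_ptm_iff ha).2 h3⟩
  have hlinkA : ∀ W, Closed (gr (absG B (Gdl.rm Q Z X Y) Y E N)) (Gdl.rm Q Z X Y ∪ Y) W →
      ∀ a ∈ A, a ⊆ W ∨ Disjoint a W := fun W hW a ha => by
    obtain ⟨c, hc, rfl⟩ := hmA.1 ha
    by_cases h1 : Disjoint (ptm ct P.M (orl c)) W
    · exact Or.inr h1
    · rw [not_disjoint_iff] at h1
      obtain ⟨x, hx1, hx2⟩ := h1
      exact Or.inl ((hcls c hc).2.1 W hW x hx1 hx2)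
  have hIc : I.card = g.I.length := by
    rw [hI, card_image_of_injOn, List.toFinset_card_of_nodup hInd]
    intro x hx y hy hxy
    rw [mem_coe, List.mem_toFinset] at hx hy
    exact h.tb_inj x (hIl x hx) y (hIl y hy) hxy
  have hκ : Fintype.card (ULift.{u} (Fin g.N.length)) = g.N.length := by
    rw [Fintype.card_ulift, Fintype.card_fin]
  have hsZ : sv B Z = (P.zn : ℤ) - 2 * (P.r : ℤ) := by
    unfold sv
    rw [h.cardZ, h.rZ]
  have hsv1 := hv.sv1
  have h1 : dv B Q Z + 5 * (X.card : ℤ) + 4 * (I.card : ℤ) +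
      2 * ((Gdl.lost B Q Z X Y I E).card : ℤ) - 4 * (Fintype.card (ULift.{u} (Fin g.N.length)) : ℤ)
        + 1 - (g.cl.length : ℤ) ≤ dv B Q Q := by
    rcases hone : g.one P with _ | _
    · have hmain := hG.main_parts hv.ih hv.ihr hn hYne hAY hcovA hlinkA hmeet
        (fun a ha => by
          obtain ⟨c, hc, rfl⟩ := hmA.1 ha
          obtain ⟨_, _, k, k1, k2, k3⟩ := hcls c hc
          exact ⟨k, k1, k2 hone, k3⟩)
      have h1 := hmain.2 (by
        rw [hsZ, hXc]
        have h2 : ((pcn P.M g.X + P.zn : ℕ) : ℤ) ≤ ((1 + 2 * P.r : ℕ) : ℤ) := by exact_mod_cast hXz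
        push_cast at h2
        linarith)
      have h4 : (A.card : ℤ) ≤ (g.cl.length : ℤ) := by exact_mod_cast hAcard
      linarith
    · unfold Gk.one at hone
      rw [Bool.and_eq_true] at hone
      have k1 := Nat.eq_of_beq_eq_true hone.1
      have k2 := Nat.le_of_ble_eq_true hone.2
      have hA1 : ∀ a ∈ A, ∀ b ∈ A, a = b := by
        intro a ha b hb
        have : A.card ≤ 1 := hAcard.trans (by omega)
        exact card_le_one.1 this a ha b hb
      have h1 := hG.main_one hv.ih hv.ihr hn hYne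
        (fun W hW hWY y hy => by
          obtain ⟨w, hw1⟩ := hWY
          obtain ⟨hw2, hw3⟩ := mem_inter.1 hw1
          obtain ⟨a, ha, hwa⟩ := hcovA w hw3
          obtain ⟨b, hb, hyb⟩ := hcovA y hy
          rw [hA1 b hb a ha] at hyb
          rcases hlinkA W hW a ha with h2 | h2
          · exact h2 hyb
          · exact absurd hw2 (disjoint_left.1 h2 hwa)) hmeet
        (by
          rw [hsZ, hXc]
          have h2 : ((pcn P.M g.X + P.zn : ℕ) : ℤ) ≤ ((2 * P.r : ℕ) : ℤ) := by exact_mod_cast k2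
          push_cast at h2
          linarith)
      have h4 : (g.cl.length : ℤ) = 1 := by exact_mod_cast k1
      linarith
  have hd : (g.dn : ℤ) ≤ dv B Q Z + 10 := by
    rw [Bool.or_eq_true] at hdn
    rcases hdn with h2 | h2
    · have h3 := Nat.le_of_ble_eq_true h2
      have h4 := h.d0
      have h5 : (g.dn : ℤ) ≤ (P.d0 : ℤ) := by exact_mod_cast h3
      linarith
    · rw [List.contains_iff_mem] at h2
      have h3 := hf _ h2
      rw [lit_ng, gval_D, not_not] at h3
      exact h3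
  rw [hXc, hIc, hκ] at h1
  have h2 := hv.neg
  have h3 : ((4 * g.N.length + g.cl.length + 9 : ℕ) : ℤ) ≤
      ((g.dn + 5 * pcn P.M g.X + 4 * g.I.length : ℕ) : ℤ) := by exact_mod_cast hnum
  push_cast at h3
  have h5 : (0 : ℤ) ≤ ((Gdl.lost B Q Z X Y I E).card : ℤ) := by positivity
  linarith

/-- the complete check of an instance. -/
noncomputable def instX (P : Gp) (given : List (List ℕ)) (bs : List Gb) (ks : List Gk) (nm : Tr)
    (cnf : List (List ℕ)) (db : Tr) (prf : List ℕ) : Bool :=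
  bs.all (fun g => g.ok P) && (ks.all (fun g => g.ok P) && (!(cnf.isEmpty) && (okcR cnf &&
    (cmpR nm cnf (given ++ (bs.map (Gb.cl P) ++ ks.map Gk.lits)) && chk cnf db prf))))

/-- the check of an instance from its parts. -/
theorem instX_of {P : Gp} {given : List (List ℕ)} {bs : List Gb} {ks : List Gk} {nm : Tr}
    {cnf : List (List ℕ)} {db : Tr} {prf : List ℕ} (h1 : bs.all (fun g => g.ok P) = true)
    (h2 : ks.all (fun g => g.ok P) = true) (h3 : (!(cnf.isEmpty)) = true) (h4 : okcR cnf = true)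
    (h5 : cmpR nm cnf (given ++ (bs.map (Gb.cl P) ++ ks.map Gk.lits)) = true)
    (h6 : chk cnf db prf = true) : instX P given bs ks nm cnf db prf = true := by
  unfold instX
  rw [h1, h2, h3, h4, h5, h6]
  rfl

/-- **a checked refutation excludes the instance.** -/
theorem Gx.absurd (h : Gx B Q Z P bl ct zt tb) {given : List (List ℕ)}
    (hg : ∀ c ∈ given, Sat (gval B Q Z P bl ct) c) {bs : List Gb} {ks : List Gk} {nm db : Tr}
    {cnf : List (List ℕ)} {prf : List ℕ} (hbs : bs.all (fun g => g.ok P) = true)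
    (hks : ks.all (fun g => g.ok P) = true) (hne : cnf ≠ []) (hok : okcR cnf = true)
    (hcmp : cmpR nm cnf (given ++ (bs.map (Gb.cl P) ++ ks.map Gk.lits)) = true)
    (hchk : chk cnf db prf = true) : False := by
  obtain ⟨c, hc, hs⟩ := unsat_nm hchk hok hne hcmp (gval B Q Z P bl ct)
  rcases List.mem_append.1 hc with h1 | h1
  · exact hs (hg c h1)
  · rcases List.mem_append.1 h1 with h2 | h2
    · obtain ⟨g, hgm, rfl⟩ := List.mem_map.1 h2
      exact hs (h.sat_base g (List.all_eq_true.1 hbs g hgm))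
    · obtain ⟨g, hgm, rfl⟩ := List.mem_map.1 h2
      exact hs (h.sat_gd g (List.all_eq_true.1 hks g hgm))

/-- **a checked instance does not occur.** -/
theorem Gx.no (h : Gx B Q Z P bl ct zt tb) {given : List (List ℕ)}
    (hg : ∀ c ∈ given, Sat (gval B Q Z P bl ct) c) {bs : List Gb} {ks : List Gk} {nm db : Tr}
    {cnf : List (List ℕ)} {prf : List ℕ} (hb : instX P given bs ks nm cnf db prf = true) :
    False := by
  unfold instX at hb
  simp only [Bool.and_eq_true] at hb
  obtain ⟨h1, h2, h3, h4, h5, h6⟩ := hb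
  refine h.absurd hg h1 h2 ?_ h4 h5 h6
  rintro rfl
  simp at h3

end Gdx

end Pool.Agent.Hyp6
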