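import Pool.Agent.Hyp6.L4Defs

/-!
# HYP6 L4K: combinatorics of K-pieces, the number `kap` of disjoint K-pieces
-/

set_option autoImplicit false

namespace Pool.Agent.Hyp6

open Finset Pool.Agent.Hyp5

universe u v

variable {V : Type v} [DecidableEq V] {ι : Type u} [Fintype ι] {B : ι → Finset V}

section Piece

variable {X : Finset V}

theorem KP.card (h : KP B X) : X.card = 6 := h.2.1

theorem KP.cmX (h : KP B X) : cm B X = 10 := h.2.2.1

theorem KP.rhoX (h : KP B X) : rho B X = 3 := h.2.2.2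

theorem KP.nonempty (h : KP B X) : X.Nonempty := card_pos.1 (by rw [h.card]; norm_num)

theorem KP.Pv_eq (h : KP B X) : Pv B X = -2 := by
  rw [Hyp6.Pv_eq, h.card, h.cmX, h.rhoX]
  norm_num

/-- no two blocks cover a K-piece. -/
theorem KP.not_cover (h : KP B X) (i j : ι) : ¬ X ⊆ B i ∪ B j := by
  classical
  intro hsub
  have h1 : X ⊆ ({i, j} : Finset ι).biUnion B := by
    rw [biUnion_insert, singleton_biUnion]
    exact hsub
  have h2 := rho_le h1
  rw [h.rhoX] at h2
  have h3 : ({i, j} : Finset ι).card ≤ 2 := card_le_two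
  omega

/-- the counting for the complement `U` of a trace. -/
theorem KP.count (hr : Reg B X) (h : KP B X) {i : ι} (hi : (B i ∩ X).Nonempty) :
    (univ.filter (fun j => B j ∩ X = B i ∩ X)).card ≤ 2 ∧
    6 ≤ (univ.filter (fun j => (B j ∩ (X \ B i)).card = 2)).card ∧
    1 ≤ (univ.filter (fun j => (B j ∩ (X \ B i)).card = 1)).card := by
  classical
  set U := X \ B i with hU
  have hi3 := h.trace hr hi
  have hUc : U.card = 3 := by
    have h1 := card_sdiff_add_card_inter X (B i)
    rw [inter_comm, hi3, h.card, ← hU] at h1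
    omega
  have hUX : U ⊆ X := sdiff_subset
  have hrU := hr.mono hUX
  -- the trace on U has at most two points
  have hle : ∀ j, (B j ∩ U).card ≤ 2 := by
    intro j
    by_contra hcon
    push Not at hcon
    have h1 : B j ∩ U = U := eq_of_subset_of_card_le inter_subset_right (by omega)
    refine h.not_cover i j fun v hv => ?_
    by_cases hvi : v ∈ B i
    · exact mem_union_left _ hvi
    · have : v ∈ B j ∩ U := by
        rw [h1]
        exact mem_sdiff.2 ⟨hv, hvi⟩
      exact mem_union_right _ (mem_inter.1 this).1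
  have hsum := sum_inc hrU
  rw [hUc] at hsum
  have h1 : ∑ j, (B j ∩ U).card = (univ.filter (fun j => (B j ∩ U).card = 1)).card +
      2 * (univ.filter (fun j => (B j ∩ U).card = 2)).card := by
    simp only [card_filter]
    rw [mul_sum, ← sum_add_distrib]
    refine sum_congr rfl fun j _ => ?_
    have := hle j
    split_ifs <;> omega
  -- the ten blocks
  have h2 : cm B X = (univ.filter (fun j => (B j ∩ U).card = 1)).card +
      (univ.filter (fun j => (B j ∩ U).card = 2)).card +
      (univ.filter (fun j => B j ∩ X = B i ∩ X)).card := by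
    unfold cm tch
    simp only [card_filter]
    rw [← sum_add_distrib, ← sum_add_distrib]
    refine sum_congr rfl fun j _ => ?_
    have h3 := hle j
    have h4 : B j ∩ U ⊆ B j ∩ X := inter_subset_inter_left hUX
    by_cases h5 : (B j ∩ X).Nonempty
    · have h6 := h.trace hr h5
      rw [if_pos h5]
      by_cases h7 : B j ∩ X = B i ∩ X
      · have h8 : (B j ∩ U).card = 0 := by
          rw [card_eq_zero, ← not_nonempty_iff_eq_empty]
          rintro ⟨v, hv⟩
          have h9 := h4 hv
          rw [h7] at h9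
          exact (mem_sdiff.1 (mem_inter.1 hv).2).2 (mem_inter.1 h9).1
        rw [if_pos h7, h8]
        norm_num
      · have h8 : (B j ∩ U).card ≠ 0 := by
          intro h9
          rw [card_eq_zero] at h9
          apply h7
          refine eq_of_subset_of_card_le (fun v hv => ?_) (by omega)
          rw [mem_inter] at hv ⊢
          refine ⟨?_, hv.2⟩
          by_contra hvi
          have : v ∈ B j ∩ U := mem_inter.2 ⟨hv.1, mem_sdiff.2 ⟨hv.2, hvi⟩⟩
          rw [h9] at this
          exact absurd this (notMem_empty _)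
        rw [if_neg h7]
        split_ifs <;> omega
    · rw [if_neg h5]
      have h6 : B j ∩ X ≠ B i ∩ X := by
        intro h7
        rw [h7] at h5
        exact h5 hi
      have h7 : (B j ∩ U).card = 0 := by
        rw [card_eq_zero, ← not_nonempty_iff_eq_empty]
        intro h8
        exact h5 (h8.mono h4)
      rw [if_neg h6, h7]
      norm_num
  rw [h.cmX] at h2
  have h3 : 1 ≤ (univ.filter (fun j => B j ∩ X = B i ∩ X)).card :=
    card_pos.2 ⟨i, mem_filter.2 ⟨mem_univ _, rfl⟩⟩
  omega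

/-- two points outside a trace lie in a block which contains no third point outside the trace. -/
theorem KP.pair_block (hr : Reg B X) (h : KP B X) {i : ι} (hi : (B i ∩ X).Nonempty) {u w : V}
    (hu : u ∈ X \ B i) (hw : w ∈ X \ B i) (huw : u ≠ w) :
    ∃ j, B j ∩ (X \ B i) = {u, w} := by
  classical
  obtain ⟨_, h6, _⟩ := h.count hr hi
  set U := X \ B i with hU
  have hUc : U.card = 3 := by
    have h1 := card_sdiff_add_card_inter X (B i)
    rw [inter_comm, h.trace hr hi, h.card, ← hU] at h1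
    omega
  have h1 : ((U.erase u).erase w).card = 1 := by
    rw [card_erase_of_mem (mem_erase.2 ⟨huw.symm, hw⟩), card_erase_of_mem hu, hUc]
  obtain ⟨z, hz⟩ := card_eq_one.1 h1
  have hz' : z ∈ (U.erase u).erase w := by rw [hz]; exact mem_singleton_self _
  rw [mem_erase, mem_erase] at hz'
  have h5 := hr z (sdiff_subset hz'.2.2)
  have h7 : ∃ j ∈ univ.filter (fun j => (B j ∩ U).card = 2), z ∉ B j := by
    by_contra hcon
    push Not at hcon
    have h8 : univ.filter (fun j => (B j ∩ U).card = 2) ⊆ univ.filter (fun j => z ∈ B j) :=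
      fun j hj => mem_filter.2 ⟨mem_univ _, hcon j hj⟩
    have := card_le_card h8
    omega
  obtain ⟨j, hj, hzj⟩ := h7
  refine ⟨j, eq_of_subset_of_card_le (fun v hv => ?_) ?_⟩
  · rw [mem_inter] at hv
    rw [mem_insert, mem_singleton]
    by_contra hcon
    push Not at hcon
    have : v ∈ (U.erase u).erase w := mem_erase.2 ⟨hcon.2, mem_erase.2 ⟨hcon.1, hv.2⟩⟩
    rw [hz, mem_singleton] at this
    rw [this] at hv
    exact hzj hv.1
  · rw [(mem_filter.1 hj).2]
    exact card_le_two

/-- the complement of a trace is a clique. -/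
theorem KP.clique (hr : Reg B X) (h : KP B X) {i : ι} (hi : (B i ∩ X).Nonempty) {u w : V}
    (hu : u ∈ X \ B i) (hw : w ∈ X \ B i) (huw : u ≠ w) : (gr B).Adj u w := by
  obtain ⟨j, hj⟩ := h.pair_block hr hi hu hw huw
  refine ⟨huw, j, ?_, ?_⟩
  · have : u ∈ B j ∩ (X \ B i) := by rw [hj]; simp
    exact (mem_inter.1 this).1
  · have : w ∈ B j ∩ (X \ B i) := by rw [hj]; simp
    exact (mem_inter.1 this).1

/-- a closed set meeting a K-piece contains it. -/
theorem KP.sub_closed (hr : Reg B X) (h : KP B X) {W S : Finset V} (hXW : X ⊆ W)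
    (hS : Closed (gr B) W S) (hne : (S ∩ X).Nonempty) : X ⊆ S := by
  classical
  obtain ⟨s, hs⟩ := hne
  rw [mem_inter] at hs
  obtain ⟨i, hi⟩ := cov_of_reg hr s hs.2
  have hiX : (B i ∩ X).Nonempty := ⟨s, mem_inter.2 ⟨hi, hs.2⟩⟩
  -- the trace of `i`
  have h1 : ∀ v ∈ X, v ∈ B i → v ∈ S := by
    intro v hv hvi
    by_cases hvs : s = v
    · rw [← hvs]
      exact hs.1
    · exact hS.2 s hs.1 v (hXW hv) ⟨hvs, i, hi, hvi⟩
  -- a point outside the trace is adjacent to one inside
  have hUc : (X \ B i).card = 3 := by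
    have h1 := card_sdiff_add_card_inter X (B i)
    rw [inter_comm, h.trace hr hiX, h.card] at h1
    omega
  obtain ⟨u, w, z, huw, huz, hwz, hU⟩ := card_eq_three.1 hUc
  have hu : u ∈ X \ B i := by rw [hU]; simp
  have hw : w ∈ X \ B i := by rw [hU]; simp
  obtain ⟨j, hj⟩ := h.pair_block hr hiX hu hw huw
  have hju : u ∈ B j := by
    have : u ∈ B j ∩ (X \ B i) := by rw [hj]; simp
    exact (mem_inter.1 this).1
  have h2 : (B j ∩ X).card = 3 :=
    h.trace hr ⟨u, mem_inter.2 ⟨hju, (mem_sdiff.1 hu).1⟩⟩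
  have h3 : ∃ t ∈ B j ∩ X, t ∈ B i := by
    by_contra hcon
    push Not at hcon
    have h4 : B j ∩ X ⊆ B j ∩ (X \ B i) := fun v hv =>
      mem_inter.2 ⟨(mem_inter.1 hv).1, mem_sdiff.2 ⟨(mem_inter.1 hv).2, hcon v hv⟩⟩
    have h5 := card_le_card h4
    rw [hj, card_pair huw] at h5
    omega
  obtain ⟨t, ht, hti⟩ := h3
  rw [mem_inter] at ht
  have htS := h1 t ht.2 hti
  have huS : u ∈ S := by
    refine hS.2 t htS u (hXW (mem_sdiff.1 hu).1) ⟨?_, j, ht.1, hju⟩
    rintro rfl
    exact (mem_sdiff.1 hu).2 hti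
  intro v hv
  by_cases hvi : v ∈ B i
  · exact h1 v hv hvi
  · by_cases huv : u = v
    · rw [← huv]
      exact huS
    · exact hS.2 u huS v (hXW hv) (h.clique hr hiX hu (mem_sdiff.2 ⟨hv, hvi⟩) huv)

/-- a second K-piece which does not meet a trace of the first one is disjoint from it. -/
theorem KP.disjoint {Q Y : Finset V} (hr : Reg B Q) (h4 : Tr4 B Q) (hXQ : X ⊆ Q) (hYQ : Y ⊆ Q)
    (hX : KP B X) (hY : KP B Y) {i : ι} (hi : (B i ∩ X).Nonempty) (hd : Disjoint (B i) Y) :
    Disjoint X Y := by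
  classical
  have hrX := hr.mono hXQ
  have hrY := hr.mono hYQ
  rw [disjoint_left]
  intro u0 hu0 hu0Y
  have hYi : ∀ v ∈ X, v ∈ Y → v ∈ X \ B i := fun v hv hvY =>
    mem_sdiff.2 ⟨hv, fun hvi => disjoint_left.1 hd hvi hvY⟩
  -- a block meeting both meets the intersection twice
  have h2 : ∀ j, ∀ v ∈ X, v ∈ Y → v ∈ B j → 2 ≤ (B j ∩ (X ∩ Y)).card := by
    intro j v hv hvY hvj
    have e1 := hX.trace hrX (i := j) ⟨v, mem_inter.2 ⟨hvj, hv⟩⟩
    have e2 := hY.trace hrY (i := j) ⟨v, mem_inter.2 ⟨hvj, hvY⟩⟩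
    have e3 : (B j ∩ X ∪ B j ∩ Y).card ≤ 4 := by
      refine (card_le_card ?_).trans (h4 j)
      rw [← inter_union_distrib_left]
      exact inter_subset_inter_left (union_subset hXQ hYQ)
    have e4 := card_union_add_card_inter (B j ∩ X) (B j ∩ Y)
    have e5 : B j ∩ X ∩ (B j ∩ Y) = B j ∩ (X ∩ Y) := by
      ext v
      simp only [mem_inter]
      tauto
    rw [e5] at e4
    omega
  -- the intersection contains the whole complement of the trace
  have h3 : ∀ w ∈ X \ B i, w ∈ Y := by
    intro w hw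
    by_cases huw : u0 = w
    · rw [← huw]
      exact hu0Y
    · have hu0' := hYi u0 hu0 hu0Y
      obtain ⟨j, hj⟩ := hX.pair_block hrX hi hu0' hw huw
      have hju : u0 ∈ B j := by
        have : u0 ∈ B j ∩ (X \ B i) := by rw [hj]; simp
        exact (mem_inter.1 this).1
      have h5 := h2 j u0 hu0 hu0Y hju
      have h6 : B j ∩ (X ∩ Y) ⊆ {u0, w} := by
        rw [← hj]
        intro v hv
        rw [mem_inter, mem_inter] at hv
        exact mem_inter.2 ⟨hv.1, hYi v hv.2.1 hv.2.2⟩
      have h7 : B j ∩ (X ∩ Y) = {u0, w} :=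
        eq_of_subset_of_card_le h6 (by rw [card_pair huw]; exact h5)
      have h8 : w ∈ B j ∩ (X ∩ Y) := by rw [h7]; simp
      exact (mem_inter.1 (mem_inter.1 h8).2).2
  obtain ⟨_, _, h1⟩ := hX.count hrX hi
  obtain ⟨j, hj⟩ := card_pos.1 h1
  rw [mem_filter] at hj
  obtain ⟨w, hw⟩ := card_eq_one.1 hj.2
  have hw' : w ∈ B j ∩ (X \ B i) := by rw [hw]; exact mem_singleton_self _
  rw [mem_inter] at hw'
  have h5 := h2 j w (mem_sdiff.1 hw'.2).1 (h3 w hw'.2) hw'.1
  have h6 : B j ∩ (X ∩ Y) ⊆ B j ∩ (X \ B i) := by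
    intro v hv
    rw [mem_inter, mem_inter] at hv
    exact mem_inter.2 ⟨hv.1, hYi v hv.2.1 hv.2.2⟩
  have h7 := card_le_card h6
  omega

end Piece

/-- a family of pairwise disjoint K-pieces inside `Q`. -/
structure KFam (B : ι → Finset V) (Q : Finset V) (P : Finset (Finset V)) : Prop where
  sub : ∀ X ∈ P, X ⊆ Q
  kp : ∀ X ∈ P, KP B X
  disj : ∀ X ∈ P, ∀ Y ∈ P, X ≠ Y → Disjoint X Y

open Classical in
/-- the largest number of pairwise disjoint K-pieces inside `Q`. -/
noncomputable def kap (B : ι → Finset V) (Q : Finset V) : ℕ :=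
  (Q.powerset.powerset.filter (fun P => KFam B Q P)).sup card

theorem KFam.le_kap {Q : Finset V} {P : Finset (Finset V)} (h : KFam B Q P) :
    P.card ≤ kap B Q := by
  classical
  unfold kap
  refine le_sup (f := card) ?_
  rw [mem_filter, mem_powerset]
  exact ⟨fun X hX => mem_powerset.2 (h.sub X hX), h⟩

theorem exists_kap (B : ι → Finset V) (Q : Finset V) : ∃ P, KFam B Q P ∧ P.card = kap B Q := by
  classical
  have h1 : (Q.powerset.powerset.filter (fun P => KFam B Q P)).Nonempty :=
    ⟨∅, mem_filter.2 ⟨by simp, ⟨by simp, by simp, by simp⟩⟩⟩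
  obtain ⟨P, hP, h2⟩ := exists_mem_eq_sup _ h1 card
  exact ⟨P, (mem_filter.1 hP).2, h2.symm⟩

theorem kap_mono {W Q : Finset V} (h : W ⊆ Q) : kap B W ≤ kap B Q := by
  obtain ⟨P, hP, hc⟩ := exists_kap B W
  rw [← hc]
  exact KFam.le_kap ⟨fun X hX => (hP.sub X hX).trans h, hP.kp, hP.disj⟩

theorem kap_pos {Q : Finset V} (h : ¬ KFree B Q) : 1 ≤ kap B Q := by
  unfold KFree at h
  push Not at h
  obtain ⟨X, hX, hK⟩ := h
  have h1 : KFam B Q {X} := by
    refine ⟨?_, ?_, ?_⟩
    · intro Y hY
      rw [mem_singleton] at hY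
      rw [hY]
      exact hX
    · intro Y hY
      rw [mem_singleton] at hY
      rw [hY]
      exact hK
    · intro Y hY Y' hY' hne
      rw [mem_singleton] at hY hY'
      exact absurd (hY.trans hY'.symm) hne
  simpa using h1.le_kap

theorem kap_eq_zero {Q : Finset V} (h : KFree B Q) : kap B Q = 0 := by
  obtain ⟨P, hP, hc⟩ := exists_kap B Q
  rw [← hc, card_eq_zero]
  by_contra hne
  obtain ⟨X, hX⟩ := nonempty_iff_ne_empty.2 hne
  exact h X (hP.sub X hX) (hP.kp X hX)

/-- superadditivity. -/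
theorem sum_kap_le {Q : Finset V} {F : Finset (Finset V)} (hF : ∀ C ∈ F, C ⊆ Q)
    (hd : ∀ C ∈ F, ∀ D ∈ F, C ≠ D → Disjoint C D) : ∑ C ∈ F, kap B C ≤ kap B Q := by
  classical
  choose P hP hc using exists_kap B
  have h1 : (F.biUnion P).card = ∑ C ∈ F, (P C).card := by
    refine card_biUnion fun C hC D hD hne => ?_
    rw [Function.onFun, disjoint_left]
    intro X hX hX'
    have h2 := (hP C).sub X hX
    have h3 := (hP D).sub X hX'
    obtain ⟨v, hv⟩ := ((hP C).kp X hX).nonempty
    exact disjoint_left.1 (hd C hC D hD hne) (h2 hv) (h3 hv)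
  have h2 : KFam B Q (F.biUnion P) := by
    refine ⟨?_, ?_, ?_⟩
    · intro X hX
      obtain ⟨C, hC, hXC⟩ := mem_biUnion.1 hX
      exact ((hP C).sub X hXC).trans (hF C hC)
    · intro X hX
      obtain ⟨C, _, hXC⟩ := mem_biUnion.1 hX
      exact (hP C).kp X hXC
    · intro X hX Y hY hne
      obtain ⟨C, hC, hXC⟩ := mem_biUnion.1 hX
      obtain ⟨D, hD, hYD⟩ := mem_biUnion.1 hY
      by_cases hCD : C = D
      · rw [← hCD] at hYD
        exact (hP C).disj X hXC Y hYD hne
      · exact disjoint_of_subset_left ((hP C).sub X hXC)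
          (disjoint_of_subset_right ((hP D).sub Y hYD) (hd C hC D hD hCD))
  have h3 := h2.le_kap
  rw [h1] at h3
  calc ∑ C ∈ F, kap B C = ∑ C ∈ F, (P C).card := sum_congr rfl fun C _ => (hc C).symm
    _ ≤ kap B Q := h3

end Pool.Agent.Hyp6
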