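import Pool.Agent.Hyp6.L4U
import Pool.Agent.Hyp6.L4K

/-!
# HYP6 L4V: the level-4 theorem T0

Every connected set with traces of at most four points satisfies `-1 ≤ Pv + 2 kap`, and
`0 ≤ Pv + 2 kap` if it contains a K-piece.
-/

set_option autoImplicit false

namespace Pool.Agent.Hyp6

open Finset Pool.Agent.Hyp5

universe u v

variable {V : Type v} [DecidableEq V] {ι : Type u} [Fintype ι] {B : ι → Finset V}

/-- a K-piece disjoint from all the K-pieces inside the rest. -/
theorem kap_sdiff_lt {Q X : Finset V} (hr : Reg B Q) (h4 : Tr4 B Q) (hXQ : X ⊆ Q) (hX : KP B X)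
    {i : ι} (hi : (B i ∩ X).Nonempty) : kap B (Q \ (B i ∩ Q)) + 1 ≤ kap B Q := by
  classical
  obtain ⟨P, hP, hc⟩ := exists_kap B (Q \ (B i ∩ Q))
  have hdi : ∀ Y ∈ P, Disjoint (B i) Y := by
    intro Y hY
    rw [disjoint_left]
    intro v hv hvY
    have h1 := hP.sub Y hY hvY
    rw [mem_sdiff, mem_inter] at h1
    exact h1.2 ⟨hv, h1.1⟩
  have hYQ : ∀ Y ∈ P, Y ⊆ Q := fun Y hY => (hP.sub Y hY).trans sdiff_subset
  have hXY : ∀ Y ∈ P, Disjoint X Y := fun Y hY =>
    KP.disjoint hr h4 hXQ (hYQ Y hY) hX (hP.kp Y hY) hi (hdi Y hY)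
  have hXP : X ∉ P := by
    intro hXP
    obtain ⟨v, hv⟩ := hi
    rw [mem_inter] at hv
    exact disjoint_left.1 (hdi X hXP) hv.1 hv.2
  have h1 : KFam B Q (insert X P) := by
    refine ⟨?_, ?_, ?_⟩
    · intro Y hY
      rcases mem_insert.1 hY with h | h
      · rw [h]
        exact hXQ
      · exact hYQ Y h
    · intro Y hY
      rcases mem_insert.1 hY with h | h
      · rw [h]
        exact hX
      · exact hP.kp Y h
    · intro Y hY Y' hY' hne
      rcases mem_insert.1 hY with h | h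
      · rcases mem_insert.1 hY' with h' | h'
        · exact absurd (h.trans h'.symm) hne
        · rw [h]
          exact hXY Y' h'
      · rcases mem_insert.1 hY' with h' | h'
        · rw [h']
          exact (hXY Y h).symm
        · exact hP.disj Y h Y' h' hne
  have h2 := h1.le_kap
  rw [card_insert_of_notMem hXP, hc] at h2
  exact h2

/-- a point with a block whose trace is the point is in no K-piece. -/
theorem kap_insert_le {C : Finset V} {x : V} (hr : Reg B (insert x C)) {i : ι} (hxi : x ∈ B i)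
    (hiC : ¬ (B i ∩ C).Nonempty) : kap B (insert x C) ≤ kap B C := by
  obtain ⟨P, hP, hc⟩ := exists_kap B (insert x C)
  rw [← hc]
  refine KFam.le_kap ⟨fun Y hY v hv => ?_, hP.kp, hP.disj⟩
  rcases mem_insert.1 (hP.sub Y hY hv) with h1 | h1
  · exfalso
    rw [h1] at hv
    have h2 := (hP.kp Y hY).trace (hr.mono (hP.sub Y hY)) (i := i)
      ⟨x, mem_inter.2 ⟨hxi, hv⟩⟩
    have h3 : B i ∩ Y ⊆ {x} := by
      intro w hw
      rw [mem_inter] at hw
      rw [mem_singleton]
      rcases mem_insert.1 (hP.sub Y hY hw.2) with h4 | h4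
      · exact h4
      · exact absurd ⟨w, mem_inter.2 ⟨hw.1, h4⟩⟩ hiC
    have h4 := card_le_card h3
    rw [card_singleton] at h4
    omega
  · exact h1

/-- adding an attached point keeps a set connected. -/
theorem Conn.insert {C : Finset V} {x : V} (hC : Conn (gr B) C)
    (hx : ∃ u ∈ C, (gr B).Adj x u) : Conn (gr B) (insert x C) := by
  obtain ⟨u, hu, hadj⟩ := hx
  refine ⟨insert_nonempty _ _, fun S hS hne => ?_⟩
  have hcomp : (S ∩ C).Nonempty → C ⊆ S := by
    intro hSC
    have h1 : Closed (gr B) C (S ∩ C) := by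
      refine ⟨inter_subset_right, fun a ha y hy hay => ?_⟩
      rw [mem_inter] at ha ⊢
      exact ⟨hS.2 a ha.1 y (mem_insert_of_mem hy) hay, hy⟩
    rw [← hC.2 _ h1 hSC]
    exact inter_subset_left
  have huS : u ∈ S := by
    obtain ⟨s, hs⟩ := hne
    rcases mem_insert.1 (hS.1 hs) with h1 | h1
    · rw [h1] at hs
      exact hS.2 x hs u (mem_insert_of_mem hu) hadj
    · exact hcomp ⟨s, mem_inter.2 ⟨hs, h1⟩⟩ hu
  have hxS : x ∈ S := hS.2 u huS x (mem_insert_self _ _) hadj.symm
  refine Subset.antisymm hS.1 fun v hv => ?_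
  rcases mem_insert.1 hv with h1 | h1
  · rw [h1]
    exact hxS
  · exact hcomp ⟨u, mem_inter.2 ⟨huS, hu⟩⟩ h1

/-- a component attached only to the critical point `x`: the value. -/
theorem comp_large' {Q C : Finset V} {x : V} (hr : Reg B Q) (hxQ : x ∈ Q) (hCQ : C ⊆ Q)
    (hxC : x ∉ C) (hcl : Closed (gr B) (Q.erase x) C)
    (hcr : rho B (Q.erase x) + 1 = rho B Q) {j : ι} (hxj : x ∈ B j)
    (hjC : (B j ∩ C).Nonempty) : Pv B (insert x C) + 3 ≤ Pv B C := by
  classical
  have hWQ : insert x C ⊆ Q := insert_subset hxQ hCQ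
  have hcov : Cov B Q := cov_of_reg hr
  have h1 := Pv_sdiff (B := B) (W := insert x C) (X := {x}) (by simp)
  have h2 : insert x C \ {x} = C := by
    rw [sdiff_singleton_eq_erase, erase_insert hxC]
  rw [h2, card_singleton] at h1
  have h3 : (ins B (insert x C) {x}).card ≤ 4 := by
    have h4 : ins B (insert x C) {x} ⊆ (univ.filter (fun k => x ∈ B k)).erase j := by
      intro k hk
      rw [mem_ins] at hk
      obtain ⟨⟨v, hv⟩, hk2⟩ := hk
      have h5 := hk2 hv
      rw [mem_singleton] at h5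
      rw [mem_erase, mem_filter]
      refine ⟨?_, mem_univ _, ?_⟩
      · rintro rfl
        obtain ⟨w, hw⟩ := hjC
        rw [mem_inter] at hw
        have h6 := hk2 (mem_inter.2 ⟨hw.1, mem_insert_of_mem hw.2⟩)
        rw [mem_singleton] at h6
        rw [h6] at hw
        exact hxC hw.2
      · rw [← h5]
        exact (mem_inter.1 hv).1
    refine (card_le_card h4).trans ?_
    have h5 : j ∈ univ.filter (fun k => x ∈ B k) := mem_filter.2 ⟨mem_univ _, hxj⟩
    rw [card_erase_of_mem h5, hr x hxQ]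
  have h4 : rho B C + 1 ≤ rho B (insert x C) := by
    by_contra hcon
    set R := (Q.erase x) \ C with hR
    have hRQ : R ⊆ Q := sdiff_subset.trans (erase_subset _ _)
    have h5 : Sep B C R := sep_of_closed hcl sdiff_subset disjoint_sdiff
    have h6 : rho B (C ∪ R) = rho B C + rho B R :=
      rho_add (hcov.mono hCQ) (hcov.mono hRQ) h5
    have h7 : C ∪ R = Q.erase x := union_sdiff_of_subset hcl.1
    have h8 : Q ⊆ insert x C ∪ R := by
      intro v hv
      by_cases hvx : v = x
      · rw [hvx]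
        exact mem_union_left _ (mem_insert_self _ _)
      · by_cases hvC : v ∈ C
        · exact mem_union_left _ (mem_insert_of_mem hvC)
        · exact mem_union_right _ (mem_sdiff.2 ⟨mem_erase.2 ⟨hvx, hv⟩, hvC⟩)
    have hc1 : Cov B (insert x C) := hcov.mono hWQ
    have hc2 : Cov B R := hcov.mono hRQ
    have h9 := rho_mono h8 (hc1.union hc2)
    have h10 := rho_union_le hc1 hc2
    rw [h7] at h6
    omega
  have c1 : ((ins B (insert x C) {x}).card : ℤ) ≤ 4 := by exact_mod_cast h3
  have c2 : (rho B C : ℤ) + 1 ≤ rho B (insert x C) := by exact_mod_cast h4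
  push_cast at h1
  linarith

/-- a component attached only to the critical point `x` has a large value. -/
theorem comp_large {Q C : Finset V} {x : V} (hr : Reg B Q) (hxQ : x ∈ Q) (hCQ : C ⊆ Q)
    (hxC : x ∉ C) (hcl : Closed (gr B) (Q.erase x) C)
    (hcr : rho B (Q.erase x) + 1 = rho B Q) {i j : ι} (hxi : x ∈ B i)
    (hiC : ¬ (B i ∩ C).Nonempty) (hxj : x ∈ B j) (hjC : (B j ∩ C).Nonempty)
    (hlow : -1 ≤ Pv B (insert x C) + 2 * (kap B (insert x C) : ℤ)) :
    2 ≤ Pv B C + 2 * (kap B C : ℤ) := by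
  have h1 := comp_large' hr hxQ hCQ hxC hcl hcr hxj hjC
  have hk := kap_insert_le (hr.mono (insert_subset hxQ hCQ)) hxi hiC
  have c3 : (kap B (insert x C) : ℤ) ≤ kap B C := by exact_mod_cast hk
  linarith

/-- a connected set containing a K-piece. -/
theorem T0_pos (hL3 : L3e.{u} V) (B : ι → Finset V) : ∀ Q : Finset V, Reg B Q → Tr4 B Q →
    Conn (gr B) Q → ¬ KFree B Q → 0 ≤ Pv B Q + 2 * (kap B Q : ℤ) := by
  classical
  intro Q
  induction Q using Finset.strongInduction with
  | H Q ih =>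
    intro hr h4 hQ hk
    have hcov : Cov B Q := cov_of_reg hr
    have hlow : ∀ W ⊂ Q, Conn (gr B) W → -1 ≤ Pv B W + 2 * (kap B W : ℤ) := by
      intro W hW hWc
      by_cases hKW : KFree B W
      · have h1 := T0e hL3 (hr.mono hW.1) (h4.mono hW.1) hWc hKW
        have h2 : (0 : ℤ) ≤ kap B W := by positivity
        have h3 : (0 : ℤ) ≤ ee B W W := by positivity
        linarith
      · have := ih W hW (hr.mono hW.1) (h4.mono hW.1) hWc hKW
        linarith
    have hk' := hk
    unfold KFree at hk'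
    push Not at hk'
    obtain ⟨X, hXQ, hX⟩ := hk'
    have hrX := hr.mono hXQ
    by_cases hXeq : X = Q
    · rw [← hXeq] at hk ⊢
      have h1 := kap_pos hk
      have h2 := hX.Pv_eq
      have h3 : (1 : ℤ) ≤ kap B X := by exact_mod_cast h1
      linarith
    obtain ⟨u0, hu0, x, hxQ, hxX, _, i, hui, hxi⟩ := hQ.exists_edge hXQ hX.nonempty hXeq
    have hiX : (B i ∩ X).Nonempty := ⟨u0, mem_inter.2 ⟨hui, hu0⟩⟩
    have hi3 := hX.trace hrX hiX
    have hiQ : B i ∩ Q = insert x (B i ∩ X) := by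
      symm
      refine eq_of_subset_of_card_le (fun v hv => ?_) ?_
      · rcases mem_insert.1 hv with h1 | h1
        · rw [h1]
          exact mem_inter.2 ⟨hxi, hxQ⟩
        · exact mem_inter.2 ⟨(mem_inter.1 h1).1, hXQ (mem_inter.1 h1).2⟩
      · rw [card_insert_of_notMem (fun h => hxX (mem_inter.1 h).2), hi3]
        exact h4 i
    have hZc : (B i ∩ Q).card = 4 := by
      rw [hiQ, card_insert_of_notMem (fun h => hxX (mem_inter.1 h).2), hi3]
    by_cases hcrit : rho B (Q.erase x) = rho B Q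
    · -- the point `x` is not critical
      obtain ⟨K, hK1, hK2, hK3⟩ := exists_parts B (Q.erase x)
      have hcard := card_comps_le hr hxQ hQ hK1 hK2
      have hxs : ({x} : Finset V) ⊆ Q := singleton_subset_iff.2 hxQ
      have hKQ : ∀ C ∈ K, C ⊆ Q := fun C hC => (hK1 C hC).1.trans (erase_subset _ _)
      have hKss : ∀ C ∈ K, C ⊂ Q := by
        intro C hC
        refine ⟨hKQ C hC, fun hcon => ?_⟩
        exact (mem_erase.1 ((hK1 C hC).1 (hcon hxQ))).1 rfl
      have hKcov : ∀ C ∈ K, Cov B C := fun C hC => hcov.mono (hKQ C hC)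
      have he : Q \ {x} = K.biUnion id := by rw [hK3, sdiff_singleton_eq_erase]
      have h2 := Pv_sdiff (B := B) hxs
      rw [he, Pv_biUnion hKcov hK2, card_singleton] at h2
      have hr' : rho B (K.biUnion id) = rho B Q := by rw [hK3, hcrit]
      rw [hr'] at h2
      have hkap : ∑ C ∈ K, kap B C ≤ kap B Q :=
        sum_kap_le hKQ fun C hC D hD hne => (hK2 C hC D hD hne).1
      have hXe : X ⊆ Q.erase x := fun v hv =>
        mem_erase.2 ⟨fun h => hxX (h ▸ hv), hXQ hv⟩
      have hu0e : u0 ∈ K.biUnion id := by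
        rw [hK3]
        exact hXe hu0
      obtain ⟨C0, hC0, hu0C⟩ := mem_biUnion.1 hu0e
      have hXC0 : X ⊆ C0 := hX.sub_closed hrX hXe (hK1 C0 hC0).2.1
        ⟨u0, mem_inter.2 ⟨hu0C, hu0⟩⟩
      have h0 : 0 ≤ Pv B C0 + 2 * (kap B C0 : ℤ) :=
        ih C0 (hKss C0 hC0) (hr.mono (hKQ C0 hC0)) (h4.mono (hKQ C0 hC0)) (hK1 C0 hC0).2.2
          (fun h => h X hXC0 hX)
      have h5 := add_sum_erase K (fun C => Pv B C + 2 * (kap B C : ℤ)) hC0
      have h6 : ∑ D ∈ K.erase C0, (-1 : ℤ) ≤
          ∑ D ∈ K.erase C0, (Pv B D + 2 * (kap B D : ℤ)) :=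
        sum_le_sum fun D hD => hlow D (hKss D (mem_of_mem_erase hD))
          (hK1 D (mem_of_mem_erase hD)).2.2
      rw [sum_const, nsmul_eq_mul] at h6
      have h7 := card_erase_add_one hC0
      have c1 : ((K.erase C0).card : ℤ) + 1 = K.card := by exact_mod_cast h7
      have c2 : (K.card : ℤ) + (ins B Q {x}).card ≤ 5 := by exact_mod_cast hcard
      have c3 : ∑ C ∈ K, (kap B C : ℤ) ≤ kap B Q := by exact_mod_cast hkap
      have c4 : (0 : ℤ) ≤ (ins B Q {x}).card := by positivity
      have h8 : ∑ C ∈ K, (Pv B C + 2 * (kap B C : ℤ)) =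
          ∑ C ∈ K, Pv B C + 2 * ∑ C ∈ K, (kap B C : ℤ) := by
        rw [sum_add_distrib, ← mul_sum]
      push_cast at h2
      linarith
    · -- the point `x` is critical
      have hcr : rho B (Q.erase x) + 1 = rho B Q := by
        have h1 := rho_le_erase (x := x) hcov
        have h2 := rho_erase_le (x := x) hcov
        omega
      obtain ⟨F, hF1, hF2, hF3⟩ := exists_parts B (Q \ (B i ∩ Q))
      have hFQ : ∀ C ∈ F, C ⊆ Q := fun C hC => (hF1 C hC).1.trans sdiff_subset
      have hxZ : x ∈ B i ∩ Q := mem_inter.2 ⟨hxi, hxQ⟩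
      have hFx : ∀ C ∈ F, x ∉ C := fun C hC hxC => (mem_sdiff.1 ((hF1 C hC).1 hxC)).2 hxZ
      have hFss : ∀ C ∈ F, C ⊂ Q := fun C hC =>
        ⟨hFQ C hC, fun hcon => hFx C hC (hcon hxQ)⟩
      have hiC : ∀ C ∈ F, ¬ (B i ∩ C).Nonempty := by
        rintro C hC ⟨v, hv⟩
        rw [mem_inter] at hv
        exact (mem_sdiff.1 ((hF1 C hC).1 hv.2)).2 (mem_inter.2 ⟨hv.1, hFQ C hC hv.2⟩)
      have hFcov : ∀ C ∈ F, Cov B C := fun C hC => hcov.mono (hFQ C hC)
      -- the value
      have hval : ∑ C ∈ F, Pv B C ≤ Pv B Q := by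
        have h1 := Pv_sdiff (B := B) (W := Q) (X := B i ∩ Q) inter_subset_right
        rw [← hF3, Pv_biUnion hFcov hF2, hF3, hZc] at h1
        have h2 : 0 < (ins B Q (B i ∩ Q)).card :=
          card_pos.2 ⟨i, mem_ins.2 ⟨⟨x, hxZ⟩, Subset.refl _⟩⟩
        have h3 := rho_le_sdiff (i := i) (W := Q) (Z := B i ∩ Q) inter_subset_left hcov
        have c1 : (1 : ℤ) ≤ (ins B Q (B i ∩ Q)).card := by exact_mod_cast h2
        have c2 : (rho B Q : ℤ) ≤ rho B (Q \ (B i ∩ Q)) + 1 := by exact_mod_cast h3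
        push_cast at h1
        linarith
      -- the K-pieces
      have hkap : ∑ C ∈ F, kap B C + 1 ≤ kap B Q := by
        have h1 := kap_sdiff_lt hr h4 hXQ hX hiX
        have h2 : ∑ C ∈ F, kap B C ≤ kap B (Q \ (B i ∩ Q)) :=
          sum_kap_le (fun C hC => (hF1 C hC).1) fun C hC D hD hne => (hF2 C hC D hD hne).1
        omega
      -- the component of the complement of the trace
      have hUc : (X \ B i).card = 3 := by
        have h1 := card_sdiff_add_card_inter X (B i)
        rw [inter_comm, hi3, hX.card] at h1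
        omega
      have hUne : (X \ B i).Nonempty := card_pos.1 (by omega)
      obtain ⟨w0, hw0⟩ := hUne
      have hUW : ∀ v ∈ X \ B i, v ∈ Q \ (B i ∩ Q) := fun v hv =>
        mem_sdiff.2 ⟨hXQ (mem_sdiff.1 hv).1, fun h => (mem_sdiff.1 hv).2 (mem_inter.1 h).1⟩
      have hw0F : w0 ∈ F.biUnion id := by
        rw [hF3]
        exact hUW w0 hw0
      obtain ⟨C0, hC0, hw0C⟩ := mem_biUnion.1 hw0F
      have hUC0 : ∀ v ∈ X \ B i, v ∈ C0 := by
        intro v hv
        by_cases hvw : w0 = v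
        · rw [← hvw]
          exact hw0C
        · exact (hF1 C0 hC0).2.1.2 w0 hw0C v (hUW v hv) (hX.clique hrX hiX hw0 hv hvw)
      set N := univ.filter (fun j => B j ∩ X = B i ∩ X) with hN
      have hN2 : N.card ≤ 2 := (hX.count hrX hiX).1
      have hiN : i ∈ N := mem_filter.2 ⟨mem_univ _, rfl⟩
      have hN1 : (N.erase i).card ≤ 1 := by
        rw [card_erase_of_mem hiN]
        omega
      have hbad : ∀ C ∈ F, C ≠ C0 → Pv B C + 2 * (kap B C : ℤ) < 0 →
          ∃ j ∈ N.erase i, (B j ∩ C).Nonempty := by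
        intro C hC hCC0 hneg
        by_contra hcon
        push Not at hcon
        -- no block meets the trace and `C`
        have hno : ∀ j, (B j ∩ C).Nonempty → ∀ t ∈ X, t ∉ B j := by
          intro j hjC t ht htj
          have h1 := hX.trace hrX (i := j) ⟨t, mem_inter.2 ⟨htj, ht⟩⟩
          by_cases h2 : B j ∩ X = B i ∩ X
          · have hji : j ≠ i := by
              rintro rfl
              exact hiC C hC hjC
            have h3 := hcon j (mem_erase.2 ⟨hji, mem_filter.2 ⟨mem_univ _, h2⟩⟩)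
            rw [h3] at hjC
            exact absurd hjC (by simp)
          · have h3 : ∃ v ∈ B j ∩ X, v ∉ B i := by
              by_contra hc
              push Not at hc
              apply h2
              refine eq_of_subset_of_card_le (fun v hv => ?_) (by omega)
              exact mem_inter.2 ⟨hc v hv, (mem_inter.1 hv).2⟩
            obtain ⟨v, hv, hvi⟩ := h3
            rw [mem_inter] at hv
            exact (hF2 C hC C0 hC0 hCC0).2 j hjC
              ⟨v, mem_inter.2 ⟨hv.1, hUC0 v (mem_sdiff.2 ⟨hv.2, hvi⟩)⟩⟩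
        -- the neighbour of `C` is `x`
        have hclx : ∀ a ∈ C, ∀ y ∈ Q, y ∉ C → (gr B).Adj a y → y = x := by
          intro a ha y hy hyC hadj
          have hyZ : y ∈ B i ∩ Q := by
            by_contra hyZ
            exact hyC ((hF1 C hC).2.1.2 a ha y (mem_sdiff.2 ⟨hy, hyZ⟩) hadj)
          rw [hiQ, mem_insert] at hyZ
          rcases hyZ with h1 | h1
          · exact h1
          · exfalso
            obtain ⟨_, j, hj1, hj2⟩ := hadj
            exact hno j ⟨a, mem_inter.2 ⟨hj1, ha⟩⟩ y (mem_inter.1 h1).2 hj2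
        have hCne : C ≠ Q := (hFss C hC).ne
        obtain ⟨a, ha, y, hy, hyC, hadj⟩ := hQ.exists_edge (hFQ C hC) (hF1 C hC).2.2.1 hCne
        have hyx := hclx a ha y hy hyC hadj
        rw [hyx] at hadj
        have hcl : Closed (gr B) (Q.erase x) C := by
          refine ⟨fun v hv => mem_erase.2 ⟨fun h => hFx C hC (h ▸ hv), hFQ C hC hv⟩,
            fun b hb y hy hby => ?_⟩
          by_contra hyC
          exact (mem_erase.1 hy).1 (hclx b hb y (mem_of_mem_erase hy) hyC hby)
        have hWss : insert x C ⊂ Q := by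
          refine ⟨insert_subset hxQ (hFQ C hC), fun hcon2 => ?_⟩
          rcases mem_insert.1 (hcon2 (hXQ hu0)) with h1 | h1
          · exact hxX (h1 ▸ hu0)
          · exact hiC C hC ⟨u0, mem_inter.2 ⟨hui, h1⟩⟩
        have hlowW := hlow _ hWss ((hF1 C hC).2.2.insert ⟨a, ha, hadj.symm⟩)
        obtain ⟨_, j, hj1, hj2⟩ := hadj
        have := comp_large hr hxQ (hFQ C hC) (hFx C hC) hcl hcr hxi (hiC C hC) hj2
          ⟨a, mem_inter.2 ⟨hj1, ha⟩⟩ hlowW
        linarith
      have hsum : -2 ≤ ∑ C ∈ F, (Pv B C + 2 * (kap B C : ℤ)) := by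
        have h1 := sum_filter_add_sum_filter_not F (fun C => Pv B C + 2 * (kap B C : ℤ) < 0)
          (fun C => Pv B C + 2 * (kap B C : ℤ))
        have h2 : (F.filter (fun C => Pv B C + 2 * (kap B C : ℤ) < 0)).card ≤ 2 := by
          have h3 : ((F.filter (fun C => Pv B C + 2 * (kap B C : ℤ) < 0)).erase C0).card ≤ 1 := by
            rw [card_le_one]
            intro C hC D hD
            rw [mem_erase, mem_filter] at hC hD
            obtain ⟨j, hj, hjC⟩ := hbad C hC.2.1 hC.1 hC.2.2
            obtain ⟨k, hk, hkD⟩ := hbad D hD.2.1 hD.1 hD.2.2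
            have hjk : j = k := card_le_one.1 hN1 j hj k hk
            by_contra hne
            exact (hF2 C hC.2.1 D hD.2.1 hne).2 j hjC (hjk ▸ hkD)
          have h4 := pred_card_le_card_erase
            (s := F.filter (fun C => Pv B C + 2 * (kap B C : ℤ) < 0)) (a := C0)
          omega
        have h3 : ∑ C ∈ F.filter (fun C => Pv B C + 2 * (kap B C : ℤ) < 0), (-1 : ℤ) ≤
            ∑ C ∈ F.filter (fun C => Pv B C + 2 * (kap B C : ℤ) < 0),
              (Pv B C + 2 * (kap B C : ℤ)) :=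
          sum_le_sum fun C hC => hlow C (hFss C (mem_filter.1 hC).1)
            (hF1 C (mem_filter.1 hC).1).2.2
        rw [sum_const, nsmul_eq_mul] at h3
        have h4 : 0 ≤ ∑ C ∈ F.filter (fun C => ¬ Pv B C + 2 * (kap B C : ℤ) < 0),
            (Pv B C + 2 * (kap B C : ℤ)) :=
          sum_nonneg fun C hC => by
            have := (mem_filter.1 hC).2
            omega
        have c1 : ((F.filter (fun C => Pv B C + 2 * (kap B C : ℤ) < 0)).card : ℤ) ≤ 2 := by
          exact_mod_cast h2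
        linarith
      have c3 : ∑ C ∈ F, (kap B C : ℤ) + 1 ≤ kap B Q := by exact_mod_cast hkap
      have h8 : ∑ C ∈ F, (Pv B C + 2 * (kap B C : ℤ)) =
          ∑ C ∈ F, Pv B C + 2 * ∑ C ∈ F, (kap B C : ℤ) := by
        rw [sum_add_distrib, ← mul_sum]
      linarith

/-- the level-4 theorem. -/
theorem T0 (hL3 : L3e.{u} V) {Q : Finset V} (hr : Reg B Q) (h4 : Tr4 B Q)
    (hQ : Conn (gr B) Q) : -1 ≤ Pv B Q + 2 * (kap B Q : ℤ) := by
  by_cases hk : KFree B Q
  · have h1 := T0e hL3 hr h4 hQ hk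
    have h2 : (0 : ℤ) ≤ kap B Q := by positivity
    have h3 : (0 : ℤ) ≤ ee B Q Q := by positivity
    linarith
  · have := T0_pos hL3 B Q hr h4 hQ hk
    linarith

end Pool.Agent.Hyp6
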