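import Pool.Agent.Hyp6.L3RA
import Pool.Agent.Hyp6.L4V

/-!
# HYP6 L3RB: the full blocks of a minimal counterexample with value at least one

Lemma A for `ViolR` (value at least one, `dv <= -1`, both induction hypotheses): for every set `P`
containing the trace of a full block and lowering the cover number by one only, the rest is connected;
the rest of the trace is critical, or there is one more point and the tight case.
-/

set_option autoImplicit false

namespace Pool.Agent.Hyp6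

open Finset Pool.Agent.Hyp5

universe u v

variable {V : Type v} [DecidableEq V] {ι : Type u} [Fintype ι] {B : ι → Finset V}
variable {Q C X : Finset V} {F : Finset (Finset V)} {i0 : ι}

/-- a minimal counterexample with value at least one. -/
structure ViolR (B : ι → Finset V) (Q : Finset V) : Prop where
  ih : IHE.{u} V Q.card
  ihr : IHR.{u} V Q.card
  reg : Reg B Q
  tr : Tr3 B Q
  conn : Conn (gr B) Q
  crit : Crit B Q
  sv1 : 1 ≤ sv B Q
  nkt : ¬ KT B Q
  neg : dv B Q Q ≤ -1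

/-- a closure of a set containing the full block `i0`. -/
structure VCR (B : ι → Finset V) (Q X : Finset V) (F : Finset (Finset V)) (i0 : ι) : Prop
    extends ViolR B Q where
  clo : Clo B Q X F
  inc : B i0 ∩ Q ⊆ X
  c3 : (B i0 ∩ Q).card = 3

theorem ViolR.cov (h : ViolR B Q) : Cov B Q := cov_of_reg h.reg

/-- closures of sets lowering the cover number by one. -/
theorem exists_clo1 {C : Finset V} (hc : Cov B C) {P : Finset V} (hPC : P ⊆ C)
    (hP1 : rho B (C \ P) + 1 = rho B C) : ∃ X F, P ⊆ X ∧ Clo B C X F := by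
  classical
  obtain ⟨X, hXm, hXmax⟩ := exists_max_image
    (C.powerset.filter (fun X => P ⊆ X ∧ rho B (C \ X) + 1 = rho B C)) card
    ⟨P, mem_filter.2 ⟨mem_powerset.2 hPC, Subset.refl _, hP1⟩⟩
  rw [mem_filter, mem_powerset] at hXm
  obtain ⟨hXC, hPX, hrho⟩ := hXm
  obtain ⟨F, hF1, hF2, hF3⟩ := exists_parts B (C \ X)
  refine ⟨X, F, hPX, hXC, hF1, hF2, hF3, ?_, hrho⟩
  intro L hL x hx
  have hcL : Cov B L := hc.mono ((hF1 L hL).1.trans sdiff_subset)
  have h1 := rho_erase_le (B := B) (x := x) hcL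
  have h2 := rho_le_erase (B := B) (x := x) hcL
  by_contra hcon
  have h3 : rho B (L.erase x) = rho B L := by omega
  have hxCX : x ∈ C \ X := (hF1 L hL).1 hx
  rw [mem_sdiff] at hxCX
  set R := (F.erase L).biUnion id with hR
  have hRC : R ⊆ C \ X := by
    rw [← hF3]
    exact biUnion_subset_biUnion_of_subset_left _ (erase_subset _ _)
  have hun : C \ X = L ∪ R := by
    rw [← hF3]
    conv_lhs => rw [← insert_erase hL]
    rw [biUnion_insert]
    simp only [id]
    rfl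
  have hsepLR : Sep B L R := by
    refine sep_biUnion fun D hD => ?_
    rw [mem_erase] at hD
    exact (hF2 L hL D hD.2 hD.1.symm).2
  have hcR : Cov B R := hc.mono (hRC.trans sdiff_subset)
  have h4 : rho B (C \ X) = rho B L + rho B R := by
    rw [hun, rho_add hcL hcR hsepLR]
  have hdis : Disjoint L R := by
    refine disjoint_biUnion fun D hD => ?_
    rw [mem_erase] at hD
    exact (hF2 L hL D hD.2 hD.1.symm).1
  have h5 : C \ insert x X = L.erase x ∪ R := by
    rw [sdiff_insert, hun]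
    ext v
    simp only [mem_erase, mem_union]
    constructor
    · rintro ⟨ha, hb | hb⟩
      · exact Or.inl ⟨ha, hb⟩
      · exact Or.inr hb
    · rintro (⟨ha, hb⟩ | hb)
      · exact ⟨ha, Or.inl hb⟩
      · refine ⟨?_, Or.inr hb⟩
        rintro rfl
        exact disjoint_left.1 hdis hx hb
  have h6 : rho B (C \ insert x X) + 1 = rho B C := by
    rw [h5, rho_add (hcL.mono (erase_subset _ _)) hcR (hsepLR.mono (erase_subset _ _)
      (Subset.refl _)), h3, ← h4]
    exact hrho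
  have h7 := hXmax (insert x X) (mem_filter.2 ⟨mem_powerset.2 (insert_subset hxCX.1 hXC),
    hPX.trans (subset_insert _ _), h6⟩)
  rw [card_insert_of_notMem hxCX.2] at h7
  omega

theorem ViolR.exists_VCR (h : ViolR B Q) {i : ι} (hi : (B i ∩ Q).card = 3) {P : Finset V}
    (hPQ : P ⊆ Q) (hiP : B i ∩ Q ⊆ P) (hP1 : rho B (Q \ P) + 1 = rho B Q) :
    ∃ X F, P ⊆ X ∧ VCR B Q X F i := by
  obtain ⟨X, F, hP, hC⟩ := exists_clo1 h.cov hPQ hP1
  exact ⟨X, F, hP, h, hC, hiP.trans hP, hi⟩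

theorem VCR.X3 (h : VCR B Q X F i0) : 3 ≤ X.card := by
  rw [← h.c3]
  exact card_le_card h.inc

theorem VCR.Xne (h : VCR B Q X F i0) : X.Nonempty := card_pos.1 (by have := h.X3; omega)

theorem VCR.cov (h : VCR B Q X F i0) : Cov B Q := cov_of_reg h.reg

theorem VCR.sizeL (h : VCR B Q X F i0) {L : Finset V} (hL : L ∈ F) : L.card + X.card ≤ Q.card := by
  have h1 := card_le_card (h.clo.parts L hL).1
  have h2 := card_sdiff_add_card_eq_card h.clo.sub
  omega

theorem VCR.cp (h : VCR B Q X F i0) {L : Finset V} (hL : L ∈ F) : Cr3 B Q L :=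
  ⟨⟨h.ih, h.reg, h.tr, h.conn, h.clo.subC hL, (h.clo.parts L hL).2.2, by
    have := h.sizeL hL
    have := h.X3
    omega⟩, h.ihr⟩

theorem VCR.i0_ins (h : VCR B Q X F i0) : i0 ∈ ins B Q X := by
  rw [mem_ins]
  exact ⟨card_pos.1 (by rw [h.c3]; norm_num), h.inc⟩

theorem VCR.ee_X (h : VCR B Q X F i0) : 2 * ee B Q X + 1 ≤ (ins B Q X).card := by
  classical
  have h1 := two_ee_le (B := B) Q X
  have h2 : (ins B Q X).filter (fun i => (B i ∩ Q).card = 1) ⊆ (ins B Q X).erase i0 := by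
    intro i hi
    rw [mem_filter] at hi
    refine mem_erase.2 ⟨?_, hi.1⟩
    rintro rfl
    rw [h.c3] at hi
    omega
  have h3 := card_le_card h2
  have h4 := card_erase_add_one h.i0_ins
  omega

theorem VCR.sum_dv (h : VCR B Q X F i0) : ∑ L ∈ F, dv B Q L =
    dv B Q Q + 2 * (ee B Q X : ℤ) + 24 - 5 * (X.card : ℤ) - 4 * ((ins B Q X).card : ℤ) := by
  have h1 := h.clo.sum_Pv h.cov
  have h2 : ee B Q Q = ∑ L ∈ F, ee B Q L + ee B Q X := by
    rw [← ee_biUnion h.clo.sep, h.clo.un, ← ee_union sdiff_disjoint,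
      sdiff_union_of_subset h.clo.sub]
  have h3 : ∑ L ∈ F, dv B Q L = ∑ L ∈ F, Pv B L - 2 * ∑ L ∈ F, (ee B Q L : ℤ) := by
    unfold dv
    rw [sum_sub_distrib, ← mul_sum]
  have c1 : (ee B Q Q : ℤ) = ∑ L ∈ F, (ee B Q L : ℤ) + ee B Q X := by
    rw [h2]
    push_cast
    ring
  rw [h3, h1]
  unfold dv
  linarith

theorem VCR.lt (h : VCR B Q X F i0) : F.card < X.card := by
  have h1 := h.clo.card_FA_lt h.crit h.cov h.conn (Subset.refl X) h.Xne
  rwa [FA_self] at h1

theorem VCR.sum_sv (h : VCR B Q X F i0) : ∑ L ∈ F, sv B L = sv B Q - X.card + 2 := by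
  have h2 : ∑ L ∈ F, sv B L = sv B (Q \ X) := by
    rw [← h.clo.un]
    exact (sv_biUnion (fun L hL => h.cov.mono (h.clo.subC hL)) h.clo.sep).symm
  have h4 := card_sdiff_add_card_eq_card h.clo.sub
  have h5 := h.clo.rhoX
  rw [h2]
  unfold sv
  have h6 : ((Q \ X).card : ℤ) + X.card = Q.card := by exact_mod_cast h4
  have h7 : (rho B (Q \ X) : ℤ) + 1 = rho B Q := by exact_mod_cast h5
  linarith

theorem VCR.sv_ge (h : VCR B Q X F i0) {L : Finset V} (hL : L ∈ F) : -1 ≤ sv B L :=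
  crit_sv_ge_cov (h.cp hL).cov (h.clo.parts L hL).2.2 (h.clo.crit L hL)

theorem VCR.d_ge (h : VCR B Q X F i0) {L : Finset V} (hL : L ∈ F) : -1 ≤ dv B Q L :=
  (h.cp hL).d_ge

/-- some component has value `>= 0` if there are two components and at most four points. -/
theorem VCR.exists_pos (h : VCR B Q X F i0) (h2 : 2 ≤ F.card) (hX : X.card ≤ 4) :
    ∃ L ∈ F, 0 ≤ sv B L := by
  by_contra hcon
  push Not at hcon
  have h1 : ∑ L ∈ F, sv B L ≤ ∑ L ∈ F, (-1 : ℤ) := sum_le_sum fun L hL => by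
    have := hcon L hL
    omega
  rw [h.sum_sv, sum_const, nsmul_eq_mul] at h1
  have h3 := h.sv1
  have h4 : (2 : ℤ) ≤ F.card := by exact_mod_cast h2
  have h5 : (X.card : ℤ) ≤ 4 := by exact_mod_cast hX
  linarith

theorem VCR.shape (h : VCR B Q X F i0) : (X.card = 3 ∧ (ins B Q X).card = 1) ∨
    (X.card = 3 ∧ (ins B Q X).card = 2) ∨ (X.card = 4 ∧ (ins B Q X).card = 1) := by
  have h1 := h.sum_dv
  have h2 := h.ee_X
  have h3 := h.lt
  have h4 := h.X3
  have h5 := h.neg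
  have h6 : ∑ L ∈ F, (-1 : ℤ) ≤ ∑ L ∈ F, dv B Q L := sum_le_sum fun L hL => (h.cp hL).d_ge
  rw [sum_const, nsmul_eq_mul] at h6
  rcases (by omega : ((X.card = 3 ∧ (ins B Q X).card = 1) ∨
    (X.card = 3 ∧ (ins B Q X).card = 2) ∨ (X.card = 4 ∧ (ins B Q X).card = 1)) ∨
    (X.card = 3 ∧ F.card = 2 ∧ ∑ L ∈ F, dv B Q L ≤ -2)) with h7 | ⟨h7, h8, h9⟩
  · exact h7
  · exfalso
    obtain ⟨L, hL, hs⟩ := h.exists_pos (by omega) (by omega)
    have h10 := (h.cp hL).l_ge
    rw [lv_pos hs] at h10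
    have h11 := add_sum_erase F (fun L => dv B Q L) hL
    have h12 : ∑ D ∈ F.erase L, (-1 : ℤ) ≤ ∑ D ∈ F.erase L, dv B Q D :=
      sum_le_sum fun D hD => (h.cp (mem_of_mem_erase hD)).d_ge
    rw [sum_const, nsmul_eq_mul, card_erase_of_mem hL, h8] at h12
    push_cast at h12
    linarith

theorem VCR.ee0 (h : VCR B Q X F i0) : ee B Q X = 0 := by
  have h1 := h.shape
  have h2 := h.ee_X
  omega

/-- the bound for the sum of the values. -/
theorem VCR.sum_lv (h : VCR B Q X F i0) (h2 : 2 ≤ F.card) : ∑ L ∈ F, lv B Q L ≤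
    22 - 5 * (X.card : ℤ) - 4 * ((ins B Q X).card : ℤ) := by
  have h1 := h.sum_dv
  rw [h.ee0] at h1
  have h3 := h.shape
  obtain ⟨L, hL, hs⟩ := h.exists_pos h2 (by omega)
  have h4 : ∑ D ∈ F.erase L, lv B Q D ≤ ∑ D ∈ F.erase L, dv B Q D :=
    sum_le_sum fun D _ => lv_le Q D
  have h5 := add_sum_erase F (fun L => dv B Q L) hL
  have h6 := add_sum_erase F (fun L => lv B Q L) hL
  have h7 := lv_pos (Q := Q) hs
  have h8 := h.neg
  push_cast at h1
  linarith

theorem VCR.F_ne (h : VCR B Q X F i0) : F.Nonempty := by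
  rw [nonempty_iff_ne_empty]
  intro hF
  obtain ⟨z, hz⟩ := h.Xne
  have h1 := h.clo.row h.reg hz
  rw [hF, sum_empty] at h1
  have h2 := card_filter_le (ins B Q X) (fun i => z ∈ B i)
  have h3 := h.shape
  omega

theorem VCR.two_att (h : VCR B Q X F i0) {L : Finset V} (hL : L ∈ F) (a : V) :
    ∃ x ∈ X, x ≠ a ∧ 1 ≤ (Ez B L x).card := by
  obtain ⟨z, hz, y, hy, hzy, h1, h2⟩ := h.clo.two h.crit h.cov h.conn h.Xne hL
  by_cases hza : z = a
  · exact ⟨y, hy, fun h => hzy (hza.trans h.symm), card_pos.2 h2⟩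
  · exact ⟨z, hz, hza, card_pos.2 h1⟩

theorem VCR.pair_att (h : VCR B Q X F i0) {L M : Finset V} (hL : L ∈ F) (hM : M ∈ F) (hLM : L ≠ M)
    (a b : V) : ∃ x ∈ X, x ≠ a ∧ x ≠ b ∧ (1 ≤ (Ez B L x).card ∨ 1 ≤ (Ez B M x).card) := by
  classical
  by_contra hcon
  push Not at hcon
  have h1 := h.clo.hall h.crit h.cov h.conn h.Xne (S := {L, M}) (by
    intro D hD
    rw [mem_insert, mem_singleton] at hD
    rcases hD with rfl | rfl
    · exact hL
    · exact hM) (insert_nonempty _ _)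
  rw [card_pair hLM] at h1
  have h2 : nbX B X {L, M} ⊆ {a, b} := by
    intro x hx
    rw [mem_nbX] at hx
    obtain ⟨hxX, D, hD, hE⟩ := hx
    rw [mem_insert, mem_singleton]
    by_contra h3
    push Not at h3
    have h4 := hcon x hxX h3.1 h3.2
    have h5 := card_pos.2 hE
    rw [mem_insert, mem_singleton] at hD
    rcases hD with rfl | rfl
    · omega
    · omega
  have h3 := card_le_card h2
  have h4 : ({a, b} : Finset V).card ≤ 2 := card_le_two
  omega

theorem VCR.ab1 (h : VCR B Q X F i0) {L : Finset V} (hL : L ∈ F) {z : V}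
    (he : 1 ≤ (Ez B L z).card) : Abz B L {z} :=
  (h.clo.crit L hL).pt1 (h.cp hL).cov (card_pos.1 he)

theorem VCR.ab0 (h : VCR B Q X F i0) {L : Finset V} (hL : L ∈ F) : Abz B L ∅ :=
  Abz.empty (h.cp hL).cov

theorem VCR.ab2 (h : VCR B Q X F i0) {L : Finset V} (hL : L ∈ F) (hd : lv B Q L ≤ 0) {z z' : V}
    (hz : z ∈ X) (hz' : z' ∈ X) (hne : z ≠ z') (he : 2 ≤ (Ez B L z).card)
    (he' : 2 ≤ (Ez B L z').card) : Abz B L {z, z'} :=
  (h.cp hL).pt2 hd (h.clo.sub hz) (h.clo.notMem hL hz) (h.clo.sub hz') (h.clo.notMem hL hz')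
    hne he he'

theorem VCR.ab2b (h : VCR B Q X F i0) {L : Finset V} (hL : L ∈ F) (hd : lv B Q L ≤ 4) {z z' : V}
    (hz : z ∈ X) (hz' : z' ∈ X) (hne : z ≠ z') (he : 3 ≤ (Ez B L z).card)
    (he' : 3 ≤ (Ez B L z').card) : Abz B L {z, z'} :=
  (h.cp hL).pt2b hd (h.clo.sub hz) (h.clo.notMem hL hz) (h.clo.sub hz') (h.clo.notMem hL hz')
    hne he he'

theorem VCR.ab2c (h : VCR B Q X F i0) {L : Finset V} (hL : L ∈ F) (hd : lv B Q L ≤ 2) {z z' : V}
    (hz : z ∈ X) (hz' : z' ∈ X) (hne : z ≠ z') (he : 4 ≤ (Ez B L z).card)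
    (he' : 2 ≤ (Ez B L z').card) : Abz B L {z, z'} :=
  (h.cp hL).pt2c hd (h.clo.sub hz) (h.clo.notMem hL hz) (h.clo.sub hz') (h.clo.notMem hL hz')
    hne he he'

theorem VCR.a2 (h : VCR B Q X F i0) {M L : Finset V} (hF : F = {M, L}) (hne : M ≠ L)
    {SM SL : Finset V} (hM : Abz B M SM) (hL : Abz B L SL) (hZ : ∀ z ∈ X, z ∈ SM ∨ z ∈ SL) :
    False := by
  have hc : Clo B Q X {M, L} := hF ▸ h.clo
  exact hc.assign2 h.crit h.cov h.Xne hne hM hL fun z hz => mem_union.2 (hZ z hz)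

theorem VCR.a3 (h : VCR B Q X F i0) {M L K : Finset V} (hF : F = {M, L, K}) (hML : M ≠ L)
    (hMK : M ≠ K) (hLK : L ≠ K) {SM SL SK : Finset V} (hM : Abz B M SM) (hL : Abz B L SL)
    (hK : Abz B K SK) (hZ : ∀ z ∈ X, z ∈ SM ∨ z ∈ SL ∨ z ∈ SK) : False := by
  have hc : Clo B Q X {M, L, K} := hF ▸ h.clo
  refine hc.assign3 h.crit h.cov h.Xne hML hMK hLK hM hL hK fun z hz => ?_
  have := hZ z hz
  simp only [mem_union]
  tauto

theorem VCR.row_ge (h : VCR B Q X F i0) {z : V} (hz : z ∈ X) :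
    3 ≤ ∑ L ∈ F, (Ez B L z).card := by
  have h1 := h.clo.row h.reg hz
  have h2 := card_filter_le (ins B Q X) (fun i => z ∈ B i)
  have h3 := h.shape
  omega

/-- two components, three points: not two points absorbed by `M` together. -/
theorem VCR.nk (h : VCR B Q X F i0) (hX : X.card = 3) {M L : Finset V} (hF : F = {M, L})
    (hne : M ≠ L) {p : ℕ}
    (hp : ∀ x ∈ X, ∀ y ∈ X, x ≠ y → p ≤ (Ez B M x).card → p ≤ (Ez B M y).card → Abz B M {x, y})
    (hr : ∀ z ∈ X, p ≤ (Ez B M z).card + (Ez B L z).card) :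
    ∀ x ∈ X, ∀ y ∈ X, x ≠ y → ¬ (p ≤ (Ez B M x).card ∧ p ≤ (Ez B M y).card) := by
  rintro x hx y hy hxy ⟨e1, e2⟩
  have mL : L ∈ F := by rw [hF]; simp
  obtain ⟨w, h3⟩ := thr_of hX hx hy hxy
  have hstep : ∀ x' ∈ X, ∀ y' ∈ X, ∀ w' ∈ X, x' ≠ y' → (∀ z ∈ X, z = x' ∨ z = y' ∨ z = w') →
      p ≤ (Ez B M x').card → p ≤ (Ez B M y').card → (Ez B L w').card = 0 := by
    intro x' hx' y' hy' w' hw' hne' hcov hpx hpy
    by_contra hcon
    refine h.a2 hF hne (hp x' hx' y' hy' hne' hpx hpy) (h.ab1 mL (z := w') (by omega))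
      fun z hz => ?_
    rcases hcov z hz with rfl | rfl | rfl <;> simp
  have hw := hstep x hx y hy w h3.mc hxy h3.cov e1 e2
  have hw2 : p ≤ (Ez B M w).card := by
    have := hr w h3.mc
    omega
  have hy2 := hstep x hx w h3.mc y hy h3.ac (fun z hz => by have := h3.cov z hz; tauto) e1 hw2
  have hx2 := hstep y hy w h3.mc x hx h3.bc (fun z hz => by have := h3.cov z hz; tauto) e2 hw2
  obtain ⟨z, hz, _, hE⟩ := h.two_att mL x
  rcases h3.cov z hz with rfl | rfl | rfl <;> omega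

/-- the values of two components are positive: one inner block, three points. -/
theorem VCR.pos2 (h : VCR B Q X F i0) (hX : X.card = 3) {M L : Finset V} (hF : F = {M, L})
    (hne : M ≠ L) (hr : ∀ z ∈ X, (Ez B M z).card + (Ez B L z).card = 4)
    (hs : lv B Q M + lv B Q L ≤ 3) : 1 ≤ lv B Q M := by
  by_contra hcon
  have mM : M ∈ F := by rw [hF]; simp
  have mL : L ∈ F := by rw [hF]; simp
  have hFD : F = {L, M} := by rw [hF, pair_comm]
  have gM := (h.cp mM).l_ge
  have k := h.nk hX hF hne (p := 2)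
    (fun x hx y hy hxy e1 e2 => h.ab2 mM (by omega) hx hy hxy e1 e2)
    (fun z hz => by have := hr z hz; omega)
  have l := h.nk hX hFD hne.symm (p := 3)
    (fun x hx y hy hxy e1 e2 => h.ab2b mL (by omega) hx hy hxy e1 e2)
    (fun z hz => by have := hr z hz; omega)
  obtain ⟨a, ha⟩ := h.Xne
  obtain ⟨b, hb, hba⟩ := exists_mem_ne (by rw [hX]; norm_num : 1 < X.card) a
  obtain ⟨c, ht⟩ := thr_of hX ha hb hba.symm
  have ra := hr a ht.ma
  have rb := hr b ht.mb
  have rc := hr c ht.mc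
  have k1 := k a ht.ma b ht.mb ht.ab
  have k2 := k a ht.ma c ht.mc ht.ac
  have k3 := k b ht.mb c ht.mc ht.bc
  have k4 := l a ht.ma b ht.mb ht.ab
  have k5 := l a ht.ma c ht.mc ht.ac
  have k6 := l b ht.mb c ht.mc ht.bc
  omega

/-- merging: the point `b` has two hits on `M`, the others have together at least four. -/
theorem VCR.mg (h : VCR B Q X F i0) {M L : Finset V} (hF : F = {M, L}) (hne : M ≠ L)
    (hd : lv B Q M ≤ 2) {a b c : V} (ht : Thr X a b c) (hmb : 2 ≤ (Ez B M b).card)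
    (hla : 1 ≤ (Ez B L a).card) (hlb : 1 ≤ (Ez B L b).card) (hlc : 1 ≤ (Ez B L c).card)
    (hs : 4 ≤ (Ez B M a).card + (Ez B M c).card) : False := by
  classical
  have mM : M ∈ F := by rw [hF]; simp
  have mL : L ∈ F := by rw [hF]; simp
  by_cases hdis : Disjoint (Ez B M a) (Ez B M c)
  · rw [← card_union_of_disjoint hdis] at hs
    rcases (h.cp mM).mrg24 hd (h.clo.sub ht.mb) (h.clo.notMem mM ht.mb) (h.clo.sub ht.ma)
      (h.clo.notMem mM ht.ma) (h.clo.sub ht.mc) (h.clo.notMem mM ht.mc) ht.ab.symm ht.bc hmb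
      (by convert hs using 2) with h1 | h1
    · refine h.a2 hF hne h1 (h.ab1 mL hlc) fun z hz => ?_
      rcases ht.cov z hz with rfl | rfl | rfl <;> simp
    · refine h.a2 hF hne h1 (h.ab1 mL hla) fun z hz => ?_
      rcases ht.cov z hz with rfl | rfl | rfl <;> simp
  · rw [not_disjoint_iff] at hdis
    obtain ⟨i, hi1, hi2⟩ := hdis
    rw [mem_Ez] at hi1 hi2
    obtain ⟨T, hT1, hT2, hT3⟩ := (h.clo.crit M mM).blkT (h.cp mM).cov hi1.2
    have h1 : Abz B M {a, c} := by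
      refine ⟨T, union_subset hT1 fun v hv => ?_, hT2⟩
      rw [mem_insert, mem_singleton] at hv
      rcases hv with rfl | rfl
      · exact mem_biUnion.2 ⟨i, hT3, hi1.1⟩
      · exact mem_biUnion.2 ⟨i, hT3, hi2.1⟩
    refine h.a2 hF hne h1 (h.ab1 mL hlb) fun z hz => ?_
    rcases ht.cov z hz with rfl | rfl | rfl <;> simp

theorem VCR.hit3 (h : VCR B Q X F i0) (hX : X.card = 3) {M L : Finset V} (hF : F = {M, L})
    (hne : M ≠ L) (hd : lv B Q M ≤ 2)
    (hr : ∀ z ∈ X, (Ez B M z).card + (Ez B L z).card = 4)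
    (k : ∀ x ∈ X, ∀ y ∈ X, x ≠ y → ¬ (3 ≤ (Ez B M x).card ∧ 3 ≤ (Ez B M y).card))
    (l : ∀ x ∈ X, ∀ y ∈ X, x ≠ y → ¬ (3 ≤ (Ez B L x).card ∧ 3 ≤ (Ez B L y).card)) :
    ∀ z ∈ X, (Ez B M z).card ≤ 3 := by
  intro z hz
  have mM : M ∈ F := by rw [hF]; simp
  have mL : L ∈ F := by rw [hF]; simp
  by_contra hcon
  obtain ⟨x, hx, hxz⟩ := exists_mem_ne (by rw [hX]; norm_num : 1 < X.card) z
  obtain ⟨y, ht⟩ := thr_of hX hz hx hxz.symm
  have rz := hr z ht.ma
  have rx := hr x ht.mb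
  have ry := hr y ht.mc
  have k1 := k z ht.ma x ht.mb ht.ab
  have k2 := k z ht.ma y ht.mc ht.ac
  have l3 := l x ht.mb y ht.mc ht.bc
  rcases (by omega : (2 ≤ (Ez B M x).card ∧ 1 ≤ (Ez B L y).card) ∨
    (2 ≤ (Ez B M y).card ∧ 1 ≤ (Ez B L x).card)) with t | t
  · refine h.a2 hF hne (h.ab2c mM hd ht.ma ht.mb ht.ab (by omega) t.1)
      (h.ab1 mL t.2) fun v hv => ?_
    rcases ht.cov v hv with rfl | rfl | rfl <;> simp
  · refine h.a2 hF hne (h.ab2c mM hd ht.ma ht.mc ht.ac (by omega) t.1)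
      (h.ab1 mL t.2) fun v hv => ?_
    rcases ht.cov v hv with rfl | rfl | rfl <;> simp

/-- three points, one inner block: not two components. -/
theorem VCR.not31 (h : VCR B Q X F i0) (hX : X.card = 3) (hn : (ins B Q X).card = 1)
    {M L : Finset V} (hF : F = {M, L}) (hne : M ≠ L) : False := by
  have mM : M ∈ F := by rw [hF]; simp
  have mL : L ∈ F := by rw [hF]; simp
  have hFD : F = {L, M} := by rw [hF, pair_comm]
  have hXB : ∀ z ∈ X, z ∈ B i0 := by
    have h1 : B i0 ∩ Q = X := eq_of_subset_of_card_le h.inc (by rw [h.c3, hX])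
    intro z hz
    rw [← h1] at hz
    exact (mem_inter.1 hz).1
  have hins : ins B Q X = {i0} := ins_eq_singleton hn h.inc (card_pos.1 (by rw [h.c3]; norm_num))
  have hr : ∀ z ∈ X, (Ez B M z).card + (Ez B L z).card = 4 := by
    intro z hz
    have h1 := h.clo.row1 h.reg hins hz (hXB z hz)
    rw [hF, sum_pair hne] at h1
    exact h1
  have hr' : ∀ z ∈ X, (Ez B L z).card + (Ez B M z).card = 4 := fun z hz => by
    have := hr z hz
    omega
  have hs := h.sum_lv (by rw [hF, card_pair hne])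
  rw [hX, hn, hF, sum_pair hne] at hs
  have hv := h.neg
  push_cast at hs
  have p1 := h.pos2 hX hF hne hr (by linarith)
  have p2 := h.pos2 hX hFD hne.symm hr' (by linarith)
  have k := h.nk hX hF hne (p := 3)
    (fun x hx y hy hxy e1 e2 => h.ab2b mM (by linarith) hx hy hxy e1 e2)
    (fun z hz => by have := hr z hz; omega)
  have l := h.nk hX hFD hne.symm (p := 3)
    (fun x hx y hy hxy e1 e2 => h.ab2b mL (by linarith) hx hy hxy e1 e2)
    (fun z hz => by have := hr z hz; omega)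
  have m3 := h.hit3 hX hF hne (by linarith) hr k l
  have l3 := h.hit3 hX hFD hne.symm (by linarith) hr' l k
  obtain ⟨a, ha⟩ := h.Xne
  obtain ⟨b, hb, hba⟩ := exists_mem_ne (by rw [hX]; norm_num : 1 < X.card) a
  obtain ⟨c, ht⟩ := thr_of hX ha hb hba.symm
  have ra := hr a ht.ma
  have rb := hr b ht.mb
  have rc := hr c ht.mc
  have ma := m3 a ht.ma
  have mb := m3 b ht.mb
  have mc := m3 c ht.mc
  have la := l3 a ht.ma
  have lb := l3 b ht.mb
  have lc := l3 c ht.mc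
  have key := num31 (a := (Ez B M a).card) (b := (Ez B M b).card) (c := (Ez B M c).card)
    (by omega) ma (by omega) mb (by omega) mc (k a ht.ma b ht.mb ht.ab) (k a ht.ma c ht.mc ht.ac)
    (k b ht.mb c ht.mc ht.bc)
    (fun e => l a ht.ma b ht.mb ht.ab ⟨by omega, by omega⟩)
    (fun e => l a ht.ma c ht.mc ht.ac ⟨by omega, by omega⟩)
    (fun e => l b ht.mb c ht.mc ht.bc ⟨by omega, by omega⟩)
  have ht2 : Thr X b a c := ⟨ht.mb, ht.ma, ht.mc, ht.ab.symm, ht.bc, ht.ac,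
    fun x hx => by have := ht.cov x hx; tauto⟩
  have ht3 : Thr X a c b := ⟨ht.ma, ht.mc, ht.mb, ht.ac, ht.ab, ht.bc.symm,
    fun x hx => by have := ht.cov x hx; tauto⟩
  rcases key with t | t | t
  · rcases (by omega : 4 ≤ (Ez B M a).card + (Ez B M c).card ∨
      4 ≤ (Ez B L a).card + (Ez B L c).card) with q | q
    · exact h.mg hF hne (by linarith) ht (by omega) (by omega) (by omega) (by omega) q
    · exact h.mg hFD hne.symm (by linarith) ht (by omega) (by omega) (by omega) (by omega) q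
  · rcases (by omega : 4 ≤ (Ez B M b).card + (Ez B M c).card ∨
      4 ≤ (Ez B L b).card + (Ez B L c).card) with q | q
    · exact h.mg hF hne (by linarith) ht2 (by omega) (by omega) (by omega) (by omega) q
    · exact h.mg hFD hne.symm (by linarith) ht2 (by omega) (by omega) (by omega) (by omega) q
  · rcases (by omega : 4 ≤ (Ez B M a).card + (Ez B M b).card ∨
      4 ≤ (Ez B L a).card + (Ez B L b).card) with q | q
    · exact h.mg hF hne (by linarith) ht3 (by omega) (by omega) (by omega) (by omega) q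
    · exact h.mg hFD hne.symm (by linarith) ht3 (by omega) (by omega) (by omega) (by omega) q

/-- three points, two inner blocks: not two components. -/
theorem VCR.not32 (h : VCR B Q X F i0) (hX : X.card = 3) (hn : (ins B Q X).card = 2)
    {M L : Finset V} (hF : F = {M, L}) (hne : M ≠ L) : False := by
  have mM : M ∈ F := by rw [hF]; simp
  have mL : L ∈ F := by rw [hF]; simp
  have hFD : F = {L, M} := by rw [hF, pair_comm]
  have hr : ∀ z ∈ X, 3 ≤ (Ez B M z).card + (Ez B L z).card := by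
    intro z hz
    have h1 := h.row_ge hz
    rw [hF, sum_pair hne] at h1
    exact h1
  have hs := h.sum_lv (by rw [hF, card_pair hne])
  rw [hX, hn, hF, sum_pair hne] at hs
  have hv := h.neg
  push_cast at hs
  have gM := (h.cp mM).l_ge
  have gL := (h.cp mL).l_ge
  have k := h.nk hX hF hne (p := 2)
    (fun x hx y hy hxy e1 e2 => h.ab2 mM (by linarith) hx hy hxy e1 e2)
    (fun z hz => by have := hr z hz; omega)
  have l := h.nk hX hFD hne.symm (p := 2)
    (fun x hx y hy hxy e1 e2 => h.ab2 mL (by linarith) hx hy hxy e1 e2)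
    (fun z hz => by have := hr z hz; omega)
  obtain ⟨a, ha⟩ := h.Xne
  obtain ⟨b, hb, hba⟩ := exists_mem_ne (by rw [hX]; norm_num : 1 < X.card) a
  obtain ⟨c, ht⟩ := thr_of hX ha hb hba.symm
  have ra := hr a ht.ma
  have rb := hr b ht.mb
  have rc := hr c ht.mc
  have k1 := k a ht.ma b ht.mb ht.ab
  have k2 := k a ht.ma c ht.mc ht.ac
  have k3 := k b ht.mb c ht.mc ht.bc
  have k4 := l a ht.ma b ht.mb ht.ab
  have k5 := l a ht.ma c ht.mc ht.ac
  have k6 := l b ht.mb c ht.mc ht.bc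
  omega

/-! ### four points -/

theorem VCR.x4 (h : VCR B Q X F i0) (hX : X.card = 4) : ∃ x a b c, Four X x a b c ∧ x ∉ B i0 ∧
    a ∈ B i0 ∧ b ∈ B i0 ∧ c ∈ B i0 := by
  classical
  have h1 : (X \ (B i0 ∩ Q)).card = 1 := by
    have := card_sdiff_add_card_eq_card h.inc
    have := h.c3
    omega
  obtain ⟨x, hx⟩ := card_eq_one.1 h1
  obtain ⟨a, b, c, hab, hac, hbc, habc⟩ := card_eq_three.1 h.c3
  have hxm : x ∈ X \ (B i0 ∩ Q) := by rw [hx]; simp
  rw [mem_sdiff] at hxm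
  have hT : ∀ z ∈ ({a, b, c} : Finset V), z ∈ X ∧ z ∈ B i0 ∧ z ≠ x := by
    intro z hz
    rw [← habc] at hz
    exact ⟨h.inc hz, (mem_inter.1 hz).1, fun h => hxm.2 (h ▸ hz)⟩
  have ha := hT a (by simp)
  have hb := hT b (by simp)
  have hc := hT c (by simp)
  refine ⟨x, a, b, c, ⟨hxm.1, ha.1, hb.1, hc.1, ha.2.2.symm, hb.2.2.symm, hc.2.2.symm, hab, hac,
    hbc, fun z hz => ?_⟩, ?_, ha.2.1, hb.2.1, hc.2.1⟩
  · by_cases h2 : z ∈ B i0 ∩ Q
    · rw [habc, mem_insert, mem_insert, mem_singleton] at h2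
      exact Or.inr h2
    · have h3 : z ∈ X \ (B i0 ∩ Q) := mem_sdiff.2 ⟨hz, h2⟩
      rw [hx, mem_singleton] at h3
      exact Or.inl h3
  · intro hxB
    exact hxm.2 (mem_inter.2 ⟨hxB, h.clo.sub hxm.1⟩)

theorem VCR.ab3 (h : VCR B Q X F i0) (hX : X.card = 4) {L : Finset V} (hL : L ∈ F)
    (hd : lv B Q L ≤ -1) {u v w : V} (hu : u ∈ X) (hv : v ∈ X) (hw : w ∈ X) (huv : u ≠ v)
    (huw : u ≠ w) (hvw : v ≠ w) (eu : 3 ≤ (Ez B L u).card) (ev : 3 ≤ (Ez B L v).card)
    (ew : 3 ≤ (Ez B L w).card) (hex : 4 ≤ (Ez B L u).card ∨ L.card ≠ 3) : Abz B L {u, v, w} :=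
  (h.cp hL).pt3 hd (h.clo.sub hu) (h.clo.notMem hL hu) (h.clo.sub hv) (h.clo.notMem hL hv)
    (h.clo.sub hw) (h.clo.notMem hL hw) huv huw hvw (by have := h.sizeL hL; omega) eu ev ew hex

/-- four points, two components: not three points with three hits on `M`. -/
theorem VCR.heavy (h : VCR B Q X F i0) (hX : X.card = 4) (hn : (ins B Q X).card = 1)
    {M L : Finset V} (hF : F = {M, L}) (hne : M ≠ L) (hdM : lv B Q M ≤ -1)
    (hdL : lv B Q L ≤ -1) {u v w t : V} (h4 : Four X u v w t) (eu : (Ez B L u).card ≤ 1)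
    (ev : (Ez B L v).card ≤ 1) (ew : (Ez B L w).card ≤ 1) : False := by
  classical
  have mM : M ∈ F := by rw [hF]; simp
  have mL : L ∈ F := by rw [hF]; simp
  have hins : ins B Q X = {i0} := ins_eq_singleton hn h.inc (card_pos.1 (by rw [h.c3]; norm_num))
  obtain ⟨x, a, b, c, h5, hxB, haB, hbB, hcB⟩ := h.x4 hX
  have hr4 : ∀ z ∈ X, 4 ≤ (Ez B M z).card + (Ez B L z).card := by
    intro z hz
    have h1 := h.clo.row_ge h.reg hn hz
    rw [hF, sum_pair hne] at h1
    exact h1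
  have hrx : (Ez B M x).card + (Ez B L x).card = 5 := by
    have h1 := h.clo.row1' h.reg hins h5.ma hxB
    rw [hF, sum_pair hne] at h1
    exact h1
  -- a triple containing `x` is absorbed by `M`
  have htri : ∀ u v w t : V, Four X u v w t → (Ez B L u).card ≤ 1 → (Ez B L v).card ≤ 1 →
      (Ez B L w).card ≤ 1 → 1 ≤ (Ez B L t).card →
      (4 ≤ (Ez B M u).card ∨ M.card ≠ 3) → False := by
    intro u v w t h4 eu ev ew et hex
    have ru := hr4 u h4.ma
    have rv := hr4 v h4.mb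
    have rw' := hr4 w h4.mc
    refine h.a2 hF hne (h.ab3 hX mM hdM h4.ma h4.mb h4.mc h4.ab h4.ac h4.bc (by omega) (by omega)
      (by omega) hex) (h.ab1 mL et) fun z hz => ?_
    rcases h4.cov z hz with rfl | rfl | rfl | rfl <;> simp
  by_cases et : (Ez B L t).card ≤ 1
  · -- all points have at most one hit on `L`
    have hall : ∀ z ∈ X, (Ez B L z).card ≤ 1 := by
      intro z hz
      rcases h4.cov z hz with rfl | rfl | rfl | rfl
      · exact eu
      · exact ev
      · exact ew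
      · exact et
    obtain ⟨z, hz, hzx, hE⟩ := h.two_att mL x
    have ex := hall x h5.ma
    have hfin : ∀ y p q, Four X x y p q → 1 ≤ (Ez B L y).card → False := by
      intro y p q h6 hy
      exact htri x p q y ⟨h6.ma, h6.mc, h6.md, h6.mb, h6.ac, h6.ad, h6.ab, h6.cd, h6.bc.symm,
        h6.bd.symm, fun z hz => by have := h6.cov z hz; tauto⟩ ex (hall p h6.mc) (hall q h6.md)
        hy (Or.inl (by omega))
    rcases h5.cov z hz with rfl | rfl | rfl | rfl
    · exact hzx rfl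
    · exact hfin _ _ _ h5 hE
    · exact hfin z c a ⟨h5.ma, h5.mc, h5.md, h5.mb, h5.ac, h5.ad, h5.ab, h5.cd, h5.bc.symm,
        h5.bd.symm, fun z hz => by have := h5.cov z hz; tauto⟩ hE
    · exact hfin z a b ⟨h5.ma, h5.md, h5.mb, h5.mc, h5.ad, h5.ab, h5.ac, h5.bd.symm, h5.cd.symm,
        h5.bc, fun z hz => by have := h5.cov z hz; tauto⟩ hE
  · -- the point `t` has two hits on `L`
    push Not at et
    have hux : u ≠ x := by
      rintro rfl
      exact htri u v w t h4 eu ev ew (by omega) (Or.inl (by omega))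
    have hvx : v ≠ x := by
      rintro rfl
      exact htri v w u t ⟨h4.mb, h4.mc, h4.ma, h4.md, h4.bc, h4.ab.symm, h4.bd, h4.ac.symm,
        h4.cd, h4.ad, fun z hz => by have := h4.cov z hz; tauto⟩ ev ew eu (by omega)
        (Or.inl (by omega))
    have hwx : w ≠ x := by
      rintro rfl
      exact htri w u v t ⟨h4.mc, h4.ma, h4.mb, h4.md, h4.ac.symm, h4.bc.symm, h4.cd, h4.ab,
        h4.ad, h4.bd, fun z hz => by have := h4.cov z hz; tauto⟩ ew eu ev (by omega)
        (Or.inl (by omega))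
    have hB : ∀ z ∈ X, z ≠ x → z ∈ B i0 := by
      intro z hz hzx
      rcases h5.cov z hz with rfl | rfl | rfl | rfl
      · exact absurd rfl hzx
      · exact haB
      · exact hbB
      · exact hcB
    have hr : ∀ z ∈ X, z ≠ x → (Ez B M z).card + (Ez B L z).card = 4 := by
      intro z hz hzx
      have h1 := h.clo.row1 h.reg hins hz (hB z hz hzx)
      rw [hF, sum_pair hne] at h1
      exact h1
    have ru := hr u h4.ma hux
    have rv := hr v h4.mb hvx
    have rw' := hr w h4.mc hwx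
    have lu : (Ez B L u).card = 1 := by
      by_contra hcon
      exact htri u v w t h4 eu ev ew (by omega) (Or.inl (by omega))
    have lv : (Ez B L v).card = 1 := by
      by_contra hcon
      exact htri v w u t ⟨h4.mb, h4.mc, h4.ma, h4.md, h4.bc, h4.ab.symm, h4.bd, h4.ac.symm,
        h4.cd, h4.ad, fun z hz => by have := h4.cov z hz; tauto⟩ ev ew eu (by omega)
        (Or.inl (by omega))
    have lw : (Ez B L w).card = 1 := by
      by_contra hcon
      exact htri w u v t ⟨h4.mc, h4.ma, h4.mb, h4.md, h4.ac.symm, h4.bc.symm, h4.cd, h4.ab,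
        h4.ad, h4.bd, fun z hz => by have := h4.cov z hz; tauto⟩ ew eu ev (by omega)
        (Or.inl (by omega))
    have heq : ∀ u v w : V, Four X u v w t → (Ez B L u).card = 1 → (Ez B L v).card = 1 →
        2 ≤ (Ez B M u).card → 2 ≤ (Ez B M v).card → 2 ≤ (Ez B M w).card →
        Ez B L u = Ez B L v := by
      intro u v w h4 eu ev mu mv mw
      by_contra hcon
      obtain ⟨i, hi⟩ := card_eq_one.1 eu
      obtain ⟨j, hj⟩ := card_eq_one.1 ev
      have hij : i ≠ j := by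
        rintro rfl
        exact hcon (hi.trans hj.symm)
      have h2 : 2 ≤ (Ez B L u ∪ Ez B L v).card := by
        rw [hi, hj, singleton_union, card_pair hij]
      rcases (h.cp mL).mrg22 (by linarith) (h.clo.sub h4.md) (h.clo.notMem mL h4.md)
        (h.clo.sub h4.ma) (h.clo.notMem mL h4.ma) (h.clo.sub h4.mb) (h.clo.notMem mL h4.mb)
        h4.ad.symm h4.bd.symm (by omega) (by convert h2 using 2) with h1 | h1
      · refine h.a2 hF hne (h.ab2 mM (by linarith) h4.mb h4.mc h4.bc mv mw) h1 fun z hz => ?_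
        rcases h4.cov z hz with rfl | rfl | rfl | rfl <;> simp
      · refine h.a2 hF hne (h.ab2 mM (by linarith) h4.ma h4.mc h4.ac mu mw) h1 fun z hz => ?_
        rcases h4.cov z hz with rfl | rfl | rfl | rfl <;> simp
    have e1 := heq u v w h4 lu lv (by omega) (by omega) (by omega)
    have e2 := heq u w v ⟨h4.ma, h4.mc, h4.mb, h4.md, h4.ac, h4.ab, h4.ad, h4.bc.symm, h4.cd,
      h4.bd, fun z hz => by have := h4.cov z hz; tauto⟩ lu lw (by omega) (by omega) (by omega)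
    obtain ⟨i, hi⟩ := card_eq_one.1 lu
    have iu : i ∈ Ez B L u := by rw [hi]; simp
    have iv : i ∈ Ez B L v := by rw [← e1, hi]; simp
    have iw : i ∈ Ez B L w := by rw [← e2, hi]; simp
    rw [mem_Ez] at iu iv iw
    obtain ⟨y, hy⟩ := iu.2
    rw [mem_inter] at hy
    have h6 : ({u, v, w, y} : Finset V) ⊆ B i ∩ Q := by
      intro z hz
      simp only [mem_insert, mem_singleton] at hz
      rw [mem_inter]
      rcases hz with rfl | rfl | rfl | rfl
      · exact ⟨iu.1, h.clo.sub h4.ma⟩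
      · exact ⟨iv.1, h.clo.sub h4.mb⟩
      · exact ⟨iw.1, h.clo.sub h4.mc⟩
      · exact ⟨hy.1, h.clo.subC mL hy.2⟩
    have h7 : ({u, v, w, y} : Finset V).card = 4 := by
      have n1 : u ≠ y := fun he => h.clo.notMem mL h4.ma (he ▸ hy.2)
      have n2 : v ≠ y := fun he => h.clo.notMem mL h4.mb (he ▸ hy.2)
      have n3 : w ≠ y := fun he => h.clo.notMem mL h4.mc (he ▸ hy.2)
      rw [card_insert_of_notMem (by simp [h4.ab, h4.ac, n1]),
        card_insert_of_notMem (by simp [h4.bc, n2]), card_pair n3]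
    have h8 := card_le_card h6
    have h9 := h.tr i
    omega

/-- four points: not two components. -/
theorem VCR.not42 (h : VCR B Q X F i0) (hX : X.card = 4) (hn : (ins B Q X).card = 1)
    {M L : Finset V} (hF : F = {M, L}) (hne : M ≠ L) : False := by
  have mM : M ∈ F := by rw [hF]; simp
  have mL : L ∈ F := by rw [hF]; simp
  have hFD : F = {L, M} := by rw [hF, pair_comm]
  have hs := h.sum_lv (by rw [hF, card_pair hne])
  rw [hX, hn, hF, sum_pair hne] at hs
  have hv := h.neg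
  push_cast at hs
  have gM := (h.cp mM).l_ge
  have gL := (h.cp mL).l_ge
  have dM : lv B Q M ≤ -1 := by linarith
  have dL : lv B Q L ≤ -1 := by linarith
  obtain ⟨x, a, b, c, h5, -⟩ := h.x4 hX
  have hr4 : ∀ z ∈ X, 4 ≤ (Ez B M z).card + (Ez B L z).card := by
    intro z hz
    have h1 := h.clo.row_ge h.reg hn hz
    rw [hF, sum_pair hne] at h1
    exact h1
  have hsplit : ∀ u v w t : V, Four X u v w t → ¬ (2 ≤ (Ez B M u).card ∧ 2 ≤ (Ez B M v).card ∧
      2 ≤ (Ez B L w).card ∧ 2 ≤ (Ez B L t).card) := by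
    rintro u v w t h4 ⟨e1, e2, e3, e4⟩
    refine h.a2 hF hne (h.ab2 mM (by linarith) h4.ma h4.mb h4.ab e1 e2)
      (h.ab2 mL (by linarith) h4.mc h4.md h4.cd e3 e4) fun z hz => ?_
    rcases h4.cov z hz with rfl | rfl | rfl | rfl <;> simp
  have f1 := h5
  have f2 : Four X x b a c := ⟨h5.ma, h5.mc, h5.mb, h5.md, h5.ac, h5.ab, h5.ad, h5.bc.symm,
    h5.cd, h5.bd, fun z hz => by have := h5.cov z hz; tauto⟩
  have f3 : Four X x c a b := ⟨h5.ma, h5.md, h5.mb, h5.mc, h5.ad, h5.ab, h5.ac, h5.bd.symm,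
    h5.cd.symm, h5.bc, fun z hz => by have := h5.cov z hz; tauto⟩
  have g1 : Four X a b x c := ⟨h5.mb, h5.mc, h5.ma, h5.md, h5.bc, h5.ab.symm, h5.bd, h5.ac.symm,
    h5.cd, h5.ad, fun z hz => by have := h5.cov z hz; tauto⟩
  have g2 : Four X a c x b := ⟨h5.mb, h5.md, h5.ma, h5.mc, h5.bd, h5.ab.symm, h5.bc,
    h5.ad.symm, h5.cd.symm, h5.ac, fun z hz => by have := h5.cov z hz; tauto⟩
  have g3 : Four X b c x a := ⟨h5.mc, h5.md, h5.ma, h5.mb, h5.cd, h5.ac.symm, h5.bc.symm,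
    h5.ad.symm, h5.bd.symm, h5.ab, fun z hz => by have := h5.cov z hz; tauto⟩
  have f4 : Four X x b c a := ⟨h5.ma, h5.mc, h5.md, h5.mb, h5.ac, h5.ad, h5.ab, h5.cd,
    h5.bc.symm, h5.bd.symm, fun z hz => by have := h5.cov z hz; tauto⟩
  have hv1 : ∀ u v w t : V, Four X u v w t → 2 ≤ (Ez B L u).card ∨ 2 ≤ (Ez B L v).card ∨
      2 ≤ (Ez B L w).card := by
    intro u v w t h4
    by_contra hcon
    push Not at hcon
    exact h.heavy hX hn hF hne dM dL h4 (by omega) (by omega) (by omega)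
  have hv2 : ∀ u v w t : V, Four X u v w t → 2 ≤ (Ez B M u).card ∨ 2 ≤ (Ez B M v).card ∨
      2 ≤ (Ez B M w).card := by
    intro u v w t h4
    by_contra hcon
    push Not at hcon
    exact h.heavy hX hn hFD hne.symm dL dM h4 (by omega) (by omega) (by omega)
  have hor : ∀ z ∈ X, 2 ≤ (Ez B M z).card ∨ 2 ≤ (Ez B L z).card := by
    intro z hz
    have := hr4 z hz
    omega
  exact bool42 (hor x h5.ma) (hor a h5.mb) (hor b h5.mc) (hor c h5.md) (hsplit _ _ _ _ f1)
    (hsplit _ _ _ _ f2) (hsplit _ _ _ _ f3) (hsplit _ _ _ _ g1) (hsplit _ _ _ _ g2)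
    (hsplit _ _ _ _ g3) (hv1 _ _ _ _ f1) (hv1 _ _ _ _ f3) (hv1 _ _ _ _ f4)
    (hv1 _ _ _ _ f1.rot) (hv2 _ _ _ _ f1) (hv2 _ _ _ _ f3) (hv2 _ _ _ _ f4)
    (hv2 _ _ _ _ f1.rot)

theorem VCR.sup (h : VCR B Q X F i0) {L : Finset V} (hL : L ∈ F) {a b c d : V}
    (h4 : Four X a b c d) :
    1 ≤ (Ez B L b).card + (Ez B L c).card + (Ez B L d).card := by
  obtain ⟨x, hx, hxa, hE⟩ := h.two_att hL a
  rcases h4.cov x hx with rfl | rfl | rfl | rfl
  · exact absurd rfl hxa
  · omega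
  · omega
  · omega

theorem VCR.sup2 (h : VCR B Q X F i0) {L M : Finset V} (hL : L ∈ F) (hM : M ∈ F) (hLM : L ≠ M)
    {a b c d : V} (h4 : Four X a b c d) :
    1 ≤ (Ez B L c).card + (Ez B L d).card + (Ez B M c).card + (Ez B M d).card := by
  obtain ⟨x, hx, hxa, hxb, hE⟩ := h.pair_att hL hM hLM a b
  rcases h4.cov x hx with rfl | rfl | rfl | rfl
  · exact absurd rfl hxa
  · exact absurd rfl hxb
  · omega
  · omega

/-- four points: not three components. -/
theorem VCR.not43 (h : VCR B Q X F i0) (hX : X.card = 4) (hn : (ins B Q X).card = 1)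
    (h3 : F.card = 3) : False := by
  classical
  have hs := h.sum_lv (by omega)
  rw [hX, hn] at hs
  have hv := h.neg
  push_cast at hs
  have hd : ∀ L ∈ F, lv B Q L ≤ 0 := by
    intro L hL
    have h12 := add_sum_erase F (fun L => lv B Q L) hL
    have h13 : ∑ D ∈ F.erase L, (-1 : ℤ) ≤ ∑ D ∈ F.erase L, lv B Q D :=
      sum_le_sum fun D hD => (h.cp (mem_of_mem_erase hD)).l_ge
    rw [sum_const, nsmul_eq_mul, card_erase_of_mem hL, h3] at h13
    push_cast at h13
    linarith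
  have hrow : ∀ z ∈ X, 4 ≤ ∑ L ∈ F, (Ez B L z).card := fun z hz =>
    h.clo.row_ge h.reg hn hz
  have hbig : ∀ z ∈ X, ∃ C ∈ F, 2 ≤ (Ez B C z).card := by
    intro z hz
    by_contra hcon
    push Not at hcon
    have h1 := hrow z hz
    have h2 : ∑ C ∈ F, (Ez B C z).card ≤ ∑ C ∈ F, 1 :=
      sum_le_sum fun C hC => by have := hcon C hC; omega
    rw [sum_const, smul_eq_mul, mul_one] at h2
    omega
  choose! g hg1 hg2 using hbig
  obtain ⟨z1, hz1, z2, hz2, h12, hg⟩ := exists_ne_map_eq_of_card_lt_of_maps_to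
    (s := X) (t := F) (by rw [hX, h3]; norm_num) hg1
  obtain ⟨z3, z4, h4⟩ := four_of hX hz1 hz2 h12
  obtain ⟨I, hI⟩ : ∃ I, I = g z1 := ⟨_, rfl⟩
  have hIF : I ∈ F := by rw [hI]; exact hg1 z1 hz1
  have h1 : (F.erase I).card = 2 := by rw [card_erase_of_mem hIF, h3]
  obtain ⟨J, K, hJK, h2⟩ := card_eq_two.1 h1
  have hJ : J ∈ F.erase I := by rw [h2]; simp
  have hK : K ∈ F.erase I := by rw [h2]; simp
  rw [mem_erase] at hJ hK
  have hF : F = {I, J, K} := by rw [← insert_erase hIF, h2]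
  have hIJ : I ≠ J := hJ.1.symm
  have hIK : I ≠ K := hK.1.symm
  have e1 : 2 ≤ (Ez B I z1).card := by rw [hI]; exact hg2 z1 hz1
  have e2 : 2 ≤ (Ez B I z2).card := by rw [hI, hg]; exact hg2 z2 hz2
  have hrow' : ∀ z ∈ X, 4 ≤ (Ez B I z).card + (Ez B J z).card + (Ez B K z).card := by
    intro z hz
    have h5 := hrow z hz
    rw [hF, sum_insert (by simp [hIJ, hIK]), sum_pair hJK] at h5
    omega
  have q1 := h.sup hJ.2 h4
  have q3 := h.sup hK.2 h4
  have q4 := h.sup hK.2 h4.rot.rot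
  have q5 := h.sup hK.2 h4.rot.rot.rot
  have q6 := h.sup2 hJ.2 hK.2 hJK h4
  have r3 := hrow' z3 h4.mc
  have r4 := hrow' z4 h4.md
  have dI := hd I hIF
  have dJ := hd J hJ.2
  have dK := hd K hK.2
  rcases col3' (Ez B I z3).card (Ez B I z4).card (Ez B J z1).card (Ez B J z2).card
    (Ez B J z3).card (Ez B J z4).card (Ez B K z1).card (Ez B K z2).card (Ez B K z3).card
    (Ez B K z4).card r3 r4 q1 q3 (by omega) (by omega) q6 with
    t | t | t | t | t | t | t | t | t | t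
  · refine h.a3 hF hIJ hIK hJK (h.ab2 hIF dI h4.ma h4.mb h4.ab e1 e2) (h.ab1 hJ.2 t.1)
      (h.ab1 hK.2 t.2) fun z hz => ?_
    rcases h4.cov z hz with rfl | rfl | rfl | rfl <;> simp
  · refine h.a3 hF hIJ hIK hJK (h.ab2 hIF dI h4.ma h4.mb h4.ab e1 e2) (h.ab1 hJ.2 t.1)
      (h.ab1 hK.2 t.2) fun z hz => ?_
    rcases h4.cov z hz with rfl | rfl | rfl | rfl <;> simp
  · refine h.a3 hF hIJ hIK hJK (h.ab2 hIF dI h4.ma h4.mc h4.ac e1 t.1)
      (h.ab1 hJ.2 t.2.1) (h.ab1 hK.2 t.2.2) fun z hz => ?_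
    rcases h4.cov z hz with rfl | rfl | rfl | rfl <;> simp
  · refine h.a3 hF hIJ hIK hJK (h.ab2 hIF dI h4.ma h4.mc h4.ac e1 t.1)
      (h.ab1 hJ.2 t.2.1) (h.ab1 hK.2 t.2.2) fun z hz => ?_
    rcases h4.cov z hz with rfl | rfl | rfl | rfl <;> simp
  · refine h.a3 hF hIJ hIK hJK (h.ab2 hIF dI h4.mb h4.mc h4.bc e2 t.1)
      (h.ab1 hJ.2 t.2.1) (h.ab1 hK.2 t.2.2) fun z hz => ?_
    rcases h4.cov z hz with rfl | rfl | rfl | rfl <;> simp
  · refine h.a3 hF hIJ hIK hJK (h.ab2 hIF dI h4.ma h4.md h4.ad e1 t.1)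
      (h.ab1 hJ.2 t.2.1) (h.ab1 hK.2 t.2.2) fun z hz => ?_
    rcases h4.cov z hz with rfl | rfl | rfl | rfl <;> simp
  · refine h.a3 hF hIJ hIK hJK (h.ab2 hIF dI h4.ma h4.md h4.ad e1 t.1)
      (h.ab1 hJ.2 t.2.1) (h.ab1 hK.2 t.2.2) fun z hz => ?_
    rcases h4.cov z hz with rfl | rfl | rfl | rfl <;> simp
  · refine h.a3 hF hIJ hIK hJK (h.ab2 hIF dI h4.mb h4.md h4.bd e2 t.1)
      (h.ab1 hJ.2 t.2.1) (h.ab1 hK.2 t.2.2) fun z hz => ?_
    rcases h4.cov z hz with rfl | rfl | rfl | rfl <;> simp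
  · refine h.a3 hF hIJ hIK hJK (h.ab2 hIF dI h4.ma h4.mb h4.ab e1 e2)
      (h.ab2 hJ.2 dJ h4.mc h4.md h4.cd t.1 t.2) (h.ab0 hK.2) fun z hz => ?_
    rcases h4.cov z hz with rfl | rfl | rfl | rfl <;> simp
  · refine h.a3 hF hIJ hIK hJK (h.ab2 hIF dI h4.ma h4.mb h4.ab e1 e2) (h.ab0 hJ.2)
      (h.ab2 hK.2 dK h4.mc h4.md h4.cd t.1 t.2) fun z hz => ?_
    rcases h4.cov z hz with rfl | rfl | rfl | rfl <;> simp

/-! ### Lemma A -/

/-- **Lemma A** for value at least one: one component only, at most one more point. -/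
theorem VCR.one (h : VCR B Q X F i0) : F = {Q \ X} ∧ (ins B Q X).card ≤ 2 ∧
    ((X = B i0 ∩ Q) ∨ (X.card = 4 ∧ (ins B Q X).card = 1 ∧ sv B Q = 1 ∧ dv B Q Q = -1 ∧
      sv B (Q \ X) = -1 ∧ dv B Q (Q \ X) = -1)) := by
  have h1 := h.lt
  have h2 := card_pos.2 h.F_ne
  have h3 := h.neg
  have h0 : ∀ C, F = {C} → F = {Q \ X} := by
    intro C hC
    have h4 := h.clo.un
    rw [hC, singleton_biUnion, id] at h4
    rw [hC, h4]
  rcases h.shape with ⟨hX, hn⟩ | ⟨hX, hn⟩ | ⟨hX, hn⟩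
  · have hXe : B i0 ∩ Q = X := eq_of_subset_of_card_le h.inc (by rw [h.c3, hX])
    rcases (by omega : F.card = 1 ∨ F.card = 2) with hF | hF
    · obtain ⟨C, hC⟩ := card_eq_one.1 hF
      exact ⟨h0 C hC, by omega, Or.inl hXe.symm⟩
    · obtain ⟨M, L, hne, hF⟩ := card_eq_two.1 hF
      exact (h.not31 hX hn hF hne).elim
  · have hXe : B i0 ∩ Q = X := eq_of_subset_of_card_le h.inc (by rw [h.c3, hX])
    rcases (by omega : F.card = 1 ∨ F.card = 2) with hF | hF
    · obtain ⟨C, hC⟩ := card_eq_one.1 hF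
      exact ⟨h0 C hC, by omega, Or.inl hXe.symm⟩
    · obtain ⟨M, L, hne, hF⟩ := card_eq_two.1 hF
      exact (h.not32 hX hn hF hne).elim
  · rcases (by omega : F.card = 1 ∨ F.card = 2 ∨ F.card = 3) with hF | hF | hF
    · obtain ⟨C, hC⟩ := card_eq_one.1 hF
      have hFQ := h0 C hC
      have hm : Q \ X ∈ F := by rw [hFQ]; simp
      have h4 := h.sum_dv
      rw [hFQ, sum_singleton, h.ee0, hX, hn] at h4
      have h5 := h.sum_sv
      rw [hFQ, sum_singleton, hX] at h5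
      have h6 := (h.cp hm).l_ge
      push_cast at h4 h5
      have h7 : sv B (Q \ X) ≤ -1 := by
        by_contra hcon
        rw [lv_pos (by omega)] at h6
        linarith
      have h8 := h.sv_ge hm
      rw [lv_neg h7] at h6
      exact ⟨hFQ, by omega, Or.inr ⟨hX, hn, by linarith, by linarith, by linarith, by linarith⟩⟩
    · obtain ⟨M, L, hne, hF⟩ := card_eq_two.1 hF
      exact (h.not42 hX hn hF hne).elim
    · exact (h.not43 hX hn hF).elim

/-- the rest of a full block has the cover number lowered by one. -/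
theorem ViolR.rhoT (h : ViolR B Q) {i : ι} (hi : (B i ∩ Q).card = 3) :
    rho B (Q \ (B i ∩ Q)) + 1 = rho B Q :=
  h.crit.sdiff h.cov (i := i) inter_subset_left inter_subset_right (card_pos.1 (by omega))

/-- **no separation**: a set containing a full block which lowers the cover number by one only has a
connected rest, and it has at most one more point. -/
theorem ViolR.sep1 (h : ViolR B Q) {i : ι} (hi : (B i ∩ Q).card = 3) {P : Finset V}
    (hPQ : P ⊆ Q) (hiP : B i ∩ Q ⊆ P) (hP1 : rho B (Q \ P) + 1 = rho B Q) :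
    Conn (gr B) (Q \ P) ∧ P.card ≤ 4 := by
  classical
  obtain ⟨X, F, hPX, hv⟩ := h.exists_VCR hi hPQ hiP hP1
  obtain ⟨hF, hn, ho⟩ := hv.one
  have hm : Q \ X ∈ F := by rw [hF]; simp
  have hcn := (hv.clo.parts _ hm).2.2
  have hXc : X.card ≤ 4 := by
    rcases ho with h1 | h1
    · rw [h1, hi]
      norm_num
    · exact h1.1.le
  refine ⟨?_, (card_le_card hPX).trans hXc⟩
  by_cases hPe : P = X
  · rw [hPe]
    exact hcn
  · -- the tight case with `P` the trace of the full block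
    have h1 : P.card < X.card := card_lt_card (lt_of_le_of_ne hPX hPe)
    have h2 := card_le_card hiP
    rw [hi] at h2
    have hX4 : X.card = 4 := by omega
    have hPT : P.card = 3 := by omega
    obtain ⟨u, hu⟩ : ∃ u, X \ P = {u} := by
      rw [← card_eq_one]
      have := card_sdiff_add_card_eq_card hPX
      omega
    have huX : u ∈ X ∧ u ∉ P := by
      have : u ∈ X \ P := by rw [hu]; simp
      exact mem_sdiff.1 this
    have h3 : Q \ P = insert u (Q \ X) := by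
      ext v
      rw [mem_sdiff, mem_insert, mem_sdiff]
      constructor
      · rintro ⟨ha, hb⟩
        by_cases hv : v ∈ X
        · left
          have : v ∈ X \ P := mem_sdiff.2 ⟨hv, hb⟩
          rw [hu, mem_singleton] at this
          exact this
        · exact Or.inr ⟨ha, hv⟩
      · rintro (rfl | ⟨ha, hb⟩)
        · exact ⟨hv.clo.sub huX.1, huX.2⟩
        · exact ⟨ha, fun hc => hb (hPX hc)⟩
    rw [h3]
    refine hcn.insert ?_
    have h4 := hv.clo.row h.reg huX.1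
    rw [hF, sum_singleton] at h4
    have h5 := card_filter_le (ins B Q X) (fun i => u ∈ B i)
    obtain ⟨j, hj⟩ := card_pos.1 (by omega : 0 < (Ez B (Q \ X) u).card)
    rw [mem_Ez] at hj
    obtain ⟨hj1, w, hw⟩ := hj
    rw [mem_inter] at hw
    refine ⟨w, hw.2, ?_, j, hj1, hw.1⟩
    rintro rfl
    exact (mem_sdiff.1 hw.2).2 huX.1

/-- **Lemma A** for a minimal counterexample with value at least one. -/
theorem ViolR.lemA (h : ViolR B Q) {i : ι} (hi : (B i ∩ Q).card = 3) :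
    Conn (gr B) (Q \ (B i ∩ Q)) ∧ rho B (Q \ (B i ∩ Q)) + 1 = rho B Q ∧
    ¬ Abz B (Q \ (B i ∩ Q)) (B i ∩ Q) ∧ sv B (Q \ (B i ∩ Q)) = sv B Q - 1 ∧
    (ins B Q (B i ∩ Q)).card ≤ 2 ∧
    (Crit B (Q \ (B i ∩ Q)) ∨ ∃ u ∈ Q, u ∉ B i ∧ sv B Q = 1 ∧ dv B Q Q = -1 ∧
      (ins B Q (insert u (B i ∩ Q))).card = 1 ∧
      rho B (Q \ insert u (B i ∩ Q)) + 1 = rho B Q ∧
      Conn (gr B) (Q \ insert u (B i ∩ Q)) ∧ Crit B (Q \ insert u (B i ∩ Q)) ∧
      sv B (Q \ insert u (B i ∩ Q)) = -1 ∧ dv B Q (Q \ insert u (B i ∩ Q)) = -1) := by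
  classical
  have hrho := h.rhoT hi
  have hiQ : B i ∩ Q ⊆ Q := inter_subset_right
  obtain ⟨X, F, hPX, hv⟩ := h.exists_VCR hi hiQ (Subset.refl _) hrho
  obtain ⟨hF, hn, ho⟩ := hv.one
  have hm : Q \ X ∈ F := by rw [hF]; simp
  refine ⟨(h.sep1 hi hiQ (Subset.refl _) hrho).1, hrho, ?_, ?_, ?_, ?_⟩
  · rintro ⟨T, hT1, hT2⟩
    have h1 : Q ⊆ T.biUnion B := by
      intro v hv
      by_cases h2 : v ∈ B i ∩ Q
      · exact hT1 (mem_union_right _ h2)
      · exact hT1 (mem_union_left _ (mem_sdiff.2 ⟨hv, h2⟩))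
    have h2 := Hyp6.rho_le h1
    omega
  · have h5 := card_sdiff_add_card_eq_card hiQ
    unfold sv
    have h6 : ((Q \ (B i ∩ Q)).card : ℤ) + 3 = Q.card := by
      rw [hi] at h5
      exact_mod_cast h5
    have h7 : (rho B (Q \ (B i ∩ Q)) : ℤ) + 1 = rho B Q := by exact_mod_cast hrho
    linarith
  · refine (card_le_card ?_).trans hn
    intro k hk
    rw [mem_ins] at hk ⊢
    exact ⟨hk.1, hk.2.trans hPX⟩
  · rcases ho with h1 | ⟨hX, hn1, hs, hd, hs1, hd1⟩
    · left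
      rw [← h1]
      exact hv.clo.crit _ hm
    · right
      obtain ⟨u, hu⟩ : ∃ u, X \ (B i ∩ Q) = {u} := by
        rw [← card_eq_one]
        have := card_sdiff_add_card_eq_card hPX
        omega
      have huX : u ∈ X ∧ u ∉ B i ∩ Q := by
        have : u ∈ X \ (B i ∩ Q) := by rw [hu]; simp
        exact mem_sdiff.1 this
      have huQ := hv.clo.sub huX.1
      have hXe : insert u (B i ∩ Q) = X := by
        rw [← singleton_union, ← hu, sdiff_union_of_subset hPX]
      refine ⟨u, huQ, fun hc => huX.2 (mem_inter.2 ⟨hc, huQ⟩), hs, hd, ?_⟩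
      rw [hXe]
      exact ⟨hn1, hv.clo.rhoX, (hv.clo.parts _ hm).2.2, hv.clo.crit _ hm, hs1, hd1⟩

end Pool.Agent.Hyp6
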