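import Pool.Agent.Hyp6.L3S3
import Pool.Agent.Hyp6.L3RB
import Pool.Agent.Hyp6.L3Rt

/-!
# HYP6 L3S4: the separation lemmas for a minimal counterexample with value at least one

`ViolR.clo`: the hypothesis on sets containing a full block. `ViolR.frm_two`: a frame has a leaf and
at least two triples. The separation lemmas of `L3Pv`, `L3S1`, `L3S2`, `L3S3` for `ViolR`.
-/

set_option autoImplicit false

namespace Pool.Agent.Hyp6

open Finset Pool.Agent.Hyp5 Rt

universe u v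

variable {V : Type v} [DecidableEq V] {ι : Type u} [Fintype ι] {B : ι → Finset V}
  {Q U : Finset V} {T : Finset ι} {F : Finset (Finset V)}

namespace ViolR

/-- sets containing a full block which lower the cover number by one only have a connected rest. -/
theorem clo (hv : ViolR B Q) {i : ι} (hi : (B i ∩ Q).card = 3) :
    ∀ Y ⊆ Q, B i ∩ Q ⊆ Y → rho B (Q \ Y) + 1 = rho B Q → Conn (gr B) (Q \ Y) :=
  fun _ hY hiY hrho => (hv.sep1 hi hY hiY hrho).1

omit [Fintype ι] in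
/-- the triples of a frame are full blocks. -/
theorem _root_.Pool.Agent.Hyp6.Frm.full (h : Frm B Q T U F) {j : ι} (hj : j ∈ T) :
    (B j ∩ Q).card = 3 := h.mtp.tpk.pack.card j hj

/-- **a frame of a minimal counterexample has a leaf and at least two triples.** -/
theorem frm_two (hv : ViolR B Q) (h : Frm B Q T U F) : F.Nonempty ∧ 2 ≤ T.card := by
  classical
  have hcF := h.card_F
  have hs := hv.sv1
  have hsur : U.Nonempty → U.card + 1 ≤ F.card := fun hU =>
    (h.ge.surplus U (Subset.refl _) hU).trans (card_le_card nbF_sub)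
  have hF : F.Nonempty := by
    by_contra hF0
    rw [not_nonempty_iff_eq_empty] at hF0
    have hU0 : U = ∅ := by
      by_contra hU
      have := hsur (nonempty_iff_ne_empty.2 hU)
      rw [hF0, card_empty] at this
      omega
    have h1 : 2 * (ee B Q Q : ℤ) ≤ Pp B Q := by
      refine h.of_total hv.reg ?_
      rw [hF0, hU0, sum_empty, sum_empty, add_zero]
      refine (sum_nonneg fun j hj => ?_).trans (le_add_of_nonneg_right (by norm_num))
      have h4 := h.twelve hv.reg hj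
      rw [hF0, hU0, sum_empty] at h4
      omega
    have h2 := Pv_eq_Pp (B := B) Q
    have h3 := hv.neg
    unfold dv at h3
    omega
  refine ⟨hF, ?_⟩
  have h4 := card_pos.2 hF
  rcases U.eq_empty_or_nonempty with hU | hU
  · rw [hU, card_empty] at hcF
    omega
  · have := hsur hU
    omega

/-- another triple. -/
theorem other (hv : ViolR B Q) (h : Frm B Q T U F) (j0 : ι) : ∃ j ∈ T, j ≠ j0 :=
  exists_mem_ne (hv.frm_two h).2 j0

/-- (I1) for sets of leaves. -/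
theorem priv (hv : ViolR B Q) (h : Frm B Q T U F) {j0 : ι} (hj0 : j0 ∈ T)
    {A : Finset (Finset V)} (hA : A ⊆ F) (hne : A.Nonempty)
    (hp : ∀ j ∈ T, j ≠ j0 → Disjoint (slj B Q F j) A) : A.card + 1 ≤ (uA B U F A).card :=
  h.priv hj0 (hv.clo (h.full hj0)) (hv.other h j0) A.card A le_rfl hA hne hp

/-- (S3) two contact points of a private set of leaves. -/
theorem sep_two (hv : ViolR B Q) (h : Frm B Q T U F) {j0 : ι} (hj0 : j0 ∈ T)
    {A : Finset (Finset V)} (hA : A ⊆ F) (hne : A.Nonempty)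
    (hp : ∀ j ∈ T, j ≠ j0 → Disjoint (slj B Q F j) A)
    (hX : (uA B U F A).card ≤ A.card + 1) {p q : V} (hpX : p ∈ uA B U F A)
    (hqX : q ∈ uA B U F A) (hpq : p ≠ q) (h1 : ∑ L ∈ A, hit B {p} L ≤ 1)
    (h2 : ∑ L ∈ A, hit B {q} L ≤ 3)
    (h12 : (univ.filter (fun i => (p ∈ B i ∧ q ∈ B i) ∧
      ¬ (B i ∩ A.biUnion id).Nonempty)).card + ∑ L ∈ A, hit B {q} L ≤ 4)
    (hL : ∀ L ∈ A, -1 ≤ dv B Q L) : A.card = 1 ∧ ∀ L ∈ A, dv B Q L ≤ 0 :=
  h.sep1_viol hv.reg hv.ih hv.sv1 hj0 (hv.clo (h.full hj0)) (hv.other h j0) hA hne hp hX hpX hqX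
    hpq h1 h2 h12 hv.neg hL

/-- private sets of leaves with crossing outer contact points. -/
theorem priv_cross (hv : ViolR B Q) (h : Frm B Q T U F) {j0 : ι} (hj0 : j0 ∈ T)
    {A : Finset (Finset V)} (hA : A ⊆ F) (hne : A.Nonempty)
    (hp : ∀ j ∈ T, j ≠ j0 → Disjoint (slj B Q F j) A) {O : Finset V}
    (hO : O.card + 1 ≤ A.card)
    (hcr : ∀ p ∈ uA B U F A \ O, 2 ≤ ∑ L ∈ F \ A, hit B {p} L)
    (h3 : 3 ≤ (F \ A).card) (hL : ∀ L ∈ A, -1 ≤ dv B Q L) :
    3 ≤ (uA B U F A \ O).card ∨ (A.card = 1 ∧ ∀ L ∈ A, dv B Q L ≤ 0) ∨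
    (∃ p q, uA B U F A \ O = {p, q} ∧ p ≠ q ∧
      ∑ L ∈ A, hit B {p} L = 3 ∧ ∑ L ∈ A, hit B {q} L = 3) :=
  h.priv_cross hv.reg hv.ih hv.sv1 hj0 (hv.clo (h.full hj0)) (hv.other h j0) hA hne hp hO hcr h3
    hv.neg hL

/-- the leaves have value at least `-1`. -/
theorem leaf_dv (hv : ViolR B Q) (h : Frm B Q T U F) {L : Finset V} (hL : L ∈ F) :
    -1 ≤ dv B Q L := by
  classical
  have hLQ := h.FQ hL
  obtain ⟨j, hj⟩ : T.Nonempty := card_pos.1 (by have := (hv.frm_two h).2; omega)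
  have hlt : L.card < Q.card := by
    refine card_lt_card ⟨hLQ, fun hQL => ?_⟩
    obtain ⟨v, hvj⟩ := card_pos.1 (show 0 < (B j ∩ Q).card by rw [h.full hj]; norm_num)
    exact (h.T_out hj hvj).2 L hL (hQL (mem_inter.1 hvj).2)
  have h2 : ∀ i, (B i ∩ L).card ≤ 2 := by
    intro i
    rcases (B i ∩ L).eq_empty_or_nonempty with h0 | ⟨v, hv'⟩
    · rw [h0, card_empty]
      exact Nat.zero_le _
    · obtain ⟨hv1, hv2⟩ := mem_inter.1 hv'
      exact (card_le_card (inter_subset_inter_left (h.FD hL))).trans (h.two_leaf hL hv1 hv2)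
  have hnK : ¬ KT B L := by
    intro hK
    have hodd := odd_of_sv_neg_one (h.sv_leaf hL)
    have := hK.1
    omega
  have hcn : Conn (gr B) L := ⟨(h.ge.sys.fc L hL).1, fun Z hZ hne => (h.ge.sys.fc L hL).conn hZ hne⟩
  have h1 := hv.ih ι B L hlt (hv.reg.mono hLQ) (hv.tr.mono hLQ) hcn hnK
  have h3 : ee B Q L ≤ ee B L L := ee_le_ee (Subset.refl _) hLQ
  have h4 : (ee B Q L : ℤ) ≤ ee B L L := by exact_mod_cast h3
  unfold dv
  linarith

/-- the separation data of a leaf. -/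
theorem pvt (hv : ViolR B Q) (h : Frm B Q T U F) {j0 : ι} (hj0 : j0 ∈ T) {L : Finset V}
    (hL : L ∈ F) (hk : (cpt B Q j0 L).card ≤ 2) : Pvt B Q j0 L (cpt B Q j0 L) :=
  h.pvt hj0 (hv.clo (h.full hj0)) hL hk (by have := (hv.frm_two h).2; omega)

/-- (I1) for a leaf and contact points of any kind. -/
theorem cpt_two_le (hv : ViolR B Q) (h : Frm B Q T U F) {j0 : ι} (hj0 : j0 ∈ T) {L : Finset V}
    (hL : L ∈ F) : 2 ≤ (cpt B Q j0 L).card :=
  h.cpt_two_le hj0 (hv.clo (h.full hj0)) (hv.frm_two h).2 hL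

/-- (S2) for a leaf and two contact points of any kind. -/
theorem cpt_two (hv : ViolR B Q) (h : Frm B Q T U F) {j0 : ι} (hj0 : j0 ∈ T) {L : Finset V}
    (hL : L ∈ F) (hX2 : (cpt B Q j0 L).card = 2) {p q : V} (hpX : p ∈ cpt B Q j0 L)
    (hqX : q ∈ cpt B Q j0 L) (hpq : p ≠ q) (h1 : hit B {p} L ≤ 1) (h2 : hit B {q} L ≤ 3)
    (h12 : (univ.filter (fun i => (p ∈ B i ∧ q ∈ B i) ∧ ¬ (B i ∩ L).Nonempty)).card +
      hit B {q} L ≤ 4) : dv B Q L ≤ 0 := by
  have h3 := h.cpt_two_ge hv.reg hv.ih hv.sv1 hj0 (hv.clo (h.full hj0)) (hv.frm_two h).2 hL hX2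
    hpX hqX hpq h1 h2 h12
  have h4 := hv.neg
  linarith

end ViolR

end Pool.Agent.Hyp6
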