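import Pool.Agent.Hyp6.Gdw
import Pool.Agent.Hyp6.Gdz
import Pool.Agent.Hyp6.L3S4

/-!
# HYP6 GDW2: the context of the tables from the labels

`Lbl.gx`: labels and a block list give the context `Gx` with exact numbers of hits and one triple.
`Frm.exists_gx31`: the context for a leaf of type (3;1).
-/

set_option autoImplicit false

namespace Pool.Agent.Hyp6

open Finset Pool.Agent.Hyp5 Gdx

universe u v

variable {V : Type v} [DecidableEq V] {ι : Type u} [Fintype ι] {B : ι → Finset V}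

/-- the instance with the block list `zm` and the exact numbers of hits `hT`, `hW`. -/
def Pgx (zn r d0 pz : ℕ) (zm hT hW : List ℕ) : Gp :=
  ⟨zm.length, 3 + hW.length, zn, r, d0, pz, zm, hT ++ hW, hT ++ hW, [7]⟩

/-- the number of hits in terms of the block list. -/
theorem Blk.hts_eq {Z : Finset V} {zn : ℕ} {zm : List ℕ} {bl : ℕ → ι} {zt : ℕ → V}
    (h : Blk B Z zn zm bl zt) (x : V) : hts B zm.length bl x = (Ez B Z x).card := by
  classical
  have h1 : Ez B Z x = ((range zm.length).filter (fun b => x ∈ B (bl b))).image bl := by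
    ext i
    simp only [mem_Ez, mem_filter, mem_image, mem_range]
    constructor
    · rintro ⟨h2, h3⟩
      obtain ⟨b, hb, rfl⟩ := h.all i h3
      exact ⟨b, ⟨hb, h2⟩, rfl⟩
    · rintro ⟨b, ⟨hb, h2⟩, rfl⟩
      exact ⟨h2, h.touch b hb⟩
  rw [h1, card_image_of_injOn]
  · rfl
  · intro a ha b hb hab
    rw [mem_coe, mem_filter, mem_range] at ha hb
    exact h.inj a ha.1 b hb.1 hab

/-- **the context from the labels and the block list**. -/
theorem Lbl.gx {Q Z : Finset V} {j : ι} {hT hW : List ℕ} {ct : ℕ → V} {zn r d0 pz : ℕ}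
    {zm : List ℕ} {bl : ℕ → ι} {zt : ℕ → V} (hl : Lbl B Q Z j hT hW ct)
    (hb : Blk B Z zn zm bl zt) (hv : ViolR B Q) (hZQ : Z ⊆ Q) (hZne : Z.Nonempty)
    (hj3 : (B j ∩ Q).card = 3) (hM : hW.length ≤ 29) (hr : rho B Z = r)
    (hd : (d0 : ℤ) ≤ dv B Q Z + 10) (hp : (pz : ℤ) = Pv B Z + 10) :
    Gdx.Gx B Q Z (Pgx zn r d0 pz zm hT hW) bl ct zt (fun _ => j) := by
  classical
  refine ⟨hv, ?_, hZQ, hZne, hb.inj, fun i => ⟨hb.all i, ?_⟩, fun z hz => (hb.mem _).2 ⟨z, hz, rfl⟩,
    hb.injz, fun v hv' => (hb.mem v).1 hv', fun b hb' z hz => (hb.tr b hb' z hz).symm, hl.inj,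
    fun a ha => (hl.memQ a ha).1, fun a ha => (hl.memQ a ha).2, fun b hb' v hvb hvQ => ?_,
    fun a ha => ?_, fun a ha => ?_, fun k hk => ?_, fun k hk => hj3, fun k hk k' hk' _ => ?_,
    hr, hd, hp⟩
  · show 3 + hW.length ≤ 32
    omega
  · rintro ⟨b, hb', rfl⟩
    exact hb.touch b hb'
  · by_cases hvZ : v ∈ Z
    · exact Or.inl hvZ
    · exact Or.inr (hl.all v hvQ hvZ ⟨bl b, mem_Ez.2 ⟨hvb, hb.touch b hb'⟩⟩)
  · show (hT ++ hW).getD a 0 ≤ hts B zm.length bl (ct a)
    rw [hb.hts_eq, hl.hits a ha]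
  · show hts B zm.length bl (ct a) ≤ (hT ++ hW).getD a 0
    rw [hb.hts_eq, hl.hits a ha]
  · have hk0 : k = 0 := by
      have : k < 1 := hk
      omega
    subst hk0
    ext v
    rw [hl.trip, mem_ptm]
    constructor
    · rintro ⟨a, ha, he⟩
      refine ⟨a, ?_, ?_, he⟩
      · show a < 3 + hW.length
        omega
      · show (7 : ℕ).testBit a = true
        have h3 : a = 0 ∨ a = 1 ∨ a = 2 := by omega
        rcases h3 with rfl | rfl | rfl <;> decide
    · rintro ⟨a, _, ht, he⟩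
      refine ⟨a, ?_, he⟩
      by_contra h3
      have h4 : (7 : ℕ).testBit a = false := Nat.testBit_lt_two_pow (lt_of_lt_of_le
        (by norm_num : (7 : ℕ) < 2 ^ 3) (Nat.pow_le_pow_right (by norm_num) (by omega)))
      have ht' : (7 : ℕ).testBit a = true := ht
      rw [h4] at ht'
      exact absurd ht' (by simp)
  · have h1 : k < 1 := hk
    have h2 : k' < 1 := hk'
    omega

/-- the instance of a leaf of type (3;1). -/
abbrev P31 (hT hW : List ℕ) : Gp := Pgx 3 2 9 9 [3, 3, 3, 5, 5, 6, 6, 4] hT hW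

/-- the numbers of a leaf of type (3;1). -/
theorem Frm.leaf31 {Q U L : Finset V} {T : Finset ι} {F : Finset (Finset V)} (h : Frm B Q T U F)
    (hv : ViolR B Q) (hL : L ∈ F) (hc3 : L.card = 3) (h1 : nt B L 1 = 1) :
    cm B L = 8 ∧ rho B L = 2 ∧ Pv B L = -1 ∧ hit B (Q \ L) L ≤ 9 := by
  have h3 : nt B L 3 = 0 := by
    refine nt3_zero fun i => ?_
    rcases (B i ∩ L).eq_empty_or_nonempty with h0 | ⟨v, hv'⟩
    · rw [h0, card_empty]
      exact Nat.zero_le _
    · obtain ⟨hv1, hv2⟩ := mem_inter.1 hv'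
      exact (card_le_card (inter_subset_inter_left (h.FD hL))).trans (h.two_leaf hL hv1 hv2)
  have hLQ := h.FQ hL
  have hs := h.sv_leaf hL
  have ht3 := hv.tr.mono hLQ
  have e1 := cm_eq3 (W := L) ht3
  have e2 := inc_eq3 (hv.reg.mono hLQ) ht3
  have hcm : cm B L = 8 := by omega
  have hrho : rho B L = 2 := by
    unfold sv at hs
    omega
  have hP : Pv B L = -1 := by
    have h4 := Hyp6.Pv_eq (B := B) L
    rw [hcm, hrho, hc3] at h4
    push_cast at h4
    linarith
  have hit9 : hit B (Q \ L) L ≤ 9 := by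
    have h4 := hit_add_fsQ (B := B) (hv.reg.mono hLQ) hLQ
    have h5 : hc B L = 9 := by
      unfold Hyp6.hc
      rw [hcm, hc3]
      norm_num
    rw [h5] at h4
    have h6 := four_ee_le_fs (B := B) (Q := Q) (W := L) hv.tr
    have h7 : (0 : ℤ) ≤ ee B Q L := by positivity
    omega
  exact ⟨hcm, hrho, hP, hit9⟩

/-- **the context of a leaf of type (3;1)**. -/
theorem Frm.exists_gx31 {Q U L : Finset V} {T : Finset ι} {F : Finset (Finset V)}
    (h : Frm B Q T U F) (hv : ViolR B Q) (hL : L ∈ F) (hc3 : L.card = 3) (h1 : nt B L 1 = 1)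
    {j : ι} (hj3 : (B j ∩ Q).card = 3) (hjL : ¬ (B j ∩ L).Nonempty) :
    ∃ hT hW bl ct zt, Lbl B Q L j hT hW ct ∧ hT.sum + hW.sum ≤ 9 ∧
      Gdx.Gx B Q L (P31 hT hW) bl ct zt (fun _ => j) := by
  classical
  obtain ⟨hcm, hrho, hP, hit9⟩ := h.leaf31 hv hL hc3 h1
  have hLQ := h.FQ hL
  have hLne : L.Nonempty := card_pos.1 (by omega)
  obtain ⟨a, b, c, s, ht⟩ := exists_t31 (hv.reg.mono hLQ) (hv.tr.mono hLQ) hc3 hcm hrho
  obtain ⟨bl, zt, hb, _⟩ := ht.exists_blocks
  obtain ⟨hT, hW, ct, hl⟩ := exists_labels hj3 hjL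
  have hsum := hl.sum_all hjL
  have hlen : hW.length ≤ hW.sum := by
    have : ∀ l : List ℕ, (∀ x ∈ l, 1 ≤ x) → l.length ≤ l.sum := by
      intro l
      induction l with
      | nil => intro _; simp
      | cons x t ih =>
        intro hx
        rw [List.length_cons, List.sum_cons]
        have h2 := ih fun y hy => hx y (List.mem_cons_of_mem _ hy)
        have h3 := hx x List.mem_cons_self
        omega
    exact this hW hl.posW
  refine ⟨hT, hW, bl, ct, zt, hl, by rw [hsum]; exact hit9, ?_⟩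
  exact hl.gx hb hv hLQ hLne hj3 (by omega) hrho (by
    have := hv.leaf_dv h hL
    push_cast
    linarith) (by rw [hP]; norm_num)

end Pool.Agent.Hyp6
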