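import Pool.Agent.Hyp6.L3H2
import Pool.Agent.Hyp6.L3RB

/-!
# HYP6 L3DL: deletion of a set with value `-1` and one or two points of a triple

`Dlt B Q L i0`: `L` is a part of `Q` outside the full block `T = B i0`, with value `-1`, and it absorbs
every outside point which sees it. `L` and two points of `T` (`Dlt.del2`), or `L` and one point of `T`
(`Dlt.del1`), are deleted; the hits of the remaining points on `L` and the block `T` are replaced by
`nu` new blocks which all contain the remaining points of `T`. Nothing is assumed about the rest.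
-/

set_option autoImplicit false

namespace Pool.Agent.Hyp6

open Finset Pool.Agent.Hyp5

universe u v

variable {V : Type v} [DecidableEq V] {ι : Type u} [Fintype ι] {B : ι → Finset V}

/-- the exceptional sets have no point with two single traces. -/
theorem KT.ee_zero {Q : Finset V} (hr : Reg B Q) (h3 : Tr3 B Q) (h : KT B Q) : ee B Q Q = 0 := by
  unfold ee
  rw [card_eq_zero, filter_eq_empty_iff]
  intro t ht hcon
  obtain ⟨i, hi⟩ := card_pos.1 (lt_of_lt_of_le (by norm_num) hcon)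
  rw [mem_filter] at hi
  have h1 := h.trace hr h3 (i := i) (by rw [hi.2]; exact singleton_nonempty t)
  rw [hi.2, card_singleton] at h1
  omega

theorem KT.Pv_eq {Q : Finset V} (h : KT B Q) : Pv B Q = -2 := by
  rw [Hyp6.Pv_eq, h.1, h.2.1, h.2.2]
  norm_num

/-- **closing by rewiring**, strong form. -/
theorem Wir.closeR {κ : Type u} [Fintype κ] {Q C Y : Finset V} {E : V → Finset ι}
    {N : κ → Finset V} (h : Wir B Q C Y E N) {n : ℕ} (ih : IHE.{u} V n) (ihr : IHR.{u} V n)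
    (hn : C.card + Y.card < n) (hr : Reg B Q) (h3 : Tr3 B Q)
    (hconn : Conn (gr (absG B C Y E N)) (C ∪ Y)) {r : ℕ}
    (hK : KT (absG B C Y E N) (C ∪ Y) → 2 * (r : ℤ) + 1 ≤ sv B C + Y.card)
    {S : Finset ι} (hS : ∀ y ∈ Y, ∀ i ∈ E y, (B i ∩ C) = ∅ → i ∈ S)
    (hrho : rho B C + r ≤ rho (absG B C Y E N) (C ∪ Y))
    (hs : 2 * (r : ℤ) ≤ sv B C + Y.card)
    {Y1 Y2 : Finset V} (hY1 : Y1 ⊆ Y) (hY2 : Y2 ⊆ Y)
    (hd12 : Disjoint Y1 Y2) (hN1 : ∀ y ∈ Y1, ∀ i, B i ∩ Q = {y} → i ∈ E y)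
    (hN2 : ∀ y ∈ Y2, 2 ≤ (univ.filter (fun c => N c = {y})).card) :
    2 * ((ee B Q C : ℤ) + ee B Q Y1 + Y2.card) + 24 * (r : ℤ) ≤
      Pv B C + 5 * (Y.card : ℤ) + 4 * ((S.card : ℤ) + Fintype.card κ) := by
  have hc : (C ∪ Y).card = C.card + Y.card := card_union_of_disjoint h.dis
  have hc' : ((C ∪ Y).card : ℤ) = C.card + Y.card := by exact_mod_cast hc
  have ht3 := h.tr3 h3
  have hlt : (C ∪ Y).card < n := by rw [hc]; exact hn
  have hr' := h.reg hr
  have hee := h.ee_ge hY1 hY2 hd12 hN1 hN2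
  have hcm := h.cm_le hS
  have h3' : (rho B C : ℤ) + r ≤ rho (absG B C Y E N) (C ∪ Y) := by exact_mod_cast hrho
  have h4 : (ee B Q C : ℤ) + ee B Q Y1 + Y2.card ≤ ee (absG B C Y E N) (C ∪ Y) (C ∪ Y) := by
    exact_mod_cast hee
  have hcmz : (Hyp6.cm (absG B C Y E N) (C ∪ Y) : ℤ) ≤ Hyp6.cm B C + S.card + Fintype.card κ := by
    exact_mod_cast hcm
  have h2 := Hyp6.Pv_eq (B := absG B C Y E N) (C ∪ Y)
  have h2' := Hyp6.Pv_eq (B := B) C
  rw [hc'] at h2
  by_cases hKT : KT (absG B C Y E N) (C ∪ Y)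
  · have h5 := hKT.ee_zero hr' ht3
    have h6 := hKT.Pv_eq
    have h7 : (ee B Q C : ℤ) + ee B Q Y1 + Y2.card ≤ 0 := by
      rw [h5] at h4
      exact_mod_cast h4
    have h8 : (rho B C : ℤ) + r + 1 ≤ rho (absG B C Y E N) (C ∪ Y) := by
      have h9 := hK hKT
      have h10 : (rho (absG B C Y E N) (C ∪ Y) : ℤ) = 3 := by
        have := hKT.2.2
        exact_mod_cast this
      have h11 : (C.card : ℤ) + Y.card = 6 := by
        rw [← hc', hKT.1]
        norm_num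
      unfold sv at h9
      linarith
    linarith
  · have hok := ih (ι ⊕ κ) (absG B C Y E N) (C ∪ Y) hlt hr' ht3 hconn hKT
    rcases lt_or_ge ((rho B C : ℤ) + r) (rho (absG B C Y E N) (C ∪ Y)) with h5 | h5
    · linarith
    · have h6 : (rho (absG B C Y E N) (C ∪ Y) : ℤ) = rho B C + r := le_antisymm h5 h3'
      have h7 : 0 ≤ sv (absG B C Y E N) (C ∪ Y) := by
        unfold sv at hs ⊢
        rw [hc', h6]
        linarith
      have h8 := ih_nonneg ih ihr hlt hr' ht3 hconn hKT h7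
      linarith

omit [Fintype ι] in
theorem rho_union_card {A S : Finset V} (hc : Cov B (A ∪ S)) :
    rho B (A ∪ S) ≤ rho B A + S.card := by
  classical
  induction S using Finset.induction_on with
  | empty => simp
  | insert x S hx ih =>
    have h1 : A ∪ insert x S = (A ∪ S) ∪ {x} := by
      ext v
      simp only [mem_union, mem_insert, mem_singleton]
      tauto
    rw [h1] at hc ⊢
    have h2 := ih (hc.mono subset_union_left)
    have h3 := rho_le_erase (x := x) hc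
    have h4 : ((A ∪ S) ∪ {x}).erase x ⊆ A ∪ S := by
      intro v hv
      rw [mem_erase, mem_union, mem_singleton] at hv
      rcases hv.2 with h | h
      · exact h
      · exact absurd h hv.1
    have h5 := rho_mono h4 (hc.mono subset_union_left)
    rw [card_insert_of_notMem hx]
    omega

/-- numbering of a small finite set. -/
theorem exists_num {α : Type*} [DecidableEq α] (P : Finset α) {n : ℕ} (h : P.card ≤ n) :
    ∃ f : α → ℕ, (∀ a ∈ P, f a < n) ∧ (∀ a ∈ P, ∀ b ∈ P, f a = f b → a = b) ∧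
      ∀ a ∈ P, f a < P.card := by
  classical
  refine ⟨fun a => if h : a ∈ P then (P.equivFin ⟨a, h⟩ : ℕ) else 0, ?_, ?_, ?_⟩
  · intro a ha
    simp only [ha, dif_pos]
    exact lt_of_lt_of_le (P.equivFin ⟨a, ha⟩).2 h
  · intro a ha b hb he
    simp only [ha, hb, dif_pos] at he
    have h1 := P.equivFin.injective (Fin.ext he)
    exact congrArg Subtype.val h1
  · intro a ha
    simp only [ha, dif_pos]
    exact (P.equivFin ⟨a, ha⟩).2

/-- the data of a deletion. -/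
structure Dlt (B : ι → Finset V) (Q L : Finset V) (i0 : ι) : Prop where
  ih : IHE.{u} V Q.card
  ihr : IHR.{u} V Q.card
  reg : Reg B Q
  tr : Tr3 B Q
  s1 : 1 ≤ sv B Q
  c3 : (B i0 ∩ Q).card = 3
  connC : Conn (gr B) (Q \ (B i0 ∩ Q))
  eeT : ee B Q (B i0 ∩ Q) = 0
  LQ : L ⊆ Q \ (B i0 ∩ Q)
  Lne : L.Nonempty
  svL : sv B L = -1
  abs : ∀ v ∈ Q, v ∉ L → v ∉ B i0 → (Ez B L v).Nonempty → Abz B L {v}

/-- the contact points outside the triple. -/
def Vs (B : ι → Finset V) (Q L : Finset V) (i0 : ι) : Finset V :=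
  ((Q \ (B i0 ∩ Q)) \ L).filter (fun v => (Ez B L v).Nonempty)

/-- the rest. -/
def Cs (B : ι → Finset V) (Q L : Finset V) (i0 : ι) : Finset V :=
  ((Q \ (B i0 ∩ Q)) \ L).filter (fun v => ¬ (Ez B L v).Nonempty)

open Classical in
/-- the old blocks of a point which are kept. -/
noncomputable def Okp (B : ι → Finset V) (L : Finset V) (i0 : ι) (y : V) : Finset ι :=
  univ.filter (fun i => y ∈ B i ∧ i ≠ i0 ∧ B i ∩ L = ∅)

theorem mem_Okp {L : Finset V} {i0 : ι} {y : V} {i : ι} :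
    i ∈ Okp B L i0 y ↔ y ∈ B i ∧ i ≠ i0 ∧ B i ∩ L = ∅ := by
  simp [Okp]

namespace Dlt

variable {Q L : Finset V} {i0 : ι}

theorem mem_Vs {v : V} : v ∈ Vs B Q L i0 ↔ v ∈ Q ∧ v ∉ B i0 ∧ v ∉ L ∧ (Ez B L v).Nonempty := by
  unfold Vs
  rw [mem_filter, mem_sdiff, mem_sdiff, mem_inter]
  constructor
  · rintro ⟨⟨⟨h1, h2⟩, h3⟩, h4⟩
    exact ⟨h1, fun h5 => h2 ⟨h5, h1⟩, h3, h4⟩
  · rintro ⟨h1, h2, h3, h4⟩
    exact ⟨⟨⟨h1, fun h5 => h2 h5.1⟩, h3⟩, h4⟩

theorem mem_Cs {v : V} : v ∈ Cs B Q L i0 ↔ v ∈ Q ∧ v ∉ B i0 ∧ v ∉ L ∧ ¬ (Ez B L v).Nonempty := by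
  unfold Cs
  rw [mem_filter, mem_sdiff, mem_sdiff, mem_inter]
  constructor
  · rintro ⟨⟨⟨h1, h2⟩, h3⟩, h4⟩
    exact ⟨h1, fun h5 => h2 ⟨h5, h1⟩, h3, h4⟩
  · rintro ⟨h1, h2, h3, h4⟩
    exact ⟨⟨⟨h1, fun h5 => h2 h5.1⟩, h3⟩, h4⟩

theorem cov (h : Dlt B Q L i0) : Cov B Q := cov_of_reg h.reg

theorem LQ' (h : Dlt B Q L i0) : L ⊆ Q := h.LQ.trans sdiff_subset

theorem LT (h : Dlt B Q L i0) {v : V} (hv : v ∈ L) : v ∉ B i0 := fun h1 =>
  (mem_sdiff.1 (h.LQ hv)).2 (mem_inter.2 ⟨h1, h.LQ' hv⟩)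

theorem VQ (_h : Dlt B Q L i0) : Vs B Q L i0 ⊆ Q := fun _ hv => (mem_Vs.1 hv).1

theorem CQ (_h : Dlt B Q L i0) : Cs B Q L i0 ⊆ Q := fun _ hv => (mem_Cs.1 hv).1

theorem TQ : B i0 ∩ Q ⊆ Q := inter_subset_right

theorem TV (_h : Dlt B Q L i0) : Disjoint (B i0 ∩ Q) (Vs B Q L i0) := by
  rw [disjoint_left]
  intro v hv hv'
  exact (mem_Vs.1 hv').2.1 (mem_inter.1 hv).1

theorem TC (_h : Dlt B Q L i0) : Disjoint (B i0 ∩ Q) (Cs B Q L i0) := by
  rw [disjoint_left]
  intro v hv hv'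
  exact (mem_Cs.1 hv').2.1 (mem_inter.1 hv).1

theorem VC (_h : Dlt B Q L i0) : Disjoint (Cs B Q L i0) (Vs B Q L i0) := by
  rw [disjoint_left]
  intro v hv hv'
  exact (mem_Cs.1 hv).2.2.2 (mem_Vs.1 hv').2.2.2

theorem LC (_h : Dlt B Q L i0) : Disjoint L (Cs B Q L i0) := by
  rw [disjoint_left]
  intro v hv hv'
  exact (mem_Cs.1 hv').2.2.1 hv

theorem sep (_h : Dlt B Q L i0) : Sep B L (Cs B Q L i0) := by
  intro i h1 h2
  obtain ⟨v, hv⟩ := h2
  obtain ⟨hv1, hv2⟩ := mem_inter.1 hv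
  exact (mem_Cs.1 hv2).2.2.2 ⟨i, mem_Ez.2 ⟨hv1, h1⟩⟩

/-- the removed points. -/
theorem Xsub (h : Dlt B Q L i0) : (B i0 ∩ Q) ∪ Vs B Q L i0 ⊆ Q := union_subset TQ h.VQ

theorem QX (h : Dlt B Q L i0) :
    Q \ ((B i0 ∩ Q) ∪ Vs B Q L i0) = L ∪ Cs B Q L i0 := by
  ext v
  rw [mem_sdiff, mem_union, mem_union, mem_inter, mem_Vs, mem_Cs]
  constructor
  · rintro ⟨h1, h2⟩
    by_cases hL : v ∈ L
    · exact Or.inl hL
    · refine Or.inr ⟨h1, fun h3 => h2 (Or.inl ⟨h3, h1⟩), hL, fun h4 => h2 (Or.inr ⟨h1, ?_, hL, h4⟩)⟩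
      exact fun h3 => h2 (Or.inl ⟨h3, h1⟩)
  · rintro (h1 | h1)
    · refine ⟨h.LQ' h1, ?_⟩
      rintro (h2 | h2)
      · exact h.LT h1 h2.1
      · exact h2.2.2.1 h1
    · refine ⟨h1.1, ?_⟩
      rintro (h2 | h2)
      · exact h1.2.1 h2.1
      · exact h1.2.2.2 h2.2.2.2

theorem cX (h : Dlt B Q L i0) : ((B i0 ∩ Q) ∪ Vs B Q L i0).card = 3 + (Vs B Q L i0).card := by
  rw [card_union_of_disjoint h.TV, h.c3]

theorem card_eq (h : Dlt B Q L i0) :
    Q.card = L.card + (Cs B Q L i0).card + 3 + (Vs B Q L i0).card := by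
  have h1 := card_sdiff_add_card_eq_card h.Xsub
  rw [h.QX, card_union_of_disjoint h.LC, h.cX] at h1
  omega

theorem covL (h : Dlt B Q L i0) : Cov B L := h.cov.mono h.LQ'

theorem covC (h : Dlt B Q L i0) : Cov B (Cs B Q L i0) := h.cov.mono h.CQ

/-- the number of missing blocks. -/
theorem rho_split (h : Dlt B Q L i0) : rho B L + rho B (Cs B Q L i0) ≤ rho B Q := by
  rw [← rho_add h.covL h.covC h.sep, ← h.QX]
  exact rho_mono sdiff_subset h.cov

theorem Pv_eqD (h : Dlt B Q L i0) : Pv B Q = Pv B L + Pv B (Cs B Q L i0) + 15 +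
    5 * ((Vs B Q L i0).card : ℤ) + 4 * ((ins B Q ((B i0 ∩ Q) ∪ Vs B Q L i0)).card : ℤ) -
    24 * ((rho B Q : ℤ) - rho B L - rho B (Cs B Q L i0)) := by
  have h1 := Pv_sdiff (B := B) h.Xsub
  rw [h.QX, Pv_add h.covL h.covC h.LC h.sep, rho_add h.covL h.covC h.sep, h.cX] at h1
  push_cast at h1
  linarith

theorem ee_eqD (h : Dlt B Q L i0) : ee B Q Q = ee B Q L + ee B Q (Cs B Q L i0) +
    ee B Q (Vs B Q L i0) := by
  have h1 : Q = (L ∪ Cs B Q L i0) ∪ ((B i0 ∩ Q) ∪ Vs B Q L i0) := by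
    rw [← h.QX]
    exact (sdiff_union_of_subset h.Xsub).symm
  have h2 : ee B Q Q = ee B Q ((L ∪ Cs B Q L i0) ∪ ((B i0 ∩ Q) ∪ Vs B Q L i0)) := by
    rw [← h1]
  rw [h2, ee_union, ee_union h.LC, ee_union h.TV, h.eeT, Nat.zero_add]
  rw [← h.QX]
  exact sdiff_disjoint

/-- five blocks. -/
theorem five (h : Dlt B Q L i0) {y : V} (hy : y ∈ Q) :
    (Okp B L i0 y).card + (Ez B L y).card + (if y ∈ B i0 then 1 else 0) = 5 := by
  classical
  have h1 := h.reg y hy
  have hdis : ∀ i, i = i0 → (B i ∩ L) = ∅ := by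
    rintro i rfl
    rw [eq_empty_iff_forall_notMem]
    intro v hv
    obtain ⟨hv1, hv2⟩ := mem_inter.1 hv
    exact h.LT hv2 hv1
  have h2 : univ.filter (fun i => y ∈ B i) =
      (Okp B L i0 y ∪ Ez B L y) ∪ (if y ∈ B i0 then {i0} else ∅) := by
    ext i
    rw [mem_filter, mem_union, mem_union, mem_Okp, mem_Ez]
    constructor
    · rintro ⟨_, hi⟩
      by_cases he : i = i0
      · subst he
        rw [if_pos hi]
        exact Or.inr (mem_singleton_self _)
      · rcases (B i ∩ L).eq_empty_or_nonempty with h3 | h3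
        · exact Or.inl (Or.inl ⟨hi, he, h3⟩)
        · exact Or.inl (Or.inr ⟨hi, h3⟩)
    · rintro ((h3 | h3) | h3)
      · exact ⟨mem_univ _, h3.1⟩
      · exact ⟨mem_univ _, h3.1⟩
      · split_ifs at h3 with h4
        · rw [mem_singleton] at h3
          subst h3
          exact ⟨mem_univ _, h4⟩
        · exact absurd h3 (notMem_empty _)
  rw [← h1, h2, card_union_of_disjoint, card_union_of_disjoint]
  · congr 1
    split_ifs <;> simp
  · rw [disjoint_left]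
    intro i hi hi'
    rw [mem_Okp] at hi
    rw [mem_Ez, hi.2.2] at hi'
    exact absurd hi'.2 (by simp)
  · rw [disjoint_left]
    intro i hi hi'
    split_ifs at hi' with h4
    · rw [mem_singleton] at hi'
      subst hi'
      rcases mem_union.1 hi with h5 | h5
      · exact (mem_Okp.1 h5).2.1 rfl
      · have h6 := (mem_Ez.1 h5).2
        rw [hdis _ rfl] at h6
        exact absurd h6 (by simp)
    · exact absurd hi' (notMem_empty _)

/-- the covers of the new system: `Z` are the kept points of the triple, `A` the deleted ones. -/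
theorem rho_bound (h : Dlt B Q L i0) {A Y' : Finset V} {k : ℕ} (hA : A ⊆ Q) (hY' : Y' ⊆ Q)
    (hAT : (Vs B Q L i0 ⊆ Y' ∧ B i0 ∩ Q ⊆ A ∪ Y' ∧ rho B (L ∪ A) ≤ rho B L) ∨
      (1 ≤ k ∧ (Vs B Q L i0 \ Y').card ≤ k)) :
    rho B Q ≤ rho B L + rho B (Cs B Q L i0 ∪ Y') + k := by
  classical
  have hcY : Cov B (Cs B Q L i0 ∪ Y') := h.covC.union (h.cov.mono hY')
  rcases hAT with ⟨h1, h2, h3⟩ | ⟨h1, h2⟩
  · have h4 : Q ⊆ (L ∪ A) ∪ (Cs B Q L i0 ∪ Y') := by
      intro v hv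
      by_cases hX : v ∈ (B i0 ∩ Q) ∪ Vs B Q L i0
      · rcases mem_union.1 hX with h5 | h5
        · rcases mem_union.1 (h2 h5) with h6 | h6
          · simp [h6]
          · simp [h6]
        · simp [h1 h5]
      · have h5 : v ∈ L ∪ Cs B Q L i0 := by
          rw [← h.QX]
          exact mem_sdiff.2 ⟨hv, hX⟩
        rcases mem_union.1 h5 with h6 | h6
        · simp [h6]
        · simp [h6]
    have hcL : Cov B (L ∪ A) := h.covL.union (h.cov.mono hA)
    have h5 := rho_mono h4 (hcL.union hcY)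
    have h6 := rho_union_le hcL hcY
    omega
  · -- `T` is covered by its block
    have hT1 : rho B (B i0 ∩ Q) ≤ 1 := by
      refine (rho_le (T := {i0}) ?_).trans (by simp)
      rw [singleton_biUnion]
      exact inter_subset_left
    have hcT : Cov B (B i0 ∩ Q) := h.cov.mono TQ
    set W := Vs B Q L i0 \ Y' with hW
    have hWQ : W ⊆ Q := sdiff_subset.trans h.VQ
    have hL2 : rho B (L ∪ W) ≤ rho B L + (W.card - 1) := by
      rcases W.eq_empty_or_nonempty with h3 | ⟨w, hw⟩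
      · rw [h3]
        simp
      · have hwV := mem_Vs.1 (mem_sdiff.1 hw).1
        obtain ⟨T0, hT0, hT0c⟩ := h.abs w hwV.1 hwV.2.2.1 hwV.2.1 hwV.2.2.2
        have h3 := (rho_le hT0).trans hT0c
        have h4 : L ∪ W = (L ∪ {w}) ∪ W.erase w := by
          ext v
          simp only [mem_union, mem_singleton, mem_erase]
          constructor
          · rintro (h5 | h5)
            · exact Or.inl (Or.inl h5)
            · by_cases he : v = w
              · exact Or.inl (Or.inr he)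
              · exact Or.inr ⟨he, h5⟩
          · rintro ((h5 | h5) | h5)
            · exact Or.inl h5
            · exact Or.inr (h5 ▸ hw)
            · exact Or.inr h5.2
        have h5 : Cov B ((L ∪ {w}) ∪ W.erase w) := by
          rw [← h4]
          exact h.covL.union (h.cov.mono hWQ)
        have h6 := rho_union_card h5
        rw [← h4, card_erase_of_mem hw] at h6
        omega
    have h4 : Q ⊆ (B i0 ∩ Q) ∪ ((L ∪ W) ∪ (Cs B Q L i0 ∪ Y')) := by
      intro v hv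
      by_cases hX : v ∈ (B i0 ∩ Q) ∪ Vs B Q L i0
      · rcases mem_union.1 hX with h5 | h5
        · exact mem_union_left _ h5
        · by_cases h6 : v ∈ Y'
          · simp [h6]
          · have h7 : v ∈ W := mem_sdiff.2 ⟨h5, h6⟩
            simp [h7]
      · have h5 : v ∈ L ∪ Cs B Q L i0 := by
          rw [← h.QX]
          exact mem_sdiff.2 ⟨hv, hX⟩
        rcases mem_union.1 h5 with h6 | h6
        · simp [h6]
        · simp [h6]
    have hcL : Cov B (L ∪ W) := h.covL.union (h.cov.mono hWQ)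
    have h5 := rho_mono h4 (hcT.union (hcL.union hcY))
    have h6 := rho_union_le hcT (hcL.union hcY)
    have h7 := rho_union_le hcL hcY
    omega

open Classical in
/-- **deletion lemma**: `L` and the points of `T` outside `K0` are deleted, `K0` is put into all the
`nu` new blocks. -/
theorem del (h : Dlt B Q L i0) {K0 : Finset V} (hK0 : K0 ⊆ B i0 ∩ Q) (hk1 : K0.Nonempty)
    (hk2 : K0.card ≤ 2) {nu : ℕ} (h1 : 1 ≤ nu) (h5 : nu ≤ 5)
    (hy : ∀ y ∈ K0, (Ez B L y).card + 1 ≤ nu)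
    (hH : ∑ v ∈ Vs B Q L i0, (Ez B L v).card ≤ nu)
    (habs : Abz B L ((B i0 ∩ Q) \ K0) ∨ nu = 5) :
    dv B Q L + 19 + (if K0.card = 1 ∧ ∑ v ∈ Vs B Q L i0, (Ez B L v).card + 2 ≤ nu then 2 else 0) ≤
      dv B Q Q + 5 * (K0.card : ℤ) + 4 * (nu : ℤ) := by
  set H := ∑ v ∈ Vs B Q L i0, (Ez B L v).card with hHd
  obtain ⟨k0, hk0⟩ := hk1
  have hTB : ∀ y ∈ K0, y ∈ B i0 := fun y hy' => (mem_inter.1 (hK0 hy')).1
  have hTQ : ∀ y ∈ K0, y ∈ Q := fun y hy' => (mem_inter.1 (hK0 hy')).2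
  have hKV : Disjoint K0 (Vs B Q L i0) := disjoint_of_subset_left hK0 h.TV
  set Y : Finset V := K0 ∪ Vs B Q L i0 with hY
  have hYQ : Y ⊆ Q := union_subset (hK0.trans TQ) h.VQ
  have hYX : Y ⊆ (B i0 ∩ Q) ∪ Vs B Q L i0 := union_subset_union_left hK0
  have hCY : Disjoint (Cs B Q L i0) Y := by
    rw [hY, disjoint_union_right]
    exact ⟨(disjoint_of_subset_left hK0 h.TC).symm, h.VC⟩
  -- the numbering of the hits
  set P : Finset (Σ _ : V, ι) := (Vs B Q L i0).sigma (fun v => Ez B L v) with hP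
  have hPc : P.card = H := by rw [hP, card_sigma]
  obtain ⟨f, hf1, hf2, hf3⟩ := exists_num P (n := nu) (by rw [hPc]; exact hH)
  have hmP : ∀ v i, (⟨v, i⟩ : Σ _ : V, ι) ∈ P ↔ v ∈ Vs B Q L i0 ∧ i ∈ Ez B L v := by
    intro v i
    rw [hP, mem_sigma]
  -- the new blocks
  set N : ULift.{u} (Fin nu) → Finset V := fun c =>
    K0 ∪ (Vs B Q L i0).filter (fun v => ∃ i ∈ Ez B L v, f ⟨v, i⟩ = (c.down : ℕ)) with hN
  have hNV : ∀ v ∈ Vs B Q L i0, ∀ c, v ∈ N c ↔ ∃ i ∈ Ez B L v, f ⟨v, i⟩ = (c.down : ℕ) := by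
    intro v hv c
    simp only [hN, mem_union, mem_filter]
    constructor
    · rintro (h2 | h2)
      · exact absurd hv (disjoint_left.1 hKV h2)
      · exact h2.2
    · intro h2
      exact Or.inr ⟨hv, h2⟩
  have hNK : ∀ y ∈ K0, ∀ c, y ∈ N c := fun y hy' c => mem_union_left _ hy'
  have huniq : ∀ c, ∀ v ∈ Vs B Q L i0, ∀ w ∈ Vs B Q L i0, v ∈ N c → w ∈ N c → v = w := by
    intro c v hv w hw h2 h3
    obtain ⟨i, hi, hi2⟩ := (hNV v hv c).1 h2
    obtain ⟨j, hj, hj2⟩ := (hNV w hw c).1 h3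
    have h4 := hf2 _ ((hmP v i).2 ⟨hv, hi⟩) _ ((hmP w j).2 ⟨hw, hj⟩) (hi2.trans hj2.symm)
    exact congrArg Sigma.fst h4
  have hcs : Fintype.card (ULift.{u} (Fin nu)) = nu := by
    rw [Fintype.card_ulift, Fintype.card_fin]
  have hcount : ∀ v ∈ Vs B Q L i0,
      (univ.filter (fun c => v ∈ N c)).card = (Ez B L v).card := by
    intro v hv
    symm
    refine Finset.card_bij (fun i hi => ⟨⟨f ⟨v, i⟩, hf1 _ ((hmP v i).2 ⟨hv, hi⟩)⟩⟩) ?_ ?_ ?_
    · intro i hi
      rw [mem_filter]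
      exact ⟨mem_univ _, (hNV v hv _).2 ⟨i, hi, rfl⟩⟩
    · intro i hi j hj he
      have h2 : f ⟨v, i⟩ = f ⟨v, j⟩ := by
        have h3 := congrArg ULift.down he
        exact congrArg Fin.val h3
      have h4 := hf2 _ ((hmP v i).2 ⟨hv, hi⟩) _ ((hmP v j).2 ⟨hv, hj⟩) h2
      simpa using h4
    · intro c hc
      obtain ⟨i, hi, hi2⟩ := (hNV v hv c).1 (mem_filter.1 hc).2
      exact ⟨i, hi, ULift.down_injective (Fin.ext hi2)⟩
  -- the old blocks
  have hex : ∀ y, ∃ S : Finset ι, y ∈ K0 → S ⊆ Okp B L i0 y ∧ S.card + nu = 5 := by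
    intro y
    by_cases hyK : y ∈ K0
    · have h2 := h.five (hTQ y hyK)
      rw [if_pos (hTB y hyK)] at h2
      have h3 := hy y hyK
      obtain ⟨S, hS, hSc⟩ := exists_subset_card_eq (s := Okp B L i0 y) (n := 5 - nu) (by omega)
      exact ⟨S, fun _ => ⟨hS, by omega⟩⟩
    · exact ⟨∅, fun h2 => absurd h2 hyK⟩
  choose S0 hS0 using hex
  obtain ⟨E, hE0, hE1⟩ : ∃ E : V → Finset ι, (∀ y ∈ K0, E y = S0 y) ∧
      ∀ y ∈ Vs B Q L i0, E y = Okp B L i0 y :=
    ⟨fun y => if y ∈ K0 then S0 y else Okp B L i0 y, fun y hy' => if_pos hy',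
      fun y hy' => if_neg (fun h2 => disjoint_left.1 hKV h2 hy')⟩
  have hEO : ∀ y ∈ Y, E y ⊆ Okp B L i0 y := by
    intro y hy'
    rcases mem_union.1 hy' with h2 | h2
    · rw [hE0 y h2]
      exact (hS0 y h2).1
    · rw [hE1 y h2]
  have hw : Wir B Q (Cs B Q L i0) Y E N := by
    refine ⟨h.CQ, hYQ, hCY, ?_, ?_, ?_, ?_⟩
    · intro y hy' i hi
      exact (mem_Okp.1 (hEO y hy' hi)).1
    · intro c
      exact union_subset_union_right (filter_subset _ _)
    · intro y hy'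
      rcases mem_union.1 hy' with h2 | h2
      · rw [hE0 y h2, filter_true_of_mem fun c _ => hNK y h2 c, card_univ, hcs]
        exact (hS0 y h2).2
      · rw [hE1 y h2, hcount y h2]
        have h3 := h.five (h.VQ h2)
        rw [if_neg (mem_Vs.1 h2).2.1] at h3
        omega
    · intro c
      have h2 : ((Vs B Q L i0).filter
          (fun v => ∃ i ∈ Ez B L v, f ⟨v, i⟩ = (c.down : ℕ))).card ≤ 1 := by
        rw [card_le_one]
        intro v hv w hw'
        have hv2 := (mem_filter.1 hv).1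
        have hw2 := (mem_filter.1 hw').1
        exact huniq c v hv2 w hw2 (mem_union_right _ hv) (mem_union_right _ hw')
      have h3 := card_union_le K0 ((Vs B Q L i0).filter
          (fun v => ∃ i ∈ Ez B L v, f ⟨v, i⟩ = (c.down : ℕ)))
      simp only [hN]
      omega
  have hkY : k0 ∈ Y := mem_union_left _ hk0
  -- connectivity
  have hlink : ∀ Z, Closed (gr (absG B (Cs B Q L i0) Y E N)) (Cs B Q L i0 ∪ Y) Z →
      (k0 ∈ Z → Y ⊆ Z) ∧ (k0 ∉ Z → Z ∩ Y = ∅) := by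
    intro Z hZ
    have hadj : ∀ y ∈ Y, y ≠ k0 → (gr (absG B (Cs B Q L i0) Y E N)).Adj k0 y := by
      intro y hy' hne
      rcases mem_union.1 hy' with h2 | h2
      · exact hw.adj_N hne.symm (hNK k0 hk0 ⟨⟨0, by omega⟩⟩) (hNK y h2 _)
      · obtain ⟨i, hi⟩ := (mem_Vs.1 h2).2.2.2
        have h3 : y ∈ N ⟨⟨f ⟨y, i⟩, hf1 _ ((hmP y i).2 ⟨h2, hi⟩)⟩⟩ := (hNV y h2 _).2 ⟨i, hi, rfl⟩
        exact hw.adj_N hne.symm (hNK k0 hk0 _) h3
    constructor
    · intro h2 y hy'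
      by_cases he : y = k0
      · exact he ▸ h2
      · exact hZ.2 _ h2 _ (mem_union_right _ hy') (hadj y hy' he)
    · intro h2
      rw [eq_empty_iff_forall_notMem]
      intro y hy'
      obtain ⟨hy1, hy2⟩ := mem_inter.1 hy'
      by_cases he : y = k0
      · exact h2 (he ▸ hy1)
      · exact h2 (hZ.2 _ hy1 _ (mem_union_right _ hkY) (hadj y hy2 he).symm)
  have hnoC : ∀ Z, Closed (gr (absG B (Cs B Q L i0) Y E N)) (Cs B Q L i0 ∪ Y) Z →
      Z ∩ Y = ∅ → Z = ∅ := by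
    intro Z hZ h2
    by_contra hcon
    have hne := nonempty_iff_ne_empty.2 hcon
    have hZC : Z ⊆ Cs B Q L i0 := by
      intro v hv
      rcases mem_union.1 (hZ.1 hv) with h3 | h3
      · exact h3
      · have : v ∈ Z ∩ Y := mem_inter.2 ⟨hv, h3⟩
        rw [h2] at this
        exact absurd this (notMem_empty _)
    have hcl : Closed (gr B) (Q \ (B i0 ∩ Q)) Z := by
      refine ⟨?_, ?_⟩
      · intro v hv
        have h3 := mem_Cs.1 (hZC hv)
        exact mem_sdiff.2 ⟨h3.1, fun h4 => h3.2.1 (mem_inter.1 h4).1⟩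
      · intro x hx y hy' hxy
        obtain ⟨hyQ, hyT⟩ := mem_sdiff.1 hy'
        have hyB : y ∉ B i0 := fun h3 => hyT (mem_inter.2 ⟨h3, hyQ⟩)
        have hxC := mem_Cs.1 (hZC hx)
        obtain ⟨hne', i, hi1, hi2⟩ := hxy
        have hiL : B i ∩ L = ∅ := by
          rw [← not_nonempty_iff_eq_empty]
          exact fun h3 => hxC.2.2.2 ⟨i, mem_Ez.2 ⟨hi1, h3⟩⟩
        have hi0 : i ≠ i0 := by
          rintro rfl
          exact hxC.2.1 hi1
        by_cases hyL : y ∈ L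
        · exfalso
          have h3 : y ∈ B i ∩ L := mem_inter.2 ⟨hi2, hyL⟩
          rw [hiL] at h3
          exact absurd h3 (notMem_empty _)
        · by_cases hyV : (Ez B L y).Nonempty
          · exfalso
            have hyV' : y ∈ Vs B Q L i0 := mem_Vs.2 ⟨hyQ, hyB, hyL, hyV⟩
            have hyY : y ∈ Y := mem_union_right _ hyV'
            have h3 : i ∈ E y := by
              rw [hE1 y hyV']
              exact mem_Okp.2 ⟨hi2, hi0, hiL⟩
            have h4 := hZ.2 x hx y (mem_union_right _ hyY)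
              (hw.adj_Y hyY (hZC hx) h3 hi1).symm
            have h5' : y ∈ Z ∩ Y := mem_inter.2 ⟨h4, hyY⟩
            rw [h2] at h5'
            exact absurd h5' (notMem_empty _)
          · have hyC : y ∈ Cs B Q L i0 := mem_Cs.2 ⟨hyQ, hyB, hyL, hyV⟩
            exact hZ.2 x hx y (mem_union_left _ hyC)
              (hw.adj_C (hZC hx) hyC ⟨hne', i, hi1, hi2⟩)
    have h3 := h.connC.2 _ hcl hne
    obtain ⟨l, hl⟩ := h.Lne
    have h4 : l ∈ Z := by
      rw [h3]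
      exact h.LQ hl
    exact (mem_Cs.1 (hZC h4)).2.2.1 hl
  have hconn : Conn (gr (absG B (Cs B Q L i0) Y E N)) (Cs B Q L i0 ∪ Y) := by
    refine ⟨⟨k0, mem_union_right _ hkY⟩, fun Z hZ hne => ?_⟩
    have h2 : k0 ∈ Z := by
      by_contra h3
      exact hne.ne_empty (hnoC Z hZ ((hlink Z hZ).2 h3))
    have h3 := (hlink Z hZ).1 h2
    have h4 := hnoC _ (Closed.compl hZ) (by
      rw [eq_empty_iff_forall_notMem]
      intro y hy'
      obtain ⟨hy1, hy2⟩ := mem_inter.1 hy'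
      exact (mem_sdiff.1 hy1).2 (h3 hy2))
    refine Subset.antisymm hZ.1 fun v hv => ?_
    by_contra h6
    have : v ∈ (Cs B Q L i0 ∪ Y) \ Z := mem_sdiff.2 ⟨hv, h6⟩
    rw [h4] at this
    exact absurd this (notMem_empty _)
  -- cover number
  have hsplit := h.rho_split
  obtain ⟨r, hr⟩ : ∃ r, rho B Q = rho B L + rho B (Cs B Q L i0) + r := ⟨_, (Nat.add_sub_of_le hsplit).symm⟩
  have hrho : rho B (Cs B Q L i0) + r ≤
      rho (absG B (Cs B Q L i0) Y E N) (Cs B Q L i0 ∪ Y) := by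
    refine hw.rho_ge' h.reg fun K Y' hY' hYE hYK => ?_
    have hb := h.rho_bound (A := (B i0 ∩ Q) \ K0) (Y' := Y') (k := K.card)
      (sdiff_subset.trans TQ) (hY'.trans hYQ) ?_
    · omega
    · rcases K.eq_empty_or_nonempty with rfl | hKne
      · have hall : Y ⊆ Y' := fun y hy' => hYK y hy' (fun c hc => absurd hc (notMem_empty _))
        rcases habs with h2 | h2
        · refine Or.inl ⟨subset_union_right.trans hall, ?_, h2.rho_le'⟩
          intro v hv
          by_cases hvK : v ∈ K0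
          · exact mem_union_right _ (hall (mem_union_left _ hvK))
          · exact mem_union_left _ (mem_sdiff.2 ⟨hv, hvK⟩)
        · exfalso
          have h3 := hYE k0 (hall hkY)
          rw [hE0 k0 hk0] at h3
          have h4 := (hS0 k0 hk0).2
          have h6 := card_pos.2 h3
          omega
      · refine Or.inr ⟨card_pos.2 hKne, ?_⟩
        have h2 : ∀ v ∈ Vs B Q L i0 \ Y', ∃ c ∈ K, v ∈ N c := by
          intro v hv
          obtain ⟨hv1, hv2⟩ := mem_sdiff.1 hv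
          by_contra hcon
          push Not at hcon
          exact hv2 (hYK v (mem_union_right _ hv1) hcon)
        obtain ⟨c0, _⟩ := hKne
        have h3 : ∀ v, ∃ c, v ∈ Vs B Q L i0 \ Y' → c ∈ K ∧ v ∈ N c := by
          intro v
          by_cases hv : v ∈ Vs B Q L i0 \ Y'
          · obtain ⟨c, hc1, hc2⟩ := h2 v hv
            exact ⟨c, fun _ => ⟨hc1, hc2⟩⟩
          · exact ⟨c0, fun h4 => absurd h4 hv⟩
        choose g hg using h3
        refine Finset.card_le_card_of_injOn g (fun v hv => (hg v hv).1) ?_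
        intro v hv w hw' he
        have hv3 := (hg v hv).2
        have hw3 := (hg w hw').2
        rw [← he] at hw3
        exact huniq _ v (mem_sdiff.1 hv).1 w (mem_sdiff.1 hw').1 hv3 hw3
  -- sizes
  have hcQ := h.card_eq
  have hYc : Y.card = K0.card + (Vs B Q L i0).card := by
    rw [hY, card_union_of_disjoint hKV]
  have hLpos := card_pos.2 h.Lne
  have hkpos : 1 ≤ K0.card := card_pos.2 ⟨k0, hk0⟩
  have hsvY : sv B (Cs B Q L i0) + (Y.card : ℤ) - 2 * (r : ℤ) = sv B Q - 2 + K0.card := by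
    have h2 := h.svL
    unfold sv at h2 ⊢
    rw [hr, hcQ, hYc]
    push_cast
    linarith
  have hs1 := h.s1
  have hkz : (1 : ℤ) ≤ K0.card := by exact_mod_cast hkpos
  have hSsub : ∀ y ∈ Y, ∀ i ∈ E y, (B i ∩ Cs B Q L i0) = ∅ →
      i ∈ (ins B Q ((B i0 ∩ Q) ∪ Vs B Q L i0)).erase i0 := by
    intro y hy' i hi hiC
    have h2 := mem_Okp.1 (hEO y hy' hi)
    rw [mem_erase, mem_ins]
    refine ⟨h2.2.1, ⟨y, mem_inter.2 ⟨h2.1, hYQ hy'⟩⟩, ?_⟩
    intro v hv
    obtain ⟨hv1, hv2⟩ := mem_inter.1 hv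
    by_contra hvX
    have h3 : v ∈ L ∪ Cs B Q L i0 := by
      rw [← h.QX]
      exact mem_sdiff.2 ⟨hv2, hvX⟩
    rcases mem_union.1 h3 with h4 | h4
    · have : v ∈ B i ∩ L := mem_inter.2 ⟨hv1, h4⟩
      rw [h2.2.2] at this
      exact absurd this (notMem_empty _)
    · have : v ∈ B i ∩ Cs B Q L i0 := mem_inter.2 ⟨hv1, h4⟩
      rw [hiC] at this
      exact absurd this (notMem_empty _)
  have hSc : ((ins B Q ((B i0 ∩ Q) ∪ Vs B Q L i0)).erase i0).card + 1 =
      (ins B Q ((B i0 ∩ Q) ∪ Vs B Q L i0)).card := by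
    refine card_erase_add_one ?_
    rw [mem_ins]
    exact ⟨card_pos.1 (by rw [h.c3]; norm_num), subset_union_left⟩
  have hN1 : ∀ y ∈ Vs B Q L i0, ∀ i, B i ∩ Q = {y} → i ∈ E y := by
    intro y hy' i hi
    have h2 : y ∈ B i ∩ Q := by rw [hi]; exact mem_singleton_self y
    rw [hE1 y hy', mem_Okp]
    refine ⟨(mem_inter.1 h2).1, ?_, ?_⟩
    · rintro rfl
      exact (mem_Vs.1 hy').2.1 (mem_inter.1 h2).1
    · rw [eq_empty_iff_forall_notMem]
      intro v hv
      obtain ⟨hv1, hv2⟩ := mem_inter.1 hv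
      have h3 : v ∈ B i ∩ Q := mem_inter.2 ⟨hv1, h.LQ' hv2⟩
      rw [hi, mem_singleton] at h3
      exact (mem_Vs.1 hy').2.2.1 (h3 ▸ hv2)
  -- the new single blocks
  set Y2 : Finset V := if K0.card = 1 ∧ H + 2 ≤ nu then K0 else ∅ with hY2
  have hY2K : Y2 ⊆ K0 := by
    rw [hY2]
    split_ifs
    · exact Subset.refl _
    · exact empty_subset _
  have hN2 : ∀ y ∈ Y2, 2 ≤ (univ.filter (fun c => N c = {y})).card := by
    intro y hy'
    rw [hY2] at hy'
    split_ifs at hy' with h2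
    · obtain ⟨h2a, h2b⟩ := h2
      obtain ⟨w, hw'⟩ := card_eq_one.1 h2a
      have hyw : K0 = {y} := by
        rw [hw'] at hy' ⊢
        rw [mem_singleton.1 hy']
      have key : ∀ c : ULift.{u} (Fin nu), H ≤ (c.down : ℕ) → N c = {y} := by
        intro c hc
        simp only [hN]
        rw [hyw]
        have h6 : (Vs B Q L i0).filter
            (fun v => ∃ i ∈ Ez B L v, f ⟨v, i⟩ = (c.down : ℕ)) = ∅ := by
          rw [filter_eq_empty_iff]
          rintro v hv ⟨i, hi, hi2⟩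
          have h7 := hf3 _ ((hmP v i).2 ⟨hv, hi⟩)
          omega
        rw [h6, union_empty]
      have h6 : ({⟨⟨H, by omega⟩⟩, ⟨⟨H + 1, by omega⟩⟩} : Finset (ULift.{u} (Fin nu))) ⊆
          univ.filter (fun c => N c = {y}) := by
        intro c hc
        rw [mem_insert, mem_singleton] at hc
        rw [mem_filter]
        refine ⟨mem_univ _, key c ?_⟩
        rcases hc with rfl | rfl
        · exact le_rfl
        · simp
      have h7 := card_le_card h6
      rw [card_pair (by simp)] at h7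
      exact h7
    · exact absurd hy' (notMem_empty _)
  have hcl := hw.closeR h.ih h.ihr (by omega) h.reg h.tr hconn (r := r) (fun hKT => by
      rcases (by omega : K0.card = 1 ∨ K0.card = 2) with h2 | h2
      · exfalso
        have hin := hw.inter_self (Sum.inr ⟨⟨0, by omega⟩⟩)
        have h3 := hKT.trace (hw.reg h.reg) (hw.tr3 h.tr) (i := Sum.inr ⟨⟨0, by omega⟩⟩) (by
          rw [hin]
          exact ⟨k0, mem_absG_inr.2 (hNK k0 hk0 _)⟩)
        rw [hin] at h3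
        have h4 : absG B (Cs B Q L i0) Y E N (Sum.inr ⟨⟨0, by omega⟩⟩) ⊆
            N ⟨⟨0, by omega⟩⟩ := by
          intro v hv
          rwa [mem_absG_inr] at hv
        have h6 := card_le_card h4
        have h9 : (N ⟨⟨0, by omega⟩⟩).card ≤ K0.card + ((Vs B Q L i0).filter
            (fun v => ∃ i ∈ Ez B L v, f ⟨v, i⟩ = 0)).card := by
          simp only [hN]
          exact card_union_le _ _
        have h7 : ((Vs B Q L i0).filter
            (fun v => ∃ i ∈ Ez B L v, f ⟨v, i⟩ = 0)).card ≤ 1 := by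
          rw [card_le_one]
          intro v hv w hw'
          have hv2 := (mem_filter.1 hv).1
          have hw2 := (mem_filter.1 hw').1
          exact huniq ⟨⟨0, by omega⟩⟩ v hv2 w hw2 (mem_union_right _ hv) (mem_union_right _ hw')
        omega
      · rw [h2] at hsvY
        push_cast at hsvY
        linarith) hSsub hrho (by linarith) (subset_union_right : Vs B Q L i0 ⊆ Y)
    (hY2K.trans subset_union_left) (disjoint_of_subset_right hY2K hKV.symm) hN1 hN2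
  have hPv := h.Pv_eqD
  have hee := h.ee_eqD
  have hee' : (ee B Q Q : ℤ) = ee B Q L + ee B Q (Cs B Q L i0) + ee B Q (Vs B Q L i0) := by
    exact_mod_cast hee
  have hSc' : (((ins B Q ((B i0 ∩ Q) ∪ Vs B Q L i0)).erase i0).card : ℤ) + 1 =
      (ins B Q ((B i0 ∩ Q) ∪ Vs B Q L i0)).card := by exact_mod_cast hSc
  have hr' : (rho B Q : ℤ) = rho B L + rho B (Cs B Q L i0) + r := by exact_mod_cast hr
  have hYc' : (Y.card : ℤ) = K0.card + (Vs B Q L i0).card := by exact_mod_cast hYc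
  have hY2c : 2 * (Y2.card : ℤ) = if K0.card = 1 ∧ H + 2 ≤ nu then 2 else 0 := by
    rw [hY2]
    split_ifs with h2
    · rw [h2.1]
      norm_num
    · simp
  rw [hcs, hYc'] at hcl
  rw [hr'] at hPv
  have hdQ : dv B Q Q = Pv B Q - 2 * (ee B Q Q : ℤ) := rfl
  have hdL : dv B Q L = Pv B L - 2 * (ee B Q L : ℤ) := rfl
  rw [hdQ, hdL, ← hY2c]
  linarith

/-- the hits of the contact points. -/
theorem sum_hit (_h : Dlt B Q L i0) :
    ∑ v ∈ Vs B Q L i0, (Ez B L v).card = hit B ((Q \ (B i0 ∩ Q)) \ L) L := by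
  rw [hit_eq_Ez]
  refine sum_subset (filter_subset _ _) fun v hv hv' => ?_
  rw [card_eq_zero, ← not_nonempty_iff_eq_empty]
  exact fun h1 => hv' (mem_filter.2 ⟨hv, h1⟩)

/-- **(S1)**: `L` absorbs the two other points of the triple (or `nu = 5`). -/
theorem s1D (h : Dlt B Q L i0) {t : V} (ht : t ∈ B i0) (htQ : t ∈ Q) {nu : ℕ} (h1 : 1 ≤ nu)
    (h5 : nu ≤ 5) (hy : (Ez B L t).card + 1 ≤ nu)
    (hH : hit B ((Q \ (B i0 ∩ Q)) \ L) L ≤ nu)
    (habs : Abz B L ((B i0 ∩ Q).erase t) ∨ nu = 5) :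
    dv B Q L + 14 + (if hit B ((Q \ (B i0 ∩ Q)) \ L) L + 2 ≤ nu then 2 else 0) ≤
      dv B Q Q + 4 * (nu : ℤ) := by
  classical
  have h2 := h.del (K0 := {t}) (nu := nu) (singleton_subset_iff.2 (mem_inter.2 ⟨ht, htQ⟩))
    (singleton_nonempty t) (by simp) h1 h5 (fun y hy' => by rwa [mem_singleton.1 hy'])
    (by rw [h.sum_hit]; exact hH) (by rwa [sdiff_singleton_eq_erase])
  rw [h.sum_hit, card_singleton] at h2
  have h3 : (if 1 = 1 ∧ hit B ((Q \ (B i0 ∩ Q)) \ L) L + 2 ≤ nu then (2 : ℤ) else 0) =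
      if hit B ((Q \ (B i0 ∩ Q)) \ L) L + 2 ≤ nu then 2 else 0 := by
    by_cases h4 : hit B ((Q \ (B i0 ∩ Q)) \ L) L + 2 ≤ nu
    · rw [if_pos ⟨rfl, h4⟩, if_pos h4]
    · rw [if_neg (fun h5 => h4 h5.2), if_neg h4]
  rw [h3] at h2
  push_cast at h2
  linarith

/-- **(S0)**: the deleted point of the triple is absorbed by `L` (or `nu = 5`). -/
theorem s0D (h : Dlt B Q L i0) {x : V} (hx : x ∈ B i0) (hxQ : x ∈ Q) {nu : ℕ} (h1 : 1 ≤ nu)
    (h5 : nu ≤ 5) (hy : ∀ y ∈ (B i0 ∩ Q).erase x, (Ez B L y).card + 1 ≤ nu)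
    (hH : hit B ((Q \ (B i0 ∩ Q)) \ L) L ≤ nu)
    (habs : Abz B L {x} ∨ nu = 5) :
    dv B Q L + 9 ≤ dv B Q Q + 4 * (nu : ℤ) := by
  classical
  have hxT : x ∈ B i0 ∩ Q := mem_inter.2 ⟨hx, hxQ⟩
  have hc : ((B i0 ∩ Q).erase x).card = 2 := by
    rw [card_erase_of_mem hxT, h.c3]
  have hd : (B i0 ∩ Q) \ (B i0 ∩ Q).erase x = {x} := by
    ext v
    simp only [mem_sdiff, mem_erase, mem_singleton, not_and]
    constructor
    · rintro ⟨h2, h3⟩
      by_contra h4
      exact h3 h4 h2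
    · rintro rfl
      exact ⟨hxT, fun h2 => absurd rfl h2⟩
  have h2 := h.del (K0 := (B i0 ∩ Q).erase x) (nu := nu) (erase_subset _ _)
    (card_pos.1 (by omega)) (by omega) h1 h5 hy
    (by rw [h.sum_hit]; exact hH) (by rwa [hd])
  rw [hc] at h2
  rw [if_neg (by omega)] at h2
  push_cast at h2
  linarith

end Dlt

namespace ViolR

variable {Q L : Finset V} {i0 : ι}

/-- the triple carries no single blocks. -/
theorem eeT (h : ViolR B Q) (hi : (B i0 ∩ Q).card = 3) : ee B Q (B i0 ∩ Q) = 0 := by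
  obtain ⟨X, F, hPX, hv⟩ := h.exists_VCR hi (P := B i0 ∩ Q) inter_subset_right (Subset.refl _)
    (h.rhoT hi)
  have h1 := hv.ee0
  have h2 : ee B Q (B i0 ∩ Q) ≤ ee B Q X := ee_mono hPX
  exact Nat.le_zero.1 (h1 ▸ h2)

/-- a critical set with value `-1` outside a full block. -/
theorem dlt (h : ViolR B Q) (hi : (B i0 ∩ Q).card = 3) (hLQ : L ⊆ Q \ (B i0 ∩ Q))
    (hne : L.Nonempty) (hcr : Crit B L) (hs : sv B L = -1) : Dlt B Q L i0 where
  ih := h.ih
  ihr := h.ihr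
  reg := h.reg
  tr := h.tr
  s1 := h.sv1
  c3 := hi
  connC := (h.lemA hi).1
  eeT := h.eeT hi
  LQ := hLQ
  Lne := hne
  svL := hs
  abs := by
    intro v _ _ _ hvE
    obtain ⟨i, hi'⟩ := hvE
    have h3 := (mem_Ez.1 hi').1
    have h4 := (mem_Ez.1 hi').2
    have h5 : Cov B L := h.cov.mono (hLQ.trans sdiff_subset)
    exact Crit.abz_block hcr h5 h4 (singleton_subset_iff.2 h3)

/-- **(S1)** for violators. -/
theorem s1 (h : ViolR B Q) (hi : (B i0 ∩ Q).card = 3) (hLQ : L ⊆ Q \ (B i0 ∩ Q))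
    (hne : L.Nonempty) (hcr : Crit B L) (hs : sv B L = -1) {t : V} (ht : t ∈ B i0) (htQ : t ∈ Q)
    {nu : ℕ} (h5 : nu ≤ 5) (hy : (Ez B L t).card + 1 ≤ nu)
    (hH : hit B ((Q \ (B i0 ∩ Q)) \ L) L ≤ nu)
    (habs : Abz B L ((B i0 ∩ Q).erase t) ∨ nu = 5) :
    dv B Q L + 15 + (if hit B ((Q \ (B i0 ∩ Q)) \ L) L + 2 ≤ nu then 2 else 0) ≤
      4 * (nu : ℤ) := by
  have h1 := (h.dlt hi hLQ hne hcr hs).s1D ht htQ (by omega) h5 hy hH habs
  have h2 := h.neg
  linarith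

/-- **(S0)** for violators. -/
theorem s0 (h : ViolR B Q) (hi : (B i0 ∩ Q).card = 3) (hLQ : L ⊆ Q \ (B i0 ∩ Q))
    (hne : L.Nonempty) (hcr : Crit B L) (hs : sv B L = -1) {x : V} (hx : x ∈ B i0) (hxQ : x ∈ Q)
    (hxL : (Ez B L x).Nonempty) {nu : ℕ} (h1 : 1 ≤ nu)
    (h5 : nu ≤ 5) (hy : ∀ y ∈ (B i0 ∩ Q).erase x, (Ez B L y).card + 1 ≤ nu)
    (hH : hit B ((Q \ (B i0 ∩ Q)) \ L) L ≤ nu) :
    dv B Q L + 10 ≤ 4 * (nu : ℤ) := by
  obtain ⟨i, hi'⟩ := hxL
  obtain ⟨h3, h4⟩ := mem_Ez.1 hi'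
  have h6 := (h.dlt hi hLQ hne hcr hs).s0D hx hxQ h1 h5 hy hH
    (Or.inl (hcr.abz_block (h.cov.mono (hLQ.trans sdiff_subset)) h4 (singleton_subset_iff.2 h3)))
  have h2 := h.neg
  linarith

/-- **few hits from outside the triple**: no absorption is needed for `nu = 5`. -/
theorem s5 (h : ViolR B Q) (hi : (B i0 ∩ Q).card = 3) (hLQ : L ⊆ Q \ (B i0 ∩ Q))
    (hne : L.Nonempty) (hcr : Crit B L) (hs : sv B L = -1)
    (hH : hit B ((Q \ (B i0 ∩ Q)) \ L) L ≤ 5) :
    dv B Q L + (if hit B ((Q \ (B i0 ∩ Q)) \ L) L ≤ 3 then 2 else 0) ≤ 5 := by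
  obtain ⟨t, ht⟩ := card_pos.1 (by omega : 0 < (B i0 ∩ Q).card)
  obtain ⟨ht1, ht2⟩ := mem_inter.1 ht
  have h0 := h.dlt hi hLQ hne hcr hs
  have h3 := h0.five ht2
  rw [if_pos ht1] at h3
  have h4 := h.s1 hi hLQ hne hcr hs ht1 ht2 (nu := 5) le_rfl (by omega) hH (Or.inr rfl)
  by_cases h6 : hit B ((Q \ (B i0 ∩ Q)) \ L) L ≤ 3
  · rw [if_pos h6]
    rw [if_pos (by omega)] at h4
    push_cast at h4
    linarith
  · rw [if_neg h6]
    rw [if_neg (by omega)] at h4
    push_cast at h4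
    linarith

end ViolR

end Pool.Agent.Hyp6
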