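import Pool.Agent.Hyp6.L3Fpt

/-!
# HYP6 L3Fa: joint absorption by several leaves

Every leaf `L` of a family `A` absorbs a set `X L` of points of some triples of the frame, `Y` are points
of these triples which can be covered together with a part of the even part by less blocks than there are
triples: then the other points have no free transversal outside `A` (`Frm.no_match_abs`,
`Frm.rado_abs`). The strong form of the four point lemma: `a`, `s` joined, the four other points
absorbed by one or two leaves (`Frm.four_abs`, `Frm.four_abs2`); a triple with two points absorbed by one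
leaf (`Frm.three_abs`).
-/

set_option autoImplicit false

namespace Pool.Agent.Hyp6

open Finset Pool.Agent.Hyp5

universe u v

variable {V : Type v} [DecidableEq V] {ι : Type u} [Fintype ι] {B : ι → Finset V}

omit [Fintype ι] in
/-- sets absorbed by the members of a family. -/
theorem rho_abs_le {A : Finset (Finset V)} {X : Finset V → Finset V}
    (hc : ∀ C ∈ A, Cov B (C ∪ X C)) (hX : ∀ C ∈ A, rho B (C ∪ X C) ≤ rho B C) :
    rho B (A.biUnion (fun C => C ∪ X C)) ≤ ∑ C ∈ A, rho B C := by
  classical
  induction A using Finset.induction_on with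
  | empty => simp [rho_empty]
  | insert C A hC ih =>
    have h1 := ih (fun D hD => hc D (mem_insert_of_mem hD)) (fun D hD => hX D (mem_insert_of_mem hD))
    have h2 := hX C (mem_insert_self _ _)
    have h3 : Cov B (A.biUnion (fun C => C ∪ X C)) := by
      intro v hv
      obtain ⟨D, hD, hvD⟩ := mem_biUnion.1 hv
      exact hc D (mem_insert_of_mem hD) v hvD
    have h4 := rho_union_le (B := B) (W := C ∪ X C) (W' := A.biUnion (fun C => C ∪ X C))
      (hc C (mem_insert_self _ _)) h3
    rw [biUnion_insert, sum_insert hC]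
    omega

namespace Frm

variable {Q U : Finset V} {T : Finset ι} {F : Finset (Finset V)} {P : Finset (Finset (Finset V))}
  {τ : Type*} [DecidableEq τ] {Ts : Finset τ} {NT : τ → Finset (Finset V)}

/-- **joint absorption**: the leaves `C` of `A` absorb the sets `X C`, the set `Y` is covered with a
part of the even part: the other points of the triples have no free transversal outside `A`. -/
theorem no_match_abs (h : Frm B Q T U F) {D : Finset V} (hD : Dcl B Q T U F D)
    {A : Finset (Finset V)} (hA : A ⊆ F) {I : Finset ι} (hI : I ⊆ T) {X : Finset V → Finset V}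
    {Y R : Finset V} (hX : ∀ C ∈ A, X C ⊆ Q) (hY : Y ⊆ Q)
    (hAX : ∀ C ∈ A, rho B (C ∪ X C) ≤ rho B C) (hE : rho B (D ∪ Y) + 1 ≤ rho B D + I.card)
    (hcov : ∀ j ∈ I, ∀ v ∈ B j ∩ Q, (∃ C ∈ A, v ∈ X C) ∨ v ∈ Y ∨ v ∈ R)
    (hR : R ⊆ I.biUnion B ∩ Q) {x : V → Finset V}
    (hx : ∀ p ∈ R, x p ∈ slf B F p ∧ x p ∉ A)
    (hinj : ∀ p ∈ R, ∀ q ∈ R, x p = x q → p = q) :
    0 < Sp.dfc U (slf B F) (A ∪ R.image x) := by
  classical
  by_contra hcon
  push Not at hcon
  obtain ⟨g, hg0⟩ := mtI_of_dfc (F := F) hcon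
  have hg : MtI B U (F \ A) g := ⟨fun p hp => by
    obtain ⟨h1, h2⟩ := mem_sdiff.1 (hg0.mem p hp)
    exact mem_sdiff.2 ⟨h1, fun h3 => h2 (mem_union_left _ h3)⟩, hg0.see, hg0.inj⟩
  have h1 := h.cost hA hD (T' := ∅) (empty_subset _) (U' := ∅)
    (empty_subset _) (g' := x) ⟨by simp, by simp, by simp⟩ hI (disjoint_empty_right _)
    (P := A.biUnion X ∪ Y) (R := R) (by
      intro v hv
      rcases mem_union.1 hv with hv | hv
      · obtain ⟨C, hC, hvC⟩ := mem_biUnion.1 hv
        exact hX C hC hvC
      · exact hY hv)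
    (fun j hj v hv => by
      rcases hcov j hj v hv with ⟨C, hC, hvC⟩ | hv | hv
      · exact Or.inl (mem_union_left _ (mem_biUnion.2 ⟨C, hC, hvC⟩))
      · exact Or.inl (mem_union_right _ hv)
      · exact Or.inr hv)
    hR (x := x) hx hinj (by
      rw [sdiff_empty]
      exact hcon)
  have h2 := h.rho_cls hA hD (T' := ∅) (empty_subset _) (U' := ∅) (empty_subset _) (g' := x)
    ⟨by simp, by simp, by simp⟩ (g := g) (by rw [sdiff_empty]; exact hg)
  rw [card_empty, add_zero] at h2
  have hcX : ∀ C ∈ A, Cov B (C ∪ X C) := fun C hC =>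
    (h.covF C (hA hC)).union (h.cov.mono (hX C hC))
  have hcA : Cov B (A.biUnion (fun C => C ∪ X C)) := by
    intro v hv
    obtain ⟨C, hC, hvC⟩ := mem_biUnion.1 hv
    exact hcX C hC v hvC
  have hcY : Cov B (D ∪ Y) := (h.covE.mono hD.sub).union (h.cov.mono hY)
  have h3 : rho B (Zn B Q ∅ ∅ A D ∪ (A.biUnion X ∪ Y)) ≤
      rho B (A.biUnion (fun C => C ∪ X C) ∪ (D ∪ Y)) := by
    refine rho_mono ?_ (hcA.union hcY)
    intro v hv
    rcases mem_union.1 hv with hv | hv
    · rcases mem_Zn.1 hv with ⟨j, hj, _⟩ | hv | ⟨C, hC, hvC⟩ | hv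
      · exact absurd hj (notMem_empty _)
      · exact absurd hv (notMem_empty _)
      · exact mem_union_left _ (mem_biUnion.2 ⟨C, hC, mem_union_left _ hvC⟩)
      · exact mem_union_right _ (mem_union_left _ hv)
    · rcases mem_union.1 hv with hv | hv
      · obtain ⟨C, hC, hvC⟩ := mem_biUnion.1 hv
        exact mem_union_left _ (mem_biUnion.2 ⟨C, hC, mem_union_right _ hvC⟩)
      · exact mem_union_right _ (mem_union_right _ hv)
  have h4 := rho_union_le hcA hcY
  have h5 := rho_abs_le hcX hAX
  omega

omit [DecidableEq τ] in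
/-- **Rado form** of joint absorption: every leaf of `A` counts as one more point which sees only this
leaf. -/
theorem rado_abs (h : Frm B Q T U F) (hg : Sp.Gd F F U (slf B F) Ts NT)
    (hP : Sp.MinP F F U (slf B F) Ts NT P) {D : Finset V} (hD : Dcl B Q T U F D)
    {A : Finset (Finset V)} (hA : A ⊆ F) {I : Finset ι} (hI : I ⊆ T) {X : Finset V → Finset V}
    {Y R : Finset V} (hX : ∀ C ∈ A, X C ⊆ Q) (hY : Y ⊆ Q)
    (hAX : ∀ C ∈ A, rho B (C ∪ X C) ≤ rho B C) (hE : rho B (D ∪ Y) + 1 ≤ rho B D + I.card)
    (hcov : ∀ j ∈ I, ∀ v ∈ B j ∩ Q, (∃ C ∈ A, v ∈ X C) ∨ v ∈ Y ∨ v ∈ R)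
    (hR : R ⊆ I.biUnion B ∩ Q) (hne : A.Nonempty ∨ R.Nonempty) :
    ∃ K1 ⊆ A, ∃ K2 ⊆ R, (K1.Nonempty ∨ K2.Nonempty) ∧
      Sp.rkn (Sp.nP U (slf B F) P) (K1.biUnion (fun C => Sp.met P {C}) ∪ K2.biUnion (mcl B F P)) + 1
        ≤ (K1.card : ℤ) + (K2.card : ℤ) := by
  classical
  set S : Finset (Finset V ⊕ V) := A.image Sum.inl ∪ R.image Sum.inr with hS
  have hSA : ∀ C ∈ A, (Sum.inl C : Finset V ⊕ V) ∈ S := fun C hC =>
    mem_union_left _ (mem_image_of_mem _ hC)
  have hSR : ∀ p ∈ R, (Sum.inr p : Finset V ⊕ V) ∈ S := fun p hp =>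
    mem_union_right _ (mem_image_of_mem _ hp)
  have hSne : S.Nonempty := by
    rcases hne with ⟨C, hC⟩ | ⟨p, hp⟩
    · exact ⟨_, hSA C hC⟩
    · exact ⟨_, hSR p hp⟩
  obtain ⟨K, hKS, hKne, hK⟩ := hP.rado hg hSne
    (A := fun q : Finset V ⊕ V => Sum.elim (fun C => {C}) (slf B F) q) (by
      intro x hx hinj
      have hxA : ∀ C ∈ A, x (Sum.inl C) = C := by
        intro C hC
        have h1 := hx _ (hSA C hC)
        simpa using h1
      have h1 := h.no_match_abs hD hA hI hX hY hAX hE hcov hR (x := fun p => x (Sum.inr p)) (by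
        intro p hp
        refine ⟨by simpa using hx _ (hSR p hp), fun hpA => ?_⟩
        have h2 := hinj _ (hSR p hp) _ (hSA _ hpA) (hxA _ hpA).symm
        exact absurd h2 (by simp)) (by
        intro p hp q hq he
        have h2 := hinj _ (hSR p hp) _ (hSR q hq) he
        simpa using h2)
      have h2 : S.image x = A ∪ R.image (fun p => x (Sum.inr p)) := by
        rw [hS, image_union, image_image, image_image]
        congr 1
        ext C
        simp only [mem_image, Function.comp]
        constructor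
        · rintro ⟨D, hD, rfl⟩
          rw [hxA D hD]
          exact hD
        · intro hC
          exact ⟨C, hC, hxA C hC⟩
      rw [h2]
      exact h1)
  refine ⟨A.filter (fun C => Sum.inl C ∈ K), filter_subset _ _,
    R.filter (fun p => Sum.inr p ∈ K), filter_subset _ _, ?_, ?_⟩
  · obtain ⟨q, hq⟩ := hKne
    rcases mem_union.1 (hKS hq) with h1 | h1
    · obtain ⟨C, hC, rfl⟩ := mem_image.1 h1
      exact Or.inl ⟨C, mem_filter.2 ⟨hC, hq⟩⟩
    · obtain ⟨p, hp, rfl⟩ := mem_image.1 h1
      exact Or.inr ⟨p, mem_filter.2 ⟨hp, hq⟩⟩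
  · have h1 : K = (A.filter (fun C => Sum.inl C ∈ K)).image Sum.inl ∪
        (R.filter (fun p => Sum.inr p ∈ K)).image Sum.inr := by
      ext q
      simp only [mem_union, mem_image, mem_filter]
      constructor
      · intro hq
        rcases mem_union.1 (hKS hq) with h1 | h1
        · obtain ⟨C, hC, rfl⟩ := mem_image.1 h1
          exact Or.inl ⟨C, ⟨hC, hq⟩, rfl⟩
        · obtain ⟨p, hp, rfl⟩ := mem_image.1 h1
          exact Or.inr ⟨p, ⟨hp, hq⟩, rfl⟩
      · rintro (⟨C, ⟨_, h2⟩, rfl⟩ | ⟨p, ⟨_, h2⟩, rfl⟩) <;> exact h2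
    have h2 : (K.card : ℤ) = ((A.filter (fun C => Sum.inl C ∈ K)).card : ℤ) +
        ((R.filter (fun p => Sum.inr p ∈ K)).card : ℤ) := by
      conv_lhs => rw [h1]
      rw [card_union_of_disjoint, card_image_of_injective _ Sum.inl_injective,
        card_image_of_injective _ Sum.inr_injective]
      · push_cast
        rfl
      · rw [disjoint_left]
        intro q hq hq'
        obtain ⟨C, _, rfl⟩ := mem_image.1 hq
        obtain ⟨p, _, h3⟩ := mem_image.1 hq'
        exact absurd h3 (by simp)
    have h3 : K.biUnion (fun p => Sp.met P (Sum.elim (fun C => {C}) (slf B F) p)) =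
        (A.filter (fun C => Sum.inl C ∈ K)).biUnion (fun C => Sp.met P {C}) ∪
        (R.filter (fun p => Sum.inr p ∈ K)).biUnion (mcl B F P) := by
      conv_lhs => rw [h1]
      rw [union_biUnion, image_biUnion, image_biUnion]
      rfl
    rw [h3] at hK
    rw [h2] at hK
    exact hK

/-- **a triple with two points absorbed by a leaf `M`**: the third point sees no leaf `L` with
`{M, L}` free. -/
theorem three_abs (h : Frm B Q T U F) {j : ι} (hj : j ∈ T) {M : Finset V} (hM : M ∈ F) {X : Finset V}
    (hX : X ⊆ Q) (hMX : rho B (M ∪ X) ≤ rho B M) {p : V} (hT : B j ∩ Q ⊆ insert p X)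
    (hp : p ∈ B j ∩ Q) {L : Finset V} (hL : L ∈ slf B F p) (hLM : L ≠ M) :
    0 < Sp.dfc U (slf B F) {M, L} := by
  classical
  have h1 := h.no_match_abs (Dcl.empty) (A := {M}) (singleton_subset_iff.2 hM) (I := {j})
    (singleton_subset_iff.2 hj) (X := fun _ => X) (Y := ∅) (R := {p}) (fun _ _ => hX)
    (empty_subset _) (by
      intro C hC
      rw [mem_singleton.1 hC]
      exact hMX) (by simp [rho_empty]) (by
      intro k hk v hv
      rw [mem_singleton.1 hk] at hv
      rcases mem_insert.1 (hT hv) with h2 | h2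
      · exact Or.inr (Or.inr (mem_singleton.2 h2))
      · exact Or.inl ⟨M, mem_singleton_self M, h2⟩) (by
      rw [singleton_subset_iff, singleton_biUnion]
      exact hp) (x := fun _ => L) (by
      intro q hq
      rw [mem_singleton.1 hq]
      exact ⟨hL, by rw [mem_singleton]; exact hLM⟩) (by
      intro q hq q' hq' _
      rw [mem_singleton.1 hq, mem_singleton.1 hq'])
  rwa [image_singleton, singleton_union] at h1

/-- **strong four point lemma, one leaf**: `a`, `s` are joined, `M` absorbs a set `X` with all but two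
points `p`, `q` of the two triples: no free leaves `L`, `L'` seen by `p`, `q` with `{M, L, L'}`
free. -/
theorem four_abs (h : Frm B Q T U F) {D : Finset V} (hD : Dcl B Q T U F D) {i j : ι}
    (hi : i ∈ T) (hj : j ∈ T) (hij : i ≠ j) {a s : V} (haQ : a ∈ Q) (hsQ : s ∈ Q)
    (hE : rho B (D ∪ {a, s}) ≤ rho B D + 1)
    {M : Finset V} (hM : M ∈ F) {X : Finset V} (hX : X ⊆ Q) (hMX : rho B (M ∪ X) ≤ rho B M)
    {p q : V} (hpq : p ≠ q) (hp : p ∈ (B i ∪ B j) ∩ Q) (hq : q ∈ (B i ∪ B j) ∩ Q)
    (hT : (B i ∪ B j) ∩ Q ⊆ {a, s, p, q} ∪ X) {L L' : Finset V} (hL : L ∈ slf B F p)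
    (hL' : L' ∈ slf B F q) (hLM : L ≠ M) (hLM' : L' ≠ M) (hLL : L ≠ L') :
    0 < Sp.dfc U (slf B F) {M, L, L'} := by
  classical
  set x : V → Finset V := fun v => if v = p then L else L' with hx
  have e1 : x p = L := by simp [hx]
  have e2 : x q = L' := by simp [hx, hpq.symm]
  have h1 := h.no_match_abs hD (A := {M}) (singleton_subset_iff.2 hM) (I := {i, j})
    (by
      intro k hk
      rw [mem_insert, mem_singleton] at hk
      rcases hk with rfl | rfl <;> assumption) (X := fun _ => X) (Y := {a, s}) (R := {p, q})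
    (fun _ _ => hX) (by
      intro v hv
      rw [mem_insert, mem_singleton] at hv
      rcases hv with rfl | rfl <;> assumption) (by
      intro C hC
      rw [mem_singleton.1 hC]
      exact hMX) (by
      rw [card_pair hij]
      omega) (by
      intro k hk v hv
      have hv2 : v ∈ (B i ∪ B j) ∩ Q := by
        rw [mem_insert, mem_singleton] at hk
        rcases hk with rfl | rfl
        · exact mem_inter.2 ⟨mem_union_left _ (mem_inter.1 hv).1, (mem_inter.1 hv).2⟩
        · exact mem_inter.2 ⟨mem_union_right _ (mem_inter.1 hv).1, (mem_inter.1 hv).2⟩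
      rcases mem_union.1 (hT hv2) with h2 | h2
      · simp only [mem_insert, mem_singleton] at h2
        rcases h2 with rfl | rfl | rfl | rfl
        · exact Or.inr (Or.inl (by simp))
        · exact Or.inr (Or.inl (by simp))
        · exact Or.inr (Or.inr (by simp))
        · exact Or.inr (Or.inr (by simp))
      · exact Or.inl ⟨M, mem_singleton_self M, h2⟩) (by
      intro v hv
      rw [biUnion_insert, singleton_biUnion]
      rw [mem_insert, mem_singleton] at hv
      rcases hv with rfl | rfl <;> assumption) (x := x) (by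
      intro v hv
      rw [mem_insert, mem_singleton] at hv
      rcases hv with rfl | rfl
      · rw [e1, mem_singleton]
        exact ⟨hL, hLM⟩
      · rw [e2, mem_singleton]
        exact ⟨hL', hLM'⟩) (by
      intro v hv w hw he
      rw [mem_insert, mem_singleton] at hv hw
      rcases hv with rfl | rfl <;> rcases hw with rfl | rfl
      · rfl
      · rw [e1, e2] at he
        exact absurd he hLL
      · rw [e1, e2] at he
        exact absurd he.symm hLL
      · rfl)
  rwa [image_insert, image_singleton, e1, e2, singleton_union] at h1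

/-- **strong four point lemma, two leaves**: `a`, `s` are joined, `M`, `M'` absorb sets `X`, `X'`
with the other four points of the two triples: `{M, M'}` is not free. -/
theorem four_abs2 (h : Frm B Q T U F) {D : Finset V} (hD : Dcl B Q T U F D) {i j : ι}
    (hi : i ∈ T) (hj : j ∈ T) (hij : i ≠ j) {a s : V} (haQ : a ∈ Q) (hsQ : s ∈ Q)
    (hE : rho B (D ∪ {a, s}) ≤ rho B D + 1)
    {M M' : Finset V} (hM : M ∈ F) (hM' : M' ∈ F) (hMM : M ≠ M') {X X' : Finset V} (hX : X ⊆ Q)
    (hX' : X' ⊆ Q) (hMX : rho B (M ∪ X) ≤ rho B M) (hMX' : rho B (M' ∪ X') ≤ rho B M')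
    (hT : (B i ∪ B j) ∩ Q ⊆ {a, s} ∪ (X ∪ X')) : 0 < Sp.dfc U (slf B F) {M, M'} := by
  classical
  have h1 := h.no_match_abs hD (A := {M, M'}) (by
      intro C hC
      rw [mem_insert, mem_singleton] at hC
      rcases hC with rfl | rfl <;> assumption) (I := {i, j})
    (by
      intro k hk
      rw [mem_insert, mem_singleton] at hk
      rcases hk with rfl | rfl <;> assumption) (X := fun C => if C = M then X else X')
    (Y := {a, s}) (R := ∅)
    (fun C _ => by
      show (if C = M then X else X') ⊆ Q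
      split_ifs <;> assumption) (by
      intro v hv
      rw [mem_insert, mem_singleton] at hv
      rcases hv with rfl | rfl <;> assumption) (by
      intro C hC
      rw [mem_insert, mem_singleton] at hC
      rcases hC with rfl | rfl
      · rw [if_pos rfl]
        exact hMX
      · rw [if_neg hMM.symm]
        exact hMX') (by
      rw [card_pair hij]
      omega) (by
      intro k hk v hv
      have hv2 : v ∈ (B i ∪ B j) ∩ Q := by
        rw [mem_insert, mem_singleton] at hk
        rcases hk with rfl | rfl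
        · exact mem_inter.2 ⟨mem_union_left _ (mem_inter.1 hv).1, (mem_inter.1 hv).2⟩
        · exact mem_inter.2 ⟨mem_union_right _ (mem_inter.1 hv).1, (mem_inter.1 hv).2⟩
      rcases mem_union.1 (hT hv2) with h2 | h2
      · exact Or.inr (Or.inl h2)
      · rcases mem_union.1 h2 with h3 | h3
        · exact Or.inl ⟨M, by simp, by rw [if_pos rfl]; exact h3⟩
        · exact Or.inl ⟨M', by simp, by rw [if_neg hMM.symm]; exact h3⟩) (empty_subset _)
    (x := fun _ => M) (by simp) (by simp)
  rwa [image_empty, union_empty] at h1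

end Frm

end Pool.Agent.Hyp6
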