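import Pool.Agent.Hyp6.Gdw2
import Pool.Agent.Hyp6.L3Dl
import Pool.Agent.Hyp6.L3Fa

/-!
# HYP6 GDW3: the given clauses of the tables

`Frm.nab`: a leaf does not absorb a triple. `okg`: the test of a given clause; `Lbl.given`: these
clauses hold. `Lbl.no`: a checked instance of a leaf does not occur. `Lbl.s0`: the condition `S0`.
-/

set_option autoImplicit false

namespace Pool.Agent.Hyp6

open Finset Pool.Agent.Hyp5 Gdx Rup

universe u v

variable {V : Type v} [DecidableEq V] {ι : Type u} [Fintype ι] {B : ι → Finset V}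

/-- **a leaf does not absorb a triple**. -/
theorem Frm.nab [DecidableEq ι] {Q U L : Finset V} {T : Finset ι} {F : Finset (Finset V)}
    (h : Frm B Q T U F) {j : ι} (hj : j ∈ T) (hL : L ∈ F) :
    ¬ rho B (L ∪ (B j ∩ Q)) ≤ rho B L := by
  classical
  intro habs
  have h1 := h.no_match_abs (Dcl.empty) (A := {L}) (singleton_subset_iff.2 hL) (I := {j})
    (singleton_subset_iff.2 hj) (X := fun _ => B j ∩ Q) (Y := ∅) (R := ∅)
    (fun _ _ => inter_subset_right) (empty_subset _) (by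
      intro C hC
      rw [mem_singleton.1 hC]
      exact habs) (by simp [rho_empty]) (by
      intro k hk v hv
      rw [mem_singleton.1 hk] at hv
      exact Or.inl ⟨L, mem_singleton_self L, hv⟩) (empty_subset _) (x := fun _ => ∅)
    (fun p hp => absurd hp (notMem_empty _)) (fun p hp => absurd hp (notMem_empty _))
  rw [image_empty, union_empty] at h1
  have h2 : Sp.dfc U (slf B F) {L} ≤ 0 := by
    refine Sp.dfc_le fun Z hZ => ?_
    rcases Z.eq_empty_or_nonempty with rfl | hne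
    · simp
    · have h3 := h.ge.surplus Z hZ hne
      have h4 : nbF (gr B) F Z ⊆ Z.biUnion (slf B F) := by
        intro C hC
        obtain ⟨h5, z, hz, y, hy, hzy⟩ := mem_nbF.1 hC
        exact mem_biUnion.2 ⟨z, hz, mem_slf.2 ⟨h5, y, hy, hzy⟩⟩
      have h5 := card_le_card h4
      have h6 : (Z.biUnion (slf B F)).card ≤ (Z.biUnion (slf B F) \ {L}).card + 1 := by
        have h7 := card_le_card_sdiff_add_card (s := Z.biUnion (slf B F))
          (t := ({L} : Finset (Finset V)))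
        rw [card_singleton] at h7
        exact h7
      omega
  linarith

/-- the test of the condition `S1` for the label `a` of the triple. -/
def s1t (d0 : ℕ) (hT hW : List ℕ) (a : ℕ) : Bool :=
  decide (max (hT.getD a 0 + 1) hW.sum ≤ 5) &&
    decide (4 * max (hT.getD a 0 + 1) hW.sum <
      d0 + 5 + (if hW.sum + 2 ≤ max (hT.getD a 0 + 1) hW.sum then 2 else 0))

/-- the test of a given clause: the triple is not absorbed, or `S1`. -/
def okg (d0 : ℕ) (hT hW : List ℕ) (c : List ℕ) : Bool :=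
  decide (c = [ng (vA 7)]) || (decide (c = [ng (vA 3)]) && s1t d0 hT hW 2) ||
    (decide (c = [ng (vA 5)]) && s1t d0 hT hW 1) || (decide (c = [ng (vA 6)]) && s1t d0 hT hW 0)

/-- the masks of the pairs of a triple. -/
theorem Lbl.ptm_pair {Q Z : Finset V} {j : ι} {hT hW : List ℕ} {ct : ℕ → V}
    (hl : Lbl B Q Z j hT hW ct) {S a : ℕ} (ha : a < 3) (hS : S = 7 - 2 ^ a) :
    ptm ct (3 + hW.length) S = (B j ∩ Q).erase (ct a) := by
  classical
  have hbit : ∀ b, S.testBit b = true ↔ b < 3 ∧ b ≠ a := by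
    have h1 : S < 8 := by
      rw [hS]
      exact lt_of_le_of_lt (Nat.sub_le _ _) (by norm_num)
    intro b
    rcases Nat.lt_or_ge b 3 with hb | hb
    · have h3 : a = 0 ∨ a = 1 ∨ a = 2 := by omega
      have h4 : b = 0 ∨ b = 1 ∨ b = 2 := by omega
      subst hS
      rcases h3 with rfl | rfl | rfl <;> rcases h4 with rfl | rfl | rfl <;> decide
    · have h4 : S.testBit b = false := Nat.testBit_lt_two_pow (lt_of_lt_of_le
        (show S < 2 ^ 3 from h1) (Nat.pow_le_pow_right (by norm_num) (by omega)))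
      rw [h4]
      constructor
      · intro h5
        exact absurd h5 (by simp)
      · rintro ⟨h5, _⟩
        omega
  ext v
  rw [mem_ptm, mem_erase, hl.trip]
  constructor
  · rintro ⟨b, hb, hb1, rfl⟩
    obtain ⟨h2, h3⟩ := (hbit b).1 hb1
    exact ⟨fun h4 => h3 (hl.inj b hb a (by omega) h4), b, h2, rfl⟩
  · rintro ⟨h1, b, hb, rfl⟩
    refine ⟨b, by omega, (hbit b).2 ⟨hb, fun h2 => h1 (by rw [h2])⟩, rfl⟩

/-- **the given clauses hold**. -/
theorem Lbl.given [DecidableEq ι] {Q U L : Finset V} {T : Finset ι} {F : Finset (Finset V)}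
    (h : Frm B Q T U F) (hv : ViolR B Q) (hL : L ∈ F) {j : ι} (hj : j ∈ T) {hT hW : List ℕ}
    {ct : ℕ → V} (hl : Lbl B Q L j hT hW ct) {zn r d0 pz : ℕ} {zm : List ℕ} {bl : ℕ → ι}
    (hd : (d0 : ℤ) ≤ dv B Q L + 10) {c : List ℕ} (hc : okg d0 hT hW c = true) :
    Sat (gval B Q L (Pgx zn r d0 pz zm hT hW) bl ct) c := by
  classical
  have hkey : ∀ S, ¬ rho B (L ∪ ptm ct (3 + hW.length) S) ≤ rho B L → c = [ng (vA S)] →
      Sat (gval B Q L (Pgx zn r d0 pz zm hT hW) bl ct) c := by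
    intro S h1 h2
    subst h2
    refine ⟨_, List.mem_singleton_self _, ?_⟩
    rw [lit_ng, gval_A]
    exact h1
  have hLQ := h.FQ hL
  have hd' : Disjoint L (B j ∩ Q) := disjoint_left.2 fun v hvL hvT =>
    (h.T_out hj hvT).2 L hL hvL
  have hs1 : ∀ a < 3, s1t d0 hT hW a = true → ∀ S, S = 7 - 2 ^ a →
      ¬ rho B (L ∪ ptm ct (3 + hW.length) S) ≤ rho B L := by
    intro a ha ht S hS habs
    rw [hl.ptm_pair ha hS] at habs
    unfold s1t at ht
    simp only [Bool.and_eq_true, decide_eq_true_eq] at ht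
    obtain ⟨ht1, ht2⟩ := ht
    have hca : ct a ∈ B j ∩ Q := (hl.trip _).2 ⟨a, ha, rfl⟩
    have hez : (Ez B L (ct a)).card = hT.getD a 0 := by
      rw [hl.hits a (by omega), List.getD_append _ _ _ _ (by rw [hl.lenT]; exact ha)]
    have hset : (Q \ (B j ∩ Q)) \ L = (Q \ L) \ B j := by
      ext v
      simp only [mem_sdiff, mem_inter]
      tauto
    have hH : hit B ((Q \ (B j ∩ Q)) \ L) L = hW.sum := by rw [hset, hl.sumW]
    have hab : Abz B L ((B j ∩ Q).erase (ct a)) := by
      obtain ⟨T0, h1, h2⟩ := exists_cover (B := B) (W := L ∪ (B j ∩ Q).erase (ct a))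
        (hv.cov.mono (union_subset hLQ ((erase_subset _ _).trans inter_subset_right)))
      exact ⟨T0, h1, by rw [h2]; exact habs⟩
    have h3 := hv.s1 (h.full hj) (fun v hv' => mem_sdiff.2 ⟨hLQ hv', fun h4 =>
      disjoint_left.1 hd' hv' h4⟩) (h.ge.sys.fc L hL).1
      (fun v hv' => le_antisymm (rho_erase_fc (h.ge.sys.fc L hL) (h.sv_leaf hL) hv')
        (rho_le_erase (x := v) (h.cov.mono hLQ))) (h.sv_leaf hL) (mem_inter.1 hca).1
      (mem_inter.1 hca).2 (nu := max (hT.getD a 0 + 1) hW.sum) ht1 (by rw [hez]; omega)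
      (by rw [hH]; omega) (Or.inl hab)
    rw [hH] at h3
    split_ifs at h3 ht2 <;> omega
  unfold okg at hc
  simp only [Bool.or_eq_true, Bool.and_eq_true, decide_eq_true_eq] at hc
  rcases hc with ((hc | hc) | hc) | hc
  · refine hkey 7 ?_ hc
    have h7 : ptm ct (3 + hW.length) 7 = B j ∩ Q := by
      ext v
      rw [mem_ptm, hl.trip]
      constructor
      · rintro ⟨b, _, hb1, rfl⟩
        refine ⟨b, ?_, rfl⟩
        by_contra h3
        have h4 : (7 : ℕ).testBit b = false := Nat.testBit_lt_two_pow (lt_of_lt_of_le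
          (by norm_num : (7 : ℕ) < 2 ^ 3) (Nat.pow_le_pow_right (by norm_num) (by omega)))
        rw [h4] at hb1
        exact absurd hb1 (by simp)
      · rintro ⟨b, hb, rfl⟩
        refine ⟨b, by omega, ?_, rfl⟩
        have h3 : b = 0 ∨ b = 1 ∨ b = 2 := by omega
        rcases h3 with rfl | rfl | rfl <;> decide
    rw [h7]
    exact h.nab hj hL
  · exact hkey 3 (hs1 2 (by norm_num) hc.2 3 (by norm_num)) hc.1
  · exact hkey 5 (hs1 1 (by norm_num) hc.2 5 (by norm_num)) hc.1
  · exact hkey 6 (hs1 0 (by norm_num) hc.2 6 (by norm_num)) hc.1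

/-- **a checked instance of a leaf does not occur**. -/
theorem Lbl.no [DecidableEq ι] {Q U L : Finset V} {T : Finset ι} {F : Finset (Finset V)}
    (h : Frm B Q T U F) (hv : ViolR B Q) (hL : L ∈ F) {j : ι} (hj : j ∈ T) {hT hW : List ℕ}
    {ct zt : ℕ → V} (hl : Lbl B Q L j hT hW ct) {zn r d0 pz : ℕ} {zm : List ℕ} {bl : ℕ → ι}
    (hg : Gdx.Gx B Q L (Pgx zn r d0 pz zm hT hW) bl ct zt (fun _ => j))
    {given : List (List ℕ)} (hgv : given.all (okg d0 hT hW) = true) {bs : List Gb} {ks : List Gk}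
    {nm db : Tr} {cnf : List (List ℕ)} {prf : List ℕ}
    (hb : instX (Pgx zn r d0 pz zm hT hW) given bs ks nm cnf db prf = true) : False :=
  hg.no (fun c hc => hl.given h hv hL hj hg.d0 (List.all_eq_true.1 hgv c hc)) hb

/-- the test of the condition `S0`: the label `a` is deleted. -/
def s0t (d0 : ℕ) (hT hW : List ℕ) : Bool :=
  decide (1 ≤ hT.getD 0 0) &&
    decide (max (max (hT.getD 1 0 + 1) (hT.getD 2 0 + 1)) hW.sum ≤ 5) &&
    decide (4 * max (max (hT.getD 1 0 + 1) (hT.getD 2 0 + 1)) hW.sum < d0)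

/-- **the condition `S0`**: the first point of the triple is deleted. -/
theorem Lbl.s0 [DecidableEq ι] {Q U L : Finset V} {T : Finset ι} {F : Finset (Finset V)}
    (h : Frm B Q T U F) (hv : ViolR B Q) (hL : L ∈ F) {j : ι} (hj : j ∈ T) {hT hW : List ℕ}
    {ct : ℕ → V} (hl : Lbl B Q L j hT hW ct) {d0 : ℕ} (hd : (d0 : ℤ) ≤ dv B Q L + 10)
    (ht : s0t d0 hT hW = true) : False := by
  classical
  have hLQ := h.FQ hL
  have hd' : Disjoint L (B j ∩ Q) := disjoint_left.2 fun v hvL hvT =>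
    (h.T_out hj hvT).2 L hL hvL
  unfold s0t at ht
  simp only [Bool.and_eq_true, decide_eq_true_eq] at ht
  obtain ⟨⟨ht0, ht1⟩, ht2⟩ := ht
  have hez : ∀ a < 3, (Ez B L (ct a)).card = hT.getD a 0 := by
    intro a ha
    rw [hl.hits a (by omega), List.getD_append _ _ _ _ (by rw [hl.lenT]; exact ha)]
  have hset : (Q \ (B j ∩ Q)) \ L = (Q \ L) \ B j := by
    ext v
    simp only [mem_sdiff, mem_inter]
    tauto
  have hH : hit B ((Q \ (B j ∩ Q)) \ L) L = hW.sum := by rw [hset, hl.sumW]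
  have hc0 : ct 0 ∈ B j ∩ Q := (hl.trip _).2 ⟨0, by norm_num, rfl⟩
  have h3 := hv.s0 (h.full hj) (fun v hv' => mem_sdiff.2 ⟨hLQ hv', fun h4 =>
    disjoint_left.1 hd' hv' h4⟩) (h.ge.sys.fc L hL).1
      (fun v hv' => le_antisymm (rho_erase_fc (h.ge.sys.fc L hL) (h.sv_leaf hL) hv')
        (rho_le_erase (x := v) (h.cov.mono hLQ))) (h.sv_leaf hL) (mem_inter.1 hc0).1
    (mem_inter.1 hc0).2 (card_pos.1 (by rw [hez 0 (by norm_num)]; exact ht0))
    (nu := max (max (hT.getD 1 0 + 1) (hT.getD 2 0 + 1)) hW.sum) (by omega) ht1 (by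
      intro y hy
      obtain ⟨hy1, hy2⟩ := mem_erase.1 hy
      obtain ⟨a, ha, rfl⟩ := (hl.trip y).1 hy2
      have h4 : a = 1 ∨ a = 2 := by
        have : a ≠ 0 := by
          rintro rfl
          exact hy1 rfl
        omega
      rw [hez a ha]
      rcases h4 with rfl | rfl <;> omega) (by rw [hH]; omega)
  omega

end Pool.Agent.Hyp6
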