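import Pool.Agent.Hyp6.JCE

/-!
# HYP6 L3WR: rewiring

The set `C` together with new points `Y`; the point `y` keeps the old blocks of `E y` (they may or may
not meet `C`), and `N` is a family of new blocks inside `Y`. In contrast to `AbsData` the old blocks of
the new points need not meet `C`, and a new point may have no old block; the price is the number of old
blocks which meet only new points.
-/

set_option autoImplicit false

namespace Pool.Agent.Hyp6

open Finset Pool.Agent.Hyp5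

universe u v

section

variable {V : Type*} [DecidableEq V] {ι : Type*} {κ : Type*} [Fintype κ]

open Classical in
/-- the data of a rewiring. -/
structure Wir (B : ι → Finset V) (Q C Y : Finset V) (E : V → Finset ι)
    (N : κ → Finset V) : Prop where
  CQ : C ⊆ Q
  YQ : Y ⊆ Q
  dis : Disjoint C Y
  mem : ∀ y ∈ Y, ∀ i ∈ E y, y ∈ B i
  subN : ∀ c, N c ⊆ Y
  deg : ∀ y ∈ Y, (E y).card + (univ.filter (fun c => y ∈ N c)).card = 5
  sizeN : ∀ c, (N c).card ≤ 3

variable {B : ι → Finset V} {Q C Y : Finset V} {E : V → Finset ι} {N : κ → Finset V}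

theorem Wir.notMem (h : Wir B Q C Y E N) {v : V} (hv : v ∈ C) : v ∉ Y :=
  fun h' => disjoint_left.1 h.dis hv h'

theorem Wir.notMem' (h : Wir B Q C Y E N) {v : V} (hv : v ∈ Y) : v ∉ C :=
  fun h' => disjoint_left.1 h.dis h' hv

theorem Wir.mem_C (h : Wir B Q C Y E N) {v : V} (hv : v ∈ C) {k : ι ⊕ κ} :
    v ∈ absG B C Y E N k ↔ ∃ i, k = Sum.inl i ∧ v ∈ B i := by
  rcases k with i | c
  · rw [mem_absG_inl]
    constructor
    · rintro (h1 | h1)
      · exact ⟨i, rfl, h1.1⟩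
      · exact absurd h1.1 (h.notMem hv)
    · rintro ⟨j, hj, hvj⟩
      have : i = j := Sum.inl.inj hj
      subst this
      exact Or.inl ⟨hvj, hv⟩
  · rw [mem_absG_inr]
    constructor
    · intro h1
      exact absurd (h.subN c h1) (h.notMem hv)
    · rintro ⟨j, hj, _⟩
      exact absurd hj (by simp)

theorem Wir.mem_Y (h : Wir B Q C Y E N) {v : V} (hv : v ∈ Y) {k : ι ⊕ κ} :
    v ∈ absG B C Y E N k ↔ (∃ i ∈ E v, k = Sum.inl i) ∨ ∃ c, k = Sum.inr c ∧ v ∈ N c := by
  rcases k with i | c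
  · rw [mem_absG_inl]
    constructor
    · rintro (h1 | h1)
      · exact absurd h1.2 (h.notMem' hv)
      · exact Or.inl ⟨i, h1.2, rfl⟩
    · rintro (⟨j, hj, hk⟩ | ⟨c, hc, _⟩)
      · have : i = j := Sum.inl.inj hk
        subst this
        exact Or.inr ⟨hv, hj⟩
      · exact absurd hc (by simp)
  · rw [mem_absG_inr]
    constructor
    · intro h1
      exact Or.inr ⟨c, rfl, h1⟩
    · rintro (⟨j, _, hj⟩ | ⟨d, hd, hvd⟩)
      · exact absurd hj (by simp)
      · have : c = d := Sum.inr.inj hd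
        subst this
        exact hvd

/-- the old blocks of the new system are parts of the old traces. -/
theorem Wir.sub_old (h : Wir B Q C Y E N) (i : ι) :
    absG B C Y E N (Sum.inl i) ⊆ B i ∩ (C ∪ Y) := by
  intro v hv
  rw [mem_absG_inl] at hv
  rw [mem_inter, mem_union]
  rcases hv with h1 | h1
  · exact ⟨h1.1, Or.inl h1.2⟩
  · exact ⟨h.mem v h1.1 i h1.2, Or.inr h1.1⟩

theorem Wir.inter_self (h : Wir B Q C Y E N) (k : ι ⊕ κ) :
    absG B C Y E N k ∩ (C ∪ Y) = absG B C Y E N k := by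
  refine inter_eq_left.2 fun v hv => ?_
  rcases k with i | c
  · exact (mem_inter.1 (h.sub_old i hv)).2
  · rw [mem_absG_inr] at hv
    exact mem_union_right _ (h.subN c hv)

theorem Wir.tr3 (h : Wir B Q C Y E N) (h3 : Tr3 B Q) : Tr3 (absG B C Y E N) (C ∪ Y) := by
  rintro (i | c)
  · rw [h.inter_self]
    refine (card_le_card (h.sub_old i)).trans ((card_le_card ?_).trans (h3 i))
    exact inter_subset_inter_left (union_subset h.CQ h.YQ)
  · rw [h.inter_self]
    exact h.sizeN c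

theorem Wir.adj_C (h : Wir B Q C Y E N) {u v : V} (hu : u ∈ C) (hv : v ∈ C)
    (hadj : (gr B).Adj u v) : (gr (absG B C Y E N)).Adj u v := by
  obtain ⟨hne, i, hi, hj⟩ := hadj
  exact ⟨hne, Sum.inl i, (h.mem_C hu).2 ⟨i, rfl, hi⟩, (h.mem_C hv).2 ⟨i, rfl, hj⟩⟩

theorem Wir.adj_Y (h : Wir B Q C Y E N) {y u : V} (hy : y ∈ Y) (hu : u ∈ C) {i : ι}
    (hi : i ∈ E y) (hui : u ∈ B i) : (gr (absG B C Y E N)).Adj y u :=
  ⟨fun he => h.notMem' hy (he ▸ hu), Sum.inl i, (h.mem_Y hy).2 (Or.inl ⟨i, hi, rfl⟩),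
    (h.mem_C hu).2 ⟨i, rfl, hui⟩⟩

theorem Wir.adj_N (h : Wir B Q C Y E N) {y y' : V} {c : κ} (hne : y ≠ y') (hy : y ∈ N c)
    (hy' : y' ∈ N c) : (gr (absG B C Y E N)).Adj y y' :=
  ⟨hne, Sum.inr c, mem_absG_inr.2 hy, mem_absG_inr.2 hy'⟩

variable [Fintype ι]

theorem Wir.reg (h : Wir B Q C Y E N) (hr : Reg B Q) : Reg (absG B C Y E N) (C ∪ Y) := by
  classical
  intro v hv
  rw [card_filter_sum]
  rcases mem_union.1 hv with hv | hv
  · have h1 : (univ.filter (fun i : ι => v ∈ absG B C Y E N (Sum.inl i))) =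
        univ.filter (fun i => v ∈ B i) := by
      ext i
      rw [mem_filter, mem_filter, h.mem_C hv]
      simp
    have h2 : (univ.filter (fun c : κ => v ∈ absG B C Y E N (Sum.inr c))) = ∅ := by
      ext c
      rw [mem_filter, h.mem_C hv]
      simp
    rw [h1, h2, hr v (h.CQ hv), card_empty]
  · have h1 : (univ.filter (fun i : ι => v ∈ absG B C Y E N (Sum.inl i))) = E v := by
      ext i
      rw [mem_filter, h.mem_Y hv]
      simp
    have h2 : (univ.filter (fun c : κ => v ∈ absG B C Y E N (Sum.inr c))) =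
        univ.filter (fun c => v ∈ N c) := by
      ext c
      rw [mem_filter, mem_filter, mem_absG_inr]
    have h3 := h.deg v hv
    rw [h1, h2, ← h3]

/-- the number of blocks of the new system: `S` contains the old blocks which meet new points only. -/
theorem Wir.cm_le (h : Wir B Q C Y E N) {S : Finset ι}
    (hS : ∀ y ∈ Y, ∀ i ∈ E y, (B i ∩ C) = ∅ → i ∈ S) :
    Hyp6.cm (absG B C Y E N) (C ∪ Y) ≤ Hyp6.cm B C + S.card + Fintype.card κ := by
  classical
  unfold Hyp6.cm tch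
  rw [card_filter_sum]
  refine Nat.add_le_add ?_ ((card_le_univ _).trans le_rfl)
  rw [← card_union_add_card_inter]
  refine (card_le_card fun i hi => ?_).trans (Nat.le_add_right _ _)
  rw [mem_filter, h.inter_self] at hi
  rw [mem_union, mem_filter]
  obtain ⟨v, hv⟩ := hi.2
  rw [mem_absG_inl] at hv
  rcases hv with h1 | h1
  · exact Or.inl ⟨mem_univ _, v, mem_inter.2 h1⟩
  · rcases (B i ∩ C).eq_empty_or_nonempty with h2 | h2
    · exact Or.inr (hS v h1.1 i h1.2 h2)
    · exact Or.inl ⟨mem_univ _, h2⟩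

/-- a cover of the new system. -/
theorem Wir.rho_ge (h : Wir B Q C Y E N) (hr : Reg B Q) {t : ℕ}
    (ht : ∀ (T : Finset ι) (K : Finset κ), C ⊆ T.biUnion B →
      (∀ y ∈ Y, (∃ i ∈ T, i ∈ E y) ∨ ∃ c ∈ K, y ∈ N c) → t ≤ T.card + K.card) :
    t ≤ rho (absG B C Y E N) (C ∪ Y) := by
  classical
  refine le_rho (cov_of_reg (h.reg hr)) fun U hU => ?_
  have hcard : U.card = (univ.filter (fun i : ι => Sum.inl i ∈ U)).card +
      (univ.filter (fun c : κ => Sum.inr c ∈ U)).card := by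
    rw [← card_filter_sum (fun k : ι ⊕ κ => k ∈ U)]
    congr 1
    ext k
    simp
  rw [hcard]
  refine ht _ _ ?_ ?_
  · intro v hv
    obtain ⟨k, hk, hvk⟩ := mem_biUnion.1 (hU (mem_union_left _ hv))
    obtain ⟨i, rfl, hi⟩ := (h.mem_C hv).1 hvk
    exact mem_biUnion.2 ⟨i, mem_filter.2 ⟨mem_univ _, hk⟩, hi⟩
  · intro y hy
    obtain ⟨k, hk, hyk⟩ := mem_biUnion.1 (hU (mem_union_right _ hy))
    rcases (h.mem_Y hy).1 hyk with ⟨i, hi, rfl⟩ | ⟨c, rfl, hc⟩
    · exact Or.inl ⟨i, mem_filter.2 ⟨mem_univ _, hk⟩, hi⟩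
    · exact Or.inr ⟨c, mem_filter.2 ⟨mem_univ _, hk⟩, hc⟩

/-- the same with a set of old blocks covering the points of `C` and the points of `Y` without a used
new block. -/
theorem Wir.rho_ge' (h : Wir B Q C Y E N) (hr : Reg B Q) {t : ℕ}
    (ht : ∀ (K : Finset κ) (Y' : Finset V), Y' ⊆ Y → (∀ y ∈ Y', (E y).Nonempty) →
      (∀ y ∈ Y, (∀ c ∈ K, y ∉ N c) → y ∈ Y') → t ≤ rho B (C ∪ Y') + K.card) :
    t ≤ rho (absG B C Y E N) (C ∪ Y) := by
  classical
  refine h.rho_ge hr fun T K hT hK => ?_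
  have h1 := ht K (Y.filter (fun y => ∃ i ∈ T, i ∈ E y)) (filter_subset _ _)
    (fun y hy => by
      obtain ⟨i, _, hi⟩ := (mem_filter.1 hy).2
      exact ⟨i, hi⟩)
    (fun y hy hn => by
      rw [mem_filter]
      refine ⟨hy, ?_⟩
      rcases hK y hy with h2 | ⟨c, hc, hyc⟩
      · exact h2
      · exact absurd hyc (hn c hc))
  have h2 : rho B (C ∪ Y.filter (fun y => ∃ i ∈ T, i ∈ E y)) ≤ T.card := by
    refine rho_le ?_
    intro v hv
    rcases mem_union.1 hv with hv | hv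
    · exact hT hv
    · obtain ⟨hv1, i, hi, hiE⟩ := mem_filter.1 hv
      exact mem_biUnion.2 ⟨i, hi, h.mem v hv1 i hiE⟩
  omega

/-- points with two single traces: the old ones in `C`, the points of `Y1` with all their single
blocks kept, the points of `Y2` with two new single blocks. -/
theorem Wir.ee_ge (h : Wir B Q C Y E N) {Y1 Y2 : Finset V} (hY1 : Y1 ⊆ Y) (hY2 : Y2 ⊆ Y)
    (hd12 : Disjoint Y1 Y2) (hN1 : ∀ y ∈ Y1, ∀ i, B i ∩ Q = {y} → i ∈ E y)
    (hN2 : ∀ y ∈ Y2, 2 ≤ (univ.filter (fun c => N c = {y})).card) :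
    ee B Q C + ee B Q Y1 + Y2.card ≤ ee (absG B C Y E N) (C ∪ Y) (C ∪ Y) := by
  classical
  have key : ∀ t ∈ C ∪ Y1, (univ.filter (fun i => B i ∩ Q = {t})).card ≤
      (univ.filter (fun k => absG B C Y E N k ∩ (C ∪ Y) = {t})).card := by
    intro t ht
    rw [card_filter_sum]
    refine le_trans (card_le_card fun i hi => ?_) (Nat.le_add_right _ _)
    rw [mem_filter] at hi ⊢
    refine ⟨mem_univ _, ?_⟩
    rw [h.inter_self]
    have ht' : t ∈ B i := by
      have : t ∈ B i ∩ Q := by rw [hi.2]; exact mem_singleton_self t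
      exact (mem_inter.1 this).1
    ext v
    rw [mem_singleton]
    constructor
    · intro hv
      have h1 := h.sub_old i hv
      have : v ∈ B i ∩ Q := mem_inter.2 ⟨(mem_inter.1 h1).1,
        union_subset h.CQ h.YQ (mem_inter.1 h1).2⟩
      rw [hi.2] at this
      exact mem_singleton.1 this
    · rintro rfl
      rw [mem_absG_inl]
      rcases mem_union.1 ht with ht | ht
      · exact Or.inl ⟨ht', ht⟩
      · exact Or.inr ⟨hY1 ht, hN1 _ ht i hi.2⟩
  have key2 : ∀ y ∈ Y2, 2 ≤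
      (univ.filter (fun k => absG B C Y E N k ∩ (C ∪ Y) = {y})).card := by
    intro y hy
    rw [card_filter_sum]
    refine le_trans ((hN2 y hy).trans (card_le_card fun c hc => ?_)) (Nat.le_add_left _ _)
    rw [mem_filter] at hc ⊢
    refine ⟨mem_univ _, ?_⟩
    rw [h.inter_self]
    exact hc.2
  have hdC : Disjoint C Y1 := disjoint_of_subset_right hY1 h.dis
  have hd : Disjoint ((C ∪ Y1).filter (fun t => 2 ≤ (univ.filter (fun i => B i ∩ Q = {t})).card))
      Y2 := by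
    refine disjoint_of_subset_left (filter_subset _ _) ?_
    rw [disjoint_union_left]
    exact ⟨disjoint_of_subset_right hY2 h.dis, hd12⟩
  rw [← ee_union hdC]
  unfold ee
  rw [← card_union_of_disjoint hd]
  refine card_le_card fun t ht => ?_
  rw [mem_filter]
  rcases mem_union.1 ht with ht | ht
  · rw [mem_filter] at ht
    exact ⟨union_subset_union_right hY1 ht.1, ht.2.trans (key t ht.1)⟩
  · exact ⟨mem_union_right _ (hY2 ht), key2 t ht⟩

end

variable {V : Type v} [DecidableEq V] {ι : Type u} [Fintype ι] {B : ι → Finset V}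

/-- **closing by rewiring**: the closed set is connected, not exceptional, and has value at least
`0` if its cover number is the smallest possible. -/
theorem Wir.close {κ : Type u} [Fintype κ] {Q C Y : Finset V} {E : V → Finset ι}
    {N : κ → Finset V} (h : Wir B Q C Y E N) {n : ℕ} (ih : IHE.{u} V n) (ihq : IHQ.{u} V n)
    (hn : C.card + Y.card < n) (hr : Reg B Q) (h3 : Tr3 B Q)
    (hconn : Conn (gr (absG B C Y E N)) (C ∪ Y)) (hK : ¬ KT (absG B C Y E N) (C ∪ Y))
    {S : Finset ι} (hS : ∀ y ∈ Y, ∀ i ∈ E y, (B i ∩ C) = ∅ → i ∈ S)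
    {r : ℕ} (hrho : rho B C + r ≤ rho (absG B C Y E N) (C ∪ Y))
    (hs : 2 * (r : ℤ) ≤ sv B C + Y.card)
    {Y1 Y2 : Finset V} (hY1 : Y1 ⊆ Y) (hY2 : Y2 ⊆ Y)
    (hd12 : Disjoint Y1 Y2) (hN1 : ∀ y ∈ Y1, ∀ i, B i ∩ Q = {y} → i ∈ E y)
    (hN2 : ∀ y ∈ Y2, 2 ≤ (univ.filter (fun c => N c = {y})).card) :
    2 * ((ee B Q C : ℤ) + ee B Q Y1 + Y2.card) + 24 * (r : ℤ) ≤
      Pv B C + 5 * (Y.card : ℤ) + 4 * ((S.card : ℤ) + Fintype.card κ) + 1 ∧
    24 * (r : ℤ) ≤ Pv B C + 5 * (Y.card : ℤ) + 4 * ((S.card : ℤ) + Fintype.card κ) := by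
  have hc : (C ∪ Y).card = C.card + Y.card := card_union_of_disjoint h.dis
  have hc' : ((C ∪ Y).card : ℤ) = C.card + Y.card := by exact_mod_cast hc
  have ht3 := h.tr3 h3
  have hlt : (C ∪ Y).card < n := by rw [hc]; exact hn
  have hr' := h.reg hr
  have hok := ih (ι ⊕ κ) (absG B C Y E N) (C ∪ Y) hlt hr' ht3 hconn hK
  have hee := h.ee_ge hY1 hY2 hd12 hN1 hN2
  have hcm := h.cm_le hS
  have h3' : (rho B C : ℤ) + r ≤ rho (absG B C Y E N) (C ∪ Y) := by exact_mod_cast hrho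
  have h4 : (ee B Q C : ℤ) + ee B Q Y1 + Y2.card ≤ ee (absG B C Y E N) (C ∪ Y) (C ∪ Y) := by
    exact_mod_cast hee
  have hcmz : (Hyp6.cm (absG B C Y E N) (C ∪ Y) : ℤ) ≤ Hyp6.cm B C + S.card + Fintype.card κ := by
    exact_mod_cast hcm
  have h2 := Pv_eq (B := absG B C Y E N) (C ∪ Y)
  have h2' := Pv_eq (B := B) C
  have h6 : sv (absG B C Y E N) (C ∪ Y) = sv B C + Y.card -
      2 * ((rho (absG B C Y E N) (C ∪ Y) : ℤ) - rho B C) := by
    unfold sv
    rw [hc']
    ring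
  have h8 := Pv_eq_Pp (B := absG B C Y E N) (C ∪ Y)
  have he0 : (0 : ℤ) ≤ ee (absG B C Y E N) (C ∪ Y) (C ∪ Y) := by positivity
  rw [hc'] at h2
  generalize hP : Pp (absG B C Y E N) (C ∪ Y) = P' at *
  generalize hV : Pv (absG B C Y E N) (C ∪ Y) = Q' at *
  generalize hSS : sv (absG B C Y E N) (C ∪ Y) = S' at *
  generalize hR : (rho (absG B C Y E N) (C ∪ Y) : ℤ) = R' at *
  generalize hEE : (ee (absG B C Y E N) (C ∪ Y) (C ∪ Y) : ℤ) = e' at *
  generalize hCM : (Hyp6.cm (absG B C Y E N) (C ∪ Y) : ℤ) = c' at *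
  refine ⟨by linarith, ?_⟩
  rcases lt_or_ge ((rho B C : ℤ) + r) R' with hlt' | hge'
  · have : 24 ≤ 24 * (R' - (rho B C + r)) := by linarith
    linarith
  · have hRe : R' = rho B C + r := le_antisymm hge' h3'
    have hS0 : 0 ≤ S' := by rw [h6, hRe]; linarith
    have hQ0 : 0 ≤ Q' := by
      rcases eq_or_lt_of_le hS0 with h0 | h0
      · have hev := Pp_even (B := absG B C Y E N) (C ∪ Y)
        rw [hP] at hev
        omega
      · have := ihq (ι ⊕ κ) (absG B C Y E N) (C ∪ Y) hlt hr' ht3 hconn hK (by rw [hSS]; omega)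
        rwa [hV] at this
    linarith

end Pool.Agent.Hyp6
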