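import Pool.Agent.Hyp6.L3RB
import Pool.Agent.Hyp6.L3Wr

/-!
# HYP6 L3Tw: points with four common blocks

In a minimal counterexample with value at least one two points `x, y` whose removal leaves a connected
set have at most three common blocks: otherwise `y` is deleted and `x` keeps four common blocks and gets
a single new block; a cover of the new system gives a cover of `Q` of the same size.
-/

set_option autoImplicit false

namespace Pool.Agent.Hyp6

open Finset Pool.Agent.Hyp5

universe u v

variable {V : Type v} [DecidableEq V] {ι : Type u} [Fintype ι] {B : ι → Finset V}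
  {Q : Finset V}

namespace ViolR

/-- the points with four common blocks have at most one single trace. -/
theorem twin_ee {x y : V} (hxy : x ≠ y) (hr : Reg B Q) (hx : x ∈ Q) (hy : y ∈ Q)
    (h4 : 4 ≤ (univ.filter (fun i => x ∈ B i ∧ y ∈ B i)).card) : ee B Q {x} = 0 := by
  classical
  unfold ee
  rw [card_eq_zero, filter_eq_empty_iff]
  intro t ht h2
  rw [mem_singleton] at ht
  subst ht
  have h5 := hr t hx
  have hd : Disjoint (univ.filter (fun i => t ∈ B i ∧ y ∈ B i))
      (univ.filter (fun i => B i ∩ Q = {t})) := by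
    rw [disjoint_left]
    intro i hi hi'
    rw [mem_filter] at hi hi'
    have h6 : y ∈ B i ∩ Q := mem_inter.2 ⟨hi.2.2, hy⟩
    rw [hi'.2, mem_singleton] at h6
    exact hxy h6.symm
  have h7 : univ.filter (fun i => t ∈ B i ∧ y ∈ B i) ∪ univ.filter (fun i => B i ∩ Q = {t}) ⊆
      univ.filter (fun i => t ∈ B i) := by
    intro i hi
    rw [mem_filter]
    refine ⟨mem_univ _, ?_⟩
    rcases mem_union.1 hi with h8 | h8
    · exact (mem_filter.1 h8).2.1
    · have h9 : t ∈ B i ∩ Q := by
        rw [(mem_filter.1 h8).2]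
        exact mem_singleton_self t
      exact (mem_inter.1 h9).1
  have h8 := card_le_card h7
  rw [card_union_of_disjoint hd, h5] at h8
  omega

/-- **two points have at most three common blocks** (the rest without them is connected). -/
theorem twin_of (hv : ViolR B Q) {x y : V} (hx : x ∈ Q) (hy : y ∈ Q) (hxy : x ≠ y)
    (hsep : Conn (gr B) (Q \ {x, y})) :
    (univ.filter (fun i => x ∈ B i ∧ y ∈ B i)).card ≤ 3 := by
  classical
  by_contra hcon
  have h4 : 4 ≤ (univ.filter (fun i => x ∈ B i ∧ y ∈ B i)).card := by omega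
  have hex : ee B Q {x} = 0 := twin_ee hxy hv.reg hx hy h4
  have hey : ee B Q {y} = 0 := twin_ee hxy.symm hv.reg hy hx (by
    have h5 : univ.filter (fun i => y ∈ B i ∧ x ∈ B i) =
        univ.filter (fun i => x ∈ B i ∧ y ∈ B i) := by
      ext i
      simp only [mem_filter, mem_univ, true_and]
      tauto
    rw [h5]
    exact h4)
  obtain ⟨E4, hE4s, hE4c⟩ := exists_subset_card_eq h4
  have hE : ∀ i ∈ E4, x ∈ B i ∧ y ∈ B i := fun i hi => (mem_filter.1 (hE4s hi)).2
  set C := Q \ {x, y} with hC
  have hCQ : C ⊆ Q := sdiff_subset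
  have hxyQ : ({x, y} : Finset V) ⊆ Q := by
    intro v hv'
    simp only [mem_insert, mem_singleton] at hv'
    rcases hv' with rfl | rfl
    · exact hx
    · exact hy
  have hxC : x ∉ C := fun h => (mem_sdiff.1 h).2 (by simp)
  have hyC : y ∉ C := fun h => (mem_sdiff.1 h).2 (by simp)
  have hcc : Q.card = C.card + 2 := by
    have h5 := card_sdiff_add_card_eq_card hxyQ
    rw [card_pair hxy, ← hC] at h5
    omega
  have hdC : Disjoint C ({x, y} : Finset V) := sdiff_disjoint
  have hQe : C ∪ {x, y} = Q := sdiff_union_of_subset hxyQ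
  have heQ : ee B Q Q = ee B Q C := by
    have h5 := ee_union (B := B) (Q := Q) hdC
    rw [hQe] at h5
    have h6 : Disjoint ({x} : Finset V) {y} := by
      rw [disjoint_singleton]
      exact hxy
    have h7 := ee_union (B := B) (Q := Q) h6
    have h8 : ({x} : Finset V) ∪ {y} = {x, y} := rfl
    rw [h8] at h7
    omega
  have hcov := hv.cov
  obtain ⟨i0, hi0⟩ : E4.Nonempty := card_pos.1 (by omega)
  -- a common block covers both points
  have hQC : rho B Q ≤ rho B C + 1 := by
    obtain ⟨T, h5, h6⟩ := exists_cover (hcov.mono hCQ)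
    have h7 : rho B Q ≤ (insert i0 T).card := by
      refine rho_le fun v hv' => ?_
      rw [mem_biUnion]
      by_cases h8 : v ∈ C
      · obtain ⟨i, hi, hvi⟩ := mem_biUnion.1 (h5 h8)
        exact ⟨i, mem_insert_of_mem hi, hvi⟩
      · have h9 : v ∈ ({x, y} : Finset V) := by
          by_contra h10
          exact h8 (mem_sdiff.2 ⟨hv', h10⟩)
        refine ⟨i0, mem_insert_self _ _, ?_⟩
        simp only [mem_insert, mem_singleton] at h9
        rcases h9 with rfl | rfl
        · exact (hE i0 hi0).1
        · exact (hE i0 hi0).2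
    have h8 := card_insert_le i0 T
    omega
  have hCc : rho B C ≤ rho B Q := rho_mono hCQ hcov
  have hneg := hv.neg
  unfold dv at hneg
  rw [heQ] at hneg
  have hsv1 := hv.sv1
  unfold sv at hsv1
  by_cases hA : ∃ i ∈ E4, (B i ∩ C).Nonempty
  · -- the new system
    set N : PUnit.{u + 1} → Finset V := fun _ => {x} with hN
    have hw : Wir B Q C {x} (fun _ => E4) N := by
      refine ⟨hCQ, singleton_subset_iff.2 hx, disjoint_singleton_right.2 hxC, ?_, ?_, ?_, ?_⟩
      · intro v hv' i hi
        rw [mem_singleton] at hv'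
        subst hv'
        exact (hE i hi).1
      · intro c
        exact Subset.refl _
      · intro v hv'
        rw [mem_singleton] at hv'
        subst hv'
        rw [hE4c]
        have h5 : (univ.filter (fun c : PUnit.{u + 1} => v ∈ N c)) = univ := by
          ext c
          simp [hN]
        rw [h5]
        simp
      · intro c
        simp [hN]
    set B' := absG B C {x} (fun _ => E4) N with hB'
    have hr' : Reg B' (C ∪ {x}) := hw.reg hv.reg
    have ht' : Tr3 B' (C ∪ {x}) := hw.tr3 hv.tr
    have hcard' : (C ∪ {x}).card = C.card + 1 := by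
      rw [card_union_of_disjoint hw.dis]
      simp
    have hconn' : Conn (gr B') (C ∪ {x}) := by
      obtain ⟨i, hi, w, hw'⟩ := hA
      obtain ⟨hwi, hwC⟩ := mem_inter.1 hw'
      have hadj : (gr B').Adj x w := hw.adj_Y (mem_singleton_self x) hwC hi hwi
      refine ⟨⟨x, mem_union_right _ (mem_singleton_self x)⟩, fun Z hZ hne => ?_⟩
      have hclo : Closed (gr B) C (Z ∩ C) := by
        refine ⟨inter_subset_right, fun a ha b hb hab => ?_⟩
        obtain ⟨ha1, ha2⟩ := mem_inter.1 ha
        exact mem_inter.2 ⟨hZ.2 a ha1 b (mem_union_left _ hb) (hw.adj_C ha2 hb hab), hb⟩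
      have hZC : (Z ∩ C).Nonempty := by
        obtain ⟨z, hz⟩ := hne
        rcases mem_union.1 (hZ.1 hz) with h5 | h5
        · exact ⟨z, mem_inter.2 ⟨hz, h5⟩⟩
        · rw [mem_singleton] at h5
          subst h5
          exact ⟨w, mem_inter.2 ⟨hZ.2 z hz w (mem_union_left _ hwC) hadj, hwC⟩⟩
      have h6 := hsep.2 (Z ∩ C) hclo hZC
      have h7 : C ⊆ Z := by
        rw [← h6]
        exact inter_subset_left
      have h8 : x ∈ Z := hZ.2 w (h7 hwC) x (mem_union_right _ (mem_singleton_self x)) hadj.symm
      refine Subset.antisymm hZ.1 (union_subset h7 (singleton_subset_iff.2 h8))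
    have hK' : ¬ KT B' (C ∪ {x}) := by
      intro hKT
      have h5 : (B' (Sum.inr PUnit.unit) ∩ (C ∪ {x})).Nonempty :=
        ⟨x, mem_inter.2 ⟨mem_absG_inr.2 (mem_singleton_self x),
          mem_union_right _ (mem_singleton_self x)⟩⟩
      have h6 := hKT.trace hr' ht' h5
      rw [hw.inter_self] at h6
      have h7 : absG B C {x} (fun _ => E4) N (Sum.inr PUnit.unit) = {x} := by
        ext v
        exact mem_absG_inr
      rw [h7, card_singleton] at h6
      omega
    have hlt : (C ∪ {x}).card < Q.card := by omega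
    have hok := hv.ih _ B' (C ∪ {x}) hlt hr' ht' hconn' hK'
    have hok2 : 0 ≤ sv B' (C ∪ {x}) →
        2 * (ee B' (C ∪ {x}) (C ∪ {x}) : ℤ) ≤ Pv B' (C ∪ {x}) := fun hs =>
      ih_nonneg hv.ih hv.ihr hlt hr' ht' hconn' hK' hs
    -- the cover number
    have hrho : rho B Q ≤ rho B' (C ∪ {x}) := by
      refine hw.rho_ge hv.reg fun T K hT hK => ?_
      rcases hK x (mem_singleton_self x) with ⟨i, hi, hiE⟩ | ⟨c, hc, _⟩
      · refine le_trans (rho_le (T := T) fun v hv' => ?_) (Nat.le_add_right _ _)
        rw [mem_biUnion]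
        by_cases h8 : v ∈ C
        · exact mem_biUnion.1 (hT h8)
        · have h9 : v ∈ ({x, y} : Finset V) := by
            by_contra h10
            exact h8 (mem_sdiff.2 ⟨hv', h10⟩)
          refine ⟨i, hi, ?_⟩
          simp only [mem_insert, mem_singleton] at h9
          rcases h9 with rfl | rfl
          · exact (hE i hiE).1
          · exact (hE i hiE).2
      · -- the new block is replaced by a common block
        have h5 : 1 ≤ K.card := card_pos.2 ⟨c, hc⟩
        have h6 : rho B Q ≤ (insert i0 T).card := by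
          refine rho_le fun v hv' => ?_
          rw [mem_biUnion]
          by_cases h8 : v ∈ C
          · obtain ⟨i, hi, hvi⟩ := mem_biUnion.1 (hT h8)
            exact ⟨i, mem_insert_of_mem hi, hvi⟩
          · have h9 : v ∈ ({x, y} : Finset V) := by
              by_contra h10
              exact h8 (mem_sdiff.2 ⟨hv', h10⟩)
            refine ⟨i0, mem_insert_self _ _, ?_⟩
            simp only [mem_insert, mem_singleton] at h9
            rcases h9 with rfl | rfl
            · exact (hE i0 hi0).1
            · exact (hE i0 hi0).2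
        have h7 := card_insert_le i0 T
        omega
    have hrho2 : rho B Q ≤ rho B' (C ∪ {x}) := hrho
    -- the count
    set S : Finset ι := E4.filter (fun i => B i ∩ C = ∅) with hS
    have hcm := hw.cm_le (S := S) (fun v _ i hi h0 => mem_filter.2 ⟨hi, h0⟩)
    rw [← hB'] at hcm
    have hcmQ : cm B C + S.card ≤ cm B Q := by
      rw [cm_sdiff Q {x, y}, ← hC]
      have h5 : S ⊆ ins B Q {x, y} := by
        intro i hi
        obtain ⟨hi1, hi2⟩ := mem_filter.1 hi
        rw [mem_ins]
        refine ⟨⟨x, mem_inter.2 ⟨(hE i hi1).1, hx⟩⟩, fun v hv' => ?_⟩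
        obtain ⟨hv1, hv2⟩ := mem_inter.1 hv'
        by_contra h6
        have h7 : v ∈ B i ∩ C := mem_inter.2 ⟨hv1, mem_sdiff.2 ⟨hv2, h6⟩⟩
        rw [hi2] at h7
        exact notMem_empty _ h7
      have h6 := card_le_card h5
      omega
    have hee := hw.ee_ge (Y1 := ∅) (Y2 := ∅) (empty_subset _) (empty_subset _)
      (disjoint_empty_left _) (fun v hv' => absurd hv' (notMem_empty _))
      (fun v hv' => absurd hv' (notMem_empty _))
    rw [← hB'] at hee
    have hPn := Pv_eq (B := B') (C ∪ {x})
    have hPQ := Pv_eq (B := B) Q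
    rw [hcard'] at hPn
    unfold sv at hok2
    rw [hcard'] at hok2
    simp only [ee_empty, card_empty, Fintype.card_punit] at hee hcm
    push_cast at hPn hok2
    rcases Nat.lt_or_ge (rho B Q) (rho B' (C ∪ {x})) with h1 | h1
    · omega
    · have h2 := hok2 (by omega)
      omega
  · -- all four common blocks lie in `{x, y}`
    have hins : 4 ≤ (ins B Q {x, y}).card := by
      have h5 : E4 ⊆ ins B Q {x, y} := by
        intro i hi
        rw [mem_ins]
        refine ⟨⟨x, mem_inter.2 ⟨(hE i hi).1, hx⟩⟩, fun v hv' => ?_⟩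
        obtain ⟨hv1, hv2⟩ := mem_inter.1 hv'
        by_contra h6
        exact hA ⟨i, hi, v, mem_inter.2 ⟨hv1, mem_sdiff.2 ⟨hv2, h6⟩⟩⟩
      have h6 := card_le_card h5
      omega
    have hPQ := Pv_sdiff (B := B) hxyQ
    rw [← hC, card_pair hxy] at hPQ
    have hlt : C.card < Q.card := by omega
    have hrC := hv.reg.mono hCQ
    have htC := hv.tr.mono hCQ
    have hKC : ¬ KT B C := not_KT_of_ssubset hv.conn hv.reg hv.tr hCQ (by
      intro h5
      rw [h5] at hxC
      exact hxC hx)
    have hok := hv.ih _ B C hlt hrC htC hsep hKC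
    have hok2 : 0 ≤ sv B C → 2 * (ee B C C : ℤ) ≤ Pv B C := fun hs =>
      ih_nonneg hv.ih hv.ihr hlt hrC htC hsep hKC hs
    have hee : ee B Q C ≤ ee B C C := ee_le_ee (Subset.refl _) hCQ
    unfold sv at hok2
    push_cast at hPQ
    rcases Nat.lt_or_ge (rho B C) (rho B Q) with h1 | h1
    · have h2 := hok2 (by omega)
      omega
    · omega

end ViolR

end Pool.Agent.Hyp6
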