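import Pool.Agent.Hyp6.L3S5
import Pool.Agent.Hyp6.L3Tw

/-!
# HYP6 L3Tx: two points have at most three common blocks
-/

set_option autoImplicit false

namespace Pool.Agent.Hyp6

open Finset Pool.Agent.Hyp5

universe u v

variable {V : Type v} [DecidableEq V] {ι : Type u} [Fintype ι] {B : ι → Finset V}
  {Q : Finset V}

/-- **two points of a minimal counterexample with value at least one have at most three common
blocks.** -/
theorem ViolR.twin (hv : ViolR B Q) {x y : V} (hx : x ∈ Q) (hy : y ∈ Q) (hxy : x ≠ y) :
    (univ.filter (fun i => x ∈ B i ∧ y ∈ B i)).card ≤ 3 :=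
  hv.twin_of hx hy hxy (hv.sep2 hx hy hxy)

end Pool.Agent.Hyp6
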