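import Pool.Agent.Hyp6.Gdm
import Pool.Agent.Hyp6.L3Tx
import Pool.Agent.Hyp6.Cnm
import Pool.Agent.Hyp6.CfA

/-!
# HYP6 GDX: tables for the general deletion, the checker

An instance `P : Gp` describes an explicit set `Z` (`zn` points, cover number `r`) and the `m` blocks
meeting it (traces `zm` on `Z`), `M` labelled points outside (contact points and the other points of
their triples, masks `tm`), bounds `lo`, `hi` for the numbers of hits. Variables: block `b` contains the
label `a`; the mask `S` is absorbed by `Z`; the mask `S` is inside a block; the label `a` has at least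
`k` hits; the value of `Z` is at least `d - 10`. `Gb`: base clauses; `Gk`: one general deletion, which
gives the clause `lits`.
-/

set_option autoImplicit false

namespace Pool.Agent.Hyp6

open Finset Pool.Agent.Hyp5 Rup

universe u v

namespace Gdx

/-- the union of masks. -/
def orl (l : List ℕ) : ℕ := l.foldr (fun a b => a ||| b) 0

/-- the variable: block `b` contains the label `a`. -/
def vP (b a : ℕ) : ℕ := 8 * (32 * b + a)
/-- the variable: the mask `S` is absorbed. -/
def vA (S : ℕ) : ℕ := 8 * S + 1
/-- the variable: the mask `S` is inside a block. -/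
def vS (S : ℕ) : ℕ := 8 * S + 2
/-- the variable: the label `a` has at least `k` hits. -/
def vE (a k : ℕ) : ℕ := 8 * (32 * k + a) + 3
/-- the variable: the value is at least `d - 10`. -/
def vD (d : ℕ) : ℕ := 8 * d + 4

/-- the positive literal. -/
def ps (v : ℕ) : ℕ := 2 * v
/-- the negative literal. -/
def ng (v : ℕ) : ℕ := 2 * v + 1

/-- an instance. -/
structure Gp where
  m : ℕ
  M : ℕ
  zn : ℕ
  r : ℕ
  d0 : ℕ
  pz : ℕ
  zm : List ℕ
  lo : List ℕ
  hi : List ℕ
  tm : List ℕ

/-- one cover: either the absorbed mask `S`, or the blocks `bs` covering `Z` with the incidences `ch`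
(label, block); further masks `ms` in one block each; cost `n`, covered labels `E`. -/
structure Ge where
  S : ℕ
  bs : List ℕ
  ch : List (ℕ × ℕ)
  ms : List ℕ
  n : ℕ
  E : ℕ

/-- one general deletion: deleted labels `X`, deleted triples `I`, new blocks `N`, covers `es`, link
classes `cl`, trimmed labels `S`, value `dn`, clause `lits`. -/
structure Gk where
  X : ℕ
  I : List ℕ
  N : List ℕ
  es : List Ge
  cl : List (List ℕ)
  S : ℕ
  dn : ℕ
  lits : List ℕ

/-- base clauses. -/
inductive Gb
  /-- block `b` does not contain all the labels of `l`. -/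
  | cap (b : ℕ) (l : List ℕ)
  /-- at least `k` hits of `a`: one of the blocks of `l` is a hit. -/
  | lo (a k : ℕ) (l : List ℕ)
  /-- the blocks `l` are hits of `a`: at least `k` hits. -/
  | hi (a k : ℕ) (l : List ℕ)
  /-- the cover `bs` of `Z` with the incidences `ch` (label, block) absorbs `S`. -/
  | dd (bs : List ℕ) (ch : List (ℕ × ℕ)) (S : ℕ)
  /-- monotonicity of absorption. -/
  | mono (S S' : ℕ)
  /-- a block with the labels `l`. -/
  | sh (b : ℕ) (l : List ℕ) (S : ℕ)
  /-- two labels have at most three common blocks. -/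
  | tw (a a' : ℕ) (l : List ℕ)
  /-- a label and a point of `Z` have at most three common blocks. -/
  | twz (a z : ℕ) (l : List ℕ)
  /-- the blocks of `ch` are not free: no free pair, the value is that of `pz`. -/
  | dv (ch : List (ℕ × ℕ))

/-- strictly increasing. -/
def inc : List ℕ → Bool
  | [] => true
  | a :: l => l.all (fun b => Nat.blt a b) && inc l

/-- the trace of the block `b`. -/
def Gp.z (P : Gp) (b : ℕ) : ℕ := P.zm.getD b 0
/-- the lower bound of the hits. -/
def Gp.l (P : Gp) (a : ℕ) : ℕ := P.lo.getD a 0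
/-- the upper bound of the hits. -/
def Gp.h (P : Gp) (a : ℕ) : ℕ := P.hi.getD a 0
/-- the mask of the triple `j`. -/
def Gp.t (P : Gp) (j : ℕ) : ℕ := P.tm.getD j 0

/-- the clause of a base reason. -/
def Gb.cl (P : Gp) : Gb → List ℕ
  | .cap b l => l.map (fun a => ng (vP b a))
  | .lo a k l => (if Nat.ble k (P.l a) then [] else [ng (vE a k)]) ++ l.map (fun b => ps (vP b a))
  | .hi a k l => (if Nat.blt (P.h a) k then [] else [ps (vE a k)]) ++ l.map (fun b => ng (vP b a))
  | .dd _ ch S => ps (vA S) :: ch.map (fun q => ng (vP q.2 q.1))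
  | .mono S S' => [ng (vA S), ps (vA S')]
  | .sh b l S => ps (vS S) :: l.map (fun a => ng (vP b a))
  | .tw a a' l => l.flatMap (fun b => [ng (vP b a), ng (vP b a')])
  | .twz a _ l => l.map (fun b => ng (vP b a))
  | .dv ch => ps (vD P.pz) :: ch.map (fun q => ng (vP q.2 q.1))

/-- the base reason is correct. -/
def Gb.ok (P : Gp) : Gb → Bool
  | .cap b l => Nat.blt b P.m && (inc l && (l.all (fun a => Nat.blt a P.M) &&
      Nat.ble 4 (l.length + pcn P.zn (P.z b))))
  | .lo a k l => Nat.blt a P.M && (inc l && (l.all (fun b => Nat.blt b P.m) &&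
      Nat.blt P.m (l.length + k)))
  | .hi a k l => Nat.blt a P.M && (inc l && (l.all (fun b => Nat.blt b P.m) &&
      Nat.ble k l.length))
  | .dd bs ch S => Nat.ble bs.length P.r && (bs.all (fun b => Nat.blt b P.m) &&
      (Nat.beq ((orl (bs.map P.z)) &&& (2 ^ P.zn - 1)) (2 ^ P.zn - 1) &&
      (ch.all (fun q => Nat.blt q.1 P.M && bs.contains q.2) &&
      (List.range P.M).all (fun a => !(S.testBit a) || ch.any (fun q => Nat.beq q.1 a)))))
  | .mono S S' => Nat.beq (S ||| S') S
  | .sh b l S => Nat.blt b P.m && (l.all (fun a => Nat.blt a P.M) &&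
      (List.range P.M).all (fun a => !(S.testBit a) || l.contains a))
  | .tw a a' l => Nat.blt a P.M && (Nat.blt a' P.M && (!(Nat.beq a a') && (inc l &&
      (l.all (fun b => Nat.blt b P.m) && Nat.ble 4 (l.length +
        ((List.range P.tm.length).filter
          (fun j => (P.t j).testBit a && (P.t j).testBit a')).length)))))
  | .twz a z l => Nat.blt a P.M && (Nat.blt z P.zn && (inc l &&
      (l.all (fun b => Nat.blt b P.m && (P.z b).testBit z) && Nat.ble 4 l.length)))
  | .dv ch => ch.all (fun q => Nat.blt q.1 P.M && Nat.blt q.2 P.m) &&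
      (List.range P.zn).all (fun z => Nat.ble (((List.range P.m).filter (fun b =>
        Nat.beq ((P.z b) &&& (2 ^ P.zn - 1)) (2 ^ z) && !(ch.any (fun q => Nat.beq q.2 b)))).length) 1)

/-- the mask `m` is inside a triple or one label. -/
def Gp.free (P : Gp) (m : ℕ) : Bool :=
  Nat.ble (pcn P.M m) 1 || P.tm.any (fun t => Nat.beq (m ||| t) t)

/-- the cover is correct. -/
def Ge.ok (P : Gp) (lits : List ℕ) (e : Ge) : Bool :=
  (match e.bs with
    | [] => Nat.beq e.ms.length e.n && (Nat.beq (e.S ||| orl e.ms) e.E &&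
        (Nat.beq e.S 0 || lits.contains (ng (vA e.S))))
    | _ :: _ => Nat.beq (e.bs.length + e.ms.length) (P.r + e.n) &&
        (Nat.beq (orl (e.ch.map (fun q => 2 ^ q.1)) ||| orl e.ms) e.E &&
        (e.bs.all (fun b => Nat.blt b P.m) &&
        (Nat.beq ((orl (e.bs.map P.z)) &&& (2 ^ P.zn - 1)) (2 ^ P.zn - 1) &&
        e.ch.all (fun q => Nat.blt q.1 P.M && (e.bs.contains q.2 &&
          lits.contains (ng (vP q.2 q.1)))))))) &&
  e.ms.all (fun m => P.free m || lits.contains (ng (vS m)))

/-- every union of new blocks is covered. -/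
def chkK (es : List Ge) : List ℕ → ℕ → ℕ → Bool
  | [], acc, k => es.any (fun e => Nat.ble e.n k && Nat.beq (acc ||| e.E) e.E)
  | c :: l, acc, k => chkK es l acc k && chkK es l (acc ||| c) (k + 1)

/-- the number of masks containing the label. -/
def deg1 (l : List ℕ) (a : ℕ) : ℕ := l.countP (fun c => c.testBit a)

/-- the number of deleted triples containing the label. -/
def Gk.idg (P : Gp) (g : Gk) (a : ℕ) : ℕ := g.I.countP (fun j => (P.t j).testBit a)

/-- the check of one label. -/
def Gk.lab (P : Gp) (g : Gk) (a : ℕ) : Bool :=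
  if g.X.testBit a then Nat.beq (deg1 g.N a) 0
  else Nat.ble (g.idg P a) (deg1 g.N a) && (Nat.ble (deg1 g.N a) 5 &&
    ((Nat.blt (P.h a) (deg1 g.N a - g.idg P a + 1) ||
      g.lits.contains (ps (vE a (deg1 g.N a - g.idg P a + 1)))) &&
    (Nat.beq (deg1 g.N a) 0 || (g.S.testBit a || (Nat.ble (deg1 g.N a - g.idg P a) (P.l a) ||
      g.lits.contains (ng (vE a (deg1 g.N a - g.idg P a))))))))

/-- the mask `c` is linked: a new block, or points of a kept triple. -/
def Gk.lk (P : Gp) (g : Gk) (c : ℕ) : Bool :=
  g.N.contains c || (List.range P.tm.length).any (fun j => !(g.I.contains j) &&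
    (List.range P.M).all (fun a => !(c.testBit a) || ((P.t j).testBit a && (!(g.X.testBit a) &&
      (Nat.blt 0 (deg1 g.N a) && !(g.S.testBit a))))))

/-- the link class is connected; the union of its masks so far is `acc`. -/
def Gk.lnk (P : Gp) (g : Gk) : List ℕ → ℕ → Bool
  | [], _ => true
  | c :: l, acc => g.lk P c && ((List.range P.M).any (fun a => c.testBit a && acc.testBit a) &&
      g.lnk P l (acc ||| c))

/-- no small block is needed: one link class and `|X| <= - sv Z`. -/
def Gk.one (P : Gp) (g : Gk) : Bool :=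
  Nat.beq g.cl.length 1 && Nat.ble (pcn P.M g.X + P.zn) (2 * P.r)

/-- the link class is correct. -/
def Gk.cok (P : Gp) (g : Gk) : List ℕ → Bool
  | [] => false
  | c :: l => g.N.contains c && ((g.one P || Nat.ble (pcn P.M c) 2) &&
      (Nat.ble 1 (pcn P.M c) && g.lnk P l c))

/-- the number of trimmed labels is small enough. -/
def Gk.trim (P : Gp) (g : Gk) : Bool :=
  Nat.ble (pcn P.M g.X + pcn P.M g.S) 2 || (Nat.ble (pcn P.M g.X + pcn P.M g.S) 3 &&
    (List.range P.M).any (fun a => g.S.testBit a && (!(g.X.testBit a) && (Nat.blt 0 (deg1 g.N a) &&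
      (List.range P.M).any (fun b => (g.X.testBit b || (g.S.testBit b && Nat.blt 0 (deg1 g.N b))) &&
        Nat.ble (deg1 g.N a) (P.l b + g.idg P b))))))

/-- the general deletion is correct. -/
def Gk.ok (P : Gp) (g : Gk) : Bool :=
  (List.range P.M).all (fun a => g.lab P a) &&
  (g.N.all (fun c => Nat.ble (pcn P.M c) 3) &&
  (g.trim P &&
  (inc g.I && (g.I.all (fun j => Nat.blt j P.tm.length) &&
  (g.es.all (fun e => e.ok P g.lits) &&
  (chkK g.es g.N g.X 0 &&
  (g.cl.all (fun c => g.cok P c) &&
  ((List.range P.M).all (fun a => Nat.beq (deg1 g.N a) 0 ||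
    g.cl.any (fun c => (orl c).testBit a)) &&
  (Nat.blt 0 g.cl.length &&
  (Nat.ble (4 * g.N.length + g.cl.length + 9) (g.dn + 5 * pcn P.M g.X + 4 * g.I.length) &&
  (Nat.ble (pcn P.M g.X + P.zn) (1 + 2 * P.r) &&
  (Nat.ble g.dn P.d0 || g.lits.contains (ng (vD g.dn))))))))))))))

end Gdx

end Pool.Agent.Hyp6
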