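import Pool.Agent.Hyp6.Gdx

/-!
# HYP6 GDY: tables for the general deletion, soundness

`Gx B Q Z P bl ct zt tb`: the violation `Q` contains the instance `P`; `gval`: the values of the
variables. Every checked base clause (`Gx.sat_base`) and every checked general deletion
(`Gx.sat_gd`) gives a clause which holds. `Gx.absurd`: a checked refutation.
-/

set_option autoImplicit false

namespace Pool.Agent.Hyp6

open Finset Pool.Agent.Hyp5 Rup

universe u v

namespace Gdx

variable {V : Type v} [DecidableEq V] {ι : Type u} [Fintype ι]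

/-- the number of hits of the point `x`. -/
def hts (B : ι → Finset V) (m : ℕ) (bl : ℕ → ι) (x : V) : ℕ :=
  ((range m).filter (fun b => x ∈ B (bl b))).card

/-- the instance `P` in the violation `Q`. -/
structure Gx (B : ι → Finset V) (Q Z : Finset V) (P : Gp) (bl : ℕ → ι) (ct zt : ℕ → V)
    (tb : ℕ → ι) : Prop where
  hv : ViolR B Q
  M32 : P.M ≤ 32
  ZQ : Z ⊆ Q
  Zne : Z.Nonempty
  bl_inj : ∀ a < P.m, ∀ b < P.m, bl a = bl b → a = b
  bl_all : ∀ i, (B i ∩ Z).Nonempty ↔ ∃ b < P.m, bl b = i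
  ztZ : ∀ z < P.zn, zt z ∈ Z
  zt_inj : ∀ a < P.zn, ∀ b < P.zn, zt a = zt b → a = b
  Zsub : ∀ v ∈ Z, ∃ z < P.zn, zt z = v
  ztr : ∀ b < P.m, ∀ z < P.zn, (zt z ∈ B (bl b) ↔ (P.z b).testBit z = true)
  ct_inj : ∀ a < P.M, ∀ b < P.M, ct a = ct b → a = b
  ctQ : ∀ a < P.M, ct a ∈ Q
  ctZ : ∀ a < P.M, ct a ∉ Z
  con : ∀ b < P.m, ∀ v ∈ B (bl b), v ∈ Q → v ∈ Z ∨ ∃ a < P.M, ct a = v
  hlo : ∀ a < P.M, P.l a ≤ hts B P.m bl (ct a)
  hhi : ∀ a < P.M, hts B P.m bl (ct a) ≤ P.h a
  tbT : ∀ j < P.tm.length, B (tb j) ∩ Q = ptm ct P.M (P.t j)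
  tb3 : ∀ j < P.tm.length, (B (tb j) ∩ Q).card = 3
  tb_inj : ∀ j < P.tm.length, ∀ k < P.tm.length, tb j = tb k → j = k
  rZ : rho B Z = P.r
  d0 : (P.d0 : ℤ) ≤ dv B Q Z + 10
  pz : (P.pz : ℤ) = Pv B Z + 10

open Classical in
/-- the values of the variables. -/
noncomputable def gval (B : ι → Finset V) (Q Z : Finset V) (P : Gp) (bl : ℕ → ι) (ct : ℕ → V)
    (v : ℕ) : Bool :=
  if v % 8 = 0 then decide (ct (v / 8 % 32) ∈ B (bl (v / 8 / 32)))
  else if v % 8 = 1 then decide (rho B (Z ∪ ptm ct P.M (v / 8)) ≤ rho B Z)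
  else if v % 8 = 2 then decide (∃ i, ptm ct P.M (v / 8) ⊆ B i)
  else if v % 8 = 3 then decide (v / 8 / 32 ≤ hts B P.m bl (ct (v / 8 % 32)))
  else decide (((v / 8 : ℕ) : ℤ) ≤ dv B Q Z + 10)

variable {B : ι → Finset V} {Q Z : Finset V} {P : Gp} {bl : ℕ → ι} {ct zt : ℕ → V} {tb : ℕ → ι}

theorem gval_P {b a : ℕ} (ha : a < 32) :
    gval B Q Z P bl ct (vP b a) = true ↔ ct a ∈ B (bl b) := by
  have h1 : vP b a % 8 = 0 := by unfold vP; omega
  have h2 : vP b a / 8 % 32 = a := by unfold vP; omega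
  have h3 : vP b a / 8 / 32 = b := by unfold vP; omega
  unfold gval
  rw [if_pos h1, h2, h3, decide_eq_true_eq]

theorem gval_A {S : ℕ} :
    gval B Q Z P bl ct (vA S) = true ↔ rho B (Z ∪ ptm ct P.M S) ≤ rho B Z := by
  have h1 : vA S % 8 = 1 := by unfold vA; omega
  have h2 : vA S / 8 = S := by unfold vA; omega
  unfold gval
  rw [if_neg (by omega), if_pos h1, h2, decide_eq_true_eq]

theorem gval_S {S : ℕ} :
    gval B Q Z P bl ct (vS S) = true ↔ ∃ i, ptm ct P.M S ⊆ B i := by
  have h1 : vS S % 8 = 2 := by unfold vS; omega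
  have h2 : vS S / 8 = S := by unfold vS; omega
  unfold gval
  rw [if_neg (by omega), if_neg (by omega), if_pos h1, h2, decide_eq_true_eq]

theorem gval_E {a k : ℕ} (ha : a < 32) :
    gval B Q Z P bl ct (vE a k) = true ↔ k ≤ hts B P.m bl (ct a) := by
  have h1 : vE a k % 8 = 3 := by unfold vE; omega
  have h2 : vE a k / 8 % 32 = a := by unfold vE; omega
  have h3 : vE a k / 8 / 32 = k := by unfold vE; omega
  unfold gval
  rw [if_neg (by omega), if_neg (by omega), if_neg (by omega), if_pos h1, h2, h3,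
    decide_eq_true_eq]

theorem gval_D {d : ℕ} :
    gval B Q Z P bl ct (vD d) = true ↔ (d : ℤ) ≤ dv B Q Z + 10 := by
  have h1 : vD d % 8 = 4 := by unfold vD; omega
  have h2 : vD d / 8 = d := by unfold vD; omega
  unfold gval
  rw [if_neg (by omega), if_neg (by omega), if_neg (by omega), if_neg (by omega), h2,
    decide_eq_true_eq]

theorem lit_ps {f : ℕ → Bool} {v : ℕ} : Lit f (ps v) ↔ f v = true := by
  have h1 : ps v / 2 = v := by unfold ps; omega
  have h2 : ps v % 2 = 0 := by unfold ps; omega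
  unfold Lit
  rw [h1, h2]
  simp

theorem lit_ng {f : ℕ → Bool} {v : ℕ} : Lit f (ng v) ↔ ¬ f v = true := by
  have h1 : ng v / 2 = v := by unfold ng; omega
  have h2 : ng v % 2 = 1 := by unfold ng; omega
  unfold Lit
  rw [h1, h2]
  simp

/-! ### lists and masks -/

theorem inc_nodup : ∀ {l : List ℕ}, inc l = true → l.Nodup
  | [], _ => List.nodup_nil
  | a :: l, h => by
    have h1 : (l.all (fun b => Nat.blt a b) && inc l) = true := h
    rw [Bool.and_eq_true] at h1
    refine List.nodup_cons.2 ⟨fun h2 => ?_, inc_nodup h1.2⟩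
    have h3 := List.all_eq_true.1 h1.1 a h2
    rw [Nat.blt_eq] at h3
    omega

theorem orl_bit {x : ℕ} : ∀ {l : List ℕ}, (orl l).testBit x = true ↔ ∃ c ∈ l, c.testBit x = true
  | [] => by simp [orl]
  | a :: l => by
    have h1 : orl (a :: l) = a ||| orl l := rfl
    rw [h1, Nat.testBit_or, Bool.or_eq_true, orl_bit]
    simp

theorem deg1_eq (N : List ℕ) (a : ℕ) :
    deg1 N a = ((range N.length).filter (fun c => (N.getD c 0).testBit a = true)).card := by
  unfold deg1
  induction N with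
  | nil => simp
  | cons c N ih =>
    rw [List.countP_cons, ih, card_filter, card_filter, List.length_cons, sum_range_succ']
    congr 1

theorem idg_eq (g : Gk) (hI : g.I.Nodup) (a : ℕ) :
    g.idg P a = (g.I.toFinset.filter (fun j => (P.t j).testBit a = true)).card := by
  unfold Gk.idg
  rw [List.countP_eq_length_filter, ← List.toFinset_card_of_nodup (hI.filter _)]
  congr 1
  ext j
  simp

theorem card_ul {n : ℕ} (p : ℕ → Prop) [DecidablePred p] :
    (univ.filter (fun c : ULift.{u} (Fin n) => p c.down.val)).card =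
      ((range n).filter p).card := by
  refine card_bij (fun c _ => c.down.val) ?_ ?_ ?_
  · intro c hc
    exact mem_filter.2 ⟨mem_range.2 c.down.isLt, (mem_filter.1 hc).2⟩
  · intro c _ d _ h
    exact ULift.down_injective (Fin.ext h)
  · intro k hk
    obtain ⟨h1, h2⟩ := mem_filter.1 hk
    exact ⟨ULift.up ⟨k, mem_range.1 h1⟩, mem_filter.2 ⟨mem_univ _, h2⟩, rfl⟩

theorem chkK_spec {es : List Ge} : ∀ {N : List ℕ} {acc k : ℕ}, chkK es N acc k = true →
    ∀ K ⊆ range N.length, ∃ e ∈ es, e.n ≤ k + K.card ∧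
      (∀ x, acc.testBit x = true → e.E.testBit x = true) ∧
      ∀ c ∈ K, ∀ x, (N.getD c 0).testBit x = true → e.E.testBit x = true := by
  intro N
  induction N with
  | nil =>
    intro acc k h K hK
    have hK0 : K = ∅ := by simpa using hK
    subst hK0
    have h1 : es.any (fun e => Nat.ble e.n k && Nat.beq (acc ||| e.E) e.E) = true := h
    obtain ⟨e, he, h2⟩ := List.any_eq_true.1 h1
    rw [Bool.and_eq_true] at h2
    have h3 : e.n ≤ k := Nat.le_of_ble_eq_true h2.1
    have h4 : acc ||| e.E = e.E := Nat.eq_of_beq_eq_true h2.2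
    refine ⟨e, he, by simpa using h3, fun x hx => ?_, fun c hc => absurd hc (notMem_empty _)⟩
    rw [← h4, Nat.testBit_or, hx, Bool.true_or]
  | cons c N ih =>
    intro acc k h K hK
    have h1 : (chkK es N acc k && chkK es N (acc ||| c) (k + 1)) = true := h
    rw [Bool.and_eq_true] at h1
    set K' : Finset ℕ := (range N.length).filter (fun b => b + 1 ∈ K) with hK'
    have hK's : K' ⊆ range N.length := filter_subset _ _
    have hcard : K.card = K'.card + (if 0 ∈ K then 1 else 0) := by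
      have h2 : K = K'.image (· + 1) ∪ (if 0 ∈ K then {0} else ∅) := by
        ext x
        rcases x with _ | x
        · by_cases h0 : 0 ∈ K <;> simp [h0]
        · by_cases h0 : 0 ∈ K
          · simp only [h0, if_true, mem_union, mem_image, mem_singleton]
            constructor
            · intro hx
              refine Or.inl ⟨x, mem_filter.2 ⟨?_, hx⟩, rfl⟩
              have := mem_range.1 (hK hx)
              rw [List.length_cons] at this
              exact mem_range.2 (by omega)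
            · rintro (⟨y, hy, hyx⟩ | h)
              · rw [← hyx]
                exact (mem_filter.1 hy).2
              · omega
          · simp only [h0, if_false, union_empty, mem_image]
            constructor
            · intro hx
              refine ⟨x, mem_filter.2 ⟨?_, hx⟩, rfl⟩
              have := mem_range.1 (hK hx)
              rw [List.length_cons] at this
              exact mem_range.2 (by omega)
            · rintro ⟨y, hy, hyx⟩
              rw [← hyx]
              exact (mem_filter.1 hy).2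
      have h3 : Disjoint (K'.image (· + 1)) (if 0 ∈ K then {0} else ∅) := by
        rw [disjoint_left]
        intro x hx hx'
        obtain ⟨y, _, hyx⟩ := mem_image.1 hx
        split_ifs at hx'
        · have := mem_singleton.1 hx'
          omega
        · exact notMem_empty _ hx'
      conv_lhs => rw [h2]
      rw [card_union_of_disjoint h3, card_image_of_injective _ (fun a b h => by simpa using h)]
      split_ifs <;> simp
    by_cases h0 : 0 ∈ K
    · obtain ⟨e, he, h2, h3, h4⟩ := ih h1.2 K' hK's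
      refine ⟨e, he, ?_, fun x hx => h3 x (by rw [Nat.testBit_or, hx, Bool.true_or]), ?_⟩
      · rw [hcard, if_pos h0]
        omega
      · intro b hb x hx
        rcases b with _ | b
        · exact h3 x (by
            rw [Nat.testBit_or, Bool.or_eq_true]
            exact Or.inr hx)
        · refine h4 b (mem_filter.2 ⟨?_, hb⟩) x hx
          have := mem_range.1 (hK hb)
          rw [List.length_cons] at this
          exact mem_range.2 (by omega)
    · obtain ⟨e, he, h2, h3, h4⟩ := ih h1.1 K' hK's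
      refine ⟨e, he, ?_, h3, ?_⟩
      · rw [hcard, if_neg h0]
        omega
      · intro b hb x hx
        rcases b with _ | b
        · exact absurd hb h0
        · refine h4 b (mem_filter.2 ⟨?_, hb⟩) x hx
          have := mem_range.1 (hK hb)
          rw [List.length_cons] at this
          exact mem_range.2 (by omega)

/-! ### the base clauses -/

theorem Gx.cardZ (h : Gx B Q Z P bl ct zt tb) : Z.card = P.zn := by
  have h1 : Z = (range P.zn).image zt := by
    ext v
    rw [mem_image]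
    constructor
    · intro hv
      obtain ⟨z, hz, hzv⟩ := h.Zsub v hv
      exact ⟨z, mem_range.2 hz, hzv⟩
    · rintro ⟨z, hz, rfl⟩
      exact h.ztZ z (mem_range.1 hz)
  rw [h1, card_image_of_injOn, card_range]
  intro a ha b hb hab
  rw [mem_coe, mem_range] at ha hb
  exact h.zt_inj a ha b hb hab

theorem Gx.card_ptm (h : Gx B Q Z P bl ct zt tb) (A : ℕ) : (ptm ct P.M A).card = pcn P.M A := by
  rw [pcn_eq]
  unfold ptm
  refine card_image_of_injOn ?_
  intro a ha b hb he
  rw [mem_coe, mem_filter, mem_range] at ha hb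
  exact h.ct_inj a ha.1 b hb.1 he

theorem Gx.ptmQ (h : Gx B Q Z P bl ct zt tb) (A : ℕ) : ptm ct P.M A ⊆ Q := by
  intro v hv
  obtain ⟨a, ha, _, rfl⟩ := mem_ptm.1 hv
  exact h.ctQ a ha

theorem Gx.cov (h : Gx B Q Z P bl ct zt tb) : Cov B Q := cov_of_reg h.hv.reg

theorem Gx.mem_ptm_iff (h : Gx B Q Z P bl ct zt tb) {a A : ℕ} (ha : a < P.M) :
    ct a ∈ ptm ct P.M A ↔ A.testBit a = true := by
  rw [mem_ptm]
  constructor
  · rintro ⟨b, hb, hA, hab⟩
    rw [← h.ct_inj b hb a ha hab]
    exact hA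
  · intro hA
    exact ⟨a, ha, hA, rfl⟩

/-- a block of the list which meets `Z`. -/
theorem Gx.meetZ (h : Gx B Q Z P bl ct zt tb) {b : ℕ} (hb : b < P.m) : (B (bl b) ∩ Z).Nonempty :=
  (h.bl_all _).2 ⟨b, hb, rfl⟩

theorem Gx.card_tr (h : Gx B Q Z P bl ct zt tb) {b : ℕ} (hb : b < P.m) :
    (B (bl b) ∩ Z).card = pcn P.zn (P.z b) := by
  have h1 : B (bl b) ∩ Z = ptm zt P.zn (P.z b) := by
    ext v
    rw [mem_inter, mem_ptm]
    constructor
    · rintro ⟨h2, h3⟩
      obtain ⟨z, hz, rfl⟩ := h.Zsub v h3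
      exact ⟨z, hz, (h.ztr b hb z hz).1 h2, rfl⟩
    · rintro ⟨z, hz, h2, rfl⟩
      exact ⟨(h.ztr b hb z hz).2 h2, h.ztZ z hz⟩
  rw [h1, pcn_eq]
  unfold ptm
  refine card_image_of_injOn ?_
  intro a ha b hb he
  rw [mem_coe, mem_filter, mem_range] at ha hb
  exact h.zt_inj a ha.1 b hb.1 he

/-- blocks whose traces cover `Z`. -/
theorem Gx.covers (h : Gx B Q Z P bl ct zt tb) {bs : List ℕ} (hbs : ∀ b ∈ bs, b < P.m)
    (ho : (orl (bs.map P.z)) &&& (2 ^ P.zn - 1) = 2 ^ P.zn - 1) {v : V} (hv : v ∈ Z) :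
    ∃ b ∈ bs, v ∈ B (bl b) := by
  obtain ⟨z, hz, rfl⟩ := h.Zsub v hv
  have h1 : (2 ^ P.zn - 1).testBit z = true := by
    rw [Nat.testBit_two_pow_sub_one]
    simpa using hz
  rw [← ho, Nat.testBit_and, Bool.and_eq_true, orl_bit] at h1
  obtain ⟨⟨c, hc, hcz⟩, _⟩ := h1
  obtain ⟨b, hb, rfl⟩ := List.mem_map.1 hc
  exact ⟨b, hb, (h.ztr b (hbs b hb) z hz).2 hcz⟩

theorem Gx.sat_cap (h : Gx B Q Z P bl ct zt tb) {b : ℕ} {l : List ℕ}
    (hok : (Gb.cap b l).ok P = true) : Sat (gval B Q Z P bl ct) ((Gb.cap b l).cl P) := by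
  simp only [Gb.ok, Bool.and_eq_true, Nat.blt_eq, List.all_eq_true] at hok
  obtain ⟨hb, hinc, hl, h4⟩ := hok
  have h4 := Nat.le_of_ble_eq_true h4
  by_contra hcon
  have hmem : ∀ a ∈ l, ct a ∈ B (bl b) := by
    intro a ha
    by_contra h1
    refine hcon ⟨ng (vP b a), List.mem_map.2 ⟨a, ha, rfl⟩, ?_⟩
    have h32 := h.M32
    have := hl a ha
    rw [lit_ng, gval_P (by omega)]
    exact h1
  have h1 := h.hv.tr (bl b)
  have h2 : (l.toFinset.image ct) ∪ (B (bl b) ∩ Z) ⊆ B (bl b) ∩ Q := by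
    refine union_subset ?_ (inter_subset_inter_left h.ZQ)
    intro v hv
    obtain ⟨a, ha, rfl⟩ := mem_image.1 hv
    have ha' := List.mem_toFinset.1 ha
    exact mem_inter.2 ⟨hmem a ha', h.ctQ a (hl a ha')⟩
  have h3 : Disjoint (l.toFinset.image ct) (B (bl b) ∩ Z) := by
    rw [disjoint_left]
    intro v hv hv'
    obtain ⟨a, ha, rfl⟩ := mem_image.1 hv
    exact h.ctZ a (hl a (List.mem_toFinset.1 ha)) (mem_inter.1 hv').2
  have h5 := card_le_card h2
  rw [card_union_of_disjoint h3, h.card_tr hb, card_image_of_injOn (fun a ha b hb hab =>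
    h.ct_inj a (hl a (List.mem_toFinset.1 ha)) b (hl b (List.mem_toFinset.1 hb)) hab),
    List.toFinset_card_of_nodup (inc_nodup hinc)] at h5
  omega

theorem Gx.sat_lo (h : Gx B Q Z P bl ct zt tb) {a k : ℕ} {l : List ℕ}
    (hok : (Gb.lo a k l).ok P = true) : Sat (gval B Q Z P bl ct) ((Gb.lo a k l).cl P) := by
  simp only [Gb.ok, Bool.and_eq_true, Nat.blt_eq, List.all_eq_true] at hok
  obtain ⟨ha, hinc, hl, hk⟩ := hok
  have h32 := h.M32
  by_contra hcon
  have hmem : ∀ b ∈ l, ct a ∉ B (bl b) := by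
    intro b hb h1
    refine hcon ⟨ps (vP b a), List.mem_append_right _ (List.mem_map.2 ⟨b, hb, rfl⟩), ?_⟩
    rw [lit_ps, gval_P (by omega)]
    exact h1
  have hE : k ≤ hts B P.m bl (ct a) := by
    by_cases h1 : Nat.ble k (P.l a) = true
    · exact (Nat.le_of_ble_eq_true h1).trans (h.hlo a ha)
    · by_contra h2
      refine hcon ⟨ng (vE a k), List.mem_append_left _ ?_, ?_⟩
      · rw [if_neg h1]
        exact List.mem_singleton_self _
      · rw [lit_ng, gval_E (by omega)]
        exact h2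
  have h1 : (range P.m).filter (fun b => ct a ∈ B (bl b)) ⊆ range P.m \ l.toFinset := by
    intro b hb
    obtain ⟨h2, h3⟩ := mem_filter.1 hb
    exact mem_sdiff.2 ⟨h2, fun h4 => hmem b (List.mem_toFinset.1 h4) h3⟩
  have h2 := card_le_card h1
  have h3 : l.toFinset ⊆ range P.m := by
    intro b hb
    exact mem_range.2 (hl b (List.mem_toFinset.1 hb))
  rw [card_sdiff_of_subset h3, card_range, List.toFinset_card_of_nodup (inc_nodup hinc)] at h2
  have h4 := card_le_card h3
  rw [card_range, List.toFinset_card_of_nodup (inc_nodup hinc)] at h4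
  unfold hts at hE
  omega

theorem Gx.sat_hi (h : Gx B Q Z P bl ct zt tb) {a k : ℕ} {l : List ℕ}
    (hok : (Gb.hi a k l).ok P = true) : Sat (gval B Q Z P bl ct) ((Gb.hi a k l).cl P) := by
  simp only [Gb.ok, Bool.and_eq_true, Nat.blt_eq, List.all_eq_true] at hok
  obtain ⟨ha, hinc, hl, hk⟩ := hok
  have hk := Nat.le_of_ble_eq_true hk
  have h32 := h.M32
  by_contra hcon
  have hmem : ∀ b ∈ l, ct a ∈ B (bl b) := by
    intro b hb
    by_contra h1
    refine hcon ⟨ng (vP b a), List.mem_append_right _ (List.mem_map.2 ⟨b, hb, rfl⟩), ?_⟩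
    rw [lit_ng, gval_P (by omega)]
    exact h1
  have h1 : l.toFinset ⊆ (range P.m).filter (fun b => ct a ∈ B (bl b)) := by
    intro b hb
    have hb' := List.mem_toFinset.1 hb
    exact mem_filter.2 ⟨mem_range.2 (hl b hb'), hmem b hb'⟩
  have h2 := card_le_card h1
  rw [List.toFinset_card_of_nodup (inc_nodup hinc)] at h2
  have hE : k ≤ hts B P.m bl (ct a) := by
    unfold hts
    omega
  by_cases h3 : Nat.blt (P.h a) k = true
  · have h4 := h.hhi a ha
    rw [Nat.blt_eq] at h3
    omega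
  · refine hcon ⟨ps (vE a k), List.mem_append_left _ ?_, ?_⟩
    · rw [if_neg h3]
      exact List.mem_singleton_self _
    · rw [lit_ps, gval_E (by omega)]
      exact hE

theorem Gx.sat_dd (h : Gx B Q Z P bl ct zt tb) {bs : List ℕ} {ch : List (ℕ × ℕ)} {S : ℕ}
    (hok : (Gb.dd bs ch S).ok P = true) : Sat (gval B Q Z P bl ct) ((Gb.dd bs ch S).cl P) := by
  classical
  simp only [Gb.ok, Bool.and_eq_true, Nat.blt_eq, List.all_eq_true] at hok
  obtain ⟨hr, hbs, ho, hch, hS⟩ := hok
  have hr := Nat.le_of_ble_eq_true hr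
  have ho := Nat.eq_of_beq_eq_true ho
  have h32 := h.M32
  by_contra hcon
  have hmem : ∀ q ∈ ch, ct q.1 ∈ B (bl q.2) := by
    intro q hq
    by_contra h1
    refine hcon ⟨ng (vP q.2 q.1), List.mem_cons_of_mem _ (List.mem_map.2 ⟨q, hq, rfl⟩), ?_⟩
    have := (hch q hq).1
    rw [lit_ng, gval_P (by omega)]
    exact h1
  refine hcon ⟨ps (vA S), List.mem_cons_self, ?_⟩
  rw [lit_ps, gval_A]
  have h1 : Z ∪ ptm ct P.M S ⊆ (bs.toFinset.image bl).biUnion B := by
    refine union_subset ?_ ?_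
    · intro v hv
      obtain ⟨b, hb, hvb⟩ := h.covers hbs ho hv
      exact mem_biUnion.2 ⟨bl b, mem_image.2 ⟨b, List.mem_toFinset.2 hb, rfl⟩, hvb⟩
    · intro v hv
      obtain ⟨a, ha, hSa, rfl⟩ := mem_ptm.1 hv
      have h2 := hS a (List.mem_range.2 ha)
      rw [hSa] at h2
      simp only [Bool.not_true, Bool.false_or] at h2
      obtain ⟨q, hq, h3⟩ := List.any_eq_true.1 h2
      have h3 := Nat.eq_of_beq_eq_true h3
      have h4 := (hch q hq).2
      rw [List.contains_iff_mem] at h4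
      refine mem_biUnion.2 ⟨bl q.2, mem_image.2 ⟨q.2, List.mem_toFinset.2 h4, rfl⟩, ?_⟩
      rw [← h3]
      exact hmem q hq
  refine (rho_le h1).trans ?_
  rw [h.rZ]
  exact (card_image_le.trans (List.toFinset_card_le _)).trans hr

theorem Gx.sat_mono (h : Gx B Q Z P bl ct zt tb) {S S' : ℕ}
    (hok : (Gb.mono S S').ok P = true) : Sat (gval B Q Z P bl ct) ((Gb.mono S S').cl P) := by
  simp only [Gb.ok] at hok
  have hS := Nat.eq_of_beq_eq_true hok
  by_contra hcon
  have h1 : rho B (Z ∪ ptm ct P.M S) ≤ rho B Z := by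
    by_contra h1
    refine hcon ⟨ng (vA S), by simp [Gb.cl], ?_⟩
    rw [lit_ng, gval_A]
    exact h1
  refine hcon ⟨ps (vA S'), by simp [Gb.cl], ?_⟩
  rw [lit_ps, gval_A]
  refine (rho_mono ?_ (h.cov.mono (union_subset h.ZQ (h.ptmQ S)))).trans h1
  refine union_subset_union (Subset.refl _) (ptm_mono fun a _ ha => ?_)
  rw [← hS, Nat.testBit_or, ha, Bool.or_true]

theorem Gx.sat_sh (h : Gx B Q Z P bl ct zt tb) {b : ℕ} {l : List ℕ} {S : ℕ}
    (hok : (Gb.sh b l S).ok P = true) : Sat (gval B Q Z P bl ct) ((Gb.sh b l S).cl P) := by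
  simp only [Gb.ok, Bool.and_eq_true, Nat.blt_eq, List.all_eq_true] at hok
  obtain ⟨hb, hl, hS⟩ := hok
  have h32 := h.M32
  by_contra hcon
  have hmem : ∀ a ∈ l, ct a ∈ B (bl b) := by
    intro a ha
    by_contra h1
    refine hcon ⟨ng (vP b a), List.mem_cons_of_mem _ (List.mem_map.2 ⟨a, ha, rfl⟩), ?_⟩
    have := hl a ha
    rw [lit_ng, gval_P (by omega)]
    exact h1
  refine hcon ⟨ps (vS S), List.mem_cons_self, ?_⟩
  rw [lit_ps, gval_S]
  refine ⟨bl b, fun v hv => ?_⟩
  obtain ⟨a, ha, hSa, rfl⟩ := mem_ptm.1 hv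
  have h2 := hS a (List.mem_range.2 ha)
  rw [hSa] at h2
  simp only [Bool.not_true, Bool.false_or, List.contains_iff_mem] at h2
  exact hmem a h2

theorem Gx.sat_tw (h : Gx B Q Z P bl ct zt tb) {a a' : ℕ} {l : List ℕ}
    (hok : (Gb.tw a a' l).ok P = true) : Sat (gval B Q Z P bl ct) ((Gb.tw a a' l).cl P) := by
  classical
  simp only [Gb.ok, Bool.and_eq_true, Nat.blt_eq, List.all_eq_true] at hok
  obtain ⟨ha, ha', hne, hinc, hl, h4⟩ := hok
  have h4 := Nat.le_of_ble_eq_true h4
  have hne : a ≠ a' := by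
    intro h1
    subst h1
    rw [Nat.beq_refl] at hne
    exact absurd hne (by simp)
  have h32 := h.M32
  by_contra hcon
  have hmem : ∀ b ∈ l, ct a ∈ B (bl b) ∧ ct a' ∈ B (bl b) := by
    intro b hb
    constructor
    · by_contra h1
      refine hcon ⟨ng (vP b a), List.mem_flatMap.2 ⟨b, hb, by simp⟩, ?_⟩
      rw [lit_ng, gval_P (by omega)]
      exact h1
    · by_contra h1
      refine hcon ⟨ng (vP b a'), List.mem_flatMap.2 ⟨b, hb, by simp⟩, ?_⟩
      rw [lit_ng, gval_P (by omega)]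
      exact h1
  have h1 := h.hv.twin (h.ctQ a ha) (h.ctQ a' ha') (fun h1 => hne (h.ct_inj a ha a' ha' h1))
  set J := (List.range P.tm.length).filter
    (fun j => (P.t j).testBit a && (P.t j).testBit a') with hJ
  have hJm : ∀ j ∈ J, j < P.tm.length ∧ (P.t j).testBit a = true ∧ (P.t j).testBit a' = true := by
    intro j hj
    rw [hJ, List.mem_filter, List.mem_range, Bool.and_eq_true] at hj
    exact hj
  have h2 : (l.toFinset.image bl) ∪ (J.toFinset.image tb) ⊆
      univ.filter (fun i => ct a ∈ B i ∧ ct a' ∈ B i) := by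
    refine union_subset ?_ ?_
    · intro i hi
      obtain ⟨b, hb, rfl⟩ := mem_image.1 hi
      exact mem_filter.2 ⟨mem_univ _, hmem b (List.mem_toFinset.1 hb)⟩
    · intro i hi
      obtain ⟨j, hj, rfl⟩ := mem_image.1 hi
      obtain ⟨h5, h6, h7⟩ := hJm j (List.mem_toFinset.1 hj)
      have h8 := h.tbT j h5
      have h9 : ct a ∈ B (tb j) ∩ Q := by
        rw [h8]
        exact (h.mem_ptm_iff ha).2 h6
      have h10 : ct a' ∈ B (tb j) ∩ Q := by
        rw [h8]
        exact (h.mem_ptm_iff ha').2 h7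
      exact mem_filter.2 ⟨mem_univ _, (mem_inter.1 h9).1, (mem_inter.1 h10).1⟩
  have h3 : Disjoint (l.toFinset.image bl) (J.toFinset.image tb) := by
    rw [disjoint_left]
    intro i hi hi'
    obtain ⟨b, hb, rfl⟩ := mem_image.1 hi
    obtain ⟨j, hj, hij⟩ := mem_image.1 hi'
    obtain ⟨v, hv⟩ := h.meetZ (hl b (List.mem_toFinset.1 hb))
    obtain ⟨hv1, hv2⟩ := mem_inter.1 hv
    rw [← hij] at hv1
    have h5 : v ∈ B (tb j) ∩ Q := mem_inter.2 ⟨hv1, h.ZQ hv2⟩
    rw [h.tbT j (hJm j (List.mem_toFinset.1 hj)).1] at h5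
    obtain ⟨c, hc, _, rfl⟩ := mem_ptm.1 h5
    exact h.ctZ c hc hv2
  have h5 := card_le_card h2
  rw [card_union_of_disjoint h3, card_image_of_injOn (fun x hx y hy hxy =>
      h.bl_inj x (hl x (List.mem_toFinset.1 hx)) y (hl y (List.mem_toFinset.1 hy)) hxy),
    card_image_of_injOn (fun x hx y hy hxy =>
      h.tb_inj x (hJm x (List.mem_toFinset.1 hx)).1 y (hJm y (List.mem_toFinset.1 hy)).1 hxy),
    List.toFinset_card_of_nodup (inc_nodup hinc),
    List.toFinset_card_of_nodup (List.nodup_range.filter _), ← hJ] at h5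
  omega

theorem Gx.sat_twz (h : Gx B Q Z P bl ct zt tb) {a z : ℕ} {l : List ℕ}
    (hok : (Gb.twz a z l).ok P = true) : Sat (gval B Q Z P bl ct) ((Gb.twz a z l).cl P) := by
  classical
  simp only [Gb.ok, Bool.and_eq_true, Nat.blt_eq, List.all_eq_true] at hok
  obtain ⟨ha, hz, hinc, hl, h4⟩ := hok
  have h4 := Nat.le_of_ble_eq_true h4
  have h32 := h.M32
  by_contra hcon
  have hmem : ∀ b ∈ l, ct a ∈ B (bl b) := by
    intro b hb
    by_contra h1
    refine hcon ⟨ng (vP b a), List.mem_map.2 ⟨b, hb, rfl⟩, ?_⟩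
    rw [lit_ng, gval_P (by omega)]
    exact h1
  have hzQ : zt z ∈ Q := h.ZQ (h.ztZ z hz)
  have h1 := h.hv.twin (h.ctQ a ha) hzQ (fun h1 => h.ctZ a ha (by rw [h1]; exact h.ztZ z hz))
  have h2 : l.toFinset.image bl ⊆ univ.filter (fun i => ct a ∈ B i ∧ zt z ∈ B i) := by
    intro i hi
    obtain ⟨b, hb, rfl⟩ := mem_image.1 hi
    have hb' := List.mem_toFinset.1 hb
    exact mem_filter.2 ⟨mem_univ _, hmem b hb', (h.ztr b (hl b hb').1 z hz).2 (hl b hb').2⟩
  have h5 := card_le_card h2
  rw [card_image_of_injOn (fun x hx y hy hxy =>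
      h.bl_inj x (hl x (List.mem_toFinset.1 hx)).1 y (hl y (List.mem_toFinset.1 hy)).1 hxy),
    List.toFinset_card_of_nodup (inc_nodup hinc)] at h5
  omega

theorem Gx.sat_dv (h : Gx B Q Z P bl ct zt tb) {ch : List (ℕ × ℕ)}
    (hok : (Gb.dv ch).ok P = true) : Sat (gval B Q Z P bl ct) ((Gb.dv ch).cl P) := by
  classical
  simp only [Gb.ok, Bool.and_eq_true, Nat.blt_eq, List.all_eq_true] at hok
  obtain ⟨hch, hz⟩ := hok
  have h32 := h.M32
  by_contra hcon
  have hmem : ∀ q ∈ ch, ct q.1 ∈ B (bl q.2) := by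
    intro q hq
    by_contra h1
    refine hcon ⟨ng (vP q.2 q.1), List.mem_cons_of_mem _ (List.mem_map.2 ⟨q, hq, rfl⟩), ?_⟩
    have := (hch q hq).1
    rw [lit_ng, gval_P (by omega)]
    exact h1
  refine hcon ⟨ps (vD P.pz), List.mem_cons_self, ?_⟩
  rw [lit_ps, gval_D, h.pz]
  have hee : ee B Q Z = 0 := by
    unfold ee
    rw [card_eq_zero, filter_eq_empty_iff]
    intro t ht h2
    obtain ⟨z, hzn, rfl⟩ := h.Zsub t ht
    have h3 := Nat.le_of_ble_eq_true (hz z (List.mem_range.2 hzn))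
    set J := (List.range P.m).filter (fun b =>
      Nat.beq ((P.z b) &&& (2 ^ P.zn - 1)) (2 ^ z) && !(ch.any (fun q => Nat.beq q.2 b))) with hJ
    have h4 : univ.filter (fun i => B i ∩ Q = {zt z}) ⊆ J.toFinset.image bl := by
      intro i hi
      have hi' := (mem_filter.1 hi).2
      have hzi : zt z ∈ B i ∩ Q := by
        rw [hi']
        exact mem_singleton_self _
      obtain ⟨b, hb, rfl⟩ := (h.bl_all i).1 ⟨zt z, mem_inter.2 ⟨(mem_inter.1 hzi).1, h.ztZ z hzn⟩⟩
      refine mem_image.2 ⟨b, List.mem_toFinset.2 ?_, rfl⟩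
      rw [hJ, List.mem_filter, List.mem_range, Bool.and_eq_true]
      refine ⟨hb, ?_, ?_⟩
      · have h5 : (P.z b) &&& (2 ^ P.zn - 1) = 2 ^ z := by
          refine Nat.eq_of_testBit_eq fun x => ?_
          rw [Nat.testBit_and, Nat.testBit_two_pow_sub_one, Nat.testBit_two_pow]
          by_cases hx : x < P.zn
          · have h6 := h.ztr b hb x hx
            have h7 : (zt x ∈ B (bl b)) ↔ z = x := by
              constructor
              · intro h8
                have h9 : zt x ∈ B (bl b) ∩ Q := mem_inter.2 ⟨h8, h.ZQ (h.ztZ x hx)⟩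
                rw [hi', mem_singleton] at h9
                exact (h.zt_inj x hx z hzn h9).symm
              · rintro rfl
                exact (mem_inter.1 hzi).1
            rw [h7] at h6
            by_cases h8 : z = x
            · rw [h6.1 h8]
              simp [h8, hx]
            · have h9 : (P.z b).testBit x = false := by
                rw [Bool.eq_false_iff]
                exact fun h10 => h8 (h6.2 h10)
              rw [h9]
              simp [h8]
          · have h8 : z ≠ x := by omega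
            simp [hx, h8]
        rw [h5]
        exact Nat.beq_refl _
      · rw [Bool.not_eq_true', List.any_eq_false]
        intro q hq h5
        have h5 := Nat.eq_of_beq_eq_true h5
        have h6 := hmem q hq
        rw [h5] at h6
        have h7 : ct q.1 ∈ B (bl b) ∩ Q := mem_inter.2 ⟨h6, h.ctQ q.1 (hch q hq).1⟩
        rw [hi', mem_singleton] at h7
        exact h.ctZ q.1 (hch q hq).1 (by rw [h7]; exact h.ztZ z hzn)
    have h5 := card_le_card h4
    have h6 : (J.toFinset.image bl).card ≤ J.length :=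
      card_image_le.trans (List.toFinset_card_le _)
    omega
  unfold dv
  rw [hee]
  push_cast
  linarith

/-- **every checked base clause holds.** -/
theorem Gx.sat_base (h : Gx B Q Z P bl ct zt tb) (g : Gb) (hok : g.ok P = true) :
    Sat (gval B Q Z P bl ct) (g.cl P) := by
  cases g with
  | cap b l => exact h.sat_cap hok
  | lo a k l => exact h.sat_lo hok
  | hi a k l => exact h.sat_hi hok
  | dd bs ch S => exact h.sat_dd hok
  | mono S S' => exact h.sat_mono hok
  | sh b l S => exact h.sat_sh hok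
  | tw a a' l => exact h.sat_tw hok
  | twz a z l => exact h.sat_twz hok
  | dv ch => exact h.sat_dv hok

end Gdx

end Pool.Agent.Hyp6
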