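import Pool.Agent.Hyp6.Gdz2
import Pool.Agent.Hyp6.Gdq

/-!
# HYP6 GDZ3: tables for the general deletion, classes without small blocks

The record `Gk` with the number `e` of further parts and data `Gc` for link classes without small
block: a label `y` of the class which is absorbed together with all the new blocks outside the class, and
at most one new block outside the classes with small blocks misses `y`. Such a class costs nothing more;
every other class without small block costs one. `instX4`: instances with all kinds of records.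
-/

set_option autoImplicit false

namespace Pool.Agent.Hyp6

open Finset Pool.Agent.Hyp5 Rup

universe u v

namespace Gdx

/-- the data of a class without small block: mask, label, covers. -/
structure Gc where
  m : ℕ
  y : ℕ
  es : List Ge

/-- the masks have no common label. -/
def sepm (M c m : ℕ) : Bool := (List.range M).all (fun a => !(c.testBit a && m.testBit a))

/-- every union of new blocks outside the mask `m` is covered. -/
def chkJ (M m : ℕ) (es : List Ge) : List ℕ → ℕ → ℕ → Bool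
  | [], acc, k => es.any (fun e => Nat.ble e.n k && Nat.beq (acc ||| e.E) e.E)
  | c :: l, acc, k => chkJ M m es l acc k && (!(sepm M c m) || chkJ M m es l (acc ||| c) (k + 1))

/-- the class starts with a small block. -/
def sml (M : ℕ) : List ℕ → Bool
  | [] => false
  | c :: _ => Nat.ble (pcn M c) 2

/-- the new block `b` lies in a class with a small block. -/
def Gk.ing (P : Gp) (g : Gk) (b : ℕ) : Bool :=
  g.cl.any (fun c => sml P.M c && Nat.beq (b ||| orl c) (orl c))

/-- the data of a class without small block are correct. -/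
def Gc.ok (P : Gp) (g : Gk) (q : Gc) : Bool :=
  Nat.blt q.y P.M && (q.m.testBit q.y && (q.es.all (fun e => e.ok P g.lits) &&
  (chkJ P.M q.m q.es g.N (g.X ||| 2 ^ q.y) 0 &&
  Nat.ble (g.N.countP (fun b => !(b.testBit q.y) && !(g.ing P b))) 1)))

/-- the link class is correct. -/
def Gk.cok4 (P : Gp) (g : Gk) : List ℕ → Bool
  | [] => false
  | c :: l => g.N.contains c && (Nat.ble 1 (pcn P.M c) && g.lnk P l c)

/-- there are data for the class. -/
def isq (qs : List Gc) (c : List ℕ) : Bool := qs.any (fun q => Nat.beq q.m (orl c))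

/-- the number of the classes which cost one more. -/
def Gk.npen (P : Gp) (g : Gk) (qs : List Gc) : ℕ :=
  (g.cl.filter (fun c => !(sml P.M c) && !(isq qs c))).length

/-- the general deletion with `e` further parts is correct. -/
def Gk.ok4 (P : Gp) (e : ℕ) (qs : List Gc) (g : Gk) : Bool :=
  (List.range P.M).all (fun a => g.lab P a) &&
  (g.N.all (fun c => Nat.ble (pcn P.M c) 3) &&
  (Nat.blt (((List.range P.M).map (fun a => g.cx P e a)).sum +
    ((List.range P.M).map (fun a => g.cs P e a)).sum) (3 * (e + 1)) &&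
  (inc g.I && (g.I.all (fun j => Nat.blt j P.tm.length) &&
  (g.es.all (fun e => e.ok P g.lits) &&
  (chkK g.es g.N g.X 0 &&
  (g.cl.all (fun c => g.cok4 P c) &&
  ((List.range P.M).all (fun a => Nat.beq (deg1 g.N a) 0 ||
    g.cl.any (fun c => (orl c).testBit a)) &&
  (Nat.blt 0 g.cl.length &&
  (Nat.ble (4 * g.N.length + g.cl.length + g.npen P qs + e + 9 +
    (if Nat.ble (pcn P.M g.X + P.zn) (1 + 2 * P.r) && Nat.blt (g.npen P qs) g.cl.length
      then 0 else 1))
      (g.dn + 5 * pcn P.M g.X + 4 * g.I.length) &&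
  ((Nat.ble g.dn P.d0 || g.lits.contains (ng (vD g.dn))) &&
  (qs.all (fun q => q.ok P g) && Nat.ble g.cl.length 20))))))))))))

variable {V : Type v} [DecidableEq V] {ι : Type u} [Fintype ι]
  {B : ι → Finset V} {Q Z : Finset V} {P : Gp} {bl : ℕ → ι} {ct zt : ℕ → V} {tb : ℕ → ι}

theorem countP_getD (p : ℕ → Bool) (N : List ℕ) :
    N.countP p = ((range N.length).filter (fun c => p (N.getD c 0) = true)).card := by
  induction N with
  | nil => simp
  | cons c N ih =>
    rw [List.countP_cons, ih, card_filter, card_filter, List.length_cons, sum_range_succ']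
    congr 1

theorem chkJ_spec {M m : ℕ} {es : List Ge} : ∀ {N : List ℕ} {acc k : ℕ},
    chkJ M m es N acc k = true →
    ∀ K ⊆ range N.length, (∀ c ∈ K, sepm M (N.getD c 0) m = true) →
      ∃ e ∈ es, e.n ≤ k + K.card ∧
      (∀ x, acc.testBit x = true → e.E.testBit x = true) ∧
      ∀ c ∈ K, ∀ x, (N.getD c 0).testBit x = true → e.E.testBit x = true := by
  intro N
  induction N with
  | nil =>
    intro acc k h K hK _
    have hK0 : K = ∅ := by simpa using hK
    subst hK0
    have h1 : es.any (fun e => Nat.ble e.n k && Nat.beq (acc ||| e.E) e.E) = true := h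
    obtain ⟨e, he, h2⟩ := List.any_eq_true.1 h1
    rw [Bool.and_eq_true] at h2
    have h3 : e.n ≤ k := Nat.le_of_ble_eq_true h2.1
    have h4 : acc ||| e.E = e.E := Nat.eq_of_beq_eq_true h2.2
    refine ⟨e, he, by simpa using h3, fun x hx => ?_, fun c hc => absurd hc (notMem_empty _)⟩
    rw [← h4, Nat.testBit_or, hx, Bool.true_or]
  | cons c N ih =>
    intro acc k h K hK hsep
    have h1 : (chkJ M m es N acc k && (!(sepm M c m) || chkJ M m es N (acc ||| c) (k + 1))) =
      true := h
    rw [Bool.and_eq_true] at h1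
    set K' : Finset ℕ := (range N.length).filter (fun b => b + 1 ∈ K) with hK'
    have hK's : K' ⊆ range N.length := filter_subset _ _
    have hsep' : ∀ b ∈ K', sepm M (N.getD b 0) m = true := fun b hb => by
      have h2 := hsep (b + 1) (mem_filter.1 hb).2
      rwa [List.getD_cons_succ] at h2
    have hmem : ∀ b, b + 1 ∈ K → b ∈ K' := fun b hb => by
      refine mem_filter.2 ⟨?_, hb⟩
      have := mem_range.1 (hK hb)
      rw [List.length_cons] at this
      exact mem_range.2 (by omega)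
    have himg : K'.image (· + 1) ⊆ K := fun x hx => by
      obtain ⟨y, hy, rfl⟩ := mem_image.1 hx
      exact (mem_filter.1 hy).2
    have hci : (K'.image (· + 1)).card = K'.card :=
      card_image_of_injective _ (fun a b hab => by simpa using hab)
    by_cases h0 : 0 ∈ K
    · have h2 := hsep 0 h0
      rw [List.getD_cons_zero] at h2
      rw [h2] at h1
      obtain ⟨e, he, k1, k2, k3⟩ := ih (by simpa using h1.2) K' hK's hsep'
      have hc : K'.card + 1 ≤ K.card := by
        have h3 : (0 : ℕ) ∉ K'.image (· + 1) := by simp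
        rw [← hci, ← card_insert_of_notMem h3]
        exact card_le_card (insert_subset h0 himg)
      refine ⟨e, he, by omega, fun x hx => k2 x (by rw [Nat.testBit_or, hx, Bool.true_or]),
        fun b hb x hx => ?_⟩
      rcases b with _ | b
      · rw [List.getD_cons_zero] at hx
        exact k2 x (by rw [Nat.testBit_or, hx, Bool.or_true])
      · rw [List.getD_cons_succ] at hx
        exact k3 b (hmem b hb) x hx
    · obtain ⟨e, he, k1, k2, k3⟩ := ih h1.1 K' hK's hsep'
      have hc : K'.card ≤ K.card := by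
        rw [← hci]
        exact card_le_card himg
      refine ⟨e, he, by omega, k2, fun b hb x hx => ?_⟩
      rcases b with _ | b
      · exact absurd hb h0
      · rw [List.getD_cons_succ] at hx
        exact k3 b (hmem b hb) x hx

/-- **every checked general deletion gives a clause which holds.** -/
theorem Gx.sat_gd4 (h : Gx B Q Z P bl ct zt tb) (g : Gk) (e0 : ℕ) (qs : List Gc)
    (hok : g.ok4 P e0 qs = true) :
    Sat (gval B Q Z P bl ct) g.lits := by
  classical
  by_contra hcon
  have hf : ∀ l ∈ g.lits, ¬ Lit (gval B Q Z P bl ct) l := fun l hl hL => hcon ⟨l, hl, hL⟩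
  unfold Gk.ok4 at hok
  simp only [Bool.and_eq_true] at hok
  obtain ⟨hlab, hN3, hXS, hinc, hIl, hes, hK, hcl, hcov, hcl0, hnum, hdn, hqs, hcl20⟩ := hok
  have hlab : ∀ a < P.M, g.lab P a = true := fun a ha =>
    List.all_eq_true.1 hlab a (List.mem_range.2 ha)
  have hN3 : ∀ c ∈ g.N, pcn P.M c ≤ 3 := fun c hc =>
    Nat.le_of_ble_eq_true (List.all_eq_true.1 hN3 c hc)
  have hInd := inc_nodup hinc
  have hIl : ∀ j ∈ g.I, j < P.tm.length := fun j hj => by
    have := List.all_eq_true.1 hIl j hj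
    rwa [Nat.blt_eq] at this
  have hes : ∀ e ∈ g.es, e.ok P g.lits = true := fun e he => List.all_eq_true.1 hes e he
  have hcl : ∀ c ∈ g.cl, g.cok4 P c = true := fun c hc => List.all_eq_true.1 hcl c hc
  have hqs : ∀ q ∈ qs, q.ok P g = true := fun q hq => List.all_eq_true.1 hqs q hq
  have hcl20 := Nat.le_of_ble_eq_true hcl20
  have hnum := Nat.le_of_ble_eq_true hnum
  rw [Nat.blt_eq] at hcl0 hXS
  have hv := h.hv
  -- the sets
  set X := ptm ct P.M g.X with hX
  set Yl := (range P.M).filter (fun a => ¬ g.X.testBit a = true ∧ 0 < deg1 g.N a) with hYl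
  set Y := Yl.image ct with hY
  set I := g.I.toFinset.image tb with hI
  set N : ULift.{u} (Fin g.N.length) → Finset V := fun c =>
    ptm ct P.M (g.N.getD c.down.val 0) with hN
  have hmY : ∀ {v : V}, v ∈ Y ↔ ∃ a < P.M, (¬ g.X.testBit a = true ∧ 0 < deg1 g.N a) ∧ ct a = v := by
    intro v
    rw [hY, mem_image]
    constructor
    · rintro ⟨a, ha, hav⟩
      rw [hYl, mem_filter, mem_range] at ha
      exact ⟨a, ha.1, ha.2, hav⟩
    · rintro ⟨a, ha, h1, hav⟩
      exact ⟨a, mem_filter.2 ⟨mem_range.2 ha, h1⟩, hav⟩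
  have hmYct : ∀ {a : ℕ}, a < P.M → (ct a ∈ Y ↔ (¬ g.X.testBit a = true ∧ 0 < deg1 g.N a)) := by
    intro a ha
    rw [hmY]
    constructor
    · rintro ⟨b, hb, h1, hab⟩
      rw [← h.ct_inj b hb a ha hab]
      exact h1
    · intro h1
      exact ⟨a, ha, h1, rfl⟩
  have hXQ : X ⊆ Q := h.ptmQ g.X
  have hYQ : Y ⊆ Q := by
    intro v hv'
    obtain ⟨a, ha, _, rfl⟩ := hmY.1 hv'
    exact h.ctQ a ha
  have dZX : Disjoint Z X := by
    rw [disjoint_left]
    intro v hv1 hv2
    obtain ⟨a, ha, _, rfl⟩ := mem_ptm.1 hv2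
    exact h.ctZ a ha hv1
  have dZY : Disjoint Z Y := by
    rw [disjoint_left]
    intro v hv1 hv2
    obtain ⟨a, ha, _, rfl⟩ := hmY.1 hv2
    exact h.ctZ a ha hv1
  have dXY : Disjoint X Y := by
    rw [disjoint_left]
    intro v hv1 hv2
    obtain ⟨a, ha, h1, rfl⟩ := hmY.1 hv2
    exact h1.1 ((h.mem_ptm_iff ha).1 hv1)
  -- labels with a hit or in a deleted triple are in X or Y
  have hin : ∀ a < P.M, 0 < hts B P.m bl (ct a) + g.idg P a → ct a ∈ X ∪ Y := by
    intro a ha h1
    by_cases h2 : g.X.testBit a = true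
    · exact mem_union_left _ ((h.mem_ptm_iff ha).2 h2)
    · have h3 := h.lab_out hf ha (hlab a ha) h2
      exact mem_union_right _ ((hmYct ha).2 ⟨h2, by omega⟩)
  have hcon' : ∀ i, (B i ∩ Z).Nonempty → B i ∩ Q ⊆ (Z ∪ X) ∪ Y := by
    intro i hi v hv'
    obtain ⟨hvi, hvQ⟩ := mem_inter.1 hv'
    obtain ⟨b, hb, rfl⟩ := (h.bl_all i).1 hi
    rcases h.con b hb v hvi hvQ with h1 | ⟨a, ha, rfl⟩
    · exact mem_union_left _ (mem_union_left _ h1)
    · have h1 : 0 < hts B P.m bl (ct a) :=
        card_pos.2 ⟨b, mem_filter.2 ⟨mem_range.2 hb, hvi⟩⟩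
      rcases mem_union.1 (hin a ha (by omega)) with h2 | h2
      · exact mem_union_left _ (mem_union_right _ h2)
      · exact mem_union_right _ h2
  have hfull : ∀ i ∈ I, B i ∩ Q ⊆ X ∪ Y ∧ (B i ∩ Q).card = 3 := by
    intro i hi
    obtain ⟨j, hj, rfl⟩ := mem_image.1 hi
    have hj' := List.mem_toFinset.1 hj
    refine ⟨?_, h.tb3 j (hIl j hj')⟩
    rw [h.tbT j (hIl j hj')]
    intro v hv'
    obtain ⟨a, ha, h1, rfl⟩ := mem_ptm.1 hv'
    refine hin a ha ?_
    have h2 : 0 < g.idg P a := by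
      unfold Gk.idg
      rw [List.countP_pos_iff]
      exact ⟨j, hj', h1⟩
    omega
  have hsubN : ∀ c, N c ⊆ Y := by
    intro c v hv'
    obtain ⟨a, ha, h1, rfl⟩ := mem_ptm.1 hv'
    have h2 : 0 < deg1 g.N a := deg1_pos.2 ⟨_, getD_mem c.down.isLt, h1⟩
    refine (hmYct ha).2 ⟨fun h3 => ?_, h2⟩
    have h4 := hlab a ha
    unfold Gk.lab at h4
    rw [if_pos h3] at h4
    have h5 := Nat.eq_of_beq_eq_true h4
    omega
  have hdegN : ∀ a < P.M, (univ.filter (fun c => ct a ∈ N c)).card = deg1 g.N a := by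
    intro a ha
    rw [deg1_eq, ← card_ul.{u} (n := g.N.length)
      (fun c => (g.N.getD c 0).testBit a = true)]
    congr 1
    ext c
    simp only [mem_filter, mem_univ, true_and]
    exact h.mem_ptm_iff ha
  have hkp : ∀ a < P.M, (Gdl.kp B Z I (ct a)).card +
      (hts B P.m bl (ct a) + g.idg P a) = 5 := fun a ha => h.card_kp hInd hIl ha
  -- the cost
  have hcost : ∀ K : Finset (ULift.{u} (Fin g.N.length)),
      rho B ((Z ∪ X) ∪ K.biUnion N) ≤ rho B Z + K.card := by
    intro K
    set K' := K.image (fun c => c.down.val) with hK'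
    have hK'c : K'.card = K.card := card_image_of_injective _ fun c d hcd =>
      ULift.down_injective (Fin.ext hcd)
    have hK's : K' ⊆ range g.N.length := by
      intro k hk
      obtain ⟨c, _, rfl⟩ := mem_image.1 hk
      exact mem_range.2 c.down.isLt
    obtain ⟨e, he, h1, h2, h3⟩ := chkK_spec hK K' hK's
    have h4 := h.cover hf (hes e he)
    have h5 : (Z ∪ X) ∪ K.biUnion N ⊆ Z ∪ ptm ct P.M e.E := by
      refine union_subset (union_subset_union (Subset.refl _) (ptm_mono fun a _ ha => h2 a ha)) ?_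
      intro v hv'
      obtain ⟨c, hc, hvc⟩ := mem_biUnion.1 hv'
      obtain ⟨a, ha, h6, rfl⟩ := mem_ptm.1 hvc
      exact mem_union_right _ ((h.mem_ptm_iff ha).2 (h3 c.down.val (mem_image.2 ⟨c, hc, rfl⟩) a h6))
    have h6 := rho_mono h5 (h.cov.mono (union_subset h.ZQ (h.ptmQ e.E)))
    omega
  -- lost and new blocks
  have hlos : ∀ a < P.M, Gdl.los B Z I (ct a) = hts B P.m bl (ct a) + g.idg P a := by
    intro a ha
    have k1 := hkp a ha
    have k2 := Gdl.kp_card (B := B) (I := I) hv.reg h.ZQ dZX dZY hfull (h.ctQ a ha)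
    omega
  have hnnd : ∀ a < P.M, Gdl.nnd N (ct a) = deg1 g.N a := hdegN
  set S' := Y ∩ ptm ct P.M g.S with hS'
  have hS'c : S'.card ≤ pcn P.M g.S := by
    rw [← h.card_ptm]
    exact card_le_card inter_subset_right
  have hXc : X.card = pcn P.M g.X := h.card_ptm g.X
  have hdegle : ∀ y ∈ Y, Gdl.los B Z I y ≤ Gdl.nnd N y ∧ Gdl.nnd N y ≤ 5 := fun y hy => by
    obtain ⟨a, ha, h1, rfl⟩ := hmY.1 hy
    rw [hlos a ha, hnnd a ha]
    exact ⟨(h.lab_out hf ha (hlab a ha) h1.1).2.2.1, (h.lab_out hf ha (hlab a ha) h1.1).2.1⟩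
  have hEx : ∀ y ∈ Y, ∃ s ⊆ Gdl.kp B Z I y, s.card = 5 - Gdl.nnd N y := by
    intro y hy
    refine exists_subset_card_eq ?_
    have k1 := Gdl.kp_card (B := B) (I := I) hv.reg h.ZQ dZX dZY hfull (hYQ hy)
    have k2 := hdegle y hy
    omega
  choose! E hE1 hE2 using hEx
  have hG : Gdl B Q Z X Y I E N :=
    { reg := hv.reg
      tr := hv.tr
      LQ := h.ZQ
      XQ := hXQ
      YQ := hYQ
      dLX := dZX
      dLY := dZY
      dXY := dXY
      con := hcon'
      full := hfull
      mem := fun y hy i hi => (Gdl.mem_kp.1 (hE1 y hy hi)).1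
      keep := fun y hy i hi => (Gdl.mem_kp.1 (hE1 y hy hi)).2
      subN := hsubN
      deg := fun y hy => by
        have k1 : (univ.filter (fun c => y ∈ N c)).card = Gdl.nnd N y := rfl
        have k2 := hdegle y hy
        rw [hE2 y hy, k1]
        omega
      sizeN := fun c => by
        have h1 := h.card_ptm (g.N.getD c.down.val 0)
        rw [hN]
        simp only
        rw [h1]
        exact hN3 _ (getD_mem c.down.isLt)
      cost := hcost }
  have hEk : ∀ y ∈ Y, y ∉ S' → ∀ i, y ∈ B i → ¬ (B i ∩ Z).Nonempty → i ∉ I → i ∈ E y := by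
    intro y hy hyS i hyi hi1 hi2
    have k1 : E y = Gdl.kp B Z I y := by
      refine eq_of_subset_of_card_le (hE1 y hy) ?_
      have k2 := Gdl.kp_card (B := B) (I := I) hv.reg h.ZQ dZX dZY hfull (hYQ hy)
      rw [hE2 y hy]
      obtain ⟨a, ha, h1, rfl⟩ := hmY.1 hy
      have k3 := (h.lab_out hf ha (hlab a ha) h1.1).2.2.2 (by omega)
        (fun h3 => hyS (mem_inter.2 ⟨hy, (h.mem_ptm_iff ha).2 h3⟩))
      rw [← hlos a ha, ← hnnd a ha] at k3
      omega
    rw [k1, Gdl.mem_kp]
    exact ⟨hyi, hi1, hi2⟩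
  have hkeep : ∀ y ∈ Y, y ∉ S' → ∀ i, y ∈ B i → (B i ∩ Gdl.rm Q Z X Y).Nonempty → i ∈ E y := by
    intro y hy hyS i hyi hne
    obtain ⟨_, k2, k3⟩ := Gdl.mem_kp.1 (Gdl.mem_kp_of hfull hcon' hyi hne)
    exact hEk y hy hyS i hyi k2 k3
  have hm0 : ∑ x ∈ X, min (5 - Gdl.los B Z I x) (e0 + 1) +
      ∑ y ∈ S', min (Gdl.nnd N y - Gdl.los B Z I y) (e0 + 1) < 3 * (e0 + 1) := by
    refine lt_of_le_of_lt ?_ hXS
    rw [sum_range_map, sum_range_map]
    refine Nat.add_le_add ?_ ?_
    · have k1 : X = ((range P.M).filter (fun a => g.X.testBit a = true)).image ct := rfl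
      rw [k1, sum_image (fun a ha b hb hab => by
        rw [mem_coe, mem_filter, mem_range] at ha hb
        exact h.ct_inj a ha.1 b hb.1 hab), sum_filter]
      refine sum_le_sum fun a ha => ?_
      rw [mem_range] at ha
      unfold Gk.cx
      split_ifs with k2
      · rw [hlos a ha]
        have := h.hlo a ha
        exact min_le_min_right _ (by omega)
      · exact le_rfl
    · have k1 : S' = ((range P.M).filter (fun a => g.S.testBit a = true ∧
          (¬ g.X.testBit a = true ∧ 0 < deg1 g.N a))).image ct := by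
        ext v
        rw [hS', mem_inter, hmY, mem_image]
        constructor
        · rintro ⟨⟨a, ha, k3, rfl⟩, k4⟩
          exact ⟨a, mem_filter.2 ⟨mem_range.2 ha, (h.mem_ptm_iff ha).1 k4, k3⟩, rfl⟩
        · rintro ⟨a, ha, rfl⟩
          obtain ⟨k3, k4, k5⟩ := mem_filter.1 ha
          rw [mem_range] at k3
          exact ⟨⟨a, k3, k5, rfl⟩, (h.mem_ptm_iff k3).2 k4⟩
      rw [k1, sum_image (fun a ha b hb hab => by
        rw [mem_coe, mem_filter, mem_range] at ha hb
        exact h.ct_inj a ha.1 b hb.1 hab), sum_filter]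
      refine sum_le_sum fun a ha => ?_
      rw [mem_range] at ha
      unfold Gk.cs
      by_cases k2 : g.S.testBit a = true ∧ (¬ g.X.testBit a = true ∧ 0 < deg1 g.N a)
      · rw [if_pos k2]
        have k3 : (g.S.testBit a && (!(g.X.testBit a) && Nat.blt 0 (deg1 g.N a))) = true := by
          rw [Bool.and_eq_true, Bool.and_eq_true, Nat.blt_eq, Bool.not_eq_true']
          exact ⟨k2.1, by
            rw [Bool.eq_false_iff]
            exact k2.2.1, k2.2.2⟩
        rw [if_pos k3, hlos a ha, hnnd a ha]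
        have := h.hlo a ha
        exact min_le_min_right _ (by omega)
      · rw [if_neg k2]
        exact Nat.zero_le _
  have hw := hG.wir
  -- the link classes
  have hlk : ∀ c, g.lk P c = true → ptm ct P.M c ⊆ Y ∧
      ∀ W, Closed (gr (absG B (Gdl.rm Q Z X Y) Y E N)) (Gdl.rm Q Z X Y ∪ Y) W →
        ∀ x ∈ ptm ct P.M c, x ∈ W → ptm ct P.M c ⊆ W := by
    intro c hc
    unfold Gk.lk at hc
    rw [Bool.or_eq_true] at hc
    rcases hc with hc | hc
    · rw [List.contains_iff_mem] at hc
      obtain ⟨k, hk, hkc⟩ := List.mem_iff_getElem.1 hc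
      have h1 : N (ULift.up ⟨k, hk⟩) = ptm ct P.M c := by
        rw [hN]
        simp only
        rw [List.getD_eq_getElem _ _ hk, hkc]
      have h2 : ptm ct P.M c ⊆ Y := by
        rw [← h1]
        exact hsubN _
      refine ⟨h2, fun W hW x hx hxW y hy => ?_⟩
      by_cases hxy : x = y
      · rw [← hxy]
        exact hxW
      · rw [← h1] at hx hy
        exact hW.2 x hxW y (mem_union_right _ (hsubN _ hy)) (hw.adj_N hxy hx hy)
    · obtain ⟨j, hj, h1⟩ := List.any_eq_true.1 hc
      rw [List.mem_range] at hj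
      rw [Bool.and_eq_true, Bool.not_eq_true', List.all_eq_true] at h1
      obtain ⟨hjI, h1⟩ := h1
      have hjI' : tb j ∉ I := by
        intro h2
        obtain ⟨j', hj', h3⟩ := mem_image.1 h2
        have hj'' := List.mem_toFinset.1 hj'
        have h4 := h.tb_inj j' (hIl j' hj'') j hj h3
        rw [h4] at hj''
        have h5 : g.I.contains j = true := List.contains_iff_mem.2 hj''
        rw [h5] at hjI
        exact _root_.absurd hjI (by simp)
      have h2 : ∀ a < P.M, c.testBit a = true → (P.t j).testBit a = true ∧ ct a ∈ Y ∧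
          ¬ g.S.testBit a = true := by
        intro a ha hca
        have h3 := h1 a (List.mem_range.2 ha)
        rw [hca] at h3
        simp only [Bool.not_true, Bool.false_or, Bool.and_eq_true, Nat.blt_eq,
          Bool.not_eq_true'] at h3
        obtain ⟨h4, h5, h6, h7⟩ := h3
        refine ⟨h4, (hmYct ha).2 ⟨?_, h6⟩, ?_⟩
        · rw [h5]
          simp
        · rw [h7]
          simp
      have hkey : ∀ a < P.M, c.testBit a = true → tb j ∈ E (ct a) := by
        intro a ha hca
        obtain ⟨h3, h4, h5⟩ := h2 a ha hca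
        refine hEk _ h4 (fun k1 => h5 ((h.mem_ptm_iff ha).1 (mem_inter.1 k1).2)) _ ?_
          (h.tb_not_meet hj) hjI'
        have h6 := (h.mem_ptm_iff ha).2 h3
        rw [← h.tbT j hj] at h6
        exact (mem_inter.1 h6).1
      refine ⟨fun v hv' => ?_, fun W hW x hx hxW y hy => ?_⟩
      · obtain ⟨a, ha, hca, rfl⟩ := mem_ptm.1 hv'
        exact (h2 a ha hca).2.1
      · by_cases hxy : x = y
        · rw [← hxy]
          exact hxW
        · obtain ⟨a, ha, hca, rfl⟩ := mem_ptm.1 hx
          obtain ⟨b, hb, hcb, rfl⟩ := mem_ptm.1 hy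
          refine hW.2 _ hxW _ (mem_union_right _ (h2 b hb hcb).2.1)
            ⟨hxy, Sum.inl (tb j), ?_, ?_⟩
          · exact mem_absG_inl.2 (Or.inr ⟨(h2 a ha hca).2.1, hkey a ha hca⟩)
          · exact mem_absG_inl.2 (Or.inr ⟨(h2 b hb hcb).2.1, hkey b hb hcb⟩)
  have hlnk : ∀ (l : List ℕ) (acc : ℕ), g.lnk P l acc = true → ptm ct P.M acc ⊆ Y →
      (∀ W, Closed (gr (absG B (Gdl.rm Q Z X Y) Y E N)) (Gdl.rm Q Z X Y ∪ Y) W →
        ∀ x ∈ ptm ct P.M acc, x ∈ W → ptm ct P.M acc ⊆ W) →
      ptm ct P.M (acc ||| orl l) ⊆ Y ∧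
      ∀ W, Closed (gr (absG B (Gdl.rm Q Z X Y) Y E N)) (Gdl.rm Q Z X Y ∪ Y) W →
        ∀ x ∈ ptm ct P.M (acc ||| orl l), x ∈ W → ptm ct P.M (acc ||| orl l) ⊆ W := by
    intro l
    induction l with
    | nil =>
      intro acc _ h1 h2
      have h3 : acc ||| orl [] = acc := Nat.or_zero acc
      rw [h3]
      exact ⟨h1, h2⟩
    | cons c l ih =>
      intro acc hl h1 h2
      have hl' : (g.lk P c && ((List.range P.M).any (fun a => c.testBit a && acc.testBit a) &&
        g.lnk P l (acc ||| c))) = true := hl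
      rw [Bool.and_eq_true, Bool.and_eq_true] at hl'
      obtain ⟨h3, h4, h5⟩ := hl'
      obtain ⟨h6, h7⟩ := hlk c h3
      obtain ⟨a, ha, h8⟩ := List.any_eq_true.1 h4
      rw [List.mem_range] at ha
      rw [Bool.and_eq_true] at h8
      have h9 : acc ||| orl (c :: l) = (acc ||| c) ||| orl l := (Nat.or_assoc acc c (orl l)).symm
      rw [h9]
      have hac := (h.mem_ptm_iff (A := c) ha).2 h8.1
      have haa := (h.mem_ptm_iff (A := acc) ha).2 h8.2
      refine ih (acc ||| c) h5 ?_ ?_
      · rw [ptm_or]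
        exact union_subset h1 h6
      · intro W hW x hx hxW
        rw [ptm_or] at hx ⊢
        rcases mem_union.1 hx with hx | hx
        · have k1 := h2 W hW x hx hxW
          exact union_subset k1 (h7 W hW (ct a) hac (k1 haa))
        · have k1 := h7 W hW x hx hxW
          exact union_subset (h2 W hW (ct a) haa (k1 hac)) k1
  have hcls : ∀ c ∈ g.cl, ptm ct P.M (orl c) ⊆ Y ∧
      (∀ W, Closed (gr (absG B (Gdl.rm Q Z X Y) Y E N)) (Gdl.rm Q Z X Y ∪ Y) W →
        ∀ x ∈ ptm ct P.M (orl c), x ∈ W → ptm ct P.M (orl c) ⊆ W) ∧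
      ∃ k, (N k).Nonempty ∧ (sml P.M c = true → (N k).card ≤ 2) ∧ N k ⊆ ptm ct P.M (orl c) := by
    intro c hc
    have h1 := hcl c hc
    rcases c with _ | ⟨c0, l⟩
    · exact _root_.absurd h1 (by simp [Gk.cok4])
    · have h1' : (g.N.contains c0 && (Nat.ble 1 (pcn P.M c0) && g.lnk P l c0)) = true := h1
      rw [Bool.and_eq_true, Bool.and_eq_true, List.contains_iff_mem] at h1'
      obtain ⟨h2, h4, h5⟩ := h1'
      have h4 := Nat.le_of_ble_eq_true h4
      have h6 : g.lk P c0 = true := by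
        unfold Gk.lk
        rw [List.contains_iff_mem.2 h2, Bool.true_or]
      obtain ⟨h7, h8⟩ := hlk c0 h6
      obtain ⟨h9, h10⟩ := hlnk l c0 h5 h7 h8
      have h11 : orl (c0 :: l) = c0 ||| orl l := rfl
      rw [h11]
      refine ⟨h9, h10, ?_⟩
      obtain ⟨k, hk, hkc⟩ := List.mem_iff_getElem.1 h2
      have h12 : N (ULift.up ⟨k, hk⟩) = ptm ct P.M c0 := by
        rw [hN]
        simp only
        rw [List.getD_eq_getElem _ _ hk, hkc]
      refine ⟨ULift.up ⟨k, hk⟩, ?_, ?_, ?_⟩
      · rw [h12, ← card_pos, h.card_ptm]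
        omega
      · intro hs
        rw [h12, h.card_ptm]
        exact Nat.le_of_ble_eq_true hs
      · rw [h12, ptm_or]
        exact subset_union_left
  set A : Finset (Finset V) := (g.cl.map (fun c => ptm ct P.M (orl c))).toFinset with hA
  have hmA : ∀ {s : Finset V}, s ∈ A ↔ ∃ c ∈ g.cl, ptm ct P.M (orl c) = s := by
    intro s
    rw [hA, List.mem_toFinset, List.mem_map]
  have hAcard : A.card ≤ g.cl.length := by
    rw [hA]
    exact (List.toFinset_card_le _).trans (by rw [List.length_map])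
  have hYne : Y.Nonempty := by
    obtain ⟨c, hc⟩ : ∃ c, c ∈ g.cl := List.exists_mem_of_length_pos hcl0
    obtain ⟨h1, _, k, ⟨v, hv'⟩, _, _⟩ := hcls c hc
    exact ⟨v, hsubN k hv'⟩
  have hn : (Gdl.rm Q Z X Y).card + Y.card < Q.card := by
    rw [← card_union_of_disjoint hw.dis]
    refine card_lt_card (Finset.ssubset_iff_subset_ne.2 ⟨union_subset hw.CQ hYQ, fun h1 => ?_⟩)
    obtain ⟨z, hz⟩ := h.Zne
    have h2 := h.ZQ hz
    rw [← h1] at h2
    rcases mem_union.1 h2 with h3 | h3
    · exact (Gdl.mem_rm.1 h3).2.1 hz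
    · exact disjoint_left.1 dZY hz h3
  have hAY : ∀ a ∈ A, a ⊆ Y := fun a ha => by
    obtain ⟨c, hc, rfl⟩ := hmA.1 ha
    exact (hcls c hc).1
  have hcovA : ∀ y ∈ Y, ∃ a ∈ A, y ∈ a := fun y hy => by
    obtain ⟨a, ha, h1, rfl⟩ := hmY.1 hy
    have h2 := List.all_eq_true.1 hcov a (List.mem_range.2 ha)
    rw [Bool.or_eq_true] at h2
    rcases h2 with h2 | h2
    · have h3 := Nat.eq_of_beq_eq_true h2
      omega
    · obtain ⟨c, hc, h3⟩ := List.any_eq_true.1 h2
      exact ⟨_, hmA.2 ⟨c, hc, rfl⟩, (h.mem_ptm_iff ha).2 h3⟩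
  have hlinkA : ∀ W, Closed (gr (absG B (Gdl.rm Q Z X Y) Y E N)) (Gdl.rm Q Z X Y ∪ Y) W →
      ∀ a ∈ A, a ⊆ W ∨ Disjoint a W := fun W hW a ha => by
    obtain ⟨c, hc, rfl⟩ := hmA.1 ha
    by_cases h1 : Disjoint (ptm ct P.M (orl c)) W
    · exact Or.inr h1
    · rw [not_disjoint_iff] at h1
      obtain ⟨x, hx1, hx2⟩ := h1
      exact Or.inl ((hcls c hc).2.1 W hW x hx1 hx2)
  have hAne : ∀ a ∈ A, a.Nonempty := fun a ha => by
    obtain ⟨c, hc, rfl⟩ := hmA.1 ha
    obtain ⟨_, _, k, ⟨v, hv'⟩, _, h3⟩ := hcls c hc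
    exact ⟨v, h3 hv'⟩
  have hSml : ∀ c ∈ g.cl, sml P.M c = true → Gdl.Sml N (ptm ct P.M (orl c)) := fun c hc hs => by
    obtain ⟨_, _, k, h1, h2, h3⟩ := hcls c hc
    exact ⟨k, h1, h2 hs, h3⟩
  set A4 := A.filter (fun a => ∃ c ∈ g.cl, isq qs c = true ∧ ptm ct P.M (orl c) = a) with hA4
  set Ap := A.filter (fun a => ¬ Gdl.Sml N a ∧ a ∉ A4) with hAp
  have hA4c : A4.card ≤ 20 := (card_filter_le _ _).trans (hAcard.trans hcl20)
  have hApc : Ap.card ≤ g.npen P qs := by
    unfold Gk.npen
    have h1 : Ap ⊆ ((g.cl.filter (fun c => !(sml P.M c) && !(isq qs c))).map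
        (fun c => ptm ct P.M (orl c))).toFinset := by
      intro a ha
      obtain ⟨ha1, ha2, ha3⟩ := mem_filter.1 ha
      obtain ⟨c, hc, hca⟩ := hmA.1 ha1
      rw [List.mem_toFinset, List.mem_map]
      refine ⟨c, List.mem_filter.2 ⟨hc, ?_⟩, hca⟩
      rw [Bool.and_eq_true, Bool.not_eq_true', Bool.not_eq_true', Bool.eq_false_iff,
        Bool.eq_false_iff]
      refine ⟨fun h2 => ha2 ?_, fun h2 => ha3 (mem_filter.2 ⟨ha1, c, hc, h2, hca⟩)⟩
      rw [← hca]
      exact hSml c hc h2
    have h2 := card_le_card h1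
    refine h2.trans ((List.toFinset_card_le _).trans ?_)
    rw [List.length_map]
  have h4dat : ∀ a ∈ A4, ∃ y ∈ a, (∀ J : Finset (ULift.{u} (Fin g.N.length)),
      (∀ c ∈ J, Disjoint (N c) a) →
      rho B (((Z ∪ X) ∪ {y}) ∪ J.biUnion N) ≤ rho B Z + J.card) ∧
      ∀ T : Finset (ULift.{u} (Fin g.N.length)),
        (∀ c ∈ T, y ∉ N c ∧ ∀ b ∈ A, Gdl.Sml N b → ¬ N c ⊆ b) → T.card ≤ 1 := by
    intro a ha
    obtain ⟨ha1, c, hc, hq, rfl⟩ := mem_filter.1 ha
    obtain ⟨q, hq1, hq2⟩ := List.any_eq_true.1 hq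
    have hq2 : q.m = orl c := Nat.eq_of_beq_eq_true hq2
    have hq3 := hqs q hq1
    unfold Gc.ok at hq3
    simp only [Bool.and_eq_true, Nat.blt_eq] at hq3
    obtain ⟨k1, k2, k3, k4, k5⟩ := hq3
    have k5 := Nat.le_of_ble_eq_true k5
    refine ⟨ct q.y, (h.mem_ptm_iff k1).2 (hq2 ▸ k2), fun J hJ => ?_, fun T hT => ?_⟩
    · set J' := J.image (fun c => c.down.val) with hJ'
      have hJ'c : J'.card = J.card := card_image_of_injective _ fun c d hcd =>
        ULift.down_injective (Fin.ext hcd)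
      have hJ's : J' ⊆ range g.N.length := by
        intro k hk
        obtain ⟨c, _, rfl⟩ := mem_image.1 hk
        exact mem_range.2 c.down.isLt
      obtain ⟨e, he, h1, h2, h3⟩ := chkJ_spec k4 J' hJ's (fun k hk => by
        obtain ⟨d, hd, rfl⟩ := mem_image.1 hk
        unfold sepm
        rw [List.all_eq_true]
        intro x hx
        rw [List.mem_range] at hx
        rw [Bool.not_eq_true', Bool.eq_false_iff]
        intro h5
        rw [Bool.and_eq_true] at h5
        exact disjoint_left.1 (hJ d hd) ((h.mem_ptm_iff hx).2 h5.1)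
          ((h.mem_ptm_iff hx).2 (hq2 ▸ h5.2)))
      have h4 := h.cover hf (List.all_eq_true.1 k3 e he)
      have h5 : ((Z ∪ X) ∪ {ct q.y}) ∪ J.biUnion N ⊆ Z ∪ ptm ct P.M e.E := by
        refine union_subset (union_subset (union_subset_union (Subset.refl _)
          (ptm_mono fun x _ hx => h2 x (by rw [Nat.testBit_or, hx, Bool.true_or]))) ?_) ?_
        · rw [singleton_subset_iff]
          refine mem_union_right _ ((h.mem_ptm_iff k1).2 (h2 _ ?_))
          rw [Nat.testBit_or, Nat.testBit_two_pow_self, Bool.or_true]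
        · intro v hv'
          obtain ⟨d, hd, hvd⟩ := mem_biUnion.1 hv'
          obtain ⟨x, hx, h6, rfl⟩ := mem_ptm.1 hvd
          exact mem_union_right _ ((h.mem_ptm_iff hx).2
            (h3 d.down.val (mem_image.2 ⟨d, hd, rfl⟩) x h6))
      have h6 := rho_mono h5 (h.cov.mono (union_subset h.ZQ (h.ptmQ e.E)))
      omega
    · rw [countP_getD] at k5
      refine le_trans ?_ k5
      have hTc : (T.image (fun c => c.down.val)).card = T.card :=
        card_image_of_injective _ fun c d hcd => ULift.down_injective (Fin.ext hcd)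
      rw [← hTc]
      refine card_le_card fun k hk => ?_
      obtain ⟨d, hd, rfl⟩ := mem_image.1 hk
      obtain ⟨h1, h2⟩ := hT d hd
      refine mem_filter.2 ⟨mem_range.2 d.down.isLt, ?_⟩
      rw [Bool.and_eq_true, Bool.not_eq_true', Bool.not_eq_true', Bool.eq_false_iff,
        Bool.eq_false_iff]
      refine ⟨fun h3 => h1 ((h.mem_ptm_iff k1).2 h3), fun h3 => ?_⟩
      obtain ⟨c', hc', h5⟩ := List.any_eq_true.1 h3
      rw [Bool.and_eq_true] at h5
      have h6 : g.N.getD d.down.val 0 ||| orl c' = orl c' := Nat.eq_of_beq_eq_true h5.2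
      refine h2 (ptm ct P.M (orl c')) (hmA.2 ⟨c', hc', rfl⟩) (hSml c' hc' h5.1) ?_
      exact ptm_mono fun x _ hx => by rw [← h6, Nat.testBit_or, hx, Bool.true_or]
  have hIc : I.card = g.I.length := by
    rw [hI, card_image_of_injOn, List.toFinset_card_of_nodup hInd]
    intro x hx y hy hxy
    rw [mem_coe, List.mem_toFinset] at hx hy
    exact h.tb_inj x (hIl x hx) y (hIl y hy) hxy
  have hκ : Fintype.card (ULift.{u} (Fin g.N.length)) = g.N.length := by
    rw [Fintype.card_ulift, Fintype.card_fin]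
  have hsZ : sv B Z = (P.zn : ℤ) - 2 * (P.r : ℤ) := by
    unfold sv
    rw [h.cardZ, h.rZ]
  have hsv1 := hv.sv1
  have h4 : (A.card : ℤ) ≤ (g.cl.length : ℤ) := by exact_mod_cast hAcard
  have hApc' : (Ap.card : ℤ) ≤ (g.npen P qs : ℤ) := by exact_mod_cast hApc
  have hmain := hG.main_core hv.ih hv.ihr hn hYne (A4 := A4) (Ap := Ap) (filter_subset _ _)
    (filter_subset _ _) hAY hAne hcovA hlinkA
    (hG.ext_of_count hv h.Zne (S := S') inter_subset_left hkeep hm0)
    (fun a ha h5 h6 => by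
      by_contra h7
      exact h6 (mem_filter.2 ⟨ha, h7, h5⟩)) h4dat hA4c
  have hd : (g.dn : ℤ) ≤ dv B Q Z + 10 := by
    rw [Bool.or_eq_true] at hdn
    rcases hdn with h2 | h2
    · have h3 := Nat.le_of_ble_eq_true h2
      have h4 := h.d0
      have h5 : (g.dn : ℤ) ≤ (P.d0 : ℤ) := by exact_mod_cast h3
      linarith
    · rw [List.contains_iff_mem] at h2
      have h3 := hf _ h2
      rw [lit_ng, gval_D, not_not] at h3
      exact h3
  rw [hXc, hIc, hκ] at hmain
  have h2 := hv.neg
  have h5 : (0 : ℤ) ≤ ((Gdl.lost B Q Z X Y I E).card : ℤ) := by positivity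
  split_ifs at hnum with hXz
  · rw [Nat.blt_eq] at hXz
    have h1 := hmain.2 (by
      rw [hsZ]
      have k1 := Nat.le_of_ble_eq_true hXz.1
      have k2 : ((pcn P.M g.X + P.zn : ℕ) : ℤ) ≤ ((1 + 2 * P.r : ℕ) : ℤ) := by exact_mod_cast k1
      push_cast at k2
      linarith) (by
      by_contra hcon2
      push Not at hcon2
      have k1 : ∀ c ∈ g.cl, (!(sml P.M c) && !(isq qs c)) = true := by
        intro c hc
        have k2 := hcon2 _ (hmA.2 ⟨c, hc, rfl⟩)
        obtain ⟨_, k3, k4⟩ := mem_filter.1 k2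
        rw [Bool.and_eq_true, Bool.not_eq_true', Bool.not_eq_true', Bool.eq_false_iff,
          Bool.eq_false_iff]
        exact ⟨fun k5 => k3 (hSml c hc k5),
          fun k5 => k4 (mem_filter.2 ⟨hmA.2 ⟨c, hc, rfl⟩, c, hc, k5, rfl⟩)⟩
      have k2 : g.cl.filter (fun c => !(sml P.M c) && !(isq qs c)) = g.cl :=
        List.filter_eq_self.2 k1
      have k3 := hXz.2
      unfold Gk.npen at k3
      rw [k2] at k3
      omega)
    have h3 : ((4 * g.N.length + g.cl.length + g.npen P qs + e0 + 9 + 0 : ℕ) : ℤ) ≤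
        ((g.dn + 5 * pcn P.M g.X + 4 * g.I.length : ℕ) : ℤ) := by exact_mod_cast hnum
    push_cast at h3
    linarith
  · have h1 := hmain.1
    have h3 : ((4 * g.N.length + g.cl.length + g.npen P qs + e0 + 9 + 1 : ℕ) : ℤ) ≤
        ((g.dn + 5 * pcn P.M g.X + 4 * g.I.length : ℕ) : ℤ) := by exact_mod_cast hnum
    push_cast at h3
    linarith


/-- the complete check of an instance with all kinds of records; `k4` holds the records with the
numbers of further parts and the data of the classes without small blocks. -/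
noncomputable def instX4 (P : Gp) (given : List (List ℕ)) (bs : List Gb) (ks : List Gk)
    (k2 : List (ℕ × Gk)) (k4 : List (ℕ × (List Gc × Gk))) (nm : Tr) (cnf : List (List ℕ)) (db : Tr)
    (prf : List ℕ) : Bool :=
  bs.all (fun g => g.ok P) && (ks.all (fun g => g.ok P) && (k2.all (fun q => q.2.ok2 P q.1) &&
    (k4.all (fun q => q.2.2.ok4 P q.1 q.2.1) &&
    (!(cnf.isEmpty) && (okcR cnf && (cmpR nm cnf (given ++ (bs.map (Gb.cl P) ++
      (ks.map Gk.lits ++ (k2.map (fun q => q.2.lits) ++ k4.map (fun q => q.2.2.lits))))) &&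
      chk cnf db prf))))))

/-- the check of an instance from its parts. -/
theorem instX4_of {P : Gp} {given : List (List ℕ)} {bs : List Gb} {ks : List Gk}
    {k2 : List (ℕ × Gk)} {k4 : List (ℕ × (List Gc × Gk))} {nm : Tr} {cnf : List (List ℕ)} {db : Tr}
    {prf : List ℕ}
    (h1 : bs.all (fun g => g.ok P) = true)
    (h2 : ks.all (fun g => g.ok P) = true) (h2' : k2.all (fun q => q.2.ok2 P q.1) = true)
    (h2'' : k4.all (fun q => q.2.2.ok4 P q.1 q.2.1) = true)
    (h3 : (!(cnf.isEmpty)) = true) (h4 : okcR cnf = true)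
    (h5 : cmpR nm cnf (given ++ (bs.map (Gb.cl P) ++
      (ks.map Gk.lits ++ (k2.map (fun q => q.2.lits) ++ k4.map (fun q => q.2.2.lits))))) = true)
    (h6 : chk cnf db prf = true) : instX4 P given bs ks k2 k4 nm cnf db prf = true := by
  unfold instX4
  rw [h1, h2, h2', h2'', h3, h4, h5, h6]
  rfl

/-- **a checked instance with all kinds of records does not occur.** -/
theorem Gx.no4 (h : Gx B Q Z P bl ct zt tb) {given : List (List ℕ)}
    (hg : ∀ c ∈ given, Sat (gval B Q Z P bl ct) c) {bs : List Gb} {ks : List Gk}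
    {k2 : List (ℕ × Gk)} {k4 : List (ℕ × (List Gc × Gk))} {nm db : Tr}
    {cnf : List (List ℕ)} {prf : List ℕ}
    (hb : instX4 P given bs ks k2 k4 nm cnf db prf = true) : False := by
  unfold instX4 at hb
  simp only [Bool.and_eq_true] at hb
  obtain ⟨h1, h2, h2', h2'', h3, h4, h5, h6⟩ := hb
  have hne : cnf ≠ [] := by
    rintro rfl
    simp at h3
  obtain ⟨c, hc, hs⟩ := unsat_nm h6 h4 hne h5 (gval B Q Z P bl ct)
  rcases List.mem_append.1 hc with k1 | k1
  · exact hs (hg c k1)
  · rcases List.mem_append.1 k1 with k2 | k2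
    · obtain ⟨g, hgm, rfl⟩ := List.mem_map.1 k2
      exact hs (h.sat_base g (List.all_eq_true.1 h1 g hgm))
    · rcases List.mem_append.1 k2 with k3 | k3
      · obtain ⟨g, hgm, rfl⟩ := List.mem_map.1 k3
        exact hs (h.sat_gd g (List.all_eq_true.1 h2 g hgm))
      · rcases List.mem_append.1 k3 with k4 | k4
        · obtain ⟨q, hqm, rfl⟩ := List.mem_map.1 k4
          exact hs (h.sat_gd2 q.2 q.1 (List.all_eq_true.1 h2' q hqm))
        · obtain ⟨q, hqm, rfl⟩ := List.mem_map.1 k4
          exact hs (h.sat_gd4 q.2.2 q.1 q.2.1 (List.all_eq_true.1 h2'' q hqm))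

end Gdx

end Pool.Agent.Hyp6
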