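import Pool.Agent.Hyp6.Gdz2

/-!
# HYP6 GDZ4: the sets of a record

`Gk.Xs`, `Gk.Ys`, `Gk.Is`, `Gk.Ns`, `Gk.As`: the sets of a record of the general deletion. `Gk.okb`: the
check without the numbers. `Gx.gdl`: the general deletion, `Gx.cls`: its link classes.
`Gdl.main_ext_link`: two classes which are linked count as one.
-/

set_option autoImplicit false

namespace Pool.Agent.Hyp6

open Finset Pool.Agent.Hyp5 Rup

universe u v

namespace Gdl

variable {V : Type v} [DecidableEq V] {ι : Type u} [Fintype ι] {κ : Type u} [Fintype κ]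
  {B : ι → Finset V} {Q L X Y : Finset V} {I : Finset ι} {E : V → Finset ι} {N : κ → Finset V}

/-- **the general deletion with further parts**, two of the classes are linked. -/
theorem main_ext_link (h : Gdl B Q L X Y I E N) (hv : ViolR B Q) (hLne : L.Nonempty)
    {n : ℕ} (ih : IHE.{u} V n) (ihr : IHR.{u} V n)
    (hn : (rm Q L X Y).card + Y.card < n) (hYne : Y.Nonempty) {S : Finset V} (hSY : S ⊆ Y)
    (hkeep : ∀ y ∈ Y, y ∉ S → ∀ i, y ∈ B i → (B i ∩ rm Q L X Y).Nonempty → i ∈ E y)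
    {A : Finset (Finset V)} (hAY : ∀ a ∈ A, a ⊆ Y) (hcov : ∀ y ∈ Y, ∃ a ∈ A, y ∈ a)
    (hlink : ∀ Z, Closed (gr (absG B (rm Q L X Y) Y E N)) (rm Q L X Y ∪ Y) Z →
      ∀ a ∈ A, a ⊆ Z ∨ Disjoint a Z)
    (hsm : ∀ a ∈ A, ∃ c, (N c).Nonempty ∧ (N c).card ≤ 2 ∧ N c ⊆ a)
    {a b : Finset V} (ha : a ∈ A) (hb : b ∈ A) (hab : a ≠ b)
    (hl2 : ∀ Z, Closed (gr (absG B (rm Q L X Y) Y E N)) (rm Q L X Y ∪ Y) Z →
      a ∪ b ⊆ Z ∨ Disjoint (a ∪ b) Z) {m : ℕ}
    (hm : ∑ x ∈ X, min (5 - los B L I x) (m + 1) +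
      ∑ y ∈ S, min (nnd N y - los B L I y) (m + 1) < 3 * (m + 1)) :
    dv B Q L + 5 * (X.card : ℤ) + 4 * (I.card : ℤ) + 2 * ((lost B Q L X Y I E).card : ℤ)
       - 4 * (Fintype.card κ : ℤ) - (A.card - 1 + m) ≤ dv B Q Q ∧
    ((X.card : ℤ) ≤ sv B Q - sv B L →
      dv B Q L + 5 * (X.card : ℤ) + 4 * (I.card : ℤ) + 2 * ((lost B Q L X Y I E).card : ℤ)
       - 4 * (Fintype.card κ : ℤ) + 1 - (A.card - 1 + m) ≤ dv B Q Q) := by
  classical
  set A2 : Finset (Finset V) := insert (a ∪ b) ((A.erase a).erase b) with hA2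
  have hc : (A2.card : ℤ) ≤ A.card - 1 := by
    have h1 : A2.card ≤ ((A.erase a).erase b).card + 1 := card_insert_le _ _
    have h2 : ((A.erase a).erase b).card + 1 = (A.erase a).card :=
      card_erase_add_one (mem_erase.2 ⟨hab.symm, hb⟩)
    have h3 : (A.erase a).card + 1 = A.card := card_erase_add_one ha
    have h4 : A2.card + 1 ≤ A.card := by omega
    have h5 : ((A2.card + 1 : ℕ) : ℤ) ≤ (A.card : ℤ) := by exact_mod_cast h4
    push_cast at h5
    linarith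
  have hmem : ∀ {s : Finset V}, s ∈ A2 → s = a ∪ b ∨ s ∈ A := by
    intro s hs
    rcases mem_insert.1 hs with h1 | h1
    · exact Or.inl h1
    · exact Or.inr (mem_of_mem_erase (mem_of_mem_erase h1))
  have hmain := h.main_ext hv hLne ih ihr hn hYne hSY hkeep (A := A2) (m := m)
    (fun s hs => by
      rcases hmem hs with rfl | h1
      · exact union_subset (hAY a ha) (hAY b hb)
      · exact hAY s h1)
    (fun y hy => by
      obtain ⟨s, hs, hys⟩ := hcov y hy
      by_cases h1 : s = a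
      · exact ⟨a ∪ b, mem_insert_self _ _, mem_union_left _ (h1 ▸ hys)⟩
      by_cases h2 : s = b
      · exact ⟨a ∪ b, mem_insert_self _ _, mem_union_right _ (h2 ▸ hys)⟩
      · exact ⟨s, mem_insert_of_mem (mem_erase.2 ⟨h2, mem_erase.2 ⟨h1, hs⟩⟩), hys⟩)
    (fun Z hZ s hs => by
      rcases hmem hs with rfl | h1
      · exact hl2 Z hZ
      · exact hlink Z hZ s h1)
    (fun s hs => by
      rcases hmem hs with rfl | h1
      · obtain ⟨c, h2, h3, h4⟩ := hsm a ha
        exact ⟨c, h2, h3, h4.trans subset_union_left⟩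
      · exact hsm s h1) hm
  refine ⟨by linarith [hmain.1], fun hs => by linarith [hmain.2 hs]⟩

end Gdl

namespace Gdx

/-- the check of a record without the numbers. -/
def Gk.okb (P : Gp) (g : Gk) : Bool :=
  (List.range P.M).all (fun a => g.lab P a) &&
  (g.N.all (fun c => Nat.ble (pcn P.M c) 3) &&
  (inc g.I && (g.I.all (fun j => Nat.blt j P.tm.length) &&
  (g.es.all (fun e => e.ok P g.lits) &&
  (chkK g.es g.N g.X 0 &&
  (g.cl.all (fun c => g.cok2 P c) &&
  ((List.range P.M).all (fun a => Nat.beq (deg1 g.N a) 0 ||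
    g.cl.any (fun c => (orl c).testBit a)) &&
  Nat.blt 0 g.cl.length)))))))

variable {V : Type v} [DecidableEq V] {ι : Type u} [Fintype ι]
  {B : ι → Finset V} {Q Z : Finset V} {P : Gp} {bl : ℕ → ι} {ct zt : ℕ → V} {tb : ℕ → ι}

/-- the deleted points. -/
def Gk.Xs (P : Gp) (ct : ℕ → V) (g : Gk) : Finset V := ptm ct P.M g.X

/-- the labels of the repaired points. -/
def Gk.Yl (P : Gp) (g : Gk) : Finset ℕ :=
  (range P.M).filter (fun a => ¬ g.X.testBit a = true ∧ 0 < deg1 g.N a)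

/-- the repaired points. -/
def Gk.Ys (P : Gp) (ct : ℕ → V) (g : Gk) : Finset V := (g.Yl P).image ct

/-- the deleted triples. -/
def Gk.Is [DecidableEq ι] (tb : ℕ → ι) (g : Gk) : Finset ι := g.I.toFinset.image tb

/-- the new blocks. -/
def Gk.Ns (P : Gp) (ct : ℕ → V) (g : Gk) : ULift.{u} (Fin g.N.length) → Finset V :=
  fun c => ptm ct P.M (g.N.getD c.down.val 0)

/-- the trimmed points. -/
def Gk.Ss (P : Gp) (ct : ℕ → V) (g : Gk) : Finset V := g.Ys P ct ∩ ptm ct P.M g.S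

/-- the link classes. -/
def Gk.As (P : Gp) (ct : ℕ → V) (g : Gk) : Finset (Finset V) :=
  (g.cl.map (fun c => ptm ct P.M (orl c))).toFinset

theorem Gk.mem_Ys {g : Gk} {v : V} : v ∈ g.Ys P ct ↔
    ∃ a < P.M, (¬ g.X.testBit a = true ∧ 0 < deg1 g.N a) ∧ ct a = v := by
  unfold Gk.Ys Gk.Yl
  rw [mem_image]
  constructor
  · rintro ⟨a, ha, hav⟩
    rw [mem_filter, mem_range] at ha
    exact ⟨a, ha.1, ha.2, hav⟩
  · rintro ⟨a, ha, h1, hav⟩
    exact ⟨a, mem_filter.2 ⟨mem_range.2 ha, h1⟩, hav⟩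

theorem Gk.mem_As {g : Gk} {s : Finset V} :
    s ∈ g.As P ct ↔ ∃ c ∈ g.cl, ptm ct P.M (orl c) = s := by
  unfold Gk.As
  rw [List.mem_toFinset, List.mem_map]

theorem Gx.mem_Ys_ct (h : Gx B Q Z P bl ct zt tb) {g : Gk} {a : ℕ} (ha : a < P.M) :
    ct a ∈ g.Ys P ct ↔ (¬ g.X.testBit a = true ∧ 0 < deg1 g.N a) := by
  rw [Gk.mem_Ys]
  constructor
  · rintro ⟨b, hb, h1, hab⟩
    rw [← h.ct_inj b hb a ha hab]
    exact h1
  · intro h1
    exact ⟨a, ha, h1, rfl⟩

/-- the facts about the sets of a record. -/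
structure Dat [DecidableEq ι] (B : ι → Finset V) (Q Z : Finset V) (P : Gp) (bl : ℕ → ι)
    (ct : ℕ → V) (tb : ℕ → ι) (g : Gk) : Prop where
  XQ : g.Xs P ct ⊆ Q
  YQ : g.Ys P ct ⊆ Q
  dZX : Disjoint Z (g.Xs P ct)
  dZY : Disjoint Z (g.Ys P ct)
  dXY : Disjoint (g.Xs P ct) (g.Ys P ct)
  con : ∀ i, (B i ∩ Z).Nonempty → B i ∩ Q ⊆ (Z ∪ g.Xs P ct) ∪ g.Ys P ct
  full : ∀ i ∈ g.Is tb, B i ∩ Q ⊆ g.Xs P ct ∪ g.Ys P ct ∧ (B i ∩ Q).card = 3
  subN : ∀ c, g.Ns.{u} P ct c ⊆ g.Ys P ct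
  los : ∀ a < P.M, Gdl.los B Z (g.Is tb) (ct a) = hts B P.m bl (ct a) + g.idg P a
  nnd : ∀ a < P.M, Gdl.nnd (g.Ns.{u} P ct) (ct a) = deg1 g.N a
  dle : ∀ a < P.M, ¬ g.X.testBit a = true →
    hts B P.m bl (ct a) + g.idg P a ≤ deg1 g.N a ∧ deg1 g.N a ≤ 5
  keep : ∀ a < P.M, ¬ g.X.testBit a = true → 0 < deg1 g.N a → ¬ g.S.testBit a = true →
    deg1 g.N a = hts B P.m bl (ct a) + g.idg P a
  cost : ∀ K : Finset (ULift.{u} (Fin g.N.length)),
    rho B ((Z ∪ g.Xs P ct) ∪ K.biUnion (g.Ns P ct)) ≤ rho B Z + K.card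
  kpc : ∀ v ∈ Q, (Gdl.kp B Z (g.Is tb) v).card + Gdl.los B Z (g.Is tb) v = 5
  Ic : (g.Is tb).card = g.I.length

theorem Gx.dat [DecidableEq ι] (h : Gx B Q Z P bl ct zt tb) {g : Gk} {lits : List ℕ}
    (hlits : g.lits = lits) (hf : ∀ l ∈ lits, ¬ Lit (gval B Q Z P bl ct) l)
    (hok : g.okb P = true) : Dat B Q Z P bl ct tb g := by
  classical
  subst hlits
  unfold Gk.okb at hok
  simp only [Bool.and_eq_true] at hok
  obtain ⟨hlab, hN3, hinc, hIl, hes, hK, hcl, hcov, hcl0⟩ := hok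
  have hlab : ∀ a < P.M, g.lab P a = true := fun a ha =>
    List.all_eq_true.1 hlab a (List.mem_range.2 ha)
  have hInd := inc_nodup hinc
  have hIl : ∀ j ∈ g.I, j < P.tm.length := fun j hj => by
    have := List.all_eq_true.1 hIl j hj
    rwa [Nat.blt_eq] at this
  have hes : ∀ e ∈ g.es, e.ok P g.lits = true := fun e he => List.all_eq_true.1 hes e he
  have hv := h.hv
  have hXQ : g.Xs P ct ⊆ Q := h.ptmQ g.X
  have hYQ : g.Ys P ct ⊆ Q := by
    intro v hv'
    obtain ⟨a, ha, _, rfl⟩ := Gk.mem_Ys.1 hv'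
    exact h.ctQ a ha
  have dZX : Disjoint Z (g.Xs P ct) := by
    rw [disjoint_left]
    intro v hv1 hv2
    obtain ⟨a, ha, _, rfl⟩ := mem_ptm.1 hv2
    exact h.ctZ a ha hv1
  have dZY : Disjoint Z (g.Ys P ct) := by
    rw [disjoint_left]
    intro v hv1 hv2
    obtain ⟨a, ha, _, rfl⟩ := Gk.mem_Ys.1 hv2
    exact h.ctZ a ha hv1
  have dXY : Disjoint (g.Xs P ct) (g.Ys P ct) := by
    rw [disjoint_left]
    intro v hv1 hv2
    obtain ⟨a, ha, h1, rfl⟩ := Gk.mem_Ys.1 hv2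
    exact h1.1 ((h.mem_ptm_iff ha).1 hv1)
  have hin : ∀ a < P.M, 0 < hts B P.m bl (ct a) + g.idg P a → ct a ∈ g.Xs P ct ∪ g.Ys P ct := by
    intro a ha h1
    by_cases h2 : g.X.testBit a = true
    · exact mem_union_left _ ((h.mem_ptm_iff ha).2 h2)
    · have h3 := h.lab_out hf ha (hlab a ha) h2
      exact mem_union_right _ ((h.mem_Ys_ct ha).2 ⟨h2, by omega⟩)
  have hcon' : ∀ i, (B i ∩ Z).Nonempty → B i ∩ Q ⊆ (Z ∪ g.Xs P ct) ∪ g.Ys P ct := by
    intro i hi v hv'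
    obtain ⟨hvi, hvQ⟩ := mem_inter.1 hv'
    obtain ⟨b, hb, rfl⟩ := (h.bl_all i).1 hi
    rcases h.con b hb v hvi hvQ with h1 | ⟨a, ha, rfl⟩
    · exact mem_union_left _ (mem_union_left _ h1)
    · have h1 : 0 < hts B P.m bl (ct a) :=
        card_pos.2 ⟨b, mem_filter.2 ⟨mem_range.2 hb, hvi⟩⟩
      rcases mem_union.1 (hin a ha (by omega)) with h2 | h2
      · exact mem_union_left _ (mem_union_right _ h2)
      · exact mem_union_right _ h2
  have hfull : ∀ i ∈ g.Is tb, B i ∩ Q ⊆ g.Xs P ct ∪ g.Ys P ct ∧ (B i ∩ Q).card = 3 := by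
    intro i hi
    obtain ⟨j, hj, rfl⟩ := mem_image.1 hi
    have hj' := List.mem_toFinset.1 hj
    refine ⟨?_, h.tb3 j (hIl j hj')⟩
    rw [h.tbT j (hIl j hj')]
    intro v hv'
    obtain ⟨a, ha, h1, rfl⟩ := mem_ptm.1 hv'
    refine hin a ha ?_
    have h2 : 0 < g.idg P a := by
      unfold Gk.idg
      rw [List.countP_pos_iff]
      exact ⟨j, hj', h1⟩
    omega
  have hsubN : ∀ c, g.Ns.{u} P ct c ⊆ g.Ys P ct := by
    intro c v hv'
    obtain ⟨a, ha, h1, rfl⟩ := mem_ptm.1 hv'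
    have h2 : 0 < deg1 g.N a := deg1_pos.2 ⟨_, getD_mem c.down.isLt, h1⟩
    refine (h.mem_Ys_ct ha).2 ⟨fun h3 => ?_, h2⟩
    have h4 := hlab a ha
    unfold Gk.lab at h4
    rw [if_pos h3] at h4
    have h5 := Nat.eq_of_beq_eq_true h4
    omega
  have hdegN : ∀ a < P.M, (univ.filter (fun c => ct a ∈ g.Ns.{u} P ct c)).card = deg1 g.N a := by
    intro a ha
    rw [deg1_eq, ← card_ul.{u} (n := g.N.length)
      (fun c => (g.N.getD c 0).testBit a = true)]
    congr 1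
    ext c
    simp only [mem_filter, mem_univ, true_and]
    exact h.mem_ptm_iff ha
  have hkp : ∀ a < P.M, (Gdl.kp B Z (g.Is tb) (ct a)).card +
      (hts B P.m bl (ct a) + g.idg P a) = 5 := fun a ha => h.card_kp hInd hIl ha
  have hcost : ∀ K : Finset (ULift.{u} (Fin g.N.length)),
      rho B ((Z ∪ g.Xs P ct) ∪ K.biUnion (g.Ns P ct)) ≤ rho B Z + K.card := by
    intro K
    set K' := K.image (fun c => c.down.val) with hK'
    have hK'c : K'.card = K.card := card_image_of_injective _ fun c d hcd =>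
      ULift.down_injective (Fin.ext hcd)
    have hK's : K' ⊆ range g.N.length := by
      intro k hk
      obtain ⟨c, _, rfl⟩ := mem_image.1 hk
      exact mem_range.2 c.down.isLt
    obtain ⟨e, he, h1, h2, h3⟩ := chkK_spec hK K' hK's
    have h4 := h.cover hf (hes e he)
    have h5 : (Z ∪ g.Xs P ct) ∪ K.biUnion (g.Ns P ct) ⊆ Z ∪ ptm ct P.M e.E := by
      refine union_subset (union_subset_union (Subset.refl _) (ptm_mono fun a _ ha => h2 a ha)) ?_
      intro v hv'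
      obtain ⟨c, hc, hvc⟩ := mem_biUnion.1 hv'
      obtain ⟨a, ha, h6, rfl⟩ := mem_ptm.1 hvc
      exact mem_union_right _ ((h.mem_ptm_iff ha).2 (h3 c.down.val (mem_image.2 ⟨c, hc, rfl⟩) a h6))
    have h6 := rho_mono h5 (h.cov.mono (union_subset h.ZQ (h.ptmQ e.E)))
    omega
  have hkpc : ∀ v ∈ Q, (Gdl.kp B Z (g.Is tb) v).card + Gdl.los B Z (g.Is tb) v = 5 := fun v hv' =>
    Gdl.kp_card (B := B) (I := g.Is tb) hv.reg h.ZQ dZX dZY hfull hv'
  have hlos : ∀ a < P.M, Gdl.los B Z (g.Is tb) (ct a) = hts B P.m bl (ct a) + g.idg P a := by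
    intro a ha
    have k1 := hkp a ha
    have k2 := hkpc (ct a) (h.ctQ a ha)
    omega
  refine ⟨hXQ, hYQ, dZX, dZY, dXY, hcon', hfull, hsubN, hlos, hdegN, fun a ha hX => ?_,
    fun a ha hX h0 hS => ?_, hcost, hkpc, ?_⟩
  · have h1 := h.lab_out hf ha (hlab a ha) hX
    exact ⟨h1.2.2.1, h1.2.1⟩
  · have h1 := h.lab_out hf ha (hlab a ha) hX
    exact le_antisymm (h1.2.2.2 (by omega) hS) h1.2.2.1
  · unfold Gk.Is
    rw [card_image_of_injOn, List.toFinset_card_of_nodup hInd]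
    intro x hx y hy hxy
    rw [mem_coe, List.mem_toFinset] at hx hy
    exact h.tb_inj x (hIl x hx) y (hIl y hy) hxy

/-- the choice of the kept blocks. -/
structure Ech [DecidableEq ι] (B : ι → Finset V) (Z : Finset V) (P : Gp) (ct : ℕ → V)
    (tb : ℕ → ι) (g : Gk) (E : V → Finset ι) : Prop where
  sub : ∀ a < P.M, ct a ∈ g.Ys P ct → E (ct a) ⊆ Gdl.kp B Z (g.Is tb) (ct a)
  card : ∀ a < P.M, ct a ∈ g.Ys P ct → (E (ct a)).card = 5 - deg1 g.N a

theorem Gx.exists_ech [DecidableEq ι] (h : Gx B Q Z P bl ct zt tb) {g : Gk}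
    (d : Dat.{u} B Q Z P bl ct tb g) : ∃ E, Ech B Z P ct tb g E := by
  classical
  have hEx : ∀ y, ∃ s : Finset ι, y ∈ g.Ys P ct → s ⊆ Gdl.kp B Z (g.Is tb) y ∧
      s.card = 5 - Gdl.nnd (g.Ns.{u} P ct) y := by
    intro y
    by_cases hy : y ∈ g.Ys P ct
    · obtain ⟨a, ha, h1, rfl⟩ := Gk.mem_Ys.1 hy
      have h2 := d.dle a ha h1.1
      have h3 := d.kpc (ct a) (h.ctQ a ha)
      obtain ⟨s, hs1, hs2⟩ := exists_subset_card_eq
        (show 5 - Gdl.nnd (g.Ns.{u} P ct) (ct a) ≤ (Gdl.kp B Z (g.Is tb) (ct a)).card by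
          rw [d.nnd a ha]
          have := d.los a ha
          omega)
      exact ⟨s, fun _ => ⟨hs1, hs2⟩⟩
    · exact ⟨∅, fun h1 => (hy h1).elim⟩
  choose E hE using hEx
  exact ⟨E, fun a ha hy => (hE _ hy).1, fun a ha hy => by rw [(hE _ hy).2, d.nnd a ha]⟩

/-- **the general deletion of a record**. -/
theorem Gx.gdl [DecidableEq ι] (h : Gx B Q Z P bl ct zt tb) {g : Gk} (hok : g.okb P = true)
    (d : Dat.{u} B Q Z P bl ct tb g) {E : V → Finset ι} (hE : Ech B Z P ct tb g E) :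
    Gdl B Q Z (g.Xs P ct) (g.Ys P ct) (g.Is tb) E (g.Ns.{u} P ct) := by
  classical
  unfold Gk.okb at hok
  simp only [Bool.and_eq_true] at hok
  obtain ⟨_, hN3, _⟩ := hok
  have hN3 : ∀ c ∈ g.N, pcn P.M c ≤ 3 := fun c hc =>
    Nat.le_of_ble_eq_true (List.all_eq_true.1 hN3 c hc)
  have hsub : ∀ y ∈ g.Ys P ct, E y ⊆ Gdl.kp B Z (g.Is tb) y := by
    intro y hy
    obtain ⟨a, ha, _, rfl⟩ := Gk.mem_Ys.1 hy
    exact hE.sub a ha hy
  exact
    { reg := h.hv.reg
      tr := h.hv.tr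
      LQ := h.ZQ
      XQ := d.XQ
      YQ := d.YQ
      dLX := d.dZX
      dLY := d.dZY
      dXY := d.dXY
      con := d.con
      full := d.full
      mem := fun y hy i hi => (Gdl.mem_kp.1 (hsub y hy hi)).1
      keep := fun y hy i hi => (Gdl.mem_kp.1 (hsub y hy hi)).2
      subN := d.subN
      deg := fun y hy => by
        obtain ⟨a, ha, h1, rfl⟩ := Gk.mem_Ys.1 hy
        have k1 : (univ.filter (fun c => ct a ∈ g.Ns.{u} P ct c)).card = Gdl.nnd (g.Ns P ct) (ct a) :=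
          rfl
        have k2 := d.dle a ha h1.1
        rw [hE.card a ha hy, k1, d.nnd a ha]
        omega
      sizeN := fun c => by
        have h1 := h.card_ptm (g.N.getD c.down.val 0)
        unfold Gk.Ns
        rw [h1]
        exact hN3 _ (getD_mem c.down.isLt)
      cost := d.cost }

/-- the points which are not trimmed keep all their blocks. -/
theorem Gx.ekeep [DecidableEq ι] (h : Gx B Q Z P bl ct zt tb) {g : Gk}
    (d : Dat.{u} B Q Z P bl ct tb g) {E : V → Finset ι} (hE : Ech B Z P ct tb g E) :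
    ∀ y ∈ g.Ys P ct, y ∉ g.Ss P ct → ∀ i, y ∈ B i → ¬ (B i ∩ Z).Nonempty → i ∉ g.Is tb →
      i ∈ E y := by
  classical
  intro y hy hyS i hyi hi1 hi2
  obtain ⟨a, ha, h1, rfl⟩ := Gk.mem_Ys.1 hy
  have k1 : E (ct a) = Gdl.kp B Z (g.Is tb) (ct a) := by
    refine eq_of_subset_of_card_le (hE.sub a ha hy) ?_
    rw [hE.card a ha hy]
    have k3 := d.keep a ha h1.1 h1.2 (fun h3 => hyS (mem_inter.2 ⟨hy, (h.mem_ptm_iff ha).2 h3⟩))
    have k4 := d.los a ha
    have k5 := d.kpc (ct a) (h.ctQ a ha)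
    omega
  rw [k1, Gdl.mem_kp]
  exact ⟨hyi, hi1, hi2⟩

/-- **the link classes of a record**. -/
theorem Gx.cls [DecidableEq ι] (h : Gx B Q Z P bl ct zt tb) {g : Gk} (hok : g.okb P = true)
    (d : Dat.{u} B Q Z P bl ct tb g) {E : V → Finset ι} (hE : Ech B Z P ct tb g E) :
    ∀ s ∈ g.As P ct, s ⊆ g.Ys P ct ∧
      (∀ W, Closed (gr (absG B (Gdl.rm Q Z (g.Xs P ct) (g.Ys P ct)) (g.Ys P ct) E
        (g.Ns.{u} P ct))) (Gdl.rm Q Z (g.Xs P ct) (g.Ys P ct) ∪ g.Ys P ct) W →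
        s ⊆ W ∨ Disjoint s W) ∧
      ∃ k, (g.Ns.{u} P ct k).Nonempty ∧ (g.Ns.{u} P ct k).card ≤ 2 ∧ g.Ns.{u} P ct k ⊆ s := by
  classical
  have hEk := h.ekeep d hE
  have hG := h.gdl hok d hE
  have hw := hG.wir
  unfold Gk.okb at hok
  simp only [Bool.and_eq_true] at hok
  obtain ⟨_, _, _, hIl, _, _, hcl, _, _⟩ := hok
  have hIl : ∀ j ∈ g.I, j < P.tm.length := fun j hj => by
    have := List.all_eq_true.1 hIl j hj
    rwa [Nat.blt_eq] at this
  have hcl : ∀ c ∈ g.cl, g.cok2 P c = true := fun c hc => List.all_eq_true.1 hcl c hc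
  set X := g.Xs P ct with hX
  set Y := g.Ys P ct with hY
  set I := g.Is tb with hI
  set N := g.Ns.{u} P ct with hN
  have hlk : ∀ c, g.lk P c = true → ptm ct P.M c ⊆ Y ∧
      ∀ W, Closed (gr (absG B (Gdl.rm Q Z X Y) Y E N)) (Gdl.rm Q Z X Y ∪ Y) W →
        ∀ x ∈ ptm ct P.M c, x ∈ W → ptm ct P.M c ⊆ W := by
    intro c hc
    unfold Gk.lk at hc
    rw [Bool.or_eq_true] at hc
    rcases hc with hc | hc
    · rw [List.contains_iff_mem] at hc
      obtain ⟨k, hk, hkc⟩ := List.mem_iff_getElem.1 hc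
      have h1 : N (ULift.up ⟨k, hk⟩) = ptm ct P.M c := by
        rw [hN]
        unfold Gk.Ns
        simp only
        rw [List.getD_eq_getElem _ _ hk, hkc]
      have h2 : ptm ct P.M c ⊆ Y := by
        rw [← h1]
        exact d.subN _
      refine ⟨h2, fun W hW x hx hxW y hy => ?_⟩
      by_cases hxy : x = y
      · rw [← hxy]
        exact hxW
      · rw [← h1] at hx hy
        exact hW.2 x hxW y (mem_union_right _ (d.subN _ hy)) (hw.adj_N hxy hx hy)
    · obtain ⟨j, hj, h1⟩ := List.any_eq_true.1 hc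
      rw [List.mem_range] at hj
      rw [Bool.and_eq_true, Bool.not_eq_true', List.all_eq_true] at h1
      obtain ⟨hjI, h1⟩ := h1
      have hjI' : tb j ∉ I := by
        intro h2
        obtain ⟨j', hj', h3⟩ := mem_image.1 h2
        have hj'' := List.mem_toFinset.1 hj'
        have h4 := h.tb_inj j' (hIl j' hj'') j hj h3
        rw [h4] at hj''
        have h5 : g.I.contains j = true := List.contains_iff_mem.2 hj''
        rw [h5] at hjI
        exact _root_.absurd hjI (by simp)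
      have h2 : ∀ a < P.M, c.testBit a = true → (P.t j).testBit a = true ∧ ct a ∈ Y ∧
          ¬ g.S.testBit a = true := by
        intro a ha hca
        have h3 := h1 a (List.mem_range.2 ha)
        rw [hca] at h3
        simp only [Bool.not_true, Bool.false_or, Bool.and_eq_true, Nat.blt_eq,
          Bool.not_eq_true'] at h3
        obtain ⟨h4, h5, h6, h7⟩ := h3
        refine ⟨h4, (h.mem_Ys_ct ha).2 ⟨?_, h6⟩, ?_⟩
        · rw [h5]
          simp
        · rw [h7]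
          simp
      have hkey : ∀ a < P.M, c.testBit a = true → tb j ∈ E (ct a) := by
        intro a ha hca
        obtain ⟨h3, h4, h5⟩ := h2 a ha hca
        refine hEk _ h4 (fun k1 => h5 ((h.mem_ptm_iff ha).1 (mem_inter.1 k1).2)) _ ?_
          (h.tb_not_meet hj) hjI'
        have h6 := (h.mem_ptm_iff ha).2 h3
        rw [← h.tbT j hj] at h6
        exact (mem_inter.1 h6).1
      refine ⟨fun v hv' => ?_, fun W hW x hx hxW y hy => ?_⟩
      · obtain ⟨a, ha, hca, rfl⟩ := mem_ptm.1 hv'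
        exact (h2 a ha hca).2.1
      · by_cases hxy : x = y
        · rw [← hxy]
          exact hxW
        · obtain ⟨a, ha, hca, rfl⟩ := mem_ptm.1 hx
          obtain ⟨b, hb, hcb, rfl⟩ := mem_ptm.1 hy
          refine hW.2 _ hxW _ (mem_union_right _ (h2 b hb hcb).2.1)
            ⟨hxy, Sum.inl (tb j), ?_, ?_⟩
          · exact mem_absG_inl.2 (Or.inr ⟨(h2 a ha hca).2.1, hkey a ha hca⟩)
          · exact mem_absG_inl.2 (Or.inr ⟨(h2 b hb hcb).2.1, hkey b hb hcb⟩)
  have hlnk : ∀ (l : List ℕ) (acc : ℕ), g.lnk P l acc = true → ptm ct P.M acc ⊆ Y →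
      (∀ W, Closed (gr (absG B (Gdl.rm Q Z X Y) Y E N)) (Gdl.rm Q Z X Y ∪ Y) W →
        ∀ x ∈ ptm ct P.M acc, x ∈ W → ptm ct P.M acc ⊆ W) →
      ptm ct P.M (acc ||| orl l) ⊆ Y ∧
      ∀ W, Closed (gr (absG B (Gdl.rm Q Z X Y) Y E N)) (Gdl.rm Q Z X Y ∪ Y) W →
        ∀ x ∈ ptm ct P.M (acc ||| orl l), x ∈ W → ptm ct P.M (acc ||| orl l) ⊆ W := by
    intro l
    induction l with
    | nil =>
      intro acc _ h1 h2
      have h3 : acc ||| orl [] = acc := Nat.or_zero acc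
      rw [h3]
      exact ⟨h1, h2⟩
    | cons c l ih =>
      intro acc hl h1 h2
      have hl' : (g.lk P c && ((List.range P.M).any (fun a => c.testBit a && acc.testBit a) &&
        g.lnk P l (acc ||| c))) = true := hl
      rw [Bool.and_eq_true, Bool.and_eq_true] at hl'
      obtain ⟨h3, h4, h5⟩ := hl'
      obtain ⟨h6, h7⟩ := hlk c h3
      obtain ⟨a, ha, h8⟩ := List.any_eq_true.1 h4
      rw [List.mem_range] at ha
      rw [Bool.and_eq_true] at h8
      have h9 : acc ||| orl (c :: l) = (acc ||| c) ||| orl l := (Nat.or_assoc acc c (orl l)).symm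
      rw [h9]
      have hac := (h.mem_ptm_iff (A := c) ha).2 h8.1
      have haa := (h.mem_ptm_iff (A := acc) ha).2 h8.2
      refine ih (acc ||| c) h5 ?_ ?_
      · rw [ptm_or]
        exact union_subset h1 h6
      · intro W hW x hx hxW
        rw [ptm_or] at hx ⊢
        rcases mem_union.1 hx with hx | hx
        · have k1 := h2 W hW x hx hxW
          exact union_subset k1 (h7 W hW (ct a) hac (k1 haa))
        · have k1 := h7 W hW x hx hxW
          exact union_subset (h2 W hW (ct a) haa (k1 hac)) k1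
  intro s hs
  obtain ⟨c, hc, rfl⟩ := Gk.mem_As.1 hs
  have h1 := hcl c hc
  rcases c with _ | ⟨c0, l⟩
  · exact _root_.absurd h1 (by simp [Gk.cok2])
  · have h1' : (g.N.contains c0 && (Nat.ble (pcn P.M c0) 2 &&
      (Nat.ble 1 (pcn P.M c0) && g.lnk P l c0))) = true := h1
    rw [Bool.and_eq_true, Bool.and_eq_true, Bool.and_eq_true, List.contains_iff_mem] at h1'
    obtain ⟨h2, h3, h4, h5⟩ := h1'
    have h3 := Nat.le_of_ble_eq_true h3
    have h4 := Nat.le_of_ble_eq_true h4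
    have h6 : g.lk P c0 = true := by
      unfold Gk.lk
      rw [List.contains_iff_mem.2 h2, Bool.true_or]
    obtain ⟨h7, h8⟩ := hlk c0 h6
    obtain ⟨h9, h10⟩ := hlnk l c0 h5 h7 h8
    have h11 : orl (c0 :: l) = c0 ||| orl l := rfl
    rw [h11]
    refine ⟨h9, fun W hW => ?_, ?_⟩
    · by_cases k1 : Disjoint (ptm ct P.M (c0 ||| orl l)) W
      · exact Or.inr k1
      · rw [not_disjoint_iff] at k1
        obtain ⟨x, hx1, hx2⟩ := k1
        exact Or.inl (h10 W hW x hx1 hx2)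
    · obtain ⟨k, hk, hkc⟩ := List.mem_iff_getElem.1 h2
      have h12 : N (ULift.up ⟨k, hk⟩) = ptm ct P.M c0 := by
        rw [hN]
        unfold Gk.Ns
        simp only
        rw [List.getD_eq_getElem _ _ hk, hkc]
      refine ⟨ULift.up ⟨k, hk⟩, ?_, ?_, ?_⟩
      · rw [h12, ← card_pos, h.card_ptm]
        omega
      · rw [h12, h.card_ptm]
        exact h3
      · rw [h12, ptm_or]
        exact subset_union_left

/-- the number of blocks given up by `X` and by the trimmed points. -/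
theorem Gx.sum_cx [DecidableEq ι] (h : Gx B Q Z P bl ct zt tb) {g : Gk}
    (d : Dat.{u} B Q Z P bl ct tb g) {e0 : ℕ}
    (hXS : ((List.range P.M).map (fun a => g.cx P e0 a)).sum +
      ((List.range P.M).map (fun a => g.cs P e0 a)).sum < 3 * (e0 + 1)) :
    ∑ x ∈ g.Xs P ct, min (5 - Gdl.los B Z (g.Is tb) x) (e0 + 1) +
      ∑ y ∈ g.Ss P ct, min (Gdl.nnd (g.Ns.{u} P ct) y - Gdl.los B Z (g.Is tb) y) (e0 + 1) <
      3 * (e0 + 1) := by
  classical
  refine lt_of_le_of_lt ?_ hXS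
  rw [sum_range_map, sum_range_map]
  refine Nat.add_le_add ?_ ?_
  · have k1 : g.Xs P ct = ((range P.M).filter (fun a => g.X.testBit a = true)).image ct := rfl
    rw [k1, sum_image (fun a ha b hb hab => by
      rw [mem_coe, mem_filter, mem_range] at ha hb
      exact h.ct_inj a ha.1 b hb.1 hab), sum_filter]
    refine sum_le_sum fun a ha => ?_
    rw [mem_range] at ha
    unfold Gk.cx
    split_ifs with k2
    · rw [d.los a ha]
      have := h.hlo a ha
      exact min_le_min_right _ (by omega)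
    · exact le_rfl
  · have k1 : g.Ss P ct = ((range P.M).filter (fun a => g.S.testBit a = true ∧
        (¬ g.X.testBit a = true ∧ 0 < deg1 g.N a))).image ct := by
      ext v
      unfold Gk.Ss
      rw [mem_inter, Gk.mem_Ys, mem_image]
      constructor
      · rintro ⟨⟨a, ha, k3, rfl⟩, k4⟩
        exact ⟨a, mem_filter.2 ⟨mem_range.2 ha, (h.mem_ptm_iff ha).1 k4, k3⟩, rfl⟩
      · rintro ⟨a, ha, rfl⟩
        obtain ⟨k3, k4, k5⟩ := mem_filter.1 ha
        rw [mem_range] at k3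
        exact ⟨⟨a, k3, k5, rfl⟩, (h.mem_ptm_iff k3).2 k4⟩
    rw [k1, sum_image (fun a ha b hb hab => by
      rw [mem_coe, mem_filter, mem_range] at ha hb
      exact h.ct_inj a ha.1 b hb.1 hab), sum_filter]
    refine sum_le_sum fun a ha => ?_
    rw [mem_range] at ha
    unfold Gk.cs
    by_cases k2 : g.S.testBit a = true ∧ (¬ g.X.testBit a = true ∧ 0 < deg1 g.N a)
    · rw [if_pos k2]
      have k3 : (g.S.testBit a && (!(g.X.testBit a) && Nat.blt 0 (deg1 g.N a))) = true := by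
        rw [Bool.and_eq_true, Bool.and_eq_true, Nat.blt_eq, Bool.not_eq_true']
        exact ⟨k2.1, by
          rw [Bool.eq_false_iff]
          exact k2.2.1, k2.2.2⟩
      rw [if_pos k3, d.los a ha, d.nnd a ha]
      have := h.hlo a ha
      exact min_le_min_right _ (by omega)
    · rw [if_neg k2]
      exact Nat.zero_le _

/-- every repaired point is in a class. -/
theorem Gx.cov_cls (_h : Gx B Q Z P bl ct zt tb) {g : Gk} (hok : g.okb P = true) :
    ∀ y ∈ g.Ys P ct, ∃ s ∈ g.As P ct, y ∈ s := by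
  classical
  unfold Gk.okb at hok
  simp only [Bool.and_eq_true] at hok
  obtain ⟨_, _, _, _, _, _, _, hcov, _⟩ := hok
  intro y hy
  obtain ⟨a, ha, h1, rfl⟩ := Gk.mem_Ys.1 hy
  have h2 := List.all_eq_true.1 hcov a (List.mem_range.2 ha)
  rw [Bool.or_eq_true] at h2
  rcases h2 with h2 | h2
  · have h3 := Nat.eq_of_beq_eq_true h2
    omega
  · obtain ⟨c, hc, h3⟩ := List.any_eq_true.1 h2
    exact ⟨_, Gk.mem_As.2 ⟨c, hc, rfl⟩, (_h.mem_ptm_iff ha).2 h3⟩

/-- the number check of a record with `n` classes and `e` further parts. -/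
def Gk.num (P : Gp) (g : Gk) (n e : ℕ) : Bool :=
  Nat.ble (4 * g.N.length + n + e + 9 +
    (if Nat.ble (pcn P.M g.X + P.zn) (1 + 2 * P.r) then 0 else 1))
      (g.dn + 5 * pcn P.M g.X + 4 * g.I.length) &&
  (Nat.ble g.dn P.d0 || g.lits.contains (ng (vD g.dn)))

/-- **two linked classes**: the record with one class less. -/
theorem Gx.absurd_link [DecidableEq ι] (h : Gx B Q Z P bl ct zt tb) {g : Gk}
    (hf : ∀ l ∈ g.lits, ¬ Lit (gval B Q Z P bl ct) l) (hok : g.okb P = true)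
    (d : Dat.{u} B Q Z P bl ct tb g) {E : V → Finset ι} (hE : Ech B Z P ct tb g E)
    {e0 : ℕ} (hXS : ((List.range P.M).map (fun a => g.cx P e0 a)).sum +
      ((List.range P.M).map (fun a => g.cs P e0 a)).sum < 3 * (e0 + 1))
    (hnum : g.num P (g.cl.length - 1) e0 = true)
    (hl : ∃ a ∈ g.As P ct, ∃ b ∈ g.As P ct, a ≠ b ∧
      ∀ W, Closed (gr (absG B (Gdl.rm Q Z (g.Xs P ct) (g.Ys P ct)) (g.Ys P ct) E
        (g.Ns.{u} P ct))) (Gdl.rm Q Z (g.Xs P ct) (g.Ys P ct) ∪ g.Ys P ct) W →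
        a ∪ b ⊆ W ∨ Disjoint (a ∪ b) W) : False := by
  classical
  obtain ⟨a, ha, b, hb, hab, hl2⟩ := hl
  have hG := h.gdl hok d hE
  have hcls := h.cls hok d hE
  have hcov := h.cov_cls (g := g) hok
  have hw := hG.wir
  have hv := h.hv
  obtain ⟨hA1, _, k, ⟨v, hv'⟩, _, hk3⟩ := hcls a ha
  have hYne : (g.Ys P ct).Nonempty := ⟨v, hA1 (hk3 hv')⟩
  have hn : (Gdl.rm Q Z (g.Xs P ct) (g.Ys P ct)).card + (g.Ys P ct).card < Q.card := by
    rw [← card_union_of_disjoint hw.dis]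
    refine card_lt_card (Finset.ssubset_iff_subset_ne.2 ⟨union_subset hw.CQ d.YQ, fun h1 => ?_⟩)
    obtain ⟨z, hz⟩ := h.Zne
    have h2 := h.ZQ hz
    rw [← h1] at h2
    rcases mem_union.1 h2 with h3 | h3
    · exact (Gdl.mem_rm.1 h3).2.1 hz
    · exact disjoint_left.1 d.dZY hz h3
  have hkeep : ∀ y ∈ g.Ys P ct, y ∉ g.Ss P ct → ∀ i, y ∈ B i →
      (B i ∩ Gdl.rm Q Z (g.Xs P ct) (g.Ys P ct)).Nonempty → i ∈ E y := by
    intro y hy hyS i hyi hne
    obtain ⟨_, k2, k3⟩ := Gdl.mem_kp.1 (Gdl.mem_kp_of d.full d.con hyi hne)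
    exact h.ekeep d hE y hy hyS i hyi k2 k3
  have hmain := hG.main_ext_link hv h.Zne hv.ih hv.ihr hn hYne (S := g.Ss P ct)
    inter_subset_left hkeep (fun s hs => (hcls s hs).1) hcov
    (fun W hW s hs => (hcls s hs).2.1 W hW) (fun s hs => (hcls s hs).2.2) ha hb hab hl2
    (h.sum_cx d hXS)
  have hAcard : (g.As P ct).card ≤ g.cl.length := by
    unfold Gk.As
    exact (List.toFinset_card_le _).trans (by rw [List.length_map])
  have hA2 : 2 ≤ (g.As P ct).card := by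
    have h1 : ({a, b} : Finset (Finset V)) ⊆ g.As P ct := by
      intro s hs
      rcases mem_insert.1 hs with rfl | hs
      · exact ha
      · rw [mem_singleton.1 hs]
        exact hb
    have h2 := card_le_card h1
    rw [card_pair hab] at h2
    exact h2
  have hκ : Fintype.card (ULift.{u} (Fin g.N.length)) = g.N.length := by
    rw [Fintype.card_ulift, Fintype.card_fin]
  have hXc : (g.Xs P ct).card = pcn P.M g.X := h.card_ptm g.X
  have hsZ : sv B Z = (P.zn : ℤ) - 2 * (P.r : ℤ) := by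
    unfold sv
    rw [h.cardZ, h.rZ]
  have hsv1 := hv.sv1
  unfold Gk.num at hnum
  rw [Bool.and_eq_true] at hnum
  obtain ⟨hnum, hdn⟩ := hnum
  have hnum := Nat.le_of_ble_eq_true hnum
  have hd : (g.dn : ℤ) ≤ dv B Q Z + 10 := by
    rw [Bool.or_eq_true] at hdn
    rcases hdn with h2 | h2
    · have h3 := Nat.le_of_ble_eq_true h2
      have h4 := h.d0
      have h5 : (g.dn : ℤ) ≤ (P.d0 : ℤ) := by exact_mod_cast h3
      linarith
    · rw [List.contains_iff_mem] at h2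
      have h3 := hf _ h2
      rw [lit_ng, gval_D, not_not] at h3
      exact h3
  rw [hXc, d.Ic, hκ] at hmain
  have h2 := hv.neg
  have h5 : (0 : ℤ) ≤ ((Gdl.lost B Q Z (g.Xs P ct) (g.Ys P ct) (g.Is tb) E).card : ℤ) := by
    positivity
  have h6 : ((g.As P ct).card : ℤ) - 1 ≤ ((g.cl.length - 1 : ℕ) : ℤ) := by
    have h7 : (g.As P ct).card - 1 ≤ g.cl.length - 1 := by omega
    have h8 : (((g.As P ct).card - 1 : ℕ) : ℤ) ≤ ((g.cl.length - 1 : ℕ) : ℤ) := by
      exact_mod_cast h7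
    rw [Nat.cast_sub (by omega)] at h8
    push_cast at h8
    exact h8
  generalize g.cl.length - 1 = cn at hnum h6
  split_ifs at hnum with hXz
  · have h1 := hmain.2 (by
      rw [hsZ]
      have k1 := Nat.le_of_ble_eq_true hXz
      have k2 : ((pcn P.M g.X + P.zn : ℕ) : ℤ) ≤ ((1 + 2 * P.r : ℕ) : ℤ) := by exact_mod_cast k1
      push_cast at k2
      linarith)
    have h3 : ((4 * g.N.length + cn + e0 + 9 + 0 : ℕ) : ℤ) ≤
        ((g.dn + 5 * pcn P.M g.X + 4 * g.I.length : ℕ) : ℤ) := by exact_mod_cast hnum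
    push_cast at h3
    linarith
  · have h1 := hmain.1
    have h3 : ((4 * g.N.length + cn + e0 + 9 + 1 : ℕ) : ℤ) ≤
        ((g.dn + 5 * pcn P.M g.X + 4 * g.I.length : ℕ) : ℤ) := by exact_mod_cast hnum
    push_cast at h3
    linarith

end Gdx

end Pool.Agent.Hyp6
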