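import Pool.Agent.Hyp6.Gdz4
import Pool.Agent.Hyp6.Gdq6

/-!
# HYP6 GDZ6: tables for the general deletion, many parts and pairs of records

`Gk.ok6`: the record with `e` further parts, where the loss is one less as soon as `|X|` is at most
`2 r - |Z|` plus the number of parts. `Gp6`: two records with three deleted points and a common deleted
label `s`: their further parts need different blocks of `s`. `instX6`: instances.
-/

set_option autoImplicit false

namespace Pool.Agent.Hyp6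

open Finset Pool.Agent.Hyp5 Rup

universe u v

namespace Gdx

/-- the number check with `e` further parts. -/
def Gk.num6 (P : Gp) (g : Gk) (e : ℕ) : Bool :=
  Nat.ble (4 * g.N.length + g.cl.length + e + 9 +
    (if Nat.ble (pcn P.M g.X + P.zn) (2 * P.r + g.cl.length + e) then 0 else 1))
      (g.dn + 5 * pcn P.M g.X + 4 * g.I.length) &&
  (Nat.ble g.dn P.d0 || g.lits.contains (ng (vD g.dn)))

/-- the general deletion with `e` further parts is correct. -/
def Gk.ok6 (P : Gp) (e : ℕ) (g : Gk) : Bool :=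
  g.okb P && (Nat.blt (((List.range P.M).map (fun a => g.cx P e a)).sum +
    ((List.range P.M).map (fun a => g.cs P e a)).sum) (3 * (e + 1)) && g.num6 P e)

/-- two records with a common deleted label `s` and a label `x` deleted only by the first. -/
structure Gp6 where
  g : Gk
  e : ℕ
  g' : Gk
  e' : ℕ
  s : ℕ
  x : ℕ

/-- the clause of the two records. -/
def Gp6.lits (p : Gp6) : List ℕ := p.g.lits ++ p.g'.lits

/-- the two records are correct. -/
def Gp6.ok (P : Gp) (p : Gp6) : Bool :=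
  p.g.okb P && (p.g'.okb P && (p.g.num6 P p.e && (p.g'.num6 P p.e' &&
  (Nat.beq p.g.S 0 && (Nat.beq p.g'.S 0 && (Nat.beq (pcn P.M p.g.X) 3 &&
  (Nat.beq (pcn P.M p.g'.X) 3 &&
  (p.g.I.all (fun j => p.g'.I.contains j) && (p.g'.I.all (fun j => p.g.I.contains j) &&
  ((List.range P.M).all (fun a =>
    (!(p.g.X.testBit a || Nat.blt 0 (deg1 p.g.N a)) ||
      (p.g'.X.testBit a || Nat.blt 0 (deg1 p.g'.N a))) &&
    (!(p.g'.X.testBit a || Nat.blt 0 (deg1 p.g'.N a)) ||
      (p.g.X.testBit a || Nat.blt 0 (deg1 p.g.N a)))) &&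
  (Nat.blt p.s P.M && (Nat.blt p.x P.M && (p.g.X.testBit p.s && (p.g'.X.testBit p.s &&
  (p.g.X.testBit p.x && (!(p.g'.X.testBit p.x) &&
  Nat.blt 5 ((p.e + 1) + (p.e' + 1) + (P.l p.s + p.g.idg P p.s))))))))))))))))))

variable {V : Type v} [DecidableEq V] {ι : Type u} [Fintype ι]
  {B : ι → Finset V} {Q Z : Finset V} {P : Gp} {bl : ℕ → ι} {ct zt : ℕ → V} {tb : ℕ → ι}

/-- the untrimmed points keep their blocks into the rest. -/
theorem Gx.rkeep [DecidableEq ι] (h : Gx B Q Z P bl ct zt tb) {g : Gk}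
    (d : Dat.{u} B Q Z P bl ct tb g) {E : V → Finset ι} (hE : Ech B Z P ct tb g E) :
    ∀ y ∈ g.Ys P ct, y ∉ g.Ss P ct → ∀ i, y ∈ B i →
      (B i ∩ Gdl.rm Q Z (g.Xs P ct) (g.Ys P ct)).Nonempty → i ∈ E y := by
  classical
  intro y hy hyS i hyi hne
  obtain ⟨_, k2, k3⟩ := Gdl.mem_kp.1 (Gdl.mem_kp_of d.full d.con hyi hne)
  exact h.ekeep d hE y hy hyS i hyi k2 k3

/-- **the contradiction of a record** with a bound of the further parts. -/
theorem Gx.absurd6 [DecidableEq ι] (h : Gx B Q Z P bl ct zt tb) {g : Gk}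
    (hf : ∀ l ∈ g.lits, ¬ Lit (gval B Q Z P bl ct) l) (hok : g.okb P = true)
    (d : Dat.{u} B Q Z P bl ct tb g) {E : V → Finset ι} (hE : Ech B Z P ct tb g E)
    {e0 : ℕ} (hext : Gdl.Ext (absG B (Gdl.rm Q Z (g.Xs P ct) (g.Ys P ct)) (g.Ys P ct) E
        (g.Ns.{u} P ct)) (Gdl.rm Q Z (g.Xs P ct) (g.Ys P ct) ∪ g.Ys P ct) (g.Ys P ct) e0)
    (hnum : g.num6 P e0 = true) : False := by
  classical
  have hG := h.gdl hok d hE
  have hcls := h.cls hok d hE
  have hcov := h.cov_cls (g := g) hok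
  have hw := hG.wir
  have hv := h.hv
  have hcl0 : 0 < g.cl.length := by
    unfold Gk.okb at hok
    simp only [Bool.and_eq_true] at hok
    obtain ⟨_, _, _, _, _, _, _, _, h1⟩ := hok
    rwa [Nat.blt_eq] at h1
  have hAne : (g.As P ct).Nonempty := by
    obtain ⟨c, hc⟩ : ∃ c, c ∈ g.cl := List.exists_mem_of_length_pos hcl0
    exact ⟨_, Gk.mem_As.2 ⟨c, hc, rfl⟩⟩
  obtain ⟨a, ha⟩ := hAne
  obtain ⟨hA1, _, k, ⟨v, hv'⟩, _, hk3⟩ := hcls a ha
  have hYne : (g.Ys P ct).Nonempty := ⟨v, hA1 (hk3 hv')⟩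
  have hn : (Gdl.rm Q Z (g.Xs P ct) (g.Ys P ct)).card + (g.Ys P ct).card < Q.card := by
    rw [← card_union_of_disjoint hw.dis]
    refine card_lt_card (Finset.ssubset_iff_subset_ne.2 ⟨union_subset hw.CQ d.YQ, fun h1 => ?_⟩)
    obtain ⟨z, hz⟩ := h.Zne
    have h2 := h.ZQ hz
    rw [← h1] at h2
    rcases mem_union.1 h2 with h3 | h3
    · exact (Gdl.mem_rm.1 h3).2.1 hz
    · exact disjoint_left.1 d.dZY hz h3
  have hmain := hG.main6 hv.ih hv.ihr hn hYne (fun s hs => (hcls s hs).1) hcov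
    (fun W hW s hs => (hcls s hs).2.1 W hW) hext (fun s hs => (hcls s hs).2.2)
  have hAcard : (g.As P ct).card ≤ g.cl.length := by
    unfold Gk.As
    exact (List.toFinset_card_le _).trans (by rw [List.length_map])
  have hκ : Fintype.card (ULift.{u} (Fin g.N.length)) = g.N.length := by
    rw [Fintype.card_ulift, Fintype.card_fin]
  have hXc : (g.Xs P ct).card = pcn P.M g.X := h.card_ptm g.X
  have hsZ : sv B Z = (P.zn : ℤ) - 2 * (P.r : ℤ) := by
    unfold sv
    rw [h.cardZ, h.rZ]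
  have hsv1 := hv.sv1
  unfold Gk.num6 at hnum
  rw [Bool.and_eq_true] at hnum
  obtain ⟨hnum, hdn⟩ := hnum
  have hnum := Nat.le_of_ble_eq_true hnum
  have hd : (g.dn : ℤ) ≤ dv B Q Z + 10 := by
    rw [Bool.or_eq_true] at hdn
    rcases hdn with h2 | h2
    · have h3 := Nat.le_of_ble_eq_true h2
      have h4 := h.d0
      have h5 : (g.dn : ℤ) ≤ (P.d0 : ℤ) := by exact_mod_cast h3
      linarith
    · rw [List.contains_iff_mem] at h2
      have h3 := hf _ h2
      rw [lit_ng, gval_D, not_not] at h3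
      exact h3
  rw [hXc, d.Ic, hκ] at hmain
  have h2 := hv.neg
  have h5 : (0 : ℤ) ≤ ((Gdl.lost B Q Z (g.Xs P ct) (g.Ys P ct) (g.Is tb) E).card : ℤ) := by
    positivity
  have h6 : ((g.As P ct).card : ℤ) ≤ (g.cl.length : ℤ) := by exact_mod_cast hAcard
  split_ifs at hnum with hXz
  · have h3 : ((4 * g.N.length + g.cl.length + e0 + 9 + 0 : ℕ) : ℤ) ≤
        ((g.dn + 5 * pcn P.M g.X + 4 * g.I.length : ℕ) : ℤ) := by exact_mod_cast hnum
    push_cast at h3
    by_cases h7 : (g.As P ct).card = g.cl.length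
    · have h1 := hmain.2 (by
        rw [hsZ, h7]
        have k1 := Nat.le_of_ble_eq_true hXz
        have k2 : ((pcn P.M g.X + P.zn : ℕ) : ℤ) ≤ ((2 * P.r + g.cl.length + e0 : ℕ) : ℤ) := by
          exact_mod_cast k1
        push_cast at k2
        linarith)
      linarith
    · have h8 : ((g.As P ct).card : ℤ) + 1 ≤ (g.cl.length : ℤ) := by
        have : (g.As P ct).card + 1 ≤ g.cl.length := by omega
        exact_mod_cast this
      have h1 := hmain.1
      linarith
  · have h1 := hmain.1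
    have h3 : ((4 * g.N.length + g.cl.length + e0 + 9 + 1 : ℕ) : ℤ) ≤
        ((g.dn + 5 * pcn P.M g.X + 4 * g.I.length : ℕ) : ℤ) := by exact_mod_cast hnum
    push_cast at h3
    linarith

/-- **every checked record gives a clause which holds.** -/
theorem Gx.sat6 (h : Gx B Q Z P bl ct zt tb) (g : Gk) (e0 : ℕ) (hok : g.ok6 P e0 = true) :
    Sat (gval B Q Z P bl ct) g.lits := by
  classical
  by_contra hcon
  have hf : ∀ l ∈ g.lits, ¬ Lit (gval B Q Z P bl ct) l := fun l hl hL => hcon ⟨l, hl, hL⟩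
  unfold Gk.ok6 at hok
  rw [Bool.and_eq_true, Bool.and_eq_true, Nat.blt_eq] at hok
  obtain ⟨h1, h2, h3⟩ := hok
  have d := h.dat rfl hf h1
  obtain ⟨E, hE⟩ := h.exists_ech d
  have hG := h.gdl h1 d hE
  exact h.absurd6 hf h1 d hE (hG.ext_of_count h.hv h.Zne (S := g.Ss P ct) inter_subset_left
    (h.rkeep d hE) (h.sum_cx d h2)) h3

/-- no trimmed points. -/
theorem Gk.Ss_zero {g : Gk} (hS : g.S = 0) : g.Ss P ct = ∅ := by
  unfold Gk.Ss
  rw [eq_empty_iff_forall_notMem]
  intro v hv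
  obtain ⟨a, _, h1, _⟩ := mem_ptm.1 (mem_inter.1 hv).2
  rw [hS, Nat.zero_testBit] at h1
  exact Bool.false_ne_true h1

/-- the labels of the deleted and repaired points. -/
theorem Gx.mem_XY (h : Gx B Q Z P bl ct zt tb) {g : Gk} {v : V} :
    v ∈ g.Xs P ct ∪ g.Ys P ct ↔
      ∃ a < P.M, (g.X.testBit a || Nat.blt 0 (deg1 g.N a)) = true ∧ ct a = v := by
  rw [mem_union, Gk.mem_Ys]
  constructor
  · rintro (h1 | h1)
    · obtain ⟨a, ha, h2, rfl⟩ := mem_ptm.1 h1
      exact ⟨a, ha, by rw [h2, Bool.true_or], rfl⟩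
    · obtain ⟨a, ha, ⟨_, h3⟩, rfl⟩ := h1
      exact ⟨a, ha, by rw [Bool.or_eq_true, Nat.blt_eq]; exact Or.inr h3, rfl⟩
  · rintro ⟨a, ha, h1, rfl⟩
    by_cases h2 : g.X.testBit a = true
    · exact Or.inl ((h.mem_ptm_iff ha).2 h2)
    · rw [Bool.or_eq_true, Nat.blt_eq] at h1
      exact Or.inr ⟨a, ha, ⟨h2, h1.resolve_left h2⟩, rfl⟩

/-- **every checked pair of records gives a clause which holds.** -/
theorem Gx.sat_p6 (h : Gx B Q Z P bl ct zt tb) (p : Gp6) (hok : p.ok P = true) :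
    Sat (gval B Q Z P bl ct) p.lits := by
  classical
  by_contra hcon
  have hf0 : ∀ l ∈ p.lits, ¬ Lit (gval B Q Z P bl ct) l := fun l hl hL => hcon ⟨l, hl, hL⟩
  have hf : ∀ l ∈ p.g.lits, ¬ Lit (gval B Q Z P bl ct) l := fun l hl =>
    hf0 l (List.mem_append.2 (Or.inl hl))
  have hf' : ∀ l ∈ p.g'.lits, ¬ Lit (gval B Q Z P bl ct) l := fun l hl =>
    hf0 l (List.mem_append.2 (Or.inr hl))
  unfold Gp6.ok at hok
  simp only [Bool.and_eq_true] at hok
  obtain ⟨k1, k1', k2, k2', k3, k3', k4, k4', k5, k5', k6, k7, k8, k9, k9', k10, k11, k12⟩ := hok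
  rw [Nat.blt_eq] at k7 k8 k12
  rw [Bool.not_eq_true'] at k11
  have k3 : p.g.S = 0 := Nat.eq_of_beq_eq_true k3
  have k3' : p.g'.S = 0 := Nat.eq_of_beq_eq_true k3'
  have k4 : pcn P.M p.g.X = 3 := Nat.eq_of_beq_eq_true k4
  have k4' : pcn P.M p.g'.X = 3 := Nat.eq_of_beq_eq_true k4'
  have d := h.dat rfl hf k1
  have d' := h.dat rfl hf' k1'
  obtain ⟨E, hE⟩ := h.exists_ech d
  obtain ⟨E', hE'⟩ := h.exists_ech d'
  have hG := h.gdl k1 d hE
  have hG' := h.gdl k1' d' hE'
  have hI : p.g.Is tb = p.g'.Is tb := by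
    unfold Gk.Is
    congr 1
    ext j
    rw [List.mem_toFinset, List.mem_toFinset]
    exact ⟨fun hj => List.contains_iff_mem.1 (List.all_eq_true.1 k5 j hj),
      fun hj => List.contains_iff_mem.1 (List.all_eq_true.1 k5' j hj)⟩
  have hXY : p.g.Xs P ct ∪ p.g.Ys P ct = p.g'.Xs P ct ∪ p.g'.Ys P ct := by
    ext v
    rw [h.mem_XY, h.mem_XY]
    constructor
    · rintro ⟨a, ha, h1, h2⟩
      have h3 := List.all_eq_true.1 k6 a (List.mem_range.2 ha)
      rw [Bool.and_eq_true, h1] at h3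
      exact ⟨a, ha, by simpa using h3.1, h2⟩
    · rintro ⟨a, ha, h1, h2⟩
      have h3 := List.all_eq_true.1 k6 a (List.mem_range.2 ha)
      rw [Bool.and_eq_true, h1] at h3
      exact ⟨a, ha, by simpa using h3.2, h2⟩
  rw [← hI] at hG'
  have hsx : ct p.s ∈ p.g.Xs P ct := (h.mem_ptm_iff k7).2 k9
  have hlos : P.l p.s + p.g.idg P p.s ≤ Gdl.los B Z (p.g.Is tb) (ct p.s) := by
    rw [d.los p.s k7]
    have := h.hlo p.s k7
    omega
  rcases hG.ext_pair hG' h.hv h.Zne hXY (by rw [← k4]; exact h.card_ptm _)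
    (by rw [← k4']; exact h.card_ptm _)
    (fun y hy => h.rkeep d hE y hy (by rw [Gk.Ss_zero k3]; exact notMem_empty _))
    (fun y hy => h.rkeep d' hE' y hy (by rw [Gk.Ss_zero k3']; exact notMem_empty _))
    hsx ((h.mem_ptm_iff k7).2 k9') ((h.mem_ptm_iff k8).2 k10)
    (fun h1 => by
      have h2 := (h.mem_ptm_iff k8).1 h1
      rw [k11] at h2
      exact Bool.false_ne_true h2) (m := p.e) (m' := p.e') (by omega) with h1 | h1
  · exact h.absurd6 hf k1 d hE h1 k2
  · exact h.absurd6 hf' k1' d' hE' h1 k2'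

/-- the complete check of an instance; `k6` holds the records with the numbers of further parts,
`kp` the pairs of records. -/
noncomputable def instX6 (P : Gp) (given : List (List ℕ)) (bs : List Gb) (ks : List Gk)
    (k6 : List (ℕ × Gk)) (kp : List Gp6) (nm : Tr) (cnf : List (List ℕ)) (db : Tr)
    (prf : List ℕ) : Bool :=
  bs.all (fun g => g.ok P) && (ks.all (fun g => g.ok P) && (k6.all (fun q => q.2.ok6 P q.1) &&
    (kp.all (fun q => q.ok P) &&
    (!(cnf.isEmpty) && (okcR cnf && (cmpR nm cnf (given ++ (bs.map (Gb.cl P) ++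
      (ks.map Gk.lits ++ (k6.map (fun q => q.2.lits) ++ kp.map Gp6.lits)))) &&
      chk cnf db prf))))))

/-- **a checked instance does not occur.** -/
theorem Gx.no6 (h : Gx B Q Z P bl ct zt tb) {given : List (List ℕ)}
    (hg : ∀ c ∈ given, Sat (gval B Q Z P bl ct) c) {bs : List Gb} {ks : List Gk}
    {k6 : List (ℕ × Gk)} {kp : List Gp6} {nm db : Tr}
    {cnf : List (List ℕ)} {prf : List ℕ}
    (hb : instX6 P given bs ks k6 kp nm cnf db prf = true) : False := by
  unfold instX6 at hb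
  simp only [Bool.and_eq_true] at hb
  obtain ⟨h1, h2, h2', h2'', h3, h4, h5, h6⟩ := hb
  have hne : cnf ≠ [] := by
    rintro rfl
    simp at h3
  obtain ⟨c, hc, hs⟩ := unsat_nm h6 h4 hne h5 (gval B Q Z P bl ct)
  rcases List.mem_append.1 hc with k1 | k1
  · exact hs (hg c k1)
  · rcases List.mem_append.1 k1 with k2 | k2
    · obtain ⟨g, hgm, rfl⟩ := List.mem_map.1 k2
      exact hs (h.sat_base g (List.all_eq_true.1 h1 g hgm))
    · rcases List.mem_append.1 k2 with k3 | k3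
      · obtain ⟨g, hgm, rfl⟩ := List.mem_map.1 k3
        exact hs (h.sat_gd g (List.all_eq_true.1 h2 g hgm))
      · rcases List.mem_append.1 k3 with k4 | k4
        · obtain ⟨q, hqm, rfl⟩ := List.mem_map.1 k4
          exact hs (h.sat6 q.2 q.1 (List.all_eq_true.1 h2' q hqm))
        · obtain ⟨q, hqm, rfl⟩ := List.mem_map.1 k4
          exact hs (h.sat_p6 q (List.all_eq_true.1 h2'' q hqm))

end Gdx

end Pool.Agent.Hyp6
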