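import Pool.Agent.Hyp6.Gdsb
import Pool.Agent.Hyp6.Gdq8

/-!
# HYP6 GDZ8: tables for the general deletion, points with two new single blocks

`Gk.ok8 P e T g`: the record `g` with `e` further parts, where the labels of the mask `T` have two new
single blocks and at most one block off `Z` which is not deleted: two more for each of them. `Gs8`: the
sub-records with this rule. `instX8`: instances.
-/

set_option autoImplicit false

namespace Pool.Agent.Hyp6

open Finset Pool.Agent.Hyp5 Rup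

universe u v

namespace Gdx

/-- the number check with `e` further parts and the labels `T` with two new single blocks. -/
def Gk.num8 (P : Gp) (g : Gk) (e T : ℕ) : Bool :=
  Nat.ble (4 * g.N.length + g.cl.length + e + 9 +
    (if Nat.ble (pcn P.M g.X + P.zn) (2 * P.r + g.cl.length + e) then 0 else 1))
      (g.dn + 5 * pcn P.M g.X + 4 * g.I.length + 2 * pcn P.M T) &&
  (Nat.ble g.dn P.d0 || g.lits.contains (ng (vD g.dn)))

/-- the labels `T` have two new single blocks and at most one other block off `Z` and off `I`. -/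
def Gk.y2 (P : Gp) (g : Gk) (T : ℕ) : Bool :=
  (List.range P.M).all (fun a => !(T.testBit a) || (!(g.X.testBit a) && (Nat.ble 4 (P.l a + g.idg P a) &&
    Nat.ble 2 (g.N.countP (fun c => Nat.beq c (2 ^ a))))))

/-- the general deletion with `e` further parts and the labels `T` is correct. -/
def Gk.ok8 (P : Gp) (e T : ℕ) (g : Gk) : Bool :=
  g.okb P && (Nat.blt (((List.range P.M).map (fun a => g.cx P e a)).sum +
    ((List.range P.M).map (fun a => g.cs P e a)).sum) (3 * (e + 1)) &&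
  (g.y2 P T && g.num8 P e T))

theorem countP_beq (N : List ℕ) (x : ℕ) :
    N.countP (fun c => Nat.beq c x) = ((range N.length).filter (fun c => N.getD c 0 = x)).card := by
  induction N with
  | nil => simp
  | cons c N ih =>
    rw [List.countP_cons, ih, card_filter, card_filter, List.length_cons, sum_range_succ']
    congr 1
    simp [Nat.beq_eq]

variable {V : Type v} [DecidableEq V] {ι : Type u} [Fintype ι]
  {B : ι → Finset V} {Q Z : Finset V} {P : Gp} {bl : ℕ → ι} {ct zt : ℕ → V} {tb : ℕ → ι}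

/-- the facts of the labels with two new single blocks. -/
theorem Gx.y2_facts [DecidableEq ι] (h : Gx B Q Z P bl ct zt tb) {g : Gk}
    (d : Dat.{u} B Q Z P bl ct tb g) {T : ℕ} (hT : g.y2 P T = true) :
    ptm ct P.M T ⊆ g.Ys P ct ∧
    (∀ y ∈ ptm ct P.M T, (univ.filter (fun i => B i ∩ Q = {y})).card ≤ 1) ∧
    (∀ y ∈ ptm ct P.M T, 2 ≤ (univ.filter (fun c => g.Ns.{u} P ct c = {y})).card) := by
  classical
  unfold Gk.y2 at hT
  rw [List.all_eq_true] at hT
  have key : ∀ a < P.M, T.testBit a = true → g.X.testBit a = false ∧ 4 ≤ P.l a + g.idg P a ∧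
      2 ≤ ((range g.N.length).filter (fun c => g.N.getD c 0 = 2 ^ a)).card := by
    intro a ha hTa
    have h1 := hT a (List.mem_range.2 ha)
    rw [hTa, Bool.not_true, Bool.false_or, Bool.and_eq_true, Bool.and_eq_true,
      Bool.not_eq_true'] at h1
    refine ⟨h1.1, Nat.le_of_ble_eq_true h1.2.1, ?_⟩
    rw [← countP_beq]
    exact Nat.le_of_ble_eq_true h1.2.2
  refine ⟨?_, ?_, ?_⟩
  · intro y hy
    obtain ⟨a, ha, hTa, rfl⟩ := mem_ptm.1 hy
    obtain ⟨k1, _, k3⟩ := key a ha hTa
    refine Gk.mem_Ys.2 ⟨a, ha, ⟨by rw [k1]; exact Bool.false_ne_true, ?_⟩, rfl⟩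
    rw [deg1_pos]
    obtain ⟨c, hc⟩ := card_pos.1 (show 0 < _ from lt_of_lt_of_le (by norm_num) k3)
    obtain ⟨hc1, hc2⟩ := mem_filter.1 hc
    refine ⟨_, getD_mem (mem_range.1 hc1), ?_⟩
    rw [hc2, Nat.testBit_two_pow_self]
  · intro y hy
    obtain ⟨a, ha, hTa, rfl⟩ := mem_ptm.1 hy
    obtain ⟨_, k2, _⟩ := key a ha hTa
    have h1 := d.kpc (ct a) (h.ctQ a ha)
    rw [d.los a ha] at h1
    have h2 := h.hlo a ha
    have h3 : univ.filter (fun i => B i ∩ Q = {ct a}) ⊆ Gdl.kp B Z (g.Is tb) (ct a) := by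
      intro i hi
      have hi' := (mem_filter.1 hi).2
      have hai : ct a ∈ B i ∩ Q := by
        rw [hi']
        exact mem_singleton_self _
      refine Gdl.mem_kp.2 ⟨(mem_inter.1 hai).1, ?_, ?_⟩
      · rintro ⟨z, hz⟩
        obtain ⟨hz1, hz2⟩ := mem_inter.1 hz
        have h4 : z ∈ B i ∩ Q := mem_inter.2 ⟨hz1, h.ZQ hz2⟩
        rw [hi', mem_singleton] at h4
        exact h.ctZ a ha (h4 ▸ hz2)
      · intro hI
        have h4 := (d.full i hI).2
        rw [hi', card_singleton] at h4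
        omega
    have h4 := card_le_card h3
    omega
  · intro y hy
    obtain ⟨a, ha, hTa, rfl⟩ := mem_ptm.1 hy
    obtain ⟨_, _, k3⟩ := key a ha hTa
    rw [← card_ul.{u} (n := g.N.length) (fun c => g.N.getD c 0 = 2 ^ a)] at k3
    refine k3.trans (card_le_card fun c hc => ?_)
    have hc' := (mem_filter.1 hc).2
    refine mem_filter.2 ⟨mem_univ _, ?_⟩
    unfold Gk.Ns
    rw [hc']
    ext v
    rw [mem_ptm, mem_singleton]
    constructor
    · rintro ⟨b, hb, h1, rfl⟩
      rw [Nat.testBit_two_pow] at h1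
      have h2 : a = b := by simpa using h1
      rw [h2]
    · rintro rfl
      exact ⟨a, ha, Nat.testBit_two_pow_self, rfl⟩

/-- **the contradiction of a record** with a bound of the further parts and
points with two new single blocks. -/
theorem Gx.absurd8 [DecidableEq ι] (h : Gx B Q Z P bl ct zt tb) {g : Gk}
    (hf : ∀ l ∈ g.lits, ¬ Lit (gval B Q Z P bl ct) l) (hok : g.okb P = true)
    (d : Dat.{u} B Q Z P bl ct tb g) {E : V → Finset ι} (hE : Ech B Z P ct tb g E)
    {e0 : ℕ} (hext : Gdl.Ext (absG B (Gdl.rm Q Z (g.Xs P ct) (g.Ys P ct)) (g.Ys P ct) E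
        (g.Ns.{u} P ct)) (Gdl.rm Q Z (g.Xs P ct) (g.Ys P ct) ∪ g.Ys P ct) (g.Ys P ct) e0)
    {T : ℕ} (hT : g.y2 P T = true) (hnum : g.num8 P e0 T = true) : False := by
  classical
  have hG := h.gdl hok d hE
  have hcls := h.cls hok d hE
  have hcov := h.cov_cls (g := g) hok
  have hw := hG.wir
  have hv := h.hv
  have hcl0 : 0 < g.cl.length := by
    unfold Gk.okb at hok
    simp only [Bool.and_eq_true] at hok
    obtain ⟨_, _, _, _, _, _, _, _, h1⟩ := hok
    rwa [Nat.blt_eq] at h1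
  have hAne : (g.As P ct).Nonempty := by
    obtain ⟨c, hc⟩ : ∃ c, c ∈ g.cl := List.exists_mem_of_length_pos hcl0
    exact ⟨_, Gk.mem_As.2 ⟨c, hc, rfl⟩⟩
  obtain ⟨a, ha⟩ := hAne
  obtain ⟨hA1, _, k, ⟨v, hv'⟩, _, hk3⟩ := hcls a ha
  have hYne : (g.Ys P ct).Nonempty := ⟨v, hA1 (hk3 hv')⟩
  have hn : (Gdl.rm Q Z (g.Xs P ct) (g.Ys P ct)).card + (g.Ys P ct).card < Q.card := by
    rw [← card_union_of_disjoint hw.dis]
    refine card_lt_card (Finset.ssubset_iff_subset_ne.2 ⟨union_subset hw.CQ d.YQ, fun h1 => ?_⟩)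
    obtain ⟨z, hz⟩ := h.Zne
    have h2 := h.ZQ hz
    rw [← h1] at h2
    rcases mem_union.1 h2 with h3 | h3
    · exact (Gdl.mem_rm.1 h3).2.1 hz
    · exact disjoint_left.1 d.dZY hz h3
  obtain ⟨t1, t2, t3⟩ := h.y2_facts d hT
  have hmain := hG.main6Y t1 t2 t3 hv.ih hv.ihr hn hYne (fun s hs => (hcls s hs).1) hcov
    (fun W hW s hs => (hcls s hs).2.1 W hW) hext (fun s hs => (hcls s hs).2.2)
  have hAcard : (g.As P ct).card ≤ g.cl.length := by
    unfold Gk.As
    exact (List.toFinset_card_le _).trans (by rw [List.length_map])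
  have hκ : Fintype.card (ULift.{u} (Fin g.N.length)) = g.N.length := by
    rw [Fintype.card_ulift, Fintype.card_fin]
  have hXc : (g.Xs P ct).card = pcn P.M g.X := h.card_ptm g.X
  have hsZ : sv B Z = (P.zn : ℤ) - 2 * (P.r : ℤ) := by
    unfold sv
    rw [h.cardZ, h.rZ]
  have hsv1 := hv.sv1
  have hTc : ((ptm ct P.M T).card : ℤ) = ((pcn P.M T : ℕ) : ℤ) := by rw [h.card_ptm T]
  unfold Gk.num8 at hnum
  rw [Bool.and_eq_true] at hnum
  obtain ⟨hnum, hdn⟩ := hnum
  have hnum := Nat.le_of_ble_eq_true hnum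
  have hd : (g.dn : ℤ) ≤ dv B Q Z + 10 := by
    rw [Bool.or_eq_true] at hdn
    rcases hdn with h2 | h2
    · have h3 := Nat.le_of_ble_eq_true h2
      have h4 := h.d0
      have h5 : (g.dn : ℤ) ≤ (P.d0 : ℤ) := by exact_mod_cast h3
      linarith
    · rw [List.contains_iff_mem] at h2
      have h3 := hf _ h2
      rw [lit_ng, gval_D, not_not] at h3
      exact h3
  rw [hXc, d.Ic, hκ, hTc] at hmain
  have h2 := hv.neg
  have h5 : (0 : ℤ) ≤ ((Gdl.lost B Q Z (g.Xs P ct) (g.Ys P ct) (g.Is tb) E).card : ℤ) := by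
    positivity
  have h6 : ((g.As P ct).card : ℤ) ≤ (g.cl.length : ℤ) := by exact_mod_cast hAcard
  split_ifs at hnum with hXz
  · have h3 : ((4 * g.N.length + g.cl.length + e0 + 9 + 0 : ℕ) : ℤ) ≤
        ((g.dn + 5 * pcn P.M g.X + 4 * g.I.length + 2 * pcn P.M T : ℕ) : ℤ) := by exact_mod_cast hnum
    push_cast at h3
    by_cases h7 : (g.As P ct).card = g.cl.length
    · have h1 := hmain.2 (by
        rw [hsZ, h7]
        have k1 := Nat.le_of_ble_eq_true hXz
        have k2 : ((pcn P.M g.X + P.zn : ℕ) : ℤ) ≤ ((2 * P.r + g.cl.length + e0 : ℕ) : ℤ) := by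
          exact_mod_cast k1
        push_cast at k2
        linarith)
      linarith
    · have h8 : ((g.As P ct).card : ℤ) + 1 ≤ (g.cl.length : ℤ) := by
        have : (g.As P ct).card + 1 ≤ g.cl.length := by omega
        exact_mod_cast this
      have h1 := hmain.1
      linarith
  · have h1 := hmain.1
    have h3 : ((4 * g.N.length + g.cl.length + e0 + 9 + 1 : ℕ) : ℤ) ≤
        ((g.dn + 5 * pcn P.M g.X + 4 * g.I.length + 2 * pcn P.M T : ℕ) : ℤ) := by exact_mod_cast hnum
    push_cast at h3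
    linarith

/-- **every checked record gives a clause which holds.** -/
theorem Gx.sat8 (h : Gx B Q Z P bl ct zt tb) (g : Gk) (e0 T : ℕ) (hok : g.ok8 P e0 T = true) :
    Sat (gval B Q Z P bl ct) g.lits := by
  classical
  by_contra hcon
  have hf : ∀ l ∈ g.lits, ¬ Lit (gval B Q Z P bl ct) l := fun l hl hL => hcon ⟨l, hl, hL⟩
  unfold Gk.ok8 at hok
  rw [Bool.and_eq_true, Bool.and_eq_true, Bool.and_eq_true, Nat.blt_eq] at hok
  obtain ⟨h1, h2, h4, h3⟩ := hok
  have d := h.dat rfl hf h1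
  obtain ⟨E, hE⟩ := h.exists_ech d
  have hG := h.gdl h1 d hE
  exact h.absurd8 hf h1 d hE (hG.ext_of_count h.hv h.Zne (S := g.Ss P ct) inter_subset_left
    (h.rkeep d hE) (h.sum_cx d h2)) h4 h3

/-- a sub-record with labels `T` which have two new single blocks. -/
structure Gs8 where
  s : Gsb
  T : ℕ

/-- the sub-record is correct. -/
def Gs8.ok (P : Gp) (t : Gs8) : Bool :=
  t.s.okp P && (t.s.q.eqb (t.s.P' P) && (t.s.g.ok8 t.s.q t.s.e t.T && t.s.g.lits.all (t.s.lf P)))

/-- **every checked sub-record gives a clause which holds.** -/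
theorem Gx.sat_s8 (h : Gx B Q Z P bl ct zt tb) (t : Gs8) (hok : t.ok P = true) :
    Sat (gval B Q Z P bl ct) t.s.cl := by
  classical
  have h32 := h.M32
  unfold Gs8.ok at hok
  rw [Bool.and_eq_true, Bool.and_eq_true, Bool.and_eq_true] at hok
  obtain ⟨h1, h0, h2, h3⟩ := hok
  rw [Gp.eq_of_eqb h0] at h2
  by_contra hcon
  have hm : ∀ q ∈ t.s.as, q.2 < P.M := by
    unfold Gsb.okp at h1
    simp only [Bool.and_eq_true] at h1
    obtain ⟨_, _, _, _, _, _, _, h4, _⟩ := h1
    rw [List.all_eq_true] at h4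
    intro q hq
    have := h4 q hq
    rw [Bool.and_eq_true, Nat.blt_eq, Nat.blt_eq] at this
    exact this.2
  have has : ∀ q ∈ t.s.as, ct q.2 ∈ B (bl q.1) := by
    intro q hq
    by_contra h4
    refine hcon ⟨ng (vP q.1 q.2), List.mem_map.2 ⟨q, hq, rfl⟩, ?_⟩
    have := hm q hq
    rw [lit_ng, gval_P (by omega)]
    exact h4
  have hs := h.sub h1 has
  obtain ⟨l, hl, hL⟩ := hs.sat8 t.s.g t.s.e t.T h2
  exact h.lf_false h1 has (List.all_eq_true.1 h3 l hl) hL

/-- the complete check of an instance; `k8` holds the records with the numbers of further parts and the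
labels with two new single blocks, `s8` the sub-records with such labels. -/
noncomputable def instX8 (P : Gp) (given : List (List ℕ)) (bs : List Gb) (ks : List Gk)
    (k6 : List (ℕ × Gk)) (kp : List Gp6) (sb : List Gsb) (k8 : List (ℕ × ℕ × Gk)) (s8 : List Gs8)
    (nm : Tr) (cnf : List (List ℕ)) (db : Tr) (prf : List ℕ) : Bool :=
  k8.all (fun q => q.2.2.ok8 P q.1 q.2.1) && (s8.all (fun t => t.ok P) &&
    instX7 P (given ++ (k8.map (fun q => q.2.2.lits) ++ s8.map (fun t => t.s.cl))) bs ks k6 kp sb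
      nm cnf db prf)

/-- **a checked instance does not occur.** -/
theorem Gx.no8 (h : Gx B Q Z P bl ct zt tb) {given : List (List ℕ)}
    (hg : ∀ c ∈ given, Sat (gval B Q Z P bl ct) c) {bs : List Gb} {ks : List Gk}
    {k6 : List (ℕ × Gk)} {kp : List Gp6} {sb : List Gsb} {k8 : List (ℕ × ℕ × Gk)} {s8 : List Gs8}
    {nm db : Tr} {cnf : List (List ℕ)} {prf : List ℕ}
    (hb : instX8 P given bs ks k6 kp sb k8 s8 nm cnf db prf = true) : False := by
  unfold instX8 at hb
  rw [Bool.and_eq_true, Bool.and_eq_true] at hb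
  obtain ⟨h1, h2, h3⟩ := hb
  refine h.no7 (fun c hc => ?_) h3
  rcases List.mem_append.1 hc with k1 | k1
  · exact hg c k1
  · rcases List.mem_append.1 k1 with k2 | k2
    · obtain ⟨q, hq, rfl⟩ := List.mem_map.1 k2
      exact h.sat8 q.2.2 q.1 q.2.1 (List.all_eq_true.1 h1 q hq)
    · obtain ⟨t, ht, rfl⟩ := List.mem_map.1 k2
      exact h.sat_s8 t (List.all_eq_true.1 h2 t ht)

end Gdx

end Pool.Agent.Hyp6
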