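import Pool.Agent.Hyp6.Gdz8
import Pool.Agent.Hyp6.Gdw4

/-!
# HYP6 GDZS: labels with one hit in the order of the blocks

`Lbl.sort1`: the labels of the points with one hit can be sorted by a function. `okL`: the clause that
of two such labels the later one is not in an earlier block. `Lbl.no8`: a checked instance of a leaf of
type (3;1) with these clauses.
-/

set_option autoImplicit false

namespace Pool.Agent.Hyp6

open Finset Pool.Agent.Hyp5 Gdx Rup

universe u v

variable {V : Type v} [DecidableEq V] {ι : Type u} [Fintype ι] {B : ι → Finset V}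

/-- the labels of the points with one hit in the order of a function. -/
theorem Lbl.sort1 {Q Z : Finset V} {j : ι} {hT : List ℕ} {m : ℕ} {ct : ℕ → V}
    (hl : Lbl B Q Z j hT (List.replicate m 1) ct) (f : V → ℕ) :
    ∃ ct' : ℕ → V, Lbl B Q Z j hT (List.replicate m 1) ct' ∧
      ∀ v w, 3 ≤ v → v ≤ w → w < 3 + m → f (ct' v) ≤ f (ct' w) := by
  classical
  have hlen : (List.replicate m 1).length = m := List.length_replicate
  set g : Fin m → ℕ := fun i => f (ct (3 + i.val)) with hg
  set σ := Tuple.sort g with hσ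
  have hmono : Monotone (g ∘ σ) := Tuple.monotone_sort g
  -- the renumbering
  set p : ℕ → ℕ := fun n => if h : 3 ≤ n ∧ n < 3 + m then
    3 + (σ ⟨n - 3, by omega⟩).val else n with hp
  have hp1 : ∀ n < 3, p n = n := by
    intro n hn
    rw [hp]
    dsimp only
    rw [dif_neg (by omega)]
  have hp2 : ∀ n, (h : 3 ≤ n ∧ n < 3 + m) → p n = 3 + (σ ⟨n - 3, by omega⟩).val := by
    intro n h
    rw [hp]
    dsimp only
    rw [dif_pos h]
  have hp3 : ∀ n, 3 ≤ n → n < 3 + m → 3 ≤ p n ∧ p n < 3 + m := by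
    intro n h1 h2
    rw [hp2 n ⟨h1, h2⟩]
    have := (σ ⟨n - 3, by omega⟩).isLt
    omega
  have hb : ∀ a < 3 + m, p a < 3 + m := by
    intro a ha
    rcases Nat.lt_or_ge a 3 with h2 | h2
    · rw [hp1 a h2]
      exact ha
    · exact (hp3 a h2 ha).2
  have hinj : ∀ a < 3 + m, ∀ a' < 3 + m, p a = p a' → a = a' := by
    intro a ha a' ha' he
    rcases Nat.lt_or_ge a 3 with h2 | h2
    · rcases Nat.lt_or_ge a' 3 with h3 | h3
      · rwa [hp1 a h2, hp1 a' h3] at he
      · have := (hp3 a' h3 ha').1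
        rw [hp1 a h2] at he
        omega
    · rcases Nat.lt_or_ge a' 3 with h3 | h3
      · have := (hp3 a h2 ha).1
        rw [hp1 a' h3] at he
        omega
      · rw [hp2 a ⟨h2, ha⟩, hp2 a' ⟨h3, ha'⟩] at he
        have h4 : σ ⟨a - 3, by omega⟩ = σ ⟨a' - 3, by omega⟩ := Fin.ext (by omega)
        have h5 := σ.injective h4
        have h6 : a - 3 = a' - 3 := congrArg Fin.val h5
        omega
  have hsurj : ∀ c, 3 ≤ c → c < 3 + m → ∃ a, 3 ≤ a ∧ a < 3 + m ∧ p a = c := by
    intro c h1 h2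
    set i := σ.symm ⟨c - 3, by omega⟩ with hi
    refine ⟨3 + i.val, by omega, by have := i.isLt; omega, ?_⟩
    rw [hp2 (3 + i.val) ⟨by omega, by have := i.isLt; omega⟩]
    have h3 : (⟨3 + i.val - 3, by have := i.isLt; omega⟩ : Fin m) = i := Fin.ext (by simp)
    rw [h3, hi, Equiv.apply_symm_apply]
    simp only
    omega
  refine ⟨fun n => ct (p n), ⟨hl.lenT, hl.desT, hl.desW, hl.posW, ?_, ?_, ?_, ?_, ?_, hl.sumT,
    hl.sumW⟩, ?_⟩
  · intro a ha
    rw [hlen] at ha
    exact hl.memQ _ (by rw [hlen]; exact hb a ha)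
  · intro a ha a' ha' he
    rw [hlen] at ha ha'
    exact hinj a ha a' ha' (hl.inj _ (by rw [hlen]; exact hb a ha) _ (by rw [hlen]; exact hb a' ha') he)
  · intro v
    rw [hl.trip]
    constructor
    · rintro ⟨a, ha, rfl⟩
      exact ⟨a, ha, by rw [hp1 a ha]⟩
    · rintro ⟨a, ha, rfl⟩
      exact ⟨a, ha, by rw [hp1 a ha]⟩
  · intro v hv hvZ hne
    obtain ⟨a, ha, rfl⟩ := hl.all v hv hvZ hne
    rw [hlen] at ha
    rcases Nat.lt_or_ge a 3 with h2 | h2
    · exact ⟨a, by rw [hlen]; exact ha, by rw [hp1 a h2]⟩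
    · obtain ⟨b, hb1, hb2, hb3⟩ := hsurj a h2 ha
      exact ⟨b, by rw [hlen]; exact hb2, by rw [hb3]⟩
  · intro a ha
    rw [hlen] at ha
    rw [hl.hits _ (by rw [hlen]; exact hb a ha)]
    rcases Nat.lt_or_ge a 3 with h2 | h2
    · rw [hp1 a h2]
    · obtain ⟨h3, h4⟩ := hp3 a h2 ha
      rw [List.getD_append_right _ _ _ _ (by rw [hl.lenT]; exact h3),
        List.getD_append_right _ _ _ _ (by rw [hl.lenT]; exact h2), hl.lenT,
        List.getD_replicate _ (by omega), List.getD_replicate _ (by omega)]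
  · intro v w h3 hvw hw
    dsimp only
    rw [hp2 v ⟨h3, by omega⟩, hp2 w ⟨by omega, hw⟩]
    exact hmono (show (⟨v - 3, by omega⟩ : Fin m) ≤ ⟨w - 3, by omega⟩ from by
      rw [Fin.mk_le_mk]
      omega)

/-- the clause: the label `v` is not in the block `b` or the later label `w` not in the earlier block. -/
def okL (m n : ℕ) (c : List ℕ) : Bool :=
  match c with
  | [x, y] => Nat.beq (x % 16) 1 && (Nat.beq (y % 16) 1 && (Nat.ble 3 (x / 16 % 32) &&
      (Nat.blt (x / 16 % 32) (y / 16 % 32) && (Nat.blt (y / 16 % 32) (3 + m) &&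
      (Nat.blt (y / 16 / 32) (x / 16 / 32) && Nat.blt (x / 16 / 32) n)))))
  | _ => false

/-- **a checked instance of a leaf of type (3;1)** with the labels of the single hits in the order of the
blocks does not occur. -/
theorem Lbl.no8 {Q U L : Finset V} {T : Finset ι} {F : Finset (Finset V)}
    (h : Frm B Q T U F) (hv : ViolR B Q) (hL : L ∈ F) (hc3 : L.card = 3) (h1 : nt B L 1 = 1)
    {j : ι} (hj : j ∈ T) {hT : List ℕ} {m : ℕ} {ct : ℕ → V}
    (hl : Lbl B Q L j hT (List.replicate m 1) ct) (hm : m ≤ 29)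
    {given : List (List ℕ)} {bs : List Gb} {ks : List Gk}
    {k6 : List (ℕ × Gk)} {kp : List Gp6} {sb : List Gsb} {k8 : List (ℕ × ℕ × Gk)} {s8 : List Gs8}
    {nm db : Tr} {cnf : List (List ℕ)} {prf : List ℕ}
    (hg : given.all (okL m 8) = true)
    (hb : instX8 (P31 hT (List.replicate m 1)) given bs ks k6 kp sb k8 s8 nm cnf db prf = true) :
    False := by
  classical
  obtain ⟨hcm, hrho, hP, hit9⟩ := h.leaf31 hv hL hc3 h1
  have hLQ := h.FQ hL
  have hLne : L.Nonempty := card_pos.1 (by omega)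
  obtain ⟨a, b, c, s, ht⟩ := exists_t31 (hv.reg.mono hLQ) (hv.tr.mono hLQ) hc3 hcm hrho
  obtain ⟨bl, zt, hbk, _⟩ := ht.exists_blocks
  set f : V → ℕ := fun v => if hx : ∃ b, b < 8 ∧ v ∈ B (bl b) then Nat.find hx else 0 with hf
  obtain ⟨ct', hl', hord⟩ := hl.sort1 f
  have hlen : (List.replicate m 1).length = m := List.length_replicate
  have hgx : Gdx.Gx B Q L (P31 hT (List.replicate m 1)) bl ct' zt (fun _ => j) :=
    hl'.gx hbk hv hLQ hLne (h.full hj) (by rw [hlen]; exact hm) hrho (by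
      have := hv.leaf_dv h hL
      push_cast
      linarith) (by rw [hP]; norm_num)
  -- the block of a label with one hit
  have hblk : ∀ v, 3 ≤ v → v < 3 + m → ∀ b < 8, ct' v ∈ B (bl b) → f (ct' v) = b := by
    intro v hv3 hvm b hb8 hvb
    have hx : ∃ b, b < 8 ∧ ct' v ∈ B (bl b) := ⟨b, hb8, hvb⟩
    have h2 : f (ct' v) = Nat.find hx := by
      rw [hf]
      dsimp only
      rw [dif_pos hx]
    obtain ⟨h3, h4⟩ := Nat.find_spec hx
    have h5 := hl'.hits v (by rw [hlen]; exact hvm)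
    rw [List.getD_append_right _ _ _ _ (by rw [hl'.lenT]; exact hv3), hl'.lenT,
      List.getD_replicate _ (by omega)] at h5
    have h6 : bl (Nat.find hx) = bl b := card_le_one.1 h5.le _
      (mem_Ez.2 ⟨h4, hbk.touch _ h3⟩) _ (mem_Ez.2 ⟨hvb, hbk.touch _ hb8⟩)
    rw [h2]
    exact hbk.inj _ h3 _ hb8 h6
  refine hgx.no8 (fun c hc => ?_) hb
  have h2 := List.all_eq_true.1 hg c hc
  unfold okL at h2
  split at h2
  · rename_i x y
    simp only [Bool.and_eq_true, Nat.blt_eq, Nat.beq_eq] at h2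
    obtain ⟨e1, e2, e3, e4, e5, e6, e7⟩ := h2
    have e3 := Nat.le_of_ble_eq_true e3
    have ex : x = ng (vP (x / 16 / 32) (x / 16 % 32)) := by
      unfold ng vP
      omega
    have ey : y = ng (vP (y / 16 / 32) (y / 16 % 32)) := by
      unfold ng vP
      omega
    by_contra hcon
    have k1 : ct' (x / 16 % 32) ∈ B (bl (x / 16 / 32)) := by
      by_contra h3
      refine hcon ⟨x, List.mem_cons_self, ?_⟩
      rw [ex, lit_ng, gval_P (by omega)]
      exact h3
    have k2 : ct' (y / 16 % 32) ∈ B (bl (y / 16 / 32)) := by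
      by_contra h3
      refine hcon ⟨y, List.mem_cons_of_mem _ List.mem_cons_self, ?_⟩
      rw [ey, lit_ng, gval_P (by omega)]
      exact h3
    have k3 := hblk _ e3 (by omega) _ e7 k1
    have k4 := hblk (y / 16 % 32) (by omega) e5 _ (by omega) k2
    have k5 := hord (x / 16 % 32) (y / 16 % 32) e3 (by omega) e5
    omega
  · exact absurd h2 (by simp)

end Pool.Agent.Hyp6
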