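import Pool.Agent.Hyp6.Val

/-!
# HYP6 GSR: sorting inside classes

`exists_sort_cls`: the indices `< m` can be permuted inside the classes of `z` so that `f` becomes
increasing in every class.
-/

set_option autoImplicit false

namespace Pool.Agent.Hyp6

open Finset

/-- **sorting inside classes**. -/
theorem exists_sort_cls (m : ℕ) {α : Type*} (z : ℕ → α) (f : ℕ → ℕ) :
    ∃ p : ℕ → ℕ, (∀ b < m, p b < m) ∧ (∀ b < m, ∀ b' < m, p b = p b' → b = b') ∧
      (∀ b < m, z (p b) = z b) ∧
      ∀ b b', b < b' → b' < m → z b = z b' → f (p b) ≤ f (p b') := by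
  classical
  set S : Finset (Equiv.Perm (Fin m)) := univ.filter (fun π => ∀ b, z (π b) = z b) with hS
  obtain ⟨π, hπ, hmax⟩ := exists_max_image S
    (fun π => ∑ b : Fin m, (b : ℕ) * f (π b)) ⟨1, by simp [hS]⟩
  have hz : ∀ b, z (π b) = z b := (mem_filter.1 hπ).2
  refine ⟨fun b => if h : b < m then (π ⟨b, h⟩ : ℕ) else b, fun b hb => ?_,
    fun b hb b' hb' he => ?_, fun b hb => ?_, fun b b' hbb hb' hzz => ?_⟩
  · simp only [hb, dif_pos]
    exact (π ⟨b, hb⟩).2
  · simp only [hb, hb', dif_pos] at he
    have h1 := π.injective (Fin.ext he)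
    exact congrArg Fin.val h1
  · simp only [hb, dif_pos]
    exact hz ⟨b, hb⟩
  · have hb : b < m := hbb.trans hb'
    simp only [hb, hb', dif_pos]
    by_contra hlt
    push Not at hlt
    set x : Fin m := ⟨b, hb⟩ with hx
    set y : Fin m := ⟨b', hb'⟩ with hy
    have hxy : x ≠ y := fun h1 => by
      have := congrArg Fin.val h1
      simp [hx, hy] at this
      omega
    have hmem : π * Equiv.swap x y ∈ S := by
      refine mem_filter.2 ⟨mem_univ _, fun c => ?_⟩
      rw [Equiv.Perm.mul_apply, hz]
      by_cases h1 : c = x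
      · rw [h1, Equiv.swap_apply_left]
        exact hzz.symm
      by_cases h2 : c = y
      · rw [h2, Equiv.swap_apply_right]
        exact hzz
      · rw [Equiv.swap_apply_of_ne_of_ne h1 h2]
    have h1 := hmax _ hmem
    have hsplit : ∀ g : Fin m → ℕ, ∑ c, g c = g x + g y + ∑ c ∈ (univ.erase x).erase y, g c := by
      intro g
      rw [← add_sum_erase univ g (mem_univ x), ← add_sum_erase (univ.erase x) g
        (mem_erase.2 ⟨hxy.symm, mem_univ y⟩), add_assoc]
    rw [hsplit, hsplit (fun c => (c : ℕ) * f (π c))] at h1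
    have h2 : ∑ c ∈ (univ.erase x).erase y, (c : ℕ) * f ((π * Equiv.swap x y) c) =
        ∑ c ∈ (univ.erase x).erase y, (c : ℕ) * f (π c) := by
      refine sum_congr rfl fun c hc => ?_
      obtain ⟨h3, h4⟩ := mem_erase.1 hc
      have h5 := (mem_erase.1 h4).1
      rw [Equiv.Perm.mul_apply, Equiv.swap_apply_of_ne_of_ne h5 h3]
    rw [h2, Equiv.Perm.mul_apply, Equiv.Perm.mul_apply, Equiv.swap_apply_left,
      Equiv.swap_apply_right] at h1
    have h3 : (x : ℕ) * f (π y) + y * f (π x) ≤ x * f (π x) + y * f (π y) := by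
      have : (x : ℕ) * f (π y) + y * f (π x) + ∑ c ∈ (univ.erase x).erase y, (c : ℕ) * f (π c) ≤
        x * f (π x) + y * f (π y) + ∑ c ∈ (univ.erase x).erase y, (c : ℕ) * f (π c) := h1
      omega
    have h4 : (x : ℕ) < y := hbb
    obtain ⟨d, hd⟩ := Nat.exists_eq_add_of_lt h4
    obtain ⟨e, he⟩ := Nat.exists_eq_add_of_lt hlt
    rw [hd, he] at h3
    nlinarith

/-- a permutation of the values lifts to a permutation of the list. -/
theorem exists_perm_map {α β : Type*} {f : α → β} {l1 l2 : List β} (hp : l1.Perm l2) :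
    ∀ l : List α, l.map f = l1 → ∃ l' : List α, l.Perm l' ∧ l'.map f = l2 := by
  induction hp with
  | nil => intro l hl; exact ⟨l, List.Perm.refl _, hl⟩
  | cons x _ ih =>
    intro l hl
    rcases l with _ | ⟨a, t⟩
    · simp at hl
    · rw [List.map_cons, List.cons.injEq] at hl
      obtain ⟨t', h1, h2⟩ := ih t hl.2
      exact ⟨a :: t', h1.cons a, by rw [List.map_cons, h2, hl.1]⟩
  | swap x y l2 =>
    intro l hl
    rcases l with _ | ⟨a, _ | ⟨b, t⟩⟩
    · simp at hl
    · simp at hl
    · rw [List.map_cons, List.map_cons, List.cons.injEq, List.cons.injEq] at hl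
      exact ⟨b :: a :: t, List.Perm.swap _ _ _, by
        rw [List.map_cons, List.map_cons, hl.1, hl.2.1, hl.2.2]⟩
  | trans _ _ ih1 ih2 =>
    intro l hl
    obtain ⟨l', h1, h2⟩ := ih1 l hl
    obtain ⟨l'', h3, h4⟩ := ih2 l' h2
    exact ⟨l'', h1.trans h3, h4⟩

/-- **the enumeration of a finite set with given values**. -/
theorem exists_enum {α β : Type*} [DecidableEq β] [Inhabited α] (s : Finset α) (f : α → β) {l2 : List β}
    (hp : (s.toList.map f).Perm l2) (d : β) :
    ∃ e : ℕ → α, (∀ b < l2.length, e b ∈ s) ∧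
      (∀ b < l2.length, ∀ b' < l2.length, e b = e b' → b = b') ∧
      (∀ b < l2.length, f (e b) = l2.getD b d) ∧ ∀ a ∈ s, ∃ b < l2.length, e b = a := by
  classical
  obtain ⟨l', h1, h2⟩ := exists_perm_map hp s.toList rfl
  have hnd : l'.Nodup := h1.nodup_iff.1 s.nodup_toList
  have hlen : l'.length = l2.length := by rw [← h2, List.length_map]
  have hmem : ∀ a, a ∈ l' ↔ a ∈ s := fun a => by rw [← h1.mem_iff, Finset.mem_toList]
  refine ⟨fun b => l'.getD b default, fun b hb => ?_, fun b hb b' hb' he => ?_, fun b hb => ?_,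
    fun a ha => ?_⟩
  · rw [← hlen] at hb
    dsimp only
    rw [List.getD_eq_getElem _ _ hb]
    exact (hmem _).1 (List.getElem_mem hb)
  · rw [← hlen] at hb hb'
    dsimp only at he
    rw [List.getD_eq_getElem _ _ hb, List.getD_eq_getElem _ _ hb'] at he
    exact (List.Nodup.getElem_inj_iff hnd).1 he
  · rw [← hlen] at hb
    dsimp only
    rw [List.getD_eq_getElem _ _ hb]
    have h3 : b < (l'.map f).length := by rw [List.length_map]; exact hb
    have h4 : l2.getD b d = (l'.map f).getD b d := by rw [h2]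
    rw [h4, List.getD_eq_getElem _ _ h3, List.getElem_map]
  · obtain ⟨b, hb, he⟩ := List.getElem_of_mem ((hmem a).2 ha)
    refine ⟨b, by rw [← hlen]; exact hb, ?_⟩
    dsimp only
    rw [List.getD_eq_getElem _ _ hb]
    exact he

/-- the same with the multiplicities of the values. -/
theorem exists_enum_count {α β : Type*} [DecidableEq β] [Inhabited α] [DecidableEq α] (s : Finset α)
    (f : α → β) {l2 : List β} (hc : ∀ c, (s.filter (fun a => f a = c)).card = l2.count c) (d : β) :
    ∃ e : ℕ → α, (∀ b < l2.length, e b ∈ s) ∧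
      (∀ b < l2.length, ∀ b' < l2.length, e b = e b' → b = b') ∧
      (∀ b < l2.length, f (e b) = l2.getD b d) ∧ ∀ a ∈ s, ∃ b < l2.length, e b = a := by
  refine exists_enum s f ?_ d
  rw [List.perm_iff_count]
  intro c
  rw [← hc c, List.count_eq_countP, List.countP_map]
  have h1 : ((s.toList.countP ((fun x => x == c) ∘ f)) : ℕ) =
      (s.toList.filter ((fun x => x == c) ∘ f)).length := List.countP_eq_length_filter
  rw [h1]
  have h2 : (s.filter (fun a => f a = c)).card = (s.filter (fun a => f a = c)).toList.length :=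
    (Finset.length_toList _).symm
  rw [h2]
  refine List.Perm.length_eq ?_
  rw [List.perm_ext_iff_of_nodup ((s.nodup_toList).filter _) (Finset.nodup_toList _)]
  intro a
  simp

/-- the values sorted decreasingly. -/
theorem exists_desc (l : List ℕ) : ∃ l2 : List ℕ, l.Perm l2 ∧ l2.Pairwise (fun a b => b ≤ a) :=
  ⟨l.mergeSort (fun a b => decide (b ≤ a)), (List.mergeSort_perm _ _).symm, by
    have h1 := List.pairwise_mergeSort (le := fun a b => decide (b ≤ a))
      (fun a b c h1 h2 => by
        simp only [decide_eq_true_eq] at h1 h2 ⊢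
        omega)
      (fun a b => by
        simp only [Bool.or_eq_true, decide_eq_true_eq]
        omega) l
    exact h1.imp fun h2 => by simpa using h2⟩

end Pool.Agent.Hyp6
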