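import Pool.Agent.Hyp6.Clq4

/-!
# HYP6 HOME: the component of the private blocks of a member

`F` is a maximum packing of blocks with five points, `K` the parts of `W = U \ ⋃ F`. All private blocks of
a member `z` with at least five of them have their trace in one part (`home`). A block `b` meeting `z` but
none of the private traces has at most `2 |b ∩ z| + 20 - p(z)` common neighbours with `z` (`cmn_le`).
-/

set_option autoImplicit false

namespace Pool.Agent.Hyp6

open Finset Pool.Agent.Hyp5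

variable {V : Type*} [DecidableEq V] {ι : Type*} {B : ι → Finset V}

section Trace

variable {K : Finset (Finset V)}

theorem trace_part (hK : SepF B K) {i : ι} (hne : (B i ∩ K.biUnion id).Nonempty) :
    ∃ C ∈ K, B i ∩ K.biUnion id ⊆ C := by
  obtain ⟨v, hv⟩ := hne
  rw [mem_inter, mem_biUnion] at hv
  obtain ⟨hvi, C, hC, hvC⟩ := hv
  refine ⟨C, hC, fun w hw => ?_⟩
  rw [mem_inter, mem_biUnion] at hw
  obtain ⟨hwi, D, hD, hwD⟩ := hw
  by_cases hDC : D = C
  · rw [← hDC]; exact hwD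
  · exact absurd ⟨v, mem_inter.2 ⟨hvi, hvC⟩⟩
      ((hK D hD C hC hDC).2 i ⟨w, mem_inter.2 ⟨hwi, hwD⟩⟩)

theorem part_eq (hK : SepF B K) {C D : Finset V} (hC : C ∈ K) (hD : D ∈ K) {v : V} (hvC : v ∈ C)
    (hvD : v ∈ D) : C = D := by
  by_contra hne
  exact Finset.disjoint_left.1 (hK C hC D hD hne).1 hvC hvD

end Trace

section

variable {U : Finset V} {F : Finset ι}

/-- two private blocks of a member with different points in it meet outside the packing. -/
theorem MaxPack.pri_meet' [DecidableEq ι] (h : MaxPack B U F) {z i j : ι} (hz : z ∈ F)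
    (hi : Pri B U F z i) (hj : Pri B U F z j) {v : V} (hvi : v ∈ B i) (hvz : v ∈ B z)
    (hvU : v ∈ U) (hvj : v ∉ B j) :
    ∃ w, w ∈ B i ∧ w ∈ B j ∧ w ∈ U \ F.biUnion B := by
  have h1 := h.pri_meet hz hi hj
  rw [Finset.not_disjoint_iff] at h1
  obtain ⟨w, hwi, hwj⟩ := h1
  rw [mem_inter] at hwi hwj
  refine ⟨w, hwi.1, hwj.1, mem_sdiff.2 ⟨hwi.2, fun hc => ?_⟩⟩
  obtain ⟨x, hx, -⟩ := hi.point hz
  have h2 : w ∈ B i ∩ (F.biUnion B ∩ U) := mem_inter.2 ⟨hwi.1, mem_inter.2 ⟨hc, hwi.2⟩⟩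
  have h3 : v ∈ B i ∩ (F.biUnion B ∩ U) :=
    mem_inter.2 ⟨hvi, mem_inter.2 ⟨mem_biUnion.2 ⟨z, hz, hvz⟩, hvU⟩⟩
  rw [hx, mem_singleton] at h2 h3
  rw [h2, ← h3] at hwj
  exact hvj hwj.1

variable [Fintype ι]

open Classical in
/-- the private blocks through a point. -/
theorem pri_at_le (hr : Reg B U) {z : ι} {v : V} (hv : v ∈ U) (hvz : v ∈ B z) (hz : z ∈ F) :
    ((univ.filter (fun i => Pri B U F z i)).filter (fun i => v ∈ B i)).card ≤ 4 := by
  have h1 : ((univ.filter (fun i => Pri B U F z i)).filter (fun i => v ∈ B i)) ⊆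
      (univ.filter (fun i => v ∈ B i)).erase z := by
    intro i hi
    rw [mem_filter, mem_filter] at hi
    rw [mem_erase, mem_filter]
    exact ⟨fun e => hi.1.2.1.1 (e ▸ hz), mem_univ _, hi.2⟩
  have h2 := card_le_card h1
  have h3 : z ∈ univ.filter (fun i => v ∈ B i) := mem_filter.2 ⟨mem_univ _, hvz⟩
  rw [card_erase_of_mem h3] at h2
  have h4 := hr v hv
  omega

/-- **the component of the private blocks.** -/
theorem MaxPack.home [DecidableEq ι] (h : MaxPack B U F) (hr : Reg B U) {K : Finset (Finset V)}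
    (hK : SepF B K) (hKU : K.biUnion id = U \ F.biUnion B) {z : ι} (hz : z ∈ F)
    (hp : 5 ≤ pp B U F z) :
    ∃ C ∈ K, ∀ i, Pri B U F z i → B i ∩ (U \ F.biUnion B) ⊆ C := by
  classical
  set P := univ.filter (fun i => Pri B U F z i) with hP
  have hPc : P.card = pp B U F z := by
    unfold pp
    rw [hP]
  obtain ⟨i0, hi0⟩ : P.Nonempty := card_pos.1 (by omega)
  have hi0' := (mem_filter.1 hi0).2
  obtain ⟨v0, -, hv0, hv0z, hv0U⟩ := hi0'.point hz
  have h1 := pri_at_le (F := F) hr hv0U hv0z hz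
  obtain ⟨i1, hi1, hi1'⟩ : ∃ i1 ∈ P, v0 ∉ B i1 := by
    by_contra hcon
    push Not at hcon
    have : P.filter (fun i => v0 ∈ B i) = P := filter_true_of_mem hcon
    rw [← hP, this] at h1
    omega
  have hi1P := (mem_filter.1 hi1).2
  -- every private block has a nonempty trace
  have htr : ∀ i, Pri B U F z i → ∃ C ∈ K, B i ∩ (U \ F.biUnion B) ⊆ C := by
    intro i hi
    have h2 := hh_add_ww (B := B) U F i
    have h3 : 0 < (B i ∩ (U \ F.biUnion B)).card := by
      have h4 : (B i ∩ (U \ F.biUnion B)).card = ww B U F i := rfl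
      have h5 := hi.1.2.1
      have h6 := hi.1.2.2
      omega
    have h7 := card_pos.1 h3
    rw [← hKU] at h7 ⊢
    exact trace_part hK h7
  obtain ⟨C0, hC0, hsub0⟩ := htr i0 hi0'
  -- a private block meeting `j` in `W` has its trace in the same part
  have hsame : ∀ i j, Pri B U F z i → ∀ C ∈ K, B j ∩ (U \ F.biUnion B) ⊆ C →
      (∃ w, w ∈ B i ∧ w ∈ B j ∧ w ∈ U \ F.biUnion B) → B i ∩ (U \ F.biUnion B) ⊆ C := by
    rintro i j hi C hC hjC ⟨w, hwi, hwj, hw⟩
    obtain ⟨D, hD, hsubD⟩ := htr i hi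
    have h2 := hsubD (mem_inter.2 ⟨hwi, hw⟩)
    have h3 := hjC (mem_inter.2 ⟨hwj, hw⟩)
    rw [part_eq hK hC hD h3 h2]
    exact hsubD
  have hsub1 : B i1 ∩ (U \ F.biUnion B) ⊆ C0 := by
    refine hsame i1 i0 hi1P C0 hC0 hsub0 ?_
    obtain ⟨w, h2, h3, h4⟩ := h.pri_meet' hz hi0' hi1P hv0 hv0z hv0U hi1'
    exact ⟨w, h3, h2, h4⟩
  refine ⟨C0, hC0, fun i hi => ?_⟩
  by_cases hiv : v0 ∈ B i
  · refine hsame i i1 hi C0 hC0 hsub1 ?_
    exact h.pri_meet' hz hi hi1P hiv hv0z hv0U hi1'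
  · refine hsame i i0 hi C0 hC0 hsub0 ?_
    obtain ⟨w, h2, h3, h4⟩ := h.pri_meet' hz hi0' hi hv0 hv0z hv0U hiv
    exact ⟨w, h3, h2, h4⟩

/-- the incidences of a member with the other blocks. -/
theorem sum_inc_member [DecidableEq ι] (hr : Reg B U) {z : ι} (hz : (B z ∩ U).card = 5) :
    ∑ i ∈ univ.erase z, (B i ∩ (B z ∩ U)).card = 20 := by
  have h1 : ∑ i, (B i ∩ (B z ∩ U)).card = 5 * (B z ∩ U).card :=
    sum_inc (hr.mono inter_subset_right)
  rw [← sum_erase_add _ _ (mem_univ z), hz] at h1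
  have h2 : (B z ∩ (B z ∩ U)).card = 5 := by
    rw [inter_eq_right.2 inter_subset_left, hz]
  omega

open Classical in
/-- **the sparse lemma**: a block `b` meeting the member `z` but meeting no private block of `z` outside the
packing has few common neighbours with `z`. -/
theorem cmn_le [DecidableEq ι] (hF : Pack B U 5 F) (hr : Reg B U) {z b : ι} (hz : z ∈ F)
    (hbz : b ≠ z) (hnp : ¬ Pri B U F z b)
    (hno : ∀ i, Pri B U F z i → ∀ w, w ∈ B b → w ∈ B i → w ∈ U → w ∈ F.biUnion B) :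
    cmn B U z b + pp B U F z ≤ 2 * (trc B U z ∩ trc B U b).card + 20 := by
  set S := trc B U z ∩ trc B U b with hS
  set P := univ.filter (fun i => Pri B U F z i) with hP
  have hPc : P.card = pp B U F z := by
    unfold pp
    rw [hP]
  set J := (((trs B U 5).erase z).erase b).filter (fun j =>
    (trc B U j ∩ trc B U z).Nonempty ∧ (trc B U j ∩ trc B U b).Nonempty) with hJ
  have hJc : J.card = cmn B U z b := by
    unfold cmn
    rw [hJ]
  set J1 := J.filter (fun j => ∃ x ∈ S, x ∈ B j) with hJ1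
  set J2 := J.filter (fun j => ¬ ∃ x ∈ S, x ∈ B j) with hJ2
  have hJ12 : J1.card + J2.card = J.card := card_filter_add_card_filter_not _
  -- the blocks through the common points
  have h1 : J1.card ≤ 3 * S.card := by
    have hsub : J1 ⊆ S.biUnion (fun x => ((univ.filter (fun i => x ∈ B i)).erase z).erase b) := by
      intro j hj
      rw [hJ1, mem_filter] at hj
      obtain ⟨hjJ, x, hx, hxj⟩ := hj
      rw [hJ, mem_filter, mem_erase, mem_erase] at hjJ
      rw [mem_biUnion]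
      refine ⟨x, hx, ?_⟩
      rw [mem_erase, mem_erase, mem_filter]
      exact ⟨hjJ.1.1, hjJ.1.2.1, mem_univ _, hxj⟩
    have h2 := card_le_card hsub
    have h3 : (S.biUnion (fun x => ((univ.filter (fun i => x ∈ B i)).erase z).erase b)).card ≤
        ∑ x ∈ S, 3 := by
      refine card_biUnion_le.trans (sum_le_sum fun x hx => ?_)
      rw [hS, mem_inter] at hx
      have hxz := mem_inter.1 hx.1
      have hxb := mem_inter.1 hx.2
      have h4 := hr x hxz.2
      have h5 : z ∈ univ.filter (fun i => x ∈ B i) := mem_filter.2 ⟨mem_univ _, hxz.1⟩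
      have h6 : b ∈ (univ.filter (fun i => x ∈ B i)).erase z :=
        mem_erase.2 ⟨hbz, mem_filter.2 ⟨mem_univ _, hxb.1⟩⟩
      rw [card_erase_of_mem h6, card_erase_of_mem h5]
      omega
    rw [sum_const, smul_eq_mul] at h3
    omega
  -- the other ones
  have hdisj : Disjoint P J2 := by
    rw [Finset.disjoint_left]
    intro j hj hj2
    have hjP := (mem_filter.1 hj).2
    rw [hJ2, mem_filter, hJ, mem_filter] at hj2
    obtain ⟨⟨_, _, w, hw⟩, hno2⟩ := hj2
    rw [mem_inter] at hw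
    have hwj := mem_inter.1 hw.1
    have hwb := mem_inter.1 hw.2
    have h2 := hno j hjP w hwb.1 hwj.1 hwj.2
    obtain ⟨v, hv, hvj, hvz, hvU⟩ := hjP.point hz
    have h3 : w ∈ B j ∩ (F.biUnion B ∩ U) := mem_inter.2 ⟨hwj.1, mem_inter.2 ⟨h2, hwj.2⟩⟩
    rw [hv, mem_singleton] at h3
    refine hno2 ⟨w, ?_, hwj.1⟩
    rw [hS, mem_inter]
    exact ⟨mem_inter.2 ⟨h3 ▸ hvz, hwj.2⟩, hw.2⟩
  have h20 := sum_inc_member hr (hF.card z hz)
  have hbP : b ∉ P ∪ J2 := by
    rw [mem_union, not_or]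
    refine ⟨fun g => hnp (mem_filter.1 g).2, fun g => ?_⟩
    rw [hJ2, mem_filter, hJ, mem_filter, mem_erase] at g
    exact g.1.1.1 rfl
  have hsub : insert b (P ∪ J2) ⊆ univ.erase z := by
    intro i hi
    rw [mem_erase]
    refine ⟨?_, mem_univ _⟩
    rcases mem_insert.1 hi with rfl | hi
    · exact hbz
    rcases mem_union.1 hi with hi | hi
    · exact fun e => (mem_filter.1 hi).2.1.1 (e ▸ hz)
    · rw [hJ2, mem_filter, hJ, mem_filter, mem_erase, mem_erase] at hi
      exact hi.1.1.2.1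
  have hle : ∑ i ∈ insert b (P ∪ J2), (B i ∩ (B z ∩ U)).card ≤ 20 := by
    rw [← h20]
    exact sum_le_sum_of_subset hsub
  rw [sum_insert hbP, sum_union hdisj] at hle
  have h3 : P.card ≤ ∑ i ∈ P, (B i ∩ (B z ∩ U)).card := by
    rw [card_eq_sum_ones]
    refine sum_le_sum fun i hi => card_pos.2 ?_
    obtain ⟨v, -, hvi, hvz, hvU⟩ := ((mem_filter.1 hi).2).point hz
    exact ⟨v, mem_inter.2 ⟨hvi, mem_inter.2 ⟨hvz, hvU⟩⟩⟩
  have h4 : J2.card ≤ ∑ i ∈ J2, (B i ∩ (B z ∩ U)).card := by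
    rw [card_eq_sum_ones]
    refine sum_le_sum fun i hi => card_pos.2 ?_
    rw [hJ2, mem_filter, hJ, mem_filter] at hi
    obtain ⟨v, hv⟩ := hi.1.2.1
    rw [mem_inter] at hv
    exact ⟨v, mem_inter.2 ⟨(mem_inter.1 hv.1).1, hv.2⟩⟩
  have h5 : (B b ∩ (B z ∩ U)).card = S.card := by
    congr 1
    ext v
    rw [hS]
    unfold trc
    simp only [mem_inter]
    tauto
  omega

end

end Pool.Agent.Hyp6
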