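import Pool.Agent.Hyp6.L3Non

/-!
# HYP6 JC: joint closings

A connected set `W` is closed with new points `Y`. The new points stand for pairwise disjoint groups
`J y` of points outside `W`; the groups are distributed over cells (at most three groups in a cell), and
the new blocks are nested in every cell. If covering `W` together with a transversal of the groups of any
set `I` of cells costs at least `|I|` more than covering `W`, the induction hypothesis for the closed
system gives a lower bound for the second potential of `W`.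
-/

set_option autoImplicit false

namespace Pool.Agent.Hyp6

open Finset Pool.Agent.Hyp5

universe u v

variable {V : Type v} [DecidableEq V] {ι : Type u} [Fintype ι] {B : ι → Finset V}

/-- closing, general form: the induction hypothesis for a general abstract system. -/
theorem close_gen {κ : Type u} [Fintype κ] {Q W Y : Finset V} {E : V → Finset ι}
    {N : κ → Finset V} {n : ℕ} (h : AbsData B W Y E N) (ih : IHL.{u} V n)
    (hn : W.card + Y.card < n) (hr : Reg B Q) (hWQ : W ⊆ Q) (hW : Conn (gr B) W)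
    (hE : ∀ y ∈ Y, ∀ i ∈ E y, 2 ≤ (B i ∩ Q).card) (hK : ¬ KT (absG B W Y E N) (W ∪ Y))
    {r : ℕ} (hrho : rho B W + r ≤ rho (absG B W Y E N) (W ∪ Y))
    {Y2 : Finset V} (hY2 : Y2 ⊆ Y)
    (hN2 : ∀ y ∈ Y2, 2 ≤ (univ.filter (fun c => N c = {y})).card) :
    2 * (ee B Q W : ℤ) + 2 * (Y2.card : ℤ) + 22 * (r : ℤ) ≤
      Pp B W + 4 * (Y.card : ℤ) + 4 * (Fintype.card κ : ℤ) ∧
    24 * (r : ℤ) ≤ Pv B W + 5 * (Y.card : ℤ) + 4 * (Fintype.card κ : ℤ) + 1 := by
  have hc : (W ∪ Y).card = W.card + Y.card := card_union_of_disjoint h.dis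
  have ht3 : Tr3 (absG B W Y E N) (W ∪ Y) := fun k =>
    (card_le_card inter_subset_left).trans (h.small k)
  have hok := ih (ι ⊕ κ) (absG B W Y E N) (W ∪ Y) (by rw [hc]; exact hn) (h.reg (hr.mono hWQ))
    ht3 (h.conn hW) hK
  have hee := h.ee_ge hWQ hE hY2 hN2
  have h1 := hok.1
  have h2 := hok.2
  rw [Pp_eq, h.cm, hc] at h1
  rw [h.Pv_eq] at h2
  rw [Pp_eq]
  have h3 : (rho B W : ℤ) + r ≤ rho (absG B W Y E N) (W ∪ Y) := by exact_mod_cast hrho
  have h4 : (ee B Q W : ℤ) + Y2.card ≤ ee (absG B W Y E N) (W ∪ Y) (W ∪ Y) := by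
    exact_mod_cast hee
  push_cast at h1
  constructor <;> linarith

open Classical in
/-- the groups of a cell. -/
noncomputable def cellS {τ : Type u} (Y : Finset V) (c : V → τ) (t : τ) : Finset V :=
  Y.filter (fun y => c y = t)

omit [DecidableEq V] in
theorem mem_cellS {τ : Type u} {Y : Finset V} {c : V → τ} {t : τ} {y : V} :
    y ∈ cellS Y c t ↔ y ∈ Y ∧ c y = t := by
  simp only [cellS, mem_filter]

open Classical in
/-- the new blocks: nested in every cell. -/
noncomputable def cellN {τ : Type u} (Y : Finset V) (c : V → τ) (E : V → Finset ι) (m : τ → ℕ) :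
    (Σ t : τ, Fin (5 - m t)) → Finset V :=
  fun p => Y.filter (fun y => c y = p.1 ∧ (p.2 : ℕ) + (E y).card < 5)

omit [Fintype ι] [DecidableEq V] in
theorem mem_cellN {τ : Type u} {Y : Finset V} {c : V → τ} {E : V → Finset ι} {m : τ → ℕ}
    {p : Σ t : τ, Fin (5 - m t)} {y : V} :
    y ∈ cellN Y c E m p ↔ y ∈ Y ∧ c y = p.1 ∧ (p.2 : ℕ) + (E y).card < 5 := by
  simp only [cellN, mem_filter]

open Classical in
/-- the data of a joint closing. -/
structure Cells (B : ι → Finset V) (Q W Y : Finset V) (J : V → Finset V) (E : V → Finset ι)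
    {τ : Type u} (c : V → τ) (m : τ → ℕ) : Prop where
  WQ : W ⊆ Q
  dis : Disjoint W Y
  JQ : ∀ y ∈ Y, J y ⊆ Q \ W
  Jd : ∀ y ∈ Y, ∀ z ∈ Y, y ≠ z → Disjoint (J y) (J z)
  EJ : ∀ y ∈ Y, E y ⊆ cxs B W (J y)
  E5 : ∀ y ∈ Y, (E y).card ≤ 5
  Ene : ∀ y ∈ Y, (E y).Nonempty
  mle : ∀ y ∈ Y, m (c y) ≤ (E y).card
  mex : ∀ t, ∃ y ∈ Y, c y = t ∧ (E y).card = m t
  size : ∀ t, (cellS Y c t).card ≤ 3
  cost : ∀ (I : Finset τ) (f : V → V), (∀ y ∈ Y, c y ∈ I → f y ∈ J y) →
    rho B W + I.card ≤ rho B (W ∪ (Y.filter (fun y => c y ∈ I)).image f)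

section

variable {Q W Y : Finset V} {J : V → Finset V} {E : V → Finset ι} {τ : Type u} {c : V → τ}
  {m : τ → ℕ}

theorem Cells.abs [Fintype τ] (h : Cells B Q W Y J E c m) (h3 : Tr3 B Q) :
    AbsData B W Y E (cellN Y c E m) := by
  classical
  refine ⟨h.dis, ?_, h.Ene, ?_, ?_, ?_, ?_, ?_⟩
  · intro y hy i hi
    exact (mem_cxs.1 (h.EJ y hy hi)).1
  · intro p y hy
    exact (mem_cellN.1 hy).1
  · rintro ⟨t, j⟩
    obtain ⟨y, hy, hyt, hym⟩ := h.mex t
    refine ⟨y, mem_cellN.2 ⟨hy, hyt, ?_⟩⟩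
    have := j.2
    simp only
    omega
  · intro y hy
    have h5 := h.E5 y hy
    have hm := h.mle y hy
    have h1 : (univ.filter (fun p => y ∈ cellN Y c E m p)).card = 5 - (E y).card := by
      rw [← Finset.card_range (5 - (E y).card)]
      symm
      refine Finset.card_bij (fun (j : ℕ) hj => (⟨c y, ⟨j, ?_⟩⟩ : Σ t : τ, Fin (5 - m t))) ?_ ?_ ?_
      · rw [mem_range] at hj
        omega
      · intro j hj
        rw [mem_range] at hj
        rw [mem_filter]
        refine ⟨mem_univ _, mem_cellN.2 ⟨hy, rfl, ?_⟩⟩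
        simp only
        omega
      · intro j hj j' hj' he
        simpa using he
      · rintro ⟨t, j⟩ hp
        rw [mem_filter, mem_cellN] at hp
        obtain ⟨_, _, hct, hlt⟩ := hp
        simp only at hct hlt
        subst hct
        refine ⟨j, mem_range.2 (by omega), rfl⟩
    omega
  · intro i
    have h1 : (Y.filter (fun y => i ∈ E y)).card ≤ (B i ∩ (Q \ W)).card := by
      have hex : ∀ y ∈ Y.filter (fun y => i ∈ E y), ∃ p, p ∈ B i ∧ p ∈ J y := by
        intro y hy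
        rw [mem_filter] at hy
        obtain ⟨_, p, hp⟩ := mem_cxs.1 (h.EJ y hy.1 hy.2)
        rw [mem_inter] at hp
        exact ⟨p, hp⟩
      choose! g hg1 hg2 using hex
      refine Finset.card_le_card_of_injOn g ?_ ?_
      · intro y hy
        have hy' := mem_filter.1 hy
        exact mem_inter.2 ⟨hg1 y hy, h.JQ y hy'.1 (hg2 y hy)⟩
      · intro y hy z hz he
        by_contra hne
        exact disjoint_left.1 (h.Jd y (mem_filter.1 hy).1 z (mem_filter.1 hz).1 hne) (hg2 y hy)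
          (he ▸ hg2 z hz)
    have h2 : (B i ∩ W).card + (B i ∩ (Q \ W)).card ≤ 3 := by
      rw [← card_union_of_disjoint]
      · refine (card_le_card ?_).trans (h3 i)
        intro v hv
        rcases mem_union.1 hv with hv | hv
        · exact mem_inter.2 ⟨(mem_inter.1 hv).1, h.WQ (mem_inter.1 hv).2⟩
        · exact mem_inter.2 ⟨(mem_inter.1 hv).1, (mem_sdiff.1 (mem_inter.1 hv).2).1⟩
      · rw [disjoint_left]
        intro v hv hv'
        exact (mem_sdiff.1 (mem_inter.1 hv').2).2 (mem_inter.1 hv).2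
    convert (Nat.add_le_add_left h1 _).trans h2 using 3
  · rintro ⟨t, j⟩
    refine (card_le_card fun y hy => ?_).trans (h.size t)
    rw [mem_cellN] at hy
    exact mem_cellS.2 ⟨hy.1, hy.2.1⟩

/-- the cover number of the closed system. -/
theorem Cells.rho_ge [Fintype τ] (h : Cells B Q W Y J E c m) (hr : Reg B Q) (h3 : Tr3 B Q) :
    rho B W + Fintype.card τ ≤ rho (absG B W Y E (cellN Y c E m)) (W ∪ Y) := by
  classical
  have ha := h.abs h3
  refine ha.rho_ge (cov_of_reg (ha.reg (hr.mono h.WQ))) fun T K hT hK => ?_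
  set I : Finset τ := univ.filter (fun t => ∀ p ∈ K, p.1 ≠ t) with hI
  have h1 : Fintype.card τ ≤ I.card + K.card := by
    have h2 : (univ.filter (fun t : τ => ¬ ∀ p ∈ K, p.1 ≠ t)).card ≤ K.card := by
      refine (card_le_card ?_).trans (card_image_le (s := K) (f := fun p => p.1))
      intro t ht
      rw [mem_filter] at ht
      obtain ⟨_, ht⟩ := ht
      push Not at ht
      obtain ⟨p, hp, hpt⟩ := ht
      exact mem_image.2 ⟨p, hp, hpt⟩
    have h3 : I.card + (univ.filter (fun t : τ => ¬ ∀ p ∈ K, p.1 ≠ t)).card =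
        Fintype.card τ := by
      rw [hI, ← card_univ]
      exact Finset.card_filter_add_card_filter_not _
    omega
  have hex : ∀ y ∈ Y, c y ∈ I → ∃ q, q ∈ J y ∧ ∃ i ∈ T, q ∈ B i := by
    intro y hy hcy
    rcases hK y hy with ⟨i, hi, hiE⟩ | ⟨p, hp, hyp⟩
    · obtain ⟨_, q, hq⟩ := mem_cxs.1 (h.EJ y hy hiE)
      rw [mem_inter] at hq
      exact ⟨q, hq.2, i, hi, hq.1⟩
    · rw [mem_cellN] at hyp
      exact absurd hyp.2.1.symm ((mem_filter.1 hcy).2 p hp)
  by_cases hV : Nonempty V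
  · choose! f hf1 hf2 using hex
    have h4 := h.cost I f hf1
    have h5 : W ∪ (Y.filter (fun y => c y ∈ I)).image f ⊆ T.biUnion B := by
      intro v hv
      rcases mem_union.1 hv with hv | hv
      · exact hT hv
      · obtain ⟨y, hy, rfl⟩ := mem_image.1 hv
        rw [mem_filter] at hy
        obtain ⟨i, hi, hvi⟩ := hf2 y hy.1 hy.2
        exact mem_biUnion.2 ⟨i, hi, hvi⟩
    have h6 := rho_le h5
    omega
  · have h4 := h.cost I id (fun y _ _ => absurd ⟨y⟩ hV)
    have h5 : W ∪ (Y.filter (fun y => c y ∈ I)).image id ⊆ T.biUnion B :=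
      fun v _ => absurd ⟨v⟩ hV
    have h6 := rho_le h5
    omega

/-- a block with a trace in a new point meets `Q` in at least two points. -/
theorem Cells.two_le (h : Cells B Q W Y J E c m) {y : V} (hy : y ∈ Y) {i : ι} (hi : i ∈ E y) :
    2 ≤ (B i ∩ Q).card := by
  obtain ⟨⟨a, ha⟩, b, hb⟩ := mem_cxs.1 (h.EJ y hy hi)
  rw [mem_inter] at ha hb
  have hbQ := mem_sdiff.1 (h.JQ y hy hb.2)
  have h1 : ({a, b} : Finset V) ⊆ B i ∩ Q := by
    intro v hv
    simp only [mem_insert, mem_singleton] at hv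
    rcases hv with rfl | rfl
    · exact mem_inter.2 ⟨ha.1, h.WQ ha.2⟩
    · exact mem_inter.2 ⟨hb.1, hbQ.1⟩
  rw [← card_pair (a := a) (b := b)]
  · exact card_le_card h1
  · rintro rfl
    exact hbQ.2 ha.2

/-- two new blocks which only contain `y`. -/
theorem Cells.two_single [Fintype τ] (h : Cells B Q W Y J E c m) {y : V} (hy : y ∈ Y)
    (h3 : (E y).card ≤ 3)
    (hoth : ∀ z ∈ Y, c z = c y → z ≠ y → (E y).card + 2 ≤ (E z).card) :
    2 ≤ (univ.filter (fun p => cellN Y c E m p = {y})).card := by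
  classical
  have hm := h.mle y hy
  have key : ∀ j : ℕ, ∀ hj : j < 5 - m (c y), 3 - (E y).card ≤ j → j < 5 - (E y).card →
      cellN Y c E m ⟨c y, ⟨j, hj⟩⟩ = {y} := by
    intro j hj h1 h2
    ext z
    rw [mem_cellN, mem_singleton]
    constructor
    · rintro ⟨hz, hcz, hlt⟩
      by_contra hne
      have := hoth z hz hcz hne
      simp only at hlt
      omega
    · rintro rfl
      refine ⟨hy, rfl, ?_⟩
      simp only
      omega
  have hlt3 : 3 - (E y).card < 5 - m (c y) := by omega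
  have hlt4 : 4 - (E y).card < 5 - m (c y) := by omega
  have k1 := key (3 - (E y).card) hlt3 le_rfl (by omega)
  have k2 := key (4 - (E y).card) hlt4 (by omega) (by omega)
  have hne : (⟨c y, ⟨3 - (E y).card, hlt3⟩⟩ : Σ t : τ, Fin (5 - m t)) ≠
      ⟨c y, ⟨4 - (E y).card, hlt4⟩⟩ := by
    intro he
    simp at he
    omega
  rw [← card_pair hne]
  refine card_le_card fun p hp => ?_
  rw [mem_insert, mem_singleton] at hp
  rw [mem_filter]
  rcases hp with rfl | rfl
  · exact ⟨mem_univ _, k1⟩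
  · exact ⟨mem_univ _, k2⟩

/-- a closed system with a small cell is not exceptional. -/
theorem Cells.not_KT [Fintype τ] (h : Cells B Q W Y J E c m) (hr : Reg B Q) (h3 : Tr3 B Q)
    {t : τ} (ht : (cellS Y c t).card ≤ 2) (hm : m t ≤ 4) :
    ¬ KT (absG B W Y E (cellN Y c E m)) (W ∪ Y) := by
  classical
  intro hK
  have ha := h.abs h3
  have ht3 : Tr3 (absG B W Y E (cellN Y c E m)) (W ∪ Y) := fun k =>
    (card_le_card inter_subset_left).trans (ha.small k)
  set p : Σ t : τ, Fin (5 - m t) := ⟨t, ⟨0, by omega⟩⟩ with hp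
  have hne : (absG B W Y E (cellN Y c E m) (Sum.inr p) ∩ (W ∪ Y)).Nonempty := by
    rw [ha.inter_self]
    obtain ⟨y, hy⟩ := ha.neN p
    exact ⟨y, mem_absG_inr.2 hy⟩
  have h1 := hK.trace (ha.reg (hr.mono h.WQ)) ht3 hne
  rw [ha.inter_self] at h1
  have h2 : absG B W Y E (cellN Y c E m) (Sum.inr p) ⊆ cellS Y c t := by
    intro y hy
    rw [mem_absG_inr, mem_cellN] at hy
    exact mem_cellS.2 ⟨hy.1, hy.2.1⟩
  have := card_le_card h2
  omega

omit [DecidableEq V] in
theorem card_cells [Fintype τ] :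
    (Y.card : ℤ) = ∑ t : τ, ((cellS Y c t).card : ℤ) := by
  classical
  have h1 := Finset.card_eq_sum_card_fiberwise (s := Y) (t := (univ : Finset τ)) (f := c)
    (fun _ _ => by simp)
  rw [h1]
  push_cast
  refine sum_congr rfl fun t _ => ?_
  unfold cellS
  congr 3

/-- **joint closing.** -/
theorem Cells.main [Fintype τ] (h : Cells B Q W Y J E c m) {n : ℕ}
    (ih : IHL.{u} V n) (hn : W.card + Y.card < n) (hr : Reg B Q) (h3 : Tr3 B Q)
    (hW : Conn (gr B) W) (hK : ¬ KT (absG B W Y E (cellN Y c E m)) (W ∪ Y))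
    {Y2 : Finset V} (hY2 : Y2 ⊆ Y) (h4 : ∀ y ∈ Y2, (E y).card ≤ 3)
    (hoth : ∀ y ∈ Y2, ∀ z ∈ Y, c z = c y → z ≠ y → (E y).card + 2 ≤ (E z).card) :
    2 * (ee B Q W : ℤ) + 2 * (Y2.card : ℤ) +
        ∑ t : τ, (4 * (m t : ℤ) + 2 - 4 * ((cellS Y c t).card : ℤ)) ≤ Pp B W ∧
    ∑ t : τ, (4 * (m t : ℤ) + 4 - 5 * ((cellS Y c t).card : ℤ)) ≤
      Pv B W + 1 := by
  have hmle : ∀ t, m t ≤ 5 := by
    intro t
    obtain ⟨y, hy, _, hym⟩ := h.mex t
    rw [← hym]
    exact h.E5 y hy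
  have h5 := close_gen (h.abs h3) ih hn hr h.WQ hW (fun y hy i hi => h.two_le hy hi) hK
    (h.rho_ge hr h3) hY2 (fun y hy => h.two_single (hY2 hy) (h4 y hy) (hoth y hy))
  have h6 : (Fintype.card (Σ t : τ, Fin (5 - m t)) : ℤ) = ∑ t : τ, (5 - (m t : ℤ)) := by
    rw [Fintype.card_sigma]
    push_cast
    refine sum_congr rfl fun t _ => ?_
    rw [Fintype.card_fin]
    have := hmle t
    omega
  have h7 : (Fintype.card τ : ℤ) = ∑ _t : τ, (1 : ℤ) := by simp
  rw [h6, h7, card_cells (Y := Y) (c := c)] at h5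
  have h8 : ∑ t : τ, (4 * (m t : ℤ) + 2 - 4 * ((cellS Y c t).card : ℤ)) =
      22 * ∑ _t : τ, (1 : ℤ) - 4 * ∑ t : τ, ((cellS Y c t).card : ℤ) -
        4 * ∑ t : τ, (5 - (m t : ℤ)) := by
    rw [mul_sum, mul_sum, mul_sum, ← sum_sub_distrib, ← sum_sub_distrib]
    refine sum_congr rfl fun t _ => ?_
    ring
  have h9 : ∑ t : τ, (4 * (m t : ℤ) + 4 - 5 * ((cellS Y c t).card : ℤ)) =
      24 * ∑ _t : τ, (1 : ℤ) - 5 * ∑ t : τ, ((cellS Y c t).card : ℤ) -
        4 * ∑ t : τ, (5 - (m t : ℤ)) := by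
    rw [mul_sum, mul_sum, mul_sum, ← sum_sub_distrib, ← sum_sub_distrib]
    refine sum_congr rfl fun t _ => ?_
    ring
  rw [h8, h9]
  constructor
  · linarith [h5.1]
  · linarith [h5.2]

end

end Pool.Agent.Hyp6
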