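import Pool.Agent.Hyp6.JC

/-!
# HYP6 JC2: joint closings of pairs of groups, closings of single groups
-/

set_option autoImplicit false

namespace Pool.Agent.Hyp6

open Finset Pool.Agent.Hyp5

universe u v

variable {V : Type v} [DecidableEq V] {ι : Type u} [Fintype ι] {B : ι → Finset V}

/-- the data of a joint closing of pairs of groups: the group `J2 t` has at most as many blocks as the
group `J1 t`, and a transversal of the groups of `I` costs at least `|I|`. -/
structure PairCl (B : ι → Finset V) (Q W : Finset V) {τ : Type u} (J1 J2 : τ → Finset V)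
    (E1 E2 : τ → Finset ι) : Prop where
  WQ : W ⊆ Q
  J1Q : ∀ t, J1 t ⊆ Q \ W
  J2Q : ∀ t, J2 t ⊆ Q \ W
  J12 : ∀ t, Disjoint (J1 t) (J2 t)
  Jd : ∀ s t, s ≠ t → Disjoint (J1 s ∪ J2 s) (J1 t ∪ J2 t)
  E1J : ∀ t, E1 t ⊆ cxs B W (J1 t)
  E2J : ∀ t, E2 t ⊆ cxs B W (J2 t)
  E2ne : ∀ t, (E2 t).Nonempty
  le : ∀ t, (E2 t).card ≤ (E1 t).card
  le4 : ∀ t, (E2 t).card ≤ 4
  le5 : ∀ t, (E1 t).card ≤ 5
  cost : ∀ (I : Finset τ) (f g : τ → V), (∀ t ∈ I, f t ∈ J1 t ∧ g t ∈ J2 t) →
    rho B W + I.card ≤ rho B (W ∪ (I.image f ∪ I.image g))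

open Classical in
/-- **joint closing of pairs of groups.** -/
theorem PairCl.main {Q W : Finset V} {τ : Type u} [Fintype τ] {J1 J2 : τ → Finset V}
    {E1 E2 : τ → Finset ι} (h : PairCl B Q W J1 J2 E1 E2) {n : ℕ} (ih : IHL.{u} V n)
    (hn : W.card + 2 * Fintype.card τ < n) (hr : Reg B Q) (h3 : Tr3 B Q) (hW : Conn (gr B) W)
    (hKW : ¬ KT B W) :
    2 * (ee B Q W : ℤ) + ∑ t : τ, (4 * ((E2 t).card : ℤ) - 6 +
        if (E2 t).card + 2 ≤ (E1 t).card then 2 else 0) ≤ Pp B W ∧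
    ∑ t : τ, (4 * ((E2 t).card : ℤ) - 6) ≤ Pv B W + 1 := by
  rcases isEmpty_or_nonempty τ with hτ | hτ
  · have h0 : Fintype.card τ = 0 := Fintype.card_eq_zero
    have h1 := ih ι B W (by omega) (hr.mono h.WQ) (h3.mono h.WQ) hW hKW
    have h2 : ee B Q W ≤ ee B W W := ee_le_ee (Subset.refl _) h.WQ
    have h2' : (ee B Q W : ℤ) ≤ ee B W W := by exact_mod_cast h2
    rw [univ_eq_empty, sum_empty, sum_empty]
    constructor
    · linarith [h1.1]
    · linarith [h1.2]
  -- representatives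
  have hx : ∀ t, ∃ v, v ∈ J1 t := by
    intro t
    have h1 : 0 < (E1 t).card := lt_of_lt_of_le (card_pos.2 (h.E2ne t)) (h.le t)
    obtain ⟨i, hi⟩ := card_pos.1 h1
    obtain ⟨_, v, hv⟩ := mem_cxs.1 (h.E1J t hi)
    exact ⟨v, (mem_inter.1 hv).2⟩
  have hy : ∀ t, ∃ v, v ∈ J2 t := by
    intro t
    obtain ⟨i, hi⟩ := h.E2ne t
    obtain ⟨_, v, hv⟩ := mem_cxs.1 (h.E2J t hi)
    exact ⟨v, (mem_inter.1 hv).2⟩
  choose x hx using hx
  choose y hy using hy
  have huni : ∀ s t v, v ∈ J1 s ∪ J2 s → v ∈ J1 t ∪ J2 t → s = t := by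
    intro s t v h1 h2
    by_contra hne
    exact disjoint_left.1 (h.Jd s t hne) h1 h2
  obtain ⟨c, hc⟩ : ∃ c : V → τ, ∀ t v, v ∈ J1 t ∪ J2 t → c v = t := by
    refine ⟨fun v => if hv : ∃ t, v ∈ J1 t ∪ J2 t then hv.choose else hτ.some, fun t v hv => ?_⟩
    have hex : ∃ t, v ∈ J1 t ∪ J2 t := ⟨t, hv⟩
    simp only [hex, dif_pos]
    exact huni _ _ v hex.choose_spec hv
  have hcx : ∀ t, c (x t) = t := fun t => hc t _ (mem_union_left _ (hx t))
  have hcy : ∀ t, c (y t) = t := fun t => hc t _ (mem_union_right _ (hy t))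
  have hyn : ∀ t, y t ∉ J1 t := fun t h1 => disjoint_left.1 (h.J12 t) h1 (hy t)
  have hxy : ∀ t, x t ≠ y t := fun t he => hyn t (he ▸ hx t)
  set Y : Finset V := univ.image x ∪ univ.image y with hYdef
  set J : V → Finset V := fun v => if v ∈ J1 (c v) then J1 (c v) else J2 (c v) with hJdef
  set E : V → Finset ι := fun v => if v ∈ J1 (c v) then E1 (c v) else E2 (c v) with hEdef
  have hJx : ∀ t, J (x t) = J1 t := by
    intro t
    simp only [hJdef, hcx, hx, if_true]
  have hJy : ∀ t, J (y t) = J2 t := by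
    intro t
    simp only [hJdef, hcy, hyn, if_false]
  have hEx : ∀ t, E (x t) = E1 t := by
    intro t
    simp only [hEdef, hcx, hx, if_true]
  have hEy : ∀ t, E (y t) = E2 t := by
    intro t
    simp only [hEdef, hcy, hyn, if_false]
  have hYm : ∀ v, v ∈ Y ↔ (∃ t, x t = v) ∨ ∃ t, y t = v := by
    intro v
    simp only [hYdef, mem_union, mem_image, mem_univ, true_and]
  have hS : ∀ t, cellS Y c t = {x t, y t} := by
    intro t
    ext v
    rw [mem_cellS, hYm, mem_insert, mem_singleton]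
    constructor
    · rintro ⟨⟨s, rfl⟩ | ⟨s, rfl⟩, hs⟩
      · rw [hcx] at hs
        exact Or.inl (hs ▸ rfl)
      · rw [hcy] at hs
        exact Or.inr (hs ▸ rfl)
    · rintro (rfl | rfl)
      · exact ⟨Or.inl ⟨t, rfl⟩, hcx t⟩
      · exact ⟨Or.inr ⟨t, rfl⟩, hcy t⟩
  have hSc : ∀ t, (cellS Y c t).card = 2 := fun t => by rw [hS, card_pair (hxy t)]
  have hxW : ∀ t, x t ∉ W := fun t => (mem_sdiff.1 (h.J1Q t (hx t))).2
  have hyW : ∀ t, y t ∉ W := fun t => (mem_sdiff.1 (h.J2Q t (hy t))).2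
  have hcells : Cells B Q W Y J E c (fun t => (E2 t).card) := by
    refine ⟨h.WQ, ?_, ?_, ?_, ?_, ?_, ?_, ?_, ?_, ?_, ?_⟩
    · rw [disjoint_left]
      intro v hv hvY
      rcases (hYm v).1 hvY with ⟨t, rfl⟩ | ⟨t, rfl⟩
      · exact hxW t hv
      · exact hyW t hv
    · intro v hv
      rcases (hYm v).1 hv with ⟨t, rfl⟩ | ⟨t, rfl⟩
      · rw [hJx]; exact h.J1Q t
      · rw [hJy]; exact h.J2Q t
    · intro v hv w hw hne
      rcases (hYm v).1 hv with ⟨t, rfl⟩ | ⟨t, rfl⟩ <;> rcases (hYm w).1 hw with ⟨s, rfl⟩ | ⟨s, rfl⟩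
      · rw [hJx, hJx]
        have hts : t ≠ s := fun he => hne (by rw [he])
        exact disjoint_of_subset_left subset_union_left
          (disjoint_of_subset_right subset_union_left (h.Jd t s hts))
      · rw [hJx, hJy]
        by_cases hts : t = s
        · rw [hts]; exact h.J12 s
        · exact disjoint_of_subset_left subset_union_left
            (disjoint_of_subset_right subset_union_right (h.Jd t s hts))
      · rw [hJy, hJx]
        by_cases hts : t = s
        · rw [hts]; exact (h.J12 s).symm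
        · exact disjoint_of_subset_left subset_union_right
            (disjoint_of_subset_right subset_union_left (h.Jd t s hts))
      · rw [hJy, hJy]
        have hts : t ≠ s := fun he => hne (by rw [he])
        exact disjoint_of_subset_left subset_union_right
          (disjoint_of_subset_right subset_union_right (h.Jd t s hts))
    · intro v hv
      rcases (hYm v).1 hv with ⟨t, rfl⟩ | ⟨t, rfl⟩
      · rw [hJx, hEx]; exact h.E1J t
      · rw [hJy, hEy]; exact h.E2J t
    · intro v hv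
      rcases (hYm v).1 hv with ⟨t, rfl⟩ | ⟨t, rfl⟩
      · rw [hEx]; exact h.le5 t
      · rw [hEy]; exact (h.le4 t).trans (by norm_num)
    · intro v hv
      rcases (hYm v).1 hv with ⟨t, rfl⟩ | ⟨t, rfl⟩
      · rw [hEx]
        exact card_pos.1 (lt_of_lt_of_le (card_pos.2 (h.E2ne t)) (h.le t))
      · rw [hEy]; exact h.E2ne t
    · intro v hv
      rcases (hYm v).1 hv with ⟨t, rfl⟩ | ⟨t, rfl⟩
      · rw [hEx, hcx]; exact h.le t
      · rw [hEy, hcy]
    · intro t
      exact ⟨y t, (hYm _).2 (Or.inr ⟨t, rfl⟩), hcy t, by rw [hEy]⟩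
    · intro t
      rw [hSc]
      norm_num
    · intro I f hf
      have hf1 : ∀ t ∈ I, f (x t) ∈ J1 t := by
        intro t ht
        have := hf (x t) ((hYm _).2 (Or.inl ⟨t, rfl⟩)) (by rw [hcx]; exact ht)
        rwa [hJx] at this
      have hf2 : ∀ t ∈ I, f (y t) ∈ J2 t := by
        intro t ht
        have := hf (y t) ((hYm _).2 (Or.inr ⟨t, rfl⟩)) (by rw [hcy]; exact ht)
        rwa [hJy] at this
      have h5 := h.cost I (fun t => f (x t)) (fun t => f (y t)) fun t ht => ⟨hf1 t ht, hf2 t ht⟩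
      have h6 : (Y.filter (fun v => c v ∈ I)).image f =
          I.image (fun t => f (x t)) ∪ I.image (fun t => f (y t)) := by
        ext v
        simp only [mem_image, mem_filter, mem_union]
        constructor
        · rintro ⟨w, ⟨hw, hcw⟩, rfl⟩
          rcases (hYm w).1 hw with ⟨t, rfl⟩ | ⟨t, rfl⟩
          · rw [hcx] at hcw
            exact Or.inl ⟨t, hcw, rfl⟩
          · rw [hcy] at hcw
            exact Or.inr ⟨t, hcw, rfl⟩
        · rintro (⟨t, ht, rfl⟩ | ⟨t, ht, rfl⟩)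
          · exact ⟨x t, ⟨(hYm _).2 (Or.inl ⟨t, rfl⟩), by rw [hcx]; exact ht⟩, rfl⟩
          · exact ⟨y t, ⟨(hYm _).2 (Or.inr ⟨t, rfl⟩), by rw [hcy]; exact ht⟩, rfl⟩
      rw [h6]
      exact h5
  have hYc : Y.card = 2 * Fintype.card τ := by
    have h5 := card_cells (Y := Y) (c := c)
    simp only [hSc] at h5
    rw [sum_const, card_univ, nsmul_eq_mul] at h5
    have h6 : (Y.card : ℤ) = ((2 * Fintype.card τ : ℕ) : ℤ) := by
      rw [h5]
      push_cast
      ring
    exact_mod_cast h6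
  have hNK := hcells.not_KT hr h3 (t := hτ.some) (by rw [hSc]) (h.le4 _)
  set T2 : Finset τ := univ.filter (fun t => (E2 t).card + 2 ≤ (E1 t).card) with hT2
  have hyinj : Function.Injective y := by
    intro s t he
    have := hcy s
    rw [he, hcy] at this
    exact this.symm
  have hmain := hcells.main ih (by rw [hYc]; exact hn) hr h3 hW hNK (Y2 := T2.image y) ?_ ?_ ?_
  · rw [card_image_of_injective _ hyinj] at hmain
    simp only [hSc] at hmain
    have h7 : (T2.card : ℤ) * 2 = ∑ t : τ, (if (E2 t).card + 2 ≤ (E1 t).card then (2 : ℤ) else 0) := by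
      rw [← sum_filter, sum_const, nsmul_eq_mul]
    have h8 : ∑ t : τ, (4 * ((E2 t).card : ℤ) - 6 +
        if (E2 t).card + 2 ≤ (E1 t).card then 2 else 0) =
        ∑ t : τ, (4 * ((E2 t).card : ℤ) + 2 - 4 * ((2 : ℕ) : ℤ)) + (T2.card : ℤ) * 2 := by
      rw [h7, ← sum_add_distrib]
      refine sum_congr rfl fun t _ => ?_
      push_cast
      ring
    have h9 : ∑ t : τ, (4 * ((E2 t).card : ℤ) - 6) =
        ∑ t : τ, (4 * ((E2 t).card : ℤ) + 4 - 5 * ((2 : ℕ) : ℤ)) := by
      refine sum_congr rfl fun t _ => ?_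
      push_cast
      ring
    rw [h8, h9]
    constructor
    · linarith [hmain.1]
    · exact hmain.2
  · intro v hv
    obtain ⟨t, _, rfl⟩ := mem_image.1 hv
    exact (hYm _).2 (Or.inr ⟨t, rfl⟩)
  · intro v hv
    obtain ⟨t, ht, rfl⟩ := mem_image.1 hv
    have h5 := (mem_filter.1 ht).2
    have h6 := h.le5 t
    rw [hEy]
    omega
  · intro v hv w hw hcw hne
    obtain ⟨t, ht, rfl⟩ := mem_image.1 hv
    have h5 := (mem_filter.1 ht).2
    rw [hcy] at hcw
    have h6 : w ∈ cellS Y c t := mem_cellS.2 ⟨hw, hcw⟩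
    rw [hS, mem_insert, mem_singleton] at h6
    rcases h6 with rfl | rfl
    · rw [hEx, hEy]; exact h5
    · exact absurd rfl hne

end Pool.Agent.Hyp6
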