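import Pool.Agent.Hyp6.L3E
import Pool.Agent.Hyp6.QTpp

/-!
# HYP6 L3P: parity modulo four, and the frame for the clause `0 <= Pv` for `1 <= sv`
-/

set_option autoImplicit false

namespace Pool.Agent.Hyp6

open Finset Pool.Agent.Hyp5

universe u v

variable {V : Type v} [DecidableEq V]

/-- the second potential modulo four is twice the cover number. -/
theorem Pp_mod4 {ι : Type u} [Fintype ι] {B : ι → Finset V} (W : Finset V) :
    Pp B W % 4 = (2 * (rho B W : ℤ)) % 4 := by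
  rw [Pp_eq]
  omega

/-- the induction hypothesis with parity: if the lower bound `2 e` is not in the right class modulo
four, it is improved by two. -/
theorem ihe_Pp4 {n : ℕ} (h : IHE.{u} V n) {κ : Type u} [Fintype κ] {B : κ → Finset V}
    {Q : Finset V} (hn : Q.card < n) (hr : Reg B Q) (h3 : Tr3 B Q) (hQ : Conn (gr B) Q)
    (hK : ¬ KT B Q) (hs : sv B Q ≤ 0) :
    2 * (ee B Q Q : ℤ) + 2 * (((ee B Q Q : ℤ) + rho B Q) % 2) ≤ Pp B Q := by
  have h1 := h.Pp hn hr h3 hQ hK hs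
  have h2 := Pp_mod4 (B := B) Q
  omega

/-- a point which is not critical: the potential is nonnegative. -/
theorem Pv_nonneg_of_noncrit {κ : Type u} [Fintype κ] {B : κ → Finset V} {Q : Finset V}
    (ih : IHE.{u} V Q.card) (hr : Reg B Q) (h3 : Tr3 B Q) (hQ : Conn (gr B) Q)
    (hcr : ¬ Crit B Q) : 2 * (ee B Q Q : ℤ) ≤ Pv B Q := by
  classical
  unfold Crit at hcr
  push Not at hcr
  obtain ⟨x, hx, hxr⟩ := hcr
  have hcov : Cov B Q := cov_of_reg hr
  have hrho : rho B (Q.erase x) = rho B Q := by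
    have h1 := rho_le_erase (x := x) hcov
    have h2 := rho_erase_le (x := x) hcov
    omega
  obtain ⟨K, hK1, hK2, hK3⟩ := exists_parts B (Q.erase x)
  have hcard := card_comps_le hr hx hQ hK1 hK2
  have hxs : ({x} : Finset V) ⊆ Q := singleton_subset_iff.2 hx
  have hKQ : ∀ C ∈ K, C ⊆ Q := fun C hC => (hK1 C hC).1.trans (erase_subset _ _)
  have hKcov : ∀ C ∈ K, Cov B C := fun C hC => hcov.mono (hKQ C hC)
  have hval : ∀ C ∈ K, -1 ≤ dv B Q C := by
    intro C hC
    have hne : C ≠ Q := by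
      rintro rfl
      exact (mem_erase.1 ((hK1 _ hC).1 hx)).1 rfl
    have h1 := ih κ B C (card_lt_card (lt_of_le_of_ne (hKQ C hC) hne)) (hr.mono (hKQ C hC))
      (h3.mono (hKQ C hC)) (hK1 C hC).2.2 (not_KT_of_ssubset hQ hr h3 (hKQ C hC) hne)
    have h2 : (ee B Q C : ℤ) ≤ ee B C C := by
      exact_mod_cast ee_le_ee (Subset.refl _) (hKQ C hC)
    unfold dv
    linarith
  have he : Q \ {x} = K.biUnion id := by rw [hK3, sdiff_singleton_eq_erase]
  have h2 := Pv_sdiff (B := B) hxs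
  rw [he, Pv_biUnion hKcov hK2, card_singleton] at h2
  have hr' : rho B (K.biUnion id) = rho B Q := by rw [hK3, hrho]
  rw [hr'] at h2
  have hee : ee B Q Q = ∑ C ∈ K, ee B Q C + ee B Q {x} := by
    rw [← ee_biUnion hK2, ← he, ← ee_union sdiff_disjoint, sdiff_union_of_subset hxs]
  have h5 := two_ee_le' (B := B) Q {x}
  have h6 : ∑ C ∈ K, (-1 : ℤ) ≤ ∑ C ∈ K, dv B Q C := sum_le_sum fun C hC => hval C hC
  rw [sum_const, nsmul_eq_mul] at h6
  have h7 : ∑ C ∈ K, dv B Q C = ∑ C ∈ K, Pv B C - 2 * ∑ C ∈ K, (ee B Q C : ℤ) := by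
    unfold dv
    rw [sum_sub_distrib, ← mul_sum]
  have c1 : (ee B Q Q : ℤ) = ∑ C ∈ K, (ee B Q C : ℤ) + ee B Q {x} := by
    rw [hee]
    push_cast
    ring
  have c2 : (K.card : ℤ) + (ins B Q {x}).card ≤ 5 := by exact_mod_cast hcard
  have c3 : 2 * (ee B Q {x} : ℤ) ≤ (ins B Q {x}).card := by exact_mod_cast h5
  have c4 : (0 : ℤ) ≤ (ins B Q {x}).card := by positivity
  push_cast at h2
  linarith

/-- the frame for the extra clause: only critical sets with value at least one are left. -/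
theorem L3p_of_crit (hL : L3e.{u} V)
    (hpos : ∀ (κ : Type u) [Fintype κ] (B : κ → Finset V) (Q : Finset V), IHE.{u} V Q.card →
      Reg B Q → Tr3 B Q → Conn (gr B) Q → Crit B Q → 1 ≤ sv B Q → ¬ KT B Q →
      0 ≤ Pv B Q) : L3p.{u} V := by
  intro κ _ B Q hr h3 hQ hK hs
  have ih : IHE.{u} V Q.card := fun κ' _ B' Q' _ hr' h3' hQ' hK' => hL κ' B' Q' hr' h3' hQ' hK'
  by_cases hcr : Crit B Q
  · exact hpos κ B Q ih hr h3 hQ hcr hs hK
  · have h1 := Pv_nonneg_of_noncrit ih hr h3 hQ hcr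
    have h2 : (0 : ℤ) ≤ ee B Q Q := by positivity
    linarith

end Pool.Agent.Hyp6
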