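import Pool.Agent.Hyp6.JC2
import Pool.Agent.Hyp6.L3P

/-!
# HYP6 JCE: joint closings with the induction hypothesis in value form

`IHE`: `-1 + 2 e <= Pv`; `IHQ`: `0 <= Pv` for sets with value at least one. The closed set gives three
bounds: for the potential `Pv`, for `Pp` with parity (value of the closed set at most zero), and for `Pv`
without the defect one (value of the closed set at least zero).
-/

set_option autoImplicit false

namespace Pool.Agent.Hyp6

open Finset Pool.Agent.Hyp5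

universe u v

/-- the second clause of the induction hypothesis of the level-3 theorem. -/
def IHQ (V : Type v) [DecidableEq V] (n : ℕ) : Prop :=
  ∀ (κ : Type u) [Fintype κ] (B : κ → Finset V) (Q : Finset V), Q.card < n → Reg B Q → Tr3 B Q →
    Conn (gr B) Q → ¬ KT B Q → 1 ≤ sv B Q → 0 ≤ Pv B Q

variable {V : Type v} [DecidableEq V] {ι : Type u} [Fintype ι] {B : ι → Finset V}

theorem IHQ.mono {m n : ℕ} (h : IHQ.{u} V n) (hmn : m ≤ n) : IHQ.{u} V m :=
  fun κ _ B Q hQ => h κ B Q (lt_of_lt_of_le hQ hmn)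

/-- closing, general form, value form of the induction hypothesis. -/
theorem close_genE {κ : Type u} [Fintype κ] {Q W Y : Finset V} {E : V → Finset ι}
    {N : κ → Finset V} {n : ℕ} (h : AbsData B W Y E N) (ih : IHE.{u} V n)
    (hn : W.card + Y.card < n) (hr : Reg B Q) (hWQ : W ⊆ Q) (hW : Conn (gr B) W)
    (hE : ∀ y ∈ Y, ∀ i ∈ E y, 2 ≤ (B i ∩ Q).card) (hK : ¬ KT (absG B W Y E N) (W ∪ Y))
    {r : ℕ} (hrho : rho B W + r ≤ rho (absG B W Y E N) (W ∪ Y))
    {Y2 : Finset V} (hY2 : Y2 ⊆ Y)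
    (hN2 : ∀ y ∈ Y2, 2 ≤ (univ.filter (fun c => N c = {y})).card) :
    (2 * (ee B Q W : ℤ) + 2 * (Y2.card : ℤ) + 24 * (r : ℤ) ≤
      Pv B W + 5 * (Y.card : ℤ) + 4 * (Fintype.card κ : ℤ) + 1) ∧
    (sv B W + Y.card ≤ 2 * r →
      2 * (ee B Q W : ℤ) + 2 * (Y2.card : ℤ) + 22 * (r : ℤ) +
        2 * (((ee B Q W : ℤ) + Y2.card + rho B W + r) % 2) ≤
      Pp B W + 4 * (Y.card : ℤ) + 4 * (Fintype.card κ : ℤ)) ∧
    (IHQ.{u} V n → 2 * r ≤ sv B W + Y.card →
      24 * (r : ℤ) ≤ Pv B W + 5 * (Y.card : ℤ) + 4 * (Fintype.card κ : ℤ)) := by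
  have hc : (W ∪ Y).card = W.card + Y.card := card_union_of_disjoint h.dis
  have hc' : ((W ∪ Y).card : ℤ) = W.card + Y.card := by exact_mod_cast hc
  have ht3 : Tr3 (absG B W Y E N) (W ∪ Y) := fun k =>
    (card_le_card inter_subset_left).trans (h.small k)
  have hlt : (W ∪ Y).card < n := by rw [hc]; exact hn
  have hr' := h.reg (hr.mono hWQ)
  have hcn := h.conn hW
  have hok := ih (ι ⊕ κ) (absG B W Y E N) (W ∪ Y) hlt hr' ht3 hcn hK
  have hee := h.ee_ge hWQ hE hY2 hN2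
  have h2 := h.Pv_eq
  have h3 : (rho B W : ℤ) + r ≤ rho (absG B W Y E N) (W ∪ Y) := by exact_mod_cast hrho
  have h4 : (ee B Q W : ℤ) + Y2.card ≤ ee (absG B W Y E N) (W ∪ Y) (W ∪ Y) := by
    exact_mod_cast hee
  have h5 : Pp (absG B W Y E N) (W ∪ Y) = Pp B W + 4 * (Y.card : ℤ) + 4 * (Fintype.card κ : ℤ) -
      22 * ((rho (absG B W Y E N) (W ∪ Y) : ℤ) - rho B W) := by
    rw [Pp_eq, Pp_eq, h.cm, hc]
    push_cast
    ring
  have h6 : sv (absG B W Y E N) (W ∪ Y) = sv B W + Y.card -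
      2 * ((rho (absG B W Y E N) (W ∪ Y) : ℤ) - rho B W) := by
    unfold sv
    rw [hc']
    ring
  have h7 := Pp_mod4 (B := absG B W Y E N) (W ∪ Y)
  have h8 := Pv_eq_Pp (B := absG B W Y E N) (W ∪ Y)
  have h9 := Pv_eq_Pp (B := B) W
  have he0 : (0 : ℤ) ≤ ee (absG B W Y E N) (W ∪ Y) (W ∪ Y) := by positivity
  generalize hP : Pp (absG B W Y E N) (W ∪ Y) = P' at *
  generalize hV : Pv (absG B W Y E N) (W ∪ Y) = Q' at *
  generalize hS : sv (absG B W Y E N) (W ∪ Y) = S' at *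
  generalize hR : (rho (absG B W Y E N) (W ∪ Y) : ℤ) = R' at *
  generalize hEE : (ee (absG B W Y E N) (W ∪ Y) (W ∪ Y) : ℤ) = e' at *
  refine ⟨by linarith, fun hs => ?_, fun ihq hs => ?_⟩
  · have hS0 : S' ≤ 0 := by linarith
    have hP1 : 2 * e' ≤ P' := by
      have hev := Pp_even (B := absG B W Y E N) (W ∪ Y)
      rw [hP] at hev
      omega
    rcases lt_or_ge ((rho B W : ℤ) + r) R' with hlt' | hge'
    · have : 22 ≤ 22 * (R' - (rho B W + r)) := by linarith
      have hm : ((ee B Q W : ℤ) + Y2.card + rho B W + r) % 2 ≤ 1 := by omega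
      linarith
    · have hRe : R' = rho B W + r := le_antisymm hge' h3
      subst hRe
      have hP2 : 2 * ((ee B Q W : ℤ) + Y2.card) + 2 * (((ee B Q W : ℤ) + Y2.card + rho B W + r) % 2)
          ≤ P' := by omega
      linarith
  · rcases lt_or_ge ((rho B W : ℤ) + r) R' with hlt' | hge'
    · have : 24 ≤ 24 * (R' - (rho B W + r)) := by linarith
      linarith
    · have hRe : R' = rho B W + r := le_antisymm hge' h3
      have hS0 : 0 ≤ S' := by rw [h6, hRe]; linarith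
      have hQ0 : 0 ≤ Q' := by
        rcases eq_or_lt_of_le hS0 with h0 | h0
        · have hev := Pp_even (B := absG B W Y E N) (W ∪ Y)
          rw [hP] at hev
          omega
        · have := ihq (ι ⊕ κ) (absG B W Y E N) (W ∪ Y) hlt hr' ht3 hcn hK (by rw [hS]; omega)
          rwa [hV] at this
      linarith

section

variable {Q W Y : Finset V} {J : V → Finset V} {E : V → Finset ι} {τ : Type u} {c : V → τ}
  {m : τ → ℕ}

/-- **joint closing, value form.** -/
theorem Cells.mainE [Fintype τ] (h : Cells B Q W Y J E c m) {n : ℕ}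
    (ih : IHE.{u} V n) (hn : W.card + Y.card < n) (hr : Reg B Q) (h3 : Tr3 B Q)
    (hW : Conn (gr B) W) (hK : ¬ KT (absG B W Y E (cellN Y c E m)) (W ∪ Y))
    {Y2 : Finset V} (hY2 : Y2 ⊆ Y) (h4 : ∀ y ∈ Y2, (E y).card ≤ 3)
    (hoth : ∀ y ∈ Y2, ∀ z ∈ Y, c z = c y → z ≠ y → (E y).card + 2 ≤ (E z).card) :
    (2 * (ee B Q W : ℤ) + 2 * (Y2.card : ℤ) +
        ∑ t : τ, (4 * (m t : ℤ) + 4 - 5 * ((cellS Y c t).card : ℤ)) ≤ Pv B W + 1) ∧
    (sv B W + Y.card ≤ 2 * Fintype.card τ →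
      2 * (ee B Q W : ℤ) + 2 * (Y2.card : ℤ) +
        ∑ t : τ, (4 * (m t : ℤ) + 2 - 4 * ((cellS Y c t).card : ℤ)) +
        2 * (((ee B Q W : ℤ) + Y2.card + rho B W + Fintype.card τ) % 2) ≤ Pp B W) ∧
    (IHQ.{u} V n → 2 * Fintype.card τ ≤ sv B W + Y.card →
      ∑ t : τ, (4 * (m t : ℤ) + 4 - 5 * ((cellS Y c t).card : ℤ)) ≤ Pv B W) := by
  have hmle : ∀ t, m t ≤ 5 := by
    intro t
    obtain ⟨y, hy, _, hym⟩ := h.mex t
    rw [← hym]
    exact h.E5 y hy
  have h5 := close_genE (h.abs h3) ih hn hr h.WQ hW (fun y hy i hi => h.two_le hy hi) hK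
    (h.rho_ge hr h3) hY2 (fun y hy => h.two_single (hY2 hy) (h4 y hy) (hoth y hy))
  have h6 : (Fintype.card (Σ t : τ, Fin (5 - m t)) : ℤ) = ∑ t : τ, (5 - (m t : ℤ)) := by
    rw [Fintype.card_sigma]
    push_cast
    refine sum_congr rfl fun t _ => ?_
    rw [Fintype.card_fin]
    have := hmle t
    omega
  have h7 : (Fintype.card τ : ℤ) = ∑ _t : τ, (1 : ℤ) := by simp
  have h8 : ∑ t : τ, (4 * (m t : ℤ) + 2 - 4 * ((cellS Y c t).card : ℤ)) =
      22 * (Fintype.card τ : ℤ) - 4 * ∑ t : τ, ((cellS Y c t).card : ℤ) -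
        4 * ∑ t : τ, (5 - (m t : ℤ)) := by
    rw [h7, mul_sum, mul_sum, mul_sum, ← sum_sub_distrib, ← sum_sub_distrib]
    refine sum_congr rfl fun t _ => ?_
    ring
  have h9 : ∑ t : τ, (4 * (m t : ℤ) + 4 - 5 * ((cellS Y c t).card : ℤ)) =
      24 * (Fintype.card τ : ℤ) - 5 * ∑ t : τ, ((cellS Y c t).card : ℤ) -
        4 * ∑ t : τ, (5 - (m t : ℤ)) := by
    rw [h7, mul_sum, mul_sum, mul_sum, ← sum_sub_distrib, ← sum_sub_distrib]
    refine sum_congr rfl fun t _ => ?_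
    ring
  have h10 := card_cells (Y := Y) (c := c)
  rw [h6] at h5
  rw [h8, h9, ← h10]
  obtain ⟨a1, a2, a3⟩ := h5
  refine ⟨by linarith, fun hs => ?_, fun ihq hs => ?_⟩
  · have := a2 hs
    linarith
  · have := a3 ihq hs
    linarith

end

open Classical in
/-- **joint closing of pairs of groups, value form.** -/
theorem PairCl.mainE {Q W : Finset V} {τ : Type u} [Fintype τ] {J1 J2 : τ → Finset V}
    {E1 E2 : τ → Finset ι} (h : PairCl B Q W J1 J2 E1 E2) {n : ℕ} (ih : IHE.{u} V n)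
    (hn : W.card + 2 * Fintype.card τ < n) (hr : Reg B Q) (h3 : Tr3 B Q) (hW : Conn (gr B) W)
    (hKW : ¬ KT B W) :
    (2 * (ee B Q W : ℤ) + ∑ t : τ, (4 * ((E2 t).card : ℤ) - 6 +
        if (E2 t).card + 2 ≤ (E1 t).card then 2 else 0) ≤ Pv B W + 1) ∧
    (sv B W ≤ 0 →
      2 * (ee B Q W : ℤ) + ∑ t : τ, (4 * ((E2 t).card : ℤ) - 6 +
        if (E2 t).card + 2 ≤ (E1 t).card then 2 else 0) +
        2 * (((ee B Q W : ℤ) + (univ.filter (fun t => (E2 t).card + 2 ≤ (E1 t).card)).card +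
          rho B W + Fintype.card τ) % 2) ≤ Pp B W) ∧
    (IHQ.{u} V n → 0 ≤ sv B W → ∑ t : τ, (4 * ((E2 t).card : ℤ) - 6) ≤ Pv B W) := by
  rcases isEmpty_or_nonempty τ with hτ | hτ
  · have h0 : Fintype.card τ = 0 := Fintype.card_eq_zero
    have h1 := ih ι B W (by omega) (hr.mono h.WQ) (h3.mono h.WQ) hW hKW
    have h2 : ee B Q W ≤ ee B W W := ee_le_ee (Subset.refl _) h.WQ
    have h2' : (ee B Q W : ℤ) ≤ ee B W W := by exact_mod_cast h2
    have h4 := Pp_mod4 (B := B) W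
    have h5 := Pv_eq_Pp (B := B) W
    have h6 := Pp_even (B := B) W
    have he0 : (0 : ℤ) ≤ ee B Q W := by positivity
    rw [univ_eq_empty, sum_empty, sum_empty, filter_empty, card_empty, h0]
    refine ⟨by linarith, fun hs => ?_, fun ihq hs => ?_⟩
    · push_cast
      omega
    · rcases eq_or_lt_of_le hs with h7 | h7
      · omega
      · exact ihq ι B W (by omega) (hr.mono h.WQ) (h3.mono h.WQ) hW hKW (by omega)
  -- representatives
  have hx : ∀ t, ∃ v, v ∈ J1 t := by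
    intro t
    have h1 : 0 < (E1 t).card := lt_of_lt_of_le (card_pos.2 (h.E2ne t)) (h.le t)
    obtain ⟨i, hi⟩ := card_pos.1 h1
    obtain ⟨_, v, hv⟩ := mem_cxs.1 (h.E1J t hi)
    exact ⟨v, (mem_inter.1 hv).2⟩
  have hy : ∀ t, ∃ v, v ∈ J2 t := by
    intro t
    obtain ⟨i, hi⟩ := h.E2ne t
    obtain ⟨_, v, hv⟩ := mem_cxs.1 (h.E2J t hi)
    exact ⟨v, (mem_inter.1 hv).2⟩
  choose x hx using hx
  choose y hy using hy
  have huni : ∀ s t v, v ∈ J1 s ∪ J2 s → v ∈ J1 t ∪ J2 t → s = t := by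
    intro s t v h1 h2
    by_contra hne
    exact disjoint_left.1 (h.Jd s t hne) h1 h2
  obtain ⟨c, hc⟩ : ∃ c : V → τ, ∀ t v, v ∈ J1 t ∪ J2 t → c v = t := by
    refine ⟨fun v => if hv : ∃ t, v ∈ J1 t ∪ J2 t then hv.choose else hτ.some, fun t v hv => ?_⟩
    have hex : ∃ t, v ∈ J1 t ∪ J2 t := ⟨t, hv⟩
    simp only [hex, dif_pos]
    exact huni _ _ v hex.choose_spec hv
  have hcx : ∀ t, c (x t) = t := fun t => hc t _ (mem_union_left _ (hx t))
  have hcy : ∀ t, c (y t) = t := fun t => hc t _ (mem_union_right _ (hy t))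
  have hyn : ∀ t, y t ∉ J1 t := fun t h1 => disjoint_left.1 (h.J12 t) h1 (hy t)
  have hxy : ∀ t, x t ≠ y t := fun t he => hyn t (he ▸ hx t)
  set Y : Finset V := univ.image x ∪ univ.image y with hYdef
  set J : V → Finset V := fun v => if v ∈ J1 (c v) then J1 (c v) else J2 (c v) with hJdef
  set E : V → Finset ι := fun v => if v ∈ J1 (c v) then E1 (c v) else E2 (c v) with hEdef
  have hJx : ∀ t, J (x t) = J1 t := by
    intro t
    simp only [hJdef, hcx, hx, if_true]
  have hJy : ∀ t, J (y t) = J2 t := by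
    intro t
    simp only [hJdef, hcy, hyn, if_false]
  have hEx : ∀ t, E (x t) = E1 t := by
    intro t
    simp only [hEdef, hcx, hx, if_true]
  have hEy : ∀ t, E (y t) = E2 t := by
    intro t
    simp only [hEdef, hcy, hyn, if_false]
  have hYm : ∀ v, v ∈ Y ↔ (∃ t, x t = v) ∨ ∃ t, y t = v := by
    intro v
    simp only [hYdef, mem_union, mem_image, mem_univ, true_and]
  have hS : ∀ t, cellS Y c t = {x t, y t} := by
    intro t
    ext v
    rw [mem_cellS, hYm, mem_insert, mem_singleton]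
    constructor
    · rintro ⟨⟨s, rfl⟩ | ⟨s, rfl⟩, hs⟩
      · rw [hcx] at hs
        exact Or.inl (hs ▸ rfl)
      · rw [hcy] at hs
        exact Or.inr (hs ▸ rfl)
    · rintro (rfl | rfl)
      · exact ⟨Or.inl ⟨t, rfl⟩, hcx t⟩
      · exact ⟨Or.inr ⟨t, rfl⟩, hcy t⟩
  have hSc : ∀ t, (cellS Y c t).card = 2 := fun t => by rw [hS, card_pair (hxy t)]
  have hxW : ∀ t, x t ∉ W := fun t => (mem_sdiff.1 (h.J1Q t (hx t))).2
  have hyW : ∀ t, y t ∉ W := fun t => (mem_sdiff.1 (h.J2Q t (hy t))).2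
  have hcells : Cells B Q W Y J E c (fun t => (E2 t).card) := by
    refine ⟨h.WQ, ?_, ?_, ?_, ?_, ?_, ?_, ?_, ?_, ?_, ?_⟩
    · rw [disjoint_left]
      intro v hv hvY
      rcases (hYm v).1 hvY with ⟨t, rfl⟩ | ⟨t, rfl⟩
      · exact hxW t hv
      · exact hyW t hv
    · intro v hv
      rcases (hYm v).1 hv with ⟨t, rfl⟩ | ⟨t, rfl⟩
      · rw [hJx]; exact h.J1Q t
      · rw [hJy]; exact h.J2Q t
    · intro v hv w hw hne
      rcases (hYm v).1 hv with ⟨t, rfl⟩ | ⟨t, rfl⟩ <;> rcases (hYm w).1 hw with ⟨s, rfl⟩ | ⟨s, rfl⟩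
      · rw [hJx, hJx]
        have hts : t ≠ s := fun he => hne (by rw [he])
        exact disjoint_of_subset_left subset_union_left
          (disjoint_of_subset_right subset_union_left (h.Jd t s hts))
      · rw [hJx, hJy]
        by_cases hts : t = s
        · rw [hts]; exact h.J12 s
        · exact disjoint_of_subset_left subset_union_left
            (disjoint_of_subset_right subset_union_right (h.Jd t s hts))
      · rw [hJy, hJx]
        by_cases hts : t = s
        · rw [hts]; exact (h.J12 s).symm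
        · exact disjoint_of_subset_left subset_union_right
            (disjoint_of_subset_right subset_union_left (h.Jd t s hts))
      · rw [hJy, hJy]
        have hts : t ≠ s := fun he => hne (by rw [he])
        exact disjoint_of_subset_left subset_union_right
          (disjoint_of_subset_right subset_union_right (h.Jd t s hts))
    · intro v hv
      rcases (hYm v).1 hv with ⟨t, rfl⟩ | ⟨t, rfl⟩
      · rw [hJx, hEx]; exact h.E1J t
      · rw [hJy, hEy]; exact h.E2J t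
    · intro v hv
      rcases (hYm v).1 hv with ⟨t, rfl⟩ | ⟨t, rfl⟩
      · rw [hEx]; exact h.le5 t
      · rw [hEy]; exact (h.le4 t).trans (by norm_num)
    · intro v hv
      rcases (hYm v).1 hv with ⟨t, rfl⟩ | ⟨t, rfl⟩
      · rw [hEx]
        exact card_pos.1 (lt_of_lt_of_le (card_pos.2 (h.E2ne t)) (h.le t))
      · rw [hEy]; exact h.E2ne t
    · intro v hv
      rcases (hYm v).1 hv with ⟨t, rfl⟩ | ⟨t, rfl⟩
      · rw [hEx, hcx]; exact h.le t
      · rw [hEy, hcy]
    · intro t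
      exact ⟨y t, (hYm _).2 (Or.inr ⟨t, rfl⟩), hcy t, by rw [hEy]⟩
    · intro t
      rw [hSc]
      norm_num
    · intro I f hf
      have hf1 : ∀ t ∈ I, f (x t) ∈ J1 t := by
        intro t ht
        have := hf (x t) ((hYm _).2 (Or.inl ⟨t, rfl⟩)) (by rw [hcx]; exact ht)
        rwa [hJx] at this
      have hf2 : ∀ t ∈ I, f (y t) ∈ J2 t := by
        intro t ht
        have := hf (y t) ((hYm _).2 (Or.inr ⟨t, rfl⟩)) (by rw [hcy]; exact ht)
        rwa [hJy] at this
      have h5 := h.cost I (fun t => f (x t)) (fun t => f (y t)) fun t ht => ⟨hf1 t ht, hf2 t ht⟩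
      have h6 : (Y.filter (fun v => c v ∈ I)).image f =
          I.image (fun t => f (x t)) ∪ I.image (fun t => f (y t)) := by
        ext v
        simp only [mem_image, mem_filter, mem_union]
        constructor
        · rintro ⟨w, ⟨hw, hcw⟩, rfl⟩
          rcases (hYm w).1 hw with ⟨t, rfl⟩ | ⟨t, rfl⟩
          · rw [hcx] at hcw
            exact Or.inl ⟨t, hcw, rfl⟩
          · rw [hcy] at hcw
            exact Or.inr ⟨t, hcw, rfl⟩
        · rintro (⟨t, ht, rfl⟩ | ⟨t, ht, rfl⟩)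
          · exact ⟨x t, ⟨(hYm _).2 (Or.inl ⟨t, rfl⟩), by rw [hcx]; exact ht⟩, rfl⟩
          · exact ⟨y t, ⟨(hYm _).2 (Or.inr ⟨t, rfl⟩), by rw [hcy]; exact ht⟩, rfl⟩
      rw [h6]
      exact h5
  have hYc : Y.card = 2 * Fintype.card τ := by
    have h5 := card_cells (Y := Y) (c := c)
    simp only [hSc] at h5
    rw [sum_const, card_univ, nsmul_eq_mul] at h5
    have h6 : (Y.card : ℤ) = ((2 * Fintype.card τ : ℕ) : ℤ) := by
      rw [h5]
      push_cast
      ring
    exact_mod_cast h6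
  have hNK := hcells.not_KT hr h3 (t := hτ.some) (by rw [hSc]) (h.le4 _)
  set T2 : Finset τ := univ.filter (fun t => (E2 t).card + 2 ≤ (E1 t).card) with hT2
  have hyinj : Function.Injective y := by
    intro s t he
    have := hcy s
    rw [he, hcy] at this
    exact this.symm
  have hmain := hcells.mainE ih (by rw [hYc]; exact hn) hr h3 hW hNK (Y2 := T2.image y) ?_ ?_ ?_
  · rw [card_image_of_injective _ hyinj] at hmain
    simp only [hSc] at hmain
    have hYc' : (Y.card : ℤ) = 2 * Fintype.card τ := by exact_mod_cast hYc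
    rw [hYc'] at hmain
    have h7 : (T2.card : ℤ) * 2 = ∑ t : τ, (if (E2 t).card + 2 ≤ (E1 t).card then (2 : ℤ) else 0) := by
      rw [← sum_filter, sum_const, nsmul_eq_mul]
    have h8 : ∑ t : τ, (4 * ((E2 t).card : ℤ) - 6 +
        if (E2 t).card + 2 ≤ (E1 t).card then 2 else 0) =
        ∑ t : τ, (4 * ((E2 t).card : ℤ) - 6) + (T2.card : ℤ) * 2 := by
      rw [h7, ← sum_add_distrib]
    have h9 : ∑ t : τ, (4 * ((E2 t).card : ℤ) + 4 - 5 * ((2 : ℕ) : ℤ)) =
        ∑ t : τ, (4 * ((E2 t).card : ℤ) - 6) := by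
      refine sum_congr rfl fun t _ => ?_
      push_cast
      ring
    have h10 : ∑ t : τ, (4 * ((E2 t).card : ℤ) + 2 - 4 * ((2 : ℕ) : ℤ)) =
        ∑ t : τ, (4 * ((E2 t).card : ℤ) - 6) := by
      refine sum_congr rfl fun t _ => ?_
      push_cast
      ring
    rw [h9, h10] at hmain
    rw [h8]
    obtain ⟨a1, a2, a3⟩ := hmain
    refine ⟨by linarith, fun hs => ?_, fun ihq hs => ?_⟩
    · have := a2 (by linarith)
      linarith
    · exact a3 ihq (by linarith)
  · intro v hv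
    obtain ⟨t, _, rfl⟩ := mem_image.1 hv
    exact (hYm _).2 (Or.inr ⟨t, rfl⟩)
  · intro v hv
    obtain ⟨t, ht, rfl⟩ := mem_image.1 hv
    have h5 := (mem_filter.1 ht).2
    have h6 := h.le5 t
    rw [hEy]
    omega
  · intro v hv w hw hcw hne
    obtain ⟨t, ht, rfl⟩ := mem_image.1 hv
    have h5 := (mem_filter.1 ht).2
    rw [hcy] at hcw
    have h6 : w ∈ cellS Y c t := mem_cellS.2 ⟨hw, hcw⟩
    rw [hS, mem_insert, mem_singleton] at h6
    rcases h6 with rfl | rfl
    · rw [hEx, hEy]; exact h5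
    · exact absurd rfl hne

end Pool.Agent.Hyp6
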