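import Pool.Agent.Hyp6.Exch
import Pool.Agent.Hyp6.L4K

/-!
# HYP6 KEXCH: exchanges and K-pieces

`Wr B U F`: the rest of a packing. `kps B W`: the K-pieces inside `W`. `OptPack B U F`: a maximum packing
with the smallest number of K-pieces in its rest. `Onl B U F j i`: the block `i` with five points meets no
member except `j`. `Rich B U F j`: some K-piece inside the rest together with the member `j` meets `j`.
-/

set_option autoImplicit false

namespace Pool.Agent.Hyp6

open Finset Pool.Agent.Hyp5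

universe u v

variable {V : Type v} [DecidableEq V] {ι : Type u} {B : ι → Finset V}

/-- the rest of a packing. -/
def Wr (B : ι → Finset V) (U : Finset V) (F : Finset ι) : Finset V := U \ F.biUnion B

theorem mem_Wr {U : Finset V} {F : Finset ι} {v : V} :
    v ∈ Wr B U F ↔ v ∈ U ∧ ∀ k ∈ F, v ∉ B k := by
  unfold Wr
  rw [mem_sdiff, mem_biUnion]
  push Not
  rfl

theorem Wr_sub {U : Finset V} {F : Finset ι} : Wr B U F ⊆ U := sdiff_subset

/-- the block `i` with five points, outside the packing, meets no member except `j`. -/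
def Onl (B : ι → Finset V) (U : Finset V) (F : Finset ι) (j i : ι) : Prop :=
  i ∉ F ∧ (B i ∩ U).card = 5 ∧ ∀ k ∈ F, k ≠ j → Disjoint (B i ∩ U) (B k ∩ U)

theorem Pri.onl {U : Finset V} {F : Finset ι} (hF : Pack B U 5 F) {j i : ι} (hj : j ∈ F)
    (h : Pri B U F j i) : Onl B U F j i :=
  ⟨h.1.1, h.1.2.1, fun _ hk hne => h.disj hF hj hk hne⟩

section

variable [DecidableEq ι]

/-- the exchange `F - j + i`. -/
def sw1 (F : Finset ι) (j i : ι) : Finset ι := (F \ {j}) ∪ {i}

/-- the exchange `F - j - j' + b + i`. -/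
def sw2 (F : Finset ι) (j j' b i : ι) : Finset ι := (F \ {j, j'}) ∪ {b, i}

theorem mem_sw1 {F : Finset ι} {j i k : ι} : k ∈ sw1 F j i ↔ (k ∈ F ∧ k ≠ j) ∨ k = i := by
  rw [sw1, mem_union, mem_sdiff, mem_singleton, mem_singleton]

theorem mem_sw2 {F : Finset ι} {j j' b i k : ι} :
    k ∈ sw2 F j j' b i ↔ (k ∈ F ∧ k ≠ j ∧ k ≠ j') ∨ k = b ∨ k = i := by
  rw [sw2, mem_union, mem_sdiff, mem_insert, mem_singleton, mem_insert, mem_singleton, not_or]

theorem Onl.sw {U : Finset V} {F : Finset ι} (h : MaxPack B U F) {j i : ι} (hj : j ∈ F)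
    (hi : Onl B U F j i) : MaxPack B U (sw1 F j i) := by
  refine h.exchange (pack_singleton hi.2.1) (singleton_subset_iff.2 hj) ?_ (by simp)
  intro a ha k hk
  rw [mem_sdiff, mem_singleton] at hk
  rw [mem_singleton.1 ha]
  exact hi.2.2 k hk.1 hk.2

/-- two blocks meeting only the member `j` meet. -/
theorem MaxPack.onl_meet {U : Finset V} {F : Finset ι} (h : MaxPack B U F) {j i i' : ι}
    (hj : j ∈ F) (hi : Onl B U F j i) (hi' : Onl B U F j i') :
    ¬ Disjoint (B i ∩ U) (B i' ∩ U) := by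
  intro hd
  have hne : i ≠ i' := by
    rintro rfl
    rw [disjoint_self] at hd
    have : (B i ∩ U).card = 0 := by rw [hd]; rfl
    have := hi.2.1
    omega
  have hA : Pack B U 5 ({i, i'} : Finset ι) :=
    pack_insert (pack_singleton hi'.2.1) hi.2.1 (by
      intro l hl; rw [mem_singleton.1 hl]; exact hd)
  have h1 := h.card_le (D := {j}) hA (singleton_subset_iff.2 hj) (by
    intro a ha k hk
    rw [mem_sdiff, mem_singleton] at hk
    rcases mem_insert.1 ha with rfl | ha
    · exact hi.2.2 k hk.1 hk.2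
    · rw [mem_singleton.1 ha]; exact hi'.2.2 k hk.1 hk.2)
  rw [card_pair hne, card_singleton] at h1
  omega

theorem MaxPack.sw2 {U : Finset V} {F : Finset ι} (h : MaxPack B U F)
    {j j' b i : ι} (hj : j ∈ F) (hj' : j' ∈ F) (hb : (B b ∩ U).card = 5)
    (hbF : ∀ k ∈ F, k ≠ j → k ≠ j' → Disjoint (B b ∩ U) (B k ∩ U)) (hi : Onl B U F j i)
    (hbi : Disjoint (B b ∩ U) (B i ∩ U)) : MaxPack B U (Hyp6.sw2 F j j' b i) := by
  have hne : b ≠ i := by
    rintro rfl
    rw [disjoint_self] at hbi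
    have : (B b ∩ U).card = 0 := by rw [hbi]; rfl
    omega
  have hA : Pack B U 5 ({b, i} : Finset ι) :=
    pack_insert (pack_singleton hi.2.1) hb (by
      intro l hl; rw [mem_singleton.1 hl]; exact hbi)
  refine h.exchange hA ?_ ?_ ?_
  · intro l hl
    rcases mem_insert.1 hl with rfl | hl
    · exact hj
    · rw [mem_singleton.1 hl]; exact hj'
  · intro a ha k hk
    rw [mem_sdiff, mem_insert, mem_singleton, not_or] at hk
    rcases mem_insert.1 ha with rfl | ha
    · exact hbF k hk.1 hk.2.1 hk.2.2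
    · rw [mem_singleton.1 ha]; exact hi.2.2 k hk.1 hk.2.1
  · rw [card_pair hne]
    exact card_le_two

/-- no packing of three blocks replaces two members. -/
theorem MaxPack.no3 {U : Finset V} {F : Finset ι} (h : MaxPack B U F)
    {j j' b i i' : ι} (hj : j ∈ F) (hj' : j' ∈ F) (hb : (B b ∩ U).card = 5)
    (hbF : ∀ k ∈ F, k ≠ j → k ≠ j' → Disjoint (B b ∩ U) (B k ∩ U)) (hi : Onl B U F j i)
    (hi' : Onl B U F j' i') (hbi : Disjoint (B b ∩ U) (B i ∩ U))
    (hbi' : Disjoint (B b ∩ U) (B i' ∩ U)) : ¬ Disjoint (B i ∩ U) (B i' ∩ U) := by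
  intro hd
  have hbne : ∀ l, Disjoint (B b ∩ U) (B l ∩ U) → b ≠ l := by
    rintro l hl rfl
    rw [disjoint_self] at hl
    have : (B b ∩ U).card = 0 := by rw [hl]; rfl
    omega
  have hne : i ≠ i' := by
    rintro rfl
    rw [disjoint_self] at hd
    have : (B i ∩ U).card = 0 := by rw [hd]; rfl
    have := hi.2.1
    omega
  have hA2 : Pack B U 5 ({i, i'} : Finset ι) :=
    pack_insert (pack_singleton hi'.2.1) hi.2.1 (by
      intro l hl; rw [mem_singleton.1 hl]; exact hd)
  have hA : Pack B U 5 (insert b ({i, i'} : Finset ι)) :=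
    pack_insert hA2 hb (by
      intro l hl
      rcases mem_insert.1 hl with rfl | hl
      · exact hbi
      · rw [mem_singleton.1 hl]; exact hbi')
  have h1 := h.card_le (D := {j, j'}) hA (by
    intro l hl
    rcases mem_insert.1 hl with rfl | hl
    · exact hj
    · rw [mem_singleton.1 hl]; exact hj') (by
    intro a ha k hk
    rw [mem_sdiff, mem_insert, mem_singleton, not_or] at hk
    rcases mem_insert.1 ha with rfl | ha
    · exact hbF k hk.1 hk.2.1 hk.2.2
    rcases mem_insert.1 ha with rfl | ha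
    · exact hi.2.2 k hk.1 hk.2.1
    · rw [mem_singleton.1 ha]; exact hi'.2.2 k hk.1 hk.2.2)
  have h2 : (insert b ({i, i'} : Finset ι)).card = 3 := by
    rw [card_insert_of_notMem, card_pair hne]
    rw [mem_insert, mem_singleton, not_or]
    exact ⟨hbne i hbi, hbne i' hbi'⟩
  have h3 : ({j, j'} : Finset ι).card ≤ 2 := card_le_two
  omega

/-- the rest after the exchange `F - j + i`. -/
theorem Wr_sw1 {U : Finset V} {F : Finset ι} (hF : Pack B U 5 F) {j i : ι} (hj : j ∈ F) :
    Wr B U (sw1 F j i) = (Wr B U F ∪ (B j ∩ U)) \ B i := by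
  ext v
  rw [mem_sdiff, mem_union, mem_inter, mem_Wr, mem_Wr]
  constructor
  · rintro ⟨h1, h2⟩
    refine ⟨?_, h2 i (mem_sw1.2 (Or.inr rfl))⟩
    by_cases h3 : v ∈ B j
    · exact Or.inr ⟨h3, h1⟩
    · refine Or.inl ⟨h1, fun k hk => ?_⟩
      by_cases h4 : k = j
      · rw [h4]; exact h3
      · exact h2 k (mem_sw1.2 (Or.inl ⟨hk, h4⟩))
  · rintro ⟨h1 | h1, h2⟩
    · refine ⟨h1.1, fun k hk => ?_⟩
      rcases mem_sw1.1 hk with h3 | rfl
      · exact h1.2 k h3.1
      · exact h2
    · refine ⟨h1.2, fun k hk hv => ?_⟩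
      rcases mem_sw1.1 hk with h3 | rfl
      · exact Finset.disjoint_left.1 (hF.disj k h3.1 j hj h3.2) (mem_inter.2 ⟨hv, h1.2⟩)
          (mem_inter.2 ⟨h1.1, h1.2⟩)
      · exact h2 hv

/-- the rest after the exchange `F - j - j' + b + i`. -/
theorem Wr_sw2 {U : Finset V} {F : Finset ι} (hF : Pack B U 5 F) {j j' b i : ι} (hj : j ∈ F)
    (hj' : j' ∈ F) :
    Wr B U (sw2 F j j' b i) = (Wr B U F ∪ (B j ∩ U) ∪ (B j' ∩ U)) \ (B b ∪ B i) := by
  ext v
  rw [mem_sdiff, mem_union, mem_union, mem_union, mem_inter, mem_inter, mem_Wr, mem_Wr, not_or]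
  constructor
  · rintro ⟨h1, h2⟩
    refine ⟨?_, h2 b (mem_sw2.2 (Or.inr (Or.inl rfl))), h2 i (mem_sw2.2 (Or.inr (Or.inr rfl)))⟩
    by_cases h3 : v ∈ B j
    · exact Or.inl (Or.inr ⟨h3, h1⟩)
    by_cases h3' : v ∈ B j'
    · exact Or.inr ⟨h3', h1⟩
    · refine Or.inl (Or.inl ⟨h1, fun k hk => ?_⟩)
      by_cases h4 : k = j
      · rw [h4]; exact h3
      by_cases h4' : k = j'
      · rw [h4']; exact h3'
      · exact h2 k (mem_sw2.2 (Or.inl ⟨hk, h4, h4'⟩))
  · rintro ⟨(h1 | h1) | h1, h2, h2'⟩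
    · refine ⟨h1.1, fun k hk => ?_⟩
      rcases mem_sw2.1 hk with h3 | rfl | rfl
      · exact h1.2 k h3.1
      · exact h2
      · exact h2'
    · refine ⟨h1.2, fun k hk hv => ?_⟩
      rcases mem_sw2.1 hk with h3 | rfl | rfl
      · exact Finset.disjoint_left.1 (hF.disj k h3.1 j hj h3.2.1) (mem_inter.2 ⟨hv, h1.2⟩)
          (mem_inter.2 ⟨h1.1, h1.2⟩)
      · exact h2 hv
      · exact h2' hv
    · refine ⟨h1.2, fun k hk hv => ?_⟩
      rcases mem_sw2.1 hk with h3 | rfl | rfl
      · exact Finset.disjoint_left.1 (hF.disj k h3.1 j' hj' h3.2.2) (mem_inter.2 ⟨hv, h1.2⟩)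
          (mem_inter.2 ⟨h1.1, h1.2⟩)
      · exact h2 hv
      · exact h2' hv

end

section

variable [Fintype ι]

open Classical in
/-- the K-pieces inside `W`. -/
noncomputable def kps (B : ι → Finset V) (W : Finset V) : Finset (Finset V) :=
  W.powerset.filter (fun X => KP B X)

theorem mem_kps {W X : Finset V} : X ∈ kps B W ↔ X ⊆ W ∧ KP B X := by
  classical
  unfold kps
  rw [mem_filter, mem_powerset]

/-- a maximum packing with the smallest number of K-pieces in its rest. -/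
structure OptPack (B : ι → Finset V) (U : Finset V) (F : Finset ι) : Prop where
  mp : MaxPack B U F
  min : ∀ F', MaxPack B U F' → (kps B (Wr B U F)).card ≤ (kps B (Wr B U F')).card

theorem exists_optPack (B : ι → Finset V) (U : Finset V) : ∃ F : Finset ι, OptPack B U F := by
  classical
  obtain ⟨F0, h0⟩ := exists_maxPack5 B U
  obtain ⟨F, hF, hm⟩ := exists_min_image (univ.filter (fun F : Finset ι => MaxPack B U F))
    (fun F => (kps B (Wr B U F)).card) ⟨F0, mem_filter.2 ⟨mem_univ _, h0⟩⟩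
  exact ⟨F, (mem_filter.1 hF).2, fun F' hF' => hm F' (mem_filter.2 ⟨mem_univ _, hF'⟩)⟩

/-- some K-piece inside the rest together with the member `j` meets `j`. -/
def Rich (B : ι → Finset V) (U : Finset V) (F : Finset ι) (j : ι) : Prop :=
  ∃ Y, KP B Y ∧ Y ⊆ Wr B U F ∪ (B j ∩ U) ∧ (B j ∩ Y).Nonempty

variable [DecidableEq ι]

/-- **E1.** a block `i` meeting only the member `j` and a K-piece of the rest: some K-piece inside the rest
together with `j`, without the points of `i`, meets `j`. -/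
theorem OptPack.E1 {U : Finset V} {F : Finset ι} (h : OptPack B U F) {j i : ι} (hj : j ∈ F)
    (hi : Onl B U F j i) {X : Finset V} (hX : X ∈ kps B (Wr B U F))
    (hiX : (B i ∩ X).Nonempty) :
    ∃ Y, KP B Y ∧ Y ⊆ (Wr B U F ∪ (B j ∩ U)) \ B i ∧ (B j ∩ Y).Nonempty := by
  by_contra hcon
  push Not at hcon
  have h1 : MaxPack B U (sw1 F j i) := hi.sw h.mp hj
  have h2 := h.min _ h1
  have h3 : kps B (Wr B U (sw1 F j i)) ⊆ (kps B (Wr B U F)).erase X := by
    intro Y hY
    obtain ⟨h4, h5⟩ := mem_kps.1 hY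
    rw [Wr_sw1 h.mp.pack hj] at h4
    have h6 := hcon Y h5 h4
    refine mem_erase.2 ⟨?_, mem_kps.2 ⟨fun v hv => ?_, h5⟩⟩
    · rintro rfl
      obtain ⟨v, hv⟩ := hiX
      rw [mem_inter] at hv
      exact (mem_sdiff.1 (h4 hv.2)).2 hv.1
    · rcases mem_union.1 (mem_sdiff.1 (h4 hv)).1 with h7 | h7
      · exact h7
      · exfalso
        have : v ∈ B j ∩ Y := mem_inter.2 ⟨(mem_inter.1 h7).1, hv⟩
        rw [h6] at this
        exact notMem_empty _ this
  have h4 := card_le_card h3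
  have h5 := card_erase_add_one hX
  omega

theorem OptPack.rich_of {U : Finset V} {F : Finset ι} (h : OptPack B U F) {j i : ι} (hj : j ∈ F)
    (hi : Onl B U F j i) {X : Finset V} (hX : X ∈ kps B (Wr B U F))
    (hiX : (B i ∩ X).Nonempty) : Rich B U F j := by
  obtain ⟨Y, h1, h2, h3⟩ := h.E1 hj hi hX hiX
  exact ⟨Y, h1, h2.trans sdiff_subset, h3⟩

/-- a block which meets only a member which is not rich avoids the K-pieces of the rest. -/
theorem OptPack.poor {U : Finset V} {F : Finset ι} (h : OptPack B U F) {j i : ι} (hj : j ∈ F)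
    (hi : Onl B U F j i) (hr : ¬ Rich B U F j) {X : Finset V} (hX : X ∈ kps B (Wr B U F)) :
    Disjoint (B i) X := by
  rw [disjoint_iff_inter_eq_empty, ← not_nonempty_iff_eq_empty]
  exact fun hne => hr (h.rich_of hj hi hX hne)

/-- two blocks which meet a K-piece meet inside it. -/
theorem KP.meet {X : Finset V} (hr : Reg B X) (h : KP B X) {i j : ι} (hi : (B i ∩ X).Nonempty)
    (hj : (B j ∩ X).Nonempty) : ((B i ∩ X) ∩ (B j ∩ X)).Nonempty := by
  by_contra hcon
  rw [not_nonempty_iff_eq_empty] at hcon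
  have h1 : ((B i ∩ X) ∪ (B j ∩ X)).card = 6 := by
    rw [card_union_of_disjoint (disjoint_iff_inter_eq_empty.2 hcon), h.trace hr hi,
      h.trace hr hj]
  have h2 : (B i ∩ X) ∪ (B j ∩ X) ⊆ X := union_subset inter_subset_right inter_subset_right
  have h3 := eq_of_subset_of_card_le h2 (by rw [h1, h.card])
  refine h.not_cover i j ?_
  intro v hv
  rw [← h3] at hv
  rcases mem_union.1 hv with h4 | h4
  · exact mem_union.2 (Or.inl (mem_inter.1 h4).1)
  · exact mem_union.2 (Or.inr (mem_inter.1 h4).1)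

/-- the block `b` meets the K-piece `X` of the rest, has five points, and its other points are `y` in
the member `j` and `y'` in the member `j'`. -/
structure Dbl (B : ι → Finset V) (U : Finset V) (F : Finset ι) (X : Finset V) (b j j' : ι)
    (y y' : V) : Prop where
  kx : X ∈ kps B (Wr B U F)
  meet : (B b ∩ X).Nonempty
  five : (B b ∩ U).card = 5
  jF : j ∈ F
  jF' : j' ∈ F
  hy : y ∈ B j
  hy' : y' ∈ B j'
  eq : B b ∩ U = insert y (insert y' (B b ∩ X))

namespace Dbl

variable {U : Finset V} {F : Finset ι} {X : Finset V} {b j j' : ι} {y y' : V}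

theorem yU (d : Dbl B U F X b j j' y y') : y ∈ B b ∧ y ∈ U := by
  have : y ∈ B b ∩ U := by rw [d.eq]; exact mem_insert_self _ _
  exact mem_inter.1 this

theorem yU' (d : Dbl B U F X b j j' y y') : y' ∈ B b ∧ y' ∈ U := by
  have : y' ∈ B b ∩ U := by rw [d.eq]; exact mem_insert_of_mem (mem_insert_self _ _)
  exact mem_inter.1 this

theorem symm (d : Dbl B U F X b j j' y y') : Dbl B U F X b j' j y' y :=
  ⟨d.kx, d.meet, d.five, d.jF', d.jF, d.hy', d.hy, by rw [d.eq, insert_comm]⟩

theorem XW (d : Dbl B U F X b j j' y y') : X ⊆ Wr B U F := (mem_kps.1 d.kx).1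

theorem kp (d : Dbl B U F X b j j' y y') : KP B X := (mem_kps.1 d.kx).2

theorem notMem (d : Dbl B U F X b j j' y y') : b ∉ F := by
  intro hb
  obtain ⟨v, hv⟩ := d.meet
  rw [mem_inter] at hv
  exact (mem_Wr.1 (d.XW hv.2)).2 b hb hv.1

theorem disj (d : Dbl B U F X b j j' y y') (hF : Pack B U 5 F) {k : ι} (hk : k ∈ F)
    (h1 : k ≠ j) (h2 : k ≠ j') : Disjoint (B b ∩ U) (B k ∩ U) := by
  rw [Finset.disjoint_left]
  intro v hv hv'
  rw [d.eq, mem_insert, mem_insert] at hv
  rcases hv with rfl | rfl | hv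
  · exact Finset.disjoint_left.1 (hF.disj k hk j d.jF h1) hv' (mem_inter.2 ⟨d.hy, d.yU.2⟩)
  · exact Finset.disjoint_left.1 (hF.disj k hk j' d.jF' h2) hv' (mem_inter.2 ⟨d.hy', d.yU'.2⟩)
  · exact (mem_Wr.1 (d.XW (mem_inter.1 hv).2)).2 k hk (mem_inter.1 hv').1

theorem onl (d : Dbl B U F X b j j y y') (hF : Pack B U 5 F) : Onl B U F j b :=
  ⟨d.notMem, d.five, fun _ hk hne => d.disj hF hk hne hne⟩

theorem disj_of (d : Dbl B U F X b j j' y y') {n : ι} (hn : y ∉ B n) (hn' : y' ∉ B n)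
    (hX : Disjoint (B n) X) : Disjoint (B b ∩ U) (B n ∩ U) := by
  rw [Finset.disjoint_left]
  intro v hv hv'
  rw [d.eq, mem_insert, mem_insert] at hv
  rcases hv with rfl | rfl | hv
  · exact hn (mem_inter.1 hv').1
  · exact hn' (mem_inter.1 hv').1
  · exact Finset.disjoint_left.1 hX (mem_inter.1 hv').1 (mem_inter.1 hv).2

end Dbl

/-- a block which meets only the member `j` has no point of another member. -/
theorem Onl.notMem_of {U : Finset V} {F : Finset ι} {j n k : ι} (h : Onl B U F j n) (hk : k ∈ F)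
    (hne : k ≠ j) {v : V} (hv : v ∈ B k) (hvU : v ∈ U) : v ∉ B n := fun hv' =>
  Finset.disjoint_left.1 (h.2.2 k hk hne) (mem_inter.2 ⟨hv', hvU⟩) (mem_inter.2 ⟨hv, hvU⟩)

/-- **E2.** the K-double `b` joins the member `j`, not rich, and the member `j'`; the block `n` meets only
`j` and avoids `y`: some K-piece inside the rest together with `j'`, without the points of `b` and `n`,
meets `j'`. -/
theorem OptPack.E2 {U : Finset V} {F : Finset ι} (h : OptPack B U F) (hr : Reg B U) {X : Finset V}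
    {b j j' n : ι} {y y' : V} (d : Dbl B U F X b j j' y y') (hjj : j ≠ j')
    (hnr : ¬ Rich B U F j) (hn : Onl B U F j n) (hyn : y ∉ B n) :
    ∃ Y, KP B Y ∧ Y ⊆ (Wr B U F ∪ (B j' ∩ U)) \ (B b ∪ B n) ∧ (B j' ∩ Y).Nonempty := by
  by_contra hcon
  push Not at hcon
  have hn' : y' ∉ B n := hn.notMem_of d.jF' hjj.symm d.hy' d.yU'.2
  have hnX : Disjoint (B n) X := h.poor d.jF hn hnr d.kx
  have hbn := d.disj_of hyn hn' hnX
  have h1 : MaxPack B U (sw2 F j j' b n) :=
    h.mp.sw2 d.jF d.jF' d.five (fun k hk g1 g2 => d.disj h.mp.pack hk g1 g2) hn hbn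
  have h2 := h.min _ h1
  have hd : Disjoint (B j ∩ U) (B j' ∩ U) := h.mp.pack.disj j d.jF j' d.jF' hjj
  have h3 : kps B (Wr B U (sw2 F j j' b n)) ⊆ (kps B (Wr B U F)).erase X := by
    intro Y hY
    obtain ⟨h4, h5⟩ := mem_kps.1 hY
    have hYU : Y ⊆ U := h4.trans Wr_sub
    rw [Wr_sw2 h.mp.pack d.jF d.jF'] at h4
    by_cases h6 : (B j ∩ Y).Nonempty
    · exfalso
      have h7 : ¬ (B j' ∩ Y).Nonempty := by
        intro h7
        obtain ⟨v, hv⟩ := h5.meet (hr.mono hYU) h6 h7
        rw [mem_inter, mem_inter, mem_inter] at hv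
        exact Finset.disjoint_left.1 hd (mem_inter.2 ⟨hv.1.1, hYU hv.1.2⟩)
          (mem_inter.2 ⟨hv.2.1, hYU hv.1.2⟩)
      rw [not_nonempty_iff_eq_empty] at h7
      refine hnr ⟨Y, h5, fun v hv => ?_, h6⟩
      rcases mem_union.1 (mem_sdiff.1 (h4 hv)).1 with h8 | h8
      · exact h8
      · exfalso
        have : v ∈ B j' ∩ Y := mem_inter.2 ⟨(mem_inter.1 h8).1, hv⟩
        rw [h7] at this
        exact notMem_empty _ this
    · rw [not_nonempty_iff_eq_empty] at h6
      have h7 : Y ⊆ (Wr B U F ∪ (B j' ∩ U)) \ (B b ∪ B n) := by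
        intro v hv
        have h8 := mem_sdiff.1 (h4 hv)
        refine mem_sdiff.2 ⟨?_, h8.2⟩
        rcases mem_union.1 h8.1 with h9 | h9
        · rcases mem_union.1 h9 with h10 | h10
          · exact mem_union.2 (Or.inl h10)
          · exfalso
            have : v ∈ B j ∩ Y := mem_inter.2 ⟨(mem_inter.1 h10).1, hv⟩
            rw [h6] at this
            exact notMem_empty _ this
        · exact mem_union.2 (Or.inr h9)
      have h8 := hcon Y h5 h7
      refine mem_erase.2 ⟨?_, mem_kps.2 ⟨fun v hv => ?_, h5⟩⟩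
      · rintro rfl
        obtain ⟨v, hv⟩ := d.meet
        rw [mem_inter] at hv
        exact (mem_sdiff.1 (h7 hv.2)).2 (mem_union.2 (Or.inl hv.1))
      · rcases mem_union.1 (mem_sdiff.1 (h7 hv)).1 with h9 | h9
        · exact h9
        · exfalso
          have : v ∈ B j' ∩ Y := mem_inter.2 ⟨(mem_inter.1 h9).1, hv⟩
          rw [h8] at this
          exact notMem_empty _ this
  have h4 := card_le_card h3
  have h5 := card_erase_add_one d.kx
  omega

end

end Pool.Agent.Hyp6
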