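import Pool.Agent.Hyp6.L4K2
import Pool.Agent.Hyp6.KExch

/-!
# HYP6 OVA: overlapping K-pieces, general facts

`KP.lam3`: two points of a K-piece lie in at most three common blocks. A block meeting two K-pieces meets
their intersection; if it meets the intersection in one point only, then it has five points, all of them
in the union.
-/

set_option autoImplicit false

namespace Pool.Agent.Hyp6

open Finset Pool.Agent.Hyp5

universe u v

variable {V : Type v} [DecidableEq V] {ι : Type u} [Fintype ι] {B : ι → Finset V}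

/-- the number of blocks of a K-piece containing neither of two points. -/
theorem KP.neither {X : Finset V} (hr : Reg B X) (h : KP B X) {x y : V} (hx : x ∈ X)
    (hy : y ∈ X) :
    (univ.filter (fun j => (B j ∩ X).Nonempty ∧ x ∉ B j ∧ y ∉ B j)).card =
      (univ.filter (fun j => x ∈ B j ∧ y ∈ B j)).card := by
  classical
  have h1 := hr x hx
  have h2 := hr y hy
  have h3 := h.cmX
  unfold cm tch at h3
  rw [card_filter] at h1 h2 h3
  have h4 : (univ.filter (fun j => (B j ∩ X).Nonempty ∧ x ∉ B j ∧ y ∉ B j)).card + 10 =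
      (univ.filter (fun j => x ∈ B j ∧ y ∈ B j)).card + 10 := by
    rw [card_filter, card_filter]
    nth_rewrite 1 [show 10 = 5 + 5 from rfl]
    nth_rewrite 1 [← h1]
    nth_rewrite 1 [← h2]
    rw [← h3, ← sum_add_distrib, ← sum_add_distrib, ← sum_add_distrib]
    refine sum_congr rfl fun j _ => ?_
    by_cases hxj : x ∈ B j
    · have : (B j ∩ X).Nonempty := ⟨x, mem_inter.2 ⟨hxj, hx⟩⟩
      by_cases hyj : y ∈ B j <;> simp [hxj, hyj, this]
    · by_cases hyj : y ∈ B j
      · have : (B j ∩ X).Nonempty := ⟨y, mem_inter.2 ⟨hyj, hy⟩⟩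
        simp [hxj, hyj, this]
      · simp [hxj, hyj]
  omega

/-- two points of a K-piece lie in at most three common blocks. -/
theorem KP.lam3 {X : Finset V} (hr : Reg B X) (h : KP B X) {x y : V} (hx : x ∈ X) (hy : y ∈ X)
    (hne : x ≠ y) : (univ.filter (fun i => x ∈ B i ∧ y ∈ B i)).card ≤ 3 := by
  classical
  by_contra hcon
  push Not at hcon
  have hN := h.neither hr hx hy
  set L := univ.filter (fun i => x ∈ B i ∧ y ∈ B i) with hL
  set N := univ.filter (fun j => (B j ∩ X).Nonempty ∧ x ∉ B j ∧ y ∉ B j) with hNd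
  obtain ⟨j0, hj0⟩ : N.Nonempty := card_pos.1 (by omega)
  have hj0' := (mem_filter.1 hj0).2
  have hZ := h.trace hr hj0'.1
  have hf : ∀ i ∈ L, ∃ z, z ∈ B j0 ∩ X ∧ z ∈ B i := by
    intro i hi
    have hi' := (mem_filter.1 hi).2
    obtain ⟨z, hz⟩ := h.meet hr (i := i) (j := j0) ⟨x, mem_inter.2 ⟨hi'.1, hx⟩⟩ hj0'.1
    rw [mem_inter] at hz
    exact ⟨z, hz.2, (mem_inter.1 hz.1).1⟩
  haveI : Nonempty V := ⟨x⟩
  choose! f hf1 hf2 using hf
  obtain ⟨i, hi, i', hi', hii, hff⟩ := exists_ne_map_eq_of_card_lt_of_maps_to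
    (s := L) (t := B j0 ∩ X) (by omega) (f := f) (fun i hi => hf1 i hi)
  set z := f i with hz
  have hzi := hf2 i hi
  have hzi' : z ∈ B i' := by rw [hff]; exact hf2 i' hi'
  have hzX := (mem_inter.1 (hf1 i hi)).2
  have hzj := (mem_inter.1 (hf1 i hi)).1
  have hzx : z ≠ x := fun e => hj0'.2.1 (e ▸ hzj)
  have hzy : z ≠ y := fun e => hj0'.2.2 (e ▸ hzj)
  have hiL := (mem_filter.1 hi).2
  have hiL' := (mem_filter.1 hi').2
  have htr : B i ∩ X = {x, y, z} := by
    symm
    refine eq_of_subset_of_card_le ?_ ?_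
    · intro v hv
      simp only [mem_insert, mem_singleton] at hv
      rcases hv with rfl | rfl | rfl
      · exact mem_inter.2 ⟨hiL.1, hx⟩
      · exact mem_inter.2 ⟨hiL.2, hy⟩
      · exact mem_inter.2 ⟨hzi, hzX⟩
    · rw [h.trace hr ⟨x, mem_inter.2 ⟨hiL.1, hx⟩⟩]
      exact (card_eq_three.2 ⟨x, y, z, hne, hzx.symm, hzy.symm, rfl⟩).ge
  have hsub : N ∪ {i, i'} ⊆ univ.filter (fun j => z ∈ B j) := by
    intro j hj
    rw [mem_filter]
    refine ⟨mem_univ _, ?_⟩
    rcases mem_union.1 hj with hj | hj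
    · have hj' := (mem_filter.1 hj).2
      obtain ⟨v, hv⟩ := h.meet hr (i := i) (j := j) ⟨x, mem_inter.2 ⟨hiL.1, hx⟩⟩ hj'.1
      rw [mem_inter, htr] at hv
      have hvj := (mem_inter.1 hv.2).1
      have hv1 := hv.1
      simp only [mem_insert, mem_singleton] at hv1
      rcases hv1 with rfl | rfl | rfl
      · exact absurd hvj hj'.2.1
      · exact absurd hvj hj'.2.2
      · exact hvj
    · rw [mem_insert, mem_singleton] at hj
      rcases hj with rfl | rfl
      · exact hzi
      · exact hzi'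
  have hd : Disjoint N {i, i'} := by
    rw [disjoint_left]
    intro j hj hj'
    rw [mem_insert, mem_singleton] at hj'
    have := (mem_filter.1 hj).2.2.1
    rcases hj' with rfl | rfl
    · exact this hiL.1
    · exact this hiL'.1
  have h1 := card_le_card hsub
  rw [card_union_of_disjoint hd, card_pair hii, hr z hzX] at h1
  omega

section Two

variable {U S S' : Finset V}

/-- a block meeting two K-pieces. -/
theorem kk_sum (hr : Reg B U) (hS : KP B S) (hS' : KP B S') (hSU : S ⊆ U) (hSU' : S' ⊆ U) {i : ι}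
    (h : (B i ∩ S).Nonempty) (h' : (B i ∩ S').Nonempty) :
    (B i ∩ (S ∩ S')).card + (B i ∩ (S ∪ S')).card = 6 := by
  have h1 := hS.trace (hr.mono hSU) h
  have h2 := hS'.trace (hr.mono hSU') h'
  have h3 := card_union_add_card_inter (B i ∩ S) (B i ∩ S')
  rw [← inter_union_distrib_left] at h3
  have h4 : B i ∩ S ∩ (B i ∩ S') = B i ∩ (S ∩ S') := by
    ext v
    simp only [mem_inter]
    tauto
  rw [h4] at h3
  omega

theorem kk_le (h5 : ∀ i, (B i ∩ U).card ≤ 5) (hSU : S ⊆ U) (hSU' : S' ⊆ U) (i : ι) :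
    (B i ∩ (S ∪ S')).card ≤ 5 :=
  (card_le_card (inter_subset_inter_left (union_subset hSU hSU'))).trans (h5 i)

/-- a block meeting two K-pieces meets their intersection. -/
theorem kk_meet (hr : Reg B U) (h5 : ∀ i, (B i ∩ U).card ≤ 5) (hS : KP B S) (hS' : KP B S')
    (hSU : S ⊆ U) (hSU' : S' ⊆ U) {i : ι} (h : (B i ∩ S).Nonempty) (h' : (B i ∩ S').Nonempty) :
    (B i ∩ (S ∩ S')).Nonempty := by
  have h1 := kk_sum hr hS hS' hSU hSU' h h'
  have h2 := kk_le h5 hSU hSU' i
  exact card_pos.1 (by omega)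

/-- a block with one point in the intersection. -/
theorem kk_quint (hr : Reg B U) (h5 : ∀ i, (B i ∩ U).card ≤ 5) (hS : KP B S) (hS' : KP B S')
    (hSU : S ⊆ U) (hSU' : S' ⊆ U) {i : ι} (h : (B i ∩ (S ∩ S')).card = 1) :
    (B i ∩ U).card = 5 ∧ B i ∩ U ⊆ S ∪ S' := by
  obtain ⟨v, hv⟩ := card_pos.1 (by rw [h]; norm_num)
  rw [mem_inter, mem_inter] at hv
  have h1 := kk_sum hr hS hS' hSU hSU' (i := i) ⟨v, mem_inter.2 ⟨hv.1, hv.2.1⟩⟩
    ⟨v, mem_inter.2 ⟨hv.1, hv.2.2⟩⟩
  have h2 : B i ∩ (S ∪ S') ⊆ B i ∩ U := inter_subset_inter_left (union_subset hSU hSU')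
  have h3 := card_le_card h2
  have h4 := h5 i
  refine ⟨by omega, ?_⟩
  have h6 : B i ∩ (S ∪ S') = B i ∩ U := eq_of_subset_of_card_le h2 (by omega)
  rw [← h6]
  exact inter_subset_right

end Two

end Pool.Agent.Hyp6
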