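import Pool.Agent.Hyp6.KExch
import Pool.Agent.Hyp6.Home2

/-!
# HYP6 OPT: the choice of the packing with K-pieces, the value of a member which is not rich

`exists_opt_dense`: there is a packing which is maximum, has the smallest number of K-pieces in its rest, and
satisfies `|cl z| ≤ 15 + dns z` for every member `z` which is not rich. `VZ_ge`: the value of such a member
is at least `450` (scale `118800`).
-/

set_option autoImplicit false

namespace Pool.Agent.Hyp6

open Finset Pool.Agent.Hyp5

universe u v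

variable {V : Type v} [DecidableEq V] {ι : Type u} [Fintype ι] [DecidableEq ι] {B : ι → Finset V}

variable {U : Finset V} {F : Finset ι}

theorem cl_onl (hF : Pack B U 5 F) (hmax : ∀ F', Pack B U 5 F' → F'.card ≤ F.card) (hr : Reg B U)
    {z i : ι} (hz : z ∈ F) (hi : i ∈ cl B U F z) (hne : i ≠ z) : Onl B U F z i := by
  obtain ⟨h1, _, _⟩ := cl_facts hF hmax hr hz hi hne
  refine ⟨h1, (mem_cl.1 hi).1, fun k hk hkz => ?_⟩
  refine (mem_cl.1 hi).2.mono_right ?_
  exact inter_subset_left.trans (subset_biUnion_of_mem B (mem_erase.2 ⟨hkz, hk⟩))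

theorem sw1_eq {z i : ι} : sw1 F z i = insert i (F.erase z) := by
  ext k
  rw [mem_sw1, mem_insert, mem_erase]
  tauto

/-- the exchange of a member which is not rich keeps the number of K-pieces minimal. -/
theorem OptPack.swap (h : OptPack B U F) (hr : Reg B U) {z i : ι} (hz : z ∈ F)
    (hnr : ¬ Rich B U F z) (hi : i ∈ cl B U F z) : OptPack B U (insert i (F.erase z)) := by
  by_cases hne : i = z
  · rw [hne, insert_erase hz]
    exact h
  have honl := cl_onl h.mp.pack h.mp.max hr hz hi hne
  have h1 : MaxPack B U (sw1 F z i) := honl.sw h.mp hz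
  have h2 : kps B (Wr B U (sw1 F z i)) ⊆ kps B (Wr B U F) := by
    intro Y hY
    obtain ⟨h3, h4⟩ := mem_kps.1 hY
    rw [Wr_sw1 h.mp.pack hz] at h3
    refine mem_kps.2 ⟨fun v hv => ?_, h4⟩
    rcases mem_union.1 (mem_sdiff.1 (h3 hv)).1 with h5 | h5
    · exact h5
    · exfalso
      refine hnr ⟨Y, h4, h3.trans sdiff_subset, v, ?_⟩
      exact mem_inter.2 ⟨(mem_inter.1 h5).1, hv⟩
  rw [← sw1_eq]
  exact ⟨h1, fun F' hF' => (card_le_card h2).trans (h.min F' hF')⟩

/-- **the choice of the packing.** -/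
theorem exists_opt_dense (hr : Reg B U)
    (hcl : ∀ I : Finset ι, Clq (trc B U) I → 16 ≤ I.card →
      ∃ i ∈ I, I.card ≤ 15 + ddx (trc B U) I i) :
    ∃ F, OptPack B U F ∧
      ∀ z ∈ F, ¬ Rich B U F z → (cl B U F z).card ≤ 15 + dns B U z :=
  exists_dense (NR := fun F z => ¬ Rich B U F z) hr hcl (exists_optPack B U) (fun _ h => h.mp.pack)
    (fun _ h => h.mp.max) (fun _ h _ hz hnr _ hi => h.swap hr hz hnr hi)

open Classical in
/-- the private blocks of `z` whose trace does not lie in a part of `KA`. -/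
noncomputable def priB (B : ι → Finset V) (U : Finset V) (F : Finset ι) (KA : Finset (Finset V))
    (z : ι) : Finset ι :=
  univ.filter (fun i => Pri B U F z i ∧ ¬ ∃ C ∈ KA, B i ∩ (U \ F.biUnion B) ⊆ C)

open Classical in
/-- the blocks with five points, not in the packing, not private, without points outside the packing or
with their trace in a part of `KA`. -/
noncomputable def goodA (B : ι → Finset V) (U : Finset V) (F : Finset ι) (KA : Finset (Finset V)) :
    Finset ι :=
  (trs B U 5).filter (fun i => i ∉ F ∧ ¬ Priv B U F i ∧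
    (ww B U F i = 0 ∨ ∃ C ∈ KA, B i ∩ (U \ F.biUnion B) ⊆ C))

theorem pp_le_20 (hF : Pack B U 5 F) (hr : Reg B U) {z : ι} (hz : z ∈ F) : pp B U F z ≤ 20 := by
  classical
  have h20 := sum_inc_member hr (hF.card z hz)
  have h1 : univ.filter (fun i => Pri B U F z i) ⊆ univ.erase z := by
    intro i hi
    rw [mem_erase]
    exact ⟨fun e => (mem_filter.1 hi).2.1.1 (e ▸ hz), mem_univ _⟩
  have h2 : (univ.filter (fun i => Pri B U F z i)).card ≤
      ∑ i ∈ univ.filter (fun i => Pri B U F z i), (B i ∩ (B z ∩ U)).card := by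
    rw [card_eq_sum_ones]
    refine sum_le_sum fun i hi => card_pos.2 ?_
    obtain ⟨v, -, hvi, hvz, hvU⟩ := ((mem_filter.1 hi).2).point hz
    exact ⟨v, mem_inter.2 ⟨hvi, mem_inter.2 ⟨hvz, hvU⟩⟩⟩
  have h3 := sum_le_sum_of_subset (f := fun i => (B i ∩ (B z ∩ U)).card) h1
  have h4 : pp B U F z = (univ.filter (fun i => Pri B U F z i)).card := by
    unfold pp
    rfl
  omega

/-- **the value of a member which is not rich.** `KA` is any set of parts. -/
theorem VZ_ge (h : MaxPack B U F) (hr : Reg B U) {K : Finset (Finset V)} (hK : SepF B K)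
    (hKU : K.biUnion id = U \ F.biUnion B) {KA : Finset (Finset V)} (hKA : KA ⊆ K) {z : ι}
    (hz : z ∈ F) (hcl : (cl B U F z).card ≤ 15 + dns B U z) :
    (450 : ℤ) ≤ 9900 - 675 * (pp B U F z : ℤ) + 550 * ((priB B U F KA z).card : ℤ) +
      675 * ∑ i ∈ goodA B U F KA, (uu B U F z i : ℤ) := by
  classical
  have h0 : (0 : ℤ) ≤ ∑ i ∈ goodA B U F KA, (uu B U F z i : ℤ) :=
    sum_nonneg fun i _ => by positivity
  by_cases hp : pp B U F z ≤ 14
  · have h1 : (pp B U F z : ℤ) ≤ 14 := by exact_mod_cast hp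
    have h2 : (0 : ℤ) ≤ ((priB B U F KA z).card : ℤ) := by positivity
    linarith
  obtain ⟨C, hC, hhome⟩ := h.home hr hK hKU hz (by omega)
  by_cases hCA : C ∈ KA
  · have h1 := pp_le h hr hK hKU hz hcl hC hhome
    have h2 : good B U F C ⊆ goodA B U F KA := by
      intro i hi
      unfold good at hi
      unfold goodA
      rw [mem_filter] at hi ⊢
      refine ⟨hi.1, hi.2.1, hi.2.2.1, ?_⟩
      rcases hi.2.2.2 with g | g
      · exact Or.inl g
      · exact Or.inr ⟨C, hCA, g⟩
    have h3 := sum_le_sum_of_subset (f := fun i => uu B U F z i) h2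
    have h4 : pp B U F z ≤ 14 + ∑ i ∈ goodA B U F KA, uu B U F z i := by omega
    have h5 : (pp B U F z : ℤ) ≤ 14 + ∑ i ∈ goodA B U F KA, (uu B U F z i : ℤ) := by
      exact_mod_cast h4
    have h6 : (0 : ℤ) ≤ ((priB B U F KA z).card : ℤ) := by positivity
    linarith
  · have h1 : univ.filter (fun i => Pri B U F z i) ⊆ priB B U F KA z := by
      intro i hi
      unfold priB
      rw [mem_filter] at hi ⊢
      refine ⟨mem_univ _, hi.2, ?_⟩
      rintro ⟨D, hD, hDi⟩
      have g1 := hh_add_ww (B := B) U F i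
      have g2 := hi.2.1.2.1
      have g3 := hi.2.1.2.2
      have g4 : 0 < (B i ∩ (U \ F.biUnion B)).card := by
        have : (B i ∩ (U \ F.biUnion B)).card = ww B U F i := rfl
        omega
      obtain ⟨v, hv⟩ := card_pos.1 g4
      exact hCA (part_eq hK hC (hKA hD) (hhome i hi.2 hv) (hDi hv) ▸ hD)
    have h2 := card_le_card h1
    have h3 : pp B U F z = (univ.filter (fun i => Pri B U F z i)).card := by
      unfold pp
      rfl
    have h4 := pp_le_20 h.pack hr hz
    have h5 : (pp B U F z : ℤ) ≤ ((priB B U F KA z).card : ℤ) := by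
      rw [h3]; exact_mod_cast h2
    have h6 : (pp B U F z : ℤ) ≤ 20 := by exact_mod_cast h4
    linarith

end Pool.Agent.Hyp6
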