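import Pool.Agent.Hyp6.KP2
import Pool.Agent.Hyp6.OVA
import Pool.Agent.Hyp6.E6
import Pool.Agent.Hyp6.Opt

/-!
# HYP6 KD2: K-doubles and touching private blocks at a rich member (owner helper96)

`KDb`: the blocks with five points in `U`, two of them in the packing, which meet a K-piece of the rest.
`kk z`: their incidences with the member `z`. `tps z`: the private blocks of `z` which meet a K-piece of the
rest. `NoOv`: K-pieces of the rest and K-pieces meeting a member are disjoint.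
-/

set_option autoImplicit false

namespace Pool.Agent.Hyp6

open Finset Pool.Agent.Hyp5

universe u v

variable {V : Type v} [DecidableEq V] {ι : Type u} [Fintype ι]

/-- K-pieces of the rest are disjoint from the K-pieces which meet one member. -/
def NoOv (B : ι → Finset V) (U : Finset V) (F : Finset ι) : Prop :=
  ∀ z ∈ F, ∀ X ∈ kps B (Wr B U F), ∀ Y, KP B Y → Y ⊆ Wr B U F ∪ (B z ∩ U) →
    (B z ∩ Y).Nonempty → Disjoint X Y

open Classical in
/-- the K-doubles. -/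
noncomputable def KDb (B : ι → Finset V) (U : Finset V) (F : Finset ι) : Finset ι :=
  univ.filter (fun b => b ∉ F ∧ (B b ∩ U).card = 5 ∧ hh B U F b = 2 ∧
    ∃ X ∈ kps B (Wr B U F), (B b ∩ X).Nonempty)

/-- the incidences of the K-doubles with `z`. -/
noncomputable def kk (B : ι → Finset V) (U : Finset V) (F : Finset ι) (z : ι) : ℕ :=
  ∑ b ∈ KDb B U F, (trc B U z ∩ trc B U b).card

open Classical in
/-- the private blocks of `z` meeting a K-piece of the rest. -/
noncomputable def tps (B : ι → Finset V) (U : Finset V) (F : Finset ι) (z : ι) : Finset ι :=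
  univ.filter (fun i => Pri B U F z i ∧ ∃ X ∈ kps B (Wr B U F), (B i ∩ X).Nonempty)

open Classical in
/-- the number of private blocks of `z` avoiding the points of `b` in `z`. -/
noncomputable def vv (B : ι → Finset V) (U : Finset V) (F : Finset ι) (z b : ι) : ℕ :=
  (univ.filter (fun n => Pri B U F z n ∧ Disjoint (B n) (trc B U z ∩ trc B U b))).card

/-- the payment of a K-double. -/
def cK (n : ℕ) : ℕ :=
  if n = 0 then 0 else if n ≤ 6 then 105 else if n = 7 then 135 else if n = 8 then 180 else 420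

open Classical in
/-- the payments received by the member `z`. -/
noncomputable def rcv (B : ι → Finset V) (U : Finset V) (F : Finset ι) (z : ι) : ℕ :=
  ∑ b ∈ KDb B U F, if (trc B U z ∩ trc B U b).Nonempty then cK (vv B U F z b) else 0

open Classical in
/-- the payments made by the member `z`. -/
noncomputable def dem (B : ι → Finset V) (U : Finset V) (F : Finset ι) (z : ι) : ℕ :=
  ∑ b ∈ KDb B U F, ∑ z' ∈ F.filter (fun z' => ¬ Rich B U F z'),
    if (trc B U z ∩ trc B U b).Nonempty ∧ (trc B U z' ∩ trc B U b).Nonempty then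
      cK (vv B U F z' b) else 0

variable {B : ι → Finset V} {U : Finset V} {F : Finset ι}

omit [Fintype ι] in
theorem wr_or {v : V} (hv : v ∈ U) : v ∈ Wr B U F ∨ ∃ k ∈ F, v ∈ B k := by
  by_cases h : ∃ k ∈ F, v ∈ B k
  · exact Or.inr h
  · push Not at h
    exact Or.inl (mem_Wr.2 ⟨hv, h⟩)

theorem mem_KDb {b : ι} : b ∈ KDb B U F ↔ b ∉ F ∧ (B b ∩ U).card = 5 ∧ hh B U F b = 2 ∧
    ∃ X ∈ kps B (Wr B U F), (B b ∩ X).Nonempty := by
  simp [KDb]

theorem mem_tps {z i : ι} : i ∈ tps B U F z ↔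
    Pri B U F z i ∧ ∃ X ∈ kps B (Wr B U F), (B i ∩ X).Nonempty := by
  simp [tps]

omit [Fintype ι] in
theorem mem_trc2 {z b : ι} {v : V} : v ∈ trc B U z ∩ trc B U b ↔ v ∈ B z ∧ v ∈ B b ∧ v ∈ U := by
  unfold trc
  rw [mem_inter, mem_inter, mem_inter]
  tauto

omit [Fintype ι] in
/-- the only point of a private block outside the rest. -/
theorem Pri.pt {z i : ι} (hz : z ∈ F) (h : Pri B U F z i) :
    ∃ u, u ∈ B i ∧ u ∈ B z ∧ u ∈ U ∧ ∀ v ∈ B i, v ∈ U → v ∉ Wr B U F → v = u := by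
  obtain ⟨u, h1, h2, h3, h4⟩ := h.point hz
  refine ⟨u, h2, h3, h4, fun v hv hvU hvW => ?_⟩
  rcases wr_or (B := B) (F := F) hvU with h5 | ⟨k, hk, hvk⟩
  · exact absurd h5 hvW
  · have : v ∈ B i ∩ (F.biUnion B ∩ U) :=
      mem_inter.2 ⟨hv, mem_inter.2 ⟨mem_biUnion.2 ⟨k, hk, hvk⟩, hvU⟩⟩
    rw [h1] at this
    exact mem_singleton.1 this

/-- a rich member with its K-piece. -/
structure RY (B : ι → Finset V) (U : Finset V) (F : Finset ι) (z : ι) (Y : Finset V) : Prop where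
  h : OptPack B U F
  hr : Reg B U
  h5 : ∀ i, (B i ∩ U).card ≤ 5
  ov : NoOv B U F
  at' : RichAt B U F z Y

variable [DecidableEq ι]

namespace RY

variable {z : ι} {Y : Finset V}

theorem hz (r : RY B U F z Y) : z ∈ F := r.at'.zF

theorem subU (r : RY B U F z Y) : Y ⊆ U := r.at'.subU

theorem rY (r : RY B U F z Y) : Reg B Y := r.hr.mono r.subU

theorem tY (r : RY B U F z Y) {i : ι} (hi : (B i ∩ Y).Nonempty) : (B i ∩ Y).card = 3 :=
  r.at'.kp.trace r.rY hi

theorem zY (r : RY B U F z Y) : (B z ∩ Y).card = 3 := r.tY r.at'.meet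

theorem notWr (r : RY B U F z Y) {v : V} (hv : v ∈ B z) : v ∉ Wr B U F := fun h =>
  (mem_Wr.1 h).2 z r.hz hv

/-- a block of `Y` avoids the K-pieces of the rest. -/
theorem noX (r : RY B U F z Y) {i : ι} (hi : (B i ∩ Y).Nonempty) {X : Finset V}
    (hX : X ∈ kps B (Wr B U F)) : ¬ (B i ∩ X).Nonempty := by
  intro hiX
  have h1 := mem_kps.1 hX
  have h2 := kk_meet r.hr r.h5 h1.2 r.at'.kp (h1.1.trans Wr_sub) r.subU hiX hi
  have h3 := r.ov z r.hz X hX Y r.at'.kp r.at'.sub r.at'.meet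
  rw [disjoint_iff_inter_eq_empty] at h3
  rw [h3, inter_empty] at h2
  exact not_nonempty_empty h2

/-- the two other points of a private block of `Y`. -/
theorem pair (r : RY B U F z Y) {i : ι} (hi : i ∈ prY B U F z Y) :
    ∃ s t, (B i ∩ U) \ Y = {s, t} ∧ s ∈ U ∧ t ∈ U := by
  obtain ⟨h1, _⟩ := prY_two r.hr r.at' hi
  obtain ⟨s, t, _, he⟩ := card_eq_two.1 h1
  have h2 : s ∈ (B i ∩ U) \ Y := by rw [he]; exact mem_insert_self _ _
  have h3 : t ∈ (B i ∩ U) \ Y := by rw [he]; exact mem_insert_of_mem (mem_singleton_self _)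
  exact ⟨s, t, he, (mem_inter.1 (mem_sdiff.1 h2).1).2, (mem_inter.1 (mem_sdiff.1 h3).1).2⟩

omit [DecidableEq ι] in
theorem ab_disj : Disjoint (prY B U F z Y) (prN B U F z Y) := by
  rw [Finset.disjoint_left]
  intro i hi hi'
  exact (mem_prN.1 hi').2 (mem_prY.1 hi).2

/-- the touching private blocks are outside `Y`. -/
theorem tps_sub (r : RY B U F z Y) : tps B U F z ⊆ prN B U F z Y := by
  intro i hi
  obtain ⟨h1, X, hX, hiX⟩ := mem_tps.1 hi
  exact mem_prN.2 ⟨h1, fun h => r.noX h hX hiX⟩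

/-- the outer point of a touching private block. -/
theorem touch (r : RY B U F z Y) {t : ι} (ht : t ∈ tps B U F z) :
    ∃ x, x ∈ B t ∧ x ∈ Wr B U F ∧ ∀ j v, (∀ X ∈ kps B (Wr B U F), ¬ (B j ∩ X).Nonempty) →
      v ∈ B t → v ∈ B j → v ∈ Wr B U F → v = x := by
  obtain ⟨h1, X, hX, hiX⟩ := mem_tps.1 ht
  obtain ⟨hXW, hXK⟩ := mem_kps.1 hX
  have h2 := hXK.trace (r.hr.mono (hXW.trans Wr_sub)) hiX
  have h3 := hh_add_ww (B := B) U F t
  have h4 : (B t ∩ Wr B U F).card = 4 := by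
    have e : ww B U F t = (B t ∩ Wr B U F).card := rfl
    have := h1.1.2.1
    have := h1.1.2.2
    omega
  have h5 := card_sdiff_add_card_inter (B t ∩ Wr B U F) X
  have h6 : (B t ∩ Wr B U F) ∩ X = B t ∩ X := by rw [inter_assoc, inter_eq_right.2 hXW]
  rw [h6] at h5
  obtain ⟨x, hx⟩ := card_eq_one.1 (show ((B t ∩ Wr B U F) \ X).card = 1 by omega)
  have h7 : x ∈ (B t ∩ Wr B U F) \ X := by rw [hx]; exact mem_singleton_self _
  rw [mem_sdiff, mem_inter] at h7
  refine ⟨x, h7.1.1, h7.1.2, fun j v hj hvt hvj hvW => ?_⟩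
  have h8 : v ∈ (B t ∩ Wr B U F) \ X := by
    rw [mem_sdiff, mem_inter]
    exact ⟨⟨hvt, hvW⟩, fun h => hj X hX ⟨v, mem_inter.2 ⟨hvj, h⟩⟩⟩
  rw [hx] at h8
  exact mem_singleton.1 h8

/-- the outer point of a touching private block lies in all blocks of `prY`. -/
theorem touch_aa (r : RY B U F z Y) {t : ι} (ht : t ∈ tps B U F z) :
    ∃ x, x ∈ B t ∧ x ∈ Wr B U F ∧ (∀ i ∈ prY B U F z Y, x ∈ (B i ∩ U) \ Y) ∧
      ∀ j v, (∀ X ∈ kps B (Wr B U F), ¬ (B j ∩ X).Nonempty) →
      v ∈ B t → v ∈ B j → v ∈ Wr B U F → v = x := by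
  obtain ⟨x, h1, h2, h3⟩ := r.touch ht
  refine ⟨x, h1, h2, fun i hi => ?_, h3⟩
  obtain ⟨v, hv⟩ := star_pri r.h.mp r.hr r.at' hi (r.tps_sub ht)
  rw [mem_inter] at hv
  have h5 := (prY_two r.hr r.at' hi).2 hv.1
  have h4 := h3 i v (fun X hX => r.noX (mem_prY.1 hi).2 hX) hv.2
    (mem_inter.1 (mem_sdiff.1 hv.1).1).1 h5
  rw [← h4]
  exact hv.1

/-- the class of the touching private blocks through `s`. -/
theorem class_le (r : RY B U F z Y) {s : V} (hs : s ∈ U) {T : Finset ι} (hT : T ⊆ tps B U F z)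
    (h1 : ∀ t ∈ T, s ∈ B t ∧ ∀ i ∈ prY B U F z Y, s ∈ B i) :
    T.card ≤ 5 - (prY B U F z Y).card := by
  rcases T.eq_empty_or_nonempty with rfl | ⟨t, ht⟩
  · simp
  · have h2 : (prY B U F z Y ∪ T).card ≤ 5 := by
      rw [← r.hr s hs]
      refine card_le_card fun i hi => mem_filter.2 ⟨mem_univ _, ?_⟩
      rcases mem_union.1 hi with hi | hi
      · exact (h1 t ht).2 i hi
      · exact (h1 i hi).1
    rw [card_union_of_disjoint (disjoint_of_subset_right (hT.trans r.tps_sub) ab_disj)] at h2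
    omega

/-- the touching private blocks when there is a private block of `Y`. -/
theorem tps_split (r : RY B U F z Y) (ha : 1 ≤ (prY B U F z Y).card) :
    ∃ s s', s ∈ U ∧ s' ∈ U ∧ ∃ T T' : Finset ι, tps B U F z = T ∪ T' ∧
      (∀ t ∈ T, s ∈ B t ∧ (∀ i ∈ prY B U F z Y, s ∈ B i) ∧
        ∀ j v, (∀ X ∈ kps B (Wr B U F), ¬ (B j ∩ X).Nonempty) →
      v ∈ B t → v ∈ B j → v ∈ Wr B U F → v = s) ∧
      (∀ t ∈ T', s' ∈ B t ∧ (∀ i ∈ prY B U F z Y, s' ∈ B i) ∧
        ∀ j v, (∀ X ∈ kps B (Wr B U F), ¬ (B j ∩ X).Nonempty) →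
      v ∈ B t → v ∈ B j → v ∈ Wr B U F → v = s') := by
  classical
  obtain ⟨i, hi⟩ := card_pos.1 ha
  obtain ⟨s, s', he, hs, hs'⟩ := r.pair hi
  have : Nonempty V := ⟨s⟩
  choose! x hx using fun t (ht : t ∈ tps B U F z) => r.touch_aa ht
  refine ⟨s, s', hs, hs',
    (tps B U F z).filter (fun t => x t = s), (tps B U F z).filter (fun t => x t = s'), ?_, ?_, ?_⟩
  · ext t
    rw [mem_union, mem_filter, mem_filter]
    constructor
    · intro ht
      have := (hx t ht).2.2.1 i hi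
      rw [he, mem_insert, mem_singleton] at this
      tauto
    · rintro (h | h) <;> exact h.1
  · intro t ht
    rw [mem_filter] at ht
    have h1 := hx t ht.1
    rw [ht.2] at h1
    exact ⟨h1.1, fun i hi => (mem_inter.1 (mem_sdiff.1 (h1.2.2.1 i hi)).1).1, h1.2.2.2⟩
  · intro t ht
    rw [mem_filter] at ht
    have h1 := hx t ht.1
    rw [ht.2] at h1
    exact ⟨h1.1, fun i hi => (mem_inter.1 (mem_sdiff.1 (h1.2.2.1 i hi)).1).1, h1.2.2.2⟩

theorem tps_le (r : RY B U F z Y) (ha : 1 ≤ (prY B U F z Y).card) :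
    (tps B U F z).card ≤ 2 * (5 - (prY B U F z Y).card) := by
  obtain ⟨s, s', hs, hs', T, T', he, h1, h2⟩ := r.tps_split ha
  have h3 := r.class_le hs (T := T) (by rw [he]; exact subset_union_left)
    (fun t ht => ⟨(h1 t ht).1, (h1 t ht).2.1⟩)
  have h4 := r.class_le hs' (T := T') (by rw [he]; exact subset_union_right)
    (fun t ht => ⟨(h2 t ht).1, (h2 t ht).2.1⟩)
  have h5 := card_union_le T T'
  rw [← he] at h5
  omega

end RY

end Pool.Agent.Hyp6
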