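import Pool.Agent.Hyp6.KD2

/-!
# HYP6 KD3: the counts at a rich member (owner helper96)
-/

set_option autoImplicit false

namespace Pool.Agent.Hyp6

open Finset Pool.Agent.Hyp5

universe u v

variable {V : Type v} [DecidableEq V] {ι : Type u} [Fintype ι] [DecidableEq ι]

variable {B : ι → Finset V} {U : Finset V} {F : Finset ι}

open Classical in
/-- the blocks outside the packing which are not private. -/
noncomputable def NP (B : ι → Finset V) (U : Finset V) (F : Finset ι) : Finset ι :=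
  (univ \ F).filter (fun i => ¬ Priv B U F i)

theorem mem_NP {i : ι} : i ∈ NP B U F ↔ i ∉ F ∧ ¬ Priv B U F i := by
  simp [NP]

namespace RY

variable {z : ι} {Y : Finset V}

/-- two points of `z` outside `Y`. -/
theorem out_card (r : RY B U F z Y) : ((B z ∩ U) \ Y).card = 2 := by
  have h1 := card_sdiff_add_card_inter (B z ∩ U) Y
  have h2 : (B z ∩ U) ∩ Y = B z ∩ Y := by rw [inter_assoc, inter_eq_right.2 r.subU]
  rw [h2, r.zY, r.h.mp.pack.card z r.hz] at h1
  omega

theorem prN_one (r : RY B U F z Y) {i : ι} (hi : i ∈ prN B U F z Y) :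
    1 ≤ (B i ∩ ((B z ∩ U) \ Y)).card := by
  rw [mem_prN] at hi
  obtain ⟨u, h1, h2, h3, _⟩ := hi.1.pt r.hz
  refine card_pos.2 ⟨u, ?_⟩
  rw [mem_inter, mem_sdiff, mem_inter]
  exact ⟨h1, ⟨h2, h3⟩, fun h => hi.2 ⟨u, mem_inter.2 ⟨h1, h⟩⟩⟩

/-- the blocks at the two points of `z` outside `Y`. -/
theorem out_le (r : RY B U F z Y) {N' : Finset ι} (h1 : z ∉ N')
    (h2 : Disjoint N' (prN B U F z Y)) :
    ∑ i ∈ N', (B i ∩ ((B z ∩ U) \ Y)).card + (prN B U F z Y).card ≤ 8 := by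
  set O := (B z ∩ U) \ Y with hO
  have hzN : z ∉ prN B U F z Y := fun h => (mem_prN.1 h).1.1.1 r.hz
  have hrO : Reg B O := r.hr.mono (sdiff_subset.trans inter_subset_right)
  have h3 := sum_inc hrO
  rw [hO, r.out_card, ← hO] at h3
  have h4 : ∑ i ∈ insert z (N' ∪ prN B U F z Y), (B i ∩ O).card ≤ ∑ i, (B i ∩ O).card :=
    sum_le_sum_of_subset (subset_univ _)
  rw [sum_insert (by rw [mem_union, not_or]; exact ⟨h1, hzN⟩), sum_union h2] at h4
  have h5 : (B z ∩ O).card = 2 := by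
    rw [← r.out_card, ← hO]
    congr 1
    ext v
    rw [hO, mem_inter, mem_sdiff, mem_inter]
    tauto
  have h6 : (prN B U F z Y).card ≤ ∑ i ∈ prN B U F z Y, (B i ∩ O).card := by
    rw [card_eq_sum_ones]
    exact sum_le_sum fun i hi => r.prN_one hi
  omega

theorem kb_le (r : RY B U F z Y) : kk B U F z + (prN B U F z Y).card ≤ 8 := by
  have h1 : z ∉ KDb B U F := fun h => (mem_KDb.1 h).1 r.hz
  have h2 : Disjoint (KDb B U F) (prN B U F z Y) := by
    rw [Finset.disjoint_left]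
    intro i hi hi'
    have := (mem_KDb.1 hi).2.2.1
    have := (mem_prN.1 hi').1.1.2.2
    omega
  have h3 := r.out_le h1 h2
  have h4 : kk B U F z = ∑ i ∈ KDb B U F, (B i ∩ ((B z ∩ U) \ Y)).card := by
    unfold kk
    refine sum_congr rfl fun b hb => ?_
    congr 1
    ext v
    rw [mem_trc2, mem_inter, mem_sdiff, mem_inter]
    constructor
    · rintro ⟨g1, g2, g3⟩
      refine ⟨g2, ⟨g1, g3⟩, fun g4 => ?_⟩
      obtain ⟨_, _, _, X, hX, hbX⟩ := mem_KDb.1 hb
      exact r.noX ⟨v, mem_inter.2 ⟨g2, g4⟩⟩ hX hbX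
    · rintro ⟨g1, ⟨g2, g3⟩, _⟩
      exact ⟨g2, g1, g3⟩
  omega

/-- the trace of a block of `Y`. -/
theorem split3 (r : RY B U F z Y) {C : ι} (hC : (B C ∩ Y).Nonempty) :
    (B C ∩ (Y \ B z)).card + (B C ∩ Y ∩ B z).card = 3 := by
  have h1 := card_sdiff_add_card_inter (B C ∩ Y) (B z)
  rw [r.tY hC] at h1
  have h2 : (B C ∩ Y) \ B z = B C ∩ (Y \ B z) := by
    ext v
    simp only [mem_inter, mem_sdiff]
    tauto
  rw [h2] at h1
  exact h1

/-- a block of `Y` other than `z` with at least two points of `Y` in `z`. -/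
theorem np (r : RY B U F z Y) {C : ι} (hCz : C ≠ z) (h2 : 2 ≤ (B C ∩ Y ∩ B z).card) :
    C ∈ NP B U F ∧ (B C ∩ Y ∩ B z).card ≤ (trc B U z ∩ trc B U C).card := by
  have h3 : B C ∩ Y ∩ B z ⊆ trc B U z ∩ trc B U C := by
    intro v hv
    rw [mem_inter, mem_inter] at hv
    exact mem_trc2.2 ⟨hv.2, hv.1.1, r.subU hv.1.2⟩
  have h4 := card_le_card h3
  have h5 : (trc B U z ∩ trc B U C).card ≤ hh B U F C := by
    rw [hh_eq_sum r.h.mp.pack]
    exact single_le_sum (f := fun z => (trc B U z ∩ trc B U C).card) (fun _ _ => Nat.zero_le _) r.hz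
  refine ⟨mem_NP.2 ⟨fun hF => ?_, fun hP => ?_⟩, h4⟩
  · have h6 := r.h.mp.pack.disj z r.hz C hF hCz.symm
    rw [disjoint_iff_inter_eq_empty] at h6
    have h7 : trc B U z ∩ trc B U C = ∅ := h6
    rw [h7, card_empty] at h4
    omega
  · have := hP.2.2
    omega

/-- a private block of `Y` has one point of `Y` in `z`. -/
theorem prY_one (r : RY B U F z Y) {i : ι} (hi : i ∈ prY B U F z Y) :
    (B i ∩ Y ∩ B z).card = 1 := by
  rw [mem_prY] at hi
  obtain ⟨u, _, _, _, hu⟩ := hi.1.pt r.hz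
  obtain ⟨v, h1, h2, h3⟩ := r.at'.hit r.hr hi.2
  rw [card_eq_one]
  refine ⟨v, ?_⟩
  ext w
  rw [mem_inter, mem_inter, mem_singleton]
  constructor
  · rintro ⟨⟨g1, g2⟩, g3⟩
    rw [hu w g1 (r.subU g2) (r.notWr g3), hu v h1 (r.subU h3) (r.notWr h2)]
  · rintro rfl
    exact ⟨⟨h1, h3⟩, h2⟩

/-- the number of private blocks of `Y`. -/
theorem prY_le (r : RY B U F z Y) : (prY B U F z Y).card ≤ 5 + mt B Y (B z ∩ Y) := by
  rw [← (r.at'.kp.k0 r.rY r.at'.meet).2.1]
  refine card_le_card fun i hi => mem_filter.2 ⟨mem_univ _, ?_⟩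
  have h1 := r.split3 (mem_prY.1 hi).2
  have h2 := r.prY_one hi
  omega

theorem mt_le2 (r : RY B U F z Y) : mt B Y (B z ∩ Y) ≤ 2 :=
  r.at'.kp.mt_le r.rY r.at'.meet

/-- a second block with the same trace. -/
theorem second (r : RY B U F z Y) (h : mt B Y (B z ∩ Y) = 2) :
    ∃ q, q ≠ z ∧ B q ∩ Y = B z ∩ Y ∧ 3 ≤ (B q ∩ Y ∩ B z).card := by
  unfold mt at h
  obtain ⟨q, hq, hqz⟩ := exists_mem_ne (by omega : 1 < (univ.filter (fun i => B i ∩ Y = B z ∩ Y)).card) z
  have h1 := (mem_filter.1 hq).2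
  refine ⟨q, hqz, h1, ?_⟩
  rw [h1, ← r.zY]
  refine card_le_card fun v hv => ?_
  rw [mem_inter]
  exact ⟨hv, (mem_inter.1 hv).1⟩

/-- the extra credit when there are seven private blocks of `Y`. -/
theorem uu_seven (r : RY B U F z Y) (h : mt B Y (B z ∩ Y) = 2) :
    1 ≤ ∑ i ∈ NP B U F, uu B U F z i := by
  obtain ⟨q, hqz, _, hq3⟩ := r.second h
  obtain ⟨h1, h2⟩ := r.np hqz (by omega)
  have h3 : 1 ≤ uu B U F z q := by
    unfold uu sx
    split_ifs <;> omega
  exact h3.trans (single_le_sum (f := fun i => uu B U F z i) (fun _ _ => Nat.zero_le _) h1)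

/-- in the extreme case the blocks of `Y` with two points in `z` meet another member. -/
theorem not_cl (r : RY B U F z Y) (ha : 1 ≤ (prY B U F z Y).card)
    (ht : (tps B U F z).card = 8) {C : ι} (hCz : C ≠ z) (h2 : 2 ≤ (B C ∩ Y ∩ B z).card) :
    C ∉ cl B U F z := by
  intro hcl
  have hCY : (B C ∩ Y).Nonempty := by
    obtain ⟨v, hv⟩ := card_pos.1 (show 0 < (B C ∩ Y ∩ B z).card by omega)
    exact ⟨v, (mem_inter.1 hv).1⟩
  have hpr8 : 8 ≤ (prN B U F z Y).card := by
    rw [← ht]; exact card_le_card r.tps_sub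
  have hCN : C ∉ prN B U F z Y := fun h => (mem_prN.1 h).2 hCY
  have hO : (B C ∩ ((B z ∩ U) \ Y)).card = 0 := by
    have := r.out_le (N' := {C}) (by rw [mem_singleton]; exact hCz.symm)
      (disjoint_singleton_left.2 hCN)
    rw [sum_singleton] at this
    omega
  have honl := cl_onl r.h.mp.pack r.h.mp.max r.hr r.hz hcl hCz
  have hC1 : ¬ Priv B U F C := by
    intro hP
    have h3 := (r.np hCz h2).1
    exact (mem_NP.1 h3).2 hP
  -- every touching block meets `C` in its outer point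
  have key : ∀ t ∈ tps B U F z, ∀ x, (∀ j v, (∀ X ∈ kps B (Wr B U F), ¬ (B j ∩ X).Nonempty) →
      v ∈ B t → v ∈ B j → v ∈ Wr B U F → v = x) → x ∈ B C := by
    intro t htt x hx
    have ht1 := (mem_tps.1 htt).1
    have h3 := r.h.mp.onl_meet r.hz honl (ht1.onl r.h.mp.pack r.hz)
    rw [disjoint_iff_inter_eq_empty, ← ne_eq, ← nonempty_iff_ne_empty] at h3
    obtain ⟨v, hv⟩ := h3
    simp only [mem_inter] at hv
    have hvW : v ∈ Wr B U F := by
      by_contra hcon
      obtain ⟨u, hu1, hu2, hu3, hu⟩ := ht1.pt r.hz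
      have h4 := hu v hv.2.1 hv.1.2 hcon
      have h5 : v ∈ B C ∩ ((B z ∩ U) \ Y) := by
        rw [mem_inter, mem_sdiff, mem_inter]
        refine ⟨hv.1.1, ⟨by rw [h4]; exact hu2, hv.1.2⟩, fun h6 => ?_⟩
        exact (mem_prN.1 (r.tps_sub htt)).2 ⟨v, mem_inter.2 ⟨hv.2.1, h6⟩⟩
      have := card_pos.2 ⟨v, h5⟩
      omega
    have h6 := hx C v (fun X hX => r.noX hCY hX) hv.2.1 hv.1.1 hvW
    rw [← h6]
    exact hv.1.1
  obtain ⟨i0, hi0⟩ := card_pos.1 ha
  obtain ⟨s, s', hs, hs', T, T', he, h3, h4⟩ := r.tps_split ha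
  have main : ∀ s ∈ U, ∀ T ⊆ tps B U F z, 4 ≤ T.card →
      (∀ t ∈ T, s ∈ B t ∧ (∀ i ∈ prY B U F z Y, s ∈ B i) ∧
        ∀ j v, (∀ X ∈ kps B (Wr B U F), ¬ (B j ∩ X).Nonempty) →
      v ∈ B t → v ∈ B j → v ∈ Wr B U F → v = s) → False := by
    intro s hs T hT hT4 h3
    obtain ⟨t, ht'⟩ := card_pos.1 (show 0 < T.card by omega)
    have h5 : s ∈ B C := key t (hT ht') s (h3 t ht').2.2
    have h6 : (insert C (insert i0 T)).card ≤ 5 := by
      rw [← r.hr s hs]
      refine card_le_card fun i hi => mem_filter.2 ⟨mem_univ _, ?_⟩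
      rcases mem_insert.1 hi with rfl | hi
      · exact h5
      rcases mem_insert.1 hi with rfl | hi
      · exact (h3 t ht').2.1 i hi0
      · exact (h3 i hi).1
    have h7 : i0 ∉ T := fun h => (mem_prN.1 (r.tps_sub (hT h))).2 (mem_prY.1 hi0).2
    have h8 : C ∉ insert i0 T := by
      rw [mem_insert, not_or]
      refine ⟨?_, fun h => hCN (r.tps_sub (hT h))⟩
      rintro rfl
      exact hC1 (mem_prY.1 hi0).1.1
    rw [card_insert_of_notMem h8, card_insert_of_notMem h7] at h6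
    omega
  have h5 := card_union_le T T'
  rw [← he, ht] at h5
  by_cases h6 : 4 ≤ T.card
  · exact main s hs T (by rw [he]; exact subset_union_left) h6 h3
  · exact main s' hs' T' (by rw [he]; exact subset_union_right) (by omega) h4

/-- the extra credit in the extreme case. -/
theorem uu_ext (r : RY B U F z Y) (ha : 1 ≤ (prY B U F z Y).card)
    (ht : (tps B U F z).card = 8) : 2 ≤ ∑ i ∈ NP B U F, uu B U F z i := by
  have h0 := r.mt_le2
  have h1 := mt_self (B := B) (X := Y) z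
  rcases (by omega : mt B Y (B z ∩ Y) = 1 ∨ mt B Y (B z ∩ Y) = 2) with h | h
  · have h2 := (r.at'.kp.k0 r.rY r.at'.meet).1
    rw [h] at h2
    have h3 : ∀ C ∈ univ.filter (fun j => (B j ∩ (Y \ B z)).card = 1),
        C ≠ z ∧ 2 ≤ (B C ∩ Y ∩ B z).card := by
      intro C hC
      have h4 := (mem_filter.1 hC).2
      have hCY : (B C ∩ Y).Nonempty := by
        obtain ⟨v, hv⟩ := card_pos.1 (show 0 < (B C ∩ (Y \ B z)).card by omega)
        rw [mem_inter, mem_sdiff] at hv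
        exact ⟨v, mem_inter.2 ⟨hv.1, hv.2.1⟩⟩
      have h5 := r.split3 hCY
      refine ⟨?_, by omega⟩
      rintro rfl
      have : B C ∩ (Y \ B C) = ∅ := by
        ext v
        simp only [mem_inter, mem_sdiff, notMem_empty, iff_false]
        tauto
      rw [this, card_empty] at h4
      omega
    have h6 : ∑ C ∈ univ.filter (fun j => (B j ∩ (Y \ B z)).card = 1), 1 ≤
        ∑ C ∈ univ.filter (fun j => (B j ∩ (Y \ B z)).card = 1), uu B U F z C := by
      refine sum_le_sum fun C hC => ?_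
      obtain ⟨g1, g2⟩ := h3 C hC
      have g3 := r.not_cl ha ht g1 g2
      have g4 := (r.np g1 g2).2
      unfold uu sx
      rw [if_neg g3]
      omega
    have h7 : ∑ C ∈ univ.filter (fun j => (B j ∩ (Y \ B z)).card = 1), uu B U F z C ≤
        ∑ i ∈ NP B U F, uu B U F z i := by
      refine sum_le_sum_of_subset fun C hC => ?_
      obtain ⟨g1, g2⟩ := h3 C hC
      exact (r.np g1 g2).1
    rw [← card_eq_sum_ones] at h6
    omega
  · obtain ⟨q, hqz, _, hq3⟩ := r.second h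
    obtain ⟨h2, h3⟩ := r.np hqz (by omega)
    have h4 := r.not_cl ha ht hqz (by omega)
    have h5 : 2 ≤ uu B U F z q := by
      unfold uu sx
      rw [if_neg h4]
      omega
    exact h5.trans (single_le_sum (f := fun i => uu B U F z i) (fun _ _ => Nat.zero_le _) h2)

end RY

end Pool.Agent.Hyp6
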