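import Pool.Agent.Hyp6.L4H

/-!
# HYP6 KDH: the inequality (H2) for the components at level 5 (owner helper96)

Mode A: the value of the component pays for the touchable blocks without the short traces; mode B: with the
short traces it gives one unit to each block with four points which meets no K-piece.
-/

set_option autoImplicit false

namespace Pool.Agent.Hyp6

open Finset Pool.Agent.Hyp5

universe u v

variable {V : Type v} [DecidableEq V] {ι : Type u} [Fintype ι] {B : ι → Finset V} {M : Finset V}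

/-- mode A. -/
def MdA (B : ι → Finset V) (M : Finset V) : Prop :=
  9 * ((JS B M).card : ℤ) ≤ 90 * Pv B M + 180 * (kap B M : ℤ)

/-- mode B. -/
def MdB (B : ι → Finset V) (M : Finset V) : Prop :=
  10 * (nt B M 4 : ℤ) ≤ 90 * Pv B M + 10 * (NN B M : ℤ) + 180 * (kap B M : ℤ) +
    ((JS B M).card : ℤ)

/-- the inequality (H2). -/
theorem ineqH2 (hL3 : L3e.{u} V) (hQA : QA.{u} V) (hr : Reg B M) (h4 : Tr4 B M) (hHD : HD B M)
    (hM : Conn (gr B) M) : MdA B M ∨ MdB B M := by
  classical
  obtain ⟨Pk, hPk, hJ⟩ := exists_pkmatch hr h4 hHD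
  obtain ⟨p1, p2, p3⟩ := T0P1 hL3 hQA B M hr h4 hHD hM Pk hPk
  have hk := hPk.kap_le hHD hr h4
  have hN := four_NN hr h4
  have c1 : (kap B (M \ Pk.biUnion B) : ℤ) + Pk.card ≤ kap B M := by exact_mod_cast hk
  have c2 : ((JS B M).card : ℤ) ≤ 10 * Pk.card := by exact_mod_cast hJ
  have c4 : (0 : ℤ) ≤ NN B M := by positivity
  have c5 : (0 : ℤ) ≤ kap B (M \ Pk.biUnion B) := by positivity
  have hR : R1 B M Pk = Pv B M + 2 * (kap B (M \ Pk.biUnion B) : ℤ) + (Pk.card : ℤ) := rfl
  unfold MdA MdB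
  by_cases h0 : 0 ≤ R1 B M Pk
  · left
    linarith
  · have h1 : R1 B M Pk = -1 := by omega
    obtain ⟨s1, s2⟩ := p3 h1
    have h2 : ¬ 1 ≤ kap B (M \ Pk.biUnion B) := fun h3 => h0 (p2 h3)
    have h3 : ¬ Pk.card < kap B M := fun h3 => h2 (hPk.kap_pos hHD hr h4 h3)
    have h5 : kap B (M \ Pk.biUnion B) = 0 := by omega
    have h6 : kap B M = Pk.card := by omega
    rw [h5] at hR
    rw [h6]
    have c6 : 7 * (Pk.card : ℤ) + 3 ≤ M.card := by exact_mod_cast s2
    push_cast at hR
    have c7 : Pv B M = -1 - (Pk.card : ℤ) := by linarith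
    rw [c7, s1] at hN
    rw [c7]
    have c8 : (0 : ℤ) ≤ Pk.card := by positivity
    have c9 : (0 : ℤ) ≤ (JS B M).card := by positivity
    by_cases h7 : ((JS B M).card : ℤ) ≤ 10 * ((Pk.card : ℤ) - 1)
    · left
      linarith
    · right
      push Not at h7
      omega

end Pool.Agent.Hyp6
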