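import Pool.Agent.Hyp6.KD3
import Pool.Agent.Hyp6.KDH

/-!
# HYP6 KD4: the component side of the summation (owner helper96)

`cst i`: what the block `i` has to pay for the K-pieces of the rest: `990` for a K-block with three points in the
rest, `495` for a K-block with four points in the rest (scale `118800`).
-/

set_option autoImplicit false

namespace Pool.Agent.Hyp6

open Finset Pool.Agent.Hyp5

universe u v

variable {V : Type v} [DecidableEq V] {ι : Type u} [Fintype ι]

open Classical in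
/-- the blocks meeting a K-piece of the rest. -/
noncomputable def KB (B : ι → Finset V) (U : Finset V) (F : Finset ι) : Finset ι :=
  univ.filter (fun i => ∃ X ∈ kps B (Wr B U F), (B i ∩ X).Nonempty)

open Classical in
/-- the cost of a block. -/
noncomputable def cst (B : ι → Finset V) (U : Finset V) (F : Finset ι) (i : ι) : ℤ :=
  if i ∈ KB B U F then (if ww B U F i = 3 then 990 else 495) else 0

variable [DecidableEq ι]

open Classical in
/-- the private blocks of `z` in parts outside `KA` which meet no K-piece. -/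
noncomputable def prB (B : ι → Finset V) (U : Finset V) (F : Finset ι) (KA : Finset (Finset V))
    (z : ι) : Finset ι := (priB B U F KA z).filter (fun i => i ∉ tps B U F z)

variable {B : ι → Finset V} {U : Finset V} {F : Finset ι}

omit [DecidableEq ι] in
theorem mem_KB {i : ι} : i ∈ KB B U F ↔ ∃ X ∈ kps B (Wr B U F), (B i ∩ X).Nonempty := by
  simp [KB]

/-- a partition of the rest into connected closed parts. -/
structure Pts (B : ι → Finset V) (U : Finset V) (F : Finset ι) (K : Finset (Finset V)) : Prop where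
  h : MaxPack B U F
  hr : Reg B U
  h5 : ∀ i, (B i ∩ U).card ≤ 5
  part : ∀ C ∈ K, C ⊆ U \ F.biUnion B ∧ Closed (gr B) (U \ F.biUnion B) C ∧ Conn (gr B) C
  sep : SepF B K
  un : K.biUnion id = U \ F.biUnion B
  hd : ∀ C ∈ K, HD B C

namespace Pts

variable {K : Finset (Finset V)}

theorem rC (p : Pts B U F K) {C : Finset V} (hC : C ∈ K) : Reg B C :=
  p.hr.mono ((p.part C hC).1.trans sdiff_subset)

theorem t4 (p : Pts B U F K) {C : Finset V} (hC : C ∈ K) : Tr4 B C := fun i =>
  (card_le_card (inter_subset_inter_left (p.part C hC).1)).trans (p.h.four p.h5 i)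

/-- the rest. -/
theorem ww_eq (i : ι) : ww B U F i = (B i ∩ Wr B U F).card := rfl

/-- a block meeting a part has its trace in this part. -/
theorem tr (p : Pts B U F K) {C : Finset V} (hC : C ∈ K) {i : ι} (hi : (B i ∩ C).Nonempty) :
    B i ∩ C = B i ∩ Wr B U F := by
  obtain ⟨v, hv⟩ := hi
  rw [mem_inter] at hv
  have h1 : (B i ∩ K.biUnion id).Nonempty :=
    ⟨v, mem_inter.2 ⟨hv.1, mem_biUnion.2 ⟨C, hC, hv.2⟩⟩⟩
  obtain ⟨D, hD, hDi⟩ := trace_part p.sep h1
  have h2 : v ∈ D := hDi (mem_inter.2 ⟨hv.1, mem_biUnion.2 ⟨C, hC, hv.2⟩⟩)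
  have h3 := part_eq p.sep hC hD hv.2 h2
  subst h3
  refine Subset.antisymm (inter_subset_inter_left (p.part C hC).1) fun w hw => ?_
  rw [mem_inter] at hw
  refine mem_inter.2 ⟨hw.1, hDi (mem_inter.2 ⟨hw.1, ?_⟩)⟩
  rw [p.un]
  exact hw.2

/-- a K-piece of the rest lies in a part. -/
theorem kpart (p : Pts B U F K) {X : Finset V} (hX : X ∈ kps B (Wr B U F)) :
    ∃ C ∈ K, X ∈ KS B C := by
  obtain ⟨hXW, hXK⟩ := mem_kps.1 hX
  obtain ⟨v, hv⟩ := hXK.nonempty
  have h1 : v ∈ K.biUnion id := by rw [p.un]; exact hXW hv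
  obtain ⟨C, hC, hvC⟩ := mem_biUnion.1 h1
  refine ⟨C, hC, mem_KS.2 ⟨?_, hXK⟩⟩
  exact hXK.sub_closed (p.hr.mono (hXW.trans Wr_sub)) hXW (p.part C hC).2.1
    ⟨v, mem_inter.2 ⟨hvC, hv⟩⟩

theorem ks_kps (p : Pts B U F K) {C X : Finset V} (hC : C ∈ K) (hX : X ∈ KS B C) :
    X ∈ kps B (Wr B U F) := by
  rw [mem_KS] at hX
  exact mem_kps.2 ⟨hX.1.trans (p.part C hC).1, hX.2⟩

/-- a K-block has three or four points in the rest. -/
theorem kb_ww (p : Pts B U F K) {i : ι} (hi : i ∈ KB B U F) :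
    ww B U F i = 3 ∨ ww B U F i = 4 := by
  obtain ⟨X, hX, hiX⟩ := mem_KB.1 hi
  obtain ⟨hXW, hXK⟩ := mem_kps.1 hX
  have h1 := hXK.trace (p.hr.mono (hXW.trans Wr_sub)) hiX
  have h2 : (B i ∩ X).card ≤ (B i ∩ Wr B U F).card := card_le_card (inter_subset_inter_left hXW)
  have h3 : (B i ∩ Wr B U F).card ≤ 4 := p.h.four p.h5 i
  rw [ww_eq]
  omega

/-- the blocks of the K-pieces of a part. -/
theorem kap_part (p : Pts B U F K) {C : Finset V} (hC : C ∈ K) :
    10 * kap B C ≤ ((KB B U F).filter (fun i => (B i ∩ C).Nonempty)).card := by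
  classical
  rw [kap_eq_card (p.hd C hC)]
  have h1 : (KS B C).biUnion (fun X => tch B X) ⊆
      (KB B U F).filter (fun i => (B i ∩ C).Nonempty) := by
    intro i hi
    obtain ⟨X, hX, hiX⟩ := mem_biUnion.1 hi
    have hiX' : (B i ∩ X).Nonempty := by
      unfold tch at hiX
      exact (mem_filter.1 hiX).2
    refine mem_filter.2 ⟨mem_KB.2 ⟨X, p.ks_kps hC hX, hiX'⟩, ?_⟩
    exact hiX'.mono (inter_subset_inter_left (mem_KS.1 hX).1)
  have h2 := card_le_card h1
  rw [card_biUnion] at h2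
  · have h3 : ∑ X ∈ KS B C, (tch B X).card = 10 * (KS B C).card := by
      have h4 : ∀ X ∈ KS B C, (tch B X).card = 10 := fun X hX => (mem_KS.1 hX).2.cmX
      rw [sum_congr rfl h4, sum_const, smul_eq_mul, mul_comm]
    omega
  · intro X hX Y hY hne
    show Disjoint _ _
    rw [Finset.disjoint_left]
    intro i hi hi'
    unfold tch at hi hi'
    exact hne (one_piece (p.hd C hC) (p.rC hC) (p.t4 hC) hX hY (mem_filter.1 hi).2
      (mem_filter.1 hi').2)

/-- the K-blocks are distributed to the parts. -/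
theorem sum_kb (p : Pts B U F K) {A : Finset ι} :
    ∑ C ∈ K, (A.filter (fun i => (B i ∩ C).Nonempty)).card ≤ A.card := by
  classical
  rw [← card_biUnion]
  · refine card_le_card fun i hi => ?_
    obtain ⟨C, _, hiC⟩ := mem_biUnion.1 hi
    exact (mem_filter.1 hiC).1
  · intro C hC D hD hne
    show Disjoint _ _
    rw [Finset.disjoint_left]
    intro i hi hi'
    exact (p.sep C hC D hD hne).2 i (mem_filter.1 hi).2 (mem_filter.1 hi').2

theorem js_le (p : Pts B U F K) :
    ((KB B U F).filter (fun i => ww B U F i ≠ 3)).card ≤ ∑ C ∈ K, (JS B C).card := by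
  classical
  refine le_trans (card_le_card ?_) card_biUnion_le
  intro i hi
  rw [mem_filter] at hi
  obtain ⟨X, hX, hiX⟩ := mem_KB.1 hi.1
  obtain ⟨C, hC, hXC⟩ := p.kpart hX
  have h1 := p.kb_ww hi.1
  have h2 : (B i ∩ C).Nonempty := hiX.mono (inter_subset_inter_left (mem_KS.1 hXC).1)
  refine mem_biUnion.2 ⟨C, hC, mem_JS.2 ⟨?_, X, hXC, hiX⟩⟩
  rw [p.tr hC h2, ← ww_eq]
  omega

/-- the cost of the K-pieces. -/
theorem sum_cst (p : Pts B U F K) :
    ∑ C ∈ K, (9900 * (kap B C : ℤ) - 495 * ((JS B C).card : ℤ)) ≤ ∑ i, cst B U F i := by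
  classical
  have h1 : ∑ i, cst B U F i = 990 * ((KB B U F).card : ℤ) -
      495 * (((KB B U F).filter (fun i => ww B U F i ≠ 3)).card : ℤ) := by
    have e : ∀ i, cst B U F i = 990 * (if i ∈ KB B U F then (1 : ℤ) else 0) -
        495 * (if i ∈ (KB B U F).filter (fun i => ww B U F i ≠ 3) then (1 : ℤ) else 0) := by
      intro i
      unfold cst
      by_cases g1 : i ∈ KB B U F
      · by_cases g2 : ww B U F i = 3
        · rw [if_pos g1, if_pos g2, if_pos g1, if_neg (by rw [mem_filter]; tauto)]; norm_num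
        · rw [if_pos g1, if_neg g2, if_pos g1, if_pos (by rw [mem_filter]; tauto)]; norm_num
      · rw [if_neg g1, if_neg g1, if_neg (by rw [mem_filter]; tauto)]; norm_num
    rw [sum_congr rfl fun i _ => e i, sum_sub_distrib, ← mul_sum, ← mul_sum, sum_boole, sum_boole]
    congr 3
    · simp
    · congr 1
      ext i
      simp
  have h2 : 10 * ∑ C ∈ K, kap B C ≤ (KB B U F).card := by
    rw [mul_sum]
    exact (sum_le_sum fun C hC => p.kap_part hC).trans p.sum_kb
  have h3 := p.js_le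
  rw [h1, sum_sub_distrib, ← mul_sum, ← mul_sum]
  have h2' : (10 : ℤ) * ∑ C ∈ K, (kap B C : ℤ) ≤ (KB B U F).card := by exact_mod_cast h2
  have h3' : (((KB B U F).filter (fun i => ww B U F i ≠ 3)).card : ℤ) ≤
      ∑ C ∈ K, ((JS B C).card : ℤ) := by exact_mod_cast h3
  linarith

/-- the private blocks in parts of mode B. -/
theorem sum_priB (p : Pts B U F K) {KA : Finset (Finset V)} :
    ∑ z ∈ F, ((prB B U F KA z).card : ℤ) ≤
      ∑ C ∈ K \ KA, ((nt B C 4 : ℤ) - ((JS B C).card : ℤ)) := by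
  classical
  have h1 : ∀ C ∈ K \ KA, ((nt B C 4 : ℤ) - ((JS B C).card : ℤ)) =
      ((trs B C 4 \ JS B C).card : ℤ) := by
    intro C _
    have h2 : JS B C ⊆ trs B C 4 := fun i hi => mem_trs.2 (mem_JS.1 hi).1
    have h3 := card_sdiff_add_card_eq_card h2
    unfold nt
    have : ((trs B C 4 \ JS B C).card : ℤ) + (JS B C).card = (trs B C 4).card := by
      exact_mod_cast h3
    linarith
  rw [sum_congr rfl h1]
  have h2 : ∑ z ∈ F, (prB B U F KA z).card ≤
      ∑ C ∈ K \ KA, (trs B C 4 \ JS B C).card := by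
    rw [← card_biUnion]
    · refine le_trans (card_le_card ?_) card_biUnion_le
      intro i hi
      obtain ⟨z, hz, hi⟩ := mem_biUnion.1 hi
      unfold prB at hi
      rw [mem_filter] at hi
      unfold priB at hi
      obtain ⟨hi1, hi2⟩ := hi
      rw [mem_filter] at hi1
      obtain ⟨_, hP, hKA'⟩ := hi1
      have g1 := hh_add_ww (B := B) U F i
      have g2 := hP.1.2.1
      have g3 := hP.1.2.2
      have g4 : ww B U F i = 4 := by omega
      have hne : (B i ∩ K.biUnion id).Nonempty := by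
        rw [p.un]
        exact card_pos.1 (by show 0 < ww B U F i; omega)
      obtain ⟨C, hC, hCi⟩ := trace_part p.sep hne
      rw [p.un] at hCi
      have hiC : (B i ∩ C).Nonempty := by
        obtain ⟨v, hv⟩ := hne
        rw [p.un] at hv
        exact ⟨v, mem_inter.2 ⟨(mem_inter.1 hv).1, hCi hv⟩⟩
      refine mem_biUnion.2 ⟨C, mem_sdiff.2 ⟨hC, fun h => hKA' ⟨C, h, hCi⟩⟩, ?_⟩
      rw [mem_sdiff, mem_trs, mem_JS]
      refine ⟨by rw [p.tr hC hiC]; exact g4, ?_⟩
      rintro ⟨_, X, hX, hiX⟩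
      exact hi2 (mem_tps.2 ⟨hP, X, p.ks_kps hC hX, hiX⟩)
    · intro z hz z' hz' hne
      show Disjoint _ _
      rw [Finset.disjoint_left]
      intro i hi hi'
      unfold prB priB at hi hi'
      have h3 := (mem_filter.1 ((mem_filter.1 hi).1)).2.1
      have h4 := (mem_filter.1 ((mem_filter.1 hi').1)).2.1
      exact hne (h3.unique p.h.pack hz hz' h4)
  exact_mod_cast h2

/-- the component side. -/
theorem comp_side (p : Pts B U F K) {KA : Finset (Finset V)} (hKA : KA ⊆ K)
    (hA : ∀ C ∈ KA, MdA B C) (hB : ∀ C ∈ K, C ∉ KA → MdB B C) :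
    ∑ C ∈ KA, 550 * (NN B C : ℤ) +
      550 * ∑ z ∈ F, ((prB B U F KA z).card : ℤ) -
      ∑ i, cst B U F i ≤ 550 * ∑ C ∈ K, MM B C := by
  classical
  have h1 := p.sum_cst
  have h2 := p.sum_priB (KA := KA)
  have h3 : ∑ C ∈ K, MM B C = ∑ C ∈ K \ KA, MM B C + ∑ C ∈ KA, MM B C :=
    (sum_sdiff hKA).symm
  have h4 : ∑ C ∈ K, (9900 * (kap B C : ℤ) - 495 * ((JS B C).card : ℤ)) =
      ∑ C ∈ K \ KA, (9900 * (kap B C : ℤ) - 495 * ((JS B C).card : ℤ)) +
      ∑ C ∈ KA, (9900 * (kap B C : ℤ) - 495 * ((JS B C).card : ℤ)) := (sum_sdiff hKA).symm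
  have h5 : ∑ C ∈ KA, (550 * (NN B C : ℤ)) ≤ ∑ C ∈ KA, (550 * MM B C +
      (9900 * (kap B C : ℤ) - 495 * ((JS B C).card : ℤ))) := by
    refine sum_le_sum fun C hC => ?_
    have := hA C hC
    unfold MdA at this
    unfold MM
    linarith
  have h6 : ∑ C ∈ K \ KA, (550 * ((nt B C 4 : ℤ) - ((JS B C).card : ℤ))) ≤
      ∑ C ∈ K \ KA, (550 * MM B C +
      (9900 * (kap B C : ℤ) - 495 * ((JS B C).card : ℤ))) := by
    refine sum_le_sum fun C hC => ?_
    rw [mem_sdiff] at hC
    have := hB C hC.1 hC.2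
    unfold MdB at this
    unfold MM
    linarith
  rw [sum_add_distrib, ← mul_sum, ← mul_sum] at h5 h6
  rw [← mul_sum]
  linarith

end Pts

end Pool.Agent.Hyp6
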