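import Pool.Agent.Hyp6.KD2

/-!
# HYP6 KDF: the payments along the K-doubles

`dbl_of`: a K-double which meets two different members is a `Dbl`. `flow`: the payments received by the members
which are not rich are made by rich members. `dem_le`: a bound for the payments of a rich member.
-/

set_option autoImplicit false

namespace Pool.Agent.Hyp6

open Finset Pool.Agent.Hyp5

universe u v

variable {V : Type v} [DecidableEq V] {ι : Type u} [Fintype ι]
  {B : ι → Finset V} {U : Finset V} {F : Finset ι}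

/-- the incidences of a K-double with the members. -/
theorem KDb_sum (hF : Pack B U 5 F) {b : ι} (hb : b ∈ KDb B U F) :
    ∑ z ∈ F, (trc B U z ∩ trc B U b).card = 2 := by
  classical
  rw [← hh_eq_sum hF]
  exact (mem_KDb.1 hb).2.2.1

theorem KDb_two [DecidableEq ι] (hF : Pack B U 5 F) {b : ι} (hb : b ∈ KDb B U F) {z z' : ι}
    (hz : z ∈ F) (hz' : z' ∈ F) (hne : z ≠ z') :
    (trc B U z ∩ trc B U b).card + (trc B U z' ∩ trc B U b).card ≤ 2 := by
  rw [← KDb_sum hF hb, ← sum_pair (f := fun z => (trc B U z ∩ trc B U b).card) hne]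
  refine sum_le_sum_of_subset fun k hk => ?_
  rw [mem_insert, mem_singleton] at hk
  rcases hk with rfl | rfl
  · exact hz
  · exact hz'

/-- a K-double which meets two different members. -/
theorem dbl_of [DecidableEq ι] (hF : Pack B U 5 F) (hr : Reg B U) {b : ι} (hb : b ∈ KDb B U F)
    {z z' : ι} (hz : z ∈ F) (hz' : z' ∈ F) (hne : z ≠ z') (hzb : (trc B U z ∩ trc B U b).Nonempty)
    (hzb' : (trc B U z' ∩ trc B U b).Nonempty) :
    ∃ X y y', Dbl B U F X b z z' y y' ∧ y ∈ B z ∧ trc B U z ∩ trc B U b = {y} := by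
  have h2 := KDb_two hF hb hz hz' hne
  have h3 := card_pos.2 hzb
  have h4 := card_pos.2 hzb'
  obtain ⟨y, hy⟩ := card_eq_one.1 (by omega : (trc B U z ∩ trc B U b).card = 1)
  obtain ⟨y', hy'⟩ := card_eq_one.1 (by omega : (trc B U z' ∩ trc B U b).card = 1)
  have g1 : y ∈ trc B U z ∩ trc B U b := by rw [hy]; exact mem_singleton_self _
  have g2 : y' ∈ trc B U z' ∩ trc B U b := by rw [hy']; exact mem_singleton_self _
  rw [mem_trc2] at g1 g2
  obtain ⟨hbF, h5, _, X, hX, hbX⟩ := mem_KDb.1 hb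
  have hXW := mem_kps.1 hX
  have sX : X ⊆ U := hXW.1.trans Wr_sub
  have h6 := hXW.2.trace (hr.mono sX) hbX
  have hyX : y ∉ X := fun h => (mem_Wr.1 (hXW.1 h)).2 z hz g1.1
  have hyX' : y' ∉ X := fun h => (mem_Wr.1 (hXW.1 h)).2 z' hz' g2.1
  have hyy : y ≠ y' := by
    rintro rfl
    exact Finset.disjoint_left.1 (hF.disj z hz z' hz' hne) (mem_inter.2 ⟨g1.1, g1.2.2⟩)
      (mem_inter.2 ⟨g2.1, g2.2.2⟩)
  refine ⟨X, y, y', ⟨hX, hbX, h5, hz, hz', g1.1, g2.1, ?_⟩, g1.1, hy⟩
  symm
  refine eq_of_subset_of_card_le ?_ ?_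
  · intro v hv
    rw [mem_insert, mem_insert] at hv
    rcases hv with rfl | rfl | hv
    · exact mem_inter.2 g1.2
    · exact mem_inter.2 g2.2
    · exact mem_inter.2 ⟨(mem_inter.1 hv).1, sX (mem_inter.1 hv).2⟩
  · rw [h5, card_insert_of_notMem, card_insert_of_notMem, h6]
    · exact fun h => hyX' (mem_inter.1 h).2
    · rw [mem_insert, not_or]
      exact ⟨hyy, fun h => hyX (mem_inter.1 h).2⟩

theorem cK_zero : cK 0 = 0 := rfl

/-- a private block of a member which is not rich, avoiding the K-double, forces a rich member. -/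
theorem rich_other [DecidableEq ι] (h : OptPack B U F) (hr : Reg B U) {b z : ι}
    (hb : b ∈ KDb B U F) (hz : z ∈ F) (hnr : ¬ Rich B U F z)
    (hzb : (trc B U z ∩ trc B U b).Nonempty) (hv : vv B U F z b ≠ 0) :
    ∃ z' ∈ F, Rich B U F z' ∧ (trc B U z' ∩ trc B U b).Nonempty := by
  classical
  have hF := h.mp.pack
  obtain ⟨n, hn⟩ := card_pos.1 (Nat.pos_of_ne_zero hv)
  rw [mem_filter] at hn
  obtain ⟨_, hn1, hn2⟩ := hn
  have hs := KDb_sum hF hb
  -- another member
  have h1 : ∃ z' ∈ F, z' ≠ z ∧ (trc B U z' ∩ trc B U b).Nonempty := by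
    by_contra hcon
    push Not at hcon
    obtain ⟨hbF, h5, _, X, hX, hbX⟩ := mem_KDb.1 hb
    have hO : Onl B U F z b := by
      refine ⟨hbF, h5, fun k hk hkz => ?_⟩
      have h2 := hcon k hk hkz
      rw [disjoint_iff_inter_eq_empty]
      unfold trc at h2
      rw [inter_comm]
      exact h2
    exact hnr (h.rich_of hz hO hX hbX)
  obtain ⟨z', hz', hne, hzb'⟩ := h1
  obtain ⟨X, y, y', d, _, hy⟩ := dbl_of hF hr hb hz hz' hne.symm hzb hzb'
  have hyn : y ∉ B n := by
    intro hy2
    have : y ∈ trc B U z ∩ trc B U b := by rw [hy]; exact mem_singleton_self _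
    exact Finset.disjoint_left.1 hn2 hy2 this
  obtain ⟨Y, hY1, hY2, hY3⟩ := h.E2 hr d hne.symm hnr (hn1.onl hF hz) hyn
  exact ⟨z', hz', ⟨Y, hY1, hY2.trans sdiff_subset, hY3⟩, hzb'⟩

/-- **flow.** the payments received by the members which are not rich are made by rich members. -/
theorem flow [DecidableEq ι] (h : OptPack B U F) (hr : Reg B U) [DecidablePred (Rich B U F)] :
    ∑ z ∈ F.filter (fun z => ¬ Rich B U F z), rcv B U F z ≤
      ∑ z ∈ F.filter (fun z => Rich B U F z), dem B U F z := by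
  classical
  have e1 : ∑ z ∈ F.filter (fun z => ¬ Rich B U F z), rcv B U F z =
      ∑ b ∈ KDb B U F, ∑ z ∈ F.filter (fun z => ¬ Rich B U F z),
        if (trc B U z ∩ trc B U b).Nonempty then cK (vv B U F z b) else 0 := by
    rw [sum_comm]
    refine sum_congr rfl fun z _ => ?_
    unfold rcv
    refine sum_congr rfl fun b _ => ?_
    congr
  have e2 : ∑ z ∈ F.filter (fun z => Rich B U F z), dem B U F z =
      ∑ b ∈ KDb B U F, ∑ z' ∈ F.filter (fun z => ¬ Rich B U F z),
        ∑ z ∈ F.filter (fun z => Rich B U F z),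
        if (trc B U z ∩ trc B U b).Nonempty ∧ (trc B U z' ∩ trc B U b).Nonempty then
          cK (vv B U F z' b) else 0 := by
    have e3 : ∀ z ∈ F.filter (fun z => Rich B U F z), dem B U F z =
        ∑ b ∈ KDb B U F, ∑ z' ∈ F.filter (fun z => ¬ Rich B U F z),
        if (trc B U z ∩ trc B U b).Nonempty ∧ (trc B U z' ∩ trc B U b).Nonempty then
          cK (vv B U F z' b) else 0 := by
      intro z _
      unfold dem
      refine sum_congr rfl fun b _ => ?_
      refine sum_congr (by congr) fun z' _ => ?_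
      congr
    rw [sum_congr rfl e3, sum_comm]
    refine sum_congr rfl fun b _ => ?_
    rw [sum_comm]
  rw [e1, e2]
  refine sum_le_sum fun b hb => sum_le_sum fun z' hz' => ?_
  rw [mem_filter] at hz'
  by_cases hzb : (trc B U z' ∩ trc B U b).Nonempty
  · rw [if_pos hzb]
    by_cases hv : vv B U F z' b = 0
    · rw [hv, cK_zero]
      exact Nat.zero_le _
    · obtain ⟨z, hz, hzr, hzb'⟩ := rich_other h hr hb hz'.1 hz'.2 hzb hv
      have h1 := single_le_sum (f := fun z =>
        if (trc B U z ∩ trc B U b).Nonempty ∧ (trc B U z' ∩ trc B U b).Nonempty then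
          cK (vv B U F z' b) else 0) (fun _ _ => Nat.zero_le _)
        (mem_filter.2 ⟨hz, hzr⟩ : z ∈ F.filter (fun z => Rich B U F z))
      rw [if_pos ⟨hzb', hzb⟩] at h1
      exact h1
  · rw [if_neg hzb]
    exact Nat.zero_le _

/-- a bound for the payments of a rich member. -/
theorem dem_le (hF : Pack B U 5 F) {z : ι} (hz : z ∈ F) (hzr : Rich B U F z) {c : ℕ}
    (hc : ∀ b ∈ KDb B U F, ∀ z' ∈ F, ¬ Rich B U F z' → (trc B U z ∩ trc B U b).Nonempty →
      (trc B U z' ∩ trc B U b).Nonempty → cK (vv B U F z' b) ≤ c) :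
    dem B U F z ≤ c * kk B U F z := by
  classical
  unfold dem kk
  rw [mul_sum]
  refine sum_le_sum fun b hb => ?_
  by_cases hzb : (trc B U z ∩ trc B U b).Nonempty
  · have h1 : ∀ z' ∈ F.filter (fun z' => ¬ Rich B U F z'),
        (if (trc B U z ∩ trc B U b).Nonempty ∧ (trc B U z' ∩ trc B U b).Nonempty then
          cK (vv B U F z' b) else 0) ≤ c * (trc B U z' ∩ trc B U b).card := by
      intro z' hz'
      rw [mem_filter] at hz'
      split_ifs with h2
      · have h3 := hc b hb z' hz'.1 hz'.2 h2.1 h2.2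
        have h4 := card_pos.2 h2.2
        calc cK (vv B U F z' b) ≤ c := h3
          _ = c * 1 := (mul_one c).symm
          _ ≤ c * (trc B U z' ∩ trc B U b).card := Nat.mul_le_mul_left _ h4
      · exact Nat.zero_le _
    refine (sum_le_sum h1).trans ?_
    rw [← mul_sum]
    refine Nat.mul_le_mul_left _ ?_
    have h2 := KDb_sum hF hb
    have h3 : ∑ z' ∈ F.filter (fun z' => ¬ Rich B U F z'), (trc B U z' ∩ trc B U b).card ≤
        ∑ z' ∈ F.erase z, (trc B U z' ∩ trc B U b).card := by
      refine sum_le_sum_of_subset fun k hk => ?_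
      rw [mem_filter] at hk
      refine mem_erase.2 ⟨?_, hk.1⟩
      rintro rfl
      exact hk.2 hzr
    have h4 := add_sum_erase F (fun z' => (trc B U z' ∩ trc B U b).card) hz
    have h5 := card_pos.2 hzb
    omega
  · have h1 : ∀ z' ∈ F.filter (fun z' => ¬ Rich B U F z'),
        (if (trc B U z ∩ trc B U b).Nonempty ∧ (trc B U z' ∩ trc B U b).Nonempty then
          cK (vv B U F z' b) else 0) = 0 := by
      intro z' _
      rw [if_neg]
      exact fun h => hzb h.1
    rw [sum_eq_zero h1]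
    exact Nat.zero_le _

end Pool.Agent.Hyp6
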