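import Pool.Agent.Hyp6.KD2

/-!
# HYP6 KDP: the balance of a member which is not rich

Every K-double meeting a member `z` which is not rich has exactly one point in `z`. `poor_bal`: the private
blocks and the K-doubles at `z` against the payments `rcv`.
-/

set_option autoImplicit false

namespace Pool.Agent.Hyp6

open Finset Pool.Agent.Hyp5

universe u v

/-- the constant part of the balance at a point. -/
def tA (p : ℕ) : ℕ :=
  if p = 0 then 1980 else if p ≤ 7 then 1560 else if p = 8 then 1380 else if p = 9 then 1170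
  else if p = 10 then 1030 else if p = 11 then 315 else 300

/-- the linear part of the balance at a point. -/
def tB (p : ℕ) : ℕ :=
  if p = 0 then 0 else if p = 1 then 75 else if p = 2 then 285 else if p = 3 then 355
  else if p ≤ 7 then 390 else if p = 8 then 300 else if p = 9 then 225 else if p = 10 then 200
  else if p ≤ 12 then 0 else 75

set_option maxRecDepth 100000 in
theorem tab_pt : ∀ p < 15, ∀ q < 5, ∀ k < 5, q + k ≤ 4 → q ≤ p →
    495 * k + tB p * q ≤ tA p + k * cK (p - q) := by decide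

set_option maxRecDepth 100000 in
theorem tab_sum : ∀ p < 15, 5 * tA p + 675 * p ≤ 9900 + tB p * p := by decide

variable {V : Type v} [DecidableEq V] {ι : Type u} [Fintype ι] {B : ι → Finset V}
  {U : Finset V} {F : Finset ι}

open Classical in
/-- the number of private blocks of `z` through the point `y`. -/
noncomputable def py (B : ι → Finset V) (U : Finset V) (F : Finset ι) (z : ι) (y : V) : ℕ :=
  ((univ.filter (fun i => Pri B U F z i)).filter (fun i => y ∈ B i)).card

/-- the number of K-doubles through the point `y`. -/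
noncomputable def ky (B : ι → Finset V) (U : Finset V) (F : Finset ι) (y : V) : ℕ :=
  ((KDb B U F).filter (fun i => y ∈ B i)).card

variable [DecidableEq ι]

/-- a K-double has at most one point in a member which is not rich. -/
theorem OptPack.kd_one (h : OptPack B U F) {z : ι} (hz : z ∈ F) (hnr : ¬ Rich B U F z) {b : ι}
    (hb : b ∈ KDb B U F) : (trc B U z ∩ trc B U b).card ≤ 1 := by
  by_contra hcon
  obtain ⟨h1, h2, h3, X, hX, hbX⟩ := mem_KDb.1 hb
  have h4 := hh_eq_sum h.mp.pack b
  rw [← add_sum_erase F _ hz] at h4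
  have h5 : ∑ y ∈ F.erase z, (trc B U y ∩ trc B U b).card = 0 := by omega
  refine hnr (h.rich_of hz ⟨h1, h2, fun k hk hkz => ?_⟩ hX hbX)
  have h6 := (sum_eq_zero_iff.1 h5) k (mem_erase.2 ⟨hkz, hk⟩)
  rw [card_eq_zero, ← disjoint_iff_inter_eq_empty] at h6
  exact h6.symm

/-- the blocks at a point of a member. -/
theorem py_add_ky (hr : Reg B U) {z : ι} (hz : z ∈ F) {y : V} (hy : y ∈ B z ∩ U) :
    py B U F z y + ky B U F y ≤ 4 := by
  classical
  have hd : Disjoint ((univ.filter (fun i => Pri B U F z i)).filter (fun i => y ∈ B i))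
      ((KDb B U F).filter (fun i => y ∈ B i)) := by
    rw [Finset.disjoint_left]
    intro i hi hi'
    have h1 := (mem_filter.1 (mem_filter.1 hi).1).2.1.2.2
    have h2 := (mem_KDb.1 (mem_filter.1 hi').1).2.2.1
    omega
  have h1 : ((univ.filter (fun i => Pri B U F z i)).filter (fun i => y ∈ B i)) ∪
      ((KDb B U F).filter (fun i => y ∈ B i)) ⊆ (univ.filter (fun i => y ∈ B i)).erase z := by
    intro i hi
    rw [mem_erase, mem_filter]
    rcases mem_union.1 hi with hi | hi
    · rw [mem_filter] at hi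
      exact ⟨fun e => (mem_filter.1 hi.1).2.1.1 (e ▸ hz), mem_univ _, hi.2⟩
    · rw [mem_filter] at hi
      exact ⟨fun e => (mem_KDb.1 hi.1).1 (e ▸ hz), mem_univ _, hi.2⟩
  have h2 := card_le_card h1
  have h3 : z ∈ univ.filter (fun i => y ∈ B i) := mem_filter.2 ⟨mem_univ _, (mem_inter.1 hy).1⟩
  rw [card_erase_of_mem h3, card_union_of_disjoint hd] at h2
  have h4 := hr y (mem_inter.1 hy).2
  unfold py ky
  omega

omit [DecidableEq ι] in
theorem sum_py {z : ι} (hz : z ∈ F) : ∑ y ∈ B z ∩ U, py B U F z y = pp B U F z := by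
  classical
  have h1 : ∀ y ∈ B z ∩ U, py B U F z y =
      ∑ i ∈ univ.filter (fun i => Pri B U F z i), if y ∈ B i then 1 else 0 := by
    intro y _
    unfold py
    rw [card_filter]
  rw [sum_congr rfl h1, sum_comm]
  have h2 : pp B U F z = ∑ i ∈ univ.filter (fun i => Pri B U F z i), 1 := by
    rw [← card_eq_sum_ones]
    unfold pp
    congr 1
  rw [h2]
  refine sum_congr rfl fun i hi => ?_
  have hP := (mem_filter.1 hi).2
  obtain ⟨v, hv, hvi, hvz, hvU⟩ := hP.point hz
  rw [← card_filter, card_eq_one]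
  refine ⟨v, ?_⟩
  ext w
  rw [mem_filter, mem_inter, mem_singleton]
  constructor
  · rintro ⟨⟨h3, h4⟩, h5⟩
    have : w ∈ B i ∩ (F.biUnion B ∩ U) :=
      mem_inter.2 ⟨h5, mem_inter.2 ⟨mem_biUnion.2 ⟨z, hz, h3⟩, h4⟩⟩
    rw [hv] at this
    exact mem_singleton.1 this
  · rintro rfl
    exact ⟨⟨hvz, hvU⟩, hvi⟩

omit [DecidableEq ι] in
theorem kk_eq (z : ι) : kk B U F z = ∑ y ∈ B z ∩ U, ky B U F y := by
  classical
  have h1 : ∀ y ∈ B z ∩ U, ky B U F y = ∑ i ∈ KDb B U F, if y ∈ B i then 1 else 0 := by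
    intro y _
    unfold ky
    rw [card_filter]
  rw [sum_congr rfl h1, sum_comm]
  unfold kk
  refine sum_congr rfl fun i _ => ?_
  rw [← card_filter]
  congr 1
  ext w
  rw [mem_trc2, mem_filter, mem_inter]
  tauto

omit [DecidableEq ι] in
theorem vv_eq {z b : ι} {y : V} (hb : trc B U z ∩ trc B U b = {y}) :
    vv B U F z b = pp B U F z - py B U F z y := by
  classical
  have h1 : vv B U F z b =
      ((univ.filter (fun i => Pri B U F z i)).filter (fun i => ¬ y ∈ B i)).card := by
    unfold vv
    congr 1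
    ext i
    rw [mem_filter, mem_filter, mem_filter, hb, Finset.disjoint_singleton_right]
    tauto
  have h2 := card_filter_add_card_filter_not (s := univ.filter (fun i => Pri B U F z i))
    (fun i => y ∈ B i)
  have h3 : pp B U F z = (univ.filter (fun i => Pri B U F z i)).card := by
    unfold pp
    congr 1
  unfold py
  rw [h1, h3]
  omega

theorem OptPack.rcv_eq (h : OptPack B U F) {z : ι} (hz : z ∈ F) (hnr : ¬ Rich B U F z) :
    rcv B U F z = ∑ y ∈ B z ∩ U, ky B U F y * cK (pp B U F z - py B U F z y) := by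
  classical
  have h1 : ∀ y ∈ B z ∩ U, ky B U F y * cK (pp B U F z - py B U F z y) =
      ∑ i ∈ KDb B U F, if y ∈ B i then cK (pp B U F z - py B U F z y) else 0 := by
    intro y _
    unfold ky
    rw [← sum_filter, sum_const, smul_eq_mul]
  rw [sum_congr rfl h1, sum_comm]
  unfold rcv
  refine sum_congr rfl fun b hb => ?_
  by_cases g : (trc B U z ∩ trc B U b).Nonempty
  · have h2 := h.kd_one hz hnr hb
    have h3 := card_pos.2 g
    obtain ⟨y, hy⟩ := card_eq_one.1 (show (trc B U z ∩ trc B U b).card = 1 by omega)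
    rw [if_pos g, vv_eq hy]
    have h4 : ∀ w, w ∈ B z ∩ U → (w ∈ B b ↔ w = y) := by
      intro w hw
      have h5 : w ∈ trc B U z ∩ trc B U b ↔ w = y := by rw [hy, mem_singleton]
      rw [mem_trc2] at h5
      rw [mem_inter] at hw
      tauto
    have h5 : y ∈ B z ∩ U := by
      have : y ∈ trc B U z ∩ trc B U b := by rw [hy]; exact mem_singleton_self _
      rw [mem_trc2] at this
      exact mem_inter.2 ⟨this.1, this.2.2⟩
    rw [sum_eq_single y (fun w hw hwy => if_neg fun e => hwy ((h4 w hw).1 e))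
      (fun e => absurd h5 e), if_pos ((h4 y h5).2 rfl)]
  · rw [if_neg g]
    symm
    refine sum_eq_zero fun y hy => if_neg fun e => g ⟨y, ?_⟩
    rw [mem_trc2]
    exact ⟨(mem_inter.1 hy).1, e, (mem_inter.1 hy).2⟩

/-- **the balance of a member which is not rich.** -/
theorem poor_bal (h : OptPack B U F) (hr : Reg B U) (_h5 : ∀ i, (B i ∩ U).card ≤ 5) {z : ι}
    (hz : z ∈ F) (hnr : ¬ Rich B U F z) :
    (pp B U F z ≤ 14 → 675 * pp B U F z + 495 * kk B U F z ≤ 9900 + rcv B U F z) ∧
      (14 ≤ pp B U F z → 495 * kk B U F z ≤ 450 + rcv B U F z) := by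
  have hp := sum_py (B := B) (U := U) hz
  have hk := kk_eq (B := B) (U := U) (F := F) z
  have hrc := h.rcv_eq hz hnr
  have h4 : ∀ y ∈ B z ∩ U, py B U F z y + ky B U F y ≤ 4 := fun y hy => py_add_ky hr hz hy
  have hc : (B z ∩ U).card = 5 := h.mp.pack.card z hz
  have hle : ∀ y ∈ B z ∩ U, py B U F z y ≤ pp B U F z := fun y hy => by
    rw [← hp]
    exact single_le_sum (f := fun y => py B U F z y) (fun _ _ => Nat.zero_le _) hy
  refine ⟨fun h14 => ?_, fun h14 => ?_⟩
  · have h6 : ∑ y ∈ B z ∩ U, (495 * ky B U F y + tB (pp B U F z) * py B U F z y) ≤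
        ∑ y ∈ B z ∩ U, (tA (pp B U F z) + ky B U F y * cK (pp B U F z - py B U F z y)) := by
      refine sum_le_sum fun y hy => ?_
      have := h4 y hy
      exact tab_pt _ (by omega) _ (by omega) _ (by omega) this (hle y hy)
    rw [sum_add_distrib, sum_add_distrib, ← mul_sum, ← mul_sum, ← hk, hp, ← hrc, sum_const, hc,
      smul_eq_mul] at h6
    have h7 := tab_sum (pp B U F z) (by omega)
    omega
  · have h6 : ∑ y ∈ B z ∩ U, 420 * ky B U F y ≤
        ∑ y ∈ B z ∩ U, ky B U F y * cK (pp B U F z - py B U F z y) := by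
      refine sum_le_sum fun y hy => ?_
      have := h4 y hy
      have h7 : cK (pp B U F z - py B U F z y) = 420 := by
        unfold cK
        rw [if_neg (by omega), if_neg (by omega), if_neg (by omega), if_neg (by omega)]
      rw [h7, mul_comm]
    rw [← mul_sum, ← hk, ← hrc] at h6
    have h7 : ∑ y ∈ B z ∩ U, (py B U F z y + ky B U F y) ≤ ∑ y ∈ B z ∩ U, 4 := sum_le_sum h4
    rw [sum_add_distrib, hp, ← hk, sum_const, hc, smul_eq_mul] at h7
    omega

end Pool.Agent.Hyp6
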