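import Pool.Agent.Hyp6.KD3
import Pool.Agent.Hyp6.KDF

/-!
# HYP6 KDR: the balance of a rich member (owner helper96)
-/

set_option autoImplicit false

namespace Pool.Agent.Hyp6

open Finset Pool.Agent.Hyp5

universe u v

variable {V : Type v} [DecidableEq V] {ι : Type u} [Fintype ι] [DecidableEq ι]

variable {B : ι → Finset V} {U : Finset V} {F : Finset ι}

theorem cK_le (n : ℕ) : cK n ≤ 420 ∧ (n ≤ 8 → cK n ≤ 180) ∧ (n ≤ 7 → cK n ≤ 135) ∧
    (n ≤ 6 → cK n ≤ 105) := by
  unfold cK
  refine ⟨?_, fun h => ?_, fun h => ?_, fun h => ?_⟩ <;> split_ifs <;> omega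

namespace RY

variable {z : ι} {Y : Finset V}

omit [DecidableEq ι] in
theorem rich (r : RY B U F z Y) : Rich B U F z := ⟨Y, r.at'.kp, r.at'.sub, r.at'.meet⟩

/-- the star bounds at a K-double joining `z` to a member which is not rich. -/
theorem vv_le (r : RY B U F z Y) {b z' : ι} (hb : b ∈ KDb B U F) (hz' : z' ∈ F)
    (hnr : ¬ Rich B U F z') (h1 : (trc B U z ∩ trc B U b).Nonempty)
    (h2 : (trc B U z' ∩ trc B U b).Nonempty) :
    (1 ≤ (prY B U F z Y).card → vv B U F z' b ≤ 8) ∧
    5 * ((prY B U F z Y).card * vv B U F z' b) ≤ 8 * vv B U F z' b + 24 * (prY B U F z Y).card := by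
  have hne : z' ≠ z := by
    rintro rfl
    exact hnr r.rich
  obtain ⟨X, y, y', d, hy, he⟩ := dbl_of r.h.mp.pack r.hr hb hz' r.hz hne h2 h1
  have hXY : Disjoint X Y := r.ov z r.hz X d.kx Y r.at'.kp r.at'.sub r.at'.meet
  have hs := r.h.starSys r.hr r.h5 d hne hnr r.at' hXY
  have hvv : vv B U F z' b ≤ (prN B U F z Y ∪ onA B U F z' y).card := by
    classical
    unfold vv
    refine card_le_card fun n hn => mem_union_right _ ?_
    rw [mem_filter, he] at hn
    exact mem_onA.2 ⟨hn.2.1.onl r.h.mp.pack hz',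
      Finset.disjoint_singleton_right.1 hn.2.2⟩
  set n := (prN B U F z Y ∪ onA B U F z' y).card with hn
  refine ⟨fun ha => ?_, ?_⟩
  · exact hvv.trans (hs.le8 r.hr (card_pos.1 ha))
  · have h3 := hs.count r.hr
    rw [← hn] at h3
    set a := (prY B U F z Y).card with ha
    -- the function `(5 a - 8) n` is monotone for `a >= 2`
    rcases (by omega : a ≤ 1 ∨ 2 ≤ a) with h4 | h4
    · have h5 : a = 0 ∨ a = 1 := by omega
      rcases h5 with h5 | h5 <;> rw [h5] <;> omega
    · obtain ⟨m, hm⟩ : ∃ m, a = m + 2 := ⟨a - 2, by omega⟩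
      rw [hm] at h3 ⊢
      have h5 : (5 * m + 2) * vv B U F z' b ≤ (5 * m + 2) * n := Nat.mul_le_mul_left _ hvv
      nlinarith

/-- **the balance of a rich member.** -/
theorem rich_bal (r : RY B U F z Y) :
    675 * pp B U F z + 495 * (tps B U F z).card + 495 * kk B U F z + dem B U F z ≤
      9900 + 125 * ∑ i ∈ NP B U F, uu B U F z i := by
  have hp := pp_eq_prYN (B := B) (U := U) (F := F) (z := z) Y
  have hkb := r.kb_le
  have hal : (tps B U F z).card ≤ (prN B U F z Y).card := card_le_card r.tps_sub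
  have hmt := r.mt_le2
  have ha7 := r.prY_le
  have hst := (starSys_pri r.h.mp r.hr r.h5 r.at').count r.hr
  have htp := r.tps_le
  have hdem : ∀ c, (∀ n, (1 ≤ (prY B U F z Y).card → n ≤ 8) →
      5 * ((prY B U F z Y).card * n) ≤ 8 * n + 24 * (prY B U F z Y).card → cK n ≤ c) →
      dem B U F z ≤ c * kk B U F z := fun c hc =>
    dem_le r.h.mp.pack r.hz r.rich fun b hb z' hz' hnr h1 h2 =>
      hc _ (r.vv_le hb hz' hnr h1 h2).1 (r.vv_le hb hz' hnr h1 h2).2
  have hue := r.uu_ext
  have hus := r.uu_seven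
  set a := (prY B U F z Y).card with haD
  set b := (prN B U F z Y).card with hbD
  set al := (tps B U F z).card with halD
  set k := kk B U F z with hkD
  set s := ∑ i ∈ NP B U F, uu B U F z i with hsD
  rw [hp]
  have ha : a ≤ 7 := by omega
  rcases (by omega : a = 0 ∨ (1 ≤ a ∧ a ≤ 4) ∨ a = 5 ∨ a = 6 ∨ a = 7) with h | h | h | h | h
  · have h1 := hdem 420 fun n _ _ => (cK_le n).1
    rw [h]
    omega
  · have h1 := hdem 180 fun n h2 _ => (cK_le n).2.1 (h2 h.1)
    have h2 := htp h.1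
    rcases (by omega : a = 1 ∨ a = 2 ∨ a = 3 ∨ a = 4) with h3 | h3 | h3 | h3
    · rw [h3] at h2 ⊢
      by_cases h4 : al = 8
      · have h5 := hue h.1 h4
        omega
      · omega
    · rw [h3] at h2 ⊢
      omega
    · rw [h3] at h2 ⊢
      omega
    · rw [h3] at h2 ⊢
      omega
  · have h1 := hdem 135 fun n _ h3 => (cK_le n).2.2.1 (by rw [h] at h3; omega)
    have h2 := htp (by omega)
    rw [h] at h2 ⊢
    omega
  · have h1 := hdem 105 fun n _ h3 => (cK_le n).2.2.2 (by rw [h] at h3; omega)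
    have h2 := htp (by omega)
    rw [h] at h2 ⊢
    omega
  · have h1 := hdem 105 fun n _ h3 => (cK_le n).2.2.2 (by rw [h] at h3; omega)
    have h2 := htp (by omega)
    have h3 := hus (by omega)
    rw [h] at h2 hst ⊢
    omega

end RY

end Pool.Agent.Hyp6
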