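import Pool.Agent.Hyp6.KP2
import Pool.Agent.Hyp6.L4P
import Pool.Agent.Hyp6.Exch

/-!
# HYP6 NT: no two points of a minimal counterexample lie in the same blocks
-/

set_option autoImplicit false

namespace Pool.Agent.Hyp6

open Finset Pool.Agent.Hyp5

universe u v

variable {V : Type v} [DecidableEq V] {ι : Type u} [Fintype ι] {B : ι → Finset V} {U : Finset V}

/-- no two points of a minimal counterexample lie in the same blocks. -/
theorem MinC.noTwin {a b N : ℕ} (h : MinC a b N B U) (hN : N ≤ a + 6 * b) {x y : V} (hx : x ∈ U)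
    (hy : y ∈ U) (hxy : x ≠ y) : ∃ i, ¬ (x ∈ B i ↔ y ∈ B i) := by
  by_contra hcon
  push Not at hcon
  have h1 := h.point hN hx
  have hc : Cov B (U.erase x) := h.cov.mono (erase_subset _ _)
  obtain ⟨T, hT, hTc⟩ := exists_cover hc
  have h2 : U ⊆ T.biUnion B := by
    intro v hv
    by_cases hvx : v = x
    · have h3 : y ∈ T.biUnion B := hT (mem_erase.2 ⟨hxy.symm, hy⟩)
      rw [mem_biUnion] at h3 ⊢
      obtain ⟨i, hi, hyi⟩ := h3
      exact ⟨i, hi, by rw [hvx]; exact (hcon i).2 hyi⟩
    · exact hT (mem_erase.2 ⟨hvx, hv⟩)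
  have h3 := rho_le h2
  omega

/-- the K-pieces of the rest of a maximum packing are pairwise disjoint. -/
theorem MinC.hd {a b N : ℕ} (h : MinC a b N B U) (hN : N ≤ a + 6 * b) {F : Finset ι}
    (hm : MaxPack B U F) {C : Finset V} (hC : C ⊆ U \ F.biUnion B) : HD B C := by
  intro X hX Y hY kX kY hne
  have hCU : C ⊆ U := hC.trans sdiff_subset
  have h4 : Tr4 B C := fun i => (card_le_card (inter_subset_inter_left hC)).trans (hm.four h.five i)
  exact kX.disj_of_noTwin (h.reg.mono hCU) h4 hX hY kY hne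
    (fun x hx y hy hxy => h.noTwin hN (hCU hx) (hCU hy) hxy)

end Pool.Agent.Hyp6
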