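import Pool.Agent.Hyp6.OV1

/-!
# HYP6 OV2: two K-pieces meeting in one point, the end
-/

set_option autoImplicit false

namespace Pool.Agent.Hyp6

open Finset Pool.Agent.Hyp5

universe u v

variable {V : Type v} [DecidableEq V] {ι : Type u} [Fintype ι] {B : ι → Finset V}
  {U X Y Z : Finset V} {w : V}

/-- the blocks meeting `X` which do not contain `w`. -/
def Nw (B : ι → Finset V) (w : V) (X : Finset V) : Finset ι :=
  univ.filter (fun i => w ∉ B i ∧ (B i ∩ X).Nonempty)

theorem mem_Nw {i : ι} : i ∈ Nw B w X ↔ w ∉ B i ∧ (B i ∩ X).Nonempty := by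
  unfold Nw
  rw [mem_filter]
  simp

theorem card_Mw_add (P : Finset V) : (Mw B w P).card + (Nw B w P).card = cm B P := by
  classical
  have h1 : Disjoint (Mw B w P) (Nw B w P) := by
    rw [Finset.disjoint_left]
    intro i hi hi'
    exact (mem_Nw.1 hi').1 (mem_Mw.1 hi).1
  rw [← card_union_of_disjoint h1]
  unfold cm
  congr 1
  ext i
  rw [mem_union, mem_Mw, mem_Nw, cost_mem_tch]
  tauto

namespace One

theorem card_Nw (h : One B U X Y w) : (Nw B w X).card = 5 := by
  have h1 := card_Mw_add (B := B) (w := w) X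
  rw [h.kx.cmX] at h1
  have h2 : Mw B w X = univ.filter (fun i => w ∈ B i) := by
    ext i
    rw [mem_Mw, mem_filter]
    constructor
    · rintro ⟨h3, _⟩
      exact ⟨mem_univ _, h3⟩
    · rintro ⟨_, h3⟩
      exact ⟨h3, ⟨w, mem_inter.2 ⟨h3, h.wx⟩⟩⟩
  rw [h2, h.w5] at h1
  omega

/-- the points of `Z` outside of `X` and `Y` in a block of `X` without `w`. -/
theorem out_eq (h : One B U X Y w) (a : Alt B U X Y w Z) {i : ι} (hi : i ∈ Nw B w X)
    (hZ : (B i ∩ Z).Nonempty) :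
    (B i ∩ (X ∩ Z)).card + (B i ∩ ((Z \ X) \ Y)).card = 3 := by
  classical
  rw [mem_Nw] at hi
  have h1 := a.kz.trace (h.reg.mono a.sz) hZ
  have h2 := h.nmeet hi.1 hi.2
  have h3 : B i ∩ Z = (B i ∩ (X ∩ Z)) ∪ (B i ∩ ((Z \ X) \ Y)) := by
    ext v
    rw [mem_union, mem_inter, mem_inter, mem_inter, mem_inter, mem_sdiff, mem_sdiff]
    constructor
    · rintro ⟨hv, hvZ⟩
      have := h2 v hv
      tauto
    · tauto
  have h4 : Disjoint (B i ∩ (X ∩ Z)) (B i ∩ ((Z \ X) \ Y)) := by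
    rw [Finset.disjoint_left]
    intro v hv hv'
    rw [mem_inter, mem_inter] at hv
    rw [mem_inter, mem_sdiff, mem_sdiff] at hv'
    exact hv'.2.1.2 hv.2.1
  rw [h3, card_union_of_disjoint h4] at h1
  exact h1

/-- the outer points of a block of `X`. -/
theorem out_le (h : One B U X Y w) {i : ι} (hi : (B i ∩ X).Nonempty) :
    ((B i ∩ U) \ X).card ≤ 2 := by
  have h1 := h.tr hi
  have h2 := h.five i
  have h3 := card_sdiff_add_card_inter (B i ∩ U) X
  have h4 : (B i ∩ U) ∩ X = B i ∩ X := by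
    ext v
    simp only [mem_inter]
    constructor
    · tauto
    · rintro ⟨h5, h6⟩
      exact ⟨⟨h5, h.sx h6⟩, h6⟩
  rw [h4] at h3
  omega

omit [Fintype ι] in
theorem sub_out {i : ι} {P : Finset V} (hP : P ⊆ U) (hX : Disjoint P X) :
    B i ∩ P ⊆ (B i ∩ U) \ X := by
  intro v hv
  rw [mem_inter] at hv
  rw [mem_sdiff, mem_inter]
  exact ⟨⟨hv.1, hP hv.2⟩, fun hx => Finset.disjoint_left.1 hX hv.2 hx⟩

/-- the first kind. -/
structure K2 (B : ι → Finset V) (X Y : Finset V) (w : V) (Z : Finset V) : Prop where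
  c2 : (X ∩ Z).card = 2
  c1 : (Y ∩ Z).card = 1
  m : (Mw B w Z).card = 2
  cm7 : cm B (X ∩ Z) = 7

/-- the second kind. -/
structure K3 (B : ι → Finset V) (X Y : Finset V) (w : V) (Z : Finset V) : Prop where
  c3 : (X ∩ Z).card = 3
  c1 : (Y ∩ Z).card = 1
  m : (Mw B w Z).card = 3

theorem kinds' (h : One B U X Y w) (a : Alt B U X Y w Z) :
    (K2 B X Y w Z ∨ K3 B X Y w Z) ∨ (K2 B Y X w Z ∨ K3 B Y X w Z) := by
  rcases h.kinds a with h1 | h1 | h1 | h1
  · exact Or.inl (Or.inl ⟨h1.1, h1.2.1, h1.2.2.1, h1.2.2.2⟩)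
  · exact Or.inl (Or.inr ⟨h1.1, h1.2.1, h1.2.2⟩)
  · exact Or.inr (Or.inl ⟨h1.2.1, h1.1, h1.2.2.1, h1.2.2.2⟩)
  · exact Or.inr (Or.inr ⟨h1.2.1, h1.1, h1.2.2⟩)

/-- blocks through `w` meeting `Z` have two points in `X ∩ Z` when `Y ∩ Z` has one point. -/
theorem two_of (h : One B U X Y w) (a : Alt B U X Y w Z) (h1 : (Y ∩ Z).card = 1) {i : ι}
    (hi : i ∈ Mw B w Z) : (B i ∩ (X ∩ Z)).card = 2 := by
  have h2 := h.sum3 a hi
  have h3 := h.le2 a (mem_Mw.1 hi).1
  have h4 : (B i ∩ (Y ∩ Z)).card ≤ 1 := by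
    rw [← h1]
    exact card_le_card inter_subset_right
  omega

/-- all blocks of `X` without `w` meet `Z` for the first kind. -/
theorem K2.nw (h : One B U X Y w) (a : Alt B U X Y w Z) (k : K2 B X Y w Z) {i : ι}
    (hi : i ∈ Nw B w X) : (B i ∩ (X ∩ Z)).Nonempty := by
  have h1 := card_Mw_add (B := B) (w := w) (X ∩ Z)
  have h2 : Mw B w (X ∩ Z) = Mw B w Z := by
    ext j
    rw [mem_Mw, mem_Mw]
    constructor
    · rintro ⟨h3, h4⟩
      exact ⟨h3, h4.mono (inter_subset_inter_left inter_subset_right)⟩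
    · intro h3
      exact ⟨h3.1, card_pos.1 (h.one_le a (mem_Mw.2 h3))⟩
  rw [h2, k.m, k.cm7] at h1
  have h3 : Nw B w (X ∩ Z) ⊆ Nw B w X := by
    intro j hj
    rw [mem_Nw] at hj ⊢
    exact ⟨hj.1, hj.2.mono (inter_subset_inter_left inter_subset_left)⟩
  have h4 := eq_of_subset_of_card_le h3 (by rw [h.card_Nw]; omega)
  rw [← h4, mem_Nw] at hi
  exact hi.2

/-- the one block without `w` containing `X ∩ Z`. -/
theorem K2.b0 (h : One B U X Y w) (a : Alt B U X Y w Z) (k : K2 B X Y w Z) :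
    ∃ b ∈ Nw B w X, X ∩ Z ⊆ B b ∧ ∀ i ∈ Nw B w X, i ≠ b → (B i ∩ (X ∩ Z)).card = 1 := by
  classical
  obtain ⟨p, q, hpq, hA⟩ := card_eq_two.1 k.c2
  have hp : p ∈ X ∩ Z := by rw [hA]; simp
  have hq : q ∈ X ∩ Z := by rw [hA]; simp
  have h1 := cm_pair (h.rx.mono (singleton_subset_iff.2 (mem_inter.1 hp).1))
    (h.rx.mono (singleton_subset_iff.2 (mem_inter.1 hq).1))
  rw [← hA, k.cm7] at h1
  -- the blocks containing both
  have h2 : univ.filter (fun i => p ∈ B i ∧ q ∈ B i) =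
      Mw B w Z ∪ (Nw B w X).filter (fun i => p ∈ B i ∧ q ∈ B i) := by
    ext i
    rw [mem_filter, mem_union, mem_filter]
    constructor
    · rintro ⟨_, h3⟩
      by_cases hw : w ∈ B i
      · exact Or.inl (mem_Mw.2 ⟨hw, ⟨p, mem_inter.2 ⟨h3.1, (mem_inter.1 hp).2⟩⟩⟩)
      · exact Or.inr ⟨mem_Nw.2 ⟨hw, ⟨p, mem_inter.2 ⟨h3.1, (mem_inter.1 hp).1⟩⟩⟩, h3⟩
    · rintro (h3 | h3)
      · have h4 := h.two_of a k.c1 h3
        have h5 : B i ∩ (X ∩ Z) = X ∩ Z :=
          eq_of_subset_of_card_le inter_subset_right (by rw [h4, k.c2])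
        rw [← h5] at hp hq
        exact ⟨mem_univ _, (mem_inter.1 hp).1, (mem_inter.1 hq).1⟩
      · exact ⟨mem_univ _, h3.2⟩
  have h3 : Disjoint (Mw B w Z) ((Nw B w X).filter (fun i => p ∈ B i ∧ q ∈ B i)) := by
    rw [Finset.disjoint_left]
    intro i hi hi'
    exact (mem_Nw.1 (mem_filter.1 hi').1).1 (mem_Mw.1 hi).1
  unfold lam at h1
  rw [h2, card_union_of_disjoint h3, k.m] at h1
  obtain ⟨b, hb⟩ := card_eq_one.1 (by omega :
    ((Nw B w X).filter (fun i => p ∈ B i ∧ q ∈ B i)).card = 1)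
  have hb' : b ∈ (Nw B w X).filter (fun i => p ∈ B i ∧ q ∈ B i) := by
    rw [hb]; exact mem_singleton_self _
  rw [mem_filter] at hb'
  refine ⟨b, hb'.1, ?_, ?_⟩
  · rw [hA]
    intro v hv
    rw [mem_insert, mem_singleton] at hv
    rcases hv with rfl | rfl
    · exact hb'.2.1
    · exact hb'.2.2
  · intro i hi hib
    have h4 := card_pos.2 (k.nw h a hi)
    have h5 : (B i ∩ (X ∩ Z)).card ≤ 2 := by
      rw [← k.c2]
      exact card_le_card inter_subset_right
    have h6 : (B i ∩ (X ∩ Z)).card ≠ 2 := by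
      intro h6
      have h7 : B i ∩ (X ∩ Z) = X ∩ Z :=
        eq_of_subset_of_card_le inter_subset_right (by rw [h6, k.c2])
      apply hib
      have h8 : i ∈ (Nw B w X).filter (fun i => p ∈ B i ∧ q ∈ B i) := by
        rw [← h7] at hp hq
        exact mem_filter.2 ⟨hi, (mem_inter.1 hp).1, (mem_inter.1 hq).1⟩
      rw [hb, mem_singleton] at h8
      exact h8
    omega

/-- the first kind does not occur. -/
theorem no2 (h : One B U X Y w) (a : Alt B U X Y w Z) (k : K2 B X Y w Z)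
    (hall : ∀ c, w ∈ B c → ∃ Z', Alt B U X Y w Z' ∧ Disjoint (B c) Z') : False := by
  classical
  have hm := k.m
  obtain ⟨d, hd⟩ := card_pos.1 (by omega : 0 < (Mw B w Z).card)
  obtain ⟨Z', a', hdZ⟩ := hall d (mem_Mw.1 hd).1
  -- the parts in `X` are disjoint
  have hA1 : X ∩ Z ⊆ B d := by
    have h4 := h.two_of a k.c1 hd
    have h5 : B d ∩ (X ∩ Z) = X ∩ Z :=
      eq_of_subset_of_card_le inter_subset_right (by rw [h4, k.c2])
    rw [← h5]
    exact inter_subset_left
  have hAA : ∀ v ∈ X ∩ Z, v ∉ Z' := fun v hv hv' => Finset.disjoint_left.1 hdZ (hA1 hv) hv'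
  have hdis : Disjoint (X ∩ Z) (X ∩ Z') := by
    rw [Finset.disjoint_left]
    intro v hv hv'
    exact hAA v hv (mem_inter.1 hv').2
  have hN := h.card_Nw
  have hR1 : ((Z \ X) \ Y).card = 3 := by
    have e1 := card_sdiff_add_card_inter Z X
    have e2 := card_sdiff_add_card_inter (Z \ X) Y
    have e3 : (Z \ X) ∩ Y = Y ∩ Z := by
      ext v
      simp only [mem_inter, mem_sdiff]
      constructor
      · tauto
      · rintro ⟨h1, h2⟩
        refine ⟨⟨h2, fun h3 => ?_⟩, h1⟩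
        have : v ∈ X ∩ Y := mem_inter.2 ⟨h3, h1⟩
        rw [h.int, mem_singleton] at this
        rw [this] at h2
        exact a.nw h2
    rw [inter_comm, k.c2, a.kz.card] at e1
    rw [e3, k.c1] at e2
    omega
  have hsubU : ∀ {Z : Finset V}, Z ⊆ U → (Z \ X) \ Y ⊆ U := fun hZ =>
    (sdiff_subset.trans sdiff_subset).trans hZ
  have hdX : ∀ Z : Finset V, Disjoint ((Z \ X) \ Y) X := by
    intro Z
    rw [Finset.disjoint_left]
    intro v hv hv'
    exact (mem_sdiff.1 (mem_sdiff.1 hv).1).2 hv'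
  obtain ⟨b, hb, hAb, hbn⟩ := k.b0 h a
  rcases h.kinds' a' with (k' | k') | k'
  · -- two pieces of the first kind
    have h1 : ((univ.filter (fun i => w ∈ B i)) \ (Mw B w Z ∪ Mw B w Z')).card ≠ 0 := by
      intro h1
      have h2 := card_sdiff_add_card (univ.filter (fun i => w ∈ B i)) (Mw B w Z ∪ Mw B w Z')
      have h3 := card_union_le (Mw B w Z) (Mw B w Z')
      have h4 : (univ.filter (fun i => w ∈ B i)).card ≤
          ((univ.filter (fun i => w ∈ B i)) ∪ (Mw B w Z ∪ Mw B w Z')).card :=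
        card_le_card subset_union_left
      rw [h.w5] at h4
      rw [k.m, k'.m] at h3
      omega
    obtain ⟨e, he⟩ := card_pos.1 (Nat.pos_of_ne_zero h1)
    rw [mem_sdiff, mem_filter, mem_union, not_or, mem_Mw, mem_Mw] at he
    have h2 := h.wtr he.1.2
    have h3 : B e ∩ X ⊆ X \ ((X ∩ Z) ∪ (X ∩ Z')) := by
      intro v hv
      rw [mem_inter] at hv
      rw [mem_sdiff, mem_union, not_or]
      refine ⟨hv.2, fun h4 => he.2.1 ⟨he.1.2, ⟨v, mem_inter.2 ⟨hv.1, (mem_inter.1 h4).2⟩⟩⟩,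
        fun h4 => he.2.2 ⟨he.1.2, ⟨v, mem_inter.2 ⟨hv.1, (mem_inter.1 h4).2⟩⟩⟩⟩
    have h4 := card_le_card h3
    have h5 := card_sdiff_add_card_eq_card (union_subset (inter_subset_left (s₁ := X) (s₂ := Z))
      (inter_subset_left (s₁ := X) (s₂ := Z')))
    rw [card_union_of_disjoint hdis, k.c2, k'.c2, h.kx.card] at h5
    omega
  · -- the second kind
    have hXe : X.erase w = (X ∩ Z) ∪ (X ∩ Z') := by
      symm
      refine eq_of_subset_of_card_le ?_ ?_
      · intro v hv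
        rw [mem_union, mem_inter, mem_inter] at hv
        rw [mem_erase]
        rcases hv with hv | hv
        · exact ⟨fun e => a.nw (e ▸ hv.2), hv.1⟩
        · exact ⟨fun e => a'.nw (e ▸ hv.2), hv.1⟩
      · rw [card_union_of_disjoint hdis, k.c2, k'.c3, card_erase_of_mem h.wx, h.kx.card]
    have hR2 : ((Z' \ X) \ Y).card = 2 := by
      have e1 := card_sdiff_add_card_inter Z' X
      have e2 := card_sdiff_add_card_inter (Z' \ X) Y
      have e3 : (Z' \ X) ∩ Y = Y ∩ Z' := by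
        ext v
        simp only [mem_inter, mem_sdiff]
        constructor
        · tauto
        · rintro ⟨h1, h2⟩
          refine ⟨⟨h2, fun h3 => ?_⟩, h1⟩
          have : v ∈ X ∩ Y := mem_inter.2 ⟨h3, h1⟩
          rw [h.int, mem_singleton] at this
          rw [this] at h2
          exact a'.nw h2
      rw [inter_comm, k'.c3, a'.kz.card] at e1
      rw [e3, k'.c1] at e2
      omega
    -- the traces of the blocks without `w`
    have htr : ∀ i ∈ Nw B w X, (B i ∩ (X ∩ Z)).card + (B i ∩ (X ∩ Z')).card = 3 := by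
      intro i hi
      have hi' := mem_Nw.1 hi
      have h1 := h.tr hi'.2
      have h2 : B i ∩ X = (B i ∩ (X ∩ Z)) ∪ (B i ∩ (X ∩ Z')) := by
        rw [← inter_union_distrib_left, ← hXe]
        ext v
        rw [mem_inter, mem_inter, mem_erase]
        constructor
        · rintro ⟨h3, h4⟩
          exact ⟨h3, fun e => hi'.1 (e ▸ h3), h4⟩
        · tauto
      rw [h2, card_union_of_disjoint (disjoint_of_subset_left inter_subset_right
        (disjoint_of_subset_right inter_subset_right hdis))] at h1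
      exact h1
    have ho1 : ∀ i ∈ Nw B w X, (B i ∩ (X ∩ Z)).card + (B i ∩ ((Z \ X) \ Y)).card = 3 := by
      intro i hi
      exact h.out_eq a hi ((k.nw h a hi).mono (inter_subset_inter_left inter_subset_right))
    have hA2le : ∀ i, (B i ∩ (X ∩ Z)).card ≤ 2 := fun i => by
      rw [← k.c2]
      exact card_le_card inter_subset_right
    have ho2 : ∀ i ∈ Nw B w X, (B i ∩ (X ∩ Z')).card + (B i ∩ ((Z' \ X) \ Y)).card = 3 := by
      intro i hi
      have h1 := htr i hi
      have h2 := hA2le i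
      have h3 : (B i ∩ (X ∩ Z')).Nonempty := card_pos.1 (by omega)
      exact h.out_eq a' hi (h3.mono (inter_subset_inter_left inter_subset_right))
    -- the block `b`
    have hb2 : (B b ∩ (X ∩ Z)).card = 2 := by
      rw [inter_eq_right.2 hAb, k.c2]
    have hbR : (Z' \ X) \ Y ⊆ B b := by
      have h1 := htr b hb
      have h2 := ho2 b hb
      have h3 : B b ∩ ((Z' \ X) \ Y) = (Z' \ X) \ Y :=
        eq_of_subset_of_card_le inter_subset_right (by omega)
      rw [← h3]
      exact inter_subset_left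
    have hbo : (B b ∩ U) \ X = (Z' \ X) \ Y := by
      symm
      refine eq_of_subset_of_card_le ?_ ?_
      · have h1 := sub_out (B := B) (i := b) (hsubU a'.sz) (hdX Z')
        rw [inter_eq_right.2 hbR] at h1
        exact h1
      · rw [hR2]
        exact h.out_le (mem_Nw.1 hb).2
    have hr1 : (B b ∩ ((Z \ X) \ Y)).card = 1 := by
      have := ho1 b hb
      omega
    have hr2 : (((Z' \ X) \ Y) ∩ ((Z \ X) \ Y)).card ≤ 1 := by
      rw [← hr1]
      refine card_le_card (inter_subset_inter_right hbR)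
    -- every block contains the common point
    have hcom : ∀ i ∈ Nw B w X, (B i ∩ (((Z' \ X) \ Y) ∩ ((Z \ X) \ Y))).Nonempty := by
      intro i hi
      have h1 := htr i hi
      have h2 := ho1 i hi
      have h3 := ho2 i hi
      have h4 := h.out_le (mem_Nw.1 hi).2
      have h5 := card_union_add_card_inter (B i ∩ ((Z' \ X) \ Y)) (B i ∩ ((Z \ X) \ Y))
      have h6 : B i ∩ ((Z' \ X) \ Y) ∪ B i ∩ ((Z \ X) \ Y) ⊆ (B i ∩ U) \ X :=
        union_subset (sub_out (hsubU a'.sz) (hdX Z')) (sub_out (hsubU a.sz) (hdX Z))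
      have h7 := card_le_card h6
      rw [← inter_inter_distrib_left] at h5
      exact card_pos.1 (by omega)
    obtain ⟨r, hr⟩ : ∃ r, ((Z' \ X) \ Y) ∩ ((Z \ X) \ Y) = {r} := by
      rw [← card_eq_one]
      have h1 := card_pos.2 ((hcom b hb).mono inter_subset_right)
      omega
    have hr' : r ∈ ((Z' \ X) \ Y) ∩ ((Z \ X) \ Y) := by rw [hr]; exact mem_singleton_self _
    rw [mem_inter, mem_sdiff, mem_sdiff] at hr'
    have hrb : ∀ i ∈ Nw B w X, r ∈ B i := by
      intro i hi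
      obtain ⟨v, hv⟩ := hcom i hi
      rw [hr, mem_inter, mem_singleton] at hv
      rw [← hv.2]
      exact hv.1
    obtain ⟨y, hy⟩ := a'.ay
    rw [mem_inter] at hy
    obtain ⟨g, hgr, hgy⟩ := a'.kz.common (h.reg.mono a'.sz) hr'.1.1.1 hy.2 (by
      rintro rfl
      exact hr'.1.2 hy.1)
    have h1 : Nw B w X ⊆ univ.filter (fun i => r ∈ B i) := fun i hi =>
      mem_filter.2 ⟨mem_univ _, hrb i hi⟩
    have h2 := eq_of_subset_of_card_le h1 (by rw [h.reg r (a'.sz hr'.1.1.1), hN])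
    have h3 : g ∈ Nw B w X := by
      rw [h2]
      exact mem_filter.2 ⟨mem_univ _, hgr⟩
    rw [mem_Nw] at h3
    exact h.nmeet h3.1 h3.2 y hgy hy.1
  · -- one common point with `X`
    have hc1 : (X ∩ Z').card = 1 := by
      rcases k' with k' | k'
      · exact k'.c1
      · exact k'.c1
    have hm2 : 2 ≤ (Mw B w Z').card ∧ (Mw B w Z').card ≤ 3 := by
      rcases k' with k' | k'
      · rw [k'.m]; omega
      · rw [k'.m]; omega
    obtain ⟨x, hx⟩ := card_eq_one.1 hc1
    have hx' : x ∈ X ∩ Z' := by rw [hx]; exact mem_singleton_self _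
    rw [mem_inter] at hx'
    -- the blocks without `w` through `x`
    have hMx : Mw B w Z' = univ.filter (fun i => w ∈ B i ∧ x ∈ B i) := by
      ext i
      constructor
      · intro hi
        obtain ⟨v, hv⟩ := card_pos.1 (h.one_le a' hi)
        rw [hx, mem_inter, mem_singleton] at hv
        exact mem_filter.2 ⟨mem_univ _, (mem_Mw.1 hi).1, hv.2 ▸ hv.1⟩
      · intro hi
        rw [mem_filter] at hi
        exact mem_Mw.2 ⟨hi.2.1, ⟨x, mem_inter.2 ⟨hi.2.2, hx'.2⟩⟩⟩
    have hNx : ((Nw B w X).filter (fun i => x ∈ B i)).card + (Mw B w Z').card = 5 := by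
      have h1 : (Nw B w X).filter (fun i => x ∈ B i) ∪ Mw B w Z' =
          univ.filter (fun i => x ∈ B i) := by
        rw [hMx]
        ext i
        rw [mem_union, mem_filter, mem_filter, mem_filter, mem_Nw]
        constructor
        · rintro (h2 | h2)
          · exact ⟨mem_univ _, h2.2⟩
          · exact ⟨mem_univ _, h2.2.2⟩
        · rintro ⟨_, h2⟩
          by_cases hw : w ∈ B i
          · exact Or.inr ⟨mem_univ _, hw, h2⟩
          · exact Or.inl ⟨⟨hw, ⟨x, mem_inter.2 ⟨h2, hx'.1⟩⟩⟩, h2⟩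
      have h2 : Disjoint ((Nw B w X).filter (fun i => x ∈ B i)) (Mw B w Z') := by
        rw [Finset.disjoint_left]
        intro i hi hi'
        exact (mem_Nw.1 (mem_filter.1 hi).1).1 (mem_Mw.1 hi').1
      rw [← card_union_of_disjoint h2, h1, h.reg x (h.sx hx'.1)]
    have hNx' := card_filter_add_card_filter_not (s := Nw B w X) (fun i => x ∈ B i)
    obtain ⟨t1, ht1⟩ : ∃ t ∈ (Nw B w X).filter (fun i => x ∈ B i), t ≠ b := by
      by_contra hcon
      push Not at hcon
      have : (Nw B w X).filter (fun i => x ∈ B i) ⊆ {b} := fun i hi => mem_singleton.2 (hcon i hi)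
      have := card_le_card this
      rw [card_singleton] at this
      omega
    obtain ⟨t2, ht2⟩ : ∃ t ∈ (Nw B w X).filter (fun i => x ∉ B i), t ≠ b := by
      by_contra hcon
      push Not at hcon
      have : (Nw B w X).filter (fun i => x ∉ B i) ⊆ {b} := fun i hi => mem_singleton.2 (hcon i hi)
      have := card_le_card this
      rw [card_singleton] at this
      omega
    rw [mem_filter] at ht1 ht2
    obtain ⟨⟨ht1, hx1⟩, hb1⟩ := ht1
    obtain ⟨⟨ht2, hx2⟩, hb2⟩ := ht2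
    have ho : ∀ i ∈ Nw B w X, i ≠ b → (B i ∩ ((Z \ X) \ Y)).card = 2 ∧
        (B i ∩ U) \ X = B i ∩ ((Z \ X) \ Y) := by
      intro i hi hib
      have h1 := h.out_eq a hi ((k.nw h a hi).mono (inter_subset_inter_left inter_subset_right))
      have h2 := hbn i hi hib
      have h3 := h.out_le (mem_Nw.1 hi).2
      refine ⟨by omega, ?_⟩
      symm
      exact eq_of_subset_of_card_le (sub_out (hsubU a.sz) (hdX Z)) (by omega)
    obtain ⟨o1, p1⟩ := ho t1 ht1 hb1
    obtain ⟨o2, p2⟩ := ho t2 ht2 hb2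
    -- the block `t1`
    have q1 : (B t1 ∩ ((Z' \ X) \ Y)).card = 2 := by
      have h1 := h.out_eq a' ht1 ⟨x, mem_inter.2 ⟨hx1, hx'.2⟩⟩
      have h2 : (B t1 ∩ (X ∩ Z')).card = 1 := by
        rw [hx, inter_singleton_of_mem hx1, card_singleton]
      omega
    have q2 : B t1 ∩ ((Z \ X) \ Y) = B t1 ∩ ((Z' \ X) \ Y) := by
      rw [← p1]
      symm
      refine eq_of_subset_of_card_le (sub_out (hsubU a'.sz) (hdX Z')) ?_
      rw [p1, o1, q1]
    -- the block `t2`
    have q3 : ∀ v ∈ B t2, v ∉ Z' := by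
      intro v hv hvZ
      have h1 := h.out_eq a' ht2 ⟨v, mem_inter.2 ⟨hv, hvZ⟩⟩
      have h2 : (B t2 ∩ (X ∩ Z')).card = 0 := by
        rw [hx, inter_singleton_of_notMem hx2, card_empty]
      have h3 := card_le_card (sub_out (B := B) (i := t2) (hsubU a'.sz) (hdX Z'))
      have h4 := h.out_le (mem_Nw.1 ht2).2
      omega
    have q4 : Disjoint (B t1 ∩ ((Z \ X) \ Y)) (B t2 ∩ ((Z \ X) \ Y)) := by
      rw [Finset.disjoint_left]
      intro v hv hv'
      rw [q2, mem_inter, mem_sdiff, mem_sdiff] at hv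
      exact q3 v (mem_inter.1 hv').1 hv.2.1.1
    have q5 : B t1 ∩ ((Z \ X) \ Y) ∪ B t2 ∩ ((Z \ X) \ Y) ⊆ (Z \ X) \ Y :=
      union_subset inter_subset_right inter_subset_right
    have q6 := card_le_card q5
    rw [card_union_of_disjoint q4, o1, o2, hR1] at q6
    omega

/-- two pieces of the second kind are avoided by the same blocks through `w`. -/
theorem no33 (h : One B U X Y w) {Z' : Finset V} (a : Alt B U X Y w Z) (a' : Alt B U X Y w Z')
    (k : K3 B X Y w Z) (k' : K3 B X Y w Z') {c : ι} (hc : c ∈ Mw B w Z) (hc' : c ∉ Mw B w Z') :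
    False := by
  classical
  have h1 := h.two_of a k.c1 hc
  have h2 : (Mw B w Z ∩ Mw B w Z').Nonempty := by
    rw [← card_pos]
    have h3 := card_union_add_card_inter (Mw B w Z) (Mw B w Z')
    have h4 : (Mw B w Z ∪ Mw B w Z').card ≤ 5 := by
      rw [← h.w5]
      refine card_le_card fun i hi => mem_filter.2 ⟨mem_univ _, ?_⟩
      rcases mem_union.1 hi with h5 | h5
      · exact (mem_Mw.1 h5).1
      · exact (mem_Mw.1 h5).1
    rw [k.m, k'.m] at h3
    omega
  obtain ⟨e, he⟩ := h2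
  rw [mem_inter] at he
  have h3 := h.two_of a k.c1 he.1
  have h4 := h.two_of a' k'.c1 he.2
  have hew := (mem_Mw.1 he.1).1
  have h5 : (B e ∩ X).erase w = B e ∩ (X ∩ Z) := by
    symm
    refine eq_of_subset_of_card_le ?_ ?_
    · intro v hv
      rw [mem_inter, mem_inter] at hv
      rw [mem_erase, mem_inter]
      exact ⟨fun e => a.nw (e ▸ hv.2.2), hv.1, hv.2.1⟩
    · rw [card_erase_of_mem (mem_inter.2 ⟨hew, h.wx⟩), h.wtr hew]
      omega
  have h6 : (B e ∩ X).erase w = B e ∩ (X ∩ Z') := by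
    symm
    refine eq_of_subset_of_card_le ?_ ?_
    · intro v hv
      rw [mem_inter, mem_inter] at hv
      rw [mem_erase, mem_inter]
      exact ⟨fun e => a'.nw (e ▸ hv.2.2), hv.1, hv.2.1⟩
    · rw [card_erase_of_mem (mem_inter.2 ⟨hew, h.wx⟩), h.wtr hew]
      omega
  -- two points in both
  have h7 : B e ∩ (X ∩ Z) ⊆ (X ∩ Z) \ B c := by
    intro v hv
    have hv2 : v ∈ B e ∩ (X ∩ Z') := by rw [← h6, h5]; exact hv
    rw [mem_inter, mem_inter] at hv hv2
    rw [mem_sdiff, mem_inter]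
    refine ⟨hv.2, fun hvc => hc' (mem_Mw.2 ⟨(mem_Mw.1 hc).1, ⟨v, mem_inter.2 ⟨hvc, hv2.2.2⟩⟩⟩)⟩
  have h8 := card_le_card h7
  have h9 := card_sdiff_add_card_inter (X ∩ Z) (B c)
  rw [inter_comm (X ∩ Z) (B c), h1, k.c3] at h9
  omega

/-- the end when some piece is of the second kind with respect to `X`. -/
theorem absurd3 (h : One B U X Y w) (a : Alt B U X Y w Z) (k : K3 B X Y w Z)
    (hall : ∀ c, w ∈ B c → ∃ Z', Alt B U X Y w Z' ∧ Disjoint (B c) Z') : False := by
  classical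
  have hall' : ∀ c, w ∈ B c → ∃ Z', Alt B U Y X w Z' ∧ Disjoint (B c) Z' := fun c hc => by
    obtain ⟨Z', a', h1⟩ := hall c hc
    exact ⟨Z', a'.symm, h1⟩
  have hnm : ∀ {c : ι} {Z' : Finset V}, Disjoint (B c) Z' → c ∉ Mw B w Z' := by
    intro c Z' hd hc
    obtain ⟨v, hv⟩ := (mem_Mw.1 hc).2
    rw [mem_inter] at hv
    exact Finset.disjoint_left.1 hd hv.1 hv.2
  have hm := k.m
  obtain ⟨c1, hc1⟩ := card_pos.1 (by omega : 0 < (Mw B w Z).card)
  obtain ⟨Z2, a2, hd2⟩ := hall c1 (mem_Mw.1 hc1).1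
  rcases h.kinds' a2 with (k2 | k2) | (k2 | k2)
  · exact h.no2 a2 k2 hall
  · exact h.no33 a a2 k k2 hc1 (hnm hd2)
  · exact h.symm.no2 a2.symm k2 hall'
  · have h2 : (Mw B w Z ∩ Mw B w Z2).Nonempty := by
      rw [← card_pos]
      have h3 := card_union_add_card_inter (Mw B w Z) (Mw B w Z2)
      have h4 : (Mw B w Z ∪ Mw B w Z2).card ≤ 5 := by
        rw [← h.w5]
        refine card_le_card fun i hi => mem_filter.2 ⟨mem_univ _, ?_⟩
        rcases mem_union.1 hi with h5 | h5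
        · exact (mem_Mw.1 h5).1
        · exact (mem_Mw.1 h5).1
      rw [k.m, k2.m] at h3
      omega
    obtain ⟨c2, hc2⟩ := h2
    rw [mem_inter] at hc2
    obtain ⟨Z3, a3, hd3⟩ := hall c2 (mem_Mw.1 hc2.1).1
    rcases h.kinds' a3 with (k3 | k3) | (k3 | k3)
    · exact h.no2 a3 k3 hall
    · exact h.no33 a a3 k k3 hc2.1 (hnm hd3)
    · exact h.symm.no2 a3.symm k3 hall'
    · exact h.symm.no33 a2.symm a3.symm k2 k3 hc2.2 (hnm hd3)

/-- **L1.** not every block through the common point is avoided. -/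
theorem absurd (h : One B U X Y w)
    (hall : ∀ c, w ∈ B c → ∃ Z', Alt B U X Y w Z' ∧ Disjoint (B c) Z') : False := by
  have hall' : ∀ c, w ∈ B c → ∃ Z', Alt B U Y X w Z' ∧ Disjoint (B c) Z' := fun c hc => by
    obtain ⟨Z', a', h1⟩ := hall c hc
    exact ⟨Z', a'.symm, h1⟩
  have h5 := h.w5
  obtain ⟨c, hc⟩ := card_pos.1 (by omega : 0 < (univ.filter (fun i => w ∈ B i)).card)
  obtain ⟨Z', a', _⟩ := hall c (mem_filter.1 hc).2
  rcases h.kinds' a' with (k | k) | (k | k)
  · exact h.no2 a' k hall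
  · exact h.absurd3 a' k hall
  · exact h.symm.no2 a'.symm k hall'
  · exact h.symm.absurd3 a'.symm k hall'

end One

end Pool.Agent.Hyp6
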