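import Pool.Agent.Hyp6.OVF
import Pool.Agent.Hyp6.OV2

/-!
# HYP6 OVG: overlapping K-pieces, final form
-/

set_option autoImplicit false

namespace Pool.Agent.Hyp6

open Finset Pool.Agent.Hyp5

universe u v

variable {V : Type v} [DecidableEq V] {ι : Type u} [Fintype ι] {B : ι → Finset V}

theorem ovOne {U : Finset V} (hr : Reg B U) (h5 : ∀ i, (B i ∩ U).card ≤ 5) : OvOne B U := by
  intro Ks f S S' hS hS' hcard
  obtain ⟨w, hw⟩ := card_eq_one.1 hcard
  have o : One B U S S' w := ⟨hr, h5, f.sub S hS, f.sub S' hS', f.kp S hS, f.kp S' hS', hw⟩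
  refine o.absurd fun c hc => ?_
  have h1 : (B c ∩ (S ∩ S')).card = 1 := by
    rw [hw, card_eq_one]
    refine ⟨w, ?_⟩
    rw [inter_eq_right, singleton_subset_iff]
    exact hc
  obtain ⟨K, hK, hd, g1, g2⟩ := f.star S S' c hS hS' h1
  exact ⟨K, ⟨f.kp K hK, f.sub K hK, by rwa [inter_comm], by rwa [inter_comm], c, hc, hd⟩, hd⟩

/-- **OV.** for an optimal packing of a connected set with `55 rho > 13 cm + 7 |U|` a K-piece of the rest is
disjoint from all K-pieces which meet a member `z` and lie inside the rest together with `z`. -/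
theorem OptPack.OV [DecidableEq ι] {U : Finset V} {F : Finset ι} (h : OptPack B U F)
    (hr : Reg B U) (h5 : ∀ i, (B i ∩ U).card ≤ 5) (hc : Conn (gr B) U)
    (hbig : 13 * cm B U + 7 * U.card < 55 * rho B U) {z : ι} (hz : z ∈ F) {X Y : Finset V}
    (hX : X ∈ kps B (Wr B U F)) (hY : KP B Y) (hYs : Y ⊆ Wr B U F ∪ (B z ∩ U))
    (hYz : (B z ∩ Y).Nonempty) : Disjoint X Y :=
  h.ov hr h5 (ovOne hr h5) hc hbig hz hX hY hYs hYz

end Pool.Agent.Hyp6
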