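import Pool.Agent.Hyp6.KD4
import Pool.Agent.Hyp6.KDR
import Pool.Agent.Hyp6.KDP
import Pool.Agent.Hyp6.NT
import Pool.Agent.Hyp6.OVG

/-!
# HYP6 KDS: the summation at level 5 (owner helper96)
-/

set_option autoImplicit false

namespace Pool.Agent.Hyp6

open Finset Pool.Agent.Hyp5

universe u v

variable {V : Type v} [DecidableEq V] {ι : Type u} [Fintype ι] [DecidableEq ι]

variable {B : ι → Finset V} {U : Finset V} {F : Finset ι} {K : Finset (Finset V)}

theorem pay_nonneg (w : ℕ) : 0 ≤ pay w := by
  unfold pay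
  split_ifs <;> norm_num

/-- the reserved parts of the credit of any block. -/
theorem sum_uu_le' (hF : Pack B U 5 F) (i : ι) :
    ∑ z ∈ F, uu B U F z i ≤ hh B U F i - 1 := by
  rw [hh_eq_sum hF]
  have h1 : ∀ z, uu B U F z i ≤ (trc B U z ∩ trc B U i).card - 1 := by
    intro z
    unfold uu sx
    split_ifs <;> omega
  by_cases h2 : ∃ z ∈ F, (trc B U z ∩ trc B U i).card ≠ 0
  · obtain ⟨z, hz, h3⟩ := h2
    rw [← add_sum_erase F _ hz, ← add_sum_erase F (fun z => (trc B U z ∩ trc B U i).card) hz]
    have h4 : ∑ y ∈ F.erase z, uu B U F y i ≤ ∑ y ∈ F.erase z, (trc B U y ∩ trc B U i).card :=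
      sum_le_sum fun y _ => (h1 y).trans (Nat.sub_le _ _)
    have h5 := h1 z
    omega
  · push Not at h2
    rw [sum_eq_zero fun z hz => ?_]
    · omega
    · have := h1 z
      have := h2 z hz
      omega

/-- the balance of a block outside the packing which is not private. -/
theorem block_bal (p : Pts B U F K) {KA : Finset (Finset V)} (hKA : KA ⊆ K) {i : ι}
    (hi : i ∈ NP B U F) :
    125 * (∑ z ∈ F, (uu B U F z i : ℤ)) +
      (if i ∈ goodA B U F KA then 550 * (∑ z ∈ F, (uu B U F z i : ℤ)) else 0) + cst B U F i ≤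
    kept (hh B U F i) (ww B U F i) + ∑ C ∈ KA, pay (B i ∩ C).card +
      (if i ∈ KDb B U F then 990 else 0) := by
  classical
  obtain ⟨hiF, hiP⟩ := mem_NP.1 hi
  have hs := hh_add_ww (B := B) U F i
  have h5 := p.h5 i
  have hw4 : ww B U F i ≤ 4 := p.h.four p.h5 i
  have hu1 := sum_uu_le' (B := B) (U := U) p.h.pack i
  have hpay : 0 ≤ ∑ C ∈ KA, pay (B i ∩ C).card := sum_nonneg fun C _ => pay_nonneg _
  have hcast : ∑ z ∈ F, (uu B U F z i : ℤ) = ((∑ z ∈ F, uu B U F z i : ℕ) : ℤ) := by
    push_cast; rfl
  rw [hcast]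
  -- the cost
  have hcst : cst B U F i = 0 ∨ (cst B U F i = 990 ∧ ww B U F i = 3 ∧ i ∈ KB B U F) ∨
      (cst B U F i = 495 ∧ ww B U F i = 4) := by
    unfold cst
    by_cases g1 : i ∈ KB B U F
    · rcases p.kb_ww g1 with g2 | g2
      · right; left
        rw [if_pos g1, if_pos g2]
        exact ⟨rfl, g2, g1⟩
      · right; right
        rw [if_pos g1, if_neg (by omega)]
        exact ⟨rfl, g2⟩
    · left
      rw [if_neg g1]
  by_cases hq : (B i ∩ U).card = 5
  · -- a quint
    have hh2 : 2 ≤ hh B U F i := by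
      by_contra hcon
      exact hiP ⟨hiF, hq, by omega⟩
    have hu2 := sum_uu_le (B := B) p.h.pack p.h.max p.hr hiF hq hh2
    set u := ∑ z ∈ F, uu B U F z i with hu
    have hcases : (hh B U F i = 2 ∧ ww B U F i = 3) ∨ (hh B U F i = 3 ∧ ww B U F i = 2) ∨
        (hh B U F i = 4 ∧ ww B U F i = 1) ∨ (hh B U F i = 5 ∧ ww B U F i = 0) := by omega
    have hk23 : kept 2 3 = 0 := by unfold kept cred vals pay; norm_num
    have hk32 : kept 3 2 = 125 := by unfold kept cred vals pay; norm_num
    have hk41 : kept 4 1 = 250 := by unfold kept cred vals pay; norm_num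
    have hk50 : kept 5 0 = 2025 := by unfold kept cred vals pay; norm_num
    -- the refund of a good block
    have hgood : i ∈ goodA B U F KA → ww B U F i ≠ 0 →
        pay (ww B U F i) ≤ ∑ C ∈ KA, pay (B i ∩ C).card := by
      intro hg hw
      unfold goodA at hg
      rw [mem_filter] at hg
      rcases hg.2.2.2 with g | ⟨C, hC, hCi⟩
      · exact absurd g hw
      · have hiC : (B i ∩ C).Nonempty := by
          obtain ⟨v, hv⟩ := card_pos.1 (Nat.pos_of_ne_zero hw)
          exact ⟨v, mem_inter.2 ⟨(mem_inter.1 hv).1, hCi hv⟩⟩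
        have h1 := p.tr (hKA hC) hiC
        have h2 : pay (ww B U F i) = pay (B i ∩ C).card := by
          rw [h1]; rfl
        rw [h2]
        exact single_le_sum (f := fun C => pay (B i ∩ C).card) (fun C _ => pay_nonneg _) hC
    rcases hcases with ⟨e1, e2⟩ | ⟨e1, e2⟩ | ⟨e1, e2⟩ | ⟨e1, e2⟩
    · rw [e1, e2, hk23]
      have hu0 : u = 0 := by omega
      rw [hu0]
      rcases hcst with g | ⟨g, _, g2⟩ | ⟨g, g1⟩
      · rw [g]
        split_ifs <;> norm_num <;> linarith
      · have hk : i ∈ KDb B U F := mem_KDb.2 ⟨hiF, hq, e1, mem_KB.1 g2⟩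
        rw [g, if_pos hk]
        split_ifs <;> norm_num <;> linarith
      · omega
    · rw [e1, e2, hk32]
      have hu0 : (u : ℤ) ≤ 1 := by
        have : u ≤ 1 := by omega
        exact_mod_cast this
      have hc0 : cst B U F i = 0 := by
        rcases hcst with g | ⟨g, g1, _⟩ | ⟨g, g1⟩
        · exact g
        · omega
        · omega
      have hk0 : (0 : ℤ) ≤ (if i ∈ KDb B U F then 990 else 0) := by split_ifs <;> norm_num
      rw [hc0]
      by_cases hg : i ∈ goodA B U F KA
      · have g1 := hgood hg (by omega)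
        rw [e2] at g1
        have g2 : pay 2 = 550 := by unfold pay; norm_num
        rw [g2] at g1
        rw [if_pos hg]
        linarith
      · rw [if_neg hg]
        linarith
    · rw [e1, e2, hk41]
      have hu0 : (u : ℤ) ≤ 2 := by
        have : u ≤ 2 := by omega
        exact_mod_cast this
      have hc0 : cst B U F i = 0 := by
        rcases hcst with g | ⟨g, g1, _⟩ | ⟨g, g1⟩
        · exact g
        · omega
        · omega
      have hk0 : (0 : ℤ) ≤ (if i ∈ KDb B U F then 990 else 0) := by split_ifs <;> norm_num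
      rw [hc0]
      by_cases hg : i ∈ goodA B U F KA
      · have g1 := hgood hg (by omega)
        rw [e2] at g1
        have g2 : pay 1 = 1100 := by unfold pay; norm_num
        rw [g2] at g1
        rw [if_pos hg]
        linarith
      · rw [if_neg hg]
        linarith
    · rw [e1, e2, hk50]
      have hu0 : (u : ℤ) ≤ 3 := by
        have : u ≤ 3 := by omega
        exact_mod_cast this
      have hc0 : cst B U F i = 0 := by
        rcases hcst with g | ⟨g, g1, _⟩ | ⟨g, g1⟩
        · exact g
        · omega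
        · omega
      have hk0 : (0 : ℤ) ≤ (if i ∈ KDb B U F then 990 else 0) := by split_ifs <;> norm_num
      rw [hc0]
      split_ifs at hk0 ⊢ <;> linarith
  · -- a short block
    have hng : i ∉ goodA B U F KA := by
      intro hg
      unfold goodA at hg
      exact hq (mem_trs.1 (mem_filter.1 hg).1)
    have hnk : i ∉ KDb B U F := fun hk => hq (mem_KDb.1 hk).2.1
    rw [if_neg hng, if_neg hnk]
    set u := ∑ z ∈ F, uu B U F z i with hu
    have hu' : (u : ℤ) ≤ ((hh B U F i - 1 : ℕ) : ℤ) := by exact_mod_cast hu1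
    have key : 125 * ((hh B U F i - 1 : ℕ) : ℤ) + cst B U F i ≤
        kept (hh B U F i) (ww B U F i) := by
      have hs4 : hh B U F i + ww B U F i ≤ 4 := by omega
      obtain ⟨h, hh'⟩ : ∃ h, hh B U F i = h := ⟨_, rfl⟩
      obtain ⟨w, hw'⟩ : ∃ w, ww B U F i = w := ⟨_, rfl⟩
      rw [hh', hw'] at hs4 ⊢
      rw [hw'] at hcst
      have hh4 : h ≤ 4 := by omega
      have hw4' : w ≤ 4 := by omega
      rcases hcst with g | ⟨g, g1, _⟩ | ⟨g, g1⟩
      · rw [g]
        unfold kept cred vals pay
        interval_cases w <;> interval_cases h <;> first | (exfalso; omega) | norm_num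
      · rw [g, g1]
        have : h ≤ 1 := by omega
        unfold kept cred vals pay
        interval_cases h <;> norm_num
      · rw [g, g1]
        have : h = 0 := by omega
        rw [this]
        unfold kept cred vals pay
        norm_num
    linarith

end Pool.Agent.Hyp6
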