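import Pool.Agent.Hyp6.L4K2

/-!
# HYP6 KP: counting inside a K-piece

`lam B a b`: the number of blocks containing `a` and `b`. `mt B X T`: the number of blocks with the trace `T`
on `X`. `KP.k0`: the counting for the complement of a trace. `KP.lam_le`: two points of a K-piece lie in at
most three common blocks. `KP.k3`: two disjoint pairs of points which lie in three common blocks.
-/

set_option autoImplicit false

namespace Pool.Agent.Hyp6

open Finset Pool.Agent.Hyp5

universe u v

variable {V : Type v} [DecidableEq V] {ι : Type u} [Fintype ι] {B : ι → Finset V} {X : Finset V}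

/-- the number of blocks containing `a` and `b`. -/
def lam (B : ι → Finset V) (a b : V) : ℕ := (univ.filter (fun i => a ∈ B i ∧ b ∈ B i)).card

/-- the number of blocks with the trace `T` on `X`. -/
def mt (B : ι → Finset V) (X T : Finset V) : ℕ := (univ.filter (fun i => B i ∩ X = T)).card

theorem lam_comm (a b : V) : lam B a b = lam B b a := by
  unfold lam
  congr 1
  ext i
  simp only [mem_filter, and_comm]

/-- a block with the trace `T`. -/
theorem mt_pos {T : Finset V} (h : 1 ≤ mt B X T) : ∃ i, B i ∩ X = T := by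
  obtain ⟨i, hi⟩ := card_pos.1 h
  exact ⟨i, (mem_filter.1 hi).2⟩

theorem mt_eq_zero {T : Finset V} (h : ∀ i, B i ∩ X ≠ T) : mt B X T = 0 := by
  unfold mt
  rw [card_eq_zero, filter_eq_empty_iff]
  exact fun i _ => h i

theorem KP.mt_le (hr : Reg B X) (h : KP B X) {T : Finset V} (hT : T.Nonempty) : mt B X T ≤ 2 := by
  by_contra hcon
  push Not at hcon
  obtain ⟨i, hi⟩ := mt_pos (B := B) (X := X) (T := T) (by omega)
  have h1 := (h.count hr (i := i) (by rw [hi]; exact hT)).1
  rw [hi] at h1
  unfold mt at hcon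
  omega

/-- complementary traces do not both occur. -/
theorem KP.no_compl (h : KP B X) {i j : ι} (hij : B j ∩ X = X \ B i) : False := by
  refine h.not_cover i j fun v hv => ?_
  by_cases hvi : v ∈ B i
  · exact mem_union_left _ hvi
  · have : v ∈ B j ∩ X := by
      rw [hij]
      exact mem_sdiff.2 ⟨hv, hvi⟩
    exact mem_union_right _ (mem_inter.1 this).1

/-- the blocks meeting `X` and not the part `T` of three points have the trace `X \ T`. -/
theorem KP.cm_three (hr : Reg B X) (h : KP B X) {T : Finset V} (hT : T ⊆ X) (hc : T.card = 3) :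
    cm B T + mt B X (X \ T) = 10 := by
  have h1 := cm_sdiff (B := B) X (X \ T)
  rw [h.cmX, Finset.sdiff_sdiff_eq_self hT] at h1
  have h2 : ins B X (X \ T) = univ.filter (fun i => B i ∩ X = X \ T) := by
    ext i
    rw [mem_ins, mem_filter]
    constructor
    · rintro ⟨h3, h4⟩
      refine ⟨mem_univ _, eq_of_subset_of_card_le h4 ?_⟩
      rw [h.trace hr h3]
      have := card_sdiff_add_card_eq_card hT
      rw [h.card] at this
      omega
    · rintro ⟨_, h3⟩
      rw [h3]
      refine ⟨?_, Subset.rfl⟩
      rw [← card_pos]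
      have := card_sdiff_add_card_eq_card hT
      rw [h.card] at this
      omega
  rw [h2] at h1
  unfold mt
  omega

/-- all ten blocks meet a part of four points. -/
theorem KP.cm_four (hr : Reg B X) (h : KP B X) {T : Finset V} (hT : T ⊆ X) (hc : 4 ≤ T.card) :
    cm B T = 10 := by
  have h1 := cm_sdiff (B := B) X (X \ T)
  rw [h.cmX, Finset.sdiff_sdiff_eq_self hT] at h1
  have h2 : ins B X (X \ T) = ∅ := by
    rw [eq_empty_iff_forall_notMem]
    intro i hi
    rw [mem_ins] at hi
    have h3 := h.trace hr hi.1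
    have h4 := card_le_card hi.2
    have := card_sdiff_add_card_eq_card hT
    rw [h.card] at this
    omega
  rw [h2, card_empty] at h1
  omega

theorem cm_pair {a b : V} (ha : Reg B {a}) (hb : Reg B {b}) :
    cm B {a, b} + lam B a b = 10 := by
  have h1 := cm_union (B := B) {a} {b}
  rw [cm_singleton ha, cm_singleton hb] at h1
  have h2 : cx B {a} {b} = lam B a b := by
    unfold cx lam
    congr 1
    ext i
    rw [mem_cxs, mem_filter]
    constructor
    · rintro ⟨⟨x, hx⟩, ⟨y, hy⟩⟩
      rw [mem_inter, mem_singleton] at hx hy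
      exact ⟨mem_univ _, hx.2 ▸ hx.1, hy.2 ▸ hy.1⟩
    · rintro ⟨_, h3, h4⟩
      exact ⟨⟨a, mem_inter.2 ⟨h3, mem_singleton_self a⟩⟩, ⟨b, mem_inter.2 ⟨h4, mem_singleton_self b⟩⟩⟩
  have h3 : ({a} : Finset V) ∪ {b} = {a, b} := rfl
  rw [h2, h3] at h1
  omega

/-- the counting for the complement of a trace. -/
theorem KP.k0 (hr : Reg B X) (h : KP B X) {i : ι} (hi : (B i ∩ X).Nonempty) :
    (univ.filter (fun j => (B j ∩ (X \ B i)).card = 1)).card + 2 * mt B X (B i ∩ X) = 5 ∧
    (univ.filter (fun j => (B j ∩ (X \ B i)).card = 2)).card = 5 + mt B X (B i ∩ X) ∧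
    (∀ j, (B j ∩ (X \ B i)).card ≤ 2) := by
  classical
  obtain ⟨U, hU⟩ : ∃ U, U = X \ B i := ⟨_, rfl⟩
  rw [← hU]
  have hi3 := h.trace hr hi
  have hUc : U.card = 3 := by
    have h1 := card_sdiff_add_card_inter X (B i)
    rw [inter_comm, hi3, h.card, ← hU] at h1
    omega
  have hUX : U ⊆ X := by rw [hU]; exact sdiff_subset
  have hrU := hr.mono hUX
  have hle : ∀ j, (B j ∩ U).card ≤ 2 := by
    intro j
    by_contra hcon
    push Not at hcon
    have h1 : B j ∩ U = U := eq_of_subset_of_card_le inter_subset_right (by omega)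
    refine h.not_cover i j fun v hv => ?_
    by_cases hvi : v ∈ B i
    · exact mem_union_left _ hvi
    · have : v ∈ B j ∩ U := by
        rw [h1, hU]
        exact mem_sdiff.2 ⟨hv, hvi⟩
      exact mem_union_right _ (mem_inter.1 this).1
  have hsum := sum_inc hrU
  rw [hUc] at hsum
  have h1 : ∑ j, (B j ∩ U).card = (univ.filter (fun j => (B j ∩ U).card = 1)).card +
      2 * (univ.filter (fun j => (B j ∩ U).card = 2)).card := by
    simp only [card_filter]
    rw [mul_sum, ← sum_add_distrib]
    refine sum_congr rfl fun j _ => ?_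
    have := hle j
    split_ifs <;> omega
  have h2 : cm B U = (univ.filter (fun j => (B j ∩ U).card = 1)).card +
      (univ.filter (fun j => (B j ∩ U).card = 2)).card := by
    unfold cm tch
    simp only [card_filter]
    rw [← sum_add_distrib]
    refine sum_congr rfl fun j _ => ?_
    have h3 := hle j
    by_cases hj : (B j ∩ U).Nonempty
    · have := card_pos.2 hj
      rw [if_pos hj]
      split_ifs <;> omega
    · have : (B j ∩ U).card = 0 := by
        rw [card_eq_zero, ← not_nonempty_iff_eq_empty]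
        exact hj
      rw [if_neg hj]
      split_ifs <;> omega
  have h3 := h.cm_three hr hUX hUc
  have h4 : X \ U = B i ∩ X := by
    rw [hU, sdiff_sdiff_right_self]
    exact inter_comm _ _
  rw [h4] at h3
  refine ⟨by omega, by omega, hle⟩

theorem mt_self (i : ι) : 1 ≤ mt B X (B i ∩ X) :=
  card_pos.2 ⟨i, mem_filter.2 ⟨mem_univ _, rfl⟩⟩

/-- two points of a K-piece lie in at least one common block. -/
theorem KP.one_le_lam (hr : Reg B X) (h : KP B X) {a b : V} (ha : a ∈ X) (hb : b ∈ X)
    (hab : a ≠ b) : 1 ≤ lam B a b := by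
  obtain ⟨i, hi⟩ := h.common hr ha hb hab
  exact card_pos.2 ⟨i, mem_filter.2 ⟨mem_univ _, hi⟩⟩

/-- two points of a K-piece lie in at most three common blocks. -/
theorem KP.lam_le (hr : Reg B X) (h : KP B X) {a b : V} (ha : a ∈ X) (hb : b ∈ X)
    (hab : a ≠ b) : lam B a b ≤ 3 := by
  classical
  have hra := hr.mono (singleton_subset_iff.2 ha)
  have hrb := hr.mono (singleton_subset_iff.2 hb)
  have hp := cm_pair hra hrb
  have habX : ({a, b} : Finset V) ⊆ X := by
    intro v hv
    rw [mem_insert, mem_singleton] at hv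
    rcases hv with rfl | rfl
    · exact ha
    · exact hb
  -- a common block
  have key : ∀ i, a ∈ B i → b ∈ B i → ∃ x ∈ X, x ≠ a ∧ x ≠ b ∧ B i ∩ X = {a, b, x} ∧
      mt B X {a, b, x} + lam B a b ≤ 5 := by
    intro i hia hib
    have h1 := h.trace hr (i := i) ⟨a, mem_inter.2 ⟨hia, ha⟩⟩
    have h2 : ((B i ∩ X) \ {a, b}).card = 1 := by
      have h3 : ({a, b} : Finset V) ⊆ B i ∩ X := by
        intro v hv
        rw [mem_insert, mem_singleton] at hv
        rcases hv with rfl | rfl
        · exact mem_inter.2 ⟨hia, ha⟩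
        · exact mem_inter.2 ⟨hib, hb⟩
      have h4 := card_sdiff_add_card_eq_card h3
      rw [card_pair hab] at h4
      omega
    obtain ⟨x, hx⟩ := card_eq_one.1 h2
    have hx' : x ∈ (B i ∩ X) \ {a, b} := by rw [hx]; exact mem_singleton_self _
    rw [mem_sdiff, mem_insert, mem_singleton, not_or, mem_inter] at hx'
    have hT : B i ∩ X = {a, b, x} := by
      symm
      refine eq_of_subset_of_card_le (fun v hv => ?_) ?_
      · simp only [mem_insert, mem_singleton] at hv
        rcases hv with rfl | rfl | rfl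
        · exact mem_inter.2 ⟨hia, ha⟩
        · exact mem_inter.2 ⟨hib, hb⟩
        · exact mem_inter.2 hx'.1
      · rw [h1, card_eq_three.2 ⟨a, b, x, hab, fun e => hx'.2.1 e.symm, fun e => hx'.2.2 e.symm, rfl⟩]
    refine ⟨x, hx'.1.2, hx'.2.1, hx'.2.2, hT, ?_⟩
    have hTX : ({a, b, x} : Finset V) ⊆ X := by rw [← hT]; exact inter_subset_right
    have h3 := h.cm_three hr hTX (by rw [← hT]; exact h1)
    have h4 : mt B X (X \ {a, b, x}) = 0 := by
      refine mt_eq_zero fun j hj => h.no_compl (i := i) (j := j) ?_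
      rw [hj, ← hT]
      ext v
      simp only [mem_sdiff, mem_inter]
      tauto
    have h5 := cm_union (B := B) {a, b} {x}
    rw [cm_singleton (hr.mono (singleton_subset_iff.2 hx'.1.2))] at h5
    have h6 : ({a, b} : Finset V) ∪ {x} = {a, b, x} := by
      ext v
      simp only [mem_union, mem_insert, mem_singleton, or_assoc]
    rw [h6] at h5
    have h7 : mt B X {a, b, x} ≤ cx B {a, b} {x} := by
      unfold mt cx
      refine card_le_card fun j hj => ?_
      rw [mem_filter] at hj
      rw [mem_cxs]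
      have e1 : a ∈ B j ∩ X := by rw [hj.2]; simp
      have e2 : x ∈ B j ∩ X := by rw [hj.2]; simp
      exact ⟨⟨a, mem_inter.2 ⟨(mem_inter.1 e1).1, by simp⟩⟩,
        ⟨x, mem_inter.2 ⟨(mem_inter.1 e2).1, by simp⟩⟩⟩
    omega
  by_contra hcon
  push Not at hcon
  obtain ⟨S, hS⟩ : ∃ S, S = univ.filter (fun i => a ∈ B i ∧ b ∈ B i) := ⟨_, rfl⟩
  have hSc : S.card = lam B a b := by rw [hS]; rfl
  -- all the common blocks have different traces
  have hRc : (X \ {a, b}).card = 4 := by
    have := card_sdiff_add_card_eq_card habX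
    rw [card_pair hab, h.card] at this
    omega
  have h1 : ∀ i ∈ S, (B i ∩ (X \ {a, b})).card = 1 := by
    intro i hi
    rw [hS, mem_filter] at hi
    obtain ⟨x, hx, hxa, hxb, hT, _⟩ := key i hi.2.1 hi.2.2
    have : B i ∩ (X \ {a, b}) = {x} := by
      ext v
      rw [mem_inter, mem_sdiff, mem_insert, mem_singleton, mem_singleton, not_or]
      constructor
      · rintro ⟨h2, h3, h4, h5⟩
        have : v ∈ B i ∩ X := mem_inter.2 ⟨h2, h3⟩
        rw [hT] at this
        simp only [mem_insert, mem_singleton] at this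
        tauto
      · rintro rfl
        have : v ∈ B i ∩ X := by rw [hT]; simp
        exact ⟨(mem_inter.1 this).1, hx, hxa, hxb⟩
    rw [this, card_singleton]
  have h2 : ∀ i ∈ S, ∀ j ∈ S, i ≠ j → Disjoint (B i ∩ (X \ {a, b})) (B j ∩ (X \ {a, b})) := by
    intro i hi j hj hij
    rw [Finset.disjoint_left]
    intro v hv hv'
    have hi' := hi
    have hj' := hj
    rw [hS, mem_filter] at hi' hj'
    obtain ⟨x, hx, hxa, hxb, hT, hm⟩ := key i hi'.2.1 hi'.2.2
    obtain ⟨y, hy, hya, hyb, hT', _⟩ := key j hj'.2.1 hj'.2.2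
    rw [mem_inter, mem_sdiff, mem_insert, mem_singleton, not_or] at hv hv'
    have e1 : v = x := by
      have : v ∈ B i ∩ X := mem_inter.2 ⟨hv.1, hv.2.1⟩
      rw [hT] at this
      simp only [mem_insert, mem_singleton] at this
      tauto
    have e2 : v = y := by
      have : v ∈ B j ∩ X := mem_inter.2 ⟨hv'.1, hv.2.1⟩
      rw [hT'] at this
      simp only [mem_insert, mem_singleton] at this
      tauto
    have e3 : 2 ≤ mt B X {a, b, x} := by
      unfold mt
      have : ({i, j} : Finset ι) ⊆ univ.filter (fun k => B k ∩ X = {a, b, x}) := by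
        intro k hk
        rw [mem_insert, mem_singleton] at hk
        rw [mem_filter]
        refine ⟨mem_univ _, ?_⟩
        rcases hk with rfl | rfl
        · exact hT
        · rw [hT', ← e2, e1]
      have := card_le_card this
      rw [card_pair hij] at this
      exact this
    omega
  have h3 : (S.biUnion (fun i => B i ∩ (X \ {a, b}))).card = S.card := by
    rw [card_biUnion h2, sum_congr rfl h1, sum_const, smul_eq_mul, mul_one]
  have h4 : S.biUnion (fun i => B i ∩ (X \ {a, b})) ⊆ X \ {a, b} :=
    biUnion_subset.2 fun i _ => inter_subset_right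
  have h5 : S.biUnion (fun i => B i ∩ (X \ {a, b})) = X \ {a, b} :=
    eq_of_subset_of_card_le h4 (by omega)
  -- a block missing both
  have h6 := cm_sdiff (B := B) X (X \ {a, b})
  rw [h.cmX, Finset.sdiff_sdiff_eq_self habX] at h6
  have h7 : 0 < (ins B X (X \ {a, b})).card := by omega
  obtain ⟨g, hg⟩ := card_pos.1 h7
  rw [mem_ins] at hg
  have h8 := h.trace hr hg.1
  have h9 : (X \ {a, b}) \ B g = ((X \ {a, b}) \ (B g ∩ X)) := by
    ext v
    simp only [mem_sdiff, mem_inter]
    tauto
  have h10 : ((X \ {a, b}) \ B g).card = 1 := by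
    rw [h9]
    have := card_sdiff_add_card_eq_card hg.2
    omega
  obtain ⟨x, hx⟩ := card_eq_one.1 h10
  have hx' : x ∈ (X \ {a, b}) \ B g := by rw [hx]; exact mem_singleton_self _
  rw [mem_sdiff] at hx'
  have hx2 := hx'.1
  rw [← h5, mem_biUnion] at hx2
  obtain ⟨i, hi, hxi⟩ := hx2
  rw [hS, mem_filter] at hi
  refine h.not_cover i g fun v hv => ?_
  rw [mem_union]
  by_cases hvg : v ∈ B g
  · exact Or.inr hvg
  · left
    by_cases hva : v = a
    · rw [hva]; exact hi.2.1
    by_cases hvb : v = b
    · rw [hvb]; exact hi.2.2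
    have : v ∈ (X \ {a, b}) \ B g := by
      rw [mem_sdiff, mem_sdiff, mem_insert, mem_singleton, not_or]
      exact ⟨⟨hv, hva, hvb⟩, hvg⟩
    rw [hx, mem_singleton] at this
    rw [this]
    exact (mem_inter.1 hxi).1

end Pool.Agent.Hyp6
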