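import Pool.Agent.Hyp6.KP

/-!
# HYP6 KP2: two K-pieces at level 4; two pairs of points in three common blocks

`KP.twin`: two different K-pieces which meet, in a set with traces of at most four points, differ in one
point, and the two points lie in the same blocks. `KP.k3`: two disjoint pairs of points of a K-piece, each
in three common blocks.
-/

set_option autoImplicit false

namespace Pool.Agent.Hyp6

open Finset Pool.Agent.Hyp5

universe u v

variable {V : Type v} [DecidableEq V] {ι : Type u} [Fintype ι] {B : ι → Finset V} {X : Finset V}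

omit [Fintype ι] in
theorem inter_inter_card (i : ι) (X Y : Finset V) :
    (B i ∩ (X ∪ Y)).card + (B i ∩ (X ∩ Y)).card = (B i ∩ X).card + (B i ∩ Y).card := by
  have e4 := card_union_add_card_inter (B i ∩ X) (B i ∩ Y)
  have e5 : B i ∩ X ∩ (B i ∩ Y) = B i ∩ (X ∩ Y) := by
    ext v
    simp only [mem_inter]
    tauto
  rw [e5, ← inter_union_distrib_left] at e4
  exact e4

/-- two different K-pieces which meet differ in one point. -/
theorem KP.twin {Q Y : Finset V} (hr : Reg B Q) (h4 : Tr4 B Q) (hXQ : X ⊆ Q) (hYQ : Y ⊆ Q)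
    (hX : KP B X) (hY : KP B Y) (hne : X ≠ Y) (hm : ¬ Disjoint X Y) :
    ∃ x y, X \ Y = {x} ∧ Y \ X = {y} ∧ ∀ i, x ∈ B i ↔ y ∈ B i := by
  classical
  have hrX := hr.mono hXQ
  have hrY := hr.mono hYQ
  obtain ⟨I, hI⟩ : ∃ I, I = X ∩ Y := ⟨_, rfl⟩
  have hIX : I ⊆ X := by rw [hI]; exact inter_subset_left
  have hIY : I ⊆ Y := by rw [hI]; exact inter_subset_right
  have k1 : ∀ i, (B i ∩ X).Nonempty → (B i ∩ Y).Nonempty → 2 ≤ (B i ∩ I).card := by
    intro i h1 h2
    have e1 := hX.trace hrX h1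
    have e2 := hY.trace hrY h2
    have e3 := inter_inter_card (B := B) i X Y
    have e4 : (B i ∩ (X ∪ Y)).card ≤ 4 :=
      (card_le_card (inter_subset_inter_left (union_subset hXQ hYQ))).trans (h4 i)
    rw [← hI] at e3
    omega
  have k2 : ∀ i, (B i ∩ I).Nonempty → 2 ≤ (B i ∩ I).card := fun i hi =>
    k1 i (hi.mono (inter_subset_inter_left hIX)) (hi.mono (inter_subset_inter_left hIY))
  have hIne : I.Nonempty := by
    rw [hI, nonempty_iff_ne_empty]
    intro h1
    exact hm (disjoint_iff_inter_eq_empty.2 h1)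
  have hI1 := card_pos.2 hIne
  have hI6 : I.card ≠ 6 := by
    intro h1
    have h2 : I = X := eq_of_subset_of_card_le hIX (by rw [h1, hX.card])
    have h3 : I = Y := eq_of_subset_of_card_le hIY (by rw [h1, hY.card])
    exact hne (h2.symm.trans h3)
  have hI6' := card_le_card hIX
  rw [hX.card] at hI6'
  have hXI := card_sdiff_add_card_eq_card hIX
  have hYI := card_sdiff_add_card_eq_card hIY
  rw [hX.card] at hXI
  rw [hY.card] at hYI
  have h5 : I.card = 5 := by
    by_contra h5
    -- one point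
    by_cases h1 : I.card = 1
    · obtain ⟨w, hw⟩ := hIne
      obtain ⟨i, hi⟩ := cov_of_reg hrX w (hIX hw)
      have h2 := k2 i ⟨w, mem_inter.2 ⟨hi, hw⟩⟩
      have h3 : (B i ∩ I).card ≤ I.card := card_le_card inter_subset_right
      omega
    by_cases h2 : I.card = 2
    · obtain ⟨w, w', hww, hIe⟩ := card_eq_two.1 h2
      have hw : w ∈ I := by rw [hIe]; simp
      have hw' : w' ∈ I := by rw [hIe]; simp
      have h3 := hX.lam_le hrX (hIX hw) (hIX hw') hww
      have h4 : univ.filter (fun i => w ∈ B i) ⊆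
          univ.filter (fun i => w ∈ B i ∧ w' ∈ B i) := by
        intro i hi
        rw [mem_filter] at hi ⊢
        refine ⟨hi.1, hi.2, ?_⟩
        have h5 := k2 i ⟨w, mem_inter.2 ⟨hi.2, hw⟩⟩
        by_contra hc
        have h6 : B i ∩ I ⊆ {w} := by
          intro v hv
          rw [hIe, mem_inter, mem_insert, mem_singleton] at hv
          rw [mem_singleton]
          rcases hv.2 with h7 | h7
          · exact h7
          · rw [h7] at hv
            exact absurd hv.1 hc
        have := card_le_card h6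
        rw [card_singleton] at this
        omega
      have h5 := card_le_card h4
      rw [hrX w (hIX hw)] at h5
      unfold lam at h3
      omega
    by_cases h3 : I.card = 3
    · have h6 := hX.cm_three hrX hIX h3
      have h7 : (X \ I).Nonempty := card_pos.1 (by omega)
      have h8 := hX.mt_le hrX h7
      have h9 := sum_inc_tch (hrX.mono hIX)
      have h10 : ∑ i ∈ tch B I, 2 ≤ ∑ i ∈ tch B I, (B i ∩ I).card :=
        sum_le_sum fun i hi => k2 i (cost_mem_tch.1 hi)
      rw [sum_const, smul_eq_mul, h9, h3] at h10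
      unfold cm at h6
      omega
    · have h6 : (X \ I).card = 2 := by omega
      obtain ⟨p, q, hpq, hXe⟩ := card_eq_two.1 h6
      have hp : p ∈ X \ I := by rw [hXe]; simp
      have hq : q ∈ X \ I := by rw [hXe]; simp
      obtain ⟨i, hip, hiq⟩ := hX.common hrX (mem_sdiff.1 hp).1 (mem_sdiff.1 hq).1 hpq
      have h7 := hX.trace hrX (i := i) ⟨p, mem_inter.2 ⟨hip, (mem_sdiff.1 hp).1⟩⟩
      have h8 : B i ∩ X = (B i ∩ (X \ I)) ∪ (B i ∩ I) := by
        rw [← inter_union_distrib_left, sdiff_union_of_subset hIX]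
      have h9 : Disjoint (B i ∩ (X \ I)) (B i ∩ I) := by
        rw [Finset.disjoint_left]
        intro v hv hv'
        exact (mem_sdiff.1 (mem_inter.1 hv).2).2 (mem_inter.1 hv').2
      have h10 : B i ∩ (X \ I) = X \ I := by
        rw [inter_eq_right, hXe]
        intro v hv
        rw [mem_insert, mem_singleton] at hv
        rcases hv with rfl | rfl
        · exact hip
        · exact hiq
      rw [h8, card_union_of_disjoint h9, h10, h6] at h7
      have h11 := k2 i (card_pos.1 (by omega))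
      omega
  have hx1 : (X \ Y).card = 1 := by
    have : X \ Y = X \ I := by
      rw [hI]
      ext v
      simp only [mem_sdiff, mem_inter]
      tauto
    rw [this]
    omega
  have hy1 : (Y \ X).card = 1 := by
    have : Y \ X = Y \ I := by
      rw [hI]
      ext v
      simp only [mem_sdiff, mem_inter]
      tauto
    rw [this]
    omega
  obtain ⟨x, hx⟩ := card_eq_one.1 hx1
  obtain ⟨y, hy⟩ := card_eq_one.1 hy1
  refine ⟨x, y, hx, hy, ?_⟩
  have key : ∀ (X Y : Finset V) (x y : V), KP B X → KP B Y → Reg B X → Reg B Y → X \ Y = {x} →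
      Y \ X = {y} → ∀ i, x ∈ B i → y ∈ B i := by
    intro X Y x y hX hY hrX hrY hx hy i hxi
    have hx' : x ∈ X \ Y := by rw [hx]; exact mem_singleton_self _
    have h1 := hX.trace hrX (i := i) ⟨x, mem_inter.2 ⟨hxi, (mem_sdiff.1 hx').1⟩⟩
    have h2 : B i ∩ X ⊆ insert x (B i ∩ Y) := by
      intro v hv
      rw [mem_inter] at hv
      rw [mem_insert]
      by_cases hvY : v ∈ Y
      · exact Or.inr (mem_inter.2 ⟨hv.1, hvY⟩)
      · left
        have : v ∈ X \ Y := mem_sdiff.2 ⟨hv.2, hvY⟩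
        rw [hx, mem_singleton] at this
        exact this
    have h3 := (card_le_card h2).trans (card_insert_le _ _)
    have h4 : (B i ∩ Y).Nonempty := card_pos.1 (by omega)
    have h5 := hY.trace hrY h4
    by_contra hyi
    have h6 : insert x (B i ∩ Y) ⊆ B i ∩ X := by
      intro v hv
      rw [mem_insert] at hv
      rcases hv with rfl | hv
      · exact mem_inter.2 ⟨hxi, (mem_sdiff.1 hx').1⟩
      · rw [mem_inter] at hv ⊢
        refine ⟨hv.1, ?_⟩
        by_contra hvX
        have : v ∈ Y \ X := mem_sdiff.2 ⟨hv.2, hvX⟩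
        rw [hy, mem_singleton] at this
        rw [this] at hv
        exact hyi hv.1
    have h7 := card_le_card h6
    rw [card_insert_of_notMem (fun hc => (mem_sdiff.1 hx').2 (mem_inter.1 hc).2)] at h7
    omega
  intro i
  exact ⟨key X Y x y hX hY hrX hrY hx hy i, key Y X y x hY hX hrY hrX hy hx i⟩

/-- K-pieces are pairwise disjoint when no two points lie in the same blocks. -/
theorem KP.disj_of_noTwin {Q Y : Finset V} (hr : Reg B Q) (h4 : Tr4 B Q) (hXQ : X ⊆ Q)
    (hYQ : Y ⊆ Q) (hX : KP B X) (hY : KP B Y) (hne : X ≠ Y)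
    (hnt : ∀ x ∈ Q, ∀ y ∈ Q, x ≠ y → ∃ i, ¬ (x ∈ B i ↔ y ∈ B i)) : Disjoint X Y := by
  by_contra hm
  obtain ⟨x, y, hx, hy, h⟩ := hX.twin hr h4 hXQ hYQ hY hne hm
  have hx' : x ∈ X \ Y := by rw [hx]; exact mem_singleton_self _
  have hy' : y ∈ Y \ X := by rw [hy]; exact mem_singleton_self _
  rw [mem_sdiff] at hx' hy'
  obtain ⟨i, hi⟩ := hnt x (hXQ hx'.1) y (hYQ hy'.1) (by rintro rfl; exact hx'.2 hy'.1)
  exact hi (h i)

omit [Fintype ι] in
theorem six_distinct {a b c d e f : V} (h : ({a, b, c, d, e, f} : Finset V).card = 6)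
    (S : Finset V) : (S ∩ {a, b, c, d, e, f}).card = (if a ∈ S then 1 else 0) +
      ((if b ∈ S then 1 else 0) + ((if c ∈ S then 1 else 0) + ((if d ∈ S then 1 else 0) +
      ((if e ∈ S then 1 else 0) + (if f ∈ S then 1 else 0))))) := by
  have key : ∀ (s : Finset V) (x : V) (n : ℕ), (insert x s).card = n + 1 → s.card ≤ n →
      x ∉ s ∧ s.card = n := by
    intro s x n h1 h2
    by_cases hx : x ∈ s
    · rw [insert_eq_of_mem hx] at h1
      omega
    · rw [card_insert_of_notMem hx] at h1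
      exact ⟨hx, by omega⟩
  have u1 : ∀ x : V, ({x} : Finset V).card ≤ 1 := fun x => (card_singleton x).le
  have u2 : ∀ x y : V, ({x, y} : Finset V).card ≤ 2 := fun x y => card_le_two
  have u3 : ∀ x y z : V, ({x, y, z} : Finset V).card ≤ 3 := fun x y z => card_le_three
  have u4 : ∀ x y z w : V, ({x, y, z, w} : Finset V).card ≤ 4 := fun x y z w =>
    (card_insert_le _ _).trans (Nat.succ_le_succ (u3 y z w))
  have u5 : ∀ x y z w v : V, ({x, y, z, w, v} : Finset V).card ≤ 5 := fun x y z w v =>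
    (card_insert_le _ _).trans (Nat.succ_le_succ (u4 y z w v))
  obtain ⟨n1, c1⟩ := key _ _ 5 h (u5 _ _ _ _ _)
  obtain ⟨n2, c2⟩ := key _ _ 4 c1 (u4 _ _ _ _)
  obtain ⟨n3, c3⟩ := key _ _ 3 c2 (u3 _ _ _)
  obtain ⟨n4, c4⟩ := key _ _ 2 c3 (u2 _ _)
  obtain ⟨n5, c5⟩ := key _ _ 1 c4 (u1 _)
  rw [inter_comm, ← filter_mem_eq_inter, card_filter, sum_insert n1, sum_insert n2, sum_insert n3,
    sum_insert n4, sum_insert n5, sum_singleton]

/-- two disjoint pairs of points of a K-piece, each in three common blocks. -/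
theorem KP.k3' (hr : Reg B X) (h : KP B X) {w w' a a' c c' : V} (hX : X = {w, w', a, a', c, c'})
    (h1 : lam B w w' = 3) (h2 : lam B a a' = 3) :
    ((univ.filter (fun i => (w ∉ B i ∧ w' ∉ B i) ∧ (a ∈ B i ∧ a' ∈ B i))).card = 0 ∧
      (univ.filter (fun i => (w ∈ B i ∧ w' ∈ B i) ∧ (a ∈ B i ∨ a' ∈ B i))).card = 0) ∨
    ((univ.filter (fun i => (w ∉ B i ∧ w' ∉ B i) ∧ (a ∈ B i ∧ a' ∈ B i))).card = 3 ∧
      (univ.filter (fun i => (w ∈ B i ∧ w' ∈ B i) ∧ (a ∈ B i ∨ a' ∈ B i))).card = 3) := by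
  classical
  have h6 : ({w, w', a, a', c, c'} : Finset V).card = 6 := by rw [← hX]; exact h.card
  have hc : ∀ i, (if w ∈ B i then 1 else 0) + ((if w' ∈ B i then 1 else 0) +
      ((if a ∈ B i then 1 else 0) + ((if a' ∈ B i then 1 else 0) +
      ((if c ∈ B i then 1 else 0) + (if c' ∈ B i then 1 else 0))))) = 0 ∨
      (if w ∈ B i then 1 else 0) + ((if w' ∈ B i then 1 else 0) +
      ((if a ∈ B i then 1 else 0) + ((if a' ∈ B i then 1 else 0) +
      ((if c ∈ B i then 1 else 0) + (if c' ∈ B i then 1 else 0))))) = 3 := by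
    intro i
    rw [← six_distinct h6, ← hX]
    rcases eq_empty_or_nonempty (B i ∩ X) with h3 | h3
    · left
      rw [h3, card_empty]
    · right
      exact h.trace hr h3
  -- the numbers
  obtain ⟨S, hS⟩ : ∃ S : V → ℕ, S = fun v => ∑ i, if (w ∈ B i ∧ w' ∈ B i) ∧ v ∈ B i then 1 else 0 :=
    ⟨_, rfl⟩
  obtain ⟨T, hT⟩ : ∃ T : V → V → V → ℕ, T = fun x y z =>
      ∑ i, if (w ∉ B i ∧ w' ∉ B i) ∧ (x ∈ B i ∧ y ∈ B i ∧ z ∈ B i) then 1 else 0 := ⟨_, rfl⟩
  obtain ⟨F, hF⟩ : ∃ F : V → V → ℕ, F = fun x y =>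
      ∑ i, if ¬ (w ∈ B i ↔ w' ∈ B i) ∧ (x ∈ B i ∧ y ∈ B i) then 1 else 0 := ⟨_, rfl⟩
  have e1 : lam B w w' = S a + S a' + S c + S c' := by
    unfold lam
    rw [card_filter, hS]
    dsimp only
    rw [← sum_add_distrib, ← sum_add_distrib, ← sum_add_distrib]
    refine sum_congr rfl fun i _ => ?_
    have := hc i
    by_cases q1 : w ∈ B i <;> by_cases q2 : w' ∈ B i <;> by_cases q3 : a ∈ B i <;>
      by_cases q4 : a' ∈ B i <;> by_cases q5 : c ∈ B i <;> by_cases q6 : c' ∈ B i <;>
      simp [q1, q2, q3, q4, q5, q6] at this ⊢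
  have e2 : lam B a a' = F a a' + T a a' c' + T a a' c := by
    unfold lam
    rw [card_filter, hF, hT]
    dsimp only
    rw [← sum_add_distrib, ← sum_add_distrib]
    refine sum_congr rfl fun i _ => ?_
    have := hc i
    by_cases q1 : w ∈ B i <;> by_cases q2 : w' ∈ B i <;> by_cases q3 : a ∈ B i <;>
      by_cases q4 : a' ∈ B i <;> by_cases q5 : c ∈ B i <;> by_cases q6 : c' ∈ B i <;>
      simp [q1, q2, q3, q4, q5, q6] at this ⊢
  have e3 : (univ.filter (fun i => w ∈ B i)).card + (univ.filter (fun i => w' ∈ B i)).card =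
      2 * lam B w w' + (F a a' + F a c + F a c' + F a' c + F a' c' + F c c') := by
    unfold lam
    rw [card_filter, card_filter, card_filter, hF]
    dsimp only
    rw [mul_sum, ← sum_add_distrib, ← sum_add_distrib, ← sum_add_distrib, ← sum_add_distrib,
      ← sum_add_distrib, ← sum_add_distrib, ← sum_add_distrib]
    refine sum_congr rfl fun i _ => ?_
    have := hc i
    by_cases q1 : w ∈ B i <;> by_cases q2 : w' ∈ B i <;> by_cases q3 : a ∈ B i <;>
      by_cases q4 : a' ∈ B i <;> by_cases q5 : c ∈ B i <;> by_cases q6 : c' ∈ B i <;>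
      simp [q1, q2, q3, q4, q5, q6] at this ⊢
  have ea : (univ.filter (fun i => a ∈ B i)).card = S a + (T a c c' + T a a' c' + T a a' c) +
      (F a a' + F a c + F a c') := by
    rw [card_filter, hF, hS, hT]
    dsimp only
    rw [← sum_add_distrib, ← sum_add_distrib, ← sum_add_distrib, ← sum_add_distrib,
      ← sum_add_distrib, ← sum_add_distrib]
    refine sum_congr rfl fun i _ => ?_
    have := hc i
    by_cases q1 : w ∈ B i <;> by_cases q2 : w' ∈ B i <;> by_cases q3 : a ∈ B i <;>
      by_cases q4 : a' ∈ B i <;> by_cases q5 : c ∈ B i <;> by_cases q6 : c' ∈ B i <;>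
      simp [q1, q2, q3, q4, q5, q6] at this ⊢
  have ea' : (univ.filter (fun i => a' ∈ B i)).card = S a' + (T a' c c' + T a a' c' + T a a' c) +
      (F a a' + F a' c + F a' c') := by
    rw [card_filter, hF, hS, hT]
    dsimp only
    rw [← sum_add_distrib, ← sum_add_distrib, ← sum_add_distrib, ← sum_add_distrib,
      ← sum_add_distrib, ← sum_add_distrib]
    refine sum_congr rfl fun i _ => ?_
    have := hc i
    by_cases q1 : w ∈ B i <;> by_cases q2 : w' ∈ B i <;> by_cases q3 : a ∈ B i <;>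
      by_cases q4 : a' ∈ B i <;> by_cases q5 : c ∈ B i <;> by_cases q6 : c' ∈ B i <;>
      simp [q1, q2, q3, q4, q5, q6] at this ⊢
  have ec : (univ.filter (fun i => c ∈ B i)).card = S c + (T a' c c' + T a c c' + T a a' c) +
      (F a c + F a' c + F c c') := by
    rw [card_filter, hF, hS, hT]
    dsimp only
    rw [← sum_add_distrib, ← sum_add_distrib, ← sum_add_distrib, ← sum_add_distrib,
      ← sum_add_distrib, ← sum_add_distrib]
    refine sum_congr rfl fun i _ => ?_
    have := hc i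
    by_cases q1 : w ∈ B i <;> by_cases q2 : w' ∈ B i <;> by_cases q3 : a ∈ B i <;>
      by_cases q4 : a' ∈ B i <;> by_cases q5 : c ∈ B i <;> by_cases q6 : c' ∈ B i <;>
      simp [q1, q2, q3, q4, q5, q6] at this ⊢
  have ec' : (univ.filter (fun i => c' ∈ B i)).card = S c' + (T a' c c' + T a c c' + T a a' c') +
      (F a c' + F a' c' + F c c') := by
    rw [card_filter, hF, hS, hT]
    dsimp only
    rw [← sum_add_distrib, ← sum_add_distrib, ← sum_add_distrib, ← sum_add_distrib,
      ← sum_add_distrib, ← sum_add_distrib]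
    refine sum_congr rfl fun i _ => ?_
    have := hc i
    by_cases q1 : w ∈ B i <;> by_cases q2 : w' ∈ B i <;> by_cases q3 : a ∈ B i <;>
      by_cases q4 : a' ∈ B i <;> by_cases q5 : c ∈ B i <;> by_cases q6 : c' ∈ B i <;>
      simp [q1, q2, q3, q4, q5, q6] at this ⊢
  have eJ : (univ.filter (fun i => (w ∉ B i ∧ w' ∉ B i) ∧ (a ∈ B i ∧ a' ∈ B i))).card =
      T a a' c' + T a a' c := by
    rw [card_filter, hT]
    dsimp only
    rw [← sum_add_distrib]
    refine sum_congr rfl fun i _ => ?_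
    have := hc i
    by_cases q1 : w ∈ B i <;> by_cases q2 : w' ∈ B i <;> by_cases q3 : a ∈ B i <;>
      by_cases q4 : a' ∈ B i <;> by_cases q5 : c ∈ B i <;> by_cases q6 : c' ∈ B i <;>
      simp [q1, q2, q3, q4, q5, q6] at this ⊢
  have eD : (univ.filter (fun i => (w ∈ B i ∧ w' ∈ B i) ∧ (a ∈ B i ∨ a' ∈ B i))).card =
      S a + S a' := by
    rw [card_filter, hS]
    dsimp only
    rw [← sum_add_distrib]
    refine sum_congr rfl fun i _ => ?_
    have := hc i
    by_cases q1 : w ∈ B i <;> by_cases q2 : w' ∈ B i <;> by_cases q3 : a ∈ B i <;>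
      by_cases q4 : a' ∈ B i <;> by_cases q5 : c ∈ B i <;> by_cases q6 : c' ∈ B i <;>
      simp [q1, q2, q3, q4, q5, q6] at this ⊢
  -- no cover
  have nc : ∀ v x y z : V, ({w, w', a, a', c, c'} : Finset V) ⊆ {w, w', v, x, y, z} →
      S v = 0 ∨ T x y z = 0 := by
    intro v x y z hsub
    by_contra hcon
    push Not at hcon
    have p1 : ∃ i, (w ∈ B i ∧ w' ∈ B i) ∧ v ∈ B i := by
      by_contra hno
      apply hcon.1
      rw [hS]
      dsimp only
      refine sum_eq_zero fun i _ => if_neg fun hi => hno ⟨i, hi⟩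
    have p2 : ∃ i, (w ∉ B i ∧ w' ∉ B i) ∧ (x ∈ B i ∧ y ∈ B i ∧ z ∈ B i) := by
      by_contra hno
      apply hcon.2
      rw [hT]
      dsimp only
      refine sum_eq_zero fun i _ => if_neg fun hi => hno ⟨i, hi⟩
    obtain ⟨i, hi⟩ := p1
    obtain ⟨j, hj⟩ := p2
    refine h.not_cover i j fun u hu => ?_
    rw [hX] at hu
    have := hsub hu
    simp only [mem_insert, mem_singleton] at this
    rw [mem_union]
    rcases this with rfl | rfl | rfl | rfl | rfl | rfl
    · exact Or.inl hi.1.1
    · exact Or.inl hi.1.2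
    · exact Or.inl hi.2
    · exact Or.inr hj.2.1
    · exact Or.inr hj.2.2.1
    · exact Or.inr hj.2.2.2
  have n1 := nc a a' c c' Subset.rfl
  have n2 := nc a' a c c' (by
    intro u hu
    simp only [mem_insert, mem_singleton] at hu ⊢
    tauto)
  have n3 := nc c a a' c' (by
    intro u hu
    simp only [mem_insert, mem_singleton] at hu ⊢
    tauto)
  have n4 := nc c' a a' c (by
    intro u hu
    simp only [mem_insert, mem_singleton] at hu ⊢
    tauto)
  have mem : ∀ u ∈ ({w, w', a, a', c, c'} : Finset V), (univ.filter (fun i => u ∈ B i)).card = 5 := by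
    intro u hu
    rw [← hX] at hu
    exact hr u hu
  rw [mem w (by simp), mem w' (by simp)] at e3
  rw [mem a (by simp)] at ea
  rw [mem a' (by simp)] at ea'
  rw [mem c (by simp)] at ec
  rw [mem c' (by simp)] at ec'
  rw [eJ, eD]
  omega

end Pool.Agent.Hyp6
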