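import Pool.Agent.Hyp6.L3E
import Pool.Agent.Hyp6.L4F

/-!
# HYP6 L3A: absorption at level 3 in value form

`AbsData.absorbE`: if the abstract system of `C` and new points `Y` has potential at most `-2 + 2 e`
once its cover number is larger than the one of `C`, then `C` absorbs all points of `Y`.
`Cp3`: a part of a level-3 system to which the induction hypothesis applies, with the facts `pt1`,
`pt2`, `pt3`.
-/

set_option autoImplicit false

namespace Pool.Agent.Hyp6

open Finset Pool.Agent.Hyp5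

universe u v

section

variable {V : Type v} [DecidableEq V] {ι : Type u} [Fintype ι] {κ : Type} [Fintype κ]
variable {B : ι → Finset V} {C Y : Finset V} {E : V → Finset ι} {N : κ → Finset V}

omit [Fintype ι] in
theorem AbsData.tr3 (h : AbsData B C Y E N) : Tr3 (absG B C Y E N) (C ∪ Y) := fun k => by
  rw [h.inter_self]
  exact h.small k

/-- an abstract system with a trace of one or two points is not exceptional. -/
theorem AbsData.not_KT (h : AbsData B C Y E N) (hr : Reg B C) {k : ι ⊕ κ}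
    (hk : (absG B C Y E N k).Nonempty) (hk2 : (absG B C Y E N k).card ≤ 2) :
    ¬ KT (absG B C Y E N) (C ∪ Y) := by
  intro hK
  have h1 := hK.trace (h.reg hr) h.tr3 (i := k) (by rw [h.inter_self]; exact hk)
  rw [h.inter_self] at h1
  omega

/-- absorption. -/
theorem AbsData.absorbE {n : ℕ} (ih : IHE.{u} V n) (h : AbsData B C Y E N) (hr : Reg B C)
    (hC : Conn (gr B) C) (hk : ¬ KT (absG B C Y E N) (C ∪ Y)) (hn : C.card + Y.card < n)
    {Q : Finset V} (hCQ : C ⊆ Q)
    (hE : ∀ y ∈ Y, ∀ i ∈ E y, 2 ≤ (B i ∩ Q).card) {Y2 : Finset V} (hY2 : Y2 ⊆ Y)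
    (hN2 : ∀ y ∈ Y2, 2 ≤ (univ.filter (fun c => N c = {y})).card)
    (hd : dv B Q C + 5 * (Y.card : ℤ) + 4 * (Fintype.card κ : ℤ) ≤ 22 + 2 * (Y2.card : ℤ)) :
    ∃ T : Finset ι, C ⊆ T.biUnion B ∧ T.card ≤ rho B C ∧ ∀ y ∈ Y, ∃ i ∈ T, i ∈ E y := by
  classical
  by_contra hcon
  push Not at hcon
  have hreg := h.reg hr
  have h1 : rho B C + 1 ≤ rho (absG B C Y E N) (C ∪ Y) := by
    refine h.rho_ge (cov_of_reg hreg) fun T K hT hK => ?_
    have h2 := Hyp6.rho_le hT
    rcases K.eq_empty_or_nonempty with rfl | hKne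
    · by_contra h3
      have h4 : T.card ≤ rho B C := by
        rw [card_empty] at h3
        omega
      obtain ⟨y, hy, h5⟩ := hcon T hT h4
      rcases hK y hy with ⟨i, hi, hiE⟩ | ⟨c, hc, _⟩
      · exact h5 i hi hiE
      · exact absurd hc (notMem_empty _)
    · have := card_pos.2 hKne
      omega
  have h2 := ih (ι ⊕ κ) (absG B C Y E N) (C ∪ Y)
    (by rw [card_union_of_disjoint h.dis]; exact hn) hreg h.tr3 (h.conn hC) hk
  rw [h.Pv_eq] at h2
  have h3 : ((rho B C : ℕ) : ℤ) + 1 ≤ rho (absG B C Y E N) (C ∪ Y) := by exact_mod_cast h1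
  have h4 := h.ee_ge hCQ hE hY2 hN2
  have h5 : (ee B Q C : ℤ) + Y2.card ≤ ee (absG B C Y E N) (C ∪ Y) (C ∪ Y) := by
    exact_mod_cast h4
  unfold dv at hd
  linarith

end

section

variable {V : Type v} [DecidableEq V] {ι : Type u} [Fintype ι] {B : ι → Finset V}

/-- a part of a system to which the induction hypothesis applies. -/
structure Cp3 (B : ι → Finset V) (Q C : Finset V) : Prop where
  ih : IHE.{u} V Q.card
  reg : Reg B Q
  tr : Tr3 B Q
  cq : Conn (gr B) Q
  sub : C ⊆ Q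
  conn : Conn (gr B) C
  card : C.card + 3 ≤ Q.card

variable {Q C : Finset V}

theorem Cp3.ne (h : Cp3 B Q C) : C ≠ Q := by
  rintro rfl
  have := h.card
  omega

theorem Cp3.d_ge (h : Cp3 B Q C) : -1 ≤ dv B Q C := by
  have h1 := h.ih ι B C (by have := h.card; omega) (h.reg.mono h.sub) (h.tr.mono h.sub) h.conn
    (not_KT_of_ssubset h.cq h.reg h.tr h.sub h.ne)
  have h2 : (ee B Q C : ℤ) ≤ ee B C C := by exact_mod_cast ee_le_ee (Subset.refl _) h.sub
  unfold dv
  linarith

theorem Cp3.cov (h : Cp3 B Q C) : Cov B C := cov_of_reg (h.reg.mono h.sub)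

/-- the points of `Y` outside `C` in a block. -/
theorem Cp3.size (h : Cp3 B Q C) {Y : Finset V} (hY : Y ⊆ Q) (hd : Disjoint C Y) (i : ι) :
    (B i ∩ C).card + (Y.filter (fun y => y ∈ B i)).card ≤ 3 := by
  refine le_trans ?_ (h.tr i)
  rw [← card_union_of_disjoint]
  · refine card_le_card fun v hv => ?_
    rw [mem_union, mem_inter, mem_filter] at hv
    rw [mem_inter]
    rcases hv with hv | hv
    · exact ⟨hv.1, h.sub hv.2⟩
    · exact ⟨hv.2, hY hv.1⟩
  · rw [disjoint_left]
    intro v hv hv2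
    exact disjoint_left.1 hd (mem_inter.1 hv).2 (mem_filter.1 hv2).1

theorem Cp3.size' (h : Cp3 B Q C) {Y : Finset V} (hY : Y ⊆ Q) (hd : Disjoint C Y)
    {E : V → Finset ι} (hE : ∀ y ∈ Y, E y ⊆ Ez B C y) (i : ι) [∀ y, Decidable (i ∈ E y)] :
    (B i ∩ C).card + (Y.filter (fun y => i ∈ E y)).card ≤ 3 := by
  refine le_trans (Nat.add_le_add_left (card_le_card fun y hy => ?_) _) (h.size hY hd i)
  rw [mem_filter] at hy ⊢
  exact ⟨hy.1, (mem_Ez.1 (hE y hy.1 hy.2)).1⟩

/-- F1: a block containing one new point. -/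
theorem absorbE1 {n : ℕ} (ih : IHE.{u} V n) {Q C : Finset V} (hCQ : C ⊆ Q) (hr : Reg B C)
    (hC : Conn (gr B) C) (h3 : Tr3 B C) {w : V} (hw : w ∉ C)
    (hn : C.card + 1 < n) {i : ι} (hi : (B i ∩ C).Nonempty) (hi3 : (B i ∩ C).card ≤ 2)
    (hi2 : 2 ≤ (B i ∩ Q).card) (hd : dv B Q C ≤ 3) :
    ∃ T : Finset ι, C ⊆ T.biUnion B ∧ T.card ≤ rho B C ∧ i ∈ T := by
  classical
  have h : AbsData B C {w} (fun _ => {i}) (fun _ : Fin 4 => ({w} : Finset V)) := by
    refine ⟨disjoint_singleton_right.2 hw, ?_, ?_, ?_, ?_, ?_, ?_, ?_⟩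
    · intro y _ j hj
      rw [mem_singleton] at hj
      rw [hj]
      exact hi
    · intro y _
      exact singleton_nonempty _
    · intro c
      exact Subset.refl _
    · intro c
      exact singleton_nonempty _
    · intro y hy
      rw [mem_singleton] at hy
      rw [hy]
      simp
    · intro j
      by_cases hj : j = i
      · rw [hj]
        have h5 : (({w} : Finset V).filter (fun _ => i ∈ ({i} : Finset ι))).card ≤ 1 :=
          (card_filter_le _ _).trans (by simp)
        omega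
      · have h5 : (({w} : Finset V).filter (fun _ => j ∈ ({i} : Finset ι))).card = 0 := by
          rw [card_eq_zero, filter_eq_empty_iff]
          intro _ _
          rw [mem_singleton]
          exact hj
        rw [h5]
        exact h3 j
    · intro c
      simp
  have hk : ¬ KT (absG B C {w} (fun _ => {i}) (fun _ : Fin 4 => ({w} : Finset V))) (C ∪ {w}) :=
    h.not_KT hr (k := Sum.inr 0) (singleton_nonempty w) (by simp [absG])
  obtain ⟨T, h1, h2, h3⟩ := h.absorbE ih hr hC hk (by simpa using hn) hCQ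
    (fun y _ j hj => by rw [mem_singleton.1 hj]; exact hi2) (Subset.refl _)
    (fun y hy => by rw [mem_singleton.1 hy]; simp)
    (by rw [card_singleton, Fintype.card_fin]; push_cast; linarith)
  obtain ⟨j, hj, hji⟩ := h3 w (mem_singleton_self w)
  rw [mem_singleton] at hji
  exact ⟨T, h1, h2, hji ▸ hj⟩

/-- F1 for a block containing a point of `Q` outside `C`. -/
theorem Cp3.blk (h : Cp3 B Q C) (hd : dv B Q C ≤ 3) {i : ι} {z : V} (hi : (B i ∩ C).Nonempty)
    (hz : z ∈ B i) (hzQ : z ∈ Q) (hzC : z ∉ C) :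
    ∃ T : Finset ι, C ⊆ T.biUnion B ∧ T.card ≤ rho B C ∧ i ∈ T := by
  have h1 := h.size (Y := {z}) (singleton_subset_iff.2 hzQ) (disjoint_singleton_right.2 hzC) i
  have h2 : (({z} : Finset V).filter (fun y => y ∈ B i)) = {z} := by
    rw [filter_eq_self]
    intro y hy
    rw [mem_singleton] at hy
    rw [hy]
    exact hz
  rw [h2, card_singleton] at h1
  exact absorbE1 h.ih h.sub (h.reg.mono h.sub) h.conn (h.tr.mono h.sub) hzC
    (by have := h.card; omega) hi (by omega) (two_le_of h.sub hi hz hzQ hzC) hd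

theorem Cp3.pt1 (h : Cp3 B Q C) (hd : dv B Q C ≤ 3) {z : V} (hzQ : z ∈ Q) (hzC : z ∉ C)
    (hE : (Ez B C z).Nonempty) : Abz B C {z} := by
  obtain ⟨i, hi⟩ := hE
  rw [mem_Ez] at hi
  obtain ⟨T, h1, h2, h3⟩ := h.blk hd hi.2 hi.1 hzQ hzC
  refine ⟨T, union_subset h1 ?_, h2⟩
  rw [singleton_subset_iff]
  exact mem_biUnion.2 ⟨i, h3, hi.1⟩

open Classical in
/-- the general absorption fact: the new points of `Y` with hits `E`, and new blocks `N`. -/
theorem Cp3.gen (h : Cp3 B Q C) {Y : Finset V} (hY : Y ⊆ Q) (hYC : Disjoint C Y)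
    {E : V → Finset ι} (hE : ∀ y ∈ Y, E y ⊆ Ez B C y) (hEne : ∀ y ∈ Y, (E y).Nonempty)
    {κ : Type} [Fintype κ] {N : κ → Finset V} (hN : ∀ c, N c ⊆ Y) (hNne : ∀ c, (N c).Nonempty)
    (hN3 : ∀ c, (N c).card ≤ 3)
    (hdeg : ∀ y ∈ Y, (E y).card + (univ.filter (fun c => y ∈ N c)).card = 5)
    (hshort : ∃ c, (N c).card ≤ 2) (hn : C.card + Y.card < Q.card)
    {Y2 : Finset V} (hY2 : Y2 ⊆ Y)
    (hN2 : ∀ y ∈ Y2, 2 ≤ (univ.filter (fun c => N c = {y})).card)
    (hd : dv B Q C + 5 * (Y.card : ℤ) + 4 * (Fintype.card κ : ℤ) ≤ 22 + 2 * (Y2.card : ℤ)) :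
    Abz B C Y := by
  have hA : AbsData B C Y E N := by
    refine ⟨hYC, fun y hy i hi => (mem_Ez.1 (hE y hy hi)).2, hEne, hN, hNne, ?_, ?_, hN3⟩
    · intro y hy
      convert hdeg y hy using 3
    · intro i
      convert h.size' hY hYC hE i using 3
  obtain ⟨c, hc⟩ := hshort
  have hk : ¬ KT (absG B C Y E N) (C ∪ Y) :=
    hA.not_KT (h.reg.mono h.sub) (k := Sum.inr c) (hNne c) hc
  obtain ⟨T, hT1, hT2, hT3⟩ := hA.absorbE h.ih (h.reg.mono h.sub) h.conn hk hn h.sub
    (fun y hy i hi => two_le_of h.sub (mem_Ez.1 (hE y hy hi)).2 (mem_Ez.1 (hE y hy hi)).1 (hY hy)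
      (disjoint_right.1 hYC hy)) hY2 (fun y hy => by convert hN2 y hy using 2) hd
  refine ⟨T, union_subset hT1 fun y hy => ?_, hT2⟩
  obtain ⟨i, hiT, hiE⟩ := hT3 y hy
  exact mem_biUnion.2 ⟨i, hiT, (mem_Ez.1 (hE y hy hiE)).1⟩

/-- F2: two points with two hits each. -/
theorem Cp3.pt2 (h : Cp3 B Q C) (hd : dv B Q C ≤ 0) {z1 z2 : V} (h1Q : z1 ∈ Q) (h1 : z1 ∉ C)
    (h2Q : z2 ∈ Q) (h2 : z2 ∉ C) (h12 : z1 ≠ z2) (hE1 : 2 ≤ (Ez B C z1).card)
    (hE2 : 2 ≤ (Ez B C z2).card) : Abz B C {z1, z2} := by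
  classical
  obtain ⟨S1, hS1, hc1⟩ := exists_subset_card_eq hE1
  obtain ⟨S2, hS2, hc2⟩ := exists_subset_card_eq hE2
  obtain ⟨E, hi1, hi2⟩ : ∃ E : V → Finset ι, E z1 = S1 ∧ E z2 = S2 :=
    ⟨fun y => if y = z1 then S1 else S2, if_pos rfl, if_neg (fun h => h12 h.symm)⟩
  have hor : ∀ y ∈ ({z1, z2} : Finset V), y = z1 ∨ y = z2 := fun y hy => by simpa using hy
  refine h.gen (Y := {z1, z2}) (E := E) (κ := Fin 3) (N := fun _ => {z1, z2}) (Y2 := ∅)
    ?_ ?_ ?_ ?_ ?_ ?_ ?_ ?_ ?_ ?_ (empty_subset _) (by simp) ?_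
  · intro y hy
    rcases hor y hy with rfl | rfl
    · exact h1Q
    · exact h2Q
  · rw [disjoint_right]
    intro y hy
    rcases hor y hy with rfl | rfl
    · exact h1
    · exact h2
  · intro y hy
    rcases hor y hy with rfl | rfl
    · rw [hi1]
      exact hS1
    · rw [hi2]
      exact hS2
  · intro y hy
    rcases hor y hy with rfl | rfl
    · rw [hi1, ← card_pos, hc1]
      norm_num
    · rw [hi2, ← card_pos, hc2]
      norm_num
  · intro c
    exact Subset.refl _
  · intro c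
    exact insert_nonempty _ _
  · intro c
    exact card_le_two.trans (by norm_num)
  · intro y hy
    have h5 : (univ.filter (fun _ : Fin 3 => y ∈ ({z1, z2} : Finset V))) = univ :=
      filter_true_of_mem fun _ _ => hy
    rw [h5, card_univ, Fintype.card_fin]
    rcases hor y hy with rfl | rfl
    · rw [hi1, hc1]
    · rw [hi2, hc2]
  · exact ⟨0, card_le_two⟩
  · rw [card_pair h12]
    have := h.card
    omega
  · rw [card_pair h12, Fintype.card_fin, card_empty]
    push_cast
    linarith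

/-- one point with at least two hits. -/
theorem Cp3.pt1b (h : Cp3 B Q C) (hd : dv B Q C ≤ 7) {z : V} (hzQ : z ∈ Q) (hzC : z ∉ C)
    (hE : 2 ≤ (Ez B C z).card) : Abz B C {z} := by
  classical
  obtain ⟨S, hS, hc⟩ := exists_subset_card_eq hE
  refine h.gen (Y := {z}) (E := fun _ => S) (κ := Fin 3) (N := fun _ => {z}) (Y2 := {z})
    (singleton_subset_iff.2 hzQ) (disjoint_singleton_right.2 hzC) ?_ ?_ (fun _ => Subset.refl _)
    (fun _ => singleton_nonempty _) (fun _ => by simp) ?_ ⟨0, by simp⟩ ?_ (Subset.refl _) ?_ ?_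
  · intro y hy
    rw [mem_singleton.1 hy]
    exact hS
  · intro y _
    rw [← card_pos, hc]
    norm_num
  · intro y hy
    rw [hc, mem_singleton.1 hy]
    simp
  · rw [card_singleton]
    have := h.card
    omega
  · intro y hy
    rw [mem_singleton.1 hy]
    simp
  · rw [card_singleton, Fintype.card_fin]
    push_cast
    linarith

/-- F2b: two points with three hits each. -/
theorem Cp3.pt2b (h : Cp3 B Q C) (hd : dv B Q C ≤ 4) {z1 z2 : V} (h1Q : z1 ∈ Q) (h1 : z1 ∉ C)
    (h2Q : z2 ∈ Q) (h2 : z2 ∉ C) (h12 : z1 ≠ z2) (hE1 : 3 ≤ (Ez B C z1).card)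
    (hE2 : 3 ≤ (Ez B C z2).card) : Abz B C {z1, z2} := by
  classical
  obtain ⟨S1, hS1, hc1⟩ := exists_subset_card_eq hE1
  obtain ⟨S2, hS2, hc2⟩ := exists_subset_card_eq hE2
  obtain ⟨E, hi1, hi2⟩ : ∃ E : V → Finset ι, E z1 = S1 ∧ E z2 = S2 :=
    ⟨fun y => if y = z1 then S1 else S2, if_pos rfl, if_neg (fun h => h12 h.symm)⟩
  have hor : ∀ y ∈ ({z1, z2} : Finset V), y = z1 ∨ y = z2 := fun y hy => by simpa using hy
  refine h.gen (Y := {z1, z2}) (E := E) (κ := Fin 2) (N := fun _ => {z1, z2}) (Y2 := ∅)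
    ?_ ?_ ?_ ?_ ?_ ?_ ?_ ?_ ?_ ?_ (empty_subset _) (by simp) ?_
  · intro y hy
    rcases hor y hy with rfl | rfl
    · exact h1Q
    · exact h2Q
  · rw [disjoint_right]
    intro y hy
    rcases hor y hy with rfl | rfl
    · exact h1
    · exact h2
  · intro y hy
    rcases hor y hy with rfl | rfl
    · rw [hi1]
      exact hS1
    · rw [hi2]
      exact hS2
  · intro y hy
    rcases hor y hy with rfl | rfl
    · rw [hi1, ← card_pos, hc1]
      norm_num
    · rw [hi2, ← card_pos, hc2]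
      norm_num
  · intro c
    exact Subset.refl _
  · intro c
    exact insert_nonempty _ _
  · intro c
    exact card_le_two.trans (by norm_num)
  · intro y hy
    have h5 : (univ.filter (fun _ : Fin 2 => y ∈ ({z1, z2} : Finset V))) = univ :=
      filter_true_of_mem fun _ _ => hy
    rw [h5, card_univ, Fintype.card_fin]
    rcases hor y hy with rfl | rfl
    · rw [hi1, hc1]
    · rw [hi2, hc2]
  · exact ⟨0, card_le_two⟩
  · rw [card_pair h12]
    have := h.card
    omega
  · rw [card_pair h12, Fintype.card_fin, card_empty]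
    push_cast
    linarith

/-- F3: three points with three hits each, the first one with four, or `C` has not three points. -/
theorem Cp3.pt3 (h : Cp3 B Q C) (hd : dv B Q C ≤ -1) {z1 z2 z3 : V} (h1Q : z1 ∈ Q) (h1 : z1 ∉ C)
    (h2Q : z2 ∈ Q) (h2 : z2 ∉ C) (h3Q : z3 ∈ Q) (h3 : z3 ∉ C) (h12 : z1 ≠ z2) (h13 : z1 ≠ z3)
    (h23 : z2 ≠ z3) (hn : C.card + 3 < Q.card) (hE1 : 3 ≤ (Ez B C z1).card)
    (hE2 : 3 ≤ (Ez B C z2).card) (hE3 : 3 ≤ (Ez B C z3).card)
    (hex : 4 ≤ (Ez B C z1).card ∨ C.card ≠ 3) : Abz B C {z1, z2, z3} := by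
  classical
  have hc3 : ({z1, z2, z3} : Finset V).card = 3 := card_eq_three.2 ⟨z1, z2, z3, h12, h13, h23, rfl⟩
  have hor : ∀ y ∈ ({z1, z2, z3} : Finset V), y = z1 ∨ y = z2 ∨ y = z3 :=
    fun y hy => by simpa using hy
  have hYQ : ({z1, z2, z3} : Finset V) ⊆ Q := by
    intro y hy
    rcases hor y hy with rfl | rfl | rfl
    · exact h1Q
    · exact h2Q
    · exact h3Q
  have hYC : Disjoint C {z1, z2, z3} := by
    rw [disjoint_right]
    intro y hy
    rcases hor y hy with rfl | rfl | rfl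
    · exact h1
    · exact h2
    · exact h3
  obtain ⟨S2, hS2, hc2⟩ := exists_subset_card_eq hE2
  obtain ⟨S3, hS3, hc3'⟩ := exists_subset_card_eq hE3
  by_cases h4 : 4 ≤ (Ez B C z1).card
  · obtain ⟨S1, hS1, hc1⟩ := exists_subset_card_eq h4
    obtain ⟨E, hi1, hi2, hi3⟩ : ∃ E : V → Finset ι, E z1 = S1 ∧ E z2 = S2 ∧ E z3 = S3 :=
      ⟨fun y => if y = z1 then S1 else if y = z2 then S2 else S3, if_pos rfl,
        by simp [h12.symm], by simp [h13.symm, h23.symm]⟩
    refine h.gen (E := E) (κ := Fin 2)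
      (N := fun c => if c = 0 then ({z1, z2, z3} : Finset V) else {z2, z3}) (Y2 := ∅)
      hYQ hYC ?_ ?_ ?_ ?_ ?_ ?_ ?_ ?_ (empty_subset _) (by simp) ?_
    · intro y hy
      rcases hor y hy with rfl | rfl | rfl
      · rw [hi1]
        exact hS1
      · rw [hi2]
        exact hS2
      · rw [hi3]
        exact hS3
    · intro y hy
      rcases hor y hy with rfl | rfl | rfl
      · rw [hi1, ← card_pos, hc1]
        norm_num
      · rw [hi2, ← card_pos, hc2]
        norm_num
      · rw [hi3, ← card_pos, hc3']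
        norm_num
    · intro c
      split_ifs
      · exact Subset.refl _
      · exact subset_insert _ _
    · intro c
      split_ifs
      · exact insert_nonempty _ _
      · exact insert_nonempty _ _
    · intro c
      split_ifs
      · rw [hc3]
      · exact card_le_two.trans (by norm_num)
    · intro y hy
      have h5 : (univ.filter (fun c : Fin 2 =>
          y ∈ (if c = 0 then ({z1, z2, z3} : Finset V) else {z2, z3}))).card =
          (if y ∈ ({z1, z2, z3} : Finset V) then 1 else 0) +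
            (if y ∈ ({z2, z3} : Finset V) then 1 else 0) := by
        rw [card_filter, Fin.sum_univ_two]
        simp
      rw [h5]
      rcases hor y hy with rfl | rfl | rfl
      · rw [hi1, hc1, if_pos (by simp), if_neg (by simp [h12, h13])]
      · rw [hi2, hc2, if_pos (by simp), if_pos (by simp)]
      · rw [hi3, hc3', if_pos (by simp), if_pos (by simp)]
    · refine ⟨1, ?_⟩
      rw [if_neg (by norm_num)]
      exact card_le_two
    · rw [hc3]
      exact hn
    · rw [hc3, Fintype.card_fin, card_empty]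
      push_cast
      linarith
  · have hCc : C.card ≠ 3 := by
      rcases hex with h5 | h5
      · exact absurd h5 h4
      · exact h5
    obtain ⟨S1, hS1, hc1⟩ := exists_subset_card_eq hE1
    obtain ⟨E, hi1, hi2, hi3⟩ : ∃ E : V → Finset ι, E z1 = S1 ∧ E z2 = S2 ∧ E z3 = S3 :=
      ⟨fun y => if y = z1 then S1 else if y = z2 then S2 else S3, if_pos rfl,
        by simp [h12.symm], by simp [h13.symm, h23.symm]⟩
    have hsub : ∀ y ∈ ({z1, z2, z3} : Finset V), E y ⊆ Ez B C y := by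
      intro y hy
      rcases hor y hy with rfl | rfl | rfl
      · rw [hi1]
        exact hS1
      · rw [hi2]
        exact hS2
      · rw [hi3]
        exact hS3
    have hcE : ∀ y ∈ ({z1, z2, z3} : Finset V), (E y).card = 3 := by
      intro y hy
      rcases hor y hy with rfl | rfl | rfl
      · rw [hi1, hc1]
      · rw [hi2, hc2]
      · rw [hi3, hc3']
    have hA : AbsData B C {z1, z2, z3} E (fun _ : Fin 2 => ({z1, z2, z3} : Finset V)) := by
      refine ⟨hYC, fun y hy i hi => (mem_Ez.1 (hsub y hy hi)).2, ?_, fun _ => Subset.refl _,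
        fun _ => insert_nonempty _ _, ?_, ?_, fun _ => hc3.le⟩
      · intro y hy
        rw [← card_pos, hcE y hy]
        norm_num
      · intro y hy
        rw [hcE y hy]
        have h5 : (univ.filter (fun _ : Fin 2 => y ∈ ({z1, z2, z3} : Finset V))) = univ :=
          filter_true_of_mem fun _ _ => hy
        rw [h5, card_univ, Fintype.card_fin]
      · intro i
        convert h.size' hYQ hYC hsub i using 3
    have hk : ¬ KT (absG B C {z1, z2, z3} E (fun _ : Fin 2 => ({z1, z2, z3} : Finset V)))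
        (C ∪ {z1, z2, z3}) := by
      intro hK
      have h6 := hK.1
      rw [card_union_of_disjoint hYC, hc3] at h6
      omega
    obtain ⟨T, hT1, hT2, hT3⟩ := hA.absorbE h.ih (h.reg.mono h.sub) h.conn hk
      (by rw [hc3]; exact hn) h.sub
      (fun y hy i hi => two_le_of h.sub (mem_Ez.1 (hsub y hy hi)).2 (mem_Ez.1 (hsub y hy hi)).1
        (hYQ hy) (disjoint_right.1 hYC hy)) (empty_subset _) (by simp)
      (by rw [hc3, Fintype.card_fin, card_empty]; push_cast; linarith)
    refine ⟨T, union_subset hT1 fun y hy => ?_, hT2⟩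
    obtain ⟨i, hiT, hiE⟩ := hT3 y hy
    exact mem_biUnion.2 ⟨i, hiT, (mem_Ez.1 (hsub y hy hiE)).1⟩

end

end Pool.Agent.Hyp6
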