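import Pool.Agent.Hyp6.L3Kw

/-!
# HYP6 L3Ff: full hits on one leaf force single hits on the other leaves

If a block of the point `z` of a triple of the frame has two points in the leaf `L`, then a block of
another point of the triple meeting a leaf `M` (free together with `L`) has one point in the rest and
contains only one point of the triple.
-/

set_option autoImplicit false

namespace Pool.Agent.Hyp6

open Finset Pool.Agent.Hyp5

universe u v

variable {V : Type v} [DecidableEq V] {ι : Type u} {B : ι → Finset V}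

namespace Frm

variable [Fintype ι] {Q U : Finset V} {T : Finset ι} {F : Finset (Finset V)}

omit [Fintype ι] in
/-- two blocks covering a triple of the frame save at most one block in the rest. -/
theorem two_blocks [DecidableEq ι] (h : Frm B Q T U F) {i i' j : ι} (hj : j ∈ T)
    (hcov : B j ∩ Q ⊆ B i ∪ B i') :
    rho B (Dp B Q T) ≤ rho B (Dp B Q T \ (B i ∪ B i')) + 1 := by
  classical
  set T2 := insert i (insert i' (T.erase j)) with hT2
  have hcard : T2.card ≤ T.card + 1 := by
    have h1 := card_insert_le i (insert i' (T.erase j))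
    have h2 := card_insert_le i' (T.erase j)
    have h3 := card_erase_add_one hj
    rw [hT2]
    omega
  have hsub : Q \ T2.biUnion B ⊆ Dp B Q T \ (B i ∪ B i') := by
    intro v hv
    obtain ⟨hvQ, hv2⟩ := mem_sdiff.1 hv
    have hvi : v ∉ B i := fun h1 => hv2 (mem_biUnion.2 ⟨i, mem_insert_self _ _, h1⟩)
    have hvi' : v ∉ B i' := fun h1 =>
      hv2 (mem_biUnion.2 ⟨i', mem_insert_of_mem (mem_insert_self _ _), h1⟩)
    have hn : v ∉ B i ∪ B i' := by
      rw [mem_union]
      rintro (h1 | h1)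
      · exact hvi h1
      · exact hvi' h1
    refine mem_sdiff.2 ⟨mem_sdiff.2 ⟨hvQ, fun h1 => ?_⟩, hn⟩
    obtain ⟨k, hk, hvk⟩ := mem_biUnion.1 h1
    by_cases hkj : k = j
    · exact hn (hcov (mem_inter.2 ⟨hkj ▸ hvk, hvQ⟩))
    · exact hv2 (mem_biUnion.2
        ⟨k, mem_insert_of_mem (mem_insert_of_mem (mem_erase.2 ⟨hkj, hk⟩)), hvk⟩)
  have h1 := rho_le_peel T2 h.cov
  have h2 := rho_mono hsub (h.covD.mono sdiff_subset)
  have h3 := h.rhoD
  omega

/-- blocks meeting two leaves which are free together save two blocks in the rest. -/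
theorem drop_two (h : Frm B Q T U F) {L M : Finset V} (hL : L ∈ F) (hM : M ∈ F) (hne : L ≠ M)
    (hH : ∀ Z ⊆ U, Z.card ≤ (nbF (gr B) (F \ {L, M}) Z).card) {i i' : ι}
    (hp : (B i ∩ L).Nonempty) (hp' : (B i' ∩ M).Nonempty) :
    rho B (Dp B Q T \ (B i ∪ B i')) + 2 ≤ rho B (Dp B Q T) := by
  classical
  obtain ⟨p, hp⟩ := hp
  obtain ⟨p', hp'⟩ := hp'
  have hS : ({L, M} : Finset (Finset V)) ⊆ F := by
    intro C hC
    rcases mem_insert.1 hC with h1 | h1
    · exact h1 ▸ hL
    · exact (mem_singleton.1 h1) ▸ hM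
  have hfree := h.free_without hS (insert_nonempty _ _) (Subset.refl U) hH
  rw [Finset.sdiff_self, sdiff_empty, sum_pair hne] at hfree
  have h1 := h.rho_leaf_two hL (mem_inter.1 hp).2 (P := B i ∪ B i')
    (mem_union_left _ (mem_inter.1 hp).1)
  have h2 := h.rho_leaf_two hM (mem_inter.1 hp').2 (P := B i ∪ B i')
    (mem_union_right _ (mem_inter.1 hp').1)
  have hsub : Dp B Q T \ (B i ∪ B i') ⊆
      (Dp B Q T \ ({L, M} : Finset (Finset V)).biUnion id) ∪
        ((L \ (B i ∪ B i')) ∪ (M \ (B i ∪ B i'))) := by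
    intro v hv
    obtain ⟨h3, h4⟩ := mem_sdiff.1 hv
    by_cases hvL : v ∈ L
    · exact mem_union_right _ (mem_union_left _ (mem_sdiff.2 ⟨hvL, h4⟩))
    by_cases hvM : v ∈ M
    · exact mem_union_right _ (mem_union_right _ (mem_sdiff.2 ⟨hvM, h4⟩))
    · refine mem_union_left _ (mem_sdiff.2 ⟨h3, fun h5 => ?_⟩)
      rw [biUnion_insert, singleton_biUnion] at h5
      rcases mem_union.1 h5 with h6 | h6
      · exact hvL h6
      · exact hvM h6
  have c1 : Cov B (Dp B Q T \ ({L, M} : Finset (Finset V)).biUnion id) :=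
    h.covD.mono sdiff_subset
  have c2 : Cov B (L \ (B i ∪ B i')) := (h.covF L hL).mono sdiff_subset
  have c3 : Cov B (M \ (B i ∪ B i')) := (h.covF M hM).mono sdiff_subset
  have h3 := rho_mono hsub (c1.union (c2.union c3))
  have h4 := rho_union_le c1 (c2.union c3)
  have h5 := rho_union_le c2 c3
  omega

/-- **full hits force single hits**: the block `i` of `z` has two points in the leaf `L`; a block `i'`
of another point `x` of the triple, meeting the leaf `M`, has one point in the rest and does not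
contain the third point `y` of the triple. -/
theorem ff [DecidableEq ι] (h : Frm B Q T U F) {L M : Finset V} (hL : L ∈ F) (hM : M ∈ F)
    (hne : L ≠ M) (hH : ∀ Z ⊆ U, Z.card ≤ (nbF (gr B) (F \ {L, M}) Z).card) {i i' j : ι}
    (hj : j ∈ T) {x y z : V} (hjQ : B j ∩ Q = {x, y, z}) (hxz : x ≠ z)
    (hzi : z ∈ B i) (hi : (B i ∩ L).card = 2) (hxi : x ∈ B i') (hiM : (B i' ∩ M).Nonempty) :
    (B i' ∩ Dp B Q T).card = 1 ∧ y ∉ B i' := by
  have hxj : x ∈ B j ∩ Q := by rw [hjQ]; simp
  have hzj : z ∈ B j ∩ Q := by rw [hjQ]; simp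
  refine ⟨h.weak_of_two hL hM hne hH hj hxz hxj hzj hzi hxi hi hiM, fun hyi => ?_⟩
  have h1 := h.two_blocks (i := i) (i' := i') hj (by
    rw [hjQ]
    intro v hv
    simp only [mem_insert, mem_singleton] at hv
    rcases hv with h2 | h2 | h2
    · exact mem_union_right _ (h2 ▸ hxi)
    · exact mem_union_right _ (h2 ▸ hyi)
    · exact mem_union_left _ (h2 ▸ hzi))
  have h2 := h.drop_two hL hM hne hH (i := i) (i' := i') (card_pos.1 (by omega)) hiM
  omega

/-- the numerical form: the other two points of the triple have together at most as many hits on `M`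
as there are single traces of `M` not met by `U`. -/
theorem ff_le [DecidableEq ι] (h : Frm B Q T U F) {L M : Finset V} (hL : L ∈ F) (hM : M ∈ F)
    (hne : L ≠ M) (hH : ∀ Z ⊆ U, Z.card ≤ (nbF (gr B) (F \ {L, M}) Z).card) {i j : ι}
    (hj : j ∈ T) {x y z : V} (hjQ : B j ∩ Q = {x, y, z}) (hxz : x ≠ z) (hyz : y ≠ z)
    (hzi : z ∈ B i) (hi : (B i ∩ L).card = 2) :
    hit B {x, y} M + hit B U M ≤ nt B M 1 := by
  have hjQ' : B j ∩ Q = {y, x, z} := by
    rw [hjQ]
    ext v
    simp only [mem_insert, mem_singleton]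
    tauto
  have h1 := h.weak_le_mul hM (Y := {x, y}) (k := 1) (fun i' hi' => ?_) (fun i' hi' hY => ?_)
  · omega
  · by_cases hx : x ∈ B i'
    · have h2 := (h.ff hL hM hne hH hj hjQ hxz hzi hi hx (cost_mem_tch.1 hi')).2
      refine card_le_one.2 fun a ha b hb => ?_
      have h3 : ∀ c ∈ B i' ∩ {x, y}, c = x := by
        intro c hc
        obtain ⟨hc1, hc2⟩ := mem_inter.1 hc
        rcases mem_insert.1 hc2 with h4 | h4
        · exact h4
        · exact absurd ((mem_singleton.1 h4) ▸ hc1) h2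
      rw [h3 a ha, h3 b hb]
    · refine card_le_one.2 fun a ha b hb => ?_
      have h3 : ∀ c ∈ B i' ∩ {x, y}, c = y := by
        intro c hc
        obtain ⟨hc1, hc2⟩ := mem_inter.1 hc
        rcases mem_insert.1 hc2 with h4 | h4
        · exact absurd (h4 ▸ hc1) hx
        · exact mem_singleton.1 h4
      rw [h3 a ha, h3 b hb]
  · obtain ⟨c, hc⟩ := hY
    obtain ⟨hc1, hc2⟩ := mem_inter.1 hc
    rcases mem_insert.1 hc2 with h4 | h4
    · exact (h.ff hL hM hne hH hj hjQ hxz hzi hi (h4 ▸ hc1) (cost_mem_tch.1 hi')).1.le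
    · exact (h.ff hL hM hne hH hj hjQ' hyz hzi hi ((mem_singleton.1 h4) ▸ hc1)
        (cost_mem_tch.1 hi')).1.le

end Frm

end Pool.Agent.Hyp6
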