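import Pool.Agent.Hyp6.L3Sq

/-!
# HYP6 L3ME: the frame with the smallest even part

`MTE B Q T U F`: a frame whose even part `Ep` is as small as possible and, among these, whose set `U` is
as large as possible. A hit on an allowed pair of the even part still forces the other two points of
the triple to see no leaf (`MTE.even_hit`). The supply lemmas of `L3Spc` and `L3Sq` are stated with
the rule `AlP` as hypothesis, so that they hold for `MTC` frames and for `MTE` frames.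
-/

set_option autoImplicit false

namespace Pool.Agent.Hyp6

open Finset Pool.Agent.Hyp5

open Rt

universe u v

variable {V : Type v} [DecidableEq V] {ι : Type u} [Fintype ι] {B : ι → Finset V}

omit [Fintype ι] in
/-- a maximal packing gives a frame. -/
theorem MTP.frm {Q : Finset V} {T : Finset ι} (h : MTP B Q T) (hc : Cov B Q) (h3 : Tr3 B Q) :
    ∃ U F, Frm B Q T U F := by
  obtain ⟨U, F, hF⟩ := exists_GE (gr B) (Q \ T.biUnion B)
  exact ⟨U, F, h3, hc, h, hF⟩

omit [Fintype ι] in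
/-- a point of a frame adjacent to a leaf is not in the even part. -/
theorem Frm.notE_adj {Q U : Finset V} {T : Finset ι} {F : Finset (Finset V)}
    (h : Frm B Q T U F) {v w : V} (hw : w ∈ F.biUnion id) (hvw : (gr B).Adj v w) :
    v ∉ Ep B Q T U F := by
  intro hv
  obtain ⟨_, k, hvk, hwk⟩ := hvw
  exact h.sepE k ⟨w, mem_inter.2 ⟨hwk, hw⟩⟩ ⟨v, mem_inter.2 ⟨hvk, hv⟩⟩

omit [Fintype ι] in
/-- a point of `U` sees a leaf. -/
theorem Frm.U_adj {Q U : Finset V} {T : Finset ι} {F : Finset (Finset V)}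
    (h : Frm B Q T U F) {u : V} (hu : u ∈ U) : ∃ C ∈ F, ∃ w ∈ C, (gr B).Adj u w := by
  have h1 := h.ge.surplus {u} (singleton_subset_iff.2 hu) (singleton_nonempty u)
  obtain ⟨C, hC⟩ := card_pos.1 (by omega : 0 < (nbF (gr B) F {u}).card)
  obtain ⟨hCF, x, hx, y, hy, hxy⟩ := mem_nbF.1 hC
  rw [mem_singleton] at hx
  subst hx
  exact ⟨C, hCF, y, hy, hxy⟩

omit [Fintype ι] in
/-- a point of `D` which is neither in the even part nor in a leaf lies in `U`. -/
theorem Frm.mem_three {Q U : Finset V} {T : Finset ι} {F : Finset (Finset V)}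
    (_h : Frm B Q T U F) {v : V} (hv : v ∈ Dp B Q T) :
    v ∈ U ∨ v ∈ F.biUnion id ∨ v ∈ Ep B Q T U F := by
  by_cases h1 : v ∈ U
  · exact Or.inl h1
  by_cases h2 : v ∈ F.biUnion id
  · exact Or.inr (Or.inl h2)
  · exact Or.inr (Or.inr (mem_sdiff.2 ⟨mem_sdiff.2 ⟨hv, h1⟩, h2⟩))

/-- **order of the frames**: the even part as small as possible, then `U` as large as possible. -/
structure MTE (B : ι → Finset V) (Q : Finset V) (T : Finset ι) (U : Finset V)
    (F : Finset (Finset V)) : Prop where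
  frm : Frm B Q T U F
  emin : ∀ T' U' F', Frm B Q T' U' F' → (Ep B Q T U F).card ≤ (Ep B Q T' U' F').card
  umax : ∀ T' U' F', Frm B Q T' U' F' → (Ep B Q T' U' F').card ≤ (Ep B Q T U F).card →
    U'.card ≤ U.card

theorem exists_MTE {Q : Finset V} (hc : Cov B Q) (h3 : Tr3 B Q) :
    ∃ (T : Finset ι) (U : Finset V) (F : Finset (Finset V)), MTE B Q T U F := by
  classical
  -- the smallest even part
  have hex : ∃ n, ∃ (T : Finset ι) (U : Finset V) (F : Finset (Finset V)),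
      Frm B Q T U F ∧ (Ep B Q T U F).card = n := by
    obtain ⟨T, U, F, h⟩ := exists_frm (B := B) hc h3
    exact ⟨_, T, U, F, h, rfl⟩
  obtain ⟨T0, U0, F0, h0, hn0⟩ := Nat.find_spec hex
  have hmin : ∀ T' U' F', Frm B Q T' U' F' → Nat.find hex ≤ (Ep B Q T' U' F').card :=
    fun T' U' F' h' => Nat.find_min' hex ⟨T', U', F', h', rfl⟩
  set n := Nat.find hex with hn
  -- the largest U, i.e. the smallest complement
  have hex2 : ∃ m, ∃ (T : Finset ι) (U : Finset V) (F : Finset (Finset V)),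
      Frm B Q T U F ∧ (Ep B Q T U F).card = n ∧ Q.card - U.card = m :=
    ⟨_, T0, U0, F0, h0, hn0, rfl⟩
  obtain ⟨T, U, F, h, hE, hm⟩ := Nat.find_spec hex2
  refine ⟨T, U, F, h, fun T' U' F' h' => ?_, fun T' U' F' h' hle => ?_⟩
  · rw [hE]
    exact hmin T' U' F' h'
  · have h4 := hmin T' U' F' h'
    rw [hE] at hle
    have h5 := Nat.find_min' hex2 ⟨T', U', F', h', by omega, rfl⟩
    rw [← hm] at h5
    have h6 : U'.card ≤ Q.card := card_le_card (h'.UD.trans Frm.DQ)
    have h7 : U.card ≤ Q.card := card_le_card (h.UD.trans Frm.DQ)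
    omega

omit [Fintype ι] in
/-- no frame has a smaller even part. -/
theorem MTE.no_drop {Q U : Finset V} {T : Finset ι} {F : Finset (Finset V)} (h : MTE B Q T U F)
    {T' : Finset ι} {U' : Finset V} {F' : Finset (Finset V)} (h' : Frm B Q T' U' F') {e : V}
    (he : e ∈ Ep B Q T U F) (hsub : Ep B Q T' U' F' ⊆ (Ep B Q T U F).erase e) : False := by
  have h1 := h.emin T' U' F' h'
  have h2 := card_le_card hsub
  have h3 := card_erase_add_one he
  omega

namespace Frm

variable {Q U : Finset V} {T : Finset ι} {F : Finset (Finset V)}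

/-- **the exchange over an allowed pair of the even part**: if `b` sees a leaf, the exchanged packing is
again maximal and the points of the leaves and `c` are critical. -/
theorem even_exch [DecidableEq ι] (h : Frm B Q T U F) {i j : ι} (hj : j ∈ T)
    {a b c y y' : V} (hjQ : B j ∩ Q = {a, b, c}) (hiQ : B i ∩ Q = {a, y, y'})
    (hi3 : (B i ∩ Q).card = 3) (hbi : b ∉ B i) (hci : c ∉ B i)
    (hy : y ∈ Ep B Q T U F) (hy' : y' ∈ Ep B Q T U F) (hyy : y ≠ y')
    (hpm : PM (gr B) (Ep B Q T U F \ {y, y'})) {C : Finset V} (hC : C ∈ F) {w : V} (hw : w ∈ C)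
    (hbw : (gr B).Adj b w) :
    MTP B Q (insert i (T.erase j)) ∧
      Dp B Q (insert i (T.erase j)) = (Dp B Q T \ {y, y'}) ∪ {b, c} ∧
      ∀ v ∈ insert c (F.biUnion id), v ∈ (Dp B Q T \ {y, y'}) ∪ {b, c} ∧
        rho B (((Dp B Q T \ {y, y'}) ∪ {b, c}).erase v) + 1 =
          rho B ((Dp B Q T \ {y, y'}) ∪ {b, c}) := by
  have haj : a ∈ B j := (mem_inter.1 (by rw [hjQ]; simp : a ∈ B j ∩ Q)).1
  have hbj : b ∈ B j := (mem_inter.1 (by rw [hjQ]; simp : b ∈ B j ∩ Q)).1
  have hcj : c ∈ B j := (mem_inter.1 (by rw [hjQ]; simp : c ∈ B j ∩ Q)).1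
  have hbQ : b ∈ Q := (mem_inter.1 (by rw [hjQ]; simp : b ∈ B j ∩ Q)).2
  have hcQ : c ∈ Q := (mem_inter.1 (by rw [hjQ]; simp : c ∈ B j ∩ Q)).2
  have haD := T_notD (Q := Q) hj haj
  have hbD := T_notD (Q := Q) hj hbj
  have hcD := T_notD (Q := Q) hj hcj
  have hED : Ep B Q T U F ⊆ Dp B Q T := ED
  have hset := exch_set hjQ hiQ (DQ (B := B) (Q := Q) (T := T)) haD hbi hci
  set D := Dp B Q T with hD
  set E := Ep B Q T U F with hE
  have hcDE : Cov B (D \ E) := h.covD.mono sdiff_subset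
  have hcE : Cov B (E \ {y, y'}) := (h.covD.mono hED).mono sdiff_subset
  have hsub2 : ({y, y'} : Finset V) ⊆ E := by
    intro v hv
    rcases mem_insert.1 hv with rfl | hv
    · exact hy
    · rw [mem_singleton] at hv
      rw [hv]
      exact hy'
  have hrE : rho B (E \ {y, y'}) + 1 ≤ rho B E := by
    have h1 := pm_sv_nonneg hpm
    have h2 := h.svE
    have h3 := card_sdiff_add_card_eq_card hsub2
    rw [card_pair hyy] at h3
    rw [← hE] at h2
    unfold sv at h1 h2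
    omega
  have hsplit := h.rho_E
  rw [← hD, ← hE] at hsplit
  have hcbc : Cov B ({b, c} : Finset V) := by
    intro x hx
    rcases mem_insert.1 hx with rfl | hx
    · exact ⟨j, hbj⟩
    · rw [mem_singleton] at hx
      rw [hx]
      exact ⟨j, hcj⟩
  have hrbc : rho B ({b, c} : Finset V) ≤ 1 := by
    refine rho_le_one (i := j) ?_
    intro x hx
    rcases mem_insert.1 hx with rfl | hx
    · exact hbj
    · rw [mem_singleton] at hx
      rw [hx]
      exact hcj
  -- the exchanged packing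
  have hrho : rho B ((D ∪ (B j ∩ Q)) \ B i) ≤ rho B D := by
    rw [hset]
    have h1 : (D \ {y, y'}) ∪ {b, c} ⊆ ((D \ E) ∪ (E \ {y, y'})) ∪ {b, c} := by
      refine union_subset_union ?_ (Subset.refl _)
      intro x hx
      obtain ⟨h1, h2⟩ := mem_sdiff.1 hx
      by_cases h3 : x ∈ E
      · exact mem_union_right _ (mem_sdiff.2 ⟨h3, h2⟩)
      · exact mem_union_left _ (mem_sdiff.2 ⟨h1, h3⟩)
    have h2 := rho_mono h1 ((hcDE.union hcE).union hcbc)
    have h3 := rho_union_le (hcDE.union hcE) hcbc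
    have h4 := rho_union_le hcDE hcE
    omega
  obtain ⟨hM, hMset⟩ := h.mtp.swap h.cov hj hi3
    (h.exch_dis hj hjQ hiQ (hED hy) (hED hy')) hrho
  rw [← hD] at hMset
  rw [hset] at hMset
  have hrnew : rho B ((D \ {y, y'}) ∪ {b, c}) = rho B D := by
    have h1 := hM.tpk.opt
    have h2 := h.mtp.tpk.opt
    have h3 := hM.max _ h.mtp.tpk
    have h4 := h.mtp.max _ hM.tpk
    have h5 : Q \ (insert i (T.erase j)).biUnion B = (D \ {y, y'}) ∪ {b, c} := hMset
    have h6 : Q \ T.biUnion B = D := rfl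
    rw [h5] at h1
    rw [h6] at h2
    omega
  -- all the points of the leaves and `c` are critical
  have hcrit : ∀ v ∈ insert c (F.biUnion id), v ∈ (D \ {y, y'}) ∪ {b, c} ∧
      rho B (((D \ {y, y'}) ∪ {b, c}).erase v) + 1 = rho B ((D \ {y, y'}) ∪ {b, c}) := by
    intro v hv
    have hcovn : Cov B ((D \ {y, y'}) ∪ {b, c}) :=
      (h.covD.mono sdiff_subset).union hcbc
    have hlow := rho_le_erase (x := v) hcovn
    rcases mem_insert.1 hv with rfl | hv
    · refine ⟨by simp, ?_⟩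
      have h1 : ((D \ {y, y'}) ∪ {b, v}).erase v ⊆
          (((D \ E).erase w) ∪ (E \ {y, y'})) ∪ {b, w} := by
        intro x hx
        obtain ⟨hx1, hx2⟩ := mem_erase.1 hx
        rcases mem_union.1 hx2 with hx3 | hx3
        · obtain ⟨hx4, hx5⟩ := mem_sdiff.1 hx3
          by_cases hxE : x ∈ E
          · exact mem_union_left _ (mem_union_right _ (mem_sdiff.2 ⟨hxE, hx5⟩))
          by_cases hxw : x = w
          · exact mem_union_right _ (by simp [hxw])
          · exact mem_union_left _ (mem_union_left _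
              (mem_erase.2 ⟨hxw, mem_sdiff.2 ⟨hx4, hxE⟩⟩))
        · rcases mem_insert.1 hx3 with rfl | hx3
          · exact mem_union_right _ (by simp)
          · rw [mem_singleton] at hx3
            exact absurd hx3 hx1
      obtain ⟨_, l, hbl, hwl⟩ := hbw
      have hsubl : ({b, w} : Finset V) ⊆ B l := by
        intro x hx
        rcases mem_insert.1 hx with rfl | hx
        · exact hbl
        · rw [mem_singleton] at hx
          rw [hx]
          exact hwl
      have hcw : Cov B ({b, w} : Finset V) := cov_of_sub_block hsubl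
      have hrw := rho_le_one hsubl
      have hce : Cov B ((D \ E).erase w) := hcDE.mono (erase_subset _ _)
      have h2 := rho_mono h1 ((hce.union hcE).union hcw)
      have h3 := rho_union_le (hce.union hcE) hcw
      have h4 := rho_union_le hce hcE
      have h5 := h.rho_noE hC hw
      rw [← hD, ← hE] at h5
      omega
    · obtain ⟨C', hC', hvC'⟩ := mem_biUnion.1 hv
      have hvD : v ∈ D := h.FD hC' hvC'
      have hvE : v ∉ E := fun h1 => disjoint_left.1 (h.ge.FE C' hC') hvC' h1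
      have hvy : v ∉ ({y, y'} : Finset V) := fun h1 => hvE (hsub2 h1)
      refine ⟨mem_union_left _ (mem_sdiff.2 ⟨hvD, hvy⟩), ?_⟩
      have h1 : ((D \ {y, y'}) ∪ {b, c}).erase v ⊆
          (((D \ E).erase v) ∪ (E \ {y, y'})) ∪ {b, c} := by
        intro x hx
        obtain ⟨hx1, hx2⟩ := mem_erase.1 hx
        rcases mem_union.1 hx2 with hx3 | hx3
        · obtain ⟨hx4, hx5⟩ := mem_sdiff.1 hx3
          by_cases hxE : x ∈ E
          · exact mem_union_left _ (mem_union_right _ (mem_sdiff.2 ⟨hxE, hx5⟩))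
          · exact mem_union_left _ (mem_union_left _
              (mem_erase.2 ⟨hx1, mem_sdiff.2 ⟨hx4, hxE⟩⟩))
        · exact mem_union_right _ hx3
      have hce : Cov B ((D \ E).erase v) := hcDE.mono (erase_subset _ _)
      have h2 := rho_mono h1 ((hce.union hcE).union hcbc)
      have h3 := rho_union_le (hce.union hcE) hcbc
      have h4 := rho_union_le hce hcE
      have h5 := h.rho_noE hC' hvC'
      rw [← hD, ← hE] at h5
      omega
  exact ⟨hM, hMset, hcrit⟩

end Frm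

section Al

variable {Q U : Finset V} {T : Finset ι} {F : Finset (Finset V)}

/-- **a hit on an allowed pair of the even part**: the other points of the triple see no leaf. -/
theorem MTE.even_hit [DecidableEq ι] (hM : MTE B Q T U F) {i j : ι} (hj : j ∈ T)
    {a b c y y' : V} (hjQ : B j ∩ Q = {a, b, c}) (hiQ : B i ∩ Q = {a, y, y'})
    (hi3 : (B i ∩ Q).card = 3) (hbi : b ∉ B i) (hci : c ∉ B i)
    (hy : y ∈ Ep B Q T U F) (hy' : y' ∈ Ep B Q T U F) (hyy : y ≠ y')
    (hpm : PM (gr B) (Ep B Q T U F \ {y, y'})) {C : Finset V} (hC : C ∈ F) {w : V} (hw : w ∈ C) :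
    ¬ (gr B).Adj b w := by
  intro hbw
  have h := hM.frm
  obtain ⟨hP, hset, hcrit⟩ := h.even_exch hj hjQ hiQ hi3 hbi hci hy hy' hyy hpm hC hw hbw
  obtain ⟨U', F', h'⟩ := hP.frm h.cov h.reg3
  have hcr : ∀ v ∈ insert c (F.biUnion id), v ∈ F'.biUnion id := by
    intro v hv
    obtain ⟨h1, h2⟩ := hcrit v hv
    rw [← hset] at h1 h2
    exact (h'.crit_iff h1).1 h2
  have hwF : w ∈ F'.biUnion id := hcr w (mem_insert_of_mem (mem_biUnion.2 ⟨C, hC, hw⟩))
  refine hM.no_drop h' hy fun x hx => ?_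
  have hxD : x ∈ Dp B Q (insert i (T.erase j)) := Frm.ED hx
  have hxF : x ∉ F'.biUnion id := fun h1 => disjoint_left.1 Frm.disE h1 hx
  rw [hset, mem_union, mem_sdiff] at hxD
  rcases hxD with ⟨hxD, hxy⟩ | hxb
  · rw [mem_insert, not_or] at hxy
    rcases h.mem_three hxD with hU | hF | hE
    · obtain ⟨C', hC', w', hw', had⟩ := h.U_adj hU
      exact absurd hx (h'.notE_adj (hcr w' (mem_insert_of_mem (mem_biUnion.2 ⟨C', hC', hw'⟩))) had)
    · exact absurd (hcr x (mem_insert_of_mem hF)) hxF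
    · exact mem_erase.2 ⟨hxy.1, hE⟩
  · rcases mem_insert.1 hxb with rfl | hxc
    · exact absurd hx (h'.notE_adj hwF hbw)
    · rw [mem_singleton] at hxc
      subst hxc
      exact absurd (hcr x (mem_insert_self _ _)) hxF

/-- a point of a triple of the frame which lies in an allowed block: the other two points see no
leaf. -/
theorem MTE.al_point [DecidableEq ι] (hM : MTE B Q T U F) (hr : Reg B Q) {j : ι}
    (hj : j ∈ T) {a : V} (ha : a ∈ B j ∩ Q) {i : ι} (hi : i ∈ Als B (Ep B Q T U F)) (hai : a ∈ B i) :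
    ∀ b ∈ B j ∩ Q, b ≠ a → ∀ C ∈ F, ∀ w ∈ C, ¬ (gr B).Adj b w := by
  intro b hb hba C hC w hw
  have h := hM.frm
  have he := h.evn hr Frm.dcl_self
  have hal := mem_Als.1 hi
  have h2 := he.alB_two hal
  obtain ⟨x, hx, y, hy, hne, hxi, hyi, hpm⟩ := hal
  have hj3 := h.mtp.tpk.pack.card j hj
  obtain ⟨haj, haQ⟩ := mem_inter.1 ha
  obtain ⟨hbj, hbQ⟩ := mem_inter.1 hb
  have haE : a ∉ Ep B Q T U F := fun h3 => (mem_sdiff.1 (Frm.ED h3)).2 (mem_biUnion.2 ⟨j, hj, haj⟩)
  have hbE : b ∉ Ep B Q T U F := fun h3 => (mem_sdiff.1 (Frm.ED h3)).2 (mem_biUnion.2 ⟨j, hj, hbj⟩)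
  have hEi : B i ∩ Ep B Q T U F = {x, y} := by
    symm
    refine eq_of_subset_of_card_le ?_ (by rw [h2, card_pair hne])
    intro v hv
    rcases mem_insert.1 hv with rfl | hv
    · exact mem_inter.2 ⟨hxi, hx⟩
    · rw [mem_singleton] at hv
      subst hv
      exact mem_inter.2 ⟨hyi, hy⟩
  have hax : a ≠ x := fun h3 => haE (h3 ▸ hx)
  have hay : a ≠ y := fun h3 => haE (h3 ▸ hy)
  have hsub : ({a, x, y} : Finset V) ⊆ B i ∩ Q := by
    intro v hv
    simp only [mem_insert, mem_singleton] at hv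
    rcases hv with rfl | rfl | rfl
    · exact mem_inter.2 ⟨hai, haQ⟩
    · exact mem_inter.2 ⟨hxi, Frm.DQ (Frm.ED hx)⟩
    · exact mem_inter.2 ⟨hyi, Frm.DQ (Frm.ED hy)⟩
  have hc3 : ({a, x, y} : Finset V).card = 3 := card_eq_three.2 ⟨a, x, y, hax, hay, hne, rfl⟩
  have h4 := h.reg3 i
  have hiQ : B i ∩ Q = {a, x, y} := (eq_of_subset_of_card_le hsub (by omega)).symm
  have hi3 : (B i ∩ Q).card = 3 := by rw [hiQ, hc3]
  -- the third point of the triple
  have hab : ({a, b} : Finset V) ⊆ B j ∩ Q := by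
    intro v hv
    rcases mem_insert.1 hv with rfl | hv
    · exact ha
    · rw [mem_singleton] at hv
      subst hv
      exact hb
  have h5 := card_sdiff_add_card_eq_card hab
  rw [card_pair hba.symm, hj3] at h5
  obtain ⟨c, hc⟩ := card_eq_one.1 (by omega : ((B j ∩ Q) \ {a, b}).card = 1)
  have hcm : c ∈ (B j ∩ Q) \ {a, b} := by
    rw [hc]
    exact mem_singleton_self c
  obtain ⟨hcj, hcn⟩ := mem_sdiff.1 hcm
  rw [mem_insert, mem_singleton, not_or] at hcn
  have hjQ : B j ∩ Q = {a, b, c} := by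
    rw [← union_sdiff_of_subset hab, hc]
    ext v
    simp only [mem_union, mem_insert, mem_singleton]
    tauto
  have hcE : c ∉ Ep B Q T U F := fun h3 =>
    (mem_sdiff.1 (Frm.ED h3)).2 (mem_biUnion.2 ⟨j, hj, (mem_inter.1 hcj).1⟩)
  have hno : ∀ v, v ∈ Q → v ≠ a → v ∉ Ep B Q T U F → v ∉ B i := by
    intro v hvQ hva hvE hvi
    have h6 : v ∈ B i ∩ Q := mem_inter.2 ⟨hvi, hvQ⟩
    rw [hiQ] at h6
    simp only [mem_insert, mem_singleton] at h6
    rcases h6 with h6 | h6 | h6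
    · exact hva h6
    · exact hvE (h6 ▸ hx)
    · exact hvE (h6 ▸ hy)
  exact hM.even_hit hj hjQ hiQ hi3 (hno b hbQ hba hbE) (hno c (mem_inter.1 hcj).2 hcn.1 hcE)
    hx hy hne hpm hC hw

/-- **the rule for hits on allowed blocks**: if a point of a triple lies in an allowed block of the even
part, the other points of the triple see no leaf. -/
def AlP (B : ι → Finset V) (Q : Finset V) (T : Finset ι) (U : Finset V)
    (F : Finset (Finset V)) : Prop :=
  ∀ j ∈ T, ∀ a ∈ B j ∩ Q, ∀ i ∈ Als B (Ep B Q T U F), a ∈ B i →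
    ∀ b ∈ B j ∩ Q, b ≠ a → ∀ C ∈ F, ∀ w ∈ C, ¬ (gr B).Adj b w

theorem MTE.alp [DecidableEq ι] (hM : MTE B Q T U F) (hr : Reg B Q) : AlP B Q T U F :=
  fun _ hj _ ha _ hi hai => hM.al_point hr hj ha hi hai

theorem Frm.alp [DecidableEq ι] (h : Frm B Q T U F) (hT : MTC B Q T) (hr : Reg B Q) :
    AlP B Q T U F :=
  fun _ hj _ ha _ hi hai => h.al_point hT hr hj ha hi hai

end Al

namespace Frm

variable {Q U : Finset V} {T : Finset ι} {F : Finset (Finset V)}

/-- a special triple has at most three hits on the leaves. -/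
theorem special_threeA [DecidableEq ι] (h : Frm B Q T U F) (hA : AlP B Q T U F) (hr : Reg B Q) {j : ι}
    (hj : j ∈ T) (hs : 1 ≤ ja B Q (Ep B Q T U F) j) : ∑ L ∈ F, jh B Q j L ≤ 3 := by
  have h0 : ∃ i ∈ Als B (Ep B Q T U F), (B i ∩ (B j ∩ Q)).Nonempty := by
    by_contra hcon
    push Not at hcon
    have h1 : ja B Q (Ep B Q T U F) j = 0 := by
      unfold ja
      refine sum_eq_zero fun i hi => ?_
      rw [hcon i hi, card_empty]
    omega
  obtain ⟨i, hi, a, ha⟩ := h0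
  obtain ⟨hai, haQ⟩ := mem_inter.1 ha
  have haj := (mem_inter.1 haQ).1
  have hnl := hA _ hj _ haQ _ hi hai
  have h1 : ∑ L ∈ F, jh B Q j L = hit B (B j ∩ Q) (F.biUnion id) := (hit_biUnion _ h.sepF).symm
  rw [h1, hit_eq]
  -- only the point a counts
  have h2 : ∀ b ∈ B j ∩ Q, b ≠ a →
      (univ.filter (fun i => b ∈ B i ∧ (B i ∩ F.biUnion id).Nonempty)).card = 0 := by
    intro b hb hba
    rw [card_eq_zero, eq_empty_iff_forall_notMem]
    intro k hk
    obtain ⟨_, hbk, w, hw⟩ := mem_filter.1 hk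
    obtain ⟨hwk, hwF⟩ := mem_inter.1 hw
    obtain ⟨C, hC, hwC⟩ := mem_biUnion.1 hwF
    have hbw : b ≠ w := by
      rintro rfl
      exact (mem_sdiff.1 (h.FD hC hwC)).2 (mem_biUnion.2 ⟨j, hj, (mem_inter.1 hb).1⟩)
    exact hnl b hb hba C hC w hwC ⟨hbw, k, hbk, hwk⟩
  rw [sum_eq_single_of_mem a haQ h2]
  have h3 : insert i (insert j
      (univ.filter (fun i => a ∈ B i ∧ (B i ∩ F.biUnion id).Nonempty))) ⊆
      univ.filter (fun i => a ∈ B i) := by
    intro k hk
    rw [mem_insert, mem_insert] at hk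
    rcases hk with rfl | rfl | hk
    · exact mem_filter.2 ⟨mem_univ _, hai⟩
    · exact mem_filter.2 ⟨mem_univ _, haj⟩
    · exact mem_filter.2 ⟨mem_univ _, (mem_filter.1 hk).2.1⟩
  have he := h.evn hr dcl_self
  have h2i := he.alB_two (mem_Als.1 hi)
  have hij : i ≠ j := by
    rintro rfl
    obtain ⟨v, hv⟩ := card_pos.1 (by omega : 0 < (B i ∩ Ep B Q T U F).card)
    obtain ⟨hv1, hv2⟩ := mem_inter.1 hv
    exact (mem_sdiff.1 (ED hv2)).2 (mem_biUnion.2 ⟨i, hj, hv1⟩)
  have hjn : j ∉ univ.filter (fun i => a ∈ B i ∧ (B i ∩ F.biUnion id).Nonempty) := by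
    intro hk
    obtain ⟨_, _, w, hw⟩ := mem_filter.1 hk
    obtain ⟨hwk, hwF⟩ := mem_inter.1 hw
    obtain ⟨C, hC, hwC⟩ := mem_biUnion.1 hwF
    exact (mem_sdiff.1 (h.FD hC hwC)).2 (mem_biUnion.2 ⟨j, hj, hwk⟩)
  have hin : i ∉ insert j
      (univ.filter (fun i => a ∈ B i ∧ (B i ∩ F.biUnion id).Nonempty)) := by
    rw [mem_insert, not_or]
    refine ⟨hij, fun hk => ?_⟩
    obtain ⟨_, _, hw⟩ := mem_filter.1 hk
    obtain ⟨v, hv⟩ := card_pos.1 (by omega : 0 < (B i ∩ Ep B Q T U F).card)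
    exact h.sepE i hw ⟨v, hv⟩
  have h4 := card_le_card h3
  rw [card_insert_of_notMem hin, card_insert_of_notMem hjn, hr a (mem_inter.1 haQ).2] at h4
  omega

/-- **the supply of a special triple**: at least `18` for every leaf hit. -/
theorem special_supplyA [DecidableEq ι] (h : Frm B Q T U F) (hA : AlP B Q T U F) (hr : Reg B Q) {j : ι}
    (hj : j ∈ T) (hs : 1 ≤ ja B Q (Ep B Q T U F) j) :
    18 * ∑ L ∈ F, (jh B Q j L : ℤ) ≤ 126 + 2 * ((jn B Q (Ep B Q T U F) j : ℤ) + jb B Q T U j) -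
      8 * ja B Q (Ep B Q T U F) j := by
  have h1 := h.special_threeA hA hr hj hs
  have h2 := h.twelve hr hj
  have h3 : ((∑ L ∈ F, jh B Q j L : ℕ) : ℤ) = ∑ L ∈ F, (jh B Q j L : ℤ) := by push_cast; rfl
  rw [← h3]
  omega

/-- two points of a triple without leaf: at most four leaf hits, and the supply is at least `18` for
every leaf hit, and at least `33` if there are no hits on allowed blocks. -/
theorem two_dead_supplyA [DecidableEq ι] (h : Frm B Q T U F) (hA : AlP B Q T U F) (hr : Reg B Q) {j : ι}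
    (hj : j ∈ T) {a : V} (ha : a ∈ B j ∩ Q)
    (hd : ∀ b ∈ B j ∩ Q, b ≠ a → ∀ C ∈ F, ∀ w ∈ C, ¬ (gr B).Adj b w) :
    18 * ∑ L ∈ F, (jh B Q j L : ℤ) ≤ 126 + 2 * ((jn B Q (Ep B Q T U F) j : ℤ) + jb B Q T U j) -
      8 * ja B Q (Ep B Q T U F) j ∧ ∑ L ∈ F, jh B Q j L ≤ 4 ∧
      (ja B Q (Ep B Q T U F) j = 0 → 33 * ∑ L ∈ F, (jh B Q j L : ℤ) ≤
        126 + 2 * ((jn B Q (Ep B Q T U F) j : ℤ) + jb B Q T U j) -
          8 * ja B Q (Ep B Q T U F) j) := by
  have haj := (mem_inter.1 ha).1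
  have h4 : ∑ L ∈ F, jh B Q j L ≤ 4 := by
    have h1 : ∑ L ∈ F, jh B Q j L = hit B (B j ∩ Q) (F.biUnion id) := (hit_biUnion _ h.sepF).symm
    rw [h1, hit_eq]
    have h2 : ∀ b ∈ B j ∩ Q, b ≠ a →
        (univ.filter (fun i => b ∈ B i ∧ (B i ∩ F.biUnion id).Nonempty)).card = 0 := by
      intro b hb hba
      rw [card_eq_zero, eq_empty_iff_forall_notMem]
      intro k hk
      obtain ⟨_, hbk, w, hw⟩ := mem_filter.1 hk
      obtain ⟨hwk, hwF⟩ := mem_inter.1 hw
      obtain ⟨C, hC, hwC⟩ := mem_biUnion.1 hwF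
      have hbw : b ≠ w := by
        rintro rfl
        exact (mem_sdiff.1 (h.FD hC hwC)).2 (mem_biUnion.2 ⟨j, hj, (mem_inter.1 hb).1⟩)
      exact hd b hb hba C hC w hwC ⟨hbw, k, hbk, hwk⟩
    rw [sum_eq_single_of_mem a ha h2]
    have hjn : j ∉ univ.filter (fun i => a ∈ B i ∧ (B i ∩ F.biUnion id).Nonempty) := by
      intro hk
      obtain ⟨_, _, w, hw⟩ := mem_filter.1 hk
      obtain ⟨hwk, hwF⟩ := mem_inter.1 hw
      obtain ⟨C, hC, hwC⟩ := mem_biUnion.1 hwF
      exact (mem_sdiff.1 (h.FD hC hwC)).2 (mem_biUnion.2 ⟨j, hj, hwk⟩)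
    have h3 : insert j
        (univ.filter (fun i => a ∈ B i ∧ (B i ∩ F.biUnion id).Nonempty)) ⊆
        univ.filter (fun i => a ∈ B i) := by
      intro k hk
      rw [mem_insert] at hk
      rcases hk with rfl | hk
      · exact mem_filter.2 ⟨mem_univ _, haj⟩
      · exact mem_filter.2 ⟨mem_univ _, (mem_filter.1 hk).2.1⟩
    have h5 := card_le_card h3
    rw [card_insert_of_notMem hjn, hr a (mem_inter.1 ha).2] at h5
    omega
  refine ⟨?_, h4, fun h0 => ?_⟩
  swap
  · rw [h.plain_supply hr hj h0]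
    have h3 : ((∑ L ∈ F, jh B Q j L : ℕ) : ℤ) = ∑ L ∈ F, (jh B Q j L : ℤ) := by push_cast; rfl
    rw [← h3]
    omega
  rcases Nat.eq_zero_or_pos (ja B Q (Ep B Q T U F) j) with h0 | h0
  · rw [h.plain_supply hr hj h0]
    have h3 : ((∑ L ∈ F, jh B Q j L : ℕ) : ℤ) = ∑ L ∈ F, (jh B Q j L : ℤ) := by push_cast; rfl
    rw [← h3]
    omega
  · exact h.special_supplyA hA hr hj h0

/-- a special triple with a leaf hit: its hits on allowed blocks and its leaf hits come from one
point. -/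
theorem special_fourA [DecidableEq ι] (h : Frm B Q T U F) (hA : AlP B Q T U F) (hr : Reg B Q) {j : ι}
    (hj : j ∈ T) (h1 : 1 ≤ ∑ L ∈ F, jh B Q j L) (hs : 1 ≤ ja B Q (Ep B Q T U F) j) :
    ja B Q (Ep B Q T U F) j + ∑ L ∈ F, jh B Q j L ≤ 4 := by
  -- the point with the leaf hit
  have hex : ∃ a ∈ B j ∩ Q, ∃ C ∈ F, ∃ w ∈ C, (gr B).Adj a w := by
    by_contra hcon
    push Not at hcon
    obtain ⟨a, ha⟩ := card_pos.1 (by
      have := h.mtp.tpk.pack.card j hj
      omega : 0 < (B j ∩ Q).card)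
    have h2 := h.jh_one hj ha (fun b hb _ C hC w hw => hcon b hb C hC w hw)
    rw [h2] at h1
    obtain ⟨i, hi⟩ := card_pos.1 (by omega : 0 <
      (univ.filter (fun i => a ∈ B i ∧ (B i ∩ F.biUnion id).Nonempty)).card)
    obtain ⟨_, hai, w, hw⟩ := mem_filter.1 hi
    obtain ⟨hwi, hwF⟩ := mem_inter.1 hw
    obtain ⟨C, hC, hwC⟩ := mem_biUnion.1 hwF
    have haw : a ≠ w := by
      rintro rfl
      exact (mem_sdiff.1 (h.FD hC hwC)).2 (mem_biUnion.2 ⟨j, hj, (mem_inter.1 ha).1⟩)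
    exact hcon a ha C hC w hwC ⟨haw, i, hai, hwi⟩
  obtain ⟨a, ha, C0, hC0, w0, hw0, haw0⟩ := hex
  -- only the point a lies in allowed blocks
  have honly : ∀ i ∈ Als B (Ep B Q T U F), B i ∩ (B j ∩ Q) ⊆ {a} := by
    intro i hi b hb
    obtain ⟨hbi, hbj⟩ := mem_inter.1 hb
    rw [mem_singleton]
    by_contra hba
    exact hA _ hj _ hbj _ hi hbi a ha (fun h2 => hba h2.symm) C0 hC0 w0 hw0 haw0
  have hja : ja B Q (Ep B Q T U F) j =
      ((Als B (Ep B Q T U F)).filter (fun i => a ∈ B i)).card := by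
    unfold ja
    rw [card_filter]
    refine sum_congr rfl fun i hi => ?_
    by_cases hai : a ∈ B i
    · rw [if_pos hai]
      have h2 : B i ∩ (B j ∩ Q) = {a} := Subset.antisymm (honly i hi) (by
        rw [singleton_subset_iff]
        exact mem_inter.2 ⟨hai, ha⟩)
      rw [h2, card_singleton]
    · rw [if_neg hai, card_eq_zero, eq_empty_iff_forall_notMem]
      intro b hb
      have h2 := mem_singleton.1 (honly i hi hb)
      exact hai (h2 ▸ (mem_inter.1 hb).1)
  obtain ⟨i0, hi0⟩ := card_pos.1 (by omega : 0 <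
    ((Als B (Ep B Q T U F)).filter (fun i => a ∈ B i)).card)
  obtain ⟨hi0A, hai0⟩ := mem_filter.1 hi0
  have hd := hA _ hj _ ha _ hi0A hai0
  rw [h.jh_one hj ha hd, hja]
  -- the blocks of a
  have hdis : Disjoint ((Als B (Ep B Q T U F)).filter (fun i => a ∈ B i))
      (univ.filter (fun i => a ∈ B i ∧ (B i ∩ F.biUnion id).Nonempty)) := by
    rw [disjoint_left]
    intro k hk hk'
    obtain ⟨_, _, hw⟩ := mem_filter.1 hk'
    have he := h.evn hr dcl_self
    have h2 := he.alB_two (mem_Als.1 (mem_filter.1 hk).1)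
    obtain ⟨v, hv⟩ := card_pos.1 (by omega : 0 < (B k ∩ Ep B Q T U F).card)
    exact h.sepE k hw ⟨v, hv⟩
  have hjn : j ∉ (Als B (Ep B Q T U F)).filter (fun i => a ∈ B i) ∪
      (univ.filter (fun i => a ∈ B i ∧ (B i ∩ F.biUnion id).Nonempty)) := by
    intro hk
    rcases mem_union.1 hk with hk | hk
    · have he := h.evn hr dcl_self
      have h2 := he.alB_two (mem_Als.1 (mem_filter.1 hk).1)
      obtain ⟨v, hv⟩ := card_pos.1 (by omega : 0 < (B j ∩ Ep B Q T U F).card)
      obtain ⟨hv1, hv2⟩ := mem_inter.1 hv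
      exact (mem_sdiff.1 (ED hv2)).2 (mem_biUnion.2 ⟨j, hj, hv1⟩)
    · obtain ⟨_, _, w, hw⟩ := mem_filter.1 hk
      obtain ⟨hwk, hwF⟩ := mem_inter.1 hw
      obtain ⟨C, hC, hwC⟩ := mem_biUnion.1 hwF
      exact (mem_sdiff.1 (h.FD hC hwC)).2 (mem_biUnion.2 ⟨j, hj, hwk⟩)
  have hsub : insert j ((Als B (Ep B Q T U F)).filter (fun i => a ∈ B i) ∪
      (univ.filter (fun i => a ∈ B i ∧ (B i ∩ F.biUnion id).Nonempty))) ⊆
      univ.filter (fun i => a ∈ B i) := by
    intro k hk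
    rw [mem_insert, mem_union] at hk
    rcases hk with rfl | hk | hk
    · exact mem_filter.2 ⟨mem_univ _, (mem_inter.1 ha).1⟩
    · exact mem_filter.2 ⟨mem_univ _, (mem_filter.1 hk).2⟩
    · exact mem_filter.2 ⟨mem_univ _, (mem_filter.1 hk).2.1⟩
  have h5 := card_le_card hsub
  rw [card_insert_of_notMem hjn, card_union_of_disjoint hdis, hr a (mem_inter.1 ha).2] at h5
  omega

/-- **the supply of a special triple, value form**: at least `49` for every leaf hit. -/
theorem special_supplyPA [DecidableEq ι] (h : Frm B Q T U F) (hA : AlP B Q T U F) (hr : Reg B Q) {j : ι}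
    (hj : j ∈ T) (hs : 1 ≤ ja B Q (Ep B Q T U F) j) :
    49 * ∑ L ∈ F, (jh B Q j L : ℤ) ≤ sT B Q T U F 15 j := by
  have h2 := h.twelve hr hj
  have h3 : ((∑ L ∈ F, jh B Q j L : ℕ) : ℤ) = ∑ L ∈ F, (jh B Q j L : ℤ) := by push_cast; rfl
  rw [← h3]
  unfold sT
  rcases Nat.eq_zero_or_pos (∑ L ∈ F, jh B Q j L) with h0 | h0
  · omega
  · have h1 := h.special_fourA hA hr hj h0 hs
    omega

/-- a triple with at most four leaf hits supplies at least `39` for every leaf hit. -/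
theorem few_supplyPA [DecidableEq ι] (h : Frm B Q T U F) (hA : AlP B Q T U F) (hr : Reg B Q) {j : ι}
    (hj : j ∈ T) (h4 : ∑ L ∈ F, jh B Q j L ≤ 4) :
    39 * ∑ L ∈ F, (jh B Q j L : ℤ) ≤ sT B Q T U F 15 j := by
  have h3 : ((∑ L ∈ F, jh B Q j L : ℕ) : ℤ) = ∑ L ∈ F, (jh B Q j L : ℤ) := by push_cast; rfl
  rcases Nat.eq_zero_or_pos (ja B Q (Ep B Q T U F) j) with h0 | h0
  · rw [h.plain_supplyP hr hj h0, ← h3]
    omega
  · have h1 := h.special_supplyPA hA hr hj h0
    rw [← h3] at h1 ⊢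
    omega

/-- **a triple with two points without leaf supplies at least `39` for every leaf hit.** -/
theorem two_dead_supplyPA [DecidableEq ι] (h : Frm B Q T U F) (hA : AlP B Q T U F) (hr : Reg B Q) {j : ι}
    (hj : j ∈ T) {a : V} (ha : a ∈ B j ∩ Q)
    (hd : ∀ b ∈ B j ∩ Q, b ≠ a → ∀ C ∈ F, ∀ w ∈ C, ¬ (gr B).Adj b w) :
    39 * ∑ L ∈ F, (jh B Q j L : ℤ) ≤ sT B Q T U F 15 j :=
  h.few_supplyPA hA hr hj (h.two_dead_supplyA hA hr hj ha hd).2.1

/-- the supply of a triple in terms of its leaf hits, in all cases. -/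
theorem supplyP_geA [DecidableEq ι] (h : Frm B Q T U F) (hA : AlP B Q T U F) (hr : Reg B Q) {j : ι}
    (hj : j ∈ T) (h1 : 1 ≤ ∑ L ∈ F, jh B Q j L) :
    141 ≤ sT B Q T U F 15 j + 8 := by
  have h3 : ((∑ L ∈ F, jh B Q j L : ℕ) : ℤ) = ∑ L ∈ F, (jh B Q j L : ℤ) := by push_cast; rfl
  have h2 := h.twelve hr hj
  rcases Nat.eq_zero_or_pos (ja B Q (Ep B Q T U F) j) with h0 | h0
  · rw [h.plain_supplyP hr hj h0, ← h3]
    omega
  · have h4 := h.special_fourA hA hr hj h1 h0
    unfold sT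
    omega

end Frm

end Pool.Agent.Hyp6
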