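import Pool.Agent.Hyp6.L3Mg
import Pool.Agent.Hyp6.L3Me

/-!
# HYP6 L3Mb: tight barriers after an exchange, blocks at a centre of type B

`Br`: a barrier `Z` of `D` with the factor-critical sets `S` and one more part `W` such that the value
of `D` is `|Z| - |S| - 2`; `Z` has surplus in `S`. Then no point of `Z` is critical, all the points of
`S` are critical, and `W` contains at least two critical points (`Br.main`).
`MTE.no_block_B`: in the frame with the smallest even part and then the largest `U`, for a triple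
`{a, b, c}` with `a`, `b` seeing no leaf outside the leaf `W`, `|W| <= 3`, such that `U` with `c` has
surplus outside `W`: no block inside `W ∪ E ∪ {a, b}` contains a point `x` such that the rest of this
set is perfectly matchable. In particular (`MTE.no_block_a`), if `b` sees `W`, there is no block
`{a, e, e'}`, `{a, b, e}`, `{a, w, w'}`, `{a, b, w}`.
-/

set_option autoImplicit false

namespace Pool.Agent.Hyp6

open Finset Pool.Agent.Hyp5

universe u v

variable {V : Type v} [DecidableEq V] {ι : Type u} [Fintype ι] {B : ι → Finset V}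

/-- the value if the points of `A` can be matched into the sets of `S`. -/
theorem sv_hall {A R : Finset V} {S : Finset (Finset V)} (hc : Cov B (A ∪ S.biUnion id ∪ R))
    (hfc : ∀ C ∈ S, FC (gr B) C) (hd : ∀ C ∈ S, ∀ C' ∈ S, C ≠ C' → Disjoint C C')
    (hA : ∀ C ∈ S, Disjoint C A) (hR : ∀ C ∈ S, Disjoint C R) (hAR : Disjoint A R)
    (hH : ∀ Y ⊆ A, Y.card ≤ (nbF (gr B) S Y).card) :
    (A.card : ℤ) - S.card + sv B R ≤ sv B (A ∪ S.biUnion id ∪ R) := by
  classical
  rcases isEmpty_or_nonempty V with hV | hV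
  · have h1 : A = ∅ := eq_empty_of_isEmpty A
    have h2 : S = ∅ := by
      by_contra hne
      obtain ⟨C, hC⟩ := nonempty_iff_ne_empty.2 hne
      obtain ⟨v, _⟩ := (hfc C hC).1
      exact hV.elim v
    rw [h1, h2]
    simp
  obtain ⟨F1, φ, hF1, hcard, hφ, hinj, him⟩ := exists_match hH
  have h1 := sv_ge_of_assignment (B := B) (A := A) (R := R) (F := S) (F1 := F1) (F2 := S \ F1)
    (F3 := ∅) (φ := φ) hc hfc hd hA hR hAR (by rw [union_empty, union_sdiff_of_subset hF1])
    disjoint_sdiff (disjoint_empty_right _) (disjoint_empty_right _) hφ hinj him (by simp)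
  rw [card_empty] at h1
  have h2 := card_sdiff_add_card_eq_card hF1
  push_cast at h1
  have h3 : ((S \ F1).card : ℤ) = S.card - A.card := by
    have h4 : ((S \ F1).card : ℤ) + F1.card = S.card := by exact_mod_cast h2
    have h5 : (F1.card : ℤ) = A.card := by exact_mod_cast hcard
    linarith
  linarith

/-- a barrier with two missing parts. -/
structure Br (B : ι → Finset V) (D Z W : Finset V) (S : Finset (Finset V)) : Prop where
  cov : Cov B D
  tr3 : Tr3 B D
  pt : PT B D
  eq : Z ∪ S.biUnion id ∪ W = D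
  fc : ∀ C ∈ S, FC (gr B) C
  disj : ∀ C ∈ S, ∀ C' ∈ S, C ≠ C' → Disjoint C C'
  SZ : ∀ C ∈ S, Disjoint C Z
  SW : ∀ C ∈ S, Disjoint C W
  ZW : Disjoint Z W
  closed : ∀ C ∈ S, Closed (gr B) (D \ Z) C
  sur : ∀ Y ⊆ Z, Y.Nonempty → Y.card + 1 ≤ (nbF (gr B) S Y).card
  val : sv B D = (Z.card : ℤ) - S.card - 2

namespace Br

variable {D Z W : Finset V} {S : Finset (Finset V)}

omit [Fintype ι] in
theorem hall (h : Br B D Z W S) : ∀ Y ⊆ Z, Y.card ≤ (nbF (gr B) S Y).card := by
  intro Y hY
  rcases Y.eq_empty_or_nonempty with rfl | hne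
  · simp
  · have h1 := h.sur Y hY hne
    omega

omit [Fintype ι] in
theorem hallE (h : Br B D Z W S) (L : Finset V) :
    ∀ Y ⊆ Z, Y.card ≤ (nbF (gr B) (S.erase L) Y).card := by
  intro Y hY
  rcases Y.eq_empty_or_nonempty with rfl | hne
  · simp
  · have h1 := h.sur Y hY hne
    have h2 := nbF_erase (G := gr B) (F := S) (Z := Y) (C := L)
    omega

omit [Fintype ι] in
theorem ZD (h : Br B D Z W S) : Z ⊆ D := by
  rw [← h.eq]
  exact subset_union_left.trans subset_union_left

omit [Fintype ι] in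
theorem SD (h : Br B D Z W S) {C : Finset V} (hC : C ∈ S) : C ⊆ D := by
  rw [← h.eq]
  exact fun v hv => mem_union_left _ (mem_union_right _ (mem_biUnion.2 ⟨C, hC, hv⟩))

omit [Fintype ι] in
theorem WD (h : Br B D Z W S) : W ⊆ D := by
  rw [← h.eq]
  exact subset_union_right

/-- a smaller part `W'`. -/
theorem sv_part (h : Br B D Z W S) {W' : Finset V} (hW : W' ⊆ W) :
    (Z.card : ℤ) - S.card + sv B W' ≤ sv B (Z ∪ S.biUnion id ∪ W') :=
  sv_hall (h.cov.mono (by rw [← h.eq]; exact union_subset_union (Subset.refl _) hW)) h.fc h.disj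
    h.SZ (fun C hC => (h.SW C hC).mono_right hW) (h.ZW.mono_right hW) h.hall

/-- one point of a member of `S` is missed. -/
theorem sv_miss (h : Br B D Z W S) {L : Finset V} (hL : L ∈ S) {v : V} (hv : v ∈ L) :
    (Z.card : ℤ) - S.card + 1 + sv B W ≤ sv B (D.erase v) := by
  have hsub : S.erase L ⊆ S := erase_subset _ _
  have hset : Z ∪ (S.erase L).biUnion id ∪ (L.erase v ∪ W) = D.erase v := by
    have hvZ : v ∉ Z := fun h1 => disjoint_left.1 (h.SZ L hL) hv h1
    have hvW : v ∉ W := fun h1 => disjoint_left.1 (h.SW L hL) hv h1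
    rw [← h.eq]
    ext x
    simp only [mem_union, mem_biUnion, mem_erase, id]
    constructor
    · rintro ((hx | ⟨C', ⟨hne, hC'⟩, hx⟩) | ⟨hxv, hx⟩ | hx)
      · exact ⟨fun he => hvZ (he ▸ hx), Or.inl (Or.inl hx)⟩
      · refine ⟨?_, Or.inl (Or.inr ⟨C', hC', hx⟩)⟩
        rintro rfl
        exact disjoint_left.1 (h.disj C' hC' L hL hne) hx hv
      · exact ⟨hxv, Or.inl (Or.inr ⟨L, hL, hx⟩)⟩
      · exact ⟨fun he => hvW (he ▸ hx), Or.inr hx⟩
    · rintro ⟨hxv, (hx | ⟨C', hC', hx⟩) | hx⟩
      · exact Or.inl (Or.inl hx)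
      · by_cases he : C' = L
        · exact Or.inr (Or.inl ⟨hxv, he ▸ hx⟩)
        · exact Or.inl (Or.inr ⟨C', ⟨he, hC'⟩, hx⟩)
      · exact Or.inr (Or.inr hx)
  have hcL : Cov B (L.erase v) := (h.cov.mono (h.SD hL)).mono (erase_subset _ _)
  have hcW : Cov B W := h.cov.mono h.WD
  have hdLW : Disjoint (L.erase v) W := (h.SW L hL).mono_left (erase_subset _ _)
  have h1 := sv_hall (B := B) (A := Z) (R := L.erase v ∪ W) (S := S.erase L)
    (by rw [hset]; exact h.cov.mono (erase_subset _ _)) (fun C hC => h.fc C (hsub hC))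
    (fun C hC C' hC' => h.disj C (hsub hC) C' (hsub hC')) (fun C hC => h.SZ C (hsub hC))
    (fun C hC => by
      rw [disjoint_union_right]
      exact ⟨disjoint_of_subset_right (erase_subset _ _)
        (h.disj C (hsub hC) L hL (mem_erase.1 hC).1), h.SW C (hsub hC)⟩)
    (by
      rw [disjoint_union_right]
      exact ⟨disjoint_of_subset_right (erase_subset _ _) (h.SZ L hL).symm, h.ZW⟩)
    (h.hallE L)
  rw [hset] at h1
  have h2 := card_erase_add_one hL
  have h3 := pm_sv_nonneg ((h.fc L hL).2 v hv)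
  have h4 := sv_union_ge hcL hcW hdLW
  have h5 : ((S.erase L).card : ℤ) + 1 = S.card := by exact_mod_cast h2
  linarith

/-- the part `W` has a decomposition with two more leaves than points of the barrier. -/
theorem dec (h : Br B D Z W S) : ∃ (U1 : Finset V) (F1 : Finset (Finset V)),
    GE (gr B) W U1 F1 ∧ F1.card = U1.card + 2 := by
  classical
  obtain ⟨U1, F1, hGE⟩ := exists_GE (gr B) W
  refine ⟨U1, F1, hGE, ?_⟩
  have h1 := h.sv_part (Subset.refl W)
  rw [h.eq, h.val] at h1
  have h2 : U1.card + 2 ≤ F1.card := by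
    rcases W.eq_empty_or_nonempty with h0 | hne
    · rw [h0, sv_empty] at h1
      omega
    · have h3 := hGE.sv_ge (h.cov.mono h.WD) hne
      have h4 := hGE.rest_nonneg
      omega
  have h3 : OddSys (gr B) (D \ (Z ∪ U1)) (S ∪ F1) := by
    refine ⟨fun C hC => ?_, fun C hC => ?_, fun C hC C' hC' hne => ?_⟩
    · rcases mem_union.1 hC with hC | hC
      · obtain ⟨h4, h5⟩ := h.closed C hC
        refine ⟨fun x hx => mem_sdiff.2 ⟨h.SD hC hx, fun h6 => ?_⟩, fun x hx y hy hxy => ?_⟩
        · rcases mem_union.1 h6 with h6 | h6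
          · exact disjoint_left.1 (h.SZ C hC) hx h6
          · exact disjoint_left.1 (h.SW C hC) hx (hGE.sub h6)
        · obtain ⟨h6, h7⟩ := mem_sdiff.1 hy
          exact h5 x hx y (mem_sdiff.2 ⟨h6, fun h8 => h7 (mem_union_left _ h8)⟩) hxy
      · have hCW := hGE.FD C hC
        obtain ⟨h4, h5⟩ := hGE.sys.closed C hC
        refine ⟨fun x hx => mem_sdiff.2 ⟨h.WD (hCW hx), fun h6 => ?_⟩, fun x hx y hy hxy => ?_⟩
        · rcases mem_union.1 h6 with h6 | h6
          · exact disjoint_left.1 h.ZW h6 (hCW hx)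
          · exact disjoint_left.1 (hGE.FU C hC) hx h6
        · obtain ⟨h6, h7⟩ := mem_sdiff.1 hy
          have h8 : y ∈ W := by
            rw [← h.eq] at h6
            rcases mem_union.1 h6 with h6 | h6
            · rcases mem_union.1 h6 with h6 | h6
              · exact absurd (mem_union_left _ h6) h7
              · obtain ⟨C', hC', hy'⟩ := mem_biUnion.1 h6
                have h9 := (h.closed C' hC').2 y hy' x (mem_sdiff.2 ⟨h.WD (hCW hx),
                  fun h10 => disjoint_left.1 h.ZW h10 (hCW hx)⟩) hxy.symm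
                exact absurd (hCW hx) (fun h10 => disjoint_left.1 (h.SW C' hC') h9 h10)
            · exact h6
          exact h5 x hx y (mem_sdiff.2 ⟨h8, fun h9 => h7 (mem_union_right _ h9)⟩) hxy
    · rcases mem_union.1 hC with hC | hC
      · exact (h.fc C hC).odd
      · exact (hGE.sys.fc C hC).odd
    · rcases mem_union.1 hC with hC | hC <;> rcases mem_union.1 hC' with hC' | hC'
      · exact h.disj C hC C' hC' hne
      · exact (h.SW C hC).mono_right (hGE.FD C' hC')
      · exact ((h.SW C' hC').mono_right (hGE.FD C hC)).symm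
      · exact hGE.sys.disj C hC C' hC' hne
  have h4 := berge h.cov h.tr3 h.pt h3
  have h5 : Disjoint S F1 := by
    rw [disjoint_left]
    intro C hC hC'
    obtain ⟨v, hv⟩ := (h.fc C hC).1
    exact disjoint_left.1 (h.SW C hC) hv (hGE.FD C hC' hv)
  have h6 : Disjoint Z U1 := h.ZW.mono_right hGE.sub
  rw [card_union_of_disjoint h5, card_union_of_disjoint h6, h.val] at h4
  push_cast at h4
  omega

/-- **tight barriers**: no point of `Z` is critical. -/
theorem not_crit (h : Br B D Z W S) {z : V} (hz : z ∈ Z) :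
    rho B (D.erase z) + 1 ≠ rho B D := by
  classical
  intro hcr
  obtain ⟨U1, F1, hGE, hcd⟩ := h.dec
  have hzD := h.ZD hz
  have hpt := h.pt.erase h.tr3 h.cov (v := z) (by omega)
  have hsv : sv B (D.erase z) = sv B D + 1 := by
    have h2 := card_erase_add_one hzD
    unfold sv
    omega
  have hzS : ∀ C ∈ S, z ∉ C := fun C hC h1 => disjoint_left.1 (h.SZ C hC) h1 hz
  have hzW : z ∉ W := fun h1 => disjoint_left.1 h.ZW hz h1
  have h3 : OddSys (gr B) (D.erase z \ (Z ∪ U1).erase z) (S ∪ F1) := by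
    have hmem : ∀ y, y ∈ D.erase z \ (Z ∪ U1).erase z → y ∈ D ∧ y ∉ Z ∧ y ∉ U1 := by
      intro y hy
      obtain ⟨h1, h2⟩ := mem_sdiff.1 hy
      obtain ⟨h3, h4⟩ := mem_erase.1 h1
      exact ⟨h4, fun h5 => h2 (mem_erase.2 ⟨h3, mem_union_left _ h5⟩),
        fun h5 => h2 (mem_erase.2 ⟨h3, mem_union_right _ h5⟩)⟩
    refine ⟨fun C hC => ?_, fun C hC => ?_, fun C hC C' hC' hne => ?_⟩
    · rcases mem_union.1 hC with hC | hC
      · obtain ⟨h4, h5⟩ := h.closed C hC
        refine ⟨fun x hx => mem_sdiff.2 ⟨mem_erase.2 ⟨fun he => hzS C hC (he ▸ hx),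
          h.SD hC hx⟩, fun h6 => ?_⟩, fun x hx y hy hxy => ?_⟩
        · rcases mem_union.1 (mem_erase.1 h6).2 with h6 | h6
          · exact disjoint_left.1 (h.SZ C hC) hx h6
          · exact disjoint_left.1 (h.SW C hC) hx (hGE.sub h6)
        · obtain ⟨h6, h7, _⟩ := hmem y hy
          exact h5 x hx y (mem_sdiff.2 ⟨h6, h7⟩) hxy
      · have hCW := hGE.FD C hC
        obtain ⟨h4, h5⟩ := hGE.sys.closed C hC
        refine ⟨fun x hx => mem_sdiff.2 ⟨mem_erase.2 ⟨fun he => hzW (he ▸ hCW hx),
          h.WD (hCW hx)⟩, fun h6 => ?_⟩, fun x hx y hy hxy => ?_⟩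
        · rcases mem_union.1 (mem_erase.1 h6).2 with h6 | h6
          · exact disjoint_left.1 h.ZW h6 (hCW hx)
          · exact disjoint_left.1 (hGE.FU C hC) hx h6
        · obtain ⟨h6, h7, h7'⟩ := hmem y hy
          have h8 : y ∈ W := by
            rw [← h.eq] at h6
            rcases mem_union.1 h6 with h6 | h6
            · rcases mem_union.1 h6 with h6 | h6
              · exact absurd h6 h7
              · obtain ⟨C', hC', hy'⟩ := mem_biUnion.1 h6
                have h9 := (h.closed C' hC').2 y hy' x (mem_sdiff.2 ⟨h.WD (hCW hx),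
                  fun h10 => disjoint_left.1 h.ZW h10 (hCW hx)⟩) hxy.symm
                exact absurd (hCW hx) (fun h10 => disjoint_left.1 (h.SW C' hC') h9 h10)
            · exact h6
          exact h5 x hx y (mem_sdiff.2 ⟨h8, h7'⟩) hxy
    · rcases mem_union.1 hC with hC | hC
      · exact (h.fc C hC).odd
      · exact (hGE.sys.fc C hC).odd
    · rcases mem_union.1 hC with hC | hC <;> rcases mem_union.1 hC' with hC' | hC'
      · exact h.disj C hC C' hC' hne
      · exact (h.SW C hC).mono_right (hGE.FD C' hC')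
      · exact ((h.SW C' hC').mono_right (hGE.FD C hC)).symm
      · exact hGE.sys.disj C hC C' hC' hne
  have h4 := berge (h.cov.mono (erase_subset _ _)) (h.tr3.mono (erase_subset _ _)) hpt h3
  have h5 : Disjoint S F1 := by
    rw [disjoint_left]
    intro C hC hC'
    obtain ⟨v, hv⟩ := (h.fc C hC).1
    exact disjoint_left.1 (h.SW C hC) hv (hGE.FD C hC' hv)
  have h6 : Disjoint Z U1 := h.ZW.mono_right hGE.sub
  have h7 := card_erase_add_one (s := Z ∪ U1) (a := z) (mem_union_left _ hz)
  rw [card_union_of_disjoint h6] at h7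
  rw [card_union_of_disjoint h5, hsv, h.val] at h4
  push_cast at h4
  omega

/-- all the points of the members of `S` are critical. -/
theorem crit_S (h : Br B D Z W S) {L : Finset V} (hL : L ∈ S) {v : V} (hv : v ∈ L) :
    rho B (D.erase v) + 1 = rho B D := by
  obtain ⟨U1, F1, hGE, hcd⟩ := h.dec
  have hW2 : -2 ≤ sv B W := by
    rcases W.eq_empty_or_nonempty with h0 | hne
    · rw [h0, sv_empty]
      norm_num
    · have h3 := hGE.sv_ge (h.cov.mono h.WD) hne
      have h4 := hGE.rest_nonneg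
      have h5 : (F1.card : ℤ) = U1.card + 2 := by exact_mod_cast hcd
      linarith
  have h1 := h.sv_miss hL hv
  have h2 := card_erase_add_one (h.SD hL hv)
  have h3 := rho_le_erase (x := v) h.cov
  have h4 := h.val
  unfold sv at h1 h4 hW2
  omega

/-- at least two points of `W` are critical. -/
theorem two (h : Br B D Z W S) : ∃ R ⊆ W, 2 ≤ R.card ∧ ∀ v ∈ R, rho B (D.erase v) + 1 = rho B D := by
  classical
  obtain ⟨U1, F1, hGE, hcd⟩ := h.dec
  refine ⟨F1.biUnion id, fun v hv => ?_, ?_, fun v hv => ?_⟩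
  · obtain ⟨C, hC, hvC⟩ := mem_biUnion.1 hv
    exact hGE.FD C hC hvC
  · have h1 : F1.card ≤ (F1.biUnion id).card := by
      rw [card_biUnion (s := F1) (t := id)
        (fun C hC C' hC' hne => hGE.sys.disj C hC C' hC' hne)]
      calc F1.card = ∑ _C ∈ F1, 1 := by simp
        _ ≤ ∑ C ∈ F1, (id C).card := sum_le_sum fun C hC => card_pos.2 (hGE.sys.fc C hC).1
    omega
  · obtain ⟨C, hC, hvC⟩ := mem_biUnion.1 hv
    have hvC : v ∈ C := hvC
    have hvW := hGE.FD C hC hvC
    have h1 := hGE.sv_ge_erase (h.cov.mono h.WD) hC (erase_subset v C)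
    have hset : C \ C.erase v = {v} := by
      ext x
      simp only [mem_sdiff, mem_erase, mem_singleton, not_and]
      constructor
      · rintro ⟨h1, h2⟩
        by_contra hne
        exact h2 hne h1
      · rintro rfl
        exact ⟨hvC, fun h => absurd rfl h⟩
    rw [hset, sdiff_singleton_eq_erase] at h1
    have h2 := hGE.rest_nonneg
    have h3 := pm_sv_nonneg ((hGE.sys.fc C hC).2 v hvC)
    have h4 := h.sv_part (erase_subset v W)
    have h5 : Z ∪ S.biUnion id ∪ W.erase v = D.erase v := by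
      have hvZ : v ∉ Z := fun h1 => disjoint_left.1 h.ZW h1 hvW
      rw [← h.eq]
      ext x
      simp only [mem_union, mem_biUnion, mem_erase, id]
      constructor
      · rintro ((hx | ⟨C', hC', hx⟩) | ⟨hxv, hx⟩)
        · exact ⟨fun he => hvZ (he ▸ hx), Or.inl (Or.inl hx)⟩
        · exact ⟨fun he => disjoint_left.1 (h.SW C' hC') (he ▸ hx) hvW,
            Or.inl (Or.inr ⟨C', hC', hx⟩)⟩
        · exact ⟨hxv, Or.inr hx⟩
      · rintro ⟨hxv, (hx | hx) | hx⟩
        · exact Or.inl (Or.inl hx)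
        · exact Or.inl (Or.inr hx)
        · exact Or.inr ⟨hxv, hx⟩
    rw [h5] at h4
    have h6 := card_erase_add_one (h.WD hvW)
    have h7 := rho_le_erase (x := v) h.cov
    have h8 := h.val
    have h9 : (F1.card : ℤ) = U1.card + 2 := by exact_mod_cast hcd
    have h10 : (Z.card : ℤ) - S.card - 1 ≤ sv B (D.erase v) := by linarith
    unfold sv at h10 h8
    omega

/-- **conclusion for a frame**: `Z` is contained in its `U`, its even part is contained in `W` and
misses at least two points of it. -/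
theorem main {Q U : Finset V} {T : Finset ι} {F : Finset (Finset V)} (hf : Frm B Q T U F)
    (h : Br B (Dp B Q T) Z W S) :
    Z ⊆ U ∧ Ep B Q T U F ⊆ W ∧ (Ep B Q T U F).card + 2 ≤ W.card := by
  have hsee : ∀ z ∈ Z, ∃ L ∈ S, ∃ w ∈ L, (gr B).Adj z w := by
    intro z hz
    have h1 := h.sur {z} (singleton_subset_iff.2 hz) (singleton_nonempty _)
    have h2 : 0 < (nbF (gr B) S {z}).card := by omega
    obtain ⟨L, hL⟩ := card_pos.1 h2
    obtain ⟨h4, p, hp, w, hw, hpw⟩ := mem_nbF.1 hL
    rw [mem_singleton] at hp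
    subst hp
    exact ⟨L, h4, w, hw, hpw⟩
  have hZE : ∀ z ∈ Z, z ∉ Ep B Q T U F := by
    intro z hz
    obtain ⟨L, hL, w, hw, hzw⟩ := hsee z hz
    exact hf.notE_adjc (h.SD hL hw) (h.crit_S hL hw) hzw
  have hZU : Z ⊆ U := by
    intro z hz
    rcases hf.three_cases (h.ZD hz) (hZE z hz) with h1 | ⟨L, hL, hzL⟩
    · exact h1
    · exact absurd (hf.crit_leaf hL hzL) (h.not_crit hz)
  have hEW : Ep B Q T U F ⊆ W := by
    intro v hv
    have hvD := Frm.ED hv
    rw [← h.eq] at hvD
    rcases mem_union.1 hvD with h1 | h1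
    · rcases mem_union.1 h1 with h1 | h1
      · exact absurd hv (hZE v h1)
      · obtain ⟨L, hL, hvL⟩ := mem_biUnion.1 h1
        exact absurd hv (hf.notE_crit (h.SD hL hvL) (h.crit_S hL hvL))
    · exact h1
  refine ⟨hZU, hEW, ?_⟩
  obtain ⟨R, hRW, hR2, hR⟩ := h.two
  have h1 : Disjoint (Ep B Q T U F) R := by
    rw [disjoint_left]
    intro v hv hvR
    exact hf.notE_crit (h.WD (hRW hvR)) (hR v hvR) hv
  have h2 := card_le_card (union_subset hEW hRW)
  rw [card_union_of_disjoint h1] at h2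
  omega

end Br

/-- data of a triple `{a, b, c}` such that `a`, `b` see no leaf outside `W` and `U` with `c` has
surplus outside `W`. -/
structure Bd (B : ι → Finset V) (Q : Finset V) (T : Finset ι) (U : Finset V)
    (F : Finset (Finset V)) (j : ι) (a b c : V) (W : Finset V) : Prop where
  frm : Frm B Q T U F
  hj : j ∈ T
  hjQ : B j ∩ Q = {a, b, c}
  hW : W ∈ F
  aL : ∀ L ∈ F, L ≠ W → ∀ y ∈ L, ¬ (gr B).Adj a y
  bL : ∀ L ∈ F, L ≠ W → ∀ y ∈ L, ¬ (gr B).Adj b y
  sur : ∀ Z ⊆ insert c U, Z.Nonempty → Z.card + 1 ≤ (nbF (gr B) (F.erase W) Z).card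

namespace Bd

variable {Q U : Finset V} {T : Finset ι} {F : Finset (Finset V)} {j : ι} {a b c : V}
  {W : Finset V}

omit [Fintype ι] in
theorem ne (h : Bd B Q T U F j a b c W) : a ≠ b ∧ a ≠ c ∧ b ≠ c := by
  have hj3 := h.frm.mtp.tpk.pack.card j h.hj
  have h1 := h.hjQ
  refine ⟨?_, ?_, ?_⟩
  · rintro rfl
    rw [h1] at hj3
    have h2 := card_le_two (a := a) (b := c)
    simp only [mem_insert, true_or, insert_eq_of_mem] at hj3
    omega
  · rintro rfl
    rw [h1] at hj3
    have h2 := card_le_two (a := b) (b := a)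
    simp only [mem_insert, mem_singleton, or_true, insert_eq_of_mem] at hj3
    omega
  · rintro rfl
    rw [h1] at hj3
    have h2 := card_le_two (a := a) (b := b)
    simp only [mem_singleton, insert_eq_of_mem] at hj3
    omega

omit [Fintype ι] in
theorem notD (h : Bd B Q T U F j a b c W) {z : V} (hz : z ∈ ({a, b, c} : Finset V)) :
    z ∉ Dp B Q T := by
  rw [← h.hjQ] at hz
  exact Frm.T_notD h.hj (mem_inter.1 hz).1

omit [Fintype ι] in
theorem abcQ (h : Bd B Q T U F j a b c W) : ({a, b, c} : Finset V) ⊆ Q := by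
  rw [← h.hjQ]
  exact inter_subset_right

/-- **no block at a small centre**, general form: a block inside `W0 = W ∪ E ∪ {a, b}` contains no
point `x` such that `W0 - x` is perfectly matchable. -/
theorem no_block [DecidableEq ι] (h : Bd B Q T U F j a b c W) (hm : MTE B Q T U F)
    (hW3 : W.card ≤ 3) {i : ι} (hi3 : (B i ∩ Q).card = 3)
    (hi0 : B i ∩ Q ⊆ W ∪ Ep B Q T U F ∪ {a, b}) {x : V} (hxi : x ∈ B i)
    (hx : x ∈ W ∪ Ep B Q T U F ∪ {a, b})
    (hpm : PM (gr B) ((W ∪ Ep B Q T U F ∪ {a, b}).erase x)) : False := by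
  classical
  have hf := h.frm
  obtain ⟨hab, hac, hbc⟩ := h.ne
  have haD := h.notD (z := a) (by simp)
  have hbD := h.notD (z := b) (by simp)
  have hcD := h.notD (z := c) (by simp)
  have haQ : a ∈ Q := h.abcQ (by simp)
  have hbQ : b ∈ Q := h.abcQ (by simp)
  have hcQ : c ∈ Q := h.abcQ (by simp)
  set E := Ep B Q T U F with hE
  set D := Dp B Q T with hD
  set W0 := W ∪ E ∪ {a, b} with hW0
  have hWD : W ⊆ D := hf.FD h.hW
  have hED : E ⊆ D := Frm.ED
  have hWE : Disjoint W E := hf.ge.FE W h.hW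
  have hWEc : Disjoint (W ∪ E) {a, b} := by
    rw [disjoint_right]
    intro z hz hz'
    have hzD : z ∈ D := by
      rcases mem_union.1 hz' with h1 | h1
      · exact hWD h1
      · exact hED h1
    rcases mem_insert.1 hz with rfl | hz
    · exact haD hzD
    · rw [mem_singleton.1 hz] at hzD
      exact hbD hzD
  have hW0c : W0.card = W.card + E.card + 2 := by
    rw [hW0, card_union_of_disjoint hWEc, card_union_of_disjoint hWE, card_pair hab]
  have hcW0 : c ∉ W0 := by
    intro h1
    rcases mem_union.1 h1 with h1 | h1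
    · rcases mem_union.1 h1 with h1 | h1
      · exact hcD (hWD h1)
      · exact hcD (hED h1)
    · rcases mem_insert.1 h1 with h1 | h1
      · exact hac h1.symm
      · exact hbc (mem_singleton.1 h1).symm
  have hUW0 : ∀ z ∈ U, z ∉ W0 := by
    intro z hz h1
    rcases mem_union.1 h1 with h1 | h1
    · rcases mem_union.1 h1 with h1 | h1
      · exact disjoint_left.1 (hf.ge.FU W h.hW) h1 hz
      · exact (mem_sdiff.1 (mem_sdiff.1 h1).1).2 hz
    · rcases mem_insert.1 h1 with h1 | h1
      · exact haD (h1 ▸ hf.ge.sub hz)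
      · rw [mem_singleton] at h1
        exact hbD (h1 ▸ hf.ge.sub hz)
  have hSW0 : ∀ C ∈ F.erase W, Disjoint C W0 := by
    intro C hC
    obtain ⟨hne, hC⟩ := mem_erase.1 hC
    rw [disjoint_left]
    intro z hz h1
    rcases mem_union.1 h1 with h1 | h1
    · rcases mem_union.1 h1 with h1 | h1
      · exact disjoint_left.1 (hf.ge.sys.disj C hC W h.hW hne) hz h1
      · exact disjoint_left.1 (hf.ge.FE C hC) hz h1
    · rcases mem_insert.1 h1 with h1 | h1
      · exact haD (h1 ▸ hf.FD hC hz)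
      · rw [mem_singleton] at h1
        exact hbD (h1 ▸ hf.FD hC hz)
  have hcU : c ∉ U := fun h1 => hcD (hf.ge.sub h1)
  have hDT : D ∪ (B j ∩ Q) = insert c U ∪ (F.erase W).biUnion id ∪ W0 := by
    have hq' : U ∪ F.biUnion id ∪ E = D := hf.ge.set_eq
    rw [← hq', h.hjQ]
    ext z
    simp only [hW0, mem_union, mem_biUnion, mem_insert, mem_singleton, mem_erase, id]
    constructor
    · rintro (((h1 | ⟨C, hC, hz⟩) | h1) | h1 | h1 | h1)
      · exact Or.inl (Or.inl (Or.inr h1))
      · by_cases he : C = W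
        · exact Or.inr (Or.inl (Or.inl (he ▸ hz)))
        · exact Or.inl (Or.inr ⟨C, ⟨he, hC⟩, hz⟩)
      · exact Or.inr (Or.inl (Or.inr h1))
      · exact Or.inr (Or.inr (Or.inl h1))
      · exact Or.inr (Or.inr (Or.inr h1))
      · exact Or.inl (Or.inl (Or.inl h1))
    · rintro (((h1 | h1) | ⟨C, ⟨_, hC⟩, hz⟩) | (h1 | h1) | h1 | h1)
      · exact Or.inr (Or.inr (Or.inr h1))
      · exact Or.inl (Or.inl (Or.inl h1))
      · exact Or.inl (Or.inl (Or.inr ⟨C, hC, hz⟩))
      · exact Or.inl (Or.inl (Or.inr ⟨W, h.hW, h1⟩))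
      · exact Or.inl (Or.inr h1)
      · exact Or.inr (Or.inl h1)
      · exact Or.inr (Or.inr (Or.inl h1))
  have hcDT : Cov B (D ∪ (B j ∩ Q)) := hf.covD.union (hf.cov.mono inter_subset_right)
  have hdis : ∀ C ∈ F.erase W, Disjoint C (insert c U) := by
    intro C hC
    obtain ⟨_, hC⟩ := mem_erase.1 hC
    rw [disjoint_left]
    intro z hz h1
    rcases mem_insert.1 h1 with h1 | h1
    · exact hcD (h1 ▸ hf.FD hC hz)
    · exact disjoint_left.1 (hf.ge.FU C hC) hz h1
  have hZW0 : Disjoint (insert c U) W0 := by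
    rw [disjoint_left]
    intro z hz
    rcases mem_insert.1 hz with rfl | hz
    · exact hcW0
    · exact hUW0 z hz
  have hcZ : (insert c U).card = U.card + 1 := card_insert_of_notMem hcU
  have hcS := card_erase_add_one h.hW
  have hd : ∀ k ∈ T, k ≠ j → Disjoint (B i ∩ Q) (B k ∩ Q) := by
    intro k hk hne
    rw [disjoint_left]
    intro z hz hzk
    have hzk1 := (mem_inter.1 hzk).1
    rcases mem_union.1 (hi0 hz) with h1 | h1
    · rcases mem_union.1 h1 with h1 | h1
      · exact Frm.T_notD hk hzk1 (hWD h1)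
      · exact Frm.T_notD hk hzk1 (hED h1)
    · have h2 : z ∈ B j ∩ Q := by
        rw [h.hjQ]
        rcases mem_insert.1 h1 with h1 | h1
        · rw [h1]; simp
        · rw [mem_singleton.1 h1]; simp
      exact disjoint_left.1 (hf.mtp.tpk.pack.disj k hk j h.hj hne) hzk h2
  -- the new rest
  have hnew : (D ∪ (B j ∩ Q)) \ B i = insert c U ∪ (F.erase W).biUnion id ∪ (W0 \ B i) := by
    rw [hDT]
    ext z
    simp only [mem_sdiff, mem_union]
    constructor
    · rintro ⟨(h1 | h1) | h1, h2⟩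
      · exact Or.inl (Or.inl h1)
      · exact Or.inl (Or.inr h1)
      · exact Or.inr ⟨h1, h2⟩
    · have hout : z ∈ D ∪ (B j ∩ Q) → z ∉ W0 → z ∉ B i := fun h1 h2 h3 => by
        have hzQ : z ∈ Q := by
          rcases mem_union.1 h1 with h4 | h4
          · exact Frm.DQ h4
          · exact (mem_inter.1 h4).2
        exact h2 (hi0 (mem_inter.2 ⟨h3, hzQ⟩))
      rintro ((h1 | h1) | ⟨h1, h2⟩)
      · refine ⟨Or.inl (Or.inl h1), hout ?_ (disjoint_left.1 hZW0 h1)⟩
        rw [hDT]
        exact mem_union_left _ (mem_union_left _ h1)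
      · refine ⟨Or.inl (Or.inr h1), hout ?_ ?_⟩
        · rw [hDT]
          exact mem_union_left _ (mem_union_right _ h1)
        · obtain ⟨C, hC, hz⟩ := mem_biUnion.1 h1
          exact disjoint_left.1 (hSW0 C hC) hz
      · exact ⟨Or.inr h1, h2⟩
  have hcov' : Cov B ((D ∪ (B j ∩ Q)) \ B i) := hcDT.mono sdiff_subset
  have hsubx : (D ∪ (B j ∩ Q)) \ B i ⊆ insert c U ∪ (F.erase W).biUnion id ∪ W0.erase x := by
    rw [hnew]
    refine union_subset_union (Subset.refl _) ?_
    intro z hz
    obtain ⟨h1, h2⟩ := mem_sdiff.1 hz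
    exact mem_erase.2 ⟨fun he => h2 (he ▸ hxi), h1⟩
  have hcovx : Cov B (insert c U ∪ (F.erase W).biUnion id ∪ W0.erase x) := by
    refine hcDT.mono ?_
    rw [hDT]
    exact union_subset_union (Subset.refl _) (erase_subset _ _)
  have hhall : ∀ Y ⊆ insert c U, Y.card ≤ (nbF (gr B) (F.erase W) Y).card := by
    intro Y hY
    rcases Y.eq_empty_or_nonempty with rfl | hne
    · simp
    · have h1 := h.sur Y hY hne
      omega
  have hsvx := sv_hall (B := B) (A := insert c U) (R := W0.erase x) (S := F.erase W) hcovx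
    (fun C hC => hf.ge.sys.fc C (mem_erase.1 hC).2)
    (fun C hC C' hC' => hf.ge.sys.disj C (mem_erase.1 hC).2 C' (mem_erase.1 hC').2)
    hdis (fun C hC => (hSW0 C hC).mono_right (erase_subset _ _))
    (hZW0.mono_right (erase_subset _ _)) hhall
  have hpx := pm_sv_nonneg hpm
  have hcardx : (insert c U ∪ (F.erase W).biUnion id ∪ W0.erase x).card + 1 = D.card + 3 := by
    have h1 : insert c U ∪ (F.erase W).biUnion id ∪ W0.erase x = (D ∪ (B j ∩ Q)).erase x := by
      rw [hDT]
      ext z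
      simp only [mem_union, mem_erase]
      have hxZ : x ∉ insert c U := fun h1 => disjoint_left.1 hZW0 h1 hx
      have hxS : x ∉ (F.erase W).biUnion id := fun h1 => by
        obtain ⟨C, hC, hz⟩ := mem_biUnion.1 h1
        exact disjoint_left.1 (hSW0 C hC) hz hx
      constructor
      · rintro ((h1 | h1) | ⟨h1, h2⟩)
        · exact ⟨fun he => hxZ (he ▸ h1), Or.inl (Or.inl h1)⟩
        · exact ⟨fun he => hxS (he ▸ h1), Or.inl (Or.inr h1)⟩
        · exact ⟨h1, Or.inr h2⟩
      · rintro ⟨h1, (h2 | h2) | h2⟩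
        · exact Or.inl (Or.inl h2)
        · exact Or.inl (Or.inr h2)
        · exact Or.inr ⟨h1, h2⟩
    rw [h1]
    have h2 : x ∈ D ∪ (B j ∩ Q) := by
      rw [hDT]
      exact mem_union_right _ hx
    rw [card_erase_add_one h2, card_union_of_disjoint, hf.mtp.tpk.pack.card j h.hj]
    rw [disjoint_right]
    intro z hz
    exact Frm.T_notD h.hj (mem_inter.1 hz).1
  have hsvD := hf.svD
  have hrho : rho B ((D ∪ (B j ∩ Q)) \ B i) ≤ rho B D := by
    have h1 := rho_mono hsubx hcovx
    have h2 : sv B D = (U.card : ℤ) - F.card := hsvD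
    unfold sv at hsvx h2 hpx
    omega
  obtain ⟨U1, F1, h', hset, heq⟩ := hf.exch_frame h.hj hi3 hd hrho
  have hij : (B i ∩ Q).card = 3 := hi3
  have hcd' : ((D ∪ (B j ∩ Q)) \ B i).card = D.card := by
    have h1 : (D ∪ (B j ∩ Q)).card = D.card + 3 := by
      rw [card_union_of_disjoint, hf.mtp.tpk.pack.card j h.hj]
      rw [disjoint_right]
      intro z hz
      exact Frm.T_notD h.hj (mem_inter.1 hz).1
    have h2 := card_sdiff_add_card_inter (D ∪ (B j ∩ Q)) (B i)
    have h3 : (D ∪ (B j ∩ Q)) ∩ B i = B i ∩ Q := by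
      ext z
      rw [mem_inter, mem_inter]
      constructor
      · rintro ⟨h4, h5⟩
        refine ⟨h5, ?_⟩
        rcases mem_union.1 h4 with h6 | h6
        · exact Frm.DQ h6
        · exact (mem_inter.1 h6).2
      · rintro ⟨h4, h5⟩
        refine ⟨?_, h4⟩
        rw [hDT]
        exact mem_union_right _ (hi0 (mem_inter.2 ⟨h4, h5⟩))
    rw [h3] at h2
    omega
  have hbr : Br B (Dp B Q (insert i (T.erase j))) (insert c U) (W0 \ B i) (F.erase W) := by
    rw [hset]
    refine ⟨hcov', ?_, ?_, hnew.symm, fun C hC => hf.ge.sys.fc C (mem_erase.1 hC).2,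
      fun C hC C' hC' => hf.ge.sys.disj C (mem_erase.1 hC).2 C' (mem_erase.1 hC').2,
      hdis, fun C hC => (hSW0 C hC).mono_right sdiff_subset, hZW0.mono_right sdiff_subset,
      fun C hC => ?_, h.sur, ?_⟩
    · rw [← hset]
      exact h'.tr3D
    · rw [← hset]
      exact h'.pt
    · obtain ⟨hne, hCF⟩ := mem_erase.1 hC
      refine ⟨fun z hz => ?_, fun z hz y hy hzy => ?_⟩
      · refine mem_sdiff.2 ⟨?_, fun h1 => disjoint_left.1 (hdis C hC) hz h1⟩
        rw [hnew]
        exact mem_union_left _ (mem_union_right _ (mem_biUnion.2 ⟨C, hC, hz⟩))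
      · obtain ⟨h1, h2⟩ := mem_sdiff.1 hy
        obtain ⟨h3, _⟩ := mem_sdiff.1 h1
        rcases mem_union.1 h3 with h3 | h3
        · exact (hf.ge.sys.closed C hCF).2 z hz y
            (mem_sdiff.2 ⟨h3, fun h4 => h2 (mem_insert_of_mem h4)⟩) hzy
        · exfalso
          rw [h.hjQ] at h3
          rcases mem_insert.1 h3 with h3 | h3
          · exact h.aL C hCF hne z hz (h3 ▸ hzy.symm)
          · rcases mem_insert.1 h3 with h3 | h3
            · exact h.bL C hCF hne z hz (h3 ▸ hzy.symm)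
            · rw [mem_singleton] at h3
              exact h2 (h3 ▸ mem_insert_self _ _)
    · have h2 : sv B D = (U.card : ℤ) - F.card := hsvD
      unfold sv at h2 ⊢
      rw [heq, hcd', hcZ]
      push_cast
      have h3 : ((F.erase W).card : ℤ) + 1 = F.card := by exact_mod_cast hcS
      linarith
  obtain ⟨h1, h2, h3⟩ := Br.main h' hbr
  have h4 : (W0 \ B i).card + 3 = W0.card := by
    have h5 := card_sdiff_add_card_inter W0 (B i)
    have h6 : W0 ∩ B i = B i ∩ Q := by
      ext z
      rw [mem_inter, mem_inter]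
      constructor
      · rintro ⟨h7, h8⟩
        refine ⟨h8, ?_⟩
        rcases mem_union.1 h7 with h9 | h9
        · rcases mem_union.1 h9 with h9 | h9
          · exact Frm.DQ (hWD h9)
          · exact Frm.DQ (hED h9)
        · rcases mem_insert.1 h9 with h9 | h9
          · rw [h9]; exact haQ
          · rw [mem_singleton.1 h9]; exact hbQ
      · rintro ⟨h7, h8⟩
        exact ⟨hi0 (mem_inter.2 ⟨h7, h8⟩), h7⟩
    rw [h6, hi3] at h5
    omega
  have h7 : (Ep B Q T U F).card = E.card := rfl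
  have h5 := hm.umax _ _ _ h' (by omega)
  have h6 := card_le_card h1
  omega

/-- **no block at a small centre**: if `b` sees `W` then no block inside `W ∪ E ∪ {a, b}` contains
`a`. -/
theorem no_block_a [DecidableEq ι] (h : Bd B Q T U F j a b c W) (hm : MTE B Q T U F)
    (hW3 : W.card ≤ 3) (hb : ∃ w ∈ W, (gr B).Adj b w) {i : ι} (hi3 : (B i ∩ Q).card = 3)
    (hi0 : B i ∩ Q ⊆ W ∪ Ep B Q T U F ∪ {a, b}) : a ∉ B i := by
  intro hai
  have hf := h.frm
  obtain ⟨hab, _, _⟩ := h.ne
  have haD := h.notD (z := a) (by simp)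
  have hbD := h.notD (z := b) (by simp)
  refine h.no_block hm hW3 hi3 hi0 hai (mem_union_right _ (by simp)) ?_
  have hbW : b ∉ W := fun h1 => hbD (hf.FD h.hW h1)
  have h1 : PM (gr B) (insert b W) := (hf.ge.sys.fc W h.hW).pm_insert hbW hb
  have h2 : PM (gr B) (insert b W ∪ Ep B Q T U F) := by
    refine h1.union hf.ge.rest ?_
    rw [disjoint_left]
    intro z hz hzE
    rcases mem_insert.1 hz with rfl | hz
    · exact hbD (Frm.ED hzE)
    · exact disjoint_left.1 (hf.ge.FE W h.hW) hz hzE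
  have h3 : (W ∪ Ep B Q T U F ∪ {a, b}).erase a = insert b W ∪ Ep B Q T U F := by
    ext z
    simp only [mem_erase, mem_union, mem_insert, mem_singleton]
    constructor
    · rintro ⟨h4, (h5 | h5) | h5 | h5⟩
      · exact Or.inl (Or.inr h5)
      · exact Or.inr h5
      · exact absurd h5 h4
      · exact Or.inl (Or.inl h5)
    · rintro ((h4 | h4) | h4)
      · exact ⟨fun h5 => hab (h5.symm.trans h4), Or.inr (Or.inr h4)⟩
      · exact ⟨fun h5 => haD (h5 ▸ hf.FD h.hW h4), Or.inl (Or.inl h4)⟩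
      · exact ⟨fun h5 => haD (h5 ▸ Frm.ED h4), Or.inl (Or.inr h4)⟩
  rw [h3]
  exact h2

end Bd

end Pool.Agent.Hyp6
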