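import Pool.Agent.Hyp6.L3Um
import Pool.Agent.Hyp6.L3Me

/-!
# HYP6 L3Ue: the exchange at a leaf for the frame with the smallest even part

In an `MTE` frame there is no triple `{t, x, y}` such that a block of `t` has two points in a leaf `W`
(free together with every other leaf, and factor-critical without these two points, for example with
three points), `x` sees no leaf but `W` and `y` sees a leaf different from `W`.
-/

set_option autoImplicit false

namespace Pool.Agent.Hyp6

open Finset Pool.Agent.Hyp5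

universe u v

variable {V : Type v} [DecidableEq V] {ι : Type u} {B : ι → Finset V} [Fintype ι]

variable {Q U : Finset V} {T : Finset ι} {F : Finset (Finset V)}

namespace Frm.Exl

variable {i j : ι} {W : Finset V} {t x y w w' : V}

/-- the points of `W - ww'` are critical in the new rest if `W - ww'` is factor-critical. -/
theorem crit_W (h : Exl B Q T U F i j W t x y w w') {z : V}
    (hc : 2 * rho B ((W \ {w, w'}).erase z) + 3 ≤ W.card) :
    rho B (((Dp B Q T \ {w, w'}) ∪ {x, y}).erase z) + 1 ≤ rho B (Dp B Q T) := by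
  have h1 : ((Dp B Q T \ {w, w'}) ∪ {x, y}).erase z ⊆
      (Dp B Q T \ ({W} : Finset (Finset V)).biUnion id) ∪ ((W \ {w, w'}).erase z ∪ {x, y}) := by
    intro v hv
    obtain ⟨hvz, hv⟩ := mem_erase.1 hv
    rcases mem_union.1 hv with hv | hv
    · obtain ⟨hv1, hv2⟩ := mem_sdiff.1 hv
      by_cases hvW : v ∈ W
      · exact mem_union_right _ (mem_union_left _ (mem_erase.2 ⟨hvz, mem_sdiff.2 ⟨hvW, hv2⟩⟩))
      · refine mem_union_left _ (mem_sdiff.2 ⟨hv1, fun h6 => hvW ?_⟩)
        rw [singleton_biUnion] at h6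
        exact h6
    · exact mem_union_right _ (mem_union_right _ hv)
  have hc1 : Cov B ((W \ {w, w'}).erase z) :=
    ((h.frm.covF W h.hW).mono sdiff_subset).mono (erase_subset _ _)
  have h2 := (h.frm.frr_single h.hW).rho_le h.frm.covD (hc1.union h.cov_xy) h1
  rw [sum_singleton] at h2
  have h3 := rho_union_le hc1 h.cov_xy
  have h4 := h.rho_xy
  have h5 := h.frm.card_leaf h.hW
  omega

/-- the point `x` is critical in the new rest. -/
theorem crit_x (h : Exl B Q T U F i j W t x y w w') {M : Finset V} (hM : M ∈ F)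
    (hne : M ≠ W) (hH : ∀ Z ⊆ U, Z.card ≤ (nbF (gr B) (F \ {W, M}) Z).card)
    (hy : ∃ m ∈ M, (gr B).Adj y m) :
    rho B (((Dp B Q T \ {w, w'}) ∪ {x, y}).erase x) + 1 ≤ rho B (Dp B Q T) := by
  classical
  have hS : ({W, M} : Finset (Finset V)) ⊆ F := by
    intro C hC
    rcases mem_insert.1 hC with h1 | h1
    · exact h1 ▸ h.hW
    · exact (mem_singleton.1 h1) ▸ hM
  have hN := h.frm.rho_part hS (insert_nonempty _ _) hH
  have hP := h.frm.card_parts hS
  have hcS : (({W, M} : Finset (Finset V)).biUnion id).card = W.card + M.card := by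
    rw [biUnion_insert, singleton_biUnion]
    exact card_union_of_disjoint (h.frm.ge.sys.disj W h.hW M hM hne.symm)
  have hc2 : (({W, M} : Finset (Finset V))).card = 2 := card_pair hne.symm
  set N := U ∪ (F \ {W, M}).biUnion id with hNdef
  set E := Ep B Q T U F with hE
  have hsub : ((Dp B Q T \ {w, w'}) ∪ {x, y}).erase x ⊆
      ((W \ {w, w'}) ∪ E) ∪ (N ∪ insert y M) := by
    intro z hz
    obtain ⟨hzx, hz⟩ := mem_erase.1 hz
    rcases mem_union.1 hz with hz2 | hz2
    · obtain ⟨hz3, hz4⟩ := mem_sdiff.1 hz2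
      have hset : U ∪ F.biUnion id ∪ E = Dp B Q T := h.frm.ge.set_eq
      rw [← hset] at hz3
      rcases mem_union.1 hz3 with hz5 | hz5
      · rcases mem_union.1 hz5 with hz6 | hz6
        · exact mem_union_right _ (mem_union_left _ (mem_union_left _ hz6))
        · obtain ⟨C, hC, hzC⟩ := mem_biUnion.1 hz6
          by_cases hCW : C = W
          · exact mem_union_left _ (mem_union_left _ (mem_sdiff.2 ⟨hCW ▸ hzC, hz4⟩))
          by_cases hCM : C = M
          · exact mem_union_right _ (mem_union_right _ (mem_insert_of_mem (hCM ▸ hzC)))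
          · refine mem_union_right _ (mem_union_left _ (mem_union_right _
              (mem_biUnion.2 ⟨C, mem_sdiff.2 ⟨hC, ?_⟩, hzC⟩)))
            simp only [mem_insert, mem_singleton, not_or]
            exact ⟨hCW, hCM⟩
      · exact mem_union_left _ (mem_union_right _ hz5)
    · rcases mem_insert.1 hz2 with hz3 | hz3
      · exact absurd hz3 hzx
      · rw [mem_singleton.1 hz3]
        exact mem_union_right _ (mem_union_right _ (mem_insert_self _ _))
  have hcN : Cov B N := by
    refine h.frm.covD.mono (union_subset h.frm.UD ?_)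
    intro z hz
    obtain ⟨C, hC, hzC⟩ := mem_biUnion.1 hz
    exact h.frm.FD (mem_sdiff.1 hC).1 hzC
  have hcE : Cov B E := h.frm.covD.mono ED
  have hcW : Cov B (W \ {w, w'}) := (h.frm.covF W h.hW).mono sdiff_subset
  have hcM : Cov B (insert y M) := by
    intro z hz
    rcases mem_insert.1 hz with h1 | h1
    · exact ⟨j, h1 ▸ (mem_inter.1 h.yj).1⟩
    · exact h.frm.covF M hM z h1
  have hcH := hcW.union hcE
  have r1 := rho_mono hsub (hcH.union (hcN.union hcM))
  have r2 := rho_union_le hcH (hcN.union hcM)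
  have r3 := rho_union_le hcN hcM
  have r3' := rho_union_le hcW hcE
  have r4 := rho_insert_fc (h.frm.ge.sys.fc M hM) (h.frm.sv_leaf hM) hy
    (fun hyM => h.yD (h.frm.FD hM hyM))
  have r5 := h.rho_W
  have r6 := h.frm.card_leaf hM
  have r7 := h.frm.svD
  have r8 := h.frm.card_E
  rw [← hE] at r8
  rw [hcS] at hP
  rw [hc2] at hN
  unfold sv at r7
  push_cast at hN
  omega

/-- the new even part lies in the old one if `W - ww'` is factor-critical. -/
theorem even_sub [DecidableEq ι] (h : Exl B Q T U F i j W t x y w w')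
    (hfree : ∀ L ∈ F, L ≠ W → ∀ Z ⊆ U, Z.card ≤ (nbF (gr B) (F \ {W, L}) Z).card)
    (hx : ∀ L ∈ F, L ≠ W → ∀ l ∈ L, ¬ (gr B).Adj x l)
    (hy : ∃ M ∈ F, M ≠ W ∧ ∃ m ∈ M, (gr B).Adj y m)
    (hfc : ∀ z ∈ W \ {w, w'}, 2 * rho B ((W \ {w, w'}).erase z) + 3 ≤ W.card)
    {U1 : Finset V} {F1 : Finset (Finset V)}
    (h1 : Frm B Q (insert i (T.erase j)) U1 F1) :
    Ep B Q (insert i (T.erase j)) U1 F1 ⊆ Ep B Q T U F := by
  intro v hv
  have hU := h.umax_sub hfree hx hy h1
  have hDp1 := h.swap.2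
  have hrD := h.rho_new_eq
  have hvD := ED hv
  have hvU : v ∉ U1 := (mem_sdiff.1 (mem_sdiff.1 hv).1).2
  have hvF : v ∉ F1.biUnion id := (mem_sdiff.1 hv).2
  have hncr : ¬ rho B (((Dp B Q T \ {w, w'}) ∪ {x, y}).erase v) + 1 ≤ rho B (Dp B Q T) := by
    intro h2
    refine hvF ((h1.crit_iff hvD).1 ?_)
    rw [hDp1]
    have h3 := rho_le_erase (x := v) h.cov_new
    omega
  rw [hDp1] at hvD
  rcases mem_union.1 hvD with h2 | h2
  · obtain ⟨h3, h4⟩ := mem_sdiff.1 h2
    rcases h.frm.mem_three h3 with h5 | h5 | h5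
    · exact absurd (hU (mem_insert_of_mem h5)) hvU
    · obtain ⟨L, hL, hvL⟩ := mem_biUnion.1 h5
      by_cases hLW : L = W
      · exact absurd (h.crit_W (hfc v (mem_sdiff.2 ⟨hLW ▸ hvL, h4⟩))) hncr
      · exact absurd (h.crit hL hLW (hfree L hL hLW) hvL) hncr
    · exact h5
  · rcases mem_insert.1 h2 with h3 | h3
    · obtain ⟨M, hM, hMW, hyM⟩ := hy
      exact absurd (h3 ▸ h.crit_x hM hMW (hfree M hM hMW) hyM) hncr
    · rw [mem_singleton.1 h3] at hvU
      exact absurd (hU (mem_insert_self _ _)) hvU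

end Frm.Exl

/-- **no full hit**: `MTE` frames have no triple `{t, x, y}` such that `t` has a block with two points
in the leaf `W` (free together with every other leaf, factor-critical without the two points), `x`
sees no leaf but `W` and `y` sees a leaf different from `W`. -/
theorem MTE.no_full [DecidableEq ι] (h : MTE B Q T U F) {i j : ι} (hj : j ∈ T) {W : Finset V}
    (hW : W ∈ F)
    (hfree : ∀ L ∈ F, L ≠ W → ∀ Z ⊆ U, Z.card ≤ (nbF (gr B) (F \ {W, L}) Z).card)
    {t x y : V} (hjQ : B j ∩ Q = {t, x, y}) (ht : t ∈ B i) (hi : (B i ∩ W).card = 2)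
    (hfc : ∀ z ∈ W \ B i, 2 * rho B ((W \ B i).erase z) + 3 ≤ W.card)
    (hx : ∀ L ∈ F, L ≠ W → ∀ l ∈ L, ¬ (gr B).Adj x l)
    (hy : ∃ M ∈ F, M ≠ W ∧ ∃ m ∈ M, (gr B).Adj y m) : False := by
  obtain ⟨w, w', hE⟩ := h.frm.exl hj hW hjQ ht hi
  have hWB : W \ {w, w'} = W \ B i := by
    ext v
    simp only [mem_sdiff]
    constructor
    · rintro ⟨h1, h2⟩
      refine ⟨h1, fun h3 => h2 ?_⟩
      have h4 : v ∈ B i ∩ Q := mem_inter.2 ⟨h3, h.frm.FQ hW h1⟩
      rw [hE.hiQ] at h4
      simp only [mem_insert, mem_singleton] at h4 ⊢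
      rcases h4 with h4 | h4
      · exact absurd (h4 ▸ h.frm.FD hW h1) hE.tD
      · exact h4
    · rintro ⟨h1, h2⟩
      refine ⟨h1, fun h3 => h2 ?_⟩
      have h4 : v ∈ B i ∩ Q := by
        rw [hE.hiQ]
        exact mem_insert_of_mem h3
      exact (mem_inter.1 h4).1
  rw [← hWB] at hfc
  obtain ⟨U', F', h1, h2⟩ := hE.umax hfree hx hy
  have h3 := card_le_card (hE.even_sub hfree hx hy hfc h1)
  have h4 := h.umax _ U' F' h1 h3
  have h5 := card_le_card h2
  have h6 : y ∉ U := fun h6 => hE.yD (h.frm.UD h6)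
  rw [card_insert_of_notMem h6] at h5
  omega

/-- the case of a leaf with three points. -/
theorem MTE.no_full3 [DecidableEq ι] (h : MTE B Q T U F) {i j : ι} (hj : j ∈ T) {W : Finset V}
    (hW : W ∈ F) (hW3 : W.card = 3)
    (hfree : ∀ L ∈ F, L ≠ W → ∀ Z ⊆ U, Z.card ≤ (nbF (gr B) (F \ {W, L}) Z).card)
    {t x y : V} (hjQ : B j ∩ Q = {t, x, y}) (ht : t ∈ B i) (hi : (B i ∩ W).card = 2)
    (hx : ∀ L ∈ F, L ≠ W → ∀ l ∈ L, ¬ (gr B).Adj x l)
    (hy : ∃ M ∈ F, M ≠ W ∧ ∃ m ∈ M, (gr B).Adj y m) : False := by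
  refine h.no_full hj hW hfree hjQ ht hi (fun z hz => ?_) hx hy
  have h1 : (W \ B i).card = 1 := by
    have h2 := card_sdiff_add_card_inter W (B i)
    rw [inter_comm] at h2
    omega
  have h2 := card_erase_add_one hz
  have h3 : (W \ B i).erase z = ∅ := card_eq_zero.1 (by omega)
  rw [h3, rho_empty]
  omega

end Pool.Agent.Hyp6
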