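import Pool.Agent.Hyp6.L3Y3
import Pool.Agent.Hyp6.L3Ue
import Pool.Agent.Hyp6.L3Ff
import Pool.Agent.Hyp6.L3Mb

/-!
# HYP6 L3Br: from the classes to the Hall conditions of the exclusion lemmas

`P` is any minimal partition into classes (`Sp.MinP F F U (slf B F) Ts NT P` with its data
`Sp.Gd ..`, in particular the partition into parallel classes and the one of `Stg`). Leaves in
different classes are free together; leaves in a set of classes of full rank are free together.
-/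

set_option autoImplicit false

namespace Pool.Agent.Hyp6

open Finset Pool.Agent.Hyp5 Rt

universe u v

variable {V : Type v} [DecidableEq V] {ι : Type u} {B : ι → Finset V}

section free

variable {F A : Finset (Finset V)} {U : Finset V}

/-- the Hall condition from the vanishing of the deficiency. -/
theorem hall_of_dfc (h : Sp.dfc U (slf B F) A ≤ 0) :
    ∀ Z ⊆ U, Z.card ≤ (nbF (gr B) (F \ A) Z).card := by
  intro Z hZ
  have h1 := Sp.le_dfc (U := U) (N := slf B F) (D := A) hZ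
  have h2 : Z.biUnion (slf B F) \ A ⊆ nbF (gr B) (F \ A) Z := by
    intro C hC
    obtain ⟨h3, h4⟩ := mem_sdiff.1 hC
    obtain ⟨z, hz, h5⟩ := mem_biUnion.1 h3
    obtain ⟨h6, y, hy, hzy⟩ := mem_slf.1 h5
    exact mem_nbF.2 ⟨mem_sdiff.2 ⟨h6, h4⟩, z, hz, y, hy, hzy⟩
  have h3 := card_le_card h2
  omega

/-- the set `A` of leaves is free and seen by `Z`: the points of `Z` in `U` have `A.card` further
leaves. -/
theorem card_nbF_add {Z : Finset V} (hH : ∀ Z ⊆ U, Z.card ≤ (nbF (gr B) (F \ A) Z).card)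
    (hA : A ⊆ nbF (gr B) F Z) : (Z ∩ U).card + A.card ≤ (nbF (gr B) F Z).card := by
  have h1 := hH (Z ∩ U) inter_subset_right
  have h2 : Disjoint (nbF (gr B) (F \ A) (Z ∩ U)) A := by
    rw [disjoint_left]
    intro C hC hCA
    exact (mem_sdiff.1 (mem_nbF.1 hC).1).2 hCA
  have h3 : nbF (gr B) (F \ A) (Z ∩ U) ∪ A ⊆ nbF (gr B) F Z := by
    refine union_subset (fun C hC => ?_) hA
    obtain ⟨h4, x, hx, y, hy, hxy⟩ := mem_nbF.1 hC
    exact mem_nbF.2 ⟨(mem_sdiff.1 h4).1, x, (mem_inter.1 hx).1, y, hy, hxy⟩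
  have h4 := card_le_card h3
  rw [card_union_of_disjoint h2] at h4
  omega

variable {τ : Type*} [DecidableEq τ] {Ts : Finset τ} {NT : τ → Finset (Finset V)}
  {P : Finset (Finset (Finset V))}

/-- leaves in a set of classes of full rank are free together. -/
theorem free_cls (hg : Sp.Gd F F U (slf B F) Ts NT) (hP : Sp.MinP F F U (slf B F) Ts NT P)
    {S : Finset (Finset (Finset V))} (hS : S ⊆ P) (hn : Sp.nP U (slf B F) P S ≤ 0)
    {x : Finset (Finset V) → Finset V} (hx : ∀ D ∈ S, x D ∈ D) :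
    ∀ Z ⊆ U, Z.card ≤ (nbF (gr B) (F \ S.image x) Z).card :=
  hall_of_dfc (hP.ptn.free_leaves hg hS hn hx)

/-- **leaves in different classes are free together**. -/
theorem free_two (hg : Sp.Gd F F U (slf B F) Ts NT) (hP : Sp.MinP F F U (slf B F) Ts NT P)
    {C D : Finset (Finset V)} (hC : C ∈ P) (hD : D ∈ P) (hne : C ≠ D) {L M : Finset V}
    (hL : L ∈ C) (hM : M ∈ D) : ∀ Z ⊆ U, Z.card ≤ (nbF (gr B) (F \ {L, M}) Z).card := by
  classical
  have h1 := free_cls hg hP (S := {C, D}) (by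
    intro z hz
    rcases mem_insert.1 hz with h1 | h1
    · exact h1 ▸ hC
    · exact mem_singleton.1 h1 ▸ hD) (hP.pair hg hC hD hne)
    (x := fun E => if E = C then L else M) (by
      intro E hE
      rcases mem_insert.1 hE with h1 | h1
      · rw [if_pos h1, h1]
        exact hL
      · rw [mem_singleton.1 h1, if_neg hne.symm]
        exact hM)
  rwa [image_insert, image_singleton, if_pos rfl, if_neg hne.symm] at h1

/-- **leaves in three classes of rank three are free together**. -/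
theorem free_three (hg : Sp.Gd F F U (slf B F) Ts NT) (hP : Sp.MinP F F U (slf B F) Ts NT P)
    {C D E : Finset (Finset V)} (hC : C ∈ P) (hD : D ∈ P) (hE : E ∈ P) (hCD : C ≠ D)
    (hCE : C ≠ E) (hDE : D ≠ E) (hn : Sp.nP U (slf B F) P {C, D, E} ≤ 0) {L M N : Finset V}
    (hL : L ∈ C) (hM : M ∈ D) (hN : N ∈ E) :
    ∀ Z ⊆ U, Z.card ≤ (nbF (gr B) (F \ {L, M, N}) Z).card := by
  classical
  have h1 := free_cls hg hP (S := {C, D, E}) (by
    intro z hz
    rcases mem_insert.1 hz with h1 | h1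
    · exact h1 ▸ hC
    rcases mem_insert.1 h1 with h1 | h1
    · exact h1 ▸ hD
    · exact mem_singleton.1 h1 ▸ hE) hn
    (x := fun X => if X = C then L else if X = D then M else N) (by
      intro X hX
      rcases mem_insert.1 hX with h1 | h1
      · rw [if_pos h1, h1]
        exact hL
      rcases mem_insert.1 h1 with h1 | h1
      · rw [h1, if_neg hCD.symm, if_pos rfl]
        exact hM
      · rw [mem_singleton.1 h1, if_neg hCE.symm, if_neg hDE.symm]
        exact hN)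
  rwa [image_insert, image_insert, image_singleton, if_pos rfl, if_neg hCD.symm, if_pos rfl,
    if_neg hCE.symm, if_neg hDE.symm] at h1

omit [DecidableEq τ] in
/-- every leaf is in a class. -/
theorem exists_cls (hP : Sp.MinP F F U (slf B F) Ts NT P) {L : Finset V} (hL : L ∈ F) :
    ∃ C ∈ P, L ∈ C := by
  rw [← hP.ptn.un] at hL
  obtain ⟨C, hC, h⟩ := mem_biUnion.1 hL
  exact ⟨C, hC, h⟩

/-- **a leaf which is its own class is free together with every other leaf**. -/
theorem free_own (hg : Sp.Gd F F U (slf B F) Ts NT) (hP : Sp.MinP F F U (slf B F) Ts NT P)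
    {W : Finset V} (hW : {W} ∈ P) :
    ∀ L ∈ F, L ≠ W → ∀ Z ⊆ U, Z.card ≤ (nbF (gr B) (F \ {W, L}) Z).card := by
  intro L hL hne
  obtain ⟨D, hD, hLD⟩ := exists_cls hP hL
  refine free_two hg hP hW hD ?_ (mem_singleton_self W) hLD
  intro h1
  rw [← h1] at hLD
  exact hne (mem_singleton.1 hLD)

/-- a set of classes of rank at least three: `C` and two further classes of rank three. -/
theorem ext_three (hg : Sp.Gd F F U (slf B F) Ts NT) (hP : Sp.MinP F F U (slf B F) Ts NT P)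
    {X : Finset (Finset (Finset V))} {C : Finset (Finset V)} (hCX : C ∈ X)
    (hr : 3 ≤ Sp.rkn (Sp.nP U (slf B F) P) X) :
    ∃ D ∈ X, ∃ E ∈ X, C ≠ D ∧ C ≠ E ∧ D ≠ E ∧ Sp.nP U (slf B F) P {C, D, E} ≤ 0 := by
  have hN := hP.nul hg
  obtain ⟨J, hJ1, hJ2, hJ3, hJ4⟩ := hN.exists_basis _ {C} X le_rfl
    (singleton_subset_iff.2 hCX) (hP.one hg C)
  have hCJ : C ∈ J := hJ1 (mem_singleton_self C)
  have h1 : 3 ≤ J.card := by
    have h2 : (3 : ℤ) ≤ (J.card : ℤ) := by rw [hJ4]; exact hr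
    exact_mod_cast h2
  have h2 := card_erase_add_one hCJ
  obtain ⟨D, hD, E, hE, hDE⟩ := one_lt_card.1 (show 1 < (J.erase C).card by omega)
  refine ⟨D, hJ2 (mem_of_mem_erase hD), E, hJ2 (mem_of_mem_erase hE), (ne_of_mem_erase hD).symm,
    (ne_of_mem_erase hE).symm, hDE, ?_⟩
  rw [← hJ3]
  refine hN.mono _ _ fun z hz => ?_
  rcases mem_insert.1 hz with h3 | h3
  · exact h3 ▸ hCJ
  rcases mem_insert.1 h3 with h3 | h3
  · exact h3 ▸ mem_of_mem_erase hD
  · exact mem_singleton.1 h3 ▸ mem_of_mem_erase hE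

/-- the two points `b` and `c` can be added to `U`. -/
theorem sur_two (hg : Sp.Gd F F U (slf B F) Ts NT) (hP : Sp.MinP F F U (slf B F) Ts NT P)
    {b c : V} (hb : ∀ C ∈ P, ¬ slf B F b ⊆ C) (hc : ∀ C ∈ P, ¬ slf B F c ⊆ C)
    (hr : 3 ≤ Sp.rkn (Sp.nP U (slf B F) P) (Sp.met P (slf B F b ∪ slf B F c))) :
    ∀ Z ⊆ U ∪ {b, c}, Z.Nonempty → Z.card + 1 ≤ (nbF (gr B) F Z).card := by
  classical
  have hN := hP.nul hg
  -- a class
  obtain ⟨C0, hC0⟩ : (Sp.met P (slf B F b ∪ slf B F c)).Nonempty := by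
    rw [nonempty_iff_ne_empty]
    intro h0
    rw [h0] at hr
    unfold Sp.rkn at hr
    rw [hN.empty] at hr
    simp at hr
  have hC0P := (Sp.mem_met.1 hC0).1
  have see : ∀ {p : V} {Z : Finset V} {L : Finset V}, p ∈ Z → L ∈ slf B F p →
      L ∈ nbF (gr B) F Z := by
    intro p Z L hp hL
    obtain ⟨h1, y, hy, hpy⟩ := mem_slf.1 hL
    exact mem_nbF.2 ⟨h1, p, hp, y, hy, hpy⟩
  have hpick : ∀ {X : Finset (Finset V)} {C : Finset (Finset V)}, C ∈ Sp.met P X →
      C ∈ P ∧ ∃ L ∈ X, L ∈ C := by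
    intro X C hC
    obtain ⟨h1, h2⟩ := Sp.mem_met.1 hC
    rw [not_disjoint_iff] at h2
    exact ⟨h1, h2⟩
  -- one further point
  have hone : ∀ {p : V}, (∀ C ∈ P, ¬ slf B F p ⊆ C) → ∀ Z : Finset V, p ∈ Z →
      (Z ∩ U).card + 2 ≤ (nbF (gr B) F Z).card := by
    intro p hp Z hpZ
    have hne : (slf B F p).Nonempty := by
      rw [nonempty_iff_ne_empty]
      intro h0
      exact hp C0 hC0P (by rw [h0]; exact empty_subset _)
    have h1 := hP.ptn.two_met (slf_sub (B := B) (F := F) (p := p)) hne hp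
    obtain ⟨D, hD, E, hE, hDE⟩ := one_lt_card.1 (show 1 < (Sp.met P (slf B F p)).card by omega)
    obtain ⟨hDP, L, hL, hLD⟩ := hpick hD
    obtain ⟨hEP, M, hM, hME⟩ := hpick hE
    have hLM : L ≠ M := by
      rintro rfl
      exact disjoint_left.1 (hP.ptn.dj D hDP E hEP hDE) hLD hME
    have h2 := card_nbF_add (Z := Z) (free_two hg hP hDP hEP hDE hLD hME) (by
      intro X hX
      rcases mem_insert.1 hX with h3 | h3
      · exact h3 ▸ see hpZ hL
      · exact mem_singleton.1 h3 ▸ see hpZ hM)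
    rwa [card_pair hLM] at h2
  intro Z hZ hne
  have hcard : ∀ A : Finset V, Z \ A ⊆ U → Z.card ≤ (Z ∩ U).card + A.card := by
    intro A hA
    have h1 : Z ⊆ (Z ∩ U) ∪ A := by
      intro z hz
      by_cases hzA : z ∈ A
      · exact mem_union_right _ hzA
      · exact mem_union_left _ (mem_inter.2 ⟨hz, hA (mem_sdiff.2 ⟨hz, hzA⟩)⟩)
    exact (card_le_card h1).trans (card_union_le _ _)
  by_cases hbZ : b ∈ Z
  · by_cases hcZ : c ∈ Z
    · -- both
      obtain ⟨D, hD, E, hE, hCD, hCE, hDE, hn⟩ := ext_three hg hP hC0 hr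
      obtain ⟨_, L, hL, hLC⟩ := hpick hC0
      obtain ⟨hDP, M, hM, hMD⟩ := hpick hD
      obtain ⟨hEP, N, hN', hNE⟩ := hpick hE
      have sees : ∀ {L : Finset V}, L ∈ slf B F b ∪ slf B F c → L ∈ nbF (gr B) F Z := by
        intro L hL
        rcases mem_union.1 hL with h1 | h1
        · exact see hbZ h1
        · exact see hcZ h1
      have hLM : L ≠ M := by
        rintro rfl
        exact disjoint_left.1 (hP.ptn.dj C0 hC0P D hDP hCD) hLC hMD
      have hLN : L ≠ N := by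
        rintro rfl
        exact disjoint_left.1 (hP.ptn.dj C0 hC0P E hEP hCE) hLC hNE
      have hMN : M ≠ N := by
        rintro rfl
        exact disjoint_left.1 (hP.ptn.dj D hDP E hEP hDE) hMD hNE
      have h2 := card_nbF_add (Z := Z)
        (free_three hg hP hC0P hDP hEP hCD hCE hDE hn hLC hMD hNE) (by
          intro X hX
          rcases mem_insert.1 hX with h3 | h3
          · exact h3 ▸ sees hL
          rcases mem_insert.1 h3 with h3 | h3
          · exact h3 ▸ sees hM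
          · exact mem_singleton.1 h3 ▸ sees hN')
      rw [card_eq_three.2 ⟨L, M, N, hLM, hLN, hMN, rfl⟩] at h2
      have h3 := hcard {b, c} (fun z hz => by
        obtain ⟨h4, h5⟩ := mem_sdiff.1 hz
        exact (mem_union.1 (hZ h4)).resolve_right h5)
      have h4 := card_le_two (a := b) (b := c)
      omega
    · have h2 := hone hb Z hbZ
      have h3 := hcard {b} (fun z hz => by
        obtain ⟨h4, h5⟩ := mem_sdiff.1 hz
        rcases mem_union.1 (hZ h4) with h6 | h6
        · exact h6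
        rcases mem_insert.1 h6 with h6 | h6
        · exact absurd (mem_singleton.2 h6) h5
        · rw [mem_singleton.1 h6] at h4
          exact absurd h4 hcZ)
      rw [card_singleton] at h3
      omega
  · by_cases hcZ : c ∈ Z
    · have h2 := hone hc Z hcZ
      have h3 := hcard {c} (fun z hz => by
        obtain ⟨h4, h5⟩ := mem_sdiff.1 hz
        rcases mem_union.1 (hZ h4) with h6 | h6
        · exact h6
        rcases mem_insert.1 h6 with h6 | h6
        · rw [h6] at h4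
          exact absurd h4 hbZ
        · exact absurd h6 h5)
      rw [card_singleton] at h3
      omega
    · have hZU : Z ⊆ U := by
        intro z hz
        rcases mem_union.1 (hZ hz) with h6 | h6
        · exact h6
        rcases mem_insert.1 h6 with h6 | h6
        · rw [h6] at hz
          exact absurd hz hbZ
        · rw [mem_singleton.1 h6] at hz
          exact absurd hz hcZ
      have h1 := hg.sur Z hZU hne
      refine h1.trans (card_le_card ?_)
      intro L hL
      obtain ⟨h2, _⟩ := mem_inter.1 hL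
      obtain ⟨z, hz, h3⟩ := mem_biUnion.1 h2
      exact see hz h3

/-- the point `c` can be added to `U` without the leaf `W`, which is its own class. -/
theorem sur_own (hg : Sp.Gd F F U (slf B F) Ts NT) (hP : Sp.MinP F F U (slf B F) Ts NT P)
    {W : Finset V} (hW : {W} ∈ P) {c : V} {X : Finset (Finset (Finset V))}
    (hX : X ⊆ insert {W} (Sp.met P (slf B F c))) (hWX : {W} ∈ X)
    (hr : 3 ≤ Sp.rkn (Sp.nP U (slf B F) P) X) :
    ∀ Z ⊆ insert c U, Z.Nonempty → Z.card + 1 ≤ (nbF (gr B) (F.erase W) Z).card := by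
  classical
  have see : ∀ {p : V} {Z : Finset V} {L : Finset V}, p ∈ Z → L ∈ slf B F p → L ≠ W →
      L ∈ nbF (gr B) (F.erase W) Z := by
    intro p Z L hp hL hne
    obtain ⟨h1, y, hy, hpy⟩ := mem_slf.1 hL
    exact mem_nbF.2 ⟨mem_erase.2 ⟨hne, h1⟩, p, hp, y, hy, hpy⟩
  intro Z hZ hne
  by_cases hcZ : c ∈ Z
  · obtain ⟨D, hD, E, hE, hWD, hWE, hDE, hn⟩ := ext_three hg hP hWX hr
    have hpick : ∀ {D : Finset (Finset V)}, D ∈ X → {W} ≠ D → D ∈ P ∧ ∃ L ∈ slf B F c, L ∈ D := by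
      intro D hD hne'
      obtain ⟨h1, h2⟩ := Sp.mem_met.1 ((mem_insert.1 (hX hD)).resolve_left hne'.symm)
      rw [not_disjoint_iff] at h2
      exact ⟨h1, h2⟩
    obtain ⟨hDP, M, hM, hMD⟩ := hpick hD hWD
    obtain ⟨hEP, N, hN, hNE⟩ := hpick hE hWE
    have hMW : M ≠ W := by
      rintro rfl
      exact disjoint_left.1 (hP.ptn.dj _ hW D hDP hWD) (mem_singleton_self M) hMD
    have hNW : N ≠ W := by
      rintro rfl
      exact disjoint_left.1 (hP.ptn.dj _ hW E hEP hWE) (mem_singleton_self N) hNE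
    have hMN : M ≠ N := by
      rintro rfl
      exact disjoint_left.1 (hP.ptn.dj D hDP E hEP hDE) hMD hNE
    have hH := free_three hg hP hW hDP hEP hWD hWE hDE hn (mem_singleton_self W) hMD hNE
    have hset : F \ {W, M, N} = F.erase W \ {M, N} := by
      ext L
      simp only [mem_sdiff, mem_erase, mem_insert, mem_singleton, not_or]
      tauto
    rw [hset] at hH
    have h2 := card_nbF_add (F := F.erase W) (A := {M, N}) (Z := Z) hH (by
      intro Y hY
      rcases mem_insert.1 hY with h3 | h3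
      · exact h3 ▸ see hcZ hM hMW
      · exact mem_singleton.1 h3 ▸ see hcZ hN hNW)
    rw [card_pair hMN] at h2
    have h3 : Z ⊆ insert c (Z ∩ U) := by
      intro z hz
      rcases mem_insert.1 (hZ hz) with h4 | h4
      · exact mem_insert.2 (Or.inl h4)
      · exact mem_insert_of_mem (mem_inter.2 ⟨hz, h4⟩)
    have h4 := (card_le_card h3).trans (card_insert_le _ _)
    omega
  · have hZU : Z ⊆ U := by
      intro z hz
      rcases mem_insert.1 (hZ hz) with h4 | h4
      · exact absurd (h4 ▸ hz) hcZ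
      · exact h4
    have h1 := hg.sur Z hZU hne
    have h2 : 1 < ((Z.biUnion (slf B F)) ∩ F).card := by
      have h3 := card_pos.2 hne
      omega
    obtain ⟨L, hL, hLW⟩ : ∃ L ∈ (Z.biUnion (slf B F)) ∩ F, L ≠ W := exists_mem_ne h2 W
    obtain ⟨h3, hLF⟩ := mem_inter.1 hL
    obtain ⟨z, hz, h4⟩ := mem_biUnion.1 h3
    have hH := free_own hg hP hW L hLF hLW
    have hset : F \ {W, L} = F.erase W \ {L} := by
      ext L
      simp only [mem_sdiff, mem_erase, mem_insert, mem_singleton, not_or]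
      tauto
    rw [hset] at hH
    have h5 := card_nbF_add (F := F.erase W) (A := {L}) (Z := Z) hH
      (singleton_subset_iff.2 (see hz h4 hLW))
    rw [card_singleton, inter_eq_left.2 hZU] at h5
    exact h5

end free

/-! ### the triples -/

section rules

variable [Fintype ι] {Q U : Finset V} {T : Finset ι} {F : Finset (Finset V)} {j : ι}
  {τ : Type*} [DecidableEq τ] {Ts : Finset τ} {NT : τ → Finset (Finset V)}
  {P : Finset (Finset (Finset V))}

/-- an ordinary triple which is neither inside a class nor a line triple has rank at least three. -/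
theorem Frm.rk_trs [DecidableEq ι] {R : Finset ι} (h : Frm B Q T U F)
    (hP : Sp.MinP F F U (slf B F) R (slj B Q F) P) (hjR : j ∈ R)
    (hj : j ∈ Trs B Q T R U F P) (hne : (slj B Q F j).Nonempty) :
    3 ≤ Sp.rkn (Sp.nP U (slf B F) P) (Sp.met P (slj B Q F j)) := by
  obtain ⟨h1, h2⟩ := mem_sdiff.1 hj
  obtain ⟨_, h3⟩ := mem_sdiff.1 h1
  have hg := h.gdT (R := R)
  have hno : ∀ C ∈ P, ¬ slj B Q F j ⊆ C := fun C hC hsub =>
    h3 (mem_biUnion.2 ⟨C, hC, mem_filter.2 ⟨hjR, hne, hsub⟩⟩)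
  have hTx : j ∈ Sp.Tx R (slj B Q F) P := mem_filter.2 ⟨hjR, hne, hno⟩
  have hrk : Sp.rkn (Sp.nP U (slf B F) P) (Sp.met P (slj B Q F j)) ≠ 2 := fun h6 =>
    h2 (mem_filter.2 ⟨hTx, h6⟩)
  have h6 : 1 < (Sp.met P (slj B Q F j)).card := hP.ptn.two_met (hg.NTs j hjR) hne hno
  obtain ⟨C, hC, D, hD, hCD⟩ := one_lt_card.1 h6
  have h7 := hP.pair hg (Sp.met_subset hC) (Sp.met_subset hD) hCD
  have h8 : Sp.rkn (Sp.nP U (slf B F) P) {C, D} ≤
      Sp.rkn (Sp.nP U (slf B F) P) (Sp.met P (slj B Q F j)) :=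
    (hP.nul hg).rk_mono (insert_subset hC (singleton_subset_iff.2 hD))
  unfold Sp.rkn at h8 hrk ⊢
  rw [card_pair hCD] at h8
  omega

omit [Fintype ι] [DecidableEq τ] in
/-- the leaves seen by a point, as a statement about edges. -/
theorem not_adj_of_slf {x : V} {W : Finset V} (hx : slf B F x ⊆ {W}) :
    ∀ L ∈ F, L ≠ W → ∀ l ∈ L, ¬ (gr B).Adj x l := fun L hL hne l hl hxl =>
  hne (mem_singleton.1 (hx (mem_slf.2 ⟨hL, l, hl, hxl⟩)))

omit [Fintype ι] [DecidableEq τ] in
theorem adj_of_slf {y : V} {W : Finset V} (hy : ¬ slf B F y ⊆ {W}) :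
    ∃ M ∈ F, M ≠ W ∧ ∃ m ∈ M, (gr B).Adj y m := by
  rw [not_subset] at hy
  obtain ⟨M, hM, hMW⟩ := hy
  obtain ⟨h1, m, hm, hym⟩ := mem_slf.1 hM
  exact ⟨M, h1, fun he => hMW (mem_singleton.2 he), m, hm, hym⟩

omit [DecidableEq τ] in
/-- **no full hit at a small class** `{W}`: `x` sees no leaf but `W`, `y` sees another leaf; then the
blocks of `t` have at most one point in `W`. -/
theorem MTE.single [DecidableEq ι] (hm : MTE B Q T U F)
    (hg : Sp.Gd F F U (slf B F) Ts NT) (hP : Sp.MinP F F U (slf B F) Ts NT P)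
    {W : Finset V} (hW : {W} ∈ P) (hW3 : W.card ≤ 3) (hj : j ∈ T) {t x y : V}
    (hjQ : B j ∩ Q = {t, x, y}) (hx : slf B F x ⊆ {W}) (hy : ¬ slf B F y ⊆ {W}) {i : ι}
    (ht : t ∈ B i) : (B i ∩ W).card ≤ 1 := by
  classical
  by_contra hcon
  have hWF : W ∈ F := (hP.ptn.vc _ hW).sub (mem_singleton_self W)
  have hodd := (hm.frm.ge.sys.fc W hWF).odd
  have h1 := card_le_card (inter_subset_right : B i ∩ W ⊆ W)
  have htW : t ∉ W := fun h2 => Frm.T_notD (Q := Q) hj
    (mem_inter.1 (show t ∈ B j ∩ Q by rw [hjQ]; simp)).1 (hm.frm.FD hWF h2)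
  have htQ : t ∈ Q := (mem_inter.1 (show t ∈ B j ∩ Q by rw [hjQ]; simp)).2
  have h2 : insert t (B i ∩ W) ⊆ B i ∩ Q := insert_subset (mem_inter.2 ⟨ht, htQ⟩)
    (inter_subset_inter_left (hm.frm.FQ hWF))
  have h3 := card_le_card h2
  rw [card_insert_of_notMem (fun h4 => htW (mem_inter.1 h4).2)] at h3
  have h4 := hm.frm.reg3 i
  have h5 : W.card = 3 := by
    rcases hodd with ⟨k, hk⟩
    omega
  exact hm.no_full3 hj hWF h5 (free_own hg hP hW) hjQ ht (by omega) (not_adj_of_slf hx)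
    (adj_of_slf hy)

/-- the data of a triple with two points at the class `{W}`. -/
theorem Frm.bd (h : Frm B Q T U F) (hg : Sp.Gd F F U (slf B F) Ts NT)
    (hP : Sp.MinP F F U (slf B F) Ts NT P) {W : Finset V} (hW : {W} ∈ P) (hj : j ∈ T)
    {a b c : V} (hjQ : B j ∩ Q = {a, b, c}) (ha : slf B F a ⊆ {W}) (hb : slf B F b ⊆ {W})
    (hs : (slf B F a).Nonempty ∨ (slf B F b).Nonempty)
    (hr : 3 ≤ Sp.rkn (Sp.nP U (slf B F) P) (Sp.met P (slj B Q F j))) :
    Bd B Q T U F j a b c W := by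
  classical
  have h5 : slj B Q F j = slf B F a ∪ slf B F b ∪ slf B F c := by
    unfold slj
    rw [hjQ, biUnion_insert, biUnion_insert, singleton_biUnion, union_assoc]
  have hone : ∀ {p : V}, slf B F p ⊆ {W} → Sp.met P (slf B F p) ⊆ {{W}} := by
    intro p hp C hC
    obtain ⟨h6, h7⟩ := Sp.mem_met.1 hC
    rw [not_disjoint_iff] at h7
    obtain ⟨L, hL, hLC⟩ := h7
    rw [mem_singleton.1 (hp hL)] at hLC
    rw [mem_singleton]
    by_contra hne
    exact disjoint_left.1 (hP.ptn.dj C h6 _ hW hne) hLC (mem_singleton_self W)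
  refine ⟨h, hj, hjQ, (hP.ptn.vc _ hW).sub (mem_singleton_self W), not_adj_of_slf ha,
    not_adj_of_slf hb, sur_own hg hP hW (X := Sp.met P (slj B Q F j)) ?_ ?_ hr⟩
  · rw [h5, Sp.met_union, Sp.met_union]
    intro C hC
    rcases mem_union.1 hC with h6 | h6
    · rcases mem_union.1 h6 with h7 | h7
      · exact mem_insert.2 (Or.inl (mem_singleton.1 (hone ha h7)))
      · exact mem_insert.2 (Or.inl (mem_singleton.1 (hone hb h7)))
    · exact mem_insert_of_mem h6
  · refine Sp.mem_met.2 ⟨hW, ?_⟩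
    rw [not_disjoint_iff]
    refine ⟨W, ?_, mem_singleton_self W⟩
    rw [h5]
    rcases hs with ⟨L, hL⟩ | ⟨L, hL⟩
    · exact mem_union_left _ (mem_union_left _ (mem_singleton.1 (ha hL) ▸ hL))
    · exact mem_union_left _ (mem_union_right _ (mem_singleton.1 (hb hL) ▸ hL))

/-- the data of a dead point of a triple. -/
theorem Frm.dd (h : Frm B Q T U F) (hg : Sp.Gd F F U (slf B F) Ts NT)
    (hP : Sp.MinP F F U (slf B F) Ts NT P) (hj : j ∈ T)
    {a b c : V} (hjQ : B j ∩ Q = {a, b, c}) (ha : slf B F a = ∅)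
    (hb : ∀ C ∈ P, ¬ slf B F b ⊆ C) (hc : ∀ C ∈ P, ¬ slf B F c ⊆ C)
    (hr : 3 ≤ Sp.rkn (Sp.nP U (slf B F) P) (Sp.met P (slj B Q F j))) :
    Dd B Q T U F j a b c := by
  have h5 : slj B Q F j = slf B F b ∪ slf B F c := by
    unfold slj
    rw [hjQ, biUnion_insert, biUnion_insert, singleton_biUnion, ha, empty_union]
  rw [h5] at hr
  exact ⟨h, hj, hjQ, sur_two hg hP hb hc hr⟩

/-- **the hits of the pair of a triple at a small centre** are single hits in different blocks. -/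
theorem MTE.pair_hit [DecidableEq ι] (hm : MTE B Q T U F)
    (hg : Sp.Gd F F U (slf B F) Ts NT) (hP : Sp.MinP F F U (slf B F) Ts NT P)
    {W : Finset V} (hW : {W} ∈ P) (hW3 : W.card ≤ 3) (hj : j ∈ T) {a b c : V}
    (hjQ : B j ∩ Q = {a, b, c}) (ha : slf B F a ⊆ {W}) (hb : slf B F b ⊆ {W})
    (hr : 3 ≤ Sp.rkn (Sp.nP U (slf B F) P) (Sp.met P (slj B Q F j))) {i : ι}
    (hi : (B i ∩ W).Nonempty) (hab : (B i ∩ {a, b}).Nonempty) :
    (B i ∩ W).card = 1 ∧ (B i ∩ {a, b}).card = 1 := by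
  classical
  have hf := hm.frm
  have hWF : W ∈ F := (hP.ptn.vc _ hW).sub (mem_singleton_self W)
  have haj : a ∈ B j ∩ Q := by rw [hjQ]; simp
  have hbj : b ∈ B j ∩ Q := by rw [hjQ]; simp
  have haW : a ∉ W := fun h2 => Frm.T_notD (Q := Q) hj (mem_inter.1 haj).1 (hf.FD hWF h2)
  have hbW : b ∉ W := fun h2 => Frm.T_notD (Q := Q) hj (mem_inter.1 hbj).1 (hf.FD hWF h2)
  obtain ⟨w, hw⟩ := hi
  obtain ⟨hwi, hwW⟩ := mem_inter.1 hw
  have hs : (slf B F a).Nonempty ∨ (slf B F b).Nonempty := by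
    obtain ⟨z, hz⟩ := hab
    obtain ⟨hzi, hz2⟩ := mem_inter.1 hz
    rcases mem_insert.1 hz2 with h1 | h1
    · left
      refine ⟨W, mem_slf.2 ⟨hWF, w, hwW, ?_, i, h1 ▸ hzi, hwi⟩⟩
      rintro rfl
      exact haW hwW
    · right
      rw [mem_singleton] at h1
      refine ⟨W, mem_slf.2 ⟨hWF, w, hwW, ?_, i, h1 ▸ hzi, hwi⟩⟩
      rintro rfl
      exact hbW hwW
  have hbd := hf.bd hg hP hW hj hjQ ha hb hs hr
  obtain ⟨hne, _, _⟩ := hbd.ne
  -- the third point sees another leaf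
  have hc : ¬ slf B F c ⊆ {W} := by
    intro h1
    have h2 := hbd.sur {c} (singleton_subset_iff.2 (mem_insert_self c U)) (singleton_nonempty c)
    rw [card_singleton] at h2
    have h3 : nbF (gr B) (F.erase W) {c} = ∅ := by
      rw [eq_empty_iff_forall_notMem]
      intro L hL
      obtain ⟨h4, x, hx, y, hy, hxy⟩ := mem_nbF.1 hL
      rw [mem_singleton.1 hx] at hxy
      obtain ⟨h5, h6⟩ := mem_erase.1 h4
      exact h5 (mem_singleton.1 (h1 (mem_slf.2 ⟨h6, y, hy, hxy⟩)))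
    rw [h3, card_empty] at h2
    omega
  have hjQ' : B j ∩ Q = {b, a, c} := by
    rw [hjQ]
    ext v
    simp only [mem_insert, mem_singleton]
    tauto
  have hle : (B i ∩ W).card ≤ 1 := by
    obtain ⟨z, hz⟩ := hab
    obtain ⟨hzi, hz2⟩ := mem_inter.1 hz
    rcases mem_insert.1 hz2 with h1 | h1
    · exact hm.single hg hP hW hW3 hj hjQ hb hc (h1 ▸ hzi)
    · exact hm.single hg hP hW hW3 hj hjQ' ha hc (mem_singleton.1 h1 ▸ hzi)
  have h1 : 1 ≤ (B i ∩ W).card := card_pos.2 ⟨w, hw⟩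
  refine ⟨by omega, le_antisymm ?_ (card_pos.2 hab)⟩
  by_contra hcon
  have h2 : B i ∩ {a, b} = {a, b} := by
    refine eq_of_subset_of_card_le inter_subset_right ?_
    have := card_le_two (a := a) (b := b)
    omega
  have hai : a ∈ B i := by
    have h3 : a ∈ B i ∩ {a, b} := by rw [h2]; simp
    exact (mem_inter.1 h3).1
  have hbi : b ∈ B i := by
    have h3 : b ∈ B i ∩ {a, b} := by rw [h2]; simp
    exact (mem_inter.1 h3).1
  -- the block is `{a, b, w}`
  have h3 : ({a, b, w} : Finset V) ⊆ B i ∩ Q := by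
    intro v hv
    rcases mem_insert.1 hv with h4 | h4
    · exact h4 ▸ mem_inter.2 ⟨hai, (mem_inter.1 haj).2⟩
    rcases mem_insert.1 h4 with h4 | h4
    · exact h4 ▸ mem_inter.2 ⟨hbi, (mem_inter.1 hbj).2⟩
    · exact mem_singleton.1 h4 ▸ mem_inter.2 ⟨hwi, hf.FQ hWF hwW⟩
  have h4 : ({a, b, w} : Finset V).card = 3 := card_eq_three.2 ⟨a, b, w, hne, fun he =>
    haW (he ▸ hwW), fun he => hbW (he ▸ hwW), rfl⟩
  have h5 := hf.reg3 i
  have h6 : {a, b, w} = B i ∩ Q := eq_of_subset_of_card_le h3 (by omega)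
  -- `b` sees `W`
  refine hbd.no_block_a hm hW3 ⟨w, hwW, fun he => hbW (he ▸ hwW), i, hbi, hwi⟩ (i := i)
    (by rw [← h6]; exact h4) ?_ hai
  rw [← h6]
  intro v hv
  rcases mem_insert.1 hv with h7 | h7
  · exact h7 ▸ mem_union_right _ (by simp)
  rcases mem_insert.1 h7 with h7 | h7
  · exact h7 ▸ mem_union_right _ (by simp)
  · exact mem_singleton.1 h7 ▸ mem_union_left _ (mem_union_left _ hwW)

/-- **the hits of the pair of a triple at a small centre**: at most the number of single traces which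
are not double singles. -/
theorem MTE.pair_hit_le [DecidableEq ι] (hm : MTE B Q T U F)
    (hg : Sp.Gd F F U (slf B F) Ts NT) (hP : Sp.MinP F F U (slf B F) Ts NT P)
    {W : Finset V} (hW : {W} ∈ P) (hW3 : W.card ≤ 3) (hj : j ∈ T) {a b c : V}
    (hjQ : B j ∩ Q = {a, b, c}) (ha : slf B F a ⊆ {W}) (hb : slf B F b ⊆ {W})
    (hr : 3 ≤ Sp.rkn (Sp.nP U (slf B F) P) (Sp.met P (slj B Q F j))) :
    hit B {a, b} W + 2 * ee B Q W ≤ nt B W 1 := by
  classical
  have hf := hm.frm
  have hWF : W ∈ F := (hP.ptn.vc _ hW).sub (mem_singleton_self W)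
  have habW : ∀ z ∈ ({a, b} : Finset V), z ∈ Q ∧ z ∉ W := by
    intro z hz
    have h1 : z ∈ B j ∩ Q := by
      rw [hjQ]
      rcases mem_insert.1 hz with h2 | h2
      · rw [h2]; simp
      · rw [mem_singleton.1 h2]; simp
    exact ⟨(mem_inter.1 h1).2, fun h2 => Frm.T_notD (Q := Q) hj (mem_inter.1 h1).1 (hf.FD hWF h2)⟩
  set S1 := (ins B Q W).filter (fun i => (B i ∩ Q).card = 1) with hS1
  set S2 := (tch B W).filter (fun i => (B i ∩ {a, b}).Nonempty) with hS2
  have h1 : 2 * ee B Q W ≤ S1.card := two_ee_le Q W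
  have hkey : ∀ i ∈ S2, (B i ∩ W).card = 1 ∧ (B i ∩ {a, b}).card = 1 := by
    intro i hi
    obtain ⟨h2, h3⟩ := mem_filter.1 hi
    exact hm.pair_hit hg hP hW hW3 hj hjQ ha hb hr (cost_mem_tch.1 h2) h3
  have h2 : hit B {a, b} W ≤ S2.card := by
    unfold hit
    rw [hS2, card_filter]
    refine sum_le_sum fun i hi => ?_
    split_ifs with h3
    · exact (hkey i (mem_filter.2 ⟨hi, h3⟩)).2.le
    · rw [not_nonempty_iff_eq_empty] at h3
      rw [h3, card_empty]
  have h3 : S1 ⊆ trs B W 1 := by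
    intro i hi
    obtain ⟨hi1, hi2⟩ := mem_filter.1 hi
    obtain ⟨⟨v, hv⟩, hsub⟩ := mem_ins.1 hi1
    have hvL := hsub hv
    rw [mem_trs]
    refine le_antisymm ?_ (card_pos.2 ⟨v, mem_inter.2 ⟨(mem_inter.1 hv).1, hvL⟩⟩)
    rw [← hi2]
    exact card_le_card (inter_subset_inter_left (hf.FQ hWF))
  have h4 : S2 ⊆ trs B W 1 := fun i hi => mem_trs.2 (hkey i hi).1
  have h5 : Disjoint S1 S2 := by
    rw [disjoint_left]
    intro i hi hi'
    obtain ⟨hi1, _⟩ := mem_filter.1 hi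
    obtain ⟨_, hsub⟩ := mem_ins.1 hi1
    obtain ⟨_, z, hz⟩ := mem_filter.1 hi'
    obtain ⟨hzi, hz2⟩ := mem_inter.1 hz
    obtain ⟨h6, h7⟩ := habW z hz2
    exact h7 (hsub (mem_inter.2 ⟨hzi, h6⟩))
  have h6 := card_le_card (union_subset h3 h4)
  rw [card_union_of_disjoint h5] at h6
  unfold nt
  omega

end rules

end Pool.Agent.Hyp6
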