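import Pool.Agent.Hyp6.L3Fin
import Pool.Agent.Hyp6.L3Br

/-!
# HYP6 L3Bs: the exclusion rules on the setting of the rent proof

The Hall conditions for leaves in different classes, the hits of a triple with two points at a small
parallel class, the hits of a triple with a dead point.
-/

set_option autoImplicit false

namespace Pool.Agent.Hyp6

open Finset Pool.Agent.Hyp5 Rt

universe u v

variable {V : Type v} [DecidableEq V] {ι : Type u} [Fintype ι] {B : ι → Finset V}

/-- the hits of some triples on a leaf if all their blocks have one point in the leaf. -/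
theorem Frm.sum_single_le {Q U : Finset V} {T : Finset ι} {F : Finset (Finset V)}
    (h : Frm B Q T U F) {W : Finset V} (hW : W ∈ F) {J : Finset ι} (hJ : J ⊆ T)
    (hs : ∀ j ∈ J, ∀ i, (B i ∩ (B j ∩ Q)).Nonempty → (B i ∩ W).card ≤ 1) :
    ∑ j ∈ J, jh B Q j W + 4 * ee B Q W + hit B U W ≤ 2 * nt B W 1 := by
  classical
  set S1 := (ins B Q W).filter (fun i => (B i ∩ Q).card = 1) with hS1
  have h1 : 2 * ee B Q W ≤ S1.card := two_ee_le Q W
  set R := J.biUnion (fun j => B j ∩ Q) with hR
  have h2 : ∑ j ∈ J, jh B Q j W = hit B R W := by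
    unfold jh hit
    rw [sum_comm]
    refine sum_congr rfl fun i _ => ?_
    rw [hR, inter_biUnion, card_biUnion]
    intro j hj k hk hne
    exact (h.mtp.tpk.pack.disj j (hJ hj) k (hJ hk) hne).mono inter_subset_right
      inter_subset_right
  have hRQ : R ⊆ Q := biUnion_subset.2 fun j _ => inter_subset_right
  have hRD : Disjoint R (Dp B Q T) := by
    rw [disjoint_left]
    intro v hv hvD
    obtain ⟨j, hj, hvj⟩ := mem_biUnion.1 hv
    exact Frm.T_notD (Q := Q) (hJ hj) (mem_inter.1 hvj).1 hvD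
  have hRU : Disjoint R U := hRD.mono_right h.UD
  have hRW : Disjoint R W := hRD.mono_right (h.FD hW)
  have h3 : hit B R W + hit B U W = hit B (R ∪ U) W := by
    unfold hit
    rw [← sum_add_distrib]
    refine sum_congr rfl fun i _ => ?_
    rw [inter_union_distrib_left, card_union_of_disjoint
      (hRU.mono inter_subset_right inter_subset_right)]
  have hUW : Disjoint U W := (h.ge.FU W hW).symm
  -- the blocks
  have h4 : hit B (R ∪ U) W ≤ ∑ i ∈ (trs B W 1) \ S1, 2 := by
    have h5 : hit B (R ∪ U) W = ∑ i ∈ (tch B W).filter (fun i => (B i ∩ (R ∪ U)).Nonempty),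
        (B i ∩ (R ∪ U)).card := by
      unfold hit
      rw [sum_filter]
      refine sum_congr rfl fun i _ => ?_
      split_ifs with h6
      · rfl
      · rw [not_nonempty_iff_eq_empty] at h6
        rw [h6, card_empty]
    rw [h5]
    have h6 : (tch B W).filter (fun i => (B i ∩ (R ∪ U)).Nonempty) ⊆ (trs B W 1) \ S1 := by
      intro i hi
      obtain ⟨h7, z, hz⟩ := mem_filter.1 hi
      have h8 := cost_mem_tch.1 h7
      obtain ⟨hzi, hz2⟩ := mem_inter.1 hz
      have h9 : (B i ∩ W).card ≤ 1 := by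
        rcases mem_union.1 hz2 with h10 | h10
        · obtain ⟨j, hj, hzj⟩ := mem_biUnion.1 h10
          exact hs j hj i ⟨z, mem_inter.2 ⟨hzi, hzj⟩⟩
        · obtain ⟨w, hw⟩ := h8
          obtain ⟨hwi, hwW⟩ := mem_inter.1 hw
          have h11 := h.two_leaf hW hwi hwW
          have h12 : insert z (B i ∩ W) ⊆ B i ∩ Dp B Q T := by
            refine insert_subset (mem_inter.2 ⟨hzi, h.UD h10⟩) fun y hy => ?_
            exact mem_inter.2 ⟨(mem_inter.1 hy).1, h.FD hW (mem_inter.1 hy).2⟩
          have h13 := card_le_card h12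
          rw [card_insert_of_notMem (fun hc => disjoint_left.1 hUW h10
            (mem_inter.1 hc).2)] at h13
          omega
      refine mem_sdiff.2 ⟨mem_trs.2 ?_, fun h10 => ?_⟩
      · have := card_pos.2 h8
        omega
      · obtain ⟨h11, _⟩ := mem_filter.1 h10
        obtain ⟨_, h12⟩ := mem_ins.1 h11
        have hzQ : z ∈ Q := by
          rcases mem_union.1 hz2 with h13 | h13
          · exact hRQ h13
          · exact Frm.DQ (h.UD h13)
        have h13 := h12 (mem_inter.2 ⟨hzi, hzQ⟩)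
        rcases mem_union.1 hz2 with h14 | h14
        · exact disjoint_left.1 hRW h14 h13
        · exact disjoint_left.1 hUW h14 h13
    refine (sum_le_sum_of_subset h6).trans (sum_le_sum fun i hi => ?_)
    obtain ⟨h7, _⟩ := mem_sdiff.1 hi
    have h8 := mem_trs.1 h7
    have h9 : Disjoint (B i ∩ W) (B i ∩ (R ∪ U)) := by
      refine Disjoint.mono inter_subset_right inter_subset_right ?_
      rw [disjoint_union_right]
      exact ⟨hRW.symm, hUW.symm⟩
    have h10 : (B i ∩ W) ∪ (B i ∩ (R ∪ U)) ⊆ B i ∩ Q := by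
      refine union_subset (inter_subset_inter_left (h.FQ hW)) (inter_subset_inter_left ?_)
      exact union_subset hRQ (h.UD.trans Frm.DQ)
    have h11 := card_le_card h10
    rw [card_union_of_disjoint h9] at h11
    have h12 := h.reg3 i
    omega
  have h5 : S1 ⊆ trs B W 1 := by
    intro i hi
    obtain ⟨hi1, hi2⟩ := mem_filter.1 hi
    obtain ⟨⟨v, hv⟩, hsub⟩ := mem_ins.1 hi1
    have hvL := hsub hv
    rw [mem_trs]
    refine le_antisymm ?_ (card_pos.2 ⟨v, mem_inter.2 ⟨(mem_inter.1 hv).1, hvL⟩⟩)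
    rw [← hi2]
    exact card_le_card (inter_subset_inter_left (h.FQ hW))
  have h6 := card_sdiff_add_card_eq_card h5
  rw [sum_const, smul_eq_mul] at h4
  unfold nt
  omega

/-- **the hits of a point with single hits only** on a leaf. -/
theorem Frm.point_single_le {Q U : Finset V} {T : Finset ι} {F : Finset (Finset V)}
    (h : Frm B Q T U F) {W : Finset V} (hW : W ∈ F) {j : ι} (hj : j ∈ T) {t : V}
    (ht : t ∈ B j ∩ Q) (hs : ∀ i, t ∈ B i → (B i ∩ W).card ≤ 1) :
    uh B t W + 2 * ee B Q W ≤ nt B W 1 := by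
  classical
  set S1 := (ins B Q W).filter (fun i => (B i ∩ Q).card = 1) with hS1
  have h1 : 2 * ee B Q W ≤ S1.card := two_ee_le Q W
  have htW : t ∉ W := fun h2 => Frm.T_notD (Q := Q) hj (mem_inter.1 ht).1 (h.FD hW h2)
  set S2 := (tch B W).filter (fun i => t ∈ B i) with hS2
  have h2 : uh B t W ≤ S2.card := by
    unfold uh hit
    rw [hS2, card_filter]
    refine sum_le_sum fun i _ => ?_
    split_ifs with h3
    · exact (card_le_card inter_subset_right).trans (by rw [card_singleton])
    · rw [card_eq_zero.2]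
      rw [eq_empty_iff_forall_notMem]
      intro v hv
      obtain ⟨h4, h5⟩ := mem_inter.1 hv
      exact h3 (mem_singleton.1 h5 ▸ h4)
  have h3 : S1 ⊆ trs B W 1 := by
    intro i hi
    obtain ⟨hi1, hi2⟩ := mem_filter.1 hi
    obtain ⟨⟨v, hv⟩, hsub⟩ := mem_ins.1 hi1
    have hvL := hsub hv
    rw [mem_trs]
    refine le_antisymm ?_ (card_pos.2 ⟨v, mem_inter.2 ⟨(mem_inter.1 hv).1, hvL⟩⟩)
    rw [← hi2]
    exact card_le_card (inter_subset_inter_left (h.FQ hW))
  have h4 : S2 ⊆ trs B W 1 := by
    intro i hi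
    obtain ⟨h5, h6⟩ := mem_filter.1 hi
    have h7 := card_pos.2 (cost_mem_tch.1 h5)
    have h8 := hs i h6
    exact mem_trs.2 (by omega)
  have h5 : Disjoint S1 S2 := by
    rw [disjoint_left]
    intro i hi hi'
    obtain ⟨hi1, _⟩ := mem_filter.1 hi
    obtain ⟨_, hsub⟩ := mem_ins.1 hi1
    obtain ⟨_, hti⟩ := mem_filter.1 hi'
    exact htW (hsub (mem_inter.2 ⟨hti, (mem_inter.1 ht).2⟩))
  have h6 := card_le_card (union_subset h3 h4)
  rw [card_union_of_disjoint h5] at h6
  unfold nt
  omega

namespace Stg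

variable [DecidableEq ι] {Q U : Finset V} {T : Finset ι} {F : Finset (Finset V)}
  {P : Finset (Finset (Finset V))} {a : V → Finset (Finset V) → ℕ}

/-- a class with one leaf is a parallel class. -/
theorem own_par (s : Stg B Q T U F P a) {W : Finset V} (hW : {W} ∈ P) : {W} ∈ par0 B U F := by
  have hWF : W ∈ F := (s.part.ptn.vc _ hW).sub (mem_singleton_self W)
  obtain ⟨D, hD, hWD⟩ := exists_cls s.par hWF
  obtain ⟨C, hC, hDC⟩ := s.sub_class hD
  have h1 : C = {W} := by
    by_contra hne
    exact disjoint_left.1 (s.part.ptn.dj C hC _ hW hne) (hDC hWD) (mem_singleton_self W)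
  have h2 : D = {W} := by
    refine Subset.antisymm (h1 ▸ hDC) (singleton_subset_iff.2 hWD)
  exact h2 ▸ hD

/-- leaves in different classes are free together. -/
theorem free_two (s : Stg B Q T U F P a) {C D : Finset (Finset V)} (hC : C ∈ P) (hD : D ∈ P)
    (hne : C ≠ D) {L M : Finset V} (hL : L ∈ C) (hM : M ∈ D) :
    ∀ Z ⊆ U, Z.card ≤ (nbF (gr B) (F \ {L, M}) Z).card :=
  Pool.Agent.Hyp6.free_two (s.frm.gdT (R := Rg B Q T U F)) s.part hC hD hne hL hM

/-- leaves in different parallel classes are free together. -/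
theorem free_two0 (s : Stg B Q T U F P a) {C D : Finset (Finset V)} (hC : C ∈ par0 B U F)
    (hD : D ∈ par0 B U F) (hne : C ≠ D) {L M : Finset V} (hL : L ∈ C) (hM : M ∈ D) :
    ∀ Z ⊆ U, Z.card ≤ (nbF (gr B) (F \ {L, M}) Z).card :=
  Pool.Agent.Hyp6.free_two s.frm.sur s.par hC hD hne hL hM

/-- a leaf which is its own parallel class is free together with every other leaf. -/
theorem free_own (s : Stg B Q T U F P a) {W : Finset V} (hW : {W} ∈ par0 B U F) :
    ∀ L ∈ F, L ≠ W → ∀ Z ⊆ U, Z.card ≤ (nbF (gr B) (F \ {W, L}) Z).card :=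
  Pool.Agent.Hyp6.free_own s.frm.sur s.par hW

/-- the ordinary triples which are neither inside a class nor line triples have rank three. -/
theorem rank_trs (s : Stg B Q T U F P a) {j : ι} (hj : j ∈ Trs B Q T (Rg B Q T U F) U F P)
    (h0 : ja B Q (Ep B Q T U F) j = 0) (hne : (slj B Q F j).Nonempty) :
    3 ≤ rkc B U F (par0 B U F) (mcj B Q F (par0 B U F) j) := by
  obtain ⟨_, h2⟩ := s.frm.types_trs' s.part hj
  rcases h2 with h2 | ⟨_, h2 | h2⟩
  · omega
  · rw [h2] at hne
    exact absurd hne (by simp)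
  · exact h2.1

/-- **no full hit at a small parallel class** `{W}`: `x` sees no leaf but `W`, `y` sees another leaf;
then the blocks of `t` have at most one point in `W`. -/
theorem single (s : Stg B Q T U F P a) {W : Finset V} (hW : {W} ∈ par0 B U F)
    (hW3 : W.card ≤ 3) {j : ι} (hj : j ∈ T) {t x y : V} (hjQ : B j ∩ Q = {t, x, y})
    (hx : slf B F x ⊆ {W}) (hy : ¬ slf B F y ⊆ {W}) {i : ι} (ht : t ∈ B i) :
    (B i ∩ W).card ≤ 1 := s.mte.single s.frm.sur s.par hW hW3 hj hjQ hx hy ht

/-- **the hits of the pair of a triple of type B at a small centre**. -/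
theorem bt_hit (s : Stg B Q T U F P a) {W : Finset V} (hW3 : W.card ≤ 3) {j : ι} (hj : j ∈ T)
    (h3 : 3 ≤ rkc B U F (par0 B U F) (mcj B Q F (par0 B U F) j)) {x y z : V}
    (hB : BT B Q F (par0 B U F) j x y z {W}) :
    uh B x W + uh B y W + 2 * ee B Q W ≤ nt B W 1 := by
  have h1 := s.mte.pair_hit_le s.frm.sur s.par hB.mem hW3 hj hB.eq hB.sa hB.sb h3
  have h2 : hit B {x, y} W = uh B x W + uh B y W := by
    unfold uh hit
    rw [← sum_add_distrib]
    refine sum_congr rfl fun i _ => ?_
    have h3 : ({x, y} : Finset V) = {x} ∪ {y} := by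
      ext v
      simp only [mem_insert, mem_singleton, mem_union]
    rw [h3, inter_union_distrib_left, card_union_of_disjoint]
    exact Disjoint.mono inter_subset_right inter_subset_right
      (disjoint_singleton.2 hB.ab)
  rw [h2] at h1
  exact h1

/-- a small centre has at least two single traces. -/
theorem bt_nt (s : Stg B Q T U F P a) {W : Finset V} (hW3 : W.card ≤ 3) {j : ι} (hj : j ∈ T)
    (h3 : 3 ≤ rkc B U F (par0 B U F) (mcj B Q F (par0 B U F) j)) {x y z : V}
    (hB : BT B Q F (par0 B U F) j x y z {W}) (hx : (slf B F x).Nonempty) :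
    2 + 2 * ee B Q W ≤ nt B W 1 := by
  have h1 := s.bt_hit hW3 hj h3 hB
  have hWF : W ∈ F := s.par.sub hB.mem (mem_singleton_self W)
  have key : ∀ p ∈ B j ∩ Q, (slf B F p).Nonempty → slf B F p ⊆ {W} → 0 < uh B p W := by
    intro p hp hne hs
    obtain ⟨L, hL⟩ := hne
    have h2 := mem_singleton.1 (hs hL)
    exact (uh_pos hWF (s.frm.T_notin hj hp hWF)).2 (h2 ▸ hL)
  have h2 := key x (by rw [hB.eq]; simp) hx hB.sa
  have h4 := key y (by rw [hB.eq]; simp) hB.nb hB.sb
  omega

/-- **the hits of a triple with a dead point on a small parallel class**: all its blocks have at most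
one point in `W`, or the triple has few hits. -/
theorem dead_single (s : Stg B Q T U F P a) {W : Finset V} (hW : {W} ∈ par0 B U F)
    (hW3 : W.card ≤ 3) {j : ι} (hj : j ∈ T)
    (h3 : 3 ≤ rkc B U F (par0 B U F) (mcj B Q F (par0 B U F) j)) {p : V} (hp : p ∈ B j ∩ Q)
    (hps : slf B F p = ∅) :
    (∀ i, (B i ∩ (B j ∩ Q)).Nonempty → (B i ∩ W).card ≤ 1) ∨
      ∑ L ∈ F, jh B Q j L + 2 * ee B Q W ≤ 4 + nt B W 1 := by
  have hf := s.frm
  have hWF : W ∈ F := s.par.sub hW (mem_singleton_self W)
  obtain ⟨x, y, z, hT, hxy, hxz, hyz⟩ := hf.three_points hj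
  -- name the points
  obtain ⟨b, c, hT', hpb, hpc, hbc⟩ : ∃ b c, B j ∩ Q = {p, b, c} ∧ p ≠ b ∧ p ≠ c ∧ b ≠ c := by
    rw [hT] at hp
    simp only [mem_insert, mem_singleton] at hp
    rcases hp with rfl | rfl | rfl
    · exact ⟨y, z, hT, hxy, hxz, hyz⟩
    · refine ⟨x, z, ?_, hxy.symm, hyz, hxz⟩
      rw [hT]
      ext v
      simp only [mem_insert, mem_singleton]
      tauto
    · refine ⟨x, y, ?_, hxz.symm, hyz.symm, hxy⟩
      rw [hT]
      ext v
      simp only [mem_insert, mem_singleton]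
      tauto
  have hb : b ∈ B j ∩ Q := by rw [hT']; simp
  have hc : c ∈ B j ∩ Q := by rw [hT']; simp
  have hslj : slj B Q F j = slf B F b ∪ slf B F c := by
    unfold slj
    rw [hT', biUnion_insert, biUnion_insert, singleton_biUnion, hps, empty_union]
  -- the third point sees another leaf
  have hrk : ∀ {b c : V}, slj B Q F j = slf B F b ∪ slf B F c → slf B F b ⊆ {W} →
      ¬ slf B F c ⊆ {W} := by
    intro b c h1 h2 h4
    have h5 : mcj B Q F (par0 B U F) j ⊆ {{W}} := by
      intro D hD
      obtain ⟨h6, h7⟩ := Sp.mem_met.1 hD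
      rw [not_disjoint_iff] at h7
      obtain ⟨L, hL, hLD⟩ := h7
      rw [h1] at hL
      have h8 : L = W := by
        rcases mem_union.1 hL with h9 | h9
        · exact mem_singleton.1 (h2 h9)
        · exact mem_singleton.1 (h4 h9)
      rw [h8] at hLD
      rw [mem_singleton]
      by_contra hne
      exact disjoint_left.1 (s.par.ptn.dj D h6 _ hW hne) hLD (mem_singleton_self W)
    have h6 := card_le_card h5
    rw [card_singleton] at h6
    unfold rkc Sp.rkn at h3
    have h7 := (s.par.nul s.frm.sur).nonneg (mcj B Q F (par0 B U F) j)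
    omega
  -- type D
  have hD : ∀ {b c : V}, B j ∩ Q = {p, b, c} → p ≠ b → p ≠ c → b ≠ c →
      slj B Q F j = slf B F b ∪ slf B F c → slf B F b ⊆ {W} →
      ∑ L ∈ F, jh B Q j L + 2 * ee B Q W ≤ 4 + nt B W 1 := by
    intro b c hT' hpb hpc hbc h1 h2
    have hb : b ∈ B j ∩ Q := by rw [hT']; simp
    have hc : c ∈ B j ∩ Q := by rw [hT']; simp
    have h4 := hrk h1 h2
    have h5 : ∀ i, b ∈ B i → (B i ∩ W).card ≤ 1 := by
      intro i hi
      refine s.single hW hW3 hj (t := b) (x := p) (y := c) ?_ ?_ h4 hi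
      · rw [hT']
        ext v
        simp only [mem_insert, mem_singleton]
        tauto
      · rw [hps]
        exact empty_subset _
    have h6 := hf.point_single_le hWF hj hb h5
    have h7 := hf.four_t s.viol.reg hj hc
    have h8 : ∑ L ∈ F, uh B p L = 0 := by
      refine sum_eq_zero fun L hL => uh_zero hL (hf.T_notin hj hp hL) ?_
      rw [hps]
      exact notMem_empty _
    have h9 : ∑ L ∈ F, uh B b L = uh B b W := by
      refine sum_eq_single_of_mem W hWF fun L hL hne => uh_zero hL (hf.T_notin hj hb hL) ?_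
      exact fun h10 => hne (mem_singleton.1 (h2 h10))
    have h10 : ∑ L ∈ F, jh B Q j L = ∑ L ∈ F, uh B p L + ∑ L ∈ F, uh B b L +
        ∑ L ∈ F, uh B c L := by
      rw [← sum_add_distrib, ← sum_add_distrib]
      refine sum_congr rfl fun L _ => ?_
      rw [jh_sum, hT', sum_insert (by simp [hpb, hpc]), sum_pair hbc, add_assoc]
    omega
  by_cases h1 : slf B F b ⊆ {W}
  · exact Or.inr (hD hT' hpb hpc hbc hslj h1)
  by_cases h2 : slf B F c ⊆ {W}
  · refine Or.inr (hD (b := c) (c := b) ?_ hpc hpb hbc.symm ?_ h2)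
    · rw [hT']
      ext v
      simp only [mem_insert, mem_singleton]
      tauto
    · rw [hslj, union_comm]
  left
  rintro i ⟨v, hv⟩
  obtain ⟨hvi, hvj⟩ := mem_inter.1 hv
  rw [hT'] at hvj
  simp only [mem_insert, mem_singleton] at hvj
  have hpW : slf B F p ⊆ {W} := by
    rw [hps]
    exact empty_subset _
  rcases hvj with rfl | rfl | rfl
  · -- the dead point
    by_contra hcon
    obtain ⟨w, hw⟩ : (B i ∩ W).Nonempty := card_pos.1 (by omega)
    obtain ⟨hwi, hwW⟩ := mem_inter.1 hw
    have h4 : W ∈ slf B F v := mem_slf.2 ⟨hWF, w, hwW, fun he =>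
      hf.T_notin hj hp hWF (he ▸ hwW), i, hvi, hwi⟩
    rw [hps] at h4
    exact absurd h4 (notMem_empty _)
  · refine s.single hW hW3 hj (t := v) (x := p) (y := c) ?_ hpW h2 hvi
    rw [hT']
    ext w
    simp only [mem_insert, mem_singleton]
    tauto
  · refine s.single hW hW3 hj (t := v) (x := p) (y := b) ?_ hpW h1 hvi
    rw [hT']
    ext w
    simp only [mem_insert, mem_singleton]
    tauto

end Stg

end Pool.Agent.Hyp6
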