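import Pool.Agent.Hyp6.L3K

/-!
# HYP6 L3CAP: the capacity count of level 3

`hc B W = 3 cm B W - 5 |W|` is the number of free places of the blocks meeting `W` (every block has
three places). The potential `Pp` is expressed by `hc` and the number of blocks with one and with
three points; for a set `Z` made of a packing `T` of triples, a set `U` and a rest `Z \ X` the last
two numbers are counted exactly.
-/

set_option autoImplicit false

namespace Pool.Agent.Hyp6

open Finset Pool.Agent.Hyp5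

universe u v

variable {V : Type v} [DecidableEq V] {ι : Type u} [Fintype ι]

/-- the capacity of `W`: the number of free places of the blocks meeting `W`. -/
def hc (B : ι → Finset V) (W : Finset V) : ℤ := 3 * (cm B W : ℤ) - 5 * (W.card : ℤ)

/-- the number of places of the blocks meeting `C` which are free with respect to `Z`. -/
def fs (B : ι → Finset V) (Z C : Finset V) : ℤ := ∑ i ∈ tch B C, (3 - ((B i ∩ Z).card : ℤ))

/-- the number of incidences of points of `Y` with blocks meeting `C`. -/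
def hit (B : ι → Finset V) (Y C : Finset V) : ℕ := ∑ i ∈ tch B C, (B i ∩ Y).card

variable {B : ι → Finset V}

/-- (1) the potential in terms of the capacity. -/
theorem three_Pp (W : Finset V) :
    3 * Pp B W = 4 * hc B W - W.card + 33 * sv B W := by
  unfold Pp G hc
  ring

/-- the potential modulo `4` is given by the cover number. -/
theorem Pp_mod4_sub (W : Finset V) : (Pp B W - 2 * (rho B W : ℤ)) % 4 = 0 := by
  rw [Pp_eq]
  omega

/-- rounding up a lower bound of the potential. -/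
theorem Pp_round {W : Finset V} {c : ℤ} {r : ℕ} (h : c ≤ Pp B W) (hr : rho B W = r)
    (hc : (c - 2 * (r : ℤ)) % 4 ≠ 0) (h2 : c % 2 = 0) : c + 2 ≤ Pp B W := by
  have h1 := Pp_mod4_sub (B := B) W
  rw [hr] at h1
  omega

theorem hc_sum {W : Finset V} (hr : Reg B W) :
    hc B W = ∑ i ∈ tch B W, (3 - ((B i ∩ W).card : ℤ)) := by
  have h1 := sum_inc_tch hr
  have h2 : ∑ i ∈ tch B W, ((B i ∩ W).card : ℤ) = 5 * (W.card : ℤ) := by exact_mod_cast h1
  rw [sum_sub_distrib, h2, sum_const, nsmul_eq_mul]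
  unfold hc cm
  ring

theorem hc_eq_fs {W : Finset V} (hr : Reg B W) : hc B W = fs B W W := hc_sum hr

theorem fs_nonneg {Z C : Finset V} (h3 : Tr3 B Z) : 0 ≤ fs B Z C := by
  refine sum_nonneg fun i _ => ?_
  have := h3 i
  omega

theorem hc_nonneg {W : Finset V} (hr : Reg B W) (h3 : Tr3 B W) : 0 ≤ hc B W := by
  rw [hc_eq_fs hr]
  exact fs_nonneg h3

/-- the number of blocks with three points minus the number of blocks with one point. -/
theorem sum_sub_two {W : Finset V} (hr : Reg B W) (h3 : Tr3 B W) :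
    ∑ i ∈ tch B W, (((B i ∩ W).card : ℤ) - 2) = (nt B W 3 : ℤ) - nt B W 1 := by
  have h1 := sum_inc_tch hr
  have h2 : ∑ i ∈ tch B W, ((B i ∩ W).card : ℤ) = 5 * (W.card : ℤ) := by exact_mod_cast h1
  have h4 := cm_eq3 h3
  have h5 := inc_eq3 hr h3
  rw [sum_sub_distrib, h2, sum_const, nsmul_eq_mul]
  change 5 * (W.card : ℤ) - (cm B W : ℤ) * 2 = _
  rw [h4]
  have h6 : (5 * W.card : ℤ) = nt B W 1 + 2 * nt B W 2 + 3 * nt B W 3 := by exact_mod_cast h5
  rw [h6]
  push_cast
  ring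

/-- the potential in terms of the capacity and the numbers of blocks with one and three points. -/
theorem five_Pp {W : Finset V} (hr : Reg B W) (h3 : Tr3 B W) :
    5 * Pp B W = 55 * sv B W + 6 * hc B W + nt B W 1 - nt B W 3 := by
  have h4 := cm_eq3 h3
  have h5 := inc_eq3 hr h3
  have h6 : (5 * W.card : ℤ) = nt B W 1 + 2 * nt B W 2 + 3 * nt B W 3 := by exact_mod_cast h5
  unfold Pp G hc
  rw [h4]
  push_cast
  linarith

theorem nt3_zero {W : Finset V} (h2 : ∀ i, (B i ∩ W).card ≤ 2) : nt B W 3 = 0 := by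
  unfold nt
  rw [card_eq_zero]
  ext i
  rw [mem_trs]
  have := h2 i
  simp only [notMem_empty, iff_false]
  omega

/-- (2) a set of graph type with value `-1`. -/
theorem five_Pp_leaf {W : Finset V} (hr : Reg B W) (h2 : ∀ i, (B i ∩ W).card ≤ 2)
    (hs : sv B W = -1) : 5 * Pp B W = 6 * hc B W + nt B W 1 - 55 := by
  have h3 : Tr3 B W := fun i => (h2 i).trans (by norm_num)
  rw [five_Pp hr h3, nt3_zero h2, hs]
  push_cast
  ring

/-- the number of blocks with one point is congruent to `|W|` for a set of graph type. -/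
theorem nt1_mod {W : Finset V} (hr : Reg B W) (h2 : ∀ i, (B i ∩ W).card ≤ 2) :
    nt B W 1 % 2 = W.card % 2 := by
  have h3 : ∀ i, (B i ∩ W).card ≤ 3 := fun i => (h2 i).trans (by norm_num)
  have h5 := inc_eq3 hr h3
  rw [nt3_zero h2] at h5
  omega

theorem nt1_pos {W : Finset V} (hr : Reg B W) (h2 : ∀ i, (B i ∩ W).card ≤ 2)
    (ho : W.card % 2 = 1) : 1 ≤ nt B W 1 := by
  have h3 := nt1_mod hr h2
  omega

omit [Fintype ι] in
theorem odd_of_sv_neg_one {W : Finset V} (hs : sv B W = -1) : W.card % 2 = 1 := by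
  unfold sv at hs
  omega

theorem hit_eq (Y C : Finset V) :
    hit B Y C = ∑ y ∈ Y, (univ.filter (fun i => y ∈ B i ∧ (B i ∩ C).Nonempty)).card := by
  classical
  unfold hit
  have h1 : ∀ i, (B i ∩ Y).card = ∑ y ∈ Y, if y ∈ B i then 1 else 0 := by
    intro i
    rw [← Finset.card_filter, Finset.inter_comm, ← Finset.filter_mem_eq_inter]
  simp_rw [h1]
  rw [sum_comm]
  refine sum_congr rfl fun y _ => ?_
  rw [← card_filter]
  congr 1
  ext i
  simp only [mem_filter, mem_univ, true_and, cost_mem_tch]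
  exact and_comm

/-- (3) the capacity is the number of hits plus the number of free places. -/
theorem hit_add_fs {C Y : Finset V} (hr : Reg B C) (hd : Disjoint C Y) :
    (hit B Y C : ℤ) + fs B (C ∪ Y) C = hc B C := by
  rw [hc_sum hr]
  unfold hit fs
  push_cast
  rw [← sum_add_distrib]
  refine sum_congr rfl fun i _ => ?_
  have h1 : (B i ∩ (C ∪ Y)).card = (B i ∩ C).card + (B i ∩ Y).card := by
    rw [inter_union_distrib_left]
    exact card_union_of_disjoint (disjoint_of_subset_left inter_subset_right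
      (disjoint_of_subset_right inter_subset_right hd))
  rw [h1]
  push_cast
  ring

theorem hit_le {C Y Q : Finset V} (hr : Reg B C) (hd : Disjoint C Y) (hC : C ⊆ Q) (hY : Y ⊆ Q)
    (h3 : Tr3 B Q) : (hit B Y C : ℤ) ≤ hc B C := by
  have h1 := hit_add_fs hr hd
  have h2 := fs_nonneg (C := C) (h3.mono (union_subset hC hY))
  linarith

/-- the blocks meeting `Z` meet the rest or lie inside `X`. -/
theorem tch_split [DecidableEq ι] (Z X : Finset V) :
    tch B Z = tch B (Z \ X) ∪ ins B Z X := by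
  ext i
  rw [mem_union, mem_ins, cost_mem_tch, cost_mem_tch]
  constructor
  · intro h
    by_cases h1 : B i ∩ Z ⊆ X
    · exact Or.inr ⟨h, h1⟩
    · left
      rw [not_subset] at h1
      obtain ⟨v, hv, hvX⟩ := h1
      rw [mem_inter] at hv
      exact ⟨v, mem_inter.2 ⟨hv.1, mem_sdiff.2 ⟨hv.2, hvX⟩⟩⟩
  · rintro (h | h)
    · exact h.mono (inter_subset_inter_left sdiff_subset)
    · exact h.1

theorem tch_split_disj (Z X : Finset V) : Disjoint (tch B (Z \ X)) (ins B Z X) := by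
  rw [disjoint_left]
  intro i h1 h2
  rw [cost_mem_tch] at h1
  rw [mem_ins] at h2
  obtain ⟨v, hv⟩ := h1
  rw [mem_inter, mem_sdiff] at hv
  exact hv.2.2 (h2.2 (mem_inter.2 ⟨hv.1, hv.2.1⟩))

theorem sum_tch_split (Z X : Finset V) (f : ι → ℤ) :
    ∑ i ∈ tch B Z, f i = ∑ i ∈ tch B (Z \ X), f i + ∑ i ∈ ins B Z X, f i := by
  classical
  rw [tch_split Z X, sum_union (tch_split_disj Z X)]

/-- the incidences of a subset. -/
theorem sum_inc_sub {Z S : Finset V} (hr : Reg B Z) (hS : S ⊆ Z) :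
    ∑ i ∈ tch B Z, ((B i ∩ S).card : ℤ) = 5 * (S.card : ℤ) := by
  have h1 := sum_inc (hr.mono hS)
  have h2 : ∑ i ∈ tch B Z, (B i ∩ S).card = ∑ i, (B i ∩ S).card := by
    apply Finset.sum_subset (Finset.subset_univ _)
    intro i _ hi
    rw [cost_mem_tch, not_nonempty_iff_eq_empty] at hi
    rw [card_eq_zero, ← subset_empty, ← hi]
    exact inter_subset_inter_left hS
  rw [h1] at h2
  exact_mod_cast h2

/-- the data of the count: a packing `T` of triples of `Z`, a set `U` outside the triples, `X` is the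
union of the triples and `U`. -/
structure Cpd (B : ι → Finset V) (Z : Finset V) (T : Finset ι) (U X : Finset V) : Prop where
  reg : Reg B Z
  tr3 : Tr3 B Z
  pack : Pack B Z 3 T
  sub : U ⊆ Z
  dis : Disjoint U (T.biUnion B)
  eq : X = (T.biUnion B ∩ Z) ∪ U

namespace Cpd

variable {Z U X : Finset V} {T : Finset ι}

theorem XZ (h : Cpd B Z T U X) : X ⊆ Z := by
  rw [h.eq]
  exact union_subset inter_subset_right h.sub

theorem disTU (h : Cpd B Z T U X) : Disjoint (T.biUnion B ∩ Z) U :=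
  disjoint_of_subset_left inter_subset_left h.dis.symm

theorem card_X (h : Cpd B Z T U X) : X.card = 3 * T.card + U.card := by
  rw [h.eq, card_union_of_disjoint h.disTU, h.pack.inter_card]

theorem T_sub (h : Cpd B Z T U X) : T ⊆ ins B Z X := by
  intro i hi
  have h1 := h.pack.sub_ins (by norm_num) hi
  rw [mem_ins] at h1 ⊢
  refine ⟨h1.1, fun v hv => ?_⟩
  rw [h.eq]
  exact mem_union_left _ (mem_inter.2 ⟨h1.2 hv, (mem_inter.1 hv).2⟩)

theorem inter_X (h : Cpd B Z T U X) (i : ι) :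
    (B i ∩ X).card = (B i ∩ (T.biUnion B ∩ Z)).card + (B i ∩ U).card := by
  rw [h.eq, inter_union_distrib_left]
  exact card_union_of_disjoint (disjoint_of_subset_left inter_subset_right
    (disjoint_of_subset_right inter_subset_right h.disTU))

theorem inter_Z (h : Cpd B Z T U X) (i : ι) :
    (B i ∩ Z).card = (B i ∩ (Z \ X)).card + (B i ∩ X).card := by
  have h1 : B i ∩ Z = (B i ∩ (Z \ X)) ∪ (B i ∩ X) := by
    rw [← inter_union_distrib_left, sdiff_union_of_subset h.XZ]
  rw [h1]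
  exact card_union_of_disjoint (disjoint_of_subset_left inter_subset_right
    (disjoint_of_subset_right inter_subset_right sdiff_disjoint))

/-- the blocks inside `X` which are not in `T`. -/
theorem sum_ins (h : Cpd B Z T U X) [DecidableEq ι] (f : ι → ℤ) :
    ∑ i ∈ ins B Z X, f i = ∑ i ∈ T, f i + ∑ i ∈ ins B Z X \ T, f i := by
  rw [add_comm, sum_sdiff h.T_sub]

theorem inter_T (h : Cpd B Z T U X) {i : ι} (hi : i ∈ T) :
    (B i ∩ (T.biUnion B ∩ Z)).card = 3 ∧ (B i ∩ U).card = 0 := by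
  constructor
  · rw [← h.pack.card i hi]
    congr 1
    ext v
    simp only [mem_inter, mem_biUnion]
    exact ⟨fun h => ⟨h.1, h.2.2⟩, fun h => ⟨h.1, ⟨i, hi, h.1⟩, h.2⟩⟩
  · rw [card_eq_zero, ← disjoint_iff_inter_eq_empty]
    exact (disjoint_of_subset_right (subset_biUnion_of_mem B hi) h.dis).symm

/-- the count of the hits of the triples. -/
theorem hitT (h : Cpd B Z T U X) [DecidableEq ι] :
    ∑ i ∈ tch B (Z \ X), ((B i ∩ (T.biUnion B ∩ Z)).card : ℤ) +
      ∑ i ∈ ins B Z X \ T, ((B i ∩ (T.biUnion B ∩ Z)).card : ℤ) = 12 * (T.card : ℤ) := by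
  have h1 := sum_inc_sub h.reg (inter_subset_right (s₁ := T.biUnion B) (s₂ := Z))
  rw [sum_tch_split Z X, h.sum_ins, h.pack.inter_card] at h1
  have h2 : ∑ i ∈ T, ((B i ∩ (T.biUnion B ∩ Z)).card : ℤ) = 3 * (T.card : ℤ) := by
    rw [sum_congr rfl fun i hi => by rw [(h.inter_T hi).1], sum_const, nsmul_eq_mul]
    push_cast
    ring
  rw [h2] at h1
  push_cast at h1
  linarith

/-- the count of the hits of `U`. -/
theorem hitU (h : Cpd B Z T U X) [DecidableEq ι] :
    (hit B U (Z \ X) : ℤ) + ∑ i ∈ ins B Z X \ T, ((B i ∩ U).card : ℤ) = 5 * (U.card : ℤ) := by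
  have h1 := sum_inc_sub h.reg h.sub
  rw [sum_tch_split Z X, h.sum_ins] at h1
  have h2 : ∑ i ∈ T, ((B i ∩ U).card : ℤ) = 0 :=
    sum_eq_zero fun i hi => by rw [(h.inter_T hi).2]; rfl
  rw [h2] at h1
  unfold hit
  push_cast at h1 ⊢
  linarith

/-- the number of blocks with three points minus the number of blocks with one point. -/
theorem n31 (h : Cpd B Z T U X) [DecidableEq ι] :
    (nt B Z 3 : ℤ) - nt B Z 1 = (nt B (Z \ X) 3 : ℤ) - nt B (Z \ X) 1 + 13 * (T.card : ℤ) +
      (hit B U (Z \ X) : ℤ) + ∑ i ∈ ins B Z X \ T, (((B i ∩ U).card : ℤ) - 2) := by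
  rw [← sum_sub_two h.reg h.tr3, ← sum_sub_two (h.reg.mono sdiff_subset) (h.tr3.mono sdiff_subset),
    sum_tch_split Z X, h.sum_ins]
  have e1 : ∑ i ∈ tch B (Z \ X), (((B i ∩ Z).card : ℤ) - 2) =
      ∑ i ∈ tch B (Z \ X), (((B i ∩ (Z \ X)).card : ℤ) - 2) +
        ∑ i ∈ tch B (Z \ X), ((B i ∩ (T.biUnion B ∩ Z)).card : ℤ) + (hit B U (Z \ X) : ℤ) := by
    unfold hit
    push_cast
    rw [← sum_add_distrib, ← sum_add_distrib]
    refine sum_congr rfl fun i _ => ?_
    rw [h.inter_Z i, h.inter_X i]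
    push_cast
    ring
  have e2 : ∑ i ∈ T, (((B i ∩ Z).card : ℤ) - 2) = T.card := by
    rw [sum_congr rfl fun i hi => by rw [h.pack.card i hi], sum_const, nsmul_eq_mul]
    push_cast
    ring
  have e3 : ∑ i ∈ ins B Z X \ T, (((B i ∩ Z).card : ℤ) - 2) =
      ∑ i ∈ ins B Z X \ T, ((B i ∩ (T.biUnion B ∩ Z)).card : ℤ) +
        ∑ i ∈ ins B Z X \ T, (((B i ∩ U).card : ℤ) - 2) := by
    rw [← sum_add_distrib]
    refine sum_congr rfl fun i hi => ?_
    have h1 : B i ∩ Z = B i ∩ X := by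
      refine Subset.antisymm (fun v hv => ?_) (inter_subset_inter_left h.XZ)
      exact mem_inter.2 ⟨(mem_inter.1 hv).1, (mem_ins.1 (mem_sdiff.1 hi).1).2 hv⟩
    rw [h1, h.inter_X i]
    push_cast
    ring
  rw [e1, e2, e3]
  have e4 := h.hitT
  linarith

/-- **the count**: the potential of `Z`, exact. -/
theorem five_Pp_eq (h : Cpd B Z T U X) [DecidableEq ι] :
    5 * Pp B Z = 55 * sv B Z + 6 * hc B Z - 13 * (T.card : ℤ) +
      ∑ i ∈ ins B Z X \ T, (2 - ((B i ∩ U).card : ℤ)) +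
      ((nt B (Z \ X) 1 : ℤ) - nt B (Z \ X) 3 - hit B U (Z \ X)) := by
  have h1 := five_Pp h.reg h.tr3
  have h2 := h.n31
  have h3 : ∑ i ∈ ins B Z X \ T, (2 - ((B i ∩ U).card : ℤ)) =
      -∑ i ∈ ins B Z X \ T, (((B i ∩ U).card : ℤ) - 2) := by
    rw [← sum_neg_distrib]
    exact sum_congr rfl fun i _ => by ring
  rw [h3]
  linarith

/-- the capacity of `Z` in terms of the free places. -/
theorem hc_eq (h : Cpd B Z T U X) [DecidableEq ι] :
    hc B Z = fs B Z (Z \ X) + ∑ i ∈ ins B Z X \ T, (3 - ((B i ∩ Z).card : ℤ)) := by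
  rw [hc_sum h.reg, sum_tch_split Z X, h.sum_ins]
  have e2 : ∑ i ∈ T, (3 - ((B i ∩ Z).card : ℤ)) = 0 :=
    sum_eq_zero fun i hi => by rw [h.pack.card i hi]; norm_num
  rw [e2]
  unfold fs
  ring

/-- the hits of `U` are counted by the single traces, if every block meeting `U` and the rest has one
point in the rest and one point in `U`. -/
theorem hitU_le (h2 : ∀ i, (B i ∩ (Z \ X)).card ≤ 2)
    (hU : ∀ i, (B i ∩ (Z \ X)).Nonempty → (B i ∩ U).Nonempty →
      (B i ∩ (Z \ X)).card = 1 ∧ (B i ∩ U).card = 1) :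
    (hit B U (Z \ X) : ℤ) ≤ (nt B (Z \ X) 1 : ℤ) - nt B (Z \ X) 3 := by
  classical
  rw [nt3_zero h2]
  have h1 : hit B U (Z \ X) ≤ nt B (Z \ X) 1 := by
    unfold hit nt
    have h3 : ∑ i ∈ tch B (Z \ X), (B i ∩ U).card ≤
        ∑ i ∈ tch B (Z \ X), if (B i ∩ (Z \ X)).card = 1 then 1 else 0 := by
      refine sum_le_sum fun i hi => ?_
      rcases (B i ∩ U).eq_empty_or_nonempty with h0 | h0
      · rw [h0, card_empty]
        exact Nat.zero_le _
      · obtain ⟨h4, h5⟩ := hU i (cost_mem_tch.1 hi) h0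
        rw [h4, h5]
        simp
    refine h3.trans ?_
    rw [← card_filter]
    refine card_le_card fun i hi => ?_
    exact mem_trs.2 (mem_filter.1 hi).2
  have h4 : (hit B U (Z \ X) : ℤ) ≤ nt B (Z \ X) 1 := by exact_mod_cast h1
  push_cast
  linarith

/-- **the lower bound**, capacity form. -/
theorem five_Pp_ge (h : Cpd B Z T U X) [DecidableEq ι] (h2 : ∀ i, (B i ∩ (Z \ X)).card ≤ 2)
    (hU : ∀ i, (B i ∩ (Z \ X)).Nonempty → (B i ∩ U).Nonempty →
      (B i ∩ (Z \ X)).card = 1 ∧ (B i ∩ U).card = 1) :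
    55 * sv B Z + 6 * hc B Z - 13 * (T.card : ℤ) +
      ∑ i ∈ ins B Z X \ T, (2 - ((B i ∩ U).card : ℤ)) ≤ 5 * Pp B Z := by
  have h1 := h.five_Pp_eq
  have h4 := hitU_le h2 hU
  linarith

/-- **the lower bound**, form with the free places. -/
theorem five_Pp_ge' (h : Cpd B Z T U X) [DecidableEq ι] (h2 : ∀ i, (B i ∩ (Z \ X)).card ≤ 2)
    (hU : ∀ i, (B i ∩ (Z \ X)).Nonempty → (B i ∩ U).Nonempty →
      (B i ∩ (Z \ X)).card = 1 ∧ (B i ∩ U).card = 1) :
    55 * sv B Z + 6 * fs B Z (Z \ X) - 13 * (T.card : ℤ) +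
      ∑ i ∈ ins B Z X \ T, (20 - 6 * ((B i ∩ Z).card : ℤ) - ((B i ∩ U).card : ℤ)) ≤
      5 * Pp B Z := by
  have h1 := h.five_Pp_ge h2 hU
  rw [h.hc_eq] at h1
  have h3 : ∑ i ∈ ins B Z X \ T, (20 - 6 * ((B i ∩ Z).card : ℤ) - ((B i ∩ U).card : ℤ)) =
      6 * ∑ i ∈ ins B Z X \ T, (3 - ((B i ∩ Z).card : ℤ)) +
        ∑ i ∈ ins B Z X \ T, (2 - ((B i ∩ U).card : ℤ)) := by
    rw [mul_sum, ← sum_add_distrib]
    exact sum_congr rfl fun i _ => by ring
  rw [h3]
  linarith

end Cpd

section Additivity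

theorem nt_add {W W' : Finset V} (h : Sep B W W') {k : ℕ} (hk : 1 ≤ k) :
    nt B (W ∪ W') k = nt B W k + nt B W' k := by
  classical
  unfold nt
  rw [← card_union_of_disjoint]
  · congr 1
    ext i
    rw [mem_union, mem_trs, mem_trs, mem_trs, inter_union_distrib_left]
    rcases (B i ∩ W).eq_empty_or_nonempty with h1 | h1
    · rw [h1, empty_union, card_empty]
      constructor
      · exact fun h => Or.inr h
      · rintro (h | h)
        · omega
        · exact h
    · have h2 : B i ∩ W' = ∅ := by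
        by_contra h3
        exact h i h1 (nonempty_iff_ne_empty.2 h3)
      rw [h2, union_empty, card_empty]
      constructor
      · exact fun h => Or.inl h
      · rintro (h | h)
        · exact h
        · omega
  · rw [disjoint_left]
    intro i h1 h2
    rw [mem_trs] at h1 h2
    exact h i (card_pos.1 (by omega)) (card_pos.1 (by omega))

theorem hit_add (Y : Finset V) {W W' : Finset V} (h : Sep B W W') :
    hit B Y (W ∪ W') = hit B Y W + hit B Y W' := by
  classical
  unfold hit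
  rw [tch_union, sum_union]
  rw [disjoint_left]
  intro i h1 h2
  exact h i (cost_mem_tch.1 h1) (cost_mem_tch.1 h2)

theorem hc_add {W W' : Finset V} (hd : Disjoint W W') (h : Sep B W W') :
    hc B (W ∪ W') = hc B W + hc B W' := by
  unfold hc
  rw [cm_add h, card_union_of_disjoint hd]
  push_cast
  ring

theorem nt_biUnion {F : Finset (Finset V)} (h : SepF B F) {k : ℕ} (hk : 1 ≤ k) :
    nt B (F.biUnion id) k = ∑ C ∈ F, nt B C k := by
  classical
  induction F using Finset.induction_on with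
  | empty =>
    simp only [biUnion_empty, sum_empty]
    unfold nt
    rw [card_eq_zero]
    ext i
    rw [mem_trs, inter_empty, card_empty]
    simp only [notMem_empty, iff_false]
    omega
  | insert C F hC ih =>
    have hne : ∀ D ∈ F, C ≠ D := fun D hD he => hC (he ▸ hD)
    rw [biUnion_insert, sum_insert hC]
    simp only [id]
    rw [nt_add (sep_biUnion fun D hD =>
      (h C (mem_insert_self _ _) D (mem_insert_of_mem hD) (hne D hD)).2) hk]
    rw [ih (h.mono (subset_insert _ _))]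

theorem hit_biUnion (Y : Finset V) {F : Finset (Finset V)} (h : SepF B F) :
    hit B Y (F.biUnion id) = ∑ C ∈ F, hit B Y C := by
  classical
  induction F using Finset.induction_on with
  | empty => simp [hit, tch]
  | insert C F hC ih =>
    have hne : ∀ D ∈ F, C ≠ D := fun D hD he => hC (he ▸ hD)
    rw [biUnion_insert, sum_insert hC]
    simp only [id]
    rw [hit_add Y (sep_biUnion fun D hD =>
      (h C (mem_insert_self _ _) D (mem_insert_of_mem hD) (hne D hD)).2)]
    rw [ih (h.mono (subset_insert _ _))]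

theorem hc_biUnion {F : Finset (Finset V)} (h : SepF B F) :
    hc B (F.biUnion id) = ∑ C ∈ F, hc B C := by
  unfold hc
  rw [cm_biUnion h, card_biUnion_sepF h, sum_sub_distrib, ← mul_sum, ← mul_sum]
  push_cast
  rfl

end Additivity

namespace Frm

variable {Q U : Finset V} {T : Finset ι} {F : Finset (Finset V)}

/-- a set of leaves meets every block in at most two points. -/
theorem leaf_two (h : Frm B Q T U F) {F' : Finset (Finset V)} (hF : F' ⊆ F) (i : ι) :
    (B i ∩ F'.biUnion id).card ≤ 2 := by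
  rcases (B i ∩ F'.biUnion id).eq_empty_or_nonempty with h0 | ⟨v, hv⟩
  · rw [h0, card_empty]
    exact Nat.zero_le _
  obtain ⟨hvi, hvF⟩ := mem_inter.1 hv
  obtain ⟨C, hC, hvC⟩ := mem_biUnion.1 hvF
  refine le_trans (card_le_card (inter_subset_inter_left ?_)) (h.two_leaf (hF hC) hvi hvC)
  intro x hx
  obtain ⟨D, hD, hxD⟩ := mem_biUnion.1 hx
  exact h.FD (hF hD) hxD

/-- a block meeting a leaf and `U` has one point in the leaves and one point in `U`. -/
theorem leaf_U (h : Frm B Q T U F) {F' : Finset (Finset V)} (hF : F' ⊆ F) {U' : Finset V}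
    (hU : U' ⊆ U) {i : ι} (h1 : (B i ∩ F'.biUnion id).Nonempty) (h2 : (B i ∩ U').Nonempty) :
    (B i ∩ F'.biUnion id).card = 1 ∧ (B i ∩ U').card = 1 := by
  obtain ⟨v, hv⟩ := h1
  obtain ⟨hvi, hvF⟩ := mem_inter.1 hv
  obtain ⟨C, hC, hvC⟩ := mem_biUnion.1 hvF
  have h3 := h.two_leaf (hF hC) hvi hvC
  have h4 : Disjoint (B i ∩ F'.biUnion id) (B i ∩ U') := by
    rw [disjoint_left]
    intro x hx hx'
    obtain ⟨D, hD, hxD⟩ := mem_biUnion.1 (mem_inter.1 hx).2
    exact disjoint_left.1 (h.ge.FU D (hF hD)) hxD (hU (mem_inter.1 hx').2)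
  have h5 : (B i ∩ F'.biUnion id) ∪ (B i ∩ U') ⊆ B i ∩ Dp B Q T := by
    refine union_subset (inter_subset_inter_left ?_) (inter_subset_inter_left (hU.trans h.UD))
    intro x hx
    obtain ⟨D, hD, hxD⟩ := mem_biUnion.1 hx
    exact h.FD (hF hD) hxD
  have h6 := card_le_card h5
  rw [card_union_of_disjoint h4] at h6
  have h7 := card_pos.2 ⟨v, hv⟩
  have h8 := card_pos.2 h2
  omega

/-- the union of a part of the triples, a part of `U` and a part of the leaves. -/
def Zp (B : ι → Finset V) (Q : Finset V) (T : Finset ι) (U : Finset V) (F : Finset (Finset V)) :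
    Finset V := (T.biUnion B ∩ Q) ∪ U ∪ F.biUnion id

section Sub

variable {T' : Finset ι} {U' : Finset V} {F' : Finset (Finset V)}

omit [Fintype ι] in
theorem ZpQ (h : Frm B Q T U F) (hU : U' ⊆ U) (hF : F' ⊆ F) : Zp B Q T' U' F' ⊆ Q := by
  refine union_subset (union_subset inter_subset_right (hU.trans (h.UD.trans DQ))) ?_
  intro x hx
  obtain ⟨D, hD, hxD⟩ := mem_biUnion.1 hx
  exact h.FQ (hF hD) hxD

omit [Fintype ι] in
theorem Zp_inter (h : Frm B Q T U F) (hU : U' ⊆ U) (hF : F' ⊆ F) :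
    T'.biUnion B ∩ Zp B Q T' U' F' = T'.biUnion B ∩ Q := by
  refine Subset.antisymm ?_ ?_
  · intro x hx
    obtain ⟨hx1, hx2⟩ := mem_inter.1 hx
    exact mem_inter.2 ⟨hx1, h.ZpQ hU hF hx2⟩
  · intro x hx
    exact mem_inter.2 ⟨(mem_inter.1 hx).1, mem_union_left _ (mem_union_left _ hx)⟩

omit [Fintype ι] in
theorem Zp_sdiff (h : Frm B Q T U F) (hT : T' ⊆ T) (hU : U' ⊆ U) (hF : F' ⊆ F) :
    Zp B Q T' U' F' \ ((T'.biUnion B ∩ Q) ∪ U') = F'.biUnion id := by
  ext x
  constructor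
  · intro hx
    obtain ⟨hx1, hx2⟩ := mem_sdiff.1 hx
    rcases mem_union.1 hx1 with hx1 | hx1
    · exact absurd hx1 hx2
    · exact hx1
  · intro hx
    refine mem_sdiff.2 ⟨mem_union_right _ hx, ?_⟩
    obtain ⟨D, hD, hxD⟩ := mem_biUnion.1 hx
    intro hx2
    rcases mem_union.1 hx2 with hx2 | hx2
    · have h3 := mem_sdiff.1 (h.FD (hF hD) hxD)
      exact h3.2 (biUnion_subset_biUnion_of_subset_left B hT (mem_inter.1 hx2).1)
    · exact disjoint_left.1 (h.ge.FU D (hF hD)) hxD (hU hx2)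

/-- the count applies to every part of the frame. -/
theorem cpd (h : Frm B Q T U F) (hr : Reg B Q) (hT : T' ⊆ T) (hU : U' ⊆ U) (hF : F' ⊆ F) :
    Cpd B (Zp B Q T' U' F') T' U' ((T'.biUnion B ∩ Q) ∪ U') := by
  have hZ : Zp B Q T' U' F' ⊆ Q := h.ZpQ hU hF
  have hin : ∀ i ∈ T', B i ∩ Zp B Q T' U' F' = B i ∩ Q := by
    intro i hi
    refine Subset.antisymm (inter_subset_inter_left hZ) fun x hx => ?_
    obtain ⟨hx1, hx2⟩ := mem_inter.1 hx
    exact mem_inter.2 ⟨hx1, mem_union_left _ (mem_union_left _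
      (mem_inter.2 ⟨mem_biUnion.2 ⟨i, hi, hx1⟩, hx2⟩))⟩
  refine ⟨hr.mono hZ, h.reg3.mono hZ, ⟨fun i hi => ?_, fun i hi j hj hne => ?_⟩, ?_, ?_, ?_⟩
  · rw [hin i hi]
    exact h.mtp.tpk.pack.card i (hT hi)
  · rw [hin i hi, hin j hj]
    exact h.mtp.tpk.pack.disj i (hT hi) j (hT hj) hne
  · exact subset_union_right.trans subset_union_left
  · rw [disjoint_left]
    intro x hx hx'
    exact (mem_sdiff.1 (h.UD (hU hx))).2 (biUnion_subset_biUnion_of_subset_left B hT hx')
  · rw [h.Zp_inter hU hF]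

/-- **the lower bound for a part of the frame.** -/
theorem five_Pp_ge (h : Frm B Q T U F) [DecidableEq ι] (hr : Reg B Q) (hT : T' ⊆ T) (hU : U' ⊆ U)
    (hF : F' ⊆ F) :
    55 * sv B (Zp B Q T' U' F') + 6 * hc B (Zp B Q T' U' F') - 13 * (T'.card : ℤ) +
      ∑ i ∈ ins B (Zp B Q T' U' F') ((T'.biUnion B ∩ Q) ∪ U') \ T',
        (2 - ((B i ∩ U').card : ℤ)) ≤ 5 * Pp B (Zp B Q T' U' F') := by
  refine (h.cpd hr hT hU hF).five_Pp_ge ?_ ?_
  · rw [h.Zp_sdiff hT hU hF]
    exact h.leaf_two hF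
  · rw [h.Zp_sdiff hT hU hF]
    exact fun i h1 h2 => h.leaf_U hF hU h1 h2

/-- the same with the free places. -/
theorem five_Pp_ge' (h : Frm B Q T U F) [DecidableEq ι] (hr : Reg B Q) (hT : T' ⊆ T) (hU : U' ⊆ U)
    (hF : F' ⊆ F) :
    55 * sv B (Zp B Q T' U' F') + 6 * fs B (Zp B Q T' U' F') (F'.biUnion id) -
      13 * (T'.card : ℤ) +
      ∑ i ∈ ins B (Zp B Q T' U' F') ((T'.biUnion B ∩ Q) ∪ U') \ T',
        (20 - 6 * ((B i ∩ Zp B Q T' U' F').card : ℤ) - ((B i ∩ U').card : ℤ)) ≤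
      5 * Pp B (Zp B Q T' U' F') := by
  have h1 := (h.cpd hr hT hU hF).five_Pp_ge'
    (by rw [h.Zp_sdiff hT hU hF]; exact h.leaf_two hF)
    (by rw [h.Zp_sdiff hT hU hF]; exact fun i h1 h2 => h.leaf_U hF hU h1 h2)
  rw [h.Zp_sdiff hT hU hF] at h1
  exact h1

end Sub

/-- the count applies to `Q` itself. -/
theorem cpdQ (h : Frm B Q T U F) (hr : Reg B Q) : Cpd B Q T U (Xp B Q T U) := by
  refine ⟨hr, h.reg3, h.mtp.tpk.pack, h.UD.trans DQ, ?_, rfl⟩
  rw [disjoint_left]
  intro x hx hx'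
  exact (mem_sdiff.1 (h.UD hx)).2 hx'

/-- **the count for `Q`**, exact, with the even part. -/
theorem five_PpQ (h : Frm B Q T U F) [DecidableEq ι] (hr : Reg B Q) :
    5 * Pp B Q = 55 * sv B Q + 6 * hc B Q - 13 * (T.card : ℤ) +
      ∑ i ∈ ins B Q (Xp B Q T U) \ T, (2 - ((B i ∩ U).card : ℤ)) +
      ((nt B (F.biUnion id) 1 : ℤ) - hit B U (F.biUnion id)) +
      ((nt B (Ep B Q T U F) 1 : ℤ) - nt B (Ep B Q T U F) 3 - hit B U (Ep B Q T U F)) := by
  rw [(h.cpdQ hr).five_Pp_eq, h.sdiff_X, nt_add h.sepE (le_refl 1), nt_add h.sepE (by norm_num),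
    hit_add U h.sepE, nt3_zero (h.leaf_two (Subset.refl F))]
  push_cast
  ring

/-- the hits of `U` on the leaves are counted by the single traces. -/
theorem hitU_leaf (h : Frm B Q T U F) {F' : Finset (Finset V)} (hF : F' ⊆ F) {U' : Finset V}
    (hU : U' ⊆ U) : hit B U' (F'.biUnion id) ≤ nt B (F'.biUnion id) 1 := by
  classical
  unfold hit nt
  have h3 : ∑ i ∈ tch B (F'.biUnion id), (B i ∩ U').card ≤
      ∑ i ∈ tch B (F'.biUnion id), if (B i ∩ F'.biUnion id).card = 1 then 1 else 0 := by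
    refine sum_le_sum fun i hi => ?_
    rcases (B i ∩ U').eq_empty_or_nonempty with h0 | h0
    · rw [h0, card_empty]
      exact Nat.zero_le _
    · obtain ⟨h4, h5⟩ := h.leaf_U hF hU (cost_mem_tch.1 hi) h0
      rw [h4, h5]
      simp
  refine h3.trans ?_
  rw [← card_filter]
  exact card_le_card fun i hi => mem_trs.2 (mem_filter.1 hi).2

/-- **the lower bound for `Q`** if there is no even part. -/
theorem five_PpQ_ge (h : Frm B Q T U F) [DecidableEq ι] (hr : Reg B Q) (hE : Ep B Q T U F = ∅) :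
    55 * sv B Q + 6 * hc B Q - 13 * (T.card : ℤ) +
      ∑ i ∈ ins B Q (Xp B Q T U) \ T, (2 - ((B i ∩ U).card : ℤ)) ≤ 5 * Pp B Q := by
  have h1 := h.five_PpQ hr
  have h2 := h.hitU_leaf (Subset.refl F) (Subset.refl U)
  have h3 : (hit B U (F.biUnion id) : ℤ) ≤ nt B (F.biUnion id) 1 := by exact_mod_cast h2
  rw [hE] at h1
  have h4 : nt B (∅ : Finset V) 1 = 0 := by
    unfold nt
    rw [card_eq_zero]
    ext i
    rw [mem_trs]
    simp
  have h5 : nt B (∅ : Finset V) 3 = 0 := nt3_zero (by simp)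
  have h6 : hit B U (∅ : Finset V) = 0 := by simp [hit, tch]
  rw [h4, h5, h6] at h1
  push_cast at h1
  linarith

end Frm

end Pool.Agent.Hyp6
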