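import Pool.Agent.Hyp6.L3Cnt
import Pool.Agent.Hyp6.L3Nc

/-!
# HYP6 L3CN2: the count for classes with parts of the even part

`cE B U D` is the contribution of a part `D` of the even part to the mixed count.
-/

set_option autoImplicit false

namespace Pool.Agent.Hyp6

open Finset Pool.Agent.Hyp5

universe u v

variable {V : Type v} [DecidableEq V] {ι : Type u} [Fintype ι] {B : ι → Finset V}

/-- the contribution of a part of the even part to the mixed count. -/
noncomputable def cE (B : ι → Finset V) (U D : Finset V) : ℤ :=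
  20 * ((nt B D 1 : ℤ) - nt B D 3 - hit B U D) + 5 * Pp B D

/-- the contribution of a part of the even part to the count. -/
def cE0 (B : ι → Finset V) (U D : Finset V) : ℤ := (nt B D 1 : ℤ) - nt B D 3 - hit B U D

/-- the hits of `U` are counted by the single traces. -/
theorem hitU_le_of {L U : Finset V} (h2 : ∀ i, (B i ∩ L).card ≤ 2)
    (hU : ∀ i, (B i ∩ L).Nonempty → (B i ∩ U).Nonempty →
      (B i ∩ L).card = 1 ∧ (B i ∩ U).card = 1) :
    (hit B U L : ℤ) ≤ (nt B L 1 : ℤ) - nt B L 3 := by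
  classical
  rw [nt3_zero h2]
  have h1 : hit B U L ≤ nt B L 1 := by
    unfold hit nt
    have h3 : ∑ i ∈ tch B L, (B i ∩ U).card ≤
        ∑ i ∈ tch B L, if (B i ∩ L).card = 1 then 1 else 0 := by
      refine sum_le_sum fun i hi => ?_
      rcases (B i ∩ U).eq_empty_or_nonempty with h0 | h0
      · rw [h0, card_empty]
        exact Nat.zero_le _
      · obtain ⟨h4, h5⟩ := hU i (cost_mem_tch.1 hi) h0
        rw [h4, h5]
        simp
    refine h3.trans ?_
    rw [← card_filter]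
    refine card_le_card fun i hi => ?_
    exact mem_trs.2 (mem_filter.1 hi).2
  have h4 : (hit B U L : ℤ) ≤ nt B L 1 := by exact_mod_cast h1
  push_cast
  linarith

/-- `Z \ X` is a part `L` with traces of size at most two and another part `D`. -/
structure LD (B : ι → Finset V) (Z U X L D : Finset V) : Prop where
  eq : Z \ X = L ∪ D
  dis : Disjoint L D
  sep : Sep B L D
  two : ∀ i, (B i ∩ L).card ≤ 2
  one : ∀ i, (B i ∩ L).Nonempty → (B i ∩ U).Nonempty → (B i ∩ L).card = 1 ∧ (B i ∩ U).card = 1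

namespace Cpd

variable {Z U X L D : Finset V} {T : Finset ι}

/-- the count with an even part. -/
theorem count_AE (h : Cpd B Z T U X) [DecidableEq ι] (hl : LD B Z U X L D) :
    55 * sv B Z + 6 * hc B Z - 13 * (T.card : ℤ) - utr B Z X T U + cE0 B U D ≤ 5 * Pp B Z := by
  have h1 := h.five_Pp_eq
  have h2 := h.sum_beta_ge
  have h3 := hitU_le_of hl.two hl.one
  rw [hl.eq, nt_add hl.sep (le_refl 1), nt_add hl.sep (by norm_num), hit_add U hl.sep] at h1
  push_cast at h1
  unfold cE0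
  linarith

/-- the potential of `Z` if the inner triples belong to an optimal cover. -/
theorem count_BE (h : Cpd B Z T U X) [DecidableEq ι] (hl : LD B Z U X L D)
    (hr : (rho B Z : ℤ) = rho B (Z \ X) + T.card) (hc : Cov B Z) (hp : 0 ≤ Pp B L) :
    4 * (U.card : ℤ) - 6 * (T.card : ℤ) + 4 * (utr B Z X T U : ℤ) + Pp B D ≤ Pp B Z := by
  have h1 := Pp_sdiff (B := B) h.XZ
  have h2 := h.card_X
  have h3 : (ins B Z X).card = T.card + (ins B Z X \ T).card := by
    have := card_sdiff_add_card_eq_card h.T_sub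
    omega
  have h4 : utr B Z X T U ≤ (ins B Z X \ T).card := card_filter_le _ _
  have h5 : (utr B Z X T U : ℤ) ≤ (ins B Z X \ T).card := by exact_mod_cast h4
  have hL : L ⊆ Z := (subset_union_left.trans hl.eq.symm.subset).trans sdiff_subset
  have hD : D ⊆ Z := (subset_union_right.trans hl.eq.symm.subset).trans sdiff_subset
  have h6 : Pp B (Z \ X) = Pp B L + Pp B D := by
    rw [hl.eq]
    exact Pp_add (hc.mono hL) (hc.mono hD) hl.dis hl.sep
  rw [h1, hr, h2, h3, h6]
  push_cast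
  linarith

/-- **the mixed count with an even part**. -/
theorem count_CE (h : Cpd B Z T U X) [DecidableEq ι] (hl : LD B Z U X L D)
    (hr : (rho B Z : ℤ) = rho B (Z \ X) + T.card) (hc' : Cov B Z) (hp : 0 ≤ Pp B L) :
    1100 * sv B Z + 120 * hc B Z - 290 * (T.card : ℤ) + 20 * (U.card : ℤ) + cE B U D ≤
      105 * Pp B Z := by
  have h3 := h.count_AE hl
  have h4 := h.count_BE hl hr hc' hp
  unfold cE0 at h3
  unfold cE
  linarith

end Cpd

namespace Frm

variable {Q U : Finset V} {T : Finset ι} {F : Finset (Finset V)} {T' : Finset ι}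
  {U' D : Finset V} {A : Finset (Finset V)}

omit [Fintype ι] in
theorem Zn_eq : Zn B Q T' U' A D = Zp B Q T' U' A ∪ D := rfl

omit [Fintype ι] in
theorem Zn_sdiff (h : Frm B Q T U F) (hT : T' ⊆ T) (hU : U' ⊆ U) (hA : A ⊆ F)
    (hD : D ⊆ Ep B Q T U F) :
    Zn B Q T' U' A D \ ((T'.biUnion B ∩ Q) ∪ U') = A.biUnion id ∪ D := by
  rw [Zn_eq, union_sdiff_distrib, h.Zp_sdiff hT hU hA]
  congr 1
  rw [Finset.sdiff_eq_self_iff_disjoint, disjoint_left]
  intro v hv hv'
  have h1 := mem_sdiff.1 (mem_sdiff.1 (hD hv)).1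
  rcases mem_union.1 hv' with h2 | h2
  · exact (mem_sdiff.1 h1.1).2 (biUnion_subset_biUnion_of_subset_left B hT (mem_inter.1 h2).1)
  · exact h1.2 (hU h2)

/-- the count applies to every piece of the frame. -/
theorem cpdE (h : Frm B Q T U F) (hr : Reg B Q) (hT : T' ⊆ T) (hU : U' ⊆ U) (hA : A ⊆ F)
    (hD : D ⊆ Ep B Q T U F) :
    Cpd B (Zn B Q T' U' A D) T' U' ((T'.biUnion B ∩ Q) ∪ U') := by
  have hZ : Zn B Q T' U' A D ⊆ Q := h.Zn_sub hA (hU.trans (h.UD.trans DQ)) hD
  have hin : ∀ i ∈ T', B i ∩ Zn B Q T' U' A D = B i ∩ Q := by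
    intro i hi
    refine Subset.antisymm (inter_subset_inter_left hZ) fun x hx => ?_
    obtain ⟨hx1, hx2⟩ := mem_inter.1 hx
    exact mem_inter.2 ⟨hx1, mem_union_left _ (mem_union_left _ (mem_union_left _
      (mem_inter.2 ⟨mem_biUnion.2 ⟨i, hi, hx1⟩, hx2⟩)))⟩
  refine ⟨hr.mono hZ, h.reg3.mono hZ, ⟨fun i hi => ?_, fun i hi j hj hne => ?_⟩, ?_, ?_, ?_⟩
  · rw [hin i hi]
    exact h.mtp.tpk.pack.card i (hT hi)
  · rw [hin i hi, hin j hj]
    exact h.mtp.tpk.pack.disj i (hT hi) j (hT hj) hne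
  · exact (subset_union_right.trans subset_union_left).trans subset_union_left
  · rw [disjoint_left]
    intro x hx hx'
    exact (mem_sdiff.1 (h.UD (hU hx))).2 (biUnion_subset_biUnion_of_subset_left B hT hx')
  · congr 1
    refine Subset.antisymm ?_ (inter_subset_inter_left hZ)
    intro x hx
    obtain ⟨hx1, hx2⟩ := mem_inter.1 hx
    exact mem_inter.2 ⟨hx1, mem_union_left _ (mem_union_left _ (mem_union_left _ hx))⟩

/-- the two parts of a piece of the frame. -/
theorem ldE (h : Frm B Q T U F) (hT : T' ⊆ T) (hU : U' ⊆ U) (hA : A ⊆ F)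
    (hD : D ⊆ Ep B Q T U F) :
    LD B (Zn B Q T' U' A D) U' ((T'.biUnion B ∩ Q) ∪ U') (A.biUnion id) D := by
  have hs : A.biUnion id ⊆ F.biUnion id := biUnion_subset_biUnion_of_subset_left id hA
  exact ⟨h.Zn_sdiff hT hU hA hD, disjoint_of_subset_left hs (disjoint_of_subset_right hD disE),
    h.sepE.mono hs hD, h.leaf_two hA, fun i h1 h2 => h.leaf_U hA hU h1 h2⟩

/-- **the mixed count for a piece of the frame.** -/
theorem count_Zn (h : Frm B Q T U F) [DecidableEq ι] (hr : Reg B Q) (hT : T' ⊆ T) (hU : U' ⊆ U)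
    (hA : A ⊆ F) (hD : D ⊆ Ep B Q T U F)
    (hrho : rho B (Zn B Q T' U' A D) = ∑ C ∈ A, rho B C + rho B D + T'.card)
    (hp : ∀ C ∈ A, 0 ≤ Pp B C) :
    1100 * sv B (Zn B Q T' U' A D) + 120 * hc B (Zn B Q T' U' A D) - 290 * (T'.card : ℤ) +
      20 * (U'.card : ℤ) + cE B U' D ≤ 105 * Pp B (Zn B Q T' U' A D) := by
  have hl := h.ldE (T' := T') (D := D) hT hU hA hD
  have hcA : ∀ C ∈ A, Cov B C := fun C hC => h.covF C (hA hC)
  refine (h.cpdE hr hT hU hA hD).count_CE hl ?_ ?_ ?_
  · rw [hl.eq, rho_add (cov_biUnion hcA) (h.covE.mono hD) hl.sep,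
      rho_biUnion hcA (h.sepF.mono hA), hrho]
    push_cast
    ring
  · exact h.cov.mono (h.Zn_sub hA (hU.trans (h.UD.trans DQ)) hD)
  · rw [h.Pp_leaves hA]
    exact sum_nonneg hp

end Frm

end Pool.Agent.Hyp6
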