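import Pool.Agent.Hyp6.JCE

/-!
# HYP6 L3Cu: closing of dependent cells with one artificial point

The cells of `τ` are closed at `W`; every set of cells which does not contain the circuit `C` is refused
jointly. One more point is put into five of the pair blocks of the circuit. The closed set has cover
number at least `rho W + |τ|`, so the circuit costs only four.
-/

set_option autoImplicit false

namespace Pool.Agent.Hyp6

open Finset Pool.Agent.Hyp5

universe u v

variable {V : Type v} [DecidableEq V] {ι : Type u} [Fintype ι] {B : ι → Finset V}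

theorem filter_le_inst {α : Type*} {s : Finset α} {p : α → Prop} {inst : DecidablePred p} :
    (@Finset.filter α p inst s).card ≤ s.card := @card_filter_le α s p inst

theorem filter_zero_inst {α : Type*} {s : Finset α} {p : α → Prop} {inst : DecidablePred p}
    (h : ∀ y ∈ s, ¬ p y) : (@Finset.filter α p inst s).card = 0 := by
  rw [card_eq_zero]
  exact Finset.filter_false_of_mem h

open Classical in
/-- the data of a family of cells, without costs. -/
structure Cells0 (B : ι → Finset V) (Q W Y : Finset V) (J : V → Finset V) (E : V → Finset ι)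
    {τ : Type u} (c : V → τ) (m : τ → ℕ) : Prop where
  WQ : W ⊆ Q
  dis : Disjoint W Y
  JQ : ∀ y ∈ Y, J y ⊆ Q \ W
  Jd : ∀ y ∈ Y, ∀ z ∈ Y, y ≠ z → Disjoint (J y) (J z)
  EJ : ∀ y ∈ Y, E y ⊆ cxs B W (J y)
  E5 : ∀ y ∈ Y, (E y).card ≤ 5
  Ene : ∀ y ∈ Y, (E y).Nonempty
  mle : ∀ y ∈ Y, m (c y) ≤ (E y).card
  mex : ∀ t, ∃ y ∈ Y, c y = t ∧ (E y).card = m t
  size : ∀ t, (cellS Y c t).card ≤ 3

section

variable {Q W Y : Finset V} {J : V → Finset V} {E : V → Finset ι} {τ : Type u} {c : V → τ}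
  {m : τ → ℕ}

theorem Cells0.abs [Fintype τ] (h : Cells0 B Q W Y J E c m) (h3 : Tr3 B Q) :
    AbsData B W Y E (cellN Y c E m) := by
  classical
  refine ⟨h.dis, ?_, h.Ene, ?_, ?_, ?_, ?_, ?_⟩
  · intro y hy i hi
    exact (mem_cxs.1 (h.EJ y hy hi)).1
  · intro p y hy
    exact (mem_cellN.1 hy).1
  · rintro ⟨t, j⟩
    obtain ⟨y, hy, hyt, hym⟩ := h.mex t
    refine ⟨y, mem_cellN.2 ⟨hy, hyt, ?_⟩⟩
    have := j.2
    simp only
    omega
  · intro y hy
    have h5 := h.E5 y hy
    have hm := h.mle y hy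
    have h1 : (univ.filter (fun p => y ∈ cellN Y c E m p)).card = 5 - (E y).card := by
      rw [← Finset.card_range (5 - (E y).card)]
      symm
      refine Finset.card_bij (fun (j : ℕ) hj => (⟨c y, ⟨j, ?_⟩⟩ : Σ t : τ, Fin (5 - m t))) ?_ ?_ ?_
      · rw [mem_range] at hj
        omega
      · intro j hj
        rw [mem_range] at hj
        rw [mem_filter]
        refine ⟨mem_univ _, mem_cellN.2 ⟨hy, rfl, ?_⟩⟩
        simp only
        omega
      · intro j hj j' hj' he
        simpa using he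
      · rintro ⟨t, j⟩ hp
        rw [mem_filter, mem_cellN] at hp
        obtain ⟨_, _, hct, hlt⟩ := hp
        simp only at hct hlt
        subst hct
        refine ⟨j, mem_range.2 (by omega), rfl⟩
    omega
  · intro i
    have h1 : (Y.filter (fun y => i ∈ E y)).card ≤ (B i ∩ (Q \ W)).card := by
      have hex : ∀ y ∈ Y.filter (fun y => i ∈ E y), ∃ p, p ∈ B i ∧ p ∈ J y := by
        intro y hy
        rw [mem_filter] at hy
        obtain ⟨_, p, hp⟩ := mem_cxs.1 (h.EJ y hy.1 hy.2)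
        rw [mem_inter] at hp
        exact ⟨p, hp⟩
      choose! g hg1 hg2 using hex
      refine Finset.card_le_card_of_injOn g ?_ ?_
      · intro y hy
        have hy' := mem_filter.1 hy
        exact mem_inter.2 ⟨hg1 y hy, h.JQ y hy'.1 (hg2 y hy)⟩
      · intro y hy z hz he
        by_contra hne
        exact disjoint_left.1 (h.Jd y (mem_filter.1 hy).1 z (mem_filter.1 hz).1 hne) (hg2 y hy)
          (he ▸ hg2 z hz)
    have h2 : (B i ∩ W).card + (B i ∩ (Q \ W)).card ≤ 3 := by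
      rw [← card_union_of_disjoint]
      · refine (card_le_card ?_).trans (h3 i)
        intro v hv
        rcases mem_union.1 hv with hv | hv
        · exact mem_inter.2 ⟨(mem_inter.1 hv).1, h.WQ (mem_inter.1 hv).2⟩
        · exact mem_inter.2 ⟨(mem_inter.1 hv).1, (mem_sdiff.1 (mem_inter.1 hv).2).1⟩
      · rw [disjoint_left]
        intro v hv hv'
        exact (mem_sdiff.1 (mem_inter.1 hv').2).2 (mem_inter.1 hv).2
    have h4 : (Y.filter (fun y => i ∈ E y)).card = (filter (fun y => i ∈ E y) Y).card := rfl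
    exact (Nat.add_le_add_left h1 _).trans h2
  · rintro ⟨t, j⟩
    refine (card_le_card fun y hy => ?_).trans (h.size t)
    rw [mem_cellN] at hy
    exact mem_cellS.2 ⟨hy.1, hy.2.1⟩

open Classical in
/-- the cover exchange: `I` = the cells without a used new block. -/
theorem Cells0.cover [Fintype τ] (h : Cells0 B Q W Y J E c m) {T : Finset ι}
    {K : Finset (Σ t : τ, Fin (5 - m t))} (hT : W ⊆ T.biUnion B)
    (hK : ∀ y ∈ Y, (∃ i ∈ T, i ∈ E y) ∨ ∃ p ∈ K, y ∈ cellN Y c E m p)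
    (hcost : ∀ (I : Finset τ) (f : V → V), (∀ t ∈ I, ∀ p ∈ K, p.1 ≠ t) →
      (∀ y ∈ Y, c y ∈ I → f y ∈ J y) →
      rho B W + I.card ≤ rho B (W ∪ (Y.filter (fun y => c y ∈ I)).image f)) :
    rho B W + Fintype.card τ ≤ T.card + K.card := by
  classical
  set I : Finset τ := univ.filter (fun t => ∀ p ∈ K, p.1 ≠ t) with hI
  have hIK : ∀ t ∈ I, ∀ p ∈ K, p.1 ≠ t := fun t ht => (mem_filter.1 ht).2
  have h1 : Fintype.card τ ≤ I.card + K.card := by
    have h2 : (univ.filter (fun t : τ => ¬ ∀ p ∈ K, p.1 ≠ t)).card ≤ K.card := by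
      refine (card_le_card ?_).trans (card_image_le (s := K) (f := fun p => p.1))
      intro t ht
      rw [mem_filter] at ht
      obtain ⟨_, ht⟩ := ht
      push Not at ht
      obtain ⟨p, hp, hpt⟩ := ht
      exact mem_image.2 ⟨p, hp, hpt⟩
    have h3 : I.card + (univ.filter (fun t : τ => ¬ ∀ p ∈ K, p.1 ≠ t)).card =
        Fintype.card τ := by
      rw [hI, ← card_univ]
      exact Finset.card_filter_add_card_filter_not _
    omega
  have hex : ∀ y ∈ Y, c y ∈ I → ∃ q, q ∈ J y ∧ ∃ i ∈ T, q ∈ B i := by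
    intro y hy hcy
    rcases hK y hy with ⟨i, hi, hiE⟩ | ⟨p, hp, hyp⟩
    · obtain ⟨_, q, hq⟩ := mem_cxs.1 (h.EJ y hy hiE)
      rw [mem_inter] at hq
      exact ⟨q, hq.2, i, hi, hq.1⟩
    · rw [mem_cellN] at hyp
      exact absurd hyp.2.1.symm (hIK _ hcy p hp)
  by_cases hV : Nonempty V
  · choose! f hf1 hf2 using hex
    have h4 := hcost I f hIK hf1
    have h5 : W ∪ (Y.filter (fun y => c y ∈ I)).image f ⊆ T.biUnion B := by
      intro v hv
      rcases mem_union.1 hv with hv | hv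
      · exact hT hv
      · obtain ⟨y, hy, rfl⟩ := mem_image.1 hv
        rw [mem_filter] at hy
        obtain ⟨i, hi, hvi⟩ := hf2 y hy.1 hy.2
        exact mem_biUnion.2 ⟨i, hi, hvi⟩
    have h6 := rho_le h5
    omega
  · have h4 := hcost I id hIK (fun y _ _ => absurd ⟨y⟩ hV)
    have h5 : W ∪ (Y.filter (fun y => c y ∈ I)).image id ⊆ T.biUnion B :=
      fun v _ => absurd ⟨v⟩ hV
    have h6 := rho_le h5
    omega

/-- a block with a trace in a new point meets `Q` in at least two points. -/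
theorem Cells0.two_le (h : Cells0 B Q W Y J E c m) {y : V} (hy : y ∈ Y) {i : ι} (hi : i ∈ E y) :
    2 ≤ (B i ∩ Q).card := by
  obtain ⟨⟨a, ha⟩, b, hb⟩ := mem_cxs.1 (h.EJ y hy hi)
  rw [mem_inter] at ha hb
  have hbQ := mem_sdiff.1 (h.JQ y hy hb.2)
  have h1 : ({a, b} : Finset V) ⊆ B i ∩ Q := by
    intro v hv
    simp only [mem_insert, mem_singleton] at hv
    rcases hv with rfl | rfl
    · exact mem_inter.2 ⟨ha.1, h.WQ ha.2⟩
    · exact mem_inter.2 ⟨hb.1, hbQ.1⟩
  rw [← card_pair (a := a) (b := b)]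
  · exact card_le_card h1
  · rintro rfl
    exact hbQ.2 ha.2

/-- two new blocks which only contain `y`. -/
theorem Cells0.two_single [Fintype τ] (h : Cells0 B Q W Y J E c m) {y : V} (hy : y ∈ Y)
    (h3 : (E y).card ≤ 3)
    (hoth : ∀ z ∈ Y, c z = c y → z ≠ y → (E y).card + 2 ≤ (E z).card) :
    2 ≤ (univ.filter (fun p => cellN Y c E m p = {y})).card := by
  classical
  have hm := h.mle y hy
  have key : ∀ j : ℕ, ∀ hj : j < 5 - m (c y), 3 - (E y).card ≤ j → j < 5 - (E y).card →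
      cellN Y c E m ⟨c y, ⟨j, hj⟩⟩ = {y} := by
    intro j hj h1 h2
    ext z
    rw [mem_cellN, mem_singleton]
    constructor
    · rintro ⟨hz, hcz, hlt⟩
      by_contra hne
      have := hoth z hz hcz hne
      simp only at hlt
      omega
    · rintro rfl
      refine ⟨hy, rfl, ?_⟩
      simp only
      omega
  have hlt3 : 3 - (E y).card < 5 - m (c y) := by omega
  have hlt4 : 4 - (E y).card < 5 - m (c y) := by omega
  have k1 := key (3 - (E y).card) hlt3 le_rfl (by omega)
  have k2 := key (4 - (E y).card) hlt4 (by omega) (by omega)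
  have hne : (⟨c y, ⟨3 - (E y).card, hlt3⟩⟩ : Σ t : τ, Fin (5 - m t)) ≠
      ⟨c y, ⟨4 - (E y).card, hlt4⟩⟩ := by
    intro he
    simp at he
    omega
  rw [← card_pair hne]
  refine card_le_card fun p hp => ?_
  rw [mem_insert, mem_singleton] at hp
  rw [mem_filter]
  rcases hp with rfl | rfl
  · exact ⟨mem_univ _, k1⟩
  · exact ⟨mem_univ _, k2⟩

open Classical in
/-- **closing with an artificial point**: `S` is a set of five new blocks with two points; covers using a
block of `S` cost at least `|τ|`. -/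
theorem Cells0.close [Fintype τ] (h : Cells0 B Q W Y J E c m) {n : ℕ} (ih : IHE.{u} V n)
    (hr : Reg B Q) (h3 : Tr3 B Q) (hW : Conn (gr B) W) {w : V} (hwW : w ∉ W) (hwY : w ∉ Y)
    (hn : W.card + Y.card + 1 < n) (h6 : 6 < W.card + Y.card + 1)
    {S : Finset (Σ t : τ, Fin (5 - m t))} (hS5 : S.card = 5)
    (hS2 : ∀ p ∈ S, (cellN Y c E m p).card = 2)
    (hcost : ∀ (K : Finset (Σ t : τ, Fin (5 - m t))), (∃ p ∈ K, p ∈ S) →
      ∀ (I : Finset τ) (f : V → V), (∀ t ∈ I, ∀ p ∈ K, p.1 ≠ t) →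
      (∀ y ∈ Y, c y ∈ I → f y ∈ J y) →
      rho B W + I.card ≤ rho B (W ∪ (Y.filter (fun y => c y ∈ I)).image f))
    {Y2 : Finset V} (hY2 : Y2 ⊆ Y) (h4 : ∀ y ∈ Y2, (E y).card ≤ 3)
    (hoth : ∀ y ∈ Y2, ∀ z ∈ Y, c z = c y → z ≠ y → (E y).card + 2 ≤ (E z).card)
    (hs : sv B W + Y.card + 1 ≤ 2 * Fintype.card τ) :
    2 * (ee B Q W : ℤ) + 2 * (Y2.card : ℤ) + 22 * (Fintype.card τ : ℤ) ≤
      Pp B W + 4 * (Y.card : ℤ) + 4 + 4 * (Fintype.card (Σ t : τ, Fin (5 - m t)) : ℤ) := by
  classical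
  have ha := h.abs h3
  have hrW := hr.mono h.WQ
  have hreg := ha.reg hrW
  have hconn := ha.conn hW
  set B' := absG B W Y E (cellN Y c E m) with hB'
  set W' := W ∪ Y with hW'
  have hwW' : w ∉ W' := by
    rw [hW', mem_union]
    rintro (h1 | h1)
    · exact hwW h1
    · exact hwY h1
  have ht3 : Tr3 B' W' := fun k => (card_le_card inter_subset_left).trans (ha.small k)
  -- the second system
  set S' : Finset (ι ⊕ (Σ t : τ, Fin (5 - m t))) := S.map Function.Embedding.inr with hS'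
  have hS'c : S'.card = 5 := by rw [hS', card_map, hS5]
  have hmem : ∀ k ∈ S', ∃ p ∈ S, k = Sum.inr p := by
    intro k hk
    rw [hS', mem_map] at hk
    obtain ⟨p, hp, rfl⟩ := hk
    exact ⟨p, hp, rfl⟩
  have hin : ∀ p, B' (Sum.inr p) ∩ W' = cellN Y c E m p := by
    intro p
    rw [hB', hW', ha.inter_self]
    ext v
    rw [mem_absG_inr]
  have hcN : ∀ p, (cellN Y c E m p).card ≤ 3 := ha.sizeN
  have hd2 : AbsData B' W' {w} (fun _ => S') (fun _ : Fin 0 => (∅ : Finset V)) := by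
    refine ⟨disjoint_singleton_right.2 hwW', ?_, ?_, fun k => k.elim0, fun k => k.elim0, ?_, ?_,
      fun k => k.elim0⟩
    · intro y _ k hk
      obtain ⟨p, hp, rfl⟩ := hmem k hk
      rw [hin, ← card_pos, hS2 p hp]
      norm_num
    · intro y _
      rw [← card_pos, hS'c]
      norm_num
    · intro y _
      rw [hS'c]
      simp
    · intro k
      by_cases hk : k ∈ S'
      · obtain ⟨p, hp, rfl⟩ := hmem k hk
        rw [hin, hS2 p hp]
        refine (Nat.add_le_add_left filter_le_inst _).trans ?_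
        rw [card_singleton]
      · exact (Nat.add_le_add_left (m := 0) (le_of_eq (filter_zero_inst fun y _ => hk)) _).trans
          (ht3 k)
  have hreg2 := hd2.reg hreg
  have hconn2 := hd2.conn hconn
  set B2 := absG B' W' {w} (fun _ => S') (fun _ : Fin 0 => (∅ : Finset V)) with hB2
  have hc2 : (W' ∪ {w}).card = W.card + Y.card + 1 := by
    rw [card_union_of_disjoint hd2.dis, card_singleton, hW', card_union_of_disjoint ha.dis]
  have hKT : ¬ KT B2 (W' ∪ {w}) := by
    intro hK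
    have h5 := hK.1
    rw [hc2] at h5
    omega
  -- cover number
  have hrho : rho B W + Fintype.card τ ≤ rho B2 (W' ∪ {w}) := by
    refine hd2.rho_ge (cov_of_reg hreg2) fun T K hT hK => ?_
    set TT : Finset ι := univ.filter (fun i => Sum.inl i ∈ T) with hTT
    set KK : Finset (Σ t : τ, Fin (5 - m t)) := univ.filter (fun p => Sum.inr p ∈ T) with hKK
    have hcard : T.card = TT.card + KK.card := by
      rw [hTT, hKK, ← card_filter_sum (fun k => k ∈ T)]
      congr 1
      ext k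
      simp
    have hKKS : ∃ p ∈ KK, p ∈ S := by
      rcases hK w (mem_singleton_self w) with ⟨k, hk, hkS⟩ | ⟨k, _⟩
      · obtain ⟨p, hp, rfl⟩ := hmem k hkS
        exact ⟨p, mem_filter.2 ⟨mem_univ _, hk⟩, hp⟩
      · exact k.elim0
    have h7 := h.cover (T := TT) (K := KK) ?_ ?_ (hcost KK hKKS)
    · omega
    · intro v hv
      obtain ⟨k, hk, hvk⟩ := mem_biUnion.1 (hT (mem_union_left _ hv))
      obtain ⟨i, rfl, hi⟩ := (ha.mem_C hv).1 hvk
      exact mem_biUnion.2 ⟨i, mem_filter.2 ⟨mem_univ _, hk⟩, hi⟩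
    · intro y hy
      obtain ⟨k, hk, hyk⟩ := mem_biUnion.1 (hT (mem_union_right _ hy))
      rcases (ha.mem_Y hy).1 hyk with ⟨i, hi, rfl⟩ | ⟨p, rfl, hp⟩
      · exact Or.inl ⟨i, mem_filter.2 ⟨mem_univ _, hk⟩, hi⟩
      · exact Or.inr ⟨p, mem_filter.2 ⟨mem_univ _, hk⟩, hp⟩
  -- induction hypothesis
  have ht32 : Tr3 B2 (W' ∪ {w}) := fun k =>
    (card_le_card inter_subset_left).trans (hd2.small k)
  have hsv2 : sv B2 (W' ∪ {w}) ≤ 0 := by
    unfold sv at hs ⊢
    rw [hc2]
    have h8 : (rho B W : ℤ) + Fintype.card τ ≤ rho B2 (W' ∪ {w}) := by exact_mod_cast hrho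
    push_cast
    linarith
  have hPp := IHE.Pp ih (B := B2) (Q := W' ∪ {w}) (by rw [hc2]; exact hn) hreg2 ht32 hconn2 hKT
    hsv2
  -- the counts
  have hee1 := ha.ee_ge h.WQ (fun y hy i hi => h.two_le hy hi) hY2
    (fun y hy => h.two_single (hY2 hy) (h4 y hy) (hoth y hy))
  have hee2 := hd2.ee_ge (Q := W') (Subset.refl _) (fun y _ k hk => by
      obtain ⟨p, hp, rfl⟩ := hmem k hk
      rw [hin, hS2 p hp]) (Y2 := ∅) (empty_subset _) (fun y hy => absurd hy (notMem_empty y))
  rw [card_empty, Nat.add_zero] at hee2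
  have hcm1 := ha.cm
  have hcm2 := hd2.cm
  rw [Fintype.card_fin, Nat.add_zero] at hcm2
  rw [Hyp6.Pp_eq] at hPp
  rw [Hyp6.Pp_eq (B := B) W]
  rw [← hB2] at hcm2 hee2
  rw [← hB', ← hW'] at hcm1 hee1
  rw [hcm2, hcm1, hc2] at hPp
  have h8 : (rho B W : ℤ) + Fintype.card τ ≤ rho B2 (W' ∪ {w}) := by exact_mod_cast hrho
  have h9 : (ee B Q W : ℤ) + Y2.card ≤ ee B2 (W' ∪ {w}) (W' ∪ {w}) := by
    exact_mod_cast hee1.trans hee2
  push_cast at hPp
  linarith

end

/-- the data of the closing of dependent pairs of groups: sets of cells which do not contain `C` are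
refused jointly. -/
structure PairU (B : ι → Finset V) (Q W : Finset V) {τ : Type u} (J1 J2 : τ → Finset V)
    (E1 E2 : τ → Finset ι) (C : Finset τ) : Prop where
  WQ : W ⊆ Q
  J1Q : ∀ t, J1 t ⊆ Q \ W
  J2Q : ∀ t, J2 t ⊆ Q \ W
  J12 : ∀ t, Disjoint (J1 t) (J2 t)
  Jd : ∀ s t, s ≠ t → Disjoint (J1 s ∪ J2 s) (J1 t ∪ J2 t)
  E1J : ∀ t, E1 t ⊆ cxs B W (J1 t)
  E2J : ∀ t, E2 t ⊆ cxs B W (J2 t)
  E2ne : ∀ t, (E2 t).Nonempty
  le : ∀ t, (E2 t).card ≤ (E1 t).card
  le4 : ∀ t, (E2 t).card ≤ 4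
  le5 : ∀ t, (E1 t).card ≤ 5
  slots : 5 ≤ ∑ t ∈ C, (5 - (E1 t).card)
  cost : ∀ (I : Finset τ) (f g : τ → V), ¬ C ⊆ I → (∀ t ∈ I, f t ∈ J1 t ∧ g t ∈ J2 t) →
    rho B W + I.card ≤ rho B (W ∪ (I.image f ∪ I.image g))

open Classical in
/-- **closing of a star with one circuit.** -/
theorem PairU.main {Q W : Finset V} {τ : Type u} [Fintype τ] {J1 J2 : τ → Finset V}
    {E1 E2 : τ → Finset ι} {C : Finset τ} (h : PairU B Q W J1 J2 E1 E2 C)
    (ih : IHE.{u} V Q.card) (hn : W.card + 2 * Fintype.card τ + 1 < Q.card)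
    (hq : 3 ≤ Fintype.card τ) (hr : Reg B Q) (h3 : Tr3 B Q) (hW : Conn (gr B) W)
    (hsv : sv B W + 1 ≤ 0) :
    2 * (ee B Q W : ℤ) + ∑ t : τ, (4 * ((E2 t).card : ℤ) - 6 +
        if (E2 t).card + 2 ≤ (E1 t).card then 2 else 0) ≤ Pp B W + 4 := by
  have hτ : Nonempty τ := Fintype.card_pos_iff.1 (by omega)
  -- representatives
  have hx : ∀ t, ∃ v, v ∈ J1 t := by
    intro t
    have h1 : 0 < (E1 t).card := lt_of_lt_of_le (card_pos.2 (h.E2ne t)) (h.le t)
    obtain ⟨i, hi⟩ := card_pos.1 h1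
    obtain ⟨_, v, hv⟩ := mem_cxs.1 (h.E1J t hi)
    exact ⟨v, (mem_inter.1 hv).2⟩
  have hy : ∀ t, ∃ v, v ∈ J2 t := by
    intro t
    obtain ⟨i, hi⟩ := h.E2ne t
    obtain ⟨_, v, hv⟩ := mem_cxs.1 (h.E2J t hi)
    exact ⟨v, (mem_inter.1 hv).2⟩
  choose x hx using hx
  choose y hy using hy
  have huni : ∀ s t v, v ∈ J1 s ∪ J2 s → v ∈ J1 t ∪ J2 t → s = t := by
    intro s t v h1 h2
    by_contra hne
    exact disjoint_left.1 (h.Jd s t hne) h1 h2
  obtain ⟨c, hc⟩ : ∃ c : V → τ, ∀ t v, v ∈ J1 t ∪ J2 t → c v = t := by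
    refine ⟨fun v => if hv : ∃ t, v ∈ J1 t ∪ J2 t then hv.choose else hτ.some, fun t v hv => ?_⟩
    have hex : ∃ t, v ∈ J1 t ∪ J2 t := ⟨t, hv⟩
    simp only [hex, dif_pos]
    exact huni _ _ v hex.choose_spec hv
  have hcx : ∀ t, c (x t) = t := fun t => hc t _ (mem_union_left _ (hx t))
  have hcy : ∀ t, c (y t) = t := fun t => hc t _ (mem_union_right _ (hy t))
  have hyn : ∀ t, y t ∉ J1 t := fun t h1 => disjoint_left.1 (h.J12 t) h1 (hy t)
  have hxy : ∀ t, x t ≠ y t := fun t he => hyn t (he ▸ hx t)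
  set Y : Finset V := univ.image x ∪ univ.image y with hYdef
  set J : V → Finset V := fun v => if v ∈ J1 (c v) then J1 (c v) else J2 (c v) with hJdef
  set E : V → Finset ι := fun v => if v ∈ J1 (c v) then E1 (c v) else E2 (c v) with hEdef
  have hJx : ∀ t, J (x t) = J1 t := by
    intro t
    simp only [hJdef, hcx, hx, if_true]
  have hJy : ∀ t, J (y t) = J2 t := by
    intro t
    simp only [hJdef, hcy, hyn, if_false]
  have hEx : ∀ t, E (x t) = E1 t := by
    intro t
    simp only [hEdef, hcx, hx, if_true]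
  have hEy : ∀ t, E (y t) = E2 t := by
    intro t
    simp only [hEdef, hcy, hyn, if_false]
  have hYm : ∀ v, v ∈ Y ↔ (∃ t, x t = v) ∨ ∃ t, y t = v := by
    intro v
    simp only [hYdef, mem_union, mem_image, mem_univ, true_and]
  have hS : ∀ t, cellS Y c t = {x t, y t} := by
    intro t
    ext v
    rw [mem_cellS, hYm, mem_insert, mem_singleton]
    constructor
    · rintro ⟨⟨s, rfl⟩ | ⟨s, rfl⟩, hs⟩
      · rw [hcx] at hs
        exact Or.inl (hs ▸ rfl)
      · rw [hcy] at hs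
        exact Or.inr (hs ▸ rfl)
    · rintro (rfl | rfl)
      · exact ⟨Or.inl ⟨t, rfl⟩, hcx t⟩
      · exact ⟨Or.inr ⟨t, rfl⟩, hcy t⟩
  have hSc : ∀ t, (cellS Y c t).card = 2 := fun t => by rw [hS, card_pair (hxy t)]
  have hxW : ∀ t, x t ∉ W := fun t => (mem_sdiff.1 (h.J1Q t (hx t))).2
  have hyW : ∀ t, y t ∉ W := fun t => (mem_sdiff.1 (h.J2Q t (hy t))).2
  have hcells : Cells0 B Q W Y J E c (fun t => (E2 t).card) := by
    refine ⟨h.WQ, ?_, ?_, ?_, ?_, ?_, ?_, ?_, ?_, ?_⟩
    · rw [disjoint_left]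
      intro v hv hvY
      rcases (hYm v).1 hvY with ⟨t, rfl⟩ | ⟨t, rfl⟩
      · exact hxW t hv
      · exact hyW t hv
    · intro v hv
      rcases (hYm v).1 hv with ⟨t, rfl⟩ | ⟨t, rfl⟩
      · rw [hJx]; exact h.J1Q t
      · rw [hJy]; exact h.J2Q t
    · intro v hv w hw hne
      rcases (hYm v).1 hv with ⟨t, rfl⟩ | ⟨t, rfl⟩ <;> rcases (hYm w).1 hw with ⟨s, rfl⟩ | ⟨s, rfl⟩
      · rw [hJx, hJx]
        have hts : t ≠ s := fun he => hne (by rw [he])
        exact disjoint_of_subset_left subset_union_left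
          (disjoint_of_subset_right subset_union_left (h.Jd t s hts))
      · rw [hJx, hJy]
        by_cases hts : t = s
        · rw [hts]; exact h.J12 s
        · exact disjoint_of_subset_left subset_union_left
            (disjoint_of_subset_right subset_union_right (h.Jd t s hts))
      · rw [hJy, hJx]
        by_cases hts : t = s
        · rw [hts]; exact (h.J12 s).symm
        · exact disjoint_of_subset_left subset_union_right
            (disjoint_of_subset_right subset_union_left (h.Jd t s hts))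
      · rw [hJy, hJy]
        have hts : t ≠ s := fun he => hne (by rw [he])
        exact disjoint_of_subset_left subset_union_right
          (disjoint_of_subset_right subset_union_right (h.Jd t s hts))
    · intro v hv
      rcases (hYm v).1 hv with ⟨t, rfl⟩ | ⟨t, rfl⟩
      · rw [hJx, hEx]; exact h.E1J t
      · rw [hJy, hEy]; exact h.E2J t
    · intro v hv
      rcases (hYm v).1 hv with ⟨t, rfl⟩ | ⟨t, rfl⟩
      · rw [hEx]; exact h.le5 t
      · rw [hEy]; exact (h.le4 t).trans (by norm_num)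
    · intro v hv
      rcases (hYm v).1 hv with ⟨t, rfl⟩ | ⟨t, rfl⟩
      · rw [hEx]
        exact card_pos.1 (lt_of_lt_of_le (card_pos.2 (h.E2ne t)) (h.le t))
      · rw [hEy]; exact h.E2ne t
    · intro v hv
      rcases (hYm v).1 hv with ⟨t, rfl⟩ | ⟨t, rfl⟩
      · rw [hEx, hcx]; exact h.le t
      · rw [hEy, hcy]
    · intro t
      exact ⟨y t, (hYm _).2 (Or.inr ⟨t, rfl⟩), hcy t, by rw [hEy]⟩
    · intro t
      rw [hSc]
      norm_num
  have hYc : Y.card = 2 * Fintype.card τ := by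
    have h5 := card_cells (Y := Y) (c := c)
    simp only [hSc] at h5
    rw [sum_const, card_univ, nsmul_eq_mul] at h5
    have h6 : (Y.card : ℤ) = ((2 * Fintype.card τ : ℕ) : ℤ) := by
      rw [h5]
      push_cast
      ring
    exact_mod_cast h6
  -- the blocks of the artificial point
  set P : Finset (Σ t : τ, Fin (5 - (E2 t).card)) :=
    C.sigma (fun t => univ.filter (fun j : Fin (5 - (E2 t).card) => (j : ℕ) < 5 - (E1 t).card))
    with hP
  have hPc : 5 ≤ P.card := by
    refine h.slots.trans ?_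
    rw [hP, card_sigma]
    refine sum_le_sum fun t _ => ?_
    refine (le_of_eq (Finset.card_range (5 - (E1 t).card)).symm).trans
      (Finset.card_le_card_of_injOn
      (fun j => if hj : j < 5 - (E2 t).card then (⟨j, hj⟩ : Fin (5 - (E2 t).card)) else
        ⟨0, by have := h.le4 t; omega⟩) ?_ ?_)
    · intro j hj
      have hj' := mem_range.1 (mem_coe.1 hj)
      have hle := h.le t
      have hj2 : j < 5 - (E2 t).card := by omega
      simp only [hj2, dif_pos]
      exact mem_coe.2 (mem_filter.2 ⟨mem_univ _, hj'⟩)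
    · intro j hj j' hj' he
      have h1 := mem_range.1 (mem_coe.1 hj)
      have h2 := mem_range.1 (mem_coe.1 hj')
      have hle := h.le t
      have h3 : j < 5 - (E2 t).card := by omega
      have h4 : j' < 5 - (E2 t).card := by omega
      simp only [h3, h4, dif_pos, Fin.mk.injEq] at he
      exact he
  obtain ⟨S, hSP, hS5⟩ := exists_subset_card_eq hPc
  have hPm : ∀ p ∈ P, p.1 ∈ C ∧ (p.2 : ℕ) < 5 - (E1 p.1).card := by
    intro p hp
    rw [hP, mem_sigma, mem_filter] at hp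
    exact ⟨hp.1, hp.2.2⟩
  have hS2 : ∀ p ∈ S, (cellN Y c E (fun t => (E2 t).card) p).card = 2 := by
    intro p hp
    have hp2 := (hPm p (hSP hp)).2
    have hle := h.le p.1
    have heq : cellN Y c E (fun t => (E2 t).card) p = {x p.1, y p.1} := by
      ext v
      rw [mem_cellN]
      have h1 : v ∈ cellS Y c p.1 ↔ v ∈ ({x p.1, y p.1} : Finset V) := by rw [hS]
      rw [mem_cellS] at h1
      constructor
      · rintro ⟨h2, h3, _⟩
        exact h1.1 ⟨h2, h3⟩
      · intro h2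
        obtain ⟨h3, h4⟩ := h1.2 h2
        refine ⟨h3, h4, ?_⟩
        rw [mem_insert, mem_singleton] at h2
        rcases h2 with rfl | rfl
        · rw [hEx]
          omega
        · rw [hEy]
          omega
    rw [heq, card_pair (hxy p.1)]
  -- a fresh point
  obtain ⟨w, hwQ, hwn⟩ : ∃ w ∈ Q, w ∉ W ∪ Y := by
    by_contra hcon
    push Not at hcon
    have h1 := card_le_card (show Q ⊆ W ∪ Y from fun v hv => hcon v hv)
    have h2 := card_union_le W Y
    omega
  rw [mem_union] at hwn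
  push Not at hwn
  set T2 : Finset τ := univ.filter (fun t => (E2 t).card + 2 ≤ (E1 t).card) with hT2
  have hyinj : Function.Injective y := by
    intro s t he
    have := hcy s
    rw [he, hcy] at this
    exact this.symm
  have hWpos := card_pos.2 hW.1
  have hYc' : (Y.card : ℤ) = 2 * Fintype.card τ := by exact_mod_cast hYc
  have hmain := hcells.close ih hr h3 hW hwn.1 hwn.2 (by rw [hYc]; exact hn) (by omega)
    hS5 hS2 ?_ (Y2 := T2.image y) ?_ ?_ ?_ (by rw [hYc']; linarith)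
  · rw [card_image_of_injective _ hyinj] at hmain
    have h6 : (Fintype.card (Σ t : τ, Fin (5 - (E2 t).card)) : ℤ) =
        ∑ t : τ, (5 - ((E2 t).card : ℤ)) := by
      rw [Fintype.card_sigma]
      push_cast
      refine sum_congr rfl fun t _ => ?_
      rw [Fintype.card_fin]
      have := h.le4 t
      omega
    have h7 : (T2.card : ℤ) * 2 = ∑ t : τ, (if (E2 t).card + 2 ≤ (E1 t).card then (2 : ℤ) else 0) := by
      rw [← sum_filter, sum_const, nsmul_eq_mul]
    have h8 : ∑ t : τ, (4 * ((E2 t).card : ℤ) - 6 +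
        if (E2 t).card + 2 ≤ (E1 t).card then 2 else 0) =
        14 * (Fintype.card τ : ℤ) - 4 * ∑ t : τ, (5 - ((E2 t).card : ℤ)) + (T2.card : ℤ) * 2 := by
      rw [h7, sum_add_distrib]
      congr 1
      have h9 : (Fintype.card τ : ℤ) = ∑ _t : τ, (1 : ℤ) := by simp
      rw [h9, mul_sum, mul_sum, ← sum_sub_distrib]
      refine sum_congr rfl fun t _ => ?_
      ring
    rw [h6, hYc'] at hmain
    rw [h8]
    linarith
  · rintro K ⟨p, hpK, hpS⟩ I f hIK hf
    have hf1 : ∀ t ∈ I, f (x t) ∈ J1 t := by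
      intro t ht
      have := hf (x t) ((hYm _).2 (Or.inl ⟨t, rfl⟩)) (by rw [hcx]; exact ht)
      rwa [hJx] at this
    have hf2 : ∀ t ∈ I, f (y t) ∈ J2 t := by
      intro t ht
      have := hf (y t) ((hYm _).2 (Or.inr ⟨t, rfl⟩)) (by rw [hcy]; exact ht)
      rwa [hJy] at this
    have hCI : ¬ C ⊆ I := fun hCI => hIK p.1 (hCI (hPm p (hSP hpS)).1) p hpK rfl
    have h5 := h.cost I (fun t => f (x t)) (fun t => f (y t)) hCI
      fun t ht => ⟨hf1 t ht, hf2 t ht⟩
    have h6 : (Y.filter (fun v => c v ∈ I)).image f =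
        I.image (fun t => f (x t)) ∪ I.image (fun t => f (y t)) := by
      ext v
      simp only [mem_image, mem_filter, mem_union]
      constructor
      · rintro ⟨w, ⟨hw, hcw⟩, rfl⟩
        rcases (hYm w).1 hw with ⟨t, rfl⟩ | ⟨t, rfl⟩
        · rw [hcx] at hcw
          exact Or.inl ⟨t, hcw, rfl⟩
        · rw [hcy] at hcw
          exact Or.inr ⟨t, hcw, rfl⟩
      · rintro (⟨t, ht, rfl⟩ | ⟨t, ht, rfl⟩)
        · exact ⟨x t, ⟨(hYm _).2 (Or.inl ⟨t, rfl⟩), by rw [hcx]; exact ht⟩, rfl⟩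
        · exact ⟨y t, ⟨(hYm _).2 (Or.inr ⟨t, rfl⟩), by rw [hcy]; exact ht⟩, rfl⟩
    rw [h6]
    exact h5
  · intro v hv
    obtain ⟨t, _, rfl⟩ := mem_image.1 hv
    exact (hYm _).2 (Or.inr ⟨t, rfl⟩)
  · intro v hv
    obtain ⟨t, ht, rfl⟩ := mem_image.1 hv
    have h5 := (mem_filter.1 ht).2
    have h6 := h.le5 t
    rw [hEy]
    omega
  · intro v hv w hw hcw hne
    obtain ⟨t, ht, rfl⟩ := mem_image.1 hv
    have h5 := (mem_filter.1 ht).2
    rw [hcy] at hcw
    have h6 : w ∈ cellS Y c t := mem_cellS.2 ⟨hw, hcw⟩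
    rw [hS, mem_insert, mem_singleton] at h6
    rcases h6 with rfl | rfl
    · rw [hEx, hEy]; exact h5
    · exact absurd rfl hne

end Pool.Agent.Hyp6
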