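import Pool.Agent.Hyp6.Gdp
import Pool.Agent.Hyp6.L3S5
import Pool.Agent.Hyp6.L3Gp

/-!
# HYP6 L3Da: a general deletion with two classes of linked points

`Ncl`: the sets which are closed for the kept and the new blocks. `Gdl.two`: one deleted point `X`, two
classes.
-/

set_option autoImplicit false

namespace Pool.Agent.Hyp6

open Finset Pool.Agent.Hyp5

universe u v

variable {V : Type v} [DecidableEq V] {ι : Type u} [Fintype ι] {B : ι → Finset V}

/-- a set of remaining points which is closed for the kept blocks and the new blocks. -/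
structure Ncl {κ : Type u} (B : ι → Finset V) (Q L X : Finset V) (I : Finset ι)
    (N : κ → Finset V) (Z : Finset V) : Prop where
  sub : ∀ v ∈ Z, v ∈ Q ∧ v ∉ L ∧ v ∉ X
  old : ∀ i, ¬ (B i ∩ L).Nonempty → i ∉ I → ∀ z ∈ Z, z ∈ B i → ∀ v ∈ Q, v ∉ X → v ∈ B i → v ∈ Z
  new : ∀ c, ∀ z ∈ Z, z ∈ N c → N c ⊆ Z

omit [Fintype ι] in
/-- the complement. -/
theorem Ncl.compl {κ : Type u} {Q L X : Finset V} {I : Finset ι} {N : κ → Finset V}
    {Z : Finset V} (h : Ncl B Q L X I N Z) (hN : ∀ c, ∀ v ∈ N c, v ∈ Q ∧ v ∉ L ∧ v ∉ X) :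
    Ncl B Q L X I N ((Q \ (L ∪ X)) \ Z) where
  sub := fun v hv => by
    simp only [mem_sdiff, mem_union, not_or] at hv
    exact ⟨hv.1.1, hv.1.2.1, hv.1.2.2⟩
  old := fun i hi hI z hz hzi v hvQ hvX hvi => by
    simp only [mem_sdiff, mem_union, not_or] at hz ⊢
    refine ⟨⟨hvQ, fun hvL => hi ⟨v, mem_inter.2 ⟨hvi, hvL⟩⟩, hvX⟩, fun hvZ => ?_⟩
    exact hz.2 (h.old i hi hI v hvZ hvi z hz.1.1 hz.1.2.2 hzi)
  new := fun c z hz hzc v hv => by
    simp only [mem_sdiff, mem_union, not_or] at hz ⊢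
    have h1 := hN c v hv
    refine ⟨⟨h1.1, h1.2.1, h1.2.2⟩, fun hvZ => ?_⟩
    exact hz.2 (h.new c v hvZ hv hzc)

namespace Gdl

variable {κ : Type u} [Fintype κ] {Q L X Y : Finset V} {I : Finset ι} {N : κ → Finset V}

theorem ncl (h : Gdl B Q L X Y I (kp B L I) N) {Z : Finset V}
    (hZ : Closed (gr (absG B (rm Q L X Y) Y (kp B L I) N)) (rm Q L X Y ∪ Y) Z) :
    Ncl B Q L X I N Z := by
  classical
  have hw := h.wir
  have hmem : ∀ v ∈ rm Q L X Y ∪ Y, v ∈ Q ∧ v ∉ L ∧ v ∉ X := by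
    intro v hv
    rcases mem_union.1 hv with h1 | h1
    · obtain ⟨h2, h3, h4, _⟩ := mem_rm.1 h1
      exact ⟨h2, h3, h4⟩
    · exact ⟨h.YQ h1, fun h2 => disjoint_left.1 h.dLY h2 h1,
        fun h2 => disjoint_left.1 h.dXY h2 h1⟩
  have hin : ∀ i, ¬ (B i ∩ L).Nonempty → i ∉ I → ∀ v ∈ rm Q L X Y ∪ Y, v ∈ B i →
      v ∈ absG B (rm Q L X Y) Y (kp B L I) N (Sum.inl i) := by
    intro i hi hI v hv hvi
    rcases mem_union.1 hv with h1 | h1
    · exact (hw.mem_C h1).2 ⟨i, rfl, hvi⟩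
    · exact (hw.mem_Y h1).2 (Or.inl ⟨i, mem_kp.2 ⟨hvi, hi, hI⟩, rfl⟩)
  refine ⟨fun v hv => hmem v (hZ.1 hv), fun i hi hI z hz hzi v hvQ hvX hvi => ?_,
    fun c z hz hzc v hv => ?_⟩
  · have hvL : v ∉ L := fun h1 => hi ⟨v, mem_inter.2 ⟨hvi, h1⟩⟩
    have hv : v ∈ rm Q L X Y ∪ Y := by
      by_cases h1 : v ∈ Y
      · exact mem_union_right _ h1
      · exact mem_union_left _ (mem_rm.2 ⟨hvQ, hvL, hvX, h1⟩)
    by_cases hzv : z = v
    · rw [← hzv]
      exact hz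
    · exact hZ.2 z hz v hv ⟨hzv, Sum.inl i, hin i hi hI z (hZ.1 hz) hzi, hin i hi hI v hv hvi⟩
  · by_cases hzv : z = v
    · rw [← hzv]
      exact hz
    · exact hZ.2 z hz v (mem_union_right _ (h.subN c hv)) (hw.adj_N hzv hzc hv)

/-- **two classes.** -/
theorem two (hv : ViolR B Q) (h : Gdl B Q L X Y I (kp B L I) N) (hLne : L.Nonempty)
    (hYne : Y.Nonempty) (hX1 : X.card = 1) (hs : sv B L ≤ 0)
    (hval : 1 ≤ dv B Q L + 5 + 4 * (I.card : ℤ) - 4 * (Fintype.card κ : ℤ))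
    {a1 a2 : Finset V} (h1Y : a1 ⊆ Y) (h2Y : a2 ⊆ Y) (hcov : ∀ y ∈ Y, y ∈ a1 ∨ y ∈ a2)
    (hl1 : ∀ Z, Ncl B Q L X I N Z → a1 ⊆ Z ∨ Disjoint a1 Z)
    (hl2 : ∀ Z, Ncl B Q L X I N Z → a2 ⊆ Z ∨ Disjoint a2 Z)
    (hs1 : ∃ c, (N c).Nonempty ∧ (N c).card ≤ 2 ∧ N c ⊆ a1)
    (hs2 : ∃ c, (N c).Nonempty ∧ (N c).card ≤ 2 ∧ N c ⊆ a2) : False := by
  classical
  have hdis : Disjoint (rm Q L X Y ∪ Y) (L ∪ X) := by
    rw [disjoint_left]
    intro v hv1 hv2
    rcases mem_union.1 hv1 with h1 | h1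
    · obtain ⟨_, h3, h4, _⟩ := mem_rm.1 h1
      rcases mem_union.1 hv2 with h2 | h2
      · exact h3 h2
      · exact h4 h2
    · rcases mem_union.1 hv2 with h2 | h2
      · exact disjoint_left.1 h.dLY h2 h1
      · exact disjoint_left.1 h.dXY h2 h1
  have hn : (rm Q L X Y).card + Y.card < Q.card := by
    have h1 : (rm Q L X Y ∪ Y).card = (rm Q L X Y).card + Y.card :=
      card_union_of_disjoint h.wir.dis
    have h2 : ((rm Q L X Y ∪ Y) ∪ (L ∪ X)).card ≤ Q.card :=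
      card_le_card (union_subset (union_subset sdiff_subset h.YQ) (union_subset h.LQ h.XQ))
    rw [card_union_of_disjoint hdis, h1] at h2
    have h3 : 0 < (L ∪ X).card := card_pos.2 (hLne.mono subset_union_left)
    omega
  have hmp := h.main_parts hv.ih hv.ihr hn hYne (A := {a1, a2})
    (fun a ha => by
      rcases mem_insert.1 ha with rfl | ha
      · exact h1Y
      · rw [mem_singleton.1 ha]; exact h2Y)
    (fun y hy => by
      rcases hcov y hy with h1 | h1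
      · exact ⟨a1, by simp, h1⟩
      · exact ⟨a2, by simp, h1⟩)
    (fun Z hZ a ha => by
      rcases mem_insert.1 ha with rfl | ha
      · exact hl1 Z (h.ncl hZ)
      · rw [mem_singleton.1 ha]; exact hl2 Z (h.ncl hZ))
    (fun Z hZ hne => h.meets hLne (S := ∅) (empty_subset _)
      (by
        rw [union_empty]
        exact hv.conn_sdiff h.XQ (by omega))
      (fun y hy _ i hi hne => h.keep_kp y hy i hi hne) hZ hne)
    (fun a ha => by
      rcases mem_insert.1 ha with rfl | ha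
      · exact hs1
      · rw [mem_singleton.1 ha]; exact hs2)
  have h1 := hmp.2 (by
    rw [hX1]
    have := hv.sv1
    push_cast
    linarith)
  have h2 : (({a1, a2} : Finset (Finset V)).card : ℤ) ≤ 2 := by exact_mod_cast card_le_two
  have h3 := hv.neg
  rw [hX1] at h1
  push_cast at h1
  have h4 : (0 : ℤ) ≤ ((lost B Q L X Y I (kp B L I)).card : ℤ) := by positivity
  linarith

end Gdl

end Pool.Agent.Hyp6
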