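import Mathlib
import Pool.Agent.Hyp6.L3Sp

/-!
# HYP6 L3Ra: the theorem of Rado for nullity functions
-/

set_option autoImplicit false

namespace Pool.Agent.Hyp6.Sp

open Finset

section

variable {V : Type*} [DecidableEq V] {κ : Type*} [DecidableEq κ] {n : Finset V → ℤ}

/-- the condition of Rado relative to `X`. -/
def RadoC (n : Finset V → ℤ) (X : Finset V) (J : Finset κ) (A : κ → Finset V) : Prop :=
  ∀ K ⊆ J, rkn n X + K.card ≤ rkn n (X ∪ K.biUnion A)

/-- removing one of two elements keeps the condition. -/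
theorem RadoC.drop (h : Nul n) {X : Finset V} {J : Finset κ} {A : κ → Finset V}
    (hR : RadoC n X J A) {j : κ} {x y : V} (hxy : x ≠ y) :
    RadoC n X J (Function.update A j ((A j).erase x)) ∨
      RadoC n X J (Function.update A j ((A j).erase y)) := by
  by_contra hcon
  push Not at hcon
  obtain ⟨h1, h2⟩ := hcon
  unfold RadoC at h1 h2
  push Not at h1 h2
  obtain ⟨K1, hK1, hk1⟩ := h1
  obtain ⟨K2, hK2, hk2⟩ := h2
  have hup : ∀ (z : V) (K : Finset κ), j ∉ K →
      K.biUnion (Function.update A j ((A j).erase z)) = K.biUnion A := by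
    intro z K hj
    refine biUnion_congr rfl fun i hi => ?_
    rw [Function.update_of_ne]
    rintro rfl
    exact hj hi
  have hj1 : j ∈ K1 := by
    by_contra hj
    rw [hup x K1 hj] at hk1
    have := hR K1 hK1
    linarith
  have hj2 : j ∈ K2 := by
    by_contra hj
    rw [hup y K2 hj] at hk2
    have := hR K2 hK2
    linarith
  set L1 := K1.erase j with hL1
  set L2 := K2.erase j with hL2
  have hc1 := card_erase_add_one hj1
  have hc2 := card_erase_add_one hj2
  have hb : ∀ (z : V) (K : Finset κ), j ∈ K →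
      K.biUnion (Function.update A j ((A j).erase z)) =
        (A j).erase z ∪ (K.erase j).biUnion A := by
    intro z K hj
    rw [← hup z (K.erase j) (notMem_erase j K)]
    conv_lhs => rw [← insert_erase hj]
    rw [biUnion_insert, Function.update_self]
  rw [hb x K1 hj1] at hk1
  rw [hb y K2 hj2] at hk2
  rw [← hL1] at hk1 hc1
  rw [← hL2] at hk2 hc2
  have h3 := h.rk_sub (X ∪ ((A j).erase x ∪ L1.biUnion A)) (X ∪ ((A j).erase y ∪ L2.biUnion A))
  -- the union
  have h4 : X ∪ (insert j (L1 ∪ L2)).biUnion A ⊆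
      (X ∪ ((A j).erase x ∪ L1.biUnion A)) ∪ (X ∪ ((A j).erase y ∪ L2.biUnion A)) := by
    rw [biUnion_insert]
    intro z hz
    rcases mem_union.1 hz with hz | hz
    · exact mem_union_left _ (mem_union_left _ hz)
    rcases mem_union.1 hz with hz | hz
    · by_cases hzx : z = x
      · refine mem_union_right _ (mem_union_right _ (mem_union_left _ (mem_erase.2 ⟨?_, hz⟩)))
        rw [hzx]
        exact hxy
      · exact mem_union_left _ (mem_union_right _ (mem_union_left _ (mem_erase.2 ⟨hzx, hz⟩)))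
    · obtain ⟨i, hi, hz⟩ := mem_biUnion.1 hz
      rcases mem_union.1 hi with hi | hi
      · exact mem_union_left _ (mem_union_right _ (mem_union_right _ (mem_biUnion.2 ⟨i, hi, hz⟩)))
      · exact mem_union_right _ (mem_union_right _ (mem_union_right _
          (mem_biUnion.2 ⟨i, hi, hz⟩)))
  have h5 : X ∪ (L1 ∩ L2).biUnion A ⊆
      (X ∪ ((A j).erase x ∪ L1.biUnion A)) ∩ (X ∪ ((A j).erase y ∪ L2.biUnion A)) := by
    intro z hz
    rcases mem_union.1 hz with hz | hz
    · exact mem_inter.2 ⟨mem_union_left _ hz, mem_union_left _ hz⟩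
    · obtain ⟨i, hi, hz⟩ := mem_biUnion.1 hz
      obtain ⟨hi1, hi2⟩ := mem_inter.1 hi
      exact mem_inter.2 ⟨mem_union_right _ (mem_union_right _ (mem_biUnion.2 ⟨i, hi1, hz⟩)),
        mem_union_right _ (mem_union_right _ (mem_biUnion.2 ⟨i, hi2, hz⟩))⟩
  have h6 := h.rk_mono h4
  have h7 := h.rk_mono h5
  have hjL : j ∉ L1 ∪ L2 := by
    rw [mem_union]
    rintro (hj | hj)
    · exact notMem_erase j K1 hj
    · exact notMem_erase j K2 hj
  have h8 := hR (insert j (L1 ∪ L2)) (by
    refine insert_subset (hK1 hj1) (union_subset ?_ ?_)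
    · exact (erase_subset _ _).trans hK1
    · exact (erase_subset _ _).trans hK2)
  have h9 := hR (L1 ∩ L2) (inter_subset_left.trans ((erase_subset _ _).trans hK1))
  rw [card_insert_of_notMem hjL] at h8
  have h10 := card_union_add_card_inter L1 L2
  have h10' : ((L1 ∪ L2).card : ℤ) + (L1 ∩ L2).card = L1.card + L2.card := by exact_mod_cast h10
  have hc1' : (L1.card : ℤ) + 1 = K1.card := by exact_mod_cast hc1
  have hc2' : (L2.card : ℤ) + 1 = K2.card := by exact_mod_cast hc2
  push_cast at h8
  linarith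

/-- **the theorem of Rado**, relative form. -/
theorem Nul.rado [Nonempty V] (h : Nul n) {X : Finset V} {J : Finset κ} : ∀ (k : ℕ) (A : κ → Finset V),
    ∑ j ∈ J, (A j).card ≤ k → RadoC n X J A →
    ∃ f : κ → V, (∀ j ∈ J, f j ∈ A j) ∧ rkn n X + J.card ≤ rkn n (X ∪ J.image f) := by
  intro k
  induction k with
  | zero =>
    intro A hk hR
    have h0 : J = ∅ := by
      by_contra hne
      obtain ⟨j, hj⟩ := nonempty_iff_ne_empty.2 hne
      have h1 := hR {j} (singleton_subset_iff.2 hj)
      have h2 : (A j).card = 0 := by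
        have := single_le_sum (f := fun j => (A j).card) (fun _ _ => Nat.zero_le _) hj
        omega
      rw [singleton_biUnion, card_eq_zero.1 h2, union_empty, card_singleton] at h1
      push_cast at h1
      linarith
    subst h0
    exact ⟨fun _ => Classical.arbitrary V, by simp, by simp⟩
  | succ k ih =>
    intro A hk hR
    by_cases hex : ∃ j ∈ J, 2 ≤ (A j).card
    · obtain ⟨j, hj, h2⟩ := hex
      obtain ⟨x, hx, y, hy, hxy⟩ := one_lt_card.1 (show 1 < (A j).card by omega)
      have key : ∀ z ∈ A j, RadoC n X J (Function.update A j ((A j).erase z)) →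
          ∃ f : κ → V, (∀ j ∈ J, f j ∈ A j) ∧ rkn n X + J.card ≤ rkn n (X ∪ J.image f) := by
        intro z hz hR'
        have h3 : ∑ i ∈ J, (Function.update A j ((A j).erase z) i).card ≤ k := by
          have h4 : ∑ i ∈ J.erase j, (Function.update A j ((A j).erase z) i).card =
              ∑ i ∈ J.erase j, (A i).card := by
            refine sum_congr rfl fun i hi => ?_
            rw [Function.update_of_ne (mem_erase.1 hi).1]
          rw [← add_sum_erase _ _ hj, h4, Function.update_self]
          rw [← add_sum_erase _ _ hj] at hk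
          have := card_erase_add_one hz
          omega
        obtain ⟨f, hf, hr⟩ := ih _ h3 hR'
        refine ⟨f, fun i hi => ?_, hr⟩
        have h5 := hf i hi
        by_cases hij : i = j
        · rw [hij, Function.update_self] at h5
          rw [hij]
          exact (mem_erase.1 h5).2
        · rwa [Function.update_of_ne hij] at h5
      rcases hR.drop h hxy (j := j) with h3 | h3
      · exact key x hx h3
      · exact key y hy h3
    · push Not at hex
      have h1 : ∀ j ∈ J, ∃ x, A j = {x} := by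
        intro j hj
        have h2 := hex j hj
        have h3 : (A j).card ≠ 0 := by
          intro h0
          have h4 := hR {j} (singleton_subset_iff.2 hj)
          rw [singleton_biUnion, card_eq_zero.1 h0, union_empty, card_singleton] at h4
          push_cast at h4
          linarith
        exact card_eq_one.1 (by omega)
      rcases J.eq_empty_or_nonempty with rfl | ⟨j0, hj0⟩
      · exact ih A (by simp) hR
      · obtain ⟨x0, _⟩ := h1 j0 hj0
        have hne : Nonempty V := ⟨x0⟩
        choose! f hf using h1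
        refine ⟨f, fun j hj => by rw [hf j hj]; exact mem_singleton_self _, ?_⟩
        have h2 := hR J (Subset.refl _)
        have h3 : J.biUnion A = J.image f := by
          ext z
          rw [mem_biUnion, mem_image]
          constructor
          · rintro ⟨j, hj, hz⟩
            rw [hf j hj, mem_singleton] at hz
            exact ⟨j, hj, hz.symm⟩
          · rintro ⟨j, hj, rfl⟩
            exact ⟨j, hj, by rw [hf j hj]; exact mem_singleton_self _⟩
        rwa [h3] at h2

omit [DecidableEq κ] in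
/-- a set whose rank exceeds the rank of `X` by the number of new points is free over `X`. -/
theorem Nul.free_of_rk (h : Nul n) {X : Finset V} {J : Finset κ} {f : κ → V}
    (hr : rkn n X + J.card ≤ rkn n (X ∪ J.image f)) :
    Set.InjOn f J ∧ (∀ j ∈ J, f j ∉ X) ∧ n (X ∪ J.image f) = n X := by
  have h1 := h.mono X (X ∪ J.image f) subset_union_left
  have h2 : (X ∪ J.image f).card ≤ X.card + (J.image f).card := card_union_le _ _
  have h3 : (J.image f).card ≤ J.card := card_image_le
  unfold rkn at hr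
  have h4 : (J.image f).card = J.card := by omega
  have h5 : (X ∪ J.image f).card = X.card + (J.image f).card := by omega
  refine ⟨card_image_iff.1 h4, ?_, by omega⟩
  have h6 := card_union_add_card_inter X (J.image f)
  have h7 : X ∩ J.image f = ∅ := card_eq_zero.1 (by omega)
  intro j hj hjX
  have h8 : f j ∈ X ∩ J.image f := mem_inter.2 ⟨hjX, mem_image_of_mem f hj⟩
  rw [h7] at h8
  exact notMem_empty _ h8

/-- the theorem of Rado with the free transversal. -/
theorem Nul.rado_free [Nonempty V] (h : Nul n) {X : Finset V} {J : Finset κ} {A : κ → Finset V}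
    (hR : RadoC n X J A) : ∃ f : κ → V, (∀ j ∈ J, f j ∈ A j) ∧ Set.InjOn f J ∧
      (∀ j ∈ J, f j ∉ X) ∧ n (X ∪ J.image f) = n X := by
  obtain ⟨f, hf, hr⟩ := h.rado _ A le_rfl hR
  obtain ⟨h1, h2, h3⟩ := h.free_of_rk hr
  exact ⟨f, hf, h1, h2, h3⟩

/-- three sets without a free transversal. -/
theorem Nul.rado3 (h : Nul n) {A B C : Finset V}
    (hno : ∀ a ∈ A, ∀ b ∈ B, ∀ c ∈ C, a ≠ b → a ≠ c → b ≠ c → 0 < n {a, b, c}) :
    A = ∅ ∨ B = ∅ ∨ C = ∅ ∨ rkn n A ≤ 0 ∨ rkn n B ≤ 0 ∨ rkn n C ≤ 0 ∨
      rkn n (A ∪ B) ≤ 1 ∨ rkn n (A ∪ C) ≤ 1 ∨ rkn n (B ∪ C) ≤ 1 ∨ rkn n (A ∪ B ∪ C) ≤ 2 := by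
  by_contra hcon
  push Not at hcon
  obtain ⟨hA, hB, hC, a1, b1, c1, ab, ac, bc, abc⟩ := hcon
  obtain ⟨a0, ha0⟩ := hA
  have hne : Nonempty V := ⟨a0⟩
  have h0 : rkn n ∅ = 0 := by
    unfold rkn
    rw [h.empty, card_empty]
    norm_num
  set F : Fin 3 → Finset V := ![A, B, C] with hF
  have hR : RadoC n ∅ (univ : Finset (Fin 3)) F := by
    intro K _
    rw [h0, empty_union]
    have hcases : K = ∅ ∨ K = {0} ∨ K = {1} ∨ K = {2} ∨ K = {0, 1} ∨ K = {0, 2} ∨ K = {1, 2} ∨
        K = {0, 1, 2} := by
      revert K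
      decide
    rcases hcases with rfl | rfl | rfl | rfl | rfl | rfl | rfl | rfl
    · simp [h0]
    · simp only [singleton_biUnion, card_singleton, hF]
      simp only [Matrix.cons_val_zero]
      push_cast
      linarith
    · simp only [singleton_biUnion, card_singleton, hF]
      simp only [Matrix.cons_val_one, Matrix.cons_val_zero]
      push_cast
      linarith
    · simp only [singleton_biUnion, card_singleton, hF]
      simp only [Matrix.cons_val]
      push_cast
      linarith
    · have e : ({0, 1} : Finset (Fin 3)).biUnion F = A ∪ B := by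
        rw [biUnion_insert, singleton_biUnion]
        rfl
      have e2 : ({0, 1} : Finset (Fin 3)).card = 2 := by decide
      rw [e, e2]
      push_cast
      linarith
    · have e : ({0, 2} : Finset (Fin 3)).biUnion F = A ∪ C := by
        rw [biUnion_insert, singleton_biUnion]
        rfl
      have e2 : ({0, 2} : Finset (Fin 3)).card = 2 := by decide
      rw [e, e2]
      push_cast
      linarith
    · have e : ({1, 2} : Finset (Fin 3)).biUnion F = B ∪ C := by
        rw [biUnion_insert, singleton_biUnion]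
        rfl
      have e2 : ({1, 2} : Finset (Fin 3)).card = 2 := by decide
      rw [e, e2]
      push_cast
      linarith
    · have e : ({0, 1, 2} : Finset (Fin 3)).biUnion F = A ∪ B ∪ C := by
        rw [biUnion_insert, biUnion_insert, singleton_biUnion, union_assoc]
        rfl
      have e2 : ({0, 1, 2} : Finset (Fin 3)).card = 3 := by decide
      rw [e, e2]
      push_cast
      linarith
  obtain ⟨f, hf, h1, -, h3⟩ := h.rado_free hR
  rw [empty_union, h.empty] at h3
  have e1 : (univ : Finset (Fin 3)).image f = {f 0, f 1, f 2} := by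
    ext z
    simp only [mem_image, mem_univ, true_and, mem_insert, mem_singleton]
    constructor
    · rintro ⟨i, rfl⟩
      fin_cases i <;> simp
    · rintro (rfl | rfl | rfl)
      · exact ⟨0, rfl⟩
      · exact ⟨1, rfl⟩
      · exact ⟨2, rfl⟩
  have hinj : ∀ i j : Fin 3, i ≠ j → f i ≠ f j := fun i j hij he =>
    hij (h1 (mem_coe.2 (mem_univ i)) (mem_coe.2 (mem_univ j)) he)
  have h4 := hno (f 0) (hf 0 (mem_univ _)) (f 1) (hf 1 (mem_univ _)) (f 2) (hf 2 (mem_univ _))
    (hinj 0 1 (by decide)) (hinj 0 2 (by decide)) (hinj 1 2 (by decide))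
  rw [e1] at h3
  omega

/-- two sets of rank at most one without parallel elements. -/
theorem Nul.rk_le_one (h : Nul n) {Vs A : Finset V} (hA : A ⊆ Vs)
    (hpair : ∀ x ∈ Vs, ∀ y ∈ Vs, x ≠ y → n {x, y} ≤ 0) (hr : rkn n A ≤ 1) (hne : A.Nonempty) :
    ∃ x ∈ A, A = {x} := by
  obtain ⟨x, hx⟩ := hne
  refine ⟨x, hx, ?_⟩
  ext y
  rw [mem_singleton]
  constructor
  · intro hy
    by_contra hxy
    have h1 := hpair y (hA hy) x (hA hx) hxy
    have h2 : rkn n {y, x} ≤ rkn n A := h.rk_mono (by
      intro z hz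
      rw [mem_insert, mem_singleton] at hz
      rcases hz with rfl | rfl <;> assumption)
    unfold rkn at h2 hr
    rw [card_pair hxy] at h2
    push_cast at h2
    omega
  · rintro rfl
    exact hx

/-- **the types of a triple** (theorem of Rado for three sets, no loops, no parallel elements):
a point without neighbour, two points with the same only neighbour, or rank at most two. -/
theorem Nul.types (h : Nul n) {Vs A B C : Finset V} (hA : A ⊆ Vs) (hB : B ⊆ Vs) (hC : C ⊆ Vs)
    (hone : ∀ x ∈ Vs, n {x} ≤ 0) (hpair : ∀ x ∈ Vs, ∀ y ∈ Vs, x ≠ y → n {x, y} ≤ 0)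
    (hno : ∀ a ∈ A, ∀ b ∈ B, ∀ c ∈ C, a ≠ b → a ≠ c → b ≠ c → 0 < n {a, b, c}) :
    A = ∅ ∨ B = ∅ ∨ C = ∅ ∨ (∃ x ∈ Vs, A = {x} ∧ B = {x}) ∨ (∃ x ∈ Vs, A = {x} ∧ C = {x}) ∨
      (∃ x ∈ Vs, B = {x} ∧ C = {x}) ∨ rkn n (A ∪ B ∪ C) ≤ 2 := by
  have hrk0 : ∀ X ⊆ Vs, rkn n X ≤ 0 → X = ∅ := by
    intro X hX hr
    by_contra hne
    obtain ⟨x, hx⟩ := nonempty_iff_ne_empty.2 hne
    have h1 := hone x (hX hx)
    have h2 := h.rk_mono (singleton_subset_iff.2 hx)
    unfold rkn at h2 hr
    rw [card_singleton] at h2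
    push_cast at h2
    omega
  have hrk1 : ∀ X ⊆ Vs, ∀ Y ⊆ Vs, rkn n (X ∪ Y) ≤ 1 →
      X = ∅ ∨ Y = ∅ ∨ ∃ x ∈ Vs, X = {x} ∧ Y = {x} := by
    intro X hX Y hY hr
    rcases X.eq_empty_or_nonempty with h0 | hne
    · exact Or.inl h0
    rcases Y.eq_empty_or_nonempty with h0 | hne'
    · exact Or.inr (Or.inl h0)
    obtain ⟨x, hx, hXY⟩ := h.rk_le_one (union_subset hX hY) hpair hr (hne.mono subset_union_left)
    refine Or.inr (Or.inr ⟨x, union_subset hX hY hx, ?_, ?_⟩)
    · refine (subset_singleton_iff.1 ?_).resolve_left hne.ne_empty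
      rw [← hXY]
      exact subset_union_left
    · refine (subset_singleton_iff.1 ?_).resolve_left hne'.ne_empty
      rw [← hXY]
      exact subset_union_right
  rcases h.rado3 hno with h1 | h1 | h1 | h1 | h1 | h1 | h1 | h1 | h1 | h1
  · exact Or.inl h1
  · exact Or.inr (Or.inl h1)
  · exact Or.inr (Or.inr (Or.inl h1))
  · exact Or.inl (hrk0 A hA h1)
  · exact Or.inr (Or.inl (hrk0 B hB h1))
  · exact Or.inr (Or.inr (Or.inl (hrk0 C hC h1)))
  · rcases hrk1 A hA B hB h1 with h2 | h2 | h2
    · exact Or.inl h2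
    · exact Or.inr (Or.inl h2)
    · exact Or.inr (Or.inr (Or.inr (Or.inl h2)))
  · rcases hrk1 A hA C hC h1 with h2 | h2 | h2
    · exact Or.inl h2
    · exact Or.inr (Or.inr (Or.inl h2))
    · exact Or.inr (Or.inr (Or.inr (Or.inr (Or.inl h2))))
  · rcases hrk1 B hB C hC h1 with h2 | h2 | h2
    · exact Or.inr (Or.inl h2)
    · exact Or.inr (Or.inr (Or.inl h2))
    · exact Or.inr (Or.inr (Or.inr (Or.inr (Or.inr (Or.inl h2)))))
  · exact Or.inr (Or.inr (Or.inr (Or.inr (Or.inr (Or.inr h1)))))

end

end Pool.Agent.Hyp6.Sp
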