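import Mathlib
import Pool.Agent.Hyp6.L3Ra
import Pool.Agent.Hyp6.L3Nd2

/-!
# HYP6 L3Ty: the types of a triple in a minimal partition into classes
-/

set_option autoImplicit false

namespace Pool.Agent.Hyp6.Sp

open Finset

section

variable {L : Type*} [DecidableEq L] {α : Type*} [DecidableEq α] {τ : Type*} [DecidableEq τ]
variable {F : Finset L} {U : Finset α} {N : α → Finset L} {Ts : Finset τ} {NT : τ → Finset L}
  {P : Finset (Finset L)}

omit [DecidableEq α] [DecidableEq τ] in
theorem met_union (X Y : Finset L) : met P (X ∪ Y) = met P X ∪ met P Y := by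
  ext C
  rw [mem_union, mem_met, mem_met, mem_met, disjoint_union_left]
  tauto

/-- a single class is no loop. -/
theorem MinP.one (hg : Gd F F U N Ts NT) (h : MinP F F U N Ts NT P) (C : Finset L) :
    nP U N P {C} ≤ 0 := by
  refine dfc_le fun B hB => ?_
  rcases B.eq_empty_or_nonempty with rfl | hne
  · simp
  · have h1 := h.surplus hg hB hne
    have h2 : (B.biUnion (fun u => met P (N u))).card ≤
        (B.biUnion (fun u => met P (N u)) \ {C}).card + 1 := by
      have := card_le_card_sdiff_add_card (t := {C})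
        (s := B.biUnion (fun u => met P (N u)))
      rwa [card_singleton] at this
    omega

omit [DecidableEq α] [DecidableEq τ] in
/-- the classes of a set of nodes, all in one class. -/
theorem Ptn.met_single (h : Ptn F F U N Ts NT P) {X : Finset L} (hX : X ⊆ F) {C : Finset L}
    (hm : met P X ⊆ {C}) (hC : C ∈ P) : X ⊆ C := by
  have h1 := (h.sub_met hX (singleton_subset_iff.2 hC)).2 hm
  rwa [singleton_biUnion] at h1

omit [DecidableEq τ] in
/-- **free sets of classes give free leaves.** -/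
theorem Ptn.free_leaves (hg : Gd F F U N Ts NT) (h : Ptn F F U N Ts NT P)
    {S : Finset (Finset L)} (hSP : S ⊆ P) (hS : nP U N P S ≤ 0) {x : Finset L → L}
    (hx : ∀ D ∈ S, x D ∈ D) : dfc U N (S.image x) ≤ 0 := by
  have h1 := h.free hg hSP (empty_subset S) hS (x := x) (by rw [sdiff_empty]; exact hx)
  rw [sdiff_empty, biUnion_empty, empty_union, sdiff_empty] at h1
  have h2 : U ⊆ Ux U N P ∪ P.biUnion (fun C => Uin U N C) := by
    intro u hu
    by_cases hex : ∃ C ∈ P, N u ⊆ C
    · obtain ⟨C, hC, hu2⟩ := hex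
      exact mem_union_right _ (mem_biUnion.2 ⟨C, hC, mem_filter.2 ⟨hu, hu2⟩⟩)
    · push Not at hex
      exact mem_union_left _ (mem_filter.2 ⟨hu, hex⟩)
  refine le_trans (dfc_le fun B hB => ?_) h1
  exact le_dfc (hB.trans h2)

/-- **the types of a triple**: `A1, A2, A3` are the nodes seen by the three points, no three
different nodes can be left out together. -/
theorem MinP.types (hg : Gd F F U N Ts NT) (h : MinP F F U N Ts NT P) {A1 A2 A3 : Finset L}
    (h1 : A1 ⊆ F) (h2 : A2 ⊆ F) (h3 : A3 ⊆ F)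
    (hno : ∀ x ∈ A1, ∀ y ∈ A2, ∀ z ∈ A3, x ≠ y → x ≠ z → y ≠ z → 0 < dfc U N {x, y, z}) :
    A1 = ∅ ∨ A2 = ∅ ∨ A3 = ∅ ∨ (∃ C ∈ P, A1 ⊆ C ∧ A2 ⊆ C) ∨ (∃ C ∈ P, A1 ⊆ C ∧ A3 ⊆ C) ∨
      (∃ C ∈ P, A2 ⊆ C ∧ A3 ⊆ C) ∨ rkn (nP U N P) (met P (A1 ∪ A2 ∪ A3)) ≤ 2 := by
  have hp := h.ptn
  have hmet : ∀ X : Finset L, ∀ C ∈ met P X, ∃ x ∈ X, x ∈ C := by
    intro X C hC
    have h4 := (mem_met.1 hC).2
    rw [not_disjoint_iff] at h4
    obtain ⟨x, hx, hxC⟩ := h4
    exact ⟨x, hx, hxC⟩
  have hempty : ∀ X ⊆ F, met P X = ∅ → X = ∅ := by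
    intro X hX h0
    by_contra hne
    obtain ⟨x, hx⟩ := nonempty_iff_ne_empty.2 hne
    have h4 := hX hx
    rw [← hp.un] at h4
    obtain ⟨C, hC, hxC⟩ := mem_biUnion.1 h4
    have h5 : C ∈ met P X := mem_met.2 ⟨hC, not_disjoint_iff.2 ⟨x, hx, hxC⟩⟩
    rw [h0] at h5
    exact notMem_empty _ h5
  have key := (h.nul hg).types (Vs := P) (A := met P A1) (B := met P A2) (C := met P A3)
    met_subset met_subset met_subset (fun C _ => h.one hg C)
    (fun C hC D hD hne => h.pair hg hC hD hne) (by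
      intro C1 hC1 C2 hC2 C3 hC3 h12 h13 h23
      by_contra hcon
      push Not at hcon
      obtain ⟨x, hx, hxC⟩ := hmet A1 C1 hC1
      obtain ⟨y, hy, hyC⟩ := hmet A2 C2 hC2
      obtain ⟨z, hz, hzC⟩ := hmet A3 C3 hC3
      have hd := hp.dj
      have hC1P := met_subset hC1
      have hC2P := met_subset hC2
      have hC3P := met_subset hC3
      have hxy : x ≠ y := by
        rintro rfl
        exact disjoint_left.1 (hd C1 hC1P C2 hC2P h12) hxC hyC
      have hxz : x ≠ z := by
        rintro rfl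
        exact disjoint_left.1 (hd C1 hC1P C3 hC3P h13) hxC hzC
      have hyz : y ≠ z := by
        rintro rfl
        exact disjoint_left.1 (hd C2 hC2P C3 hC3P h23) hyC hzC
      have h4 := hno x hx y hy z hz hxy hxz hyz
      set f : Finset L → L := fun D => if D = C1 then x else if D = C2 then y else z with hf
      have e1 : f C1 = x := by simp [hf]
      have e2 : f C2 = y := by simp [hf, h12.symm]
      have e3 : f C3 = z := by simp [hf, h13.symm, h23.symm]
      have h5 := hp.free_leaves hg (S := {C1, C2, C3}) (by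
        intro D hD
        rw [mem_insert, mem_insert, mem_singleton] at hD
        rcases hD with rfl | rfl | rfl <;> assumption) hcon (x := f) (by
        intro D hD
        rw [mem_insert, mem_insert, mem_singleton] at hD
        rcases hD with rfl | rfl | rfl
        · rw [e1]
          exact hxC
        · rw [e2]
          exact hyC
        · rw [e3]
          exact hzC)
      have h6 : ({C1, C2, C3} : Finset (Finset L)).image f = {x, y, z} := by
        rw [image_insert, image_insert, image_singleton, e1, e2, e3]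
      rw [h6] at h5
      omega)
  rw [← met_union, ← met_union] at key
  have hs : ∀ X ⊆ F, ∀ C ∈ P, met P X = {C} → X ⊆ C := fun X hX C hC he =>
    hp.met_single hX (by rw [he]) hC
  rcases key with h4 | h4 | h4 | ⟨C, hC, h4, h5⟩ | ⟨C, hC, h4, h5⟩ | ⟨C, hC, h4, h5⟩ | h4
  · exact Or.inl (hempty A1 h1 h4)
  · exact Or.inr (Or.inl (hempty A2 h2 h4))
  · exact Or.inr (Or.inr (Or.inl (hempty A3 h3 h4)))
  · exact Or.inr (Or.inr (Or.inr (Or.inl ⟨C, hC, hs _ h1 C hC h4, hs _ h2 C hC h5⟩)))
  · exact Or.inr (Or.inr (Or.inr (Or.inr (Or.inl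
      ⟨C, hC, hs _ h1 C hC h4, hs _ h3 C hC h5⟩))))
  · exact Or.inr (Or.inr (Or.inr (Or.inr (Or.inr (Or.inl
      ⟨C, hC, hs _ h2 C hC h4, hs _ h3 C hC h5⟩)))))
  · exact Or.inr (Or.inr (Or.inr (Or.inr (Or.inr (Or.inr h4)))))

end

end Pool.Agent.Hyp6.Sp
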