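import Pool.Agent.Hyp6.L3Nd
import Pool.Agent.Hyp6.L3Ty

/-!
# HYP6 L3Tz: refusals at a class from the matroid of the classes

`slf B F p`: the leaves seen by the point `p`. `Frm.no_match`: the points of some triples of the
packing have no common free transversal. `Frm.cost`: third points matched outside a class, the other
points of the triples cost as many blocks as there are triples.
-/

set_option autoImplicit false

namespace Pool.Agent.Hyp6

open Finset Pool.Agent.Hyp5

universe u v

variable {V : Type v} [DecidableEq V] {ι : Type u} {B : ι → Finset V}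

/-- the leaves seen by a point. -/
noncomputable def slf (B : ι → Finset V) (F : Finset (Finset V)) (p : V) : Finset (Finset V) :=
  nbF (gr B) F {p}

omit [DecidableEq V] in
theorem mem_slf {F : Finset (Finset V)} {p : V} {C : Finset V} :
    C ∈ slf B F p ↔ C ∈ F ∧ ∃ y ∈ C, (gr B).Adj p y := by
  unfold slf
  rw [mem_nbF]
  simp

omit [DecidableEq V] in
theorem slf_sub {F : Finset (Finset V)} {p : V} : slf B F p ⊆ F := nbF_sub

/-- a matching from the vanishing of the deficiency. -/
theorem mtI_of_dfc {F A : Finset (Finset V)} {W : Finset V}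
    (h : Sp.dfc W (slf B F) A ≤ 0) : ∃ g : V → Finset V, MtI B W (F \ A) g := by
  classical
  obtain ⟨f, hf, hf2⟩ := Sp.exists_match h
  refine ⟨fun u => if hu : u ∈ W then f ⟨u, hu⟩ else ∅, fun p hp => ?_, fun p hp => ?_,
    fun p hp q hq he => ?_⟩
  · obtain ⟨h1, h2⟩ := hf2 ⟨p, hp⟩
    rw [dif_pos hp]
    exact mem_sdiff.2 ⟨slf_sub h1, h2⟩
  · obtain ⟨h1, h2⟩ := hf2 ⟨p, hp⟩
    rw [dif_pos hp]
    exact (mem_slf.1 h1).2
  · rw [dif_pos hp, dif_pos hq] at he
    exact congrArg Subtype.val (hf he)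

/-- gluing two matchings. -/
theorem MtI.glue {P1 P2 : Finset V} {A A1 : Finset (Finset V)} {g x : V → Finset V}
    (h1 : MtI B P1 A1 g) (h2 : ∀ p ∈ P2, x p ∈ A ∧ ∃ y ∈ x p, (gr B).Adj p y)
    (hinj : ∀ p ∈ P2, ∀ q ∈ P2, x p = x q → p = q) (hA : A1 ⊆ A)
    (hd : ∀ p ∈ P2, x p ∉ A1) (hdis : Disjoint P1 P2) :
    MtI B (P1 ∪ P2) A (fun p => if p ∈ P2 then x p else g p) := by
  have hP1 : ∀ p ∈ P1, p ∉ P2 := fun p hp hp' => disjoint_left.1 hdis hp hp'
  refine ⟨fun p hp => ?_, fun p hp => ?_, fun p hp q hq he => ?_⟩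
  · by_cases hp2 : p ∈ P2
    · rw [if_pos hp2]
      exact (h2 p hp2).1
    · rw [if_neg hp2]
      exact hA (h1.mem p ((mem_union.1 hp).resolve_right hp2))
  · by_cases hp2 : p ∈ P2
    · rw [if_pos hp2]
      exact (h2 p hp2).2
    · rw [if_neg hp2]
      exact h1.see p ((mem_union.1 hp).resolve_right hp2)
  · by_cases hp2 : p ∈ P2
    · by_cases hq2 : q ∈ P2
      · rw [if_pos hp2, if_pos hq2] at he
        exact hinj p hp2 q hq2 he
      · rw [if_pos hp2, if_neg hq2] at he
        exact absurd (he ▸ h1.mem q ((mem_union.1 hq).resolve_right hq2)) (hd p hp2)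
    · by_cases hq2 : q ∈ P2
      · rw [if_neg hp2, if_pos hq2] at he
        exact absurd (he ▸ h1.mem p ((mem_union.1 hp).resolve_right hp2)) (hd q hq2)
      · rw [if_neg hp2, if_neg hq2] at he
        exact h1.inj p ((mem_union.1 hp).resolve_right hp2) q
          ((mem_union.1 hq).resolve_right hq2) he

variable [Fintype ι]

namespace Frm

variable {Q U : Finset V} {T : Finset ι} {F : Finset (Finset V)}

omit [Fintype ι] in
/-- the points of the triples are outside `U` and the leaves. -/
theorem T_out (h : Frm B Q T U F) {j : ι} (hj : j ∈ T) {v : V} (hv : v ∈ B j ∩ Q) :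
    v ∉ U ∧ ∀ C ∈ F, v ∉ C := by
  obtain ⟨h1, h2⟩ := mem_inter.1 hv
  have h3 : v ∉ Dp B Q T := fun h4 => (mem_sdiff.1 h4).2 (mem_biUnion.2 ⟨j, hj, h1⟩)
  exact ⟨fun h4 => h3 (h.UD h4), fun C hC h4 => h3 (h.FD hC h4)⟩

/-- **the cost of a family of triples at a class**: the third points `R` are matched by `x` into
leaves outside the class, the other points of `U` are matched outside the class and the leaves used.
-/
theorem cost (h : Frm B Q T U F) {A : Finset (Finset V)} (hA : A ⊆ F) {D : Finset V}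
    (hD : Dcl B Q T U F D) {T' : Finset ι} (hT' : T' ⊆ T) {U' : Finset V} (hU' : U' ⊆ U)
    {g' : V → Finset V} (hg' : MtI B U' A g') {I : Finset ι} (hI : I ⊆ T) (hIT : Disjoint I T')
    {P R : Finset V} (hP : P ⊆ Q) (hcI : ∀ j ∈ I, ∀ v ∈ B j ∩ Q, v ∈ P ∨ v ∈ R)
    (hR : R ⊆ I.biUnion B ∩ Q) {x : V → Finset V} (hx : ∀ p ∈ R, x p ∈ slf B F p ∧ x p ∉ A)
    (hinj : ∀ p ∈ R, ∀ q ∈ R, x p = x q → p = q)
    (hdf : Sp.dfc (U \ U') (slf B F) (A ∪ R.image x) ≤ 0) :
    rho B (Zn B Q T' U' A D) + I.card ≤ rho B (Zn B Q T' U' A D ∪ P) := by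
  classical
  obtain ⟨g, hg⟩ := mtI_of_dfc hdf
  have hUQ : U ⊆ Q := h.UD.trans DQ
  have hRout : ∀ p ∈ R, p ∉ U ∧ ∀ C ∈ F, p ∉ C := by
    intro p hp
    obtain ⟨h1, h2⟩ := mem_inter.1 (hR hp)
    obtain ⟨j, hj, hpj⟩ := mem_biUnion.1 h1
    exact h.T_out (hI hj) (mem_inter.2 ⟨hpj, h2⟩)
  have hglue := hg.glue (P2 := R) (A := F \ A) (x := x)
    (fun p hp => ⟨mem_sdiff.2 ⟨slf_sub (hx p hp).1, (hx p hp).2⟩, (mem_slf.1 (hx p hp).1).2⟩)
    hinj (by
      intro C hC
      obtain ⟨h1, h2⟩ := mem_sdiff.1 hC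
      exact mem_sdiff.2 ⟨h1, fun h3 => h2 (mem_union_left _ h3)⟩)
    (by
      intro p hp h1
      exact (mem_sdiff.1 h1).2 (mem_union_right _ (mem_image_of_mem x hp)))
    (by
      rw [disjoint_left]
      intro p hp hp'
      exact (hRout p hp').1 (mem_sdiff.1 hp).1)
  refine h.cut hA hD hT' hU' hg' hI hIT hP (M := (U \ U') ∪ R) ?_ ?_ ?_ ?_ hglue
  · refine union_subset (sdiff_subset.trans hUQ) ?_
    exact hR.trans inter_subset_right
  · intro v hv hv'
    exact Or.inr (mem_union_left _ (mem_sdiff.2 ⟨hv, hv'⟩))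
  · intro j hj v hv
    rcases hcI j hj v hv with h1 | h1
    · exact Or.inl h1
    · exact Or.inr (mem_union_right _ h1)
  · intro C hC _
    rw [disjoint_left]
    intro v hv hv'
    rcases mem_union.1 hv' with h1 | h1
    · exact disjoint_left.1 (h.ge.FU C hC) hv (mem_sdiff.1 h1).1
    · exact (hRout v h1).2 C hC hv

/-- **no free transversal**: the points of a nonempty family of triples of the packing can not be
matched into leaves outside which `U` is matched. -/
theorem no_match (h : Frm B Q T U F) {I : Finset ι} (hI : I ⊆ T) (hne : I.Nonempty)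
    {x : V → Finset V} (hx : ∀ p ∈ I.biUnion B ∩ Q, x p ∈ slf B F p)
    (hinj : ∀ p ∈ I.biUnion B ∩ Q, ∀ q ∈ I.biUnion B ∩ Q, x p = x q → p = q) :
    0 < Sp.dfc U (slf B F) ((I.biUnion B ∩ Q).image x) := by
  by_contra hcon
  push Not at hcon
  have h1 := h.cost (A := ∅) (empty_subset _) Dcl.empty (T' := ∅) (empty_subset _) (U' := ∅)
    (empty_subset _) (g' := x) ⟨by simp, by simp, by simp⟩ hI (disjoint_empty_right _)
    (P := ∅) (R := I.biUnion B ∩ Q) (empty_subset _)
    (fun j hj v hv => Or.inr (mem_inter.2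
      ⟨mem_biUnion.2 ⟨j, hj, (mem_inter.1 hv).1⟩, (mem_inter.1 hv).2⟩)) (Subset.refl _) (x := x)
    (fun p hp => ⟨hx p hp, notMem_empty _⟩) hinj (by
      rw [sdiff_empty, empty_union]
      exact hcon)
  have h2 : Zn B Q (∅ : Finset ι) ∅ ∅ ∅ = ∅ := by
    unfold Zn
    simp
  rw [h2, union_empty, rho_empty] at h1
  have h3 := card_pos.2 hne
  omega

/-- the case of one triple. -/
theorem no_three (h : Frm B Q T U F) {j : ι} (hj : j ∈ T) {a b c : V}
    (hT : B j ∩ Q = {a, b, c}) (hab : a ≠ b) (hac : a ≠ c) (hbc : b ≠ c) {x y z : Finset V}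
    (hx : x ∈ slf B F a) (hy : y ∈ slf B F b) (hz : z ∈ slf B F c) (hxy : x ≠ y) (hxz : x ≠ z)
    (hyz : y ≠ z) : 0 < Sp.dfc U (slf B F) {x, y, z} := by
  classical
  set f : V → Finset V := fun p => if p = a then x else if p = b then y else z with hf
  have e1 : f a = x := by simp [hf]
  have e2 : f b = y := by simp [hf, hab.symm]
  have e3 : f c = z := by simp [hf, hac.symm, hbc.symm]
  have hI : ({j} : Finset ι).biUnion B ∩ Q = {a, b, c} := by rw [singleton_biUnion, hT]
  have h1 := h.no_match (I := {j}) (singleton_subset_iff.2 hj) (singleton_nonempty j) (x := f) (by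
      rw [hI]
      intro p hp
      rw [mem_insert, mem_insert, mem_singleton] at hp
      rcases hp with rfl | rfl | rfl
      · rw [e1]
        exact hx
      · rw [e2]
        exact hy
      · rw [e3]
        exact hz) (by
      rw [hI]
      intro p hp q hq he
      rw [mem_insert, mem_insert, mem_singleton] at hp hq
      rcases hp with rfl | rfl | rfl
      · rcases hq with rfl | rfl | rfl
        · rfl
        · rw [e1, e2] at he
          exact absurd he hxy
        · rw [e1, e3] at he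
          exact absurd he hxz
      · rcases hq with rfl | rfl | rfl
        · rw [e2, e1] at he
          exact absurd he.symm hxy
        · rfl
        · rw [e2, e3] at he
          exact absurd he hyz
      · rcases hq with rfl | rfl | rfl
        · rw [e3, e1] at he
          exact absurd he.symm hxz
        · rw [e3, e2] at he
          exact absurd he.symm hyz
        · rfl)
  have h2 : ({a, b, c} : Finset V).image f = {x, y, z} := by
    rw [image_insert, image_insert, image_singleton, e1, e2, e3]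
  rwa [hI, h2] at h1

end Frm

end Pool.Agent.Hyp6
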