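import Pool.Agent.Hyp6.L3Dj
import Pool.Agent.Hyp6.L3Mr3
import Pool.Agent.Hyp6.L3Tx
import Pool.Agent.Hyp6.L3Tz

/-!
# HYP6 L3Db: a doubled triple with six hits on a point leaf

`Pex3.no_doubled`: the pattern `Pex3` with `c` in the block `k0` does not occur if the point `x` has no
hits of `U` and no free places and the other leaves seen by `b` and `c` meet one connected set of points
outside the triples.
-/

set_option autoImplicit false

namespace Pool.Agent.Hyp6

open Finset Pool.Agent.Hyp5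

universe u v

variable {V : Type v} [DecidableEq V] {ι : Type u} [Fintype ι] {B : ι → Finset V}

namespace Pex3

variable {Q U : Finset V} {T : Finset ι} {F : Finset (Finset V)} {j i k0 : ι} {a b c x : V}

/-- the doubled pattern is symmetric in `b` and `c`. -/
theorem swapd (h : Pex3 B Q T U F j i k0 a b c x) (hck : c ∈ B k0) :
    Pex3 B Q T U F j i k0 a c b x := by
  have e1 : ∀ v : V, ({v, b, c} : Finset V) = {v, c, b} := fun v => by
    rw [pair_comm b c]
  refine ⟨⟨h.px.frm, h.px.hj, (h.px.hjQ).trans (e1 a), h.px.hx, h.px.hfree,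
    (h.px.hiQ).trans (e1 x), h.px.hi3⟩, h.ha, ?_, fun k h1 h2 => (h.hno k h1 h2).symm, h.xk, h.ak,
    hck, h.kj, h.all, ?_, ?_, ?_⟩
  · rw [add_comm]
    exact h.hbc
  · have := h.hm3
    omega
  · have := h.hm4
    omega
  · right
    have h1 := h.ck.resolve_left (fun h2 => h2 hck)
    omega

/-- the points outside the triples near a point leaf without hits of `U`. -/
theorem near (h : Pex3 B Q T U F j i k0 a b c x) (g0 : hit B U {x} = 0) {k : ι} (hk : x ∈ B k)
    {v : V} (hv : v ∈ B k) (hvQ : v ∈ Q) (hvx : v ≠ x) : ∃ t ∈ T, v ∈ B t := by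
  by_contra hcon
  push Not at hcon
  have hvD : v ∈ Dp B Q T := mem_sdiff.2 ⟨hvQ, fun h1 => by
    obtain ⟨t, ht, hvt⟩ := mem_biUnion.1 h1
    exact hcon t ht hvt⟩
  have hvU : v ∉ U := by
    intro h1
    have h2 : (B k ∩ U).card ≤ hit B U {x} := by
      unfold hit
      exact single_le_sum (f := fun i => (B i ∩ U).card) (fun i _ => Nat.zero_le _)
        (cost_mem_tch.2 ⟨x, mem_inter.2 ⟨hk, mem_singleton_self x⟩⟩)
    have h3 : 0 < (B k ∩ U).card := card_pos.2 ⟨v, mem_inter.2 ⟨hv, h1⟩⟩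
    omega
  have hcl := h.px.frm.ge.sys.closed {x} h.px.hx
  have h4 := hcl.2 x (mem_singleton_self x) v (mem_sdiff.2 ⟨hvD, hvU⟩) ⟨hvx.symm, k, hk, hv⟩
  exact hvx (mem_singleton.1 h4)

/-- **the doubled pattern, `b` in the fifth block of `x`.** -/
theorem no_doubled_b [DecidableEq ι] (h : Pex3 B Q T U F j i k0 a b c x) (hv : ViolR B Q)
    (hck : c ∈ B k0) (g0 : hit B U {x} = 0) (f0 : fs B Q {x} = 0) {R : ι} (hxR : x ∈ B R)
    (hbR : b ∈ B R) (hRi : R ≠ i) {K : Finset V}
    (KD : K ⊆ Dp B Q T) (hxK : x ∉ K) (hKc : Conn (gr B) K)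
    (hKm : ∀ k, b ∈ B k ∨ c ∈ B k → (B k ∩ (F.erase {x}).biUnion id).Nonempty →
      (B k ∩ K).Nonempty) : False := by
  obtain ⟨hab, hac, hbc⟩ := h.px.ne
  obtain ⟨hxa, hxb, hxc⟩ := h.px.x_ne
  have hjT := h.px.hj
  have hxD := h.px.xD
  have hxQ : x ∈ Q := Frm.DQ hxD
  have haQ := h.px.aQ
  have hbQ : b ∈ Q := (mem_inter.1 (by rw [h.px.hjQ]; simp : b ∈ B j ∩ Q)).2
  have hcQ : c ∈ Q := (mem_inter.1 (by rw [h.px.hjQ]; simp : c ∈ B j ∩ Q)).2
  have haj : a ∈ B j := h.px.aj
  have hbj : b ∈ B j := (mem_inter.1 (by rw [h.px.hjQ]; simp : b ∈ B j ∩ Q)).1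
  have hcj : c ∈ B j := (mem_inter.1 (by rw [h.px.hjQ]; simp : c ∈ B j ∩ Q)).1
  have hxi : x ∈ B i := (mem_inter.1 (by rw [h.px.hiQ]; simp : x ∈ B i ∩ Q)).1
  have hbi : b ∈ B i := (mem_inter.1 (by rw [h.px.hiQ]; simp : b ∈ B i ∩ Q)).1
  have hci : c ∈ B i := (mem_inter.1 (by rw [h.px.hiQ]; simp : c ∈ B i ∩ Q)).1
  have hai : a ∉ B i := fun h1 => (h.hno i hxi h1).1 hbi
  have haR : a ∉ B R := fun h1 => (h.hno R hxR h1).1 hbR
  have hxj : x ∉ B j := fun h1 => Frm.T_notD hjT h1 hxD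
  -- the hits of b and c on x
  have hcR : c ∉ B R := by
    intro h1
    have h2 : ({i, R} : Finset ι) ⊆ univ.filter fun k => x ∈ B k ∧ b ∈ B k := by
      intro k hk
      simp only [mem_insert, mem_singleton] at hk
      rcases hk with rfl | rfl <;> simp [hxi, hbi, hxR, hbR]
    have h3 : ({i, R} : Finset ι) ⊆ univ.filter fun k => x ∈ B k ∧ c ∈ B k := by
      intro k hk
      simp only [mem_insert, mem_singleton] at hk
      rcases hk with rfl | rfl <;> simp [hxi, hci, hxR, h1]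
    have h4 := card_le_card h2
    have h5 := card_le_card h3
    rw [card_pair hRi.symm] at h4 h5
    have h6 := h.hbc
    omega
  -- the three blocks of x and a
  obtain ⟨A0, A1, A2, n01, n02, n12, hAs⟩ := card_eq_three.1 h.ha
  have hAm : ∀ k, (x ∈ B k ∧ a ∈ B k) ↔ (k = A0 ∨ k = A1 ∨ k = A2) := by
    intro k
    have h1 : k ∈ univ.filter (fun k => x ∈ B k ∧ a ∈ B k) ↔ k ∈ ({A0, A1, A2} : Finset ι) := by
      rw [hAs]
    simpa using h1
  set A : Fin 3 → ι := ![A0, A1, A2] with hA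
  have hAx : ∀ l, x ∈ B (A l) ∧ a ∈ B (A l) := by
    intro l
    rw [hAm]
    fin_cases l
    · exact Or.inl rfl
    · exact Or.inr (Or.inl rfl)
    · exact Or.inr (Or.inr rfl)
  have hAe : ∀ k, (x ∈ B k ∧ a ∈ B k) ↔ ∃ l, k = A l := by
    intro k
    rw [hAm]
    constructor
    · rintro (h1 | h1 | h1)
      · exact ⟨0, h1⟩
      · exact ⟨1, h1⟩
      · exact ⟨2, h1⟩
    · rintro ⟨l, rfl⟩
      exact (hAm _).1 (hAx l)
  have hAinj : Function.Injective A := by
    intro l m hlm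
    fin_cases l <;> fin_cases m <;> first | rfl | (exfalso; revert hlm; simp [hA, n01, n02, n12, n01.symm, n02.symm, n12.symm])
  have hAb : ∀ l, b ∉ B (A l) ∧ c ∉ B (A l) := fun l => h.hno _ (hAx l).1 (hAx l).2
  have hAi : ∀ l, A l ≠ i := fun l e => hai (e ▸ (hAx l).2)
  have hAR : ∀ l, A l ≠ R := fun l e => haR (e ▸ (hAx l).2)
  have hAj : ∀ l, A l ≠ j := fun l e => hxj (e ▸ (hAx l).1)
  have hAk : ∀ l, A l ≠ k0 := fun l e => h.xk (e ▸ (hAx l).1)
  -- the blocks of x
  have hbx : ∀ k, x ∈ B k ↔ (∃ l, k = A l) ∨ k = i ∨ k = R := by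
    have h1 : ({A 0, A 1, A 2, i, R} : Finset ι) ⊆ univ.filter fun k => x ∈ B k := by
      intro k hk
      simp only [mem_insert, mem_singleton] at hk
      refine mem_filter.2 ⟨mem_univ _, ?_⟩
      rcases hk with rfl | rfl | rfl | rfl | rfl
      · exact (hAx 0).1
      · exact (hAx 1).1
      · exact (hAx 2).1
      · exact hxi
      · exact hxR
    have h2 : (univ.filter fun k => x ∈ B k).card = 5 := hv.reg x hxQ
    have a01 : A 0 ≠ A 1 := n01
    have a02 : A 0 ≠ A 2 := n02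
    have a12 : A 1 ≠ A 2 := n12
    have h3 := eq_of_subset_of_card_le h1 (by
      rw [h2, card_insert_of_notMem (by simp [a01, a02, hAi, hAR]),
        card_insert_of_notMem (by simp [a12, hAi, hAR]),
        card_insert_of_notMem (by simp [hAi, hAR]), card_pair hRi.symm])
    intro k
    have h4 : k ∈ ({A 0, A 1, A 2, i, R} : Finset ι) ↔ k ∈ univ.filter fun k => x ∈ B k := by
      rw [h3]
    simp only [mem_insert, mem_singleton, mem_filter, mem_univ, true_and] at h4
    rw [← h4]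
    constructor
    · rintro (h5 | h5 | h5 | h5 | h5)
      · exact Or.inl ⟨0, h5⟩
      · exact Or.inl ⟨1, h5⟩
      · exact Or.inl ⟨2, h5⟩
      · exact Or.inr (Or.inl h5)
      · exact Or.inr (Or.inr h5)
    · rintro (⟨l, h5⟩ | h5 | h5)
      · fin_cases l
        · exact Or.inl h5
        · exact Or.inr (Or.inl h5)
        · exact Or.inr (Or.inr (Or.inl h5))
      · exact Or.inr (Or.inr (Or.inr (Or.inl h5)))
      · exact Or.inr (Or.inr (Or.inr (Or.inr h5)))
  -- the blocks of a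
  have hba : ∀ k, a ∈ B k ↔ (∃ l, k = A l) ∨ k = j ∨ k = k0 := by
    intro k
    constructor
    · intro h1
      rcases h.all k h1 with h2 | h2 | h2
      · exact Or.inl ((hAe k).1 ⟨h2, h1⟩)
      · exact Or.inr (Or.inl h2)
      · exact Or.inr (Or.inr h2)
    · rintro (⟨l, rfl⟩ | rfl | rfl)
      · exact (hAx l).2
      · exact haj
      · exact h.ak
  -- the further blocks of b and c
  have hij : i ≠ j := fun e => hxj (e ▸ hxi)
  have hik : i ≠ k0 := fun e => h.xk (e ▸ hxi)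
  have hRj : R ≠ j := fun e => hxj (e ▸ hxR)
  have hRk : R ≠ k0 := fun e => h.xk (e ▸ hxR)
  obtain ⟨B1, hB1⟩ : ∃ B1, (univ.filter fun k => b ∈ B k) \ {i, R, j, k0} = {B1} := by
    rw [← card_eq_one, card_sdiff_of_subset]
    · have h1 : (univ.filter fun k => b ∈ B k).card = 5 := hv.reg b hbQ
      rw [h1, card_insert_of_notMem (by simp [hRi.symm, hij, hik]),
        card_insert_of_notMem (by simp [hRj, hRk]), card_pair h.kj.symm]
    · intro k hk
      simp only [mem_insert, mem_singleton] at hk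
      refine mem_filter.2 ⟨mem_univ _, ?_⟩
      rcases hk with rfl | rfl | rfl | rfl
      · exact hbi
      · exact hbR
      · exact hbj
      · exact h.bk
  obtain ⟨C1, C2, hCC, hC⟩ : ∃ C1 C2, C1 ≠ C2 ∧
      (univ.filter fun k => c ∈ B k) \ {i, j, k0} = {C1, C2} := by
    rw [← card_eq_two, card_sdiff_of_subset]
    · have h1 : (univ.filter fun k => c ∈ B k).card = 5 := hv.reg c hcQ
      rw [h1, card_insert_of_notMem (by simp [hij, hik]), card_pair h.kj.symm]
    · intro k hk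
      simp only [mem_insert, mem_singleton] at hk
      refine mem_filter.2 ⟨mem_univ _, ?_⟩
      rcases hk with rfl | rfl | rfl
      · exact hci
      · exact hcj
      · exact hck
  have hbB : ∀ k, b ∈ B k ∧ k ≠ i ∧ k ≠ R ∧ k ≠ j ∧ k ≠ k0 ↔ k = B1 := by
    intro k
    have h1 : k ∈ (univ.filter fun k => b ∈ B k) \ {i, R, j, k0} ↔ k ∈ ({B1} : Finset ι) := by
      rw [hB1]
    simpa only [mem_sdiff, mem_filter, mem_univ, true_and, mem_insert, mem_singleton,
      not_or] using h1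
  have hcC : ∀ k, c ∈ B k ∧ k ≠ i ∧ k ≠ j ∧ k ≠ k0 ↔ k = C1 ∨ k = C2 := by
    intro k
    have h1 : k ∈ (univ.filter fun k => c ∈ B k) \ {i, j, k0} ↔ k ∈ ({C1, C2} : Finset ι) := by
      rw [hC]
    simpa only [mem_sdiff, mem_filter, mem_univ, true_and, mem_insert, mem_singleton,
      not_or] using h1
  obtain ⟨bB1, p1, p2, p3, p4⟩ := (hbB B1).2 rfl
  obtain ⟨cC1, p5, p6, p7⟩ := (hcC C1).2 (Or.inl rfl)
  obtain ⟨cC2, p8, p9, p10⟩ := (hcC C2).2 (Or.inr rfl)
  have hbb : ∀ k, b ∈ B k ↔ k = i ∨ k = R ∨ k = j ∨ k = k0 ∨ k = B1 := by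
    intro k
    constructor
    · intro h1
      by_contra hcon
      push Not at hcon
      exact hcon.2.2.2.2 ((hbB k).1 ⟨h1, hcon.1, hcon.2.1, hcon.2.2.1, hcon.2.2.2.1⟩)
    · rintro (rfl | rfl | rfl | rfl | rfl)
      · exact hbi
      · exact hbR
      · exact hbj
      · exact h.bk
      · exact bB1
  have hcc : ∀ k, c ∈ B k ↔ k = i ∨ k = j ∨ k = k0 ∨ k = C1 ∨ k = C2 := by
    intro k
    constructor
    · intro h1
      by_contra hcon
      push Not at hcon
      rcases (hcC k).1 ⟨h1, hcon.1, hcon.2.1, hcon.2.2.1⟩ with h2 | h2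
      · exact hcon.2.2.2.1 h2
      · exact hcon.2.2.2.2 h2
    · rintro (rfl | rfl | rfl | rfl | rfl)
      · exact hci
      · exact hcj
      · exact hck
      · exact cC1
      · exact cC2
  -- they meet other leaves
  set Wl := (F.erase {x}).biUnion id with hWl
  have m1 : univ.filter (fun k => b ∈ B k ∧ (B k ∩ Wl).Nonempty) ⊆ {B1} := by
    intro k hk
    obtain ⟨_, h1, h2⟩ := mem_filter.1 hk
    rw [mem_singleton]
    rcases (hbb k).1 h1 with rfl | rfl | rfl | rfl | h3
    · exact absurd h2 (h.px.x_sep hxi)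
    · exact absurd h2 (h.px.x_sep hxR)
    · exact absurd h2 (h.px.a_sep haj)
    · exact absurd h2 (h.px.a_sep h.ak)
    · exact h3
  have m2 : univ.filter (fun k => c ∈ B k ∧ (B k ∩ Wl).Nonempty) ⊆ {C1, C2} := by
    intro k hk
    obtain ⟨_, h1, h2⟩ := mem_filter.1 hk
    rw [mem_insert, mem_singleton]
    rcases (hcc k).1 h1 with rfl | rfl | rfl | h3
    · exact absurd h2 (h.px.x_sep hxi)
    · exact absurd h2 (h.px.a_sep haj)
    · exact absurd h2 (h.px.a_sep h.ak)
    · exact h3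
  have m3 := h.hm3
  unfold mh at m3
  rw [← hWl] at m3
  have m4 := card_le_card m1
  have m5 := card_le_card m2
  rw [card_singleton] at m4
  rw [card_pair hCC] at m5
  have m6 := eq_of_subset_of_card_le m1 (by rw [card_singleton]; omega)
  have m7 := eq_of_subset_of_card_le m2 (by rw [card_pair hCC]; omega)
  have mB : (B B1 ∩ Wl).Nonempty := by
    have h1 : B1 ∈ univ.filter (fun k => b ∈ B k ∧ (B k ∩ Wl).Nonempty) := by
      rw [m6]
      exact mem_singleton_self _
    exact (mem_filter.1 h1).2.2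
  have mC1 : (B C1 ∩ Wl).Nonempty := by
    have h1 : C1 ∈ univ.filter (fun k => c ∈ B k ∧ (B k ∩ Wl).Nonempty) := by
      rw [m7]
      simp
    exact (mem_filter.1 h1).2.2
  have mC2 : (B C2 ∩ Wl).Nonempty := by
    have h1 : C2 ∈ univ.filter (fun k => c ∈ B k ∧ (B k ∩ Wl).Nonempty) := by
      rw [m7]
      simp
    exact (mem_filter.1 h1).2.2
  -- b and c have no further common block
  have hbcc : ∀ k, b ∈ B k → c ∈ B k → k = i ∨ k = j ∨ k = k0 := by
    intro k h1 h2
    by_contra hcon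
    push Not at hcon
    have h3 : ({i, j, k0, k} : Finset ι) ⊆ univ.filter fun k => b ∈ B k ∧ c ∈ B k := by
      intro k' hk
      simp only [mem_insert, mem_singleton] at hk
      refine mem_filter.2 ⟨mem_univ _, ?_⟩
      rcases hk with rfl | rfl | rfl | rfl
      · exact ⟨hbi, hci⟩
      · exact ⟨hbj, hcj⟩
      · exact ⟨h.bk, hck⟩
      · exact ⟨h1, h2⟩
    have h4 := card_le_card h3
    rw [card_insert_of_notMem (by simp [hij, hik, hcon.1.symm]),
      card_insert_of_notMem (by simp [h.kj.symm, hcon.2.1.symm]),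
      card_pair hcon.2.2.symm] at h4
    have h5 := hv.twin hbQ hcQ hbc
    omega
  -- the third points
  have hfull : ∀ k, x ∈ B k → (B k ∩ Q).card = 3 := by
    intro k hk
    have h1 : ∀ i ∈ tch B {x}, 0 ≤ (3 - ((B i ∩ Q).card : ℤ)) := by
      intro i _
      have := hv.tr i
      omega
    have h2 := (sum_eq_zero_iff_of_nonneg h1).1 f0 k
      (cost_mem_tch.2 ⟨x, mem_inter.2 ⟨hk, mem_singleton_self x⟩⟩)
    omega
  have third : ∀ k p, x ∈ B k → p ∈ B k → p ∈ Q → x ≠ p → ∃ w, w ≠ x ∧ w ≠ p ∧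
      B k ∩ Q = {x, p, w} := by
    intro k p hk hp hpQ hne
    have h1 := hfull k hk
    have h2 : ({x, p} : Finset V) ⊆ B k ∩ Q := by
      intro v hv
      simp only [mem_insert, mem_singleton] at hv
      rcases hv with rfl | rfl
      · exact mem_inter.2 ⟨hk, hxQ⟩
      · exact mem_inter.2 ⟨hp, hpQ⟩
    have h3 : ((B k ∩ Q) \ {x, p}).card = 1 := by
      rw [card_sdiff_of_subset h2, h1, card_pair hne]
    obtain ⟨w, hw⟩ := card_eq_one.1 h3
    have h4 : w ∈ (B k ∩ Q) \ {x, p} := by rw [hw]; exact mem_singleton_self w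
    obtain ⟨h5, h6⟩ := mem_sdiff.1 h4
    simp only [mem_insert, mem_singleton, not_or] at h6
    refine ⟨w, h6.1, h6.2, ?_⟩
    ext v
    by_cases h7 : v ∈ ({x, p} : Finset V)
    · have h8 := h2 h7
      simp only [mem_insert, mem_singleton] at h7 ⊢
      tauto
    · have h8 : v ∈ (B k ∩ Q) \ {x, p} ↔ v = w := by rw [hw, mem_singleton]
      rw [mem_sdiff] at h8
      simp only [mem_insert, mem_singleton] at h7 h8 ⊢
      tauto
  choose y yx ya hy using fun l => third (A l) a (hAx l).1 (hAx l).2 haQ hxa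
  obtain ⟨y4, y4x, y4b, hy4⟩ := third R b hxR hbR hbQ hxb
  have yin : ∀ l, y l ∈ B (A l) ∧ y l ∈ Q := fun l =>
    mem_inter.1 (by rw [hy l]; simp : y l ∈ B (A l) ∩ Q)
  have y4in : y4 ∈ B R ∧ y4 ∈ Q := mem_inter.1 (by rw [hy4]; simp : y4 ∈ B R ∩ Q)
  choose Tl hTl hyT using fun l => h.near g0 (hAx l).1 (yin l).1 (yin l).2 (yx l)
  obtain ⟨t4, ht4, hy4T⟩ := h.near g0 hxR y4in.1 y4in.2 y4x
  have hk0Q : B k0 ∩ Q = {a, b, c} := by
    symm
    refine eq_of_subset_of_card_le ?_ ?_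
    · intro v hv
      simp only [mem_insert, mem_singleton] at hv
      rcases hv with rfl | rfl | rfl
      · exact mem_inter.2 ⟨h.ak, haQ⟩
      · exact mem_inter.2 ⟨h.bk, hbQ⟩
      · exact mem_inter.2 ⟨hck, hcQ⟩
    · rw [card_insert_of_notMem (by simp [hab, hac]), card_pair hbc]
      exact hv.tr k0
  have yb : ∀ l, y l ≠ b := fun l e => (hAb l).1 (e ▸ (yin l).1)
  have yc : ∀ l, y l ≠ c := fun l e => (hAb l).2 (e ▸ (yin l).1)
  have y4a : y4 ≠ a := fun e => haR (e ▸ y4in.1)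
  have y4c : y4 ≠ c := fun e => hcR (e ▸ y4in.1)
  -- a triple with a point outside of {a, b, c} contains none of the four points
  have tri : ∀ t ∈ T, ∀ v ∈ B t, v ∈ Q → v ≠ a → v ≠ b → v ≠ c →
      x ∉ B t ∧ a ∉ B t ∧ b ∉ B t ∧ c ∉ B t := by
    intro t ht v hvt hvQ v1 v2 v3
    have htj : t ≠ j := by
      rintro rfl
      have h1 : v ∈ B t ∩ Q := mem_inter.2 ⟨hvt, hvQ⟩
      rw [h.px.hjQ] at h1
      simp only [mem_insert, mem_singleton] at h1
      rcases h1 with h2 | h2 | h2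
      · exact v1 h2
      · exact v2 h2
      · exact v3 h2
    have hd := h.px.frm.mtp.tpk.pack.disj t ht j hjT htj
    rw [disjoint_left] at hd
    exact ⟨fun h1 => Frm.T_notD ht h1 hxD,
      fun h1 => hd (mem_inter.2 ⟨h1, haQ⟩) (mem_inter.2 ⟨haj, haQ⟩),
      fun h1 => hd (mem_inter.2 ⟨h1, hbQ⟩) (mem_inter.2 ⟨hbj, hbQ⟩),
      fun h1 => hd (mem_inter.2 ⟨h1, hcQ⟩) (mem_inter.2 ⟨hcj, hcQ⟩)⟩
  have trl := fun l => tri (Tl l) (hTl l) (y l) (hyT l) (yin l).2 (ya l) (yb l) (yc l)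
  have tr4 := tri t4 ht4 y4 hy4T y4in.2 y4a y4b y4c
  have KQ : K ⊆ Q := KD.trans Frm.DQ
  have hD : DblC B Q K x a b c A i R j k0 B1 C1 C2 y y4 Tl := by
    refine
      { viol := hv
        xQ := hxQ
        aQ := haQ
        bQ := hbQ
        cQ := hcQ
        xa := hxa
        xb := hxb
        xc := hxc
        ab := hab
        ac := hac
        bc := hbc
        hA := hy
        hP := h.px.hiQ
        hR := hy4
        hj := h.px.hjQ
        hk := hk0Q
        bx := hbx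
        ba := hba
        bb := hbb
        bcc := hcc
        Ainj := hAinj
        jk := h.kj.symm
        CC := hCC
        B1x := fun h1 => h.px.x_sep h1 mB
        B1a := fun h1 => h.px.a_sep h1 mB
        B1c := fun h1 => ?_
        C1x := fun h1 => h.px.x_sep h1 mC1
        C1a := fun h1 => h.px.a_sep h1 mC1
        C1b := fun h1 => ?_
        C2x := fun h1 => h.px.x_sep h1 mC2
        C2a := fun h1 => h.px.a_sep h1 mC2
        C2b := fun h1 => ?_
        yQ := fun l => (yin l).2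
        yx := yx
        ya := ya
        yb := yb
        yc := yc
        y4Q := y4in.2
        y4x := y4x
        y4a := y4a
        y4b := y4b
        y4c := y4c
        t3 := fun l => h.px.frm.mtp.tpk.pack.card _ (hTl l)
        ty := hyT
        tx := fun l => (trl l).1
        ta := fun l => (trl l).2.1
        tb := fun l => (trl l).2.2.1
        tc := fun l => (trl l).2.2.2
        tt := fun l m => ?_
        KQ := KQ
        Kx := hxK
        Ka := fun h1 => h.px.notD (z := a) (by simp) (KD h1)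
        Kb := fun h1 => h.px.notD (z := b) (by simp) (KD h1)
        Kc := fun h1 => h.px.notD (z := c) (by simp) (KD h1)
        Kconn := hKc
        Ky := fun l v hvK hvT => Frm.T_notD (hTl l) hvT (KD hvK)
        Ky4 := fun h1 => Frm.T_notD ht4 hy4T (KD h1)
        KB := hKm _ (Or.inl bB1) mB
        KC1 := hKm _ (Or.inr cC1) mC1
        KC2 := hKm _ (Or.inr cC2) mC2 }
    · rcases hbcc _ bB1 h1 with h2 | h2 | h2
      · exact p1 h2
      · exact p3 h2
      · exact p4 h2
    · rcases hbcc _ h1 cC1 with h2 | h2 | h2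
      · exact p5 h2
      · exact p6 h2
      · exact p7 h2
    · rcases hbcc _ h1 cC2 with h2 | h2 | h2
      · exact p8 h2
      · exact p9 h2
      · exact p10 h2
    · by_cases h1 : Tl l = Tl m
      · exact Or.inl h1
      · exact Or.inr (h.px.frm.mtp.tpk.pack.disj _ (hTl l) _ (hTl m) h1)
  refine hD.false ⟨t4, hy4T, ?_⟩
  rintro ⟨v, hv⟩
  obtain ⟨h1, h2⟩ := mem_inter.1 hv
  simp only [mem_insert, mem_singleton] at h2
  rcases h2 with rfl | rfl | rfl | rfl
  · exact tr4.1 h1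
  · exact tr4.2.1 h1
  · exact tr4.2.2.1 h1
  · exact tr4.2.2.2 h1

/-- **a doubled triple with six hits on a point leaf without hits of `U` and without free places has its
other hits not on one connected set.** -/
theorem no_doubled [DecidableEq ι] (h : Pex3 B Q T U F j i k0 a b c x) (hv : ViolR B Q)
    (hck : c ∈ B k0) (g0 : hit B U {x} = 0) (f0 : fs B Q {x} = 0) {K : Finset V}
    (KD : K ⊆ Dp B Q T) (hxK : x ∉ K) (hKc : Conn (gr B) K)
    (hKm : ∀ k, b ∈ B k ∨ c ∈ B k → (B k ∩ (F.erase {x}).biUnion id).Nonempty →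
      (B k ∩ K).Nonempty) : False := by
  have hxi : x ∈ B i := (mem_inter.1 (by rw [h.px.hiQ]; simp : x ∈ B i ∩ Q)).1
  have hbi : b ∈ B i := (mem_inter.1 (by rw [h.px.hiQ]; simp : b ∈ B i ∩ Q)).1
  have hci : c ∈ B i := (mem_inter.1 (by rw [h.px.hiQ]; simp : c ∈ B i ∩ Q)).1
  have key : ∃ R, x ∈ B R ∧ R ≠ i ∧ (b ∈ B R ∨ c ∈ B R) := by
    by_contra hcon
    push Not at hcon
    have h1 : (univ.filter fun k => x ∈ B k ∧ b ∈ B k) ⊆ {i} := by
      intro k hk
      obtain ⟨_, h2, h3⟩ := mem_filter.1 hk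
      rw [mem_singleton]
      by_contra h4
      exact (hcon k h2 h4).1 h3
    have h2 : (univ.filter fun k => x ∈ B k ∧ c ∈ B k) ⊆ {i} := by
      intro k hk
      obtain ⟨_, h2, h3⟩ := mem_filter.1 hk
      rw [mem_singleton]
      by_contra h4
      exact (hcon k h2 h4).2 h3
    have h3 := card_le_card h1
    have h4 := card_le_card h2
    rw [card_singleton] at h3 h4
    have h5 := h.hbc
    omega
  obtain ⟨R, hxR, hRi, hbR | hcR⟩ := key
  · exact h.no_doubled_b hv hck g0 f0 hxR hbR hRi KD hxK hKc hKm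
  · exact (h.swapd hck).no_doubled_b hv h.bk g0 f0 hxR hcR hRi KD hxK hKc
      (fun k hk => hKm k hk.symm)

/-- the version for one other leaf. -/
theorem no_doubled_leaf [DecidableEq ι] (h : Pex3 B Q T U F j i k0 a b c x) (hv : ViolR B Q)
    (hck : c ∈ B k0) (g0 : hit B U {x} = 0) (f0 : fs B Q {x} = 0) {M : Finset V} (hM : M ∈ F)
    (hMx : M ≠ {x}) (hMc : Conn (gr B) M) (hKm : ∀ k, b ∈ B k ∨ c ∈ B k → ∀ L ∈ F, L ≠ {x} →
      (B k ∩ L).Nonempty → L = M) : False := by
  refine h.no_doubled hv hck g0 f0 (h.px.frm.FD hM) ?_ hMc ?_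
  · intro h1
    exact disjoint_left.1 (h.px.frm.ge.sys.disj M hM {x} h.px.hx hMx) h1 (mem_singleton_self x)
  · rintro k hk ⟨y, hy⟩
    obtain ⟨hy1, hy2⟩ := mem_inter.1 hy
    obtain ⟨L, hL, hyL⟩ := mem_biUnion.1 hy2
    obtain ⟨hne, hLF⟩ := mem_erase.1 hL
    rw [← hKm k hk L hLF hne ⟨y, mem_inter.2 ⟨hy1, hyL⟩⟩]
    exact ⟨y, mem_inter.2 ⟨hy1, hyL⟩⟩

end Pex3

end Pool.Agent.Hyp6
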