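import Pool.Agent.Hyp6.L3Da
import Pool.Agent.Hyp6.L3Tw

/-!
# HYP6 L3Dc: the doubled configuration

`DblC`: a point `x` with three blocks `x, a, y l`, a block `x, b, c`, a block `x, b, y4`, two blocks
`a, b, c`, one further block of `b` and two further blocks of `c`. `DblC.build`: the data of a general
deletion of `x, a, b, c` from a left and a right family of new blocks.
-/

set_option autoImplicit false

namespace Pool.Agent.Hyp6

open Finset Pool.Agent.Hyp5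

universe u v

variable {V : Type v} [DecidableEq V] {ι : Type u} [Fintype ι] {B : ι → Finset V}

/-- the doubled configuration. -/
structure DblC (B : ι → Finset V) (Q K : Finset V) (x a b c : V) (A : Fin 3 → ι)
    (P R j k0 B1 C1 C2 : ι) (y : Fin 3 → V) (y4 : V) (T : Fin 3 → ι) : Prop where
  viol : ViolR B Q
  xQ : x ∈ Q
  aQ : a ∈ Q
  bQ : b ∈ Q
  cQ : c ∈ Q
  xa : x ≠ a
  xb : x ≠ b
  xc : x ≠ c
  ab : a ≠ b
  ac : a ≠ c
  bc : b ≠ c
  hA : ∀ l, B (A l) ∩ Q = {x, a, y l}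
  hP : B P ∩ Q = {x, b, c}
  hR : B R ∩ Q = {x, b, y4}
  hj : B j ∩ Q = {a, b, c}
  hk : B k0 ∩ Q = {a, b, c}
  bx : ∀ i, x ∈ B i ↔ (∃ l, i = A l) ∨ i = P ∨ i = R
  ba : ∀ i, a ∈ B i ↔ (∃ l, i = A l) ∨ i = j ∨ i = k0
  bb : ∀ i, b ∈ B i ↔ i = P ∨ i = R ∨ i = j ∨ i = k0 ∨ i = B1
  bcc : ∀ i, c ∈ B i ↔ i = P ∨ i = j ∨ i = k0 ∨ i = C1 ∨ i = C2
  Ainj : Function.Injective A
  jk : j ≠ k0
  CC : C1 ≠ C2
  B1x : x ∉ B B1
  B1a : a ∉ B B1
  B1c : c ∉ B B1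
  C1x : x ∉ B C1
  C1a : a ∉ B C1
  C1b : b ∉ B C1
  C2x : x ∉ B C2
  C2a : a ∉ B C2
  C2b : b ∉ B C2
  yQ : ∀ l, y l ∈ Q
  yx : ∀ l, y l ≠ x
  ya : ∀ l, y l ≠ a
  yb : ∀ l, y l ≠ b
  yc : ∀ l, y l ≠ c
  y4Q : y4 ∈ Q
  y4x : y4 ≠ x
  y4a : y4 ≠ a
  y4b : y4 ≠ b
  y4c : y4 ≠ c
  t3 : ∀ l, (B (T l) ∩ Q).card = 3
  ty : ∀ l, y l ∈ B (T l)
  tx : ∀ l, x ∉ B (T l)
  ta : ∀ l, a ∉ B (T l)
  tb : ∀ l, b ∉ B (T l)
  tc : ∀ l, c ∉ B (T l)
  tt : ∀ l m, T l = T m ∨ Disjoint (B (T l) ∩ Q) (B (T m) ∩ Q)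
  KQ : K ⊆ Q
  Kx : x ∉ K
  Ka : a ∉ K
  Kb : b ∉ K
  Kc : c ∉ K
  Kconn : Conn (gr B) K
  Ky : ∀ l, ∀ v ∈ K, v ∉ B (T l)
  Ky4 : y4 ∉ K
  KB : (B B1 ∩ K).Nonempty
  KC1 : (B C1 ∩ K).Nonempty
  KC2 : (B C2 ∩ K).Nonempty

namespace DblC

variable {Q K : Finset V} {x a b c : V} {A : Fin 3 → ι} {P R j k0 B1 C1 C2 : ι} {y : Fin 3 → V}
  {y4 : V} {T : Fin 3 → ι}

/-- the configuration is symmetric in the two further blocks of `c`. -/
theorem swapC (h : DblC B Q K x a b c A P R j k0 B1 C1 C2 y y4 T) :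
    DblC B Q K x a b c A P R j k0 B1 C2 C1 y y4 T :=
  { h with
    bcc := fun i => by
      have h1 := h.bcc i
      tauto
    CC := h.CC.symm
    C1x := h.C2x
    C1a := h.C2a
    C1b := h.C2b
    C2x := h.C1x
    C2a := h.C1a
    C2b := h.C1b
    KC1 := h.KC2
    KC2 := h.KC1 }

/-- the configuration is symmetric in the three blocks of `x` and `a`. -/
theorem perm (h : DblC B Q K x a b c A P R j k0 B1 C1 C2 y y4 T) (s : Equiv.Perm (Fin 3)) :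
    DblC B Q K x a b c (A ∘ s) P R j k0 B1 C1 C2 (y ∘ s) y4 (T ∘ s) :=
  { h with
    hA := fun l => h.hA (s l)
    bx := fun i => by
      rw [h.bx i]
      constructor
      · rintro (⟨l, hl⟩ | h1)
        · exact Or.inl ⟨s.symm l, by simp [hl]⟩
        · exact Or.inr h1
      · rintro (⟨l, hl⟩ | h1)
        · exact Or.inl ⟨s l, hl⟩
        · exact Or.inr h1
    ba := fun i => by
      rw [h.ba i]
      constructor
      · rintro (⟨l, hl⟩ | h1)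
        · exact Or.inl ⟨s.symm l, by simp [hl]⟩
        · exact Or.inr h1
      · rintro (⟨l, hl⟩ | h1)
        · exact Or.inl ⟨s l, hl⟩
        · exact Or.inr h1
    Ainj := h.Ainj.comp s.injective
    yQ := fun l => h.yQ (s l)
    yx := fun l => h.yx (s l)
    ya := fun l => h.ya (s l)
    yb := fun l => h.yb (s l)
    yc := fun l => h.yc (s l)
    t3 := fun l => h.t3 (s l)
    ty := fun l => h.ty (s l)
    tx := fun l => h.tx (s l)
    ta := fun l => h.ta (s l)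
    tb := fun l => h.tb (s l)
    tc := fun l => h.tc (s l)
    tt := fun l m => h.tt (s l) (s m)
    Ky := fun l => h.Ky (s l) }

variable (h : DblC B Q K x a b c A P R j k0 B1 C1 C2 y y4 T)
include h

theorem mA (l : Fin 3) {v : V} (hv : v ∈ Q) : v ∈ B (A l) ↔ v = x ∨ v = a ∨ v = y l := by
  have h1 : v ∈ B (A l) ↔ v ∈ B (A l) ∩ Q := by rw [mem_inter]; tauto
  rw [h1, h.hA]
  simp

theorem mP {v : V} (hv : v ∈ Q) : v ∈ B P ↔ v = x ∨ v = b ∨ v = c := by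
  have h1 : v ∈ B P ↔ v ∈ B P ∩ Q := by rw [mem_inter]; tauto
  rw [h1, h.hP]
  simp

theorem mR {v : V} (hv : v ∈ Q) : v ∈ B R ↔ v = x ∨ v = b ∨ v = y4 := by
  have h1 : v ∈ B R ↔ v ∈ B R ∩ Q := by rw [mem_inter]; tauto
  rw [h1, h.hR]
  simp

theorem mj {v : V} (hv : v ∈ Q) : v ∈ B j ↔ v = a ∨ v = b ∨ v = c := by
  have h1 : v ∈ B j ↔ v ∈ B j ∩ Q := by rw [mem_inter]; tauto
  rw [h1, h.hj]
  simp

theorem mk0 {v : V} (hv : v ∈ Q) : v ∈ B k0 ↔ v = a ∨ v = b ∨ v = c := by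
  have h1 : v ∈ B k0 ↔ v ∈ B k0 ∩ Q := by rw [mem_inter]; tauto
  rw [h1, h.hk]
  simp

theorem cov : Cov B Q := cov_of_reg h.viol.reg

theorem L_Q : ({x, a, b, c} : Finset V) ⊆ Q := by
  intro v hv
  simp only [mem_insert, mem_singleton] at hv
  rcases hv with rfl | rfl | rfl | rfl
  · exact h.xQ
  · exact h.aQ
  · exact h.bQ
  · exact h.cQ

theorem L_card : ({x, a, b, c} : Finset V).card = 4 := by
  rw [card_insert_of_notMem (by simp [h.xa, h.xb, h.xc]),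
    card_insert_of_notMem (by simp [h.ab, h.ac]), card_pair h.bc]

theorem rhoL : rho B ({x, a, b, c} : Finset V) = 2 := by
  classical
  refine le_antisymm ?_ ?_
  · refine rho_le_of ⟨{P, j}, ?_, card_le_two⟩
    intro v hv
    simp only [mem_insert, mem_singleton] at hv
    rw [mem_biUnion]
    rcases hv with rfl | rfl | rfl | rfl
    · exact ⟨P, by simp, (h.mP h.xQ).2 (Or.inl rfl)⟩
    · exact ⟨j, by simp, (h.mj h.aQ).2 (Or.inl rfl)⟩
    · exact ⟨j, by simp, (h.mj h.bQ).2 (Or.inr (Or.inl rfl))⟩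
    · exact ⟨j, by simp, (h.mj h.cQ).2 (Or.inr (Or.inr rfl))⟩
  · by_contra hcon
    obtain ⟨S, hS1, hS2⟩ := exists_cover (h.cov.mono h.L_Q)
    have h1 : S.card ≤ 1 := by omega
    have h2 : ∃ i, ({x, a, b, c} : Finset V) ⊆ B i := by
      obtain ⟨i, hi, hxi⟩ := mem_biUnion.1 (hS1 (by simp : x ∈ ({x, a, b, c} : Finset V)))
      refine ⟨i, fun v hv => ?_⟩
      obtain ⟨i', hi', hvi⟩ := mem_biUnion.1 (hS1 hv)
      have : i' = i := card_le_one.1 h1 i' hi' i hi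
      rw [← this]
      exact hvi
    obtain ⟨i, hi⟩ := h2
    have h3 := card_le_card (subset_inter hi h.L_Q)
    rw [h.L_card] at h3
    have h4 := h.viol.tr i
    omega

/-- the blocks meeting the four points. -/
theorem touch {i : ι} (hi : (B i ∩ ({x, a, b, c} : Finset V)).Nonempty) :
    (∃ l, i = A l) ∨ i = P ∨ i = R ∨ i = j ∨ i = k0 ∨ i = B1 ∨ i = C1 ∨ i = C2 := by
  obtain ⟨v, hv⟩ := hi
  obtain ⟨h1, h2⟩ := mem_inter.1 hv
  simp only [mem_insert, mem_singleton] at h2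
  rcases h2 with rfl | rfl | rfl | rfl
  · have := (h.bx i).1 h1
    tauto
  · have := (h.ba i).1 h1
    tauto
  · have := (h.bb i).1 h1
    tauto
  · have := (h.bcc i).1 h1
    tauto

theorem xA (l : Fin 3) : x ∈ B (A l) := (h.bx _).2 (Or.inl ⟨l, rfl⟩)
theorem aA (l : Fin 3) : a ∈ B (A l) := (h.ba _).2 (Or.inl ⟨l, rfl⟩)
theorem yA (l : Fin 3) : y l ∈ B (A l) := (h.mA l (h.yQ l)).2 (Or.inr (Or.inr rfl))
theorem xR : x ∈ B R := (h.bx _).2 (Or.inr (Or.inr rfl))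
theorem bR : b ∈ B R := (h.bb _).2 (Or.inr (Or.inl rfl))
theorem y4R : y4 ∈ B R := (h.mR h.y4Q).2 (Or.inr (Or.inr rfl))
theorem xP : x ∈ B P := (h.bx _).2 (Or.inr (Or.inl rfl))
theorem bP : b ∈ B P := (h.bb _).2 (Or.inl rfl)
theorem cP : c ∈ B P := (h.bcc _).2 (Or.inl rfl)
theorem aj : a ∈ B j := (h.ba _).2 (Or.inr (Or.inl rfl))
theorem bj : b ∈ B j := (h.bb _).2 (Or.inr (Or.inr (Or.inl rfl)))
theorem cj : c ∈ B j := (h.bcc _).2 (Or.inr (Or.inl rfl))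
theorem bB1 : b ∈ B B1 := (h.bb _).2 (Or.inr (Or.inr (Or.inr (Or.inr rfl))))
theorem cC1 : c ∈ B C1 := (h.bcc _).2 (Or.inr (Or.inr (Or.inr (Or.inl rfl))))
theorem cC2 : c ∈ B C2 := (h.bcc _).2 (Or.inr (Or.inr (Or.inr (Or.inr rfl))))

/-- the ten blocks are different. -/
theorem nd : (∀ l, A l ≠ P) ∧ (∀ l, A l ≠ R) ∧ (∀ l, A l ≠ B1) ∧ (∀ l, A l ≠ C1) ∧
    (∀ l, A l ≠ C2) ∧ (∀ l, A l ≠ j) ∧ (∀ l, A l ≠ k0) ∧ P ≠ R ∧ P ≠ j ∧ P ≠ k0 ∧ P ≠ B1 ∧
    P ≠ C1 ∧ P ≠ C2 ∧ R ≠ j ∧ R ≠ k0 ∧ R ≠ B1 ∧ R ≠ C1 ∧ R ≠ C2 ∧ j ≠ B1 ∧ j ≠ C1 ∧ j ≠ C2 ∧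
    k0 ≠ B1 ∧ k0 ≠ C1 ∧ k0 ≠ C2 ∧ B1 ≠ C1 ∧ B1 ≠ C2 := by
  have aP : a ∉ B P := fun h1 => by
    rcases (h.mP h.aQ).1 h1 with h2 | h2 | h2
    · exact h.xa h2.symm
    · exact h.ab h2
    · exact h.ac h2
  have aR : a ∉ B R := fun h1 => by
    rcases (h.mR h.aQ).1 h1 with h2 | h2 | h2
    · exact h.xa h2.symm
    · exact h.ab h2
    · exact h.y4a h2.symm
  have cR : c ∉ B R := fun h1 => by
    rcases (h.mR h.cQ).1 h1 with h2 | h2 | h2
    · exact h.xc h2.symm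
    · exact h.bc h2.symm
    · exact h.y4c h2.symm
  have xj : x ∉ B j := fun h1 => by
    rcases (h.mj h.xQ).1 h1 with h2 | h2 | h2
    · exact h.xa h2
    · exact h.xb h2
    · exact h.xc h2
  have xk : x ∉ B k0 := fun h1 => by
    rcases (h.mk0 h.xQ).1 h1 with h2 | h2 | h2
    · exact h.xa h2
    · exact h.xb h2
    · exact h.xc h2
  have ak : a ∈ B k0 := (h.ba _).2 (Or.inr (Or.inr rfl))
  refine ⟨fun l e => aP (e ▸ h.aA l), fun l e => aR (e ▸ h.aA l), fun l e => h.B1a (e ▸ h.aA l),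
    fun l e => h.C1a (e ▸ h.aA l), fun l e => h.C2a (e ▸ h.aA l), fun l e => xj (e ▸ h.xA l),
    fun l e => xk (e ▸ h.xA l), fun e => cR (e ▸ h.cP), fun e => aP (e ▸ h.aj),
    fun e => aP (e ▸ ak), fun e => h.B1c (e ▸ h.cP), fun e => h.C1b (e ▸ h.bP),
    fun e => h.C2b (e ▸ h.bP), fun e => aR (e ▸ h.aj), fun e => aR (e ▸ ak),
    fun e => h.B1x (e ▸ h.xR), fun e => h.C1b (e ▸ h.bR), fun e => h.C2b (e ▸ h.bR),
    fun e => h.B1a (e ▸ h.aj), fun e => h.C1a (e ▸ h.aj), fun e => h.C2a (e ▸ h.aj),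
    fun e => h.B1a (e ▸ ak), fun e => h.C1a (e ▸ ak), fun e => h.C2a (e ▸ ak),
    fun e => h.C1b (e ▸ h.bB1), fun e => h.C2b (e ▸ h.bB1)⟩

omit h in
/-- the ten blocks. -/
noncomputable def ten (A : Fin 3 → ι) (P R j k0 B1 C1 C2 : ι) : Finset ι := by
  classical
  exact {A 0, A 1, A 2, P, R, j, k0, B1, C1, C2}

theorem tch_eq : tch B ({x, a, b, c} : Finset V) = ten A P R j k0 B1 C1 C2 := by
  classical
  ext i
  rw [cost_mem_tch]
  unfold ten
  simp only [mem_insert, mem_singleton]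
  constructor
  · intro hi
    rcases h.touch hi with ⟨l, hl⟩ | h1 | h1 | h1 | h1 | h1 | h1 | h1
    · fin_cases l
      · exact Or.inl hl
      · exact Or.inr (Or.inl hl)
      · exact Or.inr (Or.inr (Or.inl hl))
    all_goals tauto
  · have e1 : ∀ v ∈ ({x, a, b, c} : Finset V), v ∈ B i →
        (B i ∩ ({x, a, b, c} : Finset V)).Nonempty := fun v hv hi => ⟨v, mem_inter.2 ⟨hi, hv⟩⟩
    rintro (rfl | rfl | rfl | rfl | rfl | rfl | rfl | rfl | rfl | rfl)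
    · exact e1 x (by simp) (h.xA 0)
    · exact e1 x (by simp) (h.xA 1)
    · exact e1 x (by simp) (h.xA 2)
    · exact e1 x (by simp) h.xP
    · exact e1 x (by simp) h.xR
    · exact e1 a (by simp) h.aj
    · exact e1 a (by simp) ((h.ba _).2 (Or.inr (Or.inr rfl)))
    · exact e1 b (by simp) h.bB1
    · exact e1 c (by simp) h.cC1
    · exact e1 c (by simp) h.cC2

theorem cmL : cm B ({x, a, b, c} : Finset V) = 10 := by
  classical
  unfold cm
  rw [h.tch_eq]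
  unfold ten
  obtain ⟨n1, n2, n3, n4, n5, n6, n7, n8, n9, n10, n11, n12, n13, n14, n15, n16, n17, n18, n19,
    n20, n21, n22, n23, n24, n25, n26⟩ := h.nd
  have a01 : A 0 ≠ A 1 := fun e => by simpa using h.Ainj e
  have a02 : A 0 ≠ A 2 := fun e => by simpa using h.Ainj e
  have a12 : A 1 ≠ A 2 := fun e => by simpa using h.Ainj e
  rw [card_insert_of_notMem, card_insert_of_notMem, card_insert_of_notMem,
    card_insert_of_notMem, card_insert_of_notMem, card_insert_of_notMem, card_insert_of_notMem,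
    card_insert_of_notMem, card_pair h.CC]
  · simp [n25, n26]
  · simp [n22, n23, n24]
  · simp [h.jk, n19, n20, n21]
  · simp [n14, n15, n16, n17, n18]
  · simp [n8, n9, n10, n11, n12, n13]
  · simp [n1, n2, n3, n4, n5, n6, n7]
  · simp [a12, n1, n2, n3, n4, n5, n6, n7]
  · simp [a01, a02, n1, n2, n3, n4, n5, n6, n7]

/-- no single blocks. -/
theorem eeL : ee B Q ({x, a, b, c} : Finset V) = 0 := by
  classical
  unfold ee
  rw [card_eq_zero, filter_eq_empty_iff]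
  intro v hv hcon
  obtain ⟨i, hi⟩ := card_pos.1 (by omega :
    0 < (univ.filter (fun i => B i ∩ Q = {v})).card)
  have hi' := (mem_filter.1 hi).2
  have hvi : v ∈ B i := by
    have : v ∈ B i ∩ Q := by rw [hi']; exact mem_singleton_self v
    exact (mem_inter.1 this).1
  have key : ∀ w ∈ B i, w ∈ Q → w = v := by
    intro w hw hwQ
    have : w ∈ B i ∩ Q := mem_inter.2 ⟨hw, hwQ⟩
    rw [hi', mem_singleton] at this
    exact this
  have hKv : v ∉ K := by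
    simp only [mem_insert, mem_singleton] at hv
    rcases hv with rfl | rfl | rfl | rfl
    · exact h.Kx
    · exact h.Ka
    · exact h.Kb
    · exact h.Kc
  have keyK : (B i ∩ K).Nonempty → False := by
    rintro ⟨w, hw⟩
    obtain ⟨hw1, hw2⟩ := mem_inter.1 hw
    have := key w hw1 (h.KQ hw2)
    exact hKv (this ▸ hw2)
  rcases h.touch ⟨v, mem_inter.2 ⟨hvi, hv⟩⟩ with ⟨l, hl⟩ | h1 | h1 | h1 | h1 | h1 | h1 | h1
  · rw [hl] at key
    exact h.xa ((key x (h.xA l) h.xQ).trans (key a (h.aA l) h.aQ).symm)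
  · rw [h1] at key
    exact h.xb ((key x h.xP h.xQ).trans (key b h.bP h.bQ).symm)
  · rw [h1] at key
    exact h.xb ((key x h.xR h.xQ).trans (key b h.bR h.bQ).symm)
  · rw [h1] at key
    exact h.ab ((key a h.aj h.aQ).trans (key b h.bj h.bQ).symm)
  · rw [h1] at key
    exact h.ab ((key a ((h.ba _).2 (Or.inr (Or.inr rfl))) h.aQ).trans
      (key b ((h.bb _).2 (Or.inr (Or.inr (Or.inr (Or.inl rfl))))) h.bQ).symm)
  · rw [h1] at keyK
    exact keyK h.KB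
  · rw [h1] at keyK
    exact keyK h.KC1
  · rw [h1] at keyK
    exact keyK h.KC2

theorem svL : sv B ({x, a, b, c} : Finset V) = 0 := by
  unfold sv
  rw [h.L_card, h.rhoL]
  norm_num

theorem dvL : dv B Q ({x, a, b, c} : Finset V) = 12 := by
  unfold dv
  rw [Pv_eq, h.L_card, h.cmL, h.rhoL, h.eeL]
  norm_num

end DblC

end Pool.Agent.Hyp6
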