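import Pool.Agent.Hyp6.L3Dc

/-!
# HYP6 L3Dd: the doubled configuration, deletions

`DblC.gdl`: the data of a general deletion of the four points. `DblC.fin2`: two classes of new blocks.
-/

set_option autoImplicit false

namespace Pool.Agent.Hyp6

open Finset Pool.Agent.Hyp5

universe u v

variable {V : Type v} [DecidableEq V] {ι : Type u} [Fintype ι] {B : ι → Finset V}

theorem card_ulift_filter {n : ℕ} (M : Fin n → Finset V) (v : V) :
    ((univ : Finset (ULift.{u} (Fin n))).filter (fun c => v ∈ M c.down)).card =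
      ∑ c : Fin n, if v ∈ M c then 1 else 0 := by
  rw [card_filter]
  exact Fintype.sum_equiv Equiv.ulift _ _ (fun _ => rfl)

theorem ulift_biUnion {n : ℕ} (M : Fin n → Finset V) (J : Finset (ULift.{u} (Fin n))) :
    ∃ J' : Finset (Fin n), J'.card = J.card ∧ J.biUnion (fun c => M c.down) = J'.biUnion M := by
  classical
  refine ⟨J.image ULift.down, card_image_of_injective _ ULift.down_injective, ?_⟩
  ext v
  simp only [mem_biUnion, mem_image]
  constructor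
  · rintro ⟨c, hc, hv⟩
    exact ⟨c.down, ⟨c, hc, rfl⟩, hv⟩
  · rintro ⟨_, ⟨c, hc, rfl⟩, hv⟩
    exact ⟨c, hc, hv⟩

namespace DblC

variable {Q K : Finset V} {x a b c : V} {A : Fin 3 → ι} {P R j k0 B1 C1 C2 : ι} {y : Fin 3 → V}
  {y4 : V} {T : Fin 3 → ι}

section

variable (h : DblC B Q K x a b c A P R j k0 B1 C1 C2 y y4 T)
include h

open Classical in
/-- the lost blocks of a point. -/
theorem degTouch {v : V} (hvQ : v ∈ Q) (hvL : v ∉ ({x, a, b, c} : Finset V)) :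
    (univ.filter (fun i => v ∈ B i ∧ (B i ∩ ({x, a, b, c} : Finset V)).Nonempty)).card =
      (if v ∈ B (A 0) then 1 else 0) + (if v ∈ B (A 1) then 1 else 0) +
      (if v ∈ B (A 2) then 1 else 0) + (if v ∈ B R then 1 else 0) +
      (if v ∈ B B1 then 1 else 0) + (if v ∈ B C1 then 1 else 0) +
      (if v ∈ B C2 then 1 else 0) := by
  have h1 : univ.filter (fun i => v ∈ B i ∧ (B i ∩ ({x, a, b, c} : Finset V)).Nonempty) =
      (ten A P R j k0 B1 C1 C2).filter (fun i => v ∈ B i) := by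
    ext i
    rw [← h.tch_eq]
    simp only [mem_filter, mem_univ, true_and, cost_mem_tch]
    tauto
  rw [h1, card_filter]
  unfold ten
  obtain ⟨n1, n2, n3, n4, n5, n6, n7, n8, n9, n10, n11, n12, n13, n14, n15, n16, n17, n18, n19,
    n20, n21, n22, n23, n24, n25, n26⟩ := h.nd
  have a01 : A 0 ≠ A 1 := fun e => by simpa using h.Ainj e
  have a02 : A 0 ≠ A 2 := fun e => by simpa using h.Ainj e
  have a12 : A 1 ≠ A 2 := fun e => by simpa using h.Ainj e
  simp only [mem_insert, mem_singleton, not_or] at hvL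
  have hP : v ∉ B P := fun h2 => by
    rcases (h.mP hvQ).1 h2 with h3 | h3 | h3 <;> tauto
  have hj : v ∉ B j := fun h2 => by
    rcases (h.mj hvQ).1 h2 with h3 | h3 | h3 <;> tauto
  have hk : v ∉ B k0 := fun h2 => by
    rcases (h.mk0 hvQ).1 h2 with h3 | h3 | h3 <;> tauto
  rw [sum_insert (by simp [a01, a02, n1, n2, n3, n4, n5, n6, n7]),
    sum_insert (by simp [a12, n1, n2, n3, n4, n5, n6, n7]),
    sum_insert (by simp [n1, n2, n3, n4, n5, n6, n7]),
    sum_insert (by simp [n8, n9, n10, n11, n12, n13]),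
    sum_insert (by simp [n14, n15, n16, n17, n18]),
    sum_insert (by simp [h.jk, n19, n20, n21]),
    sum_insert (by simp [n22, n23, n24]),
    sum_insert (by simp [n25, n26]),
    sum_pair h.CC, if_neg hP, if_neg hj, if_neg hk]
  omega

/-- the contact points. -/
noncomputable def YY (_h : DblC B Q K x a b c A P R j k0 B1 C1 C2 y y4 T) (p : V)
    (I : Finset ι) : Finset V := by
  classical
  exact ((tch B ({x, a, b, c} : Finset V) ∪ I).biUnion (fun i => B i ∩ Q)) \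
    (({x, a, b, c} : Finset V) ∪ {p})

theorem mem_YY {p : V} {I : Finset ι} {v : V} : v ∈ h.YY p I ↔
    (∃ i, ((B i ∩ ({x, a, b, c} : Finset V)).Nonempty ∨ i ∈ I) ∧ v ∈ B i) ∧ v ∈ Q ∧
      v ∉ ({x, a, b, c} : Finset V) ∧ v ≠ p := by
  unfold YY
  simp only [mem_sdiff, mem_biUnion, mem_union, cost_mem_tch, mem_inter, mem_singleton, not_or]
  constructor
  · rintro ⟨⟨i, hi, hv, hvQ⟩, h1, h2⟩
    exact ⟨⟨i, hi, hv⟩, hvQ, h1, h2⟩
  · rintro ⟨⟨i, hi, hv⟩, hvQ, h1, h2⟩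
    exact ⟨⟨i, hi, hv, hvQ⟩, h1, h2⟩

open Classical in
/-- the data of the deletion. -/
theorem gdl {n : ℕ} {M : Fin n → Finset V} {p : V} (hpQ : p ∈ Q)
    (hpL : p ∉ ({x, a, b, c} : Finset V)) {I : Finset ι} (hI3 : ∀ i ∈ I, (B i ∩ Q).card = 3)
    (hIL : ∀ i ∈ I, ¬ (B i ∩ ({x, a, b, c} : Finset V)).Nonempty)
    (hN : ∀ c', ∀ v ∈ M c', v ∈ Q ∧ v ∉ ({x, a, b, c} : Finset V) ∧ v ≠ p)
    (hdeg : ∀ v ∈ Q, v ∉ ({x, a, b, c} : Finset V) → v ≠ p →
      (∑ c' : Fin n, if v ∈ M c' then 1 else 0) =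
      (if v ∈ B (A 0) then 1 else 0) + (if v ∈ B (A 1) then 1 else 0) +
      (if v ∈ B (A 2) then 1 else 0) + (if v ∈ B R then 1 else 0) +
      (if v ∈ B B1 then 1 else 0) + (if v ∈ B C1 then 1 else 0) +
      (if v ∈ B C2 then 1 else 0) + (I.filter (fun i => v ∈ B i)).card)
    (hsize : ∀ c', (M c').card ≤ 3)
    (hcost : ∀ J : Finset (Fin n), ∃ S : Finset ι, x ∈ S.biUnion B ∧ a ∈ S.biUnion B ∧
      b ∈ S.biUnion B ∧ c ∈ S.biUnion B ∧ p ∈ S.biUnion B ∧
      (∀ c' ∈ J, M c' ⊆ S.biUnion B) ∧ S.card ≤ 2 + J.card) :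
    Gdl B Q ({x, a, b, c} : Finset V) {p} (h.YY p I) I (Gdl.kp B ({x, a, b, c} : Finset V) I)
      (fun c' : ULift.{u} (Fin n) => M c'.down) := by
  refine Gdl.of_keep h.viol.reg h.viol.tr h.L_Q (singleton_subset_iff.2 hpQ)
    (fun v hv => (h.mem_YY.1 hv).2.1) (disjoint_singleton_right.2 hpL) ?_ ?_ ?_ ?_ ?_ ?_ ?_ ?_
  · rw [disjoint_left]
    intro v hv hv2
    exact (h.mem_YY.1 hv2).2.2.1 hv
  · rw [disjoint_singleton_left]
    intro hv2
    exact (h.mem_YY.1 hv2).2.2.2 rfl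
  · intro i hi v hv
    obtain ⟨hv1, hv2⟩ := mem_inter.1 hv
    by_cases h1 : v ∈ ({x, a, b, c} : Finset V)
    · exact mem_union_left _ (mem_union_left _ h1)
    by_cases h2 : v = p
    · exact mem_union_left _ (mem_union_right _ (mem_singleton.2 h2))
    · exact mem_union_right _ (h.mem_YY.2 ⟨⟨i, Or.inl hi, hv1⟩, hv2, h1, h2⟩)
  · intro i hi
    refine ⟨fun v hv => ?_, hI3 i hi⟩
    obtain ⟨hv1, hv2⟩ := mem_inter.1 hv
    by_cases h2 : v = p
    · exact mem_union_left _ (mem_singleton.2 h2)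
    · exact mem_union_right _ (h.mem_YY.2 ⟨⟨i, Or.inr hi, hv1⟩, hv2,
        fun h1 => hIL i hi ⟨v, mem_inter.2 ⟨hv1, h1⟩⟩, h2⟩)
  · intro c' v hv
    obtain ⟨h1, h2, h3⟩ := hN c'.down v hv
    refine h.mem_YY.2 ⟨?_, h1, h2, h3⟩
    have h4 := hdeg v h1 h2 h3
    have h5 : 1 ≤ ∑ c' : Fin n, if v ∈ M c' then 1 else 0 := by
      rw [← card_ulift_filter.{u} M v]
      exact card_pos.2 ⟨c', mem_filter.2 ⟨mem_univ _, hv⟩⟩
    have h6 := h.degTouch h1 h2
    rcases Nat.eq_zero_or_pos (I.filter (fun i => v ∈ B i)).card with h7 | h7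
    · have h8 : 0 < (univ.filter (fun i => v ∈ B i ∧
          (B i ∩ ({x, a, b, c} : Finset V)).Nonempty)).card := by omega
      obtain ⟨i, hi⟩ := card_pos.1 h8
      have hi' := (mem_filter.1 hi).2
      exact ⟨i, Or.inl hi'.2, hi'.1⟩
    · obtain ⟨i, hi⟩ := card_pos.1 h7
      have hi' := mem_filter.1 hi
      exact ⟨i, Or.inr hi'.1, hi'.2⟩
  · intro v hv
    obtain ⟨_, h1, h2, h3⟩ := h.mem_YY.1 hv
    rw [card_ulift_filter M v, hdeg v h1 h2 h3]
    have h6 := h.degTouch h1 h2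
    convert (congrArg (· + (I.filter (fun i => v ∈ B i)).card) h6.symm) using 1
  · intro c'
    exact hsize c'.down
  · intro J
    obtain ⟨J', hJ1, hJ2⟩ := ulift_biUnion M J
    obtain ⟨S, s1, s2, s3, s4, s5, s6, s7⟩ := hcost J'
    rw [hJ2, h.rhoL, ← hJ1]
    refine rho_le_of ⟨S, ?_, s7⟩
    intro v hv
    rcases mem_union.1 hv with h1 | h1
    · rcases mem_union.1 h1 with h2 | h2
      · simp only [mem_insert, mem_singleton] at h2
        rcases h2 with rfl | rfl | rfl | rfl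
        · exact s1
        · exact s2
        · exact s3
        · exact s4
      · rw [mem_singleton.1 h2]
        exact s5
    · obtain ⟨c', hc, hvc⟩ := mem_biUnion.1 h1
      exact s6 c' hc hvc

open Classical in
/-- the conclusion for two classes. -/
theorem fin2 {n : ℕ} {M : Fin n → Finset V} {p : V} {I : Finset ι}
    (hG : Gdl B Q ({x, a, b, c} : Finset V) {p} (h.YY p I) I (Gdl.kp B ({x, a, b, c} : Finset V) I)
      (fun c' : ULift.{u} (Fin n) => M c'.down)) (hval : (n : ℤ) ≤ 4 + I.card)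
    (D : Fin n → Prop)
    (hl1 : ∀ Z, Ncl B Q ({x, a, b, c} : Finset V) {p} I
      (fun c' : ULift.{u} (Fin n) => M c'.down) Z →
      (∀ c', D c' → M c' ⊆ Z) ∨ (∀ c', D c' → Disjoint (M c') Z))
    (hl2 : ∀ Z, Ncl B Q ({x, a, b, c} : Finset V) {p} I
      (fun c' : ULift.{u} (Fin n) => M c'.down) Z →
      (∀ c', ¬ D c' → M c' ⊆ Z) ∨ (∀ c', ¬ D c' → Disjoint (M c') Z))
    (hs1 : ∃ c', D c' ∧ (M c').Nonempty ∧ (M c').card ≤ 2)
    (hs2 : ∃ c', ¬ D c' ∧ (M c').Nonempty ∧ (M c').card ≤ 2) : False := by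
  obtain ⟨c1, d1, e1, f1⟩ := hs1
  obtain ⟨c2, d2, e2, f2⟩ := hs2
  have hsub : ∀ c', M c' ⊆ h.YY p I := fun c' => hG.subN (ULift.up c')
  refine hG.two h.viol ⟨x, by simp⟩ (e1.mono (hsub c1)) (card_singleton p)
    (by rw [h.svL]) ?_ (a1 := (univ.filter D).biUnion M)
    (a2 := (univ.filter (fun c' => ¬ D c')).biUnion M)
    (biUnion_subset.2 fun c' _ => hsub c') (biUnion_subset.2 fun c' _ => hsub c') ?_ ?_ ?_
    ⟨ULift.up c1, e1, f1, subset_biUnion_of_mem M (mem_filter.2 ⟨mem_univ _, d1⟩)⟩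
    ⟨ULift.up c2, e2, f2, subset_biUnion_of_mem M (mem_filter.2 ⟨mem_univ _, d2⟩)⟩
  · rw [h.dvL]
    rw [Fintype.card_ulift, Fintype.card_fin]
    linarith
  · intro v hv
    have h1 := hG.deg v hv
    have h2 : (Gdl.kp B ({x, a, b, c} : Finset V) I v).card < 5 := by
      obtain ⟨⟨i, hi, hvi⟩, hvQ, hvL, hvp⟩ := h.mem_YY.1 hv
      have h3 : (univ.filter (fun i => v ∈ B i)).card = 5 := h.viol.reg v hvQ
      rw [← h3]
      refine card_lt_card ⟨fun i' hi' => mem_filter.2 ⟨mem_univ _, (Gdl.mem_kp.1 hi').1⟩,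
        fun h4 => ?_⟩
      have h5 := Gdl.mem_kp.1 (h4 (mem_filter.2 ⟨mem_univ _, hvi⟩))
      rcases hi with h6 | h6
      · exact h5.2.1 h6
      · exact h5.2.2 h6
    have h3 : 0 < (univ.filter (fun c' : ULift.{u} (Fin n) => v ∈ M c'.down)).card := by
      have h4 : (Gdl.kp B ({x, a, b, c} : Finset V) I v).card +
        (univ.filter (fun c' : ULift.{u} (Fin n) => v ∈ M c'.down)).card = 5 := by
        convert h1 using 2
      omega
    obtain ⟨c', hc⟩ := card_pos.1 h3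
    have hc' := (mem_filter.1 hc).2
    by_cases hD : D c'.down
    · exact Or.inl (mem_biUnion.2 ⟨c'.down, mem_filter.2 ⟨mem_univ _, hD⟩, hc'⟩)
    · exact Or.inr (mem_biUnion.2 ⟨c'.down, mem_filter.2 ⟨mem_univ _, hD⟩, hc'⟩)
  · intro Z hZ
    rcases hl1 Z hZ with h1 | h1
    · exact Or.inl (biUnion_subset.2 fun c' hc => h1 c' (mem_filter.1 hc).2)
    · right
      rw [disjoint_biUnion_left]
      exact fun c' hc => h1 c' (mem_filter.1 hc).2
  · intro Z hZ
    rcases hl2 Z hZ with h1 | h1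
    · exact Or.inl (biUnion_subset.2 fun c' hc => h1 c' (mem_filter.1 hc).2)
    · right
      rw [disjoint_biUnion_left]
      exact fun c' hc => h1 c' (mem_filter.1 hc).2

/-- the connected set is in one class. -/
theorem Kclass {κ : Type u} {N : κ → Finset V} {p : V} {I : Finset ι} {Z : Finset V}
    (hZ : Ncl B Q ({x, a, b, c} : Finset V) {p} I N Z) (hpK : p ∉ K)
    (hIK : ∀ i ∈ I, ∀ v ∈ K, v ∉ B i) (hB : ∃ c', ∀ v ∈ K, v ∈ B B1 → v ∈ N c')
    (hC1 : ∃ c', ∀ v ∈ K, v ∈ B C1 → v ∈ N c') (hC2 : ∃ c', ∀ v ∈ K, v ∈ B C2 → v ∈ N c') :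
    K ⊆ Z ∨ Disjoint K Z := by
  have hcl : Closed (gr B) K (K ∩ Z) := by
    refine ⟨inter_subset_left, fun w hw v hv hwv => ?_⟩
    obtain ⟨hwK, hwZ⟩ := mem_inter.1 hw
    refine mem_inter.2 ⟨hv, ?_⟩
    obtain ⟨_, i, hwi, hvi⟩ := hwv
    have hwQ := h.KQ hwK
    have hwn : w ≠ x ∧ w ≠ a ∧ w ≠ b ∧ w ≠ c ∧ w ≠ y4 ∧ ∀ l, w ≠ y l :=
      ⟨fun e => h.Kx (e ▸ hwK), fun e => h.Ka (e ▸ hwK), fun e => h.Kb (e ▸ hwK),
        fun e => h.Kc (e ▸ hwK), fun e => h.Ky4 (e ▸ hwK),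
        fun l e => h.Ky l w hwK (e ▸ h.ty l)⟩
    obtain ⟨w1, w2, w3, w4, w5, w6⟩ := hwn
    by_cases ht : (B i ∩ ({x, a, b, c} : Finset V)).Nonempty
    · rcases h.touch ht with ⟨l, hl⟩ | h1 | h1 | h1 | h1 | h1 | h1 | h1
      · rw [hl] at hwi
        rcases (h.mA l hwQ).1 hwi with h2 | h2 | h2
        · exact absurd h2 w1
        · exact absurd h2 w2
        · exact absurd h2 (w6 l)
      · rw [h1] at hwi
        rcases (h.mP hwQ).1 hwi with h2 | h2 | h2 <;> tauto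
      · rw [h1] at hwi
        rcases (h.mR hwQ).1 hwi with h2 | h2 | h2 <;> tauto
      · rw [h1] at hwi
        rcases (h.mj hwQ).1 hwi with h2 | h2 | h2 <;> tauto
      · rw [h1] at hwi
        rcases (h.mk0 hwQ).1 hwi with h2 | h2 | h2 <;> tauto
      · obtain ⟨c', hc⟩ := hB
        rw [h1] at hwi hvi
        exact hZ.new c' w hwZ (hc w hwK hwi) (hc v hv hvi)
      · obtain ⟨c', hc⟩ := hC1
        rw [h1] at hwi hvi
        exact hZ.new c' w hwZ (hc w hwK hwi) (hc v hv hvi)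
      · obtain ⟨c', hc⟩ := hC2
        rw [h1] at hwi hvi
        exact hZ.new c' w hwZ (hc w hwK hwi) (hc v hv hvi)
    · by_cases hiI : i ∈ I
      · exact absurd hwi (hIK i hiI w hwK)
      · exact hZ.old i ht hiI w hwZ hwi v (h.KQ hv)
          (fun e => hpK (mem_singleton.1 e ▸ hv)) hvi
  by_cases hne : (K ∩ Z).Nonempty
  · left
    have h1 := h.Kconn.2 _ hcl hne
    exact inter_eq_left.1 h1
  · right
    rw [not_nonempty_iff_eq_empty] at hne
    exact disjoint_iff_inter_eq_empty.2 hne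

end

end DblC

end Pool.Agent.Hyp6
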