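import Pool.Agent.Hyp6.L3Dd

/-!
# HYP6 L3De: the doubled configuration, left and right families

`DblC.finA`, `DblC.finB`: the conclusions for a left family (two new blocks) and a right family (three new
blocks); `DblC.caseL1`, `DblC.caseL2`, `DblC.caseL3`: the cases for the points `y 0`, `y 1`, `y 2`.
-/

set_option autoImplicit false

namespace Pool.Agent.Hyp6

open Finset Pool.Agent.Hyp5

universe u v

variable {V : Type v} [DecidableEq V] {ι : Type u} [Fintype ι] {B : ι → Finset V}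

theorem card_fin5 : ∀ J : Finset (Fin 5), J.card = (if 0 ∈ J then 1 else 0) +
    (if 1 ∈ J then 1 else 0) + (if 2 ∈ J then 1 else 0) + (if 3 ∈ J then 1 else 0) +
    (if 4 ∈ J then 1 else 0) := by decide

/-- the left family. -/
structure LDb (B : ι → Finset V) (Q : Finset V) (x a b c : V) (A : Fin 3 → ι) (p : V) (t : ι)
    (M0 M1 : Finset V) : Prop where
  pQ : p ∈ Q
  pL : p ∉ ({x, a, b, c} : Finset V)
  t3 : (B t ∩ Q).card = 3
  tL : ¬ (B t ∩ ({x, a, b, c} : Finset V)).Nonempty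
  sub0 : ∀ v ∈ M0, v ∈ Q ∧ v ∉ ({x, a, b, c} : Finset V) ∧ v ≠ p
  sub1 : ∀ v ∈ M1, v ∈ Q ∧ v ∉ ({x, a, b, c} : Finset V) ∧ v ≠ p
  deg : ∀ v ∈ Q, v ∉ ({x, a, b, c} : Finset V) → v ≠ p →
    (if v ∈ M0 then 1 else 0) + (if v ∈ M1 then 1 else 0) =
      (if v ∈ B (A 0) then 1 else 0) + (if v ∈ B (A 1) then 1 else 0) +
      (if v ∈ B (A 2) then 1 else 0) + (if v ∈ B t then 1 else 0)
  size0 : M0.card ≤ 3
  size1 : M1.card ≤ 3
  cost : ∀ q0 q1 : Bool, ∃ S : Finset ι, x ∈ S.biUnion B ∧ a ∈ S.biUnion B ∧ p ∈ S.biUnion B ∧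
    (q0 = true → M0 ⊆ S.biUnion B) ∧ (q1 = true → M1 ⊆ S.biUnion B) ∧
    S.card ≤ 1 + (if q0 = true then 1 else 0) + (if q1 = true then 1 else 0)

/-- the right family. -/
structure RDt (B : ι → Finset V) (Q K : Finset V) (x a b c : V) (R B1 C1 C2 : ι) (p : V)
    (M2 M3 M4 : Finset V) : Prop where
  sub2 : ∀ v ∈ M2, v ∈ Q ∧ v ∉ ({x, a, b, c} : Finset V) ∧ v ≠ p
  sub3 : ∀ v ∈ M3, v ∈ Q ∧ v ∉ ({x, a, b, c} : Finset V) ∧ v ≠ p
  sub4 : ∀ v ∈ M4, v ∈ Q ∧ v ∉ ({x, a, b, c} : Finset V) ∧ v ≠ p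
  deg : ∀ v ∈ Q, v ∉ ({x, a, b, c} : Finset V) → v ≠ p →
    (if v ∈ M2 then 1 else 0) + (if v ∈ M3 then 1 else 0) + (if v ∈ M4 then 1 else 0) =
      (if v ∈ B R then 1 else 0) + (if v ∈ B B1 then 1 else 0) +
      (if v ∈ B C1 then 1 else 0) + (if v ∈ B C2 then 1 else 0)
  size2 : M2.card ≤ 3
  size3 : M3.card ≤ 2
  size4 : M4.card ≤ 3
  kC1 : ∀ v ∈ K, v ∈ B C1 → v ∈ M2
  kC2 : ∀ v ∈ K, v ∈ B C2 → v ∈ M3
  kB : ∀ v ∈ K, v ∈ B B1 → v ∈ M4
  cost : ∀ q2 q3 q4 : Bool, ∃ S : Finset ι, b ∈ S.biUnion B ∧ c ∈ S.biUnion B ∧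
    (q2 = true → M2 ⊆ S.biUnion B) ∧ (q3 = true → M3 ⊆ S.biUnion B) ∧
    (q4 = true → M4 ⊆ S.biUnion B) ∧
    S.card ≤ 1 + (if q2 = true then 1 else 0) + (if q3 = true then 1 else 0) +
      (if q4 = true then 1 else 0)

namespace DblC

variable {Q K : Finset V} {x a b c : V} {A : Fin 3 → ι} {P R j k0 B1 C1 C2 : ι} {y : Fin 3 → V}
  {y4 : V} {T : Fin 3 → ι} {p : V} {t : ι} {M0 M1 M2 M3 M4 : Finset V}

section

variable (h : DblC B Q K x a b c A P R j k0 B1 C1 C2 y y4 T)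
include h

open Classical in
theorem gdl5 (hL : LDb B Q x a b c A p t M0 M1) (hR : RDt B Q K x a b c R B1 C1 C2 p M2 M3 M4) :
    Gdl B Q ({x, a, b, c} : Finset V) {p} (h.YY p {t}) {t}
      (Gdl.kp B ({x, a, b, c} : Finset V) {t})
      (fun c' : ULift.{u} (Fin 5) => (![M0, M1, M2, M3, M4] : Fin 5 → Finset V) c'.down) := by
  refine h.gdl hL.pQ hL.pL (by simpa using hL.t3) (by simpa using hL.tL) ?_ ?_ ?_ ?_
  · intro c'
    fin_cases c'
    · exact hL.sub0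
    · exact hL.sub1
    · exact hR.sub2
    · exact hR.sub3
    · exact hR.sub4
  · intro v hvQ hvL hvp
    have h1 := hL.deg v hvQ hvL hvp
    have h2 := hR.deg v hvQ hvL hvp
    rw [Fin.sum_univ_five]
    have h3 : (({t} : Finset ι).filter (fun i => v ∈ B i)).card = if v ∈ B t then 1 else 0 := by
      rw [filter_singleton]
      split_ifs <;> simp
    rw [h3]
    change (if v ∈ M0 then 1 else 0) + (if v ∈ M1 then 1 else 0) + (if v ∈ M2 then 1 else 0) +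
      (if v ∈ M3 then 1 else 0) + (if v ∈ M4 then 1 else 0) = _
    omega
  · intro c'
    fin_cases c'
    · exact hL.size0
    · exact hL.size1
    · exact hR.size2
    · exact hR.size3.trans (by norm_num)
    · exact hR.size4
  · intro J
    obtain ⟨S, s1, s2, s3, s4, s5, s6⟩ := hL.cost (decide (0 ∈ J)) (decide (1 ∈ J))
    obtain ⟨S', r1, r2, r3, r4, r5, r6⟩ := hR.cost (decide (2 ∈ J)) (decide (3 ∈ J))
      (decide (4 ∈ J))
    have hsub : S.biUnion B ⊆ (S ∪ S').biUnion B := biUnion_subset_biUnion_of_subset_left _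
      subset_union_left
    have hsub' : S'.biUnion B ⊆ (S ∪ S').biUnion B := biUnion_subset_biUnion_of_subset_left _
      subset_union_right
    refine ⟨S ∪ S', hsub s1, hsub s2, hsub' r1, hsub' r2, hsub s3, ?_, ?_⟩
    · intro c' hc'
      fin_cases c'
      · exact (s4 (decide_eq_true hc')).trans hsub
      · exact (s5 (decide_eq_true hc')).trans hsub
      · exact (r3 (decide_eq_true hc')).trans hsub'
      · exact (r4 (decide_eq_true hc')).trans hsub'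
      · exact (r5 (decide_eq_true hc')).trans hsub'
    · have h1 := card_union_le S S'
      rw [card_fin5 J]
      simp only [decide_eq_true_eq] at s6 r6
      omega

/-- the right family is in one class. -/
theorem right_class (hR : RDt B Q K x a b c R B1 C1 C2 p M2 M3 M4) (hpK : p ∉ K)
    (htK : ∀ v ∈ K, v ∉ B t) {Z : Finset V}
    (hZ : Ncl B Q ({x, a, b, c} : Finset V) {p} {t}
      (fun c' : ULift.{u} (Fin 5) => (![M0, M1, M2, M3, M4] : Fin 5 → Finset V) c'.down) Z) :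
    (M2 ⊆ Z ∧ M3 ⊆ Z ∧ M4 ⊆ Z) ∨ (Disjoint M2 Z ∧ Disjoint M3 Z ∧ Disjoint M4 Z) := by
  have key : ∀ M' : Finset V, (∃ c' : Fin 5, (![M0, M1, M2, M3, M4] : Fin 5 → Finset V) c' = M') →
      (∃ v ∈ K, v ∈ M') → ((K ⊆ Z → M' ⊆ Z) ∧ (Disjoint K Z → Disjoint M' Z)) := by
    rintro M' ⟨c', hc⟩ ⟨v, hvK, hvM⟩
    have hnew : ∀ w ∈ Z, w ∈ M' → M' ⊆ Z := by
      intro w hw hwM
      have h2 := hZ.new (ULift.up c') w hw (by simpa only [hc] using hwM)
      simpa only [hc] using h2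
    refine ⟨fun h1 => hnew v (h1 hvK) hvM, fun h1 => ?_⟩
    rw [disjoint_left]
    intro w hwM hwZ
    exact disjoint_left.1 h1 hvK (hnew w hwZ hwM hvM)
  obtain ⟨v2, hv2⟩ := h.KC1
  obtain ⟨v3, hv3⟩ := h.KC2
  obtain ⟨v4, hv4⟩ := h.KB
  rw [mem_inter] at hv2 hv3 hv4
  have k2 := key M2 ⟨2, rfl⟩ ⟨v2, hv2.2, hR.kC1 v2 hv2.2 hv2.1⟩
  have k3 := key M3 ⟨3, rfl⟩ ⟨v3, hv3.2, hR.kC2 v3 hv3.2 hv3.1⟩
  have k4 := key M4 ⟨4, rfl⟩ ⟨v4, hv4.2, hR.kB v4 hv4.2 hv4.1⟩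
  rcases h.Kclass hZ hpK (by simpa using htK) ⟨ULift.up 4, hR.kB⟩ ⟨ULift.up 2, hR.kC1⟩
    ⟨ULift.up 3, hR.kC2⟩ with h1 | h1
  · exact Or.inl ⟨k2.1 h1, k3.1 h1, k4.1 h1⟩
  · exact Or.inr ⟨k2.2 h1, k3.2 h1, k4.2 h1⟩

theorem M3_small (hR : RDt B Q K x a b c R B1 C1 C2 p M2 M3 M4) : M3.Nonempty ∧ M3.card ≤ 2 := by
  obtain ⟨v3, hv3⟩ := h.KC2
  rw [mem_inter] at hv3
  exact ⟨⟨v3, hR.kC2 v3 hv3.2 hv3.1⟩, hR.size3⟩

/-- **the left family is one class.** -/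
theorem finA (hL : LDb B Q x a b c A p t M0 M1) (hR : RDt B Q K x a b c R B1 C1 C2 p M2 M3 M4)
    (hpK : p ∉ K) (htK : ∀ v ∈ K, v ∉ B t)
    (hlink : ∀ Z, Ncl B Q ({x, a, b, c} : Finset V) {p} {t}
      (fun c' : ULift.{u} (Fin 5) => (![M0, M1, M2, M3, M4] : Fin 5 → Finset V) c'.down) Z →
      (M0 ⊆ Z ∧ M1 ⊆ Z) ∨ (Disjoint M0 Z ∧ Disjoint M1 Z))
    (hsm : (M0.Nonempty ∧ M0.card ≤ 2) ∨ (M1.Nonempty ∧ M1.card ≤ 2)) : False := by
  refine h.fin2 (h.gdl5 hL hR) (by simp) (fun c' => c' = 0 ∨ c' = 1) ?_ ?_ ?_ ?_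
  · intro Z hZ
    rcases hlink Z hZ with ⟨h1, h2⟩ | ⟨h1, h2⟩
    · left
      rintro c' (rfl | rfl)
      · exact h1
      · exact h2
    · right
      rintro c' (rfl | rfl)
      · exact h1
      · exact h2
  · intro Z hZ
    rcases h.right_class hR hpK htK hZ with ⟨h1, h2, h3⟩ | ⟨h1, h2, h3⟩
    · left
      intro c' hc
      fin_cases c'
      · exact absurd (Or.inl rfl) hc
      · exact absurd (Or.inr rfl) hc
      · exact h1
      · exact h2
      · exact h3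
    · right
      intro c' hc
      fin_cases c'
      · exact absurd (Or.inl rfl) hc
      · exact absurd (Or.inr rfl) hc
      · exact h1
      · exact h2
      · exact h3
  · rcases hsm with ⟨h1, h2⟩ | ⟨h1, h2⟩
    · exact ⟨0, Or.inl rfl, h1, h2⟩
    · exact ⟨1, Or.inr rfl, h1, h2⟩
  · exact ⟨3, by decide, h.M3_small hR⟩

/-- **the first left block is in the class of the right family.** -/
theorem finB (hL : LDb B Q x a b c A p t M0 M1) (hR : RDt B Q K x a b c R B1 C1 C2 p M2 M3 M4)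
    (hlink : ∀ Z, Ncl B Q ({x, a, b, c} : Finset V) {p} {t}
      (fun c' : ULift.{u} (Fin 5) => (![M0, M1, M2, M3, M4] : Fin 5 → Finset V) c'.down) Z →
      (M0 ⊆ Z ∧ M2 ⊆ Z ∧ M3 ⊆ Z ∧ M4 ⊆ Z) ∨
        (Disjoint M0 Z ∧ Disjoint M2 Z ∧ Disjoint M3 Z ∧ Disjoint M4 Z))
    (hsm : M1.Nonempty ∧ M1.card ≤ 2) : False := by
  refine h.fin2 (h.gdl5 hL hR) (by simp) (fun c' => c' ≠ 1) ?_ ?_ ?_ ?_
  · intro Z hZ
    rcases hlink Z hZ with ⟨h0, h1, h2, h3⟩ | ⟨h0, h1, h2, h3⟩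
    · left
      intro c' hc
      fin_cases c'
      · exact h0
      · exact absurd rfl hc
      · exact h1
      · exact h2
      · exact h3
    · right
      intro c' hc
      fin_cases c'
      · exact h0
      · exact absurd rfl hc
      · exact h1
      · exact h2
      · exact h3
  · intro Z hZ
    by_cases h1 : (M1 ∩ Z).Nonempty
    · left
      intro c' hc
      have hc' : c' = 1 := by simpa using hc
      rw [hc']
      obtain ⟨w, hw⟩ := h1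
      rw [mem_inter] at hw
      exact hZ.new (ULift.up 1) w hw.2 hw.1
    · right
      intro c' hc
      have hc' : c' = 1 := by simpa using hc
      rw [hc']
      rw [not_nonempty_iff_eq_empty] at h1
      exact disjoint_iff_inter_eq_empty.2 h1
  · exact ⟨3, by decide, h.M3_small hR⟩
  · exact ⟨1, by simp, hsm⟩

theorem notL {v : V} (h1 : v ≠ x) (h2 : v ≠ a) (h3 : v ≠ b) (h4 : v ≠ c) :
    v ∉ ({x, a, b, c} : Finset V) := by
  simp [h1, h2, h3, h4]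

theorem yL (l : Fin 3) : y l ∉ ({x, a, b, c} : Finset V) :=
  h.notL (h.yx l) (h.ya l) (h.yb l) (h.yc l)

theorem yK (l : Fin 3) : y l ∉ K := fun h1 => h.Ky l _ h1 (h.ty l)

theorem tLn (l : Fin 3) : ¬ (B (T l) ∩ ({x, a, b, c} : Finset V)).Nonempty := by
  rintro ⟨v, hv⟩
  obtain ⟨h1, h2⟩ := mem_inter.1 hv
  simp only [mem_insert, mem_singleton] at h2
  rcases h2 with rfl | rfl | rfl | rfl
  · exact h.tx l h1
  · exact h.ta l h1
  · exact h.tb l h1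
  · exact h.tc l h1

theorem mA' (l : Fin 3) {v : V} (hv : v ∈ Q) (hL : v ∉ ({x, a, b, c} : Finset V)) :
    v ∈ B (A l) ↔ v = y l := by
  simp only [mem_insert, mem_singleton, not_or] at hL
  rw [h.mA l hv]
  tauto

theorem mR' {v : V} (hv : v ∈ Q) (hL : v ∉ ({x, a, b, c} : Finset V)) :
    v ∈ B R ↔ v = y4 := by
  simp only [mem_insert, mem_singleton, not_or] at hL
  rw [h.mR hv]
  tauto

end

end DblC

end Pool.Agent.Hyp6
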