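import Pool.Agent.Hyp6.AbsG2
import Pool.Agent.Hyp6.GB

/-!
# HYP6 L3DEFS: the level-3 theorem for all connected sets, definitions and truncation

`Pp B W = 4 |W| + 4 cm - 22 rho = 11 sv + G`, `KT`: the exceptional sets with six points,
`L3ok`: the inequality, `IHL`: the induction hypothesis over all systems.
-/

set_option autoImplicit false

namespace Pool.Agent.Hyp6

open Finset Pool.Agent.Hyp5

universe u v

section

variable {V : Type v} [DecidableEq V] {ι : Type u} [Fintype ι]

/-- the second potential `11 sv + G`. -/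
noncomputable def Pp (B : ι → Finset V) (W : Finset V) : ℤ := 11 * sv B W + G B W

/-- the exceptional sets: six points, ten blocks, cover number three. -/
def KT (B : ι → Finset V) (Q : Finset V) : Prop := Q.card = 6 ∧ cm B Q = 10 ∧ rho B Q = 3

/-- the inequality of the level-3 theorem. -/
def L3ok (B : ι → Finset V) (Q : Finset V) : Prop :=
  2 * (ee B Q Q : ℤ) ≤ Pp B Q ∧ -1 ≤ Pv B Q

/-- all traces in `Q` have at most three points. -/
def Tr3 (B : ι → Finset V) (Q : Finset V) : Prop := ∀ i, (B i ∩ Q).card ≤ 3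

/-- every point is critical for the cover number. -/
def Crit (B : ι → Finset V) (Q : Finset V) : Prop := ∀ x ∈ Q, rho B (Q.erase x) + 1 = rho B Q

end

/-- the induction hypothesis of the level-3 theorem. -/
def IHL (V : Type v) [DecidableEq V] (n : ℕ) : Prop :=
  ∀ (κ : Type u) [Fintype κ] (B : κ → Finset V) (Q : Finset V), Q.card < n → Reg B Q → Tr3 B Q →
    Conn (gr B) Q → ¬ KT B Q → L3ok B Q

section

variable {V : Type v} [DecidableEq V] {ι : Type u} [Fintype ι] {B : ι → Finset V}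

theorem Pp_eq (W : Finset V) :
    Pp B W = 4 * (W.card : ℤ) + 4 * (cm B W : ℤ) - 22 * (rho B W : ℤ) := by
  unfold Pp sv G
  ring

theorem Pv_eq_Pp (W : Finset V) : Pv B W = Pp B W + sv B W := by
  unfold Pv Pp
  ring

theorem Pp_sdiff {W X : Finset V} (hX : X ⊆ W) :
    Pp B W = Pp B (W \ X) + 4 * (X.card : ℤ) + 4 * ((ins B W X).card : ℤ) -
      22 * ((rho B W : ℤ) - (rho B (W \ X) : ℤ)) := by
  have h1 := cm_sdiff (B := B) W X
  have h2 := card_sdiff_add_card_eq_card hX
  rw [Pp_eq, Pp_eq, h1, ← h2]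
  push_cast
  ring

theorem Pp_add {U W : Finset V} (hU : Cov B U) (hW : Cov B W) (hd : Disjoint U W)
    (hs : Sep B U W) : Pp B (U ∪ W) = Pp B U + Pp B W := by
  unfold Pp
  rw [sv_add hU hW hs hd, G_add hd hs]
  ring

theorem Pp_biUnion {F : Finset (Finset V)} (hc : ∀ C ∈ F, Cov B C) (h : SepF B F) :
    Pp B (F.biUnion id) = ∑ C ∈ F, Pp B C := by
  unfold Pp
  rw [sv_biUnion hc h, G_biUnion h, mul_sum, ← sum_add_distrib]

omit [Fintype ι] in
theorem Tr3.mono {Q W : Finset V} (h : Tr3 B Q) (hW : W ⊆ Q) : Tr3 B W := fun i =>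
  (card_le_card (inter_subset_inter_left hW)).trans (h i)

/-- the second potential is even. -/
theorem Pp_even (W : Finset V) : Pp B W % 2 = 0 := by
  rw [Pp_eq]
  omega

/-- the truncated system. -/
def trn (B : ι → Finset V) (Q : Finset V) : ι → Finset V := fun i => B i ∩ Q

omit [Fintype ι] in
theorem trn_inter {Q W : Finset V} (hW : W ⊆ Q) (i : ι) : trn B Q i ∩ W = B i ∩ W := by
  unfold trn
  rw [inter_assoc, inter_eq_right.2 hW]

theorem trn_reg {Q : Finset V} (h : Reg B Q) : Reg (trn B Q) Q := by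
  intro v hv
  rw [← h v hv]
  congr 1
  ext i
  simp [trn, hv]

omit [Fintype ι] in
theorem trn_small {Q : Finset V} (h : Tr3 B Q) : Small (trn B Q) := h

omit [Fintype ι] in
theorem trn_adj {Q : Finset V} {u v : V} (hu : u ∈ Q) (hv : v ∈ Q) :
    (gr (trn B Q)).Adj u v ↔ (gr B).Adj u v := by
  constructor
  · rintro ⟨hne, i, h1, h2⟩
    exact ⟨hne, i, (mem_inter.1 h1).1, (mem_inter.1 h2).1⟩
  · rintro ⟨hne, i, h1, h2⟩
    exact ⟨hne, i, mem_inter.2 ⟨h1, hu⟩, mem_inter.2 ⟨h2, hv⟩⟩

omit [Fintype ι] in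
theorem trn_pm {Q W : Finset V} (hW : W ⊆ Q) : PM (gr (trn B Q)) W ↔ PM (gr B) W :=
  ⟨fun h => pm_congr h fun _ hu _ hv h => (trn_adj (hW hu) (hW hv)).1 h,
    fun h => pm_congr h fun _ hu _ hv h => (trn_adj (hW hu) (hW hv)).2 h⟩

omit [Fintype ι] in
theorem trn_fc {Q W : Finset V} (hW : W ⊆ Q) : FC (gr (trn B Q)) W ↔ FC (gr B) W := by
  unfold FC
  refine and_congr_right fun _ => forall₂_congr fun v _ => ?_
  exact trn_pm ((erase_subset _ _).trans hW)

theorem trn_cm {Q W : Finset V} (hW : W ⊆ Q) : cm (trn B Q) W = cm B W := by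
  unfold cm tch
  congr 1
  ext i
  rw [mem_filter, mem_filter, trn_inter hW]

theorem trn_G {Q W : Finset V} (hW : W ⊆ Q) : G (trn B Q) W = G B W := by
  unfold G
  rw [trn_cm hW]

omit [Fintype ι] in
theorem trn_rho {Q W : Finset V} (hW : W ⊆ Q) : rho (trn B Q) W = rho B W :=
  rho_congr fun i => trn_inter hW i

omit [Fintype ι] in
theorem trn_sv {Q W : Finset V} (hW : W ⊆ Q) : sv (trn B Q) W = sv B W :=
  sv_congr fun i => trn_inter hW i

theorem trn_ee {Q W P : Finset V} (hW : W ⊆ Q) : ee (trn B Q) W P = ee B W P := by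
  unfold ee
  simp only [trn_inter hW]

end

end Pool.Agent.Hyp6
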