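import Pool.Agent.Hyp6.Gad

/-!
# HYP6 L3DEL: closings of sets which need not be connected, and the separation identity

`AbsData.connD`: the closed system is connected as soon as every part of the base set is hit by a new
point and the new points are linked. `close_genED`, `Gcl.mainD`: the general closings for such base
sets. `SepD`: a set cut into `L`, `R` by `X`; value identity and the cost bounds on the side `R` from
covers of the side `L`. `SepD.one`: one new point which stands for several refused points.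
-/

set_option autoImplicit false

namespace Pool.Agent.Hyp6

open Finset Pool.Agent.Hyp5

universe u v

section

variable {V : Type v} [DecidableEq V] {ι : Type u} [Fintype ι] {κ : Type u} [Fintype κ]
  {B : ι → Finset V} {C Y : Finset V} {E : V → Finset ι} {N : κ → Finset V}

/-- every part of `C` is hit and the new points are linked. -/
structure LinkD (B : ι → Finset V) (C Y : Finset V) (E : V → Finset ι) (N : κ → Finset V) :
    Prop where
  part : ∀ D ⊆ C, Closed (gr B) C D → D.Nonempty → ∃ y ∈ Y, ∃ i ∈ E y, (B i ∩ D).Nonempty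
  link : ∀ Z ⊆ Y, Z.Nonempty → Z ≠ Y →
    (∃ c, (N c ∩ Z).Nonempty ∧ (N c \ Z).Nonempty) ∨
    ∃ D ⊆ C, Conn (gr B) D ∧ (∃ y ∈ Z, ∃ i ∈ E y, (B i ∩ D).Nonempty) ∧
      ∃ y ∈ Y \ Z, ∃ i ∈ E y, (B i ∩ D).Nonempty

omit [Fintype ι] in
/-- the closed system is connected. -/
theorem AbsData.connD (h : AbsData B C Y E N) (hY : Y.Nonempty) (hl : LinkD B C Y E N) :
    Conn (gr (absG B C Y E N)) (C ∪ Y) := by
  refine ⟨hY.mono subset_union_right, fun Z hZ hne => ?_⟩
  have hadj : ∀ y ∈ Y, ∀ i ∈ E y, ∀ u ∈ C, u ∈ B i → (gr (absG B C Y E N)).Adj y u :=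
    fun y hy i hi u hu hui => h.adj_Y hy hu hi hui
  have hclo : ∀ D ⊆ C, Closed (gr B) D (Z ∩ D) := by
    intro D hD
    refine ⟨inter_subset_right, fun x hx y hy hxy => ?_⟩
    rw [mem_inter] at hx ⊢
    exact ⟨hZ.2 x hx.1 y (mem_union_left _ (hD hy)) ((h.adj_C (hD hx.2) (hD hy)).2 hxy), hy⟩
  have h1 : (Z ∩ Y).Nonempty := by
    obtain ⟨z, hz⟩ := hne
    rcases mem_union.1 (hZ.1 hz) with hzC | hzY
    · obtain ⟨y, hy, i, hi, u, hu⟩ := hl.part (Z ∩ C) inter_subset_right (hclo C (Subset.refl _))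
        ⟨z, mem_inter.2 ⟨hz, hzC⟩⟩
      rw [mem_inter, mem_inter] at hu
      exact ⟨y, mem_inter.2 ⟨hZ.2 u hu.2.1 y (mem_union_right _ hy)
        (hadj y hy i hi u hu.2.2 hu.1).symm, hy⟩⟩
    · exact ⟨z, mem_inter.2 ⟨hz, hzY⟩⟩
  have h2 : Z ∩ Y = Y := by
    by_contra hne'
    rcases hl.link (Z ∩ Y) inter_subset_right h1 hne' with
      ⟨c, ⟨a, ha⟩, b, hb⟩ | ⟨D, hDC, hDc, ⟨y, hy, i, hi, x, hx⟩, y', hy', i', hi', x', hx'⟩
    · rw [mem_inter, mem_inter] at ha
      rw [mem_sdiff, mem_inter] at hb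
      have hbY := h.subN c hb.1
      have hab : a ≠ b := fun he => hb.2 ⟨he ▸ ha.2.1, hbY⟩
      have hadj' : (gr (absG B C Y E N)).Adj a b :=
        ⟨hab, Sum.inr c, mem_absG_inr.2 ha.1, mem_absG_inr.2 hb.1⟩
      exact hb.2 ⟨hZ.2 a ha.2.1 b (mem_union_right _ hbY) hadj', hbY⟩
    · rw [mem_inter] at hy hx hx'
      rw [mem_sdiff, mem_inter] at hy'
      have hxZ : x ∈ Z := hZ.2 y hy.1 x (mem_union_left _ (hDC hx.2))
        (hadj y hy.2 i hi x (hDC hx.2) hx.1)
      have hD : Z ∩ D = D := hDc.2 _ (hclo D hDC) ⟨x, mem_inter.2 ⟨hxZ, hx.2⟩⟩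
      have hx'Z : x' ∈ Z := by
        have : x' ∈ Z ∩ D := by rw [hD]; exact hx'.2
        exact (mem_inter.1 this).1
      exact hy'.2 ⟨hZ.2 x' hx'Z y' (mem_union_right _ hy'.1)
        (hadj y' hy'.1 i' hi' x' (hDC hx'.2) hx'.1).symm, hy'.1⟩
  have hYZ : Y ⊆ Z := by rw [← h2]; exact inter_subset_left
  have hCZ : C ⊆ Z := by
    by_contra hn
    obtain ⟨w, hw, hwZ⟩ := not_subset.1 hn
    have hc : Closed (gr B) C (C \ Z) := by
      refine ⟨sdiff_subset, fun x hx y hy hxy => ?_⟩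
      rw [mem_sdiff] at hx ⊢
      exact ⟨hy, fun hyZ => hx.2 (hZ.2 y hyZ x (mem_union_left _ hx.1)
        ((h.adj_C hy hx.1).2 hxy.symm))⟩
    obtain ⟨y, hy, i, hi, u, hu⟩ := hl.part (C \ Z) sdiff_subset hc ⟨w, mem_sdiff.2 ⟨hw, hwZ⟩⟩
    rw [mem_inter, mem_sdiff] at hu
    exact hu.2.2 (hZ.2 y (hYZ hy) u (mem_union_left _ hu.2.1) (hadj y hy i hi u hu.2.1 hu.1))
  exact Subset.antisymm hZ.1 (union_subset hCZ hYZ)

end

variable {V : Type v} [DecidableEq V] {ι : Type u} [Fintype ι] {B : ι → Finset V}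

/-- closing, general form, the closed system connected. -/
theorem close_genED {κ : Type u} [Fintype κ] {Q W Y : Finset V} {E : V → Finset ι}
    {N : κ → Finset V} {n : ℕ} (h : AbsData B W Y E N) (ih : IHE.{u} V n)
    (hn : W.card + Y.card < n) (hr : Reg B Q) (hWQ : W ⊆ Q)
    (hcn : Conn (gr (absG B W Y E N)) (W ∪ Y))
    (hE : ∀ y ∈ Y, ∀ i ∈ E y, 2 ≤ (B i ∩ Q).card) (hK : ¬ KT (absG B W Y E N) (W ∪ Y))
    {r : ℕ} (hrho : rho B W + r ≤ rho (absG B W Y E N) (W ∪ Y))
    {Y2 : Finset V} (hY2 : Y2 ⊆ Y)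
    (hN2 : ∀ y ∈ Y2, 2 ≤ (univ.filter (fun c => N c = {y})).card) :
    (2 * (ee B Q W : ℤ) + 2 * (Y2.card : ℤ) + 24 * (r : ℤ) ≤
      Pv B W + 5 * (Y.card : ℤ) + 4 * (Fintype.card κ : ℤ) + 1) ∧
    (sv B W + Y.card ≤ 2 * r →
      2 * (ee B Q W : ℤ) + 2 * (Y2.card : ℤ) + 22 * (r : ℤ) +
        2 * (((ee B Q W : ℤ) + Y2.card + rho B W + r) % 2) ≤
      Pp B W + 4 * (Y.card : ℤ) + 4 * (Fintype.card κ : ℤ)) ∧
    (IHQ.{u} V n → 2 * r ≤ sv B W + Y.card →
      24 * (r : ℤ) ≤ Pv B W + 5 * (Y.card : ℤ) + 4 * (Fintype.card κ : ℤ)) := by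
  have hc : (W ∪ Y).card = W.card + Y.card := card_union_of_disjoint h.dis
  have hc' : ((W ∪ Y).card : ℤ) = W.card + Y.card := by exact_mod_cast hc
  have ht3 : Tr3 (absG B W Y E N) (W ∪ Y) := fun k =>
    (card_le_card inter_subset_left).trans (h.small k)
  have hlt : (W ∪ Y).card < n := by rw [hc]; exact hn
  have hr' := h.reg (hr.mono hWQ)
  have hok := ih (ι ⊕ κ) (absG B W Y E N) (W ∪ Y) hlt hr' ht3 hcn hK
  have hee := h.ee_ge hWQ hE hY2 hN2
  have h2 := h.Pv_eq
  have h3 : (rho B W : ℤ) + r ≤ rho (absG B W Y E N) (W ∪ Y) := by exact_mod_cast hrho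
  have h4 : (ee B Q W : ℤ) + Y2.card ≤ ee (absG B W Y E N) (W ∪ Y) (W ∪ Y) := by
    exact_mod_cast hee
  have h5 : Pp (absG B W Y E N) (W ∪ Y) = Pp B W + 4 * (Y.card : ℤ) + 4 * (Fintype.card κ : ℤ) -
      22 * ((rho (absG B W Y E N) (W ∪ Y) : ℤ) - rho B W) := by
    rw [Pp_eq, Pp_eq, h.cm, hc]
    push_cast
    ring
  have h6 : sv (absG B W Y E N) (W ∪ Y) = sv B W + Y.card -
      2 * ((rho (absG B W Y E N) (W ∪ Y) : ℤ) - rho B W) := by
    unfold sv
    rw [hc']
    ring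
  have h7 := Pp_mod4 (B := absG B W Y E N) (W ∪ Y)
  have h8 := Pv_eq_Pp (B := absG B W Y E N) (W ∪ Y)
  have h9 := Pv_eq_Pp (B := B) W
  have he0 : (0 : ℤ) ≤ ee (absG B W Y E N) (W ∪ Y) (W ∪ Y) := by positivity
  generalize hP : Pp (absG B W Y E N) (W ∪ Y) = P' at *
  generalize hV : Pv (absG B W Y E N) (W ∪ Y) = Q' at *
  generalize hS : sv (absG B W Y E N) (W ∪ Y) = S' at *
  generalize hR : (rho (absG B W Y E N) (W ∪ Y) : ℤ) = R' at *
  generalize hEE : (ee (absG B W Y E N) (W ∪ Y) (W ∪ Y) : ℤ) = e' at *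
  refine ⟨by linarith, fun hs => ?_, fun ihq hs => ?_⟩
  · have hS0 : S' ≤ 0 := by linarith
    have hP1 : 2 * e' ≤ P' := by
      have hev := Pp_even (B := absG B W Y E N) (W ∪ Y)
      rw [hP] at hev
      omega
    rcases lt_or_ge ((rho B W : ℤ) + r) R' with hlt' | hge'
    · have : 22 ≤ 22 * (R' - (rho B W + r)) := by linarith
      have hm : ((ee B Q W : ℤ) + Y2.card + rho B W + r) % 2 ≤ 1 := by omega
      linarith
    · have hRe : R' = rho B W + r := le_antisymm hge' h3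
      subst hRe
      have hP2 : 2 * ((ee B Q W : ℤ) + Y2.card) + 2 * (((ee B Q W : ℤ) + Y2.card + rho B W + r) % 2)
          ≤ P' := by omega
      linarith
  · rcases lt_or_ge ((rho B W : ℤ) + r) R' with hlt' | hge'
    · have : 24 ≤ 24 * (R' - (rho B W + r)) := by linarith
      linarith
    · have hRe : R' = rho B W + r := le_antisymm hge' h3
      have hS0 : 0 ≤ S' := by rw [h6, hRe]; linarith
      have hQ0 : 0 ≤ Q' := by
        rcases eq_or_lt_of_le hS0 with h0 | h0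
        · have hev := Pp_even (B := absG B W Y E N) (W ∪ Y)
          rw [hP] at hev
          omega
        · have := ihq (ι ⊕ κ) (absG B W Y E N) (W ∪ Y) hlt hr' ht3 hcn hK (by rw [hS]; omega)
          rwa [hV] at this
      linarith

section

variable {Q W : Finset V} {p d : ℕ} {J : Fin p → Finset V} {E : Fin p → Finset ι}
  {N : Fin d → Finset (Fin p)} {r : ℕ}

/-- linking conditions for the data of a general closing. -/
structure LnkG (B : ι → Finset V) (W : Finset V) {p d : ℕ} (E : Fin p → Finset ι)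
    (N : Fin d → Finset (Fin p)) : Prop where
  part : ∀ D ⊆ W, Closed (gr B) W D → D.Nonempty → ∃ z, ∃ i ∈ E z, (B i ∩ D).Nonempty
  link : ∀ Z : Finset (Fin p), Z.Nonempty → Z ≠ univ →
    (∃ c, (N c ∩ Z).Nonempty ∧ (N c \ Z).Nonempty) ∨
    ∃ D ⊆ W, Conn (gr B) D ∧ (∃ z ∈ Z, ∃ i ∈ E z, (B i ∩ D).Nonempty) ∧
      ∃ z, z ∉ Z ∧ ∃ i ∈ E z, (B i ∩ D).Nonempty

/-- a connected base set has the linking conditions. -/
theorem Gcl.lnk (h : Gcl B Q W J E N r) (hW : Conn (gr B) W) (hp : 0 < p) : LnkG B W E N := by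
  have hit : ∀ z, ∃ i ∈ E z, (B i ∩ W).Nonempty := by
    intro z
    obtain ⟨i, hi⟩ := h.Ene z
    exact ⟨i, hi, (mem_cxs.1 (h.EJ z hi)).1⟩
  refine ⟨fun D _ hD hne => ?_, fun Z hZ hne => Or.inr ⟨W, Subset.refl _, hW, ?_, ?_⟩⟩
  · have hDW : D = W := hW.2 D hD hne
    obtain ⟨i, hi, hi'⟩ := hit ⟨0, hp⟩
    exact ⟨⟨0, hp⟩, i, hi, by rw [hDW]; exact hi'⟩
  · obtain ⟨z, hz⟩ := hZ
    obtain ⟨i, hi⟩ := hit z
    exact ⟨z, hz, i, hi⟩
  · obtain ⟨z, hz⟩ : ∃ z, z ∉ Z := by
      by_contra hn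
      push Not at hn
      exact hne (eq_univ_iff_forall.2 hn)
    obtain ⟨i, hi⟩ := hit z
    exact ⟨z, hz, i, hi⟩

/-- **general closing of a set which need not be connected.** -/
theorem Gcl.mainD (h : Gcl B Q W J E N r) {n : ℕ} (ih : IHE.{u} V n) (hn : W.card + p < n)
    (hr : Reg B Q) (h3 : Tr3 B Q) (hp : 0 < p) (hl : LnkG B W E N)
    (hK : (∃ c, (N c).card ≤ 2) ∨ W.card + p ≠ 6)
    {Z2 : Finset (Fin p)} (hZ2 : ∀ z ∈ Z2, 2 ≤ (univ.filter (fun c => N c = {z})).card) :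
    (2 * (ee B Q W : ℤ) + 2 * (Z2.card : ℤ) + 24 * (r : ℤ) ≤
      Pv B W + 5 * (p : ℤ) + 4 * (d : ℤ) + 1) ∧
    (sv B W + p ≤ 2 * r →
      2 * (ee B Q W : ℤ) + 2 * (Z2.card : ℤ) + 22 * (r : ℤ) +
        2 * (((ee B Q W : ℤ) + Z2.card + rho B W + r) % 2) ≤
      Pp B W + 4 * (p : ℤ) + 4 * (d : ℤ)) ∧
    (IHQ.{u} V n → 2 * r ≤ sv B W + p →
      24 * (r : ℤ) ≤ Pv B W + 5 * (p : ℤ) + 4 * (d : ℤ)) := by
  classical
  obtain ⟨y, E', hinj, hy, hEy, habs, hrho⟩ := h.exists_abs hr h3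
  have hYc : (univ.image y).card = p := by
    rw [card_image_of_injective _ hinj, card_univ, Fintype.card_fin]
  have hκ : Fintype.card (ULift.{u} (Fin d)) = d := by simp
  have hE2 : ∀ v ∈ univ.image y, ∀ i ∈ E' v, 2 ≤ (B i ∩ Q).card := by
    intro v hv i hi
    obtain ⟨z, _, rfl⟩ := mem_image.1 hv
    rw [hEy] at hi
    exact h.two hi
  have hcn : Conn (gr (absG B W (univ.image y) E'
      (fun c : ULift.{u} (Fin d) => (N c.down).image y))) (W ∪ univ.image y) := by
    refine habs.connD ⟨y ⟨0, hp⟩, mem_image_of_mem _ (mem_univ _)⟩ ⟨?_, ?_⟩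
    · intro D hD hc hne
      obtain ⟨z, i, hi, hi'⟩ := hl.part D hD hc hne
      exact ⟨y z, mem_image_of_mem _ (mem_univ _), i, by rw [hEy]; exact hi, hi'⟩
    · intro Z hZ hne hne'
      have hZe : ∀ z, z ∈ univ.filter (fun z => y z ∈ Z) ↔ y z ∈ Z := by simp
      have h1 : (univ.filter (fun z => y z ∈ Z)).Nonempty := by
        obtain ⟨v, hv⟩ := hne
        obtain ⟨z, _, rfl⟩ := mem_image.1 (hZ hv)
        exact ⟨z, (hZe z).2 hv⟩
      have h2 : univ.filter (fun z => y z ∈ Z) ≠ univ := by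
        intro he
        apply hne'
        refine Subset.antisymm hZ fun v hv => ?_
        obtain ⟨z, _, rfl⟩ := mem_image.1 hv
        exact (hZe z).1 (by rw [he]; exact mem_univ _)
      rcases hl.link _ h1 h2 with ⟨c, ⟨a, ha⟩, b, hb⟩ |
        ⟨D, hD, hDc, ⟨z, hz, i, hi, hi'⟩, z', hz', j, hj, hj'⟩
      · rw [mem_inter, hZe] at ha
        rw [mem_sdiff, hZe] at hb
        exact Or.inl ⟨⟨c⟩, ⟨y a, mem_inter.2 ⟨mem_image_of_mem _ ha.1, ha.2⟩⟩,
          ⟨y b, mem_sdiff.2 ⟨mem_image_of_mem _ hb.1, hb.2⟩⟩⟩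
      · rw [hZe] at hz hz'
        exact Or.inr ⟨D, hD, hDc, ⟨y z, hz, i, by rw [hEy]; exact hi, hi'⟩,
          ⟨y z', mem_sdiff.2 ⟨mem_image_of_mem _ (mem_univ _), hz'⟩, j, by rw [hEy]; exact hj,
            hj'⟩⟩
  have hnK : ¬ KT (absG B W (univ.image y) E'
      (fun c : ULift.{u} (Fin d) => (N c.down).image y)) (W ∪ univ.image y) := by
    intro hKT
    rcases hK with ⟨c, hc⟩ | hK
    · have ht3 : Tr3 (absG B W (univ.image y) E'
          (fun c : ULift.{u} (Fin d) => (N c.down).image y)) (W ∪ univ.image y) := fun k =>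
        (card_le_card inter_subset_left).trans (habs.small k)
      have hne : (absG B W (univ.image y) E'
          (fun c : ULift.{u} (Fin d) => (N c.down).image y) (Sum.inr ⟨c⟩) ∩
            (W ∪ univ.image y)).Nonempty := by
        rw [habs.inter_self]
        obtain ⟨v, hv⟩ := habs.neN ⟨c⟩
        exact ⟨v, mem_absG_inr.2 hv⟩
      have h1 := hKT.trace (habs.reg (hr.mono h.WQ)) ht3 hne
      rw [habs.inter_self] at h1
      have h2 : absG B W (univ.image y) E'
          (fun c : ULift.{u} (Fin d) => (N c.down).image y) (Sum.inr ⟨c⟩) ⊆ (N c).image y := by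
        intro v hv
        have hv' := (mem_absG_inr (B := B) (C := W) (Y := univ.image y) (E := E')
          (N := fun c : ULift.{u} (Fin d) => (N c.down).image y) (c := ⟨c⟩)).1 hv
        exact hv'
      have h4 := (card_le_card h2).trans card_image_le
      omega
    · apply hK
      rw [← hKT.1, card_union_of_disjoint habs.dis, hYc]
  have hZ2' : ∀ v ∈ Z2.image y, 2 ≤ (univ.filter (fun c : ULift.{u} (Fin d) =>
      (N c.down).image y = {v})).card := by
    intro v hv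
    obtain ⟨z, hz, rfl⟩ := mem_image.1 hv
    refine (hZ2 z hz).trans ?_
    refine Finset.card_le_card_of_injOn (fun c => ULift.up c) ?_ ?_
    · intro c hc
      rw [mem_coe, mem_filter] at hc
      rw [mem_coe, mem_filter]
      refine ⟨mem_univ _, ?_⟩
      show (N c).image y = {y z}
      rw [hc.2, image_singleton]
    · intro c _ c' _ he
      simpa using he
  have hZc : (Z2.image y).card = Z2.card := card_image_of_injective _ hinj
  have h5 := close_genED habs ih (by rw [hYc]; exact hn) hr h.WQ hcn hE2 hnK hrho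
    (image_subset_image (subset_univ Z2)) hZ2'
  rw [hYc, hκ, hZc] at h5
  exact h5

end

/-- the set `Q` is cut by `X` into the separated sides `L` and `R`. -/
structure SepD (B : ι → Finset V) (Q L R X : Finset V) : Prop where
  XQ : X ⊆ Q
  dif : Q \ X = L ∪ R
  dis : Disjoint L R
  sep : Sep B L R

namespace SepD

variable {Q L R X : Finset V}

omit [Fintype ι] in
theorem LQ (h : SepD B Q L R X) : L ⊆ Q \ X := by
  rw [h.dif]; exact subset_union_left

omit [Fintype ι] in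
theorem RQ (h : SepD B Q L R X) : R ⊆ Q \ X := by
  rw [h.dif]; exact subset_union_right

omit [Fintype ι] in
theorem eq (h : SepD B Q L R X) : Q = (L ∪ R) ∪ X := by
  rw [← h.dif, sdiff_union_of_subset h.XQ]

omit [Fintype ι] in
theorem symm (h : SepD B Q L R X) : SepD B Q R L X :=
  ⟨h.XQ, by rw [h.dif, union_comm], h.dis.symm, h.sep.symm⟩

omit [Fintype ι] in
theorem rho_eq (h : SepD B Q L R X) (hc : Cov B Q) :
    rho B (Q \ X) = rho B L + rho B R := by
  rw [h.dif]
  exact rho_add (hc.mono (h.LQ.trans sdiff_subset)) (hc.mono (h.RQ.trans sdiff_subset)) h.sep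

/-- **the value identity.** -/
theorem Pv_eq (h : SepD B Q L R X) (hc : Cov B Q) :
    Pv B Q = Pv B L + Pv B R + 5 * (X.card : ℤ) + 4 * ((ins B Q X).card : ℤ) -
      24 * ((rho B Q : ℤ) - rho B L - rho B R) := by
  have h1 := Pv_sdiff (B := B) h.XQ
  have h2 := h.rho_eq hc
  rw [h2, h.dif, Pv_add (hc.mono (h.LQ.trans sdiff_subset)) (hc.mono (h.RQ.trans sdiff_subset))
    h.dis h.sep] at h1
  push_cast at h1
  linarith

omit [Fintype ι] in
theorem sv_eq (h : SepD B Q L R X) :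
    sv B Q = sv B L + sv B R + X.card - 2 * ((rho B Q : ℤ) - rho B L - rho B R) := by
  have h1 : Q.card = (Q \ X).card + X.card := (card_sdiff_add_card_eq_card h.XQ).symm
  have h2 : (Q \ X).card = L.card + R.card := by
    rw [h.dif, card_union_of_disjoint h.dis]
  unfold sv
  rw [h1, h2]
  push_cast
  ring

omit [Fintype ι] in
/-- **cost on the side `R` from a cover of the side `L`.** -/
theorem cost (h : SepD B Q L R X) (hc : Cov B Q) {S : Finset V} (hS : S ⊆ X) {k r : ℕ}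
    (hk : rho B (L ∪ (X \ S)) ≤ rho B L + k) (hr : rho B L + rho B R + r ≤ rho B Q) :
    rho B R + r ≤ rho B (R ∪ S) + k := by
  have h1 : Q = (L ∪ (X \ S)) ∪ (R ∪ S) := by
    rw [h.eq]
    ext v
    simp only [mem_union, mem_sdiff]
    constructor
    · rintro ((hv | hv) | hv)
      · exact Or.inl (Or.inl hv)
      · exact Or.inr (Or.inl hv)
      · by_cases hvS : v ∈ S
        · exact Or.inr (Or.inr hvS)
        · exact Or.inl (Or.inr ⟨hv, hvS⟩)
    · rintro ((hv | ⟨hv, _⟩) | (hv | hv))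
      · exact Or.inl (Or.inl hv)
      · exact Or.inr hv
      · exact Or.inl (Or.inr hv)
      · exact Or.inr (hS hv)
  have h2 : rho B Q ≤ rho B (L ∪ (X \ S)) + rho B (R ∪ S) := by
    conv_lhs => rw [h1]
    refine rho_union_le (hc.mono ?_) (hc.mono ?_)
    · refine union_subset (h.LQ.trans sdiff_subset) (sdiff_subset.trans h.XQ)
    · exact union_subset (h.RQ.trans sdiff_subset) (hS.trans h.XQ)
  omega

/-- **one new point for a group of refused points.** Every point of `J` is refused by `R`, and five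
blocks through `J` hit every part of `R`: the value of `R` is at least `18 + 2 e`. -/
theorem one (h : SepD B Q L R X) {J : Finset V} (hJ : J ⊆ X)
    (href : ∀ q ∈ J, rho B R + 1 ≤ rho B (insert q R)) {E : Finset ι} (hE : E ⊆ cxs B R J)
    (hE5 : E.card = 5) (hpart : ∀ D ⊆ R, Closed (gr B) R D → D.Nonempty →
      ∃ i ∈ E, (B i ∩ D).Nonempty) (hR5 : R.card ≠ 5) {n : ℕ} (ih : IHE.{u} V n)
    (hn : R.card + 1 < n) (hr : Reg B Q) (h3 : Tr3 B Q) :
    18 + 2 * (ee B Q R : ℤ) ≤ Pv B R ∧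
      (IHQ.{u} V n → 1 ≤ sv B R → 19 ≤ Pv B R) := by
  classical
  have hJR : J ⊆ Q \ R := by
    intro v hv
    refine mem_sdiff.2 ⟨h.XQ (hJ hv), fun hvR => ?_⟩
    exact (mem_sdiff.1 (h.RQ hvR)).2 (hJ hv)
  have hg : Gcl B Q R (p := 1) (d := 0) (fun _ => J) (fun _ => E) Fin.elim0 1 := by
    refine ⟨h.RQ.trans sdiff_subset, fun _ => hJR, ?_, fun _ => hE, ?_, ?_, ?_, ?_, ?_⟩
    · intro z z' hne
      exact absurd (Subsingleton.elim z z') hne
    · intro _
      exact card_pos.1 (by rw [hE5]; norm_num)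
    · intro z
      rw [hE5]
      simp
    · intro c
      exact c.elim0
    · intro c
      exact c.elim0
    · intro K f hf
      have h0 : K = ∅ := by
        rw [eq_empty_iff_forall_notMem]
        exact fun c => c.elim0
      have h1 : f 0 ∈ J := hf 0 (fun c => c.elim0)
      have h2 : (univ.filter (fun z : Fin 1 => ∀ c ∈ K, z ∉ (Fin.elim0 c : Finset (Fin 1)))) =
          {0} := by
        ext z
        simp only [mem_filter, mem_univ, true_and, mem_singleton]
        exact ⟨fun _ => Subsingleton.elim _ _, fun _ c => c.elim0⟩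
      rw [h2, image_singleton, h0, card_empty, add_zero, union_comm, ← insert_eq]
      exact href _ h1
  have hl : LnkG B R (p := 1) (d := 0) (fun _ => E) Fin.elim0 := by
    refine ⟨fun D hD hc hne => ⟨0, hpart D hD hc hne⟩, fun Z hZ hne => ?_⟩
    exfalso
    apply hne
    obtain ⟨z, hz⟩ := hZ
    refine eq_univ_iff_forall.2 fun z' => ?_
    rw [Subsingleton.elim z' z]
    exact hz
  have h5 := hg.mainD ih hn hr h3 one_pos hl (Or.inr (by omega)) (Z2 := ∅) (by simp)
  obtain ⟨h6, _, h7⟩ := h5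
  rw [card_empty] at h6
  push_cast at h6 h7
  refine ⟨by linarith, fun ihq hs => ?_⟩
  have := h7 ihq (by linarith)
  linarith

end SepD

end Pool.Agent.Hyp6
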