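import Pool.Agent.Hyp6.L3De

/-!
# HYP6 L3Dg: the doubled configuration, the cases

Existence of the families and the exclusion of the configuration.
-/

set_option autoImplicit false

namespace Pool.Agent.Hyp6

open Finset Pool.Agent.Hyp5

universe u v

variable {V : Type v} [DecidableEq V] {ι : Type u} [Fintype ι] {B : ι → Finset V}

namespace DblC

variable {Q K : Finset V} {x a b c : V} {A : Fin 3 → ι} {P R j k0 B1 C1 C2 : ι} {y : Fin 3 → V}
  {y4 : V} {T : Fin 3 → ι} {p : V} {t : ι} {M0 M1 M2 M3 M4 : Finset V}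

section

variable (h : DblC B Q K x a b c A P R j k0 B1 C1 C2 y y4 T)
include h

/-- the outer part of a block. -/
def ou (_h : DblC B Q K x a b c A P R j k0 B1 C1 C2 y y4 T) (p : V) (i : ι) : Finset V :=
  (B i ∩ Q) \ (insert p ({x, a, b, c} : Finset V))

theorem mem_ou {p : V} {i : ι} {v : V} : v ∈ h.ou p i ↔
    v ∈ B i ∧ v ∈ Q ∧ v ∉ ({x, a, b, c} : Finset V) ∧ v ≠ p := by
  unfold ou
  simp only [mem_sdiff, mem_inter, mem_insert, not_or]
  tauto

theorem ou_card {p : V} {i : ι} {w : V} (hw : w ∈ B i) (hwL : w ∈ ({x, a, b, c} : Finset V)) :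
    (h.ou p i).card ≤ 2 := by
  have h1 : insert w (h.ou p i) ⊆ B i ∩ Q := by
    intro v hv
    rcases mem_insert.1 hv with rfl | hv
    · exact mem_inter.2 ⟨hw, h.L_Q hwL⟩
    · have := h.mem_ou.1 hv
      exact mem_inter.2 ⟨this.1, this.2.1⟩
  have h2 := card_le_card h1
  rw [card_insert_of_notMem (fun h3 => (h.mem_ou.1 h3).2.2.1 hwL)] at h2
  have h3 := h.viol.tr i
  omega

theorem K_ou {p : V} (hpK : p ∉ K) {i : ι} {v : V} (hv : v ∈ K) (hvi : v ∈ B i) :
    v ∈ h.ou p i := by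
  refine h.mem_ou.2 ⟨hvi, h.KQ hv, h.notL (fun e => h.Kx (e ▸ hv)) (fun e => h.Ka (e ▸ hv))
    (fun e => h.Kb (e ▸ hv)) (fun e => h.Kc (e ▸ hv)), fun e => hpK (e ▸ hv)⟩

theorem ou_R (p : V) : (h.ou p R).card ≤ 1 := by
  refine card_le_one.2 fun v hv w hw => ?_
  obtain ⟨h1, h2, h3, _⟩ := h.mem_ou.1 hv
  obtain ⟨g1, g2, g3, _⟩ := h.mem_ou.1 hw
  rw [(h.mR' h2 h3).1 h1, (h.mR' g2 g3).1 g1]

/-- the right family if `y4` is not in the first further block of `c`. -/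
theorem right_a (hpK : p ∉ K) (hy : y4 ∉ B C1) :
    RDt B Q K x a b c R B1 C1 C2 p (h.ou p C1 ∪ h.ou p R) (h.ou p C2) (h.ou p B1) := by
  classical
  have hcL : c ∈ ({x, a, b, c} : Finset V) := by simp
  have hbL : b ∈ ({x, a, b, c} : Finset V) := by simp
  refine ⟨?_, fun v hv => (h.mem_ou.1 hv).2, fun v hv => (h.mem_ou.1 hv).2, ?_, ?_,
    h.ou_card h.cC2 hcL, (h.ou_card h.bB1 hbL).trans (by norm_num),
    fun v hv hvi => mem_union_left _ (h.K_ou hpK hv hvi), fun v hv hvi => h.K_ou hpK hv hvi,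
    fun v hv hvi => h.K_ou hpK hv hvi, ?_⟩
  · intro v hv
    rcases mem_union.1 hv with h1 | h1 <;> exact (h.mem_ou.1 h1).2
  · intro v hvQ hvL hvp
    have e : ∀ i, v ∈ h.ou p i ↔ v ∈ B i := fun i => by
      rw [h.mem_ou]
      tauto
    simp only [mem_union, e]
    by_cases h1 : v ∈ B R
    · have h2 : v ∉ B C1 := by
        rw [(h.mR' hvQ hvL).1 h1]
        exact hy
      simp only [h1, h2]
      split_ifs <;> simp_all
    · simp only [h1]
      split_ifs <;> simp_all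
  · have h1 := card_union_le (h.ou p C1) (h.ou p R)
    have h2 := h.ou_card (p := p) h.cC1 hcL
    have h3 := h.ou_R p
    omega
  · intro q2 q3 q4
    have s1 : ∀ (S : Finset ι) (i : ι), i ∈ S → h.ou p i ⊆ S.biUnion B := fun S i hi v hv =>
      mem_biUnion.2 ⟨i, hi, (h.mem_ou.1 hv).1⟩
    refine ⟨(if q2 = true then {R, C1} else {P}) ∪ (if q3 = true then {C2} else ∅) ∪
      (if q4 = true then {B1} else ∅), ?_, ?_, ?_, ?_, ?_, ?_⟩
    · rw [mem_biUnion]
      cases q2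
      · exact ⟨P, by simp, h.bP⟩
      · exact ⟨R, by simp, h.bR⟩
    · rw [mem_biUnion]
      cases q2
      · exact ⟨P, by simp, h.cP⟩
      · exact ⟨C1, by simp, h.cC1⟩
    · rintro rfl
      exact union_subset (s1 _ _ (by simp)) (s1 _ _ (by simp))
    · rintro rfl
      exact s1 _ _ (by simp)
    · rintro rfl
      exact s1 _ _ (by simp)
    · refine (card_union_le _ _).trans ?_
      refine (Nat.add_le_add_right (card_union_le _ _) _).trans ?_
      have h1 : (({R, C1} : Finset ι)).card ≤ 2 := card_le_two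
      cases q2 <;> cases q3 <;> cases q4 <;> simp <;> omega

/-- the right family if `y4` is in the first further block of `c` but not in the one of `b`. -/
theorem right_b (hpK : p ∉ K) (hy : y4 ∉ B B1) (hy1 : y4 ∈ B C1) :
    RDt B Q K x a b c R B1 C1 C2 p (h.ou p C1) (h.ou p C2) (h.ou p B1 ∪ h.ou p R) := by
  classical
  have hcL : c ∈ ({x, a, b, c} : Finset V) := by simp
  have hbL : b ∈ ({x, a, b, c} : Finset V) := by simp
  refine ⟨fun v hv => (h.mem_ou.1 hv).2, fun v hv => (h.mem_ou.1 hv).2, ?_, ?_,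
    (h.ou_card h.cC1 hcL).trans (by norm_num),
    h.ou_card h.cC2 hcL, ?_,
    fun v hv hvi => h.K_ou hpK hv hvi, fun v hv hvi => h.K_ou hpK hv hvi,
    fun v hv hvi => mem_union_left _ (h.K_ou hpK hv hvi), ?_⟩
  · intro v hv
    rcases mem_union.1 hv with h1 | h1 <;> exact (h.mem_ou.1 h1).2
  · intro v hvQ hvL hvp
    have e : ∀ i, v ∈ h.ou p i ↔ v ∈ B i := fun i => by
      rw [h.mem_ou]
      tauto
    simp only [mem_union, e]
    by_cases h1 : v ∈ B R
    · have h2 : v ∉ B B1 := by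
        rw [(h.mR' hvQ hvL).1 h1]
        exact hy
      simp only [h1, h2]
      split_ifs <;> simp_all
    · simp only [h1]
      split_ifs <;> simp_all
  · have h1 := card_union_le (h.ou p B1) (h.ou p R)
    have h2 := h.ou_card (p := p) h.bB1 hbL
    have h3 := h.ou_R p
    omega
  · intro q2 q3 q4
    have s1 : ∀ (S : Finset ι) (i : ι), i ∈ S → h.ou p i ⊆ S.biUnion B := fun S i hi v hv =>
      mem_biUnion.2 ⟨i, hi, (h.mem_ou.1 hv).1⟩
    refine ⟨(if q4 = true then {B1, C1} else {P}) ∪ (if q2 = true then {C1} else ∅) ∪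
      (if q3 = true then {C2} else ∅), ?_, ?_, ?_, ?_, ?_, ?_⟩
    · rw [mem_biUnion]
      cases q4
      · exact ⟨P, by simp, h.bP⟩
      · exact ⟨B1, by simp, h.bB1⟩
    · rw [mem_biUnion]
      cases q4
      · exact ⟨P, by simp, h.cP⟩
      · exact ⟨C1, by simp, h.cC1⟩
    · rintro rfl
      exact s1 _ _ (by simp)
    · rintro rfl
      exact s1 _ _ (by simp)
    · rintro rfl
      refine union_subset (s1 _ _ (by simp)) fun v hv => ?_
      obtain ⟨h1, h2, h3, _⟩ := h.mem_ou.1 hv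
      rw [(h.mR' h2 h3).1 h1]
      exact mem_biUnion.2 ⟨C1, by simp, hy1⟩
    · refine (card_union_le _ _).trans ?_
      refine (Nat.add_le_add_right (card_union_le _ _) _).trans ?_
      have h1 : (({B1, C1} : Finset ι)).card ≤ 2 := card_le_two
      cases q2 <;> cases q3 <;> cases q4 <;> simp <;> omega

/-- the left family if `y 1` is not in the triple of `y 0`. -/
theorem left_a (hy : y 1 ∉ B (T 0)) :
    LDb B Q x a b c A (y 0) (T 0) (insert (y 1) (h.ou (y 0) (T 0))) (h.ou (y 0) (A 2)) := by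
  classical
  have hxL : x ∈ ({x, a, b, c} : Finset V) := by simp
  have h10 : y 1 ≠ y 0 := fun e => hy (e ▸ h.ty 0)
  have hcT : (h.ou (y 0) (T 0)).card ≤ 2 := by
    have h1 : insert (y 0) (h.ou (y 0) (T 0)) ⊆ B (T 0) ∩ Q := by
      intro v hv
      rcases mem_insert.1 hv with rfl | hv
      · exact mem_inter.2 ⟨h.ty 0, h.yQ 0⟩
      · have := h.mem_ou.1 hv
        exact mem_inter.2 ⟨this.1, this.2.1⟩
    have h2 := card_le_card h1
    rw [card_insert_of_notMem (fun h3 => (h.mem_ou.1 h3).2.2.2 rfl), h.t3] at h2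
    omega
  refine ⟨h.yQ 0, h.yL 0, h.t3 0, h.tLn 0, ?_, fun v hv => (h.mem_ou.1 hv).2, ?_, ?_,
    (h.ou_card (h.xA 2) hxL).trans (by norm_num), ?_⟩
  · intro v hv
    rcases mem_insert.1 hv with rfl | hv
    · exact ⟨h.yQ 1, h.yL 1, h10⟩
    · exact (h.mem_ou.1 hv).2
  · intro v hvQ hvL hvp
    have e : ∀ i, v ∈ h.ou (y 0) i ↔ v ∈ B i := fun i => by
      rw [h.mem_ou]
      tauto
    simp only [mem_insert, e, h.mA' _ hvQ hvL, hvp]
    by_cases h1 : v = y 1
    · have h2 : v ∉ B (T 0) := by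
        rw [h1]
        exact hy
      simp only [h1]
      rw [h1] at h2
      simp only [h2]
      split_ifs <;> simp_all
    · simp only [h1]
      split_ifs <;> simp_all
  · have h1 := card_insert_le (y 1) (h.ou (y 0) (T 0))
    omega
  · intro q0 q1
    have s1 : ∀ (S : Finset ι) (i : ι), i ∈ S → h.ou (y 0) i ⊆ S.biUnion B := fun S i hi v hv =>
      mem_biUnion.2 ⟨i, hi, (h.mem_ou.1 hv).1⟩
    refine ⟨(if q0 = true then {T 0, A 1} else {A 0}) ∪ (if q1 = true then {A 2} else ∅),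
      ?_, ?_, ?_, ?_, ?_, ?_⟩
    · rw [mem_biUnion]
      cases q0
      · exact ⟨A 0, by simp, h.xA 0⟩
      · exact ⟨A 1, by simp, h.xA 1⟩
    · rw [mem_biUnion]
      cases q0
      · exact ⟨A 0, by simp, h.aA 0⟩
      · exact ⟨A 1, by simp, h.aA 1⟩
    · rw [mem_biUnion]
      cases q0
      · exact ⟨A 0, by simp, h.yA 0⟩
      · exact ⟨T 0, by simp, h.ty 0⟩
    · rintro rfl
      intro v hv
      rcases mem_insert.1 hv with rfl | hv
      · exact mem_biUnion.2 ⟨A 1, by simp, h.yA 1⟩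
      · exact s1 _ _ (by simp) hv
    · rintro rfl
      exact s1 _ _ (by simp)
    · refine (card_union_le _ _).trans ?_
      have h1 : (({T 0, A 1} : Finset ι)).card ≤ 2 := card_le_two
      cases q0 <;> cases q1 <;> simp <;> omega

/-- the left family if `y 1` and `y 2` are in the triple of `y 0`. -/
theorem left_b (h1 : y 1 ∈ B (T 0)) (h2 : y 2 ∈ B (T 0))
    (h3 : y 1 ≠ y 2 ∨ (y 1 = y 0 ∧ y 2 = y 0)) :
    LDb B Q x a b c A (y 0) (T 0) (h.ou (y 0) (T 0)) (h.ou (y 0) (A 1) ∪ h.ou (y 0) (A 2)) := by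
  classical
  have hxL : x ∈ ({x, a, b, c} : Finset V) := by simp
  have hcT : (h.ou (y 0) (T 0)).card ≤ 2 := by
    have h1 : insert (y 0) (h.ou (y 0) (T 0)) ⊆ B (T 0) ∩ Q := by
      intro v hv
      rcases mem_insert.1 hv with rfl | hv
      · exact mem_inter.2 ⟨h.ty 0, h.yQ 0⟩
      · have := h.mem_ou.1 hv
        exact mem_inter.2 ⟨this.1, this.2.1⟩
    have h2 := card_le_card h1
    rw [card_insert_of_notMem (fun h3 => (h.mem_ou.1 h3).2.2.2 rfl), h.t3] at h2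
    omega
  have hsub : h.ou (y 0) (A 1) ∪ h.ou (y 0) (A 2) ⊆ h.ou (y 0) (T 0) := by
    intro v hv
    rcases mem_union.1 hv with hv | hv
    · obtain ⟨g1, g2, g3, g4⟩ := h.mem_ou.1 hv
      refine h.mem_ou.2 ⟨?_, g2, g3, g4⟩
      rw [(h.mA' _ g2 g3).1 g1]
      exact h1
    · obtain ⟨g1, g2, g3, g4⟩ := h.mem_ou.1 hv
      refine h.mem_ou.2 ⟨?_, g2, g3, g4⟩
      rw [(h.mA' _ g2 g3).1 g1]
      exact h2
  refine ⟨h.yQ 0, h.yL 0, h.t3 0, h.tLn 0, fun v hv => (h.mem_ou.1 hv).2,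
    fun v hv => (h.mem_ou.1 (hsub hv)).2, ?_, hcT.trans (by norm_num),
    (card_le_card hsub).trans (hcT.trans (by norm_num)), ?_⟩
  · intro v hvQ hvL hvp
    have e : ∀ i, v ∈ h.ou (y 0) i ↔ v ∈ B i := fun i => by
      rw [h.mem_ou]
      tauto
    simp only [mem_union, e, h.mA' _ hvQ hvL, hvp]
    by_cases g1 : v = y 1
    · by_cases g2 : v = y 2
      · exfalso
        rcases h3 with h3 | h3
        · exact h3 (g1.symm.trans g2)
        · exact hvp (g1.trans h3.1)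
      · simp only [g1, g2]
        split_ifs <;> simp_all
    · simp only [g1]
      split_ifs <;> simp_all
  · intro q0 q1
    have s1 : ∀ (S : Finset ι) (i : ι), i ∈ S → h.ou (y 0) i ⊆ S.biUnion B := fun S i hi v hv =>
      mem_biUnion.2 ⟨i, hi, (h.mem_ou.1 hv).1⟩
    refine ⟨(if (q0 || q1) = true then {T 0, A 0} else {A 0}),
      ?_, ?_, ?_, ?_, ?_, ?_⟩
    · rw [mem_biUnion]
      exact ⟨A 0, by split_ifs <;> simp, h.xA 0⟩
    · rw [mem_biUnion]
      exact ⟨A 0, by split_ifs <;> simp, h.aA 0⟩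
    · rw [mem_biUnion]
      exact ⟨A 0, by split_ifs <;> simp, h.yA 0⟩
    · rintro rfl
      exact s1 _ _ (by simp)
    · rintro rfl
      exact hsub.trans (s1 _ _ (by simp))
    · have h1 : (({T 0, A 0} : Finset ι)).card ≤ 2 := card_le_two
      cases q0 <;> cases q1 <;> simp <;> omega

end

/-- a right family exists for all points outside of `K`. -/
def RightOk (B : ι → Finset V) (Q K : Finset V) (x a b c : V) (R B1 C1 C2 : ι) : Prop :=
  ∀ p, p ∉ K → ∃ M2 M3 M4, RDt B Q K x a b c R B1 C1 C2 p M2 M3 M4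

variable (h : DblC B Q K x a b c A P R j k0 B1 C1 C2 y y4 T)
include h

/-- all three points in one triple. -/
theorem caseL1 (hR : RightOk B Q K x a b c R B1 C1 C2) (h1 : y 1 ∈ B (T 0)) (h2 : y 2 ∈ B (T 0))
    (h3 : y 1 ≠ y 2 ∨ (y 1 = y 0 ∧ y 2 = y 0)) : False := by
  obtain ⟨M2, M3, M4, hR'⟩ := hR (y 0) (h.yK 0)
  have hL := h.left_b h1 h2 h3
  have hsub : h.ou (y 0) (A 1) ∪ h.ou (y 0) (A 2) ⊆ h.ou (y 0) (T 0) := by
    intro v hv
    rcases mem_union.1 hv with hv | hv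
    · obtain ⟨g1, g2, g3, g4⟩ := h.mem_ou.1 hv
      refine h.mem_ou.2 ⟨?_, g2, g3, g4⟩
      rw [(h.mA' _ g2 g3).1 g1]
      exact h1
    · obtain ⟨g1, g2, g3, g4⟩ := h.mem_ou.1 hv
      refine h.mem_ou.2 ⟨?_, g2, g3, g4⟩
      rw [(h.mA' _ g2 g3).1 g1]
      exact h2
  have hcT : (h.ou (y 0) (T 0)).card = 2 := by
    have h1 : insert (y 0) (h.ou (y 0) (T 0)) = B (T 0) ∩ Q := by
      ext v
      rw [mem_insert, h.mem_ou, mem_inter]
      constructor
      · rintro (rfl | hv)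
        · exact ⟨h.ty 0, h.yQ 0⟩
        · exact ⟨hv.1, hv.2.1⟩
      · rintro ⟨g1, g2⟩
        by_cases g3 : v = y 0
        · exact Or.inl g3
        · exact Or.inr ⟨g1, g2, fun g4 => h.tLn 0 ⟨v, mem_inter.2 ⟨g1, g4⟩⟩, g3⟩
    have h2 := congrArg card h1
    rw [card_insert_of_notMem (fun h3 => (h.mem_ou.1 h3).2.2.2 rfl), h.t3] at h2
    omega
  refine h.finA hL hR' (h.yK 0) (h.Ky 0) ?_ (Or.inl ⟨card_pos.1 (by omega), hcT.le⟩)
  intro Z hZ
  by_cases h4 : (h.ou (y 0) (T 0) ∩ Z).Nonempty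
  · obtain ⟨w, hw⟩ := h4
    rw [mem_inter] at hw
    have h5 : h.ou (y 0) (T 0) ⊆ Z := hZ.new (ULift.up 0) w hw.2 hw.1
    exact Or.inl ⟨h5, hsub.trans h5⟩
  · rw [not_nonempty_iff_eq_empty, ← disjoint_iff_inter_eq_empty] at h4
    exact Or.inr ⟨h4, h4.mono_left hsub⟩

/-- the second new block is inside the first one. -/
theorem caseL2 (hR : RightOk B Q K x a b c R B1 C1 C2) (h1 : y 1 ∉ B (T 0))
    (h2 : y 2 = y 1 ∨ (y 2 ∈ B (T 0) ∧ y 2 ≠ y 0)) : False := by
  obtain ⟨M2, M3, M4, hR'⟩ := hR (y 0) (h.yK 0)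
  have hL := h.left_a h1
  have h10 : y 1 ≠ y 0 := fun e => h1 (e ▸ h.ty 0)
  have h20 : y 2 ≠ y 0 := by
    rcases h2 with h2 | h2
    · rw [h2]
      exact h10
    · exact h2.2
  have hy2 : y 2 ∈ h.ou (y 0) (A 2) := h.mem_ou.2 ⟨h.yA 2, h.yQ 2, h.yL 2, h20⟩
  have hy2' : ∀ v ∈ h.ou (y 0) (A 2), v = y 2 := fun v hv => by
    obtain ⟨g1, g2, g3, _⟩ := h.mem_ou.1 hv
    exact (h.mA' _ g2 g3).1 g1
  have hm : y 2 ∈ insert (y 1) (h.ou (y 0) (T 0)) := by
    rcases h2 with h2 | h2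
    · rw [h2]
      exact mem_insert_self _ _
    · exact mem_insert_of_mem (h.mem_ou.2 ⟨h2.1, h.yQ 2, h.yL 2, h2.2⟩)
  have hsub : h.ou (y 0) (A 2) ⊆ insert (y 1) (h.ou (y 0) (T 0)) := fun v hv => by
    rw [hy2' v hv]
    exact hm
  refine h.finA hL hR' (h.yK 0) (h.Ky 0) ?_ (Or.inr ⟨⟨y 2, hy2⟩,
    h.ou_card (h.xA 2) (by simp)⟩)
  intro Z hZ
  by_cases h4 : (insert (y 1) (h.ou (y 0) (T 0)) ∩ Z).Nonempty
  · obtain ⟨w, hw⟩ := h4
    rw [mem_inter] at hw
    have h5 : insert (y 1) (h.ou (y 0) (T 0)) ⊆ Z := hZ.new (ULift.up 0) w hw.2 hw.1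
    exact Or.inl ⟨h5, hsub.trans h5⟩
  · rw [not_nonempty_iff_eq_empty, ← disjoint_iff_inter_eq_empty] at h4
    exact Or.inr ⟨h4, h4.mono_left hsub⟩

end DblC

end Pool.Agent.Hyp6
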