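import Pool.Agent.Hyp6.L3Dg

/-!
# HYP6 L3Dh: the doubled configuration, the general case and the conclusion

`DblC.caseL3`: three different triples. `DblC.gam`: the point `y4` is in all three further blocks.
`DblC.false`: the configuration does not exist.
-/

set_option autoImplicit false

namespace Pool.Agent.Hyp6

open Finset Pool.Agent.Hyp5

universe u v

variable {V : Type v} [DecidableEq V] {ι : Type u} [Fintype ι] {B : ι → Finset V}

namespace DblC

variable {Q K : Finset V} {x a b c : V} {A : Fin 3 → ι} {P R j k0 B1 C1 C2 : ι} {y : Fin 3 → V}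
  {y4 : V} {T : Fin 3 → ι} {p : V} {t : ι} {M0 M1 M2 M3 M4 : Finset V}

theorem subN5 (hL : LDb B Q x a b c A p t M0 M1) (hR : RDt B Q K x a b c R B1 C1 C2 p M2 M3 M4) :
    ∀ c' : ULift.{u} (Fin 5), ∀ v ∈ (![M0, M1, M2, M3, M4] : Fin 5 → Finset V) c'.down,
      v ∈ Q ∧ v ∉ ({x, a, b, c} : Finset V) ∧ v ∉ ({p} : Finset V) := by
  rintro ⟨c'⟩ v hv
  have h1 : v ∈ Q ∧ v ∉ ({x, a, b, c} : Finset V) ∧ v ≠ p := by
    fin_cases c'
    · exact hL.sub0 v hv
    · exact hL.sub1 v hv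
    · exact hR.sub2 v hv
    · exact hR.sub3 v hv
    · exact hR.sub4 v hv
  exact ⟨h1.1, h1.2.1, by simpa using h1.2.2⟩

variable (h : DblC B Q K x a b c A P R j k0 B1 C1 C2 y y4 T)
include h

theorem ou_A2 (h20 : y 2 ≠ y 0) : h.ou (y 0) (A 2) = {y 2} := by
  ext v
  rw [h.mem_ou, mem_singleton]
  constructor
  · rintro ⟨g1, g2, g3, _⟩
    exact (h.mA' _ g2 g3).1 g1
  · rintro rfl
    exact ⟨h.yA 2, h.yQ 2, h.yL 2, h20⟩

/-- if the left family is not linked then a closed set separates it. -/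
theorem sepA (h1 : y 1 ∉ B (T 0)) (h20 : y 2 ≠ y 0)
    (hR : RDt B Q K x a b c R B1 C1 C2 (y 0) M2 M3 M4) :
    ∃ Z, Ncl B Q ({x, a, b, c} : Finset V) {y 0} {T 0}
      (fun c' : ULift.{u} (Fin 5) => (![insert (y 1) (h.ou (y 0) (T 0)), h.ou (y 0) (A 2), M2,
        M3, M4] : Fin 5 → Finset V) c'.down) Z ∧
      insert (y 1) (h.ou (y 0) (T 0)) ⊆ Z ∧ y 2 ∉ Z := by
  by_contra hcon
  push Not at hcon
  have hL := h.left_a h1
  have hA2 := h.ou_A2 h20
  refine h.finA hL hR (h.yK 0) (h.Ky 0) ?_ (Or.inr (by rw [hA2]; simp))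
  intro Z hZ
  have hsub := subN5 hL hR
  by_cases h4 : (insert (y 1) (h.ou (y 0) (T 0)) ∩ Z).Nonempty
  · obtain ⟨w, hw⟩ := h4
    rw [mem_inter] at hw
    have h5 : insert (y 1) (h.ou (y 0) (T 0)) ⊆ Z := hZ.new (ULift.up 0) w hw.2 hw.1
    refine Or.inl ⟨h5, ?_⟩
    rw [hA2, singleton_subset_iff]
    exact hcon Z hZ h5
  · rw [not_nonempty_iff_eq_empty, ← disjoint_iff_inter_eq_empty] at h4
    refine Or.inr ⟨h4, ?_⟩
    rw [hA2, disjoint_singleton_left]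
    have h5 := hcon _ (hZ.compl hsub) (fun v hv => by
      have h6 := hsub (ULift.up 0) v hv
      exact mem_sdiff.2 ⟨mem_sdiff.2 ⟨h6.1, fun h7 => by
        rcases mem_union.1 h7 with h8 | h8
        · exact h6.2.1 h8
        · exact h6.2.2 h8⟩, disjoint_left.1 h4 hv⟩)
    exact (mem_sdiff.1 h5).2

/-- if the second left block alone is not a class then a closed set separates the first one from the
right family. -/
theorem sepB (h1 : y 1 ∉ B (T 0)) (h20 : y 2 ≠ y 0)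
    (hR : RDt B Q K x a b c R B1 C1 C2 (y 0) M2 M3 M4) :
    ∃ Z, Ncl B Q ({x, a, b, c} : Finset V) {y 0} {T 0}
      (fun c' : ULift.{u} (Fin 5) => (![insert (y 1) (h.ou (y 0) (T 0)), h.ou (y 0) (A 2), M2,
        M3, M4] : Fin 5 → Finset V) c'.down) Z ∧
      insert (y 1) (h.ou (y 0) (T 0)) ⊆ Z ∧ (Disjoint M2 Z ∧ Disjoint M3 Z ∧ Disjoint M4 Z) := by
  by_contra hcon
  push Not at hcon
  have hL := h.left_a h1
  have hA2 := h.ou_A2 h20
  refine h.finB hL hR ?_ (by rw [hA2]; simp)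
  intro Z hZ
  have hsub := subN5 hL hR
  by_cases h4 : (insert (y 1) (h.ou (y 0) (T 0)) ∩ Z).Nonempty
  · obtain ⟨w, hw⟩ := h4
    rw [mem_inter] at hw
    have h5 : insert (y 1) (h.ou (y 0) (T 0)) ⊆ Z := hZ.new (ULift.up 0) w hw.2 hw.1
    rcases h.right_class hR (h.yK 0) (h.Ky 0) hZ with h6 | ⟨h6, h7, h8⟩
    · exact Or.inl ⟨h5, h6⟩
    · exact absurd h8 (hcon Z hZ h5 h6 h7)
  · rw [not_nonempty_iff_eq_empty, ← disjoint_iff_inter_eq_empty] at h4
    have hZ' := hZ.compl hsub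
    have h5 : insert (y 1) (h.ou (y 0) (T 0)) ⊆ (Q \ (({x, a, b, c} : Finset V) ∪ {y 0})) \ Z :=
      fun v hv => by
        have h6 := hsub (ULift.up 0) v hv
        exact mem_sdiff.2 ⟨mem_sdiff.2 ⟨h6.1, fun h7 => by
          rcases mem_union.1 h7 with h8 | h8
          · exact h6.2.1 h8
          · exact h6.2.2 h8⟩, disjoint_left.1 h4 hv⟩
    rcases h.right_class hR (h.yK 0) (h.Ky 0) hZ' with ⟨h6, h7, h8⟩ | ⟨h6, h7, h8⟩
    · have key : ∀ M' : Finset V, M' ⊆ (Q \ (({x, a, b, c} : Finset V) ∪ {y 0})) \ Z →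
          Disjoint M' Z := fun M' hM => disjoint_left.2 fun v hv => (mem_sdiff.1 (hM hv)).2
      exact Or.inr ⟨h4, key _ h6, key _ h7, key _ h8⟩
    · exact absurd h8 (hcon _ hZ' h5 h6 h7)

/-- **three different triples.** -/
theorem caseL3 (hRok : RightOk B Q K x a b c R B1 C1 C2) (h10 : y 1 ∉ B (T 0))
    (h20 : y 2 ∉ B (T 0)) (h01 : y 0 ∉ B (T 1)) (h21 : y 2 ∉ B (T 1)) : False := by
  classical
  obtain ⟨M2, M3, M4, hR⟩ := hRok (y 0) (h.yK 0)
  have n20 : y 2 ≠ y 0 := fun e => h20 (e ▸ h.ty 0)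
  have n10 : y 1 ≠ y 0 := fun e => h10 (e ▸ h.ty 0)
  have n21 : y 2 ≠ y 1 := fun e => h21 (e ▸ h.ty 1)
  obtain ⟨Z1, hZ1, m1, m2⟩ := h.sepA h10 n20 hR
  -- the second system
  have h' := h.perm (Equiv.swap 1 2)
  have e0 : (Equiv.swap (1 : Fin 3) 2) 0 = 0 := by decide
  have e1 : (Equiv.swap (1 : Fin 3) 2) 1 = 2 := by decide
  have e2 : (Equiv.swap (1 : Fin 3) 2) 2 = 1 := by decide
  obtain ⟨Z2, hZ2, m3, m4, m5, m6⟩ := h'.sepB (M2 := M2) (M3 := M3) (M4 := M4)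
    (by simpa only [Function.comp_apply, e0, e1] using h20)
    (by simpa only [Function.comp_apply, e0, e2] using n10)
    (by simpa only [Function.comp_apply, e0] using hR)
  have q0 : ((y ∘ (Equiv.swap (1 : Fin 3) 2)) 0) = y 0 := by rw [Function.comp_apply, e0]
  have q1 : ((y ∘ (Equiv.swap (1 : Fin 3) 2)) 1) = y 2 := by rw [Function.comp_apply, e1]
  have q2 : ((T ∘ (Equiv.swap (1 : Fin 3) 2)) 0) = T 0 := by rw [Function.comp_apply, e0]
  have m3' : y 2 ∈ Z2 := m3 (by rw [q1]; exact mem_insert_self _ _)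
  have sub2 : ∀ v ∈ Z2, v ∈ Q ∧ v ∉ ({x, a, b, c} : Finset V) ∧ v ≠ y 0 := fun v hv => by
    have := hZ2.sub v hv
    rw [q0, mem_singleton] at this
    exact this
  have old2 : ∀ i, ¬ (B i ∩ ({x, a, b, c} : Finset V)).Nonempty → i ≠ T 0 → ∀ z ∈ Z2, z ∈ B i →
      ∀ v ∈ Q, v ≠ y 0 → v ∈ B i → v ∈ Z2 := fun i hi hI z hz hzi v hvQ hv0 hvi =>
    hZ2.old i hi (by rw [q2, mem_singleton]; exact hI) z hz hzi v hvQ
      (by rw [q0, mem_singleton]; exact hv0) hvi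
  have old1 : ∀ i, ¬ (B i ∩ ({x, a, b, c} : Finset V)).Nonempty → i ≠ T 0 → ∀ z ∈ Z1, z ∈ B i →
      ∀ v ∈ Q, v ≠ y 0 → v ∈ B i → v ∈ Z1 := fun i hi hI z hz hzi v hvQ hv0 hvi =>
    hZ1.old i hi (by rw [mem_singleton]; exact hI) z hz hzi v hvQ
      (by rw [mem_singleton]; exact hv0) hvi
  -- the separated set
  set W := Z2 \ Z1 with hW
  have wy2 : y 2 ∈ W := mem_sdiff.2 ⟨m3', m2⟩
  have wfacts : ∀ w ∈ W, w ∈ Q ∧ w ∉ ({x, a, b, c} : Finset V) ∧ w ≠ y 0 ∧ w ≠ y 1 ∧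
      w ∉ B (T 0) ∧ w ∉ B R ∧ w ∉ B B1 ∧ w ∉ B C1 ∧ w ∉ B C2 := by
    intro w hw
    obtain ⟨hw2, hw1⟩ := mem_sdiff.1 hw
    obtain ⟨g1, g2, g3⟩ := sub2 w hw2
    have g4 : w ∉ insert (y 1) (h.ou (y 0) (T 0)) := fun h5 => hw1 (m1 h5)
    rw [mem_insert, not_or, h.mem_ou] at g4
    have g5 := hR.deg w g1 g2 g3
    rw [if_neg (fun h5 => disjoint_left.1 m4 h5 hw2), if_neg (fun h5 => disjoint_left.1 m5 h5 hw2),
      if_neg (fun h5 => disjoint_left.1 m6 h5 hw2)] at g5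
    refine ⟨g1, g2, g3, g4.1, fun h5 => g4.2 ⟨h5, g1, g2, g3⟩, ?_, ?_, ?_, ?_⟩
    · intro h5
      rw [if_pos h5] at g5
      omega
    · intro h5
      rw [if_pos h5] at g5
      omega
    · intro h5
      rw [if_pos h5] at g5
      omega
    · intro h5
      rw [if_pos h5] at g5
      omega
  have wold : ∀ i, ¬ (B i ∩ ({x, a, b, c} : Finset V)).Nonempty → i ≠ T 0 → ∀ z ∈ W, z ∈ B i →
      ∀ v ∈ Q, v ≠ y 0 → v ∈ B i → v ∈ W := by
    intro i hi hI z hz hzi v hvQ hv0 hvi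
    obtain ⟨hz2, hz1⟩ := mem_sdiff.1 hz
    refine mem_sdiff.2 ⟨old2 i hi hI z hz2 hzi v hvQ hv0 hvi, fun hv1 => hz1 ?_⟩
    exact old1 i hi hI v hv1 hvi z (wfacts z hz).1 (wfacts z hz).2.2.1 hzi
  -- the third system
  have h'' := h.perm (Equiv.swap 0 1)
  have f0 : (Equiv.swap (0 : Fin 3) 1) 0 = 1 := by decide
  have f1 : (Equiv.swap (0 : Fin 3) 1) 1 = 0 := by decide
  have f2 : (Equiv.swap (0 : Fin 3) 1) 2 = 2 := by decide
  have r0 : ((y ∘ (Equiv.swap (0 : Fin 3) 1)) 0) = y 1 := by rw [Function.comp_apply, f0]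
  have r1 : ((y ∘ (Equiv.swap (0 : Fin 3) 1)) 1) = y 0 := by rw [Function.comp_apply, f1]
  have r2 : ((y ∘ (Equiv.swap (0 : Fin 3) 1)) 2) = y 2 := by rw [Function.comp_apply, f2]
  have r3 : ((T ∘ (Equiv.swap (0 : Fin 3) 1)) 0) = T 1 := by rw [Function.comp_apply, f0]
  obtain ⟨M2', M3', M4', hR'⟩ := hRok (y 1) (h.yK 1)
  have hL'' := h''.left_a (by rw [r1, r3]; exact h01)
  have hA2 := h''.ou_A2 (by rw [r2, r0]; exact n21)
  rw [r2] at hA2
  have hR'' : RDt B Q K x a b c R B1 C1 C2 ((y ∘ (Equiv.swap (0 : Fin 3) 1)) 0) M2' M3' M4' := by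
    rw [r0]
    exact hR'
  have hsub := subN5 hL'' hR''
  -- the claim
  have claim : ∀ Z, Ncl B Q ({x, a, b, c} : Finset V) {(y ∘ (Equiv.swap (0 : Fin 3) 1)) 0}
      {(T ∘ (Equiv.swap (0 : Fin 3) 1)) 0}
      (fun c' : ULift.{u} (Fin 5) => (![insert ((y ∘ (Equiv.swap (0 : Fin 3) 1)) 1)
        (h''.ou ((y ∘ (Equiv.swap (0 : Fin 3) 1)) 0) ((T ∘ (Equiv.swap (0 : Fin 3) 1)) 0)),
        h''.ou ((y ∘ (Equiv.swap (0 : Fin 3) 1)) 0) ((A ∘ (Equiv.swap (0 : Fin 3) 1)) 2), M2',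
        M3', M4'] : Fin 5 → Finset V) c'.down) Z → y 2 ∈ Z → y 0 ∈ Z := by
    intro Z hZ hy2
    by_contra hy0
    have old3 : ∀ i, ¬ (B i ∩ ({x, a, b, c} : Finset V)).Nonempty → i ≠ T 1 → ∀ z ∈ Z,
        z ∈ B i → ∀ v ∈ Q, v ≠ y 1 → v ∈ B i → v ∈ Z := fun i hi hI z hz hzi v hvQ hv0 hvi =>
      hZ.old i hi (by rw [r3, mem_singleton]; exact hI) z hz hzi v hvQ
        (by rw [r0, mem_singleton]; exact hv0) hvi
    have hconn := h.viol.conn_sdiff (X := {x, a}) (by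
      intro v hv
      simp only [mem_insert, mem_singleton] at hv
      rcases hv with rfl | rfl
      · exact h.xQ
      · exact h.aQ) card_le_two
    have hcl : Closed (gr B) (Q \ {x, a}) (W ∩ Z) := by
      refine ⟨fun w hw => ?_, fun w hw v hv hwv => ?_⟩
      · obtain ⟨g1, g2, _⟩ := wfacts w (mem_inter.1 hw).1
        simp only [mem_insert, mem_singleton, not_or] at g2
        simp only [mem_sdiff, mem_insert, mem_singleton, not_or]
        exact ⟨g1, g2.1, g2.2.1⟩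
      · obtain ⟨hwW, hwZ⟩ := mem_inter.1 hw
        obtain ⟨g1, g2, g3, g4, g5, g6, g7, g8, g9⟩ := wfacts w hwW
        obtain ⟨hne, i, hwi, hvi⟩ := hwv
        simp only [mem_sdiff, mem_insert, mem_singleton, not_or] at hv
        obtain ⟨hvQ, hvx, hva⟩ := hv
        by_cases ht : (B i ∩ ({x, a, b, c} : Finset V)).Nonempty
        · exfalso
          have g2' := g2
          simp only [mem_insert, mem_singleton, not_or] at g2'
          rcases h.touch ht with ⟨l, hl⟩ | h1 | h1 | h1 | h1 | h1 | h1 | h1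
          · rw [hl] at hwi hvi
            have h2 := (h.mA' l g1 g2).1 hwi
            fin_cases l
            · exact g3 h2
            · exact g4 h2
            · rcases (h.mA 2 hvQ).1 hvi with h3 | h3 | h3
              · exact hvx h3
              · exact hva h3
              · exact hne (h2.trans h3.symm)
          · rw [h1] at hwi
            rcases (h.mP g1).1 hwi with h2 | h2 | h2 <;> tauto
          · exact g6 (h1 ▸ hwi)
          · rw [h1] at hwi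
            rcases (h.mj g1).1 hwi with h2 | h2 | h2 <;> tauto
          · rw [h1] at hwi
            rcases (h.mk0 g1).1 hwi with h2 | h2 | h2 <;> tauto
          · exact g7 (h1 ▸ hwi)
          · exact g8 (h1 ▸ hwi)
          · exact g9 (h1 ▸ hwi)
        · have hi0 : i ≠ T 0 := fun e => g5 (e ▸ hwi)
          have hi1 : i ≠ T 1 := by
            intro e
            have h2 := wold i ht hi0 w hwW hwi (y 1) (h.yQ 1) n10 (e ▸ h.ty 1)
            exact (wfacts _ h2).2.2.2.1 rfl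
          by_cases hv0 : v = y 0
          · exfalso
            rw [hv0] at hvi
            exact hy0 (old3 i ht hi1 w hwZ hwi (y 0) (h.yQ 0) n10.symm hvi)
          · have h2 := wold i ht hi0 w hwW hwi v hvQ hv0 hvi
            exact mem_inter.2 ⟨h2, old3 i ht hi1 w hwZ hwi v hvQ (wfacts v h2).2.2.2.1 hvi⟩
    have h1 := hconn.2 _ hcl ⟨y 2, mem_inter.2 ⟨wy2, hy2⟩⟩
    have h2 : b ∈ W ∩ Z := by
      rw [h1]
      simp only [mem_sdiff, mem_insert, mem_singleton, not_or]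
      exact ⟨h.bQ, h.xb.symm, h.ab.symm⟩
    have h3 := (wfacts b (mem_inter.1 h2).1).2.1
    simp at h3
  refine h''.finA hL'' hR'' (by rw [r0]; exact h.yK 1) (by rw [r3]; exact h.Ky 1) ?_
    (Or.inr (by rw [hA2]; simp))
  intro Z hZ
  by_cases hy2 : y 2 ∈ Z
  · have hy0 := claim Z hZ hy2
    refine Or.inl ⟨?_, by rw [hA2, singleton_subset_iff]; exact hy2⟩
    exact hZ.new (ULift.up 0) (y 0) hy0 (mem_insert.2 (Or.inl r1.symm))
  · refine Or.inr ⟨?_, by rw [hA2, disjoint_singleton_left]; exact hy2⟩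
    have hZ' := hZ.compl hsub
    have h4 : y 2 ∈ (Q \ (({x, a, b, c} : Finset V) ∪ {(y ∘ (Equiv.swap (0 : Fin 3) 1)) 0})) \
        Z := by
      refine mem_sdiff.2 ⟨mem_sdiff.2 ⟨h.yQ 2, fun h5 => ?_⟩, hy2⟩
      rcases mem_union.1 h5 with h6 | h6
      · exact h.yL 2 h6
      · rw [r0, mem_singleton] at h6
        exact n21 h6
    have h5 := claim _ hZ' h4
    have h6 := hZ'.new (ULift.up 0) (y 0) h5 (mem_insert.2 (Or.inl r1.symm))
    rw [disjoint_left]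
    exact fun v hv => (mem_sdiff.1 (h6 hv)).2

end DblC

end Pool.Agent.Hyp6
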