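import Pool.Agent.Hyp6.L3Dh

/-!
# HYP6 L3Dj: the doubled configuration does not exist

`DblC.gam`: the point `y4` is in all three further blocks. `DblC.false`: the conclusion.
-/

set_option autoImplicit false

namespace Pool.Agent.Hyp6

open Finset Pool.Agent.Hyp5

universe u v

variable {V : Type v} [DecidableEq V] {ι : Type u} [Fintype ι] {B : ι → Finset V}

namespace DblC

variable {Q K : Finset V} {x a b c : V} {A : Fin 3 → ι} {P R j k0 B1 C1 C2 : ι} {y : Fin 3 → V}
  {y4 : V} {T : Fin 3 → ι} {p : V} {t : ι} {M0 M1 M2 M3 M4 : Finset V}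

variable (h : DblC B Q K x a b c A P R j k0 B1 C1 C2 y y4 T)
include h

/-- one common triple. -/
theorem same_iff (l m : Fin 3) : y m ∈ B (T l) ↔ T l = T m := by
  constructor
  · intro h1
    rcases h.tt l m with h2 | h2
    · exact h2
    · exact absurd (mem_inter.2 ⟨h.ty m, h.yQ m⟩)
        (disjoint_left.1 h2 (mem_inter.2 ⟨h1, h.yQ m⟩))
  · intro h1
    rw [h1]
    exact h.ty m

/-- two of the three points in one triple. -/
theorem caseL4 (hR : RightOk B Q K x a b c R B1 C1 C2) (h1 : y 1 ∉ B (T 0))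
    (h2 : y 2 ∈ B (T 0)) : False := by
  by_cases h3 : y 2 = y 0
  · have f0 : (Equiv.swap (0 : Fin 3) 1) 0 = 1 := by decide
    have f1 : (Equiv.swap (0 : Fin 3) 1) 1 = 0 := by decide
    have f2 : (Equiv.swap (0 : Fin 3) 1) 2 = 2 := by decide
    refine (h.perm (Equiv.swap 0 1)).caseL2 hR ?_ ?_
    · rw [Function.comp_apply, Function.comp_apply, f0, f1, h.same_iff]
      rw [h.same_iff] at h1
      exact fun e => h1 e.symm
    · left
      rw [Function.comp_apply, Function.comp_apply, f1, f2]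
      exact h3
  · exact h.caseL2 hR h1 (Or.inr ⟨h2, h3⟩)

/-- **the left side.** -/
theorem false_of_right (hR : RightOk B Q K x a b c R B1 C1 C2) : False := by
  have e0 : (Equiv.swap (1 : Fin 3) 2) 0 = 0 := by decide
  have e1 : (Equiv.swap (1 : Fin 3) 2) 1 = 2 := by decide
  have e2 : (Equiv.swap (1 : Fin 3) 2) 2 = 1 := by decide
  have f0 : (Equiv.swap (0 : Fin 3) 1) 0 = 1 := by decide
  have f1 : (Equiv.swap (0 : Fin 3) 1) 1 = 0 := by decide
  have f2 : (Equiv.swap (0 : Fin 3) 1) 2 = 2 := by decide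
  have g0 : (Equiv.swap (0 : Fin 3) 2) 0 = 2 := by decide
  have g1 : (Equiv.swap (0 : Fin 3) 2) 1 = 1 := by decide
  have g2 : (Equiv.swap (0 : Fin 3) 2) 2 = 0 := by decide
  by_cases h1 : y 1 ∈ B (T 0)
  · by_cases h2 : y 2 ∈ B (T 0)
    · by_cases h3 : y 1 ≠ y 2 ∨ (y 1 = y 0 ∧ y 2 = y 0)
      · exact h.caseL1 hR h1 h2 h3
      · push Not at h3
        obtain ⟨h3, h4⟩ := h3
        have h5 : y 1 ≠ y 0 := fun e => h4 e (h3 ▸ e)
        have t1 := (h.same_iff 0 1).1 h1
        have t2 := (h.same_iff 0 2).1 h2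
        refine (h.perm (Equiv.swap 0 2)).caseL1 hR ?_ ?_ ?_
        · rw [Function.comp_apply, Function.comp_apply, g0, g1, h.same_iff, ← t1, ← t2]
        · rw [Function.comp_apply, Function.comp_apply, g0, g2, h.same_iff, ← t2]
        · left
          rw [Function.comp_apply, Function.comp_apply, g1, g2]
          exact h5
    · refine (h.perm (Equiv.swap 1 2)).caseL4 hR ?_ ?_
      · rw [Function.comp_apply, Function.comp_apply, e0, e1]
        exact h2
      · rw [Function.comp_apply, Function.comp_apply, e0, e2]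
        exact h1
  · by_cases h2 : y 2 ∈ B (T 0)
    · exact h.caseL4 hR h1 h2
    · have h01 : y 0 ∉ B (T 1) := by
        rw [h.same_iff] at h1 ⊢
        exact fun e => h1 e.symm
      by_cases h3 : y 2 ∈ B (T 1)
      · refine (h.perm (Equiv.swap 0 1)).caseL4 hR ?_ ?_
        · rw [Function.comp_apply, Function.comp_apply, f0, f1]
          exact h01
        · rw [Function.comp_apply, Function.comp_apply, f0, f2]
          exact h3
      · exact h.caseL3 hR h1 h2 h01 h3

/-- **the point `y4` is in all three further blocks.** -/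
theorem gam (hB : y4 ∈ B B1) (hC1 : y4 ∈ B C1) (hC2 : y4 ∈ B C2)
    (h4 : ∃ t, y4 ∈ B t ∧ ¬ (B t ∩ ({x, a, b, c} : Finset V)).Nonempty) : False := by
  classical
  have hxL : x ∈ ({x, a, b, c} : Finset V) := by simp
  have hbL : b ∈ ({x, a, b, c} : Finset V) := by simp
  have hcL : c ∈ ({x, a, b, c} : Finset V) := by simp
  have y4L : y4 ∉ ({x, a, b, c} : Finset V) := h.notL h.y4x h.y4a h.y4b h.y4c
  obtain ⟨n1, n2, n3, n4, n5, n6, n7, n8, n9, n10, n11, n12, n13, n14, n15, n16, n17, n18, n19,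
    n20, n21, n22, n23, n24, n25, n26⟩ := h.nd
  obtain ⟨t, ht, htL⟩ := h4
  have key : ∀ l, y l ≠ y4 := by
    intro l e
    have h5 : ({A l, R, B1, C1, C2, t} : Finset ι) ⊆ univ.filter (fun i => y4 ∈ B i) := by
      intro i hi
      simp only [mem_insert, mem_singleton] at hi
      refine mem_filter.2 ⟨mem_univ _, ?_⟩
      rcases hi with rfl | rfl | rfl | rfl | rfl | rfl
      · rw [← e]
        exact h.yA l
      · exact h.y4R
      · exact hB
      · exact hC1
      · exact hC2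
      · exact ht
    have h6 := card_le_card h5
    have h7 : (univ.filter (fun i => y4 ∈ B i)).card = 5 := h.viol.reg y4 h.y4Q
    have tA : A l ≠ t := fun e => htL (e ▸ ⟨x, mem_inter.2 ⟨h.xA l, hxL⟩⟩)
    have tR : R ≠ t := fun e => htL (e ▸ ⟨x, mem_inter.2 ⟨h.xR, hxL⟩⟩)
    have tB : B1 ≠ t := fun e => htL (e ▸ ⟨b, mem_inter.2 ⟨h.bB1, hbL⟩⟩)
    have tC1 : C1 ≠ t := fun e => htL (e ▸ ⟨c, mem_inter.2 ⟨h.cC1, hcL⟩⟩)
    have tC2 : C2 ≠ t := fun e => htL (e ▸ ⟨c, mem_inter.2 ⟨h.cC2, hcL⟩⟩)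
    rw [card_insert_of_notMem, card_insert_of_notMem, card_insert_of_notMem,
      card_insert_of_notMem, card_pair tC2] at h6
    · omega
    · simp [h.CC, tC1]
    · simp [n25, n26, tB]
    · simp [n16, n17, n18, tR]
    · simp [n2 l, n3 l, n4 l, n5 l, tA]
  -- the outer parts of the three further blocks are in K
  have ouK : ∀ i, (B i ∩ K).Nonempty → y4 ∈ B i → (∃ w ∈ B i, w ∈ ({x, a, b, c} : Finset V)) →
      ∀ v ∈ h.ou y4 i, v ∈ K := by
    rintro i ⟨m, hm⟩ hy ⟨w, hw, hwL⟩ v hv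
    obtain ⟨hmi, hmK⟩ := mem_inter.1 hm
    obtain ⟨g1, g2, g3, g4⟩ := h.mem_ou.1 hv
    by_contra hvK
    have h5 : ({w, y4, m, v} : Finset V) ⊆ B i ∩ Q := by
      intro z hz
      simp only [mem_insert, mem_singleton] at hz
      rcases hz with rfl | rfl | rfl | rfl
      · exact mem_inter.2 ⟨hw, h.L_Q hwL⟩
      · exact mem_inter.2 ⟨hy, h.y4Q⟩
      · exact mem_inter.2 ⟨hmi, h.KQ hmK⟩
      · exact mem_inter.2 ⟨g1, g2⟩
    have hmL : m ∉ ({x, a, b, c} : Finset V) := h.notL (fun e => h.Kx (e ▸ hmK))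
      (fun e => h.Ka (e ▸ hmK)) (fun e => h.Kb (e ▸ hmK)) (fun e => h.Kc (e ▸ hmK))
    have h6 := card_le_card h5
    have w1 : w ≠ y4 := fun e => y4L (e ▸ hwL)
    have w2 : w ≠ m := fun e => hmL (e ▸ hwL)
    have w3 : w ≠ v := fun e => g3 (e ▸ hwL)
    have w4 : y4 ≠ m := fun e => h.Ky4 (e ▸ hmK)
    have w5 : y4 ≠ v := fun e => g4 e.symm
    have w6 : m ≠ v := fun e => hvK (e ▸ hmK)
    rw [card_insert_of_notMem (by simp [w1, w2, w3]), card_insert_of_notMem (by simp [w4, w5]),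
      card_pair w6] at h6
    have h7 := h.viol.tr i
    omega
  have ou1 : ∀ i, (B i ∩ K).Nonempty → y4 ∈ B i → (∃ w ∈ B i, w ∈ ({x, a, b, c} : Finset V)) →
      (h.ou y4 i).card ≤ 1 := by
    rintro i _ hy ⟨w, hw, hwL⟩
    have h5 : insert w (insert y4 (h.ou y4 i)) ⊆ B i ∩ Q := by
      intro z hz
      simp only [mem_insert] at hz
      rcases hz with rfl | rfl | hz
      · exact mem_inter.2 ⟨hw, h.L_Q hwL⟩
      · exact mem_inter.2 ⟨hy, h.y4Q⟩
      · have := h.mem_ou.1 hz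
        exact mem_inter.2 ⟨this.1, this.2.1⟩
    have h6 := card_le_card h5
    have w1 : w ∉ insert y4 (h.ou y4 i) := by
      rw [mem_insert, not_or]
      exact ⟨fun e => y4L (e ▸ hwL), fun h8 => (h.mem_ou.1 h8).2.2.1 hwL⟩
    rw [card_insert_of_notMem w1,
      card_insert_of_notMem (fun h8 => (h.mem_ou.1 h8).2.2.2 rfl)] at h6
    have h7 := h.viol.tr i
    omega
  have ouA : ∀ l, h.ou y4 (A l) = {y l} := by
    intro l
    ext v
    rw [h.mem_ou, mem_singleton]
    constructor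
    · rintro ⟨g1, g2, g3, _⟩
      exact (h.mA' _ g2 g3).1 g1
    · rintro rfl
      exact ⟨h.yA l, h.yQ l, h.yL l, key l⟩
  have oB := ouK B1 h.KB hB ⟨b, h.bB1, hbL⟩
  have oC1 := ouK C1 h.KC1 hC1 ⟨c, h.cC1, hcL⟩
  have oC2 := ouK C2 h.KC2 hC2 ⟨c, h.cC2, hcL⟩
  have cB := ou1 B1 h.KB hB ⟨b, h.bB1, hbL⟩
  have cC1 := ou1 C1 h.KC1 hC1 ⟨c, h.cC1, hcL⟩
  have cC2 := ou1 C2 h.KC2 hC2 ⟨c, h.cC2, hcL⟩
  have s1 : ∀ (S : Finset ι) (i : ι), i ∈ S → h.ou y4 i ⊆ S.biUnion B := fun S i hi v hv =>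
    mem_biUnion.2 ⟨i, hi, (h.mem_ou.1 hv).1⟩
  set M : Fin 4 → Finset V := ![h.ou y4 (A 0) ∪ h.ou y4 B1, h.ou y4 (A 1) ∪ h.ou y4 C1,
    h.ou y4 (A 2), h.ou y4 C2] with hM
  have hG := h.gdl (M := M) h.y4Q y4L (I := ∅) (by simp) (by simp) ?_ ?_ ?_ ?_
  · have hKC : ∀ Z, Ncl B Q ({x, a, b, c} : Finset V) {y4} ∅
        (fun c' : ULift.{u} (Fin 4) => M c'.down) Z → K ⊆ Z ∨ Disjoint K Z := by
      intro Z hZ
      refine h.Kclass hZ h.Ky4 (by simp) ⟨ULift.up 0, fun v hv hvi => ?_⟩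
        ⟨ULift.up 1, fun v hv hvi => ?_⟩ ⟨ULift.up 3, fun v hv hvi => ?_⟩
      · exact mem_union_right _ (h.K_ou h.Ky4 hv hvi)
      · exact mem_union_right _ (h.K_ou h.Ky4 hv hvi)
      · exact h.K_ou h.Ky4 hv hvi
    refine h.fin2 hG (by simp) (fun c' => c' ≠ 2) ?_ ?_ ?_ ?_
    · intro Z hZ
      have kk : ∀ c' : Fin 4, (∃ v ∈ K, v ∈ M c') →
          (K ⊆ Z → M c' ⊆ Z) ∧ (Disjoint K Z → Disjoint (M c') Z) := by
        rintro c' ⟨v, hvK, hvM⟩
        refine ⟨fun h1 => hZ.new (ULift.up c') v (h1 hvK) hvM, fun h1 => ?_⟩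
        rw [disjoint_left]
        intro w hwM hwZ
        exact disjoint_left.1 h1 hvK (hZ.new (ULift.up c') w hwZ hwM hvM)
      obtain ⟨v0, hv0⟩ := h.KB
      obtain ⟨v1, hv1⟩ := h.KC1
      obtain ⟨v3, hv3⟩ := h.KC2
      rw [mem_inter] at hv0 hv1 hv3
      have k0' := kk 0 ⟨v0, hv0.2, mem_union_right _ (h.K_ou h.Ky4 hv0.2 hv0.1)⟩
      have k1' := kk 1 ⟨v1, hv1.2, mem_union_right _ (h.K_ou h.Ky4 hv1.2 hv1.1)⟩
      have k3' := kk 3 ⟨v3, hv3.2, h.K_ou h.Ky4 hv3.2 hv3.1⟩
      rcases hKC Z hZ with h1 | h1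
      · left
        intro c' hc
        fin_cases c'
        · exact k0'.1 h1
        · exact k1'.1 h1
        · exact absurd rfl hc
        · exact k3'.1 h1
      · right
        intro c' hc
        fin_cases c'
        · exact k0'.2 h1
        · exact k1'.2 h1
        · exact absurd rfl hc
        · exact k3'.2 h1
    · intro Z hZ
      by_cases h1 : (M 2 ∩ Z).Nonempty
      · left
        intro c' hc
        have hc' : c' = 2 := by simpa using hc
        rw [hc']
        obtain ⟨w, hw⟩ := h1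
        rw [mem_inter] at hw
        exact hZ.new (ULift.up 2) w hw.2 hw.1
      · right
        intro c' hc
        have hc' : c' = 2 := by simpa using hc
        rw [hc']
        rw [not_nonempty_iff_eq_empty] at h1
        exact disjoint_iff_inter_eq_empty.2 h1
    · obtain ⟨v3, hv3⟩ := h.KC2
      rw [mem_inter] at hv3
      exact ⟨3, by decide, ⟨v3, h.K_ou h.Ky4 hv3.2 hv3.1⟩, cC2.trans (by norm_num)⟩
    · refine ⟨2, by simp, ?_, ?_⟩
      · change (h.ou y4 (A 2)).Nonempty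
        rw [ouA 2]
        exact singleton_nonempty _
      · change (h.ou y4 (A 2)).card ≤ 2
        rw [ouA 2]
        simp
  · intro c' v hv
    have : v ∈ h.ou y4 (A 0) ∪ h.ou y4 B1 ∨ v ∈ h.ou y4 (A 1) ∪ h.ou y4 C1 ∨
        v ∈ h.ou y4 (A 2) ∨ v ∈ h.ou y4 C2 := by
      fin_cases c'
      · exact Or.inl hv
      · exact Or.inr (Or.inl hv)
      · exact Or.inr (Or.inr (Or.inl hv))
      · exact Or.inr (Or.inr (Or.inr hv))
    simp only [mem_union] at this
    rcases this with (h1 | h1) | (h1 | h1) | h1 | h1 <;> exact (h.mem_ou.1 h1).2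
  · intro v hvQ hvL hvp
    rw [Fin.sum_univ_four]
    change (if v ∈ h.ou y4 (A 0) ∪ h.ou y4 B1 then 1 else 0) +
      (if v ∈ h.ou y4 (A 1) ∪ h.ou y4 C1 then 1 else 0) +
      (if v ∈ h.ou y4 (A 2) then 1 else 0) + (if v ∈ h.ou y4 C2 then 1 else 0) = _
    have e : ∀ i, v ∈ h.ou y4 i ↔ v ∈ B i := fun i => by
      rw [h.mem_ou]
      tauto
    have hvR : v ∉ B R := fun h1 => hvp ((h.mR' hvQ hvL).1 h1)
    have d1 : v ∈ B (A 0) → v ∉ B B1 := fun h1 h2 => by
      have h3 := oB v ((e B1).2 h2)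
      rw [(h.mA' _ hvQ hvL).1 h1] at h3
      exact h.yK 0 h3
    have d2 : v ∈ B (A 1) → v ∉ B C1 := fun h1 h2 => by
      have h3 := oC1 v ((e C1).2 h2)
      rw [(h.mA' _ hvQ hvL).1 h1] at h3
      exact h.yK 1 h3
    simp only [mem_union, e, hvR, if_false, filter_empty, card_empty]
    by_cases z1 : v ∈ B (A 0)
    · have z2 := d1 z1
      by_cases z3 : v ∈ B (A 1)
      · have z4 := d2 z3
        simp only [z1, z2, z3, z4, if_true, if_false, or_false]
        omega
      · by_cases z4 : v ∈ B C1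
        · simp only [z1, z2, z3, z4, if_true, if_false, or_true, or_false]
          omega
        · simp only [z1, z2, z3, z4, if_true, if_false, or_false]
          omega
    · by_cases z3 : v ∈ B (A 1)
      · have z4 := d2 z3
        by_cases z2 : v ∈ B B1
        · simp only [z1, z2, z3, z4, if_true, if_false, or_true, or_false]
          omega
        · simp only [z1, z2, z3, z4, if_true, if_false, or_false]
          omega
      · by_cases z4 : v ∈ B C1
        · by_cases z2 : v ∈ B B1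
          · simp only [z1, z2, z3, z4, if_true, if_false, or_true]
            omega
          · simp only [z1, z2, z3, z4, if_true, if_false, or_true, or_false]
            omega
        · by_cases z2 : v ∈ B B1
          · simp only [z1, z2, z3, z4, if_true, if_false, or_true, or_false]
            omega
          · simp only [z1, z2, z3, z4, if_false, or_false]
            omega
  · intro c'
    fin_cases c'
    · change (h.ou y4 (A 0) ∪ h.ou y4 B1).card ≤ 3
      have h1 := card_union_le (h.ou y4 (A 0)) (h.ou y4 B1)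
      rw [ouA 0, card_singleton] at h1
      rw [ouA 0]
      omega
    · change (h.ou y4 (A 1) ∪ h.ou y4 C1).card ≤ 3
      have h1 := card_union_le (h.ou y4 (A 1)) (h.ou y4 C1)
      rw [ouA 1, card_singleton] at h1
      rw [ouA 1]
      omega
    · change (h.ou y4 (A 2)).card ≤ 3
      rw [ouA 2]
      simp
    · change (h.ou y4 C2).card ≤ 3
      omega
  · intro J
    have cJ : J.card = (if 0 ∈ J then 1 else 0) + (if 1 ∈ J then 1 else 0) +
        (if 2 ∈ J then 1 else 0) + (if 3 ∈ J then 1 else 0) := by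
      revert J
      decide
    set S1 : Finset ι := if 0 ∈ J then (if 1 ∈ J then {A 0, B1, A 1, C1} else {A 0, B1, P})
      else (if 1 ∈ J then {A 1, C1, P} else {R, j}) with hS1
    have hS : x ∈ S1.biUnion B ∧ a ∈ S1.biUnion B ∧ b ∈ S1.biUnion B ∧ c ∈ S1.biUnion B ∧
        y4 ∈ S1.biUnion B ∧ S1.card ≤ 2 + (if 0 ∈ J then 1 else 0) + (if 1 ∈ J then 1 else 0) ∧
        (0 ∈ J → A 0 ∈ S1 ∧ B1 ∈ S1) ∧ (1 ∈ J → A 1 ∈ S1 ∧ C1 ∈ S1) := by
      have m1 : ∀ (S : Finset ι) (i : ι) (v : V), i ∈ S → v ∈ B i → v ∈ S.biUnion B :=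
        fun S i v hi hv => mem_biUnion.2 ⟨i, hi, hv⟩
      by_cases j0 : 0 ∈ J
      · by_cases j1 : 1 ∈ J
        · rw [hS1, if_pos j0, if_pos j1, if_pos j0, if_pos j1]
          refine ⟨m1 _ (A 0) _ (by simp) (h.xA 0), m1 _ (A 0) _ (by simp) (h.aA 0),
            m1 _ B1 _ (by simp) h.bB1, m1 _ C1 _ (by simp) h.cC1, m1 _ B1 _ (by simp) hB, ?_,
            fun _ => ⟨by simp, by simp⟩, fun _ => ⟨by simp, by simp⟩⟩
          exact (card_insert_le _ _).trans (Nat.add_le_add_right (card_le_three) _)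
        · rw [hS1, if_pos j0, if_neg j1, if_pos j0, if_neg j1]
          refine ⟨m1 _ (A 0) _ (by simp) (h.xA 0), m1 _ (A 0) _ (by simp) (h.aA 0),
            m1 _ B1 _ (by simp) h.bB1, m1 _ P _ (by simp) h.cP, m1 _ B1 _ (by simp) hB,
            card_le_three,
            fun _ => ⟨by simp, by simp⟩, fun h5 => absurd h5 j1⟩
      · by_cases j1 : 1 ∈ J
        · rw [hS1, if_neg j0, if_pos j1, if_neg j0, if_pos j1]
          refine ⟨m1 _ (A 1) _ (by simp) (h.xA 1), m1 _ (A 1) _ (by simp) (h.aA 1),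
            m1 _ P _ (by simp) h.bP, m1 _ C1 _ (by simp) h.cC1, m1 _ C1 _ (by simp) hC1,
            card_le_three,
            fun h5 => absurd h5 j0, fun _ => ⟨by simp, by simp⟩⟩
        · rw [hS1, if_neg j0, if_neg j1, if_neg j0, if_neg j1]
          refine ⟨m1 _ R _ (by simp) h.xR, m1 _ j _ (by simp) h.aj,
            m1 _ R _ (by simp) h.bR, m1 _ j _ (by simp) h.cj, m1 _ R _ (by simp) h.y4R,
            card_le_two,
            fun h5 => absurd h5 j0, fun h5 => absurd h5 j1⟩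
    obtain ⟨c1, c2, c3, c4, c5, c6, c7, c8⟩ := hS
    have hup : S1.biUnion B ⊆ (S1 ∪ ((if 2 ∈ J then {A 2} else ∅) ∪
        (if 3 ∈ J then {C2} else ∅))).biUnion B :=
      biUnion_subset_biUnion_of_subset_left _ subset_union_left
    refine ⟨S1 ∪ ((if 2 ∈ J then {A 2} else ∅) ∪ (if 3 ∈ J then {C2} else ∅)), hup c1, hup c2,
      hup c3, hup c4, hup c5, ?_, ?_⟩
    · intro c' hc
      fin_cases c'
      · obtain ⟨q1, q2⟩ := c7 hc
        exact union_subset (s1 _ _ (mem_union_left _ q1)) (s1 _ _ (mem_union_left _ q2))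
      · obtain ⟨q1, q2⟩ := c8 hc
        exact union_subset (s1 _ _ (mem_union_left _ q1)) (s1 _ _ (mem_union_left _ q2))
      · have hc' : (2 : Fin 4) ∈ J := hc
        exact s1 _ _ (mem_union_right _ (mem_union_left _ (by rw [if_pos hc']; simp)))
      · have hc' : (3 : Fin 4) ∈ J := hc
        exact s1 _ _ (mem_union_right _ (mem_union_right _ (by rw [if_pos hc']; simp)))
    · have u1 := card_union_le S1 ((if 2 ∈ J then {A 2} else ∅) ∪
        (if 3 ∈ J then ({C2} : Finset ι) else ∅))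
      have u2 := card_union_le (if 2 ∈ J then ({A 2} : Finset ι) else ∅)
        (if 3 ∈ J then ({C2} : Finset ι) else ∅)
      have u3 : (if 2 ∈ J then ({A 2} : Finset ι) else ∅).card = if 2 ∈ J then 1 else 0 := by
        split_ifs <;> simp
      have u4 : (if 3 ∈ J then ({C2} : Finset ι) else ∅).card = if 3 ∈ J then 1 else 0 := by
        split_ifs <;> simp
      omega

/-- **the doubled configuration does not exist.** -/
theorem false (h4 : ∃ t, y4 ∈ B t ∧ ¬ (B t ∩ ({x, a, b, c} : Finset V)).Nonempty) : False := by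
  by_cases h1 : y4 ∈ B C1
  · by_cases h2 : y4 ∈ B C2
    · by_cases h3 : y4 ∈ B B1
      · exact h.gam h3 h1 h2 h4
      · exact h.false_of_right (fun p hp => ⟨_, _, _, h.right_b hp h3 h1⟩)
    · exact h.swapC.false_of_right (fun p hp => ⟨_, _, _, h.swapC.right_a hp h2⟩)
  · exact h.false_of_right (fun p hp => ⟨_, _, _, h.right_a hp h1⟩)

end DblC

end Pool.Agent.Hyp6
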