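import Pool.Agent.Hyp6.L3Mt

/-!
# HYP6 L3Mn: the fourth criterion of the frame

`MTN`: an `MTE` frame with the largest number of single traces of the leaves. `Px.F_new`: the leaves of
the frame exchanged at a point leaf `{x}` are `{a}` and the leaves except `{x}`; the exchanged frame is
again an `MTN` frame.
-/

set_option autoImplicit false

namespace Pool.Agent.Hyp6

open Finset Pool.Agent.Hyp5

universe u v

/-- a factor-critical set meeting a closed set is contained in it. -/
theorem fc_sub_closed {V : Type v} [DecidableEq V] {G : SimpleGraph V} {W C Z : Finset V}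
    (hZ : FC G Z) (hW : Z ⊆ W) (hC : Closed G W C) {z : V} (hz : z ∈ Z) (hzC : z ∈ C) : Z ⊆ C := by
  have h1 : Closed G Z (Z ∩ C) := by
    refine ⟨inter_subset_left, fun x hx y hy hxy => ?_⟩
    exact mem_inter.2 ⟨hy, hC.2 x (mem_inter.1 hx).2 y (hW hy) hxy⟩
  have h2 : Z ∩ C = Z := hZ.conn h1 ⟨z, mem_inter.2 ⟨hz, hzC⟩⟩
  exact inter_eq_left.1 h2

/-- two systems of closed factor-critical sets with the same union are equal. -/
theorem fcsys_eq {V : Type v} [DecidableEq V] {G : SimpleGraph V} {W : Finset V}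
    {F F' : Finset (Finset V)} (h : FCSys G W F) (h' : FCSys G W F')
    (hu : F.biUnion id = F'.biUnion id) : F = F' := by
  have key : ∀ {F F' : Finset (Finset V)}, FCSys G W F → FCSys G W F' →
      F.biUnion id ⊆ F'.biUnion id → F ⊆ F' := by
    intro F F' h h' hu C hC
    obtain ⟨v, hv⟩ := (h.fc C hC).1
    obtain ⟨C', hC', hv'⟩ := mem_biUnion.1 (hu (mem_biUnion.2 ⟨C, hC, hv⟩))
    have h1 := fc_sub_closed (h.fc C hC) (h.closed C hC).1 (h'.closed C' hC') hv hv'
    have h2 := fc_sub_closed (h'.fc C' hC') (h'.closed C' hC').1 (h.closed C hC) hv' hv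
    rw [Subset.antisymm h1 h2]
    exact hC'
  exact Subset.antisymm (key h h' hu.subset) (key h' h hu.symm.subset)

variable {V : Type v} [DecidableEq V] {ι : Type u} [Fintype ι] {B : ι → Finset V}

namespace Px

variable {Q U : Finset V} {T : Finset ι} {F : Finset (Finset V)} {j i : ι} {a b c x : V}

/-- the system of the leaves after the exchange. -/
theorem sys_new [DecidableEq ι] (h : Px B Q T U F j i a b c x)
    (haE : ∀ e ∈ Ep B Q T U F, ¬ (gr B).Adj a e) :
    FCSys (gr B) (Dp B Q (insert i (T.erase j)) \ U) (insert {a} (F.erase {x})) := by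
  have hf := h.frm
  have haD := h.notD (z := a) (by simp)
  have haU : a ∉ U := fun h1 => haD (hf.ge.sub h1)
  rw [h.Dp_new]
  refine ⟨fun C hC => ?_, fun C hC => ?_, fun C hC C' hC' hne => ?_⟩
  · rcases mem_insert.1 hC with rfl | hC
    · refine ⟨fun y hy => ?_, fun y hy z hz hyz => ?_⟩
      · rw [mem_singleton] at hy
        subst hy
        exact mem_sdiff.2 ⟨mem_insert_self _ _, haU⟩
      · rw [mem_singleton] at hy
        subst hy
        obtain ⟨h1, h2⟩ := mem_sdiff.1 hz
        rcases mem_insert.1 h1 with h3 | h3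
        · exact mem_singleton.2 h3
        · exfalso
          obtain ⟨h4, h5⟩ := mem_erase.1 h3
          by_cases hzE : z ∈ Ep B Q T U F
          · exact haE z hzE hyz
          · rcases hf.three_cases h5 hzE with h6 | ⟨L, hL, hzL⟩
            · exact h2 h6
            · refine h.a_leaf hL ?_ hzL hyz
              rintro rfl
              exact h4 (mem_singleton.1 hzL)
    · obtain ⟨hne, hCF⟩ := mem_erase.1 hC
      have hxC : x ∉ C := fun h1 => disjoint_left.1 (hf.ge.sys.disj C hCF {x} h.hx hne) h1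
        (mem_singleton_self x)
      refine ⟨fun y hy => ?_, fun y hy z hz hyz => ?_⟩
      · refine mem_sdiff.2 ⟨mem_insert_of_mem (mem_erase.2
          ⟨fun he => hxC (he ▸ hy), hf.FD hCF hy⟩), fun h1 => ?_⟩
        exact disjoint_left.1 (hf.ge.FU C hCF) hy h1
      · obtain ⟨h1, h2⟩ := mem_sdiff.1 hz
        rcases mem_insert.1 h1 with h3 | h3
        · exact absurd (h3 ▸ hyz.symm) (h.a_leaf hCF hne hy)
        · exact (hf.ge.sys.closed C hCF).2 y hy z
            (mem_sdiff.2 ⟨(mem_erase.1 h3).2, h2⟩) hyz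
  · rcases mem_insert.1 hC with rfl | hC
    · exact FC.singleton _ _
    · exact hf.ge.sys.fc C (mem_erase.1 hC).2
  · rcases mem_insert.1 hC with rfl | hC <;> rcases mem_insert.1 hC' with rfl | hC'
    · exact absurd rfl hne
    · rw [disjoint_singleton_left]
      exact fun h1 => haD (hf.FD (mem_erase.1 hC').2 h1)
    · rw [disjoint_singleton_right]
      exact fun h1 => haD (hf.FD (mem_erase.1 hC).2 h1)
    · exact hf.ge.sys.disj C (mem_erase.1 hC).2 C' (mem_erase.1 hC').2 hne

omit [Fintype ι] in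
theorem a_notF (h : Px B Q T U F j i a b c x) : {a} ∉ F.erase {x} := fun h1 =>
  h.notD (z := a) (by simp) (h.frm.FD (mem_erase.1 h1).2 (mem_singleton_self a))

/-- the leaves of the exchanged frame. -/
theorem F_new [DecidableEq ι] (h : Px B Q T U F j i a b c x) (hm : MTE B Q T U F) {U1 : Finset V}
    {F1 : Finset (Finset V)} (h' : Frm B Q (insert i (T.erase j)) U1 F1) :
    F1 = insert {a} (F.erase {x}) := by
  obtain ⟨_, hU, hE⟩ := h.mte hm h'
  subst hU
  have hsys := h.sys_new (fun e he => h.a_E hm.emin he)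
  refine fcsys_eq h'.ge.sys hsys ?_
  have hf := h.frm
  have haD := h.notD (z := a) (by simp)
  have hD := h.Dp_new
  ext v
  constructor
  · intro hv
    obtain ⟨C, hC, hvC⟩ := mem_biUnion.1 hv
    have h1 := h'.FD hC hvC
    have h2 : v ∉ U1 := fun h3 => disjoint_left.1 (h'.ge.FU C hC) hvC h3
    have h3 : v ∉ Ep B Q T U1 F := by
      rw [← hE]
      exact fun h4 => disjoint_left.1 (h'.ge.FE C hC) hvC h4
    rw [hD] at h1
    rcases mem_insert.1 h1 with rfl | h1
    · exact mem_biUnion.2 ⟨{v}, mem_insert_self _ _, mem_singleton_self v⟩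
    · obtain ⟨h4, h5⟩ := mem_erase.1 h1
      rcases hf.three_cases h5 h3 with h6 | ⟨L, hL, hvL⟩
      · exact absurd h6 h2
      · refine mem_biUnion.2 ⟨L, mem_insert_of_mem (mem_erase.2 ⟨?_, hL⟩), hvL⟩
        rintro rfl
        exact h4 (mem_singleton.1 hvL)
  · intro hv
    obtain ⟨C, hC, hvC⟩ := mem_biUnion.1 hv
    have h1 := (hsys.closed C hC).1 hvC
    obtain ⟨h2, h3⟩ := mem_sdiff.1 h1
    have h4 : v ∉ Ep B Q (insert i (T.erase j)) U1 F1 := by
      rw [hE]
      intro h5
      rcases mem_insert.1 hC with rfl | hC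
      · rw [id, mem_singleton] at hvC
        subst hvC
        exact haD (Frm.ED h5)
      · exact disjoint_left.1 (hf.ge.FE C (mem_erase.1 hC).2) hvC h5
    rcases h'.three_cases h2 h4 with h5 | ⟨L, hL, hvL⟩
    · exact absurd h5 h3
    · exact mem_biUnion.2 ⟨L, hL, hvL⟩

omit [Fintype ι] in
/-- sums over the leaves of the exchanged frame. -/
theorem sum_new {M : Type*} [AddCommMonoid M] (h : Px B Q T U F j i a b c x) (f : Finset V → M) :
    ∑ L ∈ insert {a} (F.erase {x}), f L = f {a} + ∑ L ∈ F.erase {x}, f L :=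
  sum_insert h.a_notF

omit [Fintype ι] in
/-- a point has five single traces. -/
theorem _root_.Pool.Agent.Hyp6.nt_point [Fintype ι] (hr : Reg B Q) {v : V} (hv : v ∈ Q) :
    nt B {v} 1 = 5 := by
  rw [← hr v hv]
  unfold nt trs
  congr 1
  ext i
  rw [mem_filter, mem_filter]
  refine and_congr_right fun _ => ?_
  by_cases h : v ∈ B i
  · rw [inter_singleton_of_mem h, card_singleton]
    exact ⟨fun _ => h, fun _ => rfl⟩
  · rw [inter_singleton_of_notMem h, card_empty]
    exact ⟨fun h1 => absurd h1 (by norm_num), fun h1 => absurd h1 h⟩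

end Px

/-- **order of the frames**: `MTE`, then the number of the single traces of the leaves as large as
possible. -/
structure MTN (B : ι → Finset V) (Q : Finset V) (T : Finset ι) (U : Finset V)
    (F : Finset (Finset V)) : Prop extends MTE B Q T U F where
  nmax : Reg B Q → ∀ T' U' F', MTE B Q T' U' F' →
    ∑ L ∈ F', nt B L 1 ≤ ∑ L ∈ F, nt B L 1

theorem exists_MTN {Q : Finset V} (hc : Cov B Q) (h3 : Tr3 B Q) :
    ∃ (T : Finset ι) (U : Finset V) (F : Finset (Finset V)), MTN B Q T U F := by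
  classical
  obtain ⟨T0, U0, F0, h0⟩ := exists_MTE (B := B) hc h3
  set S : Finset (Finset ι × Finset V × Finset (Finset V)) :=
    ((univ : Finset (Finset ι)) ×ˢ (Q.powerset ×ˢ Q.powerset.powerset)).filter
      (fun t => MTE B Q t.1 t.2.1 t.2.2) with hS
  have hmem : ∀ T U F, MTE B Q T U F → (T, U, F) ∈ S := by
    intro T U F h
    rw [hS, mem_filter, mem_product, mem_product, mem_powerset, mem_powerset]
    exact ⟨⟨mem_univ _, h.frm.UD.trans Frm.DQ, fun L hL => mem_powerset.2 (h.frm.FQ hL)⟩, h⟩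
  obtain ⟨t, ht, hmax⟩ := exists_max_image S (fun t => ∑ L ∈ t.2.2, nt B L 1)
    ⟨_, hmem _ _ _ h0⟩
  exact ⟨t.1, t.2.1, t.2.2, (mem_filter.1 ht).2, fun _ T' U' F' h' => hmax _ (hmem _ _ _ h')⟩

namespace Px

variable {Q U : Finset V} {T : Finset ι} {F : Finset (Finset V)} {j i : ι} {a b c x : V}

/-- **the exchanged frame is of the same kind.** -/
theorem mtn [DecidableEq ι] (h : Px B Q T U F j i a b c x) (hm : MTN B Q T U F) {U1 : Finset V}
    {F1 : Finset (Finset V)} (h' : Frm B Q (insert i (T.erase j)) U1 F1) :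
    MTN B Q (insert i (T.erase j)) U1 F1 := by
  refine ⟨(h.mte hm.toMTE h').1, fun hr T' U' F' hf' => ?_⟩
  refine (hm.nmax hr T' U' F' hf').trans ?_
  rw [h.F_new hm.toMTE h', h.sum_new, ← add_sum_erase F _ h.hx, nt_point hr h.aQ,
    nt_point hr (Frm.DQ h.xD)]

end Px

end Pool.Agent.Hyp6
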