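import Pool.Agent.Hyp6.L3Mq

/-!
# HYP6 L3Mr: the sixth and the seventh criterion of the frame

`MTR`: an `MTQ` frame with the largest number of hits of `U` on the leaves and, among these, with the
smallest number of free places of the leaves. `MTR.point`: if the inequality of `MTQ.point` is an equality, then `{a}`
has at most as many hits of `U` as `{x}`, and if there are equally many, then at least as many free
places. `MTR.last`: the same for the one pair of blocks which differs.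
-/

set_option autoImplicit false

namespace Pool.Agent.Hyp6

open Finset Pool.Agent.Hyp5

universe u v

variable {V : Type v} [DecidableEq V] {ι : Type u} [Fintype ι] {B : ι → Finset V}

namespace Px

variable {Q U : Finset V} {T : Finset ι} {F : Finset (Finset V)} {j i : ι} {a b c x : V}

/-- the total weight does not change if the two sides are equal. -/
theorem Th_le [DecidableEq ι] (h : Px B Q T U F j i a b c x)
    (heq : (univ.filter fun k => x ∉ B k ∧ a ∈ B k ∧ b ∈ B k ∧ c ∉ B k).card +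
      (univ.filter fun k => x ∉ B k ∧ a ∈ B k ∧ b ∉ B k ∧ c ∈ B k).card +
      2 * (univ.filter fun k => x ∉ B k ∧ a ∈ B k ∧ b ∈ B k ∧ c ∈ B k).card ≤
    (univ.filter fun k => x ∈ B k ∧ a ∉ B k ∧ b ∈ B k ∧ c ∉ B k).card +
      (univ.filter fun k => x ∈ B k ∧ a ∉ B k ∧ b ∉ B k ∧ c ∈ B k).card +
      2 * (univ.filter fun k => x ∈ B k ∧ a ∉ B k ∧ b ∈ B k ∧ c ∈ B k).card) :
    Th B Q T ≤ Th B Q (insert i (T.erase j)) := by
  have hiT : i ∉ T.erase j := by
    intro h1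
    obtain ⟨h2, h3⟩ := mem_erase.1 h1
    have h4 := h.dis i h3 h2
    rw [disjoint_self] at h4
    have h5 := h.hi3
    rw [h4] at h5
    simp at h5
  unfold Th
  rw [sum_insert hiT, ← add_sum_erase T _ h.hj, h.hiQ, h.hjQ]
  have h2 := h.wt_eq (w := wth) (by simp [wth]) (by simp [wth]) (by simp [wth]) (by simp [wth])
  omega

end Px

/-- **order of the frames**: `MTQ`, then the number of hits of `U` on the leaves as large as possible,
then the number of free places of the leaves as small as possible. -/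
structure MTR (B : ι → Finset V) (Q : Finset V) (T : Finset ι) (U : Finset V)
    (F : Finset (Finset V)) : Prop extends MTQ B Q T U F where
  hmax : ∀ T' U' F', MTQ B Q T' U' F' → ∑ L ∈ F', hit B U' L ≤ ∑ L ∈ F, hit B U L
  fmin : ∀ T' U' F', MTQ B Q T' U' F' → ∑ L ∈ F, hit B U L ≤ ∑ L ∈ F', hit B U' L →
    ∑ L ∈ F, fs B Q L ≤ ∑ L ∈ F', fs B Q L

theorem exists_MTR {Q : Finset V} (hc : Cov B Q) (h3 : Tr3 B Q) :
    ∃ (T : Finset ι) (U : Finset V) (F : Finset (Finset V)), MTR B Q T U F := by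
  classical
  obtain ⟨T0, U0, F0, h0⟩ := exists_MTQ (B := B) hc h3
  set S : Finset (Finset ι × Finset V × Finset (Finset V)) :=
    ((univ : Finset (Finset ι)) ×ˢ (Q.powerset ×ˢ Q.powerset.powerset)).filter
      (fun t => MTQ B Q t.1 t.2.1 t.2.2) with hS
  have hmem : ∀ T U F, MTQ B Q T U F → (T, U, F) ∈ S := by
    intro T U F h
    rw [hS, mem_filter, mem_product, mem_product, mem_powerset, mem_powerset]
    exact ⟨⟨mem_univ _, h.frm.UD.trans Frm.DQ, fun L hL => mem_powerset.2 (h.frm.FQ hL)⟩, h⟩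
  obtain ⟨t1, ht1, hmax⟩ := exists_max_image S (fun t => ∑ L ∈ t.2.2, hit B t.2.1 L)
    ⟨_, hmem _ _ _ h0⟩
  obtain ⟨t, ht, hmin⟩ := exists_min_image
    (S.filter fun t => ∑ L ∈ t1.2.2, hit B t1.2.1 L ≤ ∑ L ∈ t.2.2, hit B t.2.1 L)
    (fun t => ∑ L ∈ t.2.2, fs B Q L) ⟨t1, mem_filter.2 ⟨ht1, le_rfl⟩⟩
  obtain ⟨ht2, ht3⟩ := mem_filter.1 ht
  have ht4 : MTQ B Q t.1 t.2.1 t.2.2 := (mem_filter.1 ht2).2
  refine ⟨t.1, t.2.1, t.2.2, ht4, fun T' U' F' h' => ?_, fun T' U' F' h' hle => ?_⟩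
  · exact (hmax _ (hmem _ _ _ h')).trans ht3
  · exact hmin _ (mem_filter.2 ⟨hmem _ _ _ h', ht3.trans hle⟩)

/-- **the comparison of the two point leaves.** -/
theorem MTR.point [DecidableEq ι] {Q U : Finset V} {T : Finset ι} {F : Finset (Finset V)}
    {j i : ι} {a b c x : V} (hq : MTR B Q T U F) (h : Px B Q T U F j i a b c x)
    (heq : (univ.filter fun k => x ∉ B k ∧ a ∈ B k ∧ b ∈ B k ∧ c ∉ B k).card +
      (univ.filter fun k => x ∉ B k ∧ a ∈ B k ∧ b ∉ B k ∧ c ∈ B k).card +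
      2 * (univ.filter fun k => x ∉ B k ∧ a ∈ B k ∧ b ∈ B k ∧ c ∈ B k).card ≤
    (univ.filter fun k => x ∈ B k ∧ a ∉ B k ∧ b ∈ B k ∧ c ∉ B k).card +
      (univ.filter fun k => x ∈ B k ∧ a ∉ B k ∧ b ∉ B k ∧ c ∈ B k).card +
      2 * (univ.filter fun k => x ∈ B k ∧ a ∉ B k ∧ b ∈ B k ∧ c ∈ B k).card)
    (hsq : q3 (mlt B a b) + q3 (mlt B a c) ≤ q3 (mlt B x b) + q3 (mlt B x c)) :
    hit B U {a} ≤ hit B U {x} ∧ (hit B U {x} ≤ hit B U {a} → fs B Q {x} ≤ fs B Q {a}) := by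
  obtain ⟨U1, F1, h'⟩ := h.exists_new
  obtain ⟨_, h2, h3⟩ := h.mte hq.toMTE h'
  have h1 := h.mtn hq.toMTN h'
  have h4 := h.F_new hq.toMTE h'
  subst h2
  subst h4
  have h5 : MTQ B Q (insert i (T.erase j)) U1 (insert {a} (F.erase {x})) :=
    ⟨hq.toMT3.of_le h1 (h.T3_le hsq),
      fun T' U' F' hf' => (hq.tmax T' U' F' hf').trans (h.Th_le heq)⟩
  have h6 := hq.hmax _ _ _ h5
  have h7 := hq.fmin _ _ _ h5
  rw [h.sum_new, ← add_sum_erase F _ h.hx] at h6 h7
  rw [h.sum_new, ← add_sum_erase F _ h.hx] at h7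
  exact ⟨by omega, fun h8 => by
    have h9 := h7 (by omega)
    linarith⟩

/-- **the last block**: if the blocks of `x` except `i, i1` are the blocks of `a` except `j, i5`. -/
theorem MTR.last [DecidableEq ι] {Q U : Finset V} {T : Finset ι} {F : Finset (Finset V)}
    {j i i1 i5 : ι} {a b c x : V} (hq : MTR B Q T U F) (h : Px B Q T U F j i a b c x)
    (heq : (univ.filter fun k => x ∉ B k ∧ a ∈ B k ∧ b ∈ B k ∧ c ∉ B k).card +
      (univ.filter fun k => x ∉ B k ∧ a ∈ B k ∧ b ∉ B k ∧ c ∈ B k).card +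
      2 * (univ.filter fun k => x ∉ B k ∧ a ∈ B k ∧ b ∈ B k ∧ c ∈ B k).card ≤
    (univ.filter fun k => x ∈ B k ∧ a ∉ B k ∧ b ∈ B k ∧ c ∉ B k).card +
      (univ.filter fun k => x ∈ B k ∧ a ∉ B k ∧ b ∉ B k ∧ c ∈ B k).card +
      2 * (univ.filter fun k => x ∈ B k ∧ a ∉ B k ∧ b ∈ B k ∧ c ∈ B k).card)
    (hsq : q3 (mlt B a b) + q3 (mlt B a c) ≤ q3 (mlt B x b) + q3 (mlt B x c))
    (hx1 : x ∈ B i1) (hi1 : i1 ≠ i) (ha5 : a ∈ B i5) (hi5 : i5 ≠ j)
    (hbl : ((univ.filter fun k => x ∈ B k).erase i).erase i1 =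
      ((univ.filter fun k => a ∈ B k).erase j).erase i5) :
    (B i5 ∩ U).card ≤ (B i1 ∩ U).card ∧
      ((B i1 ∩ U).card ≤ (B i5 ∩ U).card → (B i5 ∩ Q).card ≤ (B i1 ∩ Q).card) := by
  have hp := hq.point h heq hsq
  have ht : ∀ v : V, tch B {v} = univ.filter fun k => v ∈ B k := by
    intro v
    ext k
    rw [cost_mem_tch, mem_filter]
    constructor
    · rintro ⟨y, hy⟩
      obtain ⟨h1, h2⟩ := mem_inter.1 hy
      rw [mem_singleton] at h2
      exact ⟨mem_univ _, h2 ▸ h1⟩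
    · rintro ⟨_, h1⟩
      exact ⟨v, mem_inter.2 ⟨h1, mem_singleton_self v⟩⟩
  have hxi : x ∈ B i := (mem_inter.1 (by rw [h.hiQ]; simp : x ∈ B i ∩ Q)).1
  have sx : ∀ {M : Type} [AddCommMonoid M] (f : ι → M), ∑ k ∈ tch B {x}, f k =
      f i + (f i1 + ∑ k ∈ ((univ.filter fun k => x ∈ B k).erase i).erase i1, f k) := by
    intro M _ f
    rw [ht, add_sum_erase _ f (mem_erase.2 ⟨hi1, mem_filter.2 ⟨mem_univ _, hx1⟩⟩),
      add_sum_erase _ f (mem_filter.2 ⟨mem_univ _, hxi⟩)]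
  have sa : ∀ {M : Type} [AddCommMonoid M] (f : ι → M), ∑ k ∈ tch B {a}, f k =
      f j + (f i5 + ∑ k ∈ ((univ.filter fun k => x ∈ B k).erase i).erase i1, f k) := by
    intro M _ f
    rw [ht, hbl, add_sum_erase _ f (mem_erase.2 ⟨hi5, mem_filter.2 ⟨mem_univ _, ha5⟩⟩),
      add_sum_erase _ f (mem_filter.2 ⟨mem_univ _, h.aj⟩)]
  have hUQ : U ⊆ Q := h.frm.UD.trans Frm.DQ
  have hj0 : (B j ∩ U).card = 0 := by
    rw [card_eq_zero, eq_empty_iff_forall_notMem]
    intro v hv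
    obtain ⟨h1, h2⟩ := mem_inter.1 hv
    exact Frm.T_notD h.hj h1 (h.frm.UD h2)
  have hi0 : (B i ∩ U).card = 0 := by
    rw [card_eq_zero, eq_empty_iff_forall_notMem]
    intro v hv
    obtain ⟨h1, h2⟩ := mem_inter.1 hv
    have h3 : v ∈ B i ∩ Q := mem_inter.2 ⟨h1, hUQ h2⟩
    rw [h.hiQ] at h3
    simp only [mem_insert, mem_singleton] at h3
    rcases h3 with rfl | rfl | rfl
    · exact disjoint_left.1 (h.frm.ge.FU _ h.hx) (mem_singleton_self v) h2
    · exact h.notD (z := v) (by simp) (h.frm.UD h2)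
    · exact h.notD (z := v) (by simp) (h.frm.UD h2)
  have hj3 := h.frm.mtp.tpk.pack.card j h.hj
  have hi3 := h.hi3
  unfold hit fs at hp
  rw [sx (fun k => (B k ∩ U).card), sa (fun k => (B k ∩ U).card),
    sx (fun k => (3 - ((B k ∩ Q).card : ℤ))), sa (fun k => (3 - ((B k ∩ Q).card : ℤ))),
    hj0, hi0, hj3, hi3] at hp
  obtain ⟨h1, h2⟩ := hp
  refine ⟨by omega, fun h3 => ?_⟩
  have h4 := h2 (by omega)
  push_cast at h4
  omega

end Pool.Agent.Hyp6
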