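import Pool.Agent.Hyp6.L3Fin
import Pool.Agent.Hyp6.L3Mr

/-!
# HYP6 L3Sr: the setting of the rent proof with all criteria of the frame
-/

set_option autoImplicit false

namespace Pool.Agent.Hyp6

open Finset Pool.Agent.Hyp5 Rt

universe u v

variable {V : Type v} [DecidableEq V] {ι : Type u} [Fintype ι] [DecidableEq ι]
  {B : ι → Finset V}

/-- **the setting of the rent proof** with the last frame of the order: `MTE`, the number of single
traces of the leaves, the weight of the traces on the triples, the hits of `U`, the free places. -/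
structure StgR (B : ι → Finset V) (Q : Finset V) (T : Finset ι) (U : Finset V)
    (F : Finset (Finset V)) (P : Finset (Finset (Finset V)))
    (a : V → Finset (Finset V) → ℕ) : Prop extends Stg B Q T U F P a where
  mtr : MTR B Q T U F

/-- every last frame of the order has a setting. -/
theorem MTR.stgR {Q : Finset V} {T : Finset ι} {U : Finset V} {F : Finset (Finset V)}
    (hM : MTR B Q T U F) (hv : ViolR B Q) : ∃ P a, StgR B Q T U F P a := by
  obtain ⟨P, a, h⟩ := hM.toMTE.stg hv
  exact ⟨P, a, h, hM⟩

theorem ViolR.exists_stgR {Q : Finset V} (hv : ViolR B Q) :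
    ∃ T U F P a, StgR B Q T U F P a := by
  obtain ⟨T, U, F, hM⟩ := exists_MTR (B := B) (Q := Q) hv.cov hv.tr
  obtain ⟨P, a, h⟩ := hM.stgR hv
  exact ⟨T, U, F, P, a, h⟩

end Pool.Agent.Hyp6
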