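import Pool.Agent.Hyp6.L3Db
import Pool.Agent.Hyp6.L3Sr
import Pool.Agent.Hyp6.L3Mn
import Pool.Agent.Hyp6.L3Bs

/-!
# HYP6 L3Dk: a parallel class is connected; doubled line triples

`Frm.conn_par`: a parallel class with its inside points is connected. `Stg.line_other`: a line triple
which sees an own leaf without hits of `U` sees only one further parallel class.
`StgR.not_doubled`: there is no doubled line triple with six hits on an own point leaf without hits of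
`U` and without free places.
-/

set_option autoImplicit false

namespace Pool.Agent.Hyp6

open Finset Pool.Agent.Hyp5

universe u v

variable {V : Type v} [DecidableEq V] {ι : Type u} [Fintype ι] {B : ι → Finset V}

/-- the leaves seen by a point have a common block with it. -/
theorem slf_hit {F : Finset (Finset V)} {U : Finset V} {u : V} (hu : u ∈ U) {L : Finset V}
    (hL : L ∈ slf B F u) : hit B U L ≠ 0 := by
  obtain ⟨_, y, hy, _, i, hui, hyi⟩ := mem_slf.1 hL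
  intro h0
  unfold hit at h0
  have h1 := (sum_eq_zero_iff.1 h0) i (cost_mem_tch.2 ⟨y, mem_inter.2 ⟨hyi, hy⟩⟩)
  rw [card_eq_zero] at h1
  exact notMem_empty u (h1 ▸ mem_inter.2 ⟨hui, hu⟩)

omit [Fintype ι] in
/-- **a parallel class with its inside points is connected.** -/
theorem Frm.conn_par {Q U : Finset V} {T : Finset ι} {F : Finset (Finset V)}
    (h : Frm B Q T U F) {D : Finset (Finset V)} (hD : D ∈ par0 B U F) :
    Conn (gr B) (D.biUnion id ∪ Sp.Uin U (slf B F) D) := by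
  classical
  have hp := par0_spec (B := B) U F
  have hDF : D ⊆ F := hp.sub hD
  set K := D.biUnion id ∪ Sp.Uin U (slf B F) D with hK
  have hLK : ∀ L ∈ D, L ⊆ K := fun L hL =>
    (subset_biUnion_of_mem id hL).trans subset_union_left
  have hfc : ∀ L ∈ D, FC (gr B) L := fun L hL => h.ge.sys.fc L (hDF hL)
  obtain ⟨L0, hL0⟩ := hp.ne hD
  obtain ⟨z0, hz0⟩ := (hfc L0 hL0).1
  refine ⟨⟨z0, hLK L0 hL0 hz0⟩, fun Z hZ hne => ?_⟩
  have hlf : ∀ L ∈ D, ∀ z ∈ L, z ∈ Z → L ⊆ Z := fun L hL z hz hzZ =>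
    fc_sub_closed (hfc L hL) (hLK L hL) hZ hz hzZ
  -- a leaf inside
  have hin : ∃ L ∈ D, L ⊆ Z := by
    obtain ⟨z, hz⟩ := hne
    rcases mem_union.1 (hZ.1 hz) with h1 | h1
    · obtain ⟨L, hL, hzL⟩ := mem_biUnion.1 h1
      exact ⟨L, hL, hlf L hL z hzL hz⟩
    · obtain ⟨hzU, hzN⟩ := mem_filter.1 h1
      obtain ⟨L, hL⟩ := Sp.Gd.N_ne h.sur hzU
      obtain ⟨_, y, hy, hzy⟩ := mem_slf.1 hL
      have hyZ : y ∈ Z := hZ.2 z hz y (hLK L (hzN hL) hy) hzy
      exact ⟨L, hzN hL, hlf L (hzN hL) y hy hyZ⟩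
  -- all leaves inside
  have hall : ∀ L ∈ D, L ⊆ Z := by
    by_contra hcon
    push Not at hcon
    obtain ⟨L1, hL1, hL1Z⟩ := hcon
    obtain ⟨L2, hL2, hL2Z⟩ := hin
    rcases (hp.ptn.vc D hD).conn (D.filter (fun L => L ⊆ Z)) (filter_subset _ _)
      ⟨L2, mem_filter.2 ⟨hL2, hL2Z⟩⟩ (fun e => hL1Z (by
        have h1 : L1 ∈ D.filter (fun L => L ⊆ Z) := by rw [e]; exact hL1
        exact (mem_filter.1 h1).2)) with ⟨t, ht, _⟩ | ⟨u, hu, h1, h2⟩
    · simp [Sp.Kin] at ht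
    · obtain ⟨huU, huN⟩ := mem_filter.1 hu
      rw [not_subset] at h1 h2
      obtain ⟨L, hL, hLn⟩ := h1
      obtain ⟨L', hL', hLn'⟩ := h2
      have hLD := huN hL
      have hLD' := huN hL'
      have h3 : ¬ L ⊆ Z := fun h4 => hLn (mem_filter.2 ⟨hLD, h4⟩)
      have h4 : L' ⊆ Z := by
        by_contra h5
        exact hLn' (mem_sdiff.2 ⟨hLD', fun h6 => h5 (mem_filter.1 h6).2⟩)
      obtain ⟨_, y', hy', huy'⟩ := mem_slf.1 hL'
      obtain ⟨_, y, hy, huy⟩ := mem_slf.1 hL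
      have huZ : u ∈ Z := hZ.2 y' (h4 hy') u (mem_union_right _ hu) huy'.symm
      have hyZ : y ∈ Z := hZ.2 u huZ y (hLK L hLD hy) huy
      exact h3 (hlf L hLD y hy hyZ)
  refine Subset.antisymm hZ.1 (union_subset (biUnion_subset.2 hall) fun u hu => ?_)
  obtain ⟨huU, huN⟩ := mem_filter.1 hu
  obtain ⟨L, hL⟩ := Sp.Gd.N_ne h.sur huU
  obtain ⟨_, y, hy, huy⟩ := mem_slf.1 hL
  exact hZ.2 y (hall L (huN hL) hy) u (mem_union_right _ hu) huy.symm

variable [DecidableEq ι] {Q U : Finset V} {T : Finset ι} {F : Finset (Finset V)}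
  {P : Finset (Finset (Finset V))} {al : V → Finset (Finset V) → ℕ}

/-- **a line triple which sees an own leaf without hits of `U` sees only one further class.** -/
theorem Stg.line_other (s : Stg B Q T U F P al) {W : Finset V} (hW : {W} ∈ par0 B U F)
    (g0 : hit B U W = 0) {k : ι} (hk : k ∈ tl B Q T U F P) (hs : W ∈ slj B Q F k) :
    ∃ D ∈ par0 B U F, D ≠ {W} ∧ ∀ L ∈ slj B Q F k, L ≠ W → L ∈ D := by
  have hp := s.par
  have hg := s.frm.sur
  obtain ⟨_, hl⟩ := s.rank_tl hk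
  set l := lnj B Q U F (par0 B U F) k with hldef
  have hml : mcj B Q F (par0 B U F) k ⊆ l := Sp.subset_clo mcj_sub
  have hWl : {W} ∈ l := hml (Sp.mem_met.2 ⟨hW, not_disjoint_iff.2 ⟨W, hs, mem_singleton_self W⟩⟩)
  have hc := Sp.Line.card_eq hg hp hl
  have hUU : Sp.UU U (slf B F) (par0 B U F) l = ∅ := by
    by_contra hne
    have h1 := Sp.Line.own_sees hg hp hl (Subset.refl _) (nonempty_iff_ne_empty.2 hne)
    rw [← hc] at h1
    have h2 := eq_of_subset_of_card_le (inter_subset_right : ((Sp.UU U (slf B F) (par0 B U F)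
      l).biUnion (fun u => Sp.met (par0 B U F) (slf B F u))) ∩ l ⊆ l) h1
    have h3 : {W} ∈ ((Sp.UU U (slf B F) (par0 B U F)
      l).biUnion (fun u => Sp.met (par0 B U F) (slf B F u))) ∩ l := by rw [h2]; exact hWl
    obtain ⟨u, hu, hWu⟩ := mem_biUnion.1 (mem_inter.1 h3).1
    obtain ⟨L, hL, hLW⟩ := not_disjoint_iff.1 (Sp.mem_met.1 hWu).2
    rw [mem_singleton] at hLW
    rw [hLW] at hL
    exact slf_hit (mem_filter.1 (mem_filter.1 hu).1).1 hL g0
  rw [hUU, card_empty, zero_add] at hc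
  obtain ⟨D, hD⟩ : ∃ D, l.erase {W} = {D} := by
    rw [← card_eq_one, card_erase_of_mem hWl, hc]
  have hDl : D ∈ l.erase {W} := by rw [hD]; exact mem_singleton_self D
  obtain ⟨hDW, hDl'⟩ := mem_erase.1 hDl
  refine ⟨D, hl.sub hDl', hDW, fun L hL hne => ?_⟩
  obtain ⟨C, hC, hLC⟩ := hp.cls (slj_sub hL)
  have h1 : C ∈ l := hml (Sp.mem_met.2 ⟨hC, not_disjoint_iff.2 ⟨L, hL, hLC⟩⟩)
  by_cases h2 : C = {W}
  · rw [h2, mem_singleton] at hLC
    exact absurd hLC hne
  · have h3 : C ∈ l.erase {W} := mem_erase.2 ⟨h2, h1⟩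
    rw [hD, mem_singleton] at h3
    rw [← h3]
    exact hLC

namespace StgR

/-- **there is no doubled line triple with six hits on an own point leaf without hits of `U` and without
free places.** -/
theorem not_doubled (s : StgR B Q T U F P al) {x : V} {k i k0 : ι} {a b c : V} (xP : {{x}} ∈ P)
    (hk : k ∈ tl B Q T U F P) (g0 : hit B U {x} = 0) (f0 : fs B Q {x} = 0)
    (h : Pex3 B Q T U F k i k0 a b c x) (hck : c ∈ B k0) : False := by
  have hxp : {{x}} ∈ par0 B U F := s.toStg.own_par xP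
  have hxi : x ∈ B i := (mem_inter.1 (by rw [h.px.hiQ]; simp : x ∈ B i ∩ Q)).1
  have hbi : b ∈ B i := (mem_inter.1 (by rw [h.px.hiQ]; simp : b ∈ B i ∩ Q)).1
  have hbj : b ∈ B k ∩ Q := by rw [h.px.hjQ]; simp
  have hcj : c ∈ B k ∩ Q := by rw [h.px.hjQ]; simp
  obtain ⟨hxa, hxb, hxc⟩ := h.px.x_ne
  have hs : {x} ∈ slj B Q F k := mem_biUnion.2 ⟨b, hbj, mem_slf.2 ⟨h.px.hx, x,
    mem_singleton_self x, hxb.symm, i, hbi, hxi⟩⟩
  obtain ⟨D, hD, hDx, hDs⟩ := s.toStg.line_other hxp g0 hk hs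
  have hDF : D ⊆ F := s.toStg.par.sub hD
  have hxU : x ∉ U := fun h1 =>
    (mem_sdiff.1 ((h.px.frm.ge.sys.closed {x} h.px.hx).1 (mem_singleton_self x))).2 h1
  refine h.no_doubled s.viol hck g0 f0 (K := D.biUnion id ∪ Sp.Uin U (slf B F) D) ?_ ?_
    (s.frm.conn_par hD) ?_
  · intro v hv
    rcases mem_union.1 hv with h1 | h1
    · obtain ⟨L, hL, hvL⟩ := mem_biUnion.1 h1
      exact h.px.frm.FD (hDF hL) hvL
    · exact h.px.frm.UD (mem_filter.1 h1).1
  · intro h1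
    rcases mem_union.1 h1 with h2 | h2
    · obtain ⟨L, hL, hxL⟩ := mem_biUnion.1 h2
      have h3 : L = {x} := by
        by_contra hne
        exact disjoint_left.1 (h.px.frm.ge.sys.disj L (hDF hL) {x} h.px.hx hne) hxL
          (mem_singleton_self x)
      rw [h3] at hL
      exact disjoint_left.1 (s.toStg.par.dj hD hxp hDx) hL (mem_singleton_self _)
    · exact hxU (mem_filter.1 h2).1
  · rintro m hm ⟨y, hy⟩
    obtain ⟨hy1, hy2⟩ := mem_inter.1 hy
    obtain ⟨L, hL, hyL⟩ := mem_biUnion.1 hy2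
    obtain ⟨hne, hLF⟩ := mem_erase.1 hL
    have hyD : y ∈ Dp B Q T := h.px.frm.FD hLF hyL
    have hLk : L ∈ slj B Q F k := by
      rcases hm with hm | hm
      · refine mem_biUnion.2 ⟨b, hbj, mem_slf.2 ⟨hLF, y, hyL, ?_, m, hm, hy1⟩⟩
        rintro rfl
        exact h.px.notD (z := b) (by simp) hyD
      · refine mem_biUnion.2 ⟨c, hcj, mem_slf.2 ⟨hLF, y, hyL, ?_, m, hm, hy1⟩⟩
        rintro rfl
        exact h.px.notD (z := c) (by simp) hyD
    exact ⟨y, mem_inter.2 ⟨hy1, mem_union_left _ (mem_biUnion.2 ⟨L, hDs L hLk hne, hyL⟩)⟩⟩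

end StgR

end Pool.Agent.Hyp6
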