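import Pool.Agent.Hyp6.L3Y5

/-!
# HYP6 L3Y8: the rent sum with transfers

`btw`: the number of blocks between the removed points with exactly two points of `Q`; each of them
leaves `20` units. `Frm.of_totalPf`, `Frm.of_nodes8t`: the supply theorem and the rent sum with
transfers `t` between the triples of the frame, whose sum is at most `160 * btw`.
`Frm.tr_le`: the transfers which come from blocks with two points of a triple.
-/

set_option autoImplicit false

namespace Pool.Agent.Hyp6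

open Finset Pool.Agent.Hyp5 Rt

universe u v

variable {V : Type v} [DecidableEq V] {ι : Type u} [Fintype ι] [DecidableEq ι]
  {B : ι → Finset V}

/-- the blocks between the removed points with exactly two points of `Q`. -/
noncomputable def bt2 (B : ι → Finset V) (Q : Finset V) (T : Finset ι) (U : Finset V) :
    Finset ι := (bt B Q T U).filter (fun i => (B i ∩ Q).card = 2)

namespace Frm

variable {Q U : Finset V} {T R : Finset ι} {F : Finset (Finset V)}
  {P : Finset (Finset (Finset V))}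

/-- the free places of the blocks between the removed points. -/
theorem fb_slack (h : Frm B Q T U F) :
    20 * ((bt2 B Q T U).card : ℤ) + 30 * (ee B Q (Xp B Q T U) : ℤ) ≤ 20 * fb B Q T U := by
  have h1 := two_ee_le (B := B) Q (Xp B Q T U)
  set S := (ins B Q (Xp B Q T U)).filter (fun i => (B i ∩ Q).card = 1) with hS
  have hsub : S ⊆ (bt B Q T U).filter (fun i => (B i ∩ Q).card = 1) := by
    intro i hi
    obtain ⟨h2, h3⟩ := mem_filter.1 hi
    refine mem_filter.2 ⟨mem_sdiff.2 ⟨h2, fun hT => ?_⟩, h3⟩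
    have h4 := h.mtp.tpk.pack.card i hT
    omega
  have h2 := card_le_card hsub
  have h3 : ((bt2 B Q T U).card : ℤ) +
      2 * (((bt B Q T U).filter (fun i => (B i ∩ Q).card = 1)).card : ℤ) ≤ fb B Q T U := by
    unfold bt2 fb
    rw [card_filter, card_filter]
    push_cast
    rw [mul_sum, ← sum_add_distrib]
    refine sum_le_sum fun i _ => ?_
    have h4 := h.reg3 i
    split_ifs <;> omega
  have h4 : (2 * (ee B Q (Xp B Q T U) : ℤ)) ≤ S.card := by exact_mod_cast h1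
  have h5 : (S.card : ℤ) ≤ (((bt B Q T U).filter (fun i => (B i ∩ Q).card = 1)).card : ℤ) := by
    exact_mod_cast h2
  have h6 : (0 : ℤ) ≤ ee B Q (Xp B Q T U) := by positivity
  linarith

/-- **the supply theorem, total form, with the free places of the blocks with two points**. -/
theorem of_totalPf (h : Frm B Q T U F) (hr : Reg B Q) {t : ℤ} (ht' : t ≤ 15) (hs : 0 ≤ sv B Q)
    (hm : ∑ L ∈ F, dm B Q T U t L ≤ ∑ j ∈ T, sT B Q T U F t j + ∑ u ∈ U, sU B Q T U F t u +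
      20 * ((bt2 B Q T U).card : ℤ) + 14) :
    2 * (ee B Q Q : ℤ) ≤ Pv B Q := by
  have h0 := h.total_ge hr
  have hx := h.fb_slack
  have hE := h.four_ee_E hr
  have h6 : (ee B Q Q : ℤ) = ∑ L ∈ F, (ee B Q L : ℤ) + ee B Q (Ep B Q T U F) +
      ee B Q (Xp B Q T U) := by
    rw [h.ee_split]
    push_cast
    rfl
  have h7 : (0 : ℤ) ≤ ee B Q (Ep B Q T U F) := by positivity
  have hfa := h.fa_nonneg
  have hsv : sv B Q = T.card + U.card - F.card := by
    have h1 := h.svD'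
    have h2 := h.svD
    linarith
  have hPv := Pv_eq_Pp (B := B) Q
  have hd : ∑ L ∈ F, dm B Q T U t L = 18 * ∑ j ∈ T, (∑ L ∈ F, (jh B Q j L : ℤ)) +
      33 * ∑ L ∈ F, (hit B U L : ℤ) + 30 * ∑ L ∈ F, (ee B Q L : ℤ) - ∑ L ∈ F, lt B U L +
      t * F.card := by
    unfold dm
    rw [sum_add_distrib, sum_sub_distrib, sum_add_distrib, sum_add_distrib, ← mul_sum, ← mul_sum,
      ← mul_sum, sum_const, nsmul_eq_mul, sum_comm]
    ring
  have hT : ∑ j ∈ T, sT B Q T U F t j = 18 * ∑ j ∈ T, (∑ L ∈ F, (jh B Q j L : ℤ)) +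
      ∑ j ∈ T, (20 * ((jn B Q (Ep B Q T U F) j : ℤ) + jb B Q T U j) +
        10 * ja B Q (Ep B Q T U F) j - 90) + t * T.card := by
    have h1 : ∀ j ∈ T, sT B Q T U F t j = 18 * (∑ L ∈ F, (jh B Q j L : ℤ)) +
        (20 * ((jn B Q (Ep B Q T U F) j : ℤ) + jb B Q T U j) +
        10 * ja B Q (Ep B Q T U F) j - 90) + t := by
      intro j hj
      have h4 : (∑ L ∈ F, (jh B Q j L : ℤ)) + jn B Q (Ep B Q T U F) j +
          ja B Q (Ep B Q T U F) j + jb B Q T U j = 12 := by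
        exact_mod_cast h.twelve hr hj
      unfold sT
      linarith
    rw [sum_congr rfl h1, sum_add_distrib, sum_add_distrib, ← mul_sum, sum_const, nsmul_eq_mul]
    ring
  have h12 := h.five_U hr
  have h10 : ∑ u ∈ U, (uo B Q T U F u : ℤ) = hit B U (Ep B Q T U F) + ub B Q T U := by
    unfold uo
    push_cast
    rw [sum_add_distrib]
    congr 1
    · have h11 := hit_U_sum (B := B) U (Ep B Q T U F)
      rw [h11]
      unfold uh
      push_cast
      rfl
    · unfold ub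
      push_cast
      rw [sum_comm]
      refine sum_congr rfl fun i _ => ?_
      rw [inter_card_sum (B i) U]
      push_cast
      rfl
  have hU : ∑ u ∈ U, sU B Q T U F t u = 33 * ∑ L ∈ F, (hit B U L : ℤ) +
      32 * ((hit B U (Ep B Q T U F) : ℤ) + ub B Q T U) + t * U.card := by
    unfold sU
    rw [sum_sub_distrib, sum_const, nsmul_eq_mul, h10]
    linarith
  rw [hd, hT, hU] at hm
  have key : 30 * (ee B Q Q : ℤ) - 14 ≤ 15 * Pp B Q + t * sv B Q := by
    rw [hsv, h6]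
    linarith
  have h13 : t * sv B Q ≤ 15 * sv B Q := mul_le_mul_of_nonneg_right ht' hs
  rw [hPv]
  omega

/-- **the rent sum, fine units, with transfers**. -/
theorem of_nodes8t (h : Frm B Q T U F) (hr : Reg B Q) (hsv : 0 ≤ sv B Q) (hR : R ⊆ T)
    (hP : Sp.MinP F F U (slf B F) R (slj B Q F) P) {a : V → Finset (Finset V) → ℕ}
    (hs : ∀ u ∈ Sp.Ux U (slf B F) P, ∀ C ∈ P, 0 < a u C → C ∈ Sp.met P (slf B F u))
    (ht : ∀ u ∈ Sp.Ux U (slf B F) P, ∑ C ∈ P, a u C = 5 - uo B Q T U F u)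
    {l : ι → Finset (Finset (Finset V))}
    (hl : Sp.Lnf U (slf B F) P (Sp.T2 U (slf B F) R (slj B Q F) P) l)
    (e X : ι → Finset (Finset V) → ℤ) (t : ι → ℤ)
    (htr : ∑ j ∈ T, t j ≤ 160 * ((bt2 B Q T U).card : ℤ))
    (hsum : ∑ j ∈ Sp.T2 U (slf B F) R (slj B Q F) P, (1120 + ∑ C ∈ P, e j C) +
        ∑ j ∈ Trs B Q T R U F P, ∑ C ∈ P, X j C ≤
      ∑ j ∈ Sp.T2 U (slf B F) R (slj B Q F) P, (8 * sT B Q T U F 15 j + t j) +
        ∑ j ∈ Trs B Q T R U F P, (8 * sT B Q T U F 15 j + t j) +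
      168 * ∑ j ∈ Sp.T2 U (slf B F) R (slj B Q F) P,
        ∑ u ∈ Sp.UU U (slf B F) P (l j), (uo B Q T U F u : ℤ) + 112)
    (hn : ∀ C ∈ P, 8 * dmC B Q T R U F C ≤
      8 * ∑ j ∈ Sp.atl (Sp.T2 U (slf B F) R (slj B Q F) P) l C,
        (70 - 14 * (Sp.owl U (slf B F) P l a j C : ℤ)) +
      288 * (Sp.ld (Sp.Ux U (slf B F) P) a C : ℤ) +
      ∑ j ∈ Sp.T2 U (slf B F) R (slj B Q F) P, e j C + ∑ j ∈ Trs B Q T R U F P, X j C +
      ∑ j ∈ Sp.Kin R (slj B Q F) C, t j) :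
    2 * (ee B Q Q : ℤ) ≤ Pv B Q := by
  have hg := h.gdT (R := R)
  have hUx : ∀ u ∈ Sp.Ux U (slf B F) P, u ∈ U := fun u hu => (mem_filter.1 hu).1
  refine h.of_totalPf hr le_rfl hsv ?_
  have h1 := Sp.rent8 hg hP hs ht (fun u _ => Nat.sub_le _ _) hl (dmC B Q T R U F)
    (fun C => ∑ j ∈ Trs B Q T R U F P, X j C + ∑ j ∈ Sp.Kin R (slj B Q F) C, t j) e
    (fun C hC => by
      have := hn C hC
      linarith)
  have h2 : ∀ u ∈ Sp.Ux U (slf B F) P, (5 - ((5 - uo B Q T U F u : ℕ) : ℤ)) =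
      uo B Q T U F u := by
    intro u hu
    have := h.uo_le hr (hUx u hu)
    omega
  have h3 : ∑ u ∈ Sp.Ux U (slf B F) P, (180 - (5 - ((5 - uo B Q T U F u : ℕ) : ℤ))) =
      ∑ u ∈ Sp.Ux U (slf B F) P, sU B Q T U F 15 u := by
    refine sum_congr rfl fun u hu => ?_
    rw [h2 u hu]
    unfold sU
    ring
  have h4 : ∑ j ∈ Sp.T2 U (slf B F) R (slj B Q F) P,
      ∑ u ∈ Sp.UU U (slf B F) P (l j), (5 - ((5 - uo B Q T U F u : ℕ) : ℤ)) =
      ∑ j ∈ Sp.T2 U (slf B F) R (slj B Q F) P,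
        ∑ u ∈ Sp.UU U (slf B F) P (l j), (uo B Q T U F u : ℤ) :=
    sum_congr rfl fun j _ => sum_congr rfl fun u hu => h2 u (Sp.UU_sub hu)
  have h5 : ∑ C ∈ P, ∑ j ∈ Trs B Q T R U F P, X j C = ∑ j ∈ Trs B Q T R U F P, ∑ C ∈ P, X j C :=
    sum_comm
  have h8 := sum_U hg hP (sU B Q T U F 15)
  have h9 := sum_T hP hR (sT B Q T U F 15)
  have h9' := sum_T hP hR t
  have h10 := sum_leaves hP (dm B Q T U 15)
  have h11 : ∑ C ∈ P, dmC B Q T R U F C = ∑ C ∈ P, ∑ L ∈ C, dm B Q T U 15 L -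
      ∑ C ∈ P, ∑ u ∈ Sp.Uin U (slf B F) C, sU B Q T U F 15 u -
      ∑ C ∈ P, ∑ j ∈ Sp.Kin R (slj B Q F) C, sT B Q T U F 15 j := by
    unfold dmC
    rw [sum_sub_distrib, sum_sub_distrib]
  rw [h3, h4, sum_add_distrib (s := P), h5] at h1
  rw [sum_add_distrib (s := Sp.T2 U (slf B F) R (slj B Q F) P)
      (f := fun j => 8 * sT B Q T U F 15 j),
    sum_add_distrib (s := Trs B Q T R U F P) (f := fun j => 8 * sT B Q T U F 15 j),
    ← mul_sum, ← mul_sum] at hsum
  rw [h9'] at htr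
  rw [h8, h9, h10]
  linarith

end Frm

end Pool.Agent.Hyp6
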