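import Pool.Agent.Hyp6.L3Mr
import Pool.Agent.Hyp6.L3Mr3
import Pool.Agent.Hyp6.L3Fa
import Pool.Agent.Hyp6.L3Y8

/-!
# HYP6 L3Fps: inner blocks at free points

`Fpb`: a block `k0` which contains the free point `a` and one other point of the triple `{a, b, c}`, at a
point leaf `x` without hits of `U` and with equality in the inequality of the weights. In an `MTR` frame
the block has no point of `U` (`Fpb.no_U`), it is a block between the removed points (`Fpb.k0_bt`) and its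
third point, if there is one, belongs to another triple (`Fpb.third`). `Pex3.fpb`: the exceptional
pattern. `tfr`: the transfers of a family `K` of such blocks, `tfr_sum`: their sum is at most
`160 * #bt2`.
-/

set_option autoImplicit false

namespace Pool.Agent.Hyp6

open Finset Pool.Agent.Hyp5 Rt

universe u v

variable {V : Type v} [DecidableEq V] {ι : Type u} [Fintype ι] {B : ι → Finset V}

/-- an inner block with the free point and one other point of the triple. -/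
structure Fpb (B : ι → Finset V) (Q : Finset V) (T : Finset ι) (U : Finset V)
    (F : Finset (Finset V)) (j i k0 : ι) (a b c x : V) : Prop where
  px : Px B Q T U F j i a b c x
  xk : x ∉ B k0
  ak : a ∈ B k0
  bk : b ∈ B k0
  ck : c ∉ B k0
  th : (univ.filter fun k => x ∉ B k ∧ a ∈ B k ∧ b ∈ B k ∧ c ∉ B k).card +
      (univ.filter fun k => x ∉ B k ∧ a ∈ B k ∧ b ∉ B k ∧ c ∈ B k).card +
      2 * (univ.filter fun k => x ∉ B k ∧ a ∈ B k ∧ b ∈ B k ∧ c ∈ B k).card ≤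
    (univ.filter fun k => x ∈ B k ∧ a ∉ B k ∧ b ∈ B k ∧ c ∉ B k).card +
      (univ.filter fun k => x ∈ B k ∧ a ∉ B k ∧ b ∉ B k ∧ c ∈ B k).card +
      2 * (univ.filter fun k => x ∈ B k ∧ a ∉ B k ∧ b ∈ B k ∧ c ∈ B k).card
  g0 : hit B U {x} = 0
  sq : q3 (mlt B a b) + q3 (mlt B a c) ≤ q3 (mlt B x b) + q3 (mlt B x c)

/-- the pattern (3 | .., ..) at a point leaf with one inner block `k0` through the free point `a` and the
point `b`: three hits of `a`, three hits of `b`, `c`. -/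
structure Pxf (B : ι → Finset V) (Q : Finset V) (T : Finset ι) (U : Finset V)
    (F : Finset (Finset V)) (j i k0 : ι) (a b c x : V) : Prop where
  px : Px B Q T U F j i a b c x
  ha : (univ.filter fun k => x ∈ B k ∧ a ∈ B k).card = 3
  hbc : (univ.filter fun k => x ∈ B k ∧ b ∈ B k).card +
    (univ.filter fun k => x ∈ B k ∧ c ∈ B k).card = 3
  hno : ∀ k, x ∈ B k → a ∈ B k → b ∉ B k ∧ c ∉ B k
  xk : x ∉ B k0
  ak : a ∈ B k0
  bk : b ∈ B k0
  ck : c ∉ B k0
  all : ∀ k, a ∈ B k → x ∈ B k ∨ k = j ∨ k = k0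

theorem Pex3.pxf {Q U : Finset V} {T : Finset ι} {F : Finset (Finset V)}
    {j i k0 : ι} {a b c x : V} (h : Pex3 B Q T U F j i k0 a b c x) (hc : c ∉ B k0) :
    Pxf B Q T U F j i k0 a b c x :=
  ⟨h.px, h.ha, h.hbc, h.hno, h.xk, h.ak, h.bk, hc, h.all⟩

/-- the two sides of the inequality of the weights are equal for this pattern. -/
theorem Pxf.theta [DecidableEq ι] {Q U : Finset V} {T : Finset ι} {F : Finset (Finset V)}
    {j i k0 : ι} {a b c x : V} (h : Pxf B Q T U F j i k0 a b c x) :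
    (univ.filter fun k => x ∉ B k ∧ a ∈ B k ∧ b ∈ B k ∧ c ∉ B k).card +
      (univ.filter fun k => x ∉ B k ∧ a ∈ B k ∧ b ∉ B k ∧ c ∈ B k).card +
      2 * (univ.filter fun k => x ∉ B k ∧ a ∈ B k ∧ b ∈ B k ∧ c ∈ B k).card ≤
    (univ.filter fun k => x ∈ B k ∧ a ∉ B k ∧ b ∈ B k ∧ c ∉ B k).card +
      (univ.filter fun k => x ∈ B k ∧ a ∉ B k ∧ b ∉ B k ∧ c ∈ B k).card +
      2 * (univ.filter fun k => x ∈ B k ∧ a ∉ B k ∧ b ∈ B k ∧ c ∈ B k).card := by
  have h2 := h.px.xbc h.hno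
  have h3 := h.hbc
  have hbj : b ∈ B j := (mem_inter.1 (by rw [h.px.hjQ]; simp : b ∈ B j ∩ Q)).1
  have hcj : c ∈ B j := (mem_inter.1 (by rw [h.px.hjQ]; simp : c ∈ B j ∩ Q)).1
  have e1 : (univ.filter fun k => x ∉ B k ∧ a ∈ B k ∧ b ∈ B k ∧ c ∉ B k).card ≤ 1 := by
    refine (card_le_card (t := {k0}) ?_).trans (card_singleton _).le
    intro k hk
    obtain ⟨_, h4, h5, h6, h7⟩ := mem_filter.1 hk
    rcases h.all k h5 with h8 | h8 | h8
    · exact absurd h8 h4
    · exact absurd (h8 ▸ hcj) h7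
    · exact mem_singleton.2 h8
  have e2 : (univ.filter fun k => x ∉ B k ∧ a ∈ B k ∧ b ∉ B k ∧ c ∈ B k).card = 0 := by
    rw [card_eq_zero, filter_eq_empty_iff]
    rintro k _ ⟨h4, h5, h6, h7⟩
    rcases h.all k h5 with h8 | h8 | h8
    · exact h4 h8
    · exact h6 (h8 ▸ hbj)
    · exact h6 (h8 ▸ h.bk)
  have e3 : (univ.filter fun k => x ∉ B k ∧ a ∈ B k ∧ b ∈ B k ∧ c ∈ B k).card ≤ 1 := by
    refine (card_le_card (t := {j}) ?_).trans (card_singleton _).le
    intro k hk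
    obtain ⟨_, h4, h5, h6, h7⟩ := mem_filter.1 hk
    rcases h.all k h5 with h8 | h8 | h8
    · exact absurd h8 h4
    · exact mem_singleton.2 h8
    · exact absurd (h8 ▸ h7) h.ck
  omega

/-- the pairs of `a` have at most two blocks for this pattern. -/
theorem Pxf.sq_le [DecidableEq ι] {Q U : Finset V} {T : Finset ι} {F : Finset (Finset V)}
    {j i k0 : ι} {a b c x : V} (h : Pxf B Q T U F j i k0 a b c x) :
    q3 (mlt B a b) + q3 (mlt B a c) ≤ q3 (mlt B x b) + q3 (mlt B x c) := by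
  have e1 : mlt B a b ≤ 2 := by
    refine (card_le_card (t := {j, k0}) ?_).trans card_le_two
    intro k hk
    obtain ⟨_, h4, h5⟩ := mem_filter.1 hk
    rcases h.all k h4 with h6 | h6 | h6
    · exact absurd h5 (h.hno k h6 h4).1
    · rw [h6]; simp
    · rw [h6]; simp
  have e2 : mlt B a c ≤ 2 := by
    refine (card_le_card (t := {j, k0}) ?_).trans card_le_two
    intro k hk
    obtain ⟨_, h4, h5⟩ := mem_filter.1 hk
    rcases h.all k h4 with h6 | h6 | h6
    · exact absurd h5 (h.hno k h6 h4).2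
    · rw [h6]; simp
    · rw [h6]; simp
  rw [q3_zero e1, q3_zero e2]
  exact Nat.zero_le _

/-- the pattern gives an inner block at a free point. -/
theorem Pxf.fpb [DecidableEq ι] {Q U : Finset V} {T : Finset ι} {F : Finset (Finset V)}
    {j i k0 : ι} {a b c x : V} (h : Pxf B Q T U F j i k0 a b c x)
    (hg : hit B U {x} = 0) : Fpb B Q T U F j i k0 a b c x :=
  ⟨h.px, h.xk, h.ak, h.bk, h.ck, h.theta, hg, h.sq_le⟩

/-- the exceptional pattern gives an inner block at a free point. -/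
theorem Pex3.fpb [DecidableEq ι] {Q U : Finset V} {T : Finset ι} {F : Finset (Finset V)}
    {j i k0 : ι} {a b c x : V} (h : Pex3 B Q T U F j i k0 a b c x) (hc : c ∉ B k0)
    (hg : hit B U {x} = 0) : Fpb B Q T U F j i k0 a b c x := (h.pxf hc).fpb hg

namespace Fpb

variable {Q U : Finset V} {T : Finset ι} {F : Finset (Finset V)} {j i k0 : ι} {a b c x : V}

/-- no point of `U` is in a block with `x`. -/
theorem not_U (h : Fpb B Q T U F j i k0 a b c x) {k : ι} (hk : x ∈ B k) {u : V} (hu : u ∈ U) :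
    u ∉ B k := by
  intro huk
  have h1 := h.g0
  unfold hit at h1
  have h2 := sum_eq_zero_iff.1 h1 k (cost_mem_tch.2 ⟨x, mem_inter.2 ⟨hk, mem_singleton_self x⟩⟩)
  rw [card_eq_zero] at h2
  exact notMem_empty u (h2 ▸ mem_inter.2 ⟨huk, hu⟩)

theorem not_sees (h : Fpb B Q T U F j i k0 a b c x) {u : V} (hu : u ∈ U) :
    {x} ∉ slf B F u := by
  intro hs
  obtain ⟨_, y, hy, hadj⟩ := mem_slf.1 hs
  obtain ⟨_, k, h1, h2⟩ := hadj
  rw [mem_singleton] at hy
  subst hy
  exact h.not_U h2 hu h1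

/-- the inner block has no point of `U`. -/
theorem no_U [DecidableEq ι] (h : Fpb B Q T U F j i k0 a b c x) (hq : MTR B Q T U F)
    {u : V} (hu : u ∈ U) : u ∉ B k0 := by
  intro huk
  have h1 := (hq.point h.px h.th h.sq).1
  rw [h.g0] at h1
  have h3 : hit B U {a} = 0 := by omega
  unfold hit at h3
  have h2 := sum_eq_zero_iff.1 h3 k0
    (cost_mem_tch.2 ⟨a, mem_inter.2 ⟨h.ak, mem_singleton_self a⟩⟩)
  rw [card_eq_zero] at h2
  exact notMem_empty u (h2 ▸ mem_inter.2 ⟨huk, hu⟩)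

/-- no point of `U` is in a block with `a`. -/
theorem a_not_U [DecidableEq ι] (h : Fpb B Q T U F j i k0 a b c x) (hq : MTR B Q T U F) {k : ι}
    (hk : a ∈ B k) {u : V} (hu : u ∈ U) : u ∉ B k := by
  intro huk
  have h1 := (hq.point h.px h.th h.sq).1
  rw [h.g0] at h1
  have h3 : hit B U {a} = 0 := by omega
  unfold hit at h3
  have h2 := sum_eq_zero_iff.1 h3 k (cost_mem_tch.2 ⟨a, mem_inter.2 ⟨hk, mem_singleton_self a⟩⟩)
  rw [card_eq_zero] at h2
  exact notMem_empty u (h2 ▸ mem_inter.2 ⟨huk, hu⟩)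

theorem cj (h : Fpb B Q T U F j i k0 a b c x) : c ∈ B j :=
  (mem_inter.1 (by rw [h.px.hjQ]; simp : c ∈ B j ∩ Q)).1

theorem k0_ne (h : Fpb B Q T U F j i k0 a b c x) : k0 ≠ j := fun he =>
  h.ck (he ▸ h.cj)

theorem k0_notT (h : Fpb B Q T U F j i k0 a b c x) : k0 ∉ T := fun hT =>
  disjoint_left.1 (h.px.frm.mtp.tpk.pack.disj k0 hT j h.px.hj h.k0_ne)
    (mem_inter.2 ⟨h.ak, h.px.aQ⟩) (mem_inter.2 ⟨h.px.aj, h.px.aQ⟩)

/-- the points of the inner block are points of triples. -/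
theorem k0_sub [DecidableEq ι] (h : Fpb B Q T U F j i k0 a b c x) (hq : MTR B Q T U F)
    {v : V} (hv : v ∈ B k0 ∩ Q) : ∃ k ∈ T, v ∈ B k ∩ Q := by
  obtain ⟨hvk, hvQ⟩ := mem_inter.1 hv
  by_contra hcon
  push Not at hcon
  have hvD : v ∈ Dp B Q T := by
    refine mem_sdiff.2 ⟨hvQ, fun h1 => ?_⟩
    obtain ⟨k, hk, hvk'⟩ := mem_biUnion.1 h1
    exact hcon k hk (mem_inter.2 ⟨hvk', hvQ⟩)
  have hva : a ≠ v := by
    rintro rfl
    exact h.px.notD (z := a) (by simp) hvD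
  have hadj : (gr B).Adj a v := ⟨hva, k0, h.ak, hvk⟩
  have hvE : v ∉ Ep B Q T U F := fun h1 => h.px.a_E hq.emin h1 hadj
  rcases h.px.frm.three_cases hvD hvE with h1 | ⟨L, hL, hvL⟩
  · exact h.no_U hq h1 hvk
  · by_cases hne : L = {x}
    · subst hne
      rw [mem_singleton] at hvL
      subst hvL
      exact h.xk hvk
    · exact h.px.a_leaf hL hne hvL hadj

/-- the inner block is a block between the removed points. -/
theorem k0_bt [DecidableEq ι] (h : Fpb B Q T U F j i k0 a b c x) (hq : MTR B Q T U F) :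
    k0 ∈ bt B Q T U := by
  refine mem_sdiff.2 ⟨mem_ins.2 ⟨⟨a, mem_inter.2 ⟨h.ak, h.px.aQ⟩⟩, fun v hv => ?_⟩, h.k0_notT⟩
  obtain ⟨k, hk, hvk⟩ := h.k0_sub hq hv
  exact mem_union_left _ (mem_inter.2 ⟨mem_biUnion.2 ⟨k, hk, (mem_inter.1 hvk).1⟩,
    (mem_inter.1 hv).2⟩)

theorem bQ (h : Fpb B Q T U F j i k0 a b c x) : b ∈ B j ∩ Q := by
  rw [h.px.hjQ]
  simp

theorem aQ' (h : Fpb B Q T U F j i k0 a b c x) : a ∈ B j ∩ Q := by
  rw [h.px.hjQ]
  simp

theorem cQ (h : Fpb B Q T U F j i k0 a b c x) : c ∈ B j ∩ Q := by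
  rw [h.px.hjQ]
  simp

/-- the trace of the inner block on its triple. -/
theorem k0_own (h : Fpb B Q T U F j i k0 a b c x) : B k0 ∩ (B j ∩ Q) = {a, b} := by
  ext v
  rw [mem_inter, h.px.hjQ]
  simp only [mem_insert, mem_singleton]
  constructor
  · rintro ⟨h1, h2 | h2 | h2⟩
    · exact Or.inl h2
    · exact Or.inr h2
    · exact absurd (h2 ▸ h1) h.ck
  · rintro (rfl | rfl)
    · exact ⟨h.ak, Or.inl rfl⟩
    · exact ⟨h.bk, Or.inr (Or.inl rfl)⟩

theorem own_card (h : Fpb B Q T U F j i k0 a b c x) : (B k0 ∩ (B j ∩ Q)).card = 2 := by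
  rw [h.k0_own, card_pair h.px.ne.1]

/-- the other triples have at most one point in the inner block. -/
theorem other_card (h : Fpb B Q T U F j i k0 a b c x) {k : ι} (hk : k ∈ T) (hkj : k ≠ j) :
    (B k0 ∩ (B k ∩ Q)).card ≤ 1 := by
  have hd := h.px.frm.mtp.tpk.pack.disj j h.px.hj k hk hkj.symm
  have h1 : (B k0 ∩ (B j ∩ Q)) ∪ (B k0 ∩ (B k ∩ Q)) ⊆ B k0 ∩ Q := by
    intro v hv
    rcases mem_union.1 hv with hv | hv
    · exact mem_inter.2 ⟨(mem_inter.1 hv).1, (mem_inter.1 (mem_inter.1 hv).2).2⟩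
    · exact mem_inter.2 ⟨(mem_inter.1 hv).1, (mem_inter.1 (mem_inter.1 hv).2).2⟩
  have h2 := card_le_card h1
  rw [card_union_of_disjoint (hd.mono inter_subset_right inter_subset_right), h.own_card] at h2
  have h3 := h.px.frm.reg3 k0
  omega

/-- the triple is determined by its inner block. -/
theorem own_unique (h : Fpb B Q T U F j i k0 a b c x) {k : ι} (hk : k ∈ T)
    (h2 : 2 ≤ (B k0 ∩ (B k ∩ Q)).card) : k = j := by
  by_contra hne
  have := h.other_card hk hne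
  omega

/-- the third point of the inner block is a point of another triple. -/
theorem third [DecidableEq ι] (h : Fpb B Q T U F j i k0 a b c x) (hq : MTR B Q T U F)
    {s : V} (hs : s ∈ B k0 ∩ Q) (hsa : s ≠ a) (hsb : s ≠ b) :
    ∃ k ∈ T, k ≠ j ∧ s ∈ B k ∩ Q := by
  obtain ⟨k, hk, hsk⟩ := h.k0_sub hq hs
  refine ⟨k, hk, ?_, hsk⟩
  rintro rfl
  rw [h.px.hjQ] at hsk
  simp only [mem_insert, mem_singleton] at hsk
  rcases hsk with h1 | h1 | h1
  · exact hsa h1
  · exact hsb h1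
  · exact h.ck (h1 ▸ (mem_inter.1 hs).1)

/-- the inner block has two points of `Q` or its third point is a point of another triple. -/
theorem two_or_donor [DecidableEq ι] (h : Fpb B Q T U F j i k0 a b c x) (hq : MTR B Q T U F) :
    k0 ∈ bt2 B Q T U ∨ ∃ k ∈ T, (B k0 ∩ (B k ∩ Q)).card = 1 := by
  by_cases h2 : (B k0 ∩ Q).card = 2
  · exact Or.inl (mem_filter.2 ⟨h.k0_bt hq, h2⟩)
  right
  have hab : a ≠ b := h.px.ne.1
  have hsub : ({a, b} : Finset V) ⊆ B k0 ∩ Q := by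
    intro v hv
    rw [mem_insert, mem_singleton] at hv
    rcases hv with rfl | rfl
    · exact mem_inter.2 ⟨h.ak, h.px.aQ⟩
    · exact mem_inter.2 ⟨h.bk, (mem_inter.1 h.bQ).2⟩
  have h3 := card_le_card hsub
  rw [card_pair hab] at h3
  have h4 : 0 < ((B k0 ∩ Q) \ {a, b}).card := by
    rw [card_sdiff_of_subset hsub, card_pair hab]
    omega
  obtain ⟨s, hs⟩ := card_pos.1 h4
  obtain ⟨hs1, hs2⟩ := mem_sdiff.1 hs
  rw [mem_insert, mem_singleton, not_or] at hs2
  obtain ⟨k, hk, hkj, hsk⟩ := h.third hq hs1 hs2.1 hs2.2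
  refine ⟨k, hk, ?_⟩
  have h5 := h.other_card hk hkj
  have h6 : 0 < (B k0 ∩ (B k ∩ Q)).card :=
    card_pos.2 ⟨s, mem_inter.2 ⟨(mem_inter.1 hs1).1, hsk⟩⟩
  omega

end Fpb

/-- a family of inner blocks at free points. -/
def FpK (B : ι → Finset V) (Q : Finset V) (T : Finset ι) (U : Finset V)
    (F : Finset (Finset V)) (K : Finset ι) : Prop :=
  ∀ k0 ∈ K, ∃ (j i : ι) (a b c x : V), Fpb B Q T U F j i k0 a b c x

/-- the number of claims on the triple `k`. -/
def ncK (B : ι → Finset V) (Q : Finset V) (K : Finset ι) (k : ι) : ℕ :=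
  (K.filter (fun k0 => (B k0 ∩ (B k ∩ Q)).card = 1)).card

/-- the transfers of a family of inner blocks. -/
def tfr (κ : ℤ) (B : ι → Finset V) (Q : Finset V) (K : Finset ι) (k : ι) : ℤ :=
  κ * (((K.filter (fun k0 => (B k0 ∩ (B k ∩ Q)).card = 2)).card : ℤ) - (ncK B Q K k : ℤ))

/-- **the sum of the transfers**. -/
theorem tfr_sum [DecidableEq ι] {Q U : Finset V} {T : Finset ι} {F : Finset (Finset V)}
    {K : Finset ι} (h : FpK B Q T U F K) (hq : MTR B Q T U F) {κ : ℤ} (h0 : 0 ≤ κ)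
    (h1 : κ ≤ 160) : ∑ k ∈ T, tfr κ B Q K k ≤ 160 * ((bt2 B Q T U).card : ℤ) := by
  have e1 : ∑ k ∈ T, ((K.filter (fun k0 => (B k0 ∩ (B k ∩ Q)).card = 2)).card : ℤ) =
      ∑ k0 ∈ K, ((T.filter (fun k => (B k0 ∩ (B k ∩ Q)).card = 2)).card : ℤ) := by
    simp only [card_filter]
    push_cast
    exact sum_comm
  have e2 : ∑ k ∈ T, (ncK B Q K k : ℤ) =
      ∑ k0 ∈ K, ((T.filter (fun k => (B k0 ∩ (B k ∩ Q)).card = 1)).card : ℤ) := by
    unfold ncK
    simp only [card_filter]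
    push_cast
    exact sum_comm
  have e3 : ∀ k0 ∈ K, ((T.filter (fun k => (B k0 ∩ (B k ∩ Q)).card = 2)).card : ℤ) ≤
      ((T.filter (fun k => (B k0 ∩ (B k ∩ Q)).card = 1)).card : ℤ) +
        (if k0 ∈ bt2 B Q T U then 1 else 0) := by
    intro k0 hk0
    obtain ⟨j, i, a, b, c, x, hf⟩ := h k0 hk0
    have h2 : (T.filter (fun k => (B k0 ∩ (B k ∩ Q)).card = 2)).card ≤ 1 := by
      refine (card_le_card (t := {j}) ?_).trans (card_singleton _).le
      intro k hk
      obtain ⟨hkT, hk2⟩ := mem_filter.1 hk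
      exact mem_singleton.2 (hf.own_unique hkT hk2.ge)
    have h2' : ((T.filter (fun k => (B k0 ∩ (B k ∩ Q)).card = 2)).card : ℤ) ≤ 1 := by
      exact_mod_cast h2
    have h4 : (0 : ℤ) ≤ ((T.filter (fun k => (B k0 ∩ (B k ∩ Q)).card = 1)).card : ℤ) := by
      positivity
    rcases hf.two_or_donor hq with h3 | ⟨k, hk, h3⟩
    · rw [if_pos h3]
      linarith
    · have h5 : 0 < (T.filter (fun k => (B k0 ∩ (B k ∩ Q)).card = 1)).card :=
        card_pos.2 ⟨k, mem_filter.2 ⟨hk, h3⟩⟩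
      have h6 : (1 : ℤ) ≤ ((T.filter (fun k => (B k0 ∩ (B k ∩ Q)).card = 1)).card : ℤ) := by
        exact_mod_cast h5
      split_ifs <;> linarith
  have e4 := sum_le_sum e3
  have e5 : ∑ k0 ∈ K, (if k0 ∈ bt2 B Q T U then (1 : ℤ) else 0) ≤ (bt2 B Q T U).card := by
    rw [← sum_filter, sum_const, nsmul_eq_mul, mul_one]
    have h2 : (K.filter (fun k0 => k0 ∈ bt2 B Q T U)).card ≤ (bt2 B Q T U).card :=
      card_le_card fun k hk => (mem_filter.1 hk).2
    exact_mod_cast h2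
  rw [sum_add_distrib] at e4
  unfold tfr
  rw [← mul_sum, sum_sub_distrib, e1, e2]
  have e7 : (0 : ℤ) ≤ ((bt2 B Q T U).card : ℤ) := by positivity
  nlinarith

end Pool.Agent.Hyp6
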