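import Pool.Agent.Hyp6.L3P6d
import Pool.Agent.Hyp6.L3Fps
import Pool.Agent.Hyp6.L3Tx

/-!
# HYP6 L3P6: the exceptional pattern at a point leaf has four hits outside

`ViolR.mrg0`, `ViolR.mrg1`, `ViolR.common`: special cases of the merging at a full block.
`Pxf.full`: in an `MTR` frame, without hits of `U`, if the third point `c` sees another leaf, all blocks
of `x` are full; `Pxf.four_out`: at least four hits outside; `Pxf.fs_zero`: no free place.
-/

set_option autoImplicit false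

namespace Pool.Agent.Hyp6

open Finset Pool.Agent.Hyp5 Rt

universe u v

variable {V : Type v} [DecidableEq V] {ι : Type u} [Fintype ι] {B : ι → Finset V}

/-- a point of a full block has at most one single block. -/
theorem ViolR.ee_pt {Q : Finset V} (hv : ViolR B Q) {f : ι} {a : V} (ha : a ∈ B f) (haQ : a ∈ Q)
    (hf : (B f ∩ Q).card = 3) : ee B Q {a} = 0 := by
  have h1 := hv.ee_T hf
  have h2 := ee_mono (B := B) (Q := Q) (singleton_subset_iff.2 (mem_inter.2 ⟨ha, haQ⟩))
  omega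

open Classical in
/-- **a block inside a full block**: no point has two blocks which are otherwise inside. -/
theorem ViolR.mrg0 {Q : Finset V} (hv : ViolR B Q) {i m e1 e2 : ι} {a : V}
    (h3 : (B i ∩ Q).card = 3) (him : i ≠ m) (hm : B m ∩ Q ⊆ B i) (hmn : (B m ∩ Q).Nonempty)
    (he : e1 ≠ e2) (h1 : (B e1 ∩ Q) \ B i = {a}) (h2 : (B e2 ∩ Q) \ B i = {a})
    (h1R : (B e1 ∩ (B i ∩ Q)).Nonempty) (h2R : (B e2 ∩ (B i ∩ Q)).Nonempty)
    {f : ι} (haf : a ∈ B f) (hf : (B f ∩ Q).card = 3) : False := by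
  have ha1 : a ∈ (B e1 ∩ Q) \ B i := by rw [h1]; exact mem_singleton_self a
  have ha2 : a ∈ (B e2 ∩ Q) \ B i := by rw [h2]; exact mem_singleton_self a
  obtain ⟨ha3, hai⟩ := mem_sdiff.1 ha1
  obtain ⟨hae1, haQ⟩ := mem_inter.1 ha3
  have hae2 := (mem_inter.1 (mem_sdiff.1 ha2).1).1
  have n1i : e1 ≠ i := by
    rintro rfl
    exact hai hae1
  have n2i : e2 ≠ i := by
    rintro rfl
    exact hai hae2
  have n1m : e1 ≠ m := by
    rintro rfl
    exact hai (hm (mem_inter.2 ⟨hae1, haQ⟩))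
  have n2m : e2 ≠ m := by
    rintro rfl
    exact hai (hm (mem_inter.2 ⟨hae2, haQ⟩))
  have key : ∀ e, (e = e1 ∨ e = e2) → ∀ y ∈ Q, y ∉ B i → (y ∈ B e ↔ y = a) := by
    intro e he' y hy hyi
    have h5 : y ∈ (B e ∩ Q) \ B i ↔ y = a := by
      rcases he' with rfl | rfl
      · rw [h1, mem_singleton]
      · rw [h2, mem_singleton]
    rw [← h5, mem_sdiff, mem_inter]
    exact ⟨fun h => ⟨⟨h, hy⟩, hyi⟩, fun h => h.1.1⟩
  have hM : Mgb B Q i {i, m, e1, e2} {e1, e2} (fun _ => {a}) := {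
    c3 := h3
    D0 := by
      intro k hk
      simp only [mem_insert, mem_singleton] at hk
      rcases hk with rfl | rfl | rfl | rfl
      · rw [← inter_assoc, inter_self]
        exact card_pos.1 (by rw [h3]; norm_num)
      · obtain ⟨v, hv'⟩ := hmn
        obtain ⟨h5, h6⟩ := mem_inter.1 hv'
        exact ⟨v, mem_inter.2 ⟨h5, mem_inter.2 ⟨hm hv', h6⟩⟩⟩
      · exact h1R
      · exact h2R
    NQ := fun k _ => singleton_subset_iff.2 (mem_sdiff.2 ⟨haQ, hai⟩)
    N3 := fun k _ => by simp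
    deg := by
      intro y hy hyi
      rw [sum_insert (by simp [him, n1i.symm, n2i.symm]), sum_insert (by simp [n1m.symm, n2m.symm]),
        sum_pair he, sum_pair he, if_neg hyi,
        if_neg (fun h => hyi (hm (mem_inter.2 ⟨h, hy⟩)))]
      simp only [key e1 (Or.inl rfl) y hy hyi, key e2 (Or.inr rfl) y hy hyi, mem_singleton]
      ring
    cost := by
      intro K hK
      refine (rho_le (T := insert i K) ?_).trans (card_insert_le _ _ |>.trans (by omega))
      intro v hv'
      rcases mem_union.1 hv' with h5 | h5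
      · exact mem_biUnion.2 ⟨i, mem_insert_self _ _, (mem_inter.1 h5).1⟩
      · obtain ⟨k, hk, hvk⟩ := mem_biUnion.1 h5
        rw [mem_singleton.1 hvk]
        refine mem_biUnion.2 ⟨k, mem_insert_of_mem hk, ?_⟩
        have h6 := hK hk
        rw [mem_insert, mem_singleton] at h6
        rcases h6 with rfl | rfl
        · exact hae1
        · exact hae2
    tr := by
      intro k hk
      refine ⟨e1, mem_insert_self _ _, ?_⟩
      simp only [mem_insert, mem_singleton] at hk
      rcases hk with rfl | rfl | rfl | rfl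
      · intro v hv'
        exact absurd (mem_inter.1 (mem_sdiff.1 hv').1).1 (mem_sdiff.1 hv').2
      · intro v hv'
        exact absurd (hm (mem_sdiff.1 hv').1) (mem_sdiff.1 hv').2
      · rw [h1]
      · rw [h2] }
  have heA := hv.ee_pt haf haQ hf
  have h5 := hv.blk hM (Y2 := {a}) (singleton_subset_iff.2 (mem_sdiff.2 ⟨haQ, hai⟩)) heA
    (fun y hy => by
      rw [mem_singleton.1 hy, filter_true_of_mem fun _ _ => rfl, card_pair he])
    ⟨e1, mem_insert_self _ _, singleton_nonempty _, by simp⟩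
  rw [card_insert_of_notMem (by simp [him, n1i.symm, n2i.symm]),
    card_insert_of_notMem (by simp [n1m.symm, n2m.symm]), card_pair he, card_singleton] at h5
  have h6 := hv.neg
  omega

open Classical in
/-- **a merged pair**: the blocks `m`, `n` cover the full block `i` and have no other common point; then
no point has two blocks which are otherwise inside `i`. -/
theorem ViolR.mrg1 {Q : Finset V} (hv : ViolR B Q) {i m n e1 e2 : ι} {a : V}
    (h3 : (B i ∩ Q).card = 3) (hni : n ≠ i) (hmi : m ≠ i) (hmn : m ≠ n)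
    (hcv : B i ∩ Q ⊆ B m ∪ B n) (hmR : (B m ∩ (B i ∩ Q)).Nonempty)
    (hnR : (B n ∩ (B i ∩ Q)).Nonempty)
    (hdis : ∀ v ∈ Q, v ∈ B m → v ∈ B n → v ∈ B i)
    (hc : ((B m ∩ Q) \ B i).card + ((B n ∩ Q) \ B i).card ≤ 3)
    (he : e1 ≠ e2) (h1m : e1 ≠ m) (h1n : e1 ≠ n) (h2m : e2 ≠ m) (h2n : e2 ≠ n)
    (h1 : (B e1 ∩ Q) \ B i = {a}) (h2 : (B e2 ∩ Q) \ B i = {a})
    (h1R : (B e1 ∩ (B i ∩ Q)).Nonempty) (h2R : (B e2 ∩ (B i ∩ Q)).Nonempty)
    {f : ι} (haf : a ∈ B f) (hf : (B f ∩ Q).card = 3) : False := by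
  have ha1 : a ∈ (B e1 ∩ Q) \ B i := by rw [h1]; exact mem_singleton_self a
  have ha2 : a ∈ (B e2 ∩ Q) \ B i := by rw [h2]; exact mem_singleton_self a
  obtain ⟨ha3, hai⟩ := mem_sdiff.1 ha1
  obtain ⟨hae1, haQ⟩ := mem_inter.1 ha3
  have hae2 := (mem_inter.1 (mem_sdiff.1 ha2).1).1
  have n1i : e1 ≠ i := by
    rintro rfl
    exact hai hae1
  have n2i : e2 ≠ i := by
    rintro rfl
    exact hai hae2
  have key : ∀ e, (e = e1 ∨ e = e2) → ∀ y ∈ Q, y ∉ B i → (y ∈ B e ↔ y = a) := by
    intro e he' y hy hyi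
    have h5 : y ∈ (B e ∩ Q) \ B i ↔ y = a := by
      rcases he' with rfl | rfl
      · rw [h1, mem_singleton]
      · rw [h2, mem_singleton]
    rw [← h5, mem_sdiff, mem_inter]
    exact ⟨fun h => ⟨⟨h, hy⟩, hyi⟩, fun h => h.1.1⟩
  set N : ι → Finset V := fun k => if k = n then ((B m ∪ B n) ∩ Q) \ B i else {a} with hN
  have hNn : N n = ((B m ∪ B n) ∩ Q) \ B i := if_pos rfl
  have hN1 : N e1 = {a} := if_neg h1n
  have hN2 : N e2 = {a} := if_neg h2n
  have hM : Mgb B Q i {i, m, n, e1, e2} {n, e1, e2} N := {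
    c3 := h3
    D0 := by
      intro k hk
      simp only [mem_insert, mem_singleton] at hk
      rcases hk with rfl | rfl | rfl | rfl | rfl
      · rw [← inter_assoc, inter_self]
        exact card_pos.1 (by rw [h3]; norm_num)
      · exact hmR
      · exact hnR
      · exact h1R
      · exact h2R
    NQ := by
      intro k hk
      simp only [mem_insert, mem_singleton] at hk
      rcases hk with rfl | rfl | rfl
      · rw [hNn]
        exact sdiff_subset_sdiff inter_subset_right (Subset.refl _)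
      · rw [hN1]
        exact singleton_subset_iff.2 (mem_sdiff.2 ⟨haQ, hai⟩)
      · rw [hN2]
        exact singleton_subset_iff.2 (mem_sdiff.2 ⟨haQ, hai⟩)
    N3 := by
      intro k hk
      simp only [mem_insert, mem_singleton] at hk
      rcases hk with rfl | rfl | rfl
      · rw [hNn]
        refine le_trans (le_trans (card_le_card ?_) (card_union_le _ _)) hc
        intro v hv'
        obtain ⟨h5, h6⟩ := mem_sdiff.1 hv'
        obtain ⟨h7, h8⟩ := mem_inter.1 h5
        rcases mem_union.1 h7 with h9 | h9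
        · exact mem_union_left _ (mem_sdiff.2 ⟨mem_inter.2 ⟨h9, h8⟩, h6⟩)
        · exact mem_union_right _ (mem_sdiff.2 ⟨mem_inter.2 ⟨h9, h8⟩, h6⟩)
      · rw [hN1]
        simp
      · rw [hN2]
        simp
    deg := by
      intro y hy hyi
      rw [sum_insert (by simp [hmi.symm, hni.symm, n1i.symm, n2i.symm]),
        sum_insert (by simp [hmn, h1m.symm, h2m.symm]),
        sum_insert (by simp [h1n.symm, h2n.symm]), sum_pair he,
        sum_insert (by simp [h1n.symm, h2n.symm]), sum_pair he, if_neg hyi, hNn, hN1, hN2]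
      simp only [key e1 (Or.inl rfl) y hy hyi, key e2 (Or.inr rfl) y hy hyi, mem_singleton]
      have h5 : y ∈ ((B m ∪ B n) ∩ Q) \ B i ↔ y ∈ B m ∨ y ∈ B n := by
        rw [mem_sdiff, mem_inter, mem_union]
        exact ⟨fun h => h.1.1, fun h => ⟨⟨h, hy⟩, hyi⟩⟩
      rw [if_congr h5 rfl rfl]
      by_cases h6 : y ∈ B m
      · have h7 : y ∉ B n := fun h8 => hyi (hdis y hy h6 h8)
        simp [h6, h7]
      · by_cases h7 : y ∈ B n
        · simp [h6, h7]
        · simp [h6, h7]
    cost := by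
      intro K hK
      by_cases hn : n ∈ K
      · refine (rho_le (T := insert m K) ?_).trans (card_insert_le _ _ |>.trans (by omega))
        intro v hv'
        rcases mem_union.1 hv' with h5 | h5
        · rcases mem_union.1 (hcv h5) with h6 | h6
          · exact mem_biUnion.2 ⟨m, mem_insert_self _ _, h6⟩
          · exact mem_biUnion.2 ⟨n, mem_insert_of_mem hn, h6⟩
        · obtain ⟨k, hk, hvk⟩ := mem_biUnion.1 h5
          have h6 := hK hk
          simp only [mem_insert, mem_singleton] at h6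
          rcases h6 with rfl | rfl | rfl
          · rw [hNn] at hvk
            rcases mem_union.1 (mem_inter.1 (mem_sdiff.1 hvk).1).1 with h7 | h7
            · exact mem_biUnion.2 ⟨m, mem_insert_self _ _, h7⟩
            · exact mem_biUnion.2 ⟨k, mem_insert_of_mem hk, h7⟩
          · rw [hN1, mem_singleton] at hvk
            rw [hvk]
            exact mem_biUnion.2 ⟨k, mem_insert_of_mem hk, hae1⟩
          · rw [hN2, mem_singleton] at hvk
            rw [hvk]
            exact mem_biUnion.2 ⟨k, mem_insert_of_mem hk, hae2⟩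
      · refine (rho_le (T := insert i K) ?_).trans (card_insert_le _ _ |>.trans (by omega))
        intro v hv'
        rcases mem_union.1 hv' with h5 | h5
        · exact mem_biUnion.2 ⟨i, mem_insert_self _ _, (mem_inter.1 h5).1⟩
        · obtain ⟨k, hk, hvk⟩ := mem_biUnion.1 h5
          have h6 := hK hk
          simp only [mem_insert, mem_singleton] at h6
          rcases h6 with rfl | rfl | rfl
          · exact absurd hk hn
          · rw [hN1, mem_singleton] at hvk
            rw [hvk]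
            exact mem_biUnion.2 ⟨k, mem_insert_of_mem hk, hae1⟩
          · rw [hN2, mem_singleton] at hvk
            rw [hvk]
            exact mem_biUnion.2 ⟨k, mem_insert_of_mem hk, hae2⟩
    tr := by
      intro k hk
      simp only [mem_insert, mem_singleton] at hk
      rcases hk with rfl | rfl | rfl | rfl | rfl
      · refine ⟨n, mem_insert_self _ _, ?_⟩
        intro v hv'
        exact absurd (mem_inter.1 (mem_sdiff.1 hv').1).1 (mem_sdiff.1 hv').2
      · refine ⟨n, mem_insert_self _ _, ?_⟩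
        rw [hNn]
        exact sdiff_subset_sdiff (inter_subset_inter_right subset_union_left) (Subset.refl _)
      · refine ⟨k, mem_insert_self _ _, ?_⟩
        rw [hNn]
        exact sdiff_subset_sdiff (inter_subset_inter_right subset_union_right) (Subset.refl _)
      · exact ⟨k, by simp, by rw [h1, hN1]⟩
      · exact ⟨k, by simp, by rw [h2, hN2]⟩ }
  have heA := hv.ee_pt haf haQ hf
  have h5 := hv.blk hM (Y2 := {a}) (singleton_subset_iff.2 (mem_sdiff.2 ⟨haQ, hai⟩)) heA
    (fun y hy => by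
      rw [mem_singleton.1 hy, ← card_pair he]
      refine card_le_card ?_
      intro k hk
      rw [mem_insert, mem_singleton] at hk
      rcases hk with rfl | rfl
      · exact mem_filter.2 ⟨by simp, hN1⟩
      · exact mem_filter.2 ⟨by simp, hN2⟩)
    ⟨e1, by simp, by rw [hN1]; exact singleton_nonempty _, by rw [hN1]; simp⟩
  rw [card_insert_of_notMem (by simp [hmi.symm, hni.symm, n1i.symm, n2i.symm]),
    card_insert_of_notMem (by simp [hmn, h1m.symm, h2m.symm]),
    card_insert_of_notMem (by simp [h1n.symm, h2n.symm]), card_pair he, card_singleton] at h5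
  have h6 := hv.neg
  omega


/-- **a common third point**: two full blocks `{x, y, z}`, `{a, y, z}`, a block `e` which has only `a`
outside the first one; a block `m` with `x`, `y` and a block `n` with `z` have a further common point. -/
theorem ViolR.common {Q : Finset V} (hv : ViolR B Q) {i j e m n : ι} {x a y z : V}
    (hi : B i ∩ Q = {x, y, z}) (hi3 : (B i ∩ Q).card = 3) (hj : B j ∩ Q = {a, y, z})
    (hj3 : (B j ∩ Q).card = 3) (hxa : x ≠ a) (he : (B e ∩ Q) \ B i = {a})
    (heR : (B e ∩ (B i ∩ Q)).Nonempty) (hej : e ≠ j)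
    (hmx : x ∈ B m) (hmy : y ∈ B m) (hmz : z ∉ B m) (hme : e ≠ m)
    (hn : z ∈ B n) (hni : n ≠ i) (hnj : n ≠ j) (hne : n ≠ e) :
    ∃ p ∈ Q, p ∈ B m ∧ p ∈ B n ∧ p ∉ B i := by
  by_contra hcon
  push Not at hcon
  have hxI : x ∈ B i ∩ Q := by rw [hi]; simp
  have hyI : y ∈ B i ∩ Q := by rw [hi]; simp
  have hzI : z ∈ B i ∩ Q := by rw [hi]; simp
  have haJ : a ∈ B j ∩ Q := by rw [hj]; simp
  have hyJ : y ∈ B j ∩ Q := by rw [hj]; simp
  have hzJ : z ∈ B j ∩ Q := by rw [hj]; simp
  have hxy : x ≠ y := by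
    rintro rfl
    rw [hi] at hi3
    simp only [mem_insert, true_or, insert_eq_of_mem] at hi3
    have := card_le_two (a := x) (b := z)
    omega
  have hay : a ≠ y := by
    rintro rfl
    rw [hj] at hj3
    simp only [mem_insert, true_or, insert_eq_of_mem] at hj3
    have := card_le_two (a := a) (b := z)
    omega
  have haz : a ≠ z := by
    rintro rfl
    rw [hj, pair_comm] at hj3
    simp only [mem_insert, true_or, insert_eq_of_mem] at hj3
    have := card_le_two (a := a) (b := y)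
    omega
  have hai : a ∉ B i := by
    intro h1
    have h2 : a ∈ B i ∩ Q := mem_inter.2 ⟨h1, (mem_inter.1 haJ).2⟩
    rw [hi] at h2
    simp only [mem_insert, mem_singleton] at h2
    rcases h2 with h2 | h2 | h2
    · exact hxa h2.symm
    · exact hay h2
    · exact haz h2
  have hae : a ∈ B e := by
    have h1 : a ∈ (B e ∩ Q) \ B i := by rw [he]; exact mem_singleton_self a
    exact (mem_inter.1 (mem_sdiff.1 h1).1).1
  have hjt : (B j ∩ Q) \ B i = {a} := by
    ext v
    rw [mem_sdiff, hj, mem_singleton]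
    simp only [mem_insert, mem_singleton]
    constructor
    · rintro ⟨h1 | h1 | h1, h2⟩
      · exact h1
      · exact absurd (h1 ▸ (mem_inter.1 hyI).1) h2
      · exact absurd (h1 ▸ (mem_inter.1 hzI).1) h2
    · rintro rfl
      exact ⟨Or.inl rfl, hai⟩
  have hjm : j ≠ m := by
    rintro rfl
    exact hmz (mem_inter.1 hzJ).1
  have hmi : m ≠ i := by
    rintro rfl
    exact hmz (mem_inter.1 hzI).1
  have hmn : m ≠ n := by
    rintro rfl
    exact hmz hn
  have hcm : ((B m ∩ Q) \ B i).card ≤ 1 := by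
    have h1 : ({x, y} : Finset V) ⊆ (B m ∩ Q) ∩ B i := by
      intro v hv'
      rw [mem_insert, mem_singleton] at hv'
      rcases hv' with rfl | rfl
      · exact mem_inter.2 ⟨mem_inter.2 ⟨hmx, (mem_inter.1 hxI).2⟩, (mem_inter.1 hxI).1⟩
      · exact mem_inter.2 ⟨mem_inter.2 ⟨hmy, (mem_inter.1 hyI).2⟩, (mem_inter.1 hyI).1⟩
    have h2 := card_le_card h1
    rw [card_pair hxy] at h2
    have h3 := card_sdiff_add_card_inter (B m ∩ Q) (B i)
    have h4 := hv.tr m
    omega
  have hcn : ((B n ∩ Q) \ B i).card ≤ 2 := by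
    have h1 : ({z} : Finset V) ⊆ (B n ∩ Q) ∩ B i := by
      intro v hv'
      rw [mem_singleton] at hv'
      subst hv'
      exact mem_inter.2 ⟨mem_inter.2 ⟨hn, (mem_inter.1 hzI).2⟩, (mem_inter.1 hzI).1⟩
    have h2 := card_le_card h1
    rw [card_singleton] at h2
    have h3 := card_sdiff_add_card_inter (B n ∩ Q) (B i)
    have h4 := hv.tr n
    omega
  refine hv.mrg1 (i := i) (m := m) (n := n) (e1 := j) (e2 := e) (a := a) hi3 hni hmi hmn ?_
    ⟨x, mem_inter.2 ⟨hmx, hxI⟩⟩ ⟨z, mem_inter.2 ⟨hn, hzI⟩⟩ ?_ (by omega) hej.symm hjm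
    (Ne.symm hnj) hme (Ne.symm hne) hjt he ⟨y, mem_inter.2 ⟨(mem_inter.1 hyJ).1, hyI⟩⟩ heR
    (f := j) (mem_inter.1 haJ).1 hj3
  · intro v hv'
    rw [hi] at hv'
    simp only [mem_insert, mem_singleton] at hv'
    rcases hv' with rfl | rfl | rfl
    · exact mem_union_left _ hmx
    · exact mem_union_left _ hmy
    · exact mem_union_right _ hn
  · intro v hvQ hvm hvn
    by_contra h1
    exact absurd h1 (by
      have := hcon v hvQ hvm hvn
      exact fun h2 => h2 this)


section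

variable [DecidableEq ι] {Q U : Finset V} {T : Finset ι} {F : Finset (Finset V)}
  {j i k0 : ι} {a b c x : V}

/-- the blocks of `x` in the exceptional pattern: three blocks with `a`, the block `i` and a block `i1`
with exactly one of `b`, `c`. -/
theorem Px.fifth (h : Px B Q T U F j i a b c x) (hr : Reg B Q)
    (ha : (univ.filter fun k => x ∈ B k ∧ a ∈ B k).card = 3)
    (hbc : (univ.filter fun k => x ∈ B k ∧ b ∈ B k).card +
      (univ.filter fun k => x ∈ B k ∧ c ∈ B k).card = 3)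
    (hno : ∀ k, x ∈ B k → a ∈ B k → b ∉ B k ∧ c ∉ B k) :
    ∃ i1, x ∈ B i1 ∧ a ∉ B i1 ∧ i1 ≠ i ∧ (∀ k, x ∈ B k → a ∈ B k ∨ k = i ∨ k = i1) ∧
      ((b ∈ B i1 ∧ c ∉ B i1) ∨ (b ∉ B i1 ∧ c ∈ B i1)) := by
  obtain ⟨hab, hac, hbc'⟩ := h.ne
  obtain ⟨hxa, hxb, hxc⟩ := h.x_ne
  have hxQ : x ∈ Q := Frm.DQ h.xD
  have hxi : x ∈ B i := (mem_inter.1 (by rw [h.hiQ]; simp : x ∈ B i ∩ Q)).1
  have hbi : b ∈ B i := (mem_inter.1 (by rw [h.hiQ]; simp : b ∈ B i ∩ Q)).1
  have hci : c ∈ B i := (mem_inter.1 (by rw [h.hiQ]; simp : c ∈ B i ∩ Q)).1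
  have hai : a ∉ B i := by
    intro h1
    have h2 : a ∈ B i ∩ Q := mem_inter.2 ⟨h1, h.aQ⟩
    rw [h.hiQ] at h2
    simp only [mem_insert, mem_singleton] at h2
    rcases h2 with h2 | h2 | h2
    · exact hxa h2.symm
    · exact hab h2
    · exact hac h2
  set X := univ.filter fun k => x ∈ B k with hX
  set A := univ.filter fun k => x ∈ B k ∧ a ∈ B k with hA
  have hX5 : X.card = 5 := hr x hxQ
  have hAX : A ⊆ X := by
    intro k hk
    exact mem_filter.2 ⟨mem_univ _, (mem_filter.1 hk).2.1⟩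
  have hiX : i ∈ X \ A := mem_sdiff.2 ⟨mem_filter.2 ⟨mem_univ _, hxi⟩,
    fun h1 => hai (mem_filter.1 h1).2.2⟩
  have h1 : ((X \ A).erase i).card = 1 := by
    rw [card_erase_of_mem hiX, card_sdiff_of_subset hAX]
    omega
  obtain ⟨i1, hi1⟩ := card_eq_one.1 h1
  have hm1 : i1 ∈ (X \ A).erase i := by rw [hi1]; exact mem_singleton_self i1
  obtain ⟨hne, hm2⟩ := mem_erase.1 hm1
  obtain ⟨hm3, hm4⟩ := mem_sdiff.1 hm2
  have hx1 : x ∈ B i1 := (mem_filter.1 hm3).2
  have ha1 : a ∉ B i1 := fun h2 => hm4 (mem_filter.2 ⟨mem_univ _, hx1, h2⟩)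
  have hall : ∀ k, x ∈ B k → a ∈ B k ∨ k = i ∨ k = i1 := by
    intro k hk
    by_contra hcon
    push Not at hcon
    have h2 : k ∈ (X \ A).erase i := mem_erase.2 ⟨hcon.2.1, mem_sdiff.2
      ⟨mem_filter.2 ⟨mem_univ _, hk⟩, fun h3 => hcon.1 (mem_filter.1 h3).2.2⟩⟩
    rw [hi1] at h2
    exact hcon.2.2 (mem_singleton.1 h2)
  have hcnt : ∀ v, v = b ∨ v = c → univ.filter (fun k => x ∈ B k ∧ v ∈ B k) =
      if v ∈ B i1 then {i, i1} else {i} := by
    intro v hv
    have hvi : v ∈ B i := by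
      rcases hv with rfl | rfl
      · exact hbi
      · exact hci
    ext k
    rw [mem_filter]
    constructor
    · rintro ⟨_, h2, h3⟩
      rcases hall k h2 with h4 | h4 | h4
      · have h5 := hno k h2 h4
        rcases hv with rfl | rfl
        · exact absurd h3 h5.1
        · exact absurd h3 h5.2
      · subst h4
        split_ifs <;> simp
      · subst h4
        rw [if_pos h3]
        simp
    · intro hk
      split_ifs at hk with h2
      · rw [mem_insert, mem_singleton] at hk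
        rcases hk with rfl | rfl
        · exact ⟨mem_univ _, hxi, hvi⟩
        · exact ⟨mem_univ _, hx1, h2⟩
      · rw [mem_singleton] at hk
        subst hk
        exact ⟨mem_univ _, hxi, hvi⟩
  rw [hcnt b (Or.inl rfl), hcnt c (Or.inr rfl)] at hbc
  refine ⟨i1, hx1, ha1, hne, hall, ?_⟩
  by_cases h2 : b ∈ B i1 <;> by_cases h3 : c ∈ B i1
  · rw [if_pos h2, if_pos h3, card_pair hne.symm] at hbc
    omega
  · exact Or.inl ⟨h2, h3⟩
  · exact Or.inr ⟨h2, h3⟩
  · rw [if_neg h2, if_neg h3, card_singleton] at hbc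
    omega

/-- with at most three hits outside there is a block `e` of `x` with two points. -/
theorem Px.two_block (h : Px B Q T U F j i a b c x) (hr : Reg B Q) {i1 : ι}
    (hx1 : x ∈ B i1) (hi1 : i1 ≠ i) (hall : ∀ k, x ∈ B k → a ∈ B k ∨ k = i ∨ k = i1)
    (hno : ∀ k, x ∈ B k → a ∈ B k → b ∉ B k ∧ c ∉ B k)
    (h1 : (b ∈ B i1 ∧ c ∉ B i1) ∨ (b ∉ B i1 ∧ c ∈ B i1)) (ha1 : a ∉ B i1)
    (hW : hit B ((Q \ (B j ∩ Q)) \ {x}) {x} ≤ 3) :
    ∃ e, x ∈ B e ∧ e ≠ i ∧ (B e ∩ Q).card ≤ 2 := by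
  by_contra hcon
  push Not at hcon
  obtain ⟨hab, hac, hbc'⟩ := h.ne
  obtain ⟨hxa, hxb, hxc⟩ := h.x_ne
  have hxQ : x ∈ Q := Frm.DQ h.xD
  have hxi : x ∈ B i := (mem_inter.1 (by rw [h.hiQ]; simp : x ∈ B i ∩ Q)).1
  set S := (Q \ (B j ∩ Q)) \ {x} with hS
  have key : ∀ k ∈ (univ.filter fun k => x ∈ B k).erase i, 1 ≤ (B k ∩ S).card := by
    intro k hk
    obtain ⟨hki, hk2⟩ := mem_erase.1 hk
    have hxk := (mem_filter.1 hk2).2
    have h3 := hcon k hxk hki
    have h4 : (B k ∩ Q) \ (B k ∩ S) ⊆ insert x (B k ∩ (B j ∩ Q)) := by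
      intro v hv
      obtain ⟨hv1, hv2⟩ := mem_sdiff.1 hv
      obtain ⟨hvk, hvQ⟩ := mem_inter.1 hv1
      by_contra hcon2
      rw [mem_insert, not_or] at hcon2
      refine hv2 (mem_inter.2 ⟨hvk, mem_sdiff.2 ⟨mem_sdiff.2 ⟨hvQ, fun h5 =>
        hcon2.2 (mem_inter.2 ⟨hvk, h5⟩)⟩, fun h5 => hcon2.1 (mem_singleton.1 h5)⟩⟩)
    have h5 : (B k ∩ (B j ∩ Q)).card ≤ 1 := by
      rw [h.hjQ, card_le_one]
      intro u hu v hv
      obtain ⟨hu1, hu2⟩ := mem_inter.1 hu
      obtain ⟨hv1, hv2⟩ := mem_inter.1 hv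
      simp only [mem_insert, mem_singleton] at hu2 hv2
      by_cases hak : a ∈ B k
      · obtain ⟨h6, h7⟩ := hno k hxk hak
        rcases hu2 with rfl | rfl | rfl
        · rcases hv2 with rfl | rfl | rfl
          · rfl
          · exact absurd hv1 h6
          · exact absurd hv1 h7
        · exact absurd hu1 h6
        · exact absurd hu1 h7
      · have hk1 : k = i1 := by
          rcases hall k hxk with h6 | h6 | h6
          · exact absurd h6 hak
          · exact absurd h6 hki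
          · exact h6
        subst hk1
        rcases hu2 with rfl | rfl | rfl
        · exact absurd hu1 hak
        · rcases hv2 with rfl | rfl | rfl
          · exact absurd hv1 hak
          · rfl
          · rcases h1 with ⟨_, h8⟩ | ⟨h8, _⟩
            · exact absurd hv1 h8
            · exact absurd hu1 h8
        · rcases hv2 with rfl | rfl | rfl
          · exact absurd hv1 hak
          · rcases h1 with ⟨_, h8⟩ | ⟨h8, _⟩
            · exact absurd hu1 h8
            · exact absurd hv1 h8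
          · rfl
    have h6 := card_le_card h4
    have h7 := card_insert_le x (B k ∩ (B j ∩ Q))
    have h8 := card_sdiff_add_card_inter (B k ∩ Q) (B k ∩ S)
    have h9 := card_le_card (inter_subset_right : (B k ∩ Q) ∩ (B k ∩ S) ⊆ B k ∩ S)
    omega
  have h3 : 4 ≤ hit B S {x} := by
    have h4 : ((univ.filter fun k => x ∈ B k).erase i).card = 4 := by
      have h5 := hr x hxQ
      have h6 : i ∈ univ.filter fun k => x ∈ B k := mem_filter.2 ⟨mem_univ _, hxi⟩
      rw [card_erase_of_mem h6, h5]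
    have h5 := sum_le_sum key
    rw [sum_const, h4] at h5
    refine le_trans (by simpa using h5) ?_
    unfold hit
    refine sum_le_sum_of_subset fun k hk => ?_
    obtain ⟨_, hk2⟩ := mem_erase.1 hk
    exact cost_mem_tch.2 ⟨x, mem_inter.2 ⟨(mem_filter.1 hk2).2, mem_singleton_self x⟩⟩
  omega

/-- **the exceptional pattern fills all places of `x`**: no hits of `U`, the third point `c` sees another
leaf; then all blocks of `x` are full. -/
theorem Pxf.full (h : Pxf B Q T U F j i k0 a b c x) (hv : ViolR B Q)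
    (hq : MTR B Q T U F) (g0 : hit B U {x} = 0) (hL : ∃ L ∈ slf B F c, L ≠ {x}) :
    ∀ e, x ∈ B e → (B e ∩ Q).card = 3 := by
  intro e hxe
  by_contra he3
  have he2 : (B e ∩ Q).card ≤ 2 := by
    have := hv.tr e
    omega
  have hr := hv.reg
  obtain ⟨hab, hac, hbc⟩ := h.px.ne
  obtain ⟨hxa, hxb, hxc⟩ := h.px.x_ne
  have hxQ : x ∈ Q := Frm.DQ h.px.xD
  have haQ := h.px.aQ
  have hj3 := h.px.frm.mtp.tpk.pack.card j h.px.hj
  have hi3 := h.px.hi3
  have hxi : x ∈ B i := (mem_inter.1 (by rw [h.px.hiQ]; simp : x ∈ B i ∩ Q)).1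
  have hbi : b ∈ B i := (mem_inter.1 (by rw [h.px.hiQ]; simp : b ∈ B i ∩ Q)).1
  have hci : c ∈ B i := (mem_inter.1 (by rw [h.px.hiQ]; simp : c ∈ B i ∩ Q)).1
  have hbJ : b ∈ B j ∩ Q := by rw [h.px.hjQ]; simp
  have hcJ : c ∈ B j ∩ Q := by rw [h.px.hjQ]; simp
  obtain ⟨hbj, hbQ⟩ := mem_inter.1 hbJ
  obtain ⟨hcj, hcQ⟩ := mem_inter.1 hcJ
  have haj := h.px.aj
  have hxj : x ∉ B j := fun h1 => Frm.T_notD h.px.hj h1 h.px.xD
  have hai : a ∉ B i := by
    intro h1
    have h2 : a ∈ B i ∩ Q := mem_inter.2 ⟨h1, haQ⟩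
    rw [h.px.hiQ] at h2
    simp only [mem_insert, mem_singleton] at h2
    rcases h2 with h2 | h2 | h2
    · exact hxa h2.symm
    · exact hab h2
    · exact hac h2
  have hpb := h.fpb g0
  have hei : e ≠ i := by
    rintro rfl
    omega
  obtain ⟨i1, hx1, ha1, hi1, hall, h1⟩ := h.px.fifth hr h.ha h.hbc h.hno
  -- the trace of `e`
  have hetr : (B e ∩ Q) \ B j = {x} := by
    have h2 : ∃ v ∈ B e ∩ Q, v ∈ B j := by
      rcases hall e hxe with h3 | h3 | h3
      · exact ⟨a, mem_inter.2 ⟨h3, haQ⟩, haj⟩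
      · exact absurd h3 hei
      · subst h3
        rcases h1 with ⟨h4, _⟩ | ⟨_, h4⟩
        · exact ⟨b, mem_inter.2 ⟨h4, hbQ⟩, hbj⟩
        · exact ⟨c, mem_inter.2 ⟨h4, hcQ⟩, hcj⟩
    obtain ⟨v, hv1, hv2⟩ := h2
    have hxv : x ≠ v := fun h3 => hxj (h3 ▸ hv2)
    have h3 : B e ∩ Q = {x, v} := by
      symm
      refine eq_of_subset_of_card_le ?_ (by rw [card_pair hxv]; exact he2)
      intro w hw
      rw [mem_insert, mem_singleton] at hw
      rcases hw with rfl | rfl
      · exact mem_inter.2 ⟨hxe, hxQ⟩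
      · exact hv1
    rw [h3]
    ext w
    rw [mem_sdiff, mem_insert, mem_singleton, mem_singleton]
    constructor
    · rintro ⟨h4 | h4, h5⟩
      · exact h4
      · exact absurd (h4 ▸ hv2) h5
    · rintro rfl
      exact ⟨Or.inl rfl, hxj⟩
  have heR : (B e ∩ (B j ∩ Q)).Nonempty := by
    rcases hall e hxe with h3 | h3 | h3
    · exact ⟨a, mem_inter.2 ⟨h3, mem_inter.2 ⟨haj, haQ⟩⟩⟩
    · exact absurd h3 hei
    · subst h3
      rcases h1 with ⟨h4, _⟩ | ⟨_, h4⟩
      · exact ⟨b, mem_inter.2 ⟨h4, hbJ⟩⟩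
      · exact ⟨c, mem_inter.2 ⟨h4, hcJ⟩⟩
  have hitr : (B i ∩ Q) \ B j = {x} := by
    rw [h.px.hiQ]
    ext w
    rw [mem_sdiff, mem_singleton]
    simp only [mem_insert, mem_singleton]
    constructor
    · rintro ⟨h4 | h4 | h4, h5⟩
      · exact h4
      · exact absurd (h4 ▸ hbj) h5
      · exact absurd (h4 ▸ hcj) h5
    · rintro rfl
      exact ⟨Or.inl rfl, hxj⟩
  have hiR : (B i ∩ (B j ∩ Q)).Nonempty := ⟨b, mem_inter.2 ⟨hbi, hbJ⟩⟩
  -- (Z) the inner block is not inside the triple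
  have hk2 : ¬ B k0 ∩ Q ⊆ B j := by
    intro h2
    exact hv.mrg0 (i := j) (m := k0) (e1 := i) (e2 := e) (a := x) hj3 (Ne.symm hpb.k0_ne) h2
      ⟨a, mem_inter.2 ⟨h.ak, haQ⟩⟩ (Ne.symm hei) hitr hetr hiR heR (f := i) hxi hi3
  obtain ⟨s, hs1, hsj⟩ := not_subset.1 hk2
  obtain ⟨hsk, hsQ⟩ := mem_inter.1 hs1
  have hsa : s ≠ a := fun h2 => hsj (h2 ▸ haj)
  have hsb : s ≠ b := fun h2 => hsj (h2 ▸ hbj)
  have hsc : s ≠ c := fun h2 => hsj (h2 ▸ hcj)
  have hsx : s ≠ x := fun h2 => h.xk (h2 ▸ hsk)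
  have hk0Q : B k0 ∩ Q = {a, b, s} := by
    symm
    refine eq_of_subset_of_card_le ?_ ?_
    · intro w hw
      simp only [mem_insert, mem_singleton] at hw
      rcases hw with rfl | rfl | rfl
      · exact mem_inter.2 ⟨h.ak, haQ⟩
      · exact mem_inter.2 ⟨h.bk, hbQ⟩
      · exact hs1
    · rw [card_eq_three.2 ⟨a, b, s, hab, hsa.symm, hsb.symm, rfl⟩]
      exact hv.tr k0
  -- the block `e` contains `a`
  have hea : a ∈ B e := by
    rcases hall e hxe with h3 | h3 | h3
    · exact h3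
    · exact absurd h3 hei
    · exfalso
      subst h3
      have h4 := hq.last h.px h.theta h.sq_le hx1 hi1 h.ak hpb.k0_ne (by
        ext k
        simp only [mem_erase, mem_filter, mem_univ, true_and]
        constructor
        · rintro ⟨h5, h6, h7⟩
          rcases hall k h7 with h8 | h8 | h8
          · exact ⟨fun h9 => h.xk (h9 ▸ h7), fun h9 => hxj (h9 ▸ h7), h8⟩
          · exact absurd h8 h6
          · exact absurd h8 h5
        · rintro ⟨h5, h6, h7⟩
          rcases h.all k h7 with h8 | h8 | h8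
          · exact ⟨fun h9 => ha1 (h9 ▸ h7), fun h9 => hai (h9 ▸ h7), h8⟩
          · exact absurd h8 h6
          · exact absurd h8 h5)
      have h5 : (B e ∩ U).card = 0 := by
        rw [card_eq_zero, eq_empty_iff_forall_notMem]
        intro u hu
        obtain ⟨hu1, hu2⟩ := mem_inter.1 hu
        exact hpb.not_U hx1 hu2 hu1
      have h6 := h4.2 (by omega)
      rw [hk0Q, card_eq_three.2 ⟨a, b, s, hab, hsa.symm, hsb.symm, rfl⟩] at h6
      omega
  have heQ : B e ∩ Q = {x, a} := by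
    symm
    refine eq_of_subset_of_card_le ?_ (by rw [card_pair hxa]; exact he2)
    intro w hw
    rw [mem_insert, mem_singleton] at hw
    rcases hw with rfl | rfl
    · exact mem_inter.2 ⟨hxe, hxQ⟩
    · exact mem_inter.2 ⟨hea, haQ⟩
  obtain ⟨hbe, hce⟩ := h.hno e hxe hea
  -- claim 2: the blocks of `c` contain `s`
  have c2 : ∀ n, c ∈ B n → n ≠ i → n ≠ j → s ∈ B n := by
    intro n hn hni hnj
    obtain ⟨p, hpQ, hp1, hp2, hp3⟩ := hv.common (i := j) (j := i) (e := e) (m := k0) (n := n)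
      (x := a) (a := x) (y := b) (z := c) h.px.hjQ hj3 h.px.hiQ hi3 hxa.symm hetr heR hei
      h.ak h.bk h.ck (fun h2 => h.xk (h2 ▸ hxe)) hn hnj hni (fun h2 => hce (h2 ▸ hn))
    have h2 : p ∈ B k0 ∩ Q := mem_inter.2 ⟨hp1, hpQ⟩
    rw [hk0Q] at h2
    simp only [mem_insert, mem_singleton] at h2
    rcases h2 with rfl | rfl | rfl
    · exact absurd haj hp3
    · exact absurd hbj hp3
    · exact hp2
  -- the triple of `s`
  obtain ⟨ts, hts, hsts⟩ := hpb.k0_sub hq hs1
  have hst := (mem_inter.1 hsts).1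
  have htj : ts ≠ j := fun h2 => hsj (h2 ▸ hst)
  have hdt := h.px.frm.mtp.tpk.pack.disj ts hts j h.px.hj htj
  have hbt : b ∉ B ts := fun h2 => disjoint_left.1 hdt (mem_inter.2 ⟨h2, hbQ⟩) hbJ
  have hct : c ∉ B ts := fun h2 => disjoint_left.1 hdt (mem_inter.2 ⟨h2, hcQ⟩) hcJ
  have hat : a ∉ B ts := fun h2 => disjoint_left.1 hdt (mem_inter.2 ⟨h2, haQ⟩)
    (mem_inter.2 ⟨haj, haQ⟩)
  have hxt : x ∉ B ts := fun h2 => Frm.T_notD hts h2 h.px.xD
  have hs5 := hr s hsQ
  have he1 : e ≠ i1 := fun h2 => ha1 (h2 ▸ hea)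
  have hetr2 : (B e ∩ Q) \ B i = {a} := by
    rw [heQ]
    ext w
    simp only [mem_sdiff, mem_insert, mem_singleton]
    constructor
    · rintro ⟨h4 | h4, h5⟩
      · exact absurd (h4 ▸ hxi) h5
      · exact h4
    · rintro rfl
      exact ⟨Or.inr rfl, hai⟩
  have heR2 : (B e ∩ (B i ∩ Q)).Nonempty := ⟨x, mem_inter.2 ⟨hxe, mem_inter.2 ⟨hxi, hxQ⟩⟩⟩
  have hej : e ≠ j := fun h2 => hxj (h2 ▸ hxe)
  -- the third point of the fifth block
  have key1 : ∀ y z : V, B i ∩ Q = {x, y, z} → B j ∩ Q = {a, y, z} → y ∈ B i1 → z ∉ B i1 →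
      z ∉ B e → ∀ n, z ∈ B n → n ≠ i → n ≠ j → ∃ p ∈ Q, p ∈ B i1 ∧ p ∈ B n ∧ p ∉ B i := by
    intro y z hyi hyj hy1 hz1 hze n hn hni hnj
    exact hv.common hyi hi3 hyj hj3 hxa hetr2 heR2 hej hx1 hy1 hz1 he1 hn hni hnj
      (fun h2 => hze (h2 ▸ hn))
  have hk0i : k0 ≠ i := fun h2 => h.xk (h2 ▸ hxi)
  have hk0j := hpb.k0_ne
  have hk01 : k0 ≠ i1 := fun h2 => h.xk (h2 ▸ hx1)
  have hij : i ≠ j := fun h2 => hxj (h2 ▸ hxi)
  have hi1j : i1 ≠ j := fun h2 => hxj (h2 ▸ hx1)
  have ht0 : ts ≠ k0 := fun h2 => hat (h2 ▸ h.ak)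
  have ht1 : ts ≠ i1 := fun h2 => hxt (h2 ▸ hx1)
  rcases h1 with ⟨hb1, hc1⟩ | ⟨hb1, hc1⟩
  · -- the fifth block contains `b`
    obtain ⟨L, hLc, hLx⟩ := hL
    obtain ⟨hLF, m, hmL, hcm, n, hcn, hmn⟩ := mem_slf.1 hLc
    have hmD := h.px.frm.FD hLF hmL
    have hni : n ≠ i := by
      rintro rfl
      have h2 : m ∈ B n ∩ Q := mem_inter.2 ⟨hmn, Frm.DQ hmD⟩
      exact h.px.x_sep hxi ⟨m, mem_inter.2 ⟨hmn, mem_biUnion.2 ⟨L, mem_erase.2 ⟨hLx, hLF⟩, hmL⟩⟩⟩
    have hnj : n ≠ j := by
      rintro rfl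
      exact Frm.T_notD h.px.hj hmn hmD
    obtain ⟨p, hpQ, hp1, hp2, hp3⟩ := key1 b c h.px.hiQ h.px.hjQ hb1 hc1 hce n hcn hni hnj
    by_cases hps : p = s
    · subst hps
      -- six blocks of `s`
      set S := ((univ.filter fun k => c ∈ B k).erase i).erase j with hS
      have hS3 : S.card = 3 := by
        have h2 : i ∈ univ.filter fun k => c ∈ B k := mem_filter.2 ⟨mem_univ _, hci⟩
        have h3 : j ∈ (univ.filter fun k => c ∈ B k).erase i :=
          mem_erase.2 ⟨hij.symm, mem_filter.2 ⟨mem_univ _, hcj⟩⟩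
        rw [hS, card_erase_of_mem h3, card_erase_of_mem h2, hr c hcQ]
      have mS : ∀ k ∈ S, c ∈ B k ∧ p ∈ B k := by
        intro k hk
        rw [hS, mem_erase, mem_erase, mem_filter] at hk
        exact ⟨hk.2.2.2, c2 k hk.2.2.2 hk.2.1 hk.1⟩
      have n1 : i1 ∉ S := fun h2 => hc1 (mS _ h2).1
      have n2 : k0 ∉ insert i1 S := by
        rw [mem_insert, not_or]
        exact ⟨hk01, fun h2 => h.ck (mS _ h2).1⟩
      have n3 : ts ∉ insert k0 (insert i1 S) := by
        rw [mem_insert, mem_insert, not_or, not_or]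
        exact ⟨ht0, ht1, fun h2 => hct (mS _ h2).1⟩
      have h2 : insert ts (insert k0 (insert i1 S)) ⊆ univ.filter fun k => p ∈ B k := by
        intro k hk
        rw [mem_insert, mem_insert, mem_insert] at hk
        rw [mem_filter]
        refine ⟨mem_univ _, ?_⟩
        rcases hk with rfl | rfl | rfl | hk
        · exact hst
        · exact hsk
        · exact hp1
        · exact (mS _ hk).2
      have h3 := card_le_card h2
      rw [card_insert_of_notMem n3, card_insert_of_notMem n2, card_insert_of_notMem n1, hS3,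
        hs5] at h3
      omega
    · have hsn := c2 n hcn hni hnj
      have d1 : c ≠ m := fun h2 => Frm.T_notD h.px.hj hcj (h2 ▸ hmD)
      have d2 : c ≠ p := fun h2 => hp3 (h2 ▸ hci)
      have d3 : m ≠ p := by
        rintro rfl
        exact h.px.x_sep hx1 ⟨m, mem_inter.2 ⟨hp1, mem_biUnion.2
          ⟨L, mem_erase.2 ⟨hLx, hLF⟩, hmL⟩⟩⟩
      have d4 : m ≠ s := by
        rintro rfl
        exact Frm.T_notD hts hst hmD
      have h2 : ({c, m, p, s} : Finset V) ⊆ B n ∩ Q := by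
        intro w hw
        simp only [mem_insert, mem_singleton] at hw
        rcases hw with rfl | rfl | rfl | rfl
        · exact mem_inter.2 ⟨hcn, hcQ⟩
        · exact mem_inter.2 ⟨hmn, Frm.DQ hmD⟩
        · exact mem_inter.2 ⟨hp2, hpQ⟩
        · exact mem_inter.2 ⟨hsn, hsQ⟩
      have h3 := card_le_card h2
      rw [card_insert_of_notMem (by simp [d1, d2, hsc.symm]),
        card_insert_of_notMem (by simp [d3, d4]), card_pair hps] at h3
      have h4 := hv.tr n
      omega
  · -- the fifth block contains `c`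
    have hiQ' : B i ∩ Q = {x, c, b} := by rw [h.px.hiQ, pair_comm b c]
    have hjQ' : B j ∩ Q = {a, c, b} := by rw [h.px.hjQ, pair_comm b c]
    have hs1' : s ∈ B i1 := by
      obtain ⟨p, hpQ, hp1, hp2, hp3⟩ := key1 c b hiQ' hjQ' hc1 hb1 hbe k0 h.bk hk0i hk0j
      have h2 : p ∈ B k0 ∩ Q := mem_inter.2 ⟨hp2, hpQ⟩
      rw [hk0Q] at h2
      simp only [mem_insert, mem_singleton] at h2
      rcases h2 with rfl | rfl | rfl
      · exact absurd hp1 ha1
      · exact absurd hbi hp3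
      · exact hp1
    have h1Q : B i1 ∩ Q = {x, c, s} := by
      symm
      refine eq_of_subset_of_card_le ?_ ?_
      · intro w hw
        simp only [mem_insert, mem_singleton] at hw
        rcases hw with rfl | rfl | rfl
        · exact mem_inter.2 ⟨hx1, hxQ⟩
        · exact mem_inter.2 ⟨hc1, hcQ⟩
        · exact mem_inter.2 ⟨hs1', hsQ⟩
      · rw [card_eq_three.2 ⟨x, c, s, hxc, hsx.symm, hsc.symm, rfl⟩]
        exact hv.tr i1
    have c1 : ∀ n, b ∈ B n → n ≠ i → n ≠ j → s ∈ B n := by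
      intro n hn hni hnj
      obtain ⟨p, hpQ, hp1, hp2, hp3⟩ := key1 c b hiQ' hjQ' hc1 hb1 hbe n hn hni hnj
      have h2 : p ∈ B i1 ∩ Q := mem_inter.2 ⟨hp1, hpQ⟩
      rw [h1Q] at h2
      simp only [mem_insert, mem_singleton] at h2
      rcases h2 with rfl | rfl | rfl
      · exact absurd hxi hp3
      · exact absurd hci hp3
      · exact hp2
    set G := ((univ.filter fun k => b ∈ B k) ∪ (univ.filter fun k => c ∈ B k)) \ {i, j} with hG
    have hG5 : 5 ≤ G.card := by
      have h2 := card_union_add_card_inter (univ.filter fun k => b ∈ B k)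
        (univ.filter fun k => c ∈ B k)
      rw [← filter_and] at h2
      have h3 := hv.twin hbQ hcQ hbc
      have h4 := hr b hbQ
      have h5 := hr c hcQ
      have h6 := le_card_sdiff ({i, j} : Finset ι)
        ((univ.filter fun k => b ∈ B k) ∪ (univ.filter fun k => c ∈ B k))
      rw [card_pair hij, ← hG] at h6
      omega
    have mG : ∀ k ∈ G, s ∈ B k ∧ (b ∈ B k ∨ c ∈ B k) := by
      intro k hk
      obtain ⟨h2, h3⟩ := mem_sdiff.1 hk
      rw [mem_insert, mem_singleton, not_or] at h3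
      rcases mem_union.1 h2 with h4 | h4
      · have h5 := (mem_filter.1 h4).2
        exact ⟨c1 k h5 h3.1 h3.2, Or.inl h5⟩
      · have h5 := (mem_filter.1 h4).2
        exact ⟨c2 k h5 h3.1 h3.2, Or.inr h5⟩
    have n3 : ts ∉ G := by
      intro h2
      rcases (mG _ h2).2 with h3 | h3
      · exact hbt h3
      · exact hct h3
    have h2 : insert ts G ⊆ univ.filter fun k => s ∈ B k := by
      intro k hk
      rw [mem_filter]
      refine ⟨mem_univ _, ?_⟩
      rcases mem_insert.1 hk with rfl | hk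
      · exact hst
      · exact (mG _ hk).1
    have h3 := card_le_card h2
    rw [card_insert_of_notMem n3, hs5] at h3
    omega

/-- **no free place at the leaf**. -/
theorem Pxf.fs_zero (h : Pxf B Q T U F j i k0 a b c x) (hv : ViolR B Q)
    (hq : MTR B Q T U F) (g0 : hit B U {x} = 0) (hL : ∃ L ∈ slf B F c, L ≠ {x}) :
    fs B Q {x} = 0 := by
  unfold fs
  refine sum_eq_zero fun k hk => ?_
  obtain ⟨y, hy⟩ := cost_mem_tch.1 hk
  obtain ⟨h1, h2⟩ := mem_inter.1 hy
  rw [mem_singleton] at h2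
  subst h2
  rw [h.full hv hq g0 hL k h1]
  norm_num

/-- **four hits outside**. -/
theorem Pxf.four_out (h : Pxf B Q T U F j i k0 a b c x) (hv : ViolR B Q)
    (hq : MTR B Q T U F) (g0 : hit B U {x} = 0) (hL : ∃ L ∈ slf B F c, L ≠ {x}) :
    4 ≤ hit B ((Q \ (B j ∩ Q)) \ {x}) {x} := by
  by_contra hcon
  obtain ⟨i1, hx1, ha1, hi1, hall, h1⟩ := h.px.fifth hv.reg h.ha h.hbc h.hno
  obtain ⟨e, hxe, _, he⟩ := h.px.two_block hv.reg hx1 hi1 hall h.hno h1 ha1 (by omega)
  have := h.full hv hq g0 hL e hxe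
  omega

end

end Pool.Agent.Hyp6
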