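import Pool.Agent.Hyp6.L3Dk
import Pool.Agent.Hyp6.L3P6

/-!
# HYP6 L3Dn: doubled triples, no free places

`Pex3.full_dbl`: in the doubled pattern all blocks of `x` are full. `Pex3.no_dbl`, `StgR.no_dbl`: the
doubled pattern does not occur.
-/

set_option autoImplicit false

namespace Pool.Agent.Hyp6

open Finset Pool.Agent.Hyp5

universe u v

variable {V : Type v} [DecidableEq V] {ι : Type u} [Fintype ι] [DecidableEq ι]
  {B : ι → Finset V} {Q U : Finset V} {T : Finset ι} {F : Finset (Finset V)}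

/-- **in the doubled pattern all blocks of `x` are full.** -/
theorem Pex3.full_dbl {j i k0 : ι} {a b c x : V} (h : Pex3 B Q T U F j i k0 a b c x)
    (hv : ViolR B Q) (hck : c ∈ B k0) {e : ι} (hxe : x ∈ B e) : (B e ∩ Q).card = 3 := by
  classical
  by_contra he3
  have he2 : (B e ∩ Q).card ≤ 2 := by
    have := hv.tr e
    omega
  have hr := hv.reg
  obtain ⟨hab, hac, hbc⟩ := h.px.ne
  have hxQ : x ∈ Q := Frm.DQ h.px.xD
  have haQ := h.px.aQ
  have hj3 := h.px.frm.mtp.tpk.pack.card j h.px.hj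
  have hi3 := h.px.hi3
  have hxi : x ∈ B i := (mem_inter.1 (by rw [h.px.hiQ]; simp : x ∈ B i ∩ Q)).1
  have hbi : b ∈ B i := (mem_inter.1 (by rw [h.px.hiQ]; simp : b ∈ B i ∩ Q)).1
  have hbJ : b ∈ B j ∩ Q := by rw [h.px.hjQ]; simp
  have hcJ : c ∈ B j ∩ Q := by rw [h.px.hjQ]; simp
  obtain ⟨hbj, hbQ⟩ := mem_inter.1 hbJ
  obtain ⟨hcj, hcQ⟩ := mem_inter.1 hcJ
  have haj := h.px.aj
  have hxj : x ∉ B j := fun h1 => Frm.T_notD h.px.hj h1 h.px.xD
  have hei : e ≠ i := by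
    rintro rfl
    omega
  obtain ⟨i1, hx1, ha1, hi1, hall, h1⟩ := h.px.fifth hr h.ha h.hbc h.hno
  -- a point of the triple in `e`
  obtain ⟨v, hv1, hv2⟩ : ∃ v ∈ B e ∩ Q, v ∈ B j := by
    rcases hall e hxe with h3 | h3 | h3
    · exact ⟨a, mem_inter.2 ⟨h3, haQ⟩, haj⟩
    · exact absurd h3 hei
    · subst h3
      rcases h1 with ⟨h4, _⟩ | ⟨_, h4⟩
      · exact ⟨b, mem_inter.2 ⟨h4, hbQ⟩, hbj⟩
      · exact ⟨c, mem_inter.2 ⟨h4, hcQ⟩, hcj⟩
  have hxv : x ≠ v := fun h3 => hxj (h3 ▸ hv2)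
  have heQ : B e ∩ Q = {x, v} := by
    symm
    refine eq_of_subset_of_card_le ?_ (by rw [card_pair hxv]; exact he2)
    intro w hw
    rw [mem_insert, mem_singleton] at hw
    rcases hw with rfl | rfl
    · exact mem_inter.2 ⟨hxe, hxQ⟩
    · exact hv1
  have hetr : (B e ∩ Q) \ B j = {x} := by
    ext w
    rw [mem_sdiff, heQ, mem_insert, mem_singleton, mem_singleton]
    constructor
    · rintro ⟨h3 | h3, h4⟩
      · exact h3
      · exact absurd (h3 ▸ hv2) h4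
    · rintro rfl
      exact ⟨Or.inl rfl, hxj⟩
  have hitr : (B i ∩ Q) \ B j = {x} := by
    ext w
    rw [mem_sdiff, h.px.hiQ, mem_singleton]
    simp only [mem_insert, mem_singleton]
    constructor
    · rintro ⟨h3 | h3 | h3, h4⟩
      · exact h3
      · exact absurd (h3 ▸ hbj) h4
      · exact absurd (h3 ▸ hcj) h4
    · rintro rfl
      exact ⟨Or.inl rfl, hxj⟩
  have hk0 : B k0 ∩ Q ⊆ B j := by
    have h3 : ({a, b, c} : Finset V) ⊆ B k0 ∩ Q := by
      intro w hw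
      simp only [mem_insert, mem_singleton] at hw
      rcases hw with rfl | rfl | rfl
      · exact mem_inter.2 ⟨h.ak, haQ⟩
      · exact mem_inter.2 ⟨h.bk, hbQ⟩
      · exact mem_inter.2 ⟨hck, hcQ⟩
    have h4 := eq_of_subset_of_card_le h3 (by
      rw [card_insert_of_notMem (by simp [hab, hac]), card_pair hbc]
      exact hv.tr k0)
    rw [← h4, ← h.px.hjQ]
    exact inter_subset_left
  exact hv.mrg0 (i := j) (m := k0) (e1 := e) (e2 := i) (a := x) hj3 h.kj.symm hk0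
    ⟨a, mem_inter.2 ⟨h.ak, haQ⟩⟩ hei hetr hitr
    ⟨v, mem_inter.2 ⟨(mem_inter.1 hv1).1, mem_inter.2 ⟨hv2, (mem_inter.1 hv1).2⟩⟩⟩
    ⟨b, mem_inter.2 ⟨hbi, hbJ⟩⟩ hxi hi3

theorem Pex3.fs_dbl {j i k0 : ι} {a b c x : V} (h : Pex3 B Q T U F j i k0 a b c x)
    (hv : ViolR B Q) (hck : c ∈ B k0) : fs B Q {x} = 0 := by
  unfold fs
  refine sum_eq_zero fun e he => ?_
  obtain ⟨y, hy⟩ := cost_mem_tch.1 he
  obtain ⟨hy1, hy2⟩ := mem_inter.1 hy
  rw [mem_singleton] at hy2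
  have := h.full_dbl hv hck (hy2 ▸ hy1 : x ∈ B e)
  omega

/-- **the doubled pattern does not occur** (general form with a connected set). -/
theorem Pex3.no_dbl {j i k0 : ι} {a b c x : V} (h : Pex3 B Q T U F j i k0 a b c x)
    (hv : ViolR B Q) (hck : c ∈ B k0) (g0 : hit B U {x} = 0) {K : Finset V}
    (KD : K ⊆ Dp B Q T) (hxK : x ∉ K) (hKc : Conn (gr B) K)
    (hKm : ∀ k, b ∈ B k ∨ c ∈ B k → (B k ∩ (F.erase {x}).biUnion id).Nonempty →
      (B k ∩ K).Nonempty) : False :=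
  h.no_doubled hv hck g0 (h.fs_dbl hv hck) KD hxK hKc hKm

/-- **there is no doubled line triple with six hits on an own point leaf without hits of `U`.** -/
theorem StgR.no_dbl {P : Finset (Finset (Finset V))} {al : V → Finset (Finset V) → ℕ}
    (s : StgR B Q T U F P al) : ∀ j i k0 a b c x, {{x}} ∈ P → j ∈ tl B Q T U F P →
      Pex3 B Q T U F j i k0 a b c x → c ∈ B k0 → hit B U {x} = 0 → False :=
  fun _ _ _ _ _ _ _ xP hk h hck g0 =>
    s.not_doubled xP hk g0 (h.fs_dbl s.viol hck) h hck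

end Pool.Agent.Hyp6
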