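import Pool.Agent.Hyp6.L3Fpi
import Pool.Agent.Hyp6.L3Mr3

/-!
# HYP6 L3Fpj: all cases of a private point with six hits

`StgR.six_cases`: a private point `x` (own class, no inside triple, no centre of a triple which pays as
type B, no hits of `U`) with six hits of its line triple `k`: the hits elsewhere, the claims and the
transfer of `k`.
-/

set_option autoImplicit false

namespace Pool.Agent.Hyp6

open Finset Pool.Agent.Hyp5 Rt

universe u v

variable {V : Type v} [DecidableEq V] {ι : Type u} [Fintype ι] [DecidableEq ι]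
  {B : ι → Finset V}

/-- `c` sees another leaf if `b`, `c` have at least three hits elsewhere. -/
theorem Pxf.c_sees_big {Q U : Finset V} {T : Finset ι} {F : Finset (Finset V)}
    {j i k0 : ι} {a b c x : V} (h : Pxf B Q T U F j i k0 a b c x) (g0 : hit B U {x} = 0)
    (hq : MTR B Q T U F) (hr : Reg B Q)
    (h2 : 3 ≤ mh B b ((F.erase {x}).biUnion id) + mh B c ((F.erase {x}).biUnion id)) :
    ∃ L ∈ slf B F c, L ≠ {x} := by
  have hpb := h.fpb g0
  have hjT : j ∈ T := h.px.hj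
  have hbi : b ∈ B i := (mem_inter.1 (by rw [h.px.hiQ]; simp : b ∈ B i ∩ Q)).1
  have hbj : b ∈ B j ∩ Q := hpb.bQ
  have hxi : x ∈ B i := (mem_inter.1 (by rw [h.px.hiQ]; simp : x ∈ B i ∩ Q)).1
  have hij : i ≠ j := by
    rintro rfl
    exact Frm.T_notD (Q := Q) hjT hxi h.px.xD
  have hik : k0 ≠ i := fun he => h.xk (he ▸ hxi)
  have h5 := hr b (mem_inter.1 hbj).2
  set S := univ.filter (fun i => b ∈ B i ∧ (B i ∩ (F.erase {x}).biUnion id).Nonempty) with hS
  have hjn : j ∉ S := by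
    intro h1
    obtain ⟨_, _, z, hz⟩ := mem_filter.1 h1
    obtain ⟨hz1, hz2⟩ := mem_inter.1 hz
    obtain ⟨L, hL, hzL⟩ := mem_biUnion.1 hz2
    exact Frm.T_notD hjT hz1 (h.px.frm.FD (mem_erase.1 hL).2 hzL)
  have hin : i ∉ S := fun h1 => h.px.x_sep hxi (mem_filter.1 h1).2.2
  have hkn : k0 ∉ S := by
    intro h1
    obtain ⟨_, _, z, hz⟩ := mem_filter.1 h1
    obtain ⟨hz1, hz2⟩ := mem_inter.1 hz
    obtain ⟨L, hL, hzL⟩ := mem_biUnion.1 hz2
    have hzD := h.px.frm.FD (mem_erase.1 hL).2 hzL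
    obtain ⟨k, hk, hzk⟩ := hpb.k0_sub hq (mem_inter.2 ⟨hz1, Frm.DQ hzD⟩)
    exact Frm.T_notD (Q := Q) hk (mem_inter.1 hzk).1 hzD
  have hsub : insert k0 (insert i (insert j S)) ⊆ univ.filter fun i => b ∈ B i := by
    intro m hm
    simp only [mem_insert] at hm
    rcases hm with rfl | rfl | rfl | hm
    · exact mem_filter.2 ⟨mem_univ _, h.bk⟩
    · exact mem_filter.2 ⟨mem_univ _, hbi⟩
    · exact mem_filter.2 ⟨mem_univ _, (mem_inter.1 hbj).1⟩
    · exact mem_filter.2 ⟨mem_univ _, (mem_filter.1 hm).2.1⟩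
  have h6 := card_le_card hsub
  rw [card_insert_of_notMem (by simp [hik, hpb.k0_ne, hkn]),
    card_insert_of_notMem (by simp [hij, hin]), card_insert_of_notMem hjn, h5] at h6
  have h7 : S.card = mh B b ((F.erase {x}).biUnion id) := rfl
  have h3 : 0 < mh B c ((F.erase {x}).biUnion id) := by omega
  obtain ⟨k, hk⟩ := card_pos.1 h3
  obtain ⟨_, hck, y, hy⟩ := mem_filter.1 hk
  obtain ⟨hy1, hy2⟩ := mem_inter.1 hy
  obtain ⟨L, hL, hyL⟩ := mem_biUnion.1 hy2
  obtain ⟨hne, hLF⟩ := mem_erase.1 hL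
  refine ⟨L, mem_slf.2 ⟨hLF, y, hyL, ?_, k, hck, hy1⟩, hne⟩
  rintro rfl
  exact h.px.notD (z := c) (by simp) (h.px.frm.FD hLF hyL)

namespace StgR

variable {Q U : Finset V} {T : Finset ι} {F : Finset (Finset V)}
  {P : Finset (Finset (Finset V))} {al : V → Finset (Finset V) → ℕ}

/-- **a private point with six hits**: (1) no claims and at most two hits elsewhere, (2) at most two
claims and hits elsewhere, (3) three or four hits elsewhere and the transfer `80`, (4) three claims and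
hits elsewhere and an own claim, (5) a remaining triple pays `80` more at the point, (6) a doubled triple
with three hits elsewhere. -/
theorem six_cases (s : StgR B Q T U F P al) {x : V} {k : ι} (xP : {{x}} ∈ P)
    (priv : aC B Q T U F P {{x}} = {k})
    (hK : Sp.Kin (Rg B Q T U F) (slj B Q F) {{x}} = ∅) (hN : NCt B Q T U F P {{x}})
    (g0 : hit B U {x} = 0) (h6 : 6 ≤ jh B Q k {x}) :
    jh B Q k {x} = 6 ∧
    ((∑ L ∈ F.erase {x}, jh B Q k L ≤ 2 ∧ ncl B Q T U F P k = 0) ∨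
    (1 ≤ ncl B Q T U F P k ∧
      ∑ L ∈ F.erase {x}, jh B Q k L + ncl B Q T U F P k ≤ 2) ∨
    (3 ≤ ∑ L ∈ F.erase {x}, jh B Q k L ∧ ∑ L ∈ F.erase {x}, jh B Q k L ≤ 4 ∧
      ncl B Q T U F P k = 0 ∧ tF B Q T U F P k = 80) ∨
    (1 ≤ ncl B Q T U F P k ∧ ∑ L ∈ F.erase {x}, jh B Q k L + ncl B Q T U F P k = 3 ∧
      tF B Q T U F P k = 80 - 80 * (ncl B Q T U F P k : ℤ)) ∨
    ((1 ≤ ncl B Q T U F P k → ∑ L ∈ F.erase {x}, jh B Q k L + ncl B Q T U F P k = 3) ∧
      ∑ L ∈ F.erase {x}, jh B Q k L ≤ 4 ∧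
      ∃ l ∈ Trs B Q T (Rg B Q T U F) U F P,
        144 * (jC B Q l {{x}} : ℤ) - Xv 149 B Q T U F P l {{x}} ≤
          -5 * (jC B Q l {{x}} : ℤ) - 80) ∨
    (ncl B Q T U F P k = 0 ∧ ∑ L ∈ F.erase {x}, jh B Q k L = 3 ∧
      ∃ (i k0 : ι) (a b c : V), Pex3 B Q T U F k i k0 a b c x ∧ c ∈ B k0)) := by
  have hktl : k ∈ tl B Q T U F P := by
    have h1 : k ∈ aC B Q T U F P {{x}} := by rw [priv]; exact mem_singleton_self k
    exact (Sp.mem_atl.1 h1).1
  have hkT := (s.tl_sub hktl).1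
  have hx : {x} ∈ F := (s.part.ptn.vc _ xP).sub (mem_singleton_self _)
  have hxp : {{x}} ∈ par0 B U F := s.toStg.own_par xP
  have hxD : x ∈ Dp B Q T := s.frm.FD hx (mem_singleton_self x)
  have hxQ : x ∈ Q := Frm.DQ hxD
  have hfree := s.toStg.free_own hxp
  have hle6 : jh B Q k {x} ≤ 6 := s.mtr.toMTQ.point_six s.viol hkT hx hfree
  refine ⟨le_antisymm hle6 h6, ?_⟩
  rcases Nat.eq_zero_or_pos (ncl B Q T U F P k) with h0 | h0
  · have htw : ∀ p ∈ B k ∩ Q, (univ.filter fun k => x ∈ B k ∧ p ∈ B k).card ≤ 3 := by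
      intro p hp
      refine s.viol.twin hxQ (mem_inter.1 hp).2 ?_
      rintro rfl
      exact Frm.T_notD (Q := Q) hkT (mem_inter.1 hp).1 hxD
    rcases s.mtr.toMTQ.point_main3 s.viol.reg hkT hx hfree htw h6 with h1 | ⟨_, i, k0, a, b, c,
      h2, h3⟩
    · exact Or.inl ⟨h1, h0⟩
    have h3' : ∑ L ∈ F.erase {x}, jh B Q k L =
      mh B b ((F.erase {x}).biUnion id) + mh B c ((F.erase {x}).biUnion id) := h3
    have h4 := h2.hm3
    have h5 := h2.hm4
    by_cases hck : c ∈ B k0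
    · have h7 := h2.ck.resolve_left (fun h8 => h8 hck)
      exact Or.inr (Or.inr (Or.inr (Or.inr (Or.inr ⟨h0, by omega, i, k0, a, b, c, h2, hck⟩))))
    have hpx := h2.pxf hck
    obtain ⟨L, hL, hLx⟩ := hpx.c_sees_big g0 s.mtr s.viol.reg h4
    rcases s.pcl_or hpx g0 xP priv hK hN hL hLx with h7 | h7
    · obtain ⟨h8, h9⟩ := s.tF_big h7 (by omega)
      exact Or.inr (Or.inr (Or.inl ⟨by omega, by omega, h9, h8⟩))
    · exact Or.inr (Or.inr (Or.inr (Or.inr (Or.inl ⟨fun h8 => by omega, by omega, h7⟩))))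
  · rcases s.donor_six xP hktl h6 h0 with h1 | ⟨h1, i, k0, a, b, c, h2, ⟨L, hL, hLx⟩,
      j', i', k0', a', b', c', x', h3, h4, h5⟩
    · exact Or.inr (Or.inl ⟨h0, h1⟩)
    rcases s.pcl_or h2 g0 xP priv hK hN hL hLx with h7 | h7
    · have h8 : Cla B Q T U F P k i k0 a b c x :=
        ⟨h7, Or.inr ⟨j', i', k0', a', b', c', x', h3.1, h5⟩⟩
      exact Or.inr (Or.inr (Or.inr (Or.inl ⟨h0, h1, s.tF_own h8⟩)))
    · exact Or.inr (Or.inr (Or.inr (Or.inr (Or.inl ⟨fun _ => h1, by omega, h7⟩))))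

end StgR

end Pool.Agent.Hyp6
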