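import Pool.Agent.Hyp6.L3NS
import Pool.Agent.Hyp6.L3P6
import Pool.Agent.Hyp6.L3Fpj

/-!
# HYP6 L3NU: six hits on a point leaf at a node

`StgR.p6w_of`: six hits on a point leaf and three or more elsewhere leave no free place (`P6w`), if the
doubled pattern `c ∈ B k0` is impossible.
-/

set_option autoImplicit false

namespace Pool.Agent.Hyp6

open Finset Pool.Agent.Hyp5 Rt

universe u v

variable {V : Type v} [DecidableEq V] {ι : Type u} [Fintype ι] [DecidableEq ι]
  {B : ι → Finset V}

namespace StgR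

variable {Q U : Finset V} {T : Finset ι} {F : Finset (Finset V)}
  {P : Finset (Finset (Finset V))} {a : V → Finset (Finset V) → ℕ} {L : Finset V} {j : ι}

/-- **six hits on a point leaf**: no free place. -/
theorem p6w_of (s : StgR B Q T U F P a)
    (hdb : ∀ (j i k0 : ι) (a b c x : V), {{x}} ∈ P → j ∈ tl B Q T U F P →
      Pex3 B Q T U F j i k0 a b c x → c ∈ B k0 → hit B U {x} = 0 → False) :
    P6w B Q T U F P := by
  intro L hL hc hg j hj h6 ho
  obtain ⟨x, rfl⟩ := card_eq_one.1 hc
  have hLF := s.toStg.leafF hL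
  have hjT := (s.toStg.tl_sub hj).1
  have h6' : hit B (B j ∩ Q) {x} = 6 := h6
  rcases s.mtr.toMTQ.point_main3 s.viol.reg hjT hLF
    (s.toStg.free_own (s.toStg.own_par hL)) (fun p hp =>
      s.viol.twin (Frm.DQ (s.frm.FD hLF (mem_singleton_self x))) (mem_inter.1 hp).2
        fun h => s.frm.T_notin hjT hp hLF (mem_singleton.2 h.symm)) h6'.ge with
    h7 | ⟨_, i, k0, a', b, c, hP, hs⟩
  · have h8 : ∑ M ∈ F.erase {x}, hit B (B j ∩ Q) M = ∑ M ∈ F.erase {x}, jh B Q j M := rfl
    omega
  · by_cases hck : c ∈ B k0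
    · exact (hdb j i k0 a' b c x hL hj hP hck hg).elim
    · have hX := hP.pxf hck
      exact hX.fs_zero s.viol s.mtr hg (hX.c_sees_big hg s.mtr s.viol.reg hP.hm3)

end StgR

end Pool.Agent.Hyp6
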