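import Pool.Agent.Hyp6.L3Dn
import Pool.Agent.Hyp6.L3Fpj
import Pool.Agent.Hyp6.L3NU

/-!
# HYP6 L3Do: six hits on a private point, without the doubled pattern

`StgR.p6w`, `StgR.six_cases5`.
-/

set_option autoImplicit false

namespace Pool.Agent.Hyp6

open Finset Pool.Agent.Hyp5 Rt

universe u v

variable {V : Type v} [DecidableEq V] {ι : Type u} [Fintype ι] [DecidableEq ι]
  {B : ι → Finset V} {Q U : Finset V} {T : Finset ι} {F : Finset (Finset V)}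
  {P : Finset (Finset (Finset V))} {al : V → Finset (Finset V) → ℕ}

namespace StgR

theorem p6w (s : StgR B Q T U F P al) : P6w B Q T U F P := s.p6w_of s.no_dbl

/-- **a private point with six hits**, the five cases. -/
theorem six_cases5 (s : StgR B Q T U F P al) {x : V} {k : ι} (xP : {{x}} ∈ P)
    (priv : aC B Q T U F P {{x}} = {k})
    (hK : Sp.Kin (Rg B Q T U F) (slj B Q F) {{x}} = ∅) (hN : NCt B Q T U F P {{x}})
    (g0 : hit B U {x} = 0) (h6 : 6 ≤ jh B Q k {x}) :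
    jh B Q k {x} = 6 ∧
    ((∑ L ∈ F.erase {x}, jh B Q k L ≤ 2 ∧ ncl B Q T U F P k = 0) ∨
    (1 ≤ ncl B Q T U F P k ∧
      ∑ L ∈ F.erase {x}, jh B Q k L + ncl B Q T U F P k ≤ 2) ∨
    (3 ≤ ∑ L ∈ F.erase {x}, jh B Q k L ∧ ∑ L ∈ F.erase {x}, jh B Q k L ≤ 4 ∧
      ncl B Q T U F P k = 0 ∧ tF B Q T U F P k = 80) ∨
    (1 ≤ ncl B Q T U F P k ∧ ∑ L ∈ F.erase {x}, jh B Q k L + ncl B Q T U F P k = 3 ∧
      tF B Q T U F P k = 80 - 80 * (ncl B Q T U F P k : ℤ)) ∨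
    ((1 ≤ ncl B Q T U F P k → ∑ L ∈ F.erase {x}, jh B Q k L + ncl B Q T U F P k = 3) ∧
      ∑ L ∈ F.erase {x}, jh B Q k L ≤ 4 ∧
      ∃ l ∈ Trs B Q T (Rg B Q T U F) U F P,
        144 * (jC B Q l {{x}} : ℤ) - Xv 149 B Q T U F P l {{x}} ≤
          -5 * (jC B Q l {{x}} : ℤ) - 80)) := by
  obtain ⟨h0, h1⟩ := s.six_cases xP priv hK hN g0 h6
  refine ⟨h0, ?_⟩
  rcases h1 with h2 | h2 | h2 | h2 | h2 | ⟨_, _, i, k0, a, b, c, h3, h4⟩
  · exact Or.inl h2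
  · exact Or.inr (Or.inl h2)
  · exact Or.inr (Or.inr (Or.inl h2))
  · exact Or.inr (Or.inr (Or.inr (Or.inl h2)))
  · exact Or.inr (Or.inr (Or.inr (Or.inr h2)))
  · have h5 : k ∈ aC B Q T U F P {{x}} := by rw [priv]; exact mem_singleton_self k
    exact (s.no_dbl k i k0 a b c x xP (Sp.mem_atl.1 h5).1 h3 h4 g0).elim

end StgR

end Pool.Agent.Hyp6
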