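import Pool.Agent.Hyp6.L3NS

/-!
# HYP6 L3Dq: a class of rank three with four inside triples and leaves of type (3;1)

`Sp.fU`: the number of leaves minus the inside points of a set of leaves. `Par.exists_set`: leaves whose
parallel classes have rank `r` are in a set with `fU = r`. `Sp.four_false`: four sets with `fU` at most
two, such that any two of them contain a set all whose supersets in `C` have `fU` at least three.
`StgR.c34`: a class of rank three with four inside triples in which all leaves but one are of type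
(3;1), with at most one outer hit or free place, does not occur.
-/

set_option autoImplicit false

namespace Pool.Agent.Hyp6.Sp

open Finset

section

variable {L : Type*} [DecidableEq L] {α : Type*} [DecidableEq α] {τ : Type*} [DecidableEq τ]
  {F : Finset L} {U : Finset α} {N : α → Finset L} {Ts : Finset τ} {NT : τ → Finset L}
  {P P0 : Finset (Finset L)}

/-- the leaves minus the inside points. -/
def fU (U : Finset α) (N : α → Finset L) (S : Finset L) : ℤ := (S.card : ℤ) - (Uin U N S).card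

theorem fU_sub (S R : Finset L) : fU U N (S ∪ R) + fU U N (S ∩ R) ≤ fU U N S + fU U N R := by
  have h1 := card_union_add_card_inter S R
  have h2 := card_union_add_card_inter (Uin U N S) (Uin U N R)
  have h3 : Uin U N S ∪ Uin U N R ⊆ Uin U N (S ∪ R) := by
    intro u hu
    rcases mem_union.1 hu with h | h
    · exact mem_filter.2 ⟨(mem_filter.1 h).1, (mem_filter.1 h).2.trans subset_union_left⟩
    · exact mem_filter.2 ⟨(mem_filter.1 h).1, (mem_filter.1 h).2.trans subset_union_right⟩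
  have h4 : Uin U N S ∩ Uin U N R ⊆ Uin U N (S ∩ R) := by
    intro u hu
    obtain ⟨ha, hb⟩ := mem_inter.1 hu
    exact mem_filter.2 ⟨(mem_filter.1 ha).1, subset_inter (mem_filter.1 ha).2 (mem_filter.1 hb).2⟩
  have h5 := card_le_card h3
  have h6 := card_le_card h4
  unfold fU
  omega

omit [DecidableEq α] [DecidableEq τ] in
theorem Gd.fU_pos (hg : Gd F F U N Ts NT) {S : Finset L} (hne : S.Nonempty) :
    1 ≤ fU U N S := by
  have h3 : 0 < S.card := card_pos.2 hne
  unfold fU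
  rcases (Uin U N S).eq_empty_or_nonempty with h4 | h4
  · rw [h4, card_empty]
    omega
  · have h5 := (hg.sur (Uin U N S) (filter_subset _ _) h4).trans
      (card_le_card (inter_subset_left.trans (biUnion_subset.2 fun u hu => (mem_filter.1 hu).2)))
    omega

omit [DecidableEq τ] in
/-- **a class is closed.** -/
theorem MinP.fU_le [DecidableEq τ] (hg : Gd F F U N Ts NT) (h : MinP F F U N Ts NT P)
    {C S : Finset L} (hC : C ∈ P) (hCS : C ⊆ S) (hS : S ⊆ F) : fU U N C ≤ fU U N S := by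
  set A := met P S with hA
  set Y := (Uin U N S).filter (fun u => u ∈ Ux U N P) with hY
  have hAP : A ⊆ P := met_subset
  obtain ⟨x0, hx0⟩ := (h.ptn.vc C hC).ne
  have hCA : C ∈ A := mem_met.2 ⟨hC, not_disjoint_iff.2 ⟨x0, hCS hx0, hx0⟩⟩
  have h1 : Uin U N S ⊆ Y ∪ A.biUnion (fun C => Uin U N (S ∩ C)) := by
    intro u hu
    by_cases hx : u ∈ Ux U N P
    · exact mem_union_left _ (mem_filter.2 ⟨hu, hx⟩)
    · obtain ⟨hu1, hu2⟩ := mem_filter.1 hu
      have h2 : ∃ C ∈ P, N u ⊆ C := by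
        by_contra hcon
        push Not at hcon
        exact hx (mem_filter.2 ⟨hu1, hcon⟩)
      obtain ⟨C, hC, h3⟩ := h2
      obtain ⟨x, hxu⟩ := hg.N_ne hu1
      exact mem_union_right _ (mem_biUnion.2 ⟨C, mem_met.2 ⟨hC, not_disjoint_iff.2
        ⟨x, hu2 hxu, h3 hxu⟩⟩, mem_filter.2 ⟨hu1, subset_inter hu2 h3⟩⟩)
  have h2 : ∀ D ∈ A, (1 : ℤ) ≤ fU U N (S ∩ D) := by
    intro D hD
    obtain ⟨x, hx1, hx2⟩ := not_disjoint_iff.1 (mem_met.1 hD).2
    exact hg.fU_pos ⟨x, mem_inter.2 ⟨hx1, hx2⟩⟩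
  have h3 : ∑ C ∈ A, (S ∩ C).card = S.card := by
    rw [← card_biUnion]
    · congr 1
      ext x
      simp only [mem_biUnion, mem_inter]
      constructor
      · rintro ⟨_, _, hx, _⟩
        exact hx
      · intro hx
        have hxF := hS hx
        rw [← h.ptn.un] at hxF
        obtain ⟨C, hC, hxC⟩ := mem_biUnion.1 hxF
        exact ⟨C, mem_met.2 ⟨hC, not_disjoint_iff.2 ⟨x, hx, hxC⟩⟩, hx, hxC⟩
    · intro C hC D hD hne
      exact (h.ptn.dj C (hAP hC) D (hAP hD) hne).mono inter_subset_right inter_subset_right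
  have h4 : (Uin U N S).card ≤ Y.card + ∑ C ∈ A, (Uin U N (S ∩ C)).card :=
    (card_le_card h1).trans ((card_union_le _ _).trans (by
      have := card_biUnion_le (s := A) (t := fun C => Uin U N (S ∩ C))
      omega))
  have h5 : ∑ D ∈ A, fU U N (S ∩ D) ≤ (S.card : ℤ) - ∑ C ∈ A, (Uin U N (S ∩ C)).card := by
    unfold fU
    rw [sum_sub_distrib, ← h3]
    push_cast
    exact le_refl _
  have h6 : (Y.card : ℤ) ≤ nP U N P A := by
    have h7 := le_dfc (U := Ux U N P) (N := fun u => met P (N u)) (D := A) (B := Y)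
      (fun u hu => (mem_filter.1 hu).2)
    have h8 : (Y.biUnion (fun u => met P (N u))) \ A = ∅ := by
      rw [sdiff_eq_empty_iff_subset]
      refine biUnion_subset.2 fun u hu C hC => ?_
      obtain ⟨hC1, hC2⟩ := mem_met.1 hC
      exact mem_met.2 ⟨hC1, fun hd => hC2 (hd.mono_left (mem_filter.1 (mem_filter.1 hu).1).2)⟩
    rw [h8, card_empty] at h7
    unfold nP
    push_cast at h7
    linarith
  have h7 : (1 : ℤ) ≤ rkn (nP U N P) A := by
    have h8 := (h.nul hg).rk_mono (singleton_subset_iff.2 hCA)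
    have h9 : nP U N P {C} ≤ 0 := h.one hg C
    unfold rkn at h8 ⊢
    rw [card_singleton] at h8
    push_cast at h8
    linarith
  have h8 : fU U N C + ∑ D ∈ A.erase C, (1 : ℤ) ≤ ∑ D ∈ A, fU U N (S ∩ D) := by
    rw [← add_sum_erase A _ hCA, inter_eq_right.2 hCS]
    have := sum_le_sum (s := A.erase C) fun D hD => h2 D (mem_of_mem_erase hD)
    linarith
  rw [sum_const, nsmul_eq_mul, mul_one, card_erase_of_mem hCA] at h8
  have h9 := card_pos.2 ⟨C, hCA⟩
  unfold rkn at h7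
  have h10 : fU U N S = (S.card : ℤ) - (Uin U N S).card := rfl
  push_cast [Nat.cast_sub h9] at h8
  have h11 : ((Uin U N S).card : ℤ) ≤ Y.card + ∑ C ∈ A, ((Uin U N (S ∩ C)).card : ℤ) := by
    exact_mod_cast h4
  push_cast at h5
  rw [h10]
  linarith

omit [DecidableEq τ] in
/-- **leaves of rank `r` are in a set with `fU = r`**. -/
theorem Par.exists_set (hp : Par F U N P0) (hs : Sur F U N) {X : Finset L} (hX : X ⊆ F) {r : ℤ}
    (hr : rkn (nP U N P0) (met P0 X) ≤ r) : ∃ S ⊆ F, X ⊆ S ∧ fU U N S ≤ r := by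
  set X0 := clo (nP U N P0) P0 (met P0 X) with hX0
  have hX0P : X0 ⊆ P0 := clo_subset
  have hX0m : met P0 X ⊆ X0 := subset_clo met_subset
  set S := X0.biUnion id with hSd
  have hSF : S ⊆ F := biUnion_subset.2 fun D hD => hp.sub (hX0P hD)
  have hXS : X ⊆ S := (hp.ptn.sub_met hX hX0P).2 hX0m
  have h3 : S.card = ∑ D ∈ X0, ((Uin U N D).card + 1) := by
    rw [hSd, card_biUnion]
    · exact sum_congr rfl fun D hD => hp.card_eq hs (hX0P hD)
    · intro C hC D hD hne
      exact hp.dj (hX0P hC) (hX0P hD) hne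
  have h4 : ∑ D ∈ X0, (Uin U N D).card + (UU U N P0 X0).card ≤ (Uin U N S).card := by
    rw [← card_biUnion, ← card_union_of_disjoint]
    · refine card_le_card (union_subset ?_ ?_)
      · intro u hu
        obtain ⟨D, hD, hu⟩ := mem_biUnion.1 hu
        obtain ⟨hu1, hu2⟩ := mem_filter.1 hu
        exact mem_filter.2 ⟨hu1, hu2.trans (subset_biUnion_of_mem id hD)⟩
      · intro u hu
        obtain ⟨hu1, hu2⟩ := mem_filter.1 hu
        exact mem_filter.2 ⟨(mem_filter.1 hu1).1, hu2⟩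
    · rw [disjoint_left]
      intro u hu hu'
      obtain ⟨D, hD, hu⟩ := mem_biUnion.1 hu
      exact (mem_filter.1 (mem_filter.1 hu').1).2 D (hX0P hD) (mem_filter.1 hu).2
    · intro C hC D hD hne
      show Disjoint (Uin U N C) (Uin U N D)
      rw [disjoint_left]
      intro u hu hu'
      obtain ⟨hu1, hu2⟩ := mem_filter.1 hu
      obtain ⟨x, hx⟩ := Gd.N_ne hs hu1
      exact disjoint_left.1 (hp.dj (hX0P hC) (hX0P hD) hne) (hu2 hx) ((mem_filter.1 hu').2 hx)
  have h5 := (hp.nul hs).rk_clo (Vs := P0) (A := met P0 X) met_subset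
  have h6 := MinP.nP_clo hs hp (A := met P0 X) met_subset
  rw [← hX0] at h5 h6
  have h7 : rkn (nP U N P0) X0 = (X0.card : ℤ) - (UU U N P0 X0).card := by
    unfold rkn
    rw [h6]
  rw [sum_add_distrib, sum_const, smul_eq_mul, mul_one] at h3
  refine ⟨S, hSF, hXS, ?_⟩
  have h8 : fU U N S = (S.card : ℤ) - (Uin U N S).card := rfl
  omega

/-- **four sets of small rank**: any two of them contain the set `S0`, all whose supersets in `C` have
`fU` at least three. -/
theorem four_false {C S0 E1 E2 E3 E4 : Finset L}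
    (hpos : ∀ S ⊆ C, S.Nonempty → 1 ≤ fU U N S) (hbig : ∀ S, S0 ⊆ S → S ⊆ C → 3 ≤ fU U N S)
    (c1 : E1 ⊆ C) (c2 : E2 ⊆ C) (c3 : E3 ⊆ C) (c4 : E4 ⊆ C)
    (f1 : fU U N E1 ≤ 2) (f2 : fU U N E2 ≤ 2) (f3 : fU U N E3 ≤ 2) (f4 : fU U N E4 ≤ 2)
    (h12 : S0 ⊆ E1 ∪ E2) (h13 : S0 ⊆ E1 ∪ E3) (h23 : S0 ⊆ E2 ∪ E3)
    (h14 : S0 ⊆ E1 ∪ E4) (h24 : S0 ⊆ E2 ∪ E4) (h34 : S0 ⊆ E3 ∪ E4) : False := by
  have a1 := hbig _ h12 (union_subset c1 c2)
  have a2 := fU_sub (U := U) (N := N) E1 E2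
  have a3 : S0 ⊆ (E1 ∩ E2) ∪ E3 := by
    intro x hx
    rcases mem_union.1 (h13 hx) with h | h
    · rcases mem_union.1 (h23 hx) with h' | h'
      · exact mem_union_left _ (mem_inter.2 ⟨h, h'⟩)
      · exact mem_union_right _ h'
    · exact mem_union_right _ h
  have a4 := hbig _ a3 (union_subset (inter_subset_left.trans c1) c3)
  have a5 := fU_sub (U := U) (N := N) (E1 ∩ E2) E3
  have a6 : (E1 ∩ E2) ∩ E3 = ∅ := by
    by_contra hne
    have := hpos _ ((inter_subset_right).trans c3) (nonempty_iff_ne_empty.2 hne)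
    linarith
  have a7 : S0 ⊆ E4 := by
    intro x hx
    by_contra h4
    have b1 := (mem_union.1 (h14 hx)).resolve_right h4
    have b2 := (mem_union.1 (h24 hx)).resolve_right h4
    have b3 := (mem_union.1 (h34 hx)).resolve_right h4
    have b4 : x ∈ (E1 ∩ E2) ∩ E3 := mem_inter.2 ⟨mem_inter.2 ⟨b1, b2⟩, b3⟩
    rw [a6] at b4
    exact notMem_empty _ b4
  have a8 := hbig _ a7 c4
  linarith

end

end Pool.Agent.Hyp6.Sp

namespace Pool.Agent.Hyp6

open Finset Pool.Agent.Hyp5 Rt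

universe u v

variable {V : Type v} [DecidableEq V] {ι : Type u} [Fintype ι] [DecidableEq ι]
  {B : ι → Finset V} {Q U : Finset V} {T : Finset ι} {F : Finset (Finset V)}
  {P : Finset (Finset (Finset V))} {a : V → Finset (Finset V) → ℕ}

namespace Stg

/-- **an inside triple is in a set of leaves of the class of rank at most two**. -/
theorem kin_set (s : Stg B Q T U F P a) {C : Finset (Finset V)} (hC : C ∈ P) {k : ι}
    (hk : k ∈ Sp.Kin (Rg B Q T U F) (slj B Q F) C) :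
    ∃ E ⊆ C, slj B Q F k ⊆ E ∧ Sp.fU U (slf B F) E ≤ 2 := by
  obtain ⟨hkT, h0, h2, hne, hkC⟩ := s.kin.1 hk
  obtain ⟨S, hS, h3, h4⟩ := s.par.exists_set s.frm.sur slj_sub h2
  refine ⟨S ∩ C, inter_subset_right, subset_inter h3 hkC, ?_⟩
  have hCF : C ⊆ F := (s.part.ptn.vc C hC).sub
  have h5 := s.part.fU_le (s.frm.gdT (R := Rg B Q T U F)) hC
    (subset_union_right : C ⊆ S ∪ C) (union_subset hS hCF)
  have h6 := Sp.fU_sub (U := U) (N := slf B F) S C
  linarith

/-- the hits of all triples at a leaf of a class without line triple. -/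
theorem hits_kin (s : Stg B Q T U F P a) {C : Finset (Finset V)} (hC : C ∈ P)
    (ha : aC B Q T U F P C = ∅) {L : Finset V} (hL : L ∈ C) :
    ∑ j ∈ T, (jh B Q j L : ℤ) ≤ ∑ k ∈ Sp.Kin (Rg B Q T U F) (slj B Q F) C, (jh B Q k L : ℤ) +
      ∑ j ∈ Trs B Q T (Rg B Q T U F) U F P, (jC B Q j C : ℤ) := by
  classical
  have hKT : Sp.Kin (Rg B Q T U F) (slj B Q F) C ⊆ T := fun k hk => (s.kin.1 hk).1
  have h1 : ∑ j ∈ T, (jh B Q j L : ℤ) = ∑ k ∈ Sp.Kin (Rg B Q T U F) (slj B Q F) C,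
      (jh B Q k L : ℤ) + ∑ j ∈ T \ Sp.Kin (Rg B Q T U F) (slj B Q F) C, (jh B Q j L : ℤ) := by
    rw [add_comm, sum_sdiff hKT]
  rw [h1]
  have hle : ∀ j, (jh B Q j L : ℤ) ≤ jC B Q j C := by
    intro j
    have : jh B Q j L ≤ jC B Q j C :=
      single_le_sum (f := fun L => jh B Q j L) (fun _ _ => Nat.zero_le _) hL
    exact_mod_cast this
  have h2 : ∑ j ∈ T \ Sp.Kin (Rg B Q T U F) (slj B Q F) C, (jh B Q j L : ℤ) ≤
      ∑ j ∈ Trs B Q T (Rg B Q T U F) U F P, (jC B Q j C : ℤ) := by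
    have h3 : ∀ j ∈ T \ Sp.Kin (Rg B Q T U F) (slj B Q F) C,
        j ∉ Trs B Q T (Rg B Q T U F) U F P → (jh B Q j L : ℤ) = 0 := by
      intro j hj hnt
      obtain ⟨hjT, hjK⟩ := mem_sdiff.1 hj
      have h0 : jC B Q j C = 0 := by
        refine s.frm.jC_zero s.part hC hjT fun hm => ?_
        by_cases h2 : j ∈ tl B Q T U F P
        · have h4 : j ∈ aC B Q T U F P C := by
            exact Sp.mem_atl.2 ⟨h2, Sp.met_sub_lx hm⟩
          rw [ha] at h4
          exact notMem_empty _ h4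
        · by_cases h3 : j ∈ P.biUnion (Sp.Kin (Rg B Q T U F) (slj B Q F))
          · obtain ⟨D, hD, hjD⟩ := mem_biUnion.1 h3
            have hDC : C ≠ D := by
              rintro rfl
              exact hjK hjD
            have h5 := (s.kin.1 hjD).2.2.2.2
            exact (Sp.mem_met.1 hm).2
              ((s.part.ptn.dj C hC D hD hDC).symm.mono_left h5)
          · exact hnt (mem_sdiff.2 ⟨mem_sdiff.2 ⟨hjT, h3⟩, h2⟩)
      have := hle j
      rw [h0] at this
      push_cast at this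
      have h5 : (0 : ℤ) ≤ jh B Q j L := by positivity
      linarith
    calc ∑ j ∈ T \ Sp.Kin (Rg B Q T U F) (slj B Q F) C, (jh B Q j L : ℤ)
        = ∑ j ∈ (T \ Sp.Kin (Rg B Q T U F) (slj B Q F) C).filter
            (fun j => j ∈ Trs B Q T (Rg B Q T U F) U F P), (jh B Q j L : ℤ) := by
          rw [sum_filter]
          refine sum_congr rfl fun j hj => ?_
          split_ifs with h4
          · rfl
          · exact h3 j hj h4
      _ ≤ ∑ j ∈ (T \ Sp.Kin (Rg B Q T U F) (slj B Q F) C).filter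
            (fun j => j ∈ Trs B Q T (Rg B Q T U F) U F P), (jC B Q j C : ℤ) :=
          sum_le_sum fun j _ => hle j
      _ ≤ _ := sum_le_sum_of_subset_of_nonneg (fun j hj => (mem_filter.1 hj).2)
          fun _ _ _ => by positivity
  linarith

/-- the hits of `U` at a leaf which no inside point sees. -/
theorem hitU_out (s : Stg B Q T U F P a) {C : Finset (Finset V)} (hC : C ∈ P) {L : Finset V}
    (hL : L ∈ C) (hn : ∀ u ∈ Sp.Uin U (slf B F) C, L ∉ slf B F u) :
    hit B U L ≤ gC B U F P C := by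
  have hLF : L ∈ F := (s.part.ptn.vc C hC).sub hL
  rw [Frm.hit_U_sum]
  have h1 : ∀ u ∈ U, u ∉ Sp.Ux U (slf B F) P → uh B u L = 0 := by
    intro u hu hx
    by_contra h0
    have h2 : L ∈ slf B F u := s.frm.slf_of_hit hLF (s.frm.U_notin hu hLF) h0
    have h3 : ∃ D ∈ P, slf B F u ⊆ D := by
      by_contra hcon
      push Not at hcon
      exact hx (mem_filter.2 ⟨hu, hcon⟩)
    obtain ⟨D, hD, h4⟩ := h3
    have h5 : D = C := by
      by_contra hne
      exact disjoint_left.1 (s.part.ptn.dj D hD C hC hne) (h4 h2) hL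
    subst h5
    exact hn u (mem_filter.2 ⟨hu, h4⟩) h2
  have h2 : ∑ u ∈ U, uh B u L = ∑ u ∈ Sp.Ux U (slf B F) P, uh B u L := by
    refine (sum_subset (filter_subset _ _) fun u hu hx => h1 u hu hx).symm
  rw [h2]
  unfold gC
  exact sum_le_sum fun u _ =>
    single_le_sum (f := fun L => uh B u L) (fun _ _ => Nat.zero_le _) hL

end Stg

namespace StgR

/-- **a class of rank three with four inside triples in which all leaves but one are of type (3;1)**,
with at most one outer hit or free place, does not occur. -/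
theorem c34 (s : StgR B Q T U F P a) (hF : Few B Q T F) (hG : G31 B Q T U F)
    {C : Finset (Finset V)} (hC : C ∈ P)
    (hr : (C.card : ℤ) - (Sp.Uin U (slf B F) C).card = 3)
    (hK : (Sp.Kin (Rg B Q T U F) (slj B Q F) C).card = 4) (ha : aC B Q T U F P C = ∅)
    (hy : (gC B U F P C : ℤ) + ∑ j ∈ Trs B Q T (Rg B Q T U F) U F P, (jC B Q j C : ℤ) +
      ∑ L ∈ C, fs B Q L ≤ 1)
    {M : Finset V} (hM : M ∈ C) (h31 : ∀ L ∈ C, L ≠ M → L.card = 3 ∧ nt B L 1 = 1) : False := by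
  classical
  have hCF : C ⊆ F := (s.part.ptn.vc C hC).sub
  have hgd := s.frm.gdT (R := Rg B Q T U F)
  have hfs0 : ∀ L ∈ C, 0 ≤ fs B Q L := by
    intro L hL
    have h1 := (s.toStg.one (hCF hL)).f0
    have h2 := (s.toStg.one (hCF hL)).e0
    linarith
  have hfs : ∀ L ∈ C, fs B Q L ≤ ∑ L ∈ C, fs B Q L := fun L hL =>
    single_le_sum (f := fun L => fs B Q L) hfs0 hL
  have hfs1 : 0 ≤ ∑ L ∈ C, fs B Q L := sum_nonneg hfs0
  have hT0 : (0 : ℤ) ≤ ∑ j ∈ Trs B Q T (Rg B Q T U F) U F P, (jC B Q j C : ℤ) :=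
    sum_nonneg fun _ _ => by positivity
  -- a leaf of type (3;1) and two triples
  have hA : ∀ L ∈ C, L.card = 3 → nt B L 1 = 1 → ∀ i ∈ T, ∀ j ∈ T, i ≠ j →
      ∑ k ∈ Sp.Kin (Rg B Q T U F) (slj B Q F) C, (jh B Q k L : ℤ) ≤
        jh B Q i L + jh B Q j L → False := by
    intro L hL hc3 h1 i hi j hj hij hle
    have hLF := hCF hL
    obtain ⟨e1, e2, -, -, -, -, -, e3, e4, e5, e6, -, e8⟩ := s.toStg.one hLF
    have h2 := s.toStg.hits_kin hC ha hL
    have h3 := hfs L hL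
    have hd : dv B Q L = -1 := by
      have h1' := Pv_eq_Pp (B := B) L
      rw [s.frm.sv_leaf hLF] at h1'
      unfold dv
      rw [hc3, h1] at e1
      push_cast at e1
      have : (ee B Q L : ℤ) = 0 := by linarith
      rw [this]
      linarith
    rw [hc3, h1] at e1
    rw [h1] at e2 e6
    push_cast at e1 e2 e6
    have hU : hit B U L ≤ 2 := by
      have : (hit B U L : ℤ) ≤ 2 := by linarith
      exact_mod_cast this
    have h4 : (jh B Q i L : ℤ) + jh B Q j L ≤ 6 := by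
      have g1 := hG L hLF hc3 h1 hd hU i hi
      have g2 := hG L hLF hc3 h1 hd hU j hj
      change 4 ≤ jh B Q i L → jh B Q i L ≤ 4 ∧ ∀ j' ∈ T, i ≠ j' → jh B Q j' L ≤ 2 at g1
      change 4 ≤ jh B Q j L → jh B Q j L ≤ 4 ∧ ∀ j' ∈ T, j ≠ j' → jh B Q j' L ≤ 2 at g2
      have h5 : jh B Q i L + jh B Q j L ≤ 6 := by
        by_cases a1 : 4 ≤ jh B Q i L
        · obtain ⟨b1, b2⟩ := g1 a1
          have := b2 j hj hij
          omega
        · by_cases a2 : 4 ≤ jh B Q j L
          · obtain ⟨b1, b2⟩ := g2 a2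
            have := b2 i hi hij.symm
            omega
          · omega
      exact_mod_cast h5
    have h6 : (0 : ℤ) ≤ gC B U F P C := by positivity
    linarith
  -- a leaf which no inside point sees and two triples
  have hB : (∀ u ∈ Sp.Uin U (slf B F) C, M ∉ slf B F u) → ∀ i ∈ T, ∀ j ∈ T, i ≠ j →
      ∑ k ∈ Sp.Kin (Rg B Q T U F) (slj B Q F) C, (jh B Q k M : ℤ) ≤
        jh B Q i M + jh B Q j M → False := by
    intro hn i hi j hj hij hle
    have hMF := hCF hM
    have hd := s.viol.leaf_dv s.frm hMF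
    obtain ⟨e1, e2, e9, e10, e11, e12, e13, e3, e4, e5, e6, -, e8⟩ := s.toStg.one hMF
    have h2 := s.toStg.hits_kin hC ha hM
    have h3 := hfs M hM
    have h4 := s.toStg.hitU_out hC hM hn
    have h4' : (hit B U M : ℤ) ≤ gC B U F P C := by exact_mod_cast h4
    obtain ⟨w2, ⟨f1, f2, -, f4⟩, f5⟩ := s.toStg.few2 hF hMF hi hj hij
    have he : (ee B Q M : ℤ) = 0 := by linarith
    rw [he] at f1 f2 f4 e8
    have hw : w2 ≤ 1 := by linarith
    have hw2 : w2 + fs B Q M ≤ 1 := by linarith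
    clear h2 h3 h4 h4' hle hy hd
    rcases (by omega : Pp B M - 1 - 2 * 0 = -1 ∨ Pp B M - 1 - 2 * 0 = 1 ∨
      3 ≤ Pp B M - 1 - 2 * 0) with g | g | g
    · have := f1 g hw
      omega
    · have := f2 g hw
      omega
    · have := f4 g
      omega
  -- four triples
  obtain ⟨k4, hk4⟩ := card_pos.1 (show 0 < (Sp.Kin (Rg B Q T U F) (slj B Q F) C).card by omega)
  obtain ⟨k1, k2, k3, n12, n13, n23, hK3⟩ := card_eq_three.1
    (show ((Sp.Kin (Rg B Q T U F) (slj B Q F) C).erase k4).card = 3 by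
      rw [card_erase_of_mem hk4]; omega)
  have m1 : k1 ∈ (Sp.Kin (Rg B Q T U F) (slj B Q F) C).erase k4 := by rw [hK3]; simp
  have m2 : k2 ∈ (Sp.Kin (Rg B Q T U F) (slj B Q F) C).erase k4 := by rw [hK3]; simp
  have m3 : k3 ∈ (Sp.Kin (Rg B Q T U F) (slj B Q F) C).erase k4 := by rw [hK3]; simp
  obtain ⟨n14, hk1⟩ := mem_erase.1 m1
  obtain ⟨n24, hk2⟩ := mem_erase.1 m2
  obtain ⟨n34, hk3⟩ := mem_erase.1 m3
  have hsum : ∀ L, ∑ k ∈ Sp.Kin (Rg B Q T U F) (slj B Q F) C, (jh B Q k L : ℤ) =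
      jh B Q k4 L + (jh B Q k1 L + (jh B Q k2 L + jh B Q k3 L)) := by
    intro L
    rw [← add_sum_erase _ _ hk4, hK3, sum_insert (by simp [n12, n13]), sum_pair n23]
  have t1 := (s.toStg.kin.1 hk1).1
  have t2 := (s.toStg.kin.1 hk2).1
  have t3 := (s.toStg.kin.1 hk3).1
  have t4 := (s.toStg.kin.1 hk4).1
  obtain ⟨E1, c1, s1, f1⟩ := s.toStg.kin_set hC hk1
  obtain ⟨E2, c2, s2, f2⟩ := s.toStg.kin_set hC hk2
  obtain ⟨E3, c3, s3, f3⟩ := s.toStg.kin_set hC hk3
  obtain ⟨E4, c4, s4, f4⟩ := s.toStg.kin_set hC hk4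
  have hz : ∀ L ∈ C, ∀ k ∈ T, ∀ E : Finset (Finset V), slj B Q F k ⊆ E → L ∉ E →
      (jh B Q k L : ℤ) = 0 := by
    intro L hL k hk E hE hLE
    by_contra h0
    exact hLE (hE (s.frm.slj_of_hit (hCF hL) hk (by exact_mod_cast h0)))
  -- the leaves which are seen by three triples
  have hthree : ∀ L ∈ C, (∀ i ∈ T, ∀ j ∈ T, i ≠ j →
      ∑ k ∈ Sp.Kin (Rg B Q T U F) (slj B Q F) C, (jh B Q k L : ℤ) ≤
        jh B Q i L + jh B Q j L → False) →
      L ∈ E1 ∪ E2 ∧ L ∈ E1 ∪ E3 ∧ L ∈ E2 ∪ E3 ∧ L ∈ E1 ∪ E4 ∧ L ∈ E2 ∪ E4 ∧ L ∈ E3 ∪ E4 := by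
    intro L hL h
    have z1 := hz L hL k1 t1 E1 s1
    have z2 := hz L hL k2 t2 E2 s2
    have z3 := hz L hL k3 t3 E3 s3
    have z4 := hz L hL k4 t4 E4 s4
    have hs := hsum L
    refine ⟨?_, ?_, ?_, ?_, ?_, ?_⟩ <;> by_contra hn <;> rw [mem_union, not_or] at hn
    · exact h k3 t3 k4 t4 n34 (by have := z1 hn.1; have := z2 hn.2; linarith)
    · exact h k2 t2 k4 t4 n24 (by have := z1 hn.1; have := z3 hn.2; linarith)
    · exact h k1 t1 k4 t4 n14 (by have := z2 hn.1; have := z3 hn.2; linarith)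
    · exact h k2 t2 k3 t3 n23 (by have := z1 hn.1; have := z4 hn.2; linarith)
    · exact h k1 t1 k3 t3 n13 (by have := z2 hn.1; have := z4 hn.2; linarith)
    · exact h k1 t1 k2 t2 n12 (by have := z3 hn.1; have := z4 hn.2; linarith)
  have hpos : ∀ S ⊆ C, S.Nonempty → 1 ≤ Sp.fU U (slf B F) S := fun S _ hne => hgd.fU_pos hne
  have hfC : Sp.fU U (slf B F) C = 3 := hr
  by_cases hn : ∀ u ∈ Sp.Uin U (slf B F) C, M ∉ slf B F u
  · have hall : ∀ L ∈ C, L ∈ E1 ∪ E2 ∧ L ∈ E1 ∪ E3 ∧ L ∈ E2 ∪ E3 ∧ L ∈ E1 ∪ E4 ∧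
        L ∈ E2 ∪ E4 ∧ L ∈ E3 ∪ E4 := by
      intro L hL
      by_cases hLM : L = M
      · subst hLM
        exact hthree L hL (hB hn)
      · obtain ⟨g1, g2⟩ := h31 L hL hLM
        exact hthree L hL (hA L hL g1 g2)
    refine Sp.four_false (S0 := C) hpos (fun S h1 h2 => ?_) c1 c2 c3 c4 f1 f2 f3 f4
      (fun L hL => (hall L hL).1) (fun L hL => (hall L hL).2.1) (fun L hL => (hall L hL).2.2.1)
      (fun L hL => (hall L hL).2.2.2.1) (fun L hL => (hall L hL).2.2.2.2.1)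
      (fun L hL => (hall L hL).2.2.2.2.2)
    rw [Subset.antisymm h2 h1, hfC]
  · push Not at hn
    obtain ⟨u, hu, hMu⟩ := hn
    have hall : ∀ L ∈ C.erase M, L ∈ E1 ∪ E2 ∧ L ∈ E1 ∪ E3 ∧ L ∈ E2 ∪ E3 ∧ L ∈ E1 ∪ E4 ∧
        L ∈ E2 ∪ E4 ∧ L ∈ E3 ∪ E4 := by
      intro L hL
      obtain ⟨g1, g2⟩ := h31 L (mem_of_mem_erase hL) (ne_of_mem_erase hL)
      exact hthree L (mem_of_mem_erase hL) (hA L (mem_of_mem_erase hL) g1 g2)
    refine Sp.four_false (S0 := C.erase M) hpos (fun S h1 h2 => ?_) c1 c2 c3 c4 f1 f2 f3 f4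
      (fun L hL => (hall L hL).1) (fun L hL => (hall L hL).2.1) (fun L hL => (hall L hL).2.2.1)
      (fun L hL => (hall L hL).2.2.2.1) (fun L hL => (hall L hL).2.2.2.2.1)
      (fun L hL => (hall L hL).2.2.2.2.2)
    by_cases hMS : M ∈ S
    · have h3 : S = C := by
        refine Subset.antisymm h2 fun L hL => ?_
        by_cases hLM : L = M
        · rw [hLM]
          exact hMS
        · exact h1 (mem_erase.2 ⟨hLM, hL⟩)
      rw [h3, hfC]
    · have h3 : S = C.erase M := by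
        refine Subset.antisymm (fun L hL => mem_erase.2 ⟨?_, h2 hL⟩) h1
        rintro rfl
        exact hMS hL
      rw [h3]
      have h4 : Sp.Uin U (slf B F) (C.erase M) ⊆ (Sp.Uin U (slf B F) C).erase u := by
        intro w hw
        obtain ⟨hw1, hw2⟩ := mem_filter.1 hw
        refine mem_erase.2 ⟨?_, mem_filter.2 ⟨hw1, hw2.trans (erase_subset _ _)⟩⟩
        rintro rfl
        exact (mem_erase.1 (hw2 hMu)).1 rfl
      have h5 := card_le_card h4
      rw [card_erase_of_mem hu] at h5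
      have h6 := card_pos.2 ⟨u, hu⟩
      have h7 : (C.erase M).card = C.card - 1 := card_erase_of_mem hM
      have h8 := card_pos.2 ⟨M, hM⟩
      have h9 : Sp.fU U (slf B F) (C.erase M) = ((C.erase M).card : ℤ) -
        (Sp.Uin U (slf B F) (C.erase M)).card := rfl
      omega

end StgR

end Pool.Agent.Hyp6
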