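import Pool.Agent.Hyp6.L3Tz

/-!
# HYP6 L3Dr: the cut lemma with switches

A switch: a triple `j = {a, b, c}` of the packing, a point leaf `{x}`, a block with `x, b, c` and a block
with `a, s`. The two blocks cover `a, b, c, x` and the point `s`. `Frm.cut_sw`: the cut lemma, the points
`R` of switches are covered for free.
-/

set_option autoImplicit false

namespace Pool.Agent.Hyp6

open Finset Pool.Agent.Hyp5

universe u v

variable {V : Type v} [DecidableEq V] {ι : Type u} {B : ι → Finset V}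

/-- a switch of the triple `j` at the point leaf `x`, which can cover `s`. -/
def Swi (B : ι → Finset V) (Q : Finset V) (T : Finset ι) (F : Finset (Finset V)) (j : ι)
    (x s : V) : Prop :=
  j ∈ T ∧ {x} ∈ F ∧ ∃ i k0 : ι, ∃ a b c : V, B j ∩ Q = {a, b, c} ∧ x ∈ B i ∧ b ∈ B i ∧ c ∈ B i ∧
    a ∈ B k0 ∧ s ∈ B k0

variable [Fintype ι] {Q U : Finset V} {T : Finset ι} {F : Finset (Finset V)}

omit [Fintype ι] in
/-- the switches cover their triples, leaves and points with two blocks each. -/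
theorem exists_sw_cover {R : Finset V} {jf : V → ι} {xf : V → V}
    (hR : ∀ s ∈ R, Swi B Q T F (jf s) (xf s) s) :
    ∃ K : Finset ι, K.card ≤ 2 * R.card ∧ ∀ s ∈ R, s ∈ K.biUnion B ∧ xf s ∈ K.biUnion B ∧
      B (jf s) ∩ Q ⊆ K.biUnion B := by
  classical
  induction R using Finset.induction_on with
  | empty => exact ⟨∅, by simp, fun s hs => absurd hs (notMem_empty _)⟩
  | insert s R hs ih =>
    obtain ⟨K, h1, h2⟩ := ih fun s' hs' => hR s' (mem_insert_of_mem hs')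
    obtain ⟨_, _, i, k0, a, b, c, hj, hxi, hbi, hci, hak, hsk⟩ := hR s (mem_insert_self s R)
    refine ⟨insert i (insert k0 K), ?_, ?_⟩
    · have h3 := card_insert_le i (insert k0 K)
      have h4 := card_insert_le k0 K
      rw [card_insert_of_notMem hs]
      omega
    · have hsub : K.biUnion B ⊆ (insert i (insert k0 K)).biUnion B :=
        biUnion_subset_biUnion_of_subset_left _
          ((subset_insert _ _).trans (subset_insert _ _))
      have hi : ∀ v ∈ B i, v ∈ (insert i (insert k0 K)).biUnion B := fun v hv =>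
        mem_biUnion.2 ⟨i, mem_insert_self _ _, hv⟩
      have hk : ∀ v ∈ B k0, v ∈ (insert i (insert k0 K)).biUnion B := fun v hv =>
        mem_biUnion.2 ⟨k0, mem_insert_of_mem (mem_insert_self _ _), hv⟩
      intro s' hs'
      rcases mem_insert.1 hs' with rfl | hs'
      · refine ⟨hk _ hsk, hi _ hxi, ?_⟩
        rw [hj]
        intro v hv
        rw [mem_insert, mem_insert, mem_singleton] at hv
        rcases hv with rfl | rfl | rfl
        · exact hk _ hak
        · exact hi _ hbi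
        · exact hi _ hci
      · obtain ⟨h3, h4, h5⟩ := h2 s' hs'
        exact ⟨hsub h3, hsub h4, h5.trans hsub⟩

namespace Frm

/-- **the cut lemma with switches**: the points `R` are covered by switches outside the piece. -/
theorem cut_sw (h : Frm B Q T U F) {A : Finset (Finset V)} (hA : A ⊆ F) {D : Finset V}
    (hD : Dcl B Q T U F D) {T' : Finset ι} (hT' : T' ⊆ T) {U' : Finset V} (hU' : U' ⊆ U)
    {g' : V → Finset V} (hg' : MtI B U' A g') {I : Finset ι} (hI : I ⊆ T) (hIT : Disjoint I T')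
    {P M : Finset V} (hP : P ⊆ Q) (hM : M ⊆ Q) (hcU : ∀ v ∈ U, v ∉ U' → v ∈ P ∨ v ∈ M)
    {R : Finset V} (hcI : ∀ j ∈ I, ∀ v ∈ B j ∩ Q, v ∈ P ∨ v ∈ M ∨ v ∈ R)
    (hMd : ∀ C ∈ F, C ∉ A → Disjoint C M) {jf : V → ι} {xf : V → V}
    (hR : ∀ s ∈ R, Swi B Q T F (jf s) (xf s) s) (hjT : ∀ s ∈ R, jf s ∉ T' ∧ jf s ∉ I)
    (hji : ∀ s ∈ R, ∀ t ∈ R, jf s = jf t → s = t)
    (hxi : ∀ s ∈ R, ∀ t ∈ R, xf s = xf t → s = t) (hxA : ∀ s ∈ R, {xf s} ∉ A)
    {g : V → Finset V} (hg : MtI B M ((F \ A) \ R.image (fun s => {xf s})) g) :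
    rho B (Zn B Q T' U' A D) + I.card ≤ rho B (Zn B Q T' U' A D ∪ P) := by
  classical
  obtain ⟨K, hK1, hK2⟩ := exists_sw_cover hR
  set X := R.image (fun s => ({xf s} : Finset V)) with hX
  set J := R.image jf with hJ
  have hUQ : U ⊆ Q := h.UD.trans DQ
  have hZQ : Zn B Q T' U' A D ⊆ Q := h.Zn_sub hA (hU'.trans hUQ) hD.sub
  have h1 : rho B (Zn B Q T' U' A D) ≤ ∑ C ∈ A, rho B C + rho B D + T'.card :=
    h.rho_Zn_le hA (hU'.trans hUQ) hD.sub
      (fun C hC => disjoint_of_subset_right hU' (h.ge.FU C (hA hC))) hg'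
  have h2 : rho B (Zn B Q (((T \ T') \ I) \ J) M ((F \ A) \ X) (Ep B Q T U F \ D)) ≤
      ∑ C ∈ (F \ A) \ X, rho B C + rho B (Ep B Q T U F \ D) + (((T \ T') \ I) \ J).card :=
    h.rho_Zn_le (sdiff_subset.trans sdiff_subset) hM sdiff_subset
      (fun C hC => hMd C (mem_sdiff.1 (mem_sdiff.1 hC).1).1 (mem_sdiff.1 (mem_sdiff.1 hC).1).2) hg
  have hrQ : Zn B Q (((T \ T') \ I) \ J) M ((F \ A) \ X) (Ep B Q T U F \ D) ⊆ Q :=
    h.Zn_sub (sdiff_subset.trans sdiff_subset) hM sdiff_subset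
  set G := K.biUnion B ∩ Q with hG
  have hGQ : G ⊆ Q := inter_subset_right
  have hGr : rho B G ≤ 2 * R.card := (rho_le (T := K) inter_subset_left).trans hK1
  have h3 : rho B Q ≤ rho B ((Zn B Q T' U' A D ∪ P) ∪
      (Zn B Q (((T \ T') \ I) \ J) M ((F \ A) \ X) (Ep B Q T U F \ D) ∪ G)) := by
    refine rho_mono ?_ (h.cov.mono (union_subset (union_subset hZQ hP) (union_subset hrQ hGQ)))
    intro v hv
    simp only [mem_union, mem_Zn]
    by_cases hvG : v ∈ G
    · exact Or.inr (Or.inr hvG)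
    have hnG : ∀ s ∈ R, v ≠ s ∧ v ≠ xf s ∧ v ∉ B (jf s) := by
      intro s hs
      obtain ⟨k1, k2, k3⟩ := hK2 s hs
      refine ⟨?_, ?_, ?_⟩
      · rintro rfl
        exact hvG (mem_inter.2 ⟨k1, hv⟩)
      · rintro rfl
        exact hvG (mem_inter.2 ⟨k2, hv⟩)
      · intro hvj
        exact hvG (mem_inter.2 ⟨k3 (mem_inter.2 ⟨hvj, hv⟩), hv⟩)
    by_cases hvT : v ∈ T.biUnion B
    · obtain ⟨j, hj, hvj⟩ := mem_biUnion.1 hvT
      by_cases hjT : j ∈ T'
      · exact Or.inl (Or.inl (Or.inl ⟨j, hjT, hvj, hv⟩))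
      · by_cases hjI : j ∈ I
        · rcases hcI j hjI v (mem_inter.2 ⟨hvj, hv⟩) with h4 | h4 | h4
          · exact Or.inl (Or.inr h4)
          · exact Or.inr (Or.inl (Or.inr (Or.inl h4)))
          · exact absurd rfl (hnG v h4).1
        · have hjJ : j ∉ J := by
            intro h4
            obtain ⟨s, hs, rfl⟩ := mem_image.1 h4
            exact (hnG s hs).2.2 hvj
          exact Or.inr (Or.inl (Or.inl ⟨j, mem_sdiff.2 ⟨mem_sdiff.2 ⟨mem_sdiff.2 ⟨hj, hjT⟩, hjI⟩,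
            hjJ⟩, hvj, hv⟩))
    by_cases hvU : v ∈ U
    · by_cases hvU' : v ∈ U'
      · exact Or.inl (Or.inl (Or.inr (Or.inl hvU')))
      · rcases hcU v hvU hvU' with h4 | h4
        · exact Or.inl (Or.inr h4)
        · exact Or.inr (Or.inl (Or.inr (Or.inl h4)))
    by_cases hvF : v ∈ F.biUnion id
    · obtain ⟨C, hC, hvC⟩ := mem_biUnion.1 hvF
      by_cases hCA : C ∈ A
      · exact Or.inl (Or.inl (Or.inr (Or.inr (Or.inl ⟨C, hCA, hvC⟩))))
      · have hCX : C ∉ X := by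
          intro h4
          obtain ⟨s, hs, rfl⟩ := mem_image.1 h4
          exact (hnG s hs).2.1 (mem_singleton.1 hvC)
        exact Or.inr (Or.inl (Or.inr (Or.inr (Or.inl ⟨C, mem_sdiff.2 ⟨mem_sdiff.2 ⟨hC, hCA⟩,
          hCX⟩, hvC⟩))))
    · have hvE : v ∈ Ep B Q T U F :=
        mem_sdiff.2 ⟨mem_sdiff.2 ⟨mem_sdiff.2 ⟨hv, hvT⟩, hvU⟩, hvF⟩
      by_cases hvD : v ∈ D
      · exact Or.inl (Or.inl (Or.inr (Or.inr (Or.inr hvD))))
      · exact Or.inr (Or.inl (Or.inr (Or.inr (Or.inr (mem_sdiff.2 ⟨hvE, hvD⟩)))))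
  have h4 := rho_union_le (B := B) (W := Zn B Q T' U' A D ∪ P)
    (W' := Zn B Q (((T \ T') \ I) \ J) M ((F \ A) \ X) (Ep B Q T U F \ D) ∪ G)
    (h.cov.mono (union_subset hZQ hP)) (h.cov.mono (union_subset hrQ hGQ))
  have h4' := rho_union_le (B := B)
    (W := Zn B Q (((T \ T') \ I) \ J) M ((F \ A) \ X) (Ep B Q T U F \ D)) (W' := G)
    (h.cov.mono hrQ) (h.cov.mono hGQ)
  have h5 := h.rho_split
  have h6 := h.rho_dcl hD
  have hXF : X ⊆ F \ A := by
    intro C hC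
    obtain ⟨s, hs, rfl⟩ := mem_image.1 hC
    exact mem_sdiff.2 ⟨(hR s hs).2.1, hxA s hs⟩
  have hJT : J ⊆ (T \ T') \ I := by
    intro j hj
    obtain ⟨s, hs, rfl⟩ := mem_image.1 hj
    exact mem_sdiff.2 ⟨mem_sdiff.2 ⟨(hR s hs).1, (hjT s hs).1⟩, (hjT s hs).2⟩
  have hXc : X.card = R.card := card_image_of_injOn fun s hs t ht he =>
    hxi s hs t ht (singleton_injective he)
  have hJc : J.card = R.card := card_image_of_injOn fun s hs t ht he => hji s hs t ht he
  have hXr : X.card ≤ ∑ C ∈ X, rho B C := by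
    rw [card_eq_sum_ones]
    refine sum_le_sum fun C hC => ?_
    obtain ⟨s, hs, rfl⟩ := mem_image.1 hC
    exact rho_pos (h.covF _ (hR s hs).2.1) (singleton_nonempty _)
  have h7 : ∑ C ∈ F \ A, rho B C + ∑ C ∈ A, rho B C = ∑ C ∈ F, rho B C := sum_sdiff hA
  have h7' : ∑ C ∈ (F \ A) \ X, rho B C + ∑ C ∈ X, rho B C = ∑ C ∈ F \ A, rho B C :=
    sum_sdiff hXF
  have h8 := card_sdiff_add_card_eq_card hT'
  have h9 : I ⊆ T \ T' := fun j hj => mem_sdiff.2 ⟨hI hj, fun h => disjoint_left.1 hIT hj h⟩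
  have h10 := card_sdiff_add_card_eq_card h9
  have h11 := card_sdiff_add_card_eq_card hJT
  omega

end Frm

end Pool.Agent.Hyp6
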