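import Pool.Agent.Hyp6.L3Tc

/-!
# HYP6 L3Y10: private classes of two leaves

`Frm.refuse_cls`: a class with its inside points refuses two points of a triple whose third point sees a
leaf of another class. With the twin lemma: a line triple has at most ten hits on a class with a point
leaf, a leaf of three points with one single block and one inside point with at most one useless hit
(`ViolR.priv31`), and on a class with two point leaves and one inside point (`ViolR.privpp`).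
-/

set_option autoImplicit false

namespace Pool.Agent.Hyp6

open Finset Pool.Agent.Hyp5 Rt

universe u v

variable {V : Type v} [DecidableEq V] {ι : Type u} [Fintype ι] {B : ι → Finset V}
  {Q U : Finset V} {T : Finset ι} {F : Finset (Finset V)} {j : ι}
  {τ : Type*} [DecidableEq τ] {Ts : Finset τ} {NT : τ → Finset (Finset V)}
  {P : Finset (Finset (Finset V))} {C D : Finset (Finset V)}

omit [Fintype ι] in
/-- without the class `C` and one more leaf the outside points can still be matched. -/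
theorem dfc_class (hg : Sp.Gd F F U (slf B F) Ts NT) (hP : Sp.MinP F F U (slf B F) Ts NT P)
    (hC : C ∈ P) (hD : D ∈ P) (hne : C ≠ D) {M : Finset V} (hM : M ∈ D) :
    Sp.dfc (U \ Sp.Uin U (slf B F) C) (slf B F) (C ∪ {M}) ≤ 0 := by
  classical
  have h2 : ({C, D} : Finset (Finset (Finset V))) \ {C} = {D} := by
    ext E
    simp only [mem_sdiff, mem_insert, mem_singleton]
    constructor
    · tauto
    · rintro rfl
      exact ⟨Or.inr rfl, hne.symm⟩
  have h1 := hP.ptn.free hg (X := Sp.Ux U (slf B F) P) (S := {C, D}) (W := {C}) (by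
      intro z hz
      rcases mem_insert.1 hz with h1 | h1
      · exact h1 ▸ hC
      · exact mem_singleton.1 h1 ▸ hD) (by simp) (hP.pair hg hC hD hne) (x := fun _ => M) (by
      intro E hE
      rw [h2, mem_singleton] at hE
      exact hE ▸ hM)
  rw [h2, image_singleton, singleton_biUnion, id] at h1
  refine Sp.dfc_le fun Z hZ => ?_
  refine le_trans (Sp.le_dfc (hZ.trans ?_)) h1
  intro w hw
  obtain ⟨hw1, hw2⟩ := mem_sdiff.1 hw
  by_cases h3 : ∃ E ∈ P, slf B F w ⊆ E
  · obtain ⟨E, hE, h4⟩ := h3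
    refine mem_union_right _ (mem_biUnion.2 ⟨E, mem_sdiff.2 ⟨hE, ?_⟩, mem_filter.2 ⟨hw1, h4⟩⟩)
    rw [mem_singleton]
    rintro rfl
    exact hw2 (mem_filter.2 ⟨hw1, h4⟩)
  · push Not at h3
    exact mem_union_left _ (mem_filter.2 ⟨hw1, h3⟩)

omit [Fintype ι] [DecidableEq τ] in
/-- the inside points are matched inside. -/
theorem exists_in (hg : Sp.Gd F F U (slf B F) Ts NT) (hCF : C ⊆ F) :
    ∃ g, MtI B (Sp.Uin U (slf B F) C) C g := by
  have h1 : Sp.dfc (Sp.Uin U (slf B F) C) (slf B F) (F \ C) ≤ 0 := by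
    refine Sp.dfc_le fun Z hZ => ?_
    rcases Z.eq_empty_or_nonempty with rfl | hne
    · simp
    · have h2 := hg.sur Z (hZ.trans (filter_subset _ _)) hne
      have h3 : (Z.biUnion (slf B F)) ∩ F ⊆ Z.biUnion (slf B F) \ (F \ C) := by
        intro L hL
        obtain ⟨h4, h5⟩ := mem_inter.1 hL
        refine mem_sdiff.2 ⟨h4, fun h6 => (mem_sdiff.1 h6).2 ?_⟩
        obtain ⟨w, hw, h7⟩ := mem_biUnion.1 h4
        exact (mem_filter.1 (hZ hw)).2 h7
      have h4 := card_le_card h3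
      omega
  obtain ⟨g, hg'⟩ := mtI_of_dfc (F := F) h1
  exact ⟨g, by rwa [Finset.sdiff_sdiff_eq_self hCF] at hg'⟩

/-- **a class with its inside points refuses two points of a triple whose third point sees another
class**. -/
theorem Frm.refuse_cls (h : Frm B Q T U F) (hg : Sp.Gd F F U (slf B F) Ts NT)
    (hP : Sp.MinP F F U (slf B F) Ts NT P) (hC : C ∈ P) (hD : D ∈ P) (hne : C ≠ D) (hj : j ∈ T)
    {x : V} (hx : x ∈ B j ∩ Q) {M : Finset V} (hM : M ∈ D) (hxM : M ∈ slf B F x) {X : Finset V}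
    (hXQ : X ⊆ Q) (hX : B j ∩ Q ⊆ insert x X) :
    ∑ L ∈ C, rho B L + 1 ≤ rho B (Sp.Uin U (slf B F) C ∪ C.biUnion id ∪ X) := by
  classical
  have hCF : C ⊆ F := (hP.ptn.vc C hC).sub
  obtain ⟨g', hg'⟩ := exists_in (B := B) (C := C) hg hCF
  have h1 := h.cost hCF Dcl.empty (T' := ∅) (empty_subset _)
    (U' := Sp.Uin U (slf B F) C) (filter_subset _ _) hg' (I := {j}) (singleton_subset_iff.2 hj)
    (disjoint_empty_right _) (P := X) (R := {x}) hXQ (by
      intro k hk v hv
      rw [mem_singleton.1 hk] at hv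
      rcases mem_insert.1 (hX hv) with h2 | h2
      · exact Or.inr (mem_singleton.2 h2)
      · exact Or.inl h2) (by
      rw [singleton_subset_iff, singleton_biUnion]
      exact hx) (x := fun _ => M) (by
      intro p hp
      rw [mem_singleton.1 hp]
      exact ⟨hxM, fun h2 => disjoint_left.1 (hP.ptn.dj C hC D hD hne) h2 hM⟩) (by
      intro p hp q hq _
      rw [mem_singleton.1 hp, mem_singleton.1 hq]) (by
      rw [image_singleton]
      exact dfc_class hg hP hC hD hne hM)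
  have h2 := h.rho_cls hCF Dcl.empty (T' := ∅) (empty_subset _)
    (U' := Sp.Uin U (slf B F) C) (filter_subset _ _) hg' (g := Classical.choose (mtI_of_dfc
      (F := F) (le_trans (Sp.dfc_mono (subset_union_left (s₂ := {M})))
        (dfc_class hg hP hC hD hne hM)))) (Classical.choose_spec (mtI_of_dfc
      (F := F) (le_trans (Sp.dfc_mono (subset_union_left (s₂ := {M})))
        (dfc_class hg hP hC hD hne hM))))
  rw [card_singleton] at h1
  rw [card_empty, add_zero, rho_empty, add_zero] at h2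
  have h3 : Zn B Q ∅ (Sp.Uin U (slf B F) C) C ∅ = Sp.Uin U (slf B F) C ∪ C.biUnion id := by
    unfold Zn
    simp
  rw [h3] at h1 h2
  omega

/-! ### the combinatorial part -/

omit [Fintype ι] in
theorem pair_of_crit {L : Finset V} (hc : Cov B L) (hr : rho B L = 2)
    (hcr : ∀ m ∈ L, rho B (L.erase m) + 1 = rho B L) {m : V} (hm : m ∈ L) :
    ∃ i, L.erase m ⊆ B i := by
  classical
  have h1 := hcr m hm
  obtain ⟨T', hT1, hT2⟩ := exists_cover (hc.mono (erase_subset m L))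
  obtain ⟨i, hi⟩ := card_eq_one.1 (show T'.card = 1 by omega)
  refine ⟨i, ?_⟩
  rw [hi, singleton_biUnion] at hT1
  exact hT1

theorem mem_Ezp {p v : V} {i : ι} : i ∈ Ez B {p} v ↔ v ∈ B i ∧ p ∈ B i := by
  rw [mem_Ez]
  constructor
  · rintro ⟨h1, w, hw⟩
    obtain ⟨h2, h3⟩ := mem_inter.1 hw
    rw [mem_singleton] at h3
    exact ⟨h1, h3 ▸ h2⟩
  · rintro ⟨h1, h2⟩
    exact ⟨h1, p, mem_inter.2 ⟨h2, mem_singleton_self p⟩⟩

theorem ViolR.twin_pt (hv : ViolR B Q) {p v : V} (hp : p ∈ Q) (hvQ : v ∈ Q) (hne : v ≠ p) :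
    (Ez B {p} v).card ≤ 3 := by
  refine le_trans (card_le_card ?_) (hv.twin hvQ hp hne)
  intro i hi
  obtain ⟨h1, h2⟩ := mem_Ezp.1 hi
  exact mem_filter.2 ⟨mem_univ _, h1, h2⟩

omit [DecidableEq V] [Fintype ι] in
theorem sub4 [DecidableEq V] {A : Finset V} {p q r s : V} {X : Finset V} (hA : A ⊆ X) (hp : p ∈ X)
    (hq : q ∈ X) (hr : r ∈ X) (hs : s ∈ X) : A ∪ {p, q, r, s} ⊆ X := by
  intro v hv
  simp only [mem_union, mem_insert, mem_singleton] at hv
  rcases hv with h | rfl | rfl | rfl | rfl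
  · exact hA h
  all_goals assumption

/-- three sets of blocks through one point. -/
theorem three_disj (hr : Reg B Q) {p : V} (hp : p ∈ Q) {u y z : V}
    (h1 : Disjoint (Ez B {p} u) (Ez B {p} y)) (h2 : Disjoint (Ez B {p} u) (Ez B {p} z))
    (h3 : Disjoint (Ez B {p} y) (Ez B {p} z)) :
    (Ez B {p} u).card + (Ez B {p} y).card + (Ez B {p} z).card ≤ 5 := by
  classical
  rw [← card_union_of_disjoint h1, ← card_union_of_disjoint (disjoint_union_left.2 ⟨h2, h3⟩),
    ← hr p hp]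
  refine card_le_card ?_
  intro i hi
  rw [mem_filter]
  refine ⟨mem_univ _, ?_⟩
  simp only [mem_union] at hi
  rcases hi with (hi | hi) | hi
  all_goals exact (mem_Ezp.1 hi).2

/-- a point leaf and a leaf of three points. -/
theorem ViolR.core31 (hv : ViolR B Q) {L : Finset V} (hLQ : L ⊆ Q) (hL3 : L.card = 3)
    (hpr : ∀ m ∈ L, ∃ i, L.erase m ⊆ B i) (h2 : ∀ i, (B i ∩ L).card ≤ 2) (h1 : nt B L 1 ≤ 1)
    {p u y z : V} (hp : p ∈ Q) (huQ : u ∈ Q) (hyQ : y ∈ Q) (hzQ : z ∈ Q) (hup : u ≠ p)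
    (hyp : y ≠ p) (hzp : z ≠ p)
    (hno : ∀ i1 i2 i3, ¬ (L ∪ {p, u, y, z} ⊆ B i1 ∪ B i2 ∪ B i3))
    (huE : (Ez B L u).card ≤ 1) (hu4 : 4 ≤ (Ez B L u).card + (Ez B {p} u).card)
    (hy4 : (Ez B L y).card + (Ez B {p} y).card = 4)
    (hz4 : (Ez B L z).card + (Ez B {p} z).card = 4) : False := by
  classical
  have tu := hv.twin_pt hp huQ hup
  have ty := hv.twin_pt hp hyQ hyp
  have tz := hv.twin_pt hp hzQ hzp
  have habs : ∀ v, 0 < (Ez B L v).card → ∃ i i', L ⊆ B i ∪ B i' ∧ v ∈ B i := by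
    intro v h3
    obtain ⟨i, hi⟩ := card_pos.1 h3
    obtain ⟨hi1, m, hm⟩ := mem_Ez.1 hi
    obtain ⟨hm1, hm2⟩ := mem_inter.1 hm
    obtain ⟨i', hi'⟩ := hpr m hm2
    refine ⟨i, i', fun w hw => ?_, hi1⟩
    by_cases he : w = m
    · exact mem_union_left _ (he ▸ hm1)
    · exact mem_union_right _ (hi' (mem_erase.2 ⟨he, hw⟩))
  have d1 : Disjoint (Ez B {p} u) (Ez B {p} y) := by
    rw [disjoint_left]
    intro i hi hi'
    obtain ⟨k, k', hk, hk'⟩ := habs z (by omega)
    refine hno k k' i (sub4 (hk.trans subset_union_left) (mem_union_right _ (mem_Ezp.1 hi).2)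
      (mem_union_right _ (mem_Ezp.1 hi).1) (mem_union_right _ (mem_Ezp.1 hi').1)
      (mem_union_left _ (mem_union_left _ hk')))
  have d2 : Disjoint (Ez B {p} u) (Ez B {p} z) := by
    rw [disjoint_left]
    intro i hi hi'
    obtain ⟨k, k', hk, hk'⟩ := habs y (by omega)
    refine hno k k' i (sub4 (hk.trans subset_union_left) (mem_union_right _ (mem_Ezp.1 hi).2)
      (mem_union_right _ (mem_Ezp.1 hi).1) (mem_union_left _ (mem_union_left _ hk'))
      (mem_union_right _ (mem_Ezp.1 hi').1))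
  have d3 : Disjoint (Ez B {p} y) (Ez B {p} z) := by
    rw [disjoint_left]
    intro i hi hi'
    obtain ⟨k, k', hk, hk'⟩ := habs u (by omega)
    refine hno k k' i (sub4 (hk.trans subset_union_left) (mem_union_right _ (mem_Ezp.1 hi).2)
      (mem_union_left _ (mem_union_left _ hk')) (mem_union_right _ (mem_Ezp.1 hi).1)
      (mem_union_right _ (mem_Ezp.1 hi').1))
  have h5 := three_disj hv.reg hp d1 d2 d3
  obtain ⟨i0, hi0⟩ := card_pos.1 (show 0 < (Ez B {p} u).card by omega)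
  obtain ⟨hi0u, hi0p⟩ := mem_Ezp.1 hi0
  have hcross : ∀ i ∈ Ez B L y, ∀ i' ∈ Ez B L z, ¬ L ⊆ B i ∪ B i' := by
    intro i hi i' hi' hL
    exact hno i i' i0 (sub4 (hL.trans subset_union_left) (mem_union_right _ hi0p)
      (mem_union_right _ hi0u) (mem_union_left _ (mem_union_left _ (mem_Ez.1 hi).1))
      (mem_union_left _ (mem_union_right _ (mem_Ez.1 hi').1)))
  have d4 : Disjoint (Ez B L y) (Ez B L z) := by
    rw [disjoint_left]
    intro i hi hi'
    obtain ⟨hi1, m, hm⟩ := mem_Ez.1 hi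
    obtain ⟨hm1, hm2⟩ := mem_inter.1 hm
    obtain ⟨k, hk⟩ := hpr m hm2
    refine hno i k i0 (sub4 (fun w hw => ?_) (mem_union_right _ hi0p)
      (mem_union_right _ hi0u) (mem_union_left _ (mem_union_left _ hi1))
      (mem_union_left _ (mem_union_left _ (mem_Ez.1 hi').1)))
    refine mem_union_left _ ?_
    by_cases he : w = m
    · exact mem_union_left _ (he ▸ hm1)
    · exact mem_union_right _ (hk (mem_erase.2 ⟨he, hw⟩))
  have h6 : 6 ≤ (Ez B L y ∪ Ez B L z).card := by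
    rw [card_union_of_disjoint d4]
    omega
  -- single blocks
  set S : Finset ι := (Ez B L y ∪ Ez B L z).filter (fun i => (B i ∩ L).card = 1) with hS
  have hS1 : S.card ≤ 1 := by
    refine le_trans (card_le_card ?_) h1
    intro i hi
    exact mem_trs.2 (mem_filter.1 hi).2
  have hne : ∀ v, ∀ i ∈ Ez B L v, (B i ∩ L).card ≠ 1 → (B i ∩ L).card = 2 := by
    intro v i hi h7
    have h8 := h2 i
    have h9 := card_pos.2 (mem_Ez.1 hi).2
    omega
  have hex : ∀ v, Ez B L v ⊆ Ez B L y ∪ Ez B L z → 2 ≤ (Ez B L v).card →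
      ∃ i ∈ Ez B L v, (B i ∩ L).card = 2 := by
    intro v hvs h7
    by_contra hcon
    push Not at hcon
    have h8 : Ez B L v ⊆ S := fun i hi => mem_filter.2 ⟨hvs hi, by
      by_contra h9
      exact hcon i hi (hne v i hi h9)⟩
    have := card_le_card h8
    omega
  obtain ⟨iy, hiy, hiy2⟩ := hex y subset_union_left (by omega)
  obtain ⟨iz, hiz, hiz2⟩ := hex z subset_union_right (by omega)
  have hun : ∀ i i', (B i ∩ L).card = 2 → (B i' ∩ L).card = 2 → B i ∩ L ≠ B i' ∩ L →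
      L ⊆ B i ∪ B i' := by
    intro i i' h7 h8 h9
    have h10 : (B i ∩ L ∪ B i' ∩ L) = L := by
      refine eq_of_subset_of_card_le (union_subset inter_subset_right inter_subset_right) ?_
      by_contra hcon
      have h11 : (B i ∩ L ∪ B i' ∩ L).card ≤ 2 := by omega
      have h12 : B i ∩ L = B i ∩ L ∪ B i' ∩ L :=
        eq_of_subset_of_card_le subset_union_left (by omega)
      have h13 : B i' ∩ L = B i ∩ L ∪ B i' ∩ L :=
        eq_of_subset_of_card_le subset_union_right (by omega)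
      exact h9 (h12.trans h13.symm)
    intro w hw
    rw [← h10] at hw
    rcases mem_union.1 hw with h11 | h11
    · exact mem_union_left _ (mem_inter.1 h11).1
    · exact mem_union_right _ (mem_inter.1 h11).1
  have hz' : ∀ i ∈ Ez B L z, (B i ∩ L).card = 2 → B i ∩ L = B iy ∩ L := by
    intro i hi h7
    by_contra h8
    exact hcross iy hiy i hi (hun iy i hiy2 h7 fun h9 => h8 h9.symm)
  have hy' : ∀ i ∈ Ez B L y, (B i ∩ L).card = 2 → B i ∩ L = B iy ∩ L := by
    intro i hi h7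
    by_contra h8
    refine hcross i hi iz hiz (hun i iz h7 hiz2 fun h9 => h8 ?_)
    rw [h9]
    exact hz' iz hiz hiz2
  obtain ⟨m, m', hmm, hk⟩ := card_eq_two.1 hiy2
  have hm : m ∈ B iy ∩ L := by rw [hk]; simp
  have hm' : m' ∈ B iy ∩ L := by rw [hk]; simp
  have h7 : ((Ez B L y ∪ Ez B L z) \ S).card ≤ 3 := by
    refine le_trans (card_le_card ?_)
      (hv.twin (hLQ (mem_inter.1 hm).2) (hLQ (mem_inter.1 hm').2) hmm)
    intro i hi
    obtain ⟨h8, h9⟩ := mem_sdiff.1 hi
    have h10 : (B i ∩ L).card = 2 ∧ B i ∩ L = B iy ∩ L := by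
      have h11 : (B i ∩ L).card ≠ 1 := fun h12 => h9 (mem_filter.2 ⟨h8, h12⟩)
      rcases mem_union.1 h8 with h12 | h12
      · have h13 := hne y i h12 h11
        exact ⟨h13, hy' i h12 h13⟩
      · have h13 := hne z i h12 h11
        exact ⟨h13, hz' i h12 h13⟩
    rw [mem_filter]
    refine ⟨mem_univ _, ?_, ?_⟩
    · have h11 : m ∈ B i ∩ L := h10.2.symm ▸ hm
      exact (mem_inter.1 h11).1
    · have h11 : m' ∈ B i ∩ L := h10.2.symm ▸ hm'
      exact (mem_inter.1 h11).1
  have h8 : S ⊆ Ez B L y ∪ Ez B L z := filter_subset _ _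
  have h9 := card_sdiff_add_card_eq_card h8
  omega

/-- two point leaves. -/
theorem ViolR.corepp (hv : ViolR B Q) {p q u y z : V} (hp : p ∈ Q) (hq : q ∈ Q)
    (hyQ : y ∈ Q) (hzQ : z ∈ Q) (hyp : y ≠ p) (hyq : y ≠ q) (hzp : z ≠ p) (hzq : z ≠ q)
    (hno : ∀ i1 i2, ¬ ({p, q, u, y, z} ⊆ B i1 ∪ B i2))
    (hup : 0 < (Ez B {p} u).card) (huq : 0 < (Ez B {q} u).card)
    (hy4 : (Ez B {p} y).card + (Ez B {q} y).card = 4)
    (hz4 : (Ez B {p} z).card + (Ez B {q} z).card = 4) :
    (Ez B {p} u).card + (Ez B {q} u).card ≤ 2 := by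
  classical
  have typ := hv.twin_pt hp hyQ hyp
  have tzp := hv.twin_pt hp hzQ hzp
  have tyq := hv.twin_pt hq hyQ hyq
  have tzq := hv.twin_pt hq hzQ hzq
  have hc : ∀ i k, p ∈ B i ∪ B k → q ∈ B i ∪ B k → u ∈ B i ∪ B k → y ∈ B i ∪ B k →
      z ∈ B i ∪ B k → False := by
    intro i k h1 h2 h3 h4 h5
    refine hno i k fun v hv' => ?_
    simp only [mem_insert, mem_singleton] at hv'
    rcases hv' with rfl | rfl | rfl | rfl | rfl
    all_goals assumption
  have key : ∀ {p q : V}, (∀ i k, p ∈ B i ∪ B k → q ∈ B i ∪ B k → u ∈ B i ∪ B k →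
      y ∈ B i ∪ B k → z ∈ B i ∪ B k → False) → p ∈ Q → 0 < (Ez B {q} u).card →
      0 < (Ez B {q} y).card → 0 < (Ez B {q} z).card →
      (Ez B {p} u).card + (Ez B {p} y).card + (Ez B {p} z).card ≤ 5 := by
    intro p q hc hp h1 h2 h3
    refine three_disj hv.reg hp ?_ ?_ ?_
    · rw [disjoint_left]
      intro i hi hi'
      obtain ⟨k, hk⟩ := card_pos.1 h3
      exact hc i k (mem_union_left _ (mem_Ezp.1 hi).2) (mem_union_right _ (mem_Ezp.1 hk).2)
        (mem_union_left _ (mem_Ezp.1 hi).1) (mem_union_left _ (mem_Ezp.1 hi').1)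
        (mem_union_right _ (mem_Ezp.1 hk).1)
    · rw [disjoint_left]
      intro i hi hi'
      obtain ⟨k, hk⟩ := card_pos.1 h2
      exact hc i k (mem_union_left _ (mem_Ezp.1 hi).2) (mem_union_right _ (mem_Ezp.1 hk).2)
        (mem_union_left _ (mem_Ezp.1 hi).1) (mem_union_right _ (mem_Ezp.1 hk).1)
        (mem_union_left _ (mem_Ezp.1 hi').1)
    · rw [disjoint_left]
      intro i hi hi'
      obtain ⟨k, hk⟩ := card_pos.1 h1
      exact hc i k (mem_union_left _ (mem_Ezp.1 hi).2) (mem_union_right _ (mem_Ezp.1 hk).2)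
        (mem_union_right _ (mem_Ezp.1 hk).1) (mem_union_left _ (mem_Ezp.1 hi).1)
        (mem_union_left _ (mem_Ezp.1 hi').1)
  have h1 := key hc hp huq (by omega) (by omega)
  have h2 := key (p := q) (q := p) (fun i k h1 h2 h3 h4 h5 => hc i k h2 h1 h3 h4 h5) hq hup
    (by omega) (by omega)
  omega

/-! ### the classes -/

theorem uh_Ez {v : V} {L : Finset V} : uh B v L = (Ez B L v).card := by
  unfold uh
  rw [hit_eq_Ez, sum_singleton]

namespace Frm

/-- a leaf meets a block in at most two points. -/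
theorem two_of (h : Frm B Q T U F) {L : Finset V} (hL : L ∈ F) (i : ι) : (B i ∩ L).card ≤ 2 := by
  rcases (B i ∩ L).eq_empty_or_nonempty with h0 | ⟨w, hw⟩
  · rw [h0, card_empty]
    exact Nat.zero_le _
  · obtain ⟨h1, h2⟩ := mem_inter.1 hw
    exact (card_le_card (inter_subset_inter_left (h.FD hL))).trans (h.two_leaf hL h1 h2)

/-- a triple with a point which sees a leaf outside the class. -/
theorem exists_xyz (h : Frm B Q T U F) (hP : Sp.MinP F F U (slf B F) Ts NT P) (hj : j ∈ T)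
    {C : Finset (Finset V)} (hs : ¬ slj B Q F j ⊆ C) : ∃ x y z M D, D ∈ P ∧ C ≠ D ∧ M ∈ D ∧
      M ∈ slf B F x ∧ M ∉ C ∧ x ∈ B j ∩ Q ∧ y ∈ B j ∩ Q ∧ z ∈ B j ∩ Q ∧ x ≠ y ∧ x ≠ z ∧ y ≠ z ∧
      B j ∩ Q = {x, y, z} := by
  classical
  obtain ⟨M, hM, hMC⟩ := not_subset.1 hs
  unfold slj at hM
  obtain ⟨x, hx, hxM⟩ := mem_biUnion.1 hM
  have hMF := (mem_slf.1 hxM).1
  rw [← hP.ptn.un] at hMF
  obtain ⟨D, hD, hMD⟩ := mem_biUnion.1 hMF
  rw [id] at hMD
  have h3 := h.full hj
  have h4 := card_erase_add_one hx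
  obtain ⟨y, z, hyz, he⟩ := card_eq_two.1 (show ((B j ∩ Q).erase x).card = 2 by omega)
  have hy : y ∈ (B j ∩ Q).erase x := by rw [he]; simp
  have hz : z ∈ (B j ∩ Q).erase x := by rw [he]; simp
  refine ⟨x, y, z, M, D, hD, ?_, hMD, hxM, hMC, hx, (mem_erase.1 hy).2, (mem_erase.1 hz).2,
    (mem_erase.1 hy).1.symm, (mem_erase.1 hz).1.symm, hyz, ?_⟩
  · rintro rfl
    exact hMC hMD
  · rw [← he, insert_erase hx]

/-- the hits of a triple point on two leaves. -/
theorem four_two (h : Frm B Q T U F) (hr : Reg B Q) (hj : j ∈ T) {L L' : Finset V} (hL : L ∈ F)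
    (hL' : L' ∈ F) (hne : L ≠ L') {v : V} (hvT : v ∈ B j ∩ Q) :
    uh B v L + uh B v L' ≤ 4 ∧ ∀ M ∈ slf B F v, M ≠ L → M ≠ L' → uh B v L + uh B v L' ≤ 3 := by
  classical
  have h1 := h.four_t hr hj hvT
  have h2 : ∑ A ∈ ({L, L'} : Finset (Finset V)), uh B v A ≤ ∑ A ∈ F, uh B v A := by
    refine sum_le_sum_of_subset ?_
    intro A hA
    rcases mem_insert.1 hA with rfl | hA
    · exact hL
    · exact mem_singleton.1 hA ▸ hL'
  rw [sum_pair hne] at h2
  refine ⟨h2.trans h1, fun M hM h3 h4 => ?_⟩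
  obtain ⟨hMF, w, hw, _, i, hi1, hi2⟩ := mem_slf.1 hM
  have h5 : ∑ A ∈ ({M, L, L'} : Finset (Finset V)), uh B v A ≤ ∑ A ∈ F, uh B v A := by
    refine sum_le_sum_of_subset ?_
    intro A hA
    rcases mem_insert.1 hA with rfl | hA
    · exact hMF
    rcases mem_insert.1 hA with rfl | hA
    · exact hL
    · exact mem_singleton.1 hA ▸ hL'
  rw [sum_insert (by simp [h3, h4]), sum_pair hne] at h5
  have h6 : 1 ≤ uh B v M := by
    rw [uh_Ez]
    exact card_pos.2 ⟨i, mem_Ez.2 ⟨hi1, w, mem_inter.2 ⟨hi2, hw⟩⟩⟩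
  omega

theorem jh_three (_h : Frm B Q T U F) {x y z : V} (hT : B j ∩ Q = {x, y, z}) (hxy : x ≠ y)
    (hxz : x ≠ z) (hyz : y ≠ z) (L : Finset V) :
    jh B Q j L = uh B x L + uh B y L + uh B z L := by
  unfold jh
  rw [hit_eq_Ez, hT, sum_insert (by simp [hxy, hxz]), sum_pair hyz, uh_Ez, uh_Ez, uh_Ez]
  omega

end Frm

namespace ViolR

/-- **private class of a point leaf and a leaf of three points**: at most ten hits. -/
theorem priv31 (hv : ViolR B Q) (h : Frm B Q T U F) (hg : Sp.Gd F F U (slf B F) Ts NT)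
    (hP : Sp.MinP F F U (slf B F) Ts NT P) {L : Finset V} {p u : V}
    (hC : ({L, {p}} : Finset (Finset V)) ∈ P) (hL3 : L.card = 3) (hL1 : nt B L 1 ≤ 1)
    (hU : Sp.Uin U (slf B F) {L, {p}} = {u}) (hu4 : 4 ≤ uh B u L + uh B u {p}) (hj : j ∈ T)
    (hs : ¬ slj B Q F j ⊆ {L, {p}}) : jh B Q j L + jh B Q j {p} ≤ 10 := by
  classical
  have hLp : L ≠ {p} := by
    rintro rfl
    rw [card_singleton] at hL3
    omega
  have hCF := (hP.ptn.vc _ hC).sub
  have hLF : L ∈ F := hCF (by simp)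
  have hpF : ({p} : Finset V) ∈ F := hCF (by simp)
  obtain ⟨x, y, z, M, D, hD, hne, hMD, hxM, hMC, hx, hy, hz, hxy, hxz, hyz, hT⟩ :=
    h.exists_xyz hP hj hs
  simp only [mem_insert, mem_singleton, not_or] at hMC
  by_contra hcon
  rw [h.jh_three hT hxy hxz hyz, h.jh_three hT hxy hxz hyz] at hcon
  have fx := (h.four_two hv.reg hj hLF hpF hLp hx).2 M hxM hMC.1 hMC.2
  have fy := (h.four_two hv.reg hj hLF hpF hLp hy).1
  have fz := (h.four_two hv.reg hj hLF hpF hLp hz).1
  have huU : u ∈ U ∧ slf B F u ⊆ {L, {p}} := by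
    have h1 : u ∈ Sp.Uin U (slf B F) {L, {p}} := by rw [hU]; simp
    exact mem_filter.1 h1
  have huQ : u ∈ Q := Frm.DQ (h.UD huU.1)
  have hpQ : p ∈ Q := h.FQ hpF (mem_singleton_self p)
  have hup : u ≠ p := by
    rintro rfl
    exact disjoint_left.1 (h.ge.FU _ hpF) (mem_singleton_self _) huU.1
  have hnp : ∀ v ∈ B j ∩ Q, v ≠ p := by
    rintro v hv' rfl
    exact (h.T_out hj hv').2 _ hpF (mem_singleton_self _)
  have hcov : Cov B L := hv.cov.mono (h.FQ hLF)
  have hrL : rho B L = 2 := by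
    have h1 := h.sv_leaf hLF
    unfold sv at h1
    omega
  have hrp : rho B {p} = 1 := by
    have h1 := h.sv_leaf hpF
    unfold sv at h1
    rw [card_singleton] at h1
    push_cast at h1
    omega
  have href := h.refuse_cls hg hP hC hD hne hj hx hMD hxM (X := {y, z}) (by
    intro v hv'
    rcases mem_insert.1 hv' with rfl | hv'
    · exact (mem_inter.1 hy).2
    · exact mem_singleton.1 hv' ▸ (mem_inter.1 hz).2) hT.subset
  rw [sum_pair hLp, hrL, hrp, hU] at href
  have huL : uh B u L ≤ 1 := by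
    refine le_trans ?_ hL1
    refine le_trans ?_ (h.hitU_one hLF)
    rw [Frm.hit_U_sum]
    exact single_le_sum (f := fun w => uh B w L) (fun _ _ => Nat.zero_le _) huU.1
  rw [uh_Ez, uh_Ez] at fy fz fx hu4
  rw [uh_Ez] at huL
  simp only [uh_Ez] at hcon
  refine hv.core31 (h.FQ hLF) hL3 (fun m hm => pair_of_crit hcov hrL (h.crit_leaf' hLF) hm)
    (h.two_of hLF) hL1 hpQ huQ (mem_inter.1 hy).2 (mem_inter.1 hz).2 hup (hnp y hy) (hnp z hz)
    ?_ huL hu4 (by omega) (by omega)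
  intro i1 i2 i3 h1
  have h2 : ({u} ∪ ({L, {p}} : Finset (Finset V)).biUnion id ∪ {y, z}) ⊆
      ({i1, i2, i3} : Finset ι).biUnion B := by
    intro v hv'
    have h3 : v ∈ L ∪ {p, u, y, z} := by
      simp only [mem_union, mem_singleton, mem_biUnion, mem_insert, id] at hv' ⊢
      rcases hv' with (rfl | ⟨A, rfl | rfl, hA⟩) | rfl | rfl
      · tauto
      · exact Or.inl hA
      · rw [mem_singleton.1 hA]
        tauto
      · tauto
      · tauto
    have h4 := h1 h3
    simp only [mem_union, mem_biUnion, mem_insert, mem_singleton] at h4 ⊢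
    rcases h4 with (h4 | h4) | h4
    · exact ⟨i1, Or.inl rfl, h4⟩
    · exact ⟨i2, Or.inr (Or.inl rfl), h4⟩
    · exact ⟨i3, Or.inr (Or.inr rfl), h4⟩
  have h3 := (Hyp6.rho_le h2).trans card_le_three
  omega

/-- **private class of two point leaves**: at most ten hits. -/
theorem privpp (hv : ViolR B Q) (h : Frm B Q T U F) (hg : Sp.Gd F F U (slf B F) Ts NT)
    (hP : Sp.MinP F F U (slf B F) Ts NT P) {p q u : V} (hpq : p ≠ q)
    (hC : ({{p}, {q}} : Finset (Finset V)) ∈ P) (hU : Sp.Uin U (slf B F) {{p}, {q}} = {u})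
    (hu3 : 3 ≤ uh B u {p} + uh B u {q}) (hj : j ∈ T) (hs : ¬ slj B Q F j ⊆ {{p}, {q}}) :
    jh B Q j {p} + jh B Q j {q} ≤ 10 := by
  classical
  have hLp : ({p} : Finset V) ≠ {q} := fun h1 => hpq (singleton_injective h1)
  have hCF := (hP.ptn.vc _ hC).sub
  have hpF : ({p} : Finset V) ∈ F := hCF (by simp)
  have hqF : ({q} : Finset V) ∈ F := hCF (by simp)
  obtain ⟨x, y, z, M, D, hD, hne, hMD, hxM, hMC, hx, hy, hz, hxy, hxz, hyz, hT⟩ :=
    h.exists_xyz hP hj hs
  simp only [mem_insert, mem_singleton, not_or] at hMC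
  by_contra hcon
  rw [h.jh_three hT hxy hxz hyz, h.jh_three hT hxy hxz hyz] at hcon
  have fx := (h.four_two hv.reg hj hpF hqF hLp hx).2 M hxM hMC.1 hMC.2
  have fy := (h.four_two hv.reg hj hpF hqF hLp hy).1
  have fz := (h.four_two hv.reg hj hpF hqF hLp hz).1
  have huU : u ∈ U ∧ slf B F u ⊆ {{p}, {q}} := by
    have h1 : u ∈ Sp.Uin U (slf B F) {{p}, {q}} := by rw [hU]; simp
    exact mem_filter.1 h1
  have hpQ : p ∈ Q := h.FQ hpF (mem_singleton_self p)
  have hqQ : q ∈ Q := h.FQ hqF (mem_singleton_self q)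
  have huQ : u ∈ Q := Frm.DQ (h.UD huU.1)
  have hup : u ≠ p := by
    rintro rfl
    exact disjoint_left.1 (h.ge.FU _ hpF) (mem_singleton_self _) huU.1
  have huq : u ≠ q := by
    rintro rfl
    exact disjoint_left.1 (h.ge.FU _ hqF) (mem_singleton_self _) huU.1
  have hnp : ∀ v ∈ B j ∩ Q, v ≠ p := by
    rintro v hv' rfl
    exact (h.T_out hj hv').2 _ hpF (mem_singleton_self _)
  have hnq : ∀ v ∈ B j ∩ Q, v ≠ q := by
    rintro v hv' rfl
    exact (h.T_out hj hv').2 _ hqF (mem_singleton_self _)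
  have hr1 : ∀ w : V, ({w} : Finset V) ∈ F → rho B {w} = 1 := by
    intro w hw
    have h1 := h.sv_leaf hw
    unfold sv at h1
    rw [card_singleton] at h1
    push_cast at h1
    omega
  have href := h.refuse_cls hg hP hC hD hne hj hx hMD hxM (X := {y, z}) (by
    intro v hv'
    rcases mem_insert.1 hv' with rfl | hv'
    · exact (mem_inter.1 hy).2
    · exact mem_singleton.1 hv' ▸ (mem_inter.1 hz).2) hT.subset
  rw [sum_pair hLp, hr1 p hpF, hr1 q hqF, hU] at href
  rw [uh_Ez, uh_Ez] at fy fz fx hu3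
  simp only [uh_Ez] at hcon
  have tu := hv.twin_pt hpQ huQ hup
  have tu' := hv.twin_pt hqQ huQ huq
  -- `u` sees both leaves
  have hsee : ∀ w : V, ({w} : Finset V) ∈ slf B F u → 0 < (Ez B {w} u).card := by
    intro w hw
    obtain ⟨_, w', hw', _, i, hi1, hi2⟩ := mem_slf.1 hw
    rw [mem_singleton] at hw'
    subst hw'
    exact card_pos.2 ⟨i, mem_Ezp.2 ⟨hi1, hi2⟩⟩
  have hboth : slf B F u = {{p}, {q}} := by
    refine eq_of_subset_of_card_le huU.2 ?_
    have h1 := hg.two_leaf huU.1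
    rw [card_pair hLp]
    exact h1.trans (card_le_card inter_subset_left)
  have h5 := hv.corepp hpQ hqQ (mem_inter.1 hy).2 (mem_inter.1 hz).2 (hnp y hy) (hnq y hy)
    (hnp z hz) (hnq z hz) (u := u) ?_ (hsee p (by rw [hboth]; simp)) (hsee q (by rw [hboth]; simp))
    (by omega) (by omega)
  · omega
  intro i1 i2 h1
  have h2 : ({u} ∪ ({{p}, {q}} : Finset (Finset V)).biUnion id ∪ {y, z}) ⊆
      ({i1, i2} : Finset ι).biUnion B := by
    intro v hv'
    have h3 : v ∈ ({p, q, u, y, z} : Finset V) := by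
      simp only [mem_union, mem_singleton, mem_biUnion, mem_insert, id] at hv' ⊢
      rcases hv' with (rfl | ⟨A, rfl | rfl, hA⟩) | rfl | rfl
      · tauto
      · rw [mem_singleton.1 hA]
        tauto
      · rw [mem_singleton.1 hA]
        tauto
      · tauto
      · tauto
    have h4 := h1 h3
    simp only [mem_union, mem_biUnion, mem_insert, mem_singleton] at h4 ⊢
    rcases h4 with h4 | h4
    · exact ⟨i1, Or.inl rfl, h4⟩
    · exact ⟨i2, Or.inr rfl, h4⟩
  have h3 := (Hyp6.rho_le h2).trans card_le_two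
  omega

end ViolR

end Pool.Agent.Hyp6
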