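import Pool.Agent.Hyp6.L3Y7
import Pool.Agent.Hyp6.L3Y10

/-!
# HYP6 L3Y11: dense classes with three leaves

A class with three leaves, one inside point `u` and two inside triples `j1`, `j2` which has no other
triples. `G` is the class without the triple `j1`; it has value `-1`. Contracting `G` with the points of
`j1` (`ViolR.nu4`, `ViolR.nu5`) excludes the classes with few outer hits (`Dn.absurd1`, `Dn.absurd2`).
-/

set_option autoImplicit false
set_option linter.unusedSectionVars false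
set_option linter.unusedVariables false

namespace Pool.Agent.Hyp6

open Finset Pool.Agent.Hyp5 Rt

universe u v

section tools

variable {V : Type v} [DecidableEq V] {ι : Type u} [Fintype ι] {B : ι → Finset V}
variable {Q G X R : Finset V}

omit [Fintype ι] in
theorem abz_of_rho {A : Finset V} (hc : Cov B (G ∪ A)) (h : rho B (G ∪ A) ≤ rho B G) :
    Abz B G A := by
  obtain ⟨T', h1, h2⟩ := exists_cover hc
  exact ⟨T', h1, h2.trans_le h⟩

omit [Fintype ι] in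
/-- a connected set which meets a closed set lies in it. -/
theorem sub_of_closed {L K : Finset V} (hL : Conn (gr B) L) (hLR : L ⊆ R)
    (hK : Closed (gr B) R K) {v : V} (hvL : v ∈ L) (hvK : v ∈ K) : L ⊆ K := by
  have h1 : Closed (gr B) L (L ∩ K) := by
    refine ⟨inter_subset_left, fun x hx y hy hxy => ?_⟩
    exact mem_inter.2 ⟨hy, hK.2 x (mem_inter.1 hx).2 y (hLR hy) hxy⟩
  have h2 := hL.2 _ h1 ⟨v, mem_inter.2 ⟨hvL, hvK⟩⟩
  rw [← h2]
  exact inter_subset_right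

/-- **the value of a set all of whose points see a member of the family `C`**; at most one part is
exceptional. -/
theorem ViolR.comp_bound (h : ViolR B Q) (hRQ : R ⊆ Q) (hlt : R.card < Q.card)
    {C : Finset (Finset V)} (hC : ∀ L ∈ C, L ⊆ R ∧ Conn (gr B) L)
    (hsee : ∀ v ∈ R, ∃ L ∈ C, v ∈ L ∨ ∃ w ∈ L, (gr B).Adj v w) {c0 : V} {δ : ℕ}
    (hKT : ∀ K, Closed (gr B) R K → Conn (gr B) K → KT B K → c0 ∈ K ∧ 1 ≤ δ) :
    -(C.card : ℤ) - δ ≤ Pv B R := by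
  classical
  obtain ⟨Ks, hK1, hK2, hK3⟩ := exists_parts B R
  have hleaf : ∀ K ∈ Ks, ∃ L ∈ C, L ⊆ K := by
    intro K hK
    obtain ⟨hKR, hKc, hKconn⟩ := hK1 K hK
    obtain ⟨v, hv⟩ := hKconn.1
    obtain ⟨L, hL, h1⟩ := hsee v (hKR hv)
    refine ⟨L, hL, ?_⟩
    rcases h1 with h1 | ⟨w, hw, hvw⟩
    · exact sub_of_closed (hC L hL).2 (hC L hL).1 hKc h1 hv
    · exact sub_of_closed (hC L hL).2 (hC L hL).1 hKc hw (hKc.2 v hv w ((hC L hL).1 hw) hvw)
  choose! l hl1 hl2 using hleaf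
  have hcard : Ks.card ≤ C.card := by
    refine card_le_card_of_injOn l (fun K hK => hl1 K hK) ?_
    intro K hK K' hK' he
    by_contra hne
    obtain ⟨v, hv⟩ := (hC _ (hl1 K hK)).2.1
    have h1 : v ∈ l K' := by
      have h2 : l K = l K' := he
      rw [← h2]
      exact hv
    exact disjoint_left.1 (hK2 K hK K' hK' hne).1 (hl2 K hK hv) (hl2 K' hK' h1)
  have hcR : Cov B R := h.cov.mono hRQ
  have hsum : Pv B R = ∑ K ∈ Ks, Pv B K := by
    rw [← hK3]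
    exact Pv_biUnion (fun K hK => hcR.mono (hK1 K hK).1) hK2
  have hone : ∀ K ∈ Ks, -1 - (if c0 ∈ K then (δ : ℤ) else 0) ≤ Pv B K := by
    intro K hK
    obtain ⟨hKR, hKc, hKconn⟩ := hK1 K hK
    by_cases hk : KT B K
    · obtain ⟨h1, h2⟩ := hKT K hKc hKconn hk
      rw [hk.Pv_eq, if_pos h1]
      have h3 : (1 : ℤ) ≤ δ := by exact_mod_cast h2
      linarith
    · have h1 := h.ih ι B K (lt_of_le_of_lt (card_le_card hKR) hlt)
        (h.reg.mono (hKR.trans hRQ)) (h.tr.mono (hKR.trans hRQ)) hKconn hk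
      have h2 : (0 : ℤ) ≤ ee B K K := by positivity
      split_ifs
      · have h3 : (0 : ℤ) ≤ δ := by positivity
        linarith
      · linarith
  have hs : ∑ K ∈ Ks, (-1 - (if c0 ∈ K then (δ : ℤ) else 0)) ≤ Pv B R := by
    rw [hsum]
    exact sum_le_sum hone
  rw [sum_sub_distrib, sum_const, nsmul_eq_mul, ← sum_filter, sum_const, nsmul_eq_mul] at hs
  have h4 : (Ks.filter (fun K => c0 ∈ K)).card ≤ 1 := by
    rw [card_le_one]
    intro K hK K' hK'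
    obtain ⟨h5, h6⟩ := mem_filter.1 hK
    obtain ⟨h7, h8⟩ := mem_filter.1 hK'
    by_contra hne
    exact disjoint_left.1 (hK2 K h5 K' h7 hne).1 h6 h8
  have h5 : ((Ks.filter (fun K => c0 ∈ K)).card : ℤ) ≤ 1 := by exact_mod_cast h4
  have h6 : (Ks.card : ℤ) ≤ C.card := by exact_mod_cast hcard
  have h7 : (0 : ℤ) ≤ δ := by positivity
  nlinarith

omit [Fintype ι] in
/-- a block with connected sets which it sees. -/
theorem conn_star {S : Finset V} {A : Finset (Finset V)} (hne : S.Nonempty)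
    (hS : ∀ x ∈ S, ∀ y ∈ S, x ≠ y → (gr B).Adj x y) (hA : ∀ L ∈ A, Conn (gr B) L)
    (hsee : ∀ L ∈ A, ∃ x ∈ S, ∃ y ∈ L, (gr B).Adj x y) : Conn (gr B) (S ∪ A.biUnion id) := by
  classical
  refine ⟨hne.mono subset_union_left, fun Z hZ hZne => ?_⟩
  have hLR : ∀ L ∈ A, L ⊆ S ∪ A.biUnion id := fun L hL v hv =>
    mem_union_right _ (mem_biUnion.2 ⟨L, hL, hv⟩)
  have hSR : S ⊆ S ∪ A.biUnion id := subset_union_left
  -- some point of `S` is in `Z`
  have h1 : ∃ x ∈ S, x ∈ Z := by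
    obtain ⟨v, hv⟩ := hZne
    rcases mem_union.1 (hZ.1 hv) with h2 | h2
    · exact ⟨v, h2, hv⟩
    · obtain ⟨L, hL, hvL⟩ := mem_biUnion.1 h2
      have h3 := sub_of_closed (hA L hL) (hLR L hL) hZ hvL hv
      obtain ⟨x, hx, y, hy, hxy⟩ := hsee L hL
      exact ⟨x, hx, hZ.2 y (h3 hy) x (hSR hx) hxy.symm⟩
  obtain ⟨x0, hx0, hx0Z⟩ := h1
  have h2 : S ⊆ Z := by
    intro x hx
    by_cases he : x = x0
    · exact he ▸ hx0Z
    · exact hZ.2 x0 hx0Z x (hSR hx) (hS x0 hx0 x hx fun h => he h.symm)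
  refine Subset.antisymm hZ.1 (union_subset h2 ?_)
  intro v hv
  obtain ⟨L, hL, hvL⟩ := mem_biUnion.1 hv
  obtain ⟨x, hx, y, hy, hxy⟩ := hsee L hL
  exact sub_of_closed (hA L hL) (hLR L hL) hZ hy (hZ.2 x (h2 hx) y (hLR L hL hy) hxy) hvL

end tools

section dense

variable {V : Type v} [DecidableEq V] {ι : Type u} [Fintype ι] {B : ι → Finset V}
  {Q U : Finset V} {T : Finset ι} {F : Finset (Finset V)}
  {τ : Type*} [DecidableEq τ] {Ts : Finset τ} {NT : τ → Finset (Finset V)}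
  {P : Finset (Finset (Finset V))} {C : Finset (Finset V)} {w0 : V} {j1 j2 : ι}

/-- the data of a dense class. -/
structure Dn (B : ι → Finset V) (Q : Finset V) (T : Finset ι) (U : Finset V)
    (F : Finset (Finset V)) (Ts : Finset τ) (NT : τ → Finset (Finset V))
    (P : Finset (Finset (Finset V))) (C : Finset (Finset V)) (w0 : V) (j1 j2 : ι) : Prop where
  viol : ViolR B Q
  frm : Frm B Q T U F
  gd : Sp.Gd F F U (slf B F) Ts NT
  mp : Sp.MinP F F U (slf B F) Ts NT P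
  CP : C ∈ P
  c3 : C.card = 3
  Ue : Sp.Uin U (slf B F) C = {w0}
  j1T : j1 ∈ T
  j2T : j2 ∈ T
  jj : j1 ≠ j2
  s1 : slj B Q F j1 ⊆ C
  s2 : slj B Q F j2 ⊆ C
  ee0 : ∀ L ∈ C, ee B Q L = 0

/-- the blocks of a point which meet no leaf of the class. -/
def nz (B : ι → Finset V) (C : Finset (Finset V)) (v : V) : Finset ι :=
  univ.filter (fun i => v ∈ B i ∧ B i ∩ C.biUnion id = ∅)

/-- the class without the first triple. -/
def Gn (B : ι → Finset V) (Q : Finset V) (C : Finset (Finset V)) (w0 : V) (j2 : ι) : Finset V :=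
  Zn B Q {j2} {w0} C ∅

theorem mem_nz {v : V} {i : ι} : i ∈ nz B C v ↔ v ∈ B i ∧ B i ∩ C.biUnion id = ∅ := by
  simp [nz]

omit [Fintype ι] in
theorem mem_Gn {v : V} : v ∈ Gn B Q C w0 j2 ↔ v ∈ B j2 ∩ Q ∨ v = w0 ∨ v ∈ C.biUnion id := by
  unfold Gn
  rw [mem_Zn]
  simp

omit [Fintype ι] in
theorem Gn_eq : Gn B Q C w0 j2 = C.biUnion id ∪ (insert w0 (B j2 ∩ Q)) := by
  ext v
  rw [mem_Gn, mem_union, mem_insert]
  tauto

theorem nz_card (hr : Reg B Q) {v : V} (hv : v ∈ Q) :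
    (nz B C v).card + (Ez B (C.biUnion id) v).card = 5 := by
  classical
  rw [← hr v hv, ← card_union_of_disjoint]
  · congr 1
    ext i
    rw [mem_union, mem_nz, mem_Ez, mem_filter, nonempty_iff_ne_empty]
    have := mem_univ i
    tauto
  · rw [disjoint_left]
    intro i hi hi'
    have h1 := (mem_nz.1 hi).2
    have h2 := (mem_Ez.1 hi').2
    rw [h1] at h2
    exact absurd h2 (by simp)

theorem Frm.uC_Ez (h : Frm B Q T U F) (hC : C ⊆ F) (v : V) :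
    uC B v C = (Ez B (C.biUnion id) v).card := by
  have h1 := hit_biUnion (B := B) {v} (h.sepF.mono hC)
  rw [hit_eq_Ez, sum_singleton] at h1
  unfold uC uh
  exact h1.symm

theorem Frm.jC_Ez (h : Frm B Q T U F) (hC : C ⊆ F) (j : ι) :
    jC B Q j C = ∑ t ∈ B j ∩ Q, (Ez B (C.biUnion id) t).card := by
  have h1 := hit_biUnion (B := B) (B j ∩ Q) (h.sepF.mono hC)
  rw [hit_eq_Ez] at h1
  unfold jC jh
  exact h1.symm

/-- the outside of the class. -/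
def OgY (B : ι → Finset V) (Q : Finset V) (C : Finset (Finset V)) (w0 : V) (j1 j2 : ι) :
    Finset V := (Q \ (B j1 ∩ Q)) \ Gn B Q C w0 j2

/-- the new blocks inside. -/
def IgY (B : ι → Finset V) (Q : Finset V) (C : Finset (Finset V)) (w0 : V) (j2 : ι) :
    Finset ι := ins B (Gn B Q C w0 j2) (insert w0 (B j2 ∩ Q))

theorem KT_full {R K : Finset V} (hr : Reg B R) (h3 : Tr3 B R) (hK : Closed (gr B) R K)
    (hkt : KT B K) {v : V} (hv : v ∈ K) {i : ι} (hi : v ∈ B i) : (B i ∩ R).card = 3 := by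
  have h1 : B i ∩ K = B i ∩ R := by
    refine Subset.antisymm (inter_subset_inter_left hK.1) ?_
    intro w hw
    obtain ⟨h2, h3⟩ := mem_inter.1 hw
    refine mem_inter.2 ⟨h2, ?_⟩
    by_cases he : w = v
    · exact he ▸ hv
    · exact hK.2 v hv w h3 ⟨fun h => he h.symm, i, hi, h2⟩
  rw [← h1]
  exact hkt.trace (hr.mono hK.1) (h3.mono hK.1) ⟨v, mem_inter.2 ⟨hi, hv⟩⟩

namespace Dn

theorem symm (d : Dn B Q T U F Ts NT P C w0 j1 j2) : Dn B Q T U F Ts NT P C w0 j2 j1 :=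
  { d with j1T := d.j2T, j2T := d.j1T, jj := d.jj.symm, s1 := d.s2, s2 := d.s1 }

theorem CF (d : Dn B Q T U F Ts NT P C w0 j1 j2) : C ⊆ F := (d.mp.ptn.vc C d.CP).sub

theorem uU (d : Dn B Q T U F Ts NT P C w0 j1 j2) : w0 ∈ U ∧ slf B F w0 ⊆ C := by
  have h1 : w0 ∈ Sp.Uin U (slf B F) C := by rw [d.Ue]; simp
  exact mem_filter.1 h1

theorem uQ (d : Dn B Q T U F Ts NT P C w0 j1 j2) : w0 ∈ Q := Frm.DQ (d.frm.UD d.uU.1)

theorem mem_Z {v : V} : v ∈ C.biUnion id ↔ ∃ L ∈ C, v ∈ L := by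
  rw [mem_biUnion]
  rfl

theorem uZ (d : Dn B Q T U F Ts NT P C w0 j1 j2) : w0 ∉ C.biUnion id := by
  intro h
  obtain ⟨L, hL, h1⟩ := mem_Z.1 h
  exact disjoint_left.1 (d.frm.ge.FU L (d.CF hL)) h1 d.uU.1

theorem TZ (d : Dn B Q T U F Ts NT P C w0 j1 j2) {j : ι} (hj : j ∈ T) {v : V}
    (hv : v ∈ B j ∩ Q) : v ∉ C.biUnion id ∧ v ≠ w0 := by
  obtain ⟨h1, h2⟩ := d.frm.T_out hj hv
  refine ⟨fun h => ?_, fun h => h1 (h ▸ d.uU.1)⟩
  obtain ⟨L, hL, h3⟩ := mem_Z.1 h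
  exact h2 L (d.CF hL) h3

theorem TT (d : Dn B Q T U F Ts NT P C w0 j1 j2) {v : V} (hv : v ∈ B j1 ∩ Q) : v ∉ B j2 := by
  intro h
  exact disjoint_left.1 (d.frm.mtp.tpk.pack.disj j1 d.j1T j2 d.j2T d.jj) hv
    (mem_inter.2 ⟨h, (mem_inter.1 hv).2⟩)

theorem ZQ (d : Dn B Q T U F Ts NT P C w0 j1 j2) : C.biUnion id ⊆ Q := by
  intro v hv
  obtain ⟨L, hL, h1⟩ := mem_Z.1 hv
  exact d.frm.FQ (d.CF hL) h1

theorem GQ' (d : Dn B Q T U F Ts NT P C w0 j1 j2) : Gn B Q C w0 j2 ⊆ Q := by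
  intro v hv
  rcases mem_Gn.1 hv with h | rfl | h
  · exact (mem_inter.1 h).2
  · exact d.uQ
  · exact d.ZQ h

theorem GQ (d : Dn B Q T U F Ts NT P C w0 j1 j2) : Gn B Q C w0 j2 ⊆ Q \ (B j1 ∩ Q) := by
  intro v hv
  refine mem_sdiff.2 ⟨d.GQ' hv, fun h => ?_⟩
  have h1 := d.TZ d.j1T h
  rcases mem_Gn.1 hv with h2 | h2 | h2
  · exact d.TT h (mem_inter.1 h2).1
  · exact h1.2 h2
  · exact h1.1 h2

theorem Gne (d : Dn B Q T U F Ts NT P C w0 j1 j2) : (Gn B Q C w0 j2).Nonempty :=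
  ⟨w0, mem_Gn.2 (Or.inr (Or.inl rfl))⟩

theorem covZ (d : Dn B Q T U F Ts NT P C w0 j1 j2) : Cov B (C.biUnion id) :=
  d.viol.cov.mono d.ZQ

theorem rhoZ (d : Dn B Q T U F Ts NT P C w0 j1 j2) : rho B (C.biUnion id) = ∑ L ∈ C, rho B L :=
  rho_biUnion (fun L hL => d.frm.covF L (d.CF hL)) (d.frm.sepF.mono d.CF)

theorem out (d : Dn B Q T U F Ts NT P C w0 j1 j2) : ∃ g, MtI B (U \ {w0}) (F \ C) g := by
  classical
  have h1 := d.mp.ptn.free d.gd (X := Sp.Ux U (slf B F) P) (S := {C}) (W := {C})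
    (singleton_subset_iff.2 d.CP) (Subset.refl _) (Sp.MinP.one d.gd d.mp C)
    (x := fun _ => ∅) (by simp)
  have h2 : ({C} : Finset (Finset (Finset V))).biUnion id ∪
      (({C} : Finset (Finset (Finset V))) \ {C}).image (fun _ => (∅ : Finset V)) = C := by
    simp
  rw [h2] at h1
  refine mtI_of_dfc (F := F) (A := C) ?_
  refine Sp.dfc_le fun Z hZ => ?_
  refine le_trans (Sp.le_dfc (hZ.trans ?_)) h1
  intro w hw
  obtain ⟨hw1, hw2⟩ := mem_sdiff.1 hw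
  by_cases h3 : ∃ E ∈ P, slf B F w ⊆ E
  · obtain ⟨E, hE, h4⟩ := h3
    refine mem_union_right _ (mem_biUnion.2 ⟨E, mem_sdiff.2 ⟨hE, ?_⟩, mem_filter.2 ⟨hw1, h4⟩⟩)
    rw [mem_singleton]
    rintro rfl
    rw [← d.Ue] at hw2
    exact hw2 (mem_filter.2 ⟨hw1, h4⟩)
  · push Not at h3
    exact mem_union_left _ (mem_filter.2 ⟨hw1, h3⟩)

theorem inn (d : Dn B Q T U F Ts NT P C w0 j1 j2) : ∃ g, MtI B {w0} C g := by
  obtain ⟨g, hg⟩ := exists_in (B := B) (C := C) d.gd d.CF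
  rw [d.Ue] at hg
  exact ⟨g, hg⟩

theorem rhoG (d : Dn B Q T U F Ts NT P C w0 j1 j2) :
    rho B (Gn B Q C w0 j2) = ∑ L ∈ C, rho B L + 1 := by
  obtain ⟨g, hg⟩ := d.out
  obtain ⟨g', hg'⟩ := d.inn
  have h1 := d.frm.rho_cls d.CF Frm.Dcl.empty (T' := {j2}) (singleton_subset_iff.2 d.j2T)
    (U' := {w0}) (singleton_subset_iff.2 d.uU.1) hg' hg
  rw [rho_empty, add_zero, card_singleton] at h1
  exact h1

theorem svG (d : Dn B Q T U F Ts NT P C w0 j1 j2) : sv B (Gn B Q C w0 j2) = -1 := by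
  obtain ⟨g, hg⟩ := d.out
  obtain ⟨g', hg'⟩ := d.inn
  have h1 := d.frm.sv_cls d.CF Frm.Dcl.empty (T' := {j2}) (singleton_subset_iff.2 d.j2T)
    (U' := {w0}) (singleton_subset_iff.2 d.uU.1) hg' hg
  rw [card_singleton, card_singleton, d.c3] at h1
  unfold Gn
  rw [h1]
  norm_num

/-- the points of the class without the first triple and outside the leaves. -/
theorem X0Z (d : Dn B Q T U F Ts NT P C w0 j1 j2) {v : V} (hv : v ∈ insert w0 (B j2 ∩ Q)) :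
    v ∉ C.biUnion id := by
  rcases mem_insert.1 hv with rfl | h
  · exact d.uZ
  · exact (d.TZ d.j2T h).1

theorem X0G {v : V} (hv : v ∈ insert w0 (B j2 ∩ Q)) : v ∈ Gn B Q C w0 j2 := by
  rcases mem_insert.1 hv with rfl | h
  · exact mem_Gn.2 (Or.inr (Or.inl rfl))
  · exact mem_Gn.2 (Or.inl h)

theorem mem_insG (d : Dn B Q T U F Ts NT P C w0 j1 j2) {i : ι} :
    i ∈ ins B (Gn B Q C w0 j2) (insert w0 (B j2 ∩ Q)) ↔
      ∃ v ∈ insert w0 (B j2 ∩ Q), i ∈ nz B C v := by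
  rw [mem_ins]
  constructor
  · rintro ⟨⟨v, hv⟩, h2⟩
    refine ⟨v, h2 hv, mem_nz.2 ⟨(mem_inter.1 hv).1, ?_⟩⟩
    rw [eq_empty_iff_forall_notMem]
    intro w hw
    obtain ⟨h3, h4⟩ := mem_inter.1 hw
    exact d.X0Z (h2 (mem_inter.2 ⟨h3, mem_Gn.2 (Or.inr (Or.inr h4))⟩)) h4
  · rintro ⟨v, hv, hi⟩
    obtain ⟨h1, h2⟩ := mem_nz.1 hi
    refine ⟨⟨v, mem_inter.2 ⟨h1, X0G hv⟩⟩, fun w hw => ?_⟩
    obtain ⟨h3, h4⟩ := mem_inter.1 hw
    rcases mem_Gn.1 h4 with h5 | h5 | h5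
    · exact mem_insert_of_mem h5
    · exact mem_insert.2 (Or.inl h5)
    · have h6 : w ∈ B i ∩ C.biUnion id := mem_inter.2 ⟨h3, h5⟩
      rw [h2] at h6
      exact absurd h6 (notMem_empty _)

theorem X0c (d : Dn B Q T U F Ts NT P C w0 j1 j2) : (insert w0 (B j2 ∩ Q)).card = 4 := by
  rw [card_insert_of_notMem, d.frm.full d.j2T]
  intro h
  exact (d.TZ d.j2T h).2 rfl

theorem sum_Pv (d : Dn B Q T U F Ts NT P C w0 j1 j2) :
    ∑ L ∈ C, Pv B L = ∑ L ∈ C, Pp B L - 3 := by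
  have h1 : ∀ L ∈ C, Pv B L = Pp B L - 1 := by
    intro L hL
    rw [Pv_eq_Pp, d.frm.sv_leaf (d.CF hL)]
    ring
  rw [sum_congr rfl h1, sum_sub_distrib, sum_const, nsmul_eq_mul, d.c3]
  norm_num

theorem PvG (d : Dn B Q T U F Ts NT P C w0 j1 j2) : Pv B (Gn B Q C w0 j2) =
    ∑ L ∈ C, Pp B L - 7 +
      4 * ((ins B (Gn B Q C w0 j2) (insert w0 (B j2 ∩ Q))).card : ℤ) := by
  have h1 := Pv_sdiff (B := B) (W := Gn B Q C w0 j2) (X := insert w0 (B j2 ∩ Q))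
    (fun v hv => X0G hv)
  have h2 : Gn B Q C w0 j2 \ insert w0 (B j2 ∩ Q) = C.biUnion id := by
    ext v
    rw [mem_sdiff, mem_Gn, mem_insert]
    constructor
    · tauto
    · intro h
      refine ⟨Or.inr (Or.inr h), fun h3 => ?_⟩
      exact d.X0Z (mem_insert.2 h3) h
  have h3 : Pv B (C.biUnion id) = ∑ L ∈ C, Pv B L :=
    Pv_biUnion (fun L hL => d.frm.covF L (d.CF hL)) (d.frm.sepF.mono d.CF)
  rw [h2, h3, d.sum_Pv, d.X0c, d.rhoG, d.rhoZ] at h1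
  push_cast at h1
  linarith

theorem L3ee (d : Dn B Q T U F Ts NT P C w0 j1 j2) : ee B Q (C.biUnion id) = 0 := by
  rw [ee_biUnion (d.frm.sepF.mono d.CF)]
  exact sum_eq_zero fun L hL => d.ee0 L hL

theorem eeG (d : Dn B Q T U F Ts NT P C w0 j1 j2) (hu : (nz B C w0).card ≤ 1) :
    ee B Q (Gn B Q C w0 j2) = 0 := by
  have h1 : Disjoint (C.biUnion id) (insert w0 (B j2 ∩ Q)) := by
    rw [disjoint_left]
    intro v hv hv'
    exact d.X0Z hv' hv
  have h2 : w0 ∉ B j2 ∩ Q := fun h => (d.TZ d.j2T h).2 rfl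
  rw [Gn_eq, ee_union h1, L3ee d, insert_eq, ee_union (disjoint_singleton_left.2 h2),
    d.viol.eeT (d.frm.full d.j2T)]
  have h3 : ee B Q {w0} = 0 := by
    unfold ee
    rw [card_eq_zero, filter_eq_empty_iff]
    intro t ht hcon
    rw [mem_singleton] at ht
    subst ht
    have h4 : univ.filter (fun i => B i ∩ Q = {t}) ⊆ nz B C t := by
      intro i hi
      have h5 := (mem_filter.1 hi).2
      refine mem_nz.2 ⟨?_, ?_⟩
      · have h6 : t ∈ B i ∩ Q := by rw [h5]; simp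
        exact (mem_inter.1 h6).1
      · rw [eq_empty_iff_forall_notMem]
        intro w hw
        obtain ⟨h6, h7⟩ := mem_inter.1 hw
        have h8 : w ∈ B i ∩ Q := mem_inter.2 ⟨h6, d.ZQ h7⟩
        rw [h5, mem_singleton] at h8
        exact d.uZ (h8 ▸ h7)
    have := card_le_card h4
    omega
  rw [h3]

/-! ### the hits from outside -/

theorem hitG (Y : Finset V) :
    hit B Y (Gn B Q C w0 j2) ≤ hit B Y (C.biUnion id) +
      ∑ i ∈ IgY B Q C w0 j2, (B i ∩ Y).card := by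
  classical
  unfold hit
  have h1 : tch B (Gn B Q C w0 j2) ⊆ tch B (C.biUnion id) ∪ IgY B Q C w0 j2 := by
    intro i hi
    rw [cost_mem_tch] at hi
    by_cases h2 : (B i ∩ C.biUnion id).Nonempty
    · exact mem_union_left _ (cost_mem_tch.2 h2)
    · refine mem_union_right _ (mem_ins.2 ⟨hi, fun w hw => ?_⟩)
      obtain ⟨h3, h4⟩ := mem_inter.1 hw
      rcases mem_Gn.1 h4 with h5 | h5 | h5
      · exact mem_insert_of_mem h5
      · exact mem_insert.2 (Or.inl h5)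
      · exact absurd ⟨w, mem_inter.2 ⟨h3, h5⟩⟩ h2
  have h2 := sum_le_sum_of_subset (f := fun i => (B i ∩ Y).card) h1
  have h3 := sum_union_inter (f := fun i => (B i ∩ Y).card) (s₁ := tch B (C.biUnion id))
    (s₂ := IgY B Q C w0 j2)
  omega

theorem hitZ (d : Dn B Q T U F Ts NT P C w0 j1 j2) {k : ℕ}
    (hk : ∑ L ∈ C, hit B (Q \ L) L ≤ uC B w0 C + jC B Q j1 C + jC B Q j2 C + k) :
    hit B (OgY B Q C w0 j1 j2) (C.biUnion id) ≤ k := by
  classical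
  have h1 : ∀ L ∈ C, uh B w0 L + jh B Q j1 L + jh B Q j2 L + hit B (OgY B Q C w0 j1 j2) L ≤
      hit B (Q \ L) L := by
    intro L hL
    have hLZ : L ⊆ C.biUnion id := fun v hv => mem_Z.2 ⟨L, hL, hv⟩
    have e1 : Disjoint ({w0} : Finset V) (B j1 ∩ Q) :=
      disjoint_singleton_left.2 fun h => (d.TZ d.j1T h).2 rfl
    have e2 : Disjoint ({w0} ∪ (B j1 ∩ Q)) (B j2 ∩ Q) := by
      rw [disjoint_union_left]
      refine ⟨disjoint_singleton_left.2 fun h => (d.TZ d.j2T h).2 rfl, ?_⟩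
      rw [disjoint_left]
      intro v hv hv'
      exact d.TT hv (mem_inter.1 hv').1
    have e3 : Disjoint ({w0} ∪ (B j1 ∩ Q) ∪ (B j2 ∩ Q)) (OgY B Q C w0 j1 j2) := by
      rw [disjoint_left]
      intro v hv hv'
      obtain ⟨h2, h3⟩ := mem_sdiff.1 hv'
      rcases mem_union.1 hv with h4 | h4
      · rcases mem_union.1 h4 with h5 | h5
        · exact h3 (mem_Gn.2 (Or.inr (Or.inl (mem_singleton.1 h5))))
        · exact (mem_sdiff.1 h2).2 h5
      · exact h3 (mem_Gn.2 (Or.inl h4))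
    unfold uh jh
    rw [← hit_union_left _ e1, ← hit_union_left _ e2, ← hit_union_left _ e3]
    refine hit_mono_left _ ?_
    intro v hv
    rcases mem_union.1 hv with h4 | h4
    · rcases mem_union.1 h4 with h5 | h5
      · rcases mem_union.1 h5 with h6 | h6
        · rw [mem_singleton] at h6
          subst h6
          exact mem_sdiff.2 ⟨d.uQ, fun h => d.uZ (hLZ h)⟩
        · exact mem_sdiff.2 ⟨(mem_inter.1 h6).2, fun h => (d.TZ d.j1T h6).1 (hLZ h)⟩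
      · exact mem_sdiff.2 ⟨(mem_inter.1 h5).2, fun h => (d.TZ d.j2T h5).1 (hLZ h)⟩
    · obtain ⟨h5, h6⟩ := mem_sdiff.1 h4
      exact mem_sdiff.2 ⟨(mem_sdiff.1 h5).1, fun h =>
        h6 (mem_Gn.2 (Or.inr (Or.inr (hLZ h))))⟩
  have h2 := hit_biUnion (B := B) (OgY B Q C w0 j1 j2) (d.frm.sepF.mono d.CF)
  rw [h2]
  unfold uC jC at hk
  have h3 := sum_le_sum h1
  rw [sum_add_distrib, sum_add_distrib, sum_add_distrib] at h3
  omega

theorem out2 (d : Dn B Q T U F Ts NT P C w0 j1 j2) {i : ι} (hi : i ∈ IgY B Q C w0 j2) :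
    (B i ∩ OgY B Q C w0 j1 j2).card ≤ 2 := by
  obtain ⟨⟨v, hv⟩, -⟩ := mem_ins.1 hi
  obtain ⟨hv1, hv2⟩ := mem_inter.1 hv
  have h1 : B i ∩ OgY B Q C w0 j1 j2 ⊆ (B i ∩ Q).erase v := by
    intro w hw
    obtain ⟨h2, h3⟩ := mem_inter.1 hw
    obtain ⟨h4, h5⟩ := mem_sdiff.1 h3
    refine mem_erase.2 ⟨?_, mem_inter.2 ⟨h2, (mem_sdiff.1 h4).1⟩⟩
    rintro rfl
    exact h5 hv2
  have h2 := card_le_card h1
  have h3 : v ∈ B i ∩ Q := mem_inter.2 ⟨hv1, d.GQ' hv2⟩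
  rw [card_erase_of_mem h3] at h2
  have h4 := d.viol.tr i
  omega

theorem out1 (d : Dn B Q T U F Ts NT P C w0 j1 j2) {i : ι} (hi : i ∈ IgY B Q C w0 j2) {t : V}
    (ht : t ∈ B j1 ∩ Q) (hti : t ∈ B i) : (B i ∩ OgY B Q C w0 j1 j2).card ≤ 1 := by
  obtain ⟨⟨v, hv⟩, -⟩ := mem_ins.1 hi
  obtain ⟨hv1, hv2⟩ := mem_inter.1 hv
  have h1 : B i ∩ OgY B Q C w0 j1 j2 ⊆ ((B i ∩ Q).erase v).erase t := by
    intro w hw
    obtain ⟨h2, h3⟩ := mem_inter.1 hw
    obtain ⟨h4, h5⟩ := mem_sdiff.1 h3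
    refine mem_erase.2 ⟨?_, mem_erase.2 ⟨?_, mem_inter.2 ⟨h2, (mem_sdiff.1 h4).1⟩⟩⟩
    · rintro rfl
      exact (mem_sdiff.1 h4).2 ht
    · rintro rfl
      exact h5 hv2
  have h2 := card_le_card h1
  have h3 : v ∈ B i ∩ Q := mem_inter.2 ⟨hv1, d.GQ' hv2⟩
  have h5 : t ∈ (B i ∩ Q).erase v := by
    refine mem_erase.2 ⟨?_, mem_inter.2 ⟨hti, (mem_inter.1 ht).2⟩⟩
    rintro rfl
    exact (mem_sdiff.1 (d.GQ hv2)).2 ht
  rw [card_erase_of_mem h5, card_erase_of_mem h3] at h2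
  have h4 := d.viol.tr i
  omega

theorem out0 : (B j2 ∩ OgY B Q C w0 j1 j2).card = 0 := by
  rw [card_eq_zero, eq_empty_iff_forall_notMem]
  intro v hv
  obtain ⟨h1, h2⟩ := mem_inter.1 hv
  obtain ⟨h3, h4⟩ := mem_sdiff.1 h2
  exact h4 (mem_Gn.2 (Or.inl (mem_inter.2 ⟨h1, (mem_sdiff.1 h3).1⟩)))

/-! ### contacts -/

theorem cnf (d : Dn B Q T U F Ts NT P C w0 j1 j2) {L : Finset V} (hL : L ∈ C) :
    Conn (gr B) L :=
  ⟨(d.frm.ge.sys.fc L (d.CF hL)).1, fun _ hZ hne => (d.frm.ge.sys.fc L (d.CF hL)).conn hZ hne⟩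

theorem seeG (d : Dn B Q T U F Ts NT P C w0 j1 j2) {v : V} (hv : v ∈ Q)
    (hvG : v ∉ Gn B Q C w0 j2) {L : Finset V} (hL : L ∈ C) (hs : ∃ y ∈ L, (gr B).Adj v y) :
    Abz B (Gn B Q C w0 j2) {v} := by
  classical
  have hvw : v ≠ w0 := by
    rintro rfl
    exact hvG (mem_Gn.2 (Or.inr (Or.inl rfl)))
  obtain ⟨L', hL', hne⟩ : ∃ L' ∈ slf B F w0, L' ≠ L := by
    by_contra hcon
    push Not at hcon
    have h1 := d.gd.two_leaf d.uU.1
    have h2 : slf B F w0 ∩ F ⊆ {L} := fun M hM => mem_singleton.2 (hcon M (mem_inter.1 hM).1)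
    have := card_le_card h2
    rw [card_singleton] at this
    omega
  have h1 : MtI B {w0, v} C (fun x => if x = v then L else L') := by
    refine ⟨?_, ?_, ?_⟩
    · intro p hp
      split_ifs with h
      · exact hL
      · exact d.uU.2 hL'
    · intro p hp
      split_ifs with h
      · exact h ▸ hs
      · rcases mem_insert.1 hp with h2 | h2
        · exact h2 ▸ (mem_slf.1 hL').2
        · exact absurd (mem_singleton.1 h2) h
    · intro p hp q hq h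
      split_ifs at h with h2 h3 h3
      · rw [h2, h3]
      · exact absurd h.symm hne
      · exact absurd h hne
      · rcases mem_insert.1 hp with h4 | h4
        · rcases mem_insert.1 hq with h5 | h5
          · rw [h4, h5]
          · exact absurd (mem_singleton.1 h5) h3
        · exact absurd (mem_singleton.1 h4) h2
  have hvZ : v ∉ C.biUnion id := fun h => hvG (mem_Gn.2 (Or.inr (Or.inr h)))
  have h2 := d.frm.rho_Zn_le (T' := {j2}) d.CF (P := {w0, v}) (D := ∅) (by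
    intro x hx
    rcases mem_insert.1 hx with rfl | hx
    · exact d.uQ
    · exact mem_singleton.1 hx ▸ hv) (empty_subset _) (by
    intro M hM
    rw [disjoint_left]
    intro x hxM hx
    have hxZ : x ∈ C.biUnion id := mem_Z.2 ⟨M, hM, hxM⟩
    rcases mem_insert.1 hx with rfl | hx
    · exact d.uZ hxZ
    · exact hvZ (mem_singleton.1 hx ▸ hxZ)) h1
  rw [rho_empty, add_zero, card_singleton, ← d.rhoG] at h2
  have h3 : Zn B Q {j2} {w0, v} C ∅ = Gn B Q C w0 j2 ∪ {v} := by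
    ext x
    rw [mem_Zn, mem_union, mem_Gn]
    simp only [mem_singleton, exists_eq_left, mem_insert, notMem_empty, or_false, mem_inter,
      mem_biUnion, id]
    constructor
    · rintro (h | (h | h) | h)
      · exact Or.inl (Or.inl h)
      · exact Or.inl (Or.inr (Or.inl h))
      · exact Or.inr h
      · exact Or.inl (Or.inr (Or.inr h))
    · rintro ((h | h | h) | h)
      · exact Or.inl h
      · exact Or.inr (Or.inl (Or.inl h))
      · exact Or.inr (Or.inr h)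
      · exact Or.inr (Or.inl (Or.inr h))
  rw [h3] at h2
  refine abz_of_rho (d.viol.cov.mono ?_) h2
  exact union_subset d.GQ' (singleton_subset_iff.2 hv)

theorem habs (d : Dn B Q T U F Ts NT P C w0 j1 j2)
    (hm : ∀ x ∈ insert w0 (B j2 ∩ Q), ∀ i ∈ nz B C x, i ≠ j2 →
      rho B ((Gn B Q C w0 j2).erase x) + 1 ≤ rho B (Gn B Q C w0 j2)) :
    ∀ v ∈ Q, v ∉ Gn B Q C w0 j2 → v ∉ B j1 → (Ez B (Gn B Q C w0 j2) v).Nonempty →
      Abz B (Gn B Q C w0 j2) {v} := by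
  intro v hv hvG _ hne
  obtain ⟨i, hi⟩ := hne
  obtain ⟨hvi, w, hw⟩ := mem_Ez.1 hi
  obtain ⟨hwi, hwG⟩ := mem_inter.1 hw
  by_cases h : (B i ∩ C.biUnion id).Nonempty
  · obtain ⟨y, hy⟩ := h
    obtain ⟨hyi, hyZ⟩ := mem_inter.1 hy
    obtain ⟨L, hL, hyL⟩ := mem_Z.1 hyZ
    refine d.seeG hv hvG hL ⟨y, hyL, ?_, i, hvi, hyi⟩
    rintro rfl
    exact hvG (mem_Gn.2 (Or.inr (Or.inr hyZ)))
  · have h1 : w ∈ insert w0 (B j2 ∩ Q) := by
      rcases mem_Gn.1 hwG with h5 | h5 | h5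
      · exact mem_insert_of_mem h5
      · exact mem_insert.2 (Or.inl h5)
      · exact absurd ⟨w, mem_inter.2 ⟨hwi, h5⟩⟩ h
    have hnz : i ∈ nz B C w := mem_nz.2 ⟨hwi, not_nonempty_iff_eq_empty.1 h⟩
    have hij : i ≠ j2 := by
      rintro rfl
      exact hvG (mem_Gn.2 (Or.inl (mem_inter.2 ⟨hvi, hv⟩)))
    exact abz_of_miss (d.viol.cov.mono d.GQ') (hm w h1 i hnz hij) hwi
      (singleton_subset_iff.2 hvi)

/-! ### parts -/

theorem seesT (d : Dn B Q T U F Ts NT P C w0 j1 j2) {j : ι} (hj : j ∈ T) {v : V}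
    (hv : v ∈ B j ∩ Q) (h4 : (nz B C v).card ≤ 4) : ∃ L ∈ C, ∃ w ∈ L, (gr B).Adj v w := by
  have h1 := nz_card (C := C) d.viol.reg (mem_inter.1 hv).2
  obtain ⟨i, hi⟩ := card_pos.1 (show 0 < (Ez B (C.biUnion id) v).card by omega)
  obtain ⟨hvi, y, hy⟩ := mem_Ez.1 hi
  obtain ⟨hyi, hyZ⟩ := mem_inter.1 hy
  obtain ⟨L, hL, hyL⟩ := mem_Z.1 hyZ
  refine ⟨L, hL, y, hyL, ?_, i, hvi, hyi⟩
  rintro rfl
  exact (d.TZ hj hv).1 hyZ

theorem sees (d : Dn B Q T U F Ts NT P C w0 j1 j2)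
    (h4 : ∀ v ∈ (B j1 ∩ Q) ∪ (B j2 ∩ Q), (nz B C v).card ≤ 4) {v : V}
    (hv : v ∈ Gn B Q C w0 j2 ∪ (B j1 ∩ Q)) :
    ∃ L ∈ C, v ∈ L ∨ ∃ w ∈ L, (gr B).Adj v w := by
  rcases mem_union.1 hv with h | h
  · rcases mem_Gn.1 h with h1 | h1 | h1
    · obtain ⟨L, hL, h2⟩ := d.seesT d.j2T h1 (h4 v (mem_union_right _ h1))
      exact ⟨L, hL, Or.inr h2⟩
    · subst h1
      obtain ⟨L, hL⟩ := d.gd.N_ne d.uU.1
      exact ⟨L, d.uU.2 hL, Or.inr (mem_slf.1 hL).2⟩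
    · obtain ⟨L, hL, h2⟩ := mem_Z.1 h1
      exact ⟨L, hL, Or.inl h2⟩
  · obtain ⟨L, hL, h2⟩ := d.seesT d.j1T h (h4 v (mem_union_left _ h))
    exact ⟨L, hL, Or.inr h2⟩

theorem noKT (d : Dn B Q T U F Ts NT P C w0 j1 j2) {R K : Finset V} (hRQ : R ⊆ Q)
    (hK : Closed (gr B) R K) (hne : K.Nonempty) (hkt : KT B K)
    (hsee : ∀ v ∈ R, ∃ L ∈ C, v ∈ L ∨ ∃ w ∈ L, (gr B).Adj v w) (hCR : ∀ L ∈ C, L ⊆ R)
    (hKD : ∀ v ∈ K, v = w0 ∨ v ∈ C.biUnion id) : False := by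
  obtain ⟨v, hv⟩ := hne
  obtain ⟨L, hL, h1⟩ := hsee v (hK.1 hv)
  obtain ⟨y, hyL, hyK⟩ : ∃ y ∈ L, y ∈ K := by
    rcases h1 with h1 | ⟨w, hw, hvw⟩
    · exact ⟨v, h1, hv⟩
    · exact ⟨w, hw, hK.2 v hv w (hCR L hL hw) hvw⟩
  obtain ⟨i, hi⟩ := d.viol.cov y (d.frm.FQ (d.CF hL) hyL)
  have h2 := hkt.trace ((d.viol.reg.mono hRQ).mono hK.1) ((d.viol.tr.mono hRQ).mono hK.1)
    (i := i) ⟨y, mem_inter.2 ⟨hi, hyK⟩⟩
  have h3 := d.frm.two_leaf (d.CF hL) hi hyL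
  have h4 : B i ∩ K ⊆ B i ∩ Dp B Q T := by
    intro x hx
    obtain ⟨h5, h6⟩ := mem_inter.1 hx
    refine mem_inter.2 ⟨h5, ?_⟩
    rcases hKD x h6 with rfl | h7
    · exact d.frm.UD d.uU.1
    · obtain ⟨M, hM, h8⟩ := mem_Z.1 h7
      exact d.frm.FD (d.CF hM) h8
  have := card_le_card h4
  omega

theorem LG {L : Finset V} (hL : L ∈ C) : L ⊆ Gn B Q C w0 j2 :=
  fun v hv => mem_Gn.2 (Or.inr (Or.inr (mem_Z.2 ⟨L, hL, hv⟩)))

/-- a point of the second triple with a new block can be missed. -/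
theorem missT (d : Dn B Q T U F Ts NT P C w0 j1 j2)
    (h4 : ∀ v ∈ (B j1 ∩ Q) ∪ (B j2 ∩ Q), (nz B C v).card ≤ 4) {c : V} (hc : c ∈ B j2 ∩ Q)
    {i : ι} (hi : c ∈ B i) (hic : B i ∩ Gn B Q C w0 j2 ⊆ {c})
    (hP : Pv B (Gn B Q C w0 j2) ≤ 5) :
    rho B ((Gn B Q C w0 j2).erase c) + 1 ≤ rho B (Gn B Q C w0 j2) := by
  have hcG : c ∈ Gn B Q C w0 j2 := mem_Gn.2 (Or.inl hc)
  have hcov : Cov B (Gn B Q C w0 j2) := d.viol.cov.mono d.GQ'
  have hcZ := (d.TZ d.j2T hc).1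
  by_contra hcon
  have h1 := rho_erase_le (B := B) (x := c) hcov
  have h2 := rho_le_erase (B := B) (x := c) hcov
  have h3 : rho B ((Gn B Q C w0 j2).erase c) = rho B (Gn B Q C w0 j2) := by omega
  have h5 := Pv_sdiff (B := B) (W := Gn B Q C w0 j2) (X := {c}) (singleton_subset_iff.2 hcG)
  rw [sdiff_singleton_eq_erase, h3, card_singleton] at h5
  have h6 : 1 ≤ (ins B (Gn B Q C w0 j2) {c}).card :=
    card_pos.2 ⟨i, mem_ins.2 ⟨⟨c, mem_inter.2 ⟨hi, hcG⟩⟩, hic⟩⟩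
  have h6' : (1 : ℤ) ≤ (ins B (Gn B Q C w0 j2) {c}).card := by exact_mod_cast h6
  have hRQ : (Gn B Q C w0 j2).erase c ⊆ Q := (erase_subset _ _).trans d.GQ'
  have hCR : ∀ L ∈ C, L ⊆ (Gn B Q C w0 j2).erase c := by
    intro L hL v hv
    refine mem_erase.2 ⟨?_, LG hL hv⟩
    rintro rfl
    exact hcZ (mem_Z.2 ⟨L, hL, hv⟩)
  have hsee : ∀ v ∈ (Gn B Q C w0 j2).erase c, ∃ L ∈ C, v ∈ L ∨ ∃ w ∈ L, (gr B).Adj v w :=
    fun v hv => d.sees h4 (mem_union_left _ (mem_erase.1 hv).2)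
  have h7 := d.viol.comp_bound (R := (Gn B Q C w0 j2).erase c) hRQ (by
    have h8 := card_erase_add_one hcG
    have h9 := card_le_card d.GQ'
    omega) (fun L hL => ⟨hCR L hL, d.cnf hL⟩) hsee (c0 := w0) (δ := 0) (by
    intro K hK hKc hkt
    exfalso
    by_cases h8 : ∃ v ∈ K, v ∈ B j2
    · obtain ⟨v, hv, hvj⟩ := h8
      have h9 := KT_full (d.viol.reg.mono hRQ) (d.viol.tr.mono hRQ) hK hkt hv hvj
      have h10 : B j2 ∩ (Gn B Q C w0 j2).erase c ⊆ (B j2 ∩ Q).erase c := by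
        intro x hx
        obtain ⟨h11, h12⟩ := mem_inter.1 hx
        exact mem_erase.2 ⟨(mem_erase.1 h12).1, mem_inter.2 ⟨h11, hRQ h12⟩⟩
      have h11 := card_le_card h10
      rw [card_erase_of_mem hc, d.frm.full d.j2T] at h11
      omega
    · push Not at h8
      refine d.noKT hRQ hK hKc.1 hkt hsee hCR fun v hv => ?_
      rcases mem_Gn.1 (mem_erase.1 (hK.1 hv)).2 with h9 | h9 | h9
      · exact absurd (mem_inter.1 h9).1 (h8 v hv)
      · exact Or.inl h9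
      · exact Or.inr h9)
  rw [d.c3] at h7
  push_cast at h5 h7
  linarith

/-- the own point can be missed. -/
theorem missU (d : Dn B Q T U F Ts NT P C w0 j1 j2)
    (hX : ∀ t ∈ B j2 ∩ Q, ∀ i ∈ nz B C t, i = j2)
    (hA : ∑ L ∈ slj B Q F j2, Pp B L ≤ ((slj B Q F j2).card : ℤ) + 2 ∨
      (2 ≤ (slj B Q F j2).card ∧
        ∑ L ∈ slj B Q F j2, Pp B L ≤ ((slj B Q F j2).card : ℤ) + 3)) :
    rho B ((Gn B Q C w0 j2).erase w0) + 1 ≤ rho B (Gn B Q C w0 j2) := by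
  classical
  set A := slj B Q F j2 with hAd
  have hAC : A ⊆ C := d.s2
  have hAF : A ⊆ F := hAC.trans d.CF
  set K := (B j2 ∩ Q) ∪ A.biUnion id with hK
  have hAQ : A.biUnion id ⊆ Q := by
    intro v hv
    obtain ⟨L, hL, hvL⟩ := mem_Z.1 hv
    exact d.frm.FQ (hAF hL) hvL
  have hKQ : K ⊆ Q := union_subset inter_subset_right hAQ
  have hcK : Cov B K := d.viol.cov.mono hKQ
  have hcA : Cov B (A.biUnion id) := d.viol.cov.mono hAQ
  have hdis : Disjoint (B j2 ∩ Q) (A.biUnion id) := by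
    rw [disjoint_left]
    intro v hv hv'
    obtain ⟨L, hL, hvL⟩ := mem_Z.1 hv'
    exact (d.TZ d.j2T hv).1 (mem_Z.2 ⟨L, hAC hL, hvL⟩)
  have hrA : rho B (A.biUnion id) = ∑ L ∈ A, rho B L :=
    rho_biUnion (fun L hL => d.frm.covF L (hAF hL)) (d.frm.sepF.mono hAF)
  have hPA : Pv B (A.biUnion id) = ∑ L ∈ A, Pv B L :=
    Pv_biUnion (fun L hL => d.frm.covF L (hAF hL)) (d.frm.sepF.mono hAF)
  have key : rho B K ≤ ∑ L ∈ A, rho B L := by
    by_contra hcon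
    have h1 : rho B (B j2 ∩ Q) ≤ 1 := by
      have h2 : B j2 ∩ Q ⊆ ({j2} : Finset ι).biUnion B := by
        rw [singleton_biUnion]
        exact inter_subset_left
      have h3 := Hyp6.rho_le h2
      rwa [card_singleton] at h3
    have h2 := rho_union_le (B := B) (d.viol.cov.mono (inter_subset_right (s₁ := B j2))) hcA
    rw [← hK, hrA] at h2
    have h3 : rho B K = ∑ L ∈ A, rho B L + 1 := by omega
    have h4 := Pv_sdiff (B := B) (W := K) (X := B j2 ∩ Q) subset_union_left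
    have h5 : K \ (B j2 ∩ Q) = A.biUnion id := by
      rw [hK, union_sdiff_cancel_left hdis]
    have h6 : (ins B K (B j2 ∩ Q)).card ≤ 1 := by
      have h7 : ins B K (B j2 ∩ Q) ⊆ {j2} := by
        intro i hi
        obtain ⟨⟨t, ht⟩, h8⟩ := mem_ins.1 hi
        obtain ⟨hti, htK⟩ := mem_inter.1 ht
        have htT := h8 ht
        refine mem_singleton.2 (hX t htT i (mem_nz.2 ⟨hti, ?_⟩))
        rw [eq_empty_iff_forall_notMem]
        intro y hy
        obtain ⟨hyi, hyZ⟩ := mem_inter.1 hy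
        obtain ⟨L, hL, hyL⟩ := mem_Z.1 hyZ
        have hty : t ≠ y := by
          rintro rfl
          exact (d.TZ d.j2T htT).1 hyZ
        have h9 : L ∈ A := mem_biUnion.2 ⟨t, htT, mem_slf.2 ⟨d.CF hL, y, hyL, hty, i, hti, hyi⟩⟩
        have h10 : y ∈ B j2 ∩ Q := h8 (mem_inter.2 ⟨hyi, mem_union_right _
          (mem_Z.2 ⟨L, h9, hyL⟩)⟩)
        exact (d.TZ d.j2T h10).1 hyZ
      have := card_le_card h7
      rwa [card_singleton] at this
    have h6' : ((ins B K (B j2 ∩ Q)).card : ℤ) ≤ 1 := by exact_mod_cast h6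
    have h7 : ∑ L ∈ A, Pv B L = ∑ L ∈ A, Pp B L - A.card := by
      have h8 : ∀ L ∈ A, Pv B L = Pp B L - 1 := by
        intro L hL
        rw [Pv_eq_Pp, d.frm.sv_leaf (hAF hL)]
        ring
      rw [sum_congr rfl h8, sum_sub_distrib, sum_const, nsmul_eq_mul, mul_one]
    have h3' : (rho B K : ℤ) = ∑ L ∈ A, (rho B L : ℤ) + 1 := by
      rw [h3]
      push_cast
      ring
    rw [h5, hPA, h7, d.frm.full d.j2T, hrA, h3] at h4
    push_cast at h4
    -- a point of the triple sees a leaf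
    have hcard : 0 < (B j2 ∩ Q).card := by rw [d.frm.full d.j2T]; norm_num
    obtain ⟨t, ht⟩ := card_pos.1 hcard
    have hA1 : A.Nonempty := by
      have h8 : (nz B C t).card ≤ 1 := by
        have h9 : nz B C t ⊆ {j2} := fun i hi => mem_singleton.2 (hX t ht i hi)
        have := card_le_card h9
        rwa [card_singleton] at this
      obtain ⟨L, hL, h9⟩ := d.seesT d.j2T ht (by omega)
      exact ⟨L, mem_biUnion.2 ⟨t, ht, mem_slf.2 ⟨d.CF hL, h9⟩⟩⟩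
    have hconn : Conn (gr B) K := by
      refine conn_star (B := B) ⟨t, ht⟩ ?_ (fun L hL => d.cnf (hAC hL)) ?_
      · intro x hx y hy hxy
        exact ⟨hxy, j2, (mem_inter.1 hx).1, (mem_inter.1 hy).1⟩
      · intro L hL
        obtain ⟨x, hx, h8⟩ := mem_biUnion.1 hL
        exact ⟨x, hx, (mem_slf.1 h8).2⟩
    have hlt : K.card < Q.card := by
      refine card_lt_card ((ssubset_iff_of_subset hKQ).2 ⟨w0, d.uQ, fun h => ?_⟩)
      rcases mem_union.1 h with h | h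
      · exact (d.TZ d.j2T h).2 rfl
      · obtain ⟨L, hL, h8⟩ := mem_Z.1 h
        exact d.uZ (mem_Z.2 ⟨L, hAC hL, h8⟩)
    have h8 : -2 ≤ Pv B K := by
      by_cases hkt : KT B K
      · rw [hkt.Pv_eq]
      · have h9 := d.viol.ih ι B K hlt (d.viol.reg.mono hKQ) (d.viol.tr.mono hKQ) hconn hkt
        have h10 : (0 : ℤ) ≤ ee B K K := by positivity
        linarith
    have h9 : 2 ≤ A.card → -1 ≤ Pv B K := by
      intro hA2
      refine d.viol.part_neg hKQ hlt hconn ?_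
      have h10 : sv B (A.biUnion id) = ∑ L ∈ A, sv B L :=
        sv_biUnion (fun L hL => d.frm.covF L (hAF hL)) (d.frm.sepF.mono hAF)
      have h11 : ∑ L ∈ A, sv B L = -(A.card : ℤ) := by
        rw [sum_congr rfl fun L hL => d.frm.sv_leaf (hAF hL), sum_const, nsmul_eq_mul]
        ring
      have h12 : K.card = 3 + (A.biUnion id).card := by
        rw [hK, card_union_of_disjoint hdis, d.frm.full d.j2T]
      rw [h11] at h10
      unfold sv at h10 ⊢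
      rw [hrA] at h10
      rw [h12, h3]
      push_cast at h10 ⊢
      have : (2 : ℤ) ≤ A.card := by exact_mod_cast hA2
      linarith
    have hA1' : (1 : ℤ) ≤ A.card := by exact_mod_cast card_pos.2 hA1
    rcases hA with hA | ⟨hA2, hA⟩
    · by_cases h10 : 2 ≤ A.card
      · have := h9 h10
        linarith
      · have : A.card = 1 := by
          have := card_pos.2 hA1
          omega
        rw [this] at h4 hA
        push_cast at h4 hA
        linarith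
    · have := h9 hA2
      linarith
  have h1 : (Gn B Q C w0 j2).erase w0 ⊆ K ∪ (C \ A).biUnion id := by
    intro v hv
    obtain ⟨h2, h3⟩ := mem_erase.1 hv
    rcases mem_Gn.1 h3 with h4 | h4 | h4
    · exact mem_union_left _ (mem_union_left _ h4)
    · exact absurd h4 h2
    · obtain ⟨L, hL, h5⟩ := mem_Z.1 h4
      by_cases h6 : L ∈ A
      · exact mem_union_left _ (mem_union_right _ (mem_Z.2 ⟨L, h6, h5⟩))
      · exact mem_union_right _ (mem_Z.2 ⟨L, mem_sdiff.2 ⟨hL, h6⟩, h5⟩)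
  have hcC : ∀ L ∈ C \ A, Cov B L := fun L hL => d.frm.covF L (d.CF (mem_sdiff.1 hL).1)
  have h2 := rho_mono h1 (hcK.union (cov_biUnion hcC))
  have h3 := rho_union_le (B := B) hcK (cov_biUnion hcC)
  have h4 : rho B ((C \ A).biUnion id) = ∑ L ∈ C \ A, rho B L :=
    rho_biUnion hcC (d.frm.sepF.mono (sdiff_subset.trans d.CF))
  have h5 := sum_sdiff (f := fun L => rho B L) hAC
  rw [d.rhoG]
  omega

/-- the other two points of the first triple are absorbed. -/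
theorem absX (d : Dn B Q T U F Ts NT P C w0 j1 j2)
    (h4 : ∀ v ∈ (B j1 ∩ Q) ∪ (B j2 ∩ Q), (nz B C v).card ≤ 4) {t : V} (ht : t ∈ B j1 ∩ Q)
    (hn : Pv B (Gn B Q C w0 j2) + 4 * ∑ a ∈ (B j1 ∩ Q).erase t, ((nz B C a).card : ℤ) ≤ 13) :
    Abz B (Gn B Q C w0 j2) ((B j1 ∩ Q).erase t) := by
  classical
  set X := (B j1 ∩ Q).erase t with hX
  set G' := Gn B Q C w0 j2 with hG
  have hXT : X ⊆ B j1 ∩ Q := erase_subset _ _
  have hXc : X.card = 2 := by
    rw [hX, card_erase_of_mem ht, d.frm.full d.j1T]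
  have hdis : Disjoint G' X := by
    rw [disjoint_left]
    intro v hv hv'
    exact (mem_sdiff.1 (d.GQ hv)).2 (hXT hv')
  have hRQ : G' ∪ X ⊆ Q := union_subset d.GQ' (hXT.trans inter_subset_right)
  have hcW : Cov B (G' ∪ X) := d.viol.cov.mono hRQ
  by_contra hcon
  have h3 : rho B G' + 1 ≤ rho B (G' ∪ X) := by
    by_contra h5
    exact hcon (abz_of_rho hcW (by omega))
  have h3' : (rho B G' : ℤ) + 1 ≤ rho B (G' ∪ X) := by exact_mod_cast h3
  have h1 := Pv_sdiff (B := B) (W := G' ∪ X) (X := X) subset_union_right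
  rw [union_sdiff_cancel_right hdis, hXc] at h1
  have hj1 : ∀ a ∈ X, j1 ∈ nz B C a := by
    intro a ha
    refine mem_nz.2 ⟨(mem_inter.1 (hXT ha)).1, ?_⟩
    rw [eq_empty_iff_forall_notMem]
    intro y hy
    obtain ⟨h5, h6⟩ := mem_inter.1 hy
    exact (d.TZ d.j1T (mem_inter.2 ⟨h5, d.ZQ h6⟩)).1 h6
  have h5 : (ins B (G' ∪ X) X).card + 1 ≤ ∑ a ∈ X, (nz B C a).card := by
    have h6 : ins B (G' ∪ X) X ⊆ insert j1 (X.biUnion fun a => (nz B C a).erase j1) := by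
      intro i hi
      obtain ⟨⟨v, hv⟩, h7⟩ := mem_ins.1 hi
      obtain ⟨hvi, hvW⟩ := mem_inter.1 hv
      by_cases he : i = j1
      · exact he ▸ mem_insert_self _ _
      · refine mem_insert_of_mem (mem_biUnion.2 ⟨v, h7 hv, mem_erase.2 ⟨he, mem_nz.2 ⟨hvi, ?_⟩⟩⟩)
        rw [eq_empty_iff_forall_notMem]
        intro y hy
        obtain ⟨h8, h9⟩ := mem_inter.1 hy
        have h10 : y ∈ G' := mem_Gn.2 (Or.inr (Or.inr h9))
        exact disjoint_left.1 hdis h10 (h7 (mem_inter.2 ⟨h8, mem_union_left _ h10⟩))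
    have h7 := card_le_card h6
    have h8 := card_insert_le j1 (X.biUnion fun a => (nz B C a).erase j1)
    have h9 : (X.biUnion fun a => (nz B C a).erase j1).card ≤
        ∑ a ∈ X, ((nz B C a).erase j1).card := card_biUnion_le
    have h10 : ∑ a ∈ X, ((nz B C a).erase j1).card + 2 = ∑ a ∈ X, (nz B C a).card := by
      have h11 : ∑ a ∈ X, (((nz B C a).erase j1).card + 1) = ∑ a ∈ X, (nz B C a).card :=
        sum_congr rfl fun a ha => card_erase_add_one (hj1 a ha)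
      rw [sum_add_distrib, sum_const, hXc] at h11
      simpa using h11
    omega
  have h5' : ((ins B (G' ∪ X) X).card : ℤ) + 1 ≤ ∑ a ∈ X, ((nz B C a).card : ℤ) := by
    exact_mod_cast h5
  have hCR : ∀ L ∈ C, L ⊆ G' ∪ X := fun L hL v hv => mem_union_left _ (LG hL hv)
  have hsee : ∀ v ∈ G' ∪ X, ∃ L ∈ C, v ∈ L ∨ ∃ w ∈ L, (gr B).Adj v w := by
    intro v hv
    refine d.sees h4 ?_
    rcases mem_union.1 hv with h6 | h6
    · exact mem_union_left _ h6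
    · exact mem_union_right _ (hXT h6)
  obtain ⟨c0, hc0⟩ := card_pos.1 (show 0 < (B j2 ∩ Q).card by
    rw [d.frm.full d.j2T]
    norm_num)
  have hc0R : c0 ∈ G' ∪ X := mem_union_left _ (mem_Gn.2 (Or.inl hc0))
  have h6 := d.viol.comp_bound (R := G' ∪ X) hRQ (by
    refine card_lt_card ((ssubset_iff_of_subset hRQ).2 ⟨t, (mem_inter.1 ht).2, fun h => ?_⟩)
    rcases mem_union.1 h with h | h
    · exact (mem_sdiff.1 (d.GQ h)).2 ht
    · exact (mem_erase.1 h).1 rfl) (fun L hL => ⟨hCR L hL, d.cnf hL⟩) hsee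
    (c0 := c0) (δ := 1) (by
    intro K hK hKc hkt
    refine ⟨?_, le_rfl⟩
    by_cases h8 : ∃ v ∈ K, v ∈ B j1
    · exfalso
      obtain ⟨v, hv, hvj⟩ := h8
      have h9 := KT_full (d.viol.reg.mono hRQ) (d.viol.tr.mono hRQ) hK hkt hv hvj
      have h10 : B j1 ∩ (G' ∪ X) ⊆ X := by
        intro x hx
        obtain ⟨h11, h12⟩ := mem_inter.1 hx
        rcases mem_union.1 h12 with h13 | h13
        · exact absurd (mem_inter.2 ⟨h11, hRQ h12⟩) (mem_sdiff.1 (d.GQ h13)).2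
        · exact h13
      have := card_le_card h10
      omega
    · push Not at h8
      by_cases h9 : ∃ v ∈ K, v ∈ B j2
      · obtain ⟨v, hv, hvj⟩ := h9
        by_cases he : v = c0
        · exact he ▸ hv
        · exact hK.2 v hv c0 hc0R ⟨he, j2, hvj, (mem_inter.1 hc0).1⟩
      · push Not at h9
        exfalso
        refine d.noKT hRQ hK hKc.1 hkt hsee hCR fun v hv => ?_
        rcases mem_union.1 (hK.1 hv) with h10 | h10
        · rcases mem_Gn.1 h10 with h11 | h11 | h11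
          · exact absurd (mem_inter.1 h11).1 (h9 v hv)
          · exact Or.inl h11
          · exact Or.inr h11
        · exact absurd (mem_inter.1 (hXT h10)).1 (h8 v hv))
  rw [d.c3] at h6
  push_cast at h1 h6
  linarith

/-! ### the two contradictions -/

theorem fin4 (d : Dn B Q T U F Ts NT P C w0 j1 j2)
    (h4 : ∀ v ∈ (B j1 ∩ Q) ∪ (B j2 ∩ Q), (nz B C v).card ≤ 4) (hW : (nz B C w0).card ≤ 1)
    (hm : ∀ x ∈ insert w0 (B j2 ∩ Q), ∀ i ∈ nz B C x, i ≠ j2 →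
      rho B ((Gn B Q C w0 j2).erase x) + 1 ≤ rho B (Gn B Q C w0 j2))
    {t : V} (ht : t ∈ B j1 ∩ Q) {i : ι} (hi : i ∈ nz B C t) (hij : i ≠ j1)
    (hiI : i ∉ IgY B Q C w0 j2)
    (hH : hit B (OgY B Q C w0 j1 j2) (Gn B Q C w0 j2) ≤ 4)
    (hn : Pv B (Gn B Q C w0 j2) + 4 * ∑ a ∈ (B j1 ∩ Q).erase t, ((nz B C a).card : ℤ) ≤ 13)
    (hv : 2 ≤ Pv B (Gn B Q C w0 j2) ∨
      (hit B (OgY B Q C w0 j1 j2) (Gn B Q C w0 j2) ≤ 2 ∧ 0 ≤ Pv B (Gn B Q C w0 j2))) :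
    False := by
  classical
  obtain ⟨ht1, ht2⟩ := mem_inter.1 ht
  obtain ⟨hi1, hi2⟩ := mem_nz.1 hi
  have h3 : (Ez B (Gn B Q C w0 j2) t).card ≤ 3 := by
    have h1 : Ez B (Gn B Q C w0 j2) t ⊆ ((univ.filter fun k : ι => t ∈ B k).erase j1).erase i := by
      intro k hk
      obtain ⟨h2, y, hy⟩ := mem_Ez.1 hk
      obtain ⟨h5, h6⟩ := mem_inter.1 hy
      refine mem_erase.2 ⟨?_, mem_erase.2 ⟨?_, mem_filter.2 ⟨mem_univ _, h2⟩⟩⟩
      · rintro rfl
        refine hiI (mem_ins.2 ⟨⟨y, hy⟩, fun w hw => ?_⟩)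
        obtain ⟨h7, h8⟩ := mem_inter.1 hw
        rcases mem_Gn.1 h8 with h9 | h9 | h9
        · exact mem_insert_of_mem h9
        · exact mem_insert.2 (Or.inl h9)
        · have h10 : w ∈ B k ∩ C.biUnion id := mem_inter.2 ⟨h7, h9⟩
          rw [hi2] at h10
          exact absurd h10 (notMem_empty _)
      · rintro rfl
        exact (mem_sdiff.1 (d.GQ h6)).2 (mem_inter.2 ⟨h5, d.GQ' h6⟩)
    have h2 := card_le_card h1
    have e1 : j1 ∈ univ.filter fun k : ι => t ∈ B k := mem_filter.2 ⟨mem_univ _, ht1⟩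
    have e2 : i ∈ (univ.filter fun k : ι => t ∈ B k).erase j1 :=
      mem_erase.2 ⟨hij, mem_filter.2 ⟨mem_univ _, hi1⟩⟩
    rw [card_erase_of_mem e2, card_erase_of_mem e1] at h2
    have h5 : (univ.filter fun k : ι => t ∈ B k).card = 5 := d.viol.reg t ht2
    omega
  have h1 := d.viol.nu4 (d.frm.full d.j1T) d.GQ d.Gne d.svG (d.habs hm) ht1 ht2 h3 hH
    (d.absX h4 ht hn)
  have h2 : dv B Q (Gn B Q C w0 j2) = Pv B (Gn B Q C w0 j2) := by
    unfold dv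
    rw [d.eeG hW]
    simp
  rw [h2] at h1
  rcases hv with hv | ⟨hv1, hv2⟩
  · split_ifs at h1 with h5
    · linarith
    · linarith
  · have hv1' : hit B ((Q \ (B j1 ∩ Q)) \ Gn B Q C w0 j2) (Gn B Q C w0 j2) ≤ 2 := hv1
    rw [if_pos hv1'] at h1
    linarith

theorem fin5 (d : Dn B Q T U F Ts NT P C w0 j1 j2) (hW : (nz B C w0).card ≤ 1)
    (hm : ∀ x ∈ insert w0 (B j2 ∩ Q), ∀ i ∈ nz B C x, i ≠ j2 →
      rho B ((Gn B Q C w0 j2).erase x) + 1 ≤ rho B (Gn B Q C w0 j2))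
    (hH : hit B (OgY B Q C w0 j1 j2) (Gn B Q C w0 j2) ≤ 5)
    (hv : 6 ≤ Pv B (Gn B Q C w0 j2) ∨
      (hit B (OgY B Q C w0 j1 j2) (Gn B Q C w0 j2) ≤ 3 ∧ 4 ≤ Pv B (Gn B Q C w0 j2))) :
    False := by
  have h1 := d.viol.nu5 (d.frm.full d.j1T) d.GQ d.Gne d.svG (d.habs hm) hH
  have h2 : dv B Q (Gn B Q C w0 j2) = Pv B (Gn B Q C w0 j2) := by
    unfold dv
    rw [d.eeG hW]
    simp
  rw [h2] at h1
  rcases hv with hv | ⟨hv1, hv2⟩
  · split_ifs at h1 with h5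
    · linarith
    · linarith
  · have hv1' : hit B ((Q \ (B j1 ∩ Q)) \ Gn B Q C w0 j2) (Gn B Q C w0 j2) ≤ 3 := hv1
    rw [if_pos hv1'] at h1
    linarith

/-! ### the new blocks -/

theorem j2nz (d : Dn B Q T U F Ts NT P C w0 j1 j2) {t : V} (ht : t ∈ B j2 ∩ Q) :
    j2 ∈ nz B C t := by
  refine mem_nz.2 ⟨(mem_inter.1 ht).1, ?_⟩
  rw [eq_empty_iff_forall_notMem]
  intro y hy
  obtain ⟨h5, h6⟩ := mem_inter.1 hy
  exact (d.TZ d.j2T (mem_inter.2 ⟨h5, d.ZQ h6⟩)).1 h6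

theorem j2I (d : Dn B Q T U F Ts NT P C w0 j1 j2) : j2 ∈ IgY B Q C w0 j2 := by
  obtain ⟨t, ht⟩ := card_pos.1 (show 0 < (B j2 ∩ Q).card by
    rw [d.frm.full d.j2T]
    norm_num)
  exact d.mem_insG.2 ⟨t, mem_insert_of_mem ht, d.j2nz ht⟩

theorem Ig_one (d : Dn B Q T U F Ts NT P C w0 j1 j2)
    (hI : ∀ v ∈ insert w0 (B j2 ∩ Q), ∀ i ∈ nz B C v, i = j2) : IgY B Q C w0 j2 = {j2} := by
  refine Subset.antisymm (fun i hi => ?_) (singleton_subset_iff.2 d.j2I)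
  obtain ⟨v, hv, h1⟩ := d.mem_insG.1 hi
  exact mem_singleton.2 (hI v hv i h1)

theorem Ig_two [DecidableEq ι] (d : Dn B Q T U F Ts NT P C w0 j1 j2) {i' : ι} {x0 : V}
    (hx : x0 ∈ insert w0 (B j2 ∩ Q)) (hi : i' ∈ nz B C x0)
    (hI : ∀ v ∈ insert w0 (B j2 ∩ Q), ∀ i ∈ nz B C v, i = j2 ∨ i = i') :
    IgY B Q C w0 j2 = {j2, i'} := by
  refine Subset.antisymm (fun i hi' => ?_) ?_
  · obtain ⟨v, hv, h1⟩ := d.mem_insG.1 hi'
    rw [mem_insert, mem_singleton]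
    exact hI v hv i h1
  · intro i hi'
    rw [mem_insert, mem_singleton] at hi'
    rcases hi' with rfl | rfl
    · exact d.j2I
    · exact d.mem_insG.2 ⟨x0, hx, hi⟩

theorem Pv_I (d : Dn B Q T U F Ts NT P C w0 j1 j2) : Pv B (Gn B Q C w0 j2) =
    ∑ L ∈ C, Pp B L - 7 + 4 * ((IgY B Q C w0 j2).card : ℤ) := d.PvG

/-- one new block. -/
theorem caseV (d : Dn B Q T U F Ts NT P C w0 j1 j2)
    (h4 : ∀ v ∈ (B j1 ∩ Q) ∪ (B j2 ∩ Q), (nz B C v).card ≤ 4)
    (hI : ∀ v ∈ insert w0 (B j2 ∩ Q), ∀ i ∈ nz B C v, i = j2)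
    {k : ℕ} (hk : ∑ L ∈ C, hit B (Q \ L) L ≤ uC B w0 C + jC B Q j1 C + jC B Q j2 C + k)
    {t : V} (ht : t ∈ B j1 ∩ Q) (ht2 : 2 ≤ (nz B C t).card)
    (hn : ∑ L ∈ C, Pp B L + 4 * ∑ a ∈ (B j1 ∩ Q).erase t, ((nz B C a).card : ℤ) ≤ 16)
    (hv : (5 ≤ ∑ L ∈ C, Pp B L ∧ k ≤ 4) ∨ (3 ≤ ∑ L ∈ C, Pp B L ∧ k ≤ 2)) : False := by
  classical
  have hI1 := d.Ig_one hI
  have hP := d.Pv_I
  rw [hI1, card_singleton] at hP
  have hW : (nz B C w0).card ≤ 1 := by
    have h1 : nz B C w0 ⊆ {j2} := fun i hi =>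
      mem_singleton.2 (hI w0 (mem_insert_self _ _) i hi)
    have := card_le_card h1
    rwa [card_singleton] at this
  have hH : hit B (OgY B Q C w0 j1 j2) (Gn B Q C w0 j2) ≤ k := by
    have h1 := hitG (B := B) (Q := Q) (C := C) (w0 := w0) (j2 := j2) (OgY B Q C w0 j1 j2)
    rw [hI1, sum_singleton, out0] at h1
    have h2 := d.hitZ hk
    omega
  obtain ⟨i, hi, hij⟩ : ∃ i ∈ nz B C t, i ≠ j1 := by
    by_contra hcon
    push Not at hcon
    have h1 : nz B C t ⊆ {j1} := fun i hi => mem_singleton.2 (hcon i hi)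
    have := card_le_card h1
    rw [card_singleton] at this
    omega
  refine d.fin4 h4 hW (fun x hx i hi hne => absurd (hI x hx i hi) hne) ht hi hij ?_ ?_ ?_ ?_
  · rw [hI1, mem_singleton]
    rintro rfl
    exact d.TT ht (mem_nz.1 hi).1
  · rcases hv with ⟨_, h⟩ | ⟨_, h⟩
    · omega
    · omega
  · rw [hP]
    push_cast
    linarith
  · rcases hv with ⟨h1, h2⟩ | ⟨h1, h2⟩
    · left
      rw [hP]
      push_cast
      linarith
    · right
      refine ⟨by omega, ?_⟩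
      rw [hP]
      push_cast
      linarith

/-- two new blocks, value `7`. -/
theorem caseU (d : Dn B Q T U F Ts NT P C w0 j1 j2) {i' : ι} (hi' : i' ∈ nz B C w0)
    (hW : (nz B C w0).card ≤ 1)
    (hX : ∀ t ∈ B j2 ∩ Q, ∀ i ∈ nz B C t, i = j2)
    (hA : ∑ L ∈ slj B Q F j2, Pp B L ≤ ((slj B Q F j2).card : ℤ) + 2 ∨
      (2 ≤ (slj B Q F j2).card ∧
        ∑ L ∈ slj B Q F j2, Pp B L ≤ ((slj B Q F j2).card : ℤ) + 3))
    (hk : ∑ L ∈ C, hit B (Q \ L) L ≤ uC B w0 C + jC B Q j1 C + jC B Q j2 C + 3)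
    (hv : 5 ≤ ∑ L ∈ C, Pp B L) : False := by
  classical
  have hne : i' ≠ j2 := by
    rintro rfl
    exact (d.TZ d.j2T (mem_inter.2 ⟨(mem_nz.1 hi').1, d.uQ⟩)).2 rfl
  have hI2 := d.Ig_two (x0 := w0) (mem_insert_self _ _) hi' (by
    intro v hv i hi
    rcases mem_insert.1 hv with rfl | h
    · right
      exact card_le_one.1 hW i hi i' hi'
    · exact Or.inl (hX v h i hi))
  have hP := d.Pv_I
  rw [hI2, card_pair hne.symm] at hP
  refine d.fin5 hW ?_ ?_ ?_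
  · intro x hx i hi hij
    rcases mem_insert.1 hx with rfl | h
    · exact d.missU hX hA
    · exact absurd (hX x h i hi) hij
  · have h1 := hitG (B := B) (Q := Q) (C := C) (w0 := w0) (j2 := j2) (OgY B Q C w0 j1 j2)
    rw [hI2, sum_pair hne.symm, out0] at h1
    have h2 := d.hitZ hk
    have h3 := d.out2 (i := i') (by rw [hI2]; simp)
    omega
  · left
    rw [hP]
    push_cast
    linarith

/-- two new blocks, value `5`. -/
theorem caseB (d : Dn B Q T U F Ts NT P C w0 j1 j2)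
    (h4 : ∀ v ∈ (B j1 ∩ Q) ∪ (B j2 ∩ Q), (nz B C v).card ≤ 4) (hW : (nz B C w0).card ≤ 1)
    {i' : ι} {x0 : V} (hx : x0 ∈ insert w0 (B j2 ∩ Q)) (hi' : i' ∈ nz B C x0) (hne : i' ≠ j2)
    (hI : ∀ v ∈ insert w0 (B j2 ∩ Q), ∀ i ∈ nz B C v, i = j2 ∨ i = i')
    (hm : ∀ x ∈ insert w0 (B j2 ∩ Q), ∀ i ∈ nz B C x, i ≠ j2 →
      rho B ((Gn B Q C w0 j2).erase x) + 1 ≤ rho B (Gn B Q C w0 j2))
    (hk : ∑ L ∈ C, hit B (Q \ L) L ≤ uC B w0 C + jC B Q j1 C + jC B Q j2 C + 2)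
    {t : V} (ht : t ∈ B j1 ∩ Q) (ht2 : 2 ≤ (nz B C t).card)
    (hn : ∑ L ∈ C, Pp B L + 4 * ∑ a ∈ (B j1 ∩ Q).erase t, ((nz B C a).card : ℤ) ≤ 12)
    (hv : 3 ≤ ∑ L ∈ C, Pp B L) : False := by
  classical
  have hI2 := d.Ig_two hx hi' hI
  have hP := d.Pv_I
  rw [hI2, card_pair hne.symm] at hP
  have h1 := hitG (B := B) (Q := Q) (C := C) (w0 := w0) (j2 := j2) (OgY B Q C w0 j1 j2)
  rw [hI2, sum_pair hne.symm, out0] at h1
  have h2 := d.hitZ hk
  have hiI : i' ∈ IgY B Q C w0 j2 := by rw [hI2]; simp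
  obtain ⟨i, hi, hij⟩ : ∃ i ∈ nz B C t, i ≠ j1 := by
    by_contra hcon
    push Not at hcon
    have h1 : nz B C t ⊆ {j1} := fun i hi => mem_singleton.2 (hcon i hi)
    have := card_le_card h1
    rw [card_singleton] at this
    omega
  by_cases he : i = i'
  · subst he
    have h3 := d.out1 hiI ht (mem_nz.1 hi).1
    refine d.fin5 hW hm (by omega) (Or.inr ⟨by omega, ?_⟩)
    rw [hP]
    push_cast
    linarith
  · have h3 := d.out2 hiI
    refine d.fin4 h4 hW hm ht hi hij ?_ (by omega) ?_ (Or.inl ?_)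
    · rw [hI2, mem_insert, mem_singleton]
      rintro (rfl | rfl)
      · exact d.TT ht (mem_nz.1 hi).1
      · exact he rfl
    · rw [hP]
      push_cast
      linarith
    · rw [hP]
      push_cast
      linarith

/-! ### the rows -/

theorem j1nz (d : Dn B Q T U F Ts NT P C w0 j1 j2) {t : V} (ht : t ∈ B j1 ∩ Q) :
    j1 ∈ nz B C t := d.symm.j2nz ht

theorem cntU (d : Dn B Q T U F Ts NT P C w0 j1 j2) :
    uC B w0 C + (nz B C w0).card = 5 := by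
  have h1 := nz_card (C := C) d.viol.reg d.uQ
  rw [d.frm.uC_Ez d.CF]
  omega

theorem cntT (d : Dn B Q T U F Ts NT P C w0 j1 j2) :
    jC B Q j2 C + ∑ t ∈ B j2 ∩ Q, (nz B C t).card = 15 := by
  rw [d.frm.jC_Ez d.CF, ← sum_add_distrib]
  have h1 : ∀ t ∈ B j2 ∩ Q, (Ez B (C.biUnion id) t).card + (nz B C t).card = 5 := by
    intro t ht
    have := nz_card (C := C) d.viol.reg (mem_inter.1 ht).2
    omega
  rw [sum_congr rfl h1, sum_const, d.frm.full d.j2T]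
  rfl

theorem le_sum (d : Dn B Q T U F Ts NT P C w0 j1 j2) {t : V} (ht : t ∈ B j2 ∩ Q) :
    (nz B C t).card + 2 ≤ ∑ t ∈ B j2 ∩ Q, (nz B C t).card := by
  rw [← add_sum_erase _ _ ht]
  have h1 : ∀ a ∈ (B j2 ∩ Q).erase t, 1 ≤ (nz B C a).card := fun a ha =>
    card_pos.2 ⟨j2, d.j2nz (mem_erase.1 ha).2⟩
  have h2 := sum_le_sum h1
  rw [sum_const, card_erase_of_mem ht, d.frm.full d.j2T] at h2
  simp only [smul_eq_mul] at h2
  omega

theorem only (d : Dn B Q T U F Ts NT P C w0 j1 j2)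
    (hs : ∑ t ∈ B j2 ∩ Q, (nz B C t).card ≤ 3) : ∀ t ∈ B j2 ∩ Q, ∀ i ∈ nz B C t, i = j2 := by
  intro t ht i hi
  have h1 := d.le_sum ht
  exact card_le_one.1 (show (nz B C t).card ≤ 1 by omega) i hi j2 (d.j2nz ht)

theorem exists_two (d : Dn B Q T U F Ts NT P C w0 j1 j2)
    (hs : 4 ≤ ∑ t ∈ B j2 ∩ Q, (nz B C t).card) : ∃ t ∈ B j2 ∩ Q, 2 ≤ (nz B C t).card := by
  by_contra hcon
  push Not at hcon
  have h1 : ∀ t ∈ B j2 ∩ Q, (nz B C t).card ≤ 1 := fun t ht => by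
    have := hcon t ht
    omega
  have h2 := sum_le_sum h1
  rw [sum_const, d.frm.full d.j2T] at h2
  simp only [smul_eq_mul] at h2
  omega

theorem nz4 (d : Dn B Q T U F Ts NT P C w0 j1 j2)
    (h1 : ∑ t ∈ B j1 ∩ Q, (nz B C t).card ≤ 6) (h2 : ∑ t ∈ B j2 ∩ Q, (nz B C t).card ≤ 6) :
    ∀ v ∈ (B j1 ∩ Q) ∪ (B j2 ∩ Q), (nz B C v).card ≤ 4 := by
  intro v hv
  rcases mem_union.1 hv with h | h
  · have := d.symm.le_sum h
    omega
  · have := d.le_sum h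
    omega

theorem rowV (d : Dn B Q T U F Ts NT P C w0 j1 j2) (hu : (nz B C w0).card = 0)
    (h2 : ∑ t ∈ B j2 ∩ Q, (nz B C t).card ≤ 3) {k : ℕ}
    (hk : ∑ L ∈ C, hit B (Q \ L) L ≤ uC B w0 C + jC B Q j1 C + jC B Q j2 C + k)
    (h1 : 4 ≤ ∑ t ∈ B j1 ∩ Q, (nz B C t).card) (h1' : ∑ t ∈ B j1 ∩ Q, (nz B C t).card ≤ 6)
    (hn : ∑ L ∈ C, Pp B L + 4 * ((∑ t ∈ B j1 ∩ Q, (nz B C t).card : ℕ) : ℤ) ≤ 24)
    (hv : (5 ≤ ∑ L ∈ C, Pp B L ∧ k ≤ 4) ∨ (3 ≤ ∑ L ∈ C, Pp B L ∧ k ≤ 2)) : False := by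
  obtain ⟨t, ht, ht2⟩ := d.symm.exists_two h1
  refine d.caseV (d.nz4 h1' (by omega)) ?_ hk ht ht2 ?_ hv
  · intro v hv i hi
    rcases mem_insert.1 hv with rfl | h
    · rw [card_eq_zero.1 hu] at hi
      exact absurd hi (notMem_empty _)
    · exact d.only h2 v h i hi
  · have h3 := add_sum_erase (B j1 ∩ Q) (fun t => (nz B C t).card) ht
    have h4 : ((∑ t ∈ B j1 ∩ Q, (nz B C t).card : ℕ) : ℤ) =
        (nz B C t).card + ∑ a ∈ (B j1 ∩ Q).erase t, ((nz B C a).card : ℤ) := by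
      rw [← h3]
      push_cast
      ring
    have h5 : (2 : ℤ) ≤ (nz B C t).card := by exact_mod_cast ht2
    linarith

theorem mem_slj_of (d : Dn B Q T U F Ts NT P C w0 j1 j2) {L : Finset V} (hL : L ∈ C)
    (h : 1 ≤ jh B Q j2 L) : L ∈ slj B Q F j2 := by
  unfold jh hit at h
  obtain ⟨i, hi, h1⟩ : ∃ i ∈ tch B L, 0 < (B i ∩ (B j2 ∩ Q)).card := by
    by_contra hcon
    push Not at hcon
    have : ∑ i ∈ tch B L, (B i ∩ (B j2 ∩ Q)).card = 0 :=
      sum_eq_zero fun i hi => by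
        have := hcon i hi
        omega
    omega
  obtain ⟨v, hv⟩ := card_pos.1 h1
  obtain ⟨hvi, hvT⟩ := mem_inter.1 hv
  obtain ⟨y, hy⟩ := cost_mem_tch.1 hi
  obtain ⟨hyi, hyL⟩ := mem_inter.1 hy
  refine mem_biUnion.2 ⟨v, hvT, mem_slf.2 ⟨d.CF hL, y, hyL, ?_, i, hvi, hyi⟩⟩
  rintro rfl
  exact (d.TZ d.j2T hvT).1 (mem_Z.2 ⟨L, hL, hyL⟩)

theorem hA2 (d : Dn B Q T U F Ts NT P C w0 j1 j2) (h : ∀ L ∈ C, Pp B L ≤ 2) :
    ∑ L ∈ slj B Q F j2, Pp B L ≤ ((slj B Q F j2).card : ℤ) + 2 ∨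
      (2 ≤ (slj B Q F j2).card ∧
        ∑ L ∈ slj B Q F j2, Pp B L ≤ ((slj B Q F j2).card : ℤ) + 3) := by
  have h1 : ∑ L ∈ slj B Q F j2, Pp B L ≤ ∑ L ∈ slj B Q F j2, 2 :=
    sum_le_sum fun L hL => h L (d.s2 hL)
  have h2 := card_le_card d.s2
  rw [d.c3] at h2
  have h2' : ((slj B Q F j2).card : ℤ) ≤ 3 := by exact_mod_cast h2
  rw [sum_const, nsmul_eq_mul] at h1
  by_cases h3 : 2 ≤ (slj B Q F j2).card
  · right
    exact ⟨h3, by linarith⟩
  · left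
    have h3' : ((slj B Q F j2).card : ℤ) ≤ 1 := by exact_mod_cast (by omega)
    linarith

theorem hA4 (d : Dn B Q T U F Ts NT P C w0 j1 j2) {L1 : Finset V} (hL1 : L1 ∈ C)
    (h0 : Pp B L1 ≤ 0) (h1 : 1 ≤ jh B Q j2 L1) (h4 : ∀ L ∈ C, Pp B L ≤ 4)
    (hs : ∑ L ∈ C, Pp B L ≤ 6) :
    ∑ L ∈ slj B Q F j2, Pp B L ≤ ((slj B Q F j2).card : ℤ) + 2 ∨
      (2 ≤ (slj B Q F j2).card ∧
        ∑ L ∈ slj B Q F j2, Pp B L ≤ ((slj B Q F j2).card : ℤ) + 3) := by
  have h5 := d.mem_slj_of hL1 h1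
  have h2 := card_le_card d.s2
  rw [d.c3] at h2
  by_cases h3 : (slj B Q F j2).card = 3
  · right
    have h6 : slj B Q F j2 = C := eq_of_subset_of_card_le d.s2 (by rw [h3, d.c3])
    rw [h6, d.c3]
    exact ⟨by norm_num, by push_cast; linarith⟩
  · have h6 := add_sum_erase (slj B Q F j2) (fun L => Pp B L) h5
    have h7 : ∑ L ∈ (slj B Q F j2).erase L1, Pp B L ≤
        ∑ L ∈ (slj B Q F j2).erase L1, 4 :=
      sum_le_sum fun L hL => h4 L (d.s2 (mem_erase.1 hL).2)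
    rw [sum_const, nsmul_eq_mul] at h7
    have h8 := card_erase_add_one h5
    have h8' : (((slj B Q F j2).erase L1).card : ℤ) + 1 = (slj B Q F j2).card := by
      exact_mod_cast h8
    have h9 := card_pos.2 ⟨L1, h5⟩
    by_cases h10 : (slj B Q F j2).card = 1
    · left
      rw [h10] at h8' ⊢
      push_cast at h8' ⊢
      linarith
    · right
      have h11 : (slj B Q F j2).card = 2 := by omega
      rw [h11] at h8' ⊢
      refine ⟨le_rfl, ?_⟩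
      push_cast at h8' ⊢
      linarith

theorem rowU (d : Dn B Q T U F Ts NT P C w0 j1 j2) (hu : (nz B C w0).card = 1)
    (h2 : ∑ t ∈ B j2 ∩ Q, (nz B C t).card ≤ 3)
    (hA : ∑ L ∈ slj B Q F j2, Pp B L ≤ ((slj B Q F j2).card : ℤ) + 2 ∨
      (2 ≤ (slj B Q F j2).card ∧
        ∑ L ∈ slj B Q F j2, Pp B L ≤ ((slj B Q F j2).card : ℤ) + 3))
    (hk : ∑ L ∈ C, hit B (Q \ L) L ≤ uC B w0 C + jC B Q j1 C + jC B Q j2 C + 3)
    (hv : 5 ≤ ∑ L ∈ C, Pp B L) : False := by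
  obtain ⟨i', hi'⟩ := card_pos.1 (show 0 < (nz B C w0).card by omega)
  exact d.caseU hi' (by omega) (d.only h2) hA hk hv

theorem rowB3 (d : Dn B Q T U F Ts NT P C w0 j1 j2) (hu : (nz B C w0).card = 1)
    (h1 : ∑ t ∈ B j1 ∩ Q, (nz B C t).card = 4) (h2 : ∑ t ∈ B j2 ∩ Q, (nz B C t).card ≤ 3)
    (hA : ∀ L ∈ C, Pp B L ≤ 2)
    (hk : ∑ L ∈ C, hit B (Q \ L) L ≤ uC B w0 C + jC B Q j1 C + jC B Q j2 C + 2)
    (hv : ∑ L ∈ C, Pp B L = 4) : False := by
  obtain ⟨i', hi'⟩ := card_pos.1 (show 0 < (nz B C w0).card by omega)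
  have hne : i' ≠ j2 := by
    rintro rfl
    exact (d.TZ d.j2T (mem_inter.2 ⟨(mem_nz.1 hi').1, d.uQ⟩)).2 rfl
  obtain ⟨t, ht, ht2⟩ := d.symm.exists_two (by omega)
  refine d.caseB (d.nz4 (by omega) (by omega)) (by omega) (x0 := w0) (mem_insert_self _ _) hi' hne
    ?_ ?_ hk ht ht2 ?_ (by linarith)
  · intro v hv i hi
    rcases mem_insert.1 hv with rfl | h
    · right
      exact card_le_one.1 (by omega) i hi i' hi'
    · exact Or.inl (d.only h2 v h i hi)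
  · intro x hx i hi hij
    rcases mem_insert.1 hx with rfl | h
    · exact d.missU (d.only h2) (d.hA2 hA)
    · exact absurd (d.only h2 x h i hi) hij
  · have h3 := add_sum_erase (B j1 ∩ Q) (fun t => (nz B C t).card) ht
    rw [h1] at h3
    have h4 : (((nz B C t).card + ∑ a ∈ (B j1 ∩ Q).erase t, (nz B C a).card : ℕ) : ℤ) = 4 := by
      exact_mod_cast h3
    push_cast at h4
    have h5 : (2 : ℤ) ≤ (nz B C t).card := by exact_mod_cast ht2
    linarith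

theorem rowB2 (d : Dn B Q T U F Ts NT P C w0 j1 j2) (hu : (nz B C w0).card = 0)
    (h1 : ∑ t ∈ B j1 ∩ Q, (nz B C t).card = 4) (h2 : ∑ t ∈ B j2 ∩ Q, (nz B C t).card = 4)
    (hk : ∑ L ∈ C, hit B (Q \ L) L ≤ uC B w0 C + jC B Q j1 C + jC B Q j2 C + 2)
    (hv : ∑ L ∈ C, Pp B L = 4) : False := by
  classical
  have h4 := d.nz4 (by omega) (by omega)
  obtain ⟨t, ht, ht2⟩ := d.symm.exists_two (by omega)
  obtain ⟨c, hc, hc2⟩ := d.exists_two (by omega)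
  obtain ⟨i', hi', hne⟩ : ∃ i' ∈ nz B C c, i' ≠ j2 := by
    by_contra hcon
    push Not at hcon
    have h5 : nz B C c ⊆ {j2} := fun i hi => mem_singleton.2 (hcon i hi)
    have := card_le_card h5
    rw [card_singleton] at this
    omega
  have hu0 : nz B C w0 = ∅ := card_eq_zero.1 hu
  have hcc := d.le_sum hc
  have hother : ∀ v ∈ B j2 ∩ Q, v ≠ c → ∀ i ∈ nz B C v, i = j2 := by
    intro v hv hvc i hi
    have h5 := add_sum_erase (B j2 ∩ Q) (fun t => (nz B C t).card) hc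
    have h6 := add_sum_erase ((B j2 ∩ Q).erase c) (fun t => (nz B C t).card)
      (mem_erase.2 ⟨hvc, hv⟩)
    have h7 : 1 ≤ ∑ a ∈ ((B j2 ∩ Q).erase c).erase v, (nz B C a).card := by
      obtain ⟨a, ha⟩ : (((B j2 ∩ Q).erase c).erase v).Nonempty := by
        rw [← card_pos, card_erase_of_mem (mem_erase.2 ⟨hvc, hv⟩), card_erase_of_mem hc,
          d.frm.full d.j2T]
        norm_num
      refine le_trans ?_ (single_le_sum (f := fun a => (nz B C a).card)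
        (fun _ _ => Nat.zero_le _) ha)
      exact card_pos.2 ⟨j2, d.j2nz (mem_erase.1 (mem_erase.1 ha).2).2⟩
    exact card_le_one.1 (show (nz B C v).card ≤ 1 by omega) i hi j2 (d.j2nz hv)
  have hI : ∀ v ∈ insert w0 (B j2 ∩ Q), ∀ i ∈ nz B C v, i = j2 ∨ i = i' := by
    intro v hv i hi
    rcases mem_insert.1 hv with rfl | h
    · rw [hu0] at hi
      exact absurd hi (notMem_empty _)
    · by_cases hvc : v = c
      · subst hvc
        have h5 : nz B C v = {j2, i'} := by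
          symm
          refine eq_of_subset_of_card_le ?_ ?_
          · intro k hk
            rcases mem_insert.1 hk with rfl | hk
            · exact d.j2nz h
            · exact mem_singleton.1 hk ▸ hi'
          · rw [card_pair hne.symm]
            omega
        rw [h5, mem_insert, mem_singleton] at hi
        exact hi
      · exact Or.inl (hother v h hvc i hi)
  have hI2 := d.Ig_two (x0 := c) (mem_insert_of_mem hc) hi' hI
  have hP := d.Pv_I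
  rw [hI2, card_pair hne.symm, hv] at hP
  refine d.caseB h4 (by omega) (x0 := c) (mem_insert_of_mem hc) hi' hne hI ?_ hk ht ht2 ?_
    (by linarith)
  · intro x hx i hi hij
    have hi2 : i = i' := (hI x hx i hi).resolve_left hij
    subst hi2
    have hxc : x = c := by
      rcases mem_insert.1 hx with rfl | h
      · rw [hu0] at hi
        exact absurd hi (notMem_empty _)
      · by_contra hxc
        exact hij (hother x h hxc i hi)
    subst hxc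
    refine d.missT h4 hc (mem_nz.1 hi).1 ?_ (by rw [hP]; norm_num)
    intro w hw
    obtain ⟨hwi, hwG⟩ := mem_inter.1 hw
    have hwz : w ∉ C.biUnion id := by
      intro h
      have h5 : w ∈ B i ∩ C.biUnion id := mem_inter.2 ⟨hwi, h⟩
      rw [(mem_nz.1 hi).2] at h5
      exact absurd h5 (notMem_empty _)
    have hwn : i ∈ nz B C w := mem_nz.2 ⟨hwi, (mem_nz.1 hi).2⟩
    rw [mem_singleton]
    rcases mem_Gn.1 hwG with h5 | h5 | h5
    · by_contra hwc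
      exact hij (hother w h5 hwc i hwn)
    · rw [h5, hu0] at hwn
      exact absurd hwn (notMem_empty _)
    · exact absurd h5 hwz
  · have h3 := add_sum_erase (B j1 ∩ Q) (fun t => (nz B C t).card) ht
    rw [h1] at h3
    have h5 : (((nz B C t).card + ∑ a ∈ (B j1 ∩ Q).erase t, (nz B C a).card : ℕ) : ℤ) = 4 := by
      exact_mod_cast h3
    push_cast at h5
    have h6 : (2 : ℤ) ≤ (nz B C t).card := by exact_mod_cast ht2
    linarith

/-- **three leaves with `κ`-sum `6`, one useless hit inside and at most three hits from outside.** -/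
theorem dense1 (d : Dn B Q T U F Ts NT P C w0 j1 j2) (hκ : ∑ L ∈ C, Pp B L = 6)
    (hu : uC B w0 C + jC B Q j1 C + jC B Q j2 C = 28)
    (hk : ∑ L ∈ C, hit B (Q \ L) L ≤ 31)
    (hA : (∀ L ∈ C, Pp B L ≤ 2) ∨ (∃ L1 ∈ C, Pp B L1 ≤ 0 ∧
      1 ≤ jh B Q j1 L1 + jh B Q j2 L1 ∧ ∀ L ∈ C, Pp B L ≤ 4)) : False := by
  have c0 := d.cntU
  have c1 := d.symm.cntT
  have c2 := d.cntT
  obtain ⟨a1, ha1⟩ := card_pos.1 (show 0 < (B j1 ∩ Q).card by
    rw [d.frm.full d.j1T]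
    norm_num)
  obtain ⟨a2, ha2⟩ := card_pos.1 (show 0 < (B j2 ∩ Q).card by
    rw [d.frm.full d.j2T]
    norm_num)
  have l1 := d.symm.le_sum ha1
  have l2 := d.le_sum ha2
  have p1 := card_pos.2 ⟨j1, d.j1nz ha1⟩
  have p2 := card_pos.2 ⟨j2, d.j2nz ha2⟩
  have hk1 : ∑ L ∈ C, hit B (Q \ L) L ≤ uC B w0 C + jC B Q j1 C + jC B Q j2 C + 3 := by omega
  have hk2 : ∑ L ∈ C, hit B (Q \ L) L ≤ uC B w0 C + jC B Q j2 C + jC B Q j1 C + 3 := by omega
  by_cases hw : (nz B C w0).card = 0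
  · by_cases h3 : ∑ t ∈ B j2 ∩ Q, (nz B C t).card ≤ 3
    · have h4 : ∑ t ∈ B j1 ∩ Q, (nz B C t).card = 4 := by omega
      refine d.rowV hw h3 hk1 (by omega) (by omega) ?_ (Or.inl ⟨by linarith, by norm_num⟩)
      rw [h4, hκ]
      norm_num
    · have h4 : ∑ t ∈ B j2 ∩ Q, (nz B C t).card = 4 := by omega
      refine d.symm.rowV hw (by omega) hk2 (by omega) (by omega) ?_
        (Or.inl ⟨by linarith, by norm_num⟩)
      rw [h4, hκ]
      norm_num
  · rcases hA with hA | ⟨L1, hL1, h0, hj, h4⟩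
    · exact d.rowU (by omega) (by omega) (d.hA2 hA) hk1 (by linarith)
    · by_cases hj2 : 1 ≤ jh B Q j2 L1
      · exact d.rowU (by omega) (by omega) (d.hA4 hL1 h0 hj2 h4 hκ.le) hk1 (by linarith)
      · exact d.symm.rowU (by omega) (by omega) (d.symm.hA4 hL1 h0 (by omega) h4 hκ.le) hk2
          (by linarith)

/-- **three leaves with `κ`-sum `4`, two useless hits inside and at most two hits from outside.** -/
theorem dense2 (d : Dn B Q T U F Ts NT P C w0 j1 j2) (hκ : ∑ L ∈ C, Pp B L = 4)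
    (hA : ∀ L ∈ C, Pp B L ≤ 2)
    (hu : uC B w0 C + jC B Q j1 C + jC B Q j2 C = 27) (hu4 : 4 ≤ uC B w0 C)
    (hk : ∑ L ∈ C, hit B (Q \ L) L ≤ 29) : False := by
  have c0 := d.cntU
  have c1 := d.symm.cntT
  have c2 := d.cntT
  obtain ⟨a1, ha1⟩ := card_pos.1 (show 0 < (B j1 ∩ Q).card by
    rw [d.frm.full d.j1T]
    norm_num)
  obtain ⟨a2, ha2⟩ := card_pos.1 (show 0 < (B j2 ∩ Q).card by
    rw [d.frm.full d.j2T]
    norm_num)
  have l1 := d.symm.le_sum ha1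
  have l2 := d.le_sum ha2
  have p1 := card_pos.2 ⟨j1, d.j1nz ha1⟩
  have p2 := card_pos.2 ⟨j2, d.j2nz ha2⟩
  have hk1 : ∑ L ∈ C, hit B (Q \ L) L ≤ uC B w0 C + jC B Q j1 C + jC B Q j2 C + 2 := by omega
  have hk2 : ∑ L ∈ C, hit B (Q \ L) L ≤ uC B w0 C + jC B Q j2 C + jC B Q j1 C + 2 := by omega
  by_cases hw : (nz B C w0).card = 0
  · by_cases h3 : ∑ t ∈ B j2 ∩ Q, (nz B C t).card ≤ 3
    · have h4 : ∑ t ∈ B j1 ∩ Q, (nz B C t).card = 5 := by omega
      refine d.rowV hw h3 hk1 (by omega) (by omega) ?_ (Or.inr ⟨by linarith, by norm_num⟩)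
      rw [h4, hκ]
      norm_num
    · by_cases h4 : ∑ t ∈ B j1 ∩ Q, (nz B C t).card ≤ 3
      · have h5 : ∑ t ∈ B j2 ∩ Q, (nz B C t).card = 5 := by omega
        refine d.symm.rowV hw h4 hk2 (by omega) (by omega) ?_ (Or.inr ⟨by linarith, by norm_num⟩)
        rw [h5, hκ]
        norm_num
      · exact d.rowB2 hw (by omega) (by omega) hk1 hκ
  · by_cases h3 : ∑ t ∈ B j2 ∩ Q, (nz B C t).card ≤ 3
    · exact d.rowB3 (by omega) (by omega) h3 hA hk1 hκ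
    · exact d.symm.rowB3 (by omega) (by omega) (by omega) hA hk2 hκ

end Dn

end dense

end Pool.Agent.Hyp6
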