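import Pool.Agent.Hyp6.L3Fn

/-!
# HYP6 L3Gl: what a class needs, in hits

`Frm.mis_eq`: the exact value of `mis` for a class. `NumL`: the numbers of a leaf. `Stg.ms_eq`,
`Stg.ms_one`: the same in the setting, for every class and for a single leaf, and `Stg.one`.
-/

set_option autoImplicit false

namespace Pool.Agent.Hyp6

open Finset Pool.Agent.Hyp5 Rt

universe u v

variable {V : Type v} [DecidableEq V] {ι : Type u} [Fintype ι] [DecidableEq ι]
  {B : ι → Finset V}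

/-- the numbers of a leaf: `p` the potential, `n` single traces, `m` points, `f` free places, `e`
double singles, `g` hits of the points of `U`, `h` hits of all triples. -/
structure NumL (p n m f e g h : ℤ) : Prop where
  pp : p = 2 * n + 3 * m - 11
  slot : 6 * (h + g + f) + n = 5 * p + 55
  m1 : 1 ≤ m
  mo : m % 2 = 1
  n1 : 1 ≤ n
  no : n % 2 = 1
  pt : m = 1 → n = 5
  f0 : 4 * e ≤ f
  e0 : 0 ≤ e
  g0 : 0 ≤ g
  gn : g ≤ n
  h0 : 0 ≤ h
  p0 : 2 * e ≤ p

/-- the payments of the dead type are at least `v`. -/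
theorem vD_ge {v : ℤ} (hv : v ≤ 172) (n : ℕ) : v ≤ vD v n := by
  unfold vD
  split_ifs <;> linarith

namespace Frm

variable {Q U : Finset V} {T R : Finset ι} {F : Finset (Finset V)}
  {P : Finset (Finset (Finset V))}

omit [DecidableEq ι] in
/-- the number of single traces of a point. -/
theorem point_nt (h : Frm B Q T U F) (hr : Reg B Q) {L : Finset V} (hL : L ∈ F)
    (h1 : L.card = 1) : nt B L 1 = 5 := by
  have h2 : ∀ i, (B i ∩ L).card ≤ 1 := fun i => (card_le_card inter_subset_right).trans h1.le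
  have h3 := inc_eq3 (hr.mono (h.FQ hL)) (fun i => (h2 i).trans (by norm_num))
  have h4 : nt B L 2 = 0 := by
    unfold nt
    rw [card_eq_zero]
    ext i
    rw [mem_trs]
    have := h2 i
    simp only [notMem_empty, iff_false]
    omega
  have h5 : nt B L 3 = 0 := nt3_zero fun i => (h2 i).trans (by norm_num)
  omega

omit [DecidableEq ι] in
/-- **the numbers of a leaf**. -/
theorem one (h : Frm B Q T U F) (hr : Reg B Q) {L : Finset V} (hL : L ∈ F)
    (hd : -1 ≤ dv B Q L) :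
    NumL (Pp B L) (nt B L 1) L.card (fs B Q L) (ee B Q L) (hit B U L)
      (∑ j ∈ T, (jh B Q j L : ℤ)) := by
  have h2 : ∀ i, (B i ∩ L).card ≤ 2 := by
    intro i
    rcases (B i ∩ L).eq_empty_or_nonempty with h0 | ⟨v, hv⟩
    · rw [h0, card_empty]
      exact Nat.zero_le _
    · obtain ⟨hv1, hv2⟩ := mem_inter.1 hv
      exact (card_le_card (inter_subset_inter_left (h.FD hL))).trans (h.two_leaf hL hv1 hv2)
  have h3 := five_Pp_leaf (hr.mono (h.FQ hL)) h2 (h.sv_leaf hL)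
  have h4 := three_Pp (B := B) L
  have h5 := h.leaf_places hr hL
  have h6 := nt1_mod (hr.mono (h.FQ hL)) h2
  have h7 := odd_of_sv_neg_one (h.sv_leaf hL)
  have h8 := four_ee_le_fs (B := B) (Q := Q) (W := L) h.reg3
  have h9 : (hit B U L : ℤ) ≤ nt B L 1 := by exact_mod_cast h.hitU_one hL
  have h10 := h.point_nt hr hL
  have h11 := Pv_eq_Pp (B := B) L
  have h12 := h.sv_leaf hL
  unfold dv at hd
  rw [h12] at h4 h11
  have hp : Pp B L = 2 * (nt B L 1 : ℤ) + 3 * L.card - 11 := by linarith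
  refine ⟨hp, by linarith, by omega, by omega, by omega, by omega, fun hm => ?_, h8,
    by positivity, by positivity, h9, sum_nonneg fun _ _ => by positivity, by linarith⟩
  exact_mod_cast h10 (by exact_mod_cast hm)

omit [DecidableEq ι] in
/-- the hits of the line triples on a class. -/
theorem sum_atl (h : Frm B Q T U F) (hR : R ⊆ T)
    (hP : Sp.MinP F F U (slf B F) R (slj B Q F) P) {C : Finset (Finset V)} (hC : C ∈ P) :
    ∑ j ∈ Sp.T2 U (slf B F) R (slj B Q F) P, (jC B Q j C : ℤ) =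
      ∑ j ∈ Sp.atl (Sp.T2 U (slf B F) R (slj B Q F) P) (Sp.lx U (slf B F) (slj B Q F) P) C,
        (jC B Q j C : ℤ) := by
  symm
  refine sum_subset (filter_subset _ _) fun j hj hn => ?_
  have hjR : j ∈ R := (mem_filter.1 (mem_filter.1 hj).1).1
  rw [h.jC_zero hP hC (hR hjR)]
  · rfl
  · intro hm
    exact hn (Sp.mem_atl.2 ⟨hj, Sp.met_sub_lx hm⟩)

/-- **what a class needs, in hits**. -/
theorem mis_eq (h : Frm B Q T U F) (hr : Reg B Q) (hR : R ⊆ T)
    (hRa : ∀ j ∈ R, ja B Q (Ep B Q T U F) j = 0)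
    (hP : Sp.MinP F F U (slf B F) R (slj B Q F) P) {C : Finset (Finset V)} (hC : C ∈ P)
    (a : V → Finset (Finset V) → ℕ) (X : ι → Finset (Finset V) → ℤ) :
    mis B Q T R U F P a (Sp.lx U (slf B F) (slj B Q F) P) X C =
      ∑ j ∈ Sp.atl (Sp.T2 U (slf B F) R (slj B Q F) P) (Sp.lx U (slf B F) (slj B Q F) P) C,
        (144 * (jC B Q j C : ℤ) - 560 +
          112 * (Sp.owl U (slf B F) P (Sp.lx U (slf B F) (slj B Q F) P) a j C : ℤ)) +
      ∑ j ∈ Trs B Q T R U F P, (144 * (jC B Q j C : ℤ) - X j C) +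
      168 * (gC B U F P C : ℤ) - 288 * (Sp.ld (Sp.Ux U (slf B F) P) a C : ℤ) +
      ∑ L ∈ C, (240 * (ee B Q L : ℤ) - 120 * Pp B L + 120) +
      ∑ k ∈ Sp.Kin R (slj B Q F) C, (600 - 160 * ((jn B Q (Ep B Q T U F) k : ℤ) + jb B Q T U k)) -
      ∑ u ∈ Sp.Uin U (slf B F) C, (600 + 160 * (uo B Q T U F u : ℤ)) := by
  have hCF : C ⊆ F := (hP.ptn.vc C hC).sub
  set l := Sp.lx U (slf B F) (slj B Q F) P with hl
  set A := Sp.atl (Sp.T2 U (slf B F) R (slj B Q F) P) l C with hA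
  have h1 : ∑ L ∈ C, dm B Q T U 15 L = 18 * ∑ j ∈ T, (jC B Q j C : ℤ) +
      21 * ∑ L ∈ C, (hit B U L : ℤ) + ∑ L ∈ C, (30 * (ee B Q L : ℤ) - 15 * Pp B L + 15) := by
    rw [sum_congr rfl fun L hL => h.dm_eq' 15 (hCF hL)]
    have e1 : ∑ j ∈ T, (jC B Q j C : ℤ) = ∑ L ∈ C, ∑ j ∈ T, (jh B Q j L : ℤ) := by
      unfold jC
      push_cast
      exact sum_comm
    rw [e1, mul_sum, mul_sum, ← sum_add_distrib, ← sum_add_distrib]
    exact sum_congr rfl fun L _ => by ring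
  have h2 := h.sum_hitU hr hP hC
  have h3 := sum_T hP hR (fun j => (jC B Q j C : ℤ))
  have h4 : ∑ C' ∈ P, ∑ j ∈ Sp.Kin R (slj B Q F) C', (jC B Q j C : ℤ) =
      ∑ j ∈ Sp.Kin R (slj B Q F) C, (jC B Q j C : ℤ) := by
    refine sum_eq_single_of_mem C hC fun C' hC' hne => sum_eq_zero fun j hj => ?_
    rw [h.jC_out hR hP hC hC' hne hj]
    rfl
  rw [h4, h.sum_atl hR hP hC, ← hl, ← hA] at h3
  have h5 : 144 * ∑ k ∈ Sp.Kin R (slj B Q F) C, (jC B Q k C : ℤ) -
      8 * ∑ k ∈ Sp.Kin R (slj B Q F) C, sT B Q T U F 15 k =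
      ∑ k ∈ Sp.Kin R (slj B Q F) C,
        (600 - 160 * ((jn B Q (Ep B Q T U F) k : ℤ) + jb B Q T U k)) := by
    rw [mul_sum, mul_sum, ← sum_sub_distrib]
    refine sum_congr rfl fun k hk => ?_
    rw [h.jC_in hr hR hP hC hk, hRa k (mem_filter.1 hk).1]
    unfold sT
    rw [hRa k (mem_filter.1 hk).1]
    push_cast
    ring
  have h6 : ∑ u ∈ Sp.Uin U (slf B F) C, sU B Q T U F 15 u =
      180 * ((Sp.Uin U (slf B F) C).card : ℤ) - lsC B Q T U F C := by
    unfold sU lsC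
    rw [sum_sub_distrib, sum_const, nsmul_eq_mul]
    push_cast
    ring
  have h7 : ∑ u ∈ Sp.Uin U (slf B F) C, (600 + 160 * (uo B Q T U F u : ℤ)) =
      600 * ((Sp.Uin U (slf B F) C).card : ℤ) + 160 * lsC B Q T U F C := by
    unfold lsC
    rw [sum_add_distrib, sum_const, nsmul_eq_mul, ← mul_sum]
    push_cast
    ring
  have h8 : ∑ L ∈ C, (240 * (ee B Q L : ℤ) - 120 * Pp B L + 120) =
      8 * ∑ L ∈ C, (30 * (ee B Q L : ℤ) - 15 * Pp B L + 15) := by
    rw [mul_sum]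
    exact sum_congr rfl fun L _ => by ring
  have h9 : ∑ j ∈ A, (144 * (jC B Q j C : ℤ) - 560 + 112 * (Sp.owl U (slf B F) P l a j C : ℤ)) =
      144 * ∑ j ∈ A, (jC B Q j C : ℤ) -
        8 * ∑ j ∈ A, (70 - 14 * (Sp.owl U (slf B F) P l a j C : ℤ)) := by
    rw [mul_sum, mul_sum, ← sum_sub_distrib]
    exact sum_congr rfl fun j _ => by ring
  have h10 : ∑ j ∈ Trs B Q T R U F P, (144 * (jC B Q j C : ℤ) - X j C) =
      144 * ∑ j ∈ Trs B Q T R U F P, (jC B Q j C : ℤ) - ∑ j ∈ Trs B Q T R U F P, X j C := by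
    rw [sum_sub_distrib, ← mul_sum]
  unfold mis dmC
  rw [← hA, h1, h2, h6, h7, h8, h9, h10]
  linarith

end Frm

namespace Stg

variable {Q U : Finset V} {T : Finset ι} {F : Finset (Finset V)}
  {P : Finset (Finset (Finset V))} {a : V → Finset (Finset V) → ℕ}

/-- the numbers of a leaf. -/
theorem one (s : Stg B Q T U F P a) {L : Finset V} (hL : L ∈ F) :
    NumL (Pp B L) (nt B L 1) L.card (fs B Q L) (ee B Q L) (hit B U L)
      (∑ j ∈ T, (jh B Q j L : ℤ)) :=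
  s.frm.one s.viol.reg hL (s.viol.leaf_dv s.frm hL)

/-- **what a class needs, in hits**: the line triples with `144` for every hit minus the standard
payment, the remaining triples with the surplus of their payments, the points, the leaves, the
inside triples and the inside points. -/
theorem ms_eq (s : Stg B Q T U F P a) (v : ℤ) {C : Finset (Finset V)} (hC : C ∈ P) :
    msC v B Q T U F P a C =
      ∑ j ∈ aC B Q T U F P C, (144 * (jC B Q j C : ℤ) - 560 +
          112 * (Sp.owl U (slf B F) P (lj B Q U F P) a j C : ℤ)) +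
      ∑ j ∈ Trs B Q T (Rg B Q T U F) U F P, (144 * (jC B Q j C : ℤ) - Xv v B Q T U F P j C) +
      168 * (gC B U F P C : ℤ) - 288 * (Sp.ld (Sp.Ux U (slf B F) P) a C : ℤ) +
      ∑ L ∈ C, (240 * (ee B Q L : ℤ) - 120 * Pp B L + 120) +
      ∑ k ∈ Sp.Kin (Rg B Q T U F) (slj B Q F) C,
        (600 - 160 * ((jn B Q (Ep B Q T U F) k : ℤ) + jb B Q T U k)) -
      ∑ u ∈ Sp.Uin U (slf B F) C, (600 + 160 * (uo B Q T U F u : ℤ)) :=
  s.frm.mis_eq s.viol.reg Rg_sub (fun _ hj => (mem_Rg.1 hj).2.1) s.part hC a (Xv v B Q T U F P)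

/-- no point is inside a single leaf. -/
theorem uin_one (s : Stg B Q T U F P a) {L : Finset V} : Sp.Uin U (slf B F) {L} = ∅ := by
  rw [eq_empty_iff_forall_notMem]
  intro u hu
  obtain ⟨h1, h2⟩ := mem_filter.1 hu
  have h3 := (s.frm.gdT (R := Rg B Q T U F)).two_leaf h1
  have h4 := card_le_card ((inter_subset_left (s₂ := F)).trans h2)
  rw [card_singleton] at h4
  omega

/-- the hits on a single leaf. -/
theorem jC_one (_s : Stg B Q T U F P a) {L : Finset V} {j : ι} : jC B Q j {L} = jh B Q j L := by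
  unfold jC
  rw [sum_singleton]

/-- the hits of the points of `U` on a single leaf. -/
theorem gC_one (s : Stg B Q T U F P a) {L : Finset V} (hL : {L} ∈ P) :
    (gC B U F P {L} : ℤ) = hit B U L := by
  have h1 := s.frm.sum_hitU s.viol.reg s.part hL
  rw [sum_singleton, s.uin_one] at h1
  have h2 : lsC B Q T U F {L} = 0 := by
    unfold lsC
    rw [s.uin_one, sum_empty]
  rw [h2, card_empty] at h1
  push_cast at h1
  linarith

/-- **what a single leaf needs, in hits**. -/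
theorem ms_one (s : Stg B Q T U F P a) (v : ℤ) {L : Finset V} (hL : {L} ∈ P) :
    msC v B Q T U F P a {L} =
      ∑ j ∈ aC B Q T U F P {L}, (144 * (jh B Q j L : ℤ) - 560 +
          112 * (Sp.owl U (slf B F) P (lj B Q U F P) a j {L} : ℤ)) +
      ∑ j ∈ Trs B Q T (Rg B Q T U F) U F P,
        (144 * (jh B Q j L : ℤ) - Xv v B Q T U F P j {L}) +
      168 * (hit B U L : ℤ) - 288 * (Sp.ld (Sp.Ux U (slf B F) P) a {L} : ℤ) +
      (240 * (ee B Q L : ℤ) - 120 * Pp B L + 120) +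
      ∑ k ∈ Sp.Kin (Rg B Q T U F) (slj B Q F) {L},
        (600 - 160 * ((jn B Q (Ep B Q T U F) k : ℤ) + jb B Q T U k)) := by
  rw [s.ms_eq v hL, s.uin_one, sum_empty, sub_zero, s.gC_one hL, sum_singleton]
  simp only [s.jC_one]

/-- the units at a single leaf. -/
theorem ld_one (s : Stg B Q T U F P a) {L : Finset V} (hL : {L} ∈ P) :
    (Sp.ld (Sp.Ux U (slf B F) P) a {L} = 5 ∨
      (hit B U L : ℤ) ≤ (Sp.ld (Sp.Ux U (slf B F) P) a {L} : ℤ)) ∧
      Sp.ld (Sp.Ux U (slf B F) P) a {L} ≤ 5 := by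
  have h2 : lsC B Q T U F {L} = 0 := by
    unfold lsC
    rw [s.uin_one, sum_empty]
  have h3 := s.cap {L} hL
  have h4 := s.bal {L} hL
  rw [h2] at h3 h4
  refine ⟨h4.imp (fun h => by omega) fun h => ?_, by omega⟩
  rw [← s.gC_one hL]
  unfold gC Sp.ld
  exact_mod_cast sum_le_sum h

/-- the hits of a triple on a class, by points. -/
theorem jC_sum (_s : Stg B Q T U F P a) {j : ι} {C : Finset (Finset V)} :
    jC B Q j C = ∑ p ∈ B j ∩ Q, uC B p C := by
  unfold jC uC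
  rw [sum_comm]
  exact sum_congr rfl fun L _ => jh_sum Q j L

/-- **the term of a remaining triple** in `ms_eq`: special, few hits, type B with the centre
elsewhere, type B with the centre `C`, a dead point without claims on the triple, a triple with
claims. -/
theorem trs_term (s : Stg B Q T U F P a) (v : ℤ) {j : ι}
    (hj : j ∈ Trs B Q T (Rg B Q T U F) U F P) {C : Finset (Finset V)} (hC : C ∈ P) :
    (1 ≤ ja B Q (Ep B Q T U F) j ∧ ncl B Q T U F P j = 0 ∧
      144 * (jC B Q j C : ℤ) - Xv v B Q T U F P j C = -248 * (jC B Q j C : ℤ)) ∨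
    (ja B Q (Ep B Q T U F) j = 0 ∧ ∑ L ∈ F, jh B Q j L ≤ 4 ∧ ncl B Q T U F P j = 0 ∧
      144 * (jC B Q j C : ℤ) - Xv v B Q T U F P j C = -168 * (jC B Q j C : ℤ)) ∨
    (ja B Q (Ep B Q T U F) j = 0 ∧ 5 ≤ ∑ L ∈ F, jh B Q j L ∧
      ∃ x y z D, BTc B Q T U F P j x y z D ∧ ¬ D ⊆ C ∧ jC B Q j C = uC B z C ∧
        144 * (jC B Q j C : ℤ) - Xv v B Q T U F P j C =
          (144 - rB B Q T U F P x y z D) * (jC B Q j C : ℤ)) ∨
    (ja B Q (Ep B Q T U F) j = 0 ∧ 5 ≤ ∑ L ∈ F, jh B Q j L ∧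
      ∃ x y z D, BTc B Q T U F P j x y z D ∧ D ⊆ C ∧
        jC B Q j C = uC B x C + uC B y C + uC B z C ∧ ∑ C' ∈ P, uC B z C' ≤ 4 ∧
        uC B z C ≤ ∑ C' ∈ P, uC B z C' ∧
        144 * (jC B Q j C : ℤ) - Xv v B Q T U F P j C =
          160 * ((uC B x C : ℤ) + uC B y C) + (144 - rB B Q T U F P x y z D) * (uC B z C : ℤ) +
            (16 + rB B Q T U F P x y z D) * ((∑ C' ∈ P, uC B z C' : ℕ) : ℤ) - 1320 +
              80 * (ncl B Q T U F P j : ℤ)) ∨
    (ja B Q (Ep B Q T U F) j = 0 ∧ 5 ≤ ∑ L ∈ F, jh B Q j L ∧ ∑ L ∈ F, jh B Q j L ≤ 8 ∧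
      ncl B Q T U F P j = 0 ∧
      (∃ p ∈ B j ∩ Q, slf B F p = ∅) ∧ (∀ x y z D, ¬ BT B Q F (par0 B U F) j x y z D) ∧
      144 * (jC B Q j C : ℤ) - Xv v B Q T U F P j C =
        (144 - vD v (∑ L ∈ F, jh B Q j L)) * (jC B Q j C : ℤ)) ∨
    (0 < ncl B Q T U F P j ∧ (1 ≤ ja B Q (Ep B Q T U F) j ∨ ∑ L ∈ F, jh B Q j L ≤ 4) ∧
      144 * (jC B Q j C : ℤ) - Xv v B Q T U F P j C ≤ -56 * (jC B Q j C : ℤ)) ∨
    (0 < ncl B Q T U F P j ∧ ja B Q (Ep B Q T U F) j = 0 ∧ 5 ≤ ∑ L ∈ F, jh B Q j L ∧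
      (∀ x y z D, ¬ BTc B Q T U F P j x y z D) ∧
      (((∃ p ∈ B j ∩ Q, slf B F p = ∅) ∧ (∀ a b c D, ¬ BT B Q F (par0 B U F) j a b c D)) ∨
        (∃ a b c D, BT B Q F (par0 B U F) j a b c D ∧
          (4 < ∑ C ∈ P, uC B c C + ncl B Q T U F P j ∨
            ∃ k0 ∈ Kf B Q T U F P, (B k0 ∩ (B j ∩ Q)).card = 1 ∧ (a ∈ B k0 ∨ b ∈ B k0)))) ∧
      144 * (jC B Q j C : ℤ) - Xv v B Q T U F P j C =
        (144 - vC v (∑ L ∈ F, jh B Q j L)) * (jC B Q j C : ℤ)) := by
  have hjT := (s.frm.types_trs s.part hj).1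
  rcases s.frm.Xv_cases s.viol.reg s.part v hj with ⟨h1, h2⟩ | ⟨h1, h2, h3⟩ |
    ⟨h1, h2, x, y, z, D, C0, hB, hC0, hD, h4, h3⟩ | ⟨h1, h2, hnc, h4, h3⟩
  · by_cases h0 : ncl B Q T U F P j = 0
    · simp only [if_pos h0] at h2
      refine Or.inl ⟨h1, h0, ?_⟩
      rw [h2]
      ring
    · simp only [if_neg h0] at h2
      refine Or.inr (Or.inr (Or.inr (Or.inr (Or.inr (Or.inl
        ⟨Nat.pos_of_ne_zero h0, Or.inl h1, ?_⟩)))))
      rw [h2]
      have h6 : (0 : ℤ) ≤ (jC B Q j C : ℤ) := by positivity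
      linarith
  · by_cases h0 : ncl B Q T U F P j = 0
    · simp only [if_pos h0] at h3
      refine Or.inr (Or.inl ⟨h1, h2, h0, ?_⟩)
      rw [h3]
      ring
    · simp only [if_neg h0] at h3
      refine Or.inr (Or.inr (Or.inr (Or.inr (Or.inr (Or.inl
        ⟨Nat.pos_of_ne_zero h0, Or.inr h2, ?_⟩)))))
      rw [h3]
      have h6 : (0 : ℤ) ≤ (jC B Q j C : ℤ) := by positivity
      linarith
  · have hsum : jC B Q j C = uC B x C + uC B y C + uC B z C := by
      rw [s.jC_sum, hB.eq, sum_insert (by simp [hB.ab, hB.ac]), sum_pair hB.bc, add_assoc]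
    by_cases hCC : C = C0
    · subst hCC
      refine Or.inr (Or.inr (Or.inr (Or.inl ⟨h1, h2, x, y, z, D, hB, hD, hsum, h4,
        single_le_sum (f := fun C' => uC B z C') (fun _ _ => Nat.zero_le _) hC, ?_⟩)))
      rw [h3 C hC, if_pos rfl, hsum]
      push_cast
      ring
    · have hx : x ∈ B j ∩ Q := by rw [hB.eq]; simp
      have hy : y ∈ B j ∩ Q := by rw [hB.eq]; simp
      have hz : ∀ p ∈ B j ∩ Q, slf B F p ⊆ D → uC B p C = 0 := fun p hp hs =>
        s.frm.uC_zero s.part hjT hp hC ((s.part.ptn.dj C0 hC0 C hC (Ne.symm hCC)).mono_left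
          (hs.trans hD))
      have e1 := hz x hx hB.sa
      have e2 := hz y hy hB.sb
      rw [e1, e2, zero_add, zero_add] at hsum
      refine Or.inr (Or.inr (Or.inl ⟨h1, h2, x, y, z, D, hB, fun hDC => ?_, hsum, ?_⟩))
      · obtain ⟨L, hL⟩ := s.par.ne hB.mem
        exact disjoint_left.1 (s.part.ptn.dj C hC C0 hC0 hCC) (hDC hL) (hD hL)
      · rw [h3 C hC, if_neg hCC, hsum]
        ring
  · by_cases h0 : ncl B Q T U F P j = 0
    · simp only [if_pos h0] at h3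
      have h4' : (∃ p ∈ B j ∩ Q, slf B F p = ∅) ∧
          (∀ a b c D, ¬ BT B Q F (par0 B U F) j a b c D) := by
        rcases h4 with h5 | h5
        · exact h5
        · exact (h5.1.ne' h0).elim
      refine Or.inr (Or.inr (Or.inr (Or.inr (Or.inl ⟨h1, h2,
        s.frm.eight_dead s.viol.reg hjT h4'.1, h0, h4'.1, h4'.2, ?_⟩))))
      rw [h3]
      ring
    · simp only [if_neg h0] at h3
      refine Or.inr (Or.inr (Or.inr (Or.inr (Or.inr (Or.inr
        ⟨Nat.pos_of_ne_zero h0, h1, h2, hnc, h4.imp_right fun h5 => h5.2, ?_⟩)))))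
      rw [h3]
      ring

/-- a remaining triple with no centre at `C` gives a surplus of at least `5` for every hit. -/
theorem trs_le (s : Stg B Q T U F P a) {j : ι}
    (hj : j ∈ Trs B Q T (Rg B Q T U F) U F P) {C : Finset (Finset V)} (hC : C ∈ P)
    (hn : ∀ x y z D, BT B Q F (par0 B U F) j x y z D → ¬ D ⊆ C) :
    144 * (jC B Q j C : ℤ) - Xv 149 B Q T U F P j C ≤ -5 * (jC B Q j C : ℤ) := by
  have h0 : (0 : ℤ) ≤ (jC B Q j C : ℤ) := by positivity
  rcases s.trs_term 149 hj hC with ⟨_, _, h⟩ | ⟨_, _, _, h⟩ | ⟨_, _, x, y, z, D, hB, _, _, h⟩ |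
    ⟨_, _, x, y, z, D, hB, hD, _⟩ | ⟨_, h5, h8, _, _, _, h⟩ | ⟨_, _, h⟩ | ⟨_, _, _, _, _, h⟩
  · linarith
  · linarith
  · have hr := Frm.rB_ge (B := B) Q T U F P x y z D
    rw [h]
    exact mul_le_mul_of_nonneg_right (by linarith) h0
  · exact absurd hD (hn x y z D hB.toBT)
  · have h6 := vD_ge (v := 149) (by norm_num) (∑ L ∈ F, jh B Q j L)
    rw [h]
    exact mul_le_mul_of_nonneg_right (by linarith) h0
  · linarith
  · have h6 := vC_ge (∑ L ∈ F, jh B Q j L)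
    rw [h]
    exact mul_le_mul_of_nonneg_right (by linarith) h0

end Stg

end Pool.Agent.Hyp6
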