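import Pool.Agent.Hyp6.L3Fpf
import Pool.Agent.Hyp6.L3Fa
import Pool.Agent.Hyp6.L3Gl

/-!
# HYP6 L3Fpg: the line triples with claims

`line_donor`: a line triple with claims has at most eight hits and claims, or all its claims are at one
point, which has at most four hits and claims, and the other two points see one class.
`Pcl.donor_claims`: an exceptional triple with claims has at most three claims and hits elsewhere; it
claims itself or there are one claim and one hit elsewhere. The transfers of a triple: `tF_le`,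
`tF_not_tl`, `tF_own`.
-/

set_option autoImplicit false

namespace Pool.Agent.Hyp6

open Finset Pool.Agent.Hyp5 Rt

universe u v

variable {V : Type v} [DecidableEq V] {ι : Type u} [Fintype ι] [DecidableEq ι]
  {B : ι → Finset V}

section

variable {Q U : Finset V} {T : Finset ι} {F : Finset (Finset V)}
  {P : Finset (Finset (Finset V))} {al : V → Finset (Finset V) → ℕ}
  {j i k0 : ι} {a b c x : V}

/-- **the other two points of the triple of the third point are not absorbed by a leaf**. -/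
theorem Fpb.no_abs (h : Fpb B Q T U F j i k0 a b c x) {k : ι} (hk : k ∈ T) (hkj : k ≠ j)
    {s p q : V} (hTk : B k ∩ Q = {s, p, q}) (hs : s ∈ B k0) {M : Finset V} (hM : M ∈ F)
    (hMx : M ≠ {x}) : ¬ rho B (M ∪ {p, q}) ≤ rho B M := by
  intro hab
  have hsQ : s ∈ Q := (mem_inter.1 (by rw [hTk]; simp : s ∈ B k ∩ Q)).2
  have hpq : ({p, q} : Finset V) ⊆ Q := by
    intro v hv
    have : v ∈ B k ∩ Q := by
      rw [hTk]
      exact mem_insert_of_mem hv
    exact (mem_inter.1 this).2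
  have hbc : ({b, c} : Finset V) ⊆ Q := by
    intro v hv
    rw [mem_insert, mem_singleton] at hv
    rcases hv with rfl | rfl
    · exact (mem_inter.1 h.bQ).2
    · exact (mem_inter.1 h.cQ).2
  have h1 := h.px.frm.four_abs2 (D := ∅) Frm.Dcl.empty h.px.hj hk hkj.symm h.px.aQ hsQ (by
      rw [empty_union]
      refine (rho_le_one (i := k0) ?_).trans (Nat.le_add_left 1 _)
      intro v hv
      rw [mem_insert, mem_singleton] at hv
      rcases hv with rfl | rfl
      · exact h.ak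
      · exact hs) h.px.hx hM hMx.symm hbc hpq h.abs_bc hab (by
      intro v hv
      obtain ⟨hv1, hv2⟩ := mem_inter.1 hv
      rcases mem_union.1 hv1 with h2 | h2
      · have h3 := mem_inter.2 ⟨h2, hv2⟩
        rw [h.px.hjQ] at h3
        simp only [mem_insert, mem_singleton, mem_union] at h3 ⊢
        tauto
      · have h3 := mem_inter.2 ⟨h2, hv2⟩
        rw [hTk] at h3
        simp only [mem_insert, mem_singleton, mem_union] at h3 ⊢
        tauto)
  have h2 := Sp.dfc_own (A := {{x}, M}) (M := M)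
    (fun Y hY hne => Sp.Gd.sur h.px.frm.sur Y hY hne) (by
      intro u hu C hC hne
      rw [mem_insert, mem_singleton] at hC
      rcases hC with rfl | rfl
      · exact h.not_sees hu
      · exact absurd rfl hne)
  omega

/-- the hits of a point on the other leaves. -/
theorem Pcl.uh_erase (h : Pcl B Q T U F P j i k0 a b c x) (v : V) :
    ∑ L ∈ F.erase {x}, uh B v L = mh B v ((F.erase {x}).biUnion id) := by
  have hsep : SepF B (F.erase {x}) := fun L hL M hM hne =>
    h.px.frm.sepF L (mem_erase.1 hL).2 M (mem_erase.1 hM).2 hne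
  have h1 : ∑ L ∈ F.erase {x}, uh B v L = hit B {v} ((F.erase {x}).biUnion id) :=
    (hit_biUnion _ hsep).symm
  rw [h1, hit_eq, sum_singleton]
  rfl

/-- the hits of the triple on the other leaves. -/
theorem Pcl.jh_erase (h : Pcl B Q T U F P j i k0 a b c x) :
    ∑ L ∈ F.erase {x}, jh B Q j L =
      mh B b ((F.erase {x}).biUnion id) + mh B c ((F.erase {x}).biUnion id) := by
  obtain ⟨hab, hac, hbc⟩ := h.px.ne
  have h1 : ∑ L ∈ F.erase {x}, jh B Q j L = ∑ L ∈ F.erase {x}, uh B a L +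
      ∑ L ∈ F.erase {x}, uh B b L + ∑ L ∈ F.erase {x}, uh B c L := by
    rw [← sum_add_distrib, ← sum_add_distrib]
    refine sum_congr rfl fun L _ => ?_
    rw [jh_sum, h.px.hjQ, sum_insert (by simp [hab, hac]), sum_pair hbc, add_assoc]
  rw [h1, h.uh_erase, h.uh_erase, h.uh_erase, h.px.a_zero, zero_add]

/-- no claim is at the free point. -/
theorem Pcl.ncp_a (h : Pcl B Q T U F P j i k0 a b c x) (s : StgR B Q T U F P al) :
    ncp B Q (Kf B Q T U F P) j a = 0 := by
  by_contra h0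
  obtain ⟨k1, hk1, hc1, ha1⟩ := ncp_pos h0
  obtain ⟨j', i', a', b', c', x', h'⟩ := Kf_cla.1 hk1
  rcases h.all k1 ha1 with h2 | h2 | h2
  · obtain ⟨k, hk, hxk⟩ := h'.1.fpb.k0_sub s.mtr (mem_inter.2 ⟨h2, Frm.DQ h.px.xD⟩)
    exact Frm.T_notD (Q := Q) hk (mem_inter.1 hxk).1 h.px.xD
  · exact h'.1.fpb.k0_notT (h2 ▸ h.hj)
  · have h3 := h.fpb.own_card
    rw [← h2] at h3
    omega

/-- the point `c` sees only `{x}` if there is an inner block of another such triple at `b`. -/
theorem Pcl.c_only {j' i' k0' : ι} {a' b' c' x' : V} (h : Pcl B Q T U F P j i k0 a b c x)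
    (h' : Pcl B Q T U F P j' i' k0' a' b' c' x') (s : Stg B Q T U F P al)
    (hb : b ∈ B k0') (hjj : j ≠ j') : slf B F c ⊆ {{x}} := by
  have hxx := h.x_ne h' hjj
  have hxxs : ({x} : Finset V) ≠ {x'} := fun he => hxx (singleton_injective he)
  obtain ⟨hab, hac, hbc⟩ := h.px.ne
  have hcx := h.bc_x (v := c) (Or.inr rfl)
  have hax := h.a_x
  have h2 := h'.fpb.donor s.frm.sur s.par (h'.xpar s) h.hj hjj
    (s := b) (p := a) (q := c) (by
      rw [h.px.hjQ]
      exact insert_comm _ _ _) hab.symm hbc hac hb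
  rcases h2 with h2 | h2 | ⟨C', hC', h2, h3⟩
  · rw [hax] at h2
    exact (hxxs (mem_singleton.1 (h2 (mem_singleton_self _)))).elim
  · exact (hxxs (mem_singleton.1 (h2 hcx))).elim
  · have h4 : {x} ∈ C' := by
      rw [hax] at h2
      rcases mem_insert.1 (h2 (mem_singleton_self _)) with h5 | h5
      · exact absurd h5 hxxs
      · exact h5
    have h5 : C' = {{x}} := by
      by_contra hne
      exact disjoint_left.1 (s.par.dj hC' (h.xpar s) hne) h4 (mem_singleton_self _)
    intro L hL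
    rcases mem_insert.1 (h3 hL) with h6 | h6
    · exact (h'.not_sees_pt h.jtl hjj h.fpb.cQ (h6 ▸ hL)).elim
    · rwa [h5] at h6

/-- a point which sees only `{x}` has no hits elsewhere. -/
theorem Pcl.mh_zero (h : Pcl B Q T U F P j i k0 a b c x) {v : V} (hv : v ∈ B j ∩ Q)
    (h0 : slf B F v ⊆ {{x}}) : mh B v ((F.erase {x}).biUnion id) = 0 := by
  rw [← h.uh_erase]
  refine sum_eq_zero fun L hL => ?_
  obtain ⟨hne, hLF⟩ := mem_erase.1 hL
  exact uh_zero hLF (h.px.frm.T_notin h.hj hv hLF) fun h1 => hne (mem_singleton.1 (h0 h1))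

/-- **the claims on an exceptional triple**: at most three claims and hits elsewhere; it claims itself
or there are one claim and one hit elsewhere. -/
theorem Pcl.donor_claims (h : Pcl B Q T U F P j i k0 a b c x) (s : StgR B Q T U F P al)
    (hc : 0 < ncl B Q T U F P j) :
    ∑ L ∈ F.erase {x}, jh B Q j L + ncl B Q T U F P j ≤ 3 ∧
      (k0 ∈ Kf B Q T U F P ∨
        (∑ L ∈ F.erase {x}, jh B Q j L = 1 ∧ ncl B Q T U F P j = 1)) := by
  obtain ⟨hab, hac, hbc⟩ := h.px.ne
  have hxi : x ∈ B i := (mem_inter.1 (by rw [h.px.hiQ]; simp : x ∈ B i ∩ Q)).1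
  have hij : i ≠ j := by
    rintro rfl
    exact Frm.T_notD (Q := Q) h.hj hxi h.px.xD
  have ha0 := h.ncp_a s
  have hsum : ncl B Q T U F P j = ncp B Q (Kf B Q T U F P) j b +
      ncp B Q (Kf B Q T U F P) j c := by
    have h1 : ncl B Q T U F P j = ∑ v ∈ B j ∩ Q, ncp B Q (Kf B Q T U F P) j v := ncK_eq _ _ _
    rw [h.px.hjQ, sum_insert (by simp [hab, hac]), sum_pair hbc, ha0, zero_add] at h1
    exact h1
  by_cases hcc : ncp B Q (Kf B Q T U F P) j c = 0
  · -- the claims are at `b`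
    have hb : ncp B Q (Kf B Q T U F P) j b ≠ 0 := by omega
    obtain ⟨k1, hk1, hc1, hb1⟩ := ncp_pos hb
    obtain ⟨j', i', a', b', c', x', h'⟩ := Kf_cla.1 hk1
    have hjj := h'.1.claim_ne hc1
    have h2 := h.c_only h'.1 s.toStg hb1 hjj
    have h3 := h.mh_zero h.fpb.cQ h2
    -- the blocks of `b`
    set S := univ.filter (fun i => b ∈ B i ∧ (B i ∩ (F.erase {x}).biUnion id).Nonempty) with hS
    set C := (Kf B Q T U F P).filter (fun k0 => (B k0 ∩ (B j ∩ Q)).card = 1 ∧ b ∈ B k0) with hC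
    have hsepK : ∀ k ∈ Kf B Q T U F P, ¬ (B k ∩ F.biUnion id).Nonempty := by
      intro k hk
      obtain ⟨j2, i2, a2, b2, c2, x2, h2⟩ := Kf_cla.1 hk
      exact h2.1.k0_sep' s.mtr
    have hbi : b ∈ B i := (mem_inter.1 (by rw [h.px.hiQ]; simp : b ∈ B i ∩ Q)).1
    have hd : Disjoint S C := by
      rw [disjoint_left]
      intro k hk hk'
      refine h'.1.k0_sep s.mtr (y := x) ?_ |>.elim
      exfalso
      obtain ⟨hkK, _, _⟩ := mem_filter.1 hk'
      obtain ⟨j2, i2, a2, b2, c2, x2, h2⟩ := Kf_cla.1 hkK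
      exact h2.1.k0_sep s.mtr (mem_filter.1 hk).2.2
    have hk0n : k0 ∉ S ∪ C := by
      intro h4
      rcases mem_union.1 h4 with h4 | h4
      · exact h.k0_sep s.mtr (mem_filter.1 h4).2.2
      · have h5 := h.fpb.own_card
        have h6 := (mem_filter.1 h4).2.1
        omega
    have hin : i ∉ insert k0 (S ∪ C) := by
      intro h4
      rcases mem_insert.1 h4 with h4 | h4
      · exact h.xk (h4 ▸ hxi)
      · rcases mem_union.1 h4 with h4 | h4
        · exact h.px.x_sep hxi (mem_filter.1 h4).2.2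
        · have h6 := (mem_filter.1 h4).2.1
          have h7 : ({b, c} : Finset V) ⊆ B i ∩ (B j ∩ Q) := by
            intro v hv
            rw [mem_insert, mem_singleton] at hv
            rcases hv with rfl | rfl
            · exact mem_inter.2 ⟨hbi, h.fpb.bQ⟩
            · exact mem_inter.2 ⟨(mem_inter.1 (by rw [h.px.hiQ]; simp : v ∈ B i ∩ Q)).1, h.fpb.cQ⟩
          have h8 := card_le_card h7
          rw [card_pair hbc] at h8
          omega
    have hjn : j ∉ insert i (insert k0 (S ∪ C)) := by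
      intro h4
      rcases mem_insert.1 h4 with h4 | h4
      · exact hij h4.symm
      · rcases mem_insert.1 h4 with h4 | h4
        · exact h.fpb.k0_ne h4.symm
        · rcases mem_union.1 h4 with h4 | h4
          · obtain ⟨_, _, z, hz⟩ := mem_filter.1 h4
            obtain ⟨hz1, hz2⟩ := mem_inter.1 hz
            obtain ⟨L, hL, hzL⟩ := mem_biUnion.1 hz2
            exact Frm.T_notD (Q := Q) h.hj hz1 (h.px.frm.FD (mem_erase.1 hL).2 hzL)
          · obtain ⟨hkK, _, _⟩ := mem_filter.1 h4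
            obtain ⟨j2, i2, a2, b2, c2, x2, h2⟩ := Kf_cla.1 hkK
            exact h2.1.fpb.k0_notT h.hj
    have hsub : insert j (insert i (insert k0 (S ∪ C))) ⊆ univ.filter fun i => b ∈ B i := by
      intro m hm
      simp only [mem_insert, mem_union] at hm
      rcases hm with rfl | rfl | rfl | hm | hm
      · exact mem_filter.2 ⟨mem_univ _, (mem_inter.1 h.fpb.bQ).1⟩
      · exact mem_filter.2 ⟨mem_univ _, hbi⟩
      · exact mem_filter.2 ⟨mem_univ _, h.bk⟩
      · exact mem_filter.2 ⟨mem_univ _, (mem_filter.1 hm).2.1⟩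
      · exact mem_filter.2 ⟨mem_univ _, (mem_filter.1 hm).2.2⟩
    have h6 := card_le_card hsub
    rw [card_insert_of_notMem hjn, card_insert_of_notMem hin, card_insert_of_notMem hk0n,
      card_union_of_disjoint hd, s.viol.reg b (mem_inter.1 h.fpb.bQ).2] at h6
    have h7 : S.card = mh B b ((F.erase {x}).biUnion id) := rfl
    have h8 : C.card = ncp B Q (Kf B Q T U F P) j b := rfl
    -- the triple sees another leaf
    have h9 : mh B b ((F.erase {x}).biUnion id) ≠ 0 := by
      intro h0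
      have h10 : ∀ v ∈ B j ∩ Q, slf B F v ⊆ {{x}} := by
        intro v hv
        have hv' := hv
        rw [h.px.hjQ] at hv'
        simp only [mem_insert, mem_singleton] at hv'
        rcases hv' with rfl | rfl | rfl
        · rw [h.a_x]
        · intro L hL
          rw [mem_singleton]
          by_contra hne
          have hLF := slf_sub hL
          have h11 := (uh_pos hLF (h.px.frm.T_notin h.hj hv hLF)).2 hL
          have h12 := h.uh_erase v
          rw [h0, sum_eq_zero_iff] at h12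
          have h13 := h12 L (mem_erase.2 ⟨hne, hLF⟩)
          omega
        · exact h2
      have h11 := s.mcj_sub_one (h.xpar s.toStg) h10
      have h12 := (s.rank_tl h.jtl).1
      omega
    rw [h.jh_erase]
    omega
  · -- there is a claim at `c`
    obtain ⟨k1, hk1, hc1, hcb⟩ := ncp_pos hcc
    obtain ⟨j', i', a', b', c', x', h'⟩ := Kf_cla.1 hk1
    have hjj := h'.1.claim_ne hc1
    have hcla : Cla B Q T U F P j i k0 a b c x :=
      ⟨h, Or.inr ⟨j', i', k1, a', b', c', x', h'.1, hcb⟩⟩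
    have hb0 : ncp B Q (Kf B Q T U F P) j b = 0 := by
      by_contra h0
      obtain ⟨k2, hk2, hc2, hb2⟩ := ncp_pos h0
      obtain ⟨j2, i2, a2, b2, c2, x2, h2⟩ := Kf_cla.1 hk2
      exact hbc (hcla.claim_at_c h2.1 s.toStg s.mtr hb2 h.fpb.bQ (h2.1.claim_ne hc2))
    have h2 := h.mh_zero h.fpb.bQ (h.b_only h'.1 s.toStg hcb hjj)
    have h3 := s.hit_ncp h.hj h.fpb.cQ
    have h4 : ∑ L ∈ F, uh B c L = uh B c {x} + ∑ L ∈ F.erase {x}, uh B c L :=
      (add_sum_erase F (fun L => uh B c L) h.px.hx).symm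
    have h5 : 0 < uh B c {x} := (uh_pos h.px.hx (h.px.frm.T_notin h.hj h.fpb.cQ h.px.hx)).2
      (h.bc_x (Or.inr rfl))
    rw [h.uh_erase] at h4
    refine ⟨?_, Or.inl (Kf_cla.2 ⟨j, i, a, b, c, x, hcla⟩)⟩
    rw [h.jh_erase]
    omega

end

namespace StgR

variable {Q U : Finset V} {T : Finset ι} {F : Finset (Finset V)}
  {P : Finset (Finset (Finset V))} {al : V → Finset (Finset V) → ℕ}

/-- a triple has at most one own claim. -/
theorem own_le_one (_s : StgR B Q T U F P al) {k : ι} (hk : k ∈ T) :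
    ((Kf B Q T U F P).filter (fun k0 => (B k0 ∩ (B k ∩ Q)).card = 2)).card ≤ 1 := by
  rw [card_le_one]
  intro k1 hk1 k2 hk2
  obtain ⟨h1, h2⟩ := mem_filter.1 hk1
  obtain ⟨h3, h4⟩ := mem_filter.1 hk2
  obtain ⟨j, i, a, b, c, x, h⟩ := Kf_cla.1 h1
  obtain ⟨j', i', a', b', c', x', h'⟩ := Kf_cla.1 h3
  have e1 := h.1.fpb.own_unique hk h2.ge
  have e2 := h'.1.fpb.own_unique hk h4.ge
  subst e1
  subst e2
  exact (h.1.same h'.1).2.2

/-- the transfer of a triple is at most `80`. -/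
theorem tF_le (s : StgR B Q T U F P al) {k : ι} (hk : k ∈ T) :
    tF B Q T U F P k ≤ 80 - 80 * (ncl B Q T U F P k : ℤ) := by
  have h1 := s.own_le_one hk
  unfold tF tfr ncl
  have h2 : (((Kf B Q T U F P).filter
    (fun k0 => (B k0 ∩ (B k ∩ Q)).card = 2)).card : ℤ) ≤ 1 := by exact_mod_cast h1
  linarith

/-- the transfer of a triple without own claims. -/
theorem tF_none (_s : StgR B Q T U F P al) {k : ι} (hk : k ∈ T)
    (h : ∀ i k0 a b c x, ¬ Cla B Q T U F P k i k0 a b c x) :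
    tF B Q T U F P k = -80 * (ncl B Q T U F P k : ℤ) := by
  have h1 : (Kf B Q T U F P).filter (fun k0 => (B k0 ∩ (B k ∩ Q)).card = 2) = ∅ := by
    rw [filter_eq_empty_iff]
    intro k0 hk0 h2
    obtain ⟨j, i, a, b, c, x, h3⟩ := Kf_cla.1 hk0
    have e1 := h3.1.fpb.own_unique hk h2.ge
    subst e1
    exact h _ _ _ _ _ _ h3
  unfold tF tfr ncl
  rw [h1, card_empty]
  push_cast
  ring

/-- the transfer of a triple which is not a line triple. -/
theorem tF_not_tl (s : StgR B Q T U F P al) {k : ι} (hk : k ∈ T)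
    (hkt : k ∉ tl B Q T U F P) : tF B Q T U F P k = -80 * (ncl B Q T U F P k : ℤ) :=
  s.tF_none hk fun _ _ _ _ _ _ h => hkt h.1.jtl

/-- the transfer of a claiming triple. -/
theorem tF_own (s : StgR B Q T U F P al) {j i k0 : ι} {a b c x : V}
    (h : Cla B Q T U F P j i k0 a b c x) :
    tF B Q T U F P j = 80 - 80 * (ncl B Q T U F P j : ℤ) := by
  have h1 := s.own_le_one h.1.hj
  have h2 : 0 < ((Kf B Q T U F P).filter (fun k0 => (B k0 ∩ (B j ∩ Q)).card = 2)).card :=
    card_pos.2 ⟨k0, mem_filter.2 ⟨Kf_cla.2 ⟨j, i, a, b, c, x, h⟩, h.1.fpb.own_card⟩⟩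
  unfold tF tfr ncl
  have h3 : (((Kf B Q T U F P).filter
    (fun k0 => (B k0 ∩ (B j ∩ Q)).card = 2)).card : ℤ) = 1 := by
    exact_mod_cast le_antisymm h1 h2
  rw [h3]
  ring

/-- a claiming triple with at least three hits elsewhere receives `80`. -/
theorem tF_big (s : StgR B Q T U F P al) {j i k0 : ι} {a b c x : V}
    (h : Pcl B Q T U F P j i k0 a b c x) (h3 : 3 ≤ ∑ L ∈ F.erase {x}, jh B Q j L) :
    tF B Q T U F P j = 80 ∧ ncl B Q T U F P j = 0 := by
  rw [h.jh_erase] at h3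
  have h0 : ncl B Q T U F P j = 0 := by
    by_contra h0
    obtain ⟨k1, hk1⟩ := card_pos.1 (Nat.pos_of_ne_zero h0)
    obtain ⟨hk2, hc⟩ := mem_filter.1 hk1
    obtain ⟨j', i', a', b', c', x', h'⟩ := Kf_cla.1 hk2
    exact h.no_claim h3 h'.1 s.toStg s.mtr hc
  rw [s.tF_own ⟨h, Or.inl h3⟩, h0]
  simp

/-- **the triples with claims of rank two or more which see no leaf of a claim**: at most eight hits and
claims, or all claims are at one point `v` with at most four hits and claims, and the other two points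
see one class. -/
theorem far_donor (s : StgR B Q T U F P al) {k : ι} (hkT : k ∈ T) (hk : Far B Q T U F P k)
    (hc : 0 < ncl B Q T U F P k) :
    ∑ L ∈ F, jh B Q k L + ncl B Q T U F P k ≤ 8 ∨
    ∃ p q v D, BT B Q F (par0 B U F) k p q v D ∧ (slf B F p).Nonempty ∧
      NoCl B Q (Kf B Q T U F P) k p q ∧
      (∃ j i k0 a b c x, Cla B Q T U F P j i k0 a b c x ∧ k ≠ j ∧ v ∈ B k0) ∧
      ∑ L ∈ F, uh B v L + ncl B Q T U F P k ≤ 4 := by
  by_cases hdead : ∃ p ∈ B k ∩ Q, slf B F p = ∅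
  · exact Or.inl (s.eight_clF hkT hdead (Or.inl hk))
  push Not at hdead
  rcases s.four_or_eight hkT hc with ⟨v, hv, h1, h2, h3⟩ | h3
  swap
  · exact Or.inl h3
  right
  obtain ⟨k0, hk0, hc0, hvk0⟩ := ncp_pos (B := B) (by omega :
    ncp B Q (Kf B Q T U F P) k v ≠ 0)
  obtain ⟨j, i, a, b, c, x, h⟩ := Kf_cla.1 hk0
  have hkj := h.1.claim_ne hc0
  obtain ⟨p, q, hT, hvp, hvq, hpq⟩ : ∃ b c, B k ∩ Q = {v, b, c} ∧ v ≠ b ∧ v ≠ c ∧ b ≠ c := by
    obtain ⟨y1, y2, y3, hT, hxy, hxz, hyz⟩ := s.frm.three_points hkT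
    rw [hT] at hv
    simp only [mem_insert, mem_singleton] at hv
    rcases hv with rfl | rfl | rfl
    · exact ⟨y2, y3, hT, hxy, hxz, hyz⟩
    · refine ⟨y1, y3, ?_, hxy.symm, hyz, hxz⟩
      rw [hT]
      ext v
      simp only [mem_insert, mem_singleton]
      tauto
    · refine ⟨y1, y2, ?_, hxz.symm, hyz.symm, hxy⟩
      rw [hT]
      ext v
      simp only [mem_insert, mem_singleton]
      tauto
  have hp : p ∈ B k ∩ Q := by rw [hT]; simp
  have hq : q ∈ B k ∩ Q := by rw [hT]; simp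
  have hnx : ∀ w ∈ B k ∩ Q, ¬ slf B F w ⊆ {{x}} := by
    intro w hw h4
    obtain ⟨L, hL⟩ := hdead w hw
    exact hk.1 _ _ _ _ _ _ _ h.1 hkj w hw ((mem_singleton.1 (h4 hL)) ▸ hL)
  rcases h.1.fpb.donor s.frm.sur s.par (h.1.xpar s.toStg) hkT hkj hT hvp hvq hpq hvk0 with
    h4 | h4 | ⟨D, hD, h4, h5⟩
  · exact absurd h4 (hnx p hp)
  · exact absurd h4 (hnx q hq)
  have h6 : ∀ w, w ∈ B k ∩ Q → slf B F w ⊆ insert {x} D → slf B F w ⊆ D := by
    intro w hw h5 L hL
    rcases mem_insert.1 (h5 hL) with h6 | h6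
    · exact (hk.1 _ _ _ _ _ _ _ h.1 hkj w hw (h6 ▸ hL)).elim
    · exact h6
  have hnv : ¬ slf B F v ⊆ D := by
    intro h7
    have h8 := s.mcj_sub_one hD (k := k) (fun w hw => by
      have hw' := hw
      rw [hT] at hw'
      simp only [mem_insert, mem_singleton] at hw'
      rcases hw' with rfl | rfl | rfl
      · exact h7
      · exact h6 _ hw h4
      · exact h6 _ hw h5)
    have h9 := hk.2
    omega
  refine ⟨p, q, v, D, ?_, hdead p hp, ?_,
    ⟨j, i, k0, a, b, c, x, h, hkj, hvk0⟩, h3⟩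
  · exact {
      eq := by
        rw [hT]
        ext w
        simp only [mem_insert, mem_singleton]
        tauto
      ab := hpq
      ac := hvp.symm
      bc := hvq.symm
      nb := hdead q hq
      mem := hD
      sa := h6 p hp h4
      sb := h6 q hq h5
      nsc := hnv }
  · intro k1 hk1 hc1
    have hz : ∀ w ∈ B k ∩ Q, w ≠ v → w ∉ B k1 := by
      intro w hw hwv hwk
      have h7 := h1 w hw hwv
      unfold ncp at h7
      rw [card_eq_zero, filter_eq_empty_iff] at h7
      exact h7 hk1 ⟨hc1, hwk⟩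
    exact ⟨hz p hp hvp.symm, hz q hq hvq.symm⟩

/-- **the line triples with claims**. -/
theorem line_donor (s : StgR B Q T U F P al) {k : ι} (hk : k ∈ tl B Q T U F P)
    (hc : 0 < ncl B Q T U F P k) :
    ∑ L ∈ F, jh B Q k L + ncl B Q T U F P k ≤ 8 ∨
    ∃ p q v D, BT B Q F (par0 B U F) k p q v D ∧ (slf B F p).Nonempty ∧
      NoCl B Q (Kf B Q T U F P) k p q ∧
      (∃ j i k0 a b c x, Cla B Q T U F P j i k0 a b c x ∧ k ≠ j ∧ v ∈ B k0) ∧
      ∑ L ∈ F, uh B v L + ncl B Q T U F P k ≤ 4 :=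
  s.far_donor (s.tl_sub hk).1 (s.far_tl hk) hc

/-- **the triples with claims inside a class**: rank one, or at most eight hits and claims, or all claims
are at one point `v` with at most four hits and claims, and the other two points see one class. -/
theorem kin_donor (s : StgR B Q T U F P al) {C : Finset (Finset V)} (hC : C ∈ P) {k : ι}
    (hk : k ∈ Sp.Kin (Rg B Q T U F) (slj B Q F) C) (hc : 0 < ncl B Q T U F P k) :
    rkc B U F (par0 B U F) (mcj B Q F (par0 B U F) k) ≤ 1 ∨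
    ∑ L ∈ F, jh B Q k L + ncl B Q T U F P k ≤ 8 ∨
    ∃ p q v D, BT B Q F (par0 B U F) k p q v D ∧ D ⊆ C ∧ (slf B F p).Nonempty ∧
      NoCl B Q (Kf B Q T U F P) k p q ∧
      (∃ j i k0 a b c x, Cla B Q T U F P j i k0 a b c x ∧ k ≠ j ∧ v ∈ B k0) ∧
      ∑ L ∈ F, uh B v L + ncl B Q T U F P k ≤ 4 := by
  rcases le_or_gt (rkc B U F (par0 B U F) (mcj B Q F (par0 B U F) k)) 1 with h1 | h1
  · exact Or.inl h1
  right
  rcases s.far_donor (s.toStg.kin.1 hk).1 (s.far_kin hC hk (by omega)) hc with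
    h2 | ⟨p, q, v, D, hB, h3, h4, h5, h6⟩
  · exact Or.inl h2
  refine Or.inr ⟨p, q, v, D, hB, ?_, h3, h4, h5, h6⟩
  obtain ⟨C', hC', hDC'⟩ := s.toStg.sub_class hB.mem
  obtain ⟨L, hL⟩ := hB.nb
  have h7 : L ∈ C := (s.toStg.kin.1 hk).2.2.2.2
    (mem_biUnion.2 ⟨q, by rw [hB.eq]; simp, hL⟩)
  have h8 : C' = C := by
    by_contra hne
    exact disjoint_left.1 (s.part.ptn.dj C' hC' C hC hne) (hDC' (hB.sb hL)) h7
  rwa [h8] at hDC'

/-- a triple inside a class is not a line triple. -/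
theorem kin_not_tl (s : StgR B Q T U F P al) {C : Finset (Finset V)} (hC : C ∈ P) {k : ι}
    (hk : k ∈ Sp.Kin (Rg B Q T U F) (slj B Q F) C) : k ∉ tl B Q T U F P := by
  intro hkt
  obtain ⟨h1, h2⟩ := mem_filter.1 hkt
  exact (mem_filter.1 h1).2.2 C hC (s.toStg.kin.1 hk).2.2.2.2

/-- the transfer of a triple inside a class. -/
theorem tF_kin (s : StgR B Q T U F P al) {C : Finset (Finset V)} (hC : C ∈ P) {k : ι}
    (hk : k ∈ Sp.Kin (Rg B Q T U F) (slj B Q F) C) :
    tF B Q T U F P k = -80 * (ncl B Q T U F P k : ℤ) :=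
  s.tF_not_tl (s.toStg.kin.1 hk).1 (s.kin_not_tl hC hk)

/-- the hits of a triple inside a class. -/
theorem kin_hit (s : StgR B Q T U F P al) {C : Finset (Finset V)} {k : ι}
    (hk : k ∈ Sp.Kin (Rg B Q T U F) (slj B Q F) C) : 1 ≤ ∑ L ∈ F, jh B Q k L := by
  obtain ⟨hkT, _, _, ⟨L, hL⟩, _⟩ := s.toStg.kin.1 hk
  obtain ⟨v, hv, hLv⟩ := mem_biUnion.1 hL
  have hLF := slf_sub hLv
  have h1 := (uh_pos hLF (s.frm.T_notin hkT hv hLF)).2 hLv
  rw [s.jh_pts]
  calc 1 ≤ uh B v L := h1
    _ ≤ ∑ M ∈ F, uh B v M := single_le_sum (f := fun M => uh B v M) (fun _ _ => Nat.zero_le _) hLF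
    _ ≤ ∑ w ∈ B k ∩ Q, ∑ M ∈ F, uh B w M :=
        single_le_sum (f := fun w => ∑ M ∈ F, uh B w M) (fun _ _ => Nat.zero_le _) hv

/-- **the transfer of a triple inside a class, lower bound**. -/
theorem tF_kin_ge (s : StgR B Q T U F P al) {C : Finset (Finset V)} (hC : C ∈ P) {k : ι}
    (hk : k ∈ Sp.Kin (Rg B Q T U F) (slj B Q F) C) :
    -408 ≤ tF B Q T U F P k + 16 * (12 - ((∑ L ∈ F, jh B Q k L : ℕ) : ℤ)) := by
  rw [s.tF_kin hC hk]
  have h1 := s.kin_hit hk
  have h2 := s.twelve_ncl (s.toStg.kin.1 hk).1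
  rcases Nat.eq_zero_or_pos (ncl B Q T U F P k) with h0 | h0
  · omega
  · rcases s.four_or_eight (s.toStg.kin.1 hk).1 h0 with ⟨v, _, _, _, h3⟩ | h3
    · omega
    · omega

/-- the hits of such a triple away from the class of its two points. -/
theorem bt_away (s : StgR B Q T U F P al) {k : ι} (hk : k ∈ T) {p q v : V}
    {D : Finset (Finset V)} (hB : BT B Q F (par0 B U F) k p q v D) {C : Finset (Finset V)}
    (hC : C ∈ P) (hDC : ¬ D ⊆ C) : jC B Q k C = uC B v C := by
  have hp : p ∈ B k ∩ Q := by rw [hB.eq]; simp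
  have hq : q ∈ B k ∩ Q := by rw [hB.eq]; simp
  have hdis : Disjoint D C := by
    obtain ⟨C', hC', hDC'⟩ := s.toStg.sub_class hB.mem
    have hne : C' ≠ C := fun he => hDC (he ▸ hDC')
    exact (s.part.ptn.dj C' hC' C hC hne).mono_left hDC'
  have h1 : uC B p C = 0 := s.frm.uC_zero s.part hk hp hC (hdis.mono_left hB.sa)
  have h2 : uC B q C = 0 := s.frm.uC_zero s.part hk hq hC (hdis.mono_left hB.sb)
  rw [s.toStg.jC_sum, hB.eq, sum_insert (by simp [hB.ab, hB.ac]), sum_pair hB.bc, h1, h2]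
  omega

/-- **the hypothesis of the prices for a line with two classes**. -/
theorem hc_two (s : StgR B Q T U F P al) {k : ι} (hk : k ∈ tl B Q T U F P)
    {C D : Finset (Finset V)} (hCD : C ≠ D) (hl : lj B Q U F P k = {C, D})
    (hc : 1 ≤ ncl B Q T U F P k) :
    jC B Q k C + jC B Q k D + ncl B Q T U F P k ≤ 8 ∨
      (jC B Q k C + jC B Q k D + ncl B Q T U F P k ≤ 12 ∧
        (jC B Q k C + ncl B Q T U F P k ≤ 4 ∨ jC B Q k D + ncl B Q T U F P k ≤ 4)) := by
  have hkT := (s.tl_sub hk).1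
  have hCP : C ∈ P := s.lnf.sub k hk (by rw [hl]; simp)
  have hDP : D ∈ P := s.lnf.sub k hk (by rw [hl]; simp)
  have h1 : jC B Q k C + jC B Q k D ≤ ∑ L ∈ F, jh B Q k L := by
    rw [← Frm.jC_all s.part k]
    have h2 : ({C, D} : Finset (Finset (Finset V))) ⊆ P := by
      intro E hE
      rw [mem_insert, mem_singleton] at hE
      rcases hE with rfl | rfl <;> assumption
    have h3 := sum_le_sum_of_subset (f := fun C => jC B Q k C) h2
    rwa [sum_pair hCD] at h3
  rcases s.line_donor hk hc with h2 | ⟨p, q, v, E, hB, _, _, _, h5⟩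
  · left
    omega
  right
  have h6 := s.twelve_ncl hkT
  refine ⟨by omega, ?_⟩
  have key : ∀ C ∈ P, ¬ E ⊆ C → jC B Q k C + ncl B Q T U F P k ≤ 4 := by
    intro C hC hn
    rw [s.bt_away hkT hB hC hn]
    have h7 : uC B v C ≤ ∑ L ∈ F, uh B v L := by
      rw [← Frm.uC_all s.part v]
      exact single_le_sum (f := fun C => uC B v C) (fun _ _ => Nat.zero_le _) hC
    omega
  by_cases hEC : E ⊆ C
  · right
    refine key D hDP fun hED => ?_
    obtain ⟨L, hL⟩ := s.par.ne hB.mem
    exact disjoint_left.1 (s.part.ptn.dj C hCP D hDP hCD) (hEC hL) (hED hL)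
  · exact Or.inl (key C hCP hEC)

end StgR

end Pool.Agent.Hyp6
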