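import Pool.Agent.Hyp6.L3Rd1

/-!
# HYP6 L3RD2: the shift lemma for the triple of a fat line

The surplus at the private classes of a line triple together with its claims at the other classes of its
line is at least `-1` (its supply is `141`, its standard payments are `140`).
-/

set_option autoImplicit false

namespace Pool.Agent.Hyp6.Rt

open Finset

/-- what is used of a private class of a line with `k` own points. -/
structure Pf (k : ℕ) (h y a d : ℤ) : Prop where
  f19 : 19 * a - 95 ≤ d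
  f15 : 15 * a + 13 - 18 * h ≤ d
  f14 : h ≤ 5 → 14 * a - 70 ≤ d
  lo : k ≤ 2 → -24 ≤ d ∧ (h ≤ 6 → -6 ≤ d) ∧ (h ≤ 5 → 0 ≤ d) ∧ (h ≤ 3 → 57 - 18 * h ≤ d)
  k1t : k = 1 → (a = 0 ∧ 4 ≤ d) ∨ (a = 1 ∧ -10 ≤ d) ∨ (a = 2 ∧ 9 ≤ d) ∨
      (a = 3 ∧ 28 ≤ d) ∨ (a = 4 ∧ 14 ≤ d) ∨ (5 ≤ a ∧ 0 ≤ d)
  k2b : k = 2 → 10 * a - 50 ≤ d
  k2t : k = 2 → (a = 0 ∧ 4 ≤ d) ∨ (a = 1 ∧ -10 ≤ d) ∨ (a = 2 ∧ -24 ≤ d ∧ (h ≤ 6 → -6 ≤ d)) ∨
      (a = 3 ∧ -5 ≤ d ∧ (y ≤ 3 ∨ 0 ≤ d)) ∨ (a = 4 ∧ 14 ≤ d) ∨
      (5 ≤ a ∧ 20 * (a - 5) ≤ d ∧ (h ≤ 4 → 18 + 20 * (a - 5) ≤ d) ∧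
        (h ≤ 10 → y ≤ 4 ∨ 5 ≤ d))

/-- a single private leaf. -/
theorem Prb.pf {k : ℕ} {h y go a fr D d : ℤ} (p : Prb h (y + go) D)
    (go0 : 0 ≤ go) (a0 : 0 ≤ a) (fr0 : 0 ≤ fr) (le5 : a + fr ≤ 5)
    (full : a + fr = 5 ∨ (y ≤ a ∧ go ≤ fr)) (hk1 : k = 1 → 2 ≤ go)
    (hk2 : k = 2 → 1 ≤ go ∨ 6 ≤ y) (hk0 : 1 ≤ k) (hd : d = 70 + 22 * a + 36 * fr - D) :
    Pf k h y a d := by
  have h19 := p.f19 a0 fr0 le5 full
  have h15 := p.f15 a0 fr0 le5 full
  have h14 := p.f14 a0 fr0 le5 full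
  rw [← hd] at h19 h15 h14
  refine ⟨h19, h15, h14, fun h1 => ?_, fun h1 => ?_, fun h2 => ?_, fun h2 => ?_⟩
  · have hg : 1 ≤ go ∨ 6 ≤ y := by
      rcases Nat.lt_or_ge k 2 with hk | hk
      · have := hk1 (by omega)
        exact Or.inl (by omega)
      · exact hk2 (by omega)
    obtain ⟨g3, d0, d3, d4, db, d6⟩ := p
    clear hk1 hk2 h19 h15 h14
    refine ⟨by omega, fun _ => by omega, fun _ => by omega, fun _ => by omega⟩
  · have h2 := (p.k1_tab a0 fr0 le5 full (hk1 h1) hd).2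
    clear hk1 hk2 h19 h15 h14
    omega
  · have h3 := p.k2_lin a0 fr0 le5 full (hk2 h2)
    rw [← hd] at h3
    exact h3.2
  · have h3 := p.k2_tab a0 fr0 le5 full (hk2 h2) go0 hd
    clear hk1 hk2 h19 h15 h14
    rcases h3 with h3 | h3 | h3 | h3 | h3 | h3
    · exact Or.inl h3
    · exact Or.inr (Or.inl h3)
    · exact Or.inr (Or.inr (Or.inl h3))
    · exact Or.inr (Or.inr (Or.inr (Or.inl h3)))
    · exact Or.inr (Or.inr (Or.inr (Or.inr (Or.inl h3))))
    · refine Or.inr (Or.inr (Or.inr (Or.inr (Or.inr ⟨by omega, by omega, ?_, h3.2.2.2⟩))))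
      intro h4
      have := h3.2.2.1 h4
      omega

/-- a private point with two singles, at most three hits, two contact points. -/
theorem pf_point {k : ℕ} {h y go a fr D d : ℤ} (g2 : 2 ≤ y + go) (g3 : y + go ≤ 3)
    (h1 : 1 ≤ h) (h3 : h ≤ 3) (hD : D ≤ 18 * h + 21 * (y + go) + 15)
    (a0 : 0 ≤ a) (fr0 : 0 ≤ fr) (le5 : a + fr ≤ 5)
    (full : a + fr = 5 ∨ (y ≤ a ∧ go ≤ fr)) (hk1 : k = 1 → 1 ≤ go)
    (hd : d = 70 + 22 * a + 36 * fr - D) (y0 : 0 ≤ y) (go0 : 0 ≤ go) :
    Pf k h y a d := by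
  refine ⟨by omega, by omega, fun _ => by omega, fun _ => ⟨by omega, fun _ => by omega,
    fun _ => by omega, fun _ => by omega⟩, fun h1 => ?_, fun h2 => by omega, fun h2 => ?_⟩
  · have := hk1 h1
    omega
  · have : a = 0 ∨ a = 1 ∨ a = 2 ∨ a = 3 ∨ a = 4 ∨ 5 ≤ a := by omega
    rcases this with rfl | rfl | rfl | rfl | rfl | h5
    · left
      omega
    · right; left
      omega
    · right; right; left
      refine ⟨rfl, by omega, fun h6 => by omega⟩
    · right; right; right; left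
      refine ⟨rfl, by omega, by omega⟩
    · right; right; right; right; left
      omega
    · right; right; right; right; right
      refine ⟨h5, by omega, fun h6 => by omega, fun h6 => by omega⟩

/-- the bounds for the demand of a private class with at least two leaves and no inside triple;
`W` is the loss of its inside points. -/
structure PrbC (h g W D : ℤ) : Prop where
  g3 : 3 ≤ g
  W0 : 0 ≤ W
  c1 : D ≤ 180 + W
  c2 : D ≤ 165 + 3 * g - 2 * W
  c3 : D ≤ 18 * h + 6 * g - 30 - 5 * W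
  c4 : D ≤ 18 * h - 9 * g + 45 + 10 * W

theorem PrvC.prbC {p r M N h f e g W D : ℤ} (q : PrvC p r M N h f e g W D) :
    PrbC h g W D := by
  obtain ⟨h1, h2, h3, h4, h5, h6⟩ := q.prb
  exact ⟨h1, h2, h3, h4, h5, h6⟩

/-- a private class with at least two leaves. -/
theorem PrbC.pf {k : ℕ} {h y go a fr W D d : ℤ} (p : PrbC h (y + go) W D)
    (y0 : 0 ≤ y) (go0 : 0 ≤ go) (a0 : 0 ≤ a) (fr0 : 0 ≤ fr) (le5 : a + fr ≤ 5 + W)
    (full : a + fr = 5 + W ∨ (y ≤ a ∧ go ≤ fr)) (hk1 : k = 1 → 2 ≤ go)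
    (hk2 : k = 2 → 1 ≤ go ∨ 6 ≤ y) (hk0 : 1 ≤ k) (hd : d = 70 + 22 * a + 36 * fr - D) :
    Pf k h y a d := by
  obtain ⟨g3, W0, c1, c2, c3, c4⟩ := p
  refine ⟨by omega, by omega, fun _ => by omega, fun h1 => ?_, fun h1 => ?_, fun h2 => ?_,
    fun h2 => ?_⟩
  · have hg : 1 ≤ go ∨ 6 ≤ y := by
      rcases Nat.lt_or_ge k 2 with hk | hk
      · have := hk1 (by omega)
        exact Or.inl (by omega)
      · exact hk2 (by omega)
    clear hk1 hk2
    refine ⟨by omega, fun _ => by omega, fun _ => by omega, fun _ => by omega⟩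
  · have h2 := hk1 h1
    clear hk1 hk2
    have : a = 0 ∨ a = 1 ∨ a = 2 ∨ a = 3 ∨ a = 4 ∨ 5 ≤ a := by omega
    rcases this with rfl | rfl | rfl | rfl | rfl | h5
    · left
      omega
    · right; left
      omega
    · right; right; left
      omega
    · right; right; right; left
      omega
    · right; right; right; right; left
      omega
    · right; right; right; right; right
      omega
  · have h3 := hk2 h2
    clear hk1 hk2
    omega
  · have h3 := hk2 h2
    clear hk1 hk2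
    have : a = 0 ∨ a = 1 ∨ a = 2 ∨ a = 3 ∨ a = 4 ∨ 5 ≤ a := by omega
    rcases this with rfl | rfl | rfl | rfl | rfl | h5
    · left
      omega
    · right; left
      omega
    · right; right; left
      refine ⟨rfl, by omega, fun h6 => by omega⟩
    · right; right; right; left
      refine ⟨rfl, by omega, by omega⟩
    · right; right; right; right; left
      omega
    · right; right; right; right; right
      refine ⟨h5, by omega, fun h6 => by omega, fun h6 => by omega⟩

/-- what is used of the claims at the other classes. -/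
structure Sf (h y a : ℕ) (c : ℤ) : Prop where
  cA : h ≤ 5 → clA a ≤ c
  cB : clB a ≤ c
  cF : a < y → clF a ≤ c

theorem clA_l19 (a : ℕ) : 19 * (a : ℤ) - 32 ≤ clA a := by
  unfold clA
  split_ifs <;> omega

theorem clA_l15 (a : ℕ) : 15 * (a : ℤ) - 24 ≤ clA a := by
  unfold clA
  split_ifs <;> omega

theorem clA_l10 (a : ℕ) : 10 * (a : ℤ) - 14 ≤ clA a := by
  unfold clA
  split_ifs <;> omega

theorem clA_l5 (a : ℕ) : 5 * (a : ℤ) - 5 ≤ clA a := by
  unfold clA
  split_ifs <;> omega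

theorem clA_l20 (a : ℕ) : 20 * (a : ℤ) - 34 ≤ clA a := by
  unfold clA
  split_ifs <;> omega

theorem clA_l6 (a : ℕ) : 6 * (a : ℤ) - 6 ≤ clA a := by
  unfold clA
  split_ifs <;> omega

theorem clB_l14 (a : ℕ) : 14 * (a : ℤ) - 25 ≤ clB a := by
  unfold clB
  split_ifs <;> omega

theorem clB_l15 (a : ℕ) : 15 * (a : ℤ) - 27 ≤ clB a := by
  unfold clB
  split_ifs <;> omega

/-- the data of the triple of a fat line. -/
structure Shf {γ : Type*} [DecidableEq γ] (l S : Finset γ) (k : ℕ) (a y h : γ → ℕ) (w : ℤ)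
    (d c : γ → ℤ) : Prop where
  k1 : 1 ≤ k
  card : l.card = k + 2
  sub : S ⊆ l
  w0 : 0 ≤ w
  sa : ∑ C ∈ l, (a C : ℤ) = 5 * k - w
  sy : ∑ C ∈ l, (y C : ℤ) = 5 * k - w
  sh : ∑ C ∈ l, h C ≤ 12
  seen : 3 ≤ (l.filter (fun C => 1 ≤ h C)).card
  one : ∀ C ∈ S, 1 ≤ h C
  pr : ∀ C ∈ S, Pf k (h C) (y C) (a C) (d C)
  shr : ∀ C ∈ l \ S, Sf (h C) (y C) (a C) (c C)

namespace Shf

variable {γ : Type*} [DecidableEq γ] {l S : Finset γ} {k : ℕ} {a y h : γ → ℕ} {w : ℤ}
  {d c : γ → ℤ}

theorem split (p : Shf l S k a y h w d c) (f : γ → ℤ) :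
    ∑ C ∈ l, f C = ∑ C ∈ S, f C + ∑ C ∈ l \ S, f C := by
  rw [← sum_sdiff p.sub]
  ring

theorem c0 (p : Shf l S k a y h w d c) : ∀ C ∈ l \ S, 0 ≤ c C := fun C hC =>
  (clB_nonneg _).trans (p.shr C hC).cB

theorem lin (p : Shf l S k a y h w d c) {α β σ τ : ℤ} (hd : ∀ C ∈ S, α * (a C) - β -
    σ * (h C) ≤ d C) (hc : ∀ C ∈ l \ S, α * (a C) - τ ≤ c C) :
    α * (5 * k - w) - β * S.card - σ * (∑ C ∈ S, (h C : ℤ)) - τ * (k + 2 - S.card) ≤
      ∑ C ∈ S, d C + ∑ C ∈ l \ S, c C := by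
  have h1 := sum_le_sum hd
  have h2 := sum_le_sum hc
  rw [sum_sub_distrib, sum_sub_distrib, ← mul_sum, ← mul_sum, sum_const, nsmul_eq_mul] at h1
  rw [sum_sub_distrib, ← mul_sum, sum_const, nsmul_eq_mul] at h2
  have h3 := p.split (fun C => (a C : ℤ))
  have h4 := p.sa
  have h5 : ((l \ S).card : ℤ) = k + 2 - S.card := by
    have h6 := card_sdiff_add_card_eq_card p.sub
    have h7 := p.card
    omega
  rw [h5] at h2
  have h8 : α * (5 * k - w) = α * ∑ C ∈ S, (a C : ℤ) + α * ∑ C ∈ l \ S, (a C : ℤ) := by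
    rw [← mul_add, ← h3, h4]
  linarith

theorem hS (p : Shf l S k a y h w d c) : ∑ C ∈ S, (h C : ℤ) ≤ 12 := by
  have h1 := sum_le_sum_of_subset (f := h) p.sub
  have h2 := h1.trans p.sh
  exact_mod_cast h2

/-- with an unlisted class which is seen. -/
theorem hS_add (p : Shf l S k a y h w d c) {A : Finset γ} (hA : A ⊆ l) {n : ℕ}
    (hn : A.card ≤ 2) (h1 : n = ∑ C ∈ A, h C) : n + 1 ≤ 12 := by
  have h2 : ∃ C ∈ l.filter (fun C => 1 ≤ h C), C ∉ A := by
    by_contra hcon
    push Not at hcon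
    have h3 : l.filter (fun C => 1 ≤ h C) ⊆ A := fun C hC => hcon C hC
    have h4 := card_le_card h3
    have h5 := p.seen
    omega
  obtain ⟨C, hC, hCA⟩ := h2
  obtain ⟨hCl, hC1⟩ := mem_filter.1 hC
  have h3 : ∑ D ∈ insert C A, h D ≤ ∑ D ∈ l, h D :=
    sum_le_sum_of_subset (insert_subset hCl hA)
  rw [sum_insert hCA] at h3
  have h4 := p.sh
  omega

theorem cs (p : Shf l S k a y h w d c) {α τ : ℤ} (hc : ∀ C ∈ l \ S, α * (a C) - τ ≤ c C) :
    α * (∑ C ∈ l \ S, (a C : ℤ)) - τ * (k + 2 - S.card) ≤ ∑ C ∈ l \ S, c C := by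
  have h2 := sum_le_sum hc
  rw [sum_sub_distrib, ← mul_sum, sum_const, nsmul_eq_mul] at h2
  have h5 : ((l \ S).card : ℤ) = k + 2 - S.card := by
    have h6 := card_sdiff_add_card_eq_card p.sub
    have h7 := p.card
    omega
  rw [h5] at h2
  linarith

/-- the case that a class with at least six hits is not private. -/
theorem mainB (p : Shf l S k a y h w d c) {C0 : γ} (hC0 : C0 ∈ l \ S) (h6 : 6 ≤ h C0) :
    -1 ≤ ∑ C ∈ S, d C + ∑ C ∈ l \ S, c C + 21 * w := by
  have hw := p.w0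
  have hk := p.k1
  obtain ⟨hCl, hCS⟩ := mem_sdiff.1 hC0
  have hc0 := sum_nonneg p.c0
  have hcard := p.card
  have hSl := card_le_card (insert_subset hCl p.sub)
  rw [card_insert_of_notMem hCS] at hSl
  have hs6 : ∑ C ∈ S, (h C : ℤ) ≤ 6 := by
    have h1 : ∑ D ∈ insert C0 S, h D ≤ ∑ D ∈ l, h D :=
      sum_le_sum_of_subset (insert_subset hCl p.sub)
    rw [sum_insert hCS] at h1
    have h2 := p.sh
    have h3 : ∑ D ∈ S, h D ≤ 6 := by omega
    exact_mod_cast h3
  have h15 := p.lin (α := 15) (β := -13) (σ := 18) (τ := 27)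
    (fun C hC => by
      have := (p.pr C hC).f15
      linarith) (fun C hC => (clB_l15 _).trans (p.shr C hC).cB)
  rcases Nat.lt_or_ge S.card 2 with hS2 | hS2
  · rcases Nat.lt_or_ge S.card 1 with hS1 | hS1
    · have h1 : S = ∅ := card_eq_zero.1 (by omega)
      rw [h1, sum_empty]
      rw [h1] at hc0
      linarith
    · obtain ⟨P, hP⟩ := card_eq_one.1 (show S.card = 1 by omega)
      have hPC : P ≠ C0 := by
        rintro rfl
        exact hCS (hP ▸ mem_singleton_self P)
      have hPS : P ∈ S := hP ▸ mem_singleton_self P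
      have h5 := p.hS_add (A := {P, C0}) (n := h P + h C0)
        (by
          intro z hz
          rw [mem_insert, mem_singleton] at hz
          rcases hz with rfl | rfl
          · exact p.sub hPS
          · exact hCl) (by rw [card_pair hPC]) (by rw [sum_pair hPC])
      have hpr := p.pr P hPS
      have hP5 : (h P : ℤ) ≤ 5 := by
        have : h P ≤ 5 := by omega
        exact_mod_cast this
      rcases Nat.lt_or_ge k 3 with hk3 | hk3
      · have hd : 0 ≤ d P := (hpr.lo (by omega)).2.2.1 hP5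
        rw [hP, sum_singleton, ← hP]
        linarith
      · have h14 := p.lin (α := 14) (β := 70) (σ := 0) (τ := 25)
          (fun C hC => by
            rw [hP, mem_singleton] at hC
            rw [hC]
            have := hpr.f14 hP5
            linarith) (fun C hC => (clB_l14 _).trans (p.shr C hC).cB)
        rw [show (S.card : ℤ) = 1 by exact_mod_cast (by omega : S.card = 1)] at h14
        have hk3' : (3 : ℤ) ≤ k := by exact_mod_cast hk3
        linarith
  · rcases Nat.lt_or_ge k 2 with hk2 | hk2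
    · have h1 : 0 ≤ ∑ C ∈ S, d C := by
        refine sum_nonneg fun C hC => ((p.pr C hC).lo (by omega)).2.2.1 ?_
        obtain ⟨X, hX⟩ : (S.erase C).Nonempty := by
          rw [← card_pos, card_erase_of_mem hC]
          omega
        obtain ⟨hXC, hXS⟩ := mem_erase.1 hX
        have h2 : ∑ D ∈ ({C, X} : Finset γ), (h D : ℤ) ≤ ∑ D ∈ S, (h D : ℤ) :=
          sum_le_sum_of_subset_of_nonneg (by
            intro z hz
            rw [mem_insert, mem_singleton] at hz
            rcases hz with rfl | rfl <;> assumption) (fun _ _ _ => by positivity)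
        rw [sum_pair hXC.symm] at h2
        have h3 : (1 : ℤ) ≤ h X := by exact_mod_cast p.one X hXS
        linarith
      linarith
    · have h2 : (2 : ℤ) ≤ S.card := by exact_mod_cast hS2
      have h3 : (2 : ℤ) ≤ k := by exact_mod_cast hk2
      linarith

/-- at most two own points, at least three private classes. -/
theorem main3 (p : Shf l S k a y h w d c) (hk : k ≤ 2) (hS : 3 ≤ S.card) :
    0 ≤ ∑ C ∈ S, d C := by
  have h12 := p.hS
  by_cases hall : ∀ C ∈ S, (h C : ℤ) ≤ 5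
  · exact sum_nonneg fun C hC => ((p.pr C hC).lo hk).2.2.1 (hall C hC)
  push Not at hall
  obtain ⟨P, hP, hP6⟩ := hall
  obtain ⟨X, hX, Y, hY, hXY⟩ := one_lt_card.1 (show 1 < (S.erase P).card by
    rw [card_erase_of_mem hP]
    omega)
  obtain ⟨hXP, hXS⟩ := mem_erase.1 hX
  obtain ⟨hYP, hYS⟩ := mem_erase.1 hY
  have hY' : Y ∈ (S.erase P).erase X := mem_erase.2 ⟨hXY.symm, hY⟩
  have e1 : ∀ f : γ → ℤ, ∑ C ∈ S, f C = f P + (f X + (f Y +
      ∑ C ∈ ((S.erase P).erase X).erase Y, f C)) := by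
    intro f
    rw [add_sum_erase _ f hY', add_sum_erase _ f hX, add_sum_erase _ f hP]
  have hrest : 0 ≤ ∑ C ∈ ((S.erase P).erase X).erase Y, (h C : ℤ) :=
    sum_nonneg fun _ _ => by positivity
  have h1 := e1 (fun C => (h C : ℤ))
  have hX1 : (1 : ℤ) ≤ h X := by exact_mod_cast p.one X hXS
  have hY1 : (1 : ℤ) ≤ h Y := by exact_mod_cast p.one Y hYS
  have hrd : 0 ≤ ∑ C ∈ ((S.erase P).erase X).erase Y, d C := by
    refine sum_nonneg fun C hC => ?_
    obtain ⟨hCY, hC2⟩ := mem_erase.1 hC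
    obtain ⟨hCX, hC3⟩ := mem_erase.1 hC2
    obtain ⟨hCP, hCS⟩ := mem_erase.1 hC3
    refine ((p.pr C hCS).lo hk).2.2.1 ?_
    have h3 : (h C : ℤ) ≤ ∑ C ∈ ((S.erase P).erase X).erase Y, (h C : ℤ) :=
      single_le_sum (f := fun C => (h C : ℤ)) (fun _ _ => by positivity) hC
    linarith
  have hdP := (p.pr P hP).lo hk
  have hdX := (p.pr X hXS).lo hk
  have hdY := (p.pr Y hYS).lo hk
  rw [e1 d]
  have h3 : (h P : ℤ) + h X + h Y ≤ 12 := by linarith
  generalize ∑ C ∈ ((S.erase P).erase X).erase Y, d C = r at *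
  clear h1 e1 h12 hrest
  omega

/-- two own points, two private classes. -/
theorem main22 (p : Shf l S k a y h w d c) (hA : ∀ C ∈ l \ S, h C ≤ 5) (hk : k = 2)
    (hS : S.card = 2) : -1 ≤ ∑ C ∈ S, d C + ∑ C ∈ l \ S, c C + 21 * w := by
  have hw := p.w0
  have hc0 := sum_nonneg p.c0
  obtain ⟨P, R, hPR, hS'⟩ := card_eq_two.1 hS
  have hPS : P ∈ S := by
    rw [hS']
    exact mem_insert_self _ _
  have hRS : R ∈ S := by
    rw [hS']
    exact mem_insert_of_mem (mem_singleton_self _)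
  have hsa : (a P : ℤ) + a R + ∑ C ∈ l \ S, (a C : ℤ) = 10 - w := by
    have h1 := p.split (fun C => (a C : ℤ))
    rw [p.sa, show ∑ C ∈ S, (a C : ℤ) = a P + a R by rw [hS', sum_pair hPR], hk] at h1
    push_cast at h1
    linarith
  have hsy : (y P : ℤ) + y R + ∑ C ∈ l \ S, (y C : ℤ) = 10 - w := by
    have h1 := p.split (fun C => (y C : ℤ))
    rw [p.sy, show ∑ C ∈ S, (y C : ℤ) = y P + y R by rw [hS', sum_pair hPR], hk] at h1
    push_cast at h1
    linarith
  have hsd : ∑ C ∈ S, d C = d P + d R := by rw [hS', sum_pair hPR]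
  have h11 := p.hS_add (A := S) (n := h P + h R) p.sub hS.le (by rw [hS', sum_pair hPR])
  have h11' : (h P : ℤ) + h R ≤ 11 := by
    have : h P + h R ≤ 11 := by omega
    exact_mod_cast this
  have hP1 : (1 : ℤ) ≤ h P := by exact_mod_cast p.one P hPS
  have hR1 : (1 : ℤ) ≤ h R := by exact_mod_cast p.one R hRS
  have hx6 := p.cs (α := 6) (τ := 6) (fun C hC => (clA_l6 _).trans ((p.shr C hC).cA (hA C hC)))
  have hx20 := p.cs (α := 20) (τ := 34)
    (fun C hC => (clA_l20 _).trans ((p.shr C hC).cA (hA C hC)))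
  rw [hS, hk] at hx6 hx20
  push_cast at hx6 hx20
  have hex : ∑ C ∈ l \ S, (a C : ℤ) = 2 → 3 ≤ ∑ C ∈ l \ S, (y C : ℤ) →
      6 ≤ ∑ C ∈ l \ S, c C := by
    intro ha2 hy3
    have hc2 : (l \ S).card = 2 := by
      have h6 := card_sdiff_add_card_eq_card p.sub
      have h7 := p.card
      omega
    obtain ⟨X, Y, hXY, hl⟩ := card_eq_two.1 hc2
    have hX : X ∈ l \ S := by
      rw [hl]
      exact mem_insert_self _ _
    have hY : Y ∈ l \ S := by
      rw [hl]
      exact mem_insert_of_mem (mem_singleton_self _)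
    rw [hl, sum_pair hXY] at ha2 hy3 ⊢
    have hcX := p.c0 X hX
    have hcY := p.c0 Y hY
    have hAX := (p.shr X hX).cA (hA X hX)
    have hAY := (p.shr Y hY).cA (hA Y hY)
    have h2X := (clA_l6 (a X)).trans hAX
    have h2Y := (clA_l6 (a Y)).trans hAY
    have hFX := (p.shr X hX).cF
    have hFY := (p.shr Y hY).cF
    by_cases hX2 : 2 ≤ a X
    · have : (2 : ℤ) ≤ a X := by exact_mod_cast hX2
      linarith
    by_cases hY2 : 2 ≤ a Y
    · have : (2 : ℤ) ≤ a Y := by exact_mod_cast hY2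
      linarith
    have haX : a X = 1 := by omega
    have haY : a Y = 1 := by omega
    have hF1 : clF 1 = 14 := by
      unfold clF
      norm_num
    rw [haX, hF1] at hFX
    rw [haY, hF1] at hFY
    rcases Nat.lt_or_ge 1 (y X) with h5 | h5
    · have := hFX h5
      linarith
    · have h6 : 1 < y Y := by omega
      have := hFY h6
      linarith
  rw [hsd]
  have hP := (p.pr P hPS).k2t hk
  have hR := (p.pr R hRS).k2t hk
  generalize ∑ C ∈ l \ S, (a C : ℤ) = na at *
  generalize ∑ C ∈ l \ S, (y C : ℤ) = ny at *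
  generalize ∑ C ∈ l \ S, c C = nc at *
  generalize (a P : ℤ) = aP at *
  generalize (a R : ℤ) = aR at *
  generalize (y P : ℤ) = yP at *
  generalize (y R : ℤ) = yR at *
  generalize (h P : ℤ) = hP' at *
  generalize (h R : ℤ) = hR' at *
  clear hA hS hS' hPS hRS hsd h11
  rcases hP with h1 | h1 | h1 | h1 | h1 | h1 <;> rcases hR with h2 | h2 | h2 | h2 | h2 | h2 <;>
    omega

/-- one own point, one or two private classes. -/
theorem main1 (p : Shf l S k a y h w d c) (hA : ∀ C ∈ l \ S, h C ≤ 5) (hk : k = 1)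
    (hS : S.card ≤ 2) : -1 ≤ ∑ C ∈ S, d C + ∑ C ∈ l \ S, c C + 21 * w := by
  have hw := p.w0
  have hc0 := sum_nonneg p.c0
  have hx6 := p.cs (α := 6) (τ := 6) (fun C hC => (clA_l6 _).trans ((p.shr C hC).cA (hA C hC)))
  have hx20 := p.cs (α := 20) (τ := 34)
    (fun C hC => (clA_l20 _).trans ((p.shr C hC).cA (hA C hC)))
  have hna : (0 : ℤ) ≤ ∑ C ∈ l \ S, (a C : ℤ) := sum_nonneg fun C _ => by positivity
  have hsa := p.split (fun C => (a C : ℤ))
  rw [p.sa] at hsa
  rcases Nat.lt_or_ge S.card 2 with hS2 | hS2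
  · rcases Nat.lt_or_ge S.card 1 with hS1 | hS1
    · have h1 : S = ∅ := card_eq_zero.1 (by omega)
      rw [h1, sum_empty]
      rw [h1] at hc0
      linarith
    · obtain ⟨P, hP⟩ := card_eq_one.1 (show S.card = 1 by omega)
      have hPS : P ∈ S := hP ▸ mem_singleton_self P
      have hpt := (p.pr P hPS).k1t hk
      rw [show S.card = 1 by omega, hk] at hx6 hx20
      rw [hk, show ∑ C ∈ S, (a C : ℤ) = a P by rw [hP, sum_singleton]] at hsa
      rw [show ∑ C ∈ S, d C = d P by rw [hP, sum_singleton]]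
      push_cast at hx6 hx20 hsa
      have hP0 : (0 : ℤ) ≤ a P := by positivity
      generalize ∑ C ∈ l \ S, (a C : ℤ) = na at *
      generalize ∑ C ∈ l \ S, c C = nc at *
      generalize (a P : ℤ) = aP at *
      clear hA hP hPS
      rcases hpt with h1 | h1 | h1 | h1 | h1 | h1 <;> omega
  · obtain ⟨P, R, hPR, hS'⟩ := card_eq_two.1 (show S.card = 2 by omega)
    have hPS : P ∈ S := by
      rw [hS']
      exact mem_insert_self _ _
    have hRS : R ∈ S := by
      rw [hS']
      exact mem_insert_of_mem (mem_singleton_self _)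
    have hpt := (p.pr P hPS).k1t hk
    have hrt := (p.pr R hRS).k1t hk
    rw [show S.card = 2 by omega, hk] at hx6 hx20
    rw [hk, show ∑ C ∈ S, (a C : ℤ) = a P + a R by rw [hS', sum_pair hPR]] at hsa
    rw [show ∑ C ∈ S, d C = d P + d R by rw [hS', sum_pair hPR]]
    push_cast at hx6 hx20 hsa
    have hP0 : (0 : ℤ) ≤ a P := by positivity
    have hR0 : (0 : ℤ) ≤ a R := by positivity
    generalize ∑ C ∈ l \ S, (a C : ℤ) = na at *
    generalize ∑ C ∈ l \ S, c C = nc at *
    generalize (a P : ℤ) = aP at *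
    generalize (a R : ℤ) = aR at *
    clear hA hS' hPS hRS
    rcases hpt with h1 | h1 | h1 | h1 | h1 | h1 <;> rcases hrt with h2 | h2 | h2 | h2 | h2 | h2 <;>
      omega

/-- **the shift lemma**. -/
theorem main (p : Shf l S k a y h w d c) :
    -1 ≤ ∑ C ∈ S, d C + ∑ C ∈ l \ S, c C + 21 * w := by
  by_cases hB : ∃ C ∈ l \ S, 6 ≤ h C
  · obtain ⟨C0, hC0, h6⟩ := hB
    exact p.mainB hC0 h6
  push Not at hB
  have hA : ∀ C ∈ l \ S, h C ≤ 5 := fun C hC => by
    have := hB C hC
    omega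
  have hcA : ∀ C ∈ l \ S, clA (a C) ≤ c C := fun C hC => (p.shr C hC).cA (hA C hC)
  have hw := p.w0
  have hk := p.k1
  have hhS := p.hS
  have hc0 := sum_nonneg p.c0
  have hcard := p.card
  have hSc := card_le_card p.sub
  rcases Nat.lt_or_ge k 3 with hk3 | hk3
  · rcases Nat.lt_or_ge k 2 with hk2 | hk2
    · -- one own point
      have hk1 : k = 1 := by omega
      rcases Nat.lt_or_ge S.card 3 with hS3 | hS3
      · exact p.main1 hA hk1 (by omega)
      · have h1 := p.main3 (by omega) hS3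
        linarith
    · have hk' : k = 2 := by omega
      rcases Nat.lt_or_ge S.card 2 with hS2 | hS2
      · rcases Nat.lt_or_ge S.card 1 with hS1 | hS1
        · have h1 : S = ∅ := card_eq_zero.1 (by omega)
          rw [h1, sum_empty]
          rw [h1] at hc0
          linarith
        · have h1 := p.lin (α := 10) (β := 50) (σ := 0) (τ := 14)
            (fun C hC => by
              have := (p.pr C hC).k2b hk'
              linarith) (fun C hC => (clA_l10 _).trans (hcA C hC))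
          rw [show S.card = 1 by omega, hk'] at h1
          push_cast at h1
          linarith
      · rcases Nat.lt_or_ge S.card 3 with hS3 | hS3
        · exact p.main22 hA hk' (by omega)
        · have h1 := p.main3 (by omega) hS3
          linarith
  · have hk3' : (3 : ℤ) ≤ k := by exact_mod_cast hk3
    rcases Nat.lt_or_ge S.card 3 with hS3 | hS3
    · have h1 := p.lin (α := 19) (β := 95) (σ := 0) (τ := 32)
        (fun C hC => by
          have := (p.pr C hC).f19
          linarith) (fun C hC => (clA_l19 _).trans (hcA C hC))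
      have h2 : (S.card : ℤ) ≤ 2 := by
        have : S.card ≤ 2 := by omega
        exact_mod_cast this
      linarith
    · have h1 := p.lin (α := 15) (β := -13) (σ := 18) (τ := 24)
        (fun C hC => by
          have := (p.pr C hC).f15
          linarith) (fun C hC => (clA_l15 _).trans (hcA C hC))
      have h2 : (3 : ℤ) ≤ S.card := by exact_mod_cast hS3
      linarith

end Shf

end Pool.Agent.Hyp6.Rt
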