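import Pool.Agent.Hyp6.L3S2

/-!
# HYP6 L3S3: private classes with crossing contact points

`Frm.sep1_cross`: the separation lemma for two contact points which see other leaves too.
`Frm.priv_cross`: a private set of leaves has at least `|A| + 2` contact points or exactly two outer
contact points with three hits each.
-/

set_option autoImplicit false

namespace Pool.Agent.Hyp6

open Finset Pool.Agent.Hyp5

universe u v

variable {V : Type v} [DecidableEq V] {ι : Type u} [Fintype ι] {B : ι → Finset V}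

/-- the incidences of two points. -/
theorem dA_sum {X W : Finset V} {p q : V} (hpX : p ∈ X) (hqX : q ∈ X) (hpq : p ≠ q) :
    (univ.filter (fun i => p ∈ B i ∧ ¬ (B i ∩ W).Nonempty)).card +
      (univ.filter (fun i => q ∈ B i ∧ ¬ (B i ∩ W).Nonempty)).card ≤
      ∑ i ∈ dA B X W, (B i ∩ X).card := by
  classical
  set D := dA B X W with hD
  set Dp := univ.filter (fun i => p ∈ B i ∧ ¬ (B i ∩ W).Nonempty) with hDp
  set Dq := univ.filter (fun i => q ∈ B i ∧ ¬ (B i ∩ W).Nonempty) with hDq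
  have hDpD : Dp ⊆ D := by
    intro i hi
    obtain ⟨_, h3, h4⟩ := mem_filter.1 hi
    exact mem_dA.2 ⟨⟨p, mem_inter.2 ⟨h3, hpX⟩⟩, h4⟩
  have hDqD : Dq ⊆ D := by
    intro i hi
    obtain ⟨_, h3, h4⟩ := mem_filter.1 hi
    exact mem_dA.2 ⟨⟨q, mem_inter.2 ⟨h3, hqX⟩⟩, h4⟩
  have e1 : Dp.card = ∑ i ∈ D, if p ∈ B i then 1 else 0 := by
    rw [← card_filter]
    refine congrArg card (subset_antisymm (fun i hi => ?_) (fun i hi => ?_))
    · exact mem_filter.2 ⟨hDpD hi, (mem_filter.1 hi).2.1⟩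
    · obtain ⟨h3, h4⟩ := mem_filter.1 hi
      exact mem_filter.2 ⟨mem_univ _, h4, (mem_dA.1 h3).2⟩
  have e2 : Dq.card = ∑ i ∈ D, if q ∈ B i then 1 else 0 := by
    rw [← card_filter]
    refine congrArg card (subset_antisymm (fun i hi => ?_) (fun i hi => ?_))
    · exact mem_filter.2 ⟨hDqD hi, (mem_filter.1 hi).2.1⟩
    · obtain ⟨h3, h4⟩ := mem_filter.1 hi
      exact mem_filter.2 ⟨mem_univ _, h4, (mem_dA.1 h3).2⟩
  rw [e1, e2, ← sum_add_distrib]
  refine sum_le_sum fun i _ => ?_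
  have h3 : (B i ∩ ({p, q} : Finset V)).card ≤ (B i ∩ X).card :=
    card_le_card (inter_subset_inter_left
      (insert_subset hpX (singleton_subset_iff.2 hqX)))
  refine le_trans ?_ h3
  by_cases hp1 : p ∈ B i
  · by_cases hq1 : q ∈ B i
    · rw [if_pos hp1, if_pos hq1, inter_eq_right.2
        (insert_subset hp1 (singleton_subset_iff.2 hq1)), card_pair hpq]
    · rw [if_pos hp1, if_neg hq1]
      exact card_pos.2 ⟨p, mem_inter.2 ⟨hp1, mem_insert_self _ _⟩⟩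
  · by_cases hq1 : q ∈ B i
    · rw [if_neg hp1, if_pos hq1]
      exact card_pos.2 ⟨q, mem_inter.2 ⟨hq1, mem_insert_of_mem (mem_singleton_self q)⟩⟩
    · rw [if_neg hp1, if_neg hq1]
      exact Nat.zero_le _

section

variable {Q U : Finset V} {T : Finset ι} {F : Finset (Finset V)}

/-- the blocks of the point `p` at the leaves of `A`. -/
noncomputable def bla (B : ι → Finset V) (A : Finset (Finset V)) (p : V) : Finset ι :=
  univ.filter (fun i => p ∈ B i ∧ (B i ∩ A.biUnion id).Nonempty)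

theorem mem_bla {A : Finset (Finset V)} {p : V} {i : ι} :
    i ∈ bla B A p ↔ p ∈ B i ∧ ∃ L ∈ A, ∃ v ∈ L, v ∈ B i := by
  unfold bla
  rw [mem_filter]
  constructor
  · rintro ⟨_, h1, v, hv⟩
    obtain ⟨h2, h3⟩ := mem_inter.1 hv
    obtain ⟨L, hL, hvL⟩ := mem_biUnion.1 h3
    exact ⟨h1, L, hL, v, hvL, h2⟩
  · rintro ⟨h1, L, hL, v, hvL, hvi⟩
    exact ⟨mem_univ _, h1, v, mem_inter.2 ⟨hvi, mem_biUnion.2 ⟨L, hL, hvL⟩⟩⟩

namespace Frm

/-- the hits of a point on a set of leaves are different blocks. -/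
theorem hit_sum (h : Frm B Q T U F) {A : Finset (Finset V)} (hA : A ⊆ F) (p : V) :
    ∑ L ∈ A, hit B {p} L = (bla B A p).card := by
  classical
  have h1 : bla B A p = A.biUnion (fun L => univ.filter (fun i => p ∈ B i ∧
      (B i ∩ L).Nonempty)) := by
    ext i
    rw [mem_bla, mem_biUnion]
    constructor
    · rintro ⟨h1, L, hL, v, hvL, hvi⟩
      exact ⟨L, hL, mem_filter.2 ⟨mem_univ _, h1, v, mem_inter.2 ⟨hvi, hvL⟩⟩⟩
    · rintro ⟨L, hL, h1⟩
      obtain ⟨_, h2, v, hv⟩ := mem_filter.1 h1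
      obtain ⟨h3, h4⟩ := mem_inter.1 hv
      exact ⟨h2, L, hL, v, h4, h3⟩
  rw [h1, card_biUnion]
  · refine sum_congr rfl fun L _ => ?_
    rw [hit_eq, sum_singleton]
  · intro L hL L' hL' hne
    rw [Function.onFun, disjoint_left]
    intro i hi hi'
    exact (h.sepF L (hA hL) L' (hA hL') hne).2 i (mem_filter.1 hi).2.2 (mem_filter.1 hi').2.2

/-- a block at a leaf contains at most one point of `U`. -/
theorem one_U (h : Frm B Q T U F) {p q : V} (hp : p ∈ U) (hq : q ∈ U) (hpq : p ≠ q) {i : ι}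
    (hpi : p ∈ B i) {L : Finset V} (hL : L ∈ F) {v : V} (hvL : v ∈ L) (hvi : v ∈ B i) :
    q ∉ B i := by
  intro hqi
  have h1 := h.two_leaf hL hvi hvL
  have hvp : v ≠ p := by
    rintro rfl
    exact disjoint_left.1 (h.ge.FU L hL) hvL hp
  have hvq : v ≠ q := by
    rintro rfl
    exact disjoint_left.1 (h.ge.FU L hL) hvL hq
  have h2 : ({v, p, q} : Finset V) ⊆ B i ∩ Dp B Q T := by
    intro x hx
    simp only [mem_insert, mem_singleton] at hx
    rcases hx with rfl | rfl | rfl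
    · exact mem_inter.2 ⟨hvi, h.FD hL hvL⟩
    · exact mem_inter.2 ⟨hpi, h.UD hp⟩
    · exact mem_inter.2 ⟨hqi, h.UD hq⟩
  have h3 := card_le_card h2
  have h4 : ({v, p, q} : Finset V).card = 3 := card_eq_three.2 ⟨v, p, q, hvp, hvq, hpq, rfl⟩
  omega

omit [Fintype ι] in
/-- the rest contains another triple and the other leaves. -/
theorem rst_card (h : Frm B Q T U F) {j0 : ι} (hj0 : j0 ∈ T) (hT2 : ∃ j ∈ T, j ≠ j0)
    {A : Finset (Finset V)} (hA : A ⊆ F) {X : Finset V} (hX : X ⊆ U) :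
    3 + (F \ A).card ≤ (rst B Q j0 X A).card := by
  classical
  obtain ⟨j, hj, hne⟩ := hT2
  have h1 : B j ∩ Q ⊆ rst B Q j0 X A := by
    intro a ha
    have haA : a ∉ A.biUnion id := fun h1 => by
      obtain ⟨L', hL', haL'⟩ := mem_biUnion.1 h1
      exact (h.T_out hj ha).2 L' (hA hL') haL'
    refine mem_sdiff.2 ⟨mem_sdiff.2 ⟨mem_sdiff.2 ⟨(mem_inter.1 ha).2, fun h1 => ?_⟩,
      fun h1 => ?_⟩, haA⟩
    · exact disjoint_left.1 (h.mtp.tpk.pack.disj j hj j0 hj0 hne) ha h1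
    · exact (h.T_out hj ha).1 (hX h1)
  have h2 : (F \ A).biUnion id ⊆ rst B Q j0 X A := by
    intro a ha
    obtain ⟨L, hL, haL⟩ := mem_biUnion.1 ha
    obtain ⟨hLF, hLA⟩ := mem_sdiff.1 hL
    refine mem_sdiff.2 ⟨mem_sdiff.2 ⟨mem_sdiff.2 ⟨h.FQ hLF haL, fun h1 => ?_⟩,
      fun h1 => ?_⟩, fun h1 => ?_⟩
    · exact (h.T_out hj0 h1).2 L hLF haL
    · exact disjoint_left.1 (h.ge.FU L hLF) haL (hX h1)
    · obtain ⟨L', hL', haL'⟩ := mem_biUnion.1 h1
      have hne' : L ≠ L' := fun he => hLA (he ▸ hL')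
      exact disjoint_left.1 (h.sepF L hLF L' (hA hL') hne').1 haL haL'
  have h3 : Disjoint (B j ∩ Q) ((F \ A).biUnion id) := by
    rw [disjoint_left]
    intro a ha h4
    obtain ⟨L, hL, haL⟩ := mem_biUnion.1 h4
    exact (h.T_out hj ha).2 L (mem_sdiff.1 hL).1 haL
  have h4 : (F \ A).card ≤ ((F \ A).biUnion id).card := by
    refine card_le_card_biUnion ?_ ?_
    · intro L hL L' hL' hne'
      exact (h.sepF L (mem_sdiff.1 hL).1 L' (mem_sdiff.1 hL').1 hne').1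
    · intro L hL
      exact (h.ge.sys.fc L (mem_sdiff.1 hL).1).1
  have h5 := card_le_card (union_subset h1 h2)
  rw [card_union_of_disjoint h3, h.mtp.tpk.pack.card j hj] at h5
  omega

/-- **the separation lemma for two crossing points**. -/
theorem sep1_cross (h : Frm B Q T U F) (hr : Reg B Q) (ih : IHE.{u} V Q.card) (hs : 1 ≤ sv B Q)
    {j0 : ι} (hj0 : j0 ∈ T)
    (hcl : ∀ Y ⊆ Q, B j0 ∩ Q ⊆ Y → rho B (Q \ Y) + 1 = rho B Q → Conn (gr B) (Q \ Y))
    (hT2 : ∃ j ∈ T, j ≠ j0) {A : Finset (Finset V)} (hA : A ⊆ F) (hne : A.Nonempty)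
    (hp : ∀ j ∈ T, j ≠ j0 → Disjoint (slj B Q F j) A)
    (hX : (uA B U F A).card ≤ A.card + 1) {p q : V} (hpX : p ∈ uA B U F A)
    (hqX : q ∈ uA B U F A) (hpq : p ≠ q)
    (hcp : 2 ≤ ∑ L ∈ F \ A, hit B {p} L) (hcq : 2 ≤ ∑ L ∈ F \ A, hit B {q} L)
    (h2 : ∑ L ∈ A, hit B {p} L ≤ 2)
    (h3 : ∑ L ∈ A, hit B {p} L + ∑ L ∈ A, hit B {q} L ≤ 4 ∨ 3 ≤ (F \ A).card) :
    ∑ L ∈ A, dv B Q L + 5 * (A.card : ℤ) - 6 ≤ dv B Q Q := by
  classical
  have hXU : uA B U F A ⊆ U := filter_subset _ _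
  have hUQ : U ⊆ Q := h.UD.trans DQ
  have hrst := h.rst_card hj0 hT2 hA hXU
  set X := uA B U F A with hXdef
  set W := A.biUnion id with hW
  set D := dA B X W with hD
  set Dp := univ.filter (fun i => p ∈ B i ∧ ¬ (B i ∩ W).Nonempty) with hDp
  set Dq := univ.filter (fun i => q ∈ B i ∧ ¬ (B i ∩ W).Nonempty) with hDq
  have hcp' := dp_card (A := A) hr (hUQ (hXU hpX))
  have hcq' := dp_card (A := A) hr (hUQ (hXU hqX))
  rw [← hW, ← hDp] at hcp'
  rw [← hW, ← hDq] at hcq'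
  have hDpD : Dp ⊆ D := by
    intro i hi
    obtain ⟨_, h3, h4⟩ := mem_filter.1 hi
    exact mem_dA.2 ⟨⟨p, mem_inter.2 ⟨h3, hpX⟩⟩, h4⟩
  have hDqD : Dq ⊆ D := by
    intro i hi
    obtain ⟨_, h3, h4⟩ := mem_filter.1 hi
    exact mem_dA.2 ⟨⟨q, mem_inter.2 ⟨h3, hqX⟩⟩, h4⟩
  rw [h.hit_sum sdiff_subset] at hcp hcq
  -- the blocks of `p`, `q` at the other leaves
  have hmiss : ∀ i, (∃ L ∈ F \ A, ∃ v ∈ L, v ∈ B i) → ¬ (B i ∩ W).Nonempty := by
    rintro i ⟨L, hL, v, hvL, hvi⟩ ⟨w, hw⟩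
    obtain ⟨hwi, hwW⟩ := mem_inter.1 hw
    obtain ⟨L', hL', hwL'⟩ := mem_biUnion.1 hwW
    obtain ⟨hLF, hLA⟩ := mem_sdiff.1 hL
    have hne' : L ≠ L' := fun he => hLA (he ▸ hL')
    exact (h.sepF L hLF L' (hA hL') hne').2 i ⟨v, mem_inter.2 ⟨hvi, hvL⟩⟩
      ⟨w, mem_inter.2 ⟨hwi, hwL'⟩⟩
  have hLp : bla B (F \ A) p ⊆ Dp := by
    intro i hi
    obtain ⟨h4, h5⟩ := mem_bla.1 hi
    exact mem_filter.2 ⟨mem_univ _, h4, hmiss i h5⟩
  have hLq : bla B (F \ A) q ⊆ Dq := by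
    intro i hi
    obtain ⟨h4, h5⟩ := mem_bla.1 hi
    exact mem_filter.2 ⟨mem_univ _, h4, hmiss i h5⟩
  have hdq : Disjoint Dp (bla B (F \ A) q) := by
    rw [disjoint_left]
    intro i h4 h5
    obtain ⟨h6, L, hL, v, hvL, hvi⟩ := mem_bla.1 h5
    exact h.one_U (hXU hqX) (hXU hpX) hpq.symm h6 (mem_sdiff.1 hL).1 hvL hvi
      (mem_filter.1 h4).2.1
  have hsub : Dp.card + (bla B (F \ A) q).card ≤ D.card := by
    rw [← card_union_of_disjoint hdq]
    exact card_le_card (union_subset hDpD (hLq.trans hDqD))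
  have hsum := dA_sum (B := B) (W := W) hpX hqX hpq
  rw [← hDp, ← hDq, ← hD] at hsum
  refine h.sep1_gen hr ih hs hj0 hcl hT2 hA hne hp hX (show 5 ≤ D.card by omega)
    (show 6 ≤ ∑ i ∈ D, (B i ∩ X).card ∨ (rst B Q j0 X A).card ≠ 5 from ?_)
    (show 6 ≤ D.card ∨ ee B Q X ≤ 1 from ?_)
  · rcases h3 with h4 | h4
    · left
      omega
    · right
      omega
  by_cases he : ee B Q X ≤ 1
  · exact Or.inr he
  left
  unfold ee at he
  obtain ⟨x, hx, hxq⟩ : ∃ x ∈ X.filter (fun t => 2 ≤ (univ.filter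
      (fun i => B i ∩ Q = {t})).card), x ≠ q := by
    by_contra hcon
    push Not at hcon
    apply he
    have h4 : X.filter (fun t => 2 ≤ (univ.filter (fun i => B i ∩ Q = {t})).card) ⊆ {q} :=
      fun x hx => mem_singleton.2 (hcon x hx)
    exact (card_le_card h4).trans (card_singleton q).le
  obtain ⟨hxX, hx2⟩ := mem_filter.1 hx
  have hxQ : x ∈ Q := hUQ (hXU hxX)
  have hpQ : p ∈ Q := hUQ (hXU hpX)
  have hqQ : q ∈ Q := hUQ (hXU hqX)
  have hsx : ∀ i ∈ univ.filter (fun i => B i ∩ Q = {x}), x ∈ B i ∧ ∀ v ∈ Q, v ∈ B i → v = x := by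
    intro i hi
    have h4 := (mem_filter.1 hi).2
    have h5 : x ∈ B i ∩ Q := by
      rw [h4]
      exact mem_singleton_self x
    refine ⟨(mem_inter.1 h5).1, fun v hv hvi => ?_⟩
    have h6 : v ∈ B i ∩ Q := mem_inter.2 ⟨hvi, hv⟩
    rw [h4] at h6
    exact mem_singleton.1 h6
  have hS : univ.filter (fun i => B i ∩ Q = {x}) ⊆
      univ.filter (fun i => x ∈ B i ∧ ¬ (B i ∩ W).Nonempty) := by
    intro i hi
    obtain ⟨h4, h5⟩ := hsx i hi
    refine mem_filter.2 ⟨mem_univ _, h4, ?_⟩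
    rintro ⟨w, hw⟩
    obtain ⟨hwi, hwW⟩ := mem_inter.1 hw
    obtain ⟨L, hL, hwL⟩ := mem_biUnion.1 hwW
    have h6 := h5 w (h.FQ (hA hL) hwL) hwi
    rw [h6] at hwL
    exact disjoint_left.1 (h.ge.FU L (hA hL)) hwL (hXU hxX)
  by_cases hxp : x = p
  · subst hxp
    have h4 : Disjoint (bla B (F \ A) x) (univ.filter (fun i => B i ∩ Q = {x})) := by
      rw [disjoint_left]
      intro i h5 h6
      obtain ⟨_, L, hL, v, hvL, hvi⟩ := mem_bla.1 h5
      have h7 := (hsx i h6).2 v (h.FQ (mem_sdiff.1 hL).1 hvL) hvi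
      rw [h7] at hvL
      exact disjoint_left.1 (h.ge.FU L (mem_sdiff.1 hL).1) hvL (hXU hxX)
    have h5 := card_le_card (union_subset hLp hS)
    rw [card_union_of_disjoint h4] at h5
    omega
  · have h4 : Disjoint (Dp ∪ bla B (F \ A) q) (univ.filter (fun i => B i ∩ Q = {x})) := by
      rw [disjoint_left]
      intro i h5 h6
      rcases mem_union.1 h5 with h7 | h7
      · exact hxp ((hsx i h6).2 p hpQ (mem_filter.1 h7).2.1).symm
      · exact hxq ((hsx i h6).2 q hqQ (mem_bla.1 h7).1).symm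
    have h5 : (Dp ∪ bla B (F \ A) q) ∪ univ.filter (fun i => B i ∩ Q = {x}) ⊆ D := by
      refine union_subset (union_subset hDpD (hLq.trans hDqD)) ?_
      intro i hi
      obtain ⟨_, h6, h7⟩ := mem_filter.1 (hS hi)
      exact mem_dA.2 ⟨⟨x, mem_inter.2 ⟨h6, hxX⟩⟩, h7⟩
    have h6 := card_le_card h5
    rw [card_union_of_disjoint h4, card_union_of_disjoint hdq] at h6
    omega

/-- **private sets of leaves with crossing outer contact points**: `O` are the own points. -/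
theorem priv_cross (h : Frm B Q T U F) (hr : Reg B Q) (ih : IHE.{u} V Q.card)
    (hs : 1 ≤ sv B Q) {j0 : ι} (hj0 : j0 ∈ T)
    (hcl : ∀ Y ⊆ Q, B j0 ∩ Q ⊆ Y → rho B (Q \ Y) + 1 = rho B Q → Conn (gr B) (Q \ Y))
    (hT2 : ∃ j ∈ T, j ≠ j0) {A : Finset (Finset V)} (hA : A ⊆ F) (hne : A.Nonempty)
    (hp : ∀ j ∈ T, j ≠ j0 → Disjoint (slj B Q F j) A)
    {O : Finset V} (hO : O.card + 1 ≤ A.card)
    (hcr : ∀ p ∈ uA B U F A \ O, 2 ≤ ∑ L ∈ F \ A, hit B {p} L)
    (h3 : 3 ≤ (F \ A).card) (hv : dv B Q Q ≤ -1) (hL : ∀ L ∈ A, -1 ≤ dv B Q L) :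
    3 ≤ (uA B U F A \ O).card ∨
    (A.card = 1 ∧ ∀ L ∈ A, dv B Q L ≤ 0) ∨
    (∃ p q, uA B U F A \ O = {p, q} ∧ p ≠ q ∧
      ∑ L ∈ A, hit B {p} L = 3 ∧ ∑ L ∈ A, hit B {q} L = 3) := by
  classical
  have h1 := h.priv hj0 hcl hT2 A.card A le_rfl hA hne hp
  by_cases h2 : 3 ≤ (uA B U F A \ O).card
  · exact Or.inl h2
  right
  have hout := le_card_sdiff O (uA B U F A)
  have hX : (uA B U F A).card ≤ A.card + 1 := by
    have h4 : (uA B U F A).card ≤ (uA B U F A \ O).card + O.card :=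
      (card_le_card (by
        intro v hv
        by_cases hvO : v ∈ O
        · exact mem_union_right _ hvO
        · exact mem_union_left _ (mem_sdiff.2 ⟨hv, hvO⟩))).trans (card_union_le _ _)
    omega
  have hXU : uA B U F A ⊆ U := filter_subset _ _
  have hUQ : U ⊆ Q := h.UD.trans DQ
  have hout : 2 ≤ (uA B U F A \ O).card := by omega
  -- at most three hits
  have hle : ∀ p ∈ uA B U F A \ O, ∑ L ∈ A, hit B {p} L ≤ 3 := by
    intro p hpm
    have h4 := hcr p hpm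
    have hpU : p ∈ U := hXU (mem_sdiff.1 hpm).1
    rw [h.hit_sum sdiff_subset] at h4
    rw [h.hit_sum hA]
    have h5 : Disjoint (bla B A p) (bla B (F \ A) p) := by
      rw [disjoint_left]
      intro i h6 h7
      obtain ⟨_, L, hLA, v, hvL, hvi⟩ := mem_bla.1 h6
      obtain ⟨_, L', hL', w, hwL, hwi⟩ := mem_bla.1 h7
      obtain ⟨hLF, hLA'⟩ := mem_sdiff.1 hL'
      have hne' : L ≠ L' := fun he => hLA' (he ▸ hLA)
      exact (h.sepF L (hA hLA) L' hLF hne').2 i ⟨v, mem_inter.2 ⟨hvi, hvL⟩⟩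
        ⟨w, mem_inter.2 ⟨hwi, hwL⟩⟩
    have h6 : bla B A p ∪ bla B (F \ A) p ⊆ univ.filter (fun i => p ∈ B i) := by
      intro i hi
      rcases mem_union.1 hi with h7 | h7
      · exact mem_filter.2 ⟨mem_univ _, (mem_bla.1 h7).1⟩
      · exact mem_filter.2 ⟨mem_univ _, (mem_bla.1 h7).1⟩
    have h7 := card_le_card h6
    rw [card_union_of_disjoint h5] at h7
    have h8 : (univ.filter (fun i => p ∈ B i)).card = 5 := hr p (hUQ hpU)
    omega
  by_cases hex : ∃ p ∈ uA B U F A \ O, ∑ L ∈ A, hit B {p} L ≤ 2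
  · left
    obtain ⟨p, hpm, hp2⟩ := hex
    obtain ⟨q, hqm⟩ : ((uA B U F A \ O).erase p).Nonempty := by
      rw [← card_pos, card_erase_of_mem hpm]
      omega
    obtain ⟨hqp, hqm'⟩ := mem_erase.1 hqm
    have h4 := h.sep1_cross hr ih hs hj0 hcl hT2 hA hne hp hX (mem_sdiff.1 hpm).1
      (mem_sdiff.1 hqm').1 hqp.symm (hcr p hpm) (hcr q hqm') hp2 (Or.inr h3)
    have h5 : -(A.card : ℤ) ≤ ∑ L ∈ A, dv B Q L := by
      have h6 : ∑ L ∈ A, (-1 : ℤ) ≤ ∑ L ∈ A, dv B Q L := sum_le_sum hL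
      rw [sum_const, nsmul_eq_mul] at h6
      linarith
    have h6 := card_pos.2 hne
    have h7 : A.card = 1 := by omega
    refine ⟨h7, fun L hLA => ?_⟩
    obtain ⟨L', hL'⟩ := card_eq_one.1 h7
    rw [hL'] at hLA
    rw [mem_singleton.1 hLA]
    rw [h7, hL', sum_singleton] at h4
    push_cast at h4
    linarith
  · right
    push Not at hex
    obtain ⟨p, q, hpq, he⟩ := card_eq_two.1 (show (uA B U F A \ O).card = 2 by omega)
    have hpm : p ∈ uA B U F A \ O := by rw [he]; exact mem_insert_self _ _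
    have hqm : q ∈ uA B U F A \ O := by
      rw [he]
      exact mem_insert_of_mem (mem_singleton_self q)
    refine ⟨p, q, he, hpq, ?_, ?_⟩
    · have := hle p hpm
      have := hex p hpm
      omega
    · have := hle q hqm
      have := hex q hqm
      omega

end Frm

end

end Pool.Agent.Hyp6
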