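import Pool.Agent.Hyp6.L3Y4
import Pool.Agent.Hyp6.L3Rd2
import Pool.Agent.Hyp6.L3S3

/-!
# HYP6 L3RD3: the shift lemma in the frame

`Frm.shf`: for a line triple which sees at least three classes the surplus at the private classes
together with the claims at the other classes of its line is at least `-1 - 21 w`, `w` the number of
hits of its own points outside of the leaves.
-/

set_option autoImplicit false

namespace Pool.Agent.Hyp6

open Finset Pool.Agent.Hyp5 Rt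

universe u v

variable {V : Type v} [DecidableEq V] {ι : Type u} [Fintype ι]
  {B : ι → Finset V}

namespace Frm

variable {Q U : Finset V} {T R : Finset ι} {F : Finset (Finset V)}
  {P : Finset (Finset (Finset V))}

/-- a triple hits the leaves it sees. -/
theorem jh_pos' (h : Frm B Q T U F) {j : ι} (hj : j ∈ T) {L : Finset V}
    (hL : L ∈ slj B Q F j) : 0 < jh B Q j L := by
  obtain ⟨p, hp, hpL⟩ := mem_biUnion.1 hL
  obtain ⟨hLF, y, hy, hne, i, hpi, hyi⟩ := mem_slf.1 hpL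
  unfold jh hit
  refine lt_of_lt_of_le (card_pos.2 ⟨p, mem_inter.2 ⟨hpi, hp⟩⟩)
    (single_le_sum (f := fun i => (B i ∩ (B j ∩ Q)).card) (fun i _ => Nat.zero_le _)
      (cost_mem_tch.2 ⟨y, mem_inter.2 ⟨hyi, hy⟩⟩))

theorem jC_pos (h : Frm B Q T U F) {j : ι} (hj : j ∈ T) {C : Finset (Finset V)}
    (hC : C ∈ Sp.met P (slj B Q F j)) : 1 ≤ jC B Q j C := by
  obtain ⟨_, hd⟩ := Sp.mem_met.1 hC
  rw [not_disjoint_iff] at hd
  obtain ⟨L, hL, hLC⟩ := hd
  have h1 := h.jh_pos' hj hL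
  have h2 : jh B Q j L ≤ jC B Q j C :=
    single_le_sum (f := fun L => jh B Q j L) (fun _ _ => Nat.zero_le _) hLC
  omega

variable [DecidableEq ι]

/-- the hits of a triple on different classes are together at most twelve. -/
theorem jC_sum (h : Frm B Q T U F) (hr : Reg B Q)
    (hP : Sp.MinP F F U (slf B F) R (slj B Q F) P) {j : ι} (hj : j ∈ T)
    {l : Finset (Finset (Finset V))} (hl : l ⊆ P) : ∑ C ∈ l, jC B Q j C ≤ 12 := by
  have h1 := h.twelve hr hj
  have h2 := sum_leaves hP (fun L => jh B Q j L)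
  have h3 : ∑ C ∈ l, jC B Q j C ≤ ∑ C ∈ P, jC B Q j C := sum_le_sum_of_subset hl
  unfold jC at h3 ⊢
  omega

/-- the units and hits of the own points of a line. -/
theorem ow_hits (h : Frm B Q T U F) (hr : Reg B Q)
    (hP : Sp.MinP F F U (slf B F) R (slj B Q F) P) {j : ι} :
    ∑ C ∈ Sp.ln U (slf B F) (slj B Q F) P j,
      ∑ u ∈ Sp.ow U (slf B F) (slj B Q F) P j, uC B u C =
      ∑ u ∈ Sp.ow U (slf B F) (slj B Q F) P j, (5 - uo B Q T U F u) := by
  rw [sum_comm]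
  refine sum_congr rfl fun u hu => ?_
  have huU : u ∈ U := (mem_filter.1 (Sp.ow_sub hu)).1
  rw [← h.uC_sum hr hP huU]
  refine sum_subset Sp.clo_subset fun C hC hCl => ?_
  by_contra h0
  exact hCl (Sp.ow_met (h.gdT (R := R)) hP hu (h.uC_pos hP huU hC (Nat.pos_of_ne_zero h0)))

/-- **the shift lemma**. -/
theorem shf (h : Frm B Q T U F) (hr : Reg B Q) (hR : R ⊆ T)
    (hP : Sp.MinP F F U (slf B F) R (slj B Q F) P) {a : V → Finset (Finset V) → ℕ}
    (hs : ∀ u ∈ Sp.Ux U (slf B F) P, ∀ C ∈ P, 0 < a u C → C ∈ Sp.met P (slf B F u))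
    (ht : ∀ u ∈ Sp.Ux U (slf B F) P, ∑ C ∈ P, a u C = 5 - uo B Q T U F u)
    {j : ι} (hj : j ∈ Sp.T2 U (slf B F) R (slj B Q F) P)
    (h3 : 3 ≤ (Sp.met P (slj B Q F j)).card) {S : Finset (Finset (Finset V))}
    (hS : S ⊆ Sp.ln U (slf B F) (slj B Q F) P j) (hSs : ∀ C ∈ S, 1 ≤ jC B Q j C)
    {d c : Finset (Finset V) → ℤ}
    (hpr : ∀ C ∈ S, Pf (Sp.ow U (slf B F) (slj B Q F) P j).card (jC B Q j C)
      ((∑ u ∈ Sp.ow U (slf B F) (slj B Q F) P j, uC B u C : ℕ) : ℤ)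
      ((Sp.ld (Sp.ow U (slf B F) (slj B Q F) P j) a C : ℕ) : ℤ) (d C))
    (hsh : ∀ C ∈ Sp.ln U (slf B F) (slj B Q F) P j \ S, Sf (jC B Q j C)
      (∑ u ∈ Sp.ow U (slf B F) (slj B Q F) P j, uC B u C)
      (Sp.ld (Sp.ow U (slf B F) (slj B Q F) P j) a C) (c C)) :
    -1 ≤ ∑ C ∈ S, d C + ∑ C ∈ Sp.ln U (slf B F) (slj B Q F) P j \ S, c C +
      21 * ∑ u ∈ Sp.ow U (slf B F) (slj B Q F) P j, (uo B Q T U F u : ℤ) := by
  have hg := h.gdT (R := R)
  have hjT : j ∈ T := hR (mem_filter.1 (mem_filter.1 hj).1).1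
  have hcard := hP.ow_card hg hj
  have hmet : Sp.met P (slj B Q F j) ⊆ Sp.ln U (slf B F) (slj B Q F) P j :=
    Sp.subset_clo Sp.met_subset
  have hm := card_le_card hmet
  have hsum : ((∑ u ∈ Sp.ow U (slf B F) (slj B Q F) P j, (5 - uo B Q T U F u) : ℕ) : ℤ) =
      5 * ((Sp.ow U (slf B F) (slj B Q F) P j).card : ℤ) -
        ∑ u ∈ Sp.ow U (slf B F) (slj B Q F) P j, (uo B Q T U F u : ℤ) := by
    have h1 : ((∑ u ∈ Sp.ow U (slf B F) (slj B Q F) P j, (5 - uo B Q T U F u) : ℕ) : ℤ) =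
        ∑ u ∈ Sp.ow U (slf B F) (slj B Q F) P j, (5 - (uo B Q T U F u : ℤ)) := by
      push_cast
      refine sum_congr rfl fun u hu => ?_
      have := h.uo_le hr (mem_filter.1 (Sp.ow_sub hu)).1
      omega
    rw [h1, sum_sub_distrib, sum_const, nsmul_eq_mul]
    ring
  have p : Shf (Sp.ln U (slf B F) (slj B Q F) P j) S
      (Sp.ow U (slf B F) (slj B Q F) P j).card
      (fun C => Sp.ld (Sp.ow U (slf B F) (slj B Q F) P j) a C)
      (fun C => ∑ u ∈ Sp.ow U (slf B F) (slj B Q F) P j, uC B u C)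
      (fun C => jC B Q j C)
      (∑ u ∈ Sp.ow U (slf B F) (slj B Q F) P j, (uo B Q T U F u : ℤ)) d c := by
    refine ⟨by omega, hcard, hS, ?_, ?_, ?_, ?_, ?_, hSs, hpr, hsh⟩
    · exact sum_nonneg fun u _ => by positivity
    · rw [← hsum, ← Sp.ow_units hg hP hs ht]
      push_cast
      rfl
    · rw [← hsum, ← h.ow_hits hr hP]
      push_cast
      rfl
    · exact h.jC_sum hr hP hjT Sp.clo_subset
    · refine h3.trans (card_le_card fun C hC => mem_filter.2 ⟨hmet hC, h.jC_pos hjT hC⟩)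
  exact p.main

end Frm

end Pool.Agent.Hyp6
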