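import Pool.Agent.Hyp6.L3Fq
import Pool.Agent.Hyp6.L3Fpg
import Pool.Agent.Hyp6.L3Rd3

/-!
# HYP6 L3Fr: the least price and the last step with it

`pm n`: the least price of a line triple with `n` hits at a class, all kinds of other ends.
`StgR.clmF_two_ge`: the price if no end is private. `StgR.clmF_ge`: the price at every class, from the
rest at private ends (`RG`). `StgR.finR`: the last step; single leaves with a centre only need
`msC <= sum of the least prices`.
-/

set_option autoImplicit false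

namespace Pool.Agent.Hyp6

open Finset Pool.Agent.Hyp5 Rt

universe u v

variable {V : Type v} [DecidableEq V] {ι : Type u} [Fintype ι] [DecidableEq ι]
  {B : ι → Finset V}

/-- the least price of a line triple with `n` hits at a class, above `560`. -/
def pm (n : ℕ) : ℤ :=
  if n ≤ 1 then -161
  else if n = 2 then -97
  else if n = 3 then -33
  else if n = 4 then -44
  else if n = 5 then 15
  else if n = 6 then -1
  else if n = 7 then -17
  else if n = 8 then -33
  else if n = 9 then 31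
  else 41

theorem pm_le_payD (n : ℕ) : pm n ≤ payD n := by
  unfold pm payD
  split_ifs <;> omega

theorem pm_le (n : ℕ) : pm n ≤ 41 := by
  unfold pm
  split_ifs <;> omega

namespace Stg

variable {Q U : Finset V} {T : Finset ι} {F : Finset (Finset V)}
  {P : Finset (Finset (Finset V))} {a : V → Finset (Finset V) → ℕ}

/-- a line triple on a line with two classes has a hit on each of them. -/
theorem jC_two (s : Stg B Q T U F P a) {j : ι} (hj : j ∈ tl B Q T U F P)
    {C D : Finset (Finset V)} (hCD : C ≠ D) (hl : lj B Q U F P j = {C, D}) :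
    1 ≤ jC B Q j C ∧ 1 ≤ jC B Q j D := by
  obtain ⟨hjR, hne, hno⟩ := mem_filter.1 (mem_filter.1 hj).1
  have h1 := s.part.ptn.two_met ((s.frm.gdT (R := Rg B Q T U F)).NTs j hjR) hne hno
  have h2 : Sp.met P (slj B Q F j) ⊆ {C, D} := by
    rw [← hl]
    exact Sp.met_sub_lx
  have h3 : Sp.met P (slj B Q F j) = {C, D} :=
    eq_of_subset_of_card_le h2 (by rw [card_pair hCD]; omega)
  exact ⟨s.frm.jC_pos (s.tl_sub hj).1 (by rw [h3]; simp),
    s.frm.jC_pos (s.tl_sub hj).1 (by rw [h3]; simp)⟩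

end Stg

namespace StgR

variable {Q U : Finset V} {T : Finset ι} {F : Finset (Finset V)}
  {P : Finset (Finset (Finset V))} {a : V → Finset (Finset V) → ℕ}

/-- **the price if no end is private**. -/
theorem clmF_two_ge (s : StgR B Q T U F P a) {fat : ι → Finset (Finset V) → ℤ} {j : ι}
    (hj : j ∈ tl B Q T U F P) {C D : Finset (Finset V)} (hCD : C ≠ D)
    (hl : lj B Q U F P j = {C, D}) (hD : (aC B Q T U F P D).card ≠ 1) :
    payD (jC B Q j C) ≤ clmF 149 B Q T U F P a fat j C := by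
  have hl' : lj B Q U F P j = {D, C} := by rw [hl, pair_comm]
  rw [s.toStg.clmF_two hCD.symm hl' hD]
  obtain ⟨h1, h2⟩ := s.toStg.jC_two hj hCD hl
  have h3 := s.toStg.jC_pair hj hCD hl
  have h4 := s.toStg.uj_nonneg (s.toStg.tl_sub hj).1
  refine pr_ge ?_ h1 h2 fun hc => ?_
  · have : (jC B Q j C : ℤ) + jC B Q j D ≤ 12 := by linarith
    exact_mod_cast this
  · exact s.hc_two hj hCD hl hc

/-- **the price of a line triple on a line with two classes**. -/
theorem clmF_ge (s : StgR B Q T U F P a) {fat : ι → Finset (Finset V) → ℤ}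
    (RG : ∀ j ∈ tl B Q T U F P, ∀ C D, C ≠ D → lj B Q U F P j = {C, D} →
      (aC B Q T U F P D).card = 1 →
      pm (jC B Q j C) ≤ 8 * sT B Q T U F 15 j + tF B Q T U F P j - 1120 - ndF B Q T U F P a D)
    {j : ι} (hj : j ∈ tl B Q T U F P) {C D : Finset (Finset V)} (hCD : C ≠ D)
    (hl : lj B Q U F P j = {C, D}) :
    pm (jC B Q j C) ≤ clmF 149 B Q T U F P a fat j C := by
  by_cases hD : (aC B Q T U F P D).card = 1
  · have hl' : lj B Q U F P j = {D, C} := by rw [hl, pair_comm]
    rw [s.toStg.clmF_rest hCD.symm hl' hD]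
    exact RG j hj C D hCD hl hD
  · exact (pm_le_payD _).trans (s.clmF_two_ge hj hCD hl hD)

/-- the price at a class with the line triple. -/
theorem clmF_ge' (s : StgR B Q T U F P a) {fat : ι → Finset (Finset V) → ℤ}
    (RG : ∀ j ∈ tl B Q T U F P, ∀ C D, C ≠ D → lj B Q U F P j = {C, D} →
      (aC B Q T U F P D).card = 1 →
      pm (jC B Q j C) ≤ 8 * sT B Q T U F 15 j + tF B Q T U F P j - 1120 - ndF B Q T U F P a D)
    {j : ι} {C : Finset (Finset V)} (hj : j ∈ aC B Q T U F P C)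
    (h2 : (lj B Q U F P j).card = 2) :
    pm (jC B Q j C) ≤ clmF 149 B Q T U F P a fat j C := by
  obtain ⟨hjt, hC⟩ := Sp.mem_atl.1 hj
  obtain ⟨D, hD⟩ := card_eq_one.1 (by rw [card_erase_of_mem hC, h2] :
    ((lj B Q U F P j).erase C).card = 1)
  have hl : lj B Q U F P j = {C, D} := by rw [← insert_erase hC, hD]
  have hCD : C ≠ D := by
    have : D ∈ (lj B Q U F P j).erase C := by rw [hD]; exact mem_singleton_self D
    exact (mem_erase.1 this).1.symm
  exact s.clmF_ge RG hjt hCD hl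

/-- **the last step with the least prices**. `RG`: the rest at the other end of a private class; `BL`: a
single leaf with a centre and with line triples on lines with two classes; `L2`: two private ends
which are not single leaves with a centre. -/
theorem finR (s : StgR B Q T U F P a) (fat : ι → Finset (Finset V) → ℤ)
    (RG : ∀ j ∈ tl B Q T U F P, ∀ C D, C ≠ D → lj B Q U F P j = {C, D} →
      (aC B Q T U F P D).card = 1 →
      pm (jC B Q j C) ≤ 8 * sT B Q T U F 15 j + tF B Q T U F P j - 1120 - ndF B Q T U F P a D)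
    (S0 : ∀ L, {L} ∈ P → (aC B Q T U F P {L}).card = 0 → KC B Q T U F {L} = ∅ →
      NCt B Q T U F P {L} → msC 149 B Q T U F P a {L} ≤ 0)
    (B0 : ∀ L, {L} ∈ P → (aC B Q T U F P {L}).card = 0 → KC B Q T U F {L} = ∅ →
      (Bs B Q T U F P L).Nonempty → msC 149 B Q T U F P a {L} ≤ 0)
    (C0 : ∀ C ∈ P, 2 ≤ C.card → (aC B Q T U F P C).card = 0 → KC B Q T U F C = ∅ →
      NCt B Q T U F P C → msC 149 B Q T U F P a C ≤ 0)
    (E0 : ∀ C ∈ P, 2 ≤ C.card → (aC B Q T U F P C).card = 0 → KC B Q T U F C = ∅ →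
      ¬ NCt B Q T U F P C → msC 149 B Q T U F P a C ≤ 0)
    (D0 : ∀ C ∈ P, (aC B Q T U F P C).card = 0 → (KC B Q T U F C).Nonempty →
      ndF B Q T U F P a C ≤ 0)
    (SN : ∀ L, {L} ∈ P → 2 ≤ (aC B Q T U F P {L}).card → KC B Q T U F {L} = ∅ →
      NCt B Q T U F P {L} → (∀ j ∈ aC B Q T U F P {L}, (lj B Q U F P j).card = 2) →
      msC 149 B Q T U F P a {L} ≤
        ∑ j ∈ aC B Q T U F P {L}, clmF 149 B Q T U F P a fat j {L})
    (SM : ∀ L, {L} ∈ P → 2 ≤ (aC B Q T U F P {L}).card → KC B Q T U F {L} = ∅ →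
      NCt B Q T U F P {L} → (∃ j ∈ aC B Q T U F P {L}, 3 ≤ (lj B Q U F P j).card) →
      msC 149 B Q T U F P a {L} ≤
        ∑ j ∈ aC B Q T U F P {L}, clmF 149 B Q T U F P a fat j {L})
    (BL : ∀ L, {L} ∈ P → (aC B Q T U F P {L}).Nonempty →
      (2 ≤ (aC B Q T U F P {L}).card ∨ ∀ j ∈ aC B Q T U F P {L}, (lj B Q U F P j).card = 2) →
      KC B Q T U F {L} = ∅ → (Bs B Q T U F P L).Nonempty →
      msC 149 B Q T U F P a {L} ≤ ∑ j ∈ aC B Q T U F P {L},
        (if (lj B Q U F P j).card = 2 then pm (jh B Q j L) else fat j {L}))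
    (CN : ∀ C ∈ P, 2 ≤ C.card → 2 ≤ (aC B Q T U F P C).card → KC B Q T U F C = ∅ →
      NCt B Q T U F P C →
      msC 149 B Q T U F P a C ≤ ∑ j ∈ aC B Q T U F P C, clmF 149 B Q T U F P a fat j C)
    (EN : ∀ C ∈ P, 2 ≤ C.card → 2 ≤ (aC B Q T U F P C).card → KC B Q T U F C = ∅ →
      ¬ NCt B Q T U F P C →
      msC 149 B Q T U F P a C ≤ ∑ j ∈ aC B Q T U F P C, clmF 149 B Q T U F P a fat j C)
    (DN : ∀ C ∈ P, 2 ≤ (aC B Q T U F P C).card → (KC B Q T U F C).Nonempty →
      ndF B Q T U F P a C ≤ ∑ j ∈ aC B Q T U F P C, clmF 149 B Q T U F P a fat j C)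
    (L2 : ∀ j ∈ tl B Q T U F P, ∀ C D, C ≠ D → lj B Q U F P j = {C, D} →
      aC B Q T U F P C = {j} → aC B Q T U F P D = {j} →
      (KC B Q T U F C = ∅ → NCt B Q T U F P C ∨ 2 ≤ C.card) →
      (KC B Q T U F D = ∅ → NCt B Q T U F P D ∨ 2 ≤ D.card) →
      ndF B Q T U F P a C + ndF B Q T U F P a D ≤
        8 * sT B Q T U F 15 j + tF B Q T U F P j - 1120)
    (LF : ∀ j ∈ tl B Q T U F P, 1 ≤ (oj B Q U F P j).card →
      ∑ C ∈ (lj B Q U F P j).filter (fun C => (aC B Q T U F P C).card = 1),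
        ndF B Q T U F P a C +
      ∑ C ∈ (lj B Q U F P j).filter (fun C => 2 ≤ (aC B Q T U F P C).card), fat j C ≤
        8 * sT B Q T U F 15 j + tF B Q T U F P j - 1120 +
          168 * ∑ u ∈ oj B Q U F P j, (uo B Q T U F u : ℤ)) :
    False := by
  have hpriv : ∀ j ∈ tl B Q T U F P, ∀ C D, C ≠ D → lj B Q U F P j = {C, D} →
      (aC B Q T U F P C).card = 1 → aC B Q T U F P C = {j} := by
    intro j hj C D _ hl h1
    obtain ⟨i, hi⟩ := card_eq_one.1 h1
    have h2 : j ∈ aC B Q T U F P C := Sp.mem_atl.2 ⟨hj, by rw [hl]; simp⟩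
    rw [hi] at h2 ⊢
    rw [mem_singleton.1 h2]
  -- a single leaf with a centre pays for itself
  have hone : ∀ j ∈ tl B Q T U F P, ∀ C D, C ≠ D → lj B Q U F P j = {C, D} →
      (aC B Q T U F P C).card = 1 → (aC B Q T U F P D).card = 1 →
      ¬ (KC B Q T U F C = ∅ → NCt B Q T U F P C ∨ 2 ≤ C.card) →
      ndF B Q T U F P a C + ndF B Q T U F P a D ≤
        8 * sT B Q T U F 15 j + tF B Q T U F P j - 1120 := by
    intro j hj C D hCD hl hC hD hn
    push Not at hn
    obtain ⟨hK, hn1, hn2⟩ := hn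
    have hCP : C ∈ P := s.lnf.sub j hj (by rw [hl]; simp)
    have hne := (s.part.ptn.vc C hCP).ne
    obtain ⟨L, rfl⟩ := card_eq_one.1 (by have := hne.card_pos; omega : C.card = 1)
    have hb : (Bs B Q T U F P L).Nonempty := by
      rw [nonempty_iff_ne_empty]
      exact fun h => hn1 (s.toStg.nct_of_Bs h)
    have h1 := BL L hCP (card_pos.1 (by omega)) (Or.inr fun i hi => by
      rw [hpriv j hj {L} D hCD hl hC, mem_singleton] at hi
      rw [hi, hl, card_pair hCD]) hK hb
    rw [hpriv j hj {L} D hCD hl hC, sum_singleton,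
      if_pos (by rw [hl, card_pair hCD]), ← s.toStg.jC_one] at h1
    have h2 := RG j hj {L} D hCD hl hD
    have h3 := s.toStg.ndC_eq (v := 149) (t := tF B Q T U F P) hK
    have h4 : ndF B Q T U F P a {L} = msC 149 B Q T U F P a {L} := h3
    rw [h4]
    linarith
  refine s.finQ fat S0 B0 C0 E0 D0 SN SM (fun L hL h2 hK hb => ?_) CN EN DN
    (fun j hj C D hCD hl hC hD => ?_) LF
  · refine (BL L hL (card_pos.1 (by omega)) (Or.inl h2) hK hb).trans
      (sum_le_sum fun j hj => ?_)
    by_cases h3 : (lj B Q U F P j).card = 2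
    · rw [if_pos h3, ← s.toStg.jC_one]
      exact s.clmF_ge' RG hj h3
    · rw [if_neg h3]
      have hjt := (Sp.mem_atl.1 hj).1
      rcases s.toStg.two_or hjt with h4 | h4
      · exact absurd h4.1 h3
      · rw [s.toStg.clmF_fat hjt h4.2]
  · have hl' : lj B Q U F P j = {D, C} := by rw [hl, pair_comm]
    by_cases h1 : KC B Q T U F C = ∅ → NCt B Q T U F P C ∨ 2 ≤ C.card
    · by_cases h2 : KC B Q T U F D = ∅ → NCt B Q T U F P D ∨ 2 ≤ D.card
      · exact L2 j hj C D hCD hl (hpriv j hj C D hCD hl hC) (hpriv j hj D C hCD.symm hl' hD)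
          h1 h2
      · have h3 := hone j hj D C hCD.symm hl' hD hC h2
        linarith
    · exact hone j hj C D hCD hl hC hD h1

end StgR

end Pool.Agent.Hyp6
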