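import Pool.Agent.Hyp6.L3Gm
import Pool.Agent.Hyp6.L3Dl

/-!
# HYP6 L3Ne: leaves with double singles, classes with no line triple

`ViolR.ee_fs`: a point with two single blocks lies in no full block, so the free places of a set are at
least `11 / 2` for every such point. `Stg.e11`: the same for a leaf. `Stg.h0_one`: a single leaf with no
line triple, no inside triple and no centre needs nothing, except the leaf with three points, one single
trace and no hit of `U`.
-/

set_option autoImplicit false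

namespace Pool.Agent.Hyp6

open Finset Pool.Agent.Hyp5 Rt

universe u v

variable {V : Type v} [DecidableEq V] {ι : Type u} [Fintype ι] [DecidableEq ι]
  {B : ι → Finset V}

namespace ViolR

variable {Q : Finset V}

omit [DecidableEq ι] in
/-- a point of a full block has at most one single block. -/
theorem ee_notin (h : ViolR B Q) {t : V} {i : ι} (ht : t ∈ B i) (htQ : t ∈ Q)
    (he : 2 ≤ (univ.filter (fun k => B k ∩ Q = {t})).card) : (B i ∩ Q).card ≤ 2 := by
  by_contra hc
  have h3 : (B i ∩ Q).card = 3 := by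
    have := h.tr i
    omega
  have h1 := h.eeT h3
  unfold ee at h1
  rw [card_eq_zero] at h1
  have h2 : t ∈ (B i ∩ Q).filter (fun t => 2 ≤ (univ.filter (fun i => B i ∩ Q = {t})).card) :=
    mem_filter.2 ⟨mem_inter.2 ⟨ht, htQ⟩, he⟩
  rw [h1] at h2
  exact notMem_empty _ h2

/-- **the free places of double singles**. -/
theorem ee_fs (h : ViolR B Q) {W : Finset V} (hW : W ⊆ Q) :
    11 * (ee B Q W : ℤ) ≤ 2 * fs B Q W := by
  classical
  set E := W.filter (fun t => 2 ≤ (univ.filter (fun i => B i ∩ Q = {t})).card) with hE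
  have hEW : E ⊆ W := filter_subset _ _
  set g : ι → ℤ := fun i => if (B i ∩ Q).card = 1 then 4 else if (B i ∩ Q).card = 2 then 1 else 0
    with hg
  have h1 : ∀ t ∈ E, (11 : ℤ) ≤ ∑ i ∈ univ.filter (fun i => t ∈ B i), g i := by
    intro t ht
    obtain ⟨htW, ht2⟩ := mem_filter.1 ht
    have htQ := hW htW
    set S := univ.filter (fun i => B i ∩ Q = {t}) with hS
    have hSs : S ⊆ univ.filter (fun i => t ∈ B i) := by
      intro i hi
      rw [mem_filter]
      refine ⟨mem_univ _, ?_⟩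
      have h2 : t ∈ B i ∩ Q := by rw [(mem_filter.1 hi).2]; exact mem_singleton_self t
      exact (mem_inter.1 h2).1
    have h5 : (univ.filter (fun i => t ∈ B i)).card = 5 := h.reg t htQ
    have h6 := card_sdiff_add_card_eq_card hSs
    rw [← sum_sdiff hSs]
    have h7 : ∑ i ∈ S, g i = 4 * (S.card : ℤ) := by
      rw [sum_congr rfl fun i hi => show g i = 4 from ?_, sum_const, nsmul_eq_mul]
      · ring
      · rw [hg]
        dsimp only
        rw [(mem_filter.1 hi).2, card_singleton, if_pos rfl]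
    have h8 : ∑ i ∈ univ.filter (fun i => t ∈ B i) \ S, (1 : ℤ) ≤
        ∑ i ∈ univ.filter (fun i => t ∈ B i) \ S, g i := by
      refine sum_le_sum fun i hi => ?_
      have hti : t ∈ B i := (mem_filter.1 (mem_sdiff.1 hi).1).2
      have h9 := h.ee_notin hti htQ ht2
      have h10 : 0 < (B i ∩ Q).card := card_pos.2 ⟨t, mem_inter.2 ⟨hti, htQ⟩⟩
      rw [hg]
      dsimp only
      split_ifs with h11 h12
      · norm_num
      · norm_num
      · omega
    rw [sum_const, nsmul_eq_mul, mul_one] at h8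
    have h9 : (S.card : ℤ) + ((univ.filter (fun i => t ∈ B i) \ S).card : ℤ) = 5 := by
      have : (univ.filter (fun i => t ∈ B i) \ S).card + S.card = 5 := by rw [h6, h5]
      omega
    have h10 : (2 : ℤ) ≤ S.card := by exact_mod_cast ht2
    linarith
  have h2 : 11 * (E.card : ℤ) ≤ ∑ t ∈ E, ∑ i ∈ univ.filter (fun i => t ∈ B i), g i := by
    have := sum_le_sum h1
    rw [sum_const, nsmul_eq_mul] at this
    linarith
  have h3 : ∑ t ∈ E, ∑ i ∈ univ.filter (fun i => t ∈ B i), g i =
      ∑ i ∈ tch B W, g i * ((B i ∩ E).card : ℤ) := by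
    have h4 : ∑ t ∈ E, ∑ i ∈ univ.filter (fun i => t ∈ B i), g i =
        ∑ t ∈ E, ∑ i ∈ tch B W, (if t ∈ B i then g i else 0) := by
      refine sum_congr rfl fun t ht => ?_
      rw [← sum_filter]
      refine sum_congr ?_ fun _ _ => rfl
      ext i
      rw [mem_filter, mem_filter, cost_mem_tch]
      constructor
      · rintro ⟨_, h5⟩
        exact ⟨⟨t, mem_inter.2 ⟨h5, hEW ht⟩⟩, h5⟩
      · rintro ⟨_, h5⟩
        exact ⟨mem_univ _, h5⟩
    rw [h4, sum_comm]
    refine sum_congr rfl fun i _ => ?_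
    rw [← sum_filter, sum_const, nsmul_eq_mul, mul_comm]
    congr 3
    ext t
    rw [mem_filter, mem_inter]
    exact and_comm
  have h4 : ∑ i ∈ tch B W, g i * ((B i ∩ E).card : ℤ) ≤ 2 * fs B Q W := by
    unfold fs
    rw [mul_sum]
    refine sum_le_sum fun i _ => ?_
    have h5 : (B i ∩ E).card ≤ (B i ∩ Q).card :=
      card_le_card (inter_subset_inter_left (hEW.trans hW))
    have h6 : (B i ∩ Q).card ≤ 3 := h.tr i
    rw [hg]
    dsimp only
    split_ifs with h7 h8
    · rw [h7] at h5 ⊢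
      have : ((B i ∩ E).card : ℤ) ≤ 1 := by exact_mod_cast h5
      push_cast
      linarith
    · rw [h8] at h5 ⊢
      have : ((B i ∩ E).card : ℤ) ≤ 2 := by exact_mod_cast h5
      push_cast
      linarith
    · have : ((B i ∩ Q).card : ℤ) ≤ 3 := by exact_mod_cast h6
      linarith
  have h5 : ee B Q W = E.card := rfl
  rw [h5]
  linarith

end ViolR

namespace ViolR

variable {Q : Finset V}

omit [DecidableEq ι] in
/-- a set with a double single has at least seven free places. -/
theorem ee_fs7 (h : ViolR B Q) {W : Finset V} (hW : W ⊆ Q) (he : 1 ≤ ee B Q W) :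
    7 ≤ fs B Q W := by
  classical
  unfold ee at he
  obtain ⟨t, ht⟩ := card_pos.1 (show 0 < _ from he)
  obtain ⟨htW, ht2⟩ := mem_filter.1 ht
  have htQ := hW htW
  set S := univ.filter (fun i => B i ∩ Q = {t}) with hS
  have hSs : S ⊆ univ.filter (fun i => t ∈ B i) := by
    intro i hi
    rw [mem_filter]
    refine ⟨mem_univ _, ?_⟩
    have h2 : t ∈ B i ∩ Q := by rw [(mem_filter.1 hi).2]; exact mem_singleton_self t
    exact (mem_inter.1 h2).1
  have h5 : (univ.filter (fun i => t ∈ B i)).card = 5 := h.reg t htQ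
  have h6 := card_sdiff_add_card_eq_card hSs
  have h0 : ∑ i ∈ univ.filter (fun i => t ∈ B i), (3 - ((B i ∩ Q).card : ℤ)) ≤ fs B Q W := by
    unfold fs
    refine sum_le_sum_of_subset_of_nonneg (fun i hi => ?_) fun i _ _ => ?_
    · exact cost_mem_tch.2 ⟨t, mem_inter.2 ⟨(mem_filter.1 hi).2, htW⟩⟩
    · have := h.tr i
      omega
  have h7 : ∑ i ∈ S, (3 - ((B i ∩ Q).card : ℤ)) = 2 * (S.card : ℤ) := by
    rw [sum_congr rfl fun i hi => by rw [(mem_filter.1 hi).2, card_singleton], sum_const,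
      nsmul_eq_mul]
    push_cast
    ring
  have h8 : ∑ i ∈ univ.filter (fun i => t ∈ B i) \ S, (1 : ℤ) ≤
      ∑ i ∈ univ.filter (fun i => t ∈ B i) \ S, (3 - ((B i ∩ Q).card : ℤ)) := by
    refine sum_le_sum fun i hi => ?_
    have h9 := h.ee_notin (mem_filter.1 (mem_sdiff.1 hi).1).2 htQ ht2
    omega
  rw [sum_const, nsmul_eq_mul, mul_one] at h8
  rw [← sum_sdiff hSs] at h0
  have h9 : (S.card : ℤ) + ((univ.filter (fun i => t ∈ B i) \ S).card : ℤ) = 5 := by
    have : (univ.filter (fun i => t ∈ B i) \ S).card + S.card = 5 := by rw [h6, h5]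
    omega
  have h10 : (2 : ℤ) ≤ S.card := by exact_mod_cast ht2
  linarith

end ViolR

namespace Frm

variable {Q U : Finset V} {T : Finset ι} {F : Finset (Finset V)}

omit [DecidableEq ι] in
/-- the leaves are critical. -/
theorem crit_lf (h : Frm B Q T U F) {L : Finset V} (hL : L ∈ F) : Crit B L := by
  intro x hx
  obtain ⟨hf, hs⟩ := h.fcF hL
  have h1 := rho_erase_fc hf hs hx
  have h2 := rho_le_erase (x := x) (h.cov.mono (h.FQ hL))
  omega

omit [DecidableEq ι] in
/-- all hits on a leaf. -/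
theorem hit_all (h : Frm B Q T U F) (hr : Reg B Q) {L : Finset V} (hL : L ∈ F) :
    hit B (Q \ L) L = ∑ j ∈ T, jh B Q j L + hit B U L := by
  have h1 := hit_add_fsQ (hr.mono (h.FQ hL)) (h.FQ hL)
  have h2 := h.leaf_places hr hL
  have h3 : (hit B (Q \ L) L : ℤ) = ((∑ j ∈ T, jh B Q j L + hit B U L : ℕ) : ℤ) := by
    push_cast
    linarith
  exact_mod_cast h3

omit [DecidableEq ι] in
/-- the hits on a leaf of one triple and of the others. -/
theorem hit_two (h : Frm B Q T U F) (hr : Reg B Q) {L : Finset V} (hL : L ∈ F) {j : ι}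
    (hj : j ∈ T) : hit B ((Q \ (B j ∩ Q)) \ L) L + jh B Q j L =
      ∑ j ∈ T, jh B Q j L + hit B U L := by
  rw [← h.hit_all hr hL]
  unfold jh
  rw [← hit_union_left]
  · congr 1
    ext v
    simp only [mem_union, mem_sdiff, mem_inter]
    constructor
    · rintro (⟨⟨h1, _⟩, h2⟩ | ⟨h1, h2⟩)
      · exact ⟨h1, h2⟩
      · exact ⟨h2, h.T_notin hj (mem_inter.2 ⟨h1, h2⟩) hL⟩
    · rintro ⟨h1, h2⟩
      by_cases h3 : v ∈ B j
      · exact Or.inr ⟨h3, h1⟩
      · exact Or.inl ⟨⟨h1, fun h4 => h3 h4.1⟩, h2⟩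
  · rw [disjoint_left]
    intro v hv hv'
    exact (mem_sdiff.1 (mem_sdiff.1 hv).1).2 hv'

end Frm

namespace Stg

variable {Q U : Finset V} {T : Finset ι} {F : Finset (Finset V)}
  {P : Finset (Finset (Finset V))} {a : V → Finset (Finset V) → ℕ}

/-- a leaf has a hit. -/
theorem hit_pos (s : Stg B Q T U F P a) {L : Finset V} (hL : L ∈ F) :
    2 ≤ ∑ j ∈ T, jh B Q j L + hit B U L := by
  obtain ⟨j, hj⟩ : T.Nonempty := card_pos.1 (by have := (s.viol.frm_two s.frm).2; omega)
  have h1 := s.viol.cpt_two_le s.frm hj hL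
  have h2 := s.frm.hit_two s.viol.reg hL hj
  have h3 : (cpt B Q j L).card ≤ hit B ((Q \ (B j ∩ Q)) \ L) L := by
    rw [hit_eq_Ez]
    calc (cpt B Q j L).card = ∑ v ∈ cpt B Q j L, 1 := by rw [sum_const, smul_eq_mul, mul_one]
      _ ≤ ∑ v ∈ cpt B Q j L, (Ez B L v).card := by
          refine sum_le_sum fun v hv => ?_
          obtain ⟨_, i, hi⟩ := mem_cpt.1 hv
          exact card_pos.2 ⟨i, mem_Ez.2 hi⟩
      _ ≤ ∑ v ∈ (Q \ (B j ∩ Q)) \ L, (Ez B L v).card :=
          sum_le_sum_of_subset fun v hv => (mem_cpt.1 hv).1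
  omega

/-- **few hits**: a leaf which is hit by a triple has at least four hits. -/
theorem four_hits (s : Stg B Q T U F P a) {L : Finset V} (hL : L ∈ F) {j : ι} (hj : j ∈ T)
    (hjL : 0 < jh B Q j L) : 4 ≤ ∑ j ∈ T, jh B Q j L + hit B U L := by
  classical
  by_contra hcon
  have h1 := s.frm.hit_two s.viol.reg hL hj
  have h2 : jh B Q j L = ∑ y ∈ B j ∩ Q, (Ez B L y).card := hit_eq_Ez _ _
  have h3 : (B j ∩ Q).Nonempty := card_pos.1 (by rw [s.frm.full hj]; norm_num)
  obtain ⟨x, hx, hmax⟩ := exists_max_image (B j ∩ Q) (fun y => (Ez B L y).card) h3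
  have hLQ := s.frm.FQ hL
  have hLT : L ⊆ Q \ (B j ∩ Q) := fun v hv =>
    mem_sdiff.2 ⟨hLQ hv, fun h4 => s.frm.T_notin hj h4 hL hv⟩
  have hLne : L.Nonempty := by
    obtain ⟨_, hs⟩ := s.frm.fcF hL
    by_contra h4
    rw [not_nonempty_iff_eq_empty] at h4
    rw [h4] at hs
    have : (∅ : Finset V).Nonempty := by
      have h5 := s.frm.sv_leaf hL
      rw [h4] at h5
      unfold sv at h5
      rw [card_empty] at h5
      by_contra h6
      push_cast at h5
      omega
    exact absurd this (by simp)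
  have hxp : 0 < (Ez B L x).card := by
    by_contra h4
    have h5 : ∑ y ∈ B j ∩ Q, (Ez B L y).card = 0 := sum_eq_zero fun y hy => by
      have := hmax y hy
      omega
    omega
  have hoth : ∀ y ∈ (B j ∩ Q).erase x, (Ez B L y).card + 1 ≤ 2 := by
    intro y hy
    obtain ⟨hne, hyT⟩ := mem_erase.1 hy
    have h4 := hmax y hyT
    have h5 : (Ez B L x).card + (Ez B L y).card ≤ ∑ y ∈ B j ∩ Q, (Ez B L y).card := by
      rw [← sum_pair hne.symm (f := fun y => (Ez B L y).card)]
      exact sum_le_sum_of_subset (insert_subset hx (singleton_subset_iff.2 hyT))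
    omega
  have h6 := s.viol.s0 (s.frm.full hj) hLT hLne (s.frm.crit_lf hL) (s.frm.sv_leaf hL)
    (mem_inter.1 hx).1 (mem_inter.1 hx).2 (card_pos.1 hxp) (nu := 2) (by norm_num) (by norm_num)
    hoth (by omega)
  have h7 := s.viol.leaf_dv s.frm hL
  push_cast at h6
  linarith

/-- **a single leaf with no line triple**, no inside triple and no centre of a type B: it needs
nothing, except the leaf with three points, one single trace and no hit of `U`. -/
theorem h0_one (s : Stg B Q T U F P a) {L : Finset V} (hL : {L} ∈ P)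
    (h0 : (aC B Q T U F P {L}).card = 0)
    (hK : Sp.Kin (Rg B Q T U F) (slj B Q F) {L} = ∅)
    (hB : NCt B Q T U F P {L})
    (hx : ¬ (L.card = 3 ∧ nt B L 1 = 1 ∧ hit B U L = 0)) :
    msC 149 B Q T U F P a {L} ≤ 0 := by
  have hLF : L ∈ F := (s.part.ptn.vc _ hL).sub (mem_singleton_self L)
  have hA : aC B Q T U F P {L} = ∅ := card_eq_zero.1 h0
  have h1 := s.ms_one 149 hL
  rw [hA, sum_empty, hK, sum_empty] at h1
  have h2 : ∑ j ∈ Trs B Q T (Rg B Q T U F) U F P,
      (144 * (jh B Q j L : ℤ) - Xv 149 B Q T U F P j {L}) ≤ 0 := by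
    refine sum_nonpos fun j hj => ?_
    have h3 := s.trs_le' hj hL hB
    rw [s.jC_one] at h3
    have h4 : (0 : ℤ) ≤ jh B Q j L := by positivity
    linarith
  obtain ⟨hld, hld5⟩ := s.ld_one hL
  have hN := s.one hLF
  obtain ⟨pp, slot, m1, mo, n1, no, pt, f0, e0, g0, gn, hh0, p0⟩ := hN
  have e7 : 1 ≤ ee B Q L → 7 ≤ fs B Q L := s.viol.ee_fs7 (s.frm.FQ hLF)
  have e11 := s.viol.ee_fs (s.frm.FQ hLF)
  have h4 : 0 < hit B U L ∨ 4 ≤ ∑ j ∈ T, jh B Q j L := by
    rcases Nat.eq_zero_or_pos (hit B U L) with h5 | h5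
    · right
      have h6 := s.hit_pos hLF
      obtain ⟨j, hj, hjL⟩ : ∃ j ∈ T, 0 < jh B Q j L := by
        by_contra hc
        push Not at hc
        have : ∑ j ∈ T, jh B Q j L = 0 := sum_eq_zero fun j hj => Nat.le_zero.1 (hc j hj)
        omega
      have h7 := s.four_hits hLF hj hjL
      omega
    · exact Or.inl h5
  have h5 : (0 : ℤ) < hit B U L ∨ (4 : ℤ) ≤ ∑ j ∈ T, (jh B Q j L : ℤ) :=
    h4.imp (fun h => by exact_mod_cast h) fun h => by exact_mod_cast h
  have hxx : ¬ ((L.card : ℤ) = 3 ∧ (nt B L 1 : ℤ) = 1 ∧ (hit B U L : ℤ) = 0) := fun h6 =>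
    hx ⟨by exact_mod_cast h6.1, by exact_mod_cast h6.2.1, by exact_mod_cast h6.2.2⟩
  have e7' : (1 : ℤ) ≤ ee B Q L → 7 ≤ fs B Q L := fun h6 => e7 (by exact_mod_cast h6)
  rw [h1]
  clear h1 hK hA h0 hB hx e7 h4
  generalize (∑ j ∈ Trs B Q T (Rg B Q T U F) U F P,
      (144 * (jh B Q j L : ℤ) - Xv 149 B Q T U F P j {L})) = w at h2 ⊢
  have hldz : (Sp.ld (Sp.Ux U (slf B F) P) a {L} : ℤ) ≤ 5 := by exact_mod_cast hld5
  have hldw : (Sp.ld (Sp.Ux U (slf B F) P) a {L} : ℤ) = 5 ∨
      (hit B U L : ℤ) ≤ (Sp.ld (Sp.Ux U (slf B F) P) a {L} : ℤ) :=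
    hld.imp_left fun h => by exact_mod_cast h
  clear hld hld5
  generalize (Sp.ld (Sp.Ux U (slf B F) P) a {L} : ℤ) = d at hldz hldw ⊢
  generalize (hit B U L : ℤ) = g at *
  generalize (ee B Q L : ℤ) = e at *
  generalize fs B Q L = f at *
  generalize (nt B L 1 : ℤ) = n at *
  generalize (L.card : ℤ) = m at *
  generalize (∑ j ∈ T, (jh B Q j L : ℤ)) = h at *
  generalize Pp B L = p at *
  rcases hldw with h6 | h6
  · subst h6
    linarith
  · rcases lt_or_ge 0 g with h7 | h7
    · have : 1 ≤ g := by omega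
      linarith
    · have hg : g = 0 := le_antisymm h7 g0
      subst hg
      rcases lt_or_ge (2 * e) p with h8 | h8
      · have : 2 * e + 1 ≤ p := by omega
        linarith
      · exfalso
        have hp : p = 2 * e := le_antisymm h8 p0
        have h9 : (4 : ℤ) ≤ h := by
          rcases h5 with h10 | h10
          · omega
          · exact h10
        rcases lt_or_ge e 1 with h10 | h10
        · have he : e = 0 := by omega
          subst he
          apply hxx
          refine ⟨?_, ?_, rfl⟩ <;> omega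
        · have h11 := e7' h10
          have he3 : e ≤ 2 := by omega
          have : e = 1 ∨ e = 2 := by omega
          rcases this with rfl | rfl
          · have : n ≤ 5 := by omega
            have : m = 1 ∨ m = 3 := by omega
            omega
          · omega

end Stg

end Pool.Agent.Hyp6
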