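import Pool.Agent.Hyp6.L3Dl
import Pool.Agent.Hyp6.L3Nc
import Pool.Agent.Hyp6.L3K4

/-!
# HYP6 L3ZM: the merged node

`Mrg B Q L M i0`: two separated connected critical sets `L`, `M` with value `-1` and a full block
`T = B i0` seeing both, such that `L` and `M` do not absorb `T` but absorb every two points of `T`. Then
`Z = L + M + T` is connected and critical with value `-1` and one block more.
-/

set_option autoImplicit false

namespace Pool.Agent.Hyp6

open Finset Pool.Agent.Hyp5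

universe u v

variable {V : Type v} [DecidableEq V] {ι : Type u} [Fintype ι] {B : ι → Finset V}

/-- the merged node. -/
def Zm (B : ι → Finset V) (Q L M : Finset V) (i0 : ι) : Finset V := (L ∪ M) ∪ (B i0 ∩ Q)

/-- two sets joined by a full block. -/
structure Mrg (B : ι → Finset V) (Q L M : Finset V) (i0 : ι) : Prop where
  cov : Cov B Q
  c3 : (B i0 ∩ Q).card = 3
  LQ : L ⊆ Q \ (B i0 ∩ Q)
  MQ : M ⊆ Q \ (B i0 ∩ Q)
  dis : Disjoint L M
  sep : Sep B L M
  cL : Conn (gr B) L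
  cM : Conn (gr B) M
  crL : Crit B L
  crM : Crit B M
  svL : sv B L = -1
  svM : sv B M = -1
  seeL : ∃ t ∈ B i0 ∩ Q, (Ez B L t).Nonempty
  seeM : ∃ t ∈ B i0 ∩ Q, (Ez B M t).Nonempty
  full : rho B L + rho B M + 1 ≤ rho B (Zm B Q L M i0)
  pair : ∀ t ∈ B i0 ∩ Q, rho B ((L ∪ M) ∪ (B i0 ∩ Q).erase t) ≤ rho B L + rho B M

namespace Mrg

variable {Q L M : Finset V} {i0 : ι}

theorem symm (h : Mrg B Q L M i0) : Mrg B Q M L i0 where
  cov := h.cov
  c3 := h.c3
  LQ := h.MQ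
  MQ := h.LQ
  dis := h.dis.symm
  sep := fun i h1 h2 => h.sep i h2 h1
  cL := h.cM
  cM := h.cL
  crL := h.crM
  crM := h.crL
  svL := h.svM
  svM := h.svL
  seeL := h.seeM
  seeM := h.seeL
  full := by
    have h1 := h.full
    unfold Zm at h1 ⊢
    rw [union_comm M L, Nat.add_comm (rho B M)]
    exact h1
  pair := fun t ht => by
    rw [union_comm M L, Nat.add_comm (rho B M)]
    exact h.pair t ht

theorem subQ (h : Mrg B Q L M i0) : Zm B Q L M i0 ⊆ Q :=
  union_subset (union_subset (h.LQ.trans sdiff_subset) (h.MQ.trans sdiff_subset)) inter_subset_right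

theorem covL (h : Mrg B Q L M i0) : Cov B L := h.cov.mono (h.LQ.trans sdiff_subset)

theorem covM (h : Mrg B Q L M i0) : Cov B M := h.cov.mono (h.MQ.trans sdiff_subset)

theorem covT (h : Mrg B Q L M i0) : Cov B (B i0 ∩ Q) := h.cov.mono inter_subset_right

theorem covZ (h : Mrg B Q L M i0) : Cov B (Zm B Q L M i0) := h.cov.mono h.subQ

theorem disT (h : Mrg B Q L M i0) : Disjoint (L ∪ M) (B i0 ∩ Q) := by
  rw [disjoint_left]
  intro v hv hv'
  rcases mem_union.1 hv with h1 | h1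
  · exact (mem_sdiff.1 (h.LQ h1)).2 hv'
  · exact (mem_sdiff.1 (h.MQ h1)).2 hv'

/-- the cover number. -/
theorem rhoZ (h : Mrg B Q L M i0) : rho B (Zm B Q L M i0) = rho B L + rho B M + 1 := by
  refine le_antisymm ?_ h.full
  have h1 : rho B (B i0 ∩ Q) ≤ 1 := by
    refine (rho_le (T := {i0}) ?_).trans (by simp)
    rw [singleton_biUnion]
    exact inter_subset_left
  have h2 := rho_union_le (B := B) (W := L ∪ M) (W' := B i0 ∩ Q) (h.covL.union h.covM) h.covT
  have h3 := rho_union_le (B := B) (W := L) (W' := M) h.covL h.covM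
  unfold Zm
  omega

theorem rhoLM (h : Mrg B Q L M i0) : rho B (L ∪ M) = rho B L + rho B M :=
  rho_add h.covL h.covM h.sep

theorem cardZ (h : Mrg B Q L M i0) : (Zm B Q L M i0).card = L.card + M.card + 3 := by
  unfold Zm
  rw [card_union_of_disjoint h.disT, card_union_of_disjoint h.dis, h.c3]

/-- the value. -/
theorem svZ (h : Mrg B Q L M i0) : sv B (Zm B Q L M i0) = -1 := by
  have h1 := h.svL
  have h2 := h.svM
  unfold sv at h1 h2 ⊢
  rw [h.rhoZ, h.cardZ]
  push_cast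
  linarith

/-- the merged node is critical. -/
theorem crit (h : Mrg B Q L M i0) : Crit B (Zm B Q L M i0) := by
  intro v hv
  have h1 := h.rhoZ
  have h0 := rho_le_erase (x := v) h.covZ
  have hT1 : rho B (B i0 ∩ Q) ≤ 1 := by
    refine (rho_le (T := {i0}) ?_).trans (by simp)
    rw [singleton_biUnion]
    exact inter_subset_left
  have key : ∀ A A' : Finset V, v ∈ A → A ⊆ Q → A' ⊆ Q → (Zm B Q L M i0) = (A ∪ A') ∪ (B i0 ∩ Q) →
      rho B (A.erase v) + 1 = rho B A → rho B A + rho B A' = rho B L + rho B M →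
      rho B ((Zm B Q L M i0).erase v) ≤ rho B L + rho B M := by
    intro A A' hvA hA hA' he h2 h3
    have hcA : Cov B (A.erase v) := h.cov.mono ((erase_subset _ _).trans hA)
    have hcA' : Cov B A' := h.cov.mono hA'
    have h4 := rho_union_le (B := B) (W := A.erase v) (W' := A') hcA hcA'
    have h5 := rho_union_le (B := B) (W := A.erase v ∪ A') (W' := B i0 ∩ Q) (hcA.union hcA') h.covT
    have h6 : (Zm B Q L M i0).erase v ⊆ (A.erase v ∪ A') ∪ (B i0 ∩ Q) := by
      intro w hw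
      obtain ⟨hw1, hw2⟩ := mem_erase.1 hw
      rw [he] at hw2
      rcases mem_union.1 hw2 with h7 | h7
      · rcases mem_union.1 h7 with h8 | h8
        · exact mem_union_left _ (mem_union_left _ (mem_erase.2 ⟨hw1, h8⟩))
        · exact mem_union_left _ (mem_union_right _ h8)
      · exact mem_union_right _ h7
    have h7 := rho_mono h6 ((hcA.union hcA').union h.covT)
    omega
  have hle : rho B ((Zm B Q L M i0).erase v) ≤ rho B L + rho B M := by
    unfold Zm at hv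
    rcases mem_union.1 hv with h2 | h2
    · rcases mem_union.1 h2 with h3 | h3
      · exact key L M h3 (h.LQ.trans sdiff_subset) (h.MQ.trans sdiff_subset) rfl (h.crL v h3) rfl
      · refine key M L h3 (h.MQ.trans sdiff_subset) (h.LQ.trans sdiff_subset) ?_ (h.crM v h3)
          (Nat.add_comm _ _)
        unfold Zm
        rw [union_comm M L]
    · refine (rho_mono ?_ ?_).trans (h.pair v h2)
      · intro w hw
        obtain ⟨hw1, hw2⟩ := mem_erase.1 hw
        unfold Zm at hw2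
        rcases mem_union.1 hw2 with h7 | h7
        · exact mem_union_left _ h7
        · exact mem_union_right _ (mem_erase.2 ⟨hw1, h7⟩)
      · exact (h.covL.union h.covM).union (h.covT.mono (erase_subset _ _))
  omega

/-- the merged node is connected. -/
theorem conn (h : Mrg B Q L M i0) : Conn (gr B) (Zm B Q L M i0) := by
  obtain ⟨l, hl⟩ := h.cL.1
  refine ⟨⟨l, mem_union_left _ (mem_union_left _ hl)⟩, fun S hS hne => ?_⟩
  have hSZ := hS.1
  -- a closed part meeting one of the three contains it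
  have hpart : ∀ A : Finset V, Conn (gr B) A → A ⊆ Zm B Q L M i0 → (S ∩ A).Nonempty → A ⊆ S := by
    intro A hA hAZ hSA
    have h1 : Closed (gr B) A (S ∩ A) := by
      refine ⟨inter_subset_right, fun x hx y hy hxy => ?_⟩
      exact mem_inter.2 ⟨hS.2 x (mem_inter.1 hx).1 y (hAZ hy) hxy, hy⟩
    have h2 := hA.2 _ h1 hSA
    intro v hv
    have : v ∈ S ∩ A := by
      rw [h2]
      exact hv
    exact (mem_inter.1 this).1
  have hLZ : L ⊆ Zm B Q L M i0 := subset_union_left.trans subset_union_left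
  have hMZ : M ⊆ Zm B Q L M i0 := subset_union_right.trans subset_union_left
  have hTZ : B i0 ∩ Q ⊆ Zm B Q L M i0 := subset_union_right
  have hT : (S ∩ (B i0 ∩ Q)).Nonempty → B i0 ∩ Q ⊆ S := by
    rintro ⟨x, hx⟩ y hy
    obtain ⟨hx1, hx2⟩ := mem_inter.1 hx
    by_cases he : x = y
    · exact he ▸ hx1
    · exact hS.2 x hx1 y (hTZ hy) ⟨he, i0, (mem_inter.1 hx2).1, (mem_inter.1 hy).1⟩
  have hsee : ∀ A : Finset V, Disjoint A (B i0 ∩ Q) → A ⊆ Zm B Q L M i0 →
      (∃ t ∈ B i0 ∩ Q, (Ez B A t).Nonempty) → ∃ t ∈ B i0 ∩ Q, ∃ a ∈ A, (gr B).Adj t a := by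
    rintro A hd _ ⟨t, ht, i, hi⟩
    obtain ⟨h1, a, ha⟩ := mem_Ez.1 hi
    obtain ⟨ha1, ha2⟩ := mem_inter.1 ha
    refine ⟨t, ht, a, ha2, ?_, i, h1, ha1⟩
    rintro rfl
    exact disjoint_left.1 hd ha2 ht
  obtain ⟨t1, ht1, a1, ha1, hadj1⟩ := hsee L (disjoint_of_subset_left subset_union_left h.disT)
    hLZ h.seeL
  obtain ⟨t2, ht2, a2, ha2, hadj2⟩ := hsee M (disjoint_of_subset_left subset_union_right h.disT)
    hMZ h.seeM
  have hTS : B i0 ∩ Q ⊆ S := by
    obtain ⟨v, hv⟩ := hne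
    have hv' := hSZ hv
    unfold Zm at hv'
    rcases mem_union.1 hv' with h2 | h2
    · rcases mem_union.1 h2 with h3 | h3
      · have h4 := hpart L h.cL hLZ ⟨v, mem_inter.2 ⟨hv, h3⟩⟩
        exact hT ⟨t1, mem_inter.2 ⟨hS.2 a1 (h4 ha1) t1 (hTZ ht1) hadj1.symm, ht1⟩⟩
      · have h4 := hpart M h.cM hMZ ⟨v, mem_inter.2 ⟨hv, h3⟩⟩
        exact hT ⟨t2, mem_inter.2 ⟨hS.2 a2 (h4 ha2) t2 (hTZ ht2) hadj2.symm, ht2⟩⟩
    · exact hT ⟨v, mem_inter.2 ⟨hv, h2⟩⟩
  refine Subset.antisymm hSZ fun v hv => ?_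
  unfold Zm at hv
  rcases mem_union.1 hv with h2 | h2
  · rcases mem_union.1 h2 with h3 | h3
    · exact hpart L h.cL hLZ ⟨a1, mem_inter.2 ⟨hS.2 t1 (hTS ht1) a1 (hLZ ha1) hadj1, ha1⟩⟩ h3
    · exact hpart M h.cM hMZ ⟨a2, mem_inter.2 ⟨hS.2 t2 (hTS ht2) a2 (hMZ ha2) hadj2, ha2⟩⟩ h3
  · exact hTS h2

theorem sdiffT (h : Mrg B Q L M i0) : Zm B Q L M i0 \ (B i0 ∩ Q) = L ∪ M := by
  unfold Zm
  rw [union_sdiff_right, sdiff_eq_self_of_disjoint h.disT]

/-- the potential: `ins` counts the blocks of the triple which miss `L` and `M` (with the triple). -/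
theorem Pv_Z (h : Mrg B Q L M i0) : Pv B (Zm B Q L M i0) = Pv B L + Pv B M - 9 +
    4 * ((ins B (Zm B Q L M i0) (B i0 ∩ Q)).card : ℤ) := by
  have h1 := Pv_sdiff (B := B) (W := Zm B Q L M i0) (X := B i0 ∩ Q) subset_union_right
  rw [h.sdiffT, Pv_add h.covL h.covM h.dis h.sep, h.rhoLM, h.rhoZ, h.c3] at h1
  push_cast at h1
  linarith

theorem ee_Z (h : Mrg B Q L M i0) : ee B Q (Zm B Q L M i0) = ee B Q L + ee B Q M +
    ee B Q (B i0 ∩ Q) := by
  unfold Zm
  rw [ee_union h.disT, ee_union h.dis]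

/-- the potential with the singles. -/
theorem dv_Z (h : Mrg B Q L M i0) (he : ee B Q (B i0 ∩ Q) = 0) :
    dv B Q (Zm B Q L M i0) = dv B Q L + dv B Q M - 9 +
    4 * ((ins B (Zm B Q L M i0) (B i0 ∩ Q)).card : ℤ) := by
  have h1 := h.Pv_Z
  have h2 := h.ee_Z
  rw [he] at h2
  unfold dv
  rw [h1, h2]
  push_cast
  ring

/-- a contact point is absorbed. -/
theorem abs1 (h : Mrg B Q L M i0) {v : V} (hv : (Ez B (Zm B Q L M i0) v).Nonempty) :
    Abz B (Zm B Q L M i0) {v} := by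
  obtain ⟨i, hi⟩ := hv
  exact h.crit.abz_block h.covZ (mem_Ez.1 hi).2 (singleton_subset_iff.2 (mem_Ez.1 hi).1)

/-- two points seeing `L` and `M` are absorbed together. -/
theorem two {L M : Finset V} (hcL : Cov B L) (hcM : Cov B M) (hL : Crit B L) (hM : Crit B M)
    {x y : V} (hx : (Ez B L x).Nonempty) (hy : (Ez B M y).Nonempty) :
    rho B ((L ∪ M) ∪ {x, y}) ≤ rho B L + rho B M := by
  obtain ⟨i, hi⟩ := hx
  obtain ⟨j, hj⟩ := hy
  obtain ⟨hi1, hi2⟩ := mem_Ez.1 hi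
  obtain ⟨hj1, hj2⟩ := mem_Ez.1 hj
  have h1 := hL.abz_block hcL hi2 (singleton_subset_iff.2 hi1)
  have h2 := hM.abz_block hcM hj2 (singleton_subset_iff.2 hj1)
  have h3 := h1.rho_le'
  have h4 := h2.rho_le'
  have hcx : Cov B ({x} : Finset V) := fun v hv => by
    rw [mem_singleton] at hv
    exact ⟨i, hv ▸ hi1⟩
  have hcy : Cov B ({y} : Finset V) := fun v hv => by
    rw [mem_singleton] at hv
    exact ⟨j, hv ▸ hj1⟩
  have h5 : (L ∪ M) ∪ {x, y} ⊆ (L ∪ {x}) ∪ (M ∪ {y}) := by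
    intro v hv
    simp only [mem_union, mem_insert, mem_singleton] at hv ⊢
    tauto
  have h6 := rho_mono h5 ((hcL.union hcx).union (hcM.union hcy))
  have h7 := rho_union_le (B := B) (hcL.union hcx) (hcM.union hcy)
  omega

/-- the condition on the pairs: two different points of the pair see `L` and `M`, or one of the sets
absorbs the pair. -/
theorem pair_of {L M : Finset V} (hcL : Cov B L) (hcM : Cov B M) (hL : Crit B L) (hM : Crit B M)
    {P : Finset V} (hP : (∃ x ∈ P, ∃ y ∈ P, P = {x, y} ∧ (Ez B L x).Nonempty ∧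
      (Ez B M y).Nonempty) ∨ Abz B L P ∨ Abz B M P) :
    rho B ((L ∪ M) ∪ P) ≤ rho B L + rho B M := by
  rcases hP with ⟨x, _, y, _, he, hx, hy⟩ | hP | hP
  · rw [he]
    exact two hcL hcM hL hM hx hy
  · obtain ⟨S, hS, hSc⟩ := hP
    have hc : Cov B (L ∪ P) := fun v hv => by
      obtain ⟨i, _, hi⟩ := mem_biUnion.1 (hS hv)
      exact ⟨i, hi⟩
    have h1 := (rho_le hS).trans hSc
    have h2 := rho_union_le (B := B) (W := L ∪ P) (W' := M) hc hcM
    have h3 : (L ∪ M) ∪ P = (L ∪ P) ∪ M := by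
      rw [union_assoc, union_assoc, union_comm M P]
    rw [h3]
    omega
  · obtain ⟨S, hS, hSc⟩ := hP
    have hc : Cov B (M ∪ P) := fun v hv => by
      obtain ⟨i, _, hi⟩ := mem_biUnion.1 (hS hv)
      exact ⟨i, hi⟩
    have h1 := (rho_le hS).trans hSc
    have h2 := rho_union_le (B := B) (W := L) (W' := M ∪ P) hcL hc
    have h3 : (L ∪ M) ∪ P = L ∪ (M ∪ P) := union_assoc _ _ _
    rw [h3]
    omega

/-- **the merged node in a violation**: its potential is at least the minimum. -/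
theorem dv_ge (h : Mrg B Q L M i0) (hv : ViolR B Q) :
    8 ≤ dv B Q L + dv B Q M + 4 * ((ins B (Zm B Q L M i0) (B i0 ∩ Q)).card : ℤ) := by
  have h1 := h.dv_Z (hv.eeT h.c3)
  have hs := h.svZ
  have hlt : (Zm B Q L M i0).card < Q.card := by
    refine card_lt_card ⟨h.subQ, fun hQ => ?_⟩
    have h2 : Zm B Q L M i0 = Q := Subset.antisymm h.subQ hQ
    have h3 := hv.sv1
    rw [h2] at hs
    omega
  have hnK : ¬ KT B (Zm B Q L M i0) := by
    intro hK
    have hodd := odd_of_sv_neg_one hs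
    have := hK.1
    omega
  have h2 := hv.ih ι B (Zm B Q L M i0) hlt (hv.reg.mono h.subQ) (hv.tr.mono h.subQ) h.conn hnK
  have h3 : ee B Q (Zm B Q L M i0) ≤ ee B (Zm B Q L M i0) (Zm B Q L M i0) :=
    ee_le_ee (Subset.refl _) h.subQ
  have h4 : (ee B Q (Zm B Q L M i0) : ℤ) ≤ ee B (Zm B Q L M i0) (Zm B Q L M i0) := by
    exact_mod_cast h3
  unfold dv at h1 ⊢
  linarith

end Mrg

namespace Frm

variable {Q U : Finset V} {T : Finset ι} {F : Finset (Finset V)}

/-- the merged node as a piece of the frame. -/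
theorem Zm_eq (L M : Finset V) (j : ι) :
    Zm B Q L M j = Zn B Q {j} ∅ {L, M} ∅ := by
  ext v
  unfold Zm
  rw [mem_Zn]
  simp only [mem_union, mem_inter, mem_singleton, mem_insert, exists_eq_left, notMem_empty,
    exists_eq_or_imp, false_or, or_false]
  tauto

/-- the cover number of the merged node. -/
theorem rho_Zm (h : Frm B Q T U F) {j : ι} (hj : j ∈ T) {L M : Finset V} (hL : L ∈ F)
    (hM : M ∈ F) (hne : L ≠ M)
    (hfree : ∀ Z ⊆ U, Z.card ≤ (nbF (gr B) (F \ {L, M}) Z).card) :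
    rho B (Zm B Q L M j) = rho B L + rho B M + 1 := by
  classical
  obtain ⟨g, hg⟩ := mti_of_hall hfree
  have hA : ({L, M} : Finset (Finset V)) ⊆ F := by
    intro C hC
    rw [mem_insert, mem_singleton] at hC
    rcases hC with rfl | rfl
    · exact hL
    · exact hM
  have h1 := h.rho_cls hA Dcl.empty (T' := {j}) (singleton_subset_iff.2 hj)
    (U' := ∅) (empty_subset _) (g' := g)
    ⟨fun p hp => absurd hp (notMem_empty _), fun p hp => absurd hp (notMem_empty _),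
      fun p hp => absurd hp (notMem_empty _)⟩ (g := g) (by rw [sdiff_empty]; exact hg)
  rw [Zm_eq, h1, sum_pair hne, card_singleton, rho_empty]

/-- the rest. -/
theorem rho_Zm_rest (h : Frm B Q T U F) {j : ι} (hj : j ∈ T) {L M : Finset V} (hL : L ∈ F)
    (hM : M ∈ F) (hne : L ≠ M)
    (hfree : ∀ Z ⊆ U, Z.card ≤ (nbF (gr B) (F \ {L, M}) Z).card) :
    rho B (Zm B Q L M j) + rho B (Q \ Zm B Q L M j) = rho B Q := by
  classical
  obtain ⟨g, hg⟩ := mti_of_hall hfree
  have hA : ({L, M} : Finset (Finset V)) ⊆ F := by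
    intro C hC
    rw [mem_insert, mem_singleton] at hC
    rcases hC with rfl | rfl
    · exact hL
    · exact hM
  have h0 := h.rho_Zm hj hL hM hne hfree
  have hUQ : U ⊆ Q := h.UD.trans DQ
  have h2 : rho B (Zn B Q (T \ {j}) U (F \ {L, M}) (Ep B Q T U F)) ≤
      ∑ C ∈ F \ {L, M}, rho B C + rho B (Ep B Q T U F) + (T \ {j}).card :=
    h.rho_Zn_le sdiff_subset hUQ (Subset.refl _)
      (fun C hC => h.ge.FU C (mem_sdiff.1 hC).1) hg
  have hrQ : Zn B Q (T \ {j}) U (F \ {L, M}) (Ep B Q T U F) ⊆ Q :=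
    h.Zn_sub sdiff_subset hUQ (Subset.refl _)
  have h3 : rho B (Q \ Zm B Q L M j) ≤
      rho B (Zn B Q (T \ {j}) U (F \ {L, M}) (Ep B Q T U F)) := by
    refine rho_mono ?_ (h.cov.mono hrQ)
    intro v hv
    obtain ⟨hvQ, hvZ⟩ := mem_sdiff.1 hv
    rw [mem_Zn]
    by_cases hvT : v ∈ T.biUnion B
    · obtain ⟨k, hk, hvk⟩ := mem_biUnion.1 hvT
      refine Or.inl ⟨k, mem_sdiff.2 ⟨hk, ?_⟩, hvk, hvQ⟩
      rw [mem_singleton]
      rintro rfl
      exact hvZ (mem_union_right _ (mem_inter.2 ⟨hvk, hvQ⟩))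
    by_cases hvU : v ∈ U
    · exact Or.inr (Or.inl hvU)
    by_cases hvF : v ∈ F.biUnion id
    · obtain ⟨C, hC, hvC⟩ := mem_biUnion.1 hvF
      refine Or.inr (Or.inr (Or.inl ⟨C, mem_sdiff.2 ⟨hC, ?_⟩, hvC⟩))
      rw [mem_insert, mem_singleton]
      rintro (rfl | rfl)
      · exact hvZ (mem_union_left _ (mem_union_left _ hvC))
      · exact hvZ (mem_union_left _ (mem_union_right _ hvC))
    · exact Or.inr (Or.inr (Or.inr (mem_sdiff.2 ⟨mem_sdiff.2 ⟨mem_sdiff.2 ⟨hvQ, hvT⟩, hvU⟩, hvF⟩)))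
  have h5 := h.rho_split
  have h7 : ∑ C ∈ F \ {L, M}, rho B C + ∑ C ∈ ({L, M} : Finset (Finset V)), rho B C =
      ∑ C ∈ F, rho B C := sum_sdiff hA
  rw [sum_pair hne] at h7
  have h8 := card_sdiff_add_card_eq_card (singleton_subset_iff.2 hj)
  rw [card_singleton] at h8
  have hZQ : Zm B Q L M j ⊆ Q := by
    refine union_subset (union_subset (h.FQ hL) (h.FQ hM)) inter_subset_right
  have h9 := rho_union_le (B := B) (W := Zm B Q L M j) (W' := Q \ Zm B Q L M j)
    (h.cov.mono hZQ) (h.cov.mono sdiff_subset)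
  rw [union_sdiff_of_subset hZQ] at h9
  omega

/-- a leaf is critical. -/
theorem crit_leaf' (h : Frm B Q T U F) {L : Finset V} (hL : L ∈ F) : Crit B L := by
  intro x hx
  obtain ⟨hf, hs⟩ := h.fcF hL
  have h1 := rho_erase_fc hf hs hx
  have h2 := rho_le_erase (x := x) (h.cov.mono (h.FQ hL))
  omega

/-- a leaf is connected. -/
theorem conn_leaf' (h : Frm B Q T U F) {L : Finset V} (hL : L ∈ F) : Conn (gr B) L :=
  ⟨(h.ge.sys.fc L hL).1, fun _ hZ hne => (h.ge.sys.fc L hL).conn hZ hne⟩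

/-- a leaf lies outside the triples. -/
theorem leaf_out (h : Frm B Q T U F) {j : ι} (hj : j ∈ T) {L : Finset V} (hL : L ∈ F) :
    L ⊆ Q \ (B j ∩ Q) := by
  intro v hv
  have h1 := mem_sdiff.1 (h.FD hL hv)
  exact mem_sdiff.2 ⟨h1.1, fun h2 => h1.2 (mem_biUnion.2 ⟨j, hj, (mem_inter.1 h2).1⟩)⟩

/-- **the merged node of a frame.** -/
theorem mrg (h : Frm B Q T U F) {j : ι} (hj : j ∈ T) {L M : Finset V} (hL : L ∈ F)
    (hM : M ∈ F) (hne : L ≠ M)
    (hfree : ∀ Z ⊆ U, Z.card ≤ (nbF (gr B) (F \ {L, M}) Z).card)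
    (hsL : ∃ t ∈ B j ∩ Q, (Ez B L t).Nonempty) (hsM : ∃ t ∈ B j ∩ Q, (Ez B M t).Nonempty)
    (hpair : ∀ t ∈ B j ∩ Q, rho B ((L ∪ M) ∪ (B j ∩ Q).erase t) ≤ rho B L + rho B M) :
    Mrg B Q L M j where
  cov := h.cov
  c3 := h.mtp.tpk.pack.card j hj
  LQ := h.leaf_out hj hL
  MQ := h.leaf_out hj hM
  dis := h.ge.sys.disj L hL M hM hne
  sep := (h.sepF L hL M hM hne).2
  cL := h.conn_leaf' hL
  cM := h.conn_leaf' hM
  crL := h.crit_leaf' hL
  crM := h.crit_leaf' hM
  svL := h.sv_leaf hL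
  svM := h.sv_leaf hM
  seeL := hsL
  seeM := hsM
  full := (h.rho_Zm hj hL hM hne hfree).ge
  pair := hpair

end Frm

end Pool.Agent.Hyp6
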