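import Pool.Agent.Hyp6.L3Tb
import Pool.Agent.Hyp6.L3Fa
import Pool.Agent.Hyp6.L3Tx
import Pool.Agent.Hyp6.L3Dl
import Pool.Agent.Hyp6.L3Zm
import Pool.Agent.Hyp6.L3Ne

/-!
# HYP6 L3Tc: the rules of the table `L3Tb` for a leaf of a frame

`Cr3.ref`, `Cr3.refm`: refused pairs, also with a merged point. `ViolR.trow`: the numbers of a triple
of the frame at a leaf which is its own class satisfy the rules `TRow`.
-/

set_option autoImplicit false

namespace Pool.Agent.Hyp6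

open Finset Pool.Agent.Hyp5 Rt

universe u v

section ref

variable {V : Type v} [DecidableEq V] {ι : Type u} [Fintype ι] {B : ι → Finset V}
variable {Q C : Finset V}

/-- two points with four hits each. -/
theorem Cr3.pt2d (h : Cr3 B Q C) (hd : lv B Q C ≤ 8) {z1 z2 : V} (h1Q : z1 ∈ Q) (h1 : z1 ∉ C)
    (h2Q : z2 ∈ Q) (h2 : z2 ∉ C) (h12 : z1 ≠ z2) (hE1 : 4 ≤ (Ez B C z1).card)
    (hE2 : 4 ≤ (Ez B C z2).card) : Abz B C {z1, z2} := by
  classical
  obtain ⟨S1, hS1, hc1⟩ := exists_subset_card_eq hE1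
  obtain ⟨S2, hS2, hc2⟩ := exists_subset_card_eq hE2
  obtain ⟨E, hi1, hi2⟩ : ∃ E : V → Finset ι, E z1 = S1 ∧ E z2 = S2 :=
    ⟨fun y => if y = z1 then S1 else S2, if_pos rfl, if_neg (fun h => h12 h.symm)⟩
  have hor : ∀ y ∈ ({z1, z2} : Finset V), y = z1 ∨ y = z2 := fun y hy => by simpa using hy
  refine h.gen (Y := {z1, z2}) (E := E) (κ := Fin 1) (N := fun _ => {z1, z2}) (Y2 := ∅)
    ?_ ?_ ?_ ?_ ?_ ?_ ?_ ?_ ?_ ?_ (empty_subset _) (by simp)
    (by rw [card_pair h12]) ?_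
  · intro y hy
    rcases hor y hy with rfl | rfl
    · exact h1Q
    · exact h2Q
  · rw [disjoint_right]
    intro y hy
    rcases hor y hy with rfl | rfl
    · exact h1
    · exact h2
  · intro y hy
    rcases hor y hy with rfl | rfl
    · rw [hi1]
      exact hS1
    · rw [hi2]
      exact hS2
  · intro y hy
    rcases hor y hy with rfl | rfl
    · rw [hi1, ← card_pos, hc1]
      norm_num
    · rw [hi2, ← card_pos, hc2]
      norm_num
  · intro c
    exact Subset.refl _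
  · intro c
    exact insert_nonempty _ _
  · intro c
    exact card_le_two.trans (by norm_num)
  · intro y hy
    have h5 : (univ.filter (fun _ : Fin 1 => y ∈ ({z1, z2} : Finset V))) = univ :=
      filter_true_of_mem fun _ _ => hy
    rw [h5, card_univ, Fintype.card_fin]
    rcases hor y hy with rfl | rfl
    · rw [hi1, hc1]
    · rw [hi2, hc2]
  · exact ⟨0, card_le_two⟩
  · rw [card_pair h12]
    have := h.card
    omega
  · rw [card_pair h12, Fintype.card_fin, card_empty]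
    push_cast
    linarith

open Classical in
/-- merged pair `(3, 3)`. -/
theorem Cr3.mrg33 (h : Cr3 B Q C) (hd : lv B Q C ≤ 4) {y z1 z2 : V} (hyQ : y ∈ Q) (hyC : y ∉ C)
    (h1Q : z1 ∈ Q) (h1C : z1 ∉ C) (h2Q : z2 ∈ Q) (h2C : z2 ∉ C) (hy1 : y ≠ z1) (hy2 : y ≠ z2)
    (hE1 : 3 ≤ (Ez B C y).card) (hE2 : 3 ≤ (Ez B C z1 ∪ Ez B C z2).card) :
    Abz B C {y, z1} ∨ Abz B C {y, z2} := by
  obtain ⟨S1, hS1, hc1⟩ := exists_subset_card_eq hE1
  obtain ⟨S2, hS2, hc2⟩ := exists_subset_card_eq hE2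
  refine h.mrgT hyQ hyC h1Q h1C h2Q h2C hy1 hy2 hS1 hS2 (card_pos.1 (by omega))
    (card_pos.1 (by omega)) (κ := Fin 2) (N := fun _ => {y, z1}) (Y2 := ∅)
    (fun _ => Subset.refl _) (fun _ => insert_nonempty _ _) ?_ ?_ ⟨0⟩ (empty_subset _)
    (by simp) ?_
  · intro n hn _
    have h5 : univ.filter n = univ := filter_true_of_mem fun c _ => (hn c).2 (by simp)
    rw [h5, hc1, card_univ, Fintype.card_fin]
  · intro n hn _
    have h5 : univ.filter n = univ := filter_true_of_mem fun c _ => (hn c).2 (by simp)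
    rw [h5, hc2, card_univ, Fintype.card_fin]
  · rw [Fintype.card_fin, card_empty]
    push_cast
    linarith

open Classical in
/-- merged pair `(4, 4)`. -/
theorem Cr3.mrg44 (h : Cr3 B Q C) (hd : lv B Q C ≤ 8) {y z1 z2 : V} (hyQ : y ∈ Q) (hyC : y ∉ C)
    (h1Q : z1 ∈ Q) (h1C : z1 ∉ C) (h2Q : z2 ∈ Q) (h2C : z2 ∉ C) (hy1 : y ≠ z1) (hy2 : y ≠ z2)
    (hE1 : 4 ≤ (Ez B C y).card) (hE2 : 4 ≤ (Ez B C z1 ∪ Ez B C z2).card) :
    Abz B C {y, z1} ∨ Abz B C {y, z2} := by
  obtain ⟨S1, hS1, hc1⟩ := exists_subset_card_eq hE1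
  obtain ⟨S2, hS2, hc2⟩ := exists_subset_card_eq hE2
  refine h.mrgT hyQ hyC h1Q h1C h2Q h2C hy1 hy2 hS1 hS2 (card_pos.1 (by omega))
    (card_pos.1 (by omega)) (κ := Fin 1) (N := fun _ => {y, z1}) (Y2 := ∅)
    (fun _ => Subset.refl _) (fun _ => insert_nonempty _ _) ?_ ?_ ⟨0⟩ (empty_subset _)
    (by simp) ?_
  · intro n hn _
    have h5 : univ.filter n = univ := filter_true_of_mem fun c _ => (hn c).2 (by simp)
    rw [h5, hc1, card_univ, Fintype.card_fin]
  · intro n hn _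
    have h5 : univ.filter n = univ := filter_true_of_mem fun c _ => (hn c).2 (by simp)
    rw [h5, hc2, card_univ, Fintype.card_fin]
  · rw [Fintype.card_fin, card_empty]
    push_cast
    linarith

open Classical in
/-- merged pair `(4, 2)`. -/
theorem Cr3.mrg42 (h : Cr3 B Q C) (hd : lv B Q C ≤ 2) {y z1 z2 : V} (hyQ : y ∈ Q) (hyC : y ∉ C)
    (h1Q : z1 ∈ Q) (h1C : z1 ∉ C) (h2Q : z2 ∈ Q) (h2C : z2 ∉ C) (hy1 : y ≠ z1) (hy2 : y ≠ z2)
    (hE1 : 4 ≤ (Ez B C y).card) (hE2 : 2 ≤ (Ez B C z1 ∪ Ez B C z2).card) :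
    Abz B C {y, z1} ∨ Abz B C {y, z2} := by
  obtain ⟨S1, hS1, hc1⟩ := exists_subset_card_eq hE1
  obtain ⟨S2, hS2, hc2⟩ := exists_subset_card_eq hE2
  refine h.mrgT hyQ hyC h1Q h1C h2Q h2C hy1 hy2 hS1 hS2 (card_pos.1 (by omega))
    (card_pos.1 (by omega)) (κ := Fin 3) (N := fun c => if c = 0 then {y, z1} else {z1})
    (Y2 := {z1}) ?_ ?_ ?_ ?_ ⟨0⟩ (by simp) ?_ ?_
  · intro c
    split_ifs
    · exact Subset.refl _
    · simp
  · intro c
    split_ifs
    · exact insert_nonempty _ _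
    · exact singleton_nonempty _
  · intro n hn _
    have h5 : univ.filter n = {0} := by
      ext c
      rw [mem_filter, hn c, mem_singleton]
      by_cases hc : c = 0
      · simp [hc]
      · simp [hc, hy1]
    rw [h5, hc1, card_singleton]
  · intro n hn _
    have h5 : univ.filter n = univ := filter_true_of_mem fun c _ => (hn c).2 (by
      split_ifs <;> simp)
    rw [h5, hc2, card_univ, Fintype.card_fin]
  · intro v hv
    rw [mem_singleton.1 hv]
    have h6 : ({1, 2} : Finset (Fin 3)) ⊆ univ.filter (fun c : Fin 3 =>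
        (if c = 0 then ({y, z1} : Finset V) else {z1}) = {z1}) := by
      intro c hc
      rw [mem_filter]
      refine ⟨mem_univ _, ?_⟩
      rw [if_neg]
      rintro rfl
      simp at hc
    have h7 := card_le_card h6
    have h8 : ({1, 2} : Finset (Fin 3)).card = 2 := by decide
    omega
  · rw [Fintype.card_fin, card_singleton]
    push_cast
    linarith

/-- **a refused pair.** -/
theorem Cr3.ref (h : Cr3 B Q C) (hs : sv B C = -1) {x y : V} (hx : x ∈ Q) (hxC : x ∉ C)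
    (hy : y ∈ Q) (hyC : y ∉ C) (hxy : x ≠ y) (hn : ¬ Abz B C {x, y}) :
    refP (dv B Q C + 1).toNat (Ez B C x).card (Ez B C y).card := by
  have h0 := lv_neg (Q := Q) hs.le
  have hn' : ¬ Abz B C {y, x} := by rwa [pair_comm]
  refine ⟨fun h1 h2 => ?_, fun h1 h2 => ?_, fun h1 h2 => ?_, fun h1 h2 => ?_, fun h1 h2 => ?_⟩
  · by_contra h3
    exact hn (h.pt2 (by omega) hx hxC hy hyC hxy h1 h2)
  · by_contra h3
    exact hn (h.pt2c (by omega) hx hxC hy hyC hxy h1 h2)
  · by_contra h3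
    exact hn' (h.pt2c (by omega) hy hyC hx hxC hxy.symm h2 h1)
  · by_contra h3
    exact hn (h.pt2b (by omega) hx hxC hy hyC hxy h1 h2)
  · by_contra h3
    exact hn (h.pt2d (by omega) hx hxC hy hyC hxy h1 h2)

/-- **a point refused with two other points.** -/
theorem Cr3.refm (h : Cr3 B Q C) (hs : sv B C = -1) {x y z : V} (hx : x ∈ Q) (hxC : x ∉ C)
    (hy : y ∈ Q) (hyC : y ∉ C) (hz : z ∈ Q) (hzC : z ∉ C) (hxy : x ≠ y) (hxz : x ≠ z)
    [DecidableEq ι] (h1 : ¬ Abz B C {x, y}) (h2 : ¬ Abz B C {x, z}) :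
    refP (dv B Q C + 1).toNat (Ez B C x).card
      ((Ez B C y).card + (Ez B C z).card - (Ez B C y ∩ Ez B C z).card) := by
  have h0 := lv_neg (Q := Q) hs.le
  have hn : ¬ (Abz B C {x, y} ∨ Abz B C {x, z}) := by tauto
  have hu : (Ez B C y).card + (Ez B C z).card - (Ez B C y ∩ Ez B C z).card =
      (Ez B C y ∪ Ez B C z).card := by
    have := card_union_add_card_inter (Ez B C y) (Ez B C z)
    omega
  rw [hu]
  refine ⟨fun h3 h4 => ?_, fun h3 h4 => ?_, fun h3 h4 => ?_, fun h3 h4 => ?_, fun h3 h4 => ?_⟩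
  · by_contra h5
    exact hn (h.mrg22 (by omega) hx hxC hy hyC hz hzC hxy hxz h3 (by convert h4))
  · by_contra h5
    exact hn (h.mrg42 (by omega) hx hxC hy hyC hz hzC hxy hxz h3 (by convert h4))
  · by_contra h5
    exact hn (h.mrg24 (by omega) hx hxC hy hyC hz hzC hxy hxz h3 (by convert h4))
  · by_contra h5
    exact hn (h.mrg33 (by omega) hx hxC hy hyC hz hzC hxy hxz h3 (by convert h4))
  · by_contra h5
    exact hn (h.mrg44 (by omega) hx hxC hy hyC hz hzC hxy hxz h3 (by convert h4))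

end ref

section row

variable {V : Type v} [DecidableEq V] {ι : Type u} [Fintype ι] {B : ι → Finset V}
  {Q U : Finset V} {T : Finset ι} {F : Finset (Finset V)} {L : Finset V} {j : ι}

/-- the leaves have three points less than the whole. -/
theorem Frm.card_lt' (h : Frm B Q T U F) (hj : j ∈ T) (hL : L ∈ F) : L.card + 3 ≤ Q.card := by
  have h1 := card_le_card (h.leaf_out hj hL)
  have h2 := h.full hj
  have h3 := card_le_card (inter_subset_right : B j ∩ Q ⊆ Q)
  rw [card_sdiff_of_subset inter_subset_right, h2] at h1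
  omega

namespace ViolR

/-- absorption at a leaf. -/
theorem cr3 (hv : ViolR B Q) (h : Frm B Q T U F) (hj : j ∈ T) (hL : L ∈ F) : Cr3 B Q L where
  ih := hv.ih
  reg := hv.reg
  tr := hv.tr
  cq := hv.conn
  sub := h.FQ hL
  conn := h.conn_leaf' hL
  card := h.card_lt' hj hL
  ihr := hv.ihr

/-- the numbers of a leaf. -/
theorem one' (hv : ViolR B Q) (h : Frm B Q T U F) (hL : L ∈ F) :
    NumL (Pp B L) (nt B L 1) L.card (fs B Q L) (ee B Q L) (hit B U L)
      (∑ j ∈ T, (jh B Q j L : ℤ)) := by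
  classical
  exact h.one hv.reg hL (hv.leaf_dv h hL)

/-- the value of a leaf is odd. -/
theorem even_dv (hv : ViolR B Q) (h : Frm B Q T U F) (hL : L ∈ F) :
    Even (dv B Q L + 1).toNat ∧ dv B Q L = Pp B L - 1 - 2 * ee B Q L ∧ -1 ≤ dv B Q L := by
  have h1 := hv.one' h hL
  have h2 := hv.leaf_dv h hL
  have h3 := Pv_eq_Pp (B := B) L
  have h4 := h.sv_leaf hL
  have h5 : dv B Q L = Pp B L - 1 - 2 * ee B Q L := by
    unfold dv
    rw [h4] at h3
    linarith
  refine ⟨?_, h5, h2⟩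
  have h6 := h1.pp
  have h7 := h1.mo
  rw [Nat.even_iff]
  omega

/-- the hits from outside. -/
theorem hit_out (h : Frm B Q T U F) (hj : j ∈ T) (hL : L ∈ F) :
    hit B (Q \ L) L = hit B (B j ∩ Q) L + hit B ((Q \ (B j ∩ Q)) \ L) L := by
  have h0 := h.leaf_out hj hL
  rw [← hit_union_left]
  · congr 1
    ext v
    simp only [mem_sdiff, mem_union, mem_inter]
    constructor
    · rintro ⟨h5, h6⟩
      by_cases h7 : v ∈ B j
      · exact Or.inl ⟨h7, h5⟩
      · exact Or.inr ⟨⟨h5, fun h8 => h7 h8.1⟩, h6⟩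
    · rintro (h5 | h5)
      · refine ⟨h5.2, fun h6 => ?_⟩
        exact (mem_sdiff.1 (h0 h6)).2 (mem_inter.2 h5)
      · exact ⟨h5.1.1, h5.2⟩
  · rw [disjoint_left]
    intro v hv hv'
    exact (mem_sdiff.1 (mem_sdiff.1 hv').1).2 hv

/-- the places of a leaf. -/
theorem places (hv : ViolR B Q) (h : Frm B Q T U F) (hj : j ∈ T) (hL : L ∈ F) :
    6 * (hit B (B j ∩ Q) L + hit B ((Q \ (B j ∩ Q)) \ L) L) + 23 * ee B Q L + nt B L 1 ≤
      5 * (dv B Q L + 1).toNat + 55 := by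
  classical
  have h1 := hv.one' h hL
  obtain ⟨_, h2, h3⟩ := hv.even_dv h hL
  have h4 := hit_add_fsQ (hv.reg.mono (h.FQ hL)) (h.FQ hL)
  have h5 := hv.ee_fs (h.FQ hL)
  have h6 := three_Pp (B := B) L
  rw [h.sv_leaf hL] at h6
  rw [hit_out h hj hL] at h4
  have h7 := h1.pp
  push_cast at h4
  have h8 : ((dv B Q L + 1).toNat : ℤ) = dv B Q L + 1 := Int.toNat_of_nonneg (by omega)
  zify
  rw [h8]
  linarith

/-- the contact points of a leaf outside a triple. -/
theorem cpt_hit : (∑ v ∈ cpt B Q j L, (Ez B L v).card ≤ hit B ((Q \ (B j ∩ Q)) \ L) L) ∧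
    (∀ v ∈ cpt B Q j L, 1 ≤ (Ez B L v).card) ∧
    (cpt B Q j L).card ≤ ∑ v ∈ cpt B Q j L, (Ez B L v).card := by
  classical
  have h3 : ∀ v ∈ cpt B Q j L, 1 ≤ (Ez B L v).card := by
    intro v hv'
    unfold cpt at hv'
    obtain ⟨_, i, hi1, hi2⟩ := mem_filter.1 hv'
    exact card_pos.2 ⟨i, mem_Ez.2 ⟨hi1, hi2⟩⟩
  refine ⟨?_, h3, ?_⟩
  · rw [hit_eq_Ez]
    refine sum_le_sum_of_subset ?_
    unfold cpt
    exact filter_subset _ _
  · rw [card_eq_sum_ones]
    exact sum_le_sum h3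

/-- at least two hits from outside a triple. -/
theorem two_out (hv : ViolR B Q) (h : Frm B Q T U F) (hj : j ∈ T) (hL : L ∈ F) :
    2 ≤ hit B ((Q \ (B j ∩ Q)) \ L) L := by
  obtain ⟨h2, _, h4⟩ := cpt_hit (B := B) (Q := Q) (L := L) (j := j)
  exact (hv.cpt_two_le h hj hL).trans (h4.trans h2)

/-- at least three hits from outside a triple if the value is positive. -/
theorem three_out (hv : ViolR B Q) (h : Frm B Q T U F) (hj : j ∈ T) (hL : L ∈ F)
    (hP : 1 ≤ (dv B Q L + 1).toNat) : 3 ≤ hit B ((Q \ (B j ∩ Q)) \ L) L := by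
  classical
  by_contra hcon
  have h1 := hv.cpt_two_le h hj hL
  obtain ⟨h2, h3, h4⟩ := cpt_hit (B := B) (Q := Q) (L := L) (j := j)
  have h5 : (cpt B Q j L).card = 2 := by omega
  obtain ⟨p, q, hpq, he⟩ := card_eq_two.1 h5
  have hp : p ∈ cpt B Q j L := by rw [he]; simp
  have hq : q ∈ cpt B Q j L := by rw [he]; simp
  rw [he, sum_pair hpq] at h2
  have h6 := h3 p hp
  have h7 := h3 q hq
  have e1 : hit B {p} L = (Ez B L p).card := by rw [hit_eq_Ez, sum_singleton]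
  have e2 : hit B {q} L = (Ez B L q).card := by rw [hit_eq_Ez, sum_singleton]
  have hpQ : p ∈ Q := by
    unfold cpt at hp
    exact (mem_sdiff.1 (mem_sdiff.1 (mem_filter.1 hp).1).1).1
  have hqQ : q ∈ Q := by
    unfold cpt at hq
    exact (mem_sdiff.1 (mem_sdiff.1 (mem_filter.1 hq).1).1).1
  have h8 : (univ.filter (fun i => (p ∈ B i ∧ q ∈ B i) ∧ ¬ (B i ∩ L).Nonempty)).card ≤ 3 := by
    refine le_trans (card_le_card ?_) (hv.twin hpQ hqQ hpq)
    intro i hi
    obtain ⟨_, hi2⟩ := mem_filter.1 hi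
    exact mem_filter.2 ⟨mem_univ _, hi2.1⟩
  have h9 := hv.cpt_two h hj hL h5 hp hq hpq (by omega) (by omega) (by omega)
  obtain ⟨⟨k, hk⟩, _, h10⟩ := hv.even_dv h hL
  omega

/-- two points of a triple have at most two common blocks at a leaf. -/
theorem inter_le (hv : ViolR B Q) (h : Frm B Q T U F) (hj : j ∈ T) (hL : L ∈ F) {x y : V}
    (hx : x ∈ B j ∩ Q) (hy : y ∈ B j ∩ Q) (hxy : x ≠ y) [DecidableEq ι] :
    (Ez B L x ∩ Ez B L y).card ≤ 2 := by
  have h1 := hv.twin (mem_inter.1 hx).2 (mem_inter.1 hy).2 hxy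
  have h2 : insert j (Ez B L x ∩ Ez B L y) ⊆ univ.filter (fun i => x ∈ B i ∧ y ∈ B i) := by
    intro i hi
    rcases mem_insert.1 hi with rfl | hi
    · exact mem_filter.2 ⟨mem_univ _, (mem_inter.1 hx).1, (mem_inter.1 hy).1⟩
    · obtain ⟨h3, h4⟩ := mem_inter.1 hi
      exact mem_filter.2 ⟨mem_univ _, (mem_Ez.1 h3).1, (mem_Ez.1 h4).1⟩
  have h3 : j ∉ Ez B L x ∩ Ez B L y := by
    intro h4
    obtain ⟨v, hv'⟩ := (mem_Ez.1 (mem_inter.1 h4).1).2
    obtain ⟨h5, h6⟩ := mem_inter.1 hv'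
    exact (h.T_out hj (mem_inter.2 ⟨h5, h.FQ hL h6⟩)).2 L hL h6
  have h4 := card_le_card h2
  rw [card_insert_of_notMem h3] at h4
  omega

/-- **the rules for a triple at a leaf which is its own class.** -/
theorem trow (hv : ViolR B Q) (h : Frm B Q T U F) (hj : j ∈ T) (hL : L ∈ F)
    (hfree : ∀ M ∈ F, M ≠ L → Sp.dfc U (slf B F) {L, M} ≤ 0) {x y z : V}
    (hT : B j ∩ Q = {x, y, z}) (hxy : x ≠ y) (hxz : x ≠ z) (hyz : y ≠ z)
    (hs : ∃ p ∈ B j ∩ Q, ¬ slf B F p ⊆ {L}) [DecidableEq ι] :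
    TRow (dv B Q L + 1).toNat (ee B Q L) (nt B L 1) (Ez B L x).card (Ez B L y).card
      (Ez B L z).card (Ez B L y ∩ Ez B L z).card (Ez B L x ∩ Ez B L z).card
      (Ez B L x ∩ Ez B L y).card (hit B ((Q \ (B j ∩ Q)) \ L) L)
      (¬ slf B F x ⊆ {L}) (¬ slf B F y ⊆ {L}) (¬ slf B F z ⊆ {L})
      (Abz B L {y, z}) (Abz B L {x, z}) (Abz B L {x, y}) := by
  have hxT : x ∈ B j ∩ Q := by rw [hT]; simp
  have hyT : y ∈ B j ∩ Q := by rw [hT]; simp
  have hzT : z ∈ B j ∩ Q := by rw [hT]; simp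
  have hcr := hv.cr3 h hj hL
  have hsv := h.sv_leaf hL
  have hcov : Cov B L := hv.cov.mono (h.FQ hL)
  have hcrit := h.crit_leaf' hL
  have hne : L.Nonempty := (h.conn_leaf' hL).1
  have hout := h.leaf_out hj hL
  have hc3 := h.full hj
  have hnot : ∀ p ∈ B j ∩ Q, p ∉ L := fun p hp h1 => (h.T_out hj hp).2 L hL h1
  have hQ : ∀ p ∈ B j ∩ Q, p ∈ Q := fun p hp => (mem_inter.1 hp).2
  obtain ⟨hev, hdv, hd1⟩ := hv.even_dv h hL
  have hP : ((dv B Q L + 1).toNat : ℤ) = dv B Q L + 1 := Int.toNat_of_nonneg (by omega)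
  have huh : ∀ p, uh B p L = (Ez B L p).card := by
    intro p
    unfold uh
    rw [hit_eq_Ez, sum_singleton]
  -- four hits, three hits if another leaf is seen
  have h4 : ∀ p ∈ B j ∩ Q, (Ez B L p).card ≤ 4 := by
    intro p hp
    rw [← huh]
    exact (single_le_sum (f := fun M => uh B p M) (fun _ _ => Nat.zero_le _) hL).trans
      (h.four_t hv.reg hj hp)
  have h3 : ∀ p ∈ B j ∩ Q, ¬ slf B F p ⊆ {L} → (Ez B L p).card ≤ 3 := by
    intro p hp hs
    obtain ⟨M, hM, hML⟩ := not_subset.1 hs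
    rw [mem_singleton] at hML
    obtain ⟨hMF, w, hw, _, i, hi1, hi2⟩ := mem_slf.1 hM
    have h5 := h.four_t hv.reg hj hp
    rw [← add_sum_erase _ _ hL] at h5
    have h6 : uh B p M ≤ ∑ M' ∈ F.erase L, uh B p M' :=
      single_le_sum (f := fun M => uh B p M) (fun _ _ => Nat.zero_le _)
        (mem_erase.2 ⟨hML, hMF⟩)
    have h7 : 1 ≤ uh B p M := by
      unfold uh
      rw [hit_eq_Ez, sum_singleton]
      exact card_pos.2 ⟨i, mem_Ez.2 ⟨hi1, w, mem_inter.2 ⟨hi2, hw⟩⟩⟩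
    rw [huh] at h5
    omega
  -- absorbed pairs
  have hab : ∀ p ∈ B j ∩ Q, ∀ q r : V, B j ∩ Q ⊆ insert p {q, r} → q ∈ B j ∩ Q → r ∈ B j ∩ Q →
      Abz B L {q, r} → ¬ ¬ slf B F p ⊆ {L} := by
    intro p hp q r hqr hq hr hab hs
    obtain ⟨M, hM, hML⟩ := not_subset.1 hs
    rw [mem_singleton] at hML
    obtain ⟨T', hT1, hT2⟩ := hab
    have h5 : rho B (L ∪ {q, r}) ≤ rho B L := (Hyp6.rho_le hT1).trans hT2
    have h6 := h.three_abs hj hL (X := {q, r}) (by
      intro v hv'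
      rcases mem_insert.1 hv' with rfl | hv'
      · exact hQ _ hq
      · rw [mem_singleton.1 hv']
        exact hQ _ hr) h5 hqr hp hM hML
    have h7 := hfree M (mem_slf.1 hM).1 hML
    omega
  -- a common block is absorbed
  have hcm : ∀ p q : V, (Ez B L p ∩ Ez B L q).Nonempty → Abz B L {p, q} := by
    intro p q hpq
    obtain ⟨i, hi⟩ := hpq
    obtain ⟨h5, h6⟩ := mem_inter.1 hi
    refine hcrit.abz_block hcov (mem_Ez.1 h5).2 ?_
    intro v hv'
    rcases mem_insert.1 hv' with rfl | hv'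
    · exact (mem_Ez.1 h5).1
    · rw [mem_singleton.1 hv']
      exact (mem_Ez.1 h6).1
  have hcm0 : ∀ p q : V, ¬ Abz B L {p, q} → (Ez B L p ∩ Ez B L q).card = 0 := by
    intro p q h5
    rw [card_eq_zero, ← not_nonempty_iff_eq_empty]
    exact fun h6 => h5 (hcm p q h6)
  -- contraction rules
  have hS0 : ∀ p q r : V, p ∈ B j ∩ Q → q ∈ B j ∩ Q → r ∈ B j ∩ Q →
      (B j ∩ Q).erase p ⊆ {q, r} → (dv B Q L + 1).toNat ≤ 8 → 1 ≤ (Ez B L p).card →
      (dv B Q L + 1).toNat + 9 ≤ 4 * max (1 + (Ez B L q).card) (max (1 + (Ez B L r).card)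
        (hit B ((Q \ (B j ∩ Q)) \ L) L)) := by
    intro p q r hp hq hr he h8 h1
    set W := hit B ((Q \ (B j ∩ Q)) \ L) L with hW
    have hq4 := h4 q hq
    have hr4 := h4 r hr
    by_cases h5 : max (1 + (Ez B L q).card) (max (1 + (Ez B L r).card) W) ≤ 5
    · have h6 := hv.s0 hc3 hout hne hcrit hsv (mem_inter.1 hp).1 (mem_inter.1 hp).2
        (card_pos.1 h1) (nu := max (1 + (Ez B L q).card) (max (1 + (Ez B L r).card) W))
        (by omega) h5 (fun v hv' => by
          have h7 := he hv'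
          simp only [mem_insert, mem_singleton] at h7
          rcases h7 with rfl | rfl <;> omega) (by omega)
      omega
    · omega
  have hS1 : ∀ p q r : V, p ∈ B j ∩ Q → (B j ∩ Q).erase p = {q, r} →
      (dv B Q L + 1).toNat ≤ 8 → Abz B L {q, r} →
      (dv B Q L + 1).toNat + 14 ≤ 4 * max (1 + (Ez B L p).card)
        (hit B ((Q \ (B j ∩ Q)) \ L) L) := by
    intro p q r hp he h8 h1
    set W := hit B ((Q \ (B j ∩ Q)) \ L) L with hW
    have hp4 := h4 p hp
    by_cases h5 : max (1 + (Ez B L p).card) W ≤ 5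
    · have h6 := hv.s1 hc3 hout hne hcrit hsv (mem_inter.1 hp).1 (mem_inter.1 hp).2
        (nu := max (1 + (Ez B L p).card) W) h5 (by omega) (by omega) (Or.inl (by rwa [he]))
      split_ifs at h6 <;> omega
    · omega
  have ex : (B j ∩ Q).erase x = {y, z} := by
    rw [hT]
    ext v
    simp only [mem_erase, mem_insert, mem_singleton]
    constructor
    · tauto
    · rintro (rfl | rfl)
      · exact ⟨hxy.symm, by tauto⟩
      · exact ⟨hxz.symm, by tauto⟩
  have ey : (B j ∩ Q).erase y = {x, z} := by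
    rw [hT]
    ext v
    simp only [mem_erase, mem_insert, mem_singleton]
    constructor
    · tauto
    · rintro (rfl | rfl)
      · exact ⟨hxy, by tauto⟩
      · exact ⟨hyz.symm, by tauto⟩
  have ez : (B j ∩ Q).erase z = {x, y} := by
    rw [hT]
    ext v
    simp only [mem_erase, mem_insert, mem_singleton]
    constructor
    · tauto
    · rintro (rfl | rfl)
      · exact ⟨hxz, by tauto⟩
      · exact ⟨hyz, by tauto⟩
  have habx := hab x hxT y z (by rw [hT]) hyT hzT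
  have haby := hab y hyT x z (by
    rw [hT]
    intro v
    simp only [mem_insert, mem_singleton]
    tauto) hxT hzT
  have habz := hab z hzT x y (by
    rw [hT]
    intro v
    simp only [mem_insert, mem_singleton]
    tauto) hxT hyT
  have hsum : hit B (B j ∩ Q) L = (Ez B L x).card + (Ez B L y).card + (Ez B L z).card := by
    rw [hit_eq_Ez, hT, sum_insert (by simp [hxy, hxz]), sum_pair hyz]
    omega
  exact {
    a4 := h4 x hxT
    b4 := h4 y hyT
    c4 := h4 z hzT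
    sa3 := h3 x hxT
    sb3 := h3 y hyT
    sc3 := h3 z hzT
    sn := by
      obtain ⟨p, hp, hps⟩ := hs
      rw [hT] at hp
      simp only [mem_insert, mem_singleton] at hp
      rcases hp with rfl | rfl | rfl
      · exact Or.inl hps
      · exact Or.inr (Or.inl hps)
      · exact Or.inr (Or.inr hps)
    Aa0 := habx
    Ab0 := haby
    Ac0 := habz
    ra := fun hn => hcr.ref hsv (hQ y hyT) (hnot y hyT) (hQ z hzT) (hnot z hzT) hyz hn
    rb := fun hn => hcr.ref hsv (hQ x hxT) (hnot x hxT) (hQ z hzT) (hnot z hzT) hxz hn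
    rc := fun hn => hcr.ref hsv (hQ x hxT) (hnot x hxT) (hQ y hyT) (hnot y hyT) hxy hn
    na0 := hcm0 y z
    nb0 := hcm0 x z
    nc0 := hcm0 x y
    na2 := hv.inter_le h hj hL hyT hzT hyz
    nb2 := hv.inter_le h hj hL hxT hzT hxz
    nc2 := hv.inter_le h hj hL hxT hyT hxy
    ja := fun h1 h2 => hcr.refm hsv (hQ x hxT) (hnot x hxT) (hQ y hyT) (hnot y hyT) (hQ z hzT)
      (hnot z hzT) hxy hxz h2 h1
    jb := fun h1 h2 => hcr.refm hsv (hQ y hyT) (hnot y hyT) (hQ x hxT) (hnot x hxT) (hQ z hzT)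
      (hnot z hzT) hxy.symm hyz (by rwa [pair_comm]) h1
    jc := fun h1 h2 => hcr.refm hsv (hQ z hzT) (hnot z hzT) (hQ x hxT) (hnot x hxT) (hQ y hyT)
      (hnot y hyT) hxz.symm hyz.symm (by rwa [pair_comm]) (by rwa [pair_comm])
    S0a := fun h1 h2 => hS0 x y z hxT hyT hzT ex.subset h1 h2
    S0b := fun h1 h2 => hS0 y x z hyT hxT hzT ey.subset h1 h2
    S0c := fun h1 h2 => hS0 z x y hzT hxT hyT ez.subset h1 h2
    S1a := fun h1 h2 => hS1 x y z hxT ex h1 h2
    S1b := fun h1 h2 => hS1 y x z hyT ey h1 h2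
    S1c := fun h1 h2 => hS1 z x y hzT ez h1 h2
    W2 := hv.two_out h hj hL
    W3 := hv.three_out h hj hL
    sl := by
      have h1 := hv.places h hj hL
      rw [hsum] at h1
      exact h1
    n1 := by
      have h1 := (hv.one' h hL).n1
      exact_mod_cast h1 }

end ViolR

end row

end Pool.Agent.Hyp6
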