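import Pool.Agent.Hyp6.L3Mr3
import Pool.Agent.Hyp6.L3Tc

/-!
# HYP6 L3P7: at most six hits on a point leaf

`MTQ.point_six`: in a frame of kind `MTQ` a triple has at most six hits on a point leaf which is its own
class. (Seven hits leave three further places, so the pair with a common block at the leaf is unique by
(S1) and has two common blocks there; by the fourth criterion the other two blocks of the third point
contain the pair, too: four common blocks.)
-/

set_option autoImplicit false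

namespace Pool.Agent.Hyp6

open Finset Pool.Agent.Hyp5 Rt

universe u v

variable {V : Type v} [DecidableEq V] {ι : Type u} [Fintype ι] {B : ι → Finset V}

/-- the blocks of a point at a point leaf. -/
theorem Ez_point [DecidableEq ι] {x p : V} :
    Ez B {x} p = univ.filter (fun k => x ∈ B k ∧ p ∈ B k) := by
  ext k
  rw [mem_Ez, mem_filter]
  constructor
  · rintro ⟨h1, y, hy⟩
    obtain ⟨hy1, hy2⟩ := mem_inter.1 hy
    rw [mem_singleton] at hy2
    exact ⟨mem_univ _, hy2 ▸ hy1, h1⟩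
  · rintro ⟨_, h1, h2⟩
    exact ⟨h2, x, mem_inter.2 ⟨h1, mem_singleton_self x⟩⟩

theorem mem_Ezx [DecidableEq ι] {x p : V} {i : ι} : i ∈ Ez B {x} p ↔ x ∈ B i ∧ p ∈ B i := by
  rw [Ez_point]
  simp

variable {Q U : Finset V} {T : Finset ι} {F : Finset (Finset V)} {j : ι} {x : V}

/-- the number of the blocks of a pair at a point leaf. -/
theorem MTQ.six_core [DecidableEq ι] (hq : MTQ B Q T U F) (hv : ViolR B Q) (hj : j ∈ T)
    (hx : {x} ∈ F)
    (hfree : ∀ L ∈ F, L ≠ {x} → ∀ Z ⊆ U, Z.card ≤ (nbF (gr B) (F \ {{x}, L}) Z).card)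
    {a b c : V} (hT : B j ∩ Q = {a, b, c}) (hab : a ≠ b) (hac : a ≠ c) (hbc : b ≠ c)
    (h7 : 7 ≤ (Ez B {x} a).card + (Ez B {x} b).card + (Ez B {x} c).card)
    (hne : (Ez B {x} b ∩ Ez B {x} c).Nonempty) : False := by
  have hf : Frm B Q T U F := hq.toMTE.frm
  have hr := hv.reg
  have hxQ : x ∈ Q := hf.FQ hx (mem_singleton_self x)
  have haT : a ∈ B j ∩ Q := by rw [hT]; simp
  have hbT : b ∈ B j ∩ Q := by rw [hT]; simp
  have hcT : c ∈ B j ∩ Q := by rw [hT]; simp
  have haQ := (mem_inter.1 haT).2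
  have hbQ := (mem_inter.1 hbT).2
  have hcQ := (mem_inter.1 hcT).2
  have hnot : ∀ p ∈ B j ∩ Q, p ≠ x := by
    rintro p hp rfl
    exact (hf.T_out hj hp).2 _ hx (mem_singleton_self p)
  have hxj : x ∉ B j := fun h1 => hnot x (mem_inter.2 ⟨h1, hxQ⟩) rfl
  have hcov : Cov B {x} := hv.cov.mono (hf.FQ hx)
  have hcrit := hf.crit_leaf' hx
  have hsv := hf.sv_leaf hx
  have hout := hf.leaf_out hj hx
  have hc3 := hf.full hj
  -- the numbers
  have hH : hit B (B j ∩ Q) {x} = (Ez B {x} a).card + (Ez B {x} b).card + (Ez B {x} c).card := by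
    rw [hit_eq_Ez, hT, sum_insert (by simp [hab, hac]), sum_insert (by simp [hbc]),
      sum_singleton, add_assoc]
  obtain ⟨_, hdv, _⟩ := hv.even_dv hf hx
  have hnum := hv.one' hf hx
  have hn5 := hf.point_nt hr hx (card_singleton x)
  have hpp := hnum.pp
  rw [hn5, card_singleton] at hpp
  have hpl := hv.places hf hj hx
  have hee : ee B Q {x} = 0 ∧ hit B ((Q \ (B j ∩ Q)) \ {x}) {x} + hit B (B j ∩ Q) {x} ≤ 10 := by
    have h1 : ((dv B Q {x} + 1).toNat : ℤ) = dv B Q {x} + 1 := Int.toNat_of_nonneg (by omega)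
    rw [hn5] at hpl
    constructor <;> omega
  obtain ⟨hee, hW⟩ := hee
  have hd1 : dv B Q {x} = 1 := by rw [hdv, hee]; omega
  -- at most three blocks
  have h3 : ∀ p ∈ B j ∩ Q, (Ez B {x} p).card ≤ 3 := by
    intro p hp
    rw [Ez_point]
    exact hv.twin hxQ (mem_inter.1 hp).2 (hnot p hp).symm
  -- (S1)
  have key : ∀ p q r : V, B j ∩ Q = {p, q, r} → p ≠ q → p ≠ r →
      (Ez B {x} q ∩ Ez B {x} r).Nonempty →
      3 ≤ (Ez B {x} p).card ∧ 3 ≤ hit B ((Q \ (B j ∩ Q)) \ {x}) {x} := by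
    intro p q r hpqr hpq hpr hqr
    have hp : p ∈ B j ∩ Q := by rw [hpqr]; simp
    have hab' : Abz B {x} ((B j ∩ Q).erase p) := by
      obtain ⟨k, hk⟩ := hqr
      obtain ⟨h5, h6⟩ := mem_inter.1 hk
      refine hcrit.abz_block hcov (mem_Ez.1 h5).2 ?_
      intro v hv'
      obtain ⟨hv1, hv2⟩ := mem_erase.1 hv'
      rw [hpqr] at hv2
      simp only [mem_insert, mem_singleton] at hv2
      rcases hv2 with h | h | h
      · exact absurd h hv1
      · rw [h]; exact (mem_Ez.1 h5).1
      · rw [h]; exact (mem_Ez.1 h6).1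
    have h8 := h3 p hp
    constructor
    · by_contra hcon
      have h9 := hv.s1 hc3 hout (singleton_nonempty x) hcrit hsv (mem_inter.1 hp).1
        (mem_inter.1 hp).2 (nu := 3) (by norm_num) (by omega) (by omega) (Or.inl hab')
      split_ifs at h9 <;> omega
    · by_contra hcon
      have h9 := hv.s1 hc3 hout (singleton_nonempty x) hcrit hsv (mem_inter.1 hp).1
        (mem_inter.1 hp).2 (nu := 4) (by norm_num) (by omega) (by omega) (Or.inl hab')
      rw [if_pos (by omega)] at h9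
      omega
  obtain ⟨k1, k2⟩ := key a b c hT hab hac hne
  have e1 := h3 a haT
  obtain ⟨i, hi⟩ := hne
  obtain ⟨hib, hic⟩ := mem_inter.1 hi
  rw [Ez_point, mem_filter] at hib hic
  have hai : a ∉ B i := by
    intro h1
    have h2 : ({x, a, b, c} : Finset V) ⊆ B i ∩ Q := by
      intro v hv'
      simp only [mem_insert, mem_singleton] at hv'
      rcases hv' with rfl | rfl | rfl | rfl
      · exact mem_inter.2 ⟨hib.2.1, hxQ⟩
      · exact mem_inter.2 ⟨h1, haQ⟩
      · exact mem_inter.2 ⟨hib.2.2, hbQ⟩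
      · exact mem_inter.2 ⟨hic.2.2, hcQ⟩
    have h3' := card_le_card h2
    have h4 : ({x, a, b, c} : Finset V).card = 4 := by
      rw [card_insert_of_notMem, card_insert_of_notMem, card_pair hbc]
      · simp [hab, hac]
      · simp [(hnot a haT).symm, (hnot b hbT).symm, (hnot c hcT).symm]
    have h5 := hf.reg3 i
    omega
  -- the point `a` has no common block with `b`, `c` at `x`
  have hda : ∀ k, x ∈ B k → a ∈ B k → b ∉ B k ∧ c ∉ B k := by
    intro k hxk hak
    have hki : k ≠ i := by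
      rintro rfl
      exact hai hak
    constructor
    · intro hbk
      have h1 := (key c a b (by rw [hT]; ext v; simp only [mem_insert, mem_singleton]; tauto)
        hac.symm hbc.symm ⟨k, mem_inter.2 ⟨mem_Ezx.2 ⟨hxk, hak⟩, mem_Ezx.2 ⟨hxk, hbk⟩⟩⟩).1
      have h2 : 2 ≤ (Ez B {x} b).card := by
        rw [← card_pair hki]
        refine card_le_card ?_
        intro m hm
        rw [Ez_point]
        rcases mem_insert.1 hm with rfl | hm
        · exact mem_filter.2 ⟨mem_univ _, hxk, hbk⟩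
        · rw [mem_singleton.1 hm]
          exact mem_filter.2 ⟨mem_univ _, hib.2⟩
      omega
    · intro hck
      have h1 := (key b a c (by rw [hT]; ext v; simp only [mem_insert, mem_singleton]; tauto)
        hab.symm hbc ⟨k, mem_inter.2 ⟨mem_Ezx.2 ⟨hxk, hak⟩, mem_Ezx.2 ⟨hxk, hck⟩⟩⟩).1
      have h2 : 2 ≤ (Ez B {x} c).card := by
        rw [← card_pair hki]
        refine card_le_card ?_
        intro m hm
        rw [Ez_point]
        rcases mem_insert.1 hm with rfl | hm
        · exact mem_filter.2 ⟨mem_univ _, hxk, hck⟩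
        · rw [mem_singleton.1 hm]
          exact mem_filter.2 ⟨mem_univ _, hic.2⟩
      omega
  -- the block `i`
  have hiQ : B i ∩ Q = {x, b, c} := by
    have h1 : ({x, b, c} : Finset V) ⊆ B i ∩ Q := by
      intro v hv'
      simp only [mem_insert, mem_singleton] at hv'
      rcases hv' with rfl | rfl | rfl
      · exact mem_inter.2 ⟨hib.2.1, hxQ⟩
      · exact mem_inter.2 ⟨hib.2.2, hbQ⟩
      · exact mem_inter.2 ⟨hic.2.2, hcQ⟩
    have h4 : ({x, b, c} : Finset V).card = 3 := by
      rw [card_insert_of_notMem, card_pair hbc]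
      simp [(hnot b hbT).symm, (hnot c hcT).symm]
    refine (eq_of_subset_of_card_le h1 ?_).symm
    rw [h4]
    exact hf.reg3 i
  have hi3 : (B i ∩ Q).card = 3 := by
    rw [hiQ, card_insert_of_notMem, card_pair hbc]
    simp [(hnot b hbT).symm, (hnot c hcT).symm]
  have hpx : Px B Q T U F j i a b c x := ⟨hf, hj, hT, hx, hfree, hiQ, hi3⟩
  have hpt0 := hq.point hpx
  obtain ⟨m1, m2⟩ := mlt_le_of_no hda
  have hxbc := hpx.xbc hda
  rw [← Ez_point, ← Ez_point] at hxbc
  -- two blocks of `x` without `a`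
  set Nb := univ.filter (fun k => x ∈ B k ∧ a ∉ B k ∧ b ∈ B k ∧ c ∉ B k) with hNb
  set Nc := univ.filter (fun k => x ∈ B k ∧ a ∉ B k ∧ b ∉ B k ∧ c ∈ B k) with hNc
  set Nd := univ.filter (fun k => x ∈ B k ∧ a ∉ B k ∧ b ∈ B k ∧ c ∈ B k) with hNd
  have hsum : Nb.card + Nc.card + Nd.card + (Ez B {x} a).card ≤ 5 := by
    rw [← hr x hxQ, Ez_point]
    have d1 : Disjoint Nb Nc := disjoint_filter.2 fun k _ h1 h2 => h2.2.2.1 h1.2.2.1
    have d2 : Disjoint (Nb ∪ Nc) Nd := by
      rw [disjoint_union_left]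
      exact ⟨disjoint_filter.2 fun k _ h1 h2 => h1.2.2.2 h2.2.2.2,
        disjoint_filter.2 fun k _ h1 h2 => h1.2.2.1 h2.2.2.1⟩
    have d3 : Disjoint (Nb ∪ Nc ∪ Nd) (univ.filter (fun k => x ∈ B k ∧ a ∈ B k)) := by
      rw [disjoint_union_left, disjoint_union_left]
      exact ⟨⟨disjoint_filter.2 fun k _ h1 h2 => h1.2.1 h2.2,
        disjoint_filter.2 fun k _ h1 h2 => h1.2.1 h2.2⟩,
        disjoint_filter.2 fun k _ h1 h2 => h1.2.1 h2.2⟩
    rw [← card_union_of_disjoint d1, ← card_union_of_disjoint d2, ← card_union_of_disjoint d3]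
    refine card_le_card ?_
    intro k hk
    simp only [mem_union, hNb, hNc, hNd, mem_filter, mem_univ, true_and] at hk ⊢
    tauto
  set Ib := univ.filter (fun k => x ∉ B k ∧ a ∈ B k ∧ b ∈ B k ∧ c ∉ B k) with hIb
  set Ic := univ.filter (fun k => x ∉ B k ∧ a ∈ B k ∧ b ∉ B k ∧ c ∈ B k) with hIc
  set Id := univ.filter (fun k => x ∉ B k ∧ a ∈ B k ∧ b ∈ B k ∧ c ∈ B k) with hId
  have hsum2 : Ib.card + Ic.card + Id.card + (Ez B {x} a).card ≤ 5 := by
    rw [← hr a haQ, Ez_point]
    have d1 : Disjoint Ib Ic := disjoint_filter.2 fun k _ h1 h2 => h2.2.2.1 h1.2.2.1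
    have d2 : Disjoint (Ib ∪ Ic) Id := by
      rw [disjoint_union_left]
      exact ⟨disjoint_filter.2 fun k _ h1 h2 => h1.2.2.2 h2.2.2.2,
        disjoint_filter.2 fun k _ h1 h2 => h1.2.2.1 h2.2.2.1⟩
    have d3 : Disjoint (Ib ∪ Ic ∪ Id) (univ.filter (fun k => x ∈ B k ∧ a ∈ B k)) := by
      rw [disjoint_union_left, disjoint_union_left]
      exact ⟨⟨disjoint_filter.2 fun k _ h1 h2 => h1.1 h2.1,
        disjoint_filter.2 fun k _ h1 h2 => h1.1 h2.1⟩,
        disjoint_filter.2 fun k _ h1 h2 => h1.1 h2.1⟩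
    rw [← card_union_of_disjoint d1, ← card_union_of_disjoint d2, ← card_union_of_disjoint d3]
    refine card_le_card ?_
    intro k hk
    simp only [mem_union, hIb, hIc, hId, mem_filter, mem_univ, true_and] at hk ⊢
    tauto
  have htw := hv.twin hbQ hcQ hbc
  have hsum3 : Nd.card + Id.card ≤ (univ.filter (fun k => b ∈ B k ∧ c ∈ B k)).card := by
    have d1 : Disjoint Nd Id := disjoint_filter.2 fun k _ h1 h2 => h2.1 h1.1
    rw [← card_union_of_disjoint d1]
    refine card_le_card ?_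
    intro k hk
    simp only [mem_union, hNd, hId, mem_filter, mem_univ, true_and] at hk ⊢
    tauto
  have hmb : Nb.card + Nd.card ≤ mlt B x b := by
    have d1 : Disjoint Nb Nd := disjoint_filter.2 fun k _ h1 h2 => h1.2.2.2 h2.2.2.2
    rw [← card_union_of_disjoint d1]
    refine card_le_card ?_
    intro k hk
    simp only [mem_union, hNb, hNd, mem_filter, mem_univ, true_and] at hk ⊢
    tauto
  have hmc : Nc.card + Nd.card ≤ mlt B x c := by
    have d1 : Disjoint Nc Nd := disjoint_filter.2 fun k _ h1 h2 => h1.2.2.1 h2.2.2.1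
    rw [← card_union_of_disjoint d1]
    refine card_le_card ?_
    intro k hk
    simp only [mem_union, hNc, hNd, mem_filter, mem_univ, true_and] at hk ⊢
    tauto
  have htb : mlt B x b ≤ 3 := hv.twin hxQ hbQ (hnot b hbT).symm
  have htc : mlt B x c ≤ 3 := hv.twin hxQ hcQ (hnot c hcT).symm
  have hpt := hpt0 (by
    unfold q3
    split_ifs <;> omega)
  omega

/-- **at most six hits on a point leaf which is its own class.** -/
theorem MTQ.point_six [DecidableEq ι] (hq : MTQ B Q T U F) (hv : ViolR B Q) (hj : j ∈ T)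
    (hx : {x} ∈ F)
    (hfree : ∀ L ∈ F, L ≠ {x} → ∀ Z ⊆ U, Z.card ≤ (nbF (gr B) (F \ {{x}, L}) Z).card) :
    hit B (B j ∩ Q) {x} ≤ 6 := by
  by_contra hcon
  have hf : Frm B Q T U F := hq.toMTE.frm
  have hxQ : x ∈ Q := hf.FQ hx (mem_singleton_self x)
  obtain ⟨a, b, c, hT, hab, hac, hbc⟩ := hf.three_points hj
  have hH : hit B (B j ∩ Q) {x} = (Ez B {x} a).card + (Ez B {x} b).card + (Ez B {x} c).card := by
    rw [hit_eq_Ez, hT, sum_insert (by simp [hab, hac]), sum_insert (by simp [hbc]),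
      sum_singleton, add_assoc]
  by_cases h1 : (Ez B {x} b ∩ Ez B {x} c).Nonempty
  · exact hq.six_core hv hj hx hfree hT hab hac hbc (by omega) h1
  by_cases h2 : (Ez B {x} a ∩ Ez B {x} c).Nonempty
  · refine hq.six_core hv hj hx hfree (a := b) (b := a) (c := c) ?_ hab.symm hbc hac (by omega) h2
    rw [hT]
    ext v
    simp only [mem_insert, mem_singleton]
    tauto
  by_cases h3 : (Ez B {x} a ∩ Ez B {x} b).Nonempty
  · refine hq.six_core hv hj hx hfree (a := c) (b := a) (c := b) ?_ hac.symm hbc.symm hab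
      (by omega) h3
    rw [hT]
    ext v
    simp only [mem_insert, mem_singleton]
    tauto
  have d1 : Disjoint (Ez B {x} b) (Ez B {x} c) := by
    rw [disjoint_iff_inter_eq_empty]
    exact not_nonempty_iff_eq_empty.1 h1
  have d2 : Disjoint (Ez B {x} a) (Ez B {x} b ∪ Ez B {x} c) := by
    rw [disjoint_union_right]
    constructor
    · rw [disjoint_iff_inter_eq_empty]
      exact not_nonempty_iff_eq_empty.1 h3
    · rw [disjoint_iff_inter_eq_empty]
      exact not_nonempty_iff_eq_empty.1 h2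
  have h4 : (Ez B {x} a ∪ (Ez B {x} b ∪ Ez B {x} c)).card ≤
      (univ.filter (fun k => x ∈ B k)).card := by
    refine card_le_card ?_
    intro k hk
    rw [Ez_point, Ez_point, Ez_point] at hk
    simp only [mem_union, mem_filter, mem_univ, true_and] at hk ⊢
    tauto
  rw [card_union_of_disjoint d2, card_union_of_disjoint d1, hv.reg x hxQ] at h4
  omega

end Pool.Agent.Hyp6
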