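import Pool.Agent.Hyp6.L3Te
import Pool.Agent.Hyp6.L3P7
import Pool.Agent.Hyp6.L3Fr

/-!
# HYP6 L3Tf: the payments at the other end of a private class

`payT c t n`: what a line triple on a line with two classes pays (above `560`) at a class with at least
two line triples, `n` hits there, `t` hits at the other class and `c` claims. `fB t`: what a private
class with `t` hits may need. `StgR.pay_two`: the other class is not private; `StgR.rest_of`: the private
class needs at most `fB`; `StgR.rest_one`: the private class is a single leaf and no centre: the payment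
is at least `payT` or the leaf is one of three kinds.
-/

set_option autoImplicit false

namespace Pool.Agent.Hyp6

open Finset Pool.Agent.Hyp5 Rt

universe u v

/-- the least payment (above `560`) at an end with `n` hits of a triple with `c` claims. -/
def payE (c n : ℕ) : ℤ :=
  if n ≤ 1 then -161
  else if n = 2 then -97
  else if n = 3 then -33
  else if n = 4 then -44
  else if n = 5 then 15
  else if n = 6 then -1
  else if n = 7 then -17
  else if n = 8 then (if c = 0 then 42 else -33)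
  else if n = 9 then 31
  else 41

/-- the least payment at an end with `n` hits, `t` hits at the other end, `c` claims. -/
def payT (c t n : ℕ) : ℤ := if n = 6 ∧ t ≤ 2 then 4 else payE c n

/-- what a private class with `t` hits of its line triple may need. -/
def fB (t : ℕ) : ℤ :=
  if t ≤ 1 then -161
  else if t = 2 then -97
  else if t = 3 then -28
  else if t = 4 then -34
  else if t = 5 then 15
  else if t = 6 then 4
  else if t = 7 then -7
  else if t = 8 then -23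
  else 41

theorem pm_le_payE (c n : ℕ) : pm n ≤ payE c n := by
  unfold pm payE
  split_ifs <;> omega

theorem pm_le_fB (n : ℕ) : pm n ≤ fB n := by
  unfold pm fB
  split_ifs <;> omega

theorem payE_le_payT (c t n : ℕ) : payE c n ≤ payT c t n := by
  unfold payT payE
  split_ifs <;> omega

theorem payT_le (c t : ℕ) {n : ℕ} : payT c t n ≤ 42 := by
  unfold payT payE
  split_ifs <;> omega

theorem pr0_geT {t n : ℕ} (h : n + t ≤ 12) : payT 0 t n ≤ pr0 n t := by
  have h1 := pr0_ge h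
  unfold payT
  split_ifs with h2
  · obtain ⟨rfl, h3⟩ := h2
    interval_cases t <;> decide
  · refine le_trans ?_ h1
    unfold payE payN
    split_ifs <;> omega

theorem pr_geT {c t n : ℕ} (h : n + t ≤ 12) (hn : 1 ≤ n) (hm : 1 ≤ t) (hc0 : 1 ≤ c)
    (hc : n + t + c ≤ 8 ∨ (n + t + c ≤ 12 ∧ (n + c ≤ 4 ∨ t + c ≤ 4))) :
    payT c t n ≤ pr c n t := by
  have h1 := pr_ge h hn hm (c := c) (fun _ => hc)
  unfold payT
  split_ifs with h2
  · obtain ⟨rfl, h3⟩ := h2
    unfold pr prD bigD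
    rw [if_neg (by omega), if_pos (by omega)]
    simp
  · refine le_trans ?_ h1
    unfold payE payD
    split_ifs <;> omega

theorem pay_fB {c t n : ℕ} {ms tf : ℤ} (h1 : ms ≤ fB t)
    (ht : 1 ≤ t) (hn : 1 ≤ n) (hs : t + n + c ≤ 12) (htf : -80 * (c : ℤ) ≤ tf)
    (hc : 1 ≤ c → t + n + c ≤ 8 ∨ n + c ≤ 4 ∨ t + c ≤ 4) :
    payT c t n ≤ 8 + 16 * (12 - (t : ℤ) - n) + tf - ms := by
  have h2 : payE c n ≤ 8 + 16 * (12 - (t : ℤ) - n) + tf - ms := by
    unfold payE
    unfold fB at h1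
    split_ifs at h1 ⊢ <;> omega
  unfold payT
  split_ifs with h3
  · unfold fB at h1
    obtain ⟨rfl, h4⟩ := h3
    split_ifs at h1 <;> omega
  · exact h2

theorem pay_low {c t n : ℕ} {ms tf : ℤ} (h1 : ms ≤ -186)
    (ht : 1 ≤ t) (hn : 1 ≤ n) (hs : t + n + c ≤ 12) (htf : -80 * (c : ℤ) ≤ tf)
    (hc : 1 ≤ c → t + n + c ≤ 8 ∨ n + c ≤ 4 ∨ t + c ≤ 4) :
    payT c t n ≤ 8 + 16 * (12 - (t : ℤ) - n) + tf - ms := by
  unfold payT payE
  split_ifs <;> omega

theorem pay_reg {P t n c W g : ℕ} {ms tf : ℤ}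
    (hm : ms ≤ 144 * t - 440 - 120 * P - 5 * W - 115 * g) (hW : 3 ≤ W)
    (hsc : 160 * t ≤ 545 + 120 * P + 5 * W + 115 * g ∨ (1 ≤ c ∧ t + n + c ≤ 8))
    (hP0 : P = 0 → t ≤ 3) (hP : P = 0 ∨ 2 ≤ P)
    (ht : 1 ≤ t) (hn : 1 ≤ n) (hs : t + n + c ≤ 12) (htf : -80 * (c : ℤ) ≤ tf)
    (hc : 1 ≤ c → t + n + c ≤ 8 ∨ n + c ≤ 4 ∨ t + c ≤ 4) :
    payT c t n ≤ 8 + 16 * (12 - (t : ℤ) - n) + tf - ms := by
  unfold payT payE
  split_ifs <;> omega

/-- at a leaf without even part one, two or three hits of the triple need three other hits. -/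
theorem TRow.z3 {P d n a b c na nb nc W : ℕ} {sa sb sc Aa Ab Ac : Prop}
    (h : TRow P d n a b c na nb nc W sa sb sc Aa Ab Ac) (hP : P = 0) (h1 : 1 ≤ a + b + c)
    (h3 : a + b + c ≤ 3) : 3 ≤ W := by
  subst hP
  have ha := h.S0a (by omega)
  have hb := h.S0b (by omega)
  have hc := h.S0c (by omega)
  rcases (by omega : 1 ≤ a ∨ 1 ≤ b ∨ 1 ≤ c) with h4 | h4 | h4 <;> omega

/-- the numbers of a class with one line triple and inside triples, with claims. -/
theorem NumB.kin_num {M p n m f e g t S w l q b pi k X : ℤ}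
    (h : NumB M p n m f e g t S w l q b pi k X) (hq : q = 1) (hb : 0 ≤ b) (hk : 1 ≤ k) {c M' : ℤ}
    (hM : M' ≤ M + 80 * c) (hc : 16 * X + 80 * c ≤ 576 * k)
    (hA : b = 0 → k = 1 → Few2 (p - 1 - 2 * e) (t + X) (w + g)) : M' ≤ -186 := by
  obtain ⟨⟨h1, h2, h3, h4, h5, h6, h7, h8, h9, h10, h11, h12, h13⟩, _, _, h16, h17, h18, h19, h20,
    h21, h22, h23, h24, h26, h27, h25⟩ := id h
  have h0 := h.le
  subst hq
  have h30 : M' ≤ 880 - 24 * n + 16 * S - 584 * b - 149 * w - 144 * f + 24 * g - 176 * l +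
      240 * e - 744 * k := by linarith
  rcases (by omega : 1 ≤ b ∨ 2 ≤ k ∨ (b = 0 ∧ k = 1)) with h31 | h31 | ⟨rfl, rfl⟩
  · rcases h16 with h16 | h16 <;> linarith
  · rcases h16 with h16 | h16 <;> linarith
  · obtain ⟨a1, a2, a3, a4⟩ := hA rfl rfl
    obtain rfl : S = 0 := by omega
    rcases h16 with h16 | h16
    · linarith
    have h32 : M' ≤ 136 - 24 * n - 149 * (w + g) - 144 * f + 240 * e := by linarith
    clear h30 h0 h hM hc h16
    rcases (by omega : 2 ≤ w + g ∨ w + g ≤ 1) with h33 | h33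
    · linarith
    · rcases (by omega : 1 ≤ e ∨ e = 0) with h34 | rfl
      · linarith
      · by_cases h35 : p = 0
        · have := a1 (by omega) h33
          omega
        · by_cases h36 : p = 2
          · have := a2 (by omega) h33
            have h37 := a3 (by omega)
            have : n = 5 := by omega
            omega
          · have := a4 (by omega)
            omega

variable {V : Type v} [DecidableEq V] {ι : Type u} [Fintype ι] [DecidableEq ι]
  {B : ι → Finset V}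

namespace Stg

variable {Q U : Finset V} {T : Finset ι} {F : Finset (Finset V)}
  {P : Finset (Finset (Finset V))} {a : V → Finset (Finset V) → ℕ} {L : Finset V} {j : ι}

/-- the outer hits of a private single leaf. -/
theorem W_ge (s : Stg B Q T U F P a) (hL : {L} ∈ P) (hj : j ∈ tl B Q T U F P)
    (h0 : dv B Q L = -1 → 1 ≤ jh B Q j L ∧ jh B Q j L ≤ 3) :
    3 ≤ hit B ((Q \ (B j ∩ Q)) \ L) L := by
  have hLF := s.leafF hL
  have hjT := (s.tl_sub hj).1
  obtain ⟨x, y, z, hxy, hxz, hyz, hT⟩ := card_eq_three.1 (s.frm.full hjT)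
  have hR := s.trow hL hj hT hxy hxz hyz
  obtain ⟨_, _, hd1⟩ := s.viol.even_dv s.frm hLF
  have hsum : jh B Q j L = (Ez B L x).card + (Ez B L y).card + (Ez B L z).card := by
    unfold jh
    rw [hit_eq_Ez, hT, sum_insert (by simp [hxy, hxz]), sum_pair hyz]
    omega
  rcases (by omega : dv B Q L = -1 ∨ 1 ≤ (dv B Q L + 1).toNat) with h1 | h1
  · obtain ⟨h2, h3⟩ := h0 h1
    exact hR.z3 (by omega) (by omega) (by omega)
  · exact hR.W3 h1

end Stg

namespace StgR

variable {Q U : Finset V} {T : Finset ι} {F : Finset (Finset V)}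
  {P : Finset (Finset (Finset V))} {a : V → Finset (Finset V) → ℕ} {L : Finset V} {j : ι}

/-- the hits and the claims of an inside triple. -/
theorem kin_cl (s : StgR B Q T U F P a) (hL : {L} ∈ P) {k : ι}
    (hk : k ∈ Sp.Kin (Rg B Q T U F) (slj B Q F) {L}) :
    16 * (jh B Q k L : ℤ) + 80 * (ncl B Q T U F P k : ℤ) ≤ 576 := by
  have hLF := s.toStg.leafF hL
  obtain ⟨hkT, _, _, hne, _⟩ := s.toStg.kin.1 hk
  have h1 : jh B Q k L ≤ ∑ L ∈ F, jh B Q k L :=
    single_le_sum (f := fun L => jh B Q k L) (fun _ _ => Nat.zero_le _) hLF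
  have h2 : 1 ≤ ∑ L ∈ F, jh B Q k L := by
    obtain ⟨M, hM⟩ := hne
    have h3 := s.frm.jh_pos' hkT hM
    exact h3.trans_le (single_le_sum (f := fun L => jh B Q k L) (fun _ _ => Nat.zero_le _)
      (slj_sub hM))
  have h3 := s.twelve_ncl hkT
  rcases Nat.eq_zero_or_pos (ncl B Q T U F P k) with h4 | h4
  · omega
  · rcases s.four_or_eight hkT h4 with ⟨_, _, _, _, h5⟩ | h5 <;> omega

/-- **a private single leaf with an inside triple.** -/
theorem kin_need (s : StgR B Q T U F P a) (hF : Few B Q T F) (hL : {L} ∈ P)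
    (hq : aC B Q T U F P {L} = {j})
    (hK : (Sp.Kin (Rg B Q T U F) (slj B Q F) {L}).Nonempty) :
    ndC 149 B Q T U F P a (tF B Q T U F P) {L} ≤ -186 := by
  have h := s.toStg.numB hL
  have hLF := s.toStg.leafF hL
  set K := Sp.Kin (Rg B Q T U F) (slj B Q F) {L} with hKdef
  have h1 : ∑ k ∈ K, (16 * (jh B Q k L : ℤ) + 80 * (ncl B Q T U F P k : ℤ)) ≤
      ∑ k ∈ K, (576 : ℤ) := sum_le_sum fun k hk => s.kin_cl hL hk
  rw [sum_const, nsmul_eq_mul, sum_add_distrib, ← mul_sum, ← mul_sum] at h1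
  have h2 : ∑ k ∈ K, -80 * (ncl B Q T U F P k : ℤ) ≤ ∑ k ∈ K, tF B Q T U F P k :=
    sum_le_sum fun k _ => Stg.tF_ge k
  rw [← mul_sum] at h2
  refine h.kin_num (c := ∑ k ∈ K, (ncl B Q T U F P k : ℤ)) (by rw [hq, card_singleton]; rfl)
    (by positivity) (by exact_mod_cast card_pos.2 hK) ?_ (by linarith) ?_
  · have h3 : ndC 149 B Q T U F P a (tF B Q T U F P) {L} =
        msC 149 B Q T U F P a {L} - ∑ k ∈ K, tF B Q T U F P k := rfl
    rw [h3]
    linarith
  · intro hb hk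
    have hb' : Bs B Q T U F P L = ∅ := card_eq_zero.1 (by exact_mod_cast hb)
    obtain ⟨k, hk1⟩ := card_eq_one.1 (by exact_mod_cast hk : K.card = 1)
    have hkK : k ∈ K := by rw [hk1]; exact mem_singleton_self k
    have hkT := (s.toStg.kin.1 hkK).1
    have hjA : j ∈ aC B Q T U F P {L} := by rw [hq]; exact mem_singleton_self j
    have hjt : j ∈ tl B Q T U F P := (mem_filter.1 hjA).1
    have hjT := (s.toStg.tl_sub hjt).1
    have hjk : j ≠ k := by
      rintro rfl
      exact (mem_filter.1 (mem_filter.1 hjt).1).2.2 {L} hL (s.toStg.kin.1 hkK).2.2.2.2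
    obtain ⟨w2, h4, h5⟩ := s.toStg.few2 hF hLF hjT hkT hjk
    have h6 := s.toStg.sum_jh hL
    rw [← hKdef, hq, hk1, sum_singleton, sum_singleton] at h6
    rw [hb', sum_empty, sub_zero, hq, hk1, sum_singleton, sum_singleton]
    have h7 : w2 = ∑ j ∈ Trs B Q T (Rg B Q T U F) U F P, (jh B Q j L : ℤ) + hit B U L := by
      rw [h5, h6]
      ring
    have h8 : ∑ j ∈ T, (jh B Q j L : ℤ) + hit B U L - w2 = (jh B Q j L : ℤ) + jh B Q k L := by
      rw [h7, h6]
      ring
    rw [h8, h7] at h4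
    exact h4

/-- the hits on two classes and the claims. -/
theorem pair_ncl (s : StgR B Q T U F P a) (hj : j ∈ tl B Q T U F P)
    {C D : Finset (Finset V)} (hCD : C ≠ D) (hl : lj B Q U F P j = {C, D}) :
    jC B Q j C + jC B Q j D + ncl B Q T U F P j ≤ 12 := by
  have h1 : jC B Q j C + jC B Q j D ≤ ∑ L ∈ F, jh B Q j L := by
    rw [← Frm.jC_all s.part j]
    have h2 : ({C, D} : Finset (Finset (Finset V))) ⊆ P := by
      intro E hE
      rw [← hl] at hE
      exact s.lnf.sub j hj hE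
    have h3 := sum_le_sum_of_subset (f := fun C => jC B Q j C) h2
    rwa [sum_pair hCD] at h3
  have h2 := s.twelve_ncl (s.tl_sub hj).1
  omega

/-- the rest at the other end of a private class. -/
theorem rest_eq (s : StgR B Q T U F P a) (hj : j ∈ tl B Q T U F P)
    {C D : Finset (Finset V)} (hCD : C ≠ D) (hl : lj B Q U F P j = {C, D}) :
    8 * sT B Q T U F 15 j + tF B Q T U F P j - 1120 - ndF B Q T U F P a C =
      8 + 16 * (12 - (jC B Q j C : ℤ) - jC B Q j D) +
      tF B Q T U F P j - ndF B Q T U F P a C := by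
  have h1 := s.toStg.sT_uj hj
  have h2 := s.toStg.jC_pair hj hCD hl
  linarith

/-- **the other class is not private.** -/
theorem pay_two (s : StgR B Q T U F P a) (hj : j ∈ tl B Q T U F P)
    (fat : ι → Finset (Finset V) → ℤ)
    {C D : Finset (Finset V)} (hCD : C ≠ D) (hl : lj B Q U F P j = {C, D})
    (hC : (aC B Q T U F P C).card ≠ 1) :
    payT (ncl B Q T U F P j) (jC B Q j C) (jC B Q j D) ≤ clmF 149 B Q T U F P a fat j D := by
  have hl' : lj B Q U F P j = {D, C} := by rw [hl, pair_comm]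
  have h1 := s.toStg.jC_two hj hCD hl
  have h3 := s.pair_ncl hj hCD hl
  rw [s.toStg.clmF_two hCD hl hC]
  rcases Nat.eq_zero_or_pos (ncl B Q T U F P j) with h4 | h4
  · rw [h4]
    unfold pr
    rw [if_pos rfl]
    exact pr0_geT (by omega)
  · refine pr_geT (by omega) h1.2 h1.1 h4 ?_
    have h5 := s.hc_two hj hCD.symm hl' h4
    omega

/-- the hypothesis of the numerical lemmas. -/
theorem hc3 (s : StgR B Q T U F P a) (hj : j ∈ tl B Q T U F P)
    {C D : Finset (Finset V)} (hCD : C ≠ D) (hl : lj B Q U F P j = {C, D})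
    (hc : 1 ≤ ncl B Q T U F P j) :
    jC B Q j C + jC B Q j D + ncl B Q T U F P j ≤ 8 ∨ jC B Q j D + ncl B Q T U F P j ≤ 4 ∨
      jC B Q j C + ncl B Q T U F P j ≤ 4 := by
  rcases s.hc_two hj hCD hl hc with h | ⟨_, h | h⟩
  · exact Or.inl h
  · exact Or.inr (Or.inr h)
  · exact Or.inr (Or.inl h)

/-- **the private class needs at most `fB`.** -/
theorem rest_of (s : StgR B Q T U F P a) (hj : j ∈ tl B Q T U F P)
    {C D : Finset (Finset V)} (hCD : C ≠ D) (hl : lj B Q U F P j = {C, D})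
    (hn : ndF B Q T U F P a C ≤ fB (jC B Q j C)) :
    payT (ncl B Q T U F P j) (jC B Q j C) (jC B Q j D) ≤
      8 * sT B Q T U F 15 j + tF B Q T U F P j - 1120 - ndF B Q T U F P a C := by
  obtain ⟨h1, h2⟩ := s.toStg.jC_two hj hCD hl
  rw [s.rest_eq hj hCD hl]
  exact pay_fB hn h1 h2 (s.pair_ncl hj hCD hl) (Stg.tF_ge j) (s.hc3 hj hCD hl)

/-- at most six hits at a point leaf which is its own class. -/
theorem le_six (s : StgR B Q T U F P a) (hL : {L} ∈ P) (hj : j ∈ T) (h1 : L.card = 1) :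
    jh B Q j L ≤ 6 := by
  obtain ⟨x, rfl⟩ := card_eq_one.1 h1
  exact s.mtr.toMTQ.point_six s.viol hj (s.toStg.leafF hL)
    (s.toStg.free_own (s.toStg.own_par hL))

/-- **the private class is a single leaf without centre.** -/
theorem rest_one (s : StgR B Q T U F P a) (hF : Few B Q T F) (hj : j ∈ tl B Q T U F P)
    {D : Finset (Finset V)} (hL : {L} ∈ P)
    (hLD : {L} ≠ D) (hl : lj B Q U F P j = {{L}, D})
    (hq : (aC B Q T U F P {L}).card = 1) (hn : NCt B Q T U F P {L}) :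
    payT (ncl B Q T U F P j) (jh B Q j L) (jC B Q j D) ≤
      8 * sT B Q T U F 15 j + tF B Q T U F P j - 1120 - ndF B Q T U F P a {L} ∨
    (Sp.Kin (Rg B Q T U F) (slj B Q F) {L} = ∅ ∧ ee B Q L = 0 ∧
      msC 149 B Q T U F P a {L} ≤ 144 * (jh B Q j L : ℤ) - 440 - 120 * (dv B Q L + 1) -
        5 * (hit B ((Q \ (B j ∩ Q)) \ L) L : ℤ) - 115 * (hit B U L : ℤ) ∧
      ((L.card = 3 ∧ nt B L 1 = 1 ∧ dv B Q L = -1 ∧ 4 ≤ jh B Q j L) ∨
      (L.card = 1 ∧ dv B Q L = 1 ∧ 3 ≤ hit B ((Q \ (B j ∩ Q)) \ L) L ∧ jh B Q j L = 6 ∧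
        ¬ (1 ≤ ncl B Q T U F P j ∧ 6 + jC B Q j D + ncl B Q T U F P j ≤ 8)) ∨
      (L.card = 3 ∧ nt B L 1 = 3 ∧ cm B L = 9 ∧ dv B Q L = 3 ∧ jh B Q j L = 7 ∧
        4 ≤ hit B ((Q \ (B j ∩ Q)) \ L) L ∧ hit B U L = 0))) := by
  have hl' : lj B Q U F P j = {D, {L}} := by rw [hl, pair_comm]
  obtain ⟨e1, e2⟩ := s.toStg.jC_two hj hLD hl
  have e3 := s.pair_ncl hj hLD hl
  have e4 := Stg.tF_ge (B := B) (Q := Q) (T := T) (U := U) (F := F) (P := P) j
  have e5 := s.hc3 hj hLD hl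
  have hjA : j ∈ aC B Q T U F P {L} := Sp.mem_atl.2 ⟨hj, by rw [hl]; simp⟩
  have hqj : aC B Q T U F P {L} = {j} := by
    obtain ⟨k, hk⟩ := card_eq_one.1 hq
    rw [hk] at hjA ⊢
    rw [mem_singleton.1 hjA]
  have ho : oj B Q U F P j = ∅ := by
    rcases s.toStg.two_or hj with h | h
    · exact h.2
    · rw [hl, card_pair hLD] at h
      omega
  have hLF := s.toStg.leafF hL
  have hjT := (s.toStg.tl_sub hj).1
  rw [s.rest_eq hj hLD hl, ← s.toStg.jC_one (L := L) (j := j)]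
  rcases (Sp.Kin (Rg B Q T U F) (slj B Q F) {L}).eq_empty_or_nonempty with hK | hK
  swap
  · left
    exact pay_low (s.kin_need hF hL hqj hK) e1 e2 e3 e4 e5
  have hnd : ndF B Q T U F P a {L} = msC 149 B Q T U F P a {L} :=
    s.toStg.ndC_eq hK
  rw [hnd]
  rcases s.toStg.ms_priv hL hqj ho hK hn with hms | hms
  · left
    exact pay_low (by linarith) e1 e2 e3 e4 e5
  rw [s.toStg.jC_one] at e1 e3 e5 ⊢
  have hpl := s.viol.places s.frm hjT hLF
  obtain ⟨hev, hdv, hd1⟩ := s.viol.even_dv s.frm hLF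
  have hP : ((dv B Q L + 1).toNat : ℤ) = dv B Q L + 1 := Int.toNat_of_nonneg (by omega)
  have hW2 := s.toStg.two_out hL hj
  have hjh : jh B Q j L = hit B (B j ∩ Q) L := rfl
  have hP2 : (dv B Q L + 1).toNat = 0 ∨ 2 ≤ (dv B Q L + 1).toNat := by
    obtain ⟨k, hk⟩ := hev
    omega
  by_cases h31 : (dv B Q L + 1).toNat = 0 ∧ 4 ≤ jh B Q j L
  · right
    have hee : ee B Q L = 0 := by omega
    obtain ⟨h3, h4⟩ := (s.toStg.small_leaf hLF hee).1 h31.1
    exact ⟨hK, hee, hms, Or.inl ⟨h3, h4, by omega, h31.2⟩⟩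
  have hW3 := s.toStg.W_ge hL hj fun h0 => ⟨e1, by omega⟩
  have hms' : msC 149 B Q T U F P a {L} ≤ 144 * (jh B Q j L : ℤ) - 440 -
      120 * ((dv B Q L + 1).toNat : ℤ) - 5 * (hit B ((Q \ (B j ∩ Q)) \ L) L : ℤ) -
      115 * (hit B U L : ℤ) := by rw [hP]; exact hms
  have key : (160 * jh B Q j L ≤ 545 + 120 * (dv B Q L + 1).toNat +
      5 * hit B ((Q \ (B j ∩ Q)) \ L) L + 115 * hit B U L ∨
      (1 ≤ ncl B Q T U F P j ∧ jh B Q j L + jC B Q j D + ncl B Q T U F P j ≤ 8)) →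
      payT (ncl B Q T U F P j) (jh B Q j L) (jC B Q j D) ≤
      8 + 16 * (12 - (jh B Q j L : ℤ) - jC B Q j D) +
      tF B Q T U F P j - msC 149 B Q T U F P a {L} := fun h =>
    pay_reg hms' hW3 h (fun h0 => by omega) hP2 e1 e2 e3 e4 e5
  rcases s.toStg.score hL hj with hsc | ⟨hee, hrow⟩
  · left
    refine key (Or.inl ?_)
    have h1 : (0 : ℤ) ≤ hit B U L := by positivity
    have h2 : (160 : ℤ) * (jh B Q j L : ℤ) ≤ 545 + 120 * ((dv B Q L + 1).toNat : ℤ) +
        5 * (hit B ((Q \ (B j ∩ Q)) \ L) L : ℤ) + 115 * (hit B U L : ℤ) := by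
      rw [hP]
      linarith
    exact_mod_cast h2
  rcases hrow with ⟨h3, h4, h5, h6⟩ | ⟨h3, h5, h6, h7⟩ | ⟨h3, h4, h5, h6, h7, h8⟩
  · exact absurd ⟨by omega, h6⟩ h31
  · have h8 := s.le_six hL hjT h3
    have h9 : jh B Q j L = 6 := by omega
    by_cases hc8 : 1 ≤ ncl B Q T U F P j ∧ 6 + jC B Q j D + ncl B Q T U F P j ≤ 8
    · left
      exact key (Or.inr ⟨hc8.1, by omega⟩)
    · right
      exact ⟨hK, hee, hms, Or.inr (Or.inl ⟨h3, h5, h6, h9, hc8⟩)⟩
  · by_cases hg : hit B U L = 0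
    · right
      exact ⟨hK, hee, hms, Or.inr (Or.inr ⟨h3, h4, h5, h6, h7, h8, hg⟩)⟩
    · left
      exact key (Or.inl (by omega))

end StgR

end Pool.Agent.Hyp6
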