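import Pool.Agent.Hyp6.L3Yg
import Pool.Agent.Hyp6.L3Tf

/-!
# HYP6 L3Yh: the needs of the classes as numbers

`yj`: the own hits of a line triple at a class. `cJ`: the need of a line triple at a class. `nC`: the
need of the class without its line triples. `NdOk`: the class is paid, for any claims which are at least
the least prices and `fcl`. `StgR.nd_ok`: it follows from `sum cJ + nC <= 0`. `StgR.finT`: the last step,
without full classes, without exact claims, without composite classes which have no line triple.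
-/

set_option autoImplicit false

namespace Pool.Agent.Hyp6

open Finset Pool.Agent.Hyp5 Rt

universe u v

variable {V : Type v} [DecidableEq V] {ι : Type u} [Fintype ι] [DecidableEq ι]
  {B : ι → Finset V}

/-- the own hits of a line triple at a class. -/
noncomputable def yj (B : ι → Finset V) (Q U : Finset V) (F : Finset (Finset V))
    (P : Finset (Finset (Finset V))) (j : ι) (C : Finset (Finset V)) : ℕ :=
  Sp.owl U (slf B F) P (lj B Q U F P) (fun u C => uC B u C) j C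

/-- the need of a line triple at a class. -/
noncomputable def cJ (B : ι → Finset V) (Q U : Finset V) (F : Finset (Finset V))
    (P : Finset (Finset (Finset V))) (j : ι) (C : Finset (Finset V)) : ℤ :=
  if (lj B Q U F P j).card = 2 then 144 * (jC B Q j C : ℤ) - 560 - pm (jC B Q j C)
  else 144 * (jC B Q j C : ℤ) - sF (jC B Q j C)

/-- the need of a class without its line triples. -/
noncomputable def nC (B : ι → Finset V) (Q : Finset V) (T : Finset ι) (U : Finset V)
    (F : Finset (Finset V)) (P : Finset (Finset (Finset V))) (C : Finset (Finset V)) : ℤ :=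
  ∑ j ∈ Trs B Q T (Rg B Q T U F) U F P, (144 * (jC B Q j C : ℤ) - Xv 149 B Q T U F P j C) -
    5 * (gC B U F P C : ℤ) + ∑ L ∈ C, (240 * (ee B Q L : ℤ) - 120 * Pp B L + 120) +
    ∑ k ∈ KC B Q T U F C,
      (600 - 160 * ((jn B Q (Ep B Q T U F) k : ℤ) + jb B Q T U k) - tF B Q T U F P k) -
    ∑ u ∈ Sp.Uin U (slf B F) C, (600 + 160 * (uo B Q T U F u : ℤ))

/-- a line triple with own points and an exact claim. -/
def Exa (B : ι → Finset V) (Q : Finset V) (T : Finset ι) (U : Finset V)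
    (F : Finset (Finset V)) (P : Finset (Finset (Finset V))) (C : Finset (Finset V)) : Prop :=
  ∃ j ∈ aC B Q T U F P C, 3 ≤ (lj B Q U F P j).card ∧ 4 ≤ jC B Q j C ∧ bC B Q T U F P C = 1

/-- **the class is paid**, for any claims which are at least the least prices and `fcl`. -/
def NdOk (B : ι → Finset V) (Q : Finset V) (T : Finset ι) (U : Finset V)
    (F : Finset (Finset V)) (P : Finset (Finset (Finset V))) (a : V → Finset (Finset V) → ℕ)
    (C : Finset (Finset V)) : Prop :=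
  ∀ c : ι → ℤ,
    (∀ j ∈ aC B Q T U F P C, (lj B Q U F P j).card = 2 → pm (jC B Q j C) ≤ c j) →
    (∀ j ∈ aC B Q T U F P C, 3 ≤ (lj B Q U F P j).card →
      fcl 149 B Q T U F P a (tF B Q T U F P) j C ≤ c j) →
    ndF B Q T U F P a C ≤ ∑ j ∈ aC B Q T U F P C, c j

namespace Stg

variable {Q U : Finset V} {T : Finset ι} {F : Finset (Finset V)}
  {P : Finset (Finset (Finset V))} {a : V → Finset (Finset V) → ℕ}

theorem yj_thin (s : Stg B Q T U F P a) {j : ι} (hj : j ∈ tl B Q T U F P)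
    (h2 : (lj B Q U F P j).card = 2) (C : Finset (Finset V)) : yj B Q U F P j C = 0 := by
  rcases s.two_or hj with ⟨_, h3⟩ | ⟨h3, _⟩
  · show Sp.ld (oj B Q U F P j) (fun u C => uC B u C) C = 0
    unfold Sp.ld
    rw [h3, sum_empty]
  · omega

/-- a line triple with own points has an own hit on every class of its line. -/
theorem yj_pos (s : Stg B Q T U F P a) {j : ι} {C : Finset (Finset V)}
    (hj : j ∈ aC B Q T U F P C) (h3 : 3 ≤ (lj B Q U F P j).card) : 1 ≤ yj B Q U F P j C := by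
  obtain ⟨hjt, hCl⟩ := Sp.mem_atl.1 hj
  rcases s.two_or hjt with ⟨h4, _⟩ | ⟨_, h4⟩
  · omega
  · obtain ⟨u, hu, hm⟩ := s.seen hjt h4 hCl
    have hux : u ∈ Sp.Ux U (slf B F) P := Sp.UU_sub hu
    have h5 := s.frm.uC_ge (mem_filter.1 hux).1 hm
    have h6 : uC B u C ≤ yj B Q U F P j C :=
      single_le_sum (f := fun u => uC B u C) (fun _ _ => Nat.zero_le _) hu
    omega

/-- the own hits are hits of crossing points. -/
theorem yj_sum (s : Stg B Q T U F P a) (C : Finset (Finset V)) :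
    ∑ j ∈ aC B Q T U F P C, yj B Q U F P j C ≤ gC B U F P C :=
  Sp.owl_le (a := fun u C => uC B u C) s.lnf C

/-- the own hits are at most the own units. -/
theorem yj_le (s : Stg B Q T U F P a) {j : ι} {C : Finset (Finset V)} (hC : C ∈ P)
    (hf : ¬ Ful B Q T U F P a C) : yj B Q U F P j C ≤ owj B Q U F P a j C := by
  have hbal : ∀ u ∈ Sp.Ux U (slf B F) P, uC B u C ≤ a u C := (s.bal C hC).resolve_left hf
  exact sum_le_sum fun u hu => hbal u (Sp.UU_sub hu)

/-- the unused own units are unused units. -/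
theorem yj_gap (s : Stg B Q T U F P a) {C : Finset (Finset V)} (hC : C ∈ P)
    (hf : ¬ Ful B Q T U F P a C) :
    ∑ j ∈ aC B Q T U F P C, ((owj B Q U F P a j C : ℤ) - yj B Q U F P j C) ≤
      (Sp.ld (Sp.Ux U (slf B F) P) a C : ℤ) - gC B U F P C := by
  have hbal : ∀ u ∈ Sp.Ux U (slf B F) P, uC B u C ≤ a u C := (s.bal C hC).resolve_left hf
  have h1 := Sp.owl_le (a := fun u C => a u C - uC B u C) s.lnf C
  have h2 : ∀ j, (Sp.owl U (slf B F) P (lj B Q U F P) (fun u C => a u C - uC B u C) j C : ℤ) =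
      (owj B Q U F P a j C : ℤ) - yj B Q U F P j C := by
    intro j
    unfold owj yj Sp.owl Sp.ld
    push_cast
    rw [← sum_sub_distrib]
    exact sum_congr rfl fun u hu => Nat.cast_sub (hbal u (Sp.UU_sub hu))
  have h3 : (Sp.ld (Sp.Ux U (slf B F) P) (fun u C => a u C - uC B u C) C : ℤ) =
      (Sp.ld (Sp.Ux U (slf B F) P) a C : ℤ) - gC B U F P C := by
    unfold gC Sp.ld
    push_cast
    rw [← sum_sub_distrib]
    exact sum_congr rfl fun u hu => Nat.cast_sub (hbal u hu)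
  have h4 : ((∑ j ∈ aC B Q T U F P C,
      Sp.owl U (slf B F) P (lj B Q U F P) (fun u C => a u C - uC B u C) j C : ℕ) : ℤ) ≤
      ((Sp.ld (Sp.Ux U (slf B F) P) (fun u C => a u C - uC B u C) C : ℕ) : ℤ) := by
    exact_mod_cast h1
  push_cast at h4
  rw [h3, sum_congr rfl fun j _ => h2 j] at h4
  exact h4

end Stg

namespace StgR

variable {Q U : Finset V} {T : Finset ι} {F : Finset (Finset V)}
  {P : Finset (Finset (Finset V))} {a : V → Finset (Finset V) → ℕ}

/-- **the need of a class which is not full**. -/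
theorem nd_le_c (s : StgR B Q T U F P a) {C : Finset (Finset V)} (hC : C ∈ P)
    (hf : ¬ Ful B Q T U F P a C) {c : ι → ℤ}
    (hc2 : ∀ j ∈ aC B Q T U F P C, (lj B Q U F P j).card = 2 → pm (jC B Q j C) ≤ c j)
    (hc3 : ∀ j ∈ aC B Q T U F P C, 3 ≤ (lj B Q U F P j).card →
      sF (jC B Q j C) - 560 - 3 * (owj B Q U F P a j C : ℤ) ≤ c j)
    (hn : ∑ j ∈ aC B Q T U F P C, cJ B Q U F P j C + nC B Q T U F P C ≤ 0) :
    ndF B Q T U F P a C ≤ ∑ j ∈ aC B Q T U F P C, c j := by
  have h1 := s.toStg.ms_eq 149 hC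
  have h3 := s.toStg.yj_sum C
  have h4 : ∑ j ∈ aC B Q T U F P C, (144 * (jC B Q j C : ℤ) - 560 +
          112 * (Sp.owl U (slf B F) P (lj B Q U F P) a j C : ℤ)) ≤
      ∑ j ∈ aC B Q T U F P C, (c j + cJ B Q U F P j C + 115 * (yj B Q U F P j C : ℤ) +
        288 * ((owj B Q U F P a j C : ℤ) - yj B Q U F P j C)) := by
    refine sum_le_sum fun j hj => ?_
    have hjt := (Sp.mem_atl.1 hj).1
    rcases s.toStg.two_or hjt with h5 | h5
    · have h6 := hc2 j hj h5.1
      have h7 := s.toStg.yj_thin hjt h5.1 C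
      have h8 := s.owj_thin hjt h5.1 C
      unfold cJ
      rw [if_pos h5.1, h7, h8]
      push_cast
      linarith
    · have h6 := hc3 j hj h5.1
      have h7 : (yj B Q U F P j C : ℤ) ≤ owj B Q U F P a j C := by
        exact_mod_cast s.toStg.yj_le (j := j) hC hf
      unfold cJ
      rw [if_neg (by omega)]
      linarith
  have h5 : ∑ j ∈ aC B Q T U F P C, (c j + cJ B Q U F P j C + 115 * (yj B Q U F P j C : ℤ) +
        288 * ((owj B Q U F P a j C : ℤ) - yj B Q U F P j C)) =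
      ∑ j ∈ aC B Q T U F P C, c j + ∑ j ∈ aC B Q T U F P C, cJ B Q U F P j C +
        115 * ∑ j ∈ aC B Q T U F P C, (yj B Q U F P j C : ℤ) +
        288 * ∑ j ∈ aC B Q T U F P C, ((owj B Q U F P a j C : ℤ) - yj B Q U F P j C) := by
    simp only [sum_add_distrib, mul_sum]
  rw [h5] at h4
  have h6 := s.toStg.yj_gap hC hf
  have h7 : (∑ j ∈ aC B Q T U F P C, (yj B Q U F P j C : ℤ)) ≤ (gC B U F P C : ℤ) := by
    exact_mod_cast h3
  have h9 : ndF B Q T U F P a C = msC 149 B Q T U F P a C -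
      ∑ k ∈ Sp.Kin (Rg B Q T U F) (slj B Q F) C, tF B Q T U F P k := rfl
  have h8 : ∑ k ∈ KC B Q T U F C,
      (600 - 160 * ((jn B Q (Ep B Q T U F) k : ℤ) + jb B Q T U k) - tF B Q T U F P k) =
      ∑ k ∈ Sp.Kin (Rg B Q T U F) (slj B Q F) C,
        (600 - 160 * ((jn B Q (Ep B Q T U F) k : ℤ) + jb B Q T U k)) -
      ∑ k ∈ Sp.Kin (Rg B Q T U F) (slj B Q F) C, tF B Q T U F P k := by
    rw [← sum_sub_distrib]
  unfold nC at hn
  rw [h8] at hn
  rw [h9, h1]
  linarith

/-- **a class with an exact claim**. -/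
theorem nd_exact (_s : StgR B Q T U F P a) {C : Finset (Finset V)}
    {c : ι → ℤ} {j0 : ι}
    (hj0 : j0 ∈ aC B Q T U F P C) (h4 : 4 ≤ jC B Q j0 C) (hb : bC B Q T U F P C = 1)
    (hc0 : xcl 149 B Q T U F P a (tF B Q T U F P) j0 C ≤ c j0)
    (hc : ∀ i ∈ aC B Q T U F P C, i ≠ j0 → jC B Q i C ≤ 3 →
      149 * (jC B Q i C : ℤ) - 560 - 3 * (owj B Q U F P a i C : ℤ) ≤ c i) :
    ndF B Q T U F P a C ≤ ∑ j ∈ aC B Q T U F P C, c j := by
  rw [← add_sum_erase _ _ hj0]
  have h1 : ∑ i ∈ (aC B Q T U F P C).erase j0,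
      (149 * (jC B Q i C : ℤ) - 560 - 3 * (owj B Q U F P a i C : ℤ)) ≤
      ∑ i ∈ (aC B Q T U F P C).erase j0, c i := by
    refine sum_le_sum fun i hi => ?_
    obtain ⟨h5, h6⟩ := mem_erase.1 hi
    refine hc i h6 h5 ?_
    by_contra h7
    obtain ⟨k, hk⟩ := card_eq_one.1 hb
    have h8 : i ∈ (aC B Q T U F P C).filter (fun i => 4 ≤ jC B Q i C) :=
      mem_filter.2 ⟨h6, by omega⟩
    have h9 : j0 ∈ (aC B Q T U F P C).filter (fun i => 4 ≤ jC B Q i C) :=
      mem_filter.2 ⟨hj0, h4⟩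
    rw [hk, mem_singleton] at h8 h9
    exact h5 (h8.trans h9.symm)
  have h2 : xcl 149 B Q T U F P a (tF B Q T U F P) j0 C = ndF B Q T U F P a C -
      ∑ i ∈ (aC B Q T U F P C).erase j0,
      (149 * (jC B Q i C : ℤ) - 560 - 3 * (owj B Q U F P a i C : ℤ)) := rfl
  linarith

theorem pm_149 {h : ℕ} (h1 : 1 ≤ h) (h3 : h ≤ 3) : 149 * (h : ℤ) - 560 ≤ pm h := by
  unfold pm
  split_ifs <;> omega

/-- a line triple at a class of a line with two classes has a hit on it. -/
theorem jC_thin (s : StgR B Q T U F P a) {j : ι} {C : Finset (Finset V)}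
    (hj : j ∈ aC B Q T U F P C) (h2 : (lj B Q U F P j).card = 2) : 1 ≤ jC B Q j C := by
  obtain ⟨hjt, hC⟩ := Sp.mem_atl.1 hj
  obtain ⟨D, hD⟩ := card_eq_one.1 (by rw [card_erase_of_mem hC, h2] :
    ((lj B Q U F P j).erase C).card = 1)
  have hl : lj B Q U F P j = {C, D} := by rw [← insert_erase hC, hD]
  have hCD : C ≠ D := by
    have : D ∈ (lj B Q U F P j).erase C := by rw [hD]; exact mem_singleton_self D
    exact (mem_erase.1 this).1.symm
  exact (s.toStg.jC_two hjt hCD hl).1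

/-- **a class is paid**, from the numbers. -/
theorem nd_ok (s : StgR B Q T U F P a) {C : Finset (Finset V)} (hC : C ∈ P)
    (hf : ¬ Ful B Q T U F P a C)
    (hn : ¬ Exa B Q T U F P C →
      ∑ j ∈ aC B Q T U F P C, cJ B Q U F P j C + nC B Q T U F P C ≤ 0) :
    NdOk B Q T U F P a C := by
  intro c hc2 hc3
  have hor : ∀ j ∈ aC B Q T U F P C, (lj B Q U F P j).card = 2 ∨
      3 ≤ (lj B Q U F P j).card := by
    intro j hj
    rcases s.toStg.two_or (Sp.mem_atl.1 hj).1 with h | h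
    · exact Or.inl h.1
    · exact Or.inr h.1
  by_cases hx : Exa B Q T U F P C
  · obtain ⟨j0, hj0, h3, h4, hb⟩ := hx
    refine s.nd_exact hj0 h4 hb ?_ fun i hi _ h5 => ?_
    · rw [← fcl_exact hf h4 hb]
      exact hc3 j0 hj0 h3
    · rcases hor i hi with h2 | h2
      · rw [s.owj_thin (Sp.mem_atl.1 hi).1 h2]
        have h6 := pm_149 (s.jC_thin hi h2) h5
        have h7 := hc2 i hi h2
        push_cast
        linarith
      · have h6 := hc3 i hi h2
        rw [fcl_shared hf (fun h => by omega)] at h6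
        have h7 := sF_149 (jC B Q i C) h5
        linarith
  · refine s.nd_le_c hC hf hc2 (fun j hj h2 => ?_) (hn hx)
    rw [← fcl_shared hf (fun h => hx ⟨j, hj, h2, h⟩)]
    exact hc3 j hj h2

/-- a class with an exact claim is paid. -/
theorem nd_exa (s : StgR B Q T U F P a) {C : Finset (Finset V)} (hC : C ∈ P)
    (hf : ¬ Ful B Q T U F P a C) (hx : Exa B Q T U F P C) : NdOk B Q T U F P a C :=
  s.nd_ok hC hf fun h => absurd hx h

/-- **the rest at private ends**, all of them from those which are not full. -/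
theorem RGT_all (s : StgR B Q T U F P a)
    (RG : ∀ j ∈ tl B Q T U F P, ∀ C D, C ≠ D → lj B Q U F P j = {C, D} →
      (aC B Q T U F P D).card = 1 → ¬ Ful B Q T U F P a D →
      payT (ncl B Q T U F P j) (jC B Q j D) (jC B Q j C) ≤
        8 * sT B Q T U F 15 j + tF B Q T U F P j - 1120 - ndF B Q T U F P a D) :
    ∀ j ∈ tl B Q T U F P, ∀ C D, C ≠ D → lj B Q U F P j = {C, D} →
      (aC B Q T U F P D).card = 1 →
      payT (ncl B Q T U F P j) (jC B Q j D) (jC B Q j C) ≤
        8 * sT B Q T U F 15 j + tF B Q T U F P j - 1120 - ndF B Q T U F P a D := by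
  intro j hj C D hCD hl hD
  by_cases hf : Ful B Q T U F P a D
  · have hDP : D ∈ P := s.lnf.sub j hj (by rw [hl]; simp)
    have h1 := s.nd_full1 hDP hf (Sp.mem_atl.2 ⟨hj, by rw [hl]; simp⟩)
      (by rw [hl, card_pair hCD]) hD
    refine s.rest_of hj hCD.symm (by rw [hl, pair_comm]) (h1.trans ?_)
    have h2 := pm_ge (jC B Q j D)
    have h3 := pm_le_fB (jC B Q j D)
    linarith
  · exact RG j hj C D hCD hl hD hf

/-- **the last step**. `RG`: the rest at a private end; single leaves: `S0`, `SN`, `SM` without centre, `B0`,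
`BL` with a centre; composite classes: `CN`, `E0`, `EN`; classes with inside triples: `D0`, `DN`; lines
with two private ends `L2`, lines with own points `LF`. -/
theorem finT (s : StgR B Q T U F P a)
    (RG : ∀ j ∈ tl B Q T U F P, ∀ C D, C ≠ D → lj B Q U F P j = {C, D} →
      (aC B Q T U F P D).card = 1 → ¬ Ful B Q T U F P a D →
      payT (ncl B Q T U F P j) (jC B Q j D) (jC B Q j C) ≤
        8 * sT B Q T U F 15 j + tF B Q T U F P j - 1120 - ndF B Q T U F P a D)
    (S0 : ∀ L, {L} ∈ P → ¬ Ful B Q T U F P a {L} → (aC B Q T U F P {L}).card = 0 →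
      KC B Q T U F {L} = ∅ → NCt B Q T U F P {L} → msC 149 B Q T U F P a {L} ≤ 0)
    (B0 : ∀ L, {L} ∈ P → ¬ Ful B Q T U F P a {L} → (aC B Q T U F P {L}).card = 0 →
      KC B Q T U F {L} = ∅ → (Bs B Q T U F P L).Nonempty → msC 149 B Q T U F P a {L} ≤ 0)
    (E0 : ∀ C ∈ P, ¬ Ful B Q T U F P a C → 2 ≤ C.card → (aC B Q T U F P C).card = 0 →
      KC B Q T U F C = ∅ → ¬ NCt B Q T U F P C → msC 149 B Q T U F P a C ≤ 0)
    (D0 : ∀ C ∈ P, ¬ Ful B Q T U F P a C → (aC B Q T U F P C).card = 0 →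
      (KC B Q T U F C).Nonempty → ndF B Q T U F P a C ≤ 0)
    (SN : ∀ L, {L} ∈ P → ¬ Ful B Q T U F P a {L} → 2 ≤ (aC B Q T U F P {L}).card →
      KC B Q T U F {L} = ∅ → NCt B Q T U F P {L} →
      (∀ j ∈ aC B Q T U F P {L}, (lj B Q U F P j).card = 2) →
      msC 149 B Q T U F P a {L} ≤ ∑ j ∈ aC B Q T U F P {L}, clG B Q T U F P a j {L})
    (SM : ∀ L, {L} ∈ P → ¬ Ful B Q T U F P a {L} → 2 ≤ (aC B Q T U F P {L}).card →
      KC B Q T U F {L} = ∅ → NCt B Q T U F P {L} →
      (∃ j ∈ aC B Q T U F P {L}, 3 ≤ (lj B Q U F P j).card) → ¬ Exa B Q T U F P {L} →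
      msC 149 B Q T U F P a {L} ≤ ∑ j ∈ aC B Q T U F P {L}, clG B Q T U F P a j {L})
    (BL : ∀ L, {L} ∈ P → ¬ Ful B Q T U F P a {L} → (aC B Q T U F P {L}).Nonempty →
      (2 ≤ (aC B Q T U F P {L}).card ∨ ∀ j ∈ aC B Q T U F P {L}, (lj B Q U F P j).card = 2) →
      KC B Q T U F {L} = ∅ → (Bs B Q T U F P L).Nonempty → ¬ Exa B Q T U F P {L} →
      NdOk B Q T U F P a {L})
    (CN : ∀ C ∈ P, ¬ Ful B Q T U F P a C → 2 ≤ C.card → 2 ≤ (aC B Q T U F P C).card →
      KC B Q T U F C = ∅ → NCt B Q T U F P C → ¬ Exa B Q T U F P C → NdOk B Q T U F P a C)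
    (EN : ∀ C ∈ P, ¬ Ful B Q T U F P a C → 2 ≤ C.card → 2 ≤ (aC B Q T U F P C).card →
      KC B Q T U F C = ∅ → ¬ NCt B Q T U F P C → ¬ Exa B Q T U F P C → NdOk B Q T U F P a C)
    (DN : ∀ C ∈ P, ¬ Ful B Q T U F P a C → 2 ≤ (aC B Q T U F P C).card →
      (KC B Q T U F C).Nonempty → ¬ Exa B Q T U F P C → NdOk B Q T U F P a C)
    (L2 : ∀ j ∈ tl B Q T U F P, ∀ C D, C ≠ D → lj B Q U F P j = {C, D} →
      aC B Q T U F P C = {j} → aC B Q T U F P D = {j} →
      ¬ Ful B Q T U F P a C → ¬ Ful B Q T U F P a D →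
      (KC B Q T U F C = ∅ → NCt B Q T U F P C ∨ 2 ≤ C.card) →
      (KC B Q T U F D = ∅ → NCt B Q T U F P D ∨ 2 ≤ D.card) →
      ndF B Q T U F P a C + ndF B Q T U F P a D ≤
        8 * sT B Q T U F 15 j + tF B Q T U F P j - 1120)
    (LF : ∀ j ∈ tl B Q T U F P, 1 ≤ (oj B Q U F P j).card →
      ∑ C ∈ (lj B Q U F P j).filter (fun C => (aC B Q T U F P C).card = 1),
        ndF B Q T U F P a C +
      ∑ C ∈ (lj B Q U F P j).filter (fun C => 2 ≤ (aC B Q T U F P C).card),
        fcl 149 B Q T U F P a (tF B Q T U F P) j C ≤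
        8 * sT B Q T U F 15 j + tF B Q T U F P j - 1120 +
          168 * ∑ u ∈ oj B Q U F P j, (uo B Q T U F u : ℤ)) :
    False := by
  have hpm : ∀ c t n, pm n ≤ payT c t n := fun c t n => (pm_le_payE c n).trans (payE_le_payT c t n)
  have RG' : ∀ j ∈ tl B Q T U F P, ∀ C D, C ≠ D → lj B Q U F P j = {C, D} →
      (aC B Q T U F P D).card = 1 →
      pm (jC B Q j C) ≤ 8 * sT B Q T U F 15 j + tF B Q T U F P j - 1120 - ndF B Q T U F P a D :=
    fun j hj C D hCD hl hD => (hpm _ _ _).trans (s.RGT_all RG j hj C D hCD hl hD)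
  have c2 : ∀ C, ∀ j ∈ aC B Q T U F P C, (lj B Q U F P j).card = 2 →
      pm (jC B Q j C) ≤ clG B Q T U F P a j C := fun C j hj h2 => s.clmF_ge' RG' hj h2
  have c3 : ∀ C, ∀ j ∈ aC B Q T U F P C, 3 ≤ (lj B Q U F P j).card →
      fcl 149 B Q T U F P a (tF B Q T U F P) j C ≤ clG B Q T U F P a j C := by
    intro C j hj h3
    have hjt := (Sp.mem_atl.1 hj).1
    rcases s.toStg.two_or hjt with h4 | h4
    · omega
    · show _ ≤ clmF 149 B Q T U F P a (fcl 149 B Q T U F P a (tF B Q T U F P)) j C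
      rw [s.toStg.clmF_fat hjt h4.2]
  have hms : ∀ C, KC B Q T U F C = ∅ → msC 149 B Q T U F P a C = ndF B Q T U F P a C :=
    fun C hK => (s.toStg.ndC_eq hK).symm
  refine s.finS (fun j hj C D hCD hl hD _ => RG' j hj C D hCD hl hD) S0 B0
    (fun C hC hf h1 h0 hK hn => s.toStg.C0 hC hf h1 h0 hK hn) E0 D0 SN
    (fun L hL hf h2 hK hn ht => ?_) (fun L hL hf h2 ht hK hb => ?_)
    (fun C hC hf h1 h2 hK hn => ?_) (fun C hC hf h1 h2 hK hn => ?_)
    (fun C hC hf h2 hK => ?_) L2 LF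
  · by_cases hx : Exa B Q T U F P {L}
    · rw [hms _ hK]
      exact s.nd_exa hL hf hx _ (c2 _) (c3 _)
    · exact SM L hL hf h2 hK hn ht hx
  · rw [hms _ hK]
    have h5 : NdOk B Q T U F P a {L} := by
      by_cases hx : Exa B Q T U F P {L}
      · exact s.nd_exa hL hf hx
      · exact BL L hL hf h2 ht hK hb hx
    refine h5 _ (fun j hj h3 => ?_) (fun j hj h3 => ?_)
    · rw [if_pos h3, s.toStg.jC_one]
    · rw [if_neg (by omega)]
  · rw [hms _ hK]
    by_cases hx : Exa B Q T U F P C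
    · exact s.nd_exa hC hf hx _ (c2 _) (c3 _)
    · exact CN C hC hf h1 h2 hK hn hx _ (c2 _) (c3 _)
  · rw [hms _ hK]
    by_cases hx : Exa B Q T U F P C
    · exact s.nd_exa hC hf hx _ (c2 _) (c3 _)
    · exact EN C hC hf h1 h2 hK hn hx _ (c2 _) (c3 _)
  · by_cases hx : Exa B Q T U F P C
    · exact s.nd_exa hC hf hx _ (c2 _) (c3 _)
    · exact DN C hC hf h2 hK hx _ (c2 _) (c3 _)

end StgR

end Pool.Agent.Hyp6
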