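import Pool.Agent.Hyp6.L3Yc
import Pool.Agent.Hyp6.L3Yh
import Pool.Agent.Hyp6.L3Fpg

/-!
# HYP6 L3Yd: classes with inside triples, the automatic cases

`StgR.don`: the donations of the inside triples of a class. `StgR.ndok`: a class is paid if its numbers
satisfy `NI`. `StgR.dense_auto`: the classes which are paid by numbers alone. `StgR.CN3`: composite
classes without inside triple and with three line triples.
-/

set_option autoImplicit false

namespace Pool.Agent.Hyp6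

open Finset Pool.Agent.Hyp5 Rt

universe u v

variable {V : Type v} [DecidableEq V] {ι : Type u} [Fintype ι] [DecidableEq ι]
  {B : ι → Finset V}

theorem sL_le_sF (h : ℕ) : sL h ≤ sF h := by
  unfold sL sF
  split_ifs <;> omega

namespace StgR

variable {Q U : Finset V} {T : Finset ι} {F : Finset (Finset V)}
  {P : Finset (Finset (Finset V))} {a : V → Finset (Finset V) → ℕ}

/-- the useless hits of an inside triple. -/
theorem kin_x (s : StgR B Q T U F P a) {C : Finset (Finset V)} {k : ι}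
    (hk : k ∈ Sp.Kin (Rg B Q T U F) (slj B Q F) C) :
    ∑ L ∈ F, jh B Q k L + (jn B Q (Ep B Q T U F) k + jb B Q T U k) = 12 := by
  obtain ⟨hkT, h0, _⟩ := s.toStg.kin.1 hk
  have h1 := s.frm.twelve s.viol.reg hkT
  omega

/-- the donations of an inside triple. -/
theorem kin_don (s : StgR B Q T U F P a) {C : Finset (Finset V)} (hC : C ∈ P) {k : ι}
    (hk : k ∈ Sp.Kin (Rg B Q T U F) (slj B Q F) C) :
    -tF B Q T U F P k ≤ 180 + 35 * ((jn B Q (Ep B Q T U F) k + jb B Q T U k : ℕ) : ℤ) ∧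
      -tF B Q T U F P k ≤ 80 * ((jn B Q (Ep B Q T U F) k + jb B Q T U k : ℕ) : ℤ) := by
  rw [s.tF_kin hC hk]
  have h1 := s.kin_hit hk
  have h2 := s.twelve_ncl (s.toStg.kin.1 hk).1
  have h3 := s.kin_x hk
  rcases Nat.eq_zero_or_pos (ncl B Q T U F P k) with h0 | h0
  · omega
  · rcases s.four_or_eight (s.toStg.kin.1 hk).1 h0 with ⟨v, _, _, _, h3⟩ | h3
    · omega
    · omega

/-- **the donations of a class**. -/
theorem don (s : StgR B Q T U F P a) {C : Finset (Finset V)} (hC : C ∈ P) :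
    -tK B Q (Rg B Q T U F) F (tF B Q T U F P) C ≤
        180 * ((Sp.Kin (Rg B Q T U F) (slj B Q F) C).card : ℤ) +
          35 * (Frm.xC B Q T (Rg B Q T U F) U F C : ℤ) ∧
      -tK B Q (Rg B Q T U F) F (tF B Q T U F P) C ≤
        80 * (Frm.xC B Q T (Rg B Q T U F) U F C : ℤ) := by
  have h1 : -tK B Q (Rg B Q T U F) F (tF B Q T U F P) C =
      ∑ k ∈ Sp.Kin (Rg B Q T U F) (slj B Q F) C, -tF B Q T U F P k := by
    unfold tK
    rw [sum_neg_distrib]
  have h2 : ∑ k ∈ Sp.Kin (Rg B Q T U F) (slj B Q F) C,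
      (180 + 35 * ((jn B Q (Ep B Q T U F) k + jb B Q T U k : ℕ) : ℤ)) =
      180 * ((Sp.Kin (Rg B Q T U F) (slj B Q F) C).card : ℤ) +
          35 * (Frm.xC B Q T (Rg B Q T U F) U F C : ℤ) := by
    unfold Frm.xC
    rw [sum_add_distrib, sum_const, nsmul_eq_mul, ← mul_sum, mul_comm]
    push_cast
    ring
  have h3 : ∑ k ∈ Sp.Kin (Rg B Q T U F) (slj B Q F) C,
      80 * ((jn B Q (Ep B Q T U F) k + jb B Q T U k : ℕ) : ℤ) =
      80 * (Frm.xC B Q T (Rg B Q T U F) U F C : ℤ) := by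
    unfold Frm.xC
    rw [← mul_sum]
    push_cast
    ring
  rw [h1, ← h2, ← h3]
  exact ⟨sum_le_sum fun k hk => (s.kin_don hC hk).1, sum_le_sum fun k hk => (s.kin_don hC hk).2⟩

/-- **a class is paid**, from its numbers. -/
theorem ndok (s : StgR B Q T U F P a) {C : Finset (Finset V)} (hC : C ∈ P)
    (hf : ¬ Ful B Q T U F P a C) (hx : ¬ Exa B Q T U F P C)
    (h : ∀ (k : ι → ℕ) (π : ι → ℤ) (sb : ι → ℕ) (x : ℤ),
      (∀ j ∈ aC B Q T U F P C, 1 ≤ k j ∧ jC B Q j C ≤ k j ∧ 560 + pm (k j) ≤ π j ∧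
        54 * (k j : ℤ) ≤ π j) →
      (∀ j ∈ Bc B Q T U F P C, sb j ≤ 8 ∧ sb j ≤ jC B Q j C) →
      x = ∑ j ∈ aC B Q T U F P C, (jC B Q j C : ℤ) + gC B U F P C -
        ∑ j ∈ aC B Q T U F P C, (k j : ℤ) +
        (∑ j ∈ Trs B Q T (Rg B Q T U F) U F P, (jC B Q j C : ℤ) -
          ∑ j ∈ Bc B Q T U F P C, (sb j : ℤ)) →
      Nd C.card (Sp.Uin U (slf B F) C).card (Sp.Kin (Rg B Q T U F) (slj B Q F) C).card
        (lsC B Q T U F C) (Frm.xC B Q T (Rg B Q T U F) U F C)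
        (∑ L ∈ C, fs B Q L) (∑ L ∈ C, (ee B Q L : ℤ)) (∑ L ∈ C, (nt B L 1 : ℤ))
        (∑ L ∈ C, (L.card : ℤ)) (aC B Q T U F P C).card (Bc B Q T U F P C).card
        (∑ j ∈ aC B Q T U F P C, (k j : ℤ)) (∑ j ∈ aC B Q T U F P C, π j)
        (∑ j ∈ Bc B Q T U F P C, (sb j : ℤ)) x →
      NI C.card (Sp.Uin U (slf B F) C).card (Sp.Kin (Rg B Q T U F) (slj B Q F) C).card
        (lsC B Q T U F C) (Frm.xC B Q T (Rg B Q T U F) U F C)
        (∑ L ∈ C, fs B Q L) (∑ L ∈ C, (ee B Q L : ℤ)) (∑ L ∈ C, (nt B L 1 : ℤ))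
        (Bc B Q T U F P C).card (∑ j ∈ aC B Q T U F P C, π j)
        (∑ j ∈ Bc B Q T U F P C, (sb j : ℤ)) x (-tK B Q (Rg B Q T U F) F (tF B Q T U F P) C)) :
    NdOk B Q T U F P a C := by
  intro c hc2 hc3
  obtain ⟨k, π, sb, x, h1, h2, h3, h4, h5⟩ := s.toStg.nd hC hf hc2 (fun j hj h3 => by
    have h6 := hc3 j hj h3
    rw [fcl_shared hf (fun h => hx ⟨j, hj, h3, h⟩)] at h6
    have h7 := sL_le_sF (jC B Q j C)
    have h8 : (1 : ℤ) ≤ owj B Q U F P a j C := by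
      have h81 := s.toStg.yj_pos hj h3
      have h82 := s.toStg.yj_le (j := j) hC hf
      exact_mod_cast h81.trans h82
    have h9 : (0 : ℤ) ≤ min ((owj B Q U F P a j C : ℤ) - 1) 2 :=
      le_min (by linarith) (by norm_num)
    linarith) (tF B Q T U F P)
  exact h5 (h k π sb x h1 h2 h3 h4)

/-- **the dense classes which are paid by numbers alone**. -/
theorem dense_auto (s : StgR B Q T U F P a) {C : Finset (Finset V)} (hC : C ∈ P)
    (hf : ¬ Ful B Q T U F P a C) (hx : ¬ Exa B Q T U F P C) {r K q : ℤ}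
    (hr : (C.card : ℤ) - (Sp.Uin U (slf B F) C).card = r)
    (hK : ((Sp.Kin (Rg B Q T U F) (slj B Q F) C).card : ℤ) = K)
    (hq : ((aC B Q T U F P C).card : ℤ) = q)
    (h : (r = 1 ∧ 2 ≤ K) ∨ (r = 2 ∧ 4 ≤ K) ∨ (r = 2 ∧ 3 ≤ K ∧ 1 ≤ q) ∨ (r = 3 ∧ 6 ≤ K) ∨
      (r = 4 ∧ 7 ≤ K)) : NdOk B Q T U F P a C := by
  obtain ⟨hd1, hd2⟩ := s.don hC
  refine s.ndok hC hf hx fun k π sb x _ _ _ hN => ?_
  rw [hK] at hN hd1 ⊢
  rw [hq] at hN
  rcases h with ⟨h1, h2⟩ | ⟨h1, h2⟩ | ⟨h1, h2, h3⟩ | ⟨h1, h2⟩ | ⟨h1, h2⟩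
  · exact hN.k1 (by rw [hr, h1]) h2 hd1 hd2
  · exact hN.k2 (by rw [hr, h1]) h2 hd1 hd2
  · exact hN.k2q (by rw [hr, h1]) h2 h3 hd1 hd2
  · exact hN.k3 (by rw [hr, h1]) h2 hd1 hd2
  · exact hN.k4 (by rw [hr, h1]) h2 hd1 hd2

/-- the dense classes without donations which are paid by numbers alone. -/
theorem dense_none (s : StgR B Q T U F P a) {C : Finset (Finset V)} (hC : C ∈ P)
    (hf : ¬ Ful B Q T U F P a C) (hx : ¬ Exa B Q T U F P C) {r K q : ℤ}
    (hr : (C.card : ℤ) - (Sp.Uin U (slf B F) C).card = r)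
    (hK : ((Sp.Kin (Rg B Q T U F) (slj B Q F) C).card : ℤ) = K)
    (hq : ((aC B Q T U F P C).card : ℤ) = q)
    (hd : ∀ k ∈ Sp.Kin (Rg B Q T U F) (slj B Q F) C, ncl B Q T U F P k = 0)
    (h : 3 ≤ r ∨ (r = 2 ∧ 3 ≤ K) ∨ (r = 2 ∧ 2 ≤ K ∧ 2 ≤ q) ∨ (r = 1 ∧ 1 ≤ K ∧ 1 ≤ q)) :
    NdOk B Q T U F P a C := by
  have hd0 : -tK B Q (Rg B Q T U F) F (tF B Q T U F P) C ≤ 0 := by
    unfold tK
    rw [sum_eq_zero fun k hk => by rw [s.tF_kin hC hk, hd k hk]; simp]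
    simp
  refine s.ndok hC hf hx fun k π sb x _ _ _ hN => ?_
  rw [hK] at hN ⊢
  rw [hq] at hN
  have hb := hN.b0
  rcases h with h1 | ⟨h1, h2⟩ | ⟨h1, h2, h3⟩ | ⟨h1, h2, h3⟩
  · exact hN.n3 (by rw [hr]; exact h1) hd0
  · exact hN.n2 (by rw [hr, h1]) h2 hd0
  · refine hN.n22 (by rw [hr, h1]) h2 (by linarith) (by linarith) (hd0.trans ?_)
    have := hN.X0
    linarith
  · exact hN.n11 (by rw [hr, h1]) h2 (by linarith) hd0

/-- the rank of a class without inside triple. -/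
theorem rank_none {n p K W X f e N M q b k S s x : ℤ} (h : Nd n p K W X f e N M q b k S s x)
    (hK : K = 0) : n - p = 1 := by
  have h1 := h.rk
  have h2 := h.dn
  omega

theorem three_S {A : Finset ι} {k : ι → ℕ} {π : ι → ℤ} (hA : A.card = 3)
    (h : ∀ j ∈ A, 1 ≤ k j ∧ 560 + pm (k j) ≤ π j ∧ 54 * (k j : ℤ) ≤ π j) :
    (∑ j ∈ A, (k j : ℤ) = 16 → 1464 ≤ ∑ j ∈ A, π j) ∧
      (∑ j ∈ A, (k j : ℤ) = 14 → 1416 ≤ ∑ j ∈ A, π j) := by
  have key16 : ∀ a ∈ range 15, ∀ b ∈ range 15, 1 ≤ a → 1 ≤ b → a + b ≤ 15 →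
      (1464 : ℤ) ≤ max (560 + pm a) (54 * (a : ℤ)) + max (560 + pm b) (54 * (b : ℤ)) +
        max (560 + pm (16 - a - b)) (54 * ((16 - a - b : ℕ) : ℤ)) := by decide +kernel
  have key14 : ∀ a ∈ range 13, ∀ b ∈ range 13, 1 ≤ a → 1 ≤ b → a + b ≤ 13 →
      (1416 : ℤ) ≤ max (560 + pm a) (54 * (a : ℤ)) + max (560 + pm b) (54 * (b : ℤ)) +
        max (560 + pm (14 - a - b)) (54 * ((14 - a - b : ℕ) : ℤ)) := by decide +kernel
  classical
  obtain ⟨x, y, z, hxy, hxz, hyz, rfl⟩ := card_eq_three.1 hA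
  have hs : ∀ f : ι → ℤ, ∑ j ∈ {x, y, z}, f j = f x + f y + f z := by
    intro f
    rw [sum_insert (by simp [hxy, hxz]), sum_pair hyz]
    ring
  rw [hs, hs]
  obtain ⟨x1, x2, x3⟩ := h x (by simp)
  obtain ⟨y1, y2, y3⟩ := h y (by simp)
  obtain ⟨z1, z2, z3⟩ := h z (by simp)
  have x4 := max_le x2 x3
  have y4 := max_le y2 y3
  have z4 := max_le z2 z3
  constructor
  · intro h16
    have e : 16 - k x - k y = k z := by omega
    have h1 := key16 (k x) (by rw [mem_range]; omega) (k y) (by rw [mem_range]; omega) x1 y1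
      (by omega)
    rw [e] at h1
    linarith
  · intro h14
    have e : 14 - k x - k y = k z := by omega
    have h1 := key14 (k x) (by rw [mem_range]; omega) (k y) (by rw [mem_range]; omega) x1 y1
      (by omega)
    rw [e] at h1
    linarith

/-- **composite classes without inside triple, without centre and with three line triples**. -/
theorem CN3 (s : StgR B Q T U F P a) {C : Finset (Finset V)} (hC : C ∈ P)
    (hf : ¬ Ful B Q T U F P a C) (h2 : 2 ≤ C.card) (h3 : 3 ≤ (aC B Q T U F P C).card)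
    (hK : KC B Q T U F C = ∅) (hn : NCt B Q T U F P C) (hx : ¬ Exa B Q T U F P C) :
    NdOk B Q T U F P a C := by
  have hK' : Sp.Kin (Rg B Q T U F) (slj B Q F) C = ∅ := hK
  refine s.ndok hC hf hx fun k π sb x hk _ _ hN => ?_
  have hX : Frm.xC B Q T (Rg B Q T U F) U F C = 0 := by
    unfold Frm.xC
    rw [hK', sum_empty]
  have ht : tK B Q (Rg B Q T U F) F (tF B Q T U F P) C = 0 := by
    unfold tK
    rw [hK', sum_empty]
  rw [s.toStg.Bc_of_nct hC hn, hK', hX, card_empty, sum_empty] at hN ⊢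
  rw [ht]
  have hr := rank_none hN (by norm_num)
  have h2' : (2 : ℤ) ≤ C.card := by exact_mod_cast h2
  refine hN.q3 hr (by linarith) (by norm_num) (by norm_num) (by norm_num) rfl
    (by exact_mod_cast h3) (by norm_num) (fun h4 => ?_) (fun h4 => ?_)
  · exact (three_S (by exact_mod_cast h4) fun j hj => ⟨(hk j hj).1, (hk j hj).2.2⟩).1
  · exact (three_S (by exact_mod_cast h4) fun j hj => ⟨(hk j hj).1, (hk j hj).2.2⟩).2

end StgR

end Pool.Agent.Hyp6
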