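import Pool.Agent.Hyp6.L3Dr
import Pool.Agent.Hyp6.L3Yd
import Pool.Agent.Hyp6.L3Y11

/-!
# HYP6 L3Dr2: the inequality of a whole class with its inside triples

`StgR.whole`: a class `C` with `n` leaves, `p` inside points with `W` useless hits, `K` inside triples
with `X` useless hits and `c` claims, `D` of them with claims: the class without the points with claims
has at most `n - p` connected parts, the points with claims are covered by switches.
-/

set_option autoImplicit false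

namespace Pool.Agent.Hyp6

open Finset Pool.Agent.Hyp5 Rt

universe u v

section tools

variable {V : Type v} [DecidableEq V] {ι : Type u} [Fintype ι] {B : ι → Finset V}
  {Q U : Finset V} {T : Finset ι} {F : Finset (Finset V)}

/-- the value of a proper subset, from its parts. -/
theorem ViolR.parts_ge (h : ViolR B Q) {S : Finset V} (hSQ : S ⊆ Q) (hlt : S.card < Q.card)
    {Ks : Finset (Finset V)}
    (hK1 : ∀ K ∈ Ks, K ⊆ S ∧ Closed (gr B) S K ∧ Conn (gr B) K) (hK2 : SepF B Ks)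
    (hK3 : Ks.biUnion id = S) : -(Ks.card : ℤ) + 2 * (ee B Q S : ℤ) ≤ Pv B S := by
  classical
  have hcS : Cov B S := h.cov.mono hSQ
  have hsum : Pv B S = ∑ K ∈ Ks, Pv B K := by
    rw [← hK3]
    exact Pv_biUnion (fun K hK => hcS.mono (hK1 K hK).1) hK2
  have hee : ee B Q S = ∑ K ∈ Ks, ee B Q K := by
    rw [← hK3]
    exact ee_biUnion hK2
  have hone : ∀ K ∈ Ks, -1 + 2 * (ee B Q K : ℤ) ≤ Pv B K := by
    intro K hK
    have hKQ := (hK1 K hK).1.trans hSQ
    have hne : K ≠ Q := by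
      rintro rfl
      have := card_le_card (hK1 K hK).1
      omega
    have h1 := h.ih ι B K (lt_of_le_of_lt (card_le_card (hK1 K hK).1) hlt) (h.reg.mono hKQ)
      (h.tr.mono hKQ) (hK1 K hK).2.2 (not_KT_of_ssubset h.conn h.reg h.tr hKQ hne)
    have h2 : ee B Q K ≤ ee B K K := ee_le_ee (Subset.refl K) hKQ
    have h3 : (ee B Q K : ℤ) ≤ ee B K K := by exact_mod_cast h2
    linarith
  have hs := sum_le_sum hone
  rw [← hsum, sum_add_distrib, sum_const, ← mul_sum, nsmul_eq_mul] at hs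
  rw [hee]
  push_cast
  linarith

namespace Frm

omit [Fintype ι] in
/-- **the number of parts** of a set which contains leaves and inside points such that every point is
in a block with a point which sees a leaf. -/
theorem parts_le (h : Frm B Q T U F) {C : Finset (Finset V)} (hCF : C ⊆ F) {U' S : Finset V}
    (hU' : ∀ w ∈ U', w ∈ U ∧ slf B F w ⊆ C) (hCS : ∀ L ∈ C, L ⊆ S) (hUS : U' ⊆ S)
    (hsee : ∀ v ∈ S, (∃ L ∈ C, v ∈ L) ∨
      ∃ w ∈ S, (w = v ∨ (gr B).Adj v w) ∧ ∃ L ∈ C, ∃ y ∈ L, (gr B).Adj w y)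
    {Ks : Finset (Finset V)}
    (hK1 : ∀ K ∈ Ks, K ⊆ S ∧ Closed (gr B) S K ∧ Conn (gr B) K) (hK2 : SepF B Ks)
    (hK3 : Ks.biUnion id = S) : Ks.card + U'.card ≤ C.card := by
  classical
  have hcn : ∀ L ∈ C, Conn (gr B) L := fun L hL =>
    ⟨(h.ge.sys.fc L (hCF hL)).1, fun _ hZ hne => (h.ge.sys.fc L (hCF hL)).conn hZ hne⟩
  -- the leaves and the inside points of a part
  have hpart : ∀ K ∈ Ks, 1 + (U'.filter (fun w => w ∈ K)).card ≤
      (C.filter (fun L => L ⊆ K)).card := by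
    intro K hK
    obtain ⟨hKS, hKc, hKn⟩ := hK1 K hK
    set Z := U'.filter (fun w => w ∈ K) with hZ
    have hin : ∀ w ∈ K, ∀ L ∈ C, (∃ y ∈ L, (gr B).Adj w y) → L ⊆ K := by
      rintro w hw L hL ⟨y, hy, hwy⟩
      exact sub_of_closed (hcn L hL) (hCS L hL) hKc hy (hKc.2 w hw y (hCS L hL hy) hwy)
    rcases Z.eq_empty_or_nonempty with h0 | hne
    · rw [h0, card_empty]
      refine card_pos.2 ?_
      obtain ⟨v, hv⟩ := hKn.1
      rcases hsee v (hKS hv) with ⟨L, hL, hvL⟩ | ⟨w, hw, hwv, L, hL, hy⟩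
      · exact ⟨L, mem_filter.2 ⟨hL, sub_of_closed (hcn L hL) (hCS L hL) hKc hvL hv⟩⟩
      · have hwK : w ∈ K := by
          rcases hwv with rfl | hwv
          · exact hv
          · exact hKc.2 v hv w hw hwv
        exact ⟨L, mem_filter.2 ⟨hL, hin w hwK L hL hy⟩⟩
    · have hZU : Z ⊆ U := fun w hw => (hU' w (mem_filter.1 hw).1).1
      have h1 := h.ge.surplus Z hZU hne
      have h2 : nbF (gr B) F Z ⊆ C.filter (fun L => L ⊆ K) := by
        intro L hL
        obtain ⟨hLF, w, hw, y, hy, hwy⟩ := mem_nbF.1 hL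
        obtain ⟨hwU, hwK⟩ := mem_filter.1 hw
        have h3 : L ∈ C := (hU' w hwU).2 (mem_slf.2 ⟨hLF, y, hy, hwy⟩)
        exact mem_filter.2 ⟨h3, hin w hwK L h3 ⟨y, hy, hwy⟩⟩
      have h3 := card_le_card h2
      omega
  have h1 := sum_le_sum hpart
  rw [sum_add_distrib, sum_const, smul_eq_mul, mul_one] at h1
  have h2 : U'.card ≤ ∑ K ∈ Ks, (U'.filter (fun w => w ∈ K)).card := by
    refine (card_le_card (t := Ks.biUnion fun K => U'.filter (fun w => w ∈ K)) ?_).trans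
      card_biUnion_le
    intro w hw
    have h3 : w ∈ Ks.biUnion id := by rw [hK3]; exact hUS hw
    obtain ⟨K, hK, hwK⟩ := mem_biUnion.1 h3
    exact mem_biUnion.2 ⟨K, hK, mem_filter.2 ⟨hw, hwK⟩⟩
  have h3 : ∑ K ∈ Ks, (C.filter (fun L => L ⊆ K)).card ≤ C.card := by
    rw [← card_biUnion]
    · exact card_le_card (biUnion_subset.2 fun K _ => filter_subset _ _)
    · intro K hK K' hK' hne
      rw [Function.onFun, disjoint_left]
      intro L hL hL'
      obtain ⟨hLC, hLK⟩ := mem_filter.1 hL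
      obtain ⟨_, hLK'⟩ := mem_filter.1 hL'
      obtain ⟨v, hv⟩ := (hcn L hLC).1
      exact disjoint_left.1 (hK2 K hK K' hK' hne).1 (hLK hv) (hLK' hv)
  omega

/-- the value of a leaf. -/
theorem Pv_leaf (h : Frm B Q T U F) (hr : Reg B Q) {L : Finset V} (hL : L ∈ F) :
    Pv B L = 3 * (L.card : ℤ) + 2 * (nt B L 1 : ℤ) - 12 := by
  have h2 : ∀ i, (B i ∩ L).card ≤ 2 := h.two_of hL
  have h3 : ∀ i, (B i ∩ L).card ≤ 3 := fun i => (h2 i).trans (by norm_num)
  have h4 := cm_eq3 h3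
  have h5 := inc_eq3 (hr.mono (h.FQ hL)) h3
  have h6 := nt3_zero h2
  have h7 := h.sv_leaf hL
  unfold sv at h7
  rw [Pool.Agent.Hyp6.Pv_eq]
  rw [h6] at h4 h5
  omega

/-- the value of the leaves of a class. -/
theorem Pv_leaves (h : Frm B Q T U F) (hr : Reg B Q) {C : Finset (Finset V)} (hCF : C ⊆ F) :
    Pv B (C.biUnion id) = 3 * ∑ L ∈ C, (L.card : ℤ) + 2 * ∑ L ∈ C, (nt B L 1 : ℤ) -
      12 * (C.card : ℤ) := by
  rw [Pv_biUnion (fun L hL => h.cov.mono (h.FQ (hCF hL))) (h.sepF.mono hCF),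
    sum_congr rfl fun L hL => h.Pv_leaf hr (hCF hL), sum_sub_distrib, sum_add_distrib, sum_const,
    ← mul_sum, ← mul_sum, nsmul_eq_mul]
  ring

/-- the inequality of leaves with inside points and other points `X`, `b` blocks inside. -/
theorem val_whole (h : Frm B Q T U F) (hv : ViolR B Q) {C : Finset (Finset V)} (hCF : C ⊆ F)
    {U' X : Finset V} (hU' : ∀ w ∈ U', w ∈ U ∧ slf B F w ⊆ C) (hUX : U' ⊆ X) (hXQ : X ⊆ Q)
    (hXC : Disjoint X (C.biUnion id)) (hlt : (C.biUnion id ∪ X).card < Q.card)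
    (hsee : ∀ v ∈ X, ∃ w ∈ X, (w = v ∨ (gr B).Adj v w) ∧ ∃ L ∈ C, ∃ y ∈ L, (gr B).Adj w y)
    {ρ b : ℕ} (hrho : ∑ L ∈ C, rho B L + ρ ≤ rho B (C.biUnion id ∪ X))
    (hb : (ins B (C.biUnion id ∪ X) X).card ≤ b) :
    2 * ∑ L ∈ C, (ee B Q L : ℤ) + 24 * (ρ : ℤ) ≤
      3 * ∑ L ∈ C, (L.card : ℤ) + 2 * ∑ L ∈ C, (nt B L 1 : ℤ) - 11 * (C.card : ℤ) -
        U'.card + 5 * (X.card : ℤ) + 4 * (b : ℤ) := by
  classical
  set S := C.biUnion id ∪ X with hS
  have hCQ : C.biUnion id ⊆ Q := by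
    intro v hv
    obtain ⟨L, hL, h1⟩ := mem_biUnion.1 hv
    exact h.FQ (hCF hL) h1
  have hSQ : S ⊆ Q := union_subset hCQ hXQ
  obtain ⟨Ks, hK1, hK2, hK3⟩ := exists_parts B S
  have h1 := hv.parts_ge hSQ hlt hK1 hK2 hK3
  have h2 := h.parts_le hCF hU' (S := S)
    (fun L hL v hv => mem_union_left _ (mem_biUnion.2 ⟨L, hL, hv⟩))
    (hUX.trans subset_union_right) (by
      intro v hv
      rcases mem_union.1 hv with h3 | h3
      · obtain ⟨L, hL, h4⟩ := mem_biUnion.1 h3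
        exact Or.inl ⟨L, hL, h4⟩
      · obtain ⟨w, hw, h4⟩ := hsee v h3
        exact Or.inr ⟨w, mem_union_right _ hw, h4⟩) hK1 hK2 hK3
  have hSX : S \ X = C.biUnion id := by
    rw [hS, union_sdiff_right, sdiff_eq_self_of_disjoint hXC.symm]
  have h3 := Pv_sdiff (B := B) (W := S) (X := X) subset_union_right
  rw [hSX, h.Pv_leaves hv.reg hCF] at h3
  have h4 : rho B (C.biUnion id) = ∑ L ∈ C, rho B L :=
    rho_biUnion (fun L hL => h.covF L (hCF hL)) (h.sepF.mono hCF)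
  have h5 : ∑ L ∈ C, ee B Q L ≤ ee B Q S := by
    rw [← ee_biUnion (h.sepF.mono hCF)]
    exact ee_mono subset_union_left
  have h6 : (∑ L ∈ C, (ee B Q L : ℤ)) ≤ ee B Q S := by exact_mod_cast h5
  have h7 : ((rho B (C.biUnion id) : ℕ) : ℤ) + ρ ≤ rho B S := by
    rw [h4]
    exact_mod_cast hrho
  have h8 : (Ks.card : ℤ) + U'.card ≤ C.card := by exact_mod_cast h2
  have h9 : ((ins B S X).card : ℤ) ≤ b := by exact_mod_cast hb
  linarith

end Frm

end tools

section claims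

variable {V : Type v} [DecidableEq V] {ι : Type u} [Fintype ι] [DecidableEq ι]
  {B : ι → Finset V} {Q U : Finset V} {T : Finset ι} {F : Finset (Finset V)}
  {P : Finset (Finset (Finset V))} {al : V → Finset (Finset V) → ℕ}

/-- the point `s` has a claim of the triple `j` with the leaf `{x}`. -/
def ClS (B : ι → Finset V) (Q : Finset V) (T : Finset ι) (U : Finset V)
    (F : Finset (Finset V)) (P : Finset (Finset (Finset V))) (j : ι) (x s : V) : Prop :=
  s ∈ Q ∧ s ∉ B j ∧ ∃ (i k0 : ι) (a b c : V), Cla B Q T U F P j i k0 a b c x ∧ s ∈ B k0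

namespace ClS

variable {j j' : ι} {x x' s t : V}

omit [DecidableEq ι] in
theorem swi (h : ClS B Q T U F P j x s) : Swi B Q T F j x s := by
  obtain ⟨_, _, i, k0, a, b, c, h1, h2⟩ := h
  have h3 : ∀ v, v ∈ ({x, b, c} : Finset V) → v ∈ B i := fun v hv => by
    rw [← h1.1.px.hiQ] at hv
    exact (mem_inter.1 hv).1
  exact ⟨h1.1.px.hj, h1.1.px.hx, i, k0, a, b, c, h1.1.px.hjQ, h3 x (by simp), h3 b (by simp),
    h3 c (by simp), h1.1.ak, h2⟩

theorem uniq (h : ClS B Q T U F P j x s) (h' : ClS B Q T U F P j x' t) : s = t := by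
  obtain ⟨hsQ, hsj, i, k0, a, b, c, h1, h2⟩ := h
  obtain ⟨htQ, htj, i', k0', a', b', c', h1', h2'⟩ := h'
  obtain ⟨_, _, hk⟩ := h1.1.same h1'.1
  subst hk
  by_contra hne
  have haj := (mem_inter.1 h1.1.fpb.aQ').1
  have hbj := (mem_inter.1 h1.1.fpb.bQ).1
  have hab := h1.1.px.ne.1
  have hsub : ({a, b, s, t} : Finset V) ⊆ B k0 ∩ Q := by
    intro v hv
    simp only [mem_insert, mem_singleton] at hv
    rcases hv with rfl | rfl | rfl | rfl
    · exact mem_inter.2 ⟨h1.1.ak, (mem_inter.1 h1.1.fpb.aQ').2⟩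
    · exact mem_inter.2 ⟨h1.1.bk, (mem_inter.1 h1.1.fpb.bQ).2⟩
    · exact mem_inter.2 ⟨h2, hsQ⟩
    · exact mem_inter.2 ⟨h2', htQ⟩
  have h4 := (card_le_card hsub).trans (h1.1.px.frm.reg3 k0)
  have n1 : ∀ {v w : V}, v ∈ B j → w ∉ B j → v ≠ w := fun hv hw he => hw (he ▸ hv)
  rw [card_insert_of_notMem, card_insert_of_notMem, card_pair hne] at h4
  · omega
  · simp only [mem_insert, mem_singleton, not_or]
    exact ⟨n1 hbj hsj, n1 hbj htj⟩
  · simp only [mem_insert, mem_singleton, not_or]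
    exact ⟨hab, n1 haj hsj, n1 haj htj⟩

theorem uniqx (h : ClS B Q T U F P j x s) (h' : ClS B Q T U F P j' x t) : s = t := by
  by_cases hjj : j = j'
  · subst hjj
    exact h.uniq h'
  · obtain ⟨_, _, i, k0, a, b, c, h1, h2⟩ := h
    obtain ⟨_, _, i', k0', a', b', c', h1', h2'⟩ := h'
    exact absurd rfl (h1.1.x_ne h1'.1 hjj)

end ClS

namespace StgR

/-- the blocks of a point which miss the leaves. -/
theorem nzF_card (s : StgR B Q T U F P al) {v : V} (hv : v ∈ Q) :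
    (univ.filter (fun i => v ∈ B i ∧ ¬ (B i ∩ F.biUnion id).Nonempty)).card +
      ∑ L ∈ F, uh B v L = 5 := by
  have h1 : ∑ L ∈ F, uh B v L = hit B {v} (F.biUnion id) := (hit_biUnion _ s.frm.sepF).symm
  rw [h1, hit_eq, sum_singleton, add_comm, ← s.viol.reg v hv, ← card_union_of_disjoint]
  · congr 1
    ext i
    simp only [mem_union, mem_filter, mem_univ, true_and]
    tauto
  · rw [disjoint_left]
    intro i hi hi'
    exact (mem_filter.1 hi').2.2 (mem_filter.1 hi).2.2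

/-- the points of an inside triple see only leaves of the class. -/
theorem kin_slf (s : StgR B Q T U F P al) {C : Finset (Finset V)} {k : ι}
    (hk : k ∈ Sp.Kin (Rg B Q T U F) (slj B Q F) C) {v : V} (hv : v ∈ B k ∩ Q) :
    slf B F v ⊆ C := fun _ hL => (s.toStg.kin.1 hk).2.2.2.2 (mem_biUnion.2 ⟨v, hv, hL⟩)

/-- a point of an inside triple with a claim. -/
theorem kin_clS (s : StgR B Q T U F P al) {C : Finset (Finset V)} (hC : C ∈ P)
    (h2 : 2 ≤ C.card) {k : ι} (hk : k ∈ Sp.Kin (Rg B Q T U F) (slj B Q F) C) {v : V}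
    (hv : v ∈ B k ∩ Q) (hc : ncp B Q (Kf B Q T U F P) k v ≠ 0) :
    ∃ j x, ClS B Q T U F P j x v ∧ j ∉ Sp.Kin (Rg B Q T U F) (slj B Q F) C ∧ {x} ∉ C ∧
      ∀ w ∈ U, {x} ∉ slf B F w := by
  obtain ⟨k0, hk0, hc0, hvk0⟩ := ncp_pos hc
  obtain ⟨j, i, a, b, c, x, h⟩ := Kf_cla.1 hk0
  have hkj := h.1.claim_ne hc0
  refine ⟨j, x, ⟨(mem_inter.1 hv).2, fun hvj => ?_, i, k0, a, b, c, h, hvk0⟩,
    fun hj => s.kin_not_tl hC hj h.1.jtl, fun hx => ?_, fun w hw => h.1.fpb.not_sees hw⟩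
  · exact disjoint_left.1 (s.frm.mtp.tpk.pack.disj k (s.toStg.kin.1 hk).1 j h.1.px.hj hkj) hv
      (mem_inter.2 ⟨hvj, (mem_inter.1 hv).2⟩)
  · have h3 : C = {{x}} := by
      by_contra hne
      exact disjoint_left.1 (s.part.ptn.dj C hC _ h.1.xP hne) hx (mem_singleton_self _)
    rw [h3, card_singleton] at h2
    omega

/-- the points without claims of an inside triple. -/
noncomputable def rst (B : ι → Finset V) (Q : Finset V) (T : Finset ι) (U : Finset V)
    (F : Finset (Finset V)) (P : Finset (Finset (Finset V))) (k : ι) : Finset V :=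
  (B k ∩ Q).filter (fun v => ncp B Q (Kf B Q T U F P) k v = 0)

/-- the kept inside triples: those without a point without leaves and claims, or without claims. -/
noncomputable def kpt (B : ι → Finset V) (Q : Finset V) (T : Finset ι) (U : Finset V)
    (F : Finset (Finset V)) (P : Finset (Finset (Finset V))) (C : Finset (Finset V)) :
    Finset ι := by
  classical
  exact (Sp.Kin (Rg B Q T U F) (slj B Q F) C).filter (fun k => 0 < ncl B Q T U F P k →
    ∀ w ∈ rst B Q T U F P k, slf B F w ≠ ∅)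

omit [DecidableEq ι] in
theorem mem_kpt {C : Finset (Finset V)} {k : ι} : k ∈ kpt B Q T U F P C ↔
    k ∈ Sp.Kin (Rg B Q T U F) (slj B Q F) C ∧ (0 < ncl B Q T U F P k →
      ∀ w ∈ rst B Q T U F P k, slf B F w ≠ ∅) := by
  classical
  unfold kpt
  rw [mem_filter]

/-- the numbers of a kept triple. -/
theorem kpt_num (s : StgR B Q T U F P al) {k : ι} (hk : k ∈ T) :
    (ncl B Q T U F P k = 0 → rst B Q T U F P k = B k ∩ Q) ∧
    (0 < ncl B Q T U F P k → (∀ w ∈ rst B Q T U F P k, slf B F w ≠ ∅) →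
      (rst B Q T U F P k).card = 2 ∧
      ∑ v ∈ rst B Q T U F P k, (4 - ∑ L ∈ F, uh B v L) + ncl B Q T U F P k +
        ∑ L ∈ F, jh B Q k L ≤ 12) ∧
    (0 < ncl B Q T U F P k → (∃ w ∈ rst B Q T U F P k, slf B F w = ∅) →
      ncl B Q T U F P k + ∑ L ∈ F, jh B Q k L ≤ 8) := by
  have hsum : ncl B Q T U F P k = ∑ v ∈ B k ∩ Q, ncp B Q (Kf B Q T U F P) k v := ncK_eq _ _ _
  have hc3 : (B k ∩ Q).card = 3 := s.frm.mtp.tpk.pack.card k hk
  refine ⟨fun h0 => ?_, fun h0 h1 => ?_, fun h0 ⟨w, hw, h1⟩ => ?_⟩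
  · unfold rst
    rw [filter_eq_self]
    intro v hv
    rw [h0] at hsum
    exact (sum_eq_zero_iff.1 hsum.symm) v hv
  · rcases s.one_or_dead hk h0 with ⟨v, hv, h2, h3⟩ | ⟨r, hr, h2, h3⟩
    swap
    · exact absurd h2 (h1 r (mem_filter.2 ⟨hr, h3⟩))
    have h4 : rst B Q T U F P k = (B k ∩ Q).erase v := by
      ext w
      unfold rst
      rw [mem_filter, mem_erase]
      constructor
      · rintro ⟨h5, h6⟩
        refine ⟨?_, h5⟩
        rintro rfl
        omega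
      · rintro ⟨h5, h6⟩
        exact ⟨h6, h3 w h6 h5⟩
    rw [h4, card_erase_of_mem hv, hc3]
    refine ⟨rfl, ?_⟩
    have h5 := s.hit_ncp hk hv
    rw [s.jh_pts, ← add_sum_erase _ _ hv]
    have h6 : ∑ w ∈ (B k ∩ Q).erase v, (4 - ∑ L ∈ F, uh B w L) +
        ∑ w ∈ (B k ∩ Q).erase v, ∑ L ∈ F, uh B w L = ∑ w ∈ (B k ∩ Q).erase v, 4 := by
      rw [← sum_add_distrib]
      refine sum_congr rfl fun w hw => ?_
      have := s.hit_ncp hk (mem_of_mem_erase hw)
      omega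
    rw [sum_const, card_erase_of_mem hv, hc3, smul_eq_mul] at h6
    omega
  · obtain ⟨hwk, hwc⟩ := mem_filter.1 hw
    rw [s.jh_pts, hsum, ← sum_add_distrib, ← add_sum_erase _ _ hwk, hwc]
    have e4 : ∑ L ∈ F, uh B w L = 0 := by
      refine sum_eq_zero fun L hL => uh_zero hL (s.frm.T_notin hk hwk hL) ?_
      rw [h1]
      exact notMem_empty _
    have h2 : ∑ v ∈ (B k ∩ Q).erase w, (ncp B Q (Kf B Q T U F P) k v + ∑ L ∈ F, uh B v L) ≤
        ∑ v ∈ (B k ∩ Q).erase w, 4 := sum_le_sum fun v hv => by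
      have := s.hit_ncp hk (mem_of_mem_erase hv)
      omega
    rw [sum_const, card_erase_of_mem hwk, hc3] at h2
    simp only [smul_eq_mul] at h2
    omega

/-- the points outside `U` which are matched inside are matched outside the class. -/
theorem out_cls (s : StgR B Q T U F P al) {C : Finset (Finset V)} (hC : C ∈ P) :
    ∃ g, MtI B (U \ Sp.Uin U (slf B F) C) (F \ C) g := by
  have hgd := s.frm.gdT (R := Rg B Q T U F)
  have h1 := s.part.ptn.free hgd (X := Sp.Ux U (slf B F) P) (S := {C}) (W := {C})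
    (singleton_subset_iff.2 hC) (Subset.refl _) (Sp.MinP.one hgd s.part C)
    (x := fun _ => ∅) (by simp)
  have h2 : ({C} : Finset (Finset (Finset V))).biUnion id ∪
      (({C} : Finset (Finset (Finset V))) \ {C}).image (fun _ => (∅ : Finset V)) = C := by
    simp
  rw [h2] at h1
  refine mtI_of_dfc (F := F) (A := C) ?_
  refine Sp.dfc_le fun Z hZ => ?_
  refine le_trans (Sp.le_dfc (hZ.trans ?_)) h1
  intro w hw
  obtain ⟨hw1, hw2⟩ := mem_sdiff.1 hw
  by_cases h3 : ∃ E ∈ P, slf B F w ⊆ E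
  · obtain ⟨E, hE, h4⟩ := h3
    refine mem_union_right _ (mem_biUnion.2 ⟨E, mem_sdiff.2 ⟨hE, ?_⟩, mem_filter.2 ⟨hw1, h4⟩⟩)
    rw [mem_singleton]
    rintro rfl
    exact hw2 (mem_filter.2 ⟨hw1, h4⟩)
  · push Not at h3
    exact mem_union_left _ (mem_filter.2 ⟨hw1, h3⟩)

/-- the points of the kept triples without claims. -/
noncomputable def PtC (B : ι → Finset V) (Q : Finset V) (T : Finset ι) (U : Finset V)
    (F : Finset (Finset V)) (P : Finset (Finset (Finset V))) (C : Finset (Finset V)) :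
    Finset V := (kpt B Q T U F P C).biUnion (rst B Q T U F P)

/-- **the cover number of the class without the points with claims**. -/
theorem rho_whole (s : StgR B Q T U F P al) {C : Finset (Finset V)} (hC : C ∈ P)
    (h2 : 2 ≤ C.card) : ∑ L ∈ C, rho B L + (kpt B Q T U F P C).card ≤
      rho B (C.biUnion id ∪ (Sp.Uin U (slf B F) C ∪ PtC B Q T U F P C)) := by
  classical
  have hCF : C ⊆ F := (s.part.ptn.vc C hC).sub
  have hgd := s.frm.gdT (R := Rg B Q T U F)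
  set I := kpt B Q T U F P C with hI
  set X := PtC B Q T U F P C with hX
  have hIT : I ⊆ T := fun k hk => (s.toStg.kin.1 (mem_kpt.1 hk).1).1
  have hXQ : X ⊆ Q := by
    intro v hv
    obtain ⟨k, _, hvk⟩ := mem_biUnion.1 hv
    exact (mem_inter.1 (mem_filter.1 hvk).1).2
  have hUQ : U ⊆ Q := s.frm.UD.trans Frm.DQ
  set R := I.biUnion (fun k => (B k ∩ Q).filter
    (fun v => ncp B Q (Kf B Q T U F P) k v ≠ 0)) with hR
  have hRc : ∀ v ∈ R, ∃ j x, ClS B Q T U F P j x v ∧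
      j ∉ Sp.Kin (Rg B Q T U F) (slj B Q F) C ∧ {x} ∉ C ∧ ∀ w ∈ U, {x} ∉ slf B F w := by
    intro v hv
    obtain ⟨k, hk, hvk⟩ := mem_biUnion.1 hv
    obtain ⟨h3, h4⟩ := mem_filter.1 hvk
    exact s.kin_clS hC h2 (mem_kpt.1 hk).1 h3 h4
  have : Nonempty ι := by
    obtain ⟨L, hL⟩ := card_pos.1 (by omega : 0 < C.card)
    obtain ⟨v, hv⟩ := (s.frm.ge.sys.fc L (hCF hL)).1
    obtain ⟨i, _⟩ := s.frm.cov v (s.frm.FQ (hCF hL) hv)
    exact ⟨i⟩
  choose! jf xf hcl hjK hxC hxU using hRc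
  obtain ⟨g', hg'⟩ := exists_in (B := B) (C := C) hgd hCF
  obtain ⟨g, hg⟩ := s.out_cls hC
  have hg2 : MtI B (U \ Sp.Uin U (slf B F) C)
      ((F \ C) \ R.image (fun v => ({xf v} : Finset V))) g := by
    refine ⟨fun w hw => mem_sdiff.2 ⟨hg.mem w hw, fun h3 => ?_⟩, hg.see, hg.inj⟩
    obtain ⟨v, hv, h4⟩ := mem_image.1 h3
    refine hxU v hv w (mem_sdiff.1 hw).1 (mem_slf.2 ⟨?_, ?_⟩)
    · rw [h4]
      exact (mem_sdiff.1 (hg.mem w hw)).1
    · rw [h4]
      exact hg.see w hw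
  have h1 := s.frm.cut_sw (A := C) hCF Frm.Dcl.empty (T' := ∅) (empty_subset _)
    (U' := Sp.Uin U (slf B F) C) (filter_subset _ _) hg' hIT (disjoint_empty_right _)
    (P := X) (M := U \ Sp.Uin U (slf B F) C) hXQ (sdiff_subset.trans hUQ)
    (fun v hv hv' => Or.inr (mem_sdiff.2 ⟨hv, hv'⟩)) (R := R) (by
      intro k hk v hv
      by_cases h3 : ncp B Q (Kf B Q T U F P) k v = 0
      · exact Or.inl (mem_biUnion.2 ⟨k, hk, mem_filter.2 ⟨hv, h3⟩⟩)
      · exact Or.inr (Or.inr (mem_biUnion.2 ⟨k, hk, mem_filter.2 ⟨hv, h3⟩⟩))) (by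
      intro D hD _
      exact disjoint_of_subset_right sdiff_subset (s.frm.ge.FU D hD)) (jf := jf) (xf := xf)
    (fun v hv => (hcl v hv).swi) (fun v hv => ⟨notMem_empty _, fun h3 =>
      hjK v hv (mem_kpt.1 h3).1⟩) (fun v hv w hw he => (hcl v hv).uniq (he ▸ hcl w hw))
    (fun v hv w hw he => (hcl v hv).uniqx (he ▸ hcl w hw)) hxC hg2
  have h3 : Zn B Q ∅ (Sp.Uin U (slf B F) C) C ∅ = Sp.Uin U (slf B F) C ∪ C.biUnion id := by
    unfold Zn
    simp
  rw [h3] at h1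
  have h4 : rho B (C.biUnion id) = ∑ L ∈ C, rho B L :=
    rho_biUnion (fun L hL => s.frm.covF L (hCF hL)) (s.frm.sepF.mono hCF)
  have h5 : rho B (C.biUnion id) ≤ rho B (Sp.Uin U (slf B F) C ∪ C.biUnion id) := by
    refine rho_mono subset_union_right (s.frm.cov.mono (union_subset
      ((filter_subset _ _).trans hUQ) ?_))
    intro v hv
    obtain ⟨L, hL, hvL⟩ := mem_biUnion.1 hv
    exact s.frm.FQ (hCF hL) hvL
  have h6 : Sp.Uin U (slf B F) C ∪ C.biUnion id ∪ X =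
      C.biUnion id ∪ (Sp.Uin U (slf B F) C ∪ X) := by
    rw [union_comm (Sp.Uin U (slf B F) C) (C.biUnion id), union_assoc]
  rw [h6] at h1
  omega

/-- a point of the kept part sees only leaves of the class. -/
theorem see_whole (s : StgR B Q T U F P al) {C : Finset (Finset V)} {v : V}
    (hv : v ∈ Sp.Uin U (slf B F) C ∪ PtC B Q T U F P C) :
    slf B F v ⊆ C ∧ v ∈ Q ∧ v ∉ F.biUnion id := by
  rcases mem_union.1 hv with h1 | h1
  · obtain ⟨h2, h3⟩ := mem_filter.1 h1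
    refine ⟨h3, Frm.DQ (s.frm.UD h2), fun h4 => ?_⟩
    obtain ⟨L, hL, hvL⟩ := mem_biUnion.1 h4
    exact disjoint_left.1 (s.frm.ge.FU L hL) hvL h2
  · obtain ⟨k, hk, hvk⟩ := mem_biUnion.1 h1
    have h2 := (mem_filter.1 hvk).1
    refine ⟨s.kin_slf (mem_kpt.1 hk).1 h2, (mem_inter.1 h2).2, fun h4 => ?_⟩
    obtain ⟨L, hL, hvL⟩ := mem_biUnion.1 h4
    exact s.frm.T_notin (s.toStg.kin.1 (mem_kpt.1 hk).1).1 h2 hL hvL

/-- the number of the blocks inside. -/
theorem ins_whole (s : StgR B Q T U F P al) {C : Finset (Finset V)} (hC : C ∈ P) :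
    (ins B (C.biUnion id ∪ (Sp.Uin U (slf B F) C ∪ PtC B Q T U F P C))
      (Sp.Uin U (slf B F) C ∪ PtC B Q T U F P C)).card ≤
      lsC B Q T U F C + ∑ k ∈ kpt B Q T U F P C,
        (1 + ∑ v ∈ rst B Q T U F P k, (4 - ∑ L ∈ F, uh B v L)) := by
  classical
  have hCF : C ⊆ F := (s.part.ptn.vc C hC).sub
  set nz : V → Finset ι := fun v =>
    univ.filter (fun i => v ∈ B i ∧ ¬ (B i ∩ F.biUnion id).Nonempty) with hnz
  have hsub : ins B (C.biUnion id ∪ (Sp.Uin U (slf B F) C ∪ PtC B Q T U F P C))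
      (Sp.Uin U (slf B F) C ∪ PtC B Q T U F P C) ⊆
      (Sp.Uin U (slf B F) C).biUnion nz ∪ (kpt B Q T U F P C).biUnion (fun k =>
        insert k ((rst B Q T U F P k).biUnion (fun v => (nz v).erase k))) := by
    intro i hi
    obtain ⟨⟨z, hz⟩, hi2⟩ := mem_ins.1 hi
    have hzX := hi2 hz
    obtain ⟨hzs, hzQ, hzF⟩ := s.see_whole hzX
    have hzi := (mem_inter.1 hz).1
    have hmis : ¬ (B i ∩ F.biUnion id).Nonempty := by
      rintro ⟨y, hy⟩
      obtain ⟨hyi, hyF⟩ := mem_inter.1 hy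
      obtain ⟨L, hL, hyL⟩ := mem_biUnion.1 hyF
      have h1 : L ∈ C := hzs (mem_slf.2 ⟨hL, y, hyL, by
        rintro rfl
        exact hzF hyF, i, hzi, hyi⟩)
      exact (s.see_whole (hi2 (mem_inter.2 ⟨hyi, mem_union_left _
        (mem_biUnion.2 ⟨L, h1, hyL⟩)⟩))).2.2 hyF
    have hin : i ∈ nz z := mem_filter.2 ⟨mem_univ _, hzi, hmis⟩
    rcases mem_union.1 hzX with h1 | h1
    · exact mem_union_left _ (mem_biUnion.2 ⟨z, h1, hin⟩)
    · obtain ⟨k, hk, hzk⟩ := mem_biUnion.1 h1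
      refine mem_union_right _ (mem_biUnion.2 ⟨k, hk, ?_⟩)
      by_cases hik : i = k
      · rw [hik]
        exact mem_insert_self _ _
      · exact mem_insert_of_mem (mem_biUnion.2 ⟨z, hzk, mem_erase.2 ⟨hik, hin⟩⟩)
  refine (card_le_card hsub).trans ((card_union_le _ _).trans (Nat.add_le_add ?_ ?_))
  · refine card_biUnion_le.trans ?_
    unfold lsC
    refine sum_le_sum fun w hw => ?_
    have h1 := (mem_filter.1 hw).1
    have h2 := s.frm.five_u s.viol.reg h1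
    have h3 := s.nzF_card (Frm.DQ (s.frm.UD h1))
    show (nz w).card ≤ uo B Q T U F w
    have h4 : (nz w).card + ∑ L ∈ F, uh B w L = 5 := h3
    omega
  · refine card_biUnion_le.trans (sum_le_sum fun k hk => ?_)
    have hkT := (s.toStg.kin.1 (mem_kpt.1 hk).1).1
    refine (card_insert_le _ _).trans ?_
    rw [add_comm]
    refine Nat.add_le_add_left (card_biUnion_le.trans (sum_le_sum fun v hv => ?_)) 1
    have hvk := (mem_filter.1 hv).1
    have h3 : (nz v).card + ∑ L ∈ F, uh B v L = 5 := s.nzF_card (mem_inter.1 hvk).2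
    have h4 : k ∈ nz v := by
      refine mem_filter.2 ⟨mem_univ _, (mem_inter.1 hvk).1, ?_⟩
      rintro ⟨y, hy⟩
      obtain ⟨hyk, hyF⟩ := mem_inter.1 hy
      obtain ⟨L, hL, hyL⟩ := mem_biUnion.1 hyF
      exact Frm.T_notD (Q := Q) hkT hyk (s.frm.FD hL hyL)
    rw [card_erase_of_mem h4]
    omega

/-- **the inequality of a whole class with its inside triples**. -/
theorem whole (s : StgR B Q T U F P al) {C : Finset (Finset V)} (hC : C ∈ P)
    (h2 : 2 ≤ C.card) (hT : ∃ j ∈ T, j ∉ Sp.Kin (Rg B Q T U F) (slj B Q F) C) :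
    5 * ((Sp.Kin (Rg B Q T U F) (slj B Q F) C).card : ℤ) +
      5 * (((Sp.Kin (Rg B Q T U F) (slj B Q F) C).filter
        (fun k => 0 < ncl B Q T U F P k)).card : ℤ) +
      4 * ∑ k ∈ Sp.Kin (Rg B Q T U F) (slj B Q F) C, (ncl B Q T U F P k : ℤ) +
      2 * ∑ L ∈ C, (ee B Q L : ℤ) ≤
      3 * ∑ L ∈ C, (L.card : ℤ) + 2 * ∑ L ∈ C, (nt B L 1 : ℤ) - 11 * (C.card : ℤ) +
        4 * ((Sp.Uin U (slf B F) C).card : ℤ) +
        4 * ((lsC B Q T U F C : ℤ) + Frm.xC B Q T (Rg B Q T U F) U F C) := by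
  classical
  have hCF : C ⊆ F := (s.part.ptn.vc C hC).sub
  have hgd := s.frm.gdT (R := Rg B Q T U F)
  set K := Sp.Kin (Rg B Q T U F) (slj B Q F) C with hK
  set I := kpt B Q T U F P C with hI
  set X := Sp.Uin U (slf B F) C ∪ PtC B Q T U F P C with hX
  have hIK : I ⊆ K := fun k hk => (mem_kpt.1 hk).1
  have hKT : ∀ k ∈ K, k ∈ T := fun k hk => (s.toStg.kin.1 hk).1
  have hXs : ∀ v ∈ X, slf B F v ⊆ C ∧ v ∈ Q ∧ v ∉ F.biUnion id := fun v hv => s.see_whole hv
  have hXC : Disjoint X (C.biUnion id) := by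
    rw [disjoint_left]
    intro v hv hvC
    obtain ⟨L, hL, hvL⟩ := mem_biUnion.1 hvC
    exact (hXs v hv).2.2 (mem_biUnion.2 ⟨L, hCF hL, hvL⟩)
  have hSQ : C.biUnion id ∪ X ⊆ Q := by
    intro v hv
    rcases mem_union.1 hv with h3 | h3
    · obtain ⟨L, hL, hvL⟩ := mem_biUnion.1 h3
      exact s.frm.FQ (hCF hL) hvL
    · exact (hXs v h3).2.1
  have hlt : (C.biUnion id ∪ X).card < Q.card := by
    obtain ⟨j, hj, hjK⟩ := hT
    have h3 := s.frm.mtp.tpk.pack.card j hj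
    obtain ⟨v, hv⟩ := card_pos.1 (by omega : 0 < (B j ∩ Q).card)
    refine card_lt_card (Finset.ssubset_iff_subset_ne.2 ⟨hSQ, fun he => ?_⟩)
    have h4 : v ∈ C.biUnion id ∪ X := he ▸ (mem_inter.1 hv).2
    rcases mem_union.1 h4 with h5 | h5
    · obtain ⟨L, hL, hvL⟩ := mem_biUnion.1 h5
      exact s.frm.T_notin hj hv (hCF hL) hvL
    · rcases mem_union.1 h5 with h6 | h6
      · exact (s.frm.T_out hj hv).1 (mem_filter.1 h6).1
      · obtain ⟨k, hk, hvk⟩ := mem_biUnion.1 h6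
        have hkK := hIK hk
        have hkj : k ≠ j := fun he => hjK (he ▸ hkK)
        exact disjoint_left.1 (s.frm.mtp.tpk.pack.disj k (hKT k hkK) j hj hkj)
          (mem_filter.1 hvk).1 hv
  have hmain := s.frm.val_whole s.viol hCF (U' := Sp.Uin U (slf B F) C) (X := X)
    (fun w hw => mem_filter.1 hw) subset_union_left (fun v hv => (hXs v hv).2.1) hXC hlt (by
      intro v hv
      have hne : ∀ w ∈ X, slf B F w ≠ ∅ → ∃ L ∈ C, ∃ y ∈ L, (gr B).Adj w y := by
        intro w hw h3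
        obtain ⟨L, hL⟩ := nonempty_iff_ne_empty.2 h3
        exact ⟨L, (hXs w hw).1 hL, (mem_slf.1 hL).2⟩
      rcases mem_union.1 hv with h3 | h3
      · exact ⟨v, hv, Or.inl rfl, hne v hv
          (hgd.N_ne (mem_filter.1 h3).1).ne_empty⟩
      · obtain ⟨k, hk, hvk⟩ := mem_biUnion.1 h3
        obtain ⟨hkK, hkc⟩ := mem_kpt.1 hk
        rcases Nat.eq_zero_or_pos (ncl B Q T U F P k) with h0 | h0
        · obtain ⟨L, hL⟩ := (s.toStg.kin.1 hkK).2.2.2.1
          obtain ⟨w, hw, hLw⟩ := mem_biUnion.1 hL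
          have hwX : w ∈ X := mem_union_right _ (mem_biUnion.2 ⟨k, hk, by
            rw [(s.kpt_num (hKT k hkK)).1 h0]
            exact hw⟩)
          refine ⟨w, hwX, ?_, hne w hwX (ne_empty_of_mem hLw)⟩
          by_cases hwv : w = v
          · exact Or.inl hwv
          · exact Or.inr ⟨fun he => hwv he.symm, k, (mem_inter.1 (mem_filter.1 hvk).1).1,
              (mem_inter.1 hw).1⟩
        · exact ⟨v, hv, Or.inl rfl, hne v hv (hkc h0 v hvk)⟩)
    (s.rho_whole hC h2) (s.ins_whole hC)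
  -- the number of points
  have hXc : (X.card : ℤ) ≤ ((Sp.Uin U (slf B F) C).card : ℤ) +
      ∑ k ∈ I, ((rst B Q T U F P k).card : ℤ) := by
    have h3 : X.card ≤ (Sp.Uin U (slf B F) C).card + ∑ k ∈ I, (rst B Q T U F P k).card :=
      (card_union_le _ _).trans (Nat.add_le_add_left card_biUnion_le _)
    exact_mod_cast h3
  -- the triples
  have hone : ∀ k ∈ K, (if k ∈ I then 5 * ((rst B Q T U F P k).card : ℤ) +
      4 * ((1 + ∑ v ∈ rst B Q T U F P k, (4 - ∑ L ∈ F, uh B v L) : ℕ) : ℤ) - 24 else 0) ≤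
      -5 - (if 0 < ncl B Q T U F P k then 5 else 0) +
        4 * (((jn B Q (Ep B Q T U F) k + jb B Q T U k : ℕ) : ℤ) - (ncl B Q T U F P k : ℤ)) := by
    intro k hk
    have hx := s.kin_x hk
    obtain ⟨n1, n2, n3⟩ := s.kpt_num (hKT k hk)
    have hc3 : (B k ∩ Q).card = 3 := s.frm.mtp.tpk.pack.card k (hKT k hk)
    rcases Nat.eq_zero_or_pos (ncl B Q T U F P k) with h0 | h0
    · have hkI : k ∈ I := mem_kpt.2 ⟨hk, fun h => absurd h (by omega)⟩
      rw [if_pos hkI, if_neg (by omega), n1 h0, hc3]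
      have h4 : ∑ v ∈ B k ∩ Q, (4 - ∑ L ∈ F, uh B v L) +
          ∑ v ∈ B k ∩ Q, ∑ L ∈ F, uh B v L = ∑ v ∈ B k ∩ Q, 4 := by
        rw [← sum_add_distrib]
        refine sum_congr rfl fun w hw => ?_
        have := s.hit_ncp (hKT k hk) hw
        omega
      rw [← s.jh_pts, sum_const, hc3, smul_eq_mul] at h4
      omega
    · by_cases hkI : k ∈ I
      · obtain ⟨h4, h5⟩ := n2 h0 ((mem_kpt.1 hkI).2 h0)
        rw [if_pos hkI, if_pos h0, h4]
        omega
      · rw [if_neg hkI, if_pos h0]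
        have h4 : ∃ w ∈ rst B Q T U F P k, slf B F w = ∅ := by
          by_contra hcon
          push Not at hcon
          exact hkI (mem_kpt.2 ⟨hk, fun _ w hw => (hcon w hw).ne_empty⟩)
        have h5 := n3 h0 h4
        omega
  have hsum := sum_le_sum hone
  rw [← sum_filter, filter_mem_eq_inter, inter_eq_right.2 hIK] at hsum
  have e1 : ∑ k ∈ I, (5 * ((rst B Q T U F P k).card : ℤ) +
      4 * ((1 + ∑ v ∈ rst B Q T U F P k, (4 - ∑ L ∈ F, uh B v L) : ℕ) : ℤ) - 24) =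
      5 * ∑ k ∈ I, ((rst B Q T U F P k).card : ℤ) +
      4 * ∑ k ∈ I, ((1 + ∑ v ∈ rst B Q T U F P k, (4 - ∑ L ∈ F, uh B v L) : ℕ) : ℤ) -
      24 * (I.card : ℤ) := by
    rw [sum_sub_distrib, sum_add_distrib, ← mul_sum, ← mul_sum, sum_const, nsmul_eq_mul]
    ring
  have e2 : ∑ k ∈ K, (-5 - (if 0 < ncl B Q T U F P k then (5 : ℤ) else 0) +
      4 * (((jn B Q (Ep B Q T U F) k + jb B Q T U k : ℕ) : ℤ) - (ncl B Q T U F P k : ℤ))) =
      -5 * (K.card : ℤ) - 5 * ((K.filter (fun k => 0 < ncl B Q T U F P k)).card : ℤ) +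
      4 * (∑ k ∈ K, ((jn B Q (Ep B Q T U F) k + jb B Q T U k : ℕ) : ℤ) -
        ∑ k ∈ K, (ncl B Q T U F P k : ℤ)) := by
    rw [sum_add_distrib, sum_sub_distrib, ← sum_filter, sum_const, sum_const, ← mul_sum,
      sum_sub_distrib, nsmul_eq_mul, nsmul_eq_mul]
    ring
  rw [e1, e2] at hsum
  have hxC : (Frm.xC B Q T (Rg B Q T U F) U F C : ℤ) =
      ∑ k ∈ K, ((jn B Q (Ep B Q T U F) k + jb B Q T U k : ℕ) : ℤ) := by
    unfold Frm.xC
    push_cast
    rfl
  push_cast at hmain hsum hxC ⊢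
  linarith

/-- a class with claims on its inside triples is not everything. -/
theorem out_of_ncl (s : StgR B Q T U F P al) {C : Finset (Finset V)} (hC : C ∈ P)
    (h2 : 2 ≤ C.card) {k : ι} (hk : k ∈ Sp.Kin (Rg B Q T U F) (slj B Q F) C)
    (hc : 0 < ncl B Q T U F P k) :
    ∃ j ∈ T, j ∉ Sp.Kin (Rg B Q T U F) (slj B Q F) C := by
  have h1 : ncl B Q T U F P k = ∑ v ∈ B k ∩ Q, ncp B Q (Kf B Q T U F P) k v := ncK_eq _ _ _
  obtain ⟨v, hv, hcv⟩ : ∃ v ∈ B k ∩ Q, ncp B Q (Kf B Q T U F P) k v ≠ 0 := by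
    by_contra hcon
    push Not at hcon
    rw [h1, sum_eq_zero hcon] at hc
    omega
  obtain ⟨j, x, h3, h4, _⟩ := s.kin_clS hC h2 hk hv hcv
  exact ⟨j, h3.swi.1, h4⟩

end StgR

end claims

end Pool.Agent.Hyp6
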