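import Pool.Agent.Hyp6.L3Dr2
import Pool.Agent.Hyp6.L3Dq

/-!
# HYP6 L3Dr3: classes of rank three with four inside triples

`Nd.y34`, `Nd.t34`: the integer part. `StgR.n34`: these classes are paid, if the claims `c` of their
inside triples, `D` of them with claims, satisfy `3 c <= 2 D + X`.
-/

set_option autoImplicit false
set_option linter.unusedVariables false

namespace Pool.Agent.Hyp6

open Finset Pool.Agent.Hyp5 Rt

section numbers

variable {n p W X f e N M x c D : ℤ}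

/-- two outer hits or free places. -/
theorem Nd.y34 (h : Nd n p 4 W X f e N M 0 0 0 0 0 x) (hr : n - p = 3)
    (hw : 20 + 5 * D + 4 * c + 2 * e ≤ 3 * M + 2 * N - 11 * n + 4 * p + 4 * (W + X))
    (F1 : 3 * c ≤ 2 * D + X) (F2 : c ≤ 3 * D) (D0 : 0 ≤ D) (D4 : D ≤ 4) (hy : 2 ≤ x + f) :
    NI n p 4 W X f e N 0 0 0 x (80 * c) := by
  obtain ⟨h1, h2, h3, h4, h5, h6, h7, h8, h9, h10, h11, h12, h13, h14, h15, h16, h17, h18, h19, h20,
    h21, h22, h23, h24, h25, h26⟩ := h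
  unfold NI
  rcases (by omega : D ≤ 3 ∨ D = 4) with hD | rfl
  · linarith
  · rcases (by omega : c ≤ 7 ∨ c = 8 ∨ c = 9 ∨ c = 10 ∨ 11 ≤ c) with hc | rfl | rfl | rfl | hc
    · linarith
    · rcases (by omega : p = 0 ∨ p = 1 ∨ p = 2 ∨ 3 ≤ p) with rfl | rfl | rfl | hp
      · linarith
      · linarith
      · linarith
      · linarith
    · rcases (by omega : p = 0 ∨ p = 1 ∨ p = 2 ∨ 3 ≤ p) with rfl | rfl | rfl | hp
      · linarith
      · linarith
      · linarith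
      · linarith
    · rcases (by omega : p = 0 ∨ p = 1 ∨ p = 2 ∨ 3 ≤ p) with rfl | rfl | rfl | hp
      · linarith
      · linarith
      · linarith
      · linarith
    · linarith

/-- the numbers of a leaf which is not of type (3;1). -/
def NoT31 (M N : ℤ) : Prop := (M = 1 ∧ N = 5) ∨ (M = 3 ∧ 3 ≤ N) ∨ (5 ≤ M ∧ 1 ≤ N)

/-- two leaves which are not of type (3;1). -/
theorem Nd.t34 {M1 N1 M2 N2 : ℤ} (h : Nd n p 4 W X f e N M 0 0 0 0 0 x) (hr : n - p = 3)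
    (hw : 20 + 5 * D + 4 * c + 2 * e ≤ 3 * M + 2 * N - 11 * n + 4 * p + 4 * (W + X))
    (F1 : 3 * c ≤ 2 * D + X) (F2 : c ≤ 3 * D) (D0 : 0 ≤ D) (D4 : D ≤ 4)
    (t1 : NoT31 M1 N1) (t2 : NoT31 M2 N2)
    (r1 : n - 2 ≤ N - N1 - N2) (r2 : n - 2 ≤ M - M1 - M2)
    (r3 : 7 * (n - 2) ≤ 2 * (M - M1 - M2) + (N - N1 - N2))
    (r4 : 11 * (n - 2) ≤ 3 * (M - M1 - M2) + 2 * (N - N1 - N2)) :
    NI n p 4 W X f e N 0 0 0 x (80 * c) := by
  obtain ⟨h1, h2, h3, h4, h5, h6, h7, h8, h9, h10, h11, h12, h13, h14, h15, h16, h17, h18, h19, h20,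
    h21, h22, h23, h24, h25, h26⟩ := h
  unfold NI
  unfold NoT31 at t1 t2
  rcases (by omega : D = 0 ∨ D = 1 ∨ D = 2 ∨ D = 3 ∨ D = 4) with rfl | rfl | rfl | rfl | rfl
  all_goals
    rcases t1 with ⟨t1, t1'⟩ | ⟨t1, t1'⟩ | ⟨t1, t1'⟩ <;>
      rcases t2 with ⟨t2, t2'⟩ | ⟨t2, t2'⟩ | ⟨t2, t2'⟩ <;> linarith

end numbers

universe u v

variable {V : Type v} [DecidableEq V] {ι : Type u} [Fintype ι] [DecidableEq ι]
  {B : ι → Finset V}

namespace StgR

variable {Q U : Finset V} {T : Finset ι} {F : Finset (Finset V)}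
  {P : Finset (Finset (Finset V))} {a : V → Finset (Finset V) → ℕ}

/-- the numbers of a leaf. -/
theorem leaf_num (s : StgR B Q T U F P a) {L : Finset V} (hL : L ∈ F) :
    1 ≤ (L.card : ℤ) ∧ (L.card : ℤ) % 2 = 1 ∧ (nt B L 1 : ℤ) % 2 = 1 ∧
      7 ≤ 2 * (L.card : ℤ) + nt B L 1 ∧ 11 ≤ 3 * (L.card : ℤ) + 2 * nt B L 1 ∧
      ((L.card : ℤ) = 1 → (nt B L 1 : ℤ) = 5) := by
  have h1 := s.toStg.one hL
  have h2 := h1.p0
  have h3 := h1.e0
  have h4 := h1.pp
  have h5 := h1.m1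
  have h6 := h1.mo
  have h7 := h1.n1
  have h8 := h1.pt
  have h9 := h1.no
  refine ⟨h5, h6, h9, ?_, by linarith, fun h10 => ?_⟩
  · rcases h5.eq_or_lt with h10 | h10
    · have := h8 h10.symm
      omega
    · omega
  · have := h8 h10
    omega

/-- the sums of the numbers of some leaves. -/
theorem leaf_sums (s : StgR B Q T U F P a) {A : Finset (Finset V)} (hA : A ⊆ F) :
    (A.card : ℤ) ≤ ∑ L ∈ A, (nt B L 1 : ℤ) ∧ (A.card : ℤ) ≤ ∑ L ∈ A, (L.card : ℤ) ∧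
      7 * (A.card : ℤ) ≤ 2 * ∑ L ∈ A, (L.card : ℤ) + ∑ L ∈ A, (nt B L 1 : ℤ) ∧
      11 * (A.card : ℤ) ≤ 3 * ∑ L ∈ A, (L.card : ℤ) + 2 * ∑ L ∈ A, (nt B L 1 : ℤ) := by
  refine ⟨?_, ?_, ?_, ?_⟩
  · have h1 := sum_le_sum fun L hL => (show (1 : ℤ) ≤ nt B L 1 by
      have := (s.leaf_num (hA hL)).2.2.1
      omega)
    rw [sum_const, nsmul_eq_mul, mul_one] at h1
    exact h1
  · have h1 := sum_le_sum fun L hL => (s.leaf_num (hA hL)).1
    rw [sum_const, nsmul_eq_mul, mul_one] at h1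
    exact h1
  · have h1 := sum_le_sum fun L hL => (s.leaf_num (hA hL)).2.2.2.1
    rw [sum_const, nsmul_eq_mul, sum_add_distrib, ← mul_sum] at h1
    linarith
  · have h1 := sum_le_sum fun L hL => (s.leaf_num (hA hL)).2.2.2.2.1
    rw [sum_const, nsmul_eq_mul, sum_add_distrib, ← mul_sum, ← mul_sum] at h1
    linarith

/-- a leaf which is not of type (3;1). -/
theorem noT_of (s : StgR B Q T U F P a) {L : Finset V} (hL : L ∈ F)
    (h : ¬ (L.card = 3 ∧ nt B L 1 = 1)) : NoT31 (L.card : ℤ) (nt B L 1 : ℤ) := by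
  obtain ⟨h1, h2, h3, h4, h5, h6⟩ := s.leaf_num hL
  unfold NoT31
  rcases (by omega : (L.card : ℤ) = 1 ∨ (L.card : ℤ) = 3 ∨ 5 ≤ (L.card : ℤ)) with h7 | h7 | h7
  · exact Or.inl ⟨h7, h6 h7⟩
  · refine Or.inr (Or.inl ⟨h7, ?_⟩)
    have h8 : (nt B L 1 : ℤ) ≠ 1 := fun h8 => h ⟨by exact_mod_cast h7, by exact_mod_cast h8⟩
    omega
  · exact Or.inr (Or.inr ⟨h7, by omega⟩)

/-- **a class of rank three with four inside triples is paid**. -/
theorem n34 (s : StgR B Q T U F P a) (hF : Few B Q T F) (hG : G31 B Q T U F)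
    {C : Finset (Finset V)} (hC : C ∈ P) (hf : ¬ Ful B Q T U F P a C)
    (hx : ¬ Exa B Q T U F P C) (hr : (C.card : ℤ) - (Sp.Uin U (slf B F) C).card = 3)
    (hK : (Sp.Kin (Rg B Q T U F) (slj B Q F) C).card = 4)
    (h3 : ∀ k ∈ Sp.Kin (Rg B Q T U F) (slj B Q F) C, ncl B Q T U F P k ≤ 3)
    (h1 : 3 * ∑ k ∈ Sp.Kin (Rg B Q T U F) (slj B Q F) C, (ncl B Q T U F P k : ℤ) ≤
      2 * (((Sp.Kin (Rg B Q T U F) (slj B Q F) C).filter
        (fun k => 0 < ncl B Q T U F P k)).card : ℤ) + Frm.xC B Q T (Rg B Q T U F) U F C) :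
    NdOk B Q T U F P a C := by
  classical
  have hCF : C ⊆ F := (s.part.ptn.vc C hC).sub
  set K := Sp.Kin (Rg B Q T U F) (slj B Q F) C with hKd
  set D := (K.filter (fun k => 0 < ncl B Q T U F P k)).card with hD
  set c := ∑ k ∈ K, (ncl B Q T U F P k : ℤ) with hc
  have ht : -tK B Q (Rg B Q T U F) F (tF B Q T U F P) C = 80 * c := by
    unfold tK
    rw [← sum_neg_distrib, hc, mul_sum]
    exact sum_congr rfl fun k hk => by
      rw [s.tF_kin hC hk]
      ring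
  have hd80 := (s.don hC).2
  rw [ht] at hd80
  have hD4 : D ≤ 4 := hK ▸ card_filter_le _ _
  have hc3 : c ≤ 3 * (D : ℤ) := by
    have e1 : c = ∑ k ∈ K.filter (fun k => 0 < ncl B Q T U F P k), (ncl B Q T U F P k : ℤ) := by
      rw [sum_filter]
      refine sum_congr rfl fun k _ => ?_
      by_cases h0 : 0 < ncl B Q T U F P k
      · rw [if_pos h0]
      · rw [if_neg h0]
        have : ncl B Q T U F P k = 0 := by omega
        rw [this]
        rfl
    rw [e1]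
    have e2 := sum_le_sum fun k (hk : k ∈ K.filter (fun k => 0 < ncl B Q T U F P k)) =>
      (show (ncl B Q T U F P k : ℤ) ≤ 3 by exact_mod_cast h3 k (mem_filter.1 hk).1)
    rw [sum_const, nsmul_eq_mul] at e2
    linarith
  have hD4' : (D : ℤ) ≤ 4 := by exact_mod_cast hD4
  have hK' : (K.card : ℤ) = 4 := by exact_mod_cast hK
  refine s.ndok hC hf hx fun k π sb x _ _ hxe hN => ?_
  rw [ht]
  rcases Nat.eq_zero_or_pos ((aC B Q T U F P C).card + (Bc B Q T U F P C).card) with hq | hq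
  swap
  · refine hN.e3q hr (by rw [hK']) (by
      have : (1 : ℤ) ≤ ((aC B Q T U F P C).card + (Bc B Q T U F P C).card : ℕ) := by
        exact_mod_cast hq
      push_cast at this
      exact this) ?_ hd80 ?_
    · rw [hK']
      linarith
    · rw [hK']
      linarith
  have hq0 : aC B Q T U F P C = ∅ := card_eq_zero.1 (by omega)
  have hb0 : Bc B Q T U F P C = ∅ := card_eq_zero.1 (by omega)
  rw [hq0, hb0] at hN hxe ⊢
  rw [hK'] at hN ⊢
  simp only [sum_empty, card_empty, Nat.cast_zero] at hN hxe ⊢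
  rcases Nat.eq_zero_or_pos D with hD0 | hD0
  · refine hN.n3 (by rw [hr]) ?_
    rw [hD0] at hc3
    push_cast at hc3
    linarith
  obtain ⟨k1, hk1⟩ := card_pos.1 hD0
  obtain ⟨hk1K, hk1c⟩ := mem_filter.1 hk1
  have h2 : 2 ≤ C.card := by omega
  have hw := s.whole hC h2 (s.out_of_ncl hC h2 hk1K hk1c)
  rw [← hKd, ← hD, ← hc, hK'] at hw
  by_contra hni
  have hy : ¬ 2 ≤ x + ∑ L ∈ C, fs B Q L := fun hy => hni (hN.y34 hr (by linarith) h1 hc3
    (by positivity) hD4' hy)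
  have hx1 : (gC B U F P C : ℤ) + ∑ j ∈ Trs B Q T (Rg B Q T U F) U F P, (jC B Q j C : ℤ) +
      ∑ L ∈ C, fs B Q L ≤ 1 := by
    have : x = (gC B U F P C : ℤ) +
        ∑ j ∈ Trs B Q T (Rg B Q T U F) U F P, (jC B Q j C : ℤ) := by
      rw [hxe]
      ring
    linarith [this]
  have htwo : ∀ L1 ∈ C, ∀ L2 ∈ C, L1 ≠ L2 → ¬ (L1.card = 3 ∧ nt B L1 1 = 1) →
      ¬ (L2.card = 3 ∧ nt B L2 1 = 1) → False := by
    intro L1 hL1 L2 hL2 hne n1 n2
    have hL2e : L2 ∈ C.erase L1 := mem_erase.2 ⟨hne.symm, hL2⟩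
    obtain ⟨r1, r2, r3, r4⟩ := s.leaf_sums (A := (C.erase L1).erase L2)
      (((erase_subset _ _).trans (erase_subset _ _)).trans hCF)
    have hcd : (((C.erase L1).erase L2).card : ℤ) = C.card - 2 := by
      have e1 := card_erase_add_one hL2e
      have e2 := card_erase_add_one hL1
      omega
    have hs : ∀ g : Finset V → ℤ, ∑ L ∈ (C.erase L1).erase L2, g L =
        ∑ L ∈ C, g L - g L1 - g L2 := by
      intro g
      have e1 := add_sum_erase (C.erase L1) g hL2e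
      have e2 := add_sum_erase C g hL1
      linarith
    rw [hcd, hs] at r1 r2
    rw [hcd, hs, hs] at r3 r4
    exact hni (hN.t34 hr (by linarith) h1 hc3 (by positivity) hD4' (s.noT_of (hCF hL1) n1)
      (s.noT_of (hCF hL2) n2) r1 r2 r3 r4)
  obtain ⟨M, hM, h31⟩ : ∃ M ∈ C, ∀ L ∈ C, L ≠ M → L.card = 3 ∧ nt B L 1 = 1 := by
    by_cases hall : ∃ M ∈ C, ¬ (M.card = 3 ∧ nt B M 1 = 1)
    · obtain ⟨M, hM, h4⟩ := hall
      refine ⟨M, hM, fun L hL hne => ?_⟩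
      by_contra h5
      exact htwo L hL M hM hne h5 h4
    · push Not at hall
      obtain ⟨M, hM⟩ := card_pos.1 (by omega : 0 < C.card)
      exact ⟨M, hM, fun L hL _ => by
        by_contra h5
        exact h5 (by
          have := hall L hL
          tauto)⟩
  exact s.c34 hF hG hC hr hK hq0 hx1 hM h31

end StgR

end Pool.Agent.Hyp6
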