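import Pool.Agent.Hyp6.L3Dr3

/-!
# HYP6 L3Dr4: dense classes of rank at least two, except two inside triples

`DonS`: the facts about the claims on the inside triples of a class. `StgR.don_num`: the bounds
`5 c <= 8 D + X`, `3 c <= 2 D + X` for the claims. `StgR.dense_don`: the classes of rank two with at
least three inside triples and the classes of rank at least three are paid.
-/

set_option autoImplicit false
set_option linter.unusedVariables false

namespace Pool.Agent.Hyp6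

open Finset Pool.Agent.Hyp5 Rt

section numbers

variable {n p K W X f e N M q b k S s x d : ℤ}

/-- rank two, three inside triples, a line triple or centre. -/
theorem Nd.w2q (h : Nd n p K W X f e N M q b k S s x) (hr : n - p = 2) (hK : 3 ≤ K)
    (hq : 1 ≤ q + b) (hd : 5 * d ≤ 640 * K + 80 * X) (hX : d ≤ 80 * X) (h3 : d ≤ 240 * K) :
    NI n p K W X f e N b S s x d := by
  obtain ⟨h1, h2, h3, h4, h5, h6, h7, h8, h9, h10, h11, h12, h13, h14, h15, h16, h17, h18, h19, h20,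
    h21, h22, h23, h24, h25, h26⟩ := h
  unfold NI
  linarith

/-- rank two, three inside triples, six outer hits. -/
theorem Nd.w2y (h : Nd n p K W X f e N M q b k S s x) (hr : n - p = 2) (hK : 3 ≤ K)
    (hq : 6 ≤ x + f) (hd : 5 * d ≤ 640 * K + 80 * X) (hX : d ≤ 80 * X) (h3 : d ≤ 240 * K) :
    NI n p K W X f e N b S s x d := by
  obtain ⟨h1, h2, h3, h4, h5, h6, h7, h8, h9, h10, h11, h12, h13, h14, h15, h16, h17, h18, h19, h20,
    h21, h22, h23, h24, h25, h26⟩ := h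
  unfold NI
  linarith

/-- rank three, a line triple or centre. -/
theorem Nd.w3q (h : Nd n p K W X f e N M q b k S s x) (hr : n - p = 3) (hK : 4 ≤ K)
    (hq : 1 ≤ q + b) (hd : 5 * d ≤ 640 * K + 80 * X) (hX : d ≤ 80 * X) (h3 : d ≤ 240 * K) :
    NI n p K W X f e N b S s x d := by
  obtain ⟨h1, h2, h3, h4, h5, h6, h7, h8, h9, h10, h11, h12, h13, h14, h15, h16, h17, h18, h19, h20,
    h21, h22, h23, h24, h25, h26⟩ := h
  unfold NI
  linarith

/-- rank three, six outer hits. -/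
theorem Nd.w3y (h : Nd n p K W X f e N M q b k S s x) (hr : n - p = 3) (hK : 4 ≤ K)
    (hq : 6 ≤ x + f) (hd : 5 * d ≤ 640 * K + 80 * X) (hX : d ≤ 80 * X) (h3 : d ≤ 240 * K) :
    NI n p K W X f e N b S s x d := by
  obtain ⟨h1, h2, h3, h4, h5, h6, h7, h8, h9, h10, h11, h12, h13, h14, h15, h16, h17, h18, h19, h20,
    h21, h22, h23, h24, h25, h26⟩ := h
  unfold NI
  linarith

/-- rank four, a line triple or centre. -/
theorem Nd.w4q (h : Nd n p K W X f e N M q b k S s x) (hr : n - p = 4)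
    (hq : 1 ≤ q + b) (hd : 5 * d ≤ 640 * K + 80 * X) (hX : d ≤ 80 * X) (h3 : d ≤ 240 * K) :
    NI n p K W X f e N b S s x d := by
  obtain ⟨h1, h2, h3, h4, h5, h6, h7, h8, h9, h10, h11, h12, h13, h14, h15, h16, h17, h18, h19, h20,
    h21, h22, h23, h24, h25, h26⟩ := h
  unfold NI
  linarith

/-- rank four, six outer hits. -/
theorem Nd.w4y (h : Nd n p K W X f e N M q b k S s x) (hr : n - p = 4)
    (hq : 6 ≤ x + f) (hd : 5 * d ≤ 640 * K + 80 * X) (hX : d ≤ 80 * X) (h3 : d ≤ 240 * K) :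
    NI n p K W X f e N b S s x d := by
  obtain ⟨h1, h2, h3, h4, h5, h6, h7, h8, h9, h10, h11, h12, h13, h14, h15, h16, h17, h18, h19, h20,
    h21, h22, h23, h24, h25, h26⟩ := h
  unfold NI
  linarith

/-- rank at least five, a line triple or centre. -/
theorem Nd.w5q (h : Nd n p K W X f e N M q b k S s x) (hr : 5 ≤ n - p)
    (hq : 1 ≤ q + b) (hd : 5 * d ≤ 640 * K + 80 * X) (hX : d ≤ 80 * X) (h3 : d ≤ 240 * K) :
    NI n p K W X f e N b S s x d := by
  obtain ⟨h1, h2, h3, h4, h5, h6, h7, h8, h9, h10, h11, h12, h13, h14, h15, h16, h17, h18, h19, h20,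
    h21, h22, h23, h24, h25, h26⟩ := h
  unfold NI
  linarith

/-- rank at least five, six outer hits. -/
theorem Nd.w5y (h : Nd n p K W X f e N M q b k S s x) (hr : 5 ≤ n - p)
    (hq : 6 ≤ x + f) (hd : 5 * d ≤ 640 * K + 80 * X) (hX : d ≤ 80 * X) (h3 : d ≤ 240 * K) :
    NI n p K W X f e N b S s x d := by
  obtain ⟨h1, h2, h3, h4, h5, h6, h7, h8, h9, h10, h11, h12, h13, h14, h15, h16, h17, h18, h19, h20,
    h21, h22, h23, h24, h25, h26⟩ := h
  unfold NI
  linarith

end numbers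

section sums

variable {ι : Type*} [DecidableEq ι]

/-- the bounds for the claims `c` and the useless hits `x` of the triples `K`, `J k` is the record of
`k`. -/
theorem sum_don {K : Finset ι} {c x : ι → ℕ} {J : ι → ι} (hcx : ∀ k ∈ K, c k ≤ x k)
    (h : ∀ k ∈ K, c k ≤ 1 ∨ (c k ≤ 3 ∧ 4 + c k ≤ x k) ∨
      (c k = 2 ∧ J k ∈ K ∧ 2 + c (J k) ≤ x (J k) ∧ c (J k) ≤ 2))
    (hi : ∀ k ∈ K, ∀ k' ∈ K, c k = 2 → x k < 6 → c k' = 2 → x k' < 6 → J k = J k' → k = k') :
    3 * ∑ k ∈ K, (c k : ℤ) ≤ 2 * ((K.filter (fun k => 0 < c k)).card : ℤ) +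
      ∑ k ∈ K, (x k : ℤ) := by
  classical
  set A := K.filter (fun k => c k = 2 ∧ x k < 6) with hA
  have hJ : ∀ k ∈ A, J k ∈ K ∧ 2 + c (J k) ≤ x (J k) ∧ c (J k) ≤ 2 := by
    intro k hk
    obtain ⟨h1, h2, h3⟩ := mem_filter.1 hk
    rcases h k h1 with h4 | h4 | h4
    · omega
    · omega
    · exact h4.2
  have hc : (A.image J).card = A.card := card_image_of_injOn fun k hk k' hk' he => by
    obtain ⟨h1, h2, h3⟩ := mem_filter.1 hk
    obtain ⟨h1', h2', h3'⟩ := mem_filter.1 hk'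
    exact hi k h1 k' h1' h2 h3 h2' h3' he
  have hsub : A.image J ⊆ K := by
    intro j hj
    obtain ⟨k, hk, rfl⟩ := mem_image.1 hj
    exact (hJ k hk).1
  have hone : ∀ k ∈ K, 3 * (c k : ℤ) + (if k ∈ A.image J then 2 else 0) ≤
      (if 0 < c k then 2 else 0) + (x k : ℤ) + (if k ∈ A then 2 else 0) := by
    intro k hk
    have h0 := hcx k hk
    have hAm : k ∈ A ↔ c k = 2 ∧ x k < 6 := by
      rw [hA, mem_filter]
      exact ⟨fun h => h.2, fun h => ⟨hk, h⟩⟩
    have hJm : k ∈ A.image J → 2 + c k ≤ x k ∧ c k ≤ 2 := by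
      intro hk'
      obtain ⟨k', hk2, rfl⟩ := mem_image.1 hk'
      exact (hJ k' hk2).2
    have h2 := h k hk
    by_cases hkA : k ∈ A
    · rw [if_pos hkA]
      obtain ⟨h3, h4⟩ := hAm.1 hkA
      by_cases hkJ : k ∈ A.image J
      · rw [if_pos hkJ]
        have := hJm hkJ
        split_ifs <;> omega
      · rw [if_neg hkJ]
        split_ifs <;> omega
    · rw [if_neg hkA]
      have h3 : ¬ (c k = 2 ∧ x k < 6) := fun h => hkA (hAm.2 h)
      by_cases hkJ : k ∈ A.image J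
      · rw [if_pos hkJ]
        have := hJm hkJ
        split_ifs <;> omega
      · rw [if_neg hkJ]
        split_ifs <;> omega
  have hs := sum_le_sum hone
  rw [sum_add_distrib, sum_add_distrib, sum_add_distrib, ← mul_sum, ← sum_filter, ← sum_filter,
    ← sum_filter, filter_mem_eq_inter, filter_mem_eq_inter, inter_eq_right.2 hsub,
    inter_eq_right.2 (filter_subset _ _ : A ⊆ K), sum_const, sum_const, sum_const, hc] at hs
  simp only [nsmul_eq_mul] at hs
  linarith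

omit [DecidableEq ι] in
/-- the weak bound. -/
theorem sum_don5 {K : Finset ι} {c x : ι → ℕ} (hcx : ∀ k ∈ K, c k ≤ x k)
    (h : ∀ k ∈ K, c k ≤ 2 ∨ (c k ≤ 3 ∧ 4 + c k ≤ x k)) :
    5 * ∑ k ∈ K, (c k : ℤ) ≤ 8 * ((K.filter (fun k => 0 < c k)).card : ℤ) +
      ∑ k ∈ K, (x k : ℤ) := by
  have hone : ∀ k ∈ K, 5 * (c k : ℤ) ≤ (if 0 < c k then 8 else 0) + (x k : ℤ) := by
    intro k hk
    have h0 := hcx k hk
    have h2 := h k hk
    split_ifs <;> omega
  have hs := sum_le_sum hone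
  rw [sum_add_distrib, ← mul_sum, ← sum_filter, sum_const] at hs
  simp only [nsmul_eq_mul] at hs
  linarith

end sums

universe u v

variable {V : Type v} [DecidableEq V] {ι : Type u} [Fintype ι] [DecidableEq ι]
  {B : ι → Finset V}

/-- the facts about the claims on the inside triples of a class. -/
def DonS (B : ι → Finset V) (Q : Finset V) (T : Finset ι) (U : Finset V)
    (F : Finset (Finset V)) (P : Finset (Finset (Finset V))) (C : Finset (Finset V)) : Prop :=
  ∃ R : ι → ι → Prop, (∀ j k k', R j k → R j k' → k = k') ∧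
    ∀ k ∈ Sp.Kin (Rg B Q T U F) (slj B Q F) C, ncl B Q T U F P k ≤ 1 ∨
      (ncl B Q T U F P k ≤ 3 ∧ ∑ L ∈ F, jh B Q k L + ncl B Q T U F P k ≤ 8) ∨
      (ncl B Q T U F P k = 2 ∧ ∃ (j : ι) (x : V), R j k ∧ j ∈ T ∧ j ≠ k ∧ {x} ∈ C ∧
        hit B U {x} = 0 ∧ 6 ≤ jh B Q j {x} ∧ ∑ L ∈ F, jh B Q j L + 2 + ncl B Q T U F P j ≤ 12)

namespace StgR

variable {Q U : Finset V} {T : Finset ι} {F : Finset (Finset V)}
  {P : Finset (Finset (Finset V))} {a : V → Finset (Finset V) → ℕ}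

/-- a triple with six hits at a point of the class is inside the class or a line triple at the class or
has six outer hits. -/
theorem rec_cases (s : StgR B Q T U F P a) {C : Finset (Finset V)} (hC : C ∈ P) {j : ι}
    (hj : j ∈ T) {L : Finset V} (hL : L ∈ C) (h6 : 6 ≤ jh B Q j L) :
    j ∈ Sp.Kin (Rg B Q T U F) (slj B Q F) C ∨ 1 ≤ (aC B Q T U F P C).card ∨
      6 ≤ ∑ j ∈ Trs B Q T (Rg B Q T U F) U F P, jC B Q j C := by
  classical
  have hCF : C ⊆ F := (s.part.ptn.vc C hC).sub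
  have hs : L ∈ slj B Q F j := s.frm.slj_of_hit (hCF hL) hj (by omega)
  by_cases h1 : j ∈ P.biUnion (Sp.Kin (Rg B Q T U F) (slj B Q F))
  · left
    obtain ⟨C', hC', hj'⟩ := mem_biUnion.1 h1
    have h2 : L ∈ C' := (s.toStg.kin.1 hj').2.2.2.2 hs
    have h3 : C' = C := by
      by_contra hne
      exact disjoint_left.1 (s.part.ptn.dj C' hC' C hC hne) h2 hL
    rwa [h3] at hj'
  by_cases h2 : j ∈ tl B Q T U F P
  · right
    left
    refine card_pos.2 ⟨j, Sp.mem_atl.2 ⟨h2, Sp.met_sub_lx (Sp.mem_met.2 ⟨hC, ?_⟩)⟩⟩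
    rw [not_disjoint_iff]
    exact ⟨L, hs, hL⟩
  · right
    right
    have h3 : j ∈ Trs B Q T (Rg B Q T U F) U F P := mem_sdiff.2 ⟨mem_sdiff.2 ⟨hj, h1⟩, h2⟩
    calc 6 ≤ jh B Q j L := h6
      _ ≤ jC B Q j C := single_le_sum (f := fun L => jh B Q j L) (fun _ _ => Nat.zero_le _) hL
      _ ≤ _ := single_le_sum (f := fun j => jC B Q j C) (fun _ _ => Nat.zero_le _) h3

/-- **the bounds for the claims on the inside triples of a class**. -/
theorem don_num (s : StgR B Q T U F P a) {C : Finset (Finset V)} (hC : C ∈ P)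
    (hD : DonS B Q T U F P C) :
    (∀ k ∈ Sp.Kin (Rg B Q T U F) (slj B Q F) C, ncl B Q T U F P k ≤ 3) ∧
    (5 * ∑ k ∈ Sp.Kin (Rg B Q T U F) (slj B Q F) C, (ncl B Q T U F P k : ℤ) ≤
      8 * (((Sp.Kin (Rg B Q T U F) (slj B Q F) C).filter
        (fun k => 0 < ncl B Q T U F P k)).card : ℤ) + Frm.xC B Q T (Rg B Q T U F) U F C) ∧
    (3 * ∑ k ∈ Sp.Kin (Rg B Q T U F) (slj B Q F) C, (ncl B Q T U F P k : ℤ) ≤
      2 * (((Sp.Kin (Rg B Q T U F) (slj B Q F) C).filter
        (fun k => 0 < ncl B Q T U F P k)).card : ℤ) + Frm.xC B Q T (Rg B Q T U F) U F C ∨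
      1 ≤ (aC B Q T U F P C).card ∨
      6 ≤ ∑ j ∈ Trs B Q T (Rg B Q T U F) U F P, jC B Q j C) := by
  classical
  obtain ⟨R, hR, hk⟩ := hD
  set K := Sp.Kin (Rg B Q T U F) (slj B Q F) C with hK
  set x : ι → ℕ := fun k => jn B Q (Ep B Q T U F) k + jb B Q T U k with hx
  have hX : (Frm.xC B Q T (Rg B Q T U F) U F C : ℤ) = ∑ k ∈ K, (x k : ℤ) := by
    unfold Frm.xC
    push_cast
    rfl
  have hxe : ∀ k ∈ K, ∑ L ∈ F, jh B Q k L + x k = 12 := fun k hk' => s.kin_x hk'
  have hcx : ∀ k ∈ K, ncl B Q T U F P k ≤ x k := fun k hk' => by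
    have h1 := s.ncl_jb k
    show _ ≤ jn B Q (Ep B Q T U F) k + jb B Q T U k
    omega
  refine ⟨fun k hk' => ?_, ?_, ?_⟩
  · rcases hk k hk' with h1 | h1 | h1 <;> omega
  · rw [hX]
    refine sum_don5 hcx fun k hk' => ?_
    have h0 := hxe k hk'
    rcases hk k hk' with h1 | h1 | h1 <;> omega
  · by_cases hall : ∀ k ∈ K, ncl B Q T U F P k = 2 → x k < 6 → ∃ j, R j k ∧ j ∈ K ∧
        2 + ncl B Q T U F P j ≤ x j ∧ ncl B Q T U F P j ≤ 2
    · left
      rw [hX]
      have hch : ∀ k, ∃ j, k ∈ K → ncl B Q T U F P k = 2 → x k < 6 → R j k ∧ j ∈ K ∧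
          2 + ncl B Q T U F P j ≤ x j ∧ ncl B Q T U F P j ≤ 2 := by
        intro k
        by_cases h1 : k ∈ K ∧ ncl B Q T U F P k = 2 ∧ x k < 6
        · obtain ⟨j, hj⟩ := hall k h1.1 h1.2.1 h1.2.2
          exact ⟨j, fun _ _ _ => hj⟩
        · exact ⟨k, fun h2 h3 h4 => absurd ⟨h2, h3, h4⟩ h1⟩
      choose J hJ using hch
      refine sum_don (J := J) hcx (fun k hk' => ?_) (fun k hk1 k' hk2 h1 h2 h3 h4 he => ?_)
      · have h0 := hxe k hk'
        by_cases h1 : ncl B Q T U F P k = 2 ∧ x k < 6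
        · exact Or.inr (Or.inr ⟨h1.1, (hJ k hk' h1.1 h1.2).2⟩)
        · rcases hk k hk' with h2 | h2 | h2 <;> omega
      · have h5 := (hJ k hk1 h1 h2).1
        have h6 := (hJ k' hk2 h3 h4).1
        rw [he] at h5
        exact hR _ _ _ h5 h6
    · right
      push Not at hall
      obtain ⟨k, hkK, hc2, hx6, h1⟩ := hall
      have h0 := hxe k hkK
      rcases hk k hkK with h2 | h2 | ⟨_, j, y, h3, h4, h5, h6, _, h7, h8⟩
      · omega
      · omega
      · rcases s.rec_cases hC h4 h6 h7 with h9 | h9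
        · exfalso
          have h10 := hxe j h9
          have h12 : jh B Q j {y} ≤ ∑ L ∈ F, jh B Q j L :=
            single_le_sum (f := fun L => jh B Q j L) (fun _ _ => Nat.zero_le _)
              ((s.part.ptn.vc C hC).sub h6)
          have h11 := h1 j h3 h9 (by omega)
          rcases hk j h9 with h13 | h13 | h13 <;> omega
        · exact h9

/-- the donations of a class. -/
theorem don_eq (s : StgR B Q T U F P a) {C : Finset (Finset V)} (hC : C ∈ P) :
    -tK B Q (Rg B Q T U F) F (tF B Q T U F P) C =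
      80 * ∑ k ∈ Sp.Kin (Rg B Q T U F) (slj B Q F) C, (ncl B Q T U F P k : ℤ) := by
  unfold tK
  rw [← sum_neg_distrib, mul_sum]
  exact sum_congr rfl fun k hk => by
    rw [s.tF_kin hC hk]
    ring

/-- the bounds for the donations. -/
theorem don_bd (s : StgR B Q T U F P a) {C : Finset (Finset V)} (hC : C ∈ P)
    (hD : DonS B Q T U F P C) :
    (5 * -tK B Q (Rg B Q T U F) F (tF B Q T U F P) C ≤
        640 * ((Sp.Kin (Rg B Q T U F) (slj B Q F) C).card : ℤ) +
          80 * (Frm.xC B Q T (Rg B Q T U F) U F C : ℤ)) ∧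
      (-tK B Q (Rg B Q T U F) F (tF B Q T U F P) C ≤
        80 * (Frm.xC B Q T (Rg B Q T U F) U F C : ℤ)) ∧
      (-tK B Q (Rg B Q T U F) F (tF B Q T U F P) C ≤
        240 * ((Sp.Kin (Rg B Q T U F) (slj B Q F) C).card : ℤ)) ∧
      (3 * ∑ k ∈ Sp.Kin (Rg B Q T U F) (slj B Q F) C, (ncl B Q T U F P k : ℤ) ≤
      2 * (((Sp.Kin (Rg B Q T U F) (slj B Q F) C).filter
        (fun k => 0 < ncl B Q T U F P k)).card : ℤ) + Frm.xC B Q T (Rg B Q T U F) U F C →
      3 * -tK B Q (Rg B Q T U F) F (tF B Q T U F P) C ≤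
        160 * ((Sp.Kin (Rg B Q T U F) (slj B Q F) C).card : ℤ) +
          80 * (Frm.xC B Q T (Rg B Q T U F) U F C : ℤ)) := by
  obtain ⟨h1, h2, h3⟩ := s.don_num hC hD
  have h4 : (((Sp.Kin (Rg B Q T U F) (slj B Q F) C).filter
        (fun k => 0 < ncl B Q T U F P k)).card : ℤ) ≤
      (Sp.Kin (Rg B Q T U F) (slj B Q F) C).card := by exact_mod_cast card_filter_le _ _
  have h5 : ∑ k ∈ Sp.Kin (Rg B Q T U F) (slj B Q F) C, (ncl B Q T U F P k : ℤ) ≤
      3 * ((Sp.Kin (Rg B Q T U F) (slj B Q F) C).card : ℤ) := by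
    have e2 := sum_le_sum fun k (hk : k ∈ Sp.Kin (Rg B Q T U F) (slj B Q F) C) =>
      (show (ncl B Q T U F P k : ℤ) ≤ 3 by exact_mod_cast h1 k hk)
    rw [sum_const, nsmul_eq_mul] at e2
    linarith
  refine ⟨?_, (s.don hC).2, ?_, fun h6 => ?_⟩
  · rw [s.don_eq hC]
    linarith
  · rw [s.don_eq hC]
    linarith
  · rw [s.don_eq hC]
    linarith

/-- **the dense classes of rank two with at least three inside triples and of rank at least three are
paid**. -/
theorem dense_don (s : StgR B Q T U F P a) (hF : Few B Q T F) (hG : G31 B Q T U F)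
    {C : Finset (Finset V)} (hC : C ∈ P) (hf : ¬ Ful B Q T U F P a C)
    (hx : ¬ Exa B Q T U F P C) (hD : DonS B Q T U F P C)
    (h : ((C.card : ℤ) - (Sp.Uin U (slf B F) C).card = 2 ∧
      3 ≤ (Sp.Kin (Rg B Q T U F) (slj B Q F) C).card) ∨
      3 ≤ (C.card : ℤ) - (Sp.Uin U (slf B F) C).card) : NdOk B Q T U F P a C := by
  classical
  obtain ⟨hd5, hd80, hd240, hd3⟩ := s.don_bd hC hD
  obtain ⟨h3, _, hcase⟩ := s.don_num hC hD
  have h' : ((C.card : ℤ) - (Sp.Uin U (slf B F) C).card = 2 ∧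
      3 ≤ ((Sp.Kin (Rg B Q T U F) (slj B Q F) C).card : ℤ)) ∨
      3 ≤ (C.card : ℤ) - (Sp.Uin U (slf B F) C).card := by
    rcases h with h | h
    · exact Or.inl ⟨h.1, by exact_mod_cast h.2⟩
    · exact Or.inr h
  -- the case of the weak bound
  have weak : (1 ≤ (aC B Q T U F P C).card + (Bc B Q T U F P C).card ∨
      6 ≤ ∑ j ∈ Trs B Q T (Rg B Q T U F) U F P, jC B Q j C) → NdOk B Q T U F P a C := by
    intro hw
    refine s.ndok hC hf hx fun k π sb x _ _ hxe hN => ?_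
    have hdn := hN.dn
    have hy : (1 : ℤ) ≤ ((aC B Q T U F P C).card : ℤ) + ((Bc B Q T U F P C).card : ℤ) ∨
        6 ≤ x + ∑ L ∈ C, fs B Q L := by
      by_cases h0 : 1 ≤ (aC B Q T U F P C).card + (Bc B Q T U F P C).card
      · exact Or.inl (by exact_mod_cast h0)
      · right
        have h1 := hw.resolve_left h0
        have hq0 : aC B Q T U F P C = ∅ := card_eq_zero.1 (by omega)
        have hb0 : Bc B Q T U F P C = ∅ := card_eq_zero.1 (by omega)
        rw [hq0, hb0] at hxe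
        simp only [sum_empty] at hxe
        have h2 : (6 : ℤ) ≤ ∑ j ∈ Trs B Q T (Rg B Q T U F) U F P, (jC B Q j C : ℤ) := by
          exact_mod_cast h1
        have h4 : (0 : ℤ) ≤ (gC B U F P C : ℤ) := by positivity
        have h5 := hN.f0
        have h6 := hN.e0
        linarith
    rcases h' with ⟨hr, hK⟩ | hr
    · rcases hy with hy | hy
      · exact hN.w2q hr hK hy hd5 hd80 hd240
      · exact hN.w2y hr hK hy hd5 hd80 hd240
    · rcases (by omega : (C.card : ℤ) - (Sp.Uin U (slf B F) C).card = 3 ∨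
          (C.card : ℤ) - (Sp.Uin U (slf B F) C).card = 4 ∨
          5 ≤ (C.card : ℤ) - (Sp.Uin U (slf B F) C).card) with hr3 | hr4 | hr5
      · have hK4 : 4 ≤ ((Sp.Kin (Rg B Q T U F) (slj B Q F) C).card : ℤ) := by
          rw [hr3] at hdn
          linarith
        rcases hy with hy | hy
        · exact hN.w3q hr3 hK4 hy hd5 hd80 hd240
        · exact hN.w3y hr3 hK4 hy hd5 hd80 hd240
      · rcases hy with hy | hy
        · exact hN.w4q hr4 hy hd5 hd80 hd240
        · exact hN.w4y hr4 hy hd5 hd80 hd240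
      · rcases hy with hy | hy
        · exact hN.w5q hr5 hy hd5 hd80 hd240
        · exact hN.w5y hr5 hy hd5 hd80 hd240
  rcases hcase with hcase | hcase | hcase
  swap
  · exact weak (Or.inl (by omega))
  swap
  · exact weak (Or.inr hcase)
  have hd := hd3 hcase
  by_cases h34 : (C.card : ℤ) - (Sp.Uin U (slf B F) C).card = 3 ∧
      (Sp.Kin (Rg B Q T U F) (slj B Q F) C).card = 4
  · exact s.n34 hF hG hC hf hx h34.1 h34.2 h3 hcase
  refine s.ndok hC hf hx fun k π sb x _ _ hxe hN => ?_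
  have hdn := hN.dn
  rcases h' with ⟨hr, hK⟩ | hr
  · exact hN.e2 hr hK hd hd80 hd240
  · rcases (by omega : (C.card : ℤ) - (Sp.Uin U (slf B F) C).card = 3 ∨
        (C.card : ℤ) - (Sp.Uin U (slf B F) C).card = 4 ∨
        5 ≤ (C.card : ℤ) - (Sp.Uin U (slf B F) C).card) with hr3 | hr4 | hr5
    · have hK5 : 5 ≤ ((Sp.Kin (Rg B Q T U F) (slj B Q F) C).card : ℤ) := by
        rw [hr3] at hdn
        have : (Sp.Kin (Rg B Q T U F) (slj B Q F) C).card ≠ 4 := fun h4 => h34 ⟨hr3, h4⟩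
        omega
      exact hN.e3 hr3 hK5 hd hd80 hd240
    · exact hN.e4 hr4 hd hd80 hd240
    · exact hN.e5 hr5 hd hd80 hd240

end StgR

end Pool.Agent.Hyp6
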