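import Pool.Agent.Hyp6.L4E
import Pool.Agent.Hyp6.GE

/-!
# HYP6 L3E: the frame of the level-3 theorem in value form

`IHE n`: the induction hypothesis `-1 + 2 e <= Pv` for all connected non-exceptional sets with fewer
than `n` points (all systems). `L3e_of_crit`: it is enough to treat critical sets with value `>= 0`.
-/

set_option autoImplicit false

namespace Pool.Agent.Hyp6

open Finset Pool.Agent.Hyp5

universe u v

/-- the induction hypothesis of the level-3 theorem in value form. -/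
def IHE (V : Type v) [DecidableEq V] (n : ℕ) : Prop :=
  ∀ (κ : Type u) [Fintype κ] (B : κ → Finset V) (Q : Finset V), Q.card < n → Reg B Q → Tr3 B Q →
    Conn (gr B) Q → ¬ KT B Q → -1 + 2 * (ee B Q Q : ℤ) ≤ Pv B Q

variable {V : Type v} [DecidableEq V]

theorem IHE.mono {m n : ℕ} (h : IHE.{u} V n) (hmn : m ≤ n) : IHE.{u} V m :=
  fun κ _ B Q hQ => h κ B Q (lt_of_lt_of_le hQ hmn)

/-- the hypothesis in terms of the second potential, for sets with value at most `0`. -/
theorem IHE.Pp {n : ℕ} (h : IHE.{u} V n) {κ : Type u} [Fintype κ] {B : κ → Finset V}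
    {Q : Finset V} (hn : Q.card < n) (hr : Reg B Q) (h3 : Tr3 B Q) (hQ : Conn (gr B) Q)
    (hK : ¬ KT B Q) (hs : sv B Q ≤ 0) : 2 * (ee B Q Q : ℤ) ≤ Pp B Q := by
  have h1 := h κ B Q hn hr h3 hQ hK
  have h2 := Pp_even (B := B) Q
  rw [Pv_eq_Pp] at h1
  omega

/-- a point which is not critical. -/
theorem L3e_noncrit {κ : Type u} [Fintype κ] {B : κ → Finset V} {Q : Finset V}
    (ih : IHE.{u} V Q.card) (hr : Reg B Q) (h3 : Tr3 B Q) (hQ : Conn (gr B) Q)
    (hcr : ¬ Crit B Q) : -1 + 2 * (ee B Q Q : ℤ) ≤ Pv B Q := by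
  classical
  unfold Crit at hcr
  push Not at hcr
  obtain ⟨x, hx, hxr⟩ := hcr
  have hcov : Cov B Q := cov_of_reg hr
  have hrho : rho B (Q.erase x) = rho B Q := by
    have h1 := rho_le_erase (x := x) hcov
    have h2 := rho_erase_le (x := x) hcov
    omega
  obtain ⟨K, hK1, hK2, hK3⟩ := exists_parts B (Q.erase x)
  have hcard := card_comps_le hr hx hQ hK1 hK2
  have hxs : ({x} : Finset V) ⊆ Q := singleton_subset_iff.2 hx
  have hKQ : ∀ C ∈ K, C ⊆ Q := fun C hC => (hK1 C hC).1.trans (erase_subset _ _)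
  have hKcov : ∀ C ∈ K, Cov B C := fun C hC => hcov.mono (hKQ C hC)
  have hval : ∀ C ∈ K, -1 ≤ dv B Q C := by
    intro C hC
    have hne : C ≠ Q := by
      rintro rfl
      exact (mem_erase.1 ((hK1 _ hC).1 hx)).1 rfl
    have h1 := ih κ B C (card_lt_card (lt_of_le_of_ne (hKQ C hC) hne)) (hr.mono (hKQ C hC))
      (h3.mono (hKQ C hC)) (hK1 C hC).2.2 (not_KT_of_ssubset hQ hr h3 (hKQ C hC) hne)
    have h2 : (ee B Q C : ℤ) ≤ ee B C C := by
      exact_mod_cast ee_le_ee (Subset.refl _) (hKQ C hC)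
    unfold dv
    linarith
  have he : Q \ {x} = K.biUnion id := by rw [hK3, sdiff_singleton_eq_erase]
  have h2 := Pv_sdiff (B := B) hxs
  rw [he, Pv_biUnion hKcov hK2, card_singleton] at h2
  have hr' : rho B (K.biUnion id) = rho B Q := by rw [hK3, hrho]
  rw [hr'] at h2
  have hee : ee B Q Q = ∑ C ∈ K, ee B Q C + ee B Q {x} := by
    rw [← ee_biUnion hK2, ← he, ← ee_union sdiff_disjoint, sdiff_union_of_subset hxs]
  have h5 := two_ee_le' (B := B) Q {x}
  have h6 : ∑ C ∈ K, (-1 : ℤ) ≤ ∑ C ∈ K, dv B Q C := sum_le_sum fun C hC => hval C hC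
  rw [sum_const, nsmul_eq_mul] at h6
  have h7 : ∑ C ∈ K, dv B Q C = ∑ C ∈ K, Pv B C - 2 * ∑ C ∈ K, (ee B Q C : ℤ) := by
    unfold dv
    rw [sum_sub_distrib, ← mul_sum]
  have c1 : (ee B Q Q : ℤ) = ∑ C ∈ K, (ee B Q C : ℤ) + ee B Q {x} := by
    rw [hee]
    push_cast
    ring
  have c2 : (K.card : ℤ) + (ins B Q {x}).card ≤ 5 := by exact_mod_cast hcard
  have c3 : 2 * (ee B Q {x} : ℤ) ≤ (ins B Q {x}).card := by exact_mod_cast h5
  have c4 : (0 : ℤ) ≤ (ins B Q {x}).card := by positivity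
  push_cast at h2
  linarith

/-- **frame of the level-3 theorem**: only critical sets with nonnegative value are left. -/
theorem L3e_of_crit
    (hpos : ∀ (κ : Type u) [Fintype κ] (B : κ → Finset V) (Q : Finset V), IHE.{u} V Q.card →
      Reg B Q → Tr3 B Q → Conn (gr B) Q → Crit B Q → 0 ≤ sv B Q → ¬ KT B Q →
      -1 + 2 * (ee B Q Q : ℤ) ≤ Pv B Q) : L3e.{u} V := by
  classical
  have key : ∀ n, IHE.{u} V n := by
    intro n
    induction n with
    | zero => intro κ _ B Q hn; omega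
    | succ n ih =>
      intro κ _ B Q hn hr h3 hQ hK
      have ihQ : IHE.{u} V Q.card := ih.mono (by omega)
      by_cases hcr : Crit B Q
      · by_cases hs : sv B Q ≤ -1
        · have h1 := L3_crit_neg (fun m => ihg V m) hr h3 hQ hcr hs
          have h2 := crit_sv_ge hr hQ hcr
          have h3' := h1.1
          rw [Pv_eq_Pp]
          linarith
        · exact hpos κ B Q ihQ hr h3 hQ hcr (by omega) hK
      · exact L3e_noncrit ihQ hr h3 hQ hcr
  intro κ _ B Q hr h3 hQ hK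
  exact key (Q.card + 1) κ B Q (Nat.lt_succ_self _) hr h3 hQ hK

end Pool.Agent.Hyp6
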