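import Pool.Agent.Hyp6.L3Gl
import Pool.Agent.Hyp6.L3Bs

/-!
# HYP6 L3Vc: single leaves which are the centre of a triple of type B

`Bs .. W`: the triples of type B (at least five hits) centred at the class `{W}`, `sB .. j W` the hits
of the two points which see only `W`. `Stg.term_B`, `Stg.term_nB`: their terms in `Stg.ms_one`.
`NumB`: the numbers of such a class, with the tables `NumB.q2`, `q1b2`, `q1b1`, `q0b1`, `q0b2`, `q0b3`,
`q0b4`.
-/

set_option autoImplicit false

namespace Pool.Agent.Hyp6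

open Finset Pool.Agent.Hyp5 Rt

universe u v

variable {V : Type v} [DecidableEq V] {ι : Type u} [Fintype ι] [DecidableEq ι]
  {B : ι → Finset V}

/-- the hits on `W` of the points of the triple which see no leaf but `W`. -/
noncomputable def sB (B : ι → Finset V) (Q : Finset V) (F : Finset (Finset V)) (j : ι)
    (W : Finset V) : ℕ :=
  ∑ p ∈ (B j ∩ Q).filter (fun p => slf B F p ⊆ {W}), uh B p W

open Classical in
/-- the triples of type B with at least five hits which are centred at the leaf `W`. -/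
noncomputable def Bs (B : ι → Finset V) (Q : Finset V) (T : Finset ι) (U : Finset V)
    (F : Finset (Finset V)) (P : Finset (Finset (Finset V))) (W : Finset V) : Finset ι :=
  (Trs B Q T (Rg B Q T U F) U F P).filter (fun j => ja B Q (Ep B Q T U F) j = 0 ∧
    5 ≤ ∑ L ∈ F, jh B Q j L ∧ ∃ x y z, BTc B Q T U F P j x y z {W})

theorem mem_Bs {Q U : Finset V} {T : Finset ι} {F : Finset (Finset V)}
    {P : Finset (Finset (Finset V))} {W : Finset V} {j : ι} :
    j ∈ Bs B Q T U F P W ↔ j ∈ Trs B Q T (Rg B Q T U F) U F P ∧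
      ja B Q (Ep B Q T U F) j = 0 ∧ 5 ≤ ∑ L ∈ F, jh B Q j L ∧
      ∃ x y z, BTc B Q T U F P j x y z {W} := by
  classical
  unfold Bs
  rw [mem_filter]

theorem Bs_sub {Q U : Finset V} {T : Finset ι} {F : Finset (Finset V)}
    {P : Finset (Finset (Finset V))} {W : Finset V} :
    Bs B Q T U F P W ⊆ Trs B Q T (Rg B Q T U F) U F P := fun _ hj => (mem_Bs.1 hj).1

/-- the third point has four leaf hits, one of them a full hit on a leaf with three points. -/
def C3f (B : ι → Finset V) (Q : Finset V) (T : Finset ι) (U : Finset V)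
    (F : Finset (Finset V)) (P : Finset (Finset (Finset V))) (j : ι) (W : Finset V) : Prop :=
  ∃ x y z, BTc B Q T U F P j x y z {W} ∧ ∑ L ∈ F, uh B z L = 4 ∧ FulC B Q T U F P z

open Classical in
/-- `1` if the triple is poor at the leaf `W`: a full hit of a point which sees only `W`, or `W` is a
point with no hit of `U` and five hits of these points (without `C3f`). -/
noncomputable def pB (B : ι → Finset V) (Q : Finset V) (T : Finset ι) (U : Finset V)
    (F : Finset (Finset V)) (P : Finset (Finset (Finset V))) (j : ι)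
    (W : Finset V) : ℕ :=
  if (∃ p ∈ (B j ∩ Q).filter (fun p => slf B F p ⊆ {W}), ∃ i, p ∈ B i ∧ 2 ≤ (B i ∩ W).card) ∨
      (W.card = 1 ∧ hit B U W = 0 ∧ sB B Q F j W + 2 * ee B Q W = 5 ∧ ¬ C3f B Q T U F P j W)
  then 1 else 0

section

variable {Q : Finset V} {F : Finset (Finset V)} {P : Finset (Finset (Finset V))} {j : ι}
  {x y z : V} {W : Finset V}

omit [Fintype ι] [DecidableEq ι] in
theorem BT.filter_eq (h : BT B Q F P j x y z {W}) :
    (B j ∩ Q).filter (fun p => slf B F p ⊆ {W}) = {x, y} := by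
  rw [h.eq]
  ext p
  simp only [mem_filter, mem_insert, mem_singleton]
  constructor
  · rintro ⟨h2 | h2 | h2, h3⟩
    · exact Or.inl h2
    · exact Or.inr h2
    · exact absurd (h2 ▸ h3) h.nsc
  · rintro (h2 | h2)
    · exact ⟨Or.inl h2, h2 ▸ h.sa⟩
    · exact ⟨Or.inr (Or.inl h2), h2 ▸ h.sb⟩

omit [DecidableEq ι] in
theorem BT.sB_eq (h : BT B Q F P j x y z {W}) : sB B Q F j W = uh B x W + uh B y W := by
  unfold sB
  rw [h.filter_eq, sum_pair h.ab]

end

namespace Stg

variable {Q U : Finset V} {T : Finset ι} {F : Finset (Finset V)}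
  {P : Finset (Finset (Finset V))} {a : V → Finset (Finset V) → ℕ} {W : Finset V} {j : ι}

omit [DecidableEq ι] in
theorem _root_.Pool.Agent.Hyp6.BT.slj_eq {x y z : V} {D : Finset (Finset V)}
    {P' : Finset (Finset (Finset V))} (h : BT B Q F P' j x y z D) :
    slj B Q F j = slf B F x ∪ slf B F y ∪ slf B F z := by
  unfold slj
  rw [h.eq, biUnion_insert, biUnion_insert, singleton_biUnion, union_assoc]

/-- **the centre of a triple of type B is unique**. -/
theorem bt_unique (s : Stg B Q T U F P a) (hj : j ∈ Trs B Q T (Rg B Q T U F) U F P)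
    (h0 : ja B Q (Ep B Q T U F) j = 0) {x y z x' y' z' : V} {D D' : Finset (Finset V)}
    (hB : BT B Q F (par0 B U F) j x y z D) (hB' : BT B Q F (par0 B U F) j x' y' z' D') :
    D = D' := by
  by_contra hne
  have hd : Disjoint D D' := s.par.ptn.dj D hB.mem D' hB'.mem hne
  have key : ∀ p, (slf B F p).Nonempty → slf B F p ⊆ D → slf B F p ⊆ D' → False := by
    rintro p ⟨w, hw⟩ h1 h2
    exact disjoint_left.1 hd (h1 hw) (h2 hw)
  have hy : y ∈ ({x', y', z'} : Finset V) := by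
    rw [← hB'.eq, hB.eq]
    simp
  have hy' : y' ∈ ({x, y, z} : Finset V) := by
    rw [← hB.eq, hB'.eq]
    simp
  have hx : x ∈ ({x', y', z'} : Finset V) := by
    rw [← hB'.eq, hB.eq]
    simp
  simp only [mem_insert, mem_singleton] at hy hy' hx
  have e1 : y = z' := by
    rcases hy with h1 | h1 | h1
    · exact (key y hB.nb hB.sb (h1 ▸ hB'.sa)).elim
    · exact (key y hB.nb hB.sb (h1 ▸ hB'.sb)).elim
    · exact h1
  have e2 : y' = z := by
    rcases hy' with h1 | h1 | h1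
    · exact (key y' hB'.nb (h1 ▸ hB.sa) hB'.sb).elim
    · exact (key y' hB'.nb (h1 ▸ hB.sb) hB'.sb).elim
    · exact h1
  have e3 : x = x' := by
    rcases hx with h1 | h1 | h1
    · exact h1
    · exact absurd (h1.trans e2) hB.ac
    · exact absurd (h1.trans e1.symm) hB.ab
  have h3 := s.rank_trs hj h0 (by
    obtain ⟨w, hw⟩ := hB.nb
    exact ⟨w, by rw [hB.slj_eq]; exact mem_union_left _ (mem_union_right _ hw)⟩)
  have h4 : mcj B Q F (par0 B U F) j ⊆ {D, D'} := by
    intro E hE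
    obtain ⟨h5, h6⟩ := Sp.mem_met.1 hE
    obtain ⟨L, hL, hLE⟩ := not_disjoint_iff.1 h6
    rw [hB.slj_eq] at hL
    have h7 : L ∈ D ∨ L ∈ D' := by
      rcases mem_union.1 hL with h8 | h8
      · rcases mem_union.1 h8 with h9 | h9
        · exact Or.inl (hB.sa h9)
        · exact Or.inl (hB.sb h9)
      · exact Or.inr (hB'.sb (e2 ▸ h8))
    rw [mem_insert, mem_singleton]
    by_contra hcon
    push Not at hcon
    rcases h7 with h8 | h8
    · exact disjoint_left.1 (s.par.ptn.dj E h5 D hB.mem hcon.1) hLE h8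
    · exact disjoint_left.1 (s.par.ptn.dj E h5 D' hB'.mem hcon.2) hLE h8
  have h5 := card_le_card h4
  have h6 := card_le_two (a := D) (b := D')
  have h7 := (s.par.nul s.frm.sur).nonneg (mcj B Q F (par0 B U F) j)
  unfold rkc Sp.rkn at h3
  omega

/-- the hits of the pair are hits of the triple. -/
theorem sB_le (_s : Stg B Q T U F P a) : sB B Q F j W ≤ jh B Q j W := by
  rw [jh_sum]
  unfold sB
  exact sum_le_sum_of_subset (filter_subset _ _)

/-- the pair has at most eight hits. -/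
theorem sB_eight (s : Stg B Q T U F P a) (hW : W ∈ F) (hj : j ∈ Bs B Q T U F P W) :
    sB B Q F j W ≤ 8 := by
  obtain ⟨hjT, _, _, x, y, z, hB⟩ := mem_Bs.1 hj
  have hT := (s.frm.types_trs s.part hjT).1
  have h1 : ∀ p ∈ B j ∩ Q, uh B p W ≤ 4 := fun p hp =>
    (single_le_sum (f := fun L => uh B p L) (fun _ _ => Nat.zero_le _) hW).trans
      (s.frm.four_t s.viol.reg hT hp)
  rw [hB.sB_eq]
  have h2 := h1 x (by rw [hB.eq]; simp)
  have h3 := h1 y (by rw [hB.eq]; simp)
  omega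

/-- **the term of a triple centred at the leaf**. -/
theorem term_B (s : Stg B Q T U F P a) (hW : {W} ∈ P) (hj : j ∈ Bs B Q T U F P W) :
    144 * (jh B Q j W : ℤ) - Xv 149 B Q T U F P j {W} ≤
      160 * (sB B Q F j W : ℤ) - 584 - 76 * (pB B Q T U F P j W : ℤ) -
        5 * ((jh B Q j W : ℤ) - sB B Q F j W) := by
  obtain ⟨hjT, h0, h5, x, y, z, hB⟩ := mem_Bs.1 hj
  have hWP := s.own_par hW
  rcases s.trs_term 149 hjT hW with ⟨h, _⟩ | ⟨_, h, _⟩ | ⟨_, _, x', y', z', D, hB', hn, _⟩ |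
    ⟨_, _, x', y', z', D, hB', hD, hs, h4, hz, h⟩ | ⟨_, _, _, _, _, hn, _⟩ | ⟨_, h, _⟩ |
    ⟨hcl, _, _, hn, _⟩
  · omega
  · omega
  · exact absurd (s.bt_unique hjT h0 hB'.toBT hB.toBT).le hn
  · have hDW := s.bt_unique hjT h0 hB'.toBT hB.toBT
    subst hDW
    rw [s.jC_one] at h hs
    have e1 : ∀ p, uC B p {W} = uh B p W := fun p => by
      unfold uC
      rw [sum_singleton]
    rw [e1, e1, e1] at hs
    rw [e1, e1, e1] at h
    have e2 := hB'.toBT.sB_eq
    rw [e1] at hz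
    have hc : (0 : ℤ) ≤ uh B z' W := by positivity
    have h4' : ((∑ C' ∈ P, uC B z' C' : ℕ) : ℤ) + (ncl B Q T U F P j : ℤ) ≤ 4 := by
      exact_mod_cast hB'.cc
    have hn0 : (0 : ℤ) ≤ (ncl B Q T U F P j : ℤ) := by positivity
    have hs' : (jh B Q j W : ℤ) = uh B x' W + uh B y' W + uh B z' W := by exact_mod_cast hs
    have e2' : (sB B Q F j W : ℤ) = uh B x' W + uh B y' W := by exact_mod_cast e2
    have hle : (pB B Q T U F P j W : ℤ) ≤ 1 := by
      unfold pB
      split_ifs <;> simp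
    have hge : (0 : ℤ) ≤ (pB B Q T U F P j W : ℤ) := by positivity
    have hF0 : ¬ PoorF B x' y' {W} →
        ¬ ∃ p ∈ (B j ∩ Q).filter (fun p => slf B F p ⊆ {W}), ∃ i, p ∈ B i ∧
          2 ≤ (B i ∩ W).card := by
      rintro hno ⟨p, hp, i, hi, h2⟩
      rw [hB'.toBT.filter_eq, mem_insert, mem_singleton] at hp
      refine hno ⟨W, mem_singleton_self W, i, ?_, h2⟩
      rcases hp with rfl | rfl
      · exact Or.inl hi
      · exact Or.inr hi
    have hPP : W.card = 1 → hit B U W = 0 → sB B Q F j W + 2 * ee B Q W = 5 →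
        ∑ L ∈ F, uh B z' L = 4 → PoorP B Q U F P x' y' z' {W} := fun h6 h7 h8 h9 =>
      ⟨h9, W, rfl, hW, h6, h7, by rw [← e2]; exact h8⟩
    rw [h]
    rcases Frm.rB_cases (B := B) Q T U F P x' y' z' {W} with ⟨hr, hf, hp⟩ | ⟨hr, _⟩ |
      ⟨hr, hf, hp, hcf⟩
    · rw [hr]
      by_cases h3 : ∑ L ∈ F, uh B z' L = 4
      · have hpB : pB B Q T U F P j W = 0 := by
          unfold pB
          rw [if_neg]
          rintro (hcon | ⟨h6, h7, h8, _⟩)
          · exact hF0 hf hcon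
          · exact hp (hPP h6 h7 h8 h3)
        rw [hpB]
        push_cast at h4' ⊢
        linarith
      · have h5' : ∑ C' ∈ P, uC B z' C' ≤ 3 := by
          rw [← Frm.uC_all s.part] at h3
          omega
        have h6 : ((∑ C' ∈ P, uC B z' C' : ℕ) : ℤ) ≤ 3 := by exact_mod_cast h5'
        push_cast at h4' h6 ⊢
        linarith
    · rw [hr]
      push_cast at h4' ⊢
      linarith
    · have hpB : pB B Q T U F P j W = 0 := by
        unfold pB
        rw [if_neg]
        rintro (hcon | ⟨_, _, _, h9⟩)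
        · exact hF0 hf hcon
        · exact h9 ⟨x', y', z', hB', hp.1, hcf⟩
      rw [hr, hpB]
      push_cast at h4' ⊢
      linarith
  · exact absurd hB.toBT (hn x y z _)
  · omega
  · exact absurd hB (hn x y z _)

/-- **the term of a triple centred at a point with five hits of the pair**, the third point with a full
hit on a leaf with three points. -/
theorem term_C3f (s : Stg B Q T U F P a) (hW : {W} ∈ P) (hj : j ∈ Bs B Q T U F P W)
    (h1 : W.card = 1) (hg : hit B U W = 0) (h5 : sB B Q F j W + 2 * ee B Q W = 5)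
    (hC : C3f B Q T U F P j W) :
    144 * (jh B Q j W : ℤ) - Xv 149 B Q T U F P j {W} ≤
      160 * (sB B Q F j W : ℤ) - 604 - 5 * ((jh B Q j W : ℤ) - sB B Q F j W) := by
  obtain ⟨hjT, h0, h5', x, y, z, hB⟩ := mem_Bs.1 hj
  obtain ⟨x1, y1, z1, hB1, hz1, hc1⟩ := hC
  rcases s.trs_term 149 hjT hW with ⟨h, _⟩ | ⟨_, h, _⟩ | ⟨_, _, x', y', z', D, hB', hn, _⟩ |
    ⟨_, _, x', y', z', D, hB', hD, hs, h4, hz, h⟩ | ⟨_, _, _, _, _, hn, _⟩ | ⟨_, h, _⟩ |
    ⟨hcl, _, _, hn, _⟩
  · omega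
  · omega
  · exact absurd (s.bt_unique hjT h0 hB'.toBT hB.toBT).le hn
  · have hDW := s.bt_unique hjT h0 hB'.toBT hB.toBT
    subst hDW
    have hzz : z' = z1 := by
      have hz2 : z' ∈ ({x1, y1, z1} : Finset V) := by
        rw [← hB1.eq, hB'.eq]
        simp
      simp only [mem_insert, mem_singleton] at hz2
      rcases hz2 with h6 | h6 | h6
      · exact absurd (h6 ▸ hB1.sa) hB'.nsc
      · exact absurd (h6 ▸ hB1.sb) hB'.nsc
      · exact h6
    subst hzz
    rw [s.jC_one] at h hs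
    have e1 : ∀ p, uC B p {W} = uh B p W := fun p => by
      unfold uC
      rw [sum_singleton]
    rw [e1, e1, e1] at hs
    rw [e1, e1, e1] at h
    have e2 := hB'.toBT.sB_eq
    rw [e1] at hz
    have hc : (0 : ℤ) ≤ uh B z' W := by positivity
    have h4' : ((∑ C' ∈ P, uC B z' C' : ℕ) : ℤ) + (ncl B Q T U F P j : ℤ) ≤ 4 := by
      exact_mod_cast hB'.cc
    have hn0 : (0 : ℤ) ≤ (ncl B Q T U F P j : ℤ) := by positivity
    have hs' : (jh B Q j W : ℤ) = uh B x' W + uh B y' W + uh B z' W := by exact_mod_cast hs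
    have e2' : (sB B Q F j W : ℤ) = uh B x' W + uh B y' W := by exact_mod_cast e2
    have hr : rB B Q T U F P x' y' z' {W} = 163 := by
      rcases Frm.rB_cases (B := B) Q T U F P x' y' z' {W} with ⟨_, _, hp⟩ | ⟨_, hp⟩ | ⟨hr, _⟩
      · exact absurd ⟨hz1, W, rfl, hW, h1, hg, by rw [← e2]; exact h5⟩ hp
      · exfalso
        rcases hp with ⟨L, hL, i, _, h6⟩ | ⟨_, hp⟩
        · have h7 := card_le_card (inter_subset_right (s₁ := B i) (s₂ := L))
          rw [mem_singleton.1 hL, h1] at h7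
          rw [mem_singleton.1 hL] at h6
          omega
        · exact hp hc1
      · exact hr
    rw [h, hr]
    push_cast at h4' ⊢
    linarith
  · exact absurd hB.toBT (hn x y z _)
  · omega
  · exact absurd hB (hn x y z _)

/-- **the term of the other remaining triples**. -/
theorem term_nB (s : Stg B Q T U F P a) (hW : {W} ∈ P)
    (hj : j ∈ Trs B Q T (Rg B Q T U F) U F P) (hn : j ∉ Bs B Q T U F P W) :
    144 * (jh B Q j W : ℤ) - Xv 149 B Q T U F P j {W} ≤ -5 * (jh B Q j W : ℤ) := by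
  have h0 : (0 : ℤ) ≤ (jC B Q j {W} : ℤ) := by positivity
  rw [← s.jC_one]
  rcases s.trs_term 149 hj hW with ⟨_, _, h⟩ | ⟨_, _, _, h⟩ | ⟨_, _, x, y, z, D, hB, _, _, h⟩ |
    ⟨h1, h2, x, y, z, D, hB, hD, _⟩ | ⟨_, h5, h8, _, _, _, h⟩ | ⟨_, _, h⟩ | ⟨_, _, _, _, _, h⟩
  · linarith
  · linarith
  · have hr := Frm.rB_ge (B := B) Q T U F P x y z D
    rw [h]
    exact mul_le_mul_of_nonneg_right (by linarith) h0
  · exfalso
    have h3 : D = {W} := by
      refine Subset.antisymm hD ?_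
      obtain ⟨L, hL⟩ := s.par.ne hB.mem
      rw [singleton_subset_iff, ← mem_singleton.1 (hD hL)]
      exact hL
    subst h3
    exact hn (mem_Bs.2 ⟨hj, h1, h2, x, y, z, hB⟩)
  · have h6 := vD_ge (v := 149) (by norm_num) (∑ L ∈ F, jh B Q j L)
    rw [h]
    exact mul_le_mul_of_nonneg_right (by linarith) h0
  · linarith
  · have h6 := vC_ge (∑ L ∈ F, jh B Q j L)
    rw [h]
    exact mul_le_mul_of_nonneg_right (by linarith) h0

/-- the terms of the remaining triples. -/
theorem sum_terms (s : Stg B Q T U F P a) (hW : {W} ∈ P) :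
    ∑ j ∈ Trs B Q T (Rg B Q T U F) U F P,
        (144 * (jh B Q j W : ℤ) - Xv 149 B Q T U F P j {W}) ≤
      160 * ∑ j ∈ Bs B Q T U F P W, (sB B Q F j W : ℤ) -
        584 * ((Bs B Q T U F P W).card : ℤ) -
        76 * ∑ j ∈ Bs B Q T U F P W, (pB B Q T U F P j W : ℤ) -
        5 * (∑ j ∈ Trs B Q T (Rg B Q T U F) U F P, (jh B Q j W : ℤ) -
          ∑ j ∈ Bs B Q T U F P W, (sB B Q F j W : ℤ)) := by
  have h1 : ∑ j ∈ Bs B Q T U F P W, (144 * (jh B Q j W : ℤ) - Xv 149 B Q T U F P j {W}) ≤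
      ∑ j ∈ Bs B Q T U F P W, (160 * (sB B Q F j W : ℤ) - 584 - 76 * (pB B Q T U F P j W : ℤ) -
        5 * ((jh B Q j W : ℤ) - sB B Q F j W)) :=
    sum_le_sum fun j hj => s.term_B hW hj
  have h2 : ∑ j ∈ Trs B Q T (Rg B Q T U F) U F P \ Bs B Q T U F P W,
      (144 * (jh B Q j W : ℤ) - Xv 149 B Q T U F P j {W}) ≤
      ∑ j ∈ Trs B Q T (Rg B Q T U F) U F P \ Bs B Q T U F P W, (-5 * (jh B Q j W : ℤ)) :=
    sum_le_sum fun j hj => s.term_nB hW (mem_sdiff.1 hj).1 (mem_sdiff.1 hj).2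
  have h3 := sum_sdiff (f := fun j => 144 * (jh B Q j W : ℤ) - Xv 149 B Q T U F P j {W})
    (Bs_sub (B := B) (Q := Q) (T := T) (U := U) (F := F) (P := P) (W := W))
  have h4 := sum_sdiff (f := fun j => (jh B Q j W : ℤ))
    (Bs_sub (B := B) (Q := Q) (T := T) (U := U) (F := F) (P := P) (W := W))
  have h5 : ∑ j ∈ Bs B Q T U F P W, (160 * (sB B Q F j W : ℤ) - 584 - 76 * (pB B Q T U F P j W : ℤ) -
        5 * ((jh B Q j W : ℤ) - sB B Q F j W)) =
      160 * ∑ j ∈ Bs B Q T U F P W, (sB B Q F j W : ℤ) -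
        584 * ((Bs B Q T U F P W).card : ℤ) -
        76 * ∑ j ∈ Bs B Q T U F P W, (pB B Q T U F P j W : ℤ) -
        5 * (∑ j ∈ Bs B Q T U F P W, (jh B Q j W : ℤ) -
          ∑ j ∈ Bs B Q T U F P W, (sB B Q F j W : ℤ)) := by
    rw [sum_sub_distrib, sum_sub_distrib, sum_sub_distrib, sum_const, nsmul_eq_mul, ← mul_sum,
      ← mul_sum, ← mul_sum, sum_sub_distrib]
    ring
  rw [h5] at h1
  rw [← mul_sum] at h2
  linarith

/-- the hits of all triples on a leaf which is a class. -/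
theorem sum_jh (s : Stg B Q T U F P a) (hW : {W} ∈ P) :
    ∑ j ∈ T, (jh B Q j W : ℤ) = ∑ j ∈ aC B Q T U F P {W}, (jh B Q j W : ℤ) +
      ∑ j ∈ Sp.Kin (Rg B Q T U F) (slj B Q F) {W}, (jh B Q j W : ℤ) +
      ∑ j ∈ Trs B Q T (Rg B Q T U F) U F P, (jh B Q j W : ℤ) := by
  have h3 := Frm.sum_T s.part Rg_sub (fun j => (jC B Q j {W} : ℤ))
  have h4 : ∑ C' ∈ P, ∑ j ∈ Sp.Kin (Rg B Q T U F) (slj B Q F) C', (jC B Q j {W} : ℤ) =
      ∑ j ∈ Sp.Kin (Rg B Q T U F) (slj B Q F) {W}, (jC B Q j {W} : ℤ) := by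
    refine sum_eq_single_of_mem ({W} : Finset (Finset V)) hW ?_
    intro C' hC' hne
    refine sum_eq_zero fun j hj => ?_
    rw [s.frm.jC_out Rg_sub s.part hW hC' hne hj]
    rfl
  rw [h4, s.frm.sum_atl Rg_sub s.part hW] at h3
  simp only [s.jC_one] at h3
  exact h3

/-- the terms of the triples inside the leaf. -/
theorem kin_term (s : Stg B Q T U F P a) (hW : {W} ∈ P) :
    ∑ k ∈ Sp.Kin (Rg B Q T U F) (slj B Q F) {W},
        (600 - 160 * ((jn B Q (Ep B Q T U F) k : ℤ) + jb B Q T U k)) =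
      160 * ∑ k ∈ Sp.Kin (Rg B Q T U F) (slj B Q F) {W}, (jh B Q k W : ℤ) -
        1320 * ((Sp.Kin (Rg B Q T U F) (slj B Q F) {W}).card : ℤ) := by
  have h : ∀ k ∈ Sp.Kin (Rg B Q T U F) (slj B Q F) {W},
      600 - 160 * ((jn B Q (Ep B Q T U F) k : ℤ) + jb B Q T U k) =
        160 * (jh B Q k W : ℤ) - 1320 := by
    intro k hk
    have h1 := s.frm.jC_in s.viol.reg Rg_sub s.part hW hk
    rw [s.jC_one, (mem_Rg.1 (mem_filter.1 hk).1).2.1] at h1
    push_cast at h1
    linarith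
  rw [sum_congr rfl h, sum_sub_distrib, ← mul_sum, sum_const, nsmul_eq_mul]
  ring

/-- the hits of the triples inside. -/
theorem kin_le (s : Stg B Q T U F P a) :
    ∑ k ∈ Sp.Kin (Rg B Q T U F) (slj B Q F) {W}, (jh B Q k W : ℤ) ≤
      12 * ((Sp.Kin (Rg B Q T U F) (slj B Q F) {W}).card : ℤ) := by
  have h : ∀ k ∈ Sp.Kin (Rg B Q T U F) (slj B Q F) {W}, (jh B Q k W : ℤ) ≤ 12 := by
    intro k hk
    obtain ⟨h1, h2, h3⟩ := mem_filter.1 hk
    have hkT := Rg_sub h1
    by_cases hWF : W ∈ F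
    · have h4 := s.jh_le hkT
      have h5 : jh B Q k W ≤ ∑ L ∈ F, jh B Q k L :=
        single_le_sum (f := fun L => jh B Q k L) (fun _ _ => Nat.zero_le _) hWF
      exact_mod_cast h5.trans h4
    · exfalso
      obtain ⟨L, hL⟩ := h2
      have h4 := mem_singleton.1 (h3 hL)
      exact hWF (h4 ▸ slj_sub hL)
  have h2 := sum_le_sum h
  rw [sum_const, nsmul_eq_mul] at h2
  linarith

end Stg

/-- the numbers of a leaf which is its own class: `NumL` with the hits `t` of the line triples, `S` of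
the pairs of the triples of type B centred there, `X` of the inside triples and `w` of the other
triples; `l` the mass, `q`, `b`, `k` the numbers of line, centred and inside triples, `pi` the number of
poor centred triples, `M` what is missing. -/
structure NumB (M p n m f e g t S w l q b pi k X : ℤ) : Prop where
  num : NumL p n m f e g (t + S + w + X)
  up : M ≤ 144 * t - 560 * q + 160 * S - 584 * b - 76 * pi - 5 * w + 168 * g - 176 * l +
    240 * e - 120 * p + 120 + (160 * X - 1320 * k)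
  up0 : q = 0 → M ≤ 160 * S - 584 * b - 76 * pi - 5 * w + 168 * g - 288 * l +
    240 * e - 120 * p + 120 + (160 * X - 1320 * k)
  ld : l = 5 ∨ g ≤ l
  S8 : S ≤ 8 * b
  X12 : X ≤ 12 * k
  t0 : 0 ≤ t
  S0 : 0 ≤ S
  w0 : 0 ≤ w
  q0 : 0 ≤ q
  p0 : 0 ≤ pi
  k0 : 0 ≤ k
  X0 : 0 ≤ X
  ne : 2 * e ≤ n
  qt : q = 0 → t = 0

/-- the facts of two triples: `H` hits of the two, `w` hits of all other points. -/
structure Few2 (d H w : ℤ) : Prop where
  neg : d = -1 → w ≤ 1 → H ≤ 2
  one : d = 1 → w ≤ 1 → H ≤ 8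
  zero : d = 1 → w ≤ 0 → H ≤ 7
  big : 3 ≤ d → 2 ≤ w

namespace NumB

variable {M p n m f e g t S w l q b pi k X : ℤ}

/-- the bound by the places. -/
theorem le (h : NumB M p n m f e g t S w l q b pi k X) :
    M ≤ 1440 - 24 * n + 16 * S - 584 * b - 76 * pi - 149 * w - 144 * f + 24 * g - 176 * l +
      240 * e - 560 * q + 16 * X - 1320 * k := by
  have h1 := h.up
  have h2 := h.num.slot
  linarith

theorem le0 (h : NumB M p n m f e g t S w l q b pi k X) (hq : q = 0) :
    M ≤ 1440 - 24 * n + 16 * S - 584 * b - 76 * pi - 149 * w - 144 * f + 24 * g - 288 * l +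
      240 * e + 16 * X - 1320 * k := by
  have h1 := h.up0 hq
  have h2 := h.num.slot
  have h3 := h.qt hq
  linarith

/-- a centred triple and an inside triple. -/
theorem kb (h : NumB M p n m f e g t S w l q b pi k X) (hb : 1 ≤ b) (hk : 1 ≤ k) :
    M ≤ -168 - 560 * q := by
  obtain ⟨⟨h1, h2, h3, h4, h5, h6, h7, h8, h9, h10, h11, h12, h13⟩, _, _, h16, h17, h18, h19, h20,
    h21, h22, h23, h24, h26, h27, h25⟩ := id h
  have h0 := h.le
  have h0' := h.le0
  rcases h16 with h16 | h16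
  · rcases h22.eq_or_lt with h | h
    · have := h0' h.symm
      linarith
    · have h : 1 ≤ q := h
      linarith
  · linarith

/-- a centred triple and full mass. -/
theorem lb (h : NumB M p n m f e g t S w l q b pi k X) (hb : 1 ≤ b) (hl : l = 5) :
    M ≤ 104 - 560 * q ∧ (q = 0 → M ≤ -456) := by
  obtain ⟨⟨h1, h2, h3, h4, h5, h6, h7, h8, h9, h10, h11, h12, h13⟩, _, _, h16, h17, h18, h19, h20,
    h21, h22, h23, h24, h26, h27, h25⟩ := id h
  have h0 := h.le
  have h0' := h.le0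
  refine ⟨by linarith, fun hq => ?_⟩
  have := h0' hq
  linarith

/-- at least two line triples. -/
theorem q2 (h : NumB M p n m f e g t S w l q b pi k X) (hb : 1 ≤ b) :
    M ≤ 960 - 560 * q := by
  obtain ⟨⟨h1, h2, h3, h4, h5, h6, h7, h8, h9, h10, h11, h12, h13⟩, _, _, h16, h17, h18, h19, h20,
    h21, h22, h23, h24, h26, h27, h25⟩ := id h
  have h0 := h.le
  rcases h16 with h16 | h16
  · linarith [(h.lb hb h16).1]
  · linarith

/-- two centred triples. -/
theorem q1b2 (h : NumB M p n m f e g t S w l q b pi k X) (hq : 1 ≤ q) (hb : 2 ≤ b) :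
    M ≤ 8 * t - 44 := by
  obtain ⟨⟨h1, h2, h3, h4, h5, h6, h7, h8, h9, h10, h11, h12, h13⟩, _, _, h16, h17, h18, h19, h20,
    h21, h22, h23, h24, h26, h27, h25⟩ := id h
  have h0 := h.le
  rcases h16 with h16 | h16
  · linarith [(h.lb (by linarith) h16).1]
  · linarith

/-- one line triple and one centred triple. -/
theorem q1b1 (h : NumB M p n m f e g t S w l q b pi k X) (hq : q = 1) (hb : b = 1)
    (hs3 : m ≤ 3 → S + 2 * e ≤ n) (hs5 : 5 ≤ m → pi = 1 ∨ S + 4 * e ≤ 2 * n)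
    (h51 : m = 5 → n = 1 → S ≤ 6) {w2 : ℤ} (hw2 : w2 ≤ w + g)
    (hA : Few2 (p - 1 - 2 * e) (t + S + w + g - w2) w2) : M ≤ 8 * t - 44 := by
  rcases h.k0.eq_or_lt with hk | hk
  swap
  · have := h.kb (by omega) (by omega : (1 : ℤ) ≤ k)
    have := h.t0
    omega
  rcases h.ld with hl | hl
  · have := (h.lb (by omega) hl).1
    have := h.t0
    omega
  have h0 := h.le
  obtain ⟨⟨h1, h2, h3, h4, h5, h6, h7, h8, h9, h10, h11, h12, h13⟩, _, _, h16, h17, h18, h19, h20,
    h21, h22, h23, h24, h26, h27, h25⟩ := id h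
  obtain ⟨a1, a2, a3, a4⟩ := hA
  subst hk
  obtain rfl : X = 0 := by omega
  subst hq hb
  have hg : 24 * g - 176 * l ≤ -152 * g := by linarith
  have h0' : M ≤ 296 - 24 * n + 16 * S - 76 * pi - 149 * w - 144 * f - 152 * g + 240 * e := by
    linarith
  clear h0 hg h h16 h22 h25 h24
  have hsl : 2 * (t + S + w + g + f) = 3 * n + 5 * m := by omega
  rcases (by omega : m = 1 ∨ m = 3 ∨ m = 5 ∨ 7 ≤ m) with rfl | rfl | rfl | hm
  · obtain rfl : n = 5 := h7 rfl
    have hs := hs3 (by norm_num)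
    clear hs3 hs5 h51 a4
    rcases (by omega : e = 0 ∨ 1 ≤ e) with rfl | he
    · have hf : 2 ≤ w + g + f := by
        by_contra hcon
        have b1 := a2 (by omega) (by omega)
        have b2 := a3 (by omega)
        omega
      linarith
    · linarith
  · have hs := hs3 (by norm_num)
    clear hs3 hs5 h51 h7
    rcases (by omega : 1 ≤ e ∨ n = 1 ∧ e = 0 ∨ 3 ≤ n ∧ e = 0) with he | ⟨rfl, rfl⟩ | ⟨hn, rfl⟩
    · linarith
    · have hf : 2 ≤ w + g + f := by
        by_contra hcon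
        have b1 := a1 (by omega) (by omega)
        omega
      linarith
    · have b1 := a4 (by omega)
      linarith
  · have hs := hs5 (by norm_num)
    have hs' := h51 rfl
    clear hs3 hs5 h51 h7
    rcases (by omega : 1 ≤ e ∧ 3 ≤ n ∨ n = 1 ∧ e = 0 ∨ 3 ≤ n ∧ e = 0) with
      ⟨he, hn⟩ | ⟨rfl, rfl⟩ | ⟨hn, rfl⟩
    · rcases hs with hs | hs
      · linarith
      · linarith
    · have b1 := a4 (by omega)
      have := hs' rfl
      rcases hs with hs | hs
      · linarith
      · linarith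
    · have b1 := a4 (by omega)
      rcases hs with hs | hs
      · linarith
      · rcases (by omega : n = 3 ∨ 5 ≤ n) with rfl | hn
        · linarith
        · linarith
  · have hs := hs5 (by omega)
    clear hs3 hs5 h51 h7
    rcases (by omega : 1 ≤ e ∨ e = 0) with he | rfl
    · rcases hs with hs | hs
      · linarith
      · linarith
    · have b1 := a4 (by omega)
      rcases hs with hs | hs
      · linarith
      · rcases (by omega : n = 1 ∨ 3 ≤ n) with rfl | hn
        · linarith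
        · linarith

/-- one centred triple, no line triple. -/
theorem q0b1 (h : NumB M p n m f e g t S w l q b pi k X) (hq : q = 0) (hb : b = 1)
    (hs3 : m ≤ 3 → S + 2 * e ≤ n) (hs5 : 5 ≤ m → pi = 1 ∨ S + 4 * e ≤ 2 * n)
    (h51 : m = 5 → n = 1 → S ≤ 7) (hx : m = 1 → g = 0 → S + 2 * e = 5 → pi = 1)
    (hw : m = 1 → g = 0 → e = 0 → S = 5 → 4 ≤ w) : M ≤ 0 := by
  rcases h.k0.eq_or_lt with hk | hk
  swap
  · have := h.kb (by omega) (by omega : (1 : ℤ) ≤ k)
    omega
  rcases h.ld with hl | hl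
  · have := (h.lb (by omega) hl).2 hq
    omega
  have h0 := h.up0 hq
  obtain ⟨⟨h1, h2, h3, h4, h5, h6, h7, h8, h9, h10, h11, h12, h13⟩, _, _, h16, h17, h18, h19, h20,
    h21, h22, h23, h24, h26, h27, h25⟩ := id h
  subst hk
  obtain rfl : X = 0 := by omega
  obtain rfl := h25 hq
  subst hq hb
  have h0' : M ≤ 160 * S - 464 - 76 * pi - 5 * w - 120 * g + 240 * e - 120 * p := by
    linarith
  clear h0 h h16 h22 h25 h24
  have hsl : 2 * (S + w + g + f) = 3 * n + 5 * m := by omega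
  rcases (by omega : m = 1 ∨ m = 3 ∨ m = 5 ∨ 7 ≤ m) with rfl | rfl | rfl | hm
  · obtain rfl : n = 5 := h7 rfl
    have hs := hs3 (by norm_num)
    rcases h10.eq_or_lt with hg | hg
    · subst hg
      by_cases h5 : S + 2 * e = 5
      · have hp := hx rfl rfl h5
        rcases (by omega : e = 0 ∨ 1 ≤ e) with rfl | he
        · have := hw rfl rfl rfl (by omega)
          linarith
        · linarith
      · have : S + 2 * e ≤ 4 := by omega
        linarith
    · have : 1 ≤ g := hg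
      linarith
  · have hs := hs3 (by norm_num)
    linarith
  · have hs := hs5 (by norm_num)
    have hs' := h51 rfl
    rcases (by omega : n = 1 ∨ 3 ≤ n) with rfl | hn
    · have := hs' rfl
      rcases hs with hs | hs
      · linarith
      · linarith
    · rcases hs with hs | hs
      · linarith
      · linarith
  · have hs := hs5 (by omega)
    rcases hs with hs | hs
    · linarith
    · linarith

/-- two centred triples, no line triple. -/
theorem q0b2 (h : NumB M p n m f e g t S w l q b pi k X) (hq : q = 0) (hb : b = 2)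
    {s1 s2 p1 p2 : ℤ} (hS : S = s1 + s2) (hpi : pi = p1 + p2) (h1p : 0 ≤ p1) (h2p : 0 ≤ p2)
    (h81 : s1 ≤ 8) (h82 : s2 ≤ 8)
    (hs3 : m ≤ 3 → s1 + 2 * e ≤ n) (hs5 : 5 ≤ m → p1 = 1 ∨ s1 + 4 * e ≤ 2 * n)
    (hs3' : m ≤ 3 → s2 + 2 * e ≤ n) (hs5' : 5 ≤ m → p2 = 1 ∨ s2 + 4 * e ≤ 2 * n)
    {w2 : ℤ} (hw2 : w2 ≤ w + g)
    (hA : Few2 (p - 1 - 2 * e) (S + w + g - w2) w2) : M ≤ 0 := by
  rcases h.k0.eq_or_lt with hk | hk
  swap
  · have := h.kb (by omega) (by omega : (1 : ℤ) ≤ k)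
    omega
  rcases h.ld with hl | hl
  · have := (h.lb (by omega) hl).2 hq
    omega
  have h0 := h.up0 hq
  obtain ⟨⟨h1, h2, h3, h4, h5, h6, h7, h8, h9, h10, h11, h12, h13⟩, _, _, h16, h17, h18, h19, h20,
    h21, h22, h23, h24, h26, h27, h25⟩ := id h
  obtain ⟨a1, a2, a3, a4⟩ := hA
  subst hk
  obtain rfl : X = 0 := by omega
  obtain rfl := h25 hq
  subst hq hb hS hpi
  have h0' : M ≤ 160 * (s1 + s2) - 1048 - 76 * (p1 + p2) - 5 * w - 120 * g + 240 * e -
      120 * p := by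
    linarith
  clear h0 h h16 h22 h25 h24
  have hsl : 2 * ((s1 + s2) + w + g + f) = 3 * n + 5 * m := by omega
  rcases (by omega : m = 1 ∨ m = 3 ∨ m = 5 ∨ 7 ≤ m) with rfl | rfl | rfl | hm
  · obtain rfl : n = 5 := h7 rfl
    have hs := hs3 (by norm_num)
    have hs' := hs3' (by norm_num)
    rcases (by omega : e = 0 ∨ 1 ≤ e) with rfl | he
    · have hf : 2 ≤ w + g + f := by
        by_contra hcon
        have b1 := a2 (by omega) (by omega)
        have b2 := a3 (by omega)
        omega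
      linarith
    · linarith
  · have hs := hs3 (by norm_num)
    have hs' := hs3' (by norm_num)
    rcases (by omega : n ≤ 9 ∨ 11 ≤ n) with hn | hn
    · linarith
    · linarith
  · have hs := hs5 (by norm_num)
    have hs' := hs5' (by norm_num)
    rcases (by omega : n = 1 ∨ n = 3 ∨ 5 ≤ n) with rfl | rfl | hn
    · obtain rfl : e = 0 := by omega
      have b1 := a4 (by omega)
      rcases hs with hs | hs <;> rcases hs' with hs' | hs' <;> linarith
    · rcases (by omega : e = 0 ∨ e = 1) with rfl | rfl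
      · have b1 := a4 (by omega)
        rcases hs with hs | hs <;> rcases hs' with hs' | hs' <;> linarith
      · rcases hs with hs | hs <;> rcases hs' with hs' | hs' <;> linarith
    · rcases (by omega : n ≤ 7 ∨ 9 ≤ n) with hn' | hn'
      · rcases hs with hs | hs <;> rcases hs' with hs' | hs' <;> linarith
      · linarith
  · have hs := hs5 (by omega)
    have hs' := hs5' (by omega)
    rcases (by omega : n = 1 ∨ 3 ≤ n) with rfl | hn
    · obtain rfl : e = 0 := by omega
      rcases hs with hs | hs <;> rcases hs' with hs' | hs' <;> linarith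
    · rcases hs with hs | hs <;> rcases hs' with hs' | hs' <;> linarith

/-- three centred triples, no line triple. -/
theorem q0b3 (h : NumB M p n m f e g t S w l q b pi k X) (hq : q = 0) (hb : b = 3)
    (hs : n = 1 → 16 * S - 76 * pi ≤ 156) : M ≤ 0 := by
  rcases h.k0.eq_or_lt with hk | hk
  swap
  · have := h.kb (by omega) (by omega : (1 : ℤ) ≤ k)
    omega
  rcases h.ld with hl | hl
  · have := (h.lb (by omega) hl).2 hq
    omega
  have h0 := h.le0 hq
  obtain ⟨⟨h1, h2, h3, h4, h5, h6, h7, h8, h9, h10, h11, h12, h13⟩, _, _, h16, h17, h18, h19, h20,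
    h21, h22, h23, h24, h26, h27, h25⟩ := id h
  rcases (by omega : n = 1 ∨ 3 ≤ n) with hn | hn
  · have := hs hn
    linarith
  · linarith

/-- four or more centred triples, no line triple. -/
theorem q0b4 (h : NumB M p n m f e g t S w l q b pi k X) (hq : q = 0) (hb : 4 ≤ b) : M ≤ 0 := by
  rcases h.ld with hl | hl
  · have := (h.lb (by omega) hl).2 hq
    omega
  have h0 := h.le0 hq
  obtain ⟨⟨h1, h2, h3, h4, h5, h6, h7, h8, h9, h10, h11, h12, h13⟩, _, _, h16, h17, h18, h19, h20,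
    h21, h22, h23, h24, h26, h27, h25⟩ := id h
  linarith

end NumB

/-- the facts on two triples at a leaf (proved in `L3G8`). -/
def Few (B : ι → Finset V) (Q : Finset V) (T : Finset ι) (F : Finset (Finset V)) : Prop :=
  ∀ i ∈ T, ∀ j ∈ T, i ≠ j → ∀ C ∈ F,
    Few2 (dv B Q C) (hit B ((B i ∩ Q) ∪ (B j ∩ Q)) C)
      (hit B (Q \ (C ∪ ((B i ∩ Q) ∪ (B j ∩ Q)))) C)

namespace Stg

variable {Q U : Finset V} {T : Finset ι} {F : Finset (Finset V)}
  {P : Finset (Finset (Finset V))} {a : V → Finset (Finset V) → ℕ} {W : Finset V} {j : ι}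

/-- the double singles are among the single traces. -/
theorem two_ee_nt (s : Stg B Q T U F P a) (hW : W ∈ F) : 2 * ee B Q W ≤ nt B W 1 := by
  have h1 : 2 * ee B Q W ≤ ((ins B Q W).filter (fun i => (B i ∩ Q).card = 1)).card :=
    two_ee_le Q W
  refine h1.trans (card_le_card fun i hi => ?_)
  obtain ⟨hi1, hi2⟩ := mem_filter.1 hi
  obtain ⟨⟨v, hv⟩, hsub⟩ := mem_ins.1 hi1
  have hvL := hsub hv
  rw [mem_trs]
  refine le_antisymm ?_ (card_pos.2 ⟨v, mem_inter.2 ⟨(mem_inter.1 hv).1, hvL⟩⟩)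
  rw [← hi2]
  exact card_le_card (inter_subset_inter_left (s.frm.FQ hW))

/-- **the numbers of a leaf which is its own class**. -/
theorem numB (s : Stg B Q T U F P a) (hW : {W} ∈ P) :
    NumB (msC 149 B Q T U F P a {W}) (Pp B W) (nt B W 1) W.card (fs B Q W) (ee B Q W)
      (hit B U W) (∑ j ∈ aC B Q T U F P {W}, (jh B Q j W : ℤ))
      (∑ j ∈ Bs B Q T U F P W, (sB B Q F j W : ℤ))
      (∑ j ∈ Trs B Q T (Rg B Q T U F) U F P, (jh B Q j W : ℤ) -
        ∑ j ∈ Bs B Q T U F P W, (sB B Q F j W : ℤ))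
      (Sp.ld (Sp.Ux U (slf B F) P) a {W}) (aC B Q T U F P {W}).card (Bs B Q T U F P W).card
      (∑ j ∈ Bs B Q T U F P W, (pB B Q T U F P j W : ℤ))
      (Sp.Kin (Rg B Q T U F) (slj B Q F) {W}).card
      (∑ k ∈ Sp.Kin (Rg B Q T U F) (slj B Q F) {W}, (jh B Q k W : ℤ)) := by
  have hWF : W ∈ F := (s.part.ptn.vc {W} hW).sub (mem_singleton_self W)
  have h1 := s.one hWF
  have h2 := s.sum_jh hW
  have h3 := s.ms_one 149 hW
  have h4 := s.sum_terms hW
  have h5 := s.kin_term hW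
  have h6 := s.kin_le (W := W)
  have h7 : (∑ j ∈ aC B Q T U F P {W},
      (Sp.owl U (slf B F) P (lj B Q U F P) a j {W} : ℤ)) ≤
      (Sp.ld (Sp.Ux U (slf B F) P) a {W} : ℤ) := by
    exact_mod_cast Sp.owl_le s.lnf (a := a) {W}
  have h8 : ∑ j ∈ aC B Q T U F P {W}, (144 * (jh B Q j W : ℤ) - 560 +
        112 * (Sp.owl U (slf B F) P (lj B Q U F P) a j {W} : ℤ)) =
      144 * ∑ j ∈ aC B Q T U F P {W}, (jh B Q j W : ℤ) -
        560 * ((aC B Q T U F P {W}).card : ℤ) +
        112 * ∑ j ∈ aC B Q T U F P {W},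
          (Sp.owl U (slf B F) P (lj B Q U F P) a j {W} : ℤ) := by
    rw [sum_add_distrib, sum_sub_distrib, sum_const, nsmul_eq_mul, ← mul_sum, ← mul_sum]
    ring
  have h9 : (∑ j ∈ Bs B Q T U F P W, (sB B Q F j W : ℤ)) ≤
      8 * ((Bs B Q T U F P W).card : ℤ) := by
    have h10 : ∀ j ∈ Bs B Q T U F P W, (sB B Q F j W : ℤ) ≤ 8 := fun j hj => by
      exact_mod_cast s.sB_eight hWF hj
    have h11 := sum_le_sum h10
    rw [sum_const, nsmul_eq_mul] at h11
    linarith
  have h10 : (∑ j ∈ Bs B Q T U F P W, (sB B Q F j W : ℤ)) ≤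
      ∑ j ∈ Trs B Q T (Rg B Q T U F) U F P, (jh B Q j W : ℤ) := by
    refine (sum_le_sum fun j _ => (by exact_mod_cast s.sB_le :
      (sB B Q F j W : ℤ) ≤ jh B Q j W)).trans ?_
    exact sum_le_sum_of_subset_of_nonneg Bs_sub fun _ _ _ => by positivity
  have h11 := s.ld_one hW
  rw [h8, h5] at h3
  refine ⟨?_, ?_, fun hq => ?_, ?_, h9, h6, sum_nonneg fun _ _ => by positivity,
    sum_nonneg fun _ _ => by positivity, by linarith, by positivity,
    sum_nonneg fun _ _ => by positivity, by positivity, sum_nonneg fun _ _ => by positivity,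
    by exact_mod_cast s.two_ee_nt hWF, fun hq => ?_⟩
  · have e1 : ∑ j ∈ aC B Q T U F P {W}, (jh B Q j W : ℤ) +
        ∑ j ∈ Bs B Q T U F P W, (sB B Q F j W : ℤ) +
        (∑ j ∈ Trs B Q T (Rg B Q T U F) U F P, (jh B Q j W : ℤ) -
          ∑ j ∈ Bs B Q T U F P W, (sB B Q F j W : ℤ)) +
        ∑ k ∈ Sp.Kin (Rg B Q T U F) (slj B Q F) {W}, (jh B Q k W : ℤ) =
        ∑ j ∈ T, (jh B Q j W : ℤ) := by
      rw [h2]
      ring
    rw [e1]
    exact h1
  · linarith
  · have e1 : aC B Q T U F P {W} = ∅ := card_eq_zero.1 (by exact_mod_cast hq)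
    rw [e1, sum_empty, sum_empty, card_empty] at h3
    push_cast at h3
    linarith
  · rcases h11.1 with h12 | h12
    · exact Or.inl (by exact_mod_cast h12)
    · exact Or.inr h12
  · have e1 : aC B Q T U F P {W} = ∅ := card_eq_zero.1 (by exact_mod_cast hq)
    rw [e1, sum_empty]

/-- the hits of the pair at a small leaf. -/
theorem sB_small (s : Stg B Q T U F P a) (hj : j ∈ Bs B Q T U F P W) (hW3 : W.card ≤ 3) :
    sB B Q F j W + 2 * ee B Q W ≤ nt B W 1 := by
  obtain ⟨hjT, h0, _, x, y, z, hB⟩ := mem_Bs.1 hj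
  have hT := (s.frm.types_trs s.part hjT).1
  have h3 := s.rank_trs hjT h0 (by
    obtain ⟨w, hw⟩ := hB.nb
    exact ⟨w, by rw [hB.slj_eq]; exact mem_union_left _ (mem_union_right _ hw)⟩)
  rw [hB.sB_eq]
  exact s.bt_hit hW3 hT h3 hB.toBT

/-- the hits of the pair at any leaf. -/
theorem sB_big (s : Stg B Q T U F P a) (hW : W ∈ F) (hj : j ∈ Bs B Q T U F P W) :
    (pB B Q T U F P j W : ℤ) = 1 ∨
      (sB B Q F j W : ℤ) + 4 * (ee B Q W : ℤ) ≤ 2 * (nt B W 1 : ℤ) := by
  obtain ⟨hjT, h0, _, x, y, z, hB⟩ := mem_Bs.1 hj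
  have hT := (s.frm.types_trs s.part hjT).1
  by_cases hf : ∃ p ∈ (B j ∩ Q).filter (fun p => slf B F p ⊆ {W}), ∃ i, p ∈ B i ∧
      2 ≤ (B i ∩ W).card
  · left
    unfold pB
    rw [if_pos (Or.inl hf)]
    rfl
  · right
    push Not at hf
    rw [hB.filter_eq] at hf
    have h1 : ∀ p ∈ ({x, y} : Finset V), uh B p W + 2 * ee B Q W ≤ nt B W 1 := by
      intro p hp
      refine s.frm.point_single_le hW hT (t := p) ?_ fun i hi => ?_
      · rw [hB.eq]
        rcases mem_insert.1 hp with rfl | h2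
        · simp
        · rw [mem_singleton.1 h2]
          simp
      · have := hf p hp i hi
        omega
    have h2 := h1 x (by simp)
    have h3 := h1 y (by simp)
    rw [hB.sB_eq]
    push_cast
    omega

/-- a centred triple with a full set of hits at a point is poor. -/
theorem pB_point (_s : Stg B Q T U F P a) (hm : W.card = 1) (hg : hit B U W = 0)
    (h5 : sB B Q F j W + 2 * ee B Q W = 5) (hc : ¬ C3f B Q T U F P j W) :
    pB B Q T U F P j W = 1 := by
  unfold pB
  rw [if_pos (Or.inr ⟨hm, hg, h5, hc⟩)]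

/-- the hits of the outside on a leaf. -/
theorem hit_all (s : Stg B Q T U F P a) (hW : W ∈ F) :
    (hit B (Q \ W) W : ℤ) = ∑ j ∈ T, (jh B Q j W : ℤ) + hit B U W := by
  have h1 := s.frm.leaf_places s.viol.reg hW
  have h2 := hit_add_fsQ (s.viol.reg.mono (s.frm.FQ hW)) (s.frm.FQ hW)
  linarith

/-- the facts of two triples in terms of the hits. -/
theorem few2 (s : Stg B Q T U F P a) (hF : Few B Q T F) (hW : W ∈ F) {i : ι} (hi : i ∈ T)
    (hj : j ∈ T) (hij : i ≠ j) :
    ∃ w2 : ℤ, Few2 (Pp B W - 1 - 2 * ee B Q W)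
      (∑ j ∈ T, (jh B Q j W : ℤ) + hit B U W - w2) w2 ∧
      w2 = ∑ j ∈ T, (jh B Q j W : ℤ) + hit B U W - jh B Q i W - jh B Q j W := by
  have hd : dv B Q W = Pp B W - 1 - 2 * ee B Q W := by
    have h1 := Pv_eq_Pp (B := B) W
    rw [s.frm.sv_leaf hW] at h1
    unfold dv
    linarith
  have h1 := hF i hi j hj hij W hW
  have hdij : Disjoint (B i ∩ Q) (B j ∩ Q) := s.frm.mtp.tpk.pack.disj i hi j hj hij
  have h2 : hit B ((B i ∩ Q) ∪ (B j ∩ Q)) W = jh B Q i W + jh B Q j W := by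
    unfold jh
    exact hit_union_left W hdij
  have h3 : hit B (Q \ W) W = hit B ((B i ∩ Q) ∪ (B j ∩ Q)) W +
      hit B (Q \ (W ∪ ((B i ∩ Q) ∪ (B j ∩ Q)))) W := by
    rw [← hit_union_left W (disjoint_left.2 fun v hv hv' =>
      (mem_sdiff.1 hv').2 (mem_union_right _ hv))]
    congr 1
    ext v
    have hdi : ∀ v ∈ W, v ∉ B i ∩ Q := fun v hv hv' =>
      (mem_sdiff.1 (s.frm.FD hW hv)).2 (mem_biUnion.2 ⟨i, hi, (mem_inter.1 hv').1⟩)
    have hdj : ∀ v ∈ W, v ∉ B j ∩ Q := fun v hv hv' =>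
      (mem_sdiff.1 (s.frm.FD hW hv)).2 (mem_biUnion.2 ⟨j, hj, (mem_inter.1 hv').1⟩)
    constructor
    · intro h1
      obtain ⟨h2, h3⟩ := mem_sdiff.1 h1
      by_cases h4 : v ∈ (B i ∩ Q) ∪ (B j ∩ Q)
      · exact mem_union_left _ h4
      · refine mem_union_right _ (mem_sdiff.2 ⟨h2, fun h5 => ?_⟩)
        rcases mem_union.1 h5 with h6 | h6
        · exact h3 h6
        · exact h4 h6
    · intro h1
      rcases mem_union.1 h1 with h2 | h2
      · rcases mem_union.1 h2 with h3 | h3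
        · exact mem_sdiff.2 ⟨(mem_inter.1 h3).2, fun h4 => hdi v h4 h3⟩
        · exact mem_sdiff.2 ⟨(mem_inter.1 h3).2, fun h4 => hdj v h4 h3⟩
      · obtain ⟨h3, h4⟩ := mem_sdiff.1 h2
        exact mem_sdiff.2 ⟨h3, fun h5 => h4 (mem_union_left _ h5)⟩
  have h4 := s.hit_all hW
  rw [hd, h2] at h1
  rw [h2] at h3
  refine ⟨(hit B (Q \ (W ∪ ((B i ∩ Q) ∪ (B j ∩ Q)))) W : ℤ), ?_, ?_⟩
  · have h5 : ∑ j ∈ T, (jh B Q j W : ℤ) + hit B U W -
        (hit B (Q \ (W ∪ ((B i ∩ Q) ∪ (B j ∩ Q)))) W : ℤ) = ((jh B Q i W + jh B Q j W : ℕ) : ℤ) := by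
      rw [← h4]
      push_cast [h3]
      ring
    rw [h5]
    exact h1
  · rw [← h4]
    push_cast [h3]
    ring

/-- **a centre with at least two line triples**. -/
theorem B_q2 (s : Stg B Q T U F P a) (hW : {W} ∈ P) (hb : (Bs B Q T U F P W).Nonempty) :
    msC 149 B Q T U F P a {W} ≤ 960 - 560 * ((aC B Q T U F P {W}).card : ℤ) :=
  (s.numB hW).q2 (by exact_mod_cast card_pos.2 hb)

/-- the value of a leaf is a potential. -/
theorem dv_W (s : Stg B Q T U F P a) (hW : W ∈ F) : dv B Q W = Pp B W - 1 - 2 * ee B Q W := by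
  have h1 := Pv_eq_Pp (B := B) W
  rw [s.frm.sv_leaf hW] at h1
  unfold dv
  linarith

/-- **a centre with one line triple**. -/
theorem B_q1 (s : Stg B Q T U F P a) (hF : Few B Q T F) (hW : {W} ∈ P)
    (hb : (Bs B Q T U F P W).Nonempty) (hq : (aC B Q T U F P {W}).card = 1)
    (h51 : ∀ j ∈ Bs B Q T U F P W, W.card = 5 → nt B W 1 = 1 → sB B Q F j W ≤ 6) :
    msC 149 B Q T U F P a {W} ≤ 8 * ∑ j ∈ aC B Q T U F P {W}, (jh B Q j W : ℤ) - 44 := by
  have hWF : W ∈ F := (s.part.ptn.vc {W} hW).sub (mem_singleton_self W)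
  have h := s.numB hW
  have hb1 : 1 ≤ (Bs B Q T U F P W).card := card_pos.2 hb
  rcases hb1.eq_or_lt with h1 | h1
  swap
  · exact h.q1b2 (by rw [hq]; norm_num) (by exact_mod_cast h1)
  obtain ⟨j, hj⟩ := card_eq_one.1 h1.symm
  obtain ⟨i, hi⟩ := card_eq_one.1 hq
  have hjB : j ∈ Bs B Q T U F P W := by rw [hj]; exact mem_singleton_self j
  have hiA : i ∈ aC B Q T U F P {W} := by rw [hi]; exact mem_singleton_self i
  have hiT : i ∈ tl B Q T U F P := (Sp.mem_atl.1 hiA).1
  have hjT := (mem_Bs.1 hjB).1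
  have hij : i ≠ j := by
    rintro rfl
    exact (mem_sdiff.1 hjT).2 hiT
  have hiT' := (s.tl_sub hiT).1
  have hjT' := (s.frm.types_trs s.part hjT).1
  obtain ⟨w2, h3, h4⟩ := s.few2 hF hWF hiT' hjT' hij
  have h5 := s.sum_jh hW
  have h6 : (sB B Q F j W : ℤ) ≤ jh B Q j W := by exact_mod_cast s.sB_le
  have hkin : ∀ k : ι, k ∈ Sp.Kin (Rg B Q T U F) (slj B Q F) {W} → (0 : ℤ) ≤ jh B Q k W :=
    fun k _ => by positivity
  rcases h.k0.eq_or_lt with hk | hk
  swap
  · have h7 := h.kb (by exact_mod_cast hb1) (by exact_mod_cast hk)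
    have h8 := h.t0
    rw [hq] at h7
    push_cast at h7
    linarith
  have hk0 : Sp.Kin (Rg B Q T U F) (slj B Q F) {W} = ∅ :=
    card_eq_zero.1 (by exact_mod_cast hk.symm)
  rw [hk0, sum_empty, add_zero] at h5
  refine h.q1b1 (by exact_mod_cast hq) (by exact_mod_cast h1.symm) (fun hm => ?_)
    (fun _ => ?_) (fun h7 h8 => ?_) (w2 := w2) ?_ ?_
  · rw [hj, sum_singleton]
    exact_mod_cast s.sB_small hjB (by exact_mod_cast hm)
  · rw [hj, sum_singleton, sum_singleton]
    exact s.sB_big hWF hjB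
  · rw [hj, sum_singleton]
    exact_mod_cast h51 j hjB (by exact_mod_cast h7) (by exact_mod_cast h8)
  · rw [h4, h5, hi, hj, sum_singleton, sum_singleton]
    linarith
  · have h9 : ∑ j ∈ aC B Q T U F P {W}, (jh B Q j W : ℤ) +
        ∑ j ∈ Bs B Q T U F P W, (sB B Q F j W : ℤ) +
        (∑ j ∈ Trs B Q T (Rg B Q T U F) U F P, (jh B Q j W : ℤ) -
          ∑ j ∈ Bs B Q T U F P W, (sB B Q F j W : ℤ)) + hit B U W - w2 =
        ∑ j ∈ T, (jh B Q j W : ℤ) + hit B U W - w2 := by
      rw [h5]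
      ring
    rw [h9]
    exact h3

/-- **a centre without line triples**. -/
theorem B_q0 (s : Stg B Q T U F P a) (hF : Few B Q T F) (hW : {W} ∈ P)
    (hb : (Bs B Q T U F P W).Nonempty) (hq : (aC B Q T U F P {W}).card = 0)
    (h51 : ∀ j ∈ Bs B Q T U F P W, W.card = 5 → nt B W 1 = 1 → sB B Q F j W ≤ 6)
    (hC : ∀ j ∈ Bs B Q T U F P W, W.card = 1 → hit B U W = 0 →
      sB B Q F j W + 2 * ee B Q W = 5 → ¬ C3f B Q T U F P j W)
    (hX : ∀ j ∈ Bs B Q T U F P W, W.card = 1 → hit B U W = 0 → ee B Q W = 0 →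
      sB B Q F j W = 5 → fs B Q W ≤ 1) :
    msC 149 B Q T U F P a {W} ≤ 0 := by
  have hWF : W ∈ F := (s.part.ptn.vc {W} hW).sub (mem_singleton_self W)
  have h := s.numB hW
  have hb1 : 1 ≤ (Bs B Q T U F P W).card := card_pos.2 hb
  have hq' : ((aC B Q T U F P {W}).card : ℤ) = 0 := by exact_mod_cast hq
  rcases h.k0.eq_or_lt with hk | hk
  swap
  · have h7 := h.kb (by exact_mod_cast hb1) (by exact_mod_cast hk)
    rw [hq'] at h7
    linarith
  have hk0 : Sp.Kin (Rg B Q T U F) (slj B Q F) {W} = ∅ :=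
    card_eq_zero.1 (by exact_mod_cast hk.symm)
  have hA : aC B Q T U F P {W} = ∅ := card_eq_zero.1 hq
  have h5 := s.sum_jh hW
  rw [hk0, sum_empty, add_zero, hA, sum_empty, zero_add] at h5
  rcases (by omega : (Bs B Q T U F P W).card = 1 ∨ (Bs B Q T U F P W).card = 2 ∨
    (Bs B Q T U F P W).card = 3 ∨ 4 ≤ (Bs B Q T U F P W).card) with h1 | h1 | h1 | h1
  · obtain ⟨j, hj⟩ := card_eq_one.1 h1
    have hjB : j ∈ Bs B Q T U F P W := by rw [hj]; exact mem_singleton_self j
    refine h.q0b1 hq' (by exact_mod_cast h1) (fun hm => ?_) (fun _ => ?_) (fun h7 h8 => ?_)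
      (fun h7 h8 h9 => ?_) (fun h7 h8 h9 h10 => ?_)
    · rw [hj, sum_singleton]
      exact_mod_cast s.sB_small hjB (by exact_mod_cast hm)
    · rw [hj, sum_singleton, sum_singleton]
      exact s.sB_big hWF hjB
    · rw [hj, sum_singleton]
      have := h51 j hjB (by exact_mod_cast h7) (by exact_mod_cast h8)
      push_cast
      omega
    · rw [hj, sum_singleton] at h9 ⊢
      exact_mod_cast s.pB_point (by exact_mod_cast h7) (by exact_mod_cast h8)
        (by exact_mod_cast h9) (hC j hjB (by exact_mod_cast h7) (by exact_mod_cast h8)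
          (by exact_mod_cast h9))
    · rw [hj, sum_singleton] at h10
      have h11 := hX j hjB (by exact_mod_cast h7) (by exact_mod_cast h8) (by exact_mod_cast h9)
        (by exact_mod_cast h10)
      have h12 := h.num.slot
      have h13 := h.num.pp
      have h14 := h.num.pt h7
      rw [hA, hk0, sum_empty, hj, sum_singleton, h10, h8] at h12
      rw [hj, sum_singleton, h10]
      rw [h14, h7] at h13
      rw [h14] at h12
      linarith
  · obtain ⟨j1, j2, hj12, hj⟩ := card_eq_two.1 h1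
    have hB1 : j1 ∈ Bs B Q T U F P W := by rw [hj]; simp
    have hB2 : j2 ∈ Bs B Q T U F P W := by rw [hj]; simp
    have hT1 := (s.frm.types_trs s.part (mem_Bs.1 hB1).1).1
    have hT2 := (s.frm.types_trs s.part (mem_Bs.1 hB2).1).1
    obtain ⟨w2, h3, h4⟩ := s.few2 hF hWF hT1 hT2 hj12
    have h6 : (sB B Q F j1 W : ℤ) ≤ jh B Q j1 W := by exact_mod_cast s.sB_le
    have h7 : (sB B Q F j2 W : ℤ) ≤ jh B Q j2 W := by exact_mod_cast s.sB_le
    refine h.q0b2 (s1 := sB B Q F j1 W) (s2 := sB B Q F j2 W) (p1 := pB B Q T U F P j1 W)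
      (p2 := pB B Q T U F P j2 W) hq' (by exact_mod_cast h1) (by rw [hj, sum_pair hj12])
      (by rw [hj, sum_pair hj12]) (by positivity) (by positivity)
      (by exact_mod_cast s.sB_eight hWF hB1) (by exact_mod_cast s.sB_eight hWF hB2)
      (fun hm => ?_) (fun _ => s.sB_big hWF hB1) (fun hm => ?_) (fun _ => s.sB_big hWF hB2)
      (w2 := w2) ?_ ?_
    · exact_mod_cast s.sB_small hB1 (by exact_mod_cast hm)
    · exact_mod_cast s.sB_small hB2 (by exact_mod_cast hm)
    · rw [h4, h5, hj, sum_pair hj12]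
      linarith
    · have h9 : ∑ j ∈ Bs B Q T U F P W, (sB B Q F j W : ℤ) +
          (∑ j ∈ Trs B Q T (Rg B Q T U F) U F P, (jh B Q j W : ℤ) -
            ∑ j ∈ Bs B Q T U F P W, (sB B Q F j W : ℤ)) + hit B U W - w2 =
          ∑ j ∈ T, (jh B Q j W : ℤ) + hit B U W - w2 := by
        rw [h5]
        ring
      rw [h9]
      exact h3
  · refine h.q0b3 hq' (by exact_mod_cast h1) fun hn => ?_
    have h8 : ∀ j ∈ Bs B Q T U F P W,
        16 * (sB B Q F j W : ℤ) - 76 * (pB B Q T U F P j W : ℤ) ≤ 52 := by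
      intro j hj
      have h9 : (sB B Q F j W : ℤ) ≤ 8 := by exact_mod_cast s.sB_eight hWF hj
      have h10 : (0 : ℤ) ≤ pB B Q T U F P j W := by positivity
      have h11 : (0 : ℤ) ≤ ee B Q W := by positivity
      rcases s.sB_big hWF hj with h12 | h12
      · linarith
      · linarith
    have h9 := sum_le_sum h8
    rw [sum_sub_distrib, ← mul_sum, ← mul_sum, sum_const, h1, nsmul_eq_mul] at h9
    push_cast at h9
    linarith
  · exact h.q0b4 hq' (by exact_mod_cast h1)

/-- no triple of type B is centred at the leaf: every remaining triple pays more than `144` per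
hit. -/
theorem nB_le (s : Stg B Q T U F P a) (hW : {W} ∈ P) (hb : Bs B Q T U F P W = ∅)
    (hj : j ∈ Trs B Q T (Rg B Q T U F) U F P) :
    144 * (jh B Q j W : ℤ) - Xv 149 B Q T U F P j {W} ≤ -5 * (jh B Q j W : ℤ) :=
  s.term_nB hW hj (by rw [hb]; exact notMem_empty j)

end Stg

end Pool.Agent.Hyp6
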