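import Pool.Agent.Hyp6.L3G8
import Pool.Agent.Hyp6.L3Vc

/-!
# HYP6 L3G9: the strong two triple tables in the form `Few`
-/

set_option autoImplicit false

namespace Pool.Agent.Hyp6

open Finset Pool.Agent.Hyp5

universe u v

variable {V : Type v} [DecidableEq V] {ι : Type u} [Fintype ι] [DecidableEq ι]
  {B : ι → Finset V} {Q U : Finset V} {T : Finset ι} {F : Finset (Finset V)}

/-- the four tables `Frm.few_neg`, `few_one`, `few_zero`, `few_big` together. -/
theorem Frm.few (h : Frm B Q T U F) (hv : ViolR B Q) : Few B Q T F := by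
  intro i hi j hj hij C hC
  constructor
  · intro h1 h2
    have h3 := h.few_neg hv hi hj hij hC h1 (by exact_mod_cast h2)
    exact_mod_cast h3
  · intro h1 h2
    have h3 := h.few_one hv hi hj hij hC h1 (by exact_mod_cast h2)
    exact_mod_cast h3
  · intro h1 h2
    have h3 := h.few_zero hv hi hj hij hC h1 (by
      have h4 : hit B (Q \ (C ∪ ((B i ∩ Q) ∪ (B j ∩ Q)))) C ≤ 0 := by exact_mod_cast h2
      omega)
    exact_mod_cast h3
  · intro h1
    have h3 := h.few_big hv hi hj hij hC h1
    exact_mod_cast h3

end Pool.Agent.Hyp6
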