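import Pool.Agent.Hyp6.L3Gl

/-!
# HYP6 L3Gm: classes without a centre

`NCt .. C`: no triple which pays as type B has its centre inside the class `C`. `Stg.trs_le'`: the
remaining triples pay at least `149` for every hit at such a class.
-/

set_option autoImplicit false

namespace Pool.Agent.Hyp6

open Finset Pool.Agent.Hyp5 Rt

universe u v

variable {V : Type v} [DecidableEq V] {ι : Type u} [Fintype ι] [DecidableEq ι]
  {B : ι → Finset V}

/-- no triple which pays as type B has its centre inside the class `C`. -/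
def NCt (B : ι → Finset V) (Q : Finset V) (T : Finset ι) (U : Finset V)
    (F : Finset (Finset V)) (P : Finset (Finset (Finset V))) (C : Finset (Finset V)) : Prop :=
  ∀ j ∈ Trs B Q T (Rg B Q T U F) U F P, ja B Q (Ep B Q T U F) j = 0 →
    5 ≤ ∑ L ∈ F, jh B Q j L → ∀ x y z D, BTc B Q T U F P j x y z D → ¬ D ⊆ C

/-- no triple of type B at all has its centre inside the class. -/
theorem NCt.of_bt {Q : Finset V} {T : Finset ι} {U : Finset V} {F : Finset (Finset V)}
    {P : Finset (Finset (Finset V))} {C : Finset (Finset V)}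
    (h : ∀ j ∈ Trs B Q T (Rg B Q T U F) U F P, ∀ x y z D,
      BT B Q F (par0 B U F) j x y z D → ¬ D ⊆ C) : NCt B Q T U F P C :=
  fun j hj _ _ x y z D hB => h j hj x y z D hB.toBT

namespace Stg

variable {Q U : Finset V} {T : Finset ι} {F : Finset (Finset V)}
  {P : Finset (Finset (Finset V))} {a : V → Finset (Finset V) → ℕ}

/-- **a remaining triple gives a surplus of at least `5` for every hit** at a class without centre. -/
theorem trs_le' (s : Stg B Q T U F P a) {j : ι}
    (hj : j ∈ Trs B Q T (Rg B Q T U F) U F P) {C : Finset (Finset V)} (hC : C ∈ P)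
    (hn : NCt B Q T U F P C) :
    144 * (jC B Q j C : ℤ) - Xv 149 B Q T U F P j C ≤ -5 * (jC B Q j C : ℤ) := by
  have h0 : (0 : ℤ) ≤ (jC B Q j C : ℤ) := by positivity
  rcases s.trs_term 149 hj hC with ⟨_, _, h⟩ | ⟨_, _, _, h⟩ | ⟨_, _, x, y, z, D, hB, _, _, h⟩ |
    ⟨h1, h2, x, y, z, D, hB, hD, _⟩ | ⟨_, h5, h8, _, _, _, h⟩ | ⟨_, _, h⟩ | ⟨_, _, _, _, _, h⟩
  · linarith
  · linarith
  · have hr := Frm.rB_ge (B := B) Q T U F P x y z D
    rw [h]
    exact mul_le_mul_of_nonneg_right (by linarith) h0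
  · exact absurd hD (hn j hj h1 h2 x y z D hB)
  · have h6 := vD_ge (v := 149) (by norm_num) (∑ L ∈ F, jh B Q j L)
    rw [h]
    exact mul_le_mul_of_nonneg_right (by linarith) h0
  · linarith
  · have h6 := vC_ge (∑ L ∈ F, jh B Q j L)
    rw [h]
    exact mul_le_mul_of_nonneg_right (by linarith) h0

/-- all remaining triples together. -/
theorem trs_sum_le (s : Stg B Q T U F P a) {C : Finset (Finset V)} (hC : C ∈ P)
    (hn : NCt B Q T U F P C) :
    ∑ j ∈ Trs B Q T (Rg B Q T U F) U F P,
        (144 * (jC B Q j C : ℤ) - Xv 149 B Q T U F P j C) ≤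
      -5 * ∑ j ∈ Trs B Q T (Rg B Q T U F) U F P, (jC B Q j C : ℤ) := by
  rw [mul_sum]
  exact sum_le_sum fun j hj => s.trs_le' hj hC hn

/-- without inside triples the transfers do not matter. -/
theorem ndC_of_kin (_s : Stg B Q T U F P a) {v : ℤ} {t : ι → ℤ} {C : Finset (Finset V)}
    (hK : Sp.Kin (Rg B Q T U F) (slj B Q F) C = ∅) :
    msC v B Q T U F P a C - ∑ k ∈ Sp.Kin (Rg B Q T U F) (slj B Q F) C, t k =
      msC v B Q T U F P a C := by
  rw [hK, sum_empty, sub_zero]

end Stg

end Pool.Agent.Hyp6
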