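import Pool.Agent.Hyp6.L3X6

/-!
# HYP6 L3X7: leaves with five points and thirteen blocks, absorption

`Lt5.abz`: outside points with at least three and at least two hits are absorbed.
-/

set_option autoImplicit false

namespace Pool.Agent.Hyp6

open Finset Pool.Agent.Hyp5

universe u v

variable {V : Type v} [DecidableEq V] {ι : Type u} [Fintype ι] {B : ι → Finset V}

/-- a part with five points and thirteen blocks. -/
structure Lt5 (B : ι → Finset V) (Q L : Finset V) : Prop where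
  viol : ViolR B Q
  LQ : L ⊆ Q
  crit : Crit B L
  rhoL : rho B L = 3
  cL : L.card = 5
  cmL : cm B L = 13
  two : ∀ i, (B i ∩ L).card ≤ 2

open Classical in
/-- the trace of a block as a number. -/
noncomputable def mk5 (B : ι → Finset V) (w : Fin 5 → V) (i : ι) : ℕ :=
  bt5 fun k => decide (w k ∈ B i)

omit [Fintype ι] in
theorem mk5_test {w : Fin 5 → V} {i : ι} {k : Fin 5} :
    (mk5 B w i).testBit (k : ℕ) = true ↔ w k ∈ B i := by
  unfold mk5
  rw [bt5_test]
  exact decide_eq_true_iff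

/-- the number of blocks of `S` with trace `m`. -/
noncomputable def ct5 (B : ι → Finset V) (w : Fin 5 → V) (S : Finset ι) (m : ℕ) : ℕ :=
  (S.filter (fun i => mk5 B w i = m)).card

namespace Lt5

variable {Q L : Finset V} {w : Fin 5 → V}

theorem cov (h : Lt5 B Q L) : Cov B L := h.viol.cov.mono h.LQ

/-- a labelling of the points. -/
structure Lab5 (B : ι → Finset V) (L : Finset V) (w : Fin 5 → V) : Prop where
  inj : Function.Injective w
  img : ∀ v, v ∈ L ↔ ∃ k, w k = v
  one : ∀ i, (B i ∩ L).card = 1 → w 0 ∈ B i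
  m1 : ct5 B w (tch B L) 1 = 1

omit [Fintype ι] in
/-- the size of a trace. -/
theorem card_tr (hw : Function.Injective w) (hL : ∀ v, v ∈ L ↔ ∃ k, w k = v) (i : ι) :
    (B i ∩ L).card = ∑ k : Fin 5, if w k ∈ B i then 1 else 0 := by
  classical
  rw [← card_filter]
  symm
  refine card_bij (fun k _ => w k) ?_ ?_ ?_
  · intro k hk
    exact mem_inter.2 ⟨(mem_filter.1 hk).2, (hL _).2 ⟨k, rfl⟩⟩
  · intro k _ l _ hkl
    exact hw hkl
  · intro v hv
    obtain ⟨hv1, hv2⟩ := mem_inter.1 hv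
    obtain ⟨k, rfl⟩ := (hL v).1 hv2
    exact ⟨k, mem_filter.2 ⟨mem_univ _, hv1⟩, rfl⟩

/-- the traces of the blocks are in the list. -/
theorem mk_mem (h : Lt5 B Q L) (hw : Function.Injective w) (hL : ∀ v, v ∈ L ↔ ∃ k, w k = v)
    (h1 : ∀ i, (B i ∩ L).card = 1 → w 0 ∈ B i) {i : ι} (hi : i ∈ tch B L) :
    mk5 B w i ∈ ms5 := by
  classical
  have h2 := h.two i
  have h3 : 0 < (B i ∩ L).card := card_pos.2 (cost_mem_tch.1 hi)
  have h4 := card_tr (B := B) hw hL i
  rw [Fin.sum_univ_five] at h4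
  unfold mk5
  apply bt5_mem
  have hb : ∀ k : Fin 5, (decide (w k ∈ B i)).toNat = if w k ∈ B i then 1 else 0 := by
    intro k
    by_cases h5 : w k ∈ B i <;> simp [h5]
  rw [hb 0, hb 1, hb 2, hb 3, hb 4, ← h4]
  rcases Nat.lt_or_ge (B i ∩ L).card 2 with h5 | h5
  · have h6 : (B i ∩ L).card = 1 := by omega
    exact Or.inr ⟨h6, by simpa using h1 i h6⟩
  · exact Or.inl (by omega)

omit [Fintype ι] in
/-- a family of blocks is counted by the traces. -/
theorem sum_ct {S : Finset ι} (hS : ∀ i ∈ S, mk5 B w i ∈ ms5) :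
    (ms5.map (ct5 B w S)).sum = S.card := by
  classical
  have h1 : S.card = ∑ m ∈ ms5.toFinset, ct5 B w S m := by
    unfold ct5
    exact card_eq_sum_card_fiberwise fun i hi => List.mem_toFinset.2 (hS i hi)
  rw [h1, List.sum_toFinset]
  decide

/-- all labellings. -/
theorem lab_facts (h : Lt5 B Q L) (hl : Lab5 B L w) :
    (∀ m k l, (k : Fin 5) ≠ l → Nat.testBit m k = true → Nat.testBit m l = true →
      ct5 B w (tch B L) m ≤ 3) ∧
    (∀ k : Fin 5, (ms5.map fun m => if m.testBit k then ct5 B w (tch B L) m else 0).sum = 5) ∧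
    (ms5.map (ct5 B w (tch B L))).sum = 13 := by
  classical
  have hwQ : ∀ k, w k ∈ Q := fun k => h.LQ ((hl.img _).2 ⟨k, rfl⟩)
  refine ⟨fun m k l hkl hk hlm => ?_, fun k => ?_, ?_⟩
  · have h1 := h.viol.twin_of (hwQ k) (hwQ l) (fun h2 => hkl (hl.inj h2))
      (h.viol.conn_sdiff (by
        intro v hv
        simp only [mem_insert, mem_singleton] at hv
        rcases hv with rfl | rfl
        · exact hwQ k
        · exact hwQ l) card_le_two)
    refine (card_le_card ?_).trans h1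
    intro i hi
    have h2 := (mem_filter.1 hi).2
    rw [← h2] at hk hlm
    exact mem_filter.2 ⟨mem_univ _, mk5_test.1 hk, mk5_test.1 hlm⟩
  · have h1 := h.viol.reg (w k) (hwQ k)
    have h2 := sum_ct (B := B) (w := w) (S := (tch B L).filter (fun i => w k ∈ B i))
      (fun i hi => h.mk_mem hl.inj hl.img hl.one (mem_filter.1 hi).1)
    have h3 : (tch B L).filter (fun i => w k ∈ B i) = univ.filter (fun i => w k ∈ B i) := by
      ext i
      simp only [mem_filter, mem_univ, true_and, cost_mem_tch]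
      exact ⟨fun h4 => h4.2, fun h4 => ⟨⟨w k, mem_inter.2 ⟨h4, (hl.img _).2 ⟨k, rfl⟩⟩⟩, h4⟩⟩
    refine Eq.trans ?_ h1
    rw [← h3, ← h2]
    congr 1
    refine List.map_congr_left fun m _ => ?_
    unfold ct5
    rw [filter_filter]
    split_ifs with h5
    · congr 1
      ext i
      simp only [mem_filter]
      constructor
      · rintro ⟨h6, h7⟩
        rw [← h7] at h5
        exact ⟨h6, mk5_test.1 h5, h7⟩
      · rintro ⟨h6, _, h7⟩
        exact ⟨h6, h7⟩
    · symm
      rw [card_eq_zero, filter_eq_empty_iff]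
      rintro i _ ⟨h6, h7⟩
      rw [← h7] at h5
      exact h5 (mk5_test.2 h6)
  · rw [sum_ct fun i hi => h.mk_mem hl.inj hl.img hl.one hi]
    exact h.cmL

/-- exactly one block with one point. -/
theorem one_single (h : Lt5 B Q L) : ∃ i v, B i ∩ L = {v} ∧
    ∀ j, (B j ∩ L).card = 1 → j = i := by
  classical
  have h1 := sum_inc_tch (B := B) (P := L) (h.viol.reg.mono h.LQ)
  have h2 : ∑ i ∈ tch B L, (B i ∩ L).card +
      ((tch B L).filter (fun i => (B i ∩ L).card = 1)).card = 2 * (tch B L).card := by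
    rw [card_filter, ← sum_add_distrib, mul_comm, ← smul_eq_mul, ← sum_const]
    refine sum_congr rfl fun i hi => ?_
    have h3 := h.two i
    have h4 : 0 < (B i ∩ L).card := card_pos.2 (cost_mem_tch.1 hi)
    split_ifs with h5 <;> omega
  have h3 : (tch B L).card = 13 := h.cmL
  rw [h1, h3, h.cL] at h2
  have h4 : ((tch B L).filter (fun i => (B i ∩ L).card = 1)).card = 1 := by omega
  obtain ⟨i, hi⟩ := card_eq_one.1 h4
  have hi' : i ∈ (tch B L).filter (fun i => (B i ∩ L).card = 1) := by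
    rw [hi]
    exact mem_singleton_self i
  obtain ⟨v, hv⟩ := card_eq_one.1 (mem_filter.1 hi').2
  refine ⟨i, v, hv, fun j hj => ?_⟩
  have h5 : j ∈ (tch B L).filter (fun i => (B i ∩ L).card = 1) :=
    mem_filter.2 ⟨cost_mem_tch.2 (card_pos.1 (by omega)), hj⟩
  rw [hi, mem_singleton] at h5
  exact h5

theorem ms5_pair : ∀ m ∈ ms5, ∀ k : Fin 5, k ≠ 0 → m.testBit 0 = true → m.testBit (k : ℕ) = true →
    m = 1 + 2 ^ (k : ℕ) := by
  decide

theorem ms5_bits : ∀ m ∈ ms5, ((m.testBit 0).toNat + (m.testBit 1).toNat + (m.testBit 2).toNat +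
    (m.testBit 3).toNat + (m.testBit 4).toNat = 1) ↔ m = 1 := by
  decide

/-- the pairs with the point `w 0`. -/
theorem ct_pair (h : Lt5 B Q L) (hw : Function.Injective w) (hL : ∀ v, v ∈ L ↔ ∃ k, w k = v)
    (h1 : ∀ i, (B i ∩ L).card = 1 → w 0 ∈ B i) {k : Fin 5} (hk : k ≠ 0) :
    ct5 B w (tch B L) (1 + 2 ^ (k : ℕ)) = k2 B (tch B L) (w 0) (w k) := by
  classical
  unfold ct5 k2
  congr 1
  ext i
  simp only [mem_filter]
  constructor
  · rintro ⟨h2, h3⟩
    refine ⟨h2, ?_, ?_⟩
    · rw [← mk5_test, h3]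
      clear h3
      revert hk
      revert k
      decide
    · rw [← mk5_test, h3]
      clear h3
      revert hk
      revert k
      decide
  · rintro ⟨h2, h3, h4⟩
    exact ⟨h2, ms5_pair _ (h.mk_mem hw hL h1 h2) k hk (mk5_test.2 h3) (mk5_test.2 h4)⟩

/-- a sorted labelling. -/
theorem exists_lab (h : Lt5 B Q L) : ∃ w : Fin 5 → V, Lab5 B L w ∧
    ct5 B w (tch B L) 3 ≤ ct5 B w (tch B L) 5 ∧ ct5 B w (tch B L) 5 ≤ ct5 B w (tch B L) 9 ∧
    ct5 B w (tch B L) 9 ≤ ct5 B w (tch B L) 17 := by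
  classical
  obtain ⟨i1, v0, hi1, huni⟩ := h.one_single
  have hv0 : v0 ∈ L := by
    have h1 : v0 ∈ B i1 ∩ L := by rw [hi1]; exact mem_singleton_self v0
    exact (mem_inter.1 h1).2
  have hc : (L.erase v0).card = 4 := by rw [card_erase_of_mem hv0, h.cL]
  set e := (L.erase v0).equivFinOfCardEq hc with he
  set g : Fin 4 → V := fun k => ((e.symm k : {x // x ∈ L.erase v0}) : V) with hg
  have hgm : ∀ k, g k ∈ L.erase v0 := fun k => (e.symm k).2
  have hginj : Function.Injective g := fun a b hab => e.symm.injective (Subtype.ext hab)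
  set f : Fin 4 → ℕ := fun k => k2 B (tch B L) v0 (g k) with hf
  set σ := Tuple.sort f with hσ
  have hmono : Monotone (f ∘ σ) := Tuple.monotone_sort f
  set w : Fin 5 → V := Fin.cons v0 (g ∘ σ) with hw
  have hw0 : w 0 = v0 := rfl
  have hws : ∀ k : Fin 4, w k.succ = g (σ k) := fun k => rfl
  have hinj : Function.Injective w := by
    rw [hw, Fin.cons_injective_iff]
    refine ⟨?_, hginj.comp σ.injective⟩
    rintro ⟨k, hk⟩
    have h1 := hgm (σ k)
    simp only [Function.comp_apply] at hk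
    rw [hk] at h1
    exact (mem_erase.1 h1).1 rfl
  have himg : ∀ v, v ∈ L ↔ ∃ k, w k = v := by
    intro v
    constructor
    · intro hv
      by_cases h1 : v = v0
      · exact ⟨0, by rw [hw0, h1]⟩
      · have h2 : v ∈ L.erase v0 := mem_erase.2 ⟨h1, hv⟩
        refine ⟨(σ.symm (e ⟨v, h2⟩)).succ, ?_⟩
        rw [hws, Equiv.apply_symm_apply]
        simp [hg]
    · rintro ⟨k, rfl⟩
      refine Fin.cases ?_ (fun k => ?_) k
      · rw [hw0]
        exact hv0
      · rw [hws]
        exact (mem_erase.1 (hgm _)).2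
  have hone : ∀ i, (B i ∩ L).card = 1 → w 0 ∈ B i := by
    intro i hi
    rw [huni i hi, hw0]
    have h1 : v0 ∈ B i1 ∩ L := by rw [hi1]; exact mem_singleton_self v0
    exact (mem_inter.1 h1).1
  have hbits : ∀ i, (B i ∩ L).card = ((mk5 B w i).testBit 0).toNat +
      ((mk5 B w i).testBit 1).toNat + ((mk5 B w i).testBit 2).toNat +
      ((mk5 B w i).testBit 3).toNat + ((mk5 B w i).testBit 4).toNat := by
    intro i
    rw [card_tr hinj himg i, Fin.sum_univ_five]
    have hb : ∀ k : Fin 5, (if w k ∈ B i then 1 else 0) =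
        ((mk5 B w i).testBit (k : ℕ)).toNat := by
      intro k
      by_cases h5 : w k ∈ B i
      · rw [if_pos h5, mk5_test.2 h5]
        rfl
      · rw [if_neg h5, Bool.eq_false_iff.2 (fun h6 => h5 (mk5_test.1 h6))]
        rfl
    rw [hb 0, hb 1, hb 2, hb 3, hb 4]
    rfl
  have hm1 : ct5 B w (tch B L) 1 = 1 := by
    unfold ct5
    rw [card_eq_one]
    refine ⟨i1, ?_⟩
    ext i
    simp only [mem_filter, mem_singleton]
    constructor
    · rintro ⟨h1, h2⟩
      refine huni i ?_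
      rw [hbits i]
      exact (ms5_bits _ (h.mk_mem hinj himg hone h1)).2 h2
    · rintro rfl
      have h1 : i ∈ tch B L := cost_mem_tch.2 (by rw [hi1]; exact singleton_nonempty v0)
      refine ⟨h1, (ms5_bits _ (h.mk_mem hinj himg hone h1)).1 ?_⟩
      rw [← hbits i, hi1, card_singleton]
  refine ⟨w, ⟨hinj, himg, hone, hm1⟩, ?_, ?_, ?_⟩
  · have h1 := h.ct_pair hinj himg hone (k := 1) (by decide)
    have h2 := h.ct_pair hinj himg hone (k := 2) (by decide)
    have h3 : f (σ 0) ≤ f (σ 1) := hmono (by decide : (0 : Fin 4) ≤ 1)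
    have h4 : (1 : ℕ) + 2 ^ ((1 : Fin 5) : ℕ) = 3 := by decide
    have h5 : (1 : ℕ) + 2 ^ ((2 : Fin 5) : ℕ) = 5 := by decide
    rw [h4] at h1
    rw [h5] at h2
    rw [h1, h2]
    exact h3
  · have h1 := h.ct_pair hinj himg hone (k := 2) (by decide)
    have h2 := h.ct_pair hinj himg hone (k := 3) (by decide)
    have h3 : f (σ 1) ≤ f (σ 2) := hmono (by decide : (1 : Fin 4) ≤ 2)
    have h4 : (1 : ℕ) + 2 ^ ((2 : Fin 5) : ℕ) = 5 := by decide
    have h5 : (1 : ℕ) + 2 ^ ((3 : Fin 5) : ℕ) = 9 := by decide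
    rw [h4] at h1
    rw [h5] at h2
    rw [h1, h2]
    exact h3
  · have h1 := h.ct_pair hinj himg hone (k := 3) (by decide)
    have h2 := h.ct_pair hinj himg hone (k := 4) (by decide)
    have h3 : f (σ 2) ≤ f (σ 3) := hmono (by decide : (2 : Fin 4) ≤ 3)
    have h4 : (1 : ℕ) + 2 ^ ((3 : Fin 5) : ℕ) = 9 := by decide
    have h5 : (1 : ℕ) + 2 ^ ((4 : Fin 5) : ℕ) = 17 := by decide
    rw [h4] at h1
    rw [h5] at h2
    rw [h1, h2]
    exact h3

/-- the check for the part. -/
theorem check (h : Lt5 B Q L) (hl : Lab5 B L w)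
    (s1 : ct5 B w (tch B L) 3 ≤ ct5 B w (tch B L) 5)
    (s2 : ct5 B w (tch B L) 5 ≤ ct5 B w (tch B L) 9)
    (s3 : ct5 B w (tch B L) 9 ≤ ct5 B w (tch B L) 17) :
    ch5 (ms5.map fun m => (m, ct5 B w (tch B L) m)) = true := by
  obtain ⟨h3, hd, ht⟩ := h.lab_facts hl
  have hm1 := hl.m1
  have t3 := h3 3 0 1 (by decide) (by decide) (by decide)
  have t5 := h3 5 0 2 (by decide) (by decide) (by decide)
  have t9 := h3 9 0 3 (by decide) (by decide) (by decide)
  have t17 := h3 17 0 4 (by decide) (by decide) (by decide)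
  have t6 := h3 6 1 2 (by decide) (by decide) (by decide)
  have t10 := h3 10 1 3 (by decide) (by decide) (by decide)
  have t18 := h3 18 1 4 (by decide) (by decide) (by decide)
  have t12 := h3 12 2 3 (by decide) (by decide) (by decide)
  have t20 := h3 20 2 4 (by decide) (by decide) (by decide)
  have t24 := h3 24 3 4 (by decide) (by decide) (by decide)
  set c := ct5 B w (tch B L) with hc
  simp only [ms5, List.map_cons, List.map_nil, List.sum_cons, List.sum_nil] at ht
  have e0 : c 3 + (c 5 + (c 9 + (c 17 + (0 + (0 + (0 + (0 + (0 + (0 + (c 1 + (0))))))))))) = 5 := hd 0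
  have e1 : c 3 + (0 + (0 + (0 + (c 6 + (c 10 + (c 18 + (0 + (0 + (0 + (0 + (0))))))))))) = 5 := hd 1
  have e2 : 0 + (c 5 + (0 + (0 + (c 6 + (0 + (0 + (c 12 + (c 20 + (0 + (0 + (0))))))))))) = 5 := hd 2
  have e3 : 0 + (0 + (c 9 + (0 + (0 + (c 10 + (0 + (c 12 + (0 + (c 24 + (0 + (0))))))))))) = 5 := hd 3
  have e4 : 0 + (0 + (0 + (c 17 + (0 + (0 + (c 18 + (0 + (c 20 + (c 24 + (0 + (0))))))))))) = 5 := hd 4
  clear hd h3
  have f3 : c 3 = 5 - (c 6 + c 10 + c 18) := by omega
  have f5 : c 5 = 5 - (c 6 + c 12 + c 20) := by omega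
  have f24 : c 24 = 8 - (c 6 + c 10 + c 18 + c 12 + c 20) := by omega
  have f9 : c 9 = 5 - (c 10 + c 12 + (8 - (c 6 + c 10 + c 18 + c 12 + c 20))) := by omega
  have f17 : c 17 = 5 - (c 18 + c 20 + (8 - (c 6 + c 10 + c 18 + c 12 + c 20))) := by omega
  have hz : (ms5.map fun m => (m, c m)) = zs5 (c 6) (c 10) (c 18) (c 12) (c 20) := by
    simp only [ms5, List.map_cons, List.map_nil, zs5]
    rw [← f9, ← f17, ← f3, ← f5, ← f24, hm1]
  rw [hz]
  have hok : ok5 (c 6) (c 10) (c 18) (c 12) (c 20) = true := by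
    unfold ok5
    simp only [Bool.and_eq_true, Nat.ble_eq]
    refine ⟨⟨⟨⟨⟨⟨⟨⟨⟨⟨⟨⟨?_, ?_⟩, ?_⟩, ?_⟩, ?_⟩, ?_⟩, ?_⟩, ?_⟩, ?_⟩, ?_⟩, ?_⟩, ?_⟩, ?_⟩ <;> omega
  have h4 := of_al4 (of_al4 (of_al4 (of_al4 (of_al4 ck5_all (a := c 6) (by omega))
    (a := c 10) (by omega)) (a := c 18) (by omega)) (a := c 12) (by omega)) (a := c 20) (by omega)
  unfold ck5 at h4
  rw [hok] at h4
  exact h4

/-- three blocks. -/
theorem abz3 (h : Lt5 B Q L) {T : Finset ι} (hT : T.card ≤ 3) {A : Finset V}
    (hc : L ∪ A ⊆ T.biUnion B) : Abz B L A := ⟨T, hc, by rw [h.rhoL]; exact hT⟩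

theorem beq5 {a b : ℕ} : Nat.beq a b = true ↔ a = b :=
  ⟨Nat.eq_of_beq_eq_true, fun h => by rw [h]; exact Nat.beq_refl b⟩

theorem lor31 : ∀ k : Fin 5, Nat.testBit 31 (k : ℕ) = true := by decide

/-- **the absorption lemma**. -/
theorem abz (h : Lt5 B Q L) {x y : V} (hxQ : x ∈ Q) (hyQ : y ∈ Q) (hxL : x ∉ L) (hyL : y ∉ L)
    (hxy : x ≠ y) (hx3 : 3 ≤ (Ez B L x).card) (hy2 : 2 ≤ (Ez B L y).card) : Abz B L {x, y} := by
  classical
  by_contra hna
  obtain ⟨w, hl, s1, s2, s3⟩ := h.exists_lab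
  have hch := h.check hl s1 s2 s3
  set c := ct5 B w (tch B L) with hc
  set α := ct5 B w (Ez B L x) with hα
  set β := ct5 B w (Ez B L y) with hβ
  have hsub : ∀ v, Ez B L v ⊆ tch B L := fun v i hi => cost_mem_tch.2 (mem_Ez.1 hi).2
  have hmem : ∀ i ∈ tch B L, mk5 B w i ∈ ms5 := fun i hi => h.mk_mem hl.inj hl.img hl.one hi
  have hαs : (ms5.map α).sum = (Ez B L x).card := sum_ct fun i hi => hmem i (hsub x hi)
  have hβs : (ms5.map β).sum = (Ez B L y).card := sum_ct fun i hi => hmem i (hsub y hi)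
  have hαc : ∀ m, α m ≤ c m := fun m => card_le_card (filter_subset_filter _ (hsub x))
  have hβc : ∀ m, β m ≤ c m := fun m => card_le_card (filter_subset_filter _ (hsub y))
  -- a block of a class
  have hex : ∀ (S : Finset ι) m, ct5 B w S m ≠ 0 → ∃ i ∈ S, mk5 B w i = m := by
    intro S m hm
    obtain ⟨i, hi⟩ := card_pos.1 (Nat.pos_of_ne_zero hm)
    exact ⟨i, (mem_filter.1 hi).1, (mem_filter.1 hi).2⟩
  have hxy2 : ∀ i, x ∈ B i → y ∈ B i → (B i ∩ L).Nonempty → mk5 B w i = 1 := by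
    intro i hxi hyi hi
    have h1 := hmem i (cost_mem_tch.2 hi)
    have h2 : (B i ∩ L).card = 1 := by
      have h3 : insert x (insert y (B i ∩ L)) ⊆ B i ∩ Q := by
        intro v hv
        rcases mem_insert.1 hv with rfl | hv
        · exact mem_inter.2 ⟨hxi, hxQ⟩
        rcases mem_insert.1 hv with rfl | hv
        · exact mem_inter.2 ⟨hyi, hyQ⟩
        · exact mem_inter.2 ⟨(mem_inter.1 hv).1, h.LQ (mem_inter.1 hv).2⟩
      have h4 := card_le_card h3
      rw [card_insert_of_notMem (by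
        rw [mem_insert]
        rintro (h5 | h5)
        · exact hxy h5
        · exact hxL (mem_inter.1 h5).2), card_insert_of_notMem (fun h5 =>
          hyL (mem_inter.1 h5).2)] at h4
      have h5 := h.viol.tr i
      have h6 : 0 < (B i ∩ L).card := card_pos.2 hi
      omega
    rw [← ms5_bits _ h1]
    have h3 := card_tr (B := B) hl.inj hl.img i
    rw [Fin.sum_univ_five, h2] at h3
    have hb : ∀ k : Fin 5, ((mk5 B w i).testBit (k : ℕ)).toNat = if w k ∈ B i then 1 else 0 := by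
      intro k
      by_cases h5 : w k ∈ B i
      · rw [if_pos h5, mk5_test.2 h5]
        rfl
      · rw [if_neg h5, Bool.eq_false_iff.2 (fun h6 => h5 (mk5_test.1 h6))]
        rfl
    have b0 := hb 0
    have b1 := hb 1
    have b2 := hb 2
    have b3 := hb 3
    have b4 := hb 4
    have h4 : ((mk5 B w i).testBit ((0 : Fin 5) : ℕ)).toNat +
        ((mk5 B w i).testBit ((1 : Fin 5) : ℕ)).toNat +
        ((mk5 B w i).testBit ((2 : Fin 5) : ℕ)).toNat +
        ((mk5 B w i).testBit ((3 : Fin 5) : ℕ)).toNat +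
        ((mk5 B w i).testBit ((4 : Fin 5) : ℕ)).toNat = 1 := by
      rw [b0, b1, b2, b3, b4]
      exact h3.symm
    exact h4
  -- disjoint classes
  have hab : ∀ m, m ≠ 1 → α m + β m ≤ c m := by
    intro m hm
    have h1 : Disjoint ((Ez B L x).filter (fun i => mk5 B w i = m))
        ((Ez B L y).filter (fun i => mk5 B w i = m)) := by
      rw [disjoint_left]
      intro i hi hi'
      obtain ⟨h2, h3⟩ := mem_filter.1 hi
      obtain ⟨h4, _⟩ := mem_filter.1 hi'
      exact hm (h3 ▸ hxy2 i (mem_Ez.1 h2).1 (mem_Ez.1 h4).1 (mem_Ez.1 h2).2)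
    rw [hα, hβ, hc]
    unfold ct5
    rw [← card_union_of_disjoint h1]
    exact card_le_card (union_subset (filter_subset_filter _ (hsub x))
      (filter_subset_filter _ (hsub y)))
  -- completed traces
  have hcomp : ∀ u t, cm5 (ms5.map fun m => (m, c m)) u t = true → α u = 0 ∨ β t = 0 := by
    intro u t hut
    by_contra hcon
    push Not at hcon
    obtain ⟨i, hi, hiu⟩ := hex _ _ hcon.1
    obtain ⟨j, hj, hjt⟩ := hex _ _ hcon.2
    obtain ⟨hxi, hiL⟩ := mem_Ez.1 hi
    obtain ⟨hyj, hjL⟩ := mem_Ez.1 hj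
    unfold cm5 at hut
    rw [Bool.or_eq_true, Bool.and_eq_true, beq5, beq5] at hut
    rcases hut with ⟨h1, h2⟩ | h1
    · -- both points on the single block
      have hij : i = j := by
        have h3 : (((tch B L).filter (fun i => mk5 B w i = 1)).card) = 1 := hl.m1
        obtain ⟨z, hz⟩ := card_eq_one.1 h3
        have h4 : i ∈ (tch B L).filter (fun i => mk5 B w i = 1) :=
          mem_filter.2 ⟨hsub x hi, by rw [hiu, h1]⟩
        have h5 : j ∈ (tch B L).filter (fun i => mk5 B w i = 1) :=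
          mem_filter.2 ⟨hsub y hj, by rw [hjt, h2]⟩
        rw [hz, mem_singleton] at h4 h5
        rw [h4, h5]
      have h0 : w 0 ∈ B i := by
        rw [← mk5_test, hiu, h1]
        decide
      have h0L : w 0 ∈ L := (hl.img _).2 ⟨0, rfl⟩
      have h3 := h.crit _ h0L
      rw [h.rhoL] at h3
      obtain ⟨T, hT1, hT2⟩ := exists_cover (B := B) (W := L.erase (w 0))
        (h.cov.mono (erase_subset _ _))
      refine hna (h.abz3 (T := insert i T) ((card_insert_le _ _).trans (by omega)) ?_)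
      intro v hv
      rw [mem_biUnion]
      rcases mem_union.1 hv with hv | hv
      · by_cases h4 : v = w 0
        · exact ⟨i, mem_insert_self _ _, h4 ▸ h0⟩
        · obtain ⟨k, hk, hvk⟩ := mem_biUnion.1 (hT1 (mem_erase.2 ⟨h4, hv⟩))
          exact ⟨k, mem_insert_of_mem hk, hvk⟩
      · simp only [mem_insert, mem_singleton] at hv
        rcases hv with rfl | rfl
        · exact ⟨i, mem_insert_self _ _, hxi⟩
        · exact ⟨i, mem_insert_self _ _, hij ▸ hyj⟩
    · rw [List.any_eq_true] at h1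
      obtain ⟨z, hz, hz2⟩ := h1
      obtain ⟨m, hm, rfl⟩ := List.mem_map.1 hz
      rw [Bool.and_eq_true, beq5, Bool.not_eq_true'] at hz2
      obtain ⟨hcm', hor⟩ := hz2
      have hcm : c m ≠ 0 := fun h2 => by
        rw [beq5.2 h2] at hcm'
        exact Bool.noConfusion hcm'
      obtain ⟨l, hl', hlm⟩ := hex _ _ hcm
      refine hna (h.abz3 (T := {i, j, l}) card_le_three ?_)
      intro v hv
      rw [mem_biUnion]
      rcases mem_union.1 hv with hv | hv
      · obtain ⟨k, rfl⟩ := (hl.img v).1 hv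
        have h2 := lor31 k
        rw [← hor] at h2
        have h3 : ((u ||| t) ||| m).testBit (k : ℕ) = true := h2
        rw [Nat.testBit_or, Nat.testBit_or, Bool.or_eq_true, Bool.or_eq_true, ← hiu, ← hjt,
          ← hlm, mk5_test, mk5_test, mk5_test] at h3
        rcases h3 with (h3 | h3) | h3
        · exact ⟨i, by simp, h3⟩
        · exact ⟨j, by simp, h3⟩
        · exact ⟨l, by simp, h3⟩
      · simp only [mem_insert, mem_singleton] at hv
        rcases hv with rfl | rfl
        · exact ⟨i, by simp, hxi⟩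
        · exact ⟨j, by simp, hyj⟩
  unfold ch5 at hch
  rw [Bool.and_eq_true, List.all_eq_true, List.all_eq_true] at hch
  obtain ⟨hch1, hch2⟩ := hch
  set zs := ms5.map fun m => (m, c m) with hzs
  have hentry : ∀ (k t u : ℕ), (t = 1 → u = 1 → β t ≠ 0) → k ≤ β t → β t ≠ 0 →
      α u ≤ cond (cm5 zs u t) 0 (cond (Nat.beq u t) (c u - k) (c u)) := by
    intro k t u _ hk hb
    cases h1 : cm5 zs u t
    · cases h2 : Nat.beq u t
      · exact hαc u
      · simp only [cond_false, cond_true]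
        have h3 := beq5.1 h2
        subst h3
        have h4 : u ≠ 1 := by
          rintro rfl
          unfold cm5 at h1
          simp at h1
        have h5 := hab u h4
        omega
    · rcases hcomp u t h1 with h2 | h2
      · rw [h2]
        exact Nat.zero_le _
      · exact absurd h2 hb
  have hfl : ∀ k t, fl5 zs k t = ms5.map (fun u => cond (cm5 zs u t) 0
      (cond (Nat.beq u t) (c u - k) (c u))) := by
    intro k t
    unfold fl5
    rw [hzs, List.map_map]
    rfl
  have hx : 3 ≤ (ms5.map α).sum := by rw [hαs]; exact hx3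
  have hy : 2 ≤ (ms5.map β).sum := by rw [hβs]; exact hy2
  have hle : ∀ (f : ℕ → ℕ), (∀ u, α u ≤ f u) → (ms5.map α).sum ≤ (ms5.map f).sum := by
    intro f hf
    exact List.sum_le_sum fun u _ => hf u
  by_cases hsame : ∃ t ∈ ms5, 2 ≤ β t
  · obtain ⟨t, ht, hbt⟩ := hsame
    have h1 := hch2 (t, c t) (List.mem_map.2 ⟨t, ht, rfl⟩)
    simp only [Bool.or_eq_true, Nat.ble_eq] at h1
    have h2 := hβc t
    rcases h1 with h1 | h1
    · omega
    · rw [hfl] at h1
      have h3 := hle _ (fun u => hentry 2 t u (fun _ _ => by omega) hbt (by omega))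
      omega
  · push Not at hsame
    -- two different classes
    obtain ⟨t, ht, t', ht', htt, hb, hb'⟩ : ∃ t ∈ ms5, ∃ t' ∈ ms5, t ≠ t' ∧ β t ≠ 0 ∧ β t' ≠ 0 := by
      by_contra hcon
      push Not at hcon
      have h1 : ∃ t ∈ ms5, β t ≠ 0 := by
        by_contra h2
        push Not at h2
        have h3 : (ms5.map β).sum = 0 := by
          rw [List.sum_eq_zero_iff]
          intro n hn
          obtain ⟨m, hm, rfl⟩ := List.mem_map.1 hn
          exact h2 m hm
        omega
      obtain ⟨t, ht, hbt⟩ := h1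
      have h2 : ∀ u ∈ ms5, β u ≤ if u = t then 1 else 0 := by
        intro u hu
        split_ifs with h3
        · have := hsame u hu
          omega
        · exact (hcon t ht u hu (Ne.symm h3) hbt).le
      have h3 : (ms5.map β).sum ≤ (ms5.map fun u => if u = t then 1 else 0).sum :=
        List.sum_le_sum h2
      have h4 : ∀ t ∈ ms5, (ms5.map fun u => if u = t then 1 else 0).sum = 1 := by decide
      have h5 := h4 t ht
      omega
    have h1 := hch1 (t, c t) (List.mem_map.2 ⟨t, ht, rfl⟩)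
    rw [List.all_eq_true] at h1
    have h2 := h1 (t', c t') (List.mem_map.2 ⟨t', ht', rfl⟩)
    simp only [Bool.or_eq_true, Nat.ble_eq, beq5] at h2
    have h3 := hβc t
    have h4 := hβc t'
    rcases h2 with ((h2 | h2) | h2) | h2
    · omega
    · omega
    · exact htt h2
    · rw [hfl, hfl, List.zipWith_map, List.zipWith_self] at h2
      have h5 := hle _ (fun u => le_min (hentry 1 t u (fun _ _ => hb) (by omega) hb)
        (hentry 1 t' u (fun _ _ => hb') (by omega) hb'))
      omega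

end Lt5

namespace ViolR

variable {Q U L : Finset V} {T : Finset ι} {F : Finset (Finset V)}

/-- a leaf with five points and thirteen blocks. -/
theorem lt5 (hv : ViolR B Q) (h : Frm B Q T U F) (hL : L ∈ F) (hL5 : L.card = 5)
    (h13 : cm B L = 13) : Lt5 B Q L where
  viol := hv
  LQ := h.FQ hL
  crit := fun v hv => le_antisymm (rho_erase_fc (h.ge.sys.fc L hL) (h.sv_leaf hL) hv)
    (rho_le_erase (x := v) (h.cov.mono (h.FQ hL)))
  rhoL := by
    have h1 := h.sv_leaf hL
    unfold sv at h1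
    rw [hL5] at h1
    omega
  cL := hL5
  cmL := h13
  two := by
    intro i
    rcases (B i ∩ L).eq_empty_or_nonempty with h0 | ⟨v, hv'⟩
    · rw [h0, card_empty]
      exact Nat.zero_le _
    · obtain ⟨hv1, hv2⟩ := mem_inter.1 hv'
      exact (card_le_card (inter_subset_inter_left (h.FD hL))).trans (h.two_leaf hL hv1 hv2)

/-- **a leaf with five points and thirteen blocks absorbs outside points with three and two
hits.** -/
theorem abz5 (hv : ViolR B Q) (h : Frm B Q T U F) (hL : L ∈ F) (hL5 : L.card = 5)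
    (h13 : cm B L = 13) {x y : V} (hxQ : x ∈ Q) (hyQ : y ∈ Q) (hxL : x ∉ L) (hyL : y ∉ L)
    (hxy : x ≠ y) (hx3 : 3 ≤ (Ez B L x).card) (hy2 : 2 ≤ (Ez B L y).card) : Abz B L {x, y} :=
  (hv.lt5 h hL hL5 h13).abz hxQ hyQ hxL hyL hxy hx3 hy2

/-- nine hits of a triple: the two other points are absorbed for every point with at most three
hits. -/
theorem erase5 (hv : ViolR B Q) (h : Frm B Q T U F) (hL : L ∈ F) (hL5 : L.card = 5)
    (h13 : cm B L = 13) {j0 : ι} (hj0 : j0 ∈ T) (h9 : 9 ≤ hit B (B j0 ∩ Q) L) {t : V}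
    (ht : t ∈ B j0 ∩ Q) (ht3 : (Ez B L t).card ≤ 3) : Abz B L ((B j0 ∩ Q).erase t) := by
  classical
  have hc : ((B j0 ∩ Q).erase t).card = 2 := by
    rw [card_erase_of_mem ht, h.full hj0]
  obtain ⟨x, y, hxy, he⟩ := card_eq_two.1 hc
  have hx : x ∈ (B j0 ∩ Q).erase t := by rw [he]; simp
  have hy : y ∈ (B j0 ∩ Q).erase t := by rw [he]; simp
  have hxT := (mem_erase.1 hx).2
  have hyT := (mem_erase.1 hy).2
  have hLQ : L ⊆ Q \ (B j0 ∩ Q) := fun _ hvL =>
    mem_sdiff.2 ⟨h.FQ hL hvL, fun h1 => (h.T_out hj0 h1).2 L hL hvL⟩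
  have hout : ∀ z ∈ B j0 ∩ Q, z ∉ L := fun z hz hzL => (mem_sdiff.1 (hLQ hzL)).2 hz
  have hd := hv.dlt (h.full hj0) hLQ (card_pos.1 (by rw [hL5]; norm_num))
    (hv.lt5 h hL hL5 h13).crit (h.sv_leaf hL)
  have hfour : ∀ z ∈ B j0 ∩ Q, (Ez B L z).card ≤ 4 := by
    intro z hz
    have h1 := hd.five (mem_inter.1 hz).2
    rw [if_pos (mem_inter.1 hz).1] at h1
    omega
  have hsum : hit B (B j0 ∩ Q) L = (Ez B L t).card + ((Ez B L x).card + (Ez B L y).card) := by
    rw [hit_eq_Ez, ← add_sum_erase _ _ ht, he, sum_pair hxy]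
  have f1 := hfour x hxT
  have f2 := hfour y hyT
  rw [he]
  rcases Nat.lt_or_ge (Ez B L x).card 3 with h1 | h1
  · have h2 : ({x, y} : Finset V) = {y, x} := pair_comm x y
    rw [h2]
    exact hv.abz5 h hL hL5 h13 (mem_inter.1 hyT).2 (mem_inter.1 hxT).2 (hout y hyT) (hout x hxT)
      hxy.symm (by omega) (by omega)
  · exact hv.abz5 h hL hL5 h13 (mem_inter.1 hxT).2 (mem_inter.1 hyT).2 (hout x hxT) (hout y hyT)
      hxy h1 (by omega)

end ViolR

end Pool.Agent.Hyp6
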