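import Pool.Agent.Hyp6.L3Tc
import Pool.Agent.Hyp6.L3Bs
import Pool.Agent.Hyp6.L3Gm
import Pool.Agent.Hyp6.L3X5
import Pool.Agent.Hyp6.L3X7

/-!
# HYP6 L3Td: private single leaves

A single leaf which is its own class with exactly one line triple `j`, no inside triple, no own point
of `j` and no centre of a type B. `Stg.ms_priv`: what it needs in terms of the hits of `j`.
`Stg.priv_rows`: it needs nothing, or it is one of three kinds of leaves and `j` has many hits.
-/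

set_option autoImplicit false

namespace Pool.Agent.Hyp6

open Finset Pool.Agent.Hyp5 Rt

universe u v

section

variable {V : Type v} [DecidableEq V] {ι : Type u} {B : ι → Finset V}
  {F : Finset (Finset V)} {U : Finset V} {τ : Type*} [DecidableEq τ] {Ts : Finset τ}
  {NT : τ → Finset (Finset V)} {P : Finset (Finset (Finset V))}

/-- a leaf which is its own class has no deficiency together with every other leaf. -/
theorem dfc_own (hg : Sp.Gd F F U (slf B F) Ts NT) (hP : Sp.MinP F F U (slf B F) Ts NT P)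
    {W : Finset V} (hW : {W} ∈ P) :
    ∀ M ∈ F, M ≠ W → Sp.dfc U (slf B F) {W, M} ≤ 0 := by
  classical
  intro M hM hne
  obtain ⟨D, hD, hMD⟩ := exists_cls hP hM
  have hne' : ({W} : Finset (Finset V)) ≠ D := by
    intro h1
    rw [← h1] at hMD
    exact hne (mem_singleton.1 hMD)
  have h1 := hP.ptn.free_leaves hg (S := {{W}, D}) (by
    intro z hz
    rcases mem_insert.1 hz with h1 | h1
    · exact h1 ▸ hW
    · exact mem_singleton.1 h1 ▸ hD) (hP.pair hg hW hD hne')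
    (x := fun E => if E = {W} then W else M) (by
      intro E hE
      rcases mem_insert.1 hE with h1 | h1
      · rw [if_pos h1, h1]
        exact mem_singleton_self W
      · rw [mem_singleton.1 h1, if_neg hne'.symm]
        exact hMD)
  rwa [image_insert, image_singleton, if_pos rfl, if_neg hne'.symm] at h1

end

variable {V : Type v} [DecidableEq V] {ι : Type u} [Fintype ι] [DecidableEq ι]
  {B : ι → Finset V}

namespace Stg

variable {Q U : Finset V} {T : Finset ι} {F : Finset (Finset V)}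
  {P : Finset (Finset (Finset V))} {a : V → Finset (Finset V) → ℕ} {L : Finset V} {j : ι}

/-- the leaf of a single class. -/
theorem leafF (s : Stg B Q T U F P a) (hL : {L} ∈ P) : L ∈ F :=
  (s.part.ptn.vc _ hL).sub (mem_singleton_self L)

/-- a line triple sees leaves of two classes. -/
theorem sees_out (s : Stg B Q T U F P a) (hL : {L} ∈ P) (hj : j ∈ tl B Q T U F P) :
    ∃ p ∈ B j ∩ Q, ¬ slf B F p ⊆ {L} := by
  have _ := s.viol
  have h1 := (mem_filter.1 (mem_filter.1 hj).1).2.2 {L} hL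
  by_contra hcon
  push Not at hcon
  exact h1 (biUnion_subset.2 hcon)

/-- **the rules of the table at a single leaf**, for a line triple. -/
theorem trow (s : Stg B Q T U F P a) (hL : {L} ∈ P) (hj : j ∈ tl B Q T U F P) {x y z : V}
    (hT : B j ∩ Q = {x, y, z}) (hxy : x ≠ y) (hxz : x ≠ z) (hyz : y ≠ z) :
    TRow (dv B Q L + 1).toNat (ee B Q L) (nt B L 1) (Ez B L x).card (Ez B L y).card
      (Ez B L z).card (Ez B L y ∩ Ez B L z).card (Ez B L x ∩ Ez B L z).card
      (Ez B L x ∩ Ez B L y).card (hit B ((Q \ (B j ∩ Q)) \ L) L)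
      (¬ slf B F x ⊆ {L}) (¬ slf B F y ⊆ {L}) (¬ slf B F z ⊆ {L})
      (Abz B L {y, z}) (Abz B L {x, z}) (Abz B L {x, y}) :=
  s.viol.trow s.frm (s.tl_sub hj).1 (s.leafF hL)
    (dfc_own (s.frm.gdT (R := Rg B Q T U F)) s.part hL) hT hxy hxz hyz (s.sees_out hL hj)

/-- the hits of the remaining triples at a private single leaf. -/
theorem trs_hits (s : Stg B Q T U F P a) (hL : {L} ∈ P) (hq : aC B Q T U F P {L} = {j})
    (hK : Sp.Kin (Rg B Q T U F) (slj B Q F) {L} = ∅) :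
    ∑ k ∈ Trs B Q T (Rg B Q T U F) U F P, (jh B Q k L : ℤ) + hit B U L =
      hit B ((Q \ (B j ∩ Q)) \ L) L := by
  have hjT : j ∈ T := by
    have h1 : j ∈ aC B Q T U F P {L} := by rw [hq]; exact mem_singleton_self j
    exact (s.tl_sub (mem_filter.1 h1).1).1
  have h1 := s.frm.hit_two s.viol.reg (s.leafF hL) hjT
  have h3 := Frm.sum_T s.part (Rg_sub (B := B)) (fun j => (jC B Q j {L} : ℤ))
  have h4 : ∑ C' ∈ P, ∑ k ∈ Sp.Kin (Rg B Q T U F) (slj B Q F) C', (jC B Q k {L} : ℤ) = 0 := by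
    refine sum_eq_zero fun C' hC' => sum_eq_zero fun k hk => ?_
    by_cases hne : C' = {L}
    · rw [hne, hK] at hk
      exact absurd hk (notMem_empty _)
    · rw [s.frm.jC_out Rg_sub s.part hL hC' hne hk]
      rfl
  rw [h4, s.frm.sum_atl Rg_sub s.part hL] at h3
  have h5 : Sp.atl (Sp.T2 U (slf B F) (Rg B Q T U F) (slj B Q F) P)
      (Sp.lx U (slf B F) (slj B Q F) P) {L} = {j} := hq
  rw [h5, sum_singleton] at h3
  simp only [s.jC_one] at h3
  have h6 : ((hit B ((Q \ (B j ∩ Q)) \ L) L + jh B Q j L : ℕ) : ℤ) =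
      ((∑ j ∈ T, jh B Q j L + hit B U L : ℕ) : ℤ) := by exact_mod_cast h1
  push_cast at h6
  linarith

/-- **what a private single leaf needs.** -/
theorem ms_priv (s : Stg B Q T U F P a) (hL : {L} ∈ P) (hq : aC B Q T U F P {L} = {j})
    (ho : oj B Q U F P j = ∅) (hK : Sp.Kin (Rg B Q T U F) (slj B Q F) {L} = ∅)
    (hB : NCt B Q T U F P {L}) :
    msC 149 B Q T U F P a {L} ≤ -560 ∨
    msC 149 B Q T U F P a {L} ≤ 144 * (jh B Q j L : ℤ) - 440 - 120 * (dv B Q L + 1) -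
      5 * (hit B ((Q \ (B j ∩ Q)) \ L) L : ℤ) - 115 * (hit B U L : ℤ) := by
  have hLF := s.leafF hL
  have hjT : j ∈ T := by
    have h1 : j ∈ aC B Q T U F P {L} := by rw [hq]; exact mem_singleton_self j
    exact (s.tl_sub (mem_filter.1 h1).1).1
  have h1 := s.ms_one 149 hL
  have how : Sp.owl U (slf B F) P (lj B Q U F P) a j {L} = 0 := by
    have h2 : Sp.UU U (slf B F) P (lj B Q U F P j) = ∅ := ho
    unfold Sp.owl Sp.ld
    rw [h2, sum_empty]
  rw [hq, sum_singleton, hK, sum_empty, how] at h1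
  have h2 : ∑ k ∈ Trs B Q T (Rg B Q T U F) U F P,
      (144 * (jh B Q k L : ℤ) - Xv 149 B Q T U F P k {L}) ≤
      ∑ k ∈ Trs B Q T (Rg B Q T U F) U F P, -5 * (jh B Q k L : ℤ) := by
    refine sum_le_sum fun k hk => ?_
    have h3 := s.trs_le' hk hL hB
    rw [s.jC_one] at h3
    exact h3
  rw [← mul_sum] at h2
  have h3 := s.trs_hits hL hq hK
  obtain ⟨hld, hld5⟩ := s.ld_one hL
  obtain ⟨_, hdv, hd1⟩ := s.viol.even_dv s.frm hLF
  have h4 := s.viol.places s.frm hjT hLF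
  have h5 : ((dv B Q L + 1).toNat : ℤ) = dv B Q L + 1 := Int.toNat_of_nonneg (by omega)
  have hN := s.one hLF
  have h6 : (6 : ℤ) * (jh B Q j L + hit B ((Q \ (B j ∩ Q)) \ L) L) + 23 * ee B Q L +
      nt B L 1 ≤ 5 * (dv B Q L + 1) + 55 := by
    rw [← h5]
    unfold jh
    exact_mod_cast h4
  have h7 := hN.gn
  have h8 : (0 : ℤ) ≤ ∑ k ∈ Trs B Q T (Rg B Q T U F) U F P, (jh B Q k L : ℤ) :=
    sum_nonneg fun _ _ => by positivity
  have h9 : (0 : ℤ) ≤ ee B Q L := by positivity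
  have h10 : (0 : ℤ) ≤ jh B Q j L := by positivity
  have h11 : (0 : ℤ) ≤ hit B U L := by positivity
  have hldz : (Sp.ld (Sp.Ux U (slf B F) P) a {L} : ℤ) ≤ 5 := by exact_mod_cast hld5
  have hldw : (Sp.ld (Sp.Ux U (slf B F) P) a {L} : ℤ) = 5 ∨
      (hit B U L : ℤ) ≤ (Sp.ld (Sp.Ux U (slf B F) P) a {L} : ℤ) :=
    hld.imp_left fun h => by exact_mod_cast h
  push_cast at h1
  rcases le_or_gt (hit B U L : ℤ) 5 with h12 | h12
  · right
    rcases hldw with h13 | h13
    · rw [h13] at h1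
      linarith
    · linarith
  · left
    rcases hldw with h13 | h13
    · rw [h13] at h1
      linarith
    · exfalso
      linarith

/-- the numbers of a leaf with small value. -/
theorem small_leaf (s : Stg B Q T U F P a) (hLF : L ∈ F) (he : ee B Q L = 0) :
    ((dv B Q L + 1).toNat = 0 → L.card = 3 ∧ nt B L 1 = 1) ∧
    ((dv B Q L + 1).toNat = 2 → L.card = 1) ∧
    ((dv B Q L + 1).toNat = 4 → L.card = 3 ∧ nt B L 1 = 3) ∧
    ((dv B Q L + 1).toNat = 6 → L.card = 5 ∧ nt B L 1 = 1) := by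
  have hN := s.one hLF
  obtain ⟨pp, slot, m1, mo, n1, no, pt, f0, e0, g0, gn, hh0, p0⟩ := hN
  obtain ⟨_, hdv, hd1⟩ := s.viol.even_dv s.frm hLF
  rw [he] at hdv
  push_cast at hdv
  refine ⟨fun h => ?_, fun h => ?_, fun h => ?_, fun h => ?_⟩ <;>
    · have h1 : dv B Q L + 1 = ((dv B Q L + 1).toNat : ℤ) :=
        (Int.toNat_of_nonneg (by omega)).symm
      rw [h] at h1
      push_cast at h1
      omega

/-- a line triple has at most eight hits on a single leaf with five points and one single trace. -/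
theorem le8_five (s : Stg B Q T U F P a) (hL : {L} ∈ P) (hj : j ∈ tl B Q T U F P)
    (he : ee B Q L = 0) (h3 : L.card = 5) (hP : (dv B Q L + 1).toNat = 6) :
    jh B Q j L ≤ 8 := by
  by_contra hcon
  have hLF := s.leafF hL
  have hjT := (s.tl_sub hj).1
  obtain ⟨x, y, z, hxy, hxz, hyz, hT⟩ := card_eq_three.1 (s.frm.full hjT)
  have hR := s.trow hL hj hT hxy hxz hyz
  obtain ⟨hev, hdv, hd1⟩ := s.viol.even_dv s.frm hLF
  have h6 : cm B L = 13 := by
    have h7 := s.frm.sv_leaf hLF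
    have h8 : Pp B L = 6 := by
      rw [he] at hdv
      push_cast at hdv
      omega
    unfold Pp G at h8
    rw [h7, h3] at h8
    push_cast at h8
    omega
  have hxT : x ∈ B j ∩ Q := by rw [hT]; simp
  have hyT : y ∈ B j ∩ Q := by rw [hT]; simp
  have hzT : z ∈ B j ∩ Q := by rw [hT]; simp
  have h9 : 9 ≤ hit B (B j ∩ Q) L := by
    unfold jh at hcon
    omega
  rcases hR.sn with h10 | h10 | h10
  · refine hR.Aa0 ((s.viol.erase5 s.frm hLF h3 h6 hjT h9 hxT (hR.sa3 h10)).mono ?_) h10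
    exact insert_subset (mem_erase.2 ⟨hxy.symm, hyT⟩)
      (singleton_subset_iff.2 (mem_erase.2 ⟨hxz.symm, hzT⟩))
  · refine hR.Ab0 ((s.viol.erase5 s.frm hLF h3 h6 hjT h9 hyT (hR.sb3 h10)).mono ?_) h10
    exact insert_subset (mem_erase.2 ⟨hxy, hxT⟩)
      (singleton_subset_iff.2 (mem_erase.2 ⟨hyz.symm, hzT⟩))
  · refine hR.Ac0 ((s.viol.erase5 s.frm hLF h3 h6 hjT h9 hzT (hR.sc3 h10)).mono ?_) h10
    exact insert_subset (mem_erase.2 ⟨hxz, hxT⟩)
      (singleton_subset_iff.2 (mem_erase.2 ⟨hyz, hyT⟩))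

/-- a line triple has at most seven hits on a single leaf with three points and three single
traces. -/
theorem le7_three (s : Stg B Q T U F P a) (hL : {L} ∈ P) (hj : j ∈ tl B Q T U F P)
    (he : ee B Q L = 0) (h3 : L.card = 3) (hP : (dv B Q L + 1).toNat = 4) :
    cm B L = 9 ∧ jh B Q j L ≤ 7 := by
  have hLF := s.leafF hL
  have hjT := (s.tl_sub hj).1
  obtain ⟨hev, hdv, hd1⟩ := s.viol.even_dv s.frm hLF
  have h6 : cm B L = 9 := by
    have h7 := s.frm.sv_leaf hLF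
    have h8 : Pp B L = 4 := by
      rw [he] at hdv
      push_cast at hdv
      omega
    unfold Pp G at h8
    rw [h7, h3] at h8
    push_cast at h8
    omega
  exact ⟨h6, s.viol.le7 s.frm hjT hLF h3 h6⟩

/-- **the rows of a private single leaf**: it needs nothing, or it is one of three kinds of leaves and
the line triple has many hits. -/
theorem priv_rows (s : Stg B Q T U F P a) (hL : {L} ∈ P) (hq : aC B Q T U F P {L} = {j})
    (ho : oj B Q U F P j = ∅) (hK : Sp.Kin (Rg B Q T U F) (slj B Q F) {L} = ∅)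
    (hB : NCt B Q T U F P {L}) :
    msC 149 B Q T U F P a {L} ≤ 0 ∨ (ee B Q L = 0 ∧
    msC 149 B Q T U F P a {L} ≤ 144 * (jh B Q j L : ℤ) - 440 - 120 * (dv B Q L + 1) -
      5 * (hit B ((Q \ (B j ∩ Q)) \ L) L : ℤ) - 115 * (hit B U L : ℤ) ∧
    ((L.card = 3 ∧ nt B L 1 = 1 ∧ dv B Q L = -1 ∧ 4 ≤ jh B Q j L) ∨
    (L.card = 1 ∧ dv B Q L = 1 ∧ 3 ≤ hit B ((Q \ (B j ∩ Q)) \ L) L ∧
      (jh B Q j L = 5 ∨ jh B Q j L = 6 ∨
        (jh B Q j L = 7 ∧ hit B ((Q \ (B j ∩ Q)) \ L) L = 3))) ∨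
    (L.card = 3 ∧ nt B L 1 = 3 ∧ cm B L = 9 ∧ dv B Q L = 3 ∧ jh B Q j L = 7 ∧
      4 ≤ hit B ((Q \ (B j ∩ Q)) \ L) L))) := by
  have hLF := s.leafF hL
  have hjt : j ∈ tl B Q T U F P := by
    have h1 : j ∈ aC B Q T U F P {L} := by rw [hq]; exact mem_singleton_self j
    exact (mem_filter.1 h1).1
  have hjT := (s.tl_sub hjt).1
  rcases s.ms_priv hL hq ho hK hB with h1 | h1
  · exact Or.inl (by linarith)
  obtain ⟨x, y, z, hxy, hxz, hyz, hT⟩ := card_eq_three.1 (s.frm.full hjT)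
  have hR := s.trow hL hjt hT hxy hxz hyz
  obtain ⟨hev, hdv, hd1⟩ := s.viol.even_dv s.frm hLF
  have h5 : ((dv B Q L + 1).toNat : ℤ) = dv B Q L + 1 := Int.toNat_of_nonneg (by omega)
  have hsum : jh B Q j L = (Ez B L x).card + (Ez B L y).card + (Ez B L z).card := by
    unfold jh
    rw [hit_eq_Ez, hT, sum_insert (by simp [hxy, hxz]), sum_pair hyz]
    omega
  have hW3 := hR.W3
  have hg0 : (0 : ℤ) ≤ hit B U L := by positivity
  rcases hR.main hev with h2 | ⟨he, h2⟩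
  · left
    rw [← hsum] at h2
    have h3 : (144 : ℤ) * (jh B Q j L : ℤ) + 120 ≤ 560 + 120 * ((dv B Q L + 1).toNat : ℤ) +
        5 * (hit B ((Q \ (B j ∩ Q)) \ L) L : ℤ) := by exact_mod_cast h2
    rw [h5] at h3
    linarith
  refine Or.inr ⟨he, h1, ?_⟩
  obtain ⟨k0, k2, k4, k6⟩ := s.small_leaf hLF he
  rw [← hsum] at h2
  rcases h2 with ⟨hP, h2⟩ | ⟨hP, h2⟩ | ⟨hP, h2⟩ | ⟨hP, h2⟩
  · obtain ⟨h3, h4⟩ := k0 hP
    exact Or.inl ⟨h3, h4, by omega, h2⟩
  · refine Or.inr (Or.inl ⟨k2 hP, by omega, hW3 (by omega), ?_⟩)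
    rcases h2 with h2 | ⟨h2, -⟩ | ⟨h2, h3, -⟩
    · exact Or.inl h2
    · exact Or.inr (Or.inl h2)
    · refine Or.inr (Or.inr ⟨?_, h3⟩)
      unfold isP at h2
      omega
  · obtain ⟨h3, h4⟩ := k4 hP
    obtain ⟨h6, h10⟩ := s.le7_three hL hjt he h3 hP
    refine Or.inr (Or.inr ⟨h3, h4, h6, by omega, ?_⟩)
    rcases h2 with ⟨h2, -, h11⟩ | ⟨h2, h11, -⟩ | ⟨h2, h11, -⟩
    · exact ⟨h2, by omega⟩
    · unfold isP at h2
      exact ⟨by omega, by omega⟩
    · unfold isP at h2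
      exact ⟨by omega, by omega⟩
  · exfalso
    have h3 := s.le8_five hL hjt he (k6 hP).1 hP
    omega

end Stg

end Pool.Agent.Hyp6
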