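import Pool.Agent.Hyp6.L3L2b
import Pool.Agent.Hyp6.L3Td
import Pool.Agent.Hyp6.Gdt9

/-!
# HYP6 L3L2d: two private points with five hits each

`StgR.ha`: the rows `R2A` do not exist.
-/

set_option autoImplicit false

namespace Pool.Agent.Hyp6

open Finset Pool.Agent.Hyp5 Rt

universe u v

variable {V : Type v} [DecidableEq V] {ι : Type u} [Fintype ι] [DecidableEq ι]
  {B : ι → Finset V}

namespace StgR

variable {Q U : Finset V} {T : Finset ι} {F : Finset (Finset V)}
  {P : Finset (Finset (Finset V))} {a : V → Finset (Finset V) → ℕ} {j : ι}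

/-- **two private points with five hits each do not exist**. -/
theorem ha (s : StgR B Q T U F P a) (hga : Ga31 B Q T U F) :
    ∀ L M, Prv2 B Q T U F P j L M → R2A B Q U j L M → False := by
  classical
  intro L M h hA
  obtain ⟨h1, h2, h3, h4, h5, h6, h7, h8, h9, h10, h11⟩ := hA
  obtain ⟨x, rfl⟩ := card_eq_one.1 h1
  obtain ⟨y, rfl⟩ := card_eq_one.1 h2
  have nL := s.lnum h.l hga
  have nM := s.lnum h.m hga
  have hxF := s.toStg.leafF h.l.LP
  have hyF := s.toStg.leafF h.m.LP
  have hjT := (s.toStg.tl_sub h.l.jt).1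
  have hne : x ≠ y := fun h0 => h.ne (by rw [h0])
  have hdf := dfc_own (s.frm.gdT (R := Rg B Q T U F)) s.part h.l.LP {y} hyF
    (fun h0 => hne (singleton_injective h0).symm)
  have hset : ∀ z : V, (Q \ {z}) \ B j = (Q \ (B j ∩ Q)) \ {z} := by
    intro z
    ext v
    simp only [mem_sdiff, mem_singleton, mem_inter]
    tauto
  have w1 : 3 ≤ ow B Q j {x} := nL.W3 (by rw [h5]; decide)
  have w2 : 3 ≤ ow B Q j {y} := nM.W3 (by rw [h6]; decide)
  unfold ow at h11 w1 w2
  exact s.frm.no_A s.viol hxF hyF hne h3 h4 hjT hdf h9 h10 h7 h8 (by rw [hset]; exact w1)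
    (by rw [hset]; exact w2) (by rw [hset, hset]; exact h11)

end StgR

end Pool.Agent.Hyp6
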