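import Pool.Agent.Hyp6.L3L2b
import Pool.Agent.Hyp6.L3Dn
import Pool.Agent.Hyp6.Gdb3

/-!
# HYP6 L3L2i: rows of the line with two private leaves which do not exist
-/

set_option autoImplicit false

namespace Pool.Agent.Hyp6

open Finset Pool.Agent.Hyp5 Rt

universe u v

variable {V : Type v} [DecidableEq V] {ι : Type u} [Fintype ι] [DecidableEq ι]
  {B : ι → Finset V} {Q U : Finset V} {T : Finset ι} {F : Finset (Finset V)}
  {P : Finset (Finset (Finset V))} {a : V → Finset (Finset V) → ℕ}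

omit [Fintype ι] [DecidableEq ι] in
theorem out_eq (j : ι) (L : Finset V) : (Q \ (B j ∩ Q)) \ L = (Q \ L) \ B j := by
  ext v
  simp only [mem_sdiff, mem_inter]
  tauto

/-- the rows `X63` do not exist. -/
theorem Frm.x63 (h : Frm B Q T U F) (hv : ViolR B Q) : X63 B Q T U F := by
  intro M hM hc3 h1 hdv j hj h3 hg hW hw
  have h5 : 5 ≤ hit B ((Q \ M) \ B j) M := by
    refine h.gdb3 hv hM hc3 h1 hdv hg hj h3 ?_
    by_contra hcon
    push Not at hcon
    obtain ⟨w, hwj, hw0⟩ := hw
    have hc : (B j ∩ Q).card = 3 := h.mtp.tpk.pack.card j hj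
    have h6 : (Ez B M w).card = 0 := by
      have h7 : hit B {w} M = (Ez B M w).card := by rw [hit_eq_Ez, sum_singleton]
      rw [← h7]
      exact hw0
    have h8 : hit B (B j ∩ Q) M = ∑ v ∈ B j ∩ Q, (Ez B M v).card := hit_eq_Ez _ _
    have h9 : ∑ v ∈ B j ∩ Q, (Ez B M v).card =
        (Ez B M w).card + ∑ v ∈ (B j ∩ Q).erase w, (Ez B M v).card := by
      exact (add_sum_erase _ _ hwj).symm
    have h10 : ∑ v ∈ (B j ∩ Q).erase w, (Ez B M v).card ≤ ∑ v ∈ (B j ∩ Q).erase w, 1 :=
      sum_le_sum fun v hv => by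
        have := hcon v (mem_erase.1 hv).2
        omega
    rw [sum_const, card_erase_of_mem hwj, hc] at h10
    have h11 : hit B (B j ∩ Q) M = 3 := h3
    simp only [smul_eq_mul] at h10
    omega
  have h12 : ow B Q j M = hit B ((Q \ M) \ B j) M := by
    show hit B ((Q \ (B j ∩ Q)) \ M) M = _
    rw [out_eq]
  omega

/-- the doubled triple does not exist. -/
theorem StgR.xdb (s : StgR B Q T U F P a) : XDb B Q T U F P :=
  fun j i k0 b c d x h hc hp hg => s.no_dbl j i k0 b c d x hp.LP hp.jt h hc hg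

end Pool.Agent.Hyp6
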