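import Pool.Agent.Hyp6.L3L2
import Pool.Agent.Hyp6.L3Fpj

/-!
# HYP6 L3L2b: a line with two private single leaves, a point with six hits and the claims

The rows `R2P` and `R2D` of L3L2 are paid, if three kinds of rows do not exist: a leaf with three
points and one single trace, with three hits and at most four other hits (`X63`) or with four hits (`X4`),
and the doubled triple (`XDb`).
-/

set_option autoImplicit false

namespace Pool.Agent.Hyp6

open Finset Pool.Agent.Hyp5 Rt

universe u v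

variable {V : Type v} [DecidableEq V] {ι : Type u} [Fintype ι] [DecidableEq ι]
  {B : ι → Finset V}

/-- no leaf with three points and one single trace has three hits of a triple, at most four other hits,
none of `U`, if one point of the triple has no hit. -/
def X63 (B : ι → Finset V) (Q : Finset V) (T : Finset ι) (U : Finset V)
    (F : Finset (Finset V)) : Prop :=
  ∀ M ∈ F, M.card = 3 → nt B M 1 = 1 → dv B Q M = -1 → ∀ j ∈ T, jh B Q j M = 3 →
    hit B U M = 0 → ow B Q j M ≤ 4 → (∃ w ∈ B j ∩ Q, uh B w M = 0) → False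

/-- no private leaf with three points and one single trace has four hits of its line triple, at most two
of `U`, if the triple has at least four hits elsewhere. -/
def X4 (B : ι → Finset V) (Q : Finset V) (T : Finset ι) (U : Finset V)
    (F : Finset (Finset V)) (P : Finset (Finset (Finset V))) : Prop :=
  ∀ j L M, Prv2 B Q T U F P j L M → M.card = 3 → nt B M 1 = 1 → dv B Q M = -1 →
    jh B Q j M = 4 → hit B U M ≤ 2 → 4 ≤ jh B Q j L → False

/-- no doubled triple. -/
def XDb (B : ι → Finset V) (Q : Finset V) (T : Finset ι) (U : Finset V)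
    (F : Finset (Finset V)) (P : Finset (Finset (Finset V))) : Prop :=
  ∀ j i k0 a b c x, Pex3 B Q T U F j i k0 a b c x → c ∈ B k0 → Prv1 B Q T U F P j {x} →
    hit B U {x} = 0 → False

namespace Stg

variable {Q U : Finset V} {T : Finset ι} {F : Finset (Finset V)}
  {P : Finset (Finset (Finset V))} {a : V → Finset (Finset V) → ℕ} {L : Finset V} {j : ι}

/-- **what a private single leaf needs**, if the remaining triples pay `X` more. -/
theorem ms_priv_more (s : Stg B Q T U F P a) (hL : {L} ∈ P) (hq : aC B Q T U F P {L} = {j})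
    (ho : oj B Q U F P j = ∅) (hK : Sp.Kin (Rg B Q T U F) (slj B Q F) {L} = ∅) {X : ℤ}
    (h2 : ∑ k ∈ Trs B Q T (Rg B Q T U F) U F P,
      (144 * (jh B Q k L : ℤ) - Xv 149 B Q T U F P k {L}) ≤
      -5 * ∑ k ∈ Trs B Q T (Rg B Q T U F) U F P, (jh B Q k L : ℤ) - X) (hX : 0 ≤ X) :
    msC 149 B Q T U F P a {L} ≤ -560 ∨
    msC 149 B Q T U F P a {L} ≤ 144 * (jh B Q j L : ℤ) - 440 - 120 * (dv B Q L + 1) -
      5 * (hit B ((Q \ (B j ∩ Q)) \ L) L : ℤ) - 115 * (hit B U L : ℤ) - X := by
  have hLF := s.leafF hL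
  have hjT : j ∈ T := by
    have h1 : j ∈ aC B Q T U F P {L} := by rw [hq]; exact mem_singleton_self j
    exact (s.tl_sub (mem_filter.1 h1).1).1
  have h1 := s.ms_one 149 hL
  have how : Sp.owl U (slf B F) P (lj B Q U F P) a j {L} = 0 := by
    have h2 : Sp.UU U (slf B F) P (lj B Q U F P j) = ∅ := ho
    unfold Sp.owl Sp.ld
    rw [h2, sum_empty]
  rw [hq, sum_singleton, hK, sum_empty, how] at h1
  have h3 := s.trs_hits hL hq hK
  obtain ⟨hld, hld5⟩ := s.ld_one hL
  obtain ⟨_, hdv, hd1⟩ := s.viol.even_dv s.frm hLF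
  have h4 := s.viol.places s.frm hjT hLF
  have h5 : ((dv B Q L + 1).toNat : ℤ) = dv B Q L + 1 := Int.toNat_of_nonneg (by omega)
  have hN := s.one hLF
  have h6 : (6 : ℤ) * (jh B Q j L + hit B ((Q \ (B j ∩ Q)) \ L) L) + 23 * ee B Q L +
      nt B L 1 ≤ 5 * (dv B Q L + 1) + 55 := by
    rw [← h5]
    unfold jh
    exact_mod_cast h4
  have h7 := hN.gn
  have h8 : (0 : ℤ) ≤ ∑ k ∈ Trs B Q T (Rg B Q T U F) U F P, (jh B Q k L : ℤ) :=
    sum_nonneg fun _ _ => by positivity
  have h9 : (0 : ℤ) ≤ ee B Q L := by positivity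
  have h10 : (0 : ℤ) ≤ jh B Q j L := by positivity
  have h11 : (0 : ℤ) ≤ hit B U L := by positivity
  have hldz : (Sp.ld (Sp.Ux U (slf B F) P) a {L} : ℤ) ≤ 5 := by exact_mod_cast hld5
  have hldw : (Sp.ld (Sp.Ux U (slf B F) P) a {L} : ℤ) = 5 ∨
      (hit B U L : ℤ) ≤ (Sp.ld (Sp.Ux U (slf B F) P) a {L} : ℤ) :=
    hld.imp_left fun h => by exact_mod_cast h
  push_cast at h1
  rcases le_or_gt (hit B U L : ℤ) 5 with h12 | h12
  · right
    rcases hldw with h13 | h13
    · rw [h13] at h1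
      linarith
    · linarith
  · left
    rcases hldw with h13 | h13
    · rw [h13] at h1
      linarith
    · exfalso
      linarith

end Stg

namespace StgR

variable {Q U : Finset V} {T : Finset ι} {F : Finset (Finset V)}
  {P : Finset (Finset (Finset V))} {a : V → Finset (Finset V) → ℕ} {L M : Finset V} {j : ι}

/-- a private single leaf with a remaining triple which pays `80` more. -/
theorem ms_more (s : StgR B Q T U F P a) (h : Prv1 B Q T U F P j L)
    (hl : ∃ l ∈ Trs B Q T (Rg B Q T U F) U F P,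
      144 * (jC B Q l {L} : ℤ) - Xv 149 B Q T U F P l {L} ≤ -5 * (jC B Q l {L} : ℤ) - 80) :
    msC 149 B Q T U F P a {L} ≤ -560 ∨
    msC 149 B Q T U F P a {L} ≤ 144 * (jh B Q j L : ℤ) - 440 - 120 * (dv B Q L + 1) -
      5 * (ow B Q j L : ℤ) - 115 * (hit B U L : ℤ) - 80 := by
  obtain ⟨l, hl, h1⟩ := hl
  refine s.toStg.ms_priv_more h.LP h.aL h.oj h.kL ?_ (by norm_num)
  rw [mul_sum, ← add_sum_erase _ _ hl, ← add_sum_erase _ _ hl]
  have h2 : ∑ k ∈ (Trs B Q T (Rg B Q T U F) U F P).erase l,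
      (144 * (jh B Q k L : ℤ) - Xv 149 B Q T U F P k {L}) ≤
      ∑ k ∈ (Trs B Q T (Rg B Q T U F) U F P).erase l, -5 * (jh B Q k L : ℤ) := by
    refine sum_le_sum fun k hk => ?_
    have h3 := s.toStg.trs_le' (mem_of_mem_erase hk) h.LP h.nL
    rw [s.toStg.jC_one] at h3
    exact h3
  rw [s.toStg.jC_one] at h1
  linarith

/-- the numbers of the rows of a point with six hits. -/
theorem _root_.Pool.Agent.Hyp6.six_num {mL mM t X : ℤ} {W g n' W' g' P' : ℕ}
    (hL : mL ≤ -560 ∨ mL ≤ 184 - 5 * (W : ℤ) - 115 * (g : ℤ) - X)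
    (hM : mM ≤ -560 ∨ mM ≤ 144 * (n' : ℤ) - 440 - 120 * (P' : ℤ) - 5 * (W' : ℤ) -
      115 * (g' : ℤ)) (hW : 3 ≤ W) (hn : n' = 3 ∨ n' = 4) (hW' : 2 ≤ W')
    (hW3 : n' = 3 ∨ 1 ≤ P' → 3 ≤ W') (hP : P' = 0 ∨ 2 ≤ P') (ht : 0 ≤ t) (hX : 0 ≤ X)
    (hg : g = 0 → 80 ≤ t + X) (h3 : P' = 0 → n' = 3 → g = 0 → g' = 0 → 8 ≤ W + W')
    (h4 : P' = 0 → n' = 4 → 3 ≤ g') : mL + mM ≤ 200 - 16 * (6 + (n' : ℤ)) + t := by
  rcases hn with rfl | rfl
  · have h5 := hW3 (Or.inl rfl)
    clear h4 hW3
    rcases hP with rfl | hP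
    · rcases Nat.eq_zero_or_pos g with rfl | hg1
      · have h6 := hg rfl
        rcases Nat.eq_zero_or_pos g' with rfl | hg2
        · have h7 := h3 rfl rfl rfl rfl
          clear h3 hg
          rcases hL with hL | hL <;> rcases hM with hM | hM <;> omega
        · clear h3 hg
          rcases hL with hL | hL <;> rcases hM with hM | hM <;> omega
      · clear h3 hg
        rcases hL with hL | hL <;> rcases hM with hM | hM <;> omega
    · clear h3 hg
      rcases hL with hL | hL <;> rcases hM with hM | hM <;> omega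
  · clear h3
    rcases hP with rfl | hP
    · have h5 := h4 rfl rfl
      clear h4 hW3 hg
      rcases hL with hL | hL <;> rcases hM with hM | hM <;> omega
    · have h5 := hW3 (Or.inr (by omega))
      clear h4 hW3
      rcases Nat.eq_zero_or_pos g with rfl | hg1
      · have h6 := hg rfl
        clear hg
        rcases hL with hL | hL <;> rcases hM with hM | hM <;> omega
      · clear hg
        rcases hL with hL | hL <;> rcases hM with hM | hM <;> omega

/-- the pattern of a private point with six hits and at least three hits on the other leaf. -/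
theorem six_pex (s : StgR B Q T U F P a) {x : V} (h : Prv2 B Q T U F P j {x} M)
    (h6 : jh B Q j {x} = 6) (h3 : 3 ≤ jh B Q j M) :
    jh B Q j M ≤ 4 ∧ ∃ (i k0 : ι) (a b c : V), Pex3 B Q T U F j i k0 a b c x ∧
      a ∈ B j ∩ Q ∧ uh B a M = 0 := by
  have hj := h.l.jt
  have hjT := (s.toStg.tl_sub hj).1
  have hx : {x} ∈ F := s.toStg.leafF h.l.LP
  have hMF := s.toStg.leafF h.m.LP
  have hxD : x ∈ Dp B Q T := s.frm.FD hx (mem_singleton_self x)
  have hxQ : x ∈ Q := Frm.DQ hxD
  have hfree := Pool.Agent.Hyp6.free_own (s.frm.gdT (R := Rg B Q T U F)) s.part h.l.LP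
  have htw : ∀ p ∈ B j ∩ Q, (univ.filter fun k => x ∈ B k ∧ p ∈ B k).card ≤ 3 := by
    intro p hp
    refine s.viol.twin hxQ (mem_inter.1 hp).2 ?_
    rintro rfl
    exact Frm.T_notD (Q := Q) hjT (mem_inter.1 hp).1 hxD
  have h4 : jh B Q j M ≤ ∑ L ∈ F.erase {x}, jh B Q j L :=
    single_le_sum (f := fun L => jh B Q j L) (fun _ _ => Nat.zero_le _)
      (mem_erase.2 ⟨h.ne.symm, hMF⟩)
  rcases s.mtr.toMTQ.point_main3 s.viol.reg hjT hx hfree htw (by unfold jh at h6; omega) with
    h1 | ⟨_, i, k0, a, b, c, h2, h5⟩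
  · have h1' : ∑ L ∈ F.erase {x}, jh B Q j L ≤ 2 := h1
    omega
  · have h5' : ∑ L ∈ F.erase {x}, jh B Q j L =
      mh B b ((F.erase {x}).biUnion id) + mh B c ((F.erase {x}).biUnion id) := h5
    have h7 := h2.hm4
    have haj : a ∈ B j ∩ Q := by rw [h2.px.hjQ]; simp
    refine ⟨by omega, i, k0, a, b, c, h2, haj, uh_zero hMF (s.frm.T_notin hjT haj hMF) ?_⟩
    intro h8
    obtain ⟨_, y, hy, hay⟩ := mem_slf.1 h8
    exact h2.px.a_leaf hMF h.ne.symm hy hay

/-- **the rows of a private point with six hits are paid**. -/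
theorem l2_six (s : StgR B Q T U F P a) (h : Prv2 B Q T U F P j L M) (hga : Ga31 B Q T U F)
    (x63 : X63 B Q T U F) (x4 : X4 B Q T U F P) (xdb : XDb B Q T U F P)
    (hc : ncl B Q T U F P j = 0) (hr : R2P B Q j L M) :
    msC 149 B Q T U F P a {L} + msC 149 B Q T U F P a {M} ≤
      8 * sT B Q T U F 15 j + tF B Q T U F P j - 1120 := by
  obtain ⟨r1, r2, r3, r4, r5⟩ := hr
  obtain ⟨x, rfl⟩ := card_eq_one.1 r1
  have hj := h.l.jt
  have hjT := (s.toStg.tl_sub hj).1
  have hMF := s.toStg.leafF h.m.LP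
  obtain ⟨h4, i, k0, a', b', c', hpex, haj, ha0⟩ := s.six_pex h r4 r5
  have nL := s.lnum h.l hga
  have nM := s.lnum h.m hga
  have d2 := (s.viol.even_dv s.frm hMF).2.2
  have ht : 0 ≤ tF B Q T U F P j := by
    have h3 := Stg.tF_ge (B := B) (Q := Q) (T := T) (U := U) (F := F) (P := P) j
    rw [hc] at h3
    simpa using h3
  have hP2 : (dv B Q {x} + 1).toNat = 2 := by omega
  have hW := nL.W3 (by omega)
  rw [s.rhs2 h, r4]
  -- the point
  have hLms : msC 149 B Q T U F P a {{x}} ≤ -560 ∨ msC 149 B Q T U F P a {{x}} ≤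
      184 - 5 * (ow B Q j {x} : ℤ) - 115 * (hit B U {x} : ℤ) := by
    rcases nL.ms1 with h5 | h5
    · exact Or.inl h5
    · right
      rw [hP2, r4] at h5
      push_cast at h5
      linarith
  -- the other leaf
  have hP : (dv B Q M + 1).toNat = 0 ∨ 2 ≤ (dv B Q M + 1).toNat := by
    have := nM.ev
    omega
  have hee : (dv B Q M + 1).toNat = 0 → ee B Q M = 0 := by
    intro h5
    by_contra h6
    have h7 := nM.pl
    have h8 := nM.n11
    have h10 := nM.W2
    rw [h5] at h7
    by_cases h9 : jh B Q j M = 3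
    · have := nM.W3' (by omega) (by omega)
      omega
    · omega
  have k3 : (dv B Q M + 1).toNat = 0 → jh B Q j M = 3 → hit B U {x} = 0 → hit B U M = 0 →
      8 ≤ ow B Q j {x} + ow B Q j M := by
    intro h5 h6 _ h8
    by_contra h9
    obtain ⟨h10, h11⟩ := (s.toStg.small_leaf hMF (hee h5)).1 h5
    exact x63 M hMF h10 h11 (by omega) j hjT h6 h8 (by omega) ⟨a', haj, ha0⟩
  have k4 : (dv B Q M + 1).toNat = 0 → jh B Q j M = 4 → 3 ≤ hit B U M := by
    intro h5 h6
    by_contra h9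
    obtain ⟨h10, h11⟩ := (s.toStg.small_leaf hMF (hee h5)).1 h5
    exact x4 j {x} M h h10 h11 (by omega) h6 (by omega) (by omega)
  have hsum : jh B Q j M ≤ ∑ L ∈ F.erase {x}, jh B Q j L :=
    single_le_sum (f := fun L => jh B Q j L) (fun _ _ => Nat.zero_le _)
      (mem_erase.2 ⟨h.ne.symm, hMF⟩)
  by_cases hg : hit B U {x} = 0
  · -- the cases of a point with six hits
    obtain ⟨_, h5⟩ := s.six_cases h.l.LP h.l.aL h.l.kL h.l.nL hg (by omega)
    rcases h5 with ⟨h5, _⟩ | ⟨h5, _⟩ | ⟨_, _, _, h5⟩ | ⟨h5, _⟩ | ⟨_, _, h5⟩ |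
      ⟨_, _, i2, k2, a2, b2, c2, h5, h6⟩
    · omega
    · omega
    · exact six_num (X := 0) (by simpa using hLms) nM.ms1 hW (by omega) nM.W2 (fun h6 => by
        rcases h6 with h6 | h6
        · exact nM.W3' (by omega) (by omega)
        · exact nM.W3 h6) hP ht le_rfl (fun _ => by omega) k3 k4
    · omega
    · have h6 := s.ms_more h.l h5
      rw [r4] at h6
      refine six_num (X := 80) ?_ nM.ms1 hW (by omega) nM.W2 (fun h6 => by
        rcases h6 with h6 | h6
        · exact nM.W3' (by omega) (by omega)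
        · exact nM.W3 h6) hP ht (by norm_num) (fun _ => by omega) k3 k4
      rcases h6 with h6 | h6
      · exact Or.inl h6
      · right
        rw [r3] at h6
        push_cast at h6
        linarith
    · exact (xdb j i2 k2 a2 b2 c2 x h5 h6 h.l hg).elim
  · exact six_num (X := 0) (by simpa using hLms) nM.ms1 hW (by omega) nM.W2 (fun h6 => by
      rcases h6 with h6 | h6
      · exact nM.W3' (by omega) (by omega)
      · exact nM.W3 h6) hP ht le_rfl (fun h6 => absurd h6 hg) k3 k4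

/-- **the rows with one claim are paid**. -/
theorem l2_don (s : StgR B Q T U F P a) (h : Prv2 B Q T U F P j L M) (hga : Ga31 B Q T U F)
    (x63 : X63 B Q T U F) {p q v : V} (hr : R2D B Q T U F P j L M p q v) :
    msC 149 B Q T U F P a {L} + msC 149 B Q T U F P a {M} ≤
      8 * sT B Q T U F 15 j + tF B Q T U F P j - 1120 := by
  obtain ⟨r0, r1, r2, r3, r4, r5, r6, r7, r8, r9, r10, r11, r12, hB, _⟩ := hr
  obtain ⟨x, rfl⟩ := card_eq_one.1 r1
  have hj := h.l.jt
  have hjT := (s.toStg.tl_sub hj).1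
  have hMF := s.toStg.leafF h.m.LP
  have nL := s.lnum h.l hga
  have nM := s.lnum h.m hga
  have hP2 : (dv B Q {x} + 1).toNat = 2 := by omega
  have hP0 : (dv B Q M + 1).toNat = 0 := by omega
  have hW := nL.W3 (by omega)
  have hW' := nM.W3' (by omega) (by omega)
  have ht := Stg.tF_ge (B := B) (Q := Q) (T := T) (U := U) (F := F) (P := P) j
  rw [r0] at ht
  push_cast at ht
  have hsum : jh B Q j M ≤ ∑ L ∈ F.erase {x}, jh B Q j L :=
    single_le_sum (f := fun L => jh B Q j L) (fun _ _ => Nat.zero_le _)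
      (mem_erase.2 ⟨h.ne.symm, hMF⟩)
  by_cases h3 : jh B Q j M = 3
  · -- five hits at the point, three at the other leaf
    exfalso
    have hee : ee B Q M = 0 := by
      by_contra h6
      have h7 := nM.pl
      have h8 := nM.n11
      rw [hP0] at h7
      omega
    obtain ⟨h10, h11⟩ := (s.toStg.small_leaf hMF hee).1 hP0
    have hpT : p ∈ B j ∩ Q := by rw [hB.eq]; simp
    refine x63 M hMF h10 h11 r4 j hjT h3 r12 (by omega) ⟨p, hpT, ?_⟩
    exact uh_zero hMF (s.frm.T_notin hjT hpT hMF) fun h1 => h.ne (mem_singleton.1 (hB.sa h1)).symm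
  · -- six hits at the point, two at the other leaf
    have h2 : jh B Q j M = 2 := by omega
    have h6 : jh B Q j {x} = 6 := by omega
    rw [s.rhs2 h, h6, h2]
    have hMms := nM.ms1
    rw [hP0, h2, r12] at hMms
    obtain ⟨_, h5⟩ := s.six_cases h.l.LP h.l.aL h.l.kL h.l.nL r11 (by omega)
    rcases h5 with ⟨_, h5⟩ | ⟨_, h5⟩ | ⟨_, _, h5, _⟩ | ⟨_, _, h5⟩ | ⟨_, _, h5⟩ | ⟨h5, _⟩
    · omega
    · omega
    · omega
    · rw [r0] at h5
      have hLms := nL.ms1
      rw [hP2, h6, r11] at hLms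
      push_cast at hLms hMms h5 ⊢
      clear nL nM ht
      rcases hLms with hLms | hLms <;> rcases hMms with hMms | hMms <;> omega
    · have hLms := s.ms_more h.l h5
      rw [h6, r11, r3] at hLms
      push_cast at hLms hMms ⊢
      clear nL nM
      rcases hLms with hLms | hLms <;> rcases hMms with hMms | hMms <;> omega
    · omega

/-- **the line with two private single leaves is paid**, if the rows `R2A`, `R2S` and the rows of
`X63`, `X4`, `XDb` do not exist. -/
theorem l2_single (s : StgR B Q T U F P a) (h : Prv2 B Q T U F P j L M) (hga : Ga31 B Q T U F)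
    (x63 : X63 B Q T U F) (x4 : X4 B Q T U F P) (xdb : XDb B Q T U F P)
    (HA : ∀ L M, Prv2 B Q T U F P j L M → R2A B Q U j L M → False)
    (HS : ∀ L, Prv1 B Q T U F P j L → R2S B Q U j L → False) :
    msC 149 B Q T U F P a {L} + msC 149 B Q T U F P a {M} ≤
      8 * sT B Q T U F 15 j + tF B Q T U F P j - 1120 := by
  refine s.l2_pay h hga (fun L M h1 _ h2 => HA L M h1 h2) ?_
    (fun L M h1 h2 h3 => s.l2_six h1 hga x63 x4 xdb h2 h3) (fun L h1 _ h2 => HS L h1 h2)
    (fun L M p q v h1 h2 => s.l2_don h1 hga x63 h2)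
  intro L M h1 _ h2
  obtain ⟨r1, r2, r3, r4, r5, r6, r7, r8, r9, r10, r11, r12⟩ := h2
  exact (x4 j L M h1 r2 r3 r7 r9 (by omega) (by omega)).elim

/-- a private class with one leaf on a line with two classes. -/
theorem prv1_of (s : StgR B Q T U F P a) {C D : Finset (Finset V)} (hj : j ∈ tl B Q T U F P)
    (hCD : C ≠ D) (hl : lj B Q U F P j = {C, D}) (hC : aC B Q T U F P C = {j})
    (kC : KC B Q T U F C = ∅) (nC : NCt B Q T U F P C) (h1 : C.card = 1) :
    ∃ L, C = {L} ∧ Prv1 B Q T U F P j L := by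
  obtain ⟨L, rfl⟩ := card_eq_one.1 h1
  refine ⟨L, rfl, ?_, hj, hC, ?_, kC, nC⟩
  · exact s.lnf.sub j hj (by rw [hl]; simp)
  · have h2 : (lj B Q U F P j).card = (oj B Q U F P j).card + 2 := s.lnf.card j hj
    rw [hl, card_pair hCD] at h2
    exact card_eq_zero.1 (by omega)

/-- **the line with two private single leaves**, in the form of the last step. -/
theorem l2_line (s : StgR B Q T U F P a) {C D : Finset (Finset V)} (hj : j ∈ tl B Q T U F P)
    (hCD : C ≠ D) (hl : lj B Q U F P j = {C, D}) (hC : aC B Q T U F P C = {j})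
    (hD : aC B Q T U F P D = {j}) (kC : KC B Q T U F C = ∅) (kD : KC B Q T U F D = ∅)
    (nC : NCt B Q T U F P C) (nD : NCt B Q T U F P D) (c1 : C.card = 1) (d1 : D.card = 1)
    (hga : Ga31 B Q T U F) (x63 : X63 B Q T U F) (x4 : X4 B Q T U F P) (xdb : XDb B Q T U F P)
    (HA : ∀ L M, Prv2 B Q T U F P j L M → R2A B Q U j L M → False)
    (HS : ∀ L, Prv1 B Q T U F P j L → R2S B Q U j L → False) :
    ndF B Q T U F P a C + ndF B Q T U F P a D ≤
      8 * sT B Q T U F 15 j + tF B Q T U F P j - 1120 := by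
  obtain ⟨L, rfl, h1⟩ := s.prv1_of hj hCD hl hC kC nC c1
  obtain ⟨M, rfl, h2⟩ := s.prv1_of hj hCD.symm (by rw [hl, pair_comm]) hD kD nD d1
  have h3 : Prv2 B Q T U F P j L M := ⟨h1, h2, fun he => hCD (by rw [he]), hl⟩
  have h4 := s.l2_single h3 hga x63 x4 xdb HA HS
  rw [ndF, ndF, s.toStg.ndC_eq kC, s.toStg.ndC_eq kD]
  exact h4

end StgR

end Pool.Agent.Hyp6
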