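import Pool.Agent.Hyp6.L3P8d
import Pool.Agent.Hyp6.L3L2b
import Pool.Agent.Hyp6.Gdw2

/-!
# HYP6 L3P8e: four hits on a leaf of type (3;1) in the setting

`V400`, `V310`: the two placements of a triple with four hits on a leaf of type (3;1) which are killed by
the tables. `StgR.row31`: without these, a triple with four hits on a leaf of type (3;1) which is its own
class has at most three hits on the other leaves. `StgR.x4_of`: `X4`.
-/

set_option autoImplicit false

namespace Pool.Agent.Hyp6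

open Finset Pool.Agent.Hyp5 Rt

universe u v

variable {V : Type v} [DecidableEq V] {ι : Type u} [Fintype ι] [DecidableEq ι] {B : ι → Finset V}

/-- the four vectors of a triple with four hits on a leaf of type (3;1). -/
def G4v (B : ι → Finset V) (Q : Finset V) (T : Finset ι) (U : Finset V)
    (F : Finset (Finset V)) : Prop :=
  ∀ L ∈ F, L.card = 3 → nt B L 1 = 1 → dv B Q L = -1 → hit B U L ≤ 2 → ∀ j ∈ T,
    4 ≤ jh B Q j L → ∃ hT hW ct, Lbl B Q L j hT hW ct ∧ hW = [1, 1, 1, 1, 1] ∧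
      (hT = [4, 0, 0] ∨ hT = [3, 1, 0] ∨ hT = [2, 2, 0] ∨ hT = [2, 1, 1])

/-- no point of a triple has four hits on a leaf of type (3;1). -/
def V400 (B : ι → Finset V) (Q : Finset V) (T : Finset ι) (U : Finset V)
    (F : Finset (Finset V)) : Prop :=
  ∀ L ∈ F, L.card = 3 → nt B L 1 = 1 → dv B Q L = -1 → hit B U L ≤ 2 → ∀ j ∈ T, ∀ ct,
    Lbl B Q L j [4, 0, 0] [1, 1, 1, 1, 1] ct → False

/-- no point of a triple has three hits on a leaf of type (3;1) on blocks with the point of the single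
block while another point of the triple lies on the single block. -/
def V310 (B : ι → Finset V) (Q : Finset V) (T : Finset ι) (U : Finset V)
    (F : Finset (Finset V)) : Prop :=
  ∀ L ∈ F, L.card = 3 → nt B L 1 = 1 → dv B Q L = -1 → hit B U L ≤ 2 → ∀ j ∈ T, ∀ ct,
    Lbl B Q L j [3, 1, 0] [1, 1, 1, 1, 1] ct → ∀ s, (B s ∩ L).card = 1 → ct 1 ∈ B s →
    (∀ k, ct 0 ∈ B k → (B k ∩ L).Nonempty → (B k ∩ L).card = 2 ∧ B s ∩ L ⊆ B k) → False

namespace StgR

variable {Q U : Finset V} {T : Finset ι} {F : Finset (Finset V)}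
  {P : Finset (Finset (Finset V))} {a : V → Finset (Finset V) → ℕ} {L : Finset V} {j : ι}

/-- **a triple with four hits on a leaf of type (3;1)** which is its own class has at most three other
hits. -/
theorem row31 (s : StgR B Q T U F P a) (g4 : G4v B Q T U F) (v4 : V400 B Q T U F)
    (v3 : V310 B Q T U F) (hL : {L} ∈ P) (hj : j ∈ T) (hc3 : L.card = 3) (h1 : nt B L 1 = 1)
    (hdv : dv B Q L = -1) (hg : hit B U L ≤ 2) (h4 : 4 ≤ jh B Q j L) :
    ∑ C ∈ F.erase L, jh B Q j C ≤ 3 := by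
  by_contra hcon
  have hLF := s.toStg.leafF hL
  have hfree := s.toStg.free_own (s.toStg.own_par hL)
  obtain ⟨hT, hW, ct, hl, rfl, hvec⟩ := g4 L hLF hc3 h1 hdv hg j hj h4
  have hsT := hl.sumT
  have hs4 : hit B (B j ∩ Q) L = 4 := by
    rw [← hsT]
    rcases hvec with rfl | rfl | rfl | rfl <;> rfl
  obtain ⟨hcm, hrho, _, _⟩ := s.frm.leaf31 s.viol hLF hc3 h1
  have hLQ := s.frm.FQ hLF
  obtain ⟨m, p, q, sb, h31⟩ := exists_t31 (s.viol.reg.mono hLQ) (s.viol.tr.mono hLQ) hc3 hcm hrho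
  have hN : MTN B Q T U F := s.mtr.toMTQ.toMTN
  obtain ⟨x, hx, hc⟩ := hN.row31 s.viol hj hLF hfree h31 (by omega) hs4 (by omega)
  obtain ⟨a0, ha0, hxa⟩ := (hl.trip x).1 hx
  have hE0 := hl.hits a0 (by
    have : ([1, 1, 1, 1, 1] : List ℕ).length = 5 := rfl
    omega)
  rw [hxa] at hE0
  have h3 : 3 ≤ (Ez B L x).card := by
    rcases hc with hc | hc
    · omega
    · exact hc.1
  rw [hE0] at h3
  rcases hvec with rfl | rfl | rfl | rfl
  · exact v4 L hLF hc3 h1 hdv hg j hj ct hl
  · have ha : a0 = 0 := by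
      rcases (by omega : a0 = 0 ∨ a0 = 1 ∨ a0 = 2) with rfl | rfl | rfl
      · rfl
      · simp at h3
      · simp at h3
    subst ha
    rcases hc with hc | ⟨_, hk, y, hy, hyx, hys⟩
    · rw [hE0] at hc
      simp at hc
    · have hms : B sb ∩ L = {m} := h31.tr
      have hy1 : ct 1 ∈ B sb := by
        obtain ⟨b0, hb0, hyb⟩ := (hl.trip y).1 hy
        rcases (by omega : b0 = 0 ∨ b0 = 1 ∨ b0 = 2) with rfl | rfl | rfl
        · exact absurd (hyb.symm.trans hxa) hyx
        · rw [hyb]; exact hys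
        · exfalso
          have h5 := hl.hits 2 (by
            have : ([1, 1, 1, 1, 1] : List ℕ).length = 5 := rfl
            omega)
          rw [hyb] at h5
          have h6 : sb ∈ Ez B L y := mem_Ez.2 ⟨hys, by rw [hms]; simp⟩
          have h7 := card_pos.2 ⟨sb, h6⟩
          rw [h5] at h7
          simp at h7
      refine v3 L hLF hc3 h1 hdv hg j hj ct hl sb (by rw [hms]; simp) hy1 fun k hk0 hkL => ?_
      rw [hxa] at hk0
      obtain ⟨k1, k2⟩ := hk k hk0 hkL
      refine ⟨k1, ?_⟩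
      rw [hms, singleton_subset_iff]
      exact k2
  · exfalso
    rcases (by omega : a0 = 0 ∨ a0 = 1 ∨ a0 = 2) with rfl | rfl | rfl <;> simp at h3
  · exfalso
    rcases (by omega : a0 = 0 ∨ a0 = 1 ∨ a0 = 2) with rfl | rfl | rfl <;> simp at h3

/-- no private leaf of type (3;1) with four hits of its line triple and four hits elsewhere. -/
theorem x4_of (s : StgR B Q T U F P a) (g4 : G4v B Q T U F) (v4 : V400 B Q T U F)
    (v3 : V310 B Q T U F) : X4 B Q T U F P := by
  intro j L M h hc3 h1 hdv h4 hg hL4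
  have h5 := s.row31 g4 v4 v3 h.m.LP (s.toStg.tl_sub h.m.jt).1 hc3 h1 hdv hg (by omega)
  have h6 : jh B Q j L ≤ ∑ C ∈ F.erase M, jh B Q j C :=
    single_le_sum (f := fun C => jh B Q j C) (fun _ _ => Nat.zero_le _)
      (mem_erase.2 ⟨h.ne, s.toStg.leafF h.l.LP⟩)
  omega

end StgR

end Pool.Agent.Hyp6
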