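import Pool.Agent.Hyp6.L3Xc
import Pool.Agent.Hyp6.L3Vc
import Pool.Agent.Hyp6.InsX.B01
import Pool.Agent.Hyp6.InsX.B02
import Pool.Agent.Hyp6.InsX.B03
import Pool.Agent.Hyp6.InsX.B04
import Pool.Agent.Hyp6.InsX.B05
import Pool.Agent.Hyp6.InsX.B06
import Pool.Agent.Hyp6.InsX.B07
import Pool.Agent.Hyp6.InsX.B08
import Pool.Agent.Hyp6.InsX.B09
import Pool.Agent.Hyp6.InsX.B10
import Pool.Agent.Hyp6.InsX.B11
import Pool.Agent.Hyp6.InsX.B12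
import Pool.Agent.Hyp6.InsX.B13
import Pool.Agent.Hyp6.InsX.B14
import Pool.Agent.Hyp6.InsX.B15
import Pool.Agent.Hyp6.InsX.B16
import Pool.Agent.Hyp6.InsX.B17
import Pool.Agent.Hyp6.InsX.B18
import Pool.Agent.Hyp6.InsX.B19
import Pool.Agent.Hyp6.InsX.B20
import Pool.Agent.Hyp6.InsX.B21
import Pool.Agent.Hyp6.InsX.B22
import Pool.Agent.Hyp6.InsX.B23
import Pool.Agent.Hyp6.InsX.B24
import Pool.Agent.Hyp6.InsX.C03
import Pool.Agent.Hyp6.InsX.C04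

/-!
# HYP6 L3Xd: leaves with three points and nine blocks: at most six hits

`Frm.no7`: if `U` has at most two hits on a leaf of type (3;3), every triple has at most six hits on it.
-/

set_option autoImplicit false
set_option maxRecDepth 100000

namespace Pool.Agent.Hyp6

open Finset Pool.Agent.Hyp5 Gdx Rup

universe u v

theorem no33a (V : Type v) [DecidableEq V] (ι : Type u) [Fintype ι] [DecidableEq ι] :
    ∀ p ∈ need33, NoX V ι 3 2 13 13 z33a p :=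
  List.forall_mem_cons.2 ⟨Gdx.G33a_322_u11111.no V ι,
  List.forall_mem_cons.2 ⟨Gdx.G33a_322_u2111.no V ι,
  List.forall_mem_cons.2 ⟨Gdx.G33a_322_u221.no V ι,
  List.forall_mem_cons.2 ⟨Gdx.G33a_322_u32.no V ι,
  List.forall_mem_cons.2 ⟨Gdx.G33a_322_u41.no V ι,
  List.forall_mem_cons.2 ⟨Gdx.G33a_322_u5.no V ι,
  List.forall_mem_cons.2 ⟨Gdx.G33a_331_u11111.no V ι,
  List.forall_mem_cons.2 ⟨Gdx.G33a_331_u2111.no V ι,
  List.forall_mem_cons.2 ⟨Gdx.G33a_331_u221.no V ι,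
  List.forall_mem_cons.2 ⟨Gdx.G33a_331_u311.no V ι,
  List.forall_mem_cons.2 ⟨Gdx.G33a_331_u32.no V ι,
  List.forall_mem_cons.2 ⟨Gdx.G33a_331_u41.no V ι,
  List.forall_mem_cons.2 ⟨Gdx.G33a_331_u5.no V ι,
  List.forall_mem_cons.2 ⟨Gdx.G33a_421_u11111.no V ι,
  List.forall_mem_cons.2 ⟨Gdx.G33a_421_u2111.no V ι,
  List.forall_mem_cons.2 ⟨Gdx.G33a_421_u221.no V ι,
  List.forall_mem_cons.2 ⟨Gdx.G33a_421_u311.no V ι,
  List.forall_mem_cons.2 ⟨Gdx.G33a_421_u32.no V ι,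
  List.forall_mem_cons.2 ⟨Gdx.G33a_421_u41.no V ι,
  List.forall_mem_cons.2 ⟨Gdx.G33a_421_u5.no V ι,
  List.forall_mem_cons.2 ⟨Gdx.G33a_430_u11111.no V ι,
  List.forall_mem_cons.2 ⟨Gdx.G33a_430_u2111.no V ι,
  List.forall_mem_cons.2 ⟨Gdx.G33a_430_u221.no V ι,
  List.forall_mem_cons.2 ⟨Gdx.G33a_430_u311.no V ι,
  List.forall_mem_cons.2 ⟨Gdx.G33a_430_u32.no V ι,
  List.forall_mem_cons.2 ⟨Gdx.G33a_430_u41.no V ι,
  List.forall_mem_cons.2 ⟨Gdx.G33a_430_u5.no V ι,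
  fun _ h => absurd h List.not_mem_nil⟩⟩⟩⟩⟩⟩⟩⟩⟩⟩⟩⟩⟩⟩⟩⟩⟩⟩⟩⟩⟩⟩⟩⟩⟩⟩⟩

theorem no33b (V : Type v) [DecidableEq V] (ι : Type u) [Fintype ι] [DecidableEq ι] :
    ∀ p ∈ need33, NoX V ι 3 2 13 13 z33b p :=
  List.forall_mem_cons.2 ⟨Gdx.G33b_322_u11111.no V ι,
  List.forall_mem_cons.2 ⟨Gdx.G33b_322_u2111.no V ι,
  List.forall_mem_cons.2 ⟨Gdx.G33b_322_u221.no V ι,
  List.forall_mem_cons.2 ⟨Gdx.G33b_322_u32.no V ι,
  List.forall_mem_cons.2 ⟨Gdx.G33b_322_u41.no V ι,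
  List.forall_mem_cons.2 ⟨Gdx.G33b_322_u5.no V ι,
  List.forall_mem_cons.2 ⟨Gdx.G33b_331_u11111.no V ι,
  List.forall_mem_cons.2 ⟨Gdx.G33b_331_u2111.no V ι,
  List.forall_mem_cons.2 ⟨Gdx.G33b_331_u221.no V ι,
  List.forall_mem_cons.2 ⟨Gdx.G33b_331_u311.no V ι,
  List.forall_mem_cons.2 ⟨Gdx.G33b_331_u32.no V ι,
  List.forall_mem_cons.2 ⟨Gdx.G33b_331_u41.no V ι,
  List.forall_mem_cons.2 ⟨Gdx.G33b_331_u5.no V ι,
  List.forall_mem_cons.2 ⟨Gdx.G33b_421_u11111.no V ι,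
  List.forall_mem_cons.2 ⟨Gdx.G33b_421_u2111.no V ι,
  List.forall_mem_cons.2 ⟨Gdx.G33b_421_u221.no V ι,
  List.forall_mem_cons.2 ⟨Gdx.G33b_421_u311.no V ι,
  List.forall_mem_cons.2 ⟨Gdx.G33b_421_u32.no V ι,
  List.forall_mem_cons.2 ⟨Gdx.G33b_421_u41.no V ι,
  List.forall_mem_cons.2 ⟨Gdx.G33b_421_u5.no V ι,
  List.forall_mem_cons.2 ⟨Gdx.G33b_430_u11111.no V ι,
  List.forall_mem_cons.2 ⟨Gdx.G33b_430_u2111.no V ι,
  List.forall_mem_cons.2 ⟨Gdx.G33b_430_u221.no V ι,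
  List.forall_mem_cons.2 ⟨Gdx.G33b_430_u311.no V ι,
  List.forall_mem_cons.2 ⟨Gdx.G33b_430_u32.no V ι,
  List.forall_mem_cons.2 ⟨Gdx.G33b_430_u41.no V ι,
  List.forall_mem_cons.2 ⟨Gdx.G33b_430_u5.no V ι,
  fun _ h => absurd h List.not_mem_nil⟩⟩⟩⟩⟩⟩⟩⟩⟩⟩⟩⟩⟩⟩⟩⟩⟩⟩⟩⟩⟩⟩⟩⟩⟩⟩⟩

theorem no33a_2 (V : Type v) [DecidableEq V] (ι : Type u) [Fintype ι] [DecidableEq ι] :
    NoN2 V ι 3 2 13 13 z33a [[3, 2, 2], [3, 0, 0]] [1, 1] :=
  fun _ _ _ _ _ _ _ _ _ _ h hv hL hT hinj hl hg =>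
    Gdx.N33a_322_300_u11.no h hv hL hT hinj hl hg

theorem no33b_2 (V : Type v) [DecidableEq V] (ι : Type u) [Fintype ι] [DecidableEq ι] :
    NoN2 V ι 3 2 13 13 z33b [[3, 2, 2], [3, 0, 0]] [1, 1] :=
  fun _ _ _ _ _ _ _ _ _ _ h hv hL hT hinj hl hg =>
    Gdx.N33b_322_300_u11.no h hv hL hT hinj hl hg

section

variable {V : Type v} [DecidableEq V] {ι : Type u} [Fintype ι] [DecidableEq ι] {B : ι → Finset V}

/-- **at most six hits**: `U` has at most two hits, two triples leave at least two other hits. -/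
theorem Frm.no7' {Q U L : Finset V} {T : Finset ι} {F : Finset (Finset V)}
    (h : Frm B Q T U F) (hv : ViolR B Q) (hL : L ∈ F) (hL3 : L.card = 3) (h9 : cm B L = 9)
    (hbig : ∀ i ∈ T, ∀ j ∈ T, i ≠ j →
      2 ≤ hit B (Q \ (L ∪ ((B i ∩ Q) ∪ (B j ∩ Q)))) L)
    {j : ι} (hj : j ∈ T) (hU : hit B U L ≤ 2) : hit B (B j ∩ Q) L ≤ 6 :=
  h.no7_of (no33a V ι) (no33b V ι) (no33a_2 V ι) (no33b_2 V ι) hv hL hL3 h9 hbig hj hU

/-- **the only vector with seven hits**: `(3,2,2 | 3,1,1)`. -/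
theorem Frm.vec7 {Q U L : Finset V} {T : Finset ι} {F : Finset (Finset V)}
    (h : Frm B Q T U F) (hv : ViolR B Q) (hL : L ∈ F) (hL3 : L.card = 3) (h9 : cm B L = 9)
    {j : ι} (hj : j ∈ T) (h7 : hit B (B j ∩ Q) L = 7) :
    ∃ ct, Lbl B Q L j [3, 2, 2] [3, 1, 1] ct := by
  obtain ⟨_, _, _, ct, _, hl, _⟩ := h.vec33 (no33a V ι) (no33b V ι) hv hL hL3 h9 hj h7
  exact ⟨ct, hl⟩

/-- **at most six hits** with `Few`. -/
theorem Frm.no7 {Q U L : Finset V} {T : Finset ι} {F : Finset (Finset V)}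
    (h : Frm B Q T U F) (hv : ViolR B Q) (hF : Few B Q T F) (hL : L ∈ F) (hL3 : L.card = 3)
    (h9 : cm B L = 9) {j : ι} (hj : j ∈ T) (hU : hit B U L ≤ 2) : hit B (B j ∩ Q) L ≤ 6 := by
  by_contra hcon
  have h7 : hit B (B j ∩ Q) L = 7 := by
    have := hv.le7 h hj hL hL3 h9
    omega
  refine hcon (h.no7' hv hL hL3 h9 (fun i hi i' hi' hne => ?_) hj hU)
  have hd : dv B Q L = 3 := by
    unfold dv
    rw [(hv.lt3 h hj hL hL3 h9).PvL, (hv.row7 h hj hL hL3 h9 h7).2.1]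
    norm_num
  have h1 := (hF i hi i' hi' hne L hL).big (le_of_eq hd.symm)
  exact_mod_cast h1

/-- **at most six hits**, with the value of the leaf. -/
theorem Frm.no7s {Q U L : Finset V} {T : Finset ι} {F : Finset (Finset V)}
    (h : Frm B Q T U F) (hv : ViolR B Q) (hF : Few B Q T F) (hL : L ∈ F) (hL3 : L.card = 3)
    (hee : ee B Q L = 0) (hdv : dv B Q L = 3) {j : ι} (hj : j ∈ T) (hU : hit B U L ≤ 2) :
    hit B (B j ∩ Q) L ≤ 6 := by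
  refine h.no7 hv hF hL hL3 ?_ hj hU
  have h1 : rho B L = 2 := by
    have h2 := h.sv_leaf hL
    unfold sv at h2
    rw [hL3] at h2
    omega
  unfold dv at hdv
  rw [hee, Hyp6.Pv_eq, hL3, h1] at hdv
  push_cast at hdv
  have h2 : (cm B L : ℤ) = 9 := by linarith
  exact_mod_cast h2

end

end Pool.Agent.Hyp6
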