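import Pool.Agent.Hyp6.L3L2g
import Pool.Agent.Hyp6.L3L2d
import Pool.Agent.Hyp6.L3L2i
import Pool.Agent.Hyp6.L3P8e
import Pool.Agent.Hyp6.L3G9
import Pool.Agent.Hyp6.L3Xd
import Pool.Agent.Hyp6.InsX.R01
import Pool.Agent.Hyp6.InsX.R02

/-!
# HYP6 L3L2k: the line with two private single leaves

`StgR.l2s`: the two needs are paid, without further hypotheses.
-/

set_option autoImplicit false

namespace Pool.Agent.Hyp6

open Finset Pool.Agent.Hyp5 Rt

universe u v

variable {V : Type v} [DecidableEq V] {ι : Type u} [Fintype ι] [DecidableEq ι]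
  {B : ι → Finset V} {Q U : Finset V} {T : Finset ι} {F : Finset (Finset V)}
  {P : Finset (Finset (Finset V))} {a : V → Finset (Finset V) → ℕ}

/-- no point of a triple has four hits on a leaf of type (3;1). -/
theorem Frm.v400 (h : Frm B Q T U F) (hv : ViolR B Q) : V400 B Q T U F :=
  fun _ hL hc3 h1 _ _ _ hj _ hl => Gdx.S31_400_u11111.no h hv hL hc3 h1 hj hl

/-- the vector (3, 1, 0) does not occur on a leaf of type (3;1). -/
theorem Frm.v310 (h : Frm B Q T U F) (hv : ViolR B Q) : V310 B Q T U F :=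
  fun _ hL hc3 h1 _ _ _ hj _ hl _ _ _ _ => Gdx.S31_310_u11111.no h hv hL hc3 h1 hj hl

/-- the four vectors of a triple with four hits on a leaf of type (3;1). -/
theorem Frm.g4vk (h : Frm B Q T U F) (hv : ViolR B Q) : G4v B Q T U F :=
  fun _ hL h3 h1 hd hg _ hj h4 => h.gda4 hv hL h3 h1 hd hg hj h4

namespace StgR

/-- **a triple with four hits on a leaf of type (3;1)** which is its own class has at most three other
hits. -/
theorem four31 (s : StgR B Q T U F P a) {L : Finset V} {j : ι} (hL : {L} ∈ P) (hj : j ∈ T)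
    (hc3 : L.card = 3) (h1 : nt B L 1 = 1) (hdv : dv B Q L = -1) (hg : hit B U L ≤ 2)
    (h4 : 4 ≤ jh B Q j L) : ∑ C ∈ F.erase L, jh B Q j C ≤ 3 :=
  s.row31 (s.frm.g4vk s.viol) (s.frm.v400 s.viol) (s.frm.v310 s.viol) hL hj hc3 h1 hdv hg h4

/-- the rows `R2S` do not exist. -/
theorem hs (s : StgR B Q T U F P a) : ∀ j L, Prv1 B Q T U F P j L → R2S B Q U j L → False := by
  intro j L h hS
  obtain ⟨h1, h2, h3, h4, h5, h6⟩ := hS
  have h7 := s.frm.no7s s.viol (s.frm.few s.viol) (s.toStg.leafF h.LP) h1 h3 h4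
    (s.toStg.tl_sub h.jt).1 (by omega)
  have h8 : hit B (B j ∩ Q) L = 7 := h5
  omega

/-- **the line with two private single leaves is paid.** -/
theorem l2s_single (s : StgR B Q T U F P a) {j : ι} {L M : Finset V}
    (h : Prv2 B Q T U F P j L M) :
    msC 149 B Q T U F P a {L} + msC 149 B Q T U F P a {M} ≤
      8 * sT B Q T U F 15 j + tF B Q T U F P j - 1120 := by
  have hga := s.frm.ga31 s.viol
  exact s.l2_single h hga (s.frm.x63 s.viol)
    (s.x4_of (s.frm.g4vk s.viol) (s.frm.v400 s.viol) (s.frm.v310 s.viol)) s.xdb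
    (fun L M h1 h2 => s.ha hga L M h1 h2) (fun L h1 h2 => s.hs _ L h1 h2)

/-- **the line with two private single leaves**, in the form of the last step. -/
theorem l2s (s : StgR B Q T U F P a) {C D : Finset (Finset V)} {j : ι}
    (hj : j ∈ tl B Q T U F P) (hCD : C ≠ D) (hl : lj B Q U F P j = {C, D})
    (hC : aC B Q T U F P C = {j}) (hD : aC B Q T U F P D = {j})
    (kC : KC B Q T U F C = ∅) (kD : KC B Q T U F D = ∅)
    (nC : NCt B Q T U F P C) (nD : NCt B Q T U F P D) (c1 : C.card = 1) (d1 : D.card = 1) :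
    ndF B Q T U F P a C + ndF B Q T U F P a D ≤
      8 * sT B Q T U F 15 j + tF B Q T U F P j - 1120 := by
  have hga := s.frm.ga31 s.viol
  exact s.l2_line hj hCD hl hC hD kC kD nC nD c1 d1 hga (s.frm.x63 s.viol)
    (s.x4_of (s.frm.g4vk s.viol) (s.frm.v400 s.viol) (s.frm.v310 s.viol)) s.xdb
    (fun L M h1 h2 => s.ha hga L M h1 h2) (fun L h1 h2 => s.hs _ L h1 h2)

end StgR

end Pool.Agent.Hyp6
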