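import Pool.Agent.Hyp6.L3NS
import Pool.Agent.Hyp6.Gda7

/-!
# HYP6 L3NT: the facts of the leaves of type (3;1) with a triple with four hits

`Frm.g31`: `G31` holds.
-/

set_option autoImplicit false

namespace Pool.Agent.Hyp6

open Finset Pool.Agent.Hyp5

universe u v

variable {V : Type v} [DecidableEq V] {ι : Type u} [Fintype ι] [DecidableEq ι]
  {B : ι → Finset V} {Q U : Finset V} {T : Finset ι} {F : Finset (Finset V)}

/-- **`G31`**: at most four hits, and at most two of any other triple. -/
theorem Frm.g31 (h : Frm B Q T U F) (hv : ViolR B Q) : G31 B Q T U F :=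
  fun _ hL hc h1 hdv hg _ hj h4 => ⟨h.gda hv hL hc h1 hdv hg hj,
    fun _ hj' hne => h.gda_le2 hv hL hc h1 hdv hg hj hj' hne h4⟩

end Pool.Agent.Hyp6
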