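import Pool.Agent.Hyp6.L3Nn

/-!
# HYP6 L3Np: the fact `R73` from the fact on seven hits
-/

set_option autoImplicit false

namespace Pool.Agent.Hyp6

open Finset Pool.Agent.Hyp5 Rt

universe u v

variable {V : Type v} [DecidableEq V] {ι : Type u} [Fintype ι] [DecidableEq ι]
  {B : ι → Finset V}

/-- `R73` from: at most six hits at a leaf with three points, nine blocks and at most two hits of
`U`. -/
theorem Stg.r73 {Q U : Finset V} {T : Finset ι} {F : Finset (Finset V)}
    {P : Finset (Finset (Finset V))} {a : V → Finset (Finset V) → ℕ} (s : Stg B Q T U F P a)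
    (h7 : ∀ L ∈ F, L.card = 3 → cm B L = 9 → hit B U L ≤ 2 → ∀ j ∈ T,
      hit B (B j ∩ Q) L ≤ 6) : R73 B Q T F := by
  intro L hL h3 h9 i hi k hk hne hi7 hk3
  obtain ⟨pp, slot, m1, mo, n1, no, pt, f0, e0, g0, gn, hh0, p0⟩ := s.one hL
  have hP : Pp B L = 4 := by
    have h10 := s.frm.sv_leaf hL
    unfold Pp G
    rw [h10, h3, h9]
    norm_num
  have h5 : (L.card : ℤ) = 3 := by exact_mod_cast h3
  have hn : (nt B L 1 : ℤ) = 3 := by
    rw [hP, h5] at pp
    omega
  rw [hP, hn] at slot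
  have h8 : ∑ j ∈ ({i, k} : Finset ι), (jh B Q j L : ℤ) ≤ ∑ j ∈ T, (jh B Q j L : ℤ) :=
    sum_le_sum_of_subset_of_nonneg (insert_subset hi (singleton_subset_iff.2 hk))
      fun _ _ _ => Int.natCast_nonneg _
  rw [sum_pair hne] at h8
  have h11 : (jh B Q i L : ℤ) = 7 := by exact_mod_cast hi7
  have h12 : (jh B Q k L : ℤ) = 3 := by exact_mod_cast hk3
  have h13 : (hit B U L : ℤ) ≤ 2 := by linarith
  have h14 := h7 L hL h3 h9 (by exact_mod_cast h13) i hi
  omega

end Pool.Agent.Hyp6
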