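import Pool.Agent.Hyp6.L3P9
import Pool.Agent.Hyp6.L3L2k

/-!
# HYP6 L3P9a: four hits on a leaf of type (3;1), without hypotheses
-/

set_option autoImplicit false

namespace Pool.Agent.Hyp6

open Finset Pool.Agent.Hyp5 Rt

universe u v

variable {V : Type v} [DecidableEq V] {ι : Type u} [Fintype ι] [DecidableEq ι]
  {B : ι → Finset V} {Q U : Finset V} {T : Finset ι} {F : Finset (Finset V)}
  {P : Finset (Finset (Finset V))} {a : V → Finset (Finset V) → ℕ}

/-- the vector (3, 1, 0) does not occur on a leaf of type (3;1). -/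
theorem Frm.v31 (h : Frm B Q T U F) (hv : ViolR B Q) : V31 B Q T U F :=
  fun _ hL hc3 h1 _ _ _ hj _ hl => Gdx.S31_310_u11111.no h hv hL hc3 h1 hj hl

/-- **a triple with four hits on a leaf of type (3;1)** which is its own class has no hit on another
leaf. -/
theorem StgR.zero31 (s : StgR B Q T U F P a) {L : Finset V} {j : ι} (hL : {L} ∈ P) (hj : j ∈ T)
    (hc3 : L.card = 3) (h1 : nt B L 1 = 1) (hdv : dv B Q L = -1) (hg : hit B U L ≤ 2)
    (h4 : 4 ≤ jh B Q j L) : ∑ C ∈ F.erase L, jh B Q j C = 0 :=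
  s.no31 (s.frm.g4vk s.viol) (s.frm.v400 s.viol) (s.frm.v31 s.viol) hL hj hc3 h1 hdv hg h4

end Pool.Agent.Hyp6
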