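import Pool.Agent.Hyp6.L3Th
import Pool.Agent.Hyp6.L3P9a

/-!
# HYP6 L3Tk: private single leaves, without hypotheses
-/

set_option autoImplicit false

namespace Pool.Agent.Hyp6

open Finset Pool.Agent.Hyp5 Rt

universe u v

variable {V : Type v} [DecidableEq V] {ι : Type u} [Fintype ι] [DecidableEq ι]
  {B : ι → Finset V} {Q U : Finset V} {T : Finset ι} {F : Finset (Finset V)}
  {P : Finset (Finset (Finset V))} {a : V → Finset (Finset V) → ℕ}

namespace StgR

/-- the facts on the leaves with three points. -/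
theorem lf3 (s : StgR B Q T U F P a) : Lf3 B Q T U F P where
  five := fun _ hL h3 h1 hd _ hj => s.frm.gda5 s.viol hL h3 h1 hd hj
  four := fun _ _ hL hj h3 h1 hd hg h4 => s.zero31 hL hj h3 h1 hd hg h4
  seven := fun _ hL h3 he hd _ hj hg =>
    s.frm.no7s s.viol (s.frm.few s.viol) hL h3 he hd hj hg

/-- **a private single leaf without centre**: the payment at the other end. -/
theorem rest_lf (s : StgR B Q T U F P a) {L : Finset V} {j : ι} (hj : j ∈ tl B Q T U F P)
    {D : Finset (Finset V)} (hL : {L} ∈ P)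
    (hLD : {L} ≠ D) (hl : lj B Q U F P j = {{L}, D})
    (hq : (aC B Q T U F P {L}).card = 1) (hn : NCt B Q T U F P {L}) :
    payT (ncl B Q T U F P j) (jh B Q j L) (jC B Q j D) ≤
      8 * sT B Q T U F 15 j + tF B Q T U F P j - 1120 - ndF B Q T U F P a {L} :=
  s.rest_leaf (s.frm.few s.viol) s.lf3 hj hL hLD hl hq hn

/-- **the rest at a private single leaf without inside triples**, in the form of the last step. `hB`: the
leaves with a centre. -/
theorem RS_lf (s : StgR B Q T U F P a)
    (hB : ∀ j ∈ tl B Q T U F P, ∀ L, {L} ∈ P → aC B Q T U F P {L} = {j} →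
      (lj B Q U F P j).card = 2 → ¬ Ful B Q T U F P a {L} → KC B Q T U F {L} = ∅ →
      ¬ NCt B Q T U F P {L} → ndF B Q T U F P a {L} ≤ fB (jC B Q j {L})) :
    ∀ j ∈ tl B Q T U F P, ∀ C L, C ≠ {L} → lj B Q U F P j = {C, {L}} →
      aC B Q T U F P {L} = {j} → ¬ Ful B Q T U F P a {L} → KC B Q T U F {L} = ∅ →
      payT (ncl B Q T U F P j) (jC B Q j {L}) (jC B Q j C) ≤
        8 * sT B Q T U F 15 j + tF B Q T U F P j - 1120 - ndF B Q T U F P a {L} :=
  s.RS_of (s.frm.few s.viol) s.lf3 hB

/-- a private single leaf with inside triples needs at most `pm`. -/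
theorem nd_kin' (s : StgR B Q T U F P a) {L : Finset V} {j : ι} (hL : {L} ∈ P)
    (hq : aC B Q T U F P {L} = {j}) (hK : (KC B Q T U F {L}).Nonempty) (n : ℕ) :
    ndF B Q T U F P a {L} ≤ pm n :=
  s.nd_kin (s.frm.few s.viol) hL hq hK n

end StgR

end Pool.Agent.Hyp6
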