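import Pool.Agent.Hyp6.L3Last
import Pool.Agent.Hyp6.L3Tk
import Pool.Agent.Hyp6.L3L2k
import Pool.Agent.Hyp6.L3G9
import Pool.Agent.Hyp6.L3Np
import Pool.Agent.Hyp6.L3Xd
import Pool.Agent.Hyp6.L3NT

/-!
# HYP6 L3Lt: the last step, the facts proved by tables filled in
-/

set_option autoImplicit false

namespace Pool.Agent.Hyp6

open Finset Pool.Agent.Hyp5 Rt

universe u v

variable {V : Type v} [DecidableEq V] {ι : Type u} [Fintype ι] [DecidableEq ι]
  {B : ι → Finset V} {Q U : Finset V} {T : Finset ι} {F : Finset (Finset V)}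
  {P : Finset (Finset (Finset V))} {a : V → Finset (Finset V) → ℕ}

namespace StgR

/-- seven and three hits at a leaf with three points. -/
theorem r73t (s : StgR B Q T U F P a) : R73 B Q T F :=
  s.toStg.r73 fun _ hL h3 h9 hU _ hj => s.frm.no7 s.viol (s.frm.few s.viol) hL h3 h9 hj hU

/-- **the last step, the facts proved by tables filled in.** -/
theorem lastT (s : StgR B Q T U F P a)
    -- private ends which are not single leaves
    (PC : ∀ j ∈ tl B Q T U F P, ∀ C D, C ≠ D → lj B Q U F P j = {C, D} →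
      aC B Q T U F P D = {j} → ¬ Ful B Q T U F P a D → (KC B Q T U F D = ∅ → 2 ≤ D.card) →
      ndF B Q T U F P a D ≤ pmC (jC B Q j D))
    -- single leaves with a centre
    (B0 : ∀ L, {L} ∈ P → ¬ Ful B Q T U F P a {L} → (aC B Q T U F P {L}).card = 0 →
      KC B Q T U F {L} = ∅ → (Bs B Q T U F P L).Nonempty → msC 149 B Q T U F P a {L} ≤ 0)
    (BL : ∀ L, {L} ∈ P → ¬ Ful B Q T U F P a {L} → (aC B Q T U F P {L}).Nonempty →
      (2 ≤ (aC B Q T U F P {L}).card ∨ ∀ j ∈ aC B Q T U F P {L}, (lj B Q U F P j).card = 2) →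
      KC B Q T U F {L} = ∅ → (Bs B Q T U F P L).Nonempty → ¬ Exa B Q T U F P {L} →
      NdOk B Q T U F P a {L})
    -- composite classes
    (E0 : ∀ C ∈ P, ¬ Ful B Q T U F P a C → 2 ≤ C.card → (aC B Q T U F P C).card = 0 →
      KC B Q T U F C = ∅ → ¬ NCt B Q T U F P C → msC 149 B Q T U F P a C ≤ 0)
    (CN : ∀ C ∈ P, ¬ Ful B Q T U F P a C → 2 ≤ C.card → 2 ≤ (aC B Q T U F P C).card →
      KC B Q T U F C = ∅ → NCt B Q T U F P C → ¬ Exa B Q T U F P C → NdOk B Q T U F P a C)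
    (EN : ∀ C ∈ P, ¬ Ful B Q T U F P a C → 2 ≤ C.card → 2 ≤ (aC B Q T U F P C).card →
      KC B Q T U F C = ∅ → ¬ NCt B Q T U F P C → ¬ Exa B Q T U F P C → NdOk B Q T U F P a C)
    -- classes with inside triples
    (D0 : ∀ C ∈ P, ¬ Ful B Q T U F P a C → (aC B Q T U F P C).card = 0 →
      (KC B Q T U F C).Nonempty → ndF B Q T U F P a C ≤ 0)
    (DN : ∀ C ∈ P, ¬ Ful B Q T U F P a C → 2 ≤ (aC B Q T U F P C).card →
      (KC B Q T U F C).Nonempty → ¬ Exa B Q T U F P C → NdOk B Q T U F P a C)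
    -- the fat lines
    (LF : ∀ j ∈ tl B Q T U F P, 1 ≤ (oj B Q U F P j).card →
      ∑ C ∈ (lj B Q U F P j).filter (fun C => (aC B Q T U F P C).card = 1),
        ndF B Q T U F P a C +
      ∑ C ∈ (lj B Q U F P j).filter (fun C => 2 ≤ (aC B Q T U F P C).card),
        fcl 149 B Q T U F P a (tF B Q T U F P) j C ≤
        8 * sT B Q T U F 15 j + tF B Q T U F P j - 1120 +
          168 * ∑ u ∈ oj B Q U F P j, (uo B Q T U F u : ℤ)) : False :=
  s.last (s.frm.few s.viol) s.lf3 (s.frm.ga31 s.viol) (s.frm.g31 s.viol) s.r73t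
    (fun _ hj _ _ hCD hl hC hD kC kD nC nD c1 d1 => s.l2s hj hCD hl hC hD kC kD nC nD c1 d1)
    PC B0 BL E0 CN EN D0 DN LF

end StgR

end Pool.Agent.Hyp6
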