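import Pool.Agent.Hyp6.L3RZ
import Pool.Agent.Hyp6.CfF
import Pool.Agent.Hyp6.L3Sr

/-!
# HYP6 L3Zf: the final assembly without the case of value zero

The inequality for all regular systems from: no setting of a minimal counterexample with positive value.
-/

set_option autoImplicit false

namespace Pool.Agent.Hyp6

open Finset Pool.Agent.Hyp5

/-- the inequality for all regular systems from the statement on minimal counterexamples with positive
value. -/
theorem dualAll_of_violR
    (hnoR : ∀ (V κ : Type) [DecidableEq V] [Fintype κ] (B : κ → Finset V) (Q : Finset V),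
      ¬ ViolR B Q) : DualAll 13 7 55 :=
  dualAll_of_noR (fun _ _ _ _ _ _ h => h.no_zero) hnoR

/-- **the inequality for all regular systems from the rent proof**: no setting is possible. -/
theorem dualAll_of_stgR
    (h : ∀ (V κ : Type) [DecidableEq V] [Fintype κ] [DecidableEq κ] (B : κ → Finset V)
      (Q : Finset V) (T : Finset κ) (U : Finset V) (F : Finset (Finset V))
      (P : Finset (Finset (Finset V))) (a : V → Finset (Finset V) → ℕ),
      ¬ StgR B Q T U F P a) : DualAll 13 7 55 :=
  dualAll_of_violR fun V κ _ _ B Q hv => by
    classical
    obtain ⟨T, U, F, P, a, hs⟩ := hv.exists_stgR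
    exact h V κ B Q T U F P a hs

end Pool.Agent.Hyp6
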