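import Pool.Agent.Hyp6.L3Swf
import Pool.Agent.Hyp6.L3Zf

/-!
# HYP6 L3Swc: the setting on a balanced frame

`StgN`: the setting of the rent proof on a balanced `MTR` frame. `dualAll_of_stgN`: it is enough to
exclude this setting. `StgN.claims_out`: the number of claims of a triple is at most the number of its
out-edges plus one.
-/

set_option autoImplicit false

namespace Pool.Agent.Hyp6

open Finset Pool.Agent.Hyp5 Rt

universe u v

variable {V : Type v} [DecidableEq V] {ι : Type u} [Fintype ι] [DecidableEq ι]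
  {B : ι → Finset V}

/-- **the setting of the rent proof on a balanced frame**. -/
structure StgN (B : ι → Finset V) (Q : Finset V) (T : Finset ι) (U : Finset V)
    (F : Finset (Finset V)) (P : Finset (Finset (Finset V)))
    (a : V → Finset (Finset V) → ℕ) : Prop extends StgR B Q T U F P a where
  ori : ∀ k ∈ T, (inS B Q T U F k).card ≤ (outS B Q T U F k).card + 1

theorem ViolR.exists_stgN {Q : Finset V} (hv : ViolR B Q) :
    ∃ T U F P a, StgN B Q T U F P a := by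
  obtain ⟨T, U, F, hM, hnb⟩ := exists_balN (B := B) (Q := Q) hv.reg hv.cov hv.tr
  obtain ⟨P, a, h⟩ := hM.stgR hv
  exact ⟨T, U, F, P, a, h, hnb⟩

/-- **the inequality for all regular systems**: no setting on a balanced frame is possible. -/
theorem dualAll_of_stgN
    (h : ∀ (V κ : Type) [DecidableEq V] [Fintype κ] [DecidableEq κ] (B : κ → Finset V)
      (Q : Finset V) (T : Finset κ) (U : Finset V) (F : Finset (Finset V))
      (P : Finset (Finset (Finset V))) (a : V → Finset (Finset V) → ℕ),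
      ¬ StgN B Q T U F P a) : DualAll 13 7 55 :=
  dualAll_of_violR fun V κ _ _ B Q hv => by
    classical
    obtain ⟨T, U, F, P, a, hs⟩ := hv.exists_stgN
    exact h V κ B Q T U F P a hs

variable {Q U : Finset V} {T : Finset ι} {F : Finset (Finset V)}
  {P : Finset (Finset (Finset V))} {al : V → Finset (Finset V) → ℕ}

/-- a claim is an in-edge. -/
theorem claim_inE {k0 k : ι} (hk : k ∈ T) (hk0 : k0 ∈ Kf B Q T U F P)
    (hc : (B k0 ∩ (B k ∩ Q)).card = 1) :
    ∃ j i a b c x, Swt B Q T U F j i k0 a b c x ∧ k ≠ j ∧ (B k0 ∩ (B k ∩ Q)).Nonempty := by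
  obtain ⟨j, i, a, b, c, x, h⟩ := Kf_cla.1 hk0
  have hkj := h.1.claim_ne hc
  have hn : (B k0 ∩ (B k ∩ Q)).Nonempty := card_pos.1 (by omega)
  exact ⟨j, i, a, b, c, x, ⟨h.1.toPxf, h.1.g0, k, hk, hkj, hn⟩, hkj, hn⟩

/-- the claims of a triple are in-edges. -/
theorem ncl_le_inS {k : ι} (hk : k ∈ T) : ncl B Q T U F P k ≤ (inS B Q T U F k).card := by
  classical
  have h1 : ∀ k0, ∃ j, k0 ∈ (Kf B Q T U F P).filter (fun k0 => (B k0 ∩ (B k ∩ Q)).card = 1) →
      ∃ i a b c x, Swt B Q T U F j i k0 a b c x ∧ k ≠ j ∧ (B k0 ∩ (B k ∩ Q)).Nonempty := by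
    intro k0
    by_cases h : k0 ∈ (Kf B Q T U F P).filter (fun k0 => (B k0 ∩ (B k ∩ Q)).card = 1)
    · obtain ⟨h2, h3⟩ := mem_filter.1 h
      obtain ⟨j, h4⟩ := claim_inE hk h2 h3
      exact ⟨j, fun _ => h4⟩
    · exact ⟨k, fun h' => absurd h' h⟩
  choose f hf using h1
  refine card_le_card_of_injOn f (fun k0 hk0 => ?_) (fun k0 hk0 k1 hk1 he => ?_)
  · obtain ⟨i, a, b, c, x, h2, h3, h4⟩ := hf k0 (mem_coe.1 hk0)
    exact mem_coe.2 (mem_filter.2 ⟨h2.pf.px.hj, i, k0, a, b, c, x, h2, h3, h4⟩)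
  · obtain ⟨i, a, b, c, x, h2, h3, h4⟩ := hf k0 (mem_coe.1 hk0)
    obtain ⟨i', a', b', c', x', h2', h3', h4'⟩ := hf k1 (mem_coe.1 hk1)
    rw [he] at h2
    exact (h2.pf.same h2'.pf).2.2

/-- **the claims of a triple** are at most the out-edges plus one. -/
theorem StgN.claims_out (s : StgN B Q T U F P al) {k : ι} (hk : k ∈ T) :
    ncl B Q T U F P k ≤ (outS B Q T U F k).card + 1 :=
  (ncl_le_inS hk).trans (s.ori k hk)

omit [DecidableEq ι] in
theorem mem_outS {k j : ι} : j ∈ outS B Q T U F k ↔ j ∈ T ∧ OE B Q T U F k j := by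
  classical
  unfold outS
  rw [mem_filter]

omit [DecidableEq ι] in
/-- the data of an out-edge. -/
theorem OE.data {k j : ι} (h : OE B Q T U F k j) : ∃ i k0 a b c x e w,
    Swt B Q T U F j i k0 a b c x ∧ x ∈ B e ∧ a ∉ B e ∧ e ≠ i ∧ k ≠ j ∧ w ∈ B k ∩ Q ∧ w ∈ B e := by
  obtain ⟨m, i, k0, a, b, c, x, e, h1, h2, h3, h4, h5, ⟨w, hw⟩, _⟩ := h
  obtain ⟨hw1, hw2⟩ := mem_inter.1 hw
  exact ⟨i, k0, a, b, c, x, e, w, h1, h2, h3, h4, h5, hw2, hw1⟩

end Pool.Agent.Hyp6
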