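import Pool.Agent.Hyp6.L3Swg
import Pool.Agent.Hyp6.L3Dr4

/-!
# HYP6 L3Swh: the facts about the claims on the inside triples

`StgN.donS`: the facts `DonS` about the claims on the inside triples of a class hold on a balanced
frame.
-/

set_option autoImplicit false

namespace Pool.Agent.Hyp6

open Finset Pool.Agent.Hyp5 Rt

universe u v

variable {V : Type v} [DecidableEq V] {ι : Type u} [Fintype ι] [DecidableEq ι]
  {B : ι → Finset V} {Q U : Finset V} {T : Finset ι} {F : Finset (Finset V)}
  {P : Finset (Finset (Finset V))} {al : V → Finset (Finset V) → ℕ}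

/-- **triples of rank one with two claims**: at most eight hits and claims. -/
theorem StgN.rank_one (s : StgN B Q T U F P al) {k : ι} (hkT : k ∈ T)
    (h1 : rkc B U F (par0 B U F) (mcj B Q F (par0 B U F) k) ≤ 1)
    (hc : 2 ≤ ncl B Q T U F P k) : ∑ L ∈ F, jh B Q k L + ncl B Q T U F P k ≤ 8 := by
  have sR := s.toStgR
  have ho := s.claims_out hkT
  obtain ⟨j, hj⟩ := card_pos.1 (show 0 < (outS B Q T U F k).card by omega)
  obtain ⟨i, k0, a, b, c, x, e, w, h, xe, _, _, kj, wk, we⟩ := (mem_outS.1 hj).2.data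
  have hxs : {x} ∈ slf B F w := slf_of_blk h.pf.px.hx (mem_singleton_self _) xe we
    (s.frm.T_notin hkT wk h.pf.px.hx)
  have hx0 : {{x}} ∈ par0 B U F := s.toStg.par_zero h.pf.px.hx h.g0
  have hxm : {{x}} ∈ mcj B Q F (par0 B U F) k := by
    refine mem_filter.2 ⟨hx0, ?_⟩
    rw [disjoint_singleton_right, not_not]
    exact mem_biUnion.2 ⟨w, wk, hxs⟩
  -- the triple sees only the leaf `{x}`
  have hall : ∀ v ∈ B k ∩ Q, ∀ L ∈ slf B F v, L = {x} := by
    intro v hv L hL
    by_contra hne
    obtain ⟨D, hD, hLD⟩ := exists_cls s.toStg.par (slf_sub hL)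
    have hDx : D ≠ {{x}} := by
      rintro rfl
      exact hne (mem_singleton.1 hLD)
    have hDm : D ∈ mcj B Q F (par0 B U F) k := by
      refine mem_filter.2 ⟨hD, ?_⟩
      rw [not_disjoint_iff]
      exact ⟨L, mem_biUnion.2 ⟨v, hv, hL⟩, hLD⟩
    have h2 : ({D, {{x}}} : Finset (Finset (Finset V))) ⊆ par0 B U F := by
      intro E hE
      simp only [mem_insert, mem_singleton] at hE
      rcases hE with rfl | rfl
      · exact hD
      · exact hx0
    have h3 := s.toStg.par.rk_two s.frm.sur h2 (by rw [card_pair hDx])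
    have h4 : ({D, {{x}}} : Finset (Finset (Finset V))) ⊆ mcj B Q F (par0 B U F) k := by
      intro E hE
      simp only [mem_insert, mem_singleton] at hE
      rcases hE with rfl | rfl
      · exact hDm
      · exact hxm
    have h5 := (s.toStg.par.nul s.frm.sur).rk_mono h4
    unfold rkc at h1
    omega
  have hz : ∑ M ∈ F, jh B Q k M = jh B Q k {x} := by
    refine sum_eq_single_of_mem (f := fun M => jh B Q k M) ({x} : Finset V) h.pf.px.hx ?_
    intro M hM hne
    rw [jh_sum]
    refine sum_eq_zero fun v hv => uh_zero hM (s.frm.T_notin hkT hv hM) fun h4 => hne ?_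
    exact hall v hv M h4
  have h4 := ten_pt s.viol s.frm h.pf.px.hx h.pf.px.hj hkT kj.symm
  have h5 := h.six
  rcases sR.four_or_eight hkT (by omega) with ⟨v, _, _, _, h6⟩ | h6
  · omega
  · exact h6

/-- **the facts about the claims on the inside triples of a class**. -/
theorem StgN.donS (s : StgN B Q T U F P al) {C : Finset (Finset V)} (hC : C ∈ P) :
    DonS B Q T U F P C := by
  refine ⟨fun j k => k ∈ T ∧ OE B Q T U F k j, fun j k k' h h' =>
    h.2.unique s.viol.reg s.mtr h.1 h'.1 h'.2, fun k hk => ?_⟩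
  have hkT := (s.toStg.kin.1 hk).1
  rcases le_or_gt (ncl B Q T U F P k) 1 with h1 | h1
  · exact Or.inl h1
  rcases le_or_gt (rkc B U F (par0 B U F) (mcj B Q F (par0 B U F) k)) 1 with h2 | h2
  · exact Or.inr (Or.inl ⟨s.ncl_three hk, s.rank_one hkT h2 h1⟩)
  · rcases s.astar hC hk h2 with h3 | h3 | ⟨h3, j, x, a1, a2, a3, a4, a5, a6, a7⟩
    · exact Or.inl h3
    · exact Or.inr (Or.inl h3)
    · exact Or.inr (Or.inr ⟨h3, j, x, ⟨hkT, a3⟩, a1, a2, a4, a5, a6, a7⟩)

end Pool.Agent.Hyp6
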