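import Pool.Agent.Hyp6.L3G14
import Pool.Agent.Hyp6.InsN.N10
import Pool.Agent.Hyp6.InsN.N11
import Pool.Agent.Hyp6.InsN.N12
import Pool.Agent.Hyp6.InsN.N13
import Pool.Agent.Hyp6.InsN.N14
import Pool.Agent.Hyp6.InsN.N15
import Pool.Agent.Hyp6.InsN.N16
import Pool.Agent.Hyp6.InsN.N17
import Pool.Agent.Hyp6.InsN.N18
import Pool.Agent.Hyp6.InsN.N19
import Pool.Agent.Hyp6.InsN.N20
import Pool.Agent.Hyp6.InsN.N21
import Pool.Agent.Hyp6.InsN.N22
import Pool.Agent.Hyp6.InsN.N23

/-!
# HYP6 L3G15: a leaf with value `-1` and contacts in two full blocks and one further point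

`KG.one_neg`, `Frm.one_neg`: all contacts of the leaf are in two triples and one further point `p`, with
any number of hits of `p`: at most two hits of the two triples.
-/

set_option autoImplicit false

namespace Pool.Agent.Hyp6

open Finset Pool.Agent.Hyp5

universe u v

variable {V : Type v} [DecidableEq V] {ι : Type u} [Fintype ι] {B : ι → Finset V}
variable {Q U C L Y : Finset V} {T : Finset ι} {F : Finset (Finset V)} {i j : ι}

/-- the bounds, one further point. -/
def blP1 : List Bnd :=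
  [⟨false, [(0, 0), (0, 1), (0, 2), (0, 3), (0, 4), (0, 5), (0, 6)], 9⟩,
   ⟨true, [(0, 0), (0, 1), (0, 2), (0, 3), (0, 4), (0, 5)], 3⟩]

/-- the bounds, two further points. -/
def blP2 : List Bnd :=
  [⟨false, [(0, 0), (0, 1), (0, 2), (0, 3), (0, 4), (0, 5), (0, 6), (0, 7)], 9⟩,
   ⟨false, [(0, 7)], 0⟩,
   ⟨true, [(0, 0), (0, 1), (0, 2), (0, 3), (0, 4), (0, 5)], 3⟩]

theorem CfP.bl1 {r : ℕ} {x : ℕ → V} {D : ℕ → Finset V} {ub ins : List ℕ}
    (h : CfP B Q 1 r x D ub ins 9 3) : ∀ b ∈ blP1, b.Holds (ecB B x (6 + 1) D) := by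
  have k1 := h.slot
  have k2 := h.low
  simp only [sum_range_succ, sum_range_zero, zero_add] at k1 k2
  intro b hb
  unfold blP1 at hb
  simp only [List.mem_cons, List.not_mem_nil, or_false] at hb
  rcases hb with rfl | rfl
  · refine ⟨fun h1 => absurd h1 (by simp), fun _ => ?_⟩
    simp only [Bnd.sm, List.map_cons, List.map_nil, List.sum_cons, List.sum_nil]
    omega
  · refine ⟨fun _ => ?_, fun h1 => absurd h1 (by simp)⟩
    simp only [Bnd.sm, List.map_cons, List.map_nil, List.sum_cons, List.sum_nil]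
    omega

theorem CfP.bl2 {r : ℕ} {x : ℕ → V} {D : ℕ → Finset V} {ub ins : List ℕ}
    (h : CfP B Q 2 r x D ub ins 9 3) : ∀ b ∈ blP2, b.Holds (ecB B x (6 + 2) D) := by
  have k1 := h.slot
  have k2 := h.low
  have k3 := h.c7 rfl
  simp only [sum_range_succ, sum_range_zero, zero_add] at k1 k2
  intro b hb
  unfold blP2 at hb
  simp only [List.mem_cons, List.not_mem_nil, or_false] at hb
  rcases hb with rfl | rfl | rfl
  · refine ⟨fun h1 => absurd h1 (by simp), fun _ => ?_⟩
    simp only [Bnd.sm, List.map_cons, List.map_nil, List.sum_cons, List.sum_nil]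
    omega
  · refine ⟨fun h1 => absurd h1 (by simp), fun _ => ?_⟩
    simp only [Bnd.sm, List.map_cons, List.map_nil, List.sum_cons, List.sum_nil]
    omega
  · refine ⟨fun _ => ?_, fun h1 => absurd h1 (by simp)⟩
    simp only [Bnd.sm, List.map_cons, List.map_nil, List.sum_cons, List.sum_nil]
    omega

/-- leaf value `0`, any number of hits of the further point. -/
theorem noP_S : NoP.{u} V ι 0 9 3 := by
  intro B Q x D t ht h0 h
  unfold instG at ht
  simp only [List.mem_cons, List.not_mem_nil, or_false] at ht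
  rcases ht with rfl | rfl | rfl | rfl | rfl | rfl | rfl | rfl | rfl | rfl | rfl | rfl | rfl | rfl |
    rfl | rfl | rfl | rfl | rfl | rfl | rfl | rfl | rfl | rfl | rfl | rfl | rfl
  · exact noN_10 ⟨h.toCfR, h.bl1⟩
  · exact absurd h0 (by decide)
  · exact absurd h0 (by decide)
  · exact absurd h0 (by decide)
  · exact noN_12 h.toCfR h.bl1
  · exact absurd h0 (by decide)
  · exact noN_13 h.toCfR h.bl1
  · exact absurd h0 (by decide)
  · exact noN_14 h.toCfR h.bl1
  · exact absurd h0 (by decide)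
  · exact noN_15 h.toCfR h.bl1
  · exact absurd h0 (by decide)
  · exact noN_16 h.toCfR h.bl1
  · exact absurd h0 (by decide)
  · exact noN_17 h.toCfR h.bl1
  · exact absurd h0 (by decide)
  · exact noN_18 h.toCfR h.bl1
  · exact absurd h0 (by decide)
  · exact noN_19 h.toCfR h.bl1
  · exact absurd h0 (by decide)
  · exact noN_20 h.toCfR h.bl1
  · exact absurd h0 (by decide)
  · exact noN_21 h.toCfR h.bl1
  · exact noN_22 h.toCfR h.bl1
  · exact noN_11 ⟨h.toCfR, h.bl2⟩
  · exact noN_23 ⟨h.toCfR, h.bl2⟩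
  · exact absurd h0 (by decide)

/-- **leaf value `0` and one further point**: at most two hits of the two full blocks. -/
theorem KG.one_neg (h : KG B Q Y F i j) (hL : L ∈ F) (sL : sv B L = -1) (nL : nt B L 3 = 0)
    (dL : dv B Q L = -1) {p : V} (hp : ∀ v ∈ Y, v ∉ B i → v ∉ B j → v ≠ p → Ez B L v = ∅) :
    hit B ((B i ∩ Q) ∪ (B j ∩ Q)) L ≤ 2 :=
  h.one_neg_of noP_S hL sL nL dL hp

/-- **a leaf with value `-1`**, all contacts in two triples and one further point `p` (any number of hits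
of `p`): at most two hits of the two triples. -/
theorem Frm.one_neg (h : Frm B Q T U F) (hv : ViolR B Q) (hi : i ∈ T) (hj : j ∈ T) (hij : i ≠ j)
    (hC : C ∈ F) {p : V} (hp : ∀ v ∈ Q \ (C ∪ ((B i ∩ Q) ∪ (B j ∩ Q))), v ≠ p → Ez B C v = ∅)
    (hdv : dv B Q C = -1) : hit B ((B i ∩ Q) ∪ (B j ∩ Q)) C ≤ 2 := by
  obtain ⟨Y, F', hK, hLF⟩ := h.exists_KG hv hi hj hij hC hp
  refine hK.one_neg (p := p) hLF (h.sv_leaf hC) (h.nt3 hC) hdv ?_
  intro v hv' hvi hvj hvp
  refine hp v ?_ hvp
  rw [mem_sdiff, mem_union, mem_union, mem_inter, mem_inter]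
  refine ⟨hK.YQ hv', ?_⟩
  rintro (h1 | h1 | h1)
  · exact hK.notMem hLF hv' h1
  · exact hvi h1.1
  · exact hvj h1.1

end Pool.Agent.Hyp6
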