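import Pool.Agent.Hyp6.L3T7
import Pool.Agent.Hyp6.L3G15

/-!
# HYP6 L3T7g: the fact used in L3T7

`Frm.oneN`: the hypothesis `OneN` of `StgR.ok11`, from the tables of `L3G15`.
-/

set_option autoImplicit false

namespace Pool.Agent.Hyp6

open Finset Pool.Agent.Hyp5

universe u v

variable {V : Type v} [DecidableEq V] {ι : Type u} [Fintype ι] [DecidableEq ι]
  {B : ι → Finset V} {Q U : Finset V} {T : Finset ι} {F : Finset (Finset V)}

/-- **a leaf of value `-1` met only from two triples and one point.** -/
theorem Frm.oneN (h : Frm B Q T U F) (hv : ViolR B Q) : OneN B Q T F :=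
  fun _ hi _ hj hij _ hL hd _ hp => h.one_neg hv hi hj hij hL hp hd

end Pool.Agent.Hyp6
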