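import Pool.Agent.Hyp6.L3W9

/-!
# HYP6 L3Wx: classes of rank two with two inside triples are paid, the last step

`Wd2.niC`, `Wd2.niE`: the inequality. `StgR.D22`: the classes of rank two with two inside triples are paid.
`StgR.h22`: the excess at these classes.
-/

set_option autoImplicit false

namespace Pool.Agent.Hyp6

open Finset Pool.Agent.Hyp5 Rt

universe u v

variable {V : Type v} [DecidableEq V] {ι : Type u} [Fintype ι] [DecidableEq ι]
  {B : ι → Finset V} {Q U : Finset V} {T : Finset ι} {F : Finset (Finset V)}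
  {P : Finset (Finset (Finset V))} {a : V → Finset (Finset V) → ℕ} {C : Finset (Finset V)} {i j : ι}
  {A : Finset ι} {sb : ι → ℕ}

/-- the payments of the triples `A`. -/
structure Pay (B : ι → Finset V) (Q : Finset V) (T : Finset ι) (U : Finset V)
    (F : Finset (Finset V)) (P : Finset (Finset (Finset V)))
    (C : Finset (Finset V)) (A : Finset ι) (π : ι → ℤ) : Prop where
  one : ∀ k ∈ A, 1 ≤ jC B Q k C → 560 + pm (jC B Q k C) ≤ π k
  zero : ∀ k ∈ A, jC B Q k C = 0 → 464 ≤ π k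
  ne : A = ∅ → aC B Q T U F P C = ∅

namespace Wd2

theorem K2 (d : Wd2 B Q T U F P a C i j A sb) :
    ((Sp.Kin (Rg B Q T U F) (slj B Q F) C).card : ℤ) = 2 := by
  rw [d.K, card_pair d.ij]
  norm_num

theorem le11 (d : Wd2 B Q T U F P a C i j A sb) {k : ι} (hk : k ∈ A) : jC B Q k C ≤ 11 :=
  d.s.toStg.jC_le11 (Sp.mem_atl.1 (d.A hk)).1 d.hC

theorem pay3 (d : Wd2 B Q T U F P a C i j A sb) {π : ι → ℤ} (h : Pay B Q T U F P C A π) {k : ι}
    (hk : k ∈ A) : 399 ≤ π k ∧ 54 * (jC B Q k C : ℤ) ≤ π k ∧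
      381 + 18 * (jC B Q k C : ℤ) ≤ π k := by
  have h11 := d.le11 hk
  rcases Nat.eq_zero_or_pos (jC B Q k C) with h0 | h0
  · have h1 := h.zero k hk h0
    rw [h0]
    push_cast
    refine ⟨?_, ?_, ?_⟩ <;> linarith
  · have h1 := h.one k hk h0
    obtain ⟨p1, p2, p3, -⟩ := pm_num h0 h11
    exact ⟨by linarith, by linarith, by linarith⟩

theorem nd (d : Wd2 B Q T U F P a C i j A sb) {π : ι → ℤ} (h : Pay B Q T U F P C A π) :
    Nd C.card (Sp.Uin U (slf B F) C).card (Sp.Kin (Rg B Q T U F) (slj B Q F) C).card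
        (lsC B Q T U F C) (Frm.xC B Q T (Rg B Q T U F) U F C)
        (∑ L ∈ C, fs B Q L) (∑ L ∈ C, (ee B Q L : ℤ)) (∑ L ∈ C, (nt B L 1 : ℤ))
        (∑ L ∈ C, (L.card : ℤ)) (A.filter (fun k => 1 ≤ jC B Q k C)).card
        (Bc B Q T U F P C).card
        (∑ k ∈ A, (jC B Q k C : ℤ)) (∑ k ∈ A, π k)
        (∑ j ∈ Bc B Q T U F P C, (sb j : ℤ)) (xA B Q T U F P C A sb) :=
  d.s.toStg.nd22 d.hC d.A (fun _ hk => d.pay3 h hk)
    (fun k hk => ⟨(d.sb k hk).1, (d.sb k hk).2.1⟩)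

/-- the numbers of one line triple. -/
theorem oneq (d : Wd2 B Q T U F P a C i j A sb) {π : ι → ℤ} (h : Pay B Q T U F P C A π)
    (hq : (A.filter (fun k => 1 ≤ jC B Q k C)).card = 1) :
    ∑ k ∈ A, (jC B Q k C : ℤ) ≤ 11 ∧ (2 ≤ ∑ k ∈ A, (jC B Q k C : ℤ) → 463 ≤ ∑ k ∈ A, π k) ∧
      (3 ≤ ∑ k ∈ A, (jC B Q k C : ℤ) → 516 ≤ ∑ k ∈ A, π k) ∧
      (5 ≤ ∑ k ∈ A, (jC B Q k C : ℤ) → 527 ≤ ∑ k ∈ A, π k) ∧
      (5 ≤ ∑ k ∈ A, (jC B Q k C : ℤ) → ∑ k ∈ A, (jC B Q k C : ℤ) ≤ 7 → 543 ≤ ∑ k ∈ A, π k) := by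
  classical
  obtain ⟨k0, hk0⟩ := card_eq_one.1 hq
  obtain ⟨h1, h2⟩ := mem_filter.1 (by rw [hk0]; exact mem_singleton_self k0 :
      k0 ∈ A.filter (fun k => 1 ≤ jC B Q k C))
  have h3 : ∑ k ∈ A, (jC B Q k C : ℤ) = (jC B Q k0 C : ℤ) := by
    refine sum_eq_single_of_mem k0 h1 fun k hk hne => ?_
    have h4 : ¬ 1 ≤ jC B Q k C := fun h5 => hne (by
      have h6 : k ∈ A.filter (fun k => 1 ≤ jC B Q k C) := mem_filter.2 ⟨hk, h5⟩
      rw [hk0, mem_singleton] at h6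
      exact h6)
    have h5 : jC B Q k C = 0 := by omega
    rw [h5]
    rfl
  have h4 : π k0 ≤ ∑ k ∈ A, π k :=
    single_le_sum (f := fun k => π k) (fun k hk => by
      have := (d.pay3 h hk).1
      linarith) h1
  have h5 := h.one k0 h1 h2
  have h11 := d.le11 h1
  obtain ⟨p1, p2, p3, p4, p5, p6, p7⟩ := pm_num h2 h11
  rw [h3]
  refine ⟨by exact_mod_cast h11, fun g => ?_, fun g => ?_, fun g => ?_, fun g g' => ?_⟩
  · have := p4 (by omega)
    linarith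
  · have := p5 (by omega)
    linarith
  · have := p6 (by omega)
    linarith
  · have := p7 (by omega) (by omega)
    linarith

theorem q0 (_d : Wd2 B Q T U F P a C i j A sb)
    (hq : (A.filter (fun k => 1 ≤ jC B Q k C)).card = 0) : ∀ k ∈ A, jC B Q k C = 0 := by
  intro k hk
  by_contra h1
  have h2 := card_eq_zero.1 hq
  exact absurd (mem_filter.2 ⟨hk, by omega⟩ : k ∈ A.filter (fun k => 1 ≤ jC B Q k C))
    (by rw [h2]; exact notMem_empty k)

theorem k0 (d : Wd2 B Q T U F P a C i j A sb)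
    (hq : (A.filter (fun k => 1 ≤ jC B Q k C)).card = 0) : ∑ k ∈ A, (jC B Q k C : ℤ) = 0 :=
  sum_eq_zero fun k hk => by rw [d.q0 hq k hk]; rfl

theorem S464 (d : Wd2 B Q T U F P a C i j A sb) {π : ι → ℤ} (h : Pay B Q T U F P C A π)
    (hq : (A.filter (fun k => 1 ≤ jC B Q k C)).card = 0) (hne : A.Nonempty) :
    464 ≤ ∑ k ∈ A, π k := by
  obtain ⟨k0, hk0⟩ := hne
  have h1 := h.zero k0 hk0 (d.q0 hq k0 hk0)
  exact h1.trans (single_le_sum (f := fun k => π k) (fun k hk => by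
      have := (d.pay3 h hk).1
      linarith) hk0)

theorem Spos (d : Wd2 B Q T U F P a C i j A sb) {π : ι → ℤ} (h : Pay B Q T U F P C A π) :
    0 ≤ ∑ k ∈ A, π k := sum_nonneg fun k hk => by
  have := (d.pay3 h hk).1
  linarith

/-- the claims of an inside triple as numbers. -/
theorem kC (d : Wd2 B Q T U F P a C i j A sb) {k : ι}
    (hk : k ∈ Sp.Kin (Rg B Q T U F) (slj B Q F) C)
    (h : ncl B Q T U F P k ≤ 1 ∨
      (ncl B Q T U F P k ≤ 3 ∧ ∑ L ∈ F, jh B Q k L + ncl B Q T U F P k ≤ 8)) :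
    (ncl B Q T U F P k ≤ 1 ∧
      ncl B Q T U F P k ≤ jn B Q (Ep B Q T U F) k + jb B Q T U k) ∨
    (ncl B Q T U F P k ≤ 3 ∧
      4 + ncl B Q T U F P k ≤ jn B Q (Ep B Q T U F) k + jb B Q T U k) := by
  obtain ⟨h1, h2⟩ := d.kx hk
  omega

/-- **the inequality**, first kind of claims. -/
theorem niC (d : Wd2 B Q T U F P a C i j A sb) (hD : DonC B Q T U F P C) {π : ι → ℤ}
    (h : Pay B Q T U F P C A π) : NIA B Q T U F P C A sb (∑ k ∈ A, π k) := by
  classical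
  have hN := d.nd h
  have hK2 := d.K2
  have hr := d.r
  have hA := d.hA
  obtain ⟨hd1, hd2⟩ := d.don
  have hi : i ∈ Sp.Kin (Rg B Q T U F) (slj B Q F) C := by rw [d.K]; simp
  have hj : j ∈ Sp.Kin (Rg B Q T U F) (slj B Q F) C := by rw [d.K]; simp
  have hd := listC hd1 (X := (Frm.xC B Q T (Rg B Q T U F) U F C : ℤ))
    (by exact_mod_cast hd2) (d.kC hi (hD i hi)) (d.kC hj (hD j hj))
  unfold NIA
  rcases (by omega : 2 ≤ (A.filter (fun k => 1 ≤ jC B Q k C)).card + (Bc B Q T U F P C).card ∨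
    ((A.filter (fun k => 1 ≤ jC B Q k C)).card = 1 ∧ (Bc B Q T U F P C).card = 0) ∨
    ((A.filter (fun k => 1 ≤ jC B Q k C)).card = 0 ∧ (Bc B Q T U F P C).card = 1) ∨
    ((A.filter (fun k => 1 ≤ jC B Q k C)).card = 0 ∧ (Bc B Q T U F P C).card = 0)) with
    h2 | ⟨hq, hb⟩ | ⟨hq, hb⟩ | ⟨hq, hb⟩
  · exact hN.g22z hr hK2 hd hA (by exact_mod_cast h2)
  · obtain ⟨D, hD0, hDC, h3, -⟩ := d.D0 (by omega)
    have h4 := d.S2 hD0 hDC
    have hs0 : ∑ j ∈ Bc B Q T U F P C, (sb j : ℤ) = 0 := by rw [card_eq_zero.1 hb, sum_empty]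
    obtain ⟨o1, o2, o3, o4, o5⟩ := d.oneq h hq
    exact hN.g22q hr hK2 (by exact_mod_cast hq) (by exact_mod_cast hb) hs0 hd hA
      (h4.trans h3) (fun g1 g2 => d.h1 (by omega) g1 g2) (fun g1 g2 => d.h2 (by omega) g1 g2)
      o1 o2 o3 o4 o5
  · obtain ⟨D, hD0, hDC, h3, -⟩ := d.D0 (by omega)
    have h4 := d.S2 hD0 hDC
    rw [hq] at hN
    rw [d.k0 hq] at hN
    push_cast at hN
    refine NI.mono (hN.S0.g22b hr hK2 rfl (by exact_mod_cast hb) rfl rfl hd hA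
      (h4.trans h3) (fun g1 g2 => d.h1 (by omega) g1 g2) (fun g1 g2 => ?_)) (d.Spos h)
    have h5 := d.h2 (by omega) g1 g2
    rw [d.k0 hq] at h5
    exact h5
  · have hB0 := card_eq_zero.1 hb
    have hY := d.le0 (d.q0 hq) hB0
    have hY3 := d.three
    have hs0 : ∑ j ∈ Bc B Q T U F P C, (sb j : ℤ) = 0 := by rw [hB0, sum_empty]
    have hE : 1 ≤ ∑ L ∈ C, (ee B Q L : ℤ) →
        8 ≤ xA B Q T U F P C A sb + ∑ L ∈ C, fs B Q L := fun he => (d.hE he).trans hY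
    rcases A.eq_empty_or_nonempty with hA0 | hA0
    swap
    · exact hN.g22f hr hK2 (by exact_mod_cast hq) (by exact_mod_cast hb) (d.k0 hq) hs0 hd hA hE
        (hY3.trans hY) (d.S464 h hq hA0)
    have hS0 : ∑ k ∈ A, π k = 0 := by rw [hA0, sum_empty]
    have hpp : (Sp.Uin U (slf B F) C).card = 0 ∨ (Sp.Uin U (slf B F) C).card = 1 ∨
        2 ≤ (Sp.Uin U (slf B F) C).card := by omega
    rcases hpp with hp | hp | hp
    · obtain ⟨r0, r1, r2, r3, r4, r5⟩ := d.row0 hp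
      refine hN.g22t0 hr hK2 (by exact_mod_cast hq) (by exact_mod_cast hb) (d.k0 hq) hS0 hs0 hd hA
        hE (r0.trans hY) (fun _ g1 g2 => (r1 g1 g2).trans hY) (fun _ g1 g2 => (r2 g1 g2).trans hY)
        (fun _ g1 g2 => (r3 g1 g2).trans hY) (fun _ g1 g2 => (r4 g1 g2).trans hY)
        (fun _ g1 g2 => ?_) (fun g => by omega) (fun g => by omega) (fun g => by omega)
        (fun g => by omega)
      rcases r5 g1 g2 with g3 | ⟨L, M, _, hC, q1, q2, q3, q4⟩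
      · exact Or.inr (Or.inr (g3.trans hY))
      · rcases d.r048 hp hD hC q1 q2 q3 q4 rfl with g4 | g4
        · exact Or.inl g4
        · exact Or.inr (Or.inl g4)
    · rcases d.p1 hp with hs | ⟨La, Lb, L3, w, e1, e2, e3, e4, e5, e6, e7, e8, e9, e10⟩
      · obtain ⟨r1, r2, r3, r4, r5⟩ := d.row2 hp hs hD rfl
        exact hN.g22t1 hr hK2 (by exact_mod_cast hq) (by exact_mod_cast hb) (d.k0 hq) hS0 hs0 hd
          hA hE (by exact_mod_cast hp) (hY3.trans hY) (fun g1 g2 => (r1 g1 g2).trans hY)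
          (fun g1 g2 => (r2 g1 g2).trans hY) (fun g1 g2 => (r3 g1 g2).trans hY)
          (fun g1 g2 => (r4 g1 g2).trans hY) r5
      · obtain ⟨r0, r1, r2, r3, r4⟩ := d.row1 e1 e2 e3 e4 e5 e6 e7 e8 e9 e10
        refine hN.g22t0 hr hK2 (by exact_mod_cast hq) (by exact_mod_cast hb) (d.k0 hq) hS0 hs0 hd
          hA hE (r0.trans hY) (fun g => by omega) (fun g => by omega) (fun g => by omega)
          (fun g => by omega) (fun g => by omega) (fun _ g1 g2 => (r1 g1 g2).trans hY)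
          (fun _ g1 g2 => (r2 g1 g2).trans hY) (fun _ g1 g2 => (r3 g1 g2).trans hY)
          (fun _ g1 g2 => ?_)
        rcases r4 g1 g2 with g3 | g3
        · exact Or.inr (Or.inr (Or.inl g3))
        · exact Or.inr (Or.inr (Or.inr (g3.trans hY)))
    · exact hN.g22p hr hK2 (by exact_mod_cast hq) (by exact_mod_cast hb) (d.k0 hq) hS0 hs0 hd hA
        hE (by exact_mod_cast hp)

/-- the claims in terms of two inside triples. -/
theorem don2 (d : Wd2 B Q T U F P a C i j A sb) {k l : ι}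
    (hkl : Sp.Kin (Rg B Q T U F) (slj B Q F) C = {k, l}) (hne : k ≠ l) :
    -tK B Q (Rg B Q T U F) F (tF B Q T U F P) C =
        80 * ((ncl B Q T U F P k : ℤ) + ncl B Q T U F P l) ∧
      Frm.xC B Q T (Rg B Q T U F) U F C = (jn B Q (Ep B Q T U F) k + jb B Q T U k) +
        (jn B Q (Ep B Q T U F) l + jb B Q T U l) := by
  constructor
  · rw [d.s.don_eq d.hC, hkl, sum_pair hne]
  · unfold Frm.xC
    rw [hkl, sum_pair hne]

/-- **the inequality**, second kind of claims. -/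
theorem niE (d : Wd2 B Q T U F P a C i j A sb) {k l : ι}
    (hkl : Sp.Kin (Rg B Q T U F) (slj B Q F) C = {k, l}) (hne : k ≠ l)
    (hk2 : ncl B Q T U F P k = 2)
    (hx : ∃ (m : ι) (x : V), m ∈ T ∧ m ≠ k ∧ {x} ∈ C ∧ hit B U {x} = 0 ∧ 6 ≤ jh B Q m {x} ∧
          ∑ L ∈ F, jh B Q m L + 2 + ncl B Q T U F P m ≤ 12)
    (hl2 : ncl B Q T U F P l ≤ 1 ∨
          (ncl B Q T U F P l ≤ 3 ∧ ∑ L ∈ F, jh B Q l L + ncl B Q T U F P l ≤ 8) ∨
          (ncl B Q T U F P l = 2 ∧ ∃ (m : ι) (x : V), m ∈ T ∧ m ≠ l ∧ {x} ∈ C ∧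
            hit B U {x} = 0 ∧ 6 ≤ jh B Q m {x} ∧
            ∑ L ∈ F, jh B Q m L + 2 + ncl B Q T U F P m ≤ 12)) {π : ι → ℤ}
    (h : Pay B Q T U F P C A π) : NIA B Q T U F P C A sb (∑ k ∈ A, π k) := by
  classical
  have hN := d.nd h
  have hK2 := d.K2
  have hr := d.r
  have hA := d.hA
  obtain ⟨hd1, hd2⟩ := d.don2 hkl hne
  have hk : k ∈ Sp.Kin (Rg B Q T U F) (slj B Q F) C := by rw [hkl]; simp
  have hl : l ∈ Sp.Kin (Rg B Q T U F) (slj B Q F) C := by rw [hkl]; simp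
  obtain ⟨a1, a2⟩ := d.kx hk
  obtain ⟨b1, b2⟩ := d.kx hl
  have hl3 : (ncl B Q T U F P l ≤ 1 ∧
      ncl B Q T U F P l ≤ jn B Q (Ep B Q T U F) l + jb B Q T U l) ∨
    (ncl B Q T U F P l ≤ 3 ∧
      4 + ncl B Q T U F P l ≤ jn B Q (Ep B Q T U F) l + jb B Q T U l) ∨
    (ncl B Q T U F P l = 2 ∧ 2 ≤ jn B Q (Ep B Q T U F) l + jb B Q T U l) := by
    rcases hl2 with h1 | h1 | ⟨h1, -⟩ <;> omega
  have hd := listE hd1 (X := (Frm.xC B Q T (Rg B Q T U F) U F C : ℤ))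
    (by exact_mod_cast hd2) ⟨hk2, by omega⟩ hl3
  obtain ⟨m, x, hm, hmk, hxC, hx0, hx6, hm12⟩ := hx
  obtain ⟨y4, n4, l2, g5⟩ := d.e2b hxC hx0
  have hall := d.s.toStg.oS_all d.hC d.ij d.K d.A sb
  unfold NIA
  rcases (by omega : 2 ≤ (A.filter (fun k => 1 ≤ jC B Q k C)).card + (Bc B Q T U F P C).card ∨
    ((A.filter (fun k => 1 ≤ jC B Q k C)).card = 1 ∧ (Bc B Q T U F P C).card = 0) ∨
    ((A.filter (fun k => 1 ≤ jC B Q k C)).card = 0 ∧ (Bc B Q T U F P C).card = 1) ∨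
    ((A.filter (fun k => 1 ≤ jC B Q k C)).card = 0 ∧ (Bc B Q T U F P C).card = 0)) with
    h2 | ⟨hq, hb⟩ | ⟨hq, hb⟩ | ⟨hq, hb⟩
  · exact hN.g22zE hr hK2 hd hA (by exact_mod_cast h2) n4 l2 g5
  · obtain ⟨D, hD0, hDC, h3, -⟩ := d.D0 (by omega)
    have h4 := d.S2 hD0 hDC
    have hs0 : ∑ j ∈ Bc B Q T U F P C, (sb j : ℤ) = 0 := by rw [card_eq_zero.1 hb, sum_empty]
    obtain ⟨o1, o2, o3, o4, o5⟩ := d.oneq h hq
    exact hN.g22qE hr hK2 (by exact_mod_cast hq) (by exact_mod_cast hb) hs0 hd hA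
      (h4.trans h3) (y4.trans hall) n4 l2 g5 (fun g1 g2 => d.h1 (by omega) g1 g2)
      (fun g1 g2 => d.h2 (by omega) g1 g2) o1 o2 o3 o4 o5
  · obtain ⟨D, hD0, hDC, h3, -⟩ := d.D0 (by omega)
    have h4 := d.S2 hD0 hDC
    rw [hq] at hN
    rw [d.k0 hq] at hN hall
    push_cast at hN
    refine NI.mono (hN.S0.g22bE hr hK2 rfl (by exact_mod_cast hb) rfl rfl hd hA
      (h4.trans h3) (y4.trans hall) n4 l2 g5 (fun g1 g2 => d.h1 (by omega) g1 g2)
      (fun g1 g2 => ?_)) (d.Spos h)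
    have h5 := d.h2 (by omega) g1 g2
    rw [d.k0 hq] at h5
    exact h5
  · have hB0 := card_eq_zero.1 hb
    have hY := d.le0 (d.q0 hq) hB0
    have hs0 : ∑ j ∈ Bc B Q T U F P C, (sb j : ℤ) = 0 := by rw [hB0, sum_empty]
    have hE : 1 ≤ ∑ L ∈ C, (ee B Q L : ℤ) →
        8 ≤ xA B Q T U F P C A sb + ∑ L ∈ C, fs B Q L := fun he => (d.hE he).trans hY
    rcases A.eq_empty_or_nonempty with hA0 | hA0
    swap
    · exact hN.g22fE hr hK2 (by exact_mod_cast hq) (by exact_mod_cast hb) (d.k0 hq) hs0 hd hA hE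
        (y4.trans hY) (d.S464 h hq hA0) n4 l2 g5
    have hS0 : ∑ k ∈ A, π k = 0 := by rw [hA0, sum_empty]
    have haC := h.ne hA0
    have hx6' : 6 ≤ ∑ j ∈ Trs B Q T (Rg B Q T U F) U F P, jC B Q j C →
        NI C.card (Sp.Uin U (slf B F) C).card (Sp.Kin (Rg B Q T U F) (slj B Q F) C).card
          (lsC B Q T U F C) (Frm.xC B Q T (Rg B Q T U F) U F C)
          (∑ L ∈ C, fs B Q L) (∑ L ∈ C, (ee B Q L : ℤ)) (∑ L ∈ C, (nt B L 1 : ℤ))
          (Bc B Q T U F P C).card (∑ k ∈ A, π k) (∑ j ∈ Bc B Q T U F P C, (sb j : ℤ))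
          (xA B Q T U F P C A sb) (-tK B Q (Rg B Q T U F) F (tF B Q T U F P) C) := by
      intro h6
      refine hN.g22tX hr hK2 (by exact_mod_cast hq) (by exact_mod_cast hb) (d.k0 hq) hS0 hs0 hd
        hA hE ?_ n4 l2 g5
      have h7 : (6 : ℤ) ≤ ∑ j ∈ Trs B Q T (Rg B Q T U F) U F P, (jC B Q j C : ℤ) := by
        exact_mod_cast h6
      have h8 : (0 : ℤ) ≤ (gC B U F P C : ℤ) := by positivity
      have h9 : 0 ≤ ∑ L ∈ C, fs B Q L := sum_nonneg fun L hL => d.fs0 hL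
      unfold xA
      rw [haC, hB0]
      simp only [sum_empty, empty_sdiff]
      linarith
    rcases d.s.rec_cases d.hC hm hxC hx6 with hmK | hma | hmT
    · rw [hkl] at hmK
      simp only [mem_insert, mem_singleton] at hmK
      have hml : m = l := hmK.resolve_left hmk
      subst hml
      have hm6 : 6 ≤ ∑ L ∈ F, jh B Q m L :=
        hx6.trans (single_le_sum (f := fun L => jh B Q m L) (fun _ _ => Nat.zero_le _)
          (d.CF hxC))
      have hfin : (ncl B Q T U F P m ≤ 1 ∨ (ncl B Q T U F P m ≤ 2 ∧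
            6 ≤ jn B Q (Ep B Q T U F) m + jb B Q T U m) ∨
          (ncl B Q T U F P m = 2 ∧ 4 ≤ jn B Q (Ep B Q T U F) k + jb B Q T U k)) →
          NI C.card (Sp.Uin U (slf B F) C).card (Sp.Kin (Rg B Q T U F) (slj B Q F) C).card
          (lsC B Q T U F C) (Frm.xC B Q T (Rg B Q T U F) U F C)
          (∑ L ∈ C, fs B Q L) (∑ L ∈ C, (ee B Q L : ℤ)) (∑ L ∈ C, (nt B L 1 : ℤ))
          (Bc B Q T U F P C).card (∑ k ∈ A, π k) (∑ j ∈ Bc B Q T U F P C, (sb j : ℤ))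
          (xA B Q T U F P C A sb) (-tK B Q (Rg B Q T U F) F (tF B Q T U F P) C) := by
        intro h6
        have hdI := listI hd1 (X := (Frm.xC B Q T (Rg B Q T U F) U F C : ℤ))
          (by exact_mod_cast hd2) ⟨hk2, by omega⟩ (by omega) h6
        refine hN.g22tE hr hK2 (by exact_mod_cast hq) (by exact_mod_cast hb) (d.k0 hq) hS0 hs0 hdI
          hA hE (y4.trans hY) n4 l2 g5 (fun hp g1 g2 => ?_)
        exact ((d.row0 (by exact_mod_cast hp)).2.2.2.2.1 g1 g2).trans hY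
      rcases hl2 with h1 | ⟨h1, h3⟩ | ⟨h1, m2, x2, hm2, hm2l, hx2C, _, hx26, hm212⟩
      · exact hfin (Or.inl h1)
      · rcases (by omega : ncl B Q T U F P m ≤ 1 ∨ 2 ≤ ncl B Q T U F P m) with h7 | h7
        · exact hfin (Or.inl h7)
        · exact hfin (Or.inr (Or.inl ⟨by omega, by omega⟩))
      · rcases d.s.rec_cases d.hC hm2 hx2C hx26 with hmK2 | hma2 | hmT2
        · rw [hkl] at hmK2
          simp only [mem_insert, mem_singleton] at hmK2
          have hmk2 : m2 = k := hmK2.resolve_right hm2l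
          subst hmk2
          exact hfin (Or.inr (Or.inr ⟨h1, by omega⟩))
        · rw [haC, card_empty] at hma2
          omega
        · exact hx6' hmT2
    · rw [haC, card_empty] at hma
      omega
    · exact hx6' hmT

/-- **the inequality for classes of rank two with two inside triples**. -/
theorem ni (d : Wd2 B Q T U F P a C i j A sb) (hD : DonS B Q T U F P C) {π : ι → ℤ}
    (h : Pay B Q T U F P C A π) : NIA B Q T U F P C A sb (∑ k ∈ A, π k) := by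
  rcases d.cases hD with h1 | ⟨k, l, h1, h2, h3, h4, h5⟩
  · exact d.niC h1 h
  · exact d.niE h1 h2 h3 h4 h5 h

end Wd2

namespace StgR

/-- **the classes of rank two with two inside triples are paid**. -/
theorem D22 (s : StgR B Q T U F P a) (hF : Few B Q T F) (hG : G31 B Q T U F) (hC : C ∈ P)
    (hf : ¬ Ful B Q T U F P a C) (hD : DonS B Q T U F P C)
    (hr : (C.card : ℤ) - (Sp.Uin U (slf B F) C).card = 2) (hK : (KC B Q T U F C).card = 2) :
    NdOk B Q T U F P a C := by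
  classical
  obtain ⟨i, j, hij, hKe⟩ := card_eq_two.1 hK
  refine s.ndok2 hC hf fun sb hsb => ?_
  have d : Wd2 B Q T U F P a C i j (aC B Q T U F P C) sb :=
    ⟨s, hF, hG, hC, hij, hKe, hr, Subset.refl _, hsb⟩
  refine d.ni hD ⟨fun k hk h1 => ?_, fun k hk h0 => ?_, fun h => h⟩
  · have h11 := s.toStg.jC_le11 (Sp.mem_atl.1 hk).1 hC
    unfold pJ
    split_ifs
    · exact le_refl _
    · exact sF_pm h1 h11
  · unfold pJ
    split_ifs with h2
    · have := s.jC_thin hk h2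
      omega
    · rw [h0]
      decide

/-- **the excess at the classes of rank two with two inside triples**. -/
theorem h22 (s : StgR B Q T U F P a) (hF : Few B Q T F) (hG : G31 B Q T U F) (hC : C ∈ P)
    (hf : ¬ Ful B Q T U F P a C) (hD : DonS B Q T U F P C)
    (hr : (C.card : ℤ) - (Sp.Uin U (slf B F) C).card = 2) (hK : (KC B Q T U F C).card = 2)
    (hj : j ∈ aC B Q T U F P C) :
    Exs B Q T U F P a (tF B Q T U F P) j C ≤ exS (jC B Q j C) := by
  classical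
  obtain ⟨i, l, hil, hKe⟩ := card_eq_two.1 hK
  refine s.exs_of2 hC hf hj fun sb hsb => ?_
  have d : Wd2 B Q T U F P a C i l {j} sb :=
    ⟨s, hF, hG, hC, hil, hKe, hr, singleton_subset_iff.2 hj, hsb⟩
  have h1 := d.ni hD (π := fun k => sF (jC B Q k C)) ⟨fun k hk h1 => ?_, fun k hk h0 => ?_,
    fun h => absurd h (singleton_ne_empty j)⟩
  · rw [sum_singleton] at h1
    exact h1
  · rw [mem_singleton] at hk
    subst hk
    exact sF_pm h1 (s.toStg.jC_le11 (Sp.mem_atl.1 hj).1 hC)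
  · rw [h0]
    decide

end StgR

end Pool.Agent.Hyp6
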