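import Pool.Agent.Hyp6.L3Ym

/-!
# HYP6 L3Yn: composite classes with centres and at least two line triples

`Tq21`: the bounds of the need of two line triples and a centred triple. `Sm.en21`: the class is paid by
numbers, except for two rows. `Frm.third`: in these rows every triple has a hit on every leaf.
`StgR.EN`: **composite classes without inside triples, with at least two line triples**.
-/

set_option autoImplicit false

namespace Pool.Agent.Hyp6

open Finset Pool.Agent.Hyp5 Rt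

universe u v

/-- the bounds of the need `c` of two line triples and one centred triple with `H` hits. -/
structure Tq21 (H c : ℤ) : Prop where
  lin : c ≤ 120 * H - 934
  b14 : H ≤ 14 → c ≤ 586
  b15 : H = 15 → c ≤ 746
  b16 : H = 16 → c ≤ 906
  b17 : H = 17 → c ≤ 1066
  b18 : H = 18 → c ≤ 1146
  b19 : H = 19 → c ≤ 1280
  b21 : H = 21 → c ≤ 1504

theorem tC_dec21 : ∀ a ∈ range 12, ∀ b ∈ range 12, ∀ s ∈ range 9,
    (a + b + s ≤ 14 → tC a + tC b + (160 * (s : ℤ) - 584) ≤ 586) ∧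
    (a + b + s ≤ 15 → tC a + tC b + (160 * (s : ℤ) - 584) ≤ 746) ∧
    (a + b + s ≤ 16 → tC a + tC b + (160 * (s : ℤ) - 584) ≤ 906) ∧
    (a + b + s ≤ 17 → tC a + tC b + (160 * (s : ℤ) - 584) ≤ 1066) := by
  decide +kernel

theorem tC_dec22 : ∀ a ∈ range 12, ∀ b ∈ range 12, ∀ s ∈ range 9,
    (a + b + s ≤ 18 → tC a + tC b + (160 * (s : ℤ) - 584) ≤ 1146) ∧
    (a + b + s ≤ 19 → tC a + tC b + (160 * (s : ℤ) - 584) ≤ 1280) ∧
    (a + b + s ≤ 21 → tC a + tC b + (160 * (s : ℤ) - 584) ≤ 1504) := by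
  decide +kernel

theorem tC_dec23 : ∀ a ∈ range 12, ∀ b ∈ range 12, ∀ s ∈ range 9, 2 ≤ a → 2 ≤ b → 2 ≤ s →
    (a + b + s ≤ 16 → tC a + tC b + (160 * (s : ℤ) - 584) ≤ 840) ∧
    (a + b + s ≤ 17 → tC a + tC b + (160 * (s : ℤ) - 584) ≤ 1000) := by
  decide +kernel

theorem t21_of {a b s : ℕ} (ha : a ≤ 11) (hb : b ≤ 11) (hs : s ≤ 8) {c : ℤ}
    (hc : c ≤ tC a + tC b + (160 * (s : ℤ) - 584)) : Tq21 ((a : ℤ) + b + s) c := by
  have h1 := tC_lin a (mem_range.2 (by omega))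
  have h2 := tC_lin b (mem_range.2 (by omega))
  obtain ⟨t1, t2, t3, t4⟩ := tC_dec21 a (mem_range.2 (by omega)) b
    (mem_range.2 (by omega)) s (mem_range.2 (by omega))
  obtain ⟨t5, t6, t7⟩ := tC_dec22 a (mem_range.2 (by omega)) b
    (mem_range.2 (by omega)) s (mem_range.2 (by omega))
  constructor <;> omega

/-- **two line triples and a centred triple**: the class is paid, or one of two rows. -/
theorem Sm.en21 {n S E N H Y x p W c : ℤ} (h : Sm n S E N H Y x) (hn : n = p + 1) (hp : 1 ≤ p)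
    (t : Tq21 H c) (hW : 0 ≤ W) (hY : Y = 5 * p - W) (hN : n ≤ Y) :
    c + 120 * n - 120 * S - 600 * p - 160 * W - 5 * x ≤ 0 ∨
    (n = 2 ∧ E = 0 ∧ x = 0 ∧ ((S = 0 ∧ N = 2 ∧ W = 3 ∧ H = 16) ∨
      (S = 4 ∧ N = 4 ∧ W = 1 ∧ H = 17))) := by
  obtain ⟨h1, h2, h3, h4, h5, h6, h7, h8⟩ := h
  obtain ⟨t0, t1, t2, t3, t4, t5, t6, t7⟩ := t
  subst hn hY
  by_contra hcon
  rw [not_or] at hcon
  obtain ⟨c1, c2⟩ := hcon
  rcases (by omega : p = 1 ∨ p = 2 ∨ 3 ≤ p) with rfl | rfl | hp3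
  · have hS : S = 0 ∨ S = 2 ∨ S = 4 ∨ 6 ≤ S := by omega
    rcases (by omega : W = 0 ∨ W = 1 ∨ W = 2 ∨ W = 3) with rfl | rfl | rfl | rfl <;>
    rcases (by omega : H ≤ 14 ∨ H = 15 ∨ H = 16 ∨ H = 17 ∨ H = 18 ∨ H = 19 ∨ H = 20 ∨ H = 21 ∨
      22 ≤ H) with hH | hH | hH | hH | hH | hH | hH | hH | hH
    all_goals
      first
      | (have := t1 hH; clear t1 t2 t3 t4 t5 t6 t7; rcases hS with rfl | rfl | rfl | hS <;> omega)
      | (have := t2 hH; clear t1 t2 t3 t4 t5 t6 t7; rcases hS with rfl | rfl | rfl | hS <;> omega)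
      | (have := t3 hH; clear t1 t2 t3 t4 t5 t6 t7; rcases hS with rfl | rfl | rfl | hS <;> omega)
      | (have := t4 hH; clear t1 t2 t3 t4 t5 t6 t7; rcases hS with rfl | rfl | rfl | hS <;> omega)
      | (have := t5 hH; clear t1 t2 t3 t4 t5 t6 t7; rcases hS with rfl | rfl | rfl | hS <;> omega)
      | (have := t6 hH; clear t1 t2 t3 t4 t5 t6 t7; rcases hS with rfl | rfl | rfl | hS <;> omega)
      | (have := t7 hH; clear t1 t2 t3 t4 t5 t6 t7; rcases hS with rfl | rfl | rfl | hS <;> omega)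
      | (clear t1 t2 t3 t4 t5 t6 t7; rcases hS with rfl | rfl | rfl | hS <;> omega)
  · clear c2
    rcases (by omega : H ≤ 18 ∨ H = 19 ∨ H = 20 ∨ H = 21 ∨ 22 ≤ H) with hH | hH | hH | hH | hH
    · omega
    · have := t6 hH
      omega
    · omega
    · have := t7 hH
      omega
    · omega
  · clear c2
    omega

/-- other hits counted as hits of triples. -/
theorem Sm.move {n S E N H Y x d : ℤ} (h : Sm n S E N H Y x) (hd : d ≤ x) :
    Sm n S E N (H + d) Y (x - d) := by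
  obtain ⟨h1, h2, h3, h4, h5, h6, h7, h8⟩ := h
  exact ⟨h1, h2, by omega, h4, h5, by omega, h7, h8⟩

variable {V : Type v} [DecidableEq V] {ι : Type u} [Fintype ι] {B : ι → Finset V}
variable {Q U : Finset V} {T : Finset ι} {F C : Finset (Finset V)} {i j k : ι}

namespace Frm

/-- the hits of a third triple are outside of two triples. -/
theorem jh_le_Rso (h : Frm B Q T U F) (hi : i ∈ T) (hj : j ∈ T) (hk : k ∈ T) (hik : i ≠ k)
    (hjk : j ≠ k) {L : Finset V} (hL : L ∈ F) : jh B Q k L ≤ hit B (Rso B Q U F i j C L) L := by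
  classical
  refine hit_mono_left L fun v hv => ?_
  obtain ⟨hvk, hvQ⟩ := mem_inter.1 hv
  refine mem_sdiff.2 ⟨hvQ, fun h3 => ?_⟩
  rcases mem_union.1 h3 with h3 | h3
  · rcases mem_union.1 h3 with h3 | h3
    · exact disjoint_left.1 (h.disT hL hk) h3 hv
    · rcases mem_union.1 h3 with h3 | h3
      · exact disjoint_left.1 (h.mtp.tpk.pack.disj i hi k hk hik) h3 hv
      · exact disjoint_left.1 (h.mtp.tpk.pack.disj j hj k hk hjk) h3 hv
  · exact disjoint_left.1 (h.uin_disj hk) h3 hvk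

/-- **a leaf with contacts in two triples and one inside point only**. -/
theorem third (h : Frm B Q T U F) (hv : ViolR B Q) [DecidableEq ι] (hi : i ∈ T) (hj : j ∈ T)
    (hij : i ≠ j) {L : Finset V} (hL : L ∈ F) {u : V} (hU : Sp.Uin U (slf B F) C = {u})
    (hx : hit B (Rso B Q U F i j C L) L = 0)
    (hd : (dv B Q L = -1 ∧ hit B (Sp.Uin U (slf B F) C) L ≤ 1) ∨ dv B Q L = 3) :
    jh B Q i L + jh B Q j L ≤ 7 := by
  classical
  have h7 : hit B ((B i ∩ Q) ∪ (B j ∩ Q)) L = jh B Q i L + jh B Q j L :=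
    hit_union_left L (h.mtp.tpk.pack.disj i hi j hj hij)
  rcases hd with ⟨h1, h2⟩ | h1
  · have h3 := (h.few hv i hi j hj hij L hL).neg h1
    have h5 := h.hit_out2 (C := C) hi hj hL
    rw [h5, h7] at h3
    have h6 := h3 (by omega)
    omega
  · have h3 := h.one_three hv hi hj hij hL (p := u) (fun v hv' hvu => ?_) h1
    · rw [h7] at h3
      exact h3
    · have h4 : v ∈ Rso B Q U F i j C L := by
        obtain ⟨h5, h6⟩ := mem_sdiff.1 hv'
        refine mem_sdiff.2 ⟨h5, fun h8 => ?_⟩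
        rcases mem_union.1 h8 with h8 | h8
        · exact h6 h8
        · rw [hU, mem_singleton] at h8
          exact hvu h8
      have h5 := hit_eq_Ez (B := B) (Rso B Q U F i j C L) L
      rw [hx] at h5
      exact card_eq_zero.1 ((sum_eq_zero_iff.1 h5.symm) v h4)

/-- **every one of three triples has a hit**. -/
theorem third3 (h : Frm B Q T U F) (hv : ViolR B Q) [DecidableEq ι] (hi : i ∈ T) (hj : j ∈ T)
    (hk : k ∈ T) (hij : i ≠ j) (hik : i ≠ k) (hjk : j ≠ k) {L : Finset V} (hL : L ∈ F) {u : V}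
    (hU : Sp.Uin U (slf B F) C = {u}) (hx : hit B (Rso B Q U F i j C L) L = jh B Q k L)
    (hd : (dv B Q L = -1 ∧ hit B (Sp.Uin U (slf B F) C) L ≤ 1) ∨ dv B Q L = 3)
    (h8 : 8 ≤ jh B Q i L + jh B Q j L + jh B Q k L) :
    1 ≤ jh B Q i L ∧ 1 ≤ jh B Q j L ∧ 1 ≤ jh B Q k L := by
  have e1 := h.hit_parts4 (C := C) hi hj hij hL
  have e2 := h.hit_parts4 (C := C) hi hk hik hL
  have e3 := h.hit_parts4 (C := C) hj hk hjk hL
  refine ⟨?_, ?_, ?_⟩
  · by_contra hcon
    have := h.third hv hj hk hjk hL hU (by omega) hd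
    omega
  · by_contra hcon
    have := h.third hv hi hk hik hL hU (by omega) hd
    omega
  · by_contra hcon
    have := h.third hv hi hj hij hL hU (by omega) hd
    omega

end Frm

section

variable [DecidableEq ι] {P : Finset (Finset (Finset V))} {a : V → Finset (Finset V) → ℕ}

namespace StgR

/-- the remaining triples are not line triples. -/
theorem trs_ne (s : StgR B Q T U F P a) (hi : i ∈ aC B Q T U F P C)
    (hk : k ∈ Trs B Q T (Rg B Q T U F) U F P) : i ≠ k := by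
  have _ := s.viol
  rintro rfl
  exact (mem_sdiff.1 hk).2 (Sp.mem_atl.1 hi).1

/-- the own hits of a class are at least as many as its leaves. -/
theorem own_ge (s : StgR B Q T U F P a) (hC : C ∈ P) (hK : KC B Q T U F C = ∅)
    (h2 : 2 ≤ C.card) :
    (C.card : ℤ) ≤ 5 * ((Sp.Uin U (slf B F) C).card : ℤ) - lsC B Q T U F C := by
  rw [← s.toStg.sum_y hC]
  have hcard := s.toStg.card_comp hC hK
  have e1 : ∑ L ∈ C, (1 : ℤ) ≤ ∑ L ∈ C, (hit B (Sp.Uin U (slf B F) C) L : ℤ) := by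
    refine sum_le_sum fun L hL => ?_
    obtain ⟨u, hu, h1⟩ := s.toStg.frm.own_hit1 h2 hcard hL
    have h8 := hit_mono_left (B := B) L (singleton_subset_iff.2 hu)
    have : 1 ≤ hit B (Sp.Uin U (slf B F) C) L := by omega
    exact_mod_cast this
  rw [sum_const, nsmul_eq_mul, mul_one] at e1
  exact e1

/-- **the two rows**: every triple has a hit on both leaves. -/
theorem en_row (s : StgR B Q T U F P a) {L M : Finset V}
    (hC : ({L, M} : Finset (Finset V)) ∈ P) (hLM : L ≠ M) (hK : KC B Q T U F {L, M} = ∅)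
    (hi : i ∈ T) (hj : j ∈ T) (hk : k ∈ T) (hij : i ≠ j) (hik : i ≠ k) (hjk : j ≠ k)
    (hx : ∑ K ∈ ({L, M} : Finset (Finset V)), (hit B (Rso B Q U F i j {L, M} K) K : ℤ) =
      jC B Q k {L, M})
    (hE : ∑ K ∈ ({L, M} : Finset (Finset V)), (ee B Q K : ℤ) = 0)
    (hr : (∑ K ∈ ({L, M} : Finset (Finset V)), (Pp B K - 2 * (ee B Q K : ℤ)) = 0 ∧
        ∑ K ∈ ({L, M} : Finset (Finset V)), (nt B K 1 : ℤ) = 2 ∧
        (lsC B Q T U F {L, M} : ℤ) = 3 ∧
        (jC B Q i {L, M} : ℤ) + jC B Q j {L, M} + jC B Q k {L, M} = 16) ∨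
      (∑ K ∈ ({L, M} : Finset (Finset V)), (Pp B K - 2 * (ee B Q K : ℤ)) = 4 ∧
        ∑ K ∈ ({L, M} : Finset (Finset V)), (nt B K 1 : ℤ) = 4 ∧
        (lsC B Q T U F {L, M} : ℤ) = 1 ∧
        (jC B Q i {L, M} : ℤ) + jC B Q j {L, M} + jC B Q k {L, M} = 17)) :
    2 ≤ jC B Q i {L, M} ∧ 2 ≤ jC B Q j {L, M} ∧ 2 ≤ jC B Q k {L, M} := by
  classical
  have hCF : ({L, M} : Finset (Finset V)) ⊆ F := (s.toStg.part.ptn.vc _ hC).sub
  have hLF : L ∈ F := hCF (by simp)
  have hMF : M ∈ F := hCF (by simp)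
  have h2 : ({L, M} : Finset (Finset V)).card = 2 := card_pair hLM
  have hn := s.toStg.card_comp hC hK
  obtain ⟨u, hU⟩ := card_eq_one.1 (by omega : (Sp.Uin U (slf B F) {L, M}).card = 1)
  have hjC : ∀ k, jC B Q k {L, M} = jh B Q k L + jh B Q k M := fun k => sum_pair hLM
  have hY := s.toStg.sum_y hC
  rw [sum_pair hLM, hU, card_singleton, Nat.cast_one, mul_one, ← hU] at hY
  have r1 := s.toStg.frm.jh_le_Rso (C := {L, M}) hi hj hk hik hjk hLF
  have r2 := s.toStg.frm.jh_le_Rso (C := {L, M}) hi hj hk hik hjk hMF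
  rw [sum_pair hLM] at hx hE
  rw [sum_pair hLM, sum_pair hLM] at hr
  have e1 := s.toStg.frm.hit_parts4 (C := {L, M}) hi hj hij hLF
  have e2 := s.toStg.frm.hit_parts4 (C := {L, M}) hi hj hij hMF
  have a1 := s.toStg.hit_all hLF
  have a2 := s.toStg.hit_all hMF
  have b1 := s.toStg.one hLF
  have b2 := s.toStg.one hMF
  have c1 := hit_mono_left (B := B) L (Frm.uin_U (B := B) (F := F) (U := U) (C := {L, M}))
  have c2 := hit_mono_left (B := B) M (Frm.uin_U (B := B) (F := F) (U := U) (C := {L, M}))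
  have d1 := s.toStg.dv_W hLF
  have d2 := s.toStg.dv_W hMF
  rw [hjC k] at hx
  rw [hjC i, hjC j, hjC k] at hr ⊢
  push_cast at hx hr
  obtain ⟨p1, p2, p3, p4, p5, p6, p7, p8, p9, p10, p11, p12, p13⟩ := b1
  obtain ⟨q1, q2, q3, q4, q5, q6, q7, q8, q9, q10, q11, q12, q13⟩ := b2
  have x1 : hit B (Rso B Q U F i j {L, M} L) L = jh B Q k L := by omega
  have x2 : hit B (Rso B Q U F i j {L, M} M) M = jh B Q k M := by omega
  rw [e1, x1] at a1
  rw [e2, x2] at a2
  push_cast at a1 a2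
  generalize (∑ j ∈ T, (jh B Q j L : ℤ)) = tL at *
  generalize (∑ j ∈ T, (jh B Q j M : ℤ)) = tM at *
  have hm1 : (L.card : ℤ) = 1 ∨ 3 ≤ (L.card : ℤ) := by omega
  have hm2 : (M.card : ℤ) = 1 ∨ 3 ≤ (M.card : ℤ) := by omega
  have g1 : (L.card : ℤ) ≠ 1 := fun h => by
    have := p7 h
    have := q5
    omega
  have g2 : (M.card : ℤ) ≠ 1 := fun h => by
    have := q7 h
    have := p5
    omega
  clear p7 q7
  have k1 : ((dv B Q L = -1 ∧ hit B (Sp.Uin U (slf B F) {L, M}) L ≤ 1) ∨ dv B Q L = 3) ∧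
      8 ≤ jh B Q i L + jh B Q j L + jh B Q k L := by
    rcases hr with hr | hr <;> omega
  have k2 : ((dv B Q M = -1 ∧ hit B (Sp.Uin U (slf B F) {L, M}) M ≤ 1) ∨ dv B Q M = 3) ∧
      8 ≤ jh B Q i M + jh B Q j M + jh B Q k M := by
    rcases hr with hr | hr <;> omega
  have f1 := s.toStg.frm.third3 s.toStg.viol hi hj hk hij hik hjk hLF hU x1 k1.1 k1.2
  have f2 := s.toStg.frm.third3 s.toStg.viol hi hj hk hij hik hjk hMF hU x2 k2.1 k2.2
  omega

/-- **the payments of the remaining triples**, with the pair hits of the centred triples. -/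
theorem trs_sb (s : StgR B Q T U F P a) (hC : C ∈ P) :
    ∃ sb : ι → ℕ, (∀ j ∈ Bc B Q T U F P C, sb j ≤ 8 ∧ sb j ≤ jC B Q j C) ∧
      ∑ j ∈ Bc B Q T U F P C, (sb j : ℤ) ≤
        ∑ j ∈ Trs B Q T (Rg B Q T U F) U F P, (jC B Q j C : ℤ) ∧
      ∑ j ∈ Trs B Q T (Rg B Q T U F) U F P,
          (144 * (jC B Q j C : ℤ) - Xv 149 B Q T U F P j C) ≤
        -5 * (∑ j ∈ Trs B Q T (Rg B Q T U F) U F P, (jC B Q j C : ℤ) -
          ∑ j ∈ Bc B Q T U F P C, (sb j : ℤ)) +
        ∑ j ∈ Bc B Q T U F P C, (160 * (sb j : ℤ) - 584) := by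
  classical
  obtain ⟨sb, hsb, htr⟩ := s.toStg.trs_ge hC
  refine ⟨sb, hsb, ?_, ?_⟩
  · have e1 : ∑ j ∈ Bc B Q T U F P C, (sb j : ℤ) ≤ ∑ j ∈ Bc B Q T U F P C, (jC B Q j C : ℤ) :=
      sum_le_sum fun j hj => by exact_mod_cast (hsb j hj).2
    exact e1.trans (sum_le_sum_of_subset_of_nonneg (filter_subset _ _)
      fun _ _ _ => by positivity)
  · rw [sum_sub_distrib, ← mul_sum]
    have e2 : ∑ j ∈ Bc B Q T U F P C, (160 * (sb j : ℤ) - 584) =
        160 * ∑ j ∈ Bc B Q T U F P C, (sb j : ℤ) - 584 * ((Bc B Q T U F P C).card : ℤ) := by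
      rw [sum_sub_distrib, ← mul_sum, sum_const, nsmul_eq_mul]
      ring
    have e3 : ∑ j ∈ Bc B Q T U F P C, (584 - 16 * (sb j : ℤ)) =
        584 * ((Bc B Q T U F P C).card : ℤ) - 16 * ∑ j ∈ Bc B Q T U F P C, (sb j : ℤ) := by
      rw [sum_sub_distrib, ← mul_sum, sum_const, nsmul_eq_mul]
      ring
    rw [e3] at htr
    rw [e2]
    linarith

/-- **at least four line triples and centred triples**. -/
theorem en_four (s : StgR B Q T U F P a) (hC : C ∈ P) (hf : ¬ Ful B Q T U F P a C)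
    (h2 : 2 ≤ C.card) (ha : 2 ≤ (aC B Q T U F P C).card)
    (hb : 4 ≤ (aC B Q T U F P C).card + (Bc B Q T U F P C).card)
    (hK : KC B Q T U F C = ∅) : NdOk B Q T U F P a C := by
  classical
  refine s.nd_ok hC hf fun _ => ?_
  obtain ⟨hsm, hN, hnC⟩ := s.smC hC hK
  obtain ⟨sb, hsb, hle, htr⟩ := s.trs_sb hC
  have hcard := s.toStg.card_comp hC hK
  have hW : (0 : ℤ) ≤ lsC B Q T U F C := by positivity
  have hg : (0 : ℤ) ≤ gC B U F P C := by positivity
  have hcz : (C.card : ℤ) = (Sp.Uin U (slf B F) C).card + 1 := by exact_mod_cast hcard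
  have h1 : ∑ j ∈ aC B Q T U F P C, cJ B Q U F P j C ≤
      120 * ∑ j ∈ aC B Q T U F P C, (jC B Q j C : ℤ) -
        335 * ((aC B Q T U F P C).card : ℤ) := by
    have h2 : ∑ j ∈ aC B Q T U F P C, cJ B Q U F P j C ≤
        ∑ j ∈ aC B Q T U F P C, (120 * (jC B Q j C : ℤ) - 335) := sum_le_sum fun j hj =>
      (s.cJ_le hC hj).trans (tC_lin _ (mem_range.2 (by
        have := s.toStg.jC_le11 (Sp.mem_atl.1 hj).1 hC
        omega)))
    rw [sum_sub_distrib, ← mul_sum, sum_const, nsmul_eq_mul] at h2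
    linarith
  have h3 : ∑ j ∈ Bc B Q T U F P C, (160 * (sb j : ℤ) - 584) ≤
      120 * ∑ j ∈ Bc B Q T U F P C, (sb j : ℤ) - 264 * ((Bc B Q T U F P C).card : ℤ) := by
    have h4 : ∑ j ∈ Bc B Q T U F P C, (160 * (sb j : ℤ) - 584) ≤
        ∑ j ∈ Bc B Q T U F P C, (120 * (sb j : ℤ) - 264) := sum_le_sum fun j hj => by
      have := (hsb j hj).1
      omega
    rw [sum_sub_distrib (f := fun j => 120 * (sb j : ℤ)), ← mul_sum, sum_const,
      nsmul_eq_mul] at h4
    linarith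
  have ha' : (2 : ℤ) ≤ (aC B Q T U F P C).card := by exact_mod_cast ha
  have hb' : (4 : ℤ) ≤ (aC B Q T U F P C).card + (Bc B Q T U F P C).card := by exact_mod_cast hb
  have h5 := hsm.move (d := ∑ j ∈ Bc B Q T U F P C, (sb j : ℤ)) (by linarith)
  have ht : Tq3 (∑ j ∈ aC B Q T U F P C, (jC B Q j C : ℤ) +
      ∑ j ∈ Bc B Q T U F P C, (sb j : ℤ)) (∑ j ∈ aC B Q T U F P C, cJ B Q U F P j C +
      ∑ j ∈ Bc B Q T U F P C, (160 * (sb j : ℤ) - 584)) :=
    ⟨by linarith, fun _ => by linarith, fun _ => by linarith, fun _ => by linarith,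
      fun _ => by linarith⟩
  have hmain := h5.cn3 hcz (by omega) ht hW rfl hN
  rw [hnC]
  linarith

/-- **two line triples and one centred triple**. -/
theorem en_two (s : StgR B Q T U F P a) (hC : C ∈ P) (hf : ¬ Ful B Q T U F P a C)
    (h2 : 2 ≤ C.card) (ha : (aC B Q T U F P C).card = 2) (hb : (Bc B Q T U F P C).card = 1)
    (hK : KC B Q T U F C = ∅) : NdOk B Q T U F P a C := by
  classical
  refine s.nd_ok hC hf fun _ => ?_
  obtain ⟨hsm, hN, hnC⟩ := s.smC hC hK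
  obtain ⟨sb, hsb, hle, htr⟩ := s.trs_sb hC
  obtain ⟨i, j, hij, he⟩ := card_eq_two.1 ha
  obtain ⟨k, hk⟩ := card_eq_one.1 hb
  have hkB : k ∈ Bc B Q T U F P C := by rw [hk]; exact mem_singleton_self k
  have hkT' : k ∈ Trs B Q T (Rg B Q T U F) U F P := (mem_filter.1 hkB).1
  have hia : i ∈ aC B Q T U F P C := by rw [he]; simp
  have hja : j ∈ aC B Q T U F P C := by rw [he]; simp
  have hit' := (Sp.mem_atl.1 hia).1
  have hjt' := (Sp.mem_atl.1 hja).1
  have hi : i ∈ T := (s.toStg.tl_sub hit').1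
  have hj : j ∈ T := (s.toStg.tl_sub hjt').1
  have hkT : k ∈ T := (s.toStg.frm.types_trs s.toStg.part hkT').1
  have hik := s.trs_ne hia hkT'
  have hjk := s.trs_ne hja hkT'
  have hcard := s.toStg.card_comp hC hK
  have hW : (0 : ℤ) ≤ lsC B Q T U F C := by positivity
  have hg : (0 : ℤ) ≤ gC B U F P C := by positivity
  have hcz : (C.card : ℤ) = (Sp.Uin U (slf B F) C).card + 1 := by exact_mod_cast hcard
  have h6 := s.cJ_le hC hia
  have h7 := s.cJ_le hC hja
  have h8 := s.toStg.jC_le11 hit' hC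
  have h9 := s.toStg.jC_le11 hjt' hC
  have h10 := hsb k hkB
  have hX := s.toStg.sum_x hC hK hi hj hij he
  have hwk : (jC B Q k C : ℤ) ≤
      ∑ j ∈ Trs B Q T (Rg B Q T U F) U F P, (jC B Q j C : ℤ) :=
    single_le_sum (f := fun j => (jC B Q j C : ℤ)) (fun _ _ => by positivity) hkT'
  rw [hk, sum_singleton] at hle htr
  rw [sum_singleton] at htr
  rw [he, sum_pair hij] at hsm ⊢
  have hc : cJ B Q U F P i C + cJ B Q U F P j C + (160 * (sb k : ℤ) - 584) ≤
      tC (jC B Q i C) + tC (jC B Q j C) + (160 * (sb k : ℤ) - 584) := by linarith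
  have ht := t21_of h8 h9 h10.1 hc
  have h5 := hsm.move (d := (sb k : ℤ)) (by linarith)
  rw [hnC]
  have hYn := s.own_ge hC hK h2
  rcases h5.en21 hcz (by omega) ht hW rfl hYn with hmain | ⟨hn2, hE, hx0, hrow⟩
  · linarith
  · have hC2 : C.card = 2 := by exact_mod_cast hn2
    have hs0 : (sb k : ℤ) ≤ jC B Q k C := by exact_mod_cast h10.2
    have hsk : (sb k : ℤ) = jC B Q k C := by linarith
    have hsk' : sb k = jC B Q k C := by exact_mod_cast hsk
    obtain ⟨L, M, hLM, rfl⟩ := card_eq_two.1 hC2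
    have hp1 : ((Sp.Uin U (slf B F) {L, M}).card : ℤ) = 1 := by linarith
    have hr := s.en_row hC hLM hK hi hj hkT hij hik hjk (by rw [hX]; linarith) hE (by
      rcases hrow with ⟨r1, r2, r3, r4⟩ | ⟨r1, r2, r3, r4⟩
      · exact Or.inl ⟨r1, r2, r3, by linarith⟩
      · exact Or.inr ⟨r1, r2, r3, by linarith⟩)
    have h12 := h10.1
    rw [hsk'] at hc h12
    obtain ⟨t1, t2⟩ := tC_dec23 _ (mem_range.2 (by omega)) _ (mem_range.2 (by omega)) _
      (mem_range.2 (by omega)) hr.1 hr.2.1 hr.2.2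
    rcases hrow with ⟨r1, r2, r3, r4⟩ | ⟨r1, r2, r3, r4⟩
    · have h11 := t1 (by omega)
      rw [r1, r3, hp1, hn2]
      linarith
    · have h11 := t2 (by omega)
      rw [r1, r3, hp1, hn2]
      linarith

/-- **composite classes without inside triples, with at least two line triples**. -/
theorem CEN (s : StgR B Q T U F P a) : ∀ C ∈ P, ¬ Ful B Q T U F P a C → 2 ≤ C.card →
    2 ≤ (aC B Q T U F P C).card → KC B Q T U F C = ∅ → NdOk B Q T U F P a C := by
  intro C hC hf h2 ha hK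
  rcases (Bc B Q T U F P C).eq_empty_or_nonempty with h0 | h0
  · have h3 : ∑ j ∈ Trs B Q T (Rg B Q T U F) U F P,
        (144 * (jC B Q j C : ℤ) - Xv 149 B Q T U F P j C) ≤
      -5 * ∑ j ∈ Trs B Q T (Rg B Q T U F) U F P, (jC B Q j C : ℤ) := by
      obtain ⟨sb, hsb, hle, htr⟩ := s.trs_sb hC
      rw [h0, sum_empty, sum_empty] at htr
      linarith
    rcases (by omega : (aC B Q T U F P C).card = 2 ∨ 3 ≤ (aC B Q T U F P C).card) with h4 | h4
    · exact s.cn_two' hC hf h2 h4 hK h3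
    · exact s.cn_three' hC hf h2 h4 hK h3
  · have h1 := card_pos.2 h0
    rcases (by omega : ((aC B Q T U F P C).card = 2 ∧ (Bc B Q T U F P C).card = 1) ∨
      4 ≤ (aC B Q T U F P C).card + (Bc B Q T U F P C).card) with h4 | h4
    · exact s.en_two hC hf h2 h4.1 h4.2 hK
    · exact s.en_four hC hf h2 ha h4 hK

/-- **EN**: composite classes with a centre, without inside triples, with at least two line triples. -/
theorem EN (s : StgR B Q T U F P a) : ∀ C ∈ P, ¬ Ful B Q T U F P a C → 2 ≤ C.card →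
    2 ≤ (aC B Q T U F P C).card → KC B Q T U F C = ∅ → ¬ NCt B Q T U F P C →
    ¬ Exa B Q T U F P C → NdOk B Q T U F P a C :=
  fun C hC hf h2 ha hK _ _ => s.CEN C hC hf h2 ha hK

end StgR

end

end Pool.Agent.Hyp6
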