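import Pool.Agent.Hyp6.L3Yp2
import Pool.Agent.Hyp6.L3Yn

/-!
# HYP6 L3Yr: the places of single traces at a class, and classes with three centres

`Frm.hit_single`: points which meet a leaf only by single traces have at most `2 (nt - 2 ee)` hits.
`Stg.slots`: the pairs which are not poor and the inside points of a class. `StgR.e0_b3`: **composite
classes without line and inside triples, with at least three centred triples**.
-/

set_option autoImplicit false

namespace Pool.Agent.Hyp6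

open Finset Pool.Agent.Hyp5 Rt

universe u v

variable {V : Type v} [DecidableEq V] {ι : Type u} [Fintype ι]
  {B : ι → Finset V} {Q U : Finset V} {T : Finset ι} {F : Finset (Finset V)}
  {P : Finset (Finset (Finset V))} {C : Finset (Finset V)} {j : ι}

/-- **points which meet a leaf only by single traces**. -/
theorem Frm.hit_single (h : Frm B Q T U F) (ht : Tr3 B Q) {L X : Finset V} (hL : L ∈ F)
    (hXQ : X ⊆ Q) (hXL : Disjoint X L)
    (h1 : ∀ i, (B i ∩ X).Nonempty → (B i ∩ L).card ≤ 1) :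
    hit B X L + 4 * ee B Q L ≤ 2 * nt B L 1 := by
  classical
  set S1 := (ins B Q L).filter (fun i => (B i ∩ Q).card = 1) with hS1
  have e1 : 2 * ee B Q L ≤ S1.card := two_ee_le Q L
  have e2 : S1 ⊆ trs B L 1 := by
    intro i hi
    obtain ⟨hi1, hi2⟩ := mem_filter.1 hi
    obtain ⟨⟨v, hv⟩, hsub⟩ := mem_ins.1 hi1
    have hvL := hsub hv
    rw [mem_trs]
    refine le_antisymm ?_ (card_pos.2 ⟨v, mem_inter.2 ⟨(mem_inter.1 hv).1, hvL⟩⟩)
    rw [← hi2]
    exact card_le_card (inter_subset_inter_left (h.FQ hL))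
  have e3 : (tch B L).filter (fun i => (B i ∩ X).Nonempty) ⊆ trs B L 1 \ S1 := by
    intro i hi
    obtain ⟨h2, h3⟩ := mem_filter.1 hi
    refine mem_sdiff.2 ⟨?_, fun h4 => ?_⟩
    · rw [mem_trs]
      exact le_antisymm (h1 i h3) (card_pos.2 (cost_mem_tch.1 h2))
    · obtain ⟨h5, _⟩ := mem_filter.1 h4
      obtain ⟨_, hsub⟩ := mem_ins.1 h5
      obtain ⟨v, hv⟩ := h3
      obtain ⟨h6, h7⟩ := mem_inter.1 hv
      exact disjoint_left.1 hXL h7 (hsub (mem_inter.2 ⟨h6, hXQ h7⟩))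
  have e4 : hit B X L ≤ ∑ i ∈ (tch B L).filter (fun i => (B i ∩ X).Nonempty), 2 := by
    have h5 : hit B X L = ∑ i ∈ (tch B L).filter (fun i => (B i ∩ X).Nonempty),
        (B i ∩ X).card := by
      unfold hit
      symm
      refine sum_filter_of_ne fun i _ h6 => ?_
      exact card_pos.1 (Nat.pos_of_ne_zero h6)
    rw [h5]
    refine sum_le_sum fun i hi => ?_
    obtain ⟨h2, _⟩ := mem_filter.1 hi
    have h6 := card_pos.2 (cost_mem_tch.1 h2)
    have h7 : Disjoint (B i ∩ X) (B i ∩ L) :=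
      (hXL.mono inter_subset_right inter_subset_right)
    have h8 : (B i ∩ X) ∪ (B i ∩ L) ⊆ B i ∩ Q :=
      union_subset (inter_subset_inter_left hXQ) (inter_subset_inter_left (h.FQ hL))
    have h9 := card_le_card h8
    rw [card_union_of_disjoint h7] at h9
    have h10 := ht i
    omega
  rw [sum_const, smul_eq_mul] at e4
  have e5 := card_le_card e3
  rw [card_sdiff_of_subset e2] at e5
  unfold nt
  have e6 := card_le_card e2
  omega

/-- **at least four centred triples**. -/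
theorem Sm.e4 {n S E N H Y x p W c : ℤ} (h : Sm n S E N H Y x) (hn : n = p + 1)
    (hW : 0 ≤ W) (hY : Y = 5 * p - W) (hY2 : 2 * p ≤ Y) (c1 : c ≤ 160 * H - 2336)
    (c2 : c ≤ 87 * H) : c + 120 * n - 120 * S - 600 * p - 160 * W - 5 * x ≤ 0 := by
  obtain ⟨h1, h2, h3, h4, h5, h6, h7, h8⟩ := h
  subst hn hY
  rcases le_total p 8 with hp | hp
  · linarith
  · linarith

/-- **three centred triples**, one of them poor, or all hits of the pairs on single traces. -/
theorem Sm.e3 {n S E N H Y x p W c : ℤ} (h : Sm n S E N H Y x) (hn : n = p + 1) (hp : 1 ≤ p)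
    (hW : 0 ≤ W) (hY : Y = 5 * p - W) (hN : n ≤ Y) (hY2 : 2 * p ≤ Y) (hH : H ≤ 24)
    (c1 : c ≤ 160 * H - 1752) (c2 : c ≤ 160 * H - 1828 ∨ H + Y ≤ 2 * N - 4 * E) :
    c + 120 * n - 120 * S - 600 * p - 160 * W - 5 * x ≤ 0 := by
  obtain ⟨h1, h2, h3, h4, h5, h6, h7, h8⟩ := h
  subst hn hY
  rcases (by omega : p = 1 ∨ p = 2 ∨ p = 3 ∨ p = 4 ∨ 5 ≤ p) with rfl | rfl | rfl | rfl | hp5
  · rcases (by omega : S = 0 ∨ S = 2 ∨ S = 4 ∨ S = 6 ∨ S = 8 ∨ S = 10 ∨ S = 12 ∨ S = 14 ∨
      16 ≤ S) with rfl | rfl | rfl | rfl | rfl | rfl | rfl | rfl | hS <;>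
    rcases (by omega : W = 0 ∨ W = 1 ∨ W = 2 ∨ W = 3) with rfl | rfl | rfl | rfl <;>
    rcases c2 with c2 | c2 <;> omega
  · rcases (by omega : S = 0 ∨ S = 2 ∨ S = 4 ∨ S = 6 ∨ S = 8 ∨ S = 10 ∨ 12 ≤ S) with
      rfl | rfl | rfl | rfl | rfl | rfl | hS <;>
    rcases (by omega : W = 0 ∨ W = 1 ∨ W = 2 ∨ W = 3 ∨ W = 4 ∨ W = 5 ∨ W = 6) with
      rfl | rfl | rfl | rfl | rfl | rfl | rfl <;>
    rcases c2 with c2 | c2 <;> omega
  · rcases (by omega : S = 0 ∨ S = 2 ∨ S = 4 ∨ S = 6 ∨ 8 ≤ S) with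
      rfl | rfl | rfl | rfl | hS <;>
    rcases (by omega : W = 0 ∨ W = 1 ∨ W = 2 ∨ W = 3 ∨ W = 4 ∨ 5 ≤ W) with
      rfl | rfl | rfl | rfl | rfl | hW5 <;>
    rcases c2 with c2 | c2 <;> omega
  · rcases (by omega : S = 0 ∨ S = 2 ∨ 4 ≤ S) with rfl | rfl | hS <;>
    rcases (by omega : W = 0 ∨ W = 1 ∨ 2 ≤ W) with rfl | rfl | hW2 <;>
    rcases c2 with c2 | c2 <;> omega
  · omega

variable [DecidableEq ι] {a : V → Finset (Finset V) → ℕ}

namespace Stg

/-- **the places of the single traces of a class**: the pairs which are not poor and the inside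
points. -/
theorem slots (s : Stg B Q T U F P a) (hC : C ∈ P) {A : Finset ι} {x y z : ι → V}
    {m w : ι → ℕ} (hA : ∀ j ∈ A, Cd B Q T U F P C j (x j) (y j) (z j) (m j) (w j))
    (h0 : ∀ j ∈ A, w j = 0) :
    ∑ j ∈ A, (m j : ℤ) + (5 * ((Sp.Uin U (slf B F) C).card : ℤ) - lsC B Q T U F C) ≤
      2 * ∑ L ∈ C, (nt B L 1 : ℤ) - 4 * ∑ L ∈ C, (ee B Q L : ℤ) := by
  classical
  have hCF : C ⊆ F := (s.part.ptn.vc C hC).sub
  have mx : ∀ j ∈ A, x j ∈ B j ∩ Q := fun j hj => by rw [(hA j hj).bt.eq]; simp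
  have my : ∀ j ∈ A, y j ∈ B j ∩ Q := fun j hj => by rw [(hA j hj).bt.eq]; simp
  have hpd : ∀ j ∈ A, ({x j, y j} : Finset V) ⊆ B j ∩ Q := by
    intro j hj v hv
    rcases mem_insert.1 hv with rfl | hv
    · exact mx j hj
    · exact mem_singleton.1 hv ▸ my j hj
  have hdj : (A : Set ι).PairwiseDisjoint (fun j => ({x j, y j} : Finset V)) := by
    intro i hi j hj hij
    exact (s.frm.mtp.tpk.pack.disj i (hA i hi).mT j (hA j hj).mT hij).mono (hpd i hi) (hpd j hj)
  have hkey : ∀ L ∈ C, ∑ j ∈ A, (uh B (x j) L + uh B (y j) L) +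
      hit B (Sp.Uin U (slf B F) C) L + 4 * ee B Q L ≤ 2 * nt B L 1 := by
    intro L hL
    have hLF := hCF hL
    have e1 : hit B (A.biUnion (fun j => ({x j, y j} : Finset V)) ∪ Sp.Uin U (slf B F) C) L =
        ∑ j ∈ A, (uh B (x j) L + uh B (y j) L) + hit B (Sp.Uin U (slf B F) C) L := by
      rw [hit_union_left L, Frm.hit_U_sum (A.biUnion _), sum_biUnion hdj]
      · congr 1
        exact sum_congr rfl fun j hj => sum_pair (hA j hj).bt.ab
      · rw [disjoint_biUnion_left]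
        intro j hj
        exact ((s.frm.uin_disj (C := C) (hA j hj).mT).mono_right
          ((hpd j hj).trans inter_subset_left)).symm
    rw [← e1]
    refine s.frm.hit_single s.viol.tr hLF ?_ ?_ ?_
    · refine union_subset (biUnion_subset.2 fun j hj => (hpd j hj).trans inter_subset_right)
        s.frm.uin_Q
    · rw [disjoint_union_left, disjoint_biUnion_left]
      exact ⟨fun j hj => ((s.frm.disT hLF (hA j hj).mT).mono_right (hpd j hj)).symm,
        s.frm.uin_leaf hLF⟩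
    · rintro i ⟨v, hv⟩
      obtain ⟨hvi, hv1⟩ := mem_inter.1 hv
      rcases mem_union.1 hv1 with hv1 | hv1
      · obtain ⟨j, hj, hvj⟩ := mem_biUnion.1 hv1
        by_contra hcon
        have h3 : w j = 1 := (hA j hj).poor.2 ⟨L, hL, i, by
          rcases mem_insert.1 hvj with h4 | h4
          · exact Or.inl (h4 ▸ hvi)
          · exact Or.inr (mem_singleton.1 h4 ▸ hvi), by omega⟩
        have := h0 j hj
        omega
      · by_contra hcon
        obtain ⟨t, ht⟩ := card_pos.1 (by omega : 0 < (B i ∩ L).card)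
        obtain ⟨hti, htL⟩ := mem_inter.1 ht
        have h1 := s.frm.two_leaf hLF hti htL
        have h2 : insert v (B i ∩ L) ⊆ B i ∩ Dp B Q T := by
          intro t' ht'
          rcases mem_insert.1 ht' with rfl | ht'
          · exact mem_inter.2 ⟨hvi, s.frm.UD (Frm.uin_U hv1)⟩
          · obtain ⟨h3, h4⟩ := mem_inter.1 ht'
            exact mem_inter.2 ⟨h3, s.frm.FD hLF h4⟩
        have h3 := card_le_card h2
        rw [card_insert_of_notMem (fun h4 =>
          disjoint_left.1 (s.frm.uin_leaf hLF) hv1 (mem_inter.1 h4).2)] at h3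
        omega
  have h1 := sum_le_sum hkey
  rw [sum_add_distrib, sum_add_distrib, sum_comm, ← mul_sum, ← mul_sum] at h1
  have h2 : ∑ j ∈ A, ∑ L ∈ C, (uh B (x j) L + uh B (y j) L) = ∑ j ∈ A, m j := by
    refine sum_congr rfl fun j hj => ?_
    rw [sum_add_distrib, (hA j hj).s_eq]
    rfl
  rw [h2] at h1
  have h3 := s.sum_y hC
  rw [← h3]
  have h4 : ((∑ j ∈ A, m j + ∑ L ∈ C, hit B (Sp.Uin U (slf B F) C) L +
      4 * ∑ L ∈ C, ee B Q L : ℕ) : ℤ) ≤ ((2 * ∑ L ∈ C, nt B L 1 : ℕ) : ℤ) := by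
    exact_mod_cast h1
  push_cast at h4
  linarith

/-- **every inside point has two hits**. -/
theorem own_ge2 (s : Stg B Q T U F P a) (hC : C ∈ P) :
    2 * ((Sp.Uin U (slf B F) C).card : ℤ) ≤
      5 * ((Sp.Uin U (slf B F) C).card : ℤ) - lsC B Q T U F C := by
  classical
  rw [← s.sum_y hC]
  have h1 : ∑ L ∈ C, (hit B (Sp.Uin U (slf B F) C) L : ℤ) =
      ∑ u ∈ Sp.Uin U (slf B F) C, (uC B u C : ℤ) := by
    unfold uC
    push_cast
    rw [sum_comm]
    refine sum_congr rfl fun L _ => ?_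
    rw [Frm.hit_U_sum]
    push_cast
    rfl
  rw [h1]
  have h2 : ∀ u ∈ Sp.Uin U (slf B F) C, (2 : ℤ) ≤ uC B u C := by
    intro u hu
    have h3 := s.frm.ge.surplus {u} (singleton_subset_iff.2 (Frm.uin_U hu)) (singleton_nonempty u)
    rw [card_singleton] at h3
    have h4 : nbF (gr B) F {u} ⊆ C := by
      intro D hD
      obtain ⟨h5, t, ht, t', ht', htt⟩ := mem_nbF.1 hD
      rw [mem_singleton] at ht
      subst ht
      exact (mem_filter.1 hu).2 (mem_slf.2 ⟨h5, t', ht', htt⟩)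
    have h5 : ∀ L ∈ nbF (gr B) F {u}, 1 ≤ uh B u L := by
      intro L hL
      obtain ⟨h5, t, ht, t', ht', htt⟩ := mem_nbF.1 hL
      rw [mem_singleton] at ht
      subst ht
      obtain ⟨hne, k, htk, htk'⟩ := htt
      rw [uh_Ez]
      exact card_pos.2 ⟨k, mem_Ez.2 ⟨htk, t', mem_inter.2 ⟨htk', ht'⟩⟩⟩
    have h6 : (nbF (gr B) F {u}).card ≤ uC B u C := by
      unfold uC
      refine le_trans ?_ (sum_le_sum_of_subset h4)
      rw [card_eq_sum_ones]
      exact sum_le_sum h5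
    have h7 : 2 ≤ uC B u C := by omega
    exact_mod_cast h7
  have h3 := sum_le_sum h2
  rw [sum_const, nsmul_eq_mul] at h3
  linarith

/-- the need of a class without line triples and inside triples. -/
theorem ms_le_nC (s : Stg B Q T U F P a) (hC : C ∈ P) (hf : ¬ Ful B Q T U F P a C)
    (ha : aC B Q T U F P C = ∅) (hK : KC B Q T U F C = ∅) :
    msC 149 B Q T U F P a C ≤ nC B Q T U F P C := by
  have h1 := s.ms_eq 149 hC
  have h2 := s.gC_le hC hf
  have h3 : (0 : ℤ) ≤ gC B U F P C := by positivity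
  unfold nC
  rw [hK, sum_empty]
  unfold KC at hK
  rw [ha, hK, sum_empty, sum_empty] at h1
  linarith

end Stg

namespace StgR

/-- **composite classes without line and inside triples, with at least three centred triples**. -/
theorem e0_b3 (s : StgR B Q T U F P a) (hC : C ∈ P) (hf : ¬ Ful B Q T U F P a C)
    (h2 : 2 ≤ C.card) (ha : (aC B Q T U F P C).card = 0) (hb : 3 ≤ (Bc B Q T U F P C).card)
    (hK : KC B Q T U F C = ∅) : msC 149 B Q T U F P a C ≤ 0 := by
  classical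
  have ha' := card_eq_zero.1 ha
  obtain ⟨hsm, hN, hnC⟩ := s.smC hC hK
  have hcard := s.toStg.card_comp hC hK
  obtain ⟨x, y, z, m, w, hcd, hle, htr⟩ := s.toStg.trs_cd hC h2 hcard
  refine (s.toStg.ms_le_nC hC hf ha' hK).trans ?_
  have hW : (0 : ℤ) ≤ lsC B Q T U F C := by positivity
  have hg : (0 : ℤ) ≤ gC B U F P C := by positivity
  have hcz : (C.card : ℤ) = (Sp.Uin U (slf B F) C).card + 1 := by exact_mod_cast hcard
  have hYn := s.own_ge hC hK h2
  have hY2 := s.toStg.own_ge2 hC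
  rw [ha', sum_empty] at hsm
  have h5 := hsm.move (d := ∑ j ∈ Bc B Q T U F P C, (m j : ℤ)) (by linarith)
  rw [zero_add] at h5
  have hm8 : ∀ j ∈ Bc B Q T U F P C, m j ≤ 8 := fun j hj => by
    have h6 := (hcd j hj).s_eq
    have h7 := (hcd j hj).x4
    have h8 := (hcd j hj).y4
    omega
  have hc1 : ∑ j ∈ Bc B Q T U F P C, (160 * (m j : ℤ) - 584 - 76 * (w j : ℤ)) =
      160 * ∑ j ∈ Bc B Q T U F P C, (m j : ℤ) - 584 * ((Bc B Q T U F P C).card : ℤ) -
        76 * ∑ j ∈ Bc B Q T U F P C, (w j : ℤ) := by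
    rw [sum_sub_distrib, sum_sub_distrib, ← mul_sum, ← mul_sum, sum_const, nsmul_eq_mul]
    ring
  have hw0 : (0 : ℤ) ≤ ∑ j ∈ Bc B Q T U F P C, (w j : ℤ) := sum_nonneg fun _ _ => by positivity
  have hm : ∑ j ∈ Bc B Q T U F P C, (m j : ℤ) ≤ 8 * ((Bc B Q T U F P C).card : ℤ) := by
    have h6 : ∑ j ∈ Bc B Q T U F P C, (m j : ℤ) ≤ ∑ j ∈ Bc B Q T U F P C, (8 : ℤ) :=
      sum_le_sum fun j hj => by exact_mod_cast hm8 j hj
    rw [sum_const, nsmul_eq_mul] at h6
    linarith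
  rw [hc1] at htr
  rw [hnC]
  rcases hb.lt_or_eq with hb4 | hb3
  · have hb4' : (4 : ℤ) ≤ (Bc B Q T U F P C).card := by exact_mod_cast hb4
    have hmain := h5.e4 hcz hW rfl hY2
      (c := 160 * ∑ j ∈ Bc B Q T U F P C, (m j : ℤ) - 584 * ((Bc B Q T U F P C).card : ℤ))
      (by linarith) (by linarith)
    linarith
  · have hb3' : ((Bc B Q T U F P C).card : ℤ) = 3 := by exact_mod_cast hb3.symm
    rw [hb3'] at htr hm
    have hmain := h5.e3 hcz (by omega) hW rfl hYn hY2 (by linarith)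
      (c := 160 * ∑ j ∈ Bc B Q T U F P C, (m j : ℤ) - 1752 -
        76 * ∑ j ∈ Bc B Q T U F P C, (w j : ℤ)) (by linarith) (by
      by_cases hw : ∀ j ∈ Bc B Q T U F P C, w j = 0
      · right
        have := s.toStg.slots hC hcd hw
        linarith
      · left
        push Not at hw
        obtain ⟨k, hk, hwk⟩ := hw
        have h6 : (w k : ℤ) ≤ ∑ j ∈ Bc B Q T U F P C, (w j : ℤ) :=
          single_le_sum (f := fun j => (w j : ℤ)) (fun _ _ => by positivity) hk
        have h7 : (1 : ℤ) ≤ w k := by exact_mod_cast Nat.one_le_iff_ne_zero.2 hwk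
        linarith)
    linarith

end StgR

end Pool.Agent.Hyp6
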