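import Pool.Agent.Hyp6.L3Yo0
import Pool.Agent.Hyp6.L3Yr

/-!
# HYP6 L3Yo: composite classes with one line triple and at least two centres

`Stg.sum_xg`: the other hits of two triples. `StgR.pc_core`: the class is paid by one of its line
triples. `StgR.pc_b2`: private classes on a line with two classes. `StgR.lf_b2`: the classes of a line
with own points.
-/

set_option autoImplicit false

namespace Pool.Agent.Hyp6

open Finset Pool.Agent.Hyp5 Rt

universe u v

variable {V : Type v} [DecidableEq V] {ι : Type u} [Fintype ι] [DecidableEq ι]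
  {B : ι → Finset V} {Q U : Finset V} {T : Finset ι} {F C : Finset (Finset V)}
  {P : Finset (Finset (Finset V))} {a : V → Finset (Finset V) → ℕ} {i j k : ι}

namespace Stg

/-- **the other hits of a class for two triples**. -/
theorem sum_xt (s : Stg B Q T U F P a) (hC : C ∈ P) (hK : KC B Q T U F C = ∅) (hi : i ∈ T)
    (hj : j ∈ T) (hij : i ≠ j) :
    ∑ L ∈ C, (hit B (Rso B Q U F i j C L) L : ℤ) =
      ∑ k ∈ aC B Q T U F P C, (jC B Q k C : ℤ) +
      ∑ k ∈ Trs B Q T (Rg B Q T U F) U F P, (jC B Q k C : ℤ) + gC B U F P C -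
      jC B Q i C - jC B Q j C := by
  have hCF : C ⊆ F := (s.part.ptn.vc C hC).sub
  have h1 := s.frm.sum_hitT s.viol.reg Rg_sub s.part hC
  have h2 := s.frm.sum_hitU s.viol.reg s.part hC
  have h3 := s.sum_at2 hC
  have h4 := s.sum_y hC
  have h5 : ∀ L ∈ C, (hit B (Rso B Q U F i j C L) L : ℤ) = (∑ j ∈ T, (jh B Q j L : ℤ)) +
      hit B U L - ((jh B Q i L : ℤ) + jh B Q j L) - hit B (Sp.Uin U (slf B F) C) L := by
    intro L hL
    have h6 := s.hit_all (hCF hL)
    have h7 := s.frm.hit_parts4 (C := C) hi hj hij (hCF hL)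
    rw [h7] at h6
    push_cast at h6
    linarith
  rw [sum_congr rfl h5, sum_sub_distrib, sum_sub_distrib, sum_add_distrib, sum_add_distrib]
  have hK' : Sp.Kin (Rg B Q T U F) (slj B Q F) C = ∅ := hK
  rw [hK', sum_empty, h3] at h1
  have h8 : ∀ k, (jC B Q k C : ℤ) = ∑ L ∈ C, (jh B Q k L : ℤ) := by
    intro k
    unfold jC
    push_cast
    rfl
  rw [h8 i, h8 j]
  linarith

/-- **three of the rows**. -/
theorem pc_row (s : Stg B Q T U F P a) {L M : Finset V}
    (hC : ({L, M} : Finset (Finset V)) ∈ P) (hLM : L ≠ M) (hK : KC B Q T U F {L, M} = ∅)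
    (hi : i ∈ T) (hk : k ∈ T) (hik : i ≠ k) {h : ℕ}
    (hx : ∑ K ∈ ({L, M} : Finset (Finset V)), (hit B (Rso B Q U F i k {L, M} K) K : ℤ) = h)
    (hE : ∑ K ∈ ({L, M} : Finset (Finset V)), (ee B Q K : ℤ) = 0)
    (hr : (∑ K ∈ ({L, M} : Finset (Finset V)), (Pp B K - 2 * (ee B Q K : ℤ)) = 0 ∧
        (jC B Q i {L, M} : ℤ) + jC B Q k {L, M} + h = 16 ∧ (lsC B Q T U F {L, M} : ℤ) = 3) ∨
      (∑ K ∈ ({L, M} : Finset (Finset V)), (Pp B K - 2 * (ee B Q K : ℤ)) = 2 ∧
        (jC B Q i {L, M} : ℤ) + jC B Q k {L, M} + h = 14 + lsC B Q T U F {L, M}) ∨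
      (∑ K ∈ ({L, M} : Finset (Finset V)), (Pp B K - 2 * (ee B Q K : ℤ)) = 4 ∧
        (jC B Q i {L, M} : ℤ) + jC B Q k {L, M} + h = 16 + lsC B Q T U F {L, M})) :
    2 ≤ h ∧ (∑ K ∈ ({L, M} : Finset (Finset V)), (Pp B K - 2 * (ee B Q K : ℤ)) ≠ 2 → 3 ≤ h) := by
  classical
  have hCF : ({L, M} : Finset (Finset V)) ⊆ F := (s.part.ptn.vc _ hC).sub
  have hLF : L ∈ F := hCF (by simp)
  have hMF : M ∈ F := hCF (by simp)
  have h2 : ({L, M} : Finset (Finset V)).card = 2 := card_pair hLM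
  have hn := s.card_comp hC hK
  obtain ⟨u, hU⟩ := card_eq_one.1 (by omega : (Sp.Uin U (slf B F) {L, M}).card = 1)
  have hY := s.sum_y hC
  rw [sum_pair hLM, hU, card_singleton, Nat.cast_one, mul_one, ← hU] at hY
  have l1 := s.lc hC hK (by omega) hi hk hik (L := L) (by simp)
  have l2 := s.lc hC hK (by omega) hi hk hik (L := M) (by simp)
  have ht : ∀ K ∈ F, Pp B K - 2 * (ee B Q K : ℤ) = 4 →
      (hit B (Rso B Q U F i k {L, M} K) K : ℤ) = 0 → (jh B Q i K : ℤ) + jh B Q k K ≤ 7 := by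
    intro K hKF hP hx0
    have h3 := s.frm.third s.viol hi hk hik hKF hU (by exact_mod_cast hx0)
      (Or.inr (by rw [s.dv_W hKF]; linarith))
    exact_mod_cast h3
  rw [sum_pair hLM] at hx hE hr ⊢
  have hjC : ∀ k, (jC B Q k {L, M} : ℤ) = jh B Q k L + jh B Q k M := fun k => by
    unfold jC
    rw [sum_pair hLM]
    push_cast
    rfl
  rw [hjC, hjC] at hr
  have h5 := Lc.pc_row (W := (lsC B Q T U F {L, M} : ℤ)) l1 l2 (ht L hLF) (ht M hMF) hE hY (by
    rw [hx]
    rcases hr with ⟨r1, r2, r3⟩ | ⟨r1, r2⟩ | ⟨r1, r2⟩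
    · exact Or.inl ⟨r1, by linarith, r3⟩
    · exact Or.inr (Or.inl ⟨r1, by linarith⟩)
    · exact Or.inr (Or.inr ⟨r1, by linarith⟩))
  rw [hx] at h5
  exact ⟨by exact_mod_cast h5.1, fun h6 => by exact_mod_cast h5.2 h6⟩

end Stg

namespace StgR

/-- **at least two centred triples**: the class is paid by one of its line triples. -/
theorem pc_core (s : StgR B Q T U F P a) (hC : C ∈ P) (h2 : 2 ≤ C.card)
    (hj : j ∈ aC B Q T U F P C) (hb : 2 ≤ (Bc B Q T U F P C).card) (hK : KC B Q T U F C = ∅)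
    {c : ℤ} (hc : c ≤ fC (jC B Q j C)) :
    c + nC B Q T U F P C -
      5 * ∑ i ∈ (aC B Q T U F P C).erase j, (jC B Q i C : ℤ) ≤ 0 := by
  classical
  obtain ⟨hsm, hN, hnC⟩ := s.smC hC hK
  have hcard := s.toStg.card_comp hC hK
  obtain ⟨x, y, z, m, w, hcd, hle, htr⟩ := s.toStg.trs_cd hC h2 hcard
  have hjt := (Sp.mem_atl.1 hj).1
  have hjT : j ∈ T := (s.toStg.tl_sub hjt).1
  have hW : (0 : ℤ) ≤ lsC B Q T U F C := by positivity
  have hg : (0 : ℤ) ≤ gC B U F P C := by positivity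
  have hcz : (C.card : ℤ) = (Sp.Uin U (slf B F) C).card + 1 := by exact_mod_cast hcard
  have hYn := s.own_ge hC hK h2
  have hY2 := s.toStg.own_ge2 hC
  have h11 := s.toStg.jC_le11 hjt hC
  have hsum := add_sum_erase (aC B Q T U F P C) (fun i => (jC B Q i C : ℤ)) hj
  have he0 : (0 : ℤ) ≤ ∑ i ∈ (aC B Q T U F P C).erase j, (jC B Q i C : ℤ) :=
    sum_nonneg fun _ _ => by positivity
  have h5 := hsm.move (d := ∑ j ∈ Bc B Q T U F P C, (m j : ℤ) -
    ∑ i ∈ (aC B Q T U F P C).erase j, (jC B Q i C : ℤ)) (by linarith)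
  have hH : ∑ j ∈ aC B Q T U F P C, (jC B Q j C : ℤ) + (∑ j ∈ Bc B Q T U F P C, (m j : ℤ) -
      ∑ i ∈ (aC B Q T U F P C).erase j, (jC B Q i C : ℤ)) =
      (jC B Q j C : ℤ) + ∑ j ∈ Bc B Q T U F P C, (m j : ℤ) := by
    rw [← hsum]
    ring
  rw [hH] at h5
  have hm8 : ∀ k ∈ Bc B Q T U F P C, m k ≤ 8 ∧ m k ≤ jC B Q k C := fun k hk => by
    have h6 := (hcd k hk).s_eq
    have h7 := (hcd k hk).x4
    have h8 := (hcd k hk).y4
    have h9 := (hcd k hk).jC3
    omega
  have hw0 : ∀ k ∈ Bc B Q T U F P C, 160 * (m k : ℤ) - 584 - 76 * (w k : ℤ) ≤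
      160 * (m k : ℤ) - 584 := fun k _ => by
    have : (0 : ℤ) ≤ w k := by positivity
    linarith
  have hc0 := sum_le_sum hw0
  rw [hnC]
  rcases hb.lt_or_eq with hb3 | hb2
  · -- three centred triples
    have h3 : ∑ j ∈ Bc B Q T U F P C, (160 * (m j : ℤ) - 584) ≤
        120 * ∑ j ∈ Bc B Q T U F P C, (m j : ℤ) - 264 * ((Bc B Q T U F P C).card : ℤ) := by
      have h4 : ∑ j ∈ Bc B Q T U F P C, (160 * (m j : ℤ) - 584) ≤
          ∑ j ∈ Bc B Q T U F P C, (120 * (m j : ℤ) - 264) := sum_le_sum fun j hj => by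
        have := (hm8 j hj).1
        omega
      rw [sum_sub_distrib (f := fun j => 120 * (m j : ℤ)), ← mul_sum, sum_const,
        nsmul_eq_mul] at h4
      linarith
    have h4 := fC_lin (jC B Q j C) (mem_range.2 (by omega))
    have hb3' : (3 : ℤ) ≤ (Bc B Q T U F P C).card := by exact_mod_cast hb3
    have ht : Tq3 ((jC B Q j C : ℤ) + ∑ j ∈ Bc B Q T U F P C, (m j : ℤ))
        (c + ∑ j ∈ Bc B Q T U F P C, (160 * (m j : ℤ) - 584)) :=
      ⟨by linarith, fun _ => by linarith, fun _ => by linarith, fun _ => by linarith,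
        fun _ => by linarith⟩
    have hmain := h5.cn3 hcz (by omega) ht hW rfl hN
    linarith
  · -- two centred triples
    obtain ⟨k1, k2, hkk, hBc⟩ := card_eq_two.1 hb2.symm
    have m1 : k1 ∈ Bc B Q T U F P C := by rw [hBc]; simp
    have m2 : k2 ∈ Bc B Q T U F P C := by rw [hBc]; simp
    have d1 := hcd k1 m1
    have d2 := hcd k2 m2
    have e1 := hm8 k1 m1
    have e2 := hm8 k2 m2
    rw [hBc, sum_pair hkk] at h5 hle htr hc0
    rw [sum_pair hkk] at htr hc0
    have hcs : c + (160 * (m k1 : ℤ) - 584 + (160 * (m k2 : ℤ) - 584)) ≤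
        fC (jC B Q j C) + (160 * ((m k1 + m k2 : ℕ) : ℤ) - 1168) := by
      push_cast
      linarith
    have ht := t12_of h11 (by omega : m k1 + m k2 ≤ 16) hcs
    push_cast at ht
    have hE1 : ∑ i ∈ (aC B Q T U F P C).erase j, (jC B Q i C : ℤ) =
      ∑ i ∈ (aC B Q T U F P C).erase j, (jC B Q i C : ℤ) := rfl
    rcases h5.pc2 hcz (by omega) ht hW rfl hYn hY2 with hmain | ⟨hn2, hE, hx0, hrow⟩
    · linarith
    · have hw1 : (jC B Q k1 C : ℤ) + jC B Q k2 C ≤
          ∑ k ∈ Trs B Q T (Rg B Q T U F) U F P, (jC B Q k C : ℤ) := by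
        have h6 : ∑ k ∈ ({k1, k2} : Finset ι), (jC B Q k C : ℤ) ≤
            ∑ k ∈ Trs B Q T (Rg B Q T U F) U F P, (jC B Q k C : ℤ) := by
          refine sum_le_sum_of_subset_of_nonneg ?_ fun _ _ _ => by positivity
          rw [← hBc]
          exact filter_subset _ _
        rw [sum_pair hkk] at h6
        exact h6
      have e1' : (m k1 : ℤ) ≤ jC B Q k1 C := by exact_mod_cast e1.2
      have e2' : (m k2 : ℤ) ≤ jC B Q k2 C := by exact_mod_cast e2.2
      have hX := s.toStg.sum_xt hC hK d1.mT d2.mT hkk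
      have hX' : ∑ L ∈ C, (hit B (Rso B Q U F k1 k2 C L) L : ℤ) = (jC B Q j C : ℤ) := by
        rw [hX]
        linarith
      have hm1 : (m k1 : ℤ) = jC B Q k1 C := by linarith
      have hm2 : (m k2 : ℤ) = jC B Q k2 C := by linarith
      have hC2 : C.card = 2 := by exact_mod_cast hn2
      have hp1 : ((Sp.Uin U (slf B F) C).card : ℤ) = 1 := by linarith
      have key : 2 ≤ jC B Q j C ∧ (∑ K ∈ C, (Pp B K - 2 * (ee B Q K : ℤ)) = 0 ∨
          ∑ K ∈ C, (Pp B K - 2 * (ee B Q K : ℤ)) = 4 → 3 ≤ jC B Q j C) := by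
        rcases hrow with ⟨r1, r2, r3⟩ | ⟨r1, r2⟩ | ⟨r1, r2⟩ | ⟨r1, r2, r3⟩
        · obtain ⟨L, M, hLM, rfl⟩ := card_eq_two.1 hC2
          have h7 := s.toStg.pc_row hC hLM hK d1.mT d2.mT hkk hX' hE
            (Or.inl ⟨r1, by linarith, r2⟩)
          exact ⟨h7.1, fun _ => h7.2 (by rw [r1]; norm_num)⟩
        · obtain ⟨L, M, hLM, rfl⟩ := card_eq_two.1 hC2
          have h7 := s.toStg.pc_row hC hLM hK d1.mT d2.mT hkk hX' hE
            (Or.inr (Or.inl ⟨r1, by linarith⟩))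
          refine ⟨h7.1, fun h8 => ?_⟩
          rw [r1] at h8
          omega
        · obtain ⟨L, M, hLM, rfl⟩ := card_eq_two.1 hC2
          have h7 := s.toStg.pc_row hC hLM hK d1.mT d2.mT hkk hX' hE
            (Or.inr (Or.inr ⟨r1, by linarith⟩))
          exact ⟨h7.1, fun _ => h7.2 (by rw [r1]; norm_num)⟩
        · refine ⟨?_, fun h8 => by rw [r1] at h8; omega⟩
          by_contra hcon
          have hsj : ¬ slj B Q F j ⊆ C := (mem_filter.1 (mem_filter.1 hjt).1).2.2 C hC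
          obtain ⟨K, hK1, hK2⟩ := not_subset.1 hsj
          have hCF : C ⊆ F := (s.toStg.part.ptn.vc C hC).sub
          have h9 : ((∑ L ∈ C, hit B (Rso B Q U F k1 k2 C L) L : ℕ) : ℤ) = (jC B Q j C : ℕ) := by
            push_cast
            exact hX'
          have h9' : ∑ L ∈ C, hit B (Rso B Q U F k1 k2 C L) L = jC B Q j C := by
            exact_mod_cast h9
          have h10 := Frm.Oc_le (B := B) (Q := Q) (U := U) (F := F) C k1 k2
          have h12 := (s.toStg.frm.few_out s.toStg.viol d1.mT d2.mT hkk hCF h2 hcard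
            (slj_sub hK1) hK2 (by omega)).2
          have h13 : ∑ L ∈ C, (dv B Q L + 1) = ∑ L ∈ C, (Pp B L - 2 * (ee B Q L : ℤ)) :=
            sum_congr rfl fun L hL => by rw [s.toStg.dv_W (hCF hL)]; ring
          rw [h13, r1] at h12
          omega
      obtain ⟨q1, q2⟩ := t12_two h11 key.1 hcs
      push_cast at q1 q2
      rcases hrow with ⟨r1, r2, r3⟩ | ⟨r1, r2⟩ | ⟨r1, r2⟩ | ⟨r1, r2, r3⟩
      · have h7 := q2 (key.2 (Or.inl r1))
        rw [r1, hp1, hn2]
        linarith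
      · rw [r1, hp1, hn2]
        linarith
      · have h7 := q2 (key.2 (Or.inr r1))
        rw [r1, hp1, hn2]
        linarith
      · rw [r1, hp1, hn2]
        linarith

/-- the need of a class which is not full, for one of its line triples. -/
theorem xcl_nC (s : StgR B Q T U F P a) (hC : C ∈ P) (hf : ¬ Ful B Q T U F P a C)
    (hj : j ∈ aC B Q T U F P C) (hK : KC B Q T U F C = ∅) :
    xcl 149 B Q T U F P a (tF B Q T U F P) j C ≤ 144 * (jC B Q j C : ℤ) - 560 -
      3 * (owj B Q U F P a j C : ℤ) -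
      5 * ∑ i ∈ (aC B Q T U F P C).erase j, (jC B Q i C : ℤ) + nC B Q T U F P C := by
  have h1 := s.toStg.xcl_le 149 (tF B Q T U F P) hC hf hj
  have h2 : tK B Q (Rg B Q T U F) F (tF B Q T U F P) C = 0 := by
    unfold tK
    unfold KC at hK
    rw [hK, sum_empty]
  unfold nC
  rw [h2] at h1
  rw [hK, sum_empty]
  unfold KC at hK
  rw [hK, sum_empty] at h1
  linarith

/-- **private composite classes with at least two centred triples**, on a line with two classes. -/
theorem pc_b2 (s : StgR B Q T U F P a) (hC : C ∈ P) (hf : ¬ Ful B Q T U F P a C)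
    (h2 : 2 ≤ C.card) (ha : aC B Q T U F P C = {j}) (hl : (lj B Q U F P j).card = 2)
    (hb : 2 ≤ (Bc B Q T U F P C).card) (hK : KC B Q T U F C = ∅) :
    ndF B Q T U F P a C ≤ pmC (jC B Q j C) := by
  classical
  have hj : j ∈ aC B Q T U F P C := by rw [ha]; exact mem_singleton_self j
  have hjt := (Sp.mem_atl.1 hj).1
  have h11 := s.toStg.jC_le11 hjt hC
  have h1 := s.xcl_nC hC hf hj hK
  have h3 := fC_thin (jC B Q j C) (mem_range.2 (by omega)) (s.jC_thin hj hl)
  have h4 := s.pc_core hC h2 hj hb hK h3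
  rw [xcl_one hj (by rw [ha, card_singleton]), s.owj_thin hjt hl C] at h1
  have h5 : ndC 149 B Q T U F P a (tF B Q T U F P) C = ndF B Q T U F P a C := rfl
  rw [h5] at h1
  push_cast at h1
  linarith

/-- **classes of a line with own points**, with at least two centred triples. -/
theorem lf_b2 (s : StgR B Q T U F P a) (hC : C ∈ P) (hf : ¬ Ful B Q T U F P a C)
    (h2 : 2 ≤ C.card) (hj : j ∈ aC B Q T U F P C) (hb : 2 ≤ (Bc B Q T U F P C).card)
    (hK : KC B Q T U F C = ∅) :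
    Exs B Q T U F P a (tF B Q T U F P) j C ≤ exS (jC B Q j C) := by
  have hjt := (Sp.mem_atl.1 hj).1
  have h11 := s.toStg.jC_le11 hjt hC
  have h1 := s.xcl_nC hC hf hj hK
  have h3 := fC_fat (jC B Q j C) (mem_range.2 (by omega))
  have h4 := s.pc_core hC h2 hj hb hK h3
  unfold Exs exS
  linarith

end StgR

end Pool.Agent.Hyp6
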