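import Pool.Agent.Hyp6.L3Xf
import Pool.Agent.Hyp6.L3Yo

/-!
# HYP6 L3Xg: composite classes with a centre and one line triple

`StgR.PE_of`: private composite classes, with any number of centred triples. `StgR.LE_of`: composite
classes of a line with own points. Both are hypotheses of the last step.
-/

set_option autoImplicit false

namespace Pool.Agent.Hyp6

open Finset Pool.Agent.Hyp5 Rt

universe u v

variable {V : Type v} [DecidableEq V] {ι : Type u} [Fintype ι] [DecidableEq ι]
  {B : ι → Finset V} {Q U : Finset V} {T : Finset ι} {F : Finset (Finset V)}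
  {P : Finset (Finset (Finset V))} {a : V → Finset (Finset V) → ℕ}

namespace StgR

/-- **private composite classes with a centre**. -/
theorem PE_of (s : StgR B Q T U F P a) (hga : Ga31 B Q T U F)
    (hex : ∀ C ∈ P, 2 ≤ C.card → KC B Q T U F C = ∅ → Stg.ExOk B Q T U F P C) :
    ∀ j ∈ tl B Q T U F P, ∀ C D, C ≠ D → lj B Q U F P j = {C, D} →
      aC B Q T U F P D = {j} → ¬ Ful B Q T U F P a D → 2 ≤ D.card → KC B Q T U F D = ∅ →
      ¬ NCt B Q T U F P D → ndF B Q T U F P a D ≤ pmC (jC B Q j D) := by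
  intro j hj C D hCD hl hq hf h2 hK _
  have hD : D ∈ P := s.lnf.sub j hj (by rw [hl]; simp)
  rcases Nat.lt_or_ge (Bc B Q T U F P D).card 2 with hb | hb
  · exact s.pc_b1' hga hj (hex D hD h2 hK) hCD hl hq hf h2 hK (by omega)
  · exact s.pc_b2 hD hf h2 hq (by rw [hl, card_pair hCD]) hb hK

/-- **composite classes of a line with own points, with a centre**. -/
theorem LE_of (s : StgR B Q T U F P a)
    (hex : ∀ C ∈ P, 2 ≤ C.card → KC B Q T U F C = ∅ → Stg.ExOk B Q T U F P C) :
    ∀ C ∈ P, 2 ≤ C.card → ¬ Ful B Q T U F P a C → KC B Q T U F C = ∅ →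
      ¬ NCt B Q T U F P C → ∀ j ∈ aC B Q T U F P C, 1 ≤ (oj B Q U F P j).card →
        Exs B Q T U F P a (tF B Q T U F P) j C ≤ exS (jC B Q j C) := by
  intro C hC h2 hf hK _ j hj ho
  rcases Nat.lt_or_ge (Bc B Q T U F P C).card 2 with hb | hb
  · exact s.lf_b1' (hex C hC h2 hK) hC h2 hf hj ho hK (by omega)
  · exact s.lf_b2 hC hf h2 hj hb hK

end StgR

end Pool.Agent.Hyp6
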