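import Pool.Agent.Hyp6.L3NI
import Pool.Agent.Hyp6.L3Tf

/-!
# HYP6 L3NS: single leaves with at least two line triples, all with two classes

`StgR.don8`: a triple with claims has at most seven hits on a leaf with five points and one single
trace. `StgR.thin`: the numbers. `StgR.SN_of`: such a leaf needs at most what the line triples pay, from
the least prices `payT` (at private other ends) and the facts `G31` (leaves (3;1)) and `P6w` (six hits on
a point and three or more elsewhere).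
-/

set_option autoImplicit false

namespace Pool.Agent.Hyp6

open Finset Pool.Agent.Hyp5 Rt

universe u v

variable {V : Type v} [DecidableEq V] {ι : Type u} [Fintype ι] [DecidableEq ι]
  {B : ι → Finset V}

/-- a triple with at least four hits at a leaf of type (3;1): exactly four, the others at most two. -/
def G31 (B : ι → Finset V) (Q : Finset V) (T : Finset ι) (U : Finset V)
    (F : Finset (Finset V)) : Prop :=
  ∀ L ∈ F, L.card = 3 → nt B L 1 = 1 → dv B Q L = -1 → hit B U L ≤ 2 → ∀ j ∈ T,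
    4 ≤ hit B (B j ∩ Q) L → hit B (B j ∩ Q) L ≤ 4 ∧ ∀ j' ∈ T, j ≠ j' → hit B (B j' ∩ Q) L ≤ 2

/-- six hits on a point leaf without hits of `U` and at least three elsewhere: no free place. -/
def P6w (B : ι → Finset V) (Q : Finset V) (T : Finset ι) (U : Finset V)
    (F : Finset (Finset V)) (P : Finset (Finset (Finset V))) : Prop :=
  ∀ L, {L} ∈ P → L.card = 1 → hit B U L = 0 → ∀ j ∈ tl B Q T U F P, jh B Q j L = 6 →
    3 ≤ ∑ M ∈ F.erase L, jh B Q j M → fs B Q L = 0

namespace StgR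

variable {Q U : Finset V} {T : Finset ι} {F : Finset (Finset V)}
  {P : Finset (Finset (Finset V))} {a : V → Finset (Finset V) → ℕ} {L : Finset V} {j : ι}

/-- **a triple with claims at a leaf with five points and thirteen blocks.** -/
theorem don8 (s : StgR B Q T U F P a) (hL : {L} ∈ P) (hj : j ∈ tl B Q T U F P)
    (h5 : L.card = 5) (h13 : cm B L = 13) (h8 : 8 ≤ jh B Q j L) : ncl B Q T U F P j = 0 := by
  by_contra h0
  have hLF := s.toStg.leafF hL
  have hjT := (s.toStg.tl_sub hj).1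
  have hle : jh B Q j L ≤ ∑ M ∈ F, jh B Q j M :=
    single_le_sum (f := fun M => jh B Q j M) (fun _ _ => Nat.zero_le _) hLF
  rcases s.line_donor hj (Nat.pos_of_ne_zero h0) with h1 | ⟨p, q, v, D, hB, _, _, hcl, h2⟩
  · omega
  have hvT : v ∈ B j ∩ Q := by rw [hB.eq]; simp
  have hpT : p ∈ B j ∩ Q := by rw [hB.eq]; simp
  have hqT : q ∈ B j ∩ Q := by rw [hB.eq]; simp
  have hsum : jh B Q j L = uh B p L + uh B q L + uh B v L := by
    rw [jh_sum, hB.eq, sum_insert (by simp [hB.ab, hB.ac]), sum_pair hB.bc, add_assoc]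
  have hle4 : ∀ w ∈ B j ∩ Q, uh B w L ≤ 4 := fun w hw => by
    have h3 := s.hit_ncp hjT hw
    have h4 : uh B w L ≤ ∑ M ∈ F, uh B w M :=
      single_le_sum (f := fun M => uh B w M) (fun _ _ => Nat.zero_le _) hLF
    omega
  have huv : uh B v L ≤ ∑ M ∈ F, uh B v M :=
    single_le_sum (f := fun M => uh B v M) (fun _ _ => Nat.zero_le _) hLF
  have hout : ∀ w ∈ B j ∩ Q, w ∉ L := fun w hw hwL => s.frm.T_notin hjT hw hLF hwL
  by_cases hLD : L ∈ D
  swap
  · have e1 : uh B p L = 0 := uh_zero hLF (hout p hpT) fun h => hLD (hB.sa h)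
    have e2 : uh B q L = 0 := uh_zero hLF (hout q hqT) fun h => hLD (hB.sb h)
    omega
  obtain ⟨M, hM, hMD⟩ := not_subset.1 hB.nsc
  have hMF : M ∈ F := slf_sub hM
  have hML : M ≠ L := fun h => hMD (h ▸ hLD)
  have hMv : 0 < uh B v M := (uh_pos hMF fun h => s.frm.T_notin hjT hvT hMF h).2 hM
  have h3 : uh B v L + uh B v M ≤ ∑ M ∈ F, uh B v M := by
    rw [← sum_pair hML.symm]
    refine sum_le_sum_of_subset fun E hE => ?_
    rcases mem_insert.1 hE with rfl | hE
    · exact hLF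
    · rwa [mem_singleton.1 hE]
  have hp4 := hle4 p hpT
  have hq4 := hle4 q hqT
  have hab : Abz B L {p, q} := by
    have ep : uh B p L = (Ez B L p).card := by
      unfold uh; rw [hit_eq_Ez, sum_singleton]
    have eq' : uh B q L = (Ez B L q).card := by
      unfold uh; rw [hit_eq_Ez, sum_singleton]
    by_cases h6 : 3 ≤ uh B p L
    · exact s.viol.abz5 s.frm hLF h5 h13 (mem_inter.1 hpT).2 (mem_inter.1 hqT).2 (hout p hpT)
        (hout q hqT) hB.ab (by omega) (by omega)
    · have h7 := s.viol.abz5 s.frm hLF h5 h13 (mem_inter.1 hqT).2 (mem_inter.1 hpT).2 (hout q hqT)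
        (hout p hpT) hB.ab.symm (by omega) (by omega)
      rwa [pair_comm] at h7
  obtain ⟨j', i, k0, a', b', c', x, hC, hne, hvk⟩ := hcl
  refine hC.1.fpb.no_abs hjT hne (s := v) (p := p) (q := q) ?_ hvk hLF ?_ ?_
  · rw [hB.eq]
    ext w
    simp only [mem_insert, mem_singleton]
    tauto
  · rintro rfl
    rw [card_singleton] at h5
    omega
  · obtain ⟨S, hS1, hS2⟩ := hab
    exact (rho_le hS1).trans hS2

/-- the price of a line triple with two classes. -/
theorem thin_price (s : StgR B Q T U F P a) {fat : ι → Finset (Finset V) → ℤ}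
    (RGT : ∀ j ∈ tl B Q T U F P, ∀ C D, C ≠ D → lj B Q U F P j = {C, D} →
      (aC B Q T U F P D).card = 1 → payT (ncl B Q T U F P j) (jC B Q j D) (jC B Q j C) ≤
        8 * sT B Q T U F 15 j + tF B Q T U F P j - 1120 - ndF B Q T U F P a D)
    (hj : j ∈ aC B Q T U F P {L}) (h2 : (lj B Q U F P j).card = 2) :
    ∃ t : ℕ, 1 ≤ t ∧ 1 ≤ jh B Q j L ∧ t + jh B Q j L ≤ 12 ∧
      t ≤ ∑ M ∈ F.erase L, jh B Q j M ∧
      payT (ncl B Q T U F P j) t (jh B Q j L) ≤ clmF 149 B Q T U F P a fat j {L} := by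
  obtain ⟨hjt, hC⟩ := Sp.mem_atl.1 hj
  obtain ⟨D, hD⟩ := card_eq_one.1 (by rw [card_erase_of_mem hC, h2] :
    ((lj B Q U F P j).erase {L}).card = 1)
  have hDm : D ∈ (lj B Q U F P j).erase {L} := by rw [hD]; exact mem_singleton_self D
  have hne : ({L} : Finset (Finset V)) ≠ D := (mem_erase.1 hDm).1.symm
  have hl : lj B Q U F P j = {{L}, D} := by
    rw [← insert_erase hC, hD]
  have hl' : lj B Q U F P j = {D, {L}} := by rw [hl, pair_comm]
  have hLP : {L} ∈ P := s.lnf.sub j hjt (by rw [hl]; simp)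
  have hDP : D ∈ P := s.lnf.sub j hjt (by rw [hl]; simp)
  obtain ⟨h3, h4⟩ := s.toStg.jC_two hjt hne hl
  have h5 := s.toStg.jC_pair hjt hne hl
  have h6 := s.toStg.uj_nonneg (s.toStg.tl_sub hjt).1
  rw [s.toStg.jC_one] at h3 h5
  refine ⟨jC B Q j D, h4, h3, by omega, ?_, ?_⟩
  · unfold jC
    refine sum_le_sum_of_subset fun M hM => mem_erase.2 ⟨?_, (s.part.ptn.vc D hDP).sub hM⟩
    rintro rfl
    exact disjoint_left.1 (s.part.ptn.dj _ hLP D hDP hne) (mem_singleton_self M) hM
  · by_cases h7 : (aC B Q T U F P D).card = 1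
    · rw [s.toStg.clmF_rest hne.symm hl' h7]
      have h8 := RGT j hjt {L} D hne hl h7
      rwa [s.toStg.jC_one] at h8
    · have h8 := s.pay_two hjt fat hne.symm hl' h7
      rwa [s.toStg.jC_one] at h8

/-- **the numbers of a leaf whose line triples have two classes.** -/
theorem thin (s : StgR B Q T U F P a) (hL : {L} ∈ P) (hK : KC B Q T U F {L} = ∅)
    (hn : NCt B Q T U F P {L}) (ht : ∀ j ∈ aC B Q T U F P {L}, (lj B Q U F P j).card = 2) :
    NdT (msC 149 B Q T U F P a {L}) (Pp B L) (nt B L 1) L.card (fs B Q L) (ee B Q L)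
      (hit B U L) (∑ j ∈ aC B Q T U F P {L}, (jh B Q j L : ℤ))
      (∑ j ∈ Trs B Q T (Rg B Q T U F) U F P, (jh B Q j L : ℤ))
      (Sp.ld (Sp.Ux U (slf B F) P) a {L}) (aC B Q T U F P {L}).card := by
  have hLF := s.toStg.leafF hL
  have hK' : Sp.Kin (Rg B Q T U F) (slj B Q F) {L} = ∅ := hK
  have h1 := s.toStg.one hLF
  have h2 := s.toStg.sum_jh hL
  rw [hK', sum_empty, add_zero] at h2
  rw [h2] at h1
  have h3 := s.toStg.ms_one 149 hL
  have h4 := s.toStg.trs_sum_le hL hn
  simp only [s.toStg.jC_one] at h4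
  have how : ∀ j ∈ aC B Q T U F P {L},
      (144 * (jh B Q j L : ℤ) - 560 +
        112 * (Sp.owl U (slf B F) P (lj B Q U F P) a j {L} : ℤ)) = 144 * (jh B Q j L : ℤ) - 560 := by
    intro j hj
    have ho : oj B Q U F P j = ∅ := by
      rcases s.toStg.two_or (Sp.mem_atl.1 hj).1 with h | h
      · exact h.2
      · have := ht j hj
        omega
    have h5 : Sp.owl U (slf B F) P (lj B Q U F P) a j {L} = 0 := by
      have h6 : Sp.UU U (slf B F) P (lj B Q U F P j) = ∅ := ho
      unfold Sp.owl Sp.ld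
      rw [h6, sum_empty]
    rw [h5]
    ring
  rw [sum_congr rfl how, hK', sum_empty, sum_sub_distrib, sum_const, nsmul_eq_mul,
    ← mul_sum] at h3
  have h5 := s.toStg.ld_one hL
  have h6 := s.viol.ee_fs (s.frm.FQ hLF)
  refine ⟨h1, ?_, ?_, sum_nonneg fun _ _ => by positivity, h6⟩
  · linarith
  · rcases h5.1 with h7 | h7
    · exact Or.inl (by exact_mod_cast h7)
    · exact Or.inr h7

/-- **a single leaf with at least two line triples, all with two classes.** -/
theorem SN_of (s : StgR B Q T U F P a) (hF : Few B Q T F) (h31 : G31 B Q T U F)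
    (h6w : P6w B Q T U F P) (fat : ι → Finset (Finset V) → ℤ)
    (RGT : ∀ j ∈ tl B Q T U F P, ∀ C D, C ≠ D → lj B Q U F P j = {C, D} →
      (aC B Q T U F P D).card = 1 → payT (ncl B Q T U F P j) (jC B Q j D) (jC B Q j C) ≤
        8 * sT B Q T U F 15 j + tF B Q T U F P j - 1120 - ndF B Q T U F P a D)
    (hL : {L} ∈ P) (h2 : 2 ≤ (aC B Q T U F P {L}).card) (hK : KC B Q T U F {L} = ∅)
    (hn : NCt B Q T U F P {L})
    (ht : ∀ j ∈ aC B Q T U F P {L}, (lj B Q U F P j).card = 2) :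
    msC 149 B Q T U F P a {L} ≤
      ∑ j ∈ aC B Q T U F P {L}, clmF 149 B Q T U F P a fat j {L} := by
  have hLF := s.toStg.leafF hL
  have hN := s.thin hL hK hn ht
  have hpr := fun j hj => s.thin_price (fat := fat) RGT (j := j) (L := L) hj (ht j hj)
  have htl : ∀ j ∈ aC B Q T U F P {L}, j ∈ tl B Q T U F P := fun j hj => (Sp.mem_atl.1 hj).1
  have hjT : ∀ j ∈ aC B Q T U F P {L}, j ∈ T := fun j hj => (s.tl_sub (htl j hj)).1
  -- caps
  have hnum := hN.num
  have hP0 : (Pp B L : ℤ) = 2 * (nt B L 1 : ℤ) + 3 * (L.card : ℤ) - 11 := hnum.pp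
  have hdv : dv B Q L = Pp B L - 1 - 2 * ee B Q L := s.toStg.dv_W hLF
  have hc31 : (L.card : ℤ) = 3 → (nt B L 1 : ℤ) = 1 → ∀ j ∈ aC B Q T U F P {L},
      jh B Q j L ≤ 4 ∧ (4 ≤ jh B Q j L → ∀ j' ∈ aC B Q T U F P {L}, j ≠ j' →
        jh B Q j' L ≤ 2) := by
    intro e1 e2 j hj
    have e3 := hnum.p0
    have e4 := hnum.gn
    have e5 : dv B Q L = -1 := by omega
    have e6 := h31 L hLF (by exact_mod_cast e1) (by exact_mod_cast e2) e5 (by omega) j (hjT j hj)
    unfold jh
    refine ⟨?_, fun h4 j' hj' hne => (e6 h4).2 j' (hjT j' hj') hne⟩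
    by_cases h4 : 4 ≤ hit B (B j ∩ Q) L
    · exact (e6 h4).1
    · omega
  have hc33 : (L.card : ℤ) = 3 → (nt B L 1 : ℤ) = 3 → ∀ j ∈ aC B Q T U F P {L},
      jh B Q j L ≤ 7 := by
    intro e1 e2 j hj
    refine s.viol.le7 s.frm (hjT j hj) hLF (by exact_mod_cast e1) ?_
    have e3 : Pp B L = 4 := by omega
    have e4 := s.frm.sv_leaf hLF
    unfold Pp G at e3
    rw [e4] at e3
    push_cast at e3
    omega
  have hc51 : (L.card : ℤ) = 5 → (nt B L 1 : ℤ) = 1 → cm B L = 13 ∧
      (ee B Q L = 0 → ∀ j ∈ aC B Q T U F P {L}, jh B Q j L ≤ 8) := by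
    intro e1 e2
    have e3 : Pp B L = 6 := by omega
    refine ⟨?_, fun he j hj => ?_⟩
    · have e4 := s.frm.sv_leaf hLF
      unfold Pp G at e3
      rw [e4] at e3
      push_cast at e3
      omega
    · refine s.toStg.le8_five hL (htl j hj) he (by exact_mod_cast e1) ?_
      rw [hdv, e3, he]
      rfl
  -- the least prices
  have hnd : ∀ j ∈ aC B Q T U F P {L}, ∀ t, payT (ncl B Q T U F P j) t (jh B Q j L) ≤
      clmF 149 B Q T U F P a fat j {L} →
      ndP L.card (nt B L 1) (jh B Q j L) ≤ clmF 149 B Q T U F P a fat j {L} := by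
    intro j hj t h
    refine le_trans ?_ ((payE_le_payT _ _ _).trans h)
    unfold ndP payE
    by_cases h8 : jh B Q j L = 8
    · rw [h8]
      norm_num
      split_ifs with h9 h10 h10
      · exact le_refl _
      · exact absurd (s.don8 hL (htl j hj) (by exact_mod_cast h9.1)
          (hc51 (by exact_mod_cast h9.1) (by exact_mod_cast h9.2)).1 (by omega)) h10
      · norm_num
      · exact le_refl _
    · split_ifs <;> norm_num
  have h11 : ∀ j ∈ aC B Q T U F P {L}, 1 ≤ jh B Q j L ∧ jh B Q j L ≤ 11 := fun j hj => by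
    obtain ⟨t, h3, h4, h5, _⟩ := hpr j hj
    exact ⟨h4, by omega⟩
  have hpn : ∀ j ∈ aC B Q T U F P {L},
      ndP L.card (nt B L 1) (jh B Q j L) ≤ clmF 149 B Q T U F P a fat j {L} := fun j hj => by
    obtain ⟨t, _, _, _, _, h7⟩ := hpr j hj
    exact hnd j hj t h7
  rcases (by omega : (aC B Q T U F P {L}).card = 2 ∨ 3 ≤ (aC B Q T U F P {L}).card) with hq | hq
  · -- two line triples
    obtain ⟨i, k, hik, hA⟩ := card_eq_two.1 hq
    have hi : i ∈ aC B Q T U F P {L} := by rw [hA]; simp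
    have hk : k ∈ aC B Q T U F P {L} := by rw [hA]; simp
    have hsT := s.toStg.sum_jh hL
    have hK' : Sp.Kin (Rg B Q T U F) (slj B Q F) {L} = ∅ := hK
    rw [hK', sum_empty, add_zero, hA, sum_pair hik] at hsT
    rw [hA, sum_pair hik, card_pair hik] at hN
    rw [hA, sum_pair hik]
    obtain ⟨w2, hw1, hw2⟩ := s.toStg.few2 hF hLF (hjT i hi) (hjT k hk) hik
    rw [hsT] at hw1 hw2
    have hw3 : w2 = ∑ j ∈ Trs B Q T (Rg B Q T U F) U F P, (jh B Q j L : ℤ) + hit B U L := by
      linarith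
    have hw4 : (jh B Q i L : ℤ) + jh B Q k L +
        ∑ j ∈ Trs B Q T (Rg B Q T U F) U F P, (jh B Q j L : ℤ) + hit B U L - w2 =
        jh B Q i L + jh B Q k L := by
      linarith
    rw [hw4, hw3] at hw1
    have six : ∀ j ∈ aC B Q T U F P {L}, (L.card : ℤ) = 1 → jh B Q j L = 6 →
        4 ≤ clmF 149 B Q T U F P a fat j {L} ∨ fs B Q L = 0 ∨ (1 : ℤ) ≤ hit B U L := by
      intro j hj h1 h6
      obtain ⟨t, _, _, _, h8, h7⟩ := hpr j hj
      by_cases ht2 : t ≤ 2
      · left
        refine le_trans ?_ h7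
        unfold payT
        rw [if_pos ⟨h6, ht2⟩]
      · right
        by_cases hg : hit B U L = 0
        · exact Or.inl (h6w L hL (by exact_mod_cast h1) hg j (htl j hj) h6 (by omega))
        · exact Or.inr (by exact_mod_cast Nat.pos_of_ne_zero hg)
    refine hN.two (a := jh B Q i L) (b := jh B Q k L) (h11 i hi).1 (h11 k hk).1 (h11 i hi).2
      (h11 k hk).2 rfl (hpn i hi) (hpn k hk) hw1.neg hw1.one hw1.zero hw1.big ?_ ?_ ?_ ?_
    · intro e1 e2
      obtain ⟨c1, c2⟩ := hc31 e1 e2 i hi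
      obtain ⟨c3, c4⟩ := hc31 e1 e2 k hk
      refine ⟨by omega, by omega, by omega, by omega, fun h => c2 h k hk hik,
        fun h => c4 h i hi hik.symm⟩
    · intro e1
      have e2 : L.card = 1 := by exact_mod_cast e1
      exact ⟨s.le_six hL (hjT i hi) e2, s.le_six hL (hjT k hk) e2, six i hi e1, six k hk e1⟩
    · intro e1 e2
      exact ⟨hc33 e1 e2 i hi, hc33 e1 e2 k hk⟩
    · intro e0 e1 e2
      have e3 := (hc51 e1 e2).2 (by exact_mod_cast e0)
      exact ⟨e3 i hi, e3 k hk⟩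
  · -- three or more
    have lin : ∀ (x y : ℤ), (∀ j ∈ aC B Q T U F P {L},
        x * (jh B Q j L : ℤ) - y ≤ clmF 149 B Q T U F P a fat j {L}) →
        x * (∑ j ∈ aC B Q T U F P {L}, (jh B Q j L : ℤ)) -
          y * ((aC B Q T U F P {L}).card : ℤ) ≤
        ∑ j ∈ aC B Q T U F P {L}, clmF 149 B Q T U F P a fat j {L} := by
      intro x y h
      have h3 := sum_le_sum h
      rw [sum_sub_distrib, sum_const, nsmul_eq_mul, ← mul_sum] at h3
      linarith
    refine hN.big (by exact_mod_cast hq) (lin 18 179 fun j hj => ?_) (fun e1 e2 => ?_)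
      (fun e1 e2 => ?_) (fun e0 e1 e2 => ?_)
    · exact (ndP_lin _ _ (h11 j hj).1 (h11 j hj).2).trans (hpn j hj)
    · refine lin 39 200 fun j hj => (ndP_lin5 L.card (nt B L 1) (h11 j hj).1 ?_).trans (hpn j hj)
      have := (hc31 e1 e2 j hj).1
      omega
    · refine lin 24 185 fun j hj => (ndP_lin8 (h11 j hj).1 ?_).trans (hpn j hj)
      exact Or.inl (hc33 e1 e2 j hj)
    · refine lin 24 185 fun j hj => (ndP_lin8 (h11 j hj).1 ?_).trans (hpn j hj)
      have := (hc51 e1 e2).2 (by exact_mod_cast e0) j hj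
      rcases (by omega : jh B Q j L ≤ 7 ∨ jh B Q j L = 8) with h | h
      · exact Or.inl h
      · exact Or.inr ⟨h, e1, e2⟩

end StgR

end Pool.Agent.Hyp6
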