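import Pool.Agent.Hyp6.L3Nu
import Pool.Agent.Hyp6.CfS

/-!
# HYP6 L3Nv: a class of two leaves, its inside point and a refused pair

`Q2`: the data. `Q2.kb`: if both points of the pair see the first leaf, then the blocks of the inside
point and of the pair at the second leaf are disjoint. `Frm.twoL`: the data from the frame.
`Q2.ke`: two point leaves. `Q2.p33`: two leaves with three points.
-/

set_option autoImplicit false

namespace Pool.Agent.Hyp6

open Finset Pool.Agent.Hyp5 Rt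

universe u v

section core

variable {V : Type v} [DecidableEq V] {ι : Type u} [Fintype ι] {B : ι → Finset V}
  {Q L L1 L2 : Finset V} {x y z w : V}

omit [Fintype ι] in
/-- a point which sees a critical set is covered for free. -/
theorem rho_seen (hc : Cov B L) (hcr : Crit B L) {i : ι} {v : V} (hv : v ∈ B i)
    (hi : (B i ∩ L).Nonempty) : rho B (insert v L) ≤ rho B L := by
  obtain ⟨m, hm⟩ := hi
  obtain ⟨hm1, hm2⟩ := mem_inter.1 hm
  have h1 := hcr m hm2
  have hcv : Cov B (insert v L) := by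
    rw [insert_eq]
    exact (cov_of_sub_block (i := i) (singleton_subset_iff.2 hv)).union hc
  have h2 : rho B (insert v L) ≤ rho B (insert v L \ {v, m}) + 1 :=
    rho_le_sdiff (i := i) (by
      intro w hw
      rcases mem_insert.1 hw with rfl | hw
      · exact hv
      · exact mem_singleton.1 hw ▸ hm1) hcv
  have h3 : rho B (insert v L \ {v, m}) ≤ rho B (L.erase m) := by
    refine rho_mono (fun w hw => ?_) (hc.mono (erase_subset m L))
    obtain ⟨h4, h5⟩ := mem_sdiff.1 hw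
    simp only [mem_insert, mem_singleton, not_or] at h5
    rcases mem_insert.1 h4 with h6 | h6
    · exact absurd h6 h5.1
    · exact mem_erase.2 ⟨h5.2, h6⟩
  omega

omit [Fintype ι] in
/-- two points in one block which touches a critical set are covered for free. -/
theorem rho_seen2 (hc : Cov B L) (hcr : Crit B L) {i : ι} {v w : V} (hv : v ∈ B i) (hw : w ∈ B i)
    (hi : (B i ∩ L).Nonempty) : rho B (L ∪ {v, w}) ≤ rho B L := by
  obtain ⟨m, hm⟩ := hi
  obtain ⟨hm1, hm2⟩ := mem_inter.1 hm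
  have h1 := hcr m hm2
  have hcv : Cov B (L ∪ {v, w}) := hc.union (cov_of_sub_block (i := i) (by
    intro t ht
    rcases mem_insert.1 ht with rfl | ht
    · exact hv
    · exact mem_singleton.1 ht ▸ hw))
  have h2 : rho B (L ∪ {v, w}) ≤ rho B ((L ∪ {v, w}) \ {v, w, m}) + 1 :=
    rho_le_sdiff (i := i) (by
      intro t ht
      simp only [mem_insert, mem_singleton] at ht
      rcases ht with rfl | rfl | rfl
      · exact hv
      · exact hw
      · exact hm1) hcv
  have h3 : rho B ((L ∪ {v, w}) \ {v, w, m}) ≤ rho B (L.erase m) := by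
    refine rho_mono (fun t ht => ?_) (hc.mono (erase_subset m L))
    obtain ⟨h4, h5⟩ := mem_sdiff.1 ht
    simp only [mem_insert, mem_singleton, not_or] at h5
    rcases mem_union.1 h4 with h6 | h6
    · exact mem_erase.2 ⟨h5.2.2, h6⟩
    · simp only [mem_insert, mem_singleton] at h6
      rcases h6 with h6 | h6
      · exact absurd h6 h5.1
      · exact absurd h6 h5.2.1
  omega

/-- two leaves, an inside point and a refused pair. -/
structure Q2 (B : ι → Finset V) (Q L1 L2 : Finset V) (u y z : V) : Prop where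
  cov : Cov B Q
  l1 : L1 ⊆ Q
  l2 : L2 ⊆ Q
  c1 : Crit B L1
  c2 : Crit B L2
  uQ : u ∈ Q
  yQ : y ∈ Q
  zQ : z ∈ Q
  yz : y ≠ z
  uy : u ≠ y
  uz : u ≠ z
  u1 : u ∉ L1
  u2 : u ∉ L2
  y1 : y ∉ L1
  y2 : y ∉ L2
  z1 : z ∉ L1
  z2 : z ∉ L2
  no : rho B L1 + rho B L2 + 1 ≤ rho B (L1 ∪ L2 ∪ {u, y, z})
  r1 : rho B L1 + 1 ≤ rho B (L1 ∪ {y, z})
  r2 : rho B L2 + 1 ≤ rho B (L2 ∪ {y, z})
  s1 : (Ez B L1 u).Nonempty
  s2 : (Ez B L2 u).Nonempty

namespace Q2

variable {u : V}

theorem symm (d : Q2 B Q L1 L2 u y z) : Q2 B Q L1 L2 u z y := by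
  have h1 : ({z, y} : Finset V) = {y, z} := pair_comm z y
  have h2 : ({u, z, y} : Finset V) = {u, y, z} := by rw [h1]
  exact ⟨d.cov, d.l1, d.l2, d.c1, d.c2, d.uQ, d.zQ, d.yQ, d.yz.symm, d.uz, d.uy, d.u1, d.u2,
    d.z1, d.z2, d.y1, d.y2, h2 ▸ d.no, h1 ▸ d.r1, h1 ▸ d.r2, d.s1, d.s2⟩

theorem swap (d : Q2 B Q L1 L2 u y z) : Q2 B Q L2 L1 u y z := by
  have h2 : L2 ∪ L1 ∪ {u, y, z} = L1 ∪ L2 ∪ {u, y, z} := by rw [union_comm L2 L1]
  refine ⟨d.cov, d.l2, d.l1, d.c2, d.c1, d.uQ, d.yQ, d.zQ, d.yz, d.uy, d.uz, d.u2, d.u1,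
    d.y2, d.y1, d.z2, d.z1, ?_, d.r2, d.r1, d.s2, d.s1⟩
  rw [h2, add_comm (rho B L2)]
  exact d.no

theorem see {L : Finset V} (hc : Cov B L) (hcr : Crit B L) {w : V} (hw : (Ez B L w).Nonempty) :
    rho B (insert w L) ≤ rho B L := by
  obtain ⟨i, hi⟩ := hw
  exact rho_seen hc hcr (mem_Ez.1 hi).1 (mem_Ez.1 hi).2

/-- the point `y` sees the first leaf: the second leaf refuses `u` and `z`. -/
theorem uz2 (d : Q2 B Q L1 L2 u y z) (hy : (Ez B L1 y).Nonempty) :
    rho B L2 + 1 ≤ rho B (L2 ∪ {u, z}) := by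
  have h1 := see (d.cov.mono d.l1) d.c1 hy
  have h2 : Cov B (insert y L1) := d.cov.mono (insert_subset d.yQ d.l1)
  have h3 : Cov B (L2 ∪ {u, z}) := d.cov.mono (union_subset d.l2 (by
    intro t ht
    rcases mem_insert.1 ht with rfl | ht
    · exact d.uQ
    · exact mem_singleton.1 ht ▸ d.zQ))
  have h4 := rho_union_le h2 h3
  have h5 : L1 ∪ L2 ∪ {u, y, z} = insert y L1 ∪ (L2 ∪ {u, z}) := by
    ext t
    simp only [mem_union, mem_insert, mem_singleton]
    tauto
  have h6 := d.no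
  rw [h5] at h6
  omega

/-- refused points share no block at the leaf. -/
theorem disj {L : Finset V} (hc : Cov B L) (hcr : Crit B L)
    (h : rho B L + 1 ≤ rho B (L ∪ {x, y})) : Disjoint (Ez B L x) (Ez B L y) := by
  rw [disjoint_left]
  intro i hi hi'
  have h1 := rho_seen2 hc hcr (mem_Ez.1 hi).1 (mem_Ez.1 hi').1 (mem_Ez.1 hi).2
  omega

/-- the blocks of the pair at the second leaf. -/
theorem d2 (d : Q2 B Q L1 L2 u y z) : Disjoint (Ez B L2 y) (Ez B L2 z) :=
  disj (d.cov.mono d.l2) d.c2 d.r2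

/-- the blocks of `u` and `z` at the second leaf, if `y` sees the first leaf. -/
theorem duz (d : Q2 B Q L1 L2 u y z) (hy : (Ez B L1 y).Nonempty) :
    Disjoint (Ez B L2 u) (Ez B L2 z) :=
  disj (d.cov.mono d.l2) d.c2 (d.uz2 hy)

/-- the blocks at a leaf which contain a point outside and are single traces. -/
theorem sum_le {L : Finset V} (hL : L ⊆ Q) {S : Finset ι}
    (hS : ∀ i ∈ S, (B i ∩ L).card = 1 ∧ ∃ w ∈ B i ∩ Q, w ∉ L) :
    S.card + 2 * ee B Q L ≤ nt B L 1 := by
  classical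
  have h1 := ebl_two (B := B) (Q := Q) (W := L)
  have h2 : Disjoint S (ebl B Q L) := by
    rw [disjoint_left]
    intro i hi hi'
    obtain ⟨_, w, hw, hwL⟩ := hS i hi
    obtain ⟨t, ht, h3⟩ := mem_ebl hi'
    rw [h3, mem_singleton] at hw
    exact hwL (hw ▸ ht)
  have h3 : S ∪ ebl B Q L ⊆ trs B L 1 := by
    intro i hi
    rw [mem_trs]
    rcases mem_union.1 hi with hi | hi
    · exact (hS i hi).1
    · obtain ⟨t, ht, h3⟩ := mem_ebl hi
      have h4 : B i ∩ L = {t} := by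
        ext w
        rw [mem_singleton, mem_inter]
        constructor
        · rintro ⟨h5, h6⟩
          have h7 : w ∈ B i ∩ Q := mem_inter.2 ⟨h5, hL h6⟩
          rwa [h3, mem_singleton] at h7
        · rintro rfl
          have h7 : w ∈ B i ∩ Q := by rw [h3]; exact mem_singleton_self w
          exact ⟨(mem_inter.1 h7).1, ht⟩
      rw [h4, card_singleton]
  have h4 := card_le_card h3
  rw [card_union_of_disjoint h2] at h4
  unfold nt
  omega

/-- **the pair at a leaf without full hits**. -/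
theorem np (d : Q2 B Q L1 L2 u y z)
    (hp : ∀ i, y ∈ B i ∨ z ∈ B i → (B i ∩ L2).card ≤ 1) :
    (Ez B L2 y).card + (Ez B L2 z).card + 2 * ee B Q L2 ≤ nt B L2 1 := by
  classical
  rw [← card_union_of_disjoint d.d2]
  refine sum_le d.l2 fun i hi => ?_
  rcases mem_union.1 hi with hi | hi
  · obtain ⟨h1, h2⟩ := mem_Ez.1 hi
    have h3 := hp i (Or.inl h1)
    have h4 := card_pos.2 h2
    exact ⟨by omega, y, mem_inter.2 ⟨h1, d.yQ⟩, d.y2⟩
  · obtain ⟨h1, h2⟩ := mem_Ez.1 hi
    have h3 := hp i (Or.inr h1)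
    have h4 := card_pos.2 h2
    exact ⟨by omega, z, mem_inter.2 ⟨h1, d.zQ⟩, d.z2⟩

/-- **KB**: both points of the pair see the first leaf. -/
theorem kb (d : Q2 B Q L1 L2 u y z) (hy : (Ez B L1 y).Nonempty) (hz : (Ez B L1 z).Nonempty)
    (hp : ∀ i, y ∈ B i ∨ z ∈ B i → (B i ∩ L2).card ≤ 1)
    (hu : ∀ i, u ∈ B i → (B i ∩ L2).card ≤ 1) :
    (Ez B L2 u).card + (Ez B L2 y).card + (Ez B L2 z).card + 2 * ee B Q L2 ≤ nt B L2 1 := by
  classical
  have h1 := d.duz hy
  have h2 := d.symm.duz hz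
  have h3 := d.d2
  have h4 : ((Ez B L2 u ∪ Ez B L2 y) ∪ Ez B L2 z).card =
      (Ez B L2 u).card + (Ez B L2 y).card + (Ez B L2 z).card := by
    rw [card_union_of_disjoint (disjoint_union_left.2 ⟨h1, h3⟩), card_union_of_disjoint h2]
  rw [← h4]
  refine sum_le d.l2 fun i hi => ?_
  rcases mem_union.1 hi with hi | hi
  · rcases mem_union.1 hi with hi | hi
    · obtain ⟨h5, h6⟩ := mem_Ez.1 hi
      have h7 := hu i h5
      have h8 := card_pos.2 h6
      exact ⟨by omega, u, mem_inter.2 ⟨h5, d.uQ⟩, d.u2⟩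
    · obtain ⟨h5, h6⟩ := mem_Ez.1 hi
      have h7 := hp i (Or.inl h5)
      have h8 := card_pos.2 h6
      exact ⟨by omega, y, mem_inter.2 ⟨h5, d.yQ⟩, d.y2⟩
  · obtain ⟨h5, h6⟩ := mem_Ez.1 hi
    have h7 := hp i (Or.inr h5)
    have h8 := card_pos.2 h6
    exact ⟨by omega, z, mem_inter.2 ⟨h5, d.zQ⟩, d.z2⟩

/-- the data for two leaves with three points. -/
theorem p33 (d : Q2 B Q L1 L2 u y z) (h1 : L33 B Q L1 1) (h2 : L33 B Q L2 3)
    (hr1 : rho B L1 = 2) (hr2 : rho B L2 = 2) : P33 B Q L1 L2 u y z := by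
  classical
  refine ⟨h1, h2, d.uQ, d.yQ, d.zQ, d.u1, d.u2, d.y1, d.y2, d.z1, d.z2, ?_, ?_, ?_, d.s1, d.s2⟩
  · rintro i i' ⟨h3, h4, h5⟩
    have h6 : L1 ∪ {y, z} ⊆ ({i, i'} : Finset ι).biUnion B := by
      intro t ht
      rw [biUnion_insert, singleton_biUnion]
      simp only [mem_union, mem_insert, mem_singleton] at ht
      rcases ht with ht | rfl | rfl
      · exact h3 ht
      · exact h4
      · exact h5
    have h7 := (Hyp6.rho_le h6).trans card_le_two
    have := d.r1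
    omega
  · rintro i i' ⟨h3, h4, h5⟩
    have h6 : L2 ∪ {y, z} ⊆ ({i, i'} : Finset ι).biUnion B := by
      intro t ht
      rw [biUnion_insert, singleton_biUnion]
      simp only [mem_union, mem_insert, mem_singleton] at ht
      rcases ht with ht | rfl | rfl
      · exact h3 ht
      · exact h4
      · exact h5
    have h7 := (Hyp6.rho_le h6).trans card_le_two
    have := d.r2
    omega
  · rintro i1 i2 i3 i4 ⟨h3, h4, h5⟩
    have h6 : L1 ∪ L2 ∪ {u, y, z} ⊆ (({i1, i2} : Finset ι) ∪ {i3, i4}).biUnion B := by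
      intro t ht
      rw [union_biUnion, biUnion_insert, biUnion_insert, singleton_biUnion, singleton_biUnion]
      simp only [mem_union, mem_insert, mem_singleton] at ht
      rcases ht with (ht | ht) | ht
      · exact mem_union_left _ (h3 ht)
      · exact mem_union_right _ (h4 ht)
      · exact h5 t ht
    have h7 := (Hyp6.rho_le h6).trans (card_union_le _ _)
    have h8 : ({i1, i2} : Finset ι).card ≤ 2 := card_le_two
    have h9 : ({i3, i4} : Finset ι).card ≤ 2 := card_le_two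
    have := d.no
    omega

/-- all blocks at a point leaf are hit by the pair or are single traces in `Q`. -/
theorem key (hv : ViolR B Q) {p q : V} (d : Q2 B Q {p} {q} u y z)
    (h5 : 5 ≤ (Ez B {p} y).card + (Ez B {p} z).card + 2 * ee B Q {p}) :
    (Ez B {q} z = ∅ ∧ (Ez B {p} y).Nonempty) ∨ (Ez B {q} y = ∅ ∧ (Ez B {p} z).Nonempty) := by
  classical
  have hp1 : p ∈ Q := d.l1 (mem_singleton_self p)
  have hnd : ¬ (Disjoint (Ez B {p} u) (Ez B {p} y) ∧ Disjoint (Ez B {p} u) (Ez B {p} z)) := by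
    rintro ⟨h2, h1⟩
    have h3 := d.swap.d2
    have h4 : ((Ez B {p} u ∪ Ez B {p} y) ∪ Ez B {p} z).card =
        (Ez B {p} u).card + (Ez B {p} y).card + (Ez B {p} z).card := by
      rw [card_union_of_disjoint (disjoint_union_left.2 ⟨h1, h3⟩), card_union_of_disjoint h2]
    have hone : ∀ i w, i ∈ Ez B {p} w → (B i ∩ {p}).card = 1 := by
      intro i w hi
      have h6 := card_pos.2 (mem_Ez.1 hi).2
      have h7 : (B i ∩ {p}).card ≤ ({p} : Finset V).card := card_le_card inter_subset_right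
      rw [card_singleton] at h7
      omega
    have h6 : ((Ez B {p} u ∪ Ez B {p} y) ∪ Ez B {p} z).card + 2 * ee B Q {p} ≤ nt B {p} 1 := by
      refine sum_le d.l1 fun i hi => ?_
      rcases mem_union.1 hi with hi | hi
      · rcases mem_union.1 hi with hi | hi
        · exact ⟨hone i _ hi, u, mem_inter.2 ⟨(mem_Ez.1 hi).1, d.uQ⟩, d.u1⟩
        · exact ⟨hone i _ hi, y, mem_inter.2 ⟨(mem_Ez.1 hi).1, d.yQ⟩, d.y1⟩
      · exact ⟨hone i _ hi, z, mem_inter.2 ⟨(mem_Ez.1 hi).1, d.zQ⟩, d.z1⟩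
    have h7 : nt B {p} 1 ≤ 5 := by
      have h8 : (univ.filter (fun k => p ∈ B k)).card = 5 := hv.reg p hp1
      rw [← h8]
      refine card_le_card fun i hi => ?_
      rw [mem_filter]
      refine ⟨mem_univ _, ?_⟩
      have h9 : (B i ∩ {p}).Nonempty := card_pos.1 (by rw [mem_trs.1 hi]; omega)
      obtain ⟨t, ht⟩ := h9
      obtain ⟨h10, h11⟩ := mem_inter.1 ht
      exact mem_singleton.1 h11 ▸ h10
    have := card_pos.2 d.s1
    omega
  have hne : ∀ {S S' : Finset ι}, ¬ Disjoint S S' → S'.Nonempty := by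
    intro S S' h1
    obtain ⟨i, _, hi⟩ := not_disjoint_iff.1 h1
    exact ⟨i, hi⟩
  by_cases h1 : Disjoint (Ez B {p} u) (Ez B {p} y)
  · have h2 : ¬ Disjoint (Ez B {p} u) (Ez B {p} z) := fun h2 => hnd ⟨h1, h2⟩
    right
    refine ⟨not_nonempty_iff_eq_empty.1 fun h3 => h2 (d.swap.duz h3), hne h2⟩
  · left
    refine ⟨not_nonempty_iff_eq_empty.1 fun h3 => h1 (d.swap.symm.duz h3), hne h1⟩

/-- **KE**: a pair at two point leaves. -/
theorem ke (hv : ViolR B Q) {p q : V} (d : Q2 B Q {p} {q} u y z)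
    (hy4 : (Ez B {p} y).card + (Ez B {q} y).card ≤ 4)
    (hz4 : (Ez B {p} z).card + (Ez B {q} z).card ≤ 4) :
    ((Ez B {p} y).card + (Ez B {p} z).card) + ((Ez B {q} y).card + (Ez B {q} z).card) +
      2 * ee B Q {p} + 2 * ee B Q {q} ≤ 9 := by
  classical
  have hee : ∀ p : V, ee B Q {p} ≤ 1 := fun p => by
    unfold ee
    exact (card_filter_le _ _).trans (card_singleton p).le
  have np1 : ∀ {p q : V} {y z : V}, Q2 B Q {p} {q} u y z →
      (Ez B {p} y).card + (Ez B {p} z).card + 2 * ee B Q {p} ≤ 5 := by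
    intro p q y z d
    have h1 := d.swap.np (fun i _ => by
      refine (card_le_card inter_subset_right).trans ?_
      rw [card_singleton])
    have h7 : nt B {p} 1 ≤ 5 := by
      have h8 : (univ.filter (fun k => p ∈ B k)).card = 5 :=
        hv.reg p (d.l1 (mem_singleton_self p))
      rw [← h8]
      refine card_le_card fun i hi => ?_
      rw [mem_filter]
      refine ⟨mem_univ _, ?_⟩
      have h9 : (B i ∩ {p}).Nonempty := card_pos.1 (by rw [mem_trs.1 hi]; omega)
      obtain ⟨t, ht⟩ := h9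
      obtain ⟨h10, h11⟩ := mem_inter.1 ht
      exact mem_singleton.1 h11 ▸ h10
    omega
  by_contra hcon
  have e1 := np1 d
  have e2 := np1 d.swap
  have e3 := hee p
  have e4 := hee q
  rcases d.key hv (by omega) with ⟨a1, a2⟩ | ⟨a1, a2⟩ <;>
    rcases d.swap.key hv (by omega) with ⟨b1, b2⟩ | ⟨b1, b2⟩
  · have c1 := card_eq_zero.2 a1
    have c2 := card_eq_zero.2 b1
    omega
  · rw [b1] at a2
    exact not_nonempty_empty a2
  · rw [b1] at a2
    exact not_nonempty_empty a2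
  · have c1 := card_eq_zero.2 a1
    have c2 := card_eq_zero.2 b1
    omega

end Q2

end core

section frame

variable {V : Type v} [DecidableEq V] {ι : Type u} [Fintype ι] {B : ι → Finset V}
  {Q U : Finset V} {T : Finset ι} {F : Finset (Finset V)} {j : ι}
  {τ : Type*} [DecidableEq τ] {Ts : Finset τ} {NT : τ → Finset (Finset V)}
  {P : Finset (Finset (Finset V))} {D : Finset (Finset V)} {L1 L2 M : Finset V} {u x y z : V}

namespace Frm

omit [Fintype ι] [DecidableEq τ] in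
theorem Ez_of_slf [Fintype ι] {L : Finset V} {v : V} (h : L ∈ slf B F v) : (Ez B L v).Nonempty := by
  obtain ⟨_, w, hw, _, i, hi1, hi2⟩ := mem_slf.1 h
  exact ⟨i, mem_Ez.2 ⟨hi1, w, mem_inter.2 ⟨hi2, hw⟩⟩⟩

omit [DecidableEq τ] in
/-- the inside point of a class of two leaves sees both. -/
theorem sees_two (hg : Sp.Gd F F U (slf B F) Ts NT) (hne : L1 ≠ L2)
    (hU : u ∈ Sp.Uin U (slf B F) {L1, L2}) : L1 ∈ slf B F u ∧ L2 ∈ slf B F u := by
  classical
  obtain ⟨huU, hs⟩ := mem_filter.1 hU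
  have h2 := hg.sur {u} (singleton_subset_iff.2 huU) (singleton_nonempty u)
  rw [singleton_biUnion, card_singleton] at h2
  have h3 : slf B F u ∩ F ⊆ slf B F u := inter_subset_left
  have h4 := card_le_card h3
  have h5 : slf B F u = {L1, L2} := by
    refine eq_of_subset_of_card_le hs ?_
    rw [card_pair hne]
    omega
  rw [h5]
  simp

/-- **the data of a class of two leaves, its inside point and a triple with a point which sees another
class**. -/
theorem twoL (h : Frm B Q T U F) (hv : ViolR B Q) (hg : Sp.Gd F F U (slf B F) Ts NT)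
    (hP : Sp.MinP F F U (slf B F) Ts NT P) (hC : ({L1, L2} : Finset (Finset V)) ∈ P)
    (hne : L1 ≠ L2) (hU : Sp.Uin U (slf B F) {L1, L2} = {u}) (hj : j ∈ T)
    (hD : D ∈ P) (hCD : ({L1, L2} : Finset (Finset V)) ≠ D) (hM : M ∈ D)
    (hxM : M ∈ slf B F x) (hT : B j ∩ Q = {x, y, z}) (hyz : y ≠ z) : Q2 B Q L1 L2 u y z := by
  classical
  have hCF := (hP.ptn.vc _ hC).sub
  have hL1 : L1 ∈ F := hCF (by simp)
  have hL2 : L2 ∈ F := hCF (by simp)
  have hx : x ∈ B j ∩ Q := by rw [hT]; simp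
  have hy : y ∈ B j ∩ Q := by rw [hT]; simp
  have hz : z ∈ B j ∩ Q := by rw [hT]; simp
  have huU : u ∈ U ∧ slf B F u ⊆ {L1, L2} := by
    have h1 : u ∈ Sp.Uin U (slf B F) {L1, L2} := by rw [hU]; simp
    exact mem_filter.1 h1
  have huQ : u ∈ Q := Frm.DQ (h.UD huU.1)
  have huD := h.UD huU.1
  have huT : ∀ v ∈ B j ∩ Q, u ≠ v := by
    rintro v hv' rfl
    exact Frm.T_notD (Q := Q) hj (mem_inter.1 hv').1 huD
  have hXQ : ({y, z} : Finset V) ⊆ Q := by
    intro v hv'
    rcases mem_insert.1 hv' with rfl | hv'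
    · exact (mem_inter.1 hy).2
    · exact mem_singleton.1 hv' ▸ (mem_inter.1 hz).2
  have href := h.refuse_cls hg hP hC hD hCD hj hx hM hxM (X := {y, z}) hXQ hT.subset
  have hr1 := h.refuse_leaf hg hP hC hD hCD (L := L1) (by simp) hj hx hM hxM (X := {y, z}) hXQ
    hT.subset
  have hr2 := h.refuse_leaf hg hP hC hD hCD (L := L2) (by simp) hj hx hM hxM (X := {y, z}) hXQ
    hT.subset
  obtain ⟨k1, k2⟩ := sees_two (B := B) hg hne (by rw [hU]; exact mem_singleton_self u)
  refine ⟨hv.cov, h.FQ hL1, h.FQ hL2, h.crit_leaf' hL1, h.crit_leaf' hL2, huQ,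
    (mem_inter.1 hy).2, (mem_inter.1 hz).2, hyz, huT y hy, huT z hz,
    fun h1 => disjoint_left.1 (h.ge.FU _ hL1) h1 huU.1,
    fun h1 => disjoint_left.1 (h.ge.FU _ hL2) h1 huU.1,
    (h.T_out hj hy).2 _ hL1, (h.T_out hj hy).2 _ hL2, (h.T_out hj hz).2 _ hL1,
    (h.T_out hj hz).2 _ hL2, ?_, hr1, hr2, Ez_of_slf k1, Ez_of_slf k2⟩
  rw [sum_pair hne, hU] at href
  have h3 : ({u} ∪ ({L1, L2} : Finset (Finset V)).biUnion id ∪ {y, z}) =
      L1 ∪ L2 ∪ {u, y, z} := by
    ext v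
    simp only [mem_union, mem_singleton, mem_biUnion, mem_insert, id]
    constructor
    · rintro ((h1 | ⟨A, rfl | rfl, hA⟩) | h1)
      · exact Or.inr (Or.inl h1)
      · exact Or.inl (Or.inl hA)
      · exact Or.inl (Or.inr hA)
      · exact Or.inr (Or.inr h1)
    · rintro ((h1 | h1) | h1 | h1)
      · exact Or.inl (Or.inr ⟨_, Or.inl rfl, h1⟩)
      · exact Or.inl (Or.inr ⟨_, Or.inr rfl, h1⟩)
      · exact Or.inl (Or.inl h1)
      · exact Or.inr h1
  rw [h3] at href
  exact href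

/-- a leaf with three points. -/
theorem l33 (h : Frm B Q T U F) (hv : ViolR B Q) {L : Finset V} (hL : L ∈ F) (h3 : L.card = 3)
    {n : ℕ} (hn : nt B L 1 ≤ n) : L33 B Q L n ∧ rho B L = 2 := by
  have hr : rho B L = 2 := by
    have h1 := h.sv_leaf hL
    unfold sv at h1
    omega
  exact ⟨⟨h.FQ hL, h3, fun m hm => pair_of_crit (hv.cov.mono (h.FQ hL)) hr (h.crit_leaf' hL) hm,
    h.two_of hL, hn⟩, hr⟩

end Frm

/-- a block through a point of `U` has at most one point in a leaf. -/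
theorem Frm.one_trU (h : Frm B Q T U F) {L : Finset V} (hL : L ∈ F) (hu : u ∈ U) {i : ι}
    (hi : u ∈ B i) : (B i ∩ L).card ≤ 1 := by
  rcases (B i ∩ L).eq_empty_or_nonempty with h0 | h0
  · rw [h0, card_empty]
    exact Nat.zero_le _
  · have h1 := h.leaf_U (F' := {L}) (U' := {u}) (singleton_subset_iff.2 hL)
      (singleton_subset_iff.2 hu) (i := i) (by rw [singleton_biUnion]; exact h0)
      ⟨u, mem_inter.2 ⟨hi, mem_singleton_self u⟩⟩
    rw [singleton_biUnion] at h1
    exact h1.1.le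

end frame

variable {V : Type v} [DecidableEq V] {ι : Type u} [Fintype ι] [DecidableEq ι]
  {B : ι → Finset V} {Q U : Finset V} {T : Finset ι} {F : Finset (Finset V)}
  {P : Finset (Finset (Finset V))} {a : V → Finset (Finset V) → ℕ} {L1 L2 L : Finset V}

namespace Stg

omit [DecidableEq ι] in
theorem uC_pair (hne : L1 ≠ L2) (v : V) : uC B v {L1, L2} = (Ez B L1 v).card + (Ez B L2 v).card := by
  unfold uC
  rw [sum_pair hne, uh_Ez, uh_Ez]

variable {u : V} {j j' : ι} {x y z x' y' z' : V} {D D' : Finset (Finset V)}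

/-- the centre of a triple of type B inside a class which is a parallel class. -/
theorem centre (s : Stg B Q T U F P a) {C : Finset (Finset V)} (hC : C ∈ P)
    (hc : C.card = (Sp.Uin U (slf B F) C).card + 1)
    (hB : BT B Q F (par0 B U F) j x y z D) (hD : D ⊆ C) : D = C := by
  have h1 := s.par_comp hC hc
  by_contra hne
  obtain ⟨L, hL⟩ := hB.nb
  exact disjoint_left.1 (s.par.dj hB.mem h1 hne) (hB.sb hL) (hD (hB.sb hL))

/-- **the data of a class of two leaves with a centred triple**. -/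
theorem q2 (s : Stg B Q T U F P a) (hC : ({L1, L2} : Finset (Finset V)) ∈ P) (hne : L1 ≠ L2)
    (hU : Sp.Uin U (slf B F) {L1, L2} = {u}) (hj : j ∈ T)
    (hB : BT B Q F (par0 B U F) j x y z D) (hD : D ⊆ {L1, L2}) : Q2 B Q L1 L2 u x y := by
  have h1 : D = {L1, L2} := s.centre hC (by rw [card_pair hne, hU, card_singleton]) hB hD
  obtain ⟨M, hM, hMD⟩ := not_subset.1 hB.nsc
  rw [h1] at hMD
  have hMF : M ∈ F := (mem_slf.1 hM).1
  rw [← s.part.ptn.un] at hMF
  obtain ⟨E, hE, hME⟩ := mem_biUnion.1 hMF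
  rw [id] at hME
  have hCE : ({L1, L2} : Finset (Finset V)) ≠ E := fun h2 => hMD (h2 ▸ hME)
  refine s.frm.twoL s.viol (s.frm.gdT (R := Rg B Q T U F)) s.part hC hne hU hj hE hCE hME hM ?_ hB.ab
  rw [hB.eq]
  ext v
  simp only [mem_insert, mem_singleton]
  tauto

/-- the loss of the inside points of a class with one inside point. -/
theorem lsC_one {C : Finset (Finset V)} (hU : Sp.Uin U (slf B F) C = {u}) :
    lsC B Q T U F C = uo B Q T U F u := by
  unfold lsC
  rw [hU, sum_singleton]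

/-- the hits of a point of a triple on a class of two leaves. -/
theorem four_pair (s : Stg B Q T U F P a) (hC : ({L1, L2} : Finset (Finset V)) ∈ P)
    (hne : L1 ≠ L2) (hj : j ∈ T) {v : V} (hv : v ∈ B j ∩ Q) : uC B v {L1, L2} ≤ 4 := by
  have hCF := (s.part.ptn.vc _ hC).sub
  have h1 := (s.frm.four_two s.viol.reg hj (hCF (by simp : L1 ∈ _)) (hCF (by simp : L2 ∈ _))
    hne hv).1
  unfold uC
  rw [sum_pair hne]
  exact h1

/-- **KE**: a triple of type B centred at a class of two point leaves. -/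
theorem ke (s : Stg B Q T U F P a) {p q : V}
    (hC : ({{p}, {q}} : Finset (Finset V)) ∈ P) (hne : p ≠ q)
    (hU : Sp.Uin U (slf B F) {{p}, {q}} = {u}) (hj : j ∈ T)
    (hB : BT B Q F (par0 B U F) j x y z D) (hD : D ⊆ {{p}, {q}}) :
    uC B x {{p}, {q}} + uC B y {{p}, {q}} + 2 * ee B Q {p} + 2 * ee B Q {q} ≤ 9 := by
  have hne' : ({p} : Finset V) ≠ {q} := fun h1 => hne (singleton_injective h1)
  have d := s.q2 hC hne' hU hj hB hD
  have h1 := s.four_pair hC hne' hj (v := x) (by rw [hB.eq]; simp)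
  have h2 := s.four_pair hC hne' hj (v := y) (by rw [hB.eq]; simp)
  rw [uC_pair hne'] at h1 h2 ⊢
  rw [uC_pair hne']
  have h3 := d.ke s.viol h1 h2
  omega

/-- **KB**: a triple of type B centred at a class of a point leaf and a second leaf, without full
hits. -/
theorem kb (s : Stg B Q T U F P a) {p : V}
    (hC : ({{p}, L} : Finset (Finset V)) ∈ P) (hne : {p} ≠ L)
    (hU : Sp.Uin U (slf B F) {{p}, L} = {u}) (hj : j ∈ T)
    (hB : BT B Q F (par0 B U F) j x y z D) (hD : D ⊆ {{p}, L}) (hp : ¬ PoorF B x y D) :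
    uh B x {p} + uh B y {p} + 2 * ee B Q {p} ≤ 5 ∧
      uh B x L + uh B y L + 2 * ee B Q L ≤ nt B L 1 ∧
      (uh B x {p} + uh B y {p} ≤ 3 ∨
        uh B u L + uh B x L + uh B y L + 2 * ee B Q L ≤ nt B L 1) := by
  have d := s.q2 hC hne hU hj hB hD
  have h1 : D = {{p}, L} := s.centre hC (by rw [card_pair hne, hU, card_singleton]) hB hD
  have hCF := (s.part.ptn.vc _ hC).sub
  have hL : L ∈ F := hCF (by simp)
  have hpF : ({p} : Finset V) ∈ F := hCF (by simp)
  have hpQ : p ∈ Q := s.frm.FQ hpF (mem_singleton_self p)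
  have hone : ∀ i, x ∈ B i ∨ y ∈ B i → (B i ∩ L).card ≤ 1 := by
    intro i hi
    by_contra h2
    exact hp ⟨L, by rw [h1]; simp, i, hi, by omega⟩
  have huU : u ∈ U := by
    have h1 : u ∈ Sp.Uin U (slf B F) {{p}, L} := by rw [hU]; simp
    exact (mem_filter.1 h1).1
  have e1 := d.swap.np (fun i _ => by
    refine (card_le_card inter_subset_right).trans ?_
    rw [card_singleton])
  have e2 := d.np hone
  have h7 : nt B {p} 1 ≤ 5 := by
    have h8 : (univ.filter (fun k => p ∈ B k)).card = 5 := s.viol.reg p hpQ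
    rw [← h8]
    refine card_le_card fun i hi => ?_
    rw [mem_filter]
    refine ⟨mem_univ _, ?_⟩
    have h9 : (B i ∩ {p}).Nonempty := card_pos.1 (by rw [mem_trs.1 hi]; omega)
    obtain ⟨t, ht⟩ := h9
    obtain ⟨h10, h11⟩ := mem_inter.1 ht
    exact mem_singleton.1 h11 ▸ h10
  simp only [uh_Ez]
  refine ⟨by omega, e2, ?_⟩
  have tx := s.viol.twin_pt hpQ d.yQ fun he => d.y1 (he ▸ mem_singleton_self _)
  have ty := s.viol.twin_pt hpQ d.zQ fun he => d.z1 (he ▸ mem_singleton_self _)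
  rcases (Ez B {p} x).eq_empty_or_nonempty with h3 | h3
  · left
    rw [h3, card_empty]
    omega
  rcases (Ez B {p} y).eq_empty_or_nonempty with h4 | h4
  · left
    rw [h4, card_empty]
    omega
  · right
    exact d.kb h3 h4 hone fun i hi => s.frm.one_trU hL huU hi

/-- the data of a class of two leaves with three points with a centred triple. -/
theorem p33 (s : Stg B Q T U F P a) (hC : ({L1, L2} : Finset (Finset V)) ∈ P) (hne : L1 ≠ L2)
    (hU : Sp.Uin U (slf B F) {L1, L2} = {u}) (h1 : L1.card = 3) (h2 : L2.card = 3)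
    (n1 : nt B L1 1 ≤ 1) (n2 : nt B L2 1 ≤ 3) (hj : j ∈ T)
    (hB : BT B Q F (par0 B U F) j x y z D) (hD : D ⊆ {L1, L2}) : P33 B Q L1 L2 u x y := by
  have hCF := (s.part.ptn.vc _ hC).sub
  obtain ⟨e1, e2⟩ := s.frm.l33 s.viol (hCF (by simp : L1 ∈ _)) h1 n1
  obtain ⟨e3, e4⟩ := s.frm.l33 s.viol (hCF (by simp : L2 ∈ _)) h2 n2
  exact (s.q2 hC hne hU hj hB hD).p33 e1 e3 e2 e4

/-- the hits of the inside point. -/
theorem hits_u (s : Stg B Q T U F P a) (hC : ({L1, L2} : Finset (Finset V)) ∈ P) (hne : L1 ≠ L2)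
    (hU : Sp.Uin U (slf B F) {L1, L2} = {u}) :
    (Ez B L1 u).card + (Ez B L2 u).card + lsC B Q T U F {L1, L2} = 5 ∧
      (Ez B L1 u).card ≤ nt B L1 1 ∧ (Ez B L2 u).card ≤ nt B L2 1 := by
  have hu : u ∈ Sp.Uin U (slf B F) {L1, L2} := by rw [hU]; simp
  have huU := (mem_filter.1 hu).1
  have h1 := s.frm.uC_in s.viol.reg s.part hC hu
  rw [uC_pair hne] at h1
  rw [lsC_one hU]
  have hCF := (s.part.ptn.vc _ hC).sub
  have key : ∀ L ∈ F, (Ez B L u).card ≤ nt B L 1 := by
    intro L hL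
    refine card_le_card fun i hi => ?_
    obtain ⟨h2, h3⟩ := mem_Ez.1 hi
    have h4 := s.frm.one_trU hL huU h2
    have h5 := card_pos.2 h3
    exact mem_trs.2 (by omega)
  refine ⟨by omega, key L1 (hCF (by simp)), key L2 (hCF (by simp))⟩

/-- **KC**: a triple of type B with eight hits centred at a class of leaves of types (3;1) and
(3;3). -/
theorem kc1 (s : Stg B Q T U F P a) (hC : ({L1, L2} : Finset (Finset V)) ∈ P) (hne : L1 ≠ L2)
    (hU : Sp.Uin U (slf B F) {L1, L2} = {u}) (h1 : L1.card = 3) (h2 : L2.card = 3)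
    (n1 : nt B L1 1 ≤ 1) (n2 : nt B L2 1 ≤ 3) (hj : j ∈ T)
    (hB : BT B Q F (par0 B U F) j x y z D) (hD : D ⊆ {L1, L2})
    (h8 : 8 ≤ uC B x {L1, L2} + uC B y {L1, L2}) : 2 ≤ lsC B Q T U F {L1, L2} := by
  have d := s.p33 hC hne hU h1 h2 n1 n2 hj hB hD
  have e1 := s.four_pair hC hne hj (v := x) (by rw [hB.eq]; simp)
  have e2 := s.four_pair hC hne hj (v := y) (by rw [hB.eq]; simp)
  rw [uC_pair hne] at e1 e2 h8
  rw [uC_pair hne] at h8
  obtain ⟨e3, e4, e5⟩ := s.hits_u hC hne hU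
  have e6 := (d.fin s.viol (by omega) (by omega)).1
  omega

/-- **KC**: two triples of type B with eight hits centred at a class of leaves of types (3;1) and
(3;3). -/
theorem kc2 (s : Stg B Q T U F P a) (hC : ({L1, L2} : Finset (Finset V)) ∈ P) (hne : L1 ≠ L2)
    (hU : Sp.Uin U (slf B F) {L1, L2} = {u}) (h1 : L1.card = 3) (h2 : L2.card = 3)
    (n1 : nt B L1 1 ≤ 1) (n2 : nt B L2 1 ≤ 3) (hj : j ∈ T) (hj' : j' ∈ T) (hjj : j ≠ j')
    (hB : BT B Q F (par0 B U F) j x y z D) (hD : D ⊆ {L1, L2})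
    (hB' : BT B Q F (par0 B U F) j' x' y' z' D') (hD' : D' ⊆ {L1, L2})
    (h8 : 8 ≤ uC B x {L1, L2} + uC B y {L1, L2})
    (h8' : 8 ≤ uC B x' {L1, L2} + uC B y' {L1, L2}) : 3 ≤ lsC B Q T U F {L1, L2} := by
  have d := s.p33 hC hne hU h1 h2 n1 n2 hj hB hD
  have d' := s.p33 hC hne hU h1 h2 n1 n2 hj' hB' hD'
  have e1 := s.four_pair hC hne hj (v := x) (by rw [hB.eq]; simp)
  have e2 := s.four_pair hC hne hj (v := y) (by rw [hB.eq]; simp)
  have e1' := s.four_pair hC hne hj' (v := x') (by rw [hB'.eq]; simp)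
  have e2' := s.four_pair hC hne hj' (v := y') (by rw [hB'.eq]; simp)
  rw [uC_pair hne] at e1 e2 h8 e1' e2' h8'
  rw [uC_pair hne] at h8 h8'
  obtain ⟨e3, e4, e5⟩ := s.hits_u hC hne hU
  have e6 := d.fin2 s.viol d' (by
    rintro w w' hw hw' rfl
    have h3 : w ∈ B j ∩ Q := by
      rw [hB.eq]
      rcases hw with rfl | rfl <;> simp
    have h4 : w ∈ B j' ∩ Q := by
      rw [hB'.eq]
      rcases hw' with rfl | rfl <;> simp
    exact disjoint_left.1 (s.frm.mtp.tpk.pack.disj j hj j' hj' hjj) h3 h4)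
    (by omega) (by omega) (by omega) (by omega)
  omega

end Stg

end Pool.Agent.Hyp6
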