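import Pool.Agent.Hyp6.L3Yi

/-!
# HYP6 L3Yp5: composite classes with a centred triple without full hits, the integers
-/

set_option autoImplicit false

namespace Pool.Agent.Hyp6

/-- the bounds of the need `t` of a line triple with `h` hits. -/
structure Tx (h t : ℤ) : Prop where
  h0 : 0 ≤ h
  h11 : h ≤ 11
  b3 : h ≤ 3 → t ≤ -95
  b4 : h ≤ 4 → t ≤ 60
  b5 : h ≤ 5 → t ≤ 145
  b8 : h ≤ 8 → t ≤ 160 * h - 655 ∨ h ≤ 4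
  b9 : h = 9 → t ≤ 705
  b10 : h = 10 → t ≤ 839
  b11 : h = 11 → t ≤ 870

theorem Tx.cases {h t : ℤ} (k : Tx h t) : (h ≤ 3 ∧ t ≤ -95) ∨ (h = 4 ∧ t ≤ 60) ∨
    (5 ≤ h ∧ h ≤ 8 ∧ t ≤ 160 * h - 655) ∨ (h = 9 ∧ t ≤ 705) ∨ (h = 10 ∧ t ≤ 839) ∨
    (h = 11 ∧ t ≤ 870) := by
  obtain ⟨h0, h1, h2, h3, h4, h5, h6, h7, h8⟩ := k
  rcases (by omega : h ≤ 3 ∨ h = 4 ∨ (5 ≤ h ∧ h ≤ 8) ∨ h = 9 ∨ h = 10 ∨ h = 11) with h | h | h | h | h | h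
  · exact Or.inl ⟨h, h2 h⟩
  · exact Or.inr (Or.inl ⟨h, h3 (by omega)⟩)
  · refine Or.inr (Or.inr (Or.inl ⟨h.1, h.2, ?_⟩))
    rcases h5 h.2 with h9 | h9 <;> omega
  · exact Or.inr (Or.inr (Or.inr (Or.inl ⟨h, h6 h⟩)))
  · exact Or.inr (Or.inr (Or.inr (Or.inr (Or.inl ⟨h, h7 h⟩))))
  · exact Or.inr (Or.inr (Or.inr (Or.inr (Or.inr ⟨h, h8 h⟩))))

/-- the sums, at least four leaves. -/
theorem Sm.exq {p S E N h s Y x W t : ℤ} (k : Sm (p + 1) S E N (s + h) Y x) (ht : Tx h t)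
    (hp : 3 ≤ p) (hW : 0 ≤ W) (hY : Y = 5 * p - W) (hs5 : 5 ≤ s) (hs8 : s ≤ 8) :
    t + (160 * s - 584) + 120 * (p + 1) - 120 * S - 600 * p - 160 * W - 5 * x ≤ 0 := by
  obtain ⟨h1, h2, h3, h4, h5, h6, h7, h8⟩ := k
  subst hY
  rcases ht.cases with ⟨a1, a2⟩ | ⟨a1, a2⟩ | ⟨a1, a3, a2⟩ | ⟨a1, a2⟩ | ⟨a1, a2⟩ | ⟨a1, a2⟩ <;> omega

/-- the sums, three leaves, large value. -/
theorem Sm.ext {S E N h s Y x W t : ℤ} (k : Sm 3 S E N (s + h) Y x) (ht : Tx h t)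
    (hW : 0 ≤ W) (hY : Y = 10 - W) (hs5 : 5 ≤ s) (hs8 : s ≤ 8) (hx : 2 ≤ x) (hS : S ≠ 2)
    (hS4 : S ≠ 4) :
    t + (160 * s - 584) + 360 - 120 * S - 1200 - 160 * W - 5 * x ≤ 0 := by
  obtain ⟨h1, h2, h3, h4, h5, h6, h7, h8⟩ := k
  subst hY
  rcases ht.cases with ⟨a1, a2⟩ | ⟨a1, a2⟩ | ⟨a1, a3, a2⟩ | ⟨a1, a2⟩ | ⟨a1, a2⟩ | ⟨a1, a2⟩ <;> omega

/-- the sums, two leaves, large value. -/
theorem Sm.ex8 {S E N h s Y x W t : ℤ} (k : Sm 2 S E N (s + h) Y x) (ht : Tx h t)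
    (hW : 0 ≤ W) (hY : Y = 5 - W) (hs5 : 5 ≤ s) (hs8 : s ≤ 8) (hx : 2 ≤ x) (hS : 8 ≤ S)
    (hn : s + 2 * E ≤ N) :
    t + (160 * s - 584) + 240 - 120 * S - 600 - 160 * W - 5 * x ≤ 0 := by
  obtain ⟨h1, h2, h3, h4, h5, h6, h7, h8⟩ := k
  subst hY
  rcases ht.cases with ⟨a1, a2⟩ | ⟨a1, a2⟩ | ⟨a1, a3, a2⟩ | ⟨a1, a2⟩ | ⟨a1, a2⟩ | ⟨a1, a2⟩ <;> omega

/-- the numbers of a leaf: `s` hits of the pair, `h` hits of the line triple. -/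
structure Lx (P N m e s h y x f : ℤ) : Prop where
  lc : Lc P N m e (s + h) y x f
  s0 : 0 ≤ s
  h0 : 0 ≤ h
  sn : s + 2 * e ≤ N
  cap : m = 3 → N = 1 → h ≤ 4

/-- a leaf as cases. -/
theorem Lx.cases {P N m e s h y x f : ℤ} (k : Lx P N m e s h y x f) (hP : P - 2 * e ≤ 6) :
    (P - 2 * e = 0 ∧ m = 3 ∧ e = 0 ∧ y = 1 ∧ s ≤ 1 ∧ h ≤ 4 ∧ s + h + x ≤ 8 ∧
      (x = 0 → s + h ≤ 2)) ∨
    (P - 2 * e = 0 ∧ m = 1 ∧ e = 1 ∧ y ≤ 5 ∧ s ≤ 3 ∧ s + h + y + x ≤ 6) ∨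
    (P - 2 * e = 2 ∧ m = 1 ∧ e = 0 ∧ y ≤ 5 ∧ s ≤ 5 ∧ s + h + y + x ≤ 10) ∨
    (P - 2 * e = 2 ∧ m = 3 ∧ e = 1 ∧ y ≤ 3 ∧ s ≤ 1 ∧ s + h + y + x ≤ 8) ∨
    (P - 2 * e = 4 ∧ m = 3 ∧ N = 3 ∧ e = 0 ∧ y ≤ 3 ∧ s ≤ 3 ∧ s + h + y + x ≤ 12) ∨
    (P - 2 * e = 4 ∧ m = 3 ∧ e = 2 ∧ y ≤ 5 ∧ s ≤ 1 ∧ s + h + y + x ≤ 7) ∨
    (P - 2 * e = 6 ∧ m = 5 ∧ e = 0 ∧ y = 1 ∧ s ≤ 1 ∧ s + h + y + x ≤ 14) ∨
    (P - 2 * e = 6 ∧ m = 3 ∧ e = 1 ∧ y ≤ 5 ∧ s ≤ 3 ∧ s + h + y + x ≤ 11) ∨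
    (P - 2 * e = 6 ∧ m = 3 ∧ e = 3 ∧ y ≤ 7 ∧ s ≤ 1 ∧ s + h + y + x ≤ 6) := by
  obtain ⟨⟨h1, h2, h3, h4, h5, h6, h7, h8, h9, h10, h11, h12, h13, h14, h15, h16, h17, h18⟩,
    i1, i2, i3, i4⟩ := k
  have hm : m = 1 ∨ m = 3 ∨ m = 5 := by omega
  rcases hm with rfl | rfl | rfl
  · have h7 := h7 rfl
    subst h7
    have he : e = 0 ∨ e = 1 := by omega
    rcases he with rfl | rfl
    · right; right; left
      omega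
    · right; left
      omega
  · have hN : N = 1 ∨ N = 3 ∨ N = 5 ∨ N = 7 := by omega
    rcases hN with rfl | rfl | rfl | rfl
    · left
      have he : e = 0 := by omega
      subst he
      have i4 := i4 rfl rfl
      have hy : y = 1 := by omega
      subst hy
      have h18 := h18 rfl rfl rfl
      refine ⟨by omega, rfl, rfl, rfl, by omega, i4, by omega, fun hx => ?_⟩
      exact h15 (by omega) (by omega)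
    · have he : e = 0 ∨ e = 1 := by omega
      rcases he with rfl | rfl
      · right; right; right; right; left
        omega
      · right; right; right; left
        omega
    · have he : e = 1 ∨ e = 2 := by omega
      rcases he with rfl | rfl
      · right; right; right; right; right; right; right; left
        omega
      · right; right; right; right; right; left
        omega
    · right; right; right; right; right; right; right; right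
      omega
  · have hN : N = 1 := by omega
    subst hN
    have he : e = 0 := by omega
    right; right; right; right; right; right; left
    omega

/-- **three leaves**, ordered values. -/
theorem Lx.three {P1 N1 m1 e1 s1 j1 y1 x1 f1 P2 N2 m2 e2 s2 j2 y2 x2 f2 : ℤ}
    {P3 N3 m3 e3 s3 j3 y3 x3 f3 : ℤ} {W t : ℤ} (k1 : Lx P1 N1 m1 e1 s1 j1 y1 x1 f1)
    (k2 : Lx P2 N2 m2 e2 s2 j2 y2 x2 f2) (k3 : Lx P3 N3 m3 e3 s3 j3 y3 x3 f3)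
    (ht : Tx (j1 + j2 + j3) t) (hW : 0 ≤ W) (hY : y1 + y2 + y3 = 10 - W)
    (hs5 : 5 ≤ s1 + s2 + s3) (hs8 : s1 + s2 + s3 ≤ 8) (hx : 2 ≤ x1 + x2 + x3) :
    t + (160 * (s1 + s2 + s3) - 584) + 360 -
      120 * ((P1 - 2 * e1) + (P2 - 2 * e2) + (P3 - 2 * e3)) - 1200 - 160 * W -
      5 * (x1 + x2 + x3) ≤ 0 := by
  by_cases hS : (P1 - 2 * e1) + (P2 - 2 * e2) + (P3 - 2 * e3) = 2 ∨
      (P1 - 2 * e1) + (P2 - 2 * e2) + (P3 - 2 * e3) = 4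
  · have p1 := k1.lc.sm.S0
    have p2 := k2.lc.sm.S0
    have p3 := k3.lc.sm.S0
    have q1 := k1.cases (by omega)
    have q2 := k2.cases (by omega)
    have q3 := k3.cases (by omega)
    have w1 := k1.lc.x0
    have w2 := k2.lc.x0
    have w3 := k3.lc.x0
    have tc := ht.cases
    clear k1 k2 k3 ht
    omega
  · push Not at hS
    have hs := (k1.lc.sm.add k2.lc.sm).add k3.lc.sm
    have hs' : Sm 3 (P1 - 2 * e1 + (P2 - 2 * e2) + (P3 - 2 * e3)) (e1 + e2 + e3) (N1 + N2 + N3)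
        (s1 + s2 + s3 + (j1 + j2 + j3)) (y1 + y2 + y3) (x1 + x2 + x3) := by
      have e1 : s1 + s2 + s3 + (j1 + j2 + j3) = s1 + j1 + (s2 + j2) + (s3 + j3) := by ring
      rw [e1]
      exact hs
    exact hs'.ext ht hW hY hs5 hs8 hx hS.1 hS.2

/-- **two leaves**. -/
theorem Lx.two {P1 N1 m1 e1 s1 j1 y1 x1 f1 P2 N2 m2 e2 s2 j2 y2 x2 f2 W t : ℤ}
    (k1 : Lx P1 N1 m1 e1 s1 j1 y1 x1 f1)
    (k2 : Lx P2 N2 m2 e2 s2 j2 y2 x2 f2)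
    (ht : Tx (j1 + j2) t) (hW : 0 ≤ W) (hY : y1 + y2 = 5 - W)
    (g1 : m1 = 1 → y1 ≤ 3) (g2 : m2 = 1 → y2 ≤ 3)
    (hs5 : 5 ≤ s1 + s2) (hs8 : s1 + s2 ≤ 8)
    (hx : 2 ≤ x1 + x2 ∨ (x1 + x2 ≤ 1 ∧ (P1 - 2 * e1) + (P2 - 2 * e2) ≤ 2))
    (hle : P1 - 2 * e1 ≤ P2 - 2 * e2)
    (h12 : P1 - 2 * e1 = 0 → P2 - 2 * e2 = 2 → x1 + x2 ≤ 1 → s1 + j1 + (s2 + j2) ≤ 12)
    (kb : m1 = 1 → N2 = 3 → m2 = 3 → e2 = 0 → s1 ≤ 3 ∨ y2 + s2 ≤ 3)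
    (ke : ¬ (m1 = 1 ∧ m2 = 1 ∧ s1 + 2 * e1 = 5 ∧ s2 + 2 * e2 = 5)) :
    t + (160 * (s1 + s2) - 584) + 240 -
      120 * ((P1 - 2 * e1) + (P2 - 2 * e2)) - 600 - 160 * W - 5 * (x1 + x2) ≤ 0 := by
  by_cases hS : (P1 - 2 * e1) + (P2 - 2 * e2) ≤ 7
  · have p1 := k1.lc.sm.S0
    have p2 := k2.lc.sm.S0
    have p3 := k1.lc.sm.Se
    have p4 := k2.lc.sm.Se
    have q1 := k1.cases (by omega)
    have q2 := k2.cases (by omega)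
    clear p3 p4
    have w1 := k1.lc.x0
    have w2 := k2.lc.x0
    have tc := ht.cases
    clear k1 k2 ht
    omega
  · have hs := (k1.lc.sm.add k2.lc.sm)
    have hs' : Sm 2 (P1 - 2 * e1 + (P2 - 2 * e2)) (e1 + e2) (N1 + N2)
        (s1 + s2 + (j1 + j2)) (y1 + y2) (x1 + x2) := by
      have e1 : s1 + s2 + (j1 + j2) = s1 + j1 + (s2 + j2) := by ring
      rw [e1]
      exact hs
    have i1 := k1.sn
    have i2 := k2.sn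
    exact hs'.ex8 ht hW hY hs5 hs8 (by omega) (by omega) (by omega)

end Pool.Agent.Hyp6
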