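import Pool.Agent.Hyp6.L3Xf
import Pool.Agent.Hyp6.L3Yp5
import Pool.Agent.Hyp6.L3Nv
import Pool.Agent.Hyp6.L3NS

/-!
# HYP6 L3Yp7: composite classes with a centred triple without full hits

`Stg.lx`: the numbers of a leaf. `Stg.ex_ok`: **the exceptional case** of a composite class with a
centred triple and a line triple.
-/

set_option autoImplicit false

namespace Pool.Agent.Hyp6

open Finset Pool.Agent.Hyp5 Rt

universe u v

theorem tx_of {h : ℕ} (hh : h ≤ 11) {t : ℤ} (ht : t ≤ tC h) (ht' : h = 11 → t ≤ 870) :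
    Tx h t := by
  have h1 : (h : ℤ) ≤ 11 := by exact_mod_cast hh
  have h8 : (h : ℤ) ≤ 8 → t ≤ 160 * (h : ℤ) - 655 ∨ (h : ℤ) ≤ 4 := by
    intro h3
    rcases (by omega : h ≤ 4 ∨ 5 ≤ h) with h4 | h4
    · exact Or.inr (by exact_mod_cast h4)
    · left
      have h5 : h ≤ 8 := by exact_mod_cast h3
      clear h3 h1
      interval_cases h <;> simp only [tC] at ht <;> norm_num at ht ht' <;>
        push_cast <;> omega
  refine ⟨by positivity, h1, fun h3 => ?_, fun h3 => ?_, fun h3 => ?_, h8,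
    fun h3 => ?_, fun h3 => ?_, fun h3 => ?_⟩ <;>
  · clear h1 h8
    interval_cases h <;> simp only [tC] at ht <;> norm_num at ht ht' h3 <;>
      omega

variable {V : Type v} [DecidableEq V] {ι : Type u} [Fintype ι] [DecidableEq ι]
  {B : ι → Finset V} {Q U : Finset V} {T : Finset ι} {F C : Finset (Finset V)}
  {P : Finset (Finset (Finset V))} {a : V → Finset (Finset V) → ℕ} {i j : ι} {x y z : V}
  {m : ℕ}

namespace Stg

/-- **the numbers of a leaf** with a pair without full hits and a second triple. -/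
theorem lx (s : Stg B Q T U F P a) (h31 : G31 B Q T U F) (hC : C ∈ P)
    (hK : KC B Q T U F C = ∅) (h2 : 2 ≤ C.card) (d : Cd B Q T U F P C i x y z m 0)
    (hz : jC B Q i C = m) (hj : j ∈ T) (hij : i ≠ j) {L : Finset V} (hL : L ∈ C) :
    Lx (Pp B L) (nt B L 1) L.card (ee B Q L) ((uh B x L : ℤ) + uh B y L) (jh B Q j L)
      (hit B (Sp.Uin U (slf B F) C) L) (hit B (Rso B Q U F i j C L) L) (fs B Q L) := by
  classical
  have hCF : C ⊆ F := (s.part.ptn.vc C hC).sub
  have hLF := hCF hL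
  have hz0 : uh B z L = 0 := by
    have h1 := d.jC3
    have h3 := d.s_eq
    have h4 : uC B z C = 0 := by omega
    unfold uC at h4
    exact (sum_eq_zero_iff.1 h4) L hL
  have hji : jh B Q i L = uh B x L + uh B y L := by
    rw [jh_sum, d.bt.eq, sum_insert (by simp [d.bt.ab, d.bt.ac]), sum_pair d.bt.bc, hz0]
    omega
  have l := s.lc hC hK h2 d.mT hj hij hL
  rw [hji] at l
  push_cast at l
  refine ⟨l, by positivity, by positivity, by exact_mod_cast d.leaf rfl L hL, fun h3 h4 => ?_⟩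
  have b := s.one hLF
  have hm : L.card = 3 := by exact_mod_cast h3
  have hN : nt B L 1 = 1 := by exact_mod_cast h4
  have hP : Pp B L = 0 := by rw [b.pp, h3, h4]; norm_num
  have he : (ee B Q L : ℤ) = 0 := by
    have h5 := b.p0
    have h6 := b.e0
    rw [hP] at h5
    omega
  have hd : dv B Q L = -1 := by
    rw [s.dv_W hLF, hP, he]
    norm_num
  have hg : hit B U L ≤ 2 := by
    have h5 := b.gn
    rw [h4] at h5
    have h6 : hit B U L ≤ 1 := by exact_mod_cast h5
    omega
  by_contra hcon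
  have h7 : 4 ≤ hit B (B j ∩ Q) L := by
    have h8 : ¬ jh B Q j L ≤ 4 := fun h9 => hcon (by exact_mod_cast h9)
    have h10 : jh B Q j L = hit B (B j ∩ Q) L := rfl
    omega
  have h8 := (h31 L hLF hm hN hd hg j hj h7).1
  exact hcon (by exact_mod_cast h8)

/-- two leaves, ordered. -/
theorem ex_pair (s : Stg B Q T U F P a) (h31 : G31 B Q T U F) {L M : Finset V}
    (hC : ({L, M} : Finset (Finset V)) ∈ P) (hLM : L ≠ M) (hK : KC B Q T U F {L, M} = ∅)
    (d : Cd B Q T U F P {L, M} i x y z m 0) (h5 : 5 ≤ m) (hz : jC B Q i {L, M} = m)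
    (hj : j ∈ T) (hij : i ≠ j) (hsj : ¬ slj B Q F j ⊆ {L, M})
    (hle : Pp B L - 2 * (ee B Q L : ℤ) ≤ Pp B M - 2 * (ee B Q M : ℤ)) {t : ℤ}
    (ht : Tx (jC B Q j {L, M}) t) :
    t + (160 * (m : ℤ) - 584) + 240 -
      120 * ((Pp B L - 2 * (ee B Q L : ℤ)) + (Pp B M - 2 * (ee B Q M : ℤ))) - 600 -
      160 * (lsC B Q T U F {L, M} : ℤ) - 5 * ((hit B (Rso B Q U F i j {L, M} L) L : ℤ) +
        hit B (Rso B Q U F i j {L, M} M) M) ≤ 0 := by
  classical
  have hCF : ({L, M} : Finset (Finset V)) ⊆ F := (s.part.ptn.vc _ hC).sub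
  have hLF : L ∈ F := hCF (by simp)
  have hMF : M ∈ F := hCF (by simp)
  have h2 : ({L, M} : Finset (Finset V)).card = 2 := card_pair hLM
  have hn := s.card_comp hC hK
  obtain ⟨u, hU⟩ := card_eq_one.1 (by omega : (Sp.Uin U (slf B F) {L, M}).card = 1)
  have hu : u ∈ Sp.Uin U (slf B F) {L, M} := by
    rw [hU]
    exact mem_singleton_self u
  have l1 := s.lx h31 hC hK (by omega) d hz hj hij (L := L) (by simp)
  have l2 := s.lx h31 hC hK (by omega) d hz hj hij (L := M) (by simp)
  have hW : (0 : ℤ) ≤ lsC B Q T U F {L, M} := by positivity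
  have hY := s.sum_y hC
  rw [sum_pair hLM, hU, card_singleton, Nat.cast_one, mul_one] at hY
  have hpt : ∀ K ∈ F, (K.card : ℤ) = 1 → (hit B (Sp.Uin U (slf B F) {L, M}) K : ℤ) ≤ 3 := by
    intro K hKF hK1
    obtain ⟨w, rfl⟩ := card_eq_one.1 (by exact_mod_cast hK1 : K.card = 1)
    rw [hU]
    have h3 : u ≠ w := by
      rintro rfl
      exact disjoint_left.1 (s.frm.uin_leaf hKF) hu (mem_singleton_self u)
    exact_mod_cast s.viol.hit_point (s.frm.uin_Q hu) (s.frm.FQ hKF (mem_singleton_self w)) h3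
  rw [← hU] at hY
  obtain ⟨K, hK1, hK2⟩ := not_subset.1 hsj
  have hKF : K ∈ F := slj_sub hK1
  have hm8 : m ≤ 8 := by
    have h6 := d.s_eq
    have h7 := d.x4
    have h8 := d.y4
    omega
  have hms : (m : ℤ) = ((uh B x L : ℤ) + uh B y L) + ((uh B x M : ℤ) + uh B y M) := by
    have h6 := d.s_eq
    unfold uC at h6
    rw [sum_pair hLM, sum_pair hLM] at h6
    rw [h6]
    push_cast
    ring
  have hjm : (jC B Q j {L, M} : ℤ) = (jh B Q j L : ℤ) + jh B Q j M := by
    unfold jC
    rw [sum_pair hLM]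
    push_cast
    rfl
  have h5' : (5 : ℤ) ≤ m := by exact_mod_cast h5
  have hm8' : (m : ℤ) ≤ 8 := by exact_mod_cast hm8
  rw [hms] at h5' hm8' ⊢
  rw [hjm] at ht
  have hji : ∀ K ∈ ({L, M} : Finset (Finset V)), jh B Q i K = uh B x K + uh B y K := by
    intro K hK
    have h1 := d.jC3
    have h3 := d.s_eq
    have h4 : uC B z {L, M} = 0 := by omega
    unfold uC at h4
    have h6 := (sum_eq_zero_iff.1 h4) K hK
    rw [jh_sum, d.bt.eq, sum_insert (by simp [d.bt.ab, d.bt.ac]), sum_pair d.bt.bc, h6]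
    omega
  refine Lx.two l1 l2 ht hW (by linarith) (hpt L hLF) (hpt M hMF) h5' hm8' ?_ hle ?_ ?_ ?_
  · by_cases hx : 2 ≤ (hit B (Rso B Q U F i j {L, M} L) L : ℤ) +
        hit B (Rso B Q U F i j {L, M} M) M
    · exact Or.inl hx
    · refine Or.inr ⟨by omega, ?_⟩
      have hO : (Oc B Q U F i j {L, M}).card ≤ 1 := by
        have h3 := Frm.Oc_le (B := B) (Q := Q) (U := U) (F := F) {L, M} i j
        rw [sum_pair hLM] at h3
        omega
      have h4 := (s.frm.few_out s.viol d.mT hj hij hCF (by omega) hn hKF hK2 hO).2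
      rw [sum_pair hLM, s.dv_W hLF, s.dv_W hMF] at h4
      linarith
  · intro hP1 hP2 hx
    have h6 := s.frm.cls_leaf s.viol d.mT hj hij hLF hMF hLM hU
      (by rw [s.dv_W hLF]; linarith) (by rw [s.dv_W hMF]; linarith) (by omega)
    have h7 : ∀ N, hit B ((B i ∩ Q) ∪ (B j ∩ Q)) N = jh B Q i N + jh B Q j N := fun N =>
      hit_union_left N (s.frm.mtp.tpk.pack.disj i d.mT j hj hij)
    rw [h7, h7, hji L (by simp), hji M (by simp)] at h6
    exact_mod_cast h6
  · intro h6 h7 _ h8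
    obtain ⟨p, rfl⟩ := card_eq_one.1 (by exact_mod_cast h6 : L.card = 1)
    have hnp : ¬ PoorF B x y {{p}, M} := fun h9 => by
      have := d.poor.2 h9
      omega
    obtain ⟨-, -, h9⟩ := s.kb hC hLM hU d.mT d.bt (Subset.refl _) hnp
    have h10 : hit B (Sp.Uin U (slf B F) {{p}, M}) M = uh B u M := by
      rw [hU]
      rfl
    rw [h10]
    rcases h9 with h9 | h9
    · exact Or.inl (by exact_mod_cast h9)
    · right
      have h11 : ((uh B u M + uh B x M + uh B y M + 2 * ee B Q M : ℕ) : ℤ) ≤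
          ((nt B M 1 : ℕ) : ℤ) := by exact_mod_cast h9
      push_cast at h11
      rw [h7, h8] at h11
      linarith
  · rintro ⟨h6, h7, h8, h9⟩
    obtain ⟨p, rfl⟩ := card_eq_one.1 (by exact_mod_cast h6 : L.card = 1)
    obtain ⟨q, rfl⟩ := card_eq_one.1 (by exact_mod_cast h7 : M.card = 1)
    have hpq : p ≠ q := fun h => hLM (by rw [h])
    have h10 := s.ke hC hpq hU d.mT d.bt (Subset.refl _)
    have h11 : ((uC B x {{p}, {q}} + uC B y {{p}, {q}} + 2 * ee B Q {p} + 2 * ee B Q {q} : ℕ) :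
        ℤ) ≤ ((9 : ℕ) : ℤ) := by exact_mod_cast h10
    have h12 : ((uC B x {{p}, {q}} : ℕ) : ℤ) = (uh B x {p} : ℤ) + uh B x {q} := by
      unfold uC
      rw [sum_pair hLM]
      push_cast
      rfl
    have h13 : ((uC B y {{p}, {q}} : ℕ) : ℤ) = (uh B y {p} : ℤ) + uh B y {q} := by
      unfold uC
      rw [sum_pair hLM]
      push_cast
      rfl
    push_cast at h11
    rw [h12, h13] at h11
    linarith

/-- **the exceptional case of a composite class with a centred triple and a line triple**. -/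
theorem ex_ok (s : Stg B Q T U F P a) (h31 : G31 B Q T U F) (hC : C ∈ P) (h2 : 2 ≤ C.card)
    (hK : KC B Q T U F C = ∅) : ExOk B Q T U F P C := by
  classical
  intro i j x y z m d h5 hz hj hij hsj h11 c hc hc'
  have hCF : C ⊆ F := (s.part.ptn.vc C hC).sub
  have hcard := s.card_comp hC hK
  have hW : (0 : ℤ) ≤ lsC B Q T U F C := by positivity
  have hY := s.sum_y hC
  have ht : Tx (jC B Q j C) (c - (160 * (m : ℤ) - 584)) :=
    tx_of h11 (by linarith) (fun h => by have := hc' h; linarith)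
  have hm8 : m ≤ 8 := by
    have h6 := d.s_eq
    have h7 := d.x4
    have h8 := d.y4
    omega
  have h5' : (5 : ℤ) ≤ m := by exact_mod_cast h5
  have hm8' : (m : ℤ) ≤ 8 := by exact_mod_cast hm8
  have hms : (m : ℤ) = ∑ L ∈ C, ((uh B x L : ℤ) + uh B y L) := by
    have h6 := d.s_eq
    unfold uC at h6
    rw [h6, sum_add_distrib]
    push_cast
    rfl
  have hjm : (jC B Q j C : ℤ) = ∑ L ∈ C, (jh B Q j L : ℤ) := by
    unfold jC
    push_cast
    rfl
  rcases (by omega : C.card = 2 ∨ C.card = 3 ∨ 4 ≤ C.card) with hc2 | hc3 | hc4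
  · obtain ⟨L, M, hLM, rfl⟩ := card_eq_two.1 hc2
    have hp : (Sp.Uin U (slf B F) {L, M}).card = 1 := by omega
    rw [hc2, hp, sum_pair hLM, sum_pair hLM]
    rcases le_total (Pp B L - 2 * (ee B Q L : ℤ)) (Pp B M - 2 * (ee B Q M : ℤ)) with hle | hle
    · have h6 := s.ex_pair h31 hC hLM hK d h5 hz hj hij hsj hle ht
      push_cast
      linarith
    · have hpc : ({M, L} : Finset (Finset V)) = {L, M} := pair_comm M L
      have h6 := s.ex_pair (L := M) (M := L) h31 (by rw [hpc]; exact hC) hLM.symm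
        (by rw [hpc]; exact hK) (by rw [hpc]; exact d) h5 (by rw [hpc]; exact hz) hj hij
        (by rw [hpc]; exact hsj) hle (by rw [hpc]; exact ht)
      rw [hpc] at h6
      push_cast
      linarith
  · obtain ⟨L, M, N, hLM, hLN, hMN, rfl⟩ := card_eq_three.1 hc3
    have hp : (Sp.Uin U (slf B F) {L, M, N}).card = 2 := by omega
    have hs3 : ∀ f : Finset V → ℤ, ∑ K ∈ ({L, M, N} : Finset (Finset V)), f K =
        f L + f M + f N := by
      intro f
      rw [sum_insert (by simp [hLM, hLN]), sum_pair hMN]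
      ring
    have l1 := s.lx h31 hC hK h2 d hz hj hij (L := L) (by simp)
    have l2 := s.lx h31 hC hK h2 d hz hj hij (L := M) (by simp)
    have l3 := s.lx h31 hC hK h2 d hz hj hij (L := N) (by simp)
    rw [hs3] at hms hjm
    rw [hs3, hp] at hY
    push_cast at hY
    have hx : 2 ≤ ∑ L' ∈ ({L, M, N} : Finset (Finset V)),
        hit B (Rso B Q U F i j {L, M, N} L') L' := by
      by_contra hcon
      have h12 := Frm.Oc_le (B := B) (Q := Q) (U := U) (F := F) {L, M, N} i j
      obtain ⟨K, hK1, hK2⟩ := not_subset.1 hsj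
      have h13 := (s.frm.few_out s.viol d.mT hj hij hCF h2 hcard (slj_sub hK1) hK2
        (by omega)).1
      omega
    have hx' : 2 ≤ ∑ L' ∈ ({L, M, N} : Finset (Finset V)),
        (hit B (Rso B Q U F i j {L, M, N} L') L' : ℤ) := by exact_mod_cast hx
    rw [hs3] at hx'
    rw [hjm] at ht
    rw [hms] at h5' hm8'
    have h14 := Lx.three l1 l2 l3 ht hW (by linarith) h5' hm8' hx'
    rw [hc3, hp, hs3, hs3]
    push_cast
    rw [hms] at h14
    linarith
  · have h6 := Sm.sum fun L hL => (s.lx h31 hC hK h2 d hz hj hij (L := L) hL).lc.sm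
    have hcz : (C.card : ℤ) = (Sp.Uin U (slf B F) C).card + 1 := by exact_mod_cast hcard
    have hA : ∑ L ∈ C, ((uh B x L : ℤ) + uh B y L + jh B Q j L) =
        (m : ℤ) + jC B Q j C := by
      rw [hms, hjm, ← sum_add_distrib]
    rw [hA, hcz, hY] at h6
    have h7 := h6.exq ht (by omega) hW rfl h5' hm8'
    rw [hcz]
    linarith

end Stg

end Pool.Agent.Hyp6
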