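import Pool.Agent.Hyp6.L3Yq1
import Pool.Agent.Hyp6.L3Yr

/-!
# HYP6 L3Yq2: composite classes without line and inside triples, with a centre

`Stg.lbq`, `Stg.leq`: the numbers of a leaf of a class of two leaves. `Stg.sum_x0`: the other hits.
`Stg.e0_one`, `Stg.e0_two`: two leaves with one and two centred triples. `StgR.E0`: **the composite
classes without line triples and inside triples need nothing**.
-/

set_option autoImplicit false

namespace Pool.Agent.Hyp6

open Finset Pool.Agent.Hyp5 Rt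

universe u v

variable {V : Type v} [DecidableEq V] {ι : Type u} [Fintype ι] [DecidableEq ι]
  {B : ι → Finset V} {Q U : Finset V} {T : Finset ι} {F : Finset (Finset V)}
  {P : Finset (Finset (Finset V))} {C : Finset (Finset V)} {i j : ι}
  {a : V → Finset (Finset V) → ℕ} {x y z x' y' z' : V} {m w m' w' : ℕ} {L M : Finset V}

namespace Stg

/-- **the numbers of a leaf of a class with one inside point**. -/
theorem lbq (s : Stg B Q T U F P a) (hC : C ∈ P) (hK : KC B Q T U F C = ∅) (h2 : 2 ≤ C.card)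
    {u : V} (hU : Sp.Uin U (slf B F) C = {u}) (hL : L ∈ C) :
    Lb (Pp B L) (nt B L 1) L.card (ee B Q L) (hit B (Sp.Uin U (slf B F) C) L) := by
  have hLF := (s.part.ptn.vc C hC).sub hL
  have h1 := s.one hLF
  obtain ⟨t, ht, ht1⟩ := s.frm.own_hit1 h2 (s.card_comp hC hK) hL
  have h3 := hit_mono_left (B := B) L (singleton_subset_iff.2 ht)
  have h4 := s.frm.two_ee_hit hLF
  have h5 := hit_mono_left (B := B) L (Frm.uin_U (B := B) (F := F) (U := U) (C := C))
  refine ⟨h1.pp, h1.m1, h1.mo, h1.n1, h1.no, h1.pt, h1.e0, h1.p0, by omega, by omega,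
    fun hm => ?_⟩
  obtain ⟨p, rfl⟩ := card_eq_one.1 (by exact_mod_cast hm : L.card = 1)
  have hu : u ∈ Sp.Uin U (slf B F) C := by
    rw [hU]
    exact mem_singleton_self u
  rw [hU]
  have h6 : u ≠ p := by
    rintro rfl
    exact disjoint_left.1 (s.frm.uin_leaf hLF) hu (mem_singleton_self u)
  exact_mod_cast s.viol.hit_point (s.frm.uin_Q hu) (s.frm.FQ hLF (mem_singleton_self p)) h6

/-- **the numbers of a leaf of a class with one inside point**, with two triples. -/
theorem leq (s : Stg B Q T U F P a) (hG : G31 B Q T U F) (hC : C ∈ P)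
    (hK : KC B Q T U F C = ∅) (h2 : 2 ≤ C.card) {u : V} (hU : Sp.Uin U (slf B F) C = {u})
    (hi : i ∈ T) (hj : j ∈ T) (hij : i ≠ j) (hL : L ∈ C) :
    Le (Pp B L) (nt B L 1) L.card (ee B Q L) ((jh B Q i L : ℤ) + jh B Q j L)
      (hit B (Sp.Uin U (slf B F) C) L) (hit B (Rso B Q U F i j C L) L) := by
  have hLF := (s.part.ptn.vc C hC).sub hL
  have h1 := s.one hLF
  have h3 := s.hit_all hLF
  have h4 := s.frm.hit_parts4 (C := C) hi hj hij hLF
  rw [h4] at h3
  push_cast at h3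
  have h5 := h1.slot
  have h6 := h1.f0
  refine ⟨s.lbq hC hK h2 hU hL, by linarith, by positivity, by positivity, fun h7 h8 => ?_,
    fun h7 h8 => ?_⟩
  · have h9 := s.g31two hG hLF (by exact_mod_cast h7) (by exact_mod_cast h8) hi hj hij
    exact_mod_cast h9
  · have hx' : hit B (Rso B Q U F i j C L) L = 0 := by exact_mod_cast h8
    have h9 := s.frm.one_three s.viol hi hj hij hLF (p := u) (fun v hv hvu => ?_)
      (by rw [s.dv_W hLF]; linarith)
    · have h10 : hit B ((B i ∩ Q) ∪ (B j ∩ Q)) L = jh B Q i L + jh B Q j L :=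
        hit_union_left L (s.frm.mtp.tpk.pack.disj i hi j hj hij)
      rw [h10] at h9
      exact_mod_cast h9
    · have h10 : v ∈ Rso B Q U F i j C L := by
        obtain ⟨h11, h12⟩ := mem_sdiff.1 hv
        refine mem_sdiff.2 ⟨h11, fun h13 => ?_⟩
        rcases mem_union.1 h13 with h13 | h13
        · exact h12 h13
        · rw [hU, mem_singleton] at h13
          exact hvu h13
      have h11 := hit_eq_Ez (B := B) (Rso B Q U F i j C L) L
      rw [hx'] at h11
      exact card_eq_zero.1 ((sum_eq_zero_iff.1 h11.symm) v h10)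

/-- the other hits of a class without line triples. -/
theorem sum_x0 (s : Stg B Q T U F P a) (hC : C ∈ P) (hK : KC B Q T U F C = ∅) (hi : i ∈ T)
    (hj : j ∈ T) (hij : i ≠ j) (ha : aC B Q T U F P C = ∅) :
    ∑ L ∈ C, (hit B (Rso B Q U F i j C L) L : ℤ) =
      (∑ k ∈ Trs B Q T (Rg B Q T U F) U F P, (jC B Q k C : ℤ) + gC B U F P C) -
        ((jC B Q i C : ℤ) + jC B Q j C) := by
  have hCF : C ⊆ F := (s.part.ptn.vc C hC).sub
  have h1 := s.frm.sum_hitT s.viol.reg Rg_sub s.part hC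
  have h2 := s.frm.sum_hitU s.viol.reg s.part hC
  have h3 := s.sum_at2 hC
  have h4 := s.sum_y hC
  have h5 : ∀ L ∈ C, (hit B (Rso B Q U F i j C L) L : ℤ) = (∑ j ∈ T, (jh B Q j L : ℤ)) +
      hit B U L - ((jh B Q i L : ℤ) + jh B Q j L) - hit B (Sp.Uin U (slf B F) C) L := by
    intro L hL
    have h6 := s.hit_all (hCF hL)
    have h7 := s.frm.hit_parts4 (C := C) hi hj hij (hCF hL)
    rw [h7] at h6
    push_cast at h6
    linarith
  rw [sum_congr rfl h5, sum_sub_distrib, sum_sub_distrib, sum_add_distrib, sum_add_distrib]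
  have hK' : Sp.Kin (Rg B Q T U F) (slj B Q F) C = ∅ := hK
  rw [hK', sum_empty, h3, ha, sum_empty] at h1
  have h8 : ∀ k, (jC B Q k C : ℤ) = ∑ L ∈ C, (jh B Q k L : ℤ) := by
    intro k
    unfold jC
    push_cast
    rfl
  rw [h8 i, h8 j]
  linarith

/-- a class with a large value has two other hits. -/
theorem two_x (s : Stg B Q T U F P a) (hC : C ∈ P) (hK : KC B Q T U F C = ∅) (h2 : 2 ≤ C.card)
    (hi : i ∈ T) (hj : j ∈ T) (hij : i ≠ j) {K : Finset V} (hKF : K ∈ F) (hKC : K ∉ C)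
    (h : 3 ≤ C.card ∨ 2 < ∑ L ∈ C, (Pp B L - 2 * (ee B Q L : ℤ))) :
    (2 : ℤ) ≤ ∑ L ∈ C, (hit B (Rso B Q U F i j C L) L : ℤ) := by
  have hCF : C ⊆ F := (s.part.ptn.vc C hC).sub
  by_contra hcon
  have h3 := Frm.Oc_le (B := B) (Q := Q) (U := U) (F := F) C i j
  have h4 : ∑ L ∈ C, (hit B (Rso B Q U F i j C L) L : ℤ) =
      ((∑ L ∈ C, hit B (Rso B Q U F i j C L) L : ℕ) : ℤ) := by push_cast; rfl
  rw [h4] at hcon
  obtain ⟨h5, h6⟩ := s.frm.few_out s.viol hi hj hij hCF h2 (s.card_comp hC hK) hKF hKC (by omega)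
  have h7 : ∑ L ∈ C, (dv B Q L + 1) = ∑ L ∈ C, (Pp B L - 2 * (ee B Q L : ℤ)) :=
    sum_congr rfl fun L hL => by
      rw [s.dv_W (hCF hL)]
      ring
  rw [h7] at h6
  rcases h with h | h <;> omega

/-- two leaves with one centred triple, ordered. -/
theorem e0_one' (s : Stg B Q T U F P a) (hG : G31 B Q T U F)
    (hC : ({L, M} : Finset (Finset V)) ∈ P) (hK : KC B Q T U F {L, M} = ∅) (hLM : L ≠ M)
    (c : Cd B Q T U F P {L, M} j x y z m w)
    (hle : Pp B L - 2 * (ee B Q L : ℤ) ≤ Pp B M - 2 * (ee B Q M : ℤ)) :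
    160 * (m : ℤ) - 944 - 76 * w ≤ 120 * ((Pp B L - 2 * (ee B Q L : ℤ)) +
      (Pp B M - 2 * (ee B Q M : ℤ))) + 160 * lsC B Q T U F {L, M} := by
  have h2 : ({L, M} : Finset (Finset V)).card = 2 := card_pair hLM
  have hn := s.card_comp hC hK
  obtain ⟨u, hU⟩ := card_eq_one.1 (by omega : (Sp.Uin U (slf B F) {L, M}).card = 1)
  have hY := s.sum_y hC
  rw [sum_pair hLM, card_eq_one.2 ⟨u, hU⟩, Nat.cast_one, mul_one] at hY
  have hms := c.m_sum
  rw [sum_pair hLM] at hms
  have h := Lb.e1 (s.lbq hC hK h2.ge hU (L := L) (by simp)) (s.lbq hC hK h2.ge hU (L := M) (by simp))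
    (c.tr2 s hG hC hLM hU) (by positivity) hY (fun h3 h4 => ?_) hle
  · have h5 : (m : ℤ) = ((uh B x L : ℤ) + uh B y L) + ((uh B x M : ℤ) + uh B y M) := by
      rw [hms]
      push_cast
      ring
    rw [h5]
    exact h
  · obtain ⟨p, rfl⟩ := card_eq_one.1 (by exact_mod_cast h3 : L.card = 1)
    obtain ⟨q, rfl⟩ := card_eq_one.1 (by exact_mod_cast h4 : M.card = 1)
    have hpq : p ≠ q := fun h7 => hLM (by rw [h7])
    have h5 := s.ke hC hpq hU c.mT c.bt (Subset.refl _)
    rw [← c.s_eq, hms] at h5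
    exact_mod_cast h5

/-- two leaves with two centred triples, ordered. -/
theorem e0_two' (s : Stg B Q T U F P a) (hG : G31 B Q T U F)
    (hC : ({L, M} : Finset (Finset V)) ∈ P) (hK : KC B Q T U F {L, M} = ∅) (hLM : L ≠ M)
    (hij : i ≠ j) (c : Cd B Q T U F P {L, M} i x y z m w)
    (c' : Cd B Q T U F P {L, M} j x' y' z' m' w')
    (hle : Pp B L - 2 * (ee B Q L : ℤ) ≤ Pp B M - 2 * (ee B Q M : ℤ)) :
    160 * ((m : ℤ) + m') - 1528 - 76 * ((w : ℤ) + w') ≤
      120 * ((Pp B L - 2 * (ee B Q L : ℤ)) + (Pp B M - 2 * (ee B Q M : ℤ))) +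
      160 * lsC B Q T U F {L, M} + 5 * (((jC B Q i {L, M} : ℤ) + jC B Q j {L, M}) -
        ((m : ℤ) + m') + ∑ K ∈ ({L, M} : Finset (Finset V)),
          (hit B (Rso B Q U F i j {L, M} K) K : ℤ)) := by
  have h2 : ({L, M} : Finset (Finset V)).card = 2 := card_pair hLM
  have hn := s.card_comp hC hK
  obtain ⟨u, hU⟩ := card_eq_one.1 (by omega : (Sp.Uin U (slf B F) {L, M}).card = 1)
  have hY := s.sum_y hC
  rw [sum_pair hLM, card_eq_one.2 ⟨u, hU⟩, Nat.cast_one, mul_one] at hY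
  have hms := c.m_sum
  have hms' := c'.m_sum
  rw [sum_pair hLM] at hms hms'
  have k1 := c.le_jh L
  have k2 := c.le_jh M
  have k3 := c'.le_jh L
  have k4 := c'.le_jh M
  obtain ⟨K, hK1, hK2⟩ := not_subset.1 c.bt.nsc
  have h5 : (m : ℤ) = ((uh B x L : ℤ) + uh B y L) + ((uh B x M : ℤ) + uh B y M) := by
    rw [hms]
    push_cast
    ring
  have h5' : (m' : ℤ) = ((uh B x' L : ℤ) + uh B y' L) + ((uh B x' M : ℤ) + uh B y' M) := by
    rw [hms']
    push_cast
    ring
  have hjC : ∀ k, (jC B Q k {L, M} : ℤ) = (jh B Q k L : ℤ) + jh B Q k M := fun k => by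
    have h6 : jC B Q k {L, M} = jh B Q k L + jh B Q k M := sum_pair hLM
    exact_mod_cast h6
  have h := Le.two2 (s.leq hG hC hK h2.ge hU c.mT c'.mT hij (L := L) (by simp))
    (s.leq hG hC hK h2.ge hU c.mT c'.mT hij (L := M) (by simp))
    (c.tr2 s hG hC hLM hU) (c'.tr2 s hG hC hLM hU) (by exact_mod_cast Nat.add_le_add k1 k3)
    (by exact_mod_cast Nat.add_le_add k2 k4) (by positivity) hY (fun h3 => ?_) (fun h3 h4 => ?_) hle
  · rw [hjC i, hjC j, sum_pair hLM]
    rw [h5, h5']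
    linarith
  · have h6 := s.two_x hC hK h2.ge c.mT c'.mT hij (slf_sub hK1) hK2
      (Or.inr (by rw [sum_pair hLM]; exact h3))
    rwa [sum_pair hLM] at h6
  · obtain ⟨p, rfl⟩ := card_eq_one.1 (by exact_mod_cast h3 : L.card = 1)
    obtain ⟨q, rfl⟩ := card_eq_one.1 (by exact_mod_cast h4 : M.card = 1)
    have hpq : p ≠ q := fun h7 => hLM (by rw [h7])
    have h6 := s.ka2_cd hpq hC hU hij c c'
    rw [← h5, ← h5']
    exact_mod_cast h6

/-- **two leaves with one centred triple**. -/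
theorem e0_one (s : Stg B Q T U F P a) (hG : G31 B Q T U F) (hC : C ∈ P)
    (hK : KC B Q T U F C = ∅) (h2 : C.card = 2) (c : Cd B Q T U F P C j x y z m w) :
    160 * (m : ℤ) - 944 - 76 * w ≤ 120 * ∑ L ∈ C, (Pp B L - 2 * (ee B Q L : ℤ)) +
      160 * lsC B Q T U F C := by
  obtain ⟨L, M, hLM, rfl⟩ := card_eq_two.1 h2
  rw [sum_pair hLM]
  rcases le_total (Pp B L - 2 * (ee B Q L : ℤ)) (Pp B M - 2 * (ee B Q M : ℤ)) with h | h
  · exact s.e0_one' hG hC hK hLM c h
  · rw [pair_comm L M] at hC hK c ⊢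
    have h3 := s.e0_one' hG hC hK hLM.symm c h
    linarith

/-- **two leaves with two centred triples**. -/
theorem e0_two (s : Stg B Q T U F P a) (hG : G31 B Q T U F) (hC : C ∈ P)
    (hK : KC B Q T U F C = ∅) (h2 : C.card = 2) (hij : i ≠ j)
    (c : Cd B Q T U F P C i x y z m w) (c' : Cd B Q T U F P C j x' y' z' m' w') :
    160 * ((m : ℤ) + m') - 1528 - 76 * ((w : ℤ) + w') ≤
      120 * ∑ L ∈ C, (Pp B L - 2 * (ee B Q L : ℤ)) + 160 * lsC B Q T U F C +
      5 * (((jC B Q i C : ℤ) + jC B Q j C) - ((m : ℤ) + m') +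
        ∑ L ∈ C, (hit B (Rso B Q U F i j C L) L : ℤ)) := by
  obtain ⟨L, M, hLM, rfl⟩ := card_eq_two.1 h2
  rw [sum_pair hLM]
  rcases le_total (Pp B L - 2 * (ee B Q L : ℤ)) (Pp B M - 2 * (ee B Q M : ℤ)) with h | h
  · exact s.e0_two' hG hC hK hLM hij c c' h
  · rw [pair_comm L M] at hC hK c c' ⊢
    have h3 := s.e0_two' hG hC hK hLM.symm hij c c' h
    linarith

end Stg

namespace StgR

/-- **the composite classes without line triples and inside triples need nothing**. -/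
theorem E0 (s : StgR B Q T U F P a) (hG : G31 B Q T U F) : ∀ C ∈ P, ¬ Ful B Q T U F P a C →
    2 ≤ C.card → (aC B Q T U F P C).card = 0 → KC B Q T U F C = ∅ → ¬ NCt B Q T U F P C →
    msC 149 B Q T U F P a C ≤ 0 := by
  classical
  intro C hC hf h2 ha hK _
  rcases (by omega : 3 ≤ (Bc B Q T U F P C).card ∨ (Bc B Q T U F P C).card = 0 ∨
    (Bc B Q T U F P C).card = 1 ∨ (Bc B Q T U F P C).card = 2) with hb | hb
  · exact s.e0_b3 hC hf h2 ha hb hK
  have ha' := card_eq_zero.1 ha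
  refine (s.toStg.ms_le_nC hC hf ha' hK).trans ?_
  obtain ⟨hsm, hN, hnC⟩ := s.smC hC hK
  have hcard := s.toStg.card_comp hC hK
  obtain ⟨x, y, z, m, w, hcd, hle, htr⟩ := s.toStg.trs_cd hC h2 hcard
  have hW : (0 : ℤ) ≤ lsC B Q T U F C := by positivity
  have hg : (0 : ℤ) ≤ gC B U F P C := by positivity
  have hcz : (C.card : ℤ) = (Sp.Uin U (slf B F) C).card + 1 := by exact_mod_cast hcard
  have h2z : (2 : ℤ) ≤ C.card := by exact_mod_cast h2
  have hx0 : (0 : ℤ) ≤ ∑ k ∈ Trs B Q T (Rg B Q T U F) U F P, (jC B Q k C : ℤ) :=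
    sum_nonneg fun _ _ => by positivity
  rw [ha', sum_empty] at hsm
  have hS0 := hsm.S0
  rw [hnC]
  rcases hb with hb | hb | hb
  · rw [card_eq_zero.1 hb, sum_empty, sum_empty] at htr
    linarith
  · obtain ⟨j, hj⟩ := card_eq_one.1 hb
    rw [hj, sum_singleton, sum_singleton] at htr
    rw [hj, sum_singleton] at hle
    have c := hcd j (by rw [hj]; simp)
    have h8 : (m j : ℤ) ≤ 8 := by exact_mod_cast c.m8
    have hw0 : (0 : ℤ) ≤ w j := by positivity
    rcases (by omega : C.card = 2 ∨ 3 ≤ C.card) with h3 | h3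
    · have h4 := s.toStg.e0_one hG hC hK h3 c
      rw [h3] at hcz ⊢
      push_cast at hcz ⊢
      linarith
    · have h3z : (3 : ℤ) ≤ C.card := by exact_mod_cast h3
      linarith
  · obtain ⟨i, j, hij, hb2⟩ := card_eq_two.1 hb
    rw [hb2, sum_pair hij, sum_pair hij] at htr
    rw [hb2, sum_pair hij] at hle
    have ci := hcd i (by rw [hb2]; simp)
    have cj := hcd j (by rw [hb2]; simp)
    have h8i : (m i : ℤ) ≤ 8 := by exact_mod_cast ci.m8
    have h8j : (m j : ℤ) ≤ 8 := by exact_mod_cast cj.m8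
    have hwi : (0 : ℤ) ≤ w i := by positivity
    have hwj : (0 : ℤ) ≤ w j := by positivity
    have hsx := s.toStg.sum_x0 hC hK ci.mT cj.mT hij ha'
    obtain ⟨K, hK1, hK2⟩ := not_subset.1 ci.bt.nsc
    have hmi : (m i : ℤ) ≤ jC B Q i C := by
      have h3 := ci.s_eq
      have h4 := ci.jC3
      have h5 : m i ≤ jC B Q i C := by omega
      exact_mod_cast h5
    have hmj : (m j : ℤ) ≤ jC B Q j C := by
      have h3 := cj.s_eq
      have h4 := cj.jC3
      have h5 : m j ≤ jC B Q j C := by omega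
      exact_mod_cast h5
    obtain ⟨k1, k2, k3, k4, k5, k6, k7, k8⟩ := hsm
    rcases (by omega : C.card = 2 ∨ C.card = 3 ∨ C.card = 4 ∨ 5 ≤ C.card) with h3 | h3 | h3 | h3
    · have h4 := s.toStg.e0_two hG hC hK h3 hij ci cj
      rw [hsx] at h4
      rw [h3] at hcz ⊢
      push_cast at hcz ⊢
      linarith
    · have h4 := s.toStg.two_x hC hK h2 ci.mT cj.mT hij (slf_sub hK1) hK2 (Or.inl h3.ge)
      rw [hsx] at h4
      rw [h3] at hcz k5 k6 ⊢
      push_cast at hcz k5 k6 ⊢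
      have h5 := e0q3 (s := (m i : ℤ) + m j) (w := (w i : ℤ) + w j)
        (x := ∑ k ∈ Trs B Q T (Rg B Q T U F) U F P, (jC B Q k C : ℤ) + gC B U F P C) (by linarith) k1 k7 hW
        (by linarith) k4 k5 (by linarith) (by linarith) (by linarith) (fun h6 => ?_)
      · linarith
      · have h7 := s.toStg.slots hC (A := Bc B Q T U F P C) (x := x) (y := y) (z := z) (m := m)
          (w := w) hcd (fun k hk => by
            rw [hb2] at hk
            rcases mem_insert.1 hk with rfl | hk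
            · omega
            · rw [mem_singleton.1 hk]
              omega)
        rw [hb2, sum_pair hij] at h7
        linarith
    · rw [h3] at hcz k5 k6 ⊢
      push_cast at hcz k5 k6 ⊢
      have h5 := e0q4 (s := (m i : ℤ) + m j) (w := (w i : ℤ) + w j)
        (x := ∑ k ∈ Trs B Q T (Rg B Q T U F) U F P, (jC B Q k C : ℤ) + gC B U F P C) (by linarith) k1 k7 k2 hW
        (by linarith) k4 k5 (by linarith) (by linarith) (by linarith)
      linarith
    · have h3z : (5 : ℤ) ≤ C.card := by exact_mod_cast h3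
      linarith

end StgR

end Pool.Agent.Hyp6
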