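import Pool.Agent.Hyp6.L3Lza
import Pool.Agent.Hyp6.L3Lt
import Pool.Agent.Hyp6.L3Yn
import Pool.Agent.Hyp6.L3P9a
import Pool.Agent.Hyp6.L3T7g
import Pool.Agent.Hyp6.L3Wx
import Pool.Agent.Hyp6.L3Swh
import Pool.Agent.Hyp6.L3Xg
import Pool.Agent.Hyp6.L3Yq2
import Pool.Agent.Hyp6.L3Yp7
import Pool.Agent.Hyp6.L3Swc
import Pool.Agent.Hyp6.FinT

/-!
# HYP6 L3End: the inequality for all regular systems

`StgN.no`: there is no setting of the rent proof. `dual13`: `55 rho <= 13 cm + 7 |U|` for all regular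
systems.
-/

set_option autoImplicit false

namespace Pool.Agent.Hyp6

open Finset Pool.Agent.Hyp5 Rt

universe u v

variable {V : Type v} [DecidableEq V] {ι : Type u} [Fintype ι] [DecidableEq ι]
  {B : ι → Finset V} {Q U : Finset V} {T : Finset ι} {F : Finset (Finset V)}
  {P : Finset (Finset (Finset V))} {a : V → Finset (Finset V) → ℕ}

/-- **there is no setting**. -/
theorem StgN.no (s : StgN B Q T U F P a) : False := by
  have hF := s.toStgR.frm.few s.toStgR.viol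
  have h31 := s.toStgR.frm.g31 s.toStgR.viol
  have hga := s.toStgR.frm.ga31 s.toStgR.viol
  have hex : ∀ C ∈ P, 2 ≤ C.card → KC B Q T U F C = ∅ → Stg.ExOk B Q T U F P C :=
    fun C hC h2 hK => s.toStgR.toStg.ex_ok h31 hC h2 hK
  exact s.toStgR.last5 hF s.toStgR.lf3 hga h31 s.toStgR.r73t
    (s.toStgR.frm.oneN s.toStgR.viol)
    (fun _ hj _ _ hCD hl hC hD kC kD nC nD c1 d1 =>
      s.toStgR.l2s hj hCD hl hC hD kC kD nC nD c1 d1)
    s.toStgR.CN (fun _ hL h3 h1 hdv hg _ hj h4 => s.toStgR.zero31 hL hj h3 h1 hdv hg h4)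
    s.toStgR.EN
    (s.toStgR.PE_of hga hex)
    (s.toStgR.E0 h31)
    (s.toStgR.LE_of hex)
    (fun C hC hf _ _ hr hK => s.toStgR.D22 hF h31 hC hf (s.donS hC) hr hK)
    (fun C hC _ hf hr hK j hj _ => s.toStgR.h22 hF h31 hC hf (s.donS hC) hr hK hj)
    (fun C hC => s.donS hC)

/-- **the inequality for all regular systems**. -/
theorem dual13 : DualAll 13 7 55 :=
  dualAll_of_stgN fun _ _ _ _ _ _ _ _ _ _ _ _ s => s.no

end Pool.Agent.Hyp6
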