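import Pool.Agent.Hyp6.L3Nd
import Pool.Agent.Hyp6.L3Cap

/-!
# HYP6 L3EP: the components of the even part

`Evn B D`: a set with a perfect matching, value zero, whose allowed pairs lie only in blocks with two
points in `D`. A block is allowed (`alB`) if it contains an allowed pair; `nAl` and `nNa` count the
allowed and the other blocks with two points. Every closed part of the even part of a frame is of
this kind, and `14 + n3 ≤ n1 + 6 nAl` if it is not empty.
-/

set_option autoImplicit false

namespace Pool.Agent.Hyp6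

open Finset Pool.Agent.Hyp5

universe u v

variable {V : Type v} [DecidableEq V] {ι : Type u} {B : ι → Finset V}

/-- a block with an allowed pair of `D`. -/
def alB (B : ι → Finset V) (D : Finset V) (i : ι) : Prop :=
  ∃ x ∈ D, ∃ y ∈ D, x ≠ y ∧ x ∈ B i ∧ y ∈ B i ∧ PM (gr B) (D \ {x, y})

variable [Fintype ι]

open Classical in
/-- the allowed blocks. -/
noncomputable def Als (B : ι → Finset V) (D : Finset V) : Finset ι :=
  univ.filter (fun i => alB B D i)

open Classical in
/-- the blocks with two points which are not allowed. -/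
noncomputable def Nas (B : ι → Finset V) (D : Finset V) : Finset ι :=
  (trs B D 2).filter (fun i => ¬ alB B D i)

/-- the number of allowed blocks. -/
noncomputable def nAl (B : ι → Finset V) (D : Finset V) : ℕ := (Als B D).card

/-- the number of blocks with two points which are not allowed. -/
noncomputable def nNa (B : ι → Finset V) (D : Finset V) : ℕ := (Nas B D).card

theorem mem_Als {D : Finset V} {i : ι} : i ∈ Als B D ↔ alB B D i := by
  unfold Als
  simp

theorem mem_Nas {D : Finset V} {i : ι} :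
    i ∈ Nas B D ↔ (B i ∩ D).card = 2 ∧ ¬ alB B D i := by
  classical
  unfold Nas
  rw [mem_filter, mem_trs]

/-- a set with a perfect matching, value zero and allowed pairs only in blocks with two points. -/
structure Evn (B : ι → Finset V) (D : Finset V) : Prop where
  reg : Reg B D
  tr3 : Tr3 B D
  sv0 : sv B D = 0
  pm : PM (gr B) D
  al2 : ∀ x ∈ D, ∀ y ∈ D, x ≠ y → PM (gr B) (D \ {x, y}) → ∀ i, x ∈ B i → y ∈ B i →
    (B i ∩ D).card = 2

/-- a perfect matching without one of its pairs. -/
theorem pm_sub_pair {G : SimpleGraph V} {D : Finset V} {f : V → V}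
    (hf : ∀ v ∈ D, f v ∈ D ∧ f (f v) = v ∧ G.Adj v (f v)) {v : V} (hv : v ∈ D) :
    PM G (D \ {v, f v}) := by
  refine ⟨f, fun w hw => ?_⟩
  obtain ⟨hw1, hw2⟩ := mem_sdiff.1 hw
  rw [mem_insert, mem_singleton, not_or] at hw2
  obtain ⟨h1, h2, h3⟩ := hf w hw1
  refine ⟨mem_sdiff.2 ⟨h1, ?_⟩, h2, h3⟩
  rw [mem_insert, mem_singleton, not_or]
  constructor
  · intro h
    exact hw2.2 (by rw [← h2, h])
  · intro h
    apply hw2.1
    rw [← h2, h, (hf v hv).2.1]

namespace Evn

variable {D : Finset V}

theorem alB_two (h : Evn B D) {i : ι} (hi : alB B D i) : (B i ∩ D).card = 2 := by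
  obtain ⟨x, hx, y, hy, hne, hxi, hyi, hpm⟩ := hi
  exact h.al2 x hx y hy hne hpm i hxi hyi

theorem not_alB_three (h : Evn B D) {i : ι} (hi : (B i ∩ D).card = 3) : ¬ alB B D i := by
  intro h1
  have h2 := h.alB_two h1
  omega

theorem Als_sub (h : Evn B D) : Als B D ⊆ trs B D 2 := by
  intro i hi
  exact mem_trs.2 (h.alB_two (mem_Als.1 hi))

/-- the blocks with two points. -/
theorem nt_two (h : Evn B D) : nt B D 2 = nAl B D + nNa B D := by
  classical
  unfold nt nAl nNa
  have h1 : Als B D = (trs B D 2).filter (fun i => alB B D i) := by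
    ext i
    rw [mem_filter, mem_Als]
    exact ⟨fun h2 => ⟨h.Als_sub (mem_Als.2 h2), h2⟩, fun h2 => h2.2⟩
  have h2 : Nas B D = (trs B D 2).filter (fun i => ¬ alB B D i) := by
    ext i
    rw [mem_filter, mem_Nas, mem_trs]
  rw [h1, h2]
  exact (card_filter_add_card_filter_not (fun i => alB B D i)).symm

theorem inc (h : Evn B D) :
    5 * D.card = nt B D 1 + 2 * (nAl B D + nNa B D) + 3 * nt B D 3 := by
  rw [inc_eq3 h.reg h.tr3, h.nt_two]

/-- the allowed blocks cover the points. -/
theorem card_le (h : Evn B D) : D.card ≤ 2 * nAl B D := by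
  classical
  obtain ⟨f, hf⟩ := h.pm
  have h1 : D ⊆ (Als B D).biUnion (fun i => B i ∩ D) := by
    intro v hv
    obtain ⟨h1, h2, h3, i, hi1, hi2⟩ := hf v hv
    rw [mem_biUnion]
    exact ⟨i, mem_Als.2 ⟨v, hv, f v, h1, h3, hi1, hi2, pm_sub_pair hf hv⟩,
      mem_inter.2 ⟨hi1, hv⟩⟩
  have h2 := (card_le_card h1).trans card_biUnion_le
  have h3 : ∑ i ∈ Als B D, (B i ∩ D).card = ∑ i ∈ Als B D, 2 :=
    sum_congr rfl fun i hi => h.alB_two (mem_Als.1 hi)
  rw [h3, sum_const, smul_eq_mul] at h2
  unfold nAl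
  omega

theorem even (h : Evn B D) : Even D.card := h.pm.even

theorem al_le_two (h : Evn B D) : nAl B D ≤ nt B D 2 := by
  rw [h.nt_two]
  omega

omit [Fintype ι] in
/-- a block with two points of `D` which contains a point and its partner is allowed. -/
theorem al_partner {f : V → V} (hf : ∀ v ∈ D, f v ∈ D ∧ f (f v) = v ∧ (gr B).Adj v (f v)) {v : V}
    (hv : v ∈ D) {i : ι} (h1 : v ∈ B i) (h2 : f v ∈ B i) : alB B D i :=
  ⟨v, hv, f v, (hf v hv).1, (hf v hv).2.2.1, h1, h2, pm_sub_pair hf hv⟩

/-- the number of blocks with three points through a point is at most four. -/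
theorem deg_three (h : Evn B D) {v : V} (hv : v ∈ D) :
    ((trs B D 3).filter (fun i => v ∈ B i)).card ≤ 4 := by
  classical
  obtain ⟨f, hf⟩ := h.pm
  obtain ⟨h1, h2, h3, i, hi1, hi2⟩ := hf v hv
  have h4 : insert i ((trs B D 3).filter (fun i => v ∈ B i)) ⊆
      univ.filter (fun i => v ∈ B i) := by
    intro j hj
    rcases mem_insert.1 hj with rfl | hj
    · exact mem_filter.2 ⟨mem_univ _, hi1⟩
    · exact mem_filter.2 ⟨mem_univ _, (mem_filter.1 hj).2⟩
  have h5 : i ∉ (trs B D 3).filter (fun i => v ∈ B i) := by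
    intro h6
    have h7 := mem_trs.1 (mem_filter.1 h6).1
    exact h.not_alB_three h7 (al_partner hf hv hi1 hi2)
  have h6 := card_le_card h4
  rw [card_insert_of_notMem h5, h.reg v hv] at h6
  omega

/-- the case `|D| = 6`: at most four blocks with three points. -/
theorem six (h : Evn B D) (hc : D.card = 6) : nt B D 3 ≤ 4 := by
  classical
  by_contra hcon
  push Not at hcon
  obtain ⟨f, hf⟩ := h.pm
  have hff : ∀ v ∈ D, f (f v) = v := fun v hv => (hf v hv).2.1
  have hfD : ∀ v ∈ D, f v ∈ D := fun v hv => (hf v hv).1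
  -- a block with three points avoiding a given point
  have hav : ∀ v ∈ D, ∃ i ∈ trs B D 3, v ∉ B i := by
    intro v hv
    by_contra h1
    push Not at h1
    have h2 : (trs B D 3).filter (fun i => v ∈ B i) = trs B D 3 :=
      filter_true_of_mem fun i hi => h1 i hi
    have h3 := h.deg_three hv
    rw [h2] at h3
    unfold nt at hcon
    omega
  -- a block with three points contains exactly one point of each pair
  have htr : ∀ i ∈ trs B D 3, ∀ v ∈ D, (v ∈ B i ↔ f v ∉ B i) := by
    intro i hi v hv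
    have hi3 := mem_trs.1 hi
    have hno : ∀ w ∈ D, w ∈ B i → f w ∉ B i := fun w hw h1 h2 =>
      h.not_alB_three hi3 (al_partner hf hw h1 h2)
    refine ⟨fun h1 => hno v hv h1, fun h1 => ?_⟩
    by_contra h2
    -- B i ∩ D and its image are disjoint subsets of D minus the pair
    have h3 : Disjoint (B i ∩ D) ((B i ∩ D).image f) := by
      rw [disjoint_left]
      intro w hw hw'
      obtain ⟨u, hu, rfl⟩ := mem_image.1 hw'
      exact hno u (mem_inter.1 hu).2 (mem_inter.1 hu).1 (mem_inter.1 hw).1
    have h4 : ((B i ∩ D).image f).card = 3 := by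
      rw [card_image_of_injOn, hi3]
      intro u hu w hw he
      have hu' := (mem_inter.1 (mem_coe.1 hu)).2
      have hw' := (mem_inter.1 (mem_coe.1 hw)).2
      have he' : f u = f w := he
      rw [← hff u hu', he', hff w hw']
    have h5 : (B i ∩ D) ∪ (B i ∩ D).image f ⊆ D \ {v, f v} := by
      intro w hw
      rw [mem_sdiff, mem_insert, mem_singleton, not_or]
      rcases mem_union.1 hw with hw | hw
      · obtain ⟨h6, h7⟩ := mem_inter.1 hw
        refine ⟨h7, fun h8 => h2 (h8 ▸ h6), fun h8 => h1 (h8 ▸ h6)⟩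
      · obtain ⟨u, hu, rfl⟩ := mem_image.1 hw
        obtain ⟨h6, h7⟩ := mem_inter.1 hu
        refine ⟨hfD u h7, fun h8 => ?_, fun h8 => ?_⟩
        · apply h1
          rw [← h8, hff u h7]
          exact h6
        · apply h2
          rw [← hff v hv, ← h8, hff u h7]
          exact h6
    have h6 := card_le_card h5
    rw [card_union_of_disjoint h3, hi3, h4] at h6
    have h7 : (D \ {v, f v}).card = 4 := by
      rw [card_sdiff_of_subset, card_pair (hf v hv).2.2.1, hc]
      intro w hw
      rcases mem_insert.1 hw with rfl | hw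
      · exact hv
      · rw [mem_singleton] at hw
        exact hw ▸ hfD v hv
    omega
  -- the partners of two points of a block with three points are not adjacent
  have hna : ∀ i ∈ trs B D 3, ∀ x ∈ D, ∀ y ∈ D, x ≠ y → x ∈ B i → y ∈ B i →
      ¬ (gr B).Adj (f x) (f y) := by
    intro i hi x hx y hy hxy hxi hyi hadj
    have hi3 := mem_trs.1 hi
    refine absurd (h.al2 x hx y hy hxy ?_ i hxi hyi) (by omega)
    have hfx : f x ∉ B i := (htr i hi x hx).1 hxi
    have hfy : f y ∉ B i := (htr i hi y hy).1 hyi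
    have hxfy : x ≠ f y := fun h1 => hfy (h1 ▸ hxi)
    have hyfx : y ≠ f x := fun h1 => hfx (h1 ▸ hyi)
    have hfxfy : f x ≠ f y := hadj.ne
    have h1 : D \ {x, y} = (D \ {x, f x, y, f y}) ∪ {f x, f y} := by
      ext w
      simp only [mem_sdiff, mem_insert, mem_singleton, mem_union]
      constructor
      · rintro ⟨h2, h3⟩
        push Not at h3
        by_cases h4 : w = f x
        · exact Or.inr (Or.inl h4)
        · by_cases h5 : w = f y
          · exact Or.inr (Or.inr h5)
          · exact Or.inl ⟨h2, by push Not; exact ⟨h3.1, h4, h3.2, h5⟩⟩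
      · rintro (⟨h2, h3⟩ | rfl | rfl)
        · push Not at h3
          exact ⟨h2, by push Not; exact ⟨h3.1, h3.2.2.1⟩⟩
        · exact ⟨hfD x hx, by push Not; exact ⟨(hf x hx).2.2.1.symm, hyfx.symm⟩⟩
        · exact ⟨hfD y hy, by push Not; exact ⟨hxfy.symm, (hf y hy).2.2.1.symm⟩⟩
    rw [h1]
    refine PM.union ?_ (PM.pair hadj) ?_
    · refine ⟨f, fun w hw => ?_⟩
      simp only [mem_sdiff, mem_insert, mem_singleton] at hw ⊢
      obtain ⟨h2, h3⟩ := hw
      push Not at h3
      obtain ⟨e1, e2, e3, e4⟩ := h3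
      refine ⟨⟨hfD w h2, ?_⟩, hff w h2, (hf w h2).2.2⟩
      push Not
      refine ⟨fun h4 => e2 ?_, fun h4 => e1 ?_, fun h4 => e4 ?_, fun h4 => e3 ?_⟩
      · rw [← h4, hff w h2]
      · rw [← hff w h2, h4, hff x hx]
      · rw [← h4, hff w h2]
      · rw [← hff w h2, h4, hff y hy]
    · rw [disjoint_left]
      intro w hw hw'
      simp only [mem_sdiff, mem_insert, mem_singleton] at hw hw'
      rcases hw' with rfl | rfl
      · exact hw.2 (Or.inr (Or.inl rfl))
      · exact hw.2 (Or.inr (Or.inr (Or.inr rfl)))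
  -- a first block with three points
  have hne : (trs B D 3).Nonempty := by
    rw [← card_pos]
    unfold nt at hcon
    omega
  obtain ⟨i0, hi0⟩ := hne
  obtain ⟨x, y, z, hxy, hxz, hyz, hS⟩ := card_eq_three.1 (mem_trs.1 hi0)
  have hx0 : x ∈ B i0 ∩ D := by rw [hS]; simp
  have hy0 : y ∈ B i0 ∩ D := by rw [hS]; simp
  have hz0 : z ∈ B i0 ∩ D := by rw [hS]; simp
  obtain ⟨hxi, hxD⟩ := mem_inter.1 hx0
  obtain ⟨hyi, hyD⟩ := mem_inter.1 hy0
  obtain ⟨hzi, hzD⟩ := mem_inter.1 hz0
  -- the block avoiding x contains f x, y, z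
  obtain ⟨i1, hi1, hx1⟩ := hav x hxD
  have hfx1 : f x ∈ B i1 := by
    by_contra h1
    exact hx1 ((htr i1 hi1 x hxD).2 h1)
  have hy1 : y ∈ B i1 := by
    refine (htr i1 hi1 y hyD).2 fun h1 => ?_
    refine hna i0 hi0 x hxD y hyD hxy hxi hyi ⟨?_, i1, hfx1, h1⟩
    intro h2
    exact hxy (by rw [← hff x hxD, h2, hff y hyD])
  -- the block avoiding y contains x, f y
  obtain ⟨i2, hi2, hy2⟩ := hav y hyD
  have hfy2 : f y ∈ B i2 := by
    by_contra h1
    exact hy2 ((htr i2 hi2 y hyD).2 h1)
  have hx2 : x ∈ B i2 := by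
    refine (htr i2 hi2 x hxD).2 fun h1 => ?_
    refine hna i0 hi0 x hxD y hyD hxy hxi hyi ⟨?_, i2, h1, hfy2⟩
    intro h2
    exact hxy (by rw [← hff x hxD, h2, hff y hyD])
  -- contradiction
  have hfxy : f x ≠ y := fun h1 => (htr i0 hi0 x hxD).1 hxi (h1 ▸ hyi)
  refine hna i1 hi1 (f x) (hfD x hxD) y hyD hfxy hfx1 hy1 ⟨?_, i2, ?_, hfy2⟩
  · rw [hff x hxD]
    intro h2
    exact (htr i0 hi0 y hyD).1 hyi (h2 ▸ hxi)
  · rw [hff x hxD]
    exact hx2

/-- a set with four points has no block with three points. -/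
theorem four_three (h : Evn B D) (hc : D.card = 4) : nt B D 3 = 0 := by
  classical
  obtain ⟨f, hf⟩ := h.pm
  unfold nt
  rw [card_eq_zero, eq_empty_iff_forall_notMem]
  intro i hi
  have hi3 := mem_trs.1 hi
  have hno : ∀ w ∈ D, w ∈ B i → f w ∉ B i := fun w hw h1 h2 =>
    h.not_alB_three hi3 (al_partner hf hw h1 h2)
  have h3 : Disjoint (B i ∩ D) ((B i ∩ D).image f) := by
    rw [disjoint_left]
    intro w hw hw'
    obtain ⟨u, hu, rfl⟩ := mem_image.1 hw'
    exact hno u (mem_inter.1 hu).2 (mem_inter.1 hu).1 (mem_inter.1 hw).1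
  have h4 : ((B i ∩ D).image f).card = 3 := by
    rw [card_image_of_injOn, hi3]
    intro u hu w hw he
    have hu' := (mem_inter.1 (mem_coe.1 hu)).2
    have hw' := (mem_inter.1 (mem_coe.1 hw)).2
    have he' : f u = f w := he
    rw [← (hf u hu').2.1, he', (hf w hw').2.1]
  have h5 : (B i ∩ D) ∪ (B i ∩ D).image f ⊆ D := by
    intro w hw
    rcases mem_union.1 hw with hw | hw
    · exact (mem_inter.1 hw).2
    · obtain ⟨u, hu, rfl⟩ := mem_image.1 hw
      exact (hf u (mem_inter.1 hu).2).1
  have h6 := card_le_card h5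
  rw [card_union_of_disjoint h3, hi3, h4] at h6
  omega

/-- the case `|D| = 4` with two allowed blocks: there is a block with one point. -/
theorem four (h : Evn B D) (hc : D.card = 4) (hal : nAl B D = 2) : 1 ≤ nt B D 1 := by
  classical
  by_contra hcon
  have hn1 : nt B D 1 = 0 := by omega
  have hn3 := h.four_three hc
  obtain ⟨f, hf⟩ := h.pm
  have hff : ∀ v ∈ D, f (f v) = v := fun v hv => (hf v hv).2.1
  have hfD : ∀ v ∈ D, f v ∈ D := fun v hv => (hf v hv).1
  have hfn : ∀ v ∈ D, v ≠ f v := fun v hv => (hf v hv).2.2.1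
  -- every block meeting D has two points
  have h2 : ∀ i, (B i ∩ D).Nonempty → (B i ∩ D).card = 2 := by
    intro i hi
    have h1 := card_pos.2 hi
    have h3 := h.tr3 i
    have h4 : (B i ∩ D).card ≠ 1 := by
      intro h5
      have h6 : 0 < nt B D 1 := card_pos.2 ⟨i, mem_trs.2 h5⟩
      omega
    have h5 : (B i ∩ D).card ≠ 3 := by
      intro h5
      have h6 : 0 < nt B D 3 := card_pos.2 ⟨i, mem_trs.2 h5⟩
      omega
    omega
  -- every point lies in at most one allowed block
  have hone : ∀ v ∈ D, ((Als B D).filter (fun i => v ∈ B i)).card ≤ 1 := by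
    intro v hv
    by_contra h1
    push Not at h1
    have h3 : (Als B D).filter (fun i => v ∈ B i) = Als B D := by
      refine eq_of_subset_of_card_le (filter_subset _ _) ?_
      have h4 : (Als B D).card = 2 := hal
      omega
    -- take a point w different from v and f v; its allowed block contains v
    have h4 : ∀ w ∈ D, w ≠ v → w = f v := by
      intro w hw hwv
      by_contra hwf
      obtain ⟨e1, e2, e3, i, hi1, hi2⟩ := hf w hw
      have hal' : i ∈ Als B D := mem_Als.2 (al_partner hf hw hi1 hi2)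
      rw [← h3] at hal'
      have hvi := (mem_filter.1 hal').2
      have h5 := h.alB_two (mem_Als.1 (mem_filter.1 hal').1)
      have h6 : ({v, w, f w} : Finset V) ⊆ B i ∩ D := by
        intro u hu
        simp only [mem_insert, mem_singleton] at hu
        rcases hu with rfl | rfl | rfl
        · exact mem_inter.2 ⟨hvi, hv⟩
        · exact mem_inter.2 ⟨hi1, hw⟩
        · exact mem_inter.2 ⟨hi2, e1⟩
      have h7 := card_le_card h6
      have h8 : ({v, w, f w} : Finset V).card = 3 := by
        rw [card_eq_three]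
        refine ⟨v, w, f w, hwv.symm, ?_, e3, rfl⟩
        intro h9
        apply hwf
        rw [h9, hff w hw]
      omega
    have h5 : D ⊆ {v, f v} := by
      intro w hw
      rw [mem_insert, mem_singleton]
      by_cases h6 : w = v
      · exact Or.inl h6
      · exact Or.inr (h4 w hw h6)
    have h6 := card_le_card h5
    have h7 := card_le_two (a := v) (b := f v)
    omega
  -- hence at least four other blocks
  have hoth : ∀ v ∈ D, 4 ≤ (univ.filter (fun i => v ∈ B i ∧ ¬ alB B D i)).card := by
    intro v hv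
    have h1 := h.reg v hv
    have h3 := hone v hv
    have h4 : univ.filter (fun i => v ∈ B i) =
        (Als B D).filter (fun i => v ∈ B i) ∪ univ.filter (fun i => v ∈ B i ∧ ¬ alB B D i) := by
      ext i
      simp only [mem_filter, mem_univ, true_and, mem_union, mem_Als]
      tauto
    rw [h4] at h1
    have h5 := card_union_le ((Als B D).filter (fun i => v ∈ B i))
      (univ.filter (fun i => v ∈ B i ∧ ¬ alB B D i))
    omega
  -- adjacent points outside the matching: the partners are not adjacent off the allowed blocks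
  have hcr : ∀ a ∈ D, ∀ b ∈ D, a ≠ b → b ≠ f a → (gr B).Adj a b → ∀ i, f a ∈ B i → f b ∈ B i →
      alB B D i := by
    intro a ha b hb hab hbfa hadj i h1 h3
    have hafb : a ≠ f b := fun h4 => hbfa (by rw [h4, hff b hb])
    have hfab : f a ≠ f b := by
      intro h4
      apply hab
      rw [← hff a ha, h4, hff b hb]
    refine ⟨f a, hfD a ha, f b, hfD b hb, hfab, h1, h3, ?_⟩
    have h5 : D \ {f a, f b} = {a, b} := by
      symm
      refine eq_of_subset_of_card_le ?_ ?_
      · intro w hw
        rw [mem_insert, mem_singleton] at hw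
        rw [mem_sdiff, mem_insert, mem_singleton, not_or]
        rcases hw with rfl | rfl
        · exact ⟨ha, hfn _ ha, hafb⟩
        · exact ⟨hb, hbfa, hfn _ hb⟩
      · rw [card_pair hab, card_sdiff_of_subset, card_pair hfab, hc]
        intro w hw
        rw [mem_insert, mem_singleton] at hw
        rcases hw with rfl | rfl
        · exact hfD a ha
        · exact hfD b hb
    rw [h5]
    exact PM.pair hadj
  -- the points
  have hne : D.Nonempty := card_pos.1 (by omega)
  obtain ⟨a, ha⟩ := hne
  have hex : ∃ b ∈ D, b ≠ a ∧ b ≠ f a := by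
    by_contra h1
    push Not at h1
    have h5 : D ⊆ {a, f a} := by
      intro w hw
      rw [mem_insert, mem_singleton]
      by_cases h6 : w = a
      · exact Or.inl h6
      · exact Or.inr (h1 w hw h6)
    have h6 := card_le_card h5
    have h7 := card_le_two (a := a) (b := f a)
    omega
  obtain ⟨b0, hb0, hb0a, hb0f⟩ := hex
  have hD : ∀ w ∈ D, w = a ∨ w = f a ∨ w = b0 ∨ w = f b0 := by
    have h1 : ({a, f a, b0, f b0} : Finset V) = D := by
      refine eq_of_subset_of_card_le ?_ ?_
      · intro w hw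
        simp only [mem_insert, mem_singleton] at hw
        rcases hw with rfl | rfl | rfl | rfl
        exacts [ha, hfD a ha, hb0, hfD b0 hb0]
      · rw [hc]
        have h3 : a ≠ f b0 := fun h4 => hb0f (by rw [h4, hff b0 hb0])
        have h4 : f a ≠ f b0 := by
          intro h5
          apply hb0a
          rw [← hff b0 hb0, ← h5, hff a ha]
        rw [card_insert_of_notMem, card_insert_of_notMem, card_pair (hfn b0 hb0)]
        · rw [mem_insert, mem_singleton, not_or]
          exact ⟨hb0f.symm, h4⟩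
        · rw [mem_insert, mem_insert, mem_singleton, not_or, not_or]
          exact ⟨hfn a ha, hb0a.symm, h3⟩
    intro w hw
    rw [← h1] at hw
    simpa only [mem_insert, mem_singleton] using hw
  -- main step: a point b off the pair {a, f a} adjacent to a gives a contradiction
  have hmain : ∀ b ∈ D, b ≠ a → b ≠ f a → ¬ (gr B).Adj a b := by
    intro b hb hba hbfa hadj
    have hafb : a ≠ f b := fun h4 => hbfa (by rw [h4, hff b hb])
    have hfafb : f a ≠ f b := by
      intro h5
      apply hba
      rw [← hff b hb, ← h5, hff a ha]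
    have hDb : ∀ w ∈ D, w = a ∨ w = f a ∨ w = b ∨ w = f b := by
      intro w hw
      rcases hD b hb with h1 | h1 | h1 | h1
      · exact absurd h1 hba
      · exact absurd h1 hbfa
      · rw [h1]
        exact hD w hw
      · rw [h1, hff b0 hb0]
        rcases hD w hw with h3 | h3 | h3 | h3
        · exact Or.inl h3
        · exact Or.inr (Or.inl h3)
        · exact Or.inr (Or.inr (Or.inr h3))
        · exact Or.inr (Or.inr (Or.inl h3))
    -- the other blocks of f a contain b
    have hfa : ∀ i, f a ∈ B i → ¬ alB B D i → b ∈ B i := by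
      intro i hi hnal
      have h3 := h2 i ⟨f a, mem_inter.2 ⟨hi, hfD a ha⟩⟩
      have h4 : ∃ w ∈ B i ∩ D, w ≠ f a := by
        by_contra h5
        push Not at h5
        have h6 : B i ∩ D ⊆ {f a} := fun w hw => mem_singleton.2 (h5 w hw)
        have h7 := card_le_card h6
        rw [card_singleton] at h7
        omega
      obtain ⟨w, hw, hwne⟩ := h4
      obtain ⟨hw1, hw2⟩ := mem_inter.1 hw
      rcases hDb w hw2 with rfl | rfl | rfl | rfl
      · exact absurd (al_partner hf ha hw1 hi) hnal
      · exact absurd rfl hwne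
      · exact hw1
      · exact absurd (hcr a ha b hb hba.symm hbfa hadj i hi hw1) hnal
    -- hence f a and b are adjacent
    have hadj2 : (gr B).Adj (f a) b := by
      have h3 := hoth (f a) (hfD a ha)
      have h4 : 0 < (univ.filter (fun i => f a ∈ B i ∧ ¬ alB B D i)).card := by omega
      obtain ⟨i, hi⟩ := card_pos.1 h4
      obtain ⟨_, hi1, hi2⟩ := mem_filter.1 hi
      exact ⟨hbfa.symm, i, hi1, hfa i hi1 hi2⟩
    -- the other blocks of a contain b
    have haa : ∀ i, a ∈ B i → ¬ alB B D i → b ∈ B i := by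
      intro i hi hnal
      have h3 := h2 i ⟨a, mem_inter.2 ⟨hi, ha⟩⟩
      have h4 : ∃ w ∈ B i ∩ D, w ≠ a := by
        by_contra h5
        push Not at h5
        have h6 : B i ∩ D ⊆ {a} := fun w hw => mem_singleton.2 (h5 w hw)
        have h7 := card_le_card h6
        rw [card_singleton] at h7
        omega
      obtain ⟨w, hw, hwne⟩ := h4
      obtain ⟨hw1, hw2⟩ := mem_inter.1 hw
      rcases hDb w hw2 with rfl | rfl | rfl | rfl
      · exact absurd rfl hwne
      · exact absurd (al_partner hf ha hi hw1) hnal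
      · exact hw1
      · have h5 := hcr (f a) (hfD a ha) b hb hbfa.symm (by rw [hff a ha]; exact hba) hadj2 i
        rw [hff a ha] at h5
        exact absurd (h5 hi hw1) hnal
    -- eight blocks through b
    have h3 := hoth (f a) (hfD a ha)
    have h4 := hoth a ha
    have h5 : Disjoint (univ.filter (fun i => f a ∈ B i ∧ ¬ alB B D i))
        (univ.filter (fun i => a ∈ B i ∧ ¬ alB B D i)) := by
      rw [disjoint_left]
      intro i hi hi'
      obtain ⟨_, e1, e2⟩ := mem_filter.1 hi
      obtain ⟨_, e3, _⟩ := mem_filter.1 hi'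
      exact e2 (al_partner hf ha e3 e1)
    have h6 : univ.filter (fun i => f a ∈ B i ∧ ¬ alB B D i) ∪
        univ.filter (fun i => a ∈ B i ∧ ¬ alB B D i) ⊆ univ.filter (fun i => b ∈ B i) := by
      intro i hi
      rcases mem_union.1 hi with hi | hi
      · obtain ⟨_, e1, e2⟩ := mem_filter.1 hi
        exact mem_filter.2 ⟨mem_univ _, hfa i e1 e2⟩
      · obtain ⟨_, e1, e2⟩ := mem_filter.1 hi
        exact mem_filter.2 ⟨mem_univ _, haa i e1 e2⟩
    have h7 := card_le_card h6
    rw [card_union_of_disjoint h5, h.reg b hb] at h7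
    omega
  -- the other blocks of a contain a point off the pair
  have h3 := hoth a ha
  have h4 : 0 < (univ.filter (fun i => a ∈ B i ∧ ¬ alB B D i)).card := by omega
  obtain ⟨i, hi⟩ := card_pos.1 h4
  obtain ⟨_, hi1, hi2⟩ := mem_filter.1 hi
  have h5 := h2 i ⟨a, mem_inter.2 ⟨hi1, ha⟩⟩
  have h6 : ∃ w ∈ B i ∩ D, w ≠ a := by
    by_contra h7
    push Not at h7
    have h8 : B i ∩ D ⊆ {a} := fun w hw => mem_singleton.2 (h7 w hw)
    have h9 := card_le_card h8
    rw [card_singleton] at h9
    omega
  obtain ⟨w, hw, hwne⟩ := h6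
  obtain ⟨hw1, hw2⟩ := mem_inter.1 hw
  refine hmain w hw2 hwne ?_ ⟨hwne.symm, i, hi1, hw1⟩
  rintro rfl
  exact hi2 (al_partner hf ha hi1 hw1)

/-- **the bound**: `14 + n3 ≤ n1 + 6 nAl`. -/
theorem main (h : Evn B D) (hne : D.Nonempty) : 14 + nt B D 3 ≤ nt B D 1 + 6 * nAl B D := by
  have h1 := h.inc
  have h2 := h.card_le
  have h3 := card_pos.2 hne
  obtain ⟨m, hm⟩ := h.even
  rcases Nat.lt_or_ge m 4 with hlt | hge
  · have hm' : m = 1 ∨ m = 2 ∨ m = 3 := by omega
    rcases hm' with rfl | rfl | rfl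
    · -- two points
      have hc : D.card = 2 := by omega
      have h4 : nt B D 3 = 0 := by
        apply nt3_zero
        intro i
        exact (card_le_card inter_subset_right).trans hc.le
      have h5 : nNa B D = 0 := by
        unfold nNa
        rw [card_eq_zero, eq_empty_iff_forall_notMem]
        intro i hi
        obtain ⟨h6, h7⟩ := mem_Nas.1 hi
        apply h7
        obtain ⟨x, y, hxy, hD⟩ := card_eq_two.1 hc
        have h8 : B i ∩ D = D := eq_of_subset_of_card_le inter_subset_right (by omega)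
        have hx : x ∈ D := by rw [hD]; simp
        have hy : y ∈ D := by rw [hD]; simp
        have hxi : x ∈ B i := by rw [← h8] at hx; exact (mem_inter.1 hx).1
        have hyi : y ∈ B i := by rw [← h8] at hy; exact (mem_inter.1 hy).1
        refine ⟨x, hx, y, hy, hxy, hxi, hyi, ?_⟩
        have h9 : D \ {x, y} = ∅ := by rw [← hD]; exact Finset.sdiff_self D
        rw [h9]
        exact PM.empty _
      omega
    · have hc : D.card = 4 := by omega
      have h4 := h.four_three hc
      rcases Nat.lt_or_ge (nAl B D) 3 with h5 | h5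
      · have h6 : nAl B D = 2 := by omega
        have h7 := h.four hc h6
        omega
      · omega
    · have hc : D.card = 6 := by omega
      have h4 := h.six hc
      omega
  · omega

/-- the potential. -/
theorem five_Pp (h : Evn B D) :
    5 * Pp B D = 6 * hc B D + nt B D 1 - nt B D 3 := by
  rw [Hyp6.five_Pp h.reg h.tr3, h.sv0]
  ring

/-- the capacity. -/
theorem hc_eq (h : Evn B D) : hc B D = 2 * (nt B D 1 : ℤ) + nAl B D + nNa B D := by
  have h4 := cm_eq3 h.tr3
  have h6 := h.inc
  have h7 := h.nt_two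
  unfold hc
  rw [h4, h7]
  have h8 : (5 * D.card : ℤ) = nt B D 1 + 2 * (nAl B D + nNa B D) + 3 * nt B D 3 := by
    exact_mod_cast h6
  rw [h8]
  push_cast
  ring

/-- the potential in terms of the places which are not on allowed blocks. -/
theorem five_Pp_ge (h : Evn B D) (hne : D.Nonempty) :
    6 * (2 * (nt B D 1 : ℤ) + nNa B D) + 14 ≤ 5 * Pp B D := by
  have h1 := h.five_Pp
  have h2 := h.hc_eq
  have h3 := h.main hne
  have h4 : (14 : ℤ) + nt B D 3 ≤ nt B D 1 + 6 * nAl B D := by exact_mod_cast h3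
  linarith

/-- the contacts of `Y` off the allowed blocks. -/
theorem hit_le (h : Evn B D) [DecidableEq ι] {Q Y : Finset V} (h3 : Tr3 B Q) (hD : D ⊆ Q)
    (hY : Y ⊆ Q) (hd : Disjoint D Y) :
    ∑ i ∈ tch B D \ Als B D, (B i ∩ Y).card ≤ 2 * nt B D 1 + nNa B D := by
  classical
  have h1 : ∀ i, (B i ∩ D).card + (B i ∩ Y).card ≤ 3 := by
    intro i
    rw [← card_union_of_disjoint (disjoint_of_subset_left inter_subset_right
      (disjoint_of_subset_right inter_subset_right hd)), ← inter_union_distrib_left]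
    exact (card_le_card (inter_subset_inter_left (union_subset hD hY))).trans (h3 i)
  have h2 : ∀ i ∈ tch B D \ Als B D, (B i ∩ Y).card ≤
      2 * (if i ∈ trs B D 1 then 1 else 0) + (if i ∈ Nas B D then 1 else 0) := by
    intro i hi
    obtain ⟨h4, h5⟩ := mem_sdiff.1 hi
    rw [cost_mem_tch] at h4
    have h6 := card_pos.2 h4
    have h7 := h1 i
    have h8 := h.tr3 i
    have h9 : (B i ∩ D).card = 1 ∨ (B i ∩ D).card = 2 ∨ (B i ∩ D).card = 3 := by omega
    rcases h9 with h9 | h9 | h9
    · rw [if_pos (mem_trs.2 h9)]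
      omega
    · have h10 : i ∈ Nas B D := mem_Nas.2 ⟨h9, fun h11 => h5 (mem_Als.2 h11)⟩
      rw [if_pos h10]
      omega
    · omega
  refine (sum_le_sum h2).trans ?_
  have h4 : ∑ i ∈ tch B D \ Als B D,
      (2 * (if i ∈ trs B D 1 then 1 else 0) + (if i ∈ Nas B D then 1 else 0)) ≤
      ∑ i, (2 * (if i ∈ trs B D 1 then 1 else 0) + (if i ∈ Nas B D then 1 else 0)) :=
    sum_le_sum_of_subset (subset_univ _)
  refine h4.trans ?_
  rw [sum_add_distrib, ← mul_sum, ← card_filter, ← card_filter]
  have h5 : univ.filter (fun i => i ∈ trs B D 1) = trs B D 1 := by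
    ext i
    simp
  have h6 : univ.filter (fun i => i ∈ Nas B D) = Nas B D := by
    ext i
    simp
  rw [h5, h6]
  exact le_refl _

end Evn

namespace Frm

variable {Q U D : Finset V} {T : Finset ι} {F : Finset (Finset V)}

omit [Fintype ι] in
/-- an allowed pair of a closed part of the even part is allowed in the even part. -/
theorem pm_allowed (h : Frm B Q T U F) (hD : Dcl B Q T U F D) {x y : V} (hx : x ∈ D)
    (hy : y ∈ D) (hpm : PM (gr B) (D \ {x, y})) : PM (gr B) (Ep B Q T U F \ {x, y}) := by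
  have h1 := h.pm_dcl hD.compl
  have h2 : Ep B Q T U F \ {x, y} = (D \ {x, y}) ∪ (Ep B Q T U F \ D) := by
    ext w
    simp only [mem_sdiff, mem_union, mem_insert, mem_singleton]
    constructor
    · rintro ⟨h3, h4⟩
      by_cases h5 : w ∈ D
      · exact Or.inl ⟨h5, h4⟩
      · exact Or.inr ⟨h3, h5⟩
    · rintro (⟨h3, h4⟩ | ⟨h3, h4⟩)
      · exact ⟨hD.sub h3, h4⟩
      · refine ⟨h3, ?_⟩
        rintro (rfl | rfl)
        · exact h4 hx
        · exact h4 hy
  rw [h2]
  exact PM.union hpm h1 (disjoint_of_subset_left sdiff_subset disjoint_sdiff)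

/-- an allowed block of a closed part has exactly two points in `D'`. -/
theorem alB_Dp (h : Frm B Q T U F) (hD : Dcl B Q T U F D) {i : ι} (hi : alB B D i) :
    (B i ∩ Dp B Q T).card = 2 := by
  obtain ⟨x, hx, y, hy, hne, hxi, hyi, hpm⟩ := hi
  exact h.allowed_two (hD.sub hx) (hD.sub hy) hne (h.pm_allowed hD hx hy hpm) hxi hyi

/-- the closed parts of the even part. -/
theorem evn (h : Frm B Q T U F) (hr : Reg B Q) (hD : Dcl B Q T U F D) : Evn B D := by
  have hDQ : D ⊆ Q := (hD.sub.trans ED).trans DQ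
  refine ⟨hr.mono hDQ, h.reg3.mono hDQ, h.sv_dcl hD, h.pm_dcl hD, ?_⟩
  intro x hx y hy hne hpm i hxi hyi
  have h1 := h.alB_Dp hD ⟨x, hx, y, hy, hne, hxi, hyi, hpm⟩
  have h2 : B i ∩ D ⊆ B i ∩ Dp B Q T := inter_subset_inter_left (hD.sub.trans ED)
  have h3 := card_le_card h2
  have h4 : ({x, y} : Finset V) ⊆ B i ∩ D := by
    intro v hv
    rcases mem_insert.1 hv with rfl | hv
    · exact mem_inter.2 ⟨hxi, hx⟩
    · rw [mem_singleton] at hv
      rw [hv]
      exact mem_inter.2 ⟨hyi, hy⟩
  have h5 := card_le_card h4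
  rw [card_pair hne] at h5
  omega

/-- the trace of an allowed block on `D'` is its trace on the closed part. -/
theorem alB_inter (h : Frm B Q T U F) (hr : Reg B Q) (hD : Dcl B Q T U F D) {i : ι}
    (hi : alB B D i) : B i ∩ Dp B Q T = B i ∩ D := by
  symm
  refine eq_of_subset_of_card_le (inter_subset_inter_left (hD.sub.trans ED)) ?_
  rw [h.alB_Dp hD hi, (h.evn hr hD).alB_two hi]

/-- no point of `U` lies on an allowed block. -/
theorem alB_U (h : Frm B Q T U F) (hr : Reg B Q) (hD : Dcl B Q T U F D) {i : ι}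
    (hi : alB B D i) : B i ∩ U = ∅ := by
  rw [eq_empty_iff_forall_notMem]
  intro u hu
  obtain ⟨h1, h2⟩ := mem_inter.1 hu
  have h3 : u ∈ B i ∩ Dp B Q T := mem_inter.2 ⟨h1, h.UD h2⟩
  rw [h.alB_inter hr hD hi] at h3
  have h4 := hD.sub (mem_inter.1 h3).2
  exact (mem_sdiff.1 (mem_sdiff.1 h4).1).2 h2

omit [Fintype ι] in
theorem dis_DU (_h : Frm B Q T U F) (hD : Dcl B Q T U F D) : Disjoint D U := by
  rw [disjoint_left]
  intro v hv hv'
  exact (mem_sdiff.1 (mem_sdiff.1 (hD.sub hv)).1).2 hv'

/-- the contacts of `U` with a closed part. -/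
theorem hitU_dcl (h : Frm B Q T U F) (hr : Reg B Q) (hD : Dcl B Q T U F D) {U' : Finset V}
    (hU : U' ⊆ U) : hit B U' D ≤ 2 * nt B D 1 + nNa B D := by
  classical
  have h1 := (h.evn hr hD).hit_le h.reg3 ((hD.sub.trans ED).trans DQ)
    ((hU.trans h.UD).trans DQ) (disjoint_of_subset_right hU (h.dis_DU hD))
  refine le_trans (le_of_eq ?_) h1
  unfold hit
  symm
  refine sum_subset sdiff_subset fun i hi hi' => ?_
  have h2 : i ∈ Als B D := by
    by_contra h3
    exact hi' (mem_sdiff.2 ⟨hi, h3⟩)
  have h3 := h.alB_U hr hD (mem_Als.1 h2)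
  rw [card_eq_zero, ← subset_empty, ← h3]
  exact inter_subset_inter_left hU

end Frm

end Pool.Agent.Hyp6
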