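import Pool.Agent.Hyp6.L3Ya
import Pool.Agent.Hyp6.L3Ne

/-!
# HYP6 L3Yb: the inequality of a class which is not full

`Nd`: the numbers of a class which is not full with the payments. `Stg.nd`: they exist, and the
inequality of the class follows from `Nd.pay`.
-/

set_option autoImplicit false

namespace Pool.Agent.Hyp6

open Finset Pool.Agent.Hyp5 Rt

universe u v

variable {V : Type v} [DecidableEq V] {ι : Type u} [Fintype ι] [DecidableEq ι]
  {B : ι → Finset V}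

theorem pm_rate {k : ℕ} (hk : k ≤ 11) : 54 * (k : ℤ) ≤ 560 + pm k := by
  interval_cases k <;> decide

theorem pm_rate3 {k : ℕ} (hk : 1 ≤ k) {π : ℤ} (h1 : 560 + pm k ≤ π) (h2 : 54 * (k : ℤ) ≤ π) :
    381 + 18 * (k : ℤ) ≤ π := by
  rcases (by omega : k ≤ 12 ∨ 13 ≤ k) with hk2 | hk2
  · have h3 : 381 + 18 * (k : ℤ) ≤ 560 + pm k := by
      interval_cases k <;> decide
    exact h3.trans h1
  · have h3 : (13 : ℤ) ≤ k := by exact_mod_cast hk2
    linarith

theorem sL_rate {h y : ℕ} (hh : h ≤ 11) (hy : 1 ≤ y) :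
    54 * ((h + y : ℕ) : ℤ) + 24 * min ((y : ℤ) - 1) 2 ≤ sL h + 149 * (y : ℤ) := by
  have hy' : (1 : ℤ) ≤ y := by exact_mod_cast hy
  have hm1 : min ((y : ℤ) - 1) 2 ≤ (y : ℤ) - 1 := min_le_left _ _
  have h1 : 54 * (h : ℤ) ≤ sL h + 95 := by
    interval_cases h <;> decide
  push_cast
  linarith

/-- the numbers of a class which is not full: `q` line triples using `k` places with payments `S`, `b`
triples with the centre in the class with `s` hits of their two points, `x` other outer hits, `d` the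
donations of the inside triples. -/
structure Nd (n p K W X f e N M q b k S s x : ℤ) : Prop where
  plc : 2 * (k + s + x + f + (5 * p - W) + (12 * K - X)) = 3 * N + 5 * M
  f0 : 11 * e ≤ 2 * f
  e0 : 0 ≤ e
  gm : 5 * p - W ≤ N
  nN : n ≤ N
  nM : n ≤ M
  pN : (N - n) % 2 = 0
  pM : (M - n) % 2 = 0
  lf : 7 * n ≤ 2 * M + N
  lp : 11 * n ≤ 3 * M + 2 * N
  p0 : 0 ≤ p
  W0 : 0 ≤ W
  Wp : W ≤ 3 * p
  K0 : 0 ≤ K
  X0 : 0 ≤ X
  rk : 1 ≤ n - p
  dn : 2 * (n - p) - 2 ≤ K
  q0 : 0 ≤ q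
  b0 : 0 ≤ b
  s0 : 0 ≤ s
  x0 : 0 ≤ x
  qk : q ≤ k
  sb : s ≤ 8 * b
  S1 : 399 * q ≤ S
  S2 : 54 * k ≤ S
  S3 : 381 * q + 18 * k ≤ S

/-- the inequality of a class, `d` the donations. -/
def NI (n p K W X f e N b S s x d : ℤ) : Prop :=
  1440 * (n - p) + 120 * p - 16 * W - 24 * N - 144 * f + 240 * e - 1128 * K - 16 * X + d ≤
    S + 149 * x + 584 * b - 16 * s

namespace Stg

variable {Q U : Finset V} {T : Finset ι} {F : Finset (Finset V)}
  {P : Finset (Finset (Finset V))} {a : V → Finset (Finset V) → ℕ}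

/-- a line triple has a hit outside of every class. -/
theorem jC_le11 (s : Stg B Q T U F P a) {j : ι} (hj : j ∈ tl B Q T U F P)
    {C : Finset (Finset V)} (hC : C ∈ P) : jC B Q j C ≤ 11 := by
  obtain ⟨hjR, hne, hno⟩ := mem_filter.1 (mem_filter.1 hj).1
  have h1 := s.part.ptn.two_met ((s.frm.gdT (R := Rg B Q T U F)).NTs j hjR) hne hno
  obtain ⟨D, hD, hDC⟩ : ∃ D ∈ Sp.met P (slj B Q F j), D ≠ C := by
    by_contra h2
    push Not at h2
    have h3 : Sp.met P (slj B Q F j) ⊆ {C} := fun D hD => mem_singleton.2 (h2 D hD)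
    have h4 := card_le_card h3
    rw [card_singleton] at h4
    omega
  have h5 := s.frm.jC_pos (s.tl_sub hj).1 hD
  have h6 : ∑ D ∈ P, jC B Q j D = ∑ L ∈ F, jh B Q j L := Frm.jC_all s.part j
  have h7 := s.jh_le (s.tl_sub hj).1
  have h8 : jC B Q j C + jC B Q j D ≤ ∑ D ∈ P, jC B Q j D := by
    rw [← sum_pair (Ne.symm hDC) (f := fun D => jC B Q j D)]
    refine sum_le_sum_of_subset ?_
    intro E hE
    rcases mem_insert.1 hE with rfl | hE
    · exact hC
    · rw [mem_singleton.1 hE]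
      exact (Sp.mem_met.1 hD).1
  omega

/-- **the payments of the line triples at a class which is not full**, with the payments. -/
theorem nf_lines (s : Stg B Q T U F P a) {C : Finset (Finset V)} (hC : C ∈ P)
    (hnf : ¬ Ful B Q T U F P a C) {c : ι → ℤ}
    (h2 : ∀ j ∈ aC B Q T U F P C, (lj B Q U F P j).card = 2 → pm (jC B Q j C) ≤ c j)
    (h3 : ∀ j ∈ aC B Q T U F P C, 3 ≤ (lj B Q U F P j).card →
      sL (jC B Q j C) - 24 * min ((owj B Q U F P a j C : ℤ) - 1) 2 - 560 -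
        3 * (owj B Q U F P a j C : ℤ) ≤ c j) :
    ∃ (k : ι → ℕ) (π : ι → ℤ), (∀ j ∈ aC B Q T U F P C, 1 ≤ k j ∧ jC B Q j C ≤ k j ∧
        560 + pm (k j) ≤ π j ∧ 54 * (k j : ℤ) ≤ π j) ∧
      ∑ j ∈ aC B Q T U F P C, k j ≤ ∑ j ∈ aC B Q T U F P C, jC B Q j C + gC B U F P C ∧
      ∑ j ∈ aC B Q T U F P C, π j +
        149 * ((∑ j ∈ aC B Q T U F P C, jC B Q j C + gC B U F P C : ℕ) -
          (∑ j ∈ aC B Q T U F P C, k j : ℕ) : ℤ) + 24 * (gC B U F P C : ℤ) ≤
        288 * (Sp.ld (Sp.Ux U (slf B F) P) a C : ℤ) +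
          ∑ j ∈ aC B Q T U F P C, (c j + 560 - 112 * (owj B Q U F P a j C : ℤ)) := by
  classical
  set y : ι → ℕ := fun j => Sp.owl U (slf B F) P (lj B Q U F P) (fun u C => uC B u C) j C with hy
  have hbal : ∀ u ∈ Sp.Ux U (slf B F) P, uC B u C ≤ a u C := (s.bal C hC).resolve_left hnf
  have hgl : gC B U F P C ≤ Sp.ld (Sp.Ux U (slf B F) P) a C := by
    unfold gC Sp.ld
    exact sum_le_sum fun u hu => hbal u hu
  have hyg : ∑ j ∈ aC B Q T U F P C, y j ≤ gC B U F P C :=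
    Sp.owl_le (a := fun u C => uC B u C) s.lnf C
  have hol := s.own_le (C := C)
  -- the units above the hits
  have hzs : ∀ W : Finset V, W ⊆ Sp.Ux U (slf B F) P →
      Sp.ld W (fun u C => a u C - uC B u C) C + Sp.ld W (fun u C => uC B u C) C =
        Sp.ld W a C := by
    intro W hW
    unfold Sp.ld
    rw [← sum_add_distrib]
    exact sum_congr rfl fun u hu => Nat.sub_add_cancel (hbal u (hW hu))
  have hzo : ∀ j, Sp.owl U (slf B F) P (lj B Q U F P) (fun u C => a u C - uC B u C) j C + y j =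
      owj B Q U F P a j C := fun j => hzs _ Sp.UU_sub
  have hzl : ∑ j ∈ aC B Q T U F P C, (owj B Q U F P a j C : ℤ) -
      ∑ j ∈ aC B Q T U F P C, (y j : ℤ) ≤
        (Sp.ld (Sp.Ux U (slf B F) P) a C : ℤ) - gC B U F P C := by
    have e1 : ∑ j ∈ aC B Q T U F P C,
        Sp.owl U (slf B F) P (lj B Q U F P) (fun u C => a u C - uC B u C) j C ≤
          Sp.ld (Sp.Ux U (slf B F) P) (fun u C => a u C - uC B u C) C :=
      Sp.owl_le (a := fun u C => a u C - uC B u C) s.lnf C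
    have e2 := hzs (Sp.Ux U (slf B F) P) (Subset.refl _)
    have e3 : Sp.ld (Sp.Ux U (slf B F) P) (fun u C => uC B u C) C = gC B U F P C := rfl
    rw [e3] at e2
    have e4 : ∑ j ∈ aC B Q T U F P C, (owj B Q U F P a j C : ℤ) =
        ((∑ j ∈ aC B Q T U F P C,
          Sp.owl U (slf B F) P (lj B Q U F P) (fun u C => a u C - uC B u C) j C : ℕ) : ℤ) +
          ∑ j ∈ aC B Q T U F P C, (y j : ℤ) := by
      push_cast
      rw [← sum_add_distrib]
      exact sum_congr rfl fun j _ => by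
        have := hzo j
        omega
    rw [e4]
    omega
  have hlP : ∀ j ∈ aC B Q T U F P C, j ∈ tl B Q T U F P ∧ C ∈ lj B Q U F P j := fun j hj =>
    Sp.mem_atl.1 hj
  have hthin : ∀ j ∈ aC B Q T U F P C, (lj B Q U F P j).card = 2 →
      y j = 0 ∧ owj B Q U F P a j C = 0 ∧ 1 ≤ jC B Q j C := by
    intro j hj hc
    obtain ⟨hjt, hCl⟩ := hlP j hj
    rcases s.two_or hjt with ⟨_, h4⟩ | ⟨h4, _⟩
    · refine ⟨?_, ?_, ?_⟩
      · rw [hy]
        simp only [Sp.owl, Sp.ld]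
        rw [show Sp.UU U (slf B F) P (lj B Q U F P j) = ∅ from h4, sum_empty]
      · simp only [Sp.owl, Sp.ld]
        rw [show Sp.UU U (slf B F) P (lj B Q U F P j) = ∅ from h4, sum_empty]
      · obtain ⟨D, hD⟩ := card_eq_one.1 (by rw [card_erase_of_mem hCl, hc] :
          ((lj B Q U F P j).erase C).card = 1)
        have hl : lj B Q U F P j = {C, D} := by rw [← insert_erase hCl, hD]
        have hCD : C ≠ D := by
          have : D ∈ (lj B Q U F P j).erase C := by rw [hD]; exact mem_singleton_self D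
          exact (mem_erase.1 this).1.symm
        exact (s.jC_two hjt hCD hl).1
    · omega
  have hfat : ∀ j ∈ aC B Q T U F P C, 3 ≤ (lj B Q U F P j).card → 1 ≤ y j := by
    intro j hj hc
    obtain ⟨hjt, hCl⟩ := hlP j hj
    rcases s.two_or hjt with ⟨h4, _⟩ | ⟨_, h4⟩
    · omega
    · obtain ⟨u, hu, hm⟩ := s.seen hjt h4 hCl
      have hux : u ∈ Sp.Ux U (slf B F) P := Sp.UU_sub hu
      have h5 := s.frm.uC_ge (mem_filter.1 hux).1 hm
      have h6 : uC B u C ≤ y j :=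
        single_le_sum (f := fun u => uC B u C) (fun _ _ => Nat.zero_le _) hu
      omega
  have hcase : ∀ j ∈ aC B Q T U F P C, (lj B Q U F P j).card = 2 ∨ 3 ≤ (lj B Q U F P j).card := by
    intro j hj
    rcases s.two_or (hlP j hj).1 with ⟨h4, _⟩ | ⟨h4, _⟩
    · exact Or.inl h4
    · exact Or.inr h4
  have hmm : ∀ j, min ((owj B Q U F P a j C : ℤ) - 1) 2 ≤
      min ((y j : ℤ) - 1) 2 + ((owj B Q U F P a j C : ℤ) - y j) := by
    intro j
    have e1 := hzo j
    rcases le_total ((y j : ℤ) - 1) 2 with e2 | e2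
    · rw [min_eq_left e2]
      exact (min_le_left _ _).trans (by linarith)
    · rw [min_eq_right e2]
      exact (min_le_right _ _).trans (by omega)
  refine ⟨fun j => jC B Q j C + y j, fun j => c j + 560 - 112 * (owj B Q U F P a j C : ℤ) +
          115 * (owj B Q U F P a j C : ℤ) + 149 * (y j : ℤ) +
          24 * ((owj B Q U F P a j C : ℤ) - (y j : ℤ)),
    fun j hj => ⟨?_, Nat.le_add_right _ _, ?_, ?_⟩, ?_, ?_⟩
  · dsimp only
    rcases hcase j hj with h4 | h4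
    · have := (hthin j hj h4).2.2
      omega
    · have := hfat j hj h4
      omega
  · dsimp only
    rcases hcase j hj with h5 | h5
    · obtain ⟨h6, h7, _⟩ := hthin j hj h5
      have h8 := h2 j hj h5
      rw [h6, h7, add_zero]
      push_cast
      linarith
    · have h6 := pm_le_sL (jC B Q j C) (y j) (hfat j hj h5)
      have h7 := h3 j hj h5
      have h8 := hmm j
      linarith
  · dsimp only
    have h11 := s.jC_le11 (hlP j hj).1 hC
    rcases hcase j hj with h5 | h5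
    · obtain ⟨h6, h7, _⟩ := hthin j hj h5
      have h8 := h2 j hj h5
      have h9 := pm_rate h11
      rw [h6, h7, add_zero]
      push_cast
      linarith
    · have h6 := sL_rate h11 (hfat j hj h5)
      have h7 := h3 j hj h5
      have h8 := hmm j
      linarith
  · dsimp only
    rw [sum_add_distrib]
    omega
  · dsimp only
    have h4 : ∑ j ∈ aC B Q T U F P C, (c j + 560 - 112 * (owj B Q U F P a j C : ℤ) +
          115 * (owj B Q U F P a j C : ℤ) + 149 * (y j : ℤ) +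
          24 * ((owj B Q U F P a j C : ℤ) - (y j : ℤ))) =
        ∑ j ∈ aC B Q T U F P C, (c j + 560 - 112 * (owj B Q U F P a j C : ℤ)) +
          115 * ∑ j ∈ aC B Q T U F P C, (owj B Q U F P a j C : ℤ) +
          149 * ∑ j ∈ aC B Q T U F P C, (y j : ℤ) +
          24 * (∑ j ∈ aC B Q T U F P C, (owj B Q U F P a j C : ℤ) -
            ∑ j ∈ aC B Q T U F P C, (y j : ℤ)) := by
      rw [sum_add_distrib, sum_add_distrib, sum_add_distrib, ← mul_sum, ← mul_sum, ← mul_sum,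
        ← sum_sub_distrib (s := aC B Q T U F P C)
          (f := fun j => (owj B Q U F P a j C : ℤ)) (g := fun j => (y j : ℤ))]
    rw [h4]
    have h5 : (∑ j ∈ aC B Q T U F P C, (owj B Q U F P a j C : ℤ)) ≤
        Sp.ld (Sp.Ux U (slf B F) P) a C := by exact_mod_cast hol
    have h6 : (∑ j ∈ aC B Q T U F P C, (y j : ℤ)) ≤ gC B U F P C := by exact_mod_cast hyg
    have h7 : (gC B U F P C : ℤ) ≤ Sp.ld (Sp.Ux U (slf B F) P) a C := by exact_mod_cast hgl
    have h8 : ((∑ j ∈ aC B Q T U F P C, (jC B Q j C + y j) : ℕ) : ℤ) =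
        ((∑ j ∈ aC B Q T U F P C, jC B Q j C : ℕ) : ℤ) + ∑ j ∈ aC B Q T U F P C, (y j : ℤ) := by
      rw [sum_add_distrib]
      push_cast
      ring
    have h9 : ((∑ j ∈ aC B Q T U F P C, jC B Q j C + gC B U F P C : ℕ) : ℤ) =
        ((∑ j ∈ aC B Q T U F P C, jC B Q j C : ℕ) : ℤ) + gC B U F P C := by
      push_cast
      ring
    rw [h8, h9]
    linarith

/-- **the numbers of a class which is not full and its inequality**. -/
theorem nd (s : Stg B Q T U F P a) {C : Finset (Finset V)} (hC : C ∈ P)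
    (hnf : ¬ Ful B Q T U F P a C) {c : ι → ℤ}
    (h2 : ∀ j ∈ aC B Q T U F P C, (lj B Q U F P j).card = 2 → pm (jC B Q j C) ≤ c j)
    (h3 : ∀ j ∈ aC B Q T U F P C, 3 ≤ (lj B Q U F P j).card →
      sL (jC B Q j C) - 24 * min ((owj B Q U F P a j C : ℤ) - 1) 2 - 560 -
        3 * (owj B Q U F P a j C : ℤ) ≤ c j) (t : ι → ℤ) :
    ∃ (k : ι → ℕ) (π : ι → ℤ) (sb : ι → ℕ) (x : ℤ),
      (∀ j ∈ aC B Q T U F P C, 1 ≤ k j ∧ jC B Q j C ≤ k j ∧ 560 + pm (k j) ≤ π j ∧
        54 * (k j : ℤ) ≤ π j) ∧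
      (∀ j ∈ Bc B Q T U F P C, sb j ≤ 8 ∧ sb j ≤ jC B Q j C) ∧
      x = ∑ j ∈ aC B Q T U F P C, (jC B Q j C : ℤ) + gC B U F P C -
        ∑ j ∈ aC B Q T U F P C, (k j : ℤ) +
        (∑ j ∈ Trs B Q T (Rg B Q T U F) U F P, (jC B Q j C : ℤ) -
          ∑ j ∈ Bc B Q T U F P C, (sb j : ℤ)) ∧
      Nd C.card (Sp.Uin U (slf B F) C).card (Sp.Kin (Rg B Q T U F) (slj B Q F) C).card
        (lsC B Q T U F C) (Frm.xC B Q T (Rg B Q T U F) U F C)
        (∑ L ∈ C, fs B Q L) (∑ L ∈ C, (ee B Q L : ℤ)) (∑ L ∈ C, (nt B L 1 : ℤ))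
        (∑ L ∈ C, (L.card : ℤ)) (aC B Q T U F P C).card (Bc B Q T U F P C).card
        (∑ j ∈ aC B Q T U F P C, (k j : ℤ)) (∑ j ∈ aC B Q T U F P C, π j)
        (∑ j ∈ Bc B Q T U F P C, (sb j : ℤ)) x ∧
      (NI C.card (Sp.Uin U (slf B F) C).card (Sp.Kin (Rg B Q T U F) (slj B Q F) C).card
        (lsC B Q T U F C) (Frm.xC B Q T (Rg B Q T U F) U F C)
        (∑ L ∈ C, fs B Q L) (∑ L ∈ C, (ee B Q L : ℤ)) (∑ L ∈ C, (nt B L 1 : ℤ))
        (Bc B Q T U F P C).card (∑ j ∈ aC B Q T U F P C, π j)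
        (∑ j ∈ Bc B Q T U F P C, (sb j : ℤ)) x (-tK B Q (Rg B Q T U F) F t C) →
      ndC 149 B Q T U F P a t C ≤ ∑ j ∈ aC B Q T U F P C, c j) := by
  obtain ⟨k, π, hk, hkg, hS⟩ := s.nf_lines hC hnf h2 h3
  obtain ⟨sb, hsb, hT⟩ := s.trs_ge hC
  obtain ⟨n1, n2, n3, n4, n5, n6, n7, n8, n9, n10, n11, n12, n13, n14, n15, n16, n17, n18, n19,
    n20, n21⟩ := s.nm hC
  rw [s.sum_at2 hC] at n2
  have hsub : Bc B Q T U F P C ⊆ Trs B Q T (Rg B Q T U F) U F P := filter_subset _ _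
  have hsw : ∑ j ∈ Bc B Q T U F P C, (sb j : ℤ) ≤
      ∑ j ∈ Trs B Q T (Rg B Q T U F) U F P, (jC B Q j C : ℤ) := by
    have e1 : ∑ j ∈ Bc B Q T U F P C, (sb j : ℤ) ≤ ∑ j ∈ Bc B Q T U F P C, (jC B Q j C : ℤ) :=
      sum_le_sum fun j hj => by exact_mod_cast (hsb j hj).2
    exact e1.trans (sum_le_sum_of_subset_of_nonneg hsub fun _ _ _ => by positivity)
  have hkg' : ∑ j ∈ aC B Q T U F P C, (k j : ℤ) ≤
      ∑ j ∈ aC B Q T U F P C, (jC B Q j C : ℤ) + gC B U F P C := by exact_mod_cast hkg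
  have hee : 11 * ∑ L ∈ C, (ee B Q L : ℤ) ≤ 2 * ∑ L ∈ C, fs B Q L := by
    rw [mul_sum, mul_sum]
    exact sum_le_sum fun L hL => s.viol.ee_fs (s.frm.FQ ((s.part.ptn.vc C hC).sub hL))
  refine ⟨k, π, sb, _, hk, hsb, rfl, ⟨?_, hee, n4, by linarith, n6, n7, n8, n9, n10, n11, n12, n13,
    n14, n15, n16, n20, n21, by positivity, by positivity, sum_nonneg fun _ _ => by positivity,
    by linarith, ?_, ?_, ?_, ?_, ?_⟩, fun hNI => ?_⟩
  · linarith
  · have h4 := sum_le_sum fun j hj => (hk j hj).1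
    rw [sum_const, smul_eq_mul, mul_one] at h4
    exact_mod_cast h4
  · have h4 := sum_le_sum fun j hj => (hsb j hj).1
    rw [sum_const, smul_eq_mul, mul_comm] at h4
    exact_mod_cast h4
  · have h4 := sum_le_sum fun j hj => (show (399 : ℤ) ≤ π j by
      have h5 := (hk j hj).2.2.1
      have h6 := pm_low (k j)
      linarith)
    rw [sum_const, nsmul_eq_mul, mul_comm] at h4
    exact h4
  · have h4 := sum_le_sum fun j hj => (hk j hj).2.2.2
    rw [← mul_sum] at h4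
    exact h4
  · have h4 := sum_le_sum fun j hj => pm_rate3 (hk j hj).1 (hk j hj).2.2.1 (hk j hj).2.2.2
    rw [sum_add_distrib, sum_const, nsmul_eq_mul, ← mul_sum, mul_comm] at h4
    exact h4
  · rw [s.ndC_cst]
    unfold cstY
    unfold NI at hNI
    have h4 : ∑ j ∈ Bc B Q T U F P C, (584 - 16 * (sb j : ℤ)) =
        584 * ((Bc B Q T U F P C).card : ℤ) - 16 * ∑ j ∈ Bc B Q T U F P C, (sb j : ℤ) := by
      rw [sum_sub_distrib, sum_const, nsmul_eq_mul, ← mul_sum]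
      ring
    rw [h4] at hT
    have h5 : ∑ j ∈ aC B Q T U F P C, (c j + 560 - 112 * (owj B Q U F P a j C : ℤ)) =
        ∑ j ∈ aC B Q T U F P C, c j +
          ∑ j ∈ aC B Q T U F P C, (560 - 112 * (owj B Q U F P a j C : ℤ)) := by
      rw [← sum_add_distrib]
      exact sum_congr rfl fun j _ => by ring
    rw [h5] at hS
    push_cast at hS
    linarith

end Stg

end Pool.Agent.Hyp6
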