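import Pool.Agent.Hyp6.L3Rdb
import Pool.Agent.Hyp6.L3Yb

/-!
# HYP6 L3RDC: the excess of the composite classes of a line with own points

`Stg.exc_nd`: the numbers of a class with a line triple with own points and the inequality for its
excess. `Nd.comp0`: the inequality for classes with inside points, without inside triples and centres.
`StgR.exc_comp`: the excess of these classes.
-/

set_option autoImplicit false

namespace Pool.Agent.Hyp6

open Finset Pool.Agent.Hyp5 Rt

universe u v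

theorem sF_low {h : ℕ} (h14 : h ≤ 14) : 54 * (h : ℤ) ≤ sF h ∧ 399 ≤ sF h ∧
    381 + 18 * (h : ℤ) ≤ sF h := by
  unfold sF
  refine ⟨?_, ?_, ?_⟩ <;> split_ifs <;> omega

theorem sF_lin {h : ℕ} (h10 : h ≤ 10) : 439 + 25 * (h : ℤ) ≤ sF h := by
  unfold sF
  split_ifs <;> omega

variable {V : Type v} [DecidableEq V] {ι : Type u} [Fintype ι] [DecidableEq ι]
  {B : ι → Finset V}

namespace Stg

variable {Q U : Finset V} {T : Finset ι} {F : Finset (Finset V)}
  {P : Finset (Finset (Finset V))} {a : V → Finset (Finset V) → ℕ}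

omit [DecidableEq ι] in
/-- the own hits are hits of the crossing points. -/
theorem yC_gC (B : ι → Finset V) (Q U : Finset V) (F : Finset (Finset V))
    (P : Finset (Finset (Finset V))) (j : ι) (C : Finset (Finset V)) :
    yC B Q U F P j C ≤ gC B U F P C := by
  unfold yC gC
  exact sum_le_sum_of_subset Sp.UU_sub

/-- the own hits are at most the own units. -/
theorem yC_owj (s : Stg B Q T U F P a) {C : Finset (Finset V)} (hC : C ∈ P)
    (hn : ¬ Ful B Q T U F P a C) (j : ι) :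
    (yC B Q U F P j C : ℤ) ≤ owj B Q U F P a j C := by
  rcases s.bal C hC with h3 | h3
  · exact absurd h3 hn
  · have h4 : yC B Q U F P j C ≤ owj B Q U F P a j C := by
      unfold yC owj Sp.owl Sp.ld
      exact sum_le_sum fun u hu => h3 u (Sp.UU_sub hu)
    exact_mod_cast h4

/-- **the numbers of a class with a line triple with own points**: the triple counts as the only line
triple, with `jC + yC` hits and the payment `sF + 149 yC`. -/
theorem exc_nd (s : Stg B Q T U F P a) (t : ι → ℤ) {C : Finset (Finset V)} (hC : C ∈ P)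
    (hn : ¬ Ful B Q T U F P a C) {j : ι} (hj : j ∈ aC B Q T U F P C)
    (ho : 1 ≤ (oj B Q U F P j).card) (h14 : jC B Q j C ≤ 14) :
    ∃ (sb : ι → ℕ) (x : ℤ), (∀ i ∈ Bc B Q T U F P C, sb i ≤ 8 ∧ sb i ≤ jC B Q i C) ∧
      x = ((gC B U F P C : ℤ) - yC B Q U F P j C) +
        ∑ i ∈ (aC B Q T U F P C).erase j, (jC B Q i C : ℤ) +
        (∑ j ∈ Trs B Q T (Rg B Q T U F) U F P, (jC B Q j C : ℤ) -
          ∑ i ∈ Bc B Q T U F P C, (sb i : ℤ)) ∧
      Nd C.card (Sp.Uin U (slf B F) C).card (Sp.Kin (Rg B Q T U F) (slj B Q F) C).card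
        (lsC B Q T U F C) (Frm.xC B Q T (Rg B Q T U F) U F C)
        (∑ L ∈ C, fs B Q L) (∑ L ∈ C, (ee B Q L : ℤ)) (∑ L ∈ C, (nt B L 1 : ℤ))
        (∑ L ∈ C, (L.card : ℤ)) 1 (Bc B Q T U F P C).card
        ((jC B Q j C : ℤ) + yC B Q U F P j C) (sF (jC B Q j C) + 149 * (yC B Q U F P j C : ℤ))
        (∑ i ∈ Bc B Q T U F P C, (sb i : ℤ)) x ∧
      (NI C.card (Sp.Uin U (slf B F) C).card (Sp.Kin (Rg B Q T U F) (slj B Q F) C).card
        (lsC B Q T U F C) (Frm.xC B Q T (Rg B Q T U F) U F C)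
        (∑ L ∈ C, fs B Q L) (∑ L ∈ C, (ee B Q L : ℤ)) (∑ L ∈ C, (nt B L 1 : ℤ))
        (Bc B Q T U F P C).card (sF (jC B Q j C) + 149 * (yC B Q U F P j C : ℤ))
        (∑ i ∈ Bc B Q T U F P C, (sb i : ℤ)) x (-tK B Q (Rg B Q T U F) F t C) →
      Exs B Q T U F P a t j C ≤ exS (jC B Q j C)) := by
  obtain ⟨sb, x', hsb, hx', hsw, hle⟩ := s.xcl_num t hC hn hj
  obtain ⟨n1, n2, n3, n4, n5, n6, n7, n8, n9, n10, n11, n12, n13, n14, n15, n16, n17, n18, n19,
    n20, n21⟩ := s.nm hC
  rw [s.sum_at2 hC, s.sum_aC hj] at n2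
  obtain ⟨hjt, hjl⟩ := Sp.mem_atl.1 hj
  have hy1 : (1 : ℤ) ≤ yC B Q U F P j C := by exact_mod_cast s.own_hit hjt ho hjl
  have hyg : (yC B Q U F P j C : ℤ) ≤ gC B U F P C := by exact_mod_cast yC_gC B Q U F P j C
  have hyo := s.yC_owj hC hn j
  have hee : 11 * ∑ L ∈ C, (ee B Q L : ℤ) ≤ 2 * ∑ L ∈ C, fs B Q L := by
    rw [mul_sum, mul_sum]
    exact sum_le_sum fun L hL => s.viol.ee_fs (s.frm.FQ ((s.part.ptn.vc C hC).sub hL))
  have hoth : 0 ≤ ∑ i ∈ (aC B Q T U F P C).erase j, (jC B Q i C : ℤ) :=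
    sum_nonneg fun _ _ => by positivity
  have hh0 : (0 : ℤ) ≤ jC B Q j C := by positivity
  obtain ⟨l1, l2, l3⟩ := sF_low h14
  refine ⟨sb, x' - yC B Q U F P j C, hsb, by rw [hx']; ring, ⟨?_, hee, n4, by linarith, n6, n7, n8,
    n9, n10, n11, n12, n13, n14, n15, n16, n20, n21, by norm_num, by positivity,
    sum_nonneg fun _ _ => by positivity, ?_, ?_, ?_, ?_, ?_, ?_⟩, fun hNI => ?_⟩
  · rw [hx']
    linarith
  · rw [hx']
    linarith
  · linarith
  · have h4 := sum_le_sum fun j hj => (hsb j hj).1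
    rw [sum_const, smul_eq_mul, mul_comm] at h4
    exact_mod_cast h4
  · linarith
  · linarith
  · linarith
  · have h1 := xcl_NI hle (x := x' - yC B Q U F P j C) (y := yC B Q U F P j C)
      (d := -tK B Q (Rg B Q T U F) F t C) (S := sF (jC B Q j C)) (by ring) hNI
    unfold Exs exS
    linarith

end Stg

/-- **the inequality for a class with inside points**, without inside triples and centres. -/
theorem Nd.comp0 {n p W f e N M k x y : ℤ} {h : ℕ}
    (hd : Nd n p 0 W 0 f e N M 1 0 k (sF h + 149 * y) 0 x) (hn : 2 ≤ n) (hk : k = h + y)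
    (hy : 1 ≤ y) (h10 : h ≤ 10) (hg : 5 * p - W + y ≤ N)
    (hW : n = 2 → M = 4 → N = 6 → 1 ≤ W) :
    NI n p 0 W 0 f e N 0 (sF h + 149 * y) 0 x 0 := by
  obtain ⟨d1, d2, d3, d4, d5, d6, d7, d8, d9, d10, d11, d12, d13, d14, d15, d16, d17, d18, d19,
    d20, d21, d22, d23, d24, d25, d26⟩ := hd
  unfold NI
  have hlin := sF_lin h10
  have h10' : (h : ℤ) ≤ 10 := by exact_mod_cast h10
  have hh0 : (0 : ℤ) ≤ h := by positivity
  have hnp : n = p + 1 := by omega
  subst hnp hk
  by_cases hp : 2 ≤ p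
  · linarith
  · obtain rfl : p = 1 := by omega
    have hW' := hW (by norm_num)
    clear hW d17 d18 d19 d20 d22 d24 d25 d26 hp
    have he : e = 0 ∨ (e = 1 ∧ 6 ≤ f) ∨ (e = 2 ∧ 11 ≤ f) ∨ 3 ≤ e := by omega
    rcases (by omega : M = 2 ∨ M = 4 ∨ M = 6 ∨ 8 ≤ M) with rfl | rfl | rfl | hM
    · clear hW'
      have hN : 10 ≤ N := by omega
      rcases he with rfl | ⟨rfl, he⟩ | ⟨rfl, he⟩ | he <;> linarith
    · rcases (by omega : N = 6 ∨ N = 8 ∨ 10 ≤ N) with rfl | rfl | hN
      · have := hW' rfl rfl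
        clear hW'
        rcases he with rfl | ⟨rfl, he⟩ | ⟨rfl, he⟩ | he <;> linarith
      · clear hW'
        rcases he with rfl | ⟨rfl, he⟩ | ⟨rfl, he⟩ | he <;> linarith
      · clear hW'
        rcases he with rfl | ⟨rfl, he⟩ | ⟨rfl, he⟩ | he <;> linarith
    · clear hW'
      rcases (by omega : N = 2 ∨ N = 4 ∨ N = 6 ∨ 8 ≤ N) with rfl | rfl | rfl | hN <;>
      rcases he with rfl | ⟨rfl, he⟩ | ⟨rfl, he⟩ | he <;> linarith
    · clear hW'
      rcases he with rfl | ⟨rfl, he⟩ | ⟨rfl, he⟩ | he <;> linarith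

namespace StgR

variable {Q U : Finset V} {T : Finset ι} {F : Finset (Finset V)}
  {P : Finset (Finset (Finset V))} {a : V → Finset (Finset V) → ℕ} {j : ι}

/-- a line triple with own points has at most ten hits on every class. -/
theorem fat_ten (s : StgR B Q T U F P a) (hj : j ∈ tl B Q T U F P)
    (ho : 1 ≤ (oj B Q U F P j).card) {C : Finset (Finset V)} (hC : C ∈ lj B Q U F P j) :
    jC B Q j C ≤ 10 := by
  have h1 := two_other (s.fat_met hj ho) hC
  have h2 := (s.fat_ncl hj).2.1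
  omega

/-- **a point and a leaf of type (3;1) with one inside point**: the inside point has a useless block. -/
theorem ls_pos (s : StgR B Q T U F P a) {C : Finset (Finset V)} (hC : C ∈ P)
    (h2 : C.card = 2) (hp : (Sp.Uin U (slf B F) C).card = 1)
    (hM : ∑ L ∈ C, (L.card : ℤ) = 4) (hN : ∑ L ∈ C, (nt B L 1 : ℤ) = 6) :
    1 ≤ lsC B Q T U F C := by
  classical
  obtain ⟨u, hu⟩ := card_eq_one.1 hp
  have huI : u ∈ Sp.Uin U (slf B F) C := by rw [hu]; exact mem_singleton_self u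
  obtain ⟨huU, hus⟩ := mem_filter.1 huI
  have hCF : C ⊆ F := (s.part.ptn.vc C hC).sub
  obtain ⟨L, M, hLM, hCe⟩ := card_eq_two.1 h2
  have hlu : lsC B Q T U F C = uo B Q T U F u := by
    unfold lsC
    rw [hu, sum_singleton]
  have h5 := s.frm.five_u s.viol.reg huU
  have hsum : ∑ L ∈ F, uh B u L = ∑ L ∈ C, uh B u L := by
    refine (sum_subset hCF fun L hL hn => ?_).symm
    have hnu : u ∉ L := fun h => disjoint_left.1 (s.frm.ge.FU L hL) h huU
    exact uh_zero hL hnu fun h => hn (hus h)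
  -- the statement for a point and a leaf of type (3;1)
  have key : ∀ L M : Finset V, L ∈ F → M ∈ F → L.card = 1 → nt B M 1 = 1 →
      uh B u L + uh B u M ≤ 4 := by
    intro L M hL hM h1 h3
    obtain ⟨x, rfl⟩ := card_eq_one.1 h1
    have hxD := s.frm.FD hL (mem_singleton_self x)
    have hux : x ≠ u := by
      rintro rfl
      exact disjoint_left.1 (s.frm.ge.FU {x} hL) (mem_singleton_self x) huU
    have h4 := s.viol.twin (Frm.DQ hxD) (Frm.DQ (s.frm.UD huU)) hux
    have h6 : uh B u {x} ≤ (univ.filter fun k => x ∈ B k ∧ u ∈ B k).card := by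
      unfold uh hit
      have h7 : ∀ i ∈ tch B ({x} : Finset V), (B i ∩ {u}).card = if u ∈ B i then 1 else 0 := by
        intro i _
        split_ifs with h8
        · rw [inter_singleton_of_mem h8, card_singleton]
        · rw [inter_singleton_of_notMem h8, card_empty]
      rw [sum_congr rfl h7, sum_boole]
      push_cast
      refine card_le_card fun i hi => ?_
      obtain ⟨h8, h9⟩ := mem_filter.1 hi
      obtain ⟨y, hy⟩ := cost_mem_tch.1 h8
      obtain ⟨hy1, hy2⟩ := mem_inter.1 hy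
      rw [mem_singleton] at hy2
      exact mem_filter.2 ⟨mem_univ _, hy2 ▸ hy1, h9⟩
    have h7 := s.toStg.hitU_le hM
    have h8 : uh B u M ≤ hit B U M := by
      rw [Frm.hit_U_sum]
      exact single_le_sum (f := fun u => uh B u M) (fun _ _ => Nat.zero_le _) huU
    omega
  have hLF : L ∈ F := hCF (by rw [hCe]; simp)
  have hMF : M ∈ F := hCF (by rw [hCe]; simp)
  rw [hCe, sum_pair hLM] at hM hN hsum
  have o1 := s.toStg.one hLF
  have o2 := s.toStg.one hMF
  have a1 := o1.m1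
  have a2 := o1.mo
  have a3 := o1.n1
  have a4 := o1.pt
  have b1 := o2.m1
  have b2 := o2.mo
  have b3 := o2.n1
  have b4 := o2.pt
  have h6 : uh B u L + uh B u M ≤ 4 := by
    rcases (by omega : (L.card : ℤ) = 1 ∨ (M.card : ℤ) = 1) with h7 | h7
    · exact key L M hLF hMF (by exact_mod_cast h7) (by
        have h8 := a4 h7
        have h9 : (nt B M 1 : ℤ) = 1 := by omega
        exact_mod_cast h9)
    · have := key M L hMF hLF (by exact_mod_cast h7) (by
        have h8 := b4 h7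
        have h9 : (nt B L 1 : ℤ) = 1 := by omega
        exact_mod_cast h9)
      omega
  omega

/-- **the composite classes of a fat line**, without inside triples and centres. -/
theorem exc_comp (s : StgR B Q T U F P a) {C : Finset (Finset V)} (hC : C ∈ P) (h2 : 2 ≤ C.card)
    (hn : ¬ Ful B Q T U F P a C) (hj : j ∈ aC B Q T U F P C)
    (ho : 1 ≤ (oj B Q U F P j).card) (hK : KC B Q T U F C = ∅) (hB : NCt B Q T U F P C) :
    Exs B Q T U F P a (tF B Q T U F P) j C ≤ exS (jC B Q j C) := by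
  obtain ⟨hjt, hjl⟩ := Sp.mem_atl.1 hj
  have h10 := s.fat_ten hjt ho hjl
  obtain ⟨sb, x, _, _, hd, hf⟩ := s.toStg.exc_nd (tF B Q T U F P) hC hn hj ho (by omega)
  have hK' : Sp.Kin (Rg B Q T U F) (slj B Q F) C = ∅ := hK
  have hBc : Bc B Q T U F P C = ∅ := s.toStg.Bc_of_nct hC hB
  have hg := (s.toStg.nm hC).gm
  have hyg : (yC B Q U F P j C : ℤ) ≤ gC B U F P C := by
    exact_mod_cast Stg.yC_gC B Q U F P j C
  have hy1 : (1 : ℤ) ≤ yC B Q U F P j C := by exact_mod_cast s.toStg.own_hit hjt ho hjl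
  have hX : Frm.xC B Q T (Rg B Q T U F) U F C = 0 := by
    unfold Frm.xC
    rw [hK', sum_empty]
  have htK : tK B Q (Rg B Q T U F) F (tF B Q T U F P) C = 0 := by
    unfold tK
    rw [hK', sum_empty]
  rw [hK', hBc, hX, sum_empty, card_empty] at hd hf
  rw [htK] at hf
  obtain ⟨y, hy⟩ : ∃ y : ℤ, y = (yC B Q U F P j C : ℤ) := ⟨_, rfl⟩
  rw [← hy] at hd hf hyg hy1
  push_cast at hd hf
  refine hf ?_
  rw [neg_zero]
  refine hd.comp0 (by exact_mod_cast h2) rfl hy1 h10 (by linarith) fun h3 h4 h5 => ?_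
  have h6 : (Sp.Uin U (slf B F) C).card = 1 := by
    have h7 := hd.dn
    have h8 := hd.rk
    have h9 : ((Sp.Uin U (slf B F) C).card : ℤ) = 1 := by omega
    exact_mod_cast h9
  exact_mod_cast s.ls_pos hC (by exact_mod_cast h3) h6 h4 h5

end StgR

end Pool.Agent.Hyp6
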