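import Pool.Agent.Hyp6.L3Yd
import Pool.Agent.Hyp6.L3Rdc

/-!
# HYP6 L3Ex4: the excess of the dense classes of a line with own points

`Nd.f1`, ..: the inequality of a class with inside triples and one line triple with own points, any
donations, or few donations for the ranks three and four with the least number of inside triples.
`StgR.exs_of`: the excess from the inequality where the own hits are weak hits. `StgR.exc_dense`: the
classes with inside triples of a line with own points, from a bound `3` for the claims of the inside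
triples, up to the classes of rank two with two inside triples.
-/

set_option autoImplicit false
set_option linter.unusedVariables false

namespace Pool.Agent.Hyp6

open Finset Pool.Agent.Hyp5 Rt

universe u v

section

variable {n p K W X f e N M q b k S s x d : ℤ}

/-- rank one, a line triple with own points, any donations. -/
theorem Nd.f1 (h : Nd n p K W X f e N M q b k S s x) (hr : n - p = 1) (hK : 1 ≤ K)
    (hS : 613 ≤ S) (hk : 563 + 25 * k ≤ S)
    (hd : d ≤ 180 * K + 35 * X) (hX : d ≤ 80 * X) : NI n p K W X f e N b S s x d := by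
  obtain ⟨h1, h2, h3, h4, h5, h6, h7, h8, h9, h10, h11, h12, h13, h14, h15, h16, h17, h18, h19, h20,
    h21, h22, h23, h24, h25, h26⟩ := h
  unfold NI
  linarith

/-- rank two, three inside triples, a line triple with own points, any donations. -/
theorem Nd.f2 (h : Nd n p K W X f e N M q b k S s x) (hr : n - p = 2) (hK : 3 ≤ K)
    (hS : 613 ≤ S) (hk : 563 + 25 * k ≤ S)
    (hd : d ≤ 180 * K + 35 * X) (hX : d ≤ 80 * X) : NI n p K W X f e N b S s x d := by
  obtain ⟨h1, h2, h3, h4, h5, h6, h7, h8, h9, h10, h11, h12, h13, h14, h15, h16, h17, h18, h19, h20,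
    h21, h22, h23, h24, h25, h26⟩ := h
  unfold NI
  linarith

/-- rank three, five inside triples, a line triple with own points, any donations. -/
theorem Nd.f3 (h : Nd n p K W X f e N M q b k S s x) (hr : n - p = 3) (hK : 5 ≤ K)
    (hS : 613 ≤ S) (hk : 563 + 25 * k ≤ S)
    (hd : d ≤ 180 * K + 35 * X) (hX : d ≤ 80 * X) : NI n p K W X f e N b S s x d := by
  obtain ⟨h1, h2, h3, h4, h5, h6, h7, h8, h9, h10, h11, h12, h13, h14, h15, h16, h17, h18, h19, h20,
    h21, h22, h23, h24, h25, h26⟩ := h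
  unfold NI
  linarith

/-- rank four, seven inside triples, a line triple with own points, any donations. -/
theorem Nd.f4 (h : Nd n p K W X f e N M q b k S s x) (hr : n - p = 4) (hK : 7 ≤ K)
    (hS : 613 ≤ S) (hk : 563 + 25 * k ≤ S)
    (hd : d ≤ 180 * K + 35 * X) (hX : d ≤ 80 * X) : NI n p K W X f e N b S s x d := by
  obtain ⟨h1, h2, h3, h4, h5, h6, h7, h8, h9, h10, h11, h12, h13, h14, h15, h16, h17, h18, h19, h20,
    h21, h22, h23, h24, h25, h26⟩ := h
  unfold NI
  linarith

/-- rank at least five, a line triple with own points, any donations. -/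
theorem Nd.f5 (h : Nd n p K W X f e N M q b k S s x) (hr : 5 ≤ n - p)
    (hS : 613 ≤ S) (hk : 563 + 25 * k ≤ S)
    (hd : d ≤ 180 * K + 35 * X) (hX : d ≤ 80 * X) : NI n p K W X f e N b S s x d := by
  obtain ⟨h1, h2, h3, h4, h5, h6, h7, h8, h9, h10, h11, h12, h13, h14, h15, h16, h17, h18, h19, h20,
    h21, h22, h23, h24, h25, h26⟩ := h
  unfold NI
  linarith

/-- rank three, four inside triples, a line triple with own points, at most twelve claims. -/
theorem Nd.f34 (h : Nd n p K W X f e N M q b k S s x) (hr : n - p = 3) (hK : 4 ≤ K)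
    (hS : 613 ≤ S) (hk : 563 + 25 * k ≤ S)
    (hd : d ≤ 180 * K + 35 * X) (hX : d ≤ 80 * X) (hc : d ≤ 960) :
    NI n p K W X f e N b S s x d := by
  obtain ⟨h1, h2, h3, h4, h5, h6, h7, h8, h9, h10, h11, h12, h13, h14, h15, h16, h17, h18, h19, h20,
    h21, h22, h23, h24, h25, h26⟩ := h
  unfold NI
  linarith

/-- rank four, six inside triples, a line triple with own points, at most twenty claims. -/
theorem Nd.f46 (h : Nd n p K W X f e N M q b k S s x) (hr : n - p = 4) (hK : 6 ≤ K)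
    (hS : 613 ≤ S) (hk : 563 + 25 * k ≤ S)
    (hd : d ≤ 180 * K + 35 * X) (hX : d ≤ 80 * X) (hc : d ≤ 1600) :
    NI n p K W X f e N b S s x d := by
  obtain ⟨h1, h2, h3, h4, h5, h6, h7, h8, h9, h10, h11, h12, h13, h14, h15, h16, h17, h18, h19, h20,
    h21, h22, h23, h24, h25, h26⟩ := h
  unfold NI
  linarith

/-- rank two, two inside triples, a line triple with own points, no donations, not one inside point. -/
theorem Nd.f22 (h : Nd n p K W X f e N M q b k S s x) (hr : n - p = 2) (hK : 2 ≤ K)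
    (hS : 613 ≤ S) (hk : 563 + 25 * k ≤ S) (hd : d ≤ 0) (hp : p ≠ 1) :
    NI n p K W X f e N b S s x d := by
  obtain ⟨h1, h2, h3, h4, h5, h6, h7, h8, h9, h10, h11, h12, h13, h14, h15, h16, h17, h18, h19, h20,
    h21, h22, h23, h24, h25, h26⟩ := h
  unfold NI
  rcases (by omega : p = 0 ∨ 2 ≤ p) with h | h
  · linarith
  · linarith

end

variable {V : Type v} [DecidableEq V] {ι : Type u} [Fintype ι] [DecidableEq ι]
  {B : ι → Finset V}

namespace StgR

variable {Q U : Finset V} {T : Finset ι} {F : Finset (Finset V)}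
  {P : Finset (Finset (Finset V))} {a : V → Finset (Finset V) → ℕ} {j : ι}

/-- **the excess from the inequality where the own hits are weak hits.** -/
theorem exs_of (s : StgR B Q T U F P a) {C : Finset (Finset V)} (hC : C ∈ P)
    (hn : ¬ Ful B Q T U F P a C) (hj : j ∈ aC B Q T U F P C)
    (ho : 1 ≤ (oj B Q U F P j).card)
    (h : ∀ (sb : ι → ℕ) (x : ℤ), (∀ i ∈ Bc B Q T U F P C, sb i ≤ 8 ∧ sb i ≤ jC B Q i C) →
      x = (gC B U F P C : ℤ) + ∑ i ∈ (aC B Q T U F P C).erase j, (jC B Q i C : ℤ) +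
        (∑ j ∈ Trs B Q T (Rg B Q T U F) U F P, (jC B Q j C : ℤ) -
          ∑ i ∈ Bc B Q T U F P C, (sb i : ℤ)) →
      NI C.card (Sp.Uin U (slf B F) C).card (Sp.Kin (Rg B Q T U F) (slj B Q F) C).card
        (lsC B Q T U F C) (Frm.xC B Q T (Rg B Q T U F) U F C)
        (∑ L ∈ C, fs B Q L) (∑ L ∈ C, (ee B Q L : ℤ)) (∑ L ∈ C, (nt B L 1 : ℤ))
        (Bc B Q T U F P C).card (sF (jC B Q j C))
        (∑ i ∈ Bc B Q T U F P C, (sb i : ℤ)) x (-tK B Q (Rg B Q T U F) F (tF B Q T U F P) C)) :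
    Exs B Q T U F P a (tF B Q T U F P) j C ≤ exS (jC B Q j C) := by
  obtain ⟨hjt, hjl⟩ := Sp.mem_atl.1 hj
  have h10 := s.fat_ten hjt ho hjl
  obtain ⟨sb, x, hsb, hx, hd, hf⟩ := s.toStg.exc_nd (tF B Q T U F P) hC hn hj ho (by omega)
  refine hf ?_
  have h1 := h sb (x + yC B Q U F P j C) hsb (by rw [hx]; ring)
  unfold NI at h1 ⊢
  linarith

/-- **the classes with inside triples of a line with own points.** -/
theorem exc_dense (s : StgR B Q T U F P a)
    (hA : ∀ C ∈ P, (3 : ℤ) ≤ (C.card : ℤ) - (Sp.Uin U (slf B F) C).card →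
      (C.card : ℤ) - (Sp.Uin U (slf B F) C).card ≤ 4 →
      ∀ k ∈ Sp.Kin (Rg B Q T U F) (slj B Q F) C, ncl B Q T U F P k ≤ 3)
    {C : Finset (Finset V)} (hC : C ∈ P) (hn : ¬ Ful B Q T U F P a C)
    (hj : j ∈ aC B Q T U F P C) (ho : 1 ≤ (oj B Q U F P j).card)
    (hK : (KC B Q T U F C).Nonempty)
    (h22 : (C.card : ℤ) - (Sp.Uin U (slf B F) C).card = 2 → (KC B Q T U F C).card = 2 →
      Exs B Q T U F P a (tF B Q T U F P) j C ≤ exS (jC B Q j C)) :
    Exs B Q T U F P a (tF B Q T U F P) j C ≤ exS (jC B Q j C) := by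
  obtain ⟨hjt, hjl⟩ := Sp.mem_atl.1 hj
  have h10 := s.fat_ten hjt ho hjl
  obtain ⟨hd1, hd2⟩ := s.don hC
  obtain ⟨sb, x, _, _, hd, hf⟩ := s.toStg.exc_nd (tF B Q T U F P) hC hn hj ho (by omega)
  have hy1 : (1 : ℤ) ≤ yC B Q U F P j C := by exact_mod_cast s.toStg.own_hit hjt ho hjl
  have hlin := sF_lin h10
  have h464 : 464 ≤ sF (jC B Q j C) := by
    unfold sF
    split_ifs <;> omega
  have hS : 613 ≤ sF (jC B Q j C) + 149 * (yC B Q U F P j C : ℤ) := by linarith
  have hk : 563 + 25 * ((jC B Q j C : ℤ) + yC B Q U F P j C) ≤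
      sF (jC B Q j C) + 149 * (yC B Q U F P j C : ℤ) := by linarith
  have hK1 : 1 ≤ (Sp.Kin (Rg B Q T U F) (slj B Q F) C).card := card_pos.2 hK
  have hK1' : (1 : ℤ) ≤ (Sp.Kin (Rg B Q T U F) (slj B Q F) C).card := by exact_mod_cast hK1
  have hdn := hd.dn
  have hrk := hd.rk
  -- the donations with at most three claims of every inside triple
  have h3 : ∀ m : ℕ, (Sp.Kin (Rg B Q T U F) (slj B Q F) C).card ≤ m →
      (3 : ℤ) ≤ (C.card : ℤ) - (Sp.Uin U (slf B F) C).card →
      (C.card : ℤ) - (Sp.Uin U (slf B F) C).card ≤ 4 →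
      -tK B Q (Rg B Q T U F) F (tF B Q T U F P) C ≤ 240 * (m : ℤ) := by
    intro m hm hr3 hr4
    have h4 : -tK B Q (Rg B Q T U F) F (tF B Q T U F P) C ≤
        ∑ k ∈ Sp.Kin (Rg B Q T U F) (slj B Q F) C, (240 : ℤ) := by
      unfold tK
      rw [← sum_neg_distrib]
      refine sum_le_sum fun k hk => ?_
      rw [s.tF_kin hC hk]
      have := hA C hC hr3 hr4 k hk
      omega
    rw [sum_const, nsmul_eq_mul, mul_comm] at h4
    have h5 : ((Sp.Kin (Rg B Q T U F) (slj B Q F) C).card : ℤ) ≤ m := by exact_mod_cast hm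
    linarith
  rcases (by omega : (C.card : ℤ) - (Sp.Uin U (slf B F) C).card = 1 ∨
      (C.card : ℤ) - (Sp.Uin U (slf B F) C).card = 2 ∨
      (C.card : ℤ) - (Sp.Uin U (slf B F) C).card = 3 ∨
      (C.card : ℤ) - (Sp.Uin U (slf B F) C).card = 4 ∨
      5 ≤ (C.card : ℤ) - (Sp.Uin U (slf B F) C).card) with hr | hr | hr | hr | hr
  · exact hf (hd.f1 hr hK1' hS hk hd1 hd2)
  · rcases (by omega : (Sp.Kin (Rg B Q T U F) (slj B Q F) C).card = 2 ∨
        3 ≤ (Sp.Kin (Rg B Q T U F) (slj B Q F) C).card) with h2 | h2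
    · exact h22 hr h2
    · exact hf (hd.f2 hr (by exact_mod_cast h2) hS hk hd1 hd2)
  · rcases (by omega : (Sp.Kin (Rg B Q T U F) (slj B Q F) C).card = 4 ∨
        5 ≤ (Sp.Kin (Rg B Q T U F) (slj B Q F) C).card) with h2 | h2
    · have h4 := h3 4 (by omega) (by omega) (by omega)
      exact hf (hd.f34 hr (by omega) hS hk hd1 hd2 (by push_cast at h4; linarith))
    · exact hf (hd.f3 hr (by exact_mod_cast h2) hS hk hd1 hd2)
  · rcases (by omega : (Sp.Kin (Rg B Q T U F) (slj B Q F) C).card = 6 ∨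
        7 ≤ (Sp.Kin (Rg B Q T U F) (slj B Q F) C).card) with h2 | h2
    · have h4 := h3 6 (by omega) (by omega) (by omega)
      exact hf (hd.f46 hr (by omega) hS hk hd1 hd2 (by push_cast at h4; linarith))
    · exact hf (hd.f4 hr (by exact_mod_cast h2) hS hk hd1 hd2)
  · exact hf (hd.f5 hr hS hk hd1 hd2)

end StgR

end Pool.Agent.Hyp6
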