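import Pool.Agent.Hyp6.L3Tp

/-!
# HYP6 L3Rp: the parallel classes against the classes of a coarser partition

The classes met by a set `S` of leaves have rank at most `|S| - |points inside S|` in every minimal
partition. So every parallel class is inside a class of every minimal partition, and the rank of the
classes met by a set does not grow. `par0` is the parallel partition of a frame.
-/

set_option autoImplicit false

namespace Pool.Agent.Hyp6.Sp

open Finset

section

variable {L : Type*} [DecidableEq L] {α : Type*} [DecidableEq α] {τ : Type*} [DecidableEq τ]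
  {F : Finset L} {U : Finset α} {N : α → Finset L} {Ts : Finset τ} {NT : τ → Finset L}
  {P P0 : Finset (Finset L)}

omit [DecidableEq τ] in
/-- **the rank of the classes met by a set of leaves**. -/
theorem MinP.rk_met_le (hg : Gd F F U N Ts NT) (h : MinP F F U N Ts NT P) {S : Finset L}
    (hS : S ⊆ F) : rkn (nP U N P) (met P S) ≤ (S.card : ℤ) - (Uin U N S).card := by
  set A := met P S with hA
  set Y := (Uin U N S).filter (fun u => u ∈ Ux U N P) with hY
  have hAP : A ⊆ P := met_subset
  have h1 : Uin U N S ⊆ Y ∪ A.biUnion (fun C => Uin U N (S ∩ C)) := by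
    intro u hu
    by_cases hx : u ∈ Ux U N P
    · exact mem_union_left _ (mem_filter.2 ⟨hu, hx⟩)
    · obtain ⟨hu1, hu2⟩ := mem_filter.1 hu
      have h2 : ∃ C ∈ P, N u ⊆ C := by
        by_contra hcon
        push Not at hcon
        exact hx (mem_filter.2 ⟨hu1, hcon⟩)
      obtain ⟨C, hC, h3⟩ := h2
      obtain ⟨x, hxu⟩ := hg.N_ne hu1
      exact mem_union_right _ (mem_biUnion.2 ⟨C, mem_met.2 ⟨hC, not_disjoint_iff.2
        ⟨x, hu2 hxu, h3 hxu⟩⟩, mem_filter.2 ⟨hu1, subset_inter hu2 h3⟩⟩)
  have h2 : ∀ C ∈ A, (Uin U N (S ∩ C)).card + 1 ≤ (S ∩ C).card := by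
    intro C hC
    obtain ⟨x, hx1, hx2⟩ := not_disjoint_iff.1 (mem_met.1 hC).2
    have h3 : 0 < (S ∩ C).card := card_pos.2 ⟨x, mem_inter.2 ⟨hx1, hx2⟩⟩
    rcases (Uin U N (S ∩ C)).eq_empty_or_nonempty with h4 | h4
    · rw [h4, card_empty]
      omega
    · refine (hg.sur _ (filter_subset _ _) h4).trans (card_le_card ?_)
      refine inter_subset_left.trans (biUnion_subset.2 fun u hu => (mem_filter.1 hu).2)
  have h3 : ∑ C ∈ A, (S ∩ C).card = S.card := by
    rw [← card_biUnion]
    · congr 1
      ext x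
      simp only [mem_biUnion, mem_inter]
      constructor
      · rintro ⟨_, _, hx, _⟩
        exact hx
      · intro hx
        have hxF := hS hx
        rw [← h.ptn.un] at hxF
        obtain ⟨C, hC, hxC⟩ := mem_biUnion.1 hxF
        exact ⟨C, mem_met.2 ⟨hC, not_disjoint_iff.2 ⟨x, hx, hxC⟩⟩, hx, hxC⟩
    · intro C hC D hD hne
      exact (h.ptn.dj C (hAP hC) D (hAP hD) hne).mono inter_subset_right inter_subset_right
  have h4 : (Uin U N S).card ≤ Y.card + ∑ C ∈ A, (Uin U N (S ∩ C)).card :=
    (card_le_card h1).trans ((card_union_le _ _).trans (by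
      have := card_biUnion_le (s := A) (t := fun C => Uin U N (S ∩ C))
      omega))
  have h5 : ∑ C ∈ A, ((Uin U N (S ∩ C)).card + 1) ≤ ∑ C ∈ A, (S ∩ C).card := sum_le_sum h2
  rw [sum_add_distrib, h3, sum_const, smul_eq_mul, mul_one] at h5
  have h6 : (Y.card : ℤ) ≤ nP U N P A := by
    have h7 := le_dfc (U := Ux U N P) (N := fun u => met P (N u)) (D := A) (B := Y)
      (fun u hu => (mem_filter.1 hu).2)
    have h8 : (Y.biUnion (fun u => met P (N u))) \ A = ∅ := by
      rw [sdiff_eq_empty_iff_subset]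
      refine biUnion_subset.2 fun u hu C hC => ?_
      obtain ⟨hC1, hC2⟩ := mem_met.1 hC
      exact mem_met.2 ⟨hC1, fun hd => hC2 (hd.mono_left (mem_filter.1 (mem_filter.1 hu).1).2)⟩
    rw [h8, card_empty] at h7
    unfold nP
    push_cast at h7
    linarith
  unfold rkn
  omega

/-- a set of leaves with one point less inside is inside a class. -/
theorem MinP.sub_of_rk (hg : Gd F F U N Ts NT) (h : MinP F F U N Ts NT P) {S : Finset L}
    (hS : S ⊆ F) (hne : S.Nonempty) (h1 : S.card ≤ (Uin U N S).card + 1) :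
    ∃ C ∈ P, S ⊆ C := by
  have h2 := h.rk_met_le hg hS
  obtain ⟨x, hx⟩ := hne
  have hxF := hS hx
  rw [← h.ptn.un] at hxF
  obtain ⟨C, hC, hxC⟩ := mem_biUnion.1 hxF
  have hCm : C ∈ met P S := mem_met.2 ⟨hC, not_disjoint_iff.2 ⟨x, hx, hxC⟩⟩
  refine ⟨C, hC, h.ptn.met_single hS (fun D hD => ?_) hC⟩
  rw [mem_singleton]
  by_contra hne
  have h3 := h.pair hg (met_subset hCm) (met_subset hD) (Ne.symm hne)
  have h4 : rkn (nP U N P) {C, D} ≤ rkn (nP U N P) (met P S) :=
    (h.nul hg).rk_mono (insert_subset hCm (singleton_subset_iff.2 hD))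
  unfold rkn at h4
  rw [card_pair (Ne.symm hne)] at h4
  unfold rkn at h2
  push_cast at h4
  omega

/-- **every parallel class is inside a class**. -/
theorem Par.sub_class (hp : Par F U N P0) (hg : Gd F F U N Ts NT) (h : MinP F F U N Ts NT P)
    {D : Finset L} (hD : D ∈ P0) : ∃ C ∈ P, D ⊆ C := by
  have hs : Sur F U N := Sur.mk' hg.NU fun B hB hne => by
    refine (hg.sur B hB hne).trans (card_le_card inter_subset_left)
  exact h.sub_of_rk hg (hp.sub hD) (hp.ne hD) (hp.card_eq hs hD).le

/-- **the rank of the classes met by a set is at most the rank in the parallel partition**. -/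
theorem Par.rk_le (hp : Par F U N P0) (hg : Gd F F U N Ts NT) (h : MinP F F U N Ts NT P)
    {X : Finset L} (hX : X ⊆ F) :
    rkn (nP U N P) (met P X) ≤ rkn (nP U N P0) (met P0 X) := by
  have hs : Sur F U N := Sur.mk' hg.NU fun B hB hne => by
    refine (hg.sur B hB hne).trans (card_le_card inter_subset_left)
  set X0 := clo (nP U N P0) P0 (met P0 X) with hX0
  have hX0P : X0 ⊆ P0 := clo_subset
  have hX0m : met P0 X ⊆ X0 := subset_clo met_subset
  set S := X0.biUnion id with hSd
  have hSF : S ⊆ F := biUnion_subset.2 fun D hD => hp.sub (hX0P hD)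
  have hXS : X ⊆ S := (hp.ptn.sub_met hX hX0P).2 hX0m
  have hmm : met P X ⊆ met P S := by
    intro C hC
    obtain ⟨h1, h2⟩ := mem_met.1 hC
    exact mem_met.2 ⟨h1, fun hd => h2 (hd.mono_left hXS)⟩
  have h1 := (h.nul hg).rk_mono hmm
  have h2 := h.rk_met_le hg hSF
  have h3 : S.card = ∑ D ∈ X0, ((Uin U N D).card + 1) := by
    rw [hSd, card_biUnion]
    · exact sum_congr rfl fun D hD => hp.card_eq hs (hX0P hD)
    · intro C hC D hD hne
      exact hp.dj (hX0P hC) (hX0P hD) hne
  have h4 : ∑ D ∈ X0, (Uin U N D).card + (UU U N P0 X0).card ≤ (Uin U N S).card := by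
    rw [← card_biUnion, ← card_union_of_disjoint]
    · refine card_le_card (union_subset ?_ ?_)
      · intro u hu
        obtain ⟨D, hD, hu⟩ := mem_biUnion.1 hu
        obtain ⟨hu1, hu2⟩ := mem_filter.1 hu
        exact mem_filter.2 ⟨hu1, hu2.trans (subset_biUnion_of_mem id hD)⟩
      · intro u hu
        obtain ⟨hu1, hu2⟩ := mem_filter.1 hu
        exact mem_filter.2 ⟨(mem_filter.1 hu1).1, hu2⟩
    · rw [disjoint_left]
      intro u hu hu'
      obtain ⟨D, hD, hu⟩ := mem_biUnion.1 hu
      exact (mem_filter.1 (mem_filter.1 hu').1).2 D (hX0P hD) (mem_filter.1 hu).2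
    · intro C hC D hD hne
      show Disjoint (Uin U N C) (Uin U N D)
      rw [disjoint_left]
      intro u hu hu'
      obtain ⟨hu1, hu2⟩ := mem_filter.1 hu
      obtain ⟨x, hx⟩ := hg.N_ne hu1
      exact disjoint_left.1 (hp.dj (hX0P hC) (hX0P hD) hne) (hu2 hx) ((mem_filter.1 hu').2 hx)
  have h5 := (hp.nul hs).rk_clo (Vs := P0) (A := met P0 X) met_subset
  have h6 := MinP.nP_clo hs hp (A := met P0 X) met_subset
  rw [← hX0] at h5 h6
  have h7 : rkn (nP U N P0) X0 = (X0.card : ℤ) - (UU U N P0 X0).card := by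
    unfold rkn
    rw [h6]
  rw [sum_add_distrib, sum_const, smul_eq_mul, mul_one] at h3
  rw [← h5, h7]
  omega

end

end Pool.Agent.Hyp6.Sp

namespace Pool.Agent.Hyp6

open Finset Pool.Agent.Hyp5

universe u v

variable {V : Type v} [DecidableEq V] {ι : Type u} {B : ι → Finset V}

/-- the parallel partition of a frame. -/
noncomputable def par0 (B : ι → Finset V) (U : Finset V) (F : Finset (Finset V)) :
    Finset (Finset (Finset V)) := (Sp.exists_par F U (slf B F)).choose

theorem par0_spec (U : Finset V) (F : Finset (Finset V)) :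
    Sp.Par F U (slf B F) (par0 B U F) := (Sp.exists_par F U (slf B F)).choose_spec

end Pool.Agent.Hyp6
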