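import Pool.Agent.Hyp6.L3Rn
import Pool.Agent.Hyp6.L3Tz

/-!
# HYP6 L3Tp: the types of the triples of a frame on the parallel classes

Every triple of the frame sees at most one class, or its classes span a line, or it has a point
without leaf, or two of its points see only one class; in the last two cases the classes seen have
rank at least three.
-/

set_option autoImplicit false

namespace Pool.Agent.Hyp6

open Finset Pool.Agent.Hyp5

universe u v

variable {V : Type v} [DecidableEq V] {ι : Type u} {B : ι → Finset V}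

/-- the leaves seen by a triple. -/
noncomputable def slj (B : ι → Finset V) (Q : Finset V) (F : Finset (Finset V)) (j : ι) :
    Finset (Finset V) := (B j ∩ Q).biUnion (slf B F)

/-- the classes seen by a point. -/
noncomputable def mcl (B : ι → Finset V) (F : Finset (Finset V)) (P : Finset (Finset (Finset V)))
    (p : V) : Finset (Finset (Finset V)) := Sp.met P (slf B F p)

/-- the classes seen by a triple. -/
noncomputable def mcj (B : ι → Finset V) (Q : Finset V) (F : Finset (Finset V))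
    (P : Finset (Finset (Finset V))) (j : ι) : Finset (Finset (Finset V)) :=
  Sp.met P (slj B Q F j)

/-- the line of a triple. -/
noncomputable def lnj (B : ι → Finset V) (Q U : Finset V) (F : Finset (Finset V))
    (P : Finset (Finset (Finset V))) (j : ι) : Finset (Finset (Finset V)) :=
  Sp.clo (Sp.nP U (slf B F) P) P (mcj B Q F P j)

/-- the rank of a set of classes. -/
noncomputable def rkc (B : ι → Finset V) (U : Finset V) (F : Finset (Finset V))
    (P A : Finset (Finset (Finset V))) : ℤ := Sp.rkn (Sp.nP U (slf B F) P) A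

section

variable {Q U : Finset V} {T : Finset ι} {F : Finset (Finset V)} {P : Finset (Finset (Finset V))}

theorem slj_sub {j : ι} : slj B Q F j ⊆ F := biUnion_subset.2 fun _ _ => slf_sub

theorem mem_mcl {p : V} {C : Finset (Finset V)} :
    C ∈ mcl B F P p ↔ C ∈ P ∧ ∃ L ∈ C, L ∈ F ∧ ∃ y ∈ L, (gr B).Adj p y := by
  unfold mcl
  rw [Sp.mem_met, not_disjoint_iff]
  constructor
  · rintro ⟨h1, L, h2, h3⟩
    exact ⟨h1, L, h3, (mem_slf.1 h2).1, (mem_slf.1 h2).2⟩
  · rintro ⟨h1, L, h3, h2, h4⟩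
    exact ⟨h1, L, mem_slf.2 ⟨h2, h4⟩, h3⟩

theorem mcj_eq {j : ι} : mcj B Q F P j = (B j ∩ Q).biUnion (mcl B F P) := by
  ext C
  unfold mcj mcl slj
  rw [mem_biUnion, Sp.mem_met, not_disjoint_iff]
  constructor
  · rintro ⟨h1, L, h2, h3⟩
    obtain ⟨p, hp, hL⟩ := mem_biUnion.1 h2
    exact ⟨p, hp, Sp.mem_met.2 ⟨h1, not_disjoint_iff.2 ⟨L, hL, h3⟩⟩⟩
  · rintro ⟨p, hp, hC⟩
    obtain ⟨h1, h2⟩ := Sp.mem_met.1 hC
    obtain ⟨L, hL, h3⟩ := not_disjoint_iff.1 h2
    exact ⟨h1, L, mem_biUnion.2 ⟨p, hp, hL⟩, h3⟩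

theorem mcl_sub {p : V} : mcl B F P p ⊆ P := Sp.met_subset

theorem mcj_sub {j : ι} : mcj B Q F P j ⊆ P := Sp.met_subset

theorem mcl_sub_mcj {j : ι} {p : V} (hp : p ∈ B j ∩ Q) : mcl B F P p ⊆ mcj B Q F P j := by
  rw [mcj_eq]
  exact subset_biUnion_of_mem (mcl B F P) hp

namespace Frm

/-- the surplus data of the frame. -/
theorem sur (h : Frm B Q T U F) : Sp.Sur F U (slf B F) := by
  refine Sp.Sur.mk' (fun _ _ => slf_sub) fun Y hY hne => ?_
  refine (h.ge.surplus Y hY hne).trans (card_le_card ?_)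
  intro A hA
  obtain ⟨hA1, x, hx, y, hy, hxy⟩ := mem_nbF.1 hA
  exact mem_biUnion.2 ⟨x, hx, mem_slf.2 ⟨hA1, y, hy, hxy⟩⟩

/-- the points of a triple. -/
theorem three_points (h : Frm B Q T U F) {j : ι} (hj : j ∈ T) :
    ∃ a b c, B j ∩ Q = {a, b, c} ∧ a ≠ b ∧ a ≠ c ∧ b ≠ c := by
  obtain ⟨a, b, c, h1, h2, h3, h4⟩ := card_eq_three.1 (h.mtp.tpk.pack.card j hj)
  exact ⟨a, b, c, h4, h1, h2, h3⟩

/-- a nonempty set of seen leaves gives a seen class. -/
theorem mcl_ne (h : Frm B Q T U F) (hP : Sp.Par F U (slf B F) P) {p : V}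
    (hp : (slf B F p).Nonempty) : (mcl B F P p).Nonempty := by
  obtain ⟨L, hL⟩ := hp
  obtain ⟨C, hC, hLC⟩ := hP.cls (slf_sub hL)
  have := h
  exact ⟨C, Sp.mem_met.2 ⟨hC, not_disjoint_iff.2 ⟨L, hL, hLC⟩⟩⟩

/-- the leaves seen are in a class if and only if only this class is seen. -/
theorem mcl_single (_h : Frm B Q T U F) (hP : Sp.Par F U (slf B F) P) {p : V}
    {C : Finset (Finset V)} (hC : C ∈ P) : mcl B F P p ⊆ {C} ↔ slf B F p ⊆ C := by
  constructor
  · exact fun h1 => hP.ptn.met_single slf_sub h1 hC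
  · intro h1 D hD
    obtain ⟨h2, h3⟩ := Sp.mem_met.1 hD
    rw [mem_singleton]
    by_contra hne
    exact h3 ((hP.dj hC h2 (Ne.symm hne)).mono_left h1)

/-- **the types of the triples**. -/
theorem types_par [Fintype ι] (h : Frm B Q T U F) (hP : Sp.Par F U (slf B F) P) {j : ι} (hj : j ∈ T) :
    (mcj B Q F P j).card ≤ 1 ∨ Sp.Line U (slf B F) P (lnj B Q U F P j) ∨
      (3 ≤ rkc B U F P (mcj B Q F P j) ∧ ∃ a ∈ B j ∩ Q, slf B F a = ∅) ∨
      (3 ≤ rkc B U F P (mcj B Q F P j) ∧ ∃ a b c, B j ∩ Q = {a, b, c} ∧ a ≠ b ∧ a ≠ c ∧ b ≠ c ∧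
        (slf B F a).Nonempty ∧ (slf B F b).Nonempty ∧ ∃ C ∈ P, slf B F a ⊆ C ∧ slf B F b ⊆ C) := by
  classical
  have hg := h.sur
  by_cases h1 : (mcj B Q F P j).card ≤ 1
  · exact Or.inl h1
  push Not at h1
  by_cases h2 : rkc B U F P (mcj B Q F P j) ≤ 2
  · exact Or.inr (Or.inl (hP.line hg mcj_sub (le_antisymm h2 (hP.rk_two hg mcj_sub h1))))
  push Not at h2
  refine Or.inr (Or.inr ?_)
  by_cases h3 : ∃ a ∈ B j ∩ Q, slf B F a = ∅
  · exact Or.inl ⟨h2, h3⟩
  refine Or.inr ⟨h2, ?_⟩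
  push Not at h3
  obtain ⟨a, b, c, hT, hab, hac, hbc⟩ := h.three_points hj
  have ha : a ∈ B j ∩ Q := by rw [hT]; simp
  have hb : b ∈ B j ∩ Q := by rw [hT]; simp
  have hc : c ∈ B j ∩ Q := by rw [hT]; simp
  have na : (slf B F a).Nonempty := h3 a ha
  have nb : (slf B F b).Nonempty := h3 b hb
  have nc : (slf B F c).Nonempty := h3 c hc
  have hty := Sp.MinP.types hg hP (A1 := slf B F a) (A2 := slf B F b) (A3 := slf B F c) slf_sub
    slf_sub slf_sub (fun x hx y hy z hz hxy hxz hyz =>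
      h.no_three hj hT hab hac hbc hx hy hz hxy hxz hyz)
  rcases hty with h4 | h4 | h4 | h4 | h4 | h4 | h4
  · exact absurd h4 na.ne_empty
  · exact absurd h4 nb.ne_empty
  · exact absurd h4 nc.ne_empty
  · obtain ⟨C, hC, h5, h6⟩ := h4
    exact ⟨a, b, c, hT, hab, hac, hbc, na, nb, C, hC, h5, h6⟩
  · obtain ⟨C, hC, h5, h6⟩ := h4
    refine ⟨a, c, b, ?_, hac, hab, hbc.symm, na, nc, C, hC, h5, h6⟩
    rw [hT]
    ext v
    simp only [mem_insert, mem_singleton]
    tauto
  · obtain ⟨C, hC, h5, h6⟩ := h4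
    refine ⟨b, c, a, ?_, hbc, hab.symm, hac.symm, nb, nc, C, hC, h5, h6⟩
    rw [hT]
    ext v
    simp only [mem_insert, mem_singleton]
    tauto
  · exfalso
    have h5 : slf B F a ∪ slf B F b ∪ slf B F c = slj B Q F j := by
      unfold slj
      rw [hT, biUnion_insert, biUnion_insert, singleton_biUnion, union_assoc]
    rw [h5] at h4
    unfold rkc mcj at h2
    omega

end Frm

end

end Pool.Agent.Hyp6
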