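import Pool.Agent.Hyp6.L3Rv
import Pool.Agent.Hyp6.L3Tp

/-!
# HYP6 L3RW: nodes of the rent proof

The parallel classes of the leaves of a frame (`L3Rn`) as nodes: the hits of a point, the types of a
triple, and the demand of a class after the supplies of its own points.
-/

set_option autoImplicit false

namespace Pool.Agent.Hyp6

open Finset Pool.Agent.Hyp5 Rt

universe u v

variable {V : Type v} [DecidableEq V] {ι : Type u} [Fintype ι] {B : ι → Finset V}

/-- the hits of a triple are the hits of its points. -/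
theorem jh_sum (Q : Finset V) (j : ι) (L : Finset V) :
    jh B Q j L = ∑ v ∈ B j ∩ Q, uh B v L := by
  unfold jh
  exact Frm.hit_U_sum _ _

/-- a point outside of a leaf has a hit on it exactly if it sees it. -/
theorem uh_pos {F : Finset (Finset V)} {L : Finset V} (hL : L ∈ F) {v : V} (hv : v ∉ L) :
    0 < uh B v L ↔ L ∈ slf B F v := by
  rw [mem_slf]
  constructor
  · intro h
    refine ⟨hL, ?_⟩
    unfold uh hit at h
    obtain ⟨i, hi, hpos⟩ := exists_ne_zero_of_sum_ne_zero (Nat.pos_iff_ne_zero.1 h)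
    obtain ⟨w, hw⟩ := card_pos.1 (Nat.pos_of_ne_zero hpos)
    obtain ⟨hw1, hw2⟩ := mem_inter.1 hw
    rw [mem_singleton] at hw2
    subst hw2
    obtain ⟨y, hy⟩ := cost_mem_tch.1 hi
    obtain ⟨hy1, hy2⟩ := mem_inter.1 hy
    exact ⟨y, hy2, fun he => hv (he ▸ hy2), i, hw1, hy1⟩
  · rintro ⟨_, y, hy, hne, i, hi1, hi2⟩
    unfold uh hit
    refine sum_pos' (fun _ _ => Nat.zero_le _) ⟨i, cost_mem_tch.2 ⟨y, mem_inter.2 ⟨hi2, hy⟩⟩, ?_⟩
    exact card_pos.2 ⟨v, mem_inter.2 ⟨hi1, mem_singleton_self v⟩⟩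

theorem uh_zero {F : Finset (Finset V)} {L : Finset V} (hL : L ∈ F) {v : V} (hv : v ∉ L)
    (hs : L ∉ slf B F v) : uh B v L = 0 := by
  by_contra hcon
  exact hs ((uh_pos hL hv).1 (Nat.pos_of_ne_zero hcon))

namespace Frm

variable {Q U : Finset V} {T : Finset ι} {F : Finset (Finset V)}

omit [Fintype ι] in
/-- the points of `U` are not in leaves. -/
theorem U_notin (h : Frm B Q T U F) {u : V} (hu : u ∈ U) {L : Finset V} (hL : L ∈ F) : u ∉ L :=
  fun h1 => disjoint_left.1 (h.ge.FU L hL) h1 hu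

omit [Fintype ι] in
/-- the points of the triples are not in leaves. -/
theorem T_notin (h : Frm B Q T U F) {j : ι} (hj : j ∈ T) {v : V} (hv : v ∈ B j ∩ Q)
    {L : Finset V} (hL : L ∈ F) : v ∉ L :=
  fun h1 => (mem_sdiff.1 (h.FD hL h1)).2 (mem_biUnion.2 ⟨j, hj, (mem_inter.1 hv).1⟩)

/-- the hits of an own point of a class are inside the class. -/
theorem own_hits (h : Frm B Q T U F) [DecidableEq ι] (hr : Reg B Q) {C : Finset (Finset V)}
    (hC : C ⊆ F) {u : V} (hu : u ∈ U) (hs : slf B F u ⊆ C) :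
    ∑ L ∈ C, uh B u L + uo B Q T U F u = 5 := by
  have h1 := h.five_u hr hu
  have h2 : ∑ L ∈ F, uh B u L = ∑ L ∈ C, uh B u L := by
    refine (sum_subset hC fun L hL hLC => ?_).symm
    exact uh_zero hL (h.U_notin hu hL) fun h3 => hLC (hs h3)
  omega

/-- **the demand of a class** after the supplies of `|C| - 1` own points. -/
theorem node_dm (h : Frm B Q T U F) [DecidableEq ι] (hr : Reg B Q) (t : ℤ)
    {C : Finset (Finset V)} (hC : C ⊆ F) {O : Finset V} (hcard : C.card = O.card + 1) :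
    ∑ L ∈ C, dm B Q T U t L - ∑ u ∈ O, sU B Q T U F t u ≤
      165 + t + ∑ u ∈ O, (uo B Q T U F u : ℤ) -
        3 * ∑ L ∈ C, ((nt B L 1 : ℤ) - hit B U L) - 42 * ∑ L ∈ C, (ee B Q L : ℤ) := by
  have h1 : ∑ L ∈ C, dm B Q T U t L ≤
      ∑ L ∈ C, (165 + t - 3 * ((nt B L 1 : ℤ) - hit B U L) - 42 * (ee B Q L : ℤ)) :=
    sum_le_sum fun L hL => h.dm_le hr t (hC hL)
  rw [sum_sub_distrib, sum_sub_distrib, ← mul_sum, ← mul_sum, sum_const, nsmul_eq_mul] at h1
  have h2 : ∑ u ∈ O, sU B Q T U F t u = (O.card : ℤ) * (165 + t) -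
      ∑ u ∈ O, (uo B Q T U F u : ℤ) := by
    unfold sU
    rw [sum_sub_distrib, sum_const, nsmul_eq_mul]
  have h3 : (C.card : ℤ) = O.card + 1 := by exact_mod_cast hcard
  rw [h3] at h1
  rw [h2]
  linarith

/-- the demand of a parallel class after its own points. -/
theorem par_dm (h : Frm B Q T U F) [DecidableEq ι] (hr : Reg B Q) (t : ℤ)
    {P : Finset (Finset (Finset V))} (hP : Sp.Par F U (slf B F) P) {C : Finset (Finset V)}
    (hC : C ∈ P) :
    ∑ L ∈ C, dm B Q T U t L - ∑ u ∈ Sp.Uin U (slf B F) C, sU B Q T U F t u ≤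
      165 + t + ∑ u ∈ Sp.Uin U (slf B F) C, (uo B Q T U F u : ℤ) -
        3 * ∑ L ∈ C, ((nt B L 1 : ℤ) - hit B U L) - 42 * ∑ L ∈ C, (ee B Q L : ℤ) :=
  h.node_dm hr t (hP.sub hC) (hP.card_eq h.sur hC)

/-- the types of a triple: a point which sees no leaf, two points which see only one class, or a
line. -/
theorem types (h : Frm B Q T U F) {P : Finset (Finset (Finset V))}
    (hP : Sp.Par F U (slf B F) P) {j : ι} (hj : j ∈ T) {a b c : V}
    (hT : B j ∩ Q = {a, b, c}) (hab : a ≠ b) (hac : a ≠ c) (hbc : b ≠ c) :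
    slf B F a = ∅ ∨ slf B F b = ∅ ∨ slf B F c = ∅ ∨
      (∃ C ∈ P, slf B F a ⊆ C ∧ slf B F b ⊆ C) ∨ (∃ C ∈ P, slf B F a ⊆ C ∧ slf B F c ⊆ C) ∨
      (∃ C ∈ P, slf B F b ⊆ C ∧ slf B F c ⊆ C) ∨
      Sp.Line U (slf B F) P (Sp.clo (Sp.nP U (slf B F) P) P
        (Sp.met P (slf B F a ∪ slf B F b ∪ slf B F c))) :=
  hP.types h.sur slf_sub slf_sub slf_sub fun _ hx _ hy _ hz hxy hxz hyz =>
    h.no_three hj hT hab hac hbc hx hy hz hxy hxz hyz

end Frm

end Pool.Agent.Hyp6
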