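import Pool.Agent.Hyp6.L3Y5
import Pool.Agent.Hyp6.L3Me
import Pool.Agent.Hyp6.L3S4
import Pool.Agent.Hyp6.L3Rw
import Pool.Agent.Hyp6.L3Rp
import Pool.Agent.Hyp6.L3Fps

/-!
# HYP6 L3Fin: the assembly for value at least one

`Frm.fin`: the inequality from the payments of the remaining triples, the classes with no line triple,
the classes with at least two line triples and one condition for every line triple (which contains the
classes with only this line triple), with transfers `t` between the triples and extra payments of the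
classes. `Stg`: the frame, the partition and the distribution.
-/

set_option autoImplicit false

namespace Pool.Agent.Hyp6

open Finset Pool.Agent.Hyp5 Rt

universe u v

variable {V : Type v} [DecidableEq V] {ι : Type u} [Fintype ι] [DecidableEq ι]
  {B : ι → Finset V}

/-- the ordinary triples: no allowed hit and rank at most two on the parallel classes. -/
noncomputable def Rg (B : ι → Finset V) (Q : Finset V) (T : Finset ι) (U : Finset V)
    (F : Finset (Finset V)) : Finset ι := T.filter (fun j => ja B Q (Ep B Q T U F) j = 0 ∧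
      rkc B U F (par0 B U F) (mcj B Q F (par0 B U F) j) ≤ 2)

omit [DecidableEq ι] in
theorem mem_Rg {Q U : Finset V} {T : Finset ι} {F : Finset (Finset V)} {j : ι} :
    j ∈ Rg B Q T U F ↔ j ∈ T ∧ ja B Q (Ep B Q T U F) j = 0 ∧
      rkc B U F (par0 B U F) (mcj B Q F (par0 B U F) j) ≤ 2 := by
  unfold Rg
  rw [mem_filter]

omit [DecidableEq ι] in
theorem Rg_sub {Q U : Finset V} {T : Finset ι} {F : Finset (Finset V)} : Rg B Q T U F ⊆ T :=
  filter_subset _ _

/-- the line triples of the frame. -/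
noncomputable abbrev tl (B : ι → Finset V) (Q : Finset V) (T : Finset ι) (U : Finset V)
    (F : Finset (Finset V)) (P : Finset (Finset (Finset V))) : Finset ι :=
  Sp.T2 U (slf B F) (Rg B Q T U F) (slj B Q F) P

/-- the classes of the line of a triple. -/
noncomputable abbrev lj (B : ι → Finset V) (Q U : Finset V) (F : Finset (Finset V))
    (P : Finset (Finset (Finset V))) : ι → Finset (Finset (Finset V)) :=
  Sp.lx U (slf B F) (slj B Q F) P

/-- the line triples at a class. -/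
noncomputable abbrev aC (B : ι → Finset V) (Q : Finset V) (T : Finset ι) (U : Finset V)
    (F : Finset (Finset V)) (P : Finset (Finset (Finset V))) (C : Finset (Finset V)) : Finset ι :=
  Sp.atl (tl B Q T U F P) (lj B Q U F P) C

/-- what is missing at a class after the standard rent, units `1 / 120`. -/
noncomputable def mis (B : ι → Finset V) (Q : Finset V) (T R : Finset ι) (U : Finset V)
    (F : Finset (Finset V)) (P : Finset (Finset (Finset V))) (a : V → Finset (Finset V) → ℕ)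
    (l : ι → Finset (Finset (Finset V))) (X : ι → Finset (Finset V) → ℤ)
    (C : Finset (Finset V)) : ℤ :=
  8 * dmC B Q T R U F C - 288 * (Sp.ld (Sp.Ux U (slf B F) P) a C : ℤ) -
    ∑ j ∈ Trs B Q T R U F P, X j C -
    8 * ∑ j ∈ Sp.atl (Sp.T2 U (slf B F) R (slj B Q F) P) l C,
      (70 - 14 * (Sp.owl U (slf B F) P l a j C : ℤ))

namespace Frm

variable {Q U : Finset V} {T R : Finset ι} {F : Finset (Finset V)}
  {P : Finset (Finset (Finset V))}

/-- **the rent sum with extra payments `w` of the classes**. -/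
theorem of_nodes8w (h : Frm B Q T U F) (hr : Reg B Q) (hsv : 0 ≤ sv B Q) (hR : R ⊆ T)
    (hP : Sp.MinP F F U (slf B F) R (slj B Q F) P) {a : V → Finset (Finset V) → ℕ}
    (hs : ∀ u ∈ Sp.Ux U (slf B F) P, ∀ C ∈ P, 0 < a u C → C ∈ Sp.met P (slf B F u))
    (ht : ∀ u ∈ Sp.Ux U (slf B F) P, ∑ C ∈ P, a u C = 5 - uo B Q T U F u)
    {l : ι → Finset (Finset (Finset V))}
    (hl : Sp.Lnf U (slf B F) P (Sp.T2 U (slf B F) R (slj B Q F) P) l)
    (e X : ι → Finset (Finset V) → ℤ) (w : Finset (Finset V) → ℤ)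
    (hsum : ∑ j ∈ Sp.T2 U (slf B F) R (slj B Q F) P, (1120 + ∑ C ∈ P, e j C) +
        ∑ j ∈ Trs B Q T R U F P, ∑ C ∈ P, X j C + ∑ C ∈ P, w C ≤
      8 * (∑ j ∈ Sp.T2 U (slf B F) R (slj B Q F) P, sT B Q T U F 15 j +
        ∑ j ∈ Trs B Q T R U F P, sT B Q T U F 15 j) +
      168 * ∑ j ∈ Sp.T2 U (slf B F) R (slj B Q F) P,
        ∑ u ∈ Sp.UU U (slf B F) P (l j), (uo B Q T U F u : ℤ) + 112)
    (hn : ∀ C ∈ P, 8 * dmC B Q T R U F C ≤
      8 * ∑ j ∈ Sp.atl (Sp.T2 U (slf B F) R (slj B Q F) P) l C,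
        (70 - 14 * (Sp.owl U (slf B F) P l a j C : ℤ)) +
      288 * (Sp.ld (Sp.Ux U (slf B F) P) a C : ℤ) +
      ∑ j ∈ Sp.T2 U (slf B F) R (slj B Q F) P, e j C + ∑ j ∈ Trs B Q T R U F P, X j C + w C) :
    2 * (ee B Q Q : ℤ) ≤ Pv B Q := by
  have hg := h.gdT (R := R)
  have hUx : ∀ u ∈ Sp.Ux U (slf B F) P, u ∈ U := fun u hu => (mem_filter.1 hu).1
  refine h.of_totalP hr (by norm_num) le_rfl hsv ?_
  have h1 := Sp.rent8 hg hP hs ht (fun u _ => Nat.sub_le _ _) hl (dmC B Q T R U F)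
    (fun C => ∑ j ∈ Trs B Q T R U F P, X j C + w C) e (fun C hC => by
      have := hn C hC
      linarith)
  have h2 : ∀ u ∈ Sp.Ux U (slf B F) P, (5 - ((5 - uo B Q T U F u : ℕ) : ℤ)) =
      uo B Q T U F u := by
    intro u hu
    have := h.uo_le hr (hUx u hu)
    omega
  have h3 : ∑ u ∈ Sp.Ux U (slf B F) P, (180 - (5 - ((5 - uo B Q T U F u : ℕ) : ℤ))) =
      ∑ u ∈ Sp.Ux U (slf B F) P, sU B Q T U F 15 u := by
    refine sum_congr rfl fun u hu => ?_
    rw [h2 u hu]
    unfold sU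
    ring
  have h4 : ∑ j ∈ Sp.T2 U (slf B F) R (slj B Q F) P,
      ∑ u ∈ Sp.UU U (slf B F) P (l j), (5 - ((5 - uo B Q T U F u : ℕ) : ℤ)) =
      ∑ j ∈ Sp.T2 U (slf B F) R (slj B Q F) P,
        ∑ u ∈ Sp.UU U (slf B F) P (l j), (uo B Q T U F u : ℤ) :=
    sum_congr rfl fun j _ => sum_congr rfl fun u hu => h2 u (Sp.UU_sub hu)
  have h5 : ∑ C ∈ P, ∑ j ∈ Trs B Q T R U F P, X j C = ∑ j ∈ Trs B Q T R U F P, ∑ C ∈ P, X j C :=
    sum_comm
  have h8 := sum_U hg hP (sU B Q T U F 15)
  have h9 := sum_T hP hR (sT B Q T U F 15)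
  have h10 := sum_leaves hP (dm B Q T U 15)
  have h11 : ∑ C ∈ P, dmC B Q T R U F C = ∑ C ∈ P, ∑ L ∈ C, dm B Q T U 15 L -
      ∑ C ∈ P, ∑ u ∈ Sp.Uin U (slf B F) C, sU B Q T U F 15 u -
      ∑ C ∈ P, ∑ j ∈ Sp.Kin R (slj B Q F) C, sT B Q T U F 15 j := by
    unfold dmC
    rw [sum_sub_distrib, sum_sub_distrib]
  have h12 : ∑ C ∈ P, (∑ j ∈ Trs B Q T R U F P, X j C + w C) =
      ∑ C ∈ P, ∑ j ∈ Trs B Q T R U F P, X j C + ∑ C ∈ P, w C := sum_add_distrib
  rw [h3, h4, h12, h5] at h1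
  rw [h8, h9, h10]
  linarith

/-- **the assembly**, with transfers `t`: the triple `j` receives `t j`; the triples inside a class
give the class what they receive. -/
theorem fin (h : Frm B Q T U F) (hr : Reg B Q) (hsv : 0 ≤ sv B Q) (hR : R ⊆ T)
    (hP : Sp.MinP F F U (slf B F) R (slj B Q F) P) {a : V → Finset (Finset V) → ℕ}
    (hs : ∀ u ∈ Sp.Ux U (slf B F) P, ∀ C ∈ P, 0 < a u C → C ∈ Sp.met P (slf B F u))
    (ht : ∀ u ∈ Sp.Ux U (slf B F) P, ∑ C ∈ P, a u C = 5 - uo B Q T U F u)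
    {l : ι → Finset (Finset (Finset V))}
    (hl : Sp.Lnf U (slf B F) P (Sp.T2 U (slf B F) R (slj B Q F) P) l)
    (X clm : ι → Finset (Finset V) → ℤ) (t : ι → ℤ) (HT : ∑ j ∈ T, t j ≤ 112)
    (HX : ∑ j ∈ Trs B Q T R U F P, ∑ C ∈ P, X j C ≤
      8 * ∑ j ∈ Trs B Q T R U F P, sT B Q T U F 15 j + ∑ j ∈ Trs B Q T R U F P, t j)
    (H0 : ∀ C ∈ P, (Sp.atl (Sp.T2 U (slf B F) R (slj B Q F) P) l C).card = 0 →
      mis B Q T R U F P a l X C ≤ ∑ k ∈ Sp.Kin R (slj B Q F) C, t k)
    (HN : ∀ C ∈ P, 2 ≤ (Sp.atl (Sp.T2 U (slf B F) R (slj B Q F) P) l C).card →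
      mis B Q T R U F P a l X C ≤
        ∑ j ∈ Sp.atl (Sp.T2 U (slf B F) R (slj B Q F) P) l C, clm j C +
        ∑ k ∈ Sp.Kin R (slj B Q F) C, t k)
    (HL : ∀ j ∈ Sp.T2 U (slf B F) R (slj B Q F) P,
      ∑ C ∈ (l j).filter (fun C =>
          (Sp.atl (Sp.T2 U (slf B F) R (slj B Q F) P) l C).card = 1),
        (mis B Q T R U F P a l X C - ∑ k ∈ Sp.Kin R (slj B Q F) C, t k) +
      ∑ C ∈ (l j).filter (fun C =>
          2 ≤ (Sp.atl (Sp.T2 U (slf B F) R (slj B Q F) P) l C).card), clm j C ≤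
        8 * sT B Q T U F 15 j + t j - 1120 +
          168 * ∑ u ∈ Sp.UU U (slf B F) P (l j), (uo B Q T U F u : ℤ)) :
    2 * (ee B Q Q : ℤ) ≤ Pv B Q := by
  set Tl := Sp.T2 U (slf B F) R (slj B Q F) P with hTl
  set w : Finset (Finset V) → ℤ := fun C => ∑ k ∈ Sp.Kin R (slj B Q F) C, t k with hw
  set e : ι → Finset (Finset V) → ℤ := fun j C =>
    if C ∈ l j then (if (Sp.atl Tl l C).card = 1 then mis B Q T R U F P a l X C - w C
      else clm j C)
    else 0 with he
  refine h.of_nodes8w hr hsv hR hP hs ht hl e X w ?_ fun C hC => ?_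
  · rw [← hTl]
    have h1 : ∑ j ∈ Tl, (1120 + ∑ C ∈ P, e j C) ≤ ∑ j ∈ Tl, (8 * sT B Q T U F 15 j +
        (t j + 168 * ∑ u ∈ Sp.UU U (slf B F) P (l j), (uo B Q T U F u : ℤ))) := by
      refine sum_le_sum fun j hj => ?_
      have h2 : ∑ C ∈ P, e j C = ∑ C ∈ l j,
          (if (Sp.atl Tl l C).card = 1 then mis B Q T R U F P a l X C - w C
            else clm j C) := by
        rw [he]
        dsimp only
        rw [← sum_filter]
        congr 1
        ext C
        rw [mem_filter]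
        exact ⟨fun h3 => h3.2, fun h3 => ⟨hl.sub j hj h3, h3⟩⟩
      have h3 : ∑ C ∈ l j,
          (if (Sp.atl Tl l C).card = 1 then mis B Q T R U F P a l X C - w C
            else clm j C) =
          ∑ C ∈ (l j).filter (fun C => (Sp.atl Tl l C).card = 1),
            (mis B Q T R U F P a l X C - w C) +
          ∑ C ∈ (l j).filter (fun C => 2 ≤ (Sp.atl Tl l C).card), clm j C := by
        rw [sum_ite]
        congr 1
        refine sum_congr ?_ fun _ _ => rfl
        ext C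
        rw [mem_filter, mem_filter]
        constructor
        · rintro ⟨h4, h5⟩
          have h6 : 0 < (Sp.atl Tl l C).card := card_pos.2 ⟨j, Sp.mem_atl.2 ⟨hj, h4⟩⟩
          exact ⟨h4, by omega⟩
        · rintro ⟨h4, h5⟩
          exact ⟨h4, by omega⟩
      have h4 := HL j hj
      rw [h2, h3]
      linarith
    have h9 := sum_T hP hR t
    rw [sum_add_distrib (s := Tl) (f := fun j => 8 * sT B Q T U F 15 j), ← mul_sum,
      sum_add_distrib (s := Tl) (f := t), ← mul_sum] at h1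
    rw [← hTl] at h9
    linarith
  · have hsub : Sp.atl Tl l C ⊆ Tl := filter_subset _ _
    have h1 : ∑ j ∈ Tl, e j C = ∑ j ∈ Sp.atl Tl l C,
        (if (Sp.atl Tl l C).card = 1 then mis B Q T R U F P a l X C - w C
          else clm j C) := by
      rw [he]
      dsimp only
      rw [← sum_filter]
      rfl
    rw [← hTl, h1]
    rcases Nat.lt_or_ge (Sp.atl Tl l C).card 1 with h2 | h2
    · have h3 := H0 C hC (by omega)
      have h4 : Sp.atl Tl l C = ∅ := card_eq_zero.1 (by omega)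
      unfold mis at h3
      rw [← hTl] at h3
      rw [h4] at h3 ⊢
      rw [sum_empty] at h3 ⊢
      rw [sum_empty]
      linarith
    · rcases h2.eq_or_lt with h3 | h3
      · have h4 : ∑ j ∈ Sp.atl Tl l C,
            (if (Sp.atl Tl l C).card = 1 then mis B Q T R U F P a l X C - w C
              else clm j C) = mis B Q T R U F P a l X C - w C := by
          simp only [← h3, if_true]
          rw [sum_const, ← h3, one_smul]
        rw [h4]
        unfold mis
        rw [← hTl]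
        linarith
      · have h4 := HN C hC (by omega)
        have h5 : ∑ j ∈ Sp.atl Tl l C,
            (if (Sp.atl Tl l C).card = 1 then mis B Q T R U F P a l X C - w C
              else clm j C) = ∑ j ∈ Sp.atl Tl l C, clm j C := by
          refine sum_congr rfl fun j _ => ?_
          rw [if_neg (by omega)]
        rw [h5]
        unfold mis at h4
        rw [← hTl] at h4
        linarith

end Frm

namespace Frm

variable {Q U : Finset V} {T R : Finset ι} {F : Finset (Finset V)}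
  {P : Finset (Finset (Finset V))}

omit [DecidableEq ι] in
/-- a point of a triple has at most four hits on the leaves. -/
theorem four_t (h : Frm B Q T U F) (hr : Reg B Q) {j : ι} (hj : j ∈ T) {p : V}
    (hp : p ∈ B j ∩ Q) : ∑ L ∈ F, uh B p L ≤ 4 := by
  classical
  have h1 : ∑ L ∈ F, uh B p L = hit B {p} (F.biUnion id) := (hit_biUnion _ h.sepF).symm
  rw [h1, hit_eq, sum_singleton]
  have hjn : j ∉ univ.filter (fun i => p ∈ B i ∧ (B i ∩ F.biUnion id).Nonempty) := by
    intro hk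
    obtain ⟨_, _, w, hw⟩ := mem_filter.1 hk
    obtain ⟨hwk, hwF⟩ := mem_inter.1 hw
    obtain ⟨C, hC, hwC⟩ := mem_biUnion.1 hwF
    exact (mem_sdiff.1 (h.FD hC hwC)).2 (mem_biUnion.2 ⟨j, hj, hwk⟩)
  have h3 : insert j
      (univ.filter (fun i => p ∈ B i ∧ (B i ∩ F.biUnion id).Nonempty)) ⊆
      univ.filter (fun i => p ∈ B i) := by
    intro k hk
    rw [mem_insert] at hk
    rcases hk with rfl | hk
    · exact mem_filter.2 ⟨mem_univ _, (mem_inter.1 hp).1⟩
    · exact mem_filter.2 ⟨mem_univ _, (mem_filter.1 hk).2.1⟩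
  have h5 := card_le_card h3
  rw [card_insert_of_notMem hjn, hr p (mem_inter.1 hp).2] at h5
  omega

omit [DecidableEq ι] in
/-- the hits of a point on the classes. -/
theorem uC_all (hP : Sp.MinP F F U (slf B F) R (slj B Q F) P) (p : V) :
    ∑ C ∈ P, uC B p C = ∑ L ∈ F, uh B p L := (sum_leaves hP (fun L => uh B p L)).symm

omit [DecidableEq ι] in
/-- the hits of a triple on the classes. -/
theorem jC_all (hP : Sp.MinP F F U (slf B F) R (slj B Q F) P) (j : ι) :
    ∑ C ∈ P, jC B Q j C = ∑ L ∈ F, jh B Q j L := (sum_leaves hP (fun L => jh B Q j L)).symm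

omit [DecidableEq ι] in
/-- no hits on a class which is not seen. -/
theorem uC_zero (h : Frm B Q T U F) (hP : Sp.MinP F F U (slf B F) R (slj B Q F) P) {j : ι}
    (hj : j ∈ T) {p : V} (hp : p ∈ B j ∩ Q) {C : Finset (Finset V)} (hC : C ∈ P)
    (hs : Disjoint (slf B F p) C) : uC B p C = 0 := by
  unfold uC
  refine sum_eq_zero fun L hL => ?_
  have hLF : L ∈ F := (hP.ptn.vc C hC).sub hL
  exact uh_zero hLF (h.T_notin hj hp hLF) fun h1 => disjoint_left.1 hs h1 hL

/-- **type B**: the points `a`, `b` see only the class `C`, the point `b` sees it, the point `c` sees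
another class (used for the parallel classes). The point `a` may see no leaf. -/
structure _root_.Pool.Agent.Hyp6.BT (B : ι → Finset V) (Q : Finset V) (F : Finset (Finset V))
    (P : Finset (Finset (Finset V))) (j : ι) (a b c : V) (C : Finset (Finset V)) : Prop where
  eq : B j ∩ Q = {a, b, c}
  ab : a ≠ b
  ac : a ≠ c
  bc : b ≠ c
  nb : (slf B F b).Nonempty
  mem : C ∈ P
  sa : slf B F a ⊆ C
  sb : slf B F b ⊆ C
  nsc : ¬ slf B F c ⊆ C

omit [DecidableEq ι] in
/-- the rank of a triple of type 2 of the partition, on the parallel classes. -/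
theorem rank_T2 (h : Frm B Q T U F)
    (hP : Sp.MinP F F U (slf B F) (Rg B Q T U F) (slj B Q F) P) {j : ι}
    (hj : j ∈ Sp.T2 U (slf B F) (Rg B Q T U F) (slj B Q F) P) :
    rkc B U F (par0 B U F) (mcj B Q F (par0 B U F) j) = 2 ∧
      Sp.Line U (slf B F) (par0 B U F) (lnj B Q U F (par0 B U F) j) := by
  classical
  obtain ⟨h1, h2⟩ := mem_filter.1 hj
  have h3 := (mem_Rg.1 (mem_filter.1 h1).1).2.2
  have h4 := (par0_spec U F).rk_le (h.gdT (R := Rg B Q T U F)) hP (X := slj B Q F j)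
    slj_sub
  have h5 : rkc B U F (par0 B U F) (mcj B Q F (par0 B U F) j) = 2 := by
    unfold rkc mcj at h3 ⊢
    omega
  exact ⟨h5, (par0_spec U F).line h.sur mcj_sub h5⟩

omit [DecidableEq ι] in
/-- **the types of the remaining triples**. -/
theorem types_trs' [DecidableEq ι] (h : Frm B Q T U F)
    (hP : Sp.MinP F F U (slf B F) (Rg B Q T U F) (slj B Q F) P) {j : ι}
    (hj : j ∈ Trs B Q T (Rg B Q T U F) U F P) :
    j ∈ T ∧ (1 ≤ ja B Q (Ep B Q T U F) j ∨
      (ja B Q (Ep B Q T U F) j = 0 ∧ (slj B Q F j = ∅ ∨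
        (3 ≤ rkc B U F (par0 B U F) (mcj B Q F (par0 B U F) j) ∧
          ((∃ p ∈ B j ∩ Q, slf B F p = ∅) ∨
            ∃ a b c D, BT B Q F (par0 B U F) j a b c D))))) := by
  obtain ⟨h1, h2⟩ := mem_sdiff.1 hj
  obtain ⟨hjT, h3⟩ := mem_sdiff.1 h1
  refine ⟨hjT, ?_⟩
  rcases Nat.eq_zero_or_pos (ja B Q (Ep B Q T U F) j) with h0 | h0
  swap
  · exact Or.inl h0
  refine Or.inr ⟨h0, ?_⟩
  rcases (slj B Q F j).eq_empty_or_nonempty with hne | hne
  · exact Or.inl hne
  right
  have hg := h.gdT (R := Rg B Q T U F)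
  have hp := par0_spec (B := B) U F
  have hnn := (hp.nul h.sur).nonneg (mcj B Q F (par0 B U F) j)
  have hrank : 3 ≤ rkc B U F (par0 B U F) (mcj B Q F (par0 B U F) j) := by
    by_contra hcon
    have hjR : j ∈ Rg B Q T U F := mem_Rg.2 ⟨hjT, h0, by omega⟩
    have hno : ∀ C ∈ P, ¬ slj B Q F j ⊆ C := fun C hC hsub =>
      h3 (mem_biUnion.2 ⟨C, hC, mem_filter.2 ⟨hjR, hne, hsub⟩⟩)
    have hTx : j ∈ Sp.Tx (Rg B Q T U F) (slj B Q F) P := mem_filter.2 ⟨hjR, hne, hno⟩
    have hrk : Sp.rkn (Sp.nP U (slf B F) P) (Sp.met P (slj B Q F j)) ≠ 2 := fun h6 =>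
      h2 (mem_filter.2 ⟨hTx, h6⟩)
    have h4 := hp.rk_le hg hP (X := slj B Q F j) slj_sub
    obtain ⟨C, D, hC, hD, hCD⟩ : ∃ C D, C ∈ Sp.met P (slj B Q F j) ∧
        D ∈ Sp.met P (slj B Q F j) ∧ C ≠ D := by
      have h6 : 1 < (Sp.met P (slj B Q F j)).card :=
        hP.ptn.two_met (hg.NTs j hjR) hne hno
      obtain ⟨C, hC, D, hD, hne'⟩ := one_lt_card.1 h6
      exact ⟨C, D, hC, hD, hne'⟩
    have h6 := hP.pair hg (Sp.met_subset hC) (Sp.met_subset hD) hCD
    have h7 : Sp.rkn (Sp.nP U (slf B F) P) {C, D} ≤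
        Sp.rkn (Sp.nP U (slf B F) P) (Sp.met P (slj B Q F j)) :=
      (hP.nul hg).rk_mono (insert_subset hC (singleton_subset_iff.2 hD))
    unfold Sp.rkn at h7
    rw [card_pair hCD] at h7
    unfold rkc mcj at hcon
    unfold Sp.rkn at h4 hrk hcon
    omega
  refine ⟨hrank, ?_⟩
  have hc1 : ¬ (mcj B Q F (par0 B U F) j).card ≤ 1 := by
    intro hc
    unfold rkc Sp.rkn at hrank
    omega
  rcases h.types_par hp hjT with h4 | h4 | h4 | h4
  · exact absurd h4 hc1
  · exfalso
    have h5 := h4.rk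
    unfold lnj at h5
    rw [(hp.nul h.sur).rk_clo mcj_sub] at h5
    unfold rkc at hrank
    omega
  · exact Or.inl h4.2
  · obtain ⟨_, a, b, c, hT, hab, hac, hbc, _, nb, C, hC, h5, h6⟩ := h4
    refine Or.inr ⟨a, b, c, C, hT, hab, hac, hbc, nb, hC, h5, h6, fun h7 => hc1 ?_⟩
    refine card_le_one.2 fun D hD E hE => ?_
    have key : ∀ D ∈ mcj B Q F (par0 B U F) j, D = C := by
      intro D hD
      obtain ⟨h8, h9⟩ := Sp.mem_met.1 hD
      obtain ⟨L, hL, hLD⟩ := not_disjoint_iff.1 h9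
      unfold slj at hL
      rw [hT] at hL
      obtain ⟨p, hp', hLp⟩ := mem_biUnion.1 hL
      have hLC : L ∈ C := by
        simp only [mem_insert, mem_singleton] at hp'
        rcases hp' with rfl | rfl | rfl
        · exact h5 hLp
        · exact h6 hLp
        · exact h7 hLp
      by_contra hne'
      exact disjoint_left.1 (hp.dj h8 hC hne') hLD hLC
    rw [key D hD, key E hE]

/-- the types of the remaining triples, short form. -/
theorem types_trs (h : Frm B Q T U F)
    (hP : Sp.MinP F F U (slf B F) (Rg B Q T U F) (slj B Q F) P) {j : ι}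
    (hj : j ∈ Trs B Q T (Rg B Q T U F) U F P) :
    j ∈ T ∧ (1 ≤ ja B Q (Ep B Q T U F) j ∨
      (ja B Q (Ep B Q T U F) j = 0 ∧ ((∃ p ∈ B j ∩ Q, slf B F p = ∅) ∨
        ∃ a b c D, BT B Q F (par0 B U F) j a b c D))) := by
  obtain ⟨h1, h2⟩ := h.types_trs' hP hj
  refine ⟨h1, h2.imp_right fun h3 => ⟨h3.1, ?_⟩⟩
  rcases h3.2 with h4 | ⟨_, h4⟩
  · obtain ⟨a, b, c, hT, _⟩ := h.three_points h1
    have ha : a ∈ B j ∩ Q := by rw [hT]; simp
    refine Or.inl ⟨a, ha, ?_⟩
    rw [← subset_empty, ← h4]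
    exact subset_biUnion_of_mem (slf B F) ha
  · exact h4

/-- the payment for a hit of a triple with `h >= 5` hits and a dead point, at most
`(1320 - 16 h) / h`. -/
def _root_.Pool.Agent.Hyp6.vD (v : ℤ) (h : ℕ) : ℤ :=
  if h ≤ 5 then 248 else if h = 6 then 204 else if h = 7 then 172 else v

/-- the payment for a hit of a triple with `h >= 5` hits and claims. -/
def _root_.Pool.Agent.Hyp6.vC (v : ℤ) (h : ℕ) : ℤ :=
  if h ≤ 5 then 200 else if h = 6 then 168 else v

theorem _root_.Pool.Agent.Hyp6.vC_ge (h : ℕ) : 149 ≤ vC 149 h := by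
  unfold vC
  split_ifs <;> norm_num

/-- `a` or `b` has a full hit on a leaf of the parallel class `D`. -/
def _root_.Pool.Agent.Hyp6.PoorF (B : ι → Finset V) (a b : V) (D : Finset (Finset V)) : Prop :=
  ∃ L ∈ D, ∃ i, (a ∈ B i ∨ b ∈ B i) ∧ 2 ≤ (B i ∩ L).card

/-- the third point `c` has four leaf hits and `D` is a point `W` which is a class of `P`, with no hit
of `U` and with five hits of `a`, `b`. -/
def _root_.Pool.Agent.Hyp6.PoorP (B : ι → Finset V) (Q U : Finset V) (F : Finset (Finset V))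
    (P : Finset (Finset (Finset V))) (a b c : V) (D : Finset (Finset V)) : Prop :=
  ∑ L ∈ F, uh B c L = 4 ∧ ∃ W, D = {W} ∧ {W} ∈ P ∧ W.card = 1 ∧ hit B U W = 0 ∧
    uh B a W + uh B b W + 2 * ee B Q W = 5

/-- a full hit of the point `c` on a leaf with three points and one single trace, which is a class
without line triples and has no hit of `U`. -/
def _root_.Pool.Agent.Hyp6.FulC (B : ι → Finset V) (Q : Finset V) (T : Finset ι) (U : Finset V)
    (F : Finset (Finset V)) (P : Finset (Finset (Finset V))) (c : V) : Prop :=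
  ∃ M, {M} ∈ P ∧ M.card = 3 ∧ nt B M 1 = 1 ∧ hit B U M = 0 ∧ aC B Q T U F P {M} = ∅ ∧
    ∃ i, c ∈ B i ∧ 2 ≤ (B i ∩ M).card

open Classical in
/-- the payment for a hit of the third point of a triple of type B. -/
noncomputable def _root_.Pool.Agent.Hyp6.rB (B : ι → Finset V) (Q : Finset V) (T : Finset ι)
    (U : Finset V) (F : Finset (Finset V)) (P : Finset (Finset (Finset V))) (a b c : V)
    (D : Finset (Finset V)) : ℤ :=
  if PoorF B a b D then 149 else if PoorP B Q U F P a b c D then (if FulC B Q T U F P c then 163 else 149)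
    else 168

omit [DecidableEq ι] in
theorem rB_cases (Q : Finset V) (T : Finset ι) (U : Finset V) (F : Finset (Finset V))
    (P : Finset (Finset (Finset V))) (a b c : V) (D : Finset (Finset V)) :
    (rB B Q T U F P a b c D = 168 ∧ ¬ PoorF B a b D ∧ ¬ PoorP B Q U F P a b c D) ∨
    (rB B Q T U F P a b c D = 149 ∧
      (PoorF B a b D ∨ (PoorP B Q U F P a b c D ∧ ¬ FulC B Q T U F P c))) ∨
    (rB B Q T U F P a b c D = 163 ∧ ¬ PoorF B a b D ∧ PoorP B Q U F P a b c D ∧
      FulC B Q T U F P c) := by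
  classical
  unfold rB
  by_cases h : PoorF B a b D
  · rw [if_pos h]
    exact Or.inr (Or.inl ⟨rfl, Or.inl h⟩)
  · rw [if_neg h]
    by_cases h2 : PoorP B Q U F P a b c D
    · rw [if_pos h2]
      by_cases h3 : FulC B Q T U F P c
      · rw [if_pos h3]
        exact Or.inr (Or.inr ⟨rfl, h, h2, h3⟩)
      · rw [if_neg h3]
        exact Or.inr (Or.inl ⟨rfl, Or.inr ⟨h2, h3⟩⟩)
    · rw [if_neg h2]
      exact Or.inl ⟨rfl, h, h2⟩

omit [DecidableEq ι] in
theorem rB_ge (Q : Finset V) (T : Finset ι) (U : Finset V) (F : Finset (Finset V))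
    (P : Finset (Finset (Finset V))) (a b c : V) (D : Finset (Finset V)) : 149 ≤ rB B Q T U F P a b c D := by
  rcases rB_cases (B := B) Q T U F P a b c D with h | h | h <;> rw [h.1] <;> norm_num

omit [DecidableEq ι] in
theorem rB_le (Q : Finset V) (T : Finset ι) (U : Finset V) (F : Finset (Finset V))
    (P : Finset (Finset (Finset V))) (a b c : V) (D : Finset (Finset V)) : rB B Q T U F P a b c D ≤ 168 := by
  rcases rB_cases (B := B) Q T U F P a b c D with h | h | h <;> rw [h.1] <;> norm_num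

/-- the data of a claim: the pattern with the free point `a` at a private point `x` without hits of `U`,
which is not the parallel class of the two points `a'`, `b'` of another triple of type B which meets
`k0`, unless `a'` sees no leaf and is not in `k0`. -/
structure _root_.Pool.Agent.Hyp6.Pcl (B : ι → Finset V) (Q : Finset V) (T : Finset ι)
    (U : Finset V) (F : Finset (Finset V)) (P : Finset (Finset (Finset V))) (j i k0 : ι)
    (a b c x : V) : Prop extends Pxf B Q T U F j i k0 a b c x where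
  g0 : hit B U {x} = 0
  xP : {{x}} ∈ P
  priv : aC B Q T U F P {{x}} = {j}
  nc : ∀ k ∈ T, k ≠ j → (B k0 ∩ (B k ∩ Q)).Nonempty → ∀ a' b' c',
    BT B Q F (par0 B U F) k a' b' c' {{x}} → slf B F a' = ∅ ∧ a' ∉ B k0

open Classical in
/-- the blocks of the claims: the inner blocks of the patterns with three or more hits on the other
leaves and of those whose third point is claimed. -/
noncomputable def _root_.Pool.Agent.Hyp6.Kf (B : ι → Finset V) (Q : Finset V) (T : Finset ι)
    (U : Finset V) (F : Finset (Finset V)) (P : Finset (Finset (Finset V))) : Finset ι :=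
  univ.filter fun k0 => ∃ (j i : ι) (a b c x : V), Pcl B Q T U F P j i k0 a b c x ∧
    (3 ≤ mh B b ((F.erase {x}).biUnion id) + mh B c ((F.erase {x}).biUnion id) ∨
      ∃ (j' i' k0' : ι) (a' b' c' x' : V), Pcl B Q T U F P j' i' k0' a' b' c' x' ∧ c ∈ B k0')

omit [DecidableEq ι] in
theorem _root_.Pool.Agent.Hyp6.mem_Kf {Q : Finset V} {T : Finset ι} {U : Finset V}
    {F : Finset (Finset V)} {P : Finset (Finset (Finset V))} {k0 : ι} :
    k0 ∈ Kf B Q T U F P ↔ ∃ (j i : ι) (a b c x : V), Pcl B Q T U F P j i k0 a b c x ∧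
      (3 ≤ mh B b ((F.erase {x}).biUnion id) + mh B c ((F.erase {x}).biUnion id) ∨
        ∃ (j' i' k0' : ι) (a' b' c' x' : V),
          Pcl B Q T U F P j' i' k0' a' b' c' x' ∧ c ∈ B k0') := by
  classical
  unfold Kf
  rw [mem_filter]
  exact ⟨fun h => h.2, fun h => ⟨mem_univ _, h⟩⟩

/-- the number of claims on the triple `j`. -/
noncomputable abbrev _root_.Pool.Agent.Hyp6.ncl (B : ι → Finset V) (Q : Finset V) (T : Finset ι)
    (U : Finset V) (F : Finset (Finset V)) (P : Finset (Finset (Finset V))) (j : ι) : ℕ :=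
  ncK B Q (Kf B Q T U F P) j

/-- the transfers. -/
noncomputable abbrev _root_.Pool.Agent.Hyp6.tF (B : ι → Finset V) (Q : Finset V) (T : Finset ι)
    (U : Finset V) (F : Finset (Finset V)) (P : Finset (Finset (Finset V))) (j : ι) : ℤ :=
  tfr 80 B Q (Kf B Q T U F P) j

/-- no claim at the points `a`, `b` of the triple `j`. -/
def _root_.Pool.Agent.Hyp6.NoCl (B : ι → Finset V) (Q : Finset V) (K : Finset ι) (j : ι)
    (a b : V) : Prop :=
  ∀ k0 ∈ K, (B k0 ∩ (B j ∩ Q)).card = 1 → a ∉ B k0 ∧ b ∉ B k0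

omit [Fintype ι] [DecidableEq ι] in
theorem _root_.Pool.Agent.Hyp6.NoCl.of_zero {Q : Finset V} {K : Finset ι} {j : ι}
    (h : ncK B Q K j = 0) (a b : V) : NoCl B Q K j a b := by
  intro k0 hk0 h1
  exfalso
  unfold ncK at h
  rw [card_eq_zero, filter_eq_empty_iff] at h
  exact h hk0 h1

/-- a triple of type B without claims at the two points, with at most four hits of the third point and
claims. -/
structure _root_.Pool.Agent.Hyp6.BTc (B : ι → Finset V) (Q : Finset V) (T : Finset ι)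
    (U : Finset V) (F : Finset (Finset V)) (P : Finset (Finset (Finset V))) (j : ι)
    (a b c : V) (D : Finset (Finset V)) : Prop extends BT B Q F (par0 B U F) j a b c D where
  nocl : NoCl B Q (Kf B Q T U F P) j a b
  cc : ∑ C ∈ P, uC B c C + ncl B Q T U F P j ≤ 4

open Classical in
/-- the payments of the remaining triples, units `1 / 120`: `392` for every hit of a special triple
(`200` if there is a claim on it), `312` for every hit of a triple with at most four hits (`234` if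
there is a claim on it), `rB`
(`168` or `149`) for every hit of the third point and the rest at the centre (the class which contains
the parallel class of the two points) for type B without claims at the two points, `vD v h` (`v` if
there is a claim on the triple) for every hit in the last case. -/
noncomputable def _root_.Pool.Agent.Hyp6.Xv (v : ℤ) (B : ι → Finset V) (Q : Finset V)
    (T : Finset ι) (U : Finset V) (F : Finset (Finset V)) (P : Finset (Finset (Finset V)))
    (j : ι) (C : Finset (Finset V)) : ℤ :=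
  if 1 ≤ ja B Q (Ep B Q T U F) j then
    (if ncl B Q T U F P j = 0 then 392 else 200) * (jC B Q j C : ℤ)
  else if ∑ L ∈ F, jh B Q j L ≤ 4 then
    (if ncl B Q T U F P j = 0 then 312 else 234) * (jC B Q j C : ℤ)
  else if h : ∃ t : V × V × V × Finset (Finset V),
      BTc B Q T U F P j t.1 t.2.1 t.2.2.1 t.2.2.2 then
    rB B Q T U F P h.choose.1 h.choose.2.1 h.choose.2.2.1 h.choose.2.2.2 *
        (uC B h.choose.2.2.1 C : ℤ) +
      (if C ∈ P ∧ h.choose.2.2.2 ⊆ C then
        1320 - 80 * (ncl B Q T U F P j : ℤ) - 16 * ((∑ L ∈ F, jh B Q j L : ℕ) : ℤ) -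
          rB B Q T U F P h.choose.1 h.choose.2.1 h.choose.2.2.1 h.choose.2.2.2 *
            ((∑ C' ∈ P, uC B h.choose.2.2.1 C' : ℕ) : ℤ) else 0)
  else (if ncl B Q T U F P j = 0 then vD v (∑ L ∈ F, jh B Q j L)
    else vC v (∑ L ∈ F, jh B Q j L)) * (jC B Q j C : ℤ)

omit [DecidableEq ι] in
/-- the hits of a triple of type B: those of the two points are on the class of `P` which contains
their parallel class. -/
theorem BT_hits (h : Frm B Q T U F) (hr : Reg B Q)
    (hP : Sp.MinP F F U (slf B F) (Rg B Q T U F) (slj B Q F) P) {j : ι} (hjT : j ∈ T)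
    {a b c : V} {D C0 : Finset (Finset V)} (hB : BT B Q F (par0 B U F) j a b c D)
    (hC0 : C0 ∈ P) (hD : D ⊆ C0) :
    (∑ L ∈ F, jh B Q j L = uC B a C0 + uC B b C0 + ∑ C ∈ P, uC B c C) ∧
      ∑ C ∈ P, uC B c C ≤ 4 := by
  have ha : a ∈ B j ∩ Q := by rw [hB.eq]; simp
  have hb : b ∈ B j ∩ Q := by rw [hB.eq]; simp
  have hc : c ∈ B j ∩ Q := by rw [hB.eq]; simp
  have hone : ∀ p ∈ B j ∩ Q, slf B F p ⊆ C0 → ∑ C ∈ P, uC B p C = uC B p C0 := by
    intro p hp hs
    refine sum_eq_single_of_mem C0 hC0 fun C hC hne => ?_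
    refine h.uC_zero hP hjT hp hC ?_
    exact (hP.ptn.dj C0 hC0 C hC (Ne.symm hne)).mono_left hs
  have e1 := hone a ha (hB.sa.trans hD)
  have e2 := hone b hb (hB.sb.trans hD)
  have e3 : ∑ L ∈ F, jh B Q j L = ∑ C ∈ P, uC B a C + ∑ C ∈ P, uC B b C +
      ∑ C ∈ P, uC B c C := by
    rw [uC_all hP, uC_all hP, uC_all hP, ← sum_add_distrib, ← sum_add_distrib]
    refine sum_congr rfl fun L _ => ?_
    rw [jh_sum, hB.eq, sum_insert (by simp [hB.ab, hB.ac]), sum_pair hB.bc, add_assoc]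
  refine ⟨by rw [e3, e1, e2], ?_⟩
  rw [uC_all hP]
  exact h.four_t hr hjT hc

/-- the payments in the four cases. In type B the number of hits of the third point is
`∑ C ∈ P, uC B c C`. -/
theorem Xv_cases (h : Frm B Q T U F) (hr : Reg B Q)
    (hP : Sp.MinP F F U (slf B F) (Rg B Q T U F) (slj B Q F) P) (v : ℤ) {j : ι}
    (hj : j ∈ Trs B Q T (Rg B Q T U F) U F P) :
    (1 ≤ ja B Q (Ep B Q T U F) j ∧ ∀ C, Xv v B Q T U F P j C =
      (if ncl B Q T U F P j = 0 then 392 else 200) * (jC B Q j C : ℤ)) ∨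
    (ja B Q (Ep B Q T U F) j = 0 ∧ ∑ L ∈ F, jh B Q j L ≤ 4 ∧
      ∀ C, Xv v B Q T U F P j C =
        (if ncl B Q T U F P j = 0 then 312 else 234) * (jC B Q j C : ℤ)) ∨
    (ja B Q (Ep B Q T U F) j = 0 ∧ 5 ≤ ∑ L ∈ F, jh B Q j L ∧
      ∃ a b c D C0, BTc B Q T U F P j a b c D ∧ C0 ∈ P ∧ D ⊆ C0 ∧
        ∑ C ∈ P, uC B c C ≤ 4 ∧
        ∀ C ∈ P, Xv v B Q T U F P j C = rB B Q T U F P a b c D * (uC B c C : ℤ) +
          (if C = C0 then 1320 - 80 * (ncl B Q T U F P j : ℤ) -
            16 * ((uC B a C0 : ℤ) + uC B b C0) -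
            (16 + rB B Q T U F P a b c D) * ((∑ C ∈ P, uC B c C : ℕ) : ℤ) else 0)) ∨
    (ja B Q (Ep B Q T U F) j = 0 ∧ 5 ≤ ∑ L ∈ F, jh B Q j L ∧
      (∀ a b c D, ¬ BTc B Q T U F P j a b c D) ∧
      (((∃ p ∈ B j ∩ Q, slf B F p = ∅) ∧ (∀ a b c D, ¬ BT B Q F (par0 B U F) j a b c D)) ∨
        (0 < ncl B Q T U F P j ∧ ∃ a b c D, BT B Q F (par0 B U F) j a b c D ∧
          (4 < ∑ C ∈ P, uC B c C + ncl B Q T U F P j ∨
            ∃ k0 ∈ Kf B Q T U F P, (B k0 ∩ (B j ∩ Q)).card = 1 ∧ (a ∈ B k0 ∨ b ∈ B k0)))) ∧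
      ∀ C, Xv v B Q T U F P j C = (if ncl B Q T U F P j = 0 then
        vD v (∑ L ∈ F, jh B Q j L) else vC v (∑ L ∈ F, jh B Q j L)) * (jC B Q j C : ℤ)) := by
  classical
  obtain ⟨hjT, hty⟩ := h.types_trs hP hj
  have hg := h.gdT (R := Rg B Q T U F)
  by_cases h1 : 1 ≤ ja B Q (Ep B Q T U F) j
  · refine Or.inl ⟨h1, fun C => ?_⟩
    unfold Xv
    rw [if_pos h1]
  have h1' : ja B Q (Ep B Q T U F) j = 0 := by omega
  by_cases h2 : ∑ L ∈ F, jh B Q j L ≤ 4
  · refine Or.inr (Or.inl ⟨h1', h2, fun C => ?_⟩)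
    unfold Xv
    rw [if_neg h1, if_pos h2]
  by_cases h3 : ∃ t : V × V × V × Finset (Finset V),
      BTc B Q T U F P j t.1 t.2.1 t.2.2.1 t.2.2.2
  · have hB := h3.choose_spec
    have hp := par0_spec (B := B) U F
    obtain ⟨C0, hC0, hDC⟩ := hp.sub_class hg hP hB.mem
    obtain ⟨e3, h4⟩ := h.BT_hits hr hP hjT hB.toBT hC0 hDC
    refine Or.inr (Or.inr (Or.inl ⟨h1', by omega, _, _, _, _, C0, hB, hC0, hDC, h4,
      fun C hC => ?_⟩))
    have hiff : (C ∈ P ∧ h3.choose.2.2.2 ⊆ C) ↔ C = C0 := by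
      constructor
      · rintro ⟨_, h4⟩
        by_contra hne
        obtain ⟨L, hL⟩ := hp.ne hB.mem
        exact disjoint_left.1 (hP.ptn.dj C hC C0 hC0 hne) (h4 hL) (hDC hL)
      · rintro rfl
        exact ⟨hC, hDC⟩
    unfold Xv
    rw [if_neg h1, if_neg h2, dif_pos h3]
    congr 1
    by_cases h5 : C = C0
    · rw [if_pos h5, if_pos (hiff.2 h5), e3]
      push_cast
      ring
    · rw [if_neg h5, if_neg (fun h6 => h5 (hiff.1 h6))]
  · refine Or.inr (Or.inr (Or.inr ⟨h1', by omega, fun a b c D h4 => h3 ⟨(a, b, c, D), h4⟩, ?_,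
      fun C => ?_⟩))
    · by_cases h5 : ∃ a b c D, BT B Q F (par0 B U F) j a b c D
      · right
        obtain ⟨a, b, c, D, hB⟩ := h5
        have h6 : ¬ (NoCl B Q (Kf B Q T U F P) j a b ∧
            ∑ C ∈ P, uC B c C + ncl B Q T U F P j ≤ 4) := fun h7 =>
          h3 ⟨(a, b, c, D), hB, h7.1, h7.2⟩
        have hc4 : ∑ C ∈ P, uC B c C ≤ 4 := by
          rw [uC_all hP]
          exact h.four_t hr hjT (by rw [hB.eq]; simp)
        refine ⟨?_, a, b, c, D, hB, ?_⟩
        · by_contra h7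
          have h8 := Nat.eq_zero_of_not_pos h7
          exact h6 ⟨NoCl.of_zero h8 a b, by rw [h8]; exact hc4⟩
        · rw [not_and_or] at h6
          rcases h6 with h6 | h6
          · right
            unfold NoCl at h6
            push Not at h6
            obtain ⟨k0, hk0, h7, h8⟩ := h6
            refine ⟨k0, hk0, h7, ?_⟩
            by_cases h9 : a ∈ B k0
            · exact Or.inl h9
            · exact Or.inr (h8 h9)
          · left
            exact not_le.1 h6
      · left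
        refine ⟨?_, fun a b c D h6 => h5 ⟨a, b, c, D, h6⟩⟩
        rcases hty with h4 | ⟨_, h4 | h4⟩
        · exact absurd h4 h1
        · exact h4
        · exact absurd h4 h5
    · unfold Xv
      rw [if_neg h1, if_neg h2, dif_neg h3]

omit [DecidableEq ι] in
/-- a triple with a dead point has at most eight hits. -/
theorem eight_dead (h : Frm B Q T U F) (hr : Reg B Q) {j : ι} (hjT : j ∈ T)
    (hd : ∃ p ∈ B j ∩ Q, slf B F p = ∅) : ∑ L ∈ F, jh B Q j L ≤ 8 := by
  obtain ⟨p, hp, hps⟩ := hd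
  obtain ⟨x, y, z, hT, hxy, hxz, hyz⟩ := h.three_points hjT
  have e3 : ∑ L ∈ F, jh B Q j L = ∑ v ∈ B j ∩ Q, ∑ L ∈ F, uh B v L := by
    rw [sum_comm]
    exact sum_congr rfl fun L _ => jh_sum Q j L
  have e4 : ∑ L ∈ F, uh B p L = 0 := by
    refine sum_eq_zero fun L hL => uh_zero hL (h.T_notin hjT hp hL) ?_
    rw [hps]
    exact notMem_empty _
  have e5 : ∑ v ∈ (B j ∩ Q).erase p, ∑ L ∈ F, uh B v L ≤ ∑ v ∈ (B j ∩ Q).erase p, 4 :=
    sum_le_sum fun v hv => h.four_t hr hjT (mem_of_mem_erase hv)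
  rw [sum_const, card_erase_of_mem hp, hT, card_eq_three.2 ⟨x, y, z, hxy, hxz, hyz, rfl⟩,
    ← hT] at e5
  rw [e3, ← add_sum_erase _ _ hp, e4]
  simp only [smul_eq_mul] at e5
  omega

/-- **the payments of a remaining triple without claims are covered by its supply**. -/
theorem Xv_le (h : Frm B Q T U F) (hA : AlP B Q T U F) (hr : Reg B Q)
    (hP : Sp.MinP F F U (slf B F) (Rg B Q T U F) (slj B Q F) P) {v : ℤ} (hv : v ≤ 149) {j : ι}
    (hj : j ∈ Trs B Q T (Rg B Q T U F) U F P) (hc0 : ncl B Q T U F P j = 0) :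
    ∑ C ∈ P, Xv v B Q T U F P j C ≤ 8 * sT B Q T U F 15 j := by
  have hjT := (h.types_trs hP hj).1
  have hall : ∀ w : ℤ, ∑ C ∈ P, w * (jC B Q j C : ℤ) = w * ((∑ L ∈ F, jh B Q j L : ℕ) : ℤ) := by
    intro w
    rw [← mul_sum, ← jC_all hP j]
    push_cast
    rfl
  have hcast : ((∑ L ∈ F, jh B Q j L : ℕ) : ℤ) = ∑ L ∈ F, (jh B Q j L : ℤ) := by push_cast; rfl
  rcases h.Xv_cases hr hP v hj with ⟨h1, h2⟩ | ⟨h1, h2, h3⟩ |
    ⟨h1, h2, a, b, c, D, C0, hB, hC0, hD, _, h3⟩ | ⟨h1, h2, _, hdd, h3⟩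
  · simp only [if_pos hc0] at h2
    rw [sum_congr rfl fun C _ => h2 C, hall, hcast]
    have h4 := h.special_supplyPA hA hr hjT h1
    linarith
  · simp only [if_pos hc0] at h3
    rw [sum_congr rfl fun C _ => h3 C, hall, hcast]
    have h4 := h.few_supplyPA hA hr hjT h2
    linarith
  · rw [sum_congr rfl h3, sum_add_distrib, sum_ite_eq' P C0, if_pos hC0, ← mul_sum]
    obtain ⟨e3, h4⟩ := h.BT_hits hr hP hjT hB.toBT hC0 hD
    rw [h.plain_supplyP hr hjT h1, ← hcast, e3]
    have h6 : ∑ C ∈ P, (uC B c C : ℤ) = ((∑ C ∈ P, uC B c C : ℕ) : ℤ) := by push_cast; rfl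
    rw [h6, hc0]
    push_cast
    linarith
  · have hdd' : ∃ p ∈ B j ∩ Q, slf B F p = ∅ := by
      rcases hdd with h4 | h4
      · exact h4.1
      · exact (h4.1.ne' hc0).elim
    simp only [if_pos hc0] at h3
    have h8 := h.eight_dead hr hjT hdd'
    rw [sum_congr rfl fun C _ => h3 C, hall, h.plain_supplyP hr hjT h1, ← hcast]
    generalize ∑ L ∈ F, jh B Q j L = n at h2 h8
    have : n = 5 ∨ n = 6 ∨ n = 7 ∨ n = 8 := by omega
    rcases this with rfl | rfl | rfl | rfl
    · unfold vD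
      norm_num
    · unfold vD
      norm_num
    · unfold vD
      norm_num
    · unfold vD
      norm_num
      linarith

end Frm

/-- the own points of a line triple. -/
noncomputable abbrev oj (B : ι → Finset V) (Q U : Finset V) (F : Finset (Finset V))
    (P : Finset (Finset (Finset V))) (j : ι) : Finset V :=
  Sp.UU U (slf B F) P (lj B Q U F P j)

/-- what is missing at a class, with the payments `Xv v`. -/
noncomputable abbrev msC (v : ℤ) (B : ι → Finset V) (Q : Finset V) (T : Finset ι) (U : Finset V)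
    (F : Finset (Finset V)) (P : Finset (Finset (Finset V))) (a : V → Finset (Finset V) → ℕ)
    (C : Finset (Finset V)) : ℤ :=
  mis B Q T (Rg B Q T U F) U F P a (lj B Q U F P) (Xv v B Q T U F P) C

/-- **the setting of the rent proof**: a minimal counterexample with value at least one, a frame with
the smallest even part and the largest `U`, a minimal partition into classes for the ordinary
triples and a balanced distribution of the crossing points. -/
structure Stg (B : ι → Finset V) (Q : Finset V) (T : Finset ι) (U : Finset V)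
    (F : Finset (Finset V)) (P : Finset (Finset (Finset V)))
    (a : V → Finset (Finset V) → ℕ) : Prop where
  viol : ViolR B Q
  mte : MTE B Q T U F
  part : Sp.MinP F F U (slf B F) (Rg B Q T U F) (slj B Q F) P
  supp : ∀ u ∈ Sp.Ux U (slf B F) P, ∀ C ∈ P, 0 < a u C → C ∈ Sp.met P (slf B F u)
  sum5 : ∀ u ∈ Sp.Ux U (slf B F) P, ∑ C ∈ P, a u C = 5 - uo B Q T U F u
  cap : ∀ C ∈ P, Sp.ld (Sp.Ux U (slf B F) P) a C ≤ 5 + lsC B Q T U F C
  bal : ∀ C ∈ P, Sp.ld (Sp.Ux U (slf B F) P) a C = 5 + lsC B Q T U F C ∨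
    ∀ u ∈ Sp.Ux U (slf B F) P, uC B u C ≤ a u C

/-- every frame of the order has a setting. -/
theorem MTE.stg {Q : Finset V} {T : Finset ι} {U : Finset V} {F : Finset (Finset V)}
    (hM : MTE B Q T U F) (hv : ViolR B Q) : ∃ P a, Stg B Q T U F P a := by
  obtain ⟨P, hP⟩ := Sp.exists_minP F F U (slf B F) (Rg B Q T U F) (slj B Q F)
  obtain ⟨a, h1, h2, h3, h4⟩ := hM.frm.exists_bal hv.reg hP
  exact ⟨P, a, hv, hM, hP, h1, h2, h3, h4⟩

theorem ViolR.exists_stg {Q : Finset V} (hv : ViolR B Q) :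
    ∃ T U F P a, Stg B Q T U F P a := by
  obtain ⟨T, U, F, hM⟩ := exists_MTE (B := B) (Q := Q) hv.cov hv.tr
  obtain ⟨P, a, h⟩ := hM.stg hv
  exact ⟨T, U, F, P, a, h⟩

namespace Stg

variable {Q U : Finset V} {T : Finset ι} {F : Finset (Finset V)}
  {P : Finset (Finset (Finset V))} {a : V → Finset (Finset V) → ℕ}

theorem frm (s : Stg B Q T U F P a) : Frm B Q T U F := s.mte.frm

theorem alp (s : Stg B Q T U F P a) : AlP B Q T U F := s.mte.alp s.viol.reg

theorem lnf (s : Stg B Q T U F P a) :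
    Sp.Lnf U (slf B F) P (tl B Q T U F P) (lj B Q U F P) := s.frm.lnf s.part

/-- a line triple is an ordinary triple of the frame. -/
theorem tl_sub (s : Stg B Q T U F P a) {j : ι} (hj : j ∈ tl B Q T U F P) :
    j ∈ T ∧ ja B Q (Ep B Q T U F) j = 0 := by
  have _ := s.part
  obtain ⟨h1, h2, _⟩ := mem_Rg.1 (mem_filter.1 (mem_filter.1 hj).1).1
  exact ⟨h1, h2⟩

/-- the parallel partition. -/
theorem par (_s : Stg B Q T U F P a) : Sp.Par F U (slf B F) (par0 B U F) := par0_spec U F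

/-- the parallel classes are inside the classes. -/
theorem sub_class (s : Stg B Q T U F P a) {D : Finset (Finset V)} (hD : D ∈ par0 B U F) :
    ∃ C ∈ P, D ⊆ C := s.par.sub_class (s.frm.gdT (R := Rg B Q T U F)) s.part hD

/-- a line triple has rank two on the parallel classes. -/
theorem rank_tl (s : Stg B Q T U F P a) {j : ι} (hj : j ∈ tl B Q T U F P) :
    rkc B U F (par0 B U F) (mcj B Q F (par0 B U F) j) = 2 ∧
      Sp.Line U (slf B F) (par0 B U F) (lnj B Q U F (par0 B U F) j) :=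
  s.frm.rank_T2 s.part hj

/-- the triples inside a class. -/
theorem kin (_s : Stg B Q T U F P a) {C : Finset (Finset V)} {j : ι} :
    j ∈ Sp.Kin (Rg B Q T U F) (slj B Q F) C ↔ j ∈ T ∧ ja B Q (Ep B Q T U F) j = 0 ∧
      rkc B U F (par0 B U F) (mcj B Q F (par0 B U F) j) ≤ 2 ∧ (slj B Q F j).Nonempty ∧
        slj B Q F j ⊆ C := by
  unfold Sp.Kin
  rw [mem_filter, mem_Rg]
  tauto

/-- the supply of a line triple. -/
theorem sT_tl (s : Stg B Q T U F P a) {j : ι} (hj : j ∈ tl B Q T U F P) :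
    sT B Q T U F 15 j = 165 - 2 * ∑ L ∈ F, (jh B Q j L : ℤ) :=
  s.frm.plain_supplyP s.viol.reg (s.tl_sub hj).1 (s.tl_sub hj).2

/-- the leaf hits of a triple are at most twelve. -/
theorem jh_le (s : Stg B Q T U F P a) {j : ι} (hj : j ∈ T) : ∑ L ∈ F, jh B Q j L ≤ 12 := by
  have h1 := s.frm.twelve s.viol.reg hj
  omega

/-- **the assembly with transfers**: the triple `j` receives `t j`, in all at most `112`. -/
theorem fin_tr (s : Stg B Q T U F P a) {v : ℤ} (clm : ι → Finset (Finset V) → ℤ) (t : ι → ℤ)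
    (HT : ∑ j ∈ T, t j ≤ 112)
    (HX : ∀ j ∈ Trs B Q T (Rg B Q T U F) U F P,
      ∑ C ∈ P, Xv v B Q T U F P j C ≤ 8 * sT B Q T U F 15 j + t j)
    (H0 : ∀ C ∈ P, (aC B Q T U F P C).card = 0 →
      msC v B Q T U F P a C ≤ ∑ k ∈ Sp.Kin (Rg B Q T U F) (slj B Q F) C, t k)
    (HN : ∀ C ∈ P, 2 ≤ (aC B Q T U F P C).card →
      msC v B Q T U F P a C ≤ ∑ j ∈ aC B Q T U F P C, clm j C +
        ∑ k ∈ Sp.Kin (Rg B Q T U F) (slj B Q F) C, t k)
    (HL : ∀ j ∈ tl B Q T U F P,
      ∑ C ∈ (lj B Q U F P j).filter (fun C => (aC B Q T U F P C).card = 1),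
        (msC v B Q T U F P a C - ∑ k ∈ Sp.Kin (Rg B Q T U F) (slj B Q F) C, t k) +
      ∑ C ∈ (lj B Q U F P j).filter (fun C => 2 ≤ (aC B Q T U F P C).card), clm j C ≤
        8 * sT B Q T U F 15 j + t j - 1120 +
          168 * ∑ u ∈ oj B Q U F P j, (uo B Q T U F u : ℤ)) :
    False := by
  have h1 := s.frm.fin s.viol.reg (by have := s.viol.sv1; omega) Rg_sub s.part s.supp s.sum5 s.lnf
    (Xv v B Q T U F P) clm t HT (by
      have h2 : ∑ j ∈ Trs B Q T (Rg B Q T U F) U F P, ∑ C ∈ P, Xv v B Q T U F P j C ≤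
          ∑ j ∈ Trs B Q T (Rg B Q T U F) U F P, (8 * sT B Q T U F 15 j + t j) :=
        sum_le_sum HX
      rw [sum_add_distrib, ← mul_sum] at h2
      linarith) H0 HN HL
  have h2 := s.viol.neg
  unfold dv at h2
  linarith

/-- a line triple without own points sees exactly the two classes of its line. -/
theorem two_or (s : Stg B Q T U F P a) {j : ι} (hj : j ∈ tl B Q T U F P) :
    ((lj B Q U F P j).card = 2 ∧ oj B Q U F P j = ∅) ∨
      (3 ≤ (lj B Q U F P j).card ∧ 1 ≤ (oj B Q U F P j).card) := by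
  have h1 : (lj B Q U F P j).card = (oj B Q U F P j).card + 2 := s.lnf.card j hj
  rcases Nat.eq_zero_or_pos (oj B Q U F P j).card with h0 | h0
  · left
    exact ⟨by omega, card_eq_zero.1 h0⟩
  · right
    exact ⟨by omega, h0⟩

end Stg

end Pool.Agent.Hyp6
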