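import Pool.Agent.Hyp6.L3Fpi

/-!
# HYP6 L3Fk: claims on an inside triple of a single leaf

`kin_point`: an inside triple with claims of a point has at most nine hits and claims. `kin_31`: an
inside triple with claims of a leaf with three points and one single trace has at most eight hits and
claims.
-/

set_option autoImplicit false

namespace Pool.Agent.Hyp6

open Finset Pool.Agent.Hyp5 Rt

universe u v

variable {V : Type v} [DecidableEq V] {ι : Type u} [Fintype ι] [DecidableEq ι]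
  {B : ι → Finset V}

/-- the hits of a refused pair on three points with one single trace. -/
theorem refNum31 {s1 s2 s3 m12 m13 m23 a1 a2 a3 a12 a13 a23 x1 x2 x3 x12 x13 x23 : ℕ}
    (hs : s1 + s2 + s3 = 1) (g1 : s1 + m12 + m13 = 5) (g2 : s2 + m12 + m23 = 5)
    (g3 : s3 + m13 + m23 = 5) (c1 : a1 + x1 ≤ s1) (c2 : a2 + x2 ≤ s2) (c3 : a3 + x3 ≤ s3)
    (c12 : a12 + x12 ≤ m12) (c13 : a13 + x13 ≤ m13) (c23 : a23 + x23 ≤ m23)
    (t1 : a1 + a12 + a13 ≤ 3) (t2 : a2 + a12 + a23 ≤ 3) (t3 : a3 + a13 + a23 ≤ 3)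
    (u1 : x1 + x12 + x13 ≤ 3) (u2 : x2 + x12 + x23 ≤ 3) (u3 : x3 + x13 + x23 ≤ 3)
    (ha : a1 + a2 + a3 + a12 + a13 + a23 ≤ 4) (hx : x1 + x2 + x3 + x12 + x13 + x23 ≤ 4)
    (d1 : a23 = 0 ∨ x1 = 0) (d2 : a13 = 0 ∨ x2 = 0) (d3 : a12 = 0 ∨ x3 = 0)
    (e1 : a1 = 0 ∨ x23 = 0) (e2 : a2 = 0 ∨ x13 = 0) (e3 : a3 = 0 ∨ x12 = 0)
    (f1 : a12 = 0 ∨ x13 = 0) (f2 : a12 = 0 ∨ x23 = 0) (f3 : a13 = 0 ∨ x12 = 0)
    (f4 : a13 = 0 ∨ x23 = 0) (f5 : a23 = 0 ∨ x12 = 0) (f6 : a23 = 0 ∨ x13 = 0) :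
    a1 + a2 + a3 + a12 + a13 + a23 + (x1 + x2 + x3 + x12 + x13 + x23) ≤ 4 := by
  by_cases h12 : x12 = 0
  · by_cases h13 : x13 = 0
    · by_cases h23 : x23 = 0
      · clear e1 e2 e3 f1 f2 f3 f4 f5 f6
        omega
      · have k1 := e1.resolve_right h23
        have k2 := f2.resolve_right h23
        have k3 := f4.resolve_right h23
        clear e1 e2 e3 f1 f2 f3 f4 f5 f6
        omega
    · have k1 := e2.resolve_right h13
      have k2 := f1.resolve_right h13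
      have k3 := f6.resolve_right h13
      clear e2 e3 f1 f3 f5 f6
      omega
  · have k1 := e3.resolve_right h12
    have k2 := f3.resolve_right h12
    have k3 := f5.resolve_right h12
    clear e3 f3 f5 f4 f6
    omega

/-- the number of indices with a property. -/
@[irreducible] noncomputable def ct (f : ι → Prop) : ℕ := by
  classical
  exact (univ.filter f).card

theorem ct_eq (f : ι → Prop) [DecidablePred f] : ct f = (univ.filter f).card := by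
  unfold ct
  congr

theorem ct_ite (f : ι → Prop) [DecidablePred f] : ct f = ∑ l, if f l then 1 else 0 := by
  rw [ct_eq, card_filter]

theorem ct_pos {f : ι → Prop} (h : ct f ≠ 0) : ∃ l, f l := by
  classical
  rw [ct_eq] at h
  obtain ⟨l, hl⟩ := card_pos.1 (Nat.pos_of_ne_zero h)
  exact ⟨l, (mem_filter.1 hl).2⟩

theorem ct_two {f g h : ι → Prop} (hf : ∀ l, f l → h l) (hg : ∀ l, g l → h l)
    (hd : ∀ l, f l → g l → False) : ct f + ct g ≤ ct h := by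
  classical
  rw [ct_eq, ct_eq, ct_eq, ← card_union_of_disjoint]
  · refine card_le_card fun l hl => ?_
    rcases mem_union.1 hl with h1 | h1
    · exact mem_filter.2 ⟨mem_univ _, hf l (mem_filter.1 h1).2⟩
    · exact mem_filter.2 ⟨mem_univ _, hg l (mem_filter.1 h1).2⟩
  · rw [disjoint_left]
    intro l h1 h2
    exact hd l (mem_filter.1 h1).2 (mem_filter.1 h2).2

theorem ct_three {f g e h : ι → Prop} (hf : ∀ l, f l → h l) (hg : ∀ l, g l → h l)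
    (he : ∀ l, e l → h l) (d1 : ∀ l, f l → g l → False) (d2 : ∀ l, f l → e l → False)
    (d3 : ∀ l, g l → e l → False) : ct f + ct g + ct e ≤ ct h := by
  have h1 : ct f + ct g ≤ ct (fun l => f l ∨ g l) :=
    ct_two (fun _ h => Or.inl h) (fun _ h => Or.inr h) d1
  have h2 : ct (fun l => f l ∨ g l) + ct e ≤ ct h := by
    refine ct_two ?_ he ?_
    · rintro l (h | h)
      · exact hf l h
      · exact hg l h
    · rintro l (h | h) h3
      · exact d2 l h h3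
      · exact d3 l h h3
  omega

theorem ct_tri {A B C : ι → Prop} (h0 : ∀ l, ¬ (A l ∧ B l ∧ C l)) :
    ct (fun l => A l ∧ ¬ B l ∧ ¬ C l) + ct (fun l => A l ∧ B l) + ct (fun l => A l ∧ C l) =
      ct A := by
  classical
  simp only [ct_ite]
  simp only [← sum_add_distrib]
  refine sum_congr rfl fun l _ => ?_
  have := h0 l
  by_cases a : A l <;> by_cases b : B l <;> by_cases c : C l <;> simp [a, b, c] at this ⊢

theorem ct_six {P A B C : ι → Prop} (h0 : ∀ l, ¬ (A l ∧ B l ∧ C l)) :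
    ct (fun l => P l ∧ (A l ∨ B l ∨ C l)) =
      ct (fun l => P l ∧ A l ∧ ¬ B l ∧ ¬ C l) + ct (fun l => P l ∧ ¬ A l ∧ B l ∧ ¬ C l) +
      ct (fun l => P l ∧ ¬ A l ∧ ¬ B l ∧ C l) + ct (fun l => P l ∧ A l ∧ B l) +
      ct (fun l => P l ∧ A l ∧ C l) + ct (fun l => P l ∧ B l ∧ C l) := by
  classical
  simp only [ct_ite]
  simp only [← sum_add_distrib]
  refine sum_congr rfl fun l _ => ?_
  have := h0 l
  by_cases a : A l <;> by_cases b : B l <;> by_cases c : C l <;> by_cases p : P l <;>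
    simp [a, b, c, p] at this ⊢

/-- **a refused pair**, in terms of properties of the blocks. -/
theorem ref31_ct {P R A B C : ι → Prop} (h0 : ∀ l, ¬ (A l ∧ B l ∧ C l))
    (dA : ct A = 5) (dB : ct B = 5) (dC : ct C = 5)
    (hs : ct (fun l => A l ∧ ¬ B l ∧ ¬ C l) + ct (fun l => ¬ A l ∧ B l ∧ ¬ C l) +
      ct (fun l => ¬ A l ∧ ¬ B l ∧ C l) ≤ 1)
    (tA : ct (fun l => P l ∧ A l) ≤ 3) (tB : ct (fun l => P l ∧ B l) ≤ 3)
    (tC : ct (fun l => P l ∧ C l) ≤ 3) (uA : ct (fun l => R l ∧ A l) ≤ 3)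
    (uB : ct (fun l => R l ∧ B l) ≤ 3) (uC : ct (fun l => R l ∧ C l) ≤ 3)
    (hp : ct (fun l => P l ∧ (A l ∨ B l ∨ C l)) ≤ 4)
    (hr : ct (fun l => R l ∧ (A l ∨ B l ∨ C l)) ≤ 4)
    (href : ∀ l m, (A l ∨ A m) → (B l ∨ B m) → (C l ∨ C m) → (P l ∨ P m) → (R l ∨ R m) →
      False) :
    ct (fun l => P l ∧ (A l ∨ B l ∨ C l)) + ct (fun l => R l ∧ (A l ∨ B l ∨ C l)) ≤ 4 := by
  have g1 := ct_tri h0
  rw [dA] at g1
  have g2 : ct (fun l => ¬ A l ∧ B l ∧ ¬ C l) + ct (fun l => A l ∧ B l) +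
      ct (fun l => B l ∧ C l) = 5 := by
    rw [← dB, ← ct_tri (A := B) (B := A) (C := C) fun l h => h0 l ⟨h.2.1, h.1, h.2.2⟩]
    congr 3
    · funext l
      exact propext ⟨fun h => ⟨h.2.1, h.1, h.2.2⟩, fun h => ⟨h.2.1, h.1, h.2.2⟩⟩
    · funext l
      exact propext and_comm
  have g3 : ct (fun l => ¬ A l ∧ ¬ B l ∧ C l) + ct (fun l => A l ∧ C l) +
      ct (fun l => B l ∧ C l) = 5 := by
    rw [← dC, ← ct_tri (A := C) (B := A) (C := B) fun l h => h0 l ⟨h.2.1, h.2.2, h.1⟩]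
    congr 3
    · funext l
      exact propext ⟨fun h => ⟨h.2.2, h.1, h.2.1⟩, fun h => ⟨h.2.1, h.2.2, h.1⟩⟩
    · funext l
      exact propext and_comm
    · funext l
      exact propext and_comm
  have hs1 : ct (fun l => A l ∧ ¬ B l ∧ ¬ C l) + ct (fun l => ¬ A l ∧ B l ∧ ¬ C l) +
      ct (fun l => ¬ A l ∧ ¬ B l ∧ C l) = 1 := by omega
  have r1 : ∀ {f g : ι → Prop}, (∀ l m, f l → g m → False) → ct f = 0 ∨ ct g = 0 := by
    intro f g hfg
    by_contra hcon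
    rw [not_or] at hcon
    obtain ⟨l, hl⟩ := ct_pos hcon.1
    obtain ⟨m, hm⟩ := ct_pos hcon.2
    exact hfg l m hl hm
  have nA : ∀ l, ¬ (P l ∧ R l ∧ A l) := by
    rintro l ⟨b1, b2, b3⟩
    obtain ⟨m, hm⟩ := ct_pos (f := fun l => B l ∧ C l) (by omega)
    exact href l m (Or.inl b3) (Or.inr hm.1) (Or.inr hm.2) (Or.inl b1) (Or.inl b2)
  have nB : ∀ l, ¬ (P l ∧ R l ∧ B l) := by
    rintro l ⟨b1, b2, b3⟩
    obtain ⟨m, hm⟩ := ct_pos (f := fun l => A l ∧ C l) (by omega)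
    exact href l m (Or.inr hm.1) (Or.inl b3) (Or.inr hm.2) (Or.inl b1) (Or.inl b2)
  have nC : ∀ l, ¬ (P l ∧ R l ∧ C l) := by
    rintro l ⟨b1, b2, b3⟩
    obtain ⟨m, hm⟩ := ct_pos (f := fun l => A l ∧ B l) (by omega)
    exact href l m (Or.inr hm.1) (Or.inr hm.2) (Or.inl b3) (Or.inl b1) (Or.inl b2)
  have eP := ct_six (P := P) h0
  have eR := ct_six (P := R) h0
  have c1 : ct (fun l => P l ∧ A l ∧ ¬ B l ∧ ¬ C l) + ct (fun l => R l ∧ A l ∧ ¬ B l ∧ ¬ C l) ≤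
      ct (fun l => A l ∧ ¬ B l ∧ ¬ C l) :=
    ct_two (fun _ h => h.2) (fun _ h => h.2) fun l h1 h2 => nA l ⟨h1.1, h2.1, h1.2.1⟩
  have c2 : ct (fun l => P l ∧ ¬ A l ∧ B l ∧ ¬ C l) + ct (fun l => R l ∧ ¬ A l ∧ B l ∧ ¬ C l) ≤
      ct (fun l => ¬ A l ∧ B l ∧ ¬ C l) :=
    ct_two (fun _ h => h.2) (fun _ h => h.2) fun l h1 h2 => nB l ⟨h1.1, h2.1, h1.2.2.1⟩
  have c3 : ct (fun l => P l ∧ ¬ A l ∧ ¬ B l ∧ C l) + ct (fun l => R l ∧ ¬ A l ∧ ¬ B l ∧ C l) ≤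
      ct (fun l => ¬ A l ∧ ¬ B l ∧ C l) :=
    ct_two (fun _ h => h.2) (fun _ h => h.2) fun l h1 h2 => nC l ⟨h1.1, h2.1, h1.2.2.2⟩
  have c12 : ct (fun l => P l ∧ A l ∧ B l) + ct (fun l => R l ∧ A l ∧ B l) ≤
      ct (fun l => A l ∧ B l) :=
    ct_two (fun _ h => h.2) (fun _ h => h.2) fun l h1 h2 => nA l ⟨h1.1, h2.1, h1.2.1⟩
  have c13 : ct (fun l => P l ∧ A l ∧ C l) + ct (fun l => R l ∧ A l ∧ C l) ≤
      ct (fun l => A l ∧ C l) :=
    ct_two (fun _ h => h.2) (fun _ h => h.2) fun l h1 h2 => nA l ⟨h1.1, h2.1, h1.2.1⟩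
  have c23 : ct (fun l => P l ∧ B l ∧ C l) + ct (fun l => R l ∧ B l ∧ C l) ≤
      ct (fun l => B l ∧ C l) :=
    ct_two (fun _ h => h.2) (fun _ h => h.2) fun l h1 h2 => nB l ⟨h1.1, h2.1, h1.2.1⟩
  have t1 : ct (fun l => P l ∧ A l ∧ ¬ B l ∧ ¬ C l) + ct (fun l => P l ∧ A l ∧ B l) +
      ct (fun l => P l ∧ A l ∧ C l) ≤ 3 :=
    (ct_three (fun _ h => ⟨h.1, h.2.1⟩) (fun _ h => ⟨h.1, h.2.1⟩) (fun _ h => ⟨h.1, h.2.1⟩)
      (fun _ h1 h2 => h1.2.2.1 h2.2.2) (fun _ h1 h2 => h1.2.2.2 h2.2.2)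
      fun l h1 h2 => h0 l ⟨h1.2.1, h1.2.2, h2.2.2⟩).trans tA
  have t2 : ct (fun l => P l ∧ ¬ A l ∧ B l ∧ ¬ C l) + ct (fun l => P l ∧ A l ∧ B l) +
      ct (fun l => P l ∧ B l ∧ C l) ≤ 3 :=
    (ct_three (fun _ h => ⟨h.1, h.2.2.1⟩) (fun _ h => ⟨h.1, h.2.2⟩) (fun _ h => ⟨h.1, h.2.1⟩)
      (fun _ h1 h2 => h1.2.1 h2.2.1) (fun _ h1 h2 => h1.2.2.2 h2.2.2)
      fun l h1 h2 => h0 l ⟨h1.2.1, h1.2.2, h2.2.2⟩).trans tB
  have t3 : ct (fun l => P l ∧ ¬ A l ∧ ¬ B l ∧ C l) + ct (fun l => P l ∧ A l ∧ C l) +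
      ct (fun l => P l ∧ B l ∧ C l) ≤ 3 :=
    (ct_three (fun _ h => ⟨h.1, h.2.2.2⟩) (fun _ h => ⟨h.1, h.2.2⟩) (fun _ h => ⟨h.1, h.2.2⟩)
      (fun _ h1 h2 => h1.2.1 h2.2.1) (fun _ h1 h2 => h1.2.2.1 h2.2.1)
      fun l h1 h2 => h0 l ⟨h1.2.1, h2.2.1, h1.2.2⟩).trans tC
  have u1 : ct (fun l => R l ∧ A l ∧ ¬ B l ∧ ¬ C l) + ct (fun l => R l ∧ A l ∧ B l) +
      ct (fun l => R l ∧ A l ∧ C l) ≤ 3 :=
    (ct_three (fun _ h => ⟨h.1, h.2.1⟩) (fun _ h => ⟨h.1, h.2.1⟩) (fun _ h => ⟨h.1, h.2.1⟩)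
      (fun _ h1 h2 => h1.2.2.1 h2.2.2) (fun _ h1 h2 => h1.2.2.2 h2.2.2)
      fun l h1 h2 => h0 l ⟨h1.2.1, h1.2.2, h2.2.2⟩).trans uA
  have u2 : ct (fun l => R l ∧ ¬ A l ∧ B l ∧ ¬ C l) + ct (fun l => R l ∧ A l ∧ B l) +
      ct (fun l => R l ∧ B l ∧ C l) ≤ 3 :=
    (ct_three (fun _ h => ⟨h.1, h.2.2.1⟩) (fun _ h => ⟨h.1, h.2.2⟩) (fun _ h => ⟨h.1, h.2.1⟩)
      (fun _ h1 h2 => h1.2.1 h2.2.1) (fun _ h1 h2 => h1.2.2.2 h2.2.2)
      fun l h1 h2 => h0 l ⟨h1.2.1, h1.2.2, h2.2.2⟩).trans uB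
  have u3 : ct (fun l => R l ∧ ¬ A l ∧ ¬ B l ∧ C l) + ct (fun l => R l ∧ A l ∧ C l) +
      ct (fun l => R l ∧ B l ∧ C l) ≤ 3 :=
    (ct_three (fun _ h => ⟨h.1, h.2.2.2⟩) (fun _ h => ⟨h.1, h.2.2⟩) (fun _ h => ⟨h.1, h.2.2⟩)
      (fun _ h1 h2 => h1.2.1 h2.2.1) (fun _ h1 h2 => h1.2.2.1 h2.2.1)
      fun l h1 h2 => h0 l ⟨h1.2.1, h2.2.1, h1.2.2⟩).trans uC
  rw [eP] at hp
  rw [eR] at hr
  rw [eP, eR]
  refine refNum31 hs1 g1 g2 g3 c1 c2 c3 c12 c13 c23 t1 t2 t3 u1 u2 u3 hp hr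
    ?_ ?_ ?_ ?_ ?_ ?_ ?_ ?_ ?_ ?_ ?_ ?_
  · exact r1 fun l m h1 h2 => href l m (Or.inr h2.2.1) (Or.inl h1.2.1) (Or.inl h1.2.2)
      (Or.inl h1.1) (Or.inr h2.1)
  · exact r1 fun l m h1 h2 => href l m (Or.inl h1.2.1) (Or.inr h2.2.2.1) (Or.inl h1.2.2)
      (Or.inl h1.1) (Or.inr h2.1)
  · exact r1 fun l m h1 h2 => href l m (Or.inl h1.2.1) (Or.inl h1.2.2) (Or.inr h2.2.2.2)
      (Or.inl h1.1) (Or.inr h2.1)
  · exact r1 fun l m h1 h2 => href l m (Or.inl h1.2.1) (Or.inr h2.2.1) (Or.inr h2.2.2)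
      (Or.inl h1.1) (Or.inr h2.1)
  · exact r1 fun l m h1 h2 => href l m (Or.inr h2.2.1) (Or.inl h1.2.2.1) (Or.inr h2.2.2)
      (Or.inl h1.1) (Or.inr h2.1)
  · exact r1 fun l m h1 h2 => href l m (Or.inr h2.2.1) (Or.inr h2.2.2) (Or.inl h1.2.2.2)
      (Or.inl h1.1) (Or.inr h2.1)
  · exact r1 fun l m h1 h2 => href l m (Or.inl h1.2.1) (Or.inl h1.2.2) (Or.inr h2.2.2)
      (Or.inl h1.1) (Or.inr h2.1)
  · exact r1 fun l m h1 h2 => href l m (Or.inl h1.2.1) (Or.inl h1.2.2) (Or.inr h2.2.2)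
      (Or.inl h1.1) (Or.inr h2.1)
  · exact r1 fun l m h1 h2 => href l m (Or.inl h1.2.1) (Or.inr h2.2.2) (Or.inl h1.2.2)
      (Or.inl h1.1) (Or.inr h2.1)
  · exact r1 fun l m h1 h2 => href l m (Or.inl h1.2.1) (Or.inr h2.2.1) (Or.inl h1.2.2)
      (Or.inl h1.1) (Or.inr h2.1)
  · exact r1 fun l m h1 h2 => href l m (Or.inr h2.2.1) (Or.inl h1.2.1) (Or.inl h1.2.2)
      (Or.inl h1.1) (Or.inr h2.1)
  · exact r1 fun l m h1 h2 => href l m (Or.inr h2.2.1) (Or.inl h1.2.1) (Or.inl h1.2.2)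
      (Or.inl h1.1) (Or.inr h2.1)

section

variable {Q U : Finset V} {T : Finset ι} {F : Finset (Finset V)}

/-- **a refused pair has at most four hits on three points with one single trace**. -/
theorem ref31 (hv : ViolR B Q) (hf : Frm B Q T U F) {L : Finset V} (hL : L ∈ F)
    (h3 : L.card = 3) (hn1 : nt B L 1 = 1) {k : ι} (hk : k ∈ T) {p q : V} (hp : p ∈ B k ∩ Q)
    (hq : q ∈ B k ∩ Q) (hna : ¬ rho B (L ∪ {p, q}) ≤ rho B L) :
    uh B p L + uh B q L ≤ 4 := by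
  obtain ⟨w1, w2, w3, n12, n13, n23, hLe⟩ := card_eq_three.1 h3
  have hr2 : rho B L = 2 := by
    have h1 := hf.sv_leaf hL
    unfold sv at h1
    rw [h3] at h1
    omega
  have hLQ := hf.FQ hL
  have hw1 : w1 ∈ Q := hLQ (by rw [hLe]; simp)
  have hw2 : w2 ∈ Q := hLQ (by rw [hLe]; simp)
  have hw3 : w3 ∈ Q := hLQ (by rw [hLe]; simp)
  have hpL : p ∉ L := hf.T_notin hk hp hL
  have hqL : q ∉ L := hf.T_notin hk hq hL
  rw [hLe] at hpL hqL
  simp only [mem_insert, mem_singleton, not_or] at hpL hqL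
  obtain ⟨p1, p2, p3⟩ := hpL
  obtain ⟨q1, q2, q3⟩ := hqL
  have hpQ := (mem_inter.1 hp).2
  have hqQ := (mem_inter.1 hq).2
  -- no block contains the leaf
  have h0 : ∀ l, ¬ (w1 ∈ B l ∧ w2 ∈ B l ∧ w3 ∈ B l) := by
    rintro l ⟨h1, h2, h4⟩
    have h5 := rho_le_one (B := B) (i := l) (W := L) (by
      rw [hLe]
      intro v hv
      simp only [mem_insert, mem_singleton] at hv
      rcases hv with rfl | rfl | rfl <;> assumption)
    omega
  -- two blocks do not cover the leaf and the pair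
  have href : ∀ l m, (w1 ∈ B l ∨ w1 ∈ B m) → (w2 ∈ B l ∨ w2 ∈ B m) → (w3 ∈ B l ∨ w3 ∈ B m) →
      (p ∈ B l ∨ p ∈ B m) → (q ∈ B l ∨ q ∈ B m) → False := by
    intro l m b1 b2 b3 b4 b5
    refine hna ?_
    rw [hr2]
    have h2 : rho B (L ∪ {p, q}) ≤ ({l, m} : Finset ι).card := Hyp6.rho_le (by
      rw [biUnion_insert, singleton_biUnion, hLe]
      intro z hz
      simp only [mem_union, mem_insert, mem_singleton] at hz ⊢
      rcases hz with (rfl | rfl | rfl) | rfl | rfl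
      · exact b1
      · exact b2
      · exact b3
      · exact b4
      · exact b5)
    exact h2.trans card_le_two
  have deg : ∀ v ∈ Q, ct (fun l => v ∈ B l) = 5 := by
    intro v hvQ
    rw [ct_eq]
    exact hv.reg v hvQ
  have tw : ∀ u v, u ∈ Q → v ∈ Q → u ≠ v → ct (fun l => u ∈ B l ∧ v ∈ B l) ≤ 3 := by
    intro u v hu hv' huv
    rw [ct_eq]
    exact hv.twin hu hv' huv
  have hne : ∀ l, (B l ∩ L).Nonempty ↔ (w1 ∈ B l ∨ w2 ∈ B l ∨ w3 ∈ B l) := by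
    intro l
    rw [hLe]
    constructor
    · rintro ⟨z, hz⟩
      obtain ⟨z1, z2⟩ := mem_inter.1 hz
      simp only [mem_insert, mem_singleton] at z2
      rcases z2 with rfl | rfl | rfl
      · exact Or.inl z1
      · exact Or.inr (Or.inl z1)
      · exact Or.inr (Or.inr z1)
    · rintro (h1 | h1 | h1)
      · exact ⟨w1, mem_inter.2 ⟨h1, by simp⟩⟩
      · exact ⟨w2, mem_inter.2 ⟨h1, by simp⟩⟩
      · exact ⟨w3, mem_inter.2 ⟨h1, by simp⟩⟩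
  have hit1 : ∀ v, uh B v L = ct (fun l => v ∈ B l ∧ (w1 ∈ B l ∨ w2 ∈ B l ∨ w3 ∈ B l)) := by
    intro v
    unfold uh
    rw [hit_eq, sum_singleton, ct_eq]
    congr 1
    refine filter_congr fun l _ => ?_
    rw [hne l]
  have hle : ∀ v ∈ B k ∩ Q, uh B v L ≤ 4 := by
    intro v hvk
    have h1 := hf.four_t hv.reg hk hvk
    have h2 : uh B v L ≤ ∑ M ∈ F, uh B v M :=
      single_le_sum (f := fun M => uh B v M) (fun _ _ => Nat.zero_le _) hL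
    omega
  have hpa := hle p hp
  have hqa := hle q hq
  rw [hit1] at hpa hqa
  rw [hit1, hit1]
  refine ref31_ct h0 (deg w1 hw1) (deg w2 hw2) (deg w3 hw3) ?_ (tw p w1 hpQ hw1 p1)
    (tw p w2 hpQ hw2 p2) (tw p w3 hpQ hw3 p3) (tw q w1 hqQ hw1 q1) (tw q w2 hqQ hw2 q2)
    (tw q w3 hqQ hw3 q3) hpa hqa href
  rw [← hn1]
  unfold nt trs
  rw [← ct_eq (fun l => (B l ∩ L).card = 1)]
  have e1 : ∀ l, (B l ∩ L).card = (if w1 ∈ B l then 1 else 0) + (if w2 ∈ B l then 1 else 0) +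
      (if w3 ∈ B l then 1 else 0) := by
    intro l
    rw [hLe, inter_comm, ← filter_mem_eq_inter, card_filter, sum_insert (by simp [n12, n13]),
      sum_pair n23, add_assoc]
  refine ct_three ?_ ?_ ?_ (fun _ h1 h2 => h2.1 h1.1) (fun _ h1 h2 => h2.1 h1.1)
    fun _ h1 h2 => h2.2.1 h1.2.1
  · rintro l ⟨b1, b2, b3⟩
    rw [e1]
    simp [b1, b2, b3]
  · rintro l ⟨b1, b2, b3⟩
    rw [e1]
    simp [b1, b2, b3]
  · rintro l ⟨b1, b2, b3⟩
    rw [e1]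
    simp [b1, b2, b3]

/-- the hits of two triples on a point. -/
theorem ten_pt (hv : ViolR B Q) (hf : Frm B Q T U F) {x : V} (hx : {x} ∈ F) {j k : ι}
    (hj : j ∈ T) (hk : k ∈ T) (hjk : j ≠ k) : jh B Q j {x} + jh B Q k {x} ≤ 10 := by
  have hxD : x ∈ Dp B Q T := hf.FD hx (mem_singleton_self x)
  have hxQ : x ∈ Q := Frm.DQ hxD
  have h5 : (tch B {x}).card = 5 := by
    rw [← hv.reg x hxQ]
    congr 1
    ext i
    rw [cost_mem_tch, mem_filter]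
    constructor
    · rintro ⟨y, hy⟩
      obtain ⟨hy1, hy2⟩ := mem_inter.1 hy
      rw [mem_singleton] at hy2
      exact ⟨mem_univ _, hy2 ▸ hy1⟩
    · rintro ⟨_, hi⟩
      exact ⟨x, mem_inter.2 ⟨hi, mem_singleton_self x⟩⟩
  unfold jh hit
  rw [← sum_add_distrib]
  have h6 : ∑ i ∈ tch B {x}, ((B i ∩ (B j ∩ Q)).card + (B i ∩ (B k ∩ Q)).card) ≤
      ∑ i ∈ tch B {x}, 2 := by
    refine sum_le_sum fun i hi => ?_
    obtain ⟨y, hy⟩ := cost_mem_tch.1 hi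
    obtain ⟨hy1, hy2⟩ := mem_inter.1 hy
    rw [mem_singleton] at hy2
    subst hy2
    have h1 : insert y ((B i ∩ (B j ∩ Q)) ∪ (B i ∩ (B k ∩ Q))) ⊆ B i ∩ Q := by
      intro z hz
      rw [mem_insert, mem_union] at hz
      rcases hz with rfl | hz | hz
      · exact mem_inter.2 ⟨hy1, hxQ⟩
      · exact mem_inter.2 ⟨(mem_inter.1 hz).1, (mem_inter.1 (mem_inter.1 hz).2).2⟩
      · exact mem_inter.2 ⟨(mem_inter.1 hz).1, (mem_inter.1 (mem_inter.1 hz).2).2⟩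
    have h2 := card_le_card h1
    have hd : Disjoint (B i ∩ (B j ∩ Q)) (B i ∩ (B k ∩ Q)) :=
      (hf.mtp.tpk.pack.disj j hj k hk hjk).mono inter_subset_right inter_subset_right
    rw [card_insert_of_notMem (by
        rw [mem_union, not_or]
        exact ⟨fun h3 => Frm.T_notD (Q := Q) hj (mem_inter.1 (mem_inter.1 h3).2).1 hxD,
          fun h3 => Frm.T_notD (Q := Q) hk (mem_inter.1 (mem_inter.1 h3).2).1 hxD⟩),
      card_union_of_disjoint hd] at h2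
    have h4 := hf.reg3 i
    omega
  rw [sum_const, h5, smul_eq_mul] at h6
  omega

end

namespace StgR

variable {Q U : Finset V} {T : Finset ι} {F : Finset (Finset V)}
  {P : Finset (Finset (Finset V))} {al : V → Finset (Finset V) → ℕ}

/-- **an inside triple of a single leaf with claims**: `n` bounds the hits of a refused pair. -/
theorem kin_one (s : StgR B Q T U F P al) {L : Finset V} (hL : {L} ∈ P) {k : ι}
    (hk : k ∈ Sp.Kin (Rg B Q T U F) (slj B Q F) {L}) (hc : 0 < ncl B Q T U F P k) {n : ℕ}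
    (hn : 4 ≤ n) (href : ∀ p ∈ B k ∩ Q, ∀ q ∈ B k ∩ Q, p ≠ q →
      ¬ rho B (L ∪ {p, q}) ≤ rho B L → uh B p L + uh B q L ≤ n) :
    ∑ M ∈ F, jh B Q k M + ncl B Q T U F P k ≤ n + 4 := by
  obtain ⟨hkT, _, _, _, hsub⟩ := s.toStg.kin.1 hk
  have hLF : L ∈ F := (s.part.ptn.vc _ hL).sub (mem_singleton_self _)
  have hz : ∀ w ∈ B k ∩ Q, ∑ M ∈ F, uh B w M = uh B w L := by
    intro w hw
    refine sum_eq_single_of_mem L hLF fun M hM hne => uh_zero hM (s.frm.T_notin hkT hw hM) ?_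
    intro h1
    exact hne (mem_singleton.1 (hsub (mem_biUnion.2 ⟨w, hw, h1⟩)))
  rcases s.four_or_eight hkT hc with ⟨v, hv, h1, h2, h3⟩ | h3
  swap
  · omega
  obtain ⟨k0, hk0, hc0, hvk0⟩ := ncp_pos (B := B) (by omega :
    ncp B Q (Kf B Q T U F P) k v ≠ 0)
  obtain ⟨j, i, a, b, c, x, h⟩ := Kf_cla.1 hk0
  have hkj := h.1.claim_ne hc0
  obtain ⟨p, q, hT, hvp, hvq, hpq⟩ : ∃ b c, B k ∩ Q = {v, b, c} ∧ v ≠ b ∧ v ≠ c ∧ b ≠ c := by
    obtain ⟨y1, y2, y3, hT, hxy, hxz, hyz⟩ := s.frm.three_points hkT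
    rw [hT] at hv
    simp only [mem_insert, mem_singleton] at hv
    rcases hv with rfl | rfl | rfl
    · exact ⟨y2, y3, hT, hxy, hxz, hyz⟩
    · refine ⟨y1, y3, ?_, hxy.symm, hyz, hxz⟩
      rw [hT]
      ext v
      simp only [mem_insert, mem_singleton]
      tauto
    · refine ⟨y1, y2, ?_, hxz.symm, hyz.symm, hxy⟩
      rw [hT]
      ext v
      simp only [mem_insert, mem_singleton]
      tauto
  have hp : p ∈ B k ∩ Q := by rw [hT]; simp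
  have hq : q ∈ B k ∩ Q := by rw [hT]; simp
  have hsum : ∑ M ∈ F, jh B Q k M = ∑ M ∈ F, uh B v M + (uh B p L + uh B q L) := by
    rw [s.jh_pts, hT, sum_insert (by simp [hvp, hvq]), sum_pair hpq, hz p hp, hz q hq]
  by_cases hLx : L = {x}
  · subst hLx
    have h4 := ten_pt s.viol s.frm hLF h.1.hj hkT hkj.symm
    have h5 : 6 ≤ jh B Q j {x} := by
      obtain ⟨hab, hac, hbc⟩ := h.1.px.ne
      have e1 : jh B Q j {x} = uh B a {x} + (uh B b {x} + uh B c {x}) := by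
        rw [jh_sum, h.1.px.hjQ, sum_insert (by simp [hab, hac]), sum_pair hbc]
      rw [e1, uh_pt, uh_pt, uh_pt, h.1.ha, h.1.hbc]
    have h6 : jh B Q k {x} = uh B v {x} + (uh B p {x} + uh B q {x}) := by
      rw [jh_sum, hT, sum_insert (by simp [hvp, hvq]), sum_pair hpq]
    have h7 := hz v hv
    omega
  · have h4 := href p hp q hq hpq (h.1.fpb.no_abs hkT hkj hT hvk0 hLF hLx)
    omega

/-- **an inside triple of a point with claims**. -/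
theorem kin_point (s : StgR B Q T U F P al) {y : V} (hL : {{y}} ∈ P) {k : ι}
    (hk : k ∈ Sp.Kin (Rg B Q T U F) (slj B Q F) {{y}}) (hc : 0 < ncl B Q T U F P k) :
    ∑ M ∈ F, jh B Q k M + ncl B Q T U F P k ≤ 9 := by
  have hLF : {y} ∈ F := (s.part.ptn.vc _ hL).sub (mem_singleton_self _)
  have hyQ : y ∈ Q := s.frm.FQ hLF (mem_singleton_self y)
  refine s.kin_one hL hk hc (n := 5) (by norm_num) fun p hp q hq hpq hna => ?_
  rw [uh_pt, uh_pt, ← card_union_of_disjoint, ← s.viol.reg y hyQ]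
  · refine card_le_card fun l hl => ?_
    rcases mem_union.1 hl with h2 | h2
    · exact mem_filter.2 ⟨mem_univ _, (mem_filter.1 h2).2.1⟩
    · exact mem_filter.2 ⟨mem_univ _, (mem_filter.1 h2).2.1⟩
  · rw [disjoint_left]
    intro l h2 h3
    refine hna (le_trans (rho_le_one (i := l) ?_)
      (rho_pos (s.frm.cov.mono (singleton_subset_iff.2 hyQ)) ⟨y, mem_singleton_self y⟩))
    intro w hw
    simp only [mem_union, mem_insert, mem_singleton] at hw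
    rcases hw with rfl | rfl | rfl
    · exact (mem_filter.1 h2).2.1
    · exact (mem_filter.1 h2).2.2
    · exact (mem_filter.1 h3).2.2

/-- **an inside triple of a leaf with three points and one single trace, with claims**. -/
theorem kin_31 (s : StgR B Q T U F P al) {L : Finset V} (hL : {L} ∈ P) (h3 : L.card = 3)
    (hn1 : nt B L 1 = 1) {k : ι} (hk : k ∈ Sp.Kin (Rg B Q T U F) (slj B Q F) {L})
    (hc : 0 < ncl B Q T U F P k) : ∑ M ∈ F, jh B Q k M + ncl B Q T U F P k ≤ 8 := by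
  have hLF : L ∈ F := (s.part.ptn.vc _ hL).sub (mem_singleton_self _)
  obtain ⟨hkT, _⟩ := s.toStg.kin.1 hk
  exact s.kin_one hL hk hc (n := 4) le_rfl fun p hp q hq hpq hna =>
    ref31 s.viol s.frm hLF h3 hn1 hkT hp hq hna

end StgR

end Pool.Agent.Hyp6
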