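import Pool.Agent.Hyp6.L3Y9

/-!
# HYP6 L3Fn: the assembly for the setting, by types, with transfers

`Stg.fin_all`: `H0` the classes with no line triple, `HN` the classes with at least two line triples,
`LN`, `L1`, `L2` the lines with two classes and no, one, two private ends, `LF` the lines with own
points. The claims `clm` and the transfers `t` are arbitrary.
-/

set_option autoImplicit false

namespace Pool.Agent.Hyp6

open Finset Pool.Agent.Hyp5 Rt

universe u v

variable {V : Type v} [DecidableEq V] {ι : Type u} [Fintype ι] [DecidableEq ι]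
  {B : ι → Finset V}

/-- what a class needs from its line triples beyond the standard payments. -/
noncomputable abbrev ndC (v : ℤ) (B : ι → Finset V) (Q : Finset V) (T : Finset ι) (U : Finset V)
    (F : Finset (Finset V)) (P : Finset (Finset (Finset V))) (a : V → Finset (Finset V) → ℕ)
    (t : ι → ℤ) (C : Finset (Finset V)) : ℤ :=
  msC v B Q T U F P a C - tK B Q (Rg B Q T U F) F t C

namespace Stg

variable {Q U : Finset V} {T : Finset ι} {F : Finset (Finset V)}
  {P : Finset (Finset (Finset V))} {a : V → Finset (Finset V) → ℕ}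

/-- **the assembly with transfers**, total at most `160` for every block between removed points with
exactly two points of `Q`. -/
theorem fin_trE (s : Stg B Q T U F P a) {v : ℤ} (clm : ι → Finset (Finset V) → ℤ) (t : ι → ℤ)
    (htr : ∑ j ∈ T, t j ≤ 160 * ((bt2 B Q T U).card : ℤ))
    (HX : ∀ j ∈ Trs B Q T (Rg B Q T U F) U F P,
      ∑ C ∈ P, Xv v B Q T U F P j C ≤ 8 * sT B Q T U F 15 j + t j)
    (H0 : ∀ C ∈ P, (aC B Q T U F P C).card = 0 → ndC v B Q T U F P a t C ≤ 0)
    (HN : ∀ C ∈ P, 2 ≤ (aC B Q T U F P C).card →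
      ndC v B Q T U F P a t C ≤ ∑ j ∈ aC B Q T U F P C, clm j C)
    (HL : ∀ j ∈ tl B Q T U F P,
      ∑ C ∈ (lj B Q U F P j).filter (fun C => (aC B Q T U F P C).card = 1),
        ndC v B Q T U F P a t C +
      ∑ C ∈ (lj B Q U F P j).filter (fun C => 2 ≤ (aC B Q T U F P C).card), clm j C ≤
        8 * sT B Q T U F 15 j + t j - 1120 +
          168 * ∑ u ∈ oj B Q U F P j, (uo B Q T U F u : ℤ)) :
    False := by
  have h1 := s.frm.fin_tr s.viol.reg (by have := s.viol.sv1; omega) Rg_sub s.part s.supp s.sum5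
    s.lnf (Xv v B Q T U F P) clm t htr (by
      have h2 : ∑ j ∈ Trs B Q T (Rg B Q T U F) U F P, ∑ C ∈ P, Xv v B Q T U F P j C ≤
          ∑ j ∈ Trs B Q T (Rg B Q T U F) U F P, (8 * sT B Q T U F 15 j + t j) :=
        sum_le_sum HX
      linarith) (fun C hC h0 => by
        have h2 : ndC v B Q T U F P a t C ≤ 0 := H0 C hC h0
        unfold ndC msC at h2
        linarith) (fun C hC h0 => by
        have h2 : ndC v B Q T U F P a t C ≤ ∑ j ∈ aC B Q T U F P C, clm j C := HN C hC h0
        unfold ndC msC at h2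
        linarith) HL
  have h2 := s.viol.neg
  unfold dv at h2
  linarith

/-- **the assembly, by types, with transfers**. -/
theorem fin_all (s : Stg B Q T U F P a) {v : ℤ} (hv : v ≤ 149)
    (clm : ι → Finset (Finset V) → ℤ) (t : ι → ℤ)
    (htr : ∑ j ∈ T, t j ≤ 160 * ((bt2 B Q T U).card : ℤ))
    (HX : ∀ j ∈ Trs B Q T (Rg B Q T U F) U F P, (t j < 0 ∨ 0 < ncl B Q T U F P j) →
      ∑ C ∈ P, Xv v B Q T U F P j C ≤ 8 * sT B Q T U F 15 j + t j)
    (H0 : ∀ C ∈ P, (aC B Q T U F P C).card = 0 → ndC v B Q T U F P a t C ≤ 0)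
    (HN : ∀ C ∈ P, 2 ≤ (aC B Q T U F P C).card →
      ndC v B Q T U F P a t C ≤ ∑ j ∈ aC B Q T U F P C, clm j C)
    (LN : ∀ j ∈ tl B Q T U F P, ∀ C D, C ≠ D → lj B Q U F P j = {C, D} →
      2 ≤ (aC B Q T U F P C).card → 2 ≤ (aC B Q T U F P D).card →
      clm j C + clm j D ≤ 8 * sT B Q T U F 15 j + t j - 1120)
    (L1 : ∀ j ∈ tl B Q T U F P, ∀ C D, C ≠ D → lj B Q U F P j = {C, D} →
      (aC B Q T U F P C).card = 1 → 2 ≤ (aC B Q T U F P D).card →
      ndC v B Q T U F P a t C + clm j D ≤ 8 * sT B Q T U F 15 j + t j - 1120)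
    (L2 : ∀ j ∈ tl B Q T U F P, ∀ C D, C ≠ D → lj B Q U F P j = {C, D} →
      (aC B Q T U F P C).card = 1 → (aC B Q T U F P D).card = 1 →
      ndC v B Q T U F P a t C + ndC v B Q T U F P a t D ≤
        8 * sT B Q T U F 15 j + t j - 1120)
    (LF : ∀ j ∈ tl B Q T U F P, 1 ≤ (oj B Q U F P j).card →
      ∑ C ∈ (lj B Q U F P j).filter (fun C => (aC B Q T U F P C).card = 1),
        ndC v B Q T U F P a t C +
      ∑ C ∈ (lj B Q U F P j).filter (fun C => 2 ≤ (aC B Q T U F P C).card), clm j C ≤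
        8 * sT B Q T U F 15 j + t j - 1120 +
          168 * ∑ u ∈ oj B Q U F P j, (uo B Q T U F u : ℤ)) :
    False := by
  refine s.fin_trE (v := v) clm t htr (fun j hj => ?_) H0 HN fun j hj => ?_
  · by_cases h0 : t j < 0 ∨ 0 < ncl B Q T U F P j
    · exact HX j hj h0
    · rw [not_or, not_lt, not_lt, Nat.le_zero] at h0
      have := s.frm.Xv_le s.alp s.viol.reg s.part hv hj h0.2
      linarith [h0.1]
  rcases s.two_or hj with ⟨h2, h0⟩ | ⟨_, h3⟩
  swap
  · exact LF j hj h3
  rw [h0, sum_empty, mul_zero, add_zero]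
  obtain ⟨C, D, hCD, hl⟩ := card_eq_two.1 h2
  have hpos : ∀ E ∈ lj B Q U F P j, 1 ≤ (aC B Q T U F P E).card := fun E hE =>
    card_pos.2 ⟨j, Sp.mem_atl.2 ⟨hj, hE⟩⟩
  have hC := hpos C (by rw [hl]; exact mem_insert_self _ _)
  have hD := hpos D (by rw [hl]; exact mem_insert_of_mem (mem_singleton_self D))
  have hswap : lj B Q U F P j = {D, C} := by rw [hl, pair_comm]
  rw [sum_filter, sum_filter, hl, sum_pair hCD, sum_pair hCD]
  rcases hC.eq_or_lt with h4 | h4
  · rcases hD.eq_or_lt with h5 | h5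
    · rw [if_pos h4.symm, if_pos h5.symm, if_neg (by omega), if_neg (by omega)]
      have := L2 j hj C D hCD hl h4.symm h5.symm
      linarith
    · rw [if_pos h4.symm, if_neg (by omega), if_neg (by omega), if_pos (by omega)]
      have := L1 j hj C D hCD hl h4.symm (by omega)
      linarith
  · rcases hD.eq_or_lt with h5 | h5
    · rw [if_neg (by omega), if_pos h5.symm, if_pos (by omega), if_neg (by omega)]
      have := L1 j hj D C hCD.symm hswap h5.symm (by omega)
      linarith
    · rw [if_neg (by omega), if_neg (by omega), if_pos (by omega), if_pos (by omega)]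
      have := LN j hj C D hCD hl (by omega) (by omega)
      linarith

end Stg

end Pool.Agent.Hyp6
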