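import Pool.Agent.Hyp6.L3Gl
import Pool.Agent.Hyp6.L3Sr
import Pool.Agent.Hyp6.L3Fn

/-!
# HYP6 L3Fo: the assembly with the final prices

`pr c n m`: the price of a triple with `c` claims at an end with `n` of its hits, `m` at the other end,
above `560`. `clmF`: the claims. A line triple with two classes pays at a private class what the class
needs and the rest at the other class; if no class is private it pays `pr`. The claims `fat` of the
lines with own points are arbitrary. `StgR.finF`: the assembly with these claims.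
-/

set_option autoImplicit false

namespace Pool.Agent.Hyp6

open Finset Pool.Agent.Hyp5 Rt

universe u v

variable {V : Type v} [DecidableEq V] {ι : Type u} [Fintype ι] [DecidableEq ι]
  {B : ι → Finset V}

/-- the useless hits of a triple. -/
def uj (B : ι → Finset V) (Q : Finset V) (F : Finset (Finset V)) (j : ι) : ℤ :=
  12 - ∑ L ∈ F, (jh B Q j L : ℤ)

/-- the price at an end with `n` hits, `m` hits at the other end, no claims, above `560`. -/
def pr0 (n m : ℕ) : ℤ :=
  if 9 ≤ n then 41
  else if 9 ≤ m then 16 * (12 - n - m) - 33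
  else if n = 8 then 42
  else if m = 8 then 16 * (12 - n - m) - 34
  else if n = 7 ∧ m ≤ 2 then 16 * (12 - n - m) + 41
  else if n ≤ 2 ∧ m = 7 then -33
  else if n = 5 ∧ (m = 6 ∨ m = 7) then 15
  else if n = 7 ∧ m = 5 then -7
  else if n = 6 ∧ m = 5 then 9
  else 4 + 8 * (12 - n - m)

/-- the price of a triple with claims at an end with `n >= 5` hits. -/
def bigD (n : ℕ) : ℤ :=
  if n = 5 then 15 else if n = 6 then 4 else if n = 7 then -17 else if n = 8 then -28 else 41

/-- the price of a triple with claims at the smaller end, both ends with at most four hits. -/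
def smD (n : ℕ) : ℤ := if n ≤ 1 then -161 else if n = 2 then -97 else -33

/-- the price of a triple with `c` claims. -/
def prD (c n m : ℕ) : ℤ :=
  if 5 ≤ n ∧ m ≤ 4 then bigD n
  else if n ≤ 4 ∧ 5 ≤ m then 8 + 16 * (12 - n - m) - 80 * c - bigD m
  else if n < m ∧ m ≤ 4 then smD n
  else if m < n ∧ n ≤ 4 then 8 + 16 * (12 - n - m) - 80 * c - smD m
  else 4 + 8 * (12 - n - m) - 40 * c

/-- **the price** at an end with `n` hits, `m` hits at the other end, `c` claims, above `560`. -/
def pr (c n m : ℕ) : ℤ := if c = 0 then pr0 n m else prD c n m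

theorem pr0_sum {n m : ℕ} (h : n + m ≤ 12) : pr0 n m + pr0 m n = 8 + 16 * (12 - n - m) := by
  have hn : n ≤ 12 := by omega
  have hm : m ≤ 12 := by omega
  interval_cases n <;> interval_cases m <;> first | omega | decide

theorem prD_sum (c : ℕ) {n m : ℕ} : prD c n m + prD c m n = 8 + 16 * (12 - n - m) - 80 * c := by
  unfold prD
  by_cases h1 : 5 ≤ n <;> by_cases h2 : 5 ≤ m
  · rw [if_neg (by omega), if_neg (by omega), if_neg (by omega), if_neg (by omega),
      if_neg (by omega), if_neg (by omega), if_neg (by omega), if_neg (by omega)]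
    ring
  · rw [if_pos (by omega), if_neg (by omega), if_pos (by omega)]
    ring
  · rw [if_neg (by omega), if_pos (by omega), if_pos (by omega)]
    ring
  · rw [if_neg (by omega), if_neg (by omega)]
    rcases lt_trichotomy n m with h3 | h3 | h3
    · rw [if_pos (by omega), if_neg (by omega), if_neg (by omega), if_neg (by omega),
        if_pos (by omega)]
      ring
    · subst h3
      rw [if_neg (by omega), if_neg (by omega), if_neg (by omega), if_neg (by omega)]
      ring
    · rw [if_neg (by omega), if_pos (by omega), if_neg (by omega), if_neg (by omega),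
        if_pos (by omega)]
      ring

theorem pr_sum (c : ℕ) {n m : ℕ} (h : n + m ≤ 12) :
    pr c n m + pr c m n = 8 + 16 * (12 - n - m) - 80 * c := by
  unfold pr
  by_cases h0 : c = 0
  · rw [if_pos h0, if_pos h0, pr0_sum h, h0]
    push_cast
    ring
  · rw [if_neg h0, if_neg h0, prD_sum]

/-- a lower bound of the price without claims. -/
def payN (n : ℕ) : ℤ :=
  if n ≤ 3 then -33
  else if n = 4 then -34
  else if n = 5 then 15
  else if n = 6 then 4
  else if n = 7 then -7
  else if n = 8 then 42
  else 41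

theorem pr0_ge {n m : ℕ} (h : n + m ≤ 12) : payN n ≤ pr0 n m := by
  have hn : n ≤ 12 := by omega
  have hm : m ≤ 12 := by omega
  interval_cases n <;> interval_cases m <;> first | omega | decide

/-- a lower bound of the price. -/
def payD (n : ℕ) : ℤ :=
  if n ≤ 1 then -161
  else if n = 2 then -97
  else if n = 3 then -33
  else if n = 4 then -34
  else if n = 5 then 15
  else if n = 6 then 4
  else if n = 7 then -17
  else if n = 8 then -28
  else 41

theorem payD_le (n : ℕ) : payD n ≤ payN n := by
  unfold payD payN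
  split_ifs <;> omega

/-- **the lower bound of the price**: a triple with `c >= 1` claims has at most `8 - c` hits or at most
`4 - c` hits at one end. -/
theorem pr_ge {c n m : ℕ} (h : n + m ≤ 12) (hn : 1 ≤ n) (hm : 1 ≤ m)
    (hc : 1 ≤ c → n + m + c ≤ 8 ∨ (n + m + c ≤ 12 ∧ (n + c ≤ 4 ∨ m + c ≤ 4))) :
    payD n ≤ pr c n m := by
  rcases Nat.eq_zero_or_pos c with rfl | h0
  · unfold pr
    rw [if_pos rfl]
    exact (payD_le n).trans (pr0_ge h)
  · have hc' := hc h0
    have h1 : c ≤ 6 := by omega
    have hn' : n ≤ 12 := by omega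
    have hm' : m ≤ 12 := by omega
    unfold pr
    rw [if_neg (by omega)]
    interval_cases c <;> interval_cases n <;> interval_cases m <;> first | omega | decide

/-- the claims. -/
noncomputable def clmF (v : ℤ) (B : ι → Finset V) (Q : Finset V) (T : Finset ι) (U : Finset V)
    (F : Finset (Finset V)) (P : Finset (Finset (Finset V))) (a : V → Finset (Finset V) → ℕ)
    (fat : ι → Finset (Finset V) → ℤ) (j : ι) (C : Finset (Finset V)) : ℤ :=
  if (lj B Q U F P j).card = 2 then
    ∑ D ∈ (lj B Q U F P j).erase C,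
      (if (aC B Q T U F P D).card = 1 then
        8 * sT B Q T U F 15 j + tF B Q T U F P j - 1120 - ndC v B Q T U F P a (tF B Q T U F P) D
      else pr (ncl B Q T U F P j) (jC B Q j C) (jC B Q j D))
  else fat j C

omit [DecidableEq ι] in
theorem FpK_Kf [DecidableEq ι] (B : ι → Finset V) (Q : Finset V) (T : Finset ι) (U : Finset V)
    (F : Finset (Finset V)) (P : Finset (Finset (Finset V))) :
    FpK B Q T U F (Kf B Q T U F P) := by
  intro k0 hk0
  obtain ⟨j, i, a, b, c, x, h, _⟩ := mem_Kf.1 hk0
  exact ⟨j, i, a, b, c, x, h.toPxf.fpb h.g0⟩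

namespace Stg

variable {Q U : Finset V} {T : Finset ι} {F : Finset (Finset V)}
  {P : Finset (Finset (Finset V))} {a : V → Finset (Finset V) → ℕ}

/-- the supply of a line triple. -/
theorem sT_uj (s : Stg B Q T U F P a) {j : ι} (hj : j ∈ tl B Q T U F P) :
    8 * sT B Q T U F 15 j - 1120 = 8 + 16 * uj B Q F j := by
  rw [s.sT_tl hj]
  unfold uj
  ring

theorem uj_nonneg (s : Stg B Q T U F P a) {j : ι} (hj : j ∈ T) : 0 ≤ uj B Q F j := by
  have h1 : ((∑ L ∈ F, jh B Q j L : ℕ) : ℤ) ≤ 12 := by exact_mod_cast s.jh_le hj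
  unfold uj
  push_cast at h1
  linarith

/-- all hits of a line triple are on the classes of its line. -/
theorem jC_line (s : Stg B Q T U F P a) {j : ι} (hj : j ∈ tl B Q T U F P) :
    ∑ C ∈ lj B Q U F P j, (jC B Q j C : ℤ) = 12 - uj B Q F j := by
  have h1 : ∑ C ∈ lj B Q U F P j, (jC B Q j C : ℤ) = ∑ C ∈ P, (jC B Q j C : ℤ) := by
    refine sum_subset Sp.lx_sub fun C hC hn => ?_
    rw [s.frm.jC_zero s.part hC (s.tl_sub hj).1 (fun hm => hn (Sp.met_sub_lx hm))]
    rfl
  rw [h1]
  have h2 : ((∑ C ∈ P, jC B Q j C : ℕ) : ℤ) = ((∑ L ∈ F, jh B Q j L : ℕ) : ℤ) := by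
    rw [Frm.jC_all s.part j]
  unfold uj
  push_cast at h2 ⊢
  linarith

/-- the hits of a line triple with two classes. -/
theorem jC_pair (s : Stg B Q T U F P a) {j : ι} (hj : j ∈ tl B Q T U F P)
    {C D : Finset (Finset V)} (hCD : C ≠ D) (hl : lj B Q U F P j = {C, D}) :
    (jC B Q j C : ℤ) + jC B Q j D = 12 - uj B Q F j := by
  have h1 := s.jC_line hj
  rw [hl, sum_pair hCD] at h1
  exact h1

/-- the claim at the other end of a private class. -/
theorem clmF_rest (_s : Stg B Q T U F P a) {v : ℤ} {fat : ι → Finset (Finset V) → ℤ} {j : ι}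
    {C D : Finset (Finset V)} (hCD : C ≠ D)
    (hl : lj B Q U F P j = {C, D}) (hC : (aC B Q T U F P C).card = 1) :
    clmF v B Q T U F P a fat j D =
      8 * sT B Q T U F 15 j + tF B Q T U F P j - 1120 -
        ndC v B Q T U F P a (tF B Q T U F P) C := by
  unfold clmF
  rw [if_pos (by rw [hl, card_pair hCD])]
  have h1 : (lj B Q U F P j).erase D = {C} := by
    rw [hl]
    ext E
    simp only [mem_erase, mem_insert, mem_singleton]
    constructor
    · rintro ⟨h1, h2 | h2⟩
      · exact h2
      · exact absurd h2 h1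
    · rintro rfl
      exact ⟨hCD, Or.inl rfl⟩
  rw [h1, sum_singleton, if_pos hC]

/-- the claim if no end is private. -/
theorem clmF_two (_s : Stg B Q T U F P a) {v : ℤ} {fat : ι → Finset (Finset V) → ℤ} {j : ι}
    {C D : Finset (Finset V)} (hCD : C ≠ D)
    (hl : lj B Q U F P j = {C, D}) (hC : (aC B Q T U F P C).card ≠ 1) :
    clmF v B Q T U F P a fat j D = pr (ncl B Q T U F P j) (jC B Q j D) (jC B Q j C) := by
  unfold clmF
  rw [if_pos (by rw [hl, card_pair hCD])]
  have h1 : (lj B Q U F P j).erase D = {C} := by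
    rw [hl]
    ext E
    simp only [mem_erase, mem_insert, mem_singleton]
    constructor
    · rintro ⟨h1, h2 | h2⟩
      · exact h2
      · exact absurd h2 h1
    · rintro rfl
      exact ⟨hCD, Or.inl rfl⟩
  rw [h1, sum_singleton, if_neg hC]

/-- the claim on a line with own points. -/
theorem clmF_fat (s : Stg B Q T U F P a) {v : ℤ} {fat : ι → Finset (Finset V) → ℤ} {j : ι}
    (hj : j ∈ tl B Q T U F P)
    (ho : 1 ≤ (oj B Q U F P j).card) {C : Finset (Finset V)} :
    clmF v B Q T U F P a fat j C = fat j C := by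
  unfold clmF
  rw [if_neg]
  intro h2
  have h1 : (lj B Q U F P j).card = (oj B Q U F P j).card + 2 := s.lnf.card j hj
  omega

omit [DecidableEq ι] in
/-- a triple gives at most `80` for every claim. -/
theorem tF_ge (j : ι) : -80 * (ncl B Q T U F P j : ℤ) ≤ tF B Q T U F P j := by
  unfold tF tfr ncl
  have h1 : (0 : ℤ) ≤ (((Kf B Q T U F P).filter
    (fun k0 => (B k0 ∩ (B j ∩ Q)).card = 2)).card : ℤ) := by positivity
  linarith

end Stg

namespace StgR

variable {Q U : Finset V} {T : Finset ι} {F : Finset (Finset V)}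
  {P : Finset (Finset (Finset V))} {a : V → Finset (Finset V) → ℕ}

/-- **the assembly with the final prices**. -/
theorem finF (s : StgR B Q T U F P a) {v : ℤ} (hv : v ≤ 149)
    (fat : ι → Finset (Finset V) → ℤ)
    (HX : ∀ j ∈ Trs B Q T (Rg B Q T U F) U F P, 0 < ncl B Q T U F P j →
      ∑ C ∈ P, Xv v B Q T U F P j C ≤ 8 * sT B Q T U F 15 j + tF B Q T U F P j)
    (H0 : ∀ C ∈ P, (aC B Q T U F P C).card = 0 →
      ndC v B Q T U F P a (tF B Q T U F P) C ≤ 0)
    (HN : ∀ C ∈ P, 2 ≤ (aC B Q T U F P C).card →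
      ndC v B Q T U F P a (tF B Q T U F P) C ≤
        ∑ j ∈ aC B Q T U F P C, clmF v B Q T U F P a fat j C)
    (L2 : ∀ j ∈ tl B Q T U F P, ∀ C D, C ≠ D → lj B Q U F P j = {C, D} →
      (aC B Q T U F P C).card = 1 → (aC B Q T U F P D).card = 1 →
      ndC v B Q T U F P a (tF B Q T U F P) C + ndC v B Q T U F P a (tF B Q T U F P) D ≤
        8 * sT B Q T U F 15 j + tF B Q T U F P j - 1120)
    (LF : ∀ j ∈ tl B Q T U F P, 1 ≤ (oj B Q U F P j).card →
      ∑ C ∈ (lj B Q U F P j).filter (fun C => (aC B Q T U F P C).card = 1),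
        ndC v B Q T U F P a (tF B Q T U F P) C +
      ∑ C ∈ (lj B Q U F P j).filter (fun C => 2 ≤ (aC B Q T U F P C).card), fat j C ≤
        8 * sT B Q T U F 15 j + tF B Q T U F P j - 1120 +
          168 * ∑ u ∈ oj B Q U F P j, (uo B Q T U F u : ℤ)) :
    False := by
  have s' := s.toStg
  refine s'.fin_all hv (clmF v B Q T U F P a fat) (tF B Q T U F P)
    (tfr_sum (FpK_Kf B Q T U F P) s.mtr (by norm_num) (by norm_num)) ?_ H0 HN ?_ ?_ L2 ?_
  · intro j hj h1
    refine HX j hj ?_
    rcases h1 with h1 | h1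
    · by_contra h0
      have h2 : ncl B Q T U F P j = 0 := Nat.eq_zero_of_not_pos h0
      have h3 := Stg.tF_ge (B := B) (Q := Q) (T := T) (U := U) (F := F) (P := P) j
      rw [h2] at h3
      push_cast at h3
      linarith
    · exact h1
  · intro j hj C D hCD hl hC hD
    have hl' : lj B Q U F P j = {D, C} := by rw [hl, pair_comm]
    rw [s'.clmF_two hCD hl (by omega), s'.clmF_two hCD.symm hl' (by omega)]
    have h1 := s'.sT_uj hj
    have h2 := s'.jC_pair hj hCD hl
    have h3 := Stg.tF_ge (B := B) (Q := Q) (T := T) (U := U) (F := F) (P := P) j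
    have h4 := s'.uj_nonneg (s'.tl_sub hj).1
    have h5 := pr_sum (ncl B Q T U F P j) (n := jC B Q j C) (m := jC B Q j D) (by
      have : (jC B Q j C : ℤ) + jC B Q j D ≤ 12 := by linarith
      exact_mod_cast this)
    linarith
  · intro j hj C D hCD hl hC hD
    rw [s'.clmF_rest hCD hl hC]
    linarith
  · intro j hj ho
    have h1 := LF j hj ho
    rw [sum_congr rfl fun C _ => s'.clmF_fat hj ho]
    exact h1

end StgR

end Pool.Agent.Hyp6
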