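import Pool.Agent.Hyp6.L3Tp
import Pool.Agent.Hyp6.L3Rs

/-!
# HYP6 L3Fp: points of several triples covered together with the even part

If points `X` of the triples of `I` can be covered together with a part `D` of the even part by
less than `rho D + |I|` blocks, then the other points of these triples have no free transversal:
by the theorem of Rado some of them see classes of too small rank (`Frm.rado_part`). The case of two
triples joined by a block or through the even part is the four point lemma (`Frm.four`).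
-/

set_option autoImplicit false

namespace Pool.Agent.Hyp6

open Finset Pool.Agent.Hyp5

universe u v

section

variable {L : Type*} [DecidableEq L] {α : Type*} [DecidableEq α] {τ : Type*} [DecidableEq τ]
  {F : Finset L} {U : Finset α} {N : α → Finset L} {Ts : Finset τ} {NT : τ → Finset L}
  {P : Finset (Finset L)}

omit [DecidableEq τ] in
/-- **the theorem of Rado for the leaves seen**: sets `A p` of leaves without a free transversal have
a subfamily which sees classes of too small rank. -/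
theorem Sp.MinP.rado (hg : Sp.Gd F F U N Ts NT) (h : Sp.MinP F F U N Ts NT P)
    {β : Type*} [DecidableEq β] {R : Finset β} {A : β → Finset L} (hne : R.Nonempty)
    (hno : ∀ x : β → L, (∀ p ∈ R, x p ∈ A p) → (∀ p ∈ R, ∀ q ∈ R, x p = x q → p = q) →
      0 < Sp.dfc U N (R.image x)) :
    ∃ K ⊆ R, K.Nonempty ∧
      Sp.rkn (Sp.nP U N P) (K.biUnion (fun p => Sp.met P (A p))) + 1 ≤ (K.card : ℤ) := by
  classical
  by_contra hcon
  push Not at hcon
  have hn := h.nul hg
  have h0 : Sp.rkn (Sp.nP U N P) ∅ = 0 := by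
    unfold Sp.rkn
    rw [hn.empty, card_empty]
    norm_num
  have hR : Sp.RadoC (Sp.nP U N P) ∅ R (fun p => Sp.met P (A p)) := by
    intro K hK
    rw [h0, empty_union]
    rcases K.eq_empty_or_nonempty with rfl | hKne
    · simp [h0]
    · have := hcon K hK hKne
      linarith
  obtain ⟨p0, hp0⟩ := hne
  have h1 := hcon {p0} (singleton_subset_iff.2 hp0) (singleton_nonempty p0)
  rw [singleton_biUnion, card_singleton] at h1
  have h2 : (Sp.met P (A p0)).Nonempty := by
    by_contra hem
    rw [not_nonempty_iff_eq_empty] at hem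
    rw [hem, h0] at h1
    norm_num at h1
  obtain ⟨C0, hC0⟩ := h2
  have : Nonempty (Finset L) := ⟨C0⟩
  obtain ⟨f, hf, hinj, -, h3⟩ := hn.rado_free hR
  rw [empty_union, hn.empty] at h3
  have hex : ∀ p ∈ R, ∃ x ∈ A p, x ∈ f p := by
    intro p hp
    obtain ⟨_, h4⟩ := Sp.mem_met.1 (hf p hp)
    obtain ⟨x, hx, hx2⟩ := not_disjoint_iff.1 h4
    exact ⟨x, hx, hx2⟩
  obtain ⟨l0, hl0, _⟩ := hex p0 hp0
  have hL : Nonempty L := ⟨l0⟩
  choose! x hx hx2 using hex
  have hdj : ∀ p ∈ R, ∀ q ∈ R, x p = x q → p = q := by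
    intro p hp q hq he
    by_contra hne
    have h4 : f p ≠ f q := fun h5 => hne (hinj hp hq h5)
    have h5 := h.ptn.dj (f p) (Sp.mem_met.1 (hf p hp)).1 (f q) (Sp.mem_met.1 (hf q hq)).1 h4
    exact disjoint_left.1 h5 (hx2 p hp) (he ▸ hx2 q hq)
  have hpos := hno x hx hdj
  set g : Finset L → L := fun D => if hD : ∃ p ∈ R, f p = D then x hD.choose else l0 with hgd
  have hg1 : ∀ p ∈ R, g (f p) = x p := by
    intro p hp
    have hD : ∃ q ∈ R, f q = f p := ⟨p, hp, rfl⟩
    have h4 : g (f p) = x hD.choose := dif_pos hD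
    rw [h4, hinj (mem_coe.2 hD.choose_spec.1) (mem_coe.2 hp) hD.choose_spec.2]
  have h5 := h.ptn.free_leaves hg (S := R.image f) (by
    intro D hD
    obtain ⟨p, hp, rfl⟩ := mem_image.1 hD
    exact (Sp.mem_met.1 (hf p hp)).1) h3.le (x := g) (by
    intro D hD
    obtain ⟨p, hp, rfl⟩ := mem_image.1 hD
    rw [hg1 p hp]
    exact hx2 p hp)
  have h6 : (R.image f).image g = R.image x := by
    rw [image_image]
    exact image_congr fun p hp => hg1 p hp
  rw [h6] at h5
  omega

end

variable {V : Type v} [DecidableEq V] {ι : Type u} [Fintype ι] {B : ι → Finset V}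

/-- two points with a common block. -/
theorem rho_pair_block {D : Finset V} (hc : Cov B D) {a s : V} {k : ι} (ha : a ∈ B k)
    (hs : s ∈ B k) : rho B (D ∪ {a, s}) ≤ rho B D + 1 := by
  refine rho_union_block_le hc (i := k) ?_
  intro v hv
  rw [mem_insert, mem_singleton] at hv
  rcases hv with rfl | rfl <;> assumption

/-- two points joined through `D`. -/
theorem rho_pair_path {D : Finset V} (hc : Cov B D) {a s r r' : V} {k k' : ι} (ha : a ∈ B k)
    (hr : r ∈ B k) (hs : s ∈ B k') (hr' : r' ∈ B k') (hD : rho B (D \ {r, r'}) + 1 ≤ rho B D) :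
    rho B (D ∪ {a, s}) ≤ rho B D + 1 := by
  have h0 : Cov B (D \ {r, r'}) := hc.mono sdiff_subset
  have h1 : ({a, r} : Finset V) ⊆ B k := by
    intro v hv
    rw [mem_insert, mem_singleton] at hv
    rcases hv with rfl | rfl <;> assumption
  have h2 : ({s, r'} : Finset V) ⊆ B k' := by
    intro v hv
    rw [mem_insert, mem_singleton] at hv
    rcases hv with rfl | rfl <;> assumption
  have h3 : Cov B ((D \ {r, r'}) ∪ {a, r}) := h0.union (cov_of_sub_block h1)
  have h4 := rho_union_block_le h0 h1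
  have h5 := rho_union_block_le h3 h2
  have h6 : D ∪ {a, s} ⊆ ((D \ {r, r'}) ∪ {a, r}) ∪ {s, r'} := by
    intro v hv
    simp only [mem_union, mem_sdiff, mem_insert, mem_singleton] at hv ⊢
    tauto
  have h7 := rho_mono h6 (h3.union (cov_of_sub_block h2))
  omega

namespace Frm

variable {Q U : Finset V} {T : Finset ι} {F : Finset (Finset V)} {P : Finset (Finset (Finset V))}
  {τ : Type*} [DecidableEq τ] {Ts : Finset τ} {NT : τ → Finset (Finset V)}

/-- points of the triples of `I` covered together with a part of the even part: the other points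
have no free transversal. -/
theorem no_match_part (h : Frm B Q T U F) {D : Finset V} (hD : Dcl B Q T U F D) {I : Finset ι}
    (hI : I ⊆ T) {X : Finset V} (hX : X ⊆ Q)
    (hE : rho B (D ∪ X) + 1 ≤ rho B D + I.card) {x : V → Finset V}
    (hx : ∀ p ∈ (I.biUnion B ∩ Q) \ X, x p ∈ slf B F p)
    (hinj : ∀ p ∈ (I.biUnion B ∩ Q) \ X, ∀ q ∈ (I.biUnion B ∩ Q) \ X, x p = x q → p = q) :
    0 < Sp.dfc U (slf B F) (((I.biUnion B ∩ Q) \ X).image x) := by
  classical
  by_contra hcon
  push Not at hcon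
  have h1 := h.cost (A := ∅) (empty_subset _) hD (T' := ∅) (empty_subset _) (U' := ∅)
    (empty_subset _) (g' := x) ⟨by simp, by simp, by simp⟩ hI (disjoint_empty_right _)
    (P := X) (R := (I.biUnion B ∩ Q) \ X) hX
    (fun j hj v hv => by
      by_cases hvX : v ∈ X
      · exact Or.inl hvX
      · exact Or.inr (mem_sdiff.2 ⟨mem_inter.2
          ⟨mem_biUnion.2 ⟨j, hj, (mem_inter.1 hv).1⟩, (mem_inter.1 hv).2⟩, hvX⟩))
    sdiff_subset (x := x) (fun p hp => ⟨hx p hp, notMem_empty _⟩) hinj (by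
      rw [sdiff_empty, empty_union]
      exact hcon)
  have h2 : Zn B Q (∅ : Finset ι) ∅ ∅ D = D := by
    unfold Zn
    simp
  rw [h2] at h1
  omega

omit [DecidableEq τ] in
/-- **points of the triples of `I` covered together with a part of the even part**: some of the
other points see classes of too small rank. -/
theorem rado_part (h : Frm B Q T U F) (hg : Sp.Gd F F U (slf B F) Ts NT)
    (hP : Sp.MinP F F U (slf B F) Ts NT P) {D : Finset V} (hD : Dcl B Q T U F D) {I : Finset ι}
    (hI : I ⊆ T) {X : Finset V} (hX : X ⊆ Q)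
    (hE : rho B (D ∪ X) + 1 ≤ rho B D + I.card) (hne : ((I.biUnion B ∩ Q) \ X).Nonempty) :
    ∃ K ⊆ (I.biUnion B ∩ Q) \ X, K.Nonempty ∧
      Sp.rkn (Sp.nP U (slf B F) P) (K.biUnion (mcl B F P)) + 1 ≤ (K.card : ℤ) :=
  hP.rado hg hne fun _ hx hinj => h.no_match_part hD hI hX hE hx hinj

omit [DecidableEq τ] in
/-- **the four point lemma**: `a` and `s` are points of two triples which can be covered together
with a part of the even part by one further block. Then among the four other points one sees no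
class, or two see together at most one class, or three at most rank two, or all four at most rank
three. -/
theorem four (h : Frm B Q T U F) (hg : Sp.Gd F F U (slf B F) Ts NT)
    (hP : Sp.MinP F F U (slf B F) Ts NT P) {D : Finset V} (hD : Dcl B Q T U F D) {i j : ι}
    (hi : i ∈ T) (hj : j ∈ T) (hij : i ≠ j) {a b c s t w : V} (hTi : B i ∩ Q = {a, b, c})
    (hTj : B j ∩ Q = {s, t, w}) (hab : a ≠ b) (hac : a ≠ c) (hbc : b ≠ c) (hst : s ≠ t)
    (hsw : s ≠ w) (htw : t ≠ w) (hE : rho B (D ∪ {a, s}) ≤ rho B D + 1) :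
    ∃ K ⊆ ({b, c, t, w} : Finset V), K.Nonempty ∧
      Sp.rkn (Sp.nP U (slf B F) P) (K.biUnion (mcl B F P)) + 1 ≤ (K.card : ℤ) := by
  classical
  have ha : a ∈ B i ∩ Q := by rw [hTi]; simp
  have hb : b ∈ B i ∩ Q := by rw [hTi]; simp
  have hc : c ∈ B i ∩ Q := by rw [hTi]; simp
  have hs : s ∈ B j ∩ Q := by rw [hTj]; simp
  have ht : t ∈ B j ∩ Q := by rw [hTj]; simp
  have hw : w ∈ B j ∩ Q := by rw [hTj]; simp
  have hdis := h.mtp.tpk.pack.disj i hi j hj hij
  have hne : ∀ p ∈ B i ∩ Q, ∀ q ∈ B j ∩ Q, p ≠ q := by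
    rintro p hp q hq rfl
    exact disjoint_left.1 hdis hp hq
  have hset : ((({i, j} : Finset ι).biUnion B ∩ Q) \ {a, s}) = {b, c, t, w} := by
    have h1 : (({i, j} : Finset ι).biUnion B ∩ Q) = (B i ∩ Q) ∪ (B j ∩ Q) := by
      rw [biUnion_insert, singleton_biUnion, union_inter_distrib_right]
    rw [h1, hTi, hTj]
    ext v
    simp only [mem_sdiff, mem_union, mem_insert, mem_singleton, not_or]
    constructor
    · rintro ⟨h2, h3, h4⟩
      tauto
    · rintro (rfl | rfl | rfl | rfl)
      · exact ⟨by tauto, hab.symm, hne _ hb _ hs⟩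
      · exact ⟨by tauto, hac.symm, hne _ hc _ hs⟩
      · exact ⟨by tauto, (hne _ ha _ ht).symm, hst.symm⟩
      · exact ⟨by tauto, (hne _ ha _ hw).symm, hsw.symm⟩
  have hcard : ({i, j} : Finset ι).card = 2 := card_pair hij
  have hX : ({a, s} : Finset V) ⊆ Q := by
    intro v hv
    rw [mem_insert, mem_singleton] at hv
    rcases hv with rfl | rfl
    · exact (mem_inter.1 ha).2
    · exact (mem_inter.1 hs).2
  have h5 := h.rado_part hg hP hD (I := {i, j}) (by
    intro k hk
    rw [mem_insert, mem_singleton] at hk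
    rcases hk with rfl | rfl <;> assumption) (X := {a, s}) hX (by rw [hcard]; omega) (by
      rw [hset]
      exact ⟨b, by simp⟩)
  rwa [hset] at h5

end Frm

omit [Fintype ι] in
/-- the explicit form of a set of four points of small rank. -/
theorem four_cases {P : Finset (Finset (Finset V))} {F : Finset (Finset V)}
    {r : Finset (Finset (Finset V)) → ℤ}
    {b c t w : V} (hbc : b ≠ c) (hbt : b ≠ t) (hbw : b ≠ w) (hct : c ≠ t) (hcw : c ≠ w)
    (htw : t ≠ w)
    (h : ∃ K ⊆ ({b, c, t, w} : Finset V), K.Nonempty ∧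
      r (K.biUnion (mcl B F P)) + 1 ≤ (K.card : ℤ)) :
    (r (mcl B F P b) ≤ 0 ∨ r (mcl B F P c) ≤ 0 ∨ r (mcl B F P t) ≤ 0 ∨ r (mcl B F P w) ≤ 0) ∨
    (r (mcl B F P b ∪ mcl B F P c) ≤ 1 ∨ r (mcl B F P b ∪ mcl B F P t) ≤ 1 ∨
      r (mcl B F P b ∪ mcl B F P w) ≤ 1 ∨ r (mcl B F P c ∪ mcl B F P t) ≤ 1 ∨
      r (mcl B F P c ∪ mcl B F P w) ≤ 1 ∨ r (mcl B F P t ∪ mcl B F P w) ≤ 1) ∨
    (r (mcl B F P b ∪ (mcl B F P c ∪ mcl B F P t)) ≤ 2 ∨
      r (mcl B F P b ∪ (mcl B F P c ∪ mcl B F P w)) ≤ 2 ∨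
      r (mcl B F P b ∪ (mcl B F P t ∪ mcl B F P w)) ≤ 2 ∨
      r (mcl B F P c ∪ (mcl B F P t ∪ mcl B F P w)) ≤ 2) ∨
    r (mcl B F P b ∪ (mcl B F P c ∪ (mcl B F P t ∪ mcl B F P w))) ≤ 3 := by
  classical
  obtain ⟨K, hK, hne, hr⟩ := h
  have key : K = ({b, c, t, w} : Finset V).filter (fun v => v ∈ K) := by
    ext v
    rw [mem_filter]
    exact ⟨fun hv => ⟨hK hv, hv⟩, fun hv => hv.2⟩
  have h5 : ({b, c, t, w} : Finset V).card = 4 := by
    rw [card_insert_of_notMem (by simp [hbc, hbt, hbw]),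
      card_insert_of_notMem (by simp [hct, hcw]), card_pair htw]
  have h6 : ∀ x y z : V, x ≠ y → x ≠ z → y ≠ z → ({x, y, z} : Finset V).card = 3 :=
    fun x y z hxy hxz hyz => card_eq_three.2 ⟨x, y, z, hxy, hxz, hyz, rfl⟩
  by_cases h1 : b ∈ K <;> by_cases h2 : c ∈ K <;> by_cases h3 : t ∈ K <;> by_cases h4 : w ∈ K <;>
    simp only [filter_insert, filter_singleton, h1, h2, h3, h4, if_true, if_false,
      insert_empty_eq] at key <;>
    rw [key] at hr hne <;>
    simp only [biUnion_insert, singleton_biUnion, biUnion_empty, card_empty, card_singleton,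
      card_pair hbc, card_pair hbt, card_pair hbw, card_pair hct, card_pair hcw, card_pair htw,
      h6 b c t hbc hbt hct, h6 b c w hbc hbw hcw, h6 b t w hbt hbw htw, h6 c t w hct hcw htw,
      h5] at hr <;>
    push_cast at hr
  · exact Or.inr (Or.inr (Or.inr (by linarith)))
  · exact Or.inr (Or.inr (Or.inl (Or.inl (by linarith))))
  · exact Or.inr (Or.inr (Or.inl (Or.inr (Or.inl (by linarith)))))
  · exact Or.inr (Or.inl (Or.inl (by linarith)))
  · exact Or.inr (Or.inr (Or.inl (Or.inr (Or.inr (Or.inl (by linarith))))))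
  · exact Or.inr (Or.inl (Or.inr (Or.inl (by linarith))))
  · exact Or.inr (Or.inl (Or.inr (Or.inr (Or.inl (by linarith)))))
  · exact Or.inl (Or.inl (by linarith))
  · exact Or.inr (Or.inr (Or.inl (Or.inr (Or.inr (Or.inr (by linarith))))))
  · exact Or.inr (Or.inl (Or.inr (Or.inr (Or.inr (Or.inl (by linarith))))))
  · exact Or.inr (Or.inl (Or.inr (Or.inr (Or.inr (Or.inr (Or.inl (by linarith)))))))
  · exact Or.inl (Or.inr (Or.inl (by linarith)))
  · exact Or.inr (Or.inl (Or.inr (Or.inr (Or.inr (Or.inr (Or.inr (by linarith)))))))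
  · exact Or.inl (Or.inr (Or.inr (Or.inl (by linarith))))
  · exact Or.inl (Or.inr (Or.inr (Or.inr (by linarith))))
  · exact absurd hne not_nonempty_empty

end Pool.Agent.Hyp6
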