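import Pool.Agent.Hyp6.L3Fps
import Pool.Agent.Hyp6.L3Br

/-!
# HYP6 L3Fpd: donors

The triple of the third point `s` of an inner block `k0 = {a, b, s}` at a free point. `Fpb.donor`: one of
the other two points sees no leaf except `{x}`, or both see only `{x}` and one class. `Fpb.two_see`,
`Fpb.two_dead`: two claims on different points of a triple, the third point sees no leaf.
`Fpb.three`: no claims on the three points of a triple. `Pex3.mirror_single`: the hits on small own
classes are single if one of the points sees no leaf except this class.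
-/

set_option autoImplicit false

namespace Pool.Agent.Hyp6

open Finset Pool.Agent.Hyp5 Rt

universe u v

variable {V : Type v} [DecidableEq V] {ι : Type u} [Fintype ι] {B : ι → Finset V}

section dfc

variable {L : Type*} [DecidableEq L] {α : Type*} [DecidableEq α] {τ : Type*} [DecidableEq τ]
  {F : Finset L} {U : Finset α} {N : α → Finset L} {Ts : Finset τ} {NT : τ → Finset L}
  {P : Finset (Finset L)}

omit [DecidableEq α] in
/-- leaves which are not seen, and one more leaf, are free. -/
theorem Sp.dfc_own {A : Finset L} {M : L}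
    (sur : ∀ Y ⊆ U, Y.Nonempty → Y.card + 1 ≤ ((Y.biUnion N) ∩ F).card)
    (hA : ∀ u ∈ U, ∀ C ∈ A, C ≠ M → C ∉ N u) : Sp.dfc U N A ≤ 0 := by
  refine Sp.dfc_le fun Y hY => ?_
  rcases Y.eq_empty_or_nonempty with rfl | hne
  · simp
  have h1 := sur Y hY hne
  have h2 : ((Y.biUnion N) ∩ F).erase M ⊆ (Y.biUnion N) \ A := by
    intro C hC
    obtain ⟨h3, h4⟩ := mem_erase.1 hC
    refine mem_sdiff.2 ⟨(mem_inter.1 h4).1, fun h5 => ?_⟩
    obtain ⟨u, hu, huC⟩ := mem_biUnion.1 (mem_inter.1 h4).1
    exact hA u (hY hu) C h5 h3 huC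
  have h3 := card_le_card h2
  have h4 : ((Y.biUnion N) ∩ F).card ≤ (((Y.biUnion N) ∩ F).erase M).card + 1 := by
    by_cases hM : M ∈ (Y.biUnion N) ∩ F
    · rw [card_erase_add_one hM]
    · rw [erase_eq_of_notMem hM]
      omega
  have h5 : (Y.card : ℤ) ≤ ((Y.biUnion N) \ A).card := by
    exact_mod_cast (by omega : Y.card ≤ ((Y.biUnion N) \ A).card)
  linarith

/-- a class which is not seen by the points in no class: if it has rank at most two with other classes,
then these are at most one. -/
theorem Sp.MinP.ins_le (hg : Sp.Gd F F U N Ts NT) (h : Sp.MinP F F U N Ts NT P)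
    {C0 : Finset L} (hC0 : C0 ∈ P) (hu : ∀ u ∈ U, Disjoint (N u) C0)
    {A : Finset (Finset L)} (hA : A ⊆ P)
    (hr : Sp.rkn (Sp.nP U N P) (insert C0 A) ≤ 2) : (A.erase C0).card ≤ 1 := by
  by_contra hcon
  have h1 := h.rk_two hg ((erase_subset C0 A).trans hA) (by omega)
  have h2 : insert C0 A = insert C0 (A.erase C0) := by
    ext D
    simp only [mem_insert, mem_erase]
    constructor
    · rintro (h3 | h3)
      · exact Or.inl h3
      · by_cases h4 : D = C0
        · exact Or.inl h4
        · exact Or.inr ⟨h4, h3⟩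
    · rintro (h3 | ⟨_, h3⟩)
      · exact Or.inl h3
      · exact Or.inr h3
  have h3 : Sp.nP U N P (insert C0 (A.erase C0)) ≤ Sp.nP U N P (A.erase C0) := by
    unfold Sp.nP
    refine Sp.dfc_le fun Y hY => ?_
    have h4 := Sp.le_dfc (U := Sp.Ux U N P) (N := fun u => Sp.met P (N u))
      (D := A.erase C0) hY
    have h5 : Y.biUnion (fun u => Sp.met P (N u)) \ insert C0 (A.erase C0) =
        Y.biUnion (fun u => Sp.met P (N u)) \ (A.erase C0) := by
      ext D
      simp only [mem_sdiff, mem_insert, not_or]
      constructor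
      · rintro ⟨h6, _, h7⟩
        exact ⟨h6, h7⟩
      · rintro ⟨h6, h7⟩
        refine ⟨h6, ?_, h7⟩
        rintro rfl
        obtain ⟨u, hu', hD⟩ := mem_biUnion.1 h6
        exact (Sp.mem_met.1 hD).2 (hu u (mem_filter.1 (hY hu')).1)
    rw [h5]
    exact h4
  rw [h2] at hr
  unfold Sp.rkn at hr h1
  rw [card_insert_of_notMem (notMem_erase C0 A)] at hr
  push_cast at hr
  linarith

end dfc

namespace Fpb

variable {Q U : Finset V} {T : Finset ι} {F : Finset (Finset V)} {j i k0 : ι} {a b c x : V}
  {P : Finset (Finset (Finset V))} {τ : Type*} [DecidableEq τ] {Ts : Finset τ}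
  {NT : τ → Finset (Finset V)}

omit [DecidableEq τ] in
theorem rho_x (h : Fpb B Q T U F j i k0 a b c x) : 1 ≤ rho B ({x} : Finset V) := by
  have h6 := rho_erase_fc (h.px.frm.ge.sys.fc _ h.px.hx) (h.px.frm.sv_leaf h.px.hx)
    (mem_singleton_self x)
  omega

omit [DecidableEq τ] in
/-- the leaf `{x}` absorbs the other two points. -/
theorem abs_bc (h : Fpb B Q T U F j i k0 a b c x) :
    rho B ({x} ∪ {b, c}) ≤ rho B ({x} : Finset V) := by
  refine le_trans (rho_le_one (i := i) ?_) h.rho_x
  intro v hv
  have hv2 : v ∈ B i ∩ Q := by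
    rw [h.px.hiQ]
    simp only [mem_union, mem_insert, mem_singleton] at hv ⊢
    tauto
  exact (mem_inter.1 hv2).1

/-- **the triple of the third point**. -/
theorem donor (h : Fpb B Q T U F j i k0 a b c x) (hg : Sp.Gd F F U (slf B F) Ts NT)
    (hP : Sp.MinP F F U (slf B F) Ts NT P) (hxP : {{x}} ∈ P) {k : ι} (hk : k ∈ T)
    (hkj : k ≠ j) {s p q : V} (hTk : B k ∩ Q = {s, p, q}) (hsp : s ≠ p) (hsq : s ≠ q)
    (hpq : p ≠ q) (hs : s ∈ B k0) :
    slf B F p ⊆ {{x}} ∨ slf B F q ⊆ {{x}} ∨
      ∃ C' ∈ P, slf B F p ⊆ insert {x} C' ∧ slf B F q ⊆ insert {x} C' := by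
  have h1 := h.px.frm.free_point hg hP (D := ∅) Frm.Dcl.empty h.px.hx hxP (mem_singleton_self {x})
    h.px.hj hk hkj.symm h.px.hjQ hTk hsp hsq hpq h.abs_bc (by
      rw [empty_union]
      refine (rho_le_one (i := k0) ?_).trans (Nat.le_add_left 1 _)
      intro v hv
      rw [mem_insert, mem_singleton] at hv
      rcases hv with rfl | rfl
      · exact h.ak
      · exact hs)
  rcases h1 with h1 | h1 | ⟨C', hC', h1, h2⟩ | h1
  · exact Or.inl h1
  · exact Or.inr (Or.inl h1)
  · exact Or.inr (Or.inr ⟨C', hC', h1.trans (subset_insert _ _), h2.trans (subset_insert _ _)⟩)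
  have hA : mcl B F P p ∪ mcl B F P q ⊆ P := union_subset mcl_sub mcl_sub
  have h2 := hP.ins_le hg hxP (fun u hu => by
    rw [disjoint_singleton_right]
    exact h.not_sees hu) hA h1
  have key : ∀ C', (mcl B F P p ∪ mcl B F P q).erase {{x}} ⊆ {C'} → ∀ v,
      (v = p ∨ v = q) → slf B F v ⊆ insert {x} C' := by
    intro C' hsub v hv L hL
    have hLF : L ∈ F := slf_sub hL
    obtain ⟨D, hD, hLD⟩ := exists_cls hP hLF
    have hDm : D ∈ mcl B F P p ∪ mcl B F P q := by
      have h3 : D ∈ mcl B F P v := Sp.mem_met.2 ⟨hD, not_disjoint_iff.2 ⟨L, hL, hLD⟩⟩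
      rcases hv with rfl | rfl
      · exact mem_union_left _ h3
      · exact mem_union_right _ h3
    by_cases hDx : D = {{x}}
    · subst hDx
      rw [mem_singleton] at hLD
      rw [hLD]
      exact mem_insert_self _ _
    · have h4 := mem_singleton.1 (hsub (mem_erase.2 ⟨hDx, hDm⟩))
      exact mem_insert_of_mem (h4 ▸ hLD)
  rcases ((mcl B F P p ∪ mcl B F P q).erase {{x}}).eq_empty_or_nonempty with h3 | ⟨C', hC'⟩
  · left
    have h4 := key {{x}} (by rw [h3]; exact empty_subset _) p (Or.inl rfl)
    refine h4.trans ?_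
    intro L hL
    rcases mem_insert.1 hL with rfl | hL
    · exact mem_singleton_self _
    · exact hL
  · right; right
    have h5 : (mcl B F P p ∪ mcl B F P q).erase {{x}} ⊆ {C'} := fun D hD => by
      rw [mem_singleton]
      exact card_le_one.1 h2 D hD C' hC'
    exact ⟨C', hA (mem_of_mem_erase hC'), key C' h5 p (Or.inl rfl), key C' h5 q (Or.inr rfl)⟩

section two

variable {j' i' k0' : ι} {a' b' c' x' : V}

omit [DecidableEq τ] in
/-- **two claims on different points of a triple**: the third point sees no leaf except the two point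
leaves. -/
theorem two_see [DecidableEq ι] (h : Fpb B Q T U F j i k0 a b c x)
    (h' : Fpb B Q T U F j' i' k0' a' b' c' x')
    (hjj : j ≠ j') (hxx : x ≠ x') {k : ι} (hk : k ∈ T) (hkj : k ≠ j) (hkj' : k ≠ j')
    {s s' r : V} (hTk : B k ∩ Q = {s, s', r}) (hs : s ∈ B k0) (hs' : s' ∈ B k0') :
    slf B F r ⊆ {{x}, {x'}} := by
  intro L hL
  by_contra hcon
  rw [mem_insert, mem_singleton, not_or] at hcon
  have hf := h.px.frm
  have hsQ : s ∈ Q := (mem_inter.1 (by rw [hTk]; simp : s ∈ B k ∩ Q)).2
  have hsQ' : s' ∈ Q := (mem_inter.1 (by rw [hTk]; simp : s' ∈ B k ∩ Q)).2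
  have hrk : r ∈ B k ∩ Q := by rw [hTk]; simp
  have hxx2 : ({x'} : Finset V) ≠ {x} := fun he => hxx (singleton_injective he).symm
  have h1 := hf.no_match_abs Frm.Dcl.empty (A := {{x}, {x'}}) (by
      intro C hC
      rw [mem_insert, mem_singleton] at hC
      rcases hC with rfl | rfl
      · exact h.px.hx
      · exact h'.px.hx) (I := {j, j', k}) (by
      intro l hl
      rw [mem_insert, mem_insert, mem_singleton] at hl
      rcases hl with rfl | rfl | rfl
      · exact h.px.hj
      · exact h'.px.hj
      · exact hk) (X := fun C => if C = {x} then {b, c} else {b', c'})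
    (Y := {a, s} ∪ {a', s'}) (R := {r}) (by
      intro C _
      show (if C = {x} then {b, c} else {b', c'}) ⊆ Q
      split_ifs
      · intro v hv
        rw [mem_insert, mem_singleton] at hv
        rcases hv with rfl | rfl
        · exact (mem_inter.1 h.bQ).2
        · exact (mem_inter.1 h.cQ).2
      · intro v hv
        rw [mem_insert, mem_singleton] at hv
        rcases hv with rfl | rfl
        · exact (mem_inter.1 h'.bQ).2
        · exact (mem_inter.1 h'.cQ).2) (by
      intro v hv
      simp only [mem_union, mem_insert, mem_singleton] at hv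
      rcases hv with (rfl | rfl) | (rfl | rfl)
      · exact h.px.aQ
      · exact hsQ
      · exact h'.px.aQ
      · exact hsQ') (by
      intro C hC
      rw [mem_insert, mem_singleton] at hC
      rcases hC with rfl | rfl
      · rw [if_pos rfl]
        exact h.abs_bc
      · rw [if_neg hxx2]
        exact h'.abs_bc) (by
      have e1 : rho B ({a, s} : Finset V) ≤ 1 := rho_le_one (i := k0) (by
        intro v hv
        rw [mem_insert, mem_singleton] at hv
        rcases hv with rfl | rfl
        · exact h.ak
        · exact hs)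
      have e2 : rho B ({a', s'} : Finset V) ≤ 1 := rho_le_one (i := k0') (by
        intro v hv
        rw [mem_insert, mem_singleton] at hv
        rcases hv with rfl | rfl
        · exact h'.ak
        · exact hs')
      have e3 := rho_union_le (B := B) (W := {a, s}) (W' := {a', s'}) (by
        intro v hv
        rw [mem_insert, mem_singleton] at hv
        rcases hv with rfl | rfl
        · exact ⟨k0, h.ak⟩
        · exact ⟨k0, hs⟩) (by
        intro v hv
        rw [mem_insert, mem_singleton] at hv
        rcases hv with rfl | rfl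
        · exact ⟨k0', h'.ak⟩
        · exact ⟨k0', hs'⟩)
      have e4 : ({j, j', k} : Finset ι).card = 3 :=
        card_eq_three.2 ⟨j, j', k, hjj, hkj.symm, hkj'.symm, rfl⟩
      rw [empty_union, rho_empty, e4]
      omega) (by
      intro l hl v hv
      rw [mem_insert, mem_insert, mem_singleton] at hl
      rcases hl with rfl | rfl | rfl
      · rw [h.px.hjQ] at hv
        simp only [mem_insert, mem_singleton] at hv
        rcases hv with rfl | hv
        · exact Or.inr (Or.inl (by simp))
        · refine Or.inl ⟨{x}, by simp, ?_⟩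
          rw [if_pos rfl]
          simpa using hv
      · rw [h'.px.hjQ] at hv
        simp only [mem_insert, mem_singleton] at hv
        rcases hv with rfl | hv
        · exact Or.inr (Or.inl (by simp))
        · refine Or.inl ⟨{x'}, by simp, ?_⟩
          rw [if_neg hxx2]
          simpa using hv
      · rw [hTk] at hv
        simp only [mem_insert, mem_singleton] at hv
        rcases hv with rfl | rfl | rfl
        · exact Or.inr (Or.inl (by simp))
        · exact Or.inr (Or.inl (by simp))
        · exact Or.inr (Or.inr (by simp))) (by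
      intro v hv
      rw [mem_singleton.1 hv]
      exact mem_inter.2 ⟨mem_biUnion.2 ⟨k, by simp, (mem_inter.1 hrk).1⟩, (mem_inter.1 hrk).2⟩)
    (x := fun _ => L) (by
      intro v hv
      rw [mem_singleton.1 hv]
      refine ⟨hL, ?_⟩
      rw [mem_insert, mem_singleton, not_or]
      exact hcon) (by
      intro v hv w hw _
      rw [mem_singleton.1 hv, mem_singleton.1 hw])
  have h2 : Sp.dfc U (slf B F) ({{x}, {x'}} ∪ ({r} : Finset V).image (fun _ => L)) ≤ 0 := by
    refine Sp.dfc_own (F := F) (M := L) (hf.gdT (R := (∅ : Finset ι))).sur ?_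
    intro u hu C hC hne
    rw [image_singleton, mem_union, mem_insert, mem_singleton, mem_singleton] at hC
    rcases hC with (rfl | rfl) | rfl
    · exact h.not_sees hu
    · exact h'.not_sees hu
    · exact absurd rfl hne
  linarith

omit [DecidableEq τ] in
/-- **two claims on different points of a triple, strong form**: if `c` sees another leaf, then the third
point does not see `{x}`. -/
theorem two_dead [DecidableEq ι] (h : Fpb B Q T U F j i k0 a b c x)
    (h' : Fpb B Q T U F j' i' k0' a' b' c' x')
    (hjj : j ≠ j') (hxx : x ≠ x') {k : ι} (hk : k ∈ T) (hkj : k ≠ j) (hkj' : k ≠ j')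
    {s s' r : V} (hTk : B k ∩ Q = {s, s', r}) (hs : s ∈ B k0) (hs' : s' ∈ B k0')
    {L : Finset V} (hL : L ∈ slf B F c) (hLx : L ≠ {x}) (hLx' : L ≠ {x'}) :
    {x} ∉ slf B F r := by
  intro hrx
  have hf := h.px.frm
  have hsQ : s ∈ Q := (mem_inter.1 (by rw [hTk]; simp : s ∈ B k ∩ Q)).2
  have hsQ' : s' ∈ Q := (mem_inter.1 (by rw [hTk]; simp : s' ∈ B k ∩ Q)).2
  have hrk : r ∈ B k ∩ Q := by rw [hTk]; simp
  have hxx2 : ({x'} : Finset V) ≠ {x} := fun he => hxx (singleton_injective he).symm
  -- the block of `r` and `x`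
  obtain ⟨l, hrl, hxl⟩ : ∃ l, r ∈ B l ∧ x ∈ B l := by
    obtain ⟨_, y, hy, _, l, h1, h2⟩ := mem_slf.1 hrx
    exact ⟨l, h1, mem_singleton.1 hy ▸ h2⟩
  have h1 := hf.no_match_abs Frm.Dcl.empty (A := {{x}, {x'}}) (by
      intro C hC
      rw [mem_insert, mem_singleton] at hC
      rcases hC with rfl | rfl
      · exact h.px.hx
      · exact h'.px.hx) (I := {j, j', k}) (by
      intro l hl
      rw [mem_insert, mem_insert, mem_singleton] at hl
      rcases hl with rfl | rfl | rfl
      · exact h.px.hj
      · exact h'.px.hj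
      · exact hk) (X := fun C => if C = {x} then {r} else {b', c'})
    (Y := {a, b, s} ∪ {a', s'}) (R := {c}) (by
      intro C _
      show (if C = {x} then {r} else {b', c'}) ⊆ Q
      split_ifs
      · intro v hv
        rw [mem_singleton.1 hv]
        exact (mem_inter.1 hrk).2
      · intro v hv
        rw [mem_insert, mem_singleton] at hv
        rcases hv with rfl | rfl
        · exact (mem_inter.1 h'.bQ).2
        · exact (mem_inter.1 h'.cQ).2) (by
      intro v hv
      simp only [mem_union, mem_insert, mem_singleton] at hv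
      rcases hv with (rfl | rfl | rfl) | (rfl | rfl)
      · exact h.px.aQ
      · exact (mem_inter.1 h.bQ).2
      · exact hsQ
      · exact h'.px.aQ
      · exact hsQ') (by
      intro C hC
      rw [mem_insert, mem_singleton] at hC
      rcases hC with rfl | rfl
      · rw [if_pos rfl]
        refine le_trans (rho_le_one (i := l) ?_) h.rho_x
        intro v hv
        rw [mem_union, mem_singleton, mem_singleton] at hv
        rcases hv with rfl | rfl
        · exact hxl
        · exact hrl
      · rw [if_neg hxx2]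
        exact h'.abs_bc) (by
      have e1 : rho B ({a, b, s} : Finset V) ≤ 1 := rho_le_one (i := k0) (by
        intro v hv
        rw [mem_insert, mem_insert, mem_singleton] at hv
        rcases hv with rfl | rfl | rfl
        · exact h.ak
        · exact h.bk
        · exact hs)
      have e2 : rho B ({a', s'} : Finset V) ≤ 1 := rho_le_one (i := k0') (by
        intro v hv
        rw [mem_insert, mem_singleton] at hv
        rcases hv with rfl | rfl
        · exact h'.ak
        · exact hs')
      have e3 := rho_union_le (B := B) (W := {a, b, s}) (W' := {a', s'}) (by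
        intro v hv
        rw [mem_insert, mem_insert, mem_singleton] at hv
        rcases hv with rfl | rfl | rfl
        · exact ⟨k0, h.ak⟩
        · exact ⟨k0, h.bk⟩
        · exact ⟨k0, hs⟩) (by
        intro v hv
        rw [mem_insert, mem_singleton] at hv
        rcases hv with rfl | rfl
        · exact ⟨k0', h'.ak⟩
        · exact ⟨k0', hs'⟩)
      have e4 : ({j, j', k} : Finset ι).card = 3 :=
        card_eq_three.2 ⟨j, j', k, hjj, hkj.symm, hkj'.symm, rfl⟩
      rw [empty_union, rho_empty, e4]
      omega) (by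
      intro l hl v hv
      rw [mem_insert, mem_insert, mem_singleton] at hl
      rcases hl with rfl | rfl | rfl
      · rw [h.px.hjQ] at hv
        simp only [mem_insert, mem_singleton] at hv
        rcases hv with rfl | rfl | rfl
        · exact Or.inr (Or.inl (by simp))
        · exact Or.inr (Or.inl (by simp))
        · exact Or.inr (Or.inr (by simp))
      · rw [h'.px.hjQ] at hv
        simp only [mem_insert, mem_singleton] at hv
        rcases hv with rfl | hv
        · exact Or.inr (Or.inl (by simp))
        · refine Or.inl ⟨{x'}, by simp, ?_⟩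
          rw [if_neg hxx2]
          simpa using hv
      · rw [hTk] at hv
        simp only [mem_insert, mem_singleton] at hv
        rcases hv with rfl | rfl | rfl
        · exact Or.inr (Or.inl (by simp))
        · exact Or.inr (Or.inl (by simp))
        · refine Or.inl ⟨{x}, by simp, ?_⟩
          rw [if_pos rfl]
          exact mem_singleton_self _) (by
      intro v hv
      rw [mem_singleton.1 hv]
      exact mem_inter.2 ⟨mem_biUnion.2 ⟨j, by simp, (mem_inter.1 h.cQ).1⟩, (mem_inter.1 h.cQ).2⟩)
    (x := fun _ => L) (by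
      intro v hv
      rw [mem_singleton.1 hv]
      refine ⟨hL, ?_⟩
      rw [mem_insert, mem_singleton, not_or]
      exact ⟨hLx, hLx'⟩) (by
      intro v hv w hw _
      rw [mem_singleton.1 hv, mem_singleton.1 hw])
  have h2 : Sp.dfc U (slf B F) ({{x}, {x'}} ∪ ({c} : Finset V).image (fun _ => L)) ≤ 0 := by
    refine Sp.dfc_own (F := F) (M := L) (hf.gdT (R := (∅ : Finset ι))).sur ?_
    intro u hu C hC hne
    rw [image_singleton, mem_union, mem_insert, mem_singleton, mem_singleton] at hC
    rcases hC with (rfl | rfl) | rfl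
    · exact h.not_sees hu
    · exact h'.not_sees hu
    · exact absurd rfl hne
  linarith

end two

omit [DecidableEq τ] in
/-- **no claims on the three points of a triple**. -/
theorem three [DecidableEq ι] {j1 i1 k1 j2 i2 k2 : ι} {a1 b1 c1 x1 a2 b2 c2 x2 : V}
    (h : Fpb B Q T U F j i k0 a b c x) (h1 : Fpb B Q T U F j1 i1 k1 a1 b1 c1 x1)
    (h2 : Fpb B Q T U F j2 i2 k2 a2 b2 c2 x2) (n01 : j ≠ j1) (n02 : j ≠ j2) (n12 : j1 ≠ j2)
    (m01 : x ≠ x1) (m02 : x ≠ x2) (m12 : x1 ≠ x2) {k : ι} (hk : k ∈ T) (hk0 : k ≠ j)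
    (hk1 : k ≠ j1) (hk2 : k ≠ j2) {s s1 s2 : V} (hTk : B k ∩ Q = {s, s1, s2})
    (hs : s ∈ B k0) (hs1 : s1 ∈ B k1) (hs2 : s2 ∈ B k2) : False := by
  have hf := h.px.frm
  have hsQ : s ∈ Q := (mem_inter.1 (by rw [hTk]; simp : s ∈ B k ∩ Q)).2
  have hs1Q : s1 ∈ Q := (mem_inter.1 (by rw [hTk]; simp : s1 ∈ B k ∩ Q)).2
  have hs2Q : s2 ∈ Q := (mem_inter.1 (by rw [hTk]; simp : s2 ∈ B k ∩ Q)).2
  have e01 : ({x1} : Finset V) ≠ {x} := fun he => m01 (singleton_injective he).symm
  have e02 : ({x2} : Finset V) ≠ {x} := fun he => m02 (singleton_injective he).symm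
  have e12 : ({x2} : Finset V) ≠ {x1} := fun he => m12 (singleton_injective he).symm
  have p : ∀ {v w : V} {l : ι}, v ∈ B l → w ∈ B l → rho B ({v, w} : Finset V) ≤ 1 := by
    intro v w l hv hw
    refine rho_le_one (i := l) ?_
    intro z hz
    rw [mem_insert, mem_singleton] at hz
    rcases hz with rfl | rfl <;> assumption
  have pc : ∀ {v w : V} {l : ι}, v ∈ B l → w ∈ B l → Cov B ({v, w} : Finset V) := by
    intro v w l hv hw z hz
    rw [mem_insert, mem_singleton] at hz
    rcases hz with rfl | rfl
    · exact ⟨l, hv⟩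
    · exact ⟨l, hw⟩
  have h3 := hf.no_match_abs Frm.Dcl.empty (A := {{x}, {x1}, {x2}}) (by
      intro C hC
      simp only [mem_insert, mem_singleton] at hC
      rcases hC with rfl | rfl | rfl
      · exact h.px.hx
      · exact h1.px.hx
      · exact h2.px.hx) (I := {j, j1, j2, k}) (by
      intro l hl
      simp only [mem_insert, mem_singleton] at hl
      rcases hl with rfl | rfl | rfl | rfl
      · exact h.px.hj
      · exact h1.px.hj
      · exact h2.px.hj
      · exact hk) (X := fun C => if C = {x} then {b, c} else if C = {x1} then {b1, c1}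
        else {b2, c2})
    (Y := {a, s} ∪ ({a1, s1} ∪ {a2, s2})) (R := ∅) (by
      intro C _
      show (if C = {x} then {b, c} else if C = {x1} then {b1, c1} else {b2, c2}) ⊆ Q
      split_ifs
      · intro v hv
        rw [mem_insert, mem_singleton] at hv
        rcases hv with rfl | rfl
        · exact (mem_inter.1 h.bQ).2
        · exact (mem_inter.1 h.cQ).2
      · intro v hv
        rw [mem_insert, mem_singleton] at hv
        rcases hv with rfl | rfl
        · exact (mem_inter.1 h1.bQ).2
        · exact (mem_inter.1 h1.cQ).2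
      · intro v hv
        rw [mem_insert, mem_singleton] at hv
        rcases hv with rfl | rfl
        · exact (mem_inter.1 h2.bQ).2
        · exact (mem_inter.1 h2.cQ).2) (by
      intro v hv
      simp only [mem_union, mem_insert, mem_singleton] at hv
      rcases hv with (rfl | rfl) | (rfl | rfl) | (rfl | rfl)
      · exact h.px.aQ
      · exact hsQ
      · exact h1.px.aQ
      · exact hs1Q
      · exact h2.px.aQ
      · exact hs2Q) (by
      intro C hC
      simp only [mem_insert, mem_singleton] at hC
      rcases hC with rfl | rfl | rfl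
      · rw [if_pos rfl]
        exact h.abs_bc
      · rw [if_neg e01, if_pos rfl]
        exact h1.abs_bc
      · rw [if_neg e02, if_neg e12]
        exact h2.abs_bc) (by
      have f1 := p h.ak hs
      have f2 := p h1.ak hs1
      have f3 := p h2.ak hs2
      have f4 := rho_union_le (pc h1.ak hs1) (pc h2.ak hs2)
      have f5 := rho_union_le (pc h.ak hs) ((pc h1.ak hs1).union (pc h2.ak hs2))
      have f6 : ({j, j1, j2, k} : Finset ι).card = 4 := by
        rw [card_insert_of_notMem (by simp [n01, n02, hk0.symm]),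
          card_insert_of_notMem (by simp [n12, hk1.symm]), card_pair hk2.symm]
      rw [empty_union, rho_empty, f6]
      omega) (by
      intro l hl v hv
      simp only [mem_insert, mem_singleton] at hl
      rcases hl with rfl | rfl | rfl | rfl
      · rw [h.px.hjQ] at hv
        simp only [mem_insert, mem_singleton] at hv
        rcases hv with rfl | hv
        · exact Or.inr (Or.inl (by simp))
        · refine Or.inl ⟨{x}, by simp, ?_⟩
          rw [if_pos rfl]
          simpa using hv
      · rw [h1.px.hjQ] at hv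
        simp only [mem_insert, mem_singleton] at hv
        rcases hv with rfl | hv
        · exact Or.inr (Or.inl (by simp))
        · refine Or.inl ⟨{x1}, by simp, ?_⟩
          rw [if_neg e01, if_pos rfl]
          simpa using hv
      · rw [h2.px.hjQ] at hv
        simp only [mem_insert, mem_singleton] at hv
        rcases hv with rfl | hv
        · exact Or.inr (Or.inl (by simp))
        · refine Or.inl ⟨{x2}, by simp, ?_⟩
          rw [if_neg e02, if_neg e12]
          simpa using hv
      · rw [hTk] at hv
        simp only [mem_insert, mem_singleton] at hv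
        rcases hv with rfl | rfl | rfl
        · exact Or.inr (Or.inl (by simp))
        · exact Or.inr (Or.inl (by simp))
        · exact Or.inr (Or.inl (by simp))) (empty_subset _) (x := fun _ => {x})
    (by simp) (by simp)
  have h4 : Sp.dfc U (slf B F) ({{x}, {x1}, {x2}} ∪ (∅ : Finset V).image (fun _ => {x})) ≤ 0 := by
    refine Sp.dfc_own (F := F) (M := {x}) (hf.gdT (R := (∅ : Finset ι))).sur ?_
    intro u hu C hC _
    rw [image_empty, union_empty] at hC
    simp only [mem_insert, mem_singleton] at hC
    rcases hC with rfl | rfl | rfl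
    · exact h.not_sees hu
    · exact h1.not_sees hu
    · exact h2.not_sees hu
  linarith

end Fpb

/-- the mirror frame. -/
theorem Fpb.mirror [DecidableEq ι] {Q U : Finset V} {T : Finset ι} {F : Finset (Finset V)}
    {j i k0 : ι} {a b c x : V} (h : Fpb B Q T U F j i k0 a b c x) (hm : MTE B Q T U F) :
    MTE B Q (insert i (T.erase j)) U (insert {a} (F.erase {x})) := by
  obtain ⟨U1, F1, h'⟩ := h.px.exists_new
  obtain ⟨h1, h2, _⟩ := h.px.mte hm h'
  have h4 := h.px.F_new hm h'
  subst h2
  subst h4
  exact h1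

/-- **the mirror rule**: `s` is the third point of the inner block `k0` of the free point `a`; if `p` sees
no leaf except the small own class `{W}`, then the blocks of `t` have at most one point in `W`. -/
theorem Fpb.mirror_single [DecidableEq ι] {Q U : Finset V} {T : Finset ι}
    {F : Finset (Finset V)} {j i k0 : ι} {a b c x : V} (h : Fpb B Q T U F j i k0 a b c x)
    (hq : MTR B Q T U F) (hall : ∀ k, a ∈ B k → x ∈ B k ∨ k = j ∨ k = k0) {k : ι} (hk : k ∈ T)
    (hkj : k ≠ j) {t p s : V} (hTk : B k ∩ Q = {t, p, s}) (hps : p ≠ s) (hs : s ∈ B k0)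
    {W : Finset V} (hW : W ∈ F) (hWx : W ≠ {x}) (hW3 : W.card ≤ 3)
    (hfree : ∀ L ∈ F, L ≠ W → ∀ Z ⊆ U, Z.card ≤ (nbF (gr B) (F \ {W, L}) Z).card)
    (hp : slf B F p ⊆ {W}) {l : ι} (ht : t ∈ B l) : (B l ∩ W).card ≤ 1 := by
  classical
  have hf := h.px.frm
  have hm := h.mirror hq.toMTE
  by_contra hcon
  have hodd := (hf.ge.sys.fc W hW).odd
  have h1 := card_le_card (inter_subset_right : B l ∩ W ⊆ W)
  have htk : t ∈ B k ∩ Q := by rw [hTk]; simp
  have hpk : p ∈ B k ∩ Q := by rw [hTk]; simp
  have hsk : s ∈ B k ∩ Q := by rw [hTk]; simp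
  have htW : t ∉ W := fun h2 => Frm.T_notD (Q := Q) hk (mem_inter.1 htk).1 (hf.FD hW h2)
  have h2 : insert t (B l ∩ W) ⊆ B l ∩ Q := insert_subset (mem_inter.2 ⟨ht, (mem_inter.1 htk).2⟩)
    (inter_subset_inter_left (hf.FQ hW))
  have h3 := card_le_card h2
  rw [card_insert_of_notMem (fun h4 => htW (mem_inter.1 h4).2)] at h3
  have h4 := hf.reg3 l
  have h5 : W.card = 3 := by
    rcases hodd with ⟨m, hm'⟩
    omega
  have hdis := hf.mtp.tpk.pack.disj k hk j h.px.hj hkj
  have haj : a ∈ B j ∩ Q := h.aQ'
  have hap : a ≠ p := by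
    rintro rfl
    exact disjoint_left.1 hdis hpk haj
  have hsa : s ≠ a := by
    rintro rfl
    exact disjoint_left.1 hdis hsk haj
  have hki : k ∈ insert i (T.erase j) := mem_insert_of_mem (mem_erase.2 ⟨hkj, hk⟩)
  have hWn : W ∈ insert {a} (F.erase {x}) := mem_insert_of_mem (mem_erase.2 ⟨hWx, hW⟩)
  have haU : ∀ u ∈ U, ∀ y ∈ ({a} : Finset V), ¬ (gr B).Adj u y := by
    intro u hu y hy
    rw [mem_singleton.1 hy]
    rintro ⟨_, m, h6, h7⟩
    exact h.a_not_U hq h7 hu h6
  have hxU : ∀ u ∈ U, ∀ y ∈ ({x} : Finset V), ¬ (gr B).Adj u y := by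
    intro u hu y hy
    rw [mem_singleton.1 hy]
    rintro ⟨_, m, h6, h7⟩
    exact h.not_U h7 hu h6
  refine hm.no_full3 hki hWn h5 ?_ (t := t) (x := p) (y := s) hTk ht (by omega) ?_ ?_
  · -- the Hall conditions in the mirror frame
    intro L hL hLW Z hZ
    rcases mem_insert.1 hL with rfl | hL
    · have h6 := hfree {x} h.px.hx hWx.symm Z hZ
      refine h6.trans (card_le_card fun M hM => ?_)
      obtain ⟨h7, z, hz, y, hy, hzy⟩ := mem_nbF.1 hM
      obtain ⟨h8, h9⟩ := mem_sdiff.1 h7
      rw [mem_insert, mem_singleton, not_or] at h9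
      refine mem_nbF.2 ⟨mem_sdiff.2 ⟨mem_insert_of_mem (mem_erase.2 ⟨h9.2, h8⟩), ?_⟩, z, hz, y, hy,
        hzy⟩
      rw [mem_insert, mem_singleton, not_or]
      refine ⟨h9.1, ?_⟩
      rintro rfl
      exact h.px.notD (z := a) (by simp) (hf.FD h8 (mem_singleton_self a))
    · obtain ⟨h10, h11⟩ := mem_erase.1 hL
      have h6 := hfree L h11 hLW Z hZ
      refine h6.trans (card_le_card fun M hM => ?_)
      obtain ⟨h7, z, hz, y, hy, hzy⟩ := mem_nbF.1 hM
      obtain ⟨h8, h9⟩ := mem_sdiff.1 h7
      refine mem_nbF.2 ⟨mem_sdiff.2 ⟨mem_insert_of_mem (mem_erase.2 ⟨?_, h8⟩), h9⟩, z, hz, y, hy,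
        hzy⟩
      rintro rfl
      exact hxU z (hZ hz) y hy hzy
  · -- `p` sees no other leaf
    intro L hL hLW y hy hpy
    rcases mem_insert.1 hL with rfl | hL
    · rw [mem_singleton.1 hy] at hpy
      obtain ⟨_, m, h6, h7⟩ := hpy
      rcases hall m h7 with h8 | h8 | h8
      · -- `p` sees `x`
        have h9 : {x} ∈ slf B F p := mem_slf.2 ⟨h.px.hx, x, mem_singleton_self x, ?_, m, h6, h8⟩
        · exact hWx (mem_singleton.1 (hp h9)).symm
        · rintro rfl
          exact Frm.T_notD (Q := Q) hk (mem_inter.1 hpk).1 h.px.xD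
      · subst h8
        exact disjoint_left.1 hdis hpk (mem_inter.2 ⟨h6, (mem_inter.1 hpk).2⟩)
      · subst h8
        have h9 := h.other_card hk hkj
        have h10 : ({p, s} : Finset V) ⊆ B m ∩ (B k ∩ Q) := by
          intro v hv
          rw [mem_insert, mem_singleton] at hv
          rcases hv with rfl | rfl
          · exact mem_inter.2 ⟨h6, hpk⟩
          · exact mem_inter.2 ⟨hs, hsk⟩
        have h11 := card_le_card h10
        rw [card_pair hps] at h11
        omega
    · obtain ⟨_, h11⟩ := mem_erase.1 hL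
      exact hLW (mem_singleton.1 (hp (mem_slf.2 ⟨h11, y, hy, hpy⟩)))
  · exact ⟨{a}, mem_insert_self _ _, fun he => h.px.notD (z := a) (by simp)
      (hf.FD hW (he ▸ mem_singleton_self a)), a, mem_singleton_self a, hsa, k0, hs, h.ak⟩

end Pool.Agent.Hyp6
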