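import Pool.Agent.Hyp6.L3Fpd
import Pool.Agent.Hyp6.L3Bs
import Pool.Agent.Hyp6.L3Sr

/-!
# HYP6 L3Fpe: claims

A pattern `Pcl` (L3Fin) is a line triple `T_j = {a, b, c}` with six hits on a private point leaf `x`
(without hits of `U`, not the centre of a type B) and its inner block `k0`. It claims a payment from the
triple of the third point
of `k0` if it has at least three hits elsewhere or if `c` is the third point of such an inner block
(`Cla`). Claims on a claiming triple are at `c` (`Cla.claim_at_c`), there are none if it has three hits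
elsewhere (`Pcl.no_claim`), two claims on different points of a triple leave the third point without
leaves (`Cla.third_dead`).
-/

set_option autoImplicit false

namespace Pool.Agent.Hyp6

open Finset Pool.Agent.Hyp5 Rt

universe u v

variable {V : Type v} [DecidableEq V] {ι : Type u} [Fintype ι] [DecidableEq ι]
  {B : ι → Finset V}

/-- a claiming triple. -/
def Cla (B : ι → Finset V) (Q : Finset V) (T : Finset ι) (U : Finset V)
    (F : Finset (Finset V)) (P : Finset (Finset (Finset V))) (j i k0 : ι) (a b c x : V) :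
    Prop :=
  Pcl B Q T U F P j i k0 a b c x ∧
    (3 ≤ mh B b ((F.erase {x}).biUnion id) + mh B c ((F.erase {x}).biUnion id) ∨
      ∃ (j' i' k0' : ι) (a' b' c' x' : V), Pcl B Q T U F P j' i' k0' a' b' c' x' ∧ c ∈ B k0')

namespace Pcl

variable {Q U : Finset V} {T : Finset ι} {F : Finset (Finset V)}
  {P : Finset (Finset (Finset V))} {al : V → Finset (Finset V) → ℕ}
  {j i k0 : ι} {a b c x : V} {j' i' k0' : ι} {a' b' c' x' : V}

theorem fpb (h : Pcl B Q T U F P j i k0 a b c x) : Fpb B Q T U F j i k0 a b c x :=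
  h.toPxf.fpb h.g0

theorem hj (h : Pcl B Q T U F P j i k0 a b c x) : j ∈ T := h.px.hj

theorem xpar (h : Pcl B Q T U F P j i k0 a b c x) (s : Stg B Q T U F P al) :
    {{x}} ∈ par0 B U F := s.own_par h.xP

theorem jtl (h : Pcl B Q T U F P j i k0 a b c x) : j ∈ tl B Q T U F P := by
  have h1 : j ∈ aC B Q T U F P {{x}} := by rw [h.priv]; exact mem_singleton_self j
  exact (Sp.mem_atl.1 h1).1

/-- no other line triple sees the leaf. -/
theorem not_sees (h : Pcl B Q T U F P j i k0 a b c x) {k : ι} (hk : k ∈ tl B Q T U F P)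
    (hkj : k ≠ j) : {x} ∉ slj B Q F k := by
  intro hx
  have h1 : k ∈ aC B Q T U F P {{x}} := by
    refine Sp.mem_atl.2 ⟨hk, Sp.met_sub_lx (Sp.mem_met.2 ⟨h.xP, ?_⟩)⟩
    rw [not_disjoint_iff]
    exact ⟨{x}, hx, mem_singleton_self _⟩
  rw [h.priv, mem_singleton] at h1
  exact hkj h1

theorem not_sees_pt (h : Pcl B Q T U F P j i k0 a b c x) {k : ι} (hk : k ∈ tl B Q T U F P)
    (hkj : k ≠ j) {v : V} (hv : v ∈ B k ∩ Q) : {x} ∉ slf B F v := fun h1 =>
  h.not_sees hk hkj (mem_biUnion.2 ⟨v, hv, h1⟩)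

theorem x_ne (h : Pcl B Q T U F P j i k0 a b c x) (h' : Pcl B Q T U F P j' i' k0' a' b' c' x')
    (hjj : j ≠ j') : x ≠ x' := by
  rintro rfl
  have h1 := h.priv
  rw [h'.priv, singleton_inj] at h1
  exact hjj h1.symm

/-- `a` sees exactly the leaf `{x}`. -/
theorem a_x (h : Pcl B Q T U F P j i k0 a b c x) : slf B F a = {{x}} := by
  ext L
  rw [mem_singleton]
  constructor
  · intro hL
    obtain ⟨h1, y, hy, hay⟩ := mem_slf.1 hL
    by_contra hne
    exact h.px.a_leaf h1 hne hy hay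
  · rintro rfl
    obtain ⟨k, hk⟩ := card_pos.1 (by have := h.ha; omega :
      0 < (univ.filter fun k => x ∈ B k ∧ a ∈ B k).card)
    obtain ⟨_, h1, h2⟩ := mem_filter.1 hk
    refine mem_slf.2 ⟨h.px.hx, x, mem_singleton_self x, ?_, k, h2, h1⟩
    rintro rfl
    exact h.px.notD (z := a) (by simp) h.px.xD

/-- `b` and `c` see `{x}`. -/
theorem bc_x (h : Pcl B Q T U F P j i k0 a b c x) {v : V} (hv : v = b ∨ v = c) :
    {x} ∈ slf B F v := by
  have h1 : v ∈ B i ∩ Q := by
    rw [h.px.hiQ]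
    rcases hv with rfl | rfl <;> simp
  have h2 : x ∈ B i ∩ Q := by
    rw [h.px.hiQ]
    simp
  refine mem_slf.2 ⟨h.px.hx, x, mem_singleton_self x, ?_, i, (mem_inter.1 h1).1,
    (mem_inter.1 h2).1⟩
  rintro rfl
  refine h.px.notD (z := v) ?_ h.px.xD
  rcases hv with rfl | rfl <;> simp

/-- the blocks of a point of the triple which meet the other leaves: three blocks of the point do not
meet them. -/
theorem mh_le (h : Pcl B Q T U F P j i k0 a b c x) (hr : Reg B Q) {v : V} (hv : v = b ∨ v = c)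
    {l : ι} (hl : v ∈ B l) (hlj : l ≠ j) (hli : l ≠ i)
    (hln : ¬ (B l ∩ (F.erase {x}).biUnion id).Nonempty) :
    mh B v ((F.erase {x}).biUnion id) ≤ 2 := by
  have hvi : v ∈ B i := by
    have h1 : v ∈ B i ∩ Q := by
      rw [h.px.hiQ]
      rcases hv with rfl | rfl <;> simp
    exact (mem_inter.1 h1).1
  have hvj : v ∈ B j ∩ Q := by
    rw [h.px.hjQ]
    rcases hv with rfl | rfl <;> simp
  have hxi : x ∈ B i := (mem_inter.1 (by rw [h.px.hiQ]; simp : x ∈ B i ∩ Q)).1
  have hij : i ≠ j := by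
    rintro rfl
    exact Frm.T_notD (Q := Q) h.hj hxi h.px.xD
  have h5 := hr v (mem_inter.1 hvj).2
  set S := univ.filter (fun i => v ∈ B i ∧ (B i ∩ (F.erase {x}).biUnion id).Nonempty) with hS
  have hjn : j ∉ S := by
    intro h1
    obtain ⟨_, _, z, hz⟩ := mem_filter.1 h1
    obtain ⟨hz1, hz2⟩ := mem_inter.1 hz
    obtain ⟨L, hL, hzL⟩ := mem_biUnion.1 hz2
    exact Frm.T_notD h.hj hz1 (h.px.frm.FD (mem_erase.1 hL).2 hzL)
  have hin : i ∉ S := fun h1 => h.px.x_sep hxi (mem_filter.1 h1).2.2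
  have hlS : l ∉ S := fun h1 => hln (mem_filter.1 h1).2.2
  have hsub : insert l (insert i (insert j S)) ⊆ univ.filter fun i => v ∈ B i := by
    intro m hm
    simp only [mem_insert] at hm
    rcases hm with rfl | rfl | rfl | hm
    · exact mem_filter.2 ⟨mem_univ _, hl⟩
    · exact mem_filter.2 ⟨mem_univ _, hvi⟩
    · exact mem_filter.2 ⟨mem_univ _, (mem_inter.1 hvj).1⟩
    · exact mem_filter.2 ⟨mem_univ _, (mem_filter.1 hm).2.1⟩
  have h6 := card_le_card hsub
  rw [card_insert_of_notMem (by simp [hli, hlj, hlS]), card_insert_of_notMem (by simp [hij, hin]),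
    card_insert_of_notMem hjn, h5] at h6
  unfold mh
  rw [← hS]
  omega

/-- a block between removed points does not meet the leaves. -/
theorem k0_sep (h : Pcl B Q T U F P j i k0 a b c x) (hq : MTR B Q T U F) {y : V} :
    ¬ (B k0 ∩ (F.erase {y}).biUnion id).Nonempty := by
  rintro ⟨z, hz⟩
  obtain ⟨hz1, hz2⟩ := mem_inter.1 hz
  obtain ⟨L, hL, hzL⟩ := mem_biUnion.1 hz2
  have hzD := h.px.frm.FD (mem_erase.1 hL).2 hzL
  obtain ⟨k, hk, hzk⟩ := h.fpb.k0_sub hq (mem_inter.2 ⟨hz1, Frm.DQ hzD⟩)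
  exact Frm.T_notD (Q := Q) hk (mem_inter.1 hzk).1 hzD

/-- `c` sees another leaf. -/
theorem c_sees_big (h : Pcl B Q T U F P j i k0 a b c x) (hq : MTR B Q T U F) (hr : Reg B Q)
    (h2 : 3 ≤ mh B b ((F.erase {x}).biUnion id) + mh B c ((F.erase {x}).biUnion id)) :
    ∃ L ∈ slf B F c, L ≠ {x} := by
  have h1 := h.mh_le hr (v := b) (Or.inl rfl) h.bk h.fpb.k0_ne (by
    rintro rfl
    exact h.xk (mem_inter.1 (by rw [h.px.hiQ]; simp : x ∈ B k0 ∩ Q)).1) (h.k0_sep hq)
  have h3 : 0 < mh B c ((F.erase {x}).biUnion id) := by omega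
  obtain ⟨k, hk⟩ := card_pos.1 h3
  obtain ⟨_, hck, y, hy⟩ := mem_filter.1 hk
  obtain ⟨hy1, hy2⟩ := mem_inter.1 hy
  obtain ⟨L, hL, hyL⟩ := mem_biUnion.1 hy2
  obtain ⟨hne, hLF⟩ := mem_erase.1 hL
  refine ⟨L, mem_slf.2 ⟨hLF, y, hyL, ?_, k, hck, hy1⟩, hne⟩
  rintro rfl
  exact h.px.notD (z := c) (by simp) (h.px.frm.FD hLF hyL)

/-- the leaf, the free point and the inner block are determined by the triple. -/
theorem same (h : Pcl B Q T U F P j i k0 a b c x) (h' : Pcl B Q T U F P j i' k0' a' b' c' x') :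
    x = x' ∧ a = a' ∧ k0 = k0' := by
  have hax := h.a_x
  have hax' := h'.a_x
  have ha' : a' ∈ B j ∩ Q := by rw [h'.px.hjQ]; simp
  have hx : x = x' := by
    by_contra hne
    rw [h.px.hjQ] at ha'
    simp only [mem_insert, mem_singleton] at ha'
    have h1 : {x} ∈ slf B F a' := by
      rcases ha' with h1 | h1
      · rw [h1, hax]
        exact mem_singleton_self _
      · exact h.bc_x h1
    rw [hax', mem_singleton] at h1
    exact hne (singleton_injective h1)
  subst hx
  have haa : a = a' := by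
    by_contra hne
    have h1 : a ∈ B j ∩ Q := by rw [h.px.hjQ]; simp
    rw [h'.px.hjQ] at h1
    simp only [mem_insert, mem_singleton] at h1
    rw [h.px.hjQ] at ha'
    simp only [mem_insert, mem_singleton] at ha'
    have hai : a ∈ B i' ∩ Q := by
      rw [h'.px.hiQ]
      rcases h1 with h1 | h1 | h1
      · exact absurd h1 hne
      · rw [h1]; simp
      · rw [h1]; simp
    have hxi : x ∈ B i' := (mem_inter.1 (by rw [h'.px.hiQ]; simp : x ∈ B i' ∩ Q)).1
    obtain ⟨n1, n2⟩ := h.hno i' hxi (mem_inter.1 hai).1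
    -- one of `b`, `c` is in `B i'`
    have key : ∀ v, v ∈ B j ∩ Q → v ≠ a' → v ∈ B i' := by
      intro v hv hva
      rw [h'.px.hjQ] at hv
      simp only [mem_insert, mem_singleton] at hv
      have h2 : v ∈ B i' ∩ Q := by
        rw [h'.px.hiQ]
        rcases hv with h2 | h2 | h2
        · exact absurd h2 hva
        · rw [h2]; simp
        · rw [h2]; simp
      exact (mem_inter.1 h2).1
    obtain ⟨_, _, hbc⟩ := h.px.ne
    by_cases h3 : a' = b
    · exact n2 (key c h.fpb.cQ (by rw [h3]; exact hbc.symm))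
    · exact n1 (key b h.fpb.bQ (Ne.symm h3))
  subst haa
  refine ⟨rfl, rfl, ?_⟩
  rcases h.all k0' h'.ak with h1 | h1 | h1
  · exact absurd h1 h'.xk
  · exact absurd h1 h'.fpb.k0_ne
  · exact h1.symm

/-- the point `b` sees only `{x}` if there is an inner block of another such triple at `c`. -/
theorem b_only (h : Pcl B Q T U F P j i k0 a b c x)
    (h' : Pcl B Q T U F P j' i' k0' a' b' c' x') (s : Stg B Q T U F P al)
    (hc : c ∈ B k0') (hjj : j ≠ j') : slf B F b ⊆ {{x}} := by
  have hxx := h.x_ne h' hjj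
  have hxxs : ({x} : Finset V) ≠ {x'} := fun he => hxx (singleton_injective he)
  obtain ⟨hab, hac, hbc⟩ := h.px.ne
  have hbx := h.bc_x (v := b) (Or.inl rfl)
  have hax := h.a_x
  have h2 := h'.fpb.donor s.frm.sur s.par (h'.xpar s) h.hj hjj
    (s := c) (p := a) (q := b) (by
      rw [h.px.hjQ]
      ext w
      simp only [mem_insert, mem_singleton]
      tauto) hac.symm hbc.symm hab hc
  intro M hM
  rw [mem_singleton]
  rcases h2 with h2 | h2 | ⟨C', hC', h2, h3⟩
  · rw [hax] at h2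
    exact absurd (mem_singleton.1 (h2 (mem_singleton_self _))) hxxs
  · exact absurd (mem_singleton.1 (h2 hbx)) hxxs
  · have h4 : {x} ∈ C' := by
      rw [hax] at h2
      rcases mem_insert.1 (h2 (mem_singleton_self _)) with h5 | h5
      · exact absurd h5 hxxs
      · exact h5
    have h5 : C' = {{x}} := by
      by_contra hne
      exact disjoint_left.1 (s.par.dj hC' (h.xpar s) hne) h4 (mem_singleton_self _)
    rcases mem_insert.1 (h3 hM) with h6 | h6
    · exact absurd (h6 ▸ hM) (h'.not_sees_pt h.jtl hjj h.fpb.bQ)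
    · rw [h5] at h6
      exact mem_singleton.1 h6

/-- `c` sees another leaf. -/
theorem c_sees_don (h : Pcl B Q T U F P j i k0 a b c x)
    (h' : Pcl B Q T U F P j' i' k0' a' b' c' x') (s : Stg B Q T U F P al)
    (hc : c ∈ B k0') : ∃ L ∈ slf B F c, L ≠ {x} := by
  have hjj : j ≠ j' := by
    rintro rfl
    have h1 := (h.same h').2.2
    subst h1
    exact h.ck hc
  have hb := h.b_only h' s hc hjj
  by_contra hcon
  push Not at hcon
  -- the triple sees only `{x}`
  have h1 : slj B Q F j ⊆ {{x}} := by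
    intro L hL
    obtain ⟨v, hv, hLv⟩ := mem_biUnion.1 hL
    rw [h.px.hjQ] at hv
    simp only [mem_insert, mem_singleton] at hv
    rcases hv with rfl | rfl | rfl
    · exact h.a_x ▸ hLv
    · exact hb hLv
    · exact mem_singleton.2 (hcon L hLv)
  obtain ⟨h2, _⟩ := mem_filter.1 h.jtl
  have h3 := (mem_filter.1 h2).2.2
  exact h3 _ h.xP h1

/-- different inner blocks belong to different triples. -/
theorem j_ne (h : Pcl B Q T U F P j i k0 a b c x) (h' : Pcl B Q T U F P j' i' k0' a' b' c' x')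
    (hk : k0 ≠ k0') : j ≠ j' := by
  rintro rfl
  exact hk (h.same h').2.2

/-- **no claims on a triple with at least three hits elsewhere**. -/
theorem no_claim (h : Pcl B Q T U F P j i k0 a b c x)
    (hbig : 3 ≤ mh B b ((F.erase {x}).biUnion id) + mh B c ((F.erase {x}).biUnion id))
    (h' : Pcl B Q T U F P j' i' k0' a' b' c' x') (s : Stg B Q T U F P al)
    (hq : MTR B Q T U F) : (B k0' ∩ (B j ∩ Q)).card ≠ 1 := by
  intro h1
  have hr := s.viol.reg
  have hjj : j ≠ j' := by
    rintro rfl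
    have := h'.fpb.own_card
    omega
  have hxx := h.x_ne h' hjj
  have hxxs : ({x} : Finset V) ≠ {x'} := fun he => hxx (singleton_injective he)
  obtain ⟨v, hv⟩ := card_pos.1 (by omega : 0 < (B k0' ∩ (B j ∩ Q)).card)
  obtain ⟨hv1, hv2⟩ := mem_inter.1 hv
  obtain ⟨hab, hac, hbc⟩ := h.px.ne
  obtain ⟨L, hL, hLx⟩ := h.c_sees_big hq hr hbig
  have hLx' : L ≠ {x'} := fun he => h'.not_sees_pt h.jtl hjj h.fpb.cQ (he ▸ hL)
  have hcx := h.bc_x (v := c) (Or.inr rfl)
  have hax := h.a_x
  have hv3 := hv2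
  rw [h.px.hjQ] at hv3
  simp only [mem_insert, mem_singleton] at hv3
  rcases hv3 with rfl | rfl | rfl
  · -- the free point
    rcases h.all k0' hv1 with h2 | h2 | h2
    · obtain ⟨k, hk, hxk⟩ := h'.fpb.k0_sub hq
        (mem_inter.2 ⟨h2, Frm.DQ h.px.xD⟩)
      exact Frm.T_notD (Q := Q) hk (mem_inter.1 hxk).1 h.px.xD
    · exact h'.fpb.k0_notT (h2 ▸ h.hj)
    · have h3 := h.fpb.own_card
      rw [← h2] at h3
      omega
  · -- the point `b`
    have h2 := h'.fpb.donor s.frm.sur s.par (h'.xpar s) h.hj hjj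
      (s := v) (p := a) (q := c) (by
        rw [h.px.hjQ]
        exact insert_comm _ _ _) hab.symm hbc hac hv1
    rcases h2 with h2 | h2 | ⟨C', hC', h2, h3⟩
    · rw [hax] at h2
      exact hxxs (mem_singleton.1 (h2 (mem_singleton_self _)))
    · exact hxxs (mem_singleton.1 (h2 hcx))
    · have h4 : {x} ∈ C' := by
        rw [hax] at h2
        rcases mem_insert.1 (h2 (mem_singleton_self _)) with h5 | h5
        · exact absurd h5 hxxs
        · exact h5
      have h5 : C' = {{x}} := by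
        by_contra hne
        exact disjoint_left.1 (s.par.dj hC' (h.xpar s) hne) h4 (mem_singleton_self _)
      rcases mem_insert.1 (h3 hL) with h6 | h6
      · exact hLx' h6
      · rw [h5] at h6
        exact hLx (mem_singleton.1 h6)
  · -- the point `c`
    have hb0 := h.b_only h' s hv1 hjj
    have hmb : mh B b ((F.erase {x}).biUnion id) = 0 := by
      unfold mh
      rw [card_eq_zero, filter_eq_empty_iff]
      rintro k _ ⟨hbk, y, hy⟩
      obtain ⟨hy1, hy2⟩ := mem_inter.1 hy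
      obtain ⟨M, hM, hyM⟩ := mem_biUnion.1 hy2
      obtain ⟨hne, hMF⟩ := mem_erase.1 hM
      refine hne (mem_singleton.1 (hb0 (mem_slf.2 ⟨hMF, y, hyM, ?_, k, hbk, hy1⟩)))
      rintro rfl
      exact h.px.notD (z := b) (by simp) (h.px.frm.FD hMF hyM)
    have hmc := h.mh_le hr (v := v) (Or.inr rfl) hv1 (fun he => h'.fpb.k0_notT (he ▸ h.hj)) (by
      rintro rfl
      obtain ⟨k, hk, hxk⟩ := h'.fpb.k0_sub hq
        (by rw [h.px.hiQ]; simp : x ∈ B k0' ∩ Q)
      exact Frm.T_notD (Q := Q) hk (mem_inter.1 hxk).1 h.px.xD) (h'.k0_sep hq)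
    omega

end Pcl

namespace Cla

variable {Q U : Finset V} {T : Finset ι} {F : Finset (Finset V)}
  {P : Finset (Finset (Finset V))} {al : V → Finset (Finset V) → ℕ}
  {j i k0 : ι} {a b c x : V} {j' i' k0' : ι} {a' b' c' x' : V}

theorem c_sees (h : Cla B Q T U F P j i k0 a b c x) (s : Stg B Q T U F P al)
    (hq : MTR B Q T U F) : ∃ L ∈ slf B F c, L ≠ {x} := by
  rcases h.2 with h2 | ⟨_, _, _, _, _, _, _, h2, h3⟩
  · exact h.1.c_sees_big hq s.viol.reg h2
  · exact h.1.c_sees_don h2 s h3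

/-- **the claims on a claiming triple are at `c`**. -/
theorem claim_at_c (h : Cla B Q T U F P j i k0 a b c x)
    (h' : Pcl B Q T U F P j' i' k0' a' b' c' x') (s : Stg B Q T U F P al)
    (hq : MTR B Q T U F) {v : V} (hv : v ∈ B k0') (hvj : v ∈ B j ∩ Q) (hjj : j ≠ j') :
    v = c := by
  have hxx := h.1.x_ne h' hjj
  have hxxs : ({x} : Finset V) ≠ {x'} := fun he => hxx (singleton_injective he)
  obtain ⟨hab, hac, hbc⟩ := h.1.px.ne
  obtain ⟨L, hL, hLx⟩ := h.c_sees s hq
  have hLx' : L ≠ {x'} := fun he => h'.not_sees_pt h.1.jtl hjj h.1.fpb.cQ (he ▸ hL)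
  have hcx := h.1.bc_x (v := c) (Or.inr rfl)
  have hax := h.1.a_x
  rw [h.1.px.hjQ] at hvj
  simp only [mem_insert, mem_singleton] at hvj
  rcases hvj with rfl | rfl | rfl
  · -- the free point
    exfalso
    rcases h.1.all k0' hv with h2 | h2 | h2
    · obtain ⟨k, hk, hxk⟩ := h'.fpb.k0_sub hq
        (mem_inter.2 ⟨h2, Frm.DQ h.1.px.xD⟩)
      exact Frm.T_notD (Q := Q) hk (mem_inter.1 hxk).1 h.1.px.xD
    · exact h'.fpb.k0_notT (h2 ▸ h.1.hj)
    · have h3 := h.1.fpb.own_card
      rw [← h2] at h3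
      exact hjj (h'.fpb.own_unique h.1.hj h3.ge)
  · -- the point `b`
    exfalso
    have h2 := h'.fpb.donor s.frm.sur s.par (h'.xpar s) h.1.hj hjj
      (s := v) (p := a) (q := c) (by
        rw [h.1.px.hjQ]
        exact insert_comm _ _ _) hab.symm hbc hac hv
    rcases h2 with h2 | h2 | ⟨C', hC', h2, h3⟩
    · rw [hax] at h2
      exact hxxs (mem_singleton.1 (h2 (mem_singleton_self _)))
    · exact hxxs (mem_singleton.1 (h2 hcx))
    · have h4 : {x} ∈ C' := by
        rw [hax] at h2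
        rcases mem_insert.1 (h2 (mem_singleton_self _)) with h5 | h5
        · exact absurd h5 hxxs
        · exact h5
      have h5 : C' = {{x}} := by
        by_contra hne
        exact disjoint_left.1 (s.par.dj hC' (h.1.xpar s) hne) h4 (mem_singleton_self _)
      rcases mem_insert.1 (h3 hL) with h6 | h6
      · exact hLx' h6
      · rw [h5] at h6
        exact hLx (mem_singleton.1 h6)
  · rfl

/-- **two claims on different points of a triple: the third point sees no leaf**. -/
theorem third_dead (h : Cla B Q T U F P j i k0 a b c x)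
    (h' : Cla B Q T U F P j' i' k0' a' b' c' x') (s : Stg B Q T U F P al)
    (hq : MTR B Q T U F) {k : ι} (hk : k ∈ T) (hkj : k ≠ j) (hkj' : k ≠ j')
    {p p' r : V} (hTk : B k ∩ Q = {p, p', r}) (hpp : p ≠ p') (hp : p ∈ B k0)
    (hp' : p' ∈ B k0') : slf B F r = ∅ := by
  have hkk : k0 ≠ k0' := by
    rintro rfl
    have h1 := h.1.fpb.other_card hk hkj
    have h2 : ({p, p'} : Finset V) ⊆ B k0 ∩ (B k ∩ Q) := by
      intro v hv
      rw [mem_insert, mem_singleton] at hv
      rcases hv with rfl | rfl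
      · exact mem_inter.2 ⟨hp, by rw [hTk]; simp⟩
      · exact mem_inter.2 ⟨hp', by rw [hTk]; simp⟩
    have h3 := card_le_card h2
    rw [card_pair hpp] at h3
    omega
  have hjj := h.1.j_ne h'.1 hkk
  have hxx := h.1.x_ne h'.1 hjj
  have hTk' : B k ∩ Q = {p', p, r} := by rw [hTk]; exact insert_comm _ _ _
  have h1 := h.1.fpb.two_see h'.1.fpb hjj hxx hk hkj hkj' hTk hp hp'
  obtain ⟨L, hL, hLx⟩ := h.c_sees s hq
  obtain ⟨L', hL', hLx'⟩ := h'.c_sees s hq
  have h2 := h.1.fpb.two_dead h'.1.fpb hjj hxx hk hkj hkj' hTk hp hp' hL hLx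
    (fun he => h'.1.not_sees_pt h.1.jtl hjj h.1.fpb.cQ (he ▸ hL))
  have h3 := h'.1.fpb.two_dead h.1.fpb hjj.symm hxx.symm hk hkj' hkj hTk' hp' hp hL' hLx'
    (fun he => h.1.not_sees_pt h'.1.jtl hjj.symm h'.1.fpb.cQ (he ▸ hL'))
  rw [eq_empty_iff_forall_notMem]
  intro M hM
  have h4 := h1 hM
  rw [mem_insert, mem_singleton] at h4
  rcases h4 with rfl | rfl
  · exact h2 hM
  · exact h3 hM

end Cla

end Pool.Agent.Hyp6
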