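import Pool.Agent.Hyp6.L3Fpe

/-!
# HYP6 L3Fpf: the triples with claims

The hits and the claims of a triple: at most four at every point (`hit_ncp`), at most eight in all if it
has a point without leaves (`eight_cl`). `HXF`: the payments of the remaining triples with claims.
-/

set_option autoImplicit false

namespace Pool.Agent.Hyp6

open Finset Pool.Agent.Hyp5 Rt

universe u v

variable {V : Type v} [DecidableEq V] {ι : Type u} [Fintype ι] [DecidableEq ι]
  {B : ι → Finset V}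

/-- the number of claims at the point `v` of the triple `k`. -/
def ncp (B : ι → Finset V) (Q : Finset V) (K : Finset ι) (k : ι) (v : V) : ℕ :=
  (K.filter (fun k0 => (B k0 ∩ (B k ∩ Q)).card = 1 ∧ v ∈ B k0)).card

omit [Fintype ι] [DecidableEq ι] in
/-- every claim is at one point. -/
theorem ncK_eq (Q : Finset V) (K : Finset ι) (k : ι) :
    ncK B Q K k = ∑ v ∈ B k ∩ Q, ncp B Q K k v := by
  unfold ncK ncp
  simp only [card_filter]
  rw [sum_comm]
  refine sum_congr rfl fun k0 _ => ?_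
  by_cases h : (B k0 ∩ (B k ∩ Q)).card = 1
  · simp only [h, true_and, if_true]
    rw [← card_filter, ← h]
    congr 1
    ext v
    simp only [mem_inter, mem_filter]
    tauto
  · simp [h]

omit [DecidableEq ι] in
theorem Kf_cla {Q : Finset V} {T : Finset ι} {U : Finset V}
    {F : Finset (Finset V)} {P : Finset (Finset (Finset V))} {k0 : ι} :
    k0 ∈ Kf B Q T U F P ↔ ∃ (j i : ι) (a b c x : V), Cla B Q T U F P j i k0 a b c x := mem_Kf

section

variable {Q U : Finset V} {T : Finset ι} {F : Finset (Finset V)}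
  {P : Finset (Finset (Finset V))} {al : V → Finset (Finset V) → ℕ}

omit [DecidableEq ι] in
/-- a claim is at a point of the triple. -/
theorem ncp_pos {K : Finset ι} {k : ι} {v : V} (h : ncp B Q K k v ≠ 0) :
    ∃ k0 ∈ K, (B k0 ∩ (B k ∩ Q)).card = 1 ∧ v ∈ B k0 := by
  unfold ncp at h
  obtain ⟨k0, hk0⟩ := card_pos.1 (Nat.pos_of_ne_zero h)
  obtain ⟨h1, h2, h3⟩ := mem_filter.1 hk0
  exact ⟨k0, h1, h2, h3⟩

omit [DecidableEq ι] in
/-- a triple gives at most `80` for every claim. -/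
theorem tF_ge0 [DecidableEq ι] (j : ι) :
    -80 * (ncl B Q T U F P j : ℤ) ≤ tF B Q T U F P j := by
  unfold tF tfr ncl
  have h1 : (0 : ℤ) ≤ (((Kf B Q T U F P).filter
    (fun k0 => (B k0 ∩ (B j ∩ Q)).card = 2)).card : ℤ) := by positivity
  linarith

/-- a triple of rank at least two which sees no leaf of a claim. -/
def Far (B : ι → Finset V) (Q : Finset V) (T : Finset ι) (U : Finset V)
    (F : Finset (Finset V)) (P : Finset (Finset (Finset V))) (k : ι) : Prop :=
  (∀ (j i k0 : ι) (a b c x : V), Pcl B Q T U F P j i k0 a b c x → k ≠ j →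
    ∀ v ∈ B k ∩ Q, {x} ∉ slf B F v) ∧
    2 ≤ rkc B U F (par0 B U F) (mcj B Q F (par0 B U F) k)

/-- a claim comes from another triple. -/
theorem Pcl.claim_ne {j i k0 : ι} {a b c x : V} (h : Pcl B Q T U F P j i k0 a b c x) {k : ι}
    (h1 : (B k0 ∩ (B k ∩ Q)).card = 1) : k ≠ j := by
  rintro rfl
  have h2 := h.fpb.own_card
  omega

/-- the blocks between removed points do not meet the leaves. -/
theorem Pcl.k0_sep' {j i k0 : ι} {a b c x : V} (h : Pcl B Q T U F P j i k0 a b c x)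
    (hq : MTR B Q T U F) : ¬ (B k0 ∩ F.biUnion id).Nonempty := by
  rintro ⟨z, hz⟩
  obtain ⟨hz1, hz2⟩ := mem_inter.1 hz
  obtain ⟨L, hL, hzL⟩ := mem_biUnion.1 hz2
  have hzD := h.px.frm.FD hL hzL
  obtain ⟨k, hk, hzk⟩ := h.fpb.k0_sub hq (mem_inter.2 ⟨hz1, Frm.DQ hzD⟩)
  exact Frm.T_notD (Q := Q) hk (mem_inter.1 hzk).1 hzD

/-- two different points of a triple are not in a block of a claim on it. -/
theorem claim_two {k k0 : ι} (h1 : (B k0 ∩ (B k ∩ Q)).card = 1) {p q : V}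
    (hp : p ∈ B k ∩ Q) (hq : q ∈ B k ∩ Q) (hpk : p ∈ B k0) (hqk : q ∈ B k0) : p = q :=
  card_le_one.1 h1.le p (mem_inter.2 ⟨hpk, hp⟩) q (mem_inter.2 ⟨hqk, hq⟩)

end

namespace StgR

variable {Q U : Finset V} {T : Finset ι} {F : Finset (Finset V)}
  {P : Finset (Finset (Finset V))} {al : V → Finset (Finset V) → ℕ}

/-- **the hits and the claims at a point**. -/
theorem hit_ncp (s : StgR B Q T U F P al) {k : ι} (hk : k ∈ T) {v : V} (hv : v ∈ B k ∩ Q) :
    ∑ L ∈ F, uh B v L + ncp B Q (Kf B Q T U F P) k v ≤ 4 := by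
  have h1 : ∑ L ∈ F, uh B v L = hit B {v} (F.biUnion id) := (hit_biUnion _ s.frm.sepF).symm
  rw [h1, hit_eq, sum_singleton]
  unfold ncp
  set A := univ.filter (fun i => v ∈ B i ∧ (B i ∩ F.biUnion id).Nonempty) with hA
  set C := (Kf B Q T U F P).filter (fun k0 => (B k0 ∩ (B k ∩ Q)).card = 1 ∧ v ∈ B k0) with hC
  have hd : Disjoint A C := by
    rw [disjoint_left]
    intro i hi hi'
    obtain ⟨hiK, _, _⟩ := mem_filter.1 hi'
    obtain ⟨_, _, hne⟩ := mem_filter.1 hi
    obtain ⟨j, i', a, b, c, x, h⟩ := Kf_cla.1 hiK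
    exact h.1.k0_sep' s.mtr hne
  have hkn : k ∉ A ∪ C := by
    intro hk'
    rcases mem_union.1 hk' with h2 | h2
    · obtain ⟨_, _, w, hw⟩ := mem_filter.1 h2
      obtain ⟨hwk, hwF⟩ := mem_inter.1 hw
      obtain ⟨L, hL, hwL⟩ := mem_biUnion.1 hwF
      exact Frm.T_notD (Q := Q) hk hwk (s.frm.FD hL hwL)
    · obtain ⟨hiK, _, _⟩ := mem_filter.1 h2
      obtain ⟨j, i', a, b, c, x, h⟩ := Kf_cla.1 hiK
      exact h.1.fpb.k0_notT hk
  have hsub : insert k (A ∪ C) ⊆ univ.filter (fun i => v ∈ B i) := by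
    intro i hi
    rw [mem_insert, mem_union] at hi
    rcases hi with rfl | hi | hi
    · exact mem_filter.2 ⟨mem_univ _, (mem_inter.1 hv).1⟩
    · exact mem_filter.2 ⟨mem_univ _, (mem_filter.1 hi).2.1⟩
    · exact mem_filter.2 ⟨mem_univ _, (mem_filter.1 hi).2.2⟩
  have h5 := card_le_card hsub
  rw [card_insert_of_notMem hkn, card_union_of_disjoint hd,
    s.viol.reg v (mem_inter.1 hv).2] at h5
  omega

/-- the hits of a triple are the hits of its points. -/
theorem jh_pts (_s : StgR B Q T U F P al) (k : ι) :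
    ∑ L ∈ F, jh B Q k L = ∑ v ∈ B k ∩ Q, ∑ L ∈ F, uh B v L := by
  rw [sum_comm]
  exact sum_congr rfl fun L _ => jh_sum Q k L

/-- **the hits and the claims of a triple**. -/
theorem twelve_ncl (s : StgR B Q T U F P al) {k : ι} (hk : k ∈ T) :
    ∑ L ∈ F, jh B Q k L + ncl B Q T U F P k ≤ 12 := by
  obtain ⟨x, y, z, hT, hxy, hxz, hyz⟩ := s.frm.three_points hk
  have h1 : ncl B Q T U F P k = ∑ v ∈ B k ∩ Q, ncp B Q (Kf B Q T U F P) k v := ncK_eq _ _ _
  rw [s.jh_pts, h1, ← sum_add_distrib]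
  have h2 : ∑ v ∈ B k ∩ Q, (∑ L ∈ F, uh B v L + ncp B Q (Kf B Q T U F P) k v) ≤
      ∑ v ∈ B k ∩ Q, 4 := sum_le_sum fun v hv => s.hit_ncp hk hv
  rw [sum_const, hT, card_eq_three.2 ⟨x, y, z, hxy, hxz, hyz, rfl⟩, ← hT] at h2
  simpa using h2

/-- the claims are hits on the blocks between removed points. -/
theorem ncl_jb (s : StgR B Q T U F P al) (k : ι) : ncl B Q T U F P k ≤ jb B Q T U k := by
  show ncK B Q (Kf B Q T U F P) k ≤ jb B Q T U k
  unfold ncK jb
  rw [card_eq_sum_ones]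
  refine (sum_le_sum (fun i hi => ?_)).trans (sum_le_sum_of_subset (fun i hi => ?_) :
    ∑ i ∈ (Kf B Q T U F P).filter (fun k0 => (B k0 ∩ (B k ∩ Q)).card = 1),
      (B i ∩ (B k ∩ Q)).card ≤ _)
  · exact (mem_filter.1 hi).2.ge
  · obtain ⟨hiK, _⟩ := mem_filter.1 hi
    obtain ⟨j, i', a, b, c, x, h⟩ := Kf_cla.1 hiK
    exact h.1.fpb.k0_bt s.mtr

/-- the hits, the allowed hits and the claims of a triple. -/
theorem twelve_ja (s : StgR B Q T U F P al) {k : ι} (hk : k ∈ T) :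
    ∑ L ∈ F, jh B Q k L + ja B Q (Ep B Q T U F) k + ncl B Q T U F P k ≤ 12 := by
  have h1 := s.frm.twelve s.viol.reg hk
  have h2 := s.ncl_jb k
  omega

/-- the parallel classes of a triple which sees only two of them. -/
theorem mcj_sub_two (s : StgR B Q T U F P al) {k : ι} {C D : Finset (Finset V)}
    (hC : C ∈ par0 B U F) (hD : D ∈ par0 B U F) (h : ∀ v ∈ B k ∩ Q, slf B F v ⊆ C ∪ D) :
    rkc B U F (par0 B U F) (mcj B Q F (par0 B U F) k) ≤ 2 := by
  have h1 : mcj B Q F (par0 B U F) k ⊆ {C, D} := by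
    intro E hE
    obtain ⟨h6, h7⟩ := Sp.mem_met.1 hE
    rw [not_disjoint_iff] at h7
    obtain ⟨L, hL, hLE⟩ := h7
    obtain ⟨v, hv, hLv⟩ := mem_biUnion.1 hL
    rw [mem_insert, mem_singleton]
    rcases mem_union.1 (h v hv hLv) with h8 | h8
    · left
      by_contra hne
      exact disjoint_left.1 (s.par.dj h6 hC hne) hLE h8
    · right
      by_contra hne
      exact disjoint_left.1 (s.par.dj h6 hD hne) hLE h8
  have h2 := (card_le_card h1).trans card_le_two
  have h3 := (s.par.nul s.frm.sur).nonneg (mcj B Q F (par0 B U F) k)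
  unfold rkc Sp.rkn
  omega

/-- a triple which sees only one parallel class. -/
theorem mcj_sub_one (s : StgR B Q T U F P al) {k : ι} {C : Finset (Finset V)}
    (hC : C ∈ par0 B U F) (h : ∀ v ∈ B k ∩ Q, slf B F v ⊆ C) :
    rkc B U F (par0 B U F) (mcj B Q F (par0 B U F) k) ≤ 1 := by
  have h1 : mcj B Q F (par0 B U F) k ⊆ {C} := by
    intro E hE
    obtain ⟨h6, h7⟩ := Sp.mem_met.1 hE
    rw [not_disjoint_iff] at h7
    obtain ⟨L, hL, hLE⟩ := h7
    obtain ⟨v, hv, hLv⟩ := mem_biUnion.1 hL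
    rw [mem_singleton]
    by_contra hne
    exact disjoint_left.1 (s.par.dj h6 hC hne) hLE (h v hv hLv)
  have h2 := card_le_card h1
  rw [card_singleton] at h2
  have h3 := (s.par.nul s.frm.sur).nonneg (mcj B Q F (par0 B U F) k)
  unfold rkc Sp.rkn
  omega

/-- a triple which sees no leaf. -/
theorem mcj_dead (s : StgR B Q T U F P al) {k : ι} (h : ∀ v ∈ B k ∩ Q, slf B F v = ∅) :
    rkc B U F (par0 B U F) (mcj B Q F (par0 B U F) k) ≤ 0 := by
  have h1 : mcj B Q F (par0 B U F) k = ∅ := by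
    rw [eq_empty_iff_forall_notMem]
    intro E hE
    obtain ⟨_, h7⟩ := Sp.mem_met.1 hE
    rw [not_disjoint_iff] at h7
    obtain ⟨L, hL, _⟩ := h7
    obtain ⟨v, hv, hLv⟩ := mem_biUnion.1 hL
    rw [h v hv] at hLv
    exact notMem_empty _ hLv
  have h3 := (s.par.nul s.frm.sur).nonneg (mcj B Q F (par0 B U F) k)
  rw [h1] at h3 ⊢
  unfold rkc Sp.rkn
  rw [card_empty]
  omega

/-- a line triple sees no leaf of a claim. -/
theorem far_tl (s : StgR B Q T U F P al) {k : ι} (hk : k ∈ tl B Q T U F P) :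
    Far B Q T U F P k :=
  ⟨fun _ _ _ _ _ _ _ h hkj _ hv => h.not_sees_pt hk hkj hv, (s.rank_tl hk).1.ge⟩

/-- a triple of rank two inside a class sees no leaf of a claim. -/
theorem far_kin (s : StgR B Q T U F P al) {C : Finset (Finset V)} (hC : C ∈ P) {k : ι}
    (hk : k ∈ Sp.Kin (Rg B Q T U F) (slj B Q F) C)
    (hr : 2 ≤ rkc B U F (par0 B U F) (mcj B Q F (par0 B U F) k)) : Far B Q T U F P k := by
  refine ⟨fun j i k0 a b c x h _ v hv hx => ?_, hr⟩
  have hsub : slj B Q F k ⊆ C := (s.toStg.kin.1 hk).2.2.2.2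
  have h1 : {x} ∈ C := hsub (mem_biUnion.2 ⟨v, hv, hx⟩)
  have h2 : C = {{x}} := by
    by_contra hne
    exact disjoint_left.1 (s.part.ptn.dj C hC _ h.xP hne) h1 (mem_singleton_self _)
  have h3 := s.mcj_sub_one (h.xpar s.toStg) (k := k) (fun w hw L hL => by
    rw [← h2]
    exact hsub (mem_biUnion.2 ⟨w, hw, hL⟩))
  omega

/-- **a claim at a point without leaves**: another point sees no leaf. -/
theorem donor_dead (s : StgR B Q T U F P al) {j i k0 : ι} {a b c x : V}
    (h : Pcl B Q T U F P j i k0 a b c x) {k : ι} (hk : k ∈ T) (hkj : k ≠ j) {p0 p q : V}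
    (hTk : B k ∩ Q = {p0, p, q}) (h0p : p0 ≠ p) (h0q : p0 ≠ q) (hpq : p ≠ q) (hs : p0 ∈ B k0)
    (hd : slf B F p0 = ∅) (hr : Far B Q T U F P k ∨
      3 ≤ rkc B U F (par0 B U F) (mcj B Q F (par0 B U F) k)) :
    slf B F p = ∅ ∨ slf B F q = ∅ := by
  have hxp := h.xpar s.toStg
  have hall : ∀ C D : Finset (Finset V), slf B F p ⊆ C ∪ D → slf B F q ⊆ C ∪ D →
      ∀ v ∈ B k ∩ Q, slf B F v ⊆ C ∪ D := by
    intro C D h1 h2 v hv
    rw [hTk] at hv
    simp only [mem_insert, mem_singleton] at hv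
    rcases hv with rfl | rfl | rfl
    · rw [hd]
      exact empty_subset _
    · exact h1
    · exact h2
  -- one point sees only the leaf `{x}`
  have key : ∀ {p q : V}, B k ∩ Q = {p0, p, q} → p0 ≠ p → p0 ≠ q → p ≠ q →
      (∀ C D : Finset (Finset V), slf B F p ⊆ C ∪ D → slf B F q ⊆ C ∪ D →
        ∀ v ∈ B k ∩ Q, slf B F v ⊆ C ∪ D) → slf B F p ⊆ {{x}} → slf B F p = ∅ := by
    intro p q hTk h0p h0q hpq hall h1
    have hpk : p ∈ B k ∩ Q := by rw [hTk]; simp
    rcases hr with hr | hr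
    · rw [eq_empty_iff_forall_notMem]
      intro L hL
      have h2 := mem_singleton.1 (h1 hL)
      exact hr.1 _ _ _ _ _ _ _ h hkj _ hpk (h2 ▸ hL)
    · by_contra hne
      have hB : BT B Q F (par0 B U F) k p0 p q {{x}} := {
        eq := hTk
        ab := h0p
        ac := h0q
        bc := hpq
        nb := nonempty_iff_ne_empty.2 hne
        mem := hxp
        sa := by rw [hd]; exact empty_subset _
        sb := h1
        nsc := fun h3 => by
          have h4 := s.mcj_sub_one hxp (k := k) (fun v hv => by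
            have := hall {{x}} {{x}} (h1.trans subset_union_left) (h3.trans subset_union_left) v hv
            rwa [union_idempotent] at this)
          omega }
      exact (h.nc k hk hkj ⟨p0, mem_inter.2 ⟨hs, by rw [hTk]; simp⟩⟩ _ _ _ hB).2 hs
  rcases h.fpb.donor s.frm.sur s.par hxp hk hkj hTk h0p h0q hpq hs with
    h1 | h1 | ⟨C', hC', h1, h2⟩
  · exact Or.inl (key hTk h0p h0q hpq hall h1)
  · refine Or.inr (key (by rw [hTk, pair_comm]) h0q h0p hpq.symm (fun C D h2 h3 => hall C D h3 h2)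
      h1)
  · exfalso
    rcases hr with hr | hr
    · have h3 := hr.2
      have h4 : ∀ v, v ∈ B k ∩ Q → slf B F v ⊆ insert {x} C' → slf B F v ⊆ C' := by
        intro v hv h5 L hL
        rcases mem_insert.1 (h5 hL) with h6 | h6
        · exact (hr.1 _ _ _ _ _ _ _ h hkj _ hv (h6 ▸ hL)).elim
        · exact h6
      have h5 := s.mcj_sub_one hC' (k := k) (fun v hv => by
        have hv' := hv
        rw [hTk] at hv'
        simp only [mem_insert, mem_singleton] at hv'
        rcases hv' with rfl | rfl | rfl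
        · rw [hd]
          exact empty_subset _
        · exact h4 _ hv h1
        · exact h4 _ hv h2)
      omega
    · have h3 := s.mcj_sub_two hxp hC' (k := k) (hall {{x}} C' (by
        rwa [← insert_eq]) (by rwa [← insert_eq]))
      omega

/-- **a triple with a point without leaves has such a point without claims**. -/
theorem dead_free (s : StgR B Q T U F P al) {k : ι} (hk : k ∈ T)
    (hd : ∃ p ∈ B k ∩ Q, slf B F p = ∅) (hr : Far B Q T U F P k ∨
      3 ≤ rkc B U F (par0 B U F) (mcj B Q F (par0 B U F) k)) :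
    ∃ p ∈ B k ∩ Q, slf B F p = ∅ ∧ ncp B Q (Kf B Q T U F P) k p = 0 := by
  obtain ⟨p0, hp0, hp0d⟩ := hd
  by_contra hcon
  push Not at hcon
  obtain ⟨k0, hk0, hc0, hpk0⟩ := ncp_pos (hcon p0 hp0 hp0d)
  obtain ⟨j, i, a, b, c, x, h⟩ := Kf_cla.1 hk0
  have hkj := h.1.claim_ne hc0
  -- name the points
  obtain ⟨y1, y2, y3, hT, hxy, hxz, hyz⟩ := s.frm.three_points hk
  obtain ⟨p, q, hT', h0p, h0q, hpq⟩ : ∃ b c, B k ∩ Q = {p0, b, c} ∧ p0 ≠ b ∧ p0 ≠ c ∧ b ≠ c := by
    rw [hT] at hp0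
    simp only [mem_insert, mem_singleton] at hp0
    rcases hp0 with rfl | rfl | rfl
    · exact ⟨y2, y3, hT, hxy, hxz, hyz⟩
    · refine ⟨y1, y3, ?_, hxy.symm, hyz, hxz⟩
      rw [hT]
      ext v
      simp only [mem_insert, mem_singleton]
      tauto
    · refine ⟨y1, y2, ?_, hxz.symm, hyz.symm, hxy⟩
      rw [hT]
      ext v
      simp only [mem_insert, mem_singleton]
      tauto
  -- a second point without leaves has a claim
  have key : ∀ {p q : V}, B k ∩ Q = {p0, p, q} → p0 ≠ p → p0 ≠ q → p ≠ q → slf B F p = ∅ →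
      False := by
    intro p q hT' h0p h0q hpq hpd
    have hpk : p ∈ B k ∩ Q := by rw [hT']; simp
    obtain ⟨k1, hk1, hc1, hpk1⟩ := ncp_pos (hcon p hpk hpd)
    obtain ⟨j', i', a', b', c', x', h'⟩ := Kf_cla.1 hk1
    have hkj' := h'.1.claim_ne hc1
    have h3 := h.third_dead h' s.toStg s.mtr hk hkj hkj' hT' h0p hpk0 hpk1
    have h4 := s.mcj_dead (k := k) (fun v hv => by
      rw [hT'] at hv
      simp only [mem_insert, mem_singleton] at hv
      rcases hv with rfl | rfl | rfl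
      · exact hp0d
      · exact hpd
      · exact h3)
    rcases hr with hr | hr
    · have h5 := hr.2
      omega
    · omega
  rcases s.donor_dead h.1 hk hkj hT' h0p h0q hpq hpk0 hp0d hr with h1 | h1
  · exact key hT' h0p h0q hpq h1
  · exact key (by rw [hT', pair_comm]) h0q h0p hpq.symm h1

/-- **the hits and the claims of a triple with a point without leaves**. -/
theorem eight_clF (s : StgR B Q T U F P al) {k : ι} (hk : k ∈ T)
    (hd : ∃ p ∈ B k ∩ Q, slf B F p = ∅) (hr : Far B Q T U F P k ∨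
      3 ≤ rkc B U F (par0 B U F) (mcj B Q F (par0 B U F) k)) :
    ∑ L ∈ F, jh B Q k L + ncl B Q T U F P k ≤ 8 := by
  obtain ⟨p, hp, hpd, hpc⟩ := s.dead_free hk hd hr
  obtain ⟨x, y, z, hT, hxy, hxz, hyz⟩ := s.frm.three_points hk
  have h1 : ncl B Q T U F P k = ∑ v ∈ B k ∩ Q, ncp B Q (Kf B Q T U F P) k v := ncK_eq _ _ _
  rw [s.jh_pts, h1, ← sum_add_distrib, ← add_sum_erase _ _ hp, hpc]
  have e4 : ∑ L ∈ F, uh B p L = 0 := by
    refine sum_eq_zero fun L hL => uh_zero hL (s.frm.T_notin hk hp hL) ?_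
    rw [hpd]
    exact notMem_empty _
  have h2 : ∑ v ∈ (B k ∩ Q).erase p, (∑ L ∈ F, uh B v L + ncp B Q (Kf B Q T U F P) k v) ≤
      ∑ v ∈ (B k ∩ Q).erase p, 4 := sum_le_sum fun v hv => s.hit_ncp hk (mem_of_mem_erase hv)
  rw [sum_const, card_erase_of_mem hp, hT, card_eq_three.2 ⟨x, y, z, hxy, hxz, hyz, rfl⟩,
    ← hT] at h2
  simp only [smul_eq_mul] at h2
  omega

/-- **the hits and the claims of a triple with a point without leaves**, line triples and rank
three. -/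
theorem eight_cl (s : StgR B Q T U F P al) {k : ι} (hk : k ∈ T)
    (hd : ∃ p ∈ B k ∩ Q, slf B F p = ∅) (hr : k ∈ tl B Q T U F P ∨
      3 ≤ rkc B U F (par0 B U F) (mcj B Q F (par0 B U F) k)) :
    ∑ L ∈ F, jh B Q k L + ncl B Q T U F P k ≤ 8 :=
  s.eight_clF hk hd (hr.imp_left s.far_tl)

/-- **all claims at one point, or the third point sees no leaf**. -/
theorem one_or_dead (s : StgR B Q T U F P al) {k : ι} (hk : k ∈ T)
    (hc : 0 < ncl B Q T U F P k) :
    (∃ v ∈ B k ∩ Q, ncp B Q (Kf B Q T U F P) k v = ncl B Q T U F P k ∧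
      ∀ w ∈ B k ∩ Q, w ≠ v → ncp B Q (Kf B Q T U F P) k w = 0) ∨
    ∃ r ∈ B k ∩ Q, slf B F r = ∅ ∧ ncp B Q (Kf B Q T U F P) k r = 0 := by
  have h1 : ncl B Q T U F P k = ∑ v ∈ B k ∩ Q, ncp B Q (Kf B Q T U F P) k v := ncK_eq _ _ _
  obtain ⟨v, hv, hcv⟩ : ∃ v ∈ B k ∩ Q, ncp B Q (Kf B Q T U F P) k v ≠ 0 := by
    by_contra hcon
    push Not at hcon
    rw [h1, sum_eq_zero hcon] at hc
    omega
  by_cases h2 : ∀ w ∈ B k ∩ Q, w ≠ v → ncp B Q (Kf B Q T U F P) k w = 0
  · exact Or.inl ⟨v, hv, by rw [h1, sum_eq_single_of_mem v hv h2], h2⟩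
  right
  push Not at h2
  obtain ⟨w, hw, hwv, hcw⟩ := h2
  obtain ⟨k0, hk0, hc0, hvk0⟩ := ncp_pos hcv
  obtain ⟨k1, hk1, hc1, hwk1⟩ := ncp_pos hcw
  obtain ⟨j, i, a, b, c, x, h⟩ := Kf_cla.1 hk0
  obtain ⟨j', i', a', b', c', x', h'⟩ := Kf_cla.1 hk1
  have hkj := h.1.claim_ne hc0
  have hkj' := h'.1.claim_ne hc1
  obtain ⟨r, hT, hvr, hwr⟩ : ∃ r, B k ∩ Q = {v, w, r} ∧ v ≠ r ∧ w ≠ r := by
    obtain ⟨y1, y2, y3, hT, hxy, hxz, hyz⟩ := s.frm.three_points hk
    rw [hT] at hv hw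
    simp only [mem_insert, mem_singleton] at hv hw
    rcases hv with rfl | rfl | rfl <;> rcases hw with rfl | rfl | rfl
    · exact absurd rfl hwv
    · exact ⟨y3, hT, hxz, hyz⟩
    · refine ⟨y2, ?_, hxy, hyz.symm⟩
      rw [hT]
      ext v
      simp only [mem_insert, mem_singleton]
      tauto
    · refine ⟨y3, ?_, hyz, hxz⟩
      rw [hT]
      ext v
      simp only [mem_insert, mem_singleton]
      tauto
    · exact absurd rfl hwv
    · refine ⟨y1, ?_, hxy.symm, hxz.symm⟩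
      rw [hT]
      ext v
      simp only [mem_insert, mem_singleton]
      tauto
    · refine ⟨y2, ?_, hyz.symm, hxy⟩
      rw [hT]
      ext v
      simp only [mem_insert, mem_singleton]
      tauto
    · refine ⟨y1, ?_, hxz.symm, hxy.symm⟩
      rw [hT]
      ext v
      simp only [mem_insert, mem_singleton]
      tauto
    · exact absurd rfl hwv
  have hrk : r ∈ B k ∩ Q := by rw [hT]; simp
  have h3 := h.third_dead h' s.toStg s.mtr hk hkj hkj' hT (Ne.symm hwv) hvk0 hwk1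
  refine ⟨r, hrk, h3, ?_⟩
  by_contra hcr
  obtain ⟨k2, hk2, hc2, hrk2⟩ := ncp_pos hcr
  obtain ⟨j2, i2, a2, b2, c2, x2, h''⟩ := Kf_cla.1 hk2
  have hkj2 := h''.1.claim_ne hc2
  have n01 : k0 ≠ k1 := fun he => hwv (claim_two hc0 hv hw hvk0 (he ▸ hwk1)).symm
  have n02 : k0 ≠ k2 := fun he => hvr (claim_two hc0 hv hrk hvk0 (he ▸ hrk2))
  have n12 : k1 ≠ k2 := fun he => hwr (claim_two hc1 hw hrk hwk1 (he ▸ hrk2))
  have m01 := h.1.j_ne h'.1 n01
  have m02 := h.1.j_ne h''.1 n02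
  have m12 := h'.1.j_ne h''.1 n12
  exact h.1.fpb.three h'.1.fpb h''.1.fpb m01 m02 m12 (h.1.x_ne h'.1 m01) (h.1.x_ne h''.1 m02)
    (h'.1.x_ne h''.1 m12) hk hkj hkj' hkj2 hT hvk0 hwk1 hrk2

/-- the claims of a triple: at most four together with the hits of a point, or at most eight with all
hits. -/
theorem four_or_eight (s : StgR B Q T U F P al) {k : ι} (hk : k ∈ T)
    (hc : 0 < ncl B Q T U F P k) :
    (∃ v ∈ B k ∩ Q, (∀ w ∈ B k ∩ Q, w ≠ v → ncp B Q (Kf B Q T U F P) k w = 0) ∧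
      0 < ncp B Q (Kf B Q T U F P) k v ∧
      ∑ L ∈ F, uh B v L + ncl B Q T U F P k ≤ 4) ∨
    ∑ L ∈ F, jh B Q k L + ncl B Q T U F P k ≤ 8 := by
  rcases s.one_or_dead hk hc with ⟨v, hv, h1, h2⟩ | ⟨r, hr, h1, h2⟩
  · left
    refine ⟨v, hv, h2, by omega, ?_⟩
    have := s.hit_ncp hk hv
    omega
  · right
    obtain ⟨x, y, z, hT, hxy, hxz, hyz⟩ := s.frm.three_points hk
    have h3 : ncl B Q T U F P k = ∑ v ∈ B k ∩ Q, ncp B Q (Kf B Q T U F P) k v := ncK_eq _ _ _
    rw [s.jh_pts, h3, ← sum_add_distrib, ← add_sum_erase _ _ hr, h2]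
    have e4 : ∑ L ∈ F, uh B r L = 0 := by
      refine sum_eq_zero fun L hL => uh_zero hL (s.frm.T_notin hk hr hL) ?_
      rw [h1]
      exact notMem_empty _
    have h4 : ∑ v ∈ (B k ∩ Q).erase r, (∑ L ∈ F, uh B v L + ncp B Q (Kf B Q T U F P) k v) ≤
        ∑ v ∈ (B k ∩ Q).erase r, 4 := sum_le_sum fun v hv => s.hit_ncp hk (mem_of_mem_erase hv)
    rw [sum_const, card_erase_of_mem hr, hT, card_eq_three.2 ⟨x, y, z, hxy, hxz, hyz, rfl⟩,
      ← hT] at h4
    simp only [smul_eq_mul] at h4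
    omega

/-- **a type B with a claim at one of its two points has a point without leaves**. -/
theorem bt_claim_dead (s : StgR B Q T U F P al) {k : ι} (hk : k ∈ T)
    (hr : 3 ≤ rkc B U F (par0 B U F) (mcj B Q F (par0 B U F) k)) {a b c : V}
    {D : Finset (Finset V)} (hB : BT B Q F (par0 B U F) k a b c D) {k0 : ι}
    (hk0 : k0 ∈ Kf B Q T U F P) (hc : (B k0 ∩ (B k ∩ Q)).card = 1) (h : a ∈ B k0 ∨ b ∈ B k0) :
    slf B F a = ∅ ∧ b ∈ B k0 := by
  obtain ⟨j, i, a', b', c', x, h1⟩ := Kf_cla.1 hk0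
  have hkj := h1.1.claim_ne hc
  have hxp := h1.1.xpar s.toStg
  by_cases hDx : D = {{x}}
  · subst hDx
    obtain ⟨h2, h3⟩ := h1.1.nc k hk hkj (card_pos.1 (by omega)) _ _ _ hB
    exact ⟨h2, h.resolve_left h3⟩
  have hnx : ∀ v, slf B F v ⊆ D → {x} ∉ slf B F v := fun v hv hx =>
    disjoint_left.1 (s.par.dj hB.mem hxp hDx) (hv hx) (mem_singleton_self _)
  -- the third point does not see only `{x}`
  have hc1 : ¬ slf B F c ⊆ {{x}} := by
    intro h3
    have h4 := s.mcj_sub_two hB.mem hxp (k := k) (fun v hv => by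
      rw [hB.eq] at hv
      simp only [mem_insert, mem_singleton] at hv
      rcases hv with rfl | rfl | rfl
      · exact hB.sa.trans subset_union_left
      · exact hB.sb.trans subset_union_left
      · exact h3.trans subset_union_right)
    omega
  -- a nonempty point and the third point are not in one class with `{x}`
  have hc2 : ∀ v, slf B F v ⊆ D → (slf B F v).Nonempty → ∀ C' ∈ par0 B U F,
      slf B F v ⊆ insert {x} C' → ¬ slf B F c ⊆ insert {x} C' := by
    intro v hv hne C' hC' h3 h4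
    obtain ⟨L, hL⟩ := hne
    have h5 : L ∈ C' := by
      rcases mem_insert.1 (h3 hL) with h6 | h6
      · exact absurd (h6 ▸ hL) (hnx v hv)
      · exact h6
    have h6 : C' = D := by
      by_contra hne
      exact disjoint_left.1 (s.par.dj hC' hB.mem hne) h5 (hv hL)
    subst h6
    have h7 := s.mcj_sub_two hxp hC' (k := k) (fun w hw => by
      rw [hB.eq] at hw
      simp only [mem_insert, mem_singleton] at hw
      rcases hw with rfl | rfl | rfl
      · exact hB.sa.trans subset_union_right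
      · exact hB.sb.trans subset_union_right
      · rwa [← insert_eq])
    omega
  have hbn : ¬ slf B F b ⊆ {{x}} := by
    intro h3
    obtain ⟨L, hL⟩ := hB.nb
    have h4 := mem_singleton.1 (h3 hL)
    exact hnx b hB.sb (h4 ▸ hL)
  rcases h with h | h
  · exfalso
    rcases h1.1.fpb.donor s.frm.sur s.par hxp hk hkj hB.eq hB.ab hB.ac hB.bc h with
      h2 | h2 | ⟨C', hC', h2, h3⟩
    · exact hbn h2
    · exact hc1 h2
    · exact hc2 b hB.sb hB.nb C' hC' h2 h3
  · refine ⟨?_, h⟩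
    have hT : B k ∩ Q = {b, a, c} := by
      rw [hB.eq]
      exact insert_comm _ _ _
    by_contra hne
    have hne' := nonempty_iff_ne_empty.2 hne
    rcases h1.1.fpb.donor s.frm.sur s.par hxp hk hkj hT hB.ab.symm hB.bc hB.ac h with
      h2 | h2 | ⟨C', hC', h2, h3⟩
    · obtain ⟨L, hL⟩ := hne'
      have h4 := mem_singleton.1 (h2 hL)
      exact hnx a hB.sa (h4 ▸ hL)
    · exact hc1 h2
    · exact hc2 a hB.sa hne' C' hC' h2 h3

/-- a triple of type B with the payment of the last case has a point without leaves. -/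
theorem bt_exc_dead (s : StgR B Q T U F P al) {k : ι} (hk : k ∈ T)
    (hr : 3 ≤ rkc B U F (par0 B U F) (mcj B Q F (par0 B U F) k)) {a b c : V}
    {D : Finset (Finset V)} (hB : BT B Q F (par0 B U F) k a b c D)
    (h : 4 < ∑ C ∈ P, uC B c C + ncl B Q T U F P k ∨
      ∃ k0 ∈ Kf B Q T U F P, (B k0 ∩ (B k ∩ Q)).card = 1 ∧ (a ∈ B k0 ∨ b ∈ B k0)) :
    slf B F a = ∅ := by
  by_cases hex : ∃ k0 ∈ Kf B Q T U F P, (B k0 ∩ (B k ∩ Q)).card = 1 ∧ (a ∈ B k0 ∨ b ∈ B k0)
  · obtain ⟨k0, hk0, h5, h6⟩ := hex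
    exact (s.bt_claim_dead hk hr hB hk0 h5 h6).1
  exfalso
  rcases h with h | h
  swap
  · exact hex h
  have hz : ∀ v, v = a ∨ v = b → ncp B Q (Kf B Q T U F P) k v = 0 := by
    intro v hv
    by_contra h0
    obtain ⟨k0, hk0, h5, h6⟩ := ncp_pos h0
    refine hex ⟨k0, hk0, h5, ?_⟩
    rcases hv with rfl | rfl
    · exact Or.inl h6
    · exact Or.inr h6
  have h1 : ncl B Q T U F P k = ∑ v ∈ B k ∩ Q, ncp B Q (Kf B Q T U F P) k v := ncK_eq _ _ _
  rw [hB.eq, sum_insert (by simp [hB.ab, hB.ac]), sum_pair hB.bc, hz a (Or.inl rfl),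
    hz b (Or.inr rfl)] at h1
  have h2 := s.hit_ncp hk (v := c) (by rw [hB.eq]; simp)
  rw [Frm.uC_all s.part] at h
  omega

/-- **the payments of the remaining triples with claims**. -/
theorem HXF (s : StgR B Q T U F P al) {v : ℤ} (hv : v ≤ 149) :
    ∀ j ∈ Trs B Q T (Rg B Q T U F) U F P, 0 < ncl B Q T U F P j →
      ∑ C ∈ P, Xv v B Q T U F P j C ≤ 8 * sT B Q T U F 15 j + tF B Q T U F P j := by
  intro j hj hc
  have hjT := (s.frm.types_trs s.part hj).1
  have hall : ∀ w : ℤ, ∑ C ∈ P, w * (jC B Q j C : ℤ) = w * ((∑ L ∈ F, jh B Q j L : ℕ) : ℤ) := by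
    intro w
    rw [← mul_sum, ← Frm.jC_all s.part j]
    push_cast
    rfl
  have hcast : ((∑ L ∈ F, jh B Q j L : ℕ) : ℤ) = ∑ L ∈ F, (jh B Q j L : ℤ) := by push_cast; rfl
  have htF : -80 * (ncl B Q T U F P j : ℤ) ≤ tF B Q T U F P j :=
    tF_ge0 (B := B) (Q := Q) (T := T) (U := U) (F := F) (P := P) j
  have hc0 : ncl B Q T U F P j ≠ 0 := by omega
  rcases s.frm.Xv_cases s.viol.reg s.part v hj with ⟨h1, h2⟩ | ⟨h1, h2, h3⟩ |
    ⟨h1, h2, a, b, c, D, C0, hB, hC0, hD, _, h3⟩ | ⟨h1, h2, _, hdd, h3⟩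
  · -- special
    simp only [if_neg hc0] at h2
    rw [sum_congr rfl fun C _ => h2 C, hall]
    have h4 := s.frm.twelve s.viol.reg hjT
    have h5 := s.ncl_jb j
    rcases Nat.eq_zero_or_pos (∑ L ∈ F, jh B Q j L) with h0 | h0
    · unfold sT
      omega
    · have h7 := s.frm.special_fourA s.alp s.viol.reg hjT h0 h1
      rcases s.four_or_eight hjT hc with ⟨w, _, _, _, h6⟩ | h6
      · unfold sT
        omega
      · unfold sT
        omega
  · -- few
    simp only [if_neg hc0] at h3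
    rw [sum_congr rfl fun C _ => h3 C, hall, s.frm.plain_supplyP s.viol.reg hjT h1, ← hcast]
    rcases s.four_or_eight hjT hc with ⟨w, _, _, _, h5⟩ | h5
    · omega
    · omega
  · -- type B
    rw [sum_congr rfl h3, sum_add_distrib, sum_ite_eq' P C0, if_pos hC0, ← mul_sum]
    obtain ⟨e3, h4⟩ := s.frm.BT_hits s.viol.reg s.part hjT hB.toBT hC0 hD
    rw [s.frm.plain_supplyP s.viol.reg hjT h1, ← hcast, e3]
    have h6 : ∑ C ∈ P, (uC B c C : ℤ) = ((∑ C ∈ P, uC B c C : ℕ) : ℤ) := by push_cast; rfl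
    rw [h6]
    push_cast
    linarith
  · -- a point without leaves
    simp only [if_neg hc0] at h3
    have hne : (slj B Q F j).Nonempty := by
      by_contra h5
      rw [not_nonempty_iff_eq_empty] at h5
      have h6 : ∑ L ∈ F, jh B Q j L = 0 := by
        rw [s.jh_pts]
        refine sum_eq_zero fun w hw => sum_eq_zero fun L hL =>
          uh_zero hL (s.frm.T_notin hjT hw hL) fun h7 => ?_
        have h8 : L ∈ slj B Q F j := mem_biUnion.2 ⟨w, hw, h7⟩
        rw [h5] at h8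
        exact notMem_empty _ h8
      omega
    have hrk := s.toStg.rank_trs hj h1 hne
    have h8 : ∑ L ∈ F, jh B Q j L + ncl B Q T U F P j ≤ 8 := by
      rcases hdd with h4 | ⟨_, a, b, c, D, hB, h5⟩
      · exact s.eight_cl hjT h4.1 (Or.inr hrk)
      · exact s.eight_cl hjT ⟨a, by rw [hB.eq]; simp, s.bt_exc_dead hjT hrk hB h5⟩
          (Or.inr hrk)
    rw [sum_congr rfl fun C _ => h3 C, hall, s.frm.plain_supplyP s.viol.reg hjT h1, ← hcast]
    have h9 : (0 : ℤ) ≤ ((∑ L ∈ F, jh B Q j L : ℕ) : ℤ) := by positivity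
    have h10 : v * ((∑ L ∈ F, jh B Q j L : ℕ) : ℤ) ≤ 149 * ((∑ L ∈ F, jh B Q j L : ℕ) : ℤ) :=
      mul_le_mul_of_nonneg_right hv h9
    unfold vC
    by_cases h11 : ∑ L ∈ F, jh B Q j L ≤ 5
    · rw [if_pos h11]
      omega
    · rw [if_neg h11]
      by_cases h12 : ∑ L ∈ F, jh B Q j L = 6
      · rw [if_pos h12]
        omega
      · rw [if_neg h12]
        omega

end StgR

end Pool.Agent.Hyp6
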