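import Pool.Agent.Hyp6.L3Fpg
import Pool.Agent.Hyp6.L3Gm

/-!
# HYP6 L3Fph: the exceptional pattern claims or the point receives more

`StgR.pcl_or`: at a private point `x` (own class, no inside triple, no centre of a triple which pays as
type B, no hits of `U`) the pattern `Pxf` satisfies the condition on the centres (`Pcl`), or one of the
remaining triples pays at least `80` more at `x`.
-/

set_option autoImplicit false

namespace Pool.Agent.Hyp6

open Finset Pool.Agent.Hyp5 Rt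

universe u v

variable {V : Type v} [DecidableEq V] {ι : Type u} [Fintype ι] [DecidableEq ι]
  {B : ι → Finset V}

section

variable {Q U : Finset V} {T : Finset ι} {F : Finset (Finset V)}
  {P : Finset (Finset (Finset V))} {al : V → Finset (Finset V) → ℕ}
  {j i k0 : ι} {a b c x : V} {j' i' k0' : ι} {a' b' c' x' : V}

/-- `a` sees exactly the leaf `{x}`. -/
theorem Pxf.a_x (h : Pxf B Q T U F j i k0 a b c x) : slf B F a = {{x}} := by
  ext L
  rw [mem_singleton]
  constructor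
  · intro hL
    obtain ⟨h1, y, hy, hay⟩ := mem_slf.1 hL
    by_contra hne
    exact h.px.a_leaf h1 hne hy hay
  · rintro rfl
    obtain ⟨k, hk⟩ := card_pos.1 (by have := h.ha; omega :
      0 < (univ.filter fun k => x ∈ B k ∧ a ∈ B k).card)
    obtain ⟨_, h1, h2⟩ := mem_filter.1 hk
    refine mem_slf.2 ⟨h.px.hx, x, mem_singleton_self x, ?_, k, h2, h1⟩
    rintro rfl
    exact h.px.notD (z := a) (by simp) h.px.xD

/-- `b` and `c` see `{x}`. -/
theorem Pxf.bc_x (h : Pxf B Q T U F j i k0 a b c x) {v : V} (hv : v = b ∨ v = c) :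
    {x} ∈ slf B F v := by
  have h1 : v ∈ B i ∩ Q := by
    rw [h.px.hiQ]
    rcases hv with rfl | rfl <;> simp
  have h2 : x ∈ B i ∩ Q := by
    rw [h.px.hiQ]
    simp
  refine mem_slf.2 ⟨h.px.hx, x, mem_singleton_self x, ?_, i, (mem_inter.1 h1).1,
    (mem_inter.1 h2).1⟩
  rintro rfl
  refine h.px.notD (z := v) ?_ h.px.xD
  rcases hv with rfl | rfl <;> simp

/-- the leaf, the free point and the inner block are determined by the triple. -/
theorem Pxf.same (h : Pxf B Q T U F j i k0 a b c x) (h' : Pxf B Q T U F j i' k0' a' b' c' x') :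
    x = x' ∧ a = a' ∧ k0 = k0' := by
  have hax := h.a_x
  have hax' := h'.a_x
  have ha' : a' ∈ B j ∩ Q := by rw [h'.px.hjQ]; simp
  have hbQ : b ∈ B j ∩ Q := by rw [h.px.hjQ]; simp
  have hcQ : c ∈ B j ∩ Q := by rw [h.px.hjQ]; simp
  have hcj' : c' ∈ B j := (mem_inter.1 (by rw [h'.px.hjQ]; simp : c' ∈ B j ∩ Q)).1
  have hx : x = x' := by
    by_contra hne
    rw [h.px.hjQ] at ha'
    simp only [mem_insert, mem_singleton] at ha'
    have h1 : {x} ∈ slf B F a' := by
      rcases ha' with h1 | h1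
      · rw [h1, hax]
        exact mem_singleton_self _
      · exact h.bc_x h1
    rw [hax', mem_singleton] at h1
    exact hne (singleton_injective h1)
  subst hx
  have haa : a = a' := by
    by_contra hne
    have h1 : a ∈ B j ∩ Q := by rw [h.px.hjQ]; simp
    rw [h'.px.hjQ] at h1
    simp only [mem_insert, mem_singleton] at h1
    rw [h.px.hjQ] at ha'
    simp only [mem_insert, mem_singleton] at ha'
    have hai : a ∈ B i' ∩ Q := by
      rw [h'.px.hiQ]
      rcases h1 with h1 | h1 | h1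
      · exact absurd h1 hne
      · rw [h1]; simp
      · rw [h1]; simp
    have hxi : x ∈ B i' := (mem_inter.1 (by rw [h'.px.hiQ]; simp : x ∈ B i' ∩ Q)).1
    obtain ⟨n1, n2⟩ := h.hno i' hxi (mem_inter.1 hai).1
    -- one of `b`, `c` is in `B i'`
    have key : ∀ v, v ∈ B j ∩ Q → v ≠ a' → v ∈ B i' := by
      intro v hv hva
      rw [h'.px.hjQ] at hv
      simp only [mem_insert, mem_singleton] at hv
      have h2 : v ∈ B i' ∩ Q := by
        rw [h'.px.hiQ]
        rcases hv with h2 | h2 | h2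
        · exact absurd h2 hva
        · rw [h2]; simp
        · rw [h2]; simp
      exact (mem_inter.1 h2).1
    obtain ⟨_, _, hbc⟩ := h.px.ne
    by_cases h3 : a' = b
    · exact n2 (key c hcQ (by rw [h3]; exact hbc.symm))
    · exact n1 (key b hbQ (Ne.symm h3))
  subst haa
  refine ⟨rfl, rfl, ?_⟩
  rcases h.all k0' h'.ak with h1 | h1 | h1
  · exact absurd h1 h'.xk
  · exact absurd (h1 ▸ hcj' : c' ∈ B k0') h'.ck
  · exact h1.symm

/-- two inner blocks at different points of a triple: the third point sees no leaf. -/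
theorem Fpb.third_dead (h : Fpb B Q T U F j i k0 a b c x)
    (h' : Fpb B Q T U F j' i' k0' a' b' c' x') (hjj : j ≠ j') (hxx : x ≠ x') {k : ι}
    (hk : k ∈ T) (hkj : k ≠ j) (hkj' : k ≠ j') {s s' r : V} (hTk : B k ∩ Q = {s, s', r})
    (hs : s ∈ B k0) (hs' : s' ∈ B k0') {L L' : Finset V} (hL : L ∈ slf B F c)
    (hLx : L ≠ {x}) (hLx' : L ≠ {x'}) (hL' : L' ∈ slf B F c') (hLy' : L' ≠ {x'})
    (hLy : L' ≠ {x}) : slf B F r = ∅ := by
  have hTk' : B k ∩ Q = {s', s, r} := by rw [hTk]; exact insert_comm _ _ _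
  have h1 := h.two_see h' hjj hxx hk hkj hkj' hTk hs hs'
  have h2 := h.two_dead h' hjj hxx hk hkj hkj' hTk hs hs' hL hLx hLx'
  have h3 := h'.two_dead h hjj.symm hxx.symm hk hkj' hkj hTk' hs' hs hL' hLy' hLy
  rw [eq_empty_iff_forall_notMem]
  intro M hM
  have h4 := h1 hM
  rw [mem_insert, mem_singleton] at h4
  rcases h4 with rfl | rfl
  · exact h2 hM
  · exact h3 hM

end

namespace StgR

variable {Q U : Finset V} {T : Finset ι} {F : Finset (Finset V)}
  {P : Finset (Finset (Finset V))} {al : V → Finset (Finset V) → ℕ}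

/-- in a special triple only one point sees leaves. -/
theorem special_one (s : StgR B Q T U F P al) {k : ι} (hk : k ∈ T)
    (hs : 1 ≤ ja B Q (Ep B Q T U F) k) {p q : V} (hp : p ∈ B k ∩ Q) (hq : q ∈ B k ∩ Q)
    (hpq : p ≠ q) (hps : (slf B F p).Nonempty) (hqs : (slf B F q).Nonempty) : False := by
  have hA := s.alp
  obtain ⟨i, hi, hpos⟩ := exists_ne_zero_of_sum_ne_zero
    (Nat.pos_iff_ne_zero.1 (by unfold ja at hs; omega :
      0 < ∑ i ∈ Als B (Ep B Q T U F), (B i ∩ (B k ∩ Q)).card))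
  obtain ⟨w, hw⟩ := card_pos.1 (Nat.pos_of_ne_zero hpos)
  obtain ⟨hwi, hwk⟩ := mem_inter.1 hw
  have key : ∀ v ∈ B k ∩ Q, v ≠ w → ¬ (slf B F v).Nonempty := by
    rintro v hv hvw ⟨L, hL⟩
    obtain ⟨hLF, y, hy, hvy⟩ := mem_slf.1 hL
    exact hA _ hk _ hwk _ hi hwi v hv hvw L hLF y hy hvy
  by_cases h1 : p = w
  · exact key q hq (fun h2 => hpq (h1.trans h2.symm)) hqs
  · exact key p hp h1 hps

/-- **the pattern claims or the point receives `80` more**. -/
theorem pcl_or (s : StgR B Q T U F P al) {j i k0 : ι} {a b c x : V}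
    (h : Pxf B Q T U F j i k0 a b c x) (g0 : hit B U {x} = 0) (xP : {{x}} ∈ P)
    (priv : aC B Q T U F P {{x}} = {j})
    (hK : Sp.Kin (Rg B Q T U F) (slj B Q F) {{x}} = ∅) (hN : NCt B Q T U F P {{x}})
    {L : Finset V} (hL : L ∈ slf B F c) (hLx : L ≠ {x}) :
    Pcl B Q T U F P j i k0 a b c x ∨
      ∃ k ∈ Trs B Q T (Rg B Q T U F) U F P,
        144 * (jC B Q k {{x}} : ℤ) - Xv 149 B Q T U F P k {{x}} ≤
          -5 * (jC B Q k {{x}} : ℤ) - 80 := by
  by_cases hnc : ∀ k ∈ T, k ≠ j → (B k0 ∩ (B k ∩ Q)).Nonempty → ∀ a' b' c',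
      BT B Q F (par0 B U F) k a' b' c' {{x}} → slf B F a' = ∅ ∧ a' ∉ B k0
  · exact Or.inl ⟨h, g0, xP, priv, hnc⟩
  right
  push Not at hnc
  obtain ⟨k, hk, hkj, hmeet, a', b', c', hB, hbad⟩ := hnc
  have hpb := h.fpb g0
  have hxp : {{x}} ∈ par0 B U F := s.toStg.own_par xP
  have hjtl : j ∈ tl B Q T U F P := by
    have h1 : j ∈ aC B Q T U F P {{x}} := by rw [priv]; exact mem_singleton_self j
    exact (Sp.mem_atl.1 h1).1
  have hnsee : ∀ {l : ι}, l ∈ tl B Q T U F P → l ≠ j → {x} ∉ slj B Q F l := by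
    intro l hl hlj hx
    have h1 : l ∈ aC B Q T U F P {{x}} := by
      refine Sp.mem_atl.2 ⟨hl, Sp.met_sub_lx (Sp.mem_met.2 ⟨xP, ?_⟩)⟩
      rw [not_disjoint_iff]
      exact ⟨{x}, hx, mem_singleton_self _⟩
    rw [priv, mem_singleton] at h1
    exact hlj h1
  have ha' : a' ∈ B k ∩ Q := by rw [hB.eq]; simp
  have hb' : b' ∈ B k ∩ Q := by rw [hB.eq]; simp
  have hc' : c' ∈ B k ∩ Q := by rw [hB.eq]; simp
  have hbx : {x} ∈ slf B F b' := by
    obtain ⟨M, hM⟩ := hB.nb
    exact (mem_singleton.1 (hB.sb hM)) ▸ hM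
  have hcn : (slf B F c').Nonempty := by
    rw [nonempty_iff_ne_empty]
    intro h1
    exact hB.nsc (by rw [h1]; exact empty_subset _)
  have hxk : {x} ∈ slj B Q F k := mem_biUnion.2 ⟨b', hb', hbx⟩
  have hktl : k ∉ tl B Q T U F P := fun h1 => hnsee h1 hkj hxk
  -- the triple is one of the remaining triples
  have hkT : k ∈ Trs B Q T (Rg B Q T U F) U F P := by
    refine mem_sdiff.2 ⟨mem_sdiff.2 ⟨hk, fun h1 => ?_⟩, hktl⟩
    obtain ⟨C, hC, h2⟩ := mem_biUnion.1 h1
    have h3 := (s.toStg.kin.1 h2).2.2.2.2 hxk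
    have h4 : C = {{x}} := by
      by_contra hne
      exact disjoint_left.1 (s.part.ptn.dj C hC _ xP hne) h3 (mem_singleton_self _)
    rw [h4, hK] at h2
    exact notMem_empty _ h2
  refine ⟨k, hkT, ?_⟩
  have hja : ja B Q (Ep B Q T U F) k = 0 := by
    by_contra h1
    exact s.special_one hk (by omega) hb' hc' hB.bc hB.nb hcn
  have hrk := s.toStg.rank_trs hkT hja ⟨{x}, hxk⟩
  have hhit : 1 ≤ (jC B Q k {{x}} : ℤ) := by
    have h1 : jC B Q k {{x}} = jh B Q k {x} := s.toStg.jC_one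
    have h2 : 0 < uh B b' {x} := (uh_pos h.px.hx (s.frm.T_notin hk hb' h.px.hx)).2 hbx
    have h3 : uh B b' {x} ≤ jh B Q k {x} := by
      rw [jh_sum]
      exact single_le_sum (f := fun v => uh B v {x}) (fun _ _ => Nat.zero_le _) hb'
    rw [h1]
    omega
  rcases s.frm.Xv_cases s.viol.reg s.part 149 hkT with ⟨h1, _⟩ | ⟨_, _, h3⟩ |
    ⟨_, h2, p, q, r, D, C0, hD, _, _, _, _⟩ | ⟨_, h2, hno, hdd, _⟩
  · omega
  · -- few hits
    rw [h3]
    split_ifs
    · linarith
    · linarith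
  · -- type B
    exfalso
    by_cases hDx : D = {{x}}
    · subst hDx
      exact hN k hkT hja h2 p q r _ hD (Subset.refl _)
    -- the point `q` is `c'`, so the rank is two
    have hqx : {x} ∉ slf B F q := fun h4 =>
      disjoint_left.1 (s.par.dj hD.mem hxp hDx) (hD.sb h4) (mem_singleton_self _)
    have hpx : {x} ∉ slf B F p := fun h4 =>
      disjoint_left.1 (s.par.dj hD.mem hxp hDx) (hD.sa h4) (mem_singleton_self _)
    have hqk : q ∈ B k ∩ Q := by rw [hD.eq]; simp
    have hqc : q = c' := by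
      rw [hB.eq] at hqk
      simp only [mem_insert, mem_singleton] at hqk
      rcases hqk with h4 | h4 | h4
      · exfalso
        obtain ⟨M, hM⟩ := hD.nb
        rw [h4] at hM
        exact hqx (h4 ▸ (mem_singleton.1 (hB.sa hM)) ▸ hM)
      · exact absurd (h4 ▸ hbx) hqx
      · exact h4
    have h4 := s.mcj_sub_two hxp hD.mem (k := k) (fun v hv => by
      rw [hB.eq] at hv
      simp only [mem_insert, mem_singleton] at hv
      rcases hv with rfl | rfl | rfl
      · exact hB.sa.trans subset_union_left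
      · exact hB.sb.trans subset_union_left
      · exact (hqc ▸ hD.sb : slf B F _ ⊆ D).trans subset_union_right)
    omega
  · -- claims on the triple
    exfalso
    rcases hdd with ⟨_, h4⟩ | ⟨hcl, p, q, r, D, hD, h4⟩
    · exact h4 _ _ _ _ hB
    -- the point `a'` is dead
    have hnB : ¬ (NoCl B Q (Kf B Q T U F P) k a' b' ∧
        ∑ C ∈ P, uC B c' C + ncl B Q T U F P k ≤ 4) := fun h5 =>
      hno a' b' c' {{x}} ⟨hB, h5.1, h5.2⟩
    have hexc : 4 < ∑ C ∈ P, uC B c' C + ncl B Q T U F P k ∨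
        ∃ k0 ∈ Kf B Q T U F P, (B k0 ∩ (B k ∩ Q)).card = 1 ∧ (a' ∈ B k0 ∨ b' ∈ B k0) := by
      by_cases h5 : NoCl B Q (Kf B Q T U F P) k a' b'
      · left
        by_contra h6
        exact hnB ⟨h5, by omega⟩
      · right
        unfold NoCl at h5
        push Not at h5
        obtain ⟨k2, hk2, h6, h7⟩ := h5
        refine ⟨k2, hk2, h6, ?_⟩
        by_cases h8 : a' ∈ B k2
        · exact Or.inl h8
        · exact Or.inr (h7 h8)
    have had := s.bt_exc_dead hk hrk hB hexc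
    have hak0 : a' ∈ B k0 := hbad had
    -- a claim on the triple
    have hsum : ncl B Q T U F P k = ∑ v ∈ B k ∩ Q, ncp B Q (Kf B Q T U F P) k v := ncK_eq _ _ _
    obtain ⟨v, hv, hcv⟩ : ∃ v ∈ B k ∩ Q, ncp B Q (Kf B Q T U F P) k v ≠ 0 := by
      by_contra hcon
      push Not at hcon
      rw [hsum, sum_eq_zero hcon] at hcl
      omega
    obtain ⟨k2, hk2, hc2, hvk2⟩ := ncp_pos hcv
    obtain ⟨j2, i2, a2, b2, c2, x2, h2⟩ := Kf_cla.1 hk2
    have hkj2 := h2.1.claim_ne hc2
    -- the claim comes from another triple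
    have hk0c : (B k0 ∩ (B k ∩ Q)).card ≤ 1 := hpb.other_card hk hkj
    have hjj : j ≠ j2 := by
      rintro rfl
      obtain ⟨e1, e2, e3⟩ := h.same h2.1.toPxf
      subst e3
      -- then `k0` is a claim at `a'`
      have h7 : a' ∈ B k0 ∩ (B k ∩ Q) := mem_inter.2 ⟨hak0, ha'⟩
      subst e1
      have h8 := h2.1.nc k hk hkj hmeet a' b' c' hB
      exact h8.2 hak0
    have hxx : x ≠ x2 := by
      rintro rfl
      have h7 := h2.1.priv
      rw [priv, singleton_inj] at h7
      exact hjj h7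
    obtain ⟨L2, hL2, hL2x⟩ := h2.c_sees s.toStg s.mtr
    have hLx2 : L ≠ {x2} := fun he =>
      h2.1.not_sees_pt hjtl hjj hpb.cQ (he ▸ hL)
    have hL2y : L2 ≠ {x} := fun he =>
      hnsee h2.1.jtl hjj.symm (mem_biUnion.2 ⟨c2, h2.1.fpb.cQ, he ▸ hL2⟩)
    rw [hB.eq] at hv
    simp only [mem_insert, mem_singleton] at hv
    rcases hv with rfl | rfl | rfl
    · -- the claim is at the dead point
      rcases s.donor_dead h2.1 hk hkj2 hB.eq hB.ab hB.ac hB.bc hvk2 had (Or.inr hrk) with h7 | h7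
      · exact hB.nb.ne_empty h7
      · exact hcn.ne_empty h7
    · have h7 := hpb.third_dead h2.1.fpb hjj hxx hk hkj hkj2 (r := c') hB.eq hak0 hvk2 hL hLx hLx2
        hL2 hL2x hL2y
      exact hcn.ne_empty h7
    · have h7 := hpb.third_dead h2.1.fpb hjj hxx hk hkj hkj2 (r := b') (by
          rw [hB.eq, pair_comm]) hak0 hvk2 hL hLx hLx2 hL2 hL2x hL2y
      exact hB.nb.ne_empty h7

end StgR

end Pool.Agent.Hyp6
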