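import Pool.Agent.Hyp6.L3Fph
import Pool.Agent.Hyp6.L3P7

/-!
# HYP6 L3Fpi: private points with six hits

`StgR.donor_six`: a line triple with claims and six hits on its private point `x` has at most three
claims and hits elsewhere, with three it has the pattern `Pxf` and claims itself.
-/

set_option autoImplicit false

namespace Pool.Agent.Hyp6

open Finset Pool.Agent.Hyp5 Rt

universe u v

variable {V : Type v} [DecidableEq V] {ι : Type u} [Fintype ι] [DecidableEq ι]
  {B : ι → Finset V}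

omit [DecidableEq ι] in
/-- the hits of a point on a point. -/
theorem uh_pt (v x : V) :
    uh B v {x} = (univ.filter fun k => x ∈ B k ∧ v ∈ B k).card := by
  unfold uh
  rw [hit_eq, sum_singleton]
  congr 1
  ext i
  simp only [mem_filter, mem_univ, true_and]
  constructor
  · rintro ⟨h1, y, hy⟩
    obtain ⟨h2, h3⟩ := mem_inter.1 hy
    rw [mem_singleton] at h3
    exact ⟨h3 ▸ h2, h1⟩
  · rintro ⟨h1, h2⟩
    exact ⟨h2, x, mem_inter.2 ⟨h1, mem_singleton_self x⟩⟩

namespace StgR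

variable {Q U : Finset V} {T : Finset ι} {F : Finset (Finset V)}
  {P : Finset (Finset (Finset V))} {al : V → Finset (Finset V) → ℕ}

/-- the core: `a`, `b` have five hits on `x`, `c` one hit, in a block with `b`; `a` and `c` have only
their triple in common. -/
theorem six_don (s : StgR B Q T U F P al) {k : ι} (hk : k ∈ T) {x a b c : V}
    (hT : B k ∩ Q = {a, b, c}) (hbc : b ≠ c) (hx : {x} ∈ F)
    (hxp : {{x}} ∈ par0 B U F) (hnab : ∀ l, x ∈ B l → a ∈ B l → b ∉ B l) {i : ι}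
    (hxi : x ∈ B i) (hbi : b ∈ B i) (hci : c ∈ B i) (hc1 : uh B c {x} = 1)
    (h5 : uh B a {x} + uh B b {x} = 5) (hcf : ∀ l, a ∈ B l → c ∈ B l → l = k) :
    ∃ k0, Pxf B Q T U F k i k0 a b c x := by
  have hak : a ∈ B k ∩ Q := by rw [hT]; simp
  have hbk : b ∈ B k ∩ Q := by rw [hT]; simp
  have hck : c ∈ B k ∩ Q := by rw [hT]; simp
  have hxD : x ∈ Dp B Q T := s.frm.FD hx (mem_singleton_self x)
  have hxQ : x ∈ Q := Frm.DQ hxD
  have hxk : x ∉ B k := fun h1 => Frm.T_notD (Q := Q) hk h1 hxD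
  have hxb : x ≠ b := fun he => hxk (he ▸ (mem_inter.1 hbk).1)
  have hxc : x ≠ c := fun he => hxk (he ▸ (mem_inter.1 hck).1)
  have hxa : x ≠ a := fun he => hxk (he ▸ (mem_inter.1 hak).1)
  have hi3 : B i ∩ Q = {x, b, c} := by
    symm
    refine eq_of_subset_of_card_le ?_ ?_
    · intro v hv
      simp only [mem_insert, mem_singleton] at hv
      rcases hv with rfl | rfl | rfl
      · exact mem_inter.2 ⟨hxi, hxQ⟩
      · exact mem_inter.2 ⟨hbi, (mem_inter.1 hbk).2⟩
      · exact mem_inter.2 ⟨hci, (mem_inter.1 hck).2⟩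
    · rw [card_eq_three.2 ⟨x, b, c, hxb, hxc, hbc, rfl⟩]
      exact s.frm.reg3 i
  have hai : a ∉ B i := fun h1 => hnab i hxi h1 hbi
  have px : Px B Q T U F k i a b c x := {
    frm := s.frm
    hj := hk
    hjQ := hT
    hx := hx
    hfree := s.toStg.free_own hxp
    hiQ := hi3
    hi3 := by rw [hi3]; exact card_eq_three.2 ⟨x, b, c, hxb, hxc, hbc, rfl⟩ }
  rw [uh_pt] at hc1
  rw [uh_pt, uh_pt] at h5
  set Xa := univ.filter fun k => x ∈ B k ∧ a ∈ B k with hXa
  set Xb := univ.filter fun k => x ∈ B k ∧ b ∈ B k with hXb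
  have hXc : ∀ l, x ∈ B l → c ∈ B l → l = i := by
    intro l h1 h2
    exact card_le_one.1 hc1.le l (mem_filter.2 ⟨mem_univ _, h1, h2⟩) i
      (mem_filter.2 ⟨mem_univ _, hxi, hci⟩)
  have hiXb : i ∈ Xb := mem_filter.2 ⟨mem_univ _, hxi, hbi⟩
  have m1 : mlt B a c ≤ 2 := by
    refine (card_le_card (t := {k}) ?_).trans (by rw [card_singleton]; norm_num)
    intro l hl
    obtain ⟨_, h1, h2⟩ := mem_filter.1 hl
    exact mem_singleton.2 (hcf l h1 h2)
  have m2 : mlt B a b + Xa.card ≤ 5 := by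
    have d1 : Disjoint (univ.filter fun l => a ∈ B l ∧ b ∈ B l) Xa := disjoint_left.2
      fun l h1 h2 => hnab l (mem_filter.1 h2).2.1 (mem_filter.1 h1).2.1 (mem_filter.1 h1).2.2
    unfold mlt
    rw [← card_union_of_disjoint d1, ← s.viol.reg a (mem_inter.1 hak).2]
    refine card_le_card ?_
    intro l hl
    rcases mem_union.1 hl with h1 | h1
    · exact mem_filter.2 ⟨mem_univ _, (mem_filter.1 h1).2.1⟩
    · exact mem_filter.2 ⟨mem_univ _, (mem_filter.1 h1).2.2⟩
  have m3 : mlt B a b + Xb.card ≤ 5 := by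
    have d1 : Disjoint (univ.filter fun l => a ∈ B l ∧ b ∈ B l) Xb := disjoint_left.2
      fun l h1 h2 => hnab l (mem_filter.1 h2).2.1 (mem_filter.1 h1).2.1 (mem_filter.1 h2).2.2
    unfold mlt
    rw [← card_union_of_disjoint d1, ← s.viol.reg b (mem_inter.1 hbk).2]
    refine card_le_card ?_
    intro l hl
    rcases mem_union.1 hl with h1 | h1
    · exact mem_filter.2 ⟨mem_univ _, (mem_filter.1 h1).2.2⟩
    · exact mem_filter.2 ⟨mem_univ _, (mem_filter.1 h1).2.2⟩
  have th := MTQ.point2 s.mtr.toMTQ px (by omega) m1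
  have l1 : Xb.card ≤ (univ.filter fun k => x ∈ B k ∧ a ∉ B k ∧ b ∈ B k ∧ c ∉ B k).card + 1 := by
    rw [← card_erase_add_one hiXb]
    refine Nat.add_le_add_right (card_le_card fun l hl => ?_) 1
    obtain ⟨h1, h2⟩ := mem_erase.1 hl
    obtain ⟨_, h3, h4⟩ := mem_filter.1 h2
    exact mem_filter.2 ⟨mem_univ _, h3, fun h6 => hnab l h3 h6 h4, h4,
      fun h6 => h1 (hXc l h3 h6)⟩
  have l3 : 1 ≤ (univ.filter fun k => x ∈ B k ∧ a ∉ B k ∧ b ∈ B k ∧ c ∈ B k).card :=
    card_pos.2 ⟨i, mem_filter.2 ⟨mem_univ _, hxi, hai, hbi, hci⟩⟩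
  have r2 : (univ.filter fun k => x ∉ B k ∧ a ∈ B k ∧ b ∉ B k ∧ c ∈ B k).card = 0 := by
    rw [card_eq_zero, filter_eq_empty_iff]
    rintro l _ ⟨_, h1, h2, h3⟩
    exact h2 ((hcf l h1 h3) ▸ (mem_inter.1 hbk).1)
  have r3 : (univ.filter fun k => x ∉ B k ∧ a ∈ B k ∧ b ∈ B k ∧ c ∈ B k).card ≤ 1 := by
    rw [card_le_one]
    intro l hl l' hl'
    obtain ⟨_, _, h1, _, h2⟩ := mem_filter.1 hl
    obtain ⟨_, _, h3, _, h4⟩ := mem_filter.1 hl'
    rw [hcf l h1 h2, hcf l' h3 h4]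
  set R := univ.filter fun k => x ∉ B k ∧ a ∈ B k ∧ b ∈ B k ∧ c ∉ B k with hR
  have hcB : c ∈ B k := (mem_inter.1 hck).1
  have hkR : k ∉ R := fun h1 => (mem_filter.1 h1).2.2.2.2 hcB
  have hkXa : k ∉ Xa := fun h1 => hxk (mem_filter.1 h1).2.1
  have hkXb : k ∉ Xb := fun h1 => hxk (mem_filter.1 h1).2.1
  have hdA : Disjoint R Xa := disjoint_left.2 fun l h1 h2 =>
    (mem_filter.1 h1).2.1 (mem_filter.1 h2).2.1
  have hdB : Disjoint R Xb := disjoint_left.2 fun l h1 h2 =>
    (mem_filter.1 h1).2.1 (mem_filter.1 h2).2.1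
  have sa : insert k (R ∪ Xa) ⊆ univ.filter fun l => a ∈ B l := by
    intro l hl
    rw [mem_insert, mem_union] at hl
    rcases hl with rfl | hl | hl
    · exact mem_filter.2 ⟨mem_univ _, (mem_inter.1 hak).1⟩
    · exact mem_filter.2 ⟨mem_univ _, (mem_filter.1 hl).2.2.1⟩
    · exact mem_filter.2 ⟨mem_univ _, (mem_filter.1 hl).2.2⟩
  have sb : insert k (R ∪ Xb) ⊆ univ.filter fun l => b ∈ B l := by
    intro l hl
    rw [mem_insert, mem_union] at hl
    rcases hl with rfl | hl | hl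
    · exact mem_filter.2 ⟨mem_univ _, (mem_inter.1 hbk).1⟩
    · exact mem_filter.2 ⟨mem_univ _, (mem_filter.1 hl).2.2.2.1⟩
    · exact mem_filter.2 ⟨mem_univ _, (mem_filter.1 hl).2.2⟩
  have ca := card_le_card sa
  have cb := card_le_card sb
  have hka : k ∉ R ∪ Xa := fun h1 => (mem_union.1 h1).elim hkR hkXa
  have hkb : k ∉ R ∪ Xb := fun h1 => (mem_union.1 h1).elim hkR hkXb
  have ea : (insert k (R ∪ Xa)).card = R.card + Xa.card + 1 := by
    rw [card_insert_of_notMem hka, card_union_of_disjoint hdA]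
  have eb : (insert k (R ∪ Xb)).card = R.card + Xb.card + 1 := by
    rw [card_insert_of_notMem hkb, card_union_of_disjoint hdB]
  have fa := s.viol.reg a (mem_inter.1 hak).2
  have fb := s.viol.reg b (mem_inter.1 hbk).2
  have tw : Xa.card ≤ 3 := s.viol.twin hxQ (mem_inter.1 hak).2 hxa
  rw [ea, fa] at ca
  rw [eb, fb] at cb
  have hA3 : Xa.card = 3 := by omega
  have hB2 : Xb.card = 2 := by omega
  have hR1 : R.card = 1 := by omega
  obtain ⟨k0, hk0⟩ := card_pos.1 (by omega : 0 < R.card)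
  obtain ⟨_, q1, q2, q3, q4⟩ := mem_filter.1 hk0
  refine ⟨k0, px, hA3, by rw [← hXb, hB2, hc1], ?_, q1, q2, q3, q4, ?_⟩
  · intro l h1 h2
    exact ⟨hnab l h1 h2, fun h3 => hai ((hXc l h1 h3) ▸ h2)⟩
  · intro l hl
    have h1 : insert k (R ∪ Xa) = univ.filter fun l => a ∈ B l :=
      eq_of_subset_of_card_le sa (by rw [ea, fa]; omega)
    have h2 : l ∈ insert k (R ∪ Xa) := by
      rw [h1]
      exact mem_filter.2 ⟨mem_univ _, hl⟩
    rw [mem_insert, mem_union] at h2
    rcases h2 with h2 | h2 | h2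
    · exact Or.inr (Or.inl h2)
    · exact Or.inr (Or.inr (card_le_one.1 hR1.le l h2 k0 hk0))
    · exact Or.inl (mem_filter.1 h2).2.1

/-- **a line triple with claims and six hits on its private point**. -/
theorem donor_six (s : StgR B Q T U F P al) {x : V} {k : ι} (xP : {{x}} ∈ P)
    (hk : k ∈ tl B Q T U F P) (h6 : 6 ≤ jh B Q k {x}) (hc : 0 < ncl B Q T U F P k) :
    ∑ L ∈ F.erase {x}, jh B Q k L + ncl B Q T U F P k ≤ 2 ∨
    (∑ L ∈ F.erase {x}, jh B Q k L + ncl B Q T U F P k = 3 ∧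
      ∃ i k0 a b c, Pxf B Q T U F k i k0 a b c x ∧
        (∃ L ∈ slf B F c, L ≠ {x}) ∧
        ∃ j' i' k0' a' b' c' x', Cla B Q T U F P j' i' k0' a' b' c' x' ∧ k ≠ j' ∧ c ∈ B k0') := by
  have hkT := (s.tl_sub hk).1
  have hx : {x} ∈ F := (s.part.ptn.vc _ xP).sub (mem_singleton_self _)
  have hxp : {{x}} ∈ par0 B U F := s.toStg.own_par xP
  have hadd : jh B Q k {x} + ∑ L ∈ F.erase {x}, jh B Q k L = ∑ L ∈ F, jh B Q k L :=
    add_sum_erase F (fun L => jh B Q k L) hx
  rcases s.line_donor hk hc with h1 | ⟨p, q, v, D, hB, hpn, hnocl, ⟨j', i', k0', a', b', c', x',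
    hcl, hkj', hvk⟩, h4⟩
  · left
    omega
  have hpk : p ∈ B k ∩ Q := by rw [hB.eq]; simp
  have hqk : q ∈ B k ∩ Q := by rw [hB.eq]; simp
  have hvk' : v ∈ B k ∩ Q := by rw [hB.eq]; simp
  have hjx : jh B Q k {x} = uh B p {x} + uh B q {x} + uh B v {x} := by
    rw [jh_sum, hB.eq, sum_insert (by simp [hB.ab, hB.ac]), sum_pair hB.bc, add_assoc]
  have haddv : uh B v {x} + ∑ L ∈ F.erase {x}, uh B v L = ∑ L ∈ F, uh B v L :=
    add_sum_erase F (fun L => uh B v L) hx
  -- the class of `p`, `q` is `{x}`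
  have hDx : D = {{x}} := by
    by_contra hne
    have hz : ∀ w ∈ B k ∩ Q, slf B F w ⊆ D → uh B w {x} = 0 := fun w hw hs =>
      uh_zero hx (s.frm.T_notin hkT hw hx) fun h2 =>
        disjoint_left.1 (s.par.dj hB.mem hxp hne) (hs h2) (mem_singleton_self _)
    rw [hz p hpk hB.sa, hz q hqk hB.sb] at hjx
    omega
  subst hDx
  have hz' : ∀ w ∈ B k ∩ Q, slf B F w ⊆ {{x}} → ∀ L ∈ F.erase {x}, uh B w L = 0 := by
    intro w hw hs L hL
    obtain ⟨hne, hLF⟩ := mem_erase.1 hL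
    exact uh_zero hLF (s.frm.T_notin hkT hw hLF) fun h2 => hne (mem_singleton.1 (hs h2))
  have hje : ∑ L ∈ F.erase {x}, jh B Q k L = ∑ L ∈ F.erase {x}, uh B v L := by
    refine sum_congr rfl fun L hL => ?_
    rw [jh_sum, hB.eq, sum_insert (by simp [hB.ab, hB.ac]), sum_pair hB.bc,
      hz' p hpk hB.sa L hL, hz' q hqk hB.sb L hL, zero_add, zero_add]
  -- no block with `x`, `p`, `q`
  have hxD : x ∈ Dp B Q T := s.frm.FD hx (mem_singleton_self x)
  have hxQ : x ∈ Q := Frm.DQ hxD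
  have hxx' : ({x} : Finset V) ≠ {x'} := by
    intro he
    refine hcl.1.not_sees_pt hk hkj' hqk ?_
    obtain ⟨M, hM⟩ := hB.nb
    have h2 := mem_singleton.1 (hB.sb hM)
    rw [← he, ← h2]
    exact hM
  have hnpq : ∀ l, x ∈ B l → p ∈ B l → q ∉ B l := by
    intro l h2 h3 h5
    refine hcl.1.fpb.no_abs hkT hkj' (s := v) (p := p) (q := q) ?_ hvk hx hxx' ?_
    · rw [hB.eq]
      ext w
      simp only [mem_insert, mem_singleton]
      tauto
    · have h7 : 1 ≤ rho B ({x} : Finset V) := rho_pos (s.frm.cov.mono (singleton_subset_iff.2 hxQ)) ⟨x, mem_singleton_self x⟩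
      refine le_trans (rho_le_one (i := l) ?_) h7
      intro w hw
      simp only [mem_union, mem_insert, mem_singleton] at hw
      rcases hw with rfl | rfl | rfl
      · exact h2
      · exact h3
      · exact h5
  -- `p` and `q` have at most five hits
  have hE : (univ.filter fun l => x ∈ B l).card = 5 := s.viol.reg x hxQ
  have h5 : uh B p {x} + uh B q {x} ≤ 5 := by
    rw [uh_pt, uh_pt, ← card_union_of_disjoint, ← hE]
    · refine card_le_card fun l hl => ?_
      rcases mem_union.1 hl with h2 | h2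
      · exact mem_filter.2 ⟨mem_univ _, (mem_filter.1 h2).2.1⟩
      · exact mem_filter.2 ⟨mem_univ _, (mem_filter.1 h2).2.1⟩
    · rw [disjoint_left]
      intro l h2 h3
      exact hnpq l (mem_filter.1 h2).2.1 (mem_filter.1 h2).2.2 (mem_filter.1 h3).2.2
  by_cases hle : ∑ L ∈ F.erase {x}, jh B Q k L + ncl B Q T U F P k ≤ 2
  · exact Or.inl hle
  right
  have hv1 : uh B v {x} = 1 := by omega
  have h55 : uh B p {x} + uh B q {x} = 5 := by omega
  have h3 : ∑ L ∈ F.erase {x}, jh B Q k L + ncl B Q T U F P k = 3 := by omega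
  refine ⟨h3, ?_⟩
  have hvs : ∃ L ∈ slf B F v, L ≠ {x} := by
    by_contra hcon
    push Not at hcon
    exact hB.nsc fun L hL => mem_singleton.2 (hcon L hL)
  -- the block of `v` with `x`
  obtain ⟨i, hi⟩ := card_pos.1 (by rw [uh_pt] at hv1; omega :
    0 < (univ.filter fun k => x ∈ B k ∧ v ∈ B k).card)
  obtain ⟨_, hxi, hvi⟩ := mem_filter.1 hi
  -- every block of `x` contains `p` or `q`
  have hall : ∀ l, x ∈ B l → p ∈ B l ∨ q ∈ B l := by
    intro l hl
    by_contra hcon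
    rw [not_or] at hcon
    have h7 : insert l ((univ.filter fun k => x ∈ B k ∧ p ∈ B k) ∪
        (univ.filter fun k => x ∈ B k ∧ q ∈ B k)) ⊆ univ.filter fun l => x ∈ B l := by
      intro m hm
      rw [mem_insert, mem_union] at hm
      rcases hm with rfl | hm | hm
      · exact mem_filter.2 ⟨mem_univ _, hl⟩
      · exact mem_filter.2 ⟨mem_univ _, (mem_filter.1 hm).2.1⟩
      · exact mem_filter.2 ⟨mem_univ _, (mem_filter.1 hm).2.1⟩
    have h8 := card_le_card h7
    rw [card_insert_of_notMem (by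
        rw [mem_union, not_or]
        exact ⟨fun h9 => hcon.1 (mem_filter.1 h9).2.2, fun h9 => hcon.2 (mem_filter.1 h9).2.2⟩),
      card_union_of_disjoint (by
        rw [disjoint_left]
        intro l h2 h3
        exact hnpq l (mem_filter.1 h2).2.1 (mem_filter.1 h2).2.2 (mem_filter.1 h3).2.2), hE] at h8
    rw [uh_pt, uh_pt] at h55
    omega
  -- `v` is full
  have hfull : ∀ w ∈ B k ∩ Q, w ≠ v → slf B F w ⊆ {{x}} → ∀ l, x ∉ B l → w ∈ B l → v ∈ B l →
      l = k := by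
    intro w hw hwv hws l hxl hwl hvl
    by_contra hlk
    have hhn := s.hit_ncp hkT hvk'
    have hnc : ncp B Q (Kf B Q T U F P) k v = ncl B Q T U F P k := by
      have e1 : ncl B Q T U F P k = ∑ v ∈ B k ∩ Q, ncp B Q (Kf B Q T U F P) k v := ncK_eq _ _ _
      rw [e1, hB.eq, sum_insert (by simp [hB.ab, hB.ac]), sum_pair hB.bc]
      have e2 : ncp B Q (Kf B Q T U F P) k p = 0 := by
        by_contra h0
        obtain ⟨k2, hk2, hc2, hp2⟩ := ncp_pos h0
        exact (hnocl k2 hk2 hc2).1 hp2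
      have e3 : ncp B Q (Kf B Q T U F P) k q = 0 := by
        by_contra h0
        obtain ⟨k2, hk2, hc2, hq2⟩ := ncp_pos h0
        exact (hnocl k2 hk2 hc2).2 hq2
      omega
    -- the blocks of `v`
    set A := univ.filter (fun i => v ∈ B i ∧ (B i ∩ F.biUnion id).Nonempty) with hA
    set C := (Kf B Q T U F P).filter (fun k0 => (B k0 ∩ (B k ∩ Q)).card = 1 ∧ v ∈ B k0) with hC
    have hAc : A.card = ∑ L ∈ F, uh B v L := by
      have e1 : ∑ L ∈ F, uh B v L = hit B {v} (F.biUnion id) := (hit_biUnion _ s.frm.sepF).symm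
      rw [e1, hit_eq, sum_singleton]
    have hd : Disjoint A C := by
      rw [disjoint_left]
      intro i hi hi'
      obtain ⟨hiK, _, _⟩ := mem_filter.1 hi'
      obtain ⟨_, _, hne⟩ := mem_filter.1 hi
      obtain ⟨j, i', a, b, c, x, h⟩ := Kf_cla.1 hiK
      exact h.1.k0_sep' s.mtr hne
    have hkn : k ∉ A ∪ C := by
      intro hk'
      rcases mem_union.1 hk' with h2 | h2
      · obtain ⟨_, _, w, hw⟩ := mem_filter.1 h2
        obtain ⟨hwk, hwF⟩ := mem_inter.1 hw
        obtain ⟨L, hL, hwL⟩ := mem_biUnion.1 hwF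
        exact Frm.T_notD (Q := Q) hkT hwk (s.frm.FD hL hwL)
      · obtain ⟨hiK, _, _⟩ := mem_filter.1 h2
        obtain ⟨j, i', a, b, c, x, h⟩ := Kf_cla.1 hiK
        exact h.1.fpb.k0_notT hkT
    have hlA : l ∉ A := by
      intro h2
      obtain ⟨_, _, y, hy⟩ := mem_filter.1 h2
      obtain ⟨hyl, hyF⟩ := mem_inter.1 hy
      obtain ⟨L, hL, hyL⟩ := mem_biUnion.1 hyF
      have hwL : w ∉ L := s.frm.T_notin hkT hw hL
      have h7 : L ∈ slf B F w := mem_slf.2 ⟨hL, y, hyL, fun he => hwL (he ▸ hyL), l, hwl, hyl⟩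
      have h8 := mem_singleton.1 (hws h7)
      have hyL' : y ∈ L := hyL
      rw [h8, mem_singleton] at hyL'
      exact hxl (hyL' ▸ hyl)
    have hlC : l ∉ C := by
      intro h2
      obtain ⟨_, h7, _⟩ := mem_filter.1 h2
      exact hwv (claim_two h7 hw hvk' hwl hvl)
    have hln : l ∉ insert k (A ∪ C) := by
      intro h2
      rcases mem_insert.1 h2 with h2 | h2
      · exact hlk h2
      · rcases mem_union.1 h2 with h2 | h2
        · exact hlA h2
        · exact hlC h2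
    have hsub : insert l (insert k (A ∪ C)) ⊆ univ.filter (fun i => v ∈ B i) := by
      intro i hi
      rw [mem_insert, mem_insert, mem_union] at hi
      rcases hi with rfl | rfl | hi | hi
      · exact mem_filter.2 ⟨mem_univ _, hvl⟩
      · exact mem_filter.2 ⟨mem_univ _, (mem_inter.1 hvk').1⟩
      · exact mem_filter.2 ⟨mem_univ _, (mem_filter.1 hi).2.1⟩
      · exact mem_filter.2 ⟨mem_univ _, (mem_filter.1 hi).2.2⟩
    have h9 := card_le_card hsub
    have hCc : C.card = ncp B Q (Kf B Q T U F P) k v := rfl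
    rw [card_insert_of_notMem hln, card_insert_of_notMem hkn, card_union_of_disjoint hd,
      s.viol.reg v (mem_inter.1 hvk').2] at h9
    omega
  have hcf : ∀ w u, B k ∩ Q = {w, u, v} → w ≠ v → slf B F w ⊆ {{x}} → w ∉ B i → ∀ l, w ∈ B l →
      v ∈ B l → l = k := by
    intro w u hTw hwv hws hwi l hwl hvl
    refine hfull w (by rw [hTw]; simp) hwv hws l (fun hxl => ?_) hwl hvl
    have h7 : l = i := by
      rw [uh_pt] at hv1
      exact card_le_one.1 hv1.le l (mem_filter.2 ⟨mem_univ _, hxl, hvl⟩) i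
        (mem_filter.2 ⟨mem_univ _, hxi, hvi⟩)
    exact hwi (h7 ▸ hwl)
  rcases hall i hxi with hpi | hqi
  · -- `b = p`, `a = q`
    have hqi : q ∉ B i := hnpq i hxi hpi
    have hT' : B k ∩ Q = {q, p, v} := by rw [hB.eq]; exact insert_comm _ _ _
    obtain ⟨k0, h⟩ := s.six_don hkT hT' hB.ac hx hxp
      (fun l h2 h7 h8 => hnpq l h2 h8 h7) hxi hpi hvi hv1 (by omega)
      (hcf q p hT' hB.bc hB.sb hqi)
    exact ⟨i, k0, q, p, v, h, hvs, j', i', k0', a', b', c', x', hcl, hkj', hvk⟩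
  · have hpi : p ∉ B i := fun h7 => hnpq i hxi h7 hqi
    obtain ⟨k0, h⟩ := s.six_don hkT hB.eq hB.bc hx hxp hnpq hxi hqi hvi hv1 h55
      (hcf p q hB.eq hB.ac hB.sa hpi)
    exact ⟨i, k0, p, q, v, h, hvs, j', i', k0', a', b', c', x', hcl, hkj', hvk⟩

end StgR

end Pool.Agent.Hyp6
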