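import Pool.Agent.Hyp6.L3Fp

/-!
# HYP6 L3Fpt: the free point rule

`L` is a leaf which absorbs the points `X` of some triples of the frame, `Y` are points of these
triples which can be covered together with a part of the even part by less blocks than there are
triples: then the other points of the triples have no free transversal outside `L`
(`Frm.no_match_leaf`, `Frm.rado_leaf`). For one triple `{t, t1, t2}` whose points `t1, t2` are absorbed
by `L`, and a point `s` of another triple in a common block with `t`: the other two points `p, q` of the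
second triple cannot be absorbed outside `L` (`Frm.free_point`).
-/

set_option autoImplicit false

namespace Pool.Agent.Hyp6

open Finset Pool.Agent.Hyp5

universe u v

variable {V : Type v} [DecidableEq V] {ι : Type u} [Fintype ι] {B : ι → Finset V}

namespace Frm

variable {Q U : Finset V} {T : Finset ι} {F : Finset (Finset V)} {P : Finset (Finset (Finset V))}
  {τ : Type*} [DecidableEq τ] {Ts : Finset τ} {NT : τ → Finset (Finset V)}

/-- the cover number of a leaf and a part of the even part. -/
theorem rho_leaf_dcl (h : Frm B Q T U F) {D : Finset V} (hD : Dcl B Q T U F D) {L : Finset V}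
    (hL : L ∈ F) : rho B (L ∪ D) = rho B L + rho B D := by
  refine rho_add (h.covF L hL) (h.covE.mono hD.sub) ?_
  intro i h1 h2
  refine h.sepE i ?_ ?_
  · obtain ⟨v, hv⟩ := h1
    rw [mem_inter] at hv
    exact ⟨v, mem_inter.2 ⟨hv.1, mem_biUnion.2 ⟨L, hL, hv.2⟩⟩⟩
  · obtain ⟨v, hv⟩ := h2
    rw [mem_inter] at hv
    exact ⟨v, mem_inter.2 ⟨hv.1, hD.sub hv.2⟩⟩

/-- points absorbed by a leaf `L`, points covered with a part of the even part: the other points have
no free transversal outside `L`. -/
theorem no_match_leaf (h : Frm B Q T U F) {D : Finset V} (hD : Dcl B Q T U F D) {L : Finset V}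
    (hL : L ∈ F) {I : Finset ι} (hI : I ⊆ T) {X Y : Finset V} (hX : X ⊆ Q) (hY : Y ⊆ Q)
    (hLX : rho B (L ∪ X) ≤ rho B L) (hE : rho B (D ∪ Y) + 1 ≤ rho B D + I.card) {x : V → Finset V}
    (hx : ∀ p ∈ (I.biUnion B ∩ Q) \ (X ∪ Y), x p ∈ slf B F p ∧ x p ≠ L)
    (hinj : ∀ p ∈ (I.biUnion B ∩ Q) \ (X ∪ Y), ∀ q ∈ (I.biUnion B ∩ Q) \ (X ∪ Y),
      x p = x q → p = q) :
    0 < Sp.dfc U (slf B F) (insert L (((I.biUnion B ∩ Q) \ (X ∪ Y)).image x)) := by
  classical
  by_contra hcon
  push Not at hcon
  have h1 := h.cost (A := {L}) (singleton_subset_iff.2 hL) hD (T' := ∅) (empty_subset _) (U' := ∅)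
    (empty_subset _) (g' := x) ⟨by simp, by simp, by simp⟩ hI (disjoint_empty_right _)
    (P := X ∪ Y) (R := (I.biUnion B ∩ Q) \ (X ∪ Y)) (union_subset hX hY)
    (fun j hj v hv => by
      by_cases hvX : v ∈ X ∪ Y
      · exact Or.inl hvX
      · exact Or.inr (mem_sdiff.2 ⟨mem_inter.2
          ⟨mem_biUnion.2 ⟨j, hj, (mem_inter.1 hv).1⟩, (mem_inter.1 hv).2⟩, hvX⟩))
    sdiff_subset (x := x) (fun p hp => ⟨(hx p hp).1, by
      rw [mem_singleton]
      exact (hx p hp).2⟩) hinj (by
      rw [sdiff_empty, singleton_union]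
      exact hcon)
  have h2 : Zn B Q (∅ : Finset ι) ∅ {L} D = L ∪ D := by
    unfold Zn
    simp
  rw [h2, h.rho_leaf_dcl hD hL] at h1
  have hcX : Cov B (L ∪ X) := (h.covF L hL).union (h.cov.mono hX)
  have hcY : Cov B (D ∪ Y) := (h.covE.mono hD.sub).union (h.cov.mono hY)
  have h3 : rho B (L ∪ D ∪ (X ∪ Y)) ≤ rho B ((L ∪ X) ∪ (D ∪ Y)) := by
    refine rho_mono ?_ (hcX.union hcY)
    intro v hv
    simp only [mem_union] at hv ⊢
    tauto
  have h4 := rho_union_le hcX hcY
  omega

omit [DecidableEq τ] in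
/-- **Rado form**: the leaf `L` counts as one more point which sees only `L`. -/
theorem rado_leaf (h : Frm B Q T U F) (hg : Sp.Gd F F U (slf B F) Ts NT)
    (hP : Sp.MinP F F U (slf B F) Ts NT P) {D : Finset V} (hD : Dcl B Q T U F D) {L : Finset V}
    (hL : L ∈ F) {I : Finset ι} (hI : I ⊆ T) {X Y : Finset V} (hX : X ⊆ Q) (hY : Y ⊆ Q)
    (hLX : rho B (L ∪ X) ≤ rho B L) (hE : rho B (D ∪ Y) + 1 ≤ rho B D + I.card) :
    ∃ K ⊆ insert none (((I.biUnion B ∩ Q) \ (X ∪ Y)).image some), K.Nonempty ∧
      Sp.rkn (Sp.nP U (slf B F) P)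
        (K.biUnion (fun p => Sp.met P (p.elim {L} (slf B F)))) + 1 ≤ (K.card : ℤ) := by
  classical
  set R := (I.biUnion B ∩ Q) \ (X ∪ Y) with hR
  refine hP.rado hg (insert_nonempty _ _) (A := fun p : Option V => p.elim {L} (slf B F)) ?_
  intro x hx hinj
  have hn : x none = L := by
    have := hx none (mem_insert_self _ _)
    simpa using this
  have hmem : ∀ p ∈ R, some p ∈ insert none (R.image some) := fun p hp =>
    mem_insert_of_mem (mem_image_of_mem some hp)
  have h1 := h.no_match_leaf hD hL hI hX hY hLX hE (x := fun p => x (some p)) (by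
    intro p hp
    refine ⟨by simpa using hx (some p) (hmem p hp), ?_⟩
    rw [← hn]
    intro he
    exact Option.some_ne_none p (hinj _ (hmem p hp) _ (mem_insert_self _ _) he)) (by
    intro p hp q hq he
    exact Option.some_injective _ (hinj _ (hmem p hp) _ (hmem q hq) he))
  have h2 : (insert none (R.image some)).image x = insert L (R.image (fun p => x (some p))) := by
    rw [image_insert, hn, image_image]
    rfl
  rw [h2]
  exact h1

end Frm

section rank

variable {L : Type*} [DecidableEq L] {α : Type*} [DecidableEq α] {τ : Type*} [DecidableEq τ]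
  {F : Finset L} {U : Finset α} {N : α → Finset L} {Ts : Finset τ} {NT : τ → Finset L}
  {P : Finset (Finset L)}

omit [DecidableEq α] [DecidableEq τ] in
/-- classes met by a nonempty set of leaves. -/
theorem Sp.Ptn.met_ne (h : Sp.Ptn F F U N Ts NT P) {X : Finset L} (hX : X ⊆ F)
    (hne : X.Nonempty) : (Sp.met P X).Nonempty := by
  obtain ⟨x, hx⟩ := hne
  have h4 := hX hx
  rw [← h.un] at h4
  obtain ⟨C, hC, hxC⟩ := mem_biUnion.1 h4
  exact ⟨C, Sp.mem_met.2 ⟨hC, not_disjoint_iff.2 ⟨x, hx, hxC⟩⟩⟩

/-- a nonempty set of classes has rank at least one. -/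
theorem Sp.MinP.rk_pos (hg : Sp.Gd F F U N Ts NT) (h : Sp.MinP F F U N Ts NT P)
    {A : Finset (Finset L)} (hne : A.Nonempty) : 1 ≤ Sp.rkn (Sp.nP U N P) A := by
  obtain ⟨C, hC⟩ := hne
  have h1 := h.one hg C
  have h2 := (h.nul hg).rk_mono (singleton_subset_iff.2 hC)
  unfold Sp.rkn at h2 ⊢
  rw [card_singleton] at h2
  push_cast at h2
  linarith

/-- two classes have rank at least two. -/
theorem Sp.MinP.rk_two (hg : Sp.Gd F F U N Ts NT) (h : Sp.MinP F F U N Ts NT P)
    {A : Finset (Finset L)} (hA : A ⊆ P) (h2 : 2 ≤ A.card) : 2 ≤ Sp.rkn (Sp.nP U N P) A := by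
  obtain ⟨C, hC, D, hD, hne⟩ := one_lt_card.1 (by omega : 1 < A.card)
  have h1 := h.pair hg (hA hC) (hA hD) hne
  have h3 := (h.nul hg).rk_mono (show ({C, D} : Finset (Finset L)) ⊆ A from by
    intro z hz
    rw [mem_insert, mem_singleton] at hz
    rcases hz with rfl | rfl <;> assumption)
  unfold Sp.rkn at h3 ⊢
  rw [card_pair hne] at h3
  push_cast at h3
  linarith

end rank

namespace Frm

variable {Q U : Finset V} {T : Finset ι} {F : Finset (Finset V)} {P : Finset (Finset (Finset V))}
  {τ : Type*} [DecidableEq τ] {Ts : Finset τ} {NT : τ → Finset (Finset V)}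

omit [Fintype ι] [DecidableEq τ] in
/-- the classes seen together by a leaf `L` and two points are few: explicit form. -/
theorem rado_cases (hg : Sp.Gd F F U (slf B F) Ts NT) (hP : Sp.MinP F F U (slf B F) Ts NT P)
    {L : Finset V} {C : Finset (Finset V)} (hC : C ∈ P) (hLC : L ∈ C) {p q : V} (hpq : p ≠ q)
    (hK : ∃ K ⊆ ({none, some p, some q} : Finset (Option V)), K.Nonempty ∧
      Sp.rkn (Sp.nP U (slf B F) P)
        (K.biUnion (fun p => Sp.met P (p.elim {L} (slf B F)))) + 1 ≤ (K.card : ℤ)) :
    slf B F p ⊆ C ∨ slf B F q ⊆ C ∨ (∃ C' ∈ P, slf B F p ⊆ C' ∧ slf B F q ⊆ C') ∨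
      Sp.rkn (Sp.nP U (slf B F) P) (insert C (mcl B F P p ∪ mcl B F P q)) ≤ 2 := by
  classical
  obtain ⟨K, hK, hne, hr⟩ := hK
  have hLm : Sp.met P {L} = {C} := by
    ext D
    rw [Sp.mem_met, mem_singleton, disjoint_singleton_left, not_not]
    constructor
    · rintro ⟨h1, h2⟩
      by_contra hne
      exact disjoint_left.1 (hP.ptn.dj D h1 C hC hne) h2 hLC
    · rintro rfl
      exact ⟨hC, hLC⟩
  have hem : ∀ v, mcl B F P v = ∅ → slf B F v ⊆ C := by
    intro v hv
    have h1 : slf B F v = ∅ := by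
      by_contra hcon
      have := hP.ptn.met_ne slf_sub (nonempty_iff_ne_empty.2 hcon)
      unfold mcl at hv
      rw [hv] at this
      exact not_nonempty_empty this
    rw [h1]
    exact empty_subset _
  have hsg : ∀ v, mcl B F P v ⊆ {C} → slf B F v ⊆ C := fun v hv =>
    hP.ptn.met_single slf_sub hv hC
  have hsub : ∀ v, mcl B F P v ⊆ P := fun v => mcl_sub
  have hrk : ∀ A : Finset (Finset (Finset V)), Sp.rkn (Sp.nP U (slf B F) P) A ≤ 0 → A = ∅ := by
    intro A hA
    by_contra hcon
    have := hP.rk_pos hg (nonempty_iff_ne_empty.2 hcon)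
    omega
  have hrk2 : ∀ A : Finset (Finset (Finset V)), A ⊆ P →
      Sp.rkn (Sp.nP U (slf B F) P) A ≤ 1 → A.card ≤ 1 := by
    intro A hAP hA
    by_contra hcon
    have := hP.rk_two hg hAP (by omega)
    omega
  have key : K = ({none, some p, some q} : Finset (Option V)).filter (fun v => v ∈ K) := by
    ext v
    rw [mem_filter]
    exact ⟨fun hv => ⟨hK hv, hv⟩, fun hv => hv.2⟩
  have hspq : (some p : Option V) ≠ some q := fun h => hpq (Option.some_injective _ h)
  have hc2p : ({none, some p} : Finset (Option V)).card = 2 := card_pair (by simp)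
  have hc2q : ({none, some q} : Finset (Option V)).card = 2 := card_pair (by simp)
  have hc2 : ({some p, some q} : Finset (Option V)).card = 2 := card_pair hspq
  have hc3 : ({none, some p, some q} : Finset (Option V)).card = 3 := by
    rw [card_insert_of_notMem (by simp), hc2]
  have e0 : Sp.met P ((none : Option V).elim {L} (slf B F)) = {C} := hLm
  have ep : ∀ v : V, Sp.met P ((some v : Option V).elim {L} (slf B F)) = mcl B F P v := fun _ => rfl
  by_cases h0 : (none : Option V) ∈ K <;> by_cases h1 : (some p : Option V) ∈ K <;>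
    by_cases h2 : (some q : Option V) ∈ K <;>
    simp only [filter_insert, filter_singleton, h0, h1, h2, if_true, if_false,
      insert_empty_eq] at key <;>
    rw [key] at hr hne <;>
    simp only [biUnion_insert, singleton_biUnion, biUnion_empty, card_empty, card_singleton,
      hc2p, hc2q, hc2, hc3, e0, ep] at hr <;>
    push_cast at hr
  · right; right; right
    have h5 : insert C (mcl B F P p ∪ mcl B F P q) = {C} ∪ (mcl B F P p ∪ mcl B F P q) := by
      rw [singleton_union]
    rw [h5]
    linarith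
  · left
    have h5 := hrk2 ({C} ∪ mcl B F P p) (union_subset (singleton_subset_iff.2 hC) (hsub p))
      (by linarith)
    refine hsg p fun D hD => ?_
    rw [mem_singleton]
    exact card_le_one.1 h5 D (mem_union_right _ hD) C (mem_union_left _ (mem_singleton_self C))
  · right; left
    have h5 := hrk2 ({C} ∪ mcl B F P q) (union_subset (singleton_subset_iff.2 hC) (hsub q))
      (by linarith)
    refine hsg q fun D hD => ?_
    rw [mem_singleton]
    exact card_le_one.1 h5 D (mem_union_right _ hD) C (mem_union_left _ (mem_singleton_self C))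
  · exfalso
    have h5 := hrk {C} (by linarith)
    exact singleton_ne_empty C h5
  · rcases (mcl B F P p ∪ mcl B F P q).eq_empty_or_nonempty with h6 | ⟨C', hC'⟩
    · left
      exact hem p (subset_empty.1 (h6 ▸ subset_union_left))
    · right; right; left
      have hPC' : C' ∈ P := union_subset (hsub p) (hsub q) hC'
      have h5 := hrk2 (mcl B F P p ∪ mcl B F P q) (union_subset (hsub p) (hsub q)) (by linarith)
      refine ⟨C', hPC', ?_, ?_⟩
      · refine hP.ptn.met_single slf_sub (fun D hD => ?_) hPC'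
        rw [mem_singleton]
        exact card_le_one.1 h5 D (mem_union_left _ hD) C' hC'
      · refine hP.ptn.met_single slf_sub (fun D hD => ?_) hPC'
        rw [mem_singleton]
        exact card_le_one.1 h5 D (mem_union_right _ hD) C' hC'
  · left
    exact hem p (hrk _ (by linarith))
  · right; left
    exact hem q (hrk _ (by linarith))
  · exact absurd hne not_nonempty_empty

/-- **the free point rule**: the leaf `L` absorbs the points `t1, t2` of the triple `{t, t1, t2}`, the
point `t` is in a common block with the point `s` of another triple `{s, p, q}` (or joined with it through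
a part of the even part). Then `p` or `q` sees at most the class of `L`, or both see at most one class, or
they see with `L` together rank at most two. -/
theorem free_point (h : Frm B Q T U F) (hg : Sp.Gd F F U (slf B F) Ts NT)
    (hP : Sp.MinP F F U (slf B F) Ts NT P) {D : Finset V} (hD : Dcl B Q T U F D) {L : Finset V}
    (hL : L ∈ F) {C : Finset (Finset V)} (hC : C ∈ P) (hLC : L ∈ C) {j k : ι} (hj : j ∈ T)
    (hk : k ∈ T) (hjk : j ≠ k) {t t1 t2 s p q : V} (hTj : B j ∩ Q = {t, t1, t2})
    (hTk : B k ∩ Q = {s, p, q}) (hsp : s ≠ p) (hsq : s ≠ q) (hpq : p ≠ q)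
    (habs : rho B (L ∪ {t1, t2}) ≤ rho B L) (hE : rho B (D ∪ {t, s}) ≤ rho B D + 1) :
    slf B F p ⊆ C ∨ slf B F q ⊆ C ∨ (∃ C' ∈ P, slf B F p ⊆ C' ∧ slf B F q ⊆ C') ∨
      Sp.rkn (Sp.nP U (slf B F) P) (insert C (mcl B F P p ∪ mcl B F P q)) ≤ 2 := by
  classical
  have hdis := h.mtp.tpk.pack.disj j hj k hk hjk
  have hne : ∀ x ∈ B j ∩ Q, ∀ y ∈ B k ∩ Q, x ≠ y := by
    rintro x hx y hy rfl
    exact disjoint_left.1 hdis hx hy
  have mt : t ∈ B j ∩ Q := by rw [hTj]; simp
  have m1 : t1 ∈ B j ∩ Q := by rw [hTj]; simp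
  have m2 : t2 ∈ B j ∩ Q := by rw [hTj]; simp
  have ms : s ∈ B k ∩ Q := by rw [hTk]; simp
  have mp : p ∈ B k ∩ Q := by rw [hTk]; simp
  have mq : q ∈ B k ∩ Q := by rw [hTk]; simp
  have hset : ((({j, k} : Finset ι).biUnion B ∩ Q) \ ({t1, t2} ∪ {t, s})) = {p, q} := by
    have h1 : (({j, k} : Finset ι).biUnion B ∩ Q) = (B j ∩ Q) ∪ (B k ∩ Q) := by
      rw [biUnion_insert, singleton_biUnion, union_inter_distrib_right]
    rw [h1, hTj, hTk]
    ext v
    simp only [mem_sdiff, mem_union, mem_insert, mem_singleton, not_or]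
    constructor
    · rintro ⟨h2, ⟨h3, h4⟩, h5, h6⟩
      tauto
    · rintro (rfl | rfl)
      · exact ⟨by tauto, ⟨(hne _ m1 _ mp).symm, (hne _ m2 _ mp).symm⟩,
          (hne _ mt _ mp).symm, hsp.symm⟩
      · exact ⟨by tauto, ⟨(hne _ m1 _ mq).symm, (hne _ m2 _ mq).symm⟩,
          (hne _ mt _ mq).symm, hsq.symm⟩
  have hcard : ({j, k} : Finset ι).card = 2 := card_pair hjk
  have hX : ({t1, t2} : Finset V) ⊆ Q := by
    intro v hv
    rw [mem_insert, mem_singleton] at hv
    rcases hv with rfl | rfl
    · exact (mem_inter.1 m1).2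
    · exact (mem_inter.1 m2).2
  have hY : ({t, s} : Finset V) ⊆ Q := by
    intro v hv
    rw [mem_insert, mem_singleton] at hv
    rcases hv with rfl | rfl
    · exact (mem_inter.1 mt).2
    · exact (mem_inter.1 ms).2
  have h5 := h.rado_leaf hg hP hD hL (I := {j, k}) (by
    intro i hi
    rw [mem_insert, mem_singleton] at hi
    rcases hi with rfl | rfl <;> assumption) hX hY habs (by rw [hcard]; omega)
  rw [hset, image_insert, image_singleton] at h5
  exact rado_cases hg hP hC hLC hpq h5

end Frm

end Pool.Agent.Hyp6
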