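import Pool.Agent.Hyp6.L3Fo
import Pool.Agent.Hyp6.L3Gm
import Pool.Agent.Hyp6.L3Fpf
import Pool.Agent.Hyp6.L3Vc

/-!
# HYP6 L3Fq: the last step, by types of classes

`StgR.finQ`: a setting is impossible, from the inequalities of the classes, split by the number of line
triples (none, at least two), by inside triples (`Kin`), by the number of leaves and by centres
(`NCt`, `Bs`), of the lines with two private ends (`L2`) and of the lines with own points (`LF`).
-/

set_option autoImplicit false

namespace Pool.Agent.Hyp6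

open Finset Pool.Agent.Hyp5 Rt

universe u v

variable {V : Type v} [DecidableEq V] {ι : Type u} [Fintype ι] [DecidableEq ι]
  {B : ι → Finset V}

/-- what a class needs, with the transfers of the claims. -/
noncomputable abbrev ndF (B : ι → Finset V) (Q : Finset V) (T : Finset ι) (U : Finset V)
    (F : Finset (Finset V)) (P : Finset (Finset (Finset V))) (a : V → Finset (Finset V) → ℕ)
    (C : Finset (Finset V)) : ℤ :=
  ndC 149 B Q T U F P a (tF B Q T U F P) C

/-- the triples inside a class. -/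
noncomputable abbrev KC (B : ι → Finset V) (Q : Finset V) (T : Finset ι) (U : Finset V)
    (F : Finset (Finset V)) (C : Finset (Finset V)) : Finset ι :=
  Sp.Kin (Rg B Q T U F) (slj B Q F) C

namespace Stg

variable {Q U : Finset V} {T : Finset ι} {F : Finset (Finset V)}
  {P : Finset (Finset (Finset V))} {a : V → Finset (Finset V) → ℕ}

/-- without centred triples a single leaf has no centre. -/
theorem nct_of_Bs (s : Stg B Q T U F P a) {W : Finset V} (h : Bs B Q T U F P W = ∅) :
    NCt B Q T U F P {W} := by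
  intro j hj h0 h5 x y z D hB hD
  have h3 : D = {W} := by
    refine Subset.antisymm hD ?_
    obtain ⟨L, hL⟩ := s.par.ne hB.mem
    rw [singleton_subset_iff, ← mem_singleton.1 (hD hL)]
    exact hL
  subst h3
  have h4 : j ∈ Bs B Q T U F P W := mem_Bs.2 ⟨hj, h0, h5, x, y, z, hB⟩
  rw [h] at h4
  exact notMem_empty j h4

/-- a centred triple gives a centre. -/
theorem Bs_of_nct (_s : Stg B Q T U F P a) {W : Finset V} (h : NCt B Q T U F P {W}) :
    Bs B Q T U F P W = ∅ := by
  rw [← not_nonempty_iff_eq_empty]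
  rintro ⟨j, hj⟩
  obtain ⟨hjT, h0, h5, x, y, z, hB⟩ := mem_Bs.1 hj
  exact h j hjT h0 h5 x y z _ hB Subset.rfl

/-- without inside triples the transfers do not matter. -/
theorem ndC_eq (_s : Stg B Q T U F P a) {v : ℤ} {t : ι → ℤ} {C : Finset (Finset V)}
    (hK : KC B Q T U F C = ∅) : ndC v B Q T U F P a t C = msC v B Q T U F P a C := by
  unfold KC at hK
  unfold ndC tK
  rw [hK, sum_empty, sub_zero]

end Stg

namespace StgR

variable {Q U : Finset V} {T : Finset ι} {F : Finset (Finset V)}
  {P : Finset (Finset (Finset V))} {a : V → Finset (Finset V) → ℕ}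

/-- **the last step**. `S`: a single leaf without centre; `B`: a single leaf with a centre; `C`: two or
more leaves without centre; `E`: two or more leaves with a centre; `D`: inside triples. `0`: no line
triple, `N`: at least two line triples (`SN` all of them on lines with two classes, `SM` not all). -/
theorem finQ (s : StgR B Q T U F P a) (fat : ι → Finset (Finset V) → ℤ)
    (S0 : ∀ L, {L} ∈ P → (aC B Q T U F P {L}).card = 0 → KC B Q T U F {L} = ∅ →
      NCt B Q T U F P {L} → msC 149 B Q T U F P a {L} ≤ 0)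
    (B0 : ∀ L, {L} ∈ P → (aC B Q T U F P {L}).card = 0 → KC B Q T U F {L} = ∅ →
      (Bs B Q T U F P L).Nonempty → msC 149 B Q T U F P a {L} ≤ 0)
    (C0 : ∀ C ∈ P, 2 ≤ C.card → (aC B Q T U F P C).card = 0 → KC B Q T U F C = ∅ →
      NCt B Q T U F P C → msC 149 B Q T U F P a C ≤ 0)
    (E0 : ∀ C ∈ P, 2 ≤ C.card → (aC B Q T U F P C).card = 0 → KC B Q T U F C = ∅ →
      ¬ NCt B Q T U F P C → msC 149 B Q T U F P a C ≤ 0)
    (D0 : ∀ C ∈ P, (aC B Q T U F P C).card = 0 → (KC B Q T U F C).Nonempty →
      ndF B Q T U F P a C ≤ 0)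
    (SN : ∀ L, {L} ∈ P → 2 ≤ (aC B Q T U F P {L}).card → KC B Q T U F {L} = ∅ →
      NCt B Q T U F P {L} → (∀ j ∈ aC B Q T U F P {L}, (lj B Q U F P j).card = 2) →
      msC 149 B Q T U F P a {L} ≤
        ∑ j ∈ aC B Q T U F P {L}, clmF 149 B Q T U F P a fat j {L})
    (SM : ∀ L, {L} ∈ P → 2 ≤ (aC B Q T U F P {L}).card → KC B Q T U F {L} = ∅ →
      NCt B Q T U F P {L} → (∃ j ∈ aC B Q T U F P {L}, 3 ≤ (lj B Q U F P j).card) →
      msC 149 B Q T U F P a {L} ≤
        ∑ j ∈ aC B Q T U F P {L}, clmF 149 B Q T U F P a fat j {L})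
    (BN : ∀ L, {L} ∈ P → 2 ≤ (aC B Q T U F P {L}).card → KC B Q T U F {L} = ∅ →
      (Bs B Q T U F P L).Nonempty →
      msC 149 B Q T U F P a {L} ≤
        ∑ j ∈ aC B Q T U F P {L}, clmF 149 B Q T U F P a fat j {L})
    (CN : ∀ C ∈ P, 2 ≤ C.card → 2 ≤ (aC B Q T U F P C).card → KC B Q T U F C = ∅ →
      NCt B Q T U F P C →
      msC 149 B Q T U F P a C ≤ ∑ j ∈ aC B Q T U F P C, clmF 149 B Q T U F P a fat j C)
    (EN : ∀ C ∈ P, 2 ≤ C.card → 2 ≤ (aC B Q T U F P C).card → KC B Q T U F C = ∅ →
      ¬ NCt B Q T U F P C →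
      msC 149 B Q T U F P a C ≤ ∑ j ∈ aC B Q T U F P C, clmF 149 B Q T U F P a fat j C)
    (DN : ∀ C ∈ P, 2 ≤ (aC B Q T U F P C).card → (KC B Q T U F C).Nonempty →
      ndF B Q T U F P a C ≤ ∑ j ∈ aC B Q T U F P C, clmF 149 B Q T U F P a fat j C)
    (L2 : ∀ j ∈ tl B Q T U F P, ∀ C D, C ≠ D → lj B Q U F P j = {C, D} →
      (aC B Q T U F P C).card = 1 → (aC B Q T U F P D).card = 1 →
      ndF B Q T U F P a C + ndF B Q T U F P a D ≤
        8 * sT B Q T U F 15 j + tF B Q T U F P j - 1120)
    (LF : ∀ j ∈ tl B Q T U F P, 1 ≤ (oj B Q U F P j).card →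
      ∑ C ∈ (lj B Q U F P j).filter (fun C => (aC B Q T U F P C).card = 1),
        ndF B Q T U F P a C +
      ∑ C ∈ (lj B Q U F P j).filter (fun C => 2 ≤ (aC B Q T U F P C).card), fat j C ≤
        8 * sT B Q T U F 15 j + tF B Q T U F P j - 1120 +
          168 * ∑ u ∈ oj B Q U F P j, (uo B Q T U F u : ℤ)) :
    False := by
  refine s.finF (v := 149) le_rfl fat (s.HXF le_rfl) (fun C hC h0 => ?_) (fun C hC h2 => ?_) L2 LF
  · rcases (KC B Q T U F C).eq_empty_or_nonempty with hK | hK
    · rw [s.toStg.ndC_eq hK]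
      have hne := (s.part.ptn.vc C hC).ne
      rcases (by have := hne.card_pos; omega : C.card = 1 ∨ 2 ≤ C.card) with h1 | h1
      · obtain ⟨L, rfl⟩ := card_eq_one.1 h1
        rcases (Bs B Q T U F P L).eq_empty_or_nonempty with hb | hb
        · exact S0 L hC h0 hK (s.toStg.nct_of_Bs hb)
        · exact B0 L hC h0 hK hb
      · by_cases hn : NCt B Q T U F P C
        · exact C0 C hC h1 h0 hK hn
        · exact E0 C hC h1 h0 hK hn
    · exact D0 C hC h0 hK
  · rcases (KC B Q T U F C).eq_empty_or_nonempty with hK | hK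
    · rw [s.toStg.ndC_eq hK]
      have hne := (s.part.ptn.vc C hC).ne
      rcases (by have := hne.card_pos; omega : C.card = 1 ∨ 2 ≤ C.card) with h1 | h1
      · obtain ⟨L, rfl⟩ := card_eq_one.1 h1
        rcases (Bs B Q T U F P L).eq_empty_or_nonempty with hb | hb
        · have hn := s.toStg.nct_of_Bs hb
          by_cases ht : ∀ j ∈ aC B Q T U F P {L}, (lj B Q U F P j).card = 2
          · exact SN L hC h2 hK hn ht
          · push Not at ht
            obtain ⟨j, hj, hj2⟩ := ht
            refine SM L hC h2 hK hn ⟨j, hj, ?_⟩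
            rcases s.toStg.two_or (mem_filter.1 hj).1 with h3 | h3
            · exact absurd h3.1 hj2
            · exact h3.1
        · exact BN L hC h2 hK hb
      · by_cases hn : NCt B Q T U F P C
        · exact CN C hC h1 h2 hK hn
        · exact EN C hC h1 h2 hK hn
    · exact DN C hC h2 hK

end StgR

/-- a set with value at least one is no counterexample, if no setting exists. -/
theorem ViolR.false_of {Q : Finset V}
    (H : ∀ (T : Finset ι) (U : Finset V) (F : Finset (Finset V))
      (P : Finset (Finset (Finset V))) (a : V → Finset (Finset V) → ℕ),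
      StgR B Q T U F P a → False) : ¬ ViolR B Q := by
  intro hv
  obtain ⟨T, U, F, P, a, s⟩ := hv.exists_stgR
  exact H T U F P a s

end Pool.Agent.Hyp6
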