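import Pool.Agent.Hyp6.L3N1
import Pool.Agent.Hyp6.L3Bs
import Pool.Agent.Hyp6.L3Sr

/-!
# HYP6 L3N1s: full hits of a triple of type B on a leaf with three points, on the setting
-/

set_option autoImplicit false

namespace Pool.Agent.Hyp6

open Finset Pool.Agent.Hyp5 Rt

universe u v

variable {V : Type v} [DecidableEq V] {ι : Type u} [Fintype ι] [DecidableEq ι] {B : ι → Finset V}
  {Q U : Finset V} {T : Finset ι} {F : Finset (Finset V)}
  {P : Finset (Finset (Finset V))} {a : V → Finset (Finset V) → ℕ}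

/-- a triple of type B with a dead point has only single hits on the small leaves which are their own
class and not the centre. -/
theorem Stg.bt_dead_single (s : Stg B Q T U F P a) {M : Finset V} (hM : {M} ∈ par0 B U F)
    (hM3 : M.card ≤ 3) {j : ι} (hj : j ∈ T) {x y z : V} {D : Finset (Finset V)}
    (hB : BT B Q F (par0 B U F) j x y z D) (hD : D ≠ {M}) (hx : slf B F x = ∅) {i : ι}
    (hz : z ∈ B i) : (B i ∩ M).card ≤ 1 := by
  refine s.single hM hM3 hj (t := z) (x := x) (y := y) ?_ ?_ ?_ hz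
  · rw [hB.eq]
    ext v
    simp only [mem_insert, mem_singleton]
    tauto
  · rw [hx]
    exact empty_subset _
  · intro h1
    obtain ⟨L, hL⟩ := hB.nb
    have h2 := mem_singleton.1 (h1 hL)
    have h3 := hB.sb hL
    rw [h2] at h3
    exact disjoint_left.1 (s.par.ptn.dj D hB.mem _ hM hD) h3 (mem_singleton_self M)

/-- **full hits of a triple of type B**: the centre `{W}` is one leaf, both points see it. -/
theorem StgR.full_B (s : StgR B Q T U F P a) {M W : Finset V} (hM : {M} ∈ par0 B U F)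
    (hM3 : M.card = 3) (hWM : W ≠ M) {j : ι} (hj : j ∈ T) {x y z : V}
    (hB : BT B Q F (par0 B U F) j x y z {W}) (hx : (slf B F x).Nonempty) {i : ι}
    (hz : z ∈ B i) (hi : 2 ≤ (B i ∩ M).card) :
    13 ≤ nt B M 1 + 2 * (uh B x W + uh B y W +
      (univ.filter fun k => k ≠ j ∧ x ∈ B k ∧ y ∈ B k ∧ ¬ (B k ∩ W).Nonempty).card) := by
  have hf := s.frm
  have hMF : M ∈ F := s.par.sub hM (mem_singleton_self M)
  have hWF : W ∈ F := s.par.sub hB.mem (mem_singleton_self W)
  have hzj : z ∈ B j ∩ Q := by rw [hB.eq]; simp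
  have hzM : z ∉ M := hf.T_notin hj hzj hMF
  have hcard : (B i ∩ M).card = 2 := by
    have h2 : insert z (B i ∩ M) ⊆ B i ∩ Q := insert_subset (mem_inter.2 ⟨hz, (mem_inter.1 hzj).2⟩)
      (inter_subset_inter_left (hf.FQ hMF))
    have h3 := card_le_card h2
    rw [card_insert_of_notMem (fun h4 => hzM (mem_inter.1 h4).2)] at h3
    have h4 := hf.reg3 i
    omega
  have key : ∀ {p : V}, (slf B F p).Nonempty → slf B F p ⊆ {W} → ∃ w ∈ W, (gr B).Adj p w := by
    intro p hne hs
    obtain ⟨L, hL⟩ := hne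
    have h2 := mem_singleton.1 (hs hL)
    obtain ⟨_, w, hw, hpw⟩ := mem_slf.1 hL
    exact ⟨w, h2 ▸ hw, hpw⟩
  exact s.mtr.toMTN.full_B s.viol.reg hj hB.eq hMF hM3 (s.free_own hM) hWF hWM
    (key hx hB.sa) (key hB.nb hB.sb) (not_adj_of_slf hB.sa) (not_adj_of_slf hB.sb) hz hcard

end Pool.Agent.Hyp6
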