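import Pool.Agent.Hyp6.L3N4

/-!
# HYP6 L3N5: the weight of a triple and its pairs

`thj_eq`: the weight of a triple is the sum of the numbers of blocks of its pairs.
-/

set_option autoImplicit false

namespace Pool.Agent.Hyp6

open Finset Pool.Agent.Hyp5 Rt

universe u v

variable {V : Type v} [DecidableEq V] {ι : Type u} [Fintype ι] {B : ι → Finset V}

/-- the weight of a triple and the pairs. -/
theorem thj_eq {Q : Finset V} {k : ι} {a b c : V} (h : B k ∩ Q = {a, b, c}) (hab : a ≠ b)
    (hac : a ≠ c) (hbc : b ≠ c) : thj B Q k = mlt B a b + mlt B a c + mlt B b c := by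
  classical
  have e1 : ∀ z : V, ∀ l : ι, (B l ∩ {z}).card = if z ∈ B l then 1 else 0 := by
    intro z l
    by_cases h2 : z ∈ B l
    · rw [inter_singleton_of_mem h2, card_singleton, if_pos h2]
    · rw [inter_singleton_of_notMem h2, card_empty, if_neg h2]
  have key : ∀ l : ι, wth (B l ∩ (B k ∩ Q)).card = (if a ∈ B l ∧ b ∈ B l then 1 else 0) +
      (if a ∈ B l ∧ c ∈ B l then 1 else 0) + (if b ∈ B l ∧ c ∈ B l then 1 else 0) := by
    intro l
    have e : (B l ∩ (B k ∩ Q)).card = (if a ∈ B l then 1 else 0) + ((if b ∈ B l then 1 else 0) +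
        (if c ∈ B l then 1 else 0)) := by
      rw [h]
      have e0 : ({a, b, c} : Finset V) = {a} ∪ ({b} ∪ {c}) := by
        ext z
        simp only [mem_insert, mem_singleton, mem_union]
      rw [e0, inter_union_distrib_left, inter_union_distrib_left, card_union_of_disjoint,
        card_union_of_disjoint, e1, e1, e1]
      · exact Disjoint.mono inter_subset_right inter_subset_right (disjoint_singleton.2 hbc)
      · rw [disjoint_union_right]
        exact ⟨Disjoint.mono inter_subset_right inter_subset_right (disjoint_singleton.2 hab),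
          Disjoint.mono inter_subset_right inter_subset_right (disjoint_singleton.2 hac)⟩
    rw [e]
    by_cases h2 : a ∈ B l <;> by_cases h3 : b ∈ B l <;> by_cases h4 : c ∈ B l <;>
      simp [h2, h3, h4, wth]
  unfold thj mlt
  rw [sum_congr rfl fun l _ => key l, sum_add_distrib, sum_add_distrib, ← card_filter,
    ← card_filter, ← card_filter]

theorem mlt_pos {k : ι} {y z : V} (hy : y ∈ B k) (hz : z ∈ B k) : 1 ≤ mlt B y z :=
  card_pos.2 ⟨k, mem_filter.2 ⟨mem_univ _, hy, hz⟩⟩

theorem uh_eq_mlt (z x : V) : uh B z {x} = mlt B x z := uh_point z x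

end Pool.Agent.Hyp6
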