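import Pool.Agent.Hyp6.L3T3
import Pool.Agent.Hyp6.L3Ne
import Pool.Agent.Hyp6.L3N1s
import Pool.Agent.Hyp6.L3Fpf
import Pool.Agent.Hyp6.L3Gm
import Pool.Agent.Hyp6.L3Ff
import Pool.Agent.Hyp6.L3N5

/-!
# HYP6 L3T4: a single leaf of type (3;1) without line triples

`StgR.h0_31`: a leaf with three points and one single trace which is its own class, without line
triples, inside triples, centres and hits of `U`, needs nothing.
-/

set_option autoImplicit false

namespace Pool.Agent.Hyp6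

open Finset Pool.Agent.Hyp5 Rt

universe u v

variable {V : Type v} [DecidableEq V] {ι : Type u} [Fintype ι] [DecidableEq ι]
  {B : ι → Finset V}

omit [DecidableEq ι] in
/-- the hits of a point on a set. -/
theorem uh_Ez4 (v : V) (L : Finset V) : uh B v L = (Ez B L v).card := by
  unfold uh
  rw [hit_eq_Ez, sum_singleton]

omit [DecidableEq ι] in
/-- the hits of a triple on a set. -/
theorem jh_Ez (Q : Finset V) (j : ι) (L : Finset V) :
    jh B Q j L = ∑ v ∈ B j ∩ Q, (Ez B L v).card := hit_eq_Ez _ _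

namespace Frm

variable {Q U : Finset V} {T : Finset ι} {F : Finset (Finset V)}

omit [DecidableEq ι] in
/-- the structure of a leaf with three points and one single trace. -/
theorem lf31 (h : Frm B Q T U F) (hr : Reg B Q) {L : Finset V} (hL : L ∈ F) (h3 : L.card = 3)
    (h1 : nt B L 1 = 1) : cm B L = 8 ∧ rho B L = 2 := by
  have h2 : ∀ i, (B i ∩ L).card ≤ 2 := by
    intro i
    rcases (B i ∩ L).eq_empty_or_nonempty with h0 | ⟨v, hv⟩
    · rw [h0, card_empty]
      exact Nat.zero_le _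
    · obtain ⟨hv1, hv2⟩ := mem_inter.1 hv
      exact (card_le_card (inter_subset_inter_left (h.FD hL))).trans (h.two_leaf hL hv1 hv2)
  have e1 := cm_eq3 (B := B) (W := L) fun i => (h2 i).trans (by norm_num)
  have e2 := inc_eq3 (hr.mono (h.FQ hL)) fun i => (h2 i).trans (by norm_num)
  have e3 := nt3_zero (B := B) (W := L) h2
  have e4 := h.sv_leaf hL
  unfold sv at e4
  rw [h3] at e4 e2
  push_cast at e4
  constructor <;> omega

omit [DecidableEq ι] in
/-- the contact points of a leaf without hits of `U` lie in the triples. -/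
theorem ct_T (h : Frm B Q T U F) {L : Finset V} (hL : L ∈ F) (hU : hit B U L = 0) {v : V}
    (hvQ : v ∈ Q) (hvL : v ∉ L) (hE : (Ez B L v).Nonempty) : ∃ j ∈ T, v ∈ B j := by
  classical
  by_contra hcon
  push Not at hcon
  obtain ⟨i, hi⟩ := hE
  obtain ⟨h1, h2⟩ := mem_Ez.1 hi
  have hvD : v ∈ Dp B Q T := mem_sdiff.2 ⟨hvQ, fun h3 => by
    obtain ⟨j, hj, hvj⟩ := mem_biUnion.1 h3
    exact hcon j hj hvj⟩
  rcases h.mem_three hvD with h3 | h3 | h3
  · rw [hit_eq_Ez] at hU
    have h4 := (sum_eq_zero_iff.1 hU) v h3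
    rw [card_eq_zero] at h4
    rw [h4] at hi
    exact notMem_empty _ hi
  · obtain ⟨L', hL', hvL'⟩ := mem_biUnion.1 h3
    by_cases he : L' = L
    · exact hvL (he ▸ hvL')
    · exact (h.sepF L hL L' hL' (Ne.symm he)).2 i h2 ⟨v, mem_inter.2 ⟨h1, hvL'⟩⟩
  · obtain ⟨y, hy⟩ := h2
    obtain ⟨hy1, hy2⟩ := mem_inter.1 hy
    exact h.sepE i ⟨y, mem_inter.2 ⟨hy1, mem_biUnion.2 ⟨L, hL, hy2⟩⟩⟩
      ⟨v, mem_inter.2 ⟨h1, h3⟩⟩

omit [DecidableEq ι] in
/-- the data of `Q0` for a leaf of the frame. -/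
theorem q0 (h : Frm B Q T U F) (hv : ViolR B Q) {L : Finset V} (hL : L ∈ F) (h3 : L.card = 3)
    (h1 : nt B L 1 = 1) (hU : hit B U L = 0)
    (tw : ∀ j ∈ T, ∀ b ∈ B j ∩ Q, ∀ c ∈ B j ∩ Q, b ≠ c → (Ez B L b).Nonempty →
      (Ez B L c).Nonempty → (∀ a ∈ B j ∩ Q, a ≠ b → a ≠ c → Ez B L a = ∅) ∧
        (∀ i ∈ Ez B L b, (B i ∩ L).card = 1) ∧ (∀ i ∈ Ez B L c, (B i ∩ L).card = 1)) :
    ∃ a b c s, Q0 B Q L T a b c s := by
  obtain ⟨e1, e2⟩ := h.lf31 hv.reg hL h3 h1
  obtain ⟨a, b, c, s, ht⟩ := exists_t31 (hv.reg.mono (h.FQ hL)) (hv.tr.mono (h.FQ hL)) h3 e1 e2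
  refine ⟨a, b, c, s, ?_⟩
  exact
    { hv := hv
      LQ := h.FQ hL
      L3 := h3
      cm8 := e1
      rho2 := e2
      crit := h.crit_lf hL
      t := ht
      T3 := fun j hj => h.full hj
      TL := fun j hj => disjoint_left.2 fun v hv => h.T_notin hj hv hL
      Td := h.mtp.tpk.pack.disj
      cov := fun v hvQ hvL hE => h.ct_T hL hU hvQ hvL hE
      tw := tw }

end Frm

open Classical in
/-- the surplus which is needed from a contact point. -/
noncomputable def zr (B : ι → Finset V) (L : Finset V) (b c v : V) : ℤ :=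
  if Ap B L b c v then 24 * ((Ez B L v).card : ℤ) else
    if Fp B L v then 19 * ((Ez B L v).card : ℤ) else 5 * ((Ez B L v).card : ℤ)

omit [DecidableEq ι] in
theorem zr_le (B : ι → Finset V) (L : Finset V) (b c v : V) :
    zr B L b c v ≤ 24 * ((Ez B L v).card : ℤ) := by
  unfold zr
  have : (0 : ℤ) ≤ ((Ez B L v).card : ℤ) := by positivity
  split_ifs <;> linarith

omit [DecidableEq ι] in
theorem zr_le19 {L : Finset V} {b c v : V} (h : ¬ Ap B L b c v) :
    zr B L b c v ≤ 19 * ((Ez B L v).card : ℤ) := by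
  unfold zr
  have : (0 : ℤ) ≤ ((Ez B L v).card : ℤ) := by positivity
  rw [if_neg h]
  split_ifs <;> linarith

omit [DecidableEq ι] in
theorem zr_le5 {L : Finset V} {b c v : V} (h : ¬ Ap B L b c v) (h2 : ¬ Fp B L v) :
    zr B L b c v ≤ 5 * ((Ez B L v).card : ℤ) := by
  unfold zr
  rw [if_neg h, if_neg h2]

omit [DecidableEq ι] in
theorem zr_zero {L : Finset V} {b c v : V} (h : Ez B L v = ∅) : zr B L b c v = 0 := by
  unfold zr
  rw [h, card_empty]
  simp

namespace Q0

variable {Q L : Finset V} {T : Finset ι} {a b c : V} {s : ι}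

omit [DecidableEq ι] in
/-- the sum of the surpluses. -/
theorem sum_zr (h : Q0 B Q L T a b c s) : 120 ≤ ∑ v ∈ Q \ L, zr B L b c v := by
  classical
  have h0 := h.sum120
  have e0 : ∑ v ∈ (Q \ L).filter (fun v => Ap B L b c v), zr B L b c v =
      24 * ∑ v ∈ SA B Q L b c, ((Ez B L v).card : ℤ) := by
    rw [mul_sum]
    refine sum_congr ?_ fun v hv => ?_
    · ext v
      rw [mem_filter, mem_sdiff, mSA, and_assoc]
    · unfold zr
      rw [if_pos (mSA.1 hv).2.2]
  have e1 : ∑ v ∈ ((Q \ L).filter (fun v => ¬ Ap B L b c v)).filter (fun v => Fp B L v),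
      zr B L b c v = 19 * ∑ v ∈ SF B Q L b c, ((Ez B L v).card : ℤ) := by
    rw [mul_sum]
    refine sum_congr ?_ fun v hv => ?_
    · ext v
      rw [mem_filter, mem_filter, mem_sdiff, mSF, and_assoc, and_assoc]
    · unfold zr
      rw [if_neg (mSF.1 hv).2.2.1, if_pos (mSF.1 hv).2.2.2]
  have e2 : ∑ v ∈ ((Q \ L).filter (fun v => ¬ Ap B L b c v)).filter (fun v => ¬ Fp B L v),
      zr B L b c v = 5 * ((SO B Q L).card : ℤ) := by
    have e3 : ((SO B Q L).card : ℤ) = ∑ v ∈ SO B Q L, (1 : ℤ) := by simp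
    rw [e3, mul_sum]
    symm
    refine (sum_congr rfl fun v hv => ?_).trans (sum_subset (f := zr B L b c)
      (fun v hv => ?_) fun v hv hn => ?_)
    · obtain ⟨h1, h2, h3, h4⟩ := mSO.1 hv
      unfold zr
      rw [if_neg (fun h5 => h4 (h.Ap_Fp h5)), if_neg h4, h.one_SO hv]
      norm_num
    · obtain ⟨h1, h2, h3, h4⟩ := mSO.1 hv
      rw [mem_filter, mem_filter, mem_sdiff]
      exact ⟨⟨⟨h1, h2⟩, fun h5 => h4 (h.Ap_Fp h5)⟩, h4⟩
    · rw [mem_filter, mem_filter, mem_sdiff] at hv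
      refine zr_zero ?_
      by_contra hcon
      exact hn (mSO.2 ⟨hv.1.1.1, hv.1.1.2, nonempty_iff_ne_empty.2 hcon, hv.2⟩)
  rw [← sum_filter_add_sum_filter_not (Q \ L) (fun v => Ap B L b c v),
    ← sum_filter_add_sum_filter_not ((Q \ L).filter (fun v => ¬ Ap B L b c v))
      (fun v => Fp B L v), e0, e1, e2]
  linarith

omit [DecidableEq ι] in
/-- the sum over the triples. -/
theorem sum_T (h : Q0 B Q L T a b c s) :
    120 ≤ ∑ j ∈ T, ∑ v ∈ B j ∩ Q, zr B L b c v := by
  classical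
  have h0 := h.sum_zr
  have h1 : ∑ j ∈ T, ∑ v ∈ B j ∩ Q, zr B L b c v =
      ∑ v ∈ T.biUnion (fun j => B j ∩ Q), zr B L b c v := by
    rw [sum_biUnion]
    intro j hj k hk hne
    exact h.Td j hj k hk hne
  have h2 : ∑ v ∈ T.biUnion (fun j => B j ∩ Q), zr B L b c v = ∑ v ∈ Q \ L, zr B L b c v := by
    refine sum_subset (fun v hv => ?_) fun v hv hn => ?_
    · obtain ⟨j, hj, hvj⟩ := mem_biUnion.1 hv
      exact mem_sdiff.2 ⟨(mem_inter.1 hvj).2, fun h3 => disjoint_left.1 (h.TL j hj) hvj h3⟩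
    · obtain ⟨hvQ, hvL⟩ := mem_sdiff.1 hv
      refine zr_zero ?_
      by_contra hcon
      obtain ⟨j, hj, hvj⟩ := h.cov v hvQ hvL (nonempty_iff_ne_empty.2 hcon)
      exact hn (mem_biUnion.2 ⟨j, hj, mem_inter.2 ⟨hvj, hvQ⟩⟩)
  rw [h1, h2]
  exact h0

end Q0

namespace Stg

variable {Q U : Finset V} {T : Finset ι} {F : Finset (Finset V)}
  {P : Finset (Finset (Finset V))} {a : V → Finset (Finset V) → ℕ}

/-- the triples which hit a single leaf without line triples and inside triples are remaining. -/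
theorem trs_of_hit (s : Stg B Q T U F P a) {L : Finset V} (hL : {L} ∈ P)
    (h0 : aC B Q T U F P {L} = ∅) (hK : Sp.Kin (Rg B Q T U F) (slj B Q F) {L} = ∅) {j : ι}
    (hj : j ∈ T) (hp : 0 < jh B Q j L) : j ∈ Trs B Q T (Rg B Q T U F) U F P := by
  have hLF : L ∈ F := (s.part.ptn.vc _ hL).sub (mem_singleton_self L)
  have hs : L ∈ slj B Q F j := by
    rw [jh_sum] at hp
    obtain ⟨v, hv, h1⟩ := exists_ne_zero_of_sum_ne_zero (Nat.pos_iff_ne_zero.1 hp)
    exact mem_biUnion.2 ⟨v, hv, (uh_pos hLF (s.frm.T_notin hj hv hLF)).1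
      (Nat.pos_of_ne_zero h1)⟩
  unfold Trs
  rw [mem_sdiff, mem_sdiff]
  refine ⟨⟨hj, fun h1 => ?_⟩, fun h1 => ?_⟩
  · obtain ⟨C, hC, h2⟩ := mem_biUnion.1 h1
    have h3 := (mem_filter.1 h2).2.2 hs
    have h4 : C = {L} := by
      by_contra hne
      exact disjoint_left.1 (s.part.ptn.dj C hC _ hL hne) h3 (mem_singleton_self L)
    rw [h4, hK] at h2
    exact notMem_empty _ h2
  · have h2 : j ∈ aC B Q T U F P {L} := Sp.mem_atl.2 ⟨h1, Sp.met_sub_lx (Sp.mem_met.2
      ⟨hL, not_disjoint_iff.2 ⟨L, hs, mem_singleton_self L⟩⟩)⟩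
    rw [h0] at h2
    exact notMem_empty _ h2

/-- no full hit of the third point if there is a full hit at the centre. -/
theorem poorF_single (s : Stg B Q T U F P a) {L : Finset V} (hL : {L} ∈ P) {j : ι} (hj : j ∈ T)
    {x y z : V} {D : Finset (Finset V)} (hB : BT B Q F (par0 B U F) j x y z D)
    (hD : ¬ D ⊆ {L}) (hp : PoorF B x y D) {i : ι} (hz : z ∈ B i) : (B i ∩ L).card ≤ 1 := by
  by_contra hcon
  have hLF : L ∈ F := (s.part.ptn.vc _ hL).sub (mem_singleton_self L)
  have hLp := s.own_par hL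
  have hDL : D ≠ {L} := fun h => hD (by rw [h])
  have hzj : z ∈ B j ∩ Q := by rw [hB.eq]; simp
  have hcard : (B i ∩ L).card = 2 := by
    obtain ⟨w, hw⟩ := card_pos.1 (by omega : 0 < (B i ∩ L).card)
    obtain ⟨hw1, hw2⟩ := mem_inter.1 hw
    have h2 := s.frm.two_leaf hLF hw1 hw2
    have h3 := card_le_card (inter_subset_inter_left (s.frm.FD hLF) : B i ∩ L ⊆ _)
    omega
  obtain ⟨M, hM, k, hk, hk2⟩ := hp
  have hMF : M ∈ F := s.par.sub hB.mem hM
  have hne : L ≠ M := by
    rintro rfl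
    exact disjoint_left.1 (s.par.ptn.dj D hB.mem _ hLp hDL) hM (mem_singleton_self L)
  have hH := s.free_own hLp M hMF hne.symm
  have hkM : (B k ∩ M).Nonempty := card_pos.1 (by omega)
  have h4 : (B k ∩ Dp B Q T).card = 1 := by
    rcases hk with hk | hk
    · exact (s.frm.ff hLF hMF hne hH hj hB.eq hB.ac hz hcard hk hkM).1
    · refine (s.frm.ff hLF hMF hne hH hj (x := y) (y := x) (z := z) ?_ hB.bc hz hcard hk hkM).1
      rw [hB.eq]
      exact insert_comm _ _ _
  have h5 := card_le_card (inter_subset_inter_left (s.frm.FD hMF) : B k ∩ M ⊆ _)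
  omega

end Stg

namespace StgR

variable {Q U : Finset V} {T : Finset ι} {F : Finset (Finset V)}
  {P : Finset (Finset (Finset V))} {al : V → Finset (Finset V) → ℕ}

/-- **the types of the triples which hit a leaf of type (3;1)**. -/
theorem ty31 (s : StgR B Q T U F P al) {L : Finset V} (hL : {L} ∈ P)
    (hN : NCt B Q T U F P {L}) (h3 : L.card = 3) (h1 : nt B L 1 = 1) {j : ι}
    (hj : j ∈ Trs B Q T (Rg B Q T U F) U F P) (hp : 0 < jh B Q j L) :
    (144 * (jh B Q j L : ℤ) - Xv 149 B Q T U F P j {L} ≤ -56 * (jh B Q j L : ℤ)) ∨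
    ((∃ p ∈ B j ∩ Q, slf B F p = ∅) ∧
      (∀ i, (B i ∩ (B j ∩ Q)).Nonempty → (B i ∩ L).card ≤ 1) ∧
      144 * (jh B Q j L : ℤ) - Xv 149 B Q T U F P j {L} ≤ -5 * (jh B Q j L : ℤ)) ∨
    (∃ x y z D, BTc B Q T U F P j x y z D ∧ ¬ D ⊆ {L} ∧
      144 * (jh B Q j L : ℤ) - Xv 149 B Q T U F P j {L} =
        (144 - rB B Q T U F P x y z D) * (jh B Q j L : ℤ)) := by
  have hLF : L ∈ F := (s.part.ptn.vc _ hL).sub (mem_singleton_self L)
  have hLp := s.toStg.own_par hL
  have hjT := (s.frm.types_trs s.part hj).1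
  have h0 : (0 : ℤ) ≤ (jh B Q j L : ℤ) := by positivity
  have hne : (slj B Q F j).Nonempty := by
    rw [jh_sum] at hp
    obtain ⟨v, hv, h4⟩ := exists_ne_zero_of_sum_ne_zero (Nat.pos_iff_ne_zero.1 hp)
    exact ⟨L, mem_biUnion.2 ⟨v, hv, (uh_pos hLF (s.frm.T_notin hjT hv hLF)).1
      (Nat.pos_of_ne_zero h4)⟩⟩
  have hds : ja B Q (Ep B Q T U F) j = 0 → 6 ≤ ∑ L ∈ F, jh B Q j L →
      (∃ p ∈ B j ∩ Q, slf B F p = ∅) →
      ∀ i, (B i ∩ (B j ∩ Q)).Nonempty → (B i ∩ L).card ≤ 1 := by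
    intro h4 h5 h6
    obtain ⟨p, hp1, hp2⟩ := h6
    rcases s.toStg.dead_single hLp h3.le hjT (s.toStg.rank_trs hj h4 hne) hp1 hp2 with h7 | h7
    · exact h7
    · omega
  rcases s.toStg.trs_term 149 hj hL with ⟨_, _, h⟩ | ⟨_, _, _, h⟩ |
    ⟨_, _, x, y, z, D, hB, hD, _, h⟩ | ⟨h4, h5, x, y, z, D, hB, hD, _⟩ |
    ⟨h4, h5, _, _, h6, _, h⟩ | ⟨_, _, h⟩ | ⟨h7, h4, h5, _, h6, h⟩
  · rw [s.toStg.jC_one] at h
    left
    linarith
  · rw [s.toStg.jC_one] at h
    left
    linarith
  · rw [s.toStg.jC_one] at h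
    exact Or.inr (Or.inr ⟨x, y, z, D, hB, hD, h⟩)
  · exact absurd hD (hN j hj h4 h5 x y z D hB)
  · rw [s.toStg.jC_one] at h
    rcases Nat.lt_or_ge 5 (∑ L ∈ F, jh B Q j L) with h8 | h8
    · right
      left
      refine ⟨h6, hds h4 h8 h6, ?_⟩
      have h9 := vD_ge (v := 149) (by norm_num) (∑ L ∈ F, jh B Q j L)
      rw [h]
      exact mul_le_mul_of_nonneg_right (by linarith) h0
    · left
      have h9 : vD 149 (∑ L ∈ F, jh B Q j L) = 248 := by
        unfold vD
        rw [if_pos h8]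
      rw [h, h9]
      linarith
  · rw [s.toStg.jC_one] at h
    exact Or.inl h
  · rw [s.toStg.jC_one] at h
    rcases Nat.lt_or_ge 5 (∑ L ∈ F, jh B Q j L) with h8 | h8
    · right
      left
      have h9 : ∃ p ∈ B j ∩ Q, slf B F p = ∅ := by
        rcases h6 with h10 | ⟨x, y, z, D, hB, h10⟩
        · exact h10.1
        · exact ⟨x, by rw [hB.eq]; simp, s.bt_exc_dead hjT (s.toStg.rank_trs hj h4 hne) hB h10⟩
      refine ⟨h9, hds h4 h8 h9, ?_⟩
      have h10 : (149 : ℤ) ≤ vC 149 (∑ L ∈ F, jh B Q j L) := by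
        unfold vC
        split_ifs <;> norm_num
      rw [h]
      exact mul_le_mul_of_nonneg_right (by linarith) h0
    · left
      have h9 : vC 149 (∑ L ∈ F, jh B Q j L) = 200 := by
        unfold vC
        rw [if_pos h8]
      rw [h, h9]
      linarith

end StgR

namespace StgR

variable {Q U : Finset V} {T : Finset ι} {F : Finset (Finset V)}
  {P : Finset (Finset (Finset V))} {al : V → Finset (Finset V) → ℕ}

/-- **a single leaf of type (3;1) without line triples**, inside triples, centres and hits of `U` needs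
nothing. -/
theorem h0_31 (s : StgR B Q T U F P al) {L : Finset V} (hL : {L} ∈ P)
    (h0 : (aC B Q T U F P {L}).card = 0)
    (hK : Sp.Kin (Rg B Q T U F) (slj B Q F) {L} = ∅) (hN : NCt B Q T U F P {L})
    (h3 : L.card = 3) (h1 : nt B L 1 = 1) (hU : hit B U L = 0) :
    msC 149 B Q T U F P al {L} ≤ 0 := by
  classical
  have hLF : L ∈ F := (s.part.ptn.vc _ hL).sub (mem_singleton_self L)
  have hLp := s.toStg.own_par hL
  have hA0 : aC B Q T U F P {L} = ∅ := card_eq_zero.1 h0
  have hms := s.toStg.ms_one 149 hL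
  rw [hA0, sum_empty, hK, sum_empty] at hms
  obtain ⟨pp, _, _, _, _, _, _, _, e0, _, _, _, p0⟩ := s.toStg.one hLF
  rw [h1, h3] at pp
  rw [hU] at hms
  have hp0 : Pp B L = 0 := by rw [pp]; norm_num
  rw [hp0] at hms p0
  have he0 : (ee B Q L : ℤ) = 0 := by linarith
  rw [he0] at hms
  have hld : (0 : ℤ) ≤ (Sp.ld (Sp.Ux U (slf B F) P) al {L} : ℤ) := by positivity
  set f : ι → ℤ := fun j => 144 * (jh B Q j L : ℤ) - Xv 149 B Q T U F P j {L} with hf
  suffices hsum : ∑ j ∈ Trs B Q T (Rg B Q T U F) U F P, f j ≤ -120 by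
    rw [hms]
    push_cast
    linarith
  clear hms
  have hle : ∀ j ∈ Trs B Q T (Rg B Q T U F) U F P, f j ≤ -5 * (jh B Q j L : ℤ) := by
    intro j hj
    have h4 := s.toStg.trs_le' hj hL hN
    rw [s.toStg.jC_one] at h4
    exact h4
  have hout : ∀ j ∈ T, j ∉ Trs B Q T (Rg B Q T U F) U F P → jh B Q j L = 0 := by
    intro j hj hn
    by_contra hne
    exact hn (s.toStg.trs_of_hit hL hA0 hK hj (Nat.pos_of_ne_zero hne))
  have hTs : Trs B Q T (Rg B Q T U F) U F P ⊆ T := fun j hj => (s.frm.types_trs s.part hj).1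
  have hsp : ∀ {j}, j ∈ T → ∀ v ∈ B j ∩ Q, (Ez B L v).Nonempty → 0 < jh B Q j L := by
    intro j _ v hv hE
    rw [jh_Ez]
    exact lt_of_lt_of_le (card_pos.2 hE)
      (single_le_sum (f := fun v => (Ez B L v).card) (fun _ _ => Nat.zero_le _) hv)
  -- no hit of the two points of a triple of type B with the centre elsewhere
  have hBT : ∀ {j}, j ∈ T → ∀ {x y z : V} {D : Finset (Finset V)},
      BT B Q F (par0 B U F) j x y z D → ¬ D ⊆ {L} → ∀ v ∈ B j ∩ Q, v ≠ z → Ez B L v = ∅ := by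
    intro j hj x y z D hB hD v hv hvz
    have hDL : D ≠ {L} := fun h => hD (by rw [h])
    have h4 : slf B F v ⊆ D := by
      rw [hB.eq, mem_insert, mem_insert, mem_singleton] at hv
      rcases hv with rfl | rfl | rfl
      · exact hB.sa
      · exact hB.sb
      · exact absurd rfl hvz
    have h5 : uh B v L = 0 := uh_zero hLF (s.frm.T_notin hj hv hLF) fun h6 =>
      disjoint_left.1 (s.par.ptn.dj D hB.mem _ hLp hDL) (h4 h6) (mem_singleton_self L)
    rw [uh_Ez4] at h5
    exact card_eq_zero.1 h5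
  by_cases tw : ∀ j ∈ T, ∀ b ∈ B j ∩ Q, ∀ c ∈ B j ∩ Q, b ≠ c → (Ez B L b).Nonempty →
      (Ez B L c).Nonempty → (∀ a ∈ B j ∩ Q, a ≠ b → a ≠ c → Ez B L a = ∅) ∧
        (∀ i ∈ Ez B L b, (B i ∩ L).card = 1) ∧ (∀ i ∈ Ez B L c, (B i ∩ L).card = 1)
  · -- own triples and twins
    obtain ⟨a, b, c, s0, h⟩ := s.frm.q0 s.viol hLF h3 h1 hU tw
    have h4 := h.sum_T
    have h5 : ∑ j ∈ T, ∑ v ∈ B j ∩ Q, zr B L b c v =
        ∑ j ∈ Trs B Q T (Rg B Q T U F) U F P, ∑ v ∈ B j ∩ Q, zr B L b c v := by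
      symm
      refine sum_subset hTs fun j hj hn => sum_eq_zero fun v hv => zr_zero ?_
      by_contra hcon
      have h6 := hsp hj v hv (nonempty_iff_ne_empty.2 hcon)
      have h7 := hout j hj hn
      omega
    rw [h5] at h4
    suffices h6 : ∑ j ∈ Trs B Q T (Rg B Q T U F) U F P, ∑ v ∈ B j ∩ Q, zr B L b c v ≤
        ∑ j ∈ Trs B Q T (Rg B Q T U F) U F P, -f j by
      rw [sum_neg_distrib] at h6
      linarith
    refine sum_le_sum fun j hj => ?_
    have hjT := hTs hj
    have hjz : (jh B Q j L : ℤ) = ∑ v ∈ B j ∩ Q, ((Ez B L v).card : ℤ) := by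
      rw [jh_Ez]
      push_cast
      rfl
    rcases Nat.eq_zero_or_pos (jh B Q j L) with h7 | h7
    · have h8 := hle j hj
      rw [h7] at h8
      have h9 : ∑ v ∈ B j ∩ Q, zr B L b c v = 0 := by
        refine sum_eq_zero fun v hv => zr_zero ?_
        by_contra hcon
        have h6 := hsp hjT v hv (nonempty_iff_ne_empty.2 hcon)
        omega
      rw [h9]
      push_cast at h8
      linarith
    rcases s.ty31 hL hN h3 h1 hj h7 with h8 | ⟨_, h9, h8⟩ | ⟨x, y, z, D, hB, hD, h8⟩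
    · have h9 : ∑ v ∈ B j ∩ Q, zr B L b c v ≤ 24 * (jh B Q j L : ℤ) := by
        rw [hjz, mul_sum]
        exact sum_le_sum fun v _ => zr_le B L b c v
      have h10 : (0 : ℤ) ≤ (jh B Q j L : ℤ) := by positivity
      have h11 : f j ≤ -56 * (jh B Q j L : ℤ) := h8
      linarith
    · have h10 : ∑ v ∈ B j ∩ Q, zr B L b c v ≤ 5 * (jh B Q j L : ℤ) := by
        rw [hjz, mul_sum]
        refine sum_le_sum fun v hv => ?_
        have h11 : ¬ Fp B L v := by
          rintro ⟨i, hi, h12⟩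
          have := h9 i ⟨v, mem_inter.2 ⟨(mem_Ez.1 hi).1, hv⟩⟩
          omega
        exact zr_le5 (fun h12 => h11 (h.Ap_Fp h12)) h11
      have h11 : f j ≤ -5 * (jh B Q j L : ℤ) := h8
      linarith
    · have hzj : z ∈ B j ∩ Q := by rw [hB.eq]; simp
      have e1 : ∑ v ∈ B j ∩ Q, zr B L b c v = zr B L b c z :=
        sum_eq_single_of_mem z hzj fun v hv hvz => zr_zero (hBT hjT hB.toBT hD v hv hvz)
      have e2 : (jh B Q j L : ℤ) = ((Ez B L z).card : ℤ) := by
        rw [hjz]
        refine sum_eq_single_of_mem z hzj fun v hv hvz => ?_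
        rw [hBT hjT hB.toBT hD v hv hvz, card_empty]
        rfl
      have h10 : (0 : ℤ) ≤ ((Ez B L z).card : ℤ) := by positivity
      have h8' : f j = (144 - rB B Q T U F P x y z D) * (jh B Q j L : ℤ) := h8
      rw [e1, h8', e2]
      rcases Frm.rB_cases (B := B) Q T U F P x y z D with ⟨hr, _⟩ | ⟨hr, h11⟩ | ⟨hr, _, h11, hFu⟩
      · rw [hr]
        have := zr_le B L b c z
        linarith
      · rw [hr]
        have h12 : ¬ Fp B L z := by
          rintro ⟨i, hi, h13⟩
          rcases h11 with h11 | ⟨_, h11⟩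
          · have := s.toStg.poorF_single hL hjT hB.toBT hD h11 (mem_Ez.1 hi).1
            omega
          · exact h11 ⟨L, hL, h3, h1, hU, hA0, i, (mem_Ez.1 hi).1, h13.ge⟩
        have := zr_le5 (b := b) (c := c) (fun h13 => h12 (h.Ap_Fp h13)) h12
        linarith
      · rw [hr]
        have h12 : ¬ Ap B L b c z := by
          rintro ⟨i, hi, h13⟩
          obtain ⟨h14, W, rfl, hWP, hW1, hWU, h15⟩ := h11
          obtain ⟨w, rfl⟩ := card_eq_one.1 hW1
          have hs : B s0 ∩ L = {a} := h.t.tr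
          have hai : a ∉ B i := fun h16 => h.no3 h16 (mem_bl.1 h13).1 (mem_bl.1 h13).2
          have hne : (slj B Q F j).Nonempty := by
            refine ⟨L, mem_biUnion.2 ⟨z, hzj, (uh_pos hLF (s.frm.T_notin hjT hzj hLF)).1 ?_⟩⟩
            rw [uh_Ez4]
            exact card_pos.2 ⟨i, hi⟩
          have hja : ja B Q (Ep B Q T U F) j = 0 := by
            by_contra hja
            have h16 := s.toStg.trs_term 149 hj hL
            rw [s.toStg.jC_one] at h16
            have h17 : (0 : ℤ) < (jh B Q j L : ℤ) := by exact_mod_cast h7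
            have h8'' : 144 * (jh B Q j L : ℤ) - Xv 149 B Q T U F P j {L} =
              (144 - rB B Q T U F P x y z {{w}}) * (jh B Q j L : ℤ) := h8
            rw [h8'', hr] at h16
            rcases h16 with h18 | h18 | h18 | h18 | h18 | h18 | h18
            · linarith [h18.2.2]
            · exact hja h18.1
            · exact hja h18.1
            · exact hja h18.1
            · exact hja h18.1
            · linarith [h18.2.2]
            · exact hja h18.2.1
          exact s.poorP_A hjT (s.toStg.rank_trs hj hja hne) hB.toBT h15 h14 hLp h3 h1.le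
            (mem_Ez.1 hi).1 (h.card_pairs (Or.inl h13)).ge h.aL hs hai
        have := zr_le19 (B := B) (L := L) h12
        linarith
  · -- a triple with two contact points and a full hit, or with three contact points
    push Not at tw
    obtain ⟨j, hj, b, hb, c, hc, hbc, hbE, hcE, hbad⟩ := tw
    have h4 := hsp hj b hb hbE
    have hjr := s.toStg.trs_of_hit hL hA0 hK hj h4
    have h5 : 2 ≤ jh B Q j L := by
      rw [jh_Ez]
      have h6 : (Ez B L b).card + (Ez B L c).card ≤ ∑ v ∈ B j ∩ Q, (Ez B L v).card := by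
        rw [← sum_pair hbc (f := fun v => (Ez B L v).card)]
        refine sum_le_sum_of_subset fun v hv => ?_
        rw [mem_insert, mem_singleton] at hv
        rcases hv with rfl | rfl <;> assumption
      have h7 := card_pos.2 hbE
      have h8 := card_pos.2 hcE
      omega
    have h6 : f j ≤ -56 * (jh B Q j L : ℤ) := by
      rcases s.ty31 hL hN h3 h1 hjr h4 with h8 | ⟨⟨p, hp, hps⟩, h9, _⟩ | ⟨x, y, z, D, hB, hD, _⟩
      · exact h8
      · exfalso
        have hEp : Ez B L p = ∅ := by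
          have h10 : uh B p L = 0 := uh_zero hLF (s.frm.T_notin hj hp hLF) (by
            rw [hps]
            exact notMem_empty _)
          rw [uh_Ez4] at h10
          exact card_eq_zero.1 h10
        have hpb : p ≠ b := fun h10 => by
          rw [← h10, hEp] at hbE
          exact not_nonempty_empty hbE
        have hpc : p ≠ c := fun h10 => by
          rw [← h10, hEp] at hcE
          exact not_nonempty_empty hcE
        have hsin : ∀ v ∈ B j ∩ Q, ∀ i ∈ Ez B L v, (B i ∩ L).card = 1 := by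
          intro v hv i hi
          obtain ⟨h10, h11⟩ := mem_Ez.1 hi
          have h12 := h9 i ⟨v, mem_inter.2 ⟨h10, hv⟩⟩
          have h13 := card_pos.2 h11
          omega
        obtain ⟨i, hi, hi1⟩ := hbad (fun a ha hab hac => by
          have h10 : ({p, b, c} : Finset V) = B j ∩ Q := by
            refine eq_of_subset_of_card_le (fun v hv => ?_) ?_
            · rw [mem_insert, mem_insert, mem_singleton] at hv
              rcases hv with rfl | rfl | rfl <;> assumption
            · rw [s.frm.full hj, card_eq_three.2 ⟨p, b, c, hpb, hpc, hbc, rfl⟩]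
          rw [← h10, mem_insert, mem_insert, mem_singleton] at ha
          rcases ha with rfl | rfl | rfl
          · exact hEp
          · exact absurd rfl hab
          · exact absurd rfl hac) (hsin b hb)
        exact hi1 (hsin c hc i hi)
      · exfalso
        have h10 : ∀ v ∈ B j ∩ Q, (Ez B L v).Nonempty → v = z := by
          intro v hv hE
          by_contra hvz
          rw [hBT hj hB.toBT hD v hv hvz] at hE
          exact not_nonempty_empty hE
        exact hbc ((h10 b hb hbE).trans (h10 c hc hcE).symm)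
    have h7 := s.toStg.four_hits hLF hj h4
    rw [hU, add_zero] at h7
    have h8 : ∑ k ∈ T, jh B Q k L = ∑ k ∈ Trs B Q T (Rg B Q T U F) U F P, jh B Q k L := by
      symm
      exact sum_subset hTs fun k hk hn => hout k hk hn
    have h9 : ∑ k ∈ (Trs B Q T (Rg B Q T U F) U F P).erase j, f k ≤
        ∑ k ∈ (Trs B Q T (Rg B Q T U F) U F P).erase j, (-5 * (jh B Q k L : ℤ)) :=
      sum_le_sum fun k hk => hle k (mem_of_mem_erase hk)
    have h10 := add_sum_erase (Trs B Q T (Rg B Q T U F) U F P) f hjr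
    have h11 := add_sum_erase (Trs B Q T (Rg B Q T U F) U F P) (fun k => jh B Q k L) hjr
    rw [← mul_sum] at h9
    have h12 : ((∑ k ∈ (Trs B Q T (Rg B Q T U F) U F P).erase j, jh B Q k L : ℕ) : ℤ) =
        ∑ k ∈ (Trs B Q T (Rg B Q T U F) U F P).erase j, (jh B Q k L : ℤ) := by push_cast; rfl
    rw [← h12] at h9
    rw [← h10]
    omega

end StgR

end Pool.Agent.Hyp6
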