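import Pool.Agent.Hyp6.L3N1s
import Pool.Agent.Hyp6.L3Kw
import Pool.Agent.Hyp6.L3Fpd

/-!
# HYP6 L3Za: triples with a full hit on the new leaf of the exchanged frame

In the exchanged frame of `NxE` the new leaf `Z = W ∪ {a, b}` is free with every other leaf if no point
of `U` sees `W` (`NxE.free_new`). Let `T_k = {t, q, r}` be a triple with a block of `t` with two points
in `Z`. Then `q` or `r` sees only `Z`, or ... : `NxE.no_full`, `NxE.dead`, `NxE.first`.
-/

set_option autoImplicit false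

namespace Pool.Agent.Hyp6

open Finset Pool.Agent.Hyp5 Rt

universe u v

variable {V : Type v} [DecidableEq V] {ι : Type u} [Fintype ι] {B : ι → Finset V}

/-- a leaf which no point of `U` sees is free with every other leaf. -/
theorem free_noU {Q U : Finset V} {T : Finset ι} {F : Finset (Finset V)} (h : Frm B Q T U F)
    {W : Finset V} (hU : ∀ u ∈ U, ∀ y ∈ W, ¬ (gr B).Adj u y) :
    ∀ L ∈ F, L ≠ W → ∀ Y ⊆ U, Y.card ≤ (nbF (gr B) (F \ {W, L}) Y).card := by
  classical
  intro L hL _ Y hY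
  rcases Y.eq_empty_or_nonempty with rfl | hne
  · simp
  have h1 := (h.gdT (R := (∅ : Finset ι))).sur Y hY hne
  have h2 : ((Y.biUnion (slf B F)) ∩ F).erase L ⊆ nbF (gr B) (F \ {W, L}) Y := by
    intro M hM
    obtain ⟨h3, h4⟩ := mem_erase.1 hM
    obtain ⟨u, hu, hMu⟩ := mem_biUnion.1 (mem_inter.1 h4).1
    obtain ⟨h5, y, hy, h6⟩ := mem_slf.1 hMu
    refine mem_nbF.2 ⟨mem_sdiff.2 ⟨h5, ?_⟩, u, hu, y, hy, h6⟩
    rw [mem_insert, mem_singleton, not_or]
    refine ⟨?_, h3⟩
    rintro rfl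
    exact hU u (hY hu) y hy h6
  have h3 := card_le_card h2
  have h4 : ((Y.biUnion (slf B F)) ∩ F).card ≤ (((Y.biUnion (slf B F)) ∩ F).erase L).card + 1 := by
    by_cases hM : L ∈ (Y.biUnion (slf B F)) ∩ F
    · rw [card_erase_add_one hM]
    · rw [erase_eq_of_notMem hM]
      omega
  omega

/-- **the mirror rule in an `MTE` frame**: `{a, b, c}` is a triple of the packing, `{x}` a point leaf
with the block `{x, b, c}`; all blocks of `a` except the triple and `k0` meet `x`; the triple `T_k` has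
the point `s` in `k0`, the point `p` sees no leaf except `W`: no full hit of `t` at the leaf `W`. -/
theorem Px.no_full2 [DecidableEq ι] {Q U : Finset V} {T : Finset ι} {F : Finset (Finset V)}
    {j i k0 : ι} {a b c x : V} (h : Px B Q T U F j i a b c x) (hm : MTE B Q T U F)
    (haU : ∀ u ∈ U, ¬ (gr B).Adj u a) (hxU : ∀ u ∈ U, ¬ (gr B).Adj u x)
    (hall : ∀ k, a ∈ B k → x ∈ B k ∨ k = j ∨ k = k0) (ak : a ∈ B k0) {k : ι} (hk : k ∈ T)
    (hkj : k ≠ j) {t p s : V} (hTk : B k ∩ Q = {t, p, s}) (hps : p ≠ s) (hs : s ∈ B k0)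
    (hk1 : (B k0 ∩ (B k ∩ Q)).card ≤ 1)
    {W : Finset V} (hW : W ∈ F) (hWx : W ≠ {x}) (hW3 : W.card = 3)
    (hfree : ∀ L ∈ F, L ≠ W → ∀ Z ⊆ U, Z.card ≤ (nbF (gr B) (F \ {W, L}) Z).card)
    (hp : ∀ L ∈ F, L ≠ W → ∀ l ∈ L, ¬ (gr B).Adj p l) {l : ι} (ht : t ∈ B l)
    (hl : (B l ∩ W).card = 2) : False := by
  classical
  have hf := h.frm
  obtain ⟨U1, F1, h'⟩ := h.exists_new
  obtain ⟨hm1, hU1, _⟩ := h.mte hm h'
  have hF1 := h.F_new hm h'
  subst hU1
  subst hF1
  have htk : t ∈ B k ∩ Q := by rw [hTk]; simp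
  have hpk : p ∈ B k ∩ Q := by rw [hTk]; simp
  have hsk : s ∈ B k ∩ Q := by rw [hTk]; simp
  have hdis := hf.mtp.tpk.pack.disj k hk j h.hj hkj
  have haj : a ∈ B j ∩ Q := by rw [h.hjQ]; simp
  have hap : a ≠ p := by
    rintro rfl
    exact disjoint_left.1 hdis hpk haj
  have hsa : s ≠ a := by
    rintro rfl
    exact disjoint_left.1 hdis hsk haj
  have hki : k ∈ insert i (T.erase j) := mem_insert_of_mem (mem_erase.2 ⟨hkj, hk⟩)
  have hWn : W ∈ insert {a} (F.erase {x}) := mem_insert_of_mem (mem_erase.2 ⟨hWx, hW⟩)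
  refine hm1.no_full3 hki hWn hW3 ?_ (t := t) (x := p) (y := s) hTk ht hl ?_ ?_
  · -- the Hall conditions in the mirror frame
    intro L hL hLW Z hZ
    rcases mem_insert.1 hL with rfl | hL
    · have h6 := hfree {x} h.hx hWx.symm Z hZ
      refine h6.trans (card_le_card fun M hM => ?_)
      obtain ⟨h7, z, hz, y, hy, hzy⟩ := mem_nbF.1 hM
      obtain ⟨h8, h9⟩ := mem_sdiff.1 h7
      rw [mem_insert, mem_singleton, not_or] at h9
      refine mem_nbF.2 ⟨mem_sdiff.2 ⟨mem_insert_of_mem (mem_erase.2 ⟨h9.2, h8⟩), ?_⟩, z, hz, y, hy,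
        hzy⟩
      rw [mem_insert, mem_singleton, not_or]
      refine ⟨h9.1, ?_⟩
      rintro rfl
      exact h.notD (z := a) (by simp) (hf.FD h8 (mem_singleton_self a))
    · obtain ⟨h10, h11⟩ := mem_erase.1 hL
      have h6 := hfree L h11 hLW Z hZ
      refine h6.trans (card_le_card fun M hM => ?_)
      obtain ⟨h7, z, hz, y, hy, hzy⟩ := mem_nbF.1 hM
      obtain ⟨h8, h9⟩ := mem_sdiff.1 h7
      refine mem_nbF.2 ⟨mem_sdiff.2 ⟨mem_insert_of_mem (mem_erase.2 ⟨?_, h8⟩), h9⟩, z, hz, y, hy,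
        hzy⟩
      rintro rfl
      exact hxU z (hZ hz) (mem_singleton.1 hy ▸ hzy)
  · -- `p` sees no other leaf
    intro L hL hLW y hy hpy
    rcases mem_insert.1 hL with rfl | hL
    · rw [mem_singleton.1 hy] at hpy
      obtain ⟨_, m, h6, h7⟩ := hpy
      rcases hall m h7 with h8 | h8 | h8
      · refine hp {x} h.hx hWx.symm x (mem_singleton_self x) ⟨?_, m, h6, h8⟩
        rintro rfl
        exact Frm.T_notD (Q := Q) hk (mem_inter.1 hpk).1 h.xD
      · subst h8
        exact disjoint_left.1 hdis hpk (mem_inter.2 ⟨h6, (mem_inter.1 hpk).2⟩)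
      · subst h8
        have h10 : ({p, s} : Finset V) ⊆ B m ∩ (B k ∩ Q) := by
          intro v hv
          rw [mem_insert, mem_singleton] at hv
          rcases hv with rfl | rfl
          · exact mem_inter.2 ⟨h6, hpk⟩
          · exact mem_inter.2 ⟨hs, hsk⟩
        have h11 := card_le_card h10
        rw [card_pair hps] at h11
        omega
    · obtain ⟨_, h11⟩ := mem_erase.1 hL
      exact hp L h11 hLW y hy hpy
  · exact ⟨{a}, mem_insert_self _ _, fun he => h.notD (z := a) (by simp)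
      (hf.FD hW (he ▸ mem_singleton_self a)), a, mem_singleton_self a, hsa, k0, hs, ak⟩

namespace NxE

variable {Q U : Finset V} {T : Finset ι} {F : Finset (Finset V)} {i j : ι} {M W : Finset V}
  {a b c m m' p : V}

/-- the exchanged frame. -/
theorem new_mte [DecidableEq ι] (h : NxE B Q T U F i j M W a b c m m' p) (hm : MTE B Q T U F) :
    MTE B Q (insert i (T.erase j)) U
      (insert (insert a (insert b W)) (insert {p} ((F.erase M).erase W))) := by
  obtain ⟨U1, F1, h'⟩ := h.exists_new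
  obtain ⟨h1, h2, _⟩ := h.mte hm h'
  have h4 := h.F_new hm h'
  subst h2
  subst h4
  exact h1

omit [Fintype ι] in
theorem Z_card (h : NxE B Q T U F i j M W a b c m m' p) :
    (insert a (insert b W)).card = W.card + 2 := by
  have haW : a ∉ W := fun h3 => h.ex.xD (h.frm.FD h.hW h3)
  have hbW : b ∉ W := fun h3 => h.ex.yD (h.frm.FD h.hW h3)
  rw [card_insert_of_notMem, card_insert_of_notMem hbW]
  intro h1
  rcases mem_insert.1 h1 with h2 | h2
  · exact h.ex.dis.2.2 h2
  · exact haW h2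

/-- **the new leaf is free with every other leaf**. -/
theorem free_new (h : NxE B Q T U F i j M W a b c m m' p)
    (hU : ∀ u ∈ U, ∀ y ∈ W, ¬ (gr B).Adj u y) :
    ∀ L ∈ insert (insert a (insert b W)) (insert {p} ((F.erase M).erase W)),
      L ≠ insert a (insert b W) → ∀ Y ⊆ U,
      Y.card ≤ (nbF (gr B) (insert (insert a (insert b W)) (insert {p} ((F.erase M).erase W)) \
        {insert a (insert b W), L}) Y).card := by
  have haF : ∀ L ∈ F, a ∉ L := fun L hL h1 => h.ex.xD (h.frm.FD hL h1)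
  have hnZ : ∀ L ∈ F, L ≠ insert a (insert b W) := by
    rintro L hL rfl
    exact haF _ hL (mem_insert_self _ _)
  intro L hL hne Y hY
  rcases mem_insert.1 hL with h1 | h1
  · exact absurd h1 hne
  rcases mem_insert.1 h1 with rfl | h1
  · refine (h.hfree W h.hW h.hne Y hY).trans (card_le_card fun L hL => ?_)
    obtain ⟨h7, z, hz, y, hy, hzy⟩ := mem_nbF.1 hL
    obtain ⟨h8, h9⟩ := mem_sdiff.1 h7
    rw [mem_insert, mem_singleton, not_or] at h9
    refine mem_nbF.2 ⟨mem_sdiff.2 ⟨mem_insert_of_mem (mem_insert_of_mem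
      (mem_erase.2 ⟨h9.2, mem_erase.2 ⟨h9.1, h8⟩⟩)), ?_⟩, z, hz, y, hy, hzy⟩
    rw [mem_insert, mem_singleton, not_or]
    refine ⟨hnZ L h8, ?_⟩
    rintro rfl
    exact h.Fs_not.1 (mem_erase.2 ⟨h9.2, mem_erase.2 ⟨h9.1, h8⟩⟩)
  · obtain ⟨h2, h3⟩ := mem_erase.1 h1
    obtain ⟨h4, h5⟩ := mem_erase.1 h3
    refine (h.hfree L h5 h4 Y hY).trans (card_le_card fun N hN => ?_)
    obtain ⟨h7, z, hz, y, hy, hzy⟩ := mem_nbF.1 hN
    obtain ⟨h8, h9⟩ := mem_sdiff.1 h7
    rw [mem_insert, mem_singleton, not_or] at h9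
    have hNW : N ≠ W := by
      rintro rfl
      exact hU z (hY hz) y hy hzy
    refine mem_nbF.2 ⟨mem_sdiff.2 ⟨mem_insert_of_mem (mem_insert_of_mem
      (mem_erase.2 ⟨hNW, mem_erase.2 ⟨h9.1, h8⟩⟩)), ?_⟩, z, hz, y, hy, hzy⟩
    rw [mem_insert, mem_singleton, not_or]
    exact ⟨hnZ N h8, h9.2⟩

omit [Fintype ι] in
/-- what a point sees in the exchanged frame if it sees no leaf except `W`. -/
theorem see_new (h : NxE B Q T U F i j M W a b c m m' p) {q : V} (hq : slf B F q ⊆ {W}) :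
    ∀ L ∈ insert (insert a (insert b W)) (insert {p} ((F.erase M).erase W)),
      L ≠ insert a (insert b W) → ∀ y ∈ L, ¬ (gr B).Adj q y := by
  intro L hL hne y hy hqy
  rcases mem_insert.1 hL with h1 | h1
  · exact hne h1
  rcases mem_insert.1 h1 with rfl | h1
  · have h2 := mem_singleton.1 (hq (mem_slf.2 ⟨h.ex.hW, p, h.pM.1, mem_singleton.1 hy ▸ hqy⟩))
    exact h.hne h2.symm
  · obtain ⟨h2, h3⟩ := mem_erase.1 h1
    exact h2 (mem_singleton.1 (hq (mem_slf.2 ⟨(mem_erase.1 h3).2, y, hy, hqy⟩)))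

/-- **a triple with a full hit at the new leaf** and a point `q` which sees at most `W`: the third point
sees at most `W` and two points of `M`. -/
theorem dead [DecidableEq ι] (h : NxE B Q T U F i j M W a b c m m' p) (hm : MTE B Q T U F)
    (hW1 : W.card = 1) (hU : ∀ u ∈ U, ∀ y ∈ W, ¬ (gr B).Adj u y) {k : ι} (hk : k ∈ T)
    (hkj : k ≠ j) {t q r : V} (hTk : B k ∩ Q = {t, q, r}) (hq : slf B F q ⊆ {W}) {l : ι}
    (ht : t ∈ B l) (hl : (B l ∩ insert a (insert b W)).card = 2) :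
    slf B F r ⊆ {W, M} ∧ ¬ (gr B).Adj r p := by
  have key : ∀ L ∈ insert (insert a (insert b W)) (insert {p} ((F.erase M).erase W)),
      L ≠ insert a (insert b W) → ∀ y ∈ L, ¬ (gr B).Adj r y := by
    intro L hL hne y hy hry
    exact (h.new_mte hm).no_full3 (mem_insert_of_mem (mem_erase.2 ⟨hkj, hk⟩))
      (mem_insert_self _ _) (by rw [h.Z_card, hW1]) (h.free_new hU) hTk ht hl (h.see_new hq)
      ⟨L, hL, hne, y, hy, hry⟩
  have haF : ∀ L ∈ F, a ∉ L := fun L hL h1 => h.ex.xD (h.frm.FD hL h1)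
  constructor
  · intro L hL
    obtain ⟨h1, y, hy, hry⟩ := mem_slf.1 hL
    rw [mem_insert, mem_singleton]
    by_contra hcon
    rw [not_or] at hcon
    refine key L (mem_insert_of_mem (mem_insert_of_mem (mem_erase.2 ⟨hcon.1,
      mem_erase.2 ⟨hcon.2, h1⟩⟩))) ?_ y hy hry
    rintro rfl
    exact haF _ h1 (mem_insert_self _ _)
  · refine key {p} (mem_insert_of_mem (mem_insert_self _ _)) ?_ p (mem_singleton_self p)
    intro he
    have h1 : a ∈ ({p} : Finset V) := he ▸ mem_insert_self _ _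
    exact haF M h.ex.hW (mem_singleton.1 h1 ▸ h.pM.1)

/-- **no full hit at the other leaves**: `t` has a full hit at the new leaf, then another point of the
triple has no block with two points of another leaf. -/
theorem first [DecidableEq ι] (h : NxE B Q T U F i j M W a b c m m' p) (hm : MTE B Q T U F)
    (hU : ∀ u ∈ U, ∀ y ∈ W, ¬ (gr B).Adj u y) {k : ι} (hk : k ∈ T) (hkj : k ≠ j) {t z : V}
    (htk : t ∈ B k ∩ Q) (hzk : z ∈ B k ∩ Q) (htz : t ≠ z) {l : ι} (ht : t ∈ B l)
    (hl : (B l ∩ insert a (insert b W)).card = 2) {L : Finset V} (hL : L ∈ F) (hLW : L ≠ W)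
    (hLM : L ≠ M) {l' : ι} (hz : z ∈ B l') : (B l' ∩ L).card ≠ 2 := by
  intro h2
  have haF : ∀ L ∈ F, a ∉ L := fun L hL h1 => h.ex.xD (h.frm.FD hL h1)
  have hLZ : L ≠ insert a (insert b W) := by
    rintro rfl
    exact haF _ hL (mem_insert_self _ _)
  have hL1 : L ∈ insert (insert a (insert b W)) (insert {p} ((F.erase M).erase W)) :=
    mem_insert_of_mem (mem_insert_of_mem (mem_erase.2 ⟨hLW, mem_erase.2 ⟨hLM, hL⟩⟩))
  have hm1 := h.new_mte hm
  have h3 := hm1.frm.weak_of_two (W := L) (M := insert a (insert b W)) (i := l') (i' := l) (j := k)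
    (x := t) (z := z) hL1 (mem_insert_self _ _) hLZ (fun Y hY => by
      rw [pair_comm]
      exact h.free_new hU L hL1 hLZ Y hY) (mem_insert_of_mem (mem_erase.2 ⟨hkj, hk⟩)) htz htk hzk
      hz ht h2 (card_pos.1 (by omega))
  have h4 : B l ∩ insert a (insert b W) ⊆ B l ∩ Dp B Q (insert i (T.erase j)) :=
    inter_subset_inter_left (hm1.frm.FD (mem_insert_self _ _))
  have h5 := card_le_card h4
  omega

end NxE

end Pool.Agent.Hyp6
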