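import Pool.Agent.Hyp6.L3N5
import Pool.Agent.Hyp6.L3Za
import Pool.Agent.Hyp6.L3Vc
import Pool.Agent.Hyp6.L3T4

/-!
# HYP6 L3Fz: the other triples at the centre of a triple of type B with five hits and a full hit

`Fzs`: a triple `{a, b, c}` of type B centred at its own point `x`, hits `(3 | 2)`, the third point
with a full hit on an own leaf `M` with three points and one single trace. Every hit of another triple
on `x` is a full hit on the leaf `{x, a, b}` of the exchanged frame. `Fzs.types`: every hit of a triple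
on `x` pays `24` except the hits of the third point of a poor triple centred at another point.
`Fzs.filled`: the three blocks with `x` and `a` are full, or another triple has two points on `x`.
`StgR.full_z`: the payments at `x`.
-/

set_option autoImplicit false

namespace Pool.Agent.Hyp6

open Finset Pool.Agent.Hyp5 Rt

universe u v

variable {V : Type v} [DecidableEq V] {ι : Type u} [Fintype ι] [DecidableEq ι] {B : ι → Finset V}

/-- the setting of a triple with five hits at the point `x` and a full hit of the third point. -/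
structure Fzs (B : ι → Finset V) (Q : Finset V) (T : Finset ι) (U : Finset V)
    (F : Finset (Finset V)) (P : Finset (Finset (Finset V))) (al : V → Finset (Finset V) → ℕ)
    (i j : ι) (M : Finset V) (a b c m m' p x : V) : Prop where
  s : StgR B Q T U F P al
  hx : Xf B Q T U F j a b c x
  hn : NxE B Q T U F i j M {x} a b c m m' p
  M1 : nt B M 1 = 1
  MP : {M} ∈ P
  xP : {{x}} ∈ P
  hA : aC B Q T U F P {{x}} = ∅
  hK : Sp.Kin (Rg B Q T U F) (slj B Q F) {{x}} = ∅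
  g0 : hit B U {x} = 0
  e0 : ee B Q {x} = 0

namespace Fzs

variable {Q U : Finset V} {T : Finset ι} {F : Finset (Finset V)}
  {P : Finset (Finset (Finset V))} {al : V → Finset (Finset V) → ℕ} {i j : ι} {M : Finset V}
  {a b c m m' p x : V}

/-- no point of `U` sees `x`. -/
theorem noU (h : Fzs B Q T U F P al i j M a b c m m' p x) :
    ∀ u ∈ U, ∀ y ∈ ({x} : Finset V), ¬ (gr B).Adj u y := by
  intro u hu y hy hadj
  rw [mem_singleton] at hy
  subst hy
  obtain ⟨_, l, h1, h2⟩ := hadj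
  have h3 := h.g0
  unfold hit at h3
  have h4 := (sum_eq_zero_iff.1 h3) l
    (cost_mem_tch.2 ⟨y, mem_inter.2 ⟨h2, mem_singleton_self y⟩⟩)
  rw [card_eq_zero] at h4
  have h5 : u ∈ B l ∩ U := mem_inter.2 ⟨h1, hu⟩
  rw [h4] at h5
  exact notMem_empty _ h5

/-- a point of another triple is none of the points. -/
theorem ne_pts (h : Fzs B Q T U F P al i j M a b c m m' p x) {k : ι} (hk : k ∈ T) (hkj : k ≠ j)
    {t : V} (htk : t ∈ B k ∩ Q) : t ≠ a ∧ t ≠ b ∧ t ≠ c ∧ t ≠ x := by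
  obtain ⟨ma, mb, mc⟩ := h.hx.mj
  have hdj := h.hx.frm.mtp.tpk.pack.disj j h.hx.hj k hk hkj.symm
  have hta : ∀ z ∈ B j ∩ Q, t ≠ z := fun z hz he => disjoint_left.1 hdj hz (he ▸ htk)
  exact ⟨hta a ma, hta b mb, hta c mc, fun he => Frm.T_notD (Q := Q) hk (mem_inter.1 htk).1
    (he ▸ h.hx.frm.FD h.hx.xF (mem_singleton_self x))⟩

/-- **every hit on `x` is a full hit on the new leaf**. -/
theorem full (h : Fzs B Q T U F P al i j M a b c m m' p x) {k l : ι} (hk : k ∈ T) (hkj : k ≠ j)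
    {t : V} (htk : t ∈ B k ∩ Q) (hxl : x ∈ B l) (htl : t ∈ B l) :
    (B l ∩ insert a (insert b {x})).card = 2 := by
  have hr := h.s.viol.reg
  obtain ⟨ma, mb, mc⟩ := h.hx.mj
  obtain ⟨hta, htb, _, htx⟩ := h.ne_pts hk hkj htk
  have hxj := h.hx.xj
  obtain ⟨z, hz, hzl, hzj⟩ : ∃ z, (z = a ∨ z = b) ∧ z ∈ B l ∧ z ∈ B j ∩ Q := by
    rcases h.hx.x_ab hr hxl with h1 | h1
    · exact ⟨a, Or.inl rfl, h1, ma⟩
    · exact ⟨b, Or.inr rfl, h1, mb⟩
  have hzx : z ≠ x := fun he => hxj (he ▸ (mem_inter.1 hzj).1)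
  have e1 : ({x, z} : Finset V) ⊆ B l ∩ insert a (insert b {x}) := by
    intro y hy
    rcases mem_insert.1 hy with h1 | h1
    · exact mem_inter.2 ⟨h1 ▸ hxl, by rw [h1]; simp⟩
    · rw [mem_singleton.1 h1]
      refine mem_inter.2 ⟨hzl, ?_⟩
      rcases hz with rfl | rfl <;> simp
  have e2 := card_le_card e1
  rw [card_pair hzx.symm] at e2
  have e3 : insert t (B l ∩ insert a (insert b {x})) ⊆ B l ∩ Q := by
    refine insert_subset (mem_inter.2 ⟨htl, (mem_inter.1 htk).2⟩) (inter_subset_inter_left ?_)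
    intro y hy
    simp only [mem_insert, mem_singleton] at hy
    rcases hy with rfl | rfl | rfl
    · exact (mem_inter.1 ma).2
    · exact (mem_inter.1 mb).2
    · exact h.hx.xQ
  have e4 := card_le_card e3
  have htn : t ∉ B l ∩ insert a (insert b {x}) := by
    intro h1
    have h2 := (mem_inter.1 h1).2
    simp only [mem_insert, mem_singleton] at h2
    rcases h2 with h2 | h2 | h2
    · exact hta h2
    · exact htb h2
    · exact htx h2
  rw [card_insert_of_notMem htn] at e4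
  have e5 := h.hx.frm.reg3 l
  omega

/-- a triple with a point on `x` and a point which sees at most `{x}`. -/
theorem dead1 (h : Fzs B Q T U F P al i j M a b c m m' p x) {k l : ι} (hk : k ∈ T) (hkj : k ≠ j)
    {t q r : V} (hTk : B k ∩ Q = {t, q, r}) (hq : slf B F q ⊆ {{x}}) (hxl : x ∈ B l)
    (htl : t ∈ B l) : slf B F r ⊆ {{x}, M} :=
  (h.hn.dead h.s.mtr.toMTE (card_singleton x) h.noU hk hkj hTk hq htl
    (h.full hk hkj (by rw [hTk]; simp) hxl htl)).1

/-- a remaining triple sees more than `{x}` and `M`. -/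
theorem rank2 (h : Fzs B Q T U F P al i j M a b c m m' p x) {k : ι}
    (hk : k ∈ Trs B Q T (Rg B Q T U F) U F P) (h0 : ja B Q (Ep B Q T U F) k = 0)
    (hne : (slj B Q F k).Nonempty) (hs : ∀ v ∈ B k ∩ Q, slf B F v ⊆ {{x}, M}) : False := by
  have h1 := h.s.toStg.rank_trs hk h0 hne
  have h2 := h.s.mcj_sub_two (h.s.toStg.own_par h.xP) (h.s.toStg.own_par h.MP) (k := k)
    (fun v hv => by
      refine (hs v hv).trans ?_
      intro L hL
      rcases mem_insert.1 hL with h3 | h3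
      · rw [h3]
        exact mem_union_left _ (mem_singleton_self _)
      · rw [mem_singleton.1 h3]
        exact mem_union_right _ (mem_singleton_self _))
  omega

/-- the points on `x`. -/
theorem see (h : Fzs B Q T U F P al i j M a b c m m' p x) {k : ι} (hk : k ∈ T) {v : V}
    (hv : v ∈ B k ∩ Q) : {x} ∈ slf B F v ↔ ∃ l, x ∈ B l ∧ v ∈ B l := by
  rw [mem_slf]
  constructor
  · rintro ⟨_, y, hy, _, l, h1, h2⟩
    exact ⟨l, mem_singleton.1 hy ▸ h2, h1⟩
  · rintro ⟨l, h1, h2⟩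
    exact ⟨h.hx.xF, x, mem_singleton_self x, fun he =>
      h.s.frm.T_notin hk hv h.hx.xF (he ▸ mem_singleton_self x), l, h2, h1⟩

/-- a triple with hits on `x` has a point on `x`. -/
theorem exists_pt (h : Fzs B Q T U F P al i j M a b c m m' p x) {k : ι} (hk : k ∈ T)
    (hp : 0 < jh B Q k {x}) : ∃ v ∈ B k ∩ Q, ∃ l, x ∈ B l ∧ v ∈ B l := by
  rw [jh_sum] at hp
  obtain ⟨v, hv, h1⟩ := exists_ne_zero_of_sum_ne_zero (Nat.pos_iff_ne_zero.1 hp)
  exact ⟨v, hv, (h.see hk hv).1 ((uh_pos h.hx.xF (h.s.frm.T_notin hk hv h.hx.xF)).1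
    (Nat.pos_of_ne_zero h1))⟩

theorem ne_slj (h : Fzs B Q T U F P al i j M a b c m m' p x) {k : ι} (hk : k ∈ T) {v : V}
    (hv : v ∈ B k ∩ Q) {l : ι} (hxl : x ∈ B l) (hvl : v ∈ B l) : (slj B Q F k).Nonempty :=
  ⟨{x}, mem_biUnion.2 ⟨v, hv, (h.see hk hv).2 ⟨l, hxl, hvl⟩⟩⟩

/-- **no other triple of type B is centred at `x`**. -/
theorem bt_ne (h : Fzs B Q T U F P al i j M a b c m m' p x) {k : ι}
    (hk : k ∈ Trs B Q T (Rg B Q T U F) U F P) (h0 : ja B Q (Ep B Q T U F) k = 0) (hkj : k ≠ j)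
    {a' b' c' : V} {D : Finset (Finset V)} (hB : BT B Q F (par0 B U F) k a' b' c' D) :
    D ≠ {{x}} := by
  rintro rfl
  have hkT := (h.s.frm.types_trs h.s.part hk).1
  obtain ⟨L, hL⟩ := hB.nb
  have hLx := mem_singleton.1 (hB.sb hL)
  rw [hLx] at hL
  have hbk : b' ∈ B k ∩ Q := by rw [hB.eq]; simp
  obtain ⟨l, hxl, hbl⟩ := (h.see hkT hbk).1 hL
  have hT : B k ∩ Q = {b', a', c'} := by
    rw [hB.eq]
    exact insert_comm _ _ _
  have h1 := h.dead1 hkT hkj hT hB.sa hxl hbl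
  refine h.rank2 hk h0 (h.ne_slj hkT hbk hxl hbl) fun v hv => ?_
  have hsub : ({{x}} : Finset (Finset V)) ⊆ {{x}, M} :=
    singleton_subset_iff.2 (mem_insert_self _ _)
  rw [hB.eq, mem_insert, mem_insert, mem_singleton] at hv
  rcases hv with rfl | rfl | rfl
  · exact hB.sa.trans hsub
  · exact hB.sb.trans hsub
  · exact h1

/-- only the third point of a triple of type B centred elsewhere is on `x`. -/
theorem bt_third (h : Fzs B Q T U F P al i j M a b c m m' p x) {k : ι} (hk : k ∈ T)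
    {a' b' c' : V} {D : Finset (Finset V)} (hB : BT B Q F (par0 B U F) k a' b' c' D)
    (hD : D ≠ {{x}}) {v : V} (hv : v ∈ B k ∩ Q) {l : ι} (hxl : x ∈ B l) (hvl : v ∈ B l) :
    v = c' := by
  have hxs := (h.see hk hv).2 ⟨l, hxl, hvl⟩
  have hxp := h.s.toStg.own_par h.xP
  have hno : ¬ slf B F v ⊆ D := fun h1 =>
    disjoint_left.1 (h.s.par.dj hB.mem hxp hD) (h1 hxs) (mem_singleton_self _)
  rw [hB.eq, mem_insert, mem_insert, mem_singleton] at hv
  rcases hv with rfl | rfl | rfl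
  · exact absurd hB.sa hno
  · exact absurd hB.sb hno
  · rfl

/-- **a triple with a dead point which is not of type B has no hit on `x`**. -/
theorem no_dead (h : Fzs B Q T U F P al i j M a b c m m' p x) {k : ι}
    (hk : k ∈ Trs B Q T (Rg B Q T U F) U F P) (h0 : ja B Q (Ep B Q T U F) k = 0) (hkj : k ≠ j)
    (h5 : 5 ≤ ∑ L ∈ F, jh B Q k L) (hd : ∃ p ∈ B k ∩ Q, slf B F p = ∅)
    (hn : ∀ x y z D, ¬ BT B Q F (par0 B U F) k x y z D) : jh B Q k {x} = 0 := by
  by_contra hpos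
  have hkT := (h.s.frm.types_trs h.s.part hk).1
  obtain ⟨q, hq, hqs⟩ := hd
  obtain ⟨t, ht, l, hxl, htl⟩ := h.exists_pt hkT (Nat.pos_of_ne_zero hpos)
  have htx := (h.see hkT ht).2 ⟨l, hxl, htl⟩
  have htq : t ≠ q := by
    rintro rfl
    rw [hqs] at htx
    exact notMem_empty _ htx
  -- the third point
  obtain ⟨r, hTk, htr, hqr⟩ : ∃ r, B k ∩ Q = {t, q, r} ∧ t ≠ r ∧ q ≠ r := by
    obtain ⟨y1, y2, y3, hT, h12, h13, h23⟩ := h.s.frm.three_points hkT
    have h1 : ((B k ∩ Q) \ {t, q}).card = 1 := by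
      have h2 : ({t, q} : Finset V) ⊆ B k ∩ Q := by
        intro z hz
        rcases mem_insert.1 hz with h3 | h3
        · exact h3 ▸ ht
        · exact mem_singleton.1 h3 ▸ hq
      rw [card_sdiff_of_subset h2, card_pair htq, hT,
        card_eq_three.2 ⟨y1, y2, y3, h12, h13, h23, rfl⟩]
    obtain ⟨r, hr⟩ := card_eq_one.1 h1
    have hr1 : r ∈ (B k ∩ Q) \ {t, q} := by rw [hr]; exact mem_singleton_self r
    obtain ⟨hr2, hr3⟩ := mem_sdiff.1 hr1
    rw [mem_insert, mem_singleton, not_or] at hr3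
    refine ⟨r, ?_, fun he => hr3.1 he.symm, fun he => hr3.2 he.symm⟩
    ext z
    simp only [mem_insert, mem_singleton]
    constructor
    · intro hz
      by_cases h2 : z = t
      · exact Or.inl h2
      by_cases h3 : z = q
      · exact Or.inr (Or.inl h3)
      · right
        right
        have h4 : z ∈ (B k ∩ Q) \ {t, q} := mem_sdiff.2 ⟨hz, by simp [h2, h3]⟩
        rw [hr] at h4
        exact mem_singleton.1 h4
    · rintro (rfl | rfl | rfl) <;> assumption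
  have hrk : r ∈ B k ∩ Q := by rw [hTk]; simp
  have hqx : slf B F q ⊆ {{x}} := by
    rw [hqs]
    exact empty_subset _
  have h1 := h.dead1 hkT hkj hTk hqx hxl htl
  have hne := h.ne_slj hkT ht hxl htl
  have hrM : slf B F r ⊆ {M} := by
    intro L hL
    rcases mem_insert.1 (h1 hL) with h2 | h2
    · exfalso
      rw [h2] at hL
      obtain ⟨l', hxl', hrl'⟩ := (h.see hkT hrk).1 hL
      have hT : B k ∩ Q = {r, q, t} := by
        rw [hTk]
        ext z
        simp only [mem_insert, mem_singleton]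
        tauto
      have h3 := h.dead1 hkT hkj hT hqx hxl' hrl'
      refine h.rank2 hk h0 hne fun v hv => ?_
      rw [hTk, mem_insert, mem_insert, mem_singleton] at hv
      rcases hv with rfl | rfl | rfl
      · exact h3
      · rw [hqs]
        exact empty_subset _
      · exact h1
    · exact h2
  have hMx : ({x} : Finset V) ≠ M := h.hn.hne
  rcases (slf B F r).eq_empty_or_nonempty with h2 | h2
  · -- only `t` has hits
    have e3 : ∑ L ∈ F, jh B Q k L = ∑ v ∈ B k ∩ Q, ∑ L ∈ F, uh B v L := by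
      rw [sum_comm]
      exact sum_congr rfl fun L _ => jh_sum Q k L
    have hz : ∀ v ∈ B k ∩ Q, slf B F v = ∅ → ∑ L ∈ F, uh B v L = 0 := by
      intro v hv hs
      refine sum_eq_zero fun L hL => uh_zero hL (h.s.frm.T_notin hkT hv hL) ?_
      rw [hs]
      exact notMem_empty _
    rw [e3, hTk, sum_insert (by simp [htq, htr]), sum_pair hqr, hz q hq hqs, hz r hrk h2] at h5
    have h6 := h.s.frm.four_t h.s.viol.reg hkT ht
    omega
  · refine hn q r t {M} ⟨?_, hqr, htq.symm, htr.symm, h2, h.s.toStg.own_par h.MP, ?_, hrM, ?_⟩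
    · rw [hTk]
      ext z
      simp only [mem_insert, mem_singleton]
      tauto
    · rw [hqs]
      exact empty_subset _
    · intro h3
      exact hMx (mem_singleton.1 (h3 htx))

/-- **no full hit at the centre** of a triple with a hit on `x`. -/
theorem no_poorF (h : Fzs B Q T U F P al i j M a b c m m' p x) {k : ι}
    (hk : k ∈ Trs B Q T (Rg B Q T U F) U F P) (h0 : ja B Q (Ep B Q T U F) k = 0) (hkj : k ≠ j)
    {a' b' c' : V} {D : Finset (Finset V)} (hB : BT B Q F (par0 B U F) k a' b' c' D)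
    (hp : 0 < jh B Q k {x}) : ¬ PoorF B a' b' D := by
  rintro ⟨L, hL, l', hl', h2⟩
  have hkT := (h.s.frm.types_trs h.s.part hk).1
  have hD := h.bt_ne hk h0 hkj hB
  obtain ⟨t, ht, l, hxl, htl⟩ := h.exists_pt hkT hp
  have htc := h.bt_third hkT hB hD ht hxl htl
  subst htc
  have hLF : L ∈ F := h.s.par.sub hB.mem hL
  have hxp := h.s.toStg.own_par h.xP
  have hMp := h.s.toStg.own_par h.MP
  obtain ⟨z, hz, hzl⟩ : ∃ z, (z = a' ∨ z = b') ∧ z ∈ B l' := by
    rcases hl' with h3 | h3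
    · exact ⟨a', Or.inl rfl, h3⟩
    · exact ⟨b', Or.inr rfl, h3⟩
  have hzk : z ∈ B k ∩ Q := by
    rw [hB.eq]
    rcases hz with rfl | rfl <;> simp
  have hzt : t ≠ z := by
    rcases hz with rfl | rfl
    · exact hB.ac.symm
    · exact hB.bc.symm
  have hzL : z ∉ L := h.s.frm.T_notin hkT hzk hLF
  by_cases hLM : L = M
  · subst hLM
    have hDM : D = {L} := by
      by_contra hne
      exact disjoint_left.1 (h.s.par.dj hB.mem hMp hne) hL (mem_singleton_self L)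
    subst hDM
    have hne := h.ne_slj hkT ht hxl htl
    have h3 := h.s.mte.pair_hit h.s.frm.sur h.s.par hB.mem h.hn.hM3.le hkT hB.eq hB.sa hB.sb
      (h.s.toStg.rank_trs hk h0 hne) (i := l') (card_pos.1 (by omega))
      ⟨z, mem_inter.2 ⟨hzl, by rcases hz with rfl | rfl <;> simp⟩⟩
    omega
  · have hLx : L ≠ {x} := by
      rintro rfl
      exact disjoint_left.1 (h.s.par.dj hB.mem hxp hD) hL (mem_singleton_self _)
    refine h.hn.first h.s.mtr.toMTE h.noU hkT hkj ht hzk hzt htl (h.full hkT hkj ht hxl htl) hLF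
      hLx hLM hzl ?_
    have h3 : insert z (B l' ∩ L) ⊆ B l' ∩ Q := insert_subset
      (mem_inter.2 ⟨hzl, (mem_inter.1 hzk).2⟩) (inter_subset_inter_left (h.s.frm.FQ hLF))
    have h4 := card_le_card h3
    rw [card_insert_of_notMem (fun h5 => hzL (mem_inter.1 h5).2)] at h4
    have h5 := h.s.frm.reg3 l'
    omega

/-- a triple of type B with a dead point and a hit on `x` has at most five hits. -/
theorem bt_dead (h : Fzs B Q T U F P al i j M a b c m m' p x) {k : ι}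
    (hk : k ∈ Trs B Q T (Rg B Q T U F) U F P) (h0 : ja B Q (Ep B Q T U F) k = 0) (hkj : k ≠ j)
    {a' b' c' : V} {D : Finset (Finset V)} (hB : BT B Q F (par0 B U F) k a' b' c' D)
    (ha : slf B F a' = ∅) (hp : 0 < jh B Q k {x}) : ∑ L ∈ F, jh B Q k L ≤ 5 := by
  have hkT := (h.s.frm.types_trs h.s.part hk).1
  have hD := h.bt_ne hk h0 hkj hB
  obtain ⟨t, ht, l, hxl, htl⟩ := h.exists_pt hkT hp
  have htc := h.bt_third hkT hB hD ht hxl htl
  subst htc
  have hxp := h.s.toStg.own_par h.xP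
  have hMp := h.s.toStg.own_par h.MP
  have hT : B k ∩ Q = {t, a', b'} := by
    rw [hB.eq]
    ext z
    simp only [mem_insert, mem_singleton]
    tauto
  have h1 := h.dead1 hkT hkj hT (by rw [ha]; exact empty_subset _) hxl htl
  obtain ⟨L, hL⟩ := hB.nb
  have hLD := hB.sb hL
  have hDM : D = {M} := by
    rcases mem_insert.1 (h1 hL) with h2 | h2
    · exfalso
      rw [h2] at hLD
      exact disjoint_left.1 (h.s.par.dj hB.mem hxp hD) hLD (mem_singleton_self _)
    · rw [mem_singleton.1 h2] at hLD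
      by_contra hne
      exact disjoint_left.1 (h.s.par.dj hB.mem hMp hne) hLD (mem_singleton_self M)
  subst hDM
  have hne := h.ne_slj hkT ht hxl htl
  have h3 := h.s.toStg.bt_hit h.hn.hM3.le hkT (h.s.toStg.rank_trs hk h0 hne) hB
  rw [h.M1] at h3
  have hMF : M ∈ F := h.hn.ex.hW
  have e3 : ∑ L ∈ F, jh B Q k L = ∑ v ∈ B k ∩ Q, ∑ L ∈ F, uh B v L := by
    rw [sum_comm]
    exact sum_congr rfl fun L _ => jh_sum Q k L
  have hz : ∀ v ∈ B k ∩ Q, slf B F v ⊆ {M} → ∑ L ∈ F, uh B v L = uh B v M := by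
    intro v hv hs
    refine sum_eq_single_of_mem M hMF fun L hL hne => uh_zero hL (h.s.frm.T_notin hkT hv hL) ?_
    intro h4
    exact hne (mem_singleton.1 (hs h4))
  have hak : a' ∈ B k ∩ Q := by rw [hB.eq]; simp
  have hbk : b' ∈ B k ∩ Q := by rw [hB.eq]; simp
  rw [e3, hB.eq, sum_insert (by simp [hB.ab, hB.ac]), sum_pair hB.bc, hz a' hak hB.sa,
    hz b' hbk hB.sb]
  have h6 := h.s.frm.four_t h.s.viol.reg hkT ht
  omega

/-- **the payments of the other triples at `x`**. -/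
theorem types (h : Fzs B Q T U F P al i j M a b c m m' p x) {k : ι}
    (hk : k ∈ Trs B Q T (Rg B Q T U F) U F P) (hkj : k ≠ j) :
    144 * (jh B Q k {x} : ℤ) - Xv 149 B Q T U F P k {{x}} ≤ -56 * (jh B Q k {x} : ℤ) ∨
    ((∃ c', ∀ v ∈ B k ∩ Q, ∀ l, x ∈ B l → v ∈ B l → v = c') ∧
      144 * (jh B Q k {x} : ℤ) - Xv 149 B Q T U F P k {{x}} ≤ -24 * (jh B Q k {x} : ℤ)) ∨
    (ja B Q (Ep B Q T U F) k = 0 ∧ ∃ a' b' c' w, BT B Q F (par0 B U F) k a' b' c' {{w}} ∧ w ≠ x ∧
      uh B a' {w} + uh B b' {w} + 2 * ee B Q {w} = 5 ∧ ∑ L ∈ F, uh B c' L = 4 ∧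
      (∀ v ∈ B k ∩ Q, ∀ l, x ∈ B l → v ∈ B l → v = c') ∧
      144 * (jh B Q k {x} : ℤ) - Xv 149 B Q T U F P k {{x}} ≤ -5 * (jh B Q k {x} : ℤ)) := by
  have hkT := (h.s.frm.types_trs h.s.part hk).1
  have hnn : (0 : ℤ) ≤ (jh B Q k {x} : ℤ) := by positivity
  have hpt : ∀ {r : ℤ}, 144 * (jh B Q k {x} : ℤ) - Xv 149 B Q T U F P k {{x}} =
      r * (jh B Q k {x} : ℤ) → jh B Q k {x} = 0 →
      144 * (jh B Q k {x} : ℤ) - Xv 149 B Q T U F P k {{x}} ≤ -56 * (jh B Q k {x} : ℤ) := by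
    intro r h1 h2
    rw [h1, h2]
    simp
  rcases h.s.toStg.trs_term 149 hk h.xP with ⟨_, _, h1⟩ | ⟨_, _, _, h1⟩ |
    ⟨h0, h5, x', y', z', D, hB, hn, _, h1⟩ | ⟨h0, _, x', y', z', D, hB, hD, _⟩ |
    ⟨h0, h5, _, _, hd, hn, h1⟩ | ⟨_, _, h1⟩ | ⟨hcl, h0, h5, _, h6, h1⟩
  · rw [h.s.toStg.jC_one] at h1
    left
    linarith
  · rw [h.s.toStg.jC_one] at h1
    left
    linarith
  · rw [h.s.toStg.jC_one] at h1
    rcases Nat.eq_zero_or_pos (jh B Q k {x}) with hz | hz
    · exact Or.inl (hpt h1 hz)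
    have hD : D ≠ {{x}} := fun he => hn he.le
    have hth : ∀ v ∈ B k ∩ Q, ∀ l, x ∈ B l → v ∈ B l → v = z' := fun v hv l hxl hvl =>
      h.bt_third hkT hB.toBT hD hv hxl hvl
    have hnF := h.no_poorF hk h0 hkj hB.toBT hz
    have hpo : PoorP B Q U F P x' y' z' D → rB B Q T U F P x' y' z' D ≤ 163 →
        149 ≤ rB B Q T U F P x' y' z' D →
        (ja B Q (Ep B Q T U F) k = 0 ∧ ∃ a' b' c' w, BT B Q F (par0 B U F) k a' b' c' {{w}} ∧
          w ≠ x ∧ uh B a' {w} + uh B b' {w} + 2 * ee B Q {w} = 5 ∧ ∑ L ∈ F, uh B c' L = 4 ∧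
          (∀ v ∈ B k ∩ Q, ∀ l, x ∈ B l → v ∈ B l → v = c') ∧
          144 * (jh B Q k {x} : ℤ) - Xv 149 B Q T U F P k {{x}} ≤
            -5 * (jh B Q k {x} : ℤ)) := by
      rintro ⟨h2, W, rfl, hWP, hW1, _, h3⟩ _ h5
      obtain ⟨w, rfl⟩ := card_eq_one.1 hW1
      refine ⟨h0, x', y', z', w, hB.toBT, fun he => hD (by rw [he]), h3, h2, hth, ?_⟩
      rw [h1]
      exact mul_le_mul_of_nonneg_right (by linarith) hnn
    rcases Frm.rB_cases (B := B) Q T U F P x' y' z' D with ⟨hr, _⟩ | ⟨hr, h2⟩ | ⟨hr, _, h2, _⟩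
    · right
      left
      refine ⟨⟨z', hth⟩, ?_⟩
      rw [h1, hr]
      norm_num
    · rcases h2 with h2 | ⟨h2, _⟩
      · exact absurd h2 hnF
      · exact Or.inr (Or.inr (hpo h2 (by rw [hr]; norm_num) (by rw [hr])))
    · exact Or.inr (Or.inr (hpo h2 (by rw [hr]) (by rw [hr]; norm_num)))
  · exfalso
    refine h.bt_ne hk h0 hkj hB.toBT (Subset.antisymm hD ?_)
    obtain ⟨L, hL⟩ := h.s.par.ne hB.mem
    rw [singleton_subset_iff, ← mem_singleton.1 (hD hL)]
    exact hL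
  · rw [h.s.toStg.jC_one] at h1
    exact Or.inl (hpt h1 (h.no_dead hk h0 hkj h5 hd hn))
  · rw [h.s.toStg.jC_one] at h1
    left
    linarith
  · rw [h.s.toStg.jC_one] at h1
    left
    rcases h6 with ⟨hd, hn⟩ | ⟨a', b', c', D, hB, h7⟩
    · exact hpt h1 (h.no_dead hk h0 hkj h5 hd hn)
    rcases Nat.eq_zero_or_pos (jh B Q k {x}) with hz | hz
    · exact hpt h1 hz
    obtain ⟨t, ht, l, hxl, htl⟩ := h.exists_pt hkT hz
    have hne := h.ne_slj hkT ht hxl htl
    have h8 := h.bt_dead hk h0 hkj hB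
      (h.s.bt_exc_dead hkT (h.s.toStg.rank_trs hk h0 hne) hB h7) hz
    have h9 : vC 149 (∑ L ∈ F, jh B Q k L) = 200 := by
      unfold vC
      rw [if_pos h8]
    rw [h1, h9]
    norm_num

/-- the surplus is not negative. -/
theorem z_nn (h : Fzs B Q T U F P al i j M a b c m m' p x) {k : ι}
    (hk : k ∈ Trs B Q T (Rg B Q T U F) U F P) (hkj : k ≠ j) :
    144 * (jh B Q k {x} : ℤ) - Xv 149 B Q T U F P k {{x}} ≤ -5 * (jh B Q k {x} : ℤ) := by
  have hnn : (0 : ℤ) ≤ (jh B Q k {x} : ℤ) := by positivity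
  rcases h.types hk hkj with h1 | ⟨_, h1⟩ | ⟨_, _, _, _, _, _, _, _, _, _, h1⟩ <;> linarith

end Fzs

namespace Fzs

variable {Q U : Finset V} {T : Finset ι} {F : Finset (Finset V)}
  {P : Finset (Finset (Finset V))} {al : V → Finset (Finset V) → ℕ} {i j : ι} {M : Finset V}
  {a b c m m' p x : V}

/-- the hits of the triple itself. -/
theorem jh_j (h : Fzs B Q T U F P al i j M a b c m m' p x) :
    jh B Q j {x} = 5 + uh B c {x} := by
  obtain ⟨hab, hac, hbc⟩ := h.hx.ne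
  rw [jh_sum, h.hx.jQ, sum_insert (by simp [hab, hac]), sum_pair hbc, h.hx.ha, h.hx.hb]
  omega

/-- the triple itself is a remaining triple. -/
theorem j_mem (h : Fzs B Q T U F P al i j M a b c m m' p x) :
    j ∈ Trs B Q T (Rg B Q T U F) U F P :=
  h.s.toStg.trs_of_hit h.xP h.hA h.hK h.hx.hj (by rw [h.jh_j]; omega)

/-- **the number of hits on `x`**. -/
theorem hits (h : Fzs B Q T U F P al i j M a b c m m' p x) :
    ∑ k ∈ Trs B Q T (Rg B Q T U F) U F P, (jh B Q k {x} : ℤ) + fs B Q {x} = 10 := by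
  have hr := h.s.viol.reg
  have h1 := h.s.frm.leaf_places hr h.hx.xF
  have h0 : (univ.filter (fun k => x ∈ B k)).card = 5 := hr x h.hx.xQ
  have h2 : cm B ({x} : Finset V) = 5 := by
    unfold Hyp6.cm
    rw [← h0]
    congr 1
    ext j
    rw [cost_mem_tch, mem_filter]
    constructor
    · rintro ⟨z, hz⟩
      obtain ⟨h4, h5⟩ := mem_inter.1 hz
      rw [mem_singleton.1 h5] at h4
      exact ⟨mem_univ _, h4⟩
    · rintro ⟨_, h4⟩
      exact ⟨x, mem_inter.2 ⟨h4, mem_singleton_self x⟩⟩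
  have h3 : ∑ k ∈ Trs B Q T (Rg B Q T U F) U F P, (jh B Q k {x} : ℤ) =
      ∑ k ∈ T, (jh B Q k {x} : ℤ) := by
    refine sum_subset (fun k hk => (h.s.frm.types_trs h.s.part hk).1) fun k hk hn => ?_
    by_contra hne
    exact hn (h.s.toStg.trs_of_hit h.xP h.hA h.hK hk
      (Nat.pos_of_ne_zero fun h4 => hne (by rw [h4]; rfl)))
  unfold hc at h1
  rw [h2, card_singleton, h.g0] at h1
  rw [h3]
  push_cast at h1
  linarith

/-- the hits on the blocks with `x` and `a`. -/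
theorem ax_le (_h : Fzs B Q T U F P al i j M a b c m m' p x) (k : ι) :
    ∑ l ∈ univ.filter (fun l => x ∈ B l ∧ a ∈ B l), (B l ∩ (B k ∩ Q)).card ≤ jh B Q k {x} := by
  unfold jh hit
  refine sum_le_sum_of_subset fun l hl => ?_
  obtain ⟨_, h1, _⟩ := mem_filter.1 hl
  exact cost_mem_tch.2 ⟨x, mem_inter.2 ⟨h1, mem_singleton_self x⟩⟩

/-- a point on a block with `x` and `a`, different from these two. -/
theorem third (h : Fzs B Q T U F P al i j M a b c m m' p x) {l : ι} (hxl : x ∈ B l)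
    (hal : a ∈ B l) {v : V} (hvl : v ∈ B l) (hvQ : v ∈ Q) (hvx : v ≠ x) (hva : v ≠ a) :
    v ≠ b ∧ ∃ k ∈ T, k ≠ j ∧ v ∈ B k := by
  have hr := h.s.viol.reg
  have hvb : v ≠ b := fun he => h.hx.dj l hxl hal (he ▸ hvl)
  have hvc : v ≠ c := fun he => ((h.hx.on_x hr h.s.mtr.toMTQ).2 l hxl (he ▸ hvl)).2 hal
  refine ⟨hvb, ?_⟩
  obtain ⟨k, hk, hvk⟩ := h.s.frm.ct_T h.hx.xF h.g0 hvQ (by rw [mem_singleton]; exact hvx)
    ⟨l, mem_Ez.2 ⟨hvl, x, mem_inter.2 ⟨hxl, mem_singleton_self x⟩⟩⟩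
  refine ⟨k, hk, ?_, hvk⟩
  rintro rfl
  have h1 : v ∈ B k ∩ Q := mem_inter.2 ⟨hvk, hvQ⟩
  rw [h.hx.jQ, mem_insert, mem_insert, mem_singleton] at h1
  rcases h1 with h1 | h1 | h1
  · exact hva h1
  · exact hvb h1
  · exact hvc h1

/-- **the three blocks with `x` and `a` are full**, or another triple has two points on `x`. -/
theorem filled (h : Fzs B Q T U F P al i j M a b c m m' p x) (hfs : fs B Q {x} ≤ 1) :
    (∀ l, x ∈ B l → a ∈ B l → (B l ∩ Q).card = 3) ∨
      ∃ k ∈ T, k ≠ j ∧ ∃ v ∈ B k ∩ Q, ∃ v' ∈ B k ∩ Q, v ≠ v' ∧ (∃ l, x ∈ B l ∧ v ∈ B l) ∧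
        ∃ l, x ∈ B l ∧ v' ∈ B l := by
  by_contra hcon
  rw [not_or] at hcon
  obtain ⟨hcon1, hcon2⟩ := hcon
  push Not at hcon1
  obtain ⟨l3, hx3, ha3, hc3⟩ := hcon1
  have hr := h.s.viol.reg
  obtain ⟨ma, mb, mc⟩ := h.hx.mj
  obtain ⟨hab, hac, hbc⟩ := h.hx.ne
  have hxa : x ≠ a := fun he => h.hx.xj (he ▸ (mem_inter.1 ma).1)
  have hxb : x ≠ b := fun he => h.hx.xj (he ▸ (mem_inter.1 mb).1)
  have hxQ := h.hx.xQ
  have hA3 : (univ.filter fun l => x ∈ B l ∧ a ∈ B l).card = 3 := by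
    rw [← uh_point]
    exact h.hx.ha
  have hB2 : (univ.filter fun l => x ∈ B l ∧ b ∈ B l).card = 2 := by
    rw [← uh_point]
    exact h.hx.hb
  have h3A : l3 ∈ univ.filter fun l => x ∈ B l ∧ a ∈ B l := mem_filter.2 ⟨mem_univ _, hx3, ha3⟩
  obtain ⟨l1, l2, h12, he⟩ := card_eq_two.1
    (show ((univ.filter fun l => x ∈ B l ∧ a ∈ B l).erase l3).card = 2 by
      rw [card_erase_of_mem h3A, hA3])
  have h1m : l1 ∈ (univ.filter fun l => x ∈ B l ∧ a ∈ B l).erase l3 := by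
    rw [he]
    exact mem_insert_self _ _
  have h2m : l2 ∈ (univ.filter fun l => x ∈ B l ∧ a ∈ B l).erase l3 := by
    rw [he]
    exact mem_insert_of_mem (mem_singleton_self _)
  obtain ⟨h13, h1m'⟩ := mem_erase.1 h1m
  obtain ⟨h23, h2m'⟩ := mem_erase.1 h2m
  obtain ⟨_, hx1, ha1⟩ := mem_filter.1 h1m'
  obtain ⟨_, hx2, ha2⟩ := mem_filter.1 h2m'
  have htch : ∀ l, x ∈ B l → l ∈ tch B {x} := fun l hl =>
    cost_mem_tch.2 ⟨x, mem_inter.2 ⟨hl, mem_singleton_self x⟩⟩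
  have hle3 : ∀ l, (B l ∩ Q).card ≤ 3 := h.s.frm.reg3
  -- the block `l1` is full
  have hc1 : (B l1 ∩ Q).card = 3 := by
    have h1 : ∑ l ∈ ({l1, l3} : Finset ι), (3 - ((B l ∩ Q).card : ℤ)) ≤ fs B Q {x} := by
      unfold fs
      refine sum_le_sum_of_subset_of_nonneg ?_ fun l _ _ => ?_
      · intro l hl
        rcases mem_insert.1 hl with h4 | h4
        · exact h4 ▸ htch l1 hx1
        · exact mem_singleton.1 h4 ▸ htch l3 hx3
      · have := hle3 l
        omega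
    rw [sum_pair h13] at h1
    have h2 := hle3 l1
    have h4 := hle3 l3
    omega
  have hsub1 : ({x, a} : Finset V) ⊆ B l1 ∩ Q := by
    intro z hz
    rcases mem_insert.1 hz with h4 | h4
    · exact h4 ▸ mem_inter.2 ⟨hx1, hxQ⟩
    · exact mem_singleton.1 h4 ▸ mem_inter.2 ⟨ha1, (mem_inter.1 ma).2⟩
  obtain ⟨v, hv⟩ := card_eq_one.1 (show ((B l1 ∩ Q) \ {x, a}).card = 1 by
    rw [card_sdiff_of_subset hsub1, card_pair hxa, hc1])
  have hv1 : v ∈ (B l1 ∩ Q) \ {x, a} := by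
    rw [hv]
    exact mem_singleton_self v
  obtain ⟨hv2, hv3⟩ := mem_sdiff.1 hv1
  rw [mem_insert, mem_singleton, not_or] at hv3
  obtain ⟨hvl, hvQ⟩ := mem_inter.1 hv2
  obtain ⟨hvb, t, ht, htj, hvt⟩ := h.third hx1 ha1 hvl hvQ hv3.1 hv3.2
  obtain ⟨i0, i1, h01, hb2⟩ := card_eq_two.1 hB2
  have h0m : i0 ∈ univ.filter fun l => x ∈ B l ∧ b ∈ B l := by
    rw [hb2]
    exact mem_insert_self _ _
  have h1m2 : i1 ∈ univ.filter fun l => x ∈ B l ∧ b ∈ B l := by
    rw [hb2]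
    exact mem_insert_of_mem (mem_singleton_self _)
  obtain ⟨_, h0x, h0b⟩ := mem_filter.1 h0m
  obtain ⟨_, h1x, h1b⟩ := mem_filter.1 h1m2
  have htv : v ∈ B t ∩ Q := mem_inter.2 ⟨hvt, hvQ⟩
  have htx : x ∉ B t := fun h4 => Frm.T_notD (Q := Q) ht h4
    (h.s.frm.FD h.hx.xF (mem_singleton_self x))
  have hdis := h.s.frm.mtp.tpk.pack.disj j h.hx.hj t ht htj.symm
  have hta : a ∉ B t := fun h4 => disjoint_left.1 hdis ma (mem_inter.2 ⟨h4, (mem_inter.1 ma).2⟩)
  refine h.s.viol.r1 (x := x) (p := a) (v := v) (m := b) (i := l1) (k := l2) (i0 := i0)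
    (i1 := i1) (t := t) hxQ (mem_inter.1 ma).2 hvQ (mem_inter.1 mb).2 hxa (Ne.symm hv3.1)
    (Ne.symm hv3.2) hxb.symm hab.symm hvb.symm h.e0 hx1 ha1 hvl hx2 ha2 h0x h1x h0b h1b h01
    (fun h4 => h.hx.dj l2 hx2 ha2 (h4 ▸ h0b)) (fun h4 => h.hx.dj l2 hx2 ha2 (h4 ▸ h1b))
    (fun l hl => ?_) (h.s.frm.mtp.tpk.pack.card t ht) hvt htx hta (fun z hz hzv hz2 => ?_)
  · rcases h.hx.x_ab hr hl with h4 | h4
    · right
      right
      by_cases hl3 : l = l3
      · right
        subst hl3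
        have h5 : ({x, a} : Finset V) ⊆ B l ∩ Q := by
          intro z hz
          rcases mem_insert.1 hz with h6 | h6
          · exact h6 ▸ mem_inter.2 ⟨hx3, hxQ⟩
          · exact mem_singleton.1 h6 ▸ mem_inter.2 ⟨ha3, (mem_inter.1 ma).2⟩
        have h6 := hle3 l
        have h7 : B l ∩ Q = {x, a} := by
          symm
          refine eq_of_subset_of_card_le h5 ?_
          rw [card_pair hxa]
          omega
        rw [h7]
        intro z hz
        rcases mem_insert.1 hz with h8 | h8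
        · rw [h8]
          simp
        · rw [mem_singleton.1 h8]
          simp
      · have h5 : l ∈ (univ.filter fun l => x ∈ B l ∧ a ∈ B l).erase l3 :=
          mem_erase.2 ⟨hl3, mem_filter.2 ⟨mem_univ _, hl, h4⟩⟩
        rw [he, mem_insert, mem_singleton] at h5
        rcases h5 with rfl | rfl
        · right
          intro z hz
          by_cases h6 : z ∈ ({x, a} : Finset V)
          · rcases mem_insert.1 h6 with h8 | h8
            · rw [h8]
              simp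
            · rw [mem_singleton.1 h8]
              simp
          · have h7 : z ∈ (B l ∩ Q) \ {x, a} := mem_sdiff.2 ⟨hz, h6⟩
            rw [hv, mem_singleton] at h7
            rw [h7]
            simp
        · exact Or.inl rfl
    · have h5 : l ∈ univ.filter fun l => x ∈ B l ∧ b ∈ B l :=
        mem_filter.2 ⟨mem_univ _, hl, h4⟩
      rw [hb2, mem_insert, mem_singleton] at h5
      rcases h5 with h5 | h5
      · exact Or.inl h5
      · exact Or.inr (Or.inl h5)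
  · exact hcon2 ⟨t, ht, htj, v, htv, z, hz, fun h4 => hzv h4.symm, ⟨l1, hx1, hvl⟩, l2, hx2, hz2⟩

/-- **the payments of the other triples at `x`**: more than `76` together with the own hits of the
third point. `hT3`: no third point of a poor triple centred at another point is on a block with `x` and
`a`. -/
theorem total (h : Fzs B Q T U F P al i j M a b c m m' p x) (hfs : fs B Q {x} ≤ 1)
    (hT3 : ∀ k ∈ T, k ≠ j → 3 ≤ rkc B U F (par0 B U F) (mcj B Q F (par0 B U F) k) →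
      ∀ a' b' v w, BT B Q F (par0 B U F) k a' b' v {{w}} → w ≠ x →
      uh B a' {w} + uh B b' {w} + 2 * ee B Q {w} = 5 → ∑ L ∈ F, uh B v L = 4 →
      ∀ l, x ∈ B l → a ∈ B l → v ∈ B l → False) :
    76 ≤ ∑ k ∈ (Trs B Q T (Rg B Q T U F) U F P).erase j,
      (Xv 149 B Q T U F P k {{x}} - 144 * (jC B Q k {{x}} : ℤ)) +
        5 * ((jh B Q j {x} : ℤ) - 5) := by
  have hadd := add_sum_erase (Trs B Q T (Rg B Q T U F) U F P) (fun k => (jh B Q k {x} : ℤ))
    h.j_mem
  have hall := h.hits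
  rw [← hadd] at hall
  simp only [h.s.toStg.jC_one]
  set S := (Trs B Q T (Rg B Q T U F) U F P).erase j with hS
  set f : ι → ℤ := fun k => Xv 149 B Q T U F P k {{x}} - 144 * (jh B Q k {x} : ℤ) with hf
  have hj5 : (5 : ℤ) ≤ (jh B Q j {x} : ℤ) := by
    rw [h.jh_j]
    push_cast
    linarith [Int.natCast_nonneg (uh B c {x})]
  have hnn : ∀ k, (0 : ℤ) ≤ (jh B Q k {x} : ℤ) := fun k => by positivity
  have hfn : ∀ k ∈ S, 5 * (jh B Q k {x} : ℤ) ≤ f k := by
    intro k hk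
    obtain ⟨hkj, hkT⟩ := mem_erase.1 hk
    have h1 := h.z_nn hkT hkj
    have h2 : f k = Xv 149 B Q T U F P k {{x}} - 144 * (jh B Q k {x} : ℤ) := rfl
    linarith
  have hm : ∀ k ∈ T, k ≠ j → (∃ v ∈ B k ∩ Q, ∃ l, x ∈ B l ∧ v ∈ B l) → k ∈ S := by
    rintro k hk hkj ⟨v, hv, l, hxl, hvl⟩
    refine mem_erase.2 ⟨hkj, h.s.toStg.trs_of_hit h.xP h.hA h.hK hk ?_⟩
    rw [jh_sum]
    refine lt_of_lt_of_le ((uh_pos h.hx.xF (h.s.frm.T_notin hk hv h.hx.xF)).2
      ((h.see hk hv).2 ⟨l, hxl, hvl⟩)) ?_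
    exact single_le_sum (f := fun v => uh B v {x}) (fun _ _ => Nat.zero_le _) hv
  rcases h.filled hfs with h1 | ⟨k, hk, hkj, v, hv, v', hv', hvv, ⟨l, hxl, hvl⟩, l', hxl', hvl'⟩
  · -- the three blocks with `x` and `a` are full
    set A := univ.filter fun l => x ∈ B l ∧ a ∈ B l with hA
    have hA3 : A.card = 3 := by
      rw [hA, ← uh_point]
      exact h.hx.ha
    have h2 : ∀ k ∈ S, 5 * (jh B Q k {x} : ℤ) +
        19 * ((∑ l ∈ A, (B l ∩ (B k ∩ Q)).card : ℕ) : ℤ) ≤ f k := by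
      intro k hk
      obtain ⟨hkj, hkT⟩ := mem_erase.1 hk
      have hkT' := (h.s.frm.types_trs h.s.part hkT).1
      have h3 : ((∑ l ∈ A, (B l ∩ (B k ∩ Q)).card : ℕ) : ℤ) ≤ (jh B Q k {x} : ℤ) := by
        exact_mod_cast h.ax_le k
      have h4 := hnn k
      have h5 : f k = Xv 149 B Q T U F P k {{x}} - 144 * (jh B Q k {x} : ℤ) := rfl
      rcases h.types hkT hkj with h6 | ⟨_, h6⟩ | ⟨h0, a', b', c', w, hB, hwx, h7, h8, h9, h6⟩
      · linarith
      · linarith
      · have h10 : ∑ l ∈ A, (B l ∩ (B k ∩ Q)).card = 0 := by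
          refine sum_eq_zero fun l hl => ?_
          obtain ⟨_, hxl, hal⟩ := mem_filter.1 hl
          rw [card_eq_zero, eq_empty_iff_forall_notMem]
          intro z hz
          obtain ⟨hzl, hzk⟩ := mem_inter.1 hz
          have h11 := h9 z hzk l hxl hzl
          subst h11
          exact hT3 k hkT' hkj (h.s.toStg.rank_trs hkT h0 (h.ne_slj hkT' hzk hxl hzl)) a' b' z w
            hB hwx h7 h8 l hxl hal hzl
        rw [h10]
        push_cast
        linarith
    have h3 : (3 : ℤ) ≤ ∑ k ∈ S, ((∑ l ∈ A, (B l ∩ (B k ∩ Q)).card : ℕ) : ℤ) := by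
      have e1 : ∑ k ∈ S, ((∑ l ∈ A, (B l ∩ (B k ∩ Q)).card : ℕ) : ℤ) =
          ((∑ l ∈ A, ∑ k ∈ S, (B l ∩ (B k ∩ Q)).card : ℕ) : ℤ) := by
        rw [sum_comm]
        push_cast
        rfl
      have e2 : A.card ≤ ∑ l ∈ A, ∑ k ∈ S, (B l ∩ (B k ∩ Q)).card := by
        rw [card_eq_sum_ones]
        refine sum_le_sum fun l hl => ?_
        obtain ⟨_, hxl, hal⟩ := mem_filter.1 hl
        have h4 := h1 l hxl hal
        obtain ⟨ma, mb, mc⟩ := h.hx.mj
        have hxa : x ≠ a := fun he => h.hx.xj (he ▸ (mem_inter.1 ma).1)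
        obtain ⟨v, hv⟩ : ((B l ∩ Q) \ {x, a}).Nonempty := by
          rw [← card_pos]
          have h5 := le_card_sdiff ({x, a} : Finset V) (B l ∩ Q)
          rw [card_pair hxa, h4] at h5
          omega
        obtain ⟨hv2, hv3⟩ := mem_sdiff.1 hv
        rw [mem_insert, mem_singleton, not_or] at hv3
        obtain ⟨hvl, hvQ⟩ := mem_inter.1 hv2
        obtain ⟨_, k, hk, hkj, hvk⟩ := h.third hxl hal hvl hvQ hv3.1 hv3.2
        have hvk' : v ∈ B k ∩ Q := mem_inter.2 ⟨hvk, hvQ⟩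
        have h5 : 1 ≤ (B l ∩ (B k ∩ Q)).card := card_pos.2 ⟨v, mem_inter.2 ⟨hvl, hvk'⟩⟩
        exact h5.trans (single_le_sum (f := fun k => (B l ∩ (B k ∩ Q)).card)
          (fun _ _ => Nat.zero_le _) (hm k hk hkj ⟨v, hvk', l, hxl, hvl⟩))
      rw [e1]
      rw [hA3] at e2
      exact_mod_cast e2
    have h4 := sum_le_sum h2
    rw [sum_add_distrib, ← mul_sum, ← mul_sum] at h4
    have h5 : (4 : ℤ) ≤ ∑ k ∈ S, (jh B Q k {x} : ℤ) + ((jh B Q j {x} : ℤ) - 5) := by linarith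
    linarith
  · -- a triple with two points on `x`
    have hkS := hm k hk hkj ⟨v, hv, l, hxl, hvl⟩
    have hkT := (mem_erase.1 hkS).2
    have h2 : 2 ≤ jh B Q k {x} := by
      rw [jh_sum]
      have h3 : uh B v {x} + uh B v' {x} ≤ ∑ v ∈ B k ∩ Q, uh B v {x} := by
        rw [← sum_pair hvv (f := fun v => uh B v {x})]
        refine sum_le_sum_of_subset fun z hz => ?_
        rcases mem_insert.1 hz with h4 | h4
        · exact h4 ▸ hv
        · exact mem_singleton.1 h4 ▸ hv'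
      have h4 := (uh_pos h.hx.xF (h.s.frm.T_notin hk hv h.hx.xF)).2
        ((h.see hk hv).2 ⟨l, hxl, hvl⟩)
      have h5 := (uh_pos h.hx.xF (h.s.frm.T_notin hk hv' h.hx.xF)).2
        ((h.see hk hv').2 ⟨l', hxl', hvl'⟩)
      omega
    have h3 : 56 * (jh B Q k {x} : ℤ) ≤ f k := by
      have h5 : f k = Xv 149 B Q T U F P k {{x}} - 144 * (jh B Q k {x} : ℤ) := rfl
      rcases h.types hkT hkj with h6 | ⟨⟨c', h6⟩, _⟩ | ⟨_, _, _, c', _, _, _, _, _, h6, _⟩
      · linarith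
      · exact absurd ((h6 v hv l hxl hvl).trans (h6 v' hv' l' hxl' hvl').symm) hvv
      · exact absurd ((h6 v hv l hxl hvl).trans (h6 v' hv' l' hxl' hvl').symm) hvv
    have h4 : f k ≤ ∑ k ∈ S, f k :=
      single_le_sum (fun k hk => le_trans (by linarith [hnn k]) (hfn k hk)) hkS
    have h5 : (2 : ℤ) ≤ (jh B Q k {x} : ℤ) := by exact_mod_cast h2
    linarith

end Fzs

/-- **the payments at the centre of a triple with five hits at a point and a full hit of the third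
point on an own leaf of type (3;1)**. `hX`: at most one free place. `hT3`: the third point of another
poor triple is not on a block with `x` and the point with three hits. -/
theorem StgR.full_z {Q U : Finset V} {T : Finset ι} {F : Finset (Finset V)}
    {P : Finset (Finset (Finset V))} {al : V → Finset (Finset V) → ℕ}
    (s : StgR B Q T U F P al) {x : V} (xP : {{x}} ∈ P) {j : ι} (hj : j ∈ Bs B Q T U F P {x})
    (hA : aC B Q T U F P {{x}} = ∅) (hK : Sp.Kin (Rg B Q T U F) (slj B Q F) {{x}} = ∅)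
    (g0 : hit B U {x} = 0) (e0 : ee B Q {x} = 0) (h5 : sB B Q F j {x} = 5)
    (hC : C3f B Q T U F P j {x}) (hX : fs B Q {x} ≤ 1)
    (hT3 : ∀ {j : ι}, j ∈ T → 3 ≤ rkc B U F (par0 B U F) (mcj B Q F (par0 B U F) j) →
      ∀ {a b c x : V}, BT B Q F (par0 B U F) j a b c {{x}} →
      uh B a {x} + uh B b {x} + 2 * ee B Q {x} = 5 → ∑ L ∈ F, uh B c L = 4 →
      ∀ {M : Finset V}, {M} ∈ par0 B U F → M.card = 3 → nt B M 1 ≤ 1 → hit B U M = 0 →
      ∀ {i : ι}, c ∈ B i → 2 ≤ (B i ∩ M).card → ∀ {k l : ι}, k ∈ T → k ≠ j →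
      3 ≤ rkc B U F (par0 B U F) (mcj B Q F (par0 B U F) k) → ∀ {a' b' v x' : V},
      BT B Q F (par0 B U F) k a' b' v {{x'}} → x' ≠ x →
      uh B a' {x'} + uh B b' {x'} + 2 * ee B Q {x'} = 5 → ∑ L ∈ F, uh B v L = 4 →
      ∀ {z : V}, (z = a ∨ z = b) → uh B z {x} = 3 → x ∈ B l → z ∈ B l → v ∈ B l → False) :
    76 ≤ ∑ k ∈ (Trs B Q T (Rg B Q T U F) U F P).erase j,
      (Xv 149 B Q T U F P k {{x}} - 144 * (jC B Q k {{x}} : ℤ)) +
        5 * ((jh B Q j {x} : ℤ) - 5) := by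
  obtain ⟨hjT, h0, _, _⟩ := mem_Bs.1 hj
  obtain ⟨a, b, c, hB, h4, M, MP, hM3, hM1, hMU, _, i, hci, hi⟩ := hC
  have hT := (s.frm.types_trs s.part hjT).1
  have hrk := s.toStg.rank_trs hjT h0 (by
    obtain ⟨w, hw⟩ := hB.nb
    exact ⟨w, by rw [hB.toBT.slj_eq]; exact mem_union_left _ (mem_union_right _ hw)⟩)
  have hs5 : uh B a {x} + uh B b {x} + 2 * ee B Q {x} = 5 := by
    rw [hB.toBT.sB_eq] at h5
    rw [h5, e0]
  have hMp := s.toStg.own_par MP
  obtain ⟨a1, b1, m, m', p, hab, hx, hn⟩ := s.xf_nx hT hrk hB.toBT hs5 h4 hMp hM3 hM1.le hci hi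
  have hz : a1 = a ∨ a1 = b := by
    rcases hab with ⟨h6, _⟩ | ⟨h6, _⟩
    · exact Or.inl h6
    · exact Or.inr h6
  have h : Fzs B Q T U F P al i j M a1 b1 c m m' p x :=
    ⟨s, hx, hn, hM1, MP, xP, hA, hK, g0, e0⟩
  exact h.total hX fun k hk hkj h3 a' b' v w hB' hwx h5' h4' l hxl hal hvl =>
    hT3 hT hrk hB.toBT hs5 h4 hMp hM3 hM1.le hMU hci hi hk hkj h3 hB' hwx h5' h4' hz hx.ha hxl
      hal hvl

end Pool.Agent.Hyp6
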