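import Pool.Agent.Hyp6.L3Hx
import Pool.Agent.Hyp6.L3Vc

/-!
# HYP6 L3Hy: the centre `W` (a point) of a triple of type B with five hits: at most one free place

`Stg.hX`: the hypothesis `hX` of `Stg.B_q0`.
-/

set_option autoImplicit false

namespace Pool.Agent.Hyp6

open Finset Pool.Agent.Hyp5 Rt

universe u v

variable {V : Type v} [DecidableEq V] {ι : Type u} [Fintype ι] [DecidableEq ι]
  {B : ι → Finset V}

namespace Stg

variable {Q U : Finset V} {T : Finset ι} {F : Finset (Finset V)}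
  {P : Finset (Finset (Finset V))} {a : V → Finset (Finset V) → ℕ} {W : Finset V} {j : ι}

/-- the two points of a triple of type B centred at a point have five hits there: at most one free
place. -/
theorem bt_fs (s : Stg B Q T U F P a) (hW1 : W.card = 1) (hj : j ∈ T)
    (h3 : 3 ≤ rkc B U F (par0 B U F) (mcj B Q F (par0 B U F) j)) {x y z : V}
    (hB : BT B Q F (par0 B U F) j x y z {W}) (h5 : uh B x W + uh B y W = 5) :
    fs B Q W ≤ 1 := by
  classical
  obtain ⟨w, rfl⟩ := card_eq_one.1 hW1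
  have hf := s.frm
  have hWF : ({w} : Finset V) ∈ F := s.par.sub hB.mem (mem_singleton_self _)
  have hwQ : w ∈ Q := hf.FQ hWF (mem_singleton_self w)
  have hxj : x ∈ B j ∩ Q := by rw [hB.eq]; simp
  have hyj : y ∈ B j ∩ Q := by rw [hB.eq]; simp
  have hwj : w ∉ B j := fun h => hf.T_notin hj (mem_inter.2 ⟨h, hwQ⟩) hWF (mem_singleton_self w)
  have hc3 := hf.full hj
  have hu : ∀ p : V, uh B p {w} = (univ.filter fun k => w ∈ B k ∧ p ∈ B k).card := by
    intro p
    have ht : tch B {w} = univ.filter fun k => w ∈ B k := by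
      ext k
      rw [cost_mem_tch, mem_filter]
      constructor
      · rintro ⟨v, hv⟩
        obtain ⟨h1, h2⟩ := mem_inter.1 hv
        rw [mem_singleton] at h2
        exact ⟨mem_univ _, h2 ▸ h1⟩
      · rintro ⟨_, h1⟩
        exact ⟨w, mem_inter.2 ⟨h1, mem_singleton_self w⟩⟩
    unfold uh hit
    rw [ht, sum_filter, card_filter]
    refine sum_congr rfl fun k _ => ?_
    by_cases h1 : w ∈ B k
    · by_cases h2 : p ∈ B k
      · rw [if_pos h1, if_pos ⟨h1, h2⟩, inter_singleton_of_mem h2, card_singleton]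
      · rw [if_pos h1, if_neg (fun h => h2 h.2), inter_singleton_of_notMem h2, card_empty]
    · rw [if_neg h1, if_neg (fun h => h1 h.1)]
  refine s.viol.point_fs (x := w) (a := x) (b := y) (j := j) hc3 (mem_inter.1 hxj).1
    (mem_inter.1 hyj).1 hwQ (mem_inter.1 hxj).2 (mem_inter.1 hyj).2 hB.ab hwj ?_ ?_
  · intro k hwk hxk hyk
    have h1 := s.mte.pair_hit s.frm.sur s.par hB.mem (by rw [card_singleton]; norm_num) hj hB.eq
      hB.sa hB.sb h3 (i := k) ⟨w, mem_inter.2 ⟨hwk, mem_singleton_self w⟩⟩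
      ⟨x, mem_inter.2 ⟨hxk, by simp⟩⟩
    have h2 : ({x, y} : Finset V) ⊆ B k ∩ {x, y} := by
      intro v hv
      rcases mem_insert.1 hv with h | h
      · exact mem_inter.2 ⟨h ▸ hxk, hv⟩
      · exact mem_inter.2 ⟨mem_singleton.1 h ▸ hyk, hv⟩
    have h4 := card_le_card h2
    rw [card_pair hB.ab, h1.2] at h4
    omega
  · rw [← hu, ← hu]
    omega

/-- **the hypothesis `hX` of `B_q0`**. -/
theorem hX (s : Stg B Q T U F P a) (hj : j ∈ Bs B Q T U F P W) (hW1 : W.card = 1)
    (h5 : sB B Q F j W = 5) : fs B Q W ≤ 1 := by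
  obtain ⟨h1, h2, h3, x, y, z, hB⟩ := mem_Bs.1 hj
  have hT := (s.frm.types_trs s.part h1).1
  have hne : (slj B Q F j).Nonempty := by
    obtain ⟨L, hL⟩ := hB.nb
    refine ⟨L, ?_⟩
    rw [hB.toBT.slj_eq]
    exact mem_union_left _ (mem_union_right _ hL)
  have h4 := s.rank_trs h1 h2 hne
  rw [hB.toBT.sB_eq] at h5
  exact s.bt_fs hW1 hT h4 hB.toBT h5

end Stg

end Pool.Agent.Hyp6
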