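import Pool.Agent.Hyp6.L3Fz
import Pool.Agent.Hyp6.L3Hy

/-!
# HYP6 L3Fz2: single leaves without line triples which are a centre

`StgR.B0_C3f`: a point which is the centre of a triple with five hits whose third point has a full hit
on an own leaf of type (3;1). `StgR.B0_of`: all single leaves without line triples and inside triples
which are the centre of a triple of type B need nothing.
-/

set_option autoImplicit false

namespace Pool.Agent.Hyp6

open Finset Pool.Agent.Hyp5 Rt

universe u v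

variable {V : Type v} [DecidableEq V] {ι : Type u} [Fintype ι] [DecidableEq ι] {B : ι → Finset V}

/-- the statement on two poor triples: the third point of a second one is not on a block with the
centre of the first one and its point with three hits. -/
def PTwo (B : ι → Finset V) (Q : Finset V) (T : Finset ι) (U : Finset V)
    (F : Finset (Finset V)) : Prop :=
  ∀ {j : ι}, j ∈ T → 3 ≤ rkc B U F (par0 B U F) (mcj B Q F (par0 B U F) j) →
      ∀ {a b c x : V}, BT B Q F (par0 B U F) j a b c {{x}} →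
      uh B a {x} + uh B b {x} + 2 * ee B Q {x} = 5 → ∑ L ∈ F, uh B c L = 4 →
      ∀ {M : Finset V}, {M} ∈ par0 B U F → M.card = 3 → nt B M 1 ≤ 1 → hit B U M = 0 →
      ∀ {i : ι}, c ∈ B i → 2 ≤ (B i ∩ M).card → ∀ {k l : ι}, k ∈ T → k ≠ j →
      3 ≤ rkc B U F (par0 B U F) (mcj B Q F (par0 B U F) k) → ∀ {a' b' v x' : V},
      BT B Q F (par0 B U F) k a' b' v {{x'}} → x' ≠ x →
      uh B a' {x'} + uh B b' {x'} + 2 * ee B Q {x'} = 5 → ∑ L ∈ F, uh B v L = 4 →
      ∀ {z : V}, (z = a ∨ z = b) → uh B z {x} = 3 → x ∈ B l → z ∈ B l → v ∈ B l → False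

namespace StgR

variable {Q U : Finset V} {T : Finset ι} {F : Finset (Finset V)}
  {P : Finset (Finset (Finset V))} {al : V → Finset (Finset V) → ℕ}

/-- **the centre of a triple with five hits and a full hit of the third point**. -/
theorem B0_C3f (s : StgR B Q T U F P al) {W : Finset V} (hW : {W} ∈ P) {j : ι}
    (hj : j ∈ Bs B Q T U F P W) (hA : aC B Q T U F P {W} = ∅)
    (hK : Sp.Kin (Rg B Q T U F) (slj B Q F) {W} = ∅) (h1 : W.card = 1) (g0 : hit B U W = 0)
    (h5 : sB B Q F j W + 2 * ee B Q W = 5) (hC : C3f B Q T U F P j W)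
    (hT3 : PTwo B Q T U F) : msC 149 B Q T U F P al {W} ≤ 0 := by
  have hWF : W ∈ F := (s.part.ptn.vc {W} hW).sub (mem_singleton_self W)
  have hjT := (mem_Bs.1 hj).1
  have hms := s.toStg.ms_one 149 hW
  have hnum := s.toStg.one hWF
  have hpp := hnum.pp
  have hpt := hnum.pt (by exact_mod_cast h1)
  rw [hpt, h1] at hpp
  have hp2 : Pp B W = 2 := by
    rw [hpp]
    norm_num
  have hterm := s.toStg.term_C3f hW hj h1 g0 h5 hC
  have hld : (0 : ℤ) ≤ (Sp.ld (Sp.Ux U (slf B F) P) al {W} : ℤ) := by positivity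
  rw [hA, sum_empty, hK, sum_empty, g0, hp2, ← add_sum_erase _ _ hjT] at hms
  have h5' : (sB B Q F j W : ℤ) + 2 * (ee B Q W : ℤ) = 5 := by exact_mod_cast h5
  by_cases he : ee B Q W = 0
  · -- no double single
    obtain ⟨x, rfl⟩ := card_eq_one.1 h1
    have hs5 : sB B Q F j {x} = 5 := by omega
    have h6 := s.full_z hW hj hA hK g0 he hs5 hC (s.toStg.hX hj h1 hs5) hT3
    simp only [s.toStg.jC_one] at h6
    have h7 : ∑ k ∈ (Trs B Q T (Rg B Q T U F) U F P).erase j,
        (144 * (jh B Q k {x} : ℤ) - Xv 149 B Q T U F P k {{x}}) =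
        -∑ k ∈ (Trs B Q T (Rg B Q T U F) U F P).erase j,
          (Xv 149 B Q T U F P k {{x}} - 144 * (jh B Q k {x} : ℤ)) := by
      rw [← sum_neg_distrib]
      exact sum_congr rfl fun k _ => by ring
    rw [h7, he] at hms
    rw [he] at h5'
    push_cast at hms h5'
    rw [hms]
    linarith
  · -- a double single: the other terms are not positive
    have he1 : (1 : ℤ) ≤ (ee B Q W : ℤ) := by
      exact_mod_cast Nat.pos_of_ne_zero he
    have hslot := hnum.slot
    have hf0 := hnum.f0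
    have hsum : ∑ k ∈ Trs B Q T (Rg B Q T U F) U F P, (jh B Q k W : ℤ) ≤
        ∑ k ∈ T, (jh B Q k W : ℤ) :=
      sum_le_sum_of_subset_of_nonneg (fun k hk => (s.frm.types_trs s.part hk).1)
        fun _ _ _ => by positivity
    rw [← add_sum_erase _ _ hjT] at hsum
    rw [hpp, hpt, g0] at hslot
    push_cast at hslot
    have hsj : (sB B Q F j W : ℤ) ≤ (jh B Q j W : ℤ) := by exact_mod_cast s.toStg.sB_le
    have hother : ∀ k ∈ (Trs B Q T (Rg B Q T U F) U F P).erase j,
        144 * (jh B Q k W : ℤ) - Xv 149 B Q T U F P k {W} ≤ 0 := by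
      intro k hk
      obtain ⟨hkj, hkT⟩ := mem_erase.1 hk
      have h6 : (jh B Q k W : ℤ) ≤
          ∑ k ∈ (Trs B Q T (Rg B Q T U F) U F P).erase j, (jh B Q k W : ℤ) :=
        single_le_sum (f := fun k => (jh B Q k W : ℤ)) (fun _ _ => by positivity) hk
      have h8 : (0 : ℤ) ≤ (jh B Q k W : ℤ) := by positivity
      by_cases hkB : k ∈ Bs B Q T U F P W
      · have h7 := s.toStg.term_B hW hkB
        have h9 : (sB B Q F k W : ℤ) ≤ (jh B Q k W : ℤ) := by exact_mod_cast s.toStg.sB_le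
        have h10 : (0 : ℤ) ≤ (pB B Q T U F P k W : ℤ) := by positivity
        linarith
      · have h7 := s.toStg.term_nB hW hkT hkB
        linarith
    have h6 := sum_nonpos hother
    rw [hms]
    push_cast
    linarith

/-- **a single leaf without line triples which is a centre needs nothing**. -/
theorem B0_of (s : StgR B Q T U F P al) (hF : Few B Q T F)
    (h51 : ∀ W, {W} ∈ P → ∀ j ∈ Bs B Q T U F P W, W.card = 5 → nt B W 1 = 1 →
      sB B Q F j W ≤ 6) (hT3 : PTwo B Q T U F) :
    ∀ L, {L} ∈ P → (aC B Q T U F P {L}).card = 0 → Sp.Kin (Rg B Q T U F) (slj B Q F) {L} = ∅ →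
      (Bs B Q T U F P L).Nonempty → msC 149 B Q T U F P al {L} ≤ 0 := by
  intro L hL h0 hK hb
  by_cases hex : ∃ j ∈ Bs B Q T U F P L, L.card = 1 ∧ hit B U L = 0 ∧
      sB B Q F j L + 2 * ee B Q L = 5 ∧ C3f B Q T U F P j L
  · obtain ⟨j, hj, h1, h2, h3, h4⟩ := hex
    exact s.B0_C3f hL hj (card_eq_zero.1 h0) hK h1 h2 h3 h4 hT3
  · exact s.toStg.B_q0 hF hL hb h0 (fun j hj h1 h2 => h51 L hL j hj h1 h2)
      (fun j hj h1 h2 h3 h4 => hex ⟨j, hj, h1, h2, h3, h4⟩)
      (fun j hj h1 _ _ h5 => s.toStg.hX hj h1 h5)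

end StgR

end Pool.Agent.Hyp6
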