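import Pool.Agent.Hyp6.L3Fz2
import Pool.Agent.Hyp6.L3X7
import Pool.Agent.Hyp6.L3Td

/-!
# HYP6 L3Fz3: the pair of a triple of type B at a leaf with five points

`Stg.h51`: the two points of a triple of type B centred at a leaf with five points and one single trace
have at most five hits there. `StgR.B0`: the line `B0` of the last step, up to the fact on two poor
triples and `Few` (`Frm.few`).
-/

set_option autoImplicit false

namespace Pool.Agent.Hyp6

open Finset Pool.Agent.Hyp5 Rt

universe u v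

variable {V : Type v} [DecidableEq V] {ι : Type u} [Fintype ι] [DecidableEq ι] {B : ι → Finset V}
  {Q U : Finset V} {T : Finset ι} {F : Finset (Finset V)}
  {P : Finset (Finset (Finset V))} {a : V → Finset (Finset V) → ℕ}

/-- **the pair of a triple of type B at a leaf with five points**: at most five hits. -/
theorem Stg.h51 (s : Stg B Q T U F P a) {W : Finset V} (hW : {W} ∈ P) {j : ι}
    (hj : j ∈ Bs B Q T U F P W) (hW5 : W.card = 5) (h1 : nt B W 1 = 1) :
    sB B Q F j W ≤ 5 := by
  obtain ⟨hjT, _, _, x, y, z, hB⟩ := mem_Bs.1 hj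
  have hT := (s.frm.types_trs s.part hjT).1
  have hWF : W ∈ F := (s.part.ptn.vc _ hW).sub (mem_singleton_self W)
  have hxk : x ∈ B j ∩ Q := by rw [hB.eq]; simp
  have hyk : y ∈ B j ∩ Q := by rw [hB.eq]; simp
  have hzk : z ∈ B j ∩ Q := by rw [hB.eq]; simp
  have huh : ∀ p, uh B p W = (Ez B W p).card := by
    intro p
    unfold uh
    rw [hit_eq_Ez, sum_singleton]
  have h4 : ∀ p ∈ B j ∩ Q, uh B p W ≤ 4 := fun p hp =>
    (single_le_sum (f := fun L => uh B p L) (fun _ _ => Nat.zero_le _) hWF).trans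
      (s.frm.four_t s.viol.reg hT hp)
  have h2 : ∀ i, (B i ∩ W).card ≤ 2 := by
    intro i
    rcases (B i ∩ W).eq_empty_or_nonempty with h0 | ⟨v, hv⟩
    · rw [h0, card_empty]
      exact Nat.zero_le _
    · obtain ⟨hv1, hv2⟩ := mem_inter.1 hv
      exact (card_le_card (inter_subset_inter_left (s.frm.FD hWF))).trans
        (s.frm.two_leaf hWF hv1 hv2)
  have h13 : cm B W = 13 := by
    have e1 := cm_eq3 (B := B) (W := W) fun i => (h2 i).trans (by norm_num)
    have e2 := inc_eq3 (s.viol.reg.mono (s.frm.FQ hWF)) fun i => (h2 i).trans (by norm_num)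
    have e3 : nt B W 3 = 0 := nt3_zero h2
    omega
  by_contra hcon
  rw [hB.toBT.sB_eq] at hcon
  have hx4 := h4 x hxk
  have hy4 := h4 y hyk
  have hxW := s.frm.T_notin hT hxk hWF
  have hyW := s.frm.T_notin hT hyk hWF
  have hab : Abz B W {x, y} := by
    rcases Nat.lt_or_ge (uh B x W) 3 with h5 | h5
    · have h6 := s.viol.abz5 s.frm hWF hW5 h13 (mem_inter.1 hyk).2 (mem_inter.1 hxk).2 hyW hxW
        hB.ab.symm (by rw [← huh]; omega) (by rw [← huh]; omega)
      rwa [pair_comm] at h6
    · exact s.viol.abz5 s.frm hWF hW5 h13 (mem_inter.1 hxk).2 (mem_inter.1 hyk).2 hxW hyW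
        hB.ab (by rw [← huh]; omega) (by rw [← huh]; omega)
  obtain ⟨T', hT1, hT2⟩ := hab
  have h5 : rho B (W ∪ {x, y}) ≤ rho B W := (Hyp6.rho_le hT1).trans hT2
  obtain ⟨M, hM, hML⟩ := not_subset.1 hB.nsc
  rw [mem_singleton] at hML
  have h6 := s.frm.three_abs hT hWF (X := {x, y}) (by
    intro v hv
    rcases mem_insert.1 hv with rfl | hv
    · exact (mem_inter.1 hxk).2
    · rw [mem_singleton.1 hv]
      exact (mem_inter.1 hyk).2) h5 (p := z) (by
    rw [hB.eq]
    intro v hv
    simp only [mem_insert, mem_singleton] at hv ⊢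
    tauto) hzk hM hML
  have h7 := dfc_own (s.frm.gdT (R := Rg B Q T U F)) s.part hW M (slf_sub hM) hML
  omega

/-- **the line `B0` of the last step**. -/
theorem StgR.B0 (s : StgR B Q T U F P a) (hF : Few B Q T F) (hT3 : PTwo B Q T U F) :
    ∀ L, {L} ∈ P → (aC B Q T U F P {L}).card = 0 →
      Sp.Kin (Rg B Q T U F) (slj B Q F) {L} = ∅ →
      (Bs B Q T U F P L).Nonempty → msC 149 B Q T U F P a {L} ≤ 0 :=
  s.B0_of hF (fun _ hW _ hj h5 h1 => (s.toStg.h51 hW hj h5 h1).trans (by norm_num))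
    hT3

end Pool.Agent.Hyp6
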