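import Pool.Agent.Hyp6.L3RB
import Pool.Agent.Hyp6.Cfg6

/-!
# HYP6 L3G1: two disjoint full blocks and a closed set, any value

`KG B Q Y F i j`: a minimal counterexample `Q` with value at least one, two full blocks with disjoint
traces whose deletion leaves a connected critical set, a set `Y` containing the two traces whose deletion
lowers the cover number by two, the components `F` of the rest are critical.
-/

set_option autoImplicit false

namespace Pool.Agent.Hyp6

open Finset Pool.Agent.Hyp5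

universe u v

variable {V : Type v} [DecidableEq V] {ι : Type u} [Fintype ι] {B : ι → Finset V}
variable {Q C X Y : Finset V} {F : Finset (Finset V)} {i j : ι}

/-- two disjoint full blocks and a closed set. -/
structure KG (B : ι → Finset V) (Q Y : Finset V) (F : Finset (Finset V)) (i j : ι) : Prop
    extends ViolR B Q where
  fi : (B i ∩ Q).card = 3
  fj : (B j ∩ Q).card = 3
  dij : Disjoint (B i ∩ Q) (B j ∩ Q)
  iY : B i ∩ Q ⊆ Y
  jY : B j ∩ Q ⊆ Y
  YQ : Y ⊆ Q
  parts : ∀ L ∈ F, L ⊆ Q \ Y ∧ Closed (gr B) (Q \ Y) L ∧ Conn (gr B) L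
  sep : SepF B F
  un : F.biUnion id = Q \ Y
  cr : ∀ L ∈ F, Crit B L
  rhoY : rho B (Q \ Y) + 2 = rho B Q
  conni : Conn (gr B) (Q \ (B i ∩ Q))
  criti : Crit B (Q \ (B i ∩ Q))
  connj : Conn (gr B) (Q \ (B j ∩ Q))
  critj : Crit B (Q \ (B j ∩ Q))

/-- an even number between `lv + 1` and `dv + 1`. -/
noncomputable def wv (B : ι → Finset V) (Q L : Finset V) : ℤ := 2 * ((lv B Q L + 2) / 2)

theorem wv_ge (L : Finset V) : lv B Q L + 1 ≤ wv B Q L := by
  unfold wv
  omega

theorem wv_even (L : Finset V) : wv B Q L % 2 = 0 := by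
  unfold wv
  omega

theorem wv_le {L : Finset V} (h : -1 ≤ sv B L) : wv B Q L ≤ dv B Q L + 1 := by
  by_cases hs : 0 ≤ sv B L
  · unfold wv
    rw [lv_pos hs]
    omega
  · have h1 : sv B L = -1 := by omega
    have h2 := Pp_even (B := B) L
    have h3 := Pv_eq_Pp (B := B) L
    unfold wv
    rw [lv_neg (by omega)]
    rw [h1] at h3
    unfold dv
    omega

theorem wv_neg {L : Finset V} (h : sv B L = -1) : wv B Q L = dv B Q L + 1 := by
  have h1 := wv_le (Q := Q) (L := L) h.ge
  have h2 := wv_ge (B := B) (Q := Q) L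
  rw [lv_neg (by omega)] at h2
  linarith

theorem wv_nn {L : Finset V} (h : -1 ≤ lv B Q L) : 0 ≤ wv B Q L := by
  have := wv_ge (B := B) (Q := Q) L
  linarith

namespace KG

theorem cov (h : KG B Q Y F i j) : Cov B Q := cov_of_reg h.reg

theorem subQ (h : KG B Q Y F i j) {L : Finset V} (hL : L ∈ F) : L ⊆ Q :=
  (h.parts L hL).1.trans sdiff_subset

theorem notMem (h : KG B Q Y F i j) {L : Finset V} (hL : L ∈ F) {z : V} (hz : z ∈ Y) : z ∉ L :=
  fun hzL => (mem_sdiff.1 ((h.parts L hL).1 hzL)).2 hz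

theorem covL (h : KG B Q Y F i j) {L : Finset V} (hL : L ∈ F) : Cov B L :=
  h.cov.mono (h.subQ hL)

theorem Y6 (h : KG B Q Y F i j) : 6 ≤ Y.card := by
  have h1 := card_le_card (union_subset h.iY h.jY)
  rw [card_union_of_disjoint h.dij, h.fi, h.fj] at h1
  omega

/-- exchange of the two full blocks. -/
theorem swap (h : KG B Q Y F i j) : KG B Q Y F j i :=
  ⟨h.toViolR, h.fj, h.fi, h.dij.symm, h.jY, h.iY, h.YQ, h.parts, h.sep, h.un, h.cr, h.rhoY,
    h.connj, h.critj, h.conni, h.criti⟩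

theorem rhoT (h : KG B Q Y F i j) : rho B (Q \ (B i ∩ Q)) + 1 = rho B Q :=
  h.toViolR.rhoT h.fi

/-- the closed set outside the first full block. -/
theorem clo (h : KG B Q Y F i j) : Clo B (Q \ (B i ∩ Q)) (Y \ (B i ∩ Q)) F := by
  have h1 : (Q \ (B i ∩ Q)) \ (Y \ (B i ∩ Q)) = Q \ Y := by
    ext v
    simp only [mem_sdiff]
    constructor
    · rintro ⟨⟨h1, h2⟩, h3⟩
      exact ⟨h1, fun h4 => h3 ⟨h4, h2⟩⟩
    · rintro ⟨h1, h2⟩
      exact ⟨⟨h1, fun h3 => h2 (h.iY h3)⟩, fun h3 => h2 h3.1⟩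
  refine ⟨sdiff_subset_sdiff h.YQ (Subset.refl _), ?_, h.sep, ?_, h.cr, ?_⟩
  · rw [h1]
    exact h.parts
  · rw [h1]
    exact h.un
  · rw [h1]
    have h2 := h.rhoT
    have h3 := h.rhoY
    omega

theorem Xne (h : KG B Q Y F i j) : (Y \ (B i ∩ Q)).Nonempty := by
  have h1 := card_sdiff_add_card_eq_card h.iY
  have h2 := h.Y6
  rw [h.fi] at h1
  exact card_pos.1 (by omega)

/-- Hall's condition with surplus one outside the first full block. -/
theorem hall (h : KG B Q Y F i j) {S : Finset (Finset V)} (hS : S ⊆ F) (hne : S.Nonempty) :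
    S.card + 1 ≤ (nbX B (Y \ (B i ∩ Q)) S).card :=
  h.clo.hall h.criti (h.cov.mono sdiff_subset) h.conni h.Xne hS hne

theorem sizeL (h : KG B Q Y F i j) {L : Finset V} (hL : L ∈ F) : L.card + Y.card ≤ Q.card := by
  have h1 := card_le_card (h.parts L hL).1
  have h2 := card_sdiff_add_card_eq_card h.YQ
  omega

theorem cp (h : KG B Q Y F i j) {L : Finset V} (hL : L ∈ F) : Cr3 B Q L :=
  ⟨⟨h.ih, h.reg, h.tr, h.conn, h.subQ hL, (h.parts L hL).2.2, by
    have := h.sizeL hL
    have := h.Y6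
    omega⟩, h.ihr⟩

theorem svge (h : KG B Q Y F i j) {L : Finset V} (hL : L ∈ F) : -1 ≤ sv B L :=
  crit_sv_ge_cov (h.cp hL).cov (h.parts L hL).2.2 (h.cr L hL)

/-- the cover number of `Q` as the sum over the components. -/
theorem rhoQ (h : KG B Q Y F i j) : rho B Q = ∑ L ∈ F, rho B L + 2 := by
  have h1 := h.rhoY
  rw [← h.un, rho_biUnion (fun L hL => h.covL hL) h.sep] at h1
  omega

/-- the two full blocks are inner blocks. -/
theorem ij_ins (h : KG B Q Y F i j) : i ∈ ins B Q Y ∧ j ∈ ins B Q Y ∧ i ≠ j := by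
  refine ⟨mem_ins.2 ⟨card_pos.1 (by rw [h.fi]; norm_num), h.iY⟩,
    mem_ins.2 ⟨card_pos.1 (by rw [h.fj]; norm_num), h.jY⟩, ?_⟩
  rintro rfl
  have h1 := h.dij
  rw [disjoint_self_iff_empty] at h1
  have h2 := h.fi
  rw [h1] at h2
  simp at h2

/-- the exact sum of the values of the components. -/
theorem sum_dv (h : KG B Q Y F i j) : ∑ L ∈ F, dv B Q L + 4 * ((ins B Q Y).card : ℤ) +
    5 * (Y.card : ℤ) = dv B Q Q + 48 + 2 * (ee B Q Y : ℤ) := by
  have h1 := Pv_sdiff (B := B) h.YQ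
  have h2 : Pv B (Q \ Y) = ∑ L ∈ F, Pv B L := by
    rw [← h.un]
    exact Pv_biUnion (fun L hL => h.covL hL) h.sep
  have h3 : ee B Q Q = ∑ L ∈ F, ee B Q L + ee B Q Y := by
    rw [← ee_biUnion h.sep, h.un, ← ee_union sdiff_disjoint, sdiff_union_of_subset h.YQ]
  have c1 : (ee B Q Q : ℤ) = ∑ L ∈ F, (ee B Q L : ℤ) + ee B Q Y := by
    rw [h3]
    push_cast
    ring
  have h4 : (rho B (Q \ Y) : ℤ) + 2 = rho B Q := by exact_mod_cast h.rhoY
  unfold dv
  rw [sum_sub_distrib, ← mul_sum, c1]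
  linarith

/-- the number of the points with two single inner blocks. -/
theorem ee_le (h : KG B Q Y F i j) : 2 * ee B Q Y + 2 ≤ (ins B Q Y).card := by
  classical
  have h1 := two_ee_le (B := B) Q Y
  have h2 : (ins B Q Y).filter (fun k => (B k ∩ Q).card = 1) ⊆ ((ins B Q Y).erase i).erase j := by
    intro k hk
    rw [mem_filter] at hk
    refine mem_erase.2 ⟨?_, mem_erase.2 ⟨?_, hk.1⟩⟩
    · rintro rfl
      rw [h.fj] at hk
      omega
    · rintro rfl
      rw [h.fi] at hk
      omega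
  have h3 := card_le_card h2
  obtain ⟨h4, h5, h6⟩ := h.ij_ins
  have h7 := card_erase_add_one h4
  have h8 := card_erase_add_one (mem_erase.2 ⟨h6.symm, h5⟩)
  omega

/-- the number of the components. -/
theorem cardF (h : KG B Q Y F i j) (hne : F.Nonempty) : F.card + 4 ≤ Y.card := by
  have h1 := h.hall (Subset.refl F) hne
  have h2 : nbX B (Y \ (B i ∩ Q)) F ⊆ Y \ (B i ∩ Q) := by
    intro v hv
    exact (mem_nbX.1 hv).1
  have h3 := card_le_card h2
  have h4 := card_sdiff_add_card_eq_card h.iY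
  rw [h.fi] at h4
  omega

/-- the sum of the even bounds. -/
theorem sum_wv (h : KG B Q Y F i j) : ∑ L ∈ F, wv B Q L + 4 * ((ins B Q Y).card : ℤ) +
    5 * (Y.card : ℤ) ≤ F.card + 47 + 2 * (ee B Q Y : ℤ) := by
  have h1 := h.sum_dv
  have h2 := h.neg
  have h3 : ∑ L ∈ F, wv B Q L ≤ ∑ L ∈ F, (dv B Q L + 1) :=
    sum_le_sum fun L hL => wv_le (h.svge hL)
  rw [sum_add_distrib, sum_const, nsmul_eq_mul, mul_one] at h3
  linarith

/-- at most two further points. -/
theorem Y8 (h : KG B Q Y F i j) (hne : F.Nonempty) : Y.card ≤ 8 := by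
  have h1 := h.sum_wv
  have h2 := h.ee_le
  have h3 := h.cardF hne
  have h4 : 0 ≤ ∑ L ∈ F, wv B Q L := sum_nonneg fun L hL => wv_nn (h.cp hL).l_ge
  omega

end KG

/-- a configuration of two full blocks, any value. -/
structure Cg0 (B : ι → Finset V) (Q : Finset V) (n r : ℕ) (x : ℕ → V) (C : ℕ → Finset V)
    (i j : ι) : Prop where
  n2 : n ≤ 2
  r1 : 1 ≤ r
  rn : r ≤ 2 + n
  cf : Cf B Q (6 + n) r x C 2
  ih : IHE.{u} V Q.card
  ihr : IHR.{u} V Q.card
  i7 : B i ∩ Q = ptm x (6 + n) 7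
  j56 : B j ∩ Q = ptm x (6 + n) 56
  ij : i ≠ j
  sge : ∀ a < r, -1 ≤ sv B (C a)
  lge : ∀ a < r, -1 ≤ lv B Q (C a)
  hall : ∀ S A : Finset ℕ, (∀ s ∈ S, s < r) → S.Nonempty → (∀ a ∈ A, a < 6 + n) →
    ((∀ a ∈ A, x a ∉ B i) ∨ ∀ a ∈ A, x a ∉ B j) → 3 + n ≤ S.card + A.card →
    ∃ s ∈ S, ∃ a ∈ A, (Ez B (C s) (x a)).Nonempty

/-- a configuration of two full blocks with the bound for the sum of the values. -/
structure CfG (B : ι → Finset V) (Q : Finset V) (n r : ℕ) (x : ℕ → V) (C : ℕ → Finset V)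
    (i j : ι) : Prop extends Cg0 B Q n r x C i j where
  tot : ∑ a ∈ range r, wv B Q (C a) +
      4 * ∑ A ∈ (range (2 ^ (6 + n))).erase 0, ((ib B Q x (6 + n) A).card : ℤ) + 5 * (n : ℤ) ≤
    17 + r + 2 * (((range (6 + n)).filter (fun a => 2 ≤ (ib B Q x (6 + n) (2 ^ a)).card)).card : ℤ)

theorem KG.hallx {n r : ℕ} {x : ℕ → V} {D : ℕ → Finset V} (h : KG B Q Y F i j)
    (hinj : ∀ a < 6 + n, ∀ b < 6 + n, x a = x b → a = b)
    (hY : ∀ v, v ∈ Y ↔ ∃ a < 6 + n, x a = v) (hF : ∀ L, L ∈ F ↔ ∃ a < r, D a = L)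
    (hDinj : ∀ a < r, ∀ b < r, D a = D b → a = b)
    {S A : Finset ℕ} (hS : ∀ s ∈ S, s < r) (hne : S.Nonempty) (hA : ∀ a ∈ A, a < 6 + n)
    (hAi : ∀ a ∈ A, x a ∉ B i) (hc : 3 + n ≤ S.card + A.card) :
    ∃ s ∈ S, ∃ a ∈ A, (Ez B (D s) (x a)).Nonempty := by
  classical
  have hYc : Y.card = 6 + n := by
    have h4 : Y = (range (6 + n)).image x := by
      ext v
      rw [hY, mem_image]
      constructor
      · rintro ⟨a, ha, he⟩
        exact ⟨a, mem_range.2 ha, he⟩
      · rintro ⟨a, ha, he⟩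
        exact ⟨a, mem_range.1 ha, he⟩
    rw [h4, card_image_of_injOn, card_range]
    intro a ha b hb he
    exact hinj a (by simpa using ha) b (by simpa using hb) he
  have h1 := h.hall (S := S.image D) (by
    intro L hL
    obtain ⟨s, hs, rfl⟩ := mem_image.1 hL
    exact (hF _).2 ⟨s, hS s hs, rfl⟩) (hne.image D)
  have h2 : (S.image D).card = S.card := by
    rw [card_image_of_injOn]
    intro a ha b hb he
    exact hDinj a (hS a ha) b (hS b hb) he
  rw [h2] at h1
  by_contra hcon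
  push Not at hcon
  have h3 : nbX B (Y \ (B i ∩ Q)) (S.image D) ⊆ (Y \ (B i ∩ Q)) \ A.image x := by
    intro v hv
    rw [mem_nbX] at hv
    obtain ⟨hvY, L, hL, hE⟩ := hv
    rw [mem_sdiff]
    refine ⟨hvY, fun hvA => ?_⟩
    obtain ⟨a, ha, rfl⟩ := mem_image.1 hvA
    obtain ⟨s, hs, rfl⟩ := mem_image.1 hL
    rw [hcon s hs a ha] at hE
    exact absurd hE (by simp)
  have h4 : A.image x ⊆ Y \ (B i ∩ Q) := by
    intro v hv
    obtain ⟨a, ha, rfl⟩ := mem_image.1 hv
    rw [mem_sdiff]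
    exact ⟨(hY _).2 ⟨a, hA a ha, rfl⟩, fun h5 => hAi a ha (mem_inter.1 h5).1⟩
  have h5 := card_le_card h3
  have h6 := card_sdiff_add_card_eq_card h4
  have h7 := card_sdiff_add_card_eq_card h.iY
  have h8 : (A.image x).card = A.card := by
    rw [card_image_of_injOn]
    intro a ha b hb he
    exact hinj a (hA a ha) b (hA b hb) he
  rw [h.fi] at h7
  omega

/-- **the configuration**, with given orders of the further points and of the components. -/
theorem KG.exists_cfG (h : KG B Q Y F i j) (hne : F.Nonempty) {lU : List V}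
    (hlU : lU.Nodup) (hU : ∀ v, v ∈ lU ↔ v ∈ Y \ ((B i ∩ Q) ∪ (B j ∩ Q))) {lF : List (Finset V)}
    (hlF : lF.Nodup) (hFm : ∀ L, L ∈ lF ↔ L ∈ F) :
    ∃ x : ℕ → V, ∃ D : ℕ → Finset V, ∃ v0 : V,
      CfG B Q lU.length lF.length x D i j ∧ (∀ v, v ∈ Y ↔ ∃ a < 6 + lU.length, x a = v) ∧
      (∀ a < lU.length, x (6 + a) = lU.getD a v0) ∧ (∀ a < lF.length, D a = lF.getD a ∅) ∧
      6 + lU.length = Y.card ∧ lF.length = F.card := by
  classical
  set T1 := B i ∩ Q with hT1
  set T2 := B j ∩ Q with hT2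
  obtain ⟨v0, _⟩ : T1.Nonempty := card_pos.1 (by rw [h.fi]; norm_num)
  set l := T1.toList ++ (T2.toList ++ lU) with hl
  have hTY : T1 ∪ T2 ⊆ Y := union_subset h.iY h.jY
  have hT12 : (T1 ∪ T2).card = 6 := by rw [card_union_of_disjoint h.dij, h.fi, h.fj]
  have hUf : lU.toFinset = Y \ (T1 ∪ T2) := by
    ext v
    rw [List.mem_toFinset, hU]
  have hUl : lU.length = (Y \ (T1 ∪ T2)).card := by
    rw [← hUf, List.toFinset_card_of_nodup hlU]
  obtain ⟨n, hn⟩ : ∃ n, n = lU.length := ⟨_, rfl⟩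
  have hUc : 6 + n = Y.card := by
    have := card_sdiff_add_card_eq_card hTY
    omega
  have hn2 : n ≤ 2 := by
    have := h.Y8 hne
    omega
  have l1 : T1.toList.length = 3 := by rw [length_toList, h.fi]
  have l2 : T2.toList.length = 3 := by rw [length_toList, h.fj]
  have hlen : l.length = 6 + n := by
    rw [hl, List.length_append, List.length_append, l1, l2, ← hn]
    omega
  have hnd : l.Nodup := by
    rw [hl, List.nodup_append]
    refine ⟨nodup_toList _, ?_, ?_⟩
    · rw [List.nodup_append]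
      refine ⟨nodup_toList _, hlU, ?_⟩
      intro a ha b hb hab
      rw [mem_toList] at ha
      rw [hU] at hb
      subst hab
      exact (mem_sdiff.1 hb).2 (mem_union_right _ ha)
    · intro a ha b hb hab
      subst hab
      rw [mem_toList] at ha
      rw [List.mem_append, mem_toList, hU] at hb
      rcases hb with hb | hb
      · exact disjoint_left.1 h.dij ha hb
      · exact (mem_sdiff.1 hb).2 (mem_union_left _ ha)
  have hmem : ∀ v, v ∈ l ↔ v ∈ Y := by
    intro v
    rw [hl, List.mem_append, List.mem_append, mem_toList, mem_toList, hU, mem_sdiff,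
      mem_union]
    constructor
    · rintro (h1 | h1 | h1)
      · exact h.iY h1
      · exact h.jY h1
      · exact h1.1
    · intro h1
      tauto
  set x : ℕ → V := fun a => l.getD a v0 with hx
  have hxY : ∀ v, v ∈ Y ↔ ∃ a < 6 + n, x a = v := by
    intro v
    rw [← hmem, mem_iff_getD (d := v0), hlen]
  have hx1 : ∀ a < 3, x a = T1.toList.getD a v0 := by
    intro a ha
    rw [hx]
    simp only
    rw [hl, List.getD_append _ _ _ _ (by omega)]
  have hx2 : ∀ a < 3, x (3 + a) = T2.toList.getD a v0 := by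
    intro a ha
    rw [hx]
    simp only
    rw [hl, List.getD_append_right _ _ _ _ (by omega), l1, List.getD_append _ _ _ _ (by omega)]
    congr 1
    omega
  have hx3 : ∀ a < n, x (6 + a) = lU.getD a v0 := by
    intro a ha
    rw [hx]
    simp only
    rw [hl, List.getD_append_right _ _ _ _ (by omega), l1,
      List.getD_append_right _ _ _ _ (by omega), l2]
    congr 1
    omega
  have h7 : T1 = ptm x (6 + n) 7 := by
    ext v
    rw [mem_ptm, ← mem_toList, mem_iff_getD (d := v0), l1]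
    constructor
    · rintro ⟨a, ha, rfl⟩
      refine ⟨a, by omega, ?_, hx1 a ha⟩
      interval_cases a <;> rfl
    · rintro ⟨a, ha, hb, rfl⟩
      have ha3 : a < 3 := by
        by_contra hcon
        push Not at hcon
        have : Nat.testBit 7 a = false := by
          apply Nat.testBit_lt_two_pow
          calc 7 < 2 ^ 3 := by norm_num
            _ ≤ 2 ^ a := Nat.pow_le_pow_right (by norm_num) hcon
        rw [this] at hb
        exact absurd hb (by simp)
      exact ⟨a, ha3, (hx1 a ha3).symm⟩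
  have h56 : T2 = ptm x (6 + n) 56 := by
    ext v
    rw [mem_ptm, ← mem_toList, mem_iff_getD (d := v0), l2]
    constructor
    · rintro ⟨a, ha, rfl⟩
      refine ⟨3 + a, by omega, ?_, hx2 a ha⟩
      interval_cases a <;> rfl
    · rintro ⟨a, ha, hb, rfl⟩
      have ha6 : a < 6 := by
        by_contra hcon
        push Not at hcon
        have : Nat.testBit 56 a = false := by
          apply Nat.testBit_lt_two_pow
          calc 56 < 2 ^ 6 := by norm_num
            _ ≤ 2 ^ a := Nat.pow_le_pow_right (by norm_num) hcon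
        rw [this] at hb
        exact absurd hb (by simp)
      have ha3 : 3 ≤ a := by
        by_contra hcon
        push Not at hcon
        interval_cases a <;> exact absurd hb (by decide)
      refine ⟨a - 3, by omega, ?_⟩
      rw [← hx2 (a - 3) (by omega)]
      congr 1
      omega
  -- the components
  have hlenF : lF.length = F.card := by
    have h1 : lF.toFinset = F := by
      ext L
      rw [List.mem_toFinset, hFm]
    rw [← h1, List.toFinset_card_of_nodup hlF]
  obtain ⟨r, hr⟩ : ∃ r, r = lF.length := ⟨_, rfl⟩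
  set D : ℕ → Finset V := fun a => lF.getD a ∅ with hD
  have hDF : ∀ L, L ∈ F ↔ ∃ a < r, D a = L := by
    intro L
    rw [← hFm, mem_iff_getD (d := ∅), ← hr]
  have hDm : ∀ a < r, D a ∈ F := fun a ha => (hDF _).2 ⟨a, ha, rfl⟩
  have hDinj : ∀ a < r, ∀ b < r, D a = D b → a = b := fun a ha b hb he =>
    getD_inj hlF (by omega) (by omega) he
  have hxYm : ∀ a < 6 + n, x a ∈ Y := fun a ha => (hxY _).2 ⟨a, ha, rfl⟩
  have hinj : ∀ a < 6 + n, ∀ b < 6 + n, x a = x b → a = b := fun a ha b hb he =>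
    getD_inj hnd (by omega) (by omega) he
  have hsum : ∀ f : Finset V → ℕ, ∑ a ∈ range r, f (D a) = ∑ L ∈ F, f L := by
    intro f
    refine sum_bij (fun a _ => D a) (fun a ha => hDm a (mem_range.1 ha)) ?_ ?_ (fun _ _ => rfl)
    · intro a ha b hb he
      exact hDinj a (mem_range.1 ha) b (mem_range.1 hb) he
    · intro L hL
      obtain ⟨a, ha, he⟩ := (hDF L).1 hL
      exact ⟨a, mem_range.2 ha, he⟩
  have hsumz : ∀ f : Finset V → ℤ, ∑ a ∈ range r, f (D a) = ∑ L ∈ F, f L := by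
    intro f
    refine sum_bij (fun a _ => D a) (fun a ha => hDm a (mem_range.1 ha)) ?_ ?_ (fun _ _ => rfl)
    · intro a ha b hb he
      exact hDinj a (mem_range.1 ha) b (mem_range.1 hb) he
    · intro L hL
      obtain ⟨a, ha, he⟩ := (hDF L).1 hL
      exact ⟨a, mem_range.2 ha, he⟩
  have hFc := h.cardF hne
  have hF0 := card_pos.2 hne
  rw [← hn, ← hr]
  refine ⟨x, D, v0, ?_, hxY, hx3, fun _ _ => rfl, hUc, hr.trans hlenF⟩
  refine ⟨⟨hn2, by omega, by omega, ?_, h.ih, h.ihr, h7, h56, h.ij_ins.2.2,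
    fun a ha => h.svge (hDm a ha), fun a ha => (h.cp (hDm a ha)).l_ge, ?_⟩, ?_⟩
  · refine ⟨h.reg, h.tr, hinj, fun a ha => h.YQ (hxYm a ha), fun a ha => h.subQ (hDm a ha), ?_, ?_,
      ?_, ?_, fun a ha => (h.parts _ (hDm a ha)).2.2, fun a ha => h.cr _ (hDm a ha), ?_⟩
    · intro a ha b hb
      exact h.notMem (hDm b hb) (hxYm a ha)
    · intro v hv
      by_cases hvY : v ∈ Y
      · left
        obtain ⟨a, ha, he⟩ := (hxY v).1 hvY
        exact ⟨a, ha, he.symm⟩
      · right
        have h3 : v ∈ F.biUnion id := by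
          rw [h.un]
          exact mem_sdiff.2 ⟨hv, hvY⟩
        obtain ⟨L, hL, hvL⟩ := mem_biUnion.1 h3
        obtain ⟨a, ha, he⟩ := (hDF L).1 hL
        exact ⟨a, ha, he ▸ hvL⟩
    · intro a ha b hb hne
      exact (h.sep _ (hDm a ha) _ (hDm b hb) (fun he => hne (hDinj a ha b hb he))).1
    · intro a ha b hb hne
      exact (h.sep _ (hDm a ha) _ (hDm b hb) (fun he => hne (hDinj a ha b hb he))).2
    · rw [hsum (fun L => rho B L), h.rhoQ]
  · intro S A hS hSne hA hAij hc
    rcases hAij with hAi | hAj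
    · exact h.hallx hinj hxY hDF hDinj hS hSne hA hAi hc
    · exact h.swap.hallx hinj hxY hDF hDinj hS hSne hA hAj hc
  · have h1 := h.sum_wv
    have h2 := card_ins_eq (B := B) (Q := Q) hinj hxY
    have h3 := ee_eq_ib (B := B) (Q := Q) hinj hxY
    have c2 : ((ins B Q Y).card : ℤ) =
        ∑ A ∈ (range (2 ^ (6 + n))).erase 0, ((ib B Q x (6 + n) A).card : ℤ) := by
      rw [h2]
      push_cast
      rfl
    rw [hsumz (fun L => wv B Q L), ← c2, ← h3]
    rw [← hUc, ← hlenF, ← hr] at h1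
    push_cast at h1
    linarith

end Pool.Agent.Hyp6
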