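import Pool.Agent.Hyp6.L3G8

/-!
# HYP6 L3G10: the number of the components of a closed set with two full blocks

`KG.card_lt`: at most `n + 1` components, `n` the number of the further points of the closed set.
`KG.not_leaves`: not all the components are critical of value `-1` without full blocks.
-/

set_option autoImplicit false

namespace Pool.Agent.Hyp6

open Finset Pool.Agent.Hyp5

universe u v

variable {V : Type v} [DecidableEq V] {ι : Type u} [Fintype ι] {B : ι → Finset V}
variable {Q Y : Finset V} {F : Finset (Finset V)} {n r : ℕ} {x : ℕ → V} {D : ℕ → Finset V} {i j : ι}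

/-- there are few components and all of them have few hits: impossible. -/
theorem CfG.not_small (h : CfG B Q n r x D i j) (hr : r ≤ 1 + n)
    (hl : ∀ s < r, 6 * (∑ a ∈ range (6 + n), (Ez B (D s) (x a)).card : ℤ) ≤
      5 * wv B Q (D s) + 55) : False := by
  obtain ⟨L, hLs, hLm, hc, hsum⟩ := h.exists_ins
  have h2e := two_e2n_le n L
  have h64 : 64 ≤ 2 ^ (6 + n) := by
    calc 64 = 2 ^ 6 := by norm_num
      _ ≤ 2 ^ (6 + n) := Nat.pow_le_pow_right (by norm_num) (by omega)
  have hin : ∀ A ∈ (7 :: 56 :: L), A < 2 ^ (6 + n) := by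
    intro A hA
    simp only [List.mem_cons] at hA
    rcases hA with rfl | rfl | hA
    · omega
    · omega
    · exact (hLm A hA).1
  have hrow : ∀ a ∈ range (6 + n), ∑ s ∈ range r, (Ez B (D s) (x a)).card +
      ina (7 :: 56 :: L) a = 5 := by
    intro a ha
    rw [mem_range] at ha
    have h1 := h.cf.deg_ins hin hc ha
    rw [← ina_eq] at h1
    rw [← h1]
    congr 1
    exact sum_congr rfl fun s _ => (ecB_pow h.cf ha).symm
  have htot : ∑ a ∈ range (6 + n), ∑ s ∈ range r, (Ez B (D s) (x a)).card +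
      ((7 :: 56 :: L).map (pcn (6 + n))).sum = 5 * (6 + n) := by
    rw [← sum_ina, ← sum_add_distrib, sum_congr rfl hrow, sum_const, card_range, smul_eq_mul]
    ring
  rw [sum_comm] at htot
  have hp : ((7 :: 56 :: L).map (pcn (6 + n))).sum ≤ 3 * (2 + L.length) := by
    have h7 : pcn (6 + n) 7 ≤ 3 := by
      rw [← h.cf.card_ptm, ← h.i7]
      exact h.cf.tr3 i
    have h56 : pcn (6 + n) 56 ≤ 3 := by
      rw [← h.cf.card_ptm, ← h.j56]
      exact h.cf.tr3 j
    have h8 : (L.map (pcn (6 + n))).sum ≤ 3 * L.length := by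
      have h9 := List.sum_le_card_nsmul (L.map (pcn (6 + n))) 3 (by
        intro m hm
        obtain ⟨A, hA, rfl⟩ := List.mem_map.1 hm
        exact (hLm A hA).2.2)
      rw [List.length_map, smul_eq_mul] at h9
      omega
    rw [List.map_cons, List.map_cons, List.sum_cons, List.sum_cons]
    omega
  have hs : 6 * (∑ s ∈ range r, ∑ a ∈ range (6 + n), ((Ez B (D s) (x a)).card : ℤ)) ≤
      5 * ∑ s ∈ range r, wv B Q (D s) + 55 * r := by
    rw [mul_sum, mul_sum]
    have h1 : ∑ s ∈ range r, 6 * (∑ a ∈ range (6 + n), ((Ez B (D s) (x a)).card : ℤ)) ≤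
        ∑ s ∈ range r, (5 * wv B Q (D s) + 55) :=
      sum_le_sum fun s hs => hl s (mem_range.1 hs)
    rw [sum_add_distrib, sum_const, card_range, nsmul_eq_mul] at h1
    linarith
  have hnn : 0 ≤ ∑ s ∈ range r, wv B Q (D s) :=
    sum_nonneg fun s hs => wv_nn (h.lge s (mem_range.1 hs))
  have htot' : (∑ s ∈ range r, ∑ a ∈ range (6 + n), ((Ez B (D s) (x a)).card : ℤ)) +
      (((7 :: 56 :: L).map (pcn (6 + n))).sum : ℕ) = 5 * (6 + n) := by
    exact_mod_cast htot
  have hp' : ((((7 :: 56 :: L).map (pcn (6 + n))).sum : ℕ) : ℤ) ≤ 3 * (2 + L.length) := by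
    exact_mod_cast hp
  have h2e' : 2 * (e2n n L : ℤ) ≤ L.length := by exact_mod_cast h2e
  have hr' : (r : ℤ) ≤ 1 + n := by exact_mod_cast hr
  have hn2 : (n : ℤ) ≤ 2 := by exact_mod_cast h.n2
  linarith

namespace KG

/-- **at most `n + 1` components.** -/
theorem card_lt (h : KG B Q Y F i j) (hne : F.Nonempty) : F.card + 5 ≤ Y.card := by
  classical
  obtain ⟨x, D, v0, hcf, _, _, _, hcY, hcF⟩ := h.exists_cfG hne
    (nodup_toList (Y \ ((B i ∩ Q) ∪ (B j ∩ Q)))) (fun v => mem_toList) (nodup_toList F)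
    (fun _ => mem_toList)
  have hrn := hcf.rn
  by_contra hcon
  have hr : F.toList.length = 2 + (Y \ ((B i ∩ Q) ∪ (B j ∩ Q))).toList.length := by omega
  rw [hr] at hcf
  obtain ⟨t, ht, x', D', i', j', hR⟩ := hcf.reduceU
  exact noU B Q x' D' i' j' t ht hR

/-- a component which is not critical of value `-1` without full blocks. -/
theorem not_leaves (h : KG B Q Y F i j) (hne : F.Nonempty)
    (hl : ∀ L ∈ F, sv B L = -1 ∧ nt B L 3 = 0) : False := by
  classical
  obtain ⟨x, D, v0, hcf, hxY, _, hDF, hcY, hcF⟩ := h.exists_cfG hne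
    (nodup_toList (Y \ ((B i ∩ Q) ∪ (B j ∩ Q)))) (fun v => mem_toList) (nodup_toList F)
    (fun _ => mem_toList)
  have h1 := h.card_lt hne
  refine hcf.not_small (by omega) fun s hs => ?_
  have hDs : D s ∈ F := by
    rw [hDF s hs, ← mem_toList, ← List.getElem_eq_getD (h := hs)]
    exact List.getElem_mem hs
  obtain ⟨k1, k2⟩ := hl _ hDs
  have k3 := hit_neg_le h.reg h.tr (h.subQ hDs) k1 k2
  have hinj := hcf.cf.inj
  have himY : Y = (range (6 + (Y \ ((B i ∩ Q) ∪ (B j ∩ Q))).toList.length)).image x := by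
    ext v
    rw [hxY, mem_image]
    constructor
    · rintro ⟨a, ha, he⟩
      exact ⟨a, mem_range.2 ha, he⟩
    · rintro ⟨a, ha, he⟩
      exact ⟨a, mem_range.1 ha, he⟩
  have k4 : ∑ a ∈ range (6 + (Y \ ((B i ∩ Q) ∪ (B j ∩ Q))).toList.length),
      (Ez B (D s) (x a)).card = hit B Y (D s) := by
    conv_rhs => rw [himY]
    rw [show hit B ((range (6 + (Y \ ((B i ∩ Q) ∪ (B j ∩ Q))).toList.length)).image x) (D s) =
      ∑ y ∈ (range (6 + (Y \ ((B i ∩ Q) ∪ (B j ∩ Q))).toList.length)).image x,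
        (Ez B (D s) y).card from hit_eq _ _]
    rw [sum_image]
    intro a ha b hb he
    exact hinj a (by simpa using ha) b (by simpa using hb) he
  have k5 : hit B Y (D s) ≤ hit B (Q \ D s) (D s) := by
    rw [show hit B Y (D s) = ∑ y ∈ Y, (Ez B (D s) y).card from hit_eq _ _,
      show hit B (Q \ D s) (D s) = ∑ y ∈ Q \ D s, (Ez B (D s) y).card from hit_eq _ _]
    exact sum_le_sum_of_subset fun v hv => mem_sdiff.2 ⟨h.YQ hv, h.notMem hDs hv⟩
  have k6 : (∑ a ∈ range (6 + (Y \ ((B i ∩ Q) ∪ (B j ∩ Q))).toList.length),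
      ((Ez B (D s) (x a)).card : ℤ)) = (hit B Y (D s) : ℤ) := by exact_mod_cast k4
  rw [k6, wv_neg k1]
  have k7 : (hit B Y (D s) : ℤ) ≤ hit B (Q \ D s) (D s) := by exact_mod_cast k5
  linarith

end KG

end Pool.Agent.Hyp6
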