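import Pool.Agent.Hyp6.L3G10
import Pool.Agent.Hyp6.InsN.N01
import Pool.Agent.Hyp6.InsN.N02

/-!
# HYP6 L3G12: a leaf with a large value among the components of a closed set with two full blocks

`KG.one_cfg`: a component with value `-1` and `4 ≤ wv`: the closed set has seven points and there are two
components. `KG.le_seven`, `KG.no_big`, `Frm.one_three`, `Frm.one_big`: leaves with value `3`, at least `5`.
-/

set_option autoImplicit false

namespace Pool.Agent.Hyp6

open Finset Pool.Agent.Hyp5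

universe u v

variable {V : Type v} [DecidableEq V] {ι : Type u} [Fintype ι] {B : ι → Finset V}
variable {Q Y L M : Finset V} {F : Finset (Finset V)} {i j : ι}

namespace KG

/-- a leaf with a large value: the configuration. -/
theorem one_cfg (h : KG B Q Y F i j) (hL : L ∈ F) (sL : sv B L = -1) (nL : nt B L 3 = 0)
    (hk : 4 ≤ wv B Q L) : ∃ x : ℕ → V, ∃ D : ℕ → Finset V,
      CfG B Q 1 2 x D i j ∧ D 0 = L ∧ (∀ v, v ∈ Y ↔ ∃ a < 7, x a = v) ∧
      wv B Q L + wv B Q (D 1) ≤ 6 ∧
      ∀ A < 2 ^ (6 + 1), A ≠ 0 → (ib B Q x (6 + 1) A).card = ([7, 56] : List ℕ).count A := by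
  classical
  have hne : F.Nonempty := ⟨L, hL⟩
  have hY8 := h.Y8 hne
  have hlt := h.card_lt hne
  have hR : ∃ R ∈ F, R ≠ L := by
    by_contra h1
    push Not at h1
    exact h.not_leaves hne fun K hK => (h1 K hK) ▸ ⟨sL, nL⟩
  obtain ⟨R, hR, hRL⟩ := hR
  have hF2 : 2 ≤ F.card := by
    have h1 := card_le_card (show ({L, R} : Finset (Finset V)) ⊆ F by
      intro K hK
      rw [mem_insert, mem_singleton] at hK
      rcases hK with rfl | rfl
      · exact hL
      · exact hR)
    rwa [card_pair hRL.symm] at h1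
  obtain ⟨x, D, v0, hcf, hxY, _, hDF, hcY, hcF⟩ := h.exists_cfG hne
    (nodup_toList (Y \ ((B i ∩ Q) ∪ (B j ∩ Q)))) (fun v => mem_toList)
    (lF := L :: (F.erase L).toList) (by
      rw [List.nodup_cons]
      refine ⟨?_, nodup_toList _⟩
      rw [mem_toList]
      exact fun h1 => (mem_erase.1 h1).1 rfl) (by
      intro M
      rw [List.mem_cons, mem_toList, mem_erase]
      constructor
      · rintro (rfl | h1)
        · exact hL
        · exact h1.2
      · intro h1
        by_cases h2 : M = L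
        · exact Or.inl h2
        · exact Or.inr ⟨h2, h1⟩)
  obtain ⟨L0, hLs, hLm, hc, hsum⟩ := hcf.exists_ins
  have h2e := two_e2n_le (Y \ ((B i ∩ Q) ∪ (B j ∩ Q))).toList.length L0
  have hD0 : D 0 = L := hDF 0 (by simp)
  have hsge : wv B Q L ≤ ∑ a ∈ range (L :: (F.erase L).toList).length, wv B Q (D a) := by
    have h0 : 0 < (L :: (F.erase L).toList).length := by simp
    have h1 := single_le_sum (f := fun a => wv B Q (D a))
      (fun a ha => wv_nn (hcf.lge a (mem_range.1 ha))) (mem_range.2 h0)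
    simp only [hD0] at h1
    exact h1
  have hn1 : (Y \ ((B i ∩ Q) ∪ (B j ∩ Q))).toList.length = 1 := by omega
  have hr2 : (L :: (F.erase L).toList).length = 2 := by omega
  rw [hn1] at hcf hsum hxY hc h2e
  rw [hr2] at hcf hsum
  simp only [sum_range_succ, sum_range_zero] at hsum
  have hw1 : 0 ≤ wv B Q (D 1) := wv_nn (hcf.lge 1 (by norm_num))
  rw [hD0] at hsum
  have hL0 : L0 = [] := by
    rw [← List.length_eq_zero_iff]
    push_cast at hsum
    omega
  subst hL0
  have he0 : e2n 1 [] = 0 := by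
    simp only [List.length_nil] at h2e
    omega
  rw [he0] at hsum
  simp only [List.length_nil] at hsum
  push_cast at hsum
  exact ⟨x, D, hcf, hD0, hxY, by linarith, hc⟩

/-- the numbers of hits in the configuration. -/
theorem hits7 (h : KG B Q Y F i j) {x : ℕ → V} {D : ℕ → Finset V} (hcf : CfG B Q 1 2 x D i j)
    (hxY : ∀ v, v ∈ Y ↔ ∃ a < 7, x a = v) (K : Finset V) :
    hit B Y K = ∑ a ∈ range 7, (Ez B K (x a)).card ∧
      hit B ((B i ∩ Q) ∪ (B j ∩ Q)) K = ∑ a ∈ range 6, (Ez B K (x a)).card := by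
  classical
  have hinj := hcf.cf.inj
  have himY : Y = (range 7).image x := by
    ext v
    rw [hxY, mem_image]
    constructor
    · rintro ⟨a, ha, he⟩
      exact ⟨a, mem_range.2 ha, he⟩
    · rintro ⟨a, ha, he⟩
      exact ⟨a, mem_range.1 ha, he⟩
  have himT : (B i ∩ Q) ∪ (B j ∩ Q) = (range 6).image x := by
    ext v
    rw [mem_union, hcf.i7, hcf.j56, mem_ptm, mem_ptm, mem_image]
    constructor
    · rintro (⟨a, ha, hb, rfl⟩ | ⟨a, ha, hb, rfl⟩)
      · refine ⟨a, mem_range.2 ?_, rfl⟩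
        by_contra hc'
        push Not at hc'
        have : Nat.testBit 7 a = false := by
          apply Nat.testBit_lt_two_pow
          calc 7 < 2 ^ 6 := by norm_num
            _ ≤ 2 ^ a := Nat.pow_le_pow_right (by norm_num) hc'
        rw [this] at hb
        exact absurd hb (by simp)
      · refine ⟨a, mem_range.2 ?_, rfl⟩
        by_contra hc'
        push Not at hc'
        have : Nat.testBit 56 a = false := by
          apply Nat.testBit_lt_two_pow
          calc 56 < 2 ^ 6 := by norm_num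
            _ ≤ 2 ^ a := Nat.pow_le_pow_right (by norm_num) hc'
        rw [this] at hb
        exact absurd hb (by simp)
    · rintro ⟨a, ha, rfl⟩
      rw [mem_range] at ha
      have k3 : (7).testBit a = true ∨ (56).testBit a = true := by
        interval_cases a <;> decide
      rcases k3 with k3 | k3
      · exact Or.inl ⟨a, by omega, k3, rfl⟩
      · exact Or.inr ⟨a, by omega, k3, rfl⟩
  constructor
  · conv_lhs => rw [himY]
    rw [show hit B ((range 7).image x) K = ∑ y ∈ (range 7).image x, (Ez B K y).card from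
      hit_eq _ _, sum_image]
    intro a ha b hb he
    exact hinj a (by simpa using ha) b (by simpa using hb) he
  · conv_lhs => rw [himT]
    rw [show hit B ((range 6).image x) K = ∑ y ∈ (range 6).image x, (Ez B K y).card from
      hit_eq _ _, sum_image]
    intro a ha b hb he
    exact hinj a (by have := mem_range.1 ha; omega) b (by have := mem_range.1 hb; omega) he

/-- the number of hits on a component. -/
theorem hitY_le (h : KG B Q Y F i j) (hL : L ∈ F) (sL : sv B L = -1) (nL : nt B L 3 = 0) :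
    6 * (hit B Y L : ℤ) ≤ 5 * dv B Q L + 60 := by
  have h1 : hit B Y L ≤ hit B (Q \ L) L := by
    rw [show hit B Y L = ∑ y ∈ Y, (Ez B L y).card from hit_eq _ _,
      show hit B (Q \ L) L = ∑ y ∈ Q \ L, (Ez B L y).card from hit_eq _ _]
    exact sum_le_sum_of_subset fun v hv => mem_sdiff.2 ⟨h.YQ hv, h.notMem hL hv⟩
  have h2 := hit_neg_le h.reg h.tr (h.subQ hL) sL nL
  omega

end KG

/-- the bounds for the leaf value `4`. -/
def blT : List Bnd :=
  [⟨false, [(0, 0), (0, 1), (0, 2), (0, 3), (0, 4), (0, 5), (0, 6)], 12⟩,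
   ⟨true, [(0, 0), (0, 1), (0, 2), (0, 3), (0, 4), (0, 5)], 8⟩]

/-- the bounds for the leaf value `6`. -/
def blV : List Bnd :=
  [⟨false, [(0, 0), (0, 1), (0, 2), (0, 3), (0, 4), (0, 5), (0, 6)], 14⟩]

/-- there are no such configurations. -/
def NoT (V : Type v) [DecidableEq V] (ι : Type u) [Fintype ι] (ub : List ℕ) (bl : List Bnd) : Prop :=
  ∀ (B : ι → Finset V) (Q : Finset V) (x : ℕ → V) (D : ℕ → Finset V), ¬ CfN B Q 1 2 x D ub bl

namespace KG

/-- a leaf of value `4`: at most seven hits of the two full blocks. -/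
theorem le_seven_of (hno : NoT.{u} V ι [4, 2] blT) (h : KG B Q Y F i j) (hL : L ∈ F)
    (sL : sv B L = -1) (nL : nt B L 3 = 0) (dL : dv B Q L = 3) :
    hit B ((B i ∩ Q) ∪ (B j ∩ Q)) L ≤ 7 := by
  classical
  by_contra hcon
  push Not at hcon
  have hwL : wv B Q L = 4 := by rw [wv_neg sL, dL]; norm_num
  obtain ⟨x, D, hcf, hD0, hxY, hw, hc⟩ := h.one_cfg hL sL nL hwL.ge
  have hR3 : CfR B Q (6 + 1) 2 x D [4, 2] [] := hcf.toCg0.toR (by norm_num) (by simp) hc (by
    intro a ha
    interval_cases a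
    · show wv B Q (D 0) ≤ ((4 : ℕ) : ℤ)
      rw [hD0, hwL]
      norm_num
    · show wv B Q (D 1) ≤ ((2 : ℕ) : ℤ)
      push_cast
      omega)
  obtain ⟨k1, k2⟩ := h.hits7 hcf hxY L
  have k3 := h.hitY_le hL sL nL
  rw [dL] at k3
  rw [k1] at k3
  rw [k2] at hcon
  rw [← hD0] at k3 hcon
  simp only [sum_range_succ, sum_range_zero, zero_add] at k3 hcon
  push_cast at k3
  have hek : ∀ a : ℕ, a < 7 → ecB B x (6 + 1) D 0 (2 ^ a) = (Ez B (D 0) (x a)).card :=
    fun a ha => ecB_pow hcf.cf ha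
  refine hno B Q x D ⟨hR3, ?_⟩
  intro b hb
  unfold blT at hb
  simp only [List.mem_cons, List.not_mem_nil, or_false] at hb
  rcases hb with rfl | rfl
  · refine ⟨fun h1 => absurd h1 (by simp), fun _ => ?_⟩
    simp only [Bnd.sm, List.map_cons, List.map_nil, List.sum_cons, List.sum_nil]
    rw [hek, hek, hek, hek, hek, hek, hek] <;> omega
  · refine ⟨fun _ => ?_, fun h1 => absurd h1 (by simp)⟩
    simp only [Bnd.sm, List.map_cons, List.map_nil, List.sum_cons, List.sum_nil]
    rw [hek, hek, hek, hek, hek, hek] <;> omega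

/-- there is no leaf of value at least `6`. -/
theorem no_big_of (hno : NoT.{u} V ι [6, 0] blV) (h : KG B Q Y F i j) (hL : L ∈ F)
    (sL : sv B L = -1) (nL : nt B L 3 = 0) (dL : 5 ≤ dv B Q L) : False := by
  classical
  have hwL : wv B Q L = dv B Q L + 1 := wv_neg sL
  obtain ⟨x, D, hcf, hD0, hxY, hw, hc⟩ := h.one_cfg hL sL nL (by omega)
  have hw1 : 0 ≤ wv B Q (D 1) := wv_nn (hcf.lge 1 (by norm_num))
  have hR3 : CfR B Q (6 + 1) 2 x D [6, 0] [] := hcf.toCg0.toR (by norm_num) (by simp) hc (by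
    intro a ha
    interval_cases a
    · show wv B Q (D 0) ≤ ((6 : ℕ) : ℤ)
      rw [hD0]
      push_cast
      omega
    · show wv B Q (D 1) ≤ ((0 : ℕ) : ℤ)
      push_cast
      omega)
  obtain ⟨k1, -⟩ := h.hits7 hcf hxY L
  have k3 := h.hitY_le hL sL nL
  rw [k1] at k3
  rw [← hD0] at k3
  simp only [sum_range_succ, sum_range_zero, zero_add] at k3
  push_cast at k3
  have k4 : dv B Q (D 0) = 5 := by rw [hD0]; omega
  rw [k4] at k3
  have hek : ∀ a : ℕ, a < 7 → ecB B x (6 + 1) D 0 (2 ^ a) = (Ez B (D 0) (x a)).card :=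
    fun a ha => ecB_pow hcf.cf ha
  refine hno B Q x D ⟨hR3, ?_⟩
  intro b hb
  unfold blV at hb
  simp only [List.mem_cons, List.not_mem_nil, or_false] at hb
  subst hb
  refine ⟨fun h1 => absurd h1 (by simp), fun _ => ?_⟩
  simp only [Bnd.sm, List.map_cons, List.map_nil, List.sum_cons, List.sum_nil]
  rw [hek, hek, hek, hek, hek, hek, hek] <;> omega

end KG

theorem noT4 : NoT.{u} V ι [4, 2] blT := fun _ _ _ _ h => noN_01 h

theorem noT6 : NoT.{u} V ι [6, 0] blV := fun _ _ _ _ h => noN_02 h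

namespace KG

/-- **a leaf of value `4` (a component with value `3`)**: at most seven hits of the two full blocks. -/
theorem le_seven (h : KG B Q Y F i j) (hL : L ∈ F) (sL : sv B L = -1) (nL : nt B L 3 = 0)
    (dL : dv B Q L = 3) : hit B ((B i ∩ Q) ∪ (B j ∩ Q)) L ≤ 7 :=
  h.le_seven_of noT4 hL sL nL dL

/-- **there is no leaf with value at least five.** -/
theorem no_big (h : KG B Q Y F i j) (hL : L ∈ F) (sL : sv B L = -1) (nL : nt B L 3 = 0)
    (dL : 5 ≤ dv B Q L) : False :=
  h.no_big_of noT6 hL sL nL dL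

end KG

namespace Frm

variable {U C : Finset V} {T : Finset ι}

/-- the closure of the contacts of a leaf of the frame, all contacts in two triples and one point. -/
theorem exists_KG (h : Frm B Q T U F) (hv : ViolR B Q) (hi : i ∈ T) (hj : j ∈ T) (hij : i ≠ j)
    (hC : C ∈ F) {p : V} (hp : ∀ v ∈ Q \ (C ∪ ((B i ∩ Q) ∪ (B j ∩ Q))), v ≠ p → Ez B C v = ∅) :
    ∃ Y F', KG B Q Y F' i j ∧ C ∈ F' := by
  classical
  have fi := h.mtp.tpk.pack.card i hi
  have fj := h.mtp.tpk.pack.card j hj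
  set W := Q \ (C ∪ ((B i ∩ Q) ∪ (B j ∩ Q))) with hW
  set P := W.filter (fun y => (Ez B C y).Nonempty) with hP
  have hP1 : P.card ≤ 1 := by
    have h1 : P ⊆ {p} := by
      intro v hv'
      obtain ⟨h2, h3⟩ := mem_filter.1 hv'
      rw [mem_singleton]
      by_contra h4
      exact h3.ne_empty (hp v h2 h4)
    exact (card_le_card h1).trans (by simp)
  have hWd : ∀ v ∈ W, v ∉ C ∧ v ∉ B i ∩ Q ∧ v ∉ B j ∩ Q := by
    intro v hv'
    rw [hW, mem_sdiff, mem_union, mem_union] at hv'
    push Not at hv'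
    exact hv'.2
  have hPW : P ⊆ W := filter_subset _ _
  have hcon' : ∀ k, (B k ∩ C).Nonempty → B k ∩ Q ⊆ C ∪ ((B i ∩ Q) ∪ ((B j ∩ Q) ∪ P)) := by
    intro k hk v hv'
    by_cases hvW : v ∈ W
    · have : v ∈ P := mem_filter.2 ⟨hvW, k, mem_Ez.2 ⟨(mem_inter.1 hv').1, hk⟩⟩
      exact mem_union_right _ (mem_union_right _ (mem_union_right _ this))
    · rw [hW, mem_sdiff, not_and, not_not, mem_union, mem_union] at hvW
      rcases hvW (mem_inter.1 hv').2 with h1 | h1 | h1
      · exact mem_union_left _ h1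
      · exact mem_union_right _ (mem_union_left _ h1)
      · exact mem_union_right _ (mem_union_right _ (mem_union_left _ h1))
  obtain ⟨Y, F', hK, _, hLF⟩ := hv.exists_KG fi fj (h.mtp.tpk.pack.disj i hi j hj hij)
    (hv.lemA' fi).1 (hv.lemA' fi).2.1 (hv.lemA' fj).1 (hv.lemA' fj).2.1 (h.FQ hC) (h.conn_leaf hC)
    (h.critL hC) (h.disT hC hi) (h.disT hC hj) (hPW.trans sdiff_subset)
    (disjoint_left.2 fun v hv' => (hWd v (hPW hv')).2.1)
    (disjoint_left.2 fun v hv' => (hWd v (hPW hv')).1) hP1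
    (fun p hp' => (mem_filter.1 hp').2) hcon'
  exact ⟨Y, F', hK, hLF⟩

/-- **a leaf with value three**, all contacts in two triples and one point: at most seven hits of the
two triples. -/
theorem one_three (h : Frm B Q T U F) (hv : ViolR B Q) (hi : i ∈ T) (hj : j ∈ T) (hij : i ≠ j)
    (hC : C ∈ F) {p : V} (hp : ∀ v ∈ Q \ (C ∪ ((B i ∩ Q) ∪ (B j ∩ Q))), v ≠ p → Ez B C v = ∅)
    (hdv : dv B Q C = 3) : hit B ((B i ∩ Q) ∪ (B j ∩ Q)) C ≤ 7 := by
  obtain ⟨Y, F', hK, hLF⟩ := h.exists_KG hv hi hj hij hC hp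
  exact hK.le_seven hLF (h.sv_leaf hC) (h.nt3 hC) hdv

/-- **a leaf with value at least five** has contacts in two points outside two triples. -/
theorem one_big (h : Frm B Q T U F) (hv : ViolR B Q) (hi : i ∈ T) (hj : j ∈ T) (hij : i ≠ j)
    (hC : C ∈ F) {p : V} (hp : ∀ v ∈ Q \ (C ∪ ((B i ∩ Q) ∪ (B j ∩ Q))), v ≠ p → Ez B C v = ∅)
    (hdv : 5 ≤ dv B Q C) : False := by
  obtain ⟨Y, F', hK, hLF⟩ := h.exists_KG hv hi hj hij hC hp
  exact hK.no_big hLF (h.sv_leaf hC) (h.nt3 hC) hdv

end Frm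

end Pool.Agent.Hyp6
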