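import Pool.Agent.Hyp6.L3G10
import Pool.Agent.Hyp6.InsN.N03
import Pool.Agent.Hyp6.InsN.N04

/-!
# HYP6 L3G13: two leaves with value `-1`

A closed set with two full blocks, among whose components are two leaves `L`, `M` with value `-1`.
`KG.two_31`: the two full blocks have at most nine hits on `L` and `M` together. `KG.two_31p`: if the
points of the closed set except the two full blocks and one point `u` have at most one hit on `L` and `M`
together, then at most five.
-/

set_option autoImplicit false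

namespace Pool.Agent.Hyp6

open Finset Pool.Agent.Hyp5

universe u v

variable {V : Type v} [DecidableEq V] {ι : Type u} [Fintype ι] {B : ι → Finset V}
variable {Q Y L M : Finset V} {F : Finset (Finset V)} {i j : ι}

/-- the bounds of the instance with a bound for the last point. -/
def blQ : List Bnd :=
  [⟨false, [(0, 0), (0, 1), (0, 2), (0, 3), (0, 4), (0, 5), (0, 6), (0, 7)], 9⟩,
   ⟨false, [(1, 0), (1, 1), (1, 2), (1, 3), (1, 4), (1, 5), (1, 6), (1, 7)], 9⟩,
   ⟨false, [(0, 7), (1, 7)], 1⟩,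
   ⟨true, [(0, 0), (0, 1), (0, 2), (0, 3), (0, 4), (0, 5), (1, 0), (1, 1), (1, 2), (1, 3), (1, 4),
     (1, 5)], 6⟩]

/-- the bounds of the general instance. -/
def blR : List Bnd :=
  [⟨false, [(0, 0), (0, 1), (0, 2), (0, 3), (0, 4), (0, 5), (0, 6), (0, 7)], 9⟩,
   ⟨false, [(1, 0), (1, 1), (1, 2), (1, 3), (1, 4), (1, 5), (1, 6), (1, 7)], 9⟩,
   ⟨true, [(0, 0), (0, 1), (0, 2), (0, 3), (0, 4), (0, 5), (1, 0), (1, 1), (1, 2), (1, 3), (1, 4),
     (1, 5)], 10⟩]

/-- there is no such configuration. -/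
def NoQ (V : Type v) [DecidableEq V] (ι : Type u) [Fintype ι] (bl : List Bnd) : Prop :=
  ∀ (B : ι → Finset V) (Q : Finset V) (x : ℕ → V) (D : ℕ → Finset V),
    ¬ CfN B Q 2 3 x D [0, 0, 2] bl

namespace KG

/-- two leaves of value `-1`: the configuration. -/
theorem two_cfg (h : KG B Q Y F i j) (hL : L ∈ F) (hM : M ∈ F) (hLM : L ≠ M)
    (sL : sv B L = -1) (nL : nt B L 3 = 0) (dL : dv B Q L = -1) (sM : sv B M = -1)
    (nM : nt B M 3 = 0) (dM : dv B Q M = -1) :
    (Y \ ((B i ∩ Q) ∪ (B j ∩ Q))).card = 2 ∧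
    ∀ u ∈ Y \ ((B i ∩ Q) ∪ (B j ∩ Q)), ∃ x : ℕ → V, ∃ D : ℕ → Finset V,
      CfR B Q (6 + 2) 3 x D [0, 0, 2] [] ∧ D 0 = L ∧ D 1 = M ∧
      (∀ K, hit B ((B i ∩ Q) ∪ (B j ∩ Q)) K = ∑ a ∈ range 6, (Ez B K (x a)).card) ∧
      (∀ K, hit B (Y \ ((B i ∩ Q) ∪ (B j ∩ Q) ∪ {u})) K = (Ez B K (x 7)).card) ∧
      (∑ a ∈ range 8, (Ez B L (x a)).card ≤ 9) ∧ (∑ a ∈ range 8, (Ez B M (x a)).card ≤ 9) ∧
      ∀ c a : ℕ, a < 8 → ecB B x (6 + 2) D c (2 ^ a) = (Ez B (D c) (x a)).card := by
  classical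
  have hne : F.Nonempty := ⟨L, hL⟩
  have hY8 := h.Y8 hne
  have hlt := h.card_lt hne
  -- a third component
  have hF3 : ∃ R ∈ F, R ≠ L ∧ R ≠ M := by
    by_contra h1
    push Not at h1
    refine h.not_leaves hne fun K hK => ?_
    by_cases hKL : K = L
    · exact hKL ▸ ⟨sL, nL⟩
    · exact (h1 K hK hKL) ▸ ⟨sM, nM⟩
  obtain ⟨R, hR, hRL, hRM⟩ := hF3
  have hF3 : 3 ≤ F.card := by
    have h1 : ({L, M, R} : Finset (Finset V)) ⊆ F := by
      intro K hK
      simp only [mem_insert, mem_singleton] at hK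
      rcases hK with rfl | rfl | rfl
      · exact hL
      · exact hM
      · exact hR
    have h2 := card_le_card h1
    rw [card_insert_of_notMem (by simp [hLM, hRL.symm]), card_pair hRM.symm] at h2
    exact h2
  have hFc : F.card = 3 := by omega
  have hYc : Y.card = 8 := by omega
  set T := (B i ∩ Q) ∪ (B j ∩ Q) with hT
  have hTc : T.card = 6 := by rw [hT, card_union_of_disjoint h.dij, h.fi, h.fj]
  have hTY : T ⊆ Y := union_subset h.iY h.jY
  have hUc : (Y \ T).card = 2 := by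
    have := card_sdiff_add_card_eq_card hTY
    omega
  refine ⟨hUc, fun u huU => ?_⟩
  obtain ⟨p, hp⟩ : ∃ p, (Y \ T).erase u = {p} := card_eq_one.1 (by
    rw [card_erase_of_mem huU, hUc])
  have hpu : p ≠ u := by
    have : p ∈ (Y \ T).erase u := by rw [hp]; exact mem_singleton_self p
    exact (mem_erase.1 this).1
  have hU2 : Y \ T = {u, p} := by rw [← insert_erase huU, hp]
  have hFe : F = {L, M, R} := by
    symm
    refine eq_of_subset_of_card_le ?_ ?_
    · intro K hK
      simp only [mem_insert, mem_singleton] at hK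
      rcases hK with rfl | rfl | rfl
      · exact hL
      · exact hM
      · exact hR
    · rw [card_insert_of_notMem (by simp [hLM, hRL.symm]), card_pair hRM.symm, hFc]
  obtain ⟨x, D, v0, hcf, hxY, hxU, hDF, hcY, hcF⟩ := h.exists_cfG hne (lU := [u, p])
    (by simp [hpu.symm]) (by
      intro v
      rw [← hT, hU2]
      simp) (lF := [L, M, R]) (by simp [hLM, hRL.symm, hRM.symm]) (by
      intro K
      rw [hFe]
      simp)
  have hD0 : D 0 = L := hDF 0 (by simp)
  have hD1 : D 1 = M := hDF 1 (by simp)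
  have hx7 : x 7 = p := hxU 1 (by simp)
  have hcf' : CfG B Q 2 3 x D i j := hcf
  obtain ⟨L0, hLs, hLm, hc, hsum⟩ := hcf'.exists_ins
  have h2e := two_e2n_le 2 L0
  have hw0 : wv B Q (D 0) = 0 := by rw [hD0, wv_neg sL, dL]; norm_num
  have hw1 : wv B Q (D 1) = 0 := by rw [hD1, wv_neg sM, dM]; norm_num
  have hw2 : 0 ≤ wv B Q (D 2) := wv_nn (hcf'.lge 2 (by norm_num))
  have hev : wv B Q (D 2) % 2 = 0 := wv_even (D 2)
  simp only [sum_range_succ, sum_range_zero] at hsum
  have hL0 : L0 = [] := by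
    rw [← List.length_eq_zero_iff]
    push_cast at hsum
    omega
  subst hL0
  have he0 : e2n 2 [] = 0 := by
    simp only [List.length_nil] at h2e
    omega
  rw [he0] at hsum
  simp only [List.length_nil] at hsum
  push_cast at hsum
  have hR3 : CfR B Q (6 + 2) 3 x D [0, 0, 2] [] := hcf'.toCg0.toR (by norm_num) (by simp) hc (by
    intro a ha
    interval_cases a
    · show wv B Q (D 0) ≤ ((0 : ℕ) : ℤ)
      push_cast
      omega
    · show wv B Q (D 1) ≤ ((0 : ℕ) : ℤ)
      push_cast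
      omega
    · show wv B Q (D 2) ≤ ((2 : ℕ) : ℤ)
      push_cast
      omega)
  have hinj := hcf'.cf.inj
  -- the numbers of hits
  have himY : Y = (range 8).image x := by
    ext v
    rw [hxY, mem_image]
    constructor
    · rintro ⟨a, ha, he⟩
      exact ⟨a, mem_range.2 ha, he⟩
    · rintro ⟨a, ha, he⟩
      exact ⟨a, mem_range.1 ha, he⟩
  have hinj8 : Set.InjOn x (range 8 : Finset ℕ) := fun a ha b hb he =>
    hinj a (by simpa using ha) b (by simpa using hb) he
  have himT : T = (range 6).image x := by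
    ext v
    rw [hT, mem_union, hcf'.i7, hcf'.j56, mem_ptm, mem_ptm, mem_image]
    constructor
    · rintro (⟨a, ha, hb, rfl⟩ | ⟨a, ha, hb, rfl⟩)
      · refine ⟨a, mem_range.2 ?_, rfl⟩
        by_contra hc'
        push Not at hc'
        have : Nat.testBit 7 a = false := by
          apply Nat.testBit_lt_two_pow
          calc 7 < 2 ^ 6 := by norm_num
            _ ≤ 2 ^ a := Nat.pow_le_pow_right (by norm_num) hc'
        rw [this] at hb
        exact absurd hb (by simp)
      · refine ⟨a, mem_range.2 ?_, rfl⟩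
        by_contra hc'
        push Not at hc'
        have : Nat.testBit 56 a = false := by
          apply Nat.testBit_lt_two_pow
          calc 56 < 2 ^ 6 := by norm_num
            _ ≤ 2 ^ a := Nat.pow_le_pow_right (by norm_num) hc'
        rw [this] at hb
        exact absurd hb (by simp)
    · rintro ⟨a, ha, rfl⟩
      rw [mem_range] at ha
      have k3 : (7).testBit a = true ∨ (56).testBit a = true := by
        interval_cases a <;> decide
      rcases k3 with k3 | k3
      · exact Or.inl ⟨a, by omega, k3, rfl⟩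
      · exact Or.inr ⟨a, by omega, k3, rfl⟩
  have hitY : ∀ K, hit B Y K = ∑ a ∈ range 8, (Ez B K (x a)).card := by
    intro K
    conv_lhs => rw [himY]
    rw [show hit B ((range 8).image x) K = ∑ y ∈ (range 8).image x, (Ez B K y).card from
      hit_eq _ _, sum_image hinj8]
  have hYL : ∀ K ∈ F, hit B Y K ≤ hit B (Q \ K) K := by
    intro K hK
    rw [show hit B Y K = ∑ y ∈ Y, (Ez B K y).card from hit_eq _ _,
      show hit B (Q \ K) K = ∑ y ∈ Q \ K, (Ez B K y).card from hit_eq _ _]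
    exact sum_le_sum_of_subset fun v hv => mem_sdiff.2 ⟨h.YQ hv, h.notMem hK hv⟩
  refine ⟨x, D, hR3, hD0, hD1, fun K => ?_, fun K => ?_, ?_, ?_, fun c a ha => ecB_pow hcf'.cf ha⟩
  · conv_lhs => rw [himT]
    rw [show hit B ((range 6).image x) K = ∑ y ∈ (range 6).image x, (Ez B K y).card from
      hit_eq _ _, sum_image]
    intro a ha b hb he
    exact hinj a (by have := mem_range.1 ha; omega) b (by have := mem_range.1 hb; omega) he
  · have h1 : Y \ (T ∪ {u}) = {p} := by
      ext v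
      have h2 : v ∈ Y \ T ↔ v = u ∨ v = p := by
        rw [hU2, mem_insert, mem_singleton]
      rw [mem_sdiff] at h2
      rw [mem_sdiff, mem_union, mem_singleton, mem_singleton]
      constructor
      · rintro ⟨h3, h4⟩
        push Not at h4
        rcases h2.1 ⟨h3, h4.1⟩ with h5 | h5
        · exact absurd h5 h4.2
        · exact h5
      · rintro rfl
        obtain ⟨h3, h4⟩ := h2.2 (Or.inr rfl)
        exact ⟨h3, fun h5 => h5.elim h4 hpu⟩
    rw [h1, hx7, show hit B {p} K = ∑ y ∈ {p}, (Ez B K y).card from hit_eq _ _, sum_singleton]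
  · rw [← hitY]
    have h1 := hYL L hL
    have h2 := hit_neg_le h.reg h.tr (h.subQ hL) sL nL
    rw [dL] at h2
    omega
  · rw [← hitY]
    have h1 := hYL M hM
    have h2 := hit_neg_le h.reg h.tr (h.subQ hM) sM nM
    rw [dM] at h2
    omega

/-- two leaves of value `-1`, at most one hit of the last point. -/
theorem two_31p_of (hno : NoQ.{u} V ι blQ) (h : KG B Q Y F i j) (hL : L ∈ F) (hM : M ∈ F)
    (hLM : L ≠ M) (sL : sv B L = -1) (nL : nt B L 3 = 0) (dL : dv B Q L = -1) (sM : sv B M = -1)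
    (nM : nt B M 3 = 0) (dM : dv B Q M = -1) {u : V}
    (hu : u ∈ Y) (hui : u ∉ B i) (huj : u ∉ B j)
    (hw : hit B (Y \ ((B i ∩ Q) ∪ (B j ∩ Q) ∪ {u})) L +
      hit B (Y \ ((B i ∩ Q) ∪ (B j ∩ Q) ∪ {u})) M ≤ 1) :
    hit B ((B i ∩ Q) ∪ (B j ∩ Q)) L + hit B ((B i ∩ Q) ∪ (B j ∩ Q)) M ≤ 5 := by
  classical
  by_contra hcon
  push Not at hcon
  obtain ⟨-, hx⟩ := h.two_cfg hL hM hLM sL nL dL sM nM dM
  obtain ⟨x, D, hR3, hD0, hD1, hitT, hitp, hsL, hsM, hek⟩ := hx u (by
    rw [mem_sdiff, mem_union]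
    exact ⟨hu, fun h1 => h1.elim (fun h2 => hui (mem_inter.1 h2).1)
      fun h2 => huj (mem_inter.1 h2).1⟩)
  rw [hitT, hitT] at hcon
  rw [hitp, hitp] at hw
  rw [← hD0] at hsL
  rw [← hD1] at hsM
  rw [← hD0, ← hD1] at hw hcon
  simp only [sum_range_succ, sum_range_zero, zero_add] at hsL hsM hcon
  refine hno B Q x D ⟨hR3, ?_⟩
  intro b hb
  unfold blQ at hb
  simp only [List.mem_cons, List.not_mem_nil, or_false] at hb
  rcases hb with rfl | rfl | rfl | rfl
  · refine ⟨fun h1 => absurd h1 (by simp), fun _ => ?_⟩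
    simp only [Bnd.sm, List.map_cons, List.map_nil, List.sum_cons, List.sum_nil]
    rw [hek, hek, hek, hek, hek, hek, hek, hek] <;> omega
  · refine ⟨fun h1 => absurd h1 (by simp), fun _ => ?_⟩
    simp only [Bnd.sm, List.map_cons, List.map_nil, List.sum_cons, List.sum_nil]
    rw [hek, hek, hek, hek, hek, hek, hek, hek] <;> omega
  · refine ⟨fun h1 => absurd h1 (by simp), fun _ => ?_⟩
    simp only [Bnd.sm, List.map_cons, List.map_nil, List.sum_cons, List.sum_nil]
    rw [hek, hek] <;> omega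
  · refine ⟨fun _ => ?_, fun h1 => absurd h1 (by simp)⟩
    simp only [Bnd.sm, List.map_cons, List.map_nil, List.sum_cons, List.sum_nil]
    rw [hek, hek, hek, hek, hek, hek, hek, hek, hek, hek, hek, hek] <;> omega

/-- two leaves of value `-1`. -/
theorem two_31_of (hno : NoQ.{u} V ι blR) (h : KG B Q Y F i j) (hL : L ∈ F) (hM : M ∈ F)
    (hLM : L ≠ M) (sL : sv B L = -1) (nL : nt B L 3 = 0) (dL : dv B Q L = -1) (sM : sv B M = -1)
    (nM : nt B M 3 = 0) (dM : dv B Q M = -1) :
    hit B ((B i ∩ Q) ∪ (B j ∩ Q)) L + hit B ((B i ∩ Q) ∪ (B j ∩ Q)) M ≤ 9 := by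
  classical
  by_contra hcon
  push Not at hcon
  obtain ⟨hc2, hx⟩ := h.two_cfg hL hM hLM sL nL dL sM nM dM
  obtain ⟨u, hu⟩ : (Y \ ((B i ∩ Q) ∪ (B j ∩ Q))).Nonempty := by
    rw [← card_pos]
    omega
  obtain ⟨x, D, hR3, hD0, hD1, hitT, hitp, hsL, hsM, hek⟩ := hx u hu
  rw [hitT, hitT] at hcon
  rw [← hD0] at hsL
  rw [← hD1] at hsM
  rw [← hD0, ← hD1] at hcon
  simp only [sum_range_succ, sum_range_zero, zero_add] at hsL hsM hcon
  refine hno B Q x D ⟨hR3, ?_⟩
  intro b hb
  unfold blR at hb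
  simp only [List.mem_cons, List.not_mem_nil, or_false] at hb
  rcases hb with rfl | rfl | rfl
  · refine ⟨fun h1 => absurd h1 (by simp), fun _ => ?_⟩
    simp only [Bnd.sm, List.map_cons, List.map_nil, List.sum_cons, List.sum_nil]
    rw [hek, hek, hek, hek, hek, hek, hek, hek] <;> omega
  · refine ⟨fun h1 => absurd h1 (by simp), fun _ => ?_⟩
    simp only [Bnd.sm, List.map_cons, List.map_nil, List.sum_cons, List.sum_nil]
    rw [hek, hek, hek, hek, hek, hek, hek, hek] <;> omega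
  · refine ⟨fun _ => ?_, fun h1 => absurd h1 (by simp)⟩
    simp only [Bnd.sm, List.map_cons, List.map_nil, List.sum_cons, List.sum_nil]
    rw [hek, hek, hek, hek, hek, hek, hek, hek, hek, hek, hek, hek] <;> omega

end KG

/-- the instances are impossible. -/
theorem noQ_p : NoQ.{u} V ι blQ := fun _ _ _ _ h => noN_03 h

theorem noQ_g : NoQ.{u} V ι blR := fun _ _ _ _ h => noN_04 h

/-- **two leaves of value `-1`** among the components: if the points outside the two full blocks and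
one point have at most one hit on them, the two full blocks have at most five. -/
theorem KG.two_31p (h : KG B Q Y F i j) (hL : L ∈ F) (hM : M ∈ F) (hLM : L ≠ M)
    (sL : sv B L = -1) (nL : nt B L 3 = 0) (dL : dv B Q L = -1) (sM : sv B M = -1)
    (nM : nt B M 3 = 0) (dM : dv B Q M = -1) {u : V}
    (hu : u ∈ Y) (hui : u ∉ B i) (huj : u ∉ B j)
    (hw : hit B (Y \ ((B i ∩ Q) ∪ (B j ∩ Q) ∪ {u})) L +
      hit B (Y \ ((B i ∩ Q) ∪ (B j ∩ Q) ∪ {u})) M ≤ 1) :
    hit B ((B i ∩ Q) ∪ (B j ∩ Q)) L + hit B ((B i ∩ Q) ∪ (B j ∩ Q)) M ≤ 5 :=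
  h.two_31p_of noQ_p hL hM hLM sL nL dL sM nM dM hu hui huj hw

/-- **two leaves of value `-1`** among the components: the two full blocks have at most nine hits on
them. -/
theorem KG.two_31 (h : KG B Q Y F i j) (hL : L ∈ F) (hM : M ∈ F) (hLM : L ≠ M)
    (sL : sv B L = -1) (nL : nt B L 3 = 0) (dL : dv B Q L = -1) (sM : sv B M = -1)
    (nM : nt B M 3 = 0) (dM : dv B Q M = -1) :
    hit B ((B i ∩ Q) ∪ (B j ∩ Q)) L + hit B ((B i ∩ Q) ∪ (B j ∩ Q)) M ≤ 9 :=
  h.two_31_of noQ_g hL hM hLM sL nL dL sM nM dM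

end Pool.Agent.Hyp6
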