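import Pool.Agent.Hyp6.CfGP
import Pool.Agent.Hyp6.L3G12

/-!
# HYP6 L3G14: a component with contacts in two full blocks and one further point

`KG.few_P`: a component of value `-1` of a closed set with two full blocks, which is met from at most one
further point, by any number of blocks; from the impossibility of the instances `NoP`.
-/

set_option autoImplicit false

namespace Pool.Agent.Hyp6

open Finset Pool.Agent.Hyp5

universe u v

variable {V : Type v} [DecidableEq V] {ι : Type u} [Fintype ι] {B : ι → Finset V}
variable {Q L Y : Finset V} {F : Finset (Finset V)} {i j : ι} {k s H : ℕ}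

/-- **a component and one further point.** -/
theorem KG.few_P (hnoP : NoP.{u} V ι k s H) (hK : KG B Q Y F i j) (hLF : L ∈ F) (hLs : sv B L = -1)
    (hdv : dv B Q L + 1 = k) (hsk : 6 * s ≤ 5 * k + 55) {p : V}
    (hp : ∀ v ∈ Y, v ∉ B i → v ∉ B j → v ≠ p → Ez B L v = ∅) (hslot : hit B (Q \ L) L ≤ s)
    (hH : H ≤ hit B ((B i ∩ Q) ∪ (B j ∩ Q)) L) : False := by
  classical
  set U := Y \ ((B i ∩ Q) ∪ (B j ∩ Q)) with hU
  set P := U.filter (fun y => (Ez B L y).Nonempty) with hP
  have hPU : P ⊆ U := filter_subset _ _
  have hP1 : P.card ≤ 1 := by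
    have h1 : P ⊆ {p} := by
      intro v hv'
      obtain ⟨h2, h3⟩ := mem_filter.1 hv'
      rw [mem_singleton]
      by_contra h4
      rw [hU, mem_sdiff, mem_union, not_or, mem_inter, mem_inter] at h2
      have h5 := hK.YQ h2.1
      exact h3.ne_empty (hp v h2.1 (fun h6 => h2.2.1 ⟨h6, h5⟩) (fun h6 => h2.2.2 ⟨h6, h5⟩) h4)
    exact (card_le_card h1).trans (by simp)
  set lU := P.toList ++ (U \ P).toList with hlU
  have hlUn : lU.Nodup := by
    rw [hlU, List.nodup_append]
    refine ⟨nodup_toList _, nodup_toList _, ?_⟩
    intro a ha b hb hab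
    rw [mem_toList] at ha hb
    subst hab
    exact (mem_sdiff.1 hb).2 ha
  have hlUm : ∀ v, v ∈ lU ↔ v ∈ U := by
    intro v
    rw [hlU, List.mem_append, mem_toList, mem_toList, mem_sdiff]
    constructor
    · rintro (h1 | h1)
      · exact hPU h1
      · exact h1.1
    · intro h1
      tauto
  set lF := L :: (F.erase L).toList with hlF
  have hlFn : lF.Nodup := by
    rw [hlF, List.nodup_cons]
    refine ⟨?_, nodup_toList _⟩
    rw [mem_toList]
    exact fun h1 => (mem_erase.1 h1).1 rfl
  have hlFm : ∀ M, M ∈ lF ↔ M ∈ F := by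
    intro M
    rw [hlF, List.mem_cons, mem_toList, mem_erase]
    constructor
    · rintro (rfl | h1)
      · exact hLF
      · exact h1.2
    · intro h1
      by_cases h2 : M = L
      · exact Or.inl h2
      · exact Or.inr ⟨h2, h1⟩
  obtain ⟨x, D, v0, hcf, hxY, hxU, hDF, hcY, hcF⟩ := hK.exists_cfG ⟨L, hLF⟩ hlUn hlUm hlFn hlFm
  have hlF0 : 0 < lF.length := by
    rw [hlF]
    simp
  have hD0 : D 0 = L := by
    rw [hDF 0 hlF0, hlF]
    rfl
  -- the numbers of hits
  have hw0 : wv B Q L = dv B Q L + 1 := wv_neg hLs
  have hzero : ∀ v ∈ Y, v ∉ B i ∩ Q → v ∉ B j ∩ Q → v ∉ P → (Ez B L v).card = 0 := by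
    intro v hv k1 k2 k3
    rw [card_eq_zero]
    by_contra k4
    apply k3
    refine mem_filter.2 ⟨?_, nonempty_iff_ne_empty.2 k4⟩
    rw [hU, mem_sdiff, mem_union, not_or]
    exact ⟨hv, k1, k2⟩
  have hinj := hcf.cf.inj
  have himY : Y = (range (6 + lU.length)).image x := by
    ext v
    rw [hxY, mem_image]
    constructor
    · rintro ⟨a, ha, he⟩
      exact ⟨a, mem_range.2 ha, he⟩
    · rintro ⟨a, ha, he⟩
      exact ⟨a, mem_range.1 ha, he⟩
  have hlf : LfP B Q lU.length x D s H := by
    refine ⟨?_, ?_, ?_, ?_⟩
    · rw [hD0, hw0, hdv]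
      exact_mod_cast hsk
    · rw [hD0]
      have k1 : ∑ a ∈ range (6 + lU.length), (Ez B L (x a)).card = hit B Y L := by
        rw [himY]
        rw [show hit B ((range (6 + lU.length)).image x) L =
          ∑ y ∈ (range (6 + lU.length)).image x, (Ez B L y).card from hit_eq _ L]
        rw [sum_image]
        intro a ha b hb he
        exact hinj a (by simpa using ha) b (by simpa using hb) he
      rw [k1]
      refine le_trans ?_ hslot
      rw [show hit B Y L = ∑ y ∈ Y, (Ez B L y).card from hit_eq _ L,
        show hit B (Q \ L) L = ∑ y ∈ Q \ L, (Ez B L y).card from hit_eq _ L]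
      exact sum_le_sum_of_subset fun v hv => mem_sdiff.2 ⟨hK.YQ hv, hK.notMem hLF hv⟩
    · rw [hD0]
      have k1 : ∑ a ∈ range 6, (Ez B L (x a)).card =
          hit B ((B i ∩ Q) ∪ (B j ∩ Q)) L := by
        have k2 : (B i ∩ Q) ∪ (B j ∩ Q) = (range 6).image x := by
          ext v
          rw [mem_union, hcf.i7, hcf.j56, mem_ptm, mem_ptm, mem_image]
          constructor
          · rintro (⟨a, ha, hb, rfl⟩ | ⟨a, ha, hb, rfl⟩)
            · refine ⟨a, mem_range.2 ?_, rfl⟩
              by_contra hc
              push Not at hc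
              have : Nat.testBit 7 a = false := by
                apply Nat.testBit_lt_two_pow
                calc 7 < 2 ^ 6 := by norm_num
                  _ ≤ 2 ^ a := Nat.pow_le_pow_right (by norm_num) hc
              rw [this] at hb
              exact absurd hb (by simp)
            · refine ⟨a, mem_range.2 ?_, rfl⟩
              by_contra hc
              push Not at hc
              have : Nat.testBit 56 a = false := by
                apply Nat.testBit_lt_two_pow
                calc 56 < 2 ^ 6 := by norm_num
                  _ ≤ 2 ^ a := Nat.pow_le_pow_right (by norm_num) hc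
              rw [this] at hb
              exact absurd hb (by simp)
          · rintro ⟨a, ha, rfl⟩
            rw [mem_range] at ha
            have k3 : (7).testBit a = true ∨ (56).testBit a = true := by
              interval_cases a <;> decide
            rcases k3 with k3 | k3
            · exact Or.inl ⟨a, by omega, k3, rfl⟩
            · exact Or.inr ⟨a, by omega, k3, rfl⟩
        rw [k2, show hit B ((range 6).image x) L = ∑ y ∈ (range 6).image x, (Ez B L y).card from
          hit_eq _ L, sum_image]
        intro a ha b hb he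
        exact hinj a (by have := mem_range.1 ha; omega) b (by have := mem_range.1 hb; omega) he
      rw [k1]
      exact hH
    · intro hn
      rw [hD0]
      have k0 := hxU 1 (by omega)
      rw [show 6 + 1 = 7 from rfl] at k0
      rw [k0]
      have hmU : lU.getD 1 v0 ∈ U := (hlUm _).1 (getD_mem_of_lt (by omega))
      have hP0 : lU.getD 1 v0 ∉ P := by
        intro k1
        rcases (by omega : P.card = 0 ∨ P.card = 1) with hc | hc
        · rw [card_eq_zero.1 hc] at k1
          exact absurd k1 (notMem_empty _)
        · obtain ⟨p, hp⟩ := card_eq_one.1 hc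
          have k2 : lU = [p] ++ (U \ P).toList := by
            rw [hlU, hp, toList_singleton]
          have k3 : lU.getD 0 v0 = p := by
            rw [k2]
            rfl
          rw [hp, mem_singleton] at k1
          have := getD_inj hlUn (a := 0) (b := 1) (by omega) (by omega) (k3.trans k1.symm)
          omega
      rw [hU, mem_sdiff, mem_union, not_or] at hmU
      exact hzero _ hmU.1 hmU.2.1 hmU.2.2 hP0
  have hrn := hcf.rn
  rcases hrn.lt_or_eq with hr | hr
  · exact hcf.no_leafP hnoP hr (by rw [hD0, hw0, hdv]) hlf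
  · rw [hr] at hcf
    obtain ⟨t, ht, x', D', i', j', hR⟩ := hcf.reduceU
    exact noU B Q x' D' i' j' t ht hR

/-- leaf value `0` and one further point: at most two hits of the two full blocks. -/
theorem KG.one_neg_of (hno : NoP.{u} V ι 0 9 3) (h : KG B Q Y F i j) (hL : L ∈ F)
    (sL : sv B L = -1) (nL : nt B L 3 = 0) (dL : dv B Q L = -1) {p : V}
    (hp : ∀ v ∈ Y, v ∉ B i → v ∉ B j → v ≠ p → Ez B L v = ∅) :
    hit B ((B i ∩ Q) ∪ (B j ∩ Q)) L ≤ 2 := by
  by_contra hcon
  push Not at hcon
  have h2 := hit_neg_le h.reg h.tr (h.subQ hL) sL nL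
  exact h.few_P hno hL sL (by rw [dL]; norm_num) (by norm_num) hp (by omega) hcon

end Pool.Agent.Hyp6
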