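import Pool.Agent.Hyp6.CfG
import Pool.Agent.Hyp6.L3Cnt

/-!
# HYP6 L3G2: a component with contacts in two full blocks and at most one further hit

`ViolR.exists_KG`: the closure of the contacts of `L`. `ViolR.two_full`: a component `L` with value `-1`
without full blocks, whose contacts lie in two disjoint full blocks except for at most one hit, has at
least two free places and further hits, or at least seven blocks with one point.
-/

set_option autoImplicit false

namespace Pool.Agent.Hyp6

open Finset Pool.Agent.Hyp5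

universe u v

variable {V : Type v} [DecidableEq V] {ι : Type u} [Fintype ι] {B : ι → Finset V}
variable {Q L P : Finset V} {i j : ι}

/-- two connected sets closed in the same set with a common point are equal. -/
theorem conn_eq {G : SimpleGraph V} {W C D : Finset V} (hC : Closed G W C) (hD : Closed G W D)
    (cC : Conn G C) (cD : Conn G D) {v : V} (hv : v ∈ C) (hv' : v ∈ D) : C = D := by
  have h1 : Closed G C (C ∩ D) := (closed_inter hC hD).mono inter_subset_left hC.1
  have h2 : Closed G D (C ∩ D) := (closed_inter hC hD).mono inter_subset_right hD.1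
  have hne : (C ∩ D).Nonempty := ⟨v, mem_inter.2 ⟨hv, hv'⟩⟩
  rw [← cC.2 _ h1 hne, cD.2 _ h2 hne]

/-- the closure of the contacts of a component. -/
theorem ViolR.exists_KG (h : ViolR B Q) (fi : (B i ∩ Q).card = 3) (fj : (B j ∩ Q).card = 3)
    (dij : Disjoint (B i ∩ Q) (B j ∩ Q)) (conni : Conn (gr B) (Q \ (B i ∩ Q)))
    (criti : Crit B (Q \ (B i ∩ Q))) (connj : Conn (gr B) (Q \ (B j ∩ Q)))
    (critj : Crit B (Q \ (B j ∩ Q))) (hLQ : L ⊆ Q) (hLc : Conn (gr B) L) (hLcr : Crit B L)
    (hLi : Disjoint L (B i ∩ Q)) (hLj : Disjoint L (B j ∩ Q)) (hPQ : P ⊆ Q)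
    (hPi : Disjoint P (B i ∩ Q)) (hPL : Disjoint P L)
    (hP1 : P.card ≤ 1) (hPc : ∀ p ∈ P, (Ez B L p).Nonempty)
    (hcon : ∀ k, (B k ∩ L).Nonempty → B k ∩ Q ⊆ L ∪ ((B i ∩ Q) ∪ ((B j ∩ Q) ∪ P))) :
    ∃ Y F, KG B Q Y F i j ∧ P ⊆ Y ∧ L ∈ F := by
  classical
  have hcov := h.cov
  have hcL : Cov B L := hcov.mono hLQ
  set C := Q \ (B i ∩ Q) with hC
  have hCQ : C ⊆ Q := sdiff_subset
  have hcC : Cov B C := hcov.mono hCQ
  have hrT : rho B C + 1 = rho B Q := h.rhoT fi
  set P0 := (B j ∩ Q) ∪ P with hP0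
  have hTjC : B j ∩ Q ⊆ C := fun v hv =>
    mem_sdiff.2 ⟨(mem_inter.1 hv).2, fun h3 => disjoint_left.1 dij h3 hv⟩
  have hPC : P ⊆ C := fun v hv => mem_sdiff.2 ⟨hPQ hv, fun h3 => disjoint_left.1 hPi hv h3⟩
  have hP0C : P0 ⊆ C := union_subset hTjC hPC
  have hLC : L ⊆ C := fun v hv => mem_sdiff.2 ⟨hLQ hv, fun h3 => disjoint_left.1 hLi hv h3⟩
  have hLP0 : Disjoint L P0 := by
    rw [hP0, disjoint_union_right]
    exact ⟨hLj, hPL.symm⟩
  set R := (C \ P0) \ L with hR
  have hRC : R ⊆ C := sdiff_subset.trans sdiff_subset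
  have hcR : Cov B R := hcC.mono hRC
  have hLR : Sep B L R := by
    intro k hk1 hk2
    obtain ⟨v, hv⟩ := hk2
    rw [mem_inter, hR, mem_sdiff, mem_sdiff] at hv
    obtain ⟨hvk, ⟨hvC, hvP⟩, hvL⟩ := hv
    have h1 := hcon k hk1 (mem_inter.2 ⟨hvk, hCQ hvC⟩)
    rw [mem_union, mem_union] at h1
    rcases h1 with h1 | h1 | h1
    · exact hvL h1
    · exact (mem_sdiff.1 hvC).2 h1
    · exact hvP h1
  have hun : C \ P0 = L ∪ R := by
    rw [hR, union_sdiff_of_subset]
    intro v hv
    exact mem_sdiff.2 ⟨hLC hv, fun h3 => disjoint_left.1 hLP0 hv h3⟩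
  have h1 : rho B (C \ P0) = rho B L + rho B R := by
    rw [hun, rho_add hcL hcR hLR]
  have hLP : rho B (L ∪ P) ≤ rho B L := by
    rcases (by omega : P.card = 0 ∨ P.card = 1) with hc | hc
    · rw [card_eq_zero.1 hc, union_empty]
    · obtain ⟨p, rfl⟩ := card_eq_one.1 hc
      obtain ⟨T, hT1, hT2⟩ := hLcr.pt1 hcL (hPc p (mem_singleton_self p))
      exact (rho_le hT1).trans hT2
  have hTj1 : rho B (B j ∩ Q) ≤ 1 := by
    refine (rho_le (T := {j}) ?_).trans (by simp)
    rw [singleton_biUnion]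
    exact inter_subset_left
  have h2 : rho B C ≤ rho B (C \ P0) + 1 := by
    have k1 : C ⊆ ((L ∪ P) ∪ (B j ∩ Q)) ∪ R := by
      intro v hv
      by_cases hvP : v ∈ P0
      · rcases mem_union.1 hvP with hvj | hvP
        · exact mem_union_left _ (mem_union_right _ hvj)
        · exact mem_union_left _ (mem_union_left _ (mem_union_right _ hvP))
      · have : v ∈ L ∪ R := by
          rw [← hun]
          exact mem_sdiff.2 ⟨hv, hvP⟩
        rcases mem_union.1 this with hvL | hvR
        · exact mem_union_left _ (mem_union_left _ (mem_union_left _ hvL))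
        · exact mem_union_right _ hvR
    have c1 : Cov B (L ∪ P) := hcov.mono (union_subset hLQ hPQ)
    have c2 : Cov B (B j ∩ Q) := hcov.mono inter_subset_right
    have k2 := rho_mono k1 ((c1.union c2).union hcR)
    have k3 := rho_union_le (c1.union c2) hcR
    have k4 := rho_union_le c1 c2
    omega
  have hTjne : (B j ∩ Q).Nonempty := card_pos.1 (by rw [fj]; norm_num)
  have h3 : rho B (C \ P0) + 1 = rho B C := by
    have k1 := criti.sdiff hcC (P := B j ∩ Q) (i := j) inter_subset_left hTjC hTjne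
    have k2 : rho B (C \ P0) ≤ rho B (C \ (B j ∩ Q)) :=
      rho_mono (sdiff_subset_sdiff (Subset.refl _) subset_union_left) (hcC.mono sdiff_subset)
    omega
  obtain ⟨X, F, hPX, hclo⟩ := exists_clo1 hcC hP0C h3
  have hXC := hclo.sub
  -- the leaf does not meet the closed set
  have hLX : Disjoint L X := by
    rw [disjoint_left]
    intro v hvL hvX
    have k1 : C \ X ⊆ L.erase v ∪ R := by
      intro w hw
      rw [mem_sdiff] at hw
      have hwP : w ∉ P0 := fun h4 => hw.2 (hPX h4)
      have : w ∈ L ∪ R := by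
        rw [← hun]
        exact mem_sdiff.2 ⟨hw.1, hwP⟩
      rcases mem_union.1 this with hwL | hwR
      · refine mem_union_left _ (mem_erase.2 ⟨?_, hwL⟩)
        rintro rfl
        exact hw.2 hvX
      · exact mem_union_right _ hwR
    have c1 : Cov B (L.erase v) := hcL.mono (erase_subset _ _)
    have k2 := rho_mono k1 (c1.union hcR)
    have k3 := rho_union_le c1 hcR
    have k4 := hLcr v hvL
    have k5 := hclo.rhoX
    omega
  have hLCX : L ⊆ C \ X := fun v hv =>
    mem_sdiff.2 ⟨hLC hv, fun h4 => disjoint_left.1 hLX hv h4⟩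
  have hLcl : Closed (gr B) (C \ X) L := by
    refine closed_of_sep hLCX ?_
    refine hLR.mono (Subset.refl _) ?_
    intro v hv
    rw [mem_sdiff, mem_sdiff] at hv
    rw [hR, mem_sdiff, mem_sdiff]
    exact ⟨⟨hv.1.1, fun h4 => hv.1.2 (hPX h4)⟩, hv.2⟩
  have hLF : L ∈ F := by
    obtain ⟨v, hv⟩ := hLc.1
    have k1 : v ∈ F.biUnion id := by
      rw [hclo.un]
      exact hLCX hv
    obtain ⟨M, hM, hvM⟩ := mem_biUnion.1 k1
    obtain ⟨_, k2, k3⟩ := hclo.parts M hM
    rw [conn_eq hLcl k2 hLc k3 hv hvM]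
    exact hM
  have hTi : B i ∩ Q ⊆ Q := inter_subset_right
  have hQY : Q \ ((B i ∩ Q) ∪ X) = C \ X := by
    rw [hC, sdiff_sdiff_left]
    rfl
  refine ⟨(B i ∩ Q) ∪ X, F, ?_, fun v hv => mem_union_right _ (hPX (mem_union_right _ hv)), hLF⟩
  refine ⟨h, fi, fj, dij, subset_union_left,
    fun v hv => mem_union_right _ (hPX (mem_union_left _ hv)), union_subset hTi (hXC.trans hCQ),
    ?_, hclo.sep, ?_, hclo.crit, ?_, conni, criti, connj, critj⟩
  · rw [hQY]
    exact hclo.parts
  · rw [hQY]
    exact hclo.un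
  · rw [hQY]
    have := hclo.rhoX
    omega

/-- no full configuration. -/
def NoU (V : Type v) [DecidableEq V] (ι : Type u) [Fintype ι] : Prop :=
  ∀ (B : ι → Finset V) (Q : Finset V) (x : ℕ → V) (D : ℕ → Finset V) (i j : ι), ∀ t ∈ instU,
    ¬ CgI B Q t.1 x D i j t.2.1 t.2.2

/-- the places of a set with value `-1` without full blocks. -/
theorem hc_neg (hr : Reg B L) (h3 : Tr3 B L) (hs : sv B L = -1) (hn3 : nt B L 3 = 0) :
    6 * hc B L + (nt B L 1 : ℤ) = 5 * Pv B L + 60 := by
  have h1 := cm_eq3 h3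
  have h2 := inc_eq3 hr h3
  unfold Pv G hc
  rw [hs]
  have h4 : (cm B L : ℤ) = nt B L 1 + nt B L 2 := by
    rw [h1, hn3]
    push_cast
    ring
  have h5 : 5 * (L.card : ℤ) = nt B L 1 + 2 * nt B L 2 := by
    have : ((5 * L.card : ℕ) : ℤ) = ((nt B L 1 + 2 * nt B L 2 + 3 * nt B L 3 : ℕ) : ℤ) := by
      exact_mod_cast h2
    rw [hn3] at this
    push_cast at this
    linarith
  rw [h4]
  linarith

/-- **two full blocks and at most one further hit.** -/
theorem ViolR.two_full_of (hnoG : NoG.{u} V ι) (hnoU : NoU.{u} V ι) (h : ViolR B Q)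
    (fi : (B i ∩ Q).card = 3) (fj : (B j ∩ Q).card = 3)
    (dij : Disjoint (B i ∩ Q) (B j ∩ Q)) (conni : Conn (gr B) (Q \ (B i ∩ Q)))
    (criti : Crit B (Q \ (B i ∩ Q))) (connj : Conn (gr B) (Q \ (B j ∩ Q)))
    (critj : Crit B (Q \ (B j ∩ Q))) (hLQ : L ⊆ Q) (hLc : Conn (gr B) L) (hLcr : Crit B L)
    (hLs : sv B L = -1) (hL3 : nt B L 3 = 0)
    (hLi : Disjoint L (B i ∩ Q)) (hLj : Disjoint L (B j ∩ Q)) (hn1 : nt B L 1 ≤ 6) :
    2 ≤ (hit B (Q \ (L ∪ ((B i ∩ Q) ∪ (B j ∩ Q)))) L : ℤ) + fs B Q L := by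
  classical
  by_contra hcon
  push Not at hcon
  set W := Q \ (L ∪ ((B i ∩ Q) ∪ (B j ∩ Q))) with hW
  have hfs : 0 ≤ fs B Q L := fs_nonneg h.tr
  set P := W.filter (fun y => (Ez B L y).Nonempty) with hP
  have hitW : hit B W L = ∑ y ∈ W, (Ez B L y).card := hit_eq W L
  have hP1 : P.card ≤ 1 := by
    have k1 : P.card ≤ ∑ y ∈ P, (Ez B L y).card := by
      rw [card_eq_sum_ones]
      exact sum_le_sum fun y hy => card_pos.2 (mem_filter.1 hy).2
    have k2 : ∑ y ∈ P, (Ez B L y).card ≤ ∑ y ∈ W, (Ez B L y).card :=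
      sum_le_sum_of_subset (filter_subset _ _)
    rw [← hitW] at k2
    have : (hit B W L : ℤ) ≤ 1 := by linarith
    omega
  have hPW : P ⊆ W := filter_subset _ _
  have hWQ : W ⊆ Q := sdiff_subset
  have hWd : ∀ v ∈ W, v ∉ L ∧ v ∉ B i ∩ Q ∧ v ∉ B j ∩ Q := by
    intro v hv
    rw [hW, mem_sdiff, mem_union, mem_union] at hv
    push Not at hv
    exact hv.2
  have hcon' : ∀ k, (B k ∩ L).Nonempty → B k ∩ Q ⊆ L ∪ ((B i ∩ Q) ∪ ((B j ∩ Q) ∪ P)) := by
    intro k hk v hv
    by_cases hvW : v ∈ W
    · have : v ∈ P := mem_filter.2 ⟨hvW, k, mem_Ez.2 ⟨(mem_inter.1 hv).1, hk⟩⟩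
      exact mem_union_right _ (mem_union_right _ (mem_union_right _ this))
    · rw [hW, mem_sdiff, not_and, not_not, mem_union, mem_union] at hvW
      rcases hvW (mem_inter.1 hv).2 with h1 | h1 | h1
      · exact mem_union_left _ h1
      · exact mem_union_right _ (mem_union_left _ h1)
      · exact mem_union_right _ (mem_union_right _ (mem_union_left _ h1))
  obtain ⟨Y, F, hK, hPY, hLF⟩ := h.exists_KG fi fj dij conni criti connj critj hLQ hLc hLcr hLi hLj
    (hPW.trans hWQ)
    (disjoint_left.2 fun v hv => (hWd v (hPW hv)).2.1)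
    (disjoint_left.2 fun v hv => (hWd v (hPW hv)).1) hP1
    (fun p hp => (mem_filter.1 hp).2) hcon'
  have hPU : P ⊆ Y \ ((B i ∩ Q) ∪ (B j ∩ Q)) := by
    intro v hv
    obtain ⟨_, k2, k3⟩ := hWd v (hPW hv)
    rw [mem_sdiff, mem_union]
    exact ⟨hPY hv, fun h4 => h4.elim k2 k3⟩
  set U := Y \ ((B i ∩ Q) ∪ (B j ∩ Q)) with hU
  set lU := P.toList ++ (U \ P).toList with hlU
  have hlUn : lU.Nodup := by
    rw [hlU, List.nodup_append]
    refine ⟨nodup_toList _, nodup_toList _, ?_⟩
    intro a ha b hb hab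
    rw [mem_toList] at ha hb
    subst hab
    exact (mem_sdiff.1 hb).2 ha
  have hlUm : ∀ v, v ∈ lU ↔ v ∈ U := by
    intro v
    rw [hlU, List.mem_append, mem_toList, mem_toList, mem_sdiff]
    constructor
    · rintro (h1 | h1)
      · exact hPU h1
      · exact h1.1
    · intro h1
      tauto
  set lF := L :: (F.erase L).toList with hlF
  have hlFn : lF.Nodup := by
    rw [hlF, List.nodup_cons]
    refine ⟨?_, nodup_toList _⟩
    rw [mem_toList]
    exact fun h1 => (mem_erase.1 h1).1 rfl
  have hlFm : ∀ M, M ∈ lF ↔ M ∈ F := by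
    intro M
    rw [hlF, List.mem_cons, mem_toList, mem_erase]
    constructor
    · rintro (rfl | h1)
      · exact hLF
      · exact h1.2
    · intro h1
      by_cases h2 : M = L
      · exact Or.inl h2
      · exact Or.inr ⟨h2, h1⟩
  obtain ⟨x, D, v0, hcf, hxY, hxU, hDF, hcY, hcF⟩ := hK.exists_cfG ⟨L, hLF⟩ hlUn hlUm hlFn hlFm
  have hlF0 : 0 < lF.length := by
    rw [hlF]
    simp
  have hD0 : D 0 = L := by
    rw [hDF 0 hlF0, hlF]
    rfl
  -- the numbers of hits
  have hrL : Reg B L := h.reg.mono hLQ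
  have h3L : Tr3 B L := h.tr.mono hLQ
  have hadd := hit_add_fsQ (B := B) hrL hLQ
  have hee0 : ee B Q L = 0 := by
    have k1 := four_ee_le_fs (B := B) (Q := Q) (W := L) h.tr
    have k2 : (0 : ℤ) ≤ hit B W L := by positivity
    omega
  have hw0 : wv B Q L = dv B Q L + 1 := wv_neg hLs
  have hdv : dv B Q L = Pv B L := by
    unfold dv
    rw [hee0]
    simp
  have hhc := hc_neg hrL h3L hLs hL3
  have hnn : 0 ≤ hc B L := hc_nonneg hrL h3L
  obtain ⟨s, hs⟩ := Int.eq_ofNat_of_zero_le hnn
  have hs' : hc B L = (s : ℤ) := hs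
  have hzero : ∀ v ∈ Y, v ∉ B i ∩ Q → v ∉ B j ∩ Q → v ∉ P → (Ez B L v).card = 0 := by
    intro v hv k1 k2 k3
    rw [card_eq_zero]
    by_contra k4
    apply k3
    refine mem_filter.2 ⟨?_, nonempty_iff_ne_empty.2 k4⟩
    rw [hW, mem_sdiff, mem_union, mem_union]
    refine ⟨hK.YQ hv, ?_⟩
    rintro (k5 | k5 | k5)
    · exact hK.notMem hLF hv k5
    · exact k1 k5
    · exact k2 k5
  have hEzP : ∀ v ∈ P, (Ez B L v).card ≤ 1 := by
    intro v hv
    have k1 : (Ez B L v).card ≤ ∑ y ∈ W, (Ez B L y).card :=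
      single_le_sum (f := fun y => (Ez B L y).card) (fun _ _ => Nat.zero_le _) (hPW hv)
    rw [← hitW] at k1
    have : (hit B W L : ℤ) ≤ 1 := by linarith
    omega
  have hinj := hcf.cf.inj
  have himY : Y = (range (6 + lU.length)).image x := by
    ext v
    rw [hxY, mem_image]
    constructor
    · rintro ⟨a, ha, he⟩
      exact ⟨a, mem_range.2 ha, he⟩
    · rintro ⟨a, ha, he⟩
      exact ⟨a, mem_range.1 ha, he⟩
  have hlf : Lfc B Q lU.length x D s := by
    rw [show Lfc B Q lU.length x D s = Lfc B Q lU.length x D s from rfl]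
    refine ⟨?_, ?_, ?_, ?_, ?_, ?_⟩
    · rw [hD0, hw0, hdv, ← hs']
      have : (0 : ℤ) ≤ nt B L 1 := by positivity
      linarith
    · rw [hD0, hw0, hdv, ← hs']
      have : (nt B L 1 : ℤ) ≤ 6 := by exact_mod_cast hn1
      linarith
    · rw [hD0]
      have k1 : ∑ a ∈ range (6 + lU.length), (Ez B L (x a)).card = hit B Y L := by
        rw [himY]
        rw [show hit B ((range (6 + lU.length)).image x) L =
          ∑ y ∈ (range (6 + lU.length)).image x, (Ez B L y).card from hit_eq _ L]
        rw [sum_image]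
        intro a ha b hb he
        exact hinj a (by simpa using ha) b (by simpa using hb) he
      rw [k1]
      have k2 := hit_le (B := B) (C := L) (Y := Y) (Q := Q) hrL
        (disjoint_right.2 fun v hv => hK.notMem hLF hv) hLQ hK.YQ h.tr
      rw [hs'] at k2
      exact_mod_cast k2
    · rw [hD0]
      have k1 : ∑ a ∈ range 6, (Ez B L (x a)).card =
          hit B ((B i ∩ Q) ∪ (B j ∩ Q)) L := by
        have k2 : (B i ∩ Q) ∪ (B j ∩ Q) = (range 6).image x := by
          ext v
          rw [mem_union, hcf.i7, hcf.j56, mem_ptm, mem_ptm, mem_image]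
          constructor
          · rintro (⟨a, ha, hb, rfl⟩ | ⟨a, ha, hb, rfl⟩)
            · refine ⟨a, mem_range.2 ?_, rfl⟩
              by_contra hc
              push Not at hc
              have : Nat.testBit 7 a = false := by
                apply Nat.testBit_lt_two_pow
                calc 7 < 2 ^ 6 := by norm_num
                  _ ≤ 2 ^ a := Nat.pow_le_pow_right (by norm_num) hc
              rw [this] at hb
              exact absurd hb (by simp)
            · refine ⟨a, mem_range.2 ?_, rfl⟩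
              by_contra hc
              push Not at hc
              have : Nat.testBit 56 a = false := by
                apply Nat.testBit_lt_two_pow
                calc 56 < 2 ^ 6 := by norm_num
                  _ ≤ 2 ^ a := Nat.pow_le_pow_right (by norm_num) hc
              rw [this] at hb
              exact absurd hb (by simp)
          · rintro ⟨a, ha, rfl⟩
            rw [mem_range] at ha
            have k3 : (7).testBit a = true ∨ (56).testBit a = true := by
              interval_cases a <;> decide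
            rcases k3 with k3 | k3
            · exact Or.inl ⟨a, by omega, k3, rfl⟩
            · exact Or.inr ⟨a, by omega, k3, rfl⟩
        rw [k2, show hit B ((range 6).image x) L = ∑ y ∈ (range 6).image x, (Ez B L y).card from
          hit_eq _ L, sum_image]
        intro a ha b hb he
        exact hinj a (by have := mem_range.1 ha; omega) b (by have := mem_range.1 hb; omega) he
      rw [k1]
      have k4 : hit B (Q \ L) L = hit B ((B i ∩ Q) ∪ (B j ∩ Q)) L + hit B W L := by
        rw [← hit_union_left]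
        · congr 1
          ext v
          constructor
          · intro k
            obtain ⟨k5, k6⟩ := mem_sdiff.1 k
            by_cases k7 : v ∈ (B i ∩ Q) ∪ (B j ∩ Q)
            · exact mem_union_left _ k7
            · refine mem_union_right _ (mem_sdiff.2 ⟨k5, fun k8 => ?_⟩)
              rcases mem_union.1 k8 with k9 | k9
              · exact k6 k9
              · exact k7 k9
          · intro k
            rcases mem_union.1 k with k5 | k5
            · rcases mem_union.1 k5 with k7 | k7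
              · exact mem_sdiff.2 ⟨(mem_inter.1 k7).2, fun k8 => disjoint_left.1 hLi k8 k7⟩
              · exact mem_sdiff.2 ⟨(mem_inter.1 k7).2, fun k8 => disjoint_left.1 hLj k8 k7⟩
            · exact mem_sdiff.2 ⟨hWQ k5, (hWd v k5).1⟩
        · rw [disjoint_right]
          intro v hv hv'
          obtain ⟨_, k2, k3⟩ := hWd v hv
          rcases mem_union.1 hv' with k5 | k5
          · exact k2 k5
          · exact k3 k5
      have k5 : (hit B (Q \ L) L : ℤ) = hit B ((B i ∩ Q) ∪ (B j ∩ Q)) L + hit B W L := by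
        exact_mod_cast k4
      have k6 : (s : ℤ) ≤ hit B ((B i ∩ Q) ∪ (B j ∩ Q)) L + 1 := by
        rw [← hs']
        linarith
      exact_mod_cast k6
    · intro hn
      rw [hD0]
      have k0 := hxU 0 (by omega)
      rw [add_zero] at k0
      rw [k0]
      have hmU : lU.getD 0 v0 ∈ U := (hlUm _).1 (getD_mem_of_lt (by omega))
      by_cases hP0 : lU.getD 0 v0 ∈ P
      · exact hEzP _ hP0
      · rw [hU, mem_sdiff, mem_union, not_or] at hmU
        rw [hzero _ hmU.1 hmU.2.1 hmU.2.2 hP0]
        norm_num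
    · intro hn
      rw [hD0]
      have k0 := hxU 1 (by omega)
      rw [show 6 + 1 = 7 from rfl] at k0
      rw [k0]
      have hmU : lU.getD 1 v0 ∈ U := (hlUm _).1 (getD_mem_of_lt (by omega))
      have hP0 : lU.getD 1 v0 ∉ P := by
        intro k1
        rcases (by omega : P.card = 0 ∨ P.card = 1) with hc | hc
        · rw [card_eq_zero.1 hc] at k1
          exact absurd k1 (notMem_empty _)
        · obtain ⟨p, hp⟩ := card_eq_one.1 hc
          have k2 : lU = [p] ++ (U \ P).toList := by
            rw [hlU, hp, toList_singleton]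
          have k3 : lU.getD 0 v0 = p := by
            rw [k2]
            rfl
          rw [hp, mem_singleton] at k1
          have := getD_inj hlUn (a := 0) (b := 1) (by omega) (by omega) (k3.trans k1.symm)
          omega
      rw [hU, mem_sdiff, mem_union, not_or] at hmU
      exact hzero _ hmU.1 hmU.2.1 hmU.2.2 hP0
  have hrn := hcf.rn
  rcases hrn.lt_or_eq with hr | hr
  · exact hcf.no_leaf hnoG hr hlf
  · rw [hr] at hcf
    obtain ⟨t, ht, x', D', i', j', hR⟩ := hcf.reduceU
    exact hnoU B Q x' D' i' j' t ht hR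

end Pool.Agent.Hyp6
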