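import Pool.Agent.Hyp6.Ins.I00
import Pool.Agent.Hyp6.Ins.I01
import Pool.Agent.Hyp6.Ins.I02
import Pool.Agent.Hyp6.Ins.I03
import Pool.Agent.Hyp6.Ins.I04
import Pool.Agent.Hyp6.Ins.I05
import Pool.Agent.Hyp6.Ins.I06
import Pool.Agent.Hyp6.Ins.I07
import Pool.Agent.Hyp6.Ins.I08
import Pool.Agent.Hyp6.Ins.I09
import Pool.Agent.Hyp6.Ins.I10
import Pool.Agent.Hyp6.Ins.I11
import Pool.Agent.Hyp6.Ins.I12
import Pool.Agent.Hyp6.Ins.I13
import Pool.Agent.Hyp6.Ins.I14
import Pool.Agent.Hyp6.Ins.I15
import Pool.Agent.Hyp6.Ins.I16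
import Pool.Agent.Hyp6.Ins.I17
import Pool.Agent.Hyp6.Ins.I18
import Pool.Agent.Hyp6.Ins.I19
import Pool.Agent.Hyp6.Ins.I20
import Pool.Agent.Hyp6.Ins.I21
import Pool.Agent.Hyp6.Ins.I22
import Pool.Agent.Hyp6.Ins.I23
import Pool.Agent.Hyp6.Ins.I24
import Pool.Agent.Hyp6.Ins.I25
import Pool.Agent.Hyp6.Ins.I26
import Pool.Agent.Hyp6.Ins.I27
import Pool.Agent.Hyp6.Ins.I28
import Pool.Agent.Hyp6.Ins.I29
import Pool.Agent.Hyp6.Ins.I30
import Pool.Agent.Hyp6.Ins.I31
import Pool.Agent.Hyp6.Ins.I32
import Pool.Agent.Hyp6.Ins.I33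
import Pool.Agent.Hyp6.Ins.I34
import Pool.Agent.Hyp6.Ins.I35
import Pool.Agent.Hyp6.Ins.I36
import Pool.Agent.Hyp6.Ins.I37
import Pool.Agent.Hyp6.Ins.I38
import Pool.Agent.Hyp6.Ins.I39
import Pool.Agent.Hyp6.Ins.I40
import Pool.Agent.Hyp6.Ins.I41
import Pool.Agent.Hyp6.Ins.I42
import Pool.Agent.Hyp6.Ins.I43
import Pool.Agent.Hyp6.Ins.I44
import Pool.Agent.Hyp6.Ins.I45
import Pool.Agent.Hyp6.Ins.I46
import Pool.Agent.Hyp6.Ins.I47
import Pool.Agent.Hyp6.Ins.I48
import Pool.Agent.Hyp6.Ins.I49
import Pool.Agent.Hyp6.Ins.I50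
import Pool.Agent.Hyp6.Ins.I51
import Pool.Agent.Hyp6.Ins.I52
import Pool.Agent.Hyp6.Ins.I53
import Pool.Agent.Hyp6.Ins.I54
import Pool.Agent.Hyp6.Ins.I55
import Pool.Agent.Hyp6.Ins.I56
import Pool.Agent.Hyp6.Ins.I57
import Pool.Agent.Hyp6.Ins.I58
import Pool.Agent.Hyp6.Ins.I59
import Pool.Agent.Hyp6.Ins.I60
import Pool.Agent.Hyp6.Ins.I61
import Pool.Agent.Hyp6.Ins.I62
import Pool.Agent.Hyp6.Ins.I63
import Pool.Agent.Hyp6.Ins.I64
import Pool.Agent.Hyp6.Ins.I65
import Pool.Agent.Hyp6.Ins.I66
import Pool.Agent.Hyp6.Ins.I67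
import Pool.Agent.Hyp6.Ins.I68
import Pool.Agent.Hyp6.Ins.I69
import Pool.Agent.Hyp6.Ins.I70
import Pool.Agent.Hyp6.Ins.I71
import Pool.Agent.Hyp6.Ins.I72
import Pool.Agent.Hyp6.Ins.I73
import Pool.Agent.Hyp6.Ins.I74
import Pool.Agent.Hyp6.Ins.I75
import Pool.Agent.Hyp6.Ins.I76
import Pool.Agent.Hyp6.Ins.I77
import Pool.Agent.Hyp6.Ins.I78
import Pool.Agent.Hyp6.Ins.I79
import Pool.Agent.Hyp6.Ins.I80
import Pool.Agent.Hyp6.Ins.I81
import Pool.Agent.Hyp6.Ins.I82
import Pool.Agent.Hyp6.Ins.I83
import Pool.Agent.Hyp6.Ins.I84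
import Pool.Agent.Hyp6.Ins.I85
import Pool.Agent.Hyp6.Ins.I86
import Pool.Agent.Hyp6.InsG.G00
import Pool.Agent.Hyp6.InsG.G01
import Pool.Agent.Hyp6.InsG.G02
import Pool.Agent.Hyp6.InsG.G03
import Pool.Agent.Hyp6.InsG.G04
import Pool.Agent.Hyp6.InsG.G05
import Pool.Agent.Hyp6.InsG.G06
import Pool.Agent.Hyp6.InsG.G07
import Pool.Agent.Hyp6.InsG.G08
import Pool.Agent.Hyp6.InsG.G09
import Pool.Agent.Hyp6.InsG.G10
import Pool.Agent.Hyp6.InsG.G11
import Pool.Agent.Hyp6.InsG.G12
import Pool.Agent.Hyp6.InsG.G13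
import Pool.Agent.Hyp6.InsG.G14
import Pool.Agent.Hyp6.InsG.G15
import Pool.Agent.Hyp6.InsG.G16
import Pool.Agent.Hyp6.InsG.G17
import Pool.Agent.Hyp6.InsG.G18
import Pool.Agent.Hyp6.InsG.G19
import Pool.Agent.Hyp6.InsG.G20
import Pool.Agent.Hyp6.InsG.G21
import Pool.Agent.Hyp6.InsG.G22
import Pool.Agent.Hyp6.InsG.G23
import Pool.Agent.Hyp6.InsG.G24
import Pool.Agent.Hyp6.InsG.G25
import Pool.Agent.Hyp6.InsG.G26
import Pool.Agent.Hyp6.Tq3
import Pool.Agent.Hyp6.CfOG
import Pool.Agent.Hyp6.L3G2

/-!
# HYP6 L3G3: a component with contacts in two full blocks, final form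

All the instances are refuted (files `Ins/I00` to `Ins/I86` and `InsG/G00` to `InsG/G26`); `ViolR.two_full`:
a component with value `-1` without full blocks, whose contacts lie in two disjoint full blocks except
for some further hits, has at least two free places and further hits, or seven blocks with one point.
-/

set_option autoImplicit false

namespace Pool.Agent.Hyp6

open Finset Pool.Agent.Hyp5 Rup

universe u v

variable {V : Type v} [DecidableEq V] {ι : Type u} [Fintype ι] {B : ι → Finset V}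
variable {Q L : Finset V} {i j : ι} {n : ℕ} {x : ℕ → V} {D : ℕ → Finset V} {ub ins : List ℕ}

theorem CgI.toR (h : CgI B Q n x D i j ub ins)
    (hins : ins.all (fun A => decide (A < 2 ^ (6 + n))) = true) :
    CfR B Q (6 + n) (2 + n) x D ub ins :=
  h.toCg0.toR (by omega) (fun A hA => by
    have := List.all_eq_true.1 hins A hA
    simpa using this) h.cnt h.kle

theorem CgI.no_inst (h : CgI B Q n x D i j ub ins)
    {base : List Rs} {gads : List Gt} {nm db : Tr} {cnf : List (List ℕ)} {prf : List ℕ}
    (hins : ins.all (fun A => decide (A < 2 ^ (6 + n))) = true)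
    (hub : ub.all (fun k => Nat.ble k 11) = true)
    (hb : instB n ub ins [] base gads nm cnf db prf = true)
    (hp2 : gads.all (fun g => Nat.ble (2 * g.R) g.gs.length) = true) : False :=
  (h.toR hins).absurd_inst srt_nil hb hp2 hub

theorem CgI.no_ord (h : CgI B Q n x D i j ub [])
    {base : List Rs} {gads : List Gt} {nm db : Tr} {cnf : List (List ℕ)} {prf : List ℕ}
    (hub : ub.all (fun k => Nat.ble k 11) = true)
    (hb : instB n ub [] (srtl n ub) base gads nm cnf db prf = true)
    (hp2 : gads.all (fun g => Nat.ble (2 * g.R) g.gs.length) = true) : False := by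
  obtain ⟨x', D', i', j', h1, h2⟩ := h.exists_ord
  exact (h1.toR rfl).absurd_inst h2 hb hp2 hub

/-- no instance with all the components is realised. -/
theorem noU : NoU.{u} V ι := by
  intro B Q x D i j t ht h
  unfold instU at ht
  simp only [List.mem_cons, List.not_mem_nil, or_false] at ht
  rcases ht with rfl | rfl | rfl | rfl | rfl | rfl | rfl | rfl | rfl | rfl | rfl | rfl | rfl | rfl | rfl | rfl | rfl | rfl | rfl | rfl |
    rfl | rfl | rfl | rfl | rfl | rfl | rfl | rfl | rfl | rfl | rfl | rfl | rfl | rfl | rfl | rfl | rfl | rfl | rfl | rfl |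
    rfl | rfl | rfl | rfl | rfl | rfl | rfl | rfl | rfl | rfl | rfl | rfl | rfl | rfl | rfl | rfl | rfl | rfl | rfl | rfl |
    rfl | rfl | rfl | rfl | rfl | rfl | rfl | rfl | rfl | rfl | rfl | rfl | rfl | rfl | rfl | rfl | rfl | rfl | rfl | rfl |
    rfl | rfl | rfl | rfl | rfl | rfl | rfl
  · exact h.no_inst (by decide) (by decide) inst_00 p2_00
  · exact h.no_inst (by decide) (by decide) inst_01 p2_01
  · exact h.no_inst (by decide) (by decide) inst_02 p2_02
  · exact h.no_inst (by decide) (by decide) inst_03 p2_03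
  · exact h.no_inst (by decide) (by decide) inst_04 p2_04
  · exact h.no_inst (by decide) (by decide) inst_05 p2_05
  · exact h.no_inst (by decide) (by decide) inst_06 p2_06
  · exact h.no_inst (by decide) (by decide) inst_07 p2_07
  · exact h.no_inst (by decide) (by decide) inst_08 p2_08
  · exact h.no_inst (by decide) (by decide) inst_09 p2_09
  · exact h.no_inst (by decide) (by decide) inst_10 p2_10
  · exact h.no_inst (by decide) (by decide) inst_11 p2_11
  · exact h.no_inst (by decide) (by decide) inst_12 p2_12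
  · exact h.no_inst (by decide) (by decide) inst_13 p2_13
  · exact h.no_inst (by decide) (by decide) inst_14 p2_14
  · exact h.no_inst (by decide) (by decide) inst_15 p2_15
  · exact h.no_inst (by decide) (by decide) inst_16 p2_16
  · exact h.no_inst (by decide) (by decide) inst_17 p2_17
  · exact h.no_inst (by decide) (by decide) inst_18 p2_18
  · exact h.no_inst (by decide) (by decide) inst_19 p2_19
  · exact h.no_inst (by decide) (by decide) inst_20 p2_20
  · exact h.no_inst (by decide) (by decide) inst_21 p2_21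
  · exact h.no_inst (by decide) (by decide) inst_22 p2_22
  · exact h.no_inst (by decide) (by decide) inst_23 p2_23
  · exact h.no_inst (by decide) (by decide) inst_24 p2_24
  · exact h.no_inst (by decide) (by decide) inst_25 p2_25
  · exact h.no_inst (by decide) (by decide) inst_26 p2_26
  · exact h.no_inst (by decide) (by decide) inst_27 p2_27
  · exact h.no_inst (by decide) (by decide) inst_28 p2_28
  · exact h.no_inst (by decide) (by decide) inst_29 p2_29
  · exact h.no_inst (by decide) (by decide) inst_30 p2_30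
  · exact h.no_inst (by decide) (by decide) inst_31 p2_31
  · exact h.no_inst (by decide) (by decide) inst_32 p2_32
  · exact h.no_inst (by decide) (by decide) inst_33 p2_33
  · exact h.no_inst (by decide) (by decide) inst_34 p2_34
  · exact h.no_inst (by decide) (by decide) inst_35 p2_35
  · exact h.no_inst (by decide) (by decide) inst_36 p2_36
  · exact h.no_inst (by decide) (by decide) inst_37 p2_37
  · exact h.no_inst (by decide) (by decide) inst_38 p2_38
  · exact h.no_inst (by decide) (by decide) inst_39 p2_39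
  · exact h.no_inst (by decide) (by decide) inst_40 p2_40
  · exact h.no_inst (by decide) (by decide) inst_41 p2_41
  · exact h.no_inst (by decide) (by decide) inst_42 p2_42
  · exact h.no_inst (by decide) (by decide) inst_43 p2_43
  · exact h.no_inst (by decide) (by decide) inst_44 p2_44
  · exact h.no_inst (by decide) (by decide) inst_45 p2_45
  · exact h.no_inst (by decide) (by decide) inst_46 p2_46
  · exact h.no_inst (by decide) (by decide) inst_47 p2_47
  · exact h.no_inst (by decide) (by decide) inst_48 p2_48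
  · exact h.no_inst (by decide) (by decide) inst_49 p2_49
  · exact h.no_inst (by decide) (by decide) inst_50 p2_50
  · exact h.no_inst (by decide) (by decide) inst_51 p2_51
  · exact h.no_inst (by decide) (by decide) inst_52 p2_52
  · exact h.no_inst (by decide) (by decide) inst_53 p2_53
  · exact h.no_inst (by decide) (by decide) inst_54 p2_54
  · exact h.no_inst (by decide) (by decide) inst_55 p2_55
  · exact h.no_inst (by decide) (by decide) inst_56 p2_56
  · exact h.no_inst (by decide) (by decide) inst_57 p2_57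
  · exact h.no_inst (by decide) (by decide) inst_58 p2_58
  · exact h.no_inst (by decide) (by decide) inst_59 p2_59
  · exact h.no_inst (by decide) (by decide) inst_60 p2_60
  · exact h.no_inst (by decide) (by decide) inst_61 p2_61
  · exact h.no_inst (by decide) (by decide) inst_62 p2_62
  · exact h.no_inst (by decide) (by decide) inst_63 p2_63
  · exact h.no_inst (by decide) (by decide) inst_64 p2_64
  · exact h.no_inst (by decide) (by decide) inst_65 p2_65
  · exact h.no_inst (by decide) (by decide) inst_66 p2_66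
  · exact h.no_inst (by decide) (by decide) inst_67 p2_67
  · exact h.no_inst (by decide) (by decide) inst_68 p2_68
  · exact h.no_inst (by decide) (by decide) inst_69 p2_69
  · exact h.no_inst (by decide) (by decide) inst_70 p2_70
  · exact h.no_inst (by decide) (by decide) inst_71 p2_71
  · exact h.no_ord (by decide) inst_72 p2_72
  · exact h.no_ord (by decide) inst_73 p2_73
  · exact h.no_ord (by decide) inst_74 p2_74
  · exact h.no_inst (by decide) (by decide) inst_75 p2_75
  · exact h.no_inst (by decide) (by decide) inst_76 p2_76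
  · exact h.no_inst (by decide) (by decide) inst_77 p2_77
  · exact h.no_inst (by decide) (by decide) inst_78 p2_78
  · exact h.no_inst (by decide) (by decide) inst_79 p2_79
  · exact h.no_inst (by decide) (by decide) inst_80 p2_80
  · exact h.no_inst (by decide) (by decide) inst_81 p2_81
  · exact h.no_inst (by decide) (by decide) inst_82 p2_82
  · exact h.no_inst (by decide) (by decide) inst_83 p2_83
  · exact h.no_inst (by decide) (by decide) inst_84 p2_84
  · exact h.no_inst (by decide) (by decide) inst_85 p2_85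
  · exact h.no_ord (by decide) inst_86 p2_86

/-- no instance with an explicit leaf is realised. -/
theorem noG : NoG.{u} V ι := by
  intro B Q x D t ht h
  unfold instG at ht
  simp only [List.mem_cons, List.not_mem_nil, or_false] at ht
  rcases ht with rfl | rfl | rfl | rfl | rfl | rfl | rfl | rfl | rfl | rfl | rfl | rfl | rfl | rfl |
    rfl | rfl | rfl | rfl | rfl | rfl | rfl | rfl | rfl | rfl | rfl | rfl | rfl
  · exact nol_00 h
  · exact nol_01 h
  · exact nol_02 h
  · exact nol_03 h
  · exact nol_04 h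
  · exact nol_05 h
  · exact nol_06 h
  · exact nol_07 h
  · exact nol_08 h
  · exact nol_09 h
  · exact nol_10 h
  · exact nol_11 h
  · exact nol_12 h
  · exact nol_13 h
  · exact nol_14 h
  · exact nol_15 h
  · exact nol_16 h
  · exact nol_17 h
  · exact nol_18 h
  · exact nol_19 h
  · exact nol_20 h
  · exact nol_21 h
  · exact nol_22 h
  · exact nol_23 h
  · exact nol_24 h
  · exact nol_25 h
  · exact nol_26 h

/-- **two full blocks and few further hits.** -/
theorem ViolR.two_full (h : ViolR B Q) (fi : (B i ∩ Q).card = 3) (fj : (B j ∩ Q).card = 3)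
    (dij : Disjoint (B i ∩ Q) (B j ∩ Q)) (hLQ : L ⊆ Q) (hLc : Conn (gr B) L) (hLcr : Crit B L)
    (hLs : sv B L = -1) (hL3 : nt B L 3 = 0)
    (hLi : Disjoint L (B i ∩ Q)) (hLj : Disjoint L (B j ∩ Q)) (hn1 : nt B L 1 ≤ 6) :
    2 ≤ (hit B (Q \ (L ∪ ((B i ∩ Q) ∪ (B j ∩ Q)))) L : ℤ) + fs B Q L :=
  h.two_full_of noG noU fi fj dij (h.lemA' fi).1 (h.lemA' fi).2.1 (h.lemA' fj).1 (h.lemA' fj).2.1
    hLQ hLc hLcr hLs hL3 hLi hLj hn1

end Pool.Agent.Hyp6
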