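import Pool.Agent.Hyp6.Gda
import Pool.Agent.Hyp6.InsX.R01
import Pool.Agent.Hyp6.InsX.R02

/-!
# HYP6 L3G4r: the living vectors of a triple with four hits on a leaf of type (3;1)

`Frm.gda_rows`: with the tables of the vectors (4,0,0) and (3,1,0), only (2,2,0) and (2,1,1) are left.
-/

set_option autoImplicit false

namespace Pool.Agent.Hyp6

open Finset Pool.Agent.Hyp5

universe u v

variable {V : Type v} [DecidableEq V] {ι : Type u} [Fintype ι] [DecidableEq ι]
  {B : ι → Finset V} {Q U : Finset V} {T : Finset ι} {F : Finset (Finset V)}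

/-- the living vectors of a triple with at least four hits on a leaf of type (3;1). -/
theorem Frm.gda_rows (h : Frm B Q T U F) (hv : ViolR B Q) {L : Finset V} (hL : L ∈ F)
    (hc3 : L.card = 3) (h1 : nt B L 1 = 1) (hdv : dv B Q L = -1) (hg : hit B U L ≤ 2) {j : ι}
    (hj : j ∈ T) (h4 : 4 ≤ hit B (B j ∩ Q) L) :
    ∃ hT ct, Lbl B Q L j hT [1, 1, 1, 1, 1] ct ∧ (hT = [2, 2, 0] ∨ hT = [2, 1, 1]) := by
  obtain ⟨hT, hW, ct, hl, rfl, h2⟩ := h.gda4 hv hL hc3 h1 hdv hg hj h4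
  rcases h2 with rfl | rfl | rfl | rfl
  · exact (Gdx.S31_400_u11111.no h hv hL hc3 h1 hj hl).elim
  · exact (Gdx.S31_310_u11111.no h hv hL hc3 h1 hj hl).elim
  · exact ⟨_, ct, hl, Or.inl rfl⟩
  · exact ⟨_, ct, hl, Or.inr rfl⟩

end Pool.Agent.Hyp6
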