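import Pool.Agent.Hyp6.L3P8e
import Pool.Agent.Hyp6.Gda

/-!
# HYP6 L3G4v: the four vectors of a triple with four hits on a leaf of type (3;1)

`Frm.g4v`: `G4v` holds.
-/

set_option autoImplicit false

namespace Pool.Agent.Hyp6

open Finset Pool.Agent.Hyp5

universe u v

variable {V : Type v} [DecidableEq V] {ι : Type u} [Fintype ι] [DecidableEq ι]
  {B : ι → Finset V} {Q U : Finset V} {T : Finset ι} {F : Finset (Finset V)}

/-- **the four vectors** of a triple with four hits on a leaf of type (3;1). -/
theorem Frm.g4v (h : Frm B Q T U F) (hv : ViolR B Q) : G4v B Q T U F :=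
  fun _ hL hc h1 hdv hg _ hj h4 => h.gda4 hv hL hc h1 hdv hg hj h4

end Pool.Agent.Hyp6
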