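import Pool.Agent.Hyp6.L3P8i

/-!
# HYP6 L3G4w: four hits on a leaf of type (3;1), second names

`StgR.row31_3` and `StgR.x4` are `StgR.row31'` and `StgR.x4h` of L3P8i.
-/

set_option autoImplicit false

namespace Pool.Agent.Hyp6

open Finset Pool.Agent.Hyp5 Rt

universe u v

variable {V : Type v} [DecidableEq V] {ι : Type u} [Fintype ι] [DecidableEq ι]
  {B : ι → Finset V} {Q U : Finset V} {T : Finset ι} {F : Finset (Finset V)}
  {P : Finset (Finset (Finset V))} {a : V → Finset (Finset V) → ℕ} {L : Finset V} {j : ι}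

/-- **a triple with four hits on an own leaf of type (3;1)** has at most three other hits. -/
theorem StgR.row31_3 (s : StgR B Q T U F P a) (hL : {L} ∈ P) (hj : j ∈ T) (hc3 : L.card = 3)
    (h1 : nt B L 1 = 1) (hdv : dv B Q L = -1) (hg : hit B U L ≤ 2) (h4 : 4 ≤ jh B Q j L) :
    ∑ C ∈ F.erase L, jh B Q j C ≤ 3 :=
  s.row31' hL hj hc3 h1 hdv hg h4

/-- **`X4`**. -/
theorem StgR.x4 (s : StgR B Q T U F P a) : X4 B Q T U F P := s.x4h

end Pool.Agent.Hyp6
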