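import Pool.Agent.Hyp6.L3G3
import Pool.Agent.Hyp6.L3G4

/-!
# HYP6 L3G5: A2 for the leaves of a frame

`Frm.two_triples`: for two triples of the frame the further hits and the free places of a leaf are at
least two, or the leaf has at least seven blocks with one point.
-/

set_option autoImplicit false

namespace Pool.Agent.Hyp6

open Finset Pool.Agent.Hyp5

universe u v

variable {V : Type v} [DecidableEq V] {ι : Type u} [Fintype ι] {B : ι → Finset V}
variable {Q U C : Finset V} {T : Finset ι} {F : Finset (Finset V)} {i j : ι}

/-- **A2.** A leaf `C` with at most six blocks with one point and two triples of the frame: the other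
blocks that meet `C`, counted with their contacts, and the free places of `C` are together at least
two. -/
theorem Frm.two_triples (h : Frm B Q T U F) (hv : ViolR B Q) (hi : i ∈ T) (hj : j ∈ T) (hij : i ≠ j)
    (hC : C ∈ F) (hn1 : nt B C 1 ≤ 6) :
    2 ≤ (hit B (Q \ (C ∪ ((B i ∩ Q) ∪ (B j ∩ Q)))) C : ℤ) + fs B Q C :=
  h.two_triples_of noG noU hv hi hj hij hC hn1

end Pool.Agent.Hyp6
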