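import Pool.Agent.Hyp6.CfGM
import Pool.Agent.Hyp6.L3G2

/-!
# HYP6 L3G6: a component with contacts in two full blocks and at most one further hit, general bounds

`ViolR.few_of`: the general form, from the impossibility of the instances with the leaf value `k`.
-/

set_option autoImplicit false

namespace Pool.Agent.Hyp6

open Finset Pool.Agent.Hyp5

universe u v

variable {V : Type v} [DecidableEq V] {ι : Type u} [Fintype ι] {B : ι → Finset V}
variable {Q L P : Finset V} {i j : ι} {k s H : ℕ}

/-- **two full blocks and at most one further hit**, general bounds: `s` for all hits, `H` for the hits of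
the two full blocks. -/
theorem ViolR.few_of (hnoM : NoM.{u} V ι k s H) (hnoU : NoU.{u} V ι) (h : ViolR B Q)
    (fi : (B i ∩ Q).card = 3) (fj : (B j ∩ Q).card = 3)
    (dij : Disjoint (B i ∩ Q) (B j ∩ Q)) (conni : Conn (gr B) (Q \ (B i ∩ Q)))
    (criti : Crit B (Q \ (B i ∩ Q))) (connj : Conn (gr B) (Q \ (B j ∩ Q)))
    (critj : Crit B (Q \ (B j ∩ Q))) (hLQ : L ⊆ Q) (hLc : Conn (gr B) L) (hLcr : Crit B L)
    (hLs : sv B L = -1) (hLi : Disjoint L (B i ∩ Q)) (hLj : Disjoint L (B j ∩ Q))
    (hdv : dv B Q L + 1 = k) (hsk : 6 * s ≤ 5 * k + 55)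
    (hw : hit B (Q \ (L ∪ ((B i ∩ Q) ∪ (B j ∩ Q)))) L ≤ 1) (hslot : hit B (Q \ L) L ≤ s)
    (hH : H ≤ hit B ((B i ∩ Q) ∪ (B j ∩ Q)) L) : False := by
  classical
  set W := Q \ (L ∪ ((B i ∩ Q) ∪ (B j ∩ Q))) with hW
  set P := W.filter (fun y => (Ez B L y).Nonempty) with hP
  have hitW : hit B W L = ∑ y ∈ W, (Ez B L y).card := hit_eq W L
  have hP1 : P.card ≤ 1 := by
    have k1 : P.card ≤ ∑ y ∈ P, (Ez B L y).card := by
      rw [card_eq_sum_ones]
      exact sum_le_sum fun y hy => card_pos.2 (mem_filter.1 hy).2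
    have k2 : ∑ y ∈ P, (Ez B L y).card ≤ ∑ y ∈ W, (Ez B L y).card :=
      sum_le_sum_of_subset (filter_subset _ _)
    rw [← hitW] at k2
    omega
  have hPW : P ⊆ W := filter_subset _ _
  have hWQ : W ⊆ Q := sdiff_subset
  have hWd : ∀ v ∈ W, v ∉ L ∧ v ∉ B i ∩ Q ∧ v ∉ B j ∩ Q := by
    intro v hv
    rw [hW, mem_sdiff, mem_union, mem_union] at hv
    push Not at hv
    exact hv.2
  have hcon' : ∀ k, (B k ∩ L).Nonempty → B k ∩ Q ⊆ L ∪ ((B i ∩ Q) ∪ ((B j ∩ Q) ∪ P)) := by
    intro k hk v hv
    by_cases hvW : v ∈ W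
    · have : v ∈ P := mem_filter.2 ⟨hvW, k, mem_Ez.2 ⟨(mem_inter.1 hv).1, hk⟩⟩
      exact mem_union_right _ (mem_union_right _ (mem_union_right _ this))
    · rw [hW, mem_sdiff, not_and, not_not, mem_union, mem_union] at hvW
      rcases hvW (mem_inter.1 hv).2 with h1 | h1 | h1
      · exact mem_union_left _ h1
      · exact mem_union_right _ (mem_union_left _ h1)
      · exact mem_union_right _ (mem_union_right _ (mem_union_left _ h1))
  obtain ⟨Y, F, hK, hPY, hLF⟩ := h.exists_KG fi fj dij conni criti connj critj hLQ hLc hLcr hLi hLj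
    (hPW.trans hWQ)
    (disjoint_left.2 fun v hv => (hWd v (hPW hv)).2.1)
    (disjoint_left.2 fun v hv => (hWd v (hPW hv)).1) hP1
    (fun p hp => (mem_filter.1 hp).2) hcon'
  have hPU : P ⊆ Y \ ((B i ∩ Q) ∪ (B j ∩ Q)) := by
    intro v hv
    obtain ⟨_, k2, k3⟩ := hWd v (hPW hv)
    rw [mem_sdiff, mem_union]
    exact ⟨hPY hv, fun h4 => h4.elim k2 k3⟩
  set U := Y \ ((B i ∩ Q) ∪ (B j ∩ Q)) with hU
  set lU := P.toList ++ (U \ P).toList with hlU
  have hlUn : lU.Nodup := by
    rw [hlU, List.nodup_append]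
    refine ⟨nodup_toList _, nodup_toList _, ?_⟩
    intro a ha b hb hab
    rw [mem_toList] at ha hb
    subst hab
    exact (mem_sdiff.1 hb).2 ha
  have hlUm : ∀ v, v ∈ lU ↔ v ∈ U := by
    intro v
    rw [hlU, List.mem_append, mem_toList, mem_toList, mem_sdiff]
    constructor
    · rintro (h1 | h1)
      · exact hPU h1
      · exact h1.1
    · intro h1
      tauto
  set lF := L :: (F.erase L).toList with hlF
  have hlFn : lF.Nodup := by
    rw [hlF, List.nodup_cons]
    refine ⟨?_, nodup_toList _⟩
    rw [mem_toList]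
    exact fun h1 => (mem_erase.1 h1).1 rfl
  have hlFm : ∀ M, M ∈ lF ↔ M ∈ F := by
    intro M
    rw [hlF, List.mem_cons, mem_toList, mem_erase]
    constructor
    · rintro (rfl | h1)
      · exact hLF
      · exact h1.2
    · intro h1
      by_cases h2 : M = L
      · exact Or.inl h2
      · exact Or.inr ⟨h2, h1⟩
  obtain ⟨x, D, v0, hcf, hxY, hxU, hDF, hcY, hcF⟩ := hK.exists_cfG ⟨L, hLF⟩ hlUn hlUm hlFn hlFm
  have hlF0 : 0 < lF.length := by
    rw [hlF]
    simp
  have hD0 : D 0 = L := by
    rw [hDF 0 hlF0, hlF]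
    rfl
  -- the numbers of hits
  have hw0 : wv B Q L = dv B Q L + 1 := wv_neg hLs
  have hzero : ∀ v ∈ Y, v ∉ B i ∩ Q → v ∉ B j ∩ Q → v ∉ P → (Ez B L v).card = 0 := by
    intro v hv k1 k2 k3
    rw [card_eq_zero]
    by_contra k4
    apply k3
    refine mem_filter.2 ⟨?_, nonempty_iff_ne_empty.2 k4⟩
    rw [hW, mem_sdiff, mem_union, mem_union]
    refine ⟨hK.YQ hv, ?_⟩
    rintro (k5 | k5 | k5)
    · exact hK.notMem hLF hv k5
    · exact k1 k5
    · exact k2 k5
  have hEzP : ∀ v ∈ P, (Ez B L v).card ≤ 1 := by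
    intro v hv
    have k1 : (Ez B L v).card ≤ ∑ y ∈ W, (Ez B L y).card :=
      single_le_sum (f := fun y => (Ez B L y).card) (fun _ _ => Nat.zero_le _) (hPW hv)
    rw [← hitW] at k1
    omega
  have hinj := hcf.cf.inj
  have himY : Y = (range (6 + lU.length)).image x := by
    ext v
    rw [hxY, mem_image]
    constructor
    · rintro ⟨a, ha, he⟩
      exact ⟨a, mem_range.2 ha, he⟩
    · rintro ⟨a, ha, he⟩
      exact ⟨a, mem_range.1 ha, he⟩
  have hlf : LfM B Q lU.length x D s H := by
    refine ⟨?_, ?_, ?_, ?_, ?_⟩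
    · rw [hD0, hw0, hdv]
      exact_mod_cast hsk
    · rw [hD0]
      have k1 : ∑ a ∈ range (6 + lU.length), (Ez B L (x a)).card = hit B Y L := by
        rw [himY]
        rw [show hit B ((range (6 + lU.length)).image x) L =
          ∑ y ∈ (range (6 + lU.length)).image x, (Ez B L y).card from hit_eq _ L]
        rw [sum_image]
        intro a ha b hb he
        exact hinj a (by simpa using ha) b (by simpa using hb) he
      rw [k1]
      refine le_trans ?_ hslot
      rw [show hit B Y L = ∑ y ∈ Y, (Ez B L y).card from hit_eq _ L,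
        show hit B (Q \ L) L = ∑ y ∈ Q \ L, (Ez B L y).card from hit_eq _ L]
      exact sum_le_sum_of_subset fun v hv => mem_sdiff.2 ⟨hK.YQ hv, hK.notMem hLF hv⟩
    · rw [hD0]
      have k1 : ∑ a ∈ range 6, (Ez B L (x a)).card =
          hit B ((B i ∩ Q) ∪ (B j ∩ Q)) L := by
        have k2 : (B i ∩ Q) ∪ (B j ∩ Q) = (range 6).image x := by
          ext v
          rw [mem_union, hcf.i7, hcf.j56, mem_ptm, mem_ptm, mem_image]
          constructor
          · rintro (⟨a, ha, hb, rfl⟩ | ⟨a, ha, hb, rfl⟩)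
            · refine ⟨a, mem_range.2 ?_, rfl⟩
              by_contra hc
              push Not at hc
              have : Nat.testBit 7 a = false := by
                apply Nat.testBit_lt_two_pow
                calc 7 < 2 ^ 6 := by norm_num
                  _ ≤ 2 ^ a := Nat.pow_le_pow_right (by norm_num) hc
              rw [this] at hb
              exact absurd hb (by simp)
            · refine ⟨a, mem_range.2 ?_, rfl⟩
              by_contra hc
              push Not at hc
              have : Nat.testBit 56 a = false := by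
                apply Nat.testBit_lt_two_pow
                calc 56 < 2 ^ 6 := by norm_num
                  _ ≤ 2 ^ a := Nat.pow_le_pow_right (by norm_num) hc
              rw [this] at hb
              exact absurd hb (by simp)
          · rintro ⟨a, ha, rfl⟩
            rw [mem_range] at ha
            have k3 : (7).testBit a = true ∨ (56).testBit a = true := by
              interval_cases a <;> decide
            rcases k3 with k3 | k3
            · exact Or.inl ⟨a, by omega, k3, rfl⟩
            · exact Or.inr ⟨a, by omega, k3, rfl⟩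
        rw [k2, show hit B ((range 6).image x) L = ∑ y ∈ (range 6).image x, (Ez B L y).card from
          hit_eq _ L, sum_image]
        intro a ha b hb he
        exact hinj a (by have := mem_range.1 ha; omega) b (by have := mem_range.1 hb; omega) he
      rw [k1]
      exact hH
    · intro hn
      rw [hD0]
      have k0 := hxU 0 (by omega)
      rw [add_zero] at k0
      rw [k0]
      have hmU : lU.getD 0 v0 ∈ U := (hlUm _).1 (getD_mem_of_lt (by omega))
      by_cases hP0 : lU.getD 0 v0 ∈ P
      · exact hEzP _ hP0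
      · rw [hU, mem_sdiff, mem_union, not_or] at hmU
        rw [hzero _ hmU.1 hmU.2.1 hmU.2.2 hP0]
        norm_num
    · intro hn
      rw [hD0]
      have k0 := hxU 1 (by omega)
      rw [show 6 + 1 = 7 from rfl] at k0
      rw [k0]
      have hmU : lU.getD 1 v0 ∈ U := (hlUm _).1 (getD_mem_of_lt (by omega))
      have hP0 : lU.getD 1 v0 ∉ P := by
        intro k1
        rcases (by omega : P.card = 0 ∨ P.card = 1) with hc | hc
        · rw [card_eq_zero.1 hc] at k1
          exact absurd k1 (notMem_empty _)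
        · obtain ⟨p, hp⟩ := card_eq_one.1 hc
          have k2 : lU = [p] ++ (U \ P).toList := by
            rw [hlU, hp, toList_singleton]
          have k3 : lU.getD 0 v0 = p := by
            rw [k2]
            rfl
          rw [hp, mem_singleton] at k1
          have := getD_inj hlUn (a := 0) (b := 1) (by omega) (by omega) (k3.trans k1.symm)
          omega
      rw [hU, mem_sdiff, mem_union, not_or] at hmU
      exact hzero _ hmU.1 hmU.2.1 hmU.2.2 hP0
  have hrn := hcf.rn
  rcases hrn.lt_or_eq with hr | hr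
  · exact hcf.no_leafM hnoM hr (by rw [hD0, hw0, hdv]) hlf
  · rw [hr] at hcf
    obtain ⟨t, ht, x', D', i', j', hR⟩ := hcf.reduceU
    exact hnoU B Q x' D' i' j' t ht hR

end Pool.Agent.Hyp6
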