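import Pool.Agent.Hyp6.L3G3
import Pool.Agent.Hyp6.L3G4

/-!
# HYP6 L3Gc: two leaves joined by a point, with contacts in two triples

`ViolR.exists_KG2`: the closure of the contacts of two separated critical components.
`ViolR.two_comp_of`: two such components with value `-1` and `2 ≤ dv + dv`, all contacts in two disjoint
full blocks and in a nonempty set `P` of further points absorbed by the components, do not exist if there
are at least three further points, or a further block meets `P`. `Frm.comp_two`: two leaves of the frame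
joined by a point `u` whose further contacts lie in two triples have at least two further contact points.
-/

set_option autoImplicit false

namespace Pool.Agent.Hyp6

open Finset Pool.Agent.Hyp5

universe u v

variable {V : Type v} [DecidableEq V] {ι : Type u} [Fintype ι] {B : ι → Finset V}
variable {Q P L₁ L₂ U : Finset V} {T : Finset ι} {F : Finset (Finset V)} {i j : ι}

/-- the closure of the contacts of two components. -/
theorem ViolR.exists_KG2 (h : ViolR B Q) (fi : (B i ∩ Q).card = 3) (fj : (B j ∩ Q).card = 3)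
    (dij : Disjoint (B i ∩ Q) (B j ∩ Q)) (conni : Conn (gr B) (Q \ (B i ∩ Q)))
    (criti : Crit B (Q \ (B i ∩ Q))) (connj : Conn (gr B) (Q \ (B j ∩ Q)))
    (critj : Crit B (Q \ (B j ∩ Q))) (hLQ₁ : L₁ ⊆ Q) (hLQ₂ : L₂ ⊆ Q) (hLc₁ : Conn (gr B) L₁)
    (hLc₂ : Conn (gr B) L₂) (hLcr₁ : Crit B L₁) (hLcr₂ : Crit B L₂) (hsep : Sep B L₁ L₂)
    (hLi : Disjoint (L₁ ∪ L₂) (B i ∩ Q)) (hLj : Disjoint (L₁ ∪ L₂) (B j ∩ Q)) (hPQ : P ⊆ Q)
    (hPi : Disjoint P (B i ∩ Q)) (hPL : Disjoint P (L₁ ∪ L₂))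
    (hrho : rho B ((L₁ ∪ L₂) ∪ P) ≤ rho B L₁ + rho B L₂)
    (hcon : ∀ k, (B k ∩ (L₁ ∪ L₂)).Nonempty →
      B k ∩ Q ⊆ (L₁ ∪ L₂) ∪ ((B i ∩ Q) ∪ ((B j ∩ Q) ∪ P))) :
    ∃ Y F, KG B Q Y F i j ∧ P ⊆ Y ∧ L₁ ∈ F ∧ L₂ ∈ F := by
  classical
  have hcov := h.cov
  have hcL₁ : Cov B L₁ := hcov.mono hLQ₁
  have hcL₂ : Cov B L₂ := hcov.mono hLQ₂
  set L := L₁ ∪ L₂ with hL
  have hLQ : L ⊆ Q := union_subset hLQ₁ hLQ₂
  have hcL : Cov B L := hcov.mono hLQ
  have hrL : rho B L = rho B L₁ + rho B L₂ := rho_add hcL₁ hcL₂ hsep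
  set C := Q \ (B i ∩ Q) with hC
  have hCQ : C ⊆ Q := sdiff_subset
  have hcC : Cov B C := hcov.mono hCQ
  have hrT : rho B C + 1 = rho B Q := h.rhoT fi
  set P0 := (B j ∩ Q) ∪ P with hP0
  have hTjC : B j ∩ Q ⊆ C := fun v hv =>
    mem_sdiff.2 ⟨(mem_inter.1 hv).2, fun h3 => disjoint_left.1 dij h3 hv⟩
  have hPC : P ⊆ C := fun v hv => mem_sdiff.2 ⟨hPQ hv, fun h3 => disjoint_left.1 hPi hv h3⟩
  have hP0C : P0 ⊆ C := union_subset hTjC hPC
  have hLC : L ⊆ C := fun v hv => mem_sdiff.2 ⟨hLQ hv, fun h3 => disjoint_left.1 hLi hv h3⟩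
  have hLP0 : Disjoint L P0 := by
    rw [hP0, disjoint_union_right]
    exact ⟨hLj, hPL.symm⟩
  set R := (C \ P0) \ L with hR
  have hRC : R ⊆ C := sdiff_subset.trans sdiff_subset
  have hcR : Cov B R := hcC.mono hRC
  have hLR : Sep B L R := by
    intro k hk1 hk2
    obtain ⟨v, hv⟩ := hk2
    rw [mem_inter, hR, mem_sdiff, mem_sdiff] at hv
    obtain ⟨hvk, ⟨hvC, hvP⟩, hvL⟩ := hv
    rcases mem_union.1 (hcon k hk1 (mem_inter.2 ⟨hvk, hCQ hvC⟩)) with h1 | h1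
    · exact hvL h1
    · rcases mem_union.1 h1 with h1 | h1
      · exact (mem_sdiff.1 hvC).2 h1
      · exact hvP h1
  have hun : C \ P0 = L ∪ R := by
    rw [hR, union_sdiff_of_subset]
    intro v hv
    exact mem_sdiff.2 ⟨hLC hv, fun h3 => disjoint_left.1 hLP0 hv h3⟩
  have h1 : rho B (C \ P0) = rho B L + rho B R := by
    rw [hun, rho_add hcL hcR hLR]
  have hTj1 : rho B (B j ∩ Q) ≤ 1 := by
    refine (rho_le (T := {j}) ?_).trans (by simp)
    rw [singleton_biUnion]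
    exact inter_subset_left
  have h2 : rho B C ≤ rho B (C \ P0) + 1 := by
    have k1 : C ⊆ ((L ∪ P) ∪ (B j ∩ Q)) ∪ R := by
      intro v hv
      by_cases hvP : v ∈ P0
      · rcases mem_union.1 hvP with hvj | hvP
        · exact mem_union_left _ (mem_union_right _ hvj)
        · exact mem_union_left _ (mem_union_left _ (mem_union_right _ hvP))
      · have : v ∈ L ∪ R := by
          rw [← hun]
          exact mem_sdiff.2 ⟨hv, hvP⟩
        rcases mem_union.1 this with hvL | hvR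
        · exact mem_union_left _ (mem_union_left _ (mem_union_left _ hvL))
        · exact mem_union_right _ hvR
    have c1 : Cov B (L ∪ P) := hcov.mono (union_subset hLQ hPQ)
    have c2 : Cov B (B j ∩ Q) := hcov.mono inter_subset_right
    have k2 := rho_mono k1 ((c1.union c2).union hcR)
    have k3 := rho_union_le (c1.union c2) hcR
    have k4 := rho_union_le c1 c2
    omega
  have hTjne : (B j ∩ Q).Nonempty := card_pos.1 (by rw [fj]; norm_num)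
  have h3 : rho B (C \ P0) + 1 = rho B C := by
    have k1 := criti.sdiff hcC (P := B j ∩ Q) (i := j) inter_subset_left hTjC hTjne
    have k2 : rho B (C \ P0) ≤ rho B (C \ (B j ∩ Q)) :=
      rho_mono (sdiff_subset_sdiff (Subset.refl _) subset_union_left) (hcC.mono sdiff_subset)
    omega
  obtain ⟨X, F, hPX, hclo⟩ := exists_clo1 hcC hP0C h3
  have hXC := hclo.sub
  -- the components do not meet the closed set
  have hLX : Disjoint L X := by
    rw [disjoint_left]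
    intro v hvL hvX
    have k1 : C \ X ⊆ L.erase v ∪ R := by
      intro w hw
      rw [mem_sdiff] at hw
      have hwP : w ∉ P0 := fun h4 => hw.2 (hPX h4)
      have : w ∈ L ∪ R := by
        rw [← hun]
        exact mem_sdiff.2 ⟨hw.1, hwP⟩
      rcases mem_union.1 this with hwL | hwR
      · refine mem_union_left _ (mem_erase.2 ⟨?_, hwL⟩)
        rintro rfl
        exact hw.2 hvX
      · exact mem_union_right _ hwR
    have c1 : Cov B (L.erase v) := hcL.mono (erase_subset _ _)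
    have k2 := rho_mono k1 (c1.union hcR)
    have k3 := rho_union_le c1 hcR
    have k4 : rho B (L.erase v) + 1 ≤ rho B L := by
      rcases mem_union.1 hvL with hv1 | hv2
      · have e1 : L.erase v ⊆ L₁.erase v ∪ L₂ := by
          intro w hw
          rw [mem_erase] at hw
          rcases mem_union.1 hw.2 with h4 | h4
          · exact mem_union_left _ (mem_erase.2 ⟨hw.1, h4⟩)
          · exact mem_union_right _ h4
        have c2 : Cov B (L₁.erase v) := hcL₁.mono (erase_subset _ _)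
        have e2 := rho_mono e1 (c2.union hcL₂)
        have e3 := rho_union_le c2 hcL₂
        have e4 := hLcr₁ v hv1
        omega
      · have e1 : L.erase v ⊆ L₁ ∪ L₂.erase v := by
          intro w hw
          rw [mem_erase] at hw
          rcases mem_union.1 hw.2 with h4 | h4
          · exact mem_union_left _ h4
          · exact mem_union_right _ (mem_erase.2 ⟨hw.1, h4⟩)
        have c2 : Cov B (L₂.erase v) := hcL₂.mono (erase_subset _ _)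
        have e2 := rho_mono e1 (hcL₁.union c2)
        have e3 := rho_union_le hcL₁ c2
        have e4 := hLcr₂ v hv2
        omega
    have k5 := hclo.rhoX
    omega
  have hLCX : L ⊆ C \ X := fun v hv =>
    mem_sdiff.2 ⟨hLC hv, fun h4 => disjoint_left.1 hLX hv h4⟩
  have hRX : ∀ v ∈ C \ X, v ∉ L → v ∈ R := by
    intro v hv hvL
    rw [mem_sdiff] at hv
    rw [hR, mem_sdiff, mem_sdiff]
    exact ⟨⟨hv.1, fun h4 => hv.2 (hPX h4)⟩, hvL⟩
  have hLcl₁ : Closed (gr B) (C \ X) L₁ := by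
    refine closed_of_sep (subset_union_left.trans hLCX) ?_
    intro k hk1 hk2
    obtain ⟨v, hv⟩ := hk2
    rw [mem_inter, mem_sdiff] at hv
    obtain ⟨hvk, hvC, hv1⟩ := hv
    by_cases hv2 : v ∈ L₂
    · exact hsep k hk1 ⟨v, mem_inter.2 ⟨hvk, hv2⟩⟩
    · refine hLR k (hk1.mono (inter_subset_inter_left subset_union_left))
        ⟨v, mem_inter.2 ⟨hvk, hRX v hvC ?_⟩⟩
      rw [hL, mem_union, not_or]
      exact ⟨hv1, hv2⟩
  have hLcl₂ : Closed (gr B) (C \ X) L₂ := by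
    refine closed_of_sep (subset_union_right.trans hLCX) ?_
    intro k hk1 hk2
    obtain ⟨v, hv⟩ := hk2
    rw [mem_inter, mem_sdiff] at hv
    obtain ⟨hvk, hvC, hv2⟩ := hv
    by_cases hv1 : v ∈ L₁
    · exact hsep k ⟨v, mem_inter.2 ⟨hvk, hv1⟩⟩ hk1
    · refine hLR k (hk1.mono (inter_subset_inter_left subset_union_right))
        ⟨v, mem_inter.2 ⟨hvk, hRX v hvC ?_⟩⟩
      rw [hL, mem_union, not_or]
      exact ⟨hv1, hv2⟩
  have hmem : ∀ {K : Finset V}, K ⊆ C \ X → Closed (gr B) (C \ X) K → Conn (gr B) K → K ∈ F := by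
    intro K hK hKcl hKc
    obtain ⟨v, hv⟩ := hKc.1
    have k1 : v ∈ F.biUnion id := by
      rw [hclo.un]
      exact hK hv
    obtain ⟨M, hM, hvM⟩ := mem_biUnion.1 k1
    obtain ⟨_, k2, k3⟩ := hclo.parts M hM
    rw [conn_eq hKcl k2 hKc k3 hv hvM]
    exact hM
  have hTi : B i ∩ Q ⊆ Q := inter_subset_right
  have hQY : Q \ ((B i ∩ Q) ∪ X) = C \ X := by
    rw [hC, sdiff_sdiff_left]
    rfl
  refine ⟨(B i ∩ Q) ∪ X, F, ?_, fun v hv => mem_union_right _ (hPX (mem_union_right _ hv)),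
    hmem (subset_union_left.trans hLCX) hLcl₁ hLc₁,
    hmem (subset_union_right.trans hLCX) hLcl₂ hLc₂⟩
  refine ⟨h, fi, fj, dij, subset_union_left,
    fun v hv => mem_union_right _ (hPX (mem_union_left _ hv)), union_subset hTi (hXC.trans hCQ),
    ?_, hclo.sep, ?_, hclo.crit, ?_, conni, criti, connj, critj⟩
  · rw [hQY]
    exact hclo.parts
  · rw [hQY]
    exact hclo.un
  · rw [hQY]
    have := hclo.rhoX
    omega

namespace KG

variable {Y : Finset V}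

/-- a closure with the largest number of components does not exist. -/
theorem full_lt (hnoU : NoU.{u} V ι) (h : KG B Q Y F i j) (hne : F.Nonempty) :
    F.card + 5 ≤ Y.card := by
  classical
  have h1 := h.cardF hne
  rcases h1.lt_or_eq with h2 | h2
  · omega
  exfalso
  set W := Y \ ((B i ∩ Q) ∪ (B j ∩ Q)) with hW
  obtain ⟨x, D, v0, hcf, hxY, hxU, hDF, hcY, hcF⟩ := h.exists_cfG hne (lU := W.toList)
    (nodup_toList _) (fun v => mem_toList) (lF := F.toList) (nodup_toList _) (fun v => mem_toList)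
  have hr : F.toList.length = 2 + W.toList.length := by omega
  rw [hr] at hcf
  obtain ⟨t, ht, x', D', i', j', hR⟩ := hcf.reduceU
  exact hnoU B Q x' D' i' j' t ht hR

end KG

/-- **two components with contacts in two full blocks**, from the impossibility of the instances. -/
theorem ViolR.two_comp_of (hnoU : NoU.{u} V ι) (h : ViolR B Q) (fi : (B i ∩ Q).card = 3)
    (fj : (B j ∩ Q).card = 3)
    (dij : Disjoint (B i ∩ Q) (B j ∩ Q)) (conni : Conn (gr B) (Q \ (B i ∩ Q)))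
    (criti : Crit B (Q \ (B i ∩ Q))) (connj : Conn (gr B) (Q \ (B j ∩ Q)))
    (critj : Crit B (Q \ (B j ∩ Q))) (hLQ₁ : L₁ ⊆ Q) (hLQ₂ : L₂ ⊆ Q) (hLc₁ : Conn (gr B) L₁)
    (hLc₂ : Conn (gr B) L₂) (hLcr₁ : Crit B L₁) (hLcr₂ : Crit B L₂) (hsep : Sep B L₁ L₂)
    (hs₁ : sv B L₁ = -1) (hs₂ : sv B L₂ = -1)
    (hLi : Disjoint (L₁ ∪ L₂) (B i ∩ Q)) (hLj : Disjoint (L₁ ∪ L₂) (B j ∩ Q)) (hPQ : P ⊆ Q)
    (hPi : Disjoint P (B i ∩ Q)) (hPj : Disjoint P (B j ∩ Q)) (hPL : Disjoint P (L₁ ∪ L₂))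
    (hPne : P.Nonempty)
    (hrho : rho B ((L₁ ∪ L₂) ∪ P) ≤ rho B L₁ + rho B L₂)
    (hcon : ∀ k, (B k ∩ (L₁ ∪ L₂)).Nonempty →
      B k ∩ Q ⊆ (L₁ ∪ L₂) ∪ ((B i ∩ Q) ∪ ((B j ∩ Q) ∪ P)))
    (hd : 2 ≤ dv B Q L₁ + dv B Q L₂)
    (hW : 3 ≤ (Q \ ((L₁ ∪ L₂) ∪ ((B i ∩ Q) ∪ (B j ∩ Q)))).card ∨
      ∃ k, (B k ∩ P).Nonempty ∧ ¬ (B k ∩ (L₁ ∪ L₂)).Nonempty) : False := by
  classical
  obtain ⟨Y, F, hK, hPY, hL₁, hL₂⟩ := h.exists_KG2 fi fj dij conni criti connj critj hLQ₁ hLQ₂ hLc₁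
    hLc₂ hLcr₁ hLcr₂ hsep hLi hLj hPQ hPi hPL hrho hcon
  have hne : F.Nonempty := ⟨L₁, hL₁⟩
  have h12 : L₁ ≠ L₂ := by
    rintro rfl
    obtain ⟨v, hv⟩ := hLc₁.1
    obtain ⟨k, hk⟩ := (h.cov.mono hLQ₁) v hv
    exact hsep k ⟨v, mem_inter.2 ⟨hk, hv⟩⟩ ⟨v, mem_inter.2 ⟨hk, hv⟩⟩
  have hY8 := hK.Y8 hne
  have hfull := hK.full_lt hnoU hne
  have hsum := hK.sum_wv
  have hee := hK.ee_le
  have hsub : ({L₁, L₂} : Finset (Finset V)) ⊆ F := by
    intro M hM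
    rw [mem_insert, mem_singleton] at hM
    rcases hM with rfl | rfl
    · exact hL₁
    · exact hL₂
  have hw12 : wv B Q L₁ + wv B Q L₂ ≤ ∑ L ∈ F, wv B Q L := by
    rw [← sum_pair h12]
    exact sum_le_sum_of_subset_of_nonneg hsub fun M hM _ => wv_nn (hK.cp hM).l_ge
  rw [wv_neg hs₁, wv_neg hs₂] at hw12
  -- the closed set has a point outside the two full blocks
  have h7 : 7 ≤ Y.card := by
    have k1 : (B i ∩ Q) ∪ ((B j ∩ Q) ∪ P) ⊆ Y := union_subset hK.iY (union_subset hK.jY hPY)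
    have k2 := card_le_card k1
    have k3 : Disjoint (B i ∩ Q) ((B j ∩ Q) ∪ P) := disjoint_union_right.2 ⟨dij, hPi.symm⟩
    rw [card_union_of_disjoint k3, card_union_of_disjoint hPj.symm, fi, fj] at k2
    have := card_pos.2 hPne
    omega
  have hF2 : 2 ≤ F.card := by
    have := card_le_card hsub
    rwa [card_pair h12] at this
  rcases (by omega : Y.card = 7 ∨ Y.card = 8) with hc | hc
  · -- two components
    have hF : F.card = 2 := by omega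
    have hFe : F = {L₁, L₂} := (eq_of_subset_of_card_le hsub (by rw [card_pair h12]; omega)).symm
    have hun : Q \ Y = L₁ ∪ L₂ := by
      rw [← hK.un, hFe, biUnion_insert, singleton_biUnion]
      rfl
    rcases hW with hW | ⟨k, hkP, hkL⟩
    · have k1 : Q \ ((L₁ ∪ L₂) ∪ ((B i ∩ Q) ∪ (B j ∩ Q))) ⊆ Y \ ((B i ∩ Q) ∪ (B j ∩ Q)) := by
        intro v hv
        rw [mem_sdiff, mem_union, not_or] at hv
        rw [mem_sdiff]
        refine ⟨?_, hv.2.2⟩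
        by_contra hvY
        exact hv.2.1 (by rw [← hun]; exact mem_sdiff.2 ⟨hv.1, hvY⟩)
      have k2 := card_le_card k1
      have k3 := card_sdiff_add_card_eq_card (union_subset hK.iY hK.jY)
      rw [card_union_of_disjoint dij, fi, fj] at k3
      omega
    · have k1 : k ∈ ins B Q Y := by
        obtain ⟨v, hv⟩ := hkP
        rw [mem_inter] at hv
        refine mem_ins.2 ⟨⟨v, mem_inter.2 ⟨hv.1, hPQ hv.2⟩⟩, ?_⟩
        intro w hw
        by_contra hwY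
        rw [mem_inter] at hw
        apply hkL
        refine ⟨w, mem_inter.2 ⟨hw.1, ?_⟩⟩
        rw [← hun]
        exact mem_sdiff.2 ⟨hw.2, hwY⟩
      have k2 : k ≠ i := by
        rintro rfl
        obtain ⟨v, hv⟩ := hkP
        rw [mem_inter] at hv
        exact disjoint_left.1 hPi hv.2 (mem_inter.2 ⟨hv.1, hPQ hv.2⟩)
      have k3 : k ≠ j := by
        rintro rfl
        obtain ⟨v, hv⟩ := hkP
        rw [mem_inter] at hv
        exact disjoint_left.1 hPj hv.2 (mem_inter.2 ⟨hv.1, hPQ hv.2⟩)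
      obtain ⟨k4, k5, k6⟩ := hK.ij_ins
      have k7 : ({i, j, k} : Finset ι) ⊆ ins B Q Y := by
        intro a ha
        simp only [mem_insert, mem_singleton] at ha
        rcases ha with rfl | rfl | rfl
        · exact k4
        · exact k5
        · exact k1
      have k8 := card_le_card k7
      rw [card_eq_three.2 ⟨i, j, k, k6, k2.symm, k3.symm, rfl⟩] at k8
      omega
  · omega

/-- **two components with contacts in two full blocks**: at most two further absorbed points. -/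
theorem ViolR.two_comp3 (h : ViolR B Q) (fi : (B i ∩ Q).card = 3)
    (fj : (B j ∩ Q).card = 3)
    (dij : Disjoint (B i ∩ Q) (B j ∩ Q)) (conni : Conn (gr B) (Q \ (B i ∩ Q)))
    (criti : Crit B (Q \ (B i ∩ Q))) (connj : Conn (gr B) (Q \ (B j ∩ Q)))
    (critj : Crit B (Q \ (B j ∩ Q))) (hLQ₁ : L₁ ⊆ Q) (hLQ₂ : L₂ ⊆ Q) (hLc₁ : Conn (gr B) L₁)
    (hLc₂ : Conn (gr B) L₂) (hLcr₁ : Crit B L₁) (hLcr₂ : Crit B L₂) (hsep : Sep B L₁ L₂)
    (hLi : Disjoint (L₁ ∪ L₂) (B i ∩ Q)) (hLj : Disjoint (L₁ ∪ L₂) (B j ∩ Q)) (hPQ : P ⊆ Q)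
    (hPi : Disjoint P (B i ∩ Q)) (hPj : Disjoint P (B j ∩ Q)) (hPL : Disjoint P (L₁ ∪ L₂))
    (hrho : rho B ((L₁ ∪ L₂) ∪ P) ≤ rho B L₁ + rho B L₂)
    (hcon : ∀ k, (B k ∩ (L₁ ∪ L₂)).Nonempty →
      B k ∩ Q ⊆ (L₁ ∪ L₂) ∪ ((B i ∩ Q) ∪ ((B j ∩ Q) ∪ P))) : P.card ≤ 2 := by
  classical
  obtain ⟨Y, F, hK, hPY, hL₁, hL₂⟩ := h.exists_KG2 fi fj dij conni criti connj critj hLQ₁ hLQ₂ hLc₁
    hLc₂ hLcr₁ hLcr₂ hsep hLi hLj hPQ hPi hPL hrho hcon
  have hY8 := hK.Y8 ⟨L₁, hL₁⟩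
  have k1 : (B i ∩ Q) ∪ ((B j ∩ Q) ∪ P) ⊆ Y := union_subset hK.iY (union_subset hK.jY hPY)
  have k2 := card_le_card k1
  have k3 : Disjoint (B i ∩ Q) ((B j ∩ Q) ∪ P) := disjoint_union_right.2 ⟨dij, hPi.symm⟩
  rw [card_union_of_disjoint k3, card_union_of_disjoint hPj.symm, fi, fj] at k2
  omega

omit [Fintype ι] in
/-- two sets absorb two sets of points. -/
theorem rho_abz2 {P₁ P₂ : Finset V} (h1 : Abz B L₁ P₁) (h2 : Abz B L₂ P₂) (hP : P ⊆ P₁ ∪ P₂) :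
    rho B ((L₁ ∪ L₂) ∪ P) ≤ rho B L₁ + rho B L₂ := by
  classical
  obtain ⟨S₁, a1, a2⟩ := h1
  obtain ⟨S₂, b1, b2⟩ := h2
  have h3 : (L₁ ∪ L₂) ∪ P ⊆ (S₁ ∪ S₂).biUnion B := by
    intro v hv
    have hsub : ∀ {w : V}, (w ∈ S₁.biUnion B ∨ w ∈ S₂.biUnion B) → w ∈ (S₁ ∪ S₂).biUnion B := by
      intro w hw
      rw [mem_biUnion]
      rcases hw with hw | hw
      · obtain ⟨k, hk, hk'⟩ := mem_biUnion.1 hw
        exact ⟨k, mem_union_left _ hk, hk'⟩
      · obtain ⟨k, hk, hk'⟩ := mem_biUnion.1 hw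
        exact ⟨k, mem_union_right _ hk, hk'⟩
    apply hsub
    rcases mem_union.1 hv with hv | hv
    · rcases mem_union.1 hv with hv | hv
      · exact Or.inl (a1 (mem_union_left _ hv))
      · exact Or.inr (b1 (mem_union_left _ hv))
    · rcases mem_union.1 (hP hv) with hv | hv
      · exact Or.inl (a1 (mem_union_right _ hv))
      · exact Or.inr (b1 (mem_union_right _ hv))
  have h4 := rho_le h3
  have h5 := card_union_le S₁ S₂
  omega

namespace Frm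

/-- the points outside two leaves and two triples. -/
def Wq (B : ι → Finset V) (Q L₁ L₂ : Finset V) (i j : ι) : Finset V :=
  Q \ ((L₁ ∪ L₂) ∪ ((B i ∩ Q) ∪ (B j ∩ Q)))

omit [Fintype ι] in
theorem mem_Wq {v : V} : v ∈ Wq B Q L₁ L₂ i j ↔
    v ∈ Q ∧ (v ∉ L₁ ∧ v ∉ L₂) ∧ v ∉ B i ∧ v ∉ B j := by
  unfold Wq
  rw [mem_sdiff, mem_union, mem_union, mem_union, mem_inter, mem_inter]
  tauto

/-- a third triple of the frame. -/
theorem three_le_Wq (h : Frm B Q T U F) (hi : i ∈ T) (hj : j ∈ T) (h₁ : L₁ ∈ F) (h₂ : L₂ ∈ F)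
    {k : ι} (hk : k ∈ T) (hki : k ≠ i) (hkj : k ≠ j) : 3 ≤ (Wq B Q L₁ L₂ i j).card := by
  rw [← h.mtp.tpk.pack.card k hk]
  apply card_le_card
  intro v hv
  rw [mem_Wq]
  refine ⟨(mem_inter.1 hv).2, ⟨fun h1 => disjoint_left.1 (h.disT h₁ hk) h1 hv,
    fun h1 => disjoint_left.1 (h.disT h₂ hk) h1 hv⟩, fun h1 => ?_, fun h1 => ?_⟩
  · exact disjoint_left.1 (h.mtp.tpk.pack.disj k hk i hi hki) hv
      (mem_inter.2 ⟨h1, (mem_inter.1 hv).2⟩)
  · exact disjoint_left.1 (h.mtp.tpk.pack.disj k hk j hj hkj) hv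
      (mem_inter.2 ⟨h1, (mem_inter.1 hv).2⟩)

/-- the contact points of two leaves outside two triples. -/
def Cq (B : ι → Finset V) (Q L₁ L₂ : Finset V) (i j : ι) : Finset V :=
  (Wq B Q L₁ L₂ i j).filter (fun y => (Ez B (L₁ ∪ L₂) y).Nonempty)

theorem mem_Cq {v : V} : v ∈ Cq B Q L₁ L₂ i j ↔
    v ∈ Wq B Q L₁ L₂ i j ∧ ((Ez B L₁ v).Nonempty ∨ (Ez B L₂ v).Nonempty) := by
  unfold Cq
  rw [mem_filter]
  refine and_congr_right fun _ => ?_
  constructor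
  · rintro ⟨k, hk⟩
    rw [mem_Ez] at hk
    obtain ⟨hk1, w, hw⟩ := hk
    rw [mem_inter, mem_union] at hw
    rcases hw.2 with hw2 | hw2
    · exact Or.inl ⟨k, mem_Ez.2 ⟨hk1, w, mem_inter.2 ⟨hw.1, hw2⟩⟩⟩
    · exact Or.inr ⟨k, mem_Ez.2 ⟨hk1, w, mem_inter.2 ⟨hw.1, hw2⟩⟩⟩
  · rintro (⟨k, hk⟩ | ⟨k, hk⟩)
    · rw [mem_Ez] at hk
      exact ⟨k, mem_Ez.2 ⟨hk.1, hk.2.mono (inter_subset_inter_left subset_union_left)⟩⟩
    · rw [mem_Ez] at hk
      exact ⟨k, mem_Ez.2 ⟨hk.1, hk.2.mono (inter_subset_inter_left subset_union_right)⟩⟩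

theorem con_Cq : ∀ k, (B k ∩ (L₁ ∪ L₂)).Nonempty →
    B k ∩ Q ⊆ (L₁ ∪ L₂) ∪ ((B i ∩ Q) ∪ ((B j ∩ Q) ∪ Cq B Q L₁ L₂ i j)) := by
  intro k hk v hv
  by_cases hvW : v ∈ Wq B Q L₁ L₂ i j
  · have : v ∈ Cq B Q L₁ L₂ i j := mem_filter.2 ⟨hvW, k, mem_Ez.2 ⟨(mem_inter.1 hv).1, hk⟩⟩
    exact mem_union_right _ (mem_union_right _ (mem_union_right _ this))
  · unfold Wq at hvW
    rw [mem_sdiff, not_and, not_not] at hvW
    rcases mem_union.1 (hvW (mem_inter.1 hv).2) with h1 | h1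
    · exact mem_union_left _ h1
    · rcases mem_union.1 h1 with h1 | h1
      · exact mem_union_right _ (mem_union_left _ h1)
      · exact mem_union_right _ (mem_union_right _ (mem_union_left _ h1))

/-- **absorbed contact points of two leaves**: at most two further contact points. -/
theorem comp_abs3 (h : Frm B Q T U F) (hv : ViolR B Q) (hi : i ∈ T) (hj : j ∈ T) (hij : i ≠ j)
    (h₁ : L₁ ∈ F) (h₂ : L₂ ∈ F) (h12 : L₁ ≠ L₂) {P₁ P₂ : Finset V} (a₁ : Abz B L₁ P₁)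
    (a₂ : Abz B L₂ P₂) (hP : Cq B Q L₁ L₂ i j ⊆ P₁ ∪ P₂) : (Cq B Q L₁ L₂ i j).card ≤ 2 := by
  have fi := h.mtp.tpk.pack.card i hi
  have fj := h.mtp.tpk.pack.card j hj
  refine hv.two_comp3 fi fj (h.mtp.tpk.pack.disj i hi j hj hij) (hv.lemA' fi).1
    (hv.lemA' fi).2.1 (hv.lemA' fj).1 (hv.lemA' fj).2.1 (h.FQ h₁) (h.FQ h₂) (h.conn_leaf h₁)
    (h.conn_leaf h₂) (h.critL h₁) (h.critL h₂) (h.sepF L₁ h₁ L₂ h₂ h12).2
    (disjoint_union_left.2 ⟨h.disT h₁ hi, h.disT h₂ hi⟩)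
    (disjoint_union_left.2 ⟨h.disT h₁ hj, h.disT h₂ hj⟩)
    ((filter_subset _ _).trans sdiff_subset) ?_ ?_ ?_ (rho_abz2 a₁ a₂ hP) con_Cq
  · exact disjoint_left.2 fun v hv1 hv2 =>
      (mem_Wq.1 (mem_Cq.1 hv1).1).2.2.1 (mem_inter.1 hv2).1
  · exact disjoint_left.2 fun v hv1 hv2 =>
      (mem_Wq.1 (mem_Cq.1 hv1).1).2.2.2 (mem_inter.1 hv2).1
  · refine disjoint_left.2 fun v hv1 hv2 => ?_
    have h3 := (mem_Wq.1 (mem_Cq.1 hv1).1).2.1
    rcases mem_union.1 hv2 with h4 | h4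
    · exact h3.1 h4
    · exact h3.2 h4

/-- **absorbed contact points of two leaves** with `2 ≤ dv + dv`: there is no further contact point. -/
theorem comp_abs (h : Frm B Q T U F) (hv : ViolR B Q) (hi : i ∈ T) (hj : j ∈ T) (hij : i ≠ j)
    (h₁ : L₁ ∈ F) (h₂ : L₂ ∈ F) (h12 : L₁ ≠ L₂) {P₁ P₂ : Finset V} (a₁ : Abz B L₁ P₁)
    (a₂ : Abz B L₂ P₂) (hP : Cq B Q L₁ L₂ i j ⊆ P₁ ∪ P₂) (hd : 2 ≤ dv B Q L₁ + dv B Q L₂)
    (hW : 3 ≤ (Wq B Q L₁ L₂ i j).card ∨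
      ∃ k, (B k ∩ Cq B Q L₁ L₂ i j).Nonempty ∧ ¬ (B k ∩ (L₁ ∪ L₂)).Nonempty) :
    Cq B Q L₁ L₂ i j = ∅ := by
  by_contra hne
  have fi := h.mtp.tpk.pack.card i hi
  have fj := h.mtp.tpk.pack.card j hj
  refine hv.two_comp_of noU fi fj (h.mtp.tpk.pack.disj i hi j hj hij) (hv.lemA' fi).1
    (hv.lemA' fi).2.1 (hv.lemA' fj).1 (hv.lemA' fj).2.1 (h.FQ h₁) (h.FQ h₂) (h.conn_leaf h₁)
    (h.conn_leaf h₂) (h.critL h₁) (h.critL h₂) (h.sepF L₁ h₁ L₂ h₂ h12).2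
    (h.sv_leaf h₁) (h.sv_leaf h₂)
    (disjoint_union_left.2 ⟨h.disT h₁ hi, h.disT h₂ hi⟩)
    (disjoint_union_left.2 ⟨h.disT h₁ hj, h.disT h₂ hj⟩)
    ((filter_subset _ _).trans sdiff_subset) ?_ ?_ ?_ (nonempty_iff_ne_empty.2 hne)
    (rho_abz2 a₁ a₂ hP) con_Cq hd hW
  · exact disjoint_left.2 fun v hv1 hv2 =>
      (mem_Wq.1 (mem_Cq.1 hv1).1).2.2.1 (mem_inter.1 hv2).1
  · exact disjoint_left.2 fun v hv1 hv2 =>
      (mem_Wq.1 (mem_Cq.1 hv1).1).2.2.2 (mem_inter.1 hv2).1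
  · refine disjoint_left.2 fun v hv1 hv2 => ?_
    have h3 := (mem_Wq.1 (mem_Cq.1 hv1).1).2.1
    rcases mem_union.1 hv2 with h4 | h4
    · exact h3.1 h4
    · exact h3.2 h4

/-- **two leaves joined by a point, with contacts in two triples**, have at least two further contact
points. -/
theorem comp_two (h : Frm B Q T U F) (hv : ViolR B Q) (hi : i ∈ T) (hj : j ∈ T) (hij : i ≠ j)
    (h₁ : L₁ ∈ F) (h₂ : L₂ ∈ F) (h12 : L₁ ≠ L₂) {u : V} (hu : u ∈ Wq B Q L₁ L₂ i j)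
    (hE₁ : (Ez B L₁ u).Nonempty) (hE₂ : (Ez B L₂ u).Nonempty) (hd : 2 ≤ dv B Q L₁ + dv B Q L₂)
    (hW : 3 ≤ (Wq B Q L₁ L₂ i j).card ∨ ∃ k, u ∈ B k ∧ ¬ (B k ∩ (L₁ ∪ L₂)).Nonempty) :
    2 ≤ ((Cq B Q L₁ L₂ i j).erase u).card := by
  classical
  by_contra hcon
  push Not at hcon
  have hc₁ := h.cov.mono (h.FQ h₁)
  have hc₂ := h.cov.mono (h.FQ h₂)
  have huC : u ∈ Cq B Q L₁ L₂ i j := mem_Cq.2 ⟨hu, Or.inl hE₁⟩
  have hW' : 3 ≤ (Wq B Q L₁ L₂ i j).card ∨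
      ∃ k, (B k ∩ Cq B Q L₁ L₂ i j).Nonempty ∧ ¬ (B k ∩ (L₁ ∪ L₂)).Nonempty := by
    rcases hW with hW | ⟨k, hk1, hk2⟩
    · exact Or.inl hW
    · exact Or.inr ⟨k, ⟨u, mem_inter.2 ⟨hk1, huC⟩⟩, hk2⟩
  have key : ∃ P₁ P₂ : Finset V, Abz B L₁ P₁ ∧ Abz B L₂ P₂ ∧ Cq B Q L₁ L₂ i j ⊆ P₁ ∪ P₂ := by
    rcases (by omega : ((Cq B Q L₁ L₂ i j).erase u).card = 0 ∨
      ((Cq B Q L₁ L₂ i j).erase u).card = 1) with hc | hc
    · refine ⟨{u}, {u}, (h.critL h₁).pt1 hc₁ hE₁, (h.critL h₂).pt1 hc₂ hE₂, fun v hv => ?_⟩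
      rw [card_eq_zero] at hc
      by_contra hvu
      have : v ∈ (Cq B Q L₁ L₂ i j).erase u := by
        refine mem_erase.2 ⟨?_, hv⟩
        rintro rfl
        exact hvu (mem_union_left _ (mem_singleton_self _))
      rw [hc] at this
      exact absurd this (notMem_empty _)
    · obtain ⟨p, hp⟩ := card_eq_one.1 hc
      have hpm : p ∈ (Cq B Q L₁ L₂ i j).erase u := by
        rw [hp]
        exact mem_singleton_self p
      have hsub : ∀ v ∈ Cq B Q L₁ L₂ i j, v = u ∨ v = p := by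
        intro v hv
        by_cases hvu : v = u
        · exact Or.inl hvu
        · right
          have : v ∈ (Cq B Q L₁ L₂ i j).erase u := mem_erase.2 ⟨hvu, hv⟩
          rw [hp, mem_singleton] at this
          exact this
      rcases (mem_Cq.1 (mem_erase.1 hpm).2).2 with hEp | hEp
      · refine ⟨{p}, {u}, (h.critL h₁).pt1 hc₁ hEp, (h.critL h₂).pt1 hc₂ hE₂, fun v hv => ?_⟩
        rw [mem_union, mem_singleton, mem_singleton]
        exact (hsub v hv).symm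
      · refine ⟨{u}, {p}, (h.critL h₁).pt1 hc₁ hE₁, (h.critL h₂).pt1 hc₂ hEp, fun v hv => ?_⟩
        rw [mem_union, mem_singleton, mem_singleton]
        exact hsub v hv
  obtain ⟨P₁, P₂, a₁, a₂, hP⟩ := key
  rw [h.comp_abs hv hi hj hij h₁ h₂ h12 a₁ a₂ hP hd hW'] at huC
  exact absurd huC (notMem_empty _)

/-- two leaves joined by a point, with contacts in two of at least three triples. -/
theorem comp_two' (h : Frm B Q T U F) (hv : ViolR B Q) (hi : i ∈ T) (hj : j ∈ T) (hij : i ≠ j)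
    {k : ι} (hk : k ∈ T) (hki : k ≠ i) (hkj : k ≠ j)
    (h₁ : L₁ ∈ F) (h₂ : L₂ ∈ F) (h12 : L₁ ≠ L₂) {u : V} (hu : u ∈ Wq B Q L₁ L₂ i j)
    (hE₁ : (Ez B L₁ u).Nonempty) (hE₂ : (Ez B L₂ u).Nonempty) (hd : 2 ≤ dv B Q L₁ + dv B Q L₂) :
    2 ≤ ((Cq B Q L₁ L₂ i j).erase u).card :=
  h.comp_two hv hi hj hij h₁ h₂ h12 hu hE₁ hE₂ hd (Or.inl (h.three_le_Wq hi hj h₁ h₂ hk hki hkj))

end Frm

end Pool.Agent.Hyp6
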