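import Pool.Agent.Hyp6.L3Gc

/-!
# HYP6 L3Ge: several leaves with contacts in two triples

`ViolR.exists_KGF`: the closure of the contacts of several separated critical components.
`Frm.comp_fam`: at least two leaves of the frame whose contacts lie in two triples and a nonempty set `P`
absorbed by the leaves, in the presence of a third triple: there are exactly two leaves, at most two
points in `P`, and the sum of `dv + 1` over the leaves is at most two.
-/

set_option autoImplicit false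

namespace Pool.Agent.Hyp6

open Finset Pool.Agent.Hyp5

universe u v

variable {V : Type v} [DecidableEq V] {ι : Type u} [Fintype ι] {B : ι → Finset V}
variable {Q P U : Finset V} {T : Finset ι} {F G : Finset (Finset V)} {i j : ι}

/-- the closure of the contacts of several components. -/
theorem ViolR.exists_KGF (h : ViolR B Q) (fi : (B i ∩ Q).card = 3) (fj : (B j ∩ Q).card = 3)
    (dij : Disjoint (B i ∩ Q) (B j ∩ Q)) (conni : Conn (gr B) (Q \ (B i ∩ Q)))
    (criti : Crit B (Q \ (B i ∩ Q))) (connj : Conn (gr B) (Q \ (B j ∩ Q)))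
    (critj : Crit B (Q \ (B j ∩ Q))) (hGQ : ∀ L ∈ G, L ⊆ Q) (hGc : ∀ L ∈ G, Conn (gr B) L)
    (hGcr : ∀ L ∈ G, Crit B L) (hsep : SepF B G)
    (hLi : Disjoint (G.biUnion id) (B i ∩ Q)) (hLj : Disjoint (G.biUnion id) (B j ∩ Q))
    (hPQ : P ⊆ Q) (hPi : Disjoint P (B i ∩ Q)) (hPL : Disjoint P (G.biUnion id))
    (hrho : rho B (G.biUnion id ∪ P) ≤ ∑ L ∈ G, rho B L)
    (hcon : ∀ k, (B k ∩ G.biUnion id).Nonempty →
      B k ∩ Q ⊆ G.biUnion id ∪ ((B i ∩ Q) ∪ ((B j ∩ Q) ∪ P))) :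
    ∃ Y F, KG B Q Y F i j ∧ P ⊆ Y ∧ G ⊆ F := by
  classical
  have hcov := h.cov
  have hcG : ∀ L ∈ G, Cov B L := fun L hL => hcov.mono (hGQ L hL)
  set L := G.biUnion id with hL
  have hLQ : L ⊆ Q := by
    intro v hv
    obtain ⟨M, hM, hvM⟩ := mem_biUnion.1 hv
    exact hGQ M hM hvM
  have hcL : Cov B L := hcov.mono hLQ
  have hrL : rho B L = ∑ M ∈ G, rho B M := rho_biUnion hcG hsep
  set C := Q \ (B i ∩ Q) with hC
  have hCQ : C ⊆ Q := sdiff_subset
  have hcC : Cov B C := hcov.mono hCQ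
  have hrT : rho B C + 1 = rho B Q := h.rhoT fi
  set P0 := (B j ∩ Q) ∪ P with hP0
  have hTjC : B j ∩ Q ⊆ C := fun v hv =>
    mem_sdiff.2 ⟨(mem_inter.1 hv).2, fun h3 => disjoint_left.1 dij h3 hv⟩
  have hPC : P ⊆ C := fun v hv => mem_sdiff.2 ⟨hPQ hv, fun h3 => disjoint_left.1 hPi hv h3⟩
  have hP0C : P0 ⊆ C := union_subset hTjC hPC
  have hLC : L ⊆ C := fun v hv => mem_sdiff.2 ⟨hLQ hv, fun h3 => disjoint_left.1 hLi hv h3⟩
  have hLP0 : Disjoint L P0 := by
    rw [hP0, disjoint_union_right]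
    exact ⟨hLj, hPL.symm⟩
  set R := (C \ P0) \ L with hR
  have hRC : R ⊆ C := sdiff_subset.trans sdiff_subset
  have hcR : Cov B R := hcC.mono hRC
  have hLR : Sep B L R := by
    intro k hk1 hk2
    obtain ⟨v, hv⟩ := hk2
    rw [mem_inter, hR, mem_sdiff, mem_sdiff] at hv
    obtain ⟨hvk, ⟨hvC, hvP⟩, hvL⟩ := hv
    rcases mem_union.1 (hcon k hk1 (mem_inter.2 ⟨hvk, hCQ hvC⟩)) with h1 | h1
    · exact hvL h1
    · rcases mem_union.1 h1 with h1 | h1
      · exact (mem_sdiff.1 hvC).2 h1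
      · exact hvP h1
  have hun : C \ P0 = L ∪ R := by
    rw [hR, union_sdiff_of_subset]
    intro v hv
    exact mem_sdiff.2 ⟨hLC hv, fun h3 => disjoint_left.1 hLP0 hv h3⟩
  have h1 : rho B (C \ P0) = rho B L + rho B R := by
    rw [hun, rho_add hcL hcR hLR]
  have hTj1 : rho B (B j ∩ Q) ≤ 1 := by
    refine (rho_le (T := {j}) ?_).trans (by simp)
    rw [singleton_biUnion]
    exact inter_subset_left
  have h2 : rho B C ≤ rho B (C \ P0) + 1 := by
    have k1 : C ⊆ ((L ∪ P) ∪ (B j ∩ Q)) ∪ R := by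
      intro v hv
      by_cases hvP : v ∈ P0
      · rcases mem_union.1 hvP with hvj | hvP
        · exact mem_union_left _ (mem_union_right _ hvj)
        · exact mem_union_left _ (mem_union_left _ (mem_union_right _ hvP))
      · have : v ∈ L ∪ R := by
          rw [← hun]
          exact mem_sdiff.2 ⟨hv, hvP⟩
        rcases mem_union.1 this with hvL | hvR
        · exact mem_union_left _ (mem_union_left _ (mem_union_left _ hvL))
        · exact mem_union_right _ hvR
    have c1 : Cov B (L ∪ P) := hcov.mono (union_subset hLQ hPQ)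
    have c2 : Cov B (B j ∩ Q) := hcov.mono inter_subset_right
    have k2 := rho_mono k1 ((c1.union c2).union hcR)
    have k3 := rho_union_le (c1.union c2) hcR
    have k4 := rho_union_le c1 c2
    omega
  have hTjne : (B j ∩ Q).Nonempty := card_pos.1 (by rw [fj]; norm_num)
  have h3 : rho B (C \ P0) + 1 = rho B C := by
    have k1 := criti.sdiff hcC (P := B j ∩ Q) (i := j) inter_subset_left hTjC hTjne
    have k2 : rho B (C \ P0) ≤ rho B (C \ (B j ∩ Q)) :=
      rho_mono (sdiff_subset_sdiff (Subset.refl _) subset_union_left) (hcC.mono sdiff_subset)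
    omega
  obtain ⟨X, F, hPX, hclo⟩ := exists_clo1 hcC hP0C h3
  have hXC := hclo.sub
  -- the components do not meet the closed set
  have hLX : Disjoint L X := by
    rw [disjoint_left]
    intro v hvL hvX
    have k1 : C \ X ⊆ L.erase v ∪ R := by
      intro w hw
      rw [mem_sdiff] at hw
      have hwP : w ∉ P0 := fun h4 => hw.2 (hPX h4)
      have : w ∈ L ∪ R := by
        rw [← hun]
        exact mem_sdiff.2 ⟨hw.1, hwP⟩
      rcases mem_union.1 this with hwL | hwR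
      · refine mem_union_left _ (mem_erase.2 ⟨?_, hwL⟩)
        rintro rfl
        exact hw.2 hvX
      · exact mem_union_right _ hwR
    have c1 : Cov B (L.erase v) := hcL.mono (erase_subset _ _)
    have k2 := rho_mono k1 (c1.union hcR)
    have k3 := rho_union_le c1 hcR
    have k4 : rho B (L.erase v) + 1 ≤ rho B L := by
      obtain ⟨M, hM, hvM⟩ := mem_biUnion.1 hvL
      have hvM' : v ∈ M := hvM
      have e1 : L.erase v ⊆ M.erase v ∪ (G.erase M).biUnion id := by
        intro w hw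
        rw [mem_erase] at hw
        obtain ⟨N, hN, hwN⟩ := mem_biUnion.1 hw.2
        by_cases hNM : N = M
        · subst hNM
          exact mem_union_left _ (mem_erase.2 ⟨hw.1, hwN⟩)
        · exact mem_union_right _ (mem_biUnion.2 ⟨N, mem_erase.2 ⟨hNM, hN⟩, hwN⟩)
      have c2 : Cov B (M.erase v) := (hcG M hM).mono (erase_subset _ _)
      have c3 : Cov B ((G.erase M).biUnion id) := by
        refine hcL.mono fun w hw => ?_
        obtain ⟨N, hN, hwN⟩ := mem_biUnion.1 hw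
        exact mem_biUnion.2 ⟨N, (mem_erase.1 hN).2, hwN⟩
      have e2 := rho_mono e1 (c2.union c3)
      have e3 := rho_union_le c2 c3
      have e4 := hGcr M hM v hvM'
      have e5 : rho B ((G.erase M).biUnion id) = ∑ N ∈ G.erase M, rho B N :=
        rho_biUnion (fun N hN => hcG N (mem_erase.1 hN).2) (hsep.mono (erase_subset _ _))
      have e6 := sum_erase_add G (rho B) hM
      omega
    have k5 := hclo.rhoX
    omega
  have hLCX : L ⊆ C \ X := fun v hv =>
    mem_sdiff.2 ⟨hLC hv, fun h4 => disjoint_left.1 hLX hv h4⟩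
  have hRX : ∀ v ∈ C \ X, v ∉ L → v ∈ R := by
    intro v hv hvL
    rw [mem_sdiff] at hv
    rw [hR, mem_sdiff, mem_sdiff]
    exact ⟨⟨hv.1, fun h4 => hv.2 (hPX h4)⟩, hvL⟩
  have hGF : G ⊆ F := by
    intro K hK
    have hKL : K ⊆ L := fun v hv => mem_biUnion.2 ⟨K, hK, hv⟩
    have hKcl : Closed (gr B) (C \ X) K := by
      refine closed_of_sep (hKL.trans hLCX) ?_
      intro k hk1 hk2
      obtain ⟨v, hv⟩ := hk2
      rw [mem_inter, mem_sdiff] at hv
      obtain ⟨hvk, hvC, hv1⟩ := hv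
      by_cases hv2 : v ∈ L
      · obtain ⟨M, hM, hvM⟩ := mem_biUnion.1 hv2
        have hvM' : v ∈ M := hvM
        have hKM : K ≠ M := by
          rintro rfl
          exact hv1 hvM'
        exact (hsep K hK M hM hKM).2 k hk1 ⟨v, mem_inter.2 ⟨hvk, hvM'⟩⟩
      · exact hLR k (hk1.mono (inter_subset_inter_left hKL))
          ⟨v, mem_inter.2 ⟨hvk, hRX v hvC hv2⟩⟩
    obtain ⟨v, hv⟩ := (hGc K hK).1
    have k1 : v ∈ F.biUnion id := by
      rw [hclo.un]
      exact hLCX (hKL hv)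
    obtain ⟨M, hM, hvM⟩ := mem_biUnion.1 k1
    obtain ⟨_, k2, k3⟩ := hclo.parts M hM
    rw [conn_eq hKcl k2 (hGc K hK) k3 hv hvM]
    exact hM
  have hTi : B i ∩ Q ⊆ Q := inter_subset_right
  have hQY : Q \ ((B i ∩ Q) ∪ X) = C \ X := by
    rw [hC, sdiff_sdiff_left]
    rfl
  refine ⟨(B i ∩ Q) ∪ X, F, ?_, fun v hv => mem_union_right _ (hPX (mem_union_right _ hv)), hGF⟩
  refine ⟨h, fi, fj, dij, subset_union_left,
    fun v hv => mem_union_right _ (hPX (mem_union_left _ hv)), union_subset hTi (hXC.trans hCQ),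
    ?_, hclo.sep, ?_, hclo.crit, ?_, conni, criti, connj, critj⟩
  · rw [hQY]
    exact hclo.parts
  · rw [hQY]
    exact hclo.un
  · rw [hQY]
    have := hclo.rhoX
    omega

/-- **several components with contacts in two full blocks**, from the impossibility of the instances. -/
theorem ViolR.fam_comp_of (hnoU : NoU.{u} V ι) (h : ViolR B Q) (fi : (B i ∩ Q).card = 3)
    (fj : (B j ∩ Q).card = 3)
    (dij : Disjoint (B i ∩ Q) (B j ∩ Q)) (conni : Conn (gr B) (Q \ (B i ∩ Q)))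
    (criti : Crit B (Q \ (B i ∩ Q))) (connj : Conn (gr B) (Q \ (B j ∩ Q)))
    (critj : Crit B (Q \ (B j ∩ Q))) (hGQ : ∀ L ∈ G, L ⊆ Q) (hGc : ∀ L ∈ G, Conn (gr B) L)
    (hGcr : ∀ L ∈ G, Crit B L) (hsep : SepF B G) (hGs : ∀ L ∈ G, sv B L = -1)
    (hLi : Disjoint (G.biUnion id) (B i ∩ Q)) (hLj : Disjoint (G.biUnion id) (B j ∩ Q))
    (hPQ : P ⊆ Q) (hPi : Disjoint P (B i ∩ Q)) (hPj : Disjoint P (B j ∩ Q))
    (hPL : Disjoint P (G.biUnion id)) (hPne : P.Nonempty)
    (hrho : rho B (G.biUnion id ∪ P) ≤ ∑ L ∈ G, rho B L)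
    (hcon : ∀ k, (B k ∩ G.biUnion id).Nonempty →
      B k ∩ Q ⊆ G.biUnion id ∪ ((B i ∩ Q) ∪ ((B j ∩ Q) ∪ P))) (h2 : 2 ≤ G.card)
    (hW : 3 ≤ (Q \ (G.biUnion id ∪ ((B i ∩ Q) ∪ (B j ∩ Q)))).card) :
    G.card = 2 ∧ P.card ≤ 2 ∧ ∑ L ∈ G, (dv B Q L + 1) ≤ 2 := by
  classical
  obtain ⟨Y, F, hK, hPY, hGF⟩ := h.exists_KGF fi fj dij conni criti connj critj hGQ hGc hGcr hsep
    hLi hLj hPQ hPi hPL hrho hcon
  have hGne : G.Nonempty := card_pos.1 (by omega)
  have hne : F.Nonempty := hGne.mono hGF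
  have hY8 := hK.Y8 hne
  have hfull := hK.full_lt hnoU hne
  have hsum := hK.sum_wv
  have hee := hK.ee_le
  have hw12 : ∑ L ∈ G, (dv B Q L + 1) ≤ ∑ L ∈ F, wv B Q L := by
    rw [← sum_congr rfl fun L hL => wv_neg (Q := Q) (hGs L hL)]
    exact sum_le_sum_of_subset_of_nonneg hGF fun M hM _ => wv_nn (hK.cp hM).l_ge
  have h7 : 6 + P.card ≤ Y.card := by
    have k1 : (B i ∩ Q) ∪ ((B j ∩ Q) ∪ P) ⊆ Y := union_subset hK.iY (union_subset hK.jY hPY)
    have k2 := card_le_card k1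
    have k3 : Disjoint (B i ∩ Q) ((B j ∩ Q) ∪ P) := disjoint_union_right.2 ⟨dij, hPi.symm⟩
    rw [card_union_of_disjoint k3, card_union_of_disjoint hPj.symm, fi, fj] at k2
    omega
  have hP1 := card_pos.2 hPne
  have hF2 := card_le_card hGF
  -- there is a further component
  have hlt : G.card < F.card := by
    rcases hF2.lt_or_eq with hlt | heq
    · exact hlt
    exfalso
    have hFe : G = F := eq_of_subset_of_card_le hGF (by omega)
    have hun : Q \ Y = G.biUnion id := by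
      rw [← hK.un, hFe]
    have k1 : Q \ (G.biUnion id ∪ ((B i ∩ Q) ∪ (B j ∩ Q))) ⊆ Y \ ((B i ∩ Q) ∪ (B j ∩ Q)) := by
      intro v hv
      rw [mem_sdiff, mem_union, not_or] at hv
      rw [mem_sdiff]
      refine ⟨?_, hv.2.2⟩
      by_contra hvY
      exact hv.2.1 (by rw [← hun]; exact mem_sdiff.2 ⟨hv.1, hvY⟩)
    have k2 := card_le_card k1
    have k3 := card_sdiff_add_card_eq_card (union_subset hK.iY hK.jY)
    rw [card_union_of_disjoint dij, fi, fj] at k3
    omega
  refine ⟨by omega, by omega, ?_⟩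
  have : F.card = 3 := by omega
  omega

namespace Frm

/-- **several leaves whose contacts lie in two triples and an absorbed set**. -/
theorem comp_fam (h : Frm B Q T U F) (hv : ViolR B Q) (hi : i ∈ T) (hj : j ∈ T) (hij : i ≠ j)
    {k : ι} (hk : k ∈ T) (hki : k ≠ i) (hkj : k ≠ j) (hG : G ⊆ F) (h2 : 2 ≤ G.card)
    (hPQ : P ⊆ Q) (hPi : Disjoint P (B i)) (hPj : Disjoint P (B j))
    (hPL : Disjoint P (G.biUnion id)) (hPne : P.Nonempty)
    (hrho : rho B (G.biUnion id ∪ P) ≤ ∑ L ∈ G, rho B L)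
    (hP : ∀ v ∈ Q, v ∉ B i → v ∉ B j → (∃ a, v ∈ B a ∧ (B a ∩ G.biUnion id).Nonempty) →
      v ∈ G.biUnion id ∪ P) :
    G.card = 2 ∧ P.card ≤ 2 ∧ ∑ L ∈ G, (dv B Q L + 1) ≤ 2 := by
  classical
  have fi := h.mtp.tpk.pack.card i hi
  have fj := h.mtp.tpk.pack.card j hj
  have dG : ∀ {a : ι}, a ∈ T → Disjoint (G.biUnion id) (B a ∩ Q) := by
    intro a ha
    rw [disjoint_biUnion_left]
    exact fun L hL => h.disT (hG hL) ha
  refine hv.fam_comp_of noU fi fj (h.mtp.tpk.pack.disj i hi j hj hij) (hv.lemA' fi).1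
    (hv.lemA' fi).2.1 (hv.lemA' fj).1 (hv.lemA' fj).2.1 (fun L hL => h.FQ (hG hL))
    (fun L hL => h.conn_leaf (hG hL)) (fun L hL => h.critL (hG hL)) (h.sepF.mono hG)
    (fun L hL => h.sv_leaf (hG hL)) (dG hi) (dG hj) hPQ (hPi.mono_right inter_subset_left)
    (hPj.mono_right inter_subset_left) hPL hPne hrho ?_ h2 ?_
  · intro a ha v hv'
    obtain ⟨hva, hvQ⟩ := mem_inter.1 hv'
    by_cases hvi : v ∈ B i
    · exact mem_union_right _ (mem_union_left _ (mem_inter.2 ⟨hvi, hvQ⟩))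
    by_cases hvj : v ∈ B j
    · exact mem_union_right _ (mem_union_right _ (mem_union_left _ (mem_inter.2 ⟨hvj, hvQ⟩)))
    rcases mem_union.1 (hP v hvQ hvi hvj ⟨a, hva, ha⟩) with h3 | h3
    · exact mem_union_left _ h3
    · exact mem_union_right _ (mem_union_right _ (mem_union_right _ h3))
  · rw [← h.mtp.tpk.pack.card k hk]
    apply card_le_card
    intro v hv'
    rw [mem_sdiff, mem_union, mem_union]
    refine ⟨(mem_inter.1 hv').2, fun h1 => ?_⟩
    rcases h1 with h1 | h1 | h1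
    · exact disjoint_left.1 (dG hk) h1 hv'
    · exact disjoint_left.1 (h.mtp.tpk.pack.disj k hk i hi hki) hv' h1
    · exact disjoint_left.1 (h.mtp.tpk.pack.disj k hk j hj hkj) hv' h1

end Frm

end Pool.Agent.Hyp6
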