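import Pool.Agent.Hyp6.L3S5
import Pool.Agent.Hyp6.L3Dl

/-!
# HYP6 L3Gk: the general deletion without the hypothesis that the new system is not exceptional

`Gdl.mainK`: the bound of `Gdl.main` with `-2`, for every connected new system; without loss if the
value of `Q` is large (always for one deleted point).
-/

set_option autoImplicit false

namespace Pool.Agent.Hyp6

open Finset Pool.Agent.Hyp5

universe u v

variable {V : Type v} [DecidableEq V] {ι : Type u} [Fintype ι] {κ : Type u} [Fintype κ]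
  {B : ι → Finset V}

namespace Gdl

variable {Q L X Y : Finset V} {I : Finset ι} {E : V → Finset ι} {N : κ → Finset V}

/-- **the general deletion, exceptional new systems allowed**. -/
theorem mainK (h : Gdl B Q L X Y I E N) {n : ℕ} (ih : IHE.{u} V n) (ihr : IHR.{u} V n)
    (hn : (rm Q L X Y).card + Y.card < n)
    (hconn : Conn (gr (absG B (rm Q L X Y) Y E N)) (rm Q L X Y ∪ Y)) {Y2 : Finset V} (hY2 : Y2 ⊆ Y)
    (hN2 : ∀ y ∈ Y2, 2 ≤ (univ.filter (fun c => N c = {y})).card) (hY2e : ee B Q Y2 = 0) :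
    dv B Q L + 5 * (X.card : ℤ) + 4 * (I.card : ℤ) + 2 * ((lost B Q L X Y I E).card : ℤ) +
      2 * (Y2.card : ℤ) - 4 * (Fintype.card κ : ℤ) - 2 ≤ dv B Q Q ∧
    ((X.card : ℤ) + 1 ≤ sv B Q - sv B L →
      dv B Q L + 5 * (X.card : ℤ) + 4 * (I.card : ℤ) + 2 * ((lost B Q L X Y I E).card : ℤ) +
      2 * (Y2.card : ℤ) - 4 * (Fintype.card κ : ℤ) ≤ dv B Q Q) := by
  classical
  by_cases hK : KT (absG B (rm Q L X Y) Y E N) (rm Q L X Y ∪ Y)
  swap
  · have h1 := h.main ih ihr hn hconn hK hY2 hN2 hY2e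
    exact ⟨by linarith [h1.1], fun h2 => h1.2 (by linarith)⟩
  have hw := h.wir
  have hrho := h.rho_le
  have hcm := h.cm_ge
  set C := rm Q L X Y with hC
  set B' := absG B C Y E N with hB'
  set Y1 := (Y \ Y2).filter (fun y => ∀ i, B i ∩ Q = {y} → i ∈ E y) with hY1
  set Y3 := (Y \ Y2).filter (fun y => ¬ ∀ i, B i ∩ Q = {y} → i ∈ E y) with hY3
  have hY1Y : Y1 ⊆ Y := (filter_subset _ _).trans sdiff_subset
  have hY3Y : Y3 ⊆ Y := (filter_subset _ _).trans sdiff_subset
  have hee := hw.ee_ge (Y1 := Y1) (Y2 := Y2) hY1Y hY2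
    (disjoint_left.2 fun v hv hv' => (mem_sdiff.1 (mem_filter.1 hv).1).2 hv')
    (fun y hy => (mem_filter.1 hy).2) hN2
  rw [← hB'] at hee
  have hlost := h.ee_lost (Y3 := Y3) hY3Y (fun y hy => by
    have h1 := (mem_filter.1 hy).2
    push Not at h1
    exact h1)
  have hdC : Disjoint ((L ∪ X) ∪ Y) C := disjoint_sdiff
  have hQe : ((L ∪ X) ∪ Y) ∪ C = Q :=
    union_sdiff_of_subset (union_subset (union_subset h.LQ h.XQ) h.YQ)
  have hdY : Disjoint (L ∪ X) Y := by
    rw [disjoint_union_left]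
    exact ⟨h.dLY, h.dXY⟩
  have heQ : ee B Q Q = ee B Q L + ee B Q X + ee B Q Y + ee B Q C := by
    have h1 := ee_union (B := B) (Q := Q) hdC
    rw [hQe, ee_union hdY, ee_union h.dLX] at h1
    exact h1
  have heY : ee B Q Y = ee B Q Y1 + ee B Q Y3 := by
    have h1 := ee_union (B := B) (Q := Q) (P := Y2) (P' := Y \ Y2) disjoint_sdiff
    rw [union_sdiff_of_subset hY2, hY2e, zero_add] at h1
    have h2 : Y1 ∪ Y3 = Y \ Y2 := filter_union_filter_not_eq _ _
    have h3 : Disjoint Y1 Y3 := disjoint_filter_filter_not _ _ _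
    have h4 := ee_union (B := B) (Q := Q) h3
    rw [h2] at h4
    rw [h1, h4]
  have hcard : Q.card = L.card + X.card + Y.card + C.card := by
    conv_lhs => rw [← hQe]
    rw [card_union_of_disjoint hdC, card_union_of_disjoint hdY, card_union_of_disjoint h.dLX]
  have hCY : (C ∪ Y).card = C.card + Y.card := card_union_of_disjoint hw.dis
  have hk0 := hK.ee_zero (hw.reg h.reg) (hw.tr3 h.tr)
  rw [hk0] at hee
  have hk1 := hK.1
  have hk2 := hK.2.1
  have hk3 := hK.2.2
  rw [hCY] at hk1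
  rw [hk2] at hcm
  rw [hk3] at hrho
  have hPvQ := Pv_eq (B := B) Q
  have hPvL := Pv_eq (B := B) L
  have hsvQ : sv B Q = (L.card : ℤ) + X.card + Y.card + C.card - 2 * (rho B Q : ℤ) := by
    unfold sv
    rw [hcard]
    push_cast
    ring
  have hsvL : sv B L = (L.card : ℤ) - 2 * (rho B L : ℤ) := rfl
  rw [hcard] at hPvQ
  unfold dv
  push_cast at hPvQ
  rw [hPvQ, hPvL, heQ, heY]
  push_cast
  constructor
  · omega
  · intro hX
    rw [hsvQ, hsvL] at hX
    omega

end Gdl

end Pool.Agent.Hyp6
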