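import Pool.Agent.Hyp6.L3K2

/-!
# HYP6 L3K3: the max-K frame, allowed pairs, the even part

`Ok2 B D x y`: deleting the pair lowers the cover number of `D` (allowed pair). Allowed pairs lie in no
block with three points in `D`. `crit_iff`: the critical points of `D` are the points of the leaves.
`exists_frm2`: a frame whose leaves contain as many points as possible.
-/

set_option autoImplicit false

namespace Pool.Agent.Hyp6

open Finset Pool.Agent.Hyp5

universe u v

variable {V : Type v} [DecidableEq V] {ι : Type u} {B : ι → Finset V}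

/-- deleting `x` and `y` lowers the cover number. -/
def Ok2 (B : ι → Finset V) (D : Finset V) (x y : V) : Prop :=
  rho B (D \ {x, y}) + 1 ≤ rho B D

/-- an allowed pair lies in no block with three points in `D`. -/
theorem PT.ok2 {D : Finset V} (h : PT B D) (hc : Cov B D) {x y : V} (hxy : Ok2 B D x y) {i : ι}
    (hx : x ∈ B i) (hy : y ∈ B i) : (B i ∩ D).card ≠ 3 := by
  intro hi
  have h1 := h i hi
  have h2 : rho B (D \ B i) ≤ rho B (D \ {x, y}) := by
    refine rho_mono ?_ (hc.mono sdiff_subset)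
    intro v hv
    obtain ⟨hv1, hv2⟩ := mem_sdiff.1 hv
    refine mem_sdiff.2 ⟨hv1, fun h3 => ?_⟩
    rcases mem_insert.1 h3 with rfl | h3
    · exact hv2 hx
    · rw [mem_singleton] at h3
      subst h3
      exact hv2 hy
  unfold Ok2 at hxy
  omega

/-- deleting a critical point keeps `PT`. -/
theorem PT.erase {D : Finset V} (h : PT B D) (h3 : Tr3 B D) (hc : Cov B D) {v : V}
    (hv : rho B (D.erase v) + 1 ≤ rho B D) : PT B (D.erase v) := by
  intro i hi
  have h1 : (B i ∩ D).card = 3 := by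
    have h2 := card_le_card (inter_subset_inter_left (erase_subset v D) :
      B i ∩ D.erase v ⊆ B i ∩ D)
    have h4 := h3 i
    omega
  have h5 := h i h1
  have h6 : rho B (D \ B i) ≤ rho B ((D \ B i).erase v) + 1 := rho_le_erase (hc.mono sdiff_subset)
  have h7 : (D \ B i).erase v = D.erase v \ B i := by
    ext w
    simp only [mem_sdiff, mem_erase]
    tauto
  rw [h7] at h6
  have h8 := rho_le_erase (x := v) hc
  omega

section Berge

variable {D U' : Finset V} {F' : Finset (Finset V)}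

/-- the bound of Berge for sets without optimal triples. -/
theorem berge (hc : Cov B D) (h3 : Tr3 B D) (hpt : PT B D) (hF : OddSys (gr B) (D \ U') F') :
    sv B D ≤ (U'.card : ℤ) - F'.card := by
  classical
  obtain ⟨M, hM, hpm, heq⟩ := exists_pair_cover D.card D le_rfl hc h3 hpt
  have hcM := card_sdiff_add_card_eq_card hM
  set F1 := F'.filter (fun C => Disjoint C (D \ M)) with hF1
  have hodd : OddSys (gr B) (M \ (U' ∩ M)) F1 := by
    refine ⟨fun C hC => ?_, fun C hC => hF.odd C (mem_filter.1 hC).1,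
      fun C hC C' hC' => hF.disj C (mem_filter.1 hC).1 C' (mem_filter.1 hC').1⟩
    obtain ⟨h1, h2⟩ := mem_filter.1 hC
    refine ⟨fun x hx => ?_, fun x hx y hy hxy => ?_⟩
    · have h4 := mem_sdiff.1 ((hF.closed C h1).1 hx)
      refine mem_sdiff.2 ⟨?_, fun h5 => h4.2 (mem_inter.1 h5).1⟩
      by_contra hcon
      exact disjoint_left.1 h2 hx (mem_sdiff.2 ⟨h4.1, hcon⟩)
    · obtain ⟨hy1, hy2⟩ := mem_sdiff.1 hy
      exact (hF.closed C h1).2 x hx y
        (mem_sdiff.2 ⟨hM hy1, fun h5 => hy2 (mem_inter.2 ⟨h5, hy1⟩)⟩) hxy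
  have h1 := pm_odd_le hpm hodd
  have h2 : (U' ∩ M).card ≤ U'.card := card_le_card inter_subset_left
  have hF'F : F1 ⊆ F' := filter_subset _ _
  have h4 : (F' \ F1).card ≤ (D \ M).card := by
    have hex : ∀ C ∈ F' \ F1, ∃ x ∈ C, x ∈ D \ M := by
      intro C hC
      obtain ⟨h5, h6⟩ := mem_sdiff.1 hC
      have h7 : ¬ Disjoint C (D \ M) := fun h8 => h6 (mem_filter.2 ⟨h5, h8⟩)
      rw [not_disjoint_iff] at h7
      exact h7
    rcases (F' \ F1).eq_empty_or_nonempty with h0 | ⟨C0, hC0⟩
    · rw [h0]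
      simp
    obtain ⟨x0, _⟩ := hex C0 hC0
    have : Nonempty V := ⟨x0⟩
    choose! g hg using hex
    refine card_le_card_of_injOn g (fun C hC => (hg C hC).2) ?_
    intro C hC C' hC' he
    by_contra hne
    have e1 := (hg C hC).1
    have e2 := (hg C' hC').1
    rw [← he] at e2
    exact disjoint_left.1 (hF.disj C (mem_sdiff.1 (mem_coe.1 hC)).1 C'
      (mem_sdiff.1 (mem_coe.1 hC')).1 hne) e1 e2
  have h5 := card_sdiff_add_card_eq_card hF'F
  unfold sv
  have h6 : (2 * (rho B D : ℤ)) = M.card + 2 * (D \ M).card := by exact_mod_cast heq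
  omega

end Berge

namespace Frm

variable [Fintype ι] {Q U : Finset V} {T : Finset ι} {F : Finset (Finset V)}

/-- the critical points of the rest are the points of the leaves. -/
theorem crit_iff (h : Frm B Q T U F) {v : V} (hv : v ∈ Dp B Q T) :
    rho B ((Dp B Q T).erase v) + 1 = rho B (Dp B Q T) ↔ v ∈ F.biUnion id := by
  constructor
  · intro hcr
    by_contra hvF
    have hpt := h.pt.erase h.tr3D h.covD (v := v) (by omega)
    have hsv : sv B ((Dp B Q T).erase v) = sv B (Dp B Q T) + 1 := by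
      have h2 := card_erase_add_one hv
      unfold sv
      omega
    have hcl : OddSys (gr B) ((Dp B Q T).erase v \ U.erase v) F := by
      refine ⟨fun C hC => ⟨fun x hx => ?_, fun x hx y hy hxy => ?_⟩,
        fun C hC => (h.ge.sys.fc C hC).odd, h.ge.sys.disj⟩
      · have h1 := mem_sdiff.1 ((h.ge.sys.closed C hC).1 hx)
        refine mem_sdiff.2 ⟨mem_erase.2 ⟨?_, h1.1⟩, fun h2 => h1.2 (mem_erase.1 h2).2⟩
        rintro rfl
        exact hvF (mem_biUnion.2 ⟨C, hC, hx⟩)
      · obtain ⟨h1, h2⟩ := mem_sdiff.1 hy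
        obtain ⟨h4, h5⟩ := mem_erase.1 h1
        exact (h.ge.sys.closed C hC).2 x hx y
          (mem_sdiff.2 ⟨h5, fun h6 => h2 (mem_erase.2 ⟨h4, h6⟩)⟩) hxy
    have h1 := berge (h.covD.mono (erase_subset _ _)) (h.tr3D.mono (erase_subset _ _)) hpt hcl
    have h2 := h.svD
    have h4 : (U.erase v).card ≤ U.card := card_le_card (erase_subset _ _)
    rw [hsv, h2] at h1
    have h5 : ((U.erase v).card : ℤ) ≤ U.card := by exact_mod_cast h4
    linarith
  · intro hvF
    obtain ⟨C, hC, hvC⟩ := mem_biUnion.1 hvF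
    exact h.crit_leaf hC hvC

/-- the cover number splits over the even part. -/
theorem rho_E (h : Frm B Q T U F) :
    rho B (Dp B Q T \ Ep B Q T U F) + rho B (Ep B Q T U F) = rho B (Dp B Q T) := by
  have h1 := h.svD
  have h2 := h.svE
  have h3 := card_sdiff_add_card_eq_card (ED (B := B) (Q := Q) (T := T) (U := U) (F := F))
  have h5 : rho B (Dp B Q T) ≤ rho B (Dp B Q T \ Ep B Q T U F) + rho B (Ep B Q T U F) := by
    have hED : Ep B Q T U F ⊆ Dp B Q T := ED
    have h6 := rho_union_le (B := B) (h.covD.mono (sdiff_subset (s := Dp B Q T)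
      (t := Ep B Q T U F))) (h.covD.mono hED)
    rwa [sdiff_union_of_subset hED] at h6
  rcases (Dp B Q T).eq_empty_or_nonempty with h0 | ⟨v0, _⟩
  · have hE : Ep B Q T U F = ∅ := subset_empty.1 (h0 ▸ ED)
    rw [hE]
    simp
  have : Nonempty V := ⟨v0⟩
  obtain ⟨F1, φ, hF1, hcard, hφ, hinj, him⟩ := exists_match h.ge.weak
  have hset : U ∪ F.biUnion id ∪ ∅ = Dp B Q T \ Ep B Q T U F := by
    have hq := h.ge.set_eq
    have hd : Disjoint (U ∪ F.biUnion id) (Ep B Q T U F) := by
      rw [disjoint_union_left]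
      refine ⟨?_, disE⟩
      rw [disjoint_left]
      intro v hv hv'
      exact (mem_sdiff.1 (mem_sdiff.1 hv').1).2 hv
    have hq' : U ∪ F.biUnion id ∪ Ep B Q T U F = Dp B Q T := hq
    rw [union_empty, ← hq', union_sdiff_cancel_right hd]
  have h7 := sv_ge_of_assignment (B := B) (A := U) (R := ∅) (F := F)
    (F1 := F1) (F2 := F \ F1) (F3 := ∅) (φ := φ)
    (by rw [hset]; exact h.covD.mono sdiff_subset) h.ge.sys.fc h.ge.sys.disj
    h.ge.FU (fun C _ => disjoint_empty_right _) (disjoint_empty_right _)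
    (by rw [union_empty, union_sdiff_of_subset hF1]) disjoint_sdiff (disjoint_empty_right _)
    (disjoint_empty_right _) hφ hinj him (by simp)
  rw [hset, card_empty, sv_empty] at h7
  have h8 := card_sdiff_add_card_eq_card hF1
  unfold sv at h1 h2 h7
  push_cast at h7
  omega

/-- a pair of the even part lying in a perfect matching of the even part is allowed. -/
theorem ok2_E (h : Frm B Q T U F) {x y : V} (hx : x ∈ Ep B Q T U F) (hy : y ∈ Ep B Q T U F)
    (hxy : x ≠ y) (hpm : PM (gr B) (Ep B Q T U F \ {x, y})) : Ok2 B (Dp B Q T) x y := by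
  have hsub : ({x, y} : Finset V) ⊆ Ep B Q T U F := by
    intro v hv
    rcases mem_insert.1 hv with rfl | hv
    · exact hx
    · rw [mem_singleton] at hv
      rw [hv]
      exact hy
  have h1 : Dp B Q T \ {x, y} ⊆ (Dp B Q T \ Ep B Q T U F) ∪ (Ep B Q T U F \ {x, y}) := by
    intro v hv
    obtain ⟨h1, h2⟩ := mem_sdiff.1 hv
    by_cases h3 : v ∈ Ep B Q T U F
    · exact mem_union_right _ (mem_sdiff.2 ⟨h3, h2⟩)
    · exact mem_union_left _ (mem_sdiff.2 ⟨h1, h3⟩)
  have hc1 : Cov B (Dp B Q T \ Ep B Q T U F) := h.covD.mono sdiff_subset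
  have hc2 : Cov B (Ep B Q T U F \ {x, y}) := (h.covD.mono ED).mono sdiff_subset
  have h2 := (rho_mono h1 (hc1.union hc2)).trans (rho_union_le hc1 hc2)
  have h3 := h.rho_E
  have h4 := pm_sv_nonneg hpm
  have h5 := card_sdiff_add_card_eq_card hsub
  rw [card_pair hxy] at h5
  have h6 := h.svE
  unfold Ok2
  unfold sv at h4 h6
  omega

/-- an allowed pair of the even part lies in no block with three points in `D`. -/
theorem allowed_two (h : Frm B Q T U F) {x y : V} (hx : x ∈ Ep B Q T U F)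
    (hy : y ∈ Ep B Q T U F) (hxy : x ≠ y) (hpm : PM (gr B) (Ep B Q T U F \ {x, y})) {i : ι}
    (hix : x ∈ B i) (hiy : y ∈ B i) : (B i ∩ Dp B Q T).card = 2 := by
  have h1 := h.pt.ok2 h.covD (h.ok2_E hx hy hxy hpm) hix hiy
  have h2 := h.tr3D i
  have h3 : ({x, y} : Finset V) ⊆ B i ∩ Dp B Q T := by
    intro v hv
    rcases mem_insert.1 hv with rfl | hv
    · exact mem_inter.2 ⟨hix, ED hx⟩
    · rw [mem_singleton] at hv
      rw [hv]
      exact mem_inter.2 ⟨hiy, ED hy⟩
  have h4 := card_le_card h3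
  rw [card_pair hxy] at h4
  omega

end Frm

section Second

variable [Fintype ι]

open Classical in
/-- the number of critical points of the rest. -/
noncomputable def ncr (B : ι → Finset V) (Q : Finset V) (T : Finset ι) : ℕ :=
  ((Dp B Q T).filter (fun v => rho B ((Dp B Q T).erase v) + 1 = rho B (Dp B Q T))).card

/-- a maximal packing with the largest number of critical points in the rest. -/
structure MTC (B : ι → Finset V) (Q : Finset V) (T : Finset ι) : Prop where
  mtp : MTP B Q T
  top : ∀ T', MTP B Q T' → ncr B Q T' ≤ ncr B Q T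

theorem exists_MTC (B : ι → Finset V) (Q : Finset V) : ∃ T, MTC B Q T := by
  classical
  obtain ⟨T0, hT0⟩ := exists_MTP B Q
  obtain ⟨T, hT, hmax⟩ := Finset.exists_max_image
    ((univ : Finset (Finset ι)).filter (fun T => MTP B Q T)) (ncr B Q)
    ⟨T0, mem_filter.2 ⟨mem_univ _, hT0⟩⟩
  exact ⟨T, (mem_filter.1 hT).2, fun T' hT' => hmax T' (mem_filter.2 ⟨mem_univ _, hT'⟩)⟩

theorem exists_frm2 {Q : Finset V} (hc : Cov B Q) (h3 : Tr3 B Q) :
    ∃ (T : Finset ι) (U : Finset V) (F : Finset (Finset V)), Frm B Q T U F ∧ MTC B Q T := by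
  obtain ⟨T, hT⟩ := exists_MTC B Q
  obtain ⟨U, F, hF⟩ := exists_GE (gr B) (Q \ T.biUnion B)
  exact ⟨T, U, F, ⟨h3, hc, hT.mtp, hF⟩, hT⟩

theorem Frm.ncr_eq {Q U : Finset V} {T : Finset ι} {F : Finset (Finset V)}
    (h : Frm B Q T U F) : ncr B Q T = (F.biUnion id).card := by
  classical
  unfold ncr
  congr 1
  ext v
  rw [mem_filter]
  constructor
  · rintro ⟨h1, h2⟩
    exact (h.crit_iff h1).1 h2
  · intro h1
    obtain ⟨C, hC, hvC⟩ := mem_biUnion.1 h1
    exact ⟨h.FD hC hvC, (h.crit_iff (h.FD hC hvC)).2 h1⟩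

end Second

end Pool.Agent.Hyp6
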