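import Pool.Agent.Hyp6.L3LA
import Pool.Agent.Hyp6.L3Cap
import Pool.Agent.Hyp6.L3K3

/-!
# HYP6 L3MB: the two full blocks of a minimal counterexample with value zero
-/

set_option autoImplicit false

namespace Pool.Agent.Hyp6

open Finset Pool.Agent.Hyp5

universe u v

variable {V : Type v} [DecidableEq V] {ι : Type u} [Fintype ι] {B : ι → Finset V}
variable {Q C X : Finset V} {F : Finset (Finset V)} {i0 : ι}

/-- a critical set without full blocks has negative value. -/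
theorem sv_neg_of_small (hc : Cov B Q) (hcr : Crit B Q) (hne : Q.Nonempty)
    (h2 : ∀ i, (B i ∩ Q).card ≤ 2) : sv B Q ≤ -1 := by
  have h3 : Tr3 B Q := fun i => (h2 i).trans (by norm_num)
  obtain ⟨T, U, F, hf⟩ := exists_frm hc h3
  have hT : T = ∅ := by
    rw [eq_empty_iff_forall_notMem]
    intro t ht
    have h1 := hf.mtp.tpk.pack.1 t ht
    have := h2 t
    omega
  subst hT
  have hD : Dp B Q ∅ = Q := by
    unfold Dp
    rw [biUnion_empty, sdiff_empty]
  have hall : ∀ v ∈ Q, v ∈ F.biUnion id := by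
    intro v hv
    rw [← hf.crit_iff (by rw [hD]; exact hv), hD]
    exact hcr v hv
  have hU : U = ∅ := by
    rw [eq_empty_iff_forall_notMem]
    intro u hu
    have h4 : u ∈ Q := by
      have := hf.UD hu
      rwa [hD] at this
    obtain ⟨C, hC, huC⟩ := mem_biUnion.1 (hall u h4)
    exact disjoint_left.1 (hf.ge.FU C hC) huC hu
  have h4 := hf.svD
  rw [hD, hU, card_empty] at h4
  obtain ⟨v, hv⟩ := hne
  obtain ⟨C, hC, _⟩ := mem_biUnion.1 (hall v hv)
  have h5 : 0 < F.card := card_pos.2 ⟨C, hC⟩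
  have h6 : (1 : ℤ) ≤ F.card := by exact_mod_cast h5
  rw [h4]
  push_cast
  linarith

theorem Viol.exists_full (h : Viol B Q) : ∃ i, (B i ∩ Q).card = 3 := by
  by_contra hcon
  push Not at hcon
  have h2 : ∀ i, (B i ∩ Q).card ≤ 2 := by
    intro i
    have := hcon i
    have := h.tr i
    omega
  have h1 := sv_neg_of_small h.cov h.crit h.conn.1 h2
  have := h.sv0
  omega

/-- the points with two single traces leave four free places each. -/
theorem four_ee_le_fs0 (h3 : Tr3 B Q) (hC : C ⊆ Q) : 4 * (ee B Q C : ℤ) ≤ fs B Q C := by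
  classical
  have h1 := two_ee_le (B := B) Q C
  have h2 : (ins B Q C).filter (fun i => (B i ∩ Q).card = 1) ⊆ tch B C := by
    intro i hi
    rw [mem_filter, mem_ins] at hi
    rw [cost_mem_tch]
    obtain ⟨v, hv⟩ := hi.1.1
    exact ⟨v, mem_inter.2 ⟨(mem_inter.1 hv).1, hi.1.2 hv⟩⟩
  have h4 : ∑ i ∈ (ins B Q C).filter (fun i => (B i ∩ Q).card = 1), (2 : ℤ) ≤ fs B Q C := by
    unfold fs
    refine le_trans (sum_le_sum fun i hi => ?_) (sum_le_sum_of_subset_of_nonneg h2 fun i _ _ => ?_)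
    · have := (mem_filter.1 hi).2
      rw [this]
      norm_num
    · have := h3 i
      omega
  rw [sum_const, nsmul_eq_mul] at h4
  have h5 : (2 * (ee B Q C : ℤ)) ≤
      (((ins B Q C).filter (fun i => (B i ∩ Q).card = 1)).card : ℤ) := by exact_mod_cast h1
  linarith

/-- the hits of a full block on the rest. -/
theorem hit_eq_Ez (Y C : Finset V) : hit B Y C = ∑ y ∈ Y, (Ez B C y).card := hit_eq Y C

/-- **a second full block** in a minimal counterexample with value zero. -/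
theorem Viol.second (h : Viol B Q) (hs : sv B Q = 0) {i : ι} (hi : (B i ∩ Q).card = 3) :
    ∃ j, (B j ∩ (Q \ (B i ∩ Q))).card = 3 := by
  classical
  by_contra hcon
  push Not at hcon
  obtain ⟨hconn, hcrit, hrho, -, hsv, hcase⟩ := h.lemA hi
  set Y := B i ∩ Q with hY
  set C := Q \ Y with hC
  have hYQ : Y ⊆ Q := inter_subset_right
  have hCQ : C ⊆ Q := sdiff_subset
  have h2 : ∀ j, (B j ∩ C).card ≤ 2 := by
    intro j
    have := hcon j
    have := (h.tr.mono hCQ) j
    omega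
  have hrC : Reg B C := h.reg.mono hCQ
  have hdis : Disjoint C Y := sdiff_disjoint
  have hCY : C ∪ Y = Q := sdiff_union_of_subset hYQ
  have hsC : sv B C = -1 := by rw [hsv, hs]; norm_num
  have e1 := five_Pp_leaf hrC h2 hsC
  have e2 := hit_add_fs hrC hdis
  rw [hCY] at e2
  have e3 := four_ee_le_fs0 h.tr hCQ
  have e4 := cm_eq3 (B := B) (W := C) (fun j => (h2 j).trans (by norm_num))
  have e5 := inc_eq3 hrC (fun j => (h2 j).trans (by norm_num))
  have e6 := nt3_zero h2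
  have e7 := hit_eq_Ez (B := B) Y C
  have e8 := cm_sdiff (B := B) Q Y
  have e9 := card_sdiff_add_card_eq_card hYQ
  have e10 := Pv_eq_Pp (B := B) C
  have hdv : dv B Q C = Pv B C - 2 * (ee B Q C : ℤ) := rfl
  have hhc : hc B C = 3 * (cm B C : ℤ) - 5 * (C.card : ℤ) := rfl
  have hev := Pp_even (B := B) C
  have hsc' : sv B C = (C.card : ℤ) - 2 * rho B C := rfl
  have hneg := h.neg
  rw [e6] at e4 e5
  rw [← hC] at e8 e9
  rw [hi] at e9
  rw [hsC] at e10 hsc'
  rcases hcase with ⟨hn, hd, hrow⟩ | ⟨hn, hv, hd, hrow⟩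
  · have f1 : hit B Y C = 12 := by
      rw [e7, sum_congr rfl hrow, sum_const, hi]
      rfl
    rw [f1] at e2
    push_cast at e2
    have hnn : (0 : ℤ) ≤ nt B C 1 := by positivity
    have hb : (ee B Q C : ℤ) = 0 := by
      have hb1 : (ee B Q C : ℤ) < 1 := by linarith
      omega
    have hP1 : (3 : ℤ) < Pp B C := by linarith
    have hP2 : Pp B C ≤ 4 := by linarith
    have hP : Pp B C = 4 := by omega
    have hf1 : fs B Q C < 1 := by linarith
    have hf : fs B Q C = 0 := by omega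
    have g1 : (ee B Q C : ℤ) = 0 ∧ nt B C 1 = 3 ∧ C.card = 3 ∧ cm B C = 9 ∧ rho B C = 2 := by
      omega
    refine h.nkt ⟨?_, ?_, ?_⟩
    · have := g1.2.2.1
      omega
    · rw [e8, hn]
      have := g1.2.2.2.1
      omega
    · have := g1.2.2.2.2
      omega
  · have f0 : ∑ z ∈ Y, ((ins B Q Y).filter (fun j => z ∈ B j)).card ≤ 6 := by
      have g1 : ∑ z ∈ Y, ((ins B Q Y).filter (fun j => z ∈ B j)).card =
          ∑ j ∈ ins B Q Y, (Y.filter (fun z => z ∈ B j)).card :=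
        sum_card_bipartiteAbove_eq_sum_card_bipartiteBelow (fun z j => z ∈ B j)
      rw [g1]
      have g2 : ∑ j ∈ ins B Q Y, (Y.filter (fun z => z ∈ B j)).card ≤ ∑ j ∈ ins B Q Y, 3 := by
        refine sum_le_sum fun j _ => ?_
        have := card_filter_le Y (fun z => z ∈ B j)
        omega
      rw [sum_const, hn] at g2
      simpa using g2
    have f1 : 9 ≤ hit B Y C := by
      have g1 : ∑ z ∈ Y, ((Ez B C z).card + ((ins B Q Y).filter (fun j => z ∈ B j)).card) =
          ∑ z ∈ Y, 5 := sum_congr rfl hrow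
      rw [sum_add_distrib, sum_const, hi, ← e7] at g1
      simp only [smul_eq_mul] at g1
      omega
    have f2 : (9 : ℤ) ≤ hit B Y C := by exact_mod_cast f1
    have hnn : (0 : ℤ) ≤ nt B C 1 := by positivity
    have hb : (ee B Q C : ℤ) = 0 := by
      have hb1 : (ee B Q C : ℤ) < 1 := by linarith
      omega
    have g1 : (ee B Q C : ℤ) = 0 ∧ nt B C 1 = 1 ∧ C.card = 3 ∧ cm B C = 8 ∧ rho B C = 2 := by
      omega
    refine h.nkt ⟨?_, ?_, ?_⟩
    · have := g1.2.2.1
      omega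
    · rw [e8, hn]
      have := g1.2.2.2.1
      omega
    · have := g1.2.2.2.2
      omega

/-- the structure of a minimal counterexample with value zero: two full blocks `i`, `j`, the rest `C` of
the first one and the closure `X` of the second one in `C`, with the components `F`. -/
structure MB0 (B : ι → Finset V) (Q C X : Finset V) (F : Finset (Finset V)) (i j : ι) : Prop
    extends Viol B Q where
  sz : sv B Q = 0
  fi : (B i ∩ Q).card = 3
  fj : (B j ∩ Q).card = 3
  defC : C = Q \ (B i ∩ Q)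
  jC : B j ∩ Q ⊆ C
  jX : B j ∩ Q ⊆ X
  clo : Clo B C X F

theorem Viol.exists_MB0 (h : Viol B Q) (hs : sv B Q = 0) {i : ι} (hi : (B i ∩ Q).card = 3) :
    ∃ C X F j, MB0 B Q C X F i j := by
  obtain ⟨j, hj⟩ := h.second hs hi
  obtain ⟨_, hcrit, -⟩ := h.lemA hi
  have hCQ : Q \ (B i ∩ Q) ⊆ Q := sdiff_subset
  have h1 : B j ∩ (Q \ (B i ∩ Q)) ⊆ B j ∩ Q := inter_subset_inter_left hCQ
  have h2 : B j ∩ (Q \ (B i ∩ Q)) = B j ∩ Q := eq_of_subset_of_card_le h1 (by
    have := h.tr j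
    omega)
  obtain ⟨X, F, hP, hC⟩ := exists_clo hcrit (h.cov.mono hCQ)
    (P := B j ∩ (Q \ (B i ∩ Q))) inter_subset_left inter_subset_right (card_pos.1 (by omega))
  refine ⟨_, X, F, j, h, hs, hi, by rw [← h2, hj], rfl, ?_, ?_, hC⟩
  · rw [← h2]
    exact inter_subset_right
  · rw [← h2]
    exact hP

section MB0

variable {i j : ι}

theorem MB0.CQ (h : MB0 B Q C X F i j) : C ⊆ Q := by
  rw [h.defC]
  exact sdiff_subset

theorem MB0.connC (h : MB0 B Q C X F i j) : Conn (gr B) C := by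
  rw [h.defC]
  exact (h.lemA h.fi).1

theorem MB0.critC (h : MB0 B Q C X F i j) : Crit B C := by
  rw [h.defC]
  exact (h.lemA h.fi).2.1

theorem MB0.rhoC (h : MB0 B Q C X F i j) : rho B C + 1 = rho B Q := by
  rw [h.defC]
  exact (h.lemA h.fi).2.2.1

theorem MB0.svC (h : MB0 B Q C X F i j) : sv B C = -1 := by
  rw [h.defC, (h.lemA h.fi).2.2.2.2.1, h.sz]
  norm_num

theorem MB0.cov (h : MB0 B Q C X F i j) : Cov B Q := cov_of_reg h.reg

theorem MB0.covC (h : MB0 B Q C X F i j) : Cov B C := h.cov.mono h.CQ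

theorem MB0.X3 (h : MB0 B Q C X F i j) : 3 ≤ X.card := by
  rw [← h.fj]
  exact card_le_card h.jX

theorem MB0.Xne (h : MB0 B Q C X F i j) : X.Nonempty := card_pos.1 (by have := h.X3; omega)

theorem MB0.cardF (h : MB0 B Q C X F i j) : F.card + 1 = X.card ∧ ∀ L ∈ F, sv B L = -1 :=
  h.clo.card_eq h.critC h.covC h.connC h.svC h.Xne

theorem MB0.cp (h : MB0 B Q C X F i j) {L : Finset V} (hL : L ∈ F) : Cp3 B Q L := by
  refine ⟨h.ih, h.reg, h.tr, h.conn, (h.clo.subC hL).trans h.CQ, (h.clo.parts L hL).2.2, ?_⟩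
  have h1 := card_le_card (h.clo.subC hL)
  have h2 := card_sdiff_add_card_eq_card (inter_subset_right : B i ∩ Q ⊆ Q)
  rw [← h.defC, h.fi] at h2
  omega

/-- the cover number: no cover with one block more than the optimal covers of the components. -/
theorem MB0.rhoQ (h : MB0 B Q C X F i j) : rho B Q = ∑ L ∈ F, rho B L + 2 := by
  have h1 := h.rhoC
  have h2 := h.clo.rhoX
  have h3 := h.clo.sum_rho h.covC
  omega

/-- a block and absorbed sets do not cover the two full blocks and the closure. -/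
theorem MB0.no_cover (h : MB0 B Q C X F i j) (k : ι) (f : Finset V → Finset V)
    (hf : ∀ L ∈ F, Abz B L (f L)) : ¬ (B i ∩ Q) ∪ X ⊆ B k ∪ F.biUnion f := by
  classical
  intro hsub
  choose! T hT1 hT2 using hf
  have h1 : Q ⊆ (insert k (F.biUnion T)).biUnion B := by
    intro v hv
    have hmem : v ∈ B k ∪ F.biUnion f → v ∈ (insert k (F.biUnion T)).biUnion B := by
      intro hv
      rcases mem_union.1 hv with h2 | h2
      · exact mem_biUnion.2 ⟨k, mem_insert_self _ _, h2⟩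
      · obtain ⟨L, hL, hvL⟩ := mem_biUnion.1 h2
        obtain ⟨t, ht, hvt⟩ := mem_biUnion.1 (hT1 L hL (mem_union_right _ hvL))
        exact mem_biUnion.2 ⟨t, mem_insert_of_mem (mem_biUnion.2 ⟨L, hL, ht⟩), hvt⟩
    by_cases hvi : v ∈ B i ∩ Q
    · exact hmem (hsub (mem_union_left _ hvi))
    by_cases hvX : v ∈ X
    · exact hmem (hsub (mem_union_right _ hvX))
    have h3 : v ∈ F.biUnion id := by
      rw [h.clo.un, mem_sdiff, h.defC, mem_sdiff]
      exact ⟨⟨hv, hvi⟩, hvX⟩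
    obtain ⟨L, hL, hvL⟩ := mem_biUnion.1 h3
    obtain ⟨t, ht, hvt⟩ := mem_biUnion.1 (hT1 L hL (mem_union_left _ hvL))
    exact mem_biUnion.2 ⟨t, mem_insert_of_mem (mem_biUnion.2 ⟨L, hL, ht⟩), hvt⟩
  have h2 := Hyp6.rho_le h1
  have h3 := card_insert_le k (F.biUnion T)
  have h4 : (F.biUnion T).card ≤ ∑ L ∈ F, (T L).card := card_biUnion_le
  have h5 : ∑ L ∈ F, (T L).card ≤ ∑ L ∈ F, rho B L := sum_le_sum fun L hL => hT2 L hL
  have h6 := h.rhoQ
  omega

theorem MB0.j_ins (h : MB0 B Q C X F i j) : j ∈ ins B C X := by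
  have h1 : B j ∩ C ⊆ B j ∩ Q := inter_subset_inter_left h.CQ
  rw [mem_ins]
  refine ⟨?_, h1.trans h.jX⟩
  obtain ⟨v, hv⟩ := card_pos.1 (by rw [h.fj]; norm_num : 0 < (B j ∩ Q).card)
  exact ⟨v, mem_inter.2 ⟨(mem_inter.1 hv).1, h.jC hv⟩⟩

theorem MB0.ee_X (h : MB0 B Q C X F i j) : 2 * ee B Q X + 1 ≤ (ins B C X).card := by
  classical
  have h1 := two_ee_le (B := B) Q X
  have hXC : X ⊆ C := h.clo.sub
  have h2 : (ins B Q X).filter (fun k => (B k ∩ Q).card = 1) ⊆ (ins B C X).erase j := by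
    intro k hk
    rw [mem_filter, mem_ins] at hk
    obtain ⟨⟨⟨v, hv⟩, hsub⟩, hc⟩ := hk
    refine mem_erase.2 ⟨?_, mem_ins.2 ⟨⟨v, mem_inter.2 ⟨(mem_inter.1 hv).1, hXC (hsub hv)⟩⟩,
      (inter_subset_inter_left h.CQ).trans hsub⟩⟩
    rintro rfl
    rw [h.fj] at hc
    omega
  have h3 := card_le_card h2
  have h4 := card_erase_add_one h.j_ins
  omega

/-- the exact sum of the values. -/
theorem MB0.sum_dv (h : MB0 B Q C X F i j) : ∑ L ∈ F, dv B Q L =
    dv B Q C + 2 * (ee B Q X : ℤ) + 24 - 5 * (X.card : ℤ) - 4 * ((ins B C X).card : ℤ) := by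
  have h1 := h.clo.sum_Pv h.covC
  have h2 : ee B Q C = ∑ L ∈ F, ee B Q L + ee B Q X := by
    rw [← ee_biUnion h.clo.sep, h.clo.un, ← ee_union sdiff_disjoint,
      sdiff_union_of_subset h.clo.sub]
  have h3 : ∑ L ∈ F, dv B Q L = ∑ L ∈ F, Pv B L - 2 * ∑ L ∈ F, (ee B Q L : ℤ) := by
    unfold dv
    rw [sum_sub_distrib, ← mul_sum]
  have c1 : (ee B Q C : ℤ) = ∑ L ∈ F, (ee B Q L : ℤ) + ee B Q X := by
    rw [h2]
    push_cast
    ring
  rw [h3, h1]
  unfold dv
  linarith

/-- the two cases of the first full block. -/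
theorem MB0.dvC (h : MB0 B Q C X F i j) :
    ((ins B Q (B i ∩ Q)).card = 1 ∧ dv B Q C = dv B Q Q + 5 ∧
      ∀ z ∈ B i ∩ Q, (Ez B C z).card = 4) ∨
     ((ins B Q (B i ∩ Q)).card = 2 ∧ dv B Q Q = -2 ∧ dv B Q C = -1 ∧
      ∀ z ∈ B i ∩ Q, (Ez B C z).card +
        ((ins B Q (B i ∩ Q)).filter (fun j => z ∈ B j)).card = 5) := by
  rw [h.defC]
  exact (h.lemA h.fi).2.2.2.2.2

/-- the possible numbers: with `n = |X| - 3` and `m` blocks of `C` inside `X`, `4 n + 3 m <= 13`, and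
`4 n + 3 m <= 9` if there is a second block inside the first full block. -/
theorem MB0.bound (h : MB0 B Q C X F i j) :
    4 * X.card + 3 * (ins B C X).card ≤ 25 ∧
    ((ins B Q (B i ∩ Q)).card = 2 → 4 * X.card + 3 * (ins B C X).card ≤ 21) := by
  have h1 := h.sum_dv
  have h2 := h.ee_X
  have h3 := h.cardF.1
  have h5 := h.neg
  have h6 : ∑ L ∈ F, (-1 : ℤ) ≤ ∑ L ∈ F, dv B Q L := sum_le_sum fun L hL => (h.cp hL).d_ge
  rw [sum_const, nsmul_eq_mul] at h6
  rcases h.dvC with ⟨g1, g2, -⟩ | ⟨g1, g2, g3, -⟩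
  · constructor
    · omega
    · omega
  · constructor
    · omega
    · omega

/-- with `n = |X| - 3` there are `n + 2` components, and `n <= 2`. -/
theorem MB0.shape (h : MB0 B Q C X F i j) : (X.card = 3 ∧ F.card = 2) ∨
    (X.card = 4 ∧ F.card = 3) ∨ (X.card = 5 ∧ F.card = 4) := by
  have h1 := h.bound.1
  have h2 := h.cardF.1
  have h3 := h.X3
  have h4 := card_pos.2 ⟨j, h.j_ins⟩
  omega

end MB0

end Pool.Agent.Hyp6
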