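import Pool.Agent.Hyp6.L3Z

/-!
# HYP6 L3T: the components around a trace of three points, level 3

For a counterexample `Ct3 B Q Z F i0`: `F = {C}`, or `F = {C, D}` of a short list of types.
-/

set_option autoImplicit false

namespace Pool.Agent.Hyp6

open Finset Pool.Agent.Hyp5

universe u v

variable {V : Type v} [DecidableEq V] {ι : Type u} [Fintype ι] {B : ι → Finset V}
variable {Q C Z : Finset V} {F : Finset (Finset V)} {i0 : ι}

/-- two points with four and two hits. -/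
theorem Cp3.pt2c (h : Cp3 B Q C) (hd : dv B Q C ≤ 2) {z1 z2 : V} (h1Q : z1 ∈ Q) (h1 : z1 ∉ C)
    (h2Q : z2 ∈ Q) (h2 : z2 ∉ C) (h12 : z1 ≠ z2) (hE1 : 4 ≤ (Ez B C z1).card)
    (hE2 : 2 ≤ (Ez B C z2).card) : Abz B C {z1, z2} := by
  classical
  obtain ⟨S1, hS1, hc1⟩ := exists_subset_card_eq hE1
  obtain ⟨S2, hS2, hc2⟩ := exists_subset_card_eq hE2
  obtain ⟨E, hi1, hi2⟩ : ∃ E : V → Finset ι, E z1 = S1 ∧ E z2 = S2 :=
    ⟨fun y => if y = z1 then S1 else S2, if_pos rfl, if_neg (fun h => h12 h.symm)⟩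
  have hor : ∀ y ∈ ({z1, z2} : Finset V), y = z1 ∨ y = z2 := fun y hy => by simpa using hy
  refine h.gen (Y := {z1, z2}) (E := E) (κ := Fin 3)
    (N := fun c => if c = 0 then {z1, z2} else {z2}) (Y2 := {z2})
    ?_ ?_ ?_ ?_ ?_ ?_ ?_ ?_ ⟨1, ?_⟩ ?_ ?_ ?_ ?_
  · intro y hy
    rcases hor y hy with rfl | rfl
    · exact h1Q
    · exact h2Q
  · rw [disjoint_right]
    intro y hy
    rcases hor y hy with rfl | rfl
    · exact h1
    · exact h2
  · intro y hy
    rcases hor y hy with rfl | rfl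
    · rw [hi1]
      exact hS1
    · rw [hi2]
      exact hS2
  · intro y hy
    rcases hor y hy with rfl | rfl
    · rw [hi1, ← card_pos, hc1]
      norm_num
    · rw [hi2, ← card_pos, hc2]
      norm_num
  · intro c
    split_ifs
    · exact Subset.refl _
    · exact subset_insert _ _
  · intro c
    split_ifs
    · exact insert_nonempty _ _
    · exact singleton_nonempty _
  · intro c
    split_ifs
    · exact card_le_two.trans (by norm_num)
    · simp
  · intro y hy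
    have h5 : (univ.filter (fun c : Fin 3 =>
        y ∈ (if c = 0 then ({z1, z2} : Finset V) else {z2}))).card =
        (if y ∈ ({z1, z2} : Finset V) then 1 else 0) +
          (if y ∈ ({z2} : Finset V) then 1 else 0) + (if y ∈ ({z2} : Finset V) then 1 else 0) := by
      rw [card_filter, Fin.sum_univ_three]
      simp
    rw [h5]
    rcases hor y hy with rfl | rfl
    · rw [hi1, hc1, if_pos (by simp), if_neg (by simp [h12])]
    · rw [hi2, hc2, if_pos (by simp), if_pos (by simp)]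
  · rw [if_neg (by norm_num)]
    simp
  · rw [card_pair h12]
    have := h.card
    omega
  · exact subset_insert _ _
  · intro y hy
    rw [mem_singleton.1 hy]
    have h6 : ({1, 2} : Finset (Fin 3)) ⊆ univ.filter (fun c : Fin 3 =>
        (if c = 0 then ({z1, z2} : Finset V) else {z2}) = {z2}) := by
      intro c hc
      rw [mem_filter]
      refine ⟨mem_univ _, ?_⟩
      rw [if_neg]
      rintro rfl
      simp at hc
    have h7 := card_le_card h6
    have h8 : ({1, 2} : Finset (Fin 3)).card = 2 := by decide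
    omega
  · rw [card_pair h12, Fintype.card_fin, card_singleton]
    push_cast
    linarith

theorem Ct3.final (h : Ct3 B Q Z F i0) (f : Finset V → Finset V) (hf : ∀ C ∈ F, Abz B C (f C))
    (hZ : Z ⊆ F.biUnion f) : False := h.not_JA_Z (JA_of f hf hZ)

theorem Ct3.assign3 (h : Ct3 B Q Z F i0) {I J K : Finset V} (hF : F = {I, J, K}) (hIJ : I ≠ J)
    (hIK : I ≠ K) (hJK : J ≠ K) {SI SJ SK : Finset V} (hI : Abz B I SI) (hJ : Abz B J SJ)
    (hK : Abz B K SK) (hZ : ∀ z ∈ Z, z ∈ SI ∨ z ∈ SJ ∨ z ∈ SK) : False := by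
  classical
  obtain ⟨f, h1, h2, h3⟩ : ∃ f : Finset V → Finset V, f I = SI ∧ f J = SJ ∧ f K = SK :=
    ⟨fun C => if C = I then SI else if C = J then SJ else SK, if_pos rfl, by simp [hIJ.symm],
      by simp [hIK.symm, hJK.symm]⟩
  refine h.final f ?_ ?_
  · intro C hC
    rw [hF, mem_insert, mem_insert, mem_singleton] at hC
    rcases hC with rfl | rfl | rfl
    · rw [h1]
      exact hI
    · rw [h2]
      exact hJ
    · rw [h3]
      exact hK
  · intro z hz
    rw [mem_biUnion, hF]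
    rcases hZ z hz with h4 | h4 | h4
    · exact ⟨I, by simp, by rw [h1]; exact h4⟩
    · exact ⟨J, by simp, by rw [h2]; exact h4⟩
    · exact ⟨K, by simp, by rw [h3]; exact h4⟩

theorem Ct3.assign2 (h : Ct3 B Q Z F i0) {I J : Finset V} (hF : F = {I, J}) (hIJ : I ≠ J)
    {SI SJ : Finset V} (hI : Abz B I SI) (hJ : Abz B J SJ)
    (hZ : ∀ z ∈ Z, z ∈ SI ∨ z ∈ SJ) : False := by
  classical
  obtain ⟨f, h1, h2⟩ : ∃ f : Finset V → Finset V, f I = SI ∧ f J = SJ :=
    ⟨fun C => if C = I then SI else SJ, if_pos rfl, by simp [hIJ.symm]⟩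
  refine h.final f ?_ ?_
  · intro C hC
    rw [hF, mem_insert, mem_singleton] at hC
    rcases hC with rfl | rfl
    · rw [h1]
      exact hI
    · rw [h2]
      exact hJ
  · intro z hz
    rw [mem_biUnion, hF]
    rcases hZ z hz with h4 | h4
    · exact ⟨I, by simp, by rw [h1]; exact h4⟩
    · exact ⟨J, by simp, by rw [h2]; exact h4⟩

theorem Ct3.assign1 (h : Ct3 B Q Z F i0) {I : Finset V} (hF : F = {I}) (hI : Abz B I Z) :
    False := by
  refine h.final (fun _ => Z) ?_ ?_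
  · intro C hC
    rw [hF, mem_singleton] at hC
    rw [hC]
    exact hI
  · intro z hz
    rw [mem_biUnion, hF]
    exact ⟨I, by simp, hz⟩

theorem Ct3.FA_Z (_h : Ct3 B Q Z F i0) : FA B Z F Z = F := by
  ext C
  rw [mem_FA]
  exact ⟨fun h => h.1, fun h => ⟨h, fun z hz _ => hz⟩⟩

theorem Ct3.ins_pos (h : Ct3 B Q Z F i0) : 0 < (ins B Q Z).card :=
  card_pos.2 ⟨i0, h.i0_ins⟩

theorem Ct3.sum_le (h : Ct3 B Q Z F i0) :
    ∑ C ∈ F, dv B Q C + 3 * ((ins B Q Z).card : ℤ) ≤ 6 := by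
  have h1 := h.dv_ge
  have h2 := h.neg
  linarith

/-- at most two inner blocks, at most two good and at most one bad component; two inner blocks:
all good. -/
theorem Ct3.summary (h : Ct3 B Q Z F i0) : (ins B Q Z).card ≤ 2 ∧
    (F.filter (fun C => dv B Q C ≤ 3)).card ≤ 2 ∧
    (F.filter (fun C => ¬ dv B Q C ≤ 3)).card ≤ 1 ∧
    ((ins B Q Z).card = 2 → F.filter (fun C => ¬ dv B Q C ≤ 3) = ∅) := by
  classical
  have h1 := h.good_lt (Subset.refl Z) (card_pos.1 (by rw [h.cZ]; norm_num))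
  rw [h.FA_Z, h.cZ] at h1
  have h2 := sum_filter_add_sum_filter_not F (fun C => dv B Q C ≤ 3) (fun C => dv B Q C)
  have h3 : ∑ C ∈ F.filter (fun C => dv B Q C ≤ 3), (-1 : ℤ) ≤
      ∑ C ∈ F.filter (fun C => dv B Q C ≤ 3), dv B Q C :=
    sum_le_sum fun C hC => (h.cp (mem_filter.1 hC).1).d_ge
  have h4 : ∑ C ∈ F.filter (fun C => ¬ dv B Q C ≤ 3), (4 : ℤ) ≤
      ∑ C ∈ F.filter (fun C => ¬ dv B Q C ≤ 3), dv B Q C := by
    refine sum_le_sum fun C hC => ?_
    have := (mem_filter.1 hC).2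
    omega
  rw [sum_const, nsmul_eq_mul] at h3 h4
  have h5 := h.sum_le
  have h7 := h.ins_pos
  have c1 : ((F.filter (fun C => dv B Q C ≤ 3)).card : ℤ) ≤ 2 := by
    exact_mod_cast (by omega : (F.filter (fun C => dv B Q C ≤ 3)).card ≤ 2)
  have c2 : (1 : ℤ) ≤ (ins B Q Z).card := by exact_mod_cast h7
  have c4 : (0 : ℤ) ≤ (F.filter (fun C => ¬ dv B Q C ≤ 3)).card := by positivity
  have c5 : ((ins B Q Z).card : ℤ) ≤ 2 := by linarith
  have c6 : ((F.filter (fun C => ¬ dv B Q C ≤ 3)).card : ℤ) ≤ 1 := by linarith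
  refine ⟨by exact_mod_cast c5, by omega, by exact_mod_cast c6, fun h8 => ?_⟩
  rw [h8] at h5
  rw [← card_eq_zero]
  push_cast at h5
  have c7 : ((F.filter (fun C => ¬ dv B Q C ≤ 3)).card : ℤ) < 1 := by linarith
  have c8 : (F.filter (fun C => ¬ dv B Q C ≤ 3)).card < 1 := by exact_mod_cast c7
  omega

theorem Ct3.row_ge (h : Ct3 B Q Z F i0) {z : V} (hz : z ∈ Z) :
    3 ≤ ∑ C ∈ F, (Ez B C z).card := by
  have h1 := h.row hz
  have h2 : ((ins B Q Z).filter (fun i => z ∈ B i)).card ≤ (ins B Q Z).card :=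
    card_filter_le _ _
  have h3 := h.summary.1
  omega

theorem Ct3.F_ne (h : Ct3 B Q Z F i0) : F.Nonempty := by
  rw [nonempty_iff_ne_empty]
  rintro rfl
  obtain ⟨z, hz⟩ := card_pos.1 (by rw [h.cZ]; norm_num : 0 < Z.card)
  have := h.row_ge hz
  simp at this

theorem Ct3.two_att (h : Ct3 B Q Z F i0) {C : Finset V} (hC : C ∈ F) (hd : dv B Q C ≤ 3) {a : V}
    (ha : a ∈ Z) : ∃ x ∈ Z, x ≠ a ∧ (Ez B C x).Nonempty := by
  classical
  by_contra hcon
  push Not at hcon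
  have h1 := h.good_lt (singleton_subset_iff.2 ha) (singleton_nonempty a)
  rw [card_singleton, Nat.lt_one_iff, card_eq_zero, filter_eq_empty_iff] at h1
  refine h1 (x := C) ?_ hd
  rw [mem_FA]
  refine ⟨hC, fun z hz hzE => ?_⟩
  rw [mem_singleton]
  by_contra hza
  rw [hcon z hz hza] at hzE
  exact absurd hzE (by simp)

theorem Ct3.pair_att (h : Ct3 B Q Z F i0) {C D : Finset V} (hC : C ∈ F) (hD : D ∈ F) (hCD : C ≠ D)
    (hdC : dv B Q C ≤ 3) (hdD : dv B Q D ≤ 3) {a b : V} (ha : a ∈ Z) (hb : b ∈ Z) :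
    ∃ x ∈ Z, x ≠ a ∧ x ≠ b ∧ ((Ez B C x).Nonempty ∨ (Ez B D x).Nonempty) := by
  classical
  by_contra hcon
  push Not at hcon
  have hsub : ({a, b} : Finset V) ⊆ Z := by
    intro v hv
    rw [mem_insert, mem_singleton] at hv
    rcases hv with rfl | rfl
    · exact ha
    · exact hb
  have h1 := h.good_lt hsub (insert_nonempty _ _)
  have h2 : ({C, D} : Finset (Finset V)) ⊆
      (FA B Z F {a, b}).filter (fun C => dv B Q C ≤ 3) := by
    intro E hE
    rw [mem_insert, mem_singleton] at hE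
    rw [mem_filter, mem_FA]
    have hEF : E ∈ F := by
      rcases hE with rfl | rfl
      · exact hC
      · exact hD
    refine ⟨⟨hEF, fun z hz hzE => ?_⟩, ?_⟩
    · rw [mem_insert, mem_singleton]
      by_contra hza
      push Not at hza
      have h3 := hcon z hz hza.1 hza.2
      rcases hE with rfl | rfl
      · rw [h3.1] at hzE
        exact absurd hzE (by simp)
      · rw [h3.2] at hzE
        exact absurd hzE (by simp)
    · rcases hE with rfl | rfl
      · exact hdC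
      · exact hdD
  have h3 := card_le_card h2
  rw [card_pair hCD] at h3
  have h4 : ({a, b} : Finset V).card ≤ 2 := card_le_two
  omega

theorem Ct3.ab1 (h : Ct3 B Q Z F i0) {C : Finset V} (hC : C ∈ F) (hd : dv B Q C ≤ 3) {z : V}
    (hz : z ∈ Z) (he : 1 ≤ (Ez B C z).card) : Abz B C {z} :=
  (h.cp hC).pt1 hd (h.ZQ hz) (h.notMem hC hz) (card_pos.1 he)

theorem Ct3.ab1b (h : Ct3 B Q Z F i0) {C : Finset V} (hC : C ∈ F) (hd : dv B Q C ≤ 7) {z : V}
    (hz : z ∈ Z) (he : 2 ≤ (Ez B C z).card) : Abz B C {z} :=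
  (h.cp hC).pt1b hd (h.ZQ hz) (h.notMem hC hz) he

theorem Ct3.ab2 (h : Ct3 B Q Z F i0) {C : Finset V} (hC : C ∈ F) (hd : dv B Q C ≤ 0) {z z' : V}
    (hz : z ∈ Z) (hz' : z' ∈ Z) (hne : z ≠ z') (he : 2 ≤ (Ez B C z).card)
    (he' : 2 ≤ (Ez B C z').card) : Abz B C {z, z'} :=
  (h.cp hC).pt2 hd (h.ZQ hz) (h.notMem hC hz) (h.ZQ hz') (h.notMem hC hz') hne he he'

theorem Ct3.ab2b (h : Ct3 B Q Z F i0) {C : Finset V} (hC : C ∈ F) (hd : dv B Q C ≤ 4) {z z' : V}
    (hz : z ∈ Z) (hz' : z' ∈ Z) (hne : z ≠ z') (he : 3 ≤ (Ez B C z).card)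
    (he' : 3 ≤ (Ez B C z').card) : Abz B C {z, z'} :=
  (h.cp hC).pt2b hd (h.ZQ hz) (h.notMem hC hz) (h.ZQ hz') (h.notMem hC hz') hne he he'

theorem Ct3.ab2c (h : Ct3 B Q Z F i0) {C : Finset V} (hC : C ∈ F) (hd : dv B Q C ≤ 2) {z z' : V}
    (hz : z ∈ Z) (hz' : z' ∈ Z) (hne : z ≠ z') (he : 4 ≤ (Ez B C z).card)
    (he' : 2 ≤ (Ez B C z').card) : Abz B C {z, z'} :=
  (h.cp hC).pt2c hd (h.ZQ hz) (h.notMem hC hz) (h.ZQ hz') (h.notMem hC hz') hne he he'

theorem Ct3.ab0 (h : Ct3 B Q Z F i0) {C : Finset V} (hC : C ∈ F) : Abz B C ∅ :=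
  Abz.empty (h.cp hC).cov

/-- the three points of `Z`. -/
structure Thr (Z : Finset V) (a b c : V) : Prop where
  ma : a ∈ Z
  mb : b ∈ Z
  mc : c ∈ Z
  ab : a ≠ b
  ac : a ≠ c
  bc : b ≠ c
  cov : ∀ x ∈ Z, x = a ∨ x = b ∨ x = c

theorem thr_of {a b : V} (hc : Z.card = 3) (ha : a ∈ Z) (hb : b ∈ Z) (hab : a ≠ b) :
    ∃ c, Thr Z a b c := by
  have h1 : ((Z.erase a).erase b).card = 1 := by
    rw [card_erase_of_mem (mem_erase.2 ⟨hab.symm, hb⟩), card_erase_of_mem ha, hc]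
  obtain ⟨c, h2⟩ := card_eq_one.1 h1
  have hc' : c ∈ (Z.erase a).erase b := by rw [h2]; simp
  simp only [mem_erase] at hc'
  refine ⟨c, ha, hb, hc'.2.2, hab, fun h => hc'.2.1 h.symm, fun h => hc'.1 h.symm,
    fun x hx => ?_⟩
  by_cases h3 : x = a
  · exact Or.inl h3
  by_cases h4 : x = b
  · exact Or.inr (Or.inl h4)
  have h5 : x ∈ (Z.erase a).erase b := mem_erase.2 ⟨h4, mem_erase.2 ⟨h3, hx⟩⟩
  rw [h2, mem_singleton] at h5
  exact Or.inr (Or.inr h5)

theorem Ct3.thr (h : Ct3 B Q Z F i0) : ∃ a b c, Thr Z a b c := by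
  obtain ⟨a, ha, b, hb, hab⟩ := one_lt_card.1 (by rw [h.cZ]; norm_num : 1 < Z.card)
  obtain ⟨c, hc⟩ := thr_of h.cZ ha hb hab
  exact ⟨a, b, c, hc⟩

/-- two points of `Z` absorbed by `C` and the third one by `D`. -/
theorem Ct3.key0 (h : Ct3 B Q Z F i0) {C D : Finset V}
    (hcl : ∀ SC SD : Finset V, Abz B C SC → Abz B D SD → (∀ z ∈ Z, z ∈ SC ∨ z ∈ SD) → False)
    {p q : ℕ}
    (hp : ∀ x ∈ Z, ∀ y ∈ Z, x ≠ y → p ≤ (Ez B C x).card → p ≤ (Ez B C y).card → Abz B C {x, y})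
    (hq : ∀ x ∈ Z, q ≤ (Ez B D x).card → Abz B D {x})
    (hr : ∀ z ∈ Z, p + q ≤ (Ez B C z).card + (Ez B D z).card + 1)
    {x y : V} (hx : x ∈ Z) (hy : y ∈ Z) (hxy : x ≠ y) (h1 : p ≤ (Ez B C x).card)
    (h2 : p ≤ (Ez B C y).card) : ∀ z ∈ Z, (Ez B D z).card < q := by
  obtain ⟨w, h3⟩ := thr_of h.cZ hx hy hxy
  have hstep : ∀ x' ∈ Z, ∀ y' ∈ Z, ∀ w' ∈ Z, x' ≠ y' → (∀ z ∈ Z, z = x' ∨ z = y' ∨ z = w') →
      p ≤ (Ez B C x').card → p ≤ (Ez B C y').card → (Ez B D w').card < q := by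
    intro x' hx' y' hy' w' hw' hne hcov hpx hpy
    by_contra hcon
    push Not at hcon
    refine hcl _ _ (hp x' hx' y' hy' hne hpx hpy) (hq w' hw' hcon) fun z hz => ?_
    rcases hcov z hz with rfl | rfl | rfl <;> simp
  have hw := hstep x hx y hy w h3.mc hxy h3.cov h1 h2
  have hw2 : p ≤ (Ez B C w).card := by
    have := hr w h3.mc
    omega
  have hy2 := hstep x hx w h3.mc y hy h3.ac (fun z hz => by have := h3.cov z hz; tauto) h1 hw2
  have hx2 := hstep y hy w h3.mc x hx h3.bc (fun z hz => by have := h3.cov z hz; tauto) h2 hw2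
  intro z hz
  rcases h3.cov z hz with rfl | rfl | rfl
  · exact hx2
  · exact hy2
  · exact hw

/-- `key0` for two components. -/
theorem Ct3.key (h : Ct3 B Q Z F i0) {C D : Finset V} (hF : F = {C, D}) (hCD : C ≠ D) {p q : ℕ}
    (hp : ∀ x ∈ Z, ∀ y ∈ Z, x ≠ y → p ≤ (Ez B C x).card → p ≤ (Ez B C y).card → Abz B C {x, y})
    (hq : ∀ x ∈ Z, q ≤ (Ez B D x).card → Abz B D {x})
    (hr : ∀ z ∈ Z, p + q ≤ (Ez B C z).card + (Ez B D z).card + 1)
    {x y : V} (hx : x ∈ Z) (hy : y ∈ Z) (hxy : x ≠ y) (h1 : p ≤ (Ez B C x).card)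
    (h2 : p ≤ (Ez B C y).card) : ∀ z ∈ Z, (Ez B D z).card < q :=
  h.key0 (fun _ _ hSC hSD hZ => h.assign2 hF hCD hSC hSD hZ) hp hq hr hx hy hxy h1 h2

theorem Ct3.att_card (h : Ct3 B Q Z F i0) {C : Finset V} (hC : C ∈ F) :
    ∃ z ∈ Z, 1 ≤ (Ez B C z).card := by
  obtain ⟨z, hz, hE⟩ := h.att hC
  exact ⟨z, hz, card_pos.2 hE⟩

/-- there are not three components. -/
theorem Ct3.card_le_two (h : Ct3 B Q Z F i0) : F.card ≤ 2 := by
  classical
  by_contra hcon
  obtain ⟨s1, s2, s3, s4⟩ := h.summary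
  have hcard : (F.filter (fun C => dv B Q C ≤ 3)).card +
      (F.filter (fun C => ¬ dv B Q C ≤ 3)).card = F.card :=
    card_filter_add_card_filter_not _
  obtain ⟨C, hC⟩ := card_eq_one.1 (by omega : (F.filter (fun C => ¬ dv B Q C ≤ 3)).card = 1)
  obtain ⟨D, E, hDE, hD⟩ := card_eq_two.1 (by omega : (F.filter (fun C => dv B Q C ≤ 3)).card = 2)
  have hb : (ins B Q Z).card = 1 := by
    have h1 := h.ins_pos
    by_contra h2
    rw [s4 (by omega)] at hC
    exact absurd (hC.symm ▸ mem_singleton_self C : C ∈ (∅ : Finset (Finset V))) (notMem_empty _)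
  have mC : C ∈ F ∧ ¬ dv B Q C ≤ 3 := by
    have : C ∈ F.filter (fun C => ¬ dv B Q C ≤ 3) := by rw [hC]; simp
    exact mem_filter.1 this
  have mD : D ∈ F ∧ dv B Q D ≤ 3 := by
    have : D ∈ F.filter (fun C => dv B Q C ≤ 3) := by rw [hD]; simp
    exact mem_filter.1 this
  have mE : E ∈ F ∧ dv B Q E ≤ 3 := by
    have : E ∈ F.filter (fun C => dv B Q C ≤ 3) := by rw [hD]; simp
    exact mem_filter.1 this
  have hCD : C ≠ D := by
    rintro rfl
    exact mC.2 mD.2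
  have hCE : C ≠ E := by
    rintro rfl
    exact mC.2 mE.2
  have hF : F = {C, D, E} := by
    rw [← filter_union_filter_not_eq (fun C => dv B Q C ≤ 3) F, hC, hD]
    ext x
    simp only [mem_union, mem_insert, mem_singleton]
    tauto
  have hsum := h.sum_le
  rw [hb, hF, sum_insert (by simp [hCD, hCE]), sum_pair hDE] at hsum
  have gD := (h.cp mD.1).d_ge
  have gE := (h.cp mE.1).d_ge
  have mC2 := mC.2
  push_cast at hsum
  have hrow : ∀ z ∈ Z, (Ez B C z).card + (Ez B D z).card + (Ez B E z).card = 4 := by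
    intro z hz
    have h5 := h.row_eq hb hz
    rw [hF, sum_insert (by simp [hCD, hCE]), sum_pair hDE] at h5
    omega
  have hsmall : ∀ a b c, Thr Z a b c → (Ez B C a).card < 2 := by
    intro a b c ht
    by_contra h2
    push Not at h2
    have hA := h.ab1b mC.1 (by omega) ht.ma h2
    have t1 : 1 ≤ (Ez B D b).card + (Ez B D c).card := by
      obtain ⟨x, hx, hxa, hE⟩ := h.two_att mD.1 mD.2 ht.ma
      have := card_pos.2 hE
      rcases ht.cov x hx with rfl | rfl | rfl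
      · exact absurd rfl hxa
      · omega
      · omega
    have t2 : 1 ≤ (Ez B E b).card + (Ez B E c).card := by
      obtain ⟨x, hx, hxa, hE⟩ := h.two_att mE.1 mE.2 ht.ma
      have := card_pos.2 hE
      rcases ht.cov x hx with rfl | rfl | rfl
      · exact absurd rfl hxa
      · omega
      · omega
    have t3 : 1 ≤ (Ez B D c).card + (Ez B E c).card := by
      obtain ⟨x, hx, hxa, hxb, hE⟩ := h.pair_att mD.1 mE.1 hDE mD.2 mE.2 ht.ma ht.mb
      rcases ht.cov x hx with rfl | rfl | rfl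
      · exact absurd rfl hxa
      · exact absurd rfl hxb
      · rcases hE with hE | hE
        · have := card_pos.2 hE
          omega
        · have := card_pos.2 hE
          omega
    have t4 : 1 ≤ (Ez B D b).card + (Ez B E b).card := by
      obtain ⟨x, hx, hxa, hxb, hE⟩ := h.pair_att mD.1 mE.1 hDE mD.2 mE.2 ht.ma ht.mc
      rcases ht.cov x hx with rfl | rfl | rfl
      · exact absurd rfl hxa
      · rcases hE with hE | hE
        · have := card_pos.2 hE
          omega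
        · have := card_pos.2 hE
          omega
      · exact absurd rfl hxb
    rcases (by omega : (1 ≤ (Ez B D b).card ∧ 1 ≤ (Ez B E c).card) ∨
      (1 ≤ (Ez B D c).card ∧ 1 ≤ (Ez B E b).card)) with t | t
    · refine h.assign3 hF hCD hCE hDE hA (h.ab1 mD.1 mD.2 ht.mb t.1) (h.ab1 mE.1 mE.2 ht.mc t.2)
        fun z hz => ?_
      rcases ht.cov z hz with rfl | rfl | rfl <;> simp
    · refine h.assign3 hF hCD hCE hDE hA (h.ab1 mD.1 mD.2 ht.mc t.1) (h.ab1 mE.1 mE.2 ht.mb t.2)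
        fun z hz => ?_
      rcases ht.cov z hz with rfl | rfl | rfl <;> simp
  obtain ⟨a, b, c, ht⟩ := h.thr
  have ca := hsmall a b c ht
  have cb := hsmall b a c ⟨ht.mb, ht.ma, ht.mc, ht.ab.symm, ht.bc, ht.ac,
    fun x hx => by have := ht.cov x hx; tauto⟩
  have cc := hsmall c a b ⟨ht.mc, ht.ma, ht.mb, ht.ac.symm, ht.bc.symm, ht.ab,
    fun x hx => by have := ht.cov x hx; tauto⟩
  have hC1 : ∀ z ∈ Z, (Ez B C z).card < 2 := by
    intro z hz
    rcases ht.cov z hz with rfl | rfl | rfl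
    · exact ca
    · exact cb
    · exact cc
  have kD : ∀ x ∈ Z, ∀ y ∈ Z, x ≠ y → ¬ (2 ≤ (Ez B D x).card ∧ 2 ≤ (Ez B D y).card) := by
    rintro x hx y hy hxy ⟨e1, e2⟩
    have h8 := h.key0 (C := D) (D := E) (p := 2) (q := 1) (fun SD SE hSD hSE hZ => ?_)
      (fun x hx y hy hxy e1 e2 => h.ab2 mD.1 (by omega) hx hy hxy e1 e2)
      (fun x hx e => h.ab1 mE.1 mE.2 hx e)
      (fun z hz => by have := hrow z hz; have := hC1 z hz; omega) hx hy hxy e1 e2
    · obtain ⟨z, hz, hE⟩ := h.att_card mE.1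
      have := h8 z hz
      omega
    · exact h.assign3 hF hCD hCE hDE (h.ab0 mC.1) hSD hSE fun z hz => by
        have := hZ z hz
        tauto
  have kE : ∀ x ∈ Z, ∀ y ∈ Z, x ≠ y → ¬ (2 ≤ (Ez B E x).card ∧ 2 ≤ (Ez B E y).card) := by
    rintro x hx y hy hxy ⟨e1, e2⟩
    have h8 := h.key0 (C := E) (D := D) (p := 2) (q := 1) (fun SE SD hSE hSD hZ => ?_)
      (fun x hx y hy hxy e1 e2 => h.ab2 mE.1 (by omega) hx hy hxy e1 e2)
      (fun x hx e => h.ab1 mD.1 mD.2 hx e)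
      (fun z hz => by have := hrow z hz; have := hC1 z hz; omega) hx hy hxy e1 e2
    · obtain ⟨z, hz, hE⟩ := h.att_card mD.1
      have := h8 z hz
      omega
    · exact h.assign3 hF hCD hCE hDE (h.ab0 mC.1) hSD hSE fun z hz => by
        have := hZ z hz
        tauto
  have ra := hrow a ht.ma
  have rb := hrow b ht.mb
  have rc := hrow c ht.mc
  have k1 := kD a ht.ma b ht.mb ht.ab
  have k2 := kD a ht.ma c ht.mc ht.ac
  have k3 := kD b ht.mb c ht.mc ht.bc
  have k4 := kE a ht.ma b ht.mb ht.ab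
  have k5 := kE a ht.ma c ht.mc ht.ac
  have k6 := kE b ht.mb c ht.mc ht.bc
  omega

/-- the components are `C` and `D`: the rows. -/
theorem Ct3.row2 (h : Ct3 B Q Z F i0) {C D : Finset V} (hF : F = {C, D}) (hCD : C ≠ D)
    (hb : (ins B Q Z).card = 1) {z : V} (hz : z ∈ Z) :
    (Ez B C z).card + (Ez B D z).card = 4 := by
  have h5 := h.row_eq hb hz
  rw [hF, sum_pair hCD] at h5
  exact h5

/-- two points without two hits on one side. -/
theorem Ct3.nk1 (h : Ct3 B Q Z F i0) {C D : Finset V} (hF : F = {C, D}) (hCD : C ≠ D)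
    {p : ℕ} (hD : dv B Q D ≤ 3)
    (hp : ∀ x ∈ Z, ∀ y ∈ Z, x ≠ y → p ≤ (Ez B C x).card → p ≤ (Ez B C y).card → Abz B C {x, y})
    (hr : ∀ z ∈ Z, p ≤ (Ez B C z).card + (Ez B D z).card) :
    ∀ x ∈ Z, ∀ y ∈ Z, x ≠ y → ¬ (p ≤ (Ez B C x).card ∧ p ≤ (Ez B C y).card) := by
  rintro x hx y hy hxy ⟨e1, e2⟩
  have mD : D ∈ F := by rw [hF]; simp
  have h8 := h.key hF hCD (q := 1) hp (fun x hx e => h.ab1 mD hD hx e)
    (fun z hz => by have := hr z hz; omega) hx hy hxy e1 e2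
  obtain ⟨z, hz, hE⟩ := h.att_card mD
  have := h8 z hz
  omega

/-- one inner block and two good components: both values are positive. -/
theorem Ct3.good_pos (h : Ct3 B Q Z F i0) {C D : Finset V} (hF : F = {C, D}) (hCD : C ≠ D)
    (hb : (ins B Q Z).card = 1) (hC : dv B Q C ≤ 3) (hD : dv B Q D ≤ 3) : 1 ≤ dv B Q C := by
  by_contra hcon
  have mC : C ∈ F := by rw [hF]; simp
  have mD : D ∈ F := by rw [hF]; simp
  have hFD : F = {D, C} := by rw [hF, pair_comm]
  have hr := fun z (hz : z ∈ Z) => h.row2 hF hCD hb hz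
  have k := h.nk1 hF hCD (p := 2) hD
    (fun x hx y hy hxy e1 e2 => h.ab2 mC (by omega) hx hy hxy e1 e2)
    (fun z hz => by have := hr z hz; omega)
  have l := h.nk1 hFD hCD.symm (p := 3) hC
    (fun x hx y hy hxy e1 e2 => h.ab2b mD (by omega) hx hy hxy e1 e2)
    (fun z hz => by have := hr z hz; omega)
  obtain ⟨a, b, c, ht⟩ := h.thr
  have ra := hr a ht.ma
  have rb := hr b ht.mb
  have rc := hr c ht.mc
  have k1 := k a ht.ma b ht.mb ht.ab
  have k2 := k a ht.ma c ht.mc ht.ac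
  have k3 := k b ht.mb c ht.mc ht.bc
  have k4 := l a ht.ma b ht.mb ht.ab
  have k5 := l a ht.ma c ht.mc ht.ac
  have k6 := l b ht.mb c ht.mc ht.bc
  omega

/-- one inner block and two good components: no point sees only one of them. -/
theorem Ct3.good_hit (h : Ct3 B Q Z F i0) {C D : Finset V} (hF : F = {C, D}) (hCD : C ≠ D)
    (hb : (ins B Q Z).card = 1) (hC : dv B Q C ≤ 3) (hD : dv B Q D ≤ 3) {z : V} (hz : z ∈ Z) :
    (Ez B C z).card ≤ 3 := by
  by_contra hcon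
  have mC : C ∈ F := by rw [hF]; simp
  have mD : D ∈ F := by rw [hF]; simp
  have hFD : F = {D, C} := by rw [hF, pair_comm]
  have hr := fun z (hz : z ∈ Z) => h.row2 hF hCD hb hz
  have p1 := h.good_pos hF hCD hb hC hD
  have p2 := h.good_pos hFD hCD.symm hb hD hC
  have hs := h.sum_le
  rw [hb, hF, sum_pair hCD] at hs
  push_cast at hs
  have k := h.nk1 hF hCD (p := 3) hD
    (fun x hx y hy hxy e1 e2 => h.ab2b mC (by omega) hx hy hxy e1 e2)
    (fun z hz => by have := hr z hz; omega)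
  have l := h.nk1 hFD hCD.symm (p := 3) hC
    (fun x hx y hy hxy e1 e2 => h.ab2b mD (by omega) hx hy hxy e1 e2)
    (fun z hz => by have := hr z hz; omega)
  obtain ⟨x, hx, hxz⟩ : ∃ x ∈ Z, x ≠ z := by
    obtain ⟨x, hx, hxz, _⟩ := h.two_att mC hC hz
    exact ⟨x, hx, hxz⟩
  obtain ⟨y, ht⟩ := thr_of h.cZ hz hx hxz.symm
  have rz := hr z ht.ma
  have rx := hr x ht.mb
  have ry := hr y ht.mc
  have k1 := k z ht.ma x ht.mb ht.ab
  have k2 := k z ht.ma y ht.mc ht.ac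
  have l3 := l x ht.mb y ht.mc ht.bc
  rcases (by omega : (2 ≤ (Ez B C x).card ∧ 1 ≤ (Ez B D y).card) ∨
    (2 ≤ (Ez B C y).card ∧ 1 ≤ (Ez B D x).card)) with t | t
  · refine h.assign2 hF hCD (h.ab2c mC (by omega) ht.ma ht.mb ht.ab (by omega) t.1)
      (h.ab1 mD hD ht.mc t.2) fun v hv => ?_
    rcases ht.cov v hv with rfl | rfl | rfl <;> simp
  · refine h.assign2 hF hCD (h.ab2c mC (by omega) ht.ma ht.mc ht.ac (by omega) t.1)
      (h.ab1 mD hD ht.mb t.2) fun v hv => ?_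
    rcases ht.cov v hv with rfl | rfl | rfl <;> simp

/-- the type of two good components and one inner block. -/
structure G2 (B : ι → Finset V) (Q Z C D : Finset V) : Prop where
  pC : 1 ≤ dv B Q C
  pD : 1 ≤ dv B Q D
  sum : dv B Q C + dv B Q D ≤ 3
  row : ∀ z ∈ Z, (Ez B C z).card + (Ez B D z).card = 4
  c3 : ∀ z ∈ Z, (Ez B C z).card ≤ 3
  d3 : ∀ z ∈ Z, (Ez B D z).card ≤ 3
  cc : ∀ x ∈ Z, ∀ y ∈ Z, x ≠ y → ¬ (3 ≤ (Ez B C x).card ∧ 3 ≤ (Ez B C y).card)
  dd : ∀ x ∈ Z, ∀ y ∈ Z, x ≠ y → ¬ (3 ≤ (Ez B D x).card ∧ 3 ≤ (Ez B D y).card)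

theorem Ct3.g2 (h : Ct3 B Q Z F i0) {C D : Finset V} (hF : F = {C, D}) (hCD : C ≠ D)
    (hb : (ins B Q Z).card = 1) (hC : dv B Q C ≤ 3) (hD : dv B Q D ≤ 3) : G2 B Q Z C D := by
  have mC : C ∈ F := by rw [hF]; simp
  have mD : D ∈ F := by rw [hF]; simp
  have hFD : F = {D, C} := by rw [hF, pair_comm]
  have hr := fun z (hz : z ∈ Z) => h.row2 hF hCD hb hz
  have p1 := h.good_pos hF hCD hb hC hD
  have p2 := h.good_pos hFD hCD.symm hb hD hC
  have hs := h.sum_le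
  rw [hb, hF, sum_pair hCD] at hs
  push_cast at hs
  refine ⟨p1, p2, by omega, hr, fun z hz => h.good_hit hF hCD hb hC hD hz,
    fun z hz => h.good_hit hFD hCD.symm hb hD hC hz, ?_, ?_⟩
  · exact h.nk1 hF hCD (p := 3) hD
      (fun x hx y hy hxy e1 e2 => h.ab2b mC (by omega) hx hy hxy e1 e2)
      (fun z hz => by have := hr z hz; omega)
  · exact h.nk1 hFD hCD.symm (p := 3) hC
      (fun x hx y hy hxy e1 e2 => h.ab2b mD (by omega) hx hy hxy e1 e2)
      (fun z hz => by have := hr z hz; omega)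

/-- the type of a bad component `C` (value `4`) and a component `D` of three points. -/
structure G3 (B : ι → Finset V) (Q Z C D : Finset V) : Prop where
  pC : dv B Q C = 4
  pD : dv B Q D = -1
  card : D.card = 3
  c1 : ∀ z ∈ Z, (Ez B C z).card = 1
  d3 : ∀ z ∈ Z, (Ez B D z).card = 3

theorem Ct3.g3 (h : Ct3 B Q Z F i0) {C D : Finset V} (hF : F = {C, D}) (hCD : C ≠ D)
    (hb : (ins B Q Z).card = 1) (hC : ¬ dv B Q C ≤ 3) : G3 B Q Z C D := by
  classical
  have mC : C ∈ F := by rw [hF]; simp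
  have mD : D ∈ F := by rw [hF]; simp
  have hFD : F = {D, C} := by rw [hF, pair_comm]
  have hr := fun z (hz : z ∈ Z) => h.row2 hF hCD hb hz
  have gD := (h.cp mD).d_ge
  have hs := h.sum_le
  rw [hb, hF, sum_pair hCD] at hs
  push_cast at hs
  have pC : dv B Q C = 4 := by omega
  have pD : dv B Q D = -1 := by omega
  have k := h.nk1 hF hCD (p := 3) (by omega)
    (fun x hx y hy hxy e1 e2 => h.ab2b mC (by omega) hx hy hxy e1 e2)
    (fun z hz => by have := hr z hz; omega)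
  obtain ⟨a, b, c, ht⟩ := h.thr
  have ra := hr a ht.ma
  have rb := hr b ht.mb
  have rc := hr c ht.mc
  have k1 := k a ht.ma b ht.mb ht.ab
  have k2 := k a ht.ma c ht.mc ht.ac
  have k3 := k b ht.mb c ht.mc ht.bc
  have hC1 : ∀ z ∈ Z, (Ez B C z).card < 2 := by
    have hkey : ∀ x ∈ Z, ∀ y ∈ Z, x ≠ y → 2 ≤ (Ez B D x).card → 2 ≤ (Ez B D y).card →
        ∀ z ∈ Z, (Ez B C z).card < 2 := fun x hx y hy hxy e1 e2 =>
      h.key hFD hCD.symm (p := 2) (q := 2)
        (fun x hx y hy hxy e1 e2 => h.ab2 mD (by omega) hx hy hxy e1 e2)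
        (fun x hx e => h.ab1b mC (by omega) hx e)
        (fun z hz => by have := hr z hz; omega) hx hy hxy e1 e2
    rcases (by omega : (2 ≤ (Ez B D a).card ∧ 2 ≤ (Ez B D b).card) ∨
      (2 ≤ (Ez B D a).card ∧ 2 ≤ (Ez B D c).card) ∨
      (2 ≤ (Ez B D b).card ∧ 2 ≤ (Ez B D c).card)) with t | t | t
    · exact hkey a ht.ma b ht.mb ht.ab t.1 t.2
    · exact hkey a ht.ma c ht.mc ht.ac t.1 t.2
    · exact hkey b ht.mb c ht.mc ht.bc t.1 t.2
  have hDC : D.card + 3 < Q.card := by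
    have h1 : Disjoint D C := ((h.sep C mC D mD hCD).1).symm
    have h2 : D ∪ C ⊆ Q \ Z := union_subset (h.parts D mD).1 (h.parts C mC).1
    have h3 := card_le_card h2
    rw [card_union_of_disjoint h1] at h3
    have h4 := card_pos.2 (h.parts C mC).2.2.1
    have h5 := card_sdiff_add_card_eq_card h.ZQ
    have h6 := h.cZ
    omega
  have hpt : ∀ x y w, Thr Z x y w → (4 ≤ (Ez B D x).card ∨ D.card ≠ 3) → False := by
    intro x y w ht hex
    have rx := hr x ht.ma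
    have ry := hr y ht.mb
    have rw' := hr w ht.mc
    have cx := hC1 x ht.ma
    have cy := hC1 y ht.mb
    have cw := hC1 w ht.mc
    refine h.assign2 hF hCD (h.ab0 mC) ((h.cp mD).pt3 (by omega) (h.ZQ ht.ma)
      (h.notMem mD ht.ma) (h.ZQ ht.mb) (h.notMem mD ht.mb) (h.ZQ ht.mc) (h.notMem mD ht.mc)
      ht.ab ht.ac ht.bc hDC (by omega) (by omega) (by omega) hex) fun v hv => ?_
    rcases ht.cov v hv with rfl | rfl | rfl <;> simp
  have hcard : D.card = 3 := by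
    by_contra h1
    exact hpt a b c ht (Or.inr h1)
  have hd3 : ∀ z ∈ Z, (Ez B D z).card = 3 := by
    intro z hz
    have r := hr z hz
    have c1 := hC1 z hz
    by_contra h1
    obtain ⟨x, hx, hxz, _⟩ := h.two_att mD (by omega) hz
    obtain ⟨y, ht'⟩ := thr_of h.cZ hz hx hxz.symm
    exact hpt z x y ht' (Or.inl (by omega))
  exact ⟨pC, pD, hcard, fun z hz => by have := hr z hz; have := hd3 z hz; omega, hd3⟩

/-- the type of two components and two inner blocks. -/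
structure G4 (B : ι → Finset V) (Q Z C D : Finset V) : Prop where
  pC : dv B Q C = -1
  pD : dv B Q D = 1
  row : ∀ z ∈ Z, (Ez B C z).card + (Ez B D z).card +
    ((ins B Q Z).filter (fun i => z ∈ B i)).card = 5
  cc : ∀ x ∈ Z, ∀ y ∈ Z, x ≠ y → ¬ (2 ≤ (Ez B C x).card ∧ 2 ≤ (Ez B C y).card)
  dd : ∀ x ∈ Z, ∀ y ∈ Z, x ≠ y → ¬ (3 ≤ (Ez B D x).card ∧ 3 ≤ (Ez B D y).card)

theorem Ct3.g4 (h : Ct3 B Q Z F i0) {C D : Finset V} (hF : F = {C, D}) (hCD : C ≠ D)
    (hb : (ins B Q Z).card = 2) (hC : dv B Q C ≤ 0) : G4 B Q Z C D := by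
  classical
  have mC : C ∈ F := by rw [hF]; simp
  have mD : D ∈ F := by rw [hF]; simp
  have hFD : F = {D, C} := by rw [hF, pair_comm]
  have hr : ∀ z ∈ Z, (Ez B C z).card + (Ez B D z).card +
      ((ins B Q Z).filter (fun i => z ∈ B i)).card = 5 := by
    intro z hz
    have h5 := h.row hz
    rw [hF, sum_pair hCD] at h5
    exact h5
  have hr3 : ∀ z ∈ Z, 3 ≤ (Ez B C z).card + (Ez B D z).card := by
    intro z hz
    have h5 := h.row_ge hz
    rw [hF, sum_pair hCD] at h5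
    exact h5
  have gC := (h.cp mC).d_ge
  have gD := (h.cp mD).d_ge
  have hs := h.sum_le
  rw [hb, hF, sum_pair hCD] at hs
  push_cast at hs
  have k := h.nk1 hF hCD (p := 2) (by omega)
    (fun x hx y hy hxy e1 e2 => h.ab2 mC (by omega) hx hy hxy e1 e2)
    (fun z hz => by have := hr3 z hz; omega)
  have l := h.nk1 hFD hCD.symm (p := 3) (by omega)
    (fun x hx y hy hxy e1 e2 => h.ab2b mD (by omega) hx hy hxy e1 e2)
    (fun z hz => by have := hr3 z hz; omega)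
  have hD : 1 ≤ dv B Q D := by
    by_contra hcon
    have l := h.nk1 hFD hCD.symm (p := 2) (by omega)
      (fun x hx y hy hxy e1 e2 => h.ab2 mD (by omega) hx hy hxy e1 e2)
      (fun z hz => by have := hr3 z hz; omega)
    obtain ⟨a, b, c, ht⟩ := h.thr
    have ra := hr3 a ht.ma
    have rb := hr3 b ht.mb
    have rc := hr3 c ht.mc
    have k1 := k a ht.ma b ht.mb ht.ab
    have k2 := k a ht.ma c ht.mc ht.ac
    have k3 := k b ht.mb c ht.mc ht.bc
    have k4 := l a ht.ma b ht.mb ht.ab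
    have k5 := l a ht.ma c ht.mc ht.ac
    have k6 := l b ht.mb c ht.mc ht.bc
    omega
  exact ⟨by omega, by omega, hr, k, l⟩

/-- the list of all types of components. -/
theorem Ct3.types (h : Ct3 B Q Z F i0) :
    (∃ C, F = {C}) ∨
    (∃ C D, F = {C, D} ∧ C ≠ D ∧ (ins B Q Z).card = 1 ∧ G2 B Q Z C D) ∨
    (∃ C D, F = {C, D} ∧ C ≠ D ∧ (ins B Q Z).card = 1 ∧ G3 B Q Z C D) ∨
    (∃ C D, F = {C, D} ∧ C ≠ D ∧ (ins B Q Z).card = 2 ∧ G4 B Q Z C D) := by
  classical
  have h1 := h.card_le_two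
  have h2 := card_pos.2 h.F_ne
  obtain ⟨s1, s2, s3, s4⟩ := h.summary
  have s0 := h.ins_pos
  rcases (by omega : F.card = 1 ∨ F.card = 2) with h3 | h3
  · exact Or.inl (card_eq_one.1 h3)
  obtain ⟨C, D, hCD, hF⟩ := card_eq_two.1 h3
  have mC : C ∈ F := by rw [hF]; simp
  have mD : D ∈ F := by rw [hF]; simp
  have hFD : F = {D, C} := by rw [hF, pair_comm]
  right
  rcases (by omega : (ins B Q Z).card = 1 ∨ (ins B Q Z).card = 2) with hb | hb
  · by_cases hC : dv B Q C ≤ 3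
    · by_cases hD : dv B Q D ≤ 3
      · exact Or.inl ⟨C, D, hF, hCD, hb, h.g2 hF hCD hb hC hD⟩
      · exact Or.inr (Or.inl ⟨D, C, hFD, hCD.symm, hb, h.g3 hFD hCD.symm hb hD⟩)
    · exact Or.inr (Or.inl ⟨C, D, hF, hCD, hb, h.g3 hF hCD hb hC⟩)
  · right
    right
    have hs := h.sum_le
    rw [hb, hF, sum_pair hCD] at hs
    push_cast at hs
    by_cases hC : dv B Q C ≤ 0
    · exact ⟨C, D, hF, hCD, hb, h.g4 hF hCD hb hC⟩
    · exact ⟨D, C, hFD, hCD.symm, hb, h.g4 hFD hCD.symm hb (by omega)⟩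

end Pool.Agent.Hyp6
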