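import Pool.Agent.Hyp6.L3Wr
import Pool.Agent.Hyp6.L3T
import Pool.Agent.Hyp6.L3Cnt
import Pool.Agent.Hyp6.L3MB

/-!
# HYP6 L3H2: a leaf seen by one triple and two further points

`Sp5 B Q L i0 p p'`: the connected critical set `L` with value `-1` is seen by the triple `i0` and by two
further points `p`, `p'`, each of them in exactly one block meeting `L`; the rest `R` is arbitrary. The
closings of the rest give the potential of `Q`.
-/

set_option autoImplicit false

namespace Pool.Agent.Hyp6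

open Finset Pool.Agent.Hyp5

universe u v

variable {V : Type v} [DecidableEq V] {ι : Type u} [Fintype ι] {B : ι → Finset V}

/-- a critical set absorbs the points of a block. -/
theorem Crit.abz_block {C A : Finset V} (hcr : Crit B C) (hc : Cov B C) {i : ι}
    (hi : (B i ∩ C).Nonempty) (hA : A ⊆ B i) : Abz B C A := by
  classical
  obtain ⟨x, hx⟩ := hi
  obtain ⟨hx1, hx2⟩ := mem_inter.1 hx
  obtain ⟨T, hT, hTc⟩ := exists_cover (hc.mono (erase_subset x C))
  refine ⟨insert i T, ?_, ?_⟩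
  · intro v hv
    rw [biUnion_insert, mem_union]
    rcases mem_union.1 hv with hv | hv
    · by_cases he : v = x
      · exact Or.inl (he ▸ hx1)
      · exact Or.inr (hT (mem_erase.2 ⟨he, hv⟩))
    · exact Or.inl (hA hv)
  · have h1 := hcr x hx2
    have h2 := card_insert_le i T
    omega

theorem Abz.rho_le' {C A : Finset V} (h : Abz B C A) : rho B (C ∪ A) ≤ rho B C := by
  obtain ⟨T, h1, h2⟩ := h
  exact (rho_le h1).trans h2

theorem rho_add_one {C : Finset V} {x : V} (hc : Cov B (C ∪ {x})) :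
    rho B (C ∪ {x}) ≤ rho B C + 1 := by
  have h1 := rho_le_erase (x := x) hc
  have h2 : (C ∪ {x}).erase x ⊆ C := by
    intro v hv
    rw [mem_erase, mem_union, mem_singleton] at hv
    rcases hv.2 with h | h
    · exact h
    · exact absurd h hv.1
  have h3 := rho_mono h2 (hc.mono subset_union_left)
  omega

/-- the data of a leaf seen by one triple and two points. -/
structure Sp5 (B : ι → Finset V) (Q L : Finset V) (i0 : ι) (p p' : V) : Prop where
  ih : IHE.{u} V Q.card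
  ihq : IHQ.{u} V Q.card
  reg : Reg B Q
  tr : Tr3 B Q
  conn : Conn (gr B) Q
  s1 : 1 ≤ sv B Q
  c3 : (B i0 ∩ Q).card = 3
  connC : Conn (gr B) (Q \ (B i0 ∩ Q))
  critC : Crit B (Q \ (B i0 ∩ Q))
  rhoC : rho B (Q \ (B i0 ∩ Q)) + 1 = rho B Q
  eeT : ee B Q (B i0 ∩ Q) = 0
  LQ : L ⊆ Q \ (B i0 ∩ Q)
  connL : Conn (gr B) L
  critL : Crit B L
  svL : sv B L = -1
  hp : p ∈ Q \ (B i0 ∩ Q)
  hp' : p' ∈ Q \ (B i0 ∩ Q)
  pL : p ∉ L
  pL' : p' ∉ L
  pp : p ≠ p'
  contact : ∀ i, (B i ∩ L).Nonempty → B i ∩ Q ⊆ L ∪ ((B i0 ∩ Q) ∪ {p, p'})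
  e1 : (Ez B L p).card = 1
  e1' : (Ez B L p').card = 1

/-- the contact set. -/
def Xs (B : ι → Finset V) (Q : Finset V) (i0 : ι) (p p' : V) : Finset V := (B i0 ∩ Q) ∪ {p, p'}

/-- the rest. -/
def Rs5 (B : ι → Finset V) (Q L : Finset V) (i0 : ι) (p p' : V) : Finset V :=
  (Q \ Xs B Q i0 p p') \ L

namespace Sp5

variable {Q L : Finset V} {i0 : ι} {p p' : V}

theorem symm (h : Sp5 B Q L i0 p p') : Sp5 B Q L i0 p' p where
  ih := h.ih
  ihq := h.ihq
  reg := h.reg
  tr := h.tr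
  conn := h.conn
  s1 := h.s1
  c3 := h.c3
  connC := h.connC
  critC := h.critC
  rhoC := h.rhoC
  eeT := h.eeT
  LQ := h.LQ
  connL := h.connL
  critL := h.critL
  svL := h.svL
  hp := h.hp'
  hp' := h.hp
  pL := h.pL'
  pL' := h.pL
  pp := h.pp.symm
  contact := fun i hi => by rw [pair_comm]; exact h.contact i hi
  e1 := h.e1'
  e1' := h.e1

omit [Fintype ι] in
theorem Xs_symm : Xs B Q i0 p' p = Xs B Q i0 p p' := by
  unfold Xs
  rw [pair_comm]

omit [Fintype ι] in
theorem Rs5_symm : Rs5 B Q L i0 p' p = Rs5 B Q L i0 p p' := by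
  unfold Rs5
  rw [Xs_symm]

theorem pQ (h : Sp5 B Q L i0 p p') : p ∈ Q := (mem_sdiff.1 h.hp).1

theorem pQ' (h : Sp5 B Q L i0 p p') : p' ∈ Q := (mem_sdiff.1 h.hp').1

theorem pT (h : Sp5 B Q L i0 p p') : p ∉ B i0 := fun h1 =>
  (mem_sdiff.1 h.hp).2 (mem_inter.2 ⟨h1, h.pQ⟩)

theorem pT' (h : Sp5 B Q L i0 p p') : p' ∉ B i0 := fun h1 =>
  (mem_sdiff.1 h.hp').2 (mem_inter.2 ⟨h1, h.pQ'⟩)

theorem cov (h : Sp5 B Q L i0 p p') : Cov B Q := cov_of_reg h.reg

theorem LQ' (h : Sp5 B Q L i0 p p') : L ⊆ Q := h.LQ.trans sdiff_subset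

theorem XQ (h : Sp5 B Q L i0 p p') : Xs B Q i0 p p' ⊆ Q := by
  intro v hv
  unfold Xs at hv
  rw [mem_union, mem_insert, mem_singleton] at hv
  rcases hv with hv | rfl | rfl
  · exact (mem_inter.1 hv).2
  · exact h.pQ
  · exact h.pQ'

theorem cX (h : Sp5 B Q L i0 p p') : (Xs B Q i0 p p').card = 5 := by
  unfold Xs
  rw [card_union_of_disjoint, h.c3, card_pair h.pp]
  rw [disjoint_left]
  intro v hv hv'
  rw [mem_insert, mem_singleton] at hv'
  rcases hv' with rfl | rfl
  · exact h.pT (mem_inter.1 hv).1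
  · exact h.pT' (mem_inter.1 hv).1

theorem LX (h : Sp5 B Q L i0 p p') : Disjoint L (Xs B Q i0 p p') := by
  rw [disjoint_left]
  intro v hv hv'
  unfold Xs at hv'
  rw [mem_union, mem_insert, mem_singleton] at hv'
  rcases hv' with hv' | rfl | rfl
  · exact (mem_sdiff.1 (h.LQ hv)).2 hv'
  · exact h.pL hv
  · exact h.pL' hv

theorem LsX (h : Sp5 B Q L i0 p p') : L ⊆ Q \ Xs B Q i0 p p' := fun _ hv =>
  mem_sdiff.2 ⟨h.LQ' hv, fun h1 => disjoint_left.1 h.LX hv h1⟩

theorem RsQ (_h : Sp5 B Q L i0 p p') : Rs5 B Q L i0 p p' ⊆ Q := sdiff_subset.trans sdiff_subset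

theorem sep (h : Sp5 B Q L i0 p p') : Sep B L (Rs5 B Q L i0 p p') := by
  intro i h1 h2
  obtain ⟨v, hv⟩ := h2
  obtain ⟨hv1, hv2⟩ := mem_inter.1 hv
  have h3 := h.contact i h1 (mem_inter.2 ⟨hv1, h.RsQ hv2⟩)
  unfold Rs5 at hv2
  rw [mem_sdiff, mem_sdiff] at hv2
  rcases mem_union.1 h3 with h4 | h4
  · exact hv2.2 h4
  · exact hv2.1.2 h4

theorem LR (_h : Sp5 B Q L i0 p p') : Disjoint L (Rs5 B Q L i0 p p') := disjoint_sdiff

theorem XR (_h : Sp5 B Q L i0 p p') : Disjoint (Rs5 B Q L i0 p p') (Xs B Q i0 p p') :=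
  disjoint_of_subset_left sdiff_subset sdiff_disjoint

theorem QX (h : Sp5 B Q L i0 p p') : Q \ Xs B Q i0 p p' = L ∪ Rs5 B Q L i0 p p' := by
  unfold Rs5
  rw [union_sdiff_of_subset h.LsX]

theorem card_eq (h : Sp5 B Q L i0 p p') : Q.card = L.card + (Rs5 B Q L i0 p p').card + 5 := by
  have h1 := card_sdiff_add_card_eq_card h.XQ
  rw [h.QX, card_union_of_disjoint h.LR, h.cX] at h1
  omega

theorem covL (h : Sp5 B Q L i0 p p') : Cov B L := h.cov.mono h.LQ'

theorem covR (h : Sp5 B Q L i0 p p') : Cov B (Rs5 B Q L i0 p p') := h.cov.mono h.RsQ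

theorem absP (h : Sp5 B Q L i0 p p') : Abz B L {p} := by
  obtain ⟨i, hi⟩ := card_pos.1 (by rw [h.e1]; norm_num : 0 < (Ez B L p).card)
  rw [mem_Ez] at hi
  exact h.critL.abz_block h.covL hi.2 (singleton_subset_iff.2 hi.1)

theorem rho_eq (h : Sp5 B Q L i0 p p') :
    rho B Q = rho B L + rho B (Rs5 B Q L i0 p p') + 2 := by
  have h1 := h.rhoC
  have h2 := h.critC p h.hp
  have h3 : L ∪ Rs5 B Q L i0 p p' ⊆ (Q \ (B i0 ∩ Q)).erase p := by
    intro v hv
    rw [← h.QX, mem_sdiff] at hv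
    unfold Xs at hv
    rw [mem_union, mem_insert, mem_singleton] at hv
    push Not at hv
    rw [mem_erase, mem_sdiff]
    exact ⟨hv.2.2.1, hv.1, hv.2.1⟩
  have h4 := rho_mono h3 (h.cov.mono ((erase_subset _ _).trans sdiff_subset))
  rw [rho_add h.covL h.covR h.sep] at h4
  have h5 : Q \ (B i0 ∩ Q) ⊆ (L ∪ {p}) ∪ (Rs5 B Q L i0 p p' ∪ {p'}) := by
    intro v hv
    obtain ⟨hv1, hv2⟩ := mem_sdiff.1 hv
    by_cases hX : v ∈ Xs B Q i0 p p'
    · unfold Xs at hX
      rw [mem_union, mem_insert, mem_singleton] at hX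
      rcases hX with hX | rfl | rfl
      · exact absurd hX hv2
      · simp
      · simp
    · have h6 : v ∈ L ∪ Rs5 B Q L i0 p p' := by
        rw [← h.QX]
        exact mem_sdiff.2 ⟨hv1, hX⟩
      rcases mem_union.1 h6 with h7 | h7
      · simp [h7]
      · simp [h7]
  have hcL : Cov B (L ∪ {p}) := h.covL.union (h.cov.mono (singleton_subset_iff.2 h.pQ))
  have hcR : Cov B (Rs5 B Q L i0 p p' ∪ {p'}) :=
    h.covR.union (h.cov.mono (singleton_subset_iff.2 h.pQ'))
  have h6 := rho_mono h5 (hcL.union hcR)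
  have h7 := rho_union_le hcL hcR
  have h8 := h.absP.rho_le'
  have h9 := rho_add_one hcR
  omega

/-- the rest refuses `p'`. -/
theorem ref' (h : Sp5 B Q L i0 p p') {Y : Finset V} (hY : Y ⊆ Q) (hpY : p' ∈ Y) :
    rho B (Rs5 B Q L i0 p p') + 1 ≤ rho B (Rs5 B Q L i0 p p' ∪ Y) := by
  have h1 := h.rhoC
  have h2 := h.rho_eq
  have h5 : Q \ (B i0 ∩ Q) ⊆ (L ∪ {p}) ∪ (Rs5 B Q L i0 p p' ∪ Y) := by
    intro v hv
    obtain ⟨hv1, hv2⟩ := mem_sdiff.1 hv
    by_cases hX : v ∈ Xs B Q i0 p p'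
    · unfold Xs at hX
      rw [mem_union, mem_insert, mem_singleton] at hX
      rcases hX with hX | rfl | rfl
      · exact absurd hX hv2
      · simp
      · simp [hpY]
    · have h6 : v ∈ L ∪ Rs5 B Q L i0 p p' := by
        rw [← h.QX]
        exact mem_sdiff.2 ⟨hv1, hX⟩
      rcases mem_union.1 h6 with h7 | h7
      · simp [h7]
      · simp [h7]
  have hcL : Cov B (L ∪ {p}) := h.covL.union (h.cov.mono (singleton_subset_iff.2 h.pQ))
  have hcR : Cov B (Rs5 B Q L i0 p p' ∪ Y) := h.covR.union (h.cov.mono hY)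
  have h6 := rho_mono h5 (hcL.union hcR)
  have h7 := rho_union_le hcL hcR
  have h8 := h.absP.rho_le'
  omega

/-- the rest refuses `p`. -/
theorem ref (h : Sp5 B Q L i0 p p') {Y : Finset V} (hY : Y ⊆ Q) (hpY : p ∈ Y) :
    rho B (Rs5 B Q L i0 p p') + 1 ≤ rho B (Rs5 B Q L i0 p p' ∪ Y) := by
  have h1 := h.symm.ref' hY hpY
  rwa [Rs5_symm] at h1

/-- the rest refuses by two what the leaf leaves. -/
theorem ref2 (h : Sp5 B Q L i0 p p') {A Y : Finset V} (hA : Abz B L A) (hAQ : A ⊆ Q)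
    (hY : Y ⊆ Q) (hX : Xs B Q i0 p p' ⊆ A ∪ Y) :
    rho B (Rs5 B Q L i0 p p') + 2 ≤ rho B (Rs5 B Q L i0 p p' ∪ Y) := by
  have h5 : Q ⊆ (L ∪ A) ∪ (Rs5 B Q L i0 p p' ∪ Y) := by
    intro v hv
    by_cases hXv : v ∈ Xs B Q i0 p p'
    · rcases mem_union.1 (hX hXv) with h6 | h6
      · simp [h6]
      · simp [h6]
    · have h6 : v ∈ L ∪ Rs5 B Q L i0 p p' := by
        rw [← h.QX]
        exact mem_sdiff.2 ⟨hv, hXv⟩
      rcases mem_union.1 h6 with h7 | h7
      · simp [h7]
      · simp [h7]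
  have hcL : Cov B (L ∪ A) := h.covL.union (h.cov.mono hAQ)
  have hcR : Cov B (Rs5 B Q L i0 p p' ∪ Y) := h.covR.union (h.cov.mono hY)
  have h6 := rho_mono h5 (hcL.union hcR)
  have h7 := rho_union_le hcL hcR
  have h8 := hA.rho_le'
  have h9 := h.rho_eq
  omega

theorem svR (h : Sp5 B Q L i0 p p') : sv B (Rs5 B Q L i0 p p') = sv B Q := by
  have h1 := h.rho_eq
  have h2 := h.card_eq
  have h3 := h.svL
  unfold sv at h3 ⊢
  rw [h1, h2]
  push_cast
  linarith

theorem Pv_eq5 (h : Sp5 B Q L i0 p p') : Pv B Q = Pv B L + Pv B (Rs5 B Q L i0 p p') - 23 +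
    4 * ((ins B Q (Xs B Q i0 p p')).card : ℤ) := by
  have h1 := Pv_sdiff (B := B) h.XQ
  rw [h.QX, Pv_add h.covL h.covR h.LR h.sep, rho_add h.covL h.covR h.sep, h.cX, h.rho_eq] at h1
  push_cast at h1
  linarith

theorem ee_eq (h : Sp5 B Q L i0 p p') : ee B Q Q = ee B Q L + ee B Q (Rs5 B Q L i0 p p') +
    ee B Q {p, p'} := by
  have h1 : Q = (L ∪ Rs5 B Q L i0 p p') ∪ ((B i0 ∩ Q) ∪ {p, p'}) := by
    rw [← h.QX]
    exact (sdiff_union_of_subset h.XQ).symm
  have h2 : ee B Q Q = ee B Q ((L ∪ Rs5 B Q L i0 p p') ∪ ((B i0 ∩ Q) ∪ {p, p'})) := by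
    rw [← h1]
  rw [h2, ee_union, ee_union h.LR, ee_union, h.eeT, Nat.zero_add]
  · rw [disjoint_left]
    intro v hv hv'
    rw [mem_insert, mem_singleton] at hv'
    rcases hv' with rfl | rfl
    · exact h.pT (mem_inter.1 hv).1
    · exact h.pT' (mem_inter.1 hv).1
  · rw [← h.QX]
    exact sdiff_disjoint

open Classical in
/-- the old blocks of a point which are kept. -/
noncomputable def Os (B : ι → Finset V) (L : Finset V) (i0 : ι) (y : V) : Finset ι :=
  univ.filter (fun i => y ∈ B i ∧ i ≠ i0 ∧ B i ∩ L = ∅)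

theorem mem_Os {y : V} {i : ι} : i ∈ Os B L i0 y ↔ y ∈ B i ∧ i ≠ i0 ∧ B i ∩ L = ∅ := by
  simp [Os]

/-- five blocks. -/
theorem five (h : Sp5 B Q L i0 p p') {y : V} (hy : y ∈ Q) :
    (Os B L i0 y).card + (Ez B L y).card + (if y ∈ B i0 then 1 else 0) = 5 := by
  classical
  have h1 := h.reg y hy
  have hdis : ∀ i, i = i0 → (B i ∩ L) = ∅ := by
    rintro i rfl
    rw [eq_empty_iff_forall_notMem]
    intro v hv
    obtain ⟨hv1, hv2⟩ := mem_inter.1 hv
    exact (mem_sdiff.1 (h.LQ hv2)).2 (mem_inter.2 ⟨hv1, h.LQ' hv2⟩)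
  have h2 : univ.filter (fun i => y ∈ B i) =
      (Os B L i0 y ∪ Ez B L y) ∪ (if y ∈ B i0 then {i0} else ∅) := by
    ext i
    rw [mem_filter, mem_union, mem_union, mem_Os, mem_Ez]
    constructor
    · rintro ⟨_, hi⟩
      by_cases he : i = i0
      · subst he
        rw [if_pos hi]
        exact Or.inr (mem_singleton_self _)
      · rcases (B i ∩ L).eq_empty_or_nonempty with h3 | h3
        · exact Or.inl (Or.inl ⟨hi, he, h3⟩)
        · exact Or.inl (Or.inr ⟨hi, h3⟩)
    · rintro ((h3 | h3) | h3)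
      · exact ⟨mem_univ _, h3.1⟩
      · exact ⟨mem_univ _, h3.1⟩
      · split_ifs at h3 with h4
        · rw [mem_singleton] at h3
          subst h3
          exact ⟨mem_univ _, h4⟩
        · exact absurd h3 (notMem_empty _)
  rw [← h1, h2, card_union_of_disjoint, card_union_of_disjoint]
  · congr 1
    split_ifs <;> simp
  · rw [disjoint_left]
    intro i hi hi'
    rw [mem_Os] at hi
    rw [mem_Ez, hi.2.2] at hi'
    exact absurd hi'.2 (by simp)
  · rw [disjoint_left]
    intro i hi hi'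
    split_ifs at hi' with h4
    · rw [mem_singleton] at hi'
      subst hi'
      rcases mem_union.1 hi with h5 | h5
      · exact (mem_Os.1 h5).2.1 rfl
      · have h6 := (mem_Ez.1 h5).2
        rw [hdis _ rfl] at h6
        exact absurd h6 (by simp)
    · exact absurd hi' (notMem_empty _)

/-- the closing of the rest. -/
theorem cl (h : Sp5 B Q L i0 p p') {κ : Type u} [Fintype κ] {Y : Finset V} {E : V → Finset ι}
    {N : κ → Finset V} (hw : Wir B Q (Rs5 B Q L i0 p p') Y E N) (hYX : Y ⊆ Xs B Q i0 p p')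
    (hpY : p ∈ Y) (hpY' : p' ∈ Y) (hE : ∀ y ∈ Y, E y ⊆ Os B L i0 y)
    (hEp : E p = Os B L i0 p) (hEp' : E p' = Os B L i0 p')
    (hYc : ∀ Z, Closed (gr (absG B (Rs5 B Q L i0 p p') Y E N)) (Rs5 B Q L i0 p p' ∪ Y) Z →
      (Z ∩ Y).Nonempty → Y ⊆ Z)
    (hK : ¬ KT (absG B (Rs5 B Q L i0 p p') Y E N) (Rs5 B Q L i0 p p' ∪ Y))
    (hY3 : 3 ≤ Y.card)
    (hrho : rho B (Rs5 B Q L i0 p p') + 2 ≤
      rho (absG B (Rs5 B Q L i0 p p') Y E N) (Rs5 B Q L i0 p p' ∪ Y))
    {Y2 : Finset V} (hY2 : Y2 ⊆ Y) (hpY2 : p ∉ Y2) (hpY2' : p' ∉ Y2)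
    (hN2 : ∀ y ∈ Y2, 2 ≤ (univ.filter (fun c => N c = {y})).card) :
    Pv B L + 2 * ((ee B Q Q : ℤ) - ee B Q L + Y2.card) + 28 ≤
      Pv B Q + 5 * (Y.card : ℤ) + 4 * (Fintype.card κ : ℤ) ∧
    Pv B L + 29 ≤ Pv B Q + 5 * (Y.card : ℤ) + 4 * (Fintype.card κ : ℤ) := by
  classical
  set R := Rs5 B Q L i0 p p' with hR
  set X := Xs B Q i0 p p' with hX
  have hRne : ∀ i, (B i ∩ R).Nonempty → B i ∩ L = ∅ := by
    intro i hi
    rw [← not_nonempty_iff_eq_empty]
    exact fun h1 => h.sep i h1 hi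
  have hi0R : ∀ i, (B i ∩ R).Nonempty → i ≠ i0 := by
    rintro i hi rfl
    obtain ⟨v, hv⟩ := hi
    obtain ⟨hv1, hv2⟩ := mem_inter.1 hv
    have h1 : v ∈ X := mem_union_left _ (mem_inter.2 ⟨hv1, h.RsQ hv2⟩)
    exact disjoint_left.1 h.XR hv2 h1
  -- a closed set without `p`, `p'` has no point in the rest
  have hnoR : ∀ Z, Closed (gr (absG B R Y E N)) (R ∪ Y) Z → p ∉ Z → p' ∉ Z → Z ∩ R = ∅ := by
    intro Z hZ h1 h2
    by_contra hcon
    have hne := nonempty_iff_ne_empty.2 hcon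
    have hcl : Closed (gr B) (Q \ (B i0 ∩ Q)) (Z ∩ R) := by
      refine ⟨?_, ?_⟩
      · intro v hv
        have hv2 := (mem_inter.1 hv).2
        rw [mem_sdiff]
        refine ⟨h.RsQ hv2, fun h3 => ?_⟩
        exact disjoint_left.1 h.XR hv2 (mem_union_left _ h3)
      · intro x hx y hy hxy
        obtain ⟨hxZ, hxR⟩ := mem_inter.1 hx
        obtain ⟨hyQ, hyT⟩ := mem_sdiff.1 hy
        by_cases hyX : y ∈ X
        · exfalso
          rw [hX] at hyX
          unfold Xs at hyX
          rw [mem_union, mem_insert, mem_singleton] at hyX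
          obtain ⟨hne', i, hi1, hi2⟩ := hxy
          have hiR : (B i ∩ R).Nonempty := ⟨x, mem_inter.2 ⟨hi1, hxR⟩⟩
          have hO : ∀ w, w ∈ B i → i ∈ Os B L i0 w := fun w hw' =>
            mem_Os.2 ⟨hw', hi0R i hiR, hRne i hiR⟩
          rcases hyX with h3 | rfl | rfl
          · exact hyT h3
          · refine h1 (hZ.2 x hxZ y (mem_union_right _ hpY) ?_)
            exact (hw.adj_Y hpY hxR (by rw [hEp]; exact hO _ hi2) hi1).symm
          · refine h2 (hZ.2 x hxZ y (mem_union_right _ hpY') ?_)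
            exact (hw.adj_Y hpY' hxR (by rw [hEp']; exact hO _ hi2) hi1).symm
        · have hyLR : y ∈ L ∪ R := by
            rw [← h.QX]
            exact mem_sdiff.2 ⟨hyQ, hyX⟩
          rcases mem_union.1 hyLR with h3 | h3
          · exfalso
            obtain ⟨_, i, hi1, hi2⟩ := hxy
            exact h.sep i ⟨y, mem_inter.2 ⟨hi2, h3⟩⟩ ⟨x, mem_inter.2 ⟨hi1, hxR⟩⟩
          · exact mem_inter.2 ⟨hZ.2 x hxZ y (mem_union_left _ h3) (hw.adj_C hxR h3 hxy), h3⟩
    have h3 := h.connC.2 _ hcl hne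
    have h4 : p ∈ Z ∩ R := by rw [h3]; exact h.hp
    exact h1 (mem_inter.1 h4).1
  have hconn : Conn (gr (absG B R Y E N)) (R ∪ Y) := by
    refine ⟨⟨p, mem_union_right _ hpY⟩, fun Z hZ hne => ?_⟩
    have h1 : (Z ∩ Y).Nonempty := by
      by_contra hcon
      rw [not_nonempty_iff_eq_empty] at hcon
      have hpZ : p ∉ Z := fun h2 => by
        have : p ∈ Z ∩ Y := mem_inter.2 ⟨h2, hpY⟩
        rw [hcon] at this
        exact absurd this (notMem_empty _)
      have hpZ' : p' ∉ Z := fun h2 => by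
        have : p' ∈ Z ∩ Y := mem_inter.2 ⟨h2, hpY'⟩
        rw [hcon] at this
        exact absurd this (notMem_empty _)
      have h2 := hnoR Z hZ hpZ hpZ'
      obtain ⟨v, hv⟩ := hne
      rcases mem_union.1 (hZ.1 hv) with h3 | h3
      · have : v ∈ Z ∩ R := mem_inter.2 ⟨hv, h3⟩
        rw [h2] at this
        exact absurd this (notMem_empty _)
      · have : v ∈ Z ∩ Y := mem_inter.2 ⟨hv, h3⟩
        rw [hcon] at this
        exact absurd this (notMem_empty _)
    have h2 := hYc Z hZ h1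
    have h3 := hnoR _ (Closed.compl hZ) (fun h4 => (mem_sdiff.1 h4).2 (h2 hpY))
      (fun h4 => (mem_sdiff.1 h4).2 (h2 hpY'))
    refine Subset.antisymm hZ.1 fun v hv => ?_
    rcases mem_union.1 hv with h4 | h4
    · by_contra h5
      have : v ∈ ((R ∪ Y) \ Z) ∩ R := mem_inter.2 ⟨mem_sdiff.2 ⟨hv, h5⟩, h4⟩
      rw [h3] at this
      exact absurd this (notMem_empty _)
    · exact h2 h4
  have hcYX := card_le_card hYX
  rw [h.cX] at hcYX
  have hLpos : 0 < L.card := card_pos.2 h.connL.1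
  have hS : ∀ y ∈ Y, ∀ i ∈ E y, (B i ∩ R) = ∅ → i ∈ (ins B Q X).erase i0 := by
    intro y hy i hi hiR
    have h1 := mem_Os.1 (hE y hy hi)
    rw [mem_erase, mem_ins]
    refine ⟨h1.2.1, ⟨y, mem_inter.2 ⟨h1.1, hw.YQ hy⟩⟩, ?_⟩
    intro v hv
    obtain ⟨hv1, hv2⟩ := mem_inter.1 hv
    by_contra hvX
    have h2 : v ∈ L ∪ R := by
      rw [← h.QX]
      exact mem_sdiff.2 ⟨hv2, hvX⟩
    rcases mem_union.1 h2 with h3 | h3
    · have : v ∈ B i ∩ L := mem_inter.2 ⟨hv1, h3⟩
      rw [h1.2.2] at this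
      exact absurd this (notMem_empty _)
    · have : v ∈ B i ∩ R := mem_inter.2 ⟨hv1, h3⟩
      rw [hiR] at this
      exact absurd this (notMem_empty _)
  have hSc : ((ins B Q X).erase i0).card + 1 = (ins B Q X).card := by
    refine card_erase_add_one ?_
    rw [mem_ins]
    refine ⟨card_pos.1 (by rw [h.c3]; norm_num), ?_⟩
    exact subset_union_left
  have hpair : ({p, p'} : Finset V) ⊆ Y := by
    intro v hv
    rw [mem_insert, mem_singleton] at hv
    rcases hv with rfl | rfl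
    · exact hpY
    · exact hpY'
  have hsing : ∀ w, w ∉ L → w ∉ B i0 → w ∈ Q → ∀ i, B i ∩ Q = {w} → i ∈ Os B L i0 w := by
    intro w hwL hwT hwQ i hi
    have h1 : w ∈ B i ∩ Q := by rw [hi]; exact mem_singleton_self w
    refine mem_Os.2 ⟨(mem_inter.1 h1).1, ?_, ?_⟩
    · rintro rfl
      exact hwT (mem_inter.1 h1).1
    · rw [eq_empty_iff_forall_notMem]
      intro v hv
      obtain ⟨hv1, hv2⟩ := mem_inter.1 hv
      have h2 : v ∈ B i ∩ Q := mem_inter.2 ⟨hv1, h.LQ' hv2⟩
      rw [hi, mem_singleton] at h2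
      exact hwL (h2 ▸ hv2)
  have hN1 : ∀ y ∈ ({p, p'} : Finset V), ∀ i, B i ∩ Q = {y} → i ∈ E y := by
    intro y hy i hi
    rw [mem_insert, mem_singleton] at hy
    rcases hy with rfl | rfl
    · rw [hEp]
      exact hsing _ h.pL h.pT h.pQ i hi
    · rw [hEp']
      exact hsing _ h.pL' h.pT' h.pQ' i hi
  have hd12 : Disjoint ({p, p'} : Finset V) Y2 := by
    rw [disjoint_left]
    intro v hv hv'
    rw [mem_insert, mem_singleton] at hv
    rcases hv with rfl | rfl
    · exact hpY2 hv'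
    · exact hpY2' hv'
  have hcl := hw.close h.ih h.ihq (by
      have := h.card_eq
      rw [← hR] at this
      omega) h.reg h.tr hconn hK hS hrho (by
      have h1 := h.svR
      have h2 := h.s1
      rw [← hR] at h1
      rw [h1]
      push_cast
      have : (3 : ℤ) ≤ Y.card := by exact_mod_cast hY3
      linarith) hpair hY2 hd12 hN1 hN2
  have hPv := h.Pv_eq5
  rw [← hR, ← hX] at hPv
  have hee := h.ee_eq
  rw [← hR] at hee
  have hee' : (ee B Q Q : ℤ) = ee B Q L + ee B Q R + ee B Q {p, p'} := by exact_mod_cast hee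
  have hSc' : (((ins B Q X).erase i0).card : ℤ) + 1 = (ins B Q X).card := by exact_mod_cast hSc
  obtain ⟨h1, h2⟩ := hcl
  push_cast at h1 h2
  constructor <;> linarith

/-- the new blocks of the closing at one point. -/
def nA (z p p' : V) (c : ℕ) : Finset V := if c = 0 then {z, p'} else if c = 1 then {z, p} else {z}

/-- **closing at one point of the triple**: `s` new blocks through `z`. -/
theorem clA (h : Sp5 B Q L i0 p p') {z : V} (hz : z ∈ B i0 ∩ Q) {Ez' : Finset ι} {s : ℕ}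
    (hE : Ez' ⊆ Os B L i0 z) (hs2 : 2 ≤ s) (hcard : Ez'.card + s = 5)
    (habs : Ez' = ∅ ∨ Abz B L ((B i0 ∩ Q).erase z)) :
    Pv B L + 2 * ((ee B Q Q : ℤ) - ee B Q L + (if 4 ≤ s then 1 else 0)) + 13 ≤
      Pv B Q + 4 * (s : ℤ) ∧ Pv B L + 14 ≤ Pv B Q + 4 * (s : ℤ) := by
  classical
  obtain ⟨hzT, hzQ⟩ := mem_inter.1 hz
  have hzp : z ≠ p := fun he => h.pT (he ▸ hzT)
  have hzp' : z ≠ p' := fun he => h.pT' (he ▸ hzT)
  set Y : Finset V := {z, p, p'} with hY
  obtain ⟨E, hE0, hE1, hE2⟩ : ∃ E : V → Finset ι, E z = Ez' ∧ E p = Os B L i0 p ∧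
      E p' = Os B L i0 p' :=
    ⟨fun v => if v = z then Ez' else Os B L i0 v, if_pos rfl, if_neg hzp.symm, if_neg hzp'.symm⟩
  set N : ULift.{u} (Fin s) → Finset V := fun c => nA z p p' (c.down : ℕ) with hN
  have hor : ∀ y ∈ Y, y = z ∨ y = p ∨ y = p' := fun y hy => by
    rw [hY] at hy
    simpa using hy
  have hzY : z ∈ Y := by simp [hY]
  have hpY : p ∈ Y := by simp [hY]
  have hpY' : p' ∈ Y := by simp [hY]
  have hYX : Y ⊆ Xs B Q i0 p p' := by
    intro v hv
    unfold Xs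
    rcases hor v hv with rfl | rfl | rfl
    · exact mem_union_left _ hz
    · simp
    · simp
  have hcY : Y.card = 3 := card_eq_three.2 ⟨z, p, p', hzp, hzp', h.pp, rfl⟩
  have hzN : ∀ c : ULift.{u} (Fin s), z ∈ N c := by
    intro c
    simp only [hN, nA]
    split_ifs <;> simp
  have hpN : ∀ c : ULift.{u} (Fin s), p ∈ N c ↔ (c.down : ℕ) = 1 := by
    intro c
    simp only [hN, nA]
    split_ifs with h1 h2
    · simp [h1, hzp.symm, h.pp]
    · simp [h2]
    · simp [h2, hzp.symm]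
  have hpN' : ∀ c : ULift.{u} (Fin s), p' ∈ N c ↔ (c.down : ℕ) = 0 := by
    intro c
    simp only [hN, nA]
    split_ifs with h1 h2
    · simp [h1]
    · simp [h2, hzp'.symm, h.pp.symm]
    · simp [h1, hzp'.symm]
  have h5p := h.five h.pQ
  have h5p' := h.five h.pQ'
  rw [h.e1, if_neg h.pT] at h5p
  rw [h.e1', if_neg h.pT'] at h5p'
  have hcs : Fintype.card (ULift.{u} (Fin s)) = s := by
    rw [Fintype.card_ulift, Fintype.card_fin]
  have hone : ∀ k, k < s → (univ.filter (fun c : ULift.{u} (Fin s) => (c.down : ℕ) = k)).card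
      = 1 := by
    intro k hk
    rw [card_eq_one]
    refine ⟨⟨⟨k, hk⟩⟩, ?_⟩
    ext c
    rw [mem_filter, mem_singleton]
    constructor
    · rintro ⟨_, hc⟩
      exact ULift.down_injective (Fin.ext hc)
    · rintro rfl
      exact ⟨mem_univ _, rfl⟩
  have hw : Wir B Q (Rs5 B Q L i0 p p') Y E N := by
    refine ⟨h.RsQ, hYX.trans h.XQ, disjoint_of_subset_right hYX h.XR, ?_, ?_, ?_, ?_⟩
    · intro y hy i hi
      rcases hor y hy with rfl | rfl | rfl
      · rw [hE0] at hi
        exact (mem_Os.1 (hE hi)).1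
      · rw [hE1] at hi
        exact (mem_Os.1 hi).1
      · rw [hE2] at hi
        exact (mem_Os.1 hi).1
    · intro c v hv
      simp only [hN, nA] at hv
      rw [hY]
      split_ifs at hv <;> simp only [mem_insert, mem_singleton] at hv ⊢ <;> tauto
    · intro y hy
      rcases hor y hy with rfl | rfl | rfl
      · rw [hE0, filter_true_of_mem fun c _ => hzN c, card_univ, hcs]
        exact hcard
      · rw [hE1]
        simp only [hpN]
        rw [hone 1 (by omega)]
        omega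
      · rw [hE2]
        simp only [hpN']
        rw [hone 0 (by omega)]
        omega
    · intro c
      simp only [hN, nA]
      split_ifs
      · exact card_le_two.trans (by norm_num)
      · exact card_le_two.trans (by norm_num)
      · simp
  have hYc : ∀ Z, Closed (gr (absG B (Rs5 B Q L i0 p p') Y E N)) (Rs5 B Q L i0 p p' ∪ Y) Z →
      (Z ∩ Y).Nonempty → Y ⊆ Z := by
    intro Z hZ hne
    have hz0 : z ∈ N ⟨⟨0, by omega⟩⟩ := hzN _
    have hp0 : p' ∈ N ⟨⟨0, by omega⟩⟩ := (hpN' _).2 rfl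
    have hz1 : z ∈ N ⟨⟨1, by omega⟩⟩ := hzN _
    have hp1 : p ∈ N ⟨⟨1, by omega⟩⟩ := (hpN _).2 rfl
    have key : z ∈ Z → Y ⊆ Z := by
      intro h1 v hv
      rcases hor v hv with rfl | rfl | rfl
      · exact h1
      · exact hZ.2 _ h1 _ (mem_union_right _ hpY) (hw.adj_N hzp hz1 hp1)
      · exact hZ.2 _ h1 _ (mem_union_right _ hpY') (hw.adj_N hzp' hz0 hp0)
    obtain ⟨y, hy⟩ := hne
    obtain ⟨hyZ, hyY⟩ := mem_inter.1 hy
    rcases hor y hyY with rfl | rfl | rfl
    · exact key hyZ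
    · exact key (hZ.2 _ hyZ _ (mem_union_right _ hzY) (hw.adj_N hzp.symm hp1 hz1))
    · exact key (hZ.2 _ hyZ _ (mem_union_right _ hzY) (hw.adj_N hzp'.symm hp0 hz0))
  have hK : ¬ KT (absG B (Rs5 B Q L i0 p p') Y E N) (Rs5 B Q L i0 p p' ∪ Y) := by
    intro hK
    have hin := hw.inter_self (Sum.inr ⟨⟨0, by omega⟩⟩)
    have h1 := hK.trace (hw.reg h.reg) (hw.tr3 h.tr) (i := Sum.inr ⟨⟨0, by omega⟩⟩) (by
      rw [hin]
      exact ⟨z, mem_absG_inr.2 (hzN _)⟩)
    rw [hin] at h1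
    have h2 : absG B (Rs5 B Q L i0 p p') Y E N (Sum.inr ⟨⟨0, by omega⟩⟩) ⊆ {z, p'} := by
      intro v hv
      rw [mem_absG_inr] at hv
      simpa [hN, nA] using hv
    have h3 := card_le_card h2
    have h4 : ({z, p'} : Finset V).card ≤ 2 := card_le_two
    omega
  have hrho : rho B (Rs5 B Q L i0 p p') + 2 ≤
      rho (absG B (Rs5 B Q L i0 p p') Y E N) (Rs5 B Q L i0 p p' ∪ Y) := by
    refine hw.rho_ge' h.reg fun K Y' hY' hYE hYK => ?_
    have hY'Q : Y' ⊆ Q := hY'.trans (hYX.trans h.XQ)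
    rcases K.eq_empty_or_nonempty with rfl | hKne
    · have hall : Y ⊆ Y' := fun y hy => hYK y hy (fun c hc => absurd hc (notMem_empty _))
      rcases habs with h1 | h1
      · have h2 := hYE z (hall hzY)
        rw [hE0, h1] at h2
        exact absurd h2 (by simp)
      · have h2 := h.ref2 (A := (B i0 ∩ Q).erase z) (Y := Y') h1
          ((erase_subset _ _).trans inter_subset_right) hY'Q (by
            intro v hv
            unfold Xs at hv
            rw [mem_union, mem_insert, mem_singleton] at hv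
            rw [mem_union]
            rcases hv with hv | rfl | rfl
            · by_cases hvz : v = z
              · exact Or.inr (hvz ▸ hall hzY)
              · exact Or.inl (mem_erase.2 ⟨hvz, hv⟩)
            · exact Or.inr (hall hpY)
            · exact Or.inr (hall hpY'))
        omega
    · have hKpos := card_pos.2 hKne
      have hmono : rho B (Rs5 B Q L i0 p p') ≤ rho B (Rs5 B Q L i0 p p' ∪ Y') :=
        rho_mono subset_union_left (h.covR.union (h.cov.mono hY'Q))
      rcases (by omega : K.card = 1 ∨ 2 ≤ K.card) with h1 | h1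
      · obtain ⟨c, rfl⟩ := card_eq_one.1 h1
        by_cases hc : (c.down : ℕ) = 1
        · have h2 : p' ∈ Y' := hYK p' hpY' (fun d hd => by
            rw [mem_singleton.1 hd, hpN']
            omega)
          have h3 := h.ref' hY'Q h2
          omega
        · have h2 : p ∈ Y' := hYK p hpY (fun d hd => by
            rw [mem_singleton.1 hd, hpN]
            exact hc)
          have h3 := h.ref hY'Q h2
          omega
      · omega
  have hfin := h.cl hw hYX hpY hpY' (fun y hy => by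
      rcases hor y hy with rfl | rfl | rfl
      · rw [hE0]
        exact hE
      · rw [hE1]
      · rw [hE2]) hE1 hE2 hYc hK (by rw [hcY]) hrho (Y2 := if 4 ≤ s then {z} else ∅) (by
      split_ifs
      · exact singleton_subset_iff.2 hzY
      · exact empty_subset _) (by
      split_ifs
      · rw [mem_singleton]
        exact hzp.symm
      · exact notMem_empty _) (by
      split_ifs
      · rw [mem_singleton]
        exact hzp'.symm
      · exact notMem_empty _) (by
      intro y hy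
      split_ifs at hy with h4
      · rw [mem_singleton] at hy
        subst hy
        have h5 : ({⟨⟨2, by omega⟩⟩, ⟨⟨3, by omega⟩⟩} : Finset (ULift.{u} (Fin s))) ⊆
            univ.filter (fun c => N c = {y}) := by
          intro c hc
          rw [mem_insert, mem_singleton] at hc
          rw [mem_filter]
          refine ⟨mem_univ _, ?_⟩
          rcases hc with rfl | rfl <;> simp [hN, nA]
        have h6 := card_le_card h5
        rw [card_pair (by simp)] at h6
        exact h6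
      · exact absurd hy (notMem_empty _))
  rw [hcY, hcs] at hfin
  have h7 : ((if 4 ≤ s then ({z} : Finset V) else ∅).card : ℤ) = if 4 ≤ s then 1 else 0 := by
    split_ifs <;> simp
  rw [h7] at hfin
  obtain ⟨h8, h9⟩ := hfin
  push_cast at h8 h9
  constructor <;> linarith

/-- **closing at two points of the triple** with one hit each. -/
theorem clB (h : Sp5 B Q L i0 p p') {x y z : V} (hT : B i0 ∩ Q = {x, y, z}) (hxy : x ≠ y)
    (hxz : x ≠ z) (hyz : y ≠ z) (hx1 : (Ez B L x).card = 1) (hy1 : (Ez B L y).card = 1)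
    (hz1 : (Ez B L z).Nonempty) :
    Pv B L + 2 * ((ee B Q Q : ℤ) - ee B Q L) ≤ Pv B Q ∧ Pv B L + 1 ≤ Pv B Q := by
  classical
  have hxT : x ∈ B i0 ∩ Q := by rw [hT]; simp
  have hyT : y ∈ B i0 ∩ Q := by rw [hT]; simp
  have hzT : z ∈ B i0 ∩ Q := by rw [hT]; simp
  have hne : ∀ w ∈ B i0 ∩ Q, w ≠ p ∧ w ≠ p' := fun w hw =>
    ⟨fun he => h.pT (he ▸ (mem_inter.1 hw).1), fun he => h.pT' (he ▸ (mem_inter.1 hw).1)⟩
  have hxp := (hne x hxT).1
  have hxp' := (hne x hxT).2
  have hyp := (hne y hyT).1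
  have hyp' := (hne y hyT).2
  set Y : Finset V := {x, y, p, p'} with hY
  set N : ULift.{u} (Fin 2) → Finset V := fun c => if c.down = 0 then {x, y, p} else {x, y, p'}
    with hN
  have hor : ∀ w ∈ Y, w = x ∨ w = y ∨ w = p ∨ w = p' := fun w hw => by
    rw [hY] at hw
    simpa using hw
  have hxY : x ∈ Y := by simp [hY]
  have hyY : y ∈ Y := by simp [hY]
  have hpY : p ∈ Y := by simp [hY]
  have hpY' : p' ∈ Y := by simp [hY]
  have hYX : Y ⊆ Xs B Q i0 p p' := by
    intro v hv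
    unfold Xs
    rcases hor v hv with rfl | rfl | rfl | rfl
    · exact mem_union_left _ hxT
    · exact mem_union_left _ hyT
    · simp
    · simp
  have hcY : Y.card = 4 := by
    rw [hY, card_insert_of_notMem, card_insert_of_notMem, card_pair h.pp]
    · simp [hyp, hyp']
    · simp [hxy, hxp, hxp']
  have hxN : ∀ c : ULift.{u} (Fin 2), x ∈ N c := by
    intro c
    simp only [hN]
    split_ifs <;> simp
  have hyN : ∀ c : ULift.{u} (Fin 2), y ∈ N c := by
    intro c
    simp only [hN]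
    split_ifs <;> simp
  have hpN : ∀ c : ULift.{u} (Fin 2), p ∈ N c ↔ c.down = 0 := by
    intro c
    simp only [hN]
    split_ifs with h1
    · simp [h1]
    · simp [h1, hxp.symm, hyp.symm, h.pp]
  have hpN' : ∀ c : ULift.{u} (Fin 2), p' ∈ N c ↔ c.down ≠ 0 := by
    intro c
    simp only [hN]
    split_ifs with h1
    · simp [h1, hxp'.symm, hyp'.symm, h.pp.symm]
    · simp [h1]
  have h5p := h.five h.pQ
  have h5p' := h.five h.pQ'
  have h5x := h.five (mem_inter.1 hxT).2
  have h5y := h.five (mem_inter.1 hyT).2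
  rw [h.e1, if_neg h.pT] at h5p
  rw [h.e1', if_neg h.pT'] at h5p'
  rw [hx1, if_pos (mem_inter.1 hxT).1] at h5x
  rw [hy1, if_pos (mem_inter.1 hyT).1] at h5y
  have hcs : Fintype.card (ULift.{u} (Fin 2)) = 2 := by
    rw [Fintype.card_ulift, Fintype.card_fin]
  have hc0 : (univ.filter (fun c : ULift.{u} (Fin 2) => c.down = 0)).card = 1 := by
    rw [card_eq_one]
    refine ⟨⟨0⟩, ?_⟩
    ext c
    rw [mem_filter, mem_singleton]
    constructor
    · rintro ⟨_, hc⟩
      exact ULift.down_injective hc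
    · rintro rfl
      exact ⟨mem_univ _, rfl⟩
  have hc1 : (univ.filter (fun c : ULift.{u} (Fin 2) => c.down ≠ 0)).card = 1 := by
    rw [card_eq_one]
    refine ⟨⟨1⟩, ?_⟩
    ext c
    rw [mem_filter, mem_singleton]
    constructor
    · rintro ⟨_, hc⟩
      refine ULift.down_injective ?_
      have h1 := c.down.isLt
      refine Fin.ext ?_
      have h2 : (c.down : ℕ) ≠ 0 := fun h3 => hc (Fin.ext h3)
      simp only [Fin.val_one]
      omega
    · rintro rfl
      exact ⟨mem_univ _, by simp⟩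
  have hw : Wir B Q (Rs5 B Q L i0 p p') Y (Os B L i0) N := by
    refine ⟨h.RsQ, hYX.trans h.XQ, disjoint_of_subset_right hYX h.XR, ?_, ?_, ?_, ?_⟩
    · intro y hy i hi
      exact (mem_Os.1 hi).1
    · intro c v hv
      simp only [hN] at hv
      rw [hY]
      split_ifs at hv <;> simp only [mem_insert, mem_singleton] at hv ⊢ <;> tauto
    · intro w hw
      rcases hor w hw with rfl | rfl | rfl | rfl
      · rw [filter_true_of_mem fun c _ => hxN c, card_univ, hcs]
        omega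
      · rw [filter_true_of_mem fun c _ => hyN c, card_univ, hcs]
        omega
      · simp only [hpN]
        rw [hc0]
        omega
      · simp only [hpN']
        rw [hc1]
        omega
    · intro c
      simp only [hN]
      split_ifs <;> exact card_le_three
  have hYc : ∀ Z, Closed (gr (absG B (Rs5 B Q L i0 p p') Y (Os B L i0) N))
      (Rs5 B Q L i0 p p' ∪ Y) Z → (Z ∩ Y).Nonempty → Y ⊆ Z := by
    intro Z hZ hne'
    have hp0 : p ∈ N ⟨0⟩ := (hpN _).2 rfl
    have hp1 : p' ∈ N ⟨1⟩ := (hpN' _).2 (by simp)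
    have key : x ∈ Z → Y ⊆ Z := by
      intro h1 v hv
      rcases hor v hv with rfl | rfl | rfl | rfl
      · exact h1
      · exact hZ.2 _ h1 _ (mem_union_right _ hyY) (hw.adj_N hxy (hxN ⟨0⟩) (hyN ⟨0⟩))
      · exact hZ.2 _ h1 _ (mem_union_right _ hpY) (hw.adj_N hxp (hxN ⟨0⟩) hp0)
      · exact hZ.2 _ h1 _ (mem_union_right _ hpY') (hw.adj_N hxp' (hxN ⟨1⟩) hp1)
    obtain ⟨w, hw1⟩ := hne'
    obtain ⟨hwZ, hwY⟩ := mem_inter.1 hw1
    rcases hor w hwY with rfl | rfl | rfl | rfl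
    · exact key hwZ
    · exact key (hZ.2 _ hwZ _ (mem_union_right _ hxY) (hw.adj_N hxy.symm (hyN ⟨0⟩) (hxN ⟨0⟩)))
    · exact key (hZ.2 _ hwZ _ (mem_union_right _ hxY) (hw.adj_N hxp.symm hp0 (hxN ⟨0⟩)))
    · exact key (hZ.2 _ hwZ _ (mem_union_right _ hxY) (hw.adj_N hxp'.symm hp1 (hxN ⟨1⟩)))
  have hK : ¬ KT (absG B (Rs5 B Q L i0 p p') Y (Os B L i0) N) (Rs5 B Q L i0 p p' ∪ Y) := by
    intro hK
    have h1 := hK.1
    rw [card_union_of_disjoint hw.dis, hcY] at h1
    have h2 := h.svR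
    have h3 := h.s1
    have h4 : (Rs5 B Q L i0 p p').card = 2 := by omega
    have h5 := rho_pos h.covR (card_pos.1 (by omega))
    unfold sv at h2 h3
    rw [h4] at h2
    push_cast at h2
    have h6 : (1 : ℤ) ≤ rho B (Rs5 B Q L i0 p p') := by exact_mod_cast h5
    linarith
  have hrho : rho B (Rs5 B Q L i0 p p') + 2 ≤
      rho (absG B (Rs5 B Q L i0 p p') Y (Os B L i0) N) (Rs5 B Q L i0 p p' ∪ Y) := by
    refine hw.rho_ge' h.reg fun K Y' hY' hYE hYK => ?_
    have hY'Q : Y' ⊆ Q := hY'.trans (hYX.trans h.XQ)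
    rcases K.eq_empty_or_nonempty with rfl | hKne
    · have hall : Y ⊆ Y' := fun y hy => hYK y hy (fun c hc => absurd hc (notMem_empty _))
      obtain ⟨i, hi⟩ := hz1
      rw [mem_Ez] at hi
      have h1 : Abz B L {z} := h.critL.abz_block h.covL hi.2 (singleton_subset_iff.2 hi.1)
      have h2 := h.ref2 (A := {z}) (Y := Y') h1 (singleton_subset_iff.2 (mem_inter.1 hzT).2)
        hY'Q (by
          intro v hv
          unfold Xs at hv
          rw [hT, mem_union, mem_insert, mem_insert, mem_singleton, mem_insert,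
            mem_singleton] at hv
          rw [mem_union, mem_singleton]
          rcases hv with (rfl | rfl | rfl) | rfl | rfl
          · exact Or.inr (hall hxY)
          · exact Or.inr (hall hyY)
          · exact Or.inl rfl
          · exact Or.inr (hall hpY)
          · exact Or.inr (hall hpY'))
      omega
    · have hKpos := card_pos.2 hKne
      have hmono : rho B (Rs5 B Q L i0 p p') ≤ rho B (Rs5 B Q L i0 p p' ∪ Y') :=
        rho_mono subset_union_left (h.covR.union (h.cov.mono hY'Q))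
      rcases (by omega : K.card = 1 ∨ 2 ≤ K.card) with h1 | h1
      · obtain ⟨c, rfl⟩ := card_eq_one.1 h1
        by_cases hc : c.down = 0
        · have h2 : p' ∈ Y' := hYK p' hpY' (fun d hd => by
            rw [mem_singleton.1 hd, hpN']
            exact fun h3 => h3 hc)
          have h3 := h.ref' hY'Q h2
          omega
        · have h2 : p ∈ Y' := hYK p hpY (fun d hd => by
            rw [mem_singleton.1 hd, hpN]
            exact hc)
          have h3 := h.ref hY'Q h2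
          omega
      · omega
  have hfin := h.cl hw hYX hpY hpY' (fun y hy => Subset.refl _) rfl rfl hYc hK
    (by rw [hcY]; norm_num) hrho (Y2 := ∅) (empty_subset _) (notMem_empty _) (notMem_empty _)
    (fun y hy => absurd hy (notMem_empty _))
  rw [hcY, hcs, card_empty] at hfin
  obtain ⟨h8, h9⟩ := hfin
  push_cast at h8 h9
  constructor <;> linarith

/-- a triple in the order of the numbers of hits. -/
theorem exists_order {T : Finset V} (hT : T.card = 3) (f : V → ℕ) :
    ∃ x y z, T = {x, y, z} ∧ x ≠ y ∧ x ≠ z ∧ y ≠ z ∧ f y ≤ f x ∧ f z ≤ f y := by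
  classical
  obtain ⟨x, hx, hmax⟩ := exists_max_image T f (card_pos.1 (by omega))
  have h1 : (T.erase x).card = 2 := by
    rw [card_erase_of_mem hx]
    omega
  obtain ⟨y, hy, hmax2⟩ := exists_max_image (T.erase x) f (card_pos.1 (by omega))
  have h2 : ((T.erase x).erase y).card = 1 := by
    rw [card_erase_of_mem hy]
    omega
  obtain ⟨z, hz⟩ := card_eq_one.1 h2
  have hzm : z ∈ (T.erase x).erase y := by rw [hz]; exact mem_singleton_self z
  obtain ⟨hzy, hz2⟩ := mem_erase.1 hzm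
  obtain ⟨hzx, hzT⟩ := mem_erase.1 hz2
  obtain ⟨hyx, hyT⟩ := mem_erase.1 hy
  refine ⟨x, y, z, ?_, Ne.symm hyx, Ne.symm hzx, Ne.symm hzy, hmax y hyT, hmax2 z hz2⟩
  rw [← insert_erase hx, ← insert_erase hy, hz]

/-- the number of hits of the contact set is bounded by the value of the leaf. -/
theorem count (h : Sp5 B Q L i0 p p') (hL2 : ∀ i, (B i ∩ L).card ≤ 2) :
    6 * ((hit B (B i0 ∩ Q) L : ℤ) + 2) ≤ 54 + 5 * (dv B Q L + 1) := by
  have h1 := five_Pp_leaf (h.reg.mono h.LQ') hL2 h.svL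
  have h2 := nt1_pos (h.reg.mono h.LQ') hL2 (odd_of_sv_neg_one h.svL)
  have h3 := hit_add_fsQ (h.reg.mono h.LQ') h.LQ'
  have h4 := four_ee_le_fs (W := L) h.tr
  have h5 : hit B (Xs B Q i0 p p') L ≤ hit B (Q \ L) L := by
    refine hit_mono_left L fun v hv => mem_sdiff.2 ⟨h.XQ hv, fun h6 => ?_⟩
    exact disjoint_left.1 h.LX h6 hv
  have h6 : hit B (Xs B Q i0 p p') L = hit B (B i0 ∩ Q) L + 2 := by
    unfold Xs
    rw [hit_union_left, hit_eq_Ez ({p, p'} : Finset V), sum_pair h.pp, h.e1, h.e1']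
    rw [disjoint_left]
    intro v hv hv'
    rw [mem_insert, mem_singleton] at hv'
    rcases hv' with rfl | rfl
    · exact h.pT (mem_inter.1 hv).1
    · exact h.pT' (mem_inter.1 hv).1
  have h7 := Pv_eq_Pp (B := B) L
  rw [h.svL] at h7
  have h8 : (hit B (B i0 ∩ Q) L : ℤ) + 2 ≤ hit B (Q \ L) L := by
    rw [h6] at h5
    exact_mod_cast h5
  have h9 : (1 : ℤ) ≤ nt B L 1 := by exact_mod_cast h2
  have h10 : (0 : ℤ) ≤ ee B Q L := by positivity
  unfold dv
  linarith

/-- the leaf as a part. -/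
theorem cp (h : Sp5 B Q L i0 p p') : Cp3 B Q L :=
  ⟨h.ih, h.reg, h.tr, h.conn, h.LQ', h.connL, by
    have := h.card_eq
    omega⟩

theorem le4 (h : Sp5 B Q L i0 p p') {w : V} (hw : w ∈ B i0 ∩ Q) :
    (Os B L i0 w).card + (Ez B L w).card = 4 := by
  have h1 := h.five (mem_inter.1 hw).2
  rw [if_pos (mem_inter.1 hw).1] at h1
  omega

/-- the closing at the third point of an absorbed pair. -/
theorem clA' (h : Sp5 B Q L i0 p p') {z : V} (hz : z ∈ B i0 ∩ Q)
    (habs : Abz B L ((B i0 ∩ Q).erase z)) {s : ℕ} (hs2 : 2 ≤ s) (hs5 : s ≤ 5)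
    (hs : (Ez B L z).card + 1 ≤ s) :
    Pv B L + 2 * ((ee B Q Q : ℤ) - ee B Q L + (if 4 ≤ s then 1 else 0)) + 13 ≤
      Pv B Q + 4 * (s : ℤ) ∧ Pv B L + 14 ≤ Pv B Q + 4 * (s : ℤ) := by
  have h1 := h.le4 hz
  obtain ⟨S, hS, hSc⟩ := exists_subset_card_eq (s := Os B L i0 z) (n := 5 - s) (by omega)
  exact h.clA hz hS hs2 (by omega) (Or.inr habs)

/-- **the rent of a leaf seen by one triple and two points**: in a counterexample the number of hits of
the triple on the leaf is small. -/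
theorem rent (h : Sp5 B Q L i0 p p') (hL2 : ∀ i, (B i ∩ L).card ≤ 2)
    (hv : dv B Q Q ≤ -2 ∨ Pv B Q ≤ -1) :
    18 * (hit B (B i0 ∩ Q) L : ℤ) ≤ 15 * (dv B Q L + 1) + 96 := by
  classical
  by_contra hcon
  push Not at hcon
  have hcnt := h.count hL2
  have hd := h.cp.d_ge
  obtain ⟨x, y, z, hT, hxy, hxz, hyz, hyx, hzy⟩ := exists_order h.c3 (fun v => (Ez B L v).card)
  have hxT : x ∈ B i0 ∩ Q := by rw [hT]; simp
  have hyT : y ∈ B i0 ∩ Q := by rw [hT]; simp
  have hzT : z ∈ B i0 ∩ Q := by rw [hT]; simp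
  have hH : hit B (B i0 ∩ Q) L = (Ez B L x).card + (Ez B L y).card + (Ez B L z).card := by
    rw [hit_eq_Ez, hT, sum_insert (by simp [hxy, hxz]), sum_pair hyz]
    ring
  have hx4 := h.le4 hxT
  have hee := h.ee_eq
  have hee' : (ee B Q L : ℤ) ≤ ee B Q Q := by
    have : ee B Q L ≤ ee B Q Q := by omega
    exact_mod_cast this
  have hev : (dv B Q L + 1) % 2 = 0 := by
    have h1 := Pp_even (B := B) L
    have h2 := Pv_eq_Pp (B := B) L
    rw [h.svL] at h2
    unfold dv
    omega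
  have hLn : ∀ w ∈ B i0 ∩ Q, w ∉ L := fun w hw hwL => (mem_sdiff.1 (h.LQ hwL)).2 hw
  have herase : (B i0 ∩ Q).erase z = {x, y} := by
    rw [hT]
    ext v
    simp only [mem_erase, mem_insert, mem_singleton]
    constructor
    · rintro ⟨h1, h2 | h2 | h2⟩
      · exact Or.inl h2
      · exact Or.inr h2
      · exact absurd h2 h1
    · rintro (h2 | h2)
      · rw [h2]
        exact ⟨hxz, Or.inl rfl⟩
      · rw [h2]
        exact ⟨hyz, Or.inr (Or.inl rfl)⟩
  have hxQ := (mem_inter.1 hxT).2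
  have hyQ := (mem_inter.1 hyT).2
  have hdQ : dv B Q Q = Pv B Q - 2 * (ee B Q Q : ℤ) := rfl
  have hdL : dv B Q L = Pv B L - 2 * (ee B Q L : ℤ) := rfl
  have heL0 : (0 : ℤ) ≤ ee B Q L := by positivity
  rw [hH] at hcon hcnt
  push_cast at hcon hcnt
  -- closing with an artificial point
  by_cases hk6 : 5 ≤ dv B Q L
  · have h1 := (h.clA hzT (Ez' := ∅) (s := 5) (empty_subset _) (by norm_num) (by simp)
      (Or.inl rfl)).1
    rw [if_pos (by norm_num)] at h1
    push_cast at h1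
    rcases hv with hv | hv <;> omega
  push Not at hk6
  -- no hits at the second point
  have h6 : 6 ≤ (Ez B L x).card + (Ez B L y).card + (Ez B L z).card := by omega
  -- the small patterns
  have fin3 : Abz B L {x, y} → (Ez B L z).card ≤ 2 → False := by
    intro hab hz2
    obtain ⟨h1, h2⟩ := h.clA' hzT (herase ▸ hab) (s := 3) (by norm_num) (by norm_num) (by omega)
    rw [if_neg (by norm_num)] at h1
    push_cast at h1 h2
    rcases hv with hv | hv <;> omega
  have fin4 : Abz B L {x, y} → (Ez B L z).card ≤ 3 → 1 ≤ dv B Q L → False := by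
    intro hab hz3 hd1
    obtain ⟨h1, h2⟩ := h.clA' hzT (herase ▸ hab) (s := 4) (by norm_num) (by norm_num) (by omega)
    rw [if_pos (by norm_num)] at h1
    push_cast at h1 h2
    rcases hv with hv | hv <;> omega
  by_cases h0 : dv B Q L = -1
  · -- value zero
    by_cases hy2 : 2 ≤ (Ez B L y).card
    · have hab := h.cp.pt2 (by omega) hxQ (hLn x hxT) hyQ (hLn y hyT) hxy (by omega) hy2
      exact fin3 hab (by omega)
    · push Not at hy2
      have hz1 : (Ez B L z).card = 1 := by omega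
      have hy1 : (Ez B L y).card = 1 := by omega
      have hT' : B i0 ∩ Q = {y, z, x} := by
        rw [hT]
        ext v
        simp only [mem_insert, mem_singleton]
        tauto
      obtain ⟨h1, h2⟩ := h.clB hT' hyz hxy.symm hxz.symm hy1 hz1 (card_pos.1 (by omega))
      rcases hv with hv | hv <;> omega
  · have hd1 : 1 ≤ dv B Q L := by omega
    by_cases hy3 : 3 ≤ (Ez B L y).card
    · have hab := h.cp.pt2b (by omega) hxQ (hLn x hxT) hyQ (hLn y hyT) hxy (by omega) hy3
      by_cases hz3 : (Ez B L z).card ≤ 3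
      · exact fin4 hab hz3 hd1
      · omega
    · push Not at hy3
      have hd2 : dv B Q L = 1 := by omega
      have hx4' : (Ez B L x).card = 4 := by omega
      have hy2 : (Ez B L y).card = 2 := by omega
      have hab := h.cp.pt2c (by omega) hxQ (hLn x hxT) hyQ (hLn y hyT) hxy (by omega) (by omega)
      exact fin3 hab (by omega)

end Sp5

end Pool.Agent.Hyp6
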