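import Pool.Agent.Hyp6.L3Nc
import Pool.Agent.Hyp6.L3Tz

/-!
# HYP6 L3HS: free sets of classes give the cost of stars

`Sp.free_gen`: the points inside the classes and the crossing points can be matched into leaves
outside a free set of classes, with one leaf left out in each of them. `ND.Ok.hcost`: the cost of a
star at a class. All matchings use contacts with leaves only.
-/

set_option autoImplicit false

namespace Pool.Agent.Hyp6

open Finset Pool.Agent.Hyp5

universe u v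

namespace Sp

section

variable {L : Type*} [DecidableEq L] {α : Type*} [DecidableEq α] {τ : Type*} [DecidableEq τ]

/-- the members of the family `K` met by the set `X`. -/
def mtK (P : Finset τ) (K : τ → Finset L) (X : Finset L) : Finset τ :=
  P.filter (fun c => ¬ Disjoint X (K c))

omit [DecidableEq τ] in
theorem mem_mtK {P : Finset τ} {K : τ → Finset L} {X : Finset L} {c : τ} :
    c ∈ mtK P K X ↔ c ∈ P ∧ ¬ Disjoint X (K c) := by
  unfold mtK
  rw [mem_filter]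

/-- **free sets**, for families. -/
theorem free_gen {U : Finset α} {N : α → Finset L}
    (sur : ∀ Y ⊆ U, Y.Nonempty → Y.card + 1 ≤ (Y.biUnion N).card) {P : Finset τ}
    {K : τ → Finset L} (dj : ∀ c ∈ P, ∀ e ∈ P, c ≠ e → Disjoint (K c) (K e)) {X : Finset α}
    {Ui : τ → Finset α} (hUi : ∀ c ∈ P, Ui c ⊆ U) (hUN : ∀ c ∈ P, ∀ u ∈ Ui c, N u ⊆ K c)
    {S W : Finset τ} (hSP : S ⊆ P) (hWS : W ⊆ S)
    (hS : dfc X (fun u => mtK P K (N u)) S ≤ 0) {x : τ → L} (hx : ∀ e ∈ S \ W, x e ∈ K e) :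
    dfc (X ∪ (P \ W).biUnion Ui) N (W.biUnion K ∪ (S \ W).image x) ≤ 0 := by
  classical
  refine dfc_le fun B hB => ?_
  set R := W.biUnion K ∪ (S \ W).image x with hR
  set B0 := B ∩ X with hB0
  have hcard : B.card ≤ B0.card + ∑ C ∈ P \ W, (B ∩ Ui C).card := by
    have h1 : B ⊆ B0 ∪ (P \ W).biUnion (fun C => B ∩ Ui C) := by
      intro u hu
      rcases mem_union.1 (hB hu) with h2 | h2
      · exact mem_union_left _ (mem_inter.2 ⟨hu, h2⟩)
      · obtain ⟨C, hC, h3⟩ := mem_biUnion.1 h2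
        exact mem_union_right _ (mem_biUnion.2 ⟨C, hC, mem_inter.2 ⟨hu, h3⟩⟩)
    exact (card_le_card h1).trans ((card_union_le _ _).trans
      (add_le_add le_rfl card_biUnion_le))
  set M := B0.biUnion (fun u => mtK P K (N u)) \ S with hM
  have hMP : M ⊆ P \ W := by
    intro C hC
    obtain ⟨h1, h2⟩ := mem_sdiff.1 hC
    obtain ⟨u, _, h3⟩ := mem_biUnion.1 h1
    exact mem_sdiff.2 ⟨(mem_mtK.1 h3).1, fun h4 => h2 (hWS h4)⟩
  have hB0M : B0.card ≤ M.card := by
    have hB0X : B0 ⊆ X := inter_subset_right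
    have h1 := le_dfc (N := fun u => mtK P K (N u)) (D := S) hB0X
    rw [← hM] at h1
    omega
  have hnode : ∀ C ∈ P \ W, (B ∩ Ui C).card + (if C ∈ M then 1 else 0) ≤
      (((B.biUnion N) \ R) ∩ K C).card := by
    intro C hC
    obtain ⟨hCP, hCW⟩ := mem_sdiff.1 hC
    have hCW' : Disjoint (K C) (W.biUnion K) := by
      rw [disjoint_biUnion_right]
      intro D hD
      refine dj C hCP D (hSP (hWS hD)) ?_
      rintro rfl
      exact hCW hD
    have hR1 : ∀ z ∈ K C, z ∈ R → C ∈ S ∧ z = x C := by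
      intro z hz hzR
      rcases mem_union.1 hzR with h1 | h1
      · exact absurd h1 (disjoint_left.1 hCW' hz)
      · obtain ⟨D, hD, rfl⟩ := mem_image.1 h1
        have hDS := (mem_sdiff.1 hD).1
        by_cases hDC : D = C
        · subst hDC
          exact ⟨hDS, rfl⟩
        · exact absurd hz (disjoint_left.1 (dj D (hSP hDS) C hCP hDC) (hx D hD))
    have hsubK : (B ∩ Ui C).biUnion N ⊆ (B.biUnion N) ∩ K C := by
      intro z hz
      obtain ⟨u, hu, hzu⟩ := mem_biUnion.1 hz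
      obtain ⟨hu1, hu2⟩ := mem_inter.1 hu
      exact mem_inter.2 ⟨mem_biUnion.2 ⟨u, hu1, hzu⟩, hUN C hCP u hu2 hzu⟩
    rcases (B ∩ Ui C).eq_empty_or_nonempty with h0 | hne
    · rw [h0, card_empty]
      split_ifs with hCM
      · obtain ⟨h1, h2⟩ := mem_sdiff.1 hCM
        obtain ⟨u, hu, h3⟩ := mem_biUnion.1 h1
        have h4 := (mem_mtK.1 h3).2
        rw [not_disjoint_iff] at h4
        obtain ⟨z, hz, hzC⟩ := h4
        have h5 : z ∈ ((B.biUnion N) \ R) ∩ K C :=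
          mem_inter.2 ⟨mem_sdiff.2 ⟨mem_biUnion.2 ⟨u, (mem_inter.1 hu).1, hz⟩,
            fun h6 => h2 (hR1 z hzC h6).1⟩, hzC⟩
        have := card_pos.2 ⟨z, h5⟩
        omega
      · omega
    · have h1 := sur (B ∩ Ui C) (inter_subset_right.trans (hUi C hCP)) hne
      split_ifs with hCM
      · have hCS : C ∉ S := (mem_sdiff.1 hCM).2
        have h2 : (B ∩ Ui C).biUnion N ⊆ ((B.biUnion N) \ R) ∩ K C := by
          intro z hz
          obtain ⟨hz1, hzC⟩ := mem_inter.1 (hsubK hz)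
          exact mem_inter.2 ⟨mem_sdiff.2 ⟨hz1, fun h6 => hCS (hR1 z hzC h6).1⟩, hzC⟩
        have h3 := card_le_card h2
        omega
      · have h2 : ((B ∩ Ui C).biUnion N).erase (x C) ⊆ ((B.biUnion N) \ R) ∩ K C := by
          intro z hz
          obtain ⟨hzx, hz'⟩ := mem_erase.1 hz
          obtain ⟨hz1, hzC⟩ := mem_inter.1 (hsubK hz')
          exact mem_inter.2 ⟨mem_sdiff.2 ⟨hz1, fun h6 => hzx (hR1 z hzC h6).2⟩, hzC⟩
        have h3 := card_le_card h2
        have h4 := pred_card_le_card_erase (s := (B ∩ Ui C).biUnion N) (a := x C)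
        omega
  have hsum : ∑ C ∈ P \ W, (((B.biUnion N) \ R) ∩ K C).card ≤ ((B.biUnion N) \ R).card := by
    rw [← card_biUnion]
    · refine card_le_card ?_
      intro z hz
      obtain ⟨C, _, hz⟩ := mem_biUnion.1 hz
      exact (mem_inter.1 hz).1
    · intro C hC D hD hne
      show Disjoint (((B.biUnion N) \ R) ∩ K C) (((B.biUnion N) \ R) ∩ K D)
      exact disjoint_of_subset_left inter_subset_right (disjoint_of_subset_right
        inter_subset_right (dj C (mem_sdiff.1 hC).1 D (mem_sdiff.1 hD).1 hne))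
  have h2 := sum_le_sum hnode
  rw [sum_add_distrib] at h2
  have h3 : ∑ C ∈ P \ W, (if C ∈ M then 1 else 0) = M.card := by
    rw [← sum_filter, sum_const, smul_eq_mul, mul_one]
    congr 1
    ext C
    rw [mem_filter]
    exact ⟨fun h => h.2, fun h => ⟨hMP h, h⟩⟩
  omega

omit [DecidableEq α] in
theorem dfc_sub {U U' : Finset α} {N : α → Finset L} {D : Finset L} (h : U' ⊆ U) :
    dfc U' N D ≤ dfc U N D :=
  dfc_le fun _ hB => le_dfc (hB.trans h)

end

end Sp

section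

variable {V : Type v} [DecidableEq V] {ι : Type u} [Fintype ι] [DecidableEq ι]

namespace ND

/-- the classes of `P` seen by the point `u` at a leaf. -/
noncomputable def cl (d : ND V ι) (P : Finset (Finset (Finset V ⊕ ι))) (u : V) :
    Finset (Finset (Finset V ⊕ ι)) :=
  Sp.mtK P d.lv (slf d.B d.F u)

/-- the nullity of a set of classes, with contacts at leaves. -/
noncomputable def nl (d : ND V ι) (P S : Finset (Finset (Finset V ⊕ ι))) : ℤ :=
  Sp.dfc (Sp.Ux d.U d.N P) (d.cl P) S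

variable {d : ND V ι} {P : Finset (Finset (Finset V ⊕ ι))}

theorem mem_cl {u : V} {C : Finset (Finset V ⊕ ι)} :
    C ∈ d.cl P u ↔ C ∈ P ∧ ∃ A ∈ d.lv C, A ∈ slf d.B d.F u := by
  unfold cl
  rw [Sp.mem_mtK, not_disjoint_iff]
  constructor
  · rintro ⟨h1, A, h2, h3⟩
    exact ⟨h1, A, h3, h2⟩
  · rintro ⟨h1, A, h2, h3⟩
    exact ⟨h1, A, h3, h2⟩

namespace Ok

theorem sur_slf (h : d.Ok) : ∀ Y ⊆ d.U, Y.Nonempty →
    Y.card + 1 ≤ (Y.biUnion (slf d.B d.F)).card := by
  intro Y hY hne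
  refine (h.frm.ge.surplus Y hY hne).trans (card_le_card ?_)
  intro A hA
  obtain ⟨hA1, x, hx, y, hy, hxy⟩ := mem_nbF.1 hA
  exact mem_biUnion.2 ⟨x, hx, mem_slf.2 ⟨hA1, y, hy, hxy⟩⟩

theorem lv_dj (hP : d.Par P) : ∀ C ∈ P, ∀ D ∈ P, C ≠ D → Disjoint (d.lv C) (d.lv D) := by
  intro C hC D hD hne
  rw [disjoint_left]
  intro A hA hA'
  exact disjoint_left.1 (hP.dj C hC D hD hne) (mem_lv.1 hA).2 (mem_lv.1 hA').2

theorem slf_uin {C : Finset (Finset V ⊕ ι)} {u : V} (hu : u ∈ d.uin C) :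
    slf d.B d.F u ⊆ d.lv C := by
  intro A hA
  obtain ⟨hA1, y, hy, hxy⟩ := mem_slf.1 hA
  exact mem_lv.2 ⟨hA1, (mem_uin.1 hu).2 (mem_N.2 ⟨mem_nodes_inl.2 (Or.inl hA1), y, hy, hxy⟩)⟩

/-- the crossing points and the points inside the other classes avoid a free set of classes. -/
theorem dfc_free (h : d.Ok) (hP : d.Par P) {S W : Finset (Finset (Finset V ⊕ ι))}
    (hSP : S ⊆ P) (hWS : W ⊆ S) (hS : d.nl P S ≤ 0) {x : Finset (Finset V ⊕ ι) → Finset V}
    (hx : ∀ D ∈ S \ W, x D ∈ d.lv D) :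
    Sp.dfc (Sp.Ux d.U d.N P ∪ (P \ W).biUnion d.uin) (slf d.B d.F)
      (W.biUnion d.lv ∪ (S \ W).image x) ≤ 0 :=
  Sp.free_gen h.sur_slf (lv_dj hP) (fun _ _ => uin_sub) (fun _ _ _ hu => slf_uin hu) hSP hWS hS hx

theorem sdiff_uin (hP : d.Par P) {W : Finset (Finset V ⊕ ι)} (hW : W ∈ P) :
    d.U \ d.uin W ⊆ Sp.Ux d.U d.N P ∪ (P \ {W}).biUnion d.uin := by
  intro u hu
  obtain ⟨hu1, hu2⟩ := mem_sdiff.1 hu
  by_cases hx : ∀ C ∈ P, ¬ d.N u ⊆ C
  · exact mem_union_left _ (mem_Ux.2 ⟨hu1, hx⟩)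
  · push Not at hx
    obtain ⟨C, hC, h1⟩ := hx
    refine mem_union_right _ (mem_biUnion.2 ⟨C, mem_sdiff.2 ⟨hC, ?_⟩, mem_uin.2 ⟨hu1, h1⟩⟩)
    rw [mem_singleton]
    rintro rfl
    exact hu2 (mem_uin.2 ⟨hu1, h1⟩)

/-- every class is free if the nullity of the single classes vanishes. -/
theorem fre (h : d.Ok) (hP : d.Par P) (h0 : ∀ C ∈ P, d.nl P {C} ≤ 0) : d.Fre P := by
  intro C hC
  have h1 := h.dfc_free hP (S := {C}) (W := {C}) (singleton_subset_iff.2 hC) (Subset.refl _)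
    (h0 C hC) (x := fun _ => ∅) (by
      intro D hD
      rw [Finset.sdiff_self] at hD
      exact absurd hD (notMem_empty _))
  rw [Finset.sdiff_self, image_empty, union_empty, singleton_biUnion] at h1
  exact mtI_of_dfc ((Sp.dfc_sub (sdiff_uin hP hC)).trans h1)

/-- **the cost of a star at the class `W`**: the third point `r t` of the triple `t` sees a leaf of
the class `Y t`, the classes `Y t` are different, and together with `W` they are free. -/
theorem hcost (h : d.Ok) (hP : d.Par P) {W : Finset (Finset V ⊕ ι)} (hW : W ∈ P) {I : Finset ι}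
    (hI : I ⊆ Sp.Tx d.T d.NT P) {f g r : ι → V}
    (hlab : ∀ t ∈ I, d.B t ∩ d.Q = {f t, g t, r t}) {Y : ι → Finset (Finset V ⊕ ι)}
    (hY : ∀ t ∈ I, Y t ∈ P ∧ Y t ≠ W) (hYi : Set.InjOn Y I)
    (hx : ∀ t ∈ I, ∃ A ∈ d.lv (Y t), A ∈ slf d.B d.F (r t))
    (hfree : d.nl P (insert W (I.image Y)) ≤ 0) :
    rho d.B (d.Z W) + I.card ≤ rho d.B (d.Z W ∪ (I.image f ∪ I.image g)) := by
  classical
  have hIT : I ⊆ d.T := fun t ht => (mem_Tx.1 (hI ht)).1
  -- the leaf of a far class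
  have hxc : ∀ D ∈ I.image Y, ∃ A ∈ d.lv D, ∀ t ∈ I, Y t = D → A ∈ slf d.B d.F (r t) := by
    intro D hD
    obtain ⟨t, ht, rfl⟩ := mem_image.1 hD
    obtain ⟨A, hA, hA'⟩ := hx t ht
    refine ⟨A, hA, fun s hs he => ?_⟩
    rw [hYi (mem_coe.2 hs) (mem_coe.2 ht) he]
    exact hA'
  choose! x hx1 hx2 using hxc
  have hSP : insert W (I.image Y) ⊆ P := by
    intro D hD
    rcases mem_insert.1 hD with rfl | hD
    · exact hW
    · obtain ⟨t, ht, rfl⟩ := mem_image.1 hD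
      exact (hY t ht).1
  have hSW : insert W (I.image Y) \ {W} = I.image Y := by
    ext D
    rw [mem_sdiff, mem_insert, mem_singleton]
    constructor
    · rintro ⟨h1 | h1, h2⟩
      · exact absurd h1 h2
      · exact h1
    · intro hD
      refine ⟨Or.inr hD, ?_⟩
      obtain ⟨t, ht, rfl⟩ := mem_image.1 hD
      exact (hY t ht).2
  have h1 := h.dfc_free hP hSP (singleton_subset_iff.2 (mem_insert_self _ _)) hfree (x := x) (by
    rw [hSW]
    exact hx1)
  rw [hSW, singleton_biUnion] at h1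
  have h2 := (Sp.dfc_sub (sdiff_uin hP hW)).trans h1
  obtain ⟨g0, hg0⟩ := h.mt_in W ∅
  have hrQ : ∀ t ∈ I, r t ∈ d.B t ∩ d.Q := by
    intro t ht
    rw [hlab t ht]
    simp
  have hrinj : ∀ s ∈ I, ∀ t ∈ I, r s = r t → s = t := by
    intro s hs t ht he
    by_contra hne
    have h3 := hrQ s hs
    rw [he] at h3
    exact disjoint_left.1 (h.frm.mtp.tpk.pack.disj s (hIT hs) t (hIT ht) hne) h3 (hrQ t ht)
  -- the leaf of a third point
  have hxr0 : ∀ p : V, ∃ A : Finset V, ∀ t ∈ I, r t = p → A = x (Y t) := by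
    intro p
    by_cases hp : ∃ t ∈ I, r t = p
    · obtain ⟨t, ht, rfl⟩ := hp
      exact ⟨x (Y t), fun s hs he => by rw [hrinj s hs t ht he]⟩
    · exact ⟨∅, fun t ht he => absurd ⟨t, ht, he⟩ hp⟩
  choose xr hxr1 using hxr0
  have hxr : ∀ t ∈ I, xr (r t) = x (Y t) := fun t ht => hxr1 (r t) t ht rfl
  have himg : (I.image r).image xr = (I.image Y).image x := by
    ext A
    simp only [mem_image]
    constructor
    · rintro ⟨p, ⟨t, ht, rfl⟩, rfl⟩
      exact ⟨Y t, ⟨t, ht, rfl⟩, (hxr t ht).symm⟩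
    · rintro ⟨D, ⟨t, ht, rfl⟩, rfl⟩
      exact ⟨r t, ⟨t, ht, rfl⟩, hxr t ht⟩
  refine h.frm.cost lv_sub h.dcl tin_sub uin_sub (hg0.mono (Subset.refl _) (erase_subset _ _))
    hIT ?_ ?_ ?_ (R := I.image r) (x := xr) ?_ ?_ ?_ ?_
  · rw [disjoint_left]
    intro t ht ht'
    exact (mem_Tx.1 (hI ht)).2.2 W hW (mem_tin.1 ht').2.2
  · intro v hv
    rcases mem_union.1 hv with hv | hv
    · obtain ⟨t, ht, rfl⟩ := mem_image.1 hv
      exact (mem_inter.1 (by rw [hlab t ht]; simp : f t ∈ d.B t ∩ d.Q)).2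
    · obtain ⟨t, ht, rfl⟩ := mem_image.1 hv
      exact (mem_inter.1 (by rw [hlab t ht]; simp : g t ∈ d.B t ∩ d.Q)).2
  · intro t ht v hv
    rw [hlab t ht, mem_insert, mem_insert, mem_singleton] at hv
    rcases hv with rfl | rfl | rfl
    · exact Or.inl (mem_union_left _ (mem_image_of_mem f ht))
    · exact Or.inl (mem_union_right _ (mem_image_of_mem g ht))
    · exact Or.inr (mem_image_of_mem r ht)
  · intro p hp
    obtain ⟨t, ht, rfl⟩ := mem_image.1 hp
    obtain ⟨h3, h4⟩ := mem_inter.1 (hrQ t ht)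
    exact mem_inter.2 ⟨mem_biUnion.2 ⟨t, ht, h3⟩, h4⟩
  · intro p hp
    obtain ⟨t, ht, rfl⟩ := mem_image.1 hp
    rw [hxr t ht]
    have h3 := hx1 (Y t) (mem_image_of_mem Y ht)
    refine ⟨hx2 (Y t) (mem_image_of_mem Y ht) t ht rfl, ?_⟩
    exact fun h4 => disjoint_left.1 (lv_dj hP (Y t) (hY t ht).1 W hW (hY t ht).2) h3 h4
  · intro p hp q hq he
    obtain ⟨s, hs, rfl⟩ := mem_image.1 hp
    obtain ⟨t, ht, rfl⟩ := mem_image.1 hq
    rw [hxr s hs, hxr t ht] at he
    have h3 := hx1 (Y s) (mem_image_of_mem Y hs)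
    have h4 := hx1 (Y t) (mem_image_of_mem Y ht)
    by_contra hne
    have hst : s ≠ t := fun h5 => hne (by rw [h5])
    have hYne : Y s ≠ Y t := fun h5 => hst (hYi (mem_coe.2 hs) (mem_coe.2 ht) h5)
    rw [he] at h3
    exact disjoint_left.1 (lv_dj hP (Y s) (hY s hs).1 (Y t) (hY t ht).1 hYne) h3 h4
  · rw [himg]
    exact h2

end Ok

end ND

end

end Pool.Agent.Hyp6
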