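import Pool.Agent.Hyp6.L3P6d
import Pool.Agent.Hyp6.L3S5
import Pool.Agent.Hyp6.L3Tx

/-!
# HYP6 L3Hx: a point all whose blocks contain exactly one of two points of a full block

`ViolR.gm0`, `ViolR.gm1`: merging at a full block `i` with any set `S` of blocks inside `i`
(`gm1`: and one merged pair `m`, `n`). `ViolR.pair_x`: two full blocks with the points `x`, `a`.
`ViolR.point_fs`: `x` has five blocks, each contains exactly one of the points `a`, `b` of a full block
which does not contain `x`: at most one free place.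
-/

set_option autoImplicit false

namespace Pool.Agent.Hyp6

open Finset Pool.Agent.Hyp5

universe u v

variable {V : Type v} [DecidableEq V] {ι : Type u} [Fintype ι] {B : ι → Finset V}

/-- a point of a full block has at most one single block. -/
theorem ViolR.ee_pt' {Q : Finset V} (hv : ViolR B Q) {f : ι} {a : V} (ha : a ∈ B f) (haQ : a ∈ Q)
    (hf : (B f ∩ Q).card = 3) : ee B Q {a} = 0 := by
  have h1 := hv.ee_T hf
  have h2 := ee_mono (B := B) (Q := Q) (singleton_subset_iff.2 (mem_inter.2 ⟨ha, haQ⟩))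
  omega

omit [Fintype ι] in
/-- the trace of a block which meets a full block has at most two points. -/
theorem trace_le_two {Q : Finset V} (h3 : Tr3 B Q) {i e : ι}
    (h : (B e ∩ (B i ∩ Q)).Nonempty) : ((B e ∩ Q) \ B i).card ≤ 2 := by
  obtain ⟨v, hv⟩ := h
  obtain ⟨h1, h2⟩ := mem_inter.1 hv
  obtain ⟨h4, h5⟩ := mem_inter.1 h2
  have h6 : 1 ≤ ((B e ∩ Q) ∩ B i).card :=
    card_pos.2 ⟨v, mem_inter.2 ⟨mem_inter.2 ⟨h1, h5⟩, h4⟩⟩
  have h7 := card_sdiff_add_card_inter (B e ∩ Q) (B i)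
  have h8 := h3 e
  omega

open Classical in
/-- **merging at a full block, blocks inside only**. -/
theorem ViolR.gm0 {Q : Finset V} (hv : ViolR B Q) {i : ι} {S E : Finset ι} {Y2 : Finset V}
    (h3 : (B i ∩ Q).card = 3) (hSi : i ∉ S) (hS : ∀ m ∈ S, B m ∩ Q ⊆ B i ∧ (B m ∩ Q).Nonempty)
    (hE : ∀ e ∈ E, (B e ∩ (B i ∩ Q)).Nonempty ∧ ¬ B e ∩ Q ⊆ B i) (hEn : E.Nonempty)
    (hY : Y2 ⊆ Q \ B i) (he2 : ee B Q Y2 = 0)
    (h2 : ∀ y ∈ Y2, 2 ≤ (E.filter (fun e => (B e ∩ Q) \ B i = {y})).card) :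
    2 * S.card + Y2.card ≤ 2 := by
  have hiE : i ∉ E := fun h => (hE i h).2 inter_subset_left
  have hSE : Disjoint S E := disjoint_left.2 fun m h h' => (hE m h').2 (hS m h).1
  have hM : Mgb B Q i (insert i (S ∪ E)) E (fun e => (B e ∩ Q) \ B i) := {
    c3 := h3
    D0 := by
      intro k hk
      rcases mem_insert.1 hk with rfl | hk
      · rw [← inter_assoc, inter_self]
        exact card_pos.1 (by rw [h3]; norm_num)
      rcases mem_union.1 hk with hk | hk
      · obtain ⟨h4, v, h5⟩ := hS k hk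
        obtain ⟨h6, h7⟩ := mem_inter.1 h5
        exact ⟨v, mem_inter.2 ⟨h6, mem_inter.2 ⟨h4 h5, h7⟩⟩⟩
      · exact (hE k hk).1
    NQ := fun k _ => sdiff_subset_sdiff inter_subset_right (Subset.refl _)
    N3 := fun k hk => (trace_le_two hv.tr (hE k hk).1).trans (by norm_num)
    deg := by
      intro y hy hyi
      rw [sum_insert (by simp [hSi, hiE]), if_neg hyi, zero_add, sum_union hSE,
        sum_eq_zero (s := S) (fun m hm => if_neg fun h => hyi ((hS m hm).1
          (mem_inter.2 ⟨h, hy⟩))), zero_add]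
      refine sum_congr rfl fun e _ => ?_
      have h5 : y ∈ (B e ∩ Q) \ B i ↔ y ∈ B e := by
        rw [mem_sdiff, mem_inter]
        exact ⟨fun h => h.1.1, fun h => ⟨⟨h, hy⟩, hyi⟩⟩
      simp only [h5]
    cost := by
      intro K hK
      refine (rho_le (T := insert i K) ?_).trans (card_insert_le _ _ |>.trans (by omega))
      intro v hv'
      rcases mem_union.1 hv' with h5 | h5
      · exact mem_biUnion.2 ⟨i, mem_insert_self _ _, (mem_inter.1 h5).1⟩
      · obtain ⟨k, hk, hvk⟩ := mem_biUnion.1 h5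
        exact mem_biUnion.2 ⟨k, mem_insert_of_mem hk, (mem_inter.1 (mem_sdiff.1 hvk).1).1⟩
    tr := by
      intro k hk
      obtain ⟨e0, he0⟩ := hEn
      rcases mem_insert.1 hk with rfl | hk
      · exact ⟨e0, he0, fun v hv' => absurd (mem_inter.1 (mem_sdiff.1 hv').1).1
          (mem_sdiff.1 hv').2⟩
      rcases mem_union.1 hk with hk | hk
      · exact ⟨e0, he0, fun v hv' => absurd ((hS k hk).1 (mem_sdiff.1 hv').1)
          (mem_sdiff.1 hv').2⟩
      · exact ⟨k, hk, Subset.refl _⟩ }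
  obtain ⟨e0, he0⟩ := hEn
  have h5 := hv.blk hM hY he2 h2 ⟨e0, he0, by
    rw [sdiff_nonempty]
    exact (hE e0 he0).2, trace_le_two hv.tr (hE e0 he0).1⟩
  rw [card_insert_of_notMem (by simp [hSi, hiE]), card_union_of_disjoint hSE] at h5
  have h6 := hv.neg
  push_cast at h5
  omega

open Classical in
/-- **merging at a full block, blocks inside and one merged pair**. -/
theorem ViolR.gm1 {Q : Finset V} (hv : ViolR B Q) {i m n : ι} {S E : Finset ι} {Y2 : Finset V}
    (h3 : (B i ∩ Q).card = 3) (hSi : i ∉ S) (hS : ∀ m ∈ S, B m ∩ Q ⊆ B i ∧ (B m ∩ Q).Nonempty)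
    (hE : ∀ e ∈ E, (B e ∩ (B i ∩ Q)).Nonempty ∧ ¬ B e ∩ Q ⊆ B i) (hEn : E.Nonempty)
    (hY : Y2 ⊆ Q \ B i) (he2 : ee B Q Y2 = 0)
    (h2 : ∀ y ∈ Y2, 2 ≤ (E.filter (fun e => (B e ∩ Q) \ B i = {y})).card)
    (hni : n ≠ i) (hmi : m ≠ i) (hmn : m ≠ n) (hmS : m ∉ S) (hnS : n ∉ S) (hmE : m ∉ E)
    (hnE : n ∉ E)
    (hcv : B i ∩ Q ⊆ B m ∪ B n) (hmR : (B m ∩ (B i ∩ Q)).Nonempty)
    (hnR : (B n ∩ (B i ∩ Q)).Nonempty)
    (hdis : ∀ v ∈ Q, v ∈ B m → v ∈ B n → v ∈ B i)
    (hc : ((B m ∩ Q) \ B i).card + ((B n ∩ Q) \ B i).card ≤ 3) :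
    S = ∅ ∧ Y2 = ∅ := by
  have hiE : i ∉ E := fun h => (hE i h).2 inter_subset_left
  have hSE : Disjoint S E := disjoint_left.2 fun m h h' => (hE m h').2 (hS m h).1
  set N : ι → Finset V := fun k => if k = n then ((B m ∪ B n) ∩ Q) \ B i else (B k ∩ Q) \ B i
    with hN
  have hNn : N n = ((B m ∪ B n) ∩ Q) \ B i := if_pos rfl
  have hNe : ∀ e ∈ E, N e = (B e ∩ Q) \ B i := by
    intro e he
    have h4 : e ≠ n := fun h => hnE (h ▸ he)
    exact if_neg h4
  have hM : Mgb B Q i (insert i (insert m (insert n (S ∪ E)))) (insert n E) N := {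
    c3 := h3
    D0 := by
      intro k hk
      rcases mem_insert.1 hk with rfl | hk
      · rw [← inter_assoc, inter_self]
        exact card_pos.1 (by rw [h3]; norm_num)
      rcases mem_insert.1 hk with rfl | hk
      · exact hmR
      rcases mem_insert.1 hk with rfl | hk
      · exact hnR
      rcases mem_union.1 hk with hk | hk
      · obtain ⟨h4, v, h5⟩ := hS k hk
        obtain ⟨h6, h7⟩ := mem_inter.1 h5
        exact ⟨v, mem_inter.2 ⟨h6, mem_inter.2 ⟨h4 h5, h7⟩⟩⟩
      · exact (hE k hk).1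
    NQ := by
      intro k hk
      rcases mem_insert.1 hk with rfl | hk
      · rw [hNn]
        exact sdiff_subset_sdiff inter_subset_right (Subset.refl _)
      · rw [hNe k hk]
        exact sdiff_subset_sdiff inter_subset_right (Subset.refl _)
    N3 := by
      intro k hk
      rcases mem_insert.1 hk with rfl | hk
      · rw [hNn]
        refine le_trans (le_trans (card_le_card ?_) (card_union_le _ _)) hc
        intro v hv'
        obtain ⟨h5, h6⟩ := mem_sdiff.1 hv'
        obtain ⟨h7, h8⟩ := mem_inter.1 h5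
        rcases mem_union.1 h7 with h9 | h9
        · exact mem_union_left _ (mem_sdiff.2 ⟨mem_inter.2 ⟨h9, h8⟩, h6⟩)
        · exact mem_union_right _ (mem_sdiff.2 ⟨mem_inter.2 ⟨h9, h8⟩, h6⟩)
      · rw [hNe k hk]
        exact (trace_le_two hv.tr (hE k hk).1).trans (by norm_num)
    deg := by
      intro y hy hyi
      rw [sum_insert (by simp [hmi.symm, hni.symm, hSi, hiE]), if_neg hyi, zero_add,
        sum_insert (by simp [hmn, hmS, hmE]), sum_insert (by simp [hnS, hnE]), sum_union hSE,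
        sum_eq_zero (s := S) (fun m hm => if_neg fun h => hyi ((hS m hm).1
          (mem_inter.2 ⟨h, hy⟩))), zero_add, sum_insert hnE, hNn]
      have h5 : y ∈ ((B m ∪ B n) ∩ Q) \ B i ↔ y ∈ B m ∨ y ∈ B n := by
        rw [mem_sdiff, mem_inter, mem_union]
        exact ⟨fun h => h.1.1, fun h => ⟨⟨h, hy⟩, hyi⟩⟩
      rw [if_congr h5 rfl rfl]
      have h8 : ∑ e ∈ E, (if y ∈ B e then 1 else 0) = ∑ e ∈ E, (if y ∈ N e then 1 else 0) := by
        refine sum_congr rfl fun e he => ?_
        have h5 : y ∈ N e ↔ y ∈ B e := by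
          rw [hNe e he, mem_sdiff, mem_inter]
          exact ⟨fun h => h.1.1, fun h => ⟨⟨h, hy⟩, hyi⟩⟩
        simp only [h5]
      rw [h8, ← add_assoc]
      congr 1
      by_cases h6 : y ∈ B m
      · have h7 : y ∉ B n := fun h8 => hyi (hdis y hy h6 h8)
        simp [h6, h7]
      · by_cases h7 : y ∈ B n
        · simp [h6, h7]
        · simp [h6, h7]
    cost := by
      intro K hK
      have key : ∀ k ∈ K, k ≠ n → N k ⊆ B k := by
        intro k hk hkn v hv'
        have h6 : N k = (B k ∩ Q) \ B i := if_neg hkn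
        rw [h6] at hv'
        exact (mem_inter.1 (mem_sdiff.1 hv').1).1
      by_cases hn : n ∈ K
      · refine (rho_le (T := insert m K) ?_).trans (card_insert_le _ _ |>.trans (by omega))
        intro v hv'
        rcases mem_union.1 hv' with h5 | h5
        · rcases mem_union.1 (hcv h5) with h6 | h6
          · exact mem_biUnion.2 ⟨m, mem_insert_self _ _, h6⟩
          · exact mem_biUnion.2 ⟨n, mem_insert_of_mem hn, h6⟩
        · obtain ⟨k, hk, hvk⟩ := mem_biUnion.1 h5
          by_cases hkn : k = n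
          · subst hkn
            rw [hNn] at hvk
            rcases mem_union.1 (mem_inter.1 (mem_sdiff.1 hvk).1).1 with h7 | h7
            · exact mem_biUnion.2 ⟨m, mem_insert_self _ _, h7⟩
            · exact mem_biUnion.2 ⟨k, mem_insert_of_mem hk, h7⟩
          · exact mem_biUnion.2 ⟨k, mem_insert_of_mem hk, key k hk hkn hvk⟩
      · refine (rho_le (T := insert i K) ?_).trans (card_insert_le _ _ |>.trans (by omega))
        intro v hv'
        rcases mem_union.1 hv' with h5 | h5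
        · exact mem_biUnion.2 ⟨i, mem_insert_self _ _, (mem_inter.1 h5).1⟩
        · obtain ⟨k, hk, hvk⟩ := mem_biUnion.1 h5
          exact mem_biUnion.2 ⟨k, mem_insert_of_mem hk,
            key k hk (fun h => hn (h ▸ hk)) hvk⟩
    tr := by
      intro k hk
      rcases mem_insert.1 hk with rfl | hk
      · exact ⟨n, mem_insert_self _ _, fun v hv' => absurd (mem_inter.1 (mem_sdiff.1 hv').1).1
          (mem_sdiff.1 hv').2⟩
      rcases mem_insert.1 hk with rfl | hk
      · refine ⟨n, mem_insert_self _ _, ?_⟩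
        rw [hNn]
        exact sdiff_subset_sdiff (inter_subset_inter_right subset_union_left) (Subset.refl _)
      rcases mem_insert.1 hk with rfl | hk
      · refine ⟨k, mem_insert_self _ _, ?_⟩
        rw [hNn]
        exact sdiff_subset_sdiff (inter_subset_inter_right subset_union_right) (Subset.refl _)
      rcases mem_union.1 hk with hk | hk
      · exact ⟨n, mem_insert_self _ _, fun v hv' => absurd ((hS k hk).1 (mem_sdiff.1 hv').1)
          (mem_sdiff.1 hv').2⟩
      · exact ⟨k, mem_insert_of_mem hk, by rw [hNe k hk]⟩ }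
  obtain ⟨e0, he0⟩ := hEn
  have h5 := hv.blk hM hY he2 (fun y hy => (h2 y hy).trans (card_le_card fun k hk => by
    obtain ⟨h6, h7⟩ := mem_filter.1 hk
    exact mem_filter.2 ⟨mem_insert_of_mem h6, by rw [hNe k h6]; exact h7⟩))
    ⟨e0, mem_insert_of_mem he0, by
      rw [hNe e0 he0, sdiff_nonempty]
      exact (hE e0 he0).2, by
      rw [hNe e0 he0]
      exact trace_le_two hv.tr (hE e0 he0).1⟩
  rw [card_insert_of_notMem (by simp [hmi.symm, hni.symm, hSi, hiE]),
    card_insert_of_notMem (by simp [hmn, hmS, hmE]), card_insert_of_notMem (by simp [hnS, hnE]),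
    card_union_of_disjoint hSE, card_insert_of_notMem hnE] at h5
  have h6 := hv.neg
  push_cast at h5
  constructor
  · rw [← card_eq_zero]
    omega
  · rw [← card_eq_zero]
    omega

omit [Fintype ι] in
/-- the third point of a full block. -/
theorem third_pt {Q : Finset V} {i : ι} {x a : V} (h3 : (B i ∩ Q).card = 3) (hxa : x ≠ a)
    (hx : x ∈ B i ∩ Q) (ha : a ∈ B i ∩ Q) :
    ∃ v, B i ∩ Q = {x, a, v} ∧ v ≠ x ∧ v ≠ a := by
  have h1 : ({x, a} : Finset V) ⊆ B i ∩ Q := by
    intro z hz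
    rcases mem_insert.1 hz with h | h
    · exact h ▸ hx
    · exact mem_singleton.1 h ▸ ha
  have h2 := card_sdiff_add_card_eq_card h1
  rw [card_pair hxa, h3] at h2
  obtain ⟨v, hv⟩ := card_eq_one.1 (by omega : ((B i ∩ Q) \ {x, a}).card = 1)
  have hvm : v ∈ (B i ∩ Q) \ {x, a} := by rw [hv]; exact mem_singleton_self v
  obtain ⟨h4, h5⟩ := mem_sdiff.1 hvm
  simp only [mem_insert, mem_singleton, not_or] at h5
  refine ⟨v, ?_, h5.1, h5.2⟩
  rw [← sdiff_union_of_subset h1, hv]
  ext z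
  simp only [mem_union, mem_insert, mem_singleton]
  tauto

open Classical in
/-- **two full blocks with two common points**: `S` blocks `{x, a}`, `E` blocks `{x, b}`. -/
theorem ViolR.pair_x {Q : Finset V} (hv : ViolR B Q) {x a b : V} {i m : ι} {S E : Finset ι}
    (hxa : x ≠ a) (hxb : x ≠ b) (hab : a ≠ b) (hxQ : x ∈ Q) (haQ : a ∈ Q) (hbQ : b ∈ Q)
    (hi3 : (B i ∩ Q).card = 3) (hm3 : (B m ∩ Q).card = 3) (him : i ≠ m)
    (hxi : x ∈ B i) (hai : a ∈ B i) (hbi : b ∉ B i) (hxm : x ∈ B m) (ham : a ∈ B m)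
    (hS : ∀ s ∈ S, B s ∩ Q = {x, a}) (hE : ∀ e ∈ E, B e ∩ Q = {x, b}) (hEn : E.Nonempty)
    (hor : S.Nonempty ∨ 2 ≤ E.card) (hb0 : ee B Q {b} = 0) : False := by
  have hxI : x ∈ B i ∩ Q := mem_inter.2 ⟨hxi, hxQ⟩
  have haI : a ∈ B i ∩ Q := mem_inter.2 ⟨hai, haQ⟩
  have hxM : x ∈ B m ∩ Q := mem_inter.2 ⟨hxm, hxQ⟩
  have haM : a ∈ B m ∩ Q := mem_inter.2 ⟨ham, haQ⟩
  obtain ⟨v, hi, hvx, hva⟩ := third_pt hi3 hxa hxI haI
  obtain ⟨w, hm, hwx, hwa⟩ := third_pt hm3 hxa hxM haM
  have hvI : v ∈ B i ∩ Q := by rw [hi]; simp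
  have hwM : w ∈ B m ∩ Q := by rw [hm]; simp
  have hvb : v ≠ b := fun h => hbi (h ▸ (mem_inter.1 hvI).1)
  have hiS : i ∉ S := by
    intro h
    have h1 := hS i h
    rw [h1] at hi3
    have := card_le_two (a := x) (b := a)
    omega
  have hS' : ∀ s ∈ S, B s ∩ Q ⊆ B i ∧ (B s ∩ Q).Nonempty := by
    intro s hs
    rw [hS s hs]
    refine ⟨?_, ⟨x, by simp⟩⟩
    intro z hz
    rcases mem_insert.1 hz with h | h
    · exact h ▸ hxi
    · exact mem_singleton.1 h ▸ hai
  have hE' : ∀ e ∈ E, (B e ∩ (B i ∩ Q)).Nonempty ∧ ¬ B e ∩ Q ⊆ B i := by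
    intro e he
    have h1 := hE e he
    have hxe : x ∈ B e ∩ Q := by rw [h1]; simp
    have hbe : b ∈ B e ∩ Q := by rw [h1]; simp
    exact ⟨⟨x, mem_inter.2 ⟨(mem_inter.1 hxe).1, hxI⟩⟩, fun h => hbi (h hbe)⟩
  have hEt : ∀ e ∈ E, (B e ∩ Q) \ B i = {b} := by
    intro e he
    rw [hE e he]
    ext z
    rw [mem_sdiff, mem_singleton]
    simp only [mem_insert, mem_singleton]
    constructor
    · rintro ⟨h1 | h1, h2⟩
      · exact absurd (h1 ▸ hxi) h2
      · exact h1
    · rintro rfl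
      exact ⟨Or.inr rfl, hbi⟩
  set Y2 : Finset V := if 2 ≤ E.card then {b} else ∅ with hY2
  have hY : Y2 ⊆ Q \ B i := by
    rw [hY2]
    split_ifs
    · exact singleton_subset_iff.2 (mem_sdiff.2 ⟨hbQ, hbi⟩)
    · exact empty_subset _
  have he2 : ee B Q Y2 = 0 := by
    rw [hY2]
    split_ifs
    · exact hb0
    · have h1 := ee_mono (B := B) (Q := Q) (empty_subset ({b} : Finset V))
      omega
  have h2 : ∀ y ∈ Y2, 2 ≤ (E.filter (fun e => (B e ∩ Q) \ B i = {y})).card := by
    intro y hy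
    rw [hY2] at hy
    split_ifs at hy with h1
    · rw [mem_singleton.1 hy, filter_true_of_mem hEt]
      exact h1
    · exact absurd hy (notMem_empty y)
  have hpos : 1 ≤ S.card + Y2.card := by
    rcases hor with h1 | h1
    · have := card_pos.2 h1
      omega
    · rw [hY2, if_pos h1, card_singleton]
      omega
  by_cases hvw : v = w
  · -- the block `m` is inside `i`
    have hmS : m ∉ S := by
      intro h
      have h1 := hS m h
      rw [h1] at hm3
      have := card_le_two (a := x) (b := a)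
      omega
    have h1 := hv.gm0 (S := insert m S) (E := E) hi3 (by simp [him, hiS])
      (fun s hs => by
        rcases mem_insert.1 hs with rfl | hs
        · rw [hm, ← hvw, ← hi]
          exact ⟨inter_subset_left, ⟨x, hxI⟩⟩
        · exact hS' s hs) hE' hEn hY he2 h2
    rw [card_insert_of_notMem hmS] at h1
    rcases hor with h3 | h3
    · have := card_pos.2 h3
      omega
    · rw [hY2, if_pos h3, card_singleton] at h1
      omega
  · -- a block of `v` without `w`
    have hvQ := (mem_inter.1 hvI).2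
    have hwQ := (mem_inter.1 hwM).2
    have hwi : w ∉ B i := by
      intro h
      have h1 : w ∈ B i ∩ Q := mem_inter.2 ⟨h, hwQ⟩
      rw [hi] at h1
      simp only [mem_insert, mem_singleton] at h1
      rcases h1 with h1 | h1 | h1
      · exact hwx h1
      · exact hwa h1
      · exact hvw h1.symm
    have hvm : v ∉ B m := by
      intro h
      have h1 : v ∈ B m ∩ Q := mem_inter.2 ⟨h, hvQ⟩
      rw [hm] at h1
      simp only [mem_insert, mem_singleton] at h1
      rcases h1 with h1 | h1 | h1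
      · exact hvx h1
      · exact hva h1
      · exact hvw h1
    obtain ⟨n, hnv, hni, hwn⟩ : ∃ n, v ∈ B n ∧ n ≠ i ∧ w ∉ B n := by
      by_contra hcon
      push Not at hcon
      have h5 := hv.reg v hvQ
      have h6 := hv.twin hvQ hwQ hvw
      have h7 : (univ.filter (fun k => v ∈ B k)).card ≤
          (insert i (univ.filter (fun k => v ∈ B k ∧ w ∈ B k))).card := by
        refine card_le_card ?_
        intro k hk
        have hk' := (mem_filter.1 hk).2
        by_cases h8 : k = i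
        · rw [h8]
          exact mem_insert_self _ _
        · exact mem_insert_of_mem (mem_filter.2 ⟨mem_univ _, hk', hcon k hk' h8⟩)
      have h8 := card_insert_le i (univ.filter (fun k => v ∈ B k ∧ w ∈ B k))
      omega
    have hnm : n ≠ m := fun h => hvm (h ▸ hnv)
    have hvn2 : ∀ k, B k ∩ Q = {x, a} ∨ B k ∩ Q = {x, b} → v ∉ B k := by
      intro k hk h
      have h1 : v ∈ B k ∩ Q := mem_inter.2 ⟨h, hvQ⟩
      rcases hk with hk | hk
      · rw [hk] at h1
        simp only [mem_insert, mem_singleton] at h1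
        rcases h1 with h1 | h1
        · exact hvx h1
        · exact hva h1
      · rw [hk] at h1
        simp only [mem_insert, mem_singleton] at h1
        rcases h1 with h1 | h1
        · exact hvx h1
        · exact hvb h1
    have hm2 : ∀ k, B k ∩ Q = {x, a} ∨ B k ∩ Q = {x, b} → k ≠ m := by
      intro k hk h
      rw [h, hm] at hk
      have h1 : ({x, a, w} : Finset V).card = 3 := by rw [← hm]; exact hm3
      rcases hk with hk | hk
      · rw [hk] at h1
        have := card_le_two (a := x) (b := a)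
        omega
      · rw [hk] at h1
        have := card_le_two (a := x) (b := b)
        omega
    have hc1 : ((B m ∩ Q) \ B i).card ≤ 1 := by
      have h1 : (B m ∩ Q) \ B i ⊆ {w} := by
        intro z hz
        obtain ⟨h2, h3⟩ := mem_sdiff.1 hz
        rw [hm] at h2
        simp only [mem_insert, mem_singleton] at h2
        rcases h2 with h2 | h2 | h2
        · exact absurd (h2 ▸ hxi) h3
        · exact absurd (h2 ▸ hai) h3
        · rw [h2]; exact mem_singleton_self w
      simpa using card_le_card h1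
    have hnR : (B n ∩ (B i ∩ Q)).Nonempty := ⟨v, mem_inter.2 ⟨hnv, hvI⟩⟩
    have hc2 := trace_le_two hv.tr hnR
    obtain ⟨h3, h4⟩ := hv.gm1 (m := m) (n := n) hi3 hiS hS' hE' hEn hY he2 h2 hni him.symm
      hnm.symm (fun h => hm2 m (Or.inl (hS m h)) rfl) (fun h => hvn2 n (Or.inl (hS n h)) hnv)
      (fun h => hm2 m (Or.inr (hE m h)) rfl) (fun h => hvn2 n (Or.inr (hE n h)) hnv)
      (by
        rw [hi]
        intro z hz
        simp only [mem_insert, mem_singleton] at hz
        rcases hz with rfl | rfl | rfl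
        · exact mem_union_left _ hxm
        · exact mem_union_left _ ham
        · exact mem_union_right _ hnv)
      ⟨x, mem_inter.2 ⟨hxm, hxI⟩⟩ hnR
      (by
        intro z hzQ hzm hzn
        have h1 : z ∈ B m ∩ Q := mem_inter.2 ⟨hzm, hzQ⟩
        rw [hm] at h1
        simp only [mem_insert, mem_singleton] at h1
        rcases h1 with h1 | h1 | h1
        · exact h1 ▸ hxi
        · exact h1 ▸ hai
        · exact absurd (h1 ▸ hzn) hwn) (by omega)
    rw [h3, h4, card_empty, card_empty] at hpos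
    omega

open Classical in
/-- **one full block with the points `x`, `a`, a block `{x, a}` and two blocks `{x, b}`**. -/
theorem ViolR.one_x {Q : Finset V} (hv : ViolR B Q) {x a b : V} {i : ι} {S E : Finset ι}
    (hxQ : x ∈ Q) (hbQ : b ∈ Q)
    (hi3 : (B i ∩ Q).card = 3) (hxi : x ∈ B i) (hai : a ∈ B i) (hbi : b ∉ B i)
    (hS : ∀ s ∈ S, B s ∩ Q = {x, a}) (hE : ∀ e ∈ E, x ∈ B e ∧ b ∈ B e) (hEn : E.Nonempty)
    (hor : 2 ≤ S.card ∨ (S.Nonempty ∧ 2 ≤ E.card ∧ ∀ e ∈ E, B e ∩ Q = {x, b}))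
    (hb0 : ee B Q {b} = 0) : False := by
  have hxI : x ∈ B i ∩ Q := mem_inter.2 ⟨hxi, hxQ⟩
  have hiS : i ∉ S := by
    intro h
    have h1 := hS i h
    rw [h1] at hi3
    have := card_le_two (a := x) (b := a)
    omega
  have hS' : ∀ s ∈ S, B s ∩ Q ⊆ B i ∧ (B s ∩ Q).Nonempty := by
    intro s hs
    rw [hS s hs]
    refine ⟨?_, ⟨x, by simp⟩⟩
    intro z hz
    rcases mem_insert.1 hz with h | h
    · exact h ▸ hxi
    · exact mem_singleton.1 h ▸ hai
  have hE' : ∀ e ∈ E, (B e ∩ (B i ∩ Q)).Nonempty ∧ ¬ B e ∩ Q ⊆ B i := by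
    intro e he
    obtain ⟨h1, h2⟩ := hE e he
    exact ⟨⟨x, mem_inter.2 ⟨h1, hxI⟩⟩, fun h => hbi (h (mem_inter.2 ⟨h2, hbQ⟩))⟩
  rcases hor with h1 | ⟨h1, h2, h3⟩
  · have h4 := hv.gm0 (Y2 := ∅) hi3 hiS hS' hE' hEn (empty_subset _) (by
      have h1 := ee_mono (B := B) (Q := Q) (empty_subset ({b} : Finset V))
      omega) (fun y hy => absurd hy (notMem_empty y))
    omega
  · have hEt : ∀ e ∈ E, (B e ∩ Q) \ B i = {b} := by
      intro e he
      rw [h3 e he]
      ext z
      rw [mem_sdiff, mem_singleton]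
      simp only [mem_insert, mem_singleton]
      constructor
      · rintro ⟨h1 | h1, h2⟩
        · exact absurd (h1 ▸ hxi) h2
        · exact h1
      · rintro rfl
        exact ⟨Or.inr rfl, hbi⟩
    have h4 := hv.gm0 (Y2 := {b}) hi3 hiS hS' hE' hEn
      (singleton_subset_iff.2 (mem_sdiff.2 ⟨hbQ, hbi⟩)) hb0 (fun y hy => by
        rw [mem_singleton.1 hy, filter_true_of_mem hEt]
        exact h2)
    have h5 := card_pos.2 h1
    rw [card_singleton] at h4
    omega

open Classical in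
/-- the main case. -/
theorem ViolR.point_fs_core {Q : Finset V} (hv : ViolR B Q) {x a b : V} {j : ι}
    (hj3 : (B j ∩ Q).card = 3) (haj : a ∈ B j) (hbj : b ∈ B j) (hxQ : x ∈ Q) (haQ : a ∈ Q)
    (hbQ : b ∈ Q) (hab : a ≠ b) (hxj : x ∉ B j) (hdj : ∀ k, x ∈ B k → a ∈ B k → b ∉ B k)
    (hcv : ∀ k, x ∈ B k → a ∈ B k ∨ b ∈ B k)
    (hA : (univ.filter fun k => x ∈ B k ∧ a ∈ B k).card = 3)
    (hB : (univ.filter fun k => x ∈ B k ∧ b ∈ B k).card = 2) : fs B Q {x} ≤ 1 := by
  have hxa : x ≠ a := fun h => hxj (h ▸ haj)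
  have hxb : x ≠ b := fun h => hxj (h ▸ hbj)
  set A := univ.filter fun k => x ∈ B k ∧ a ∈ B k with hAd
  set E := univ.filter fun k => x ∈ B k ∧ b ∈ B k with hEd
  have mA : ∀ k ∈ A, x ∈ B k ∧ a ∈ B k := fun k hk => (mem_filter.1 hk).2
  have mE : ∀ k ∈ E, x ∈ B k ∧ b ∈ B k := fun k hk => (mem_filter.1 hk).2
  have hdis : Disjoint A E := disjoint_left.2 fun k hk hk' =>
    hdj k (mA k hk).1 (mA k hk).2 (mE k hk').2
  have ht : tch B {x} = A ∪ E := by
    ext k
    rw [cost_mem_tch, mem_union, hAd, hEd, mem_filter, mem_filter]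
    constructor
    · rintro ⟨v, hv'⟩
      obtain ⟨h1, h2⟩ := mem_inter.1 hv'
      rw [mem_singleton] at h2
      subst h2
      rcases hcv k h1 with h3 | h3
      · exact Or.inl ⟨mem_univ _, h1, h3⟩
      · exact Or.inr ⟨mem_univ _, h1, h3⟩
    · rintro (h1 | h1)
      · exact ⟨x, mem_inter.2 ⟨h1.2.1, mem_singleton_self x⟩⟩
      · exact ⟨x, mem_inter.2 ⟨h1.2.1, mem_singleton_self x⟩⟩
  have hsubA : ∀ k ∈ A, ({x, a} : Finset V) ⊆ B k ∩ Q := by
    intro k hk z hz
    rcases mem_insert.1 hz with h | h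
    · exact h ▸ mem_inter.2 ⟨(mA k hk).1, hxQ⟩
    · exact mem_singleton.1 h ▸ mem_inter.2 ⟨(mA k hk).2, haQ⟩
  have hsubE : ∀ k ∈ E, ({x, b} : Finset V) ⊆ B k ∩ Q := by
    intro k hk z hz
    rcases mem_insert.1 hz with h | h
    · exact h ▸ mem_inter.2 ⟨(mE k hk).1, hxQ⟩
    · exact mem_singleton.1 h ▸ mem_inter.2 ⟨(mE k hk).2, hbQ⟩
  set A2 := A.filter (fun k => (B k ∩ Q).card = 2) with hA2
  set E2 := E.filter (fun k => (B k ∩ Q).card = 2) with hE2
  have eA : ∀ k ∈ A2, B k ∩ Q = {x, a} := by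
    intro k hk
    obtain ⟨h1, h2⟩ := mem_filter.1 hk
    exact (eq_of_subset_of_card_le (hsubA k h1) (by rw [card_pair hxa, h2])).symm
  have eE : ∀ k ∈ E2, B k ∩ Q = {x, b} := by
    intro k hk
    obtain ⟨h1, h2⟩ := mem_filter.1 hk
    exact (eq_of_subset_of_card_le (hsubE k h1) (by rw [card_pair hxb, h2])).symm
  have fA : ∀ k ∈ A, k ∉ A2 → (B k ∩ Q).card = 3 := by
    intro k hk hk2
    have h1 := card_le_card (hsubA k hk)
    rw [card_pair hxa] at h1
    have h2 := hv.tr k
    have h3 : (B k ∩ Q).card ≠ 2 := fun h => hk2 (mem_filter.2 ⟨hk, h⟩)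
    omega
  have fE : ∀ k ∈ E, k ∉ E2 → (B k ∩ Q).card = 3 := by
    intro k hk hk2
    have h1 := card_le_card (hsubE k hk)
    rw [card_pair hxb] at h1
    have h2 := hv.tr k
    have h3 : (B k ∩ Q).card ≠ 2 := fun h => hk2 (mem_filter.2 ⟨hk, h⟩)
    omega
  have hfs : fs B Q {x} = (A2.card : ℤ) + E2.card := by
    unfold fs
    rw [ht, sum_union hdis, hA2, hE2, card_filter, card_filter]
    push_cast
    congr 1
    · refine sum_congr rfl fun k hk => ?_
      split_ifs with h1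
      · rw [h1]; norm_num
      · rw [fA k hk (fun h => h1 (mem_filter.1 h).2)]; norm_num
    · refine sum_congr rfl fun k hk => ?_
      split_ifs with h1
      · rw [h1]; norm_num
      · rw [fE k hk (fun h => h1 (mem_filter.1 h).2)]; norm_num
  have ea := hv.ee_pt' haj haQ hj3
  have eb := hv.ee_pt' hbj hbQ hj3
  have cA2 : A2.card ≤ 3 := hA ▸ card_le_card (filter_subset _ _)
  have cE2 : E2.card ≤ 2 := hB ▸ card_le_card (filter_subset _ _)
  have nbA : ∀ k ∈ A, b ∉ B k := fun k hk => hdj k (mA k hk).1 (mA k hk).2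
  have naE : ∀ k ∈ E, a ∉ B k := fun k hk h => hdj k (mE k hk).1 h (mE k hk).2
  -- full blocks
  have exA : ∀ n, A2.card + n ≤ 3 → n ≤ (A \ A2).card := by
    intro n hn
    have h1 := card_sdiff_add_card_eq_card (filter_subset (fun k => (B k ∩ Q).card = 2) A)
    rw [← hA2] at h1
    omega
  have exE : ∀ n, E2.card + n ≤ 2 → n ≤ (E \ E2).card := by
    intro n hn
    have h1 := card_sdiff_add_card_eq_card (filter_subset (fun k => (B k ∩ Q).card = 2) E)
    rw [← hE2] at h1
    omega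
  rw [hfs]
  by_contra hcon
  have hge : 2 ≤ A2.card + E2.card := by
    have : (2 : ℤ) ≤ (A2.card : ℤ) + E2.card := by omega
    exact_mod_cast this
  have hEne : E.Nonempty := card_pos.1 (by omega)
  have hAne : A.Nonempty := card_pos.1 (by omega)
  rcases (by omega : A2.card = 3 ∨ A2.card = 2 ∨ (A2.card = 1 ∧ E2.card = 2) ∨
    (A2.card = 1 ∧ E2.card = 1) ∨ (A2.card = 0 ∧ E2.card = 2)) with h | h | h | h | h
  · -- all blocks with `a` are `{x, a}`
    have hAA : A2 = A := eq_of_subset_of_card_le (filter_subset _ _) (by omega)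
    have eA' : ∀ e ∈ A, B e ∩ Q = {x, a} := by rw [← hAA]; exact eA
    rcases (by omega : E2.card = 2 ∨ E2.card = 1 ∨ E2.card = 0) with h1 | h1 | h1
    · -- `x` is separated by `a`, `b`
      have hEE : E2 = E := eq_of_subset_of_card_le (filter_subset _ _) (by omega)
      have h2 := hv.sep2 haQ hbQ hab
      have h3 : ({x} : Finset V) = Q \ {a, b} := by
        refine h2.2 {x} ⟨?_, ?_⟩ (singleton_nonempty x)
        · exact singleton_subset_iff.2 (mem_sdiff.2 ⟨hxQ, by simp [hxa, hxb]⟩)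
        · intro p hp q hq hadj
          rw [mem_singleton] at hp
          subst hp
          obtain ⟨hqQ, hq2⟩ := mem_sdiff.1 hq
          obtain ⟨hne, k, h4, h5⟩ := hadj
          exfalso
          have h6 : q ∈ B k ∩ Q := mem_inter.2 ⟨h5, hqQ⟩
          rcases hcv k h4 with h7 | h7
          · rw [eA' k (mem_filter.2 ⟨mem_univ _, h4, h7⟩)] at h6
            simp only [mem_insert, mem_singleton] at h6 hq2
            rcases h6 with h6 | h6
            · exact hne h6.symm
            · exact hq2 (Or.inl h6)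
          · rw [eE k (hEE ▸ mem_filter.2 ⟨mem_univ _, h4, h7⟩)] at h6
            simp only [mem_insert, mem_singleton] at h6 hq2
            rcases h6 with h6 | h6
            · exact hne h6.symm
            · exact hq2 (Or.inr h6)
      have h4 : B j ∩ Q ⊆ {a, b} := by
        intro z hz
        obtain ⟨h5, h6⟩ := mem_inter.1 hz
        by_contra h7
        have h8 : z ∈ ({x} : Finset V) := by
          rw [h3]
          exact mem_sdiff.2 ⟨h6, h7⟩
        exact hxj (mem_singleton.1 h8 ▸ h5)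
      have h5 := card_le_card h4
      rw [card_pair hab] at h5
      omega
    · obtain ⟨i, hi⟩ := card_pos.1 (exE 1 (by omega))
      obtain ⟨hi1, hi2⟩ := mem_sdiff.1 hi
      exact hv.one_x (x := x) (a := b) (b := a) (i := i) (S := E2) (E := A) hxQ haQ
        (fE i hi1 hi2) (mE i hi1).1 (mE i hi1).2 (naE i hi1) eE mA hAne
        (Or.inr ⟨card_pos.1 (by omega), by omega, eA'⟩) ea
    · obtain ⟨i, hi, m, hm, him⟩ := one_lt_card.1 (exE 2 (by omega))
      obtain ⟨hi1, hi2⟩ := mem_sdiff.1 hi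
      obtain ⟨hm1, hm2⟩ := mem_sdiff.1 hm
      exact hv.pair_x (x := x) (a := b) (b := a) (i := i) (m := m) (S := ∅) (E := A) hxb hxa
        hab.symm hxQ hbQ haQ (fE i hi1 hi2) (fE m hm1 hm2) him (mE i hi1).1 (mE i hi1).2
        (naE i hi1) (mE m hm1).1 (mE m hm1).2 (fun s hs => absurd hs (notMem_empty s)) eA' hAne
        (Or.inr (by omega)) ea
  · obtain ⟨i, hi⟩ := card_pos.1 (exA 1 (by omega))
    obtain ⟨hi1, hi2⟩ := mem_sdiff.1 hi
    exact hv.one_x (x := x) (a := a) (b := b) (i := i) (S := A2) (E := E) hxQ hbQ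
      (fA i hi1 hi2) (mA i hi1).1 (mA i hi1).2 (nbA i hi1) eA mE hEne (Or.inl (by omega)) eb
  · have hEE : E2 = E := eq_of_subset_of_card_le (filter_subset _ _) (by omega)
    obtain ⟨i, hi⟩ := card_pos.1 (exA 1 (by omega))
    obtain ⟨hi1, hi2⟩ := mem_sdiff.1 hi
    exact hv.one_x (x := x) (a := a) (b := b) (i := i) (S := A2) (E := E) hxQ hbQ
      (fA i hi1 hi2) (mA i hi1).1 (mA i hi1).2 (nbA i hi1) eA mE hEne
      (Or.inr ⟨card_pos.1 (by omega), by omega, by rw [← hEE]; exact eE⟩) eb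
  · obtain ⟨i, hi, m, hm, him⟩ := one_lt_card.1 (exA 2 (by omega))
    obtain ⟨hi1, hi2⟩ := mem_sdiff.1 hi
    obtain ⟨hm1, hm2⟩ := mem_sdiff.1 hm
    exact hv.pair_x (x := x) (a := a) (b := b) (i := i) (m := m) (S := A2) (E := E2) hxa hxb
      hab hxQ haQ hbQ (fA i hi1 hi2) (fA m hm1 hm2) him (mA i hi1).1 (mA i hi1).2
      (nbA i hi1) (mA m hm1).1 (mA m hm1).2 eA eE (card_pos.1 (by omega))
      (Or.inl (card_pos.1 (by omega))) eb
  · have hEE : E2 = E := eq_of_subset_of_card_le (filter_subset _ _) (by omega)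
    obtain ⟨i, hi, m, hm, him⟩ := one_lt_card.1 (exA 2 (by omega))
    obtain ⟨hi1, hi2⟩ := mem_sdiff.1 hi
    obtain ⟨hm1, hm2⟩ := mem_sdiff.1 hm
    exact hv.pair_x (x := x) (a := a) (b := b) (i := i) (m := m) (S := ∅) (E := E2) hxa hxb
      hab hxQ haQ hbQ (fA i hi1 hi2) (fA m hm1 hm2) him (mA i hi1).1 (mA i hi1).2
      (nbA i hi1) (mA m hm1).1 (mA m hm1).2 (fun s hs => absurd hs (notMem_empty s)) eE
      (card_pos.1 (by omega)) (Or.inr (by omega)) eb

open Classical in
/-- **a point all whose blocks have exactly one of two points of a full block**: at most one free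
place. -/
theorem ViolR.point_fs {Q : Finset V} (hv : ViolR B Q) {x a b : V} {j : ι}
    (hj3 : (B j ∩ Q).card = 3) (haj : a ∈ B j) (hbj : b ∈ B j) (hxQ : x ∈ Q) (haQ : a ∈ Q)
    (hbQ : b ∈ Q) (hab : a ≠ b) (hxj : x ∉ B j) (hdj : ∀ k, x ∈ B k → a ∈ B k → b ∉ B k)
    (h5 : 5 ≤ (univ.filter fun k => x ∈ B k ∧ a ∈ B k).card +
      (univ.filter fun k => x ∈ B k ∧ b ∈ B k).card) : fs B Q {x} ≤ 1 := by
  have hxa : x ≠ a := fun h => hxj (h ▸ haj)
  have hxb : x ≠ b := fun h => hxj (h ▸ hbj)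
  have h1 := hv.twin hxQ haQ hxa
  have h2 := hv.twin hxQ hbQ hxb
  have hdis : Disjoint (univ.filter fun k => x ∈ B k ∧ a ∈ B k)
      (univ.filter fun k => x ∈ B k ∧ b ∈ B k) := disjoint_left.2 fun k hk hk' =>
    hdj k (mem_filter.1 hk).2.1 (mem_filter.1 hk).2.2 (mem_filter.1 hk').2.2
  have hX := hv.reg x hxQ
  have hsub : (univ.filter fun k => x ∈ B k ∧ a ∈ B k) ∪
      (univ.filter fun k => x ∈ B k ∧ b ∈ B k) ⊆ univ.filter fun k => x ∈ B k := by
    intro k hk
    rcases mem_union.1 hk with h | h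
    · exact mem_filter.2 ⟨mem_univ _, (mem_filter.1 h).2.1⟩
    · exact mem_filter.2 ⟨mem_univ _, (mem_filter.1 h).2.1⟩
  have h3 := card_le_card hsub
  rw [card_union_of_disjoint hdis] at h3
  have h6 : (univ.filter fun k => x ∈ B k ∧ a ∈ B k) ∪
      (univ.filter fun k => x ∈ B k ∧ b ∈ B k) = univ.filter fun k => x ∈ B k :=
    eq_of_subset_of_card_le hsub (by rw [card_union_of_disjoint hdis]; omega)
  have hcv : ∀ k, x ∈ B k → a ∈ B k ∨ b ∈ B k := by
    intro k hk
    have h7 : k ∈ univ.filter fun k => x ∈ B k := mem_filter.2 ⟨mem_univ _, hk⟩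
    rw [← h6] at h7
    rcases mem_union.1 h7 with h | h
    · exact Or.inl (mem_filter.1 h).2.2
    · exact Or.inr (mem_filter.1 h).2.2
  rcases (by omega : ((univ.filter fun k => x ∈ B k ∧ a ∈ B k).card = 3 ∧
      (univ.filter fun k => x ∈ B k ∧ b ∈ B k).card = 2) ∨
    ((univ.filter fun k => x ∈ B k ∧ a ∈ B k).card = 2 ∧
      (univ.filter fun k => x ∈ B k ∧ b ∈ B k).card = 3)) with ⟨h7, h8⟩ | ⟨h7, h8⟩
  · exact hv.point_fs_core hj3 haj hbj hxQ haQ hbQ hab hxj hdj hcv h7 h8
  · exact hv.point_fs_core hj3 hbj haj hxQ hbQ haQ hab.symm hxj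
      (fun k hk hk1 hk2 => hdj k hk hk2 hk1) (fun k hk => (hcv k hk).symm) h8 h7

end Pool.Agent.Hyp6
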