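import Pool.Agent.Hyp6.GEd
import Pool.Agent.Hyp6.L3E

/-!
# HYP6 L3K: the max-K frame of level 3

`MTP B Q T`: the blocks of `T` have pairwise disjoint traces with three points, they belong to an
optimal cover of `Q`, and their number is maximal. On the rest `D` the cover number is given by a
maximum matching, and the decomposition of Gallai and Edmonds gives the leaves.
-/

set_option autoImplicit false

namespace Pool.Agent.Hyp6

open Finset Pool.Agent.Hyp5

universe u v

variable {V : Type v} [DecidableEq V] {ι : Type u} {B : ι → Finset V}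

/-- the triples of `T` belong to an optimal cover. -/
structure TPk (B : ι → Finset V) (Q : Finset V) (T : Finset ι) : Prop where
  pack : Pack B Q 3 T
  opt : rho B (Q \ T.biUnion B) + T.card = rho B Q

/-- a maximal packing of triples contained in an optimal cover. -/
structure MTP (B : ι → Finset V) (Q : Finset V) (T : Finset ι) : Prop where
  tpk : TPk B Q T
  max : ∀ T', TPk B Q T' → T'.card ≤ T.card

theorem exists_MTP [Fintype ι] (B : ι → Finset V) (Q : Finset V) : ∃ T, MTP B Q T := by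
  classical
  obtain ⟨T, hT, hmax⟩ := Finset.exists_max_image
    ((univ : Finset (Finset ι)).filter (fun T => TPk B Q T)) Finset.card
    ⟨∅, mem_filter.2 ⟨mem_univ _, pack_empty Q 3, by simp⟩⟩
  exact ⟨T, (mem_filter.1 hT).2, fun T' hT' => hmax T' (mem_filter.2 ⟨mem_univ _, hT'⟩)⟩

/-- no optimal cover of `D` uses a block with three points. -/
def PT (B : ι → Finset V) (D : Finset V) : Prop :=
  ∀ i, (B i ∩ D).card = 3 → rho B D ≤ rho B (D \ B i)

theorem MTP.pt {Q : Finset V} {T : Finset ι} (h : MTP B Q T) (hc : Cov B Q) (h3 : Tr3 B Q) :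
    PT B (Q \ T.biUnion B) := by
  classical
  intro i hi
  by_contra hcon
  push Not at hcon
  set D := Q \ T.biUnion B with hD
  have hDQ : D ⊆ Q := sdiff_subset
  have hcD : Cov B D := hc.mono hDQ
  have h1 : rho B D ≤ rho B (D \ B i) + 1 := rho_le_sdiff (i := i) (Subset.refl _) hcD
  have hsub : B i ∩ D ⊆ B i ∩ Q := inter_subset_inter_left hDQ
  have heq : B i ∩ D = B i ∩ Q := eq_of_subset_of_card_le hsub (by rw [hi]; exact h3 i)
  have hdis : ∀ j ∈ T, Disjoint (B i ∩ Q) (B j ∩ Q) := by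
    intro j hj
    rw [← heq, disjoint_left]
    intro v hv hv'
    exact (mem_sdiff.1 (mem_inter.1 hv).2).2 (mem_biUnion.2 ⟨j, hj, (mem_inter.1 hv').1⟩)
  have hiT : i ∉ T := by
    intro hiT
    have h2 := hdis i hiT
    rw [disjoint_self] at h2
    have h4 : (B i ∩ Q).card = 3 := by rw [← heq, hi]
    rw [h2] at h4
    simp at h4
  have hnew : TPk B Q (insert i T) := by
    refine ⟨⟨fun j hj => ?_, fun j hj k hk hne => ?_⟩, ?_⟩
    · rcases mem_insert.1 hj with rfl | hj
      · rw [← heq, hi]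
      · exact h.tpk.pack.card j hj
    · rcases mem_insert.1 hj with hj1 | hj1
      · rcases mem_insert.1 hk with hk1 | hk1
        · exact absurd (hj1.trans hk1.symm) hne
        · rw [hj1]
          exact hdis k hk1
      · rcases mem_insert.1 hk with hk1 | hk1
        · rw [hk1]
          exact (hdis j hj1).symm
        · exact h.tpk.pack.disj j hj1 k hk1 hne
    · have hset : Q \ (insert i T).biUnion B = D \ B i := by
        rw [biUnion_insert]
        ext v
        simp only [hD, mem_sdiff, mem_union]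
        tauto
      rw [hset, card_insert_of_notMem hiT]
      have h5 := h.tpk.opt
      rw [← hD] at h5
      omega
  have h6 := h.max _ hnew
  rw [card_insert_of_notMem hiT] at h6
  omega

/-- if no optimal cover uses a triple, the cover number is given by a matching. -/
theorem exists_pair_cover : ∀ (n : ℕ) (D : Finset V), D.card ≤ n → Cov B D → Tr3 B D → PT B D →
    ∃ M ⊆ D, PM (gr B) M ∧ 2 * rho B D = M.card + 2 * (D \ M).card := by
  classical
  intro n
  induction n with
  | zero =>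
    intro D hn _ _ _
    have h0 : D = ∅ := card_eq_zero.1 (by omega)
    subst h0
    exact ⟨∅, Subset.refl _, PM.empty _, by simp⟩
  | succ n ih =>
    intro D hn hc h3 hpt
    rcases D.eq_empty_or_nonempty with rfl | ⟨v, hv⟩
    · exact ⟨∅, Subset.refl _, PM.empty _, by simp⟩
    obtain ⟨T, hT, hTc⟩ := exists_cover hc
    obtain ⟨i, hi, hvi⟩ := mem_biUnion.1 (hT hv)
    set D' := D \ B i with hD'
    have hD'D : D' ⊆ D := sdiff_subset
    have hc' : Cov B D' := hc.mono hD'D
    have hr1 : rho B D ≤ rho B D' + 1 := rho_le_sdiff (i := i) (Subset.refl _) hc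
    have hr2 : rho B D' ≤ (T.erase i).card := by
      refine rho_le ?_
      intro w hw
      obtain ⟨hw1, hw2⟩ := mem_sdiff.1 hw
      obtain ⟨j, hj, hwj⟩ := mem_biUnion.1 (hT hw1)
      refine mem_biUnion.2 ⟨j, mem_erase.2 ⟨?_, hj⟩, hwj⟩
      rintro rfl
      exact hw2 hwj
    have hr3 : rho B D' + 1 = rho B D := by
      have h4 := card_erase_add_one hi
      omega
    have hPne : (B i ∩ D).Nonempty := ⟨v, mem_inter.2 ⟨hvi, hv⟩⟩
    have hPpos := card_pos.2 hPne
    have hPle := h3 i
    have hP3 : (B i ∩ D).card ≠ 3 := by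
      intro h
      have h4 := hpt i h
      rw [← hD'] at h4
      omega
    have hcardD : D'.card + (B i ∩ D).card = D.card := by
      have := card_sdiff_add_card_inter D (B i)
      rwa [inter_comm] at this
    have h3' : Tr3 B D' := h3.mono hD'D
    have hpt' : PT B D' := by
      intro j hj
      have h5 : (B j ∩ D).card = 3 := by
        have h6 := card_le_card (inter_subset_inter_left hD'D : B j ∩ D' ⊆ B j ∩ D)
        have h7 := h3 j
        omega
      have h6 := hpt j h5
      have h7 : rho B (D \ B j) ≤ rho B ((D \ B j) \ B i) + 1 :=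
        rho_le_sdiff (i := i) (Subset.refl _) (hc.mono sdiff_subset)
      have h8 : (D \ B j) \ B i = D' \ B j := by
        ext w
        simp only [hD', mem_sdiff]
        tauto
      rw [h8] at h7
      omega
    obtain ⟨M', hM', hpm, heq⟩ := ih D' (by omega) hc' h3' hpt'
    have hM'D : M' ⊆ D := hM'.trans hD'D
    have hcM' := card_sdiff_add_card_eq_card hM'
    have hP12 : (B i ∩ D).card = 1 ∨ (B i ∩ D).card = 2 := by omega
    rcases hP12 with hP | hP
    · refine ⟨M', hM'D, hpm, ?_⟩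
      have hcM := card_sdiff_add_card_eq_card hM'D
      omega
    · obtain ⟨x, y, hxy, hP'⟩ := card_eq_two.1 hP
      have hx : x ∈ B i ∩ D := by rw [hP']; simp
      have hy : y ∈ B i ∩ D := by rw [hP']; simp
      have hadj : (gr B).Adj x y := ⟨hxy, i, (mem_inter.1 hx).1, (mem_inter.1 hy).1⟩
      have hdis : Disjoint M' (B i ∩ D) := by
        rw [disjoint_left]
        intro w hw hw'
        exact (mem_sdiff.1 (hM' hw)).2 (mem_inter.1 hw').1
      have hpm2 : PM (gr B) (M' ∪ (B i ∩ D)) := by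
        refine hpm.union ?_ hdis
        rw [hP']
        exact PM.pair hadj
      have hsub : M' ∪ (B i ∩ D) ⊆ D := union_subset hM'D inter_subset_right
      refine ⟨M' ∪ (B i ∩ D), hsub, hpm2, ?_⟩
      have hcM := card_sdiff_add_card_eq_card hsub
      have hcU := card_union_of_disjoint hdis
      omega

section GEs

variable {D U : Finset V} {F : Finset (Finset V)}

theorem GE.FU (h : GE (gr B) D U F) : ∀ C ∈ F, Disjoint C U := by
  intro C hC
  rw [disjoint_left]
  intro v hv hvA
  exact (mem_sdiff.1 ((h.sys.closed C hC).1 hv)).2 hvA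

theorem GE.FD (h : GE (gr B) D U F) : ∀ C ∈ F, C ⊆ D := fun C hC =>
  (h.sys.closed C hC).1.trans sdiff_subset

theorem GE.FE (_h : GE (gr B) D U F) : ∀ C ∈ F, Disjoint C ((D \ U) \ F.biUnion id) := by
  intro C hC
  rw [disjoint_left]
  intro v hv hv'
  exact (mem_sdiff.1 hv').2 (mem_biUnion.2 ⟨C, hC, hv⟩)

theorem GE.set_eq (h : GE (gr B) D U F) :
    U ∪ F.biUnion id ∪ ((D \ U) \ F.biUnion id) = D := by
  have hcl : F.biUnion id ⊆ D \ U := (Closed.biUnion h.sys.closed).1
  rw [union_assoc, union_sdiff_of_subset hcl, union_sdiff_of_subset h.sub]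

theorem GE.weak (h : GE (gr B) D U F) : ∀ Z ⊆ U, Z.card ≤ (nbF (gr B) F Z).card := by
  intro Z hZ
  rcases Z.eq_empty_or_nonempty with rfl | hne
  · simp
  · have := h.surplus Z hZ hne
    omega

theorem GE.weak_erase (h : GE (gr B) D U F) (C : Finset V) :
    ∀ Z ⊆ U, Z.card ≤ (nbF (gr B) (F.erase C) Z).card := by
  intro Z hZ
  rcases Z.eq_empty_or_nonempty with rfl | hne
  · simp
  · have h1 := h.surplus Z hZ hne
    have h2 := nbF_erase (G := gr B) (F := F) (Z := Z) (C := C)
    omega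

/-- lower bound for the value of `D`. -/
theorem GE.sv_ge [Fintype ι] (h : GE (gr B) D U F) (hc : Cov B D) (hne : D.Nonempty) :
    (U.card : ℤ) - F.card + sv B ((D \ U) \ F.biUnion id) ≤ sv B D := by
  classical
  obtain ⟨v0, _⟩ := hne
  have : Nonempty V := ⟨v0⟩
  obtain ⟨F1, φ, hF1, hcard, hφ, hinj, him⟩ := exists_match h.weak
  have h1 := sv_ge_of_assignment (B := B) (A := U) (R := (D \ U) \ F.biUnion id) (F := F)
    (F1 := F1) (F2 := F \ F1) (F3 := ∅) (φ := φ) (by rw [h.set_eq]; exact hc) h.sys.fc h.sys.disj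
    h.FU h.FE
    (by
      rw [disjoint_left]
      intro v hv hv'
      exact (mem_sdiff.1 (mem_sdiff.1 hv').1).2 hv)
    (by rw [union_empty, union_sdiff_of_subset hF1]) disjoint_sdiff (disjoint_empty_right _)
    (disjoint_empty_right _) hφ hinj him (by simp)
  rw [h.set_eq, card_empty] at h1
  have h2 := card_sdiff_add_card_eq_card hF1
  have h3 : ((F \ F1).card : ℤ) = F.card - U.card := by omega
  push_cast at h1
  linarith

/-- lower bound for the value of `D` with the leaf `C0` replaced by its subset `C1`. -/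
theorem GE.sv_ge_erase [Fintype ι] (h : GE (gr B) D U F) (hc : Cov B D) {C0 C1 : Finset V}
    (hC0 : C0 ∈ F) (hC1 : C1 ⊆ C0) :
    (U.card : ℤ) - F.card + 1 + sv B C1 + sv B ((D \ U) \ F.biUnion id) ≤
      sv B (D \ (C0 \ C1)) := by
  classical
  obtain ⟨v0, _⟩ := (h.sys.fc C0 hC0).1
  have : Nonempty V := ⟨v0⟩
  obtain ⟨F1, φ, hF1, hcard, hφ, hinj, him⟩ := exists_match (h.weak_erase C0)
  set E := (D \ U) \ F.biUnion id with hE
  have hset : U ∪ (F.erase C0).biUnion id ∪ (C1 ∪ E) = D \ (C0 \ C1) := by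
    ext v
    simp only [mem_union, mem_biUnion, mem_sdiff, mem_erase, id]
    constructor
    · rintro ((hv | ⟨C, ⟨hne, hC⟩, hv⟩) | (hv | hv))
      · exact ⟨h.sub hv, fun h2 => disjoint_left.1 (h.FU C0 hC0) h2.1 hv⟩
      · exact ⟨h.FD C hC hv, fun h2 => disjoint_left.1 (h.sys.disj C hC C0 hC0 hne) hv h2.1⟩
      · exact ⟨h.FD C0 hC0 (hC1 hv), fun h2 => h2.2 hv⟩
      · exact ⟨(mem_sdiff.1 (mem_sdiff.1 hv).1).1,
          fun h2 => disjoint_left.1 (h.FE C0 hC0) h2.1 hv⟩
    · rintro ⟨hv, h2⟩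
      by_cases hvU : v ∈ U
      · exact Or.inl (Or.inl hvU)
      by_cases hvF : v ∈ F.biUnion id
      · obtain ⟨C, hC, hvC⟩ := mem_biUnion.1 hvF
        by_cases hCC : C = C0
        · subst hCC
          refine Or.inr (Or.inl ?_)
          by_contra hcon
          exact h2 ⟨hvC, hcon⟩
        · exact Or.inl (Or.inr ⟨C, ⟨hCC, hC⟩, hvC⟩)
      · exact Or.inr (Or.inr (mem_sdiff.2 ⟨mem_sdiff.2 ⟨hv, hvU⟩, hvF⟩))
  have hsub : F.erase C0 ⊆ F := erase_subset _ _
  have hC1E : Disjoint C1 E := disjoint_of_subset_left hC1 (h.FE C0 hC0)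
  have hcR : Cov B (C1 ∪ E) := hc.mono (by
    refine union_subset (hC1.trans (h.FD C0 hC0)) ?_
    exact sdiff_subset.trans sdiff_subset)
  have h1 := sv_ge_of_assignment (B := B) (A := U) (R := C1 ∪ E) (F := F.erase C0)
    (F1 := F1) (F2 := F.erase C0 \ F1) (F3 := ∅) (φ := φ)
    (by rw [hset]; exact hc.mono sdiff_subset) (fun C hC => h.sys.fc C (hsub hC))
    (fun C hC C' hC' => h.sys.disj C (hsub hC) C' (hsub hC')) (fun C hC => h.FU C (hsub hC))
    (fun C hC => by
      rw [disjoint_union_right]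
      refine ⟨disjoint_of_subset_right hC1 ?_, h.FE C (hsub hC)⟩
      exact h.sys.disj C (hsub hC) C0 hC0 (mem_erase.1 hC).1)
    (by
      rw [disjoint_union_right]
      refine ⟨disjoint_of_subset_right hC1 (h.FU C0 hC0).symm, ?_⟩
      rw [disjoint_left]
      intro v hv hv'
      exact (mem_sdiff.1 (mem_sdiff.1 hv').1).2 hv)
    (by rw [union_empty, union_sdiff_of_subset hF1]) disjoint_sdiff (disjoint_empty_right _)
    (disjoint_empty_right _) hφ hinj him (by simp)
  rw [hset, card_empty] at h1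
  have h2 := card_sdiff_add_card_eq_card hF1
  have h2' := card_erase_add_one hC0
  have h3 : ((F.erase C0 \ F1).card : ℤ) = F.card - 1 - U.card := by omega
  have h4 := sv_union_ge (B := B) (hcR.mono subset_union_left) (hcR.mono subset_union_right) hC1E
  push_cast at h1
  linarith

theorem GE.rest_nonneg [Fintype ι] (h : GE (gr B) D U F) : 0 ≤ sv B ((D \ U) \ F.biUnion id) :=
  pm_sv_nonneg h.rest

/-- upper bound for the value if no optimal cover uses a triple. -/
theorem GE.sv_le [Fintype ι] (h : GE (gr B) D U F) (hc : Cov B D) (h3 : Tr3 B D) (hpt : PT B D) :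
    sv B D ≤ (U.card : ℤ) - F.card := by
  classical
  obtain ⟨M, hM, hpm, heq⟩ := exists_pair_cover D.card D le_rfl hc h3 hpt
  have hcM := card_sdiff_add_card_eq_card hM
  set F' := F.filter (fun C => Disjoint C (D \ M)) with hF'
  have hodd : OddSys (gr B) (M \ (U ∩ M)) F' := by
    refine ⟨fun C hC => ?_, fun C hC => (h.sys.fc C (mem_filter.1 hC).1).odd,
      fun C hC C' hC' => h.sys.disj C (mem_filter.1 hC).1 C' (mem_filter.1 hC').1⟩
    obtain ⟨h1, h2⟩ := mem_filter.1 hC
    refine ⟨fun x hx => ?_, fun x hx y hy hxy => ?_⟩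
    · have h4 := mem_sdiff.1 ((h.sys.closed C h1).1 hx)
      refine mem_sdiff.2 ⟨?_, fun h5 => h4.2 (mem_inter.1 h5).1⟩
      by_contra hcon
      exact disjoint_left.1 h2 hx (mem_sdiff.2 ⟨h4.1, hcon⟩)
    · obtain ⟨hy1, hy2⟩ := mem_sdiff.1 hy
      exact (h.sys.closed C h1).2 x hx y
        (mem_sdiff.2 ⟨hM hy1, fun h5 => hy2 (mem_inter.2 ⟨h5, hy1⟩)⟩) hxy
  have h1 := pm_odd_le hpm hodd
  have h2 : (U ∩ M).card ≤ U.card := card_le_card inter_subset_left
  have hF'F : F' ⊆ F := filter_subset _ _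
  have h4 : (F \ F').card ≤ (D \ M).card := by
    have hex : ∀ C ∈ F \ F', ∃ x ∈ C, x ∈ D \ M := by
      intro C hC
      obtain ⟨h5, h6⟩ := mem_sdiff.1 hC
      have h7 : ¬ Disjoint C (D \ M) := fun h8 => h6 (mem_filter.2 ⟨h5, h8⟩)
      rw [not_disjoint_iff] at h7
      exact h7
    rcases (F \ F').eq_empty_or_nonempty with h0 | ⟨C0, hC0⟩
    · rw [h0]
      simp
    obtain ⟨x0, _⟩ := hex C0 hC0
    have : Nonempty V := ⟨x0⟩
    choose! g hg using hex
    refine card_le_card_of_injOn g (fun C hC => (hg C hC).2) ?_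
    intro C hC C' hC' he
    by_contra hne
    have e1 := (hg C hC).1
    have e2 := (hg C' hC').1
    rw [← he] at e2
    exact disjoint_left.1 (h.sys.disj C (mem_sdiff.1 (mem_coe.1 hC)).1 C'
      (mem_sdiff.1 (mem_coe.1 hC')).1 hne) e1 e2
  have h5 := card_sdiff_add_card_eq_card hF'F
  unfold sv
  have h6 : (2 * (rho B D : ℤ)) = M.card + 2 * (D \ M).card := by exact_mod_cast heq
  omega

end GEs

/-- the frame: a maximal packing of triples and the decomposition of the rest. -/
structure Frm (B : ι → Finset V) (Q : Finset V) (T : Finset ι) (U : Finset V)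
    (F : Finset (Finset V)) : Prop where
  reg3 : Tr3 B Q
  cov : Cov B Q
  mtp : MTP B Q T
  ge : GE (gr B) (Q \ T.biUnion B) U F

theorem exists_frm [Fintype ι] {Q : Finset V} (hc : Cov B Q) (h3 : Tr3 B Q) :
    ∃ (T : Finset ι) (U : Finset V) (F : Finset (Finset V)), Frm B Q T U F := by
  obtain ⟨T, hT⟩ := exists_MTP B Q
  obtain ⟨U, F, hF⟩ := exists_GE (gr B) (Q \ T.biUnion B)
  exact ⟨T, U, F, h3, hc, hT, hF⟩

/-- the set of the points outside the triples. -/
def Dp (B : ι → Finset V) (Q : Finset V) (T : Finset ι) : Finset V := Q \ T.biUnion B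

/-- the even part. -/
def Ep (B : ι → Finset V) (Q : Finset V) (T : Finset ι) (U : Finset V) (F : Finset (Finset V)) :
    Finset V := ((Q \ T.biUnion B) \ U) \ F.biUnion id

namespace Frm

variable {Q U : Finset V} {T : Finset ι} {F : Finset (Finset V)}

theorem DQ : Dp B Q T ⊆ Q := sdiff_subset

theorem covD (h : Frm B Q T U F) : Cov B (Dp B Q T) := h.cov.mono DQ

theorem tr3D (h : Frm B Q T U F) : Tr3 B (Dp B Q T) := h.reg3.mono DQ

theorem pt (h : Frm B Q T U F) : PT B (Dp B Q T) := h.mtp.pt h.cov h.reg3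

theorem FD (h : Frm B Q T U F) {C : Finset V} (hC : C ∈ F) : C ⊆ Dp B Q T := h.ge.FD C hC

theorem FQ (h : Frm B Q T U F) {C : Finset V} (hC : C ∈ F) : C ⊆ Q := (h.FD hC).trans DQ

theorem ED : Ep B Q T U F ⊆ Dp B Q T := sdiff_subset.trans sdiff_subset

theorem rhoD (h : Frm B Q T U F) : rho B (Dp B Q T) + T.card = rho B Q := h.mtp.tpk.opt

theorem cardD (h : Frm B Q T U F) : (Dp B Q T).card + 3 * T.card = Q.card :=
  h.mtp.tpk.pack.card_eq

theorem svD' (h : Frm B Q T U F) : sv B (Dp B Q T) = sv B Q - T.card := by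
  have h1 := h.rhoD
  have h2 := h.cardD
  unfold sv
  omega

variable [Fintype ι]

/-- the value of the rest. -/
theorem svD (h : Frm B Q T U F) : sv B (Dp B Q T) = (U.card : ℤ) - F.card := by
  refine le_antisymm (h.ge.sv_le h.covD h.tr3D h.pt) ?_
  rcases (Dp B Q T).eq_empty_or_nonempty with h0 | hne
  · have hU : U = ∅ := subset_empty.1 (h0 ▸ h.ge.sub)
    rw [h0, sv_empty, hU, card_empty]
    push_cast
    linarith [(by positivity : (0 : ℤ) ≤ F.card)]
  · have h1 := h.ge.sv_ge h.covD hne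
    have h2 := h.ge.rest_nonneg
    unfold Dp at *
    linarith

/-- the number of leaves. -/
theorem card_F (h : Frm B Q T U F) : (F.card : ℤ) = T.card - sv B Q + U.card := by
  have h1 := h.svD
  rw [h.svD'] at h1
  linarith

/-- the even part has value zero. -/
theorem svE (h : Frm B Q T U F) : sv B (Ep B Q T U F) = 0 := by
  refine le_antisymm ?_ h.ge.rest_nonneg
  rcases (Dp B Q T).eq_empty_or_nonempty with h0 | hne
  · have hE : Ep B Q T U F = ∅ := subset_empty.1 (h0 ▸ ED)
    rw [hE, sv_empty]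
  · have h1 := h.ge.sv_ge h.covD hne
    have h2 := h.svD
    unfold Dp at h2
    unfold Ep
    linarith

/-- the leaves have value `-1`. -/
theorem sv_leaf (h : Frm B Q T U F) {C : Finset V} (hC : C ∈ F) : sv B C = -1 := by
  have h1 := h.ge.sv_ge_erase h.covD hC (Subset.refl C)
  rw [Finset.sdiff_self, sdiff_empty] at h1
  have h2 := h.svD
  have h3 := h.ge.rest_nonneg
  have h4 := fc_sv_ge (h.ge.sys.fc C hC) (h.cov.mono (h.FQ hC))
  unfold Dp at h2
  linarith

/-- every point of a leaf can be missed. -/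
theorem crit_leaf (h : Frm B Q T U F) {C : Finset V} (hC : C ∈ F) {v : V} (hv : v ∈ C) :
    rho B ((Dp B Q T).erase v) + 1 = rho B (Dp B Q T) := by
  have h1 := h.ge.sv_ge_erase h.covD hC (erase_subset v C)
  have hset : C \ C.erase v = {v} := by
    ext x
    simp only [mem_sdiff, mem_erase, mem_singleton, not_and]
    constructor
    · rintro ⟨h1, h2⟩
      by_contra hne
      exact h2 hne h1
    · rintro rfl
      exact ⟨hv, fun h => absurd rfl h⟩
  rw [hset, sdiff_singleton_eq_erase] at h1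
  have h2 := h.svD
  have h3 := h.ge.rest_nonneg
  have h4 := pm_sv_nonneg ((h.ge.sys.fc C hC).2 v hv)
  have h5 := card_erase_add_one (h.FD hC hv)
  have h6 := rho_le_erase (x := v) h.covD
  have h7 : sv B (Dp B Q T) + 1 ≤ sv B ((Dp B Q T).erase v) := by
    unfold Dp at h2 ⊢
    linarith
  unfold sv at h7
  omega

omit [Fintype ι] in
/-- a block with three points in `D` contains no critical point of `D`. -/
theorem notri_crit (h : Frm B Q T U F) {i : ι} (hi : (B i ∩ Dp B Q T).card = 3) {v : V}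
    (hv : v ∈ B i) : rho B (Dp B Q T) ≤ rho B ((Dp B Q T).erase v) := by
  have h1 := h.pt i hi
  refine h1.trans (rho_mono ?_ (h.covD.mono (erase_subset _ _)))
  intro x hx
  obtain ⟨hx1, hx2⟩ := mem_sdiff.1 hx
  exact mem_erase.2 ⟨fun he => hx2 (he ▸ hv), hx1⟩

/-- blocks with three points in `D` are disjoint from the leaves. -/
theorem notri (h : Frm B Q T U F) {i : ι} (hi : (B i ∩ Dp B Q T).card = 3) {C : Finset V}
    (hC : C ∈ F) : Disjoint (B i) C := by
  rw [disjoint_left]
  intro v hv hvC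
  have h1 := h.notri_crit hi hv
  have h2 := h.crit_leaf hC hvC
  omega

/-- a block meeting a leaf has at most two points in `D`. -/
theorem two_leaf (h : Frm B Q T U F) {i : ι} {C : Finset V} (hC : C ∈ F) {v : V} (hv : v ∈ B i)
    (hvC : v ∈ C) : (B i ∩ Dp B Q T).card ≤ 2 := by
  have h1 := h.tr3D i
  by_contra hcon
  exact disjoint_left.1 (h.notri (by omega) hC) hv hvC

omit [Fintype ι] in
/-- the even part is separated from the leaves. -/
theorem sepE (h : Frm B Q T U F) : Sep B (F.biUnion id) (Ep B Q T U F) :=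
  sep_of_closed (Closed.biUnion h.ge.sys.closed) sdiff_subset disjoint_sdiff

omit [Fintype ι] in
theorem sepF (h : Frm B Q T U F) : SepF B F := sepF_of_fcSys h.ge.sys

end Frm

/-- the removed points: the triples and `U`. -/
def Xp (B : ι → Finset V) (Q : Finset V) (T : Finset ι) (U : Finset V) : Finset V :=
  (T.biUnion B ∩ Q) ∪ U

namespace Frm

variable {Q U : Finset V} {T : Finset ι} {F : Finset (Finset V)}

theorem UD (h : Frm B Q T U F) : U ⊆ Dp B Q T := h.ge.sub

theorem XQ (h : Frm B Q T U F) : Xp B Q T U ⊆ Q :=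
  union_subset inter_subset_right (h.UD.trans DQ)

theorem card_X (h : Frm B Q T U F) : (Xp B Q T U).card = 3 * T.card + U.card := by
  have h1 : Disjoint (T.biUnion B ∩ Q) U := by
    rw [disjoint_left]
    intro v hv hv'
    exact (mem_sdiff.1 (h.UD hv')).2 (mem_inter.1 hv).1
  unfold Xp
  rw [card_union_of_disjoint h1, h.mtp.tpk.pack.inter_card]

theorem sdiff_X (h : Frm B Q T U F) : Q \ Xp B Q T U = F.biUnion id ∪ Ep B Q T U F := by
  have hcl : F.biUnion id ⊆ (Q \ T.biUnion B) \ U := (Closed.biUnion h.ge.sys.closed).1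
  unfold Ep
  rw [union_sdiff_of_subset hcl]
  ext v
  simp only [Xp, mem_sdiff, mem_union, mem_inter]
  tauto

theorem disE : Disjoint (F.biUnion id) (Ep B Q T U F) := disjoint_sdiff

variable [Fintype ι]

theorem covF (h : Frm B Q T U F) : ∀ C ∈ F, Cov B C := fun _ hC => h.cov.mono (h.FQ hC)

theorem sv_sdiff_X (h : Frm B Q T U F) : sv B (Q \ Xp B Q T U) = -(F.card : ℤ) := by
  rw [h.sdiff_X, sv_add (cov_biUnion h.covF) (h.covD.mono ED) h.sepE disE, h.svE,
    sv_biUnion h.covF h.sepF, sum_congr rfl fun C hC => h.sv_leaf hC, sum_const, nsmul_eq_mul]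
  ring

theorem rho_sdiff_X (h : Frm B Q T U F) : rho B (Q \ Xp B Q T U) + T.card = rho B Q := by
  have h1 := h.sv_sdiff_X
  have h2 := h.card_F
  have h3 := card_sdiff_add_card_eq_card h.XQ
  have h4 := h.card_X
  unfold sv at h1 h2
  omega

theorem T_sub_ins (h : Frm B Q T U F) : T ⊆ ins B Q (Xp B Q T U) := by
  intro i hi
  have h1 := h.mtp.tpk.pack.sub_ins (by norm_num) hi
  rw [mem_ins] at h1 ⊢
  exact ⟨h1.1, fun v hv => mem_union_left _ (mem_inter.2 ⟨h1.2 hv, (mem_inter.1 hv).2⟩)⟩

/-- the second potential of `Q` in terms of the parts. -/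
theorem Pp_eq (h : Frm B Q T U F) :
    Pp B Q = ∑ C ∈ F, Pp B C + Pp B (Ep B Q T U F) + 4 * (U.card : ℤ) - 10 * (T.card : ℤ) +
      4 * ((ins B Q (Xp B Q T U)).card : ℤ) := by
  have h1 := Pp_sdiff (B := B) h.XQ
  have h2 : (rho B Q : ℤ) = rho B (Q \ Xp B Q T U) + T.card := by exact_mod_cast h.rho_sdiff_X.symm
  have h3 : Pp B (Q \ Xp B Q T U) = ∑ C ∈ F, Pp B C + Pp B (Ep B Q T U F) := by
    rw [h.sdiff_X, Pp_add (cov_biUnion h.covF) (h.covD.mono ED) disE h.sepE,
      Pp_biUnion h.covF h.sepF]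
  rw [h1, h2, h3, h.card_X]
  push_cast
  ring

/-- the potential of `Q` in terms of the parts. -/
theorem Pv_eq (h : Frm B Q T U F) :
    Pv B Q = ∑ C ∈ F, Pv B C + Pv B (Ep B Q T U F) + 5 * (U.card : ℤ) - 9 * (T.card : ℤ) +
      4 * ((ins B Q (Xp B Q T U)).card : ℤ) := by
  have h1 := Pv_sdiff (B := B) h.XQ
  have h2 : (rho B Q : ℤ) = rho B (Q \ Xp B Q T U) + T.card := by exact_mod_cast h.rho_sdiff_X.symm
  have h3 : Pv B (Q \ Xp B Q T U) = ∑ C ∈ F, Pv B C + Pv B (Ep B Q T U F) := by
    rw [h.sdiff_X, Pv_add (cov_biUnion h.covF) (h.covD.mono ED) disE h.sepE,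
      Pv_biUnion h.covF h.sepF]
  rw [h1, h2, h3, h.card_X]
  push_cast
  ring

end Frm

end Pool.Agent.Hyp6
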