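import Pool.Agent.Hyp6.L3K

/-!
# HYP6 L3K2: the max-K frame, free leaves and exchanges

`Frr B D S`: the leaves of `S` can be free together. `MTP.swap`: exchange of a triple of the packing
against a block with a pair trace, and its consequence for the third point.
-/

set_option autoImplicit false

namespace Pool.Agent.Hyp6

open Finset Pool.Agent.Hyp5

universe u v

variable {V : Type v} [DecidableEq V] {ι : Type u} {B : ι → Finset V}

/-- the sets of `S` can be free together: covering `D` costs at least the cost of the sets plus the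
cost of the rest. -/
def Frr (B : ι → Finset V) (D : Finset V) (S : Finset (Finset V)) : Prop :=
  rho B (D \ S.biUnion id) + ∑ C ∈ S, rho B C ≤ rho B D

/-- replacing free sets. -/
theorem Frr.rho_le {D : Finset V} {S : Finset (Finset V)} (h : Frr B D S) {Z : Finset V}
    (hc : Cov B D) (hZ : Cov B Z) {W : Finset V} (hW : W ⊆ (D \ S.biUnion id) ∪ Z) :
    rho B W + ∑ C ∈ S, rho B C ≤ rho B D + rho B Z := by
  have h1 : Cov B (D \ S.biUnion id) := hc.mono sdiff_subset
  have h2 : rho B W ≤ rho B (D \ S.biUnion id) + rho B Z :=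
    (rho_mono hW (h1.union hZ)).trans (rho_union_le h1 hZ)
  unfold Frr at h
  omega

/-- **exchange**: the triple `j` of the packing is replaced by the block `i`. -/
theorem MTP.swap [DecidableEq ι] {Q : Finset V} {T : Finset ι} (h : MTP B Q T) (hc : Cov B Q)
    {i j : ι} (hj : j ∈ T) (hi : (B i ∩ Q).card = 3)
    (hd : ∀ k ∈ T, k ≠ j → Disjoint (B i ∩ Q) (B k ∩ Q))
    (hrho : rho B ((Dp B Q T ∪ (B j ∩ Q)) \ B i) ≤ rho B (Dp B Q T)) :
    MTP B Q (insert i (T.erase j)) ∧
      Dp B Q (insert i (T.erase j)) = (Dp B Q T ∪ (B j ∩ Q)) \ B i := by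
  classical
  have hset : Dp B Q (insert i (T.erase j)) = (Dp B Q T ∪ (B j ∩ Q)) \ B i := by
    ext v
    simp only [Dp, mem_sdiff, mem_union, mem_inter, mem_biUnion, mem_insert, mem_erase]
    constructor
    · rintro ⟨hv, h1⟩
      have h2 : v ∉ B i := fun h3 => h1 ⟨i, Or.inl rfl, h3⟩
      refine ⟨?_, h2⟩
      by_cases h3 : v ∈ B j
      · exact Or.inr ⟨h3, hv⟩
      · refine Or.inl ⟨hv, ?_⟩
        rintro ⟨k, hk, hvk⟩
        by_cases hkj : k = j
        · exact h3 (hkj ▸ hvk)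
        · exact h1 ⟨k, Or.inr ⟨hkj, hk⟩, hvk⟩
    · rintro ⟨h1 | h1, h2⟩
      · refine ⟨h1.1, ?_⟩
        rintro ⟨k, hk | hk, hvk⟩
        · exact h2 (hk ▸ hvk)
        · exact h1.2 ⟨k, hk.2, hvk⟩
      · refine ⟨h1.2, ?_⟩
        rintro ⟨k, hk | hk, hvk⟩
        · exact h2 (hk ▸ hvk)
        · exact disjoint_left.1 (h.tpk.pack.disj k hk.2 j hj hk.1) (mem_inter.2 ⟨hvk, h1.2⟩)
            (mem_inter.2 ⟨h1.1, h1.2⟩)
  have hiT : i ∉ T.erase j := by
    intro h1
    obtain ⟨h2, h3⟩ := mem_erase.1 h1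
    have h4 := hd i h3 h2
    rw [disjoint_self] at h4
    rw [h4] at hi
    simp at hi
  have hcard : (insert i (T.erase j)).card = T.card := by
    rw [card_insert_of_notMem hiT, card_erase_add_one hj]
  have hpack : Pack B Q 3 (insert i (T.erase j)) := by
    refine ⟨fun k hk => ?_, fun k hk l hl hne => ?_⟩
    · rcases mem_insert.1 hk with hk1 | hk1
      · rw [hk1]
        exact hi
      · exact h.tpk.pack.card k (mem_erase.1 hk1).2
    · rcases mem_insert.1 hk with hk1 | hk1
      · rcases mem_insert.1 hl with hl1 | hl1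
        · exact absurd (hk1.trans hl1.symm) hne
        · rw [hk1]
          exact hd l (mem_erase.1 hl1).2 (mem_erase.1 hl1).1
      · rcases mem_insert.1 hl with hl1 | hl1
        · rw [hl1]
          exact (hd k (mem_erase.1 hk1).2 (mem_erase.1 hk1).1).symm
        · exact h.tpk.pack.disj k (mem_erase.1 hk1).2 l (mem_erase.1 hl1).2 hne
  have hopt : rho B (Q \ (insert i (T.erase j)).biUnion B) + (insert i (T.erase j)).card =
      rho B Q := by
    have h1 : rho B (Q \ (insert i (T.erase j)).biUnion B) ≤ rho B (Dp B Q T) := by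
      have h2 : Q \ (insert i (T.erase j)).biUnion B = (Dp B Q T ∪ (B j ∩ Q)) \ B i := hset
      rw [h2]
      exact hrho
    have h3 := rho_le_peel (insert i (T.erase j)) hc
    have h4 := h.tpk.opt
    unfold Dp at h1
    omega
  refine ⟨⟨⟨hpack, hopt⟩, fun T' hT' => ?_⟩, hset⟩
  rw [hcard]
  exact h.max T' hT'

/-- the third point of an exchanged triple is critical: it lies in no block with three points in the
new rest. -/
theorem MTP.swap_third [DecidableEq ι] {Q : Finset V} {T : Finset ι} (h : MTP B Q T)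
    (hc : Cov B Q) (h3 : Tr3 B Q) {i j : ι} (hj : j ∈ T) (hi : (B i ∩ Q).card = 3)
    (hd : ∀ k ∈ T, k ≠ j → Disjoint (B i ∩ Q) (B k ∩ Q)) {c : V}
    (hrho : rho B (((Dp B Q T ∪ (B j ∩ Q)) \ B i).erase c) + 1 ≤ rho B (Dp B Q T)) :
    MTP B Q (insert i (T.erase j)) ∧
      ∀ k, c ∈ B k → (B k ∩ ((Dp B Q T ∪ (B j ∩ Q)) \ B i)).card ≤ 2 := by
  have hsubQ : (Dp B Q T ∪ (B j ∩ Q)) \ B i ⊆ Q :=
    sdiff_subset.trans (union_subset sdiff_subset inter_subset_right)
  have hcov : Cov B ((Dp B Q T ∪ (B j ∩ Q)) \ B i) := hc.mono hsubQ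
  have h1 := rho_le_erase (x := c) hcov
  obtain ⟨hM, hD⟩ := h.swap hc hj hi hd (by omega)
  refine ⟨hM, fun k hk => ?_⟩
  by_contra hcon
  push Not at hcon
  have h4 := h3.mono hsubQ k
  have h5 : (B k ∩ ((Dp B Q T ∪ (B j ∩ Q)) \ B i)).card = 3 := by omega
  have h6 := hM.pt hc h3 k (by
    have h7 : Q \ (insert i (T.erase j)).biUnion B = (Dp B Q T ∪ (B j ∩ Q)) \ B i := hD
    rw [h7]
    exact h5)
  have h7 : Q \ (insert i (T.erase j)).biUnion B = (Dp B Q T ∪ (B j ∩ Q)) \ B i := hD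
  rw [h7] at h6
  have h8 : rho B (((Dp B Q T ∪ (B j ∩ Q)) \ B i) \ B k) ≤
      rho B (((Dp B Q T ∪ (B j ∩ Q)) \ B i).erase c) := by
    refine rho_mono ?_ (hcov.mono (erase_subset _ _))
    intro x hx
    obtain ⟨hx1, hx2⟩ := mem_sdiff.1 hx
    exact mem_erase.2 ⟨fun he => hx2 (he ▸ hk), hx1⟩
  have h9 := rho_le_peel (insert i (T.erase j)) hc
  rw [h7] at h9
  have h10 := h.tpk.opt
  have h11 : (insert i (T.erase j)).card ≤ T.card := h.max _ hM.tpk
  unfold Dp at *
  omega

namespace Frm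

variable [Fintype ι] {Q U : Finset V} {T : Finset ι} {F : Finset (Finset V)}

/-- every leaf can be free. -/
theorem frr_single (h : Frm B Q T U F) {C : Finset V} (hC : C ∈ F) :
    Frr B (Dp B Q T) {C} := by
  have h1 := h.ge.sv_ge_erase h.covD hC (empty_subset C)
  rw [sdiff_empty, sv_empty] at h1
  have h2 := h.svD
  have h3 := h.ge.rest_nonneg
  have h4 := h.sv_leaf hC
  have h5 := card_sdiff_add_card_eq_card (h.FD hC)
  have h6 : sv B (Dp B Q T) + 1 ≤ sv B (Dp B Q T \ C) := by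
    unfold Dp at h2 ⊢
    linarith
  unfold Frr
  rw [singleton_biUnion, sum_singleton]
  unfold sv at h4 h6
  simp only [id]
  omega

/-- the leaves of `S` are free together if `U` can be matched into the other leaves. -/
theorem frr_of_hall (h : Frm B Q T U F) {S : Finset (Finset V)} (hS : S ⊆ F)
    (hH : ∀ Z ⊆ U, Z.card ≤ (nbF (gr B) (F \ S) Z).card) : Frr B (Dp B Q T) S := by
  classical
  rcases S.eq_empty_or_nonempty with rfl | ⟨C0, hC0⟩
  · unfold Frr
    simp
  obtain ⟨v0, _⟩ := (h.ge.sys.fc C0 (hS hC0)).1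
  have : Nonempty V := ⟨v0⟩
  obtain ⟨F1, φ, hF1, hcard, hφ, hinj, him⟩ := exists_match hH
  have hsub : F \ S ⊆ F := sdiff_subset
  have hset : U ∪ (F \ S).biUnion id ∪ Ep B Q T U F = Dp B Q T \ S.biUnion id := by
    ext v
    constructor
    · intro hv
      rcases mem_union.1 hv with hv | hv
      · rcases mem_union.1 hv with hv | hv
        · refine mem_sdiff.2 ⟨h.ge.sub hv, fun h2 => ?_⟩
          obtain ⟨C, hC, hvC⟩ := mem_biUnion.1 h2
          exact disjoint_left.1 (h.ge.FU C (hS hC)) hvC hv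
        · obtain ⟨C, hC, hvC⟩ := mem_biUnion.1 hv
          refine mem_sdiff.2 ⟨h.FD (hsub hC) hvC, fun h2 => ?_⟩
          obtain ⟨C', hC', hvC'⟩ := mem_biUnion.1 h2
          have hne : C ≠ C' := fun he => (mem_sdiff.1 hC).2 (he ▸ hC')
          exact disjoint_left.1 (h.ge.sys.disj C (hsub hC) C' (hS hC') hne) hvC hvC'
      · refine mem_sdiff.2 ⟨ED hv, fun h2 => ?_⟩
        obtain ⟨C, hC, hvC⟩ := mem_biUnion.1 h2
        exact disjoint_left.1 (h.ge.FE C (hS hC)) hvC hv
    · intro hv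
      obtain ⟨hv1, hv2⟩ := mem_sdiff.1 hv
      by_cases hvU : v ∈ U
      · exact mem_union_left _ (mem_union_left _ hvU)
      by_cases hvF : v ∈ F.biUnion id
      · obtain ⟨C, hC, hvC⟩ := mem_biUnion.1 hvF
        refine mem_union_left _ (mem_union_right _ (mem_biUnion.2 ⟨C, mem_sdiff.2 ⟨hC, ?_⟩, hvC⟩))
        exact fun hCS => hv2 (mem_biUnion.2 ⟨C, hCS, hvC⟩)
      · exact mem_union_right _ (mem_sdiff.2 ⟨mem_sdiff.2 ⟨hv1, hvU⟩, hvF⟩)
  have h1 := sv_ge_of_assignment (B := B) (A := U) (R := Ep B Q T U F) (F := F \ S)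
    (F1 := F1) (F2 := (F \ S) \ F1) (F3 := ∅) (φ := φ)
    (by rw [hset]; exact h.covD.mono sdiff_subset) (fun C hC => h.ge.sys.fc C (hsub hC))
    (fun C hC C' hC' => h.ge.sys.disj C (hsub hC) C' (hsub hC')) (fun C hC => h.ge.FU C (hsub hC))
    (fun C hC => h.ge.FE C (hsub hC))
    (by
      rw [disjoint_left]
      intro v hv hv'
      exact (mem_sdiff.1 (mem_sdiff.1 hv').1).2 hv)
    (by rw [union_empty, union_sdiff_of_subset hF1]) disjoint_sdiff (disjoint_empty_right _)
    (disjoint_empty_right _) hφ hinj him (by simp)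
  rw [hset, card_empty, h.svE] at h1
  have h2 := card_sdiff_add_card_eq_card hF1
  have h3 := card_sdiff_add_card_eq_card hS
  have h4 := h.svD
  have h5 : S.biUnion id ⊆ Dp B Q T := by
    intro v hv
    obtain ⟨C, hC, hvC⟩ := mem_biUnion.1 hv
    exact h.FD (hS hC) hvC
  have h6 := card_sdiff_add_card_eq_card h5
  have h7 : ((S.biUnion id).card : ℤ) = ∑ C ∈ S, (C.card : ℤ) := by
    have h9 := card_biUnion (s := S) (t := id)
      (fun C hC C' hC' hne => h.ge.sys.disj C (hS hC) C' (hS hC') hne)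
    rw [h9]
    push_cast
    rfl
  have h8 : ∑ C ∈ S, (C.card : ℤ) = ∑ C ∈ S, (2 * (rho B C : ℤ) - 1) := by
    refine sum_congr rfl fun C hC => ?_
    have h9 := h.sv_leaf (hS hC)
    unfold sv at h9
    linarith
  rw [sum_sub_distrib, ← mul_sum, sum_const, nsmul_eq_mul, mul_one] at h8
  unfold Frr
  have h10 : (rho B (Dp B Q T \ S.biUnion id) : ℤ) + ∑ C ∈ S, (rho B C : ℤ) ≤
      rho B (Dp B Q T) := by
    unfold sv at h1 h4
    push_cast at h1
    have h6' : ((Dp B Q T \ S.biUnion id).card : ℤ) + (S.biUnion id).card = (Dp B Q T).card := by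
      exact_mod_cast h6
    have h2' : (((F \ S) \ F1).card : ℤ) + F1.card = (F \ S).card := by exact_mod_cast h2
    have h3' : ((F \ S).card : ℤ) + S.card = F.card := by exact_mod_cast h3
    have hcard' : (F1.card : ℤ) = U.card := by exact_mod_cast hcard
    linarith
  exact_mod_cast h10

end Frm

end Pool.Agent.Hyp6
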