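import Pool.Agent.Hyp6.L3K4

/-!
# HYP6 L3Km: exchange of one triple for two

In the max-K frame two different points `x`, `z` of a triple cannot both lie on blocks whose two
other points lie in the rest `D` if the two pairs can be removed together.
-/

set_option autoImplicit false

namespace Pool.Agent.Hyp6

open Finset Pool.Agent.Hyp5

universe u v

variable {V : Type v} [DecidableEq V] {ι : Type u} {B : ι → Finset V}

/-- **one triple for two**: the pairs of `B i`, `B i'` in the rest cannot be removed together. -/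
theorem MTP.two_swap [DecidableEq ι] {Q : Finset V} {T : Finset ι} (h : MTP B Q T)
    (hc : Cov B Q) {i i' j : ι} (hj : j ∈ T) {x y z : V} (hT : B j ∩ Q ⊆ {x, y, z})
    (hi : (B i ∩ Q).card = 3) (hi' : (B i' ∩ Q).card = 3) (hz : z ∈ B i) (hx : x ∈ B i')
    (hzi : B i ∩ Q ⊆ insert z (Dp B Q T)) (hxi : B i' ∩ Q ⊆ insert x (Dp B Q T))
    (hzj : z ∈ B j) (hxj : x ∈ B j) (hzQ : z ∈ Q) (hxQ : x ∈ Q)
    (hdis : Disjoint (B i ∩ Q) (B i' ∩ Q)) :
    rho B (Dp B Q T) ≤ rho B (Dp B Q T \ (B i ∪ B i')) + 1 := by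
  classical
  by_contra hcon
  push Not at hcon
  have hdk : ∀ (l : ι) (w : V), B l ∩ Q ⊆ insert w (Dp B Q T) → w ∈ B j → w ∈ Q →
      ∀ k ∈ T, k ≠ j → Disjoint (B l ∩ Q) (B k ∩ Q) := by
    intro l w hl hw hwQ k hk hkj
    rw [disjoint_left]
    intro v hv hv'
    rcases mem_insert.1 (hl hv) with h1 | h1
    · subst h1
      exact disjoint_left.1 (h.tpk.pack.disj k hk j hj hkj) hv' (mem_inter.2 ⟨hw, hwQ⟩)
    · exact (mem_sdiff.1 h1).2 (mem_biUnion.2 ⟨k, hk, (mem_inter.1 hv').1⟩)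
  have hne : ∀ l : ι, (B l ∩ Q).card = 3 → (B l ∩ Q).Nonempty := fun l hl =>
    card_pos.1 (by omega)
  have hnot : ∀ (l : ι) (w : V), (B l ∩ Q).card = 3 → B l ∩ Q ⊆ insert w (Dp B Q T) → w ∈ B j →
      w ∈ Q → l ∉ T.erase j := by
    intro l w hl hl2 hw hwQ hmem
    have h1 := hdk l w hl2 hw hwQ l (mem_erase.1 hmem).2 (mem_erase.1 hmem).1
    rw [disjoint_self] at h1
    have h2 : (B l ∩ Q).card = 0 := by rw [h1]; simp
    omega
  have hii : i ≠ i' := by
    intro he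
    subst he
    rw [disjoint_self] at hdis
    have h2 : (B i ∩ Q).card = 0 := by rw [hdis]; simp
    omega
  have hn' := hnot i' x hi' hxi hxj hxQ
  have hn : i ∉ insert i' (T.erase j) := by
    rw [mem_insert]
    rintro (h1 | h1)
    · exact hii h1
    · exact hnot i z hi hzi hzj hzQ h1
  set T2 := insert i (insert i' (T.erase j)) with hT2
  have hcard : T2.card = T.card + 1 := by
    rw [hT2, card_insert_of_notMem hn, card_insert_of_notMem hn', card_erase_add_one hj]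
  have hpack : Pack B Q 3 T2 := by
    refine ⟨fun k hk => ?_, fun k hk l hl hkl => ?_⟩
    · rcases mem_insert.1 hk with hk1 | hk1
      · rw [hk1]; exact hi
      rcases mem_insert.1 hk1 with hk2 | hk2
      · rw [hk2]; exact hi'
      · exact h.tpk.pack.card k (mem_erase.1 hk2).2
    · have hA : ∀ k ∈ T2, k = i ∨ k = i' ∨ (k ∈ T ∧ k ≠ j) := by
        intro k hk
        rcases mem_insert.1 hk with hk1 | hk1
        · exact Or.inl hk1
        rcases mem_insert.1 hk1 with hk2 | hk2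
        · exact Or.inr (Or.inl hk2)
        · exact Or.inr (Or.inr ⟨(mem_erase.1 hk2).2, (mem_erase.1 hk2).1⟩)
      rcases hA k hk with h1 | h1 | h1 <;> rcases hA l hl with h2 | h2 | h2
      · exact absurd (h1.trans h2.symm) hkl
      · rw [h1, h2]; exact hdis
      · rw [h1]; exact hdk i z hzi hzj hzQ l h2.1 h2.2
      · rw [h1, h2]; exact hdis.symm
      · exact absurd (h1.trans h2.symm) hkl
      · rw [h1]; exact hdk i' x hxi hxj hxQ l h2.1 h2.2
      · rw [h2]; exact (hdk i z hzi hzj hzQ k h1.1 h1.2).symm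
      · rw [h2]; exact (hdk i' x hxi hxj hxQ k h1.1 h1.2).symm
      · exact h.tpk.pack.disj k h1.1 l h2.1 hkl
  have hrest : Q \ T2.biUnion B ⊆ insert y (Dp B Q T \ (B i ∪ B i')) := by
    intro v hv
    obtain ⟨hvQ, hv2⟩ := mem_sdiff.1 hv
    have hvi : v ∉ B i := fun h1 => hv2 (mem_biUnion.2 ⟨i, mem_insert_self _ _, h1⟩)
    have hvi' : v ∉ B i' := fun h1 =>
      hv2 (mem_biUnion.2 ⟨i', mem_insert_of_mem (mem_insert_self _ _), h1⟩)
    have hvk : ∀ k ∈ T, k ≠ j → v ∉ B k := fun k hk hkj h1 =>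
      hv2 (mem_biUnion.2 ⟨k, mem_insert_of_mem (mem_insert_of_mem (mem_erase.2 ⟨hkj, hk⟩)), h1⟩)
    by_cases hvj : v ∈ B j
    · have h1 := hT (mem_inter.2 ⟨hvj, hvQ⟩)
      simp only [mem_insert, mem_singleton] at h1
      rcases h1 with h1 | h1 | h1
      · exact absurd (h1 ▸ hx) hvi'
      · exact mem_insert.2 (Or.inl h1)
      · exact absurd (h1 ▸ hz) hvi
    · refine mem_insert_of_mem (mem_sdiff.2 ⟨mem_sdiff.2 ⟨hvQ, ?_⟩, ?_⟩)
      · rintro h1
        obtain ⟨k, hk, hvk'⟩ := mem_biUnion.1 h1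
        by_cases hkj : k = j
        · exact hvj (hkj ▸ hvk')
        · exact hvk k hk hkj hvk'
      · rw [mem_union]
        rintro (h1 | h1)
        · exact hvi h1
        · exact hvi' h1
  have hcr : Cov B (Q \ T2.biUnion B) := hc.mono sdiff_subset
  have hr1 : rho B (Q \ T2.biUnion B) ≤ rho B (Dp B Q T \ (B i ∪ B i')) + 1 := by
    have h1 := rho_le_erase (x := y) hcr
    have h2 : (Q \ T2.biUnion B).erase y ⊆ Dp B Q T \ (B i ∪ B i') := by
      intro v hv
      obtain ⟨h3, h4⟩ := mem_erase.1 hv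
      rcases mem_insert.1 (hrest h4) with h5 | h5
      · exact absurd h5 h3
      · exact h5
    have h3 := rho_mono h2 (hc.mono (sdiff_subset.trans sdiff_subset))
    omega
  have hr2 := rho_le_peel T2 hc
  have hr3 := h.tpk.opt
  have hr4 : rho B (Q \ T2.biUnion B) + T2.card = rho B Q := by
    unfold Dp at *
    omega
  have := h.max T2 ⟨hpack, hr4⟩
  omega

namespace Frm

variable [Fintype ι] {Q U : Finset V} {T : Finset ι} {F : Finset (Finset V)}

/-- removing two points of a leaf lowers its cover number. -/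
theorem rho_leaf_two (h : Frm B Q T U F) {C : Finset V} (hC : C ∈ F) {p : V} (hp : p ∈ C)
    {P : Finset V} (hpP : p ∈ P) : rho B (C \ P) + 1 ≤ rho B C := by
  have h1 : rho B (C.erase p) + 1 ≤ rho B C :=
    rho_erase_fc (h.ge.sys.fc C hC) (h.sv_leaf hC) hp
  have h2 : rho B (C \ P) ≤ rho B (C.erase p) := by
    refine rho_mono ?_ ((h.covF C hC).mono (erase_subset _ _))
    intro v hv
    obtain ⟨h3, h4⟩ := mem_sdiff.1 hv
    exact mem_erase.2 ⟨fun he => h4 (he ▸ hpP), h3⟩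
  omega

/-- the leaves of `S` are free together and the points of `U` outside `U'` are not needed, if `U'`
can be matched into the other leaves. -/
theorem free_without (h : Frm B Q T U F) {S : Finset (Finset V)} (hS : S ⊆ F) (hne : S.Nonempty)
    {U' : Finset V} (hU' : U' ⊆ U)
    (hH : ∀ Z ⊆ U', Z.card ≤ (nbF (gr B) (F \ S) Z).card) :
    rho B ((Dp B Q T \ S.biUnion id) \ (U \ U')) + ∑ C ∈ S, rho B C ≤ rho B (Dp B Q T) := by
  classical
  obtain ⟨C0, hC0⟩ := hne
  obtain ⟨v0, _⟩ := (h.ge.sys.fc C0 (hS hC0)).1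
  have : Nonempty V := ⟨v0⟩
  obtain ⟨F1, φ, hF1, hcard, hφ, hinj, him⟩ := exists_match hH
  have hsub : F \ S ⊆ F := sdiff_subset
  have hset : U' ∪ (F \ S).biUnion id ∪ Ep B Q T U F =
      (Dp B Q T \ S.biUnion id) \ (U \ U') := by
    ext v
    constructor
    · intro hv
      rcases mem_union.1 hv with hv | hv
      · rcases mem_union.1 hv with hv | hv
        · refine mem_sdiff.2 ⟨mem_sdiff.2 ⟨h.ge.sub (hU' hv), fun h2 => ?_⟩, fun h2 => ?_⟩
          · obtain ⟨C, hC, hvC⟩ := mem_biUnion.1 h2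
            exact disjoint_left.1 (h.ge.FU C (hS hC)) hvC (hU' hv)
          · exact (mem_sdiff.1 h2).2 hv
        · obtain ⟨C, hC, hvC⟩ := mem_biUnion.1 hv
          refine mem_sdiff.2 ⟨mem_sdiff.2 ⟨h.FD (hsub hC) hvC, fun h2 => ?_⟩, fun h2 => ?_⟩
          · obtain ⟨C', hC', hvC'⟩ := mem_biUnion.1 h2
            have hne : C ≠ C' := fun he => (mem_sdiff.1 hC).2 (he ▸ hC')
            exact disjoint_left.1 (h.ge.sys.disj C (hsub hC) C' (hS hC') hne) hvC hvC'
          · exact disjoint_left.1 (h.ge.FU C (hsub hC)) hvC (mem_sdiff.1 h2).1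
      · refine mem_sdiff.2 ⟨mem_sdiff.2 ⟨ED hv, fun h2 => ?_⟩, fun h2 => ?_⟩
        · obtain ⟨C, hC, hvC⟩ := mem_biUnion.1 h2
          exact disjoint_left.1 (h.ge.FE C (hS hC)) hvC hv
        · exact (mem_sdiff.1 (mem_sdiff.1 hv).1).2 (mem_sdiff.1 h2).1
    · intro hv
      obtain ⟨hv0, hv3⟩ := mem_sdiff.1 hv
      obtain ⟨hv1, hv2⟩ := mem_sdiff.1 hv0
      by_cases hvU : v ∈ U
      · refine mem_union_left _ (mem_union_left _ ?_)
        by_contra hcon
        exact hv3 (mem_sdiff.2 ⟨hvU, hcon⟩)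
      by_cases hvF : v ∈ F.biUnion id
      · obtain ⟨C, hC, hvC⟩ := mem_biUnion.1 hvF
        refine mem_union_left _ (mem_union_right _ (mem_biUnion.2 ⟨C, mem_sdiff.2 ⟨hC, ?_⟩, hvC⟩))
        exact fun hCS => hv2 (mem_biUnion.2 ⟨C, hCS, hvC⟩)
      · exact mem_union_right _ (mem_sdiff.2 ⟨mem_sdiff.2 ⟨hv1, hvU⟩, hvF⟩)
  have h1 := sv_ge_of_assignment (B := B) (A := U') (R := Ep B Q T U F) (F := F \ S)
    (F1 := F1) (F2 := (F \ S) \ F1) (F3 := ∅) (φ := φ)
    (by rw [hset]; exact h.covD.mono (sdiff_subset.trans sdiff_subset))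
    (fun C hC => h.ge.sys.fc C (hsub hC))
    (fun C hC C' hC' => h.ge.sys.disj C (hsub hC) C' (hsub hC'))
    (fun C hC => (h.ge.FU C (hsub hC)).mono_right hU')
    (fun C hC => h.ge.FE C (hsub hC))
    (by
      rw [disjoint_left]
      intro v hv hv'
      exact (mem_sdiff.1 (mem_sdiff.1 hv').1).2 (hU' hv))
    (by rw [union_empty, union_sdiff_of_subset hF1]) disjoint_sdiff (disjoint_empty_right _)
    (disjoint_empty_right _) hφ hinj him (by simp)
  rw [hset, card_empty, h.svE] at h1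
  have h2 := card_sdiff_add_card_eq_card hF1
  have h3 := card_sdiff_add_card_eq_card hS
  have h4 := h.svD
  have h5 : S.biUnion id ⊆ Dp B Q T := by
    intro v hv
    obtain ⟨C, hC, hvC⟩ := mem_biUnion.1 hv
    exact h.FD (hS hC) hvC
  have h6 := card_sdiff_add_card_eq_card h5
  have h6a : U \ U' ⊆ Dp B Q T \ S.biUnion id := by
    intro v hv
    refine mem_sdiff.2 ⟨h.ge.sub (mem_sdiff.1 hv).1, fun h2 => ?_⟩
    obtain ⟨C, hC, hvC⟩ := mem_biUnion.1 h2
    exact disjoint_left.1 (h.ge.FU C (hS hC)) hvC (mem_sdiff.1 hv).1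
  have h6b := card_sdiff_add_card_eq_card h6a
  have h6c := card_sdiff_add_card_eq_card hU'
  have h7 : ((S.biUnion id).card : ℤ) = ∑ C ∈ S, (C.card : ℤ) := by
    have h9 := card_biUnion (s := S) (t := id)
      (fun C hC C' hC' hne => h.ge.sys.disj C (hS hC) C' (hS hC') hne)
    rw [h9]
    push_cast
    rfl
  have h8 : ∑ C ∈ S, (C.card : ℤ) = ∑ C ∈ S, (2 * (rho B C : ℤ) - 1) := by
    refine sum_congr rfl fun C hC => ?_
    have h9 := h.sv_leaf (hS hC)
    unfold sv at h9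
    linarith
  rw [sum_sub_distrib, ← mul_sum, sum_const, nsmul_eq_mul, mul_one] at h8
  have h10 : (rho B ((Dp B Q T \ S.biUnion id) \ (U \ U')) : ℤ) + ∑ C ∈ S, (rho B C : ℤ) ≤
      rho B (Dp B Q T) := by
    unfold sv at h1 h4
    push_cast at h1
    have h6' : ((Dp B Q T \ S.biUnion id).card : ℤ) + (S.biUnion id).card = (Dp B Q T).card := by
      exact_mod_cast h6
    have h6b' : (((Dp B Q T \ S.biUnion id) \ (U \ U')).card : ℤ) + (U \ U').card =
        (Dp B Q T \ S.biUnion id).card := by exact_mod_cast h6b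
    have h6c' : ((U \ U').card : ℤ) + U'.card = U.card := by exact_mod_cast h6c
    have h2' : (((F \ S) \ F1).card : ℤ) + F1.card = (F \ S).card := by exact_mod_cast h2
    have h3' : ((F \ S).card : ℤ) + S.card = F.card := by exact_mod_cast h3
    have hcard' : (F1.card : ℤ) = U'.card := by exact_mod_cast hcard
    linarith
  exact_mod_cast h10

/-- **KM2**, general form: two different points `x`, `z` of a triple of the max-K frame lie on the
blocks `i'`, `i`, both with two points in the rest; `U'` is the part of `U` off these blocks, it can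
be matched outside the leaves of `S`, and the two blocks lower the cost of `S` by two. -/
theorem km2 [DecidableEq ι] (h : Frm B Q T U F) {S : Finset (Finset V)} (hS : S ⊆ F)
    (hne : S.Nonempty) {U' : Finset V} (hU' : U' ⊆ U) {i i' j : ι} (hUB : U \ U' ⊆ B i ∪ B i')
    (hH : ∀ Z ⊆ U', Z.card ≤ (nbF (gr B) (F \ S) Z).card) (hj : j ∈ T) {x z : V} (hxz : x ≠ z)
    (hx : x ∈ B j ∩ Q) (hz : z ∈ B j ∩ Q) (hzi : z ∈ B i) (hxi : x ∈ B i')
    (hi : (B i ∩ Dp B Q T).card = 2) (hi' : (B i' ∩ Dp B Q T).card = 2)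
    (hd : Disjoint (B i ∩ Dp B Q T) (B i' ∩ Dp B Q T))
    (hdrop : ∑ C ∈ S, rho B (C \ (B i ∪ B i')) + 2 ≤ ∑ C ∈ S, rho B C) : False := by
  classical
  have hnD : ∀ w ∈ B j ∩ Q, w ∉ Dp B Q T := fun w hw h1 =>
    (mem_sdiff.1 h1).2 (mem_biUnion.2 ⟨j, hj, (mem_inter.1 hw).1⟩)
  have htr : ∀ (l : ι) (w : V), w ∈ B j ∩ Q → w ∈ B l → (B l ∩ Dp B Q T).card = 2 →
      (B l ∩ Q).card = 3 ∧ B l ∩ Q = insert w (B l ∩ Dp B Q T) := by
    intro l w hw hwl hl
    have h1 : insert w (B l ∩ Dp B Q T) ⊆ B l ∩ Q := by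
      intro v hv
      rcases mem_insert.1 hv with h2 | h2
      · rw [h2]; exact mem_inter.2 ⟨hwl, (mem_inter.1 hw).2⟩
      · exact mem_inter.2 ⟨(mem_inter.1 h2).1, DQ (mem_inter.1 h2).2⟩
    have h2 : w ∉ B l ∩ Dp B Q T := fun h3 => hnD w hw (mem_inter.1 h3).2
    have h3 : (insert w (B l ∩ Dp B Q T)).card = 3 := by rw [card_insert_of_notMem h2, hl]
    have h4 := h.reg3 l
    have h5 := card_le_card h1
    have h6 : insert w (B l ∩ Dp B Q T) = B l ∩ Q := eq_of_subset_of_card_le h1 (by omega)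
    exact ⟨by rw [← h6]; exact h3, h6.symm⟩
  obtain ⟨hi3, hie⟩ := htr i z hz hzi hi
  obtain ⟨hi3', hie'⟩ := htr i' x hx hxi hi'
  have hj3 : (B j ∩ Q).card = 3 := h.mtp.tpk.pack.card j hj
  obtain ⟨y, hy⟩ : ∃ y, B j ∩ Q ⊆ {x, y, z} := by
    have h1 : ({x, z} : Finset V) ⊆ B j ∩ Q := by
      intro v hv
      rcases mem_insert.1 hv with h2 | h2
      · rw [h2]; exact hx
      · rw [mem_singleton.1 h2]; exact hz
    have h2 : ((B j ∩ Q) \ {x, z}).card = 1 := by
      have h3 := card_sdiff_add_card_eq_card h1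
      rw [card_pair hxz] at h3
      omega
    obtain ⟨y, hy⟩ := card_eq_one.1 h2
    refine ⟨y, fun v hv => ?_⟩
    simp only [mem_insert, mem_singleton]
    by_cases h3 : v = x
    · exact Or.inl h3
    by_cases h4 : v = z
    · exact Or.inr (Or.inr h4)
    · have h5 : v ∈ (B j ∩ Q) \ {x, z} := mem_sdiff.2 ⟨hv, by simp [h3, h4]⟩
      rw [hy] at h5
      exact Or.inr (Or.inl (mem_singleton.1 h5))
  have hdis : Disjoint (B i ∩ Q) (B i' ∩ Q) := by
    rw [hie, hie', disjoint_left]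
    intro v hv hv'
    rcases mem_insert.1 hv with h1 | h1 <;> rcases mem_insert.1 hv' with h2 | h2
    · exact hxz (h2.symm.trans h1)
    · exact hnD v (h1 ▸ hz) (mem_inter.1 h2).2
    · exact hnD v (h2 ▸ hx) (mem_inter.1 h1).2
    · exact disjoint_left.1 hd h1 h2
  have hkey := h.mtp.two_swap h.cov hj hy hi3 hi3' hzi hxi
    (by
      rw [hie]
      exact insert_subset_insert _ fun v hv => (mem_inter.1 hv).2)
    (by
      rw [hie']
      exact insert_subset_insert _ fun v hv => (mem_inter.1 hv).2)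
    (mem_inter.1 hz).1 (mem_inter.1 hx).1 (mem_inter.1 hz).2 (mem_inter.1 hx).2 hdis
  have hfree := h.free_without hS hne hU' hH
  have h3 : rho B (Dp B Q T \ (B i ∪ B i')) ≤
      rho B ((Dp B Q T \ S.biUnion id) \ (U \ U')) + ∑ C ∈ S, rho B (C \ (B i ∪ B i')) := by
    have h4 : Dp B Q T \ (B i ∪ B i') ⊆
        ((Dp B Q T \ S.biUnion id) \ (U \ U')) ∪
          (S.image fun C => C \ (B i ∪ B i')).biUnion id := by
      intro v hv
      obtain ⟨h5, h6⟩ := mem_sdiff.1 hv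
      by_cases h7 : v ∈ S.biUnion id
      · obtain ⟨C, hC, hvC⟩ := mem_biUnion.1 h7
        exact mem_union_right _ (mem_biUnion.2 ⟨C \ (B i ∪ B i'), mem_image_of_mem _ hC,
          mem_sdiff.2 ⟨hvC, h6⟩⟩)
      · exact mem_union_left _ (mem_sdiff.2 ⟨mem_sdiff.2 ⟨h5, h7⟩, fun h8 => h6 (hUB h8)⟩)
    have c1 : Cov B ((Dp B Q T \ S.biUnion id) \ (U \ U')) :=
      h.covD.mono (sdiff_subset.trans sdiff_subset)
    have c2 : ∀ Z ∈ S.image (fun C => C \ (B i ∪ B i')), Cov B Z := by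
      intro Z hZ
      obtain ⟨C, hC, rfl⟩ := mem_image.1 hZ
      exact (h.covF C (hS hC)).mono sdiff_subset
    have c3 : Cov B ((S.image fun C => C \ (B i ∪ B i')).biUnion id) := by
      intro v hv
      obtain ⟨Z, hZ, hvZ⟩ := mem_biUnion.1 hv
      exact c2 Z hZ v hvZ
    have h5 := rho_mono h4 (c1.union c3)
    have h6 := rho_union_le c1 c3
    have h7 := rho_biUnion_le c2
    have h8 : ∑ Z ∈ S.image (fun C => C \ (B i ∪ B i')), rho B Z ≤
        ∑ C ∈ S, rho B (C \ (B i ∪ B i')) := by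
      rw [← sum_fiberwise_of_maps_to (g := fun C => C \ (B i ∪ B i'))
        (fun C hC => mem_image_of_mem _ hC) (fun C => rho B (C \ (B i ∪ B i')))]
      refine sum_le_sum fun Z hZ => ?_
      obtain ⟨C, hC, hCZ⟩ := mem_image.1 hZ
      have h9 : C ∈ S.filter (fun C => C \ (B i ∪ B i') = Z) := mem_filter.2 ⟨hC, hCZ⟩
      have h10 := single_le_sum (f := fun C => rho B (C \ (B i ∪ B i')))
        (fun _ _ => Nat.zero_le _) h9
      refine le_trans (le_of_eq ?_) h10
      rw [← hCZ]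
    omega
  omega

/-- the case of two leaves `C` (met by `i`) and `C'` (met by `i'`). -/
theorem km2_leaves [DecidableEq ι] (h : Frm B Q T U F) {C C' : Finset V} (hC : C ∈ F)
    (hC' : C' ∈ F) (hne : C ≠ C') {U' : Finset V} (hU' : U' ⊆ U) {i i' j : ι}
    (hUB : U \ U' ⊆ B i ∪ B i')
    (hH : ∀ Z ⊆ U', Z.card ≤ (nbF (gr B) (F \ {C, C'}) Z).card) (hj : j ∈ T) {x z : V}
    (hxz : x ≠ z) (hx : x ∈ B j ∩ Q) (hz : z ∈ B j ∩ Q) (hzi : z ∈ B i) (hxi : x ∈ B i')
    (hi : (B i ∩ Dp B Q T).card = 2) (hi' : (B i' ∩ Dp B Q T).card = 2)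
    (hd : Disjoint (B i ∩ Dp B Q T) (B i' ∩ Dp B Q T)) (hp : (B i ∩ C).Nonempty)
    (hp' : (B i' ∩ C').Nonempty) : False := by
  obtain ⟨p, hp⟩ := hp
  obtain ⟨p', hp'⟩ := hp'
  have h1 := h.rho_leaf_two hC (mem_inter.1 hp).2 (P := B i ∪ B i')
    (mem_union_left _ (mem_inter.1 hp).1)
  have h2 := h.rho_leaf_two hC' (mem_inter.1 hp').2 (P := B i ∪ B i')
    (mem_union_right _ (mem_inter.1 hp').1)
  refine h.km2 (S := {C, C'}) ?_ (insert_nonempty _ _) hU' hUB hH hj hxz hx hz hzi hxi hi hi' hd ?_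
  · intro Z hZ
    rcases mem_insert.1 hZ with h3 | h3
    · rw [h3]; exact hC
    · rw [mem_singleton.1 h3]; exact hC'
  · rw [sum_pair hne, sum_pair hne]
    omega

end Frm

end Pool.Agent.Hyp6
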