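import Mathlib

/-!
# HYP6 L3L2a: the numbers of a line triple with two private single leaves

`LNum`: the numbers of a line triple at a private single leaf: the need `ms`, `n` hits, `W` other hits,
`g` hits of `U`, the even number `P = dv + 1`, `e` double singles, `m` points, `n1` single traces.
`LNum.pair0`: the needs at both ends of a line without claims are paid, except in four kinds of rows.
-/

set_option autoImplicit false

namespace Pool.Agent.Hyp6

/-- the numbers of a line triple at a private single leaf. -/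
structure LNum (ms : ℤ) (n W g P e m n1 : ℕ) : Prop where
  ms1 : ms ≤ -560 ∨ ms ≤ 144 * (n : ℤ) - 440 - 120 * (P : ℤ) - 5 * (W : ℤ) - 115 * (g : ℤ)
  sc : 160 * n ≤ 545 + 120 * P + 5 * W ∨ (e = 0 ∧
    ((m = 3 ∧ n1 = 1 ∧ P = 0 ∧ 4 ≤ n) ∨ (m = 1 ∧ P = 2 ∧ 3 ≤ W ∧ n = 6) ∨
      (m = 3 ∧ n1 = 3 ∧ P = 4 ∧ n = 7 ∧ 4 ≤ W)))
  ev : P % 2 = 0
  W2 : 2 ≤ W
  W3 : 1 ≤ P → 3 ≤ W
  W3' : 1 ≤ n → n ≤ 3 → 3 ≤ W
  pl : 6 * (n + W) + 23 * e + n1 ≤ 5 * P + 55
  n11 : 1 ≤ n1
  sm0 : e = 0 → P = 0 → m = 3 ∧ n1 = 1 ∧ n ≤ 5 ∧ (g ≤ 2 → n ≤ 4) ∧ (g ≤ 2 → 4 ≤ n → W = 5)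
  sm2 : e = 0 → P = 2 → m = 1 ∧ n ≤ 6
  sm4 : e = 0 → P = 4 → m = 3 ∧ n1 = 3 ∧ n ≤ 7
  sm6 : e = 0 → P = 6 → m = 5 ∧ n1 = 1 ∧ n ≤ 8

/-- the kinds of leaves. -/
theorem LNum.cls {mL : ℤ} {n W g P e m n1 : ℕ} (h : LNum mL n W g P e m n1) (hn : n ≤ 12) :
    160 * n ≤ 465 + 120 * P + 5 * W ∨
    (e = 0 ∧ P = 2 ∧ m = 1 ∧ n = 5) ∨
    (e = 0 ∧ P = 6 ∧ m = 5 ∧ n1 = 1 ∧ n = 8) ∨
    (P = 10 ∧ n = 11) ∨
    (e = 0 ∧ P = 0 ∧ m = 3 ∧ n1 = 1 ∧ n = 4 ∧ W = 5) ∨
    (e = 0 ∧ P = 0 ∧ m = 3 ∧ n1 = 1 ∧ 4 ≤ n ∧ n ≤ 5 ∧ 3 ≤ g) ∨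
    (e = 0 ∧ P = 2 ∧ m = 1 ∧ n = 6) ∨
    (e = 0 ∧ P = 4 ∧ m = 3 ∧ n1 = 3 ∧ n = 7 ∧ 4 ≤ W) := by
  obtain ⟨ms1, sc, ev, W2, W3, W3', pl, n11, sm0, sm2, sm4, sm6⟩ := h
  clear ms1
  obtain ⟨p, rfl⟩ : ∃ p, P = 2 * p := ⟨P / 2, by omega⟩
  clear ev
  by_cases hf : 160 * n ≤ 465 + 120 * (2 * p) + 5 * W
  · exact Or.inl hf
  right
  by_cases he : e = 0
  · subst he
    by_cases hp : p ≤ 5
    · interval_cases p
      · obtain ⟨h1, h2, h3, h4, h5⟩ := sm0 rfl rfl
        have : 4 ≤ n := by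
          by_contra hc
          have := W3' (by omega) (by omega)
          omega
        by_cases hg : g ≤ 2
        · have h6 := h4 hg
          have h7 := h5 hg this
          right; right; right; left
          exact ⟨rfl, rfl, h1, h2, by omega, h7⟩
        · right; right; right; right; left
          exact ⟨rfl, rfl, h1, h2, this, h3, by omega⟩
      · obtain ⟨h1, h2⟩ := sm2 rfl rfl
        have := W3 (by norm_num)
        by_cases h5 : n = 5
        · exact Or.inl ⟨rfl, rfl, h1, h5⟩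
        · right; right; right; right; right; left
          exact ⟨rfl, rfl, h1, by omega⟩
      · obtain ⟨h1, h2, h3⟩ := sm4 rfl rfl
        have := W3 (by norm_num)
        have h7 : n = 7 := by omega
        subst h7
        right; right; right; right; right; right
        refine ⟨rfl, rfl, h1, h2, rfl, ?_⟩
        rcases sc with sc | ⟨_, sc | sc | sc⟩ <;> omega
      · obtain ⟨h1, h2, h3⟩ := sm6 rfl rfl
        have := W3 (by norm_num)
        right; left
        exact ⟨rfl, rfl, h1, h2, by omega⟩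
      · have := W3 (by norm_num)
        exfalso
        rcases sc with sc | ⟨_, sc | sc | sc⟩ <;> omega
      · have := W3 (by norm_num)
        right; right; left
        refine ⟨rfl, ?_⟩
        rcases sc with sc | ⟨_, sc | sc | sc⟩ <;> omega
    · have := W3 (by omega)
      exfalso
      omega
  · clear sm0 sm2 sm4 sm6
    exfalso
    have he1 : 1 ≤ e := by omega
    clear he
    by_cases hp0 : p = 0
    · subst hp0
      by_cases hn3 : n ≤ 2
      · omega
      · by_cases h3 : n ≤ 3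
        · have := W3' (by omega) h3
          omega
        · omega
    · have := W3 (by omega)
      clear W3 W3' sc
      by_cases hp : p ≤ 5
      · interval_cases p <;> omega
      · omega

/-- the score of a leaf by its kind. -/
theorem LNum.kind {mL : ℤ} {n W g P e m n1 : ℕ} (h : LNum mL n W g P e m n1) (hn : n ≤ 12) :
    ∃ f : ℤ, (mL ≤ -560 ∨ mL ≤ f - 16 * (n : ℤ) - 440) ∧
    ((f ≤ 465 - 115 * (g : ℤ) ∧ f ≤ 160 * (n : ℤ) - 10) ∨
    (e = 0 ∧ P = 2 ∧ m = 1 ∧ n = 5 ∧ f = 560 - 5 * (W : ℤ) - 115 * (g : ℤ) ∧ 3 ≤ W) ∨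
    (e = 0 ∧ P = 6 ∧ m = 5 ∧ n1 = 1 ∧ n = 8 ∧ f ≤ 545 - 115 * (g : ℤ)) ∨
    (n = 11 ∧ f ≤ 545) ∨
    (e = 0 ∧ P = 0 ∧ m = 3 ∧ n1 = 1 ∧ n = 4 ∧ W = 5 ∧ f = 615 - 115 * (g : ℤ)) ∨
    (m = 3 ∧ n1 = 1 ∧ 4 ≤ n ∧ n ≤ 5 ∧ f ≤ 445) ∨
    (e = 0 ∧ P = 2 ∧ m = 1 ∧ n = 6 ∧ f ≤ 705 - 115 * (g : ℤ)) ∨
    (e = 0 ∧ P = 4 ∧ m = 3 ∧ n1 = 3 ∧ n = 7 ∧ f ≤ 620 - 115 * (g : ℤ))) := by
  have hc := h.cls hn
  obtain ⟨ms1, -, -, W2, W3, -, -, -, -, -, -, -⟩ := h
  refine ⟨160 * (n : ℤ) - 120 * (P : ℤ) - 5 * (W : ℤ) - 115 * (g : ℤ), ?_, ?_⟩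
  · rcases ms1 with h1 | h1
    · exact Or.inl h1
    · right
      linarith
  · clear ms1
    rcases hc with hc | ⟨rfl, rfl, rfl, rfl⟩ | ⟨rfl, rfl, rfl, rfl, rfl⟩ | ⟨rfl, rfl⟩ |
      ⟨rfl, rfl, rfl, rfl, rfl, rfl⟩ | ⟨rfl, rfl, rfl, rfl, h4, h5, h6⟩ | ⟨rfl, rfl, rfl, rfl⟩ |
      ⟨rfl, rfl, rfl, rfl, rfl, h6⟩
    · left
      clear W3
      omega
    · right; left
      have := W3 (by norm_num)
      refine ⟨rfl, rfl, rfl, rfl, ?_, this⟩
      push_cast
      ring
    · right; right; left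
      have := W3 (by norm_num)
      refine ⟨rfl, rfl, rfl, rfl, rfl, ?_⟩
      push_cast
      omega
    · right; right; right; left
      have := W3 (by norm_num)
      refine ⟨rfl, ?_⟩
      push_cast
      omega
    · right; right; right; right; left
      refine ⟨rfl, rfl, rfl, rfl, rfl, rfl, ?_⟩
      push_cast
      ring
    · right; right; right; right; right; left
      refine ⟨rfl, rfl, h4, h5, ?_⟩
      push_cast
      omega
    · right; right; right; right; right; right; left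
      have := W3 (by norm_num)
      refine ⟨rfl, rfl, rfl, rfl, ?_⟩
      push_cast
      omega
    · right; right; right; right; right; right; right
      refine ⟨rfl, rfl, rfl, rfl, rfl, ?_⟩
      push_cast
      omega

/-- **no claims**: the needs at both ends are paid, or the row is one of four kinds. -/
theorem LNum.pair0 {mL mM t : ℤ} {n W g P e m n1 n' W' g' P' e' m' n1' : ℕ}
    (hL : LNum mL n W g P e m n1) (hM : LNum mM n' W' g' P' e' m' n1') (hN : n + n' ≤ 12)
    (ht : 0 ≤ t)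
    (hff : 3 ≤ m → 3 ≤ m' → 2 * n1 < n → 2 * n1' < n' → n + n' ≤ 4 + n1 + n1') :
    mL + mM ≤ 200 - 16 * ((n : ℤ) + n') + t ∨
    -- two points
    (e = 0 ∧ e' = 0 ∧ P = 2 ∧ P' = 2 ∧ m = 1 ∧ m' = 1 ∧ n = 5 ∧ n' = 5 ∧ g = 0 ∧ g' = 0 ∧
      W + W' ≤ 7) ∨
    -- a point and a leaf with three points
    (e = 0 ∧ e' = 0 ∧ ((P = 2 ∧ P' = 0 ∧ m = 1 ∧ m' = 3 ∧ n = 5 ∧ n' = 4 ∧ W' = 5) ∨
      (P = 0 ∧ P' = 2 ∧ m = 3 ∧ m' = 1 ∧ n = 4 ∧ n' = 5 ∧ W = 5)) ∧ g = 0 ∧ g' = 0) ∨
    -- a point with six hits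
    ((e = 0 ∧ P = 2 ∧ m = 1 ∧ n = 6 ∧ 3 ≤ n') ∨ (e' = 0 ∧ P' = 2 ∧ m' = 1 ∧ n' = 6 ∧ 3 ≤ n)) ∨
    -- a leaf with three points and three singles
    ((e = 0 ∧ P = 4 ∧ m = 3 ∧ n1 = 3 ∧ n = 7 ∧ g = 0) ∨
      (e' = 0 ∧ P' = 4 ∧ m' = 3 ∧ n1' = 3 ∧ n' = 7 ∧ g' = 0)) := by
  obtain ⟨f, h1, c1⟩ := hL.kind (by omega)
  obtain ⟨f', h1', c1'⟩ := hM.kind (by omega)
  clear hL hM
  have k0 : f ≤ 705 := by
    rcases c1 with c | c | c | c | c | c | c | c <;> omega
  have k0' : f' ≤ 705 := by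
    rcases c1' with c | c | c | c | c | c | c | c <;> omega
  rcases h1 with h1 | h1
  · left
    rcases h1' with h1' | h1' <;> omega
  rcases h1' with h1' | h1'
  · left
    omega
  by_cases hG : f + f' ≤ 1080
  · left
    omega
  right
  clear h1 h1' k0 k0' ht
  rcases c1 with c | c | c | c | c | c | c | c <;>
    rcases c1' with c' | c' | c' | c' | c' | c' | c' | c' <;>
      first
      | (exfalso; clear hff; omega)
      | (exfalso; have := hff (by omega) (by omega) (by omega) (by omega); omega)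
      | (clear hff; left; omega)
      | (clear hff; right; left; omega)
      | (clear hff; right; right; left; omega)
      | (clear hff; right; right; right; omega)

/-- **claims, at most eight hits and claims**: the needs are paid. -/
theorem LNum.pairI {mL mM t : ℤ} {n W g P e m n1 n' W' g' P' e' m' n1' c : ℕ}
    (hL : LNum mL n W g P e m n1) (hM : LNum mM n' W' g' P' e' m' n1') (hc : 1 ≤ c)
    (hN : n + n' + c ≤ 8) (ht : -80 * (c : ℤ) ≤ t)
    (hs : e = 0 → e' = 0 → P = 0 → P' = 0 → n + n' + c ≤ 6 ∨ n + n' ≤ 4) :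
    mL + mM ≤ 200 - 16 * ((n : ℤ) + n') + t := by
  obtain ⟨f, h1, c1⟩ := hL.kind (by omega)
  obtain ⟨f', h1', c1'⟩ := hM.kind (by omega)
  obtain ⟨ms1, -, ev, W2, W3, W4, pl, n11, -, -, -, -⟩ := hL
  obtain ⟨ms1', -, ev', W2', W3', W4', pl', n11', -, -, -, -⟩ := hM
  by_cases hP : P = 0 ∧ P' = 0
  · obtain ⟨rfl, rfl⟩ := hP
    by_cases he : e = 0 ∧ e' = 0
    · obtain ⟨rfl, rfl⟩ := he
      have h2 := hs rfl rfl rfl rfl
      clear hs W3 W4 W3' W4' c1 c1' h1 h1'
      rcases ms1 with h1 | h1 <;> rcases ms1' with h1' | h1' <;> omega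
    · have k2 : f ≤ 615 := by
        rcases c1 with c | c | c | c | c | c | c | c <;> omega
      have k2' : f' ≤ 615 := by
        rcases c1' with c | c | c | c | c | c | c | c <;> omega
      have k3 : n ≤ 3 → f ≤ 465 := by
        intro hn
        rcases c1 with c | c | c | c | c | c | c | c <;> omega
      have k3' : n' ≤ 3 → f' ≤ 465 := by
        intro hn
        rcases c1' with c | c | c | c | c | c | c | c <;> omega
      clear c1 c1' hs
      have h3 : (n ≤ 2 ∧ (1 ≤ n → 3 ≤ W)) ∨ (n' ≤ 2 ∧ (1 ≤ n' → 3 ≤ W')) := by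
        by_cases h4 : e = 0
        · right
          have h5 : 1 ≤ e' := by omega
          have h8 : n' ≤ 2 := by
            by_contra h6
            by_cases h7 : n' ≤ 3
            · have := W4' (by omega) h7
              omega
            · omega
          exact ⟨h8, fun h9 => W4' h9 (by omega)⟩
        · left
          have h8 : n ≤ 2 := by
            by_contra h6
            by_cases h7 : n ≤ 3
            · have := W4 (by omega) h7
              omega
            · omega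
          exact ⟨h8, fun h9 => W4 h9 (by omega)⟩
      clear W3 W3' W4 W4' pl pl' he n11 n11' ev ev'
      rcases h3 with ⟨h3, h4⟩ | ⟨h3, h4⟩
      · clear h1 k2 k3
        have h7 : mM ≤ -560 ∨ mM ≤ 144 * (n' : ℤ) - 450 := by
          rcases ms1' with h | h
          · exact Or.inl h
          · right
            omega
        clear ms1'
        have h5 : mL ≤ -560 ∨ mL ≤ 144 * (n : ℤ) - 455 ∨ (n = 0 ∧ mL ≤ -450) := by
          rcases ms1 with h | h
          · exact Or.inl h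
          · right
            by_cases h6 : n = 0
            · right
              omega
            · left
              have := h4 (by omega)
              omega
        clear ms1 h4
        by_cases h6 : n' ≤ 3
        · clear h1'
          rcases h7 with h7 | h7 <;> rcases h5 with h5 | h5 | h5 <;> omega
        · clear h7
          rcases h1' with h1' | h1' <;> rcases h5 with h5 | h5 | h5 <;> omega
      · clear h1' k2' k3'
        have h7 : mL ≤ -560 ∨ mL ≤ 144 * (n : ℤ) - 450 := by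
          rcases ms1 with h | h
          · exact Or.inl h
          · right
            omega
        clear ms1
        have h5 : mM ≤ -560 ∨ mM ≤ 144 * (n' : ℤ) - 455 ∨ (n' = 0 ∧ mM ≤ -450) := by
          rcases ms1' with h | h
          · exact Or.inl h
          · right
            by_cases h6 : n' = 0
            · right
              omega
            · left
              have := h4 (by omega)
              omega
        clear ms1' h4
        by_cases h6 : n ≤ 3
        · clear h1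
          rcases h7 with h7 | h7 <;> rcases h5 with h5 | h5 | h5 <;> omega
        · clear h7
          rcases h1 with h1 | h1 <;> rcases h5 with h5 | h5 | h5 <;> omega
  · clear hs W4 W4' h1 h1' c1 c1'
    have h2 : 2 ≤ P ∨ 2 ≤ P' := by omega
    have h3 : 25 ≤ 5 * (W : ℤ) + 5 * (W' : ℤ) := by
      rcases h2 with h2 | h2
      · have := W3 (by omega)
        omega
      · have := W3' (by omega)
        omega
    have h4 : (240 : ℤ) ≤ 120 * (P : ℤ) + 120 * (P' : ℤ) := by omega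
    clear W3 W3' h2 pl pl' hP
    rcases ms1 with h1 | h1 <;> rcases ms1' with h1' | h1' <;> omega

/-- **claims at one point** `v`: the other two points have `a`, `b` hits at the first leaf and none at the
second, `v` has `w` hits at the first leaf. -/
theorem LNum.pairII {mL mM t : ℤ} {n W g P e m n1 n' W' g' P' e' m' n1' c a b w : ℕ}
    (hL : LNum mL n W g P e m n1) (hM : LNum mM n' W' g' P' e' m' n1') (hc : 1 ≤ c)
    (ht : -80 * (c : ℤ) ≤ t) (hn : n = a + b + w) (hv : w + n' + c ≤ 4) (ha : a ≤ 4) (hb : b ≤ 4)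
    (hr : (2 ≤ a → 2 ≤ b → 2 ≤ P) ∧ (4 ≤ a → 2 ≤ b → 4 ≤ P) ∧ (2 ≤ a → 4 ≤ b → 4 ≤ P) ∧
      (3 ≤ a → 3 ≤ b → 6 ≤ P) ∧ (4 ≤ a → 4 ≤ b → 10 ≤ P))
    (hs : m = 3 → a ≤ n1 ∧ b ≤ n1) :
    mL + mM ≤ 200 - 16 * ((n : ℤ) + n') + t ∨
    (c = 1 ∧ e = 0 ∧ P = 2 ∧ m = 1 ∧ P' = 0 ∧ n + n' = 8 ∧ n ≤ 6 ∧ 2 ≤ n' ∧ n' ≤ 3 ∧ W + W' ≤ 7 ∧
      g = 0 ∧ g' = 0) := by
  obtain ⟨f, h1, c1⟩ := hL.kind (by omega)
  have k1' : mM ≤ -560 ∨ (mM ≤ 144 * (n' : ℤ) - 450 ∧
      mM ≤ 144 * (n' : ℤ) - 440 - 120 * (P' : ℤ) - 5 * (W' : ℤ) - 115 * (g' : ℤ)) := by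
    rcases hM.ms1 with h | h
    · exact Or.inl h
    · right
      have := hM.W2
      omega
  have q1' : 1 ≤ n' → n' ≤ 3 → 3 ≤ W' := hM.W3'
  have w2' := hM.W2
  have ev' := hM.ev
  obtain ⟨ms1, -, ev, W2, W3, W4, pl, n11, sm0, sm2, sm4, sm6⟩ := hL
  clear hM
  by_cases hP : P = 0
  · left
    subst hP
    by_cases he : e = 0
    · obtain ⟨h2, h3, h4, _⟩ := sm0 he rfl
      obtain ⟨h5, h6⟩ := hs h2
      clear sm0 sm2 sm4 sm6 hr hs W3 W4 q1' h1 c1
      rcases ms1 with h1 | h1 <;> rcases k1' with h1' | h1' <;> omega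
    · have h8 : n ≤ 2 := by
        by_contra h6
        by_cases h7 : n ≤ 3
        · have := W4 (by omega) h7
          omega
        · omega
      clear sm0 sm2 sm4 sm6 hr hs W3 W4 q1' h1 c1 pl
      rcases ms1 with h1 | h1 <;> rcases k1' with h1' | h1' <;> omega
  · have h3 := W3 (by omega)
    by_cases hP2 : P = 2
    · subst hP2
      by_cases he : e = 0
      · obtain ⟨h4, h5⟩ := sm2 he rfl
        have h6 : a + b ≤ 5 := by omega
        clear sm0 sm2 sm4 sm6 hr hs W3 W4 h1 c1 pl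
        by_cases h7 : c = 1
        · subst h7
          by_cases h8 : P' = 0
          · subst h8
            by_cases h9 : n + n' = 8 ∧ W + W' ≤ 7 ∧ g = 0 ∧ g' = 0
            · right
              omega
            · left
              by_cases h10 : n' = 0
              · rcases ms1 with h1 | h1 <;> rcases k1' with h1' | h1' <;> omega
              · have h11 := q1' (by omega) (by omega)
                clear q1'
                by_cases h12 : n + n' = 8
                · have h13 : 40 ≤ 5 * (W : ℤ) + 5 * (W' : ℤ) + 115 * (g : ℤ) + 115 * (g' : ℤ) := by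
                    omega
                  clear h9
                  rcases ms1 with h1 | h1 <;> rcases k1' with h1' | h1' <;> omega
                · clear h9
                  rcases ms1 with h1 | h1 <;> rcases k1' with h1' | h1' <;> omega
          · left
            rcases ms1 with h1 | h1 <;> rcases k1' with h1' | h1' <;> omega
        · left
          clear q1'
          rcases ms1 with h1 | h1 <;> rcases k1' with h1' | h1' <;> omega
      · left
        clear sm0 sm2 sm4 sm6 hs W3 W4 q1' h1 c1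
        have h4 : n ≤ 3 := by omega
        clear pl hr
        rcases ms1 with h1 | h1 <;> rcases k1' with h1' | h1' <;> omega
    · left
      clear sm0 sm2 sm6 hs W3 W4 q1' h1 c1 pl
      have h4 : 160 * ((a : ℤ) + b) ≤ 120 * (P : ℤ) + 480 := by
        by_cases h5 : P = 4
        · subst h5
          omega
        · have : 6 ≤ P := by omega
          omega
      clear hr sm4
      rcases ms1 with h1 | h1 <;> rcases k1' with h1' | h1' <;> omega

end Pool.Agent.Hyp6
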