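import Pool.Agent.Hyp6.L3Rd7
import Pool.Agent.Hyp6.L3Fr

/-!
# HYP6 L3Yf: full classes

A class with all the units it can use (`Ful`) needs nothing: `StgR.nd_full`, `StgR.nd_fullN`,
`StgR.RG_full`. `StgR.finS`: the last step, with hypotheses only for the classes which are not full.
-/

set_option autoImplicit false

namespace Pool.Agent.Hyp6

open Finset Pool.Agent.Hyp5 Rt

universe u v

variable {V : Type v} [DecidableEq V] {ι : Type u} [Fintype ι] [DecidableEq ι]
  {B : ι → Finset V}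

theorem pm_ge (n : ℕ) : -161 ≤ pm n := by
  unfold pm
  split_ifs <;> omega

/-- the claims, with the claims `fcl` of the triples with own points. -/
noncomputable abbrev clG (B : ι → Finset V) (Q : Finset V) (T : Finset ι) (U : Finset V)
    (F : Finset (Finset V)) (P : Finset (Finset (Finset V))) (a : V → Finset (Finset V) → ℕ)
    (j : ι) (C : Finset (Finset V)) : ℤ :=
  clmF 149 B Q T U F P a (fcl 149 B Q T U F P a (tF B Q T U F P)) j C

namespace StgR

variable {Q U : Finset V} {T : Finset ι} {F : Finset (Finset V)}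
  {P : Finset (Finset (Finset V))} {a : V → Finset (Finset V) → ℕ}

/-- the transfer of a triple with a hit, lower bound. -/
theorem tF16 (s : StgR B Q T U F P a) {k : ι} (hk : k ∈ T) (h1 : 1 ≤ ∑ L ∈ F, jh B Q k L) :
    -408 ≤ tF B Q T U F P k + 16 * (12 - ((∑ L ∈ F, jh B Q k L : ℕ) : ℤ)) := by
  have h3 := tF_ge0 (B := B) (Q := Q) (T := T) (U := U) (F := F) (P := P) k
  have h2 := s.twelve_ncl hk
  rcases Nat.eq_zero_or_pos (ncl B Q T U F P k) with h0 | h0
  · omega
  · rcases s.four_or_eight hk h0 with ⟨v, _, _, _, h4⟩ | h4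
    · omega
    · omega

/-- the transfers of the inside triples. -/
theorem tK_ge (s : StgR B Q T U F P a) {C : Finset (Finset V)} (hC : C ∈ P) :
    -408 * ((KC B Q T U F C).card : ℤ) ≤ tK B Q (Rg B Q T U F) F (tF B Q T U F P) C +
      16 * (Frm.xC B Q T (Rg B Q T U F) U F C : ℤ) := by
  unfold tK Frm.xC KC
  have h3 : ∑ j ∈ Sp.Kin (Rg B Q T U F) (slj B Q F) C, (-408 : ℤ) ≤
      ∑ k ∈ Sp.Kin (Rg B Q T U F) (slj B Q F) C,
        (tF B Q T U F P k + 16 * ((jn B Q (Ep B Q T U F) k : ℤ) + jb B Q T U k)) := by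
    refine sum_le_sum fun k hk => ?_
    have h4 := s.tF_kin_ge hC hk
    obtain ⟨hkR, _, _⟩ := mem_filter.1 hk
    have h5 := s.frm.twelve s.viol.reg (mem_Rg.1 hkR).1
    have h6 := (mem_Rg.1 hkR).2.1
    rw [h6] at h5
    omega
  rw [sum_const, nsmul_eq_mul, sum_add_distrib, ← mul_sum] at h3
  push_cast at h3 ⊢
  linarith

/-- **what a full class needs**. -/
theorem nd_full (s : StgR B Q T U F P a) {C : Finset (Finset V)} (hC : C ∈ P)
    (hf : Ful B Q T U F P a C) :
    ndF B Q T U F P a C ≤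
      -∑ j ∈ aC B Q T U F P C, (560 - 112 * (owj B Q U F P a j C : ℤ)) -
        280 * (lsC B Q T U F C : ℤ) := by
  have hX : 0 ≤ ∑ j ∈ Trs B Q T (Rg B Q T U F) U F P, Xv 149 B Q T U F P j C :=
    sum_nonneg fun j hj => s.toStg.Xv_nonneg (by norm_num) hj hC
  have hK := s.tK_ge hC
  have hc := s.toStg.cls hC
  obtain ⟨c1, c2, c3, c4, c5, c6, c7, c8, c9, c10, c11, c12, c13, c14, c15, c16, c17⟩ := hc
  have e1 : ∑ j ∈ aC B Q T U F P C, (560 - 112 * (owj B Q U F P a j C : ℤ)) =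
      8 * ∑ j ∈ aC B Q T U F P C,
        (70 - 14 * (Sp.owl U (slf B F) P (lj B Q U F P) a j C : ℤ)) := by
    rw [mul_sum]
    exact sum_congr rfl fun j _ => by ring
  unfold ndF ndC msC mis
  rw [e1, show Sp.ld (Sp.Ux U (slf B F) P) a C = 5 + lsC B Q T U F C from hf]
  push_cast
  unfold KC at hK
  linarith

/-- a line triple on a line with two classes has no own units. -/
theorem owj_thin (s : StgR B Q T U F P a) {j : ι} (hj : j ∈ tl B Q T U F P)
    (h2 : (lj B Q U F P j).card = 2) (C : Finset (Finset V)) : owj B Q U F P a j C = 0 := by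
  rcases s.toStg.two_or hj with ⟨_, h3⟩ | ⟨h3, _⟩
  · show Sp.ld (oj B Q U F P j) a C = 0
    unfold Sp.ld
    rw [h3, sum_empty]
  · omega

/-- the excesses of the own units over five. -/
theorem own_exc (s : StgR B Q T U F P a) {C : Finset (Finset V)} (hf : Ful B Q T U F P a C) :
    ∑ j ∈ aC B Q T U F P C, max ((owj B Q U F P a j C : ℤ) - 5) 0 ≤ lsC B Q T U F C := by
  have h1 := s.toStg.own_le (C := C)
  rw [show Sp.ld (Sp.Ux U (slf B F) P) a C = 5 + lsC B Q T U F C from hf] at h1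
  have h2 : ((∑ i ∈ aC B Q T U F P C, owj B Q U F P a i C : ℕ) : ℤ) ≤
      ((5 + lsC B Q T U F C : ℕ) : ℤ) := by exact_mod_cast h1
  push_cast at h2
  by_cases h3 : ∃ j ∈ aC B Q T U F P C, 5 ≤ owj B Q U F P a j C
  · obtain ⟨j, hj, h5⟩ := h3
    rw [← add_sum_erase _ _ hj] at h2 ⊢
    have h4 : ∑ i ∈ (aC B Q T U F P C).erase j, max ((owj B Q U F P a i C : ℤ) - 5) 0 ≤
        ∑ i ∈ (aC B Q T U F P C).erase j, (owj B Q U F P a i C : ℤ) :=
      sum_le_sum fun i _ => by omega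
    have h6 : max ((owj B Q U F P a j C : ℤ) - 5) 0 = (owj B Q U F P a j C : ℤ) - 5 := by omega
    rw [h6]
    linarith
  · push Not at h3
    have h4 : ∑ i ∈ aC B Q T U F P C, max ((owj B Q U F P a i C : ℤ) - 5) 0 = 0 :=
      sum_eq_zero fun i hi => by
        have := h3 i hi
        omega
    rw [h4]
    positivity

/-- **a full class is paid**, for any claims which are at least the payments of a full class. -/
theorem nd_full_le (s : StgR B Q T U F P a) {C : Finset (Finset V)} (hC : C ∈ P)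
    (hf : Ful B Q T U F P a C) {c : ι → ℤ}
    (hc : ∀ j ∈ aC B Q T U F P C, -(560 - 112 * (owj B Q U F P a j C : ℤ)) -
      280 * max ((owj B Q U F P a j C : ℤ) - 5) 0 ≤ c j) :
    ndF B Q T U F P a C ≤ ∑ j ∈ aC B Q T U F P C, c j := by
  have h1 := s.nd_full hC hf
  have h2 := s.own_exc hf
  have h3 := sum_le_sum hc
  rw [sum_sub_distrib, sum_neg_distrib, ← mul_sum] at h3
  linarith

/-- a full class without line triples. -/
theorem nd_full0 (s : StgR B Q T U F P a) {C : Finset (Finset V)} (hC : C ∈ P)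
    (hf : Ful B Q T U F P a C) (h0 : (aC B Q T U F P C).card = 0) :
    ndF B Q T U F P a C ≤ 0 := by
  have h1 := s.nd_full_le hC hf (c := fun _ => 0) (fun j hj => by
    rw [card_eq_zero.1 h0] at hj
    exact absurd hj (notMem_empty j))
  rwa [card_eq_zero.1 h0, sum_empty] at h1

/-- a full private class on a line with two classes. -/
theorem nd_full1 (s : StgR B Q T U F P a) {C : Finset (Finset V)} (hC : C ∈ P)
    (hf : Ful B Q T U F P a C) {j : ι} (hj : j ∈ aC B Q T U F P C)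
    (h2 : (lj B Q U F P j).card = 2) (h1 : (aC B Q T U F P C).card = 1) :
    ndF B Q T U F P a C ≤ -560 := by
  have h3 := s.nd_full hC hf
  obtain ⟨i, hi⟩ := card_eq_one.1 h1
  have h4 : j = i := by
    rw [hi] at hj
    exact mem_singleton.1 hj
  subst h4
  rw [hi, sum_singleton, s.owj_thin (Sp.mem_atl.1 hj).1 h2] at h3
  have h5 : (0 : ℤ) ≤ (lsC B Q T U F C : ℤ) := by positivity
  push_cast at h3
  linarith

/-- what a line triple has. -/
theorem sT_tF_ge (s : StgR B Q T U F P a) {j : ι} (hj : j ∈ tl B Q T U F P) {C D : Finset (Finset V)}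
    (hCD : C ≠ D) (hl : lj B Q U F P j = {C, D}) :
    720 ≤ 8 * sT B Q T U F 15 j + tF B Q T U F P j := by
  obtain ⟨hjT, hja⟩ := s.toStg.tl_sub hj
  have h1 := (s.toStg.jC_two hj hCD hl).1
  have hCP : C ∈ P := s.lnf.sub j hj (by rw [hl]; simp)
  have h2 : jC B Q j C ≤ ∑ L ∈ F, jh B Q j L := by
    unfold jC
    exact sum_le_sum_of_subset (s.part.ptn.vc C hCP).sub
  have h3 := s.tF16 hjT (by omega)
  have h4 := s.frm.twelve s.viol.reg hjT
  have hRg : j ∈ Rg B Q T U F := (mem_filter.1 (mem_filter.1 hj).1).1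
  have h5 : ja B Q (Ep B Q T U F) j = 0 := (mem_Rg.1 hRg).2.1
  unfold sT
  rw [h5] at h4 ⊢
  push_cast
  omega

/-- **the rest of a line triple with a full private end**. -/
theorem RG_full (s : StgR B Q T U F P a) {j : ι} (hj : j ∈ tl B Q T U F P)
    {C D : Finset (Finset V)} (hCD : C ≠ D) (hl : lj B Q U F P j = {C, D})
    (hD : (aC B Q T U F P D).card = 1) (hf : Ful B Q T U F P a D) :
    pm (jC B Q j C) ≤ 8 * sT B Q T U F 15 j + tF B Q T U F P j - 1120 - ndF B Q T U F P a D := by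
  have hDP : D ∈ P := s.lnf.sub j hj (by rw [hl]; simp)
  have h1 := s.nd_full1 hDP hf (Sp.mem_atl.2 ⟨hj, by rw [hl]; simp⟩)
    (by rw [hl, card_pair hCD]) hD
  have h2 := s.sT_tF_ge hj hCD hl
  have h3 := pm_le (jC B Q j C)
  linarith

/-- **the last step, full classes done**. -/
theorem finS (s : StgR B Q T U F P a)
    (RG : ∀ j ∈ tl B Q T U F P, ∀ C D, C ≠ D → lj B Q U F P j = {C, D} →
      (aC B Q T U F P D).card = 1 → ¬ Ful B Q T U F P a D →
      pm (jC B Q j C) ≤ 8 * sT B Q T U F 15 j + tF B Q T U F P j - 1120 - ndF B Q T U F P a D)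
    (S0 : ∀ L, {L} ∈ P → ¬ Ful B Q T U F P a {L} → (aC B Q T U F P {L}).card = 0 →
      KC B Q T U F {L} = ∅ → NCt B Q T U F P {L} → msC 149 B Q T U F P a {L} ≤ 0)
    (B0 : ∀ L, {L} ∈ P → ¬ Ful B Q T U F P a {L} → (aC B Q T U F P {L}).card = 0 →
      KC B Q T U F {L} = ∅ → (Bs B Q T U F P L).Nonempty → msC 149 B Q T U F P a {L} ≤ 0)
    (C0 : ∀ C ∈ P, ¬ Ful B Q T U F P a C → 2 ≤ C.card → (aC B Q T U F P C).card = 0 →
      KC B Q T U F C = ∅ → NCt B Q T U F P C → msC 149 B Q T U F P a C ≤ 0)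
    (E0 : ∀ C ∈ P, ¬ Ful B Q T U F P a C → 2 ≤ C.card → (aC B Q T U F P C).card = 0 →
      KC B Q T U F C = ∅ → ¬ NCt B Q T U F P C → msC 149 B Q T U F P a C ≤ 0)
    (D0 : ∀ C ∈ P, ¬ Ful B Q T U F P a C → (aC B Q T U F P C).card = 0 →
      (KC B Q T U F C).Nonempty → ndF B Q T U F P a C ≤ 0)
    (SN : ∀ L, {L} ∈ P → ¬ Ful B Q T U F P a {L} → 2 ≤ (aC B Q T U F P {L}).card →
      KC B Q T U F {L} = ∅ → NCt B Q T U F P {L} →
      (∀ j ∈ aC B Q T U F P {L}, (lj B Q U F P j).card = 2) →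
      msC 149 B Q T U F P a {L} ≤ ∑ j ∈ aC B Q T U F P {L}, clG B Q T U F P a j {L})
    (SM : ∀ L, {L} ∈ P → ¬ Ful B Q T U F P a {L} → 2 ≤ (aC B Q T U F P {L}).card →
      KC B Q T U F {L} = ∅ → NCt B Q T U F P {L} →
      (∃ j ∈ aC B Q T U F P {L}, 3 ≤ (lj B Q U F P j).card) →
      msC 149 B Q T U F P a {L} ≤ ∑ j ∈ aC B Q T U F P {L}, clG B Q T U F P a j {L})
    (BL : ∀ L, {L} ∈ P → ¬ Ful B Q T U F P a {L} → (aC B Q T U F P {L}).Nonempty →
      (2 ≤ (aC B Q T U F P {L}).card ∨ ∀ j ∈ aC B Q T U F P {L}, (lj B Q U F P j).card = 2) →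
      KC B Q T U F {L} = ∅ → (Bs B Q T U F P L).Nonempty →
      msC 149 B Q T U F P a {L} ≤ ∑ j ∈ aC B Q T U F P {L},
        (if (lj B Q U F P j).card = 2 then pm (jh B Q j L)
          else fcl 149 B Q T U F P a (tF B Q T U F P) j {L}))
    (CN : ∀ C ∈ P, ¬ Ful B Q T U F P a C → 2 ≤ C.card → 2 ≤ (aC B Q T U F P C).card →
      KC B Q T U F C = ∅ → NCt B Q T U F P C →
      msC 149 B Q T U F P a C ≤ ∑ j ∈ aC B Q T U F P C, clG B Q T U F P a j C)
    (EN : ∀ C ∈ P, ¬ Ful B Q T U F P a C → 2 ≤ C.card → 2 ≤ (aC B Q T U F P C).card →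
      KC B Q T U F C = ∅ → ¬ NCt B Q T U F P C →
      msC 149 B Q T U F P a C ≤ ∑ j ∈ aC B Q T U F P C, clG B Q T U F P a j C)
    (DN : ∀ C ∈ P, ¬ Ful B Q T U F P a C → 2 ≤ (aC B Q T U F P C).card →
      (KC B Q T U F C).Nonempty →
      ndF B Q T U F P a C ≤ ∑ j ∈ aC B Q T U F P C, clG B Q T U F P a j C)
    (L2 : ∀ j ∈ tl B Q T U F P, ∀ C D, C ≠ D → lj B Q U F P j = {C, D} →
      aC B Q T U F P C = {j} → aC B Q T U F P D = {j} →
      ¬ Ful B Q T U F P a C → ¬ Ful B Q T U F P a D →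
      (KC B Q T U F C = ∅ → NCt B Q T U F P C ∨ 2 ≤ C.card) →
      (KC B Q T U F D = ∅ → NCt B Q T U F P D ∨ 2 ≤ D.card) →
      ndF B Q T U F P a C + ndF B Q T U F P a D ≤
        8 * sT B Q T U F 15 j + tF B Q T U F P j - 1120)
    (LF : ∀ j ∈ tl B Q T U F P, 1 ≤ (oj B Q U F P j).card →
      ∑ C ∈ (lj B Q U F P j).filter (fun C => (aC B Q T U F P C).card = 1),
        ndF B Q T U F P a C +
      ∑ C ∈ (lj B Q U F P j).filter (fun C => 2 ≤ (aC B Q T U F P C).card),
        fcl 149 B Q T U F P a (tF B Q T U F P) j C ≤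
        8 * sT B Q T U F 15 j + tF B Q T U F P j - 1120 +
          168 * ∑ u ∈ oj B Q U F P j, (uo B Q T U F u : ℤ)) :
    False := by
  have RG' : ∀ j ∈ tl B Q T U F P, ∀ C D, C ≠ D → lj B Q U F P j = {C, D} →
      (aC B Q T U F P D).card = 1 →
      pm (jC B Q j C) ≤ 8 * sT B Q T U F 15 j + tF B Q T U F P j - 1120 - ndF B Q T U F P a D := by
    intro j hj C D hCD hl hD
    by_cases hf : Ful B Q T U F P a D
    · exact s.RG_full hj hCD hl hD hf
    · exact RG j hj C D hCD hl hD hf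
  -- the claims at a full class
  have hcl : ∀ C, Ful B Q T U F P a C → ∀ j ∈ aC B Q T U F P C,
      -(560 - 112 * (owj B Q U F P a j C : ℤ)) - 280 * max ((owj B Q U F P a j C : ℤ) - 5) 0 ≤
        clG B Q T U F P a j C := by
    intro C hf j hj
    have hjt := (Sp.mem_atl.1 hj).1
    rcases s.toStg.two_or hjt with h4 | h4
    · have h5 := s.clmF_ge' (fat := fcl 149 B Q T U F P a (tF B Q T U F P)) RG' hj h4.1
      have h6 := pm_ge (jC B Q j C)
      rw [s.owj_thin hjt h4.1]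
      have h7 : -(560 - 112 * ((0 : ℕ) : ℤ)) - 280 * max (((0 : ℕ) : ℤ) - 5) 0 = -560 := by
        norm_num
      rw [h7]
      linarith
    · show _ ≤ clmF 149 B Q T U F P a (fcl 149 B Q T U F P a (tF B Q T U F P)) j C
      rw [s.toStg.clmF_fat hjt h4.2, fcl_full hf]
  have hms : ∀ C, KC B Q T U F C = ∅ → msC 149 B Q T U F P a C = ndF B Q T U F P a C :=
    fun C hK => (s.toStg.ndC_eq hK).symm
  have hpriv : ∀ j ∈ tl B Q T U F P, ∀ C D, lj B Q U F P j = {C, D} →
      aC B Q T U F P C = {j} → (aC B Q T U F P C).card = 1 := by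
    intro j _ C D _ h
    rw [h, card_singleton]
  refine s.finR (fcl 149 B Q T U F P a (tF B Q T U F P)) RG' (fun L hL h0 hK hn => ?_)
    (fun L hL h0 hK hb => ?_) (fun C hC h1 h0 hK hn => ?_) (fun C hC h1 h0 hK hn => ?_)
    (fun C hC h0 hK => ?_) (fun L hL h2 hK hn ht => ?_) (fun L hL h2 hK hn ht => ?_)
    (fun L hL h2 ht hK hb => ?_) (fun C hC h1 h2 hK hn => ?_) (fun C hC h1 h2 hK hn => ?_)
    (fun C hC h2 hK => ?_) (fun j hj C D hCD hl hC hD k1 k2 => ?_) LF
  · by_cases hf : Ful B Q T U F P a {L}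
    · rw [hms _ hK]
      exact s.nd_full0 hL hf h0
    · exact S0 L hL hf h0 hK hn
  · by_cases hf : Ful B Q T U F P a {L}
    · rw [hms _ hK]
      exact s.nd_full0 hL hf h0
    · exact B0 L hL hf h0 hK hb
  · by_cases hf : Ful B Q T U F P a C
    · rw [hms _ hK]
      exact s.nd_full0 hC hf h0
    · exact C0 C hC hf h1 h0 hK hn
  · by_cases hf : Ful B Q T U F P a C
    · rw [hms _ hK]
      exact s.nd_full0 hC hf h0
    · exact E0 C hC hf h1 h0 hK hn
  · by_cases hf : Ful B Q T U F P a C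
    · exact s.nd_full0 hC hf h0
    · exact D0 C hC hf h0 hK
  · by_cases hf : Ful B Q T U F P a {L}
    · rw [hms _ hK]
      exact s.nd_full_le hL hf (hcl _ hf)
    · exact SN L hL hf h2 hK hn ht
  · by_cases hf : Ful B Q T U F P a {L}
    · rw [hms _ hK]
      exact s.nd_full_le hL hf (hcl _ hf)
    · exact SM L hL hf h2 hK hn ht
  · by_cases hf : Ful B Q T U F P a {L}
    · rw [hms _ hK]
      refine s.nd_full_le hL hf fun j hj => ?_
      have hjt := (Sp.mem_atl.1 hj).1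
      rcases s.toStg.two_or hjt with h4 | h4
      · rw [if_pos h4.1, s.owj_thin hjt h4.1]
        have h6 := pm_ge (jh B Q j L)
        have h7 : -(560 - 112 * ((0 : ℕ) : ℤ)) - 280 * max (((0 : ℕ) : ℤ) - 5) 0 = -560 := by
          norm_num
        rw [h7]
        linarith
      · rw [if_neg (by omega), fcl_full hf]
    · exact BL L hL hf h2 ht hK hb
  · by_cases hf : Ful B Q T U F P a C
    · rw [hms _ hK]
      exact s.nd_full_le hC hf (hcl _ hf)
    · exact CN C hC hf h1 h2 hK hn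
  · by_cases hf : Ful B Q T U F P a C
    · rw [hms _ hK]
      exact s.nd_full_le hC hf (hcl _ hf)
    · exact EN C hC hf h1 h2 hK hn
  · by_cases hf : Ful B Q T U F P a C
    · exact s.nd_full_le hC hf (hcl _ hf)
    · exact DN C hC hf h2 hK
  · have hl' : lj B Q U F P j = {D, C} := by rw [hl, pair_comm]
    have hc1 : (aC B Q T U F P C).card = 1 := by rw [hC, card_singleton]
    have hd1 : (aC B Q T U F P D).card = 1 := by rw [hD, card_singleton]
    by_cases hf : Ful B Q T U F P a C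
    · have hCP : C ∈ P := s.lnf.sub j hj (by rw [hl]; simp)
      have h3 := s.nd_full1 hCP hf (Sp.mem_atl.2 ⟨hj, by rw [hl]; simp⟩)
        (by rw [hl, card_pair hCD]) hc1
      have h4 := RG' j hj C D hCD hl hd1
      have h5 := pm_ge (jC B Q j C)
      linarith
    · by_cases hg : Ful B Q T U F P a D
      · have hDP : D ∈ P := s.lnf.sub j hj (by rw [hl]; simp)
        have h3 := s.nd_full1 hDP hg (Sp.mem_atl.2 ⟨hj, by rw [hl]; simp⟩)
          (by rw [hl, card_pair hCD]) hd1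
        have h4 := RG' j hj D C hCD.symm hl' hc1
        have h5 := pm_ge (jC B Q j D)
        linarith
      · exact L2 j hj C D hCD hl hC hD hf hg k1 k2

end StgR

end Pool.Agent.Hyp6
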