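import Pool.Agent.Hyp6.L3Te
import Pool.Agent.Hyp6.L3Yf
import Pool.Agent.Hyp6.L3P7
import Pool.Agent.Hyp6.L3Ff
import Pool.Agent.Hyp6.L3L2a

/-!
# HYP6 L3L2: a line with two private single leaves

`Prv1 .. j L`: the single leaf `L` is a class with the only line triple `j`, on a line with two
classes, without inside triples and centres. `StgR.lnum`: the numbers `LNum` of such a leaf.
`StgR.ff_pair`: full hits on both leaves. `StgR.don_I`, `StgR.don_II`: triples with claims.
`StgR.l2_pay`: the needs at both ends are paid, except in the rows `R2A`, `R2C`, `R2P`, `R2S`, `R2D`.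
-/

set_option autoImplicit false

namespace Pool.Agent.Hyp6

open Finset Pool.Agent.Hyp5 Rt

universe u v

variable {V : Type v} [DecidableEq V] {ι : Type u} [Fintype ι] [DecidableEq ι]
  {B : ι → Finset V}

/-- the hits on the leaf `L` from outside of the triple `j`. -/
noncomputable abbrev ow (B : ι → Finset V) (Q : Finset V) (j : ι) (L : Finset V) : ℕ :=
  hit B ((Q \ (B j ∩ Q)) \ L) L

/-- the facts on the leaves with three points and one single trace. -/
def Ga31 (B : ι → Finset V) (Q : Finset V) (T : Finset ι) (U : Finset V)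
    (F : Finset (Finset V)) : Prop :=
  ∀ L ∈ F, L.card = 3 → nt B L 1 = 1 → dv B Q L = -1 → ∀ j ∈ T, jh B Q j L ≤ 5 ∧
    (hit B U L ≤ 2 → jh B Q j L ≤ 4) ∧ (hit B U L ≤ 2 → 4 ≤ jh B Q j L → ow B Q j L = 5)

/-- the single leaf `L` is a class with the only line triple `j`, on a line with two classes, without
inside triples and centres. -/
structure Prv1 (B : ι → Finset V) (Q : Finset V) (T : Finset ι) (U : Finset V)
    (F : Finset (Finset V)) (P : Finset (Finset (Finset V))) (j : ι) (L : Finset V) : Prop where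
  LP : {L} ∈ P
  jt : j ∈ tl B Q T U F P
  aL : aC B Q T U F P {L} = {j}
  oj : oj B Q U F P j = ∅
  kL : KC B Q T U F {L} = ∅
  nL : NCt B Q T U F P {L}

/-- both classes of the line of `j` are private single leaves. -/
structure Prv2 (B : ι → Finset V) (Q : Finset V) (T : Finset ι) (U : Finset V)
    (F : Finset (Finset V)) (P : Finset (Finset (Finset V))) (j : ι) (L M : Finset V) : Prop where
  l : Prv1 B Q T U F P j L
  m : Prv1 B Q T U F P j M
  ne : L ≠ M
  lj : lj B Q U F P j = {{L}, {M}}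

theorem Prv2.symm {Q U : Finset V} {T : Finset ι} {F : Finset (Finset V)}
    {P : Finset (Finset (Finset V))} {j : ι} {L M : Finset V} (h : Prv2 B Q T U F P j L M) :
    Prv2 B Q T U F P j M L := ⟨h.m, h.l, h.ne.symm, by rw [h.lj, pair_comm]⟩

namespace StgR

variable {Q U : Finset V} {T : Finset ι} {F : Finset (Finset V)}
  {P : Finset (Finset (Finset V))} {a : V → Finset (Finset V) → ℕ} {L M : Finset V} {j : ι}

/-- **the numbers of a private single leaf**. -/
theorem lnum (s : StgR B Q T U F P a) (h : Prv1 B Q T U F P j L) (hga : Ga31 B Q T U F) :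
    LNum (msC 149 B Q T U F P a {L}) (jh B Q j L) (ow B Q j L) (hit B U L)
      (dv B Q L + 1).toNat (ee B Q L) L.card (nt B L 1) := by
  have hL := h.LP
  have hj := h.jt
  have hLF := s.toStg.leafF hL
  have hjT := (s.toStg.tl_sub hj).1
  obtain ⟨x, y, z, hxy, hxz, hyz, hT⟩ := card_eq_three.1 (s.frm.full hjT)
  have hR := s.toStg.trow hL hj hT hxy hxz hyz
  obtain ⟨hev, hdv, hd1⟩ := s.viol.even_dv s.frm hLF
  have h5 : ((dv B Q L + 1).toNat : ℤ) = dv B Q L + 1 := Int.toNat_of_nonneg (by omega)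
  have hsum : jh B Q j L = (Ez B L x).card + (Ez B L y).card + (Ez B L z).card := by
    unfold jh
    rw [hit_eq_Ez, hT, sum_insert (by simp [hxy, hxz]), sum_pair hyz]
    omega
  have hsix : L.card = 1 → jh B Q j L ≤ 6 := by
    intro h1
    obtain ⟨x, rfl⟩ := card_eq_one.1 h1
    exact s.mtr.toMTQ.point_six s.viol hjT hLF
      (Pool.Agent.Hyp6.free_own (s.frm.gdT (R := Rg B Q T U F)) s.part hL)
  constructor
  · rcases s.toStg.ms_priv hL h.aL h.oj h.kL h.nL with h1 | h1
    · exact Or.inl h1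
    · right
      rw [h5]
      exact h1
  · rcases s.toStg.score hL hj with h1 | ⟨he, h1⟩
    · left
      have h2 : (160 : ℤ) * (jh B Q j L : ℤ) ≤ 545 + 120 * ((dv B Q L + 1).toNat : ℤ) +
        5 * (ow B Q j L : ℤ) := by rw [h5]; exact h1
      exact_mod_cast h2
    · right
      refine ⟨he, ?_⟩
      rcases h1 with ⟨h1, h2, h3, h4⟩ | ⟨h1, h2, h3, h4⟩ | ⟨h1, h2, h3, h4, h6, h7⟩
      · exact Or.inl ⟨h1, h2, by omega, h4⟩
      · refine Or.inr (Or.inl ⟨h1, by omega, h3, ?_⟩)
        have := hsix h1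
        omega
      · exact Or.inr (Or.inr ⟨h1, h2, by omega, h6, h7⟩)
  · exact Nat.even_iff.1 hev
  · exact hR.W2
  · exact hR.W3
  · intro h1 h3
    by_cases hP : 1 ≤ (dv B Q L + 1).toNat
    · exact hR.W3 hP
    · have hP0 : (dv B Q L + 1).toNat = 0 := by omega
      have ha := hR.S0a
      have hb := hR.S0b
      have hc := hR.S0c
      rw [hP0] at ha hb hc
      have hW2 := hR.W2
      rw [hsum] at h1 h3
      show 3 ≤ hit B ((Q \ (B j ∩ Q)) \ L) L
      clear hsum hev hR
      have h1' : 1 ≤ (Ez B L x).card ∨ 1 ≤ (Ez B L y).card ∨ 1 ≤ (Ez B L z).card := by omega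
      rcases h1' with h1' | h1' | h1'
      · have := ha (by norm_num) h1'
        by_contra hcon
        have : 2 ≤ (Ez B L y).card ∨ 2 ≤ (Ez B L z).card := by omega
        rcases this with h4 | h4
        · have := hb (by norm_num) (by omega)
          omega
        · have := hc (by norm_num) (by omega)
          omega
      · have := hb (by norm_num) h1'
        by_contra hcon
        have : 2 ≤ (Ez B L x).card ∨ 2 ≤ (Ez B L z).card := by omega
        rcases this with h4 | h4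
        · have := ha (by norm_num) (by omega)
          omega
        · have := hc (by norm_num) (by omega)
          omega
      · have := hc (by norm_num) h1'
        by_contra hcon
        have : 2 ≤ (Ez B L x).card ∨ 2 ≤ (Ez B L y).card := by omega
        rcases this with h4 | h4
        · have := ha (by norm_num) (by omega)
          omega
        · have := hb (by norm_num) (by omega)
          omega
  · have h1 := s.viol.places s.frm hjT hLF
    unfold jh
    exact h1
  · exact hR.n1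
  · intro he hP
    obtain ⟨h1, h2⟩ := (s.toStg.small_leaf hLF he).1 hP
    obtain ⟨h3, h4, h6⟩ := hga L hLF h1 h2 (by omega) j hjT
    exact ⟨h1, h2, h3, h4, h6⟩
  · intro he hP
    have h1 := (s.toStg.small_leaf hLF he).2.1 hP
    exact ⟨h1, hsix h1⟩
  · intro he hP
    obtain ⟨h1, h2⟩ := (s.toStg.small_leaf hLF he).2.2.1 hP
    exact ⟨h1, h2, (s.toStg.le7_three hL hj he h1 hP).2⟩
  · intro he hP
    obtain ⟨h1, h2⟩ := (s.toStg.small_leaf hLF he).2.2.2 hP
    exact ⟨h1, h2, s.toStg.le8_five hL hj he h1 hP⟩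

/-- a point of the triple with a full hit on the leaf. -/
theorem exists_full (s : StgR B Q T U F P a) (hL : L ∈ F) (hj : j ∈ T)
    (h : 2 * nt B L 1 < jh B Q j L) : ∃ z ∈ B j ∩ Q, ∃ i, z ∈ B i ∧ (B i ∩ L).card = 2 := by
  by_contra hcon
  push Not at hcon
  have h1 := s.frm.sum_single_le hL (J := {j}) (singleton_subset_iff.2 hj) (by
    intro k hk i hi
    rw [mem_singleton] at hk
    subst hk
    obtain ⟨z, hz⟩ := hi
    obtain ⟨hz1, hz2⟩ := mem_inter.1 hz
    have h2 := hcon z hz2 i hz1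
    have hzL : z ∉ L := s.frm.T_notin hj hz2 hL
    have h3 : insert z (B i ∩ L) ⊆ B i ∩ Q :=
      insert_subset (mem_inter.2 ⟨hz1, (mem_inter.1 hz2).2⟩)
        (inter_subset_inter_left (s.frm.FQ hL))
    have h4 := card_le_card h3
    rw [card_insert_of_notMem (fun h5 => hzL (mem_inter.1 h5).2)] at h4
    have h5 := s.frm.reg3 i
    omega)
  rw [sum_singleton] at h1
  omega

/-- **full hits on both leaves**. -/
theorem ff_pair (s : StgR B Q T U F P a) (hL : {L} ∈ P) (hM : {M} ∈ P) (hne : L ≠ M) (hj : j ∈ T)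
    (h1 : 2 * nt B L 1 < jh B Q j L) (h2 : 2 * nt B M 1 < jh B Q j M) :
    jh B Q j L + jh B Q j M ≤ 4 + nt B L 1 + nt B M 1 := by
  have hLF := s.toStg.leafF hL
  have hMF := s.toStg.leafF hM
  have hns : ({L} : Finset (Finset V)) ≠ {M} := fun h => hne (singleton_injective h)
  obtain ⟨z, hz, i, hzi, hi⟩ := s.exists_full hLF hj h1
  obtain ⟨w, hw, k, hwk, hk⟩ := s.exists_full hMF hj h2
  have hH := s.toStg.free_two hL hM hns (mem_singleton_self L) (mem_singleton_self M)
  have hH' := s.toStg.free_two hM hL hns.symm (mem_singleton_self M) (mem_singleton_self L)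
  have hzw : w = z := by
    by_contra hne'
    have h3 := s.frm.weak_of_two hLF hMF hne hH hj hne' hw hz hzi hwk hi
      (card_pos.1 (by omega))
    have h4 : B k ∩ M ⊆ B k ∩ Dp B Q T := inter_subset_inter_left (s.frm.FD hMF)
    have h5 := card_le_card h4
    omega
  subst hzw
  obtain ⟨x, y, hT, hwx, hwy, hxy⟩ : ∃ x y, B j ∩ Q = {w, x, y} ∧ w ≠ x ∧ w ≠ y ∧ x ≠ y := by
    obtain ⟨y1, y2, y3, hT, hxy, hxz, hyz⟩ := s.frm.three_points hj
    rw [hT] at hw
    simp only [mem_insert, mem_singleton] at hw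
    rcases hw with rfl | rfl | rfl
    · exact ⟨y2, y3, hT, hxy, hxz, hyz⟩
    · refine ⟨y1, y3, ?_, hxy.symm, hyz, hxz⟩
      rw [hT]
      ext v
      simp only [mem_insert, mem_singleton]
      tauto
    · refine ⟨y1, y2, ?_, hxz.symm, hyz.symm, hxy⟩
      rw [hT]
      ext v
      simp only [mem_insert, mem_singleton]
      tauto
  have hT' : B j ∩ Q = {x, y, w} := by
    rw [hT]
    ext v
    simp only [mem_insert, mem_singleton]
    tauto
  have e1 := s.frm.ff_le hLF hMF hne hH hj hT' hwx.symm hwy.symm hzi hi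
  have e2 := s.frm.ff_le hMF hLF hne.symm hH' hj hT' hwx.symm hwy.symm hwk hk
  have e3 : ∀ N, jh B Q j N = uh B w N + hit B {x, y} N := by
    intro N
    rw [jh_sum, hT, sum_insert (by simp [hwx, hwy]), Frm.hit_U_sum]
  have e4 := s.hit_ncp hj hw
  have e5 : uh B w L + uh B w M ≤ ∑ N ∈ F, uh B w N := by
    have h3 : ({L, M} : Finset (Finset V)) ⊆ F := by
      intro N hN
      rw [mem_insert, mem_singleton] at hN
      rcases hN with rfl | rfl <;> assumption
    have h4 := sum_le_sum_of_subset (f := fun N => uh B w N) h3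
    rwa [sum_pair hne] at h4
  rw [e3 L, e3 M]
  omega

/-- **the mirror rule in numbers**: `v` is claimed, `p` sees no leaf except the small private leaf
`W`; then `t` has hits only on the single traces of `W`. -/
theorem one_hit (s : StgR B Q T U F P a) {k j0 i0 k0 : ι} {a0 b0 c0 x0 : V}
    (hk : k ∈ tl B Q T U F P) (h : Cla B Q T U F P j0 i0 k0 a0 b0 c0 x0) (hkj : k ≠ j0)
    {t p v : V} (hT : B k ∩ Q = {t, p, v}) (hpv : p ≠ v) (hv : v ∈ B k0) {W : Finset V}
    (hW : {W} ∈ P) (haW : aC B Q T U F P {W} = {k}) (hW3 : W.card ≤ 3)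
    (hp : slf B F p ⊆ {W}) : uh B t W ≤ nt B W 1 := by
  have hkT := (s.toStg.tl_sub hk).1
  have hWF := s.toStg.leafF hW
  have hWx : W ≠ {x0} := by
    rintro rfl
    have h1 := h.1.priv
    rw [haW] at h1
    exact hkj (singleton_injective h1)
  have h1 := s.frm.point_single_le hWF hkT (t := t) (by rw [hT]; simp) (fun i ht =>
    h.1.fpb.mirror_single s.mtr h.1.all hkT hkj hT hpv hv hWF hWx hW3
      (Pool.Agent.Hyp6.free_own (s.frm.gdT (R := Rg B Q T U F)) s.part hW) hp ht)
  omega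

/-- **the triples with claims**: a point without leaves and claims, or all claims at one point. -/
theorem don_cases (s : StgR B Q T U F P a) {k : ι} (hk : k ∈ tl B Q T U F P)
    (hc : 0 < ncl B Q T U F P k) :
    (∃ d ∈ B k ∩ Q, slf B F d = ∅ ∧ ncp B Q (Kf B Q T U F P) k d = 0 ∧
      ∑ L ∈ F, jh B Q k L + ncl B Q T U F P k ≤ 8) ∨
    ∃ p q v D, BT B Q F (par0 B U F) k p q v D ∧ (slf B F p).Nonempty ∧
      (∃ j i k0 a b c x, Cla B Q T U F P j i k0 a b c x ∧ k ≠ j ∧ v ∈ B k0) ∧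
      ∑ L ∈ F, uh B v L + ncl B Q T U F P k ≤ 4 := by
  have hkT := (s.toStg.tl_sub hk).1
  by_cases hdead : ∃ p ∈ B k ∩ Q, slf B F p = ∅
  · left
    obtain ⟨d, hd, h1, h2⟩ := s.dead_free hkT hdead (Or.inl (s.far_tl hk))
    exact ⟨d, hd, h1, h2, s.eight_cl hkT hdead (Or.inl hk)⟩
  right
  push Not at hdead
  rcases s.one_or_dead hkT hc with ⟨v, hv, h1, h2⟩ | ⟨r, hr, h1, _⟩
  swap
  · exact absurd h1 (hdead r hr).ne_empty
  have h3 : ∑ L ∈ F, uh B v L + ncl B Q T U F P k ≤ 4 := by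
    have := s.hit_ncp hkT hv
    omega
  obtain ⟨k0, hk0, hc0, hvk0⟩ := ncp_pos (B := B) (by omega :
    ncp B Q (Kf B Q T U F P) k v ≠ 0)
  obtain ⟨j, i, a, b, c, x, h⟩ := Kf_cla.1 hk0
  have hkj := h.1.claim_ne hc0
  obtain ⟨p, q, hT, hvp, hvq, hpq⟩ : ∃ b c, B k ∩ Q = {v, b, c} ∧ v ≠ b ∧ v ≠ c ∧ b ≠ c := by
    obtain ⟨y1, y2, y3, hT, hxy, hxz, hyz⟩ := s.frm.three_points hkT
    rw [hT] at hv
    simp only [mem_insert, mem_singleton] at hv
    rcases hv with rfl | rfl | rfl
    · exact ⟨y2, y3, hT, hxy, hxz, hyz⟩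
    · refine ⟨y1, y3, ?_, hxy.symm, hyz, hxz⟩
      rw [hT]
      ext v
      simp only [mem_insert, mem_singleton]
      tauto
    · refine ⟨y1, y2, ?_, hxz.symm, hyz.symm, hxy⟩
      rw [hT]
      ext v
      simp only [mem_insert, mem_singleton]
      tauto
  have hp : p ∈ B k ∩ Q := by rw [hT]; simp
  have hq : q ∈ B k ∩ Q := by rw [hT]; simp
  have hnx : ∀ w ∈ B k ∩ Q, ¬ slf B F w ⊆ {{x}} := by
    intro w hw h4
    obtain ⟨L, hL⟩ := hdead w hw
    exact h.1.not_sees_pt hk hkj hw ((mem_singleton.1 (h4 hL)) ▸ hL)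
  rcases h.1.fpb.donor s.frm.sur s.par (h.1.xpar s.toStg) hkT hkj hT hvp hvq hpq hvk0 with
    h4 | h4 | ⟨D, hD, h4, h5⟩
  · exact absurd h4 (hnx p hp)
  · exact absurd h4 (hnx q hq)
  have h6 : ∀ w, w ∈ B k ∩ Q → slf B F w ⊆ insert {x} D → slf B F w ⊆ D := by
    intro w hw h5 L hL
    rcases mem_insert.1 (h5 hL) with h6 | h6
    · exact (h.1.not_sees_pt hk hkj hw (h6 ▸ hL)).elim
    · exact h6
  have hnv : ¬ slf B F v ⊆ D := by
    intro h7
    have h8 := s.mcj_sub_one hD (k := k) (fun w hw => by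
      have hw' := hw
      rw [hT] at hw'
      simp only [mem_insert, mem_singleton] at hw'
      rcases hw' with rfl | rfl | rfl
      · exact h7
      · exact h6 _ hw h4
      · exact h6 _ hw h5)
    have h9 := (s.toStg.rank_tl hk).1
    omega
  refine ⟨p, q, v, D, ?_, hdead p hp, ⟨j, i, k0, a, b, c, x, h, hkj, hvk0⟩, h3⟩
  exact {
    eq := by
      rw [hT]
      ext w
      simp only [mem_insert, mem_singleton]
      tauto
    ab := hpq
    ac := hvp.symm
    bc := hvq.symm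
    nb := hdead q hq
    mem := hD
    sa := h6 p hp h4
    sb := h6 q hq h5
    nsc := hnv }

/-- a point of a line triple sees only the leaves of the line. -/
theorem sees_line (s : StgR B Q T U F P a) {k : ι} {C D : Finset (Finset V)}
    (hl : lj B Q U F P k = {C, D}) {p : V} (hp : p ∈ B k ∩ Q) : slf B F p ⊆ C ∪ D := by
  intro N hN
  have hNF := slf_sub hN
  obtain ⟨E, hE, hNE⟩ := exists_cls s.part hNF
  have h1 : E ∈ Sp.met P (slj B Q F k) :=
    Sp.mem_met.2 ⟨hE, not_disjoint_iff.2 ⟨N, mem_biUnion.2 ⟨p, hp, hN⟩, hNE⟩⟩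
  have h2 : E ∈ lj B Q U F P k := Sp.met_sub_lx h1
  rw [hl, mem_insert, mem_singleton] at h2
  rcases h2 with rfl | rfl
  · exact mem_union_left _ hNE
  · exact mem_union_right _ hNE

/-- the hits of a point on both leaves. -/
theorem uh_pair (s : StgR B Q T U F P a) (hL : L ∈ F) (hM : M ∈ F) (hne : L ≠ M) (v : V) :
    uh B v L + uh B v M ≤ ∑ N ∈ F, uh B v N := by
  have _ := s.viol
  have h3 : ({L, M} : Finset (Finset V)) ⊆ F := by
    intro N hN
    rw [mem_insert, mem_singleton] at hN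
    rcases hN with rfl | rfl <;> assumption
  have h4 := sum_le_sum_of_subset (f := fun N => uh B v N) h3
  rwa [sum_pair hne] at h4

/-- three points of a triple, the first one given. -/
theorem name_first (s : StgR B Q T U F P a) (hj : j ∈ T) {w : V} (hw : w ∈ B j ∩ Q) :
    ∃ x y, B j ∩ Q = {w, x, y} ∧ w ≠ x ∧ w ≠ y ∧ x ≠ y := by
  obtain ⟨y1, y2, y3, hT, hxy, hxz, hyz⟩ := s.frm.three_points hj
  rw [hT] at hw
  simp only [mem_insert, mem_singleton] at hw
  rcases hw with rfl | rfl | rfl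
  · exact ⟨y2, y3, hT, hxy, hxz, hyz⟩
  · refine ⟨y1, y3, ?_, hxy.symm, hyz, hxz⟩
    rw [hT]
    ext v
    simp only [mem_insert, mem_singleton]
    tauto
  · refine ⟨y1, y2, ?_, hxz.symm, hyz.symm, hxy⟩
    rw [hT]
    ext v
    simp only [mem_insert, mem_singleton]
    tauto

/-- the supply of the line in terms of the hits. -/
theorem rhs2 (s : StgR B Q T U F P a) (h : Prv2 B Q T U F P j L M) :
    8 * sT B Q T U F 15 j + tF B Q T U F P j - 1120 =
      200 - 16 * ((jh B Q j L : ℤ) + jh B Q j M) + tF B Q T U F P j := by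
  have h1 := s.toStg.sT_uj h.l.jt
  have h2 := s.toStg.jC_pair h.l.jt (fun he => h.ne (singleton_injective he)) h.lj
  rw [s.toStg.jC_one, s.toStg.jC_one] at h2
  linarith

theorem le12 (s : StgR B Q T U F P a) (h : Prv2 B Q T U F P j L M) :
    jh B Q j L + jh B Q j M ≤ 12 := by
  have h2 := s.toStg.jC_pair h.l.jt (fun he => h.ne (singleton_injective he)) h.lj
  rw [s.toStg.jC_one, s.toStg.jC_one] at h2
  have h3 := s.toStg.uj_nonneg (s.toStg.tl_sub h.l.jt).1
  omega

/-- **a triple with claims and a point without leaves, two leaves with three points and one single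
trace**. -/
theorem don_I (s : StgR B Q T U F P a) (h : Prv2 B Q T U F P j L M)
    (hc : 0 < ncl B Q T U F P j) {d : V} (hd : d ∈ B j ∩ Q) (hdd : slf B F d = ∅)
    (hdc : ncp B Q (Kf B Q T U F P) j d = 0) (hL3 : L.card ≤ 3) (hM3 : M.card ≤ 3)
    (nL : nt B L 1 = 1) (nM : nt B M 1 = 1) :
    jh B Q j L + jh B Q j M + ncl B Q T U F P j ≤ 6 ∨ jh B Q j L + jh B Q j M ≤ 4 := by
  have hj := h.l.jt
  have hjT := (s.toStg.tl_sub hj).1
  have hLF := s.toStg.leafF h.l.LP
  have hMF := s.toStg.leafF h.m.LP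
  obtain ⟨y, z, hT, hdy, hdz, hyz⟩ := s.name_first hjT hd
  have hy : y ∈ B j ∩ Q := by rw [hT]; simp
  have hz : z ∈ B j ∩ Q := by rw [hT]; simp
  have e1 : ∀ N, jh B Q j N = uh B d N + uh B y N + uh B z N := by
    intro N
    rw [jh_sum, hT, sum_insert (by simp [hdy, hdz]), sum_pair hyz, add_assoc]
  have e2 : ∀ N ∈ F, uh B d N = 0 := by
    intro N hN
    refine uh_zero hN (s.frm.T_notin hjT hd hN) ?_
    rw [hdd]
    exact notMem_empty _
  have e3 : ncl B Q T U F P j = ncp B Q (Kf B Q T U F P) j d +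
      ncp B Q (Kf B Q T U F P) j y + ncp B Q (Kf B Q T U F P) j z := by
    have h1 : ncl B Q T U F P j = ∑ v ∈ B j ∩ Q, ncp B Q (Kf B Q T U F P) j v := ncK_eq _ _ _
    rw [h1, hT, sum_insert (by simp [hdy, hdz]), sum_pair hyz, add_assoc]
  have one : ∀ {t v : V}, B j ∩ Q = {t, d, v} → d ≠ v →
      ncp B Q (Kf B Q T U F P) j v ≠ 0 → uh B t L ≤ 1 ∧ uh B t M ≤ 1 := by
    intro t v hT' hdv hcv
    obtain ⟨k0, hk0, hc0, hvk0⟩ := ncp_pos hcv
    obtain ⟨j0, i0, a0, b0, c0, x0, h0⟩ := Kf_cla.1 hk0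
    have hkj := h0.1.claim_ne hc0
    have k1 := s.one_hit hj h0 hkj hT' hdv hvk0 h.l.LP h.l.aL hL3 (by
      rw [hdd]; exact empty_subset _)
    have k2 := s.one_hit hj h0 hkj hT' hdv hvk0 h.m.LP h.m.aL hM3 (by
      rw [hdd]; exact empty_subset _)
    omega
  have hTy : B j ∩ Q = {z, d, y} := by
    rw [hT]
    ext v
    simp only [mem_insert, mem_singleton]
    tauto
  have hTz : B j ∩ Q = {y, d, z} := by
    rw [hT]
    ext v
    simp only [mem_insert, mem_singleton]
    tauto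
  have f1 := s.hit_ncp hjT hy
  have f2 := s.hit_ncp hjT hz
  have f3 := s.uh_pair hLF hMF h.ne y
  have f4 := s.uh_pair hLF hMF h.ne z
  rw [e1 L, e1 M, e2 L hLF, e2 M hMF]
  by_cases h1 : ncp B Q (Kf B Q T U F P) j y = 0
  · have h2 : ncp B Q (Kf B Q T U F P) j z ≠ 0 := by omega
    obtain ⟨g1, g2⟩ := one hTz hdz h2
    left
    omega
  · obtain ⟨g1, g2⟩ := one hTy hdy h1
    by_cases h2 : ncp B Q (Kf B Q T U F P) j z = 0
    · left
      omega
    · obtain ⟨g3, g4⟩ := one hTz hdz h2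
      right
      omega

/-- **a triple with all claims at the point `v`, the other two points see only the leaf `L`**. -/
theorem don_II (s : StgR B Q T U F P a) (h : Prv2 B Q T U F P j L M) (hga : Ga31 B Q T U F)
    (hc : 0 < ncl B Q T U F P j) {p q v : V} (hB : BT B Q F (par0 B U F) j p q v {L})
    {j0 i0 k0 : ι} {a0 b0 c0 x0 : V} (h0 : Cla B Q T U F P j0 i0 k0 a0 b0 c0 x0) (hj0 : j ≠ j0)
    (hv0 : v ∈ B k0) (hv4 : ∑ N ∈ F, uh B v N + ncl B Q T U F P j ≤ 4) :
    msC 149 B Q T U F P a {L} + msC 149 B Q T U F P a {M} ≤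
      8 * sT B Q T U F 15 j + tF B Q T U F P j - 1120 ∨
    (ncl B Q T U F P j = 1 ∧ L.card = 1 ∧ ee B Q L = 0 ∧ dv B Q L = 1 ∧ dv B Q M = -1 ∧
      jh B Q j L + jh B Q j M = 8 ∧ jh B Q j L ≤ 6 ∧ uh B v M = jh B Q j M ∧ 2 ≤ jh B Q j M ∧
      jh B Q j M ≤ 3 ∧ ow B Q j L + ow B Q j M ≤ 7 ∧ hit B U L = 0 ∧ hit B U M = 0) := by
  have hj := h.l.jt
  have hjT := (s.toStg.tl_sub hj).1
  have hLF := s.toStg.leafF h.l.LP
  have hMF := s.toStg.leafF h.m.LP
  have hpT : p ∈ B j ∩ Q := by rw [hB.eq]; simp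
  have hqT : q ∈ B j ∩ Q := by rw [hB.eq]; simp
  have hvT : v ∈ B j ∩ Q := by rw [hB.eq]; simp
  have e1 : ∀ N, jh B Q j N = uh B p N + uh B q N + uh B v N := by
    intro N
    rw [jh_sum, hB.eq, sum_insert (by simp [hB.ab, hB.ac]), sum_pair hB.bc, add_assoc]
  have e2 : uh B p M = 0 := uh_zero hMF (s.frm.T_notin hjT hpT hMF)
    fun h1 => h.ne (mem_singleton.1 (hB.sa h1)).symm
  have e3 : uh B q M = 0 := uh_zero hMF (s.frm.T_notin hjT hqT hMF)
    fun h1 => h.ne (mem_singleton.1 (hB.sb h1)).symm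
  have f3 := s.uh_pair hLF hMF h.ne v
  have f5 : uh B p L ≤ 4 := (single_le_sum (f := fun N => uh B p N)
    (fun _ _ => Nat.zero_le _) hLF).trans (by have := s.hit_ncp hjT hpT; omega)
  have f6 : uh B q L ≤ 4 := (single_le_sum (f := fun N => uh B q N)
    (fun _ _ => Nat.zero_le _) hLF).trans (by have := s.hit_ncp hjT hqT; omega)
  -- the names
  have hT1 : B j ∩ Q = {v, p, q} := by
    rw [hB.eq]
    ext w
    simp only [mem_insert, mem_singleton]
    tauto
  have hT2 : B j ∩ Q = {q, p, v} := by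
    rw [hB.eq]
    ext w
    simp only [mem_insert, mem_singleton]
    tauto
  have hR := s.toStg.trow h.l.LP hj hT1 hB.ac.symm hB.bc.symm hB.ab
  have hLx : L ≠ {x0} := by
    rintro rfl
    have h1 := h0.1.priv
    rw [h.l.aL] at h1
    exact hj0 (singleton_injective h1)
  have hab : ¬ Abz B L {p, q} := fun h1 =>
    h0.1.fpb.no_abs hjT hj0 hT1 hv0 hLF hLx h1.rho_le'
  have huh : ∀ w, (Ez B L w).card = uh B w L := by
    intro w
    unfold uh
    rw [hit_eq_Ez, sum_singleton]
  have hr := hR.ra hab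
  rw [huh, huh] at hr
  have nL := s.lnum h.l hga
  have nM := s.lnum h.m hga
  have hs : L.card = 3 → uh B p L ≤ nt B L 1 ∧ uh B q L ≤ nt B L 1 := fun h3 =>
    ⟨s.one_hit hj h0 hj0 hB.eq hB.bc hv0 h.l.LP h.l.aL h3.le hB.sb,
      s.one_hit hj h0 hj0 hT2 hB.ac hv0 h.l.LP h.l.aL h3.le hB.sa⟩
  have key := LNum.pairII nL nM (c := ncl B Q T U F P j) (a := uh B p L) (b := uh B q L)
    (w := uh B v L) (by omega) (t := tF B Q T U F P j) (Stg.tF_ge j) (e1 L)
    (by rw [e1 M, e2, e3]; omega) f5 f6 hr hs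
  rw [s.rhs2 h]
  rcases key with key | ⟨k1, k2, k3, k4, k5, k6, k7, k8, k9, k10, k11, k12⟩
  · exact Or.inl key
  · right
    have d1 := (s.viol.even_dv s.frm hLF).2.2
    have d2 := (s.viol.even_dv s.frm hMF).2.2
    refine ⟨k1, k4, k2, by omega, by omega, k6, k7, ?_, k8, k9, k10, k11, k12⟩
    rw [e1 M, e2, e3]
    omega


/-- the rows of two private points. -/
def R2A (B : ι → Finset V) (Q : Finset V) (U : Finset V) (j : ι) (L M : Finset V) : Prop :=
  L.card = 1 ∧ M.card = 1 ∧ ee B Q L = 0 ∧ ee B Q M = 0 ∧ dv B Q L = 1 ∧ dv B Q M = 1 ∧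
    jh B Q j L = 5 ∧ jh B Q j M = 5 ∧ hit B U L = 0 ∧ hit B U M = 0 ∧ ow B Q j L + ow B Q j M ≤ 7

/-- the rows of a private point with five hits and a leaf with three points and four hits. -/
def R2C (B : ι → Finset V) (Q : Finset V) (U : Finset V) (j : ι) (L M : Finset V) : Prop :=
  L.card = 1 ∧ M.card = 3 ∧ nt B M 1 = 1 ∧ ee B Q L = 0 ∧ ee B Q M = 0 ∧ dv B Q L = 1 ∧
    dv B Q M = -1 ∧ jh B Q j L = 5 ∧ jh B Q j M = 4 ∧ hit B U L = 0 ∧ hit B U M = 0 ∧
    ow B Q j M = 5

/-- the rows of a private point with six hits. -/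
def R2P (B : ι → Finset V) (Q : Finset V) (j : ι) (L M : Finset V) : Prop :=
  L.card = 1 ∧ ee B Q L = 0 ∧ dv B Q L = 1 ∧ jh B Q j L = 6 ∧ 3 ≤ jh B Q j M

/-- the rows of a private leaf with three points, three single traces and seven hits. -/
def R2S (B : ι → Finset V) (Q : Finset V) (U : Finset V) (j : ι) (L : Finset V) : Prop :=
  L.card = 3 ∧ nt B L 1 = 3 ∧ ee B Q L = 0 ∧ dv B Q L = 3 ∧ jh B Q j L = 7 ∧ hit B U L = 0

/-- the rows with one claim. -/
def R2D (B : ι → Finset V) (Q : Finset V) (T : Finset ι) (U : Finset V)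
    (F : Finset (Finset V)) (P : Finset (Finset (Finset V))) (j : ι) (L M : Finset V)
    (p q v : V) : Prop :=
  ncl B Q T U F P j = 1 ∧ L.card = 1 ∧ ee B Q L = 0 ∧ dv B Q L = 1 ∧ dv B Q M = -1 ∧
    jh B Q j L + jh B Q j M = 8 ∧ jh B Q j L ≤ 6 ∧ uh B v M = jh B Q j M ∧ 2 ≤ jh B Q j M ∧
    jh B Q j M ≤ 3 ∧ ow B Q j L + ow B Q j M ≤ 7 ∧ hit B U L = 0 ∧ hit B U M = 0 ∧
    BT B Q F (par0 B U F) j p q v {L} ∧
    ∃ (j0 i0 k0 : ι) (a0 b0 c0 x0 : V), Cla B Q T U F P j0 i0 k0 a0 b0 c0 x0 ∧ j ≠ j0 ∧ v ∈ B k0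

/-- **the line with two private single leaves**: the needs are paid, if they are paid in the rows `R2C`,
`R2P`, `R2D` and the rows `R2A`, `R2S` do not exist. -/
theorem l2_pay (s : StgR B Q T U F P a) (h : Prv2 B Q T U F P j L M) (hga : Ga31 B Q T U F)
    (HA : ∀ L M, Prv2 B Q T U F P j L M → ncl B Q T U F P j = 0 → R2A B Q U j L M → False)
    (HC : ∀ L M, Prv2 B Q T U F P j L M → ncl B Q T U F P j = 0 → R2C B Q U j L M →
      msC 149 B Q T U F P a {L} + msC 149 B Q T U F P a {M} ≤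
        8 * sT B Q T U F 15 j + tF B Q T U F P j - 1120)
    (HP : ∀ L M, Prv2 B Q T U F P j L M → ncl B Q T U F P j = 0 → R2P B Q j L M →
      msC 149 B Q T U F P a {L} + msC 149 B Q T U F P a {M} ≤
        8 * sT B Q T U F 15 j + tF B Q T U F P j - 1120)
    (HS : ∀ L, Prv1 B Q T U F P j L → ncl B Q T U F P j = 0 → R2S B Q U j L → False)
    (HD : ∀ L M p q v, Prv2 B Q T U F P j L M → R2D B Q T U F P j L M p q v →
      msC 149 B Q T U F P a {L} + msC 149 B Q T U F P a {M} ≤
        8 * sT B Q T U F 15 j + tF B Q T U F P j - 1120) :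
    msC 149 B Q T U F P a {L} + msC 149 B Q T U F P a {M} ≤
      8 * sT B Q T U F 15 j + tF B Q T U F P j - 1120 := by
  have hj := h.l.jt
  have hjT := (s.toStg.tl_sub hj).1
  have hLF := s.toStg.leafF h.l.LP
  have hMF := s.toStg.leafF h.m.LP
  have nL := s.lnum h.l hga
  have nM := s.lnum h.m hga
  have d1 := (s.viol.even_dv s.frm hLF).2.2
  have d2 := (s.viol.even_dv s.frm hMF).2.2
  have h12 := s.le12 h
  rcases Nat.eq_zero_or_pos (ncl B Q T U F P j) with hc | hc
  · -- no claims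
    have ht : 0 ≤ tF B Q T U F P j := by
      have h3 := Stg.tF_ge (B := B) (Q := Q) (T := T) (U := U) (F := F) (P := P) j
      rw [hc] at h3
      simpa using h3
    have key := LNum.pair0 nL nM h12 ht (fun _ _ h3 h4 =>
      s.ff_pair h.l.LP h.m.LP h.ne hjT h3 h4)
    rcases key with key | key | key | key | key
    · rw [s.rhs2 h]
      exact key
    · obtain ⟨k1, k2, k3, k4, k5, k6, k7, k8, k9, k10, k11⟩ := key
      exact (HA L M h hc ⟨k5, k6, k1, k2, by omega, by omega, k7, k8, k9, k10, k11⟩).elim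
    · obtain ⟨k1, k2, k3, k4, k5⟩ := key
      rcases k3 with ⟨m1, m2, m3, m4, m5, m6, m7⟩ | ⟨m1, m2, m3, m4, m5, m6, m7⟩
      · refine HC L M h hc ⟨m3, m4, ?_, k1, k2, by omega, by omega, m5, m6, k4, k5, m7⟩
        exact ((s.toStg.small_leaf hMF k2).1 m2).2
      · rw [add_comm]
        refine HC M L h.symm hc ⟨m4, m3, ?_, k2, k1, by omega, by omega, m6, m5, k5, k4, m7⟩
        exact ((s.toStg.small_leaf hLF k1).1 m1).2
    · rcases key with ⟨k1, k2, k3, k4, k5⟩ | ⟨k1, k2, k3, k4, k5⟩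
      · exact HP L M h hc ⟨k3, k1, by omega, k4, k5⟩
      · rw [add_comm]
        exact HP M L h.symm hc ⟨k3, k1, by omega, k4, k5⟩
    · rcases key with ⟨k1, k2, k3, k4, k5, k6⟩ | ⟨k1, k2, k3, k4, k5, k6⟩
      · exact (HS L h.l hc ⟨k3, k4, k1, by omega, k5, k6⟩).elim
      · exact (HS M h.m hc ⟨k3, k4, k1, by omega, k5, k6⟩).elim
  · -- claims
    rcases s.don_cases hj hc with ⟨d, hd, hdd, hdc, h8⟩ |
      ⟨p, q, v, D, hB, hp, ⟨j0, i0, k0, a0, b0, c0, x0, h0, hj0, hv0⟩, hv4⟩
    · rw [s.rhs2 h]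
      have h3 : jh B Q j L + jh B Q j M ≤ ∑ N ∈ F, jh B Q j N := by
        have h5 : ({L, M} : Finset (Finset V)) ⊆ F := by
          intro N hN
          rw [mem_insert, mem_singleton] at hN
          rcases hN with rfl | rfl <;> assumption
        have h4 := sum_le_sum_of_subset (f := fun N => jh B Q j N) h5
        rwa [sum_pair h.ne] at h4
      refine LNum.pairI nL nM (c := ncl B Q T U F P j) hc (by omega) (Stg.tF_ge j) ?_
      intro he he' hP hP'
      obtain ⟨k1, k2⟩ := (s.toStg.small_leaf hLF he).1 hP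
      obtain ⟨k3, k4⟩ := (s.toStg.small_leaf hMF he').1 hP'
      exact s.don_I h hc hd hdd hdc k1.le k3.le k2 k4
    · -- the parallel class of `p`, `q` is one of the two leaves
      have hpT : p ∈ B j ∩ Q := by rw [hB.eq]; simp
      obtain ⟨N, hN⟩ := hp
      have hNl := s.sees_line h.lj hpT hN
      obtain ⟨C', hC', hDC'⟩ := s.toStg.sub_class hB.mem
      have hNC' := hDC' (hB.sa hN)
      have key : ∀ {L M : Finset V}, Prv2 B Q T U F P j L M → N = L →
          msC 149 B Q T U F P a {L} + msC 149 B Q T U F P a {M} ≤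
            8 * sT B Q T U F 15 j + tF B Q T U F P j - 1120 := by
        intro L M h hNL
        subst hNL
        have h1 : C' = {N} := by
          by_contra hne
          exact disjoint_left.1 (s.part.ptn.dj C' hC' {N} h.l.LP hne) hNC' (mem_singleton_self N)
        rw [h1] at hDC'
        have h2 : D = {N} := by
          refine Subset.antisymm hDC' (singleton_subset_iff.2 (hB.sa hN))
        subst h2
        rcases s.don_II h hga hc hB h0 hj0 hv0 hv4 with h3 | h3
        · exact h3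
        · obtain ⟨k1, k2, k3, k4, k5, k6, k7, k8, k9, k10, k11, k12, k13⟩ := h3
          exact HD N M p q v h ⟨k1, k2, k3, k4, k5, k6, k7, k8, k9, k10, k11, k12, k13, hB,
            j0, i0, k0, a0, b0, c0, x0, h0, hj0, hv0⟩
      rw [mem_union, mem_singleton, mem_singleton] at hNl
      rcases hNl with hNl | hNl
      · exact key h hNl
      · rw [add_comm]
        exact key h.symm hNl

end StgR

end Pool.Agent.Hyp6
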