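import Pool.Agent.Hyp6.L3L2b
import Pool.Agent.Hyp6.Gda

/-!
# HYP6 L3L2g: the facts on the leaves with three points and one single trace
-/

set_option autoImplicit false

namespace Pool.Agent.Hyp6

open Finset Pool.Agent.Hyp5 Rt

universe u v

variable {V : Type v} [DecidableEq V] {ι : Type u} [Fintype ι] [DecidableEq ι]
  {B : ι → Finset V} {Q U : Finset V} {T : Finset ι} {F : Finset (Finset V)}

/-- the facts on the leaves with three points and one single trace. -/
theorem Frm.ga31 (h : Frm B Q T U F) (hv : ViolR B Q) : Ga31 B Q T U F := by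
  intro L hL h3 h1 hd j hj
  refine ⟨h.gda5 hv hL h3 h1 hd hj, fun hg => h.gda hv hL h3 h1 hd hg hj, fun hg h4 => ?_⟩
  have h5 := (h.gda4' hv hL h3 h1 hd hg hj h4).2.1
  have h6 : (Q \ (B j ∩ Q)) \ L = (Q \ L) \ B j := by
    ext v
    simp only [mem_sdiff, mem_inter]
    tauto
  show hit B ((Q \ (B j ∩ Q)) \ L) L = 5
  rw [h6]
  exact h5

end Pool.Agent.Hyp6
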