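import Pool.Agent.Hyp6.L3L2b
import Pool.Agent.Hyp6.L3Tf

/-!
# HYP6 L3L2m: private ends which are not single leaves

`pmC`: the bound for the need of a private end which is not a single leaf without inside triples.
`StgR.rest_pmC`: the payment at the other end. `StgR.RG_of`: the hypothesis `RG` of the last step.
`StgR.L2_of`: the hypothesis `L2` of the last step.
-/

set_option autoImplicit false

namespace Pool.Agent.Hyp6

open Finset Pool.Agent.Hyp5 Rt

universe u v

/-- what a private end with `n` hits of its line triple may need, if it is not a single leaf. -/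
def pmC (n : ℕ) : ℤ := if n = 10 then 105 else if 11 ≤ n then 169 else pm n

theorem pm_le_pmC (n : ℕ) : pm n ≤ pmC n := by
  unfold pmC pm
  split_ifs <;> omega

/-- the values of `pmC`. -/
theorem pmC_hits {m : ℕ} (hm : 1 ≤ m) :
    (m = 1 ∧ pmC m = -161) ∨ (m = 2 ∧ pmC m = -97) ∨ (m = 3 ∧ pmC m = -33) ∨
    (m = 4 ∧ pmC m = -44) ∨ (5 ≤ m ∧ m ≤ 8 ∧ pmC m + 16 * (m : ℤ) = 95) ∨ (m = 9 ∧ pmC m = 31) ∨
    (m = 10 ∧ pmC m = 105) ∨ (11 ≤ m ∧ pmC m = 169) := by
  by_cases h : m ≤ 10
  · interval_cases m <;> simp [pmC, pm]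
  · have h1 : pmC m = 169 := by
      unfold pmC
      rw [if_neg (by omega), if_pos (by omega)]
    rw [h1]
    omega

/-- two ends with needs at most `pmC`. -/
theorem pmC_pair {mC mD t : ℤ} {n m c : ℕ} (hC : mC ≤ pmC n) (hD : mD ≤ pmC m)
    (ht : -80 * (c : ℤ) ≤ t) (hn : 1 ≤ n) (hm : 1 ≤ m) (hs : n + m + c ≤ 12)
    (hc : 1 ≤ c → n + m + c ≤ 8 ∨ m + c ≤ 4 ∨ n + c ≤ 4) :
    mC + mD ≤ 8 + 16 * (12 - (n : ℤ) - m) + t := by
  have h1 := pmC_hits hn
  have h2 := pmC_hits hm
  rcases Nat.eq_zero_or_pos c with rfl | hc0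
  · clear hc
    rcases h1 with h | h | h | h | h | h | h | h <;>
      rcases h2 with h' | h' | h' | h' | h' | h' | h' | h' <;> omega
  · have h3 := hc hc0
    clear hc
    rcases h3 with h3 | h3 | h3 <;> rcases h1 with h | h | h | h | h | h | h | h <;>
      rcases h2 with h' | h' | h' | h' | h' | h' | h' | h' <;> omega

/-- the payment at the other end. -/
theorem pay_pmC {c t n : ℕ} {ms tf : ℤ} (h1 : ms ≤ pmC t)
    (ht : 1 ≤ t) (hn : 1 ≤ n) (hs : t + n + c ≤ 12) (htf : -80 * (c : ℤ) ≤ tf)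
    (hc : 1 ≤ c → t + n + c ≤ 8 ∨ n + c ≤ 4 ∨ t + c ≤ 4) :
    payT c t n ≤ 8 + 16 * (12 - (t : ℤ) - n) + tf - ms := by
  by_cases h9 : t ≤ 9
  · refine pay_fB (h1.trans ?_) ht hn hs htf hc
    have h2 : pmC t = pm t := by
      unfold pmC
      rw [if_neg (by omega), if_neg (by omega)]
    rw [h2]
    exact pm_le_fB t
  · have h2 := pmC_hits ht
    have h3 : payT c t n = if n ≤ 1 then -161 else -97 := by
      unfold payT payE
      rw [if_neg (by omega)]
      split_ifs <;> omega
    rw [h3]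
    have h4 : ms ≤ 105 ∧ t = 10 ∨ ms ≤ 169 ∧ t = 11 := by omega
    clear h1 h2 h3 hc
    split_ifs <;> rcases h4 with ⟨h4, rfl⟩ | ⟨h4, rfl⟩ <;> omega

variable {V : Type v} [DecidableEq V] {ι : Type u} [Fintype ι] [DecidableEq ι]
  {B : ι → Finset V}

namespace StgR

variable {Q U : Finset V} {T : Finset ι} {F : Finset (Finset V)}
  {P : Finset (Finset (Finset V))} {a : V → Finset (Finset V) → ℕ} {j : ι}

/-- **a private end with need at most `pmC`**: the payment at the other end. -/
theorem rest_pmC (s : StgR B Q T U F P a) (hj : j ∈ tl B Q T U F P)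
    {C D : Finset (Finset V)} (hCD : C ≠ D) (hl : lj B Q U F P j = {C, D})
    (hn : ndF B Q T U F P a D ≤ pmC (jC B Q j D)) :
    payT (ncl B Q T U F P j) (jC B Q j D) (jC B Q j C) ≤
      8 * sT B Q T U F 15 j + tF B Q T U F P j - 1120 - ndF B Q T U F P a D := by
  have hl' : lj B Q U F P j = {D, C} := by rw [hl, pair_comm]
  obtain ⟨h1, h2⟩ := s.toStg.jC_two hj hCD.symm hl'
  rw [s.rest_eq hj hCD.symm hl']
  exact pay_pmC hn h1 h2 (s.pair_ncl hj hCD.symm hl') (Stg.tF_ge j) (s.hc3 hj hCD.symm hl')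

/-- **the hypothesis `RG` of the last step** from the payments of the private single leaves and the bound
`pmC` for the other private ends. -/
theorem RG_of (s : StgR B Q T U F P a)
    (RS : ∀ j ∈ tl B Q T U F P, ∀ C L, C ≠ {L} → lj B Q U F P j = {C, {L}} →
      aC B Q T U F P {L} = {j} → ¬ Ful B Q T U F P a {L} → KC B Q T U F {L} = ∅ →
      payT (ncl B Q T U F P j) (jC B Q j {L}) (jC B Q j C) ≤
        8 * sT B Q T U F 15 j + tF B Q T U F P j - 1120 - ndF B Q T U F P a {L})
    (PC : ∀ j ∈ tl B Q T U F P, ∀ C D, C ≠ D → lj B Q U F P j = {C, D} →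
      aC B Q T U F P D = {j} → ¬ Ful B Q T U F P a D → (KC B Q T U F D = ∅ → 2 ≤ D.card) →
      ndF B Q T U F P a D ≤ pmC (jC B Q j D)) :
    ∀ j ∈ tl B Q T U F P, ∀ C D, C ≠ D → lj B Q U F P j = {C, D} →
      (aC B Q T U F P D).card = 1 → ¬ Ful B Q T U F P a D →
      payT (ncl B Q T U F P j) (jC B Q j D) (jC B Q j C) ≤
        8 * sT B Q T U F 15 j + tF B Q T U F P j - 1120 - ndF B Q T U F P a D := by
  intro j hj C D hCD hl h1 hF
  have hDl : D ∈ lj B Q U F P j := by rw [hl]; simp
  have hja : j ∈ aC B Q T U F P D := Sp.mem_atl.2 ⟨hj, hDl⟩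
  have haD : aC B Q T U F P D = {j} := by
    obtain ⟨i, hi⟩ := card_eq_one.1 h1
    rw [hi] at hja ⊢
    rw [mem_singleton.1 hja]
  by_cases h2 : KC B Q T U F D = ∅ ∧ D.card = 1
  · obtain ⟨h3, h4⟩ := h2
    obtain ⟨L, rfl⟩ := card_eq_one.1 h4
    exact RS j hj C L hCD hl haD hF h3
  · refine s.rest_pmC hj hCD hl (PC j hj C D hCD hl haD hF fun h3 => ?_)
    have h4 : D.card ≠ 1 := fun h5 => h2 ⟨h3, h5⟩
    have h5 : D ∈ P := s.lnf.sub j hj hDl
    have h6 : D.Nonempty := by
      have h7 : 0 < jC B Q j D := (s.toStg.jC_two hj hCD hl).2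
      by_contra h8
      rw [not_nonempty_iff_eq_empty.1 h8] at h7
      simp [jC] at h7
    have := card_pos.2 h6
    omega

/-- **the hypothesis `L2` of the last step**. -/
theorem L2_of (s : StgR B Q T U F P a) (hga : Ga31 B Q T U F)
    (RG : ∀ j ∈ tl B Q T U F P, ∀ C D, C ≠ D → lj B Q U F P j = {C, D} →
      (aC B Q T U F P D).card = 1 → ¬ Ful B Q T U F P a D →
      payT (ncl B Q T U F P j) (jC B Q j D) (jC B Q j C) ≤
        8 * sT B Q T U F 15 j + tF B Q T U F P j - 1120 - ndF B Q T U F P a D)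
    (PC : ∀ j ∈ tl B Q T U F P, ∀ C D, C ≠ D → lj B Q U F P j = {C, D} →
      aC B Q T U F P D = {j} → ¬ Ful B Q T U F P a D → (KC B Q T U F D = ∅ → 2 ≤ D.card) →
      ndF B Q T U F P a D ≤ pmC (jC B Q j D))
    (L2S : ∀ j ∈ tl B Q T U F P, ∀ C D, C ≠ D → lj B Q U F P j = {C, D} →
      aC B Q T U F P C = {j} → aC B Q T U F P D = {j} →
      KC B Q T U F C = ∅ → KC B Q T U F D = ∅ → NCt B Q T U F P C → NCt B Q T U F P D →
      C.card = 1 → D.card = 1 →
      ndF B Q T U F P a C + ndF B Q T U F P a D ≤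
        8 * sT B Q T U F 15 j + tF B Q T U F P j - 1120) :
    ∀ j ∈ tl B Q T U F P, ∀ C D, C ≠ D → lj B Q U F P j = {C, D} →
      aC B Q T U F P C = {j} → aC B Q T U F P D = {j} →
      ¬ Ful B Q T U F P a C → ¬ Ful B Q T U F P a D →
      (KC B Q T U F C = ∅ → NCt B Q T U F P C ∨ 2 ≤ C.card) →
      (KC B Q T U F D = ∅ → NCt B Q T U F P D ∨ 2 ≤ D.card) →
      ndF B Q T U F P a C + ndF B Q T U F P a D ≤
        8 * sT B Q T U F 15 j + tF B Q T U F P j - 1120 := by
  -- one end is not a single leaf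
  have key : ∀ j ∈ tl B Q T U F P, ∀ C D, C ≠ D → lj B Q U F P j = {C, D} →
      aC B Q T U F P C = {j} → aC B Q T U F P D = {j} →
      ¬ Ful B Q T U F P a C → ¬ Ful B Q T U F P a D →
      (KC B Q T U F C = ∅ → NCt B Q T U F P C ∨ 2 ≤ C.card) →
      (KC B Q T U F D = ∅ → 2 ≤ D.card) →
      ndF B Q T U F P a C + ndF B Q T U F P a D ≤
        8 * sT B Q T U F 15 j + tF B Q T U F P j - 1120 := by
    intro j hj C D hCD hl hC hD fC fD kC kD
    have hl' : lj B Q U F P j = {D, C} := by rw [hl, pair_comm]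
    have hnD := PC j hj C D hCD hl hD fD kD
    obtain ⟨h1, h2⟩ := s.toStg.jC_two hj hCD hl
    have h3 := s.pair_ncl hj hCD hl
    have h4 := s.hc3 hj hCD hl
    have h5 := Stg.tF_ge (B := B) (Q := Q) (T := T) (U := U) (F := F) (P := P) j
    have hre := s.rest_eq hj hCD hl
    by_cases hCs : KC B Q T U F C = ∅ ∧ C.card < 2
    · obtain ⟨hk, hc⟩ := hCs
      have hN := (kC hk).resolve_right (by omega)
      by_cases h9 : jC B Q j D ≤ 9
      · have h6 := RG j hj D C hCD.symm hl' (by rw [hC]; rfl) fC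
        have h7 : pmC (jC B Q j D) = pm (jC B Q j D) := by
          unfold pmC
          rw [if_neg (by omega), if_neg (by omega)]
        have h8 := (pm_le_payE (ncl B Q T U F P j) (jC B Q j D)).trans
          (payE_le_payT (ncl B Q T U F P j) (jC B Q j C) (jC B Q j D))
        rw [h7] at hnD
        linarith
      · have hCne : C.card = 1 := by
          have h6 : C.Nonempty := by
            by_contra h8
            rw [not_nonempty_iff_eq_empty.1 h8] at h1
            simp [jC] at h1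
          have := card_pos.2 h6
          omega
        obtain ⟨L, rfl, hp⟩ := s.prv1_of hj hCD hl hC hk hN hCne
        have nL := s.lnum hp hga
        have hms := nL.ms1
        have hW := nL.W2
        have hnd : ndF B Q T U F P a {L} = msC 149 B Q T U F P a {L} := by
          rw [ndF, s.toStg.ndC_eq hk]
        have hjL : jC B Q j {L} = jh B Q j L := s.toStg.jC_one
        rw [hnd] at hre ⊢
        rw [hjL] at hre h1 h3 h4
        have hv := pmC_hits h2
        have hn2 : jh B Q j L ≤ 2 := by omega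
        have hb : msC 149 B Q T U F P a {L} ≤ pmC (jh B Q j L) := by
          have hv1 := pmC_hits h1
          rcases hms with hms | hms <;> omega
        have := pmC_pair hb hnD h5 h1 h2 h3 (fun h => by
          rcases h4 h with h | h | h <;> omega)
        linarith
    · have hnC := PC j hj D C hCD.symm hl' hC fC (fun hk => by
        by_contra h6
        exact hCs ⟨hk, by omega⟩)
      have := pmC_pair hnC hnD h5 h1 h2 h3 (fun h => by
        rcases h4 h with h | h | h <;> omega)
      linarith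
  intro j hj C D hCD hl hC hD fC fD kC kD
  by_cases hDs : KC B Q T U F D = ∅ ∧ D.card < 2
  · by_cases hCs : KC B Q T U F C = ∅ ∧ C.card < 2
    · obtain ⟨h1, h2⟩ := s.toStg.jC_two hj hCD hl
      have hne : ∀ E : Finset (Finset V), 1 ≤ jC B Q j E → E.card < 2 → E.card = 1 := by
        intro E h3 h4
        have h6 : E.Nonempty := by
          by_contra h8
          rw [not_nonempty_iff_eq_empty.1 h8] at h3
          simp [jC] at h3
        have := card_pos.2 h6
        omega
      exact L2S j hj C D hCD hl hC hD hCs.1 hDs.1 ((kC hCs.1).resolve_right (by omega))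
        ((kD hDs.1).resolve_right (by omega)) (hne C h1 hCs.2) (hne D h2 hDs.2)
    · have h1 := key j hj D C hCD.symm (by rw [hl, pair_comm]) hD hC fD fC kD (fun hk => by
        by_contra h6
        exact hCs ⟨hk, by omega⟩)
      linarith
  · exact key j hj C D hCD hl hC hD fC fD kC (fun hk => by
      by_contra h6
      exact hDs ⟨hk, by omega⟩)

end StgR

end Pool.Agent.Hyp6
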