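import Pool.Agent.Hyp6.L3Nm
import Pool.Agent.Hyp6.L3NS

/-!
# HYP6 L3Nn: the nodes with lines with own points, in the form of the last step

`StgR.point6`: at most six hits on a point which is its own class. `R73`: the fact on the leaves with
three points and nine blocks. `StgR.SM_of`: the hypothesis `SM` of the last step for the claims `fcl`.
-/

set_option autoImplicit false

namespace Pool.Agent.Hyp6

open Finset Pool.Agent.Hyp5 Rt

universe u v

variable {V : Type v} [DecidableEq V] {ι : Type u} [Fintype ι] [DecidableEq ι]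
  {B : ι → Finset V}

/-- seven hits of a triple at a leaf with three points and nine blocks: no other triple has three. -/
def R73 (B : ι → Finset V) (Q : Finset V) (T : Finset ι) (F : Finset (Finset V)) : Prop :=
  ∀ L ∈ F, L.card = 3 → cm B L = 9 → ∀ i ∈ T, ∀ k ∈ T, i ≠ k →
    hit B (B i ∩ Q) L = 7 → hit B (B k ∩ Q) L = 3 → False

namespace StgR

variable {Q U : Finset V} {T : Finset ι} {F : Finset (Finset V)}
  {P : Finset (Finset (Finset V))} {a : V → Finset (Finset V) → ℕ} {L : Finset V} {j : ι}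

/-- **at most six hits on a point which is its own class**. -/
theorem point6 (s : StgR B Q T U F P a) (hL : {L} ∈ P) (h1 : L.card = 1) (hj : j ∈ T) :
    jh B Q j L ≤ 6 := by
  obtain ⟨x, rfl⟩ := card_eq_one.1 h1
  have hLF := s.toStg.leafF hL
  refine s.mtr.toMTQ.point_six s.viol hj hLF fun M hM hne Z hZ => ?_
  have h2 := dfc_own (s.frm.gdT (R := Rg B Q T U F)) s.part hL M hM hne
  have h3 := Sp.le_dfc (N := slf B F) (D := {{x}, M}) hZ
  have h4 : ((Z.biUnion (slf B F)) \ {{x}, M}).card ≤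
      (nbF (gr B) (F \ {{x}, M}) Z).card := by
    refine card_le_card fun C hC => ?_
    obtain ⟨h5, h6⟩ := mem_sdiff.1 hC
    obtain ⟨u, hu, h7⟩ := mem_biUnion.1 h5
    obtain ⟨hCF, y, hy, h8⟩ := mem_slf.1 h7
    rw [mem_nbF]
    exact ⟨mem_sdiff.2 ⟨hCF, h6⟩, u, hu, y, hy, h8⟩
  have h5 : (Z.card : ℤ) - (((Z.biUnion (slf B F)) \ {{x}, M}).card : ℤ) ≤ 0 := h3.trans h2
  omega

/-- the price of the triples of lines with two classes is at least `payS`. -/
theorem payS_le_payT {m n1 c t n : ℕ} (h : m = 5 → n1 = 1 → n = 8 → c = 0) :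
    payS m n1 n ≤ payT c t n := by
  unfold payS payT payE
  split_ifs <;> omega

/-- **nodes with lines with own points**. -/
theorem SM_of (s : StgR B Q T U F P a) (hF : Few B Q T F) (h31 : G31 B Q T U F)
    (h73 : R73 B Q T F)
    (RGT : ∀ j ∈ tl B Q T U F P, ∀ C D, C ≠ D → lj B Q U F P j = {C, D} →
      (aC B Q T U F P D).card = 1 → payT (ncl B Q T U F P j) (jC B Q j D) (jC B Q j C) ≤
        8 * sT B Q T U F 15 j + tF B Q T U F P j - 1120 - ndF B Q T U F P a D) :
    ∀ L, {L} ∈ P → 2 ≤ (aC B Q T U F P {L}).card → KC B Q T U F {L} = ∅ →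
      NCt B Q T U F P {L} → (∃ j ∈ aC B Q T U F P {L}, 3 ≤ (lj B Q U F P j).card) →
      msC 149 B Q T U F P a {L} ≤ ∑ j ∈ aC B Q T U F P {L},
        clmF 149 B Q T U F P a (fcl 149 B Q T U F P a (tF B Q T U F P)) j {L} := by
  intro L hL h2 hK hN hfat
  have hLF := s.toStg.leafF hL
  have hjT : ∀ k ∈ aC B Q T U F P {L}, k ∈ T := fun k hk =>
    (s.toStg.tl_sub (Sp.mem_atl.1 hk).1).1
  obtain ⟨pp, slot, m1, mo, n1, no, pt, f0, e0, g0, gn, hh0, p0⟩ := s.toStg.one hLF
  have hdv := s.toStg.dv_W hLF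
  have hg : L.card = 3 → nt B L 1 = 1 → dv B Q L = -1 ∧ hit B U L ≤ 2 := by
    intro h3 h1
    have h5 : (L.card : ℤ) = 3 := by exact_mod_cast h3
    have h6 : (nt B L 1 : ℤ) = 1 := by exact_mod_cast h1
    rw [h5, h6] at pp
    have h7 : (hit B U L : ℤ) ≤ 1 := by rw [← h6]; exact gn
    have h8 : hit B U L ≤ 1 := by exact_mod_cast h7
    exact ⟨by omega, by omega⟩
  refine s.toStg.mix_node hF hL hK (s.toStg.Bs_of_nct hN) h2 hfat
    (fun h1 k hk => s.point6 hL h1 (hjT k hk)) (fun h3 h1 k hk => ?_)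
    (fun h3 h1 i hi k hk hne h4 => ?_) (fun h3 h1 i hi k hk hne h7 hk3 => ?_)
    (tF B Q T U F P) _ (fun k hk hk2 => ?_) (fun k hk hk3 => ?_)
  · obtain ⟨h5, h6⟩ := hg h3 h1
    by_contra hcon
    have h7 := (h31 L hLF h3 h1 h5 h6 k (hjT k hk) (by unfold jh at hcon; omega)).1
    unfold jh at hcon
    omega
  · obtain ⟨h5, h6⟩ := hg h3 h1
    exact (h31 L hLF h3 h1 h5 h6 i (hjT i hi) (by unfold jh at h4; omega)).2 k (hjT k hk) hne
  · have h9 : cm B L = 9 := by
      have h10 := s.frm.sv_leaf hLF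
      have h5 : (L.card : ℤ) = 3 := by exact_mod_cast h3
      have h6 : (nt B L 1 : ℤ) = 3 := by exact_mod_cast h1
      rw [h5, h6] at pp
      unfold Pp G at pp
      rw [h10, h3] at pp
      push_cast at pp
      omega
    exact h73 L hLF h3 h9 i (hjT i hi) k (hjT k hk) hne h7 hk3
  · obtain ⟨t, ht1, ht2, ht3, ht4, ht5⟩ := s.thin_price
      (fat := fcl 149 B Q T U F P a (tF B Q T U F P)) RGT hk hk2
    refine le_trans (payS_le_payT fun h5 h1 h8 => ?_) ht5
    refine s.don8 hL (Sp.mem_atl.1 hk).1 h5 ?_ (by omega)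
    have h10 := s.frm.sv_leaf hLF
    have h5' : (L.card : ℤ) = 5 := by exact_mod_cast h5
    have h6 : (nt B L 1 : ℤ) = 1 := by exact_mod_cast h1
    rw [h5', h6] at pp
    unfold Pp G at pp
    rw [h10, h5] at pp
    push_cast at pp
    omega
  · have h4 := s.toStg.lnf.card k (Sp.mem_atl.1 hk).1
    have h5 : (lj B Q U F P k).card = (oj B Q U F P k).card + 2 := h4
    exact s.toStg.clmF_fat (Sp.mem_atl.1 hk).1 (by omega)

end StgR

end Pool.Agent.Hyp6
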