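import Pool.Agent.Hyp6.L3T4
import Pool.Agent.Hyp6.L3Fq

/-!
# HYP6 L3T5: single leaves without line triples and without a centre

`StgR.S0`: the line `S0` of the last step.
-/

set_option autoImplicit false

namespace Pool.Agent.Hyp6

open Finset Pool.Agent.Hyp5 Rt

universe u v

variable {V : Type v} [DecidableEq V] {ι : Type u} [Fintype ι] [DecidableEq ι]
  {B : ι → Finset V}

namespace Stg

variable {Q U : Finset V} {T : Finset ι} {F : Finset (Finset V)}
  {P : Finset (Finset (Finset V))} {a : V → Finset (Finset V) → ℕ}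

/-- a single leaf without line triples, inside triples and centre, except the type (3;1) without hits
of `U` (`Stg.h0_one` for `NCt`). -/
theorem h0_nct (s : Stg B Q T U F P a) {L : Finset V} (hL : {L} ∈ P)
    (h0 : (aC B Q T U F P {L}).card = 0)
    (hK : Sp.Kin (Rg B Q T U F) (slj B Q F) {L} = ∅)
    (hB : NCt B Q T U F P {L})
    (hx : ¬ (L.card = 3 ∧ nt B L 1 = 1 ∧ hit B U L = 0)) :
    msC 149 B Q T U F P a {L} ≤ 0 := by
  have hLF : L ∈ F := (s.part.ptn.vc _ hL).sub (mem_singleton_self L)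
  have hA : aC B Q T U F P {L} = ∅ := card_eq_zero.1 h0
  have h1 := s.ms_one 149 hL
  rw [hA, sum_empty, hK, sum_empty] at h1
  have h2 : ∑ j ∈ Trs B Q T (Rg B Q T U F) U F P,
      (144 * (jh B Q j L : ℤ) - Xv 149 B Q T U F P j {L}) ≤ 0 := by
    refine sum_nonpos fun j hj => ?_
    have h3 := s.trs_le' hj hL hB
    rw [s.jC_one] at h3
    have h4 : (0 : ℤ) ≤ jh B Q j L := by positivity
    linarith
  obtain ⟨hld, hld5⟩ := s.ld_one hL
  have hN := s.one hLF
  obtain ⟨pp, slot, m1, mo, n1, no, pt, f0, e0, g0, gn, hh0, p0⟩ := hN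
  have e7 : 1 ≤ ee B Q L → 7 ≤ fs B Q L := s.viol.ee_fs7 (s.frm.FQ hLF)
  have e11 := s.viol.ee_fs (s.frm.FQ hLF)
  have h4 : 0 < hit B U L ∨ 4 ≤ ∑ j ∈ T, jh B Q j L := by
    rcases Nat.eq_zero_or_pos (hit B U L) with h5 | h5
    · right
      have h6 := s.hit_pos hLF
      obtain ⟨j, hj, hjL⟩ : ∃ j ∈ T, 0 < jh B Q j L := by
        by_contra hc
        push Not at hc
        have : ∑ j ∈ T, jh B Q j L = 0 := sum_eq_zero fun j hj => Nat.le_zero.1 (hc j hj)
        omega
      have h7 := s.four_hits hLF hj hjL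
      omega
    · exact Or.inl h5
  have h5 : (0 : ℤ) < hit B U L ∨ (4 : ℤ) ≤ ∑ j ∈ T, (jh B Q j L : ℤ) :=
    h4.imp (fun h => by exact_mod_cast h) fun h => by exact_mod_cast h
  have hxx : ¬ ((L.card : ℤ) = 3 ∧ (nt B L 1 : ℤ) = 1 ∧ (hit B U L : ℤ) = 0) := fun h6 =>
    hx ⟨by exact_mod_cast h6.1, by exact_mod_cast h6.2.1, by exact_mod_cast h6.2.2⟩
  have e7' : (1 : ℤ) ≤ ee B Q L → 7 ≤ fs B Q L := fun h6 => e7 (by exact_mod_cast h6)
  rw [h1]
  clear h1 hK hA h0 hB hx e7 h4
  generalize (∑ j ∈ Trs B Q T (Rg B Q T U F) U F P,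
      (144 * (jh B Q j L : ℤ) - Xv 149 B Q T U F P j {L})) = w at h2 ⊢
  have hldz : (Sp.ld (Sp.Ux U (slf B F) P) a {L} : ℤ) ≤ 5 := by exact_mod_cast hld5
  have hldw : (Sp.ld (Sp.Ux U (slf B F) P) a {L} : ℤ) = 5 ∨
      (hit B U L : ℤ) ≤ (Sp.ld (Sp.Ux U (slf B F) P) a {L} : ℤ) :=
    hld.imp_left fun h => by exact_mod_cast h
  clear hld hld5
  generalize (Sp.ld (Sp.Ux U (slf B F) P) a {L} : ℤ) = d at hldz hldw ⊢
  generalize (hit B U L : ℤ) = g at *
  generalize (ee B Q L : ℤ) = e at *
  generalize fs B Q L = f at *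
  generalize (nt B L 1 : ℤ) = n at *
  generalize (L.card : ℤ) = m at *
  generalize (∑ j ∈ T, (jh B Q j L : ℤ)) = h at *
  generalize Pp B L = p at *
  rcases hldw with h6 | h6
  · subst h6
    linarith
  · rcases lt_or_ge 0 g with h7 | h7
    · have : 1 ≤ g := by omega
      linarith
    · have hg : g = 0 := le_antisymm h7 g0
      subst hg
      rcases lt_or_ge (2 * e) p with h8 | h8
      · have : 2 * e + 1 ≤ p := by omega
        linarith
      · exfalso
        have hp : p = 2 * e := le_antisymm h8 p0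
        have h9 : (4 : ℤ) ≤ h := by
          rcases h5 with h10 | h10
          · omega
          · exact h10
        rcases lt_or_ge e 1 with h10 | h10
        · have he : e = 0 := by omega
          subst he
          apply hxx
          refine ⟨?_, ?_, rfl⟩ <;> omega
        · have h11 := e7' h10
          have he3 : e ≤ 2 := by omega
          have : e = 1 ∨ e = 2 := by omega
          rcases this with rfl | rfl
          · have : n ≤ 5 := by omega
            have : m = 1 ∨ m = 3 := by omega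
            omega
          · omega

end Stg

namespace StgR

variable {Q U : Finset V} {T : Finset ι} {F : Finset (Finset V)}
  {P : Finset (Finset (Finset V))} {al : V → Finset (Finset V) → ℕ}

/-- **the line `S0` of the last step**. -/
theorem S0 (s : StgR B Q T U F P al) :
    ∀ L, {L} ∈ P → (aC B Q T U F P {L}).card = 0 → KC B Q T U F {L} = ∅ →
      NCt B Q T U F P {L} → msC 149 B Q T U F P al {L} ≤ 0 := by
  intro L hL h0 hK hN
  by_cases hx : L.card = 3 ∧ nt B L 1 = 1 ∧ hit B U L = 0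
  · obtain ⟨h3, h1, hU⟩ := hx
    exact s.h0_31 hL h0 hK hN h3 h1 hU
  · exact s.toStg.h0_nct hL h0 hK hN hx

end StgR

end Pool.Agent.Hyp6
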