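import Pool.Agent.Hyp6.L3Tg
import Pool.Agent.Hyp6.L3Dn
import Pool.Agent.Hyp6.L3Yf

/-!
# HYP6 L3Th: the payments at the other end of a private single leaf

`StgR.rest_leaf`: the private class is a single leaf without centre. `StgR.RS_of`: the private single
leaves, if those with a centre need at most `fB`. `StgR.nd_kin`: private single leaves with inside
triples.
-/

set_option autoImplicit false

namespace Pool.Agent.Hyp6

open Finset Pool.Agent.Hyp5 Rt

universe u v

theorem pay_31 {c h n W g : ℕ} {ms tf : ℤ} (hm : ms ≤ 144 * h - 440 - 5 * W - 115 * g)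
    (h1 : 4 ≤ h) (h5 : h ≤ 5) (hg : 3 ≤ g) (hn : 1 ≤ n) (hs : h + n + c ≤ 12)
    (htf : -80 * (c : ℤ) ≤ tf)
    (hc : 1 ≤ c → h + n + c ≤ 8 ∨ n + c ≤ 4 ∨ h + c ≤ 4) :
    payT c h n ≤ 8 + 16 * (12 - (h : ℤ) - n) + tf - ms := by
  unfold payT payE
  split_ifs <;> omega

variable {V : Type v} [DecidableEq V] {ι : Type u} [Fintype ι] [DecidableEq ι]
  {B : ι → Finset V}

/-- the facts on the leaves with three points which are used for the prices. -/
structure Lf3 (B : ι → Finset V) (Q : Finset V) (T : Finset ι) (U : Finset V)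
    (F : Finset (Finset V)) (P : Finset (Finset (Finset V))) : Prop where
  five : ∀ L ∈ F, L.card = 3 → nt B L 1 = 1 → dv B Q L = -1 → ∀ j ∈ T, jh B Q j L ≤ 5
  four : ∀ L j, {L} ∈ P → j ∈ T → L.card = 3 → nt B L 1 = 1 → dv B Q L = -1 →
    hit B U L ≤ 2 → 4 ≤ jh B Q j L → ∑ C ∈ F.erase L, jh B Q j C = 0
  seven : ∀ L ∈ F, L.card = 3 → ee B Q L = 0 → dv B Q L = 3 → ∀ j ∈ T, hit B U L ≤ 2 →
    jh B Q j L ≤ 6

namespace StgR

variable {Q U : Finset V} {T : Finset ι} {F : Finset (Finset V)}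
  {P : Finset (Finset (Finset V))} {a : V → Finset (Finset V) → ℕ} {L : Finset V} {j : ι}

/-- **the private class is a single leaf without centre.** -/
theorem rest_leaf (s : StgR B Q T U F P a) (hF : Few B Q T F) (h3 : Lf3 B Q T U F P)
    (hj : j ∈ tl B Q T U F P) {D : Finset (Finset V)} (hL : {L} ∈ P)
    (hLD : {L} ≠ D) (hl : lj B Q U F P j = {{L}, D})
    (hq : (aC B Q T U F P {L}).card = 1) (hn : NCt B Q T U F P {L}) :
    payT (ncl B Q T U F P j) (jh B Q j L) (jC B Q j D) ≤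
      8 * sT B Q T U F 15 j + tF B Q T U F P j - 1120 - ndF B Q T U F P a {L} := by
  have hjT := (s.toStg.tl_sub hj).1
  have hLF := s.toStg.leafF hL
  rcases s.rest_one hF hj hL hLD hl hq hn with h | ⟨hK, hee, hms, h⟩
  · exact h
  have hl' : lj B Q U F P j = {D, {L}} := by rw [hl, pair_comm]
  obtain ⟨e1, e2⟩ := s.toStg.jC_two hj hLD hl
  have e3 := s.pair_ncl hj hLD hl
  have e4 := Stg.tF_ge (B := B) (Q := Q) (T := T) (U := U) (F := F) (P := P) j
  have e5 := s.hc3 hj hLD hl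
  have hjA : j ∈ aC B Q T U F P {L} := Sp.mem_atl.2 ⟨hj, by rw [hl]; simp⟩
  have hqj : aC B Q T U F P {L} = {j} := by
    obtain ⟨k, hk⟩ := card_eq_one.1 hq
    rw [hk] at hjA ⊢
    rw [mem_singleton.1 hjA]
  have ho : oj B Q U F P j = ∅ := by
    rcases s.toStg.two_or hj with h | h
    · exact h.2
    · rw [hl, card_pair hLD] at h
      omega
  have hnd : ndF B Q T U F P a {L} = msC 149 B Q T U F P a {L} := s.toStg.ndC_eq hK
  rw [s.rest_eq hj hLD hl, s.toStg.jC_one, hnd]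
  rw [s.toStg.jC_one] at e1 e3 e5
  rcases h with ⟨h4, h5, h6, h7⟩ | ⟨h4, h5, h6, h7, h8⟩ | ⟨h4, _, _, h5, h6, _, h7⟩
  · by_cases hg : hit B U L ≤ 2
    · have h8 := h3.four L j hL hjT h4 h5 h6 hg h7
      rw [s.else_eq hj hL hLD hl] at h8
      omega
    · have h8 := h3.five L hLF h4 h5 h6 j hjT
      rw [h6] at hms
      exact pay_31 (h := jh B Q j L) (g := hit B U L)
        (W := hit B ((Q \ (B j ∩ Q)) \ L) L) (by linarith) h7 h8 (by omega) e2 e3 e4 e5
  · refine s.rest_point hj hL hLD hl hqj ho hn hK h4 h5 h6 h7 h8 ?_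
    intro g0 _ _ i k0 a' b c x he h9 h10
    subst he
    exact s.no_dbl j i k0 a' b c x hL hj h9 h10 g0
  · have h8 := h3.seven L hLF h4 hee h5 j hjT (by omega)
    omega

/-- **the private class is a single leaf with inside triples.** -/
theorem rest_kin (s : StgR B Q T U F P a) (hF : Few B Q T F)
    (hj : j ∈ tl B Q T U F P) {D : Finset (Finset V)} (hL : {L} ∈ P)
    (hLD : {L} ≠ D) (hl : lj B Q U F P j = {{L}, D})
    (hq : aC B Q T U F P {L} = {j}) (hK : (KC B Q T U F {L}).Nonempty) :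
    payT (ncl B Q T U F P j) (jC B Q j {L}) (jC B Q j D) ≤
      8 * sT B Q T U F 15 j + tF B Q T U F P j - 1120 - ndF B Q T U F P a {L} := by
  obtain ⟨e1, e2⟩ := s.toStg.jC_two hj hLD hl
  rw [s.rest_eq hj hLD hl]
  exact pay_low (s.kin_need hF hL hq hK) e1 e2 (s.pair_ncl hj hLD hl) (Stg.tF_ge j)
    (s.hc3 hj hLD hl)

/-- a private single leaf with inside triples needs at most `pm`. -/
theorem nd_kin (s : StgR B Q T U F P a) (hF : Few B Q T F) (hL : {L} ∈ P)
    (hq : aC B Q T U F P {L} = {j}) (hK : (KC B Q T U F {L}).Nonempty) (n : ℕ) :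
    ndF B Q T U F P a {L} ≤ pm n := by
  have h1 : ndF B Q T U F P a {L} ≤ -186 := s.kin_need hF hL hq hK
  have h2 : -161 ≤ pm n := by
    unfold pm
    split_ifs <;> omega
  omega

/-- **the rest at a private single leaf without inside triples**, in the form of the last step. `hB`: the
leaves with a centre. -/
theorem RS_of (s : StgR B Q T U F P a) (hF : Few B Q T F) (h3 : Lf3 B Q T U F P)
    (hB : ∀ j ∈ tl B Q T U F P, ∀ L, {L} ∈ P → aC B Q T U F P {L} = {j} →
      (lj B Q U F P j).card = 2 → ¬ Ful B Q T U F P a {L} → KC B Q T U F {L} = ∅ →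
      ¬ NCt B Q T U F P {L} → ndF B Q T U F P a {L} ≤ fB (jC B Q j {L})) :
    ∀ j ∈ tl B Q T U F P, ∀ C L, C ≠ {L} → lj B Q U F P j = {C, {L}} →
      aC B Q T U F P {L} = {j} → ¬ Ful B Q T U F P a {L} → KC B Q T U F {L} = ∅ →
      payT (ncl B Q T U F P j) (jC B Q j {L}) (jC B Q j C) ≤
        8 * sT B Q T U F 15 j + tF B Q T U F P j - 1120 - ndF B Q T U F P a {L} := by
  intro j hj C L hCL hl hq hf hK
  have hl' : lj B Q U F P j = {{L}, C} := by rw [hl, pair_comm]
  have hLP : {L} ∈ P := s.lnf.sub j hj (by rw [hl]; simp)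
  by_cases hn : NCt B Q T U F P {L}
  · have h := s.rest_leaf hF h3 hj hLP hCL.symm hl' (by rw [hq, card_singleton]) hn
    rwa [s.toStg.jC_one]
  · exact s.rest_of hj hCL.symm hl' (hB j hj L hLP hq (by rw [hl, card_pair hCL]) hf hK hn)

end StgR

end Pool.Agent.Hyp6
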