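import Pool.Agent.Hyp6.L3Yh
import Pool.Agent.Hyp6.L3NS
import Pool.Agent.Hyp6.L3Nn
import Pool.Agent.Hyp6.L3T5
import Pool.Agent.Hyp6.L3Do
import Pool.Agent.Hyp6.L3Th
import Pool.Agent.Hyp6.L3L2m

/-!
# HYP6 L3Last: the last step with the proved lines filled in

`StgR.last`: no setting, from the facts proved by tables (`Few`, `Lf3`, `Ga31`, `G31`, `R73` and the line
with two private single leaves) and the lines which are not single leaves without centres and inside
triples.
-/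

set_option autoImplicit false

namespace Pool.Agent.Hyp6

open Finset Pool.Agent.Hyp5 Rt

universe u v

variable {V : Type v} [DecidableEq V] {ι : Type u} [Fintype ι] [DecidableEq ι]
  {B : ι → Finset V}

namespace StgR

variable {Q U : Finset V} {T : Finset ι} {F : Finset (Finset V)}
  {P : Finset (Finset (Finset V))} {a : V → Finset (Finset V) → ℕ}

/-- a private single leaf with a centre needs at most `pm`, from the line `BL`. -/
theorem nd_pm_of_BL (s : StgR B Q T U F P a)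
    (BL : ∀ L, {L} ∈ P → ¬ Ful B Q T U F P a {L} → (aC B Q T U F P {L}).Nonempty →
      (2 ≤ (aC B Q T U F P {L}).card ∨ ∀ j ∈ aC B Q T U F P {L}, (lj B Q U F P j).card = 2) →
      KC B Q T U F {L} = ∅ → (Bs B Q T U F P L).Nonempty → ¬ Exa B Q T U F P {L} →
      NdOk B Q T U F P a {L})
    {j : ι} {L : Finset V} (hL : {L} ∈ P) (hq : aC B Q T U F P {L} = {j})
    (h2 : (lj B Q U F P j).card = 2) (hf : ¬ Ful B Q T U F P a {L})
    (hK : KC B Q T U F {L} = ∅) (hn : ¬ NCt B Q T U F P {L}) :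
    ndF B Q T U F P a {L} ≤ pm (jC B Q j {L}) := by
  have hall : ∀ k ∈ aC B Q T U F P {L}, (lj B Q U F P k).card = 2 := by
    intro k hk
    rw [hq, mem_singleton] at hk
    rw [hk, h2]
  have hBs : (Bs B Q T U F P L).Nonempty := by
    by_contra h
    exact hn (s.toStg.nct_of_Bs (not_nonempty_iff_eq_empty.1 h))
  have hx : ¬ Exa B Q T U F P {L} := by
    rintro ⟨k, hk, h3, _⟩
    have := hall k hk
    omega
  have h4 := BL L hL hf (by rw [hq]; exact singleton_nonempty j) (Or.inr hall) hK hBs hx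
    (fun k => pm (jC B Q k {L})) (fun _ _ _ => le_rfl) (fun k hk h3 => by
      have := hall k hk
      omega)
  rw [hq, sum_singleton] at h4
  exact h4

/-- **the last step with the proved lines filled in.** -/
theorem last (s : StgR B Q T U F P a)
    -- facts proved by tables
    (hF : Few B Q T F) (h3 : Lf3 B Q T U F P) (hga : Ga31 B Q T U F) (h31 : G31 B Q T U F)
    (h73 : R73 B Q T F)
    (L2S : ∀ j ∈ tl B Q T U F P, ∀ C D, C ≠ D → lj B Q U F P j = {C, D} →
      aC B Q T U F P C = {j} → aC B Q T U F P D = {j} →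
      KC B Q T U F C = ∅ → KC B Q T U F D = ∅ → NCt B Q T U F P C → NCt B Q T U F P D →
      C.card = 1 → D.card = 1 →
      ndF B Q T U F P a C + ndF B Q T U F P a D ≤
        8 * sT B Q T U F 15 j + tF B Q T U F P j - 1120)
    -- private ends which are not single leaves
    (PC : ∀ j ∈ tl B Q T U F P, ∀ C D, C ≠ D → lj B Q U F P j = {C, D} →
      aC B Q T U F P D = {j} → ¬ Ful B Q T U F P a D → (KC B Q T U F D = ∅ → 2 ≤ D.card) →
      ndF B Q T U F P a D ≤ pmC (jC B Q j D))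
    -- single leaves with a centre
    (B0 : ∀ L, {L} ∈ P → ¬ Ful B Q T U F P a {L} → (aC B Q T U F P {L}).card = 0 →
      KC B Q T U F {L} = ∅ → (Bs B Q T U F P L).Nonempty → msC 149 B Q T U F P a {L} ≤ 0)
    (BL : ∀ L, {L} ∈ P → ¬ Ful B Q T U F P a {L} → (aC B Q T U F P {L}).Nonempty →
      (2 ≤ (aC B Q T U F P {L}).card ∨ ∀ j ∈ aC B Q T U F P {L}, (lj B Q U F P j).card = 2) →
      KC B Q T U F {L} = ∅ → (Bs B Q T U F P L).Nonempty → ¬ Exa B Q T U F P {L} →
      NdOk B Q T U F P a {L})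
    -- composite classes
    (E0 : ∀ C ∈ P, ¬ Ful B Q T U F P a C → 2 ≤ C.card → (aC B Q T U F P C).card = 0 →
      KC B Q T U F C = ∅ → ¬ NCt B Q T U F P C → msC 149 B Q T U F P a C ≤ 0)
    (CN : ∀ C ∈ P, ¬ Ful B Q T U F P a C → 2 ≤ C.card → 2 ≤ (aC B Q T U F P C).card →
      KC B Q T U F C = ∅ → NCt B Q T U F P C → ¬ Exa B Q T U F P C → NdOk B Q T U F P a C)
    (EN : ∀ C ∈ P, ¬ Ful B Q T U F P a C → 2 ≤ C.card → 2 ≤ (aC B Q T U F P C).card →
      KC B Q T U F C = ∅ → ¬ NCt B Q T U F P C → ¬ Exa B Q T U F P C → NdOk B Q T U F P a C)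
    -- classes with inside triples
    (D0 : ∀ C ∈ P, ¬ Ful B Q T U F P a C → (aC B Q T U F P C).card = 0 →
      (KC B Q T U F C).Nonempty → ndF B Q T U F P a C ≤ 0)
    (DN : ∀ C ∈ P, ¬ Ful B Q T U F P a C → 2 ≤ (aC B Q T U F P C).card →
      (KC B Q T U F C).Nonempty → ¬ Exa B Q T U F P C → NdOk B Q T U F P a C)
    -- the fat lines
    (LF : ∀ j ∈ tl B Q T U F P, 1 ≤ (oj B Q U F P j).card →
      ∑ C ∈ (lj B Q U F P j).filter (fun C => (aC B Q T U F P C).card = 1),
        ndF B Q T U F P a C +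
      ∑ C ∈ (lj B Q U F P j).filter (fun C => 2 ≤ (aC B Q T U F P C).card),
        fcl 149 B Q T U F P a (tF B Q T U F P) j C ≤
        8 * sT B Q T U F 15 j + tF B Q T U F P j - 1120 +
          168 * ∑ u ∈ oj B Q U F P j, (uo B Q T U F u : ℤ)) : False := by
  have RG := s.RG_of (s.RS_of hF h3 fun j _ L hL hq h2 hf hK hn =>
    (s.nd_pm_of_BL BL hL hq h2 hf hK hn).trans (pm_le_fB _)) PC
  have RGT := s.RGT_all RG
  exact s.finT RG (fun L hL _ h0 hK hn => s.S0 L hL h0 hK hn) B0 E0 D0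
    (fun L hL _ h2 hK hn ht => s.SN_of hF h31 s.p6w _ RGT hL h2 hK hn ht)
    (fun L hL _ h2 hK hn hfat _ => s.SM_of hF h31 h73 RGT L hL h2 hK hn hfat)
    BL CN EN DN (s.L2_of hga RG PC L2S) LF

end StgR

end Pool.Agent.Hyp6
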