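import Mathlib

/-!
# HYP6 L3Nq0: private composite classes, numbers

`LeafC`: the numbers of a leaf of a composite class: `h` hits of the line triple, `W` all other hits,
`x` the hits of the inside point, `f` free places. `comp2`: two leaves. `leaf3`: few hits of `U`.
-/

set_option autoImplicit false

namespace Pool.Agent.Hyp6.Rt

/-- the bounds for what a private composite class with `h` hits needs. -/
def OkC (h M : ℤ) : Prop :=
  M ≤ -161 ∨ (h = 6 ∧ M ≤ -1) ∨ (h = 7 ∧ M ≤ -48) ∨ (h = 8 ∧ M ≤ -48) ∨ (h = 9 ∧ M ≤ 31) ∨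
    (h = 10 ∧ M ≤ 105) ∨ (h = 11 ∧ M ≤ 169)

/-- the numbers of a leaf of a composite class. -/
structure LeafC (m n P e f h W x : ℤ) : Prop where
  pp : P = 2 * n + 3 * m - 11
  slot : 6 * (h + W + f) + n = 5 * P + 55
  m1 : 1 ≤ m
  mo : m % 2 = 1
  n1 : 1 ≤ n
  no : n % 2 = 1
  pt : m = 1 → n = 5
  e0 : 0 ≤ e
  pe : 2 * e ≤ P
  e7 : 1 ≤ e → 7 ≤ f
  e11 : 11 * e ≤ 2 * f
  f0 : 0 ≤ f
  h0 : 0 ≤ h
  x0 : 0 ≤ x
  xn : x ≤ n
  x3 : m = 1 → x ≤ 3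
  xW : x + 1 ≤ W
  h4 : m = 3 → n = 1 → h ≤ 4
  w4 : m = 3 → n = 1 → h = 4 → W = 5

theorem LeafC.kind {m n P e f h W x : ℤ} (H : LeafC m n P e f h W x) (hP : P ≤ 4) :
    (P = 0 ∧ m = 3 ∧ n = 1) ∨ (P = 2 ∧ m = 1 ∧ n = 5) ∨ (P = 4 ∧ m = 3 ∧ n = 3) := by
  obtain ⟨pp, slot, m1, mo, n1, no, pt, e0, pe, e7, e11, f0, h0, x0, xn, x3, xW, h4, w4⟩ := H
  clear slot e7 e11 x3 xW h4 w4 f0 h0 x0 xn
  rcases (by omega : m = 1 ∨ m = 3 ∨ 5 ≤ m) with h1 | h1 | h1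
  · have := pt h1
    omega
  · omega
  · omega

theorem LeafC.pev {m n P e f h W x : ℤ} (H : LeafC m n P e f h W x) : P % 2 = 0 := by
  have h1 := H.pp
  have h2 := H.mo
  omega

/-- a point and a leaf of type `(3; 1)`. -/
theorem comp31 {f1 h1 W1 x1 f2 h2 W2 x2 w g M : ℤ}
    (A : LeafC 3 1 0 0 f1 h1 W1 x1) (A' : LeafC 1 5 2 0 f2 h2 W2 x2)
    (hw : (W1 - x1) + (W2 - x2) = w + g) (g0 : 0 ≤ g)
    (hM : M ≤ 144 * (h1 + h2) - 1160 - 160 * (5 - x1 - x2) - 5 * w - 120 * g)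
    (h7 : 7 ≤ h1 + h2) (h11 : h1 + h2 ≤ 11) : OkC (h1 + h2) M := by
  have a1 := A.xn
  have a2 := A'.x3 rfl
  have a3 := A.h4 rfl rfl
  have a4 := A.xW
  have a5 := A'.xW
  have a6 := A'.slot
  have a7 := A'.f0
  have a8 := A.w4 rfl rfl
  unfold OkC
  rcases (by omega : h1 + h2 = 7 ∨ h1 + h2 = 8 ∨ h1 + h2 = 9 ∨ h1 + h2 = 10 ∨
    h1 + h2 = 11) with h | h | h | h | h
  · exact Or.inl (by linarith)
  · exact Or.inl (by linarith)
  · exact Or.inr (Or.inr (Or.inr (Or.inr (Or.inl ⟨h, by linarith⟩))))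
  · refine Or.inr (Or.inr (Or.inr (Or.inr (Or.inr (Or.inl ⟨h, ?_⟩)))))
    rcases (by omega : x2 ≤ 2 ∨ x2 = 3) with h3 | h3
    · linarith
    · have h4 : h1 = 4 := by omega
      have h5 := a8 h4
      linarith
  · refine Or.inr (Or.inr (Or.inr (Or.inr (Or.inr (Or.inr ⟨h, ?_⟩)))))
    have h3 : x2 ≤ 2 := by omega
    linarith

/-- **a private class with two leaves**. -/
theorem comp2 {m1 n1 P1 e1 f1 h1 W1 x1 m2 n2 P2 e2 f2 h2 W2 x2 w g ls M : ℤ}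
    (A : LeafC m1 n1 P1 e1 f1 h1 W1 x1) (A' : LeafC m2 n2 P2 e2 f2 h2 W2 x2)
    (hls : ls = 5 - x1 - x2) (ls0 : 0 ≤ ls)
    (hw : (W1 - x1) + (W2 - x2) = w + g) (w0 : 0 ≤ w) (g0 : 0 ≤ g)
    (hM : M ≤ 144 * (h1 + h2) - 920 - 120 * ((P1 - 2 * e1) + (P2 - 2 * e2)) - 160 * ls -
      5 * w - 120 * g) (h11 : h1 + h2 ≤ 11)
    (h3 : m1 = 1 → m2 = 1 → e1 = 0 → e2 = 0 → x1 + x2 = 5 → 3 ≤ w + g) :
    OkC (h1 + h2) M := by
  have p1 := A.pe
  have p2 := A'.pe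
  rcases (by omega : h1 + h2 ≤ 5 ∨ h1 + h2 = 6 ∨ 7 ≤ h1 + h2) with h | h | h
  · exact Or.inl (by linarith)
  · exact Or.inr (Or.inl ⟨h, by linarith⟩)
  have fin : M ≤ -48 → OkC (h1 + h2) M := by
    intro h5
    unfold OkC
    rcases (by omega : h1 + h2 = 7 ∨ h1 + h2 = 8 ∨ h1 + h2 = 9 ∨ h1 + h2 = 10 ∨
      h1 + h2 = 11) with h | h | h | h | h
    · exact Or.inr (Or.inr (Or.inl ⟨h, h5⟩))
    · exact Or.inr (Or.inr (Or.inr (Or.inl ⟨h, h5⟩)))
    · exact Or.inr (Or.inr (Or.inr (Or.inr (Or.inl ⟨h, by linarith⟩))))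
    · exact Or.inr (Or.inr (Or.inr (Or.inr (Or.inr (Or.inl ⟨h, by linarith⟩)))))
    · exact Or.inr (Or.inr (Or.inr (Or.inr (Or.inr (Or.inr ⟨h, by linarith⟩)))))
  have a1 := A.slot
  have a2 := A'.slot
  have a3 := A.xW
  have a4 := A'.xW
  have a5 := A.n1
  have a6 := A'.n1
  have a7 := A.e11
  have a8 := A'.e11
  have a9 := A.e0
  have a10 := A'.e0
  have a11 := A.f0
  have a12 := A'.f0
  rcases (by omega : 1 ≤ e1 ∨ e1 = 0) with he1 | he1
  · have h5 := A.e7 he1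
    exact fin (by linarith)
  rcases (by omega : 1 ≤ e2 ∨ e2 = 0) with he2 | he2
  · have h5 := A'.e7 he2
    exact fin (by linarith)
  subst he1
  subst he2
  rcases (by omega : 5 ≤ P1 + P2 ∨ P1 + P2 ≤ 4) with hP | hP
  · unfold OkC
    rcases (by omega : h1 + h2 = 7 ∨ h1 + h2 = 8 ∨ h1 + h2 = 9 ∨ h1 + h2 = 10 ∨
      h1 + h2 = 11) with h | h | h | h | h
    · exact Or.inl (by linarith)
    · exact Or.inl (by linarith)
    · exact Or.inl (by linarith)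
    · exact Or.inr (Or.inr (Or.inr (Or.inr (Or.inr (Or.inl ⟨h, by linarith⟩)))))
    · exact Or.inr (Or.inr (Or.inr (Or.inr (Or.inr (Or.inr ⟨h, by linarith⟩)))))
  -- the small kinds
  have c400 : M ≤ 144 * (h1 + h2) - 1400 → (h1 + h2 = 11 → M ≤ 169) → OkC (h1 + h2) M := by
    intro h5 h6
    unfold OkC
    rcases (by omega : h1 + h2 = 7 ∨ h1 + h2 = 8 ∨ h1 + h2 = 9 ∨ h1 + h2 = 10 ∨
      h1 + h2 = 11) with h | h | h | h | h
    · exact Or.inl (by linarith)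
    · exact Or.inl (by linarith)
    · exact Or.inr (Or.inr (Or.inr (Or.inr (Or.inl ⟨h, by linarith⟩))))
    · exact Or.inr (Or.inr (Or.inr (Or.inr (Or.inr (Or.inl ⟨h, by linarith⟩)))))
    · exact Or.inr (Or.inr (Or.inr (Or.inr (Or.inr (Or.inr ⟨h, h6 h⟩)))))
  rcases A.kind (by linarith) with ⟨rfl, rfl, rfl⟩ | ⟨rfl, rfl, rfl⟩ | ⟨rfl, rfl, rfl⟩ <;>
  rcases A'.kind (by linarith) with ⟨rfl, rfl, rfl⟩ | ⟨rfl, rfl, rfl⟩ | ⟨rfl, rfl, rfl⟩
  · -- (3;1), (3;1)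
    have b1 := A.h4 rfl rfl
    have b2 := A'.h4 rfl rfl
    have b3 := A.xn
    have b4 := A'.xn
    exact c400 (by linarith) (fun h => by linarith)
  · -- (3;1), point
    exact comp31 A A' hw g0 (by linarith) h h11
  · -- (3;1), (3;3)
    have b3 := A.xn
    have b4 := A'.xn
    exact c400 (by linarith) (fun h => by linarith)
  · -- point, (3;1)
    have h5 := comp31 (M := M) (w := w) (g := g) A' A (by linarith) g0 (by linarith)
      (by linarith) (by linarith)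
    rwa [add_comm h2 h1] at h5
  · -- point, point
    have b3 := A.x3 rfl
    have b4 := A'.x3 rfl
    refine c400 (by linarith) (fun h => ?_)
    rcases (by omega : 1 ≤ ls ∨ x1 + x2 = 5) with h5 | h5
    · linarith
    · have h6 := h3 rfl rfl rfl rfl h5
      linarith
  · exact absurd hP (by norm_num)
  · -- (3;3), (3;1)
    have b3 := A.xn
    have b4 := A'.xn
    exact c400 (by linarith) (fun h => by linarith)
  · exact absurd hP (by norm_num)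
  · exact absurd hP (by norm_num)

/-- a leaf whose value is used up by the double singles has at most three hits of `U`. -/
theorem leaf3 {m n P e f H g : ℤ} (pp : P = 2 * n + 3 * m - 11)
    (slot : 6 * (H + g + f) + n = 5 * P + 55) (m1 : 1 ≤ m) (mo : m % 2 = 1) (n1 : 1 ≤ n)
    (no : n % 2 = 1) (pt : m = 1 → n = 5) (e0 : 0 ≤ e) (e7 : 1 ≤ e → 7 ≤ f)
    (e11 : 11 * e ≤ 2 * f) (H0 : 0 ≤ H) (gn : g ≤ n) (hP : P = 2 * e) : g ≤ 3 := by
  rcases (by omega : e = 0 ∨ e = 1 ∨ 2 ≤ e) with h | h | h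
  · subst h
    rcases (by omega : m = 1 ∨ m = 3 ∨ 5 ≤ m) with h1 | h1 | h1
    · have := pt h1
      omega
    · omega
    · omega
  · subst h
    have h7 := e7 (by norm_num)
    rcases (by omega : m = 1 ∨ 3 ≤ m) with h1 | h1
    · have := pt h1
      omega
    · omega
  · linarith

end Pool.Agent.Hyp6.Rt
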