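import Pool.Agent.Hyp6.L3Yf

/-!
# HYP6 L3Yg: composite classes without line triples

`Stg.ms_comp`: a composite class without inside triples and without centre. `Stg.C0`: it needs nothing
if there is no line triple.
-/

set_option autoImplicit false

namespace Pool.Agent.Hyp6

open Finset Pool.Agent.Hyp5 Rt

universe u v

variable {V : Type v} [DecidableEq V] {ι : Type u} [Fintype ι] [DecidableEq ι]
  {B : ι → Finset V}

namespace Stg

variable {Q U : Finset V} {T : Finset ι} {F : Finset (Finset V)}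
  {P : Finset (Finset (Finset V))} {a : V → Finset (Finset V) → ℕ}

/-- the leaves of a class. -/
theorem leaf_sum_le (s : Stg B Q T U F P a) {C : Finset (Finset V)} (hC : C ∈ P) :
    ∑ L ∈ C, (240 * (ee B Q L : ℤ) - 120 * Pp B L + 120) ≤ 120 * (C.card : ℤ) := by
  have h1 : ∑ L ∈ C, (240 * (ee B Q L : ℤ) - 120 * Pp B L + 120) ≤ ∑ _L ∈ C, (120 : ℤ) := by
    refine sum_le_sum fun L hL => ?_
    have h2 := (s.one ((s.part.ptn.vc C hC).sub hL)).p0
    linarith
  rw [sum_const, nsmul_eq_mul] at h1
  linarith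

/-- the inside points of a class. -/
theorem uin_sum (_s : Stg B Q T U F P a) {C : Finset (Finset V)} :
    ∑ u ∈ Sp.Uin U (slf B F) C, (600 + 160 * (uo B Q T U F u : ℤ)) =
      600 * ((Sp.Uin U (slf B F) C).card : ℤ) + 160 * (lsC B Q T U F C : ℤ) := by
  unfold lsC
  rw [sum_add_distrib, sum_const, nsmul_eq_mul, ← mul_sum]
  push_cast
  ring

/-- a class without inside triples has one point less than leaves. -/
theorem card_comp (s : Stg B Q T U F P a) {C : Finset (Finset V)} (hC : C ∈ P)
    (hK : KC B Q T U F C = ∅) : C.card = (Sp.Uin U (slf B F) C).card + 1 := by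
  have hc := s.cls hC
  have h1 := hc.dn
  have h2 := hc.rk
  unfold KC at hK
  rw [hK, card_empty] at h1
  push_cast at h1
  omega

/-- **a composite class without line triples, inside triples and centre needs nothing**. -/
theorem C0 (s : Stg B Q T U F P a) {C : Finset (Finset V)} (hC : C ∈ P)
    (hf : ¬ Ful B Q T U F P a C) (h2 : 2 ≤ C.card) (h0 : (aC B Q T U F P C).card = 0)
    (hK : KC B Q T U F C = ∅) (hn : NCt B Q T U F P C) :
    msC 149 B Q T U F P a C ≤ 0 := by
  have h1 := s.card_comp hC hK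
  have h3 := s.ms_eq 149 hC
  have h4 := s.trs_sum_le hC hn
  have h5 := s.gC_le hC hf
  have h6 := s.leaf_sum_le hC
  have h7 := s.uin_sum (C := C)
  have h8 : 0 ≤ ∑ j ∈ Trs B Q T (Rg B Q T U F) U F P, (jC B Q j C : ℤ) :=
    sum_nonneg fun _ _ => by positivity
  have h9 : (0 : ℤ) ≤ (lsC B Q T U F C : ℤ) := by positivity
  have h10 : (0 : ℤ) ≤ (gC B U F P C : ℤ) := by positivity
  unfold KC at hK
  rw [card_eq_zero.1 h0, sum_empty, hK, sum_empty, h7] at h3
  rw [h3]
  have h11 : (C.card : ℤ) = (Sp.Uin U (slf B F) C).card + 1 := by exact_mod_cast h1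
  have h12 : (2 : ℤ) ≤ (C.card : ℤ) := by exact_mod_cast h2
  linarith

end Stg

end Pool.Agent.Hyp6
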