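import Pool.Agent.Hyp6.L3L2m
import Pool.Agent.Hyp6.L3Yg
import Pool.Agent.Hyp6.L3Tf
import Pool.Agent.Hyp6.L3Ne
import Pool.Agent.Hyp6.L3Tx
import Pool.Agent.Hyp6.L3Nq0

/-!
# HYP6 L3Nq: private composite classes

A class with at least two leaves and one line triple, on a line with two classes, without inside
triples and centre: `Stg.compC`: what it needs; `StgR.rest_comp`: the payment at the other end.
-/

set_option autoImplicit false

namespace Pool.Agent.Hyp6

open Finset Pool.Agent.Hyp5 Rt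

universe u v

theorem pmC_of {h : ℕ} {M : ℤ} (H : OkC h M) : M ≤ pmC h := by
  unfold OkC at H
  unfold pmC pm
  split_ifs <;> omega

theorem okC_fB {h : ℕ} {M : ℤ} (H : OkC h M) :
    M ≤ fB h ∨ (h = 10 ∧ M ≤ 105) ∨ (h = 11 ∧ M ≤ 169) := by
  unfold OkC at H
  unfold fB
  rcases H with H | ⟨h2, H⟩ | ⟨h2, H⟩ | ⟨h2, H⟩ | ⟨h2, H⟩ | ⟨h2, H⟩ | ⟨h2, H⟩
  · left
    split_ifs <;> linarith
  · left
    rw [show h = 6 by exact_mod_cast h2]
    norm_num
    linarith
  · left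
    rw [show h = 7 by exact_mod_cast h2]
    norm_num
    linarith
  · left
    rw [show h = 8 by exact_mod_cast h2]
    norm_num
    linarith
  · left
    rw [show h = 9 by exact_mod_cast h2]
    norm_num
    linarith
  · exact Or.inr (Or.inl ⟨by exact_mod_cast h2, H⟩)
  · exact Or.inr (Or.inr ⟨by exact_mod_cast h2, H⟩)

/-- the payment at the other end of a private composite class. -/
theorem pay_comp {c h n : ℕ} {M tf : ℤ} (H : OkC h M) (h1 : 1 ≤ h) (n1 : 1 ≤ n)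
    (hn : h + n + c ≤ 12) (ht : -80 * (c : ℤ) ≤ tf)
    (hc : 1 ≤ c → h + n + c ≤ 8 ∨ n + c ≤ 4 ∨ h + c ≤ 4) :
    payT c h n ≤ 8 + 16 * (12 - (h : ℤ) - n) + tf - M := by
  rcases okC_fB H with h2 | ⟨rfl, h2⟩ | ⟨rfl, h2⟩
  · exact pay_fB h2 h1 n1 hn ht hc
  · have h3 : (n = 1 ∧ c = 0) ∨ (n = 1 ∧ c = 1) ∨ (n = 2 ∧ c = 0) := by omega
    rcases h3 with ⟨rfl, rfl⟩ | ⟨rfl, rfl⟩ | ⟨rfl, rfl⟩
    · have h4 : payT 0 10 1 = -161 := by decide
      rw [h4]
      push_cast at ht ⊢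
      linarith
    · have h4 : payT 1 10 1 = -161 := by decide
      rw [h4]
      push_cast at ht ⊢
      linarith
    · have h4 : payT 0 10 2 = -97 := by decide
      rw [h4]
      push_cast at ht ⊢
      linarith
  · have h3 : n = 1 ∧ c = 0 := by omega
    obtain ⟨rfl, rfl⟩ := h3
    have h4 : payT 0 11 1 = -161 := by decide
    rw [h4]
    push_cast at ht ⊢
    linarith

theorem okC_pay {c h n : ℕ} {N : ℤ} (H : OkC n N) (hn : n ≤ 9) : N ≤ payT c h n := by
  unfold OkC at H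
  unfold payT payE
  rcases H with H | ⟨h2, H⟩ | ⟨h2, H⟩ | ⟨h2, H⟩ | ⟨h2, H⟩ | ⟨h2, H⟩ | ⟨h2, H⟩
  · split_ifs <;> linarith
  · rw [show n = 6 by exact_mod_cast h2]
    split_ifs <;> linarith
  · rw [show n = 7 by exact_mod_cast h2]
    split_ifs <;> linarith
  · rw [show n = 8 by exact_mod_cast h2]
    split_ifs <;> linarith
  · rw [show n = 9 by exact_mod_cast h2]
    split_ifs <;> linarith
  · omega
  · omega

/-- two private composite classes. -/
theorem two_comp {c h n : ℕ} {M N tf : ℤ} (H : OkC h M) (H' : OkC n N) (h1 : 1 ≤ h)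
    (n1 : 1 ≤ n) (hn : h + n + c ≤ 12) (ht : -80 * (c : ℤ) ≤ tf)
    (hc : 1 ≤ c → h + n + c ≤ 8 ∨ n + c ≤ 4 ∨ h + c ≤ 4) :
    M + N ≤ 8 + 16 * (12 - (h : ℤ) - n) + tf := by
  rcases Nat.lt_or_ge 9 n with h2 | h2
  · have h3 := pay_comp H' n1 h1 (by omega) ht (fun h => by have := hc h; omega)
    have h4 := okC_pay (c := c) (h := n) H (by omega)
    linarith
  · have h3 := pay_comp H h1 n1 hn ht hc
    have h4 := okC_pay (c := c) (h := h) H' h2
    linarith

variable {V : Type v} [DecidableEq V] {ι : Type u} [Fintype ι] [DecidableEq ι]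
  {B : ι → Finset V}

omit [DecidableEq ι] in
/-- the hits of two points on a set are at most the hits of the rest. -/
theorem two_le_hit {Y L : Finset V} {p q : V} (hp : p ∈ Y) (hq : q ∈ Y) (hne : p ≠ q) :
    uh B p L + uh B q L ≤ hit B Y L := by
  have h1 : ∀ v, uh B v L = (Ez B L v).card := by
    intro v
    unfold uh
    rw [hit_eq_Ez, sum_singleton]
  rw [h1, h1, hit_eq_Ez, ← sum_pair (f := fun v => (Ez B L v).card) hne]
  refine sum_le_sum_of_subset fun v hv => ?_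
  rcases mem_insert.1 hv with rfl | hv
  · exact hp
  · rwa [mem_singleton.1 hv]

namespace Stg

variable {Q U : Finset V} {T : Finset ι} {F : Finset (Finset V)}
  {P : Finset (Finset (Finset V))} {a : V → Finset (Finset V) → ℕ} {j : ι}

/-- a point of `U` is outside a leaf and a triple. -/
theorem u_out (s : Stg B Q T U F P a) {L : Finset V} (hL : L ∈ F) (hj : j ∈ T) {u : V}
    (hu : u ∈ U) : u ∈ (Q \ (B j ∩ Q)) \ L := by
  have h1 := s.frm.UD hu
  obtain ⟨h2, h3⟩ := mem_sdiff.1 h1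
  refine mem_sdiff.2 ⟨mem_sdiff.2 ⟨h2, fun h => h3 (mem_biUnion.2 ⟨j, hj, (mem_inter.1 h).1⟩)⟩, ?_⟩
  exact fun h => disjoint_left.1 (s.frm.ge.FU L hL) h hu

/-- a contact point has a hit. -/
theorem cpt_pos (_s : Stg B Q T U F P a) {L : Finset V} {v : V} (hv : v ∈ cpt B Q j L) :
    1 ≤ uh B v L := by
  unfold uh
  rw [hit_eq_Ez, sum_singleton]
  obtain ⟨_, i, hi⟩ := mem_cpt.1 hv
  exact card_pos.2 ⟨i, mem_Ez.2 hi⟩

/-- the hits outside a triple are the hits of the contact points. -/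
theorem hit_cpt (_s : Stg B Q T U F P a) {L : Finset V} :
    hit B ((Q \ (B j ∩ Q)) \ L) L = ∑ v ∈ cpt B Q j L, uh B v L := by
  rw [hit_eq_Ez]
  symm
  have h1 : ∀ v ∈ cpt B Q j L, uh B v L = (Ez B L v).card := fun v _ => by
    unfold uh
    rw [hit_eq_Ez, sum_singleton]
  rw [sum_congr rfl h1]
  refine sum_subset (fun v hv => (mem_cpt.1 hv).1) fun v hv hn => ?_
  by_contra h0
  obtain ⟨i, hi⟩ := card_pos.1 (Nat.pos_of_ne_zero h0)
  exact hn (mem_cpt.2 ⟨hv, i, mem_Ez.1 hi⟩)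

/-- the other contact points of a leaf. -/
theorem xW_le (s : Stg B Q T U F P a) {L : Finset V} (hL : L ∈ F) (hj : j ∈ T) {u : V}
    (hu : u ∈ U) : uh B u L + 1 ≤ hit B ((Q \ (B j ∩ Q)) \ L) L := by
  have h1 := s.viol.cpt_two_le s.frm hj hL
  obtain ⟨v, hv, hne⟩ := exists_mem_ne (s := cpt B Q j L) (by omega) u
  have h2 := s.cpt_pos hv
  have h3 := two_le_hit (B := B) (L := L) (s.u_out hL hj hu) (mem_cpt.1 hv).1 hne.symm
  omega

/-- at most three hits of a point on a point. -/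
theorem uh_three (s : Stg B Q T U F P a) {L : Finset V} (hL : L ∈ F) (h1 : L.card = 1) {u : V}
    (hu : u ∈ U) : uh B u L ≤ 3 := by
  obtain ⟨p, rfl⟩ := card_eq_one.1 h1
  have h2 := s.frm.UD hu
  have h3 : u ≠ p := by
    rintro rfl
    exact disjoint_left.1 (s.frm.ge.FU _ hL) (mem_singleton_self u) hu
  have h4 := s.viol.twin (mem_sdiff.1 h2).1 (s.frm.FQ hL (mem_singleton_self p)) h3
  unfold uh
  rw [hit_eq_Ez, sum_singleton]
  refine le_trans (card_le_card fun i hi => ?_) h4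
  obtain ⟨h5, w, hw⟩ := mem_Ez.1 hi
  obtain ⟨h6, h7⟩ := mem_inter.1 hw
  rw [mem_singleton.1 h7] at h6
  exact mem_filter.2 ⟨mem_univ _, h5, h6⟩

/-- the numbers of a leaf of a private composite class. -/
theorem leafC (s : Stg B Q T U F P a) (hga : Ga31 B Q T U F) {L : Finset V} (hL : L ∈ F)
    (hj : j ∈ T) {u : V} (hu : u ∈ U) :
    LeafC L.card (nt B L 1) (Pp B L) (ee B Q L) (fs B Q L) (jh B Q j L)
      (hit B ((Q \ (B j ∩ Q)) \ L) L) (uh B u L) := by
  obtain ⟨pp, slot, m1, mo, n1, no, pt, f0, e0, g0, gn, hh0, p0⟩ := s.one hL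
  have h1 := s.frm.hit_two s.viol.reg hL hj
  have h2 : ((hit B ((Q \ (B j ∩ Q)) \ L) L + jh B Q j L : ℕ) : ℤ) =
      ((∑ j ∈ T, jh B Q j L + hit B U L : ℕ) : ℤ) := by exact_mod_cast h1
  push_cast at h2
  have h3 : (uh B u L : ℤ) ≤ hit B U L := by
    rw [Frm.hit_U_sum]
    exact_mod_cast single_le_sum (f := fun u => uh B u L) (fun _ _ => Nat.zero_le _) hu
  have h4 := s.viol.ee_fs (s.frm.FQ hL)
  have h5 := s.xW_le hL hj hu
  obtain ⟨_, hdv, _⟩ := s.viol.even_dv s.frm hL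
  have hd : L.card = 3 → nt B L 1 = 1 → dv B Q L = -1 ∧ hit B U L ≤ 2 := by
    intro h6 h7
    have h8 : (L.card : ℤ) = 3 := by exact_mod_cast h6
    have h9 : (nt B L 1 : ℤ) = 1 := by exact_mod_cast h7
    rw [h8, h9] at pp
    rw [h9] at gn
    have h10 : hit B U L ≤ 1 := by exact_mod_cast gn
    refine ⟨?_, by omega⟩
    rw [hdv, pp]
    omega
  refine ⟨pp, by linarith, m1, mo, n1, no, pt, e0, p0, fun he => ?_, h4, by linarith,
    by positivity, by positivity, h3.trans gn, fun hm => ?_, by exact_mod_cast h5,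
    fun hm hn => ?_, fun hm hn h4 => ?_⟩
  · exact s.viol.ee_fs7 (s.frm.FQ hL) (by exact_mod_cast he)
  · exact_mod_cast s.uh_three hL (by exact_mod_cast hm) hu
  · obtain ⟨h6, h7⟩ := hd (by exact_mod_cast hm) (by exact_mod_cast hn)
    exact_mod_cast (hga L hL (by exact_mod_cast hm) (by exact_mod_cast hn) h6 j hj).2.1 h7
  · obtain ⟨h6, h7⟩ := hd (by exact_mod_cast hm) (by exact_mod_cast hn)
    have h8 : jh B Q j L = 4 := by exact_mod_cast h4
    exact_mod_cast (hga L hL (by exact_mod_cast hm) (by exact_mod_cast hn) h6 j hj).2.2 h7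
      (le_of_eq h8.symm)

/-- **two point leaves with all hits of a point of `U`**: a second point has many hits. -/
theorem two_points (s : Stg B Q T U F P a) {L M : Finset V} (hL : L ∈ F) (hM : M ∈ F)
    (hLM : L ≠ M) (hj : j ∈ T) {u : V} (hu : u ∈ U) (h3 : uh B u L = 3) (h2 : uh B u M = 2)
    (hd : 1 ≤ dv B Q M) :
    8 ≤ hit B ((Q \ (B j ∩ Q)) \ L) L + hit B ((Q \ (B j ∩ Q)) \ M) M := by
  have hE : ∀ v (L : Finset V), uh B v L = (Ez B L v).card := by
    intro v L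
    unfold uh
    rw [hit_eq_Ez, sum_singleton]
  have h4 := s.xW_le hL hj hu
  have h5 := s.xW_le hM hj hu
  by_contra hcon
  have h6 : hit B ((Q \ (B j ∩ Q)) \ M) M = 3 := by omega
  have h7 : hit B ((Q \ (B j ∩ Q)) \ L) L = 4 := by omega
  have hum : u ∈ cpt B Q j M := by
    refine mem_cpt.2 ⟨s.u_out hM hj hu, ?_⟩
    obtain ⟨i, hi⟩ := card_pos.1 (by rw [← hE]; omega : 0 < (Ez B M u).card)
    exact ⟨i, mem_Ez.1 hi⟩
  have h8 := s.hit_cpt (j := j) (L := M)
  rw [h6, ← add_sum_erase _ _ hum, h2] at h8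
  have h9 := s.viol.cpt_two_le s.frm hj hM
  have h10 : ((cpt B Q j M).erase u).card ≤ ∑ v ∈ (cpt B Q j M).erase u, uh B v M := by
    rw [card_eq_sum_ones]
    exact sum_le_sum fun v hv => s.cpt_pos (mem_of_mem_erase hv)
  have h11 := card_erase_of_mem hum
  have h8' : 3 = 2 + ∑ v ∈ (cpt B Q j M).erase u, uh B v M := h8
  obtain ⟨v, hv⟩ := card_eq_one.1 (by omega : ((cpt B Q j M).erase u).card = 1)
  rw [hv, sum_singleton] at h8
  have hvm : v ∈ (cpt B Q j M).erase u := by rw [hv]; exact mem_singleton_self v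
  obtain ⟨hvu, hvc⟩ := mem_erase.1 hvm
  have hX2 : (cpt B Q j M).card = 2 := by omega
  obtain ⟨hvQ, i0, hi0⟩ := mem_cpt.1 hvc
  have hvL : v ∉ L := fun h =>
    ((s.frm.sepF L hL M hM hLM).2) i0 ⟨v, mem_inter.2 ⟨hi0.1, h⟩⟩ hi0.2
  -- the blocks of `u` which miss `M` meet `L`
  have hdis : Disjoint (Ez B L u) (Ez B M u) := by
    rw [disjoint_left]
    intro i h12 h13
    exact (s.frm.sepF L hL M hM hLM).2 i (mem_Ez.1 h12).2 (mem_Ez.1 h13).2
  have huQ : u ∈ Q := (mem_sdiff.1 (s.frm.UD hu)).1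
  have h14 : Ez B L u ∪ Ez B M u = univ.filter (fun i => u ∈ B i) := by
    refine eq_of_subset_of_card_le (fun i hi => ?_) ?_
    · rcases mem_union.1 hi with h | h
      · exact mem_filter.2 ⟨mem_univ _, (mem_Ez.1 h).1⟩
      · exact mem_filter.2 ⟨mem_univ _, (mem_Ez.1 h).1⟩
    · rw [card_union_of_disjoint hdis, ← hE, ← hE, h3, h2]
      have := s.viol.reg u huQ
      omega
  have h15 : univ.filter (fun i => (v ∈ B i ∧ u ∈ B i) ∧ ¬ (B i ∩ M).Nonempty) ⊆ Ez B L u := by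
    intro i hi
    obtain ⟨_, ⟨h16, h17⟩, h18⟩ := mem_filter.1 hi
    have h19 : i ∈ Ez B L u ∪ Ez B M u := by
      rw [h14]
      exact mem_filter.2 ⟨mem_univ _, h17⟩
    rcases mem_union.1 h19 with h | h
    · exact h
    · exact absurd (mem_Ez.1 h).2 h18
  by_cases h20 : (univ.filter
      (fun i => (v ∈ B i ∧ u ∈ B i) ∧ ¬ (B i ∩ M).Nonempty)).card + hit B {u} M ≤ 4
  · have h21 := s.viol.cpt_two s.frm hj hM hX2 hvc hum hvu
      (by show uh B v M ≤ 1; omega) (by show uh B u M ≤ 3; omega) h20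
    omega
  · have h22 : hit B {u} M = 2 := h2
    rw [h22] at h20
    have h23 : univ.filter (fun i => (v ∈ B i ∧ u ∈ B i) ∧ ¬ (B i ∩ M).Nonempty) = Ez B L u :=
      eq_of_subset_of_card_le h15 (by rw [← hE, h3]; omega)
    have h24 : 3 ≤ uh B v L := by
      rw [hE, ← h3, hE]
      refine card_le_card fun i hi => ?_
      have h25 := hi
      rw [← h23] at h25
      obtain ⟨_, ⟨h16, _⟩, _⟩ := mem_filter.1 h25
      exact mem_Ez.2 ⟨h16, (mem_Ez.1 hi).2⟩
    have h26 := two_le_hit (B := B) (L := L) (s.u_out hL hj hu)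
      (mem_sdiff.2 ⟨(mem_sdiff.1 hvQ).1, hvL⟩) hvu.symm
    omega

/-- the need of a private composite class, in hits. -/
theorem ms_privC (s : Stg B Q T U F P a) {C : Finset (Finset V)} (hC : C ∈ P)
    (hf : ¬ Ful B Q T U F P a C) (hq : aC B Q T U F P C = {j}) (ho : owj B Q U F P a j C = 0)
    (hK : KC B Q T U F C = ∅) (hn : ∑ j ∈ Trs B Q T (Rg B Q T U F) U F P,
        (144 * (jC B Q j C : ℤ) - Xv 149 B Q T U F P j C) ≤
      -5 * ∑ j ∈ Trs B Q T (Rg B Q T U F) U F P, (jC B Q j C : ℤ)) :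
    msC 149 B Q T U F P a C ≤ 144 * (jC B Q j C : ℤ) - 440 -
      480 * ((Sp.Uin U (slf B F) C).card : ℤ) - 120 * ∑ L ∈ C, (Pp B L - 2 * (ee B Q L : ℤ)) -
      160 * (lsC B Q T U F C : ℤ) -
      5 * ∑ j ∈ Trs B Q T (Rg B Q T U F) U F P, (jC B Q j C : ℤ) -
      120 * (gC B U F P C : ℤ) := by
  have h1 := s.card_comp hC hK
  have h3 := s.ms_eq 149 hC
  have h4 := hn
  have h5 := s.gC_le hC hf
  have h7 := s.uin_sum (C := C)
  have how : Sp.owl U (slf B F) P (lj B Q U F P) a j C = 0 := ho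
  unfold KC at hK
  rw [hq, sum_singleton, hK, sum_empty, h7, how] at h3
  have h8 : ∑ L ∈ C, (240 * (ee B Q L : ℤ) - 120 * Pp B L + 120) =
      -120 * ∑ L ∈ C, (Pp B L - 2 * (ee B Q L : ℤ)) + 120 * (C.card : ℤ) := by
    rw [mul_sum, card_eq_sum_ones, Nat.cast_sum, mul_sum, ← sum_add_distrib]
    refine sum_congr rfl fun L _ => ?_
    push_cast
    ring
  have h11 : (C.card : ℤ) = (Sp.Uin U (slf B F) C).card + 1 := by exact_mod_cast h1
  rw [h8, h11] at h3
  push_cast at h3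
  linarith

/-- all hits on a private class. -/
theorem hits_privC (s : Stg B Q T U F P a) {C : Finset (Finset V)} (hC : C ∈ P)
    (hq : aC B Q T U F P C = {j}) (hK : KC B Q T U F C = ∅) :
    ∑ L ∈ C, (hit B ((Q \ (B j ∩ Q)) \ L) L : ℤ) =
      ∑ j ∈ Trs B Q T (Rg B Q T U F) U F P, (jC B Q j C : ℤ) +
        ∑ L ∈ C, (hit B U L : ℤ) := by
  have hjT : j ∈ T := by
    have h1 : j ∈ aC B Q T U F P C := by rw [hq]; exact mem_singleton_self j
    exact (s.tl_sub (mem_filter.1 h1).1).1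
  have hCF := (s.part.ptn.vc C hC).sub
  have h1 : ∑ L ∈ C, ((hit B ((Q \ (B j ∩ Q)) \ L) L : ℤ) + (jh B Q j L : ℤ)) =
      ∑ L ∈ C, (∑ j ∈ T, (jh B Q j L : ℤ) + (hit B U L : ℤ)) := by
    refine sum_congr rfl fun L hL => ?_
    have h2 := s.frm.hit_two s.viol.reg (hCF hL) hjT
    exact_mod_cast h2
  rw [sum_add_distrib, sum_add_distrib] at h1
  have h3 := Frm.sum_T s.part (Rg_sub (B := B)) (fun j => (jC B Q j C : ℤ))
  have h4 : ∑ C' ∈ P, ∑ k ∈ Sp.Kin (Rg B Q T U F) (slj B Q F) C', (jC B Q k C : ℤ) = 0 := by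
    refine sum_eq_zero fun C' hC' => sum_eq_zero fun k hk => ?_
    by_cases hne : C' = C
    · unfold KC at hK
      rw [hne, hK] at hk
      exact absurd hk (notMem_empty _)
    · rw [s.frm.jC_out Rg_sub s.part hC hC' hne hk]
      rfl
  rw [h4, s.frm.sum_atl Rg_sub s.part hC] at h3
  have h5 : Sp.atl (Sp.T2 U (slf B F) (Rg B Q T U F) (slj B Q F) P)
      (Sp.lx U (slf B F) (slj B Q F) P) C = {j} := hq
  rw [h5, sum_singleton] at h3
  have h6 : ∑ j ∈ T, (jC B Q j C : ℤ) = ∑ L ∈ C, ∑ j ∈ T, (jh B Q j L : ℤ) := by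
    unfold jC
    push_cast
    exact sum_comm
  have h7 : (jC B Q j C : ℤ) = ∑ L ∈ C, (jh B Q j L : ℤ) := by
    unfold jC
    push_cast
    rfl
  rw [h6, h7] at h3
  linarith

/-- **what a private composite class needs**. -/
theorem compC (s : Stg B Q T U F P a) (hga : Ga31 B Q T U F) {C : Finset (Finset V)}
    (hC : C ∈ P) (hf : ¬ Ful B Q T U F P a C) (h2 : 2 ≤ C.card)
    (hq : aC B Q T U F P C = {j}) (ho : owj B Q U F P a j C = 0)
    (hK : KC B Q T U F C = ∅) (hn : ∑ j ∈ Trs B Q T (Rg B Q T U F) U F P,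
        (144 * (jC B Q j C : ℤ) - Xv 149 B Q T U F P j C) ≤
      -5 * ∑ j ∈ Trs B Q T (Rg B Q T U F) U F P, (jC B Q j C : ℤ)) (h11 : jC B Q j C ≤ 11) :
    OkC (jC B Q j C) (msC 149 B Q T U F P a C) := by
  have hjT : j ∈ T := by
    have h1 : j ∈ aC B Q T U F P C := by rw [hq]; exact mem_singleton_self j
    exact (s.tl_sub (mem_filter.1 h1).1).1
  have hCF := (s.part.ptn.vc C hC).sub
  have hM := s.ms_privC hC hf hq ho hK hn
  have hW := s.hits_privC hC hq hK
  have hg := s.frm.sum_hitU s.viol.reg s.part hC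
  have hcc := s.card_comp hC hK
  have hw0 : 0 ≤ ∑ j ∈ Trs B Q T (Rg B Q T U F) U F P, (jC B Q j C : ℤ) :=
    sum_nonneg fun _ _ => by positivity
  have hg0 : (0 : ℤ) ≤ (gC B U F P C : ℤ) := by positivity
  have hl0 : (0 : ℤ) ≤ (lsC B Q T U F C : ℤ) := by positivity
  have hh : (jC B Q j C : ℤ) ≤ 11 := by exact_mod_cast h11
  have hD0 : ∀ L ∈ C, 0 ≤ Pp B L - 2 * (ee B Q L : ℤ) := fun L hL => by
    have := (s.one (hCF hL)).p0
    linarith
  have hD : 0 ≤ ∑ L ∈ C, (Pp B L - 2 * (ee B Q L : ℤ)) := sum_nonneg hD0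
  set w := ∑ j ∈ Trs B Q T (Rg B Q T U F) U F P, (jC B Q j C : ℤ) with hwd
  rcases (by omega : (Sp.Uin U (slf B F) C).card = 1 ∨ (Sp.Uin U (slf B F) C).card = 2 ∨
    3 ≤ (Sp.Uin U (slf B F) C).card) with hp | hp | hp
  · -- one inside point
    obtain ⟨L1, L2, hne, hC2⟩ := card_eq_two.1 (by omega : C.card = 2)
    obtain ⟨u, hu⟩ := card_eq_one.1 hp
    have huin : u ∈ Sp.Uin U (slf B F) C := by rw [hu]; exact mem_singleton_self u
    have huU : u ∈ U := (mem_filter.1 huin).1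
    have hL1 : L1 ∈ F := hCF (by rw [hC2]; simp)
    have hL2 : L2 ∈ F := hCF (by rw [hC2]; simp)
    have h3 := s.frm.uC_in s.viol.reg s.part hC huin
    have h4 : (lsC B Q T U F C : ℤ) = uo B Q T U F u := by
      unfold lsC
      rw [hu, sum_singleton]
    have h5 : (uC B u C : ℤ) = uh B u L1 + uh B u L2 := by
      unfold uC
      rw [hC2, sum_pair hne]
      push_cast
      rfl
    have h6 : (jC B Q j C : ℤ) = jh B Q j L1 + jh B Q j L2 := by
      unfold jC
      rw [hC2, sum_pair hne]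
      push_cast
      rfl
    rw [hp] at hM hg
    have hsum : ∀ f : Finset V → ℤ, ∑ L ∈ C, f L = f L1 + f L2 := fun f => by
      rw [hC2, sum_pair hne]
    rw [hsum] at hM hg
    rw [hsum, hsum] at hW
    have A1 := s.leafC hga hL1 hjT huU
    have A2 := s.leafC hga hL2 hjT huU
    rw [h6] at hM ⊢
    refine comp2 (w := w) (g := (gC B U F P C : ℤ)) (ls := (lsC B Q T U F C : ℤ)) A1 A2
      ?_ hl0 ?_ hw0 hg0 ?_ (by rw [← h6]; exact hh) ?_
    · linarith
    · push_cast at hg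
      linarith
    · push_cast at hM
      linarith
    · intro m1 m2 e1 e2 h7
      have hd : ∀ L ∈ F, (L.card : ℤ) = 1 → (ee B Q L : ℤ) = 0 → 1 ≤ dv B Q L := by
        intro L hL m1 e1
        obtain ⟨_, hdv, _⟩ := s.viol.even_dv s.frm hL
        have h8 := s.one hL
        rw [hdv, h8.pp, e1, m1, h8.pt m1]
        norm_num
      have h8 := A1.x3 m1
      have h9 := A2.x3 m2
      have h10 : (uh B u L1 = 3 ∧ uh B u L2 = 2) ∨ (uh B u L2 = 3 ∧ uh B u L1 = 2) := by omega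
      push_cast at hg
      rcases h10 with ⟨h10, h12⟩ | ⟨h10, h12⟩
      · have h13 := s.two_points hL1 hL2 hne hjT huU h10 h12 (hd L2 hL2 m2 e2)
        have h14 : (8 : ℤ) ≤ hit B ((Q \ (B j ∩ Q)) \ L1) L1 + hit B ((Q \ (B j ∩ Q)) \ L2) L2 := by
          exact_mod_cast h13
        linarith
      · have h13 := s.two_points hL2 hL1 hne.symm hjT huU h10 h12 (hd L1 hL1 m1 e1)
        have h14 : (8 : ℤ) ≤ hit B ((Q \ (B j ∩ Q)) \ L2) L2 + hit B ((Q \ (B j ∩ Q)) \ L1) L1 := by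
          exact_mod_cast h13
        linarith
  · -- two inside points
    rw [hp] at hM hg
    have h3 : (jC B Q j C : ℤ) = 11 → msC 149 B Q T U F P a C ≤ 169 := by
      intro h4
      rw [h4] at hM
      push_cast at hM hg
      rcases (by omega : 1 ≤ ∑ L ∈ C, (Pp B L - 2 * (ee B Q L : ℤ)) ∨
        ∑ L ∈ C, (Pp B L - 2 * (ee B Q L : ℤ)) = 0) with h5 | h5
      · linarith
      have h6 := (sum_eq_zero_iff_of_nonneg hD0).1 h5
      have h7 : ∑ L ∈ C, (hit B U L : ℤ) ≤ ∑ _L ∈ C, (3 : ℤ) := by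
        refine sum_le_sum fun L hL => ?_
        have hLF := hCF hL
        obtain ⟨pp, slot, m1, mo, n1, no, pt, f0, e0, g0, gn, hh0, p0⟩ := s.one hLF
        exact leaf3 (e := (ee B Q L : ℤ)) (f := (fs B Q L : ℤ)) pp (by linarith) m1 mo n1 no pt
          e0 (fun he => s.viol.ee_fs7 (s.frm.FQ hLF) (by exact_mod_cast he))
          (s.viol.ee_fs (s.frm.FQ hLF)) hh0 gn (by have := h6 L hL; linarith)
      rw [sum_const, nsmul_eq_mul, hcc, hp] at h7
      push_cast at h7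
      linarith
    unfold OkC
    have h4 : (0 : ℤ) ≤ (jC B Q j C : ℤ) := by positivity
    push_cast at hM
    rcases (by omega : (jC B Q j C : ℤ) ≤ 8 ∨ (jC B Q j C : ℤ) = 9 ∨ (jC B Q j C : ℤ) = 10 ∨
      (jC B Q j C : ℤ) = 11) with h5 | h5 | h5 | h5
    · exact Or.inl (by linarith)
    · exact Or.inr (Or.inr (Or.inr (Or.inr (Or.inl ⟨h5, by linarith⟩))))
    · exact Or.inr (Or.inr (Or.inr (Or.inr (Or.inr (Or.inl ⟨h5, by linarith⟩)))))
    · exact Or.inr (Or.inr (Or.inr (Or.inr (Or.inr (Or.inr ⟨h5, h3 h5⟩)))))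
  · have h3 : (3 : ℤ) ≤ ((Sp.Uin U (slf B F) C).card : ℤ) := by exact_mod_cast hp
    exact Or.inl (by linarith)

end Stg

namespace StgR

variable {Q U : Finset V} {T : Finset ι} {F : Finset (Finset V)}
  {P : Finset (Finset (Finset V))} {a : V → Finset (Finset V) → ℕ} {j : ι}

/-- **what a private composite class on a line with two classes needs**, if the remaining triples pay
`149` for every hit. -/
theorem okC' (s : StgR B Q T U F P a) (hga : Ga31 B Q T U F) (hj : j ∈ tl B Q T U F P)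
    {C D : Finset (Finset V)} (hCD : C ≠ D) (hl : lj B Q U F P j = {C, D})
    (hq : (aC B Q T U F P C).card = 1) (hf : ¬ Ful B Q T U F P a C) (h2 : 2 ≤ C.card)
    (hK : KC B Q T U F C = ∅) (hn : ∑ j ∈ Trs B Q T (Rg B Q T U F) U F P,
        (144 * (jC B Q j C : ℤ) - Xv 149 B Q T U F P j C) ≤
      -5 * ∑ j ∈ Trs B Q T (Rg B Q T U F) U F P, (jC B Q j C : ℤ)) :
    OkC (jC B Q j C) (ndF B Q T U F P a C) := by
  have hC : C ∈ P := s.lnf.sub j hj (by rw [hl]; simp)
  have hjA : j ∈ aC B Q T U F P C := Sp.mem_atl.2 ⟨hj, by rw [hl]; simp⟩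
  have hqj : aC B Q T U F P C = {j} := by
    obtain ⟨k, hk⟩ := card_eq_one.1 hq
    rw [hk] at hjA ⊢
    rw [mem_singleton.1 hjA]
  have h3 := s.toStg.jC_two hj hCD hl
  have h4 := s.pair_ncl hj hCD hl
  have hnd : ndF B Q T U F P a C = msC 149 B Q T U F P a C := s.toStg.ndC_eq hK
  rw [hnd]
  exact s.toStg.compC hga hC hf h2 hqj (s.owj_thin hj (by rw [hl, card_pair hCD]) C) hK hn
    (by omega)

/-- **what a private composite class on a line with two classes needs**. -/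
theorem okC (s : StgR B Q T U F P a) (hga : Ga31 B Q T U F) (hj : j ∈ tl B Q T U F P)
    {C D : Finset (Finset V)} (hCD : C ≠ D) (hl : lj B Q U F P j = {C, D})
    (hq : (aC B Q T U F P C).card = 1) (hf : ¬ Ful B Q T U F P a C) (h2 : 2 ≤ C.card)
    (hK : KC B Q T U F C = ∅) (hn : NCt B Q T U F P C) :
    OkC (jC B Q j C) (ndF B Q T U F P a C) :=
  s.okC' hga hj hCD hl hq hf h2 hK
    (s.toStg.trs_sum_le (s.lnf.sub j hj (by rw [hl]; simp)) hn)

/-- **a private composite class** whose remaining triples pay `149` for every hit. -/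
theorem nd_pmC' (s : StgR B Q T U F P a) (hga : Ga31 B Q T U F) (hj : j ∈ tl B Q T U F P)
    {C D : Finset (Finset V)} (hCD : C ≠ D) (hl : lj B Q U F P j = {C, D})
    (hq : aC B Q T U F P D = {j}) (hf : ¬ Ful B Q T U F P a D) (h2 : 2 ≤ D.card)
    (hK : KC B Q T U F D = ∅) (hn : ∑ j ∈ Trs B Q T (Rg B Q T U F) U F P,
        (144 * (jC B Q j D : ℤ) - Xv 149 B Q T U F P j D) ≤
      -5 * ∑ j ∈ Trs B Q T (Rg B Q T U F) U F P, (jC B Q j D : ℤ)) :
    ndF B Q T U F P a D ≤ pmC (jC B Q j D) :=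
  pmC_of (s.okC' hga hj hCD.symm (by rw [hl, pair_comm]) (by rw [hq, card_singleton]) hf h2 hK hn)

/-- **a private composite class without centre**, in the form of the last step. -/
theorem nd_pmC (s : StgR B Q T U F P a) (hga : Ga31 B Q T U F) (hj : j ∈ tl B Q T U F P)
    {C D : Finset (Finset V)} (hCD : C ≠ D) (hl : lj B Q U F P j = {C, D})
    (hq : aC B Q T U F P D = {j}) (hf : ¬ Ful B Q T U F P a D) (h2 : 2 ≤ D.card)
    (hK : KC B Q T U F D = ∅) (hn : NCt B Q T U F P D) :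
    ndF B Q T U F P a D ≤ pmC (jC B Q j D) :=
  pmC_of (s.okC hga hj hCD.symm (by rw [hl, pair_comm]) (by rw [hq, card_singleton]) hf h2 hK hn)

/-- **the private class is composite, without centre**: the rest at the other end. -/
theorem rest_comp (s : StgR B Q T U F P a) (hga : Ga31 B Q T U F) (hj : j ∈ tl B Q T U F P)
    {C D : Finset (Finset V)} (hCD : C ≠ D) (hl : lj B Q U F P j = {C, D})
    (hq : (aC B Q T U F P C).card = 1) (hf : ¬ Ful B Q T U F P a C) (h2 : 2 ≤ C.card)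
    (hK : KC B Q T U F C = ∅) (hn : NCt B Q T U F P C) :
    payT (ncl B Q T U F P j) (jC B Q j C) (jC B Q j D) ≤
      8 * sT B Q T U F 15 j + tF B Q T U F P j - 1120 - ndF B Q T U F P a C := by
  obtain ⟨h3, h4⟩ := s.toStg.jC_two hj hCD hl
  rw [s.rest_eq hj hCD hl]
  exact pay_comp (s.okC hga hj hCD hl hq hf h2 hK hn) h3 h4 (s.pair_ncl hj hCD hl)
    (Stg.tF_ge j) (s.hc3 hj hCD hl)

/-- a line with a private composite class without centre and another private class. -/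
theorem two_comp_one (s : StgR B Q T U F P a) (hga : Ga31 B Q T U F)
    (hj : j ∈ tl B Q T U F P) {C D : Finset (Finset V)} (hCD : C ≠ D)
    (hl : lj B Q U F P j = {C, D}) (hq : (aC B Q T U F P C).card = 1)
    (hf : ¬ Ful B Q T U F P a C) (h2 : 2 ≤ C.card) (hK : KC B Q T U F C = ∅)
    (hn : NCt B Q T U F P C)
    (hD : ndF B Q T U F P a D ≤ payT (ncl B Q T U F P j) (jC B Q j C) (jC B Q j D)) :
    ndF B Q T U F P a C + ndF B Q T U F P a D ≤
      8 * sT B Q T U F 15 j + tF B Q T U F P j - 1120 := by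
  have h3 := s.rest_comp hga hj hCD hl hq hf h2 hK hn
  linarith

/-- **a line with two private composite classes without centre**. -/
theorem two_comp_two (s : StgR B Q T U F P a) (hga : Ga31 B Q T U F)
    (hj : j ∈ tl B Q T U F P) {C D : Finset (Finset V)} (hCD : C ≠ D)
    (hl : lj B Q U F P j = {C, D}) (hq : (aC B Q T U F P C).card = 1)
    (hf : ¬ Ful B Q T U F P a C) (h2 : 2 ≤ C.card) (hK : KC B Q T U F C = ∅)
    (hn : NCt B Q T U F P C) (hq' : (aC B Q T U F P D).card = 1)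
    (hf' : ¬ Ful B Q T U F P a D) (h2' : 2 ≤ D.card) (hK' : KC B Q T U F D = ∅)
    (hn' : NCt B Q T U F P D) :
    ndF B Q T U F P a C + ndF B Q T U F P a D ≤
      8 * sT B Q T U F 15 j + tF B Q T U F P j - 1120 := by
  obtain ⟨h3, h4⟩ := s.toStg.jC_two hj hCD hl
  have h5 := two_comp (s.okC hga hj hCD hl hq hf h2 hK hn)
    (s.okC hga hj hCD.symm (by rw [hl, pair_comm]) hq' hf' h2' hK' hn') h3 h4
    (s.pair_ncl hj hCD hl) (Stg.tF_ge j) (s.hc3 hj hCD hl)
  have h6 := s.rest_eq (a := a) hj hCD hl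
  linarith

end StgR

end Pool.Agent.Hyp6
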