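import Pool.Agent.Hyp6.L3Yh
import Pool.Agent.Hyp6.L3L2

/-!
# HYP6 L3T6: single leaves with inside triples

`StgR.nC_one`: the numbers of a leaf which is its own class, with its inside triples and their claims.
`NK.D0`, `NK.DN`: its need is not positive. `StgR.D0_one`, `StgR.DN_one`: the lines `D0`, `DN` of `finT`
at single leaves.
-/

set_option autoImplicit false

namespace Pool.Agent.Hyp6

open Finset Pool.Agent.Hyp5 Rt

universe u v

/-- the numbers of a leaf which is its own class with inside triples: need `N`, `q` line triples with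
hits `t`, `b` centred triples with `S` hits of their pairs, `w` other hits of the remaining triples, `k`
inside triples with hits `X` and `c` claims, `y` own hits. -/
structure NK (N p n m f e g t S w q b k X c : ℤ) : Prop where
  num : NumL p n m f e g (t + S + w + X)
  up : N ≤ 144 * t - 399 * q + 160 * S - 584 * b - 5 * w - 5 * g + 240 * e - 120 * p + 120 +
    (160 * X - 1320 * k) + 80 * c
  ef : 11 * e ≤ 2 * f
  xc : 16 * X + 80 * c ≤ 576 * k
  tw : X + c ≤ 12 * k
  S8 : S ≤ 8 * b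
  t0 : 0 ≤ t
  S0 : 0 ≤ S
  w0 : 0 ≤ w
  q0 : 0 ≤ q
  b0 : 0 ≤ b
  k1 : 1 ≤ k
  X0 : 0 ≤ X
  c0 : 0 ≤ c
  qt : q = 0 → t = 0
  ne : 2 * e ≤ n

namespace NK

variable {N p n m f e g t S w q b k X c : ℤ}

/-- the bound by the places. -/
theorem le (h : NK N p n m f e g t S w q b k X c) :
    N ≤ 1440 - 24 * n + 16 * S - 584 * b - 149 * w - 149 * g - 144 * f + 240 * e - 399 * q +
      16 * X + 80 * c - 1320 * k := by
  have h1 := h.up
  have h2 := h.num.slot
  linarith [h.num.pp]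

/-- **at least two line triples**. -/
theorem DN (h : NK N p n m f e g t S w q b k X c) (hq : 2 ≤ q) : N ≤ 0 := by
  have h0 := h.le
  obtain ⟨⟨h1, h2, h3, h4, h5, h6, h7, h8, h9, h10, h11, h12, h13⟩, _, h16, h17, h18, h19, h20,
    h21, h22, h23, h24, h26, h27, h25, hqt, hne⟩ := id h
  linarith

/-- **no line triple**. -/
theorem D0 (h : NK N p n m f e g t S w q b k X c) (hq : q = 0)
    (hp : b = 0 → k = 1 → m = 1 → X ≤ 6)
    (h31 : b = 0 → k = 1 → m = 3 → n = 1 → X ≤ 5 ∧ (X + c ≤ 8 ∨ c ≤ 4))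
    (h33 : b = 0 → k = 1 → m = 3 → n = 3 → e = 0 → X ≤ 7)
    {w2 : ℤ} (hw2 : b = 1 → k = 1 → w2 ≤ w + g ∧ Few2 (p - 1 - 2 * e) (S + w + X + g - w2) w2) :
    N ≤ 0 := by
  have h0 := h.le
  obtain ⟨⟨h1, h2, h3, h4, h5, h6, h7, h8, h9, h10, h11, h12, h13⟩, _, h16, h17, h18, h19, h20,
    h21, h22, h23, h24, h26, h27, h25, hqt, hne⟩ := id h
  obtain rfl := hqt hq
  subst hq
  clear hqt
  rcases (by omega : 2 ≤ k ∨ k = 1) with hk | rfl
  · linarith
  rcases (by omega : 2 ≤ b ∨ b = 1 ∨ b = 0) with hb | rfl | rfl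
  · linarith
  · obtain ⟨h30, a1, a2, a3, a4⟩ := hw2 rfl rfl
    clear hp h31 h33 hw2
    rcases (by omega : 1 ≤ e ∨ e = 0) with he | rfl
    · linarith
    rcases (by omega : 2 ≤ w + g ∨ w + g ≤ 1) with h33 | h33
    · linarith
    rcases (by omega : p = 0 ∨ p = 2 ∨ 4 ≤ p) with hp | hp | hp
    · have := a1 (by omega) (by omega)
      linarith
    · have b1 := a2 (by omega) (by omega)
      have h40 : m = 1 ∧ n = 5 := by omega
      rcases (by omega : w2 ≤ 0 ∨ w2 = 1) with h41 | h41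
      · have b2 := a3 (by omega) h41
        linarith
      · linarith
    · have := a4 (by omega)
      omega
  · obtain rfl : S = 0 := by omega
    clear hw2
    rcases (by omega : 2 ≤ e ∨ e = 1 ∨ e = 0) with he | rfl | rfl
    · linarith
    · have h40 : 6 ≤ f := by omega
      have h41 : 3 ≤ n := by omega
      linarith
    rcases (by omega : m = 1 ∨ m = 3 ∧ n = 1 ∨ m = 3 ∧ n = 3 ∨ (m = 3 ∧ 5 ≤ n) ∨ 5 ≤ m) with
      hm | ⟨hm, hn⟩ | ⟨hm, hn⟩ | ⟨hm, hn⟩ | hm
    · have := hp rfl rfl hm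
      have := h7 hm
      linarith
    · obtain ⟨h34, h35 | h35⟩ := h31 rfl rfl hm hn
      · linarith
      · linarith
    · have := h33 rfl rfl hm hn rfl
      linarith
    · linarith
    · linarith

end NK

variable {V : Type v} [DecidableEq V] {ι : Type u} [Fintype ι] [DecidableEq ι]
  {B : ι → Finset V}

omit [DecidableEq ι] in
theorem cJ_le {Q U : Finset V} {F : Finset (Finset V)} {P : Finset (Finset (Finset V))} (j : ι)
    (C : Finset (Finset V)) : cJ B Q U F P j C ≤ 144 * (jC B Q j C : ℤ) - 399 := by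
  unfold cJ
  split_ifs with h
  · have h1 : -161 ≤ pm (jC B Q j C) := by
      unfold pm
      split_ifs <;> omega
    linarith
  · have h1 : 399 ≤ sF (jC B Q j C) := by
      unfold sF
      split_ifs <;> omega
    linarith

namespace StgR

variable {Q U : Finset V} {T : Finset ι} {F : Finset (Finset V)}
  {P : Finset (Finset (Finset V))} {a : V → Finset (Finset V) → ℕ} {L : Finset V}

/-- **the numbers of a single leaf with inside triples**. -/
theorem nk (s : StgR B Q T U F P a) (hL : {L} ∈ P) (hK : (KC B Q T U F {L}).Nonempty) :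
    NK (∑ j ∈ aC B Q T U F P {L}, cJ B Q U F P j {L} + nC B Q T U F P {L})
      (Pp B L) (nt B L 1) L.card (fs B Q L) (ee B Q L)
      (hit B U L) (∑ j ∈ aC B Q T U F P {L}, (jh B Q j L : ℤ))
      (∑ j ∈ Bs B Q T U F P L, (sB B Q F j L : ℤ))
      (∑ j ∈ Trs B Q T (Rg B Q T U F) U F P, (jh B Q j L : ℤ) -
        ∑ j ∈ Bs B Q T U F P L, (sB B Q F j L : ℤ))
      (aC B Q T U F P {L}).card (Bs B Q T U F P L).card
      (KC B Q T U F {L}).card (∑ k ∈ KC B Q T U F {L}, (jh B Q k L : ℤ))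
      (∑ k ∈ KC B Q T U F {L}, (ncl B Q T U F P k : ℤ)) := by
  have hLF := s.toStg.leafF hL
  have h1 := s.toStg.one hLF
  have h2 := s.toStg.sum_jh hL
  have h4 := s.toStg.sum_terms hL
  have h5 := s.toStg.kin_term hL
  have h7 : ∑ k ∈ KC B Q T U F {L}, (16 * (jh B Q k L : ℤ) + 80 * (ncl B Q T U F P k : ℤ)) ≤
      ∑ k ∈ KC B Q T U F {L}, (576 : ℤ) := sum_le_sum fun k hk => s.kin_cl hL hk
  rw [sum_const, nsmul_eq_mul, sum_add_distrib, ← mul_sum, ← mul_sum] at h7
  have h8 : ∑ k ∈ KC B Q T U F {L}, ((jh B Q k L : ℤ) + (ncl B Q T U F P k : ℤ)) ≤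
      ∑ k ∈ KC B Q T U F {L}, (12 : ℤ) := by
    refine sum_le_sum fun k hk => ?_
    have h9 := s.twelve_ncl (s.toStg.kin.1 hk).1
    have h10 : jh B Q k L ≤ ∑ L ∈ F, jh B Q k L :=
      single_le_sum (f := fun L => jh B Q k L) (fun _ _ => Nat.zero_le _) hLF
    exact_mod_cast (Nat.add_le_add_right h10 _).trans h9
  rw [sum_const, nsmul_eq_mul, sum_add_distrib] at h8
  have h9 : (∑ j ∈ Bs B Q T U F P L, (sB B Q F j L : ℤ)) ≤
      8 * ((Bs B Q T U F P L).card : ℤ) := by
    have h10 : ∀ j ∈ Bs B Q T U F P L, (sB B Q F j L : ℤ) ≤ 8 := fun j hj => by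
      exact_mod_cast s.toStg.sB_eight hLF hj
    have h11 := sum_le_sum h10
    rw [sum_const, nsmul_eq_mul] at h11
    linarith
  have h10 : (∑ j ∈ Bs B Q T U F P L, (sB B Q F j L : ℤ)) ≤
      ∑ j ∈ Trs B Q T (Rg B Q T U F) U F P, (jh B Q j L : ℤ) := by
    refine (sum_le_sum fun j _ => (by exact_mod_cast s.toStg.sB_le :
      (sB B Q F j L : ℤ) ≤ jh B Q j L)).trans ?_
    exact sum_le_sum_of_subset_of_nonneg Bs_sub fun _ _ _ => by positivity
  have h11 : ∑ j ∈ aC B Q T U F P {L}, cJ B Q U F P j {L} ≤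
      144 * ∑ j ∈ aC B Q T U F P {L}, (jh B Q j L : ℤ) -
        399 * ((aC B Q T U F P {L}).card : ℤ) := by
    have h12 : ∑ j ∈ aC B Q T U F P {L}, cJ B Q U F P j {L} ≤
        ∑ j ∈ aC B Q T U F P {L}, (144 * (jh B Q j L : ℤ) - 399) :=
      sum_le_sum fun j _ => by
        have h13 := cJ_le (B := B) (Q := Q) (U := U) (F := F) (P := P) j {L}
        rwa [s.toStg.jC_one] at h13
    rw [sum_sub_distrib, sum_const, nsmul_eq_mul, ← mul_sum] at h12
    linarith
  have h14 : nC B Q T U F P {L} =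
      ∑ j ∈ Trs B Q T (Rg B Q T U F) U F P,
        (144 * (jh B Q j L : ℤ) - Xv 149 B Q T U F P j {L}) -
      5 * (hit B U L : ℤ) + (240 * (ee B Q L : ℤ) - 120 * Pp B L + 120) +
      (∑ k ∈ KC B Q T U F {L},
        (600 - 160 * ((jn B Q (Ep B Q T U F) k : ℤ) + jb B Q T U k)) +
        80 * ∑ k ∈ KC B Q T U F {L}, (ncl B Q T U F P k : ℤ)) := by
    have h15 : ∑ k ∈ KC B Q T U F {L},
        (600 - 160 * ((jn B Q (Ep B Q T U F) k : ℤ) + jb B Q T U k) - tF B Q T U F P k) =
        ∑ k ∈ KC B Q T U F {L},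
        (600 - 160 * ((jn B Q (Ep B Q T U F) k : ℤ) + jb B Q T U k)) +
        80 * ∑ k ∈ KC B Q T U F {L}, (ncl B Q T U F P k : ℤ) := by
      rw [mul_sum, ← sum_add_distrib]
      refine sum_congr rfl fun k hk => ?_
      rw [s.tF_kin hL hk]
      ring
    unfold nC
    rw [h15, s.toStg.uin_one, sum_empty, sum_singleton, s.toStg.gC_one hL, sub_zero]
    simp only [s.toStg.jC_one]
  refine ⟨?_, ?_, s.viol.ee_fs (s.frm.FQ hLF), by linarith, by linarith, h9,
    sum_nonneg fun _ _ => by positivity, sum_nonneg fun _ _ => by positivity, by linarith,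
    by positivity, by positivity, ?_, sum_nonneg fun _ _ => by positivity,
    sum_nonneg fun _ _ => by positivity, fun hq => ?_, by exact_mod_cast s.toStg.two_ee_nt hLF⟩
  · have e1 : ∑ j ∈ aC B Q T U F P {L}, (jh B Q j L : ℤ) +
        ∑ j ∈ Bs B Q T U F P L, (sB B Q F j L : ℤ) +
        (∑ j ∈ Trs B Q T (Rg B Q T U F) U F P, (jh B Q j L : ℤ) -
          ∑ j ∈ Bs B Q T U F P L, (sB B Q F j L : ℤ)) +
        ∑ k ∈ KC B Q T U F {L}, (jh B Q k L : ℤ) = ∑ j ∈ T, (jh B Q j L : ℤ) := by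
      rw [h2]
      ring
    rw [e1]
    exact h1
  · rw [h14, h5]
    have h16 : (0 : ℤ) ≤ ∑ j ∈ Bs B Q T U F P L, (pB B Q T U F P j L : ℤ) :=
      sum_nonneg fun _ _ => by positivity
    linarith
  · exact_mod_cast card_pos.2 hK
  · have e1 : aC B Q T U F P {L} = ∅ := card_eq_zero.1 (by exact_mod_cast hq)
    rw [e1, sum_empty]

/-- **the line `DN` at single leaves**. -/
theorem DN_one (s : StgR B Q T U F P a) (hL : {L} ∈ P) (hf : ¬ Ful B Q T U F P a {L})
    (h2 : 2 ≤ (aC B Q T U F P {L}).card) (hK : (KC B Q T U F {L}).Nonempty) :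
    NdOk B Q T U F P a {L} :=
  s.nd_ok hL hf fun _ => (s.nk hL hK).DN (by exact_mod_cast h2)

/-- **the line `D0` at single leaves**. -/
theorem D0_one (s : StgR B Q T U F P a) (hF : Few B Q T F) (hga : Ga31 B Q T U F)
    (hL : {L} ∈ P)
    (hf : ¬ Ful B Q T U F P a {L}) (h0 : (aC B Q T U F P {L}).card = 0)
    (hK : (KC B Q T U F {L}).Nonempty) : ndF B Q T U F P a {L} ≤ 0 := by
  have hLF := s.toStg.leafF hL
  have hA : aC B Q T U F P {L} = ∅ := card_eq_zero.1 h0
  have h := s.nk hL hK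
  have hn : ∑ j ∈ aC B Q T U F P {L}, cJ B Q U F P j {L} + nC B Q T U F P {L} ≤ 0 := by
    by_cases hk1 : (KC B Q T U F {L}).card = 1
    swap
    · exact h.D0 (by exact_mod_cast h0) (fun _ hk => absurd (by exact_mod_cast hk) hk1)
        (fun _ hk => absurd (by exact_mod_cast hk) hk1)
        (fun _ hk => absurd (by exact_mod_cast hk) hk1) (w2 := 0)
        (fun _ hk => absurd (by exact_mod_cast hk) hk1)
    obtain ⟨k, hk⟩ := card_eq_one.1 hk1
    have hkK : k ∈ KC B Q T U F {L} := by rw [hk]; exact mem_singleton_self k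
    have hkT := (s.toStg.kin.1 hkK).1
    have hdv := s.toStg.dv_W hLF
    obtain ⟨hev, hdv', hd1⟩ := s.viol.even_dv s.frm hLF
    have hw2 : ∃ w2 : ℤ, (((Bs B Q T U F P L).card : ℤ) = 1 →
        (((KC B Q T U F {L}).card : ℕ) : ℤ) = 1 →
        w2 ≤ (∑ j ∈ Trs B Q T (Rg B Q T U F) U F P, (jh B Q j L : ℤ) -
          ∑ j ∈ Bs B Q T U F P L, (sB B Q F j L : ℤ)) + hit B U L ∧
        Few2 (Pp B L - 1 - 2 * ee B Q L)
          (∑ j ∈ Bs B Q T U F P L, (sB B Q F j L : ℤ) +
            (∑ j ∈ Trs B Q T (Rg B Q T U F) U F P, (jh B Q j L : ℤ) -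
              ∑ j ∈ Bs B Q T U F P L, (sB B Q F j L : ℤ)) +
            ∑ k ∈ KC B Q T U F {L}, (jh B Q k L : ℤ) + hit B U L - w2) w2) := by
      by_cases hb : (Bs B Q T U F P L).card = 1
      swap
      · exact ⟨0, fun h1 => absurd (by exact_mod_cast h1) hb⟩
      obtain ⟨j, hj⟩ := card_eq_one.1 hb
      have hjB : j ∈ Bs B Q T U F P L := by rw [hj]; exact mem_singleton_self j
      have hjT := (mem_Bs.1 hjB).1
      have hjT' := (s.frm.types_trs s.part hjT).1
      have hjk : j ≠ k := by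
        rintro rfl
        exact (mem_sdiff.1 (mem_sdiff.1 hjT).1).2 (mem_biUnion.2 ⟨{L}, hL, hkK⟩)
      obtain ⟨w2, h3, h4⟩ := s.toStg.few2 hF hLF hjT' hkT hjk
      refine ⟨w2, fun _ _ => ?_⟩
      have h5 := s.toStg.sum_jh hL
      have h6 : (sB B Q F j L : ℤ) ≤ jh B Q j L := by exact_mod_cast s.toStg.sB_le
      rw [hA, sum_empty, zero_add] at h5
      have h7 : ∑ k ∈ Sp.Kin (Rg B Q T U F) (slj B Q F) {L}, (jh B Q k L : ℤ) =
          jh B Q k L := by
        have h8 : Sp.Kin (Rg B Q T U F) (slj B Q F) {L} = {k} := hk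
        rw [h8, sum_singleton]
      rw [h7] at h5
      constructor
      · rw [h4, h5, hj, sum_singleton]
        linarith
      · have h9 : ∑ j ∈ Bs B Q T U F P L, (sB B Q F j L : ℤ) +
            (∑ j ∈ Trs B Q T (Rg B Q T U F) U F P, (jh B Q j L : ℤ) -
              ∑ j ∈ Bs B Q T U F P L, (sB B Q F j L : ℤ)) +
            ∑ k ∈ KC B Q T U F {L}, (jh B Q k L : ℤ) + hit B U L - w2 =
            ∑ j ∈ T, (jh B Q j L : ℤ) + hit B U L - w2 := by
          rw [h5, hk, sum_singleton]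
          ring
        rw [h9]
        exact h3
    obtain ⟨w2, hw2⟩ := hw2
    refine h.D0 (by exact_mod_cast h0) (fun _ _ hm => ?_) (fun _ _ hm hn1 => ?_)
      (fun _ _ hm hn1 he => ?_) hw2
    · rw [hk, sum_singleton]
      exact_mod_cast s.le_six hL hkT (by exact_mod_cast hm)
    · have hm' : L.card = 3 := by exact_mod_cast hm
      have hn' : nt B L 1 = 1 := by exact_mod_cast hn1
      have h3 := h.num.pp
      have h4 := h.num.p0
      have h5 := h.num.e0
      have hd : dv B Q L = -1 := by omega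
      have h6 : jh B Q k L ≤ 5 := (hga L hLF hm' hn' hd k hkT).1
      rw [hk, sum_singleton, sum_singleton]
      refine ⟨by exact_mod_cast h6, ?_⟩
      have h7 : jh B Q k L ≤ ∑ L ∈ F, jh B Q k L :=
        single_le_sum (f := fun L => jh B Q k L) (fun _ _ => Nat.zero_le _) hLF
      rcases Nat.eq_zero_or_pos (ncl B Q T U F P k) with h8 | h8
      · right
        rw [h8]
        norm_num
      · rcases s.four_or_eight hkT h8 with ⟨v, hv, _, _, h9⟩ | h9
        · right
          omega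
        · left
          omega
    · have hm' : L.card = 3 := by exact_mod_cast hm
      have he' : ee B Q L = 0 := by exact_mod_cast he
      have h3 := h.num.pp
      have hd : dv B Q L = 3 := by
        rw [hdv, h3, hn1, hm, he]
        norm_num
      have h4 : rho B L = 2 := by
        have h5 := s.frm.sv_leaf hLF
        unfold sv at h5
        rw [hm'] at h5
        omega
      have h5 : cm B L = 9 := by
        unfold dv at hd
        rw [he', Hyp6.Pv_eq, hm', h4] at hd
        push_cast at hd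
        have h6 : (cm B L : ℤ) = 9 := by linarith
        exact_mod_cast h6
      rw [hk, sum_singleton]
      exact_mod_cast s.viol.le7 s.frm hkT hLF hm' h5
  have h3 := s.nd_ok hL hf fun _ => hn
  have h4 := h3 (fun _ => 0) (by rw [hA]; simp) (by rw [hA]; simp)
  rw [hA, sum_empty] at h4
  exact h4

end StgR

end Pool.Agent.Hyp6
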