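import Pool.Agent.Hyp6.L3Last
import Pool.Agent.Hyp6.L3T6
import Pool.Agent.Hyp6.L3Nq

/-!
# HYP6 L3Lu: the last step, single leaves and composite private ends without centre filled in
-/

set_option autoImplicit false

namespace Pool.Agent.Hyp6

open Finset Pool.Agent.Hyp5 Rt

universe u v

variable {V : Type v} [DecidableEq V] {ι : Type u} [Fintype ι] [DecidableEq ι]
  {B : ι → Finset V}

namespace StgR

variable {Q U : Finset V} {T : Finset ι} {F : Finset (Finset V)}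
  {P : Finset (Finset (Finset V))} {a : V → Finset (Finset V) → ℕ}

/-- the private ends, from the composite classes with a centre and with inside triples. -/
theorem PC_of (s : StgR B Q T U F P a) (hF : Few B Q T F) (hga : Ga31 B Q T U F)
    (PE : ∀ j ∈ tl B Q T U F P, ∀ C D, C ≠ D → lj B Q U F P j = {C, D} →
      aC B Q T U F P D = {j} → ¬ Ful B Q T U F P a D → 2 ≤ D.card → KC B Q T U F D = ∅ →
      ¬ NCt B Q T U F P D → ndF B Q T U F P a D ≤ pmC (jC B Q j D))
    (PD : ∀ j ∈ tl B Q T U F P, ∀ C D, C ≠ D → lj B Q U F P j = {C, D} →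
      aC B Q T U F P D = {j} → ¬ Ful B Q T U F P a D → 2 ≤ D.card → (KC B Q T U F D).Nonempty →
      ndF B Q T U F P a D ≤ pmC (jC B Q j D)) :
    ∀ j ∈ tl B Q T U F P, ∀ C D, C ≠ D → lj B Q U F P j = {C, D} →
      aC B Q T U F P D = {j} → ¬ Ful B Q T U F P a D → (KC B Q T U F D = ∅ → 2 ≤ D.card) →
      ndF B Q T U F P a D ≤ pmC (jC B Q j D) := by
  intro j hj C D hCD hl hq hf h2
  have hDP : D ∈ P := s.lnf.sub j hj (by rw [hl]; simp)
  have hD1 : D.card ≠ 0 := by
    intro h0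
    have h8 := (s.toStg.jC_two hj hCD hl).2
    rw [card_eq_zero.1 h0] at h8
    simp [jC] at h8
  by_cases hK : KC B Q T U F D = ∅
  · by_cases hn : NCt B Q T U F P D
    · exact s.nd_pmC hga hj hCD hl hq hf (h2 hK) hK hn
    · exact PE j hj C D hCD hl hq hf (h2 hK) hK hn
  · have hK' := nonempty_iff_ne_empty.2 hK
    by_cases h3 : 2 ≤ D.card
    · exact PD j hj C D hCD hl hq hf h3 hK'
    · obtain ⟨L, rfl⟩ := card_eq_one.1 (by omega : D.card = 1)
      exact (s.nd_kin hF hDP hq hK' _).trans (pm_le_pmC _)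

/-- **the last step with the proved lines filled in**, second form. -/
theorem last2 (s : StgR B Q T U F P a)
    -- facts proved by tables
    (hF : Few B Q T F) (h3 : Lf3 B Q T U F P) (hga : Ga31 B Q T U F) (h31 : G31 B Q T U F)
    (h73 : R73 B Q T F)
    (L2S : ∀ j ∈ tl B Q T U F P, ∀ C D, C ≠ D → lj B Q U F P j = {C, D} →
      aC B Q T U F P C = {j} → aC B Q T U F P D = {j} →
      KC B Q T U F C = ∅ → KC B Q T U F D = ∅ → NCt B Q T U F P C → NCt B Q T U F P D →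
      C.card = 1 → D.card = 1 →
      ndF B Q T U F P a C + ndF B Q T U F P a D ≤
        8 * sT B Q T U F 15 j + tF B Q T U F P j - 1120)
    (CN : ∀ C ∈ P, ¬ Ful B Q T U F P a C → 2 ≤ C.card → 2 ≤ (aC B Q T U F P C).card →
      KC B Q T U F C = ∅ → NCt B Q T U F P C → ¬ Exa B Q T U F P C → NdOk B Q T U F P a C)
    -- single leaves with a centre
    (B0 : ∀ L, {L} ∈ P → ¬ Ful B Q T U F P a {L} → (aC B Q T U F P {L}).card = 0 →
      KC B Q T U F {L} = ∅ → (Bs B Q T U F P L).Nonempty → msC 149 B Q T U F P a {L} ≤ 0)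
    (BL : ∀ L, {L} ∈ P → ¬ Ful B Q T U F P a {L} → (aC B Q T U F P {L}).Nonempty →
      (2 ≤ (aC B Q T U F P {L}).card ∨ ∀ j ∈ aC B Q T U F P {L}, (lj B Q U F P j).card = 2) →
      KC B Q T U F {L} = ∅ → (Bs B Q T U F P L).Nonempty → ¬ Exa B Q T U F P {L} →
      NdOk B Q T U F P a {L})
    -- composite classes with a centre
    (PE : ∀ j ∈ tl B Q T U F P, ∀ C D, C ≠ D → lj B Q U F P j = {C, D} →
      aC B Q T U F P D = {j} → ¬ Ful B Q T U F P a D → 2 ≤ D.card → KC B Q T U F D = ∅ →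
      ¬ NCt B Q T U F P D → ndF B Q T U F P a D ≤ pmC (jC B Q j D))
    (E0 : ∀ C ∈ P, ¬ Ful B Q T U F P a C → 2 ≤ C.card → (aC B Q T U F P C).card = 0 →
      KC B Q T U F C = ∅ → ¬ NCt B Q T U F P C → msC 149 B Q T U F P a C ≤ 0)
    (EN : ∀ C ∈ P, ¬ Ful B Q T U F P a C → 2 ≤ C.card → 2 ≤ (aC B Q T U F P C).card →
      KC B Q T U F C = ∅ → ¬ NCt B Q T U F P C → ¬ Exa B Q T U F P C → NdOk B Q T U F P a C)
    -- composite classes with inside triples
    (PD : ∀ j ∈ tl B Q T U F P, ∀ C D, C ≠ D → lj B Q U F P j = {C, D} →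
      aC B Q T U F P D = {j} → ¬ Ful B Q T U F P a D → 2 ≤ D.card → (KC B Q T U F D).Nonempty →
      ndF B Q T U F P a D ≤ pmC (jC B Q j D))
    (D0 : ∀ C ∈ P, ¬ Ful B Q T U F P a C → 2 ≤ C.card → (aC B Q T U F P C).card = 0 →
      (KC B Q T U F C).Nonempty → ndF B Q T U F P a C ≤ 0)
    (DN : ∀ C ∈ P, ¬ Ful B Q T U F P a C → 2 ≤ C.card → 2 ≤ (aC B Q T U F P C).card →
      (KC B Q T U F C).Nonempty → ¬ Exa B Q T U F P C → NdOk B Q T U F P a C)
    -- the fat lines
    (LF : ∀ j ∈ tl B Q T U F P, 1 ≤ (oj B Q U F P j).card →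
      ∑ C ∈ (lj B Q U F P j).filter (fun C => (aC B Q T U F P C).card = 1),
        ndF B Q T U F P a C +
      ∑ C ∈ (lj B Q U F P j).filter (fun C => 2 ≤ (aC B Q T U F P C).card),
        fcl 149 B Q T U F P a (tF B Q T U F P) j C ≤
        8 * sT B Q T U F 15 j + tF B Q T U F P j - 1120 +
          168 * ∑ u ∈ oj B Q U F P j, (uo B Q T U F u : ℤ)) : False := by
  have hne : ∀ C ∈ P, C.Nonempty := fun C hC => (s.part.ptn.vc C hC).ne
  refine s.last hF h3 hga h31 h73 L2S (s.PC_of hF hga PE PD) B0 BL E0 CN EN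
    (fun C hC hf h0 hK => ?_) (fun C hC hf h2 hK hx => ?_) LF
  · by_cases hc : 2 ≤ C.card
    · exact D0 C hC hf hc h0 hK
    · have h1 := card_pos.2 (hne C hC)
      obtain ⟨L, rfl⟩ := card_eq_one.1 (by omega : C.card = 1)
      exact s.D0_one hF hga hC hf h0 hK
  · by_cases hc : 2 ≤ C.card
    · exact DN C hC hf hc h2 hK hx
    · have h1 := card_pos.2 (hne C hC)
      obtain ⟨L, rfl⟩ := card_eq_one.1 (by omega : C.card = 1)
      exact s.DN_one hC hf h2 hK

end StgR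

end Pool.Agent.Hyp6
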