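import Pool.Agent.Hyp6.L3N3

/-!
# HYP6 L3N4: the triples with five hits at a point, on the setting

`StgR.xf_nx`: a poor triple of type B centred at a point (`PoorP`) whose third point has a full hit on
a leaf `M` (own class, three points, one single trace) is of the form `Xf`, and the exchange data exist.
`StgR.xf_second`: a second triple with `PoorP` whose third point is in a block `{x, a, v}` is of the form
`Xf`, too. `StgR.x5_A`, `StgR.x5_two`: no full hit on the pair of `M` with three blocks, no second such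
triple at a block `{x, a, v}`, unless a third point is on its own centre.
-/

set_option autoImplicit false

namespace Pool.Agent.Hyp6

open Finset Pool.Agent.Hyp5 Rt

universe u v

variable {V : Type v} [DecidableEq V] {ι : Type u} [Fintype ι] [DecidableEq ι] {B : ι → Finset V}
  {Q U : Finset V} {T : Finset ι} {F : Finset (Finset V)}
  {P : Finset (Finset (Finset V))} {al : V → Finset (Finset V) → ℕ}

/-- a point which sees the leaf `{x}`. -/
theorem adj_point {z x : V} (hzx : z ≠ x) (h : 0 < uh B z {x}) : (gr B).Adj z x := by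
  rw [uh_point] at h
  obtain ⟨r, hr⟩ := card_pos.1 h
  obtain ⟨_, h1, h2⟩ := mem_filter.1 hr
  exact ⟨hzx, r, h2, h1⟩

theorem uh_point_pos {z x : V} (h : (gr B).Adj z x) : 0 < uh B z {x} := by
  obtain ⟨_, r, h1, h2⟩ := h
  rw [uh_point]
  exact card_pos.2 ⟨r, mem_filter.2 ⟨mem_univ _, h2, h1⟩⟩

/-- the data of a triple of type B centred at a point. -/
theorem Stg.bt_point (s : Stg B Q T U F P al) {j : ι} (hj : j ∈ T)
    (h3 : 3 ≤ rkc B U F (par0 B U F) (mcj B Q F (par0 B U F) j)) {a b c x : V}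
    (hB : BT B Q F (par0 B U F) j a b c {{x}}) :
    {x} ∈ F ∧ (∀ L ∈ F, L ≠ {x} → ∀ Z ⊆ U, Z.card ≤ (nbF (gr B) (F \ {{x}, L}) Z).card) ∧
      (∀ L ∈ F, L ≠ {x} → ∀ y ∈ L, ¬ (gr B).Adj a y) ∧
      (∀ L ∈ F, L ≠ {x} → ∀ y ∈ L, ¬ (gr B).Adj b y) ∧
      (∀ k, x ∈ B k → a ∈ B k → b ∉ B k) ∧ 0 < uh B b {x} := by
  have hxF : {x} ∈ F := s.par.sub hB.mem (mem_singleton_self _)
  have hbx : b ≠ x := fun he => s.frm.T_notin hj (by rw [hB.eq]; simp : b ∈ B j ∩ Q) hxF
    (he ▸ mem_singleton_self x)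
  refine ⟨hxF, s.free_own hB.mem, not_adj_of_slf hB.sa, not_adj_of_slf hB.sb, fun k hx ha hb => ?_,
    ?_⟩
  · have h1 := s.mte.pair_hit s.frm.sur s.par hB.mem (by rw [card_singleton]; norm_num) hj hB.eq
      hB.sa hB.sb h3 (i := k) ⟨x, mem_inter.2 ⟨hx, mem_singleton_self x⟩⟩
      ⟨a, mem_inter.2 ⟨ha, by simp⟩⟩
    have h2 : ({a, b} : Finset V) ⊆ B k ∩ {a, b} := by
      intro y hy
      refine mem_inter.2 ⟨?_, hy⟩
      rcases mem_insert.1 hy with h3 | h3
      · exact h3 ▸ ha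
      · exact mem_singleton.1 h3 ▸ hb
    have h4 := card_le_card h2
    rw [card_pair hB.ab, h1.2] at h4
    omega
  · obtain ⟨L, hL⟩ := hB.nb
    have h2 := mem_singleton.1 (hB.sb hL)
    obtain ⟨_, w, hw, hadj⟩ := mem_slf.1 hL
    rw [h2, mem_singleton] at hw
    subst hw
    exact uh_point_pos hadj

/-- **a poor triple centred at a point, with a full hit on `M`**. -/
theorem StgR.xf_nx (s : StgR B Q T U F P al) {j : ι} (hj : j ∈ T)
    (h3 : 3 ≤ rkc B U F (par0 B U F) (mcj B Q F (par0 B U F) j)) {a b c x : V}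
    (hB : BT B Q F (par0 B U F) j a b c {{x}})
    (h5 : uh B a {x} + uh B b {x} + 2 * ee B Q {x} = 5) (h4 : ∑ L ∈ F, uh B c L = 4)
    {M : Finset V} (hM : {M} ∈ par0 B U F) (hM3 : M.card = 3) (hM1 : nt B M 1 ≤ 1) {i : ι}
    (hci : c ∈ B i) (hi : 2 ≤ (B i ∩ M).card) :
    ∃ a1 b1 m m' p, ((a1 = a ∧ b1 = b) ∨ (a1 = b ∧ b1 = a)) ∧ Xf B Q T U F j a1 b1 c x ∧
      NxE B Q T U F i j M {x} a1 b1 c m m' p := by
  have hf := s.frm
  have hr := s.viol.reg
  obtain ⟨hxF, hown, aL, bL, dj, hbp⟩ := s.bt_point hj h3 hB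
  have hMF : M ∈ F := s.par.sub hM (mem_singleton_self M)
  have hxM : ({x} : Finset V) ≠ M := fun he => by
    rw [← he, card_singleton] at hM3
    omega
  have haj : a ∈ B j ∩ Q := by rw [hB.eq]; simp
  have hbj : b ∈ B j ∩ Q := by rw [hB.eq]; simp
  have hcj : c ∈ B j ∩ Q := by rw [hB.eq]; simp
  have hax : a ≠ x := fun he => hf.T_notin hj haj hxF (he ▸ mem_singleton_self x)
  have hbx : b ≠ x := fun he => hf.T_notin hj hbj hxF (he ▸ mem_singleton_self x)
  have hap : 0 < uh B a {x} := by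
    rcases (slf B F a).eq_empty_or_nonempty with h1 | ⟨L, hL⟩
    · exfalso
      have h2 := s.bt_dead_single hM hM3.le hj hB (fun he => hxM (singleton_injective he)) h1 hci
      omega
    · have h2 := mem_singleton.1 (hB.sa hL)
      obtain ⟨_, w, hw, hadj⟩ := mem_slf.1 hL
      rw [h2, mem_singleton] at hw
      subst hw
      exact uh_point_pos hadj
  have hcard : (B i ∩ M).card = 2 := by
    have hcM : c ∉ M := hf.T_notin hj hcj hMF
    have h2 : insert c (B i ∩ M) ⊆ B i ∩ Q := insert_subset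
      (mem_inter.2 ⟨hci, (mem_inter.1 hcj).2⟩) (inter_subset_inter_left (hf.FQ hMF))
    have h3 := card_le_card h2
    rw [card_insert_of_notMem (fun h4 => hcM (mem_inter.1 h4).2)] at h3
    have h4 := hf.reg3 i
    omega
  have hjQ' : B j ∩ Q = {c, a, b} := by
    rw [hB.eq]
    ext v
    simp only [mem_insert, mem_singleton]
    tauto
  obtain ⟨m, m', hE⟩ := hf.exl hj hMF hjQ' hci hcard
  obtain ⟨p, hp⟩ : ∃ p, M \ {m, m'} = {p} := by
    rw [← card_eq_one]
    have h1 : ({m, m'} : Finset V) ⊆ M := by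
      intro z hz
      rcases mem_insert.1 hz with h3 | h3
      · exact h3 ▸ hE.hw
      · exact mem_singleton.1 h3 ▸ hE.hw'
    have h2 := card_sdiff_add_card_eq_card h1
    rw [card_pair hE.hww] at h2
    omega
  have hn : NxE B Q T U F i j M {x} a b c m m' p :=
    ⟨hE, hp, hM3, s.free_own hM, hxF, hxM, ⟨x, mem_singleton_self x, adj_point hax hap⟩,
      ⟨x, mem_singleton_self x, adj_point hbx hbp⟩, aL, bL⟩
  obtain ⟨h1, h2, _⟩ := hn.min_hits s.mtr.toMTN hr hM1
  have h6 : (uh B a {x} = 3 ∧ uh B b {x} = 2) ∨ (uh B b {x} = 3 ∧ uh B a {x} = 2) := by omega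
  rcases h6 with ⟨h7, h8⟩ | ⟨h7, h8⟩
  · exact ⟨a, b, m, m', p, Or.inl ⟨rfl, rfl⟩,
      ⟨hf, hj, hB.eq, hxF, hown, aL, bL, h7, h8, dj, h4⟩, hn⟩
  · refine ⟨b, a, m, m', p, Or.inr ⟨rfl, rfl⟩, ⟨hf, hj, ?_, hxF, hown, bL, aL, h7, h8,
      fun k hk hk1 hk2 => dj k hk hk2 hk1, h4⟩, hn.swap⟩
    rw [hB.eq]
    ext v
    simp only [mem_insert, mem_singleton]
    tauto

/-- **a second poor triple centred at a point**, with its third point in a block `{x, a, v}`. -/
theorem StgR.xf_second (s : StgR B Q T U F P al) {j : ι} {a b c x : V}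
    (h : Xf B Q T U F j a b c x) {i : ι} {M : Finset V} {m m' p : V}
    (hn : NxE B Q T U F i j M {x} a b c m m' p) (hM1 : nt B M 1 ≤ 1) (hU : hit B U M = 0)
    {k l : ι} (hk : k ∈ T) (hkj : k ≠ j)
    (h3 : 3 ≤ rkc B U F (par0 B U F) (mcj B Q F (par0 B U F) k)) {a' b' v x' : V}
    (hB : BT B Q F (par0 B U F) k a' b' v {{x'}}) (hxx : x' ≠ x)
    (h5 : uh B a' {x'} + uh B b' {x'} + 2 * ee B Q {x'} = 5) (h4 : ∑ L ∈ F, uh B v L = 4)
    (hxl : x ∈ B l) (hal : a ∈ B l) (hvl : v ∈ B l) :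
    Xf B Q T U F k a' b' v x' ∨ Xf B Q T U F k b' a' v x' := by
  have hf := s.frm
  have hr := s.viol.reg
  have hq := s.mtr.toMTQ
  obtain ⟨hxF, hown, aL, bL, dj, hbp⟩ := s.bt_point hk h3 hB
  have haj : a' ∈ B k ∩ Q := by rw [hB.eq]; simp
  have hbj : b' ∈ B k ∩ Q := by rw [hB.eq]; simp
  have hvj : v ∈ B k ∩ Q := by rw [hB.eq]; simp
  have hax : a' ≠ x' := fun he => hf.T_notin hk haj hxF (he ▸ mem_singleton_self x')
  have hbx : b' ≠ x' := fun he => hf.T_notin hk hbj hxF (he ▸ mem_singleton_self x')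
  have hMc : ({x'} : Finset V) ≠ M := fun he => by
    have h1 := hn.hM3
    rw [← he, card_singleton] at h1
    omega
  have hxx2 : ({x'} : Finset V) ≠ {x} := fun he => hxx (singleton_injective he)
  have hap : 0 < uh B a' {x'} := by
    by_contra hcon
    have h0 : ∀ L ∈ F, ∀ y ∈ L, ¬ (gr B).Adj a' y := by
      intro L hL y hy hadj
      by_cases hLx : L = {x'}
      · rw [hLx, mem_singleton] at hy
        exact hcon (uh_point_pos (hy ▸ hadj))
      · exact aL L hL hLx y hy hadj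
    refine hn.no_full_new hq.toMTE hU h.xown hk hkj (t := v) (y := a') (z := b') (l := l) ?_
      (fun L hL _ _ w hw => h0 L hL w hw) (h0 M hn.ex.hW p hn.pM.1)
      (Or.inr ⟨{x'}, hxF, hxx2, hMc, x', mem_singleton_self x', adj_point hbx hbp⟩) hvl ?_
    · rw [hB.eq]
      ext z
      simp only [mem_insert, mem_singleton]
      tauto
    · have hva : v ≠ a := fun he => by
        have h5 := hf.mtp.tpk.pack.disj j h.hj k hk hkj.symm
        exact disjoint_left.1 h5 h.mj.1 (he ▸ hvj)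
      have hxa : x ≠ a := fun he => h.xj (he ▸ (mem_inter.1 h.mj.1).1)
      have e1 : ({x, a} : Finset V) ⊆ B l ∩ insert a (insert b {x}) := by
        intro z hz
        rcases mem_insert.1 hz with h1 | h1
        · exact mem_inter.2 ⟨h1 ▸ hxl, by rw [h1]; simp⟩
        · rw [mem_singleton.1 h1]
          exact mem_inter.2 ⟨hal, mem_insert_self _ _⟩
      have e2 := card_le_card e1
      rw [card_pair hxa] at e2
      have e3 : insert v (B l ∩ insert a (insert b {x})) ⊆ B l ∩ Q := by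
        refine insert_subset (mem_inter.2 ⟨hvl, (mem_inter.1 hvj).2⟩) ?_
        refine inter_subset_inter_left ?_
        intro z hz
        simp only [mem_insert, mem_singleton] at hz
        rcases hz with rfl | rfl | rfl
        · exact (mem_inter.1 h.mj.1).2
        · exact (mem_inter.1 h.mj.2.1).2
        · exact h.xQ
      have e4 := card_le_card e3
      have hvn : v ∉ B l ∩ insert a (insert b {x}) := by
        intro h1
        have h2 := (mem_inter.1 h1).2
        simp only [mem_insert, mem_singleton] at h2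
        have h6 := hf.mtp.tpk.pack.disj j h.hj k hk hkj.symm
        rcases h2 with h2 | h2 | h2
        · exact hva h2
        · exact disjoint_left.1 h6 h.mj.2.1 (h2 ▸ hvj)
        · exact hf.T_notin hk hvj h.xF (h2 ▸ mem_singleton_self x)
      rw [card_insert_of_notMem hvn] at e4
      have e5 := hf.reg3 l
      omega
  obtain ⟨U1, F1, h'⟩ := hn.exists_new
  obtain ⟨_, hU1, _⟩ := hn.mte hq.toMTE h'
  subst hU1
  have hF1 := hn.F_new hq.toMTE h'
  have h1 := hn.nt_le hq.toMTN hr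
  obtain ⟨h2, h6⟩ := hn.nt_new rfl hr (by rw [h.ha, h.hb])
  rw [nt_point hr h.xQ] at h1
  have hmn : MTN B Q (insert i (T.erase j)) U1 F1 := hn.mtn hq.toMTN (fun _ => by
    rw [nt_point hr h.xQ]
    omega) h'
  have hN := hn.second hq.toMTN hr (by rw [h.ha, h.hb]) h.ha hM1 hU h.xown hk hkj hB.eq hxF hxx
    (adj_point hax hap) (adj_point hbx hbp) aL bL hxl hal hvl hF1 h'
  obtain ⟨h7, h8, _⟩ := hN.min_hits hmn hr (by omega)
  have h9 : (uh B a' {x'} = 3 ∧ uh B b' {x'} = 2) ∨ (uh B b' {x'} = 3 ∧ uh B a' {x'} = 2) := by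
    omega
  rcases h9 with ⟨h10, h11⟩ | ⟨h10, h11⟩
  · exact Or.inl ⟨hf, hk, hB.eq, hxF, hown, aL, bL, h10, h11, dj, h4⟩
  · refine Or.inr ⟨hf, hk, ?_, hxF, hown, bL, aL, h10, h11,
      fun k hk hk1 hk2 => dj k hk hk2 hk1, h4⟩
    rw [hB.eq]
    ext z
    simp only [mem_insert, mem_singleton]
    tauto

/-- **no full hit on the pair with three blocks.** `p` is the point of `M` with the single block `r`. -/
theorem StgR.poorP_A (s : StgR B Q T U F P al) {j : ι} (hj : j ∈ T)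
    (h3 : 3 ≤ rkc B U F (par0 B U F) (mcj B Q F (par0 B U F) j)) {a b c x : V}
    (hB : BT B Q F (par0 B U F) j a b c {{x}})
    (h5 : uh B a {x} + uh B b {x} + 2 * ee B Q {x} = 5) (h4 : ∑ L ∈ F, uh B c L = 4)
    {M : Finset V} (hM : {M} ∈ par0 B U F) (hM3 : M.card = 3) (hM1 : nt B M 1 ≤ 1) {i r : ι}
    (hci : c ∈ B i) (hi : 2 ≤ (B i ∩ M).card) {p : V} (hpM : p ∈ M) (hpr : B r ∩ M = {p})
    (hpi : p ∉ B i) : False := by
  obtain ⟨a1, b1, m, m', p', _, hx, hn⟩ := s.xf_nx hj h3 hB h5 h4 hM hM3 hM1 hci hi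
  have hpp : p' = p := by
    rcases hn.M_cases hpM with h1 | h1
    · exact h1.symm
    · exfalso
      have h2 : p ∈ B i ∩ Q := by
        rw [hn.ex.hiQ]
        exact mem_insert_of_mem h1
      exact hpi (mem_inter.1 h2).1
  subst hpp
  refine hx.no_A s.viol.reg s.mtr.toMTQ hn hM1 ⟨r, mem_filter.2 ⟨mem_univ _, ?_, ?_, ?_⟩⟩
  · have h1 : p' ∈ B r ∩ M := by rw [hpr]; exact mem_singleton_self _
    exact (mem_inter.1 h1).1
  · intro h1
    have h2 : m ∈ B r ∩ M := mem_inter.2 ⟨h1, hn.ex.hw⟩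
    rw [hpr, mem_singleton] at h2
    exact hn.pM.2.1 h2.symm
  · intro h1
    have h2 : m' ∈ B r ∩ M := mem_inter.2 ⟨h1, hn.ex.hw'⟩
    rw [hpr, mem_singleton] at h2
    exact hn.pM.2.2 h2.symm

/-- the weak form of `StgR.poorP_A`. -/
theorem StgR.x5_A (s : StgR B Q T U F P al) {j : ι} (hj : j ∈ T)
    (h3 : 3 ≤ rkc B U F (par0 B U F) (mcj B Q F (par0 B U F) j)) {a b c x : V}
    (hB : BT B Q F (par0 B U F) j a b c {{x}})
    (h5 : uh B a {x} + uh B b {x} + 2 * ee B Q {x} = 5) (h4 : ∑ L ∈ F, uh B c L = 4)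
    {M : Finset V} (hM : {M} ∈ par0 B U F) (hM3 : M.card = 3) (hM1 : nt B M 1 ≤ 1) {i r : ι}
    (hci : c ∈ B i) (hi : 2 ≤ (B i ∩ M).card) {p : V} (hpM : p ∈ M) (hpr : B r ∩ M = {p})
    (hpi : p ∉ B i) : uh B c {x} = 1 :=
  (s.poorP_A hj h3 hB h5 h4 hM hM3 hM1 hci hi hpM hpr hpi).elim

/-- **two poor triples do not meet at a block `{x, z, v}`**, `z` the point with three hits. -/
theorem StgR.poorP_two (s : StgR B Q T U F P al) {j : ι} (hj : j ∈ T)
    (h3 : 3 ≤ rkc B U F (par0 B U F) (mcj B Q F (par0 B U F) j)) {a b c x : V}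
    (hB : BT B Q F (par0 B U F) j a b c {{x}})
    (h5 : uh B a {x} + uh B b {x} + 2 * ee B Q {x} = 5) (h4 : ∑ L ∈ F, uh B c L = 4)
    {M : Finset V} (hM : {M} ∈ par0 B U F) (hM3 : M.card = 3) (hM1 : nt B M 1 ≤ 1)
    (hU : hit B U M = 0) {i : ι} (hci : c ∈ B i) (hi : 2 ≤ (B i ∩ M).card)
    {k l : ι} (hk : k ∈ T) (hkj : k ≠ j)
    (h3' : 3 ≤ rkc B U F (par0 B U F) (mcj B Q F (par0 B U F) k)) {a' b' v x' : V}
    (hB' : BT B Q F (par0 B U F) k a' b' v {{x'}}) (hxx : x' ≠ x)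
    (h5' : uh B a' {x'} + uh B b' {x'} + 2 * ee B Q {x'} = 5) (h4' : ∑ L ∈ F, uh B v L = 4)
    {z : V} (hz : z = a ∨ z = b) (hz3 : uh B z {x} = 3) (hxl : x ∈ B l) (hzl : z ∈ B l)
    (hvl : v ∈ B l) : False := by
  have hr := s.viol.reg
  have hq := s.mtr.toMTQ
  obtain ⟨a1, b1, m, m', p, hab, hx, hn⟩ := s.xf_nx hj h3 hB h5 h4 hM hM3 hM1 hci hi
  have hz1 : z = a1 := by
    by_contra hne
    have h6 : z = b1 := by
      rcases hab with ⟨h7, h8⟩ | ⟨h7, h8⟩ <;> rcases hz with h9 | h9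
      · exact absurd (h9.trans h7.symm) hne
      · exact h9.trans h8.symm
      · exact h9.trans h8.symm
      · exact absurd (h9.trans h7.symm) hne
    have h7 := hx.hb
    rw [← h6, hz3] at h7
    omega
  subst hz1
  rcases s.xf_second hx hn hM1 hU hk hkj h3' hB' hxx h5' h4' hxl hzl hvl with h6 | h6
  · exact hx.no_two hr hq hn hM1 hU h6 hkj hxx hxl hzl hvl
  · exact hx.no_two hr hq hn hM1 hU h6 hkj hxx hxl hzl hvl

end Pool.Agent.Hyp6
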