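import Pool.Agent.Hyp6.L3Rda
import Pool.Agent.Hyp6.L3Fpj
import Pool.Agent.Hyp6.L3Mr3

/-!
# HYP6 L3RDB: the lines with own points

`lf_sum`: the sum of the excesses of the classes of a line with own points, with one exceptional class.
`StgR.LF_all`: the inequality of a line with own points, from the bounds of the excesses.
-/

set_option autoImplicit false

namespace Pool.Agent.Hyp6

open Finset Pool.Agent.Hyp5 Rt

universe u v

section

theorem exS_lin {h : ℕ} (h1 : 1 ≤ h) : exS h + 27 ≤ 35 * (h : ℤ) - 78 := by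
  unfold exS sF
  split_ifs <;> omega

variable {γ : Type*} [DecidableEq γ]

/-- **the sum of the excesses of at least three classes**, with an exceptional class `x`. -/
theorem lf_sum {l N : Finset γ} (hNl : N ⊆ l) {h : γ → ℕ} {ex : γ → ℤ} {x : γ} (hx : x ∈ l)
    (hex : ∀ C ∈ N, C ≠ x → ex C ≤ exS (h C))
    (hm : 3 ≤ (l.filter (fun C => 1 ≤ h C)).card) (hN3 : 3 ≤ N.card) {p : ℤ}
    (hp : x ∈ N → ex x + 27 ≤ p) (hp0 : x ∉ N → -43 * (h x : ℤ) ≤ p) :
    ∑ C ∈ N, ex C ≤ p + 35 * (∑ C ∈ l, (h C : ℤ) - h x) - 237 +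
      43 * ∑ C ∈ l \ N, (h C : ℤ) := by
  classical
  obtain ⟨g, hg⟩ : ∃ g : γ → ℤ, g = fun C => if C ∈ N then ex C + 27 else -43 * (h C : ℤ) :=
    ⟨_, rfl⟩
  have hgN : ∀ C ∈ N, g C = ex C + 27 := fun C hC => by
    rw [hg]
    exact if_pos hC
  have hgn : ∀ C, C ∉ N → g C = -43 * (h C : ℤ) := fun C hC => by
    rw [hg]
    exact if_neg hC
  have h1 : ∑ C ∈ l, g C = ∑ C ∈ N, ex C + 27 * (N.card : ℤ) -
      43 * ∑ C ∈ l \ N, (h C : ℤ) := by
    rw [← sum_sdiff hNl, sum_congr rfl hgN, sum_add_distrib, sum_const, nsmul_eq_mul,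
      sum_congr rfl fun C hC => hgn C (mem_sdiff.1 hC).2, ← mul_sum]
    ring
  have h2 : ∑ C ∈ l, g C = g x + ∑ C ∈ l.erase x, g C := (add_sum_erase _ _ hx).symm
  have h3 : ∑ C ∈ l, (h C : ℤ) = h x + ∑ C ∈ l.erase x, (h C : ℤ) :=
    (add_sum_erase _ (fun C => (h C : ℤ)) hx).symm
  have h4 : g x ≤ p := by
    by_cases h5 : x ∈ N
    · rw [hgN x h5]
      exact hp h5
    · rw [hgn x h5]
      exact hp0 h5
  have h5 : ∑ C ∈ l.erase x, g C ≤
      ∑ C ∈ l.erase x, (35 * (h C : ℤ) - 78 * (if 1 ≤ h C then 1 else 0)) := by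
    refine sum_le_sum fun C hC => ?_
    have hCx := (mem_erase.1 hC).1
    by_cases h6 : C ∈ N
    · rw [hgN C h6]
      have h7 := hex C h6 hCx
      split_ifs with h8
      · have h9 := exS_lin h8
        linarith
      · have h9 : h C = 0 := by omega
        rw [h9, exS_0] at h7
        rw [h9]
        push_cast
        linarith
    · rw [hgn C h6]
      split_ifs with h8
      · have h9 : (1 : ℤ) ≤ h C := by exact_mod_cast h8
        linarith
      · have h9 : h C = 0 := by omega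
        rw [h9]
        norm_num
  have h6 : ∑ C ∈ l.erase x, (35 * (h C : ℤ) - 78 * (if 1 ≤ h C then 1 else 0)) =
      35 * ∑ C ∈ l.erase x, (h C : ℤ) -
        78 * (((l.erase x).filter (fun C => 1 ≤ h C)).card : ℤ) := by
    rw [sum_sub_distrib, ← mul_sum, ← mul_sum, sum_boole]
  have h7 : 2 ≤ ((l.erase x).filter (fun C => 1 ≤ h C)).card := by
    have h8 : (l.filter (fun C => 1 ≤ h C)).erase x ⊆ (l.erase x).filter (fun C => 1 ≤ h C) := by
      intro C hC
      obtain ⟨h9, h10⟩ := mem_erase.1 hC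
      obtain ⟨h11, h12⟩ := mem_filter.1 h10
      exact mem_filter.2 ⟨mem_erase.2 ⟨h9, h11⟩, h12⟩
    have h9 := card_le_card h8
    have h10 := pred_card_le_card_erase (s := l.filter (fun C => 1 ≤ h C)) (a := x)
    omega
  have h8 : (2 : ℤ) ≤ (((l.erase x).filter (fun C => 1 ≤ h C)).card : ℤ) := by exact_mod_cast h7
  have h9 : (3 : ℤ) ≤ (N.card : ℤ) := by exact_mod_cast hN3
  linarith

/-- the other classes of the line have at least two hits. -/
theorem two_other {l : Finset γ} {h : γ → ℕ} (hm : 3 ≤ (l.filter (fun C => 1 ≤ h C)).card)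
    {x : γ} (hx : x ∈ l) : h x + 2 ≤ ∑ C ∈ l, h C := by
  have h8 : (l.filter (fun C => 1 ≤ h C)).erase x ⊆ l.erase x := by
    intro C hC
    obtain ⟨h9, h10⟩ := mem_erase.1 hC
    exact mem_erase.2 ⟨h9, (mem_filter.1 h10).1⟩
  have h10 := pred_card_le_card_erase (s := l.filter (fun C => 1 ≤ h C)) (a := x)
  have h1 : ((l.filter (fun C => 1 ≤ h C)).erase x).card ≤ ∑ C ∈ l.erase x, h C := by
    rw [card_eq_sum_ones]
    calc ∑ C ∈ (l.filter (fun C => 1 ≤ h C)).erase x, 1
        ≤ ∑ C ∈ (l.filter (fun C => 1 ≤ h C)).erase x, h C :=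
          sum_le_sum fun C hC => (mem_filter.1 (mem_erase.1 hC).2).2
      _ ≤ ∑ C ∈ l.erase x, h C := sum_le_sum_of_subset h8
  rw [← add_sum_erase _ _ hx]
  omega

end

variable {V : Type v} [DecidableEq V] {ι : Type u} [Fintype ι] [DecidableEq ι]
  {B : ι → Finset V}

namespace StgR

variable {Q U : Finset V} {T : Finset ι} {F : Finset (Finset V)}
  {P : Finset (Finset (Finset V))} {a : V → Finset (Finset V) → ℕ} {L : Finset V} {j : ι}

/-- **a line triple with own points sees at least three classes**. -/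
theorem fat_met (s : StgR B Q T U F P a) (hj : j ∈ tl B Q T U F P)
    (ho : 1 ≤ (oj B Q U F P j).card) :
    3 ≤ ((lj B Q U F P j).filter (fun C => 1 ≤ jC B Q j C)).card := by
  obtain ⟨hjR, hne, hno⟩ := mem_filter.1 (mem_filter.1 hj).1
  have h1 := s.part.ptn.two_met ((s.frm.gdT (R := Rg B Q T U F)).NTs j hjR) hne hno
  have h3 : (lj B Q U F P j).card = (oj B Q U F P j).card + 2 := s.toStg.lnf.card j hj
  have h4 : 3 ≤ (Sp.met P (slj B Q F j)).card := by
    by_contra hcon
    have h5 : (Sp.met P (slj B Q F j)).card = 2 := by omega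
    have h6 : lj B Q U F P j = Sp.met P (slj B Q F j) := if_pos h5
    rw [h6] at h3
    omega
  refine h4.trans (card_le_card fun C hC => ?_)
  exact mem_filter.2 ⟨Sp.met_sub_lx hC, s.frm.jC_pos (s.toStg.tl_sub hj).1 hC⟩

/-- the hits on the line and the claims. -/
theorem fat_ncl (s : StgR B Q T U F P a) (hj : j ∈ tl B Q T U F P) :
    (∑ C ∈ lj B Q U F P j, jC B Q j C = ∑ L ∈ F, jh B Q j L) ∧
    (∑ C ∈ lj B Q U F P j, jC B Q j C + ncl B Q T U F P j ≤ 12) ∧
    (ncl B Q T U F P j = 0 ∨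
      ∑ C ∈ lj B Q U F P j, jC B Q j C + ncl B Q T U F P j ≤ 8 ∨
      ∃ x ∈ lj B Q U F P j,
        ∑ C ∈ lj B Q U F P j, jC B Q j C + ncl B Q T U F P j ≤ jC B Q j x + 4) := by
  classical
  have hjT := (s.toStg.tl_sub hj).1
  have h1 : ∑ C ∈ lj B Q U F P j, jC B Q j C = ∑ L ∈ F, jh B Q j L := by
    rw [← Frm.jC_all s.part j]
    refine sum_subset Sp.lx_sub fun C hC hn => ?_
    exact s.frm.jC_zero s.part hC hjT (fun hm => hn (Sp.met_sub_lx hm))
  refine ⟨h1, ?_, ?_⟩
  · rw [h1]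
    exact s.twelve_ncl hjT
  · rcases Nat.eq_zero_or_pos (ncl B Q T U F P j) with h0 | h0
    · exact Or.inl h0
    right
    rcases s.line_donor hj h0 with h2 | ⟨p, q, v, E, hB, hp, _, _, h5⟩
    · left
      rw [h1]
      exact h2
    right
    -- the class of the two points
    obtain ⟨C0, hC0, hEC⟩ := s.toStg.sub_class hB.mem
    have hC0l : C0 ∈ lj B Q U F P j := by
      refine Sp.met_sub_lx (Sp.mem_met.2 ⟨hC0, ?_⟩)
      obtain ⟨L, hL⟩ := hp
      refine not_disjoint_iff.2 ⟨L, ?_, hEC (hB.sa hL)⟩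
      exact mem_biUnion.2 ⟨p, by rw [hB.eq]; simp, hL⟩
    refine ⟨C0, hC0l, ?_⟩
    rw [← add_sum_erase _ _ hC0l]
    have h6 : ∑ C ∈ (lj B Q U F P j).erase C0, jC B Q j C ≤ ∑ L ∈ F, uh B v L := by
      rw [← Frm.uC_all s.part v]
      refine (sum_le_sum fun C hC => ?_).trans
        (sum_le_sum_of_subset ((erase_subset _ _).trans Sp.lx_sub))
      obtain ⟨h7, h8⟩ := mem_erase.1 hC
      have hCP : C ∈ P := Sp.lx_sub h8
      refine le_of_eq (s.bt_away hjT hB hCP fun h9 => ?_)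
      obtain ⟨L, hL⟩ := s.par.ne hB.mem
      exact disjoint_left.1 (s.part.ptn.dj C0 hC0 C hCP (Ne.symm h7)) (hEC hL) (h9 hL)
    omega

/-- **six hits on a point leaf**: at most four other hits, at most three with the claims. -/
theorem six_other (s : StgR B Q T U F P a) (hL : {L} ∈ P) (hj : j ∈ tl B Q T U F P)
    (h1 : L.card = 1) (h6 : jh B Q j L = 6) :
    ∑ C ∈ lj B Q U F P j, jC B Q j C ≤ 10 ∧ (ncl B Q T U F P j = 0 ∨
      ∑ C ∈ lj B Q U F P j, jC B Q j C + ncl B Q T U F P j ≤ 9) := by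
  classical
  obtain ⟨x, rfl⟩ := card_eq_one.1 h1
  have hxF := s.toStg.leafF hL
  have hjT := (s.toStg.tl_sub hj).1
  have hfree := s.toStg.free_own (s.toStg.own_par hL)
  have hxD := s.frm.FD hxF (mem_singleton_self x)
  have hH := (s.fat_ncl hj).1
  have h2 : ∑ L ∈ F, jh B Q j L = jh B Q j {x} + ∑ M ∈ F.erase {x}, jh B Q j M :=
    (add_sum_erase _ _ hxF).symm
  have h4 : ∑ M ∈ F.erase {x}, jh B Q j M ≤ 4 := by
    rcases s.mtr.toMTQ.point_main3 s.viol.reg hjT hxF hfree (fun p hp =>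
      s.viol.twin (Frm.DQ hxD) (mem_inter.1 hp).2 (by
        rintro rfl
        exact Frm.T_notD (Q := Q) hjT (mem_inter.1 hp).1 hxD)) (le_of_eq h6.symm) with
        h3 | ⟨_, i, k0, a', b, c, h3, h4⟩
    · have h5 : ∑ M ∈ F.erase {x}, jh B Q j M ≤ 2 := h3
      omega
    · have h5 : ∑ M ∈ F.erase {x}, jh B Q j M = mh B b ((F.erase {x}).biUnion id) +
        mh B c ((F.erase {x}).biUnion id) := h4
      have := h3.hm4
      omega
  refine ⟨by omega, ?_⟩
  rcases Nat.eq_zero_or_pos (ncl B Q T U F P j) with h0 | h0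
  · exact Or.inl h0
  · right
    rcases s.donor_six hL hj (le_of_eq h6.symm) h0 with h5 | ⟨h5, _⟩ <;> omega

/-- the excess of a class which is not full, in all cases. -/
theorem ex_all (s : StgR B Q T U F P a) (hF : Few B Q T F) (h31 : Ga31 B Q T U F)
    (h51 : ∀ L, {L} ∈ P → ∀ i ∈ Bs B Q T U F P L, L.card = 5 → nt B L 1 = 1 →
      sB B Q F i L ≤ 6)
    (hz : ∀ L, {L} ∈ P → L.card = 3 → nt B L 1 = 1 → dv B Q L = -1 → hit B U L ≤ 2 →
      ∀ j ∈ T, 4 ≤ jh B Q j L → ∑ C ∈ F.erase L, jh B Q j C = 0)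
    (hC : ∀ C ∈ P, 2 ≤ C.card → ¬ Ful B Q T U F P a C → ∀ j ∈ aC B Q T U F P C,
      1 ≤ (oj B Q U F P j).card →
        Exs B Q T U F P a (tF B Q T U F P) j C ≤ exS (jC B Q j C))
    (hj : j ∈ tl B Q T U F P) (ho : 1 ≤ (oj B Q U F P j).card)
    {C : Finset (Finset V)} (hCl : C ∈ lj B Q U F P j) (hn : ¬ Ful B Q T U F P a C) :
    Exs B Q T U F P a (tF B Q T U F P) j C ≤ exS (jC B Q j C) ∨
    (∃ L, C = {L} ∧ L.card = 1 ∧ jC B Q j C = 6 ∧
      Exs B Q T U F P a (tF B Q T U F P) j C ≤ 245) := by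
  have hCP : C ∈ P := Sp.lx_sub hCl
  have hjC : j ∈ aC B Q T U F P C := Sp.mem_atl.2 ⟨hj, hCl⟩
  have hm := s.fat_met hj ho
  have h2 := two_other hm hCl
  obtain ⟨hH, hH12, _⟩ := s.fat_ncl hj
  rcases (by omega : C.card = 0 ∨ C.card = 1 ∨ 2 ≤ C.card) with h3 | h3 | h3
  · exfalso
    have h4 := (s.part.ptn.vc C hCP).ne
    rw [card_eq_zero.1 h3] at h4
    exact absurd h4 not_nonempty_empty
  · obtain ⟨L, rfl⟩ := card_eq_one.1 h3
    rw [s.toStg.jC_one] at h2 ⊢
    rcases s.ex_one hF h31 (fun i hi => h51 L hCP i hi) hCP hn hjC ho (by omega) with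
      h4 | ⟨h4, h5, h6, h7, h8⟩ | ⟨h4, h5, h6⟩
    · exact Or.inl h4
    · exfalso
      have h9 := hz L hCP h4 h5 h6 h7 j (s.toStg.tl_sub hj).1 h8
      have h10 : ∑ L ∈ F, jh B Q j L = jh B Q j L + ∑ M ∈ F.erase L, jh B Q j M :=
        (add_sum_erase _ _ (s.toStg.leafF hCP)).symm
      omega
    · exact Or.inr ⟨L, rfl, h4, h5, h6⟩
  · exact Or.inl (hC C hCP h3 hn j hjC ho)

/-- **the lines with own points**. -/
theorem LF_all (s : StgR B Q T U F P a) (hF : Few B Q T F) (h31 : Ga31 B Q T U F)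
    (h51 : ∀ L, {L} ∈ P → ∀ i ∈ Bs B Q T U F P L, L.card = 5 → nt B L 1 = 1 →
      sB B Q F i L ≤ 6)
    (hz : ∀ L, {L} ∈ P → L.card = 3 → nt B L 1 = 1 → dv B Q L = -1 → hit B U L ≤ 2 →
      ∀ j ∈ T, 4 ≤ jh B Q j L → ∑ C ∈ F.erase L, jh B Q j C = 0)
    (hC : ∀ C ∈ P, 2 ≤ C.card → ¬ Ful B Q T U F P a C → ∀ j ∈ aC B Q T U F P C,
      1 ≤ (oj B Q U F P j).card →
        Exs B Q T U F P a (tF B Q T U F P) j C ≤ exS (jC B Q j C)) :
    ∀ j ∈ tl B Q T U F P, 1 ≤ (oj B Q U F P j).card →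
      ∑ C ∈ (lj B Q U F P j).filter (fun C => (aC B Q T U F P C).card = 1),
        ndF B Q T U F P a C +
      ∑ C ∈ (lj B Q U F P j).filter (fun C => 2 ≤ (aC B Q T U F P C).card),
        fcl 149 B Q T U F P a (tF B Q T U F P) j C ≤
        8 * sT B Q T U F 15 j + tF B Q T U F P j - 1120 +
          168 * ∑ u ∈ oj B Q U F P j, (uo B Q T U F u : ℤ) := by
  classical
  intro j hj ho
  obtain ⟨N, hNd⟩ : ∃ N, N = (lj B Q U F P j).filter (fun C => ¬ Ful B Q T U F P a C) :=
    ⟨_, rfl⟩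
  have hN : ∀ C, C ∈ N ↔ C ∈ lj B Q U F P j ∧ ¬ Ful B Q T U F P a C := fun C => by
    rw [hNd, mem_filter]
  have hNl : N ⊆ lj B Q U F P j := fun C hC => ((hN C).1 hC).1
  have hm := s.fat_met hj ho
  obtain ⟨hH, h12, hd⟩ := s.fat_ncl hj
  have hall : ∀ C ∈ N, Exs B Q T U F P a (tF B Q T U F P) j C ≤ exS (jC B Q j C) ∨
      (∃ L, C = {L} ∧ L.card = 1 ∧ jC B Q j C = 6 ∧
        Exs B Q T U F P a (tF B Q T U F P) j C ≤ 245) := fun C h1 =>
    s.ex_all hF h31 h51 hz hC hj ho (hNl h1) ((hN C).1 h1).2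
  have hline := s.toStg.jC_line hj
  have htF := Stg.tF_ge (B := B) (Q := Q) (T := T) (U := U) (F := F) (P := P) j
  have hw0 : 0 ≤ ∑ u ∈ oj B Q U F P j, (uo B Q T U F u : ℤ) :=
    sum_nonneg fun _ _ => by positivity
  have hres : 0 ≤ ∑ C ∈ lj B Q U F P j \ N, (jC B Q j C : ℤ) :=
    sum_nonneg fun _ _ => by positivity
  obtain ⟨H, hHd⟩ : ∃ H, H = ∑ C ∈ lj B Q U F P j, jC B Q j C := ⟨_, rfl⟩
  obtain ⟨c, hcd⟩ : ∃ c, c = ncl B Q T U F P j := ⟨_, rfl⟩
  have hHz : (H : ℤ) = ∑ C ∈ lj B Q U F P j, (jC B Q j C : ℤ) := by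
    rw [hHd]
    push_cast
    rfl
  rw [← hcd] at htF h12 hd
  have hHz' : (H : ℤ) = 12 - uj B Q F j := by rw [hHz, hline]
  rw [← hHd] at h12 hd
  have hl2 : ∀ C ∈ lj B Q U F P j, jC B Q j C + 2 ≤ H := fun C hC => by
    rw [hHd]
    exact two_other hm hC
  -- the bonus
  obtain ⟨z, hz1⟩ : ∃ z : ℤ, z = if N.card ≤ 2 then 265 else 195 * ((N.card : ℤ) - 3) +
      330 * max (5 * ((N.card : ℤ) - 2) - ∑ u ∈ oj B Q U F P j, (uo B Q T U F u : ℤ) -
        ∑ C ∈ N, (owj B Q U F P a j C : ℤ)) 0 := ⟨_, rfl⟩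
  have hz2 : (N.card ≤ 2 ∧ z = 265) ∨ (3 ≤ N.card ∧ z = 195 * ((N.card : ℤ) - 3) +
      330 * max (5 * ((N.card : ℤ) - 2) - ∑ u ∈ oj B Q U F P j, (uo B Q T U F u : ℤ) -
        ∑ C ∈ N, (owj B Q U F P a j C : ℤ)) 0) := by
    rw [hz1]
    split_ifs with h1
    · exact Or.inl ⟨h1, rfl⟩
    · exact Or.inr ⟨by omega, rfl⟩
  have hz3 : (N.card ≤ 2 ∧ z = 265) ∨ (3 ≤ N.card ∧ 0 ≤ z) := by
    rcases hz2 with h1 | ⟨h1, h2⟩
    · exact Or.inl h1
    · refine Or.inr ⟨h1, ?_⟩
      have h3 : (3 : ℤ) ≤ N.card := by exact_mod_cast h1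
      have h4 := le_max_right (5 * ((N.card : ℤ) - 2) -
        ∑ u ∈ oj B Q U F P j, (uo B Q T U F u : ℤ) - ∑ C ∈ N, (owj B Q U F P a j C : ℤ)) 0
      rw [h2]
      linarith
  -- the sum of the excesses suffices
  have key : ∀ ex : Finset (Finset V) → ℤ,
      (∀ C ∈ N, Exs B Q T U F P a (tF B Q T U F P) j C ≤ ex C) →
      (∀ C ∈ N, exS (jC B Q j C) ≤ ex C) →
      ∑ C ∈ N, ex C ≤ 25 + 75 * (12 - (H : ℤ)) - 160 * c + z +
        43 * ∑ C ∈ lj B Q U F P j \ N, (jC B Q j C : ℤ) →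
      ∑ C ∈ (lj B Q U F P j).filter (fun C => (aC B Q T U F P C).card = 1),
        ndF B Q T U F P a C +
      ∑ C ∈ (lj B Q U F P j).filter (fun C => 2 ≤ (aC B Q T U F P C).card),
        fcl 149 B Q T U F P a (tF B Q T U F P) j C ≤
        8 * sT B Q T U F 15 j + tF B Q T U F P j - 1120 +
          168 * ∑ u ∈ oj B Q U F P j, (uo B Q T U F u : ℤ) := by
    intro ex h1 h2 h3
    refine s.toStg.LF_of (by norm_num) (fun C hC => s.tK_ge hC) hj ho hN
      (ex := ex) (z := z) (fun C hC _ => h1 C hC) (fun C hC _ _ => h2 C hC) hz2 ?_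
    linarith
  by_cases hsp : ∃ C ∈ N, ∃ L, C = {L} ∧ L.card = 1 ∧ jC B Q j C = 6 ∧
      Exs B Q T U F P a (tF B Q T U F P) j C ≤ 245
  · -- a point with six hits
    obtain ⟨X, hX, L, hXL, hL1, hX6, hXE⟩ := hsp
    have hXl := hNl hX
    have hXP : X ∈ P := Sp.lx_sub hXl
    have h6 : jh B Q j L = 6 := by
      rw [← s.toStg.jC_one, ← hXL]
      exact hX6
    obtain ⟨h10, hc9⟩ := s.six_other (L := L) (hXL ▸ hXP) hj hL1 h6
    rw [← hHd, ← hcd] at hc9
    rw [← hHd] at h10
    have h8 := hl2 X hXl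
    rw [hX6] at h8
    -- the other classes
    have hoth : ∀ C ∈ N, C ≠ X →
        Exs B Q T U F P a (tF B Q T U F P) j C ≤ exS (jC B Q j C) := by
      intro C hCN hne
      rcases hall C hCN with h1 | ⟨L', _, _, h1, _⟩
      · exact h1
      · exfalso
        have h2 : jC B Q j C + jC B Q j X ≤ H := by
          rw [hHd]
          have h3 : ({C, X} : Finset (Finset (Finset V))) ⊆ lj B Q U F P j := by
            intro E hE
            rcases mem_insert.1 hE with rfl | hE
            · exact hNl hCN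
            · rw [mem_singleton.1 hE]
              exact hXl
          have h4 := sum_le_sum_of_subset (f := fun C => jC B Q j C) h3
          rwa [sum_pair hne] at h4
        omega
    refine key (fun C => if C = X then 245 else exS (jC B Q j C)) (fun C hCN => ?_)
      (fun C hCN => ?_) ?_
    · split_ifs with h1
      · rw [h1]
        exact hXE
      · exact hoth C hCN h1
    · split_ifs with h1
      · have := exS_le (jC B Q j C)
        linarith
      · exact le_refl _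
    · rcases hz3 with ⟨hN2, hzz⟩ | ⟨hN3, hz0⟩
      · have h1 : ∑ C ∈ N, (if C = X then (245 : ℤ) else exS (jC B Q j C)) ≤ 245 := by
          rw [← add_sum_erase _ _ hX, if_pos rfl]
          have h2 : ∑ C ∈ N.erase X, (if C = X then (245 : ℤ) else exS (jC B Q j C)) ≤ 0 := by
            refine sum_nonpos fun C hC => ?_
            rw [if_neg (mem_erase.1 hC).1]
            exact exS_le _
          linarith
        rcases hc9 with h2 | h2
        · rw [h2]
          have h3 : (H : ℤ) ≤ 10 := by exact_mod_cast h10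
          push_cast
          linarith
        · have h3 : (H : ℤ) + c ≤ 9 := by exact_mod_cast h2
          have h4 : (8 : ℤ) ≤ H := by exact_mod_cast h8
          linarith
      · have h1 := lf_sum hNl (h := fun C => jC B Q j C)
          (ex := fun C => if C = X then 245 else exS (jC B Q j C)) hXl
          (fun C _ hne => by rw [if_neg hne]) hm hN3 (p := 272)
          (fun _ => by rw [if_pos rfl]; norm_num) (fun h => absurd hX h)
        rw [← hHz] at h1
        rw [hX6] at h1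
        push_cast at h1
        rcases hc9 with h2 | h2
        · rw [h2]
          have h3 : (H : ℤ) ≤ 10 := by exact_mod_cast h10
          push_cast
          linarith
        · have h3 : (H : ℤ) + c ≤ 9 := by exact_mod_cast h2
          have h4 : (8 : ℤ) ≤ H := by exact_mod_cast h8
          linarith
  · -- no such class
    have hoth : ∀ C ∈ N, Exs B Q T U F P a (tF B Q T U F P) j C ≤ exS (jC B Q j C) := by
      intro C hCN
      rcases hall C hCN with h1 | h1
      · exact h1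
      · exact absurd ⟨C, hCN, h1⟩ hsp
    refine key (fun C => exS (jC B Q j C)) hoth (fun C _ => le_refl _) ?_
    have hH3 : 3 ≤ H := by
      obtain ⟨C, hC⟩ := card_pos.1 (show 0 < ((lj B Q U F P j).filter
        (fun C => 1 ≤ jC B Q j C)).card by omega)
      obtain ⟨h1, h2⟩ := mem_filter.1 hC
      have := hl2 C h1
      omega
    have hsum0 : ∑ C ∈ N, exS (jC B Q j C) ≤ 0 := sum_nonpos fun C _ => exS_le _
    have h12z : (H : ℤ) + c ≤ 12 := by exact_mod_cast h12
    have h3z : (3 : ℤ) ≤ H := by exact_mod_cast hH3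
    have hc0 : (0 : ℤ) ≤ c := by positivity
    rcases hd with hd | hd | ⟨X, hX, hd⟩
    · rw [hd] at h12z ⊢
      push_cast at h12z ⊢
      rcases hz3 with ⟨_, hzz⟩ | ⟨_, hz0⟩ <;> linarith
    · have hdz : (H : ℤ) + c ≤ 8 := by exact_mod_cast hd
      rcases hz3 with ⟨_, hzz⟩ | ⟨hN3, hz0⟩
      · linarith
      · obtain ⟨X, hX⟩ := card_pos.1 (show 0 < ((lj B Q U F P j).filter
          (fun C => 1 ≤ jC B Q j C)).card by omega)
        obtain ⟨hXl, hX1⟩ := mem_filter.1 hX
        have h1 := lf_sum hNl (h := fun C => jC B Q j C)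
          (ex := fun C => exS (jC B Q j C)) hXl (fun C _ _ => le_refl _) hm hN3 (p := 27)
          (fun _ => by
            have := exS_le (jC B Q j X)
            linarith)
          (fun _ => by
            have : (0 : ℤ) ≤ (jC B Q j X : ℤ) := by positivity
            linarith)
        rw [← hHz] at h1
        have h2 : (1 : ℤ) ≤ jC B Q j X := by exact_mod_cast hX1
        linarith
    · have h2 := hl2 X hX
      have hc2 : c ≤ 2 := by omega
      rcases hz3 with ⟨_, hzz⟩ | ⟨hN3, hz0⟩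
      · have hc2z : (c : ℤ) ≤ 2 := by exact_mod_cast hc2
        linarith
      · have hX0 : (0 : ℤ) ≤ (jC B Q j X : ℤ) := by positivity
        have hdz : (H : ℤ) + c ≤ jC B Q j X + 4 := by exact_mod_cast hd
        rcases (by omega : c ≤ 1 ∨ (c = 2 ∧ H ≤ 9) ∨ (c = 2 ∧ H = 10)) with h3 | ⟨h3, h4⟩ |
          ⟨h3, h4⟩
        · have h1 := lf_sum hNl (h := fun C => jC B Q j C)
            (ex := fun C => exS (jC B Q j C)) hX (fun C _ _ => le_refl _) hm hN3 (p := 27)
            (fun _ => by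
              have := exS_le (jC B Q j X)
              linarith)
            (fun _ => by linarith)
          rw [← hHz] at h1
          have h5 : (c : ℤ) ≤ 1 := by exact_mod_cast h3
          linarith
        · have h1 := lf_sum hNl (h := fun C => jC B Q j C)
            (ex := fun C => exS (jC B Q j C)) hX (fun C _ _ => le_refl _) hm hN3 (p := 27)
            (fun _ => by
              have := exS_le (jC B Q j X)
              linarith)
            (fun _ => by linarith)
          rw [← hHz] at h1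
          have h5 : (H : ℤ) ≤ 9 := by exact_mod_cast h4
          rw [h3] at hdz ⊢
          push_cast at hdz ⊢
          linarith
        · have hX8 : jC B Q j X = 8 := by omega
          have h1 := lf_sum hNl (h := fun C => jC B Q j C)
            (ex := fun C => exS (jC B Q j C)) hX (fun C _ _ => le_refl _) hm hN3 (p := 22)
            (fun _ => by
              rw [hX8, exS_8]
              norm_num)
            (fun _ => by linarith)
          rw [← hHz] at h1
          rw [hX8, h4] at h1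
          rw [h3, h4]
          push_cast at h1 ⊢
          linarith

end StgR

end Pool.Agent.Hyp6
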