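import Mathlib

/-!
# HYP6 L3Tb: the numbers of a triple at a private single leaf

`TRow P d n a b c na nb nc W sa sb sc Aa Ab Ac`: the numbers of a line triple with the points `1`,
`2`, `3` at a private single leaf with the even number `P` (`P = dv + 1`), `n` single traces and `d`
double singles. The points have `a`, `b`, `c` hits at the leaf,
`sa` says that the first point sees another leaf, `Aa` says that the leaf absorbs the points `2` and
`3`, `na` is the number of common blocks of the points `2` and `3`, and `W` is the number of the hits of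
all other points. Main result: the list of the rows with a large number of hits.
-/

set_option autoImplicit false

namespace Pool.Agent.Hyp6

/-- what a refused pair with `x` and `y` hits says about the even part of the leaf. -/
def refP (P x y : ℕ) : Prop :=
  (2 ≤ x → 2 ≤ y → 2 ≤ P) ∧ (4 ≤ x → 2 ≤ y → 4 ≤ P) ∧ (2 ≤ x → 4 ≤ y → 4 ≤ P) ∧
    (3 ≤ x → 3 ≤ y → 6 ≤ P) ∧ (4 ≤ x → 4 ≤ y → 10 ≤ P)

instance (P x y : ℕ) : Decidable (refP P x y) := by unfold refP; infer_instance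

/-- the rules for the numbers of a triple at a private single leaf. -/
structure TRow (P d n a b c na nb nc W : ℕ) (sa sb sc Aa Ab Ac : Prop) : Prop where
  a4 : a ≤ 4
  b4 : b ≤ 4
  c4 : c ≤ 4
  /-- a point which sees another leaf has at most three hits here. -/
  sa3 : sa → a ≤ 3
  sb3 : sb → b ≤ 3
  sc3 : sc → c ≤ 3
  sn : sa ∨ sb ∨ sc
  /-- if the leaf absorbs two points then the third point sees no other leaf. -/
  Aa0 : Aa → ¬ sa
  Ab0 : Ab → ¬ sb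
  Ac0 : Ac → ¬ sc
  ra : ¬ Aa → refP P b c
  rb : ¬ Ab → refP P a c
  rc : ¬ Ac → refP P a b
  na0 : ¬ Aa → na = 0
  nb0 : ¬ Ab → nb = 0
  nc0 : ¬ Ac → nc = 0
  na2 : na ≤ 2
  nb2 : nb ≤ 2
  nc2 : nc ≤ 2
  /-- a point refused with both others. -/
  ja : ¬ Ab → ¬ Ac → refP P a (b + c - na)
  jb : ¬ Aa → ¬ Ac → refP P b (a + c - nb)
  jc : ¬ Aa → ¬ Ab → refP P c (a + b - nc)
  /-- a contraction with one point of the triple. -/
  S0a : P ≤ 8 → 1 ≤ a → P + 9 ≤ 4 * max (1 + b) (max (1 + c) W)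
  S0b : P ≤ 8 → 1 ≤ b → P + 9 ≤ 4 * max (1 + a) (max (1 + c) W)
  S0c : P ≤ 8 → 1 ≤ c → P + 9 ≤ 4 * max (1 + a) (max (1 + b) W)
  /-- a contraction with two absorbed points. -/
  S1a : P ≤ 8 → Aa → P + 14 ≤ 4 * max (1 + a) W
  S1b : P ≤ 8 → Ab → P + 14 ≤ 4 * max (1 + b) W
  S1c : P ≤ 8 → Ac → P + 14 ≤ 4 * max (1 + c) W
  W2 : 2 ≤ W
  W3 : 1 ≤ P → 3 ≤ W
  /-- the number of places at the leaf. -/
  sl : 6 * (a + b + c + W) + 23 * d + n ≤ 5 * P + 55
  n1 : 1 ≤ n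

/-- three numbers are a permutation of three numbers. -/
def isP (x y z a b c : ℕ) : Prop :=
  (a = x ∧ b = y ∧ c = z) ∨ (a = x ∧ b = z ∧ c = y) ∨ (a = y ∧ b = x ∧ c = z) ∨
    (a = y ∧ b = z ∧ c = x) ∨ (a = z ∧ b = x ∧ c = y) ∨ (a = z ∧ b = y ∧ c = x)

instance (x y z a b c : ℕ) : Decidable (isP x y z a b c) := by unfold isP; infer_instance

/-- the rules as a Boolean function; the flag `2` says that the point sees another leaf, the flag `1`
says that the other two points are absorbed. -/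
def rowTb (P a b c W fa fb fc : ℕ) : Bool :=
  decide (6 * (a + b + c + W) + 1 ≤ 5 * P + 55) && (  decide (fa = 2 → a ≤ 3) && (decide (fb = 2 → b ≤ 3) && (decide (fc = 2 → c ≤ 3) &&
  (decide (fa = 2 ∨ fb = 2 ∨ fc = 2) && (decide (fa ≠ 1 → refP P b c) &&
  (decide (fb ≠ 1 → refP P a c) && (decide (fc ≠ 1 → refP P a b) &&
  (decide (fb ≠ 1 → fc ≠ 1 → refP P a (b + c - (if fa = 1 then 2 else 0))) &&
  (decide (fa ≠ 1 → fc ≠ 1 → refP P b (a + c - (if fb = 1 then 2 else 0))) &&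
  (decide (fa ≠ 1 → fb ≠ 1 → refP P c (a + b - (if fc = 1 then 2 else 0))) &&
  (decide (1 ≤ a → P + 9 ≤ 4 * max (1 + b) (max (1 + c) W)) &&
  (decide (1 ≤ b → P + 9 ≤ 4 * max (1 + a) (max (1 + c) W)) &&
  (decide (1 ≤ c → P + 9 ≤ 4 * max (1 + a) (max (1 + b) W)) &&
  (decide (fa = 1 → P + 14 ≤ 4 * max (1 + a) W) &&
  (decide (fb = 1 → P + 14 ≤ 4 * max (1 + b) W) &&
  decide (fc = 1 → P + 14 ≤ 4 * max (1 + c) W))))))))))))))))

theorem rowTb_iff {P a b c W fa fb fc : ℕ} : rowTb P a b c W fa fb fc = true ↔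
    6 * (a + b + c + W) + 1 ≤ 5 * P + 55 ∧
    (fa = 2 → a ≤ 3) ∧ (fb = 2 → b ≤ 3) ∧ (fc = 2 → c ≤ 3) ∧ (fa = 2 ∨ fb = 2 ∨ fc = 2) ∧
    (fa ≠ 1 → refP P b c) ∧ (fb ≠ 1 → refP P a c) ∧ (fc ≠ 1 → refP P a b) ∧
    (fb ≠ 1 → fc ≠ 1 → refP P a (b + c - (if fa = 1 then 2 else 0))) ∧
    (fa ≠ 1 → fc ≠ 1 → refP P b (a + c - (if fb = 1 then 2 else 0))) ∧
    (fa ≠ 1 → fb ≠ 1 → refP P c (a + b - (if fc = 1 then 2 else 0))) ∧
    (1 ≤ a → P + 9 ≤ 4 * max (1 + b) (max (1 + c) W)) ∧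
    (1 ≤ b → P + 9 ≤ 4 * max (1 + a) (max (1 + c) W)) ∧
    (1 ≤ c → P + 9 ≤ 4 * max (1 + a) (max (1 + b) W)) ∧
    (fa = 1 → P + 14 ≤ 4 * max (1 + a) W) ∧ (fb = 1 → P + 14 ≤ 4 * max (1 + b) W) ∧
    (fc = 1 → P + 14 ≤ 4 * max (1 + c) W) := by
  unfold rowTb
  simp only [Bool.and_eq_true, decide_eq_true_iff]

open Classical in
/-- the flag of a point. -/
noncomputable def flg (s A : Prop) : ℕ := if s then 2 else if A then 1 else 0

theorem flg_two {s A : Prop} : flg s A = 2 ↔ s := by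
  unfold flg
  split_ifs <;> simp_all

theorem flg_one {s A : Prop} (h : A → ¬ s) : flg s A = 1 ↔ A := by
  unfold flg
  split_ifs <;> simp_all

theorem flg_lt {s A : Prop} : flg s A < 3 := by
  unfold flg
  split_ifs <;> omega

theorem refP_mono {P x y y' : ℕ} (h : refP P x y) (hy : y' ≤ y) : refP P x y' := by
  unfold refP at *
  omega

theorem TRow.rowTb {P d n a b c na nb nc W : ℕ} {sa sb sc Aa Ab Ac : Prop}
    (h : TRow P d n a b c na nb nc W sa sb sc Aa Ab Ac) :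
    rowTb P a b c (min W 6) (flg sa Aa) (flg sb Ab) (flg sc Ac) = true ∨ 8 < P := by
  by_cases hP : 8 < P
  · exact Or.inr hP
  left
  rw [rowTb_iff]
  have ia := flg_one h.Aa0
  have ib := flg_one h.Ab0
  have ic := flg_one h.Ac0
  refine ⟨by have := h.sl; have := h.n1; omega, fun h1 => h.sa3 (flg_two.1 h1), fun h1 => h.sb3 (flg_two.1 h1),
    fun h1 => h.sc3 (flg_two.1 h1), ?_, fun h1 => h.ra fun h2 => h1 (ia.2 h2),
    fun h1 => h.rb fun h2 => h1 (ib.2 h2), fun h1 => h.rc fun h2 => h1 (ic.2 h2),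
    fun h1 h2 => ?_, fun h1 h2 => ?_,
    fun h1 h2 => ?_, fun h1 => ?_, fun h1 => ?_, fun h1 => ?_, fun h1 => ?_, fun h1 => ?_,
    fun h1 => ?_⟩
  · rcases h.sn with h1 | h1 | h1
    · exact Or.inl (flg_two.2 h1)
    · exact Or.inr (Or.inl (flg_two.2 h1))
    · exact Or.inr (Or.inr (flg_two.2 h1))
  · refine refP_mono (h.ja (fun h3 => h1 (ib.2 h3)) fun h3 => h2 (ic.2 h3)) ?_
    split_ifs with h5
    · have := h.na2
      omega
    · rw [h.na0 fun h3 => h5 (ia.2 h3)]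
  · refine refP_mono (h.jb (fun h3 => h1 (ia.2 h3)) fun h3 => h2 (ic.2 h3)) ?_
    split_ifs with h5
    · have := h.nb2
      omega
    · rw [h.nb0 fun h3 => h5 (ib.2 h3)]
  · refine refP_mono (h.jc (fun h3 => h1 (ia.2 h3)) fun h3 => h2 (ib.2 h3)) ?_
    split_ifs with h5
    · have := h.nc2
      omega
    · rw [h.nc0 fun h3 => h5 (ic.2 h3)]
  · have := h.S0a (by omega) h1
    omega
  · have := h.S0b (by omega) h1
    omega
  · have := h.S0c (by omega) h1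
    omega
  · have := h.S1a (by omega) (ia.1 h1)
    omega
  · have := h.S1b (by omega) (ib.1 h1)
    omega
  · have := h.S1c (by omega) (ic.1 h1)
    omega

/-- all numbers below the bounds. -/
def bx (l m n : ℕ) (f : ℕ → ℕ → ℕ → Bool) : Bool :=
  (List.range l).all fun a => (List.range m).all fun b => (List.range n).all fun c => f a b c

theorem bx_spec {l m n : ℕ} {f : ℕ → ℕ → ℕ → Bool} (h : bx l m n f = true) {a b c : ℕ}
    (ha : a < l) (hb : b < m) (hc : c < n) : f a b c = true := by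
  unfold bx at h
  rw [List.all_eq_true] at h
  have h1 := h a (List.mem_range.2 ha)
  rw [List.all_eq_true] at h1
  have h2 := h1 b (List.mem_range.2 hb)
  rw [List.all_eq_true] at h2
  exact h2 c (List.mem_range.2 hc)

/-- the point with `k` hits has the flag `1`. -/
def fk (k a b c fa fb fc : ℕ) : Prop := (a = k → fa = 1) ∧ (b = k → fb = 1) ∧ (c = k → fc = 1)

instance (k a b c fa fb fc : ℕ) : Decidable (fk k a b c fa fb fc) := by
  unfold fk; infer_instance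

/-- the rows with many hits. -/
def resP (P a b c W fa fb fc : ℕ) : Prop :=
  (P = 2 ∧ (a + b + c ≤ 5 ∨ (a + b + c = 6 ∧ (fa = 1 ∨ fb = 1 ∨ fc = 1)) ∨
    (isP 3 2 2 a b c ∧ W = 3 ∧ fk 3 a b c fa fb fc))) ∨
  (P = 4 ∧ (a + b + c ≤ 6 ∨ (a + b + c = 7 ∧ (fa = 1 ∨ fb = 1 ∨ fc = 1) ∧ W = 5) ∨
    (isP 4 2 1 a b c ∧ W = 4 ∧ fk 4 a b c fa fb fc) ∨
    (isP 4 2 2 a b c ∧ W = 4 ∧ fk 4 a b c fa fb fc))) ∨
  P = 6 ∨
  (P = 8 ∧ a + b + c ≤ 9)

instance (P a b c W fa fb fc : ℕ) : Decidable (resP P a b c W fa fb fc) := by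
  unfold resP; infer_instance

/-- the table. -/
def tabT (P : ℕ) : Bool := bx 5 5 5 fun a b c =>
  (List.range 4).all fun W => bx 3 3 3 fun fa fb fc =>
    !(rowTb P a b c (W + 3) fa fb fc) || decide (resP P a b c (W + 3) fa fb fc)

set_option maxRecDepth 20000 in
theorem tabT2 : tabT 2 = true := by decide +kernel

set_option maxRecDepth 20000 in
theorem tabT4 : tabT 4 = true := by decide +kernel

set_option maxRecDepth 20000 in
theorem tabT8 : tabT 8 = true := by decide +kernel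

theorem tab_spec {P a b c W fa fb fc : ℕ} (h : tabT P = true) (ha : a < 5) (hb : b < 5)
    (hc : c < 5) (hW : W < 4) (h1 : fa < 3) (h2 : fb < 3) (h3 : fc < 3)
    (hr : rowTb P a b c (W + 3) fa fb fc = true) : resP P a b c (W + 3) fa fb fc := by
  unfold tabT at h
  have h4 := bx_spec h ha hb hc
  rw [List.all_eq_true] at h4
  have h5 := bx_spec (h4 W (List.mem_range.2 hW)) h1 h2 h3
  rw [hr] at h5
  simpa using h5

/-- the main table. -/
theorem TRow.res {P d n a b c na nb nc W : ℕ} {sa sb sc Aa Ab Ac : Prop}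
    (h : TRow P d n a b c na nb nc W sa sb sc Aa Ab Ac) (hP : P = 2 ∨ P = 4 ∨ P = 8) :
    resP P a b c (min W 6) (flg sa Aa) (flg sb Ab) (flg sc Ac) := by
  have h1 : tabT P = true := by
    rcases hP with rfl | rfl | rfl
    · exact tabT2
    · exact tabT4
    · exact tabT8
  have h2 : Hyp6.rowTb P a b c (min W 6) (flg sa Aa) (flg sb Ab) (flg sc Ac) = true := by
    rcases h.rowTb with h3 | h3
    · exact h3
    · omega
  have h3 := h.W3 (by omega)
  have h4 := h.a4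
  have h5 := h.b4
  have h6 := h.c4
  have h7 : min W 6 = (min W 6 - 3) + 3 := by omega
  rw [h7] at h2 ⊢
  exact tab_spec h1 (by omega) (by omega) (by omega) (by omega) flg_lt flg_lt flg_lt h2

/-- the point with `k` hits: the leaf absorbs the other two points. -/
def Fk (k a b c : ℕ) (Aa Ab Ac : Prop) : Prop := (a = k → Aa) ∧ (b = k → Ab) ∧ (c = k → Ac)

theorem fk_Fk {k a b c : ℕ} {sa sb sc Aa Ab Ac : Prop} (h1 : Aa → ¬ sa) (h2 : Ab → ¬ sb)
    (h3 : Ac → ¬ sc) (h : fk k a b c (flg sa Aa) (flg sb Ab) (flg sc Ac)) :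
    Fk k a b c Aa Ab Ac :=
  ⟨fun h4 => (flg_one h1).1 (h.1 h4), fun h4 => (flg_one h2).1 (h.2.1 h4),
    fun h4 => (flg_one h3).1 (h.2.2 h4)⟩

section

variable {P d n a b c na nb nc W : ℕ} {sa sb sc Aa Ab Ac : Prop}

/-- the leaf is a point. -/
theorem TRow.two (h : TRow 2 d n a b c na nb nc W sa sb sc Aa Ab Ac) :
    a + b + c ≤ 5 ∨ (a + b + c = 6 ∧ (Aa ∨ Ab ∨ Ac)) ∨
      (isP 3 2 2 a b c ∧ W = 3 ∧ Fk 3 a b c Aa Ab Ac) := by
  have h1 := h.res (Or.inl rfl)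
  unfold resP at h1
  rw [flg_one h.Aa0, flg_one h.Ab0, flg_one h.Ac0] at h1
  rcases h1 with ⟨-, h1 | h1 | ⟨h1, h2, h3⟩⟩ | ⟨h1, -⟩ | h1 | ⟨h1, -⟩
  · exact Or.inl h1
  · exact Or.inr (Or.inl h1)
  · exact Or.inr (Or.inr ⟨h1, by omega, fk_Fk h.Aa0 h.Ab0 h.Ac0 h3⟩)
  all_goals omega

/-- the leaf has three points and three single traces. -/
theorem TRow.four (h : TRow 4 d n a b c na nb nc W sa sb sc Aa Ab Ac) :
    a + b + c ≤ 6 ∨ (a + b + c = 7 ∧ (Aa ∨ Ab ∨ Ac) ∧ W = 5) ∨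
      (isP 4 2 1 a b c ∧ W = 4 ∧ Fk 4 a b c Aa Ab Ac) ∨
      (isP 4 2 2 a b c ∧ W = 4 ∧ Fk 4 a b c Aa Ab Ac) := by
  have h1 := h.res (Or.inr (Or.inl rfl))
  unfold resP at h1
  rw [flg_one h.Aa0, flg_one h.Ab0, flg_one h.Ac0] at h1
  rcases h1 with ⟨h1, -⟩ | ⟨-, h1 | ⟨h1, h2, h3⟩ | ⟨h1, h2, h3⟩ | ⟨h1, h2, h3⟩⟩ | h1 | ⟨h1, -⟩
  · omega
  · exact Or.inl h1
  · exact Or.inr (Or.inl ⟨h1, h2, by omega⟩)
  · exact Or.inr (Or.inr (Or.inl ⟨h1, by omega, fk_Fk h.Aa0 h.Ab0 h.Ac0 h3⟩))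
  · exact Or.inr (Or.inr (Or.inr ⟨h1, by omega, fk_Fk h.Aa0 h.Ab0 h.Ac0 h3⟩))
  all_goals omega

theorem TRow.eight (h : TRow 8 d n a b c na nb nc W sa sb sc Aa Ab Ac) : a + b + c ≤ 9 := by
  have h1 := h.res (Or.inr (Or.inr rfl))
  unfold resP at h1
  rcases h1 with ⟨h1, -⟩ | ⟨h1, -⟩ | h1 | ⟨-, h1⟩
  · omega
  · omega
  · omega
  · exact h1

/-- a point which sees another leaf has at most three hits. -/
theorem TRow.le11 (h : TRow P d n a b c na nb nc W sa sb sc Aa Ab Ac) : a + b + c ≤ 11 := by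
  have h1 := h.a4
  have h2 := h.b4
  have h3 := h.c4
  rcases h.sn with h4 | h4 | h4
  · have := h.sa3 h4
    omega
  · have := h.sb3 h4
    omega
  · have := h.sc3 h4
    omega

/-- the excess `144 H + 120 - 120 P - 5 W` is at most `560` except in few rows, and these have no
double single. -/
theorem TRow.main (h : TRow P d n a b c na nb nc W sa sb sc Aa Ab Ac) (he : Even P) :
    144 * (a + b + c) + 120 ≤ 560 + 120 * P + 5 * W ∨ (d = 0 ∧ (
    (P = 0 ∧ 4 ≤ a + b + c) ∨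
    (P = 2 ∧ (a + b + c = 5 ∨ (a + b + c = 6 ∧ (Aa ∨ Ab ∨ Ac)) ∨
      (isP 3 2 2 a b c ∧ W = 3 ∧ Fk 3 a b c Aa Ab Ac))) ∨
    (P = 4 ∧ ((a + b + c = 7 ∧ (Aa ∨ Ab ∨ Ac) ∧ W = 5) ∨
      (isP 4 2 1 a b c ∧ W = 4 ∧ Fk 4 a b c Aa Ab Ac) ∨
      (isP 4 2 2 a b c ∧ W = 4 ∧ Fk 4 a b c Aa Ab Ac))) ∨
    (P = 6 ∧ 9 ≤ a + b + c))) := by
  have h2 := h.W2
  have h4 := h.sl
  have h5 := h.n1
  obtain ⟨p, hp⟩ := he
  by_cases hd : d = 0
  · by_cases hP : P ≤ 8
    · have h1 : P = 0 ∨ P = 2 ∨ P = 4 ∨ P = 6 ∨ P = 8 := by omega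
      rcases h1 with rfl | rfl | rfl | rfl | rfl
      · by_cases h3 : 4 ≤ a + b + c
        · exact Or.inr ⟨hd, Or.inl ⟨rfl, h3⟩⟩
        · exact Or.inl (by omega)
      · have h3 := h.W3 (by norm_num)
        rcases h.two with h1 | h1 | h1
        · by_cases h3 : a + b + c = 5
          · exact Or.inr ⟨hd, Or.inr (Or.inl ⟨rfl, Or.inl h3⟩)⟩
          · exact Or.inl (by omega)
        · exact Or.inr ⟨hd, Or.inr (Or.inl ⟨rfl, Or.inr (Or.inl h1)⟩)⟩
        · exact Or.inr ⟨hd, Or.inr (Or.inl ⟨rfl, Or.inr (Or.inr h1)⟩)⟩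
      · have h3 := h.W3 (by norm_num)
        rcases h.four with h1 | h1 | h1 | h1
        · exact Or.inl (by omega)
        · exact Or.inr ⟨hd, Or.inr (Or.inr (Or.inl ⟨rfl, Or.inl h1⟩))⟩
        · exact Or.inr ⟨hd, Or.inr (Or.inr (Or.inl ⟨rfl, Or.inr (Or.inl h1)⟩))⟩
        · exact Or.inr ⟨hd, Or.inr (Or.inr (Or.inl ⟨rfl, Or.inr (Or.inr h1)⟩))⟩
      · have h3 := h.W3 (by norm_num)
        by_cases h1 : a + b + c ≤ 8
        · exact Or.inl (by omega)
        · exact Or.inr ⟨hd, Or.inr (Or.inr (Or.inr ⟨rfl, by omega⟩))⟩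
      · have h3 := h.W3 (by norm_num)
        have := h.eight
        exact Or.inl (by omega)
    · have := h.le11
      exact Or.inl (by omega)
  · left
    by_cases hP : P ≤ 8
    · have h1 : P = 0 ∨ P = 2 ∨ P = 4 ∨ P = 6 ∨ P = 8 := by omega
      rcases h1 with rfl | rfl | rfl | rfl | rfl
      · omega
      · have h3 := h.W3 (by norm_num)
        omega
      · have h3 := h.W3 (by norm_num)
        have h6 : a + b + c ≤ 6 := by omega
        omega
      · have h3 := h.W3 (by norm_num)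
        omega
      · have h3 := h.W3 (by norm_num)
        have := h.eight
        omega
    · have := h.le11
      omega

end

end Pool.Agent.Hyp6
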