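import Pool.Agent.Hyp6.L3RA
import Pool.Agent.Hyp6.L3Pt
import Pool.Agent.Hyp6.L3Tb

/-!
# HYP6 L3Pq: what a refused pair says about the value of a part

`Cr3.mrgF`: if neither `{y, z1}` nor `{y, z2}` is absorbed then the value is at least
`4 min + 2 [gap] - 7`. `Cr3.fv_joint`, `Cr3.fv_pair`: the same with `fv`.
-/

set_option autoImplicit false

namespace Pool.Agent.Hyp6

open Finset Pool.Agent.Hyp5

universe u v

variable {V : Type v} [DecidableEq V] {ι : Type u} [Fintype ι] {B : ι → Finset V}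
variable {Q C : Finset V}

theorem card_fin_lt (n k : ℕ) (hk : k ≤ n) :
    ((univ : Finset (Fin n)).filter (fun c : Fin n => (c : ℕ) < k)).card = k := by
  have h1 : ((univ : Finset (Fin n)).filter (fun c : Fin n => (c : ℕ) < k)).card =
      ((range n).filter (fun c => c < k)).card := by
    refine card_bij (fun c _ => (c : ℕ)) ?_ ?_ ?_
    · intro c hc
      rw [mem_filter] at hc ⊢
      exact ⟨mem_range.2 c.2, hc.2⟩
    · intro c _ d _ hcd
      exact Fin.ext hcd
    · intro c hc
      rw [mem_filter, mem_range] at hc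
      exact ⟨⟨c, hc.1⟩, mem_filter.2 ⟨mem_univ _, hc.2⟩, rfl⟩
  rw [h1]
  have h2 : (range n).filter (fun c => c < k) = range k := by
    ext c
    rw [mem_filter, mem_range, mem_range]
    omega
  rw [h2, card_range]

theorem card_fin_ge (n k : ℕ) :
    ((univ : Finset (Fin n)).filter (fun c : Fin n => ¬ (c : ℕ) < k)).card = n - k := by
  rcases le_or_gt k n with hk | hk
  · have h1 := card_filter_add_card_filter_not (s := (univ : Finset (Fin n)))
      (fun c : Fin n => (c : ℕ) < k)
    rw [card_fin_lt n k hk, card_univ, Fintype.card_fin] at h1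
    omega
  · have h1 : (univ : Finset (Fin n)).filter (fun c : Fin n => ¬ (c : ℕ) < k) = ∅ := by
      rw [filter_eq_empty_iff]
      intro c _ hc
      exact hc (lt_trans c.2 hk)
    rw [h1, card_empty]
    omega

open Classical in
/-- a point `y` and a point merged from `z1` and `z2`, exact numbers of blocks. -/
theorem Cr3.mrgE (h : Cr3 B Q C) {y z1 z2 : V} (hyQ : y ∈ Q) (hyC : y ∉ C) (h1Q : z1 ∈ Q)
    (h1C : z1 ∉ C) (h2Q : z2 ∈ Q) (h2C : z2 ∉ C) (hy1 : y ≠ z1) (hy2 : y ≠ z2)
    {S1 S2 : Finset ι} (hS1 : S1 ⊆ Ez B C y) (hS2 : S2 ⊆ Ez B C z1 ∪ Ez B C z2)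
    (h1 : 1 ≤ S1.card) (h2 : 1 ≤ S2.card) (h1' : S1.card ≤ 5) (h2' : S2.card ≤ 5)
    (h4 : S1.card ≤ 4 ∨ S2.card ≤ 4)
    (hA1 : ¬ Abz B C {y, z1}) (hA2 : ¬ Abz B C {y, z2}) :
    4 * (min S1.card S2.card : ℤ) +
      (if S1.card + 2 ≤ S2.card ∨ S2.card + 2 ≤ S1.card then 2 else 0) ≤ lv B Q C + 7 := by
  have hz1y : z1 ≠ y := hy1.symm
  rcases le_total S1.card S2.card with hle | hle
  · have h5 : S1.card ≤ 4 := by omega
    by_contra hcon
    rw [min_eq_left (by exact_mod_cast hle)] at hcon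
    have hkey := h.mrgT hyQ hyC h1Q h1C h2Q h2C hy1 hy2 hS1 hS2 (card_pos.1 h1) (card_pos.1 h2)
      (κ := Fin (5 - S1.card)) (N := fun c => if (c : ℕ) < 5 - S2.card then {y, z1} else {y})
      (Y2 := if S1.card + 2 ≤ S2.card then {y} else ∅) ?_ ?_ ?_ ?_ ?_ ?_ ?_ ?_
    · rcases hkey with hk | hk
      · exact hA1 hk
      · exact hA2 hk
    · intro c
      split_ifs
      · exact Subset.refl _
      · simp
    · intro c
      split_ifs
      · exact insert_nonempty _ _
      · exact singleton_nonempty _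
    · intro n hn _
      have h6 : univ.filter n = univ := filter_true_of_mem fun c _ => (hn c).2 (by
        split_ifs <;> simp)
      rw [h6, card_univ, Fintype.card_fin]
      omega
    · intro n hn _
      have h6 : univ.filter n = univ.filter (fun c : Fin (5 - S1.card) =>
          (c : ℕ) < 5 - S2.card) := by
        ext c
        rw [mem_filter, mem_filter, hn c]
        by_cases hc : (c : ℕ) < 5 - S2.card
        · simp [hc]
        · simp [hc, hz1y]
      rw [h6, card_fin_lt _ _ (by omega)]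
      omega
    · exact ⟨⟨0, by omega⟩⟩
    · split_ifs
      · simp
      · simp
    · intro v hv
      split_ifs at hv with hg
      · rw [mem_singleton] at hv
        rw [hv]
        have h6 : univ.filter (fun c : Fin (5 - S1.card) => ¬ (c : ℕ) < 5 - S2.card) ⊆
            univ.filter (fun c : Fin (5 - S1.card) =>
              (if (c : ℕ) < 5 - S2.card then ({y, z1} : Finset V) else {y}) = {y}) := by
          intro c hc
          rw [mem_filter] at hc ⊢
          exact ⟨hc.1, if_neg hc.2⟩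
        have h7 := card_le_card h6
        rw [card_fin_ge] at h7
        refine le_trans ?_ h7
        omega
      · simp at hv
    · rw [Fintype.card_fin]
      have h8 : ((5 - S1.card : ℕ) : ℤ) = 5 - S1.card := by omega
      rw [h8]
      by_cases hg : S1.card + 2 ≤ S2.card
      · rw [if_pos (Or.inl hg)] at hcon
        rw [if_pos hg, card_singleton]
        push_cast
        linarith
      · rw [if_neg (by omega)] at hcon
        rw [if_neg hg, card_empty]
        push_cast
        linarith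
  · have h5 : S2.card ≤ 4 := by omega
    by_contra hcon
    rw [min_eq_right (by exact_mod_cast hle)] at hcon
    have hkey := h.mrgT hyQ hyC h1Q h1C h2Q h2C hy1 hy2 hS1 hS2 (card_pos.1 h1) (card_pos.1 h2)
      (κ := Fin (5 - S2.card)) (N := fun c => if (c : ℕ) < 5 - S1.card then {y, z1} else {z1})
      (Y2 := if S2.card + 2 ≤ S1.card then {z1} else ∅) ?_ ?_ ?_ ?_ ?_ ?_ ?_ ?_
    · rcases hkey with hk | hk
      · exact hA1 hk
      · exact hA2 hk
    · intro c
      split_ifs
      · exact Subset.refl _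
      · simp
    · intro c
      split_ifs
      · exact insert_nonempty _ _
      · exact singleton_nonempty _
    · intro n hn _
      have h6 : univ.filter n = univ.filter (fun c : Fin (5 - S2.card) =>
          (c : ℕ) < 5 - S1.card) := by
        ext c
        rw [mem_filter, mem_filter, hn c]
        by_cases hc : (c : ℕ) < 5 - S1.card
        · simp [hc]
        · simp [hc, hy1]
      rw [h6, card_fin_lt _ _ (by omega)]
      omega
    · intro n hn _
      have h6 : univ.filter n = univ := filter_true_of_mem fun c _ => (hn c).2 (by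
        split_ifs <;> simp)
      rw [h6, card_univ, Fintype.card_fin]
      omega
    · exact ⟨⟨0, by omega⟩⟩
    · split_ifs
      · simp
      · simp
    · intro v hv
      split_ifs at hv with hg
      · rw [mem_singleton] at hv
        rw [hv]
        have h6 : univ.filter (fun c : Fin (5 - S2.card) => ¬ (c : ℕ) < 5 - S1.card) ⊆
            univ.filter (fun c : Fin (5 - S2.card) =>
              (if (c : ℕ) < 5 - S1.card then ({y, z1} : Finset V) else {z1}) = {z1}) := by
          intro c hc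
          rw [mem_filter] at hc ⊢
          exact ⟨hc.1, if_neg hc.2⟩
        have h7 := card_le_card h6
        rw [card_fin_ge] at h7
        refine le_trans ?_ h7
        omega
      · simp at hv
    · rw [Fintype.card_fin]
      have h8 : ((5 - S2.card : ℕ) : ℤ) = 5 - S2.card := by omega
      rw [h8]
      by_cases hg : S2.card + 2 ≤ S1.card
      · rw [if_pos (Or.inr hg)] at hcon
        rw [if_pos hg, card_singleton]
        push_cast
        linarith
      · rw [if_neg (by omega)] at hcon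
        rw [if_neg hg, card_empty]
        push_cast
        linarith

open Classical in
/-- a point `y` and a point merged from `z1` and `z2`. -/
theorem Cr3.mrgF (h : Cr3 B Q C) {y z1 z2 : V} (hyQ : y ∈ Q) (hyC : y ∉ C) (h1Q : z1 ∈ Q)
    (h1C : z1 ∉ C) (h2Q : z2 ∈ Q) (h2C : z2 ∉ C) (hy1 : y ≠ z1) (hy2 : y ≠ z2)
    (hA1 : ¬ Abz B C {y, z1}) (hA2 : ¬ Abz B C {y, z2}) {m1 m2 : ℕ}
    (hE1 : m1 ≤ (Ez B C y).card) (hE2 : m2 ≤ (Ez B C z1 ∪ Ez B C z2).card)
    (h1 : 1 ≤ m1) (h2 : 1 ≤ m2) (h1' : m1 ≤ 5) (h2' : m2 ≤ 5) (h4 : m1 ≤ 4 ∨ m2 ≤ 4) :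
    4 * (min m1 m2 : ℤ) + (if m1 + 2 ≤ m2 ∨ m2 + 2 ≤ m1 then 2 else 0) ≤ lv B Q C + 7 := by
  obtain ⟨S1, hS1, hc1⟩ := exists_subset_card_eq hE1
  obtain ⟨S2, hS2, hc2⟩ := exists_subset_card_eq hE2
  have h5 := h.mrgE hyQ hyC h1Q h1C h2Q h2C hy1 hy2 hS1 (S2 := S2) (by convert hS2)
    (by omega) (by omega) (by omega) (by omega) (by omega) hA1 hA2
  rw [hc1, hc2] at h5
  exact h5

open Classical in
/-- **a point refused together with two other points.** -/
theorem Cr3.fv_joint (h : Cr3 B Q C) {y z1 z2 : V} (hyQ : y ∈ Q) (hyC : y ∉ C) (h1Q : z1 ∈ Q)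
    (h1C : z1 ∉ C) (h2Q : z2 ∈ Q) (h2C : z2 ∉ C) (hy1 : y ≠ z1) (hy2 : y ≠ z2)
    (hA1 : ¬ Abz B C {y, z1}) (hA2 : ¬ Abz B C {y, z2}) :
    (fv (Ez B C y).card (Ez B C z1 ∪ Ez B C z2).card : ℤ) ≤ lv B Q C + 1 := by
  have h0 := h.l_ge
  generalize ha : (Ez B C y).card = a
  generalize hb : (Ez B C z1 ∪ Ez B C z2).card = b
  have key : ∀ m1 m2 : ℕ, m1 ≤ a → m2 ≤ b → 1 ≤ m1 → 1 ≤ m2 → m1 ≤ 5 → m2 ≤ 5 →
      (m1 ≤ 4 ∨ m2 ≤ 4) →
      4 * (min m1 m2 : ℤ) + (if m1 + 2 ≤ m2 ∨ m2 + 2 ≤ m1 then 2 else 0) ≤ lv B Q C + 7 :=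
    fun m1 m2 h1 h2 h3 h4 h5 h6 h7 => h.mrgF hyQ hyC h1Q h1C h2Q h2C hy1 hy2 hA1 hA2
      (by rw [ha]; exact h1) (by rw [hb]; exact h2) h3 h4 h5 h6 h7
  generalize hL : lv B Q C = Lv at h0 key
  unfold fv
  rcases Nat.eq_zero_or_pos (min a b) with hm | hm
  · have h1 : (4 * min (min a b) 4 + (if min (min a b) 4 + 2 ≤ min (max a b) 5 then 2 else 0) -
        6) = 0 := by
      rw [hm]
      split_ifs <;> omega
    rw [h1]
    push_cast
    linarith
  · rcases le_total a b with hab | hab
    · have h1 := key (min a 4) (min b 5) (by omega) (by omega) (by omega) (by omega) (by omega)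
        (by omega) (by omega)
      rw [min_eq_left hab, max_eq_right hab]
      have h2 : ((min (min a 4 : ℕ) (min b 5 : ℕ) : ℤ)) = ((min a 4 : ℕ) : ℤ) := by
        rw [min_eq_left]
        exact_mod_cast (by omega : min a 4 ≤ min b 5)
      rw [h2] at h1
      by_cases hg : min a 4 + 2 ≤ min b 5
      · rw [if_pos (Or.inl hg)] at h1
        rw [if_pos hg]
        omega
      · rw [if_neg (by omega)] at h1
        rw [if_neg hg]
        omega
    · have h1 := key (min a 5) (min b 4) (by omega) (by omega) (by omega) (by omega) (by omega)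
        (by omega) (by omega)
      rw [min_eq_right hab, max_eq_left hab]
      have h2 : ((min (min a 5 : ℕ) (min b 4 : ℕ) : ℤ)) = ((min b 4 : ℕ) : ℤ) := by
        rw [min_eq_right]
        exact_mod_cast (by omega : min b 4 ≤ min a 5)
      rw [h2] at h1
      by_cases hg : min b 4 + 2 ≤ min a 5
      · rw [if_pos (Or.inr hg)] at h1
        rw [if_pos hg]
        omega
      · rw [if_neg (by omega)] at h1
        rw [if_neg hg]
        omega

/-- **a refused pair.** -/
theorem Cr3.fv_pair (h : Cr3 B Q C) {y z : V} (hyQ : y ∈ Q) (hyC : y ∉ C) (hzQ : z ∈ Q)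
    (hzC : z ∉ C) (hyz : y ≠ z) (hA : ¬ Abz B C {y, z}) :
    (fv (Ez B C y).card (Ez B C z).card : ℤ) ≤ lv B Q C + 1 := by
  classical
  have h1 := h.fv_joint hyQ hyC hzQ hzC hzQ hzC hyz hyz hA hA
  rw [union_self] at h1
  exact h1

/-- the form for the table. -/
theorem refP_of_fv {P x y : ℕ} (he : Even P) (h : fv x y ≤ P) (h33 : 3 ≤ x → 3 ≤ y → P ≠ 6) :
    refP P x y := by
  obtain ⟨k, hk⟩ := he
  unfold fv at h
  unfold refP
  refine ⟨fun h1 h2 => ?_, fun h1 h2 => ?_, fun h1 h2 => ?_, fun h1 h2 => ?_, fun h1 h2 => ?_⟩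
  · split_ifs at h <;> omega
  · split_ifs at h <;> omega
  · split_ifs at h <;> omega
  · have h3 := h33 h1 h2
    split_ifs at h <;> omega
  · split_ifs at h <;> omega

end Pool.Agent.Hyp6
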