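import Pool.Agent.Hyp6.L3P5n
import Pool.Agent.Hyp6.L3Pq
import Pool.Agent.Hyp6.L3K4
import Pool.Agent.Hyp6.L3S4

/-!
# HYP6 L3P5: a leaf with five points and thirteen blocks absorbs two points with three hits each

`Lf5.absorb`: the absorption for five points with thirteen blocks. `Frm.absorb33`: every leaf of a frame
with value at most five and without double single blocks absorbs two points with three hits each.
-/

set_option autoImplicit false

namespace Pool.Agent.Hyp6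

open Finset Pool.Agent.Hyp5

universe u v

variable {V : Type v} [DecidableEq V] {ι : Type u} [Fintype ι] {B : ι → Finset V}
variable {Q L : Finset V} {v a b c d : V}

/-- the number of the blocks of `S` containing `p` and `q`. -/
def kk5 (B : ι → Finset V) (S : Finset ι) (p q : V) : ℕ :=
  (S.filter (fun i => p ∈ B i ∧ q ∈ B i)).card

/-- the number of the blocks of `S` with the trace `p`. -/
def oo5 (B : ι → Finset V) (L : Finset V) (S : Finset ι) (p : V) : ℕ :=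
  (S.filter (fun i => B i ∩ L = {p})).card

omit [Fintype ι] in
theorem Lab5.single_iff (l : Lab5 L v a b c d) (i : ι) :
    B i ∩ L = {v} ↔ v ∈ B i ∧ a ∉ B i ∧ b ∉ B i ∧ c ∉ B i ∧ d ∉ B i := by
  constructor
  · intro h
    have h1 : ∀ w ∈ L, w ≠ v → w ∉ B i := by
      intro w hw hwv hwB
      have h2 : w ∈ B i ∩ L := mem_inter.2 ⟨hwB, hw⟩
      rw [h, mem_singleton] at h2
      exact hwv h2
    refine ⟨?_, h1 a l.ma l.va.symm, h1 b l.mb l.vb.symm, h1 c l.mc l.vc.symm,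
      h1 d l.md l.vd.symm⟩
    have h2 : v ∈ B i ∩ L := by rw [h]; exact mem_singleton_self v
    exact (mem_inter.1 h2).1
  · rintro ⟨h1, h2, h3, h4, h5⟩
    ext w
    rw [mem_inter, mem_singleton]
    constructor
    · rintro ⟨hw, hwL⟩
      rw [l.eq] at hwL
      simp only [mem_insert, mem_singleton] at hwL
      rcases hwL with e | e | e | e | e
      · exact e
      · rw [e] at hw; exact absurd hw h2
      · rw [e] at hw; exact absurd hw h3
      · rw [e] at hw; exact absurd hw h4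
      · rw [e] at hw; exact absurd hw h5
    · rintro rfl
      exact ⟨h1, l.mv⟩

omit [Fintype ι] in
theorem no3_5 (h2 : ∀ i, (B i ∩ L).card ≤ 2) {p q r : V} (hp : p ∈ L) (hq : q ∈ L) (hr : r ∈ L)
    (hpq : p ≠ q) (hpr : p ≠ r) (hqr : q ≠ r) (i : ι) :
    ¬ (p ∈ B i ∧ q ∈ B i ∧ r ∈ B i) := by
  rintro ⟨h3, h4, h5⟩
  have h6 : ({p, q, r} : Finset V) ⊆ B i ∩ L := by
    intro w hw
    simp only [mem_insert, mem_singleton] at hw
    rcases hw with rfl | rfl | rfl
    · exact mem_inter.2 ⟨h3, hp⟩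
    · exact mem_inter.2 ⟨h4, hq⟩
    · exact mem_inter.2 ⟨h5, hr⟩
  have h7 := card_le_card h6
  rw [card_eq_three.2 ⟨p, q, r, hpq, hpr, hqr, rfl⟩] at h7
  have h8 := h2 i
  omega

omit [Fintype ι] in
/-- the blocks of one point of the leaf. -/
theorem Lab5.degS (l : Lab5 L v a b c d) (h2 : ∀ i, (B i ∩ L).card ≤ 2) (S : Finset ι) :
    (S.filter (fun i => v ∈ B i)).card =
      kk5 B S v a + kk5 B S v b + kk5 B S v c + kk5 B S v d + oo5 B L S v := by
  unfold kk5 oo5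
  simp only [card_filter]
  rw [← sum_add_distrib, ← sum_add_distrib, ← sum_add_distrib, ← sum_add_distrib]
  refine sum_congr rfl fun i _ => ?_
  have e := l.single_iff (B := B) i
  have n1 := no3_5 h2 l.mv l.ma l.mb l.va l.vb l.ab i
  have n2 := no3_5 h2 l.mv l.ma l.mc l.va l.vc l.ac i
  have n3 := no3_5 h2 l.mv l.ma l.md l.va l.vd l.ad i
  have n4 := no3_5 h2 l.mv l.mb l.mc l.vb l.vc l.bc i
  have n5 := no3_5 h2 l.mv l.mb l.md l.vb l.vd l.bd i
  have n6 := no3_5 h2 l.mv l.mc l.md l.vc l.vd l.cd i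
  simp only [e]
  by_cases hv : v ∈ B i
  · by_cases ha : a ∈ B i
    · have hb : b ∉ B i := fun h => n1 ⟨hv, ha, h⟩
      have hc : c ∉ B i := fun h => n2 ⟨hv, ha, h⟩
      have hd : d ∉ B i := fun h => n3 ⟨hv, ha, h⟩
      simp [hv, ha, hb, hc, hd]
    · by_cases hb : b ∈ B i
      · have hc : c ∉ B i := fun h => n4 ⟨hv, hb, h⟩
        have hd : d ∉ B i := fun h => n5 ⟨hv, hb, h⟩
        simp [hv, ha, hb, hc, hd]
      · by_cases hc : c ∈ B i
        · have hd : d ∉ B i := fun h => n6 ⟨hv, hc, h⟩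
          simp [hv, ha, hb, hc, hd]
        · by_cases hd : d ∈ B i
          · simp [hv, ha, hb, hc, hd]
          · simp [hv, ha, hb, hc, hd]
  · simp [hv]

omit [Fintype ι] in
theorem Lab5.ne_iff (l : Lab5 L v a b c d) (i : ι) :
    (B i ∩ L).Nonempty ↔ v ∈ B i ∨ a ∈ B i ∨ b ∈ B i ∨ c ∈ B i ∨ d ∈ B i := by
  constructor
  · rintro ⟨w, hw⟩
    rw [mem_inter, l.eq] at hw
    obtain ⟨hw1, hw2⟩ := hw
    simp only [mem_insert, mem_singleton] at hw2
    rcases hw2 with e | e | e | e | e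
    · rw [e] at hw1; exact Or.inl hw1
    · rw [e] at hw1; exact Or.inr (Or.inl hw1)
    · rw [e] at hw1; exact Or.inr (Or.inr (Or.inl hw1))
    · rw [e] at hw1; exact Or.inr (Or.inr (Or.inr (Or.inl hw1)))
    · rw [e] at hw1; exact Or.inr (Or.inr (Or.inr (Or.inr hw1)))
  · rintro (h | h | h | h | h)
    · exact ⟨v, mem_inter.2 ⟨h, l.mv⟩⟩
    · exact ⟨a, mem_inter.2 ⟨h, l.ma⟩⟩
    · exact ⟨b, mem_inter.2 ⟨h, l.mb⟩⟩
    · exact ⟨c, mem_inter.2 ⟨h, l.mc⟩⟩
    · exact ⟨d, mem_inter.2 ⟨h, l.md⟩⟩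

omit [Fintype ι] in
/-- the number of the blocks meeting the leaf. -/
theorem Lab5.totS (l : Lab5 L v a b c d) (h2 : ∀ i, (B i ∩ L).card ≤ 2) (S : Finset ι) :
    2 * (S.filter (fun i => (B i ∩ L).Nonempty)).card =
      ((S.filter (fun i => v ∈ B i)).card + (S.filter (fun i => a ∈ B i)).card +
        (S.filter (fun i => b ∈ B i)).card + (S.filter (fun i => c ∈ B i)).card +
        (S.filter (fun i => d ∈ B i)).card) +
      (oo5 B L S v + oo5 B L S a + oo5 B L S b + oo5 B L S c + oo5 B L S d) := by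
  unfold oo5
  simp only [card_filter]
  rw [mul_sum]
  simp only [← sum_add_distrib]
  refine sum_congr rfl fun i _ => ?_
  have ev := l.single_iff (B := B) i
  have ea := (l.s1).single_iff (B := B) i
  have eb := (l.s2.s1).single_iff (B := B) i
  have ec := (l.s3.s2.s1).single_iff (B := B) i
  have ed := (l.s4.s3.s2.s1).single_iff (B := B) i
  have hne := l.ne_iff (B := B) i
  simp only [ev, ea, eb, ec, ed, hne]
  have n1 := no3_5 h2 l.mv l.ma l.mb l.va l.vb l.ab i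
  have n2 := no3_5 h2 l.mv l.ma l.mc l.va l.vc l.ac i
  have n3 := no3_5 h2 l.mv l.ma l.md l.va l.vd l.ad i
  have n4 := no3_5 h2 l.mv l.mb l.mc l.vb l.vc l.bc i
  have n5 := no3_5 h2 l.mv l.mb l.md l.vb l.vd l.bd i
  have n6 := no3_5 h2 l.mv l.mc l.md l.vc l.vd l.cd i
  have n7 := no3_5 h2 l.ma l.mb l.mc l.ab l.ac l.bc i
  have n8 := no3_5 h2 l.ma l.mb l.md l.ab l.ad l.bd i
  have n9 := no3_5 h2 l.ma l.mc l.md l.ac l.ad l.cd i
  have n10 := no3_5 h2 l.mb l.mc l.md l.bc l.bd l.cd i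
  clear ev ea eb ec ed hne
  by_cases hv : v ∈ B i <;> by_cases ha : a ∈ B i <;> by_cases hb : b ∈ B i <;>
    by_cases hc : c ∈ B i <;> by_cases hd : d ∈ B i <;>
    simp [hv, ha, hb, hc, hd] at n1 n2 n3 n4 n5 n6 n7 n8 n9 n10 ⊢

/-- five points with thirteen blocks, and two sets of blocks. -/
structure Lf5 (B : ι → Finset V) (L : Finset V) (Sx Sz : Finset ι) : Prop where
  reg : ∀ p ∈ L, (univ.filter (fun i => p ∈ B i)).card = 5
  cL : L.card = 5
  cmL : cm B L = 13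
  two : ∀ i, (B i ∩ L).card ≤ 2
  no3 : ∀ i ∈ Sx, ∀ j ∈ Sz, ∀ k, ¬ ∀ w ∈ L, w ∈ B i ∨ w ∈ B j ∨ w ∈ B k
  dis : ∀ i ∈ Sx, i ∈ Sz → ∀ p ∈ L, p ∉ B i
  hx : 3 ≤ (Sx.filter (fun i => (B i ∩ L).Nonempty)).card
  hz : 3 ≤ (Sz.filter (fun i => (B i ∩ L).Nonempty)).card

namespace Lf5

variable {Sx Sz : Finset ι}

theorem swap (h : Lf5 B L Sx Sz) : Lf5 B L Sz Sx where
  reg := h.reg
  cL := h.cL
  cmL := h.cmL
  two := h.two
  no3 := fun i hi j hj k hc => h.no3 j hj i hi k fun w hw => by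
    rcases hc w hw with h1 | h1 | h1
    · exact Or.inr (Or.inl h1)
    · exact Or.inl h1
    · exact Or.inr (Or.inr h1)
  dis := fun i hi hj => h.dis i hj hi
  hx := h.hz
  hz := h.hx

omit [Fintype ι] in
theorem kk5_pos {S : Finset ι} {p q : V} (h : kk5 B S p q ≠ 0) :
    ∃ i ∈ S, p ∈ B i ∧ q ∈ B i := by
  obtain ⟨i, hi⟩ := card_pos.1 (Nat.pos_of_ne_zero h)
  rw [mem_filter] at hi
  exact ⟨i, hi.1, hi.2⟩

omit [Fintype ι] in
theorem oo5_pos {S : Finset ι} {p : V} (h : oo5 B L S p ≠ 0) :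
    ∃ i ∈ S, p ∈ B i := by
  obtain ⟨i, hi⟩ := card_pos.1 (Nat.pos_of_ne_zero h)
  rw [mem_filter] at hi
  refine ⟨i, hi.1, ?_⟩
  have h1 : p ∈ B i ∩ L := by rw [hi.2]; exact mem_singleton_self p
  exact (mem_inter.1 h1).1

omit [Fintype ι] in
theorem kk5_comm (S : Finset ι) (p q : V) : kk5 B S p q = kk5 B S q p := by
  unfold kk5
  congr 1
  ext i
  simp only [mem_filter]
  tauto

omit [Fintype ι] in
theorem cases5 {w : V} (l : Lab5 L v a b c d) (hw : w ∈ L) :
    w = v ∨ w = a ∨ w = b ∨ w = c ∨ w = d := by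
  rw [l.eq] at hw
  simpa only [mem_insert, mem_singleton] using hw

/-- the first rule. -/
theorem rule1 (h : Lf5 B L Sx Sz) (l : Lab5 L v a b c d) :
    kk5 B Sx v a = 0 ∨ kk5 B Sz b c = 0 := by
  by_contra hc
  rw [not_or] at hc
  obtain ⟨i, hi, hv, ha⟩ := kk5_pos hc.1
  obtain ⟨j, hj, hb, hcc⟩ := kk5_pos hc.2
  obtain ⟨k, hk⟩ := card_pos.1 (by rw [h.reg d l.md]; norm_num :
    0 < (univ.filter (fun i => d ∈ B i)).card)
  have hk' := (mem_filter.1 hk).2
  refine h.no3 i hi j hj k ?_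
  intro w hw
  rcases cases5 l hw with e | e | e | e | e
  · rw [e]; exact Or.inl hv
  · rw [e]; exact Or.inl ha
  · rw [e]; exact Or.inr (Or.inl hb)
  · rw [e]; exact Or.inr (Or.inl hcc)
  · rw [e]; exact Or.inr (Or.inr hk')

theorem rule2 (h : Lf5 B L Sx Sz) (l : Lab5 L v a b c d) :
    kk5 B Sx v a = 0 ∨ kk5 B Sz v b = 0 ∨ kk5 B univ c d = 0 := by
  by_contra hc
  rw [not_or, not_or] at hc
  obtain ⟨i, hi, hv, ha⟩ := kk5_pos hc.1
  obtain ⟨j, hj, hv', hb⟩ := kk5_pos hc.2.1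
  obtain ⟨k, _, hcc, hd⟩ := kk5_pos hc.2.2
  refine h.no3 i hi j hj k ?_
  intro w hw
  rcases cases5 l hw with e | e | e | e | e
  · rw [e]; exact Or.inl hv
  · rw [e]; exact Or.inl ha
  · rw [e]; exact Or.inr (Or.inl hb)
  · rw [e]; exact Or.inr (Or.inr hcc)
  · rw [e]; exact Or.inr (Or.inr hd)

theorem rule3 (h : Lf5 B L Sx Sz) (l : Lab5 L v a b c d) :
    oo5 B L Sx v = 0 ∨ kk5 B Sz a b = 0 ∨ kk5 B univ c d = 0 := by
  by_contra hc
  rw [not_or, not_or] at hc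
  obtain ⟨i, hi, hv⟩ := oo5_pos hc.1
  obtain ⟨j, hj, ha, hb⟩ := kk5_pos hc.2.1
  obtain ⟨k, _, hcc, hd⟩ := kk5_pos hc.2.2
  refine h.no3 i hi j hj k ?_
  intro w hw
  rcases cases5 l hw with e | e | e | e | e
  · rw [e]; exact Or.inl hv
  · rw [e]; exact Or.inr (Or.inl ha)
  · rw [e]; exact Or.inr (Or.inl hb)
  · rw [e]; exact Or.inr (Or.inr hcc)
  · rw [e]; exact Or.inr (Or.inr hd)

theorem lek (h : Lf5 B L Sx Sz) {p q : V} (hp : p ∈ L) :
    kk5 B Sx p q + kk5 B Sz p q ≤ kk5 B univ p q := by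
  classical
  unfold kk5
  rw [← card_union_of_disjoint]
  · refine card_le_card fun i hi => ?_
    rcases mem_union.1 hi with hi | hi
    · exact mem_filter.2 ⟨mem_univ _, (mem_filter.1 hi).2⟩
    · exact mem_filter.2 ⟨mem_univ _, (mem_filter.1 hi).2⟩
  · rw [disjoint_left]
    intro i hi hi2
    obtain ⟨h1, h2, _⟩ := mem_filter.1 hi
    exact h.dis i h1 (mem_filter.1 hi2).1 p hp h2

theorem leo (h : Lf5 B L Sx Sz) {p : V} (hp : p ∈ L) :
    oo5 B L Sx p + oo5 B L Sz p ≤ oo5 B L univ p := by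
  classical
  unfold oo5
  rw [← card_union_of_disjoint]
  · refine card_le_card fun i hi => ?_
    rcases mem_union.1 hi with hi | hi
    · exact mem_filter.2 ⟨mem_univ _, (mem_filter.1 hi).2⟩
    · exact mem_filter.2 ⟨mem_univ _, (mem_filter.1 hi).2⟩
  · rw [disjoint_left]
    intro i hi hi2
    obtain ⟨h1, h2⟩ := mem_filter.1 hi
    have h5 : p ∈ B i ∩ L := by rw [h2]; exact mem_singleton_self p
    exact h.dis i h1 (mem_filter.1 hi2).1 p hp (mem_inter.1 h5).1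

theorem sumx (h : Lf5 B L Sx Sz) (l : Lab5 L v a b c d) :
    3 ≤ kk5 B Sx v a + kk5 B Sx v b + kk5 B Sx v c + kk5 B Sx v d +
      kk5 B Sx a b + kk5 B Sx a c + kk5 B Sx a d + kk5 B Sx b c +
      kk5 B Sx b d + kk5 B Sx c d + oo5 B L Sx v + oo5 B L Sx a +
      oo5 B L Sx b + oo5 B L Sx c + oo5 B L Sx d := by
  have h1 := l.totS h.two Sx
  have h2 := l.degS h.two Sx
  have h3 := (l.s1).degS h.two Sx
  have h4 := (l.s2.s1).degS h.two Sx
  have h5 := (l.s3.s2.s1).degS h.two Sx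
  have h6 := (l.s4.s3.s2.s1).degS h.two Sx
  rw [kk5_comm _ a v] at h3
  rw [kk5_comm _ b v, kk5_comm _ b a] at h4
  rw [kk5_comm _ c v, kk5_comm _ c a, kk5_comm _ c b] at h5
  rw [kk5_comm _ d v, kk5_comm _ d a, kk5_comm _ d b, kk5_comm _ d c] at h6
  have h8 := h.hx
  omega

/-- the numbers. -/
theorem n51 (h : Lf5 B L Sx Sz) :
    N51 L (kk5 B univ) (kk5 B Sx) (kk5 B Sz) (oo5 B L univ) (oo5 B L Sx) (oo5 B L Sz) where
  symm := kk5_comm _
  symx := kk5_comm _
  symz := kk5_comm _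
  le := fun _ _ hp _ _ => h.lek hp
  deg := fun {v a b c d} l => by
    have h1 := l.degS h.two univ
    rw [h.reg v l.mv] at h1
    omega
  tt := fun {v a b c d} l => by
    have h1 := l.totS h.two univ
    rw [h.reg v l.mv, h.reg a l.ma, h.reg b l.mb, h.reg c l.mc, h.reg d l.md] at h1
    have h2 : (univ.filter (fun i => (B i ∩ L).Nonempty)).card = 13 := h.cmL
    rw [h2] at h1
    omega
  tle := fun _ hp => h.leo hp
  sx := fun l => h.sumx l
  sz := fun l => h.swap.sumx l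
  r1 := fun l => h.rule1 l
  r2 := fun l => h.rule2 l
  r3 := fun l => h.rule3 l
  r4 := fun l => h.swap.rule3 l

theorem false (h : Lf5 B L Sx Sz) : False := h.n51.false h.cL

end Lf5

open Classical in
/-- **five points, cover number three, thirteen blocks: three hits against three hits are absorbed.** -/
theorem absorb5 (hr : Reg B Q) (hLQ : L ⊆ Q) (hc5 : L.card = 5) (h13 : cm B L = 13)
    (h2 : ∀ i, (B i ∩ L).card ≤ 2) (hrho : rho B L = 3)
    (hcr : ∀ w ∈ L, rho B (L.erase w) ≤ 2) {y z1 z2 : V}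
    (hy : 3 ≤ (Ez B L y).card) (hz : 3 ≤ (Ez B L z1 ∪ Ez B L z2).card) :
    Abz B L {y, z1} ∨ Abz B L {y, z2} := by
  by_contra hA
  rw [not_or] at hA
  have hcov : Cov B L := cov_of_reg (hr.mono hLQ)
  have key : ∀ {i j k : ι} {z : V}, (∀ w ∈ L, w ∈ B i ∨ w ∈ B j ∨ w ∈ B k) → y ∈ B i →
      z ∈ B j → Abz B L {y, z} := by
    intro i j k z hL hyi hzj
    refine ⟨{i, j, k}, ?_, ?_⟩
    · intro w hw
      rw [mem_biUnion]
      rcases mem_union.1 hw with hw | hw
      · rcases hL w hw with h1 | h1 | h1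
        · exact ⟨i, by simp, h1⟩
        · exact ⟨j, by simp, h1⟩
        · exact ⟨k, by simp, h1⟩
      · simp only [mem_insert, mem_singleton] at hw
        rcases hw with rfl | rfl
        · exact ⟨i, by simp, hyi⟩
        · exact ⟨j, by simp, hzj⟩
    · rw [hrho]
      exact card_le_three
  have key2 : ∀ {i : ι} {z p : V}, p ∈ L → p ∈ B i → y ∈ B i → z ∈ B i →
      Abz B L {y, z} := by
    intro i z p hp hpi hyi hzi
    obtain ⟨T, hT1, hT2⟩ := exists_cover (hcov.mono (erase_subset p L))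
    refine ⟨insert i T, ?_, ?_⟩
    · intro w hw
      rw [biUnion_insert, mem_union]
      rcases mem_union.1 hw with hw | hw
      · by_cases hwp : w = p
        · rw [hwp]
          exact Or.inl hpi
        · exact Or.inr (hT1 (mem_erase.2 ⟨hwp, hw⟩))
      · simp only [mem_insert, mem_singleton] at hw
        rcases hw with rfl | rfl
        · exact Or.inl hyi
        · exact Or.inl hzi
    · have h1 := hcr p hp
      have h3 := card_insert_le i T
      rw [hrho]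
      omega
  have hL : Lf5 B L (univ.filter (fun i => y ∈ B i)) (univ.filter (fun i => z1 ∈ B i ∨ z2 ∈ B i)) := {
    reg := fun p hp => hr p (hLQ hp)
    cL := hc5
    cmL := h13
    two := h2
    no3 := by
      intro i hi j hj k hc
      rcases (mem_filter.1 hj).2 with h1 | h1
      · exact hA.1 (key hc (mem_filter.1 hi).2 h1)
      · exact hA.2 (key hc (mem_filter.1 hi).2 h1)
    dis := by
      intro i hi hj p hp hpi
      rcases (mem_filter.1 hj).2 with h1 | h1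
      · exact hA.1 (key2 hp hpi (mem_filter.1 hi).2 h1)
      · exact hA.2 (key2 hp hpi (mem_filter.1 hi).2 h1)
    hx := by
      refine hy.trans (card_le_card fun i hi => ?_)
      obtain ⟨h1, h3⟩ := mem_Ez.1 hi
      exact mem_filter.2 ⟨mem_filter.2 ⟨mem_univ _, h1⟩, h3⟩
    hz := by
      refine hz.trans (card_le_card fun i hi => ?_)
      rcases mem_union.1 hi with hi | hi
      · obtain ⟨h1, h3⟩ := mem_Ez.1 hi
        exact mem_filter.2 ⟨mem_filter.2 ⟨mem_univ _, Or.inl h1⟩, h3⟩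
      · obtain ⟨h1, h3⟩ := mem_Ez.1 hi
        exact mem_filter.2 ⟨mem_filter.2 ⟨mem_univ _, Or.inr h1⟩, h3⟩ }
  exact hL.false

section

variable {U : Finset V} {T : Finset ι} {F : Finset (Finset V)}

/-- the traces of the blocks on a leaf. -/
theorem Frm.two5 (h : Frm B Q T U F) (hL : L ∈ F) (i : ι) : (B i ∩ L).card ≤ 2 := by
  rcases (B i ∩ L).eq_empty_or_nonempty with h0 | ⟨v, hv⟩
  · rw [h0, card_empty]
    exact Nat.zero_le _
  · obtain ⟨hv1, hv2⟩ := mem_inter.1 hv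
    exact (card_le_card (inter_subset_inter_left (h.FD hL))).trans (h.two_leaf hL hv1 hv2)

/-- a leaf with value five and no double single block has five points and thirteen blocks. -/
theorem Frm.five (h : Frm B Q T U F) (hr : Reg B Q) (hL : L ∈ F) (he : ee B Q L = 0)
    (hd : dv B Q L = 5) : L.card = 5 ∧ cm B L = 13 ∧ rho B L = 3 := by
  have h2 := h.two5 hL
  have h3 : ∀ i, (B i ∩ L).card ≤ 3 := fun i => (h2 i).trans (by norm_num)
  have h4 := inc_eq3 (hr.mono (h.FQ hL)) h3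
  have h5 := cm_eq3 h3
  have h6 : nt B L 3 = 0 := by
    unfold nt
    rw [card_eq_zero, trs, filter_eq_empty_iff]
    intro i _ h7
    have h8 := h2 i
    omega
  have h7 := h.sv_leaf hL
  unfold dv at hd
  rw [_root_.Pool.Agent.Hyp6.Pv_eq, he] at hd
  unfold sv at h7
  push_cast at hd
  omega

/-- a leaf of a frame with a triple. -/
theorem ViolR.cr3p (hv : ViolR B Q) (h : Frm B Q T U F) {j0 : ι} (hj0 : j0 ∈ T) (hL : L ∈ F) :
    Cr3 B Q L where
  ih := hv.ih
  ihr := hv.ihr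
  reg := hv.reg
  tr := hv.tr
  cq := hv.conn
  sub := h.FQ hL
  conn := ⟨(h.ge.sys.fc L hL).1, fun _ hZ hne => (h.ge.sys.fc L hL).conn hZ hne⟩
  card := by
    have h1 : L ⊆ Q \ (B j0 ∩ Q) := fun _ hvL =>
      mem_sdiff.2 ⟨h.FQ hL hvL, fun h1 => (h.T_out hj0 h1).2 L hL hvL⟩
    have h2 := card_le_card h1
    rw [card_sdiff_of_subset inter_subset_right, h.full hj0] at h2
    have h3 := card_le_card (inter_subset_right : B j0 ∩ Q ⊆ Q)
    rw [h.full hj0] at h3
    omega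

open Classical in
/-- **three hits against three hits are absorbed if the value is at most five.** -/
theorem ViolR.absorb33 (hv : ViolR B Q) (h : Frm B Q T U F) {j0 : ι} (hj0 : j0 ∈ T)
    (hL : L ∈ F) (hd : dv B Q L ≤ 5) (he : dv B Q L = 5 → ee B Q L = 0) {y z1 z2 : V}
    (hyQ : y ∈ Q) (hyC : y ∉ L) (h1Q : z1 ∈ Q) (h1C : z1 ∉ L) (h2Q : z2 ∈ Q) (h2C : z2 ∉ L)
    (hy1 : y ≠ z1) (hy2 : y ≠ z2) (hy : 3 ≤ (Ez B L y).card)
    (hz : 3 ≤ (Ez B L z1 ∪ Ez B L z2).card) : Abz B L {y, z1} ∨ Abz B L {y, z2} := by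
  rcases hd.lt_or_eq with hd | hd
  · by_contra hA
    rw [not_or] at hA
    have h1 := (hv.cr3p h hj0 hL).mrgF hyQ hyC h1Q h1C h2Q h2C hy1 hy2 hA.1 hA.2 (m1 := 3)
      (m2 := 3) hy hz (by norm_num) (by norm_num) (by norm_num) (by norm_num) (by norm_num)
    rw [lv_neg (by rw [h.sv_leaf hL])] at h1
    norm_num at h1
    omega
  · obtain ⟨h1, h2, h3⟩ := h.five hv.reg hL (he hd) hd
    refine absorb5 hv.reg (h.FQ hL) h1 h2 (h.two5 hL) h3 (fun w hw => ?_) hy hz
    have h4 := rho_erase_fc (h.ge.sys.fc L hL) (h.sv_leaf hL) hw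
    omega

/-- the value of a leaf is odd. -/
theorem Frm.even_P (h : Frm B Q T U F) (hL : L ∈ F) {P : ℕ} (hP : (P : ℤ) = dv B Q L + 1) :
    Even P := by
  have h7 := h.sv_leaf hL
  unfold dv at hP
  rw [_root_.Pool.Agent.Hyp6.Pv_eq] at hP
  unfold sv at h7
  rw [Nat.even_iff]
  omega

open Classical in
/-- **a point refused together with two points, the form for the table.** -/
theorem ViolR.ref_joint (hv : ViolR B Q) (h : Frm B Q T U F) {j0 : ι} (hj0 : j0 ∈ T)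
    (hL : L ∈ F) {P : ℕ} (hP : (P : ℤ) = dv B Q L + 1) (he : dv B Q L = 5 → ee B Q L = 0)
    {y z1 z2 : V} (hyQ : y ∈ Q) (hyC : y ∉ L) (h1Q : z1 ∈ Q) (h1C : z1 ∉ L) (h2Q : z2 ∈ Q)
    (h2C : z2 ∉ L) (hy1 : y ≠ z1) (hy2 : y ≠ z2) (hA1 : ¬ Abz B L {y, z1})
    (hA2 : ¬ Abz B L {y, z2}) : refP P (Ez B L y).card (Ez B L z1 ∪ Ez B L z2).card := by
  refine refP_of_fv (h.even_P hL hP) ?_ fun h1 h2 h6 => ?_
  · have h1 := (hv.cr3p h hj0 hL).fv_joint hyQ hyC h1Q h1C h2Q h2C hy1 hy2 hA1 hA2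
    rw [lv_neg (by rw [h.sv_leaf hL])] at h1
    omega
  · have h3 : dv B Q L = 5 := by omega
    rcases hv.absorb33 h hj0 hL h3.le he hyQ hyC h1Q h1C h2Q h2C hy1 hy2 h1 h2 with h4 | h4
    · exact hA1 h4
    · exact hA2 h4

/-- **a refused pair, the form for the table.** -/
theorem ViolR.ref_pair (hv : ViolR B Q) (h : Frm B Q T U F) {j0 : ι} (hj0 : j0 ∈ T)
    (hL : L ∈ F) {P : ℕ} (hP : (P : ℤ) = dv B Q L + 1) (he : dv B Q L = 5 → ee B Q L = 0)
    {y z : V} (hyQ : y ∈ Q) (hyC : y ∉ L) (hzQ : z ∈ Q) (hzC : z ∉ L) (hyz : y ≠ z)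
    (hA : ¬ Abz B L {y, z}) : refP P (Ez B L y).card (Ez B L z).card := by
  classical
  have h1 := hv.ref_joint h hj0 hL hP he hyQ hyC hzQ hzC hzQ hzC hyz hyz hA hA
  rw [union_self] at h1
  exact h1

end

end Pool.Agent.Hyp6
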