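import Pool.Agent.Hyp6.L3Ve
import Pool.Agent.Hyp6.L3P5
import Pool.Agent.Hyp6.L3Y10

/-!
# HYP6 L3Vf: single leaves with a centre and line triples, the line of finT

`Stg.sB_51`: at a leaf with five points and one single trace the pair of a centred triple has at most
six hits. `StgR.BL1`: the line `BL` of `finT`. `StgR.ms_pm1`: the need of a private single leaf with a
centre.
-/

set_option autoImplicit false

namespace Pool.Agent.Hyp6

open Finset Pool.Agent.Hyp5 Rt

universe u v

variable {V : Type v} [DecidableEq V] {ι : Type u} [Fintype ι] [DecidableEq ι]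
  {B : ι → Finset V}

namespace Stg

variable {Q U : Finset V} {T : Finset ι} {F : Finset (Finset V)}
  {P : Finset (Finset (Finset V))} {a : V → Finset (Finset V) → ℕ} {W : Finset V} {j : ι}

/-- **the pair of a centred triple is refused by the centre**. -/
theorem sB_ref (s : Stg B Q T U F P a) (hW : {W} ∈ P) (hj : j ∈ T) {x y z : V}
    (hB : BT B Q F (par0 B U F) j x y z {W}) : ¬ Abz B W {x, y} := by
  intro hab
  have hWF : W ∈ F := (s.part.ptn.vc {W} hW).sub (mem_singleton_self W)
  obtain ⟨M, hM, hMW⟩ := not_subset.1 hB.nsc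
  have hMF : M ∈ F := slf_sub hM
  obtain ⟨D, hD, hMD⟩ := exists_cls s.part hMF
  have hne : {W} ≠ D := by
    rintro rfl
    exact hMW hMD
  have hz : z ∈ B j ∩ Q := by rw [hB.eq]; simp
  have h1 := s.frm.refuse_cls (s.frm.gdT (R := Rg B Q T U F)) s.part hW hD hne hj (x := z) hz hMD
    hM (X := {x, y}) (by
      intro v hv
      have h2 : v ∈ B j ∩ Q := by
        rw [hB.eq]
        rw [mem_insert, mem_singleton] at hv
        rcases hv with rfl | rfl <;> simp
      exact (mem_inter.1 h2).2) (by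
      rw [hB.eq]
      intro v hv
      simp only [mem_insert, mem_singleton] at hv ⊢
      tauto)
  rw [sum_singleton, s.uin_one, empty_union, singleton_biUnion, id] at h1
  have h2 := hab.rho_le'
  omega

/-- **five points, one single trace: the pair has at most six hits**. -/
theorem sB_51 (s : Stg B Q T U F P a) (hW : {W} ∈ P) (hj : j ∈ Bs B Q T U F P W)
    (h5 : W.card = 5) (h1 : nt B W 1 = 1) : sB B Q F j W ≤ 6 := by
  have hWF : W ∈ F := (s.part.ptn.vc {W} hW).sub (mem_singleton_self W)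
  obtain ⟨hjT, h0, _, x, y, z, hB⟩ := mem_Bs.1 hj
  have hT := (s.frm.types_trs s.part hjT).1
  have hN := s.one hWF
  have hp := hN.pp
  have hee : ee B Q W = 0 := by
    have := s.two_ee_nt hWF
    omega
  have hdv : dv B Q W = 5 := by
    rw [s.dv_W hWF, hp, hee, h1, h5]
    norm_num
  have hx : x ∈ B j ∩ Q := by rw [hB.eq]; simp
  have hy : y ∈ B j ∩ Q := by rw [hB.eq]; simp
  have hout : ∀ v ∈ B j ∩ Q, v ∉ W := fun v hv h2 => (s.frm.T_out hT hv).2 W hWF h2
  rw [hB.toBT.sB_eq]
  have h4 : ∀ p ∈ B j ∩ Q, uh B p W ≤ 4 := fun p hp =>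
    (single_le_sum (f := fun L => uh B p L) (fun _ _ => Nat.zero_le _) hWF).trans
      (s.frm.four_t s.viol.reg hT hp)
  have h6 := h4 x hx
  have h7 := h4 y hy
  by_contra hcon
  have h8 : 3 ≤ (Ez B W x).card := by
    rw [← uh_Ez]
    omega
  have h9 : 3 ≤ (Ez B W y ∪ Ez B W y).card := by
    rw [union_self, ← uh_Ez]
    omega
  rcases s.viol.absorb33 s.frm hT hWF hdv.le (fun _ => hee) (mem_inter.1 hx).2 (hout x hx)
    (mem_inter.1 hy).2 (hout y hy) (mem_inter.1 hy).2 (hout y hy) hB.toBT.ab hB.toBT.ab h8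
    (by convert h9) with h10 | h10
  · exact s.sB_ref hW hT hB.toBT h10
  · exact s.sB_ref hW hT hB.toBT h10

end Stg

namespace StgR

variable {Q U : Finset V} {T : Finset ι} {F : Finset (Finset V)}
  {P : Finset (Finset (Finset V))} {a : V → Finset (Finset V) → ℕ}

/-- **the line `BL` of `finT`**. -/
theorem BL1 (s : StgR B Q T U F P a) (hF : Few B Q T F) :
    ∀ L, {L} ∈ P → ¬ Ful B Q T U F P a {L} → (aC B Q T U F P {L}).Nonempty →
      (2 ≤ (aC B Q T U F P {L}).card ∨ ∀ j ∈ aC B Q T U F P {L}, (lj B Q U F P j).card = 2) →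
      KC B Q T U F {L} = ∅ → (Bs B Q T U F P L).Nonempty → ¬ Exa B Q T U F P {L} →
      NdOk B Q T U F P a {L} :=
  fun _ hL hf hq _ hK hb _ =>
    s.BL hF hL hf hK hb hq fun _ hj h5 h1 => s.toStg.sB_51 hL hj h5 h1

/-- **the need of a private single leaf with a centre**. -/
theorem ms_pm1 (s : StgR B Q T U F P a) (hF : Few B Q T F) {W : Finset V} {j : ι}
    (hW : {W} ∈ P) (hf : ¬ Ful B Q T U F P a {W})
    (hK : KC B Q T U F {W} = ∅) (hb : (Bs B Q T U F P W).Nonempty)
    (hj : aC B Q T U F P {W} = {j}) (h2 : (lj B Q U F P j).card = 2) :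
    ndF B Q T U F P a {W} ≤ pm (jC B Q j {W}) :=
  s.ms_pm hF hW hf hK hb (fun _ hj h5 h1 => s.toStg.sB_51 hW hj h5 h1) hj h2

end StgR

end Pool.Agent.Hyp6
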