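import Pool.Agent.Hyp6.L3Lu
import Pool.Agent.Hyp6.L3Vf
import Pool.Agent.Hyp6.L3Fz3
import Pool.Agent.Hyp6.L3N4
import Pool.Agent.Hyp6.L3Rdb
import Pool.Agent.Hyp6.L3Ex4

/-!
# HYP6 L3Lv: the last step, the single leaves with a centre filled in

`StgR.pTwo`: the fact on two poor triples. `NdOk.priv`, `NdOk.zero`: what a paid class gives for one and
for no line triple. `StgR.last3`: the last step. `StgR.last4`: the fat lines filled in, too.
-/

set_option autoImplicit false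

namespace Pool.Agent.Hyp6

open Finset Pool.Agent.Hyp5 Rt

universe u v

variable {V : Type v} [DecidableEq V] {ι : Type u} [Fintype ι] [DecidableEq ι]
  {B : ι → Finset V} {Q U : Finset V} {T : Finset ι} {F : Finset (Finset V)}
  {P : Finset (Finset (Finset V))} {a : V → Finset (Finset V) → ℕ}

/-- a paid class with one line triple on a line with two classes. -/
theorem NdOk.priv {C : Finset (Finset V)} (h : NdOk B Q T U F P a C) {j : ι}
    (hq : aC B Q T U F P C = {j}) (h2 : (lj B Q U F P j).card = 2) :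
    ndF B Q T U F P a C ≤ pm (jC B Q j C) := by
  have h4 := h (fun k => pm (jC B Q k C)) (fun _ _ _ => le_rfl) (fun k hk h3 => by
    rw [hq, mem_singleton] at hk
    rw [hk] at h3
    omega)
  rw [hq, sum_singleton] at h4
  exact h4

/-- a paid class without line triple. -/
theorem NdOk.zero {C : Finset (Finset V)} (h : NdOk B Q T U F P a C)
    (h0 : (aC B Q T U F P C).card = 0) : ndF B Q T U F P a C ≤ 0 := by
  have h4 := h (fun _ => 0) (fun j hj => by
    rw [card_eq_zero.1 h0] at hj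
    exact absurd hj (notMem_empty _)) (fun j hj => by
    rw [card_eq_zero.1 h0] at hj
    exact absurd hj (notMem_empty _))
  rwa [sum_const_zero] at h4

namespace StgR

/-- **two poor triples**. -/
theorem pTwo (s : StgR B Q T U F P a) : PTwo B Q T U F :=
  fun hj h3 _ _ _ _ hB h5 h4 _ hM hM3 hM1 hU _ hci hi _ _ hk hkj h3' _ _ _ _ hB' hxx h5' h4' _ hz
    hz3 hxl hzl hvl =>
    s.poorP_two hj h3 hB h5 h4 hM hM3 hM1 hU hci hi hk hkj h3' hB' hxx h5' h4' hz hz3 hxl hzl hvl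

/-- **the last step with the proved lines filled in**, third form. -/
theorem last3 (s : StgR B Q T U F P a)
    -- facts proved by tables
    (hF : Few B Q T F) (h3 : Lf3 B Q T U F P) (hga : Ga31 B Q T U F) (h31 : G31 B Q T U F)
    (h73 : R73 B Q T F)
    (L2S : ∀ j ∈ tl B Q T U F P, ∀ C D, C ≠ D → lj B Q U F P j = {C, D} →
      aC B Q T U F P C = {j} → aC B Q T U F P D = {j} →
      KC B Q T U F C = ∅ → KC B Q T U F D = ∅ → NCt B Q T U F P C → NCt B Q T U F P D →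
      C.card = 1 → D.card = 1 →
      ndF B Q T U F P a C + ndF B Q T U F P a D ≤
        8 * sT B Q T U F 15 j + tF B Q T U F P j - 1120)
    (CN : ∀ C ∈ P, ¬ Ful B Q T U F P a C → 2 ≤ C.card → 2 ≤ (aC B Q T U F P C).card →
      KC B Q T U F C = ∅ → NCt B Q T U F P C → ¬ Exa B Q T U F P C → NdOk B Q T U F P a C)
    -- composite classes with a centre
    (PE : ∀ j ∈ tl B Q T U F P, ∀ C D, C ≠ D → lj B Q U F P j = {C, D} →
      aC B Q T U F P D = {j} → ¬ Ful B Q T U F P a D → 2 ≤ D.card → KC B Q T U F D = ∅ →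
      ¬ NCt B Q T U F P D → ndF B Q T U F P a D ≤ pmC (jC B Q j D))
    (E0 : ∀ C ∈ P, ¬ Ful B Q T U F P a C → 2 ≤ C.card → (aC B Q T U F P C).card = 0 →
      KC B Q T U F C = ∅ → ¬ NCt B Q T U F P C → msC 149 B Q T U F P a C ≤ 0)
    (EN : ∀ C ∈ P, ¬ Ful B Q T U F P a C → 2 ≤ C.card → 2 ≤ (aC B Q T U F P C).card →
      KC B Q T U F C = ∅ → ¬ NCt B Q T U F P C → ¬ Exa B Q T U F P C → NdOk B Q T U F P a C)
    -- composite classes with inside triples
    (DD : ∀ C ∈ P, ¬ Ful B Q T U F P a C → ¬ Exa B Q T U F P C → 2 ≤ C.card →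
      (KC B Q T U F C).Nonempty → NdOk B Q T U F P a C)
    -- the fat lines
    (LF : ∀ j ∈ tl B Q T U F P, 1 ≤ (oj B Q U F P j).card →
      ∑ C ∈ (lj B Q U F P j).filter (fun C => (aC B Q T U F P C).card = 1),
        ndF B Q T U F P a C +
      ∑ C ∈ (lj B Q U F P j).filter (fun C => 2 ≤ (aC B Q T U F P C).card),
        fcl 149 B Q T U F P a (tF B Q T U F P) j C ≤
        8 * sT B Q T U F 15 j + tF B Q T U F P j - 1120 +
          168 * ∑ u ∈ oj B Q U F P j, (uo B Q T U F u : ℤ)) : False := by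
  refine s.last2 hF h3 hga h31 h73 L2S CN
    (fun L hL _ h0 hK hb => s.B0 hF s.pTwo L hL h0 hK hb) (s.BL1 hF) PE E0 EN
    (fun j hj C D hCD hl hq hf h2 hK => ?_) (fun C hC hf h2 h0 hK => ?_)
    (fun C hC hf h2 _ hK hx => DD C hC hf hx h2 hK) LF
  · have hDP : D ∈ P := s.lnf.sub j hj (by rw [hl]; simp)
    have hl2 : (lj B Q U F P j).card = 2 := by rw [hl, card_pair hCD]
    have hx : ¬ Exa B Q T U F P D := by
      rintro ⟨k, hk, h4, _⟩
      rw [hq, mem_singleton] at hk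
      rw [hk] at h4
      omega
    exact ((DD D hDP hf hx h2 hK).priv hq hl2).trans (pm_le_pmC _)
  · refine (DD C hC hf ?_ h2 hK).zero h0
    rintro ⟨k, hk, _⟩
    rw [card_eq_zero.1 h0] at hk
    exact notMem_empty _ hk

/-- **the fat lines**, from the composite classes with a centre or with inside triples. -/
theorem LF_of (s : StgR B Q T U F P a) (hF : Few B Q T F) (hga : Ga31 B Q T U F)
    (hz : ∀ L, {L} ∈ P → L.card = 3 → nt B L 1 = 1 → dv B Q L = -1 → hit B U L ≤ 2 →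
      ∀ j ∈ T, 4 ≤ jh B Q j L → ∑ C ∈ F.erase L, jh B Q j C = 0)
    (LE : ∀ C ∈ P, 2 ≤ C.card → ¬ Ful B Q T U F P a C → KC B Q T U F C = ∅ →
      ¬ NCt B Q T U F P C → ∀ j ∈ aC B Q T U F P C, 1 ≤ (oj B Q U F P j).card →
        Exs B Q T U F P a (tF B Q T U F P) j C ≤ exS (jC B Q j C))
    (LD : ∀ C ∈ P, 2 ≤ C.card → ¬ Ful B Q T U F P a C → (KC B Q T U F C).Nonempty →
      ∀ j ∈ aC B Q T U F P C, 1 ≤ (oj B Q U F P j).card →
        Exs B Q T U F P a (tF B Q T U F P) j C ≤ exS (jC B Q j C)) :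
    ∀ j ∈ tl B Q T U F P, 1 ≤ (oj B Q U F P j).card →
      ∑ C ∈ (lj B Q U F P j).filter (fun C => (aC B Q T U F P C).card = 1),
        ndF B Q T U F P a C +
      ∑ C ∈ (lj B Q U F P j).filter (fun C => 2 ≤ (aC B Q T U F P C).card),
        fcl 149 B Q T U F P a (tF B Q T U F P) j C ≤
        8 * sT B Q T U F 15 j + tF B Q T U F P j - 1120 +
          168 * ∑ u ∈ oj B Q U F P j, (uo B Q T U F u : ℤ) := by
  refine s.LF_all hF hga (fun L hL i hi h5 h1 => s.toStg.sB_51 hL hi h5 h1) hz ?_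
  intro C hC h2 hf j hj ho
  by_cases hK : KC B Q T U F C = ∅
  · by_cases hn : NCt B Q T U F P C
    · exact s.exc_comp hC h2 hf hj ho hK hn
    · exact LE C hC h2 hf hK hn j hj ho
  · exact LD C hC h2 hf (nonempty_iff_ne_empty.2 hK) j hj ho

/-- **the last step with the proved lines filled in**, fourth form. -/
theorem last4 (s : StgR B Q T U F P a)
    -- facts proved by tables
    (hF : Few B Q T F) (h3 : Lf3 B Q T U F P) (hga : Ga31 B Q T U F) (h31 : G31 B Q T U F)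
    (h73 : R73 B Q T F)
    (L2S : ∀ j ∈ tl B Q T U F P, ∀ C D, C ≠ D → lj B Q U F P j = {C, D} →
      aC B Q T U F P C = {j} → aC B Q T U F P D = {j} →
      KC B Q T U F C = ∅ → KC B Q T U F D = ∅ → NCt B Q T U F P C → NCt B Q T U F P D →
      C.card = 1 → D.card = 1 →
      ndF B Q T U F P a C + ndF B Q T U F P a D ≤
        8 * sT B Q T U F 15 j + tF B Q T U F P j - 1120)
    (CN : ∀ C ∈ P, ¬ Ful B Q T U F P a C → 2 ≤ C.card → 2 ≤ (aC B Q T U F P C).card →
      KC B Q T U F C = ∅ → NCt B Q T U F P C → ¬ Exa B Q T U F P C → NdOk B Q T U F P a C)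
    (hz : ∀ L, {L} ∈ P → L.card = 3 → nt B L 1 = 1 → dv B Q L = -1 → hit B U L ≤ 2 →
      ∀ j ∈ T, 4 ≤ jh B Q j L → ∑ C ∈ F.erase L, jh B Q j C = 0)
    -- composite classes with a centre
    (PE : ∀ j ∈ tl B Q T U F P, ∀ C D, C ≠ D → lj B Q U F P j = {C, D} →
      aC B Q T U F P D = {j} → ¬ Ful B Q T U F P a D → 2 ≤ D.card → KC B Q T U F D = ∅ →
      ¬ NCt B Q T U F P D → ndF B Q T U F P a D ≤ pmC (jC B Q j D))
    (E0 : ∀ C ∈ P, ¬ Ful B Q T U F P a C → 2 ≤ C.card → (aC B Q T U F P C).card = 0 →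
      KC B Q T U F C = ∅ → ¬ NCt B Q T U F P C → msC 149 B Q T U F P a C ≤ 0)
    (EN : ∀ C ∈ P, ¬ Ful B Q T U F P a C → 2 ≤ C.card → 2 ≤ (aC B Q T U F P C).card →
      KC B Q T U F C = ∅ → ¬ NCt B Q T U F P C → ¬ Exa B Q T U F P C → NdOk B Q T U F P a C)
    (LE : ∀ C ∈ P, 2 ≤ C.card → ¬ Ful B Q T U F P a C → KC B Q T U F C = ∅ →
      ¬ NCt B Q T U F P C → ∀ j ∈ aC B Q T U F P C, 1 ≤ (oj B Q U F P j).card →
        Exs B Q T U F P a (tF B Q T U F P) j C ≤ exS (jC B Q j C))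
    -- composite classes with inside triples
    (DD : ∀ C ∈ P, ¬ Ful B Q T U F P a C → ¬ Exa B Q T U F P C → 2 ≤ C.card →
      (KC B Q T U F C).Nonempty → NdOk B Q T U F P a C)
    (h22 : ∀ C ∈ P, 2 ≤ C.card → ¬ Ful B Q T U F P a C →
      (C.card : ℤ) - (Sp.Uin U (slf B F) C).card = 2 → (KC B Q T U F C).card = 2 →
      ∀ j ∈ aC B Q T U F P C, 1 ≤ (oj B Q U F P j).card →
        Exs B Q T U F P a (tF B Q T U F P) j C ≤ exS (jC B Q j C))
    (hA : ∀ C ∈ P, (3 : ℤ) ≤ (C.card : ℤ) - (Sp.Uin U (slf B F) C).card →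
      (C.card : ℤ) - (Sp.Uin U (slf B F) C).card ≤ 4 →
      ∀ k ∈ Sp.Kin (Rg B Q T U F) (slj B Q F) C, ncl B Q T U F P k ≤ 3) : False :=
  s.last3 hF h3 hga h31 h73 L2S CN PE E0 EN DD
    (s.LF_of hF hga hz LE fun C hC h2 hf hK j hj ho =>
      s.exc_dense hA hC hf hj ho hK fun hr hk => h22 C hC h2 hf hr hk j hj ho)

end StgR

end Pool.Agent.Hyp6
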