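import Pool.Agent.Hyp6.L3Ue

/-!
# HYP6 L3Lx: two triples replaced at once

A triple `{a, b, c}` with a leaf `{x}` adjacent to `c`, a second triple `{p, q, s}` and a block with
the trace `{a, b, s}`. If a block of `p` has two points `w`, `w'` in a leaf `L` different from `{x}`
then every block of `q` with its two other points in the rest meets `{w, w'}` (`Frm.Dxe.meet`), and in
an `MTE` frame `L` is not free together with every other leaf if `L - ww'` is factor-critical and `c`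
sees a third leaf (`MTE.no_double`).
-/

set_option autoImplicit false

namespace Pool.Agent.Hyp6

open Finset Pool.Agent.Hyp5

universe u v

variable {V : Type v} [DecidableEq V] {ι : Type u} {B : ι → Finset V}

/-- **replacing several triples of the packing**: the new packing and the new rest. -/
theorem MTP.rep [DecidableEq ι] {Q : Finset V} {T : Finset ι} (h : MTP B Q T)
    {R N : Finset ι} (hR : R ⊆ T) (h3 : ∀ i ∈ N, (B i ∩ Q).card = 3)
    (hN : ∀ i ∈ N, ∀ k ∈ N, i ≠ k → Disjoint (B i ∩ Q) (B k ∩ Q))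
    (hT : ∀ i ∈ N, ∀ k ∈ T, k ∉ R → Disjoint (B i ∩ Q) (B k ∩ Q)) :
    Pack B Q 3 ((T \ R) ∪ N) ∧ ((T \ R) ∪ N).card + R.card = T.card + N.card ∧
      Dp B Q ((T \ R) ∪ N) = (Dp B Q T ∪ R.biUnion fun j => B j ∩ Q) \ N.biUnion B := by
  have hdis : Disjoint (T \ R) N := by
    rw [disjoint_left]
    intro i hi hiN
    obtain ⟨h1, h2⟩ := mem_sdiff.1 hi
    have h4 := hT i hiN i h1 h2
    rw [disjoint_self] at h4
    have h5 := h3 i hiN
    rw [h4] at h5
    simp at h5
  refine ⟨⟨fun k hk => ?_, fun k hk l hl hne => ?_⟩, ?_, ?_⟩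
  · rcases mem_union.1 hk with hk1 | hk1
    · exact h.tpk.pack.card k (mem_sdiff.1 hk1).1
    · exact h3 k hk1
  · rcases mem_union.1 hk with hk1 | hk1 <;> rcases mem_union.1 hl with hl1 | hl1
    · exact h.tpk.pack.disj k (mem_sdiff.1 hk1).1 l (mem_sdiff.1 hl1).1 hne
    · exact (hT l hl1 k (mem_sdiff.1 hk1).1 (mem_sdiff.1 hk1).2).symm
    · exact hT k hk1 l (mem_sdiff.1 hl1).1 (mem_sdiff.1 hl1).2
    · exact hN k hk1 l hl1 hne
  · rw [card_union_of_disjoint hdis]
    have h5 := card_sdiff_add_card_eq_card hR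
    omega
  · ext v
    simp only [Dp, mem_sdiff, mem_union, mem_inter, mem_biUnion]
    constructor
    · rintro ⟨hv, h1⟩
      have h2 : ¬ ∃ i ∈ N, v ∈ B i := by
        rintro ⟨i, hi, hvi⟩
        exact h1 ⟨i, Or.inr hi, hvi⟩
      refine ⟨?_, h2⟩
      by_cases h3 : ∃ j ∈ R, v ∈ B j
      · obtain ⟨j, hj, hvj⟩ := h3
        exact Or.inr ⟨j, hj, hvj, hv⟩
      · refine Or.inl ⟨hv, ?_⟩
        rintro ⟨k, hk, hvk⟩
        by_cases hkR : k ∈ R
        · exact h3 ⟨k, hkR, hvk⟩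
        · exact h1 ⟨k, Or.inl ⟨hk, hkR⟩, hvk⟩
    · rintro ⟨h1 | ⟨j, hj, hvj, hvQ⟩, h2⟩
      · refine ⟨h1.1, ?_⟩
        rintro ⟨k, hk | hk, hvk⟩
        · exact h1.2 ⟨k, hk.1, hvk⟩
        · exact h2 ⟨k, hk, hvk⟩
      · refine ⟨hvQ, ?_⟩
        rintro ⟨k, hk | hk, hvk⟩
        · have hne : k ≠ j := fun he => hk.2 (he ▸ hj)
          exact disjoint_left.1 (h.tpk.pack.disj k hk.1 j (hR hj) hne) (mem_inter.2 ⟨hvk, hvQ⟩)
            (mem_inter.2 ⟨hvj, hvQ⟩)
        · exact h2 ⟨k, hk, hvk⟩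

/-- as many new triples as old ones: again a maximal packing. -/
theorem MTP.rep_mtp [DecidableEq ι] {Q : Finset V} {T : Finset ι} (h : MTP B Q T) (hc : Cov B Q)
    {R N : Finset ι} (hR : R ⊆ T) (h3 : ∀ i ∈ N, (B i ∩ Q).card = 3)
    (hN : ∀ i ∈ N, ∀ k ∈ N, i ≠ k → Disjoint (B i ∩ Q) (B k ∩ Q))
    (hT : ∀ i ∈ N, ∀ k ∈ T, k ∉ R → Disjoint (B i ∩ Q) (B k ∩ Q)) (hcard : N.card = R.card)
    (hrho : rho B (Dp B Q ((T \ R) ∪ N)) ≤ rho B (Dp B Q T)) : MTP B Q ((T \ R) ∪ N) := by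
  obtain ⟨h1, h2, _⟩ := h.rep hR h3 hN hT
  have h4 := rho_le_peel ((T \ R) ∪ N) hc
  have h5 := h.tpk.opt
  unfold Dp at hrho
  refine ⟨⟨h1, by omega⟩, fun T' hT' => ?_⟩
  have := h.max T' hT'
  omega

/-- one new triple more: the new rest is not cheaper. -/
theorem MTP.rep_lt [DecidableEq ι] {Q : Finset V} {T : Finset ι} (h : MTP B Q T) (hc : Cov B Q)
    {R N : Finset ι} (hR : R ⊆ T) (h3 : ∀ i ∈ N, (B i ∩ Q).card = 3)
    (hN : ∀ i ∈ N, ∀ k ∈ N, i ≠ k → Disjoint (B i ∩ Q) (B k ∩ Q))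
    (hT : ∀ i ∈ N, ∀ k ∈ T, k ∉ R → Disjoint (B i ∩ Q) (B k ∩ Q)) (hcard : R.card < N.card) :
    rho B (Dp B Q T) < rho B (Dp B Q ((T \ R) ∪ N)) + (N.card - R.card) := by
  obtain ⟨h1, h2, _⟩ := h.rep hR h3 hN hT
  by_contra hcon
  have h4 := rho_le_peel ((T \ R) ∪ N) hc
  have h5 := h.tpk.opt
  unfold Dp at hcon
  have := h.max _ ⟨h1, by omega⟩
  omega

theorem mem_tr {Q S : Finset V} {i : ι} (h : B i ∩ Q = S) {v : V} (hv : v ∈ Q) :
    v ∈ B i ↔ v ∈ S := by
  rw [← h, mem_inter]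
  exact (and_iff_left hv).symm

namespace Frm

variable [Fintype ι] {Q U : Finset V} {T : Finset ι} {F : Finset (Finset V)}

/-- the data of a double exchange. -/
structure Dxe (B : ι → Finset V) (Q : Finset V) (T : Finset ι) (U : Finset V)
    (F : Finset (Finset V)) (j k k0 e : ι) (L : Finset V) (a b c p q s x w w' : V) : Prop where
  frm : Frm B Q T U F
  hj : j ∈ T
  hk : k ∈ T
  hkj : k ≠ j
  hjQ : B j ∩ Q = {a, b, c}
  hkQ : B k ∩ Q = {p, q, s}
  h0Q : B k0 ∩ Q = {a, b, s}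
  heQ : B e ∩ Q = {p, w, w'}
  hww : w ≠ w'
  hL : L ∈ F
  hw : w ∈ L
  hw' : w' ∈ L
  hx : {x} ∈ F
  hLx : L ≠ {x}
  hcx : (gr B).Adj c x
  hH : ∀ Z ⊆ U, Z.card ≤ (nbF (gr B) (F \ {{x}, L}) Z).card

namespace Dxe

variable {j k k0 e : ι} {L : Finset V} {a b c p q s x w w' : V}

omit [Fintype ι] in
theorem aj (h : Dxe B Q T U F j k k0 e L a b c p q s x w w') : a ∈ B j ∩ Q := by
  rw [h.hjQ]; simp

omit [Fintype ι] in
theorem bj (h : Dxe B Q T U F j k k0 e L a b c p q s x w w') : b ∈ B j ∩ Q := by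
  rw [h.hjQ]; simp

omit [Fintype ι] in
theorem cj (h : Dxe B Q T U F j k k0 e L a b c p q s x w w') : c ∈ B j ∩ Q := by
  rw [h.hjQ]; simp

omit [Fintype ι] in
theorem pk (h : Dxe B Q T U F j k k0 e L a b c p q s x w w') : p ∈ B k ∩ Q := by
  rw [h.hkQ]; simp

omit [Fintype ι] in
theorem qk (h : Dxe B Q T U F j k k0 e L a b c p q s x w w') : q ∈ B k ∩ Q := by
  rw [h.hkQ]; simp

omit [Fintype ι] in
theorem sk (h : Dxe B Q T U F j k k0 e L a b c p q s x w w') : s ∈ B k ∩ Q := by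
  rw [h.hkQ]; simp

omit [Fintype ι] in
theorem jk (h : Dxe B Q T U F j k k0 e L a b c p q s x w w') {y z : V} (hy : y ∈ B j ∩ Q)
    (hz : z ∈ B k ∩ Q) : y ≠ z := fun he =>
  disjoint_left.1 (h.frm.mtp.tpk.pack.disj k h.hk j h.hj h.hkj) hz (he ▸ hy)

omit [Fintype ι] in
theorem card3_ne {S : Finset V} {a b c : V} (h : S.card = 3) (hS : S = {a, b, c}) :
    a ≠ b ∧ a ≠ c ∧ b ≠ c := by
  subst hS
  refine ⟨?_, ?_, ?_⟩
  · rintro rfl
    rw [insert_eq_of_mem (mem_insert_self _ _)] at h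
    have := card_le_two (a := a) (b := c)
    omega
  · rintro rfl
    have h2 : ({a, b, a} : Finset V) = {b, a} := by
      ext v
      simp only [mem_insert, mem_singleton]
      tauto
    rw [h2] at h
    have := card_le_two (a := b) (b := a)
    omega
  · rintro rfl
    rw [insert_eq_of_mem (mem_singleton_self b)] at h
    have := card_le_two (a := a) (b := b)
    omega

omit [Fintype ι] in
theorem jne (h : Dxe B Q T U F j k k0 e L a b c p q s x w w') : a ≠ b ∧ a ≠ c ∧ b ≠ c :=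
  card3_ne (h.frm.mtp.tpk.pack.card j h.hj) h.hjQ

omit [Fintype ι] in
theorem kne (h : Dxe B Q T U F j k k0 e L a b c p q s x w w') : p ≠ q ∧ p ≠ s ∧ q ≠ s :=
  card3_ne (h.frm.mtp.tpk.pack.card k h.hk) h.hkQ

omit [Fintype ι] in
theorem jD (h : Dxe B Q T U F j k k0 e L a b c p q s x w w') {y : V} (hy : y ∈ B j ∩ Q) :
    y ∉ Dp B Q T := T_notD h.hj (mem_inter.1 hy).1

omit [Fintype ι] in
theorem kD (h : Dxe B Q T U F j k k0 e L a b c p q s x w w') {y : V} (hy : y ∈ B k ∩ Q) :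
    y ∉ Dp B Q T := T_notD h.hk (mem_inter.1 hy).1

omit [Fintype ι] in
theorem wD (h : Dxe B Q T U F j k k0 e L a b c p q s x w w') : w ∈ Dp B Q T :=
  h.frm.FD h.hL h.hw

omit [Fintype ι] in
theorem wD' (h : Dxe B Q T U F j k k0 e L a b c p q s x w w') : w' ∈ Dp B Q T :=
  h.frm.FD h.hL h.hw'

omit [Fintype ι] in
theorem card0 (h : Dxe B Q T U F j k k0 e L a b c p q s x w w') : (B k0 ∩ Q).card = 3 := by
  rw [h.h0Q, card_insert_of_notMem, card_pair (h.jk h.bj h.sk)]
  simp only [mem_insert, mem_singleton, not_or]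
  exact ⟨h.jne.1, h.jk h.aj h.sk⟩

omit [Fintype ι] in
theorem carde (h : Dxe B Q T U F j k k0 e L a b c p q s x w w') : (B e ∩ Q).card = 3 := by
  rw [h.heQ, card_insert_of_notMem, card_pair h.hww]
  simp only [mem_insert, mem_singleton, not_or]
  exact ⟨fun he => h.kD h.pk (he ▸ h.wD), fun he => h.kD h.pk (he ▸ h.wD')⟩

omit [Fintype ι] in
/-- the two new blocks are disjoint. -/
theorem dis0e (h : Dxe B Q T U F j k k0 e L a b c p q s x w w') :
    Disjoint (B k0 ∩ Q) (B e ∩ Q) := by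
  rw [h.h0Q, h.heQ, disjoint_left]
  intro v hv hv'
  simp only [mem_insert, mem_singleton] at hv hv'
  rcases hv with h1 | h1 | h1 <;> rcases hv' with h2 | h2 | h2
  · exact h.jk h.aj h.pk (h1.symm.trans h2)
  · exact h.jD h.aj ((h1.symm.trans h2) ▸ h.wD)
  · exact h.jD h.aj ((h1.symm.trans h2) ▸ h.wD')
  · exact h.jk h.bj h.pk (h1.symm.trans h2)
  · exact h.jD h.bj ((h1.symm.trans h2) ▸ h.wD)
  · exact h.jD h.bj ((h1.symm.trans h2) ▸ h.wD')
  · exact h.kne.2.1 (h2.symm.trans h1)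
  · exact h.kD h.sk ((h1.symm.trans h2) ▸ h.wD)
  · exact h.kD h.sk ((h1.symm.trans h2) ▸ h.wD')

omit [Fintype ι] in
/-- a block with its points in the rest and in the two triples is disjoint from the other triples. -/
theorem dis_T [DecidableEq ι] (h : Dxe B Q T U F j k k0 e L a b c p q s x w w') {f : ι}
    (hf : ∀ v ∈ B f ∩ Q, v ∈ Dp B Q T ∨ v ∈ B j ∩ Q ∨ v ∈ B k ∩ Q) :
    ∀ l ∈ T, l ∉ ({j, k} : Finset ι) → Disjoint (B f ∩ Q) (B l ∩ Q) := by
  intro l hl hlR
  simp only [mem_insert, mem_singleton, not_or] at hlR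
  rw [disjoint_left]
  intro v hv hv'
  rcases hf v hv with h1 | h1 | h1
  · exact T_notD hl (mem_inter.1 hv').1 h1
  · exact disjoint_left.1 (h.frm.mtp.tpk.pack.disj l hl j h.hj hlR.1) hv' h1
  · exact disjoint_left.1 (h.frm.mtp.tpk.pack.disj l hl k h.hk hlR.2) hv' h1

omit [Fintype ι] in
theorem mem0 (h : Dxe B Q T U F j k k0 e L a b c p q s x w w') :
    ∀ v ∈ B k0 ∩ Q, v ∈ Dp B Q T ∨ v ∈ B j ∩ Q ∨ v ∈ B k ∩ Q := by
  intro v hv
  rw [h.h0Q] at hv
  simp only [mem_insert, mem_singleton] at hv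
  rcases hv with rfl | rfl | rfl
  · exact Or.inr (Or.inl h.aj)
  · exact Or.inr (Or.inl h.bj)
  · exact Or.inr (Or.inr h.sk)

omit [Fintype ι] in
theorem meme (h : Dxe B Q T U F j k k0 e L a b c p q s x w w') :
    ∀ v ∈ B e ∩ Q, v ∈ Dp B Q T ∨ v ∈ B j ∩ Q ∨ v ∈ B k ∩ Q := by
  intro v hv
  rw [h.heQ] at hv
  simp only [mem_insert, mem_singleton] at hv
  rcases hv with rfl | rfl | rfl
  · exact Or.inr (Or.inr h.pk)
  · exact Or.inl h.wD
  · exact Or.inl h.wD'

omit [Fintype ι] in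
theorem hR [DecidableEq ι] (h : Dxe B Q T U F j k k0 e L a b c p q s x w w') :
    ({j, k} : Finset ι) ⊆ T := by
  intro l hl
  rcases mem_insert.1 hl with h1 | h1
  · exact h1 ▸ h.hj
  · exact (mem_singleton.1 h1) ▸ h.hk

omit [Fintype ι] in
theorem ne0e (h : Dxe B Q T U F j k k0 e L a b c p q s x w w') : k0 ≠ e := by
  rintro rfl
  have h1 := h.dis0e
  rw [disjoint_self] at h1
  have h2 := h.card0
  rw [h1] at h2
  simp at h2

omit [Fintype ι] in
theorem cQ (h : Dxe B Q T U F j k k0 e L a b c p q s x w w') : c ∈ Q := (mem_inter.1 h.cj).2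

omit [Fintype ι] in
theorem qQ (h : Dxe B Q T U F j k k0 e L a b c p q s x w w') : q ∈ Q := (mem_inter.1 h.qk).2

omit [Fintype ι] in
/-- the rest after the two exchanges. -/
theorem set_eq (h : Dxe B Q T U F j k k0 e L a b c p q s x w w') :
    (Dp B Q T ∪ ((B j ∩ Q) ∪ (B k ∩ Q))) \ (B k0 ∪ B e) = (Dp B Q T \ {w, w'}) ∪ {q, c} := by
  have hak := (mem_inter.1 (by rw [h.h0Q]; simp : a ∈ B k0 ∩ Q)).1
  have hbk := (mem_inter.1 (by rw [h.h0Q]; simp : b ∈ B k0 ∩ Q)).1
  have hsk := (mem_inter.1 (by rw [h.h0Q]; simp : s ∈ B k0 ∩ Q)).1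
  have hpe := (mem_inter.1 (by rw [h.heQ]; simp : p ∈ B e ∩ Q)).1
  have hwe := (mem_inter.1 (by rw [h.heQ]; simp : w ∈ B e ∩ Q)).1
  have hwe' := (mem_inter.1 (by rw [h.heQ]; simp : w' ∈ B e ∩ Q)).1
  have hc0 : c ∉ B k0 := by
    intro h1
    have h2 := (mem_tr h.h0Q h.cQ).1 h1
    simp only [mem_insert, mem_singleton] at h2
    rcases h2 with h2 | h2 | h2
    · exact h.jne.2.1 h2.symm
    · exact h.jne.2.2 h2.symm
    · exact h.jk h.cj h.sk h2
  have hce : c ∉ B e := by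
    intro h1
    have h2 := (mem_tr h.heQ h.cQ).1 h1
    simp only [mem_insert, mem_singleton] at h2
    rcases h2 with h2 | h2 | h2
    · exact h.jk h.cj h.pk h2
    · exact h.jD h.cj (h2 ▸ h.wD)
    · exact h.jD h.cj (h2 ▸ h.wD')
  have hq0 : q ∉ B k0 := by
    intro h1
    have h2 := (mem_tr h.h0Q h.qQ).1 h1
    simp only [mem_insert, mem_singleton] at h2
    rcases h2 with h2 | h2 | h2
    · exact h.jk h.aj h.qk h2.symm
    · exact h.jk h.bj h.qk h2.symm
    · exact h.kne.2.2 h2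
  have hqe : q ∉ B e := by
    intro h1
    have h2 := (mem_tr h.heQ h.qQ).1 h1
    simp only [mem_insert, mem_singleton] at h2
    rcases h2 with h2 | h2 | h2
    · exact h.kne.1 h2.symm
    · exact h.kD h.qk (h2 ▸ h.wD)
    · exact h.kD h.qk (h2 ▸ h.wD')
  ext v
  constructor
  · intro hv
    obtain ⟨h1, h2⟩ := mem_sdiff.1 hv
    rw [mem_union, not_or] at h2
    rcases mem_union.1 h1 with h3 | h3
    · refine mem_union_left _ (mem_sdiff.2 ⟨h3, fun h4 => ?_⟩)
      rcases mem_insert.1 h4 with h5 | h5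
      · exact h2.2 (h5 ▸ hwe)
      · exact h2.2 ((mem_singleton.1 h5) ▸ hwe')
    · rcases mem_union.1 h3 with h4 | h4
      · rw [h.hjQ] at h4
        simp only [mem_insert, mem_singleton] at h4
        rcases h4 with h4 | h4 | h4
        · exact absurd (h4 ▸ hak) h2.1
        · exact absurd (h4 ▸ hbk) h2.1
        · rw [h4]
          exact mem_union_right _ (by simp)
      · rw [h.hkQ] at h4
        simp only [mem_insert, mem_singleton] at h4
        rcases h4 with h4 | h4 | h4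
        · exact absurd (h4 ▸ hpe) h2.2
        · rw [h4]
          exact mem_union_right _ (by simp)
        · exact absurd (h4 ▸ hsk) h2.1
  · intro hv
    rcases mem_union.1 hv with h1 | h1
    · obtain ⟨h2, h3⟩ := mem_sdiff.1 h1
      refine mem_sdiff.2 ⟨mem_union_left _ h2, fun h4 => ?_⟩
      rcases mem_union.1 h4 with h5 | h5
      · have h6 := (mem_tr h.h0Q (DQ h2)).1 h5
        simp only [mem_insert, mem_singleton] at h6
        rcases h6 with h6 | h6 | h6
        · exact h.jD h.aj (h6 ▸ h2)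
        · exact h.jD h.bj (h6 ▸ h2)
        · exact h.kD h.sk (h6 ▸ h2)
      · have h6 := (mem_tr h.heQ (DQ h2)).1 h5
        rcases mem_insert.1 h6 with h7 | h7
        · exact h.kD h.pk (h7 ▸ h2)
        · exact h3 h7
    · rcases mem_insert.1 h1 with h2 | h2
      · rw [h2]
        refine mem_sdiff.2 ⟨mem_union_right _ (mem_union_right _ h.qk), ?_⟩
        rw [mem_union, not_or]
        exact ⟨hq0, hqe⟩
      · rw [mem_singleton.1 h2]
        refine mem_sdiff.2 ⟨mem_union_right _ (mem_union_left _ h.cj), ?_⟩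
        rw [mem_union, not_or]
        exact ⟨hc0, hce⟩

omit [Fintype ι] in
theorem cov_c (h : Dxe B Q T U F j k k0 e L a b c p q s x w w') : Cov B ({c} : Finset V) := by
  intro v hv
  rw [mem_singleton.1 hv]
  exact ⟨j, (mem_inter.1 h.cj).1⟩

omit [Fintype ι] in
theorem cov_q (h : Dxe B Q T U F j k k0 e L a b c p q s x w w') : Cov B ({q} : Finset V) := by
  intro v hv
  rw [mem_singleton.1 hv]
  exact ⟨k, (mem_inter.1 h.qk).1⟩

theorem cov_xc (h : Dxe B Q T U F j k k0 e L a b c p q s x w w') :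
    Cov B ({x, c} : Finset V) := by
  intro v hv
  rcases mem_insert.1 hv with h1 | h1
  · rw [h1]
    exact h.frm.covF {x} h.hx x (mem_singleton_self x)
  · exact h.cov_c v h1

omit [Fintype ι] in
theorem rho_q (_h : Dxe B Q T U F j k k0 e L a b c p q s x w w') :
    rho B ({q} : Finset V) ≤ 1 := by
  refine rho_le_one (i := k) ?_
  intro v hv
  rw [mem_singleton.1 hv]
  exact (mem_inter.1 _h.qk).1

omit [Fintype ι] in
theorem rho_xc (h : Dxe B Q T U F j k k0 e L a b c p q s x w w') :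
    rho B ({x, c} : Finset V) ≤ 1 := by
  obtain ⟨_, i, h1, h2⟩ := h.hcx
  refine rho_le_one (i := i) ?_
  intro v hv
  rcases mem_insert.1 hv with h3 | h3
  · rw [h3]
    exact h2
  · rw [mem_singleton.1 h3]
    exact h1

theorem rho_x (h : Dxe B Q T U F j k k0 e L a b c p q s x w w') :
    rho B ({x} : Finset V) = 1 := by
  have h1 := h.frm.card_leaf h.hx
  rw [card_singleton] at h1
  omega

/-- the leaves `{x}` and `L` are free together. -/
theorem frr (h : Dxe B Q T U F j k k0 e L a b c p q s x w w') :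
    Frr B (Dp B Q T) {{x}, L} := by
  refine h.frm.frr_of_hall ?_ h.hH
  intro C hC
  rcases mem_insert.1 hC with h1 | h1
  · exact h1 ▸ h.hx
  · exact (mem_singleton.1 h1) ▸ h.hL

/-- the cost of the leaf without the two points. -/
theorem rho_L (h : Dxe B Q T U F j k k0 e L a b c p q s x w w') :
    rho B (L \ {w, w'}) + 1 ≤ rho B L :=
  h.frm.rho_leaf_two h.hL h.hw (P := {w, w'}) (mem_insert_self _ _)

theorem cov_L (h : Dxe B Q T U F j k k0 e L a b c p q s x w w') : Cov B (L \ {w, w'}) :=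
  (h.frm.covF L h.hL).mono sdiff_subset

omit [Fintype ι] in
theorem cov_new (h : Dxe B Q T U F j k k0 e L a b c p q s x w w') :
    Cov B ((Dp B Q T \ {w, w'}) ∪ {q, c}) := by
  refine (h.frm.covD.mono sdiff_subset).union ?_
  intro v hv
  rcases mem_insert.1 hv with h1 | h1
  · rw [h1]
    exact h.cov_q q (mem_singleton_self q)
  · exact h.cov_c v h1

/-- **the second block**: with one triple more the rest would be cheaper. -/
theorem meet [DecidableEq ι] (h : Dxe B Q T U F j k k0 e L a b c p q s x w w') {f : ι}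
    (hqf : q ∈ B f) (hf : (B f ∩ Dp B Q T).card = 2) : w ∈ B f ∨ w' ∈ B f := by
  by_contra hcon
  push Not at hcon
  have hfQ : B f ∩ Q ⊆ insert q (B f ∩ Dp B Q T) ∧ (B f ∩ Q).card = 3 := by
    have h1 : insert q (B f ∩ Dp B Q T) ⊆ B f ∩ Q := by
      intro v hv
      rcases mem_insert.1 hv with h2 | h2
      · rw [h2]
        exact mem_inter.2 ⟨hqf, h.qQ⟩
      · exact mem_inter.2 ⟨(mem_inter.1 h2).1, DQ (mem_inter.1 h2).2⟩
    have h2 : (insert q (B f ∩ Dp B Q T)).card = 3 := by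
      rw [card_insert_of_notMem fun h3 => h.kD h.qk (mem_inter.1 h3).2, hf]
    have h3 := eq_of_subset_of_card_le h1 (by rw [h2]; exact h.frm.reg3 f)
    exact ⟨h3 ▸ Subset.refl _, h3 ▸ h2⟩
  obtain ⟨hfs, hf3⟩ := hfQ
  have hfm : ∀ v ∈ B f ∩ Q, v = q ∨ v ∈ Dp B Q T := by
    intro v hv
    rcases mem_insert.1 (hfs hv) with h1 | h1
    · exact Or.inl h1
    · exact Or.inr (mem_inter.1 h1).2
  have hd0 : Disjoint (B k0 ∩ Q) (B f ∩ Q) := by
    rw [disjoint_left]
    intro v hv hv'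
    rw [h.h0Q] at hv
    simp only [mem_insert, mem_singleton] at hv
    rcases hfm v hv' with h1 | h1 <;> rcases hv with h2 | h2 | h2
    · exact h.jk h.aj h.qk (h2.symm.trans h1)
    · exact h.jk h.bj h.qk (h2.symm.trans h1)
    · exact h.kne.2.2 (h1.symm.trans h2)
    · exact h.jD h.aj (h2 ▸ h1)
    · exact h.jD h.bj (h2 ▸ h1)
    · exact h.kD h.sk (h2 ▸ h1)
  have hde : Disjoint (B e ∩ Q) (B f ∩ Q) := by
    rw [disjoint_left]
    intro v hv hv'
    rw [h.heQ] at hv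
    simp only [mem_insert, mem_singleton] at hv
    rcases hv with h2 | h2 | h2
    · rcases hfm v hv' with h1 | h1
      · exact h.kne.1 (h2.symm.trans h1)
      · exact h.kD h.pk (h2 ▸ h1)
    · exact hcon.1 (h2 ▸ (mem_inter.1 hv').1)
    · exact hcon.2 (h2 ▸ (mem_inter.1 hv').1)
  have hne0 : k0 ≠ f := by
    rintro rfl
    rw [disjoint_self] at hd0
    rw [hd0] at hf3
    simp at hf3
  have hnee : e ≠ f := by
    rintro rfl
    rw [disjoint_self] at hde
    rw [hde] at hf3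
    simp at hf3
  have hmf : ∀ v ∈ B f ∩ Q, v ∈ Dp B Q T ∨ v ∈ B j ∩ Q ∨ v ∈ B k ∩ Q := by
    intro v hv
    rcases hfm v hv with h1 | h1
    · exact Or.inr (Or.inr (h1 ▸ h.qk))
    · exact Or.inl h1
  have h3N : ∀ i ∈ ({k0, e, f} : Finset ι), (B i ∩ Q).card = 3 := by
    intro i hi
    simp only [mem_insert, mem_singleton] at hi
    rcases hi with rfl | rfl | rfl
    · exact h.card0
    · exact h.carde
    · exact hf3
  have hNN : ∀ i ∈ ({k0, e, f} : Finset ι), ∀ l ∈ ({k0, e, f} : Finset ι), i ≠ l →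
      Disjoint (B i ∩ Q) (B l ∩ Q) := by
    intro i hi l hl hil
    simp only [mem_insert, mem_singleton] at hi hl
    rcases hi with h1 | h1 | h1 <;> rcases hl with h2 | h2 | h2
    · exact absurd (h1.trans h2.symm) hil
    · rw [h1, h2]; exact h.dis0e
    · rw [h1, h2]; exact hd0
    · rw [h1, h2]; exact h.dis0e.symm
    · exact absurd (h1.trans h2.symm) hil
    · rw [h1, h2]; exact hde
    · rw [h1, h2]; exact hd0.symm
    · rw [h1, h2]; exact hde.symm
    · exact absurd (h1.trans h2.symm) hil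
  have hNT : ∀ i ∈ ({k0, e, f} : Finset ι), ∀ l ∈ T, l ∉ ({j, k} : Finset ι) →
      Disjoint (B i ∩ Q) (B l ∩ Q) := by
    intro i hi
    simp only [mem_insert, mem_singleton] at hi
    rcases hi with rfl | rfl | rfl
    · exact h.dis_T h.mem0
    · exact h.dis_T h.meme
    · exact h.dis_T hmf
  have hcN : ({k0, e, f} : Finset ι).card = 3 := by
    rw [card_insert_of_notMem, card_pair hnee]
    simp only [mem_insert, mem_singleton, not_or]
    exact ⟨h.ne0e, hne0⟩
  have hcR : ({j, k} : Finset ι).card = 2 := card_pair h.hkj.symm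
  have hlt := h.frm.mtp.rep_lt h.frm.cov h.hR h3N hNN hNT (by omega)
  have hset := (h.frm.mtp.rep h.hR h3N hNN hNT).2.2
  rw [hcN, hcR, hset] at hlt
  have hsub : (Dp B Q T ∪ ({j, k} : Finset ι).biUnion fun j => B j ∩ Q) \
      ({k0, e, f} : Finset ι).biUnion B ⊆
      (Dp B Q T \ ({{x}, L} : Finset (Finset V)).biUnion id) ∪ ((L \ {w, w'}) ∪ {x, c}) := by
    intro v hv
    obtain ⟨h1, h2⟩ := mem_sdiff.1 hv
    have hn0 : v ∉ B k0 := fun h3 => h2 (mem_biUnion.2 ⟨k0, by simp, h3⟩)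
    have hne' : v ∉ B e := fun h3 => h2 (mem_biUnion.2 ⟨e, by simp, h3⟩)
    have hnf : v ∉ B f := fun h3 => h2 (mem_biUnion.2 ⟨f, by simp, h3⟩)
    have h4 : v ∈ (Dp B Q T ∪ ((B j ∩ Q) ∪ (B k ∩ Q))) \ (B k0 ∪ B e) := by
      refine mem_sdiff.2 ⟨?_, ?_⟩
      · rcases mem_union.1 h1 with h5 | h5
        · exact mem_union_left _ h5
        · obtain ⟨l, hl, hvl⟩ := mem_biUnion.1 h5
          rcases mem_insert.1 hl with h6 | h6
          · subst h6
            exact mem_union_right _ (mem_union_left _ hvl)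
          · rw [mem_singleton] at h6
            subst h6
            exact mem_union_right _ (mem_union_right _ hvl)
      · rw [mem_union, not_or]
        exact ⟨hn0, hne'⟩
    rw [h.set_eq] at h4
    rcases mem_union.1 h4 with h5 | h5
    · obtain ⟨h6, h7⟩ := mem_sdiff.1 h5
      by_cases hvL : v ∈ L
      · exact mem_union_right _ (mem_union_left _ (mem_sdiff.2 ⟨hvL, h7⟩))
      by_cases hvx : v = x
      · rw [hvx]
        exact mem_union_right _ (mem_union_right _ (mem_insert_self _ _))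
      · refine mem_union_left _ (mem_sdiff.2 ⟨h6, fun h8 => ?_⟩)
        obtain ⟨C, hC, hvC⟩ := mem_biUnion.1 h8
        rcases mem_insert.1 hC with h9 | h9
        · rw [h9] at hvC
          exact hvx (mem_singleton.1 hvC)
        · rw [mem_singleton.1 h9] at hvC
          exact hvL hvC
    · rcases mem_insert.1 h5 with h6 | h6
      · exact absurd (h6 ▸ hqf) hnf
      · rw [mem_singleton.1 h6]
        exact mem_union_right _ (mem_union_right _ (by simp))
  have h2 := h.frr.rho_le h.frm.covD (h.cov_L.union h.cov_xc) hsub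
  rw [sum_pair h.hLx.symm] at h2
  have h3 := rho_union_le h.cov_L h.cov_xc
  have h4 := h.rho_xc
  have h5 := h.rho_L
  have h6 := h.rho_x
  omega

end Dxe

end Frm

end Pool.Agent.Hyp6
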