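import Pool.Agent.Hyp6.L3Lx

/-!
# HYP6 L3Ly: the double exchange enlarges U

A triple `{a, b, c}` with a leaf `{x}` adjacent to `c`, a second triple `{p, q, s}`, a block with the
trace `{a, b, s}` and a block of `p` with two points `w`, `w'` in a leaf `L`. The exchanged frame has a
larger set `U` if `{x}` and `L` are free together with every other leaf and `c` sees a third leaf. If
`L - ww'` is factor-critical then the even part does not grow (`MTE.no_double`).
-/

set_option autoImplicit false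

namespace Pool.Agent.Hyp6

open Finset Pool.Agent.Hyp5

universe u v

variable {V : Type v} [DecidableEq V] {ι : Type u} {B : ι → Finset V} [Fintype ι]

variable {Q U : Finset V} {T : Finset ι} {F : Finset (Finset V)}

namespace Frm.Dxe

variable {j k k0 e : ι} {L : Finset V} {a b c p q s x w w' : V}

/-- the exchanged packing. -/
theorem swap [DecidableEq ι] (h : Dxe B Q T U F j k k0 e L a b c p q s x w w') :
    MTP B Q ((T \ {j, k}) ∪ {k0, e}) ∧
      Dp B Q ((T \ {j, k}) ∪ {k0, e}) = (Dp B Q T \ {w, w'}) ∪ {q, c} := by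
  have h3N : ∀ i ∈ ({k0, e} : Finset ι), (B i ∩ Q).card = 3 := by
    intro i hi
    simp only [mem_insert, mem_singleton] at hi
    rcases hi with rfl | rfl
    · exact h.card0
    · exact h.carde
  have hNN : ∀ i ∈ ({k0, e} : Finset ι), ∀ l ∈ ({k0, e} : Finset ι), i ≠ l →
      Disjoint (B i ∩ Q) (B l ∩ Q) := by
    intro i hi l hl hil
    simp only [mem_insert, mem_singleton] at hi hl
    rcases hi with h1 | h1 <;> rcases hl with h2 | h2
    · exact absurd (h1.trans h2.symm) hil
    · rw [h1, h2]; exact h.dis0e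
    · rw [h1, h2]; exact h.dis0e.symm
    · exact absurd (h1.trans h2.symm) hil
  have hNT : ∀ i ∈ ({k0, e} : Finset ι), ∀ l ∈ T, l ∉ ({j, k} : Finset ι) →
      Disjoint (B i ∩ Q) (B l ∩ Q) := by
    intro i hi
    simp only [mem_insert, mem_singleton] at hi
    rcases hi with rfl | rfl
    · exact h.dis_T h.mem0
    · exact h.dis_T h.meme
  have hcN : ({k0, e} : Finset ι).card = 2 := card_pair h.ne0e
  have hcR : ({j, k} : Finset ι).card = 2 := card_pair h.hkj.symm
  have hset : Dp B Q ((T \ {j, k}) ∪ {k0, e}) = (Dp B Q T \ {w, w'}) ∪ {q, c} := by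
    have h1 := (h.frm.mtp.rep h.hR h3N hNN hNT).2.2
    rw [biUnion_insert, singleton_biUnion, biUnion_insert, singleton_biUnion] at h1
    rw [h1, h.set_eq]
  refine ⟨h.frm.mtp.rep_mtp h.frm.cov h.hR h3N hNN hNT (by omega) ?_, hset⟩
  rw [hset]
  have hsub : (Dp B Q T \ {w, w'}) ∪ {q, c} ⊆
      (Dp B Q T \ ({{x}, L} : Finset (Finset V)).biUnion id) ∪
        ((L \ {w, w'}) ∪ ({x, c} ∪ {q})) := by
    intro v hv
    rcases mem_union.1 hv with h5 | h5
    · obtain ⟨h6, h7⟩ := mem_sdiff.1 h5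
      by_cases hvL : v ∈ L
      · exact mem_union_right _ (mem_union_left _ (mem_sdiff.2 ⟨hvL, h7⟩))
      by_cases hvx : v = x
      · rw [hvx]
        exact mem_union_right _ (mem_union_right _ (mem_union_left _ (mem_insert_self _ _)))
      · refine mem_union_left _ (mem_sdiff.2 ⟨h6, fun h8 => ?_⟩)
        obtain ⟨C, hC, hvC⟩ := mem_biUnion.1 h8
        rcases mem_insert.1 hC with h9 | h9
        · rw [h9] at hvC
          exact hvx (mem_singleton.1 hvC)
        · rw [mem_singleton.1 h9] at hvC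
          exact hvL hvC
    · rcases mem_insert.1 h5 with h6 | h6
      · rw [h6]
        exact mem_union_right _ (mem_union_right _ (mem_union_right _ (mem_singleton_self _)))
      · rw [mem_singleton.1 h6]
        exact mem_union_right _ (mem_union_right _ (mem_union_left _ (by simp)))
  have h2 := h.frr.rho_le h.frm.covD (h.cov_L.union (h.cov_xc.union h.cov_q)) hsub
  rw [sum_pair h.hLx.symm] at h2
  have h3 := rho_union_le h.cov_L (h.cov_xc.union h.cov_q)
  have h3' := rho_union_le h.cov_xc h.cov_q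
  have h4 := h.rho_xc
  have h5 := h.rho_L
  have h6 := h.rho_x
  have h7 := h.rho_q
  omega

omit [Fintype ι] in
theorem card_new (h : Dxe B Q T U F j k k0 e L a b c p q s x w w') :
    ((Dp B Q T \ {w, w'}) ∪ {q, c}).card = (Dp B Q T).card := by
  have h1 : Disjoint (Dp B Q T \ {w, w'}) {q, c} := by
    rw [disjoint_left]
    intro v hv hv'
    rcases mem_insert.1 hv' with h2 | h2
    · exact h.kD h.qk (h2 ▸ (mem_sdiff.1 hv).1)
    · exact h.jD h.cj ((mem_singleton.1 h2) ▸ (mem_sdiff.1 hv).1)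
  have h2 : ({w, w'} : Finset V) ⊆ Dp B Q T := by
    intro v hv
    rcases mem_insert.1 hv with h2 | h2
    · exact h2 ▸ h.wD
    · exact (mem_singleton.1 h2) ▸ h.wD'
  have h3 := card_sdiff_add_card_eq_card h2
  rw [card_union_of_disjoint h1, card_pair (h.jk h.cj h.qk).symm]
  rw [card_pair h.hww] at h3
  exact h3

theorem rho_new_eq [DecidableEq ι] (h : Dxe B Q T U F j k k0 e L a b c p q s x w w') :
    rho B ((Dp B Q T \ {w, w'}) ∪ {q, c}) = rho B (Dp B Q T) := by
  obtain ⟨hM, hMset⟩ := h.swap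
  have h1 := hM.tpk.opt
  have h2 := h.frm.mtp.tpk.opt
  have h3 := hM.max _ h.frm.mtp.tpk
  have h4 := h.frm.mtp.max _ hM.tpk
  have h5 : Q \ ((T \ {j, k}) ∪ {k0, e}).biUnion B = (Dp B Q T \ {w, w'}) ∪ {q, c} := hMset
  have h6 : Q \ T.biUnion B = Dp B Q T := rfl
  rw [h5] at h1
  rw [h6] at h2
  omega

/-- the general estimate with a third leaf `C` which is free together with `{x}` and `L`. -/
theorem rho_three (h : Dxe B Q T U F j k k0 e L a b c p q s x w w') {C : Finset V} (hC : C ∈ F)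
    (hCL : C ≠ L) (hCx : C ≠ {x})
    (hH : ∀ Z ⊆ U, Z.card ≤ (nbF (gr B) (F \ {{x}, L, C}) Z).card) {W Y : Finset V}
    (hY : Cov B Y) (hW : W ⊆ (Dp B Q T \ {w, w'}) ∪ {q, c})
    (hWY : ∀ v ∈ W, v ∈ C ∨ v = x ∨ v = q ∨ v = c → v ∈ Y) :
    rho B W + rho B C + 2 ≤ rho B (Dp B Q T) + rho B Y := by
  have hfr : Frr B (Dp B Q T) {{x}, L, C} := by
    refine h.frm.frr_of_hall ?_ hH
    intro C' hC'
    simp only [mem_insert, mem_singleton] at hC'
    rcases hC' with rfl | rfl | rfl
    · exact h.hx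
    · exact h.hL
    · exact hC
  have hsub : W ⊆ (Dp B Q T \ ({{x}, L, C} : Finset (Finset V)).biUnion id) ∪
      ((L \ {w, w'}) ∪ Y) := by
    intro v hv
    by_cases hvY : v ∈ C ∨ v = x ∨ v = q ∨ v = c
    · exact mem_union_right _ (mem_union_right _ (hWY v hv hvY))
    push Not at hvY
    rcases mem_union.1 (hW hv) with h5 | h5
    · obtain ⟨h6, h7⟩ := mem_sdiff.1 h5
      by_cases hvL : v ∈ L
      · exact mem_union_right _ (mem_union_left _ (mem_sdiff.2 ⟨hvL, h7⟩))
      · refine mem_union_left _ (mem_sdiff.2 ⟨h6, fun h8 => ?_⟩)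
        obtain ⟨C', hC', hvC⟩ := mem_biUnion.1 h8
        simp only [mem_insert, mem_singleton] at hC'
        rcases hC' with h9 | h9 | h9
        · rw [h9] at hvC
          exact hvY.2.1 (mem_singleton.1 hvC)
        · rw [h9] at hvC
          exact hvL hvC
        · rw [h9] at hvC
          exact hvY.1 hvC
    · rcases mem_insert.1 h5 with h6 | h6
      · exact absurd h6 hvY.2.2.1
      · exact absurd (mem_singleton.1 h6) hvY.2.2.2
  have h2 := hfr.rho_le h.frm.covD (h.cov_L.union hY) hsub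
  have h3 := rho_union_le h.cov_L hY
  have h5 := h.rho_L
  have h6 := h.rho_x
  have hsum : ∑ C' ∈ ({{x}, L, C} : Finset (Finset V)), rho B C' =
      rho B {x} + (rho B L + rho B C) := by
    rw [sum_insert, sum_pair hCL.symm]
    simp only [mem_insert, mem_singleton, not_or]
    exact ⟨h.hLx.symm, hCx.symm⟩
  rw [hsum] at h2
  omega

/-- the points of a third leaf are critical in the new rest. -/
theorem crit (h : Dxe B Q T U F j k k0 e L a b c p q s x w w') {C : Finset V} (hC : C ∈ F)
    (hCL : C ≠ L) (hCx : C ≠ {x})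
    (hH : ∀ Z ⊆ U, Z.card ≤ (nbF (gr B) (F \ {{x}, L, C}) Z).card) {v : V} (hv : v ∈ C) :
    rho B (((Dp B Q T \ {w, w'}) ∪ {q, c}).erase v) + 1 ≤ rho B (Dp B Q T) := by
  have hcC : Cov B (C.erase v) := (h.frm.covF C hC).mono (erase_subset _ _)
  have h1 := h.rho_three hC hCL hCx hH (Y := C.erase v ∪ ({x, c} ∪ {q}))
    (hcC.union (h.cov_xc.union h.cov_q)) (erase_subset v _) (by
    intro z hz hz'
    rcases hz' with h2 | h2 | h2 | h2
    · exact mem_union_left _ (mem_erase.2 ⟨(mem_erase.1 hz).1, h2⟩)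
    · rw [h2]
      exact mem_union_right _ (mem_union_left _ (by simp))
    · rw [h2]
      exact mem_union_right _ (mem_union_right _ (by simp))
    · rw [h2]
      exact mem_union_right _ (mem_union_left _ (by simp)))
  have h2 := rho_union_le hcC (h.cov_xc.union h.cov_q)
  have h3 := rho_union_le h.cov_xc h.cov_q
  have h4 := h.rho_xc
  have h5 := h.rho_q
  have h6 := rho_erase_fc (h.frm.ge.sys.fc C hC) (h.frm.sv_leaf hC) hv
  omega

/-- the point `x` is critical in the new rest if `c` sees a third leaf. -/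
theorem crit_x (h : Dxe B Q T U F j k k0 e L a b c p q s x w w') {M : Finset V} (hM : M ∈ F)
    (hML : M ≠ L) (hMx : M ≠ {x})
    (hH : ∀ Z ⊆ U, Z.card ≤ (nbF (gr B) (F \ {{x}, L, M}) Z).card)
    (hc : ∃ m ∈ M, (gr B).Adj c m) :
    rho B (((Dp B Q T \ {w, w'}) ∪ {q, c}).erase x) + 1 ≤ rho B (Dp B Q T) := by
  have hcM : Cov B (insert c M) := by
    intro v hv
    rcases mem_insert.1 hv with h1 | h1
    · exact ⟨j, h1 ▸ (mem_inter.1 h.cj).1⟩
    · exact h.frm.covF M hM v h1
  have h1 := h.rho_three hM hML hMx hH (Y := insert c M ∪ {q}) (hcM.union h.cov_q)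
    (erase_subset x _) (by
    intro z hz hz'
    rcases hz' with h2 | h2 | h2 | h2
    · exact mem_union_left _ (mem_insert_of_mem h2)
    · exact absurd h2 (mem_erase.1 hz).1
    · rw [h2]
      exact mem_union_right _ (mem_singleton_self q)
    · rw [h2]
      exact mem_union_left _ (mem_insert_self _ _))
  have h2 := rho_union_le hcM h.cov_q
  have h4 := h.rho_q
  have h5 := rho_insert_fc (h.frm.ge.sys.fc M hM) (h.frm.sv_leaf hM) hc
    (fun h6 => h.jD h.cj (h.frm.FD hM h6))
  omega

/-- the point `q` is critical in the new rest. -/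
theorem crit_q (h : Dxe B Q T U F j k k0 e L a b c p q s x w w') :
    rho B (((Dp B Q T \ {w, w'}) ∪ {q, c}).erase q) + 1 ≤ rho B (Dp B Q T) := by
  have hsub : ((Dp B Q T \ {w, w'}) ∪ {q, c}).erase q ⊆
      (Dp B Q T \ ({{x}, L} : Finset (Finset V)).biUnion id) ∪ ((L \ {w, w'}) ∪ {x, c}) := by
    intro v hv
    obtain ⟨hvq, hv⟩ := mem_erase.1 hv
    rcases mem_union.1 hv with h5 | h5
    · obtain ⟨h6, h7⟩ := mem_sdiff.1 h5
      by_cases hvL : v ∈ L
      · exact mem_union_right _ (mem_union_left _ (mem_sdiff.2 ⟨hvL, h7⟩))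
      by_cases hvx : v = x
      · rw [hvx]
        exact mem_union_right _ (mem_union_right _ (mem_insert_self _ _))
      · refine mem_union_left _ (mem_sdiff.2 ⟨h6, fun h8 => ?_⟩)
        obtain ⟨C, hC, hvC⟩ := mem_biUnion.1 h8
        rcases mem_insert.1 hC with h9 | h9
        · rw [h9] at hvC
          exact hvx (mem_singleton.1 hvC)
        · rw [mem_singleton.1 h9] at hvC
          exact hvL hvC
    · rcases mem_insert.1 h5 with h6 | h6
      · exact absurd h6 hvq
      · rw [mem_singleton.1 h6]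
        exact mem_union_right _ (mem_union_right _ (by simp))
  have h2 := h.frr.rho_le h.frm.covD (h.cov_L.union h.cov_xc) hsub
  rw [sum_pair h.hLx.symm] at h2
  have h3 := rho_union_le h.cov_L h.cov_xc
  have h4 := h.rho_xc
  have h5 := h.rho_L
  have h6 := h.rho_x
  omega

/-- the points of `L - ww'` are critical in the new rest if `L - ww'` is factor-critical. -/
theorem crit_L (h : Dxe B Q T U F j k k0 e L a b c p q s x w w') {z : V}
    (hc : 2 * rho B ((L \ {w, w'}).erase z) + 3 ≤ L.card) :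
    rho B (((Dp B Q T \ {w, w'}) ∪ {q, c}).erase z) + 1 ≤ rho B (Dp B Q T) := by
  have hsub : ((Dp B Q T \ {w, w'}) ∪ {q, c}).erase z ⊆
      (Dp B Q T \ ({{x}, L} : Finset (Finset V)).biUnion id) ∪
        ((L \ {w, w'}).erase z ∪ ({x, c} ∪ {q})) := by
    intro v hv
    obtain ⟨hvz, hv⟩ := mem_erase.1 hv
    rcases mem_union.1 hv with h5 | h5
    · obtain ⟨h6, h7⟩ := mem_sdiff.1 h5
      by_cases hvL : v ∈ L
      · exact mem_union_right _ (mem_union_left _ (mem_erase.2 ⟨hvz, mem_sdiff.2 ⟨hvL, h7⟩⟩))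
      by_cases hvx : v = x
      · rw [hvx]
        exact mem_union_right _ (mem_union_right _ (mem_union_left _ (mem_insert_self _ _)))
      · refine mem_union_left _ (mem_sdiff.2 ⟨h6, fun h8 => ?_⟩)
        obtain ⟨C, hC, hvC⟩ := mem_biUnion.1 h8
        rcases mem_insert.1 hC with h9 | h9
        · rw [h9] at hvC
          exact hvx (mem_singleton.1 hvC)
        · rw [mem_singleton.1 h9] at hvC
          exact hvL hvC
    · rcases mem_insert.1 h5 with h6 | h6
      · rw [h6]
        exact mem_union_right _ (mem_union_right _ (mem_union_right _ (mem_singleton_self _)))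
      · rw [mem_singleton.1 h6]
        exact mem_union_right _ (mem_union_right _ (mem_union_left _ (by simp)))
  have hcL : Cov B ((L \ {w, w'}).erase z) := h.cov_L.mono (erase_subset _ _)
  have h2 := h.frr.rho_le h.frm.covD (hcL.union (h.cov_xc.union h.cov_q)) hsub
  rw [sum_pair h.hLx.symm] at h2
  have h3 := rho_union_le hcL (h.cov_xc.union h.cov_q)
  have h3' := rho_union_le h.cov_xc h.cov_q
  have h4 := h.rho_xc
  have h5 := h.frm.card_leaf h.hL
  have h6 := h.rho_x
  have h7 := h.rho_q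
  omega

/-- the point `q` does not see a third leaf. -/
theorem q_sees [DecidableEq ι] (h : Dxe B Q T U F j k k0 e L a b c p q s x w w') {C : Finset V}
    (hC : C ∈ F) (hCL : C ≠ L) (hCx : C ≠ {x})
    (hH : ∀ Z ⊆ U, Z.card ≤ (nbF (gr B) (F \ {{x}, L, C}) Z).card) {z : V} (hz : z ∈ C) :
    ¬ (gr B).Adj q z := by
  intro hadj
  have hcC : Cov B (insert q C) := by
    intro v hv
    rcases mem_insert.1 hv with h1 | h1
    · exact ⟨k, h1 ▸ (mem_inter.1 h.qk).1⟩
    · exact h.frm.covF C hC v h1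
  have h1 := h.rho_three hC hCL hCx hH (Y := insert q C ∪ {x, c}) (hcC.union h.cov_xc)
    (Subset.refl _) (by
    intro v _ hv'
    rcases hv' with h2 | h2 | h2 | h2
    · exact mem_union_left _ (mem_insert_of_mem h2)
    · rw [h2]
      exact mem_union_right _ (mem_insert_self _ _)
    · rw [h2]
      exact mem_union_left _ (mem_insert_self _ _)
    · rw [h2]
      exact mem_union_right _ (by simp))
  have h2 := rho_union_le hcC h.cov_xc
  have h4 := h.rho_xc
  have h5 := rho_insert_fc (h.frm.ge.sys.fc C hC) (h.frm.sv_leaf hC) ⟨z, hz, hadj⟩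
    (fun h6 => h.kD h.qk (h.frm.FD hC h6))
  have h6 := h.rho_new_eq
  omega

/-- the part of the new rest around `L`, `x` and `q` has no good cover. -/
theorem part_odd [DecidableEq ι] (h : Dxe B Q T U F j k k0 e L a b c p q s x w w')
    {M : Finset V} (hM : M ∈ F) (hML : M ≠ L) (hMx : M ≠ {x})
    (hH : ∀ Z ⊆ U, Z.card ≤ (nbF (gr B) (F \ {{x}, L, M}) Z).card)
    (hc : ∃ m ∈ M, (gr B).Adj c m) :
    (L.card : ℤ) + (Ep B Q T U F).card + 3 ≤
      2 * rho B ((L \ {w, w'}) ∪ {q, x} ∪ Ep B Q T U F) := by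
  classical
  have hS : ({{x}, L, M} : Finset (Finset V)) ⊆ F := by
    intro C' hC'
    simp only [mem_insert, mem_singleton] at hC'
    rcases hC' with rfl | rfl | rfl
    · exact h.hx
    · exact h.hL
    · exact hM
  have hN := h.frm.rho_part hS (insert_nonempty _ _) hH
  have hP := h.frm.card_parts hS
  have hxLM : ({x} : Finset V) ∉ ({L, M} : Finset (Finset V)) := by
    simp only [mem_insert, mem_singleton, not_or]
    exact ⟨h.hLx.symm, hMx.symm⟩
  have hcS : (({{x}, L, M} : Finset (Finset V)).biUnion id).card = 1 + (L.card + M.card) := by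
    rw [biUnion_insert, biUnion_insert, singleton_biUnion]
    have h1 : Disjoint L M := h.frm.ge.sys.disj L h.hL M hM hML.symm
    have h2 : Disjoint ({x} : Finset V) (L ∪ M) := by
      rw [disjoint_union_right]
      exact ⟨h.frm.ge.sys.disj {x} h.hx L h.hL h.hLx.symm,
        h.frm.ge.sys.disj {x} h.hx M hM hMx.symm⟩
    change ({x} ∪ (L ∪ M)).card = _
    rw [card_union_of_disjoint h2, card_union_of_disjoint h1, card_singleton]
  have hc2 : (({{x}, L, M} : Finset (Finset V))).card = 3 := by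
    rw [card_insert_of_notMem hxLM, card_pair hML.symm]
  set N := U ∪ (F \ {{x}, L, M}).biUnion id with hNdef
  set E := Ep B Q T U F with hE
  have hsub : (Dp B Q T \ {w, w'}) ∪ {q, c} ⊆
      ((L \ {w, w'}) ∪ {q, x} ∪ E) ∪ (N ∪ insert c M) := by
    intro z hz
    rcases mem_union.1 hz with hz2 | hz2
    · obtain ⟨hz3, hz4⟩ := mem_sdiff.1 hz2
      have hset : U ∪ F.biUnion id ∪ E = Dp B Q T := h.frm.ge.set_eq
      rw [← hset] at hz3
      rcases mem_union.1 hz3 with hz5 | hz5
      · rcases mem_union.1 hz5 with hz6 | hz6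
        · exact mem_union_right _ (mem_union_left _ (mem_union_left _ hz6))
        · obtain ⟨C, hC, hzC⟩ := mem_biUnion.1 hz6
          by_cases hCL : C = L
          · exact mem_union_left _ (mem_union_left _ (mem_union_left _
              (mem_sdiff.2 ⟨hCL ▸ hzC, hz4⟩)))
          by_cases hCM : C = M
          · exact mem_union_right _ (mem_union_right _ (mem_insert_of_mem (hCM ▸ hzC)))
          by_cases hCx : C = {x}
          · rw [hCx] at hzC
            have h1 : z = x := mem_singleton.1 hzC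
            exact mem_union_left _ (mem_union_left _ (mem_union_right _ (by rw [h1]; simp)))
          · refine mem_union_right _ (mem_union_left _ (mem_union_right _
              (mem_biUnion.2 ⟨C, mem_sdiff.2 ⟨hC, ?_⟩, hzC⟩)))
            simp only [mem_insert, mem_singleton, not_or]
            exact ⟨hCx, hCL, hCM⟩
      · exact mem_union_left _ (mem_union_right _ hz5)
    · rcases mem_insert.1 hz2 with hz3 | hz3
      · exact mem_union_left _ (mem_union_left _ (mem_union_right _ (by rw [hz3]; simp)))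
      · rw [mem_singleton.1 hz3]
        exact mem_union_right _ (mem_union_right _ (mem_insert_self _ _))
  have hcN : Cov B N := by
    refine h.frm.covD.mono (union_subset h.frm.UD ?_)
    intro z hz
    obtain ⟨C, hC, hzC⟩ := mem_biUnion.1 hz
    exact h.frm.FD (mem_sdiff.1 hC).1 hzC
  have hcE : Cov B E := h.frm.covD.mono ED
  have hcqx : Cov B ({q, x} : Finset V) := by
    intro z hz
    rcases mem_insert.1 hz with h1 | h1
    · exact ⟨k, h1 ▸ (mem_inter.1 h.qk).1⟩
    · rw [mem_singleton.1 h1]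
      exact h.frm.covF {x} h.hx x (mem_singleton_self x)
  have hcM : Cov B (insert c M) := by
    intro z hz
    rcases mem_insert.1 hz with h1 | h1
    · exact ⟨j, h1 ▸ (mem_inter.1 h.cj).1⟩
    · exact h.frm.covF M hM z h1
  have hcH := (h.cov_L.union hcqx).union hcE
  have r1 := rho_mono hsub (hcH.union (hcN.union hcM))
  have r2 := rho_union_le hcH (hcN.union hcM)
  have r3 := rho_union_le hcN hcM
  have r4 := rho_insert_fc (h.frm.ge.sys.fc M hM) (h.frm.sv_leaf hM) hc
    (fun hcM' => h.jD h.cj (h.frm.FD hM hcM'))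
  have r5 := h.rho_new_eq
  have r6 := h.frm.card_leaf hM
  have r7 := h.frm.svD
  rw [hcS] at hP
  rw [hc2] at hN
  unfold sv at r7
  push_cast at hN
  omega

omit [Fintype ι] in
/-- the size of the part around `L`. -/
theorem card_H (h : Dxe B Q T U F j k k0 e L a b c p q s x w w') :
    ((L \ {w, w'}) ∪ {q, x} ∪ Ep B Q T U F).card = L.card + (Ep B Q T U F).card := by
  have hxD : x ∈ Dp B Q T := h.frm.FD h.hx (mem_singleton_self x)
  have hqx : q ≠ x := fun he => h.kD h.qk (he ▸ hxD)
  have h1 : Disjoint ((L \ {w, w'}) ∪ {q, x}) (Ep B Q T U F) := by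
    rw [disjoint_left]
    intro v hv hv'
    rcases mem_union.1 hv with h2 | h2
    · exact disjoint_left.1 (h.frm.ge.FE L h.hL) (mem_sdiff.1 h2).1 hv'
    · rcases mem_insert.1 h2 with h3 | h3
      · exact h.kD h.qk (ED (h3 ▸ hv'))
      · exact disjoint_left.1 (h.frm.ge.FE {x} h.hx) (mem_singleton_self x)
          ((mem_singleton.1 h3) ▸ hv')
  have h2 : Disjoint (L \ {w, w'}) {q, x} := by
    rw [disjoint_left]
    intro v hv hv'
    rcases mem_insert.1 hv' with h3 | h3
    · exact h.kD h.qk (h.frm.FD h.hL (h3 ▸ (mem_sdiff.1 hv).1))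
    · exact disjoint_left.1 (h.frm.ge.sys.disj {x} h.hx L h.hL h.hLx.symm)
        (mem_singleton_self x) ((mem_singleton.1 h3) ▸ (mem_sdiff.1 hv).1)
  have h3 : ({w, w'} : Finset V) ⊆ L := by
    intro z hz
    rcases mem_insert.1 hz with h4 | h4
    · exact h4 ▸ h.hw
    · exact (mem_singleton.1 h4) ▸ h.hw'
  have h4 := card_sdiff_add_card_eq_card h3
  rw [card_pair h.hww] at h4
  rw [card_union_of_disjoint h1, card_union_of_disjoint h2, card_pair hqx]
  omega

/-- **the lemma of the largest `U`**: every new frame has a larger set `U`. -/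
theorem umax_sub [DecidableEq ι] (h : Dxe B Q T U F j k k0 e L a b c p q s x w w')
    (hfree : ∀ C ∈ F, C ≠ L → C ≠ {x} →
      ∀ Z ⊆ U, Z.card ≤ (nbF (gr B) (F \ {{x}, L, C}) Z).card)
    (hU : ∀ u ∈ U, ¬ (gr B).Adj u x)
    (hc : ∃ M ∈ F, M ≠ L ∧ M ≠ {x} ∧ ∃ m ∈ M, (gr B).Adj c m) {U1 : Finset V}
    {F1 : Finset (Finset V)} (h1 : Frm B Q ((T \ {j, k}) ∪ {k0, e}) U1 F1) :
    insert c U ⊆ U1 := by
  classical
  have hMset := h.swap.2
  have hG := h1.ge
  obtain ⟨M, hMF, hML, hMx, hcM⟩ := hc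
  have hodd := h.part_odd hMF hML hMx (hfree M hMF hML hMx) hcM
  have hcH := h.card_H
  set E := Ep B Q T U F with hE
  set H := (L \ {w, w'}) ∪ {q, x} ∪ E with hH
  obtain ⟨UH, FH, hGH⟩ := exists_GE (gr B) H
  have hxD : x ∈ Dp B Q T := h.frm.FD h.hx (mem_singleton_self x)
  have hxU : x ∉ U := fun h2 =>
    disjoint_left.1 (h.frm.ge.FU {x} h.hx) (mem_singleton_self x) h2
  have hcovH : Cov B H := by
    refine Cov.union (h.cov_L.union ?_) (h.frm.covD.mono ED)
    intro z hz
    rcases mem_insert.1 hz with h2 | h2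
    · exact ⟨k, h2 ▸ (mem_inter.1 h.qk).1⟩
    · rw [mem_singleton.1 h2]
      exact h.frm.covF {x} h.hx x (mem_singleton_self x)
  have hqH : q ∈ H := mem_union_left _ (mem_union_right _ (by simp))
  have hxH : x ∈ H := mem_union_left _ (mem_union_right _ (by simp))
  have hcard : UH.card + 3 ≤ FH.card := by
    have r1 := hGH.sv_ge hcovH ⟨x, hxH⟩
    have r2 := hGH.rest_nonneg
    unfold sv at r1 r2
    omega
  have hrD := h.rho_new_eq
  have hcD := h.card_new
  have hcovD := h.cov_new
  set D1 := (Dp B Q T \ {w, w'}) ∪ {q, c} with hD1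
  have hDp1 : Dp B Q ((T \ {j, k}) ∪ {k0, e}) = D1 := hMset
  have hEU : ∀ z ∈ E, z ∉ U := fun z hz hzU => (mem_sdiff.1 (mem_sdiff.1 hz).1).2 hzU
  have hEF : ∀ z ∈ E, ∀ C ∈ F, z ∉ C := fun z hz C hC hzC =>
    disjoint_left.1 (h.frm.ge.FE C hC) hzC hz
  have hDX : ∀ z ∈ Dp B Q T, z ∉ U → z ∈ (Q \ T.biUnion B) \ U := fun z hz hzU =>
    mem_sdiff.2 ⟨hz, hzU⟩
  intro u hu
  have huD1 : u ∈ D1 := by
    rcases mem_insert.1 hu with h2 | h2
    · rw [h2]
      exact mem_union_right _ (by simp)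
    · refine mem_union_left _ (mem_sdiff.2 ⟨h.frm.UD h2, fun h3 => ?_⟩)
      rcases mem_insert.1 h3 with h4 | h4
      · exact disjoint_left.1 (h.frm.ge.FU L h.hL) h.hw (h4 ▸ h2)
      · exact disjoint_left.1 (h.frm.ge.FU L h.hL) h.hw' ((mem_singleton.1 h4) ▸ h2)
  -- `u` is not critical in the new rest
  have hncr : rho B (D1.erase u) + 1 ≠ rho B D1 := by
    intro hcr
    have hpt : PT B (D1.erase u) := by
      have h2 := h1.pt
      rw [hDp1] at h2
      refine h2.erase ?_ hcovD (by omega)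
      have h3 := h1.tr3D
      rwa [hDp1] at h3
    -- the points of `H`
    have hHc : ∀ z ∈ H, z ∈ L ∧ z ∉ ({w, w'} : Finset V) ∨ z = q ∨ z = x ∨ z ∈ E := by
      intro z hz
      rcases mem_union.1 hz with h2 | h2
      · rcases mem_union.1 h2 with h3 | h3
        · exact Or.inl (mem_sdiff.1 h3)
        · rcases mem_insert.1 h3 with h4 | h4
          · exact Or.inr (Or.inl h4)
          · exact Or.inr (Or.inr (Or.inl (mem_singleton.1 h4)))
      · exact Or.inr (Or.inr (Or.inr h2))
    have hHL : ∀ C ∈ F, C ≠ L → C ≠ {x} → Disjoint C H := by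
      intro C hC hCL hCx
      rw [disjoint_left]
      intro z hz hzH
      rcases hHc z hzH with h4 | h4 | h4 | h4
      · exact disjoint_left.1 (h.frm.ge.sys.disj C hC L h.hL hCL) hz h4.1
      · exact h.kD h.qk (h.frm.FD hC (h4 ▸ hz))
      · exact disjoint_left.1 (h.frm.ge.sys.disj C hC {x} h.hx hCx) hz
          (mem_singleton.2 h4)
      · exact hEF z h4 C hC hz
    -- no edge between a third leaf and `H`
    have hsep : ∀ C ∈ F, C ≠ L → C ≠ {x} → ∀ y ∈ C, ∀ z ∈ H, ¬ (gr B).Adj y z := by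
      intro C hC hCL hCx y hy z hz hadj
      by_cases hzq : z = q
      · rw [hzq] at hadj
        exact h.q_sees hC hCL hCx (hfree C hC hCL hCx) hy hadj.symm
      have h2 : z ∈ Dp B Q T ∧ z ∉ U := by
        rcases hHc z hz with h4 | h4 | h4 | h4
        · exact ⟨h.frm.FD h.hL h4.1, fun h5 =>
            disjoint_left.1 (h.frm.ge.FU L h.hL) h4.1 h5⟩
        · exact absurd h4 hzq
        · rw [h4]
          exact ⟨hxD, hxU⟩
        · exact ⟨ED h4, hEU z h4⟩
      have h3 := (h.frm.ge.sys.closed C hC).2 y hy z (hDX z h2.1 h2.2) hadj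
      exact disjoint_left.1 (hHL C hC hCL hCx) h3 hz
    have hsys : OddSys (gr B) (D1.erase u \ (insert c U ∪ UH).erase u)
        ((F.erase L).erase {x} ∪ FH) := by
      -- the points of the ambient set
      have hamb : ∀ z ∈ D1.erase u \ (insert c U ∪ UH).erase u,
          (∃ C ∈ F, C ≠ L ∧ C ≠ {x} ∧ z ∈ C) ∨ z ∈ H \ UH := by
        intro z hz
        obtain ⟨h2, h3⟩ := mem_sdiff.1 hz
        obtain ⟨hzu, h4⟩ := mem_erase.1 h2
        have h5 : z ∉ insert c U ∪ UH := fun h6 => h3 (mem_erase.2 ⟨hzu, h6⟩)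
        have hzUH : z ∉ UH := fun h6 => h5 (mem_union_right _ h6)
        have hzc : z ≠ c := fun h6 =>
          h5 (mem_union_left _ (by rw [h6]; exact mem_insert_self _ _))
        have hzU : z ∉ U := fun h6 => h5 (mem_union_left _ (mem_insert_of_mem h6))
        rcases mem_union.1 h4 with h6 | h6
        · obtain ⟨h7, h8⟩ := mem_sdiff.1 h6
          have hset : U ∪ F.biUnion id ∪ E = Dp B Q T := h.frm.ge.set_eq
          rw [← hset] at h7
          rcases mem_union.1 h7 with h9 | h9
          · rcases mem_union.1 h9 with h10 | h10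
            · exact absurd h10 hzU
            · obtain ⟨C, hC, hzC⟩ := mem_biUnion.1 h10
              by_cases hCL : C = L
              · right
                exact mem_sdiff.2 ⟨mem_union_left _ (mem_union_left _
                  (mem_sdiff.2 ⟨hCL ▸ hzC, h8⟩)), hzUH⟩
              by_cases hCx : C = {x}
              · right
                rw [hCx] at hzC
                have h11 : z = x := mem_singleton.1 hzC
                exact mem_sdiff.2 ⟨h11 ▸ hxH, hzUH⟩
              · exact Or.inl ⟨C, hC, hCL, hCx, hzC⟩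
          · exact Or.inr (mem_sdiff.2 ⟨mem_union_right _ h9, hzUH⟩)
        · rcases mem_insert.1 h6 with h7 | h7
          · right
            rw [h7]
            exact mem_sdiff.2 ⟨hqH, h7 ▸ hzUH⟩
          · exact absurd (mem_singleton.1 h7) hzc
      have hFD1 : ∀ C ∈ F, C ≠ L → C ≠ {x} → ∀ z ∈ C,
          z ∈ D1.erase u \ (insert c U ∪ UH).erase u := by
        intro C hC hCL hCx z hz
        have hzD := h.frm.FD hC hz
        have hzU : z ∉ U := fun h2 => disjoint_left.1 (h.frm.ge.FU C hC) hz h2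
        have hzu : z ≠ u := by
          rintro rfl
          rcases mem_insert.1 hu with h2 | h2
          · exact h.jD h.cj (h2 ▸ hzD)
          · exact hzU h2
        refine mem_sdiff.2 ⟨mem_erase.2 ⟨hzu, mem_union_left _ (mem_sdiff.2 ⟨hzD, ?_⟩)⟩, ?_⟩
        · intro h2
          rcases mem_insert.1 h2 with h3 | h3
          · exact disjoint_left.1 (h.frm.ge.sys.disj C hC L h.hL hCL) hz (h3 ▸ h.hw)
          · exact disjoint_left.1 (h.frm.ge.sys.disj C hC L h.hL hCL) hz
              ((mem_singleton.1 h3) ▸ h.hw')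
        · intro h2
          rcases mem_union.1 (mem_erase.1 h2).2 with h3 | h3
          · rcases mem_insert.1 h3 with h4 | h4
            · exact h.jD h.cj (h4 ▸ hzD)
            · exact hzU h4
          · exact disjoint_left.1 (hHL C hC hCL hCx) hz (hGH.sub h3)
      have hHD1 : ∀ z ∈ H, z ∉ UH → z ∈ D1.erase u \ (insert c U ∪ UH).erase u := by
        intro z hz hzUH
        have hzcU : z ∉ insert c U := by
          intro h2
          rcases mem_insert.1 h2 with h3 | h3
          · rcases hHc z hz with h4 | h4 | h4 | h4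
            · exact h.jD h.cj (h3 ▸ h.frm.FD h.hL h4.1)
            · exact h.jk h.cj h.qk (h3.symm.trans h4)
            · exact h.jD h.cj ((h3.symm.trans h4) ▸ hxD)
            · exact h.jD h.cj (h3 ▸ ED h4)
          · rcases hHc z hz with h4 | h4 | h4 | h4
            · exact disjoint_left.1 (h.frm.ge.FU L h.hL) h4.1 h3
            · exact h.kD h.qk (h4 ▸ h.frm.UD h3)
            · exact hxU (h4 ▸ h3)
            · exact hEU z h4 h3
        have hzu : z ≠ u := fun h2 => hzcU (h2 ▸ hu)
        refine mem_sdiff.2 ⟨mem_erase.2 ⟨hzu, ?_⟩, ?_⟩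
        · rcases hHc z hz with h4 | h4 | h4 | h4
          · exact mem_union_left _ (mem_sdiff.2 ⟨h.frm.FD h.hL h4.1, h4.2⟩)
          · exact mem_union_right _ (by rw [h4]; simp)
          · refine mem_union_left _ (mem_sdiff.2 ⟨h4 ▸ hxD, fun h5 => ?_⟩)
            have h6 : z ∈ ({x} : Finset V) := mem_singleton.2 h4
            have h7 := disjoint_left.1 (h.frm.ge.sys.disj {x} h.hx L h.hL h.hLx.symm) h6
            rcases mem_insert.1 h5 with h8 | h8
            · exact h7 (h8 ▸ h.hw)
            · exact h7 ((mem_singleton.1 h8) ▸ h.hw')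
          · refine mem_union_left _ (mem_sdiff.2 ⟨ED h4, fun h5 => ?_⟩)
            rcases mem_insert.1 h5 with h6 | h6
            · exact hEF z h4 L h.hL (h6 ▸ h.hw)
            · exact hEF z h4 L h.hL ((mem_singleton.1 h6) ▸ h.hw')
        · intro h2
          rcases mem_union.1 (mem_erase.1 h2).2 with h3 | h3
          · exact hzcU h3
          · exact hzUH h3
      have hCH : ∀ C ∈ FH, ∀ z ∈ C, z ∈ H \ UH := fun C hC z hz => (hGH.sys.closed C hC).1 hz
      have hmem : ∀ C ∈ (F.erase L).erase {x}, C ∈ F ∧ C ≠ L ∧ C ≠ {x} := fun C hC =>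
        ⟨(mem_erase.1 (mem_erase.1 hC).2).2, (mem_erase.1 (mem_erase.1 hC).2).1,
          (mem_erase.1 hC).1⟩
      refine ⟨fun C hC => ?_, fun C hC => ?_, fun C hC C' hC' hne => ?_⟩
      · rcases mem_union.1 hC with hC1 | hC1
        · obtain ⟨hCF, hCL, hCx⟩ := hmem C hC1
          refine ⟨fun z hz => hFD1 C hCF hCL hCx z hz, fun y hy z hz hadj => ?_⟩
          rcases hamb z hz with ⟨C', hC', _, _, hzC'⟩ | h2
          · have hzD := h.frm.FD hC' hzC'
            have hzU : z ∉ U := fun h3 => disjoint_left.1 (h.frm.ge.FU C' hC') hzC' h3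
            exact (h.frm.ge.sys.closed C hCF).2 y hy z (hDX z hzD hzU) hadj
          · exact absurd hadj (hsep C hCF hCL hCx y hy z (mem_sdiff.1 h2).1)
        · refine ⟨fun z hz => hHD1 z (mem_sdiff.1 (hCH C hC1 z hz)).1
            (mem_sdiff.1 (hCH C hC1 z hz)).2, fun y hy z hz hadj => ?_⟩
          rcases hamb z hz with ⟨C', hC', hC'L, hC'x, hzC'⟩ | h2
          · exact absurd hadj.symm
              (hsep C' hC' hC'L hC'x z hzC' y (mem_sdiff.1 (hCH C hC1 y hy)).1)
          · exact (hGH.sys.closed C hC1).2 y hy z h2 hadj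
      · rcases mem_union.1 hC with hC1 | hC1
        · exact (h.frm.ge.sys.fc C (hmem C hC1).1).odd
        · exact (hGH.sys.fc C hC1).odd
      · rcases mem_union.1 hC with hC1 | hC1 <;> rcases mem_union.1 hC' with hC2 | hC2
        · exact h.frm.ge.sys.disj C (hmem C hC1).1 C' (hmem C' hC2).1 hne
        · exact disjoint_of_subset_right (fun z hz => (mem_sdiff.1 (hCH C' hC2 z hz)).1)
            (hHL C (hmem C hC1).1 (hmem C hC1).2.1 (hmem C hC1).2.2)
        · exact (disjoint_of_subset_right (fun z hz => (mem_sdiff.1 (hCH C hC1 z hz)).1)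
            (hHL C' (hmem C' hC2).1 (hmem C' hC2).2.1 (hmem C' hC2).2.2)).symm
        · exact hGH.sys.disj C hC1 C' hC2 hne
    have hfam : Disjoint ((F.erase L).erase {x}) FH := by
      rw [disjoint_left]
      intro C hC hC'
      obtain ⟨z, hz⟩ := (hGH.sys.fc C hC').1
      have h2 := (mem_sdiff.1 ((hGH.sys.closed C hC').1 hz)).1
      exact disjoint_left.1 (hHL C (mem_erase.1 (mem_erase.1 hC).2).2
        (mem_erase.1 (mem_erase.1 hC).2).1 (mem_erase.1 hC).1) hz h2
    have h2 := berge (hcovD.mono (erase_subset _ _)) (by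
      have h3 := h1.tr3D
      rw [hDp1] at h3
      exact h3.mono (erase_subset _ _)) hpt hsys
    rw [card_union_of_disjoint hfam] at h2
    have h3 := card_erase_add_one h.hL
    have h3' := card_erase_add_one (mem_erase.2 ⟨h.hLx.symm, h.hx⟩)
    have hcu : ((insert c U ∪ UH).erase u).card + 1 ≤ U.card + 1 + UH.card := by
      rw [card_erase_add_one (mem_union_left _ hu)]
      exact (card_union_le _ _).trans (Nat.add_le_add_right (card_insert_le _ _) _)
    have h4 := card_erase_add_one huD1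
    have h5 := h.frm.svD
    unfold sv at h2 h5
    push_cast at h2
    omega
  -- `u` sees a critical point
  obtain ⟨C, hC, hCL, hCx, l, hl, hadj⟩ :
      ∃ C ∈ F, C ≠ L ∧ C ≠ {x} ∧ ∃ l ∈ C, (gr B).Adj u l := by
    rcases mem_insert.1 hu with h2 | h2
    · obtain ⟨m, hm, hadj⟩ := hcM
      exact ⟨M, hMF, hML, hMx, m, hm, h2 ▸ hadj⟩
    · have h3 := h.frm.ge.surplus {u} (singleton_subset_iff.2 h2) (singleton_nonempty u)
      rw [card_singleton] at h3
      obtain ⟨C, hC, hCL⟩ := exists_mem_ne (by omega : 1 < (nbF (gr B) F {u}).card) L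
      obtain ⟨h4, x', hx', l, hl, hadj⟩ := mem_nbF.1 hC
      rw [mem_singleton] at hx'
      subst hx'
      refine ⟨C, h4, hCL, fun h5 => ?_, l, hl, hadj⟩
      rw [h5, mem_singleton] at hl
      exact hU x' h2 (hl ▸ hadj)
  have hlD1 : l ∈ D1 := by
    refine mem_union_left _ (mem_sdiff.2 ⟨h.frm.FD hC hl, fun h2 => ?_⟩)
    rcases mem_insert.1 h2 with h3 | h3
    · exact disjoint_left.1 (h.frm.ge.sys.disj C hC L h.hL hCL) hl (h3 ▸ h.hw)
    · exact disjoint_left.1 (h.frm.ge.sys.disj C hC L h.hL hCL) hl ((mem_singleton.1 h3) ▸ h.hw')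
  have hlcr : rho B (D1.erase l) + 1 = rho B D1 := by
    have h2 := h.crit hC hCL hCx (hfree C hC hCL hCx) hl
    rw [← hD1] at h2
    have h3 := rho_le_erase (x := l) hcovD
    omega
  have hlF : l ∈ F1.biUnion id := by
    refine (h1.crit_iff (by rw [hDp1]; exact hlD1)).1 ?_
    rw [hDp1]
    exact hlcr
  by_contra hcon
  obtain ⟨C1, hC1, hlC⟩ := mem_biUnion.1 hlF
  have h3 : u ∈ (Q \ ((T \ {j, k}) ∪ {k0, e}).biUnion B) \ U1 := by
    refine mem_sdiff.2 ⟨?_, hcon⟩
    have h4 : Q \ ((T \ {j, k}) ∪ {k0, e}).biUnion B = D1 := hDp1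
    rw [h4]
    exact huD1
  have h4 := (hG.sys.closed C1 hC1).2 l hlC u h3 hadj.symm
  refine hncr ?_
  have h5 := (h1.crit_iff (v := u) (by rw [hDp1]; exact huD1)).2 (mem_biUnion.2 ⟨C1, hC1, h4⟩)
  rwa [hDp1] at h5

/-- the new even part lies in the old one if `L - ww'` is factor-critical. -/
theorem even_sub [DecidableEq ι] (h : Dxe B Q T U F j k k0 e L a b c p q s x w w')
    (hfree : ∀ C ∈ F, C ≠ L → C ≠ {x} →
      ∀ Z ⊆ U, Z.card ≤ (nbF (gr B) (F \ {{x}, L, C}) Z).card)
    (hU : ∀ u ∈ U, ¬ (gr B).Adj u x)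
    (hc : ∃ M ∈ F, M ≠ L ∧ M ≠ {x} ∧ ∃ m ∈ M, (gr B).Adj c m)
    (hfc : ∀ z ∈ L \ {w, w'}, 2 * rho B ((L \ {w, w'}).erase z) + 3 ≤ L.card)
    {U1 : Finset V} {F1 : Finset (Finset V)}
    (h1 : Frm B Q ((T \ {j, k}) ∪ {k0, e}) U1 F1) :
    Ep B Q ((T \ {j, k}) ∪ {k0, e}) U1 F1 ⊆ Ep B Q T U F := by
  intro v hv
  have hU1 := h.umax_sub hfree hU hc h1
  have hDp1 := h.swap.2
  have hrD := h.rho_new_eq
  have hvD := ED hv
  have hvU : v ∉ U1 := (mem_sdiff.1 (mem_sdiff.1 hv).1).2
  have hvF : v ∉ F1.biUnion id := (mem_sdiff.1 hv).2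
  have hncr : ¬ rho B (((Dp B Q T \ {w, w'}) ∪ {q, c}).erase v) + 1 ≤ rho B (Dp B Q T) := by
    intro h2
    refine hvF ((h1.crit_iff hvD).1 ?_)
    rw [hDp1]
    have h3 := rho_le_erase (x := v) h.cov_new
    omega
  rw [hDp1] at hvD
  rcases mem_union.1 hvD with h2 | h2
  · obtain ⟨h3, h4⟩ := mem_sdiff.1 h2
    rcases h.frm.mem_three h3 with h5 | h5 | h5
    · exact absurd (hU1 (mem_insert_of_mem h5)) hvU
    · obtain ⟨C, hC, hvC⟩ := mem_biUnion.1 h5
      by_cases hCL : C = L
      · exact absurd (h.crit_L (hfc v (mem_sdiff.2 ⟨hCL ▸ hvC, h4⟩))) hncr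
      by_cases hCx : C = {x}
      · rw [hCx] at hvC
        have h6 : v = x := mem_singleton.1 hvC
        obtain ⟨M, hM, hML, hMx, hcM⟩ := hc
        exact absurd (h6 ▸ h.crit_x hM hML hMx (hfree M hM hML hMx) hcM) hncr
      · exact absurd (h.crit hC hCL hCx (hfree C hC hCL hCx) hvC) hncr
    · exact h5
  · rcases mem_insert.1 h2 with h3 | h3
    · exact absurd (h3 ▸ h.crit_q) hncr
    · rw [mem_singleton.1 h3] at hvU
      exact absurd (hU1 (mem_insert_self _ _)) hvU

end Frm.Dxe

/-- **no double exchange**: in an `MTE` frame the leaf `L` of a full hit of `p` is not free together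
with `{x}` and every other leaf if `L` is factor-critical without the two points, `x` is not seen
from `U` and `c` sees a third leaf. -/
theorem MTE.no_double [DecidableEq ι] (h : MTE B Q T U F) {j k k0 e : ι} {L : Finset V}
    {a b c p q s x w w' : V} (hd : Frm.Dxe B Q T U F j k k0 e L a b c p q s x w w')
    (hfree : ∀ C ∈ F, C ≠ L → C ≠ {x} →
      ∀ Z ⊆ U, Z.card ≤ (nbF (gr B) (F \ {{x}, L, C}) Z).card)
    (hU : ∀ u ∈ U, ¬ (gr B).Adj u x)
    (hc : ∃ M ∈ F, M ≠ L ∧ M ≠ {x} ∧ ∃ m ∈ M, (gr B).Adj c m)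
    (hfc : ∀ z ∈ L \ {w, w'}, 2 * rho B ((L \ {w, w'}).erase z) + 3 ≤ L.card) : False := by
  obtain ⟨U1, F1, hG⟩ := exists_GE (gr B) (Q \ ((T \ {j, k}) ∪ {k0, e}).biUnion B)
  have h1 : Frm B Q ((T \ {j, k}) ∪ {k0, e}) U1 F1 := ⟨h.frm.reg3, h.frm.cov, hd.swap.1, hG⟩
  have h2 := hd.umax_sub hfree hU hc h1
  have h3 := card_le_card (hd.even_sub hfree hU hc hfc h1)
  have h4 := h.umax _ U1 F1 h1 h3
  have h5 := card_le_card h2
  have h6 : c ∉ U := fun h6 => hd.jD hd.cj (h.frm.UD h6)
  rw [card_insert_of_notMem h6] at h5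
  omega

end Pool.Agent.Hyp6
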