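import Pool.Agent.Hyp6.L3Ly
import Pool.Agent.Hyp6.L3Fps

/-!
# HYP6 L3Lz: the donor of a claim has no full hit on a leaf which is alone

For a claim `Fpb` with inner block `k0` whose third point `s` lies in the triple `{p, q, s}`:
`Fpb.meet`: if a block `e` of `p` has two points in a leaf `L`, then every block of `q` with two points
in the rest meets `B e ∩ L`. `Fpb.no_full`: in an `MTE` frame there is no such block `e` if `L` is free
together with every other leaf, factor-critical without the two points and `c` sees a third leaf.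
-/

set_option autoImplicit false

namespace Pool.Agent.Hyp6

open Finset Pool.Agent.Hyp5

universe u v

variable {V : Type v} [DecidableEq V] {ι : Type u} [Fintype ι] {B : ι → Finset V}
  {Q U : Finset V} {T : Finset ι} {F : Finset (Finset V)} {j i k0 : ι} {a b c x : V}

namespace Fpb

/-- the data of the double exchange. -/
theorem dxe (h : Fpb B Q T U F j i k0 a b c x) {k : ι} (hk : k ∈ T) (hkj : k ≠ j) {p q s : V}
    (hkQ : B k ∩ Q = {p, q, s}) (hs : s ∈ B k0) {L : Finset V} (hL : L ∈ F) (hLx : L ≠ {x})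
    {e : ι} (hpe : p ∈ B e) (he : (B e ∩ L).card = 2) :
    ∃ w w', B e ∩ L = {w, w'} ∧ Frm.Dxe B Q T U F j k k0 e L a b c p q s x w w' := by
  obtain ⟨w, w', hww, hBL⟩ := card_eq_two.1 he
  have hf := h.px.frm
  have hw : w ∈ B e ∩ L := by rw [hBL]; simp
  have hw' : w' ∈ B e ∩ L := by rw [hBL]; simp
  have hpk : p ∈ B k ∩ Q := by rw [hkQ]; simp
  have hsk : s ∈ B k ∩ Q := by rw [hkQ]; simp
  have hd := hf.mtp.tpk.pack.disj k hk j h.px.hj hkj
  have hpD : p ∉ Dp B Q T := Frm.T_notD hk (mem_inter.1 hpk).1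
  have heQ : B e ∩ Q = {p, w, w'} := by
    symm
    refine eq_of_subset_of_card_le ?_ ?_
    · intro v hv
      simp only [mem_insert, mem_singleton] at hv
      rcases hv with h1 | h1 | h1
      · rw [h1]; exact mem_inter.2 ⟨hpe, (mem_inter.1 hpk).2⟩
      · rw [h1]; exact mem_inter.2 ⟨(mem_inter.1 hw).1, hf.FQ hL (mem_inter.1 hw).2⟩
      · rw [h1]; exact mem_inter.2 ⟨(mem_inter.1 hw').1, hf.FQ hL (mem_inter.1 hw').2⟩
    · rw [card_insert_of_notMem, card_pair hww]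
      · exact hf.reg3 e
      · simp only [mem_insert, mem_singleton, not_or]
        exact ⟨fun h2 => hpD (h2 ▸ hf.FD hL (mem_inter.1 hw).2),
          fun h2 => hpD (h2 ▸ hf.FD hL (mem_inter.1 hw').2)⟩
  have h0Q : B k0 ∩ Q = {a, b, s} := by
    symm
    refine eq_of_subset_of_card_le ?_ ?_
    · intro v hv
      simp only [mem_insert, mem_singleton] at hv
      rcases hv with h1 | h1 | h1
      · rw [h1]; exact mem_inter.2 ⟨h.ak, (mem_inter.1 h.aQ').2⟩
      · rw [h1]; exact mem_inter.2 ⟨h.bk, (mem_inter.1 h.bQ).2⟩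
      · rw [h1]; exact mem_inter.2 ⟨hs, (mem_inter.1 hsk).2⟩
    · rw [card_insert_of_notMem, card_pair]
      · exact hf.reg3 k0
      · exact fun h2 => disjoint_left.1 hd hsk (h2 ▸ h.bQ)
      · simp only [mem_insert, mem_singleton, not_or]
        exact ⟨h.px.ne.1, fun h2 => disjoint_left.1 hd hsk (h2 ▸ h.aQ')⟩
  have hxi : x ∈ B i ∩ Q := by rw [h.px.hiQ]; simp
  have hci : c ∈ B i ∩ Q := by rw [h.px.hiQ]; simp
  have hcD : c ∉ Dp B Q T := Frm.T_notD h.px.hj h.cj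
  have hcx : (gr B).Adj c x := by
    refine ⟨fun h2 => hcD ?_, i, (mem_inter.1 hci).1, (mem_inter.1 hxi).1⟩
    rw [h2]
    exact hf.FD h.px.hx (mem_singleton_self x)
  exact ⟨w, w', hBL, hf, h.px.hj, hk, hkj, h.px.hjQ, hkQ, h0Q, heQ, hww, hL,
    (mem_inter.1 hw).2, (mem_inter.1 hw').2, h.px.hx, hLx, hcx, h.px.hfree L hL hLx⟩

/-- **one full hit of the donor**: every block of the other point with two points in the rest meets
the full hit in the leaf. -/
theorem meet [DecidableEq ι] (h : Fpb B Q T U F j i k0 a b c x) {k : ι} (hk : k ∈ T)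
    (hkj : k ≠ j) {p q s : V} (hkQ : B k ∩ Q = {p, q, s}) (hs : s ∈ B k0) {L : Finset V}
    (hL : L ∈ F) (hLx : L ≠ {x}) {e : ι} (hpe : p ∈ B e) (he : (B e ∩ L).card = 2) {f : ι}
    (hqf : q ∈ B f) (hf : (B f ∩ Dp B Q T).card = 2) : (B f ∩ (B e ∩ L)).Nonempty := by
  obtain ⟨w, w', hBL, hd⟩ := h.dxe hk hkj hkQ hs hL hLx hpe he
  rw [hBL]
  rcases hd.meet hqf hf with h1 | h1
  · exact ⟨w, mem_inter.2 ⟨h1, by simp⟩⟩
  · exact ⟨w', mem_inter.2 ⟨h1, by simp⟩⟩

/-- **no full hit of the donor** on a leaf which is free together with every other leaf. -/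
theorem no_full [DecidableEq ι] (h : Fpb B Q T U F j i k0 a b c x) (hq : MTE B Q T U F)
    {k : ι} (hk : k ∈ T) (hkj : k ≠ j) {p q s : V} (hkQ : B k ∩ Q = {p, q, s}) (hs : s ∈ B k0)
    {L : Finset V} (hL : L ∈ F) (hLx : L ≠ {x}) {e : ι} (hpe : p ∈ B e)
    (he : (B e ∩ L).card = 2)
    (hfree : ∀ C ∈ F, C ≠ L → ∀ Z ⊆ U, Z.card ≤ (nbF (gr B) (F \ {L, C}) Z).card)
    (hfc : ∀ z ∈ L \ B e, 2 * rho B ((L \ B e).erase z) + 3 ≤ L.card)
    (hc : ∃ M ∈ F, M ≠ L ∧ M ≠ {x} ∧ ∃ m ∈ M, (gr B).Adj c m) : False := by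
  classical
  obtain ⟨w, w', hBL, hd⟩ := h.dxe hk hkj hkQ hs hL hLx hpe he
  have hU : ∀ u ∈ U, ¬ (gr B).Adj u x := fun u hu hadj =>
    h.not_sees hu (mem_slf.2 ⟨h.px.hx, x, mem_singleton_self x, hadj⟩)
  have hLB : L \ {w, w'} = L \ B e := by
    ext v
    simp only [mem_sdiff]
    refine and_congr_right fun h1 => not_congr ?_
    rw [← hBL, mem_inter]
    exact and_iff_left h1
  refine hq.no_double hd (fun C hC hCL _ Z hZ => ?_) hU hc (by rw [hLB]; exact hfc)
  refine (hfree C hC hCL Z hZ).trans (card_le_card fun C' hC' => ?_)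
  obtain ⟨h1, y, hy, z, hz, hadj⟩ := mem_nbF.1 hC'
  obtain ⟨h2, h3⟩ := mem_sdiff.1 h1
  refine mem_nbF.2 ⟨mem_sdiff.2 ⟨h2, ?_⟩, y, hy, z, hz, hadj⟩
  simp only [mem_insert, mem_singleton, not_or] at h3 ⊢
  refine ⟨fun h4 => ?_, h3.1, h3.2⟩
  rw [h4, mem_singleton] at hz
  exact hU y (hZ hy) (hz ▸ hadj)

/-- the case of a leaf with three points. -/
theorem no_full3 [DecidableEq ι] (h : Fpb B Q T U F j i k0 a b c x) (hq : MTE B Q T U F)
    {k : ι} (hk : k ∈ T) (hkj : k ≠ j) {p q s : V} (hkQ : B k ∩ Q = {p, q, s}) (hs : s ∈ B k0)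
    {L : Finset V} (hL : L ∈ F) (hL3 : L.card = 3) {e : ι} (hpe : p ∈ B e)
    (he : (B e ∩ L).card = 2)
    (hfree : ∀ C ∈ F, C ≠ L → ∀ Z ⊆ U, Z.card ≤ (nbF (gr B) (F \ {L, C}) Z).card)
    (hc : ∃ M ∈ F, M ≠ L ∧ M ≠ {x} ∧ ∃ m ∈ M, (gr B).Adj c m) : False := by
  have hLx : L ≠ {x} := by
    rintro rfl
    rw [card_singleton] at hL3
    omega
  refine h.no_full hq hk hkj hkQ hs hL hLx hpe he hfree (fun z hz => ?_) hc
  have h1 : (L \ B e).card = 1 := by
    have h2 := card_sdiff_add_card_inter L (B e)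
    rw [inter_comm] at h2
    omega
  have h2 := card_erase_add_one hz
  have h3 : (L \ B e).erase z = ∅ := card_eq_zero.1 (by omega)
  rw [h3, rho_empty]
  omega

end Fpb

end Pool.Agent.Hyp6
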