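import Pool.Agent.Hyp6.L3Nc
import Pool.Agent.Hyp6.L3Fa
import Pool.Agent.Hyp6.L3Yg

/-!
# HYP6 L3Yk: the contact points of a composite class

`Frm.uin_match`: the inside points are matched with the leaves other than one. `Frm.rho_uin`: the inside
points and one contact point are absorbed. `Oc`: the contact points outside of two triples and the
inside points. `Frm.Oc_le`: they are other hits.
-/

set_option autoImplicit false

namespace Pool.Agent.Hyp6

open Finset Pool.Agent.Hyp5 Rt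

universe u v

variable {V : Type v} [DecidableEq V] {ι : Type u} [Fintype ι] {B : ι → Finset V}
variable {Q U : Finset V} {T : Finset ι} {F C : Finset (Finset V)} {i j : ι}

/-- the contact points of a class outside of two triples and the inside points. -/
noncomputable def Oc (B : ι → Finset V) (Q U : Finset V) (F : Finset (Finset V)) (i j : ι)
    (C : Finset (Finset V)) : Finset V :=
  Q.filter (fun v => v ∉ B i ∧ v ∉ B j ∧ v ∉ C.biUnion id ∧ v ∉ Sp.Uin U (slf B F) C ∧
    (Ez B (C.biUnion id) v).Nonempty)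

/-- the points which are not in a leaf, two triples or the inside points. -/
noncomputable def Rso (B : ι → Finset V) (Q U : Finset V) (F : Finset (Finset V)) (i j : ι)
    (C : Finset (Finset V)) (L : Finset V) : Finset V :=
  Q \ (L ∪ ((B i ∩ Q) ∪ (B j ∩ Q)) ∪ Sp.Uin U (slf B F) C)

namespace Frm

omit [Fintype ι] in
theorem uin_U : Sp.Uin U (slf B F) C ⊆ U := filter_subset _ _

omit [Fintype ι] in
theorem uin_Q (h : Frm B Q T U F) : Sp.Uin U (slf B F) C ⊆ Q :=
  (uin_U.trans h.UD).trans sdiff_subset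

omit [Fintype ι] in
theorem uin_disj (h : Frm B Q T U F) (hi : i ∈ T) : Disjoint (Sp.Uin U (slf B F) C) (B i) :=
  disjoint_left.2 fun _ hv hvi =>
    (mem_sdiff.1 (h.UD (uin_U hv))).2 (mem_biUnion.2 ⟨i, hi, hvi⟩)

omit [Fintype ι] in
theorem uin_leaf (h : Frm B Q T U F) {L : Finset V} (hL : L ∈ F) :
    Disjoint (Sp.Uin U (slf B F) C) L :=
  disjoint_left.2 fun _ hv hvL => disjoint_left.1 (h.ge.FU L hL) hvL (uin_U hv)

omit [Fintype ι] in
/-- **the inside points of a class are matched with the leaves other than one**. -/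
theorem uin_match (h : Frm B Q T U F) (L0 : Finset V) :
    ∃ g, MtI B (Sp.Uin U (slf B F) C) (C.erase L0) g := by
  classical
  refine mti_of_hall fun Y hY => ?_
  rcases Y.eq_empty_or_nonempty with rfl | hne
  · simp
  · have hYU : Y ⊆ U := hY.trans (filter_subset _ _)
    have h1 := h.ge.surplus Y hYU hne
    have h2 : (nbF (gr B) F Y).erase L0 ⊆ nbF (gr B) (C.erase L0) Y := by
      intro D hD
      obtain ⟨h3, h4⟩ := mem_erase.1 hD
      obtain ⟨h5, x, hx, y, hy, hxy⟩ := mem_nbF.1 h4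
      have h6 : D ∈ C := (mem_filter.1 (hY hx)).2 (mem_slf.2 ⟨h5, y, hy, hxy⟩)
      exact mem_nbF.2 ⟨mem_erase.2 ⟨h3, h6⟩, x, hx, y, hy, hxy⟩
    have h3 := card_le_card h2
    have h4 := pred_card_le_card_erase (s := nbF (gr B) F Y) (a := L0)
    omega

/-- **the inside points and one contact point are absorbed**. -/
theorem rho_uin (h : Frm B Q T U F) (hCF : C ⊆ F) {L0 : Finset V} {p : V}
    (hpQ : p ∈ Q) (hL0 : L0 ∈ C) (hp : (Ez B L0 p).Nonempty) :
    rho B (C.biUnion id ∪ insert p (Sp.Uin U (slf B F) C)) ≤ ∑ L ∈ C, rho B L := by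
  classical
  obtain ⟨g, hg⟩ := h.uin_match (C := C) L0
  obtain ⟨X, hX0⟩ : ∃ X : Finset V → Finset V, ∀ L, X L =
      (Sp.Uin U (slf B F) C).filter (fun v => g v = L) ∪ (if L = L0 then {p} else ∅) :=
    ⟨_, fun _ => rfl⟩
  have hXQ : ∀ L, X L ⊆ Q := by
    intro L v hv
    rw [hX0] at hv
    rcases mem_union.1 hv with h1 | h1
    · exact h.uin_Q (mem_filter.1 h1).1
    · split_ifs at h1 with h2
      · rw [mem_singleton.1 h1]
        exact hpQ
      · simp at h1
  have hX1 : ∀ L ∈ C, X L = ∅ ∨ ∃ v, X L = {v} ∧ (Ez B L v).Nonempty := by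
    intro L hL
    by_cases hL0 : L = L0
    · right
      refine ⟨p, ?_, by rw [hL0]; exact hp⟩
      rw [hX0, if_pos hL0]
      have : (Sp.Uin U (slf B F) C).filter (fun v => g v = L) = ∅ := by
        rw [filter_eq_empty_iff]
        intro v hv he
        have := hg.mem v hv
        rw [he] at this
        exact (mem_erase.1 this).1 hL0
      rw [this, empty_union]
    · rw [hX0, if_neg hL0, union_empty]
      rcases ((Sp.Uin U (slf B F) C).filter (fun v => g v = L)).eq_empty_or_nonempty with h1 | h1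
      · left
        exact h1
      · right
        obtain ⟨v, hv⟩ := h1
        obtain ⟨hv1, hv2⟩ := mem_filter.1 hv
        refine ⟨v, ?_, ?_⟩
        · ext w
          rw [mem_filter, mem_singleton]
          constructor
          · rintro ⟨hw1, hw2⟩
            exact hg.inj w hw1 v hv1 (hw2.trans hv2.symm)
          · rintro rfl
            exact ⟨hv1, hv2⟩
        · obtain ⟨y, hy, hne, k, hvk, hyk⟩ := hg.see v hv1
          rw [hv2] at hy
          exact ⟨k, mem_Ez.2 ⟨hvk, y, mem_inter.2 ⟨hyk, hy⟩⟩⟩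
  have hcov : ∀ L ∈ C, Cov B (L ∪ X L) := fun L hL =>
    h.cov.mono (union_subset (h.FQ (hCF hL)) (hXQ L))
  have h1 := rho_abs_le (B := B) (A := C) (X := X) hcov (fun L hL => by
    rcases hX1 L hL with h2 | ⟨v, h2, h3⟩
    · rw [h2, union_empty]
    · rw [h2]
      have hcr : Crit B L := fun v hv =>
        le_antisymm (rho_erase_fc (h.ge.sys.fc L (hCF hL)) (h.sv_leaf (hCF hL)) hv)
          (rho_le_erase (x := v) (h.cov.mono (h.FQ (hCF hL))))
      obtain ⟨S, h4, h5⟩ := hcr.pt1 (h.cov.mono (h.FQ (hCF hL))) h3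
      exact (rho_le h4).trans h5)
  refine (rho_mono ?_ ?_).trans h1
  · intro v hv
    rcases mem_union.1 hv with h2 | h2
    · obtain ⟨L, hL, hvL⟩ := mem_biUnion.1 h2
      exact mem_biUnion.2 ⟨L, hL, mem_union_left _ hvL⟩
    · rcases mem_insert.1 h2 with rfl | h3
      · refine mem_biUnion.2 ⟨L0, hL0, mem_union_right _ ?_⟩
        rw [hX0, if_pos rfl]
        exact mem_union_right _ (mem_singleton_self _)
      · refine mem_biUnion.2 ⟨g v, (mem_erase.1 (hg.mem v h3)).2, mem_union_right _ ?_⟩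
        rw [hX0]
        exact mem_union_left _ (mem_filter.2 ⟨h3, rfl⟩)
  · refine h.cov.mono fun v hv => ?_
    obtain ⟨L, hL, hvL⟩ := mem_biUnion.1 hv
    rcases mem_union.1 hvL with h2 | h2
    · exact h.FQ (hCF hL) h2
    · exact hXQ L h2

/-- the inside points and at most one contact point are absorbed. -/
theorem rho_Oc (h : Frm B Q T U F) (hCF : C ⊆ F) (hne : (Sp.Uin U (slf B F) C).Nonempty)
    (hO : (Oc B Q U F i j C).card ≤ 1) :
    rho B (C.biUnion id ∪ (Sp.Uin U (slf B F) C ∪ Oc B Q U F i j C)) ≤ ∑ L ∈ C, rho B L := by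
  classical
  have hez : ∀ {v : V}, (Ez B (C.biUnion id) v).Nonempty → ∃ L ∈ C, (Ez B L v).Nonempty := by
    rintro v ⟨k, hk⟩
    obtain ⟨h1, w, hw⟩ := mem_Ez.1 hk
    obtain ⟨h2, h3⟩ := mem_inter.1 hw
    obtain ⟨L, hL, hwL⟩ := mem_biUnion.1 h3
    exact ⟨L, hL, k, mem_Ez.2 ⟨h1, w, mem_inter.2 ⟨h2, hwL⟩⟩⟩
  rcases (Oc B Q U F i j C).eq_empty_or_nonempty with h0 | ⟨p, hp⟩
  · obtain ⟨u, hu⟩ := hne
    obtain ⟨L0, hL0, hu0⟩ : ∃ L ∈ C, (Ez B L u).Nonempty := by
      have h1 := h.ge.surplus {u} (singleton_subset_iff.2 (uin_U hu)) (singleton_nonempty u)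
      rw [card_singleton] at h1
      obtain ⟨L, hL⟩ := card_pos.1 (by omega : 0 < (nbF (gr B) F {u}).card)
      obtain ⟨h5, x, hx, y, hy, hxy⟩ := mem_nbF.1 hL
      rw [mem_singleton] at hx
      subst hx
      obtain ⟨hne, k, hxk, hyk⟩ := hxy
      exact ⟨L, (mem_filter.1 hu).2 (mem_slf.2 ⟨h5, y, hy, hne, k, hxk, hyk⟩), k,
        mem_Ez.2 ⟨hxk, y, mem_inter.2 ⟨hyk, hy⟩⟩⟩
    have h2 := h.rho_uin hCF (h.uin_Q hu) hL0 hu0
    rw [insert_eq_of_mem hu] at h2
    rw [h0, union_empty]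
    exact h2
  · have h1 : Oc B Q U F i j C = {p} := by
      obtain ⟨q, hq⟩ := card_eq_one.1 (le_antisymm hO (card_pos.2 ⟨p, hp⟩))
      rw [hq] at hp ⊢
      rw [mem_singleton.1 hp]
    obtain ⟨hpQ, -, -, -, -, h2⟩ := mem_filter.1 hp
    obtain ⟨L0, hL0, h3⟩ := hez h2
    have h4 := h.rho_uin hCF hpQ hL0 h3
    rw [h1, union_comm (Sp.Uin U (slf B F) C) {p}, ← insert_eq]
    exact h4

/-- the contact points are other hits. -/
theorem Oc_le (C : Finset (Finset V)) (i j : ι) :
    (Oc B Q U F i j C).card ≤ ∑ L ∈ C, hit B (Rso B Q U F i j C L) L := by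
  classical
  have h1 : ∀ L ∈ C, hit B (Oc B Q U F i j C) L ≤ hit B (Rso B Q U F i j C L) L := by
    intro L hL
    refine hit_mono_left L fun v hv => ?_
    obtain ⟨hvQ, hvi, hvj, hvC, hvU, -⟩ := mem_filter.1 hv
    refine mem_sdiff.2 ⟨hvQ, fun h2 => ?_⟩
    rcases mem_union.1 h2 with h2 | h2
    · rcases mem_union.1 h2 with h2 | h2
      · exact hvC (mem_biUnion.2 ⟨L, hL, h2⟩)
      · rcases mem_union.1 h2 with h2 | h2
        · exact hvi (mem_inter.1 h2).1
        · exact hvj (mem_inter.1 h2).1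
    · exact hvU h2
  refine le_trans ?_ (sum_le_sum h1)
  have h2 : ∀ L, hit B (Oc B Q U F i j C) L = ∑ v ∈ Oc B Q U F i j C, hit B {v} L :=
    fun L => hit_U_sum _ L
  simp only [h2]
  rw [sum_comm, card_eq_sum_ones]
  refine sum_le_sum fun v hv => ?_
  obtain ⟨-, -, -, -, -, k, hk⟩ := mem_filter.1 hv
  obtain ⟨h3, w, hw⟩ := mem_Ez.1 hk
  obtain ⟨h4, h5⟩ := mem_inter.1 hw
  obtain ⟨L, hL, hwL⟩ := mem_biUnion.1 h5
  refine le_trans ?_ (single_le_sum (f := fun L => hit B {v} L) (fun _ _ => Nat.zero_le _) hL)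
  unfold hit
  refine le_trans (card_pos.2 ⟨v, mem_inter.2 ⟨h3, mem_singleton_self v⟩⟩)
    (single_le_sum (f := fun i => (B i ∩ ({v} : Finset V)).card) (fun i _ => Nat.zero_le _)
      (cost_mem_tch.2 ⟨w, mem_inter.2 ⟨h4, hwL⟩⟩))

end Frm

end Pool.Agent.Hyp6
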