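import Pool.Agent.Hyp6.L3T6
import Pool.Agent.Hyp6.L3Yd
import Pool.Agent.Hyp6.L3Yk

/-!
# HYP6 L3T7: composite classes of rank one with one inside triple

`N11`: the numbers of such a class. `N11.fin`: its need is not positive, or it has two leaves, one line
triple or centre, no free place and no other hits. `OneN`: a leaf of value `-1` which is met only from two
triples and one point has at most two hits of the triples. `StgR.ok11`: such a class is paid.
-/

set_option autoImplicit false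

namespace Pool.Agent.Hyp6

open Finset Pool.Agent.Hyp5 Rt

universe u v

/-- the numbers of a class of rank one with one inside triple: need `N`, `n` leaves, `W` useless hits of
the inside points, `X` useless hits of the inside triple, `c` its claims, `q` line triples with hits `t`
and payments `Pi`, `b` centred triples with `S` hits of their pairs, `w` other hits of the remaining
triples, `g` hits of crossing points. -/
structure N11 (N n W X f e A M q b t S w g c Pi : ℤ) : Prop where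
  up : N ≤ 144 * t - Pi + 160 * S - 584 * b - 5 * w - 5 * g + 240 * e -
    120 * (2 * A + 3 * M - 11 * n) + 120 * n + 600 - 160 * X + 80 * c - 600 * (n - 1) - 160 * W
  plc : 2 * (t + S + w + g + f + (5 * (n - 1) - W) + (12 - X)) = 3 * A + 5 * M
  e0 : 0 ≤ e
  ef : 11 * e ≤ 2 * f
  gm : 5 * (n - 1) - W + g ≤ A
  nM : n ≤ M
  pN : (A - n) % 2 = 0
  pM : (M - n) % 2 = 0
  lf : 7 * n ≤ 2 * M + A
  lp : 11 * n ≤ 3 * M + 2 * A
  W0 : 0 ≤ W
  Wp : W ≤ 3 * (n - 1)
  X0 : 0 ≤ X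
  X12 : X ≤ 12
  c0 : 0 ≤ c
  cX : c ≤ X
  cY : 80 * c ≤ 180 + 35 * X
  q0 : 0 ≤ q
  b0 : 0 ≤ b
  t0 : 0 ≤ t
  S0 : 0 ≤ S
  S8 : S ≤ 8 * b
  w0 : 0 ≤ w
  g0 : 0 ≤ g
  pq : 399 * q ≤ Pi
  pt : 54 * t ≤ Pi
  qt : q = 0 → t = 0

/-- the least payment of one line triple with `t` hits. -/
def s11 (t : ℤ) : ℤ :=
  if t ≤ 1 then 399 else if t = 2 then 463 else if t ≤ 4 then 516 else if t ≤ 8 then 527
  else if t = 9 then 591 else 601

namespace N11

variable {N n W X f e A M q b t S w g c Pi : ℤ}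

/-- the bound by the places. -/
theorem le (h : N11 N n W X f e A M q b t S w g c Pi) :
    N ≤ 2040 + 840 * (n - 1) - 240 * A - 360 * M - 160 * W - 160 * X + 80 * c + 240 * e + 160 * S -
      584 * b - 5 * (w + g) + 144 * t - Pi := by
  linarith [h.up]

/-- at least two line triples or centres. -/
theorem big (h : N11 N n W X f e A M q b t S w g c Pi) (hn : 2 ≤ n) (hq : 2 ≤ q + b) :
    N ≤ 0 := by
  obtain ⟨h1, h2, h3, h4, h5, h6, h7, h8, h9, h10, h11, h12, h13, h40, h14, h15, h16, h17, h18, h19,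
    h20, h21, h22, h23, h24, h26, h25⟩ := id h
  linarith

/-- no line triple and no centre. -/
theorem none (h : N11 N n W X f e A M q b t S w g c Pi) (hn : 2 ≤ n) (hq : q = 0)
    (hb : b = 0) : N ≤ 0 := by
  obtain ⟨h1, h2, h3, h4, h5, h6, h7, h8, h9, h10, h11, h12, h13, h40, h14, h15, h16, h17, h18, h19,
    h20, h21, h22, h23, h24, h26, h25⟩ := id h
  obtain rfl := h25 hq
  subst hq hb
  obtain rfl : S = 0 := by omega
  by_contra hcon
  have h30 : 1 ≤ N := by omega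
  have h0 := h.le
  have hn2 : n = 2 := by
    by_contra hne
    have hn3 : 3 ≤ n := by omega
    linarith
  subst hn2
  clear h h1 h25
  have hA : 5 - W ≤ A := by linarith
  have h31 : 0 ≤ 2880 - 240 * A - 360 * M - 160 * W - 160 * X + 80 * c + 240 * e - 1 := by
    linarith
  rcases (by omega : e = 0 ∨ e = 1 ∨ 2 ≤ e) with rfl | rfl | he
  · rcases (by omega : W = 0 ∨ W = 1 ∨ W = 2 ∨ W = 3) with rfl | rfl | rfl | rfl <;> omega
  · rcases (by omega : W = 0 ∨ W = 1 ∨ W = 2 ∨ W = 3) with rfl | rfl | rfl | rfl <;> omega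
  · linarith

/-- one centre and no line triple. -/
theorem one_b (h : N11 N n W X f e A M q b t S w g c Pi) (hn : 2 ≤ n) (hq : q = 0)
    (hb : b = 1) : N ≤ 0 ∨ (n = 2 ∧ e = 0 ∧ f = 0 ∧ w = 0 ∧ g = 0 ∧
      ((A = 2 ∧ M = 6) ∨ (A = 4 ∧ M = 6) ∨ (A = 6 ∧ M = 4))) := by
  obtain ⟨h1, h2, h3, h4, h5, h6, h7, h8, h9, h10, h11, h12, h13, h40, h14, h15, h16, h17, h18, h19,
    h20, h21, h22, h23, h24, h26, h25⟩ := id h
  obtain rfl := h25 hq
  subst hq hb
  rw [or_iff_not_imp_left]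
  intro hcon
  have h30 : 1 ≤ N := by omega
  have h0 := h.le
  have hn2 : n = 2 := by
    by_contra hne
    have hn3 : 3 ≤ n := by omega
    linarith
  subst hn2
  clear h h1 h25
  have hA : 5 - W + g ≤ A := by linarith
  have h31 : 0 ≤ 2880 - 240 * A - 360 * M - 160 * W - 160 * X + 80 * c + 240 * e + 160 * S -
      584 - 5 * (w + g) - 1 := by
    linarith
  have h32 : 0 ≤ -424 + 40 * M - 160 * f + 240 * e - 165 * (w + g) + 80 * c - 1 := by
    linarith
  obtain rfl : e = 0 := by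
    by_contra he
    have he1 : 1 ≤ e := by omega
    linarith
  have hM : M ≤ 8 := by linarith
  have hA2 : A ≤ 10 := by linarith
  have hfw : f + w + g ≤ 2 := by linarith
  refine ⟨rfl, rfl, ?_⟩
  have hc7 : c ≤ 7 := by omega
  have hc3 : 2 ≤ c := by omega
  rcases (by omega : M = 2 ∨ M = 4 ∨ M = 6 ∨ M = 8) with rfl | rfl | rfl | rfl <;>
  rcases (by omega : W = 0 ∨ W = 1 ∨ W = 2 ∨ W = 3) with rfl | rfl | rfl | rfl <;>
  interval_cases c <;> omega

/-- one line triple and no centre. -/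
theorem one_q (h : N11 N n W X f e A M q b t S w g c Pi) (hn : 2 ≤ n) (hq : q = 1)
    (hb : b = 0) (hS : s11 t ≤ Pi) (h11 : t ≤ 11) : N ≤ 0 ∨ (n = 2 ∧ e = 0 ∧ f = 0 ∧ w = 0 ∧
      g = 0 ∧ ((A = 2 ∧ M = 6) ∨ (A = 4 ∧ M = 6) ∨ (A = 6 ∧ M = 4))) := by
  obtain ⟨h1, h2, h3, h4, h5, h6, h7, h8, h9, h10, h11, h12, h13, h40, h14, h15, h16, h17, h18, h19,
    h20, h21, h22, h23, h24, h26, h25⟩ := id h
  subst hq hb
  obtain rfl : S = 0 := by omega
  rw [or_iff_not_imp_left]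
  intro hcon
  have h30 : 1 ≤ N := by omega
  have h0 := h.le
  have hn2 : n = 2 := by
    by_contra hne
    have hn3 : 3 ≤ n := by omega
    linarith
  subst hn2
  obtain rfl : e = 0 := by
    by_contra he
    have he1 : 1 ≤ e := by omega
    linarith
  have hf : 0 ≤ f := by linarith
  have hA : 5 - W + g ≤ A := by linarith
  have hW : W ≤ 3 := by linarith
  have hkey : 2 * Pi ≤ 1868 + 80 * M - 250 * (f + w + g) - 35 * (3 * A + 5 * M) + 38 * t -
      70 * W := by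
    linarith
  clear h h0 h1 h2 h25 h3 h4 h5 h6 h10 h12 h13 h14 h15 h16 h17 h20 h21 h24 h26 hcon h30 h40
  refine ⟨rfl, rfl, ?_⟩
  have h7' : A % 2 = 0 := by omega
  have h8' : M % 2 = 0 := by omega
  have hM : M ≤ 8 := by
    interval_cases t <;> simp only [s11] at hS <;> norm_num at hS <;> linarith
  rcases (by omega : M ≤ 2 ∨ M = 4 ∨ M = 6 ∨ M = 8) with hM | rfl | rfl | rfl
  · exfalso
    interval_cases t <;> simp only [s11] at hS <;> norm_num at hS <;> linarith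
  · have h50 : 6 ≤ A := by omega
    have h51 : A < 8 := by
      interval_cases t <;> simp only [s11] at hS <;> norm_num at hS <;> linarith
    have h52 : f + w + g < 1 := by
      interval_cases t <;> simp only [s11] at hS <;> norm_num at hS <;> linarith
    omega
  · have h51 : A < 6 := by
      interval_cases t <;> simp only [s11] at hS <;> norm_num at hS <;> linarith
    have h52 : f + w + g < 1 := by
      interval_cases t <;> simp only [s11] at hS <;> norm_num at hS <;> linarith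
    omega
  · exfalso
    interval_cases t <;> simp only [s11] at hS <;> norm_num at hS <;> linarith

end N11

variable {V : Type v} [DecidableEq V] {ι : Type u} [Fintype ι] [DecidableEq ι]
  {B : ι → Finset V}

/-- a leaf of value `-1`, all contacts in two triples and one further point: at most two hits of the two
triples. -/
def OneN (B : ι → Finset V) (Q : Finset V) (T : Finset ι) (F : Finset (Finset V)) : Prop :=
  ∀ i ∈ T, ∀ j ∈ T, i ≠ j → ∀ L ∈ F, dv B Q L = -1 → ∀ p : V,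
    (∀ v ∈ Q \ (L ∪ ((B i ∩ Q) ∪ (B j ∩ Q))), v ≠ p → Ez B L v = ∅) →
    hit B ((B i ∩ Q) ∪ (B j ∩ Q)) L ≤ 2

namespace Frm

variable {Q U : Finset V} {T : Finset ι} {F : Finset (Finset V)} {C : Finset (Finset V)}
  {i j : ι} {L : Finset V} {u : V}

omit [DecidableEq ι] in
/-- the hits of two triples, an inside point and a further point. -/
theorem hit_three (h : Frm B Q T U F) (hi : i ∈ T) (hj : j ∈ T) (hij : i ≠ j) (hL : L ∈ F)
    (hu : u ∈ Sp.Uin U (slf B F) C) {v : V}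
    (hv : v ∈ Q \ (L ∪ ((B i ∩ Q) ∪ (B j ∩ Q)))) (hvu : v ≠ u) :
    jh B Q i L + jh B Q j L + hit B {u} L + hit B {v} L ≤ hit B (Q \ L) L := by
  classical
  obtain ⟨hvQ, hvn⟩ := mem_sdiff.1 hv
  rw [mem_union, not_or, mem_union, not_or] at hvn
  obtain ⟨hvL, hvi, hvj⟩ := hvn
  have hdij : Disjoint (B i ∩ Q) (B j ∩ Q) := h.mtp.tpk.pack.disj i hi j hj hij
  have hui : u ∉ B i := fun h1 => disjoint_left.1 (h.uin_disj (C := C) hi) hu h1
  have huj : u ∉ B j := fun h1 => disjoint_left.1 (h.uin_disj (C := C) hj) hu h1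
  have huL : u ∉ L := fun h1 => disjoint_left.1 (h.uin_leaf (C := C) hL) hu h1
  have h1 : ((B i ∩ Q) ∪ (B j ∩ Q)) ∪ {u} ∪ {v} ⊆ Q \ L := by
    intro w hw
    rw [mem_union, mem_union, mem_union, mem_singleton, mem_singleton] at hw
    rcases hw with ((h2 | h2) | rfl) | rfl
    · exact mem_sdiff.2 ⟨(mem_inter.1 h2).2, h.T_notin hi h2 hL⟩
    · exact mem_sdiff.2 ⟨(mem_inter.1 h2).2, h.T_notin hj h2 hL⟩
    · exact mem_sdiff.2 ⟨h.uin_Q hu, huL⟩
    · exact mem_sdiff.2 ⟨hvQ, hvL⟩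
  have h2 := hit_mono_left (B := B) L h1
  rw [hit_union_left L, hit_union_left L, hit_union_left L hdij] at h2
  · exact h2
  · rw [disjoint_singleton_right, mem_union, not_or, mem_inter, mem_inter]
    exact ⟨fun h3 => hui h3.1, fun h3 => huj h3.1⟩
  · rw [disjoint_singleton_right, mem_union, mem_union, not_or, not_or, mem_singleton]
    exact ⟨⟨hvi, hvj⟩, hvu⟩

omit [DecidableEq ι] in
/-- the hits of two triples and an inside point. -/
theorem hit_three' (h : Frm B Q T U F) (hi : i ∈ T) (hj : j ∈ T) (hij : i ≠ j) (hL : L ∈ F)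
    (hu : u ∈ Sp.Uin U (slf B F) C) :
    jh B Q i L + jh B Q j L + hit B {u} L ≤ hit B (Q \ L) L := by
  classical
  have hdij : Disjoint (B i ∩ Q) (B j ∩ Q) := h.mtp.tpk.pack.disj i hi j hj hij
  have hui : u ∉ B i := fun h1 => disjoint_left.1 (h.uin_disj (C := C) hi) hu h1
  have huj : u ∉ B j := fun h1 => disjoint_left.1 (h.uin_disj (C := C) hj) hu h1
  have huL : u ∉ L := fun h1 => disjoint_left.1 (h.uin_leaf (C := C) hL) hu h1
  have h1 : ((B i ∩ Q) ∪ (B j ∩ Q)) ∪ {u} ⊆ Q \ L := by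
    intro w hw
    rw [mem_union, mem_union, mem_singleton] at hw
    rcases hw with (h2 | h2) | rfl
    · exact mem_sdiff.2 ⟨(mem_inter.1 h2).2, h.T_notin hi h2 hL⟩
    · exact mem_sdiff.2 ⟨(mem_inter.1 h2).2, h.T_notin hj h2 hL⟩
    · exact mem_sdiff.2 ⟨h.uin_Q hu, huL⟩
  have h2 := hit_mono_left (B := B) L h1
  rw [hit_union_left L, hit_union_left L hdij] at h2
  · exact h2
  · rw [disjoint_singleton_right, mem_union, not_or, mem_inter, mem_inter]
    exact ⟨fun h3 => hui h3.1, fun h3 => huj h3.1⟩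

end Frm

/-- the leaf of value `-1`. -/
theorem row11 {p1 n1 m1 f1 e1 g1 h1 p2 n2 m2 f2 e2 g2 h2 : ℤ} (a : NumL p1 n1 m1 f1 e1 g1 h1)
    (b : NumL p2 n2 m2 f2 e2 g2 h2) (he : e1 + e2 = 0)
    (h : (n1 + n2 = 2 ∧ m1 + m2 = 6) ∨ (n1 + n2 = 4 ∧ m1 + m2 = 6) ∨
      (n1 + n2 = 6 ∧ m1 + m2 = 4)) : p1 - 1 - 2 * e1 = -1 ∨ p2 - 1 - 2 * e2 = -1 := by
  obtain ⟨a1, a2, a3, a4, a5, a6, a7, a8, a9, a10, a11, a12, a13⟩ := a
  obtain ⟨b1, b2, b3, b4, b5, b6, b7, b8, b9, b10, b11, b12, b13⟩ := b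
  obtain rfl : e1 = 0 := by omega
  obtain rfl : e2 = 0 := by omega
  clear a2 b2 a8 b8 a10 b10 a11 b11 a12 b12
  rcases (by omega : m1 = 1 ∨ m1 = 3 ∨ m1 = 5) with rfl | rfl | rfl <;> omega

namespace Stg

variable {Q U : Finset V} {T : Finset ι} {F : Finset (Finset V)}
  {P : Finset (Finset (Finset V))} {a : V → Finset (Finset V) → ℕ} {C : Finset (Finset V)}
  {i k : ι} {u : V}

/-- **two leaves, two triples, one inside point and nothing else**: impossible. -/
theorem no11 (s : Stg B Q T U F P a) (hN : OneN B Q T F) (hC : C ∈ P) (h2 : C.card = 2)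
    (hU : Sp.Uin U (slf B F) C = {u}) (hi : i ∈ T) (hk : k ∈ T) (hik : i ≠ k)
    (hA : (∑ L ∈ C, (nt B L 1 : ℤ) = 2 ∧ ∑ L ∈ C, (L.card : ℤ) = 6) ∨
      (∑ L ∈ C, (nt B L 1 : ℤ) = 4 ∧ ∑ L ∈ C, (L.card : ℤ) = 6) ∨
      (∑ L ∈ C, (nt B L 1 : ℤ) = 6 ∧ ∑ L ∈ C, (L.card : ℤ) = 4))
    (he : ∑ L ∈ C, (ee B Q L : ℤ) = 0) (hf : ∑ L ∈ C, fs B Q L = 0)
    (hp : 2 * ((jC B Q i C : ℤ) + jC B Q k C + (5 - lsC B Q T U F C)) ≥
      3 * ∑ L ∈ C, (nt B L 1 : ℤ) + 5 * ∑ L ∈ C, (L.card : ℤ)) : False := by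
  classical
  have hCF : C ⊆ F := (s.part.ptn.vc C hC).sub
  have huC : u ∈ Sp.Uin U (slf B F) C := by
    rw [hU]
    exact mem_singleton_self u
  obtain ⟨L, M, hLM, rfl⟩ := card_eq_two.1 h2
  have hLF : L ∈ F := hCF (by simp)
  have hMF : M ∈ F := hCF (by simp)
  have hdij : Disjoint (B i ∩ Q) (B k ∩ Q) := s.frm.mtp.tpk.pack.disj i hi k hk hik
  have n1 := s.one hLF
  have n2 := s.one hMF
  have a1 := s.hit_all hLF
  have a2 := s.hit_all hMF
  have t1 := s.frm.hit_three' hi hk hik hLF huC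
  have t2 := s.frm.hit_three' hi hk hik hMF huC
  have hu1 := s.frm.uC_in s.viol.reg s.part hC huC
  have hW : lsC B Q T U F {L, M} = uo B Q T U F u := by
    unfold lsC
    rw [hU, sum_singleton]
  have hu2 : uC B u {L, M} = hit B {u} L + hit B {u} M := by
    unfold uC
    rw [sum_pair hLM]
    rfl
  have hji : jC B Q i {L, M} = jh B Q i L + jh B Q i M := sum_pair hLM
  have hjk : jC B Q k {L, M} = jh B Q k L + jh B Q k M := sum_pair hLM
  simp only [sum_pair hLM] at he hf hp hA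
  have hd1 := s.dv_W hLF
  have hd2 := s.dv_W hMF
  have hrow := row11 n1 n2 he hA
  obtain ⟨p1, q1, m1, mo1, o1, no1, pt1, f1, e1, g1, gn1, hh1, p01⟩ := n1
  obtain ⟨p2, q2, m2, mo2, o2, no2, pt2, f2, e2, g2, gn2, hh2, p02⟩ := n2
  rw [hW, hji, hjk] at hp
  rw [hu2] at hu1
  push_cast at hp hu1
  have key : ∀ K K' : Finset V, K ∈ F → K' ∈ F → dv B Q K = -1 →
      (9 : ℤ) = hit B (Q \ K) K → (hit B (Q \ K) K : ℤ) + hit B (Q \ K') K' ≤
        ((jh B Q i K : ℤ) + jh B Q k K + hit B {u} K) +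
        ((jh B Q i K' : ℤ) + jh B Q k K' + hit B {u} K') →
      (hit B {u} K : ℤ) ≤ 5 → False := by
    intro K K' hK hK' hdv h9 hle h5
    have t1 := s.frm.hit_three' hi hk hik hK huC
    have t2 := s.frm.hit_three' hi hk hik hK' huC
    have h6 := hN i hi k hk hik K hK hdv u (fun v hv hvu => by
      by_contra hne
      have h7 : 1 ≤ hit B {v} K := by
        rw [hit_eq_Ez, sum_singleton]
        exact card_pos.2 (nonempty_iff_ne_empty.2 hne)
      have h8 := s.frm.hit_three hi hk hik hK huC hv hvu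
      omega)
    rw [hit_union_left K hdij] at h6
    have h10 : jh B Q i K + jh B Q k K ≤ 2 := h6
    omega
  have hfs1 : fs B Q L = 0 := by omega
  have hfs2 : fs B Q M = 0 := by omega
  have z1 : 2 * (hit B (Q \ L) L : ℤ) = 3 * (nt B L 1 : ℤ) + 5 * L.card := by omega
  have z2 : 2 * (hit B (Q \ M) M : ℤ) = 3 * (nt B M 1 : ℤ) + 5 * M.card := by omega
  have ho : (0 : ℤ) ≤ uo B Q T U F u := by positivity
  have h5L : (0 : ℤ) ≤ hit B {u} L := by positivity
  have h5M : (0 : ℤ) ≤ hit B {u} M := by positivity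
  rcases hrow with h1 | h1
  · refine key L M hLF hMF (by linarith) ?_ (by linarith) (by linarith)
    have : (nt B L 1 : ℤ) = 1 ∧ (L.card : ℤ) = 3 := by omega
    omega
  · refine key M L hMF hLF (by linarith) ?_ (by linarith) (by linarith)
    have : (nt B M 1 : ℤ) = 1 ∧ (M.card : ℤ) = 3 := by omega
    omega

end Stg

theorem s11_pm {n : ℕ} (h : n ≤ 11) : s11 n ≤ 560 + pm n := by
  interval_cases n <;> decide

theorem s11_sF {n : ℕ} (h : n ≤ 11) : s11 n ≤ sF n := by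
  interval_cases n <;> decide

namespace StgR

variable {Q U : Finset V} {T : Finset ι} {F : Finset (Finset V)}
  {P : Finset (Finset (Finset V))} {a : V → Finset (Finset V) → ℕ} {C : Finset (Finset V)}

theorem cJ_54 (s : StgR B Q T U F P a) (hC : C ∈ P) {j : ι} (hj : j ∈ aC B Q T U F P C) :
    cJ B Q U F P j C ≤ 144 * (jC B Q j C : ℤ) - 54 * jC B Q j C := by
  have h11 := s.toStg.jC_le11 (Sp.mem_atl.1 hj).1 hC
  unfold cJ
  split_ifs with h2
  · have := pm_rate h11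
    linarith
  · have h3 : 54 * (jC B Q j C : ℤ) ≤ sF (jC B Q j C) := by
      unfold sF
      split_ifs <;> omega
    linarith

/-- **the numbers of a class of rank one with one inside triple**. -/
theorem n11 (s : StgR B Q T U F P a) (hC : C ∈ P)
    (hr : C.card = (Sp.Uin U (slf B F) C).card + 1) {k : ι} (hK : KC B Q T U F C = {k}) :
    ∃ sb : ι → ℕ, (∀ j ∈ Bc B Q T U F P C, sb j ≤ 8 ∧ sb j ≤ jC B Q j C) ∧
      N11 (∑ j ∈ aC B Q T U F P C, cJ B Q U F P j C + nC B Q T U F P C) C.card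
        (lsC B Q T U F C) (Frm.xC B Q T (Rg B Q T U F) U F C)
        (∑ L ∈ C, fs B Q L) (∑ L ∈ C, (ee B Q L : ℤ)) (∑ L ∈ C, (nt B L 1 : ℤ))
        (∑ L ∈ C, (L.card : ℤ)) (aC B Q T U F P C).card (Bc B Q T U F P C).card
        (∑ j ∈ aC B Q T U F P C, (jC B Q j C : ℤ)) (∑ j ∈ Bc B Q T U F P C, (sb j : ℤ))
        (∑ j ∈ Trs B Q T (Rg B Q T U F) U F P, (jC B Q j C : ℤ) -
          ∑ j ∈ Bc B Q T U F P C, (sb j : ℤ)) (gC B U F P C) (ncl B Q T U F P k)
        (144 * ∑ j ∈ aC B Q T U F P C, (jC B Q j C : ℤ) -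
          ∑ j ∈ aC B Q T U F P C, cJ B Q U F P j C) ∧
      (jC B Q k C : ℤ) = 12 - Frm.xC B Q T (Rg B Q T U F) U F C := by
  have hCF : C ⊆ F := (s.toStg.part.ptn.vc C hC).sub
  obtain ⟨sb, hsb, hT⟩ := s.toStg.trs_ge hC
  obtain ⟨n1, n2, n3, n4, n5, n6, n7, n8, n9, n10, n11, n12, n13, n14, n15, n16, n17, n18, n19,
    n20, n21⟩ := s.toStg.nm hC
  rw [s.toStg.sum_at2 hC] at n2
  have hkK : k ∈ KC B Q T U F C := by
    rw [hK]
    exact mem_singleton_self k
  have hd := s.kin_don hC hkK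
  have hx := s.kin_x hkK
  have ht := s.tF_kin hC hkK
  have hxC : Frm.xC B Q T (Rg B Q T U F) U F C =
      jn B Q (Ep B Q T U F) k + jb B Q T U k := by
    have e1 : Sp.Kin (Rg B Q T U F) (slj B Q F) C = {k} := hK
    unfold Frm.xC
    rw [e1, sum_singleton]
  have hKc : (Sp.Kin (Rg B Q T U F) (slj B Q F) C).card = 1 := by
    have e1 : Sp.Kin (Rg B Q T U F) (slj B Q F) C = {k} := hK
    rw [e1, card_singleton]
  have hjk := s.frm.jC_in s.viol.reg Rg_sub s.toStg.part hC hkK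
  rw [(mem_Rg.1 (mem_filter.1 hkK).1).2.1] at hjk
  have hp : ((Sp.Uin U (slf B F) C).card : ℤ) = (C.card : ℤ) - 1 := by
    rw [hr]
    push_cast
    ring
  rw [hKc, hp, Nat.cast_one] at n2
  rw [hp] at n5 n14
  have hsub : Bc B Q T U F P C ⊆ Trs B Q T (Rg B Q T U F) U F P := filter_subset _ _
  have hsw : ∑ j ∈ Bc B Q T U F P C, (sb j : ℤ) ≤
      ∑ j ∈ Trs B Q T (Rg B Q T U F) U F P, (jC B Q j C : ℤ) := by
    have e1 : ∑ j ∈ Bc B Q T U F P C, (sb j : ℤ) ≤ ∑ j ∈ Bc B Q T U F P C, (jC B Q j C : ℤ) :=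
      sum_le_sum fun j hj => by exact_mod_cast (hsb j hj).2
    exact e1.trans (sum_le_sum_of_subset_of_nonneg hsub fun _ _ _ => by positivity)
  have h4 : ∑ j ∈ Bc B Q T U F P C, (584 - 16 * (sb j : ℤ)) =
      584 * ((Bc B Q T U F P C).card : ℤ) - 16 * ∑ j ∈ Bc B Q T U F P C, (sb j : ℤ) := by
    rw [sum_sub_distrib, sum_const, nsmul_eq_mul, ← mul_sum]
    ring
  rw [h4] at hT
  have h5 : ∑ j ∈ Bc B Q T U F P C, (sb j : ℤ) ≤ 8 * ((Bc B Q T U F P C).card : ℤ) := by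
    have e1 : ∑ j ∈ Bc B Q T U F P C, (sb j : ℤ) ≤ ∑ j ∈ Bc B Q T U F P C, (8 : ℤ) :=
      sum_le_sum fun j hj => by exact_mod_cast (hsb j hj).1
    rw [sum_const, nsmul_eq_mul] at e1
    linarith
  have h6 : ∑ j ∈ aC B Q T U F P C, cJ B Q U F P j C ≤
      ∑ j ∈ aC B Q T U F P C, (144 * (jC B Q j C : ℤ) - 399) :=
    sum_le_sum fun j _ => Pool.Agent.Hyp6.cJ_le j C
  rw [sum_sub_distrib, sum_const, nsmul_eq_mul, ← mul_sum] at h6
  have h7 : ∑ j ∈ aC B Q T U F P C, cJ B Q U F P j C ≤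
      ∑ j ∈ aC B Q T U F P C, (144 * (jC B Q j C : ℤ) - 54 * jC B Q j C) :=
    sum_le_sum fun j hj => s.cJ_54 hC hj
  rw [sum_sub_distrib, ← mul_sum, ← mul_sum] at h7
  have h8 : ∑ L ∈ C, (240 * (ee B Q L : ℤ) - 120 * Pp B L + 120) =
      240 * ∑ L ∈ C, (ee B Q L : ℤ) - 120 * (2 * ∑ L ∈ C, (nt B L 1 : ℤ) +
        3 * ∑ L ∈ C, (L.card : ℤ) - 11 * C.card) + 120 * C.card := by
    have e1 : ∀ L ∈ C, 240 * (ee B Q L : ℤ) - 120 * Pp B L + 120 =
        240 * (ee B Q L : ℤ) - 240 * (nt B L 1 : ℤ) - 360 * (L.card : ℤ) + 1440 := by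
      intro L hL
      have := (s.toStg.one (hCF hL)).pp
      rw [this]
      ring
    rw [sum_congr rfl e1, sum_add_distrib, sum_sub_distrib, sum_sub_distrib, ← mul_sum,
      ← mul_sum, ← mul_sum, sum_const, nsmul_eq_mul]
    ring
  have h9 : ∑ u ∈ Sp.Uin U (slf B F) C, (600 + 160 * (uo B Q T U F u : ℤ)) =
      600 * ((C.card : ℤ) - 1) + 160 * (lsC B Q T U F C : ℤ) := by
    rw [sum_add_distrib, sum_const, nsmul_eq_mul, ← mul_sum, hp]
    unfold lsC
    push_cast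
    ring
  have h10 : ∑ j ∈ Trs B Q T (Rg B Q T U F) U F P,
      (144 * (jC B Q j C : ℤ) - Xv 149 B Q T U F P j C) =
      144 * ∑ j ∈ Trs B Q T (Rg B Q T U F) U F P, (jC B Q j C : ℤ) -
        ∑ j ∈ Trs B Q T (Rg B Q T U F) U F P, Xv 149 B Q T U F P j C := by
    rw [sum_sub_distrib, ← mul_sum]
  have h11 : 11 * ∑ L ∈ C, (ee B Q L : ℤ) ≤ 2 * ∑ L ∈ C, fs B Q L := by
    rw [mul_sum, mul_sum]
    exact sum_le_sum fun L hL => s.viol.ee_fs (s.frm.FQ (hCF hL))
  refine ⟨sb, hsb, ⟨?_, by linarith, n4, h11, n5, n7, n8, n9, n10, n11, n13, n14, by positivity,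
    ?_, by positivity, ?_, ?_, by positivity, by positivity,
    sum_nonneg fun _ _ => by positivity, sum_nonneg fun _ _ => by positivity, h5, by linarith,
    by positivity, by linarith, by linarith, fun hq => ?_⟩, ?_⟩
  · unfold nC
    rw [h10, h8, h9, hK, sum_singleton, ht]
    push_cast [hxC]
    linarith
  · rw [hxC]
    omega
  · rw [hxC]
    omega
  · rw [hxC]
    omega
  · have e1 : aC B Q T U F P C = ∅ := card_eq_zero.1 (by exact_mod_cast hq)
    rw [e1, sum_empty]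
  · rw [hjk, hxC]
    push_cast
    ring

/-- **composite classes of rank one with one inside triple are paid**. -/
theorem ok11 (s : StgR B Q T U F P a) (hN : OneN B Q T F) (hC : C ∈ P)
    (hf : ¬ Ful B Q T U F P a C) (h2 : 2 ≤ C.card)
    (hr : C.card = (Sp.Uin U (slf B F) C).card + 1) (hK : (KC B Q T U F C).card = 1) :
    NdOk B Q T U F P a C := by
  classical
  refine s.nd_ok hC hf fun _ => ?_
  obtain ⟨k, hk⟩ := card_eq_one.1 hK
  obtain ⟨sb, hsb, h, hjk⟩ := s.n11 hC hr hk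
  have hkK : k ∈ KC B Q T U F C := by
    rw [hk]
    exact mem_singleton_self k
  have hkT := (s.toStg.kin.1 hkK).1
  have h2' : (2 : ℤ) ≤ C.card := by exact_mod_cast h2
  have hsub : Bc B Q T U F P C ⊆ Trs B Q T (Rg B Q T U F) U F P := filter_subset _ _
  -- the last step
  have fin : ∀ i ∈ T, i ≠ k → (∑ j ∈ aC B Q T U F P C, (jC B Q j C : ℤ) +
      ∑ j ∈ Bc B Q T U F P C, (sb j : ℤ)) ≤ jC B Q i C →
      ((C.card : ℤ) = 2 ∧ ∑ L ∈ C, (ee B Q L : ℤ) = 0 ∧ ∑ L ∈ C, fs B Q L = 0 ∧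
        ∑ j ∈ Trs B Q T (Rg B Q T U F) U F P, (jC B Q j C : ℤ) -
          ∑ j ∈ Bc B Q T U F P C, (sb j : ℤ) = 0 ∧ (gC B U F P C : ℤ) = 0 ∧
        ((∑ L ∈ C, (nt B L 1 : ℤ) = 2 ∧ ∑ L ∈ C, (L.card : ℤ) = 6) ∨
        (∑ L ∈ C, (nt B L 1 : ℤ) = 4 ∧ ∑ L ∈ C, (L.card : ℤ) = 6) ∨
        (∑ L ∈ C, (nt B L 1 : ℤ) = 6 ∧ ∑ L ∈ C, (L.card : ℤ) = 4))) → False := by
    intro i hi hik hle hall
    obtain ⟨c2, he, hf0, hw, hg, hA⟩ := hall
    have c2' : C.card = 2 := by exact_mod_cast c2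
    obtain ⟨u, hu⟩ := card_eq_one.1 (by omega : (Sp.Uin U (slf B F) C).card = 1)
    refine s.toStg.no11 hN hC c2' hu hi hkT hik hA he hf0 ?_
    have h3 := h.plc
    rw [c2, hf0, hw, hg] at h3
    linarith
  rcases (by omega : 2 ≤ (aC B Q T U F P C).card + (Bc B Q T U F P C).card ∨
      ((aC B Q T U F P C).card = 0 ∧ (Bc B Q T U F P C).card = 0) ∨
      ((aC B Q T U F P C).card = 0 ∧ (Bc B Q T U F P C).card = 1) ∨
      ((aC B Q T U F P C).card = 1 ∧ (Bc B Q T U F P C).card = 0)) with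
    h3 | ⟨h3, h4⟩ | ⟨h3, h4⟩ | ⟨h3, h4⟩
  · exact h.big h2' (by exact_mod_cast h3)
  · exact h.none h2' (by exact_mod_cast h3) (by exact_mod_cast h4)
  · rcases h.one_b h2' (by exact_mod_cast h3) (by exact_mod_cast h4) with h5 | h5
    · exact h5
    exfalso
    obtain ⟨i, hi⟩ := card_eq_one.1 h4
    have hiB : i ∈ Bc B Q T U F P C := by
      rw [hi]
      exact mem_singleton_self i
    have hiT := hsub hiB
    refine fin i (s.frm.types_trs s.toStg.part hiT).1 ?_ ?_ h5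
    · rintro rfl
      exact (mem_sdiff.1 (mem_sdiff.1 hiT).1).2 (mem_biUnion.2 ⟨C, hC, hkK⟩)
    · rw [card_eq_zero.1 h3, hi, sum_empty, sum_singleton, zero_add]
      exact_mod_cast (hsb i hiB).2
  · obtain ⟨i, hi⟩ := card_eq_one.1 h3
    have hiA : i ∈ aC B Q T U F P C := by
      rw [hi]
      exact mem_singleton_self i
    have hit := (Sp.mem_atl.1 hiA).1
    have h11 := s.toStg.jC_le11 hit hC
    have hS : s11 (∑ j ∈ aC B Q T U F P C, (jC B Q j C : ℤ)) ≤
        144 * ∑ j ∈ aC B Q T U F P C, (jC B Q j C : ℤ) -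
          ∑ j ∈ aC B Q T U F P C, cJ B Q U F P j C := by
      rw [hi, sum_singleton, sum_singleton]
      have e1 := s11_pm h11
      have e2 := s11_sF h11
      unfold cJ
      split_ifs <;> linarith
    rcases h.one_q h2' (by exact_mod_cast h3) (by exact_mod_cast h4) hS (by
      rw [hi, sum_singleton]
      exact_mod_cast h11) with h5 | h5
    · exact h5
    exfalso
    refine fin i (s.toStg.tl_sub hit).1 ?_ ?_ h5
    · rintro rfl
      exact s.kin_not_tl hC hkK hit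
    · rw [card_eq_zero.1 h4, hi, sum_empty, sum_singleton, add_zero]

end StgR

end Pool.Agent.Hyp6
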