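import Pool.Agent.Hyp6.L3Lv
import Pool.Agent.Hyp6.L3T7
import Pool.Agent.Hyp6.L3Dr4

/-!
# HYP6 L3Lza: the last step, the composite classes with inside triples filled in

`StgR.DD_of`: the composite classes with inside triples are paid, from the facts `DonS` about the claims
and the classes of rank two with two inside triples. `StgR.last5`: the last step.
-/

set_option autoImplicit false

namespace Pool.Agent.Hyp6

open Finset Pool.Agent.Hyp5 Rt

universe u v

variable {V : Type v} [DecidableEq V] {ι : Type u} [Fintype ι] [DecidableEq ι]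
  {B : ι → Finset V} {Q U : Finset V} {T : Finset ι} {F : Finset (Finset V)}
  {P : Finset (Finset (Finset V))} {a : V → Finset (Finset V) → ℕ}

/-- at most three claims. -/
theorem DonS.le3 {C : Finset (Finset V)} (h : DonS B Q T U F P C) {k : ι}
    (hk : k ∈ Sp.Kin (Rg B Q T U F) (slj B Q F) C) : ncl B Q T U F P k ≤ 3 := by
  obtain ⟨_, _, h1⟩ := h
  rcases h1 k hk with h2 | h2 | h2
  · omega
  · exact h2.1
  · omega

namespace StgR

/-- **the composite classes with inside triples are paid**, from the classes of rank two with two inside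
triples. -/
theorem DD_of (s : StgR B Q T U F P a) (hF : Few B Q T F) (h31 : G31 B Q T U F)
    (hN : OneN B Q T F) (hD : ∀ C ∈ P, DonS B Q T U F P C)
    (D22 : ∀ C ∈ P, ¬ Ful B Q T U F P a C → ¬ Exa B Q T U F P C → 2 ≤ C.card →
      (C.card : ℤ) - (Sp.Uin U (slf B F) C).card = 2 → (KC B Q T U F C).card = 2 →
      NdOk B Q T U F P a C) :
    ∀ C ∈ P, ¬ Ful B Q T U F P a C → ¬ Exa B Q T U F P C → 2 ≤ C.card →
      (KC B Q T U F C).Nonempty → NdOk B Q T U F P a C := by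
  intro C hC hf hx h2 hK
  have hv := s.part.ptn.vc C hC
  have hr1 : 1 ≤ Sp.fU U (slf B F) C := (s.frm.gdT (R := Rg B Q T U F)).fU_pos hv.ne
  have hd := hv.dens
  rw [inter_eq_left.2 hv.sub] at hd
  have hfe : Sp.fU U (slf B F) C = (C.card : ℤ) - (Sp.Uin U (slf B F) C).card := rfl
  have hKc : KC B Q T U F C = Sp.Kin (Rg B Q T U F) (slj B Q F) C := rfl
  have hK1 : 1 ≤ (Sp.Kin (Rg B Q T U F) (slj B Q F) C).card := by
    rw [← hKc]
    exact card_pos.2 hK
  rcases (by omega : (C.card : ℤ) - (Sp.Uin U (slf B F) C).card = 1 ∨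
    (C.card : ℤ) - (Sp.Uin U (slf B F) C).card = 2 ∨
    3 ≤ (C.card : ℤ) - (Sp.Uin U (slf B F) C).card) with hr | hr | hr
  · rcases (by omega : (Sp.Kin (Rg B Q T U F) (slj B Q F) C).card = 1 ∨
      2 ≤ (Sp.Kin (Rg B Q T U F) (slj B Q F) C).card) with h3 | h3
    · exact s.ok11 hN hC hf h2 (by omega) (by rw [hKc]; exact h3)
    · exact s.dense_auto hC hf hx hr rfl rfl (Or.inl ⟨rfl, by exact_mod_cast h3⟩)
  · rcases (by omega : (Sp.Kin (Rg B Q T U F) (slj B Q F) C).card = 2 ∨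
      3 ≤ (Sp.Kin (Rg B Q T U F) (slj B Q F) C).card) with h3 | h3
    · exact D22 C hC hf hx h2 hr (by rw [hKc]; exact h3)
    · exact s.dense_don hF h31 hC hf hx (hD C hC) (Or.inl ⟨hr, h3⟩)
  · exact s.dense_don hF h31 hC hf hx (hD C hC) (Or.inr hr)

/-- **the last step with the proved lines filled in**, fifth form. -/
theorem last5 (s : StgR B Q T U F P a)
    -- facts proved by tables
    (hF : Few B Q T F) (h3 : Lf3 B Q T U F P) (hga : Ga31 B Q T U F) (h31 : G31 B Q T U F)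
    (h73 : R73 B Q T F) (hN : OneN B Q T F)
    (L2S : ∀ j ∈ tl B Q T U F P, ∀ C D, C ≠ D → lj B Q U F P j = {C, D} →
      aC B Q T U F P C = {j} → aC B Q T U F P D = {j} →
      KC B Q T U F C = ∅ → KC B Q T U F D = ∅ → NCt B Q T U F P C → NCt B Q T U F P D →
      C.card = 1 → D.card = 1 →
      ndF B Q T U F P a C + ndF B Q T U F P a D ≤
        8 * sT B Q T U F 15 j + tF B Q T U F P j - 1120)
    (CN : ∀ C ∈ P, ¬ Ful B Q T U F P a C → 2 ≤ C.card → 2 ≤ (aC B Q T U F P C).card →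
      KC B Q T U F C = ∅ → NCt B Q T U F P C → ¬ Exa B Q T U F P C → NdOk B Q T U F P a C)
    (hz : ∀ L, {L} ∈ P → L.card = 3 → nt B L 1 = 1 → dv B Q L = -1 → hit B U L ≤ 2 →
      ∀ j ∈ T, 4 ≤ jh B Q j L → ∑ C ∈ F.erase L, jh B Q j C = 0)
    (EN : ∀ C ∈ P, ¬ Ful B Q T U F P a C → 2 ≤ C.card → 2 ≤ (aC B Q T U F P C).card →
      KC B Q T U F C = ∅ → ¬ NCt B Q T U F P C → ¬ Exa B Q T U F P C → NdOk B Q T U F P a C)
    -- composite classes with a centre
    (PE : ∀ j ∈ tl B Q T U F P, ∀ C D, C ≠ D → lj B Q U F P j = {C, D} →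
      aC B Q T U F P D = {j} → ¬ Ful B Q T U F P a D → 2 ≤ D.card → KC B Q T U F D = ∅ →
      ¬ NCt B Q T U F P D → ndF B Q T U F P a D ≤ pmC (jC B Q j D))
    (E0 : ∀ C ∈ P, ¬ Ful B Q T U F P a C → 2 ≤ C.card → (aC B Q T U F P C).card = 0 →
      KC B Q T U F C = ∅ → ¬ NCt B Q T U F P C → msC 149 B Q T U F P a C ≤ 0)
    (LE : ∀ C ∈ P, 2 ≤ C.card → ¬ Ful B Q T U F P a C → KC B Q T U F C = ∅ →
      ¬ NCt B Q T U F P C → ∀ j ∈ aC B Q T U F P C, 1 ≤ (oj B Q U F P j).card →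
        Exs B Q T U F P a (tF B Q T U F P) j C ≤ exS (jC B Q j C))
    -- classes of rank two with two inside triples
    (D22 : ∀ C ∈ P, ¬ Ful B Q T U F P a C → ¬ Exa B Q T U F P C → 2 ≤ C.card →
      (C.card : ℤ) - (Sp.Uin U (slf B F) C).card = 2 → (KC B Q T U F C).card = 2 →
      NdOk B Q T U F P a C)
    (h22 : ∀ C ∈ P, 2 ≤ C.card → ¬ Ful B Q T U F P a C →
      (C.card : ℤ) - (Sp.Uin U (slf B F) C).card = 2 → (KC B Q T U F C).card = 2 →
      ∀ j ∈ aC B Q T U F P C, 1 ≤ (oj B Q U F P j).card →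
        Exs B Q T U F P a (tF B Q T U F P) j C ≤ exS (jC B Q j C))
    -- the claims of the inside triples
    (hD : ∀ C ∈ P, DonS B Q T U F P C) : False :=
  s.last4 hF h3 hga h31 h73 L2S CN hz PE E0 EN LE (s.DD_of hF h31 hN hD D22) h22
    (fun C hC _ _ _ hk => (hD C hC).le3 hk)

end StgR

end Pool.Agent.Hyp6
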