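import Pool.Agent.Hyp6.L3Lza
import Pool.Agent.Hyp6.L3Lt
import Pool.Agent.Hyp6.L3Yn
import Pool.Agent.Hyp6.L3P9a
import Pool.Agent.Hyp6.L3T7g

/-!
# HYP6 L3Lzb: the last step, everything proved by tables filled in

`StgR.lastT5`: the last step from the composite classes with a centre and at most one line triple, the
classes of rank two with two inside triples and the facts about the claims.
-/

set_option autoImplicit false

namespace Pool.Agent.Hyp6

open Finset Pool.Agent.Hyp5 Rt

universe u v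

variable {V : Type v} [DecidableEq V] {ι : Type u} [Fintype ι] [DecidableEq ι]
  {B : ι → Finset V} {Q U : Finset V} {T : Finset ι} {F : Finset (Finset V)}
  {P : Finset (Finset (Finset V))} {a : V → Finset (Finset V) → ℕ}

namespace StgR

/-- **the last step, everything proved by tables filled in.** -/
theorem lastT5 (s : StgR B Q T U F P a)
    -- composite classes with a centre
    (PE : ∀ j ∈ tl B Q T U F P, ∀ C D, C ≠ D → lj B Q U F P j = {C, D} →
      aC B Q T U F P D = {j} → ¬ Ful B Q T U F P a D → 2 ≤ D.card → KC B Q T U F D = ∅ →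
      ¬ NCt B Q T U F P D → ndF B Q T U F P a D ≤ pmC (jC B Q j D))
    (E0 : ∀ C ∈ P, ¬ Ful B Q T U F P a C → 2 ≤ C.card → (aC B Q T U F P C).card = 0 →
      KC B Q T U F C = ∅ → ¬ NCt B Q T U F P C → msC 149 B Q T U F P a C ≤ 0)
    (LE : ∀ C ∈ P, 2 ≤ C.card → ¬ Ful B Q T U F P a C → KC B Q T U F C = ∅ →
      ¬ NCt B Q T U F P C → ∀ j ∈ aC B Q T U F P C, 1 ≤ (oj B Q U F P j).card →
        Exs B Q T U F P a (tF B Q T U F P) j C ≤ exS (jC B Q j C))
    -- classes of rank two with two inside triples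
    (D22 : ∀ C ∈ P, ¬ Ful B Q T U F P a C → ¬ Exa B Q T U F P C → 2 ≤ C.card →
      (C.card : ℤ) - (Sp.Uin U (slf B F) C).card = 2 → (KC B Q T U F C).card = 2 →
      NdOk B Q T U F P a C)
    (h22 : ∀ C ∈ P, 2 ≤ C.card → ¬ Ful B Q T U F P a C →
      (C.card : ℤ) - (Sp.Uin U (slf B F) C).card = 2 → (KC B Q T U F C).card = 2 →
      ∀ j ∈ aC B Q T U F P C, 1 ≤ (oj B Q U F P j).card →
        Exs B Q T U F P a (tF B Q T U F P) j C ≤ exS (jC B Q j C))
    -- the claims of the inside triples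
    (hD : ∀ C ∈ P, DonS B Q T U F P C) : False :=
  s.last5 (s.frm.few s.viol) s.lf3 (s.frm.ga31 s.viol) (s.frm.g31 s.viol) s.r73t
    (s.frm.oneN s.viol)
    (fun _ hj _ _ hCD hl hC hD kC kD nC nD c1 d1 => s.l2s hj hCD hl hC hD kC kD nC nD c1 d1)
    s.CN (fun _ hL h3 h1 hdv hg _ hj h4 => s.zero31 hL hj h3 h1 hdv hg h4) s.EN
    PE E0 LE D22 h22 hD

end StgR

end Pool.Agent.Hyp6
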