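import Pool.Agent.Hyp6.L3MB

/-!
# HYP6 L3MB2: the symmetric form of the two full blocks

`KB0 B Q Y F i j`: the full blocks `i`, `j` of a minimal counterexample `Q` with value zero have disjoint
traces in `Y`, deleting `Y` lowers the cover number by two, the components `F` of the rest are critical,
have value `-1`, and `|F| = |Y| - 4`.
-/

set_option autoImplicit false

namespace Pool.Agent.Hyp6

open Finset Pool.Agent.Hyp5

universe u v

variable {V : Type v} [DecidableEq V] {ι : Type u} [Fintype ι] {B : ι → Finset V}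
variable {Q C X Y : Finset V} {F : Finset (Finset V)} {i j : ι}

/-- the symmetric structure. -/
structure KB0 (B : ι → Finset V) (Q Y : Finset V) (F : Finset (Finset V)) (i j : ι) : Prop
    extends Viol B Q where
  sz : sv B Q = 0
  fi : (B i ∩ Q).card = 3
  fj : (B j ∩ Q).card = 3
  dij : Disjoint (B i ∩ Q) (B j ∩ Q)
  iY : B i ∩ Q ⊆ Y
  jY : B j ∩ Q ⊆ Y
  YQ : Y ⊆ Q
  parts : ∀ L ∈ F, L ⊆ Q \ Y ∧ Closed (gr B) (Q \ Y) L ∧ Conn (gr B) L
  sep : SepF B F
  un : F.biUnion id = Q \ Y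
  cr : ∀ L ∈ F, Crit B L
  svL : ∀ L ∈ F, sv B L = -1
  rhoY : rho B (Q \ Y) + 2 = rho B Q
  cardF : F.card + 4 = Y.card

theorem MB0.kb (h : MB0 B Q C X F i j) : KB0 B Q ((B i ∩ Q) ∪ X) F i j := by
  have hT1 : B i ∩ Q ⊆ Q := inter_subset_right
  have hd : Disjoint (B i ∩ Q) X := by
    refine disjoint_of_subset_right h.clo.sub ?_
    rw [h.defC]
    exact disjoint_sdiff
  have hQY : Q \ ((B i ∩ Q) ∪ X) = C \ X := by
    rw [h.defC, sdiff_sdiff_left]
    rfl
  refine ⟨h.toViol, h.sz, h.fi, h.fj, disjoint_of_subset_right h.jX hd, subset_union_left,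
    h.jX.trans subset_union_right, union_subset hT1 (h.clo.sub.trans h.CQ), ?_, h.clo.sep, ?_,
    h.clo.crit, h.cardF.2, ?_, ?_⟩
  · rw [hQY]
    exact h.clo.parts
  · rw [hQY]
    exact h.clo.un
  · rw [hQY]
    have h1 := h.clo.rhoX
    have h2 := h.rhoC
    omega
  · rw [card_union_of_disjoint hd, h.fi]
    have := h.cardF.1
    omega

namespace KB0

theorem cov (h : KB0 B Q Y F i j) : Cov B Q := cov_of_reg h.reg

theorem subQ (h : KB0 B Q Y F i j) {L : Finset V} (hL : L ∈ F) : L ⊆ Q :=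
  (h.parts L hL).1.trans sdiff_subset

theorem notMem (h : KB0 B Q Y F i j) {L : Finset V} (hL : L ∈ F) {z : V} (hz : z ∈ Y) : z ∉ L :=
  fun hzL => (mem_sdiff.1 ((h.parts L hL).1 hzL)).2 hz

theorem covL (h : KB0 B Q Y F i j) {L : Finset V} (hL : L ∈ F) : Cov B L :=
  h.cov.mono (h.subQ hL)

theorem Y6 (h : KB0 B Q Y F i j) : 6 ≤ Y.card := by
  have h1 := card_le_card (union_subset h.iY h.jY)
  rw [card_union_of_disjoint h.dij, h.fi, h.fj] at h1
  omega

/-- exchange of the two full blocks. -/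
theorem swap (h : KB0 B Q Y F i j) : KB0 B Q Y F j i :=
  ⟨h.toViol, h.sz, h.fj, h.fi, h.dij.symm, h.jY, h.iY, h.YQ, h.parts, h.sep, h.un, h.cr,
    h.svL, h.rhoY, h.cardF⟩

/-- the rest of the first full block. -/
theorem mb0 (h : KB0 B Q Y F i j) : MB0 B Q (Q \ (B i ∩ Q)) (Y \ (B i ∩ Q)) F i j := by
  have h1 : (Q \ (B i ∩ Q)) \ (Y \ (B i ∩ Q)) = Q \ Y := by
    ext v
    simp only [mem_sdiff]
    constructor
    · rintro ⟨⟨h1, h2⟩, h3⟩
      exact ⟨h1, fun h4 => h3 ⟨h4, h2⟩⟩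
    · rintro ⟨h1, h2⟩
      exact ⟨⟨h1, fun h3 => h2 (h.iY h3)⟩, fun h3 => h2 h3.1⟩
  have h2 : B j ∩ Q ⊆ Q \ (B i ∩ Q) := fun v hv =>
    mem_sdiff.2 ⟨(mem_inter.1 hv).2, fun h3 => disjoint_left.1 h.dij h3 hv⟩
  refine ⟨h.toViol, h.sz, h.fi, h.fj, rfl, h2, fun v hv => mem_sdiff.2 ⟨h.jY hv,
    (mem_sdiff.1 (h2 hv)).2⟩, sdiff_subset_sdiff h.YQ (Subset.refl _), ?_, h.sep, ?_, h.cr, ?_⟩
  · rw [h1]
    exact h.parts
  · rw [h1]
    exact h.un
  · rw [h1]
    have h3 := h.rhoY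
    have h4 := (h.lemA h.fi).2.2.1
    omega

theorem cp (h : KB0 B Q Y F i j) {L : Finset V} (hL : L ∈ F) : Cp3 B Q L := h.mb0.cp hL

theorem sizeL (h : KB0 B Q Y F i j) {L : Finset V} (hL : L ∈ F) : L.card + Y.card ≤ Q.card := by
  have h1 := card_le_card (h.parts L hL).1
  have h2 := card_sdiff_add_card_eq_card h.YQ
  omega

theorem sizeL2 (h : KB0 B Q Y F i j) {L M : Finset V} (hL : L ∈ F) (hM : M ∈ F) (hne : L ≠ M) :
    L.card + M.card + Y.card ≤ Q.card := by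
  have h1 := card_le_card (union_subset (h.parts L hL).1 (h.parts M hM).1)
  rw [card_union_of_disjoint (h.sep L hL M hM hne).1] at h1
  have h2 := card_sdiff_add_card_eq_card h.YQ
  omega

/-- the five blocks of a point of `Y`. -/
theorem row (h : KB0 B Q Y F i j) {z : V} (hz : z ∈ Y) :
    ∑ L ∈ F, (Ez B L z).card + ((ins B Q Y).filter (fun k => z ∈ B k)).card = 5 := by
  classical
  rw [← h.reg z (h.YQ hz)]
  have h1 : (F.biUnion (fun L => Ez B L z)).card = ∑ L ∈ F, (Ez B L z).card := by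
    rw [card_biUnion]
    intro L hL D hD hne
    rw [Function.onFun, disjoint_left]
    intro k hk hk2
    exact (h.sep L hL D hD hne).2 k (mem_Ez.1 hk).2 (mem_Ez.1 hk2).2
  rw [← h1, ← card_union_of_disjoint]
  · congr 1
    ext k
    rw [mem_union, mem_biUnion, mem_filter, mem_filter, mem_ins]
    constructor
    · rintro (⟨L, _, hk⟩ | ⟨_, hk⟩)
      · exact ⟨mem_univ _, (mem_Ez.1 hk).1⟩
      · exact ⟨mem_univ _, hk⟩
    · rintro ⟨_, hk⟩
      by_cases h2 : B k ∩ Q ⊆ Y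
      · exact Or.inr ⟨⟨⟨z, mem_inter.2 ⟨hk, h.YQ hz⟩⟩, h2⟩, hk⟩
      · left
        rw [not_subset] at h2
        obtain ⟨v, hv, hvY⟩ := h2
        rw [mem_inter] at hv
        have h3 : v ∈ F.biUnion id := by
          rw [h.un]
          exact mem_sdiff.2 ⟨hv.2, hvY⟩
        obtain ⟨L, hL, hvL⟩ := mem_biUnion.1 h3
        exact ⟨L, hL, mem_Ez.2 ⟨hk, v, mem_inter.2 ⟨hv.1, hvL⟩⟩⟩
  · rw [disjoint_left]
    intro k hk hk2
    obtain ⟨L, hL, hkL⟩ := mem_biUnion.1 hk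
    rw [mem_filter, mem_ins] at hk2
    obtain ⟨v, hv⟩ := (mem_Ez.1 hkL).2
    rw [mem_inter] at hv
    have h3 := (h.parts L hL).1 hv.2
    exact (mem_sdiff.1 h3).2 (hk2.1.2 (mem_inter.2 ⟨hv.1, (mem_sdiff.1 h3).1⟩))

/-- the cover number of `Q` as the sum over the components. -/
theorem rhoQ (h : KB0 B Q Y F i j) : rho B Q = ∑ L ∈ F, rho B L + 2 := by
  have h1 := h.rhoY
  rw [← h.un, rho_biUnion (fun L hL => h.covL hL) h.sep] at h1
  omega

/-- every distribution of `Y` to the components and a set `J0` costs at least two. -/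
theorem cost (h : KB0 B Q Y F i j) (J : Finset V → Finset V) (J0 : Finset V)
    (hJ : ∀ L ∈ F, J L ⊆ Y) (hJ0 : J0 ⊆ Y) (hcov : Y ⊆ J0 ∪ F.biUnion J) :
    ∑ L ∈ F, rho B L + 2 ≤ ∑ L ∈ F, rho B (L ∪ J L) + rho B J0 := by
  classical
  rw [← h.rhoQ]
  have hc := h.cov
  have h1 : Q ⊆ (F.biUnion (fun L => L ∪ J L)) ∪ J0 := by
    intro v hv
    by_cases hvY : v ∈ Y
    · rcases mem_union.1 (hcov hvY) with h2 | h2
      · exact mem_union_right _ h2
      · obtain ⟨L, hL, hvL⟩ := mem_biUnion.1 h2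
        exact mem_union_left _ (mem_biUnion.2 ⟨L, hL, mem_union_right _ hvL⟩)
    · have h3 : v ∈ F.biUnion id := by
        rw [h.un]
        exact mem_sdiff.2 ⟨hv, hvY⟩
      obtain ⟨L, hL, hvL⟩ := mem_biUnion.1 h3
      exact mem_union_left _ (mem_biUnion.2 ⟨L, hL, mem_union_left _ hvL⟩)
  have h2 : ∀ S : Finset (Finset V), S ⊆ F →
      rho B (S.biUnion (fun L => L ∪ J L)) ≤ ∑ L ∈ S, rho B (L ∪ J L) := by
    intro S
    induction S using Finset.induction_on with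
    | empty => intro _; simp
    | insert L S hLS ih =>
      intro hS
      have hLF := hS (mem_insert_self _ _)
      have hSF : S ⊆ F := fun D hD => hS (mem_insert_of_mem hD)
      rw [biUnion_insert, sum_insert hLS]
      refine (rho_union_le (hc.mono (union_subset (h.subQ hLF) ((hJ L hLF).trans h.YQ)))
        (hc.mono ?_)).trans (Nat.add_le_add_left (ih hSF) _)
      intro v hv
      obtain ⟨D, hD, hvD⟩ := mem_biUnion.1 hv
      rcases mem_union.1 hvD with h5 | h5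
      · exact h.subQ (hSF hD) h5
      · exact h.YQ (hJ D (hSF hD) h5)
  have hc2 : Cov B (F.biUnion (fun L => L ∪ J L)) := by
    refine hc.mono ?_
    intro v hv
    obtain ⟨D, hD, hvD⟩ := mem_biUnion.1 hv
    rcases mem_union.1 hvD with h5 | h5
    · exact h.subQ hD h5
    · exact h.YQ (hJ D hD h5)
  refine (rho_mono h1 ?_).trans ((rho_union_le hc2 (hc.mono (hJ0.trans h.YQ))).trans
    (Nat.add_le_add_right (h2 F (Subset.refl _)) _))
  intro v hv
  rcases mem_union.1 hv with h5 | h5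
  · exact hc2 v h5
  · exact hc v (h.YQ (hJ0 h5))

/-- the exact sum of the values `P' - 2 e` of the components. -/
theorem sum_p (h : KB0 B Q Y F i j) : ∑ L ∈ F, (dv B Q L + 1) + 4 * ((ins B Q Y).card : ℤ) +
    4 * (Y.card : ℤ) = dv B Q Q + 44 + 2 * (ee B Q Y : ℤ) := by
  have h1 := Pv_sdiff (B := B) h.YQ
  have h2 : Pv B (Q \ Y) = ∑ L ∈ F, Pv B L := by
    rw [← h.un]
    exact Pv_biUnion (fun L hL => h.covL hL) h.sep
  have h3 : ee B Q Q = ∑ L ∈ F, ee B Q L + ee B Q Y := by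
    rw [← ee_biUnion h.sep, h.un, ← ee_union sdiff_disjoint, sdiff_union_of_subset h.YQ]
  have c1 : (ee B Q Q : ℤ) = ∑ L ∈ F, (ee B Q L : ℤ) + ee B Q Y := by
    rw [h3]
    push_cast
    ring
  have h4 : (rho B (Q \ Y) : ℤ) + 2 = rho B Q := by exact_mod_cast h.rhoY
  have h5 : (F.card : ℤ) + 4 = Y.card := by exact_mod_cast h.cardF
  rw [sum_add_distrib, sum_const, nsmul_eq_mul, mul_one]
  unfold dv
  rw [sum_sub_distrib, ← mul_sum, c1]
  linarith

/-- the two full blocks are inner blocks. -/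
theorem ij_ins (h : KB0 B Q Y F i j) : i ∈ ins B Q Y ∧ j ∈ ins B Q Y ∧ i ≠ j := by
  refine ⟨mem_ins.2 ⟨card_pos.1 (by rw [h.fi]; norm_num), h.iY⟩,
    mem_ins.2 ⟨card_pos.1 (by rw [h.fj]; norm_num), h.jY⟩, ?_⟩
  rintro rfl
  have h1 := h.dij
  rw [disjoint_self_iff_empty] at h1
  have h2 := h.fi
  rw [h1] at h2
  simp at h2

/-- the values are even. -/
theorem even (h : KB0 B Q Y F i j) {L : Finset V} (hL : L ∈ F) : (dv B Q L + 1) % 2 = 0 := by
  have h1 := Pp_even (B := B) L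
  have h2 := Pv_eq_Pp (B := B) L
  rw [h.svL L hL] at h2
  unfold dv
  omega

theorem nonneg (h : KB0 B Q Y F i j) {L : Finset V} (hL : L ∈ F) : 0 ≤ dv B Q L + 1 := by
  have := (h.cp hL).d_ge
  linarith

/-- Hall's condition with surplus one outside the first full block. -/
theorem hall (h : KB0 B Q Y F i j) {S : Finset (Finset V)} (hS : S ⊆ F) (hne : S.Nonempty) :
    S.card + 1 ≤ (nbX B (Y \ (B i ∩ Q)) S).card :=
  h.mb0.clo.hall h.mb0.critC h.mb0.covC h.mb0.connC h.mb0.Xne hS hne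

end KB0

theorem Viol.exists_KB (h : Viol B Q) (hs : sv B Q = 0) {i : ι} (hi : (B i ∩ Q).card = 3) :
    ∃ Y F j, KB0 B Q Y F i j := by
  obtain ⟨C, X, F, j, hm⟩ := h.exists_MB0 hs hi
  exact ⟨_, F, j, hm.kb⟩

end Pool.Agent.Hyp6
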