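import Pool.Agent.Hyp6.L3Mx

/-!
# HYP6 L3Mg: the part of the even part reached from a dead point is of graph type

The frame has the smallest even part `E`. The triple is `{a, b, c}` such that `U` together with
`b, c` has surplus in the leaves; `R = insert a E`. `Frm.no_E_graph`: a block inside the rest and the
triple with at least two points in `R` contains no point `x` of `R` with `R - x` perfectly matchable.
-/

set_option autoImplicit false

namespace Pool.Agent.Hyp6

open Finset Pool.Agent.Hyp5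

universe u v

variable {V : Type v} [DecidableEq V] {ι : Type u} [Fintype ι] {B : ι → Finset V}

namespace Frm

variable {Q U : Finset V} {T : Finset ι} {F : Finset (Finset V)}

/-- the value with a point `v` of a leaf missed, the points of `P` absorbed and the even part
replaced by `E'`. -/
theorem sv_abs (h : Frm B Q T U F) {P E' : Finset V} (hP : P ⊆ Q) (hPD : Disjoint P (Dp B Q T))
    {L : Finset V} (hL : L ∈ F) {v : V} (hv : v ∈ L)
    (hH : ∀ Z ⊆ U ∪ P, Z.card ≤ (nbF (gr B) (F.erase L) Z).card) (hEc : Cov B E')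
    (hE0 : 0 ≤ sv B E') (hEU : Disjoint (U ∪ P) E') (hEF : ∀ C ∈ F, Disjoint C E') :
    (U.card : ℤ) + P.card - F.card + 1 ≤
      sv B ((U ∪ P) ∪ (F.erase L).biUnion id ∪ (L.erase v ∪ E')) := by
  classical
  have : Nonempty V := ⟨v⟩
  obtain ⟨F1, φ, hF1, hcard, hφ, hinj, him⟩ := exists_match hH
  have hsub : F.erase L ⊆ F := erase_subset _ _
  have hUPc : Cov B (U ∪ P) := (h.covD.mono h.ge.sub).union (h.cov.mono hP)
  have hFc : Cov B ((F.erase L).biUnion id) := cov_biUnion fun C hC => h.covF C (hsub hC)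
  have hLc : Cov B (L.erase v) := (h.covF L hL).mono (erase_subset _ _)
  have h1 := sv_ge_of_assignment (B := B) (A := U ∪ P) (R := L.erase v ∪ E')
    (F := F.erase L) (F1 := F1) (F2 := F.erase L \ F1) (F3 := ∅) (φ := φ)
    ((hUPc.union hFc).union (hLc.union hEc))
    (fun C hC => h.ge.sys.fc C (hsub hC))
    (fun C hC C' hC' => h.ge.sys.disj C (hsub hC) C' (hsub hC'))
    (fun C hC => by
      rw [disjoint_union_right]
      exact ⟨h.ge.FU C (hsub hC), (hPD.mono_right (h.FD (hsub hC))).symm⟩)
    (fun C hC => by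
      rw [disjoint_union_right]
      exact ⟨disjoint_of_subset_right (erase_subset _ _)
        (h.ge.sys.disj C (hsub hC) L hL (mem_erase.1 hC).1), hEF C (hsub hC)⟩)
    (by
      rw [disjoint_union_right]
      refine ⟨?_, hEU⟩
      rw [disjoint_union_left]
      exact ⟨disjoint_of_subset_right (erase_subset _ _) (h.ge.FU L hL).symm,
        hPD.mono_right ((erase_subset _ _).trans (h.FD hL))⟩)
    (by rw [union_empty, union_sdiff_of_subset hF1]) disjoint_sdiff (disjoint_empty_right _)
    (disjoint_empty_right _) hφ hinj him (by simp)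
  rw [card_empty] at h1
  have h2 := card_sdiff_add_card_eq_card hF1
  have h2' := card_erase_add_one hL
  have hdUP : Disjoint U P := (hPD.mono_right h.ge.sub).symm
  have h3 := pm_sv_nonneg ((h.ge.sys.fc L hL).2 v hv)
  have h4 := sv_union_ge (B := B) hLc hEc ((hEF L hL).mono_left (erase_subset _ _))
  rw [card_union_of_disjoint hdUP] at hcard
  push_cast at h1
  have h5 : ((F.erase L \ F1).card : ℤ) = F.card - 1 - U.card - P.card := by
    have h6 : ((F.erase L \ F1).card : ℤ) + F1.card = (F.erase L).card := by exact_mod_cast h2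
    have h7 : ((F.erase L).card : ℤ) + 1 = F.card := by exact_mod_cast h2'
    have h8 : (F1.card : ℤ) = U.card + P.card := by exact_mod_cast hcard
    linarith
  linarith

/-- data of a triple `{a, b, c}` with a joint surplus of `b`, `c`. -/
structure Dd (B : ι → Finset V) (Q : Finset V) (T : Finset ι) (U : Finset V)
    (F : Finset (Finset V)) (j : ι) (a b c : V) : Prop where
  frm : Frm B Q T U F
  hj : j ∈ T
  hjQ : B j ∩ Q = {a, b, c}
  sur : ∀ Z ⊆ U ∪ {b, c}, Z.Nonempty → Z.card + 1 ≤ (nbF (gr B) F Z).card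

namespace Dd

variable {j : ι} {a b c : V}

omit [Fintype ι] in
theorem ne (h : Dd B Q T U F j a b c) : a ≠ b ∧ a ≠ c ∧ b ≠ c := by
  have hj3 := h.frm.mtp.tpk.pack.card j h.hj
  have h1 := h.hjQ
  refine ⟨?_, ?_, ?_⟩
  · rintro rfl
    rw [h1] at hj3
    have h2 := card_le_two (a := a) (b := c)
    simp only [mem_insert, true_or, insert_eq_of_mem] at hj3
    omega
  · rintro rfl
    rw [h1] at hj3
    have h2 := card_le_two (a := b) (b := a)
    simp only [mem_insert, mem_singleton, or_true, insert_eq_of_mem] at hj3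
    omega
  · rintro rfl
    rw [h1] at hj3
    have h2 := card_le_two (a := a) (b := b)
    simp only [mem_singleton, insert_eq_of_mem] at hj3
    omega

omit [Fintype ι] in
theorem aj (h : Dd B Q T U F j a b c) : a ∈ B j ∩ Q := by rw [h.hjQ]; simp

omit [Fintype ι] in
theorem bj (h : Dd B Q T U F j a b c) : b ∈ B j ∩ Q := by rw [h.hjQ]; simp

omit [Fintype ι] in
theorem cj (h : Dd B Q T U F j a b c) : c ∈ B j ∩ Q := by rw [h.hjQ]; simp

omit [Fintype ι] in
theorem aD (h : Dd B Q T U F j a b c) : a ∉ Dp B Q T := T_notD h.hj (mem_inter.1 h.aj).1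

omit [Fintype ι] in
theorem bD (h : Dd B Q T U F j a b c) : b ∉ Dp B Q T := T_notD h.hj (mem_inter.1 h.bj).1

omit [Fintype ι] in
theorem cD (h : Dd B Q T U F j a b c) : c ∉ Dp B Q T := T_notD h.hj (mem_inter.1 h.cj).1

omit [Fintype ι] in
theorem bcQ (h : Dd B Q T U F j a b c) : ({b, c} : Finset V) ⊆ Q := by
  intro z hz
  rcases mem_insert.1 hz with rfl | hz
  · exact (mem_inter.1 h.bj).2
  · rw [mem_singleton.1 hz]; exact (mem_inter.1 h.cj).2

omit [Fintype ι] in
theorem bcD (h : Dd B Q T U F j a b c) : Disjoint ({b, c} : Finset V) (Dp B Q T) := by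
  rw [disjoint_left]
  intro z hz
  rcases mem_insert.1 hz with rfl | hz
  · exact h.bD
  · rw [mem_singleton.1 hz]; exact h.cD

omit [Fintype ι] in
/-- every point of `U`, `b` and `c` see a leaf. -/
theorem sees (h : Dd B Q T U F j a b c) {p : V} (hp : p ∈ U ∪ {b, c}) :
    ∃ L ∈ F, ∃ w ∈ L, (gr B).Adj p w := by
  have h1 := h.sur {p} (singleton_subset_iff.2 hp) (singleton_nonempty _)
  have h2 : 0 < (nbF (gr B) F {p}).card := by omega
  obtain ⟨L, hL⟩ := card_pos.1 h2
  obtain ⟨h4, z, hz, w, hw, hzw⟩ := mem_nbF.1 hL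
  rw [mem_singleton] at hz
  subst hz
  exact ⟨L, h4, w, hw, hzw⟩

omit [Fintype ι] in
theorem hall (h : Dd B Q T U F j a b c) (L : Finset V) :
    ∀ Z ⊆ U ∪ {b, c}, Z.card ≤ (nbF (gr B) (F.erase L) Z).card := by
  intro Z hZ
  rcases Z.eq_empty_or_nonempty with rfl | hne
  · simp
  · have h1 := h.sur Z hZ hne
    have h2 := nbF_erase (G := gr B) (F := F) (Z := Z) (C := L)
    omega

/-- a point `x` of `R = insert a E` with `R - x` perfectly matchable can be missed together with a
point of a leaf after the release of the triple. -/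
theorem miss (h : Dd B Q T U F j a b c) {x : V} (hx : x ∈ insert a (Ep B Q T U F))
    (hpm : PM (gr B) ((insert a (Ep B Q T U F)).erase x)) {L : Finset V} (hL : L ∈ F) {v : V}
    (hv : v ∈ L) :
    rho B (((Dp B Q T ∪ {a, b, c}).erase x).erase v) + 1 ≤ rho B (Dp B Q T) := by
  have hf := h.frm
  obtain ⟨hab, hac, hbc⟩ := h.ne
  have haE : a ∉ Ep B Q T U F := fun h1 => h.aD (ED h1)
  have hvD : v ∈ Dp B Q T := hf.FD hL hv
  have haQ : a ∈ Q := (mem_inter.1 h.aj).2
  have hRc : Cov B (insert a (Ep B Q T U F)) := by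
    refine hf.cov.mono ?_
    intro z hz
    rcases mem_insert.1 hz with rfl | hz
    · exact haQ
    · exact DQ (ED hz)
  have hEc : Cov B ((insert a (Ep B Q T U F)).erase x) := hRc.mono (erase_subset _ _)
  have hdUR : Disjoint (U ∪ {b, c}) ((insert a (Ep B Q T U F)).erase x) := by
    rw [disjoint_left]
    intro z hz hz'
    have h1 := mem_of_mem_erase hz'
    rcases mem_union.1 hz with h2 | h2
    · rcases mem_insert.1 h1 with rfl | h3
      · exact h.aD (hf.ge.sub h2)
      · exact (mem_sdiff.1 (mem_sdiff.1 h3).1).2 h2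
    · rcases mem_insert.1 h1 with h3 | h3
      · subst h3
        rcases mem_insert.1 h2 with h4 | h4
        · exact hab h4
        · exact hac (mem_singleton.1 h4)
      · exact disjoint_left.1 h.bcD h2 (ED h3)
  have hdF : ∀ C ∈ F, Disjoint C ((insert a (Ep B Q T U F)).erase x) := by
    intro C hC
    rw [disjoint_left]
    intro z hz hz'
    rcases mem_insert.1 (mem_of_mem_erase hz') with rfl | h3
    · exact h.aD (hf.FD hC hz)
    · exact disjoint_left.1 (hf.ge.FE C hC) hz h3
  have h1 := hf.sv_abs h.bcQ h.bcD hL hv (h.hall L) hEc (pm_sv_nonneg hpm) hdUR hdF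
  have hset : (U ∪ {b, c}) ∪ (F.erase L).biUnion id ∪
      (L.erase v ∪ (insert a (Ep B Q T U F)).erase x) =
        ((Dp B Q T ∪ {a, b, c}).erase x).erase v := by
    have hq' : U ∪ F.biUnion id ∪ Ep B Q T U F = Dp B Q T := hf.ge.set_eq
    have hxv : x ≠ v := by
      rintro rfl
      rcases mem_insert.1 hx with h2 | h2
      · exact h.aD (h2 ▸ hvD)
      · exact disjoint_left.1 (hf.ge.FE L hL) hv h2
    have hvU : v ∉ U := fun h1 => disjoint_left.1 (hf.ge.FU L hL) hv h1
    have hxU : x ∉ U := by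
      intro h2
      rcases mem_insert.1 hx with h3 | h3
      · exact h.aD (h3 ▸ hf.ge.sub h2)
      · exact (mem_sdiff.1 (mem_sdiff.1 h3).1).2 h2
    have hxF : ∀ C ∈ F, x ∉ C := by
      intro C hC h2
      rcases mem_insert.1 hx with h3 | h3
      · exact h.aD (h3 ▸ hf.FD hC h2)
      · exact disjoint_left.1 (hf.ge.FE C hC) h2 h3
    have hbcx : ∀ z ∈ ({b, c} : Finset V), z ≠ x ∧ z ≠ v := by
      intro z hz
      refine ⟨?_, fun h3 => disjoint_left.1 h.bcD hz (h3 ▸ hvD)⟩
      rintro rfl
      rcases mem_insert.1 hx with h3 | h3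
      · subst h3
        rcases mem_insert.1 hz with h4 | h4
        · exact hab h4
        · exact hac (mem_singleton.1 h4)
      · exact disjoint_left.1 h.bcD hz (ED h3)
    have hvE : v ∉ Ep B Q T U F := fun h1 => disjoint_left.1 (hf.ge.FE L hL) hv h1
    have hva : v ≠ a := fun h2 => h.aD (h2 ▸ hvD)
    rw [← hq']
    ext z
    constructor
    · intro hz
      rcases mem_union.1 hz with hz | hz
      · rcases mem_union.1 hz with hz | hz
        · rcases mem_union.1 hz with hz | hz
          · refine mem_erase.2 ⟨fun he => hvU (he ▸ hz), mem_erase.2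
              ⟨fun he => hxU (he ▸ hz), ?_⟩⟩
            exact mem_union_left _ (mem_union_left _ (mem_union_left _ hz))
          · refine mem_erase.2 ⟨(hbcx z hz).2, mem_erase.2 ⟨(hbcx z hz).1, ?_⟩⟩
            exact mem_union_right _ (mem_insert_of_mem hz)
        · obtain ⟨C, hC, hzC⟩ := mem_biUnion.1 hz
          obtain ⟨hne, hCF⟩ := mem_erase.1 hC
          have hzC' : z ∈ C := hzC
          refine mem_erase.2 ⟨?_, mem_erase.2 ⟨fun he => hxF C hCF (he ▸ hzC'), ?_⟩⟩
          · rintro rfl
            exact disjoint_left.1 (hf.ge.sys.disj C hCF L hL hne) hzC' hv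
          · exact mem_union_left _ (mem_union_left _ (mem_union_right _
              (mem_biUnion.2 ⟨C, hCF, hzC⟩)))
      · rcases mem_union.1 hz with hz | hz
        · obtain ⟨h2, h3⟩ := mem_erase.1 hz
          refine mem_erase.2 ⟨h2, mem_erase.2 ⟨fun he => hxF L hL (he ▸ h3), ?_⟩⟩
          exact mem_union_left _ (mem_union_left _ (mem_union_right _
            (mem_biUnion.2 ⟨L, hL, h3⟩)))
        · obtain ⟨h2, h3⟩ := mem_erase.1 hz
          refine mem_erase.2 ⟨?_, mem_erase.2 ⟨h2, ?_⟩⟩
          · rintro rfl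
            rcases mem_insert.1 h3 with h4 | h4
            · exact hva h4
            · exact hvE h4
          · rcases mem_insert.1 h3 with h4 | h4
            · rw [h4]
              exact mem_union_right _ (mem_insert_self _ _)
            · exact mem_union_left _ (mem_union_right _ h4)
    · intro hz
      obtain ⟨hzv, hz⟩ := mem_erase.1 hz
      obtain ⟨hzx, hz⟩ := mem_erase.1 hz
      rcases mem_union.1 hz with hz | hz
      · rcases mem_union.1 hz with hz | hz
        · rcases mem_union.1 hz with hz | hz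
          · exact mem_union_left _ (mem_union_left _ (mem_union_left _ hz))
          · obtain ⟨C, hC, hzC⟩ := mem_biUnion.1 hz
            by_cases he : C = L
            · subst he
              exact mem_union_right _ (mem_union_left _ (mem_erase.2 ⟨hzv, hzC⟩))
            · exact mem_union_left _ (mem_union_right _
                (mem_biUnion.2 ⟨C, mem_erase.2 ⟨he, hC⟩, hzC⟩))
        · exact mem_union_right _ (mem_union_right _
            (mem_erase.2 ⟨hzx, mem_insert_of_mem hz⟩))
      · rcases mem_insert.1 hz with rfl | hz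
        · exact mem_union_right _ (mem_union_right _
            (mem_erase.2 ⟨hzx, mem_insert_self _ _⟩))
        · exact mem_union_left _ (mem_union_left _ (mem_union_right _ hz))
  rw [hset] at h1
  have hc3 : (Dp B Q T ∪ {a, b, c}).card = (Dp B Q T).card + 3 := by
    rw [card_union_of_disjoint, card_eq_three.2 ⟨a, b, c, hab, hac, hbc, rfl⟩]
    rw [disjoint_right]
    intro z hz
    rcases mem_insert.1 hz with rfl | hz
    · exact h.aD
    · exact disjoint_left.1 h.bcD hz
  have hxm : x ∈ Dp B Q T ∪ {a, b, c} := by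
    rcases mem_insert.1 hx with h2 | h2
    · rw [h2]
      exact mem_union_right _ (mem_insert_self _ _)
    · exact mem_union_left _ (ED h2)
  have hxv : v ≠ x := by
    rintro rfl
    rcases mem_insert.1 hx with h2 | h2
    · exact h.aD (h2 ▸ hvD)
    · exact disjoint_left.1 (hf.ge.FE L hL) hv h2
  have hvm : v ∈ (Dp B Q T ∪ {a, b, c}).erase x := mem_erase.2 ⟨hxv, mem_union_left _ hvD⟩
  have h5 := card_erase_add_one hxm
  have h6 := card_erase_add_one hvm
  have h7 := hf.svD
  have hbc2 : ({b, c} : Finset V).card = 2 := card_pair hbc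
  rw [hbc2] at h1
  unfold sv at h1 h7
  push_cast at h1
  omega

end Dd

/-- **the region reached from a dead point is of graph type.** -/
theorem no_E_graph [DecidableEq ι] {j : ι} {a b c : V} (h : Dd B Q T U F j a b c)
    (hmin : ∀ (T' : Finset ι) (U' : Finset V) (F' : Finset (Finset V)),
      Frm B Q T' U' F' → (Ep B Q T U F).card ≤ (Ep B Q T' U' F').card)
    {i : ι} (hi3 : (B i ∩ Q).card = 3) (hiD : B i ∩ Q ⊆ Dp B Q T ∪ {a, b, c}) {x : V}
    (hx : x ∈ insert a (Ep B Q T U F)) (hxi : x ∈ B i)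
    (hpm : PM (gr B) ((insert a (Ep B Q T U F)).erase x))
    (h2 : 2 ≤ (B i ∩ insert a (Ep B Q T U F)).card) : False := by
  have hf := h.frm
  -- a point of E in the block
  obtain ⟨y, hyi, hyE⟩ : ∃ y, y ∈ B i ∧ y ∈ Ep B Q T U F := by
    by_contra hcon
    push Not at hcon
    have h3 : B i ∩ insert a (Ep B Q T U F) ⊆ {a} := by
      intro z hz
      obtain ⟨h4, h5⟩ := mem_inter.1 hz
      rcases mem_insert.1 h5 with h6 | h6
      · exact mem_singleton.2 h6
      · exact absurd h6 (hcon z h4)
    have h4 := card_le_card h3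
    rw [card_singleton] at h4
    omega
  have hleaf : ∀ L ∈ F, ∀ v ∈ L, v ∉ B i := fun L hL v hv hvi =>
    hf.sepE i ⟨v, mem_inter.2 ⟨hvi, mem_biUnion.2 ⟨L, hL, hv⟩⟩⟩ ⟨y, mem_inter.2 ⟨hyi, hyE⟩⟩
  have hd : ∀ k ∈ T, k ≠ j → Disjoint (B i ∩ Q) (B k ∩ Q) := by
    intro k hk hne
    rw [disjoint_left]
    intro z hz hzk
    rcases mem_union.1 (hiD hz) with h3 | h3
    · exact T_notD hk (mem_inter.1 hzk).1 h3
    · exact disjoint_left.1 (hf.mtp.tpk.pack.disj k hk j h.hj hne) hzk (by rw [h.hjQ]; exact h3)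
  have hbig : Cov B (Dp B Q T ∪ {a, b, c}) := by
    rw [← h.hjQ]
    exact hf.covD.union (hf.cov.mono inter_subset_right)
  have hcovn : Cov B ((Dp B Q T ∪ (B j ∩ Q)) \ B i) := by
    rw [h.hjQ]
    exact hbig.mono sdiff_subset
  have hmiss : ∀ L ∈ F, ∀ v ∈ L,
      rho B (((Dp B Q T ∪ (B j ∩ Q)) \ B i).erase v) + 1 ≤ rho B (Dp B Q T) := by
    intro L hL v hv
    have h3 := h.miss hx hpm hL hv
    have h4 : rho B (((Dp B Q T ∪ (B j ∩ Q)) \ B i).erase v) ≤
        rho B (((Dp B Q T ∪ {a, b, c}).erase x).erase v) := by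
      refine rho_mono ?_ (hbig.mono ((erase_subset _ _).trans (erase_subset _ _)))
      intro z hz
      obtain ⟨h5, h6⟩ := mem_erase.1 hz
      obtain ⟨h7, h8⟩ := mem_sdiff.1 h6
      rw [h.hjQ] at h7
      exact mem_erase.2 ⟨h5, mem_erase.2 ⟨fun he => h8 (he ▸ hxi), h7⟩⟩
    omega
  obtain ⟨L0, hL0, w0, hw0, _⟩ := h.sees (p := b) (mem_union_right _ (by simp))
  have hrho : rho B ((Dp B Q T ∪ (B j ∩ Q)) \ B i) ≤ rho B (Dp B Q T) := by
    have h3 := hmiss L0 hL0 w0 hw0
    have h4 := rho_le_erase (x := w0) hcovn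
    omega
  obtain ⟨U1, F1, h', hset, heq⟩ := hf.exch_frame h.hj hi3 hd hrho
  have hcrit : ∀ L ∈ F, ∀ v ∈ L, v ∈ Dp B Q (insert i (T.erase j)) ∧
      rho B ((Dp B Q (insert i (T.erase j))).erase v) + 1 =
        rho B (Dp B Q (insert i (T.erase j))) := by
    intro L hL v hv
    rw [hset]
    refine ⟨mem_sdiff.2 ⟨mem_union_left _ (hf.FD hL hv), hleaf L hL v hv⟩, ?_⟩
    have h1 := hmiss L hL v hv
    have h3 := rho_le_erase (x := v) hcovn
    omega
  have hsub : Ep B Q (insert i (T.erase j)) U1 F1 ⊆ insert a (Ep B Q T U F) \ B i := by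
    intro p hp
    have hpD := ED hp
    rw [hset] at hpD
    obtain ⟨h3, h4⟩ := mem_sdiff.1 hpD
    refine mem_sdiff.2 ⟨?_, h4⟩
    by_contra hpR
    have hcases : (∃ L ∈ F, p ∈ L) ∨ p ∈ U ∪ {b, c} := by
      rcases mem_union.1 h3 with h5 | h5
      · rcases hf.three_cases h5 (fun h6 => hpR (mem_insert_of_mem h6)) with h6 | h6
        · exact Or.inr (mem_union_left _ h6)
        · exact Or.inl h6
      · rw [h.hjQ] at h5
        rcases mem_insert.1 h5 with h6 | h6
        · exact absurd (by rw [h6]; exact mem_insert_self _ _) hpR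
        · exact Or.inr (mem_union_right _ h6)
    rcases hcases with ⟨L, hL, hpL⟩ | h5
    · exact h'.notE_crit (hcrit L hL p hpL).1 (hcrit L hL p hpL).2 hp
    · obtain ⟨L, hL, w, hw, hpw⟩ := h.sees h5
      exact h'.notE_adjc (hcrit L hL w hw).1 (hcrit L hL w hw).2 hpw hp
  have h3 := card_le_card hsub
  have h4 := hmin _ _ _ h'
  have haE : a ∉ Ep B Q T U F := fun h1 => h.aD (ED h1)
  have h5 := card_insert_of_notMem haE
  have h6 := card_sdiff_add_card_inter (insert a (Ep B Q T U F)) (B i)
  rw [inter_comm] at h6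
  omega

end Frm

end Pool.Agent.Hyp6
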