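import Pool.Agent.Hyp6.L3Mq
import Pool.Agent.Hyp6.L3Cap

/-!
# HYP6 L3Mp: triples with many hits on a point leaf

`MTQ.point_main`: a point leaf `x` which is its own class, a triple `T'` of the packing with at least
six hits on it. In the frame `MTQ` the triple has few hits on the other leaves: at most two if it has
at least seven hits on `x`; at most three if it has six hits on `x`, except for the pattern (3|2|1) with
one inner block through two points of the triple.
-/

set_option autoImplicit false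

namespace Pool.Agent.Hyp6

open Finset Pool.Agent.Hyp5

universe u v

variable {V : Type v} [DecidableEq V] {ι : Type u} [Fintype ι] {B : ι → Finset V}

/-- the number of blocks through `p` meeting `C`. -/
def mh (B : ι → Finset V) (p : V) (C : Finset V) : ℕ :=
  (univ.filter (fun i => p ∈ B i ∧ (B i ∩ C).Nonempty)).card

namespace Px

variable {Q U : Finset V} {T : Finset ι} {F : Finset (Finset V)} {j i : ι} {a b c x : V}

omit [Fintype ι] in
/-- a block through `x` does not meet the other leaves. -/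
theorem x_sep (h : Px B Q T U F j i a b c x) {k : ι} (hk : x ∈ B k) :
    ¬ (B k ∩ (F.erase {x}).biUnion id).Nonempty := by
  rintro ⟨y, hy⟩
  obtain ⟨hy1, hy2⟩ := mem_inter.1 hy
  obtain ⟨L, hL, hyL⟩ := mem_biUnion.1 hy2
  obtain ⟨hne, hLF⟩ := mem_erase.1 hL
  exact (h.frm.sepF L hLF {x} h.hx hne).2 k ⟨y, mem_inter.2 ⟨hy1, hyL⟩⟩
    ⟨x, mem_inter.2 ⟨hk, mem_singleton_self x⟩⟩

/-- a block through `a` does not meet the other leaves. -/
theorem a_sep [DecidableEq ι] (h : Px B Q T U F j i a b c x) {k : ι} (hk : a ∈ B k) :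
    ¬ (B k ∩ (F.erase {x}).biUnion id).Nonempty := by
  rintro ⟨y, hy⟩
  obtain ⟨hy1, hy2⟩ := mem_inter.1 hy
  obtain ⟨L, hL, hyL⟩ := mem_biUnion.1 hy2
  obtain ⟨hne, hLF⟩ := mem_erase.1 hL
  have haD := h.notD (z := a) (by simp)
  refine h.a_leaf hLF hne hyL ⟨?_, k, hk, hy1⟩
  rintro rfl
  exact haD (h.frm.FD hLF hyL)

theorem a_zero [DecidableEq ι] (h : Px B Q T U F j i a b c x) :
    mh B a ((F.erase {x}).biUnion id) = 0 := by
  unfold mh
  rw [card_eq_zero, filter_eq_empty_iff]
  rintro k _ ⟨h1, h2⟩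
  exact h.a_sep h1 h2

/-- the blocks of `b` and `c`. -/
theorem count [DecidableEq ι] (h : Px B Q T U F j i a b c x) (hr : Reg B Q) :
    (mh B b ((F.erase {x}).biUnion id) + mh B c ((F.erase {x}).biUnion id)) +
      ((univ.filter fun k => x ∈ B k ∧ b ∈ B k).card +
        (univ.filter fun k => x ∈ B k ∧ c ∈ B k).card) +
      ((univ.filter fun k => x ∉ B k ∧ a ∈ B k ∧ b ∈ B k ∧ c ∉ B k).card +
      (univ.filter fun k => x ∉ B k ∧ a ∈ B k ∧ b ∉ B k ∧ c ∈ B k).card +
      2 * (univ.filter fun k => x ∉ B k ∧ a ∈ B k ∧ b ∈ B k ∧ c ∈ B k).card) ≤ 10 := by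
  have hbQ : b ∈ Q := (mem_inter.1 (by rw [h.hjQ]; simp : b ∈ B j ∩ Q)).2
  have hcQ : c ∈ Q := (mem_inter.1 (by rw [h.hjQ]; simp : c ∈ B j ∩ Q)).2
  have h1 := hr b hbQ
  have h2 := hr c hcQ
  have h3 : (univ.filter fun k => b ∈ B k).card + (univ.filter fun k => c ∈ B k).card = 10 := by
    omega
  rw [← h3]
  unfold mh
  simp only [card_filter, mul_sum, ← sum_add_distrib]
  refine sum_le_sum fun k _ => ?_
  by_cases hm : (B k ∩ (F.erase {x}).biUnion id).Nonempty
  · have hx : x ∉ B k := fun h4 => h.x_sep h4 hm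
    have ha : a ∉ B k := fun h4 => h.a_sep h4 hm
    simp only [hm, hx, ha, and_true, false_and, and_false, if_false, not_false_eq_true,
      mul_zero, add_zero]
    exact le_refl _
  · by_cases h4 : x ∈ B k <;> by_cases h5 : a ∈ B k <;> by_cases h6 : b ∈ B k <;>
      by_cases h7 : c ∈ B k <;> simp [hm, h4, h5, h6, h7]

/-- the blocks of `a`. -/
theorem ac5 [DecidableEq ι] (h : Px B Q T U F j i a b c x) (hr : Reg B Q) :
    (univ.filter fun k => x ∈ B k ∧ a ∈ B k).card +
        ((univ.filter fun k => x ∉ B k ∧ a ∈ B k ∧ b ∈ B k ∧ c ∉ B k).card +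
        (univ.filter fun k => x ∉ B k ∧ a ∈ B k ∧ b ∉ B k ∧ c ∈ B k).card +
        (univ.filter fun k => x ∉ B k ∧ a ∈ B k ∧ b ∈ B k ∧ c ∈ B k).card) ≤ 5 := by
  rw [← hr a h.aQ]
  simp only [card_filter, ← sum_add_distrib]
  refine sum_le_sum fun k _ => ?_
  by_cases h4 : x ∈ B k <;> by_cases h5 : a ∈ B k <;> by_cases h6 : b ∈ B k <;>
    by_cases h7 : c ∈ B k <;> simp [h4, h5, h6, h7]

/-- without a common block of `x`, `a` and another point: the hits of `b`, `c` on `x`. -/
theorem xbc [DecidableEq ι] (_h : Px B Q T U F j i a b c x)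
    (hno : ∀ k, x ∈ B k → a ∈ B k → b ∉ B k ∧ c ∉ B k) :
    (univ.filter fun k => x ∈ B k ∧ b ∈ B k).card +
      (univ.filter fun k => x ∈ B k ∧ c ∈ B k).card =
    (univ.filter fun k => x ∈ B k ∧ a ∉ B k ∧ b ∈ B k ∧ c ∉ B k).card +
      (univ.filter fun k => x ∈ B k ∧ a ∉ B k ∧ b ∉ B k ∧ c ∈ B k).card +
      2 * (univ.filter fun k => x ∈ B k ∧ a ∉ B k ∧ b ∈ B k ∧ c ∈ B k).card := by
  simp only [card_filter, mul_sum, ← sum_add_distrib]
  refine sum_congr rfl fun k _ => ?_
  have h1 := hno k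
  by_cases h4 : x ∈ B k <;> by_cases h5 : a ∈ B k <;> by_cases h6 : b ∈ B k <;>
    by_cases h7 : c ∈ B k <;> simp [h4, h5, h6, h7] at h1 ⊢

end Px

/-- data of the exceptional pattern. -/
structure Pex (B : ι → Finset V) (Q : Finset V) (T : Finset ι) (U : Finset V)
    (F : Finset (Finset V)) (j i k0 : ι) (a b c x : V) : Prop where
  px : Px B Q T U F j i a b c x
  ha : (univ.filter fun k => x ∈ B k ∧ a ∈ B k).card = 3
  hbc : (univ.filter fun k => x ∈ B k ∧ b ∈ B k).card +
    (univ.filter fun k => x ∈ B k ∧ c ∈ B k).card = 3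
  hno : ∀ k, x ∈ B k → a ∈ B k → b ∉ B k ∧ c ∉ B k
  xk : x ∉ B k0
  ak : a ∈ B k0
  bk : b ∈ B k0
  ck : c ∉ B k0
  all : ∀ k, a ∈ B k → x ∈ B k ∨ k = j ∨ k = k0
  hm : mh B b ((F.erase {x}).biUnion id) + mh B c ((F.erase {x}).biUnion id) = 4

/-- the hits of a triple on the other leaves. -/
theorem hit_other {Q U : Finset V} {T : Finset ι} {F : Finset (Finset V)} (h : Frm B Q T U F)
    {Y x : Finset V} : ∑ M ∈ F.erase x, hit B Y M = ∑ y ∈ Y, mh B y ((F.erase x).biUnion id) := by
  rw [← hit_biUnion Y (h.sepF.mono (erase_subset _ _)), hit_eq]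
  rfl

/-- **many hits on a point leaf.** -/
theorem MTQ.point_main [DecidableEq ι] {Q U : Finset V} {T : Finset ι} {F : Finset (Finset V)}
    (hq : MTQ B Q T U F) (hr : Reg B Q) {j : ι} (hj : j ∈ T) {x : V} (hx : {x} ∈ F)
    (hfree : ∀ L ∈ F, L ≠ {x} → ∀ Z ⊆ U, Z.card ≤ (nbF (gr B) (F \ {{x}, L}) Z).card)
    (htw : ∀ p ∈ B j ∩ Q, (univ.filter fun k => x ∈ B k ∧ p ∈ B k).card ≤ 3)
    (h6 : 6 ≤ hit B (B j ∩ Q) {x}) :
    ∑ M ∈ F.erase {x}, hit B (B j ∩ Q) M ≤ 2 ∨
      (hit B (B j ∩ Q) {x} = 6 ∧ (∑ M ∈ F.erase {x}, hit B (B j ∩ Q) M ≤ 3 ∨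
        ∃ (i k0 : ι) (a b c : V), Pex B Q T U F j i k0 a b c x)) := by
  classical
  have hf : Frm B Q T U F := hq.frm
  have hxD : x ∈ Dp B Q T := hf.FD hx (mem_singleton_self x)
  have hxQ : x ∈ Q := Frm.DQ hxD
  have hj3 := hf.mtp.tpk.pack.card j hj
  have hxj : x ∉ B j := fun h1 => Frm.T_notD hj h1 hxD
  -- a block through x with two points of the triple
  obtain ⟨i, hxi, hi2⟩ : ∃ i, x ∈ B i ∧ 2 ≤ (B i ∩ (B j ∩ Q)).card := by
    by_contra hcon
    push Not at hcon
    have h1 : hit B (B j ∩ Q) {x} ≤ 5 := by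
      unfold hit
      have h2 : ∑ i ∈ tch B {x}, (B i ∩ (B j ∩ Q)).card ≤ ∑ i ∈ tch B {x}, 1 := by
        refine sum_le_sum fun i hi => ?_
        have h3 := cost_mem_tch.1 hi
        obtain ⟨y, hy⟩ := h3
        obtain ⟨hy1, hy2⟩ := mem_inter.1 hy
        rw [mem_singleton] at hy2
        have h4 := hcon i (hy2 ▸ hy1)
        omega
      have h5 : (tch B {x}).card = 5 := by
        rw [← hr x hxQ]
        congr 1
        ext i
        rw [cost_mem_tch, mem_filter]
        constructor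
        · rintro ⟨y, hy⟩
          obtain ⟨hy1, hy2⟩ := mem_inter.1 hy
          rw [mem_singleton] at hy2
          exact ⟨mem_univ _, hy2 ▸ hy1⟩
        · rintro ⟨_, hi⟩
          exact ⟨x, mem_inter.2 ⟨hi, mem_singleton_self x⟩⟩
      rw [sum_const, h5] at h2
      simpa using h2
    omega
  -- the labels
  have hiQ3 := hf.reg3 i
  have hsub : insert x (B i ∩ (B j ∩ Q)) ⊆ B i ∩ Q := by
    intro v hv
    rcases mem_insert.1 hv with rfl | hv
    · exact mem_inter.2 ⟨hxi, hxQ⟩
    · exact mem_inter.2 ⟨(mem_inter.1 hv).1, (mem_inter.1 (mem_inter.1 hv).2).2⟩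
  have hxn : x ∉ B i ∩ (B j ∩ Q) := fun h1 => hxj (mem_inter.1 (mem_inter.1 h1).2).1
  have hcs := card_le_card hsub
  rw [card_insert_of_notMem hxn] at hcs
  have hi2' : (B i ∩ (B j ∩ Q)).card = 2 := by omega
  have hiQ : B i ∩ Q = insert x (B i ∩ (B j ∩ Q)) :=
    (eq_of_subset_of_card_le hsub (by rw [card_insert_of_notMem hxn]; omega)).symm
  obtain ⟨b, c, hbc, hbcs⟩ := card_eq_two.1 hi2'
  have hbj : b ∈ B j ∩ Q := (mem_inter.1 (by rw [hbcs]; simp : b ∈ B i ∩ (B j ∩ Q))).2
  have hcj : c ∈ B j ∩ Q := (mem_inter.1 (by rw [hbcs]; simp : c ∈ B i ∩ (B j ∩ Q))).2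
  obtain ⟨a, ha⟩ : ∃ a, (B j ∩ Q) \ {b, c} = {a} := by
    rw [← card_eq_one]
    have h1 : ({b, c} : Finset V) ⊆ B j ∩ Q := by
      intro v hv
      rcases mem_insert.1 hv with rfl | hv
      · exact hbj
      · rw [mem_singleton.1 hv]; exact hcj
    have h2 := card_sdiff_add_card_eq_card h1
    rw [card_pair hbc] at h2
    omega
  have haj : a ∈ (B j ∩ Q) \ {b, c} := by rw [ha]; simp
  have hjQ : B j ∩ Q = {a, b, c} := by
    ext v
    constructor
    · intro hv
      by_cases h1 : v ∈ ({b, c} : Finset V)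
      · exact mem_insert_of_mem h1
      · have h2 : v ∈ (B j ∩ Q) \ {b, c} := mem_sdiff.2 ⟨hv, h1⟩
        rw [ha] at h2
        rw [mem_singleton.1 h2]
        exact mem_insert_self _ _
    · intro hv
      rcases mem_insert.1 hv with rfl | hv
      · exact (mem_sdiff.1 haj).1
      · rcases mem_insert.1 hv with rfl | hv
        · exact hbj
        · rw [mem_singleton.1 hv]; exact hcj
  have hpx : Px B Q T U F j i a b c x :=
    ⟨hf, hj, hjQ, hx, hfree, by rw [hiQ, hbcs], by rw [hiQ, card_insert_of_notMem hxn, hi2']⟩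
  obtain ⟨hab, hac, _⟩ := hpx.ne
  obtain ⟨hxa, hxb, hxc⟩ := hpx.x_ne
  have hsumM : ∑ M ∈ F.erase {x}, hit B (B j ∩ Q) M =
      mh B b ((F.erase {x}).biUnion id) + mh B c ((F.erase {x}).biUnion id) := by
    rw [hit_other hf, hjQ, sum_insert (by simp [hab, hac]), sum_insert (by simp [hbc]),
      sum_singleton, hpx.a_zero, zero_add]
  have hsumx : hit B (B j ∩ Q) {x} = (univ.filter fun k => x ∈ B k ∧ a ∈ B k).card +
      ((univ.filter fun k => x ∈ B k ∧ b ∈ B k).card +
      (univ.filter fun k => x ∈ B k ∧ c ∈ B k).card) := by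
    have h1 : ∀ p, (univ.filter (fun k => p ∈ B k ∧ (B k ∩ {x}).Nonempty)) =
        univ.filter fun k => x ∈ B k ∧ p ∈ B k := by
      intro p
      ext k
      simp only [mem_filter, mem_univ, true_and]
      constructor
      · rintro ⟨h1, y, hy⟩
        obtain ⟨hy1, hy2⟩ := mem_inter.1 hy
        rw [mem_singleton] at hy2
        exact ⟨hy2 ▸ hy1, h1⟩
      · rintro ⟨h1, h2⟩
        exact ⟨h2, x, mem_inter.2 ⟨h1, mem_singleton_self x⟩⟩
    rw [hit_eq, hjQ, sum_insert (by simp [hab, hac]), sum_insert (by simp [hbc]),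
      sum_singleton, h1, h1, h1]
  -- one point sees at most two other blocks
  have hone : ∀ (y z : V) (k l : ι), y ∈ B j ∩ Q → k ≠ l → x ∈ B k → x ∈ B l → y ∈ B k →
      y ∈ B l → mh B y ((F.erase {x}).biUnion id) ≤ 2 := by
    intro y _ k l hyj hkl hxk hxl hyk hyl
    have hyQ := (mem_inter.1 hyj).2
    have h5 := hr y hyQ
    set S := univ.filter (fun i => y ∈ B i ∧ (B i ∩ (F.erase {x}).biUnion id).Nonempty) with hS
    have hsubs : insert k (insert l (insert j S)) ⊆ univ.filter fun i => y ∈ B i := by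
      intro m hm
      rcases mem_insert.1 hm with rfl | hm
      · exact mem_filter.2 ⟨mem_univ _, hyk⟩
      · rcases mem_insert.1 hm with rfl | hm
        · exact mem_filter.2 ⟨mem_univ _, hyl⟩
        · rcases mem_insert.1 hm with rfl | hm
          · exact mem_filter.2 ⟨mem_univ _, (mem_inter.1 hyj).1⟩
          · exact mem_filter.2 ⟨mem_univ _, (mem_filter.1 hm).2.1⟩
    have hjS : j ∉ S := by
      intro h1
      obtain ⟨_, _, z, hz⟩ := mem_filter.1 h1
      obtain ⟨hz1, hz2⟩ := mem_inter.1 hz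
      obtain ⟨L, hL, hzL⟩ := mem_biUnion.1 hz2
      exact Frm.T_notD hj hz1 (hf.FD (mem_erase.1 hL).2 hzL)
    have hlS : l ∉ insert j S := by
      intro h1
      rcases mem_insert.1 h1 with h1 | h1
      · exact hxj (h1 ▸ hxl)
      · exact hpx.x_sep hxl (mem_filter.1 h1).2.2
    have hkS : k ∉ insert l (insert j S) := by
      intro h1
      rcases mem_insert.1 h1 with h1 | h1
      · exact hkl h1
      · rcases mem_insert.1 h1 with h1 | h1
        · exact hxj (h1 ▸ hxk)
        · exact hpx.x_sep hxk (mem_filter.1 h1).2.2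
    have h6 := card_le_card hsubs
    rw [card_insert_of_notMem hkS, card_insert_of_notMem hlS, card_insert_of_notMem hjS, h5] at h6
    unfold mh
    rw [← hS]
    omega
  by_cases hno : ∀ k, x ∈ B k → a ∈ B k → b ∉ B k ∧ c ∉ B k
  · -- only the pair b, c
    have h1 := hpx.count hr
    have h2 := hpx.xbc hno
    have h4 := htw a (by rw [hjQ]; simp)
    by_cases h7 : ∑ M ∈ F.erase {x}, hit B (B j ∩ Q) M ≤ 2
    · exact Or.inl h7
    have habc : 1 ≤ (univ.filter fun k => x ∉ B k ∧ a ∈ B k ∧ b ∈ B k ∧ c ∈ B k).card := by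
      refine card_pos.2 ⟨j, mem_filter.2 ⟨mem_univ _, hxj, ?_, ?_, ?_⟩⟩
      · exact (mem_inter.1 (mem_sdiff.1 haj).1).1
      · exact (mem_inter.1 hbj).1
      · exact (mem_inter.1 hcj).1
    have hac5 := hpx.ac5 hr
    obtain ⟨m1, m2⟩ := mlt_le_of_no hno
    have h3 := hq.point2 hpx (by omega) (by omega)
    refine Or.inr ⟨by omega, ?_⟩
    by_cases h8 : ∑ M ∈ F.erase {x}, hit B (B j ∩ Q) M ≤ 3
    · exact Or.inl h8
    right
    -- the exceptional pattern
    have e1 : (univ.filter fun k => x ∉ B k ∧ a ∈ B k ∧ b ∈ B k ∧ c ∉ B k).card +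
        (univ.filter fun k => x ∉ B k ∧ a ∈ B k ∧ b ∉ B k ∧ c ∈ B k).card = 1 := by omega
    have e2 : (univ.filter fun k => x ∈ B k ∧ a ∈ B k).card = 3 := by omega
    have e3 : (univ.filter fun k => x ∈ B k ∧ b ∈ B k).card +
      (univ.filter fun k => x ∈ B k ∧ c ∈ B k).card = 3 := by omega
    have e4 : mh B b ((F.erase {x}).biUnion id) + mh B c ((F.erase {x}).biUnion id) = 4 := by
      omega
    have haQ := hpx.aQ
    -- the blocks of a
    have hall : ∀ k0, x ∉ B k0 → a ∈ B k0 → k0 ≠ j → ∀ k, a ∈ B k → x ∈ B k ∨ k = j ∨ k = k0 := by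
      intro k0 hxk0 hak0 hk0j k hak
      by_contra hcon
      push Not at hcon
      obtain ⟨h9, h10, h11⟩ := hcon
      have h12 : insert k (insert k0 (insert j (univ.filter fun k => x ∈ B k ∧ a ∈ B k))) ⊆
          univ.filter fun k => a ∈ B k := by
        intro m hm
        rcases mem_insert.1 hm with rfl | hm
        · exact mem_filter.2 ⟨mem_univ _, hak⟩
        · rcases mem_insert.1 hm with rfl | hm
          · exact mem_filter.2 ⟨mem_univ _, hak0⟩
          · rcases mem_insert.1 hm with rfl | hm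
            · exact mem_filter.2 ⟨mem_univ _, hpx.aj⟩
            · exact mem_filter.2 ⟨mem_univ _, (mem_filter.1 hm).2.2⟩
      have n1 : j ∉ univ.filter fun k => x ∈ B k ∧ a ∈ B k := fun h13 =>
        hxj (mem_filter.1 h13).2.1
      have n2 : k0 ∉ insert j (univ.filter fun k => x ∈ B k ∧ a ∈ B k) := by
        intro h13
        rcases mem_insert.1 h13 with h13 | h13
        · exact hk0j h13
        · exact hxk0 (mem_filter.1 h13).2.1
      have n3 : k ∉ insert k0 (insert j (univ.filter fun k => x ∈ B k ∧ a ∈ B k)) := by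
        intro h13
        rcases mem_insert.1 h13 with h13 | h13
        · exact h11 h13
        · rcases mem_insert.1 h13 with h13 | h13
          · exact h10 h13
          · exact h9 (mem_filter.1 h13).2.1
      have h14 := card_le_card h12
      rw [card_insert_of_notMem n3, card_insert_of_notMem n2, card_insert_of_notMem n1, e2,
        hr a haQ] at h14
      omega
    rcases (univ.filter fun k => x ∉ B k ∧ a ∈ B k ∧ b ∈ B k ∧ c ∉ B k).eq_empty_or_nonempty
      with h9 | ⟨k0, hk0⟩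
    · have h10 : 0 < (univ.filter fun k => x ∉ B k ∧ a ∈ B k ∧ b ∉ B k ∧ c ∈ B k).card := by
        rw [h9, card_empty] at e1
        omega
      obtain ⟨k0, hk0⟩ := card_pos.1 h10
      obtain ⟨_, p1, p2, p3, p4⟩ := mem_filter.1 hk0
      refine ⟨i, k0, a, c, b, ⟨⟨hf, hj, ?_, hx, hfree, ?_, ?_⟩, e2, by omega,
        fun k hk1 hk2 => (hno k hk1 hk2).symm, p1, p2, p4, p3, ?_, by omega⟩⟩
      · rw [hjQ, pair_comm]
      · rw [hiQ, hbcs, pair_comm]
      · rw [hiQ, card_insert_of_notMem hxn, hi2']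
      · refine hall k0 p1 p2 ?_
        rintro rfl
        exact p3 (mem_inter.1 hbj).1
    · obtain ⟨_, p1, p2, p3, p4⟩ := mem_filter.1 hk0
      refine ⟨i, k0, a, b, c, ⟨hpx, e2, e3, hno, p1, p2, p3, p4, ?_, e4⟩⟩
      refine hall k0 p1 p2 ?_
      rintro rfl
      exact p4 (mem_inter.1 hcj).1
  · -- two different pairs
    left
    push Not at hno
    obtain ⟨k, hxk, hak, hbck⟩ := hno
    have hbi : b ∈ B i := (mem_inter.1 (by rw [hbcs]; simp : b ∈ B i ∩ (B j ∩ Q))).1
    have hci : c ∈ B i := (mem_inter.1 (by rw [hbcs]; simp : c ∈ B i ∩ (B j ∩ Q))).1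
    have hai : a ∉ B i := by
      intro h1
      have h2 : a ∈ B i ∩ (B j ∩ Q) := mem_inter.2 ⟨h1, (mem_sdiff.1 haj).1⟩
      rw [hbcs] at h2
      exact (mem_sdiff.1 haj).2 h2
    have hki : k ≠ i := by
      rintro rfl
      exact hai hak
    -- the block k
    have hkQ : ∀ p ∈ ({b, c} : Finset V), p ∈ B k → B k ∩ Q = {x, a, p} := by
      intro p hp hpk
      have hpj : p ∈ B j ∩ Q := by
        rcases mem_insert.1 hp with rfl | hp
        · exact hbj
        · rw [mem_singleton.1 hp]; exact hcj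
      have hap : a ≠ p := by
        rintro rfl
        exact (mem_sdiff.1 haj).2 hp
      have hxp : x ≠ p := by
        rintro rfl
        exact hxj (mem_inter.1 hpj).1
      have h1 : ({x, a, p} : Finset V) ⊆ B k ∩ Q := by
        intro v hv
        simp only [mem_insert, mem_singleton] at hv
        rcases hv with rfl | rfl | rfl
        · exact mem_inter.2 ⟨hxk, hxQ⟩
        · exact mem_inter.2 ⟨hak, hpx.aQ⟩
        · exact mem_inter.2 ⟨hpk, (mem_inter.1 hpj).2⟩
      refine (eq_of_subset_of_card_le h1 ?_).symm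
      rw [card_eq_three.2 ⟨x, a, p, hxa, hxp, hap, rfl⟩]
      exact hf.reg3 k
    rw [hsumM]
    by_cases hbk : b ∈ B k
    · -- c sees only x
      have h1 := hkQ b (by simp) hbk
      have hpc : Px B Q T U F j k c a b x := by
        refine ⟨hf, hj, ?_, hx, hfree, h1, ?_⟩
        · rw [hjQ]
          ext v
          simp only [mem_insert, mem_singleton]
          tauto
        · rw [h1]
          exact card_eq_three.2 ⟨x, a, b, hxa, hxb, hab, rfl⟩
      rw [hpc.a_zero]
      have h2 := hone b b k i hbj hki hxk hxi hbk hbi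
      omega
    · have hck : c ∈ B k := hbck hbk
      have h1 := hkQ c (by simp) hck
      have hpb : Px B Q T U F j k b a c x := by
        refine ⟨hf, hj, ?_, hx, hfree, h1, ?_⟩
        · rw [hjQ]
          ext v
          simp only [mem_insert, mem_singleton]
          tauto
        · rw [h1]
          exact card_eq_three.2 ⟨x, a, c, hxa, hxc, hac, rfl⟩
      rw [hpb.a_zero]
      have h2 := hone c c k i hcj hki hxk hxi hck hci
      omega

end Pool.Agent.Hyp6
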