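import Pool.Agent.Hyp6.L3Msq

/-!
# HYP6 L3Mq: the sixth criterion of the frame

`Th B Q T`: the total weight of the traces of the blocks on the triples of `T` (weight 1 for two points,
3 for three points). `MTQ`: a frame of kind `MT3` with the largest `Th` among these. `MTQ.point`: the
inequality at a point leaf `x` (its own class) with a block `{x, b, c}`, `{a, b, c}` a triple of `T`.
-/

set_option autoImplicit false

namespace Pool.Agent.Hyp6

open Finset Pool.Agent.Hyp5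

universe u v

variable {V : Type v} [DecidableEq V] {ι : Type u} [Fintype ι] {B : ι → Finset V}

/-- the weight of a trace. -/
def wth (k : ℕ) : ℕ := if k = 2 then 1 else if k = 3 then 3 else 0

/-- the total weight of the traces on the triples. -/
def Th (B : ι → Finset V) (Q : Finset V) (T : Finset ι) : ℕ :=
  ∑ k ∈ T, ∑ l, wth (B l ∩ (B k ∩ Q)).card

/-- **order of the frames**: `MT3`, then the total weight as large as possible. -/
structure MTQ (B : ι → Finset V) (Q : Finset V) (T : Finset ι) (U : Finset V)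
    (F : Finset (Finset V)) : Prop extends MT3 B Q T U F where
  tmax : ∀ T' U' F', MT3 B Q T' U' F' → Th B Q T' ≤ Th B Q T

theorem exists_MTQ {Q : Finset V} (hc : Cov B Q) (h3 : Tr3 B Q) :
    ∃ (T : Finset ι) (U : Finset V) (F : Finset (Finset V)), MTQ B Q T U F := by
  classical
  obtain ⟨T0, U0, F0, h0⟩ := exists_MT3 (B := B) hc h3
  obtain ⟨T, hT, hmax⟩ := Finset.exists_max_image
    ((univ : Finset (Finset ι)).filter (fun T => ∃ U F, MT3 B Q T U F)) (Th B Q)
    ⟨T0, mem_filter.2 ⟨mem_univ _, U0, F0, h0⟩⟩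
  obtain ⟨U, F, hF⟩ := (mem_filter.1 hT).2
  exact ⟨T, U, F, hF, fun T' U' F' h' => hmax T' (mem_filter.2 ⟨mem_univ _, U', F', h'⟩)⟩

/-- **the inequality at a point leaf.** -/
theorem MTQ.point [DecidableEq ι] {Q U : Finset V} {T : Finset ι} {F : Finset (Finset V)}
    {j i : ι} {a b c x : V} (hq : MTQ B Q T U F) (h : Px B Q T U F j i a b c x)
    (hs : q3 (mlt B a b) + q3 (mlt B a c) ≤ q3 (mlt B x b) + q3 (mlt B x c)) :
    (univ.filter fun k => x ∈ B k ∧ a ∉ B k ∧ b ∈ B k ∧ c ∉ B k).card +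
      (univ.filter fun k => x ∈ B k ∧ a ∉ B k ∧ b ∉ B k ∧ c ∈ B k).card +
      2 * (univ.filter fun k => x ∈ B k ∧ a ∉ B k ∧ b ∈ B k ∧ c ∈ B k).card ≤
    (univ.filter fun k => x ∉ B k ∧ a ∈ B k ∧ b ∈ B k ∧ c ∉ B k).card +
      (univ.filter fun k => x ∉ B k ∧ a ∈ B k ∧ b ∉ B k ∧ c ∈ B k).card +
      2 * (univ.filter fun k => x ∉ B k ∧ a ∈ B k ∧ b ∈ B k ∧ c ∈ B k).card := by
  obtain ⟨U1, F1, h'⟩ := h.exists_new
  exact h.wt_ineq (w := wth) (by simp [wth]) (by simp [wth]) (by simp [wth]) (by simp [wth])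
    (hq.tmax _ _ _ (hq.toMT3.of_le (h.mtn hq.toMTN h') (h.T3_le hs)))

/-- the same if the pairs of `a` have at most two blocks. -/
theorem MTQ.point2 [DecidableEq ι] {Q U : Finset V} {T : Finset ι} {F : Finset (Finset V)}
    {j i : ι} {a b c x : V} (hq : MTQ B Q T U F) (h : Px B Q T U F j i a b c x)
    (h1 : mlt B a b ≤ 2) (h2 : mlt B a c ≤ 2) :
    (univ.filter fun k => x ∈ B k ∧ a ∉ B k ∧ b ∈ B k ∧ c ∉ B k).card +
      (univ.filter fun k => x ∈ B k ∧ a ∉ B k ∧ b ∉ B k ∧ c ∈ B k).card +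
      2 * (univ.filter fun k => x ∈ B k ∧ a ∉ B k ∧ b ∈ B k ∧ c ∈ B k).card ≤
    (univ.filter fun k => x ∉ B k ∧ a ∈ B k ∧ b ∈ B k ∧ c ∉ B k).card +
      (univ.filter fun k => x ∉ B k ∧ a ∈ B k ∧ b ∉ B k ∧ c ∈ B k).card +
      2 * (univ.filter fun k => x ∉ B k ∧ a ∈ B k ∧ b ∈ B k ∧ c ∈ B k).card :=
  hq.point h (by rw [q3_zero h1, q3_zero h2]; exact Nat.zero_le _)

end Pool.Agent.Hyp6
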