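import Pool.Agent.Hyp6.L3Mr

/-!
# HYP6 L3Mqs: the exchange at a point leaf at equality

`Px.mtq`: at equality in the inequality of the weights the exchanged frame is again of kind `MTQ`.
`Px.mtr`: if moreover the hits of `U` and the free places are equal, it is again of kind `MTR`.
-/

set_option autoImplicit false

namespace Pool.Agent.Hyp6

open Finset Pool.Agent.Hyp5

universe u v

variable {V : Type v} [DecidableEq V] {ι : Type u} [Fintype ι] {B : ι → Finset V}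
  {Q U : Finset V} {T : Finset ι} {F : Finset (Finset V)} {j i : ι} {a b c x : V}

/-- **the exchanged frame at equality.** -/
theorem Px.mtq [DecidableEq ι] (h : Px B Q T U F j i a b c x) (hq : MTQ B Q T U F)
    (heq : (univ.filter fun k => x ∉ B k ∧ a ∈ B k ∧ b ∈ B k ∧ c ∉ B k).card +
      (univ.filter fun k => x ∉ B k ∧ a ∈ B k ∧ b ∉ B k ∧ c ∈ B k).card +
      2 * (univ.filter fun k => x ∉ B k ∧ a ∈ B k ∧ b ∈ B k ∧ c ∈ B k).card ≤
    (univ.filter fun k => x ∈ B k ∧ a ∉ B k ∧ b ∈ B k ∧ c ∉ B k).card +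
      (univ.filter fun k => x ∈ B k ∧ a ∉ B k ∧ b ∉ B k ∧ c ∈ B k).card +
      2 * (univ.filter fun k => x ∈ B k ∧ a ∉ B k ∧ b ∈ B k ∧ c ∈ B k).card)
    (hsq : q3 (mlt B a b) + q3 (mlt B a c) ≤ q3 (mlt B x b) + q3 (mlt B x c)) :
    MTQ B Q (insert i (T.erase j)) U (insert {a} (F.erase {x})) := by
  obtain ⟨U1, F1, h'⟩ := h.exists_new
  obtain ⟨_, h2, h3⟩ := h.mte hq.toMTE h'
  have h1 := h.mtn hq.toMTN h'
  have h4 := h.F_new hq.toMTE h'
  subst h2
  subst h4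
  exact ⟨hq.toMT3.of_le h1 (h.T3_le hsq),
    fun T' U' F' hf' => (hq.tmax T' U' F' hf').trans (h.Th_le heq)⟩

/-- **the exchanged frame at full equality.** -/
theorem Px.mtr [DecidableEq ι] (h : Px B Q T U F j i a b c x) (hq : MTR B Q T U F)
    (heq : (univ.filter fun k => x ∉ B k ∧ a ∈ B k ∧ b ∈ B k ∧ c ∉ B k).card +
      (univ.filter fun k => x ∉ B k ∧ a ∈ B k ∧ b ∉ B k ∧ c ∈ B k).card +
      2 * (univ.filter fun k => x ∉ B k ∧ a ∈ B k ∧ b ∈ B k ∧ c ∈ B k).card ≤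
    (univ.filter fun k => x ∈ B k ∧ a ∉ B k ∧ b ∈ B k ∧ c ∉ B k).card +
      (univ.filter fun k => x ∈ B k ∧ a ∉ B k ∧ b ∉ B k ∧ c ∈ B k).card +
      2 * (univ.filter fun k => x ∈ B k ∧ a ∉ B k ∧ b ∈ B k ∧ c ∈ B k).card)
    (hsq : q3 (mlt B a b) + q3 (mlt B a c) ≤ q3 (mlt B x b) + q3 (mlt B x c))
    (hU : hit B U {x} ≤ hit B U {a}) (hfs : fs B Q {a} ≤ fs B Q {x}) :
    MTR B Q (insert i (T.erase j)) U (insert {a} (F.erase {x})) := by
  have h5 := h.mtq hq.toMTQ heq hsq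
  have h6 : ∑ L ∈ F, hit B U L ≤ ∑ L ∈ insert {a} (F.erase {x}), hit B U L := by
    rw [h.sum_new, ← add_sum_erase F _ h.hx]
    omega
  have h7 : ∑ L ∈ insert {a} (F.erase {x}), fs B Q L ≤ ∑ L ∈ F, fs B Q L := by
    rw [h.sum_new, ← add_sum_erase F _ h.hx]
    linarith
  refine ⟨h5, fun T' U' F' h' => (hq.hmax T' U' F' h').trans h6, fun T' U' F' h' hle => ?_⟩
  exact h7.trans (hq.fmin T' U' F' h' (h6.trans hle))

end Pool.Agent.Hyp6
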