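import Pool.Agent.Hyp6.L3Mn

/-!
# HYP6 L3Msq: the criterion of the frame before the weights

`mlt B y z`: the number of blocks of a pair. `TQ3 B Q T`: the number of pairs of the triples of `T` with at
least three blocks (each pair twice). `MT3`: a frame of kind `MTN` with the largest `TQ3`.
-/

set_option autoImplicit false

namespace Pool.Agent.Hyp6

open Finset Pool.Agent.Hyp5

universe u v

variable {V : Type v} [DecidableEq V] {ι : Type u} [Fintype ι] {B : ι → Finset V}

/-- the number of blocks of a pair. -/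
def mlt (B : ι → Finset V) (y z : V) : ℕ := (univ.filter fun l => y ∈ B l ∧ z ∈ B l).card

theorem mlt_comm (y z : V) : mlt B y z = mlt B z y := by
  unfold mlt
  congr 1
  ext l
  simp [and_comm]

/-- `1` if the number is at least three. -/
def q3 (n : ℕ) : ℕ := if 3 ≤ n then 1 else 0

theorem q3_zero {n : ℕ} (h : n ≤ 2) : q3 n = 0 := if_neg (by omega)

theorem q3_one {n : ℕ} (h : 3 ≤ n) : q3 n = 1 := if_pos h

/-- the pairs of one triple with at least three blocks (each pair twice). -/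
def t3j (B : ι → Finset V) (Q : Finset V) (k : ι) : ℕ :=
  ∑ y ∈ B k ∩ Q, ∑ z ∈ (B k ∩ Q).erase y, q3 (mlt B y z)

/-- the sum over the triples. -/
def TQ3 (B : ι → Finset V) (Q : Finset V) (T : Finset ι) : ℕ := ∑ k ∈ T, t3j B Q k

theorem t3j_eq {Q : Finset V} {k : ι} {a b c : V} (h : B k ∩ Q = {a, b, c}) (hab : a ≠ b)
    (hac : a ≠ c) (hbc : b ≠ c) :
    t3j B Q k = 2 * (q3 (mlt B a b) + q3 (mlt B a c) + q3 (mlt B b c)) := by
  unfold t3j
  rw [h]
  have e1 : ({a, b, c} : Finset V).erase a = {b, c} := by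
    ext z
    simp only [mem_erase, mem_insert, mem_singleton]
    constructor
    · rintro ⟨h1, h2 | h2⟩
      · exact absurd h2 h1
      · exact h2
    · rintro (rfl | rfl)
      · exact ⟨hab.symm, Or.inr (Or.inl rfl)⟩
      · exact ⟨hac.symm, Or.inr (Or.inr rfl)⟩
  have e2 : ({a, b, c} : Finset V).erase b = {a, c} := by
    ext z
    simp only [mem_erase, mem_insert, mem_singleton]
    constructor
    · rintro ⟨h1, h2 | h2 | h2⟩
      · exact Or.inl h2
      · exact absurd h2 h1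
      · exact Or.inr h2
    · rintro (rfl | rfl)
      · exact ⟨hab, Or.inl rfl⟩
      · exact ⟨hbc.symm, Or.inr (Or.inr rfl)⟩
  have e3 : ({a, b, c} : Finset V).erase c = {a, b} := by
    ext z
    simp only [mem_erase, mem_insert, mem_singleton]
    constructor
    · rintro ⟨h1, h2 | h2 | h2⟩
      · exact Or.inl h2
      · exact Or.inr h2
      · exact absurd h2 h1
    · rintro (rfl | rfl)
      · exact ⟨hac, Or.inl rfl⟩
      · exact ⟨hbc, Or.inr (Or.inl rfl)⟩
  have h1 : a ∉ ({b, c} : Finset V) := by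
    simp only [mem_insert, mem_singleton, not_or]
    exact ⟨hab, hac⟩
  rw [sum_insert h1, sum_pair hbc, e1, e2, e3, sum_pair hbc, sum_pair hac, sum_pair hab,
    mlt_comm b a, mlt_comm c a, mlt_comm c b]
  ring

theorem T3_swap [DecidableEq ι] {Q : Finset V} {T : Finset ι} {i j : ι} (hj : j ∈ T)
    (hi : i ∉ T.erase j) :
    TQ3 B Q (insert i (T.erase j)) + t3j B Q j = TQ3 B Q T + t3j B Q i := by
  unfold TQ3
  rw [sum_insert hi, ← add_sum_erase T _ hj]
  ring

/-- **order of the frames**: `MTN`, then the number of pairs with three blocks as large as possible. -/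
structure MT3 (B : ι → Finset V) (Q : Finset V) (T : Finset ι) (U : Finset V)
    (F : Finset (Finset V)) : Prop extends MTN B Q T U F where
  qmax : ∀ T' U' F', MTN B Q T' U' F' → TQ3 B Q T' ≤ TQ3 B Q T

theorem exists_MT3 {Q : Finset V} (hc : Cov B Q) (h3 : Tr3 B Q) :
    ∃ (T : Finset ι) (U : Finset V) (F : Finset (Finset V)), MT3 B Q T U F := by
  classical
  obtain ⟨T0, U0, F0, h0⟩ := exists_MTN (B := B) hc h3
  obtain ⟨T, hT, hmax⟩ := Finset.exists_max_image
    ((univ : Finset (Finset ι)).filter (fun T => ∃ U F, MTN B Q T U F)) (TQ3 B Q)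
    ⟨T0, mem_filter.2 ⟨mem_univ _, U0, F0, h0⟩⟩
  obtain ⟨U, F, hF⟩ := (mem_filter.1 hT).2
  exact ⟨T, U, F, hF, fun T' U' F' h' => hmax T' (mem_filter.2 ⟨mem_univ _, U', F', h'⟩)⟩

/-- an `MTN` frame with at least as many pairs is of kind `MT3`. -/
theorem MT3.of_le {Q U : Finset V} {T : Finset ι} {F : Finset (Finset V)} (hq : MT3 B Q T U F)
    {T' : Finset ι} {U' : Finset V} {F' : Finset (Finset V)} (hm : MTN B Q T' U' F')
    (hle : TQ3 B Q T ≤ TQ3 B Q T') : MT3 B Q T' U' F' :=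
  ⟨hm, fun T'' U'' F'' h'' => (hq.qmax T'' U'' F'' h'').trans hle⟩

namespace Px

variable {Q U : Finset V} {T : Finset ι} {F : Finset (Finset V)} {j i : ι} {a b c x : V}

theorem i_notT [DecidableEq ι] (h : Px B Q T U F j i a b c x) : i ∉ T.erase j := by
  intro h1
  obtain ⟨h2, h3⟩ := mem_erase.1 h1
  have h4 := h.dis i h3 h2
  rw [disjoint_self] at h4
  have h5 := h.hi3
  rw [h4] at h5
  simp at h5

theorem T3_eq [DecidableEq ι] (h : Px B Q T U F j i a b c x) :
    TQ3 B Q (insert i (T.erase j)) + 2 * (q3 (mlt B a b) + q3 (mlt B a c)) =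
      TQ3 B Q T + 2 * (q3 (mlt B x b) + q3 (mlt B x c)) := by
  have h1 := T3_swap (B := B) (Q := Q) h.hj h.i_notT
  obtain ⟨hab, hac, hbc⟩ := h.ne
  obtain ⟨_, hxb, hxc⟩ := h.x_ne
  rw [t3j_eq h.hjQ hab hac hbc, t3j_eq h.hiQ hxb hxc hbc] at h1
  omega

/-- the number of pairs does not drop at an exchange at a point leaf. -/
theorem T3_le [DecidableEq ι] (h : Px B Q T U F j i a b c x)
    (hs : q3 (mlt B a b) + q3 (mlt B a c) ≤ q3 (mlt B x b) + q3 (mlt B x c)) :
    TQ3 B Q T ≤ TQ3 B Q (insert i (T.erase j)) := by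
  have h1 := h.T3_eq
  omega

end Px

/-- **the inequality of the pairs at a point leaf.** -/
theorem MT3.point3 [DecidableEq ι] {Q U : Finset V} {T : Finset ι} {F : Finset (Finset V)}
    {j i : ι} {a b c x : V} (hq : MT3 B Q T U F) (h : Px B Q T U F j i a b c x) :
    q3 (mlt B x b) + q3 (mlt B x c) ≤ q3 (mlt B a b) + q3 (mlt B a c) := by
  obtain ⟨U1, F1, h'⟩ := h.exists_new
  have h1 := hq.qmax _ _ _ (h.mtn hq.toMTN h')
  have h2 := h.T3_eq
  omega

/-- the pairs of `a`, if no block of `x` and `a` contains `b` or `c`. -/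
theorem mlt_le_of_no {a b c x : V} (hno : ∀ k, x ∈ B k → a ∈ B k → b ∉ B k ∧ c ∉ B k) :
    mlt B a b ≤ (univ.filter fun k => x ∉ B k ∧ a ∈ B k ∧ b ∈ B k ∧ c ∉ B k).card +
      (univ.filter fun k => x ∉ B k ∧ a ∈ B k ∧ b ∈ B k ∧ c ∈ B k).card ∧
    mlt B a c ≤ (univ.filter fun k => x ∉ B k ∧ a ∈ B k ∧ b ∉ B k ∧ c ∈ B k).card +
      (univ.filter fun k => x ∉ B k ∧ a ∈ B k ∧ b ∈ B k ∧ c ∈ B k).card := by
  classical
  unfold mlt
  constructor
  · refine (card_le_card ?_).trans (card_union_le _ _)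
    intro k hk
    obtain ⟨_, h1, h2⟩ := mem_filter.1 hk
    have h3 : x ∉ B k := fun h4 => (hno k h4 h1).1 h2
    rw [mem_union, mem_filter, mem_filter]
    by_cases h4 : c ∈ B k
    · exact Or.inr ⟨mem_univ _, h3, h1, h2, h4⟩
    · exact Or.inl ⟨mem_univ _, h3, h1, h2, h4⟩
  · refine (card_le_card ?_).trans (card_union_le _ _)
    intro k hk
    obtain ⟨_, h1, h2⟩ := mem_filter.1 hk
    have h3 : x ∉ B k := fun h4 => (hno k h4 h1).2 h2
    rw [mem_union, mem_filter, mem_filter]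
    by_cases h4 : b ∈ B k
    · exact Or.inr ⟨mem_univ _, h3, h1, h4, h2⟩
    · exact Or.inl ⟨mem_univ _, h3, h1, h4, h2⟩

end Pool.Agent.Hyp6
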