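import Pool.Agent.Hyp6.L3Mb

/-!
# HYP6 L3Mt: the exchange at a point leaf

`Px`: the triple `{a, b, c}` of the packing, a point leaf `x` which is its own class, a block
`{x, b, c}`. The exchange of `{a, b, c}` against `{x, b, c}` replaces the leaf `{x}` by the leaf `{a}`:
`a` sees no leaf but `{x}` and no point of the even part, and in the frame `MTE` the exchanged packing
has a frame with the same `U` and the same even part, again of kind `MTE` (`Px.mte`).
-/

set_option autoImplicit false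

namespace Pool.Agent.Hyp6

open Finset Pool.Agent.Hyp5

universe u v

variable {V : Type v} [DecidableEq V] {ι : Type u} [Fintype ι] {B : ι → Finset V}

omit [Fintype ι] in
/-- no point of a tight barrier is critical. -/
theorem tight_not_crit {D Z : Finset V} {S : Finset (Finset V)} (hc : Cov B D) (h3 : Tr3 B D)
    (hpt : PT B D) (hZ : Z ⊆ D) (hS : OddSys (gr B) (D \ Z) S)
    (hv : sv B D = (Z.card : ℤ) - S.card) {z : V} (hz : z ∈ Z) :
    rho B (D.erase z) + 1 ≠ rho B D := by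
  intro hcr
  have hzD := hZ hz
  have hpt' := hpt.erase h3 hc (v := z) (by omega)
  have hsv : sv B (D.erase z) = sv B D + 1 := by
    have h2 := card_erase_add_one hzD
    unfold sv
    omega
  have hset : D.erase z \ Z.erase z = D \ Z := by
    ext y
    simp only [mem_sdiff, mem_erase]
    constructor
    · rintro ⟨⟨h1, h2⟩, h4⟩
      exact ⟨h2, fun h5 => h4 ⟨h1, h5⟩⟩
    · rintro ⟨h1, h2⟩
      have h4 : y ≠ z := by
        rintro rfl
        exact h2 hz
      exact ⟨⟨h4, h1⟩, fun h5 => h2 h5.2⟩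
  have h4 := berge (U' := Z.erase z) (F' := S) (hc.mono (erase_subset _ _))
    (h3.mono (erase_subset _ _)) hpt' (by rw [hset]; exact hS)
  have h5 := card_erase_add_one hz
  rw [hsv, hv] at h4
  have h6 : ((Z.erase z).card : ℤ) + 1 = Z.card := by exact_mod_cast h5
  linarith

/-- a block through a point leaf containing two points of a triple of the packing. -/
structure Px (B : ι → Finset V) (Q : Finset V) (T : Finset ι) (U : Finset V)
    (F : Finset (Finset V)) (j i : ι) (a b c x : V) : Prop where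
  frm : Frm B Q T U F
  hj : j ∈ T
  hjQ : B j ∩ Q = {a, b, c}
  hx : {x} ∈ F
  hfree : ∀ L ∈ F, L ≠ {x} → ∀ Z ⊆ U, Z.card ≤ (nbF (gr B) (F \ {{x}, L}) Z).card
  hiQ : B i ∩ Q = {x, b, c}
  hi3 : (B i ∩ Q).card = 3

namespace Px

variable {Q U : Finset V} {T : Finset ι} {F : Finset (Finset V)} {j i : ι} {a b c x : V}

omit [Fintype ι] in
theorem ne (h : Px B Q T U F j i a b c x) : a ≠ b ∧ a ≠ c ∧ b ≠ c := by
  have hj3 := h.frm.mtp.tpk.pack.card j h.hj
  have h1 := h.hjQ
  refine ⟨?_, ?_, ?_⟩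
  · rintro rfl
    rw [h1] at hj3
    have h2 := card_le_two (a := a) (b := c)
    simp only [mem_insert, true_or, insert_eq_of_mem] at hj3
    omega
  · rintro rfl
    rw [h1] at hj3
    have h2 := card_le_two (a := b) (b := a)
    simp only [mem_insert, mem_singleton, or_true, insert_eq_of_mem] at hj3
    omega
  · rintro rfl
    rw [h1] at hj3
    have h2 := card_le_two (a := a) (b := b)
    simp only [mem_singleton, insert_eq_of_mem] at hj3
    omega

omit [Fintype ι] in
theorem notD (h : Px B Q T U F j i a b c x) {z : V} (hz : z ∈ ({a, b, c} : Finset V)) :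
    z ∉ Dp B Q T := by
  rw [← h.hjQ] at hz
  exact Frm.T_notD h.hj (mem_inter.1 hz).1

omit [Fintype ι] in
theorem xD (h : Px B Q T U F j i a b c x) : x ∈ Dp B Q T := h.frm.FD h.hx (mem_singleton_self x)

omit [Fintype ι] in
theorem aQ (h : Px B Q T U F j i a b c x) : a ∈ Q :=
  (mem_inter.1 (by rw [h.hjQ]; simp : a ∈ B j ∩ Q)).2

omit [Fintype ι] in
theorem aj (h : Px B Q T U F j i a b c x) : a ∈ B j :=
  (mem_inter.1 (by rw [h.hjQ]; simp : a ∈ B j ∩ Q)).1

omit [Fintype ι] in
theorem set_eq (h : Px B Q T U F j i a b c x) :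
    (Dp B Q T ∪ (B j ∩ Q)) \ B i = insert a ((Dp B Q T).erase x) := by
  obtain ⟨hab, hac, hbc⟩ := h.ne
  have haD := h.notD (z := a) (by simp)
  have hbD := h.notD (z := b) (by simp)
  have hcD := h.notD (z := c) (by simp)
  have hbi : b ∈ B i := (mem_inter.1 (by rw [h.hiQ]; simp : b ∈ B i ∩ Q)).1
  have hci : c ∈ B i := (mem_inter.1 (by rw [h.hiQ]; simp : c ∈ B i ∩ Q)).1
  have hxi : x ∈ B i := (mem_inter.1 (by rw [h.hiQ]; simp : x ∈ B i ∩ Q)).1
  have hai : a ∉ B i := by
    intro h1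
    have h2 : a ∈ B i ∩ Q := mem_inter.2 ⟨h1, h.aQ⟩
    rw [h.hiQ] at h2
    simp only [mem_insert, mem_singleton] at h2
    rcases h2 with h2 | h2 | h2
    · exact haD (h2 ▸ h.xD)
    · exact hab h2
    · exact hac h2
  ext y
  rw [h.hjQ]
  simp only [mem_sdiff, mem_union, mem_insert, mem_singleton, mem_erase]
  constructor
  · rintro ⟨h1 | h1 | h1 | h1, h2⟩
    · exact Or.inr ⟨fun h3 => h2 (h3 ▸ hxi), h1⟩
    · exact Or.inl h1
    · exact absurd (h1 ▸ hbi) h2
    · exact absurd (h1 ▸ hci) h2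
  · rintro (h1 | ⟨h1, h2⟩)
    · exact ⟨Or.inr (Or.inl h1), h1 ▸ hai⟩
    · refine ⟨Or.inl h2, fun h3 => ?_⟩
      have h4 : y ∈ B i ∩ Q := mem_inter.2 ⟨h3, Frm.DQ h2⟩
      rw [h.hiQ] at h4
      simp only [mem_insert, mem_singleton] at h4
      rcases h4 with h4 | h4 | h4
      · exact h1 h4
      · exact hbD (h4 ▸ h2)
      · exact hcD (h4 ▸ h2)

omit [Fintype ι] in
theorem dis (h : Px B Q T U F j i a b c x) : ∀ k ∈ T, k ≠ j → Disjoint (B i ∩ Q) (B k ∩ Q) := by
  intro k hk hne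
  rw [h.hiQ, disjoint_left]
  intro y hy hyk
  simp only [mem_insert, mem_singleton] at hy
  rcases hy with rfl | rfl | rfl
  · exact Frm.T_notD hk (mem_inter.1 hyk).1 h.xD
  · exact disjoint_left.1 (h.frm.mtp.tpk.pack.disj k hk j h.hj hne) hyk (by rw [h.hjQ]; simp)
  · exact disjoint_left.1 (h.frm.mtp.tpk.pack.disj k hk j h.hj hne) hyk (by rw [h.hjQ]; simp)

omit [Fintype ι] in
theorem cov_a (h : Px B Q T U F j i a b c x) : Cov B ({a} : Finset V) := fun y hy =>
  ⟨j, by rw [mem_singleton.1 hy]; exact h.aj⟩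

omit [Fintype ι] in
theorem rho_a (h : Px B Q T U F j i a b c x) : rho B ({a} : Finset V) ≤ 1 :=
  rho_le_one (i := j) (by
    intro y hy
    rw [mem_singleton.1 hy]; exact h.aj)

omit [Fintype ι] in
theorem cov_new (h : Px B Q T U F j i a b c x) : Cov B (insert a ((Dp B Q T).erase x)) := by
  rw [insert_eq]
  exact h.cov_a.union (h.frm.covD.mono (erase_subset _ _))

theorem rho_erase (h : Px B Q T U F j i a b c x) :
    rho B ((Dp B Q T).erase x) + 1 = rho B (Dp B Q T) :=
  h.frm.crit_leaf h.hx (mem_singleton_self x)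

theorem rho_new_le (h : Px B Q T U F j i a b c x) :
    rho B (insert a ((Dp B Q T).erase x)) ≤ rho B (Dp B Q T) := by
  have h1 := rho_union_le h.cov_a (h.frm.covD.mono (erase_subset x (Dp B Q T)))
  rw [← insert_eq] at h1
  have h2 := h.rho_erase
  have h3 := h.rho_a
  omega

/-- the rest of the exchanged packing. -/
theorem Dp_new [DecidableEq ι] (h : Px B Q T U F j i a b c x) :
    Dp B Q (insert i (T.erase j)) = insert a ((Dp B Q T).erase x) := by
  obtain ⟨_, h1⟩ := h.frm.mtp.swap h.frm.cov h.hj h.hi3 h.dis (by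
    rw [h.set_eq]
    exact h.rho_new_le)
  rw [h1, h.set_eq]

theorem mtp_new [DecidableEq ι] (h : Px B Q T U F j i a b c x) :
    MTP B Q (insert i (T.erase j)) :=
  (h.frm.mtp.swap h.frm.cov h.hj h.hi3 h.dis (by
    rw [h.set_eq]
    exact h.rho_new_le)).1

theorem rho_new [DecidableEq ι] (h : Px B Q T U F j i a b c x) :
    rho B (insert a ((Dp B Q T).erase x)) = rho B (Dp B Q T) := by
  have hM := h.mtp_new
  have h1 := hM.tpk.opt
  have h2 := h.frm.rhoD
  have h3 := hM.max _ h.frm.mtp.tpk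
  have h4 := h.frm.mtp.max _ hM.tpk
  have h5 : Q \ (insert i (T.erase j)).biUnion B = insert a ((Dp B Q T).erase x) := h.Dp_new
  rw [h5] at h1
  omega

/-- replacing the leaf `{x}` and another leaf. -/
theorem two (h : Px B Q T U F j i a b c x) {X Z L : Finset V} (hL : L ∈ F) (hne : L ≠ {x})
    (hZ : Cov B Z) (hX : X ⊆ (Dp B Q T \ ({x} ∪ L)) ∪ Z) :
    rho B X + (1 + rho B L) ≤ rho B (Dp B Q T) + rho B Z := by
  have hfr : Frr B (Dp B Q T) {{x}, L} := h.frm.frr_of_hall (by
    intro C hC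
    rcases mem_insert.1 hC with rfl | hC
    · exact h.hx
    · rw [mem_singleton.1 hC]; exact hL) (h.hfree L hL hne)
  have h1 := hfr.rho_le h.frm.covD hZ (W := X) (by
    have h2 : ({{x}, L} : Finset (Finset V)).biUnion id = {x} ∪ L := by
      rw [biUnion_insert, singleton_biUnion]
      rfl
    rw [h2]
    exact hX)
  rw [sum_pair hne.symm] at h1
  have h5 : 1 ≤ rho B ({x} : Finset V) := by
    have h6 := rho_erase_fc (h.frm.ge.sys.fc _ h.hx) (h.frm.sv_leaf h.hx) (mem_singleton_self x)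
    omega
  omega

/-- `a` sees no leaf except `{x}`. -/
theorem a_leaf [DecidableEq ι] (h : Px B Q T U F j i a b c x) {L : Finset V} (hL : L ∈ F)
    (hne : L ≠ {x}) {y : V} (hy : y ∈ L) : ¬ (gr B).Adj a y := by
  intro hay
  have haD := h.notD (z := a) (by simp)
  have haL : a ∉ L := fun h1 => haD (h.frm.FD hL h1)
  have hcL : Cov B (insert a L) := by
    rw [insert_eq]
    exact h.cov_a.union (h.frm.covF L hL)
  have h1 := h.two (X := insert a ((Dp B Q T).erase x)) hL hne hcL (by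
    intro z hz
    rcases mem_insert.1 hz with rfl | hz
    · exact mem_union_right _ (mem_insert_self _ _)
    · obtain ⟨h2, h3⟩ := mem_erase.1 hz
      by_cases h4 : z ∈ L
      · exact mem_union_right _ (mem_insert_of_mem h4)
      · refine mem_union_left _ (mem_sdiff.2 ⟨h3, fun h5 => ?_⟩)
        rcases mem_union.1 h5 with h5 | h5
        · exact h2 (mem_singleton.1 h5)
        · exact h4 h5)
  have h2 := rho_insert_fc (h.frm.ge.sys.fc L hL) (h.frm.sv_leaf hL) ⟨y, hy, hay⟩ haL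
  have h3 := h.rho_new
  omega

/-- the points of the other leaves stay critical. -/
theorem crit_L [DecidableEq ι] (h : Px B Q T U F j i a b c x) {L : Finset V} (hL : L ∈ F)
    (hne : L ≠ {x}) {y : V} (hy : y ∈ L) : y ∈ Dp B Q (insert i (T.erase j)) ∧
    rho B ((Dp B Q (insert i (T.erase j))).erase y) + 1 =
      rho B (Dp B Q (insert i (T.erase j))) := by
  have haD := h.notD (z := a) (by simp)
  have hyx : y ≠ x := by
    rintro rfl
    exact disjoint_left.1 (h.frm.ge.sys.disj L hL {y} h.hx hne) hy (mem_singleton_self y)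
  rw [h.Dp_new]
  refine ⟨mem_insert_of_mem (mem_erase.2 ⟨hyx, h.frm.FD hL hy⟩), ?_⟩
  have hcL : Cov B (L.erase y) := (h.frm.covF L hL).mono (erase_subset _ _)
  have h1 := h.two (X := (insert a ((Dp B Q T).erase x)).erase y) hL hne
    (h.cov_a.union hcL) (by
    intro z hz
    obtain ⟨h2, h3⟩ := mem_erase.1 hz
    rcases mem_insert.1 h3 with h3 | h3
    · exact mem_union_right _ (mem_union_left _ (mem_singleton.2 h3))
    · obtain ⟨h4, h5⟩ := mem_erase.1 h3
      by_cases hyL : z ∈ L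
      · exact mem_union_right _ (mem_union_right _ (mem_erase.2 ⟨h2, hyL⟩))
      · refine mem_union_left _ (mem_sdiff.2 ⟨h5, fun h6 => ?_⟩)
        rcases mem_union.1 h6 with h6 | h6
        · exact h4 (mem_singleton.1 h6)
        · exact hyL h6)
  have h3 := rho_union_le h.cov_a hcL
  have h4 := rho_erase_fc (h.frm.ge.sys.fc L hL) (h.frm.sv_leaf hL) hy
  have h5 := h.rho_a
  have h6 := h.rho_new
  have h7 := rho_le_erase (x := y) h.cov_new
  omega

/-- `a` is critical after the exchange. -/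
theorem crit_a [DecidableEq ι] (h : Px B Q T U F j i a b c x) :
    a ∈ Dp B Q (insert i (T.erase j)) ∧
    rho B ((Dp B Q (insert i (T.erase j))).erase a) + 1 =
      rho B (Dp B Q (insert i (T.erase j))) := by
  rw [h.Dp_new]
  refine ⟨mem_insert_self _ _, ?_⟩
  have haD := h.notD (z := a) (by simp)
  have h1 : (insert a ((Dp B Q T).erase x)).erase a = (Dp B Q T).erase x :=
    erase_insert fun h1 => haD (mem_erase.1 h1).2
  rw [h1]
  have h2 := h.rho_erase
  have h3 := h.rho_new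
  omega

/-- the even part does not grow. -/
theorem E_sub [DecidableEq ι] (h : Px B Q T U F j i a b c x) {U1 : Finset V}
    {F1 : Finset (Finset V)} (h' : Frm B Q (insert i (T.erase j)) U1 F1) :
    Ep B Q (insert i (T.erase j)) U1 F1 ⊆ Ep B Q T U F := by
  refine h'.Ep_sub fun y hy hyE => ?_
  rw [h.Dp_new] at hy
  rcases mem_insert.1 hy with rfl | hy
  · exact Or.inl h.crit_a.2
  obtain ⟨h1, h2⟩ := mem_erase.1 hy
  rcases h.frm.three_cases h2 hyE with h3 | ⟨L, hL, hyL⟩
  · obtain ⟨L, hL, hne, z, hz, hyz⟩ := h.frm.U_sees h3 {x}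
    exact Or.inr ⟨z, (h.crit_L hL hne hz).1, (h.crit_L hL hne hz).2, hyz⟩
  · refine Or.inl (h.crit_L hL ?_ hyL).2
    rintro rfl
    exact h1 (mem_singleton.1 hyL)

/-- `a` sees no point of the even part in the frame with the smallest even part. -/
theorem a_E [DecidableEq ι] (h : Px B Q T U F j i a b c x)
    (hmin : ∀ (T' : Finset ι) (U' : Finset V) (F' : Finset (Finset V)),
      Frm B Q T' U' F' → (Ep B Q T U F).card ≤ (Ep B Q T' U' F').card) {e : V}
    (he : e ∈ Ep B Q T U F) : ¬ (gr B).Adj a e := fun hae =>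
  h.frm.no_E_point hmin h.hj h.hjQ h.hx h.hfree h.hiQ h.hi3 he hae.symm

/-- `U` stays in the new `U`. -/
theorem U_sub [DecidableEq ι] (h : Px B Q T U F j i a b c x)
    (haE : ∀ e ∈ Ep B Q T U F, ¬ (gr B).Adj a e) {U1 : Finset V}
    {F1 : Finset (Finset V)} (h' : Frm B Q (insert i (T.erase j)) U1 F1) : U ⊆ U1 := by
  have hf := h.frm
  have haD := h.notD (z := a) (by simp)
  have hUD : U ⊆ Dp B Q (insert i (T.erase j)) := by
    rw [h.Dp_new]
    intro u hu
    refine mem_insert_of_mem (mem_erase.2 ⟨?_, hf.ge.sub hu⟩)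
    rintro rfl
    exact disjoint_left.1 (hf.ge.FU _ h.hx) (mem_singleton_self u) hu
  have haU : a ∉ U := fun h1 => haD (hf.ge.sub h1)
  -- the odd system
  have haF : {a} ∉ F.erase {x} := fun h1 =>
    haD (hf.FD (mem_erase.1 h1).2 (mem_singleton_self a))
  have hS : OddSys (gr B) (Dp B Q (insert i (T.erase j)) \ U) (insert {a} (F.erase {x})) := by
    rw [h.Dp_new]
    refine ⟨fun C hC => ?_, fun C hC => ?_, fun C hC C' hC' hne => ?_⟩
    · rcases mem_insert.1 hC with rfl | hC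
      · refine ⟨fun y hy => ?_, fun y hy z hz hyz => ?_⟩
        · rw [mem_singleton] at hy
          subst hy
          exact mem_sdiff.2 ⟨mem_insert_self _ _, haU⟩
        · rw [mem_singleton] at hy
          subst hy
          obtain ⟨h1, h2⟩ := mem_sdiff.1 hz
          rcases mem_insert.1 h1 with h3 | h3
          · exact mem_singleton.2 h3
          · exfalso
            obtain ⟨h4, h5⟩ := mem_erase.1 h3
            by_cases hzE : z ∈ Ep B Q T U F
            · exact haE z hzE hyz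
            · rcases hf.three_cases h5 hzE with h6 | ⟨L, hL, hzL⟩
              · exact h2 h6
              · refine h.a_leaf hL ?_ hzL hyz
                rintro rfl
                exact h4 (mem_singleton.1 hzL)
      · obtain ⟨hne, hCF⟩ := mem_erase.1 hC
        have hxC : x ∉ C := fun h1 => disjoint_left.1 (hf.ge.sys.disj C hCF {x} h.hx hne) h1
          (mem_singleton_self x)
        refine ⟨fun y hy => ?_, fun y hy z hz hyz => ?_⟩
        · refine mem_sdiff.2 ⟨mem_insert_of_mem (mem_erase.2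
            ⟨fun he => hxC (he ▸ hy), hf.FD hCF hy⟩), fun h1 => ?_⟩
          exact disjoint_left.1 (hf.ge.FU C hCF) hy h1
        · obtain ⟨h1, h2⟩ := mem_sdiff.1 hz
          rcases mem_insert.1 h1 with h3 | h3
          · exact absurd (h3 ▸ hyz.symm) (h.a_leaf hCF hne hy)
          · exact (hf.ge.sys.closed C hCF).2 y hy z
              (mem_sdiff.2 ⟨(mem_erase.1 h3).2, h2⟩) hyz
    · rcases mem_insert.1 hC with rfl | hC
      · simp
      · exact (hf.ge.sys.fc C (mem_erase.1 hC).2).odd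
    · rcases mem_insert.1 hC with rfl | hC <;> rcases mem_insert.1 hC' with rfl | hC'
      · exact absurd rfl hne
      · rw [disjoint_singleton_left]
        exact fun h1 => haD (hf.FD (mem_erase.1 hC').2 h1)
      · rw [disjoint_singleton_right]
        exact fun h1 => haD (hf.FD (mem_erase.1 hC).2 h1)
      · exact hf.ge.sys.disj C (mem_erase.1 hC).2 C' (mem_erase.1 hC').2 hne
  have hval : sv B (Dp B Q (insert i (T.erase j))) =
      (U.card : ℤ) - (insert {a} (F.erase {x})).card := by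
    have h1 := h'.svD'
    have h2 := hf.svD'
    have h3 := hf.svD
    have h4 : (insert i (T.erase j)).card = T.card := by
      have h5 := h'.mtp.max _ hf.mtp.tpk
      have h6 := hf.mtp.max _ h'.mtp.tpk
      omega
    rw [card_insert_of_notMem haF, card_erase_add_one h.hx, h1, h4, ← h2, h3]
  intro u hu
  have hnc := tight_not_crit h'.covD h'.tr3D h'.pt hUD hS hval hu
  obtain ⟨L, hL, hne, z, hz, huz⟩ := hf.U_sees hu {x}
  have hnE := h'.notE_adjc (h.crit_L hL hne hz).1 (h.crit_L hL hne hz).2 huz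
  rcases h'.three_cases (hUD hu) hnE with h1 | ⟨L', hL', huL⟩
  · exact h1
  · exact absurd (h'.crit_leaf hL' huL) hnc

/-- **the exchanged packing is again of kind `MTE`**, with the same `U` and the same even part. -/
theorem mte [DecidableEq ι] (h : Px B Q T U F j i a b c x) (hm : MTE B Q T U F) {U1 : Finset V}
    {F1 : Finset (Finset V)} (h' : Frm B Q (insert i (T.erase j)) U1 F1) :
    MTE B Q (insert i (T.erase j)) U1 F1 ∧ U1 = U ∧
      Ep B Q (insert i (T.erase j)) U1 F1 = Ep B Q T U F := by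
  have h1 := h.E_sub h'
  have h2 := h.U_sub (fun e he => h.a_E hm.emin he) h'
  have h3 := card_le_card h1
  have h4 := card_le_card h2
  refine ⟨⟨h', fun T' U' F' hf' => ?_, fun T' U' F' hf' hle => ?_⟩, ?_, ?_⟩
  · have h5 := hm.emin T' U' F' hf'
    omega
  · have h5 := hm.umax T' U' F' hf' (by omega)
    omega
  · have h5 := hm.umax _ _ _ h' h3
    exact (eq_of_subset_of_card_le h2 h5).symm
  · exact eq_of_subset_of_card_le h1 (hm.emin _ _ _ h')

theorem exists_new [DecidableEq ι] (h : Px B Q T U F j i a b c x) :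
    ∃ (U1 : Finset V) (F1 : Finset (Finset V)), Frm B Q (insert i (T.erase j)) U1 F1 := by
  obtain ⟨U1, F1, hGE⟩ := exists_GE (gr B) (Q \ (insert i (T.erase j)).biUnion B)
  exact ⟨U1, F1, ⟨h.frm.reg3, h.frm.cov, h.mtp_new, hGE⟩⟩

omit [Fintype ι] in
theorem x_ne (h : Px B Q T U F j i a b c x) : x ≠ a ∧ x ≠ b ∧ x ≠ c :=
  ⟨fun h1 => h.notD (z := a) (by simp) (h1 ▸ h.xD),
    fun h1 => h.notD (z := b) (by simp) (h1 ▸ h.xD),
    fun h1 => h.notD (z := c) (by simp) (h1 ▸ h.xD)⟩

omit [Fintype ι] in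
/-- the weights of one block. -/
theorem block_wt {w : ℕ → ℕ} (w0 : w 0 = 0) (w1 : w 1 = 0) (w2 : w 2 = 1) (w3 : w 3 = 3)
    (h : Px B Q T U F j i a b c x) (k : ι) :
    w (B k ∩ {x, b, c}).card + ((if x ∉ B k ∧ a ∈ B k ∧ b ∈ B k ∧ c ∉ B k then 1 else 0) +
      (if x ∉ B k ∧ a ∈ B k ∧ b ∉ B k ∧ c ∈ B k then 1 else 0) +
      2 * (if x ∉ B k ∧ a ∈ B k ∧ b ∈ B k ∧ c ∈ B k then 1 else 0)) =
    w (B k ∩ {a, b, c}).card + ((if x ∈ B k ∧ a ∉ B k ∧ b ∈ B k ∧ c ∉ B k then 1 else 0) +
      (if x ∈ B k ∧ a ∉ B k ∧ b ∉ B k ∧ c ∈ B k then 1 else 0) +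
      2 * (if x ∈ B k ∧ a ∉ B k ∧ b ∈ B k ∧ c ∈ B k then 1 else 0)) := by
  obtain ⟨hab, hac, hbc⟩ := h.ne
  obtain ⟨hxa, hxb, hxc⟩ := h.x_ne
  have hcard : ∀ {p q r : V}, p ≠ q → p ≠ r → q ≠ r → (B k ∩ {p, q, r}).card =
      (if p ∈ B k then 1 else 0) + ((if q ∈ B k then 1 else 0) + (if r ∈ B k then 1 else 0)) := by
    intro p q r h1 h2 h3
    have h4 : B k ∩ {p, q, r} = ({p, q, r} : Finset V).filter (fun v => v ∈ B k) := by
      ext v
      rw [mem_inter, mem_filter]
      exact and_comm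
    rw [h4, card_filter, sum_insert (by simp [h1, h2]), sum_insert (by simp [h3]), sum_singleton]
  rw [hcard hxb hxc hbc, hcard hab hac hbc]
  by_cases h1 : x ∈ B k <;> by_cases h2 : a ∈ B k <;> by_cases h3 : b ∈ B k <;>
    by_cases h4 : c ∈ B k <;> simp [h1, h2, h3, h4, w0, w1, w2, w3]

/-- **comparison of the weights of the two packings**. -/
theorem wt_eq {w : ℕ → ℕ} (w0 : w 0 = 0) (w1 : w 1 = 0) (w2 : w 2 = 1) (w3 : w 3 = 3)
    (h : Px B Q T U F j i a b c x) :
    (∑ k, w (B k ∩ {x, b, c}).card) +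
      ((univ.filter fun k => x ∉ B k ∧ a ∈ B k ∧ b ∈ B k ∧ c ∉ B k).card +
      (univ.filter fun k => x ∉ B k ∧ a ∈ B k ∧ b ∉ B k ∧ c ∈ B k).card +
      2 * (univ.filter fun k => x ∉ B k ∧ a ∈ B k ∧ b ∈ B k ∧ c ∈ B k).card) =
    (∑ k, w (B k ∩ {a, b, c}).card) +
      ((univ.filter fun k => x ∈ B k ∧ a ∉ B k ∧ b ∈ B k ∧ c ∉ B k).card +
      (univ.filter fun k => x ∈ B k ∧ a ∉ B k ∧ b ∉ B k ∧ c ∈ B k).card +
      2 * (univ.filter fun k => x ∈ B k ∧ a ∉ B k ∧ b ∈ B k ∧ c ∈ B k).card) := by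
  simp only [card_filter, mul_sum, ← sum_add_distrib]
  refine sum_congr rfl fun k _ => ?_
  have h1 := h.block_wt w0 w1 w2 w3 k
  simpa only [mul_ite, mul_one, mul_zero] using h1

/-- **the inequality at a point leaf** in a frame for which the total weight of the exchanged packing
is not larger. -/
theorem wt_ineq [DecidableEq ι] {w : ℕ → ℕ} (w0 : w 0 = 0) (w1 : w 1 = 0) (w2 : w 2 = 1)
    (w3 : w 3 = 3) (h : Px B Q T U F j i a b c x)
    (htop : (∑ k ∈ insert i (T.erase j), ∑ l, w (B l ∩ (B k ∩ Q)).card) ≤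
      ∑ k ∈ T, ∑ l, w (B l ∩ (B k ∩ Q)).card) :
    (univ.filter fun k => x ∈ B k ∧ a ∉ B k ∧ b ∈ B k ∧ c ∉ B k).card +
      (univ.filter fun k => x ∈ B k ∧ a ∉ B k ∧ b ∉ B k ∧ c ∈ B k).card +
      2 * (univ.filter fun k => x ∈ B k ∧ a ∉ B k ∧ b ∈ B k ∧ c ∈ B k).card ≤
    (univ.filter fun k => x ∉ B k ∧ a ∈ B k ∧ b ∈ B k ∧ c ∉ B k).card +
      (univ.filter fun k => x ∉ B k ∧ a ∈ B k ∧ b ∉ B k ∧ c ∈ B k).card +
      2 * (univ.filter fun k => x ∉ B k ∧ a ∈ B k ∧ b ∈ B k ∧ c ∈ B k).card := by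
  have hiT : i ∉ T.erase j := by
    intro h1
    obtain ⟨h2, h3⟩ := mem_erase.1 h1
    have h4 := h.dis i h3 h2
    rw [disjoint_self] at h4
    have h5 := h.hi3
    rw [h4] at h5
    simp at h5
  rw [sum_insert hiT, ← add_sum_erase T _ h.hj] at htop
  have h1 : (∑ l, w (B l ∩ (B i ∩ Q)).card) ≤ ∑ l, w (B l ∩ (B j ∩ Q)).card := by
    exact Nat.le_of_add_le_add_right htop
  rw [h.hiQ, h.hjQ] at h1
  have h2 := h.wt_eq w0 w1 w2 w3
  omega

end Px

end Pool.Agent.Hyp6
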