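import Pool.Agent.Hyp6.L3K4

/-!
# HYP6 L3Mx: exchanges in the max-K frame with the smallest even part

`Frm.Ep_sub`: the even part of a second frame is contained in the even part of the first one if every
other point is critical or adjacent to a critical point.
`Frm.no_E_dead`: a triple `{a, b, c}` such that `U` together with `b, c` has surplus in the leaves: no
block `{a, x, y}` with `x, y` in the rest meets the even part.
`Frm.no_E_point`: a block `{m, b, c}` at a point leaf `m` (its own class): the third point `a` of the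
triple `{a, b, c}` sees no point of the even part.
`Frm.no_E_full`: the same for a full hit `{t, w, w'}` of `{t, x, y}` at a leaf `W` (its own class)
such that all the points of `W - w w'` can be missed.
-/

set_option autoImplicit false

namespace Pool.Agent.Hyp6

open Finset Pool.Agent.Hyp5

universe u v

variable {V : Type v} [DecidableEq V] {ι : Type u} [Fintype ι] {B : ι → Finset V}

namespace Frm

variable {Q U U' : Finset V} {T T' : Finset ι} {F F' : Finset (Finset V)}

/-- a critical point is not in the even part. -/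
theorem notE_crit (h : Frm B Q T U F) {v : V} (hv : v ∈ Dp B Q T)
    (hc : rho B ((Dp B Q T).erase v) + 1 = rho B (Dp B Q T)) : v ∉ Ep B Q T U F := fun hE =>
  disjoint_left.1 disE ((h.crit_iff hv).1 hc) hE

/-- a point adjacent to a critical point is not in the even part. -/
theorem notE_adjc (h : Frm B Q T U F) {v w : V} (hw : w ∈ Dp B Q T)
    (hc : rho B ((Dp B Q T).erase w) + 1 = rho B (Dp B Q T)) (hvw : (gr B).Adj v w) :
    v ∉ Ep B Q T U F := by
  intro hE
  obtain ⟨_, i, h1, h2⟩ := hvw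
  exact h.sepE i ⟨w, mem_inter.2 ⟨h2, (h.crit_iff hw).1 hc⟩⟩ ⟨v, mem_inter.2 ⟨h1, hE⟩⟩

/-- comparison of the even parts of two frames. -/
theorem Ep_sub (h' : Frm B Q T' U' F')
    (hcr : ∀ x ∈ Dp B Q T', x ∉ Ep B Q T U F →
      rho B ((Dp B Q T').erase x) + 1 = rho B (Dp B Q T') ∨
        ∃ w ∈ Dp B Q T', rho B ((Dp B Q T').erase w) + 1 = rho B (Dp B Q T') ∧ (gr B).Adj x w) :
    Ep B Q T' U' F' ⊆ Ep B Q T U F := by
  intro x hx
  by_contra hxE
  rcases hcr x (ED hx) hxE with h1 | ⟨w, hw, h1, h2⟩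
  · exact h'.notE_crit (ED hx) h1 hx
  · exact h'.notE_adjc hw h1 h2 hx

/-- the smallest even part: no point of it is lost. -/
theorem Ep_absurd (hmin : ∀ (T' : Finset ι) (U' : Finset V) (F' : Finset (Finset V)),
      Frm B Q T' U' F' → (Ep B Q T U F).card ≤ (Ep B Q T' U' F').card)
    (h' : Frm B Q T' U' F')
    (hcr : ∀ x ∈ Dp B Q T', x ∉ Ep B Q T U F →
      rho B ((Dp B Q T').erase x) + 1 = rho B (Dp B Q T') ∨
        ∃ w ∈ Dp B Q T', rho B ((Dp B Q T').erase w) + 1 = rho B (Dp B Q T') ∧ (gr B).Adj x w)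
    {e : V} (he : e ∈ Ep B Q T U F) (he' : e ∉ Ep B Q T' U' F') : False := by
  have h1 := h'.Ep_sub hcr
  have h2 : Ep B Q T' U' F' ⊂ Ep B Q T U F :=
    ⟨h1, fun h3 => he' (h3 he)⟩
  have h3 := card_lt_card h2
  have h4 := hmin _ _ _ h'
  omega

omit [Fintype ι] in
/-- every point of `U` sees a leaf different from a given one. -/
theorem U_sees (h : Frm B Q T U F) {u : V} (hu : u ∈ U) (C : Finset V) :
    ∃ L ∈ F, L ≠ C ∧ ∃ y ∈ L, (gr B).Adj u y := by
  have h1 := h.ge.surplus {u} (singleton_subset_iff.2 hu) (singleton_nonempty _)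
  rw [card_singleton] at h1
  have h2 := nbF_erase (G := gr B) (F := F) (Z := {u}) (C := C)
  have h3 : 0 < (nbF (gr B) (F.erase C) {u}).card := by omega
  obtain ⟨L, hL⟩ := card_pos.1 h3
  obtain ⟨h4, x, hx, y, hy, hxy⟩ := mem_nbF.1 hL
  rw [mem_singleton] at hx
  subst hx
  exact ⟨L, (mem_erase.1 h4).2, (mem_erase.1 h4).1, y, hy, hxy⟩

/-- removing two points of a leaf lowers its cover number. -/
theorem rho_two_drop (h : Frm B Q T U F) {W : Finset V} (hW : W ∈ F) {w w' : V} (hw : w ∈ W) :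
    rho B (W \ {w, w'}) + 1 ≤ rho B W := by
  have h1 := rho_erase_fc (h.ge.sys.fc W hW) (h.sv_leaf hW) hw
  have h2 : rho B (W \ {w, w'}) ≤ rho B (W.erase w) := by
    refine rho_mono ?_ ((h.covF W hW).mono (erase_subset _ _))
    intro v hv
    obtain ⟨h3, h4⟩ := mem_sdiff.1 hv
    exact mem_erase.2 ⟨fun he => h4 (by simp [he]), h3⟩
  omega

/-- adding points `P` which can be absorbed by the leaves with one point missed. -/
theorem rho_abs (h : Frm B Q T U F) {P : Finset V} (hP : P ⊆ Q) (hPD : Disjoint P (Dp B Q T))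
    {L : Finset V} (hL : L ∈ F) {v : V} (hv : v ∈ L)
    (hH : ∀ Z ⊆ U ∪ P, Z.card ≤ (nbF (gr B) (F.erase L) Z).card) :
    rho B ((Dp B Q T ∪ P).erase v) + 1 ≤ rho B (Dp B Q T) := by
  classical
  have : Nonempty V := ⟨v⟩
  obtain ⟨F1, φ, hF1, hcard, hφ, hinj, him⟩ := exists_match hH
  have hsub : F.erase L ⊆ F := erase_subset _ _
  have hq' : U ∪ F.biUnion id ∪ Ep B Q T U F = Dp B Q T := h.ge.set_eq
  have hset : (U ∪ P) ∪ (F.erase L).biUnion id ∪ (L.erase v ∪ Ep B Q T U F) =
      (Dp B Q T ∪ P).erase v := by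
    have hvP : v ∉ P := fun h1 => disjoint_left.1 hPD h1 (h.FD hL hv)
    have hvU : v ∉ U := fun h1 => disjoint_left.1 (h.ge.FU L hL) hv h1
    have hvE : v ∉ Ep B Q T U F := fun h1 => disjoint_left.1 (h.ge.FE L hL) hv h1
    rw [← hq']
    ext x
    simp only [mem_union, mem_biUnion, mem_erase, id]
    constructor
    · rintro (((hx | hx) | ⟨C', ⟨hne, hC'⟩, hx⟩) | ⟨hxv, hx⟩ | hx)
      · exact ⟨fun he => hvU (he ▸ hx), Or.inl (Or.inl (Or.inl hx))⟩
      · exact ⟨fun he => hvP (he ▸ hx), Or.inr hx⟩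
      · refine ⟨?_, Or.inl (Or.inl (Or.inr ⟨C', hC', hx⟩))⟩
        rintro rfl
        exact disjoint_left.1 (h.ge.sys.disj C' hC' L hL hne) hx hv
      · exact ⟨hxv, Or.inl (Or.inl (Or.inr ⟨L, hL, hx⟩))⟩
      · exact ⟨fun he => hvE (he ▸ hx), Or.inl (Or.inr hx)⟩
    · rintro ⟨hxv, ((hx | ⟨C', hC', hx⟩) | hx) | hx⟩
      · exact Or.inl (Or.inl (Or.inl hx))
      · by_cases he : C' = L
        · exact Or.inr (Or.inl ⟨hxv, he ▸ hx⟩)
        · exact Or.inl (Or.inr ⟨C', ⟨he, hC'⟩, hx⟩)
      · exact Or.inr (Or.inr hx)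
      · exact Or.inl (Or.inl (Or.inr hx))
  have hcov : Cov B ((Dp B Q T ∪ P).erase v) :=
    (h.covD.union (h.cov.mono hP)).mono (erase_subset _ _)
  have hdE : Disjoint (L.erase v) (Ep B Q T U F) :=
    (h.ge.FE L hL).mono_left (erase_subset _ _)
  have h1 := sv_ge_of_assignment (B := B) (A := U ∪ P) (R := L.erase v ∪ Ep B Q T U F)
    (F := F.erase L) (F1 := F1) (F2 := F.erase L \ F1) (F3 := ∅) (φ := φ)
    (by rw [hset]; exact hcov)
    (fun C hC => h.ge.sys.fc C (hsub hC))
    (fun C hC C' hC' => h.ge.sys.disj C (hsub hC) C' (hsub hC'))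
    (fun C hC => by
      rw [disjoint_union_right]
      exact ⟨h.ge.FU C (hsub hC), (hPD.mono_right (h.FD (hsub hC))).symm⟩)
    (fun C hC => by
      rw [disjoint_union_right]
      exact ⟨disjoint_of_subset_right (erase_subset _ _)
        (h.ge.sys.disj C (hsub hC) L hL (mem_erase.1 hC).1), h.ge.FE C (hsub hC)⟩)
    (by
      rw [disjoint_union_left, disjoint_union_right, disjoint_union_right]
      refine ⟨⟨disjoint_of_subset_right (erase_subset _ _) (h.ge.FU L hL).symm, ?_⟩,
        hPD.mono_right ((erase_subset _ _).trans (h.FD hL)), hPD.mono_right ED⟩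
      rw [disjoint_left]
      intro x hx hx'
      exact (mem_sdiff.1 (mem_sdiff.1 hx').1).2 hx)
    (by rw [union_empty, union_sdiff_of_subset hF1]) disjoint_sdiff (disjoint_empty_right _)
    (disjoint_empty_right _) hφ hinj him (by simp)
  rw [hset, card_empty] at h1
  have h2 := card_sdiff_add_card_eq_card hF1
  have h2' := card_erase_add_one hL
  have hdUP : Disjoint U P := (hPD.mono_right h.ge.sub).symm
  have h3 := pm_sv_nonneg ((h.ge.sys.fc L hL).2 v hv)
  have h4 := sv_union_ge (B := B) ((h.covF L hL).mono (erase_subset v L)) (h.covD.mono ED) hdE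
  have h5 := h.svE
  have h6 := h.svD
  rw [card_union_of_disjoint hdUP] at hcard
  have h8 := card_erase_add_one (s := Dp B Q T ∪ P) (a := v) (mem_union_left _ (h.FD hL hv))
  rw [card_union_of_disjoint hPD.symm] at h8
  push_cast at h1
  unfold sv at h1 h3 h4 h5 h6
  omega

/-- **dead points**: if `U` with `b` and `c` has surplus in the leaves, then a block through `a` with
its other points in the rest does not meet the even part. -/
theorem no_E_dead [DecidableEq ι] (h : Frm B Q T U F)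
    (hmin : ∀ (T' : Finset ι) (U' : Finset V) (F' : Finset (Finset V)),
      Frm B Q T' U' F' → (Ep B Q T U F).card ≤ (Ep B Q T' U' F').card)
    {i j : ι} (hj : j ∈ T) {a b c x y : V} (hjQ : B j ∩ Q = {a, b, c})
    (hS : ∀ Z ⊆ U ∪ {b, c}, Z.Nonempty → Z.card + 1 ≤ (nbF (gr B) F Z).card)
    (hiQ : B i ∩ Q = {a, x, y}) (hi3 : (B i ∩ Q).card = 3) (hx : x ∈ Ep B Q T U F)
    (hy : y ∈ Dp B Q T) : False := by
  have haj : a ∈ B j := (mem_inter.1 (by rw [hjQ]; simp : a ∈ B j ∩ Q)).1
  have hbj : b ∈ B j := (mem_inter.1 (by rw [hjQ]; simp : b ∈ B j ∩ Q)).1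
  have hcj : c ∈ B j := (mem_inter.1 (by rw [hjQ]; simp : c ∈ B j ∩ Q)).1
  have hbQ : b ∈ Q := (mem_inter.1 (by rw [hjQ]; simp : b ∈ B j ∩ Q)).2
  have hcQ : c ∈ Q := (mem_inter.1 (by rw [hjQ]; simp : c ∈ B j ∩ Q)).2
  have haD := T_notD (Q := Q) hj haj
  have hbD := T_notD (Q := Q) hj hbj
  have hcD := T_notD (Q := Q) hj hcj
  have hxD : x ∈ Dp B Q T := ED hx
  have hj3 := h.mtp.tpk.pack.card j hj
  have hbc : b ≠ c := by
    rintro rfl
    rw [hjQ] at hj3
    have h1 := card_le_two (a := a) (b := b)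
    simp only [mem_singleton, insert_eq_of_mem] at hj3
    omega
  have hab : a ≠ b := by
    rintro rfl
    rw [hjQ] at hj3
    have h1 := card_le_two (a := a) (b := c)
    simp only [mem_insert, true_or, insert_eq_of_mem] at hj3
    omega
  have hac : a ≠ c := by
    rintro rfl
    rw [hjQ] at hj3
    have h1 := card_le_two (a := b) (b := a)
    simp only [mem_insert, mem_singleton, or_true, insert_eq_of_mem] at hj3
    omega
  have hni : ∀ z ∈ Q, z ≠ a → z ∉ Dp B Q T → z ∉ B i := by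
    intro z hz hza hzD hzi
    have h1 : z ∈ B i ∩ Q := mem_inter.2 ⟨hzi, hz⟩
    rw [hiQ] at h1
    simp only [mem_insert, mem_singleton] at h1
    rcases h1 with h1 | h1 | h1
    · exact hza h1
    · exact hzD (h1 ▸ hxD)
    · exact hzD (h1 ▸ hy)
  have hbi := hni b hbQ hab.symm hbD
  have hci := hni c hcQ hac.symm hcD
  have hset := exch_set hjQ hiQ (DQ (B := B) (Q := Q) (T := T)) haD hbi hci
  have hP : ({b, c} : Finset V) ⊆ Q := by
    intro z hz
    rcases mem_insert.1 hz with rfl | hz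
    · exact hbQ
    · rw [mem_singleton.1 hz]; exact hcQ
  have hPD : Disjoint ({b, c} : Finset V) (Dp B Q T) := by
    rw [disjoint_left]
    intro z hz
    rcases mem_insert.1 hz with rfl | hz
    · exact hbD
    · rw [mem_singleton.1 hz]; exact hcD
  -- no point of a leaf is removed
  have hleaf : ∀ L ∈ F, ∀ v ∈ L, v ∉ ({x, y} : Finset V) := by
    intro L hL v hv hvxy
    rcases mem_insert.1 hvxy with rfl | h1
    · exact disjoint_left.1 (h.ge.FE L hL) hv hx
    · rw [mem_singleton] at h1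
      subst h1
      refine h.sepE i ⟨v, mem_inter.2 ⟨?_, mem_biUnion.2 ⟨L, hL, hv⟩⟩⟩ ⟨x, mem_inter.2 ⟨?_, hx⟩⟩
      · exact (mem_inter.1 (by rw [hiQ]; simp : v ∈ B i ∩ Q)).1
      · exact (mem_inter.1 (by rw [hiQ]; simp : x ∈ B i ∩ Q)).1
  have hHall : ∀ L ∈ F, ∀ Z ⊆ U ∪ {b, c}, Z.card ≤ (nbF (gr B) (F.erase L) Z).card := by
    intro L _ Z hZ
    rcases Z.eq_empty_or_nonempty with rfl | hne
    · simp
    · have h1 := hS Z hZ hne
      have h2 := nbF_erase (G := gr B) (F := F) (Z := Z) (C := L)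
      omega
  have hcovbc : Cov B (Dp B Q T ∪ {b, c}) := h.covD.union (h.cov.mono hP)
  have hmiss : ∀ L ∈ F, ∀ v ∈ L,
      rho B (((Dp B Q T \ {x, y}) ∪ {b, c}).erase v) + 1 ≤ rho B (Dp B Q T) := by
    intro L hL v hv
    have h1 := h.rho_abs hP hPD hL hv (hHall L hL)
    have h2 : rho B (((Dp B Q T \ {x, y}) ∪ {b, c}).erase v) ≤
        rho B ((Dp B Q T ∪ {b, c}).erase v) := by
      refine rho_mono (erase_subset_erase _ (union_subset_union sdiff_subset (Subset.refl _)))
        (hcovbc.mono (erase_subset _ _))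
    omega
  have hsee : ∀ p ∈ U ∪ {b, c}, ∃ L ∈ F, ∃ w ∈ L, (gr B).Adj p w := by
    intro p hp
    have h1 := hS {p} (singleton_subset_iff.2 hp) (singleton_nonempty _)
    have h2 : 0 < (nbF (gr B) F {p}).card := by omega
    obtain ⟨L, hL⟩ := card_pos.1 h2
    obtain ⟨h4, z, hz, w, hw, hzw⟩ := mem_nbF.1 hL
    rw [mem_singleton] at hz
    subst hz
    exact ⟨L, h4, w, hw, hzw⟩
  obtain ⟨L0, hL0, w0, hw0, _⟩ := hsee b (mem_union_right _ (by simp))
  have hcovn : Cov B ((Dp B Q T \ {x, y}) ∪ {b, c}) :=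
    hcovbc.mono (union_subset_union sdiff_subset (Subset.refl _))
  have hrho : rho B ((Dp B Q T ∪ (B j ∩ Q)) \ B i) ≤ rho B (Dp B Q T) := by
    rw [hset]
    have h1 := hmiss L0 hL0 w0 hw0
    have h2 := rho_le_erase (x := w0) hcovn
    omega
  obtain ⟨hM, hMset⟩ := h.mtp.swap h.cov hj hi3
    (h.exch_dis hj hjQ hiQ hxD hy) hrho
  rw [hset] at hMset
  obtain ⟨U1, F1, hGE⟩ := exists_GE (gr B) (Q \ (insert i (T.erase j)).biUnion B)
  have h' : Frm B Q (insert i (T.erase j)) U1 F1 := ⟨h.reg3, h.cov, hM, hGE⟩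
  have hrn : rho B (Dp B Q (insert i (T.erase j))) = rho B (Dp B Q T) := by
    have h1 := h'.rhoD
    have h2 := h.rhoD
    have h3 := hM.max _ h.mtp.tpk
    have h4 := h.mtp.max _ hM.tpk
    omega
  have hcrit : ∀ L ∈ F, ∀ v ∈ L, v ∈ Dp B Q (insert i (T.erase j)) ∧
      rho B ((Dp B Q (insert i (T.erase j))).erase v) + 1 =
        rho B (Dp B Q (insert i (T.erase j))) := by
    intro L hL v hv
    rw [hrn, hMset]
    refine ⟨mem_union_left _ (mem_sdiff.2 ⟨h.FD hL hv, hleaf L hL v hv⟩), ?_⟩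
    have h1 := hmiss L hL v hv
    have h2 := rho_le_erase (x := v) hcovn
    rw [← hMset, hrn] at h2
    rw [hMset] at h2
    omega
  refine Ep_absurd hmin h' (fun p hp hpE => ?_) hx (fun h1 => ?_)
  · rw [hMset] at hp
    have hq' : U ∪ F.biUnion id ∪ Ep B Q T U F = Dp B Q T := h.ge.set_eq
    have hcases : p ∈ F.biUnion id ∨ p ∈ U ∪ {b, c} := by
      rcases mem_union.1 hp with h1 | h1
      · have h2 := (mem_sdiff.1 h1).1
        rw [← hq'] at h2
        rcases mem_union.1 h2 with h2 | h2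
        · rcases mem_union.1 h2 with h2 | h2
          · exact Or.inr (mem_union_left _ h2)
          · exact Or.inl h2
        · exact absurd h2 hpE
      · exact Or.inr (mem_union_right _ h1)
    rcases hcases with h1 | h1
    · obtain ⟨L, hL, hpL⟩ := mem_biUnion.1 h1
      exact Or.inl (hcrit L hL p hpL).2
    · obtain ⟨L, hL, w, hw, hpw⟩ := hsee p h1
      exact Or.inr ⟨w, (hcrit L hL w hw).1, (hcrit L hL w hw).2, hpw⟩
  · have h2 := ED h1
    rw [hMset] at h2
    rcases mem_union.1 h2 with h2 | h2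
    · exact (mem_sdiff.1 h2).2 (by simp)
    · exact disjoint_left.1 hPD h2 hxD

omit [Fintype ι] in
/-- the frame after an exchange of one triple. -/
theorem exch_frame [DecidableEq ι] (h : Frm B Q T U F) {i j : ι} (hj : j ∈ T)
    (hi3 : (B i ∩ Q).card = 3) (hd : ∀ k ∈ T, k ≠ j → Disjoint (B i ∩ Q) (B k ∩ Q))
    (hrho : rho B ((Dp B Q T ∪ (B j ∩ Q)) \ B i) ≤ rho B (Dp B Q T)) :
    ∃ (U1 : Finset V) (F1 : Finset (Finset V)), Frm B Q (insert i (T.erase j)) U1 F1 ∧
      Dp B Q (insert i (T.erase j)) = (Dp B Q T ∪ (B j ∩ Q)) \ B i ∧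
      rho B ((Dp B Q T ∪ (B j ∩ Q)) \ B i) = rho B (Dp B Q T) := by
  obtain ⟨hM, hMset⟩ := h.mtp.swap h.cov hj hi3 hd hrho
  obtain ⟨U1, F1, hGE⟩ := exists_GE (gr B) (Q \ (insert i (T.erase j)).biUnion B)
  have h' : Frm B Q (insert i (T.erase j)) U1 F1 := ⟨h.reg3, h.cov, hM, hGE⟩
  refine ⟨U1, F1, h', hMset, ?_⟩
  have h1 := h'.rhoD
  have h2 := h.rhoD
  have h3 := hM.max _ h.mtp.tpk
  have h4 := h.mtp.max _ hM.tpk
  rw [← hMset]
  omega

/-- an exchange which loses a point of the even part. -/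
theorem exch_absurd [DecidableEq ι] (h : Frm B Q T U F)
    (hmin : ∀ (T' : Finset ι) (U' : Finset V) (F' : Finset (Finset V)),
      Frm B Q T' U' F' → (Ep B Q T U F).card ≤ (Ep B Q T' U' F').card)
    {i j : ι} (hj : j ∈ T)
    (hi3 : (B i ∩ Q).card = 3) (hd : ∀ k ∈ T, k ≠ j → Disjoint (B i ∩ Q) (B k ∩ Q))
    {D' : Finset V} (hD' : (Dp B Q T ∪ (B j ∩ Q)) \ B i = D')
    (hrho : rho B D' ≤ rho B (Dp B Q T)) {R : Finset V}
    (hR : ∀ x ∈ R, x ∈ D' ∧ rho B (D'.erase x) + 1 ≤ rho B (Dp B Q T))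
    (hcr : ∀ x ∈ D', x ∉ Ep B Q T U F → x ∈ R ∨ ∃ w ∈ R, (gr B).Adj x w)
    {e : V} (he : e ∈ Ep B Q T U F) (hlost : e ∈ B i ∨ ∃ w ∈ R, (gr B).Adj e w) : False := by
  obtain ⟨U1, F1, h', hset, heq⟩ := h.exch_frame hj hi3 hd (by rw [hD']; exact hrho)
  rw [hD'] at hset heq
  have hcov : Cov B D' := by
    rw [← hset]
    exact h'.covD
  have hR' : ∀ x ∈ R, x ∈ Dp B Q (insert i (T.erase j)) ∧
      rho B ((Dp B Q (insert i (T.erase j))).erase x) + 1 =
        rho B (Dp B Q (insert i (T.erase j))) := by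
    intro x hx
    obtain ⟨h1, h2⟩ := hR x hx
    have h3 := rho_le_erase (x := x) hcov
    rw [hset]
    exact ⟨h1, by omega⟩
  refine Ep_absurd hmin h' (fun x hx hxE => ?_) he ?_
  · rw [hset] at hx
    rcases hcr x hx hxE with h1 | ⟨w, hw, hxw⟩
    · exact Or.inl (hR' x h1).2
    · exact Or.inr ⟨w, (hR' w hw).1, (hR' w hw).2, hxw⟩
  · rcases hlost with h1 | ⟨w, hw, hew⟩
    · intro h2
      have h3 := ED h2
      rw [hset, ← hD'] at h3
      exact (mem_sdiff.1 h3).2 h1
    · exact h'.notE_adjc (hR' w hw).1 (hR' w hw).2 hew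

omit [Fintype ι] in
/-- a point of the rest is in a leaf, in `U` or in the even part. -/
theorem three_cases (h : Frm B Q T U F) {v : V} (hv : v ∈ Dp B Q T) (hE : v ∉ Ep B Q T U F) :
    v ∈ U ∨ ∃ L ∈ F, v ∈ L := by
  have hq' : U ∪ F.biUnion id ∪ Ep B Q T U F = Dp B Q T := h.ge.set_eq
  rw [← hq'] at hv
  rcases mem_union.1 hv with h1 | h1
  · rcases mem_union.1 h1 with h2 | h2
    · exact Or.inl h2
    · obtain ⟨L, hL, hvL⟩ := mem_biUnion.1 h2
      exact Or.inr ⟨L, hL, hvL⟩
  · exact absurd h1 hE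

/-- **a point leaf**: if the points `b`, `c` of the triple `{a, b, c}` are in a block with the point
leaf `m` (its own class), then `a` sees no point of the even part. -/
theorem no_E_point [DecidableEq ι] (h : Frm B Q T U F)
    (hmin : ∀ (T' : Finset ι) (U' : Finset V) (F' : Finset (Finset V)),
      Frm B Q T' U' F' → (Ep B Q T U F).card ≤ (Ep B Q T' U' F').card)
    {i j : ι} (hj : j ∈ T) {a b c m : V} (hjQ : B j ∩ Q = {a, b, c}) (hm : {m} ∈ F)
    (hfree : ∀ L ∈ F, L ≠ {m} → ∀ Z ⊆ U, Z.card ≤ (nbF (gr B) (F \ {{m}, L}) Z).card)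
    (hiQ : B i ∩ Q = {m, b, c}) (hi3 : (B i ∩ Q).card = 3) {e : V} (he : e ∈ Ep B Q T U F) :
    ¬ (gr B).Adj e a := by
  intro hea
  have haj : a ∈ B j := (mem_inter.1 (by rw [hjQ]; simp : a ∈ B j ∩ Q)).1
  have hbj : b ∈ B j := (mem_inter.1 (by rw [hjQ]; simp : b ∈ B j ∩ Q)).1
  have hcj : c ∈ B j := (mem_inter.1 (by rw [hjQ]; simp : c ∈ B j ∩ Q)).1
  have haQ : a ∈ Q := (mem_inter.1 (by rw [hjQ]; simp : a ∈ B j ∩ Q)).2
  have haD := T_notD (Q := Q) hj haj
  have hbD := T_notD (Q := Q) hj hbj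
  have hcD := T_notD (Q := Q) hj hcj
  have hmD : m ∈ Dp B Q T := h.FD hm (mem_singleton_self m)
  have hmE : m ∉ Ep B Q T U F := fun h1 =>
    disjoint_left.1 (h.ge.FE _ hm) (mem_singleton_self m) h1
  have hj3 := h.mtp.tpk.pack.card j hj
  have hab : a ≠ b := by
    rintro rfl
    rw [hjQ] at hj3
    have h1 := card_le_two (a := a) (b := c)
    simp only [mem_insert, true_or, insert_eq_of_mem] at hj3
    omega
  have hac : a ≠ c := by
    rintro rfl
    rw [hjQ] at hj3
    have h1 := card_le_two (a := b) (b := a)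
    simp only [mem_insert, mem_singleton, or_true, insert_eq_of_mem] at hj3
    omega
  have hbi : b ∈ B i := (mem_inter.1 (by rw [hiQ]; simp : b ∈ B i ∩ Q)).1
  have hci : c ∈ B i := (mem_inter.1 (by rw [hiQ]; simp : c ∈ B i ∩ Q)).1
  have hmi : m ∈ B i := (mem_inter.1 (by rw [hiQ]; simp : m ∈ B i ∩ Q)).1
  have hai : a ∉ B i := by
    intro h1
    have h2 : a ∈ B i ∩ Q := mem_inter.2 ⟨h1, haQ⟩
    rw [hiQ] at h2
    simp only [mem_insert, mem_singleton] at h2
    rcases h2 with h2 | h2 | h2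
    · exact haD (h2 ▸ hmD)
    · exact hab h2
    · exact hac h2
  have hset : (Dp B Q T ∪ (B j ∩ Q)) \ B i = insert a ((Dp B Q T).erase m) := by
    ext x
    rw [hjQ]
    simp only [mem_sdiff, mem_union, mem_insert, mem_singleton, mem_erase]
    constructor
    · rintro ⟨h1 | h1 | h1 | h1, h2⟩
      · exact Or.inr ⟨fun h3 => h2 (h3 ▸ hmi), h1⟩
      · exact Or.inl h1
      · exact absurd (h1 ▸ hbi) h2
      · exact absurd (h1 ▸ hci) h2
    · rintro (h1 | ⟨h1, h2⟩)
      · exact ⟨Or.inr (Or.inl h1), h1 ▸ hai⟩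
      · refine ⟨Or.inl h2, fun h3 => ?_⟩
        have h4 : x ∈ B i ∩ Q := mem_inter.2 ⟨h3, DQ h2⟩
        rw [hiQ] at h4
        simp only [mem_insert, mem_singleton] at h4
        rcases h4 with h4 | h4 | h4
        · exact h1 h4
        · exact hbD (h4 ▸ h2)
        · exact hcD (h4 ▸ h2)
  have hd : ∀ k ∈ T, k ≠ j → Disjoint (B i ∩ Q) (B k ∩ Q) := by
    intro k hk hne
    rw [hiQ, disjoint_left]
    intro x hx hxk
    simp only [mem_insert, mem_singleton] at hx
    rcases hx with rfl | rfl | rfl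
    · exact T_notD hk (mem_inter.1 hxk).1 hmD
    · exact disjoint_left.1 (h.mtp.tpk.pack.disj k hk j hj hne) hxk (by rw [hjQ]; simp)
    · exact disjoint_left.1 (h.mtp.tpk.pack.disj k hk j hj hne) hxk (by rw [hjQ]; simp)
  have hca : Cov B ({a} : Finset V) := fun x hx => ⟨j, by rw [mem_singleton.1 hx]; exact haj⟩
  have hra : rho B ({a} : Finset V) ≤ 1 := rho_le_one (i := j) (by
    intro x hx
    rw [mem_singleton.1 hx]; exact haj)
  have hcrm := h.crit_leaf hm (mem_singleton_self m)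
  have hcm : Cov B ((Dp B Q T).erase m) := h.covD.mono (erase_subset _ _)
  have hcn : Cov B (insert a ((Dp B Q T).erase m)) := by
    rw [insert_eq]
    exact hca.union hcm
  refine h.exch_absurd hmin hj hi3 hd hset ?_ (R := insert a ((F.erase {m}).biUnion id)) ?_ ?_ he
    (Or.inr ⟨a, mem_insert_self _ _, hea⟩)
  · have h1 := rho_union_le hca hcm
    rw [← insert_eq] at h1
    omega
  · intro x hx
    rcases mem_insert.1 hx with rfl | hx
    · refine ⟨mem_insert_self _ _, ?_⟩
      have h1 : (insert x ((Dp B Q T).erase m)).erase x ⊆ (Dp B Q T).erase m := by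
        intro y hy
        obtain ⟨h2, h3⟩ := mem_erase.1 hy
        rcases mem_insert.1 h3 with h3 | h3
        · exact absurd h3 h2
        · exact h3
      have h2 := rho_mono h1 hcm
      omega
    · obtain ⟨L, hL0, hxL0⟩ := mem_biUnion.1 hx
      obtain ⟨hne, hL⟩ := mem_erase.1 hL0
      have hxL : x ∈ L := hxL0
      clear hL0 hxL0
      have hxm : x ≠ m := by
        rintro rfl
        exact disjoint_left.1 (h.ge.sys.disj L hL {x} hm hne) hxL (mem_singleton_self x)
      refine ⟨mem_insert_of_mem (mem_erase.2 ⟨hxm, h.FD hL hxL⟩), ?_⟩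
      have hfr : Frr B (Dp B Q T) {{m}, L} := h.frr_of_hall (by
        intro C hC
        rcases mem_insert.1 hC with rfl | hC
        · exact hm
        · rw [mem_singleton.1 hC]; exact hL) (hfree L hL hne)
      have hcL : Cov B (L.erase x) := (h.covF L hL).mono (erase_subset _ _)
      have h1 : (insert a ((Dp B Q T).erase m)).erase x ⊆
          (Dp B Q T \ ({{m}, L} : Finset (Finset V)).biUnion id) ∪ ({a} ∪ L.erase x) := by
        intro y hy
        obtain ⟨h2, h3⟩ := mem_erase.1 hy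
        rcases mem_insert.1 h3 with h3 | h3
        · exact mem_union_right _ (mem_union_left _ (mem_singleton.2 h3))
        · obtain ⟨h4, h5⟩ := mem_erase.1 h3
          by_cases hyL : y ∈ L
          · exact mem_union_right _ (mem_union_right _ (mem_erase.2 ⟨h2, hyL⟩))
          · refine mem_union_left _ (mem_sdiff.2 ⟨h5, fun h6 => ?_⟩)
            obtain ⟨C, hC, hyC⟩ := mem_biUnion.1 h6
            rcases mem_insert.1 hC with rfl | hC
            · exact h4 (mem_singleton.1 hyC)
            · rw [mem_singleton] at hC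
              rw [hC] at hyC
              exact hyL hyC
      have h2 := hfr.rho_le h.covD (hca.union hcL) h1
      rw [sum_pair hne.symm] at h2
      have h3 := rho_union_le hca hcL
      have h4 := rho_erase_fc (h.ge.sys.fc L hL) (h.sv_leaf hL) hxL
      have h5 : 1 ≤ rho B ({m} : Finset V) := by
        have h6 := rho_erase_fc (h.ge.sys.fc _ hm) (h.sv_leaf hm) (mem_singleton_self m)
        omega
      omega
  · intro x hx hxE
    rcases mem_insert.1 hx with rfl | hx
    · exact Or.inl (mem_insert_self _ _)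
    obtain ⟨hxm, hxD⟩ := mem_erase.1 hx
    rcases h.three_cases hxD hxE with h1 | ⟨L, hL, hxL⟩
    · obtain ⟨L, hL, hne, y, hy, hxy⟩ := h.U_sees h1 {m}
      exact Or.inr ⟨y, mem_insert_of_mem (mem_biUnion.2 ⟨L, mem_erase.2 ⟨hne, hL⟩, hy⟩), hxy⟩
    · refine Or.inl (mem_insert_of_mem (mem_biUnion.2 ⟨L, mem_erase.2 ⟨?_, hL⟩, hxL⟩))
      rintro rfl
      exact hxm (mem_singleton.1 hxL)

/-- **a full hit at a small leaf**: the triple `{t, x, y}` has a full hit `{t, w, w'}` at the leaf `W`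
(its own class) and all the points of `W - w w'` can be missed. If `y` sees a point of `W - w w'` or
another leaf then `x` sees no point of the even part. -/
theorem no_E_full [DecidableEq ι] (h : Frm B Q T U F)
    (hmin : ∀ (T' : Finset ι) (U' : Finset V) (F' : Finset (Finset V)),
      Frm B Q T' U' F' → (Ep B Q T U F).card ≤ (Ep B Q T' U' F').card)
    {i j : ι} (hj : j ∈ T) {t x y w w' : V} (hjQ : B j ∩ Q = {t, x, y}) {W : Finset V}
    (hW : W ∈ F)
    (hfree : ∀ L ∈ F, L ≠ W → ∀ Z ⊆ U, Z.card ≤ (nbF (gr B) (F \ {W, L}) Z).card)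
    (hiQ : B i ∩ Q = {t, w, w'}) (hi3 : (B i ∩ Q).card = 3) (hw : w ∈ W) (hw' : w' ∈ W)
    (hWm : ∀ v ∈ W \ {w, w'}, rho B ((W \ {w, w'}).erase v) + 2 ≤ rho B W)
    (hy : (∃ z ∈ W \ {w, w'}, (gr B).Adj y z) ∨ ∃ L ∈ F, L ≠ W ∧ ∃ z ∈ L, (gr B).Adj y z)
    {e : V} (he : e ∈ Ep B Q T U F) : ¬ (gr B).Adj e x := by
  intro hex
  have htj : t ∈ B j := (mem_inter.1 (by rw [hjQ]; simp : t ∈ B j ∩ Q)).1
  have hxj : x ∈ B j := (mem_inter.1 (by rw [hjQ]; simp : x ∈ B j ∩ Q)).1
  have hyj : y ∈ B j := (mem_inter.1 (by rw [hjQ]; simp : y ∈ B j ∩ Q)).1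
  have hxQ : x ∈ Q := (mem_inter.1 (by rw [hjQ]; simp : x ∈ B j ∩ Q)).2
  have hyQ : y ∈ Q := (mem_inter.1 (by rw [hjQ]; simp : y ∈ B j ∩ Q)).2
  have htD := T_notD (Q := Q) hj htj
  have hxD := T_notD (Q := Q) hj hxj
  have hyD := T_notD (Q := Q) hj hyj
  have hwD : w ∈ Dp B Q T := h.FD hW hw
  have hwD' : w' ∈ Dp B Q T := h.FD hW hw'
  have hj3 := h.mtp.tpk.pack.card j hj
  have htx : t ≠ x := by
    rintro rfl
    rw [hjQ] at hj3
    have h1 := card_le_two (a := t) (b := y)
    simp only [mem_insert, true_or, insert_eq_of_mem] at hj3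
    omega
  have hty : t ≠ y := by
    rintro rfl
    rw [hjQ] at hj3
    have h1 := card_le_two (a := x) (b := t)
    simp only [mem_insert, mem_singleton, or_true, insert_eq_of_mem] at hj3
    omega
  have hxy : x ≠ y := by
    rintro rfl
    rw [hjQ] at hj3
    have h1 := card_le_two (a := t) (b := x)
    simp only [mem_singleton, insert_eq_of_mem] at hj3
    omega
  have hni : ∀ z ∈ Q, z ≠ t → z ∉ Dp B Q T → z ∉ B i := by
    intro z hz hza hzD hzi
    have h1 : z ∈ B i ∩ Q := mem_inter.2 ⟨hzi, hz⟩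
    rw [hiQ] at h1
    simp only [mem_insert, mem_singleton] at h1
    rcases h1 with h1 | h1 | h1
    · exact hza h1
    · exact hzD (h1 ▸ hwD)
    · exact hzD (h1 ▸ hwD')
  have hxi := hni x hxQ htx.symm hxD
  have hyi := hni y hyQ hty.symm hyD
  have hset := exch_set hjQ hiQ (DQ (B := B) (Q := Q) (T := T)) htD hxi hyi
  have hWE : ∀ v ∈ W, v ∉ Ep B Q T U F := fun v hv h1 => disjoint_left.1 (h.ge.FE _ hW) hv h1
  have hcy : Cov B ({y} : Finset V) := fun z hz => ⟨j, by rw [mem_singleton.1 hz]; exact hyj⟩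
  have hcxy : Cov B ({x, y} : Finset V) := by
    intro z hz
    rcases mem_insert.1 hz with rfl | hz
    · exact ⟨j, hxj⟩
    · rw [mem_singleton.1 hz]; exact ⟨j, hyj⟩
  have hrxy : rho B ({x, y} : Finset V) ≤ 1 := rho_le_one (i := j) (by
    intro z hz
    rcases mem_insert.1 hz with rfl | hz
    · exact hxj
    · rw [mem_singleton.1 hz]; exact hyj)
  have hcW2 : Cov B (W \ {w, w'}) := (h.covF W hW).mono sdiff_subset
  have hrW2 : rho B (W \ {w, w'}) + 1 ≤ rho B W :=
    h.rho_two_drop hW hw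
  -- replacing W
  have hone : ∀ {X Z : Finset V}, Cov B Z → X ⊆ (Dp B Q T \ W) ∪ Z →
      rho B X + rho B W ≤ rho B (Dp B Q T) + rho B Z := by
    intro X Z hZ hX
    have h1 := (h.frr_single hW).rho_le h.covD hZ (W := X) (by
      rw [singleton_biUnion]
      exact hX)
    rwa [sum_singleton] at h1
  have htwo : ∀ {X Z L : Finset V}, L ∈ F → L ≠ W → Cov B Z → X ⊆ (Dp B Q T \ (W ∪ L)) ∪ Z →
      rho B X + (rho B W + rho B L) ≤ rho B (Dp B Q T) + rho B Z := by
    intro X Z L hL hne hZ hX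
    have hfr : Frr B (Dp B Q T) {W, L} := h.frr_of_hall (by
      intro C hC
      rcases mem_insert.1 hC with rfl | hC
      · exact hW
      · rw [mem_singleton.1 hC]; exact hL) (hfree L hL hne)
    have h1 := hfr.rho_le h.covD hZ (W := X) (by
      have h2 : ({W, L} : Finset (Finset V)).biUnion id = W ∪ L := by
        rw [biUnion_insert, singleton_biUnion]
        rfl
      rw [h2]
      exact hX)
    rwa [sum_pair hne.symm] at h1
  have hsubW : Dp B Q T \ {w, w'} ⊆ (Dp B Q T \ W) ∪ (W \ {w, w'}) := by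
    intro z hz
    obtain ⟨h1, h2⟩ := mem_sdiff.1 hz
    by_cases h3 : z ∈ W
    · exact mem_union_right _ (mem_sdiff.2 ⟨h3, h2⟩)
    · exact mem_union_left _ (mem_sdiff.2 ⟨h1, h3⟩)
  have hL' : ∀ L ∈ F, L ≠ W → ∀ v ∈ L, v ∉ ({w, w'} : Finset V) := by
    intro L hL hne v hv hvw
    refine disjoint_left.1 (h.ge.sys.disj L hL W hW hne) hv ?_
    rcases mem_insert.1 hvw with rfl | h1
    · exact hw
    · rw [mem_singleton.1 h1]; exact hw'
  refine h.exch_absurd hmin hj hi3 (h.exch_dis hj hjQ hiQ hwD hwD') hset ?_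
    (R := insert x ((W \ {w, w'}) ∪ (F.erase W).biUnion id)) ?_ ?_ he
    (Or.inr ⟨x, mem_insert_self _ _, hex⟩)
  · have h1 := hone (X := (Dp B Q T \ {w, w'}) ∪ {x, y}) (hcW2.union hcxy) (by
      rw [← union_assoc]
      exact union_subset_union hsubW (Subset.refl _))
    have h2 := rho_union_le hcW2 hcxy
    omega
  · intro v hv
    rcases mem_insert.1 hv with rfl | hv
    · -- the point x
      refine ⟨mem_union_right _ (by simp), ?_⟩
      have hsx : ((Dp B Q T \ {w, w'}) ∪ {v, y}).erase v ⊆ (Dp B Q T \ {w, w'}) ∪ {y} := by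
        intro z hz
        obtain ⟨h1, h2⟩ := mem_erase.1 hz
        rcases mem_union.1 h2 with h3 | h3
        · exact mem_union_left _ h3
        · rcases mem_insert.1 h3 with h3 | h3
          · exact absurd h3 h1
          · exact mem_union_right _ h3
      rcases hy with ⟨z, hz, hyz⟩ | ⟨L, hL, hne, z, hz, hyz⟩
      · obtain ⟨_, l, hyl, hzl⟩ := hyz
        have hcp : Cov B ({y, z} : Finset V) := by
          intro p hp
          rcases mem_insert.1 hp with rfl | hp
          · exact ⟨l, hyl⟩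
          · rw [mem_singleton.1 hp]; exact ⟨l, hzl⟩
        have hrp : rho B ({y, z} : Finset V) ≤ 1 := rho_le_one (i := l) (by
          intro p hp
          rcases mem_insert.1 hp with rfl | hp
          · exact hyl
          · rw [mem_singleton.1 hp]; exact hzl)
        have hcW3 : Cov B ((W \ {w, w'}).erase z) := hcW2.mono (erase_subset _ _)
        have h1 := hone (X := ((Dp B Q T \ {w, w'}) ∪ {v, y}).erase v) (hcW3.union hcp) (by
          intro p hp
          rcases mem_union.1 (hsx hp) with h2 | h2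
          · rcases mem_union.1 (hsubW h2) with h3 | h3
            · exact mem_union_left _ h3
            · by_cases h4 : p = z
              · exact mem_union_right _ (mem_union_right _ (by simp [h4]))
              · exact mem_union_right _ (mem_union_left _ (mem_erase.2 ⟨h4, h3⟩))
          · rw [mem_singleton] at h2
            exact mem_union_right _ (mem_union_right _ (by simp [h2])))
        have h2 := rho_union_le hcW3 hcp
        have h3 := hWm z hz
        omega
      · have hyL : y ∉ L := fun h1 => hyD (h.FD hL h1)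
        have hcyL : Cov B (insert y L) := by
          rw [insert_eq]
          exact hcy.union (h.covF L hL)
        have h1 := htwo (X := ((Dp B Q T \ {w, w'}) ∪ {v, y}).erase v) hL hne
          (hcW2.union hcyL) (by
          intro p hp
          rcases mem_union.1 (hsx hp) with h2 | h2
          · rcases mem_union.1 (hsubW h2) with h3 | h3
            · by_cases h4 : p ∈ L
              · exact mem_union_right _ (mem_union_right _ (mem_insert_of_mem h4))
              · refine mem_union_left _ (mem_sdiff.2 ⟨(mem_sdiff.1 h3).1, fun h5 => ?_⟩)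
                rcases mem_union.1 h5 with h5 | h5
                · exact (mem_sdiff.1 h3).2 h5
                · exact h4 h5
            · exact mem_union_right _ (mem_union_left _ h3)
          · rw [mem_singleton] at h2
            exact mem_union_right _ (mem_union_right _ (by simp [h2])))
        have h2 := rho_union_le hcW2 hcyL
        have h3 := rho_insert_fc (h.ge.sys.fc L hL) (h.sv_leaf hL) ⟨z, hz, hyz⟩ hyL
        omega
    rcases mem_union.1 hv with hv | hv
    · -- a point of W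
      obtain ⟨hvW, hvw⟩ := mem_sdiff.1 hv
      refine ⟨mem_union_left _ (mem_sdiff.2 ⟨h.FD hW hvW, hvw⟩), ?_⟩
      have hcW3 : Cov B ((W \ {w, w'}).erase v) := hcW2.mono (erase_subset _ _)
      have h1 := hone (X := ((Dp B Q T \ {w, w'}) ∪ {x, y}).erase v) (hcW3.union hcxy) (by
        intro p hp
        obtain ⟨h1, h2⟩ := mem_erase.1 hp
        rcases mem_union.1 h2 with h2 | h2
        · rcases mem_union.1 (hsubW h2) with h3 | h3
          · exact mem_union_left _ h3
          · exact mem_union_right _ (mem_union_left _ (mem_erase.2 ⟨h1, h3⟩))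
        · exact mem_union_right _ (mem_union_right _ h2))
      have h2 := rho_union_le hcW3 hcxy
      have h3 := hWm v hv
      omega
    · -- a point of another leaf
      obtain ⟨L, hL0, hvL0⟩ := mem_biUnion.1 hv
      obtain ⟨hne, hL⟩ := mem_erase.1 hL0
      have hvL : v ∈ L := hvL0
      clear hL0 hvL0
      refine ⟨mem_union_left _ (mem_sdiff.2 ⟨h.FD hL hvL, hL' L hL hne v hvL⟩), ?_⟩
      have hcL : Cov B (L.erase v) := (h.covF L hL).mono (erase_subset _ _)
      have h1 := htwo (X := ((Dp B Q T \ {w, w'}) ∪ {x, y}).erase v) hL hne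
        ((hcW2.union hcL).union hcxy) (by
        intro p hp
        obtain ⟨h1, h2⟩ := mem_erase.1 hp
        rcases mem_union.1 h2 with h2 | h2
        · rcases mem_union.1 (hsubW h2) with h3 | h3
          · by_cases h4 : p ∈ L
            · exact mem_union_right _ (mem_union_left _ (mem_union_right _
                (mem_erase.2 ⟨h1, h4⟩)))
            · refine mem_union_left _ (mem_sdiff.2 ⟨(mem_sdiff.1 h3).1, fun h5 => ?_⟩)
              rcases mem_union.1 h5 with h5 | h5
              · exact (mem_sdiff.1 h3).2 h5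
              · exact h4 h5
          · exact mem_union_right _ (mem_union_left _ (mem_union_left _ h3))
        · exact mem_union_right _ (mem_union_right _ h2))
      have h2 := rho_union_le (hcW2.union hcL) hcxy
      have h3 := rho_union_le hcW2 hcL
      have h4 := rho_erase_fc (h.ge.sys.fc L hL) (h.sv_leaf hL) hvL
      omega
  · intro v hv hvE
    have hleafR : ∀ L ∈ F, L ≠ W → ∀ p ∈ L,
        p ∈ insert x ((W \ {w, w'}) ∪ (F.erase W).biUnion id) := fun L hL hne p hp =>
      mem_insert_of_mem (mem_union_right _ (mem_biUnion.2 ⟨L, mem_erase.2 ⟨hne, hL⟩, hp⟩))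
    rcases mem_union.1 hv with hv | hv
    · obtain ⟨hvD, hvw⟩ := mem_sdiff.1 hv
      rcases h.three_cases hvD hvE with h1 | ⟨L, hL, hvL⟩
      · obtain ⟨L, hL, hne, p, hp, hvp⟩ := h.U_sees h1 W
        exact Or.inr ⟨p, hleafR L hL hne p hp, hvp⟩
      · by_cases hne : L = W
        · subst hne
          exact Or.inl (mem_insert_of_mem (mem_union_left _ (mem_sdiff.2 ⟨hvL, hvw⟩)))
        · exact Or.inl (hleafR L hL hne v hvL)
    · rcases mem_insert.1 hv with rfl | hv
      · exact Or.inl (mem_insert_self _ _)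
      · rw [mem_singleton] at hv
        subst hv
        rcases hy with ⟨z, hz, hyz⟩ | ⟨L, hL, hne, z, hz, hyz⟩
        · exact Or.inr ⟨z, mem_insert_of_mem (mem_union_left _ hz), hyz⟩
        · exact Or.inr ⟨z, hleafR L hL hne z hz, hyz⟩

end Frm

end Pool.Agent.Hyp6
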