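import Pool.Agent.Hyp6.L3Mn
import Pool.Agent.Hyp6.L3Ue

/-!
# HYP6 L3N1: full hits of a triple with two points at one leaf

`{a, b, c}` is a triple of the frame, `a` and `b` see the leaf `W` and no other leaf, `c` has a block
with two points of the leaf `M`, `|M| = 3`, `M` its own class. The exchanged packing has the leaves
`W ∪ {a, b}`, `{p}` and the other leaves, the same `U` and the same even part (`NxE.mte`, `NxE.F_new`).
`MTN.full_B`: in an `MTN` frame `13 ≤ n1(M) + 2 (s + cm)`, `s` the number of hits of `a` and `b` on `W`,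
`cm` the number of further common blocks of `a` and `b` outside of `W`.
-/

set_option autoImplicit false

namespace Pool.Agent.Hyp6

open Finset Pool.Agent.Hyp5

universe u v

/-- an ear with two points. -/
theorem fc_ear {V : Type v} [DecidableEq V] {G : SimpleGraph V} {C : Finset V} (hC : FC G C)
    {a b : V} (ha : a ∉ C) (hb : b ∉ C) (hab : G.Adj a b) (haC : ∃ y ∈ C, G.Adj a y)
    (hbC : ∃ y ∈ C, G.Adj b y) : FC G (insert a (insert b C)) := by
  have hne : a ≠ b := hab.ne
  refine ⟨insert_nonempty _ _, fun v hv => ?_⟩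
  by_cases hva : v = a
  · subst hva
    rw [erase_insert (by
      rw [mem_insert]
      rintro (h1 | h1)
      · exact hne h1
      · exact ha h1)]
    exact hC.pm_insert hb hbC
  by_cases hvb : v = b
  · subst hvb
    have h1 : (insert a (insert v C)).erase v = insert a C := by
      ext z
      simp only [mem_erase, mem_insert]
      constructor
      · rintro ⟨h1, h2 | h2 | h2⟩
        · exact Or.inl h2
        · exact absurd h2 h1
        · exact Or.inr h2
      · rintro (h2 | h2)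
        · exact ⟨fun h3 => hne (h2.symm.trans h3), Or.inl h2⟩
        · exact ⟨fun h3 => hb (h3 ▸ h2), Or.inr (Or.inr h2)⟩
    rw [h1]
    exact hC.pm_insert ha haC
  · have hvC : v ∈ C := by
      rcases mem_insert.1 hv with h1 | h1
      · exact absurd h1 hva
      · exact (mem_insert.1 h1).resolve_left hvb
    have h1 : (insert a (insert b C)).erase v = {a, b} ∪ C.erase v := by
      ext z
      simp only [mem_erase, mem_insert, mem_union, mem_singleton]
      constructor
      · rintro ⟨h1, h2 | h2 | h2⟩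
        · exact Or.inl (Or.inl h2)
        · exact Or.inl (Or.inr h2)
        · exact Or.inr ⟨h1, h2⟩
      · rintro ((h2 | h2) | ⟨h2, h3⟩)
        · exact ⟨fun h3 => hva (h3.symm.trans h2), Or.inl h2⟩
        · exact ⟨fun h3 => hvb (h3.symm.trans h2), Or.inr (Or.inl h2)⟩
        · exact ⟨h2, Or.inr (Or.inr h3)⟩
    rw [h1]
    refine (PM.pair hab).union (hC.2 v hvC) ?_
    rw [disjoint_left]
    intro z hz hz2
    rcases mem_insert.1 hz with h2 | h2
    · exact ha (h2 ▸ (mem_erase.1 hz2).2)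
    · exact hb (mem_singleton.1 h2 ▸ (mem_erase.1 hz2).2)

variable {V : Type v} [DecidableEq V] {ι : Type u} [Fintype ι] {B : ι → Finset V}

/-- data of the exchange. -/
structure NxE (B : ι → Finset V) (Q : Finset V) (T : Finset ι) (U : Finset V)
    (F : Finset (Finset V)) (i j : ι) (M W : Finset V) (a b c m m' p : V) : Prop where
  ex : Frm.Exl B Q T U F i j M c a b m m'
  hp : M \ {m, m'} = {p}
  hM3 : M.card = 3
  hfree : ∀ L ∈ F, L ≠ M → ∀ Z ⊆ U, Z.card ≤ (nbF (gr B) (F \ {M, L}) Z).card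
  hW : W ∈ F
  hne : W ≠ M
  aW : ∃ w ∈ W, (gr B).Adj a w
  bW : ∃ w ∈ W, (gr B).Adj b w
  aL : ∀ L ∈ F, L ≠ W → ∀ y ∈ L, ¬ (gr B).Adj a y
  bL : ∀ L ∈ F, L ≠ W → ∀ y ∈ L, ¬ (gr B).Adj b y

namespace NxE

variable {Q U : Finset V} {T : Finset ι} {F : Finset (Finset V)} {i j : ι} {M W : Finset V}
  {a b c m m' p : V}

omit [Fintype ι] in
theorem frm (h : NxE B Q T U F i j M W a b c m m' p) : Frm B Q T U F := h.ex.frm

omit [Fintype ι] in
theorem pM (h : NxE B Q T U F i j M W a b c m m' p) : p ∈ M ∧ p ≠ m ∧ p ≠ m' := by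
  have h1 : p ∈ M \ {m, m'} := by rw [h.hp]; simp
  obtain ⟨h2, h3⟩ := mem_sdiff.1 h1
  simp only [mem_insert, mem_singleton, not_or] at h3
  exact ⟨h2, h3.1, h3.2⟩

omit [Fintype ι] in
theorem pD (h : NxE B Q T U F i j M W a b c m m' p) : p ∈ Dp B Q T := h.frm.FD h.ex.hW h.pM.1

omit [Fintype ι] in
theorem M_cases (h : NxE B Q T U F i j M W a b c m m' p) {z : V} (hz : z ∈ M) :
    z = p ∨ z ∈ ({m, m'} : Finset V) := by
  by_cases h1 : z ∈ ({m, m'} : Finset V)
  · exact Or.inr h1
  · have h2 : z ∈ M \ {m, m'} := mem_sdiff.2 ⟨hz, h1⟩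
    rw [h.hp] at h2
    exact Or.inl (mem_singleton.1 h2)

theorem Dp_new [DecidableEq ι] (h : NxE B Q T U F i j M W a b c m m' p) :
    Dp B Q (insert i (T.erase j)) = (Dp B Q T \ {m, m'}) ∪ {a, b} := h.ex.swap.2

omit [Fintype ι] in
theorem rho_p (h : NxE B Q T U F i j M W a b c m m' p) :
    Cov B ({p} : Finset V) ∧ rho B ({p} : Finset V) ≤ 1 := by
  obtain ⟨k, hk⟩ := h.frm.covD p h.pD
  have h1 : ({p} : Finset V) ⊆ B k := singleton_subset_iff.2 hk
  exact ⟨fun v hv => ⟨k, h1 hv⟩, rho_le_one h1⟩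

/-- replacing the leaf `M` and another leaf. -/
theorem two (h : NxE B Q T U F i j M W a b c m m' p) {X Z L : Finset V} (hL : L ∈ F)
    (hne : L ≠ M) (hZ : Cov B Z) (hX : X ⊆ (Dp B Q T \ (M ∪ L)) ∪ Z) :
    rho B X + (2 + rho B L) ≤ rho B (Dp B Q T) + rho B Z := by
  have hfr : Frr B (Dp B Q T) {M, L} := h.frm.frr_of_hall (by
    intro C hC
    rcases mem_insert.1 hC with rfl | hC
    · exact h.ex.hW
    · rw [mem_singleton.1 hC]; exact hL) (h.hfree L hL hne)
  have h1 := hfr.rho_le h.frm.covD hZ (W := X) (by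
    have h2 : ({M, L} : Finset (Finset V)).biUnion id = M ∪ L := by
      rw [biUnion_insert, singleton_biUnion]
      rfl
    rw [h2]
    exact hX)
  rw [sum_pair hne.symm] at h1
  have h5 := h.frm.card_leaf h.ex.hW
  have h6 := h.hM3
  rw [h6] at h5
  push_cast at h5
  omega

theorem rho_new [DecidableEq ι] (h : NxE B Q T U F i j M W a b c m m' p) :
    rho B (Dp B Q (insert i (T.erase j))) = rho B (Dp B Q T) := by
  rw [h.Dp_new]
  exact h.ex.rho_new_eq

/-- a point whose removal is cheap is critical. -/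
theorem crit_of [DecidableEq ι] (h : NxE B Q T U F i j M W a b c m m' p) {v : V}
    (hv : rho B (((Dp B Q T \ {m, m'}) ∪ {a, b}).erase v) + 1 ≤ rho B (Dp B Q T)) :
    rho B ((Dp B Q (insert i (T.erase j))).erase v) + 1 =
      rho B (Dp B Q (insert i (T.erase j))) := by
  have h1 := rho_le_erase (x := v) h.ex.cov_new
  have h2 := h.rho_new
  rw [h.Dp_new] at h2 ⊢
  omega

/-- the points of the other leaves are critical after the exchange. -/
theorem crit_L [DecidableEq ι] (h : NxE B Q T U F i j M W a b c m m' p) {L : Finset V}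
    (hL : L ∈ F) (hne : L ≠ M) {v : V} (hv : v ∈ L) : v ∈ Dp B Q (insert i (T.erase j)) ∧
    rho B ((Dp B Q (insert i (T.erase j))).erase v) + 1 =
      rho B (Dp B Q (insert i (T.erase j))) := by
  refine ⟨?_, h.crit_of (h.ex.crit hL hne (h.hfree L hL hne) hv)⟩
  rw [h.Dp_new]
  refine mem_union_left _ (mem_sdiff.2 ⟨h.frm.FD hL hv, fun h1 => ?_⟩)
  have h2 : v ∈ M := by
    rcases mem_insert.1 h1 with h3 | h3
    · exact h3 ▸ h.ex.hw
    · exact mem_singleton.1 h3 ▸ h.ex.hw'
  exact disjoint_left.1 (h.frm.ge.sys.disj L hL M h.ex.hW hne) hv h2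

/-- the third point of `M` is critical after the exchange. -/
theorem crit_p [DecidableEq ι] (h : NxE B Q T U F i j M W a b c m m' p) :
    p ∈ Dp B Q (insert i (T.erase j)) ∧
    rho B ((Dp B Q (insert i (T.erase j))).erase p) + 1 =
      rho B (Dp B Q (insert i (T.erase j))) := by
  obtain ⟨h1, h2, h3⟩ := h.pM
  constructor
  · rw [h.Dp_new]
    refine mem_union_left _ (mem_sdiff.2 ⟨h.pD, ?_⟩)
    simp only [mem_insert, mem_singleton, not_or]
    exact ⟨h2, h3⟩
  · refine h.crit_of ?_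
    have h4 : ((Dp B Q T \ {m, m'}) ∪ {a, b}).erase p ⊆
        (Dp B Q T \ ({M} : Finset (Finset V)).biUnion id) ∪ {a, b} := by
      intro z hz
      obtain ⟨hzp, hz1⟩ := mem_erase.1 hz
      rcases mem_union.1 hz1 with hz2 | hz2
      · obtain ⟨hz3, hz4⟩ := mem_sdiff.1 hz2
        refine mem_union_left _ (mem_sdiff.2 ⟨hz3, fun h6 => ?_⟩)
        rw [singleton_biUnion] at h6
        rcases h.M_cases h6 with h7 | h7
        · exact hzp h7
        · exact hz4 h7
      · exact mem_union_right _ hz2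
    have h5 := (h.frm.frr_single h.ex.hW).rho_le h.frm.covD h.ex.cov_xy h4
    rw [sum_singleton] at h5
    have h6 := h.ex.rho_xy
    have h7 := h.frm.card_leaf h.ex.hW
    have h8 := h.hM3
    rw [h8] at h7
    push_cast at h7
    omega

/-- the point `y` is critical if the other point `x` of the pair sees `W`. -/
theorem crit_pair [DecidableEq ι] (h : NxE B Q T U F i j M W a b c m m' p) {x y : V}
    (hxy : ({a, b} : Finset V) = {y, x}) (hxD : x ∉ Dp B Q T)
    (hxW : ∃ w ∈ W, (gr B).Adj x w) :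
    rho B ((Dp B Q (insert i (T.erase j))).erase y) + 1 =
      rho B (Dp B Q (insert i (T.erase j))) := by
  refine h.crit_of ?_
  obtain ⟨hcp, hrp⟩ := h.rho_p
  have hxW' : x ∉ W := fun h1 => hxD (h.frm.FD h.hW h1)
  have hcx : Cov B (insert x W) := by
    intro z hz
    rcases mem_insert.1 hz with h1 | h1
    · exact h.ex.cov_xy z (by rw [hxy, h1]; simp)
    · exact h.frm.covF W h.hW z h1
  have h1 := h.two (X := ((Dp B Q T \ {m, m'}) ∪ {a, b}).erase y) h.hW h.hne
    (hcx.union hcp) (by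
    intro z hz
    obtain ⟨hzy, hz1⟩ := mem_erase.1 hz
    rcases mem_union.1 hz1 with hz2 | hz2
    · obtain ⟨hz3, hz4⟩ := mem_sdiff.1 hz2
      by_cases hzM : z ∈ M
      · rcases h.M_cases hzM with h7 | h7
        · exact mem_union_right _ (mem_union_right _ (mem_singleton.2 h7))
        · exact absurd h7 hz4
      by_cases hzW : z ∈ W
      · exact mem_union_right _ (mem_union_left _ (mem_insert_of_mem hzW))
      · refine mem_union_left _ (mem_sdiff.2 ⟨hz3, fun h6 => ?_⟩)
        rcases mem_union.1 h6 with h6 | h6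
        · exact hzM h6
        · exact hzW h6
    · rw [hxy] at hz2
      rcases mem_insert.1 hz2 with hz3 | hz3
      · exact absurd hz3 hzy
      · rw [mem_singleton.1 hz3]
        exact mem_union_right _ (mem_union_left _ (mem_insert_self _ _)))
  have h2 := rho_union_le hcx hcp
  have h3 := rho_insert_fc (h.frm.ge.sys.fc W h.hW) (h.frm.sv_leaf h.hW) hxW hxW'
  omega

theorem crit_a [DecidableEq ι] (h : NxE B Q T U F i j M W a b c m m' p) :
    a ∈ Dp B Q (insert i (T.erase j)) ∧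
    rho B ((Dp B Q (insert i (T.erase j))).erase a) + 1 =
      rho B (Dp B Q (insert i (T.erase j))) := by
  refine ⟨?_, h.crit_pair rfl h.ex.yD h.bW⟩
  rw [h.Dp_new]
  exact mem_union_right _ (by simp)

theorem crit_b [DecidableEq ι] (h : NxE B Q T U F i j M W a b c m m' p) :
    b ∈ Dp B Q (insert i (T.erase j)) ∧
    rho B ((Dp B Q (insert i (T.erase j))).erase b) + 1 =
      rho B (Dp B Q (insert i (T.erase j))) := by
  refine ⟨?_, h.crit_pair (pair_comm a b) h.ex.xD h.aW⟩
  rw [h.Dp_new]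
  exact mem_union_right _ (by simp)

/-- the even part does not grow. -/
theorem E_sub [DecidableEq ι] (h : NxE B Q T U F i j M W a b c m m' p) {U1 : Finset V}
    {F1 : Finset (Finset V)} (h' : Frm B Q (insert i (T.erase j)) U1 F1) :
    Ep B Q (insert i (T.erase j)) U1 F1 ⊆ Ep B Q T U F := by
  refine h'.Ep_sub fun y hy hyE => ?_
  rw [h.Dp_new] at hy
  rcases mem_union.1 hy with hy | hy
  · obtain ⟨h1, h2⟩ := mem_sdiff.1 hy
    rcases h.frm.three_cases h1 hyE with h3 | ⟨L, hL, hyL⟩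
    · obtain ⟨L, hL, hne, z, hz, hyz⟩ := h.frm.U_sees h3 M
      exact Or.inr ⟨z, (h.crit_L hL hne hz).1, (h.crit_L hL hne hz).2, hyz⟩
    · by_cases hLM : L = M
      · rw [hLM] at hyL
        rcases h.M_cases hyL with h3 | h3
        · rw [h3]
          exact Or.inl h.crit_p.2
        · exact absurd h3 h2
      · exact Or.inl (h.crit_L hL hLM hyL).2
  · rcases mem_insert.1 hy with h1 | h1
    · rw [h1]
      exact Or.inl h.crit_a.2
    · rw [mem_singleton.1 h1]
      exact Or.inl h.crit_b.2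

/-- `a` and `b` see no point of the even part. -/
theorem no_E [DecidableEq ι] (h : NxE B Q T U F i j M W a b c m m' p)
    (hmin : ∀ (T' : Finset ι) (U' : Finset V) (F' : Finset (Finset V)),
      Frm B Q T' U' F' → (Ep B Q T U F).card ≤ (Ep B Q T' U' F').card) {U1 : Finset V}
    {F1 : Finset (Finset V)} (h' : Frm B Q (insert i (T.erase j)) U1 F1) {x : V}
    (hx : x ∈ Dp B Q (insert i (T.erase j)) ∧
      rho B ((Dp B Q (insert i (T.erase j))).erase x) + 1 =
        rho B (Dp B Q (insert i (T.erase j)))) {e : V} (he : e ∈ Ep B Q T U F) :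
    ¬ (gr B).Adj x e := by
  intro hxe
  have h1 : e ∉ Ep B Q (insert i (T.erase j)) U1 F1 := h'.notE_adjc hx.1 hx.2 hxe.symm
  have h2 : Ep B Q (insert i (T.erase j)) U1 F1 ⊂ Ep B Q T U F :=
    ssubset_of_subset_of_ne (h.E_sub h') fun h3 => h1 (h3 ▸ he)
  have h3 := card_lt_card h2
  have h4 := hmin _ _ _ h'
  omega

omit [Fintype ι] in
/-- the new system of leaves. -/
theorem Fs_not (h : NxE B Q T U F i j M W a b c m m' p) :
    {p} ∉ (F.erase M).erase W ∧
      insert a (insert b W) ∉ insert {p} ((F.erase M).erase W) := by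
  obtain ⟨hpM, _, _⟩ := h.pM
  constructor
  · intro h1
    obtain ⟨_, h2⟩ := mem_erase.1 h1
    obtain ⟨h3, h4⟩ := mem_erase.1 h2
    exact disjoint_left.1 (h.frm.ge.sys.disj _ h4 M h.ex.hW h3) (mem_singleton_self p) hpM
  · intro h1
    have ha : a ∈ insert a (insert b W) := mem_insert_self _ _
    rcases mem_insert.1 h1 with h2 | h2
    · rw [h2] at ha
      exact h.ex.xD (mem_singleton.1 ha ▸ h.pD)
    · exact h.ex.xD (h.frm.FD (mem_erase.1 (mem_erase.1 h2).2).2 ha)

theorem sys_new [DecidableEq ι] (h : NxE B Q T U F i j M W a b c m m' p)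
    (haE : ∀ e ∈ Ep B Q T U F, ¬ (gr B).Adj a e)
    (hbE : ∀ e ∈ Ep B Q T U F, ¬ (gr B).Adj b e) :
    FCSys (gr B) (Dp B Q (insert i (T.erase j)) \ U)
      (insert (insert a (insert b W)) (insert {p} ((F.erase M).erase W))) := by
  have hf := h.frm
  obtain ⟨hpM, hpm, hpm'⟩ := h.pM
  have haU : a ∉ U := fun h1 => h.ex.xD (hf.UD h1)
  have hbU : b ∉ U := fun h1 => h.ex.yD (hf.UD h1)
  have haF : ∀ L ∈ F, a ∉ L := fun L hL h1 => h.ex.xD (hf.FD hL h1)
  have hbF : ∀ L ∈ F, b ∉ L := fun L hL h1 => h.ex.yD (hf.FD hL h1)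
  have hFU : ∀ L ∈ F, ∀ y ∈ L, y ∉ U := fun L hL y hy h1 =>
    disjoint_left.1 (hf.ge.FU L hL) hy h1
  have hmM : ∀ z ∈ ({m, m'} : Finset V), z ∈ M := by
    intro z hz
    rcases mem_insert.1 hz with h3 | h3
    · exact h3 ▸ h.ex.hw
    · exact mem_singleton.1 h3 ▸ h.ex.hw'
  have hLD : ∀ L ∈ F, L ≠ M → ∀ y ∈ L, y ∈ (Dp B Q T \ {m, m'}) ∪ {a, b} := by
    intro L hL hne y hy
    refine mem_union_left _ (mem_sdiff.2 ⟨hf.FD hL hy, fun h1 => ?_⟩)
    exact disjoint_left.1 (hf.ge.sys.disj L hL M h.ex.hW hne) hy (hmM y h1)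
  -- a point of the pair
  have hpair : ∀ x : V, (∀ e ∈ Ep B Q T U F, ¬ (gr B).Adj x e) →
      (∀ L ∈ F, L ≠ W → ∀ y ∈ L, ¬ (gr B).Adj x y) → ∀ z, z ∈ Dp B Q T → z ∉ U →
      (gr B).Adj x z → z ∈ W := by
    intro x hxE hxL z hz hzU hxz
    by_cases hzE : z ∈ Ep B Q T U F
    · exact absurd hxz (hxE z hzE)
    · rcases hf.three_cases hz hzE with h6 | ⟨L, hL, hzL⟩
      · exact absurd h6 hzU
      · by_cases hLW : L = W
        · exact hLW ▸ hzL
        · exact absurd hxz (hxL L hL hLW z hzL)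
  have hpairW := hpair a haE h.aL
  have hpairW' := hpair b hbE h.bL
  rw [h.Dp_new]
  have hd0 : ∀ C ∈ (F.erase M).erase W, Disjoint (insert a (insert b W)) C := by
    intro C hC
    obtain ⟨h1, h2⟩ := mem_erase.1 hC
    obtain ⟨h3, h4⟩ := mem_erase.1 h2
    rw [disjoint_left]
    intro z hz hzC
    rcases mem_insert.1 hz with h5 | h5
    · exact haF C h4 (h5 ▸ hzC)
    · rcases mem_insert.1 h5 with h6 | h6
      · exact hbF C h4 (h6 ▸ hzC)
      · exact disjoint_left.1 (hf.ge.sys.disj W h.hW C h4 (Ne.symm h1)) h6 hzC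
  have hd1 : ∀ C ∈ (F.erase M).erase W, Disjoint {p} C := by
    intro C hC
    obtain ⟨h1, h2⟩ := mem_erase.1 hC
    obtain ⟨h3, h4⟩ := mem_erase.1 h2
    rw [disjoint_singleton_left]
    intro h5
    exact disjoint_left.1 (hf.ge.sys.disj C h4 M h.ex.hW h3) h5 hpM
  have hd2 : Disjoint (insert a (insert b W)) {p} := by
    rw [disjoint_singleton_right]
    intro h5
    rcases mem_insert.1 h5 with h6 | h6
    · exact h.ex.xD (h6 ▸ h.pD)
    · rcases mem_insert.1 h6 with h7 | h7
      · exact h.ex.yD (h7 ▸ h.pD)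
      · exact disjoint_left.1 (hf.ge.sys.disj W h.hW M h.ex.hW h.hne) h7 hpM
  refine ⟨fun C hC => ?_, fun C hC => ?_, fun C hC C' hC' hne => ?_⟩
  · rcases mem_insert.1 hC with rfl | hC
    · refine ⟨fun y hy => ?_, fun y hy z hz hyz => ?_⟩
      · rcases mem_insert.1 hy with h5 | h5
        · rw [h5]
          exact mem_sdiff.2 ⟨mem_union_right _ (by simp), haU⟩
        · rcases mem_insert.1 h5 with h6 | h6
          · rw [h6]
            exact mem_sdiff.2 ⟨mem_union_right _ (by simp), hbU⟩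
          · exact mem_sdiff.2 ⟨hLD W h.hW h.hne y h6, hFU W h.hW y h6⟩
      · obtain ⟨hz1, hzU⟩ := mem_sdiff.1 hz
        rcases mem_union.1 hz1 with hz2 | hz2
        · obtain ⟨hz3, _⟩ := mem_sdiff.1 hz2
          refine mem_insert_of_mem (mem_insert_of_mem ?_)
          rcases mem_insert.1 hy with h5 | h5
          · exact hpairW z hz3 hzU (h5 ▸ hyz)
          · rcases mem_insert.1 h5 with h6 | h6
            · exact hpairW' z hz3 hzU (h6 ▸ hyz)
            · exact (hf.ge.sys.closed W h.hW).2 y h6 z (mem_sdiff.2 ⟨hz3, hzU⟩) hyz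
        · rcases mem_insert.1 hz2 with h5 | h5
          · exact h5 ▸ mem_insert_self _ _
          · rw [mem_singleton.1 h5]
            exact mem_insert_of_mem (mem_insert_self _ _)
    rcases mem_insert.1 hC with rfl | hC
    · refine ⟨fun y hy => ?_, fun y hy z hz hyz => ?_⟩
      · rw [mem_singleton.1 hy]
        refine mem_sdiff.2 ⟨mem_union_left _ (mem_sdiff.2 ⟨h.pD, ?_⟩), hFU M h.ex.hW p hpM⟩
        simp only [mem_insert, mem_singleton, not_or]
        exact ⟨hpm, hpm'⟩
      · rw [mem_singleton.1 hy] at hyz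
        obtain ⟨hz1, hzU⟩ := mem_sdiff.1 hz
        rcases mem_union.1 hz1 with hz2 | hz2
        · obtain ⟨hz3, hz4⟩ := mem_sdiff.1 hz2
          have h5 := (hf.ge.sys.closed M h.ex.hW).2 p hpM z (mem_sdiff.2 ⟨hz3, hzU⟩) hyz
          rcases h.M_cases h5 with h6 | h6
          · exact mem_singleton.2 h6
          · exact absurd h6 hz4
        · exfalso
          rcases mem_insert.1 hz2 with h5 | h5
          · exact h.aL M h.ex.hW h.hne.symm p hpM (h5 ▸ hyz.symm)
          · exact h.bL M h.ex.hW h.hne.symm p hpM (mem_singleton.1 h5 ▸ hyz.symm)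
    · obtain ⟨h1, h2⟩ := mem_erase.1 hC
      obtain ⟨h3, h4⟩ := mem_erase.1 h2
      refine ⟨fun y hy => mem_sdiff.2 ⟨hLD C h4 h3 y hy, hFU C h4 y hy⟩,
        fun y hy z hz hyz => ?_⟩
      obtain ⟨hz1, hzU⟩ := mem_sdiff.1 hz
      rcases mem_union.1 hz1 with hz2 | hz2
      · exact (hf.ge.sys.closed C h4).2 y hy z (mem_sdiff.2 ⟨(mem_sdiff.1 hz2).1, hzU⟩) hyz
      · exfalso
        rcases mem_insert.1 hz2 with h5 | h5
        · exact h.aL C h4 h1 y hy (h5 ▸ hyz.symm)
        · exact h.bL C h4 h1 y hy (mem_singleton.1 h5 ▸ hyz.symm)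
  · rcases mem_insert.1 hC with rfl | hC
    · refine fc_ear (hf.ge.sys.fc W h.hW) (haF W h.hW) (hbF W h.hW) ?_ h.aW h.bW
      exact ⟨h.ex.dis.2.2, j, (mem_inter.1 h.ex.xj).1, (mem_inter.1 h.ex.yj).1⟩
    rcases mem_insert.1 hC with rfl | hC
    · exact FC.singleton _ _
    · exact hf.ge.sys.fc C (mem_erase.1 (mem_erase.1 hC).2).2
  · rcases mem_insert.1 hC with rfl | hC
    · rcases mem_insert.1 hC' with rfl | hC'
      · exact absurd rfl hne
      rcases mem_insert.1 hC' with rfl | hC'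
      · exact hd2
      · exact hd0 C' hC'
    rcases mem_insert.1 hC with rfl | hC
    · rcases mem_insert.1 hC' with rfl | hC'
      · exact hd2.symm
      rcases mem_insert.1 hC' with rfl | hC'
      · exact absurd rfl hne
      · exact hd1 C' hC'
    · rcases mem_insert.1 hC' with rfl | hC'
      · exact (hd0 C hC).symm
      rcases mem_insert.1 hC' with rfl | hC'
      · exact (hd1 C hC).symm
      · exact hf.ge.sys.disj C (mem_erase.1 (mem_erase.1 hC).2).2 C'
          (mem_erase.1 (mem_erase.1 hC').2).2 hne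

/-- `U` stays in the new `U`. -/
theorem U_sub [DecidableEq ι] (h : NxE B Q T U F i j M W a b c m m' p)
    (haE : ∀ e ∈ Ep B Q T U F, ¬ (gr B).Adj a e)
    (hbE : ∀ e ∈ Ep B Q T U F, ¬ (gr B).Adj b e) {U1 : Finset V}
    {F1 : Finset (Finset V)} (h' : Frm B Q (insert i (T.erase j)) U1 F1) : U ⊆ U1 := by
  have hf := h.frm
  have hmM : ∀ z ∈ ({m, m'} : Finset V), z ∈ M := by
    intro z hz
    rcases mem_insert.1 hz with h3 | h3
    · exact h3 ▸ h.ex.hw
    · exact mem_singleton.1 h3 ▸ h.ex.hw'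
  have hUD : U ⊆ Dp B Q (insert i (T.erase j)) := by
    rw [h.Dp_new]
    intro u hu
    refine mem_union_left _ (mem_sdiff.2 ⟨hf.UD hu, fun h1 => ?_⟩)
    exact disjoint_left.1 (hf.ge.FU M h.ex.hW) (hmM u h1) hu
  obtain ⟨hn1, hn2⟩ := h.Fs_not
  have hWM : W ∈ F.erase M := mem_erase.2 ⟨h.hne, h.hW⟩
  have hS := (h.sys_new haE hbE).oddSys
  have hval : sv B (Dp B Q (insert i (T.erase j))) = (U.card : ℤ) -
      (insert (insert a (insert b W)) (insert {p} ((F.erase M).erase W))).card := by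
    have h1 := h'.svD'
    have h2 := hf.svD'
    have h3 := hf.svD
    have h4 : (insert i (T.erase j)).card = T.card := by
      have h5 := h'.mtp.max _ hf.mtp.tpk
      have h6 := hf.mtp.max _ h'.mtp.tpk
      omega
    have h5 := card_erase_add_one h.ex.hW
    have h6 := card_erase_add_one hWM
    rw [card_insert_of_notMem hn2, card_insert_of_notMem hn1, h1, h4, ← h2, h3]
    push_cast
    omega
  intro u hu
  have hnc := tight_not_crit h'.covD h'.tr3D h'.pt hUD hS hval hu
  obtain ⟨L, hL, hne, z, hz, huz⟩ := hf.U_sees hu M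
  have hnE := h'.notE_adjc (h.crit_L hL hne hz).1 (h.crit_L hL hne hz).2 huz
  rcases h'.three_cases (hUD hu) hnE with h1 | ⟨L', hL', huL⟩
  · exact h1
  · exact absurd (h'.crit_leaf hL' huL) hnc

/-- **the exchanged packing is again of kind `MTE`**, with the same `U` and the same even part. -/
theorem mte [DecidableEq ι] (h : NxE B Q T U F i j M W a b c m m' p) (hm : MTE B Q T U F)
    {U1 : Finset V} {F1 : Finset (Finset V)} (h' : Frm B Q (insert i (T.erase j)) U1 F1) :
    MTE B Q (insert i (T.erase j)) U1 F1 ∧ U1 = U ∧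
      Ep B Q (insert i (T.erase j)) U1 F1 = Ep B Q T U F := by
  have h1 := h.E_sub h'
  have h2 := h.U_sub (fun e he => h.no_E hm.emin h' h.crit_a he)
    (fun e he => h.no_E hm.emin h' h.crit_b he) h'
  have h3 := card_le_card h1
  have h4 := card_le_card h2
  refine ⟨⟨h', fun T' U' F' hf' => ?_, fun T' U' F' hf' hle => ?_⟩, ?_, ?_⟩
  · have h5 := hm.emin T' U' F' hf'
    omega
  · have h5 := hm.umax T' U' F' hf' (by omega)
    omega
  · have h5 := hm.umax _ _ _ h' h3
    exact (eq_of_subset_of_card_le h2 h5).symm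
  · exact eq_of_subset_of_card_le h1 (hm.emin _ _ _ h')

theorem exists_new [DecidableEq ι] (h : NxE B Q T U F i j M W a b c m m' p) :
    ∃ (U1 : Finset V) (F1 : Finset (Finset V)), Frm B Q (insert i (T.erase j)) U1 F1 := by
  obtain ⟨U1, F1, hGE⟩ := exists_GE (gr B) (Q \ (insert i (T.erase j)).biUnion B)
  exact ⟨U1, F1, ⟨h.frm.reg3, h.frm.cov, h.ex.swap.1, hGE⟩⟩

/-- the leaves of the exchanged frame. -/
theorem F_new [DecidableEq ι] (h : NxE B Q T U F i j M W a b c m m' p) (hm : MTE B Q T U F)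
    {U1 : Finset V} {F1 : Finset (Finset V)} (h' : Frm B Q (insert i (T.erase j)) U1 F1) :
    F1 = insert (insert a (insert b W)) (insert {p} ((F.erase M).erase W)) := by
  obtain ⟨_, hU, hE⟩ := h.mte hm h'
  subst hU
  have hsys := h.sys_new (fun e he => h.no_E hm.emin h' h.crit_a he)
    (fun e he => h.no_E hm.emin h' h.crit_b he)
  refine fcsys_eq h'.ge.sys hsys ?_
  have hf := h.frm
  have hD := h.Dp_new
  ext v
  constructor
  · intro hv
    obtain ⟨C, hC, hvC⟩ := mem_biUnion.1 hv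
    have h1 := h'.FD hC hvC
    have h2 : v ∉ U1 := fun h3 => disjoint_left.1 (h'.ge.FU C hC) hvC h3
    have h3 : v ∉ Ep B Q T U1 F := by
      rw [← hE]
      exact fun h4 => disjoint_left.1 (h'.ge.FE C hC) hvC h4
    rw [hD] at h1
    rcases mem_union.1 h1 with h1 | h1
    · obtain ⟨h5, h4⟩ := mem_sdiff.1 h1
      rcases hf.three_cases h5 h3 with h6 | ⟨L, hL, hvL⟩
      · exact absurd h6 h2
      · by_cases hLM : L = M
        · rw [hLM] at hvL
          rcases h.M_cases hvL with h7 | h7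
          · exact mem_biUnion.2 ⟨{p}, mem_insert_of_mem (mem_insert_self _ _),
              mem_singleton.2 h7⟩
          · exact absurd h7 h4
        · by_cases hLW : L = W
          · refine mem_biUnion.2 ⟨_, mem_insert_self _ _, ?_⟩
            exact mem_insert_of_mem (mem_insert_of_mem (hLW ▸ hvL))
          · exact mem_biUnion.2 ⟨L, mem_insert_of_mem (mem_insert_of_mem
              (mem_erase.2 ⟨hLW, mem_erase.2 ⟨hLM, hL⟩⟩)), hvL⟩
    · refine mem_biUnion.2 ⟨_, mem_insert_self _ _, ?_⟩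
      rcases mem_insert.1 h1 with h5 | h5
      · rw [h5]
        exact mem_insert_self _ _
      · rw [mem_singleton.1 h5]
        exact mem_insert_of_mem (mem_insert_self _ _)
  · intro hv
    obtain ⟨C, hC, hvC⟩ := mem_biUnion.1 hv
    have h1 := (hsys.closed C hC).1 hvC
    obtain ⟨h2, h3⟩ := mem_sdiff.1 h1
    have h4 : v ∉ Ep B Q (insert i (T.erase j)) U1 F1 := by
      rw [hE]
      intro h5
      rcases mem_insert.1 hC with rfl | hC
      · rcases mem_insert.1 hvC with h6 | h6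
        · exact h.ex.xD (h6 ▸ Frm.ED h5)
        · rcases mem_insert.1 h6 with h7 | h7
          · exact h.ex.yD (h7 ▸ Frm.ED h5)
          · exact disjoint_left.1 (hf.ge.FE W h.hW) h7 h5
      rcases mem_insert.1 hC with rfl | hC
      · have h6 : v = p := mem_singleton.1 hvC
        exact disjoint_left.1 (hf.ge.FE M h.ex.hW) (h6 ▸ h.pM.1) h5
      · exact disjoint_left.1 (hf.ge.FE C (mem_erase.1 (mem_erase.1 hC).2).2) hvC h5
    rcases h'.three_cases h2 h4 with h5 | ⟨L, hL, hvL⟩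
    · exact absurd h5 h3
    · exact mem_biUnion.2 ⟨L, hL, hvL⟩

end NxE

/-- the single traces of `W ∪ {a, b}`. -/
theorem nt_pair_ge {Q : Finset V} (hr : Reg B Q) {a b : V} {W : Finset V} (ha : a ∈ Q)
    (hb : b ∈ Q) (hab : a ≠ b) (haW : a ∉ W) (hbW : b ∉ W) :
    nt B W 1 + 10 ≤ nt B (insert a (insert b W)) 1 + 2 * (Rt.uh B a W + Rt.uh B b W) +
      2 * (univ.filter fun k => a ∈ B k ∧ b ∈ B k ∧ ¬ (B k ∩ W).Nonempty).card := by
  classical
  have huh : ∀ z : V, Rt.uh B z W = ∑ k, if (B k ∩ W).Nonempty ∧ z ∈ B k then 1 else 0 := by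
    intro z
    have h1 : Rt.uh B z W = ∑ k ∈ tch B W, if z ∈ B k then 1 else 0 := by
      unfold Rt.uh hit
      refine sum_congr rfl fun k _ => ?_
      by_cases h2 : z ∈ B k
      · rw [if_pos h2, inter_singleton_of_mem h2, card_singleton]
      · rw [if_neg h2, inter_singleton_of_notMem h2, card_empty]
    rw [h1, ← sum_filter, sum_const, smul_eq_mul, mul_one, ← card_filter]
    congr 1
    ext k
    rw [mem_filter, mem_filter, cost_mem_tch]
    simp
  have h10 : 10 = (∑ k, if a ∈ B k then 1 else 0) + ∑ k, if b ∈ B k then 1 else 0 := by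
    rw [← card_filter, ← card_filter, hr a ha, hr b hb]
  have hcard : ∀ k, (B k ∩ insert a (insert b W)).card =
      (if a ∈ B k then 1 else 0) + ((if b ∈ B k then 1 else 0) + (B k ∩ W).card) := by
    intro k
    have e1 : (B k ∩ insert b W).card = (if b ∈ B k then 1 else 0) + (B k ∩ W).card := by
      by_cases h1 : b ∈ B k
      · rw [inter_insert_of_mem h1, card_insert_of_notMem (fun h2 => hbW (mem_inter.1 h2).2),
          if_pos h1, add_comm]
      · rw [inter_insert_of_notMem h1, if_neg h1, zero_add]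
    by_cases h1 : a ∈ B k
    · rw [inter_insert_of_mem h1, card_insert_of_notMem, if_pos h1, e1, add_comm]
      intro h2
      rcases mem_insert.1 (mem_inter.1 h2).2 with h3 | h3
      · exact hab h3
      · exact haW h3
    · rw [inter_insert_of_notMem h1, if_neg h1, zero_add, e1]
  rw [h10, huh, huh]
  unfold nt trs
  simp only [card_filter, mul_sum, ← sum_add_distrib]
  refine sum_le_sum fun k _ => ?_
  rw [hcard k]
  rcases Nat.eq_zero_or_pos (B k ∩ W).card with h0 | h0
  · have h1 : ¬ (B k ∩ W).Nonempty := by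
      rw [not_nonempty_iff_eq_empty]
      exact card_eq_zero.1 h0
    rw [h0]
    by_cases h2 : a ∈ B k <;> by_cases h3 : b ∈ B k <;> simp [h1, h2, h3]
  · have h1 : (B k ∩ W).Nonempty := card_pos.1 h0
    by_cases h2 : a ∈ B k <;> by_cases h3 : b ∈ B k <;> simp [h1, h2, h3]
    all_goals (split_ifs <;> omega)

/-- **full hits of a triple with two points at one leaf.** -/
theorem MTN.full_B [DecidableEq ι] {Q U : Finset V} {T : Finset ι} {F : Finset (Finset V)}
    (hm : MTN B Q T U F) (hr : Reg B Q) {i j : ι} (hj : j ∈ T) {a b c : V}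
    (hjQ : B j ∩ Q = {a, b, c}) {M W : Finset V} (hM : M ∈ F) (hM3 : M.card = 3)
    (hfree : ∀ L ∈ F, L ≠ M → ∀ Z ⊆ U, Z.card ≤ (nbF (gr B) (F \ {M, L}) Z).card)
    (hW : W ∈ F) (hne : W ≠ M) (aW : ∃ w ∈ W, (gr B).Adj a w) (bW : ∃ w ∈ W, (gr B).Adj b w)
    (aL : ∀ L ∈ F, L ≠ W → ∀ y ∈ L, ¬ (gr B).Adj a y)
    (bL : ∀ L ∈ F, L ≠ W → ∀ y ∈ L, ¬ (gr B).Adj b y)
    (hci : c ∈ B i) (hi : (B i ∩ M).card = 2) :
    13 ≤ nt B M 1 + 2 * (Rt.uh B a W + Rt.uh B b W +
      (univ.filter fun k => k ≠ j ∧ a ∈ B k ∧ b ∈ B k ∧ ¬ (B k ∩ W).Nonempty).card) := by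
  classical
  have hjQ' : B j ∩ Q = {c, a, b} := by
    rw [hjQ]
    ext v
    simp only [mem_insert, mem_singleton]
    tauto
  obtain ⟨m, m', hE⟩ := hm.frm.exl hj hM hjQ' hci hi
  obtain ⟨p, hp⟩ : ∃ p, M \ {m, m'} = {p} := by
    rw [← card_eq_one]
    have h1 : ({m, m'} : Finset V) ⊆ M := by
      intro z hz
      rcases mem_insert.1 hz with h3 | h3
      · exact h3 ▸ hE.hw
      · exact mem_singleton.1 h3 ▸ hE.hw'
    have h2 := card_sdiff_add_card_eq_card h1
    rw [card_pair hE.hww] at h2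
    omega
  have h : NxE B Q T U F i j M W a b c m m' p :=
    ⟨hE, hp, hM3, hfree, hW, hne, aW, bW, aL, bL⟩
  obtain ⟨U1, F1, h'⟩ := h.exists_new
  obtain ⟨h1, _, _⟩ := h.mte hm.toMTE h'
  have h2 := hm.nmax hr _ _ _ h1
  obtain ⟨hn1, hn2⟩ := h.Fs_not
  rw [h.F_new hm.toMTE h', sum_insert hn2, sum_insert hn1, nt_point hr (Frm.DQ h.pD),
    ← add_sum_erase F _ hM, ← add_sum_erase (F.erase M) _ (mem_erase.2 ⟨hne, hW⟩)] at h2
  have ha : a ∈ Q := (mem_inter.1 hE.xj).2
  have hb : b ∈ Q := (mem_inter.1 hE.yj).2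
  have haW : a ∉ W := fun h3 => hE.xD (hm.frm.FD hW h3)
  have hbW : b ∉ W := fun h3 => hE.yD (hm.frm.FD hW h3)
  have h3 := nt_pair_ge hr ha hb hE.dis.2.2 haW hbW
  have h4 : (univ.filter fun k => a ∈ B k ∧ b ∈ B k ∧ ¬ (B k ∩ W).Nonempty).card ≤
      (univ.filter fun k => k ≠ j ∧ a ∈ B k ∧ b ∈ B k ∧ ¬ (B k ∩ W).Nonempty).card + 1 := by
    refine le_trans (card_le_card (t := insert j
      (univ.filter fun k => k ≠ j ∧ a ∈ B k ∧ b ∈ B k ∧ ¬ (B k ∩ W).Nonempty)) ?_)
      (card_insert_le _ _)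
    intro k hk
    obtain ⟨_, h5⟩ := mem_filter.1 hk
    by_cases h6 : k = j
    · exact mem_insert.2 (Or.inl h6)
    · exact mem_insert_of_mem (mem_filter.2 ⟨mem_univ _, h6, h5⟩)
  omega

end Pool.Agent.Hyp6
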