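import Pool.Agent.Hyp6.L3N1
import Pool.Agent.Hyp6.L3Mq
import Pool.Agent.Hyp6.L3Tx

/-!
# HYP6 L3N2: two exchanges at full hits on leaves with three points

The triple `{a, b, c}` has five hits of `a`, `b` at the point leaf `{x}`, the point `c` has a full hit
on the leaf `M`, `|M| = 3`, with at most one single trace (its own class, no hit of `U`). The exchanged
frame (leaves `{x, a, b}` and `{p}`) is of kind `MTN` (`NxE.mtn`), and `{x, a, b}` is free together with
every other leaf (`NxE.own_new`). If a block `{x, a, v}` (with the point `a` of three hits) contains the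
third point `v` of a second triple of this kind, then this triple can be exchanged too:
`MTQ.two_full` compares the weights.
-/

set_option autoImplicit false

namespace Pool.Agent.Hyp6

open Finset Pool.Agent.Hyp5 Rt

universe u v

variable {V : Type v} [DecidableEq V] {ι : Type u} [Fintype ι] {B : ι → Finset V}

/-- the total weight of the traces on one triple. -/
def thj (B : ι → Finset V) (Q : Finset V) (k : ι) : ℕ := ∑ l, wth (B l ∩ (B k ∩ Q)).card

theorem Th_swap [DecidableEq ι] {Q : Finset V} {T : Finset ι} {i j : ι} (hj : j ∈ T)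
    (hi : i ∉ T.erase j) :
    Th B Q (insert i (T.erase j)) + thj B Q j = Th B Q T + thj B Q i := by
  unfold Th thj
  rw [sum_insert hi, ← add_sum_erase T _ hj]
  ring

/-- the number of common blocks of a point with a point leaf. -/
theorem uh_point (z x : V) : uh B z {x} = (univ.filter fun k => x ∈ B k ∧ z ∈ B k).card := by
  unfold uh hit
  have h1 : tch B {x} = univ.filter fun k => x ∈ B k := by
    ext k
    rw [cost_mem_tch, mem_filter]
    constructor
    · rintro ⟨y, hy⟩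
      obtain ⟨h1, h2⟩ := mem_inter.1 hy
      rw [mem_singleton] at h2
      exact ⟨mem_univ _, h2 ▸ h1⟩
    · rintro ⟨_, h1⟩
      exact ⟨x, mem_inter.2 ⟨h1, mem_singleton_self x⟩⟩
  rw [h1, card_filter, sum_filter]
  refine sum_congr rfl fun k _ => ?_
  by_cases h2 : x ∈ B k <;> by_cases h3 : z ∈ B k
  · rw [if_pos h2, if_pos ⟨h2, h3⟩, inter_singleton_of_mem h3, card_singleton]
  · rw [if_pos h2, if_neg (fun h4 => h3 h4.2), inter_singleton_of_notMem h3, card_empty]
  · rw [if_neg h2, if_neg (fun h4 => h2 h4.1)]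
  · rw [if_neg h2, if_neg (fun h4 => h2 h4.1)]

/-- the blocks of a point outside of a point leaf. -/
theorem off_point {Q : Finset V} (hr : Reg B Q) {z : V} (hz : z ∈ Q) (x : V) :
    (univ.filter fun k => z ∈ B k ∧ x ∉ B k).card + uh B z {x} = 5 := by
  classical
  rw [uh_point, ← hr z hz, ← card_union_of_disjoint]
  · congr 1
    ext k
    simp only [mem_union, mem_filter, mem_univ, true_and]
    tauto
  · rw [disjoint_left]
    intro k hk hk2
    exact (mem_filter.1 hk).2.2 (mem_filter.1 hk2).2.1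

namespace NxE

variable {Q U : Finset V} {T : Finset ι} {F : Finset (Finset V)} {i j : ι} {M W : Finset V}
  {a b c m m' p : V}

/-- **the exchanged frame is of kind `MTN`** if the number of single traces does not drop. -/
theorem mtn [DecidableEq ι] (h : NxE B Q T U F i j M W a b c m m' p) (hm : MTN B Q T U F)
    (hle : Reg B Q → nt B M 1 + nt B W 1 ≤ nt B (insert a (insert b W)) 1 + 5) {U1 : Finset V}
    {F1 : Finset (Finset V)} (h' : Frm B Q (insert i (T.erase j)) U1 F1) :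
    MTN B Q (insert i (T.erase j)) U1 F1 := by
  refine ⟨(h.mte hm.toMTE h').1, fun hr T' U' F' hf' => ?_⟩
  refine (hm.nmax hr T' U' F' hf').trans ?_
  obtain ⟨hn1, hn2⟩ := h.Fs_not
  have h1 := hle hr
  rw [h.F_new hm.toMTE h', sum_insert hn2, sum_insert hn1, nt_point hr (Frm.DQ h.pD),
    ← add_sum_erase F _ h.ex.hW, ← add_sum_erase (F.erase M) _ (mem_erase.2 ⟨h.hne, h.hW⟩)]
  omega

/-- the number of single traces of the new leaf is not larger than before. -/
theorem nt_le [DecidableEq ι] (h : NxE B Q T U F i j M W a b c m m' p) (hm : MTN B Q T U F)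
    (hr : Reg B Q) : nt B (insert a (insert b W)) 1 + 5 ≤ nt B M 1 + nt B W 1 := by
  obtain ⟨U1, F1, h'⟩ := h.exists_new
  obtain ⟨h1, _, _⟩ := h.mte hm.toMTE h'
  have h2 := hm.nmax hr _ _ _ h1
  obtain ⟨hn1, hn2⟩ := h.Fs_not
  rw [h.F_new hm.toMTE h', sum_insert hn2, sum_insert hn1, nt_point hr (Frm.DQ h.pD),
    ← add_sum_erase F _ h.ex.hW, ← add_sum_erase (F.erase M) _ (mem_erase.2 ⟨h.hne, h.hW⟩)] at h2
  omega

/-- **the new leaf is free together with every other leaf**, if `W` was and no point of `U` sees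
`M`. -/
theorem own_new (h : NxE B Q T U F i j M W a b c m m' p) (hU : hit B U M = 0)
    (hown : ∀ L ∈ F, L ≠ W → ∀ Z ⊆ U, Z.card ≤ (nbF (gr B) (F \ {W, L}) Z).card) :
    ∀ L ∈ insert (insert a (insert b W)) (insert {p} ((F.erase M).erase W)),
      L ≠ insert a (insert b W) → ∀ Z ⊆ U, Z.card ≤ (nbF (gr B)
        (insert (insert a (insert b W)) (insert {p} ((F.erase M).erase W)) \
          {insert a (insert b W), L}) Z).card := by
  intro L hL hne Z hZ
  obtain ⟨hn1, hn2⟩ := h.Fs_not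
  have hnoU : ∀ z ∈ Z, ∀ y ∈ M, ¬ (gr B).Adj z y := by
    rintro z hz y hy ⟨_, k, h1, h2⟩
    unfold hit at hU
    have h3 := sum_eq_zero_iff.1 hU k (cost_mem_tch.2 ⟨y, mem_inter.2 ⟨h2, hy⟩⟩)
    rw [card_eq_zero] at h3
    exact notMem_empty z (h3 ▸ mem_inter.2 ⟨h1, hZ hz⟩)
  rcases mem_insert.1 hL with h1 | h1
  · exact absurd h1 hne
  rcases mem_insert.1 h1 with h2 | h2
  · subst h2
    refine (h.hfree W h.hW h.hne Z hZ).trans (card_le_card ?_)
    intro C hC
    obtain ⟨h3, h4⟩ := mem_nbF.1 hC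
    obtain ⟨h5, h6⟩ := mem_sdiff.1 h3
    rw [mem_insert, mem_singleton, not_or] at h6
    have h7 : C ∈ (F.erase M).erase W := mem_erase.2 ⟨h6.2, mem_erase.2 ⟨h6.1, h5⟩⟩
    refine mem_nbF.2 ⟨mem_sdiff.2 ⟨mem_insert_of_mem (mem_insert_of_mem h7), ?_⟩, h4⟩
    rw [mem_insert, mem_singleton, not_or]
    exact ⟨fun h8 => hn2 (h8 ▸ mem_insert_of_mem h7), fun h8 => hn1 (h8 ▸ h7)⟩
  · obtain ⟨h3, h4⟩ := mem_erase.1 h2
    obtain ⟨h5, h6⟩ := mem_erase.1 h4
    refine (hown L h6 h3 Z hZ).trans (card_le_card ?_)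
    intro C hC
    obtain ⟨h7, z, hz, y, hy, hadj⟩ := mem_nbF.1 hC
    obtain ⟨h8, h9⟩ := mem_sdiff.1 h7
    rw [mem_insert, mem_singleton, not_or] at h9
    have hCM : C ≠ M := fun h10 => hnoU z hz y (h10 ▸ hy) hadj
    have h10 : C ∈ (F.erase M).erase W := mem_erase.2 ⟨h9.1, mem_erase.2 ⟨hCM, h8⟩⟩
    refine mem_nbF.2 ⟨mem_sdiff.2 ⟨mem_insert_of_mem (mem_insert_of_mem h10), ?_⟩,
      z, hz, y, hy, hadj⟩
    rw [mem_insert, mem_singleton, not_or]
    exact ⟨fun h11 => hn2 (h11 ▸ mem_insert_of_mem h10), h9.2⟩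

omit [Fintype ι] in
/-- the new block is not in the rest of the packing. -/
theorem i_not [DecidableEq ι] (h : NxE B Q T U F i j M W a b c m m' p) : i ∉ T.erase j := by
  intro h1
  obtain ⟨h2, h3⟩ := mem_erase.1 h1
  have h4 := h.frm.mtp.tpk.pack.disj i h3 j h.ex.hj h2
  have hc : c ∈ B i ∩ Q := by rw [h.ex.hiQ]; simp
  exact disjoint_left.1 h4 hc h.ex.tj

/-- the single traces of the new leaf at a point leaf with five hits. -/
theorem nt_new (h : NxE B Q T U F i j M W a b c m m' p) {x : V} (hWx : W = {x}) (hr : Reg B Q)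
    (hs : uh B a {x} + uh B b {x} = 5) :
    (univ.filter fun k => a ∈ B k ∧ b ∈ B k ∧ x ∉ B k).card ≤ 2 ∧
      5 ≤ nt B (insert a (insert b W)) 1 +
        2 * (univ.filter fun k => a ∈ B k ∧ b ∈ B k ∧ x ∉ B k).card := by
  classical
  subst hWx
  have ha : a ∈ Q := (mem_inter.1 h.ex.xj).2
  have hb : b ∈ Q := (mem_inter.1 h.ex.yj).2
  have hxQ : x ∈ Q := h.frm.FQ h.hW (mem_singleton_self x)
  have haW : a ∉ ({x} : Finset V) := fun h3 => h.ex.xD (h.frm.FD h.hW h3)
  have hbW : b ∉ ({x} : Finset V) := fun h3 => h.ex.yD (h.frm.FD h.hW h3)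
  have h1 := nt_pair_ge hr ha hb h.ex.dis.2.2 haW hbW
  rw [nt_point hr hxQ] at h1
  have h2 : (univ.filter fun k => a ∈ B k ∧ b ∈ B k ∧ ¬ (B k ∩ {x}).Nonempty) =
      univ.filter fun k => a ∈ B k ∧ b ∈ B k ∧ x ∉ B k := by
    ext k
    have h3 : (B k ∩ {x}).Nonempty ↔ x ∈ B k := by
      constructor
      · rintro ⟨y, hy⟩
        obtain ⟨h4, h5⟩ := mem_inter.1 hy
        exact mem_singleton.1 h5 ▸ h4
      · exact fun h4 => ⟨x, mem_inter.2 ⟨h4, mem_singleton_self x⟩⟩
    simp only [mem_filter, mem_univ, true_and, h3]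
  rw [h2] at h1
  refine ⟨?_, by omega⟩
  have h3 := off_point hr ha x
  have h4 := off_point hr hb x
  have h5 : (univ.filter fun k => a ∈ B k ∧ b ∈ B k ∧ x ∉ B k).card ≤
      (univ.filter fun k => a ∈ B k ∧ x ∉ B k).card := by
    refine card_le_card fun k hk => ?_
    obtain ⟨_, h6, _, h7⟩ := mem_filter.1 hk
    exact mem_filter.2 ⟨mem_univ _, h6, h7⟩
  have h6 : (univ.filter fun k => a ∈ B k ∧ b ∈ B k ∧ x ∉ B k).card ≤
      (univ.filter fun k => b ∈ B k ∧ x ∉ B k).card := by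
    refine card_le_card fun k hk => ?_
    obtain ⟨_, _, h6, h7⟩ := mem_filter.1 hk
    exact mem_filter.2 ⟨mem_univ _, h6, h7⟩
  omega

/-- a point with three hits at the point leaf shares its other blocks with the second point. -/
theorem off_pair [DecidableEq ι] (h : NxE B Q T U F i j M W a b c m m' p) {x : V} (hWx : W = {x})
    (hm : MTN B Q T U F) (hr : Reg B Q) (hs : uh B a {x} + uh B b {x} = 5)
    (ha : uh B a {x} = 3) (hM1 : nt B M 1 ≤ 1) {r : ι} (har : a ∈ B r) (hxr : x ∉ B r) :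
    b ∈ B r := by
  have hxQ : x ∈ Q := h.frm.FQ h.hW (hWx ▸ mem_singleton_self x)
  have h1 := h.nt_le hm hr
  obtain ⟨h2, h3⟩ := h.nt_new hWx hr hs
  have h4 : nt B W 1 = 5 := by rw [hWx]; exact nt_point hr hxQ
  have h5 := off_point hr (mem_inter.1 h.ex.xj).2 x
  have h6 : (univ.filter fun k => a ∈ B k ∧ b ∈ B k ∧ x ∉ B k) =
      univ.filter fun k => a ∈ B k ∧ x ∉ B k := by
    refine eq_of_subset_of_card_le (fun k hk => ?_) (by omega)
    obtain ⟨_, h6, _, h7⟩ := mem_filter.1 hk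
    exact mem_filter.2 ⟨mem_univ _, h6, h7⟩
  have h7 : r ∈ univ.filter fun k => a ∈ B k ∧ x ∉ B k := mem_filter.2 ⟨mem_univ _, har, hxr⟩
  rw [← h6] at h7
  exact (mem_filter.1 h7).2.2.1

end NxE

/-- the rest of a leaf with three points and another leaf are not both seen by the two other points of
a triple with a full hit. -/
theorem Frm.Exl.not_adj [DecidableEq ι] {Q U : Finset V} {T : Finset ι} {F : Finset (Finset V)}
    {i j : ι} {W : Finset V} {t y z w w' : V} (h : Frm.Exl B Q T U F i j W t y z w w')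
    (hW3 : W.card = 3)
    (hfree : ∀ L ∈ F, L ≠ W → ∀ Z ⊆ U, Z.card ≤ (nbF (gr B) (F \ {W, L}) Z).card) {p : V}
    (hp : W \ {w, w'} = {p}) {L : Finset V} (hL : L ∈ F) (hne : L ≠ W)
    (hz : ∃ l ∈ L, (gr B).Adj z l) : ¬ (gr B).Adj y p := by
  rintro ⟨_, r, hyr, hpr⟩
  have hf := h.frm
  have hpW : p ∈ W := by
    have h1 : p ∈ W \ {w, w'} := by rw [hp]; exact mem_singleton_self p
    exact (mem_sdiff.1 h1).1
  have hfr : Frr B (Dp B Q T) {W, L} := hf.frr_of_hall (by
    intro C hC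
    rcases mem_insert.1 hC with rfl | hC
    · exact h.hW
    · rw [mem_singleton.1 hC]; exact hL) (hfree L hL hne)
  have hzL : z ∉ L := fun h1 => h.yD (hf.FD hL h1)
  have hc1 : Cov B (insert z L) := by
    intro v hv
    rcases mem_insert.1 hv with h1 | h1
    · exact h.cov_xy v (by rw [h1]; simp)
    · exact hf.covF L hL v h1
  have hc2 : Cov B ({y, p} : Finset V) := by
    intro v hv
    rcases mem_insert.1 hv with h1 | h1
    · exact ⟨r, h1 ▸ hyr⟩
    · exact ⟨r, mem_singleton.1 h1 ▸ hpr⟩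
  have h2 : rho B ({y, p} : Finset V) ≤ 1 := by
    refine rho_le_one (i := r) ?_
    intro v hv
    rcases mem_insert.1 hv with h1 | h1
    · exact h1 ▸ hyr
    · exact mem_singleton.1 h1 ▸ hpr
  have h3 := rho_insert_fc (hf.ge.sys.fc L hL) (hf.sv_leaf hL) hz hzL
  have h4 := rho_union_le hc2 hc1
  have h5 := hfr.rho_le hf.covD (hc2.union hc1) (W := (Dp B Q T \ {w, w'}) ∪ {y, z}) (by
    intro v hv
    have e : ({W, L} : Finset (Finset V)).biUnion id = W ∪ L := by
      rw [biUnion_insert, singleton_biUnion]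
      rfl
    rw [e]
    rcases mem_union.1 hv with hv | hv
    · obtain ⟨h6, h7⟩ := mem_sdiff.1 hv
      by_cases hvW : v ∈ W
      · have h8 : v ∈ W \ {w, w'} := mem_sdiff.2 ⟨hvW, h7⟩
        rw [hp] at h8
        rw [mem_singleton.1 h8]
        exact mem_union_right _ (mem_union_left _ (by simp))
      by_cases hvL : v ∈ L
      · exact mem_union_right _ (mem_union_right _ (mem_insert_of_mem hvL))
      · refine mem_union_left _ (mem_sdiff.2 ⟨h6, fun h9 => ?_⟩)
        rcases mem_union.1 h9 with h9 | h9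
        · exact hvW h9
        · exact hvL h9
    · rcases mem_insert.1 hv with h6 | h6
      · exact mem_union_right _ (mem_union_left _ (by rw [h6]; simp))
      · exact mem_union_right _ (mem_union_right _ (by rw [mem_singleton.1 h6]; simp)))
  rw [h.rho_new_eq, sum_pair hne.symm] at h5
  have h6 := hf.card_leaf h.hW
  rw [hW3] at h6
  push_cast at h6
  omega

/-- **the exchange at the second triple**: data in the frame exchanged at the first one. -/
theorem NxE.second [DecidableEq ι] {Q U : Finset V} {T : Finset ι} {F : Finset (Finset V)}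
    {i j : ι} {M : Finset V} {a b c m m' p x : V}
    (h : NxE B Q T U F i j M {x} a b c m m' p) (hm : MTN B Q T U F) (hr : Reg B Q)
    (hs : uh B a {x} + uh B b {x} = 5) (ha : uh B a {x} = 3) (hM1 : nt B M 1 ≤ 1)
    (hU : hit B U M = 0)
    (xown : ∀ L ∈ F, L ≠ {x} → ∀ Z ⊆ U, Z.card ≤ (nbF (gr B) (F \ {{x}, L}) Z).card)
    {k l : ι} (hk : k ∈ T) (hkj : k ≠ j) {a' b' v x' : V} (hkQ : B k ∩ Q = {a', b', v})
    (hx' : {x'} ∈ F) (hxx : x' ≠ x) (aX : (gr B).Adj a' x') (bX : (gr B).Adj b' x')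
    (aL : ∀ L ∈ F, L ≠ {x'} → ∀ y ∈ L, ¬ (gr B).Adj a' y)
    (bL : ∀ L ∈ F, L ≠ {x'} → ∀ y ∈ L, ¬ (gr B).Adj b' y)
    (hxl : x ∈ B l) (hal : a ∈ B l) (hvl : v ∈ B l) {F1 : Finset (Finset V)}
    (hF1 : F1 = insert (insert a (insert b {x})) (insert {p} ((F.erase M).erase {x})))
    (h' : Frm B Q (insert i (T.erase j)) U F1) :
    NxE B Q (insert i (T.erase j)) U F1 l k (insert a (insert b {x})) {x'} a' b' v x a b := by
  have hf := h.frm
  have hxF : {x} ∈ F := h.hW
  have hxQ : x ∈ Q := hf.FQ hxF (mem_singleton_self x)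
  have haQ : a ∈ Q := (mem_inter.1 h.ex.xj).2
  have hax : a ≠ x := fun he => h.ex.xD (he ▸ hf.FD hxF (mem_singleton_self x))
  have hbx : b ≠ x := fun he => h.ex.yD (he ▸ hf.FD hxF (mem_singleton_self x))
  have hab : a ≠ b := h.ex.dis.2.2
  have hvk : v ∈ B k ∩ Q := by rw [hkQ]; simp
  have hdis := hf.mtp.tpk.pack.disj j h.ex.hj k hk hkj.symm
  have hva : v ≠ a := fun he => disjoint_left.1 hdis h.ex.xj (he ▸ hvk)
  have hvx : v ≠ x := fun he => Frm.T_notD (Q := Q) hk (mem_inter.1 hvk).1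
    (he ▸ hf.FD hxF (mem_singleton_self x))
  have hkT : k ∈ insert i (T.erase j) := mem_insert_of_mem (mem_erase.2 ⟨hkj, hk⟩)
  set Z : Finset V := insert a (insert b {x}) with hZ
  have hZF : Z ∈ F1 := by rw [hF1]; exact mem_insert_self _ _
  have hZ3 : Z.card = 3 := by
    rw [hZ, card_insert_of_notMem (by simp [hab, hax]), card_insert_of_notMem (by simp [hbx]),
      card_singleton]
  have hM1' : M ≠ {x'} := fun he => by
    have h1 := h.hM3
    rw [he, card_singleton] at h1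
    omega
  have hxF1 : {x'} ∈ F1 := by
    rw [hF1]
    refine mem_insert_of_mem (mem_insert_of_mem (mem_erase.2 ⟨fun he => hxx ?_,
      mem_erase.2 ⟨hM1'.symm, hx'⟩⟩))
    exact singleton_injective he
  have hne : ({x'} : Finset V) ≠ Z := fun he => by
    rw [← he, card_singleton] at hZ3
    omega
  have hlQ : B l ∩ Q = {v, x, a} := by
    symm
    refine eq_of_subset_of_card_le ?_ ?_
    · intro y hy
      simp only [mem_insert, mem_singleton] at hy
      rcases hy with rfl | rfl | rfl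
      · exact mem_inter.2 ⟨hvl, (mem_inter.1 hvk).2⟩
      · exact mem_inter.2 ⟨hxl, hxQ⟩
      · exact mem_inter.2 ⟨hal, haQ⟩
    · rw [card_insert_of_notMem (by simp [hva, hvx]), card_pair (Ne.symm hax)]
      exact hf.reg3 l
  have hE : Frm.Exl B Q (insert i (T.erase j)) U F1 l k Z v a' b' x a := by
    refine ⟨h', hkT, ?_, hlQ, Ne.symm hax, hZF, ?_, ?_⟩
    · rw [hkQ]
      ext y
      simp only [mem_insert, mem_singleton]
      tauto
    · rw [hZ]; simp
    · rw [hZ]; simp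
  have hp : Z \ {x, a} = {b} := by
    ext y
    simp only [hZ, mem_sdiff, mem_insert, mem_singleton, not_or]
    constructor
    · rintro ⟨h1 | h1 | h1, h2, h3⟩
      · exact absurd h1 h3
      · exact h1
      · exact absurd h1 h2
    · rintro rfl
      exact ⟨Or.inr (Or.inl rfl), hbx, hab.symm⟩
  have hfree : ∀ L ∈ F1, L ≠ Z → ∀ Y ⊆ U, Y.card ≤ (nbF (gr B) (F1 \ {Z, L}) Y).card := by
    rw [hF1]
    exact h.own_new hU xown
  -- the two points see no point of the new leaf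
  have hswap : Frm.Exl B Q (insert i (T.erase j)) U F1 l k Z v b' a' x a := by
    refine ⟨h', hkT, ?_, hlQ, Ne.symm hax, hZF, hE.hw, hE.hw'⟩
    rw [hkQ]
    ext y
    simp only [mem_insert, mem_singleton]
    tauto
  have nb1 : ¬ (gr B).Adj a' b := hE.not_adj hZ3 hfree hp hxF1 hne
    ⟨x', mem_singleton_self x', bX⟩
  have nb2 : ¬ (gr B).Adj b' b := hswap.not_adj hZ3 hfree hp hxF1 hne
    ⟨x', mem_singleton_self x', aX⟩
  have key : ∀ z : V, z ∈ B k ∩ Q → (∀ L ∈ F, L ≠ {x'} → ∀ y ∈ L, ¬ (gr B).Adj z y) →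
      ¬ (gr B).Adj z b → ∀ L ∈ F1, L ≠ {x'} → ∀ y ∈ L, ¬ (gr B).Adj z y := by
    intro z hz hzL hzb L hL hLx y hy hzy
    have hzx : ∀ y ∈ ({x} : Finset V), ¬ (gr B).Adj z y :=
      hzL {x} hxF fun he => hxx (singleton_injective he).symm
    rw [hF1] at hL
    rcases mem_insert.1 hL with h1 | h1
    · rw [h1] at hy
      rcases mem_insert.1 hy with h2 | h2
      · subst h2
        obtain ⟨_, r, hzr, hyr⟩ := hzy
        by_cases hxr : x ∈ B r
        · refine hzx x (mem_singleton_self x) ⟨fun he => ?_, r, hzr, hxr⟩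
          exact Frm.T_notD (Q := Q) hk (mem_inter.1 hz).1
            (he ▸ hf.FD hxF (mem_singleton_self x))
        · have hbr := h.off_pair rfl hm hr hs ha hM1 hyr hxr
          refine hzb ⟨fun he => ?_, r, hzr, hbr⟩
          exact disjoint_left.1 hdis h.ex.yj (he ▸ hz)
      · rcases mem_insert.1 h2 with h3 | h3
        · exact hzb (h3 ▸ hzy)
        · exact hzx y h3 hzy
    rcases mem_insert.1 h1 with h2 | h2
    · rw [h2, mem_singleton] at hy
      exact hzL M h.ex.hW hM1' p h.pM.1 (hy ▸ hzy)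
    · exact hzL L (mem_erase.1 (mem_erase.1 h2).2).2 hLx y hy hzy
  refine ⟨hE, hp, hZ3, hfree, hxF1, hne, ⟨x', mem_singleton_self x', aX⟩,
    ⟨x', mem_singleton_self x', bX⟩, key a' (by rw [hkQ]; simp) aL nb1,
    key b' (by rw [hkQ]; simp) bL nb2⟩

/-- **the two exchanges.** -/
theorem MTN.two_new [DecidableEq ι] {Q U : Finset V} {T : Finset ι} {F : Finset (Finset V)}
    (hq : MTN B Q T U F) (hr : Reg B Q) {i j : ι} {M : Finset V} {a b c m m' p x : V}
    (h : NxE B Q T U F i j M {x} a b c m m' p)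
    (hs : uh B a {x} + uh B b {x} = 5) (ha : uh B a {x} = 3) (hM1 : nt B M 1 ≤ 1)
    (hU : hit B U M = 0)
    (xown : ∀ L ∈ F, L ≠ {x} → ∀ Z ⊆ U, Z.card ≤ (nbF (gr B) (F \ {{x}, L}) Z).card)
    {k l : ι} (hk : k ∈ T) (hkj : k ≠ j) {a' b' v x' : V} (hkQ : B k ∩ Q = {a', b', v})
    (hx' : {x'} ∈ F) (hxx : x' ≠ x) (aX : (gr B).Adj a' x') (bX : (gr B).Adj b' x')
    (aL : ∀ L ∈ F, L ≠ {x'} → ∀ y ∈ L, ¬ (gr B).Adj a' y)
    (bL : ∀ L ∈ F, L ≠ {x'} → ∀ y ∈ L, ¬ (gr B).Adj b' y)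
    (hs' : uh B a' {x'} + uh B b' {x'} = 5)
    (hxl : x ∈ B l) (hal : a ∈ B l) (hvl : v ∈ B l) :
    k ∈ insert i (T.erase j) ∧ l ∉ (insert i (T.erase j)).erase k ∧
      ∃ U2 F2, MTN B Q (insert l ((insert i (T.erase j)).erase k)) U2 F2 := by
  obtain ⟨U1, F1, h'⟩ := h.exists_new
  obtain ⟨_, hU1, _⟩ := h.mte hq.toMTE h'
  subst hU1
  have hF1 := h.F_new hq.toMTE h'
  have hxQ : x ∈ Q := h.frm.FQ h.hW (mem_singleton_self x)
  have hxQ' : x' ∈ Q := h.frm.FQ hx' (mem_singleton_self x')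
  have h1 := h.nt_le hq hr
  obtain ⟨h2, h3⟩ := h.nt_new rfl hr hs
  rw [nt_point hr hxQ] at h1
  have hmn : MTN B Q (insert i (T.erase j)) U1 F1 := h.mtn hq (fun _ => by
    rw [nt_point hr hxQ]
    omega) h'
  have hN := h.second hq hr hs ha hM1 hU xown hk hkj hkQ hx' hxx aX bX aL bL hxl hal hvl
    hF1 h'
  obtain ⟨U2, F2, h''⟩ := hN.exists_new
  obtain ⟨h4, h5⟩ := hN.nt_new rfl hr hs'
  exact ⟨hN.ex.hj, hN.i_not, U2, F2, hN.mtn hmn (fun _ => by
      rw [nt_point hr hxQ']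
      omega) h''⟩

end Pool.Agent.Hyp6
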