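import Pool.Agent.Hyp6.L3N2
import Pool.Agent.Hyp6.L3N1s

/-!
# HYP6 L3N3: triples of type B with five hits at a point and a full hit on a leaf with three points

`Xf`: a triple `{a, b, c}` of type B centred at the point leaf `{x}` (its own class), `a` three hits,
`b` two hits on `x`. `StgR.x5_nx`: if the third point has a full hit on a leaf `M` (own class, three
points, one single trace), then the two points have hits `(3 | 2)` and the exchange data `NxE` exist.
`Xf.th_le`: the weight of the triple is at most four if the third point has four leaf hits and no hit on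
`x`. `Xf.no_A`, `Xf.no_two`: such a triple has no full hit on the pair of `M` with three blocks; two such
triples do not meet at a block `{x, a, v}`.
-/

set_option autoImplicit false

namespace Pool.Agent.Hyp6

open Finset Pool.Agent.Hyp5 Rt

universe u v

variable {V : Type v} [DecidableEq V] {ι : Type u} [Fintype ι] {B : ι → Finset V}

/-- all blocks of a point of a triple with four leaf hits meet the leaves. -/
theorem Frm.meet_of_four {Q U : Finset V} {T : Finset ι} {F : Finset (Finset V)}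
    (h : Frm B Q T U F) (hr : Reg B Q) {j : ι} (hj : j ∈ T) {c : V} (hc : c ∈ B j ∩ Q)
    (h4 : ∑ L ∈ F, uh B c L = 4) {l : ι} (hl : c ∈ B l) (hlj : l ≠ j) :
    ∃ L ∈ F, ∃ y ∈ L, y ∈ B l := by
  classical
  have h1 : ∑ L ∈ F, uh B c L = hit B {c} (F.biUnion id) := (hit_biUnion _ h.sepF).symm
  rw [h4, hit_eq, sum_singleton] at h1
  by_contra hcon
  push Not at hcon
  have hjn : j ∉ univ.filter (fun i => c ∈ B i ∧ (B i ∩ F.biUnion id).Nonempty) := by
    intro hk
    obtain ⟨_, _, w, hw⟩ := mem_filter.1 hk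
    obtain ⟨hwk, hwF⟩ := mem_inter.1 hw
    obtain ⟨C, hC, hwC⟩ := mem_biUnion.1 hwF
    exact (mem_sdiff.1 (h.FD hC hwC)).2 (mem_biUnion.2 ⟨j, hj, hwk⟩)
  have hln : l ∉ univ.filter (fun i => c ∈ B i ∧ (B i ∩ F.biUnion id).Nonempty) := by
    intro hk
    obtain ⟨_, _, w, hw⟩ := mem_filter.1 hk
    obtain ⟨hwk, hwF⟩ := mem_inter.1 hw
    obtain ⟨C, hC, hwC⟩ := mem_biUnion.1 hwF
    exact hcon C hC w hwC hwk
  have h3 : insert l (insert j
      (univ.filter (fun i => c ∈ B i ∧ (B i ∩ F.biUnion id).Nonempty))) ⊆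
      univ.filter (fun i => c ∈ B i) := by
    intro k hk
    rw [mem_insert, mem_insert] at hk
    rcases hk with rfl | rfl | hk
    · exact mem_filter.2 ⟨mem_univ _, hl⟩
    · exact mem_filter.2 ⟨mem_univ _, (mem_inter.1 hc).1⟩
    · exact mem_filter.2 ⟨mem_univ _, (mem_filter.1 hk).2.1⟩
  have h5 := card_le_card h3
  rw [card_insert_of_notMem (by rw [mem_insert, not_or]; exact ⟨hlj, hln⟩),
    card_insert_of_notMem hjn, hr c (mem_inter.1 hc).2] at h5
  omega

namespace NxE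

variable {Q U : Finset V} {T : Finset ι} {F : Finset (Finset V)} {i j : ι} {M W : Finset V}
  {a b c m m' p x : V}

/-- both points have at least two hits on the point leaf. -/
theorem min_hits [DecidableEq ι] (h : NxE B Q T U F i j M {x} a b c m m' p) (hm : MTN B Q T U F)
    (hr : Reg B Q) (hM1 : nt B M 1 ≤ 1) : 2 ≤ uh B a {x} ∧ 2 ≤ uh B b {x} ∧
      7 ≤ uh B a {x} + uh B b {x} +
        (univ.filter fun k => a ∈ B k ∧ b ∈ B k ∧ x ∉ B k).card := by
  classical
  have ha : a ∈ Q := (mem_inter.1 h.ex.xj).2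
  have hb : b ∈ Q := (mem_inter.1 h.ex.yj).2
  have hxQ : x ∈ Q := h.frm.FQ h.hW (mem_singleton_self x)
  have haW : a ∉ ({x} : Finset V) := fun h3 => h.ex.xD (h.frm.FD h.hW h3)
  have hbW : b ∉ ({x} : Finset V) := fun h3 => h.ex.yD (h.frm.FD h.hW h3)
  have h1 := nt_pair_ge hr ha hb h.ex.dis.2.2 haW hbW
  have h8 := h.nt_le hm hr
  rw [nt_point hr hxQ] at h1 h8
  have h2 : (univ.filter fun k => a ∈ B k ∧ b ∈ B k ∧ ¬ (B k ∩ {x}).Nonempty) =
      univ.filter fun k => a ∈ B k ∧ b ∈ B k ∧ x ∉ B k := by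
    ext k
    have h3 : (B k ∩ {x}).Nonempty ↔ x ∈ B k := by
      constructor
      · rintro ⟨y, hy⟩
        obtain ⟨h4, h5⟩ := mem_inter.1 hy
        exact mem_singleton.1 h5 ▸ h4
      · exact fun h4 => ⟨x, mem_inter.2 ⟨h4, mem_singleton_self x⟩⟩
    simp only [mem_filter, mem_univ, true_and, h3]
  rw [h2] at h1
  have h3 := off_point hr ha x
  have h4 := off_point hr hb x
  have h5 : (univ.filter fun k => a ∈ B k ∧ b ∈ B k ∧ x ∉ B k).card ≤
      (univ.filter fun k => a ∈ B k ∧ x ∉ B k).card := by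
    refine card_le_card fun k hk => ?_
    obtain ⟨_, h6, _, h7⟩ := mem_filter.1 hk
    exact mem_filter.2 ⟨mem_univ _, h6, h7⟩
  have h6 : (univ.filter fun k => a ∈ B k ∧ b ∈ B k ∧ x ∉ B k).card ≤
      (univ.filter fun k => b ∈ B k ∧ x ∉ B k).card := by
    refine card_le_card fun k hk => ?_
    obtain ⟨_, _, h6, h7⟩ := mem_filter.1 hk
    exact mem_filter.2 ⟨mem_univ _, h6, h7⟩
  omega

/-- the exchange with the two points named in the other order. -/
theorem swap (h : NxE B Q T U F i j M W a b c m m' p) : NxE B Q T U F i j M W b a c m m' p := by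
  refine ⟨⟨h.ex.frm, h.ex.hj, ?_, h.ex.hiQ, h.ex.hww, h.ex.hW, h.ex.hw, h.ex.hw'⟩, h.hp, h.hM3,
    h.hfree, h.hW, h.hne, h.bW, h.aW, h.bL, h.aL⟩
  rw [h.ex.hjQ, pair_comm a b]

end NxE

/-- the weight of a block `{c, m, m'}` with `n` common blocks of `m` and `m'`. -/
theorem th_ge_pair {Q : Finset V} {i : ι} {c m m' : V} (hi : B i ∩ Q = {c, m, m'})
    (hcard : (B i ∩ Q).card = 3) (hmm : m ≠ m') :
    (univ.filter fun k => m ∈ B k ∧ m' ∈ B k).card + 2 ≤ thj B Q i := by
  classical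
  have hm : m ∈ B i ∩ Q := by rw [hi]; simp
  have hm' : m' ∈ B i ∩ Q := by rw [hi]; simp
  have hii : i ∈ univ.filter fun k => m ∈ B k ∧ m' ∈ B k :=
    mem_filter.2 ⟨mem_univ _, (mem_inter.1 hm).1, (mem_inter.1 hm').1⟩
  unfold thj
  have h1 : ∑ l ∈ univ.filter (fun k => m ∈ B k ∧ m' ∈ B k), wth (B l ∩ (B i ∩ Q)).card ≤
      ∑ l, wth (B l ∩ (B i ∩ Q)).card :=
    sum_le_sum_of_subset (filter_subset _ _)
  rw [← add_sum_erase _ _ hii] at h1
  have h2 : wth (B i ∩ (B i ∩ Q)).card = 3 := by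
    rw [← inter_assoc, inter_self, hcard]
    rfl
  have h3 : ((univ.filter fun k => m ∈ B k ∧ m' ∈ B k).erase i).card ≤
      ∑ l ∈ (univ.filter fun k => m ∈ B k ∧ m' ∈ B k).erase i, wth (B l ∩ (B i ∩ Q)).card := by
    rw [card_eq_sum_ones]
    refine sum_le_sum fun l hl => ?_
    obtain ⟨_, h4, h5⟩ := mem_filter.1 (mem_of_mem_erase hl)
    have h6 : ({m, m'} : Finset V) ⊆ B l ∩ (B i ∩ Q) := by
      intro y hy
      rcases mem_insert.1 hy with h7 | h7
      · exact h7 ▸ mem_inter.2 ⟨h4, hm⟩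
      · exact mem_singleton.1 h7 ▸ mem_inter.2 ⟨h5, hm'⟩
    have h7 := card_le_card h6
    rw [card_pair hmm] at h7
    have h8 := card_le_card (inter_subset_right : B l ∩ (B i ∩ Q) ⊆ B i ∩ Q)
    rw [hcard] at h8
    have h9 : (B l ∩ (B i ∩ Q)).card = 2 ∨ (B l ∩ (B i ∩ Q)).card = 3 := by omega
    rcases h9 with h9 | h9
    · rw [h9]
      exact le_of_eq rfl
    · rw [h9]
      unfold wth
      norm_num
  have h4 := card_erase_add_one hii
  omega

/-- the pairs of a leaf with three points and at most one single trace. -/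
theorem Frm.pair_card {Q U : Finset V} {T : Finset ι} {F : Finset (Finset V)}
    (h : Frm B Q T U F) (hr : Reg B Q) {M : Finset V} (hM : M ∈ F) {m m' p : V}
    (hMe : M = {m, m', p}) (hmm : m ≠ m') (hmp : m ≠ p) (hmp' : m' ≠ p) (h1 : nt B M 1 ≤ 1) :
    (univ.filter fun k => m ∈ B k ∧ m' ∈ B k).card =
      2 + (univ.filter fun k => p ∈ B k ∧ m ∉ B k ∧ m' ∉ B k).card := by
  classical
  have hM3 : M.card = 3 := by
    rw [hMe]
    exact card_eq_three.2 ⟨m, m', p, hmm, hmp, hmp', rfl⟩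
  have hMQ := h.FQ hM
  have hQ : ∀ z ∈ M, (univ.filter fun k => z ∈ B k).card = 5 := fun z hz => hr z (hMQ hz)
  have hno : ∀ k, ¬ (m ∈ B k ∧ m' ∈ B k ∧ p ∈ B k) := by
    rintro k ⟨h2, h3, h4⟩
    have h5 : M ⊆ B k := by
      rw [hMe]
      intro z hz
      simp only [mem_insert, mem_singleton] at hz
      rcases hz with rfl | rfl | rfl <;> assumption
    have h6 := rho_le_one h5
    have h7 := h.card_leaf hM
    rw [hM3] at h7
    push_cast at h7
    omega
  have e : ∀ k, (B k ∩ M).card = (if m ∈ B k then 1 else 0) + ((if m' ∈ B k then 1 else 0) +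
      (if p ∈ B k then 1 else 0)) := by
    intro k
    rw [hMe]
    have e0 : ({m, m', p} : Finset V) = {m} ∪ ({m'} ∪ {p}) := by
      ext z
      simp only [mem_insert, mem_singleton, mem_union]
    have e1 : ∀ z : V, (B k ∩ {z}).card = if z ∈ B k then 1 else 0 := by
      intro z
      by_cases h2 : z ∈ B k
      · rw [inter_singleton_of_mem h2, card_singleton, if_pos h2]
      · rw [inter_singleton_of_notMem h2, card_empty, if_neg h2]
    rw [e0, inter_union_distrib_left, inter_union_distrib_left, card_union_of_disjoint,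
      card_union_of_disjoint, e1, e1, e1]
    · exact Disjoint.mono inter_subset_right inter_subset_right (disjoint_singleton.2 hmp')
    · rw [disjoint_union_right]
      exact ⟨Disjoint.mono inter_subset_right inter_subset_right (disjoint_singleton.2 hmm),
        Disjoint.mono inter_subset_right inter_subset_right (disjoint_singleton.2 hmp)⟩
  have q1 := hQ m (by rw [hMe]; simp)
  have q2 := hQ m' (by rw [hMe]; simp)
  have q3 := hQ p (by rw [hMe]; simp)
  unfold nt trs at h1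
  simp only [card_filter] at q1 q2 q3 h1 ⊢
  have key : (∑ k, if m ∈ B k then 1 else 0) + (∑ k, if m' ∈ B k then 1 else 0) + 0 =
      2 * (∑ k, if m ∈ B k ∧ m' ∈ B k then 1 else 0) +
      ((∑ k, if p ∈ B k then 1 else 0) - (∑ k, if p ∈ B k ∧ m ∉ B k ∧ m' ∉ B k then 1 else 0)) +
      ((∑ k, if (B k ∩ M).card = 1 then 1 else 0) -
        (∑ k, if p ∈ B k ∧ m ∉ B k ∧ m' ∉ B k then 1 else 0)) := by
    have hs1 : (∑ k, if p ∈ B k ∧ m ∉ B k ∧ m' ∉ B k then 1 else 0) ≤
        ∑ k, if p ∈ B k then 1 else 0 := by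
      refine sum_le_sum fun k _ => ?_
      split_ifs with h2 h3
      · exact le_rfl
      · exact absurd h2.1 h3
      · exact Nat.zero_le _
      · exact le_rfl
    have hs2 : (∑ k, if p ∈ B k ∧ m ∉ B k ∧ m' ∉ B k then 1 else 0) ≤
        ∑ k, if (B k ∩ M).card = 1 then 1 else 0 := by
      refine sum_le_sum fun k _ => ?_
      split_ifs with h2 h3
      · exact le_rfl
      · exfalso
        rw [e k, if_pos h2.1, if_neg h2.2.1, if_neg h2.2.2] at h3
        exact h3 rfl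
      · exact Nat.zero_le _
      · exact le_rfl
    have hs3 : (∑ k, if m ∈ B k then 1 else 0) + (∑ k, if m' ∈ B k then 1 else 0) +
        2 * (∑ k, if p ∈ B k ∧ m ∉ B k ∧ m' ∉ B k then 1 else 0) =
        2 * (∑ k, if m ∈ B k ∧ m' ∈ B k then 1 else 0) +
        (∑ k, if p ∈ B k then 1 else 0) + ∑ k, if (B k ∩ M).card = 1 then 1 else 0 := by
      rw [mul_sum, mul_sum, ← sum_add_distrib, ← sum_add_distrib, ← sum_add_distrib,
        ← sum_add_distrib]
      refine sum_congr rfl fun k _ => ?_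
      rw [e k]
      have h2 := hno k
      by_cases h3 : m ∈ B k <;> by_cases h4 : m' ∈ B k <;> by_cases h5 : p ∈ B k <;>
        simp [h3, h4, h5] at h2 ⊢
    omega
  have hp1 : (∑ k, if p ∈ B k ∧ m ∉ B k ∧ m' ∉ B k then 1 else 0) ≤
        ∑ k, if (B k ∩ M).card = 1 then 1 else 0 := by
    refine sum_le_sum fun k _ => ?_
    split_ifs with h2 h3
    · exact le_rfl
    · exfalso
      rw [e k, if_pos h2.1, if_neg h2.2.1, if_neg h2.2.2] at h3
      exact h3 rfl
    · exact Nat.zero_le _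
    · exact le_rfl
  omega

/-- **full hits on the new leaf**: `t` has a block with two points of `{x, a, b}`, `y` sees only `{x}`
and the two removed points of `M`; then `z` sees no other leaf and not the rest `p` of `M`. -/
theorem NxE.no_full_new [DecidableEq ι] {Q U : Finset V} {T : Finset ι} {F : Finset (Finset V)}
    {i j : ι} {M : Finset V} {a b c m m' p x : V} (h : NxE B Q T U F i j M {x} a b c m m' p)
    (hm : MTE B Q T U F) (hU : hit B U M = 0)
    (xown : ∀ L ∈ F, L ≠ {x} → ∀ Z ⊆ U, Z.card ≤ (nbF (gr B) (F \ {{x}, L}) Z).card) {k l : ι}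
    (hk : k ∈ T) (hkj : k ≠ j) {t y z : V} (hkQ : B k ∩ Q = {t, y, z})
    (hy : ∀ L ∈ F, L ≠ {x} → L ≠ M → ∀ w ∈ L, ¬ (gr B).Adj y w) (hyp : ¬ (gr B).Adj y p)
    (hz : (gr B).Adj z p ∨ ∃ L ∈ F, L ≠ {x} ∧ L ≠ M ∧ ∃ w ∈ L, (gr B).Adj z w)
    (ht : t ∈ B l) (hl : (B l ∩ insert a (insert b {x})).card = 2) : False := by
  obtain ⟨U1, F1, h'⟩ := h.exists_new
  obtain ⟨h1, hU1, _⟩ := h.mte hm h'
  subst hU1
  have hF1 := h.F_new hm h'
  have hf := h.frm
  have hxF : {x} ∈ F := h.hW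
  have hax : a ≠ x := fun he => h.ex.xD (he ▸ hf.FD hxF (mem_singleton_self x))
  have hbx : b ≠ x := fun he => h.ex.yD (he ▸ hf.FD hxF (mem_singleton_self x))
  have hab : a ≠ b := h.ex.dis.2.2
  have hkT : k ∈ insert i (T.erase j) := mem_insert_of_mem (mem_erase.2 ⟨hkj, hk⟩)
  obtain ⟨hn1, hn2⟩ := h.Fs_not
  set Z : Finset V := insert a (insert b {x}) with hZ
  have hZF : Z ∈ F1 := by rw [hF1]; exact mem_insert_self _ _
  have hpF : {p} ∈ F1 := by rw [hF1]; exact mem_insert_of_mem (mem_insert_self _ _)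
  have hZ3 : Z.card = 3 := by
    rw [hZ, card_insert_of_notMem (by simp [hab, hax]), card_insert_of_notMem (by simp [hbx]),
      card_singleton]
  have hfree : ∀ L ∈ F1, L ≠ Z → ∀ Y ⊆ U1, Y.card ≤ (nbF (gr B) (F1 \ {Z, L}) Y).card := by
    rw [hF1]
    exact h.own_new hU xown
  have hpZ : ({p} : Finset V) ≠ Z := fun he => by
    rw [← he, card_singleton] at hZ3
    omega
  refine h1.no_full3 hkT hZF hZ3 hfree hkQ ht hl (fun L hL hne w hw hyw => ?_) ?_
  · rw [hF1] at hL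
    rcases mem_insert.1 hL with h2 | h2
    · exact hne h2
    rcases mem_insert.1 h2 with h3 | h3
    · rw [h3, mem_singleton] at hw
      exact hyp (hw ▸ hyw)
    · obtain ⟨h4, h5⟩ := mem_erase.1 h3
      obtain ⟨h6, h7⟩ := mem_erase.1 h5
      exact hy L h7 h4 h6 w hw hyw
  · rcases hz with h2 | ⟨L, hL, hLx, hLM, hw⟩
    · exact ⟨{p}, hpF, hpZ, p, mem_singleton_self p, h2⟩
    · have h3 : L ∈ (F.erase M).erase {x} := mem_erase.2 ⟨hLx, mem_erase.2 ⟨hLM, hL⟩⟩
      refine ⟨L, by rw [hF1]; exact mem_insert_of_mem (mem_insert_of_mem h3), fun he => ?_, hw⟩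
      exact hn2 (mem_insert_of_mem (he ▸ h3))

/-- a triple of type B with hits `(3 | 2)` at the point leaf `{x}`. -/
structure Xf (B : ι → Finset V) (Q : Finset V) (T : Finset ι) (U : Finset V)
    (F : Finset (Finset V)) (j : ι) (a b c x : V) : Prop where
  frm : Frm B Q T U F
  hj : j ∈ T
  jQ : B j ∩ Q = {a, b, c}
  xF : {x} ∈ F
  xown : ∀ L ∈ F, L ≠ {x} → ∀ Z ⊆ U, Z.card ≤ (nbF (gr B) (F \ {{x}, L}) Z).card
  aL : ∀ L ∈ F, L ≠ {x} → ∀ y ∈ L, ¬ (gr B).Adj a y
  bL : ∀ L ∈ F, L ≠ {x} → ∀ y ∈ L, ¬ (gr B).Adj b y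
  ha : uh B a {x} = 3
  hb : uh B b {x} = 2
  dj : ∀ k, x ∈ B k → a ∈ B k → b ∉ B k
  c4 : ∑ L ∈ F, uh B c L = 4

namespace Xf

variable {Q U : Finset V} {T : Finset ι} {F : Finset (Finset V)} {j : ι} {a b c x : V}

theorem ne (h : Xf B Q T U F j a b c x) : a ≠ b ∧ a ≠ c ∧ b ≠ c := by
  have h1 : (B j ∩ Q).card = 3 := h.frm.mtp.tpk.pack.card j h.hj
  rw [h.jQ] at h1
  refine ⟨?_, ?_, ?_⟩
  · rintro rfl
    rw [insert_eq_of_mem (mem_insert_self _ _)] at h1
    have := card_le_two (a := a) (b := c)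
    omega
  · rintro rfl
    have h2 : ({a, b, a} : Finset V) = {b, a} := by
      ext v
      simp only [mem_insert, mem_singleton]
      tauto
    rw [h2] at h1
    have := card_le_two (a := b) (b := a)
    omega
  · rintro rfl
    rw [insert_eq_of_mem (mem_singleton_self b)] at h1
    have := card_le_two (a := a) (b := b)
    omega

theorem mj (h : Xf B Q T U F j a b c x) : a ∈ B j ∩ Q ∧ b ∈ B j ∩ Q ∧ c ∈ B j ∩ Q := by
  rw [h.jQ]
  simp

theorem xj (h : Xf B Q T U F j a b c x) : x ∉ B j := fun h1 =>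
  Frm.T_notD (Q := Q) h.hj h1 (h.frm.FD h.xF (mem_singleton_self x))

theorem xQ (h : Xf B Q T U F j a b c x) : x ∈ Q := h.frm.FQ h.xF (mem_singleton_self x)

/-- the leaf blocks of `a` or `b` contain `x`. -/
theorem see (h : Xf B Q T U F j a b c x) {k : ι} (hab : a ∈ B k ∨ b ∈ B k) {L : Finset V}
    (hL : L ∈ F) {y : V} (hy : y ∈ L) (hyk : y ∈ B k) : x ∈ B k := by
  have hya : a ≠ y := fun he => Frm.T_notD (Q := Q) h.hj (mem_inter.1 h.mj.1).1
    (he ▸ h.frm.FD hL hy)
  have hyb : b ≠ y := fun he => Frm.T_notD (Q := Q) h.hj (mem_inter.1 h.mj.2.1).1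
    (he ▸ h.frm.FD hL hy)
  have hLx : L = {x} := by
    by_contra hne
    rcases hab with h1 | h1
    · exact h.aL L hL hne y hy ⟨hya, k, h1, hyk⟩
    · exact h.bL L hL hne y hy ⟨hyb, k, h1, hyk⟩
  rw [hLx, mem_singleton] at hy
  exact hy ▸ hyk

/-- a further common block of `c` with `a` or `b` contains `x`. -/
theorem with_c (h : Xf B Q T U F j a b c x) (hr : Reg B Q) {l : ι} (hlj : l ≠ j) (hc : c ∈ B l)
    (hab : a ∈ B l ∨ b ∈ B l) : x ∈ B l := by
  obtain ⟨L, hL, y, hy, hyl⟩ := h.frm.meet_of_four hr h.hj h.mj.2.2 h.c4 hc hlj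
  exact h.see hab hL hy hyl

/-- every block of `x` contains `a` or `b`. -/
theorem x_ab (h : Xf B Q T U F j a b c x) (hr : Reg B Q) {l : ι} (hx : x ∈ B l) :
    a ∈ B l ∨ b ∈ B l := by
  classical
  have h1 := h.ha
  have h2 := h.hb
  rw [uh_point] at h1 h2
  have h3 := hr x h.xQ
  have h4 : Disjoint (univ.filter fun k => x ∈ B k ∧ a ∈ B k)
      (univ.filter fun k => x ∈ B k ∧ b ∈ B k) := by
    rw [disjoint_left]
    intro k hk hk2
    exact h.dj k (mem_filter.1 hk).2.1 (mem_filter.1 hk).2.2 (mem_filter.1 hk2).2.2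
  have h5 : (univ.filter fun k => x ∈ B k ∧ a ∈ B k) ∪
      (univ.filter fun k => x ∈ B k ∧ b ∈ B k) = univ.filter fun k => x ∈ B k := by
    refine eq_of_subset_of_card_le (fun k hk => ?_) ?_
    · rcases mem_union.1 hk with h6 | h6
      · exact mem_filter.2 ⟨mem_univ _, (mem_filter.1 h6).2.1⟩
      · exact mem_filter.2 ⟨mem_univ _, (mem_filter.1 h6).2.1⟩
    · rw [card_union_of_disjoint h4]
      omega
  have h6 : l ∈ univ.filter fun k => x ∈ B k := mem_filter.2 ⟨mem_univ _, hx⟩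
  rw [← h5] at h6
  rcases mem_union.1 h6 with h7 | h7
  · exact Or.inl (mem_filter.1 h7).2.2
  · exact Or.inr (mem_filter.1 h7).2.2

/-- the common blocks of `a` and `b` are off `x`, at most two with the triple itself. -/
theorem ab_le [DecidableEq ι] (h : Xf B Q T U F j a b c x) (hr : Reg B Q) :
    (univ.filter fun k => k ≠ j ∧ a ∈ B k ∧ b ∈ B k).card ≤ 1 := by
  have h1 := off_point hr (mem_inter.1 h.mj.1).2 x
  rw [h.ha] at h1
  have h2 : insert j (univ.filter fun k => k ≠ j ∧ a ∈ B k ∧ b ∈ B k) ⊆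
      univ.filter fun k => a ∈ B k ∧ x ∉ B k := by
    intro k hk
    rcases mem_insert.1 hk with rfl | hk
    · exact mem_filter.2 ⟨mem_univ _, (mem_inter.1 h.mj.1).1, h.xj⟩
    · obtain ⟨_, _, h3, h4⟩ := mem_filter.1 hk
      exact mem_filter.2 ⟨mem_univ _, h3, fun h5 => h.dj k h5 h3 h4⟩
  have h3 := card_le_card h2
  rw [card_insert_of_notMem (by simp)] at h3
  omega

/-- **the weight of the triple.** -/
theorem th_le [DecidableEq ι] (h : Xf B Q T U F j a b c x) (hr : Reg B Q) :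
    thj B Q j ≤ 4 + uh B c {x} := by
  obtain ⟨hab, hac, hbc⟩ := h.ne
  obtain ⟨ma, mb, mc⟩ := h.mj
  have h1 := h.ab_le hr
  have key : ∀ l : ι, wth (B l ∩ (B j ∩ Q)).card ≤ (if l = j then 3 else 0) +
      ((if l ≠ j ∧ a ∈ B l ∧ b ∈ B l then 1 else 0) + (if x ∈ B l ∧ c ∈ B l then 1 else 0)) := by
    intro l
    by_cases hlj : l = j
    · rw [if_pos hlj]
      have h2 : wth (B l ∩ (B j ∩ Q)).card ≤ 3 := by
        unfold wth
        split_ifs <;> omega
      omega
    rw [if_neg hlj, zero_add]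
    have e : (B l ∩ (B j ∩ Q)).card = (if a ∈ B l then 1 else 0) + ((if b ∈ B l then 1 else 0) +
        (if c ∈ B l then 1 else 0)) := by
      rw [h.jQ]
      have e1 : ∀ z : V, (B l ∩ {z}).card = if z ∈ B l then 1 else 0 := by
        intro z
        by_cases h2 : z ∈ B l
        · rw [inter_singleton_of_mem h2, card_singleton, if_pos h2]
        · rw [inter_singleton_of_notMem h2, card_empty, if_neg h2]
      have e0 : ({a, b, c} : Finset V) = {a} ∪ ({b} ∪ {c}) := by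
        ext z
        simp only [mem_insert, mem_singleton, mem_union]
      rw [e0, inter_union_distrib_left, inter_union_distrib_left, card_union_of_disjoint,
        card_union_of_disjoint, e1, e1, e1]
      · exact Disjoint.mono inter_subset_right inter_subset_right (disjoint_singleton.2 hbc)
      · rw [disjoint_union_right]
        exact ⟨Disjoint.mono inter_subset_right inter_subset_right (disjoint_singleton.2 hab),
          Disjoint.mono inter_subset_right inter_subset_right (disjoint_singleton.2 hac)⟩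
    have hx1 : c ∈ B l → (a ∈ B l ∨ b ∈ B l) → x ∈ B l := fun h2 h3 => h.with_c hr hlj h2 h3
    have hx2 := h.dj l
    by_cases h2 : a ∈ B l <;> by_cases h3 : b ∈ B l <;> by_cases h4 : c ∈ B l
    · exact absurd h3 (hx2 (hx1 h4 (Or.inl h2)) h2)
    · rw [e]
      simp [h2, h3, h4, hlj, wth]
    · rw [e]
      have h5 := hx1 h4 (Or.inl h2)
      simp [h2, h3, h4, h5, wth]
    · rw [e]
      simp [h2, h3, h4, wth]
    · rw [e]
      have h5 := hx1 h4 (Or.inr h3)
      simp [h2, h3, h4, h5, wth]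
    · rw [e]
      simp [h2, h3, h4, wth]
    · rw [e]
      simp [h2, h3, h4, wth]
    · rw [e]
      simp [h2, h3, h4, wth]
  have h2 : thj B Q j ≤ ∑ l, ((if l = j then 3 else 0) +
      ((if l ≠ j ∧ a ∈ B l ∧ b ∈ B l then 1 else 0) + (if x ∈ B l ∧ c ∈ B l then 1 else 0))) :=
    sum_le_sum fun l _ => key l
  rw [sum_add_distrib, sum_add_distrib, sum_ite_eq' univ j, if_pos (mem_univ j), ← card_filter,
    ← card_filter, ← uh_point] at h2
  omega

theorem mlt_ab [DecidableEq ι] (h : Xf B Q T U F j a b c x) (hr : Reg B Q) : mlt B a b ≤ 2 := by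
  have h1 := h.ab_le hr
  have h2 : (univ.filter fun l => a ∈ B l ∧ b ∈ B l) ⊆
      insert j (univ.filter fun k => k ≠ j ∧ a ∈ B k ∧ b ∈ B k) := by
    intro l hl
    obtain ⟨_, h3, h4⟩ := mem_filter.1 hl
    by_cases h5 : l = j
    · rw [h5]
      exact mem_insert_self _ _
    · exact mem_insert_of_mem (mem_filter.2 ⟨mem_univ _, h5, h3, h4⟩)
  have h3 := (card_le_card h2).trans (card_insert_le _ _)
  unfold mlt
  omega

/-- **the third point has at most one hit on `x`**, in a block with the point of two hits. -/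
theorem on_x [DecidableEq ι] (h : Xf B Q T U F j a b c x) (hr : Reg B Q)
    (hq : MTQ B Q T U F) : uh B c {x} ≤ 1 ∧ ∀ l, x ∈ B l → c ∈ B l → b ∈ B l ∧ a ∉ B l := by
  obtain ⟨hab, hac, hbc⟩ := h.ne
  obtain ⟨ma, mb, mc⟩ := h.mj
  have hxa : x ≠ a := fun he => h.xj (he ▸ (mem_inter.1 ma).1)
  have hxb : x ≠ b := fun he => h.xj (he ▸ (mem_inter.1 mb).1)
  have hxc : x ≠ c := fun he => h.xj (he ▸ (mem_inter.1 mc).1)
  have hset : ∀ {l : ι} {y z : V}, x ∈ B l → y ∈ B l → z ∈ B l → y ∈ Q → z ∈ Q → x ≠ y →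
      x ≠ z → y ≠ z → B l ∩ Q = {x, y, z} ∧ (B l ∩ Q).card = 3 := by
    intro l y z h1 h2 h3 h4 h5 h6 h7 h8
    have h9 : ({x, y, z} : Finset V).card = 3 := card_eq_three.2 ⟨x, y, z, h6, h7, h8, rfl⟩
    have h10 : B l ∩ Q = {x, y, z} := by
      symm
      refine eq_of_subset_of_card_le ?_ (by rw [h9]; exact h.frm.reg3 l)
      intro w hw
      simp only [mem_insert, mem_singleton] at hw
      rcases hw with rfl | rfl | rfl
      · exact mem_inter.2 ⟨h1, h.xQ⟩
      · exact mem_inter.2 ⟨h2, h4⟩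
      · exact mem_inter.2 ⟨h3, h5⟩
    exact ⟨h10, by rw [h10, h9]⟩
  have hcj : ∀ l, c ∈ B l → (a ∈ B l ∨ b ∈ B l) → x ∉ B l → l = j := by
    intro l h1 h2 h3
    by_contra h4
    exact h3 (h.with_c hr h4 h1 h2)
  have hno : ∀ l, x ∈ B l → c ∈ B l → a ∉ B l := by
    intro l hxl hcl hal
    obtain ⟨h1, h2⟩ := hset hxl hal hcl (mem_inter.1 ma).2 (mem_inter.1 mc).2 hxa hxc hac
    have hp : Px B Q T U F j l b a c x := by
      refine ⟨h.frm, h.hj, ?_, h.xF, h.xown, h1, h2⟩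
      rw [h.jQ]
      ext w
      simp only [mem_insert, mem_singleton]
      tauto
    have h3 := hq.point hp (by
      have q1 : mlt B b a ≤ 2 := by
        rw [mlt_comm]
        exact h.mlt_ab hr
      have q2 : mlt B x a = 3 := by
        have q4 := h.ha
        rw [uh_point] at q4
        exact q4
      rw [q3_zero q1, q3_one q2.ge]
      unfold q3
      split_ifs <;> omega)
    have e1 : (univ.filter fun k => x ∈ B k ∧ a ∈ B k).card ≤
        (univ.filter fun k => x ∈ B k ∧ b ∉ B k ∧ a ∈ B k ∧ c ∉ B k).card +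
          (univ.filter fun k => x ∈ B k ∧ b ∉ B k ∧ a ∈ B k ∧ c ∈ B k).card := by
      refine le_trans (card_le_card ?_) (card_union_le _ _)
      intro k hk
      obtain ⟨_, h4, h5⟩ := mem_filter.1 hk
      rw [mem_union, mem_filter, mem_filter]
      by_cases h6 : c ∈ B k
      · exact Or.inr ⟨mem_univ _, h4, h.dj k h4 h5, h5, h6⟩
      · exact Or.inl ⟨mem_univ _, h4, h.dj k h4 h5, h5, h6⟩
    have e2 : 1 ≤ (univ.filter fun k => x ∈ B k ∧ b ∉ B k ∧ a ∈ B k ∧ c ∈ B k).card :=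
      card_pos.2 ⟨l, mem_filter.2 ⟨mem_univ _, hxl, h.dj l hxl hal, hal, hcl⟩⟩
    have e3 : (univ.filter fun k => x ∉ B k ∧ b ∈ B k ∧ a ∈ B k ∧ c ∉ B k).card ≤ 1 := by
      refine le_trans (card_le_card ?_) (h.ab_le hr)
      intro k hk
      obtain ⟨_, _, h5, h6, h7⟩ := mem_filter.1 hk
      exact mem_filter.2 ⟨mem_univ _, fun he => h7 (he ▸ (mem_inter.1 mc).1), h6, h5⟩
    have e4 : (univ.filter fun k => x ∉ B k ∧ b ∈ B k ∧ a ∉ B k ∧ c ∈ B k).card = 0 := by
      rw [card_eq_zero, filter_eq_empty_iff]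
      rintro k _ ⟨h4, h5, h6, h7⟩
      exact h6 ((hcj k h7 (Or.inr h5) h4) ▸ (mem_inter.1 ma).1)
    have e5 : (univ.filter fun k => x ∉ B k ∧ b ∈ B k ∧ a ∈ B k ∧ c ∈ B k).card ≤ 1 := by
      refine (card_le_card (t := {j}) ?_).trans (card_singleton _).le
      intro k hk
      obtain ⟨_, h4, h5, h6, h7⟩ := mem_filter.1 hk
      exact mem_singleton.2 (hcj k h7 (Or.inl h6) h4)
    have e6 := h.ha
    rw [uh_point] at e6
    omega
  have hb' : ∀ l, x ∈ B l → c ∈ B l → b ∈ B l := by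
    intro l hxl hcl
    rcases h.x_ab hr hxl with h1 | h1
    · exact absurd h1 (hno l hxl hcl)
    · exact h1
  refine ⟨?_, fun l hxl hcl => ⟨hb' l hxl hcl, hno l hxl hcl⟩⟩
  rw [uh_point]
  by_contra hcon
  obtain ⟨l, hl⟩ : (univ.filter fun k => x ∈ B k ∧ c ∈ B k).Nonempty := card_pos.1 (by omega)
  obtain ⟨_, hxl, hcl⟩ := mem_filter.1 hl
  obtain ⟨h1, h2⟩ := hset hxl (hb' l hxl hcl) hcl (mem_inter.1 mb).2 (mem_inter.1 mc).2 hxb hxc
    hbc
  have hp : Px B Q T U F j l a b c x := ⟨h.frm, h.hj, h.jQ, h.xF, h.xown, h1, h2⟩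
  have h3 := hq.point2 hp (h.mlt_ab hr) (by
    refine (card_le_card (t := {j}) ?_).trans (by rw [card_singleton]; norm_num)
    intro k hk
    obtain ⟨_, h4, h5⟩ := mem_filter.1 hk
    rw [mem_singleton]
    by_contra h6
    exact hno k (h.with_c hr h6 h5 (Or.inl h4)) h5 h4)
  have e1 : (univ.filter fun k => x ∈ B k ∧ c ∈ B k) ⊆
      (univ.filter fun k => x ∈ B k ∧ a ∉ B k ∧ b ∈ B k ∧ c ∈ B k) := by
    intro k hk
    obtain ⟨_, h4, h5⟩ := mem_filter.1 hk
    exact mem_filter.2 ⟨mem_univ _, h4, hno k h4 h5, hb' k h4 h5, h5⟩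
  have e1' := card_le_card e1
  have e3 : (univ.filter fun k => x ∉ B k ∧ a ∈ B k ∧ b ∈ B k ∧ c ∉ B k).card ≤ 1 := by
    refine le_trans (card_le_card ?_) (h.ab_le hr)
    intro k hk
    obtain ⟨_, _, h5, h6, h7⟩ := mem_filter.1 hk
    exact mem_filter.2 ⟨mem_univ _, fun he => h7 (he ▸ (mem_inter.1 mc).1), h5, h6⟩
  have e4 : (univ.filter fun k => x ∉ B k ∧ a ∈ B k ∧ b ∉ B k ∧ c ∈ B k).card = 0 := by
    rw [card_eq_zero, filter_eq_empty_iff]
    rintro k _ ⟨h4, h5, h6, h7⟩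
    exact h6 ((hcj k h7 (Or.inl h5) h4) ▸ (mem_inter.1 mb).1)
  have e5 : (univ.filter fun k => x ∉ B k ∧ a ∈ B k ∧ b ∈ B k ∧ c ∈ B k).card ≤ 1 := by
    refine (card_le_card (t := {j}) ?_).trans (card_singleton _).le
    intro k hk
    obtain ⟨_, h4, h5, h6, h7⟩ := mem_filter.1 hk
    exact mem_singleton.2 (hcj k h7 (Or.inl h5) h4)
  omega

theorem mlt_ac [DecidableEq ι] (h : Xf B Q T U F j a b c x) (hr : Reg B Q)
    (hq : MTQ B Q T U F) : mlt B a c ≤ 1 := by
  unfold mlt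
  refine (card_le_card (t := {j}) ?_).trans (card_singleton _).le
  intro l hl
  obtain ⟨_, h3, h4⟩ := mem_filter.1 hl
  rw [mem_singleton]
  by_contra h5
  have h6 := h.with_c hr h5 h4 (Or.inl h3)
  exact ((h.on_x hr hq).2 l h6 h4).2 h3

theorem mlt_bc [DecidableEq ι] (h : Xf B Q T U F j a b c x) (hr : Reg B Q) :
    mlt B b c ≤ 1 + uh B c {x} := by
  have h2 : (univ.filter fun l => b ∈ B l ∧ c ∈ B l) ⊆
      insert j (univ.filter fun k => x ∈ B k ∧ c ∈ B k) := by
    intro l hl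
    obtain ⟨_, h3, h4⟩ := mem_filter.1 hl
    by_cases h5 : l = j
    · rw [h5]
      exact mem_insert_self _ _
    · exact mem_insert_of_mem (mem_filter.2 ⟨mem_univ _, h.with_c hr h5 h4 (Or.inr h3), h4⟩)
  have h3 := (card_le_card h2).trans (card_insert_le _ _)
  rw [uh_point]
  unfold mlt
  omega

/-- no pair of the triple has three blocks. -/
theorem t3_zero [DecidableEq ι] (h : Xf B Q T U F j a b c x) (hr : Reg B Q)
    (hq : MTQ B Q T U F) : t3j B Q j = 0 := by
  obtain ⟨hab, hac, hbc⟩ := h.ne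
  have h1 := h.mlt_ab hr
  have h2 := h.mlt_ac hr hq
  have h3 := h.mlt_bc hr
  have h4 := (h.on_x hr hq).1
  rw [t3j_eq h.jQ hab hac hbc, q3_zero h1, q3_zero (by omega), q3_zero (by omega)]

/-- the exchanged frame is of kind `MT3`, and no pair of the new block at `M` has three blocks; the weight
does not grow. -/
theorem th_new [DecidableEq ι] (h : Xf B Q T U F j a b c x) (hr : Reg B Q) (hq : MTQ B Q T U F)
    {i : ι} {M : Finset V} {m m' p : V} (hn : NxE B Q T U F i j M {x} a b c m m' p)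
    (hM1 : nt B M 1 ≤ 1) : thj B Q i ≤ thj B Q j ∧ t3j B Q i = 0 := by
  obtain ⟨U1, F1, h'⟩ := hn.exists_new
  obtain ⟨_, hU1, _⟩ := hn.mte hq.toMTE h'
  subst hU1
  have h1 := hn.nt_le hq.toMTN hr
  obtain ⟨h2, h3⟩ := hn.nt_new rfl hr (by rw [h.ha, h.hb])
  rw [nt_point hr h.xQ] at h1
  have hmn : MTN B Q (insert i (T.erase j)) U1 F1 := hn.mtn hq.toMTN (fun _ => by
    rw [nt_point hr h.xQ]
    omega) h'
  have h4 := h.t3_zero hr hq
  have h5 := T3_swap (B := B) (Q := Q) hn.ex.hj hn.i_not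
  have h7 := hq.qmax _ _ _ hmn
  have h6 := hq.tmax _ _ _ (hq.toMT3.of_le hmn (by omega))
  have h8 := Th_swap (B := B) (Q := Q) hn.ex.hj hn.i_not
  exact ⟨by omega, by omega⟩

/-- the pair of the new block. -/
theorem mlt_i [DecidableEq ι] (h : Xf B Q T U F j a b c x) (hr : Reg B Q) {i : ι} {M : Finset V}
    {m m' p : V} (hn : NxE B Q T U F i j M {x} a b c m m' p) (hM1 : nt B M 1 ≤ 1) :
    mlt B m m' = 2 + (univ.filter fun k => p ∈ B k ∧ m ∉ B k ∧ m' ∉ B k).card := by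
  obtain ⟨hpM, hpm, hpm'⟩ := hn.pM
  have hMe : M = {m, m', p} := by
    ext z
    simp only [mem_insert, mem_singleton]
    constructor
    · intro hz
      rcases hn.M_cases hz with h1 | h1
      · exact Or.inr (Or.inr h1)
      · rcases mem_insert.1 h1 with h2 | h2
        · exact Or.inl h2
        · exact Or.inr (Or.inl (mem_singleton.1 h2))
    · rintro (rfl | rfl | rfl)
      · exact hn.ex.hw
      · exact hn.ex.hw'
      · exact hpM
  exact h.frm.pair_card hr hn.ex.hW hMe hn.ex.hww hpm.symm hpm'.symm hM1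

theorem c_ne [DecidableEq ι] (h : Xf B Q T U F j a b c x) {i : ι} {M : Finset V}
    {m m' p : V} (hn : NxE B Q T U F i j M {x} a b c m m' p) : c ≠ m ∧ c ≠ m' := by
  have h1 := fun z (hz : z ∈ M) (he : c = z) => Frm.T_notD (Q := Q) h.hj (mem_inter.1 h.mj.2.2).1
    (he ▸ h.frm.FD hn.ex.hW hz)
  exact ⟨h1 m hn.ex.hw, h1 m' hn.ex.hw'⟩

/-- **no full hit on the pair with three blocks.** -/
theorem no_A [DecidableEq ι] (h : Xf B Q T U F j a b c x) (hr : Reg B Q) (hq : MTQ B Q T U F)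
    {i : ι} {M : Finset V} {m m' p : V} (hn : NxE B Q T U F i j M {x} a b c m m' p)
    (hM1 : nt B M 1 ≤ 1)
    (hp : (univ.filter fun k => p ∈ B k ∧ m ∉ B k ∧ m' ∉ B k).Nonempty) : False := by
  have h1 := (h.th_new hr hq hn hM1).2
  have h2 := h.mlt_i hr hn hM1
  have h3 := card_pos.2 hp
  obtain ⟨h4, h5⟩ := h.c_ne hn
  rw [t3j_eq hn.ex.hiQ h4 h5 hn.ex.hww, q3_one (show 3 ≤ mlt B m m' by omega)] at h1
  omega

/-- **two triples of this kind do not meet at a block `{x, a, v}`**, if the third point of the first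
one has a full hit on `M`. -/
theorem no_two [DecidableEq ι] (h : Xf B Q T U F j a b c x) (hr : Reg B Q) (hq : MTQ B Q T U F)
    {i : ι} {M : Finset V} {m m' p : V} (hn : NxE B Q T U F i j M {x} a b c m m' p)
    (hM1 : nt B M 1 ≤ 1) (hU : hit B U M = 0) {k l : ι} {a' b' v x' : V}
    (h' : Xf B Q T U F k a' b' v x') (hkj : k ≠ j) (hxx : x' ≠ x) (hxl : x ∈ B l)
    (hal : a ∈ B l) (hvl : v ∈ B l) : False := by
  obtain ⟨ma, mb, mc⟩ := h.mj
  obtain ⟨ma', mb', mv⟩ := h'.mj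
  have hx'F := h'.xF
  have hadj : ∀ z : V, z ∈ B k ∩ Q → 0 < uh B z {x'} → (gr B).Adj z x' := by
    intro z hz hpos
    rw [uh_point] at hpos
    obtain ⟨r, hr'⟩ := card_pos.1 hpos
    obtain ⟨_, h1, h2⟩ := mem_filter.1 hr'
    refine ⟨fun he => ?_, r, h2, h1⟩
    exact Frm.T_notD (Q := Q) h'.hj (mem_inter.1 hz).1
      (he ▸ h'.frm.FD hx'F (mem_singleton_self x'))
  obtain ⟨h1, h2, U2, F2, h3⟩ := hq.toMTN.two_new hr hn (by rw [h.ha, h.hb]) h.ha hM1 hU h.xown
    h'.hj hkj h'.jQ hx'F hxx (hadj a' ma' (by rw [h'.ha]; norm_num))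
    (hadj b' mb' (by rw [h'.hb]; norm_num)) h'.aL h'.bL (by rw [h'.ha, h'.hb]) hxl hal hvl
  have h4 := h.t3_zero hr hq
  have h5 := h'.t3_zero hr hq
  have hxa : x ≠ a := fun he => h.xj (he ▸ (mem_inter.1 ma).1)
  have hva : v ≠ a := fun he => by
    have h5 := h.frm.mtp.tpk.pack.disj j h.hj k h'.hj hkj.symm
    exact disjoint_left.1 h5 ma (he ▸ mv)
  have hvx : v ≠ x := fun he => Frm.T_notD (Q := Q) h'.hj (mem_inter.1 mv).1
    (he ▸ h.frm.FD h.xF (mem_singleton_self x))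
  have h8 : ({v, x, a} : Finset V).card = 3 := card_eq_three.2 ⟨v, x, a, hvx, hva, hxa, rfl⟩
  have hlQ : B l ∩ Q = {v, x, a} := by
    symm
    refine eq_of_subset_of_card_le ?_ (by rw [h8]; exact h.frm.reg3 l)
    intro y hy
    simp only [mem_insert, mem_singleton] at hy
    rcases hy with rfl | rfl | rfl
    · exact mem_inter.2 ⟨hvl, (mem_inter.1 mv).2⟩
    · exact mem_inter.2 ⟨hxl, h.xQ⟩
    · exact mem_inter.2 ⟨hal, (mem_inter.1 ma).2⟩
  have h9 : mlt B x a = 3 := by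
    have h10 := h.ha
    rw [uh_point] at h10
    exact h10
  have h10 := t3j_eq (B := B) hlQ hvx hva hxa
  rw [q3_one h9.ge] at h10
  have h11 := T3_swap (B := B) (Q := Q) h1 h2
  have h12 := T3_swap (B := B) (Q := Q) hn.ex.hj hn.i_not
  have h13 := hq.qmax _ _ _ h3
  omega

end Xf

end Pool.Agent.Hyp6
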