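import Pool.Agent.Hyp6.L3Gl

/-!
# HYP6 L3NI: the numbers of a single leaf with at least two line triples

`ndP m n a`: the least price of a line triple with `a` hits at a leaf with `m` points and `n` single
traces. `NdT`: the
numbers of a leaf which is its own class, all line triples with two classes. `NdT.big`: three or more
line triples. `NdT.two`: two line triples. No triple of type B is centred at the leaf, no triple is
inside.
-/

set_option autoImplicit false

namespace Pool.Agent.Hyp6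

/-- the least price, above `560`, at a leaf with `m` points and `n` single traces. -/
def ndP (m n : ℤ) (a : ℕ) : ℤ :=
  if a ≤ 1 then -161
  else if a = 2 then -97
  else if a = 3 then -33
  else if a = 4 then -44
  else if a = 5 then 15
  else if a = 6 then -1
  else if a = 7 then -17
  else if a = 8 then (if m = 5 ∧ n = 1 then 42 else -33)
  else if a = 9 then 31
  else 41

/-- a linear lower bound. -/
theorem ndP_lin (m n : ℤ) {a : ℕ} (ha : 1 ≤ a) (h11 : a ≤ 11) :
    18 * (a : ℤ) - 179 ≤ ndP m n a := by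
  unfold ndP
  split_ifs <;> omega

/-- a linear lower bound for few hits. -/
theorem ndP_lin8 {m n : ℤ} {a : ℕ} (ha : 1 ≤ a) (h7 : a ≤ 7 ∨ (a = 8 ∧ m = 5 ∧ n = 1)) :
    24 * (a : ℤ) - 185 ≤ ndP m n a := by
  unfold ndP
  split_ifs <;> omega

/-- a linear lower bound for at most five hits. -/
theorem ndP_lin5 (m n : ℤ) {a : ℕ} (ha : 1 ≤ a) (h5 : a ≤ 5) :
    39 * (a : ℤ) - 200 ≤ ndP m n a := by
  unfold ndP
  split_ifs <;> omega

/-- the numbers of a leaf which is its own class, without centred and inside triples: `t` hits of the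
`q` line triples, `w` hits of the others. -/
structure NdT (M p n m f e g t w l q : ℤ) : Prop where
  num : NumL p n m f e g (t + w)
  up : M ≤ 144 * t - 560 * q - 5 * w + 168 * g - 288 * l + 240 * e - 120 * p + 120
  ld : l = 5 ∨ g ≤ l
  w0 : 0 ≤ w
  e11 : 11 * e ≤ 2 * f

namespace NdT

variable {M p n m f e g t w l q : ℤ}

/-- the bound without the units. -/
theorem cases (h : NdT M p n m f e g t w l q) :
    (M ≤ 144 * t - 560 * q - 5 * w - 120 * g + 240 * e - 120 * p + 120) ∨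
      (6 ≤ g ∧ M ≤ 144 * t - 560 * q - 5 * w + 168 * g - 1440 + 240 * e - 120 * p + 120) := by
  have h1 := h.up
  have h2 := h.ld
  rcases h2 with h2 | h2
  · by_cases h3 : 6 ≤ g
    · exact Or.inr ⟨h3, by linarith⟩
    · left
      linarith
  · left
    linarith

/-- **three or more line triples.** -/
theorem big (h : NdT M p n m f e g t w l q) (hq : 3 ≤ q) {S : ℤ}
    (h1 : 18 * t - 179 * q ≤ S)
    (h31 : m = 3 → n = 1 → 39 * t - 200 * q ≤ S)
    (h33 : m = 3 → n = 3 → 24 * t - 185 * q ≤ S)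
    (h51 : e = 0 → m = 5 → n = 1 → 24 * t - 185 * q ≤ S) : M ≤ S := by
  obtain ⟨⟨a1, a2, a3, a4, a5, a6, a7, a8, a9, a10, a11, a12, a13⟩, b1, b2, b3, b4⟩ := id h
  have c1 := h.cases
  rcases (by omega : m = 1 ∨ m = 3 ∨ m = 5 ∨ 7 ≤ m) with hm | hm | hm | hm
  · have := a7 hm
    omega
  · rcases (by omega : n = 1 ∨ n = 3 ∨ 5 ≤ n) with hn | hn | hn
    · have := h31 hm hn
      omega
    · have := h33 hm hn
      omega
    · omega
  · rcases (by omega : n = 1 ∨ 3 ≤ n) with hn | hn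
    · rcases (by omega : e = 0 ∨ 1 ≤ e) with he | he
      · have := h51 he hm hn
        omega
      · omega
    · omega
  · omega

/-- **two line triples.** -/
theorem two (h : NdT M p n m f e g t w l 2) {a b : ℕ} (ha : 1 ≤ a) (hb : 1 ≤ b) (ha11 : a ≤ 11)
    (hb11 : b ≤ 11) (ht : t = a + b) {pa pb : ℤ} (hpa : ndP m n a ≤ pa) (hpb : ndP m n b ≤ pb)
    (neg : p - 1 - 2 * e = -1 → w + g ≤ 1 → (a : ℤ) + b ≤ 2)
    (one : p - 1 - 2 * e = 1 → w + g ≤ 1 → (a : ℤ) + b ≤ 8)
    (zero : p - 1 - 2 * e = 1 → w + g ≤ 0 → (a : ℤ) + b ≤ 7)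
    (big : 3 ≤ p - 1 - 2 * e → 2 ≤ w + g)
    (h31 : m = 3 → n = 1 → a ≤ 5 ∧ b ≤ 5 ∧ (a = 5 → 3 ≤ g) ∧ (b = 5 → 3 ≤ g) ∧
      (4 ≤ a → b ≤ 2) ∧ (4 ≤ b → a ≤ 2))
    (h11 : m = 1 → a ≤ 6 ∧ b ≤ 6 ∧ (a = 6 → 4 ≤ pa ∨ f = 0 ∨ 1 ≤ g) ∧
      (b = 6 → 4 ≤ pb ∨ f = 0 ∨ 1 ≤ g))
    (h33 : m = 3 → n = 3 → a ≤ 7 ∧ b ≤ 7)
    (h51 : e = 0 → m = 5 → n = 1 → a ≤ 8 ∧ b ≤ 8) : M ≤ pa + pb := by
  obtain ⟨⟨a1, a2, a3, a4, a5, a6, a7, a8, a9, a10, a11, a12, a13⟩, b1, b2, b3, b4⟩ := id h
  have c1 := h.cases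
  have la := ndP_lin m n ha ha11
  have lb := ndP_lin m n hb hb11
  clear h b1 b2
  subst ht
  rcases c1 with c1 | ⟨c0, c1⟩
  swap
  · omega
  rcases (by omega : e = 0 ∨ 1 ≤ e) with he | he
  swap
  · omega
  subst he
  have hX : 2 * ((a : ℤ) + b + w + g + f) = 5 * m + 3 * n := by omega
  have hD : M ≤ 320 - 24 * n - 149 * w - 144 * f - 264 * g := by omega
  have hp2 : p = 2 * n + 3 * m - 11 := a1
  subst hp2
  clear c1 a2 b4
  by_cases hlin : 126 * ((a : ℤ) + b) + 678 ≤ 144 * ((a : ℤ) + b + w + g + f) + 24 * n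
  · omega
  have hcase : (m = 3 ∧ n = 1) ∨ m = 1 ∨ (m = 3 ∧ n = 3) ∨ (m = 5 ∧ n = 1) ∨
      (m = 3 ∧ n = 5 ∧ (a : ℤ) + b = 13) ∨ (m = 5 ∧ n = 3 ∧ (a : ℤ) + b = 15) ∨
      (m = 7 ∧ n = 1 ∧ (a : ℤ) + b = 17) := by
    have hbig : 3 ≤ m → 4 ≤ 2 * n + 3 * m - 11 → 2 ≤ w + g := fun _ h => big (by omega)
    have hm7 : m ≤ 7 := by
      by_contra hm
      have := hbig (by omega) (by omega)
      omega
    rcases (by omega : m = 1 ∨ m = 3 ∨ m = 5 ∨ m = 7) with hm | hm | hm | hm
    · omega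
    · subst hm
      rcases (by omega : n = 1 ∨ n = 3 ∨ n = 5 ∨ 7 ≤ n) with hn | hn | hn | hn
      · omega
      · omega
      · have := hbig (by omega) (by omega)
        omega
      · have := hbig (by omega) (by omega)
        omega
    · subst hm
      rcases (by omega : n = 1 ∨ n = 3 ∨ 5 ≤ n) with hn | hn | hn
      · omega
      · have := hbig (by omega) (by omega)
        omega
      · have := hbig (by omega) (by omega)
        omega
    · subst hm
      rcases (by omega : n = 1 ∨ 3 ≤ n) with hn | hn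
      · have := hbig (by omega) (by omega)
        omega
      · have := hbig (by omega) (by omega)
        omega
  clear la lb
  rcases hcase with ⟨hm, hn⟩ | hm | ⟨hm, hn⟩ | ⟨hm, hn⟩ | ⟨hm, hn, hs⟩ | ⟨hm, hn, hs⟩ | ⟨hm, hn, hs⟩
  · subst hm hn
    obtain ⟨e1, e2, e3, e4, e5, e6⟩ := h31 rfl rfl
    clear h31 h11 h33 h51 one zero big
    interval_cases a <;> interval_cases b <;> norm_num [ndP] at hpa hpb <;> omega
  · subst hm
    obtain ⟨e1, e2, e3, e4⟩ := h11 rfl
    have hn := a7 rfl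
    subst hn
    clear h31 h11 h33 h51 neg big
    interval_cases a <;> interval_cases b <;> norm_num [ndP] at hpa hpb <;> omega
  · subst hm hn
    obtain ⟨e1, e2⟩ := h33 rfl rfl
    clear h31 h11 h33 h51 neg zero one
    interval_cases a <;> interval_cases b <;> norm_num [ndP] at hpa hpb <;> omega
  · subst hm hn
    obtain ⟨e1, e2⟩ := h51 rfl rfl rfl
    clear h31 h11 h33 h51 neg zero one
    interval_cases a <;> interval_cases b <;> norm_num [ndP] at hpa hpb <;> omega
  · subst hm hn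
    clear h31 h11 h33 h51 neg zero one
    obtain rfl : b = 13 - a := by omega
    interval_cases a <;> norm_num [ndP] at hpa hpb <;> omega
  · subst hm hn
    clear h31 h11 h33 h51 neg zero one
    obtain rfl : b = 15 - a := by omega
    interval_cases a <;> norm_num [ndP] at hpa hpb <;> omega
  · subst hm hn
    clear h31 h11 h33 h51 neg zero one
    obtain rfl : b = 17 - a := by omega
    interval_cases a <;> norm_num [ndP] at hpa hpb <;> omega

end NdT

end Pool.Agent.Hyp6
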