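import Pool.Agent.Hyp6.L3K4

/-!
# HYP6 L3ND: pieces of the max-K frame

`Zn B Q T' U' A D`: the points of the triples of `T'`, the set `U'`, the leaves of `A` and the part `D`
of the even part. Upper bound for its cover number, its value, and the cut lemma: if some of the
outer points are absorbed by the outside leaves, the others cost as many new blocks as there are
triples in question.
-/

set_option autoImplicit false

namespace Pool.Agent.Hyp6

open Finset Pool.Agent.Hyp5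

universe u v

variable {V : Type v} [DecidableEq V] {ι : Type u} {B : ι → Finset V}

/-- the piece of the frame. -/
def Zn (B : ι → Finset V) (Q : Finset V) (T : Finset ι) (U : Finset V) (A : Finset (Finset V))
    (D : Finset V) : Finset V := (T.biUnion B ∩ Q) ∪ U ∪ A.biUnion id ∪ D

theorem mem_Zn {Q U D : Finset V} {T : Finset ι} {A : Finset (Finset V)} {v : V} :
    v ∈ Zn B Q T U A D ↔
      (∃ j ∈ T, v ∈ B j ∧ v ∈ Q) ∨ v ∈ U ∨ (∃ C ∈ A, v ∈ C) ∨ v ∈ D := by
  unfold Zn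
  simp only [mem_union, mem_inter, mem_biUnion, id]
  constructor
  · rintro (((⟨⟨j, hj, hv⟩, hQ⟩ | h) | h) | h)
    · exact Or.inl ⟨j, hj, hv, hQ⟩
    · exact Or.inr (Or.inl h)
    · exact Or.inr (Or.inr (Or.inl h))
    · exact Or.inr (Or.inr (Or.inr h))
  · rintro (⟨j, hj, hv, hQ⟩ | h | h | h)
    · exact Or.inl (Or.inl (Or.inl ⟨⟨j, hj, hv⟩, hQ⟩))
    · exact Or.inl (Or.inl (Or.inr h))
    · exact Or.inl (Or.inr h)
    · exact Or.inr h

/-- a matching of `P` into the members of `A`. -/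
structure MtI (B : ι → Finset V) (P : Finset V) (A : Finset (Finset V)) (g : V → Finset V) :
    Prop where
  mem : ∀ p ∈ P, g p ∈ A
  see : ∀ p ∈ P, ∃ y ∈ g p, (gr B).Adj p y
  inj : ∀ p ∈ P, ∀ q ∈ P, g p = g q → p = q

omit [DecidableEq V] in
theorem MtI.mono {P P' : Finset V} {A A' : Finset (Finset V)} {g : V → Finset V}
    (h : MtI B P A g) (hP : P' ⊆ P) (hA : A ⊆ A') : MtI B P' A' g :=
  ⟨fun p hp => hA (h.mem p (hP hp)), fun p hp => h.see p (hP hp),
    fun p hp q hq => h.inj p (hP hp) q (hP hq)⟩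

variable [Fintype ι]

/-- sets absorbing matched points. -/
theorem rho_match_le : ∀ (A : Finset (Finset V)), (∀ C ∈ A, FC (gr B) C ∧ sv B C = -1) →
    (∀ C ∈ A, Cov B C) → ∀ (P : Finset V) (g : V → Finset V), MtI B P A g → Cov B P →
    (∀ C ∈ A, Disjoint C P) → rho B (A.biUnion id ∪ P) ≤ ∑ C ∈ A, rho B C := by
  classical
  intro A
  induction A using Finset.induction_on with
  | empty =>
    intro _ _ P g hg _ _
    have h0 : P = ∅ := by
      rw [eq_empty_iff_forall_notMem]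
      intro p hp
      exact absurd (hg.mem p hp) (notMem_empty _)
    subst h0
    simp
  | insert C A hC ih =>
    intro hfc hcov P g hg hP hd
    rw [sum_insert hC, biUnion_insert]
    set P1 := P.filter (fun p => g p = C) with hP1
    set P2 := P.filter (fun p => g p ≠ C) with hP2
    have hg2 : MtI B P2 A g := by
      refine ⟨fun p hp => ?_, fun p hp => hg.see p (mem_filter.1 hp).1,
        fun p hp q hq => hg.inj p (mem_filter.1 hp).1 q (mem_filter.1 hq).1⟩
      obtain ⟨h1, h2⟩ := mem_filter.1 hp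
      rcases mem_insert.1 (hg.mem p h1) with h3 | h3
      · exact absurd h3 h2
      · exact h3
    have h2 := ih (fun D hD => hfc D (mem_insert_of_mem hD))
      (fun D hD => hcov D (mem_insert_of_mem hD)) P2 g hg2 (hP.mono (filter_subset _ _))
      (fun D hD => disjoint_of_subset_right (filter_subset _ _) (hd D (mem_insert_of_mem hD)))
    have h1 : rho B (C ∪ P1) ≤ rho B C := by
      rcases P1.eq_empty_or_nonempty with h0 | ⟨p, hp⟩
      · rw [h0, union_empty]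
      · have hp' := mem_filter.1 hp
        have h3 : P1 = {p} := by
          ext q
          rw [mem_singleton]
          constructor
          · intro hq
            have hq' := mem_filter.1 hq
            exact hg.inj q hq'.1 p hp'.1 (hq'.2.trans hp'.2.symm)
          · rintro rfl
            exact hp
        have h4 : C ∪ P1 = insert p C := by
          rw [h3, union_comm]
          rfl
        rw [h4]
        obtain ⟨hf, hs⟩ := hfc C (mem_insert_self _ _)
        obtain ⟨y, hy, hadj⟩ := hg.see p hp'.1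
        rw [hp'.2] at hy
        refine rho_insert_fc hf hs ⟨y, hy, hadj⟩ ?_
        intro hpC
        exact disjoint_left.1 (hd C (mem_insert_self _ _)) hpC hp'.1
    have h3 : C ∪ A.biUnion id ∪ P = (C ∪ P1) ∪ (A.biUnion id ∪ P2) := by
      have h4 : P1 ∪ P2 = P := filter_union_filter_not_eq _ _
      ext v
      simp only [mem_union]
      have h5 : v ∈ P ↔ v ∈ P1 ∨ v ∈ P2 := by
        rw [← mem_union, h4]
      tauto
    have hcA : Cov B (A.biUnion id) := cov_biUnion fun D hD => hcov D (mem_insert_of_mem hD)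
    have h4 := rho_union_le (B := B) (W := C ∪ P1) (W' := A.biUnion id ∪ P2)
      ((hcov C (mem_insert_self _ _)).union (hP.mono (filter_subset _ _)))
      (hcA.union (hP.mono (filter_subset _ _)))
    have h5 : id C ∪ A.biUnion id ∪ P = (C ∪ P1) ∪ (A.biUnion id ∪ P2) := h3
    rw [h5]
    exact h4.trans (Nat.add_le_add h1 h2)

namespace Frm

variable {Q U : Finset V} {T : Finset ι} {F : Finset (Finset V)}

/-- the cover number of `Q` in terms of the frame. -/
theorem rho_split (h : Frm B Q T U F) :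
    rho B Q = ∑ C ∈ F, rho B C + rho B (Ep B Q T U F) + T.card := by
  rw [← h.rho_sdiff_X, h.sdiff_X,
    rho_add (cov_biUnion h.covF) (h.covD.mono ED) h.sepE, rho_biUnion h.covF h.sepF]

theorem fcF (h : Frm B Q T U F) {C : Finset V} (hC : C ∈ F) : FC (gr B) C ∧ sv B C = -1 :=
  ⟨h.ge.sys.fc C hC, h.sv_leaf hC⟩

omit [Fintype ι] in
theorem Zn_sub (h : Frm B Q T U F) {T' : Finset ι} {P D : Finset V} {A : Finset (Finset V)}
    (hA : A ⊆ F) (hP : P ⊆ Q) (hD : D ⊆ Ep B Q T U F) : Zn B Q T' P A D ⊆ Q := by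
  intro v hv
  rcases mem_Zn.1 hv with ⟨j, _, _, hQ⟩ | h1 | ⟨C, hC, hv⟩ | h1
  · exact hQ
  · exact hP h1
  · exact h.FQ (hA hC) hv
  · exact DQ (ED (hD h1))

/-- upper bound for the cover number of a piece. -/
theorem rho_Zn_le (h : Frm B Q T U F) {T' : Finset ι} {P D : Finset V} {A : Finset (Finset V)}
    (hA : A ⊆ F) (hP : P ⊆ Q) (hD : D ⊆ Ep B Q T U F) (hd : ∀ C ∈ A, Disjoint C P)
    {g : V → Finset V} (hg : MtI B P A g) :
    rho B (Zn B Q T' P A D) ≤ ∑ C ∈ A, rho B C + rho B D + T'.card := by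
  classical
  have hcA : ∀ C ∈ A, Cov B C := fun C hC => h.covF C (hA hC)
  have h1 := rho_match_le A (fun C hC => h.fcF (hA hC)) hcA P g hg (h.cov.mono hP) hd
  have hcD : Cov B D := h.cov.mono (hD.trans (ED.trans DQ))
  have h2 := rho_union_le (B := B) (W := A.biUnion id ∪ P) (W' := D)
    ((cov_biUnion hcA).union (h.cov.mono hP)) hcD
  have h3 := rho_le_peel (B := B) T' (h.cov.mono (h.Zn_sub (T' := T') hA hP hD))
  have h4 : rho B (Zn B Q T' P A D \ T'.biUnion B) ≤ rho B (A.biUnion id ∪ P ∪ D) := by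
    refine rho_mono ?_ (((cov_biUnion hcA).union (h.cov.mono hP)).union hcD)
    intro v hv
    obtain ⟨hv1, hv2⟩ := mem_sdiff.1 hv
    rcases mem_Zn.1 hv1 with ⟨j, hj, hvj, _⟩ | h1 | ⟨C, hC, hv⟩ | h1
    · exact absurd (mem_biUnion.2 ⟨j, hj, hvj⟩) hv2
    · exact mem_union_left _ (mem_union_right _ h1)
    · exact mem_union_left _ (mem_union_left _ (mem_biUnion.2 ⟨C, hC, hv⟩))
    · exact mem_union_right _ h1
  omega

/-- a closed part of the even part. -/
structure Dcl (B : ι → Finset V) (Q : Finset V) (T : Finset ι) (U : Finset V)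
    (F : Finset (Finset V)) (D : Finset V) : Prop where
  sub : D ⊆ Ep B Q T U F
  sep : Sep B D (Ep B Q T U F \ D)

omit [Fintype ι] in
theorem Dcl.empty : Dcl B Q T U F ∅ :=
  ⟨empty_subset _, fun i h1 _ => by simp at h1⟩

omit [Fintype ι] in
theorem Dcl.compl {D : Finset V} (hD : Dcl B Q T U F D) : Dcl B Q T U F (Ep B Q T U F \ D) := by
  refine ⟨sdiff_subset, ?_⟩
  rw [sdiff_sdiff_right_self]
  have h1 : Ep B Q T U F ⊓ D = D := inter_eq_right.2 hD.sub
  rw [h1]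
  exact hD.sep.symm

omit [Fintype ι] in
theorem covE (h : Frm B Q T U F) : Cov B (Ep B Q T U F) := h.covD.mono ED

theorem rho_dcl (h : Frm B Q T U F) {D : Finset V} (hD : Dcl B Q T U F D) :
    rho B (Ep B Q T U F) = rho B D + rho B (Ep B Q T U F \ D) := by
  conv_lhs => rw [← union_sdiff_of_subset hD.sub]
  exact rho_add (h.covE.mono hD.sub) (h.covE.mono sdiff_subset) hD.sep

omit [Fintype ι] in
theorem pm_dcl (h : Frm B Q T U F) {D : Finset V} (hD : Dcl B Q T U F D) : PM (gr B) D := by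
  obtain ⟨f, hf⟩ := h.ge.rest
  refine ⟨f, fun v hv => ?_⟩
  obtain ⟨h1, h2, h3⟩ := hf v (hD.sub hv)
  refine ⟨?_, h2, h3⟩
  by_contra hcon
  obtain ⟨_, i, hi1, hi2⟩ := h3
  exact hD.sep i ⟨v, mem_inter.2 ⟨hi1, hv⟩⟩ ⟨f v, mem_inter.2 ⟨hi2, mem_sdiff.2 ⟨h1, hcon⟩⟩⟩

/-- the closed parts of the even part have value zero. -/
theorem sv_dcl (h : Frm B Q T U F) {D : Finset V} (hD : Dcl B Q T U F D) : sv B D = 0 := by
  have h1 := pm_sv_nonneg (h.pm_dcl hD)
  have h2 := pm_sv_nonneg (h.pm_dcl hD.compl)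
  have h3 := h.svE
  have h4 := h.rho_dcl hD
  have h5 := card_sdiff_add_card_eq_card hD.sub
  unfold sv at *
  omega

/-- **the cut lemma**: `T', U', A, D` is a piece such that `U'` is matched into `A`; the triples of `I`
are distributed into `P` and `M`, and `M` (with the other points of `U`) is absorbed outside. -/
theorem cut (h : Frm B Q T U F) {A : Finset (Finset V)} (hA : A ⊆ F) {D : Finset V}
    (hD : Dcl B Q T U F D) {T' : Finset ι} (hT' : T' ⊆ T) {U' : Finset V} (hU' : U' ⊆ U)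
    {g' : V → Finset V} (hg' : MtI B U' A g') {I : Finset ι} (hI : I ⊆ T) (hIT : Disjoint I T')
    {P M : Finset V} (hP : P ⊆ Q) (hM : M ⊆ Q) (hcU : ∀ v ∈ U, v ∉ U' → v ∈ P ∨ v ∈ M)
    (hcI : ∀ j ∈ I, ∀ v ∈ B j ∩ Q, v ∈ P ∨ v ∈ M) (hMd : ∀ C ∈ F, C ∉ A → Disjoint C M)
    {g : V → Finset V} (hg : MtI B M (F \ A) g) :
    rho B (Zn B Q T' U' A D) + I.card ≤ rho B (Zn B Q T' U' A D ∪ P) := by
  classical
  have hUQ : U ⊆ Q := h.UD.trans DQ
  have hZQ : Zn B Q T' U' A D ⊆ Q := h.Zn_sub hA (hU'.trans hUQ) hD.sub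
  have h1 : rho B (Zn B Q T' U' A D) ≤ ∑ C ∈ A, rho B C + rho B D + T'.card :=
    h.rho_Zn_le hA (hU'.trans hUQ) hD.sub
      (fun C hC => disjoint_of_subset_right hU' (h.ge.FU C (hA hC))) hg'
  have h2 : rho B (Zn B Q ((T \ T') \ I) M (F \ A) (Ep B Q T U F \ D)) ≤
      ∑ C ∈ F \ A, rho B C + rho B (Ep B Q T U F \ D) + ((T \ T') \ I).card :=
    h.rho_Zn_le sdiff_subset hM sdiff_subset
      (fun C hC => hMd C (mem_sdiff.1 hC).1 (mem_sdiff.1 hC).2) hg
  have hrQ : Zn B Q ((T \ T') \ I) M (F \ A) (Ep B Q T U F \ D) ⊆ Q :=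
    h.Zn_sub sdiff_subset hM sdiff_subset
  have h3 : rho B Q ≤ rho B ((Zn B Q T' U' A D ∪ P) ∪
      Zn B Q ((T \ T') \ I) M (F \ A) (Ep B Q T U F \ D)) := by
    refine rho_mono ?_ (h.cov.mono (union_subset (union_subset hZQ hP) hrQ))
    intro v hv
    simp only [mem_union, mem_Zn]
    by_cases hvT : v ∈ T.biUnion B
    · obtain ⟨j, hj, hvj⟩ := mem_biUnion.1 hvT
      by_cases hjT : j ∈ T'
      · exact Or.inl (Or.inl (Or.inl ⟨j, hjT, hvj, hv⟩))
      · by_cases hjI : j ∈ I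
        · rcases hcI j hjI v (mem_inter.2 ⟨hvj, hv⟩) with h4 | h4
          · exact Or.inl (Or.inr h4)
          · exact Or.inr (Or.inr (Or.inl h4))
        · exact Or.inr (Or.inl ⟨j, mem_sdiff.2 ⟨mem_sdiff.2 ⟨hj, hjT⟩, hjI⟩, hvj, hv⟩)
    by_cases hvU : v ∈ U
    · by_cases hvU' : v ∈ U'
      · exact Or.inl (Or.inl (Or.inr (Or.inl hvU')))
      · rcases hcU v hvU hvU' with h4 | h4
        · exact Or.inl (Or.inr h4)
        · exact Or.inr (Or.inr (Or.inl h4))
    by_cases hvF : v ∈ F.biUnion id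
    · obtain ⟨C, hC, hvC⟩ := mem_biUnion.1 hvF
      by_cases hCA : C ∈ A
      · exact Or.inl (Or.inl (Or.inr (Or.inr (Or.inl ⟨C, hCA, hvC⟩))))
      · exact Or.inr (Or.inr (Or.inr (Or.inl ⟨C, mem_sdiff.2 ⟨hC, hCA⟩, hvC⟩)))
    · have hvE : v ∈ Ep B Q T U F :=
        mem_sdiff.2 ⟨mem_sdiff.2 ⟨mem_sdiff.2 ⟨hv, hvT⟩, hvU⟩, hvF⟩
      by_cases hvD : v ∈ D
      · exact Or.inl (Or.inl (Or.inr (Or.inr (Or.inr hvD))))
      · exact Or.inr (Or.inr (Or.inr (Or.inr (mem_sdiff.2 ⟨hvE, hvD⟩))))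
  have h4 := rho_union_le (B := B) (W := Zn B Q T' U' A D ∪ P)
    (W' := Zn B Q ((T \ T') \ I) M (F \ A) (Ep B Q T U F \ D))
    (h.cov.mono (union_subset hZQ hP)) (h.cov.mono hrQ)
  have h5 := h.rho_split
  have h6 := h.rho_dcl hD
  have h7 : ∑ C ∈ F \ A, rho B C + ∑ C ∈ A, rho B C = ∑ C ∈ F, rho B C := sum_sdiff hA
  have h8 := card_sdiff_add_card_eq_card hT'
  have h9 : I ⊆ T \ T' := fun j hj => mem_sdiff.2 ⟨hI hj, fun h => disjoint_left.1 hIT hj h⟩
  have h10 := card_sdiff_add_card_eq_card h9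
  omega

/-- the cover number of a class. -/
theorem rho_cls (h : Frm B Q T U F) {A : Finset (Finset V)} (hA : A ⊆ F) {D : Finset V}
    (hD : Dcl B Q T U F D) {T' : Finset ι} (hT' : T' ⊆ T) {U' : Finset V} (hU' : U' ⊆ U)
    {g' : V → Finset V} (hg' : MtI B U' A g') {g : V → Finset V}
    (hg : MtI B (U \ U') (F \ A) g) :
    rho B (Zn B Q T' U' A D) = ∑ C ∈ A, rho B C + rho B D + T'.card := by
  classical
  have hUQ : U ⊆ Q := h.UD.trans DQ
  have hZQ : Zn B Q T' U' A D ⊆ Q := h.Zn_sub hA (hU'.trans hUQ) hD.sub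
  refine le_antisymm (h.rho_Zn_le hA (hU'.trans hUQ) hD.sub
      (fun C hC => disjoint_of_subset_right hU' (h.ge.FU C (hA hC))) hg') ?_
  have hM : U \ U' ⊆ Q := sdiff_subset.trans hUQ
  have h2 : rho B (Zn B Q (T \ T') (U \ U') (F \ A) (Ep B Q T U F \ D)) ≤
      ∑ C ∈ F \ A, rho B C + rho B (Ep B Q T U F \ D) + (T \ T').card :=
    h.rho_Zn_le sdiff_subset hM sdiff_subset
      (fun C hC => disjoint_of_subset_right sdiff_subset (h.ge.FU C (mem_sdiff.1 hC).1)) hg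
  have hrQ : Zn B Q (T \ T') (U \ U') (F \ A) (Ep B Q T U F \ D) ⊆ Q :=
    h.Zn_sub sdiff_subset hM sdiff_subset
  have h3 : rho B Q ≤ rho B (Zn B Q T' U' A D ∪
      Zn B Q (T \ T') (U \ U') (F \ A) (Ep B Q T U F \ D)) := by
    refine rho_mono ?_ (h.cov.mono (union_subset hZQ hrQ))
    intro v hv
    simp only [mem_union, mem_Zn]
    by_cases hvT : v ∈ T.biUnion B
    · obtain ⟨j, hj, hvj⟩ := mem_biUnion.1 hvT
      by_cases hjT : j ∈ T'
      · exact Or.inl (Or.inl ⟨j, hjT, hvj, hv⟩)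
      · exact Or.inr (Or.inl ⟨j, mem_sdiff.2 ⟨hj, hjT⟩, hvj, hv⟩)
    by_cases hvU : v ∈ U
    · by_cases hvU' : v ∈ U'
      · exact Or.inl (Or.inr (Or.inl hvU'))
      · exact Or.inr (Or.inr (Or.inl (mem_sdiff.2 ⟨hvU, hvU'⟩)))
    by_cases hvF : v ∈ F.biUnion id
    · obtain ⟨C, hC, hvC⟩ := mem_biUnion.1 hvF
      by_cases hCA : C ∈ A
      · exact Or.inl (Or.inr (Or.inr (Or.inl ⟨C, hCA, hvC⟩)))
      · exact Or.inr (Or.inr (Or.inr (Or.inl ⟨C, mem_sdiff.2 ⟨hC, hCA⟩, hvC⟩)))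
    · have hvE : v ∈ Ep B Q T U F :=
        mem_sdiff.2 ⟨mem_sdiff.2 ⟨mem_sdiff.2 ⟨hv, hvT⟩, hvU⟩, hvF⟩
      by_cases hvD : v ∈ D
      · exact Or.inl (Or.inr (Or.inr (Or.inr hvD)))
      · exact Or.inr (Or.inr (Or.inr (Or.inr (mem_sdiff.2 ⟨hvE, hvD⟩))))
  have h4 := rho_union_le (B := B) (W := Zn B Q T' U' A D)
    (W' := Zn B Q (T \ T') (U \ U') (F \ A) (Ep B Q T U F \ D))
    (h.cov.mono hZQ) (h.cov.mono hrQ)
  have h5 := h.rho_split
  have h6 := h.rho_dcl hD
  have h7 : ∑ C ∈ F \ A, rho B C + ∑ C ∈ A, rho B C = ∑ C ∈ F, rho B C := sum_sdiff hA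
  have h8 := card_sdiff_add_card_eq_card hT'
  omega

omit [Fintype ι] in
/-- the number of points of a piece. -/
theorem card_Zn (h : Frm B Q T U F) {A : Finset (Finset V)} (hA : A ⊆ F) {D : Finset V}
    (hD : D ⊆ Ep B Q T U F) {T' : Finset ι} (hT' : T' ⊆ T) {U' : Finset V} (hU' : U' ⊆ U) :
    (Zn B Q T' U' A D).card = 3 * T'.card + U'.card + ∑ C ∈ A, C.card + D.card := by
  classical
  have hTD : ∀ v ∈ T'.biUnion B ∩ Q, v ∉ Dp B Q T := by
    intro v hv hv'
    obtain ⟨h1, _⟩ := mem_inter.1 hv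
    obtain ⟨j, hj, hvj⟩ := mem_biUnion.1 h1
    exact (mem_sdiff.1 hv').2 (mem_biUnion.2 ⟨j, hT' hj, hvj⟩)
  have d1 : Disjoint (T'.biUnion B ∩ Q) U' := by
    rw [disjoint_left]
    intro v hv hv'
    exact hTD v hv (h.UD (hU' hv'))
  have d2 : Disjoint ((T'.biUnion B ∩ Q) ∪ U') (A.biUnion id) := by
    rw [disjoint_left]
    intro v hv hv'
    obtain ⟨C, hC, hvC⟩ := mem_biUnion.1 hv'
    rcases mem_union.1 hv with h1 | h1
    · exact hTD v h1 (h.FD (hA hC) hvC)
    · exact disjoint_left.1 (h.ge.FU C (hA hC)) hvC (hU' h1)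
  have d3 : Disjoint ((T'.biUnion B ∩ Q) ∪ U' ∪ A.biUnion id) D := by
    rw [disjoint_left]
    intro v hv hv'
    have hE := mem_sdiff.1 (hD hv')
    rcases mem_union.1 hv with h1 | h1
    · rcases mem_union.1 h1 with h2 | h2
      · exact hTD v h2 (ED (hD hv'))
      · exact (mem_sdiff.1 hE.1).2 (hU' h2)
    · obtain ⟨C, hC, hvC⟩ := mem_biUnion.1 h1
      exact hE.2 (mem_biUnion.2 ⟨C, hA hC, hvC⟩)
  have h1 : (A.biUnion id).card = ∑ C ∈ A, C.card := card_biUnion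
    (fun C hC C' hC' hne => h.ge.sys.disj C (hA hC) C' (hA hC') hne)
  have hpk : Pack B Q 3 T' := ⟨fun i hi => h.mtp.tpk.pack.card i (hT' hi),
    fun i hi j hj => h.mtp.tpk.pack.disj i (hT' hi) j (hT' hj)⟩
  have h2 : (T'.biUnion B ∩ Q).card = 3 * T'.card := hpk.inter_card
  unfold Zn
  rw [card_union_of_disjoint d3, card_union_of_disjoint d2, card_union_of_disjoint d1, h1, h2]

/-- the value of a class. -/
theorem sv_cls (h : Frm B Q T U F) {A : Finset (Finset V)} (hA : A ⊆ F) {D : Finset V}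
    (hD : Dcl B Q T U F D) {T' : Finset ι} (hT' : T' ⊆ T) {U' : Finset V} (hU' : U' ⊆ U)
    {g' : V → Finset V} (hg' : MtI B U' A g') {g : V → Finset V}
    (hg : MtI B (U \ U') (F \ A) g) :
    sv B (Zn B Q T' U' A D) = (T'.card : ℤ) + U'.card - A.card := by
  have h1 := h.rho_cls hA hD hT' hU' hg' hg
  have h2 := h.card_Zn hA hD.sub hT' hU'
  have h3 := h.sv_dcl hD
  have h4 : ∑ C ∈ A, (C.card : ℤ) = 2 * ∑ C ∈ A, (rho B C : ℤ) - A.card := by
    have h5 : ∀ C ∈ A, (C.card : ℤ) = 2 * (rho B C : ℤ) - 1 := by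
      intro C hC
      have h6 := h.sv_leaf (hA hC)
      unfold sv at h6
      linarith
    rw [sum_congr rfl h5, sum_sub_distrib, ← mul_sum, sum_const, nsmul_eq_mul, mul_one]
  unfold sv at *
  rw [h1, h2]
  push_cast
  linarith

end Frm

section sums

variable {τ : Type*} [DecidableEq τ]

theorem Pp_biUnion' (P : Finset τ) (Z : τ → Finset V) (hc : ∀ c ∈ P, Cov B (Z c))
    (hs : ∀ c ∈ P, ∀ d ∈ P, c ≠ d → Disjoint (Z c) (Z d) ∧ Sep B (Z c) (Z d)) :
    Pp B (P.biUnion Z) = ∑ c ∈ P, Pp B (Z c) := by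
  induction P using Finset.induction_on with
  | empty => simp [Pp, sv_empty, G, cm, tch]
  | insert c P hc' ih =>
    have hne : ∀ d ∈ P, c ≠ d := fun d hd he => hc' (he ▸ hd)
    have h1 : ∀ d ∈ P, Disjoint (Z c) (Z d) ∧ Sep B (Z c) (Z d) := fun d hd =>
      hs c (mem_insert_self _ _) d (mem_insert_of_mem hd) (hne d hd)
    have hcP : Cov B (P.biUnion Z) := by
      intro v hv
      obtain ⟨d, hd, hvd⟩ := mem_biUnion.1 hv
      exact hc d (mem_insert_of_mem hd) v hvd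
    rw [biUnion_insert, sum_insert hc', Pp_add (hc c (mem_insert_self _ _)) hcP, ih]
    · exact fun d hd => hc d (mem_insert_of_mem hd)
    · exact fun d hd e he => hs d (mem_insert_of_mem hd) e (mem_insert_of_mem he)
    · rw [disjoint_biUnion_right]
      exact fun d hd => (h1 d hd).1
    · intro i hi1 hi2
      obtain ⟨v, hv⟩ := hi2
      obtain ⟨hv1, hv2⟩ := mem_inter.1 hv
      obtain ⟨d, hd, hvd⟩ := mem_biUnion.1 hv2
      exact (h1 d hd).2 i hi1 ⟨v, mem_inter.2 ⟨hv1, hvd⟩⟩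

theorem rho_biUnion' (P : Finset τ) (Z : τ → Finset V) (hc : ∀ c ∈ P, Cov B (Z c))
    (hs : ∀ c ∈ P, ∀ d ∈ P, c ≠ d → Disjoint (Z c) (Z d) ∧ Sep B (Z c) (Z d)) :
    rho B (P.biUnion Z) = ∑ c ∈ P, rho B (Z c) := by
  induction P using Finset.induction_on with
  | empty => simp
  | insert c P hc' ih =>
    have hne : ∀ d ∈ P, c ≠ d := fun d hd he => hc' (he ▸ hd)
    have h1 : ∀ d ∈ P, Disjoint (Z c) (Z d) ∧ Sep B (Z c) (Z d) := fun d hd =>
      hs c (mem_insert_self _ _) d (mem_insert_of_mem hd) (hne d hd)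
    have hcP : Cov B (P.biUnion Z) := by
      intro v hv
      obtain ⟨d, hd, hvd⟩ := mem_biUnion.1 hv
      exact hc d (mem_insert_of_mem hd) v hvd
    rw [biUnion_insert, sum_insert hc', rho_add (hc c (mem_insert_self _ _)) hcP, ih]
    · exact fun d hd => hc d (mem_insert_of_mem hd)
    · exact fun d hd e he => hs d (mem_insert_of_mem hd) e (mem_insert_of_mem he)
    · intro i hi1 hi2
      obtain ⟨v, hv⟩ := hi2
      obtain ⟨hv1, hv2⟩ := mem_inter.1 hv
      obtain ⟨d, hd, hvd⟩ := mem_biUnion.1 hv2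
      exact (h1 d hd).2 i hi1 ⟨v, mem_inter.2 ⟨hv1, hvd⟩⟩

end sums

end Pool.Agent.Hyp6
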