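import Pool.Agent.Hyp6.CritLow2

/-!
# HYP6 L3NEG: the level-3 theorem for critical sets with negative value

It follows from the growth theorem `GM` for factor-critical bad sets.
-/

set_option autoImplicit false

namespace Pool.Agent.Hyp6

open Finset Pool.Agent.Hyp5

universe u v

variable {V : Type v} [DecidableEq V] {ι : Type u} [Fintype ι] {B : ι → Finset V}

/-- a factor-critical set with value `-1` is bad. -/
theorem bad_of_sv {Q : Finset V} (hc : Cov B Q) (h : sv B Q = -1) : Bad B Q := by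
  rintro i ⟨hi1, hi2⟩ hpm
  have h1 := sv_sdiff (B := B) (i := i) (Subset.refl (B i)) hi1 hc
  have h2 := pm_sv_nonneg hpm
  rw [hi2, h] at h1
  push_cast at h1
  linarith

theorem L3_crit_neg (hGM : ∀ n, IHG.{u} V n) {Q : Finset V} (hr : Reg B Q) (h3 : Tr3 B Q)
    (hQ : Conn (gr B) Q) (hcr : Crit B Q) (hneg : sv B Q ≤ -1) : L3ok B Q := by
  obtain ⟨hfc, hsv⟩ := crit_low (cov_of_reg hr) hQ hcr hneg
  have h1 : FC (gr (trn B Q)) Q := (trn_fc (Subset.refl _)).2 hfc
  have h2 : sv (trn B Q) Q = -1 := by rw [trn_sv (Subset.refl _), hsv]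
  have h4 : Bad (trn B Q) Q := bad_of_sv (cov_of_reg (trn_reg hr)) h2
  have h5 : GM (trn B Q) Q :=
    hGM (Q.card + 1) ι (trn B Q) Q (Nat.lt_succ_self _) (trn_small h3) (trn_reg hr) h1 h4
  unfold GM et at h5
  rw [trn_G (Subset.refl _), trn_ee (Subset.refl _)] at h5
  have h6 : (0 : ℤ) ≤ ee B Q Q := by positivity
  constructor
  · unfold Pp
    rw [hsv]
    linarith
  · unfold Pv
    rw [hsv]
    linarith

/-- a critical set with nonnegative value: the second inequality follows from the first one. -/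
theorem L3ok_of_Pp {Q : Finset V} (hs : 0 ≤ sv B Q) (h : 2 * (ee B Q Q : ℤ) ≤ Pp B Q) :
    L3ok B Q := by
  refine ⟨h, ?_⟩
  have h6 : (0 : ℤ) ≤ ee B Q Q := by positivity
  rw [Pv_eq_Pp]
  linarith

/-- the value of a critical connected set is at least `-1`. -/
theorem crit_sv_ge {Q : Finset V} (hr : Reg B Q) (hQ : Conn (gr B) Q) (hcr : Crit B Q) :
    -1 ≤ sv B Q := by
  by_contra hcon
  push Not at hcon
  have := (crit_low (cov_of_reg hr) hQ hcr (by omega)).2
  omega

end Pool.Agent.Hyp6
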