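import Mathlib

/-!
# HYP6 L3Nm0: the nodes with lines with own points, numbers

`payS m n1 n`: the price above `560` of a triple of a line with two classes at a single leaf with `m`
points and `n1` single traces, with `n` hits. `LimF`: the numbers of hits of a triple with own points
(`nf`) and of a triple without own points (`nt`). `Fq nf s`: the price of the triple with own points.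
-/

set_option autoImplicit false

namespace Pool.Agent.Hyp6.Rt

/-- the price of a triple without own points, lower bound. -/
def payS (m n1 n : ℕ) : ℤ :=
  if n ≤ 1 then -161
  else if n = 2 then -97
  else if n = 3 then -33
  else if n = 4 then -44
  else if n = 5 then 15
  else if n = 6 then -1
  else if n = 7 then -17
  else if n = 8 then (if m = 5 ∧ n1 = 1 then 18 else -33)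
  else 26

theorem payS_ge (m n1 n : ℕ) : -161 ≤ payS m n1 n := by
  unfold payS
  split_ifs <;> norm_num

/-- the values of `payS`. -/
def Pq (m n nt q : ℤ) : Prop :=
  (nt = 1 ∧ -161 ≤ q) ∨ (nt = 2 ∧ -97 ≤ q) ∨ (nt = 3 ∧ -33 ≤ q) ∨ (nt = 4 ∧ -44 ≤ q) ∨
  (nt = 5 ∧ 15 ≤ q) ∨ (nt = 6 ∧ -1 ≤ q) ∨ (nt = 7 ∧ -17 ≤ q) ∨
  (nt = 8 ∧ -33 ≤ q ∧ (m = 5 → n = 1 → 18 ≤ q)) ∨ (9 ≤ nt ∧ 26 ≤ q)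

theorem payS_Pq {m n1 n : ℕ} (hn : 1 ≤ n) {q : ℤ} (hq : payS m n1 n ≤ q) :
    Pq (m : ℤ) (n1 : ℤ) (n : ℤ) q := by
  unfold Pq
  unfold payS at hq
  split_ifs at hq <;> omega

/-- the prices of a triple with own points, one own hit. -/
def F1 (nf s : ℤ) : Prop :=
  (nf = 0 ∧ 300 ≤ s) ∨ (nf = 1 ∧ 439 ≤ s) ∨ (nf = 2 ∧ 487 ≤ s) ∨ (nf = 3 ∧ 495 ≤ s) ∨
  (nf = 4 ∧ 540 ≤ s) ∨ (nf = 5 ∧ 575 ≤ s) ∨ (nf = 6 ∧ 593 ≤ s) ∨ (7 ≤ nf ∧ 616 ≤ s)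

/-- the prices of a triple with own points, two own hits. -/
def F2 (nf s : ℤ) : Prop :=
  (nf = 0 ∧ 276 ≤ s) ∨ (nf = 1 ∧ 415 ≤ s) ∨ (nf = 2 ∧ 463 ≤ s) ∨ (nf = 3 ∧ 471 ≤ s) ∨
  (nf = 4 ∧ 516 ≤ s) ∨ (nf = 5 ∧ 512 ≤ s) ∨ (nf = 6 ∧ 569 ≤ s) ∨ (7 ≤ nf ∧ 592 ≤ s)

/-- the prices of a triple with own points, three own hits. -/
def F3 (nf s : ℤ) : Prop :=
  (nf = 0 ∧ 252 ≤ s) ∨ (nf = 1 ∧ 391 ≤ s) ∨ (nf = 2 ∧ 439 ≤ s) ∨ (nf = 3 ∧ 447 ≤ s) ∨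
  (nf = 4 ∧ 492 ≤ s) ∨ (nf = 5 ∧ 505 ≤ s) ∨ (nf = 6 ∧ 545 ≤ s) ∨ (7 ≤ nf ∧ 568 ≤ s)

/-- the kinds of leaves. -/
structure LimM (m n : ℤ) : Prop where
  m1 : 1 ≤ m
  mo : m % 2 = 1
  n1 : 1 ≤ n
  no : n % 2 = 1
  pt : m = 1 → n = 5

/-- the hits of one line triple at a leaf. -/
structure LimH (m n h : ℤ) : Prop where
  h0 : 0 ≤ h
  h11 : h ≤ 11
  le4 : m = 3 → n = 1 → h ≤ 4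
  le6 : m = 1 → h ≤ 6
  le7 : m = 3 → n = 3 → h ≤ 7
  le8 : m = 5 → n = 1 → h ≤ 8

/-- the five kinds of leaves. -/
theorem LimM.kind {m n : ℤ} (h : LimM m n) (hp : 11 ≤ 2 * n + 3 * m) :
    (m = 3 ∧ n = 1) ∨ (m = 1 ∧ n = 5) ∨ (m = 3 ∧ n = 3) ∨ (m = 5 ∧ n = 1) ∨
      (30 ≤ 3 * n + 5 * m ∧ (n = 1 → 38 ≤ 3 * n + 5 * m)) := by
  obtain ⟨h1, h2, h3, h4, h5⟩ := h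
  rcases (by omega : m = 1 ∨ m = 3 ∨ m = 5 ∨ 7 ≤ m) with h6 | h6 | h6 | h6
  · exact Or.inr (Or.inl ⟨h6, h5 h6⟩)
  · rcases (by omega : n = 1 ∨ n = 3 ∨ 5 ≤ n) with h7 | h7 | h7
    · exact Or.inl ⟨h6, h7⟩
    · exact Or.inr (Or.inr (Or.inl ⟨h6, h7⟩))
    · exact Or.inr (Or.inr (Or.inr (Or.inr ⟨by omega, by omega⟩)))
  · rcases (by omega : n = 1 ∨ 3 ≤ n) with h7 | h7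
    · exact Or.inr (Or.inr (Or.inr (Or.inl ⟨h6, h7⟩)))
    · exact Or.inr (Or.inr (Or.inr (Or.inr ⟨by omega, by omega⟩)))
  · exact Or.inr (Or.inr (Or.inr (Or.inr ⟨by omega, by omega⟩)))

/-- one triple of each kind, one own hit. -/
theorem LimM.tf1 {m n nf nt q s : ℤ} (h : LimM m n) (hp : 11 ≤ 2 * n + 3 * m)
    (hf : LimH m n nf) (ht : LimH m n nt)
    (h43 : m = 3 → n = 1 → nt = 4 → nf ≤ 2) (h73 : m = 3 → n = 3 → nt = 7 → nf ≠ 3)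
    (hs : 2 * (nf + nt) + 4 ≤ 3 * n + 5 * m) (hx : 4 ≤ nf → 4 ≤ nt)
    (hq : Pq m n nt q) (hF : F1 nf s) :
    1430 - 240 * n - 360 * m + 144 * (nf + nt) ≤ 560 + q + s := by
  have hk := h.kind hp
  obtain ⟨h1, h2, h3, h4, h5⟩ := h
  obtain ⟨f1, f2, f3, f4, f5, f6⟩ := hf
  obtain ⟨t1, t2, t3, t4, t5, t6⟩ := ht
  rcases hk with ⟨rfl, rfl⟩ | ⟨rfl, rfl⟩ | ⟨rfl, rfl⟩ | ⟨rfl, rfl⟩ | ⟨h8, h9⟩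
  · have f7 := f3 rfl rfl
    have t7 := t3 rfl rfl
    have g7 := h43 rfl rfl
    clear f3 f4 f5 f6 t3 t4 t5 t6 h43 h73 h5
    rcases hF with ⟨rfl, hF⟩ | ⟨rfl, hF⟩ | ⟨rfl, hF⟩ | ⟨rfl, hF⟩ | ⟨rfl, hF⟩ | ⟨rfl, hF⟩ |
      ⟨rfl, hF⟩ | ⟨h7, hF⟩ <;>
    rcases hq with ⟨rfl, hq⟩ | ⟨rfl, hq⟩ | ⟨rfl, hq⟩ | ⟨rfl, hq⟩ | ⟨rfl, hq⟩ | ⟨rfl, hq⟩ |
      ⟨rfl, hq⟩ | ⟨rfl, hq, hq'⟩ | ⟨h13, hq⟩ <;> first | linarith | omega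
  · have f7 := f4 rfl
    have t7 := t4 rfl
    clear f3 f4 f5 f6 t3 t4 t5 t6 h43 h73 h5
    rcases hF with ⟨rfl, hF⟩ | ⟨rfl, hF⟩ | ⟨rfl, hF⟩ | ⟨rfl, hF⟩ | ⟨rfl, hF⟩ | ⟨rfl, hF⟩ |
      ⟨rfl, hF⟩ | ⟨h7, hF⟩ <;>
    rcases hq with ⟨rfl, hq⟩ | ⟨rfl, hq⟩ | ⟨rfl, hq⟩ | ⟨rfl, hq⟩ | ⟨rfl, hq⟩ | ⟨rfl, hq⟩ |
      ⟨rfl, hq⟩ | ⟨rfl, hq, hq'⟩ | ⟨h13, hq⟩ <;> first | linarith | omega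
  · have f7 := f5 rfl rfl
    have t7 := t5 rfl rfl
    have g7 := h73 rfl rfl
    clear f3 f4 f5 f6 t3 t4 t5 t6 h43 h73 h5
    rcases hF with ⟨rfl, hF⟩ | ⟨rfl, hF⟩ | ⟨rfl, hF⟩ | ⟨rfl, hF⟩ | ⟨rfl, hF⟩ | ⟨rfl, hF⟩ |
      ⟨rfl, hF⟩ | ⟨h7, hF⟩ <;>
    rcases hq with ⟨rfl, hq⟩ | ⟨rfl, hq⟩ | ⟨rfl, hq⟩ | ⟨rfl, hq⟩ | ⟨rfl, hq⟩ | ⟨rfl, hq⟩ |
      ⟨rfl, hq⟩ | ⟨rfl, hq, hq'⟩ | ⟨h13, hq⟩ <;> first | linarith | omega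
  · have f7 := f6 rfl rfl
    have t7 := t6 rfl rfl
    clear f3 f4 f5 f6 t3 t4 t5 t6 h43 h73 h5
    rcases hF with ⟨rfl, hF⟩ | ⟨rfl, hF⟩ | ⟨rfl, hF⟩ | ⟨rfl, hF⟩ | ⟨rfl, hF⟩ | ⟨rfl, hF⟩ |
      ⟨rfl, hF⟩ | ⟨h7, hF⟩ <;>
    rcases hq with ⟨rfl, hq⟩ | ⟨rfl, hq⟩ | ⟨rfl, hq⟩ | ⟨rfl, hq⟩ | ⟨rfl, hq⟩ | ⟨rfl, hq⟩ |
      ⟨rfl, hq⟩ | ⟨rfl, hq, hq'⟩ | ⟨h13, hq⟩ <;> first | linarith | omega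
  · clear f3 f4 f5 f6 t3 t4 t5 t6 h43 h73 h5
    rcases hF with ⟨rfl, hF⟩ | ⟨rfl, hF⟩ | ⟨rfl, hF⟩ | ⟨rfl, hF⟩ | ⟨rfl, hF⟩ | ⟨rfl, hF⟩ |
      ⟨rfl, hF⟩ | ⟨h7, hF⟩ <;>
    rcases hq with ⟨rfl, hq⟩ | ⟨rfl, hq⟩ | ⟨rfl, hq⟩ | ⟨rfl, hq⟩ | ⟨rfl, hq⟩ | ⟨rfl, hq⟩ |
      ⟨rfl, hq⟩ | ⟨rfl, hq, hq'⟩ | ⟨h13, hq⟩ <;> first | linarith | omega

/-- one triple of each kind, two own hits. -/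
theorem LimM.tf2 {m n nf nt q s : ℤ} (h : LimM m n) (hp : 11 ≤ 2 * n + 3 * m) (hn : 3 ≤ n)
    (hf : LimH m n nf) (ht : LimH m n nt) (h73 : m = 3 → n = 3 → nt = 7 → nf ≠ 3)
    (hs : 2 * (nf + nt) + 4 ≤ 3 * n + 5 * m) (hx : 4 ≤ nf → 4 ≤ nt)
    (hq : Pq m n nt q) (hF : F2 nf s) :
    1430 - 240 * n - 360 * m + 144 * (nf + nt) ≤ 560 + q + s := by
  have hk := h.kind hp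
  obtain ⟨h1, h2, h3, h4, h5⟩ := h
  obtain ⟨f1, f2, f3, f4, f5, f6⟩ := hf
  obtain ⟨t1, t2, t3, t4, t5, t6⟩ := ht
  rcases hk with ⟨rfl, rfl⟩ | ⟨rfl, rfl⟩ | ⟨rfl, rfl⟩ | ⟨rfl, rfl⟩ | ⟨h8, h9⟩
  · omega
  · have f7 := f4 rfl
    have t7 := t4 rfl
    clear f3 f4 f5 f6 t3 t4 t5 t6 h73 h5
    rcases hF with ⟨rfl, hF⟩ | ⟨rfl, hF⟩ | ⟨rfl, hF⟩ | ⟨rfl, hF⟩ | ⟨rfl, hF⟩ | ⟨rfl, hF⟩ |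
      ⟨rfl, hF⟩ | ⟨h7, hF⟩ <;>
    rcases hq with ⟨rfl, hq⟩ | ⟨rfl, hq⟩ | ⟨rfl, hq⟩ | ⟨rfl, hq⟩ | ⟨rfl, hq⟩ | ⟨rfl, hq⟩ |
      ⟨rfl, hq⟩ | ⟨rfl, hq, hq'⟩ | ⟨h13, hq⟩ <;> first | linarith | omega
  · have f7 := f5 rfl rfl
    have t7 := t5 rfl rfl
    have g7 := h73 rfl rfl
    clear f3 f4 f5 f6 t3 t4 t5 t6 h73 h5
    rcases hF with ⟨rfl, hF⟩ | ⟨rfl, hF⟩ | ⟨rfl, hF⟩ | ⟨rfl, hF⟩ | ⟨rfl, hF⟩ | ⟨rfl, hF⟩ |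
      ⟨rfl, hF⟩ | ⟨h7, hF⟩ <;>
    rcases hq with ⟨rfl, hq⟩ | ⟨rfl, hq⟩ | ⟨rfl, hq⟩ | ⟨rfl, hq⟩ | ⟨rfl, hq⟩ | ⟨rfl, hq⟩ |
      ⟨rfl, hq⟩ | ⟨rfl, hq, hq'⟩ | ⟨h13, hq⟩ <;> first | linarith | omega
  · omega
  · clear f3 f4 f5 f6 t3 t4 t5 t6 h73 h5
    rcases (by omega : n = 3 ∨ 5 ≤ n) with h10 | h10
    · have h11 : 5 ≤ m := by omega
      subst h10
      rcases hF with ⟨rfl, hF⟩ | ⟨rfl, hF⟩ | ⟨rfl, hF⟩ | ⟨rfl, hF⟩ | ⟨rfl, hF⟩ | ⟨rfl, hF⟩ |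
        ⟨rfl, hF⟩ | ⟨h7, hF⟩ <;>
      rcases hq with ⟨rfl, hq⟩ | ⟨rfl, hq⟩ | ⟨rfl, hq⟩ | ⟨rfl, hq⟩ | ⟨rfl, hq⟩ | ⟨rfl, hq⟩ |
        ⟨rfl, hq⟩ | ⟨rfl, hq, hq'⟩ | ⟨h13, hq⟩ <;> first | linarith | omega
    · rcases hF with ⟨rfl, hF⟩ | ⟨rfl, hF⟩ | ⟨rfl, hF⟩ | ⟨rfl, hF⟩ | ⟨rfl, hF⟩ | ⟨rfl, hF⟩ |
        ⟨rfl, hF⟩ | ⟨h7, hF⟩ <;>
      rcases hq with ⟨rfl, hq⟩ | ⟨rfl, hq⟩ | ⟨rfl, hq⟩ | ⟨rfl, hq⟩ | ⟨rfl, hq⟩ | ⟨rfl, hq⟩ |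
        ⟨rfl, hq⟩ | ⟨rfl, hq, hq'⟩ | ⟨h13, hq⟩ <;> first | linarith | omega

/-- one triple of each kind, three own hits. -/
theorem LimM.tf3 {m n nf nt q s : ℤ} (h : LimM m n) (hp : 11 ≤ 2 * n + 3 * m) (hn : 3 ≤ n)
    (hf : LimH m n nf) (ht : LimH m n nt)
    (hs : 2 * (nf + nt) + 6 ≤ 3 * n + 5 * m) (hx : 4 ≤ nf → 4 ≤ nt)
    (hq : Pq m n nt q) (hF : F3 nf s) :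
    1425 - 240 * n - 360 * m + 144 * (nf + nt) ≤ 560 + q + s := by
  have hk := h.kind hp
  obtain ⟨h1, h2, h3, h4, h5⟩ := h
  obtain ⟨f1, f2, f3, f4, f5, f6⟩ := hf
  obtain ⟨t1, t2, t3, t4, t5, t6⟩ := ht
  rcases hk with ⟨rfl, rfl⟩ | ⟨rfl, rfl⟩ | ⟨rfl, rfl⟩ | ⟨rfl, rfl⟩ | ⟨h8, h9⟩
  · omega
  · have f7 := f4 rfl
    have t7 := t4 rfl
    clear f3 f4 f5 f6 t3 t4 t5 t6 h5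
    rcases hF with ⟨rfl, hF⟩ | ⟨rfl, hF⟩ | ⟨rfl, hF⟩ | ⟨rfl, hF⟩ | ⟨rfl, hF⟩ | ⟨rfl, hF⟩ |
      ⟨rfl, hF⟩ | ⟨h7, hF⟩ <;>
    rcases hq with ⟨rfl, hq⟩ | ⟨rfl, hq⟩ | ⟨rfl, hq⟩ | ⟨rfl, hq⟩ | ⟨rfl, hq⟩ | ⟨rfl, hq⟩ |
      ⟨rfl, hq⟩ | ⟨rfl, hq, hq'⟩ | ⟨h13, hq⟩ <;> first | linarith | omega
  · have f7 := f5 rfl rfl
    have t7 := t5 rfl rfl
    clear f3 f4 f5 f6 t3 t4 t5 t6 h5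
    rcases hF with ⟨rfl, hF⟩ | ⟨rfl, hF⟩ | ⟨rfl, hF⟩ | ⟨rfl, hF⟩ | ⟨rfl, hF⟩ | ⟨rfl, hF⟩ |
      ⟨rfl, hF⟩ | ⟨h7, hF⟩ <;>
    rcases hq with ⟨rfl, hq⟩ | ⟨rfl, hq⟩ | ⟨rfl, hq⟩ | ⟨rfl, hq⟩ | ⟨rfl, hq⟩ | ⟨rfl, hq⟩ |
      ⟨rfl, hq⟩ | ⟨rfl, hq, hq'⟩ | ⟨h13, hq⟩ <;> first | linarith | omega
  · omega
  · clear f3 f4 f5 f6 t3 t4 t5 t6 h5
    rcases hF with ⟨rfl, hF⟩ | ⟨rfl, hF⟩ | ⟨rfl, hF⟩ | ⟨rfl, hF⟩ | ⟨rfl, hF⟩ | ⟨rfl, hF⟩ |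
      ⟨rfl, hF⟩ | ⟨h7, hF⟩ <;>
    rcases hq with ⟨rfl, hq⟩ | ⟨rfl, hq⟩ | ⟨rfl, hq⟩ | ⟨rfl, hq⟩ | ⟨rfl, hq⟩ | ⟨rfl, hq⟩ |
      ⟨rfl, hq⟩ | ⟨rfl, hq, hq'⟩ | ⟨h13, hq⟩ <;> first | linarith | omega

/-- two triples with own points, two own hits. -/
theorem LimM.ff1 {m n nf ng r s : ℤ} (h : LimM m n) (hn : 3 ≤ n)
    (hs : 2 * (nf + ng) + 4 ≤ 3 * n + 5 * m) (h0 : 0 ≤ nf) (h0' : 0 ≤ ng)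
    (hx : 4 ≤ nf → 4 ≤ ng) (hy : 4 ≤ ng → 4 ≤ nf)
    (hR : F1 ng r) (hF : F1 nf s) :
    1430 - 240 * n - 360 * m + 144 * (nf + ng) ≤ r + s := by
  obtain ⟨h1, h2, h3, h4, h5⟩ := h
  have h6 : 20 ≤ 3 * n + 5 * m := by omega
  clear h2 h4 h5
  rcases hF with ⟨rfl, hF⟩ | ⟨rfl, hF⟩ | ⟨rfl, hF⟩ | ⟨rfl, hF⟩ | ⟨rfl, hF⟩ | ⟨rfl, hF⟩ |
    ⟨rfl, hF⟩ | ⟨h7, hF⟩ <;>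
  rcases hR with ⟨rfl, hR⟩ | ⟨rfl, hR⟩ | ⟨rfl, hR⟩ | ⟨rfl, hR⟩ | ⟨rfl, hR⟩ | ⟨rfl, hR⟩ |
    ⟨rfl, hR⟩ | ⟨h8, hR⟩ <;> first | linarith | omega

/-- two triples with own points, at least three own hits. -/
theorem LimM.ff3 {m n nf ng r s : ℤ} (h : LimM m n) (hn : 3 ≤ n)
    (hs : 2 * (nf + ng) + 6 ≤ 3 * n + 5 * m) (h0 : 0 ≤ nf) (h0' : 0 ≤ ng)
    (hx : 4 ≤ nf → 4 ≤ ng) (hy : 4 ≤ ng → 4 ≤ nf)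
    (hR : F3 ng r) (hF : F3 nf s) :
    1425 - 240 * n - 360 * m + 144 * (nf + ng) ≤ r + s := by
  obtain ⟨h1, h2, h3, h4, h5⟩ := h
  have h6 : 20 ≤ 3 * n + 5 * m := by omega
  clear h2 h4 h5
  rcases hF with ⟨rfl, hF⟩ | ⟨rfl, hF⟩ | ⟨rfl, hF⟩ | ⟨rfl, hF⟩ | ⟨rfl, hF⟩ | ⟨rfl, hF⟩ |
    ⟨rfl, hF⟩ | ⟨h7, hF⟩ <;>
  rcases hR with ⟨rfl, hR⟩ | ⟨rfl, hR⟩ | ⟨rfl, hR⟩ | ⟨rfl, hR⟩ | ⟨rfl, hR⟩ | ⟨rfl, hR⟩ |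
    ⟨rfl, hR⟩ | ⟨h8, hR⟩ <;> first | linarith | omega

/-- one hit from outside at a point. -/
theorem tf_point {nf nt q s : ℤ} (h0 : 0 ≤ nf) (h6 : nf ≤ 6) (h6' : nt ≤ 6)
    (h8 : nf + nt ≤ 8) (hx : 4 ≤ nf → 4 ≤ nt) (hq : Pq 1 5 nt q) (hF : F1 nf s) :
    -125 + 144 * (nf + nt) ≤ 560 + q + s := by
  rcases hF with ⟨rfl, hF⟩ | ⟨rfl, hF⟩ | ⟨rfl, hF⟩ | ⟨rfl, hF⟩ | ⟨rfl, hF⟩ | ⟨rfl, hF⟩ |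
    ⟨rfl, hF⟩ | ⟨h7, hF⟩ <;>
  rcases hq with ⟨rfl, hq⟩ | ⟨rfl, hq⟩ | ⟨rfl, hq⟩ | ⟨rfl, hq⟩ | ⟨rfl, hq⟩ | ⟨rfl, hq⟩ |
    ⟨rfl, hq⟩ | ⟨rfl, hq, hq'⟩ | ⟨h13, hq⟩ <;> first | linarith | omega

/-- the slope of the prices: `c` for every hit. -/
def Slp (m n c : ℤ) : Prop :=
  (m = 3 ∧ n = 1 ∧ c = 54) ∨ (m = 1 ∧ n = 5 ∧ c = 43) ∨ (m = 3 ∧ n = 3 ∧ c = 34) ∨
  (m = 5 ∧ n = 1 ∧ c = 34) ∨ (c = 26 ∧ 834 ≤ 126 * n + 130 * m)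

theorem LimM.slp {m n : ℤ} (h : LimM m n) : ∃ c, Slp m n c := by
  obtain ⟨h1, h2, h3, h4, h5⟩ := h
  unfold Slp
  by_cases h6 : m = 3 ∧ n = 1
  · exact ⟨54, Or.inl ⟨h6.1, h6.2, rfl⟩⟩
  by_cases h7 : m = 1
  · exact ⟨43, Or.inr (Or.inl ⟨h7, h5 h7, rfl⟩)⟩
  by_cases h8 : m = 3 ∧ n = 3
  · exact ⟨34, Or.inr (Or.inr (Or.inl ⟨h8.1, h8.2, rfl⟩))⟩
  by_cases h9 : m = 5 ∧ n = 1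
  · exact ⟨34, Or.inr (Or.inr (Or.inr (Or.inl ⟨h9.1, h9.2, rfl⟩)))⟩
  refine ⟨26, Or.inr (Or.inr (Or.inr (Or.inr ⟨rfl, ?_⟩)))⟩
  omega

theorem Slp.thin {m n c nt q : ℤ} (h : Slp m n c) (ht : LimH m n nt) (hq : Pq m n nt q) :
    300 + c * nt ≤ 560 + q := by
  obtain ⟨t1, t2, t3, t4, t5, t6⟩ := ht
  rcases h with ⟨rfl, rfl, rfl⟩ | ⟨rfl, rfl, rfl⟩ | ⟨rfl, rfl, rfl⟩ | ⟨rfl, rfl, rfl⟩ |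
    ⟨rfl, _⟩ <;>
  rcases hq with ⟨rfl, hq⟩ | ⟨rfl, hq⟩ | ⟨rfl, hq⟩ | ⟨rfl, hq⟩ | ⟨rfl, hq⟩ | ⟨rfl, hq⟩ |
    ⟨rfl, hq⟩ | ⟨rfl, hq, hq'⟩ | ⟨h13, hq⟩ <;> omega

/-- many triples. -/
theorem Slp.many {m n c q S W f y : ℤ} (h : Slp m n c) (hq : 3 ≤ q)
    (hs : 2 * S + 2 * W + 2 * f = 3 * n + 5 * m) (hn : 1 ≤ n) (hW : 1 ≤ W) (hf : 0 ≤ f)
    (hy : y + 1 ≤ W) :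
    1440 - 24 * n - 149 * W - 144 * f ≤ 300 * q + c * S - 24 * y := by
  rcases h with ⟨rfl, rfl, rfl⟩ | ⟨rfl, rfl, rfl⟩ | ⟨rfl, rfl, rfl⟩ | ⟨rfl, rfl, rfl⟩ |
    ⟨rfl, h3⟩ <;> linarith

end Pool.Agent.Hyp6.Rt
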