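import Pool.Agent.Hyp6.L3S4
import Pool.Agent.Hyp6.L3Rd3

/-!
# HYP6 L3RD4: the contact points of a private class

A class of the minimal partition which is seen by one triple only has at least three outer contact
points, or exactly two with three hits each, or (few leaves outside) two with five hits, or it is a
point with two singles.
-/

set_option autoImplicit false

namespace Pool.Agent.Hyp6

open Finset Pool.Agent.Hyp5 Rt

universe u v

variable {V : Type v} [DecidableEq V] {ι : Type u} [Fintype ι]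
  {B : ι → Finset V}

namespace Frm

variable {Q U : Finset V} {T R : Finset ι} {F : Finset (Finset V)}
  {P : Finset (Finset (Finset V))}

/-- the single traces of a leaf: those used by points of `U`, and two for every double single. -/
theorem two_ee_hit (h : Frm B Q T U F) {L : Finset V} (hL : L ∈ F) :
    2 * ee B Q L + hit B U L ≤ nt B L 1 := by
  classical
  set S1 := (ins B Q L).filter (fun i => (B i ∩ Q).card = 1) with hS1
  set S2 := (tch B L).filter (fun i => (B i ∩ U).Nonempty) with hS2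
  have h1 : 2 * ee B Q L ≤ S1.card := two_ee_le Q L
  have hD2 : ∀ {i : ι} {v : V}, v ∈ B i → v ∈ L → (B i ∩ Dp B Q T).card ≤ 2 :=
    fun hv hv' => h.two_leaf hL hv hv'
  have h2 : hit B U L ≤ S2.card := by
    unfold hit
    rw [hS2, card_filter]
    refine sum_le_sum fun i hi => ?_
    obtain ⟨v, hv⟩ := cost_mem_tch.1 hi
    obtain ⟨hvi, hvL⟩ := mem_inter.1 hv
    have h3 := hD2 hvi hvL
    have h4 : insert v (B i ∩ U) ⊆ B i ∩ Dp B Q T := by
      refine insert_subset (mem_inter.2 ⟨hvi, h.FD hL hvL⟩) fun w hw => ?_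
      exact mem_inter.2 ⟨(mem_inter.1 hw).1, h.UD (mem_inter.1 hw).2⟩
    have h5 := card_le_card h4
    rw [card_insert_of_notMem (fun hc => disjoint_left.1 (h.ge.FU L hL) hvL
      (mem_inter.1 hc).2)] at h5
    split_ifs with h6
    · omega
    · rw [not_nonempty_iff_eq_empty] at h6
      rw [h6, card_empty]
  have h3 : S1 ⊆ trs B L 1 := by
    intro i hi
    obtain ⟨hi1, hi2⟩ := mem_filter.1 hi
    obtain ⟨⟨v, hv⟩, hsub⟩ := mem_ins.1 hi1
    have hvL := hsub hv
    rw [mem_trs]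
    refine le_antisymm ?_ (card_pos.2 ⟨v, mem_inter.2 ⟨(mem_inter.1 hv).1, hvL⟩⟩)
    rw [← hi2]
    exact card_le_card (inter_subset_inter_left (h.FQ hL))
  have h4 : S2 ⊆ trs B L 1 := by
    intro i hi
    obtain ⟨hi1, u, hu⟩ := mem_filter.1 hi
    obtain ⟨v, hv⟩ := cost_mem_tch.1 hi1
    obtain ⟨hui, huU⟩ := mem_inter.1 hu
    obtain ⟨hvi, hvL⟩ := mem_inter.1 hv
    have h5 := hD2 hvi hvL
    have h6 : insert u (B i ∩ L) ⊆ B i ∩ Dp B Q T := by
      refine insert_subset (mem_inter.2 ⟨hui, h.UD huU⟩) fun w hw => ?_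
      exact mem_inter.2 ⟨(mem_inter.1 hw).1, h.FD hL (mem_inter.1 hw).2⟩
    have h7 := card_le_card h6
    rw [card_insert_of_notMem (fun hc => disjoint_left.1 (h.ge.FU L hL)
      (mem_inter.1 hc).2 huU)] at h7
    have h8 := card_pos.2 ⟨v, hv⟩
    rw [mem_trs]
    omega
  have h5 : Disjoint S1 S2 := by
    rw [disjoint_left]
    intro i hi hi'
    obtain ⟨hi1, hi2⟩ := mem_filter.1 hi
    obtain ⟨_, u, hu⟩ := mem_filter.1 hi'
    obtain ⟨_, hsub⟩ := mem_ins.1 hi1
    obtain ⟨hui, huU⟩ := mem_inter.1 hu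
    have huQ : u ∈ Q := DQ (h.UD huU)
    exact disjoint_left.1 (h.ge.FU L hL) (hsub (mem_inter.2 ⟨hui, huQ⟩)) huU
  have h6 := card_le_card (union_subset h3 h4)
  rw [card_union_of_disjoint h5] at h6
  unfold nt
  omega

variable [DecidableEq ι]

/-- a point which sees a class has a hit on it. -/
theorem uC_ge (h : Frm B Q T U F) {u : V} (hu : u ∈ U) {C : Finset (Finset V)}
    (hC : C ∈ Sp.met P (slf B F u)) : 1 ≤ uC B u C := by
  obtain ⟨_, hd⟩ := Sp.mem_met.1 hC
  rw [not_disjoint_iff] at hd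
  obtain ⟨L, hL, hLC⟩ := hd
  obtain ⟨hLF, y, hy, hne, i, hpi, hyi⟩ := mem_slf.1 hL
  have h1 : 1 ≤ uh B u L := by
    unfold uh hit
    refine le_trans (card_pos.2 ⟨u, mem_inter.2 ⟨hpi, mem_singleton_self u⟩⟩)
      (single_le_sum (f := fun i => (B i ∩ ({u} : Finset V)).card) (fun i _ => Nat.zero_le _)
        (cost_mem_tch.2 ⟨y, mem_inter.2 ⟨hyi, hy⟩⟩))
  have h2 : uh B u L ≤ uC B u C :=
    single_le_sum (f := fun L => uh B u L) (fun _ _ => Nat.zero_le _) hLC
  omega

/-- a crossing point has two hits outside of a class. -/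
theorem cross_out (h : Frm B Q T U F)
    (hP : Sp.MinP F F U (slf B F) R (slj B Q F) P) {C : Finset (Finset V)} (hC : C ∈ P) {u : V}
    (hu : u ∈ Sp.Ux U (slf B F) P) : 2 ≤ ∑ L ∈ F \ C, hit B {u} L := by
  have huU : u ∈ U := (mem_filter.1 hu).1
  have h1 := hP.surplus (h.gdT (R := R)) (singleton_subset_iff.2 hu) (singleton_nonempty u)
  rw [card_singleton, singleton_biUnion] at h1
  have hCF : C ⊆ F := (hP.ptn.vc C hC).sub
  have h2 := sum_leaves hP (fun L => hit B {u} L)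
  have h3 := sum_sdiff (f := fun L => hit B {u} L) hCF
  have h4 := add_sum_erase P (fun C => ∑ L ∈ C, hit B {u} L) hC
  have h5 : ∑ C' ∈ (Sp.met P (slf B F u)).erase C, 1 ≤
      ∑ C' ∈ P.erase C, ∑ L ∈ C', hit B {u} L := by
    have h6 : (Sp.met P (slf B F u)).erase C ⊆ P.erase C :=
      erase_subset_erase _ Sp.met_subset
    refine (sum_le_sum fun C' hC' => ?_).trans (sum_le_sum_of_subset h6)
    exact h.uC_ge huU (mem_erase.1 hC').2
  rw [sum_const, smul_eq_mul, mul_one] at h5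
  have h6 := pred_card_le_card_erase (s := Sp.met P (slf B F u)) (a := C)
  omega

/-- the outer contact points of a class are the crossing points which see it. -/
theorem outer (h : Frm B Q T U F)
    (hP : Sp.MinP F F U (slf B F) R (slj B Q F) P) {C : Finset (Finset V)} (hC : C ∈ P) {u : V} :
    u ∈ uA B U F C \ Sp.Uin U (slf B F) C ↔
      u ∈ Sp.Ux U (slf B F) P ∧ C ∈ Sp.met P (slf B F u) := by
  have _ := h.reg3
  rw [mem_sdiff, mem_uA]
  constructor
  · rintro ⟨⟨hu, L, hL, hLC⟩, hn⟩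
    refine ⟨mem_filter.2 ⟨hu, fun C' hC' hs => ?_⟩,
      Sp.mem_met.2 ⟨hC, not_disjoint_iff.2 ⟨L, hL, hLC⟩⟩⟩
    by_cases he : C' = C
    · exact hn (mem_filter.2 ⟨hu, he ▸ hs⟩)
    · exact disjoint_left.1 (hP.ptn.dj C' hC' C hC he) (hs hL) hLC
  · rintro ⟨hu, hm⟩
    obtain ⟨hu1, hu2⟩ := mem_filter.1 hu
    obtain ⟨L, hL, hLC⟩ := not_disjoint_iff.1 (Sp.mem_met.1 hm).2
    exact ⟨⟨hu1, L, hL, hLC⟩, fun hn => hu2 C hC (mem_filter.1 hn).2⟩

end Frm

variable [DecidableEq ι] {Q U : Finset V} {T R : Finset ι} {F : Finset (Finset V)}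
  {P : Finset (Finset (Finset V))}

/-- **the contact points of a private class**. -/
theorem ViolR.contacts (hv : ViolR B Q) (h : Frm B Q T U F)
    (hP : Sp.MinP F F U (slf B F) R (slj B Q F) P) {C : Finset (Finset V)} (hC : C ∈ P)
    {j0 : ι} (hj0 : j0 ∈ T) (hp : ∀ j ∈ T, j ≠ j0 → Disjoint (slj B Q F j) C)
    (hO : (Sp.Uin U (slf B F) C).card + 1 ≤ C.card) :
    (∀ u ∈ uA B U F C \ Sp.Uin U (slf B F) C, uC B u C ≤ 3) ∧
    2 ≤ (uA B U F C \ Sp.Uin U (slf B F) C).card ∧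
    (3 ≤ (uA B U F C \ Sp.Uin U (slf B F) C).card ∨
     (C.card = 1 ∧ ∀ L ∈ C, dv B Q L ≤ 0) ∨
     (∀ u ∈ uA B U F C \ Sp.Uin U (slf B F) C, uC B u C = 3) ∨
     ((F \ C).card ≤ 2 ∧ (uA B U F C \ Sp.Uin U (slf B F) C).card = 2 ∧
       5 ≤ ∑ u ∈ uA B U F C \ Sp.Uin U (slf B F) C, uC B u C)) := by
  classical
  have hCF : C ⊆ F := (hP.ptn.vc C hC).sub
  have hne : C.Nonempty := (hP.ptn.vc C hC).ne
  have hr := hv.reg
  set N := uA B U F C \ Sp.Uin U (slf B F) C with hN
  have hNU : ∀ u ∈ N, u ∈ U := fun u hu => (mem_uA.1 (mem_sdiff.1 hu).1).1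
  have hcr : ∀ u ∈ N, 2 ≤ ∑ L ∈ F \ C, hit B {u} L := fun u hu =>
    h.cross_out hP hC ((h.outer hP hC).1 hu).1
  have hle : ∀ u ∈ N, uC B u C ≤ 3 := by
    intro u hu
    have h1 := h.five_u hr (hNU u hu)
    have h2 := sum_sdiff (f := fun L => hit B {u} L) hCF
    have h3 := hcr u hu
    unfold uC uh at *
    omega
  have h2N : 2 ≤ N.card := by
    have h1 := hv.priv h hj0 hCF hne hp
    have h2 := le_card_sdiff (Sp.Uin U (slf B F) C) (uA B U F C)
    rw [← hN] at h2
    omega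
  refine ⟨hle, h2N, ?_⟩
  by_cases h3N : 3 ≤ N.card
  · exact Or.inl h3N
  right
  have hN2 : N.card = 2 := by omega
  obtain ⟨p, q, hpq, hNe⟩ := card_eq_two.1 hN2
  have hpN : p ∈ N := by rw [hNe]; exact mem_insert_self _ _
  have hqN : q ∈ N := by rw [hNe]; exact mem_insert_of_mem (mem_singleton_self q)
  by_cases hex : C.card = 1 ∧ ∀ L ∈ C, dv B Q L ≤ 0
  · exact Or.inl hex
  right
  have hX : (uA B U F C).card ≤ C.card + 1 := by
    have h4 : (uA B U F C).card ≤ N.card + (Sp.Uin U (slf B F) C).card := by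
      refine (card_le_card ?_).trans (card_union_le _ _)
      intro v hv'
      by_cases hvO : v ∈ Sp.Uin U (slf B F) C
      · exact mem_union_right _ hvO
      · exact mem_union_left _ (mem_sdiff.2 ⟨hv', hvO⟩)
    omega
  have key : ∀ p q, p ∈ N → q ∈ N → p ≠ q → uC B p C ≤ 2 →
      (uC B p C + uC B q C ≤ 4 ∨ 3 ≤ (F \ C).card) → False := by
    intro p q hp' hq' hpq' h2p h34
    have h5 := h.sep1_cross hr hv.ih hv.sv1 hj0 (hv.clo (h.full hj0)) (hv.other h j0) hCF hne hp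
      hX (mem_sdiff.1 hp').1 (mem_sdiff.1 hq').1 hpq' (hcr p hp') (hcr q hq') h2p h34
    have h6 : -(C.card : ℤ) ≤ ∑ L ∈ C, dv B Q L := by
      have h7 : ∑ L ∈ C, (-1 : ℤ) ≤ ∑ L ∈ C, dv B Q L :=
        sum_le_sum fun L hL => hv.leaf_dv h (hCF hL)
      rw [sum_const, nsmul_eq_mul] at h7
      linarith
    have h7 := hv.neg
    have h8 := card_pos.2 hne
    have h9 : C.card = 1 := by omega
    refine hex ⟨h9, fun L hL => ?_⟩
    obtain ⟨L', hL'⟩ := card_eq_one.1 h9
    rw [hL'] at hL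
    rw [mem_singleton.1 hL]
    rw [h9, hL', sum_singleton] at h5
    push_cast at h5
    linarith
  have hsum : ∑ u ∈ N, uC B u C = uC B p C + uC B q C := by rw [hNe, sum_pair hpq]
  by_cases h33 : uC B p C = 3 ∧ uC B q C = 3
  · left
    intro u hu
    rw [hNe, mem_insert, mem_singleton] at hu
    rcases hu with rfl | rfl
    · exact h33.1
    · exact h33.2
  right
  have hp3 := hle p hpN
  have hq3 := hle q hqN
  rcases Nat.lt_or_ge (uC B p C) 3 with h4 | h4
  · have h5 : ¬ (uC B p C + uC B q C ≤ 4 ∨ 3 ≤ (F \ C).card) := fun h6 =>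
      key p q hpN hqN hpq (by omega) h6
    refine ⟨by omega, hN2, by omega⟩
  · have h5 : ¬ (uC B q C + uC B p C ≤ 4 ∨ 3 ≤ (F \ C).card) := fun h6 =>
      key q p hqN hpN hpq.symm (by omega) h6
    refine ⟨by omega, hN2, by omega⟩

end Pool.Agent.Hyp6
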