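import Pool.Agent.Hyp6.L3Rd5
import Pool.Agent.Hyp6.L3Fo
import Pool.Agent.Hyp6.L3Rd4

/-!
# HYP6 L3RD6: the lines with own points, reduction to the classes

`fcl`: the claims of the triples with own points. At a full class everything is given back. At a class
with no other triple with four hits the triple pays what the class needs, if the others pay `149` for
every hit. Elsewhere it pays `sF h - 115 o`, `h` its hits and `o` its own units. `Stg.LF_of`: the
inequality of the line from bounds for the classes.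
-/

set_option autoImplicit false

namespace Pool.Agent.Hyp6

open Finset Pool.Agent.Hyp5 Rt

universe u v

variable {V : Type v} [DecidableEq V] {ι : Type u} [Fintype ι] [DecidableEq ι]
  {B : ι → Finset V}

/-- the units of the own points of a line triple at a class. -/
noncomputable abbrev owj (B : ι → Finset V) (Q U : Finset V) (F : Finset (Finset V))
    (P : Finset (Finset (Finset V))) (a : V → Finset (Finset V) → ℕ) (j : ι)
    (C : Finset (Finset V)) : ℕ :=
  Sp.owl U (slf B F) P (lj B Q U F P) a j C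

/-- the number of line triples with at least four hits at a class. -/
noncomputable def bC (B : ι → Finset V) (Q : Finset V) (T : Finset ι) (U : Finset V)
    (F : Finset (Finset V)) (P : Finset (Finset (Finset V))) (C : Finset (Finset V)) : ℕ :=
  ((aC B Q T U F P C).filter (fun i => 4 ≤ jC B Q i C)).card

/-- the class has all the units it can use. -/
def Ful (B : ι → Finset V) (Q : Finset V) (T : Finset ι) (U : Finset V)
    (F : Finset (Finset V)) (P : Finset (Finset (Finset V))) (a : V → Finset (Finset V) → ℕ)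
    (C : Finset (Finset V)) : Prop :=
  Sp.ld (Sp.Ux U (slf B F) P) a C = 5 + lsC B Q T U F C

/-- what a class needs from the triple `j` if the others pay `149` for every hit. -/
noncomputable def xcl (v : ℤ) (B : ι → Finset V) (Q : Finset V) (T : Finset ι) (U : Finset V)
    (F : Finset (Finset V)) (P : Finset (Finset (Finset V))) (a : V → Finset (Finset V) → ℕ)
    (t : ι → ℤ) (j : ι) (C : Finset (Finset V)) : ℤ :=
  ndC v B Q T U F P a t C - ∑ i ∈ (aC B Q T U F P C).erase j,
    (149 * (jC B Q i C : ℤ) - 560 - 3 * (owj B Q U F P a i C : ℤ))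

/-- the payment for `h` hits, with `115` for every own unit. -/
def sF (h : ℕ) : ℤ :=
  if h = 0 then 464 else if h = 1 then 464 else if h = 2 then 503 else if h = 8 then 647 else
    (955 + 43 * (h : ℤ)) / 2

/-- the excess of a shared class. -/
def exS (h : ℕ) : ℤ := 2 * sF h - 955 - 43 * (h : ℤ)

theorem exS_0 : exS 0 = -27 := by decide

theorem exS_1 : exS 1 = -70 := by decide

theorem exS_2 : exS 2 = -35 := by decide

theorem exS_8 : exS 8 = -5 := by decide

theorem exS_ge (h : ℕ) : -70 ≤ exS h := by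
  unfold exS sF
  split_ifs <;> omega

theorem exS_le (h : ℕ) : exS h ≤ 0 := by
  unfold exS sF
  split_ifs <;> omega

/-- the payments at a class with at most three hits. -/
theorem sF_149 (h : ℕ) (h3 : h ≤ 3) : 149 * (h : ℤ) + 56 ≤ sF h := by
  unfold sF
  split_ifs <;> omega

/-- **the claims of the line triples with own points**. -/
noncomputable def fcl (v : ℤ) (B : ι → Finset V) (Q : Finset V) (T : Finset ι) (U : Finset V)
    (F : Finset (Finset V)) (P : Finset (Finset (Finset V))) (a : V → Finset (Finset V) → ℕ)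
    (t : ι → ℤ) (j : ι) (C : Finset (Finset V)) : ℤ :=
  open Classical in
  if Ful B Q T U F P a C then
    -(560 - 112 * (owj B Q U F P a j C : ℤ)) - 280 * max ((owj B Q U F P a j C : ℤ) - 5) 0
  else if 4 ≤ jC B Q j C ∧ bC B Q T U F P C = 1 then xcl v B Q T U F P a t j C
  else sF (jC B Q j C) - 560 - 3 * (owj B Q U F P a j C : ℤ)

section

variable {v : ℤ} {Q U : Finset V} {T : Finset ι} {F : Finset (Finset V)}
  {P : Finset (Finset (Finset V))} {a : V → Finset (Finset V) → ℕ} {t : ι → ℤ} {j : ι}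
  {C : Finset (Finset V)}

theorem fcl_full (h : Ful B Q T U F P a C) : fcl v B Q T U F P a t j C =
    -(560 - 112 * (owj B Q U F P a j C : ℤ)) - 280 * max ((owj B Q U F P a j C : ℤ) - 5) 0 := by
  classical
  unfold fcl
  rw [if_pos h]

theorem fcl_exact (h : ¬ Ful B Q T U F P a C) (h4 : 4 ≤ jC B Q j C)
    (h1 : bC B Q T U F P C = 1) : fcl v B Q T U F P a t j C = xcl v B Q T U F P a t j C := by
  classical
  unfold fcl
  rw [if_neg h, if_pos ⟨h4, h1⟩]

theorem fcl_shared (h : ¬ Ful B Q T U F P a C)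
    (h1 : ¬ (4 ≤ jC B Q j C ∧ bC B Q T U F P C = 1)) : fcl v B Q T U F P a t j C =
      sF (jC B Q j C) - 560 - 3 * (owj B Q U F P a j C : ℤ) := by
  classical
  unfold fcl
  rw [if_neg h, if_neg h1]

/-- the need of a private class. -/
theorem xcl_one (hj : j ∈ aC B Q T U F P C) (h1 : (aC B Q T U F P C).card = 1) :
    xcl v B Q T U F P a t j C = ndC v B Q T U F P a t C := by
  obtain ⟨i, hi⟩ := card_eq_one.1 h1
  have h2 : j = i := by
    rw [hi] at hj
    exact mem_singleton.1 hj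
  unfold xcl
  rw [hi, h2]
  simp

end

namespace Stg

variable {Q U : Finset V} {T : Finset ι} {F : Finset (Finset V)}
  {P : Finset (Finset (Finset V))} {a : V → Finset (Finset V) → ℕ}

/-- every class of a line with own points is seen by an own point. -/
theorem seen (s : Stg B Q T U F P a) {j : ι} (hj : j ∈ tl B Q T U F P)
    (ho : 1 ≤ (oj B Q U F P j).card) {C : Finset (Finset V)} (hC : C ∈ lj B Q U F P j) :
    ∃ u ∈ oj B Q U F P j, C ∈ Sp.met P (slf B F u) := by
  have hg := s.frm.gdT (R := Rg B Q T U F)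
  have hne : (oj B Q U F P j).Nonempty := card_pos.1 (by omega)
  have h1 := s.part.surplus hg (B := oj B Q U F P j) Sp.UU_sub hne
  have h2 : (oj B Q U F P j).biUnion (fun u => Sp.met P (slf B F u)) ⊆ lj B Q U F P j :=
    biUnion_subset.2 fun u hu => Sp.UU_met hg s.part Sp.lx_sub hu
  have h3 : (lj B Q U F P j).card = (oj B Q U F P j).card + 2 := s.lnf.card j hj
  have h4 := eq_of_subset_of_card_le h2 (by omega)
  rw [← h4, mem_biUnion] at hC
  exact hC

/-- the own units of a class of the line which is not full. -/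
theorem own_one (s : Stg B Q T U F P a) {j : ι} (hj : j ∈ tl B Q T U F P)
    (ho : 1 ≤ (oj B Q U F P j).card) {C : Finset (Finset V)} (hC : C ∈ lj B Q U F P j)
    (hn : ¬ Ful B Q T U F P a C) : 1 ≤ owj B Q U F P a j C := by
  obtain ⟨u, hu, hm⟩ := s.seen hj ho hC
  have hux : u ∈ Sp.Ux U (slf B F) P := Sp.UU_sub hu
  have h1 := s.frm.uC_ge (mem_filter.1 hux).1 hm
  have h2 : uC B u C ≤ a u C := by
    rcases s.bal C (Sp.lx_sub hC) with h3 | h3
    · exact absurd h3 hn
    · exact h3 u hux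
  have h3 : a u C ≤ owj B Q U F P a j C :=
    single_le_sum (f := fun u => a u C) (fun _ _ => Nat.zero_le _) hu
  omega

/-- the own units of the line. -/
theorem own_sum (s : Stg B Q T U F P a) {j : ι} (hj : j ∈ tl B Q T U F P) :
    ∑ C ∈ lj B Q U F P j, (owj B Q U F P a j C : ℤ) = 5 * ((oj B Q U F P j).card : ℤ) -
      ∑ u ∈ oj B Q U F P j, (uo B Q T U F u : ℤ) := by
  have h1 := Sp.owl_units (s.frm.gdT (R := Rg B Q T U F)) s.part s.supp
    (d := fun u => 5 - uo B Q T U F u) s.sum5 s.lnf hj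
  have h2 : ((∑ u ∈ oj B Q U F P j, (5 - uo B Q T U F u) : ℕ) : ℤ) =
      5 * ((oj B Q U F P j).card : ℤ) - ∑ u ∈ oj B Q U F P j, (uo B Q T U F u : ℤ) := by
    have h3 : ((∑ u ∈ oj B Q U F P j, (5 - uo B Q T U F u) : ℕ) : ℤ) =
        ∑ u ∈ oj B Q U F P j, (5 - (uo B Q T U F u : ℤ)) := by
      push_cast
      refine sum_congr rfl fun u hu => ?_
      have := s.frm.uo_le s.viol.reg (mem_filter.1 (Sp.UU_sub hu)).1
      omega
    rw [h3, sum_sub_distrib, sum_const, nsmul_eq_mul]
    ring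
  rw [← h2, ← h1]
  push_cast
  rfl

/-- the own units are at most all units. -/
theorem own_le (s : Stg B Q T U F P a) {C : Finset (Finset V)} :
    ∑ i ∈ aC B Q T U F P C, owj B Q U F P a i C ≤ Sp.ld (Sp.Ux U (slf B F) P) a C :=
  Sp.owl_le s.lnf C

/-- the demand of a class. -/
theorem cls (s : Stg B Q T U F P a) {C : Finset (Finset V)} (hC : C ∈ P) :
    Cls (dmC B Q T (Rg B Q T U F) U F C) C.card (Sp.Uin U (slf B F) C).card
      (Sp.Kin (Rg B Q T U F) (slj B Q F) C).card (lsC B Q T U F C)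
      (Frm.xC B Q T (Rg B Q T U F) U F C)
      (∑ j ∈ Sp.at2 U (slf B F) (Rg B Q T U F) (slj B Q F) P C, (jC B Q j C : ℤ))
      (gC B U F P C) (∑ j ∈ Trs B Q T (Rg B Q T U F) U F P, (jC B Q j C : ℤ))
      (∑ L ∈ C, fs B Q L) (∑ L ∈ C, (nt B L 1 : ℤ)) (∑ L ∈ C, (ee B Q L : ℤ)) := by
  refine s.frm.cls s.viol.reg Rg_sub (fun _ hj => (mem_Rg.1 hj).2.1) (fun L hL => ?_) s.part hC
  have h1 := s.one hL
  have := h1.p0
  have := h1.e0
  linarith

/-- the claims at the third point of a triple are at most four. -/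
theorem ncl_le (s : Stg B Q T U F P a) {j : ι} (hj : j ∈ T) {x y z : V}
    (hT : B j ∩ Q = {x, y, z}) (hn : NoCl B Q (Kf B Q T U F P) j x y) :
    ncl B Q T U F P j ≤ 4 := by
  have h3 : (B j ∩ Q).card = 3 := s.frm.full hj
  have hz : z ∈ B j ∩ Q := by rw [hT]; simp
  have hjn : j ∉ (Kf B Q T U F P).filter (fun k0 => (B k0 ∩ (B j ∩ Q)).card = 1) := by
    intro h
    have h1 := (mem_filter.1 h).2
    rw [inter_eq_right.2 (inter_subset_left (s₁ := B j) (s₂ := Q))] at h1
    omega
  have hsub : insert j ((Kf B Q T U F P).filter (fun k0 => (B k0 ∩ (B j ∩ Q)).card = 1)) ⊆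
      univ.filter (fun k => z ∈ B k) := by
    intro k hk
    rw [mem_insert] at hk
    rcases hk with rfl | hk
    · exact mem_filter.2 ⟨mem_univ _, (mem_inter.1 hz).1⟩
    · obtain ⟨h1, h2⟩ := mem_filter.1 hk
      obtain ⟨h4, h5⟩ := hn k h1 h2
      obtain ⟨p, hp⟩ := card_pos.1 (show 0 < (B k ∩ (B j ∩ Q)).card by omega)
      obtain ⟨hp1, hp2⟩ := mem_inter.1 hp
      rw [hT, mem_insert, mem_insert, mem_singleton] at hp2
      rcases hp2 with rfl | rfl | rfl
      · exact absurd hp1 h4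
      · exact absurd hp1 h5
      · exact mem_filter.2 ⟨mem_univ _, hp1⟩
  have h5 := card_le_card hsub
  rw [card_insert_of_notMem hjn, s.viol.reg z (mem_inter.1 hz).2] at h5
  change ((Kf B Q T U F P).filter (fun k0 => (B k0 ∩ (B j ∩ Q)).card = 1)).card ≤ 4
  omega

/-- the payments of the remaining triples are not negative. -/
theorem Xv_nonneg (s : Stg B Q T U F P a) {v : ℤ} (hv : 0 ≤ v) {j : ι}
    (hj : j ∈ Trs B Q T (Rg B Q T U F) U F P) {C : Finset (Finset V)} (hC : C ∈ P) :
    0 ≤ Xv v B Q T U F P j C := by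
  have hjT := (s.frm.types_trs s.part hj).1
  have h0 : (0 : ℤ) ≤ (jC B Q j C : ℤ) := by positivity
  rcases s.frm.Xv_cases s.viol.reg s.part v hj with ⟨_, h2⟩ | ⟨_, _, h3⟩ |
    ⟨_, _, x, y, z, D, C0, hB, hC0, hD, h4, h3⟩ | ⟨_, _, _, _, h3⟩
  · rw [h2 C]
    split_ifs <;> linarith
  · rw [h3 C]
    split_ifs <;> linarith
  · rw [h3 C hC]
    have hn4 : (ncl B Q T U F P j : ℤ) ≤ 4 := by exact_mod_cast s.ncl_le hjT hB.eq hB.nocl
    have hr : 0 ≤ rB B Q T U F P x y z D ∧ rB B Q T U F P x y z D ≤ 168 :=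
      ⟨by linarith [Frm.rB_ge (B := B) Q T U F P x y z D], Frm.rB_le Q T U F P x y z D⟩
    have hz : (0 : ℤ) ≤ (uC B z C : ℤ) := by positivity
    have h5 := mul_nonneg hr.1 hz
    have hx : x ∈ B j ∩ Q := by rw [hB.eq]; simp
    have hy : y ∈ B j ∩ Q := by rw [hB.eq]; simp
    have h4' : ∀ p ∈ B j ∩ Q, uC B p C0 ≤ 4 := by
      intro p hp
      have h6 := s.frm.four_t s.viol.reg hjT hp
      have h7 : uC B p C0 ≤ ∑ L ∈ F, uh B p L := by
        unfold uC
        exact sum_le_sum_of_subset (s.part.ptn.vc C0 hC0).sub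
      omega
    have h6 := h4' x hx
    have h7 := h4' y hy
    have h8 : (16 + rB B Q T U F P x y z D) * ((∑ C' ∈ P, uC B z C' : ℕ) : ℤ) ≤ 184 * 4 := by
      have h9 : ((∑ C' ∈ P, uC B z C' : ℕ) : ℤ) ≤ 4 := by exact_mod_cast h4
      have h10 : (0 : ℤ) ≤ ((∑ C' ∈ P, uC B z C' : ℕ) : ℤ) := by positivity
      nlinarith [hr.1, hr.2]
    split_ifs
    · have h9 : (uC B x C0 : ℤ) ≤ 4 := by exact_mod_cast h6
      have h10 : (uC B y C0 : ℤ) ≤ 4 := by exact_mod_cast h7
      linarith
    · linarith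
  · rw [h3 C]
    refine mul_nonneg ?_ h0
    unfold vD vC
    split_ifs <;> linarith

/-- **a full class seen by one line triple needs nothing**. -/
theorem full_pay (s : Stg B Q T U F P a) {v : ℤ} (hv : 0 ≤ v) {C : Finset (Finset V)}
    (hC : C ∈ P) (hf : Ful B Q T U F P a C) {t : ι → ℤ}
    (hK : -408 * ((Sp.Kin (Rg B Q T U F) (slj B Q F) C).card : ℤ) ≤
      tK B Q (Rg B Q T U F) F t C + 16 * (Frm.xC B Q T (Rg B Q T U F) U F C : ℤ)) {j : ι}
    (hj : j ∈ aC B Q T U F P C) (h1 : (aC B Q T U F P C).card = 1) :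
    ndC v B Q T U F P a t C + 560 - 112 * (owj B Q U F P a j C : ℤ) ≤
      -280 * (lsC B Q T U F C : ℤ) := by
  obtain ⟨i, hi⟩ := card_eq_one.1 h1
  have h2 : j = i := by
    rw [hi] at hj
    exact mem_singleton.1 hj
  have hX : 0 ≤ ∑ j ∈ Trs B Q T (Rg B Q T U F) U F P, Xv v B Q T U F P j C :=
    sum_nonneg fun j hj => s.Xv_nonneg hv hj hC
  have hc := s.cls hC
  obtain ⟨c1, c2, c3, c4, c5, c6, c7, c8, c9, c10, c11, c12, c13, c14, c15, c16, c17⟩ := hc
  unfold ndC msC mis
  rw [show Sp.atl (tl B Q T U F P) (lj B Q U F P) C = {i} from hi, sum_singleton, ← h2,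
    show Sp.ld (Sp.Ux U (slf B F) P) a C = 5 + lsC B Q T U F C from hf]
  push_cast
  linarith

/-- **the lines with own points, from the classes**: `N` the classes of the line which are not full,
`ex` bounds of the excesses. -/
theorem LF_of (s : Stg B Q T U F P a) {v : ℤ} (hv : 0 ≤ v) {t : ι → ℤ}
    (hK : ∀ C ∈ P, -408 * ((Sp.Kin (Rg B Q T U F) (slj B Q F) C).card : ℤ) ≤
      tK B Q (Rg B Q T U F) F t C + 16 * (Frm.xC B Q T (Rg B Q T U F) U F C : ℤ))
    {j : ι} (hj : j ∈ tl B Q T U F P)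
    (ho : 1 ≤ (oj B Q U F P j).card) {N : Finset (Finset (Finset V))}
    (hN : ∀ C, C ∈ N ↔ C ∈ lj B Q U F P j ∧ ¬ Ful B Q T U F P a C)
    {ex : Finset (Finset V) → ℤ} {z : ℤ}
    (hex : ∀ C ∈ N, ((aC B Q T U F P C).card = 1 ∨
        (4 ≤ jC B Q j C ∧ bC B Q T U F P C = 1)) →
      2 * xcl v B Q T U F P a t j C + 165 + 6 * (owj B Q U F P a j C : ℤ) -
        43 * (jC B Q j C : ℤ) ≤ ex C)
    (hes : ∀ C ∈ N, (aC B Q T U F P C).card ≠ 1 →
      ¬ (4 ≤ jC B Q j C ∧ bC B Q T U F P C = 1) → exS (jC B Q j C) ≤ ex C)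
    (hz : (N.card ≤ 2 ∧ z = 265) ∨ (3 ≤ N.card ∧ z = 195 * ((N.card : ℤ) - 3) +
      330 * max (5 * ((N.card : ℤ) - 2) - ∑ u ∈ oj B Q U F P j, (uo B Q T U F u : ℤ) -
        ∑ C ∈ N, (owj B Q U F P a j C : ℤ)) 0))
    (hx : ∑ C ∈ N, ex C ≤ 25 + 75 * uj B Q F j +
      43 * ∑ C ∈ lj B Q U F P j \ N, (jC B Q j C : ℤ) +
      330 * ∑ u ∈ oj B Q U F P j, (uo B Q T U F u : ℤ) + z + 2 * t j) :
    ∑ C ∈ (lj B Q U F P j).filter (fun C => (aC B Q T U F P C).card = 1),
        ndC v B Q T U F P a t C +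
      ∑ C ∈ (lj B Q U F P j).filter (fun C => 2 ≤ (aC B Q T U F P C).card),
        fcl v B Q T U F P a t j C ≤
      8 * sT B Q T U F 15 j + t j - 1120 +
        168 * ∑ u ∈ oj B Q U F P j, (uo B Q T U F u : ℤ) := by
  classical
  obtain ⟨l, hl⟩ : ∃ l, l = lj B Q U F P j := ⟨_, rfl⟩
  have hlP : ∀ C ∈ lj B Q U F P j, C ∈ P := fun C hC => Sp.lx_sub hC
  have hat : ∀ C ∈ lj B Q U F P j, j ∈ aC B Q T U F P C := fun C hC => Sp.mem_atl.2 ⟨hj, hC⟩
  have hNl : N ⊆ lj B Q U F P j := fun C hC => ((hN C).1 hC).1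
  -- the claims and needs of all classes
  obtain ⟨cl, hcl⟩ : ∃ cl : Finset (Finset V) → ℤ, cl = fun C =>
      if (aC B Q T U F P C).card = 1 then ndC v B Q T U F P a t C
      else fcl v B Q T U F P a t j C := ⟨_, rfl⟩
  obtain ⟨pay, hpay⟩ : ∃ pay : Finset (Finset V) → ℤ, pay = fun C =>
      cl C + 560 - 112 * (owj B Q U F P a j C : ℤ) := ⟨_, rfl⟩
  have h1 : ∑ C ∈ (lj B Q U F P j).filter (fun C => (aC B Q T U F P C).card = 1),
        ndC v B Q T U F P a t C +
      ∑ C ∈ (lj B Q U F P j).filter (fun C => 2 ≤ (aC B Q T U F P C).card),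
        fcl v B Q T U F P a t j C = ∑ C ∈ lj B Q U F P j, cl C := by
    rw [hcl, sum_ite]
    congr 1
    refine sum_congr ?_ fun _ _ => rfl
    ext C
    rw [mem_filter, mem_filter]
    constructor
    · rintro ⟨h4, h5⟩
      exact ⟨h4, by omega⟩
    · rintro ⟨h4, h5⟩
      have h6 : 0 < (aC B Q T U F P C).card := card_pos.2 ⟨j, hat C h4⟩
      exact ⟨h4, by omega⟩
  have hcard : (lj B Q U F P j).card = (oj B Q U F P j).card + 2 := s.lnf.card j hj
  have hown := s.own_sum hj
  have hw0 : 0 ≤ ∑ u ∈ oj B Q U F P j, (uo B Q T U F u : ℤ) :=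
    sum_nonneg fun _ _ => by positivity
  have hline := s.jC_line hj
  have p : Lw (lj B Q U F P j) N (oj B Q U F P j).card (fun C => jC B Q j C)
      (fun C => owj B Q U F P a j C) pay ex (∑ u ∈ oj B Q U F P j, (uo B Q T U F u : ℤ)) := by
    refine ⟨hcard, hNl, hw0, hown, fun C hC => ?_, fun C hC => ?_, fun C hC => ?_⟩
    · obtain ⟨hC1, hC2⟩ := mem_sdiff.1 hC
      have hf : Ful B Q T U F P a C := by
        by_contra h
        exact hC2 ((hN C).2 ⟨hC1, h⟩)
      have hole : (owj B Q U F P a j C : ℤ) ≤ 5 + lsC B Q T U F C := by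
        have h2 := s.own_le (C := C)
        have h3 : owj B Q U F P a j C ≤ ∑ i ∈ aC B Q T U F P C, owj B Q U F P a i C :=
          single_le_sum (f := fun i => owj B Q U F P a i C) (fun _ _ => Nat.zero_le _)
            (hat C hC1)
        have h4 : Sp.ld (Sp.Ux U (slf B F) P) a C = 5 + lsC B Q T U F C := hf
        exact_mod_cast (h3.trans h2).trans h4.le
      rw [hpay]
      dsimp only
      rw [hcl]
      dsimp only
      split_ifs with h5
      · have h6 := s.full_pay hv (hlP C hC1) hf (hK C (hlP C hC1)) (hat C hC1) h5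
        have h7 : (0 : ℤ) ≤ (lsC B Q T U F C : ℤ) := by positivity
        constructor <;> linarith
      · rw [fcl_full hf]
        rcases le_or_gt ((owj B Q U F P a j C : ℤ) - 5) 0 with h6 | h6
        · rw [max_eq_right h6]
          constructor <;> linarith
        · rw [max_eq_left h6.le]
          constructor <;> linarith
    · exact s.own_one hj ho (hNl hC) ((hN C).1 hC).2
    · have hnf := ((hN C).1 hC).2
      rw [hpay]
      dsimp only
      rw [hcl]
      dsimp only
      split_ifs with h5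
      · have h6 := hex C hC (Or.inl h5)
        rw [xcl_one (hat C (hNl hC)) h5] at h6
        linarith
      · by_cases h7 : 4 ≤ jC B Q j C ∧ bC B Q T U F P C = 1
        · rw [fcl_exact hnf h7.1 h7.2]
          have h6 := hex C hC (Or.inr h7)
          linarith
        · rw [fcl_shared hnf h7]
          have h6 := hes C hC h5 h7
          unfold exS at h6
          linarith
  have h2 := p.main5 (t := t j) hz (by rw [hline]; linarith)
  rw [hline] at h2
  have h3 : ∑ C ∈ lj B Q U F P j, pay C = ∑ C ∈ lj B Q U F P j, cl C +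
      560 * ((lj B Q U F P j).card : ℤ) -
        112 * ∑ C ∈ lj B Q U F P j, (owj B Q U F P a j C : ℤ) := by
    rw [hpay, sum_sub_distrib, sum_add_distrib, sum_const, nsmul_eq_mul, ← mul_sum]
    ring
  have h4 := s.sT_uj hj
  rw [h1]
  rw [h3, hown, hcard] at h2
  push_cast at h2
  linarith

end Stg

end Pool.Agent.Hyp6
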