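import Pool.Agent.Hyp6.L3Fr
import Pool.Agent.Hyp6.L3Ne
import Pool.Agent.Hyp6.L3Td
import Pool.Agent.Hyp6.L3Rd6
import Pool.Agent.Hyp6.L3Nm0

/-!
# HYP6 L3Nm: the nodes with lines with own points

A single leaf which is its own class, with at least two line triples, one of them on a line with own
points, without inside triples and centres: `Stg.mix_node`, for the prices `payS` (lines with two
classes) and the claims `fcl` (lines with own points).
-/

set_option autoImplicit false

namespace Pool.Agent.Hyp6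

open Finset Pool.Agent.Hyp5 Rt

universe u v

variable {V : Type v} [DecidableEq V] {ι : Type u} [Fintype ι] [DecidableEq ι]
  {B : ι → Finset V}

omit [DecidableEq ι] in
/-- a point has a hit on every leaf it sees. -/
theorem uh_pos_slf {F : Finset (Finset V)} {L : Finset V} {p : V} (hL : L ∈ slf B F p) :
    0 < uh B p L := by
  obtain ⟨hLF, y, hy, hne, i, hpi, hyi⟩ := mem_slf.1 hL
  unfold uh hit
  exact lt_of_lt_of_le (card_pos.2 ⟨p, mem_inter.2 ⟨hpi, mem_singleton_self p⟩⟩)
    (single_le_sum (f := fun i => (B i ∩ {p}).card) (fun i _ => Nat.zero_le _)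
      (cost_mem_tch.2 ⟨y, mem_inter.2 ⟨hyi, hy⟩⟩))

theorem sF_F1 (h : ℕ) : F1 (h : ℤ) (sF h) := by
  unfold F1 sF
  split_ifs <;> omega

theorem sF_F2 (h : ℕ) : F2 (h : ℤ) (sF h) := by
  unfold F2 sF
  split_ifs <;> omega

theorem sF_F3 (h : ℕ) {y : ℕ} (_hy : 1 ≤ y) : F3 (h : ℤ) (sF h) := by
  unfold F3 sF
  split_ifs <;> omega

/-- unused own units. -/
theorem sF_y (h : ℕ) {y o : ℕ} (_hy : 1 ≤ y) (ho : y ≤ o) :
    sF h ≤ sF h + 70 * ((o : ℤ) - y) := by
  omega

theorem sF_300 (h : ℕ) {y : ℕ} (hy : 1 ≤ y) : 300 - 24 * ((y : ℤ) - 1) ≤ sF h := by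
  unfold sF
  split_ifs <;> omega

/-- the slope of the prices of the triples with own points. -/
theorem slp_fat {m n c : ℤ} {h y : ℕ} (hc : Slp m n c) (ht : LimH m n (h : ℤ)) (hy : 1 ≤ y)
    (hn : (y : ℤ) ≤ n) : 300 + c * (h : ℤ) - 24 * ((y : ℤ) - 1) ≤ sF h := by
  obtain ⟨t1, t2, t3, t4, t5, t6⟩ := ht
  have h11 : h ≤ 11 := by exact_mod_cast t2
  unfold sF
  rcases hc with ⟨rfl, rfl, rfl⟩ | ⟨rfl, rfl, rfl⟩ | ⟨rfl, rfl, rfl⟩ | ⟨rfl, rfl, rfl⟩ |
    ⟨rfl, _⟩
  · have t7 := t3 rfl rfl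
    clear t3 t4 t5 t6
    split_ifs <;> omega
  · have t7 := t4 rfl
    clear t3 t4 t5 t6
    split_ifs <;> omega
  · have t7 := t5 rfl rfl
    clear t3 t4 t5 t6
    split_ifs <;> omega
  · have t7 := t6 rfl rfl
    clear t3 t4 t5 t6
    split_ifs <;> omega
  · clear t3 t4 t5 t6
    split_ifs <;> omega

namespace Stg

variable {Q U : Finset V} {T : Finset ι} {F : Finset (Finset V)}
  {P : Finset (Finset (Finset V))} {a : V → Finset (Finset V) → ℕ} {L : Finset V} {j : ι}

/-- the own hits of a line at a single leaf. -/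
theorem own_y (s : Stg B Q T U F P a)
    (hj : j ∈ aC B Q T U F P {L}) (h3 : 3 ≤ (lj B Q U F P j).card) :
    1 ≤ Sp.owl U (slf B F) P (lj B Q U F P) (uC B) j {L} := by
  obtain ⟨hjt, hC⟩ := Sp.mem_atl.1 hj
  have h1 : (lj B Q U F P j).card = (oj B Q U F P j).card + 2 := s.lnf.card j hjt
  obtain ⟨u, hu, hm⟩ := s.seen hjt (by omega) hC
  have hL1 : L ∈ slf B F u := by
    obtain ⟨_, hd⟩ := Sp.mem_met.1 hm
    rw [disjoint_singleton_right, not_not] at hd
    exact hd
  have h9 := uh_pos_slf hL1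
  have h5 : uC B u {L} = uh B u L := by
    unfold uC
    rw [sum_singleton]
  unfold Sp.owl Sp.ld
  refine le_trans ?_ (single_le_sum (f := fun u => uC B u {L}) (fun _ _ => Nat.zero_le _)
    (show u ∈ Sp.UU U (slf B F) P (lj B Q U F P j) from hu))
  show 1 ≤ uC B u {L}
  omega

/-- the own hits of all lines at a single leaf. -/
theorem own_hits (s : Stg B Q T U F P a) (hL : {L} ∈ P) :
    ∑ k ∈ aC B Q T U F P {L}, Sp.owl U (slf B F) P (lj B Q U F P) (uC B) k {L} ≤
      hit B U L := by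
  have h1 := Sp.owl_le s.lnf (a := uC B) {L}
  have h2 := s.gC_one hL
  have h3 : Sp.ld (Sp.Ux U (slf B F) P) (uC B) {L} = gC B U F P {L} := rfl
  rw [h3] at h1
  have h4 : gC B U F P {L} = hit B U L := by exact_mod_cast h2
  rw [h4] at h1
  exact h1

/-- the own units and the own hits at a single leaf which is not full. -/
theorem own_diff (s : Stg B Q T U F P a) (hL : {L} ∈ P) (hf : ¬ Ful B Q T U F P a {L}) :
    (∀ k ∈ aC B Q T U F P {L}, Sp.owl U (slf B F) P (lj B Q U F P) (uC B) k {L} ≤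
      owj B Q U F P a k {L}) ∧
    ∑ k ∈ aC B Q T U F P {L}, ((owj B Q U F P a k {L} : ℤ) -
      (Sp.owl U (slf B F) P (lj B Q U F P) (uC B) k {L} : ℤ)) + hit B U L ≤
      (Sp.ld (Sp.Ux U (slf B F) P) a {L} : ℤ) := by
  have hb : ∀ u ∈ Sp.Ux U (slf B F) P, uC B u {L} ≤ a u {L} := by
    rcases s.bal {L} hL with h | h
    · exact absurd h hf
    · exact h
  have hk : ∀ k, Sp.owl U (slf B F) P (lj B Q U F P) (uC B) k {L} ≤
      owj B Q U F P a k {L} := by
    intro k
    show ∑ u ∈ Sp.UU U (slf B F) P (lj B Q U F P k), uC B u {L} ≤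
      ∑ u ∈ Sp.UU U (slf B F) P (lj B Q U F P k), a u {L}
    exact sum_le_sum fun u hu => hb u (Sp.UU_sub hu)
  refine ⟨fun k _ => hk k, ?_⟩
  have h1 := Sp.owl_le s.lnf (a := fun u C => a u C - uC B u C) {L}
  have h2 : ∀ k, Sp.owl U (slf B F) P (lj B Q U F P) (fun u C => a u C - uC B u C) k {L} =
      owj B Q U F P a k {L} - Sp.owl U (slf B F) P (lj B Q U F P) (uC B) k {L} := by
    intro k
    show ∑ u ∈ Sp.UU U (slf B F) P (lj B Q U F P k), (a u {L} - uC B u {L}) =
      ∑ u ∈ Sp.UU U (slf B F) P (lj B Q U F P k), a u {L} -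
        ∑ u ∈ Sp.UU U (slf B F) P (lj B Q U F P k), uC B u {L}
    rw [sum_tsub_distrib _ fun u hu => hb u (Sp.UU_sub hu)]
  have h3 : Sp.ld (Sp.Ux U (slf B F) P) (fun u C => a u C - uC B u C) {L} =
      Sp.ld (Sp.Ux U (slf B F) P) a {L} - gC B U F P {L} := by
    show ∑ u ∈ Sp.Ux U (slf B F) P, (a u {L} - uC B u {L}) =
      ∑ u ∈ Sp.Ux U (slf B F) P, a u {L} - ∑ u ∈ Sp.Ux U (slf B F) P, uC B u {L}
    rw [sum_tsub_distrib _ hb]
  have h4 : gC B U F P {L} ≤ Sp.ld (Sp.Ux U (slf B F) P) a {L} := by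
    show ∑ u ∈ Sp.Ux U (slf B F) P, uC B u {L} ≤ ∑ u ∈ Sp.Ux U (slf B F) P, a u {L}
    exact sum_le_sum hb
  rw [h3] at h1
  have h5 : ∑ k ∈ aC B Q T U F P {L}, ((owj B Q U F P a k {L} : ℤ) -
      (Sp.owl U (slf B F) P (lj B Q U F P) (uC B) k {L} : ℤ)) =
      ((∑ k ∈ Sp.atl (Sp.T2 U (slf B F) (Rg B Q T U F) (slj B Q F) P)
        (Sp.lx U (slf B F) (slj B Q F) P) {L},
        Sp.owl U (slf B F) P (lj B Q U F P) (fun u C => a u C - uC B u C) k {L} : ℕ) : ℤ) := by
    push_cast
    refine sum_congr rfl fun k _ => ?_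
    rw [h2, Nat.cast_sub (hk k)]
  have h6 := s.gC_one hL
  rw [h5]
  have h7 : ((∑ k ∈ Sp.atl (Sp.T2 U (slf B F) (Rg B Q T U F) (slj B Q F) P)
        (Sp.lx U (slf B F) (slj B Q F) P) {L},
        Sp.owl U (slf B F) P (lj B Q U F P) (fun u C => a u C - uC B u C) k {L} : ℕ) : ℤ) ≤
      ((Sp.ld (Sp.Ux U (slf B F) P) a {L} - gC B U F P {L} : ℕ) : ℤ) := by
    exact_mod_cast h1
  rw [Nat.cast_sub h4, h6] at h7
  linarith

/-- a line triple has at most eleven hits on a leaf which is its own class. -/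
theorem jh_eleven (s : Stg B Q T U F P a) (hL : {L} ∈ P) (hj : j ∈ tl B Q T U F P) :
    jh B Q j L ≤ 11 := by
  obtain ⟨p, hp, hnp⟩ := s.sees_out hL hj
  obtain ⟨M, hM, hML⟩ := not_subset.1 hnp
  rw [mem_singleton] at hML
  have hjT := (s.tl_sub hj).1
  have h1 := s.frm.jh_pos' hjT (mem_biUnion.2 ⟨p, hp, hM⟩ : M ∈ slj B Q F j)
  have hMF : M ∈ F := (mem_slf.1 hM).1
  have hLF := s.leafF hL
  have h2 := s.jh_le hjT
  have h3 : ∑ K ∈ ({L, M} : Finset (Finset V)), jh B Q j K ≤ ∑ K ∈ F, jh B Q j K :=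
    sum_le_sum_of_subset (insert_subset hLF (singleton_subset_iff.2 hMF))
  rw [sum_pair (Ne.symm hML)] at h3
  omega

/-- the kind of a leaf. -/
theorem limM (s : Stg B Q T U F P a) (hL : L ∈ F) : LimM L.card (nt B L 1) := by
  obtain ⟨pp, slot, m1, mo, n1, no, pt, f0, e0, g0, gn, hh0, p0⟩ := s.one hL
  exact ⟨m1, mo, n1, no, pt⟩

/-- the hits of a line triple at a single leaf. -/
theorem limH (s : Stg B Q T U F P a) (hL : {L} ∈ P) (hj : j ∈ aC B Q T U F P {L})
    (hpt : L.card = 1 → ∀ k ∈ aC B Q T U F P {L}, jh B Q k L ≤ 6)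
    (h31 : L.card = 3 → nt B L 1 = 1 → ∀ k ∈ aC B Q T U F P {L}, jh B Q k L ≤ 4)
    (he : ee B Q L = 0) : LimH L.card (nt B L 1) (jh B Q j L) := by
  have hLF := s.leafF hL
  obtain ⟨pp, slot, m1, mo, n1, no, pt, f0, e0, g0, gn, hh0, p0⟩ := s.one hLF
  have hjt := (Sp.mem_atl.1 hj).1
  have hj11 := s.jh_eleven hL hjt
  have hdv := s.dv_W hLF
  rw [he] at hdv
  push_cast at hdv
  refine ⟨by positivity, by exact_mod_cast hj11,
    fun h3 h1 => ?_, fun h1 => ?_, fun h3 h1 => ?_, fun h5 h1 => ?_⟩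
  · exact_mod_cast h31 (by exact_mod_cast h3) (by exact_mod_cast h1) j hj
  · exact_mod_cast hpt (by exact_mod_cast h1) j hj
  · have h4 : (dv B Q L + 1).toNat = 4 := by
      have h5 : dv B Q L + 1 = 4 := by linarith
      rw [h5]
      rfl
    have h6 : L.card = 3 := by exact_mod_cast h3
    exact_mod_cast (s.le7_three hL hjt he h6 h4).2
  · have h4 : (dv B Q L + 1).toNat = 6 := by
      have h5 : dv B Q L + 1 = 6 := by linarith
      rw [h5]
      rfl
    have h6 : L.card = 5 := by exact_mod_cast h5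
    exact_mod_cast s.le8_five hL hjt he h6 h4

/-- **what a single leaf needs**, without inside triples and centres. -/
theorem ms_le (s : Stg B Q T U F P a) (hL : {L} ∈ P)
    (hK : KC B Q T U F {L} = ∅) (hB : Bs B Q T U F P L = ∅) :
    msC 149 B Q T U F P a {L} ≤
      ∑ j ∈ aC B Q T U F P {L}, (-560 + 112 * (owj B Q U F P a j {L} : ℤ)) +
      (1440 - 24 * (nt B L 1 : ℤ) -
        149 * ∑ j ∈ Trs B Q T (Rg B Q T U F) U F P, (jh B Q j L : ℤ) -
        144 * (fs B Q L : ℤ) + 24 * (hit B U L : ℤ) -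
        288 * (Sp.ld (Sp.Ux U (slf B F) P) a {L} : ℤ) + 240 * (ee B Q L : ℤ)) := by
  have h1 := s.ms_one 149 hL
  have h2 := s.sum_jh hL
  have hK' : Sp.Kin (Rg B Q T U F) (slj B Q F) {L} = ∅ := hK
  rw [hK', sum_empty, add_zero] at h1
  rw [hK', sum_empty, add_zero] at h2
  obtain ⟨pp, slot, m1, mo, n1, no, pt, f0, e0, g0, gn, hh0, p0⟩ := s.one (s.leafF hL)
  have h3 : ∑ j ∈ Trs B Q T (Rg B Q T U F) U F P,
      (144 * (jh B Q j L : ℤ) - Xv 149 B Q T U F P j {L}) ≤
      ∑ j ∈ Trs B Q T (Rg B Q T U F) U F P, (-5 * (jh B Q j L : ℤ)) :=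
    sum_le_sum fun j hj => s.nB_le hL hB hj
  rw [← mul_sum] at h3
  have h4 : ∑ j ∈ aC B Q T U F P {L}, (144 * (jh B Q j L : ℤ) - 560 +
      112 * (Sp.owl U (slf B F) P (lj B Q U F P) a j {L} : ℤ)) =
      144 * ∑ j ∈ aC B Q T U F P {L}, (jh B Q j L : ℤ) +
      ∑ j ∈ aC B Q T U F P {L}, (-560 + 112 * (owj B Q U F P a j {L} : ℤ)) := by
    rw [mul_sum, ← sum_add_distrib]
    refine sum_congr rfl fun j _ => ?_
    show _ = 144 * (jh B Q j L : ℤ) +
      (-560 + 112 * (Sp.owl U (slf B F) P (lj B Q U F P) a j {L} : ℤ))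
    ring
  rw [h4] at h1
  linarith

/-- a line triple on a line with two classes has a hit at a single leaf. -/
theorem jh_thin (s : Stg B Q T U F P a) (hj : j ∈ aC B Q T U F P {L})
    (h2 : (lj B Q U F P j).card = 2) : 1 ≤ jh B Q j L := by
  obtain ⟨hjt, hC⟩ := Sp.mem_atl.1 hj
  obtain ⟨D, hD⟩ := card_eq_one.1 (by rw [card_erase_of_mem hC, h2] :
    ((lj B Q U F P j).erase {L}).card = 1)
  have hl : lj B Q U F P j = {{L}, D} := by rw [← insert_erase hC, hD]
  have hCD : ({L} : Finset (Finset V)) ≠ D := by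
    have : D ∈ (lj B Q U F P j).erase {L} := by rw [hD]; exact mem_singleton_self D
    exact (mem_erase.1 this).1.symm
  have h6 := (s.jC_two hjt hCD hl).1
  rwa [s.jC_one] at h6

/-- **the nodes with lines with own points**. -/
theorem mix_node (s : Stg B Q T U F P a) (hF : Few B Q T F) (hL : {L} ∈ P)
    (hK : KC B Q T U F {L} = ∅) (hB : Bs B Q T U F P L = ∅)
    (h2 : 2 ≤ (aC B Q T U F P {L}).card)
    (hfat : ∃ j ∈ aC B Q T U F P {L}, 3 ≤ (lj B Q U F P j).card)
    (hpt : L.card = 1 → ∀ k ∈ aC B Q T U F P {L}, jh B Q k L ≤ 6)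
    (h31 : L.card = 3 → nt B L 1 = 1 → ∀ k ∈ aC B Q T U F P {L}, jh B Q k L ≤ 4)
    (h43 : L.card = 3 → nt B L 1 = 1 → ∀ i ∈ aC B Q T U F P {L},
      ∀ k ∈ aC B Q T U F P {L}, i ≠ k → jh B Q i L = 4 → jh B Q k L ≤ 2)
    (h73 : L.card = 3 → nt B L 1 = 3 → ∀ i ∈ aC B Q T U F P {L},
      ∀ k ∈ aC B Q T U F P {L}, i ≠ k → jh B Q i L = 7 → jh B Q k L ≠ 3)
    (t : ι → ℤ) (pay : ι → ℤ)
    (hthin : ∀ k ∈ aC B Q T U F P {L}, (lj B Q U F P k).card = 2 →
      payS L.card (nt B L 1) (jh B Q k L) ≤ pay k)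
    (hfatp : ∀ k ∈ aC B Q T U F P {L}, 3 ≤ (lj B Q U F P k).card →
      pay k = fcl 149 B Q T U F P a t k {L}) :
    msC 149 B Q T U F P a {L} ≤ ∑ k ∈ aC B Q T U F P {L}, pay k := by
  have hLF := s.leafF hL
  obtain ⟨j0, hj0, hc0⟩ := hfat
  have hM := s.ms_le hL hK hB
  have hsj := s.sum_jh hL
  have hK' : Sp.Kin (Rg B Q T U F) (slj B Q F) {L} = ∅ := hK
  rw [hK', sum_empty, add_zero] at hsj
  have hnd : ndC 149 B Q T U F P a t {L} = msC 149 B Q T U F P a {L} := s.ndC_eq hK
  have hol : (∑ k ∈ aC B Q T U F P {L}, (owj B Q U F P a k {L} : ℤ)) ≤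
      (Sp.ld (Sp.Ux U (slf B F) P) a {L} : ℤ) := by
    exact_mod_cast s.own_le (C := {L})
  have hbC : bC B Q T U F P {L} =
      ((aC B Q T U F P {L}).filter (fun i => 4 ≤ jC B Q i {L})).card := rfl
  have hxd : ∀ k, xcl 149 B Q T U F P a t k {L} = ndC 149 B Q T U F P a t {L} -
      ∑ i ∈ (aC B Q T U F P {L}).erase k,
        (149 * (jC B Q i {L} : ℤ) - 560 - 3 * (owj B Q U F P a i {L} : ℤ)) := fun k => rfl
  have hlm := s.limM hLF
  have hlh : ee B Q L = 0 → ∀ k ∈ aC B Q T U F P {L},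
      LimH L.card (nt B L 1) (jh B Q k L) := fun he k hk => s.limH hL hk hpt h31 he
  have hjt : ∀ k ∈ aC B Q T U F P {L}, k ∈ tl B Q T U F P := fun k hk => (Sp.mem_atl.1 hk).1
  have hth : ∀ k ∈ aC B Q T U F P {L}, (lj B Q U F P k).card = 2 → 1 ≤ jh B Q k L :=
    fun k hk => s.jh_thin hk
  set A := aC B Q T U F P {L} with hA
  have hor : ∀ k ∈ A, (lj B Q U F P k).card = 2 ∨ 3 ≤ (lj B Q U F P k).card := fun k hk =>
    (s.two_or (hjt k hk)).imp (fun h => h.1) (fun h => h.1)
  obtain ⟨pp, slot, m1, mo, n1, no, pt, f0, e0, g0, gn, hh0, p0⟩ := s.one hLF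
  rw [hsj] at slot
  have hw0 : (0 : ℤ) ≤ ∑ j ∈ Trs B Q T (Rg B Q T U F) U F P, (jh B Q j L : ℤ) :=
    sum_nonneg fun i _ => Int.natCast_nonneg _
  have hf0 : (0 : ℤ) ≤ (fs B Q L : ℤ) := by linarith
  have hle := s.ld_one hL
  have hls : lsC B Q T U F {L} = 0 := by
    unfold lsC
    rw [s.uin_one, sum_empty]
  by_cases hful : Ful B Q T U F P a {L}
  · -- a full leaf
    have h5 : Sp.ld (Sp.Ux U (slf B F) P) a {L} = 5 := by
      unfold Ful at hful
      omega
    have h6 : ∑ k ∈ A, (-560 + 112 * (owj B Q U F P a k {L} : ℤ)) ≤ ∑ k ∈ A, pay k := by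
      refine sum_le_sum fun k hk => ?_
      have h7 : (owj B Q U F P a k {L} : ℤ) ≤ 5 := by
        have h8 := single_le_sum (f := fun k => (owj B Q U F P a k {L} : ℤ))
          (fun i _ => Int.natCast_nonneg _) hk
        have h9 : (Sp.ld (Sp.Ux U (slf B F) P) a {L} : ℤ) = 5 := by exact_mod_cast h5
        linarith
      rcases hor k hk with h8 | h8
      · have h9 := payS_ge L.card (nt B L 1) (jh B Q k L)
        have h10 := hthin k hk h8
        have h11 : owj B Q U F P a k {L} = 0 := by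
          rcases s.two_or (hjt k hk) with h12 | h12
          · show Sp.ld (Sp.UU U (slf B F) P (lj B Q U F P k)) a {L} = 0
            have h13 : Sp.UU U (slf B F) P (lj B Q U F P k) = ∅ := h12.2
            rw [h13]
            unfold Sp.ld
            rw [sum_empty]
          · omega
        rw [h11]
        push_cast
        linarith
      · rw [hfatp k hk h8, fcl_full hful, max_eq_right (by linarith)]
        linarith
    have h9 : (Sp.ld (Sp.Ux U (slf B F) P) a {L} : ℤ) = 5 := by exact_mod_cast h5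
    rw [h9] at hM
    linarith
  · -- not full
    have h5 : Sp.ld (Sp.Ux U (slf B F) P) a {L} ≠ 5 := by
      intro h6
      refine hful ?_
      unfold Ful
      omega
    have hgl : (hit B U L : ℤ) ≤ (Sp.ld (Sp.Ux U (slf B F) P) a {L} : ℤ) := by
      rcases hle.1 with h6 | h6
      · exact absurd h6 h5
      · exact h6
    by_cases hex : ∃ k ∈ A, 3 ≤ (lj B Q U F P k).card ∧ 4 ≤ jC B Q k {L} ∧
        bC B Q T U F P {L} = 1
    · -- the only triple with many hits has own points
      obtain ⟨k, hk, hk3, hk4, hk1⟩ := hex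
      have h6 : ∀ i ∈ A.erase k, jC B Q i {L} ≤ 3 := by
        intro i hi
        by_contra hcon
        obtain ⟨hne, hiA⟩ := mem_erase.1 hi
        rw [hbC] at hk1
        obtain ⟨z, hz⟩ := card_eq_one.1 hk1
        have h7 : k ∈ A.filter (fun i => 4 ≤ jC B Q i {L}) := mem_filter.2 ⟨hk, hk4⟩
        have h8 : i ∈ A.filter (fun i => 4 ≤ jC B Q i {L}) := mem_filter.2 ⟨hiA, by omega⟩
        rw [hz, mem_singleton] at h7 h8
        exact hne (h8.trans h7.symm)
      have h7 : ∑ i ∈ A.erase k,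
          (149 * (jC B Q i {L} : ℤ) - 560 - 3 * (owj B Q U F P a i {L} : ℤ)) ≤
          ∑ i ∈ A.erase k, pay i := by
        refine sum_le_sum fun i hi => ?_
        have h8 := h6 i hi
        have h9 : (0 : ℤ) ≤ (owj B Q U F P a i {L} : ℤ) := by positivity
        obtain ⟨hne, hiA⟩ := mem_erase.1 hi
        rcases hor i hiA with h10 | h10
        · have h11 := hthin i hiA h10
          rw [s.jC_one] at h8 ⊢
          have h12 : 149 * (jh B Q i L : ℤ) - 560 ≤
              payS L.card (nt B L 1) (jh B Q i L) := by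
            unfold payS
            split_ifs <;> omega
          linarith
        · rw [hfatp i hiA h10, fcl_shared hful (fun h => by omega)]
          have h11 := sF_149 (jC B Q i {L}) h8
          linarith
      have h8 := hxd k
      rw [← add_sum_erase A pay hk, hfatp k hk hk3, fcl_exact hful hk4 hk1]
      rw [hnd] at h8
      linarith
    · -- shared
      obtain ⟨hy1, hy2⟩ := s.own_diff hL hful
      have hy3 := s.own_hits hL
      rw [← hA] at hy1 hy2 hy3
      set y : ι → ℕ := fun k => Sp.owl U (slf B F) P (lj B Q U F P) (uC B) k {L} with hy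
      have hyf : ∀ k ∈ A, 3 ≤ (lj B Q U F P k).card → 1 ≤ y k := fun k hk h3 =>
        s.own_y hk h3
      have hy3' : ∑ k ∈ A, (y k : ℤ) ≤ (hit B U L : ℤ) := by exact_mod_cast hy3
      have hy1' : ∀ k ∈ A, (y k : ℤ) ≤ (owj B Q U F P a k {L} : ℤ) := fun k hk => by
        exact_mod_cast hy1 k hk
      have hfs : ∀ k ∈ A, 3 ≤ (lj B Q U F P k).card →
          pay k = sF (jh B Q k L) - 560 -
            3 * (owj B Q U F P a k {L} : ℤ) := by
        intro k hk h3
        rw [hfatp k hk h3, fcl_shared hful (fun h => hex ⟨k, hk, h3, h⟩), s.jC_one]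
      -- the values
      set v : ι → ℤ := fun k => pay k + 560 + 3 * (owj B Q U F P a k {L} : ℤ) +
        70 * ((owj B Q U F P a k {L} : ℤ) - (y k : ℤ)) with hv
      have hvt : ∀ k ∈ A, (lj B Q U F P k).card = 2 →
          payS L.card (nt B L 1) (jh B Q k L) ≤ v k - 560 := by
        intro k hk h3
        have h6 := hthin k hk h3
        have h9 : (0 : ℤ) ≤ (owj B Q U F P a k {L} : ℤ) := by positivity
        have h10 := hy1' k hk
        show _ ≤ pay k + 560 + 3 * (owj B Q U F P a k {L} : ℤ) +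
          70 * ((owj B Q U F P a k {L} : ℤ) - (y k : ℤ)) - 560
        linarith
      have hvf : ∀ k ∈ A, 3 ≤ (lj B Q U F P k).card → sF (jh B Q k L) ≤ v k := by
        intro k hk h3
        have h6 := sF_y (jh B Q k L) (hyf k hk h3) (hy1 k hk)
        have h7 := hfs k hk h3
        show _ ≤ pay k + 560 + 3 * (owj B Q U F P a k {L} : ℤ) +
          70 * ((owj B Q U F P a k {L} : ℤ) - (y k : ℤ))
        linarith
      have hsum : ∑ k ∈ A, v k = ∑ k ∈ A, pay k + 560 * (A.card : ℤ) +
          3 * ∑ k ∈ A, (owj B Q U F P a k {L} : ℤ) +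
          70 * (∑ k ∈ A, (owj B Q U F P a k {L} : ℤ) - ∑ k ∈ A, (y k : ℤ)) := by
        rw [hv, sum_add_distrib, sum_add_distrib, sum_add_distrib, sum_const, nsmul_eq_mul,
          ← mul_sum, ← mul_sum, sum_sub_distrib]
        ring
      have hsum2 : ∑ k ∈ A, (-560 + 112 * (owj B Q U F P a k {L} : ℤ)) =
          -560 * (A.card : ℤ) + 112 * ∑ k ∈ A, (owj B Q U F P a k {L} : ℤ) := by
        rw [sum_add_distrib, sum_const, nsmul_eq_mul, ← mul_sum]
        ring
      have hsum3 : ∑ k ∈ A, (owj B Q U F P a k {L} : ℤ) - ∑ k ∈ A, (y k : ℤ) +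
          (hit B U L : ℤ) ≤ (Sp.ld (Sp.Ux U (slf B F) P) a {L} : ℤ) := by
        rw [← sum_sub_distrib]
        exact hy2
      have hsum4 : ∑ k ∈ A, (y k : ℤ) ≤ ∑ k ∈ A, (owj B Q U F P a k {L} : ℤ) :=
        sum_le_sum hy1'
      set W : ℤ := ∑ j ∈ Trs B Q T (Rg B Q T U F) U F P, (jh B Q j L : ℤ) + hit B U L with hW
      have hyW : ∑ k ∈ A, (y k : ℤ) ≤ W := by linarith
      have hfin : 1440 - 24 * (nt B L 1 : ℤ) - 149 * W - 144 * (fs B Q L : ℤ) +
          240 * (ee B Q L : ℤ) ≤ ∑ k ∈ A, v k →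
          msC 149 B Q T U F P a {L} ≤ ∑ k ∈ A, pay k := by
        intro h6
        linarith
      refine hfin ?_
      have hq2 : (2 : ℤ) ≤ (A.card : ℤ) := by exact_mod_cast h2
      -- the own hits beyond the first of every line
      set z : ι → ℤ := fun k => if 3 ≤ (lj B Q U F P k).card then (y k : ℤ) - 1 else 0 with hz
      have hz1 : ∀ k ∈ A, z k ≤ (y k : ℤ) := by
        intro k _
        show (if 3 ≤ (lj B Q U F P k).card then (y k : ℤ) - 1 else 0) ≤ (y k : ℤ)
        split_ifs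
        · linarith
        · positivity
      have hz0 : z j0 = (y j0 : ℤ) - 1 := by
        show (if 3 ≤ (lj B Q U F P j0).card then (y j0 : ℤ) - 1 else 0) = _
        rw [if_pos hc0]
      have hzs : ∑ k ∈ A, z k + 1 ≤ W := by
        have h6 : ∑ k ∈ A.erase j0, z k ≤ ∑ k ∈ A.erase j0, (y k : ℤ) :=
          sum_le_sum fun k hk => hz1 k (mem_erase.1 hk).2
        have h7 := add_sum_erase A z hj0
        have h8 := add_sum_erase A (fun k => (y k : ℤ)) hj0
        rw [hz0] at h7
        linarith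
      have hW1 : 1 ≤ W := by
        have h6 := hyf j0 hj0 hc0
        have h7 := single_le_sum (f := fun k => (y k : ℤ)) (fun i _ => Int.natCast_nonneg _) hj0
        have h8 : (1 : ℤ) ≤ (y j0 : ℤ) := by exact_mod_cast h6
        linarith
      rcases Nat.eq_zero_or_pos (ee B Q L) with he | he
      swap
      · -- double singles
        have h6 : 11 * (ee B Q L : ℤ) ≤ 2 * fs B Q L := s.viol.ee_fs (s.frm.FQ hLF)
        have h7 : (7 : ℤ) ≤ (fs B Q L : ℤ) := by
          exact_mod_cast s.viol.ee_fs7 (s.frm.FQ hLF) he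
        have h8 : ∑ k ∈ A, (300 - 24 * z k) ≤ ∑ k ∈ A, v k := by
          refine sum_le_sum fun k hk => ?_
          show 300 - 24 * (if 3 ≤ (lj B Q U F P k).card then (y k : ℤ) - 1 else 0) ≤ _
          rcases hor k hk with h9 | h9
          · rw [if_neg (by omega)]
            have h10 := hvt k hk h9
            have h11 := payS_ge L.card (nt B L 1) (jh B Q k L)
            linarith
          · rw [if_pos h9]
            have h10 := hvf k hk h9
            have h11 := sF_300 (jh B Q k L) (hyf k hk h9)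
            linarith
        rw [sum_sub_distrib, sum_const, nsmul_eq_mul, ← mul_sum] at h8
        linarith
      rw [he] at f0 p0 ⊢
      push_cast at f0 p0 ⊢
      have hs2 : 2 * ∑ k ∈ A, (jh B Q k L : ℤ) + 2 * W + 2 * (fs B Q L : ℤ) =
          3 * (nt B L 1 : ℤ) + 5 * (L.card : ℤ) := by linarith
      have hp11 : 11 ≤ 2 * (nt B L 1 : ℤ) + 3 * (L.card : ℤ) := by linarith
      have hyn : ∀ k ∈ A, (y k : ℤ) ≤ (nt B L 1 : ℤ) := by
        intro k hk
        have h7 := single_le_sum (f := fun k => (y k : ℤ)) (fun i _ => Int.natCast_nonneg _) hk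
        have h8 : (y k : ℤ) ≤ ∑ k ∈ A, (y k : ℤ) := h7
        linarith
      rcases (by omega : 3 ≤ A.card ∨ A.card = 2) with h3 | h3
      · -- many triples
        obtain ⟨c, hc⟩ := hlm.slp
        have h6 : ∑ k ∈ A, (300 + c * (jh B Q k L : ℤ) - 24 * z k) ≤ ∑ k ∈ A, v k := by
          refine sum_le_sum fun k hk => ?_
          show 300 + c * (jh B Q k L : ℤ) -
            24 * (if 3 ≤ (lj B Q U F P k).card then (y k : ℤ) - 1 else 0) ≤ _
          rcases hor k hk with h7 | h7
          · rw [if_neg (by omega)]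
            have h8 := hc.thin (hlh he k hk) (payS_Pq (hth k hk h7) (hvt k hk h7))
            linarith
          · rw [if_pos h7]
            exact (slp_fat hc (hlh he k hk) (hyf k hk h7) (hyn k hk)).trans (hvf k hk h7)
        rw [sum_sub_distrib, sum_add_distrib, sum_const, nsmul_eq_mul, ← mul_sum,
          ← mul_sum] at h6
        have h7 := hc.many (q := (A.card : ℤ)) (S := ∑ k ∈ A, (jh B Q k L : ℤ)) (W := W)
          (f := (fs B Q L : ℤ)) (y := ∑ k ∈ A, z k) (by exact_mod_cast h3) hs2 n1 hW1 hf0 hzs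
        linarith
      · -- two triples
        obtain ⟨j1, hj1⟩ := card_eq_one.1 (by rw [card_erase_of_mem hj0, h3] :
          (A.erase j0).card = 1)
        have hj1A : j1 ∈ A ∧ j1 ≠ j0 := by
          have h6 : j1 ∈ A.erase j0 := by rw [hj1]; exact mem_singleton_self j1
          exact ⟨(mem_erase.1 h6).2, (mem_erase.1 h6).1⟩
        have hAe : A = {j0, j1} := by rw [← insert_erase hj0, hj1]
        have ht : ∑ k ∈ A, (jh B Q k L : ℤ) = (jh B Q j0 L : ℤ) + (jh B Q j1 L : ℤ) := by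
          rw [hAe, sum_pair hj1A.2.symm]
        have hv2 : ∑ k ∈ A, v k = v j0 + v j1 := by
          rw [hAe, sum_pair hj1A.2.symm]
        have hyy : ∑ k ∈ A, (y k : ℤ) = (y j0 : ℤ) + (y j1 : ℤ) := by
          rw [hAe, sum_pair hj1A.2.symm]
        obtain ⟨w2, hf2, hw2⟩ := s.few2 hF hLF (s.tl_sub (hjt j0 hj0)).1
          (s.tl_sub (hjt j1 hj1A.1)).1 hj1A.2.symm
        have hf2' : Few2 (Pp B L - 1) ((jh B Q j0 L : ℤ) + jh B Q j1 L) W := by
          have e1 : w2 = W := by
            rw [hw2, hsj, ht, hW]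
            ring
          have e2 : ∑ j ∈ T, (jh B Q j L : ℤ) + hit B U L - w2 =
              (jh B Q j0 L : ℤ) + jh B Q j1 L := by
            rw [hw2]
            ring
          rw [e2, e1, he] at hf2
          simpa using hf2
        -- the shared triples
        have hx : ∀ i k, i ∈ A → k ∈ A → A = {i, k} → i ≠ k → 3 ≤ (lj B Q U F P i).card →
            (4 : ℤ) ≤ (jh B Q i L : ℤ) → (4 : ℤ) ≤ (jh B Q k L : ℤ) := by
          intro i k hi hk hAe hne h3 h4
          by_contra hcon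
          refine hex ⟨i, hi, h3, ?_, ?_⟩
          · rw [s.jC_one]
            exact_mod_cast h4
          · rw [hbC, hAe, filter_insert, if_pos (by rw [s.jC_one]; exact_mod_cast h4),
              filter_singleton,
              if_neg (by rw [s.jC_one]; intro h5; exact hcon (by exact_mod_cast h5))]
            exact card_singleton i
        have hl0 := hlh he j0 hj0
        have hl1 := hlh he j1 hj1A.1
        have hv0 := hvf j0 hj0 hc0
        have hy0 := hyf j0 hj0 hc0
        rw [hv2]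
        rw [ht] at hs2
        rw [hyy] at hyW hy3'
        have hy1n : (0 : ℤ) ≤ (y j1 : ℤ) := Int.natCast_nonneg _
        have hx0 := hx j0 j1 hj0 hj1A.1 hAe hj1A.2.symm hc0
        have hp2 : Pp B L % 2 = 0 := by omega
        rcases hor j1 hj1A.1 with h9 | h9
        · -- one triple of each kind
          have h10 := payS_Pq (hth j1 hj1A.1 h9) (hvt j1 hj1A.1 h9)
          rcases (by omega : y j0 = 1 ∨ y j0 = 2 ∨ 3 ≤ y j0) with hyc | hyc | hyc
          · have hF0 := sF_F1 (jh B Q j0 L)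
            rcases (by omega : W = 1 ∨ 2 ≤ W) with hW2 | hW2
            · -- one hit from outside
              rcases (by omega : Pp B L = 0 ∨ Pp B L = 2 ∨ 4 ≤ Pp B L) with hp | hp | hp
              · have h6 := hf2'.neg (by linarith) (by linarith)
                have h7 := sF_300 (jh B Q j0 L) (y := 1) le_rfl
                have h8 := hvt j1 hj1A.1 h9
                have h11 := payS_ge L.card (nt B L 1) (jh B Q j1 L)
                push_cast at h7
                linarith
              · have h6 := hf2'.one (by linarith) (by linarith)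
                have hm : (L.card : ℤ) = 1 := by omega
                have hn : (nt B L 1 : ℤ) = 5 := by omega
                have hm6 := hl0.le6 hm
                have hm6' := hl1.le6 hm
                rw [hm, hn] at h10
                have h11 := tf_point (nf := (jh B Q j0 L : ℤ)) (nt := (jh B Q j1 L : ℤ))
                  hl0.h0 hm6 hm6' h6 hx0 h10 hF0
                rw [hm, hn] at hs2
                rw [hn]
                linarith
              · have h6 := hf2'.big (by linarith)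
                omega
            · have h11 := hlm.tf1 hp11 hl0 hl1
                (fun h h' h2 => by
                  exact_mod_cast h43 (by exact_mod_cast h) (by exact_mod_cast h') j1 hj1A.1 j0
                    hj0 hj1A.2 (by exact_mod_cast h2))
                (fun h h' h2 h3 => h73 (by exact_mod_cast h) (by exact_mod_cast h') j1
                  hj1A.1 j0 hj0 hj1A.2 (by exact_mod_cast h2) (by exact_mod_cast h3))
                (by linarith) hx0 h10 hF0
              linarith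
          · have hF0 := sF_F2 (jh B Q j0 L)
            have h8 : (y j0 : ℤ) = 2 := by exact_mod_cast hyc
            have hn3 : (3 : ℤ) ≤ (nt B L 1 : ℤ) := by
              have := hyn j0 hj0
              omega
            have h11 := hlm.tf2 hp11 hn3 hl0 hl1
              (fun h h' h2 h3 => h73 (by exact_mod_cast h) (by exact_mod_cast h') j1
                hj1A.1 j0 hj0 hj1A.2 (by exact_mod_cast h2) (by exact_mod_cast h3))
              (by linarith) hx0 h10 hF0
            linarith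
          · have hF0 := sF_F3 (jh B Q j0 L) (y := y j0) (by omega)
            have h8 : (3 : ℤ) ≤ (y j0 : ℤ) := by exact_mod_cast hyc
            have hn3 : (3 : ℤ) ≤ (nt B L 1 : ℤ) := by
              have := hyn j0 hj0
              omega
            have h11 := hlm.tf3 hp11 hn3 hl0 hl1 (by linarith) hx0 h10 hF0
            linarith
        · -- two triples with own points
          have hv1 := hvf j1 hj1A.1 h9
          have hy1c := hyf j1 hj1A.1 h9
          have hx1 := hx j1 j0 hj1A.1 hj0 (by rw [hAe, pair_comm]) hj1A.2 h9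
          have h8 : (1 : ℤ) ≤ (y j0 : ℤ) := by exact_mod_cast hy0
          have h8' : (1 : ℤ) ≤ (y j1 : ℤ) := by exact_mod_cast hy1c
          have hn3 : (3 : ℤ) ≤ (nt B L 1 : ℤ) := by omega
          rcases (by omega : (y j0 = 1 ∧ y j1 = 1) ∨ 3 ≤ y j0 + y j1) with hyc | hyc
          · have h11 := hlm.ff1 hn3 (by linarith) hl0.h0 hl1.h0 hx0 hx1
              (sF_F1 (jh B Q j1 L)) (sF_F1 (jh B Q j0 L))
            linarith
          · have h12 : (3 : ℤ) ≤ (y j0 : ℤ) + (y j1 : ℤ) := by exact_mod_cast hyc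
            have h11 := hlm.ff3 hn3 (by linarith) hl0.h0 hl1.h0 hx0 hx1
              (sF_F3 (jh B Q j1 L) hy1c) (sF_F3 (jh B Q j0 L) hy0)
            linarith

end Stg

end Pool.Agent.Hyp6
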