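import Pool.Agent.Hyp6.L3Defs

/-!
# HYP6 L3NON: a point which is not critical

If some point of `Q` can be deleted without lowering the cover number, the inequality for `Q` follows
from the components of the rest.
-/

set_option autoImplicit false

namespace Pool.Agent.Hyp6

open Finset Pool.Agent.Hyp5

universe u v

variable {V : Type v} [DecidableEq V] {ι : Type u} [Fintype ι] {B : ι → Finset V}

/-- all traces of an exceptional set have three points. -/
theorem KT.trace {C : Finset V} (hr : Reg B C) (h3 : Tr3 B C) (h : KT B C) {i : ι}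
    (hi : (B i ∩ C).Nonempty) : (B i ∩ C).card = 3 := by
  have h1 := cm_eq3 h3
  have h2 := inc_eq3 hr h3
  rw [h.1] at h2
  rw [h.2.1] at h1
  have h4 : nt B C 1 = 0 := by omega
  have h5 : nt B C 2 = 0 := by omega
  have h6 := h3 i
  have h7 := card_pos.2 hi
  by_contra hne
  rcases (by omega : (B i ∩ C).card = 1 ∨ (B i ∩ C).card = 2) with h8 | h8
  · have : i ∈ trs B C 1 := mem_trs.2 h8
    unfold nt at h4
    rw [card_eq_zero] at h4
    rw [h4] at this
    exact notMem_empty _ this
  · have : i ∈ trs B C 2 := mem_trs.2 h8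
    unfold nt at h5
    rw [card_eq_zero] at h5
    rw [h5] at this
    exact notMem_empty _ this

omit [Fintype ι] in
/-- a proper nonempty subset of a connected set has an edge to the outside. -/
theorem Conn.exists_edge {Q C : Finset V} (hQ : Conn (gr B) Q) (hC : C ⊆ Q) (hne : C.Nonempty)
    (hCQ : C ≠ Q) : ∃ x ∈ C, ∃ y ∈ Q, y ∉ C ∧ (gr B).Adj x y := by
  by_contra hcon
  push Not at hcon
  refine hCQ (hQ.2 C ⟨hC, fun x hx y hy hxy => ?_⟩ hne)
  by_contra hyC
  exact hcon x hx y hy hyC hxy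

/-- an exceptional set is not a proper subset of a connected set. -/
theorem not_KT_of_ssubset {Q C : Finset V} (hQ : Conn (gr B) Q) (hr : Reg B Q) (h3 : Tr3 B Q)
    (hC : C ⊆ Q) (hCQ : C ≠ Q) : ¬ KT B C := by
  intro hK
  have hne : C.Nonempty := by
    rw [← card_pos, hK.1]
    norm_num
  obtain ⟨x, hx, y, hy, hyC, _, i, hi1, hi2⟩ := hQ.exists_edge hC hne hCQ
  have h1 := hK.trace (hr.mono hC) (h3.mono hC) (i := i) ⟨x, mem_inter.2 ⟨hi1, hx⟩⟩
  have h2 : insert y (B i ∩ C) ⊆ B i ∩ Q := by
    intro v hv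
    rcases mem_insert.1 hv with rfl | hv
    · exact mem_inter.2 ⟨hi2, hy⟩
    · exact mem_inter.2 ⟨(mem_inter.1 hv).1, hC (mem_inter.1 hv).2⟩
  have h4 := card_le_card h2
  rw [card_insert_of_notMem (fun h => hyC (mem_inter.1 h).2), h1] at h4
  have := h3 i
  omega

theorem ee_biUnion {Q : Finset V} {K : Finset (Finset V)} (h : SepF B K) :
    ee B Q (K.biUnion id) = ∑ C ∈ K, ee B Q C := by
  classical
  induction K using Finset.induction_on with
  | empty => simp [ee]
  | insert C K hC ih =>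
    have hne : ∀ D ∈ K, C ≠ D := fun D hD he => hC (he ▸ hD)
    rw [biUnion_insert, sum_insert hC]
    simp only [id]
    rw [ee_union (disjoint_biUnion fun D hD =>
      (h C (mem_insert_self _ _) D (mem_insert_of_mem hD) (hne D hD)).1)]
    rw [ih (h.mono (subset_insert _ _))]

/-- a point counted by `ee` has two blocks with trace inside. -/
theorem ee_singleton_le {Q : Finset V} {x : V} :
    2 * ee B Q {x} ≤ (ins B Q {x}).card ∧ ee B Q {x} ≤ 1 := by
  have h1 : ee B Q {x} ≤ 1 := by
    unfold ee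
    exact (card_filter_le _ _).trans (by simp)
  refine ⟨?_, h1⟩
  by_cases h0 : ee B Q {x} = 0
  · rw [h0]
    omega
  · have h2 : ee B Q {x} = 1 := by omega
    rw [h2]
    have h3 : 0 < ee B Q {x} := by omega
    unfold ee at h3
    obtain ⟨t, ht⟩ := card_pos.1 h3
    rw [mem_filter, mem_singleton] at ht
    obtain ⟨rfl, ht2⟩ := ht
    refine ht2.trans (card_le_card fun i hi => ?_)
    rw [mem_filter] at hi
    rw [mem_ins, hi.2]
    exact ⟨singleton_nonempty _, Subset.refl _⟩

/-- the components of `Q` without the point `x` and the blocks with trace `x`. -/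
theorem card_comps_le {Q : Finset V} {x : V} (hr : Reg B Q) (hx : x ∈ Q) (hQ : Conn (gr B) Q)
    {K : Finset (Finset V)} (hK : ∀ C ∈ K, C ⊆ Q.erase x ∧ Closed (gr B) (Q.erase x) C ∧
      Conn (gr B) C) (hsep : SepF B K) : K.card + (ins B Q {x}).card ≤ 5 := by
  classical
  have hblk : ∀ C ∈ K, ∃ i, x ∈ B i ∧ (B i ∩ C).Nonempty := by
    intro C hC
    obtain ⟨hCs, hCc, hCn⟩ := hK C hC
    have hne : C ≠ Q := by
      rintro rfl
      exact (mem_erase.1 (hCs hx)).1 rfl
    obtain ⟨u, hu, y, hy, hyC, hadj⟩ := hQ.exists_edge (hCs.trans (erase_subset _ _)) hCn.1 hne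
    have hyx : y = x := by
      by_contra hyx
      exact hyC (hCc.2 u hu y (mem_erase.2 ⟨hyx, hy⟩) hadj)
    subst hyx
    obtain ⟨_, i, hi1, hi2⟩ := hadj
    exact ⟨i, hi2, u, mem_inter.2 ⟨hi1, hu⟩⟩
  have h5 := hr x hx
  rcases K.eq_empty_or_nonempty with rfl | ⟨C0, hC0⟩
  · rw [card_empty, zero_add, ← h5]
    refine card_le_card fun i hi => ?_
    rw [mem_ins] at hi
    rw [mem_filter]
    obtain ⟨⟨v, hv⟩, h2⟩ := hi
    have := h2 hv
    rw [mem_singleton] at this
    subst this
    exact ⟨mem_univ _, (mem_inter.1 hv).1⟩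
  · obtain ⟨i0, _⟩ := hblk C0 hC0
    have : Nonempty ι := ⟨i0⟩
    choose! g hg1 hg2 using hblk
    have hinj : Set.InjOn g (K : Set (Finset V)) := by
      intro C hC D hD hCD
      by_contra hne
      have := (hsep C hC D hD hne).2 (g C) (hg2 C hC)
      rw [hCD] at this
      exact this (hg2 D hD)
    rw [← card_image_of_injOn hinj, ← h5]
    have hd : Disjoint (K.image g) (ins B Q {x}) := by
      rw [disjoint_left]
      intro i hi hi2
      obtain ⟨C, hC, rfl⟩ := mem_image.1 hi
      rw [mem_ins] at hi2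
      obtain ⟨v, hv⟩ := hg2 C hC
      rw [mem_inter] at hv
      have hvE := (hK C hC).1 hv.2
      have := hi2.2 (mem_inter.2 ⟨hv.1, mem_of_mem_erase hvE⟩)
      rw [mem_singleton] at this
      exact (mem_erase.1 hvE).1 this
    rw [← card_union_of_disjoint hd]
    refine card_le_card fun i hi => ?_
    rw [mem_filter]
    rcases mem_union.1 hi with hi | hi
    · obtain ⟨C, hC, rfl⟩ := mem_image.1 hi
      exact ⟨mem_univ _, hg1 C hC⟩
    · rw [mem_ins] at hi
      obtain ⟨⟨v, hv⟩, h2⟩ := hi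
      have := h2 hv
      rw [mem_singleton] at this
      subst this
      exact ⟨mem_univ _, (mem_inter.1 hv).1⟩

/-- the inequality for a connected set with a point which is not critical. -/
theorem L3_nonCrit {Q : Finset V} (hr : Reg B Q) (h3 : Tr3 B Q) (hQ : Conn (gr B) Q)
    (ih : IHL.{u} V Q.card) {x : V} (hx : x ∈ Q) (hrho : rho B (Q.erase x) = rho B Q) :
    L3ok B Q := by
  classical
  obtain ⟨K, hK1, hK2, hK3⟩ := exists_parts B (Q.erase x)
  have hcard := card_comps_le hr hx hQ hK1 hK2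
  have hxs : ({x} : Finset V) ⊆ Q := singleton_subset_iff.2 hx
  have hcov : ∀ C ∈ K, Cov B C := fun C hC =>
    cov_of_reg (hr.mono ((hK1 C hC).1.trans (erase_subset _ _)))
  have hok : ∀ C ∈ K, L3ok B C := by
    intro C hC
    have hCQ : C ⊆ Q := (hK1 C hC).1.trans (erase_subset _ _)
    have hne : C ≠ Q := by
      rintro rfl
      exact (mem_erase.1 ((hK1 _ hC).1 hx)).1 rfl
    exact ih ι B C (card_lt_card (lt_of_le_of_ne hCQ hne)) (hr.mono hCQ) (h3.mono hCQ)
      (hK1 C hC).2.2 (not_KT_of_ssubset hQ hr h3 hCQ hne)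
  have he : Q \ {x} = K.biUnion id := by rw [hK3, sdiff_singleton_eq_erase]
  have h1 := Pp_sdiff (B := B) hxs
  have h2 := Pv_sdiff (B := B) hxs
  rw [he, Pp_biUnion hcov hK2, card_singleton] at h1
  rw [he, Pv_biUnion hcov hK2, card_singleton] at h2
  have hr' : rho B (K.biUnion id) = rho B Q := by rw [hK3, hrho]
  rw [hr'] at h1 h2
  have hee : ee B Q Q = ∑ C ∈ K, ee B Q C + ee B Q {x} := by
    rw [← ee_biUnion hK2, ← ee_union]
    · congr 1
      rw [hK3]
      ext v
      rw [mem_union, mem_erase, mem_singleton]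
      constructor
      · intro hv
        by_cases hvx : v = x
        · exact Or.inr hvx
        · exact Or.inl ⟨hvx, hv⟩
      · rintro (hv | hv)
        · exact hv.2
        · exact hv ▸ hx
    · rw [hK3, disjoint_singleton_right]
      exact notMem_erase _ _
  obtain ⟨he1, he2⟩ := ee_singleton_le (B := B) (Q := Q) (x := x)
  have hs1 : ∑ C ∈ K, (2 * (ee B Q C : ℤ)) ≤ ∑ C ∈ K, Pp B C := by
    refine sum_le_sum fun C hC => ?_
    have h4 : ee B Q C ≤ ee B C C := ee_le_ee (Subset.refl _) ((hK1 C hC).1.trans (erase_subset _ _))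
    have h5 := (hok C hC).1
    have h6 : (ee B Q C : ℤ) ≤ ee B C C := by exact_mod_cast h4
    linarith
  have hs2 : -(K.card : ℤ) ≤ ∑ C ∈ K, Pv B C := by
    have : ∑ C ∈ K, (-1 : ℤ) ≤ ∑ C ∈ K, Pv B C := sum_le_sum fun C hC => (hok C hC).2
    rw [sum_const, nsmul_eq_mul] at this
    linarith
  rw [← mul_sum] at hs1
  constructor
  · rw [hee]
    push_cast
    have h7 : (2 * (ee B Q {x} : ℤ)) ≤ (ins B Q {x}).card := by exact_mod_cast he1
    push_cast at h1
    have h8 : (0 : ℤ) ≤ (ins B Q {x}).card := by positivity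
    linarith
  · have h7 : (K.card : ℤ) + (ins B Q {x}).card ≤ 5 := by exact_mod_cast hcard
    have h8 : (0 : ℤ) ≤ (ins B Q {x}).card := by positivity
    push_cast at h2
    linarith

end Pool.Agent.Hyp6
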