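import Pool.Agent.Hyp6.L3S1

/-!
# HYP6 L3S2: a set seen by one full block only, with arbitrary contact points

`Pvt`: the set `Z` meets the rest of `Q` without the full block `j0` only at the points of `X`.
`Pvt.two_le`: at least two contact points. `Pvt.dv_ge`: if `Z` absorbs all contact points but one,
for each of them, then `dv Q` is at least `dv Z + 5 |X| - 11`.
-/

set_option autoImplicit false

namespace Pool.Agent.Hyp6

open Finset Pool.Agent.Hyp5

universe u v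

variable {V : Type v} [DecidableEq V] {ι : Type u} [Fintype ι] {B : ι → Finset V}

/-- the set `Z` meets the rest of `Q` without the full block `j0` only at the points of `X`. -/
structure Pvt (B : ι → Finset V) (Q : Finset V) (j0 : ι) (Z X : Finset V) : Prop where
  cov : Cov B Q
  full : (B j0 ∩ Q).card = 3
  one : rho B (Q \ (B j0 ∩ Q)) + 1 = rho B Q
  clo : ∀ Y ⊆ Q, B j0 ∩ Q ⊆ Y → rho B (Q \ Y) + 1 = rho B Q → Conn (gr B) (Q \ Y)
  ZQ : Z ⊆ Q \ (B j0 ∩ Q)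
  Zne : Z.Nonempty
  XQ : X ⊆ (Q \ (B j0 ∩ Q)) \ Z
  con : ∀ i, (B i ∩ Z).Nonempty → ∀ v ∈ B i, v ∈ (Q \ (B j0 ∩ Q)) \ Z → v ∈ X
  rest : (((Q \ (B j0 ∩ Q)) \ X) \ Z).Nonempty

/-- the counts of the blocks at two points. -/
theorem dA_two {Q X W : Finset V} (hX : X ⊆ Q) (hW : W ⊆ Q) (hXW : Disjoint X W) {p q : V}
    (hpX : p ∈ X) (hqX : q ∈ X) (hpq : p ≠ q)
    (h1 : 4 ≤ (univ.filter (fun i => p ∈ B i ∧ ¬ (B i ∩ W).Nonempty)).card)
    (h2 : 2 ≤ (univ.filter (fun i => q ∈ B i ∧ ¬ (B i ∩ W).Nonempty)).card)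
    (h12 : (univ.filter (fun i => (p ∈ B i ∧ q ∈ B i) ∧ ¬ (B i ∩ W).Nonempty)).card + 5 ≤
      (univ.filter (fun i => p ∈ B i ∧ ¬ (B i ∩ W).Nonempty)).card +
      (univ.filter (fun i => q ∈ B i ∧ ¬ (B i ∩ W).Nonempty)).card) :
    5 ≤ (dA B X W).card ∧ 6 ≤ ∑ i ∈ dA B X W, (B i ∩ X).card ∧
      (6 ≤ (dA B X W).card ∨ ee B Q X ≤ 1) := by
  classical
  set D := dA B X W with hD
  set Dp := univ.filter (fun i => p ∈ B i ∧ ¬ (B i ∩ W).Nonempty) with hDp
  set Dq := univ.filter (fun i => q ∈ B i ∧ ¬ (B i ∩ W).Nonempty) with hDq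
  have hDpD : Dp ⊆ D := by
    intro i hi
    obtain ⟨_, h3, h4⟩ := mem_filter.1 hi
    exact mem_dA.2 ⟨⟨p, mem_inter.2 ⟨h3, hpX⟩⟩, h4⟩
  have hDqD : Dq ⊆ D := by
    intro i hi
    obtain ⟨_, h3, h4⟩ := mem_filter.1 hi
    exact mem_dA.2 ⟨⟨q, mem_inter.2 ⟨h3, hqX⟩⟩, h4⟩
  have hDpq : Dp ∩ Dq = univ.filter (fun i => (p ∈ B i ∧ q ∈ B i) ∧ ¬ (B i ∩ W).Nonempty) := by
    ext i
    simp only [hDp, hDq, mem_inter, mem_filter, mem_univ, true_and]
    tauto
  have hu := card_union_add_card_inter Dp Dq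
  rw [hDpq] at hu
  have hsub := card_le_card (union_subset hDpD hDqD)
  have hDpc := card_le_card hDpD
  have hD6 : Dp.card + Dq.card ≤ ∑ i ∈ D, (B i ∩ X).card := by
    have e1 : Dp.card = ∑ i ∈ D, if p ∈ B i then 1 else 0 := by
      rw [← card_filter]
      refine congrArg card (subset_antisymm (fun i hi => ?_) (fun i hi => ?_))
      · exact mem_filter.2 ⟨hDpD hi, (mem_filter.1 hi).2.1⟩
      · obtain ⟨h3, h4⟩ := mem_filter.1 hi
        exact mem_filter.2 ⟨mem_univ _, h4, (mem_dA.1 h3).2⟩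
    have e2 : Dq.card = ∑ i ∈ D, if q ∈ B i then 1 else 0 := by
      rw [← card_filter]
      refine congrArg card (subset_antisymm (fun i hi => ?_) (fun i hi => ?_))
      · exact mem_filter.2 ⟨hDqD hi, (mem_filter.1 hi).2.1⟩
      · obtain ⟨h3, h4⟩ := mem_filter.1 hi
        exact mem_filter.2 ⟨mem_univ _, h4, (mem_dA.1 h3).2⟩
    rw [e1, e2, ← sum_add_distrib]
    refine sum_le_sum fun i _ => ?_
    have h3 : (B i ∩ ({p, q} : Finset V)).card ≤ (B i ∩ X).card :=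
      card_le_card (inter_subset_inter_left
        (insert_subset hpX (singleton_subset_iff.2 hqX)))
    refine le_trans ?_ h3
    by_cases hp1 : p ∈ B i
    · by_cases hq1 : q ∈ B i
      · rw [if_pos hp1, if_pos hq1, inter_eq_right.2
          (insert_subset hp1 (singleton_subset_iff.2 hq1)), card_pair hpq]
      · rw [if_pos hp1, if_neg hq1]
        exact card_pos.2 ⟨p, mem_inter.2 ⟨hp1, mem_insert_self _ _⟩⟩
    · by_cases hq1 : q ∈ B i
      · rw [if_neg hp1, if_pos hq1]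
        exact card_pos.2 ⟨q, mem_inter.2 ⟨hq1, mem_insert_of_mem (mem_singleton_self q)⟩⟩
      · rw [if_neg hp1, if_neg hq1]
        exact Nat.zero_le _
  refine ⟨by omega, by omega, ?_⟩
  by_cases he : ee B Q X ≤ 1
  · exact Or.inr he
  left
  unfold ee at he
  obtain ⟨x, hx, hxp⟩ : ∃ x ∈ X.filter (fun t => 2 ≤ (univ.filter
      (fun i => B i ∩ Q = {t})).card), x ≠ p := by
    by_contra hcon
    push Not at hcon
    apply he
    have h3 : X.filter (fun t => 2 ≤ (univ.filter (fun i => B i ∩ Q = {t})).card) ⊆ {p} :=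
      fun x hx => mem_singleton.2 (hcon x hx)
    exact (card_le_card h3).trans (card_singleton p).le
  obtain ⟨hxX, hx2⟩ := mem_filter.1 hx
  have hdis : Disjoint Dp (univ.filter (fun i => B i ∩ Q = {x})) := by
    rw [disjoint_left]
    intro i h3 h4
    have h5 : p ∈ B i ∩ Q := mem_inter.2 ⟨(mem_filter.1 h3).2.1, hX hpX⟩
    rw [(mem_filter.1 h4).2] at h5
    exact hxp (mem_singleton.1 h5).symm
  have hS : univ.filter (fun i => B i ∩ Q = {x}) ⊆ D := by
    intro i hi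
    have h3 := (mem_filter.1 hi).2
    have h4 : x ∈ B i ∩ Q := by
      rw [h3]
      exact mem_singleton_self x
    refine mem_dA.2 ⟨⟨x, mem_inter.2 ⟨(mem_inter.1 h4).1, hxX⟩⟩, ?_⟩
    rintro ⟨w, hw⟩
    obtain ⟨hwi, hwW⟩ := mem_inter.1 hw
    have h5 : w ∈ B i ∩ Q := mem_inter.2 ⟨hwi, hW hwW⟩
    rw [h3] at h5
    rw [mem_singleton.1 h5] at hwW
    exact disjoint_left.1 hXW hxX hwW
  have h5 := card_le_card (union_subset hDpD hS)
  rw [card_union_of_disjoint hdis] at h5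
  omega

namespace Pvt

variable {Q Z X : Finset V} {j0 : ι}

/-- the rest. -/
def rs (B : ι → Finset V) (Q : Finset V) (j0 : ι) (Z X : Finset V) : Finset V :=
  ((Q \ (B j0 ∩ Q)) \ X) \ Z

omit [Fintype ι] in
theorem rsQ : rs B Q j0 Z X ⊆ Q := sdiff_subset.trans (sdiff_subset.trans sdiff_subset)

omit [Fintype ι] in
theorem ZinQ (h : Pvt B Q j0 Z X) : Z ⊆ Q := h.ZQ.trans sdiff_subset

omit [Fintype ι] in
theorem XinQ (h : Pvt B Q j0 Z X) : X ⊆ Q := h.XQ.trans (sdiff_subset.trans sdiff_subset)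

omit [Fintype ι] in
theorem XZ (h : Pvt B Q j0 Z X) : Disjoint X Z := disjoint_left.2 fun _ hv =>
  (mem_sdiff.1 (h.XQ hv)).2

omit [Fintype ι] in
theorem TX (h : Pvt B Q j0 Z X) : Disjoint (B j0 ∩ Q) X := disjoint_right.2 fun _ hv =>
  (mem_sdiff.1 (mem_sdiff.1 (h.XQ hv)).1).2

omit [Fintype ι] in
theorem sep (h : Pvt B Q j0 Z X) : Sep B Z (rs B Q j0 Z X) := by
  rintro i hi ⟨v, hv⟩
  obtain ⟨hvi, hv2⟩ := mem_inter.1 hv
  obtain ⟨hv3, hvZ⟩ := mem_sdiff.1 hv2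
  obtain ⟨hvQ, hvX⟩ := mem_sdiff.1 hv3
  exact hvX (h.con i hi v hvi (mem_sdiff.2 ⟨hvQ, hvZ⟩))

omit [Fintype ι] in
theorem un (h : Pvt B Q j0 Z X) : Q \ ((B j0 ∩ Q) ∪ X) = Z ∪ rs B Q j0 Z X := by
  ext v
  simp only [rs, mem_union, mem_sdiff]
  constructor
  · rintro ⟨h1, h2⟩
    push Not at h2
    by_cases h3 : v ∈ Z
    · exact Or.inl h3
    · exact Or.inr ⟨⟨⟨h1, h2.1⟩, h2.2⟩, h3⟩
  · rintro (h1 | ⟨⟨⟨h1, h2⟩, h3⟩, _⟩)
    · obtain ⟨h2, h3⟩ := mem_sdiff.1 (h.ZQ h1)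
      exact ⟨h2, fun h4 => h4.elim h3 fun h5 => disjoint_left.1 h.XZ h5 h1⟩
    · exact ⟨h1, fun h4 => h4.elim h2 h3⟩

omit [Fintype ι] in
theorem rho_un (h : Pvt B Q j0 Z X) :
    rho B (Q \ ((B j0 ∩ Q) ∪ X)) = rho B Z + rho B (rs B Q j0 Z X) := by
  rw [h.un]
  exact rho_add (h.cov.mono h.ZinQ) (h.cov.mono rsQ) h.sep

/-- the rest can not be covered as if the contact points were free. -/
theorem lt (h : Pvt B Q j0 Z X) : rho B Z + rho B (rs B Q j0 Z X) + 2 ≤ rho B Q := by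
  have h1 := h.rho_un
  have h2 := h.one
  have h3 : rho B (Q \ ((B j0 ∩ Q) ∪ X)) ≤ rho B (Q \ (B j0 ∩ Q)) := by
    refine rho_mono ?_ (h.cov.mono sdiff_subset)
    intro v hv
    obtain ⟨hv1, hv2⟩ := mem_sdiff.1 hv
    exact mem_sdiff.2 ⟨hv1, fun h7 => hv2 (mem_union_left _ h7)⟩
  by_contra hcon
  push Not at hcon
  have hcn := h.clo ((B j0 ∩ Q) ∪ X) (union_subset inter_subset_right h.XinQ)
    subset_union_left (by omega)
  rw [h.un] at hcn
  have hcl2 : Closed (gr B) (Z ∪ rs B Q j0 Z X) Z := by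
    refine ⟨subset_union_left, fun v hv w hw hvw => ?_⟩
    rcases mem_union.1 hw with hw | hw
    · exact hw
    · obtain ⟨_, i, hi1, hi2⟩ := hvw
      exact (h.sep i ⟨v, mem_inter.2 ⟨hi1, hv⟩⟩ ⟨w, mem_inter.2 ⟨hi2, hw⟩⟩).elim
  have heq := hcn.2 _ hcl2 h.Zne
  obtain ⟨a, ha⟩ := h.rest
  have ha' : a ∈ Z := by
    rw [heq]
    exact mem_union_right _ ha
  exact (mem_sdiff.1 ha).2 ha'

omit [Fintype ι] in
/-- the cover of `Q` by the full block, `Z` with some contact points and the rest with the others. -/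
theorem le (h : Pvt B Q j0 Z X) {S S' : Finset V} (hS : S ⊆ Q) (hS' : S' ⊆ Q)
    (hX : X ⊆ S ∪ S') : rho B Q ≤ rho B (Z ∪ S) + rho B (rs B Q j0 Z X ∪ S') + 1 := by
  have h2 := h.one
  have h3 : rho B (Q \ (B j0 ∩ Q)) ≤ rho B (Z ∪ S) + rho B (rs B Q j0 Z X ∪ S') := by
    refine le_trans (rho_mono ?_ ?_) (rho_union_le ?_ ?_)
    · intro v hv
      by_cases hvX : v ∈ X
      · rcases mem_union.1 (hX hvX) with h4 | h4
        · exact mem_union_left _ (mem_union_right _ h4)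
        · exact mem_union_right _ (mem_union_right _ h4)
      by_cases hvZ : v ∈ Z
      · exact mem_union_left _ (mem_union_left _ hvZ)
      · exact mem_union_right _ (mem_union_left _
          (mem_sdiff.2 ⟨mem_sdiff.2 ⟨hv, hvX⟩, hvZ⟩))
    · exact h.cov.mono (union_subset (union_subset h.ZinQ hS) (union_subset rsQ hS'))
    · exact h.cov.mono (union_subset h.ZinQ hS)
    · exact h.cov.mono (union_subset rsQ hS')
  omega

/-- **at least two contact points**, if `Z` absorbs each of them. -/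
theorem two_le (h : Pvt B Q j0 Z X) (habs : ∀ p ∈ X, rho B (Z ∪ {p}) ≤ rho B Z) :
    2 ≤ X.card := by
  by_contra hcon
  have h1 := h.lt
  have h2 : X.card ≤ 1 := by omega
  have h3 : rho B (Z ∪ X) ≤ rho B Z := by
    rcases X.eq_empty_or_nonempty with h4 | h4
    · rw [h4, union_empty]
    · obtain ⟨p, hp⟩ := card_eq_one.1 (le_antisymm h2 (card_pos.2 h4))
      rw [hp]
      exact habs p (by rw [hp]; exact mem_singleton_self p)
  have h4 := h.le h.XinQ (empty_subset Q) (by rw [union_empty])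
  rw [union_empty] at h4
  omega

/-- **general form**: `Z` can not absorb all contact points together. -/
theorem not_abs (h : Pvt B Q j0 Z X) : rho B Z + 1 ≤ rho B (Z ∪ X) := by
  have h1 := h.lt
  have h4 := h.le h.XinQ (empty_subset Q) (by rw [union_empty])
  rw [union_empty] at h4
  omega

/-- the rest refuses a contact point if `Z` absorbs the others. -/
theorem refuse (h : Pvt B Q j0 Z X) {p : V} (hp : p ∈ X)
    (habs : rho B (Z ∪ X.erase p) ≤ rho B Z) :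
    rho B Q = rho B Z + rho B (rs B Q j0 Z X) + 2 ∧
      rho B (rs B Q j0 Z X ∪ {p}) = rho B (rs B Q j0 Z X) + 1 := by
  have h1 := h.lt
  have hpQ := h.XinQ hp
  have h4 := h.le ((erase_subset p X).trans h.XinQ) (singleton_subset_iff.2 hpQ) (by
    intro v hv
    by_cases he : v = p
    · exact mem_union_right _ (mem_singleton.2 he)
    · exact mem_union_left _ (mem_erase.2 ⟨he, hv⟩))
  have h5 : rho B (rs B Q j0 Z X ∪ {p}) ≤ rho B (rs B Q j0 Z X) + 1 := by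
    obtain ⟨i, hi⟩ := h.cov p hpQ
    exact rho_union_block_le (h.cov.mono rsQ) (singleton_subset_iff.2 hi)
  omega

/-- **the separation lemma**: `Z` absorbs every contact point but one, for each of them. -/
theorem dv_ge (h : Pvt B Q j0 Z X) (hr : Reg B Q) (h3 : Tr3 B Q) (ih : IHE.{u} V Q.card)
    (hXne : X.Nonempty) (habs : ∀ p ∈ X, rho B (Z ∪ X.erase p) ≤ rho B Z)
    (hs : (X.card : ℤ) ≤ sv B Q - sv B Z + 1)
    (hD5 : 5 ≤ (dA B X Z).card)
    (hD6 : 6 ≤ ∑ i ∈ dA B X Z, (B i ∩ X).card ∨ (rs B Q j0 Z X).card ≠ 5)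
    (hDe : 6 ≤ (dA B X Z).card ∨ ee B Q X ≤ 1) :
    dv B Q Z + 5 * (X.card : ℤ) - 11 ≤ dv B Q Q := by
  classical
  obtain ⟨p0, hp0⟩ := hXne
  obtain ⟨hrho, _⟩ := h.refuse hp0 (habs p0 hp0)
  have href : ∀ p ∈ X, rho B (rs B Q j0 Z X) + 1 ≤ rho B (rs B Q j0 Z X ∪ {p}) :=
    fun p hp => (h.refuse hp (habs p hp)).2.ge
  have hsep := h.sep
  have hun := h.un
  set R := rs B Q j0 Z X with hR
  set Y := (B j0 ∩ Q) ∪ X with hY
  have hRQ : R ⊆ Q := rsQ
  have hYQ : Y ⊆ Q := union_subset inter_subset_right h.XinQ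
  have hYc : Y.card = 3 + X.card := by
    rw [hY, card_union_of_disjoint h.TX, h.full]
  have hZR : Disjoint Z R := disjoint_sdiff
  have hQc : Q.card = Y.card + (Z.card + R.card) := by
    have h1 := card_sdiff_add_card_eq_card hYQ
    rw [hun, card_union_of_disjoint hZR] at h1
    omega
  have hZc := card_pos.2 h.Zne
  have hsR : sv B R = sv B Q - sv B Z - X.card + 1 := by
    unfold sv
    rw [hQc, hYc, hrho]
    push_cast
    ring
  have hcore := core_ge (X := X) (W := Z) (Y := Y) hr h3 ih h.cov hRQ (by omega) hYQ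
    subset_union_right hun href (by
      intro K hKR hKcl hKc
      by_contra hcon
      push Not at hcon
      have hQ' : Conn (gr B) (Q \ (B j0 ∩ Q)) :=
        h.clo (B j0 ∩ Q) inter_subset_right (Subset.refl _) h.one
      have hKQ' : K ⊆ Q \ (B j0 ∩ Q) := by
        intro v hv
        have h1 : v ∈ Q \ Y := by
          rw [hun]
          exact mem_union_right _ (hKR hv)
        exact mem_sdiff.2 ⟨(mem_sdiff.1 h1).1, fun h2 =>
          (mem_sdiff.1 h1).2 (mem_union_left _ h2)⟩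
      have hclK : Closed (gr B) (Q \ (B j0 ∩ Q)) K := by
        refine ⟨hKQ', fun v hv w hw hvw => ?_⟩
        obtain ⟨hwQ, hwj⟩ := mem_sdiff.1 hw
        by_cases hwY : w ∈ Y
        · rcases mem_union.1 hwY with h1 | h1
          · exact (hwj h1).elim
          · exfalso
            obtain ⟨_, i, hi1, hi2⟩ := hvw
            have h2 := hcon i ⟨v, mem_inter.2 ⟨hi1, hv⟩⟩
            have h3 : w ∈ B i ∩ X := mem_inter.2 ⟨hi2, h1⟩
            rw [h2] at h3
            exact notMem_empty _ h3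
        · have h1 : w ∈ Z ∪ R := by
            rw [← hun]
            exact mem_sdiff.2 ⟨hwQ, hwY⟩
          rcases mem_union.1 h1 with h2 | h2
          · exfalso
            obtain ⟨_, i, hi1, hi2⟩ := hvw
            exact (hsep i ⟨w, mem_inter.2 ⟨hi2, h2⟩⟩
              ⟨v, mem_inter.2 ⟨hi1, hKR hv⟩⟩).elim
          · exact hKcl.2 v hv w h2 hvw
      have heq := hQ'.2 K hclK hKc.1
      obtain ⟨y, hy⟩ := h.Zne
      have hyQ : y ∈ Q \ (B j0 ∩ Q) := h.ZQ hy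
      rw [← heq] at hyQ
      exact disjoint_left.1 hZR hy (hKR hyQ))
    h.full subset_union_left h.TX (by rw [hsR]; linarith) hD5 hD6 hDe
  have hPv := Pv_sdiff (B := B) (W := Q) (X := Y) hYQ
  have hPZR : Pv B (Q \ Y) = Pv B Z + Pv B R := by
    rw [hun, Pv_add (h.cov.mono h.ZinQ) (h.cov.mono hRQ) hZR hsep]
  have hrQY : (rho B (Q \ Y) : ℤ) = rho B Z + rho B R := by
    rw [h.rho_un]
    push_cast
    rfl
  have heQ : ee B Q Q = ee B Q Y + (ee B Q Z + ee B Q R) := by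
    have h1 := ee_union (B := B) (Q := Q) (P := Y) (P' := Q \ Y) disjoint_sdiff
    rw [union_sdiff_of_subset hYQ, hun, ee_union hZR] at h1
    exact h1
  have hdZ : dv B Q Z = Pv B Z - 2 * (ee B Q Z : ℤ) := rfl
  have hdR : dv B Q R = Pv B R - 2 * (ee B Q R : ℤ) := rfl
  have hdQ : dv B Q Q = Pv B Q - 2 * (ee B Q Q : ℤ) := rfl
  have hrhoZ : (rho B Q : ℤ) = (rho B Z : ℤ) + rho B R + 2 := by
    rw [hrho]
    push_cast
    rfl
  rw [hdQ, hPv, hPZR, hrQY, hrhoZ, heQ, hYc, hdZ]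
  rw [hdR] at hcore
  push_cast
  linarith

/-- **two contact points** which have at most `1` and `3` blocks at `Z`. -/
theorem two_ge (h : Pvt B Q j0 Z X) (hr : Reg B Q) (h3 : Tr3 B Q) (ih : IHE.{u} V Q.card)
    (habs : ∀ p ∈ X, rho B (Z ∪ {p}) ≤ rho B Z) (hX2 : X.card = 2) (hZ : sv B Z = -1)
    (hs : 1 ≤ sv B Q) {p q : V} (hpX : p ∈ X) (hqX : q ∈ X) (hpq : p ≠ q)
    (h1 : hit B {p} Z ≤ 1) (h2 : hit B {q} Z ≤ 3)
    (h12 : (univ.filter (fun i => (p ∈ B i ∧ q ∈ B i) ∧ ¬ (B i ∩ Z).Nonempty)).card +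
      hit B {q} Z ≤ 4) :
    dv B Q Z - 1 ≤ dv B Q Q := by
  classical
  have hXe : X = {p, q} := by
    symm
    refine eq_of_subset_of_card_le (insert_subset hpX (singleton_subset_iff.2 hqX)) ?_
    rw [card_pair hpq, hX2]
  have hp5 := Frm.dp_card (A := {Z}) hr (h.XinQ hpX)
  have hq5 := Frm.dp_card (A := {Z}) hr (h.XinQ hqX)
  rw [singleton_biUnion, sum_singleton] at hp5 hq5
  simp only [id] at hp5 hq5
  obtain ⟨e1, e2, e3⟩ := dA_two (B := B) h.XinQ h.ZinQ h.XZ hpX hqX hpq (by omega) (by omega)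
    (by omega)
  have h4 := h.dv_ge hr h3 ih ⟨p, hpX⟩ (fun x hx => by
    rw [hXe] at hx
    rcases mem_insert.1 hx with rfl | hx
    · rw [hXe, erase_insert (by rw [mem_singleton]; exact hpq)]
      exact habs q hqX
    · rw [mem_singleton] at hx
      subst hx
      rw [hXe, pair_comm, erase_insert (by rw [mem_singleton]; exact hpq.symm)]
      exact habs p hpX) (by rw [hX2, hZ]; push_cast; linarith) e1 (Or.inl e2) e3
  rw [hX2] at h4
  push_cast at h4
  linarith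

end Pvt

section

variable {Q U : Finset V} {T : Finset ι} {F : Finset (Finset V)}

/-- the contact points of `L` outside the block `j0`. -/
noncomputable def cpt (B : ι → Finset V) (Q : Finset V) (j0 : ι) (L : Finset V) : Finset V := by
  classical
  exact ((Q \ (B j0 ∩ Q)) \ L).filter (fun v => ∃ i, v ∈ B i ∧ (B i ∩ L).Nonempty)

theorem mem_cpt {j0 : ι} {L : Finset V} {v : V} :
    v ∈ cpt B Q j0 L ↔ v ∈ (Q \ (B j0 ∩ Q)) \ L ∧ ∃ i, v ∈ B i ∧ (B i ∩ L).Nonempty := by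
  classical
  unfold cpt
  rw [mem_filter]

/-- the data for a leaf of the frame. -/
theorem Frm.pvt (h : Frm B Q T U F) {j0 : ι} (hj0 : j0 ∈ T)
    (hcl : ∀ Y ⊆ Q, B j0 ∩ Q ⊆ Y → rho B (Q \ Y) + 1 = rho B Q → Conn (gr B) (Q \ Y))
    {L : Finset V} (hL : L ∈ F) {k : ℕ} (hk : (cpt B Q j0 L).card ≤ k)
    (hT2 : k < 3 * (T.card - 1)) : Pvt B Q j0 L (cpt B Q j0 L) := by
  classical
  have hLT : ∀ j ∈ T, Disjoint (B j ∩ Q) L := fun j hj => disjoint_left.2 fun v hv =>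
    (h.T_out hj hv).2 L hL
  refine ⟨h.cov, h.mtp.tpk.pack.card j0 hj0, h.rho_one hj0, hcl, ?_, (h.ge.sys.fc L hL).1,
    fun v hv => (mem_cpt.1 hv).1, ?_, ?_⟩
  · intro v hv
    exact mem_sdiff.2 ⟨h.FQ hL hv, fun h1 => disjoint_left.1 (hLT j0 hj0) h1 hv⟩
  · intro i hi v hvi hv
    exact mem_cpt.2 ⟨hv, i, hvi, hi⟩
  · have h1 : ((T.erase j0).biUnion (fun j => B j ∩ Q)).card = 3 * (T.card - 1) := by
      rw [card_biUnion]
      · rw [sum_congr rfl (fun j hj => h.mtp.tpk.pack.card j (mem_of_mem_erase hj)), sum_const,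
          card_erase_of_mem hj0, smul_eq_mul, mul_comm]
      · intro a ha b hb hab
        exact h.mtp.tpk.pack.disj a (mem_of_mem_erase ha) b (mem_of_mem_erase hb) hab
    have h2 : ∃ v ∈ (T.erase j0).biUnion (fun j => B j ∩ Q), v ∉ cpt B Q j0 L := by
      by_contra hcon
      push Not at hcon
      have := card_le_card (show (T.erase j0).biUnion (fun j => B j ∩ Q) ⊆ cpt B Q j0 L from
        fun v hv => hcon v hv)
      omega
    obtain ⟨v, hv, hvX⟩ := h2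
    obtain ⟨j, hj, hvj⟩ := mem_biUnion.1 hv
    refine ⟨v, mem_sdiff.2 ⟨mem_sdiff.2 ⟨mem_sdiff.2 ⟨(mem_inter.1 hvj).2, fun h3 => ?_⟩, hvX⟩,
      fun h3 => ?_⟩⟩
    · exact disjoint_left.1 (h.mtp.tpk.pack.disj j (mem_of_mem_erase hj) j0 hj0
        (ne_of_mem_erase hj)) hvj h3
    · exact disjoint_left.1 (hLT j (mem_of_mem_erase hj)) hvj h3

/-- a leaf absorbs a contact point. -/
theorem Frm.leaf_abs1 (h : Frm B Q T U F) {L : Finset V} (hL : L ∈ F) {v : V} (hv : v ∈ Q)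
    (hvL : v ∉ L) (hs : ∃ i, v ∈ B i ∧ (B i ∩ L).Nonempty) : rho B (L ∪ {v}) ≤ rho B L := by
  obtain ⟨i, hvi, y, hy⟩ := hs
  obtain ⟨hyi, hyL⟩ := mem_inter.1 hy
  have hadj : (gr B).Adj v y := by
    refine ⟨?_, i, hvi, hyi⟩
    rintro rfl
    exact hvL hyL
  have h1 := rho_match_le (B := B) {L}
    (fun C hC => by rw [mem_singleton.1 hC]; exact h.fcF hL)
    (fun C hC => by rw [mem_singleton.1 hC]; exact h.covF L hL) {v} (fun _ => L)
    (MtI.singleton ⟨y, hyL, hadj⟩) (h.cov.mono (singleton_subset_iff.2 hv))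
    (fun C hC => by
      rw [mem_singleton.1 hC]
      exact disjoint_singleton_right.2 hvL)
  rw [singleton_biUnion, sum_singleton] at h1
  exact h1

theorem Frm.cpt_abs (h : Frm B Q T U F) {L : Finset V} (hL : L ∈ F) {j0 : ι} :
    ∀ p ∈ cpt B Q j0 L, rho B (L ∪ {p}) ≤ rho B L := by
  intro p hp
  obtain ⟨h1, h2⟩ := mem_cpt.1 hp
  exact h.leaf_abs1 hL (mem_sdiff.1 (mem_sdiff.1 h1).1).1 (mem_sdiff.1 h1).2 h2

/-- **(I1) for a leaf and all kinds of contact points**. -/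
theorem Frm.cpt_two_le (h : Frm B Q T U F) {j0 : ι} (hj0 : j0 ∈ T)
    (hcl : ∀ Y ⊆ Q, B j0 ∩ Q ⊆ Y → rho B (Q \ Y) + 1 = rho B Q → Conn (gr B) (Q \ Y))
    (hT2 : 2 ≤ T.card) {L : Finset V} (hL : L ∈ F) : 2 ≤ (cpt B Q j0 L).card := by
  by_contra hcon
  have h1 := h.pvt hj0 hcl hL (k := 1) (by omega) (by omega)
  exact hcon (h1.two_le (h.cpt_abs hL))

/-- **(S2) for a leaf and two contact points of any kind**. -/
theorem Frm.cpt_two_ge (h : Frm B Q T U F) (hr : Reg B Q) (ih : IHE.{u} V Q.card)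
    (hs : 1 ≤ sv B Q) {j0 : ι} (hj0 : j0 ∈ T)
    (hcl : ∀ Y ⊆ Q, B j0 ∩ Q ⊆ Y → rho B (Q \ Y) + 1 = rho B Q → Conn (gr B) (Q \ Y))
    (hT2 : 2 ≤ T.card) {L : Finset V} (hL : L ∈ F) (hX2 : (cpt B Q j0 L).card = 2) {p q : V}
    (hpX : p ∈ cpt B Q j0 L) (hqX : q ∈ cpt B Q j0 L) (hpq : p ≠ q)
    (h1 : hit B {p} L ≤ 1) (h2 : hit B {q} L ≤ 3)
    (h12 : (univ.filter (fun i => (p ∈ B i ∧ q ∈ B i) ∧ ¬ (B i ∩ L).Nonempty)).card +
      hit B {q} L ≤ 4) :
    dv B Q L - 1 ≤ dv B Q Q :=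
  (h.pvt hj0 hcl hL (k := 2) (by omega) (by omega)).two_ge hr h.reg3 ih (h.cpt_abs hL) hX2
    (h.fcF hL).2 hs hpX hqX hpq h1 h2 h12

end

end Pool.Agent.Hyp6
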