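import Pool.Agent.Hyp6.L3G1
import Pool.Agent.Hyp6.L3S2

/-!
# HYP6 L3Nr: a set seen by two full blocks and two further points

`Tf2`: two disjoint full blocks. `KG.card_le`: the number of closed sets is at most the number of the
components. `Tf2.two_out`: a set of value at least `9` which absorbs each of two contact points outside
of two full blocks, in which the two points have few hits, does not exist.
-/

set_option autoImplicit false

namespace Pool.Agent.Hyp6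

open Finset Pool.Agent.Hyp5

universe u v

variable {V : Type v} [DecidableEq V] {ι : Type u} [Fintype ι] {B : ι → Finset V}
variable {Q Y : Finset V} {F : Finset (Finset V)} {i j : ι}

/-- two disjoint full blocks whose complements are connected and critical. -/
structure Tf2 (B : ι → Finset V) (Q : Finset V) (i j : ι) : Prop extends ViolR B Q where
  fi : (B i ∩ Q).card = 3
  fj : (B j ∩ Q).card = 3
  dij : Disjoint (B i ∩ Q) (B j ∩ Q)
  conni : Conn (gr B) (Q \ (B i ∩ Q))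
  criti : Crit B (Q \ (B i ∩ Q))
  connj : Conn (gr B) (Q \ (B j ∩ Q))
  critj : Crit B (Q \ (B j ∩ Q))

/-- the value of a union of separated sets. -/
theorem dv_biUnion {S : Finset (Finset V)} (hc : ∀ C ∈ S, Cov B C) (h : SepF B S) :
    dv B Q (S.biUnion id) = ∑ C ∈ S, dv B Q C := by
  have h1 := Pv_biUnion hc h
  have h2 := ee_biUnion (B := B) (Q := Q) h
  unfold dv
  rw [h1, h2, sum_sub_distrib, ← mul_sum]
  push_cast
  rfl

/-- closed disjoint sets are at most as many as the components. -/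
theorem KG.card_le (h : KG B Q Y F i j) {W : Finset V} (hWQ : W ⊆ Q) (hYW : Q \ Y ⊆ W)
    (hW : rho B W ≤ rho B (Q \ Y)) {S : Finset (Finset V)}
    (hS : ∀ K ∈ S, Closed (gr B) W K ∧ K.Nonempty)
    (hd : ∀ K ∈ S, ∀ K' ∈ S, K ≠ K' → Disjoint K K') : S.card ≤ F.card := by
  classical
  have key : ∀ K ∈ S, ∃ M ∈ F, M ⊆ K := by
    intro K hK
    obtain ⟨hcl, hne⟩ := hS K hK
    have hcW : Cov B W := h.cov.mono hWQ
    have h1 : rho B W = rho B K + rho B (W \ K) := by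
      have h2 := rho_add (hcW.mono hcl.1) (hcW.mono sdiff_subset)
        (sep_of_closed hcl sdiff_subset disjoint_sdiff)
      rwa [union_sdiff_of_subset hcl.1] at h2
    have h2 := rho_pos (hcW.mono hcl.1) hne
    obtain ⟨v, hvK, hvY⟩ : ∃ v ∈ K, v ∉ Y := by
      by_contra hcon
      push Not at hcon
      have h3 : Q \ Y ⊆ W \ K := fun w hw =>
        mem_sdiff.2 ⟨hYW hw, fun h4 => (mem_sdiff.1 hw).2 (hcon w h4)⟩
      have h4 := rho_mono (B := B) h3 (hcW.mono sdiff_subset)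
      omega
    have hvF : v ∈ F.biUnion id := by
      rw [h.un]
      exact mem_sdiff.2 ⟨hWQ (hcl.1 hvK), hvY⟩
    obtain ⟨M, hM, hvM⟩ := mem_biUnion.1 hvF
    refine ⟨M, hM, ?_⟩
    obtain ⟨m1, m2, m3⟩ := h.parts M hM
    have h5 : Closed (gr B) M (M ∩ K) := ⟨inter_subset_left, fun x hx y hy hxy =>
      mem_inter.2 ⟨hy, hcl.2 x (mem_inter.1 hx).2 y (hYW (m1 hy)) hxy⟩⟩
    have h6 := m3.2 _ h5 ⟨v, mem_inter.2 ⟨hvM, hvK⟩⟩
    rw [← h6]
    exact inter_subset_right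
  choose! f hf using key
  refine card_le_card_of_injOn f (fun K hK => (hf K hK).1) fun K hK K' hK' he => ?_
  by_contra hne
  have h1 := hd K hK K' hK' hne
  obtain ⟨v, hv⟩ := ((h.parts _ (hf K hK).1).2.2).1
  refine disjoint_left.1 h1 ((hf K hK).2 hv) ((hf K' hK').2 ?_)
  rw [← he]
  exact hv

namespace Tf2

theorem cov (h : Tf2 B Q i j) : Cov B Q := cov_of_reg h.reg

/-- the cover number without the two full blocks. -/
theorem rhoW (h : Tf2 B Q i j) :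
    rho B (Q \ ((B i ∩ Q) ∪ (B j ∩ Q))) + 2 = rho B Q := by
  have hcC : Cov B (Q \ (B i ∩ Q)) := h.cov.mono sdiff_subset
  have h1 := h.rhoT h.fi
  have h2 := h.criti.sdiff hcC (P := B j ∩ Q) (i := j) inter_subset_left
    (fun v hv => mem_sdiff.2 ⟨(mem_inter.1 hv).2, fun h3 => disjoint_left.1 h.dij h3 hv⟩)
    (card_pos.1 (by rw [h.fj]; norm_num))
  have h3 : Q \ ((B i ∩ Q) ∪ (B j ∩ Q)) = (Q \ (B i ∩ Q)) \ (B j ∩ Q) := by
    rw [sdiff_sdiff_left]
    rfl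
  rw [h3]
  omega

/-- the closure of a set with the two full blocks. -/
theorem exists_KG (h : Tf2 B Q i j) {Y0 : Finset V} (hYQ : Y0 ⊆ Q) (hi : B i ∩ Q ⊆ Y0)
    (hj : B j ∩ Q ⊆ Y0) (hr : rho B (Q \ Y0) + 2 = rho B Q) :
    ∃ Y F, KG B Q Y F i j ∧ Y0 ⊆ Y := by
  set C := Q \ (B i ∩ Q) with hC
  have hcC : Cov B C := h.cov.mono sdiff_subset
  have h1 := h.rhoT h.fi
  rw [← hC] at h1
  have hCP : C \ (Y0 \ (B i ∩ Q)) = Q \ Y0 := by
    ext v
    simp only [hC, mem_sdiff]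
    constructor
    · rintro ⟨⟨h2, h3⟩, h4⟩
      exact ⟨h2, fun h5 => h4 ⟨h5, h3⟩⟩
    · rintro ⟨h2, h3⟩
      exact ⟨⟨h2, fun h4 => h3 (hi h4)⟩, fun h4 => h3 h4.1⟩
  have hPC : Y0 \ (B i ∩ Q) ⊆ C := fun v hv =>
    mem_sdiff.2 ⟨hYQ (mem_sdiff.1 hv).1, (mem_sdiff.1 hv).2⟩
  obtain ⟨X, F, hPX, hclo⟩ := exists_clo1 hcC hPC (by rw [hCP]; omega)
  have hXC := hclo.sub
  have hTi : B i ∩ Q ⊆ Q := inter_subset_right
  have hCQ : C ⊆ Q := sdiff_subset
  have hQY : Q \ ((B i ∩ Q) ∪ X) = C \ X := by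
    rw [hC, sdiff_sdiff_left]
    rfl
  refine ⟨(B i ∩ Q) ∪ X, F, ⟨h.toViolR, h.fi, h.fj, h.dij, subset_union_left, ?_,
    union_subset hTi (hXC.trans hCQ), ?_, hclo.sep, ?_, hclo.crit, ?_, h.conni, h.criti,
    h.connj, h.critj⟩, ?_⟩
  · exact fun v hv => mem_union_right _ (hPX (mem_sdiff.2 ⟨hj hv,
      fun h3 => disjoint_left.1 h.dij h3 hv⟩))
  · rw [hQY]
    exact hclo.parts
  · rw [hQY]
    exact hclo.un
  · rw [hQY]
    have := hclo.rhoX
    omega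
  · intro v hv
    by_cases hvi : v ∈ B i ∩ Q
    · exact mem_union_left _ hvi
    · exact mem_union_right _ (hPX (mem_sdiff.2 ⟨hv, hvi⟩))

/-- the components of a closure exist. -/
theorem F_ne (_h : Tf2 B Q i j) (hK : KG B Q Y F i j) (h3 : 3 ≤ rho B Q) : F.Nonempty := by
  rw [← not_not (a := F.Nonempty), not_nonempty_iff_eq_empty]
  rintro rfl
  have h1 := hK.rhoQ
  simp at h1
  omega

/-- the value of a connected set. -/
theorem dv_conn (h : Tf2 B Q i j) {K : Finset V} (hK : Conn (gr B) K) (hKQ : K ⊆ Q)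
    (hc : K.card + 3 ≤ Q.card) : -1 ≤ dv B Q K :=
  (Cp3.mk h.ih h.reg h.tr h.conn hKQ hK hc).d_ge

end Tf2

/-- the data of a set `Z` with the contact points `P` (absorbed) and `X` outside of two full blocks. -/
structure Zd (B : ι → Finset V) (Q : Finset V) (i j : ι) (Z P X : Finset V) : Prop extends
    Tf2 B Q i j where
  ZQ : Z ⊆ Q
  Zn : Z.Nonempty
  Zi : Disjoint Z (B i ∩ Q)
  Zj : Disjoint Z (B j ∩ Q)
  PQ : P ⊆ Q
  Pi : Disjoint P (B i ∩ Q)
  Pj : Disjoint P (B j ∩ Q)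
  PZ : Disjoint P Z
  XQ : X ⊆ Q
  Xi : Disjoint X (B i ∩ Q)
  Xj : Disjoint X (B j ∩ Q)
  XZ : Disjoint X Z
  XP : Disjoint X P
  con : ∀ k, (B k ∩ Z).Nonempty → ∀ v ∈ B k, v ∈ Q →
    v ∈ Z ∪ (((B i ∩ Q) ∪ (B j ∩ Q)) ∪ (P ∪ X))

namespace Zd

variable {Z P X : Finset V}

/-- the separator. -/
def Yd (B : ι → Finset V) (Q : Finset V) (i j : ι) (X : Finset V) : Finset V :=
  ((B i ∩ Q) ∪ (B j ∩ Q)) ∪ X

/-- the rest. -/
def Rd (B : ι → Finset V) (Q : Finset V) (i j : ι) (Z X : Finset V) : Finset V :=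
  (Q \ Yd B Q i j X) \ Z

theorem YQ (h : Zd B Q i j Z P X) : Yd B Q i j (P ∪ X) ⊆ Q :=
  union_subset (union_subset inter_subset_right inter_subset_right) (union_subset h.PQ h.XQ)

omit [Fintype ι] in
theorem Rsub : Rd B Q i j Z X ⊆ Q := sdiff_subset.trans sdiff_subset

theorem ZY (h : Zd B Q i j Z P X) : Disjoint Z (Yd B Q i j (P ∪ X)) := by
  unfold Yd
  rw [disjoint_union_right, disjoint_union_right, disjoint_union_right]
  exact ⟨⟨h.Zi, h.Zj⟩, h.PZ.symm, h.XZ.symm⟩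

theorem sep (h : Zd B Q i j Z P X) : Sep B Z (Rd B Q i j Z (P ∪ X)) := by
  rintro k hk ⟨v, hv⟩
  obtain ⟨hvk, hv2⟩ := mem_inter.1 hv
  obtain ⟨hv3, hvZ⟩ := mem_sdiff.1 hv2
  obtain ⟨hvQ, hvY⟩ := mem_sdiff.1 hv3
  rcases mem_union.1 (h.con k hk v hvk hvQ) with h1 | h1
  · exact hvZ h1
  · exact hvY h1

theorem un (h : Zd B Q i j Z P X) :
    Q \ Yd B Q i j (P ∪ X) = Z ∪ Rd B Q i j Z (P ∪ X) := by
  unfold Rd
  rw [union_sdiff_of_subset]
  exact fun v hv => mem_sdiff.2 ⟨h.ZQ hv, fun h1 => disjoint_left.1 h.ZY hv h1⟩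

theorem rho_un (h : Zd B Q i j Z P X) :
    rho B (Q \ Yd B Q i j (P ∪ X)) = rho B Z + rho B (Rd B Q i j Z (P ∪ X)) := by
  rw [h.un]
  exact rho_add (h.cov.mono h.ZQ) (h.cov.mono Rsub) h.sep

theorem TPX (h : Zd B Q i j Z P X) : Disjoint ((B i ∩ Q) ∪ (B j ∩ Q)) (P ∪ X) :=
  disjoint_union_left.2 ⟨disjoint_union_right.2 ⟨h.Pi.symm, h.Xi.symm⟩,
    disjoint_union_right.2 ⟨h.Pj.symm, h.Xj.symm⟩⟩

theorem Yc (h : Zd B Q i j Z P X) :
    (Yd B Q i j (P ∪ X)).card = 6 + (P.card + X.card) := by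
  unfold Yd
  rw [card_union_of_disjoint h.TPX, card_union_of_disjoint h.dij, h.fi, h.fj,
    card_union_of_disjoint h.XP.symm]

/-- the separator costs three blocks. -/
theorem lt (h : Zd B Q i j Z P X) (hX : 3 ≤ P.card + X.card) :
    rho B Z + rho B (Rd B Q i j Z (P ∪ X)) + 3 ≤ rho B Q := by
  by_contra hcon
  have h1 := h.rho_un
  have h2 := h.rhoW
  have h3 : rho B (Q \ Yd B Q i j (P ∪ X)) ≤ rho B (Q \ ((B i ∩ Q) ∪ (B j ∩ Q))) :=
    rho_mono (sdiff_subset_sdiff (Subset.refl _) subset_union_left) (h.cov.mono sdiff_subset)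
  obtain ⟨Y, F, hK, hYY⟩ := h.toTf2.exists_KG h.YQ
    (subset_union_left.trans subset_union_left) (subset_union_right.trans subset_union_left)
    (by omega)
  have h4 := rho_pos (h.cov.mono h.ZQ) h.Zn
  have h5 := hK.Y8 (h.toTf2.F_ne hK (by omega))
  have h6 := h.Yc
  have h7 := card_le_card hYY
  omega

/-- a point of the separator is refused by the rest if `Z` absorbs the other ones. -/
theorem refuse (h : Zd B Q i j Z P X) {p : V} (hp : p ∈ P ∪ X)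
    (hlt : rho B Z + rho B (Rd B Q i j Z (P ∪ X)) + 3 ≤ rho B Q)
    (habs : rho B (Z ∪ (P ∪ X).erase p) ≤ rho B Z) :
    rho B Q = rho B Z + rho B (Rd B Q i j Z (P ∪ X)) + 3 ∧
      rho B (Rd B Q i j Z (P ∪ X)) + 1 ≤ rho B (Rd B Q i j Z (P ∪ X) ∪ {p}) := by
  have hPXQ : P ∪ X ⊆ Q := union_subset h.PQ h.XQ
  have hpQ := hPXQ hp
  have hcZ : Cov B (Z ∪ (P ∪ X).erase p) := h.cov.mono (union_subset h.ZQ
    ((erase_subset p _).trans hPXQ))
  have hcR : Cov B (Rd B Q i j Z (P ∪ X) ∪ {p}) := h.cov.mono (union_subset Rsub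
    (singleton_subset_iff.2 hpQ))
  have h1 : rho B (Q \ ((B i ∩ Q) ∪ (B j ∩ Q))) ≤
      rho B (Z ∪ (P ∪ X).erase p) + rho B (Rd B Q i j Z (P ∪ X) ∪ {p}) := by
    refine le_trans (rho_mono ?_ (hcZ.union hcR)) (rho_union_le hcZ hcR)
    intro v hv
    obtain ⟨hvQ, hvT⟩ := mem_sdiff.1 hv
    by_cases hvX : v ∈ P ∪ X
    · by_cases hvp : v = p
      · exact mem_union_right _ (mem_union_right _ (mem_singleton.2 hvp))
      · exact mem_union_left _ (mem_union_right _ (mem_erase.2 ⟨hvp, hvX⟩))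
    by_cases hvZ : v ∈ Z
    · exact mem_union_left _ (mem_union_left _ hvZ)
    · refine mem_union_right _ (mem_union_left _ (mem_sdiff.2 ⟨mem_sdiff.2 ⟨hvQ, ?_⟩, hvZ⟩))
      intro h2
      rcases mem_union.1 h2 with h2 | h2
      · exact hvT h2
      · exact hvX h2
  have h2 := h.rhoW
  have h5 : rho B (Rd B Q i j Z (P ∪ X) ∪ {p}) ≤ rho B (Rd B Q i j Z (P ∪ X)) + 1 := by
    obtain ⟨k, hk⟩ := h.cov p hpQ
    exact rho_union_block_le (h.cov.mono Rsub) (singleton_subset_iff.2 hk)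
  omega

/-- without `P` the cover number is the same, if `Z` does not absorb `X` and the rest refuses `X`. -/
theorem rhoP (h : Zd B Q i j Z P X)
    (hrho : rho B Q = rho B Z + rho B (Rd B Q i j Z (P ∪ X)) + 3)
    (href : ∀ p ∈ X, rho B (Rd B Q i j Z (P ∪ X)) + 1 ≤ rho B (Rd B Q i j Z (P ∪ X) ∪ {p}))
    (hX : rho B Z + 1 ≤ rho B (Z ∪ X)) :
    rho B (Q \ (((B i ∩ Q) ∪ (B j ∩ Q)) ∪ P)) + 2 = rho B Q := by
  classical
  set R := Rd B Q i j Z (P ∪ X) with hR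
  set W' := Q \ (((B i ∩ Q) ∪ (B j ∩ Q)) ∪ P) with hW'
  have h2 := h.rhoW
  have h3 : rho B W' ≤ rho B (Q \ ((B i ∩ Q) ∪ (B j ∩ Q))) :=
    rho_mono (sdiff_subset_sdiff (Subset.refl _) subset_union_left) (h.cov.mono sdiff_subset)
  have hcW : Cov B W' := h.cov.mono sdiff_subset
  have hZW : Z ⊆ W' := fun v hv => mem_sdiff.2 ⟨h.ZQ hv, fun h4 => by
    rcases mem_union.1 h4 with h4 | h4
    · rcases mem_union.1 h4 with h4 | h4
      · exact disjoint_left.1 h.Zi hv h4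
      · exact disjoint_left.1 h.Zj hv h4
    · exact disjoint_left.1 h.PZ h4 hv⟩
  have hXW : X ⊆ W' := fun v hv => mem_sdiff.2 ⟨h.XQ hv, fun h4 => by
    rcases mem_union.1 h4 with h4 | h4
    · rcases mem_union.1 h4 with h4 | h4
      · exact disjoint_left.1 h.Xi hv h4
      · exact disjoint_left.1 h.Xj hv h4
    · exact disjoint_left.1 h.XP hv h4⟩
  have hRW : R ⊆ W' := fun v hv => by
    obtain ⟨h4, _⟩ := mem_sdiff.1 hv
    obtain ⟨h5, h6⟩ := mem_sdiff.1 h4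
    refine mem_sdiff.2 ⟨h5, fun h7 => h6 ?_⟩
    rcases mem_union.1 h7 with h7 | h7
    · exact mem_union_left _ h7
    · exact mem_union_right _ (mem_union_left _ h7)
  obtain ⟨T, hT1, hT2⟩ := exists_cover hcW
  set TZ := T.filter (fun a => (B a ∩ Z).Nonempty) with hTZ
  set TR := T.filter (fun a => ¬ (B a ∩ Z).Nonempty) with hTR
  have hc : TZ.card + TR.card = T.card := card_filter_add_card_filter_not _
  have hZc : rho B Z ≤ TZ.card := rho_le fun v hv => by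
    obtain ⟨a, ha, hva⟩ := mem_biUnion.1 (hT1 (hZW hv))
    exact mem_biUnion.2 ⟨a, mem_filter.2 ⟨ha, v, mem_inter.2 ⟨hva, hv⟩⟩, hva⟩
  have hRcov : R ⊆ TR.biUnion B := fun v hv => by
    obtain ⟨a, ha, hva⟩ := mem_biUnion.1 (hT1 (hRW hv))
    exact mem_biUnion.2 ⟨a, mem_filter.2 ⟨ha, fun h4 =>
      h.sep a h4 ⟨v, mem_inter.2 ⟨hva, hv⟩⟩⟩, hva⟩
  have hRc : rho B R ≤ TR.card := rho_le hRcov
  rcases (by omega : rho B (Q \ ((B i ∩ Q) ∪ (B j ∩ Q))) ≤ rho B W' ∨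
    rho B W' + 1 ≤ rho B (Q \ ((B i ∩ Q) ∪ (B j ∩ Q)))) with h4 | h4
  · omega
  exfalso
  have h5 : TZ.card = rho B Z := by omega
  have h6 : TR.card = rho B R := by omega
  have h7 : Z ∪ X ⊆ TZ.biUnion B := by
    intro v hv
    rcases mem_union.1 hv with hv | hv
    · obtain ⟨a, ha, hva⟩ := mem_biUnion.1 (hT1 (hZW hv))
      exact mem_biUnion.2 ⟨a, mem_filter.2 ⟨ha, v, mem_inter.2 ⟨hva, hv⟩⟩, hva⟩
    · obtain ⟨a, ha, hva⟩ := mem_biUnion.1 (hT1 (hXW hv))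
      by_cases h8 : (B a ∩ Z).Nonempty
      · exact mem_biUnion.2 ⟨a, mem_filter.2 ⟨ha, h8⟩, hva⟩
      · exfalso
        have h9 : R ∪ {v} ⊆ TR.biUnion B := union_subset hRcov
          (singleton_subset_iff.2 (mem_biUnion.2 ⟨a, mem_filter.2 ⟨ha, h8⟩, hva⟩))
        have h10 := rho_le (B := B) h9
        have h11 := href v hv
        omega
  have h8 := rho_le (B := B) h7
  omega

/-- the components of the rest which do not see the contact points: at most two. -/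
theorem far_le (h : Zd B Q i j Z P X)
    (hfull : ∀ Y F, KG B Q Y F i j → F.Nonempty → F.card + 5 ≤ Y.card) (h3 : 3 ≤ rho B Q)
    {P' X' : Finset V} (hPX : P ∪ X = P' ∪ X') (hZP : Disjoint Z P')
    (hrW : rho B (Q \ (((B i ∩ Q) ∪ (B j ∩ Q)) ∪ P')) + 2 = rho B Q)
    {K2 : Finset (Finset V)}
    (hK : ∀ K ∈ K2, K ⊆ Rd B Q i j Z (P ∪ X) ∧ Closed (gr B) (Rd B Q i j Z (P ∪ X)) K ∧
      K.Nonempty)
    (hd : ∀ K ∈ K2, ∀ K' ∈ K2, K ≠ K' → Disjoint K K')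
    (hX : ∀ K ∈ K2, ∀ a, (B a ∩ K).Nonempty → ¬ (B a ∩ X').Nonempty) : K2.card ≤ 2 := by
  classical
  have hPQ : P' ⊆ Q := fun v hv => by
    have h1 : v ∈ P ∪ X := by
      rw [hPX]
      exact mem_union_left _ hv
    exact union_subset h.PQ h.XQ h1
  set W := Q \ (((B i ∩ Q) ∪ (B j ∩ Q)) ∪ P') with hW
  have hRW : Rd B Q i j Z (P ∪ X) ⊆ W := fun v hv => by
    obtain ⟨h1, _⟩ := mem_sdiff.1 hv
    obtain ⟨h2, h4⟩ := mem_sdiff.1 h1
    refine mem_sdiff.2 ⟨h2, fun h5 => h4 ?_⟩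
    rcases mem_union.1 h5 with h5 | h5
    · exact mem_union_left _ h5
    · refine mem_union_right _ ?_
      rw [hPX]
      exact mem_union_left _ h5
  have hcl : ∀ K ∈ K2, Closed (gr B) W K := by
    intro K hKm
    obtain ⟨m1, m2, _⟩ := hK K hKm
    refine closed_of_sep (m1.trans hRW) ?_
    rintro a ha ⟨v, hv⟩
    obtain ⟨hva, hv2⟩ := mem_inter.1 hv
    obtain ⟨hvW, hvK⟩ := mem_sdiff.1 hv2
    obtain ⟨hvQ, hvT⟩ := mem_sdiff.1 hvW
    have hvX : v ∉ X' := fun h1 => hX K hKm a ha ⟨v, mem_inter.2 ⟨hva, h1⟩⟩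
    have hvZ : v ∉ Z := fun h1 => h.sep a ⟨v, mem_inter.2 ⟨hva, h1⟩⟩
      (ha.mono (inter_subset_inter_left m1))
    have hvR : v ∈ Rd B Q i j Z (P ∪ X) := mem_sdiff.2 ⟨mem_sdiff.2 ⟨hvQ, fun h1 => by
      rcases mem_union.1 h1 with h1 | h1
      · exact hvT (mem_union_left _ h1)
      · rw [hPX] at h1
        rcases mem_union.1 h1 with h1 | h1
        · exact hvT (mem_union_right _ h1)
        · exact hvX h1⟩, hvZ⟩
    exact sep_of_closed m2 sdiff_subset disjoint_sdiff a ha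
      ⟨v, mem_inter.2 ⟨hva, mem_sdiff.2 ⟨hvR, hvK⟩⟩⟩
  obtain ⟨z, hz⟩ := h.Zn
  have hzR : z ∉ Rd B Q i j Z (P ∪ X) := fun h1 => (mem_sdiff.1 h1).2 hz
  have hzW : z ∈ W := mem_sdiff.2 ⟨h.ZQ hz, fun h1 => by
    rcases mem_union.1 h1 with h1 | h1
    · rcases mem_union.1 h1 with h1 | h1
      · exact disjoint_left.1 h.Zi hz h1
      · exact disjoint_left.1 h.Zj hz h1
    · exact disjoint_left.1 hZP hz h1⟩
  set A := W \ K2.biUnion id with hA
  have hzA : z ∈ A := mem_sdiff.2 ⟨hzW, fun h1 => by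
    obtain ⟨K, hKm, hzK⟩ := mem_biUnion.1 h1
    exact hzR ((hK K hKm).1 hzK)⟩
  have hAcl : Closed (gr B) W A := by
    refine closed_of_sep sdiff_subset ?_
    rintro a ⟨x, hx⟩ ⟨y, hy⟩
    obtain ⟨hxa, hxA⟩ := mem_inter.1 hx
    obtain ⟨hya, hy2⟩ := mem_inter.1 hy
    obtain ⟨hyW, hyA⟩ := mem_sdiff.1 hy2
    obtain ⟨hxW, hxK⟩ := mem_sdiff.1 hxA
    have hyK : y ∈ K2.biUnion id := by
      by_contra h1
      exact hyA (mem_sdiff.2 ⟨hyW, h1⟩)
    obtain ⟨K, hKm, hyK'⟩ := mem_biUnion.1 hyK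
    exact hxK (mem_biUnion.2 ⟨K, hKm, block_closed (hcl K hKm) a
      ⟨y, mem_inter.2 ⟨hya, hyK'⟩⟩ (mem_inter.2 ⟨hxa, hxW⟩)⟩)
  have hAK : A ∉ K2 := fun h1 => hzR ((hK A h1).1 hzA)
  obtain ⟨Y, F, hKG, hYY⟩ := h.toTf2.exists_KG (Y0 := ((B i ∩ Q) ∪ (B j ∩ Q)) ∪ P')
    (union_subset (union_subset inter_subset_right inter_subset_right) hPQ)
    (subset_union_left.trans subset_union_left) (subset_union_right.trans subset_union_left)
    hrW
  have hne := h.toTf2.F_ne hKG h3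
  have h4 := hKG.card_le (W := W) sdiff_subset (sdiff_subset_sdiff (Subset.refl _) hYY) (by
    have h5 := hKG.rhoY
    omega) (S := insert A K2) (fun K hKm => by
    rcases mem_insert.1 hKm with rfl | hKm
    · exact ⟨hAcl, z, hzA⟩
    · exact ⟨hcl K hKm, (hK K hKm).2.2⟩) (fun K hKm K' hKm' hne' => by
    have hdA : ∀ K ∈ K2, Disjoint A K := fun K hKm => disjoint_left.2 fun v hv hvK =>
      (mem_sdiff.1 hv).2 (mem_biUnion.2 ⟨K, hKm, hvK⟩)
    rcases mem_insert.1 hKm with h5 | hKm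
    · rcases mem_insert.1 hKm' with h6 | hKm'
      · exact absurd (h5.trans h6.symm) hne'
      · rw [h5]
        exact hdA K' hKm'
    · rcases mem_insert.1 hKm' with h6 | hKm'
      · rw [h6]
        exact (hdA K hKm).symm
      · exact hd K hKm K' hKm' hne')
  rw [card_insert_of_notMem hAK] at h4
  have h5 := hfull Y F hKG hne
  have h6 := hKG.Y8 hne
  omega

/-- the blocks at the contact points: the numbers. -/
theorem num {D Dm Db S e : ℕ} {x : ℤ} (h1 : phi Dm ≤ x ∨ 17 ≤ x) (h2 : Dm + Db = D)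
    (h3 : 5 ≤ D) (h4 : 6 ≤ D ∨ e ≤ 1) (h5 : 2 * e ≤ S) (h6 : S ≤ Db) :
    17 ≤ x + 4 * (Db : ℤ) - 2 * (e : ℤ) := by
  unfold phi at h1
  rcases h1 with h1 | h1
  · split_ifs at h1 <;> omega
  · omega

/-- **the value of the set**, if the rest refuses the points `X'` and all but two of its components
see them. -/
theorem count (h : Zd B Q i j Z P X) {P' X' : Finset V} (hPX : P ∪ X = P' ∪ X')
    (hrho : rho B Q = rho B Z + rho B (Rd B Q i j Z (P ∪ X)) + 3)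
    (href : ∀ p ∈ X', rho B (Rd B Q i j Z (P ∪ X)) + 1 ≤ rho B (Rd B Q i j Z (P ∪ X) ∪ {p}))
    (hfar : ∀ K2 : Finset (Finset V),
      (∀ K ∈ K2, K ⊆ Rd B Q i j Z (P ∪ X) ∧ Closed (gr B) (Rd B Q i j Z (P ∪ X)) K ∧
        K.Nonempty) → (∀ K ∈ K2, ∀ K' ∈ K2, K ≠ K' → Disjoint K K') →
      (∀ K ∈ K2, ∀ a, (B a ∩ K).Nonempty → ¬ (B a ∩ X').Nonempty) → K2.card ≤ 2)
    (hD5 : 5 ≤ (dA B X' Z).card) (hDe : 6 ≤ (dA B X' Z).card ∨ ee B Q X' ≤ 1) :
    dv B Q Z + 5 * (P.card + X.card : ℤ) - 19 ≤ dv B Q Q := by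
  classical
  have hun := h.un
  have hsep := h.sep
  have hYQ := h.YQ
  have hYc := h.Yc
  have hZpos := card_pos.2 h.Zn
  have hZR : Disjoint Z (Rd B Q i j Z (P ∪ X)) := disjoint_sdiff
  have hQc : Q.card = (Yd B Q i j (P ∪ X)).card + (Z.card + (Rd B Q i j Z (P ∪ X)).card) := by
    have h1 := card_sdiff_add_card_eq_card hYQ
    rw [hun, card_union_of_disjoint hZR] at h1
    omega
  have hrY := h.rho_un
  have hX'PX : X' ⊆ P ∪ X := by
    rw [hPX]
    exact subset_union_right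
  have hX'Q : X' ⊆ Q := hX'PX.trans (union_subset h.PQ h.XQ)
  have hXR : Disjoint X' (Rd B Q i j Z (P ∪ X)) := disjoint_left.2 fun v hv hv' =>
    (mem_sdiff.1 (mem_sdiff.1 hv').1).2 (mem_union_right _ (hX'PX hv))
  have h3 : 3 ≤ rho B Q := by omega
  have hnot : ∀ v, v ∈ Z ∪ Rd B Q i j Z (P ∪ X) → v ∉ Yd B Q i j (P ∪ X) := fun v hv => by
    rw [← hun] at hv
    exact (mem_sdiff.1 hv).2
  obtain ⟨Ks, k1, k2, k3⟩ := exists_parts B (Rd B Q i j Z (P ∪ X))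
  have hRQ : Rd B Q i j Z (P ∪ X) ⊆ Q := Rsub
  have hfar := hfar (Ks.filter (fun K =>
    ¬ ∃ a, (B a ∩ K).Nonempty ∧ (B a ∩ X').Nonempty))
    (fun K hK => ⟨(k1 K (mem_filter.1 hK).1).1, (k1 K (mem_filter.1 hK).1).2.1,
      (k1 K (mem_filter.1 hK).1).2.2.1⟩)
    (fun K hK K' hK' hne => (k2 K (mem_filter.1 hK).1 K' (mem_filter.1 hK').1 hne).1)
    (fun K hK a ha hb => (mem_filter.1 hK).2 ⟨a, ha, hb⟩)
  set R := Rd B Q i j Z (P ∪ X) with hR
  set Y := Yd B Q i j (P ∪ X) with hY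
  set K1 := Ks.filter (fun K => ∃ a, (B a ∩ K).Nonempty ∧ (B a ∩ X').Nonempty) with hK1
  set K2 := Ks.filter (fun K => ¬ ∃ a, (B a ∩ K).Nonempty ∧ (B a ∩ X').Nonempty) with hK2
  have hK1s : K1 ⊆ Ks := filter_subset _ _
  have hK2s : K2 ⊆ Ks := filter_subset _ _
  have hcK : ∀ K ∈ Ks, Cov B K := fun K hK => h.cov.mono ((k1 K hK).1.trans hRQ)
  have hsplit : ∀ f : Finset V → ℤ, ∑ K ∈ Ks, f K = ∑ K ∈ K1, f K + ∑ K ∈ K2, f K :=
    fun f => (sum_filter_add_sum_filter_not Ks _ f).symm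
  have dR : dv B Q R = ∑ K ∈ Ks, dv B Q K := by
    have h1 := dv_biUnion (Q := Q) hcK k2
    rwa [k3] at h1
  have dR1 : dv B Q (K1.biUnion id) = ∑ K ∈ K1, dv B Q K :=
    dv_biUnion (fun K hK => hcK K (hK1s hK)) (k2.mono hK1s)
  have dR2 : -2 ≤ ∑ K ∈ K2, dv B Q K := by
    have h1 : ∑ _K ∈ K2, (-1 : ℤ) ≤ ∑ K ∈ K2, dv B Q K := by
      refine sum_le_sum fun K hK => ?_
      have h4 := k1 K (hK2s hK)
      have h5 := card_le_card h4.1
      exact h.toTf2.dv_conn h4.2.2 (h4.1.trans hRQ) (by omega)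
    rw [sum_const, nsmul_eq_mul] at h1
    have h5 : (K2.card : ℤ) ≤ 2 := by exact_mod_cast hfar
    linarith
  -- the components which see the contact points
  have hR1R : K1.biUnion id ⊆ R := by
    intro v hv
    obtain ⟨K, hK, hvK⟩ := mem_biUnion.1 hv
    exact (k1 K (hK1s hK)).1 hvK
  have hR1c := card_le_card hR1R
  have hRu : R = K1.biUnion id ∪ K2.biUnion id := by
    rw [← k3]
    ext v
    simp only [mem_union, mem_biUnion, id]
    constructor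
    · rintro ⟨K, hK, hvK⟩
      by_cases h1 : ∃ a, (B a ∩ K).Nonempty ∧ (B a ∩ X').Nonempty
      · exact Or.inl ⟨K, mem_filter.2 ⟨hK, h1⟩, hvK⟩
      · exact Or.inr ⟨K, mem_filter.2 ⟨hK, h1⟩, hvK⟩
    · rintro (⟨K, hK, hvK⟩ | ⟨K, hK, hvK⟩)
      · exact ⟨K, hK1s hK, hvK⟩
      · exact ⟨K, hK2s hK, hvK⟩
  have hR2R : K2.biUnion id ⊆ R := by
    rw [hRu]
    exact subset_union_right
  have hsep12 : Sep B (K1.biUnion id) (K2.biUnion id) := by
    rintro a ⟨x, hx⟩ ⟨y, hy⟩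
    obtain ⟨hxa, hx2⟩ := mem_inter.1 hx
    obtain ⟨hya, hy2⟩ := mem_inter.1 hy
    obtain ⟨K, hK, hxK⟩ := mem_biUnion.1 hx2
    obtain ⟨K', hK', hyK⟩ := mem_biUnion.1 hy2
    have hne : K ≠ K' := by
      rintro rfl
      exact (mem_filter.1 hK').2 (mem_filter.1 hK).2
    exact (k2 K (hK1s hK) K' (hK2s hK') hne).2 a ⟨x, mem_inter.2 ⟨hxa, hxK⟩⟩
      ⟨y, mem_inter.2 ⟨hya, hyK⟩⟩
  have hρR : rho B R = rho B (K1.biUnion id) + rho B (K2.biUnion id) := by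
    conv_lhs => rw [hRu]
    exact rho_add (h.cov.mono (hR1R.trans hRQ)) (h.cov.mono (hR2R.trans hRQ)) hsep12
  have href1 : ∀ p ∈ X', rho B (K1.biUnion id) + 1 ≤ rho B (K1.biUnion id ∪ {p}) := by
    intro p hp
    have h1 := href p hp
    have hc1 : Cov B (K1.biUnion id ∪ {p}) := h.cov.mono (union_subset (hR1R.trans hRQ)
      (singleton_subset_iff.2 (hX'Q hp)))
    have hc2 : Cov B (K2.biUnion id) := h.cov.mono (hR2R.trans hRQ)
    have h2 : rho B (R ∪ {p}) ≤ rho B (K1.biUnion id ∪ {p}) + rho B (K2.biUnion id) := by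
      refine le_trans (rho_mono ?_ (hc1.union hc2)) (rho_union_le hc1 hc2)
      intro v hv
      rcases mem_union.1 hv with h5 | h5
      · rw [hRu] at h5
        rcases mem_union.1 h5 with h5 | h5
        · exact mem_union_left _ (mem_union_left _ h5)
        · exact mem_union_right _ h5
      · exact mem_union_left _ (mem_union_right _ h5)
    omega
  set D := dA B X' Z with hD
  set Dm := D.filter (fun a => (B a ∩ K1.biUnion id).Nonempty) with hDm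
  set Db := D.filter (fun a => ¬ (B a ∩ K1.biUnion id).Nonempty) with hDb
  have hmb : Dm.card + Db.card = D.card := card_filter_add_card_filter_not _
  have hcase := comp_ge h.reg h.tr h.ih h.cov (hR1R.trans hRQ) (by omega) hX'Q
    (hXR.mono_right hR1R) href1 (fun K hKR hcl hKc => by
      obtain ⟨v, hv⟩ := hKc.1
      obtain ⟨K', hK', hvK'⟩ := mem_biUnion.1 (hKR hv)
      have h4 : K' ⊆ K1.biUnion id := subset_biUnion_of_mem id hK'
      have h5 : Closed (gr B) K' (K' ∩ K) := ⟨inter_subset_left, fun x hx y hy hxy =>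
        mem_inter.2 ⟨hy, hcl.2 x (mem_inter.1 hx).2 y (h4 hy) hxy⟩⟩
      have h6 := (k1 K' (hK1s hK')).2.2.2 _ h5 ⟨v, mem_inter.2 ⟨hvK', hv⟩⟩
      obtain ⟨a, ha, hb⟩ := (mem_filter.1 hK').2
      refine ⟨a, ha.mono (inter_subset_inter_left ?_), hb⟩
      rw [← h6]
      exact inter_subset_right) (Dm := Dm) (fun a ha => by
      obtain ⟨h4, h5⟩ := mem_filter.1 ha
      exact ⟨h5, (mem_dA.1 h4).1⟩)
  have hDbR : ∀ a ∈ Db, ¬ (B a ∩ R).Nonempty := by
    rintro a ha ⟨v, hv⟩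
    obtain ⟨hva, hvR⟩ := mem_inter.1 hv
    rw [← k3] at hvR
    obtain ⟨K, hK, hvK⟩ := mem_biUnion.1 hvR
    obtain ⟨h4, h5⟩ := mem_filter.1 ha
    exact h5 ⟨v, mem_inter.2 ⟨hva, mem_biUnion.2 ⟨K, mem_filter.2 ⟨hK, a,
      ⟨v, mem_inter.2 ⟨hva, hvK⟩⟩, (mem_dA.1 h4).1⟩, hvK⟩⟩⟩
  have hXY : X' ⊆ Y := hX'PX.trans subset_union_right
  have hDbY : Db ⊆ ins B Q Y := by
    intro a ha
    obtain ⟨h4, _⟩ := mem_filter.1 ha
    obtain ⟨⟨v, hv⟩, h5⟩ := mem_dA.1 h4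
    obtain ⟨hva, hvX⟩ := mem_inter.1 hv
    refine mem_ins.2 ⟨⟨v, mem_inter.2 ⟨hva, hX'Q hvX⟩⟩, ?_⟩
    intro w hw
    obtain ⟨hwa, hwQ⟩ := mem_inter.1 hw
    by_contra hwY
    have h6 : w ∈ Z ∪ R := by
      rw [← hun]
      exact mem_sdiff.2 ⟨hwQ, hwY⟩
    rcases mem_union.1 h6 with h7 | h7
    · exact h5 ⟨w, mem_inter.2 ⟨hwa, h7⟩⟩
    · exact hDbR a ha ⟨w, mem_inter.2 ⟨hwa, h7⟩⟩
  -- the blocks inside the separator
  set S' := (ins B Q (Y \ X')).filter (fun a => (B a ∩ Q).card = 1) with hS'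
  set S := (ins B Q X').filter (fun a => (B a ∩ Q).card = 1) with hS
  have hS'e : 2 * ee B Q (Y \ X') ≤ S'.card := two_ee_le Q _
  have hSe : 2 * ee B Q X' ≤ S.card := two_ee_le Q _
  have hSDb : S ⊆ Db := by
    intro a ha
    obtain ⟨h4, _⟩ := mem_filter.1 ha
    obtain ⟨⟨v, hv⟩, h5⟩ := mem_ins.1 h4
    refine mem_filter.2 ⟨mem_dA.2 ⟨⟨v, mem_inter.2 ⟨(mem_inter.1 hv).1, h5 hv⟩⟩, ?_⟩, ?_⟩
    · rintro ⟨w, hw⟩
      obtain ⟨hwa, hwZ⟩ := mem_inter.1 hw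
      exact hnot w (mem_union_left _ hwZ) (hXY (h5 (mem_inter.2 ⟨hwa, h.ZQ hwZ⟩)))
    · rintro ⟨w, hw⟩
      obtain ⟨hwa, hwR⟩ := mem_inter.1 hw
      exact hnot w (mem_union_right _ (hR1R hwR))
        (hXY (h5 (mem_inter.2 ⟨hwa, hRQ (hR1R hwR)⟩)))
  have hSb := card_le_card hSDb
  have hnum := num (x := dv B Q (K1.biUnion id)) (S := S.card) (e := ee B Q X')
    (hcase.imp_right fun h4 => h4.2) hmb hD5 hDe hSe hSb
  have hTX : Disjoint ((B i ∩ Q) ∪ (B j ∩ Q)) X' := h.TPX.mono_right hX'PX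
  have hfull3 : ∀ k, (k = i ∨ k = j) → (B k ∩ Q).card = 3 ∧ B k ∩ Q ⊆ Y ∧
      Disjoint (B k ∩ Q) X' := by
    rintro k (rfl | rfl)
    · exact ⟨h.fi, subset_union_left.trans subset_union_left,
        hTX.mono_left subset_union_left⟩
    · exact ⟨h.fj, subset_union_right.trans subset_union_left,
        hTX.mono_left subset_union_right⟩
  have hkn : ∀ k, (k = i ∨ k = j) → k ∉ Db ∪ S' := by
    intro k hk h2
    obtain ⟨f1, f2, f3⟩ := hfull3 k hk
    rcases mem_union.1 h2 with h4 | h4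
    · obtain ⟨⟨v, hv⟩, _⟩ := mem_dA.1 (mem_filter.1 h4).1
      obtain ⟨hvk, hvX⟩ := mem_inter.1 hv
      exact disjoint_left.1 f3 (mem_inter.2 ⟨hvk, hX'Q hvX⟩) hvX
    · have := (mem_filter.1 h4).2
      omega
  have hij : i ≠ j := by
    rintro rfl
    have h4 := h.dij
    rw [disjoint_self_iff_empty] at h4
    have h5 := h.fi
    rw [h4] at h5
    simp at h5
  have hins : 2 + Db.card + S'.card ≤ (ins B Q Y).card := by
    have h2 : Disjoint Db S' := by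
      rw [disjoint_left]
      intro a h4 h5
      obtain ⟨⟨v, hv⟩, _⟩ := mem_dA.1 (mem_filter.1 h4).1
      obtain ⟨hva, hvX⟩ := mem_inter.1 hv
      have h6 := (mem_ins.1 (mem_filter.1 h5).1).2 (mem_inter.2 ⟨hva, hX'Q hvX⟩)
      exact (mem_sdiff.1 h6).2 hvX
    have hin : ∀ k, (k = i ∨ k = j) → k ∈ ins B Q Y := fun k hk => by
      obtain ⟨f1, f2, f3⟩ := hfull3 k hk
      exact mem_ins.2 ⟨card_pos.1 (by omega), f2⟩
    have h4 : insert i (insert j (Db ∪ S')) ⊆ ins B Q Y := by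
      refine insert_subset (hin i (Or.inl rfl)) (insert_subset (hin j (Or.inr rfl))
        (union_subset hDbY ?_))
      intro a ha
      obtain ⟨h5, h6⟩ := mem_ins.1 (mem_filter.1 ha).1
      exact mem_ins.2 ⟨h5, h6.trans sdiff_subset⟩
    have h5 := card_le_card h4
    have hi1 : i ∉ insert j (Db ∪ S') := by
      intro h6
      rcases mem_insert.1 h6 with h6 | h6
      · exact hij h6
      · exact hkn i (Or.inl rfl) h6
    rw [card_insert_of_notMem hi1, card_insert_of_notMem (hkn j (Or.inr rfl)),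
      card_union_of_disjoint h2] at h5
    omega
  have hee : ee B Q Y = ee B Q X' + ee B Q (Y \ X') := by
    have h1 := ee_union (B := B) (Q := Q) (P := X') (P' := Y \ X') disjoint_sdiff
    rw [union_sdiff_of_subset hXY] at h1
    exact h1
  have hPv := Pv_sdiff (B := B) (W := Q) (X := Y) hYQ
  have hPZR : Pv B (Q \ Y) = Pv B Z + Pv B R := by
    rw [hun, Pv_add (h.cov.mono h.ZQ) (h.cov.mono hRQ) hZR hsep]
  have hrQY : (rho B (Q \ Y) : ℤ) = rho B Z + rho B R := by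
    rw [hrY]
    push_cast
    rfl
  have heQ : ee B Q Q = ee B Q Y + (ee B Q Z + ee B Q R) := by
    have h1 := ee_union (B := B) (Q := Q) (P := Y) (P' := Q \ Y) disjoint_sdiff
    rw [union_sdiff_of_subset hYQ, hun, ee_union hZR] at h1
    exact h1
  have hdZ' : dv B Q Z = Pv B Z - 2 * (ee B Q Z : ℤ) := rfl
  have hdR : dv B Q R = Pv B R - 2 * (ee B Q R : ℤ) := rfl
  have hdQ : dv B Q Q = Pv B Q - 2 * (ee B Q Q : ℤ) := rfl
  have hrhoZ : (rho B Q : ℤ) = (rho B Z : ℤ) + rho B R + 3 := by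
    rw [hrho]
    push_cast
    rfl
  rw [hsplit, ← dR1] at dR
  rw [hdQ, hPv, hPZR, hrQY, hrhoZ, heQ, hYc]
  have hinsz : (2 : ℤ) + Db.card + S'.card ≤ (ins B Q Y).card := by exact_mod_cast hins
  have hS'z : 2 * (ee B Q (Y \ X') : ℤ) ≤ S'.card := by exact_mod_cast hS'e
  have heez : (ee B Q Y : ℤ) = ee B Q X' + ee B Q (Y \ X') := by exact_mod_cast hee
  push_cast
  have he0 : (0 : ℤ) ≤ (ee B Q (Y \ X') : ℤ) := by positivity
  rw [hdR] at dR
  rw [hdZ']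
  linarith

end Zd



end Pool.Agent.Hyp6
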