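import Pool.Agent.Hyp6.L3Nr
import Pool.Agent.Hyp6.L3Yk
import Pool.Agent.Hyp6.L3G4
import Pool.Agent.Hyp6.L3Tx

/-!
# HYP6 L3Ns: a class seen by two triples with two outer contact points

`Frm.zd`: the data of the class. `Frm.out_two`: two outer contact points with few hits: the values of
the leaves and of the inside points are small. `Frm.out_two_one`: the case of one hit each.
-/

set_option autoImplicit false

namespace Pool.Agent.Hyp6

open Finset Pool.Agent.Hyp5

universe u v

variable {V : Type v} [DecidableEq V] {ι : Type u} [Fintype ι] {B : ι → Finset V}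
variable {Q U : Finset V} {T : Finset ι} {F C : Finset (Finset V)} {i j : ι}

namespace Frm

/-- two triples of the frame. -/
theorem tf2 (h : Frm B Q T U F) (hv : ViolR B Q) (hi : i ∈ T) (hj : j ∈ T) (hij : i ≠ j) :
    Tf2 B Q i j :=
  have fi := h.mtp.tpk.pack.card i hi
  have fj := h.mtp.tpk.pack.card j hj
  ⟨hv, fi, fj, h.mtp.tpk.pack.disj i hi j hj hij, (hv.lemA' fi).1, (hv.lemA' fi).2.1,
    (hv.lemA' fj).1, (hv.lemA' fj).2.1⟩

/-- the data of a class and two triples. -/
theorem zd (h : Frm B Q T U F) (hv : ViolR B Q) (hi : i ∈ T) (hj : j ∈ T) (hij : i ≠ j)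
    (hCF : C ⊆ F) (hC : C.Nonempty) :
    Zd B Q i j (C.biUnion id) (Sp.Uin U (slf B F) C) (Oc B Q U F i j C) := by
  classical
  have hT : ∀ {a : ι}, a ∈ T → Disjoint (C.biUnion id) (B a ∩ Q) := by
    intro a ha
    rw [disjoint_biUnion_left]
    exact fun L hL => h.disT (hCF hL) ha
  have hO : ∀ {v : V}, v ∈ Oc B Q U F i j C → v ∈ Q ∧ v ∉ B i ∧ v ∉ B j ∧ v ∉ C.biUnion id ∧
      v ∉ Sp.Uin U (slf B F) C := fun {v} hv' => by
    obtain ⟨h1, h2, h3, h4, h5, _⟩ := mem_filter.1 hv'
    exact ⟨h1, h2, h3, h4, h5⟩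
  refine ⟨h.tf2 hv hi hj hij, ?_, ?_, hT hi, hT hj, h.uin_Q,
    (h.uin_disj hi).mono_right inter_subset_left, (h.uin_disj hj).mono_right inter_subset_left,
    ?_, fun v hv' => (hO hv').1, ?_, ?_, ?_, ?_, ?_⟩
  · exact biUnion_subset.2 fun L hL => h.FQ (hCF hL)
  · obtain ⟨L, hL⟩ := hC
    obtain ⟨v, hv'⟩ := (h.conn_leaf (hCF hL)).1
    exact ⟨v, mem_biUnion.2 ⟨L, hL, hv'⟩⟩
  · rw [disjoint_biUnion_right]
    exact fun L hL => h.uin_leaf (hCF hL)
  · exact disjoint_left.2 fun v hv' h1 => (hO hv').2.1 (mem_inter.1 h1).1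
  · exact disjoint_left.2 fun v hv' h1 => (hO hv').2.2.1 (mem_inter.1 h1).1
  · exact disjoint_left.2 fun v hv' h1 => (hO hv').2.2.2.1 h1
  · exact disjoint_left.2 fun v hv' h1 => (hO hv').2.2.2.2 h1
  · intro k hk v hvk hvQ
    by_cases h1 : v ∈ C.biUnion id
    · exact mem_union_left _ h1
    refine mem_union_right _ ?_
    by_cases hvi : v ∈ B i
    · exact mem_union_left _ (mem_union_left _ (mem_inter.2 ⟨hvi, hvQ⟩))
    by_cases hvj : v ∈ B j
    · exact mem_union_left _ (mem_union_right _ (mem_inter.2 ⟨hvj, hvQ⟩))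
    refine mem_union_right _ ?_
    by_cases h2 : v ∈ Sp.Uin U (slf B F) C
    · exact mem_union_left _ h2
    · exact mem_union_right _ (mem_filter.2 ⟨hvQ, hvi, hvj, h1, h2, k, mem_Ez.2 ⟨hvk, hk⟩⟩)

/-- the cover number of the leaves of a class. -/
theorem rho_leaves (h : Frm B Q T U F) (hCF : C ⊆ F) :
    rho B (C.biUnion id) = ∑ L ∈ C, rho B L :=
  rho_biUnion (fun _ hL => h.cov.mono (h.FQ (hCF hL))) (h.sepF.mono hCF)

/-- a contact point of a class sees a leaf. -/
theorem see_leaf {v : V} (hv : (Ez B (C.biUnion id) v).Nonempty) :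
    ∃ L ∈ C, (Ez B L v).Nonempty := by
  obtain ⟨k, hk⟩ := hv
  obtain ⟨h1, w, hw⟩ := mem_Ez.1 hk
  obtain ⟨h2, h3⟩ := mem_inter.1 hw
  obtain ⟨L, hL, hwL⟩ := mem_biUnion.1 h3
  exact ⟨L, hL, k, mem_Ez.2 ⟨h1, w, mem_inter.2 ⟨h2, hwL⟩⟩⟩

/-- **two outer contact points with few hits**. -/
theorem out_two (h : Frm B Q T U F) (hv : ViolR B Q)
    (hfull : ∀ Y F', KG B Q Y F' i j → F'.Nonempty → F'.card + 5 ≤ Y.card)
    (hi : i ∈ T) (hj : j ∈ T) (hij : i ≠ j) (hCF : C ⊆ F) (h2 : 2 ≤ C.card)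
    (hn : C.card = (Sp.Uin U (slf B F) C).card + 1) (hO : (Oc B Q U F i j C).card = 2)
    (hD5 : 5 ≤ (dA B (Oc B Q U F i j C) (C.biUnion id)).card)
    (hDe : 6 ≤ (dA B (Oc B Q U F i j C) (C.biUnion id)).card ∨
      ee B Q (Oc B Q U F i j C) ≤ 1)
    (hab : C.card = 2 ∨ rho B (C.biUnion id) + 1 ≤ rho B (C.biUnion id ∪ Oc B Q U F i j C)) :
    ∑ L ∈ C, dv B Q L + 5 * ((Sp.Uin U (slf B F) C).card : ℤ) ≤ 8 := by
  classical
  set Z := C.biUnion id with hZ
  set P := Sp.Uin U (slf B F) C with hP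
  set X := Oc B Q U F i j C with hX
  have hz : Zd B Q i j Z P X := h.zd hv hi hj hij hCF (card_pos.1 (by omega))
  have hlt := hz.lt (by omega)
  have hρ : rho B Z = ∑ L ∈ C, rho B L := h.rho_leaves hCF
  have hZ1 := rho_pos (hz.cov.mono hz.ZQ) hz.Zn
  have hdv : dv B Q Z = ∑ L ∈ C, dv B Q L :=
    dv_biUnion (fun L hL => h.cov.mono (h.FQ (hCF hL))) (h.sepF.mono hCF)
  have habs : ∀ p ∈ X, rho B (Z ∪ (P ∪ X).erase p) ≤ rho B Z := by
    intro p hp
    have hpP : p ∉ P := fun h1 => disjoint_left.1 hz.XP hp h1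
    obtain ⟨q, hq⟩ := card_eq_one.1 (by rw [card_erase_of_mem hp, hO] :
      (X.erase p).card = 1)
    have hqX : q ∈ X := mem_of_mem_erase (by rw [hq]; exact mem_singleton_self q)
    obtain ⟨hqQ, -, -, -, -, h1⟩ := mem_filter.1 hqX
    obtain ⟨L0, hL0, h3⟩ := see_leaf h1
    have h4 := h.rho_uin hCF hqQ hL0 h3
    have h5 : (P ∪ X).erase p = insert q P := by
      rw [erase_union_distrib, erase_eq_of_notMem hpP, hq, union_comm, ← insert_eq]
    rw [h5, hρ]
    exact h4
  obtain ⟨p0, hp0⟩ : X.Nonempty := card_pos.1 (by omega)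
  obtain ⟨hrho, _⟩ := hz.refuse (mem_union_right _ hp0) hlt (habs p0 hp0)
  have href : ∀ p ∈ X, rho B (Zd.Rd B Q i j Z (P ∪ X)) + 1 ≤
      rho B (Zd.Rd B Q i j Z (P ∪ X) ∪ {p}) :=
    fun p hp => (hz.refuse (mem_union_right _ hp) hlt (habs p hp)).2
  have hneg := hv.neg
  have hkey : dv B Q Z + 5 * (P.card + X.card : ℤ) - 19 ≤ dv B Q Q := by
    by_cases hcase : rho B Z + 1 ≤ rho B (Z ∪ X)
    · exact hz.count (P' := P) (X' := X) rfl hrho href
        (fun K2 a b c => hz.far_le hfull (by omega) (P' := P) (X' := X) rfl hz.PZ.symm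
          (hz.rhoP hrho href hcase) a b c) hD5 hDe
    · have h3 : C.card = 2 := by
        rcases hab with h3 | h3
        · exact h3
        · exact absurd h3 hcase
      obtain ⟨u, hu⟩ := card_eq_one.1 (by omega : P.card = 1)
      have huP : u ∈ P := by rw [hu]; exact mem_singleton_self u
      have huX : u ∉ X := fun h1 => disjoint_left.1 hz.XP h1 huP
      have h4 : (P ∪ X).erase u = X := by
        rw [hu, ← insert_eq, erase_insert huX]
      have hrefu := (hz.refuse (mem_union_left _ huP) hlt (by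
        rw [h4]
        omega)).2
      refine hz.count (P' := ∅) (X' := P ∪ X) (by rw [empty_union]) hrho (fun p hp => ?_)
        (fun K2 a b c => hz.far_le hfull (by omega) (P' := ∅) (X' := P ∪ X)
          (by rw [empty_union]) (disjoint_empty_right _) (by
            rw [union_empty]
            exact hz.rhoW) a b c)
        (hD5.trans (card_le_card (dA_mono subset_union_right))) ?_
      · rcases mem_union.1 hp with hp | hp
        · rw [hu, mem_singleton] at hp
          rw [hp]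
          exact hrefu
        · exact href p hp
      · have h5 : ee B Q (P ∪ X) = ee B Q P + ee B Q X := ee_union hz.XP.symm
        by_cases h6 : 2 ≤ (univ.filter (fun k => B k ∩ Q = {u})).card
        · left
          have h7 : univ.filter (fun k => B k ∩ Q = {u}) ⊆ dA B (P ∪ X) Z := by
            intro k hk
            have h8 := (mem_filter.1 hk).2
            have h9 : u ∈ B k ∩ Q := by
              rw [h8]
              exact mem_singleton_self u
            refine mem_dA.2 ⟨⟨u, mem_inter.2 ⟨(mem_inter.1 h9).1, mem_union_left _ huP⟩⟩, ?_⟩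
            rintro ⟨w, hw⟩
            obtain ⟨hw1, hw2⟩ := mem_inter.1 hw
            have h10 : w ∈ B k ∩ Q := mem_inter.2 ⟨hw1, hz.ZQ hw2⟩
            rw [h8, mem_singleton] at h10
            rw [h10] at hw2
            exact disjoint_left.1 hz.PZ huP hw2
          have h8 : Disjoint (dA B X Z) (univ.filter (fun k => B k ∩ Q = {u})) := by
            rw [disjoint_left]
            intro k hk hk'
            obtain ⟨⟨w, hw⟩, _⟩ := mem_dA.1 hk
            obtain ⟨hw1, hw2⟩ := mem_inter.1 hw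
            have h9 : w ∈ B k ∩ Q := mem_inter.2 ⟨hw1, hz.XQ hw2⟩
            rw [(mem_filter.1 hk').2, mem_singleton] at h9
            rw [h9] at hw2
            exact huX hw2
          have h9 := card_le_card (union_subset (dA_mono (W := Z)
            (subset_union_right (s₁ := P) (s₂ := X))) h7)
          rw [card_union_of_disjoint h8] at h9
          omega
        · have h7 : ee B Q P = 0 := by
            rw [hu]
            unfold ee
            rw [card_eq_zero, filter_eq_empty_iff]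
            intro t ht
            rw [mem_singleton] at ht
            rw [ht]
            exact h6
          rcases hDe with h8 | h8
          · left
            exact h8.trans (card_le_card (dA_mono subset_union_right))
          · right
            omega
  rw [hdv, hO] at hkey
  push_cast at hkey
  linarith

/-- two outer contact points with one hit each: the blocks. -/
theorem dA_one (h : Frm B Q T U F) (hv : ViolR B Q) (hCF : C ⊆ F)
    (hO : (Oc B Q U F i j C).card = 2)
    (h1 : ∀ v ∈ Oc B Q U F i j C, (Ez B (C.biUnion id) v).card ≤ 1) :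
    5 ≤ (dA B (Oc B Q U F i j C) (C.biUnion id)).card ∧
      (6 ≤ (dA B (Oc B Q U F i j C) (C.biUnion id)).card ∨ ee B Q (Oc B Q U F i j C) ≤ 1) := by
  classical
  obtain ⟨p, q, hpq, hX⟩ := card_eq_two.1 hO
  have hp : p ∈ Oc B Q U F i j C := by rw [hX]; simp
  have hq : q ∈ Oc B Q U F i j C := by rw [hX]; simp
  have hmem : ∀ v ∈ Oc B Q U F i j C, v ∈ Q ∧ v ∉ C.biUnion id := fun v hv' => by
    obtain ⟨h2, _, _, h3, _, _⟩ := mem_filter.1 hv'
    exact ⟨h2, h3⟩
  have hfive : ∀ v ∈ Oc B Q U F i j C,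
      4 ≤ (univ.filter (fun k => v ∈ B k ∧ ¬ (B k ∩ C.biUnion id).Nonempty)).card := by
    intro v hv'
    have h2 : (univ.filter (fun k => v ∈ B k)).card = 5 := hv.reg v (hmem v hv').1
    have h3 := h1 v hv'
    have h4 : univ.filter (fun k => v ∈ B k) = Ez B (C.biUnion id) v ∪
        univ.filter (fun k => v ∈ B k ∧ ¬ (B k ∩ C.biUnion id).Nonempty) := by
      ext k
      simp only [mem_filter, mem_univ, true_and, mem_union, mem_Ez]
      tauto
    have h5 := card_union_le (Ez B (C.biUnion id) v)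
      (univ.filter (fun k => v ∈ B k ∧ ¬ (B k ∩ C.biUnion id).Nonempty))
    rw [← h4, h2] at h5
    omega
  have htw : (univ.filter (fun k => (p ∈ B k ∧ q ∈ B k) ∧
      ¬ (B k ∩ C.biUnion id).Nonempty)).card ≤ 3 := by
    refine le_trans (card_le_card fun k hk => ?_) (hv.twin (hmem p hp).1 (hmem q hq).1 hpq)
    exact mem_filter.2 ⟨mem_univ _, (mem_filter.1 hk).2.1⟩
  have h4 := hfive p hp
  have h5 := hfive q hq
  obtain ⟨e1, _, e3⟩ := dA_two (B := B) (Q := Q) (X := Oc B Q U F i j C)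
    (W := C.biUnion id) (fun v hv' => (hmem v hv').1)
    (biUnion_subset.2 fun L hL => h.FQ (hCF hL))
    (disjoint_left.2 fun v hv' => (hmem v hv').2) hp hq hpq h4 (by omega) (by omega)
  exact ⟨e1, e3⟩

/-- the hits of the outer contact points. -/
theorem Oc_hits (C : Finset (Finset V)) (i j : ι) :
    ∑ v ∈ Oc B Q U F i j C, (Ez B (C.biUnion id) v).card ≤
      ∑ L ∈ C, hit B (Rso B Q U F i j C L) L := by
  classical
  have h1 : ∀ L ∈ C, hit B (Oc B Q U F i j C) L ≤ hit B (Rso B Q U F i j C L) L := by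
    intro L hL
    refine hit_mono_left L fun v hv => ?_
    obtain ⟨hvQ, hvi, hvj, hvC, hvU, -⟩ := mem_filter.1 hv
    refine mem_sdiff.2 ⟨hvQ, fun h2 => ?_⟩
    rcases mem_union.1 h2 with h2 | h2
    · rcases mem_union.1 h2 with h2 | h2
      · exact hvC (mem_biUnion.2 ⟨L, hL, h2⟩)
      · rcases mem_union.1 h2 with h2 | h2
        · exact hvi (mem_inter.1 h2).1
        · exact hvj (mem_inter.1 h2).1
    · exact hvU h2
  refine le_trans ?_ (sum_le_sum h1)
  have h2 : ∀ L, hit B (Oc B Q U F i j C) L = ∑ v ∈ Oc B Q U F i j C, (Ez B L v).card :=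
    fun L => hit_eq _ _
  simp only [h2]
  rw [sum_comm]
  refine sum_le_sum fun v _ => ?_
  have h3 : Ez B (C.biUnion id) v ⊆ C.biUnion (fun L => Ez B L v) := by
    intro k hk
    obtain ⟨h4, w, hw⟩ := mem_Ez.1 hk
    obtain ⟨h5, h6⟩ := mem_inter.1 hw
    obtain ⟨L, hL, hwL⟩ := mem_biUnion.1 h6
    exact mem_biUnion.2 ⟨L, hL, mem_Ez.2 ⟨h4, w, mem_inter.2 ⟨h5, hwL⟩⟩⟩
  exact (card_le_card h3).trans card_biUnion_le

/-- **two outer contact points and two outer hits**. -/
theorem out_two_one (h : Frm B Q T U F) (hv : ViolR B Q)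
    (hfull : ∀ Y F', KG B Q Y F' i j → F'.Nonempty → F'.card + 5 ≤ Y.card)
    (hi : i ∈ T) (hj : j ∈ T) (hij : i ≠ j) (hCF : C ⊆ F) (h2 : 2 ≤ C.card)
    (hn : C.card = (Sp.Uin U (slf B F) C).card + 1) (hO : (Oc B Q U F i j C).card = 2)
    (hw : ∑ L ∈ C, hit B (Rso B Q U F i j C L) L ≤ 2)
    (hab : C.card = 2 ∨ rho B (C.biUnion id) + 1 ≤ rho B (C.biUnion id ∪ Oc B Q U F i j C)) :
    ∑ L ∈ C, dv B Q L + 5 * ((Sp.Uin U (slf B F) C).card : ℤ) ≤ 8 := by
  have h1 := Oc_hits (B := B) (Q := Q) (U := U) (F := F) C i j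
  have h3 : ∀ v ∈ Oc B Q U F i j C, (Ez B (C.biUnion id) v).card ≤ 1 := by
    intro v hv'
    have h4 : ∀ w ∈ (Oc B Q U F i j C).erase v, 1 ≤ (Ez B (C.biUnion id) w).card := by
      intro w hw'
      obtain ⟨-, -, -, -, -, h5⟩ := mem_filter.1 (mem_of_mem_erase hw')
      exact card_pos.2 h5
    have h5 := add_sum_erase (Oc B Q U F i j C) (fun v => (Ez B (C.biUnion id) v).card) hv'
    have h6 : ((Oc B Q U F i j C).erase v).card ≤
        ∑ w ∈ (Oc B Q U F i j C).erase v, (Ez B (C.biUnion id) w).card := by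
      rw [card_eq_sum_ones]
      exact sum_le_sum h4
    rw [card_erase_of_mem hv', hO] at h6
    omega
  obtain ⟨e1, e2⟩ := h.dA_one hv hCF hO h3
  exact h.out_two hv hfull hi hj hij hCF h2 hn hO e1 e2 hab

end Frm

end Pool.Agent.Hyp6
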