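import Pool.Agent.Hyp6.L3Yp0

/-!
# HYP6 L3Nu: two leaves with three points and an inside point

`L33`: a leaf with three points and at most `n` single traces. `Rfl`: two points which cannot be covered
together with the leaf by two blocks. `core33`: a pair with eight hits on the two leaves.
-/

set_option autoImplicit false

namespace Pool.Agent.Hyp6

open Finset Pool.Agent.Hyp5 Rt

universe u v

section core

variable {V : Type v} [DecidableEq V] {ι : Type u} [Fintype ι] {B : ι → Finset V}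
  {Q L L1 L2 : Finset V} {n : ℕ} {x y z w : V}

/-- a leaf with three points and at most `n` single traces. -/
structure L33 (B : ι → Finset V) (Q L : Finset V) (n : ℕ) : Prop where
  sub : L ⊆ Q
  c3 : L.card = 3
  pr : ∀ m ∈ L, ∃ i, L.erase m ⊆ B i
  two : ∀ i, (B i ∩ L).card ≤ 2
  n1 : nt B L 1 ≤ n

/-- two points which cannot be covered together with `L` by two blocks. -/
def Rfl (B : ι → Finset V) (L : Finset V) (x y : V) : Prop :=
  ∀ i i', ¬ (L ⊆ B i ∪ B i' ∧ x ∈ B i ∪ B i' ∧ y ∈ B i ∪ B i')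

/-- the blocks of the point `x` with two points in `L`. -/
def D2 (B : ι → Finset V) (L : Finset V) (x : V) : Finset ι :=
  (Ez B L x).filter fun i => (B i ∩ L).card = 2

/-- the blocks of the point `x` with one point in `L`. -/
def S1 (B : ι → Finset V) (L : Finset V) (x : V) : Finset ι :=
  (Ez B L x).filter fun i => (B i ∩ L).card ≠ 2

theorem Rfl.symm (h : Rfl B L x y) : Rfl B L y x := fun i i' ⟨h1, h2, h3⟩ => h i i' ⟨h1, h3, h2⟩

theorem D2_add (x : V) : (D2 B L x).card + (S1 B L x).card = (Ez B L x).card :=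
  card_filter_add_card_filter_not _

namespace L33

theorem trs_S1 (h : L33 B Q L n) (x : V) : S1 B L x ⊆ trs B L 1 := by
  intro i hi
  obtain ⟨h1, h2⟩ := mem_filter.1 hi
  have h3 := card_pos.2 (mem_Ez.1 h1).2
  have h4 := h.two i
  exact mem_trs.2 (by omega)

theorem abs (h : L33 B Q L n) {i : ι} (hi : i ∈ Ez B L x) :
    ∃ i', L ⊆ B i ∪ B i' := by
  obtain ⟨_, m, hm⟩ := mem_Ez.1 hi
  obtain ⟨hm1, hm2⟩ := mem_inter.1 hm
  obtain ⟨i', hi'⟩ := h.pr m hm2
  refine ⟨i', fun w hw => ?_⟩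
  by_cases he : w = m
  · exact mem_union_left _ (he ▸ hm1)
  · exact mem_union_right _ (hi' (mem_erase.2 ⟨he, hw⟩))

/-- refused points share no block at the leaf. -/
theorem disj (h : L33 B Q L n) (hR : Rfl B L x y) : Disjoint (Ez B L x) (Ez B L y) := by
  rw [disjoint_left]
  intro i hi hi'
  obtain ⟨k, hk⟩ := h.abs hi
  exact hR i k ⟨hk, mem_union_left _ (mem_Ez.1 hi).1, mem_union_left _ (mem_Ez.1 hi').1⟩

/-- a block with two points misses one point. -/
theorem miss (h : L33 B Q L n) {i : ι} (hi : (B i ∩ L).card = 2) :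
    ∃ r ∈ L, r ∉ B i ∧ ∀ w ∈ L, w ≠ r → w ∈ B i := by
  have h1 := card_sdiff_add_card_inter L (B i)
  rw [inter_comm, hi, h.c3] at h1
  obtain ⟨r, hr⟩ := card_eq_one.1 (by omega : (L \ B i).card = 1)
  have h2 : r ∈ L \ B i := by rw [hr]; exact mem_singleton_self r
  obtain ⟨h3, h4⟩ := mem_sdiff.1 h2
  refine ⟨r, h3, h4, fun w hw hne => ?_⟩
  by_contra h5
  have h6 : w ∈ L \ B i := mem_sdiff.2 ⟨hw, h5⟩
  rw [hr, mem_singleton] at h6
  exact hne h6

/-- the blocks of a refused point avoid the missed point. -/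
theorem avoid (h : L33 B Q L n) (hR : Rfl B L x y) {i : ι} (hi : i ∈ Ez B L x) {r : V} (hr : r ∈ L)
    (hall : ∀ w ∈ L, w ≠ r → w ∈ B i) {i' : ι} (hi' : i' ∈ Ez B L y) : r ∉ B i' := by
  intro h1
  refine hR i i' ⟨fun w hw => ?_, mem_union_left _ (mem_Ez.1 hi).1,
    mem_union_right _ (mem_Ez.1 hi').1⟩
  by_cases he : w = r
  · exact mem_union_right _ (he ▸ h1)
  · exact mem_union_left _ (hall w hw he)

/-- the number of blocks which touch the leaf. -/
theorem tch_le (h : L33 B Q L n) (hr : Reg B Q) : 2 * (tch B L).card ≤ 15 + n := by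
  have h1 : ∑ i ∈ tch B L, (B i ∩ L).card = 5 * L.card :=
    sum_inc_tch (hr.mono h.sub)
  rw [h.c3] at h1
  have h2 : ∑ i ∈ tch B L, 2 ≤ ∑ i ∈ tch B L, ((B i ∩ L).card +
      if (B i ∩ L).card = 1 then 1 else 0) := by
    refine sum_le_sum fun i hi => ?_
    have h3 := card_pos.2 (cost_mem_tch.1 hi)
    have h4 := h.two i
    split_ifs <;> omega
  rw [sum_add_distrib, h1, sum_const, smul_eq_mul, ← card_filter] at h2
  have h3 : ((tch B L).filter (fun i => (B i ∩ L).card = 1)).card ≤ nt B L 1 := by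
    refine card_le_card fun i hi => ?_
    exact mem_trs.2 (mem_filter.1 hi).2
  have h4 := h.n1
  omega

/-- the number of blocks which avoid a point. -/
theorem av_le (h : L33 B Q L n) (hr : Reg B Q) {r : V} (hrL : r ∈ L) {S : Finset ι}
    (hS : S ⊆ tch B L) (ha : ∀ i ∈ S, r ∉ B i) : S.card + 5 ≤ (tch B L).card := by
  classical
  have h1 : (univ.filter (fun i => r ∈ B i)).card = 5 := hr r (h.sub hrL)
  have h2 : Disjoint S (univ.filter (fun i => r ∈ B i)) :=
    disjoint_left.2 fun i hi hi' => ha i hi (mem_filter.1 hi').2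
  rw [← h1, ← card_union_of_disjoint h2]
  refine card_le_card (union_subset hS fun i hi => ?_)
  exact cost_mem_tch.2 ⟨r, mem_inter.2 ⟨(mem_filter.1 hi).2, hrL⟩⟩

theorem Ez_tch (x : V) : Ez B L x ⊆ tch B L := fun _ hi => cost_mem_tch.2 (mem_Ez.1 hi).2

/-- two refused points with double traces: their blocks avoid one point, and so do the blocks of a
third refused point. -/
theorem one_kind (h : L33 B Q L n) (hR : Rfl B L x y) (hx : (D2 B L x).Nonempty)
    (hy : (D2 B L y).Nonempty) : ∃ r ∈ L, (∀ i ∈ Ez B L x, r ∉ B i) ∧ (∀ i ∈ Ez B L y, r ∉ B i) ∧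
      ∀ z, Rfl B L x z → ∀ i ∈ Ez B L z, r ∉ B i := by
  obtain ⟨i, hi⟩ := hx
  obtain ⟨i', hi'⟩ := hy
  obtain ⟨hi1, hi2⟩ := mem_filter.1 hi
  obtain ⟨hi1', hi2'⟩ := mem_filter.1 hi'
  obtain ⟨r, hr, hr1, hr2⟩ := h.miss hi2
  obtain ⟨r', hr', hr1', hr2'⟩ := h.miss hi2'
  have h1 := h.avoid hR hi1 hr hr2 hi1'
  have h2 : r = r' := by
    by_contra hne
    exact h1 (hr2' r hr hne)
  subst h2
  exact ⟨r, hr, fun k hk => h.avoid hR.symm hi1' hr hr2' hk, fun k hk => h.avoid hR hi1 hr hr2 hk,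
    fun z hz k hk => h.avoid hz hi1 hr hr2 hk⟩

theorem cnt2 (h : L33 B Q L n) (hr : Reg B Q) (hR : Rfl B L x y) (hx : (D2 B L x).Nonempty)
    (hy : (D2 B L y).Nonempty) : (Ez B L x).card + (Ez B L y).card + 5 ≤ (tch B L).card := by
  classical
  obtain ⟨r, hrL, h1, h2, _⟩ := h.one_kind hR hx hy
  rw [← card_union_of_disjoint (h.disj hR)]
  refine h.av_le hr hrL (union_subset (Ez_tch x) (Ez_tch y)) fun i hi => ?_
  rcases mem_union.1 hi with hi | hi
  · exact h1 i hi
  · exact h2 i hi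

theorem cnt3 (h : L33 B Q L n) (hr : Reg B Q) (hR : Rfl B L x y) (hR' : Rfl B L x z)
    (hR'' : Rfl B L y z) (hx : (D2 B L x).Nonempty) (hy : (D2 B L y).Nonempty) :
    (Ez B L x).card + (Ez B L y).card + (Ez B L z).card + 5 ≤ (tch B L).card := by
  classical
  obtain ⟨r, hrL, h1, h2, h3⟩ := h.one_kind hR hx hy
  rw [← card_union_of_disjoint (h.disj hR),
    ← card_union_of_disjoint (disjoint_union_left.2 ⟨h.disj hR', h.disj hR''⟩)]
  refine h.av_le hr hrL (union_subset (union_subset (Ez_tch x) (Ez_tch y)) (Ez_tch z))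
    fun i hi => ?_
  rcases mem_union.1 hi with hi | hi
  · rcases mem_union.1 hi with hi | hi
    · exact h1 i hi
    · exact h2 i hi
  · exact h3 z hR' i hi

/-- the blocks of a refused point with two points in the leaf contain the point of a single trace. -/
theorem D2_pt (h : L33 B Q L n) (hR : Rfl B L x y) {i' : ι} (hi' : i' ∈ Ez B L y) {p : V}
    (hp : p ∈ B i' ∩ L) {i : ι} (hi : i ∈ D2 B L x) : p ∈ B i := by
  obtain ⟨hi1, hi2⟩ := mem_filter.1 hi
  obtain ⟨r, hr, hr1, hr2⟩ := h.miss hi2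
  refine hr2 p (mem_inter.1 hp).2 fun he => ?_
  exact h.avoid hR hi1 hr hr2 hi' (he ▸ (mem_inter.1 hp).1)

theorem D2_three (hv : ViolR B Q) (h : L33 B Q L n) (hxQ : x ∈ Q) (hxL : x ∉ L)
    (hR : Rfl B L x y) (hy : (Ez B L y).Nonempty) : (D2 B L x).card ≤ 3 := by
  obtain ⟨i', hi'⟩ := hy
  obtain ⟨p, hp⟩ := (mem_Ez.1 hi').2
  have hpL := (mem_inter.1 hp).2
  refine le_trans (card_le_card fun i hi => ?_)
    (hv.twin hxQ (h.sub hpL) fun he => hxL (he ▸ hpL))
  exact mem_filter.2 ⟨mem_univ _, (mem_Ez.1 (mem_filter.1 hi).1).1, h.D2_pt hR hi' hp hi⟩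

theorem S1_two (h : L33 B Q L n) (hR : Rfl B L x y) :
    (S1 B L x).card + (S1 B L y).card ≤ n := by
  classical
  have h1 : Disjoint (S1 B L x) (S1 B L y) :=
    (h.disj hR).mono (filter_subset _ _) (filter_subset _ _)
  rw [← card_union_of_disjoint h1]
  exact (card_le_card (union_subset (h.trs_S1 x) (h.trs_S1 y))).trans h.n1

theorem S1_three (h : L33 B Q L n) (hR : Rfl B L x y) (hR' : Rfl B L x z) (hR'' : Rfl B L y z) :
    (S1 B L x).card + (S1 B L y).card + (S1 B L z).card ≤ n := by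
  classical
  have h1 : Disjoint (S1 B L x) (S1 B L y) :=
    (h.disj hR).mono (filter_subset _ _) (filter_subset _ _)
  have h2 : Disjoint (S1 B L x) (S1 B L z) :=
    (h.disj hR').mono (filter_subset _ _) (filter_subset _ _)
  have h3 : Disjoint (S1 B L y) (S1 B L z) :=
    (h.disj hR'').mono (filter_subset _ _) (filter_subset _ _)
  rw [← card_union_of_disjoint h1, ← card_union_of_disjoint (disjoint_union_left.2 ⟨h2, h3⟩)]
  exact (card_le_card (union_subset (union_subset (h.trs_S1 x) (h.trs_S1 y))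
    (h.trs_S1 z))).trans h.n1

/-- three refused points, two of them without double traces. -/
theorem thr_aux (hv : ViolR B Q) (h : L33 B Q L n) (hxQ : x ∈ Q) (hxL : x ∉ L)
    (hR : Rfl B L x y) (hR' : Rfl B L x z) (hR'' : Rfl B L y z) (hy : (Ez B L y).Nonempty)
    (hy0 : D2 B L y = ∅) (hz0 : D2 B L z = ∅) :
    (Ez B L x).card + (Ez B L y).card + (Ez B L z).card ≤ n + 3 := by
  have h1 := h.D2_three hv hxQ hxL hR hy
  have h2 := h.S1_three hR hR' hR''
  have h3 := D2_add (B := B) (L := L) x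
  have h4 := D2_add (B := B) (L := L) y
  have h5 := D2_add (B := B) (L := L) z
  rw [hy0, card_empty] at h4
  rw [hz0, card_empty] at h5
  omega

/-- **three refused points**. -/
theorem thr (hv : ViolR B Q) (h : L33 B Q L n) (hxQ : x ∈ Q) (hyQ : y ∈ Q) (hzQ : z ∈ Q)
    (hxL : x ∉ L) (hyL : y ∉ L) (hzL : z ∉ L) (hR : Rfl B L x y) (hR' : Rfl B L x z)
    (hR'' : Rfl B L y z) (hx : (Ez B L x).Nonempty) (hy : (Ez B L y).Nonempty)
    (hz : (Ez B L z).Nonempty) :
    (Ez B L x).card + (Ez B L y).card + (Ez B L z).card + 5 ≤ (tch B L).card ∨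
      (2 ≤ n ∧ (Ez B L x).card + (Ez B L y).card + (Ez B L z).card ≤ n + 3) := by
  have hs : ∀ {w : V}, (Ez B L w).Nonempty → D2 B L w = ∅ → 1 ≤ (S1 B L w).card := by
    intro w hw h0
    have h4 := D2_add (B := B) (L := L) w
    rw [h0, card_empty] at h4
    have := card_pos.2 hw
    omega
  have h3 := h.S1_three hR hR' hR''
  rcases (D2 B L x).eq_empty_or_nonempty with hx0 | hx0
  · rcases (D2 B L y).eq_empty_or_nonempty with hy0 | hy0
    · right
      have h1 := h.thr_aux hv hzQ hzL hR'.symm hR''.symm hR hx hx0 hy0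
      have := hs hx hx0
      have := hs hy hy0
      omega
    · rcases (D2 B L z).eq_empty_or_nonempty with hz0 | hz0
      · right
        have h1 := h.thr_aux hv hyQ hyL hR.symm hR'' hR' hx hx0 hz0
        have := hs hx hx0
        have := hs hz hz0
        omega
      · left
        have h1 := h.cnt3 hv.reg hR'' hR.symm hR'.symm hy0 hz0
        omega
  · rcases (D2 B L y).eq_empty_or_nonempty with hy0 | hy0
    · rcases (D2 B L z).eq_empty_or_nonempty with hz0 | hz0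
      · right
        have h1 := h.thr_aux hv hxQ hxL hR hR' hR'' hy hy0 hz0
        have := hs hy hy0
        have := hs hz hz0
        omega
      · left
        have h1 := h.cnt3 hv.reg hR' hR hR''.symm hx0 hz0
        omega
    · left
      exact h.cnt3 hv.reg hR hR' hR'' hx0 hy0

/-- at a leaf with one single trace a point refused by another contact point has at most three hits. -/
theorem three_one (hv : ViolR B Q) (h : L33 B Q L n) (hn : n ≤ 1) (hxQ : x ∈ Q) (hxL : x ∉ L)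
    (hR : Rfl B L x y) (hy : (Ez B L y).Nonempty) : (Ez B L x).card ≤ 3 := by
  have h1 := h.D2_three hv hxQ hxL hR hy
  have h2 := h.S1_two hR
  have h3 := D2_add (B := B) (L := L) x
  have h4 := D2_add (B := B) (L := L) y
  have h5 := card_pos.2 hy
  have h6 := h.tch_le hv.reg
  rcases (D2 B L x).eq_empty_or_nonempty with hx0 | hx0
  · rw [hx0, card_empty] at h3
    omega
  rcases (D2 B L y).eq_empty_or_nonempty with hy0 | hy0
  · rw [hy0, card_empty] at h4
    omega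
  · have h7 := h.cnt2 hv.reg hR hx0 hy0
    omega

end L33

/-- two leaves with three points, an inside point and a refused pair. -/
structure P33 (B : ι → Finset V) (Q L1 L2 : Finset V) (u y z : V) : Prop where
  h1 : L33 B Q L1 1
  h2 : L33 B Q L2 3
  uQ : u ∈ Q
  yQ : y ∈ Q
  zQ : z ∈ Q
  u1 : u ∉ L1
  u2 : u ∉ L2
  y1 : y ∉ L1
  y2 : y ∉ L2
  z1 : z ∉ L1
  z2 : z ∉ L2
  r1 : Rfl B L1 y z
  r2 : Rfl B L2 y z
  no : ∀ i1 i2 i3 i4, ¬ (L1 ⊆ B i1 ∪ B i2 ∧ L2 ⊆ B i3 ∪ B i4 ∧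
    ∀ v, v = u ∨ v = y ∨ v = z → v ∈ B i1 ∪ B i2 ∪ (B i3 ∪ B i4))
  s1 : (Ez B L1 u).Nonempty
  s2 : (Ez B L2 u).Nonempty

namespace P33

variable {u y' z' : V}

theorem symm (d : P33 B Q L1 L2 u y z) : P33 B Q L1 L2 u z y :=
  ⟨d.h1, d.h2, d.uQ, d.zQ, d.yQ, d.u1, d.u2, d.z1, d.z2, d.y1, d.y2, d.r1.symm, d.r2.symm,
    fun i1 i2 i3 i4 ⟨a, b, c⟩ => d.no i1 i2 i3 i4 ⟨a, b, fun v hv => c v (by tauto)⟩, d.s1, d.s2⟩

theorem see {n : ℕ} {L : Finset V} (h : L33 B Q L n) {w : V} (hw : (Ez B L w).Nonempty) :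
    ∃ i i', L ⊆ B i ∪ B i' ∧ w ∈ B i ∪ B i' := by
  obtain ⟨i, hi⟩ := hw
  obtain ⟨k, hk⟩ := h.abs hi
  exact ⟨i, k, hk, mem_union_left _ (mem_Ez.1 hi).1⟩

/-- a point of the pair which sees the first leaf: at the second leaf the other one is refused
together with the inside point. -/
theorem uz2 (d : P33 B Q L1 L2 u y z) (hy : (Ez B L1 y).Nonempty) : Rfl B L2 u z := by
  obtain ⟨i, i', h1, h2⟩ := see d.h1 hy
  rintro k k' ⟨h3, h4, h5⟩
  refine d.no i i' k k' ⟨h1, h3, ?_⟩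
  rintro v (rfl | rfl | rfl)
  · exact mem_union_right _ h4
  · exact mem_union_left _ h2
  · exact mem_union_right _ h5

theorem uz1 (d : P33 B Q L1 L2 u y z) (hy : (Ez B L2 y).Nonempty) : Rfl B L1 u z := by
  obtain ⟨i, i', h1, h2⟩ := see d.h2 hy
  rintro k k' ⟨h3, h4, h5⟩
  refine d.no k k' i i' ⟨h3, h1, ?_⟩
  rintro v (rfl | rfl | rfl)
  · exact mem_union_left _ h4
  · exact mem_union_right _ h2
  · exact mem_union_left _ h5

/-- only the point `y` sees the first leaf. -/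
theorem one (hv : ViolR B Q) (d : P33 B Q L1 L2 u y z) (hy : (Ez B L1 y).Nonempty)
    (hz4 : (Ez B L2 z).card = 4) : (Ez B L2 u).card ≤ 2 ∧ ((Ez B L2 u).card = 2 →
      3 ≤ (D2 B L2 z).card ∧ ∀ i ∈ Ez B L2 u, ∀ p ∈ B i ∩ L2, ∀ k ∈ D2 B L2 z, p ∈ B k) := by
  have hR := d.uz2 hy
  have h1 := d.h2.D2_three hv d.zQ d.z2 hR.symm d.s2
  have h2 := D2_add (B := B) (L := L2) z
  have h3 := d.h2.S1_two hR
  have h4 := D2_add (B := B) (L := L2) u
  have h5 := d.h2.tch_le hv.reg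
  have h6 : (D2 B L2 u).card = 0 := by
    rcases (D2 B L2 u).eq_empty_or_nonempty with h7 | h7
    · rw [h7, card_empty]
    · have h8 : (D2 B L2 z).Nonempty := card_pos.1 (by omega)
      have h9 := d.h2.cnt2 hv.reg hR h7 h8
      have := card_pos.2 d.s2
      omega
  refine ⟨by omega, fun hu => ⟨by omega, fun i hi p hp k hk => d.h2.D2_pt hR.symm hi hp hk⟩⟩

/-- **a pair with eight hits**. -/
theorem fin (hv : ViolR B Q) (d : P33 B Q L1 L2 u y z)
    (hy4 : (Ez B L1 y).card + (Ez B L2 y).card = 4)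
    (hz4 : (Ez B L1 z).card + (Ez B L2 z).card = 4) : (Ez B L2 u).card ≤ 2 ∧
      ((Ez B L2 u).card = 2 → ∃ w, (w = y ∨ w = z) ∧ 3 ≤ (D2 B L2 w).card ∧
        ∀ i ∈ Ez B L2 u, ∀ p ∈ B i ∩ L2, ∀ k ∈ D2 B L2 w, p ∈ B k) := by
  have t1 := d.h1.tch_le hv.reg
  have t2 := d.h2.tch_le hv.reg
  rcases (Ez B L1 y).eq_empty_or_nonempty with hy | hy
  · rcases (Ez B L1 z).eq_empty_or_nonempty with hz | hz
    · exfalso
      rw [hy, card_empty] at hy4
      rw [hz, card_empty] at hz4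
      have h1 := d.h2.S1_two d.r2
      have h2 := D2_add (B := B) (L := L2) y
      have h3 := D2_add (B := B) (L := L2) z
      have h4 := d.h2.cnt2 hv.reg d.r2 (card_pos.1 (by omega)) (card_pos.1 (by omega))
      omega
    · rw [hy, card_empty] at hy4
      obtain ⟨h1, h2⟩ := d.symm.one hv hz (by omega)
      exact ⟨h1, fun h3 => ⟨y, Or.inl rfl, h2 h3⟩⟩
  · rcases (Ez B L1 z).eq_empty_or_nonempty with hz | hz
    · rw [hz, card_empty] at hz4
      obtain ⟨h1, h2⟩ := d.one hv hy (by omega)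
      exact ⟨h1, fun h3 => ⟨z, Or.inr rfl, h2 h3⟩⟩
    · exfalso
      have a1 := d.h1.three_one hv le_rfl d.yQ d.y1 d.r1 hz
      have a2 := d.h1.three_one hv le_rfl d.zQ d.z1 d.r1.symm hy
      have b1 : (Ez B L2 y).Nonempty := card_pos.1 (by omega)
      have b2 : (Ez B L2 z).Nonempty := card_pos.1 (by omega)
      have c1 := d.h1.thr hv d.uQ d.yQ d.zQ d.u1 d.y1 d.z1 (d.symm.uz1 b2) (d.uz1 b1) d.r1
        d.s1 hy hz
      have c2 := d.h2.thr hv d.uQ d.yQ d.zQ d.u2 d.y2 d.z2 (d.symm.uz2 hz) (d.uz2 hy) d.r2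
        d.s2 b1 b2
      have := card_pos.2 d.s1
      have := card_pos.2 d.s2
      omega

/-- **two pairs with eight hits**. -/
theorem fin2 (hv : ViolR B Q) (d : P33 B Q L1 L2 u y z) (d' : P33 B Q L1 L2 u y' z')
    (hne : ∀ w w', w = y ∨ w = z → w' = y' ∨ w' = z' → w ≠ w')
    (hy4 : (Ez B L1 y).card + (Ez B L2 y).card = 4)
    (hz4 : (Ez B L1 z).card + (Ez B L2 z).card = 4)
    (hy4' : (Ez B L1 y').card + (Ez B L2 y').card = 4)
    (hz4' : (Ez B L1 z').card + (Ez B L2 z').card = 4) : (Ez B L2 u).card ≤ 1 := by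
  classical
  obtain ⟨h1, h2⟩ := d.fin hv hy4 hz4
  obtain ⟨-, h2'⟩ := d'.fin hv hy4' hz4'
  by_contra hcon
  obtain ⟨w, hw, h3, h4⟩ := h2 (by omega)
  obtain ⟨w', hw', h3', h4'⟩ := h2' (by omega)
  obtain ⟨i, hi⟩ := d.s2
  obtain ⟨p, hp⟩ := (mem_Ez.1 hi).2
  have hww := hne w w' hw hw'
  have hwQ : w ∈ Q ∧ w ∉ L2 := by
    rcases hw with rfl | rfl
    · exact ⟨d.yQ, d.y2⟩
    · exact ⟨d.zQ, d.z2⟩
  have hwQ' : w' ∈ Q ∧ w' ∉ L2 := by
    rcases hw' with rfl | rfl
    · exact ⟨d'.yQ, d'.y2⟩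
    · exact ⟨d'.zQ, d'.z2⟩
  have hdis : Disjoint (D2 B L2 w) (D2 B L2 w') := by
    rw [disjoint_left]
    intro k hk hk'
    obtain ⟨e1, e2⟩ := mem_filter.1 hk
    obtain ⟨e1', -⟩ := mem_filter.1 hk'
    have e3 : insert w (insert w' (B k ∩ L2)) ⊆ B k ∩ Q := by
      intro v hv'
      rcases mem_insert.1 hv' with rfl | hv'
      · exact mem_inter.2 ⟨(mem_Ez.1 e1).1, hwQ.1⟩
      rcases mem_insert.1 hv' with rfl | hv'
      · exact mem_inter.2 ⟨(mem_Ez.1 e1').1, hwQ'.1⟩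
      · exact mem_inter.2 ⟨(mem_inter.1 hv').1, d.h2.sub (mem_inter.1 hv').2⟩
    have e4 := card_le_card e3
    rw [card_insert_of_notMem (by simp [hww, hwQ.2]), card_insert_of_notMem (by simp [hwQ'.2]),
      e2] at e4
    have := hv.tr k
    omega
  have h5 : D2 B L2 w ∪ D2 B L2 w' ⊆ univ.filter (fun k => p ∈ B k) := by
    intro k hk
    rw [mem_filter]
    refine ⟨mem_univ _, ?_⟩
    rcases mem_union.1 hk with hk | hk
    · exact h4 i hi p hp k hk
    · exact h4' i hi p hp k hk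
  have h6 := card_le_card h5
  rw [card_union_of_disjoint hdis, hv.reg p (d.h2.sub (mem_inter.1 hp).2)] at h6
  omega

end P33

end core

end Pool.Agent.Hyp6
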