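import Pool.Agent.Hyp6.L3Yp2
import Pool.Agent.Hyp6.L3Nv

/-!
# HYP6 L3Nw: places at the single traces of a class

`places`: points whose blocks have at most one point in a leaf. `Stg.places`: the pairs without full
hits and `U`. `Stg.pt5`: a pair at a point leaf.
-/

set_option autoImplicit false

namespace Pool.Agent.Hyp6

open Finset Pool.Agent.Hyp5 Rt

universe u v

section

variable {V : Type v} [DecidableEq V] {ι : Type u} [Fintype ι] {B : ι → Finset V}
  {Q L X : Finset V}

/-- **the places at the single traces**. -/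
theorem places (hL : L ⊆ Q) (hX : X ⊆ Q) (hXL : Disjoint X L) (h3 : Tr3 B Q)
    (h1 : ∀ i, (B i ∩ X).Nonempty → (B i ∩ L).card ≤ 1) :
    hit B X L + 4 * ee B Q L ≤ 2 * nt B L 1 := by
  classical
  set S := (tch B L).filter (fun i => (B i ∩ X).Nonempty) with hS
  have e1 : S.card + 2 * ee B Q L ≤ nt B L 1 := by
    refine Q2.sum_le hL fun i hi => ?_
    obtain ⟨h4, h5⟩ := mem_filter.1 hi
    have h6 := h1 i h5
    have h7 := card_pos.2 (cost_mem_tch.1 h4)
    obtain ⟨w, hw⟩ := h5
    obtain ⟨h8, h9⟩ := mem_inter.1 hw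
    exact ⟨by omega, w, mem_inter.2 ⟨h8, hX h9⟩, disjoint_left.1 hXL h9⟩
  have e2 : hit B X L ≤ ∑ i ∈ S, 2 := by
    unfold hit
    rw [hS, sum_filter]
    refine sum_le_sum fun i hi => ?_
    split_ifs with h5
    · have h6 : B i ∩ X ∪ B i ∩ L ⊆ B i ∩ Q :=
        union_subset (inter_subset_inter_left hX) (inter_subset_inter_left hL)
      have h7 := card_le_card h6
      rw [card_union_of_disjoint (hXL.mono inter_subset_right inter_subset_right)] at h7
      have h8 := card_pos.2 (cost_mem_tch.1 hi)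
      have h9 := h3 i
      omega
    · rw [not_nonempty_iff_eq_empty.1 h5, card_empty]
  rw [sum_const, smul_eq_mul] at e2
  omega

end

variable {V : Type v} [DecidableEq V] {ι : Type u} [Fintype ι] [DecidableEq ι]
  {B : ι → Finset V} {Q U : Finset V} {T : Finset ι} {F : Finset (Finset V)}
  {P : Finset (Finset (Finset V))} {a : V → Finset (Finset V) → ℕ} {C : Finset (Finset V)}

namespace Stg

/-- **the pairs without full hits and `U`** at the single traces of a class. -/
theorem places (s : Stg B Q T U F P a) (hC : C ∈ P) {K : Finset ι} {x y z : ι → V}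
    {m w : ι → ℕ} (hK : ∀ j ∈ K, Cd B Q T U F P C j (x j) (y j) (z j) (m j) (w j))
    (hw : ∀ j ∈ K, w j = 0) :
    ∑ j ∈ K, m j + ∑ L ∈ C, hit B U L + 4 * ∑ L ∈ C, ee B Q L ≤ 2 * ∑ L ∈ C, nt B L 1 := by
  classical
  have hCF : C ⊆ F := (s.part.ptn.vc _ hC).sub
  have hxy : ∀ j ∈ K, ∀ v ∈ ({x j, y j} : Finset V), v ∈ B j ∩ Q := by
    intro j hj v hv
    rw [(hK j hj).bt.eq]
    rcases mem_insert.1 hv with rfl | hv
    · simp
    · rw [mem_singleton.1 hv]
      simp
  set X := K.biUnion (fun j => ({x j, y j} : Finset V)) with hX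
  have hXQ : X ⊆ Q := by
    intro v hv
    obtain ⟨j, hj, h1⟩ := mem_biUnion.1 hv
    exact (mem_inter.1 (hxy j hj v h1)).2
  have hUQ : U ⊆ Q := fun v hv => Frm.DQ (s.frm.UD hv)
  have hXU : Disjoint X U := by
    rw [disjoint_left]
    intro v hv hvU
    obtain ⟨j, hj, h1⟩ := mem_biUnion.1 hv
    exact Frm.T_notD (Q := Q) (hK j hj).mT (mem_inter.1 (hxy j hj v h1)).1 (s.frm.UD hvU)
  have hleaf : ∀ L ∈ C, ∑ j ∈ K, (uh B (x j) L + uh B (y j) L) + hit B U L + 4 * ee B Q L ≤
      2 * nt B L 1 := by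
    intro L hL
    have hLF := hCF hL
    have h1 : Disjoint (X ∪ U) L := by
      rw [disjoint_union_left]
      refine ⟨disjoint_left.2 fun v hv => ?_, disjoint_left.2 fun v hv h2 =>
        disjoint_left.1 (s.frm.ge.FU L hLF) h2 hv⟩
      obtain ⟨j, hj, h2⟩ := mem_biUnion.1 hv
      exact (s.frm.T_out (hK j hj).mT (hxy j hj v h2)).2 _ hLF
    have h2 := Hyp6.places (s.frm.FQ hLF) (union_subset hXQ hUQ) h1 s.viol.tr (by
      rintro i ⟨v, hv⟩
      obtain ⟨hvi, hv⟩ := mem_inter.1 hv
      rcases mem_union.1 hv with hv | hv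
      · obtain ⟨j, hj, h3⟩ := mem_biUnion.1 hv
        by_contra h4
        have h5 : PoorF B (x j) (y j) C := by
          refine ⟨L, hL, i, ?_, by omega⟩
          rcases mem_insert.1 h3 with h6 | h6
          · exact Or.inl (h6 ▸ hvi)
          · exact Or.inr (mem_singleton.1 h6 ▸ hvi)
        have h6 := (hK j hj).poor.2 h5
        have h7 := hw j hj
        omega
      · exact s.frm.one_trU hLF hv hvi)
    rw [hit_union_left L hXU] at h2
    have h3 : hit B X L = ∑ j ∈ K, (uh B (x j) L + uh B (y j) L) := by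
      rw [hit_eq_Ez, hX, sum_biUnion]
      · refine sum_congr rfl fun j hj => ?_
        rw [sum_pair (hK j hj).bt.ab, uh_Ez, uh_Ez]
      · intro j hj k hk hne
        refine disjoint_left.2 fun v hv hv' => ?_
        exact disjoint_left.1 (s.frm.mtp.tpk.pack.disj j (hK j hj).mT k (hK k hk).mT hne)
          (hxy j hj v hv) (hxy k hk v hv')
    rw [h3] at h2
    exact h2
  have h4 := sum_le_sum hleaf
  rw [sum_add_distrib, sum_add_distrib, sum_comm, ← mul_sum, ← mul_sum] at h4
  have h5 : ∑ j ∈ K, ∑ L ∈ C, (uh B (x j) L + uh B (y j) L) = ∑ j ∈ K, m j := by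
    refine sum_congr rfl fun j hj => ?_
    rw [(hK j hj).s_eq, sum_add_distrib]
    rfl
  rw [h5] at h4
  exact h4

/-- **a pair at a point leaf**, with or without full hits on the other leaves. -/
theorem pt5 (s : Stg B Q T U F P a) (hC : C ∈ P) {j : ι} {x y z : V} {m w : ℕ}
    (d : Cd B Q T U F P C j x y z m w) {p : V} (hp : {p} ∈ C) :
    uh B x {p} + uh B y {p} + 2 * ee B Q {p} ≤ 5 := by
  classical
  have hpF : ({p} : Finset V) ∈ F := (s.part.ptn.vc _ hC).sub hp
  have hx : x ∈ B j ∩ Q := by rw [d.bt.eq]; simp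
  have hy : y ∈ B j ∩ Q := by rw [d.bt.eq]; simp
  have h1 := s.frm.leaf_of hpF (mem_inter.1 hx).2 (mem_inter.1 hy).2
    ((s.frm.T_out d.mT hx).2 _ hpF) ((s.frm.T_out d.mT hy).2 _ hpF) (d.nbl _ hp)
    (fun i _ => (card_le_card inter_subset_right).trans (by rw [card_singleton]))
  have h7 : nt B {p} 1 ≤ 5 := by
    have h8 : (univ.filter (fun k => p ∈ B k)).card = 5 :=
      s.viol.reg p (s.frm.FQ hpF (mem_singleton_self p))
    rw [← h8]
    refine card_le_card fun i hi => ?_
    rw [mem_filter]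
    refine ⟨mem_univ _, ?_⟩
    have h9 : (B i ∩ {p}).Nonempty := card_pos.1 (by rw [mem_trs.1 hi]; omega)
    obtain ⟨t, ht⟩ := h9
    obtain ⟨h10, h11⟩ := mem_inter.1 ht
    exact mem_singleton.1 h11 ▸ h10
  omega

end Stg

end Pool.Agent.Hyp6
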