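import Pool.Agent.Hyp6.L3Y6
import Pool.Agent.Hyp6.L3Fr

/-!
# HYP6 L3Ya: the payments at a class which is not full

`pm_le_sL`: the payment of a line with own points. `Stg.trs_ge`: the payments of the remaining
triples, with centres.
-/

set_option autoImplicit false

namespace Pool.Agent.Hyp6

open Finset Pool.Agent.Hyp5 Rt

universe u v

variable {V : Type v} [DecidableEq V] {ι : Type u} [Fintype ι] [DecidableEq ι]
  {B : ι → Finset V}

/-- the lower bound for the payment of a line triple with own points, with `115` for every unit. -/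
def sL (h : ℕ) : ℤ :=
  if h = 0 then 300 else if h = 1 then 439 else if h ≤ 2 then 480 else if h ≤ 5 then 490 else 593

theorem pm_low (n : ℕ) : -161 ≤ pm n := by
  unfold pm
  split_ifs <;> omega

theorem sL_ge {h : ℕ} (h2 : 2 ≤ h) : 480 ≤ sL h := by
  unfold sL
  split_ifs <;> omega

/-- the payment of a line with own points is enough for its hits and the hits of its own points. -/
theorem pm_le_sL (h y : ℕ) (hy : 1 ≤ y) :
    560 + pm (h + y) + 24 * min ((y : ℤ) - 1) 2 ≤ sL h + 149 * (y : ℤ) := by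
  have h1 := pm_le (h + y)
  have hy' : (1 : ℤ) ≤ y := by exact_mod_cast hy
  have hm1 : min ((y : ℤ) - 1) 2 ≤ (y : ℤ) - 1 := min_le_left _ _
  have hm2 : min ((y : ℤ) - 1) 2 ≤ 2 := min_le_right _ _
  rcases (by omega : h = 0 ∨ h = 1 ∨ 2 ≤ h) with rfl | rfl | h2
  · rcases (by omega : y = 1 ∨ y = 2 ∨ 3 ≤ y) with rfl | rfl | h3
    · decide
    · decide
    · have h3' : (3 : ℤ) ≤ y := by exact_mod_cast h3
      have h4 : sL 0 = 300 := rfl
      rw [h4]
      linarith
  · rcases (by omega : y = 1 ∨ 2 ≤ y) with rfl | h3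
    · decide
    · have h3' : (2 : ℤ) ≤ y := by exact_mod_cast h3
      have h4 : sL 1 = 439 := rfl
      rw [h4]
      linarith
  · have h4 := sL_ge h2
    linarith

/-- the remaining triples which pay less than `149` for every hit at the class. -/
noncomputable def Bc (B : ι → Finset V) (Q : Finset V) (T : Finset ι) (U : Finset V)
    (F : Finset (Finset V)) (P : Finset (Finset (Finset V))) (C : Finset (Finset V)) : Finset ι :=
  (Trs B Q T (Rg B Q T U F) U F P).filter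
    (fun j => Xv 149 B Q T U F P j C < 149 * (jC B Q j C : ℤ))

namespace Stg

variable {Q U : Finset V} {T : Finset ι} {F : Finset (Finset V)}
  {P : Finset (Finset (Finset V))} {a : V → Finset (Finset V) → ℕ}

/-- the hits of the line triples, two forms. -/
theorem sum_at2 (s : Stg B Q T U F P a) {C : Finset (Finset V)} (hC : C ∈ P) :
    ∑ j ∈ Sp.at2 U (slf B F) (Rg B Q T U F) (slj B Q F) P C, (jC B Q j C : ℤ) =
      ∑ j ∈ aC B Q T U F P C, (jC B Q j C : ℤ) := by
  rw [← s.frm.sum_atl Rg_sub s.part hC]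
  refine sum_subset (filter_subset _ _) fun j hj hjn => ?_
  have hjR : j ∈ Rg B Q T U F := (mem_filter.1 (mem_filter.1 hj).1).1
  rw [s.frm.jC_zero s.part hC (Rg_sub hjR) fun hm => hjn (Sp.mem_at2.2 ⟨hj, ?_⟩)]
  · rfl
  · exact Sp.subset_clo Sp.met_subset hm

/-- **the data of a centre inside the class**: the triple is of type B with the centre in the class. -/
theorem Bc_data (s : Stg B Q T U F P a) {C : Finset (Finset V)} (hC : C ∈ P) {j : ι}
    (hj : j ∈ Bc B Q T U F P C) : j ∈ Trs B Q T (Rg B Q T U F) U F P ∧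
      ja B Q (Ep B Q T U F) j = 0 ∧ 5 ≤ ∑ L ∈ F, jh B Q j L ∧
      ∃ x y z D, BTc B Q T U F P j x y z D ∧ D ⊆ C ∧
        jC B Q j C = uC B x C + uC B y C + uC B z C ∧ uC B x C ≤ 4 ∧ uC B y C ≤ 4 ∧
        uC B z C ≤ ∑ C' ∈ P, uC B z C' ∧
        144 * (jC B Q j C : ℤ) - Xv 149 B Q T U F P j C =
          160 * ((uC B x C : ℤ) + uC B y C) + (144 - rB B Q T U F P x y z D) * (uC B z C : ℤ) +
            (16 + rB B Q T U F P x y z D) * ((∑ C' ∈ P, uC B z C' : ℕ) : ℤ) - 1320 +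
              80 * (ncl B Q T U F P j : ℤ) := by
  obtain ⟨hj, hlt⟩ := mem_filter.1 hj
  have h0 : (0 : ℤ) ≤ (jC B Q j C : ℤ) := by positivity
  have hjT := (s.frm.types_trs s.part hj).1
  rcases s.trs_term 149 hj hC with ⟨h1, _, h⟩ | ⟨_, h1, _, h⟩ | ⟨_, _, x, y, z, D, hB, hD, _, h⟩ |
    ⟨h1, h2, x, y, z, D, hB, hD, hj3, h4, hz, h⟩ | ⟨_, h5, h8, _, _, hn, h⟩ | ⟨_, h1, h⟩ |
    ⟨_, _, _, hn, _, h⟩
  · exfalso
    linarith
  · exfalso
    linarith
  · exfalso
    have hr := Frm.rB_ge (B := B) Q T U F P x y z D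
    have h5 : (144 - rB B Q T U F P x y z D) * (jC B Q j C : ℤ) ≤ -5 * (jC B Q j C : ℤ) :=
      mul_le_mul_of_nonneg_right (by linarith) h0
    linarith
  · have h4' : ∀ p ∈ B j ∩ Q, uC B p C ≤ 4 := by
      intro p hp
      have h6 := s.frm.four_t s.viol.reg hjT hp
      have h7 : uC B p C ≤ ∑ L ∈ F, uh B p L := by
        unfold uC
        exact sum_le_sum_of_subset (s.part.ptn.vc C hC).sub
      omega
    exact ⟨hj, h1, h2, x, y, z, D, hB, hD, hj3, h4' x (by rw [hB.eq]; simp),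
      h4' y (by rw [hB.eq]; simp), hz, h⟩
  · exfalso
    have h6 := vD_ge (v := 149) (by norm_num) (∑ L ∈ F, jh B Q j L)
    have h7 : (144 - vD 149 (∑ L ∈ F, jh B Q j L)) * (jC B Q j C : ℤ) ≤
      -5 * (jC B Q j C : ℤ) := mul_le_mul_of_nonneg_right (by linarith) h0
    linarith
  · exfalso
    linarith
  · exfalso
    have h6 := vC_ge (∑ L ∈ F, jh B Q j L)
    have h7 : (144 - vC 149 (∑ L ∈ F, jh B Q j L)) * (jC B Q j C : ℤ) ≤
      -5 * (jC B Q j C : ℤ) := mul_le_mul_of_nonneg_right (by linarith) h0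
    linarith

/-- without centre no triple pays less than `149` for every hit. -/
theorem Bc_of_nct (s : Stg B Q T U F P a) {C : Finset (Finset V)} (hC : C ∈ P)
    (hn : NCt B Q T U F P C) : Bc B Q T U F P C = ∅ := by
  rw [eq_empty_iff_forall_notMem]
  intro j hj
  obtain ⟨h1, h2, h3, x, y, z, D, hB, hD, _⟩ := s.Bc_data hC hj
  exact hn j h1 h2 h3 x y z D hB hD

/-- **the payments of the remaining triples at a class**: `sb j` is the number of hits of the two points
of a triple with the centre inside the class. -/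
theorem trs_ge (s : Stg B Q T U F P a) {C : Finset (Finset V)} (hC : C ∈ P) :
    ∃ sb : ι → ℕ, (∀ j ∈ Bc B Q T U F P C, sb j ≤ 8 ∧ sb j ≤ jC B Q j C) ∧
      149 * (∑ j ∈ Trs B Q T (Rg B Q T U F) U F P, (jC B Q j C : ℤ) -
          ∑ j ∈ Bc B Q T U F P C, (sb j : ℤ)) +
        ∑ j ∈ Bc B Q T U F P C, (584 - 16 * (sb j : ℤ)) ≤
      ∑ j ∈ Trs B Q T (Rg B Q T U F) U F P, Xv 149 B Q T U F P j C := by
  classical
  have hkey : ∀ j ∈ Bc B Q T U F P C, ∃ m : ℕ, m ≤ 8 ∧ m ≤ jC B Q j C ∧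
      149 * ((jC B Q j C : ℤ) - m) + (584 - 16 * (m : ℤ)) ≤ Xv 149 B Q T U F P j C := by
    intro j hj
    obtain ⟨_, _, _, x, y, z, D, hB, hD, hj3, hx4, hy4, hz, h⟩ := s.Bc_data hC hj
    have hr := Frm.rB_ge (B := B) Q T U F P x y z D
    have hr2 := Frm.rB_le (B := B) Q T U F P x y z D
    refine ⟨uC B x C + uC B y C, by omega, by omega, ?_⟩
    have hcc : ((∑ C' ∈ P, uC B z C' : ℕ) : ℤ) + (ncl B Q T U F P j : ℤ) ≤ 4 := by
      exact_mod_cast hB.cc
    have hz0 : (0 : ℤ) ≤ ((∑ C' ∈ P, uC B z C' : ℕ) : ℤ) := by positivity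
    have hn0 : (0 : ℤ) ≤ (ncl B Q T U F P j : ℤ) := by positivity
    have hzC : (0 : ℤ) ≤ (uC B z C : ℤ) := by positivity
    have e1 : (jC B Q j C : ℤ) = (uC B x C : ℤ) + uC B y C + uC B z C := by exact_mod_cast hj3
    rw [e1] at h ⊢
    generalize ((∑ C' ∈ P, uC B z C' : ℕ) : ℤ) = Z at *
    have h5 := mul_nonneg (sub_nonneg.2 hr) hzC
    have h6 := mul_nonneg (sub_nonneg.2 hr2) hz0
    push_cast
    linarith
  choose! m hm using hkey
  refine ⟨m, fun j hj => ⟨(hm j hj).1, (hm j hj).2.1⟩, ?_⟩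
  have hsub : Bc B Q T U F P C ⊆ Trs B Q T (Rg B Q T U F) U F P := filter_subset _ _
  have h1 := sum_le_sum fun j hj => (hm j hj).2.2
  have h2 : ∑ j ∈ Trs B Q T (Rg B Q T U F) U F P \ Bc B Q T U F P C,
      149 * (jC B Q j C : ℤ) ≤
      ∑ j ∈ Trs B Q T (Rg B Q T U F) U F P \ Bc B Q T U F P C, Xv 149 B Q T U F P j C := by
    refine sum_le_sum fun j hj => ?_
    obtain ⟨h3, h4⟩ := mem_sdiff.1 hj
    by_contra h5
    exact h4 (mem_filter.2 ⟨h3, not_le.1 h5⟩)
  rw [← sum_sdiff hsub (f := fun j => Xv 149 B Q T U F P j C),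
    ← sum_sdiff hsub (f := fun j => (jC B Q j C : ℤ))]
  rw [sum_add_distrib, ← mul_sum, sum_sub_distrib] at h1
  rw [← mul_sum] at h2
  linarith

end Stg

end Pool.Agent.Hyp6
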