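import Pool.Agent.Hyp6.L3Yp1
import Pool.Agent.Hyp6.L3Ya

/-!
# HYP6 L3Yp2: the centred triples of a composite class, with their points

`Cd`: the data of a triple of type B whose centre is the class `C`: the points `x`, `y` of the pair, the
third point `z`, the hits `s` of the pair, and the poor flag `w`. `Stg.trs_cd`: **the payments of the
remaining triples at a class without inside triples**, with these data.
-/

set_option autoImplicit false

namespace Pool.Agent.Hyp6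

open Finset Pool.Agent.Hyp5 Rt

universe u v

variable {V : Type v} [DecidableEq V] {ι : Type u} [Fintype ι]
  {B : ι → Finset V} {Q U : Finset V} {T : Finset ι} {F : Finset (Finset V)}
  {P : Finset (Finset (Finset V))} {C : Finset (Finset V)} {j : ι}

/-- a triple of type B with centre `C`, with `s` hits of the pair. -/
structure Cd [DecidableEq ι] (B : ι → Finset V) (Q : Finset V) (T : Finset ι) (U : Finset V)
    (F : Finset (Finset V)) (P : Finset (Finset (Finset V))) (C : Finset (Finset V)) (j : ι)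
    (x y z : V) (s w : ℕ) : Prop where
  mT : j ∈ T
  mTr : j ∈ Trs B Q T (Rg B Q T U F) U F P
  bt : BT B Q F (par0 B U F) j x y z C
  rk : 3 ≤ rkc B U F (par0 B U F) (mcj B Q F (par0 B U F) j)
  cc : ∑ D ∈ P, uC B z D + ncl B Q T U F P j ≤ 4
  jC3 : jC B Q j C = uC B x C + uC B y C + uC B z C
  s_eq : s = uC B x C + uC B y C
  x4 : uC B x C ≤ 4
  y4 : uC B y C ≤ 4
  w1 : w ≤ 1
  poor : w = 1 ↔ PoorF B x y C
  nbl : ∀ L ∈ C, ∀ i, x ∈ B i → y ∈ B i → B i ∩ L = ∅
  leaf : w = 0 → ∀ L ∈ C, uh B x L + uh B y L + 2 * ee B Q L ≤ nt B L 1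

/-- a leaf refuses the pair of a triple: no common block at the leaf. -/
theorem Frm.nbl_of (h : Frm B Q T U F) {L : Finset V} (hL : L ∈ F) {x y : V}
    (hr : rho B L + 1 ≤ rho B (L ∪ {x, y})) {i : ι} (hx : x ∈ B i) (hy : y ∈ B i) :
    B i ∩ L = ∅ := by
  classical
  by_contra hne
  obtain ⟨m, hm⟩ := nonempty_iff_ne_empty.2 hne
  obtain ⟨hmi, hmL⟩ := mem_inter.1 hm
  have h1 := h.crit_leaf' hL m hmL
  obtain ⟨T', hT1, hT2⟩ := exists_cover ((h.cov.mono (h.FQ hL)).mono (erase_subset m L))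
  have h2 : L ∪ {x, y} ⊆ (insert i T').biUnion B := by
    intro v hv
    rw [biUnion_insert]
    rcases mem_union.1 hv with h3 | h3
    · by_cases h4 : v = m
      · exact mem_union_left _ (h4 ▸ hmi)
      · exact mem_union_right _ (hT1 (mem_erase.2 ⟨h4, h3⟩))
    · rcases mem_insert.1 h3 with h4 | h4
      · exact mem_union_left _ (h4 ▸ hx)
      · exact mem_union_left _ (mem_singleton.1 h4 ▸ hy)
  have h3 := (Hyp6.rho_le h2).trans (card_insert_le i T')
  omega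

/-- **the hits of a refused pair without full hits**. -/
theorem Frm.leaf_of (h : Frm B Q T U F) {L : Finset V} (hL : L ∈ F) {x y : V} (hxQ : x ∈ Q)
    (hyQ : y ∈ Q) (hxL : x ∉ L) (hyL : y ∉ L)
    (hn : ∀ i, x ∈ B i → y ∈ B i → B i ∩ L = ∅)
    (h1 : ∀ i, (x ∈ B i ∨ y ∈ B i) → (B i ∩ L).card ≤ 1) :
    uh B x L + uh B y L + 2 * ee B Q L ≤ nt B L 1 := by
  classical
  rw [uh_Ez, uh_Ez]
  set S1 := (ins B Q L).filter (fun i => (B i ∩ Q).card = 1) with hS1
  have e1 : 2 * ee B Q L ≤ S1.card := two_ee_le Q L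
  have e2 : S1 ⊆ trs B L 1 := by
    intro i hi
    obtain ⟨hi1, hi2⟩ := mem_filter.1 hi
    obtain ⟨⟨v, hv⟩, hsub⟩ := mem_ins.1 hi1
    have hvL := hsub hv
    rw [mem_trs]
    refine le_antisymm ?_ (card_pos.2 ⟨v, mem_inter.2 ⟨(mem_inter.1 hv).1, hvL⟩⟩)
    rw [← hi2]
    exact card_le_card (inter_subset_inter_left (h.FQ hL))
  have e3 : ∀ v ∈ ({x, y} : Finset V), Ez B L v ⊆ trs B L 1 := by
    intro v hv i hi
    obtain ⟨h2, h3⟩ := mem_Ez.1 hi
    rw [mem_trs]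
    refine le_antisymm (h1 i ?_) (card_pos.2 h3)
    rcases mem_insert.1 hv with h4 | h4
    · exact Or.inl (h4 ▸ h2)
    · exact Or.inr (mem_singleton.1 h4 ▸ h2)
  have e4 : ∀ v ∈ ({x, y} : Finset V), v ∈ Q ∧ v ∉ L := by
    intro v hv
    rcases mem_insert.1 hv with h4 | h4
    · exact h4 ▸ ⟨hxQ, hxL⟩
    · exact mem_singleton.1 h4 ▸ ⟨hyQ, hyL⟩
  have e5 : ∀ v ∈ ({x, y} : Finset V), Disjoint (Ez B L v) S1 := by
    intro v hv
    refine disjoint_left.2 fun i hi hi' => ?_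
    obtain ⟨hi1, _⟩ := mem_filter.1 hi'
    obtain ⟨_, hsub⟩ := mem_ins.1 hi1
    obtain ⟨h6, h7⟩ := e4 v hv
    exact h7 (hsub (mem_inter.2 ⟨(mem_Ez.1 hi).1, h6⟩))
  have e6 : Disjoint (Ez B L x) (Ez B L y) := by
    refine disjoint_left.2 fun i hi hi' => ?_
    obtain ⟨h2, w, hw⟩ := mem_Ez.1 hi
    rw [hn i h2 (mem_Ez.1 hi').1] at hw
    exact notMem_empty _ hw
  have e7 : Disjoint (Ez B L x ∪ Ez B L y) S1 :=
    disjoint_union_left.2 ⟨e5 x (by simp), e5 y (by simp)⟩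
  have e8 := card_le_card (union_subset (union_subset (e3 x (by simp)) (e3 y (by simp))) e2)
  rw [card_union_of_disjoint e7, card_union_of_disjoint e6] at e8
  unfold nt
  omega

variable [DecidableEq ι] {a : V → Finset (Finset V) → ℕ}

namespace Stg

/-- the data of a centred triple at a class without inside triples. -/
theorem cd_of (s : Stg B Q T U F P a) (hC : C ∈ P) (h2 : 2 ≤ C.card)
    (hc : C.card = (Sp.Uin U (slf B F) C).card + 1) (hj : j ∈ Bc B Q T U F P C) :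
    ∃ x y z m w, Cd B Q T U F P C j x y z m w ∧
      144 * (jC B Q j C : ℤ) - Xv 149 B Q T U F P j C ≤
        -5 * ((jC B Q j C : ℤ) - m) + (160 * (m : ℤ) - 584 - 76 * (w : ℤ)) := by
  classical
  obtain ⟨hjt, hja, _, x, y, z, D, hB, hD, hj3, hx4, hy4, hz, h⟩ := s.Bc_data hC hj
  have hjT := (s.frm.types_trs s.part hjt).1
  have hDC : D = C := by
    by_contra hne
    obtain ⟨L, hL⟩ := hB.nb
    exact disjoint_left.1 (s.par.ptn.dj D hB.mem C (s.par_comp hC hc) hne) (hB.sb hL)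
      (hD (hB.sb hL))
  subst hDC
  have hCF : D ⊆ F := (s.part.ptn.vc _ hC).sub
  have hrk := s.rank_trs hjt hja (by
    obtain ⟨w, hw⟩ := hB.nb
    exact ⟨w, by rw [hB.toBT.slj_eq]; exact mem_union_left _ (mem_union_right _ hw)⟩)
  -- the refusal
  obtain ⟨M, hM, hMC⟩ := not_subset.1 hB.nsc
  obtain ⟨E, hE, hME⟩ := s.par.cls (slf_sub hM)
  have hne : D ≠ E := fun h1 => hMC (h1 ▸ hME)
  have mx : x ∈ B j ∩ Q := by rw [hB.eq]; simp
  have my : y ∈ B j ∩ Q := by rw [hB.eq]; simp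
  have mz : z ∈ B j ∩ Q := by rw [hB.eq]; simp
  have href : ∀ L ∈ D, rho B L + 1 ≤ rho B (L ∪ {x, y}) := fun L hL =>
    s.frm.refuse_leaf s.frm.sur s.par hB.mem hE hne hL hjT mz hME hM (X := {x, y}) (by
      intro v hv'
      rcases mem_insert.1 hv' with rfl | hv'
      · exact (mem_inter.1 mx).2
      · exact mem_singleton.1 hv' ▸ (mem_inter.1 my).2) (by
      rw [hB.eq]
      intro v hv'
      simp only [mem_insert, mem_singleton] at hv' ⊢
      tauto)
  have hn : ∀ L ∈ D, ∀ i, x ∈ B i → y ∈ B i → B i ∩ L = ∅ := fun L hL i h3 h4 =>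
    s.frm.nbl_of (hCF hL) (href L hL) h3 h4
  have hnP : ¬ PoorP B Q U F P x y z D := by
    rintro ⟨_, W, hW, _⟩
    rw [hW, card_singleton] at h2
    omega
  have hout : ∀ L ∈ D, x ∉ L ∧ y ∉ L := fun L hL =>
    ⟨(s.frm.T_out hjT mx).2 L (hCF hL), (s.frm.T_out hjT my).2 L (hCF hL)⟩
  have hcc : ((∑ C' ∈ P, uC B z C' : ℕ) : ℤ) + (ncl B Q T U F P j : ℤ) ≤ 4 := by
    exact_mod_cast hB.cc
  have hz0 : (0 : ℤ) ≤ ((∑ C' ∈ P, uC B z C' : ℕ) : ℤ) := by positivity
  have hn0 : (0 : ℤ) ≤ (ncl B Q T U F P j : ℤ) := by positivity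
  have hzC : (0 : ℤ) ≤ (uC B z D : ℤ) := by positivity
  have e1 : (jC B Q j D : ℤ) = (uC B x D : ℤ) + uC B y D + uC B z D := by exact_mod_cast hj3
  by_cases hp : PoorF B x y D
  · refine ⟨x, y, z, uC B x D + uC B y D, 1, ⟨hjT, hjt, hB.toBT, hrk, hB.cc, hj3, rfl, hx4, hy4,
      le_refl _, ⟨fun _ => hp, fun _ => rfl⟩, hn, fun h3 => by omega⟩, ?_⟩
    have hr : rB B Q T U F P x y z D = 149 := by
      unfold rB
      rw [if_pos hp]
    rw [hr] at h
    rw [e1] at h ⊢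
    generalize ((∑ C' ∈ P, uC B z C' : ℕ) : ℤ) = Z at *
    push_cast
    linarith
  · refine ⟨x, y, z, uC B x D + uC B y D, 0, ⟨hjT, hjt, hB.toBT, hrk, hB.cc, hj3, rfl, hx4, hy4,
      by omega, ⟨fun h3 => by omega, fun h3 => absurd h3 hp⟩, hn, fun _ L hL => ?_⟩, ?_⟩
    · refine s.frm.leaf_of (hCF hL) (mem_inter.1 mx).2 (mem_inter.1 my).2 (hout L hL).1
        (hout L hL).2 (hn L hL) fun i hi => ?_
      by_contra hcon
      exact hp ⟨L, hL, i, hi, by omega⟩
    · have hr : rB B Q T U F P x y z D = 168 := by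
        unfold rB
        rw [if_neg hp, if_neg hnP]
      rw [hr] at h
      rw [e1] at h ⊢
      generalize ((∑ C' ∈ P, uC B z C' : ℕ) : ℤ) = Z at *
      push_cast
      linarith

/-- **the payments of the remaining triples at a class without inside triples**, with the points of the
centred triples. -/
theorem trs_cd (s : Stg B Q T U F P a) (hC : C ∈ P) (h2 : 2 ≤ C.card)
    (hc : C.card = (Sp.Uin U (slf B F) C).card + 1) :
    ∃ (x y z : ι → V) (m w : ι → ℕ),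
      (∀ j ∈ Bc B Q T U F P C, Cd B Q T U F P C j (x j) (y j) (z j) (m j) (w j)) ∧
      ∑ j ∈ Bc B Q T U F P C, (m j : ℤ) ≤
        ∑ j ∈ Trs B Q T (Rg B Q T U F) U F P, (jC B Q j C : ℤ) ∧
      ∑ j ∈ Trs B Q T (Rg B Q T U F) U F P,
          (144 * (jC B Q j C : ℤ) - Xv 149 B Q T U F P j C) ≤
        -5 * (∑ j ∈ Trs B Q T (Rg B Q T U F) U F P, (jC B Q j C : ℤ) -
          ∑ j ∈ Bc B Q T U F P C, (m j : ℤ)) +
        ∑ j ∈ Bc B Q T U F P C, (160 * (m j : ℤ) - 584 - 76 * (w j : ℤ)) := by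
  classical
  have hV : Nonempty V := by
    by_contra hV
    rw [not_nonempty_iff] at hV
    have h3 := card_le_one_of_subsingleton C
    omega
  have hkey := fun j hj => s.cd_of (j := j) hC h2 hc hj
  choose! x y z m w hm using hkey
  have hsub : Bc B Q T U F P C ⊆ Trs B Q T (Rg B Q T U F) U F P := filter_subset _ _
  refine ⟨x, y, z, m, w, fun j hj => (hm j hj).1, ?_, ?_⟩
  · have e1 : ∑ j ∈ Bc B Q T U F P C, (m j : ℤ) ≤ ∑ j ∈ Bc B Q T U F P C, (jC B Q j C : ℤ) := by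
      refine sum_le_sum fun j hj => ?_
      have h1 := (hm j hj).1
      have h3 := h1.jC3
      have h4 := h1.s_eq
      have h5 : m j ≤ jC B Q j C := by omega
      exact_mod_cast h5
    exact e1.trans (sum_le_sum_of_subset_of_nonneg hsub fun _ _ _ => by positivity)
  · have h1 := sum_le_sum fun j hj => (hm j hj).2
    have h3 : ∑ j ∈ Trs B Q T (Rg B Q T U F) U F P \ Bc B Q T U F P C,
        (144 * (jC B Q j C : ℤ) - Xv 149 B Q T U F P j C) ≤
        ∑ j ∈ Trs B Q T (Rg B Q T U F) U F P \ Bc B Q T U F P C, -5 * (jC B Q j C : ℤ) := by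
      refine sum_le_sum fun j hj => ?_
      obtain ⟨h3, h4⟩ := mem_sdiff.1 hj
      have h5 : ¬ Xv 149 B Q T U F P j C < 149 * (jC B Q j C : ℤ) := fun h6 =>
        h4 (mem_filter.2 ⟨h3, h6⟩)
      push Not at h5
      linarith
    rw [← sum_sdiff hsub (f := fun j => 144 * (jC B Q j C : ℤ) - Xv 149 B Q T U F P j C),
      ← sum_sdiff hsub (f := fun j => (jC B Q j C : ℤ))]
    rw [← mul_sum] at h3
    have h4 : ∑ j ∈ Bc B Q T U F P C, (-5 * ((jC B Q j C : ℤ) - m j) +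
        (160 * (m j : ℤ) - 584 - 76 * (w j : ℤ))) =
        -5 * (∑ j ∈ Bc B Q T U F P C, (jC B Q j C : ℤ) - ∑ j ∈ Bc B Q T U F P C, (m j : ℤ)) +
        ∑ j ∈ Bc B Q T U F P C, (160 * (m j : ℤ) - 584 - 76 * (w j : ℤ)) := by
      rw [sum_add_distrib, ← mul_sum, sum_sub_distrib]
    rw [h4] at h1
    linarith

/-- **two centred triples at a class of two point leaves**. -/
theorem ka2_cd (s : Stg B Q T U F P a) {p q u : V} (hpq : p ≠ q)
    (hC : ({{p}, {q}} : Finset (Finset V)) ∈ P) (hU : Sp.Uin U (slf B F) {{p}, {q}} = {u})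
    {i : ι} (hij : i ≠ j) {x y z x' y' z' : V} {m w m' w' : ℕ}
    (h1 : Cd B Q T U F P {{p}, {q}} i x y z m w) (h2 : Cd B Q T U F P {{p}, {q}} j x' y' z' m' w') :
    m + m' ≤ 12 + lsC B Q T U F {{p}, {q}} := by
  have h3 := s.ka2 hpq hC hU h1.mT h2.mT hij h1.bt h2.bt (Subset.refl _) (Subset.refl _) h2.rk
  rw [h1.s_eq, h2.s_eq]
  exact h3

end Stg

end Pool.Agent.Hyp6
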