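import Pool.Agent.Hyp6.L3Yl
import Pool.Agent.Hyp6.L3Yp2

/-!
# HYP6 L3Nx: a centred triple as the second triple of a class

`Stg.sum_xg`: the other hits of a class for any two triples. `cost_tC`: the need of a centred triple is
at most `tC` of its hits, but for one case.
-/

set_option autoImplicit false

namespace Pool.Agent.Hyp6

open Finset Pool.Agent.Hyp5 Rt

universe u v

variable {V : Type v} [DecidableEq V] {ι : Type u} [Fintype ι] [DecidableEq ι]
  {B : ι → Finset V} {Q U : Finset V} {T : Finset ι} {F C : Finset (Finset V)}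
  {P : Finset (Finset (Finset V))} {a : V → Finset (Finset V) → ℕ} {i j : ι}

theorem cost_dec : ∀ m ∈ range 9, ∀ z ∈ range 5, ∀ w ∈ range 2,
    -5 * (z : ℤ) + (160 * (m : ℤ) - 584 - 76 * (w : ℤ)) ≤
      tC (m + z) + (if w = 0 ∧ z = 0 ∧ 5 ≤ m then 71 else 0) := by
  decide

/-- the need of a centred triple. -/
theorem cost_tC {m z w : ℕ} (hm : m ≤ 8) (hz : z ≤ 4) (hw : w ≤ 1) {c : ℤ}
    (hc : c ≤ -5 * (z : ℤ) + (160 * (m : ℤ) - 584 - 76 * (w : ℤ))) :
    c ≤ tC (m + z) + (if w = 0 ∧ z = 0 ∧ 5 ≤ m then 71 else 0) :=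
  hc.trans (cost_dec m (mem_range.2 (by omega)) z (mem_range.2 (by omega)) w
    (mem_range.2 (by omega)))

namespace Stg

/-- **the other hits of a class** for any two triples. -/
theorem sum_xg (s : Stg B Q T U F P a) (hC : C ∈ P) (hK : KC B Q T U F C = ∅) (hi : i ∈ T)
    (hj : j ∈ T) (hij : i ≠ j) :
    ∑ L ∈ C, (hit B (Rso B Q U F i j C L) L : ℤ) + jC B Q i C + jC B Q j C =
      ∑ k ∈ Trs B Q T (Rg B Q T U F) U F P, (jC B Q k C : ℤ) +
        ∑ k ∈ aC B Q T U F P C, (jC B Q k C : ℤ) + gC B U F P C := by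
  have hCF : C ⊆ F := (s.part.ptn.vc C hC).sub
  have h1 := s.frm.sum_hitT s.viol.reg Rg_sub s.part hC
  have h2 := s.frm.sum_hitU s.viol.reg s.part hC
  have h3 := s.sum_at2 hC
  have h4 := s.sum_y hC
  have h5 : ∀ L ∈ C, (hit B (Rso B Q U F i j C L) L : ℤ) = (∑ j ∈ T, (jh B Q j L : ℤ)) +
      hit B U L - ((jh B Q i L : ℤ) + jh B Q j L) - hit B (Sp.Uin U (slf B F) C) L := by
    intro L hL
    have h6 := s.hit_all (hCF hL)
    have h7 := s.frm.hit_parts4 (C := C) hi hj hij (hCF hL)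
    rw [h7] at h6
    push_cast at h6
    linarith
  rw [sum_congr rfl h5, sum_sub_distrib, sum_sub_distrib, sum_add_distrib, sum_add_distrib]
  have hK' : Sp.Kin (Rg B Q T U F) (slj B Q F) C = ∅ := hK
  rw [hK', sum_empty, h3] at h1
  have h8 : ∀ k, (jC B Q k C : ℤ) = ∑ L ∈ C, (jh B Q k L : ℤ) := by
    intro k
    unfold jC
    push_cast
    rfl
  rw [h8 i, h8 j]
  linarith

/-- **the other hits of a class with one line triple** `j`, for the triple `i`. -/
theorem sum_x1 (s : Stg B Q T U F P a) (hC : C ∈ P) (hK : KC B Q T U F C = ∅) (hi : i ∈ T)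
    (hj : j ∈ T) (hij : i ≠ j) (ha : aC B Q T U F P C = {j}) :
    ∑ L ∈ C, (hit B (Rso B Q U F i j C L) L : ℤ) + jC B Q i C =
      ∑ k ∈ Trs B Q T (Rg B Q T U F) U F P, (jC B Q k C : ℤ) + gC B U F P C := by
  have h1 := s.sum_xg hC hK hi hj hij
  rw [ha, sum_singleton] at h1
  linarith

/-- a centred triple sees a leaf outside the class. -/
theorem cd_out {x y z : V} {m w : ℕ} (d : Cd B Q T U F P C i x y z m w) :
    ¬ slj B Q F i ⊆ C := by
  intro h1
  refine d.bt.nsc fun L hL => h1 ?_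
  unfold slj
  exact mem_biUnion.2 ⟨z, by rw [d.bt.eq]; simp, hL⟩

/-- the hits of a centred triple. -/
theorem cd_le {x y z : V} {m w : ℕ} (s : Stg B Q T U F P a) (hC : C ∈ P)
    (d : Cd B Q T U F P C i x y z m w) :
    m ≤ 8 ∧ uC B z C ≤ 4 ∧ jC B Q i C = m + uC B z C := by
  have h1 := d.x4
  have h2 := d.y4
  have h3 := d.s_eq
  have h4 := d.jC3
  have h5 := d.cc
  have h6 : uC B z C ≤ ∑ D ∈ P, uC B z D :=
    single_le_sum (f := fun D => uC B z D) (fun _ _ => Nat.zero_le _) hC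
  omega

/-- **the need of a centred triple**: at most `tC`, but for a pair without full hits and at least five
hits whose third point has no hit on the class. -/
theorem cd_cost (s : Stg B Q T U F P a) (hC : C ∈ P) {x y z : V} {m w : ℕ}
    (d : Cd B Q T U F P C i x y z m w) {c : ℤ}
    (hc : c ≤ -5 * ((jC B Q i C : ℤ) - m) + (160 * (m : ℤ) - 584 - 76 * (w : ℤ))) :
    c ≤ tC (jC B Q i C) + (if w = 0 ∧ uC B z C = 0 ∧ 5 ≤ m then 71 else 0) := by
  obtain ⟨h1, h2, h3⟩ := s.cd_le hC d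
  rw [h3]
  refine cost_tC h1 h2 d.w1 (hc.trans (le_of_eq ?_))
  rw [h3]
  push_cast
  ring

end Stg

end Pool.Agent.Hyp6
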