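import Mathlib

/-!
# HYP6 L3P5n: five points of degree five, numbers

A multigraph on five points with twelve edges and one half edge, in which three `x`-edges and three
`z`-edges are marked so that no `x`-edge, no `z`-edge and no third edge cover the five points
together: it does not exist.
-/

set_option autoImplicit false

namespace Pool.Agent.Hyp6

open Finset

universe v

variable {V : Type v} [DecidableEq V]

/-- a labelling of five points. -/
structure Lab5 (L : Finset V) (v a b c d : V) : Prop where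
  eq : L = {v, a, b, c, d}
  va : v ≠ a
  vb : v ≠ b
  vc : v ≠ c
  vd : v ≠ d
  ab : a ≠ b
  ac : a ≠ c
  ad : a ≠ d
  bc : b ≠ c
  bd : b ≠ d
  cd : c ≠ d

namespace Lab5

variable {L : Finset V} {v a b c d : V}

theorem s1 (h : Lab5 L v a b c d) : Lab5 L a v b c d :=
  ⟨by rw [h.eq]; ext w; simp only [mem_insert, mem_singleton]; tauto,
    h.va.symm, h.ab, h.ac, h.ad, h.vb, h.vc, h.vd, h.bc, h.bd, h.cd⟩

theorem s2 (h : Lab5 L v a b c d) : Lab5 L v b a c d :=
  ⟨by rw [h.eq]; ext w; simp only [mem_insert, mem_singleton]; tauto,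
    h.vb, h.va, h.vc, h.vd, h.ab.symm, h.bc, h.bd, h.ac, h.ad, h.cd⟩

theorem s3 (h : Lab5 L v a b c d) : Lab5 L v a c b d :=
  ⟨by rw [h.eq]; ext w; simp only [mem_insert, mem_singleton]; tauto,
    h.va, h.vc, h.vb, h.vd, h.ac, h.ab, h.ad, h.bc.symm, h.cd, h.bd⟩

theorem s4 (h : Lab5 L v a b c d) : Lab5 L v a b d c :=
  ⟨by rw [h.eq]; ext w; simp only [mem_insert, mem_singleton]; tauto,
    h.va, h.vb, h.vd, h.vc, h.ab, h.ad, h.ac, h.bd, h.bc, h.cd.symm⟩

theorem mv (h : Lab5 L v a b c d) : v ∈ L := by rw [h.eq]; simp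

theorem ma (h : Lab5 L v a b c d) : a ∈ L := by rw [h.eq]; simp

theorem mb (h : Lab5 L v a b c d) : b ∈ L := by rw [h.eq]; simp

theorem mc (h : Lab5 L v a b c d) : c ∈ L := by rw [h.eq]; simp

theorem md (h : Lab5 L v a b c d) : d ∈ L := by rw [h.eq]; simp

theorem card (h : Lab5 L v a b c d) : L.card = 5 := by
  rw [h.eq, card_insert_of_notMem, card_insert_of_notMem, card_insert_of_notMem, card_pair h.cd]
  · simp [h.bc, h.bd]
  · simp [h.ab, h.ac, h.ad]
  · simp [h.va, h.vb, h.vc, h.vd]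

end Lab5

theorem exists_lab5 {L : Finset V} (h : L.card = 5) : ∃ v a b c d, Lab5 L v a b c d := by
  obtain ⟨v, hv⟩ := card_pos.1 (by omega : 0 < L.card)
  have h1 : (L.erase v).card = 4 := by rw [card_erase_of_mem hv]; omega
  obtain ⟨a, ha⟩ := card_pos.1 (by omega : 0 < (L.erase v).card)
  have h2 : ((L.erase v).erase a).card = 3 := by rw [card_erase_of_mem ha]; omega
  obtain ⟨b, c, d, hbc, hbd, hcd, h3⟩ := card_eq_three.1 h2
  have hb : b ∈ (L.erase v).erase a := by rw [h3]; simp
  have hc : c ∈ (L.erase v).erase a := by rw [h3]; simp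
  have hd : d ∈ (L.erase v).erase a := by rw [h3]; simp
  simp only [mem_erase] at ha hb hc hd
  refine ⟨v, a, b, c, d, ?_, ha.1.symm, hb.2.1.symm, hc.2.1.symm, hd.2.1.symm, hb.1.symm,
    hc.1.symm, hd.1.symm, hbc, hbd, hcd⟩
  ext w
  simp only [mem_insert, mem_singleton]
  constructor
  · intro hw
    by_cases h4 : w = v
    · exact Or.inl h4
    by_cases h5 : w = a
    · exact Or.inr (Or.inl h5)
    have h6 : w ∈ (L.erase v).erase a := mem_erase.2 ⟨h5, mem_erase.2 ⟨h4, hw⟩⟩
    rw [h3] at h6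
    simp only [mem_insert, mem_singleton] at h6
    exact Or.inr (Or.inr h6)
  · rintro (rfl | rfl | rfl | rfl | rfl)
    · exact hv
    · exact ha.2
    · exact hb.2.2
    · exact hc.2.2
    · exact hd.2.2

/-- the numbers of the blocks of a leaf with five points and of the blocks of two points. -/
structure N51 (L : Finset V) (m x z : V → V → ℕ) (t xt zt : V → ℕ) : Prop where
  symm : ∀ p q, m p q = m q p
  symx : ∀ p q, x p q = x q p
  symz : ∀ p q, z p q = z q p
  le : ∀ p q, p ∈ L → q ∈ L → p ≠ q → x p q + z p q ≤ m p q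
  deg : ∀ {v a b c d}, Lab5 L v a b c d → m v a + m v b + m v c + m v d + t v = 5
  tt : ∀ {v a b c d}, Lab5 L v a b c d → t v + t a + t b + t c + t d = 1
  tle : ∀ p ∈ L, xt p + zt p ≤ t p
  sx : ∀ {v a b c d}, Lab5 L v a b c d → 3 ≤ x v a + x v b + x v c + x v d + x a b + x a c +
    x a d + x b c + x b d + x c d + xt v + xt a + xt b + xt c + xt d
  sz : ∀ {v a b c d}, Lab5 L v a b c d → 3 ≤ z v a + z v b + z v c + z v d + z a b + z a c +
    z a d + z b c + z b d + z c d + zt v + zt a + zt b + zt c + zt d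
  r1 : ∀ {v a b c d}, Lab5 L v a b c d → x v a = 0 ∨ z b c = 0
  r2 : ∀ {v a b c d}, Lab5 L v a b c d → x v a = 0 ∨ z v b = 0 ∨ m c d = 0
  r3 : ∀ {v a b c d}, Lab5 L v a b c d → xt v = 0 ∨ z a b = 0 ∨ m c d = 0
  r4 : ∀ {v a b c d}, Lab5 L v a b c d → zt v = 0 ∨ x a b = 0 ∨ m c d = 0

namespace N51

variable {L : Finset V} {m x z : V → V → ℕ} {t xt zt : V → ℕ} {v a b c d : V}

theorem swap (h : N51 L m x z t xt zt) : N51 L m z x t zt xt where
  symm := h.symm
  symx := h.symz
  symz := h.symx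
  le := fun p q hp hq hpq => by have := h.le p q hp hq hpq; omega
  deg := h.deg
  tt := h.tt
  tle := fun p hp => by have := h.tle p hp; omega
  sx := h.sz
  sz := h.sx
  r1 := fun l => (h.r1 (l.s2.s1.s3.s2)).symm
  r2 := fun l => by
    have e := h.r2 l.s2
    tauto
  r3 := h.r4
  r4 := h.r3
theorem gv (h : N51 L m x z t xt zt) (l : Lab5 L v a b c d) :
    m v a + m v b + m v c + m v d + t v = 5 := by
  have e := h.deg (l)
  omega

theorem ga (h : N51 L m x z t xt zt) (l : Lab5 L v a b c d) :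
    m v a + m a b + m a c + m a d + t a = 5 := by
  have e := h.deg (l.s1)
  rw [h.symm a v] at e
  omega

theorem gb (h : N51 L m x z t xt zt) (l : Lab5 L v a b c d) :
    m v b + m a b + m b c + m b d + t b = 5 := by
  have e := h.deg (l.s2.s1)
  rw [h.symm b v, h.symm b a] at e
  omega

theorem gc (h : N51 L m x z t xt zt) (l : Lab5 L v a b c d) :
    m v c + m a c + m b c + m c d + t c = 5 := by
  have e := h.deg (l.s3.s2.s1)
  rw [h.symm c v, h.symm c a, h.symm c b] at e
  omega

theorem gd (h : N51 L m x z t xt zt) (l : Lab5 L v a b c d) :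
    m v d + m a d + m b d + m c d + t d = 5 := by
  have e := h.deg (l.s4.s3.s2.s1)
  rw [h.symm d v, h.symm d a, h.symm d b, h.symm d c] at e
  omega

/-- neither point uses the half edge. -/
theorem c1 (h : N51 L m x z t xt zt) (h0 : ∀ p ∈ L, zt p = 0) (l : Lab5 L v a b c d)
    (h1 : x v a ≠ 0) (h2 : z v b ≠ 0) : x b c = 0 := by
  by_contra h3
  have mcd : m c d = 0 := ((h.r2 (l)).resolve_left h1).resolve_left h2
  have mad : m a d = 0 := (by
          have e := h.r2 (l.s2.s1.s3.s2)
          rw [h.symz b v] at e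
          exact (e.resolve_left h3).resolve_left h2)
  have zbc : z b c = 0 := (h.r1 (l)).resolve_left h1
  have zbd : z b d = 0 := (h.r1 (l.s4)).resolve_left h1
  have zcd : z c d = 0 := (h.r1 (l.s3.s4)).resolve_left h1
  have zva : z v a = 0 := (h.r1 (l.s2.s1.s3.s2)).resolve_left h3
  have zvd : z v d = 0 := (h.r1 (l.s2.s1.s3.s2.s4)).resolve_left h3
  have zad : z a d = 0 := (h.r1 (l.s2.s1.s3.s2.s3.s4)).resolve_left h3
  have gd := h.gd l
  have gb := h.gb l
  have gv := h.gv l
  have tt := h.tt l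
  have lva := h.le v a l.mv l.ma l.va
  have lvb := h.le v b l.mv l.mb l.vb
  have lbc := h.le b c l.mb l.mc l.bc
  by_cases c1 : z a b = 0
  · by_cases c2 : z v c = 0
    · by_cases c3 : z a c = 0
      · have k := h.sz l
        have z1 := h0 v l.mv
        have z2 := h0 a l.ma
        have z3 := h0 b l.mb
        have z4 := h0 c l.mc
        have z5 := h0 d l.md
        have k3 : 3 ≤ z v b := by omega
        clear k z1 z2 z3 z4 z5
        omega
      · have mbd : m b d = 0 := (by
          have e := h.r2 (l.s1.s3)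
          rw [h.symx a v] at e
          exact (e.resolve_left h1).resolve_left c3)
        omega
    · have mbd : m b d = 0 := ((h.r2 (l.s3)).resolve_left h1).resolve_left c2
      omega
  · have mvd : m v d = 0 := (by
          have e := h.r2 (l.s2.s1.s3.s2.s3)
          rw [h.symz b a] at e
          exact (e.resolve_left h3).resolve_left c1)
    have lab := h.le a b l.ma l.mb l.ab
    omega

theorem c2 (h : N51 L m x z t xt zt) (h0 : ∀ p ∈ L, xt p = 0) (h0' : ∀ p ∈ L, zt p = 0)
    (l : Lab5 L v a b c d) (h1 : x v a ≠ 0) (h2 : z v b ≠ 0) : False := by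
  have xbc := h.c1 h0' l h1 h2
  have xbd := h.c1 h0' (l.s4) h1 h2
  have zac := h.swap.c1 h0 (l.s2) h2 h1
  have zad := h.swap.c1 h0 (l.s2.s4) h2 h1
  have zbc : z b c = 0 := (h.r1 (l)).resolve_left h1
  have zbd : z b d = 0 := (h.r1 (l.s4)).resolve_left h1
  have zcd : z c d = 0 := (h.r1 (l.s3.s4)).resolve_left h1
  have xac : x a c = 0 := (h.r1 (l.s1.s3.s2)).resolve_right h2
  have xad : x a d = 0 := (h.r1 (l.s1.s4.s3.s2)).resolve_right h2
  have xcd : x c d = 0 := (h.r1 (l.s3.s2.s1.s4.s3.s2.s4)).resolve_right h2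
  have mcd : m c d = 0 := ((h.r2 (l)).resolve_left h1).resolve_left h2
  have kz : 3 ≤ z v a + z v b + z a b + z v c + z v d := by
    have k := h.sz l
    have z1 := h0' v l.mv
    have z2 := h0' a l.ma
    have z3 := h0' b l.mb
    have z4 := h0' c l.mc
    have z5 := h0' d l.md
    omega
  have kx : 3 ≤ x v a + x v b + x a b + x v c + x v d := by
    have k := h.sx l
    have z1 := h0 v l.mv
    have z2 := h0 a l.ma
    have z3 := h0 b l.mb
    have z4 := h0 c l.mc
    have z5 := h0 d l.md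
    omega
  have gd := h.gd l
  have gc := h.gc l
  have gv := h.gv l
  have ga := h.ga l
  have gb := h.gb l
  have tt := h.tt l
  have lva := h.le v a l.mv l.ma l.va
  have lvb := h.le v b l.mv l.mb l.vb
  have lvc := h.le v c l.mv l.mc l.vc
  have lvd := h.le v d l.mv l.md l.vd
  have lab := h.le a b l.ma l.mb l.ab
  by_cases c1 : x a b = 0
  · by_cases c2 : z a b = 0
    · omega
    · have xvc : x v c = 0 := (h.r1 (l.s3.s2)).resolve_right c2
      have xvd : x v d = 0 := (h.r1 (l.s4.s3.s2)).resolve_right c2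
      omega
  · have zvc : z v c = 0 := (h.r1 (l.s1.s2)).resolve_left c1
    have zvd : z v d = 0 := (h.r1 (l.s1.s2.s4)).resolve_left c1
    omega

theorem c3 (h : N51 L m x z t xt zt) (h0 : ∀ p ∈ L, xt p = 0) (h0' : ∀ p ∈ L, zt p = 0)
    (hn : ∀ {v a b c d}, Lab5 L v a b c d → x v a = 0 ∨ z v b = 0)
    (l : Lab5 L v a b c d) : x v a = 0 := by
  by_contra h1
  have k3 : 3 ≤ z v a := by
    have zvb : z v b = 0 := (hn (l)).resolve_left h1
    have zab : z a b = 0 := (by
          have e := hn (l.s1)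
          rw [h.symx a v] at e
          exact e.resolve_left h1)
    have zvc : z v c = 0 := (hn (l.s3)).resolve_left h1
    have zac : z a c = 0 := (by
          have e := hn (l.s1.s3)
          rw [h.symx a v] at e
          exact e.resolve_left h1)
    have zvd : z v d = 0 := (hn (l.s4.s3)).resolve_left h1
    have zad : z a d = 0 := (by
          have e := hn (l.s1.s4.s3)
          rw [h.symx a v] at e
          exact e.resolve_left h1)
    have zbc : z b c = 0 := (h.r1 (l)).resolve_left h1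
    have zbd : z b d = 0 := (h.r1 (l.s4)).resolve_left h1
    have zcd : z c d = 0 := (h.r1 (l.s3.s4)).resolve_left h1
    have k := h.sz l
    have y1 := h0' v l.mv
    have y2 := h0' a l.ma
    have y3 := h0' b l.mb
    have y4 := h0' c l.mc
    have y5 := h0' d l.md
    omega
  have h2 : z v a ≠ 0 := by omega
  have k4 : 3 ≤ x v a := by
    have xvb : x v b = 0 := (hn (l.s2)).resolve_right h2
    have xab : x a b = 0 := (by
          have e := hn (l.s1.s2)
          rw [h.symz a v] at e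
          exact e.resolve_right h2)
    have xvc : x v c = 0 := (hn (l.s3.s2)).resolve_right h2
    have xac : x a c = 0 := (by
          have e := hn (l.s1.s3.s2)
          rw [h.symz a v] at e
          exact e.resolve_right h2)
    have xvd : x v d = 0 := (hn (l.s4.s3.s2)).resolve_right h2
    have xad : x a d = 0 := (by
          have e := hn (l.s1.s4.s3.s2)
          rw [h.symz a v] at e
          exact e.resolve_right h2)
    have xbc : x b c = 0 := (h.r1 (l.s2.s1.s3.s2)).resolve_right h2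
    have xbd : x b d = 0 := (h.r1 (l.s2.s1.s4.s3.s2)).resolve_right h2
    have xcd : x c d = 0 := (h.r1 (l.s3.s2.s1.s4.s3.s2)).resolve_right h2
    have k := h.sx l
    have y1 := h0 v l.mv
    have y2 := h0 a l.ma
    have y3 := h0 b l.mb
    have y4 := h0 c l.mc
    have y5 := h0 d l.md
    omega
  have gv := h.gv l
  have lva := h.le v a l.mv l.ma l.va
  omega

/-- **neither point uses the half edge.** -/
theorem c4 (h : N51 L m x z t xt zt) (h0 : ∀ p ∈ L, xt p = 0) (h0' : ∀ p ∈ L, zt p = 0)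
    (l : Lab5 L v a b c d) : False := by
  have hn : ∀ {v a b c d}, Lab5 L v a b c d → x v a = 0 ∨ z v b = 0 := by
    intro v a b c d l'
    by_contra hc
    rw [not_or] at hc
    exact h.c2 h0 h0' l' hc.1 hc.2
  have k2 := h.sx l
  have z1 := h0 v l.mv
  have z2 := h0 a l.ma
  have z3 := h0 b l.mb
  have z4 := h0 c l.mc
  have z5 := h0 d l.md
  have f0 := h.c3 h0 h0' hn (l)
  have f1 := h.c3 h0 h0' hn (l.s2)
  have f2 := h.c3 h0 h0' hn (l.s3.s2)
  have f3 := h.c3 h0 h0' hn (l.s4.s3.s2)
  have f4 := h.c3 h0 h0' hn (l.s1.s2)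
  have f5 := h.c3 h0 h0' hn (l.s1.s3.s2)
  have f6 := h.c3 h0 h0' hn (l.s1.s4.s3.s2)
  have f7 := h.c3 h0 h0' hn (l.s2.s1.s3.s2)
  have f8 := h.c3 h0 h0' hn (l.s2.s1.s4.s3.s2)
  have f9 := h.c3 h0 h0' hn (l.s3.s2.s1.s4.s3.s2)
  omega

theorem tf (h : N51 L m x z t xt zt) (l : Lab5 L v a b c d) (h0 : xt v ≠ 0) :
    t v = 1 ∧ t a = 0 ∧ t b = 0 ∧ t c = 0 ∧ t d = 0 ∧ zt v = 0 ∧ zt a = 0 ∧
      zt b = 0 ∧ zt c = 0 ∧ zt d = 0 ∧ xt v = 1 ∧ xt a = 0 ∧ xt b = 0 ∧ xt c = 0 ∧ xt d = 0 := by
  have tt := h.tt l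
  have e1 := h.tle v l.mv
  have e2 := h.tle a l.ma
  have e3 := h.tle b l.mb
  have e4 := h.tle c l.mc
  have e5 := h.tle d l.md
  refine ⟨?_, ?_, ?_, ?_, ?_, ?_, ?_, ?_, ?_, ?_, ?_, ?_, ?_, ?_, ?_⟩ <;> omega

/-- the first point uses the half edge at `v`. -/
theorem d1 (h : N51 L m x z t xt zt) (l : Lab5 L v a b c d) (h0 : xt v ≠ 0) (h1 : z a b ≠ 0)
    (h2 : x a c ≠ 0) : False := by
  obtain ⟨tv, ta, tb, tc, td, zv, za, zb, zc, zd, xv, xa, xb, xc, xd⟩ := h.tf l h0
  have mcd : m c d = 0 := ((h.r3 (l)).resolve_left h0).resolve_left h1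
  have mvd : m v d = 0 := ((h.r2 (l.s1.s3.s2.s3)).resolve_left h2).resolve_left h1
  have gv := h.gv l
  have ga := h.ga l
  have gb := h.gb l
  have gc := h.gc l
  have gd := h.gd l
  rw [tv, mvd] at gv
  rw [ta] at ga
  rw [tb] at gb
  rw [tc, mcd] at gc
  rw [td, mcd, mvd] at gd
  have lab := h.le a b l.ma l.mb l.ab
  have lac := h.le a c l.ma l.mc l.ac
  have lad := h.le a d l.ma l.md l.ad
  have lva := h.le v a l.mv l.ma l.va
  have zvb : z v b = 0 := (h.r1 (l.s1.s3.s2)).resolve_left h2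
  have zbd : z b d = 0 := (h.r1 (l.s1.s3.s2.s3.s4)).resolve_left h2
  have zvd : z v d = 0 := (h.r1 (l.s1.s3.s2.s4)).resolve_left h2
  have zac : z a c = 0 := by
    by_contra c1
    have mbd : m b d = 0 := ((h.r3 (l.s3)).resolve_left h0).resolve_left c1
    omega
  have zbc : z b c = 0 := by
    by_contra c1
    have mad : m a d = 0 := ((h.r3 (l.s2.s3)).resolve_left h0).resolve_left c1
    omega
  have zvc : z v c = 0 := by
    by_contra c1
    have mbd : m b d = 0 := (by
          have e := h.r2 (l.s3.s2.s1.s2)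
          rw [h.symx c a, h.symz c v] at e
          exact (e.resolve_left h2).resolve_left c1)
    omega
  have zva : z v a = 0 := by
    by_contra c1
    have mbd : m b d = 0 := (by
          have e := h.r2 (l.s1.s3.s2)
          rw [h.symz a v] at e
          exact (e.resolve_left h2).resolve_left c1)
    omega
  have lcd := h.le c d l.mc l.md l.cd
  have zcd : z c d = 0 := by omega
  have kz : 3 ≤ z a b + z a d := by
    have k := h.sz l
    omega
  have zad : z a d ≠ 0 := by
    intro c1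
    omega
  have mbc : m b c = 0 := ((h.r3 (l.s4.s3)).resolve_left h0).resolve_left zad
  have mvb : m v b = 0 := ((h.r2 (l.s1.s3.s2.s4.s3)).resolve_left h2).resolve_left zad
  have lbc := h.le b c l.mb l.mc l.bc
  have lvb := h.le v b l.mv l.mb l.vb
  have lvc := h.le v c l.mv l.mc l.vc
  have lvd := h.le v d l.mv l.md l.vd
  have lbd := h.le b d l.mb l.md l.bd
  have xvc : x v c = 0 := (h.r1 (l.s3.s2)).resolve_right h1
  have mvc : m v c ≠ 0 := by
    intro c1
    omega
  have xad : x a d = 0 := by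
    by_contra c1
    exact mvc (((h.r2 (l.s1.s4.s3.s2.s3)).resolve_left c1).resolve_left h1)
  have xbd : x b d = 0 := by
    by_contra c1
    exact mvc ((by
          have e := h.r2 (l.s2.s1.s4.s3.s2.s3)
          rw [h.symz b a] at e
          exact (e.resolve_left c1).resolve_left h1))
  have xab : x a b = 0 := by
    by_contra c1
    exact mvc (((h.r2 (l.s1.s2.s4.s3)).resolve_left c1).resolve_left zad)
  have kx : 2 ≤ x v a + x a c := by
    have k := h.sx l
    omega
  omega

theorem d2 (h : N51 L m x z t xt zt) (l : Lab5 L v a b c d) (h0 : xt v ≠ 0) : z a b = 0 := by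
  by_contra h1
  obtain ⟨tv, ta, tb, tc, td, zv, za, zb, zc, zd, xv, xa, xb, xc, xd⟩ := h.tf l h0
  have a1 : x a c = 0 := by
    by_contra h3
    exact h.d1 l h0 h1 h3
  have a2 : x a d = 0 := by
    by_contra h3
    exact h.d1 (l.s4) h0 h1 h3
  have h1' : z b a ≠ 0 := by
    rw [h.symz b a]
    exact h1
  have a3 : x b c = 0 := by
    by_contra h3
    exact h.d1 (l.s2) h0 h1' h3
  have a4 : x b d = 0 := by
    by_contra h3
    exact h.d1 (l.s2.s4) h0 h1' h3
  have xvc : x v c = 0 := (h.r1 (l.s3.s2)).resolve_right h1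
  have xvd : x v d = 0 := (h.r1 (l.s4.s3.s2)).resolve_right h1
  have xcd : x c d = 0 := (h.r1 (l.s3.s2.s1.s4.s3.s2.s3.s4)).resolve_right h1
  have mcd : m c d = 0 := ((h.r3 (l)).resolve_left h0).resolve_left h1
  have kx : 2 ≤ x a b + x v a + x v b := by
    have k := h.sx l
    omega
  have gv := h.gv l
  have ga := h.ga l
  have gb := h.gb l
  have gc := h.gc l
  have gd := h.gd l
  have lab := h.le a b l.ma l.mb l.ab
  have lva := h.le v a l.mv l.ma l.va
  have lvb := h.le v b l.mv l.mb l.vb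
  clear a1 a2 a3 a4 xvc xvd xcd zv za zb zc zd xv xa xb xc xd
  omega

theorem d3 (h : N51 L m x z t xt zt) (l : Lab5 L v a b c d) (h0 : xt v ≠ 0) : x a b = 0 := by
  by_contra h1
  obtain ⟨tv, ta, tb, tc, td, zv, za, zb, zc, zd, xv, xa, xb, xc, xd⟩ := h.tf l h0
  have zab := h.d2 (l) h0
  have zac := h.d2 (l.s3) h0
  have zad := h.d2 (l.s4.s3) h0
  have zbc := h.d2 (l.s2.s3) h0
  have zbd := h.d2 (l.s2.s4.s3) h0
  have zcd := h.d2 (l.s3.s2.s4.s3) h0
  have zvc : z v c = 0 := (h.r1 (l.s1.s2)).resolve_left h1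
  have zvd : z v d = 0 := (h.r1 (l.s1.s2.s4)).resolve_left h1
  have kz : 3 ≤ z v a + z v b := by
    have k := h.sz l
    omega
  have mcd : m c d = 0 := by
    by_cases c1 : z v a = 0
    · have c2 : z v b ≠ 0 := by omega
      exact (by
          have e := h.r2 (l.s2.s1.s2)
          rw [h.symx b a, h.symz b v] at e
          exact (e.resolve_left h1).resolve_left c2)
    · exact (by
          have e := h.r2 (l.s1.s2)
          rw [h.symz a v] at e
          exact (e.resolve_left h1).resolve_left c1)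
  have gv := h.gv l
  have ga := h.ga l
  have gb := h.gb l
  have gc := h.gc l
  have gd := h.gd l
  have lab := h.le a b l.ma l.mb l.ab
  have lva := h.le v a l.mv l.ma l.va
  have lvb := h.le v b l.mv l.mb l.vb
  clear zab zac zad zbc zbd zcd zvc zvd zv za zb zc zd xv xa xb xc xd
  omega

theorem d4 (h : N51 L m x z t xt zt) (l : Lab5 L v a b c d) (h0 : xt v ≠ 0) : False := by
  obtain ⟨tv, ta, tb, tc, td, zv, za, zb, zc, zd, xv, xa, xb, xc, xd⟩ := h.tf l h0
  have kz : 3 ≤ z v a + z v b + z v c + z v d := by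
    have zab := h.d2 (l) h0
    have zac := h.d2 (l.s3) h0
    have zad := h.d2 (l.s4.s3) h0
    have zbc := h.d2 (l.s2.s3) h0
    have zbd := h.d2 (l.s2.s4.s3) h0
    have zcd := h.d2 (l.s3.s2.s4.s3) h0
    have k := h.sz l
    omega
  have kx : 2 ≤ x v a + x v b + x v c + x v d := by
    have xab := h.d3 (l) h0
    have xac := h.d3 (l.s3) h0
    have xad := h.d3 (l.s4.s3) h0
    have xbc := h.d3 (l.s2.s3) h0
    have xbd := h.d3 (l.s2.s4.s3) h0
    have xcd := h.d3 (l.s3.s2.s4.s3) h0
    have k := h.sx l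
    omega
  have gv := h.gv l
  have lva := h.le v a l.mv l.ma l.va
  have lvb := h.le v b l.mv l.mb l.vb
  have lvc := h.le v c l.mv l.mc l.vc
  have lvd := h.le v d l.mv l.md l.vd
  omega

theorem d5 (h : N51 L m x z t xt zt) (l : Lab5 L v a b c d) : ∀ p ∈ L, xt p = 0 := by
  intro p hp
  by_contra h0
  have hp' : p = v ∨ p = a ∨ p = b ∨ p = c ∨ p = d := by
    have hp2 := hp
    rw [l.eq] at hp2
    simpa only [mem_insert, mem_singleton] using hp2
  rcases hp' with e | e | e | e | e
  · rw [e] at h0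
    exact h.d4 (l) h0
  · rw [e] at h0
    exact h.d4 (l.s1) h0
  · rw [e] at h0
    exact h.d4 (l.s2.s1) h0
  · rw [e] at h0
    exact h.d4 (l.s3.s2.s1) h0
  · rw [e] at h0
    exact h.d4 (l.s4.s3.s2.s1) h0

/-- **the numbers do not exist.** -/
theorem false (h : N51 L m x z t xt zt) (hL : L.card = 5) : False := by
  obtain ⟨v, a, b, c, d, l⟩ := exists_lab5 hL
  exact h.c4 (h.d5 l) (h.swap.d5 l) l

end N51

end Pool.Agent.Hyp6
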