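import Pool.Agent.Hyp6.L3Mn

/-!
# HYP6 L3P8: a block with one point in a leaf and two points of a triple

`Pm`: the triple `{a, b, c}` of the packing, a leaf `W` (its own class), a block `{m, b, c}` with
`m ∈ W`. The exchange of `{a, b, c}` against `{m, b, c}` replaces the point `m` of `W` by `a`. The point
`a` sees no leaf but `W`; the points of the other leaves stay critical. The case `|W| = 3` is in
`L3P8a`.
-/

set_option autoImplicit false

namespace Pool.Agent.Hyp6

open Finset Pool.Agent.Hyp5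

universe u v

variable {V : Type v} [DecidableEq V] {ι : Type u} [Fintype ι] {B : ι → Finset V}

/-- a block through the point `m` of the leaf `W` containing two points of a triple of the packing. -/
structure Pm (B : ι → Finset V) (Q : Finset V) (T : Finset ι) (U : Finset V)
    (F : Finset (Finset V)) (j i : ι) (W : Finset V) (a b c m : V) : Prop where
  frm : Frm B Q T U F
  hj : j ∈ T
  hjQ : B j ∩ Q = {a, b, c}
  hW : W ∈ F
  hm : m ∈ W
  hfree : ∀ L ∈ F, L ≠ W → ∀ Z ⊆ U, Z.card ≤ (nbF (gr B) (F \ {W, L}) Z).card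
  hiQ : B i ∩ Q = {m, b, c}
  hi3 : (B i ∩ Q).card = 3

namespace Pm

variable {Q U : Finset V} {T : Finset ι} {F : Finset (Finset V)} {j i : ι} {W : Finset V}
  {a b c m : V}

omit [Fintype ι] in
theorem ne (h : Pm B Q T U F j i W a b c m) : a ≠ b ∧ a ≠ c ∧ b ≠ c := by
  have hj3 := h.frm.mtp.tpk.pack.card j h.hj
  have h1 := h.hjQ
  refine ⟨?_, ?_, ?_⟩
  · rintro rfl
    rw [h1] at hj3
    have h2 := card_le_two (a := a) (b := c)
    simp only [mem_insert, true_or, insert_eq_of_mem] at hj3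
    omega
  · rintro rfl
    rw [h1] at hj3
    have h2 := card_le_two (a := b) (b := a)
    simp only [mem_insert, mem_singleton, or_true, insert_eq_of_mem] at hj3
    omega
  · rintro rfl
    rw [h1] at hj3
    have h2 := card_le_two (a := a) (b := b)
    simp only [mem_singleton, insert_eq_of_mem] at hj3
    omega

omit [Fintype ι] in
theorem notD (h : Pm B Q T U F j i W a b c m) {z : V} (hz : z ∈ ({a, b, c} : Finset V)) :
    z ∉ Dp B Q T := by
  rw [← h.hjQ] at hz
  exact Frm.T_notD h.hj (mem_inter.1 hz).1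

omit [Fintype ι] in
theorem mD (h : Pm B Q T U F j i W a b c m) : m ∈ Dp B Q T := h.frm.FD h.hW h.hm

omit [Fintype ι] in
theorem aQ (h : Pm B Q T U F j i W a b c m) : a ∈ Q :=
  (mem_inter.1 (by rw [h.hjQ]; simp : a ∈ B j ∩ Q)).2

omit [Fintype ι] in
theorem aj (h : Pm B Q T U F j i W a b c m) : a ∈ B j :=
  (mem_inter.1 (by rw [h.hjQ]; simp : a ∈ B j ∩ Q)).1

omit [Fintype ι] in
theorem set_eq (h : Pm B Q T U F j i W a b c m) :
    (Dp B Q T ∪ (B j ∩ Q)) \ B i = insert a ((Dp B Q T).erase m) := by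
  obtain ⟨hab, hac, hbc⟩ := h.ne
  have haD := h.notD (z := a) (by simp)
  have hbD := h.notD (z := b) (by simp)
  have hcD := h.notD (z := c) (by simp)
  have hbi : b ∈ B i := (mem_inter.1 (by rw [h.hiQ]; simp : b ∈ B i ∩ Q)).1
  have hci : c ∈ B i := (mem_inter.1 (by rw [h.hiQ]; simp : c ∈ B i ∩ Q)).1
  have hxi : m ∈ B i := (mem_inter.1 (by rw [h.hiQ]; simp : m ∈ B i ∩ Q)).1
  have hai : a ∉ B i := by
    intro h1
    have h2 : a ∈ B i ∩ Q := mem_inter.2 ⟨h1, h.aQ⟩
    rw [h.hiQ] at h2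
    simp only [mem_insert, mem_singleton] at h2
    rcases h2 with h2 | h2 | h2
    · exact haD (h2 ▸ h.mD)
    · exact hab h2
    · exact hac h2
  ext y
  rw [h.hjQ]
  simp only [mem_sdiff, mem_union, mem_insert, mem_singleton, mem_erase]
  constructor
  · rintro ⟨h1 | h1 | h1 | h1, h2⟩
    · exact Or.inr ⟨fun h3 => h2 (h3 ▸ hxi), h1⟩
    · exact Or.inl h1
    · exact absurd (h1 ▸ hbi) h2
    · exact absurd (h1 ▸ hci) h2
  · rintro (h1 | ⟨h1, h2⟩)
    · exact ⟨Or.inr (Or.inl h1), h1 ▸ hai⟩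
    · refine ⟨Or.inl h2, fun h3 => ?_⟩
      have h4 : y ∈ B i ∩ Q := mem_inter.2 ⟨h3, Frm.DQ h2⟩
      rw [h.hiQ] at h4
      simp only [mem_insert, mem_singleton] at h4
      rcases h4 with h4 | h4 | h4
      · exact h1 h4
      · exact hbD (h4 ▸ h2)
      · exact hcD (h4 ▸ h2)

omit [Fintype ι] in
theorem dis (h : Pm B Q T U F j i W a b c m) :
    ∀ k ∈ T, k ≠ j → Disjoint (B i ∩ Q) (B k ∩ Q) := by
  intro k hk hne
  rw [h.hiQ, disjoint_left]
  intro y hy hyk
  simp only [mem_insert, mem_singleton] at hy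
  rcases hy with rfl | rfl | rfl
  · exact Frm.T_notD hk (mem_inter.1 hyk).1 h.mD
  · exact disjoint_left.1 (h.frm.mtp.tpk.pack.disj k hk j h.hj hne) hyk (by rw [h.hjQ]; simp)
  · exact disjoint_left.1 (h.frm.mtp.tpk.pack.disj k hk j h.hj hne) hyk (by rw [h.hjQ]; simp)

omit [Fintype ι] in
theorem cov_a (h : Pm B Q T U F j i W a b c m) : Cov B ({a} : Finset V) := fun y hy =>
  ⟨j, by rw [mem_singleton.1 hy]; exact h.aj⟩

omit [Fintype ι] in
theorem rho_a (h : Pm B Q T U F j i W a b c m) : rho B ({a} : Finset V) ≤ 1 :=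
  rho_le_one (i := j) (by
    intro y hy
    rw [mem_singleton.1 hy]; exact h.aj)

omit [Fintype ι] in
theorem cov_new (h : Pm B Q T U F j i W a b c m) : Cov B (insert a ((Dp B Q T).erase m)) := by
  rw [insert_eq]
  exact h.cov_a.union (h.frm.covD.mono (erase_subset _ _))

theorem rho_erase (h : Pm B Q T U F j i W a b c m) :
    rho B ((Dp B Q T).erase m) + 1 = rho B (Dp B Q T) :=
  h.frm.crit_leaf h.hW h.hm

theorem rho_new_le (h : Pm B Q T U F j i W a b c m) :
    rho B (insert a ((Dp B Q T).erase m)) ≤ rho B (Dp B Q T) := by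
  have h1 := rho_union_le h.cov_a (h.frm.covD.mono (erase_subset m (Dp B Q T)))
  rw [← insert_eq] at h1
  have h2 := h.rho_erase
  have h3 := h.rho_a
  omega

/-- the rest of the exchanged packing. -/
theorem Dp_new [DecidableEq ι] (h : Pm B Q T U F j i W a b c m) :
    Dp B Q (insert i (T.erase j)) = insert a ((Dp B Q T).erase m) := by
  obtain ⟨_, h1⟩ := h.frm.mtp.swap h.frm.cov h.hj h.hi3 h.dis (by
    rw [h.set_eq]
    exact h.rho_new_le)
  rw [h1, h.set_eq]

theorem mtp_new [DecidableEq ι] (h : Pm B Q T U F j i W a b c m) :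
    MTP B Q (insert i (T.erase j)) :=
  (h.frm.mtp.swap h.frm.cov h.hj h.hi3 h.dis (by
    rw [h.set_eq]
    exact h.rho_new_le)).1

theorem rho_new [DecidableEq ι] (h : Pm B Q T U F j i W a b c m) :
    rho B (insert a ((Dp B Q T).erase m)) = rho B (Dp B Q T) := by
  have hM := h.mtp_new
  have h1 := hM.tpk.opt
  have h2 := h.frm.rhoD
  have h3 := hM.max _ h.frm.mtp.tpk
  have h4 := h.frm.mtp.max _ hM.tpk
  have h5 : Q \ (insert i (T.erase j)).biUnion B = insert a ((Dp B Q T).erase m) := h.Dp_new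
  rw [h5] at h1
  omega

theorem exists_new [DecidableEq ι] (h : Pm B Q T U F j i W a b c m) :
    ∃ (U1 : Finset V) (F1 : Finset (Finset V)), Frm B Q (insert i (T.erase j)) U1 F1 := by
  obtain ⟨U1, F1, hGE⟩ := exists_GE (gr B) (Q \ (insert i (T.erase j)).biUnion B)
  exact ⟨U1, F1, ⟨h.frm.reg3, h.frm.cov, h.mtp_new, hGE⟩⟩

/-- replacing the leaf `W`. -/
theorem one (h : Pm B Q T U F j i W a b c m) {X Z : Finset V} (hZ : Cov B Z)
    (hX : X ⊆ (Dp B Q T \ W) ∪ Z) : rho B X + rho B W ≤ rho B (Dp B Q T) + rho B Z := by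
  have h1 := (h.frm.frr_single h.hW).rho_le h.frm.covD hZ (W := X) (by
    rw [singleton_biUnion]
    exact hX)
  rwa [sum_singleton] at h1

/-- replacing the leaf `W` and another leaf. -/
theorem two (h : Pm B Q T U F j i W a b c m) {X Z L : Finset V} (hL : L ∈ F) (hne : L ≠ W)
    (hZ : Cov B Z) (hX : X ⊆ (Dp B Q T \ (W ∪ L)) ∪ Z) :
    rho B X + (rho B W + rho B L) ≤ rho B (Dp B Q T) + rho B Z := by
  have hfr : Frr B (Dp B Q T) {W, L} := h.frm.frr_of_hall (by
    intro C hC
    rcases mem_insert.1 hC with rfl | hC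
    · exact h.hW
    · rw [mem_singleton.1 hC]; exact hL) (h.hfree L hL hne)
  have h1 := hfr.rho_le h.frm.covD hZ (W := X) (by
    have h2 : ({W, L} : Finset (Finset V)).biUnion id = W ∪ L := by
      rw [biUnion_insert, singleton_biUnion]
      rfl
    rw [h2]
    exact hX)
  rwa [sum_pair hne.symm] at h1

theorem rho_Wm (h : Pm B Q T U F j i W a b c m) : rho B (W.erase m) + 1 ≤ rho B W := by
  have h1 := rho_erase_fc (h.frm.ge.sys.fc W h.hW) (h.frm.sv_leaf h.hW) h.hm
  omega

theorem cov_Wm (h : Pm B Q T U F j i W a b c m) : Cov B (W.erase m) :=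
  (h.frm.covF W h.hW).mono (erase_subset _ _)

/-- `a` sees no leaf except `W`. -/
theorem a_leaf [DecidableEq ι] (h : Pm B Q T U F j i W a b c m) {L : Finset V} (hL : L ∈ F)
    (hne : L ≠ W) {y : V} (hy : y ∈ L) : ¬ (gr B).Adj a y := by
  intro hay
  have haD := h.notD (z := a) (by simp)
  have haL : a ∉ L := fun h1 => haD (h.frm.FD hL h1)
  have hcL : Cov B (insert a L) := by
    rw [insert_eq]
    exact h.cov_a.union (h.frm.covF L hL)
  have h1 := h.two (X := insert a ((Dp B Q T).erase m)) hL hne (h.cov_Wm.union hcL) (by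
    intro z hz
    rcases mem_insert.1 hz with rfl | hz
    · exact mem_union_right _ (mem_union_right _ (mem_insert_self _ _))
    · obtain ⟨h2, h3⟩ := mem_erase.1 hz
      by_cases h4 : z ∈ L
      · exact mem_union_right _ (mem_union_right _ (mem_insert_of_mem h4))
      by_cases h5 : z ∈ W
      · exact mem_union_right _ (mem_union_left _ (mem_erase.2 ⟨h2, h5⟩))
      · refine mem_union_left _ (mem_sdiff.2 ⟨h3, fun h6 => ?_⟩)
        rcases mem_union.1 h6 with h6 | h6
        · exact h5 h6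
        · exact h4 h6)
  have h2 := rho_insert_fc (h.frm.ge.sys.fc L hL) (h.frm.sv_leaf hL) ⟨y, hy, hay⟩ haL
  have h3 := h.rho_new
  have h4 := rho_union_le h.cov_Wm hcL
  have h5 := h.rho_Wm
  omega

/-- a point whose removal is cheap is critical. -/
theorem crit_of [DecidableEq ι] (h : Pm B Q T U F j i W a b c m) {y : V}
    (hv : rho B ((insert a ((Dp B Q T).erase m)).erase y) + 1 ≤ rho B (Dp B Q T)) :
    rho B ((Dp B Q (insert i (T.erase j))).erase y) + 1 =
      rho B (Dp B Q (insert i (T.erase j))) := by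
  have h1 := rho_le_erase (x := y) h.cov_new
  have h2 := h.rho_new
  rw [h.Dp_new]
  omega

/-- the points of the other leaves stay critical. -/
theorem crit_L [DecidableEq ι] (h : Pm B Q T U F j i W a b c m) {L : Finset V} (hL : L ∈ F)
    (hne : L ≠ W) {y : V} (hy : y ∈ L) : y ∈ Dp B Q (insert i (T.erase j)) ∧
    rho B ((Dp B Q (insert i (T.erase j))).erase y) + 1 =
      rho B (Dp B Q (insert i (T.erase j))) := by
  have hyW : y ∉ W := fun h1 => disjoint_left.1 (h.frm.ge.sys.disj L hL W h.hW hne) hy h1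
  have hym : y ≠ m := fun h1 => hyW (h1 ▸ h.hm)
  refine ⟨?_, h.crit_of ?_⟩
  · rw [h.Dp_new]
    exact mem_insert_of_mem (mem_erase.2 ⟨hym, h.frm.FD hL hy⟩)
  have hcL : Cov B (L.erase y) := (h.frm.covF L hL).mono (erase_subset _ _)
  have h1 := h.two (X := (insert a ((Dp B Q T).erase m)).erase y) hL hne
    (h.cov_a.union (h.cov_Wm.union hcL)) (by
    intro z hz
    obtain ⟨h2, h3⟩ := mem_erase.1 hz
    rcases mem_insert.1 h3 with h3 | h3
    · exact mem_union_right _ (mem_union_left _ (mem_singleton.2 h3))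
    · obtain ⟨h4, h5⟩ := mem_erase.1 h3
      by_cases hyL : z ∈ L
      · exact mem_union_right _ (mem_union_right _ (mem_union_right _ (mem_erase.2 ⟨h2, hyL⟩)))
      by_cases hzW : z ∈ W
      · exact mem_union_right _ (mem_union_right _ (mem_union_left _ (mem_erase.2 ⟨h4, hzW⟩)))
      · refine mem_union_left _ (mem_sdiff.2 ⟨h5, fun h6 => ?_⟩)
        rcases mem_union.1 h6 with h6 | h6
        · exact hzW h6
        · exact hyL h6)
  have h3 := rho_union_le h.cov_a (h.cov_Wm.union hcL)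
  have h3' := rho_union_le h.cov_Wm hcL
  have h4 := rho_erase_fc (h.frm.ge.sys.fc L hL) (h.frm.sv_leaf hL) hy
  have h5 := h.rho_a
  have h6 := h.rho_Wm
  omega

/-- `a` is critical after the exchange. -/
theorem crit_a [DecidableEq ι] (h : Pm B Q T U F j i W a b c m) :
    a ∈ Dp B Q (insert i (T.erase j)) ∧
    rho B ((Dp B Q (insert i (T.erase j))).erase a) + 1 =
      rho B (Dp B Q (insert i (T.erase j))) := by
  have haD := h.notD (z := a) (by simp)
  refine ⟨?_, h.crit_of ?_⟩
  · rw [h.Dp_new]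
    exact mem_insert_self _ _
  have h1 : (insert a ((Dp B Q T).erase m)).erase a = (Dp B Q T).erase m :=
    erase_insert fun h1 => haD (mem_erase.1 h1).2
  rw [h1]
  exact h.rho_erase.le

/-- the points of the barrier `Z` of a tight odd system seen by critical points lie in the new `U`. -/
theorem tight_sub [DecidableEq ι] (_h : Pm B Q T U F j i W a b c m) {U1 : Finset V}
    {F1 : Finset (Finset V)} (h' : Frm B Q (insert i (T.erase j)) U1 F1) {Z : Finset V}
    {S : Finset (Finset V)} (hZ : Z ⊆ Dp B Q (insert i (T.erase j)))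
    (hS : OddSys (gr B) (Dp B Q (insert i (T.erase j)) \ Z) S)
    (hval : sv B (Dp B Q (insert i (T.erase j))) = (Z.card : ℤ) - S.card)
    (hadj : ∀ z ∈ Z, ∃ w ∈ Dp B Q (insert i (T.erase j)),
      rho B ((Dp B Q (insert i (T.erase j))).erase w) + 1 =
        rho B (Dp B Q (insert i (T.erase j))) ∧ (gr B).Adj z w) : Z ⊆ U1 := by
  intro u hu
  have hnc := tight_not_crit h'.covD h'.tr3D h'.pt hZ hS hval hu
  obtain ⟨w, hw, hc, huw⟩ := hadj u hu
  have hnE := h'.notE_adjc hw hc huw
  rcases h'.three_cases (hZ hu) hnE with h1 | ⟨L', hL', huL⟩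
  · exact h1
  · exact absurd (h'.crit_leaf hL' huL) hnc

/-- the value of the new rest. -/
theorem sv_new [DecidableEq ι] (h : Pm B Q T U F j i W a b c m) {U1 : Finset V}
    {F1 : Finset (Finset V)} (h' : Frm B Q (insert i (T.erase j)) U1 F1) :
    sv B (Dp B Q (insert i (T.erase j))) = (U.card : ℤ) - F.card := by
  have h1 := h'.svD'
  have h2 := h.frm.svD'
  have h3 := h.frm.svD
  have h5 := h'.mtp.max _ h.frm.mtp.tpk
  have h6 := h.frm.mtp.max _ h'.mtp.tpk
  have h4 : (insert i (T.erase j)).card = T.card := by omega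
  rw [h1, h4, ← h2, h3]

end Pm

end Pool.Agent.Hyp6
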