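import Pool.Agent.Hyp6.L3P8

/-!
# HYP6 L3P8a: a block with one point in a leaf with three points and two points of a triple

`Pm3`: in addition to `Pm` the leaf is `W = {m, p, q}` and `a` sees `p`. In an `MTE` frame `a` sees `q`
as well (`Pm3.adj_q`) and no point of the even part, and the exchanged frame has the leaf `{a, p, q}`
in place of `W` (`Pm3.F_new`); in an `MTN` frame `nt {a, p, q} ≤ nt W` (`Pm3.nt_le`).
-/

set_option autoImplicit false

namespace Pool.Agent.Hyp6

open Finset Pool.Agent.Hyp5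

universe u v

variable {V : Type v} [DecidableEq V] {ι : Type u} [Fintype ι] {B : ι → Finset V}

/-- two points form a matching edge. -/
theorem pm_two_adj {G : SimpleGraph V} {x y : V} (h : PM G {x, y}) : G.Adj x y := by
  obtain ⟨f, hf⟩ := h
  obtain ⟨h1, _, h3⟩ := hf x (by simp)
  rcases mem_insert.1 h1 with h4 | h4
  · rw [h4] at h3
    exact absurd h3 (G.irrefl)
  · rw [mem_singleton.1 h4] at h3
    exact h3

/-- a triangle is factor-critical. -/
theorem fc_tri {G : SimpleGraph V} {x y z : V} (hxy : G.Adj x y) (hxz : G.Adj x z)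
    (hyz : G.Adj y z) : FC G {x, y, z} := by
  have h1 : (({x, y, z} : Finset V).erase x) = {y, z} := by
    ext v
    simp only [mem_erase, mem_insert, mem_singleton]
    constructor
    · rintro ⟨h1, h2 | h2 | h2⟩
      · exact absurd h2 h1
      · exact Or.inl h2
      · exact Or.inr h2
    · rintro (rfl | rfl)
      · exact ⟨hxy.ne.symm, Or.inr (Or.inl rfl)⟩
      · exact ⟨hxz.ne.symm, Or.inr (Or.inr rfl)⟩
  have h2 : (({x, y, z} : Finset V).erase y) = {x, z} := by
    ext v
    simp only [mem_erase, mem_insert, mem_singleton]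
    constructor
    · rintro ⟨h1, h2 | h2 | h2⟩
      · exact Or.inl h2
      · exact absurd h2 h1
      · exact Or.inr h2
    · rintro (rfl | rfl)
      · exact ⟨hxy.ne, Or.inl rfl⟩
      · exact ⟨hyz.ne.symm, Or.inr (Or.inr rfl)⟩
  have h3 : (({x, y, z} : Finset V).erase z) = {x, y} := by
    ext v
    simp only [mem_erase, mem_insert, mem_singleton]
    constructor
    · rintro ⟨h1, h2 | h2 | h2⟩
      · exact Or.inl h2
      · exact Or.inr h2
      · exact absurd h2 h1
    · rintro (rfl | rfl)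
      · exact ⟨hxz.ne, Or.inl rfl⟩
      · exact ⟨hyz.ne, Or.inr (Or.inl rfl)⟩
  refine ⟨insert_nonempty _ _, fun v hv => ?_⟩
  simp only [mem_insert, mem_singleton] at hv
  rcases hv with rfl | rfl | rfl
  · rw [h1]; exact PM.pair hyz
  · rw [h2]; exact PM.pair hxz
  · rw [h3]; exact PM.pair hxy

/-- `Pm` at the leaf `{m, p, q}`, `a` sees `p`. -/
structure Pm3 (B : ι → Finset V) (Q : Finset V) (T : Finset ι) (U : Finset V)
    (F : Finset (Finset V)) (j i : ι) (a b c m p q : V) : Prop where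
  pm : Pm B Q T U F j i {m, p, q} a b c m
  h3 : ({m, p, q} : Finset V).card = 3
  ap : (gr B).Adj a p

namespace Pm3

variable {Q U : Finset V} {T : Finset ι} {F : Finset (Finset V)} {j i : ι} {a b c m p q : V}

omit [Fintype ι] in
theorem ne3 (h : Pm3 B Q T U F j i a b c m p q) : m ≠ p ∧ m ≠ q ∧ p ≠ q := by
  have h3 := h.h3
  refine ⟨?_, ?_, ?_⟩
  · rintro rfl
    have h2 := card_le_two (a := m) (b := q)
    simp only [mem_insert, true_or, insert_eq_of_mem] at h3
    omega
  · rintro rfl
    have h2 := card_le_two (a := p) (b := m)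
    simp only [mem_insert, mem_singleton, or_true, insert_eq_of_mem] at h3
    omega
  · rintro rfl
    have h2 := card_le_two (a := m) (b := p)
    simp only [mem_singleton, insert_eq_of_mem] at h3
    omega

omit [Fintype ι] in
theorem erase_m (h : Pm3 B Q T U F j i a b c m p q) : ({m, p, q} : Finset V).erase m = {p, q} := by
  obtain ⟨h1, h2, _⟩ := h.ne3
  exact erase_insert (by simp [h1, h2])

omit [Fintype ι] in
theorem pq (h : Pm3 B Q T U F j i a b c m p q) : (gr B).Adj p q := by
  have h1 := (h.pm.frm.ge.sys.fc _ h.pm.hW).2 m (by simp)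
  rw [h.erase_m] at h1
  exact pm_two_adj h1

omit [Fintype ι] in
theorem aD (h : Pm3 B Q T U F j i a b c m p q) : a ∉ Dp B Q T := h.pm.notD (by simp)

omit [Fintype ι] in
theorem pD (h : Pm3 B Q T U F j i a b c m p q) : p ∈ Dp B Q T ∧ q ∈ Dp B Q T :=
  ⟨h.pm.frm.FD h.pm.hW (by simp), h.pm.frm.FD h.pm.hW (by simp)⟩

theorem pD' [DecidableEq ι] (h : Pm3 B Q T U F j i a b c m p q) :
    p ∈ Dp B Q (insert i (T.erase j)) ∧ q ∈ Dp B Q (insert i (T.erase j)) := by
  obtain ⟨h1, h2, _⟩ := h.ne3
  rw [h.pm.Dp_new]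
  exact ⟨mem_insert_of_mem (mem_erase.2 ⟨h1.symm, h.pD.1⟩),
    mem_insert_of_mem (mem_erase.2 ⟨h2.symm, h.pD.2⟩)⟩

/-- the third point of the leaf is critical after the exchange if `a` does not see it. -/
theorem crit_q [DecidableEq ι] (h : Pm3 B Q T U F j i a b c m p q) :
    rho B ((Dp B Q (insert i (T.erase j))).erase q) + 1 =
      rho B (Dp B Q (insert i (T.erase j))) := by
  obtain ⟨h1, h2, h3⟩ := h.ne3
  refine h.pm.crit_of ?_
  obtain ⟨_, k, hak, hpk⟩ := h.ap
  have hcov : Cov B ({a, p} : Finset V) := by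
    intro y hy
    rcases mem_insert.1 hy with rfl | hy
    · exact ⟨k, hak⟩
    · rw [mem_singleton.1 hy]; exact ⟨k, hpk⟩
  have hr : rho B ({a, p} : Finset V) ≤ 1 := rho_le_one (i := k) (by
    intro y hy
    rcases mem_insert.1 hy with rfl | hy
    · exact hak
    · rw [mem_singleton.1 hy]; exact hpk)
  have h4 := h.pm.one (X := (insert a ((Dp B Q T).erase m)).erase q) hcov (by
    intro z hz
    obtain ⟨h5, h6⟩ := mem_erase.1 hz
    rcases mem_insert.1 h6 with h6 | h6
    · exact mem_union_right _ (by simp [h6])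
    · obtain ⟨h7, h8⟩ := mem_erase.1 h6
      by_cases hzp : z = p
      · exact mem_union_right _ (by simp [hzp])
      · refine mem_union_left _ (mem_sdiff.2 ⟨h8, ?_⟩)
        simp only [mem_insert, mem_singleton, not_or]
        exact ⟨h7, hzp, h5⟩)
  have h5 := h.pm.frm.sv_leaf h.pm.hW
  unfold sv at h5
  rw [h.h3] at h5
  omega

/-- the even part does not grow. -/
theorem E_sub [DecidableEq ι] (h : Pm3 B Q T U F j i a b c m p q) {U1 : Finset V}
    {F1 : Finset (Finset V)} (h' : Frm B Q (insert i (T.erase j)) U1 F1) :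
    Ep B Q (insert i (T.erase j)) U1 F1 ⊆ Ep B Q T U F := by
  refine h'.Ep_sub fun y hy hyE => ?_
  rw [h.pm.Dp_new] at hy
  rcases mem_insert.1 hy with rfl | hy
  · exact Or.inl h.pm.crit_a.2
  obtain ⟨h1, h2⟩ := mem_erase.1 hy
  rcases h.pm.frm.three_cases h2 hyE with h3 | ⟨L, hL, hyL⟩
  · obtain ⟨L, hL, hne, z, hz, hyz⟩ := h.pm.frm.U_sees h3 {m, p, q}
    exact Or.inr ⟨z, (h.pm.crit_L hL hne hz).1, (h.pm.crit_L hL hne hz).2, hyz⟩
  · by_cases hne : L = {m, p, q}
    · subst hne
      simp only [mem_insert, mem_singleton] at hyL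
      rcases hyL with h4 | h4 | h4
      · exact absurd h4 h1
      · exact Or.inr ⟨a, h.pm.crit_a.1, h.pm.crit_a.2, h4 ▸ h.ap.symm⟩
      · rw [h4]
        exact Or.inl h.crit_q
    · exact Or.inl (h.pm.crit_L hL hne hyL).2

/-- `a` sees no point of the even part in the frame with the smallest even part. -/
theorem a_E [DecidableEq ι] (h : Pm3 B Q T U F j i a b c m p q)
    (hmin : ∀ (T' : Finset ι) (U' : Finset V) (F' : Finset (Finset V)),
      Frm B Q T' U' F' → (Ep B Q T U F).card ≤ (Ep B Q T' U' F').card) {e : V}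
    (he : e ∈ Ep B Q T U F) : ¬ (gr B).Adj a e := by
  intro hae
  obtain ⟨U1, F1, h'⟩ := h.pm.exists_new
  have h1 := h.E_sub h'
  have h2 : e ∉ Ep B Q (insert i (T.erase j)) U1 F1 :=
    h'.notE_adjc h.pm.crit_a.1 h.pm.crit_a.2 hae.symm
  have h3 := card_lt_card (⟨h1, fun h3 => h2 (h3 he)⟩ :
    Ep B Q (insert i (T.erase j)) U1 F1 ⊂ Ep B Q T U F)
  have h4 := hmin _ _ _ h'
  omega

omit [Fintype ι] in
/-- the neighbours of a point of the leaf outside `U`. -/
theorem nbr_leaf (h : Pm3 B Q T U F j i a b c m p q) {y z : V} (hy : y ∈ ({m, p, q} : Finset V))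
    (hz : z ∈ Dp B Q T) (hzU : z ∉ U) (hyz : (gr B).Adj y z) : z ∈ ({m, p, q} : Finset V) :=
  (h.pm.frm.ge.sys.closed _ h.pm.hW).2 y hy z (mem_sdiff.2 ⟨hz, hzU⟩) hyz

/-- the points outside `U` seen by `a` lie in the leaf. -/
theorem nbr_a [DecidableEq ι] (h : Pm3 B Q T U F j i a b c m p q)
    (haE : ∀ e ∈ Ep B Q T U F, ¬ (gr B).Adj a e) {z : V} (hz : z ∈ Dp B Q T) (hzU : z ∉ U)
    (haz : (gr B).Adj a z) : z ∈ ({m, p, q} : Finset V) := by
  by_cases hzE : z ∈ Ep B Q T U F
  · exact absurd haz (haE z hzE)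
  · rcases h.pm.frm.three_cases hz hzE with h6 | ⟨L, hL, hzL⟩
    · exact absurd h6 hzU
    · by_cases hne : L = {m, p, q}
      · exact hne ▸ hzL
      · exact absurd haz (h.pm.a_leaf hL hne hzL)

/-- **`a` sees both points of the leaf** besides `m`. -/
theorem adj_q [DecidableEq ι] (h : Pm3 B Q T U F j i a b c m p q) (hm : MTE B Q T U F) :
    (gr B).Adj a q := by
  by_contra haq
  obtain ⟨U1, F1, h'⟩ := h.pm.exists_new
  have haE := fun e he => h.a_E hm.emin (e := e) he
  have hf := h.pm.frm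
  obtain ⟨hmp, hmq, hpq⟩ := h.ne3
  have haU : a ∉ U := fun h1 => h.aD (hf.ge.sub h1)
  have hqU : q ∉ U := fun h1 => disjoint_left.1 (hf.ge.FU _ h.pm.hW) (by simp) h1
  have hpU : p ∉ U := fun h1 => disjoint_left.1 (hf.ge.FU _ h.pm.hW) (by simp) h1
  have haq' : a ≠ q := fun h1 => h.aD (h1 ▸ h.pD.2)
  have hap' : a ≠ p := fun h1 => h.aD (h1 ▸ h.pD.1)
  have hUD : insert p U ⊆ Dp B Q (insert i (T.erase j)) := by
    intro u hu
    rcases mem_insert.1 hu with rfl | hu
    · exact h.pD'.1
    · rw [h.pm.Dp_new]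
      refine mem_insert_of_mem (mem_erase.2 ⟨?_, hf.ge.sub hu⟩)
      rintro rfl
      exact disjoint_left.1 (hf.ge.FU _ h.pm.hW) (by simp) hu
  have hLne : ∀ C ∈ F.erase {m, p, q}, a ∉ C ∧ q ∉ C ∧ p ∉ C ∧ m ∉ C := by
    intro C hC
    obtain ⟨hne, hCF⟩ := mem_erase.1 hC
    have hd := hf.ge.sys.disj C hCF _ h.pm.hW hne
    exact ⟨fun h1 => h.aD (hf.FD hCF h1), fun h1 => disjoint_left.1 hd h1 (by simp),
      fun h1 => disjoint_left.1 hd h1 (by simp), fun h1 => disjoint_left.1 hd h1 (by simp)⟩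
  have haS : {a} ∉ insert {q} (F.erase {m, p, q}) := by
    intro h1
    rcases mem_insert.1 h1 with h1 | h1
    · exact haq' (singleton_injective h1)
    · exact (hLne _ h1).1 (mem_singleton_self a)
  have hqS : {q} ∉ F.erase {m, p, q} := fun h1 => (hLne _ h1).2.1 (mem_singleton_self q)
  have hS : OddSys (gr B) (Dp B Q (insert i (T.erase j)) \ insert p U)
      (insert {a} (insert {q} (F.erase {m, p, q}))) := by
    rw [h.pm.Dp_new]
    refine ⟨fun C hC => ?_, fun C hC => ?_, fun C hC C' hC' hne => ?_⟩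
    · rcases mem_insert.1 hC with rfl | hC
      · refine ⟨fun y hy => ?_, fun y hy z hz hyz => ?_⟩
        · rw [mem_singleton.1 hy]
          exact mem_sdiff.2 ⟨mem_insert_self _ _, by simp [hap', haU]⟩
        · rw [mem_singleton] at hy
          subst hy
          obtain ⟨h1, h2⟩ := mem_sdiff.1 hz
          simp only [mem_insert, not_or] at h2
          rcases mem_insert.1 h1 with h3 | h3
          · exact mem_singleton.2 h3
          · exfalso
            obtain ⟨h4, h5⟩ := mem_erase.1 h3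
            have h6 := h.nbr_a haE h5 h2.2 hyz
            simp only [mem_insert, mem_singleton] at h6
            rcases h6 with h6 | h6 | h6
            · exact h4 h6
            · exact h2.1 h6
            · exact haq (h6 ▸ hyz)
      rcases mem_insert.1 hC with rfl | hC
      · refine ⟨fun y hy => ?_, fun y hy z hz hyz => ?_⟩
        · rw [mem_singleton.1 hy]
          exact mem_sdiff.2 ⟨mem_insert_of_mem (mem_erase.2 ⟨hmq.symm, h.pD.2⟩),
            by simp [hpq.symm, hqU]⟩
        · rw [mem_singleton] at hy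
          subst hy
          obtain ⟨h1, h2⟩ := mem_sdiff.1 hz
          simp only [mem_insert, not_or] at h2
          rcases mem_insert.1 h1 with h3 | h3
          · exact absurd (h3 ▸ hyz.symm) haq
          · obtain ⟨h4, h5⟩ := mem_erase.1 h3
            have h6 := h.nbr_leaf (by simp) h5 h2.2 hyz
            simp only [mem_insert, mem_singleton] at h6
            rcases h6 with h6 | h6 | h6
            · exact absurd h6 h4
            · exact absurd h6 h2.1
            · exact mem_singleton.2 h6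
      · obtain ⟨h7, h8, h9, h10⟩ := hLne C hC
        obtain ⟨hne, hCF⟩ := mem_erase.1 hC
        refine ⟨fun y hy => ?_, fun y hy z hz hyz => ?_⟩
        · refine mem_sdiff.2 ⟨mem_insert_of_mem (mem_erase.2
            ⟨fun he => h10 (he ▸ hy), hf.FD hCF hy⟩), fun h1 => ?_⟩
          rcases mem_insert.1 h1 with h1 | h1
          · exact h9 (h1 ▸ hy)
          · exact disjoint_left.1 (hf.ge.FU C hCF) hy h1
        · obtain ⟨h1, h2⟩ := mem_sdiff.1 hz
          simp only [mem_insert, not_or] at h2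
          rcases mem_insert.1 h1 with h3 | h3
          · exact absurd (h3 ▸ hyz.symm) (h.pm.a_leaf hCF hne hy)
          · exact (hf.ge.sys.closed C hCF).2 y hy z
              (mem_sdiff.2 ⟨(mem_erase.1 h3).2, h2.2⟩) hyz
    · rcases mem_insert.1 hC with rfl | hC
      · simp
      rcases mem_insert.1 hC with rfl | hC
      · simp
      · exact (hf.ge.sys.fc C (mem_erase.1 hC).2).odd
    · have key : ∀ C ∈ insert {a} (insert {q} (F.erase {m, p, q})),
          ∀ C' ∈ insert {a} (insert {q} (F.erase {m, p, q})), C ≠ C' →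
          ∀ y ∈ C, y ∈ C' → False := by
        intro C hC C' hC' hne y hy hy'
        rcases mem_insert.1 hC with rfl | hC
        · rw [mem_singleton] at hy
          subst hy
          rcases mem_insert.1 hC' with rfl | hC'
          · exact hne rfl
          rcases mem_insert.1 hC' with rfl | hC'
          · exact haq' (mem_singleton.1 hy')
          · exact (hLne _ hC').1 hy'
        rcases mem_insert.1 hC with rfl | hC
        · rw [mem_singleton] at hy
          subst hy
          rcases mem_insert.1 hC' with rfl | hC'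
          · exact haq' (mem_singleton.1 hy').symm
          rcases mem_insert.1 hC' with rfl | hC'
          · exact hne rfl
          · exact (hLne _ hC').2.1 hy'
        · rcases mem_insert.1 hC' with rfl | hC'
          · exact (hLne _ hC).1 (mem_singleton.1 hy' ▸ hy)
          rcases mem_insert.1 hC' with rfl | hC'
          · exact (hLne _ hC).2.1 (mem_singleton.1 hy' ▸ hy)
          · exact disjoint_left.1 (hf.ge.sys.disj C (mem_erase.1 hC).2 C' (mem_erase.1 hC').2 hne)
              hy hy'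
      exact disjoint_left.2 fun y hy hy' => key C hC C' hC' hne y hy hy'
  have hval : sv B (Dp B Q (insert i (T.erase j))) =
      ((insert p U).card : ℤ) - (insert {a} (insert {q} (F.erase {m, p, q}))).card := by
    rw [h.pm.sv_new h', card_insert_of_notMem haS, card_insert_of_notMem hqS,
      card_insert_of_notMem hpU, ← card_erase_add_one h.pm.hW]
    push_cast
    ring
  have hsub := h.pm.tight_sub h' hUD hS hval (by
    intro z hz
    rcases mem_insert.1 hz with rfl | hz
    · exact ⟨a, h.pm.crit_a.1, h.pm.crit_a.2, h.ap.symm⟩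
    · obtain ⟨L, hL, hne, w, hw, hzw⟩ := hf.U_sees hz {m, p, q}
      exact ⟨w, (h.pm.crit_L hL hne hw).1, (h.pm.crit_L hL hne hw).2, hzw⟩)
  have h1 := hm.umax _ _ _ h' (card_le_card (h.E_sub h'))
  have h2 := card_le_card hsub
  rw [card_insert_of_notMem hpU] at h2
  omega

/-- the system of the leaves after the exchange. -/
theorem sys_new [DecidableEq ι] (h : Pm3 B Q T U F j i a b c m p q) (hm : MTE B Q T U F) :
    FCSys (gr B) (Dp B Q (insert i (T.erase j)) \ U) (insert {a, p, q} (F.erase {m, p, q})) := by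
  have haE := fun e he => h.a_E hm.emin (e := e) he
  have hf := h.pm.frm
  obtain ⟨hmp, hmq, hpq⟩ := h.ne3
  have haU : a ∉ U := fun h1 => h.aD (hf.ge.sub h1)
  have hqU : q ∉ U := fun h1 => disjoint_left.1 (hf.ge.FU _ h.pm.hW) (by simp) h1
  have hpU : p ∉ U := fun h1 => disjoint_left.1 (hf.ge.FU _ h.pm.hW) (by simp) h1
  have hLne : ∀ C ∈ F.erase {m, p, q}, a ∉ C ∧ q ∉ C ∧ p ∉ C ∧ m ∉ C := by
    intro C hC
    obtain ⟨hne, hCF⟩ := mem_erase.1 hC
    have hd := hf.ge.sys.disj C hCF _ h.pm.hW hne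
    exact ⟨fun h1 => h.aD (hf.FD hCF h1), fun h1 => disjoint_left.1 hd h1 (by simp),
      fun h1 => disjoint_left.1 hd h1 (by simp), fun h1 => disjoint_left.1 hd h1 (by simp)⟩
  have hdis : ∀ C ∈ F.erase {m, p, q}, Disjoint C ({a, p, q} : Finset V) := by
    intro C hC
    obtain ⟨h7, h8, h9, _⟩ := hLne C hC
    rw [disjoint_left]
    intro y hy hy'
    simp only [mem_insert, mem_singleton] at hy'
    rcases hy' with rfl | rfl | rfl
    · exact h7 hy
    · exact h9 hy
    · exact h8 hy
  rw [h.pm.Dp_new]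
  refine ⟨fun C hC => ?_, fun C hC => ?_, fun C hC C' hC' hne => ?_⟩
  · rcases mem_insert.1 hC with rfl | hC
    · refine ⟨fun y hy => ?_, fun y hy z hz hyz => ?_⟩
      · simp only [mem_insert, mem_singleton] at hy
        rcases hy with rfl | rfl | rfl
        · exact mem_sdiff.2 ⟨mem_insert_self _ _, haU⟩
        · exact mem_sdiff.2 ⟨mem_insert_of_mem (mem_erase.2 ⟨hmp.symm, h.pD.1⟩), hpU⟩
        · exact mem_sdiff.2 ⟨mem_insert_of_mem (mem_erase.2 ⟨hmq.symm, h.pD.2⟩), hqU⟩
      · obtain ⟨h1, h2⟩ := mem_sdiff.1 hz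
        rcases mem_insert.1 h1 with h3 | h3
        · rw [h3]; exact mem_insert_self _ _
        · obtain ⟨h4, h5⟩ := mem_erase.1 h3
          have h6 : z ∈ ({m, p, q} : Finset V) := by
            rcases mem_insert.1 hy with rfl | hy
            · exact h.nbr_a haE h5 h2 hyz
            · exact h.nbr_leaf (mem_insert_of_mem hy) h5 h2 hyz
          rcases mem_insert.1 h6 with h7 | h7
          · exact absurd h7 h4
          · exact mem_insert_of_mem h7
    · obtain ⟨h7, h8, h9, h10⟩ := hLne C hC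
      obtain ⟨hne, hCF⟩ := mem_erase.1 hC
      refine ⟨fun y hy => ?_, fun y hy z hz hyz => ?_⟩
      · refine mem_sdiff.2 ⟨mem_insert_of_mem (mem_erase.2
          ⟨fun he => h10 (he ▸ hy), hf.FD hCF hy⟩), fun h1 => ?_⟩
        exact disjoint_left.1 (hf.ge.FU C hCF) hy h1
      · obtain ⟨h1, h2⟩ := mem_sdiff.1 hz
        rcases mem_insert.1 h1 with h3 | h3
        · exact absurd (h3 ▸ hyz.symm) (h.pm.a_leaf hCF hne hy)
        · exact (hf.ge.sys.closed C hCF).2 y hy z
            (mem_sdiff.2 ⟨(mem_erase.1 h3).2, h2⟩) hyz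
  · rcases mem_insert.1 hC with rfl | hC
    · exact fc_tri h.ap (h.adj_q hm) h.pq
    · exact hf.ge.sys.fc C (mem_erase.1 hC).2
  · rcases mem_insert.1 hC with rfl | hC <;> rcases mem_insert.1 hC' with rfl | hC'
    · exact absurd rfl hne
    · exact (hdis C' hC').symm
    · exact hdis C hC
    · exact hf.ge.sys.disj C (mem_erase.1 hC).2 C' (mem_erase.1 hC').2 hne

omit [Fintype ι] in
theorem new_notF (h : Pm3 B Q T U F j i a b c m p q) : {a, p, q} ∉ F.erase {m, p, q} := fun h1 =>
  h.aD (h.pm.frm.FD (mem_erase.1 h1).2 (mem_insert_self _ _))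

/-- `U` stays in the new `U`. -/
theorem U_sub [DecidableEq ι] (h : Pm3 B Q T U F j i a b c m p q) (hm : MTE B Q T U F)
    {U1 : Finset V} {F1 : Finset (Finset V)} (h' : Frm B Q (insert i (T.erase j)) U1 F1) :
    U ⊆ U1 := by
  have hf := h.pm.frm
  have hsys := h.sys_new hm
  have hUD : U ⊆ Dp B Q (insert i (T.erase j)) := by
    rw [h.pm.Dp_new]
    intro u hu
    refine mem_insert_of_mem (mem_erase.2 ⟨?_, hf.ge.sub hu⟩)
    rintro rfl
    exact disjoint_left.1 (hf.ge.FU _ h.pm.hW) (by simp) hu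
  refine h.pm.tight_sub h' hUD ⟨hsys.closed, fun C hC => (hsys.fc C hC).odd, hsys.disj⟩ ?_ ?_
  · rw [h.pm.sv_new h', card_insert_of_notMem h.new_notF, card_erase_add_one h.pm.hW]
  · intro z hz
    obtain ⟨L, hL, hne, w, hw, hzw⟩ := hf.U_sees hz {m, p, q}
    exact ⟨w, (h.pm.crit_L hL hne hw).1, (h.pm.crit_L hL hne hw).2, hzw⟩

/-- **the exchanged packing is again of kind `MTE`**, with the same `U` and the same even part. -/
theorem mte [DecidableEq ι] (h : Pm3 B Q T U F j i a b c m p q) (hm : MTE B Q T U F)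
    {U1 : Finset V} {F1 : Finset (Finset V)} (h' : Frm B Q (insert i (T.erase j)) U1 F1) :
    MTE B Q (insert i (T.erase j)) U1 F1 ∧ U1 = U ∧
      Ep B Q (insert i (T.erase j)) U1 F1 = Ep B Q T U F := by
  have h1 := h.E_sub h'
  have h2 := h.U_sub hm h'
  have h3 := card_le_card h1
  have h4 := card_le_card h2
  refine ⟨⟨h', fun T' U' F' hf' => ?_, fun T' U' F' hf' hle => ?_⟩, ?_, ?_⟩
  · have h5 := hm.emin T' U' F' hf'
    omega
  · have h5 := hm.umax T' U' F' hf' (by omega)
    omega
  · have h5 := hm.umax _ _ _ h' h3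
    exact (eq_of_subset_of_card_le h2 h5).symm
  · exact eq_of_subset_of_card_le h1 (hm.emin _ _ _ h')

/-- the leaves of the exchanged frame. -/
theorem F_new [DecidableEq ι] (h : Pm3 B Q T U F j i a b c m p q) (hm : MTE B Q T U F)
    {U1 : Finset V} {F1 : Finset (Finset V)} (h' : Frm B Q (insert i (T.erase j)) U1 F1) :
    F1 = insert {a, p, q} (F.erase {m, p, q}) := by
  obtain ⟨_, hU, hE⟩ := h.mte hm h'
  subst hU
  have hsys := h.sys_new hm
  refine fcsys_eq h'.ge.sys hsys ?_
  have hf := h.pm.frm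
  have hD := h.pm.Dp_new
  ext v
  constructor
  · intro hv
    obtain ⟨C, hC, hvC⟩ := mem_biUnion.1 hv
    have h1 := h'.FD hC hvC
    have h2 : v ∉ U1 := fun h3 => disjoint_left.1 (h'.ge.FU C hC) hvC h3
    have h3 : v ∉ Ep B Q T U1 F := by
      rw [← hE]
      exact fun h4 => disjoint_left.1 (h'.ge.FE C hC) hvC h4
    rw [hD] at h1
    rcases mem_insert.1 h1 with rfl | h1
    · exact mem_biUnion.2 ⟨{v, p, q}, mem_insert_self _ _, mem_insert_self _ _⟩
    · obtain ⟨h4, h5⟩ := mem_erase.1 h1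
      rcases hf.three_cases h5 h3 with h6 | ⟨L, hL, hvL⟩
      · exact absurd h6 h2
      · by_cases hne : L = {m, p, q}
        · subst hne
          rcases mem_insert.1 hvL with h7 | h7
          · exact absurd h7 h4
          · exact mem_biUnion.2 ⟨{a, p, q}, mem_insert_self _ _, mem_insert_of_mem h7⟩
        · exact mem_biUnion.2 ⟨L, mem_insert_of_mem (mem_erase.2 ⟨hne, hL⟩), hvL⟩
  · intro hv
    obtain ⟨C, hC, hvC⟩ := mem_biUnion.1 hv
    have h1 := (hsys.closed C hC).1 hvC
    obtain ⟨h2, h3⟩ := mem_sdiff.1 h1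
    have h4 : v ∉ Ep B Q (insert i (T.erase j)) U1 F1 := by
      rw [hE]
      intro h5
      rcases mem_insert.1 hC with rfl | hC
      · rcases mem_insert.1 hvC with h6 | h6
        · rw [h6] at h5
          exact h.aD (Frm.ED h5)
        · exact disjoint_left.1 (hf.ge.FE _ h.pm.hW) (mem_insert_of_mem h6) h5
      · exact disjoint_left.1 (hf.ge.FE C (mem_erase.1 hC).2) hvC h5
    rcases h'.three_cases h2 h4 with h5 | ⟨L, hL, hvL⟩
    · exact absurd h5 h3
    · exact mem_biUnion.2 ⟨L, hL, hvL⟩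

/-- **the number of single traces does not grow** in an `MTN` frame. -/
theorem nt_le [DecidableEq ι] (h : Pm3 B Q T U F j i a b c m p q) (hm : MTN B Q T U F)
    (hr : Reg B Q) : nt B {a, p, q} 1 ≤ nt B {m, p, q} 1 := by
  obtain ⟨U1, F1, h'⟩ := h.pm.exists_new
  obtain ⟨h1, _, _⟩ := h.mte hm.toMTE h'
  have h2 := hm.nmax hr _ _ _ h1
  rw [h.F_new hm.toMTE h', sum_insert h.new_notF, ← add_sum_erase F _ h.pm.hW] at h2
  exact Nat.le_of_add_le_add_right h2

end Pm3

end Pool.Agent.Hyp6
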