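import Pool.Agent.Hyp6.L3P8a
import Pool.Agent.Hyp6.L3Ue
import Pool.Agent.Hyp6.L3Rw
import Pool.Agent.Hyp6.L3MB
import Pool.Agent.Hyp6.L3T0
import Pool.Agent.Hyp6.L3S4

/-!
# HYP6 L3P8b: four hits on a leaf of type (3;1)

`L` is a leaf of type (3;1) of an `MTN` frame, its own class, and the triple `j` has four hits on it and at
least four hits on the other leaves. Then one point of the triple has four hits on `L`, or one point
has three hits, all on blocks with the point `m` of the single block and one more point of `L`, and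
another point of the triple lies on the single block (`MTN.row31`).
-/

set_option autoImplicit false

namespace Pool.Agent.Hyp6

open Finset Pool.Agent.Hyp5 Rt

universe u v

variable {V : Type v} [DecidableEq V] {ι : Type u} [Fintype ι] {B : ι → Finset V}

variable {Q U : Finset V} {T : Finset ι} {F : Finset (Finset V)} {j : ι} {L : Finset V}

omit [Fintype ι] in
/-- a triple added to the rest costs at least one. -/
theorem Frm.rho_DT (h : Frm B Q T U F) (hj : j ∈ T) :
    rho B (Dp B Q T) + 1 ≤ rho B (Dp B Q T ∪ (B j ∩ Q)) := by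
  classical
  have h1 : Q ⊆ (Dp B Q T ∪ (B j ∩ Q)) ∪ (Q ∩ (T.erase j).biUnion B) := by
    intro v hv
    by_cases h2 : v ∈ (T.erase j).biUnion B
    · exact mem_union_right _ (mem_inter.2 ⟨hv, h2⟩)
    by_cases h3 : v ∈ B j
    · exact mem_union_left _ (mem_union_right _ (mem_inter.2 ⟨h3, hv⟩))
    · refine mem_union_left _ (mem_union_left _ (mem_sdiff.2 ⟨hv, fun h4 => ?_⟩))
      obtain ⟨k, hk, hvk⟩ := mem_biUnion.1 h4
      by_cases hkj : k = j
      · exact h3 (hkj ▸ hvk)
      · exact h2 (mem_biUnion.2 ⟨k, mem_erase.2 ⟨hkj, hk⟩, hvk⟩)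
  have hc1 : Cov B (Dp B Q T ∪ (B j ∩ Q)) :=
    h.covD.union (h.cov.mono inter_subset_right)
  have hc2 : Cov B (Q ∩ (T.erase j).biUnion B) := h.cov.mono inter_subset_left
  have h2 := rho_mono h1 (hc1.union hc2)
  have h3 := rho_union_le hc1 hc2
  have h4 : rho B (Q ∩ (T.erase j).biUnion B) ≤ (T.erase j).card := rho_le inter_subset_right
  have h5 := card_erase_add_one hj
  have h6 := h.rhoD
  omega

/-- **a pair of a triple whose third point sees another leaf is refused**. -/
theorem Frm.pair_ref3 (h : Frm B Q T U F) (hj : j ∈ T) (hL : L ∈ F)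
    (hfree : ∀ M ∈ F, M ≠ L → ∀ Z ⊆ U, Z.card ≤ (nbF (gr B) (F \ {L, M}) Z).card) {x y z : V}
    (hjQ : B j ∩ Q = {x, y, z}) (hz : ∃ M ∈ F, M ≠ L ∧ ∃ m ∈ M, (gr B).Adj z m) :
    rho B L + 1 ≤ rho B (insert x (insert y L)) := by
  classical
  obtain ⟨M, hM, hne, w, hw, hzw⟩ := hz
  have hmem : ∀ v ∈ ({x, y, z} : Finset V), v ∈ B j ∧ v ∈ Q := fun v hv =>
    mem_inter.1 (by rw [hjQ]; exact hv)
  have hzM : z ∉ M := fun h1 => Frm.T_notD (Q := Q) hj (hmem z (by simp)).1 (h.FD hM h1)
  have hfr : Frr B (Dp B Q T) {L, M} := h.frr_of_hall (by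
    intro C hC
    rcases mem_insert.1 hC with rfl | hC
    · exact hL
    · rw [mem_singleton.1 hC]; exact hM) (hfree M hM hne)
  have hc1 : Cov B (insert x (insert y L)) := by
    refine h.cov.mono ?_
    intro v hv
    rcases mem_insert.1 hv with rfl | hv
    · exact (hmem v (by simp)).2
    rcases mem_insert.1 hv with rfl | hv
    · exact (hmem v (by simp)).2
    · exact h.FQ hL hv
  have hc2 : Cov B (insert z M) := by
    refine h.cov.mono ?_
    intro v hv
    rcases mem_insert.1 hv with rfl | hv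
    · exact (hmem v (by simp)).2
    · exact h.FQ hM hv
  have h1 := hfr.rho_le h.covD (hc1.union hc2) (W := Dp B Q T ∪ (B j ∩ Q)) (by
    have h2 : ({L, M} : Finset (Finset V)).biUnion id = L ∪ M := by
      rw [biUnion_insert, singleton_biUnion]
      rfl
    rw [h2]
    intro v hv
    rcases mem_union.1 hv with hv | hv
    · by_cases h3 : v ∈ L
      · exact mem_union_right _ (mem_union_left _ (mem_insert_of_mem (mem_insert_of_mem h3)))
      by_cases h4 : v ∈ M
      · exact mem_union_right _ (mem_union_right _ (mem_insert_of_mem h4))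
      · refine mem_union_left _ (mem_sdiff.2 ⟨hv, fun h5 => ?_⟩)
        rcases mem_union.1 h5 with h5 | h5
        · exact h3 h5
        · exact h4 h5
    · rw [hjQ] at hv
      simp only [mem_insert, mem_singleton] at hv
      rcases hv with rfl | rfl | rfl
      · exact mem_union_right _ (mem_union_left _ (mem_insert_self _ _))
      · exact mem_union_right _ (mem_union_left _ (mem_insert_of_mem (mem_insert_self _ _)))
      · exact mem_union_right _ (mem_union_right _ (mem_insert_self _ _)))
  rw [sum_pair hne.symm] at h1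
  have h2 := rho_union_le hc1 hc2
  have h3 := rho_insert_fc (h.ge.sys.fc M hM) (h.sv_leaf hM) ⟨w, hw, hzw⟩ hzM
  have h4 := h.rho_DT hj
  omega

/-- a point of a triple has at most four hits on the leaves. -/
theorem Frm.four_p (h : Frm B Q T U F) (hr : Reg B Q) (hj : j ∈ T) {x : V}
    (hx : x ∈ B j ∩ Q) : ∑ C ∈ F, uh B x C ≤ 4 := by
  classical
  have h1 : ∑ C ∈ F, uh B x C = hit B {x} (F.biUnion id) := (hit_biUnion _ h.sepF).symm
  rw [h1, hit_eq, sum_singleton]
  have hjn : j ∉ univ.filter (fun i => x ∈ B i ∧ (B i ∩ F.biUnion id).Nonempty) := by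
    intro hk
    obtain ⟨_, _, w, hw⟩ := mem_filter.1 hk
    obtain ⟨hwk, hwF⟩ := mem_inter.1 hw
    obtain ⟨C, hC, hwC⟩ := mem_biUnion.1 hwF
    exact (mem_sdiff.1 (h.FD hC hwC)).2 (mem_biUnion.2 ⟨j, hj, hwk⟩)
  have h3 : insert j
      (univ.filter (fun i => x ∈ B i ∧ (B i ∩ F.biUnion id).Nonempty)) ⊆
      univ.filter (fun i => x ∈ B i) := by
    intro k hk
    rw [mem_insert] at hk
    rcases hk with rfl | hk
    · exact mem_filter.2 ⟨mem_univ _, (mem_inter.1 hx).1⟩
    · exact mem_filter.2 ⟨mem_univ _, (mem_filter.1 hk).2.1⟩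
  have h5 := card_le_card h3
  rw [card_insert_of_notMem hjn, hr x (mem_inter.1 hx).2] at h5
  omega

/-- the hits on the other leaves: none without another seen leaf, and at most four with the hits on `L`. -/
theorem Frm.oth_p (h : Frm B Q T U F) (hr : Reg B Q) (hj : j ∈ T) (hL : L ∈ F) {x : V}
    (hx : x ∈ B j ∩ Q) : ∑ C ∈ F.erase L, uh B x C + (Ez B L x).card ≤ 4 ∧
      ((¬ ∃ M ∈ F, M ≠ L ∧ ∃ m ∈ M, (gr B).Adj x m) → ∑ C ∈ F.erase L, uh B x C = 0) := by
  classical
  have h1 := h.four_p hr hj hx
  rw [← add_sum_erase F _ hL] at h1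
  have h2 : uh B x L = (Ez B L x).card := by
    unfold uh
    rw [hit_eq_Ez, sum_singleton]
  refine ⟨by omega, fun h3 => sum_eq_zero fun C hC => ?_⟩
  obtain ⟨hne, hCF⟩ := mem_erase.1 hC
  refine uh_zero hCF (h.T_notin hj hx hCF) fun h4 => h3 ?_
  obtain ⟨_, y, hy, hxy⟩ := mem_slf.1 h4
  exact ⟨C, hCF, hne, y, hy, hxy⟩

namespace T31

variable {m p q : V} {s : ι}

theorem swap (h : T31 B L m p q s) : T31 B L m q p s where
  eq := by
    rw [h.eq]
    ext v
    simp only [mem_insert, mem_singleton]
    tauto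
  ab := h.ac
  ac := h.ab
  bc := h.bc.symm
  cA := by
    rw [← h.cA]
    congr 1
    ext i
    rw [mem_bl, mem_bl]
    exact and_comm
  cB := h.cC
  cC := h.cB
  tr := h.tr
  cov := by
    intro i hi
    rcases h.cov i hi with h1 | h1 | h1 | h1
    · left
      rw [mem_bl] at h1 ⊢
      exact h1.symm
    · exact Or.inr (Or.inr (Or.inl h1))
    · exact Or.inr (Or.inl h1)
    · exact Or.inr (Or.inr (Or.inr h1))
  two := h.two

/-- the hits of a point on the blocks of the four kinds. -/
theorem Ez_le (h : T31 B L m p q s) (x : V) : (Ez B L x).card ≤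
    ((bl B p q).filter (fun k => x ∈ B k)).card + ((bl B m p).filter (fun k => x ∈ B k)).card +
      ((bl B m q).filter (fun k => x ∈ B k)).card + (if x ∈ B s then 1 else 0) := by
  classical
  have h1 : Ez B L x ⊆ (bl B p q).filter (fun k => x ∈ B k) ∪
      (bl B m p).filter (fun k => x ∈ B k) ∪ (bl B m q).filter (fun k => x ∈ B k) ∪
      (if x ∈ B s then {s} else ∅) := by
    intro k hk
    obtain ⟨h2, h3⟩ := mem_Ez.1 hk
    rcases h.cov k h3 with h4 | h4 | h4 | h4
    · exact mem_union_left _ (mem_union_left _ (mem_union_left _ (mem_filter.2 ⟨h4, h2⟩)))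
    · exact mem_union_left _ (mem_union_left _ (mem_union_right _ (mem_filter.2 ⟨h4, h2⟩)))
    · exact mem_union_left _ (mem_union_right _ (mem_filter.2 ⟨h4, h2⟩))
    · subst h4
      rw [if_pos h2]
      exact mem_union_right _ (mem_singleton_self k)
  have h2 := card_le_card h1
  have h3 : (if x ∈ B s then ({s} : Finset ι) else ∅).card = (if x ∈ B s then 1 else 0) := by
    split_ifs <;> simp
  have h4 := card_union_le ((bl B p q).filter (fun k => x ∈ B k) ∪
      (bl B m p).filter (fun k => x ∈ B k) ∪ (bl B m q).filter (fun k => x ∈ B k))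
      (if x ∈ B s then {s} else ∅)
  have h5 := card_union_le ((bl B p q).filter (fun k => x ∈ B k) ∪
      (bl B m p).filter (fun k => x ∈ B k)) ((bl B m q).filter (fun k => x ∈ B k))
  have h6 := card_union_le ((bl B p q).filter (fun k => x ∈ B k))
      ((bl B m p).filter (fun k => x ∈ B k))
  omega

end T31

omit [Fintype ι] in
/-- the points of a triple on the blocks of a family: every block has at most one of them. -/
theorem three_le {K : Finset ι} {x y z : V} (hxy : x ≠ y) (hxz : x ≠ z) (hyz : y ≠ z)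
    (hK : ∀ k ∈ K, (B k ∩ {x, y, z}).card ≤ 1) :
    (K.filter (fun k => x ∈ B k)).card + (K.filter (fun k => y ∈ B k)).card +
      (K.filter (fun k => z ∈ B k)).card ≤ K.card := by
  classical
  simp only [card_filter]
  rw [← sum_add_distrib, ← sum_add_distrib, card_eq_sum_ones]
  refine sum_le_sum fun k hk => ?_
  have h1 := hK k hk
  have h2 : (B k ∩ {x, y, z}).card =
      (if x ∈ B k then 1 else 0) + ((if y ∈ B k then 1 else 0) + (if z ∈ B k then 1 else 0)) := by
    have h4 : B k ∩ {x, y, z} = ({x, y, z} : Finset V).filter (fun v => v ∈ B k) := by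
      ext v
      rw [mem_inter, mem_filter]
      exact and_comm
    rw [h4, card_filter, sum_insert (by simp [hxy, hxz]), sum_insert (by simp [hyz]),
      sum_singleton]
  omega

end Pool.Agent.Hyp6
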