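import Pool.Agent.Hyp6.L3P8b

/-!
# HYP6 L3P8c: two points of a triple on the single block of a leaf of type (3;1)

`Frm.pmS`: the data `Pm` for the single block. `MTN.noS2`: in an `MTN` frame the third point of the
triple has no hit or at least four hits on the leaf.
-/

set_option autoImplicit false

namespace Pool.Agent.Hyp6

open Finset Pool.Agent.Hyp5 Rt

universe u v

variable {V : Type v} [DecidableEq V] {ι : Type u} [Fintype ι] {B : ι → Finset V}

variable {Q U : Finset V} {T : Finset ι} {F : Finset (Finset V)} {j : ι} {L : Finset V}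
  {m p q x y z : V} {s : ι}

/-- the single block with two points of a triple. -/
theorem Frm.pmS (h : Frm B Q T U F) (hj : j ∈ T) (hL : L ∈ F)
    (hfree : ∀ M ∈ F, M ≠ L → ∀ Z ⊆ U, Z.card ≤ (nbF (gr B) (F \ {L, M}) Z).card)
    (h31 : T31 B L m p q s) (hjQ : B j ∩ Q = {x, y, z}) (hx : x ∈ B s) (hy : y ∈ B s) :
    Pm B Q T U F j s {m, p, q} z x y m := by
  classical
  obtain ⟨hxy, hxz, hyz⟩ : x ≠ y ∧ x ≠ z ∧ y ≠ z := by
    obtain ⟨a, b, c, h1, h2, h3, h4⟩ := h.three_points hj
    have h5 : ({x, y, z} : Finset V).card = 3 := by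
      rw [← hjQ, h1]
      exact card_eq_three.2 ⟨a, b, c, h2, h3, h4, rfl⟩
    refine ⟨?_, ?_, ?_⟩
    · rintro rfl
      have h6 := card_le_two (a := x) (b := z)
      simp only [mem_insert, true_or, insert_eq_of_mem] at h5
      omega
    · rintro rfl
      have h6 := card_le_two (a := y) (b := x)
      simp only [mem_insert, mem_singleton, or_true, insert_eq_of_mem] at h5
      omega
    · rintro rfl
      have h6 := card_le_two (a := x) (b := y)
      simp only [mem_singleton, insert_eq_of_mem] at h5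
      omega
  have hLe := h31.eq
  have hmL : m ∈ L := by rw [hLe]; simp
  have hms : m ∈ B s := by
    have h1 : m ∈ B s ∩ L := by rw [h31.tr]; simp
    exact (mem_inter.1 h1).1
  have hmQ := h.FQ hL hmL
  have hmem : ∀ v ∈ ({x, y, z} : Finset V), v ∈ B j ∧ v ∈ Q := fun v hv =>
    mem_inter.1 (by rw [hjQ]; exact hv)
  have hnD : ∀ v ∈ ({x, y, z} : Finset V), v ≠ m := by
    rintro v hv rfl
    exact Frm.T_notD (Q := Q) hj (hmem v hv).1 (h.FD hL hmL)
  have hmx := hnD x (by simp)
  have hmy := hnD y (by simp)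
  have h3 : ({m, x, y} : Finset V).card = 3 :=
    card_eq_three.2 ⟨m, x, y, hmx.symm, hmy.symm, hxy, rfl⟩
  have hsub : ({m, x, y} : Finset V) ⊆ B s ∩ Q := by
    intro v hv
    simp only [mem_insert, mem_singleton] at hv
    rcases hv with rfl | rfl | rfl
    · exact mem_inter.2 ⟨hms, hmQ⟩
    · exact mem_inter.2 ⟨hx, (hmem v (by simp)).2⟩
    · exact mem_inter.2 ⟨hy, (hmem v (by simp)).2⟩
  have hle : (B s ∩ Q).card ≤ 3 := h.reg3 s
  have heq : {m, x, y} = B s ∩ Q := eq_of_subset_of_card_le hsub (by rw [h3]; exact hle)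
  refine ⟨h, hj, ?_, hLe ▸ hL, by simp, ?_, heq.symm, by rw [← heq, h3]⟩
  · rw [hjQ]
    ext v
    simp only [mem_insert, mem_singleton]
    tauto
  · rw [← hLe]
    exact hfree

/-- **the third point of the triple** has no hit or at least four hits. -/
theorem MTN.noS2 [DecidableEq ι] (hm : MTN B Q T U F) (hr : Reg B Q) (hj : j ∈ T) (hL : L ∈ F)
    (hfree : ∀ M ∈ F, M ≠ L → ∀ Z ⊆ U, Z.card ≤ (nbF (gr B) (F \ {L, M}) Z).card)
    (h31 : T31 B L m p q s) (h1 : nt B L 1 ≤ 1) (hjQ : B j ∩ Q = {x, y, z}) (hx : x ∈ B s)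
    (hy : y ∈ B s) (hz : (Ez B L z).Nonempty) : 4 ≤ (Ez B L z).card := by
  have hf := hm.toMTE.frm
  have hP := hf.pmS hj hL hfree h31 hjQ hx hy
  have hLe := h31.eq
  have hzj : z ∈ B j ∩ Q := by rw [hjQ]; simp
  have hzL : z ∉ L := hf.T_notin hj hzj hL
  have hzs : z ∉ B s := by
    intro h2
    have h3 : z ∈ B s ∩ Q := mem_inter.2 ⟨h2, (mem_inter.1 hzj).2⟩
    rw [hP.hiQ] at h3
    obtain ⟨ha, hb, _⟩ := hP.ne
    simp only [mem_insert, mem_singleton] at h3
    rcases h3 with h3 | h3 | h3
    · exact hzL (by rw [h3, hLe]; simp)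
    · exact ha h3
    · exact hb h3
  have hc3 : ({m, p, q} : Finset V).card = 3 :=
    card_eq_three.2 ⟨m, p, q, h31.ab, h31.ac, h31.bc, rfl⟩
  have hzp : z ≠ p := fun h2 => hzL (by rw [h2, hLe]; simp)
  have hzq : z ≠ q := fun h2 => hzL (by rw [h2, hLe]; simp)
  -- z sees p and q
  have hadj : (gr B).Adj z p ∧ (gr B).Adj z q := by
    obtain ⟨k, hk⟩ := hz
    obtain ⟨h2, h3⟩ := mem_Ez.1 hk
    have hPq : p ∈ B k ∨ q ∈ B k := by
      rcases h31.cov k h3 with h4 | h4 | h4 | h4
      · exact Or.inl (mem_bl.1 h4).1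
      · exact Or.inl (mem_bl.1 h4).2
      · exact Or.inr (mem_bl.1 h4).2
      · exact absurd (h4 ▸ h2) hzs
    rcases hPq with h4 | h4
    · have ha : (gr B).Adj z p := ⟨hzp, k, h2, h4⟩
      exact ⟨ha, Pm3.adj_q ⟨hP, hc3, ha⟩ hm.toMTE⟩
    · have ha : (gr B).Adj z q := ⟨hzq, k, h2, h4⟩
      have hP' : Pm B Q T U F j s {m, q, p} z x y m := by
        have h5 := hf.pmS hj hL hfree h31.swap hjQ hx hy
        exact h5
      have hc3' : ({m, q, p} : Finset V).card = 3 :=
        card_eq_three.2 ⟨m, q, p, h31.ac, h31.ab, h31.bc.symm, rfl⟩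
      exact ⟨Pm3.adj_q ⟨hP', hc3', ha⟩ hm.toMTE, ha⟩
  have h3P : Pm3 B Q T U F j s z x y m p q := ⟨hP, hc3, hadj.1⟩
  -- no block contains z, p, q
  have hcov : Cov B ({z, p, q} : Finset V) := by
    refine hf.cov.mono ?_
    intro v hv
    simp only [mem_insert, mem_singleton] at hv
    rcases hv with rfl | rfl | rfl
    · exact (mem_inter.1 hzj).2
    · exact hf.FQ hL (by rw [hLe]; simp)
    · exact hf.FQ hL (by rw [hLe]; simp)
  have hno : ∀ k, ¬ (z ∈ B k ∧ p ∈ B k ∧ q ∈ B k) := by
    rintro k ⟨k1, k2, k3⟩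
    have h4 : rho B ({z, p, q} : Finset V) ≤ 1 := rho_le_one (i := k) (by
      intro v hv
      simp only [mem_insert, mem_singleton] at hv
      rcases hv with rfl | rfl | rfl
      · exact k1
      · exact k2
      · exact k3)
    have h5 := hP.one (X := insert z ((Dp B Q T).erase m)) hcov (by
      intro v hv
      rcases mem_insert.1 hv with rfl | hv
      · exact mem_union_right _ (by simp)
      · obtain ⟨h6, h7⟩ := mem_erase.1 hv
        by_cases h8 : v ∈ ({m, p, q} : Finset V)
        · simp only [mem_insert, mem_singleton] at h8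
          rcases h8 with h8 | h8 | h8
          · exact absurd h8 h6
          · exact mem_union_right _ (by simp [h8])
          · exact mem_union_right _ (by simp [h8])
        · exact mem_union_left _ (mem_sdiff.2 ⟨h7, h8⟩))
    have h6 := hP.rho_new
    have h7 := hf.sv_leaf hP.hW
    unfold sv at h7
    rw [hc3] at h7
    omega
  -- the numbers of traces
  have hnt := h3P.nt_le hm hr
  rw [← hLe] at hnt
  have hr' : Reg B ({z, p, q} : Finset V) := by
    refine hr.mono ?_
    intro v hv
    simp only [mem_insert, mem_singleton] at hv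
    rcases hv with rfl | rfl | rfl
    · exact (mem_inter.1 hzj).2
    · exact hf.FQ hL (by rw [hLe]; simp)
    · exact hf.FQ hL (by rw [hLe]; simp)
  have hcz : ({z, p, q} : Finset V).card = 3 :=
    card_eq_three.2 ⟨z, p, q, hzp, hzq, h31.bc, rfl⟩
  have hsubQ : ({z, p, q} : Finset V) ⊆ Q := by
    intro v hv
    simp only [mem_insert, mem_singleton] at hv
    rcases hv with rfl | rfl | rfl
    · exact (mem_inter.1 hzj).2
    · exact hf.FQ hL (by rw [hLe]; simp)
    · exact hf.FQ hL (by rw [hLe]; simp)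
  have hinc := inc_eq3 hr' (hf.reg3.mono hsubQ)
  have hn3 : nt B ({z, p, q} : Finset V) 3 = 0 := by
    unfold nt
    rw [card_eq_zero]
    ext k
    rw [mem_trs]
    simp only [notMem_empty, iff_false]
    intro h4
    have h5 : B k ∩ {z, p, q} = {z, p, q} :=
      eq_of_subset_of_card_le inter_subset_right (by rw [hcz, h4])
    have h6 : ∀ v ∈ ({z, p, q} : Finset V), v ∈ B k := fun v hv =>
      (mem_inter.1 (by rw [h5]; exact hv : v ∈ B k ∩ {z, p, q})).1
    exact hno k ⟨h6 z (by simp), h6 p (by simp), h6 q (by simp)⟩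
  have hn2 : nt B ({z, p, q} : Finset V) 2 ≤ (bl B z p).card + (bl B z q).card + (bl B p q).card := by
    unfold nt
    refine (card_le_card (t := bl B z p ∪ bl B z q ∪ bl B p q) ?_).trans ?_
    · intro k hk
      rw [mem_trs] at hk
      by_contra hcon
      simp only [mem_union, mem_bl, not_or, not_and_or] at hcon
      obtain ⟨⟨h4, h5⟩, h6⟩ := hcon
      have h7 : (B k ∩ {z, p, q}).card ≤ 1 := by
        rw [card_le_one]
        intro v hv w hw
        obtain ⟨hv1, hv2⟩ := mem_inter.1 hv
        obtain ⟨hw1, hw2⟩ := mem_inter.1 hw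
        simp only [mem_insert, mem_singleton] at hv2 hw2
        have hzp' : z ∈ B k → p ∈ B k → False := fun a b => (h4.resolve_left (fun c => c a)) b
        have hzq' : z ∈ B k → q ∈ B k → False := fun a b => (h5.resolve_left (fun c => c a)) b
        have hpq' : p ∈ B k → q ∈ B k → False := fun a b => (h6.resolve_left (fun c => c a)) b
        clear hsubQ hr' hinc hn3 hnt hno hcov h3P hadj hP hfree hm hr hf
        rcases hv2 with e1 | e1 | e1 <;> rcases hw2 with e2 | e2 | e2
        · rw [e1, e2]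
        · rw [e1] at hv1
          rw [e2] at hw1
          exact (hzp' hv1 hw1).elim
        · rw [e1] at hv1
          rw [e2] at hw1
          exact (hzq' hv1 hw1).elim
        · rw [e1] at hv1
          rw [e2] at hw1
          exact (hzp' hw1 hv1).elim
        · rw [e1, e2]
        · rw [e1] at hv1
          rw [e2] at hw1
          exact (hpq' hv1 hw1).elim
        · rw [e1] at hv1
          rw [e2] at hw1
          exact (hzq' hw1 hv1).elim
        · rw [e1] at hv1
          rw [e2] at hw1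
          exact (hpq' hw1 hv1).elim
        · rw [e1, e2]
      omega
    · have h4 := card_union_le (bl B z p ∪ bl B z q) (bl B p q)
      have h5 := card_union_le (bl B z p) (bl B z q)
      omega
  have hcA := h31.cA
  have hdis : Disjoint (bl B z p) (bl B z q) := by
    rw [disjoint_left]
    intro k h4 h5
    rw [mem_bl] at h4 h5
    exact hno k ⟨h4.1, h4.2, h5.2⟩
  have hsub : bl B z p ∪ bl B z q ⊆ Ez B L z := by
    intro k hk
    rw [mem_Ez]
    rcases mem_union.1 hk with h4 | h4
    · rw [mem_bl] at h4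
      exact ⟨h4.1, p, mem_inter.2 ⟨h4.2, by rw [hLe]; simp⟩⟩
    · rw [mem_bl] at h4
      exact ⟨h4.1, q, mem_inter.2 ⟨h4.2, by rw [hLe]; simp⟩⟩
  have h4 := card_le_card hsub
  rw [card_union_of_disjoint hdis] at h4
  rw [hcz, hn3] at hinc
  omega

end Pool.Agent.Hyp6
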