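import Pool.Agent.Hyp6.L3P8c

/-!
# HYP6 L3P8d: four hits on a leaf of type (3;1)

`MTN.row31`: `L` is a leaf of type (3;1) of an `MTN` frame, its own class, and the triple `j` has four
hits on it and at least four hits on the other leaves. Then a point of the triple has four hits on `L`,
or a point has three hits, all on blocks with the point `m` of the single block and one more point of
`L`, and another point of the triple lies on the single block.
-/

set_option autoImplicit false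

namespace Pool.Agent.Hyp6

open Finset Pool.Agent.Hyp5 Rt

universe u v

/-- the numbers of hits of a point: `α` on the three blocks `{p, q}`, `β` on `{m, p}`, `γ` on `{m, q}`,
`σ` on the single block, `n` on the other leaves. -/
structure Cn31 {V : Type v} (α β γ σ n : V → ℕ) (o : V → Prop) (x y z : V) : Prop where
  sA : α x + α y + α z ≤ 3
  sB : β x + β y + β z ≤ 2
  sC : γ x + γ y + γ z ≤ 2
  sS : σ x + σ y + σ z ≤ 2
  tot : 4 ≤ (α x + β x + γ x + σ x) + (α y + β y + γ y + σ y) + (α z + β z + γ z + σ z)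
  pA : o z → 1 ≤ α x → β y + γ y + σ y = 0
  pB : o z → 1 ≤ β x → α y + γ y = 0
  pC : o z → 1 ≤ γ x → α y + β y = 0
  pS : o z → σ x + σ y ≤ 1
  f1 : 1 ≤ α z + β z + γ z → (o x ↔ o y)
  nS : 1 ≤ σ x → 1 ≤ σ y → α z + β z + γ z = 0
  n0 : ¬ o z → n z = 0
  n4 : n z + (α z + β z + γ z + σ z) ≤ 4
  s1 : σ z ≤ 1

/-- two points with full hits: at most three hits elsewhere. -/
theorem Cn31.two {V : Type v} {α β γ σ n : V → ℕ} {o : V → Prop} {x y z : V}
    (h1 : Cn31 α β γ σ n o x y z) (h2 : Cn31 α β γ σ n o y z x) (h3 : Cn31 α β γ σ n o z x y)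
    (h4 : Cn31 α β γ σ n o y x z) (h5 : Cn31 α β γ σ n o z y x) (h6 : Cn31 α β γ σ n o x z y)
    (hx : 1 ≤ α x + β x + γ x) (hy : 1 ≤ α y + β y + γ y) (hn : 4 ≤ n x + n y + n z) : False := by
  have e1 := h2.f1 hx
  have e2 := h3.f1 hy
  by_cases hz : o z
  · have hoy : o y := e1.2 hz
    have hox : o x := e2.1 hz
    have a1 := h1.pA hz
    have a2 := h4.pA hz
    have a3 := h6.pA hoy
    have a4 := h3.pA hoy
    have a5 := h2.pA hox
    have a6 := h5.pA hox
    have b1 := h1.pB hz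
    have b2 := h4.pB hz
    have b3 := h6.pB hoy
    have b4 := h3.pB hoy
    have b5 := h2.pB hox
    have b6 := h5.pB hox
    have c1 := h1.pC hz
    have c2 := h4.pC hz
    have c3 := h6.pC hoy
    have c4 := h3.pC hoy
    have c5 := h2.pC hox
    have c6 := h5.pC hox
    have s1 := h1.pS hz
    have s2 := h2.pS hox
    have s3 := h3.pS hoy
    have t := h1.tot
    have u1 := h1.sA
    have u2 := h1.sB
    have u3 := h1.sC
    have v1 := h1.s1
    have v2 := h2.s1
    have v3 := h3.s1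
    rcases Nat.lt_or_ge 0 (α x) with g | g
    · have := a1 g
      have := a3 g
      rcases Nat.lt_or_ge 0 (α y) with g' | g'
      · have := a2 g'
        omega
      · omega
    rcases Nat.lt_or_ge 0 (α y) with g' | g'
    · have := a2 g'
      omega
    rcases Nat.lt_or_ge 0 (α z) with g'' | g''
    · have := a4 g''
      omega
    rcases Nat.lt_or_ge 0 (β x) with k | k
    · have := b1 k
      have := b3 k
      rcases Nat.lt_or_ge 0 (β y) with k' | k'
      · have := b2 k'
        omega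
      · omega
    · rcases Nat.lt_or_ge 0 (γ x) with k2 | k2
      · have := c1 k2
        have := c3 k2
        rcases Nat.lt_or_ge 0 (γ y) with k' | k'
        · have := c2 k'
          omega
        · omega
      · omega
  · have hoy : ¬ o y := fun h => hz (e1.1 h)
    have hox : ¬ o x := fun h => hz (e2.2 h)
    have := h1.n0 hz
    have := h2.n0 hox
    have := h3.n0 hoy
    omega

/-- one point with full hits. -/
theorem Cn31.one {V : Type v} {α β γ σ n : V → ℕ} {o : V → Prop} {x y z : V}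
    (h1 : Cn31 α β γ σ n o x y z) (h2 : Cn31 α β γ σ n o y z x) (h3 : Cn31 α β γ σ n o z x y)
    (h6 : Cn31 α β γ σ n o x z y)
    (hy : α y + β y + γ y = 0) (hz : α z + β z + γ z = 0) (hn : 4 ≤ n x + n y + n z) :
    4 ≤ α x + β x + γ x + σ x ∨
      (3 ≤ α x + β x + γ x + σ x ∧ α x = 0 ∧ σ x = 0 ∧ (1 ≤ σ y ∨ 1 ≤ σ z)) := by
  have t := h1.tot
  have tS := h1.sS
  have hx : 1 ≤ α x + β x + γ x := by omega
  have e1 := h2.f1 hx
  have k := h2.n4
  have v1 := h1.s1
  have v2 := h2.s1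
  have v3 := h3.s1
  by_cases hoz : o z
  · have hoy : o y := e1.2 hoz
    have s1 := h1.pS hoz
    have s3 := h3.pS hoy
    have m1 := h2.nS
    have p1 := h1.pA hoz
    have p2 := h6.pA hoy
    rcases Nat.lt_or_ge 0 (σ y) with g | g
    · rcases Nat.lt_or_ge 0 (σ z) with g' | g'
      · have := m1 g g'
        omega
      · rcases Nat.lt_or_ge 0 (α x) with g'' | g''
        · have := p1 g''
          omega
        · right
          omega
    · rcases Nat.lt_or_ge 0 (σ z) with g' | g'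
      · rcases Nat.lt_or_ge 0 (α x) with g'' | g''
        · have := p2 g''
          omega
        · right
          omega
      · left
        omega
  · have hoy : ¬ o y := fun h => hoz (e1.1 h)
    have := h1.n0 hoz
    have := h3.n0 hoy
    omega

variable {V : Type v} [DecidableEq V] {ι : Type u} [Fintype ι] {B : ι → Finset V}

variable {Q U : Finset V} {T : Finset ι} {F : Finset (Finset V)} {j : ι} {L : Finset V}
  {m p q x y z : V} {s : ι}

/-- the number of the blocks of `K` through a point. -/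
def kc (B : ι → Finset V) (K : Finset ι) (x : V) : ℕ := (K.filter (fun k => x ∈ B k)).card

omit [Fintype ι] in
theorem kc_pos {K : Finset ι} {x : V} (h : 1 ≤ kc B K x) : ∃ k ∈ K, x ∈ B k := by
  obtain ⟨k, hk⟩ := card_pos.1 h
  exact ⟨k, (mem_filter.1 hk).1, (mem_filter.1 hk).2⟩

omit [Fintype ι] in
theorem kc_zero {K : Finset ι} {x : V} (h : kc B K x = 0) : ∀ k ∈ K, x ∉ B k := by
  intro k hk hx
  exact notMem_empty k ((card_eq_zero.1 h) ▸ mem_filter.2 ⟨hk, hx⟩)

omit [Fintype ι] in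
theorem kc_of {K : Finset ι} {x : V} (h : ∀ k ∈ K, x ∉ B k) : kc B K x = 0 := by
  unfold kc
  rw [card_eq_zero, filter_eq_empty_iff]
  exact h

/-- the hits of a point on the blocks of the four kinds. -/
theorem T31.le_Ez (h31 : T31 B L m p q s) (z : V) :
    kc B (bl B p q) z + kc B (bl B m p) z + kc B (bl B m q) z + (if z ∈ B s then 1 else 0) ≤
      (Ez B L z).card := by
  classical
  have hLe := h31.eq
  have hc3 : L.card = 3 := by
    rw [hLe]
    exact card_eq_three.2 ⟨m, p, q, h31.ab, h31.ac, h31.bc, rfl⟩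
  have hmL : m ∈ L := by rw [hLe]; simp
  have hpL : p ∈ L := by rw [hLe]; simp
  have hqL : q ∈ L := by rw [hLe]; simp
  have hms : m ∈ B s := by
    have h1 : m ∈ B s ∩ L := by rw [h31.tr]; simp
    exact (mem_inter.1 h1).1
  have hno : ∀ k, ¬ (m ∈ B k ∧ p ∈ B k ∧ q ∈ B k) := by
    rintro k ⟨k1, k2, k3⟩
    have h9 : L ⊆ B k := by
      intro v hv
      rw [hLe] at hv
      simp only [mem_insert, mem_singleton] at hv
      rcases hv with rfl | rfl | rfl
      · exact k1
      · exact k2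
      · exact k3
    have h10 := h31.two k
    rw [inter_eq_right.2 h9, hc3] at h10
    omega
  have d1 : Disjoint ((bl B p q).filter (fun k => z ∈ B k))
      ((bl B m p).filter (fun k => z ∈ B k)) := by
    rw [disjoint_left]
    intro k hk hk'
    have h7 := mem_bl.1 (mem_filter.1 hk).1
    have h8 := mem_bl.1 (mem_filter.1 hk').1
    exact hno k ⟨h8.1, h7.1, h7.2⟩
  have d2 : Disjoint ((bl B p q).filter (fun k => z ∈ B k) ∪
      (bl B m p).filter (fun k => z ∈ B k)) ((bl B m q).filter (fun k => z ∈ B k)) := by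
    rw [disjoint_left]
    intro k hk hk'
    have h8 := mem_bl.1 (mem_filter.1 hk').1
    have h7 : p ∈ B k := by
      rcases mem_union.1 hk with h7 | h7
      · exact (mem_bl.1 (mem_filter.1 h7).1).1
      · exact (mem_bl.1 (mem_filter.1 h7).1).2
    exact hno k ⟨h8.1, h7, h8.2⟩
  have hp1 : p ∉ B s ∧ q ∉ B s := by
    constructor
    · intro h7
      have h8 : p ∈ B s ∩ L := mem_inter.2 ⟨h7, hpL⟩
      rw [h31.tr, mem_singleton] at h8
      exact h31.ab h8.symm
    · intro h7
      have h8 : q ∈ B s ∩ L := mem_inter.2 ⟨h7, hqL⟩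
      rw [h31.tr, mem_singleton] at h8
      exact h31.ac h8.symm
  have d3 : Disjoint (((bl B p q).filter (fun k => z ∈ B k) ∪
      (bl B m p).filter (fun k => z ∈ B k)) ∪ (bl B m q).filter (fun k => z ∈ B k))
      (if z ∈ B s then {s} else ∅) := by
    rw [disjoint_left]
    intro k hk hk'
    have h7 : p ∈ B k ∨ q ∈ B k := by
      rcases mem_union.1 hk with h7 | h7
      · rcases mem_union.1 h7 with h7 | h7
        · exact Or.inl (mem_bl.1 (mem_filter.1 h7).1).1
        · exact Or.inl (mem_bl.1 (mem_filter.1 h7).1).2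
      · exact Or.inr (mem_bl.1 (mem_filter.1 h7).1).2
    have h8 : k = s := by
      split_ifs at hk' with h9
      · exact mem_singleton.1 hk'
      · exact absurd hk' (notMem_empty k)
    subst h8
    rcases h7 with h7 | h7
    · exact hp1.1 h7
    · exact hp1.2 h7
  have hsub : (((bl B p q).filter (fun k => z ∈ B k) ∪
      (bl B m p).filter (fun k => z ∈ B k)) ∪ (bl B m q).filter (fun k => z ∈ B k)) ∪
      (if z ∈ B s then {s} else ∅) ⊆ Ez B L z := by
    intro k hk
    rw [mem_Ez]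
    rcases mem_union.1 hk with h7 | h7
    · rcases mem_union.1 h7 with h7 | h7
      · rcases mem_union.1 h7 with h7 | h7
        · exact ⟨(mem_filter.1 h7).2, p, mem_inter.2 ⟨(mem_bl.1 (mem_filter.1 h7).1).1, hpL⟩⟩
        · exact ⟨(mem_filter.1 h7).2, m, mem_inter.2 ⟨(mem_bl.1 (mem_filter.1 h7).1).1, hmL⟩⟩
      · exact ⟨(mem_filter.1 h7).2, m, mem_inter.2 ⟨(mem_bl.1 (mem_filter.1 h7).1).1, hmL⟩⟩
    · split_ifs at h7 with h9
      · rw [mem_singleton] at h7
        subst h7
        exact ⟨h9, m, mem_inter.2 ⟨hms, hmL⟩⟩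
      · exact absurd h7 (notMem_empty k)
  have h7 := card_le_card hsub
  rw [card_union_of_disjoint d3, card_union_of_disjoint d2, card_union_of_disjoint d1] at h7
  have h8 : (if z ∈ B s then ({s} : Finset ι) else ∅).card = (if z ∈ B s then 1 else 0) := by
    split_ifs <;> simp
  rw [h8] at h7
  exact h7

/-- the numbers at a leaf of type (3;1). -/
theorem MTN.cn31 [DecidableEq ι] (hm : MTN B Q T U F) (hv : ViolR B Q) (hj : j ∈ T) (hL : L ∈ F)
    (hfree : ∀ M ∈ F, M ≠ L → ∀ Z ⊆ U, Z.card ≤ (nbF (gr B) (F \ {L, M}) Z).card)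
    (h31 : T31 B L m p q s) (h1 : nt B L 1 ≤ 1) (h4 : hit B (B j ∩ Q) L = 4)
    (hjQ : B j ∩ Q = {x, y, z}) :
    Cn31 (kc B (bl B p q)) (kc B (bl B m p)) (kc B (bl B m q)) (fun v => if v ∈ B s then 1 else 0)
      (fun v => ∑ C ∈ F.erase L, uh B v C)
      (fun v => ∃ M ∈ F, M ≠ L ∧ ∃ w ∈ M, (gr B).Adj v w) x y z := by
  have hf := hm.toMTE.frm
  have hr := hv.reg
  have hLe := h31.eq
  have hc3 : L.card = 3 := by
    rw [hLe]
    exact card_eq_three.2 ⟨m, p, q, h31.ab, h31.ac, h31.bc, rfl⟩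
  obtain ⟨hxy, hxz, hyz⟩ : x ≠ y ∧ x ≠ z ∧ y ≠ z := by
    obtain ⟨a, b, c, h1, h2, h3, h4⟩ := hf.three_points hj
    have h5 : ({x, y, z} : Finset V).card = 3 := by
      rw [← hjQ, h1]
      exact card_eq_three.2 ⟨a, b, c, h2, h3, h4, rfl⟩
    refine ⟨?_, ?_, ?_⟩
    · rintro rfl
      have h6 := card_le_two (a := x) (b := z)
      simp only [mem_insert, true_or, insert_eq_of_mem] at h5
      omega
    · rintro rfl
      have h6 := card_le_two (a := y) (b := x)
      simp only [mem_insert, mem_singleton, or_true, insert_eq_of_mem] at h5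
      omega
    · rintro rfl
      have h6 := card_le_two (a := x) (b := y)
      simp only [mem_singleton, insert_eq_of_mem] at h5
      omega
  have hmem : ∀ v ∈ ({x, y, z} : Finset V), v ∈ B j ∩ Q := fun v hv => by rw [hjQ]; exact hv
  have hxT := hmem x (by simp)
  have hyT := hmem y (by simp)
  have hzT := hmem z (by simp)
  have hmL : m ∈ L := by rw [hLe]; simp
  have hpL : p ∈ L := by rw [hLe]; simp
  have hqL : q ∈ L := by rw [hLe]; simp
  have hms : m ∈ B s := by
    have h1 : m ∈ B s ∩ L := by rw [h31.tr]; simp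
    exact (mem_inter.1 h1).1
  -- the number of points of the triple on a block
  have hbk : ∀ k t, t ≤ (B k ∩ L).card → (B k ∩ {x, y, z}).card + t ≤ 3 := by
    intro k t ht
    have h5 : (B k ∩ {x, y, z}) ∪ (B k ∩ L) ⊆ B k ∩ Q := by
      refine union_subset ?_ (inter_subset_inter_left (hf.FQ hL))
      intro v hv
      obtain ⟨h6, h7⟩ := mem_inter.1 hv
      exact mem_inter.2 ⟨h6, (mem_inter.1 (hmem v h7)).2⟩
    have h6 : Disjoint (B k ∩ {x, y, z}) (B k ∩ L) := by
      rw [disjoint_left]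
      intro v hv hv'
      exact hf.T_notin hj (hmem v (mem_inter.1 hv).2) hL (mem_inter.1 hv').2
    have h7 := card_le_card h5
    rw [card_union_of_disjoint h6] at h7
    have h8 : (B k ∩ Q).card ≤ 3 := hf.reg3 k
    omega
  have htwo : ∀ k a b, a ∈ L → b ∈ L → a ≠ b → a ∈ B k → b ∈ B k → (B k ∩ L).card = 2 := by
    intro k a b ha hb hab hak hbk
    have h5 : ({a, b} : Finset V) ⊆ B k ∩ L := by
      intro v hv
      rcases mem_insert.1 hv with rfl | hv
      · exact mem_inter.2 ⟨hak, ha⟩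
      · rw [mem_singleton.1 hv]; exact mem_inter.2 ⟨hbk, hb⟩
    have h6 := card_le_card h5
    rw [card_pair hab] at h6
    have h7 := h31.two k
    omega
  have hK : ∀ a b, a ∈ L → b ∈ L → a ≠ b → ∀ k ∈ bl B a b, (B k ∩ {x, y, z}).card ≤ 1 := by
    intro a b ha hb hab k hk
    rw [mem_bl] at hk
    have h5 := htwo k a b ha hb hab hk.1 hk.2
    have h6 := hbk k 2 (by omega)
    omega
  -- a cover of the leaf with two points of the triple
  have hpair : (∃ M ∈ F, M ≠ L ∧ ∃ w ∈ M, (gr B).Adj z w) → ∀ k k', x ∈ B k → y ∈ B k' →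
      L ⊆ B k ∪ B k' → False := by
    intro ho k k' hk hk' hcov
    have h5 := hf.pair_ref3 hj hL hfree hjQ ho
    have h6 : rho B (insert x (insert y L)) ≤ 2 := by
      have h7 : insert x (insert y L) ⊆ ({k, k'} : Finset ι).biUnion B := by
        intro v hv
        rw [mem_biUnion]
        rcases mem_insert.1 hv with rfl | hv
        · exact ⟨k, by simp, hk⟩
        rcases mem_insert.1 hv with rfl | hv
        · exact ⟨k', by simp, hk'⟩
        · rcases mem_union.1 (hcov hv) with h8 | h8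
          · exact ⟨k, by simp, h8⟩
          · exact ⟨k', by simp, h8⟩
      exact (rho_le h7).trans card_le_two
    have h7 := hf.sv_leaf hL
    unfold sv at h7
    rw [hc3] at h7
    omega
  have hcovL : ∀ k k', m ∈ B k ∨ m ∈ B k' → p ∈ B k ∨ p ∈ B k' → q ∈ B k ∨ q ∈ B k' →
      L ⊆ B k ∪ B k' := by
    intro k k' h5 h6 h7 v hv
    rw [hLe] at hv
    simp only [mem_insert, mem_singleton] at hv
    rw [mem_union]
    rcases hv with rfl | rfl | rfl
    · exact h5
    · exact h6
    · exact h7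
  have hsum : ∀ v, v ∈ B j ∩ Q → (Ez B L v).card ≤ kc B (bl B p q) v + kc B (bl B m p) v +
      kc B (bl B m q) v + (if v ∈ B s then 1 else 0) := fun v _ => h31.Ez_le v
  have hle1 : ∀ v : V, (if v ∈ B s then 1 else 0 : ℕ) ≤ 1 := by
    intro v
    split_ifs <;> omega
  have hsin : ∀ v : V, 1 ≤ (if v ∈ B s then 1 else 0 : ℕ) → v ∈ B s := by
    intro v hv'
    by_contra h5
    rw [if_neg h5] at hv'
    omega
  refine ⟨?_, ?_, ?_, ?_, ?_, ?_, ?_, ?_, ?_, ?_, ?_, ?_, ?_, ?_⟩
  · have h5 := three_le hxy hxz hyz (hK p q hpL hqL h31.bc)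
    rw [h31.cA] at h5
    exact h5
  · have h5 := three_le hxy hxz hyz (hK m p hmL hpL h31.ab)
    rw [h31.cB] at h5
    exact h5
  · have h5 := three_le hxy hxz hyz (hK m q hmL hqL h31.ac)
    rw [h31.cC] at h5
    exact h5
  · have h5 := hbk s 1 (by rw [h31.tr]; simp)
    have h2 : (B s ∩ {x, y, z}).card = (if x ∈ B s then 1 else 0) +
        ((if y ∈ B s then 1 else 0) + (if z ∈ B s then 1 else 0)) := by
      have h4 : B s ∩ {x, y, z} = ({x, y, z} : Finset V).filter (fun v => v ∈ B s) := by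
        ext v
        rw [mem_inter, mem_filter]
        exact and_comm
      rw [h4, card_filter, sum_insert (by simp [hxy, hxz]), sum_insert (by simp [hyz]),
        sum_singleton]
    rw [h2] at h5
    omega
  · rw [hit_eq_Ez, hjQ, sum_insert (by simp [hxy, hxz]), sum_insert (by simp [hyz]),
      sum_singleton] at h4
    have e1 := hsum x hxT
    have e2 := hsum y hyT
    have e3 := hsum z hzT
    omega
  · intro ho ha
    obtain ⟨k, hk, hxk⟩ := kc_pos ha
    rw [mem_bl] at hk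
    have hno : ∀ k', y ∈ B k' → m ∉ B k' := fun k' h5 h6 =>
      hpair ho k k' hxk h5 (hcovL k k' (Or.inr h6) (Or.inl hk.1) (Or.inl hk.2))
    have e1 : kc B (bl B m p) y = 0 := kc_of fun k' hk' h5 => hno k' h5 (mem_bl.1 hk').1
    have e2 : kc B (bl B m q) y = 0 := kc_of fun k' hk' h5 => hno k' h5 (mem_bl.1 hk').1
    have e3 : (if y ∈ B s then 1 else 0 : ℕ) = 0 := if_neg fun h5 => hno s h5 hms
    omega
  · intro ho ha
    obtain ⟨k, hk, hxk⟩ := kc_pos ha
    rw [mem_bl] at hk
    have hno : ∀ k', y ∈ B k' → q ∉ B k' := fun k' h5 h6 =>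
      hpair ho k k' hxk h5 (hcovL k k' (Or.inl hk.1) (Or.inl hk.2) (Or.inr h6))
    have e1 : kc B (bl B p q) y = 0 := kc_of fun k' hk' h5 => hno k' h5 (mem_bl.1 hk').2
    have e2 : kc B (bl B m q) y = 0 := kc_of fun k' hk' h5 => hno k' h5 (mem_bl.1 hk').2
    omega
  · intro ho ha
    obtain ⟨k, hk, hxk⟩ := kc_pos ha
    rw [mem_bl] at hk
    have hno : ∀ k', y ∈ B k' → p ∉ B k' := fun k' h5 h6 =>
      hpair ho k k' hxk h5 (hcovL k k' (Or.inl hk.1) (Or.inr h6) (Or.inl hk.2))
    have e1 : kc B (bl B p q) y = 0 := kc_of fun k' hk' h5 => hno k' h5 (mem_bl.1 hk').1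
    have e2 : kc B (bl B m p) y = 0 := kc_of fun k' hk' h5 => hno k' h5 (mem_bl.1 hk').2
    omega
  · intro ho
    by_contra hcon
    have g1 := hle1 x
    have g2 := hle1 y
    have hxs : x ∈ B s := hsin x (by omega)
    have hys : y ∈ B s := hsin y (by omega)
    obtain ⟨M, hM, hne, w, hw, hzw⟩ := ho
    have hP := hf.pmS hj hL hfree h31 hjQ hxs hys
    exact hP.a_leaf hM (hLe ▸ hne) hw hzw
  · intro hz1
    have hzk : ∃ k, z ∈ B k ∧ (B k ∩ L).card = 2 := by
      rcases (by omega : 1 ≤ kc B (bl B p q) z ∨ 1 ≤ kc B (bl B m p) z ∨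
        1 ≤ kc B (bl B m q) z) with h5 | h5 | h5
      · obtain ⟨k, hk, hzk⟩ := kc_pos h5
        rw [mem_bl] at hk
        exact ⟨k, hzk, htwo k p q hpL hqL h31.bc hk.1 hk.2⟩
      · obtain ⟨k, hk, hzk⟩ := kc_pos h5
        rw [mem_bl] at hk
        exact ⟨k, hzk, htwo k m p hmL hpL h31.ab hk.1 hk.2⟩
      · obtain ⟨k, hk, hzk⟩ := kc_pos h5
        rw [mem_bl] at hk
        exact ⟨k, hzk, htwo k m q hmL hqL h31.ac hk.1 hk.2⟩
    obtain ⟨k, hzk, hk2⟩ := hzk
    have hQ1 : B j ∩ Q = {z, x, y} := by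
      rw [hjQ]
      ext v
      simp only [mem_insert, mem_singleton]
      tauto
    have hQ2 : B j ∩ Q = {z, y, x} := by
      rw [hjQ]
      ext v
      simp only [mem_insert, mem_singleton]
      tauto
    have key : ∀ a b, B j ∩ Q = {z, a, b} → (∃ M ∈ F, M ≠ L ∧ ∃ w ∈ M, (gr B).Adj b w) →
        ∃ M ∈ F, M ≠ L ∧ ∃ w ∈ M, (gr B).Adj a w := by
      intro a b hab hob
      by_contra hcon
      exact hm.toMTE.no_full3 hj hL hc3 hfree hab hzk hk2
        (fun M hM hne l hl hal => hcon ⟨M, hM, hne, l, hl, hal⟩) hob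
    exact ⟨key y x hQ2, key x y hQ1⟩
  · intro h5 h6
    have hxs := hsin x h5
    have hys := hsin y h6
    by_contra hcon
    have hzE : (Ez B L z).Nonempty := by
      rcases (by omega : 1 ≤ kc B (bl B p q) z ∨ 1 ≤ kc B (bl B m p) z ∨
        1 ≤ kc B (bl B m q) z) with h5 | h5 | h5
      · obtain ⟨k, hk, hzk⟩ := kc_pos h5
        rw [mem_bl] at hk
        exact ⟨k, mem_Ez.2 ⟨hzk, p, mem_inter.2 ⟨hk.1, hpL⟩⟩⟩
      · obtain ⟨k, hk, hzk⟩ := kc_pos h5
        rw [mem_bl] at hk
        exact ⟨k, mem_Ez.2 ⟨hzk, p, mem_inter.2 ⟨hk.2, hpL⟩⟩⟩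
      · obtain ⟨k, hk, hzk⟩ := kc_pos h5
        rw [mem_bl] at hk
        exact ⟨k, mem_Ez.2 ⟨hzk, q, mem_inter.2 ⟨hk.2, hqL⟩⟩⟩
    have h7 := hm.noS2 hr hj hL hfree h31 h1 hjQ hxs hys hzE
    rw [hit_eq_Ez, hjQ, sum_insert (by simp [hxy, hxz]), sum_insert (by simp [hyz]),
      sum_singleton] at h4
    have h8 : 1 ≤ (Ez B L x).card :=
      card_pos.2 ⟨s, mem_Ez.2 ⟨hxs, m, mem_inter.2 ⟨hms, hmL⟩⟩⟩
    omega
  · intro ho
    exact (hf.oth_p hr hj hL hzT).2 ho
  · have h5 := (hf.oth_p hr hj hL hzT).1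
    have h6 := h31.le_Ez z
    omega
  · exact hle1 z

/-- **four hits on a leaf of type (3;1)** and at least four hits elsewhere: one point has four hits on the
leaf, or one point has three hits on blocks with `m` and one more point and another point lies on the
single block. -/
theorem MTN.row31 [DecidableEq ι] (hm : MTN B Q T U F) (hv : ViolR B Q) (hj : j ∈ T) (hL : L ∈ F)
    (hfree : ∀ M ∈ F, M ≠ L → ∀ Z ⊆ U, Z.card ≤ (nbF (gr B) (F \ {L, M}) Z).card)
    (h31 : T31 B L m p q s) (h1 : nt B L 1 ≤ 1) (h4 : hit B (B j ∩ Q) L = 4)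
    (hn : 4 ≤ ∑ C ∈ F.erase L, jh B Q j C) :
    ∃ x ∈ B j ∩ Q, 4 ≤ (Ez B L x).card ∨ (3 ≤ (Ez B L x).card ∧
      (∀ k, x ∈ B k → (B k ∩ L).Nonempty → (B k ∩ L).card = 2 ∧ m ∈ B k) ∧
      ∃ y ∈ B j ∩ Q, y ≠ x ∧ y ∈ B s) := by
  have hf := hm.toMTE.frm
  obtain ⟨x, y, z, hjQ, hxy, hxz, hyz⟩ := hf.three_points hj
  have e1 : B j ∩ Q = {y, z, x} := by
    rw [hjQ]; ext v; simp only [mem_insert, mem_singleton]; tauto
  have e2 : B j ∩ Q = {z, x, y} := by
    rw [hjQ]; ext v; simp only [mem_insert, mem_singleton]; tauto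
  have e3 : B j ∩ Q = {y, x, z} := by
    rw [hjQ]; ext v; simp only [mem_insert, mem_singleton]; tauto
  have e4 : B j ∩ Q = {z, y, x} := by
    rw [hjQ]; ext v; simp only [mem_insert, mem_singleton]; tauto
  have e5 : B j ∩ Q = {x, z, y} := by
    rw [hjQ]; ext v; simp only [mem_insert, mem_singleton]; tauto
  have c1 := hm.cn31 hv hj hL hfree h31 h1 h4 hjQ
  have c2 := hm.cn31 hv hj hL hfree h31 h1 h4 e1
  have c3 := hm.cn31 hv hj hL hfree h31 h1 h4 e2
  have c4 := hm.cn31 hv hj hL hfree h31 h1 h4 e3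
  have c5 := hm.cn31 hv hj hL hfree h31 h1 h4 e4
  have c6 := hm.cn31 hv hj hL hfree h31 h1 h4 e5
  have hsum : ∑ C ∈ F.erase L, jh B Q j C = (∑ C ∈ F.erase L, uh B x C) +
      (∑ C ∈ F.erase L, uh B y C) + (∑ C ∈ F.erase L, uh B z C) := by
    rw [← sum_add_distrib, ← sum_add_distrib]
    refine sum_congr rfl fun C _ => ?_
    rw [jh_sum, hjQ, sum_insert (by simp [hxy, hxz]), sum_insert (by simp [hyz]), sum_singleton,
      add_assoc]
  rw [hsum] at hn
  have hmem : ∀ v ∈ ({x, y, z} : Finset V), v ∈ B j ∩ Q := fun v hv => by rw [hjQ]; exact hv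
  have hmL : m ∈ L := by rw [h31.eq]; simp
  -- the conclusion for one point
  have fin : ∀ x y z : V, x ∈ B j ∩ Q → y ∈ B j ∩ Q → z ∈ B j ∩ Q → x ≠ y → x ≠ z →
      (4 ≤ kc B (bl B p q) x + kc B (bl B m p) x + kc B (bl B m q) x +
        (if x ∈ B s then 1 else 0) ∨
      (3 ≤ kc B (bl B p q) x + kc B (bl B m p) x + kc B (bl B m q) x +
        (if x ∈ B s then 1 else 0) ∧ kc B (bl B p q) x = 0 ∧
        (if x ∈ B s then 1 else 0 : ℕ) = 0 ∧ (1 ≤ (if y ∈ B s then 1 else 0 : ℕ) ∨
          1 ≤ (if z ∈ B s then 1 else 0 : ℕ)))) →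
      ∃ x ∈ B j ∩ Q, 4 ≤ (Ez B L x).card ∨ (3 ≤ (Ez B L x).card ∧
        (∀ k, x ∈ B k → (B k ∩ L).Nonempty → (B k ∩ L).card = 2 ∧ m ∈ B k) ∧
        ∃ y ∈ B j ∩ Q, y ≠ x ∧ y ∈ B s) := by
    intro x y z hx hy hz hxy hxz hc
    have h5 := h31.le_Ez x
    refine ⟨x, hx, ?_⟩
    rcases hc with hc | ⟨hc, ha, hs, hyz⟩
    · left
      omega
    · right
      refine ⟨by omega, fun k hk hkL => ?_, ?_⟩
      · have hxs : x ∉ B s := fun h6 => by
          rw [if_pos h6] at hs
          omega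
        have hA := kc_zero ha
        have hkk : (∃ w, w ∈ L ∧ w ≠ m ∧ w ∈ B k) ∧ m ∈ B k := by
          rcases h31.cov k hkL with h6 | h6 | h6 | h6
          · exact absurd hk (hA k h6)
          · rw [mem_bl] at h6
            exact ⟨⟨p, by rw [h31.eq]; simp, h31.ab.symm, h6.2⟩, h6.1⟩
          · rw [mem_bl] at h6
            exact ⟨⟨q, by rw [h31.eq]; simp, h31.ac.symm, h6.2⟩, h6.1⟩
          · exact absurd (h6 ▸ hk) hxs
        obtain ⟨⟨w, hw, hwm, hwk⟩, hmk⟩ := hkk
        refine ⟨?_, hmk⟩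
        have h7 : ({m, w} : Finset V) ⊆ B k ∩ L := by
          intro v hv
          rcases mem_insert.1 hv with rfl | hv
          · exact mem_inter.2 ⟨hmk, hmL⟩
          · rw [mem_singleton.1 hv]; exact mem_inter.2 ⟨hwk, hw⟩
        have h8 := card_le_card h7
        rw [card_pair hwm.symm] at h8
        have h9 := h31.two k
        omega
      · rcases hyz with h6 | h6
        · refine ⟨y, hy, hxy.symm, ?_⟩
          by_contra h7
          rw [if_neg h7] at h6
          omega
        · refine ⟨z, hz, hxz.symm, ?_⟩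
          by_contra h7
          rw [if_neg h7] at h6
          omega
  have hx := hmem x (by simp)
  have hy := hmem y (by simp)
  have hz := hmem z (by simp)
  by_cases fx : 1 ≤ kc B (bl B p q) x + kc B (bl B m p) x + kc B (bl B m q) x
  · by_cases fy : 1 ≤ kc B (bl B p q) y + kc B (bl B m p) y + kc B (bl B m q) y
    · exact (Cn31.two c1 c2 c3 c4 c5 c6 fx fy hn).elim
    by_cases fz : 1 ≤ kc B (bl B p q) z + kc B (bl B m p) z + kc B (bl B m q) z
    · exact (Cn31.two c3 c1 c2 c6 c4 c5 fz fx (by omega)).elim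
    exact fin x y z hx hy hz hxy hxz (Cn31.one c1 c2 c3 c6 (by omega) (by omega) hn)
  by_cases fy : 1 ≤ kc B (bl B p q) y + kc B (bl B m p) y + kc B (bl B m q) y
  · by_cases fz : 1 ≤ kc B (bl B p q) z + kc B (bl B m p) z + kc B (bl B m q) z
    · exact (Cn31.two c2 c3 c1 c5 c6 c4 fy fz (by omega)).elim
    exact fin y z x hy hz hx hyz hxy.symm
      (Cn31.one c2 c3 c1 c4 (by omega) (by omega) (by omega))
  · exact fin z x y hz hx hy hxz.symm hyz.symm
      (Cn31.one c3 c1 c2 c5 (by omega) (by omega) (by omega))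

end Pool.Agent.Hyp6
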