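import Pool.Agent.Hyp6.L3P6d

/-!
# HYP6 L3P8f: one and two merges at a full block

`ViolR.mrg1v`: the points of a full block `i0` are deleted with the blocks of `Z` contained in it, two
blocks `e1`, `e2` covering it are merged. `ViolR.mrg2v`: two merges.
-/

set_option autoImplicit false

namespace Pool.Agent.Hyp6

open Finset Pool.Agent.Hyp5

universe u v

variable {V : Type v} [DecidableEq V] {ι : Type u} [Fintype ι] [DecidableEq ι] {B : ι → Finset V}
  {Q : Finset V}

/-- the trace outside of `i0`. -/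
def tro (B : ι → Finset V) (Q : Finset V) (i0 k : ι) : Finset V := (B k ∩ Q) \ B i0

omit [Fintype ι] [DecidableEq ι] in
theorem mem_tro {i0 k : ι} {v : V} : v ∈ tro B Q i0 k ↔ v ∈ B k ∧ v ∈ Q ∧ v ∉ B i0 := by
  unfold tro
  rw [mem_sdiff, mem_inter, and_assoc]

omit [Fintype ι] [DecidableEq ι] in
theorem tro_card (h3 : Tr3 B Q) {i0 k : ι} (hm : (B k ∩ (B i0 ∩ Q)).Nonempty) :
    (tro B Q i0 k).card ≤ 2 := by
  obtain ⟨v, hv⟩ := hm
  obtain ⟨h1, h2⟩ := mem_inter.1 hv
  obtain ⟨h4, h5⟩ := mem_inter.1 h2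
  have h6 : tro B Q i0 k ⊆ (B k ∩ Q).erase v := by
    intro w hw
    obtain ⟨w1, w2, w3⟩ := mem_tro.1 hw
    exact mem_erase.2 ⟨fun he => w3 (he ▸ h4), mem_inter.2 ⟨w1, w2⟩⟩
  have h7 := card_le_card h6
  have h8 := card_erase_add_one (s := B k ∩ Q) (a := v) (mem_inter.2 ⟨h1, h5⟩)
  have h9 : (B k ∩ Q).card ≤ 3 := h3 k
  omega

omit [Fintype ι] [DecidableEq ι] in
theorem rho_bU_le {S : Finset V} {K : Finset ι} (h : S ⊆ K.biUnion B) {n : ℕ} (hn : K.card ≤ n) :
    rho B S ≤ n := (rho_le h).trans hn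

/-- the data of one merge. -/
structure Mr1 (B : ι → Finset V) (Q : Finset V) (i0 e1 e2 : ι) (Z Fs : Finset ι) : Prop where
  c3 : (B i0 ∩ Q).card = 3
  Z0 : i0 ∈ Z
  Zs : ∀ k ∈ Z, tro B Q i0 k = ∅ ∧ (B k ∩ (B i0 ∩ Q)).Nonempty
  ne : e1 ≠ e2
  cov : B i0 ∩ Q ⊆ B e1 ∪ B e2
  m1 : (B e1 ∩ (B i0 ∩ Q)).Nonempty
  m2 : (B e2 ∩ (B i0 ∩ Q)).Nonempty
  dj : Disjoint (tro B Q i0 e1) (tro B Q i0 e2)
  N3 : (tro B Q i0 e1).card + (tro B Q i0 e2).card ≤ 3
  Fm : ∀ k ∈ Fs, (B k ∩ (B i0 ∩ Q)).Nonempty
  e1Z : e1 ∉ Z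
  e2Z : e2 ∉ Z
  e1F : e1 ∉ Fs
  e2F : e2 ∉ Fs
  ZF : Disjoint Z Fs

omit [Fintype ι] [DecidableEq ι] in
theorem Mr1.sub_ii {i0 e1 e2 : ι} {Z Fs : Finset ι} (h : Mr1 B Q i0 e1 e2 Z Fs) :
    i0 ≠ e1 ∧ i0 ≠ e2 ∧ i0 ∉ Fs :=
  ⟨fun he => h.e1Z (he ▸ h.Z0), fun he => h.e2Z (he ▸ h.Z0),
    fun he => disjoint_left.1 h.ZF h.Z0 he⟩

/-- **one merge at a full block.** -/
theorem ViolR.mrg1v (hv : ViolR B Q) {i0 e1 e2 : ι} {Z Fs : Finset ι}
    (h : Mr1 B Q i0 e1 e2 Z Fs) {Y2 : Finset V} (hY2 : Y2 ⊆ Q \ B i0) (he2 : ee B Q Y2 = 0)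
    (hN2 : ∀ y ∈ Y2, 2 ≤ (Fs.filter (fun k => tro B Q i0 k = {y})).card)
    (hsm : ∃ k ∈ Fs, (tro B Q i0 k).Nonempty) :
    4 * (Z.card : ℤ) + 2 * (Y2.card : ℤ) - 5 ≤ dv B Q Q := by
  classical
  set N : ι → Finset V := fun k => if k = e1 then tro B Q i0 e1 ∪ tro B Q i0 e2 else tro B Q i0 k
    with hN
  have hNF : ∀ k ∈ Fs, N k = tro B Q i0 k := by
    intro k hk
    have h1 : N k = if k = e1 then tro B Q i0 e1 ∪ tro B Q i0 e2 else tro B Q i0 k := rfl
    have h2 : ¬ k = e1 := fun he => h.e1F (he ▸ hk)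
    rw [h1, if_neg h2]
  have hNe : N e1 = tro B Q i0 e1 ∪ tro B Q i0 e2 := by
    rw [hN]
    exact if_pos rfl
  have hm : Mgb B Q i0 (Z ∪ insert e1 (insert e2 Fs)) (insert e1 Fs) N := by
    have d1 : Disjoint Z (insert e1 (insert e2 Fs)) := by
      rw [disjoint_left]
      intro k hk hk'
      rcases mem_insert.1 hk' with h1 | h1
      · exact h.e1Z (h1 ▸ hk)
      rcases mem_insert.1 h1 with h1 | h1
      · exact h.e2Z (h1 ▸ hk)
      · exact disjoint_left.1 h.ZF hk h1
    refine ⟨h.c3, ?_, ?_, ?_, ?_, ?_, ?_⟩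
    · intro k hk
      rcases mem_union.1 hk with h1 | h1
      · exact (h.Zs k h1).2
      rcases mem_insert.1 h1 with h1 | h1
      · exact h1 ▸ h.m1
      rcases mem_insert.1 h1 with h1 | h1
      · exact h1 ▸ h.m2
      · exact h.Fm k h1
    · intro k hk v hv'
      have h2 : ∃ k', v ∈ tro B Q i0 k' := by
        rcases mem_insert.1 hk with h1 | h1
        · rw [h1, hNe] at hv'
          rcases mem_union.1 hv' with h3 | h3
          · exact ⟨_, h3⟩
          · exact ⟨_, h3⟩
        · rw [hNF k h1] at hv'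
          exact ⟨_, hv'⟩
      obtain ⟨k', hk'⟩ := h2
      obtain ⟨_, h3, h4⟩ := mem_tro.1 hk'
      exact mem_sdiff.2 ⟨h3, h4⟩
    · intro k hk
      rcases mem_insert.1 hk with h1 | h1
      · rw [h1, hNe]
        exact (card_union_le _ _).trans h.N3
      · rw [hNF k h1]
        exact (tro_card hv.tr (h.Fm k h1)).trans (by norm_num)
    · intro y hy hyi
      have hmt : ∀ k, (if y ∈ B k then 1 else 0 : ℕ) = if y ∈ tro B Q i0 k then 1 else 0 := by
        intro k
        have : y ∈ B k ↔ y ∈ tro B Q i0 k := by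
          rw [mem_tro]
          exact ⟨fun h1 => ⟨h1, hy, hyi⟩, fun h1 => h1.1⟩
        simp only [this]
      rw [sum_union d1, sum_insert (by
          rw [mem_insert, not_or]
          exact ⟨h.ne, h.e1F⟩), sum_insert h.e2F, sum_insert h.e1F]
      have hz : ∑ k ∈ Z, (if y ∈ B k then 1 else 0 : ℕ) = 0 := by
        refine sum_eq_zero fun k hk => ?_
        rw [hmt, (h.Zs k hk).1, if_neg (notMem_empty y)]
      have hF : ∑ k ∈ Fs, (if y ∈ B k then 1 else 0 : ℕ) =
          ∑ k ∈ Fs, (if y ∈ N k then 1 else 0) := by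
        refine sum_congr rfl fun k hk => ?_
        rw [hmt, hNF k hk]
      rw [hz, hF, hmt e1, hmt e2, hNe]
      by_cases h1 : y ∈ tro B Q i0 e1
      · have h2 : y ∉ tro B Q i0 e2 := fun h2 => disjoint_left.1 h.dj h1 h2
        rw [if_pos h1, if_neg h2, if_pos (mem_union_left _ h1)]
        omega
      · by_cases h2 : y ∈ tro B Q i0 e2
        · rw [if_neg h1, if_pos h2, if_pos (mem_union_right _ h2)]
          omega
        · rw [if_neg h1, if_neg h2, if_neg (fun h3 => (mem_union.1 h3).elim h1 h2)]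
          omega
    · intro K hK
      by_cases he : e1 ∈ K
      · refine rho_bU_le (K := insert e2 K) ?_ ?_
        · intro v hv'
          rw [mem_biUnion]
          rcases mem_union.1 hv' with h1 | h1
          · rcases mem_union.1 (h.cov h1) with h2 | h2
            · exact ⟨e1, mem_insert_of_mem he, h2⟩
            · exact ⟨e2, mem_insert_self _ _, h2⟩
          · obtain ⟨k, hk, hvk⟩ := mem_biUnion.1 h1
            rcases mem_insert.1 (hK hk) with h2 | h2
            · rw [h2, hNe] at hvk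
              rcases mem_union.1 hvk with h3 | h3
              · exact ⟨e1, mem_insert_of_mem he, (mem_tro.1 h3).1⟩
              · exact ⟨e2, mem_insert_self _ _, (mem_tro.1 h3).1⟩
            · rw [hNF k h2] at hvk
              exact ⟨k, mem_insert_of_mem hk, (mem_tro.1 hvk).1⟩
        · have := card_insert_le e2 K
          omega
      · refine rho_bU_le (K := insert i0 K) ?_ ?_
        · intro v hv'
          rw [mem_biUnion]
          rcases mem_union.1 hv' with h1 | h1
          · exact ⟨i0, mem_insert_self _ _, (mem_inter.1 h1).1⟩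
          · obtain ⟨k, hk, hvk⟩ := mem_biUnion.1 h1
            rcases mem_insert.1 (hK hk) with h2 | h2
            · exact absurd (h2 ▸ hk) he
            · rw [hNF k h2] at hvk
              exact ⟨k, mem_insert_of_mem hk, (mem_tro.1 hvk).1⟩
        · have := card_insert_le i0 K
          omega
    · intro k hk
      have hk' : (B k ∩ Q) \ B i0 = tro B Q i0 k := rfl
      rw [hk']
      rcases mem_union.1 hk with h1 | h1
      · refine ⟨e1, mem_insert_self _ _, ?_⟩
        rw [(h.Zs k h1).1]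
        exact empty_subset _
      rcases mem_insert.1 h1 with h1 | h1
      · refine ⟨e1, mem_insert_self _ _, ?_⟩
        rw [hNe, h1]
        exact subset_union_left
      rcases mem_insert.1 h1 with h1 | h1
      · refine ⟨e1, mem_insert_self _ _, ?_⟩
        rw [hNe, h1]
        exact subset_union_right
      · refine ⟨k, mem_insert_of_mem h1, ?_⟩
        rw [hNF k h1]
  have h5 := hv.blk hm (Y2 := Y2) hY2 he2 (fun y hy => by
    refine (hN2 y hy).trans (card_le_card ?_)
    intro k hk
    obtain ⟨k1, k2⟩ := mem_filter.1 hk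
    exact mem_filter.2 ⟨mem_insert_of_mem k1, by rw [hNF k k1]; exact k2⟩) (by
    obtain ⟨k, hk, hne⟩ := hsm
    refine ⟨k, mem_insert_of_mem hk, ?_, ?_⟩
    · rw [hNF k hk]; exact hne
    · rw [hNF k hk]; exact tro_card hv.tr (h.Fm k hk))
  have d1 : Disjoint Z (insert e1 (insert e2 Fs)) := by
    rw [disjoint_left]
    intro k hk hk'
    rcases mem_insert.1 hk' with h1 | h1
    · exact h.e1Z (h1 ▸ hk)
    rcases mem_insert.1 h1 with h1 | h1
    · exact h.e2Z (h1 ▸ hk)
    · exact disjoint_left.1 h.ZF hk h1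
  rw [card_union_of_disjoint d1, card_insert_of_notMem (by
      rw [mem_insert, not_or]
      exact ⟨h.ne, h.e1F⟩), card_insert_of_notMem h.e2F, card_insert_of_notMem h.e1F] at h5
  push_cast at h5
  linarith

/-- the data of two merges: every three new or deleted blocks are covered well. -/
structure Mr2 (B : ι → Finset V) (Q : Finset V) (i0 e1 e2 g1 g2 f : ι) : Prop where
  c3 : (B i0 ∩ Q).card = 3
  ne : e1 ≠ e2 ∧ e1 ≠ g1 ∧ e1 ≠ g2 ∧ e2 ≠ g1 ∧ e2 ≠ g2 ∧ g1 ≠ g2
  nei : i0 ≠ e1 ∧ i0 ≠ e2 ∧ i0 ≠ g1 ∧ i0 ≠ g2 ∧ i0 ≠ f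
  nef : f ≠ e1 ∧ f ≠ e2 ∧ f ≠ g1 ∧ f ≠ g2
  cov : B i0 ∩ Q ⊆ B e1 ∪ B e2
  cog : B i0 ∩ Q ⊆ B g1 ∪ B g2
  coa : tro B Q i0 g2 ⊆ B e2
  m1 : (B e1 ∩ (B i0 ∩ Q)).Nonempty
  m2 : (B e2 ∩ (B i0 ∩ Q)).Nonempty
  n1 : (B g1 ∩ (B i0 ∩ Q)).Nonempty
  n2 : (B g2 ∩ (B i0 ∩ Q)).Nonempty
  dj : Disjoint (tro B Q i0 e1) (tro B Q i0 e2)
  dg : Disjoint (tro B Q i0 g1) (tro B Q i0 g2)
  N3 : (tro B Q i0 e1).card + (tro B Q i0 e2).card ≤ 3
  N3' : (tro B Q i0 g1).card + (tro B Q i0 g2).card ≤ 3
  fm : (B f ∩ (B i0 ∩ Q)).Nonempty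
  fn : (tro B Q i0 f).Nonempty

/-- **two merges at a full block.** -/
theorem ViolR.mrg2v (hv : ViolR B Q) {i0 e1 e2 g1 g2 f : ι} (h : Mr2 B Q i0 e1 e2 g1 g2 f) :
    3 ≤ dv B Q Q := by
  classical
  obtain ⟨a1, a2, a3, a4, a5, a6⟩ := h.ne
  obtain ⟨b1, b2, b3, b4, b5⟩ := h.nei
  obtain ⟨c1, c2, c3, c4⟩ := h.nef
  set N : ι → Finset V := fun k => if k = e1 then tro B Q i0 e1 ∪ tro B Q i0 e2 else
    if k = g1 then tro B Q i0 g1 ∪ tro B Q i0 g2 else tro B Q i0 k with hN
  have hNe : N e1 = tro B Q i0 e1 ∪ tro B Q i0 e2 := by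
    rw [hN]
    exact if_pos rfl
  have hNg : N g1 = tro B Q i0 g1 ∪ tro B Q i0 g2 := by
    have h1 : N g1 = if g1 = e1 then tro B Q i0 e1 ∪ tro B Q i0 e2 else
      if g1 = g1 then tro B Q i0 g1 ∪ tro B Q i0 g2 else tro B Q i0 g1 := rfl
    rw [h1, if_neg a2.symm, if_pos rfl]
  have hNf : N f = tro B Q i0 f := by
    have h1 : N f = if f = e1 then tro B Q i0 e1 ∪ tro B Q i0 e2 else
      if f = g1 then tro B Q i0 g1 ∪ tro B Q i0 g2 else tro B Q i0 f := rfl
    rw [h1, if_neg c1, if_neg c3]
  have hm : Mgb B Q i0 {i0, e1, e2, g1, g2, f} {e1, g1, f} N := by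
    refine ⟨h.c3, ?_, ?_, ?_, ?_, ?_, ?_⟩
    · intro k hk
      simp only [mem_insert, mem_singleton] at hk
      rcases hk with rfl | rfl | rfl | rfl | rfl | rfl
      · obtain ⟨v, hv'⟩ : (B k ∩ Q).Nonempty := card_pos.1 (by rw [h.c3]; norm_num)
        exact ⟨v, mem_inter.2 ⟨(mem_inter.1 hv').1, hv'⟩⟩
      · exact h.m1
      · exact h.m2
      · exact h.n1
      · exact h.n2
      · exact h.fm
    · intro k hk v hv'
      have h2 : ∃ k', v ∈ tro B Q i0 k' := by
        simp only [mem_insert, mem_singleton] at hk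
        rcases hk with h1 | h1 | h1
        · rw [h1, hNe] at hv'
          rcases mem_union.1 hv' with h3 | h3
          · exact ⟨_, h3⟩
          · exact ⟨_, h3⟩
        · rw [h1, hNg] at hv'
          rcases mem_union.1 hv' with h3 | h3
          · exact ⟨_, h3⟩
          · exact ⟨_, h3⟩
        · rw [h1, hNf] at hv'
          exact ⟨_, hv'⟩
      obtain ⟨k', hk'⟩ := h2
      obtain ⟨_, h3, h4⟩ := mem_tro.1 hk'
      exact mem_sdiff.2 ⟨h3, h4⟩
    · intro k hk
      simp only [mem_insert, mem_singleton] at hk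
      rcases hk with h1 | h1 | h1
      · rw [h1, hNe]
        exact (card_union_le _ _).trans h.N3
      · rw [h1, hNg]
        exact (card_union_le _ _).trans h.N3'
      · rw [h1, hNf]
        exact (tro_card hv.tr h.fm).trans (by norm_num)
    · intro y hy hyi
      have hmt : ∀ k, (if y ∈ B k then 1 else 0 : ℕ) = if y ∈ tro B Q i0 k then 1 else 0 := by
        intro k
        have : y ∈ B k ↔ y ∈ tro B Q i0 k := by
          rw [mem_tro]
          exact ⟨fun h1 => ⟨h1, hy, hyi⟩, fun h1 => h1.1⟩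
        simp only [this]
      rw [sum_insert (by simp [b1, b2, b3, b4, b5]),
        sum_insert (by simp [a1, a2, a3, c1.symm]), sum_insert (by simp [a4, a5, c2.symm]),
        sum_insert (by simp [a6, c3.symm]), sum_insert (by simp [c4.symm]), sum_singleton,
        sum_insert (by simp [a2, c1.symm]), sum_insert (by simp [c3.symm]), sum_singleton,
        if_neg hyi, hNe, hNg, hNf, hmt e1, hmt e2, hmt g1, hmt g2, hmt f]
      have u1 : (if y ∈ tro B Q i0 e1 ∪ tro B Q i0 e2 then 1 else 0 : ℕ) =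
          (if y ∈ tro B Q i0 e1 then 1 else 0) + (if y ∈ tro B Q i0 e2 then 1 else 0) := by
        by_cases h1 : y ∈ tro B Q i0 e1
        · have h2 : y ∉ tro B Q i0 e2 := fun h2 => disjoint_left.1 h.dj h1 h2
          simp [h1, h2]
        · simp [h1]
      have u2 : (if y ∈ tro B Q i0 g1 ∪ tro B Q i0 g2 then 1 else 0 : ℕ) =
          (if y ∈ tro B Q i0 g1 then 1 else 0) + (if y ∈ tro B Q i0 g2 then 1 else 0) := by
        by_cases h1 : y ∈ tro B Q i0 g1
        · have h2 : y ∉ tro B Q i0 g2 := fun h2 => disjoint_left.1 h.dg h1 h2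
          simp [h1, h2]
        · simp [h1]
      rw [u1, u2]
      omega
    · intro K hK
      by_cases he : e1 ∈ K
      · by_cases hg : g1 ∈ K
        · refine rho_bU_le (K := insert e2 K) ?_ ?_
          · intro v hv'
            rw [mem_biUnion]
            rcases mem_union.1 hv' with h1 | h1
            · rcases mem_union.1 (h.cov h1) with h2 | h2
              · exact ⟨e1, mem_insert_of_mem he, h2⟩
              · exact ⟨e2, mem_insert_self _ _, h2⟩
            · obtain ⟨k, hk, hvk⟩ := mem_biUnion.1 h1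
              have h2 := hK hk
              simp only [mem_insert, mem_singleton] at h2
              rcases h2 with h2 | h2 | h2
              · rw [h2, hNe] at hvk
                rcases mem_union.1 hvk with h3 | h3
                · exact ⟨e1, mem_insert_of_mem he, (mem_tro.1 h3).1⟩
                · exact ⟨e2, mem_insert_self _ _, (mem_tro.1 h3).1⟩
              · rw [h2, hNg] at hvk
                rcases mem_union.1 hvk with h3 | h3
                · exact ⟨g1, mem_insert_of_mem hg, (mem_tro.1 h3).1⟩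
                · exact ⟨e2, mem_insert_self _ _, h.coa h3⟩
              · rw [h2, hNf] at hvk
                exact ⟨k, mem_insert_of_mem hk, by rw [h2]; exact (mem_tro.1 hvk).1⟩
          · have := card_insert_le e2 K
            omega
        · refine rho_bU_le (K := insert e2 K) ?_ ?_
          · intro v hv'
            rw [mem_biUnion]
            rcases mem_union.1 hv' with h1 | h1
            · rcases mem_union.1 (h.cov h1) with h2 | h2
              · exact ⟨e1, mem_insert_of_mem he, h2⟩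
              · exact ⟨e2, mem_insert_self _ _, h2⟩
            · obtain ⟨k, hk, hvk⟩ := mem_biUnion.1 h1
              have h2 := hK hk
              simp only [mem_insert, mem_singleton] at h2
              rcases h2 with h2 | h2 | h2
              · rw [h2, hNe] at hvk
                rcases mem_union.1 hvk with h3 | h3
                · exact ⟨e1, mem_insert_of_mem he, (mem_tro.1 h3).1⟩
                · exact ⟨e2, mem_insert_self _ _, (mem_tro.1 h3).1⟩
              · exact absurd (h2 ▸ hk) hg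
              · rw [h2, hNf] at hvk
                exact ⟨k, mem_insert_of_mem hk, by rw [h2]; exact (mem_tro.1 hvk).1⟩
          · have := card_insert_le e2 K
            omega
      · by_cases hg : g1 ∈ K
        · refine rho_bU_le (K := insert g2 K) ?_ ?_
          · intro v hv'
            rw [mem_biUnion]
            rcases mem_union.1 hv' with h1 | h1
            · rcases mem_union.1 (h.cog h1) with h2 | h2
              · exact ⟨g1, mem_insert_of_mem hg, h2⟩
              · exact ⟨g2, mem_insert_self _ _, h2⟩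
            · obtain ⟨k, hk, hvk⟩ := mem_biUnion.1 h1
              have h2 := hK hk
              simp only [mem_insert, mem_singleton] at h2
              rcases h2 with h2 | h2 | h2
              · exact absurd (h2 ▸ hk) he
              · rw [h2, hNg] at hvk
                rcases mem_union.1 hvk with h3 | h3
                · exact ⟨g1, mem_insert_of_mem hg, (mem_tro.1 h3).1⟩
                · exact ⟨g2, mem_insert_self _ _, (mem_tro.1 h3).1⟩
              · rw [h2, hNf] at hvk
                exact ⟨k, mem_insert_of_mem hk, by rw [h2]; exact (mem_tro.1 hvk).1⟩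
          · have := card_insert_le g2 K
            omega
        · refine rho_bU_le (K := insert i0 K) ?_ ?_
          · intro v hv'
            rw [mem_biUnion]
            rcases mem_union.1 hv' with h1 | h1
            · exact ⟨i0, mem_insert_self _ _, (mem_inter.1 h1).1⟩
            · obtain ⟨k, hk, hvk⟩ := mem_biUnion.1 h1
              have h2 := hK hk
              simp only [mem_insert, mem_singleton] at h2
              rcases h2 with h2 | h2 | h2
              · exact absurd (h2 ▸ hk) he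
              · exact absurd (h2 ▸ hk) hg
              · rw [h2, hNf] at hvk
                exact ⟨k, mem_insert_of_mem hk, by rw [h2]; exact (mem_tro.1 hvk).1⟩
          · have := card_insert_le i0 K
            omega
    · intro k hk
      have hk' : (B k ∩ Q) \ B i0 = tro B Q i0 k := rfl
      rw [hk']
      simp only [mem_insert, mem_singleton] at hk
      rcases hk with h1 | h1 | h1 | h1 | h1 | h1
      · refine ⟨f, by simp, ?_⟩
        rw [h1]
        intro v hv'
        obtain ⟨h2, _, h3⟩ := mem_tro.1 hv'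
        exact absurd h2 h3
      · refine ⟨e1, by simp, ?_⟩
        rw [hNe, h1]
        exact subset_union_left
      · refine ⟨e1, by simp, ?_⟩
        rw [hNe, h1]
        exact subset_union_right
      · refine ⟨g1, by simp, ?_⟩
        rw [hNg, h1]
        exact subset_union_left
      · refine ⟨g1, by simp, ?_⟩
        rw [hNg, h1]
        exact subset_union_right
      · refine ⟨f, by simp, ?_⟩
        rw [hNf, h1]
  have h5 := hv.blk hm (Y2 := ∅) (empty_subset _) (by simp [ee]) (fun y hy =>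
    absurd hy (notMem_empty y)) ⟨f, by simp, by rw [hNf]; exact h.fn, by
      rw [hNf]; exact tro_card hv.tr h.fm⟩
  have k1 : ({i0, e1, e2, g1, g2, f} : Finset ι).card = 6 := by
    rw [card_insert_of_notMem (by simp [b1, b2, b3, b4, b5]),
      card_insert_of_notMem (by simp [a1, a2, a3, c1.symm]),
      card_insert_of_notMem (by simp [a4, a5, c2.symm]),
      card_insert_of_notMem (by simp [a6, c3.symm]), card_pair c4.symm]
  have k2 : ({e1, g1, f} : Finset ι).card = 3 := by
    rw [card_insert_of_notMem (by simp [a2, c1.symm]), card_pair c3.symm]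
  rw [k1, k2, card_empty] at h5
  push_cast at h5
  linarith

end Pool.Agent.Hyp6
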