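import Pool.Agent.Hyp6.L3P8f
import Pool.Agent.Hyp6.L3P8d
import Pool.Agent.Hyp6.Gdw2

/-!
# HYP6 L3P8g: the placements (4,0,0) and (3,1,0) at a leaf of type (3;1)

`Frm.no400`: no point of a triple has four hits on a leaf of type (3;1) if the other two points of the
triple have none and the other points of the system have at most one. `Frm.no310`: no point of a triple
has three hits on blocks with the point of the single block and one more point of the leaf, if one point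
of the triple has one hit, on the single block, and the third point has none.
-/

set_option autoImplicit false

namespace Pool.Agent.Hyp6

open Finset Pool.Agent.Hyp5 Rt

universe u v

section

variable {V : Type v} [DecidableEq V] {ι : Type u} [Fintype ι] {B : ι → Finset V}

/-- **two equal full blocks and two blocks leaving the same point.** -/
theorem ViolR.dblY {Q : Finset V} (hv : ViolR B Q) {i0 i1 k1 k2 : ι} (h01 : i0 ≠ i1) (hk : k1 ≠ k2)
    (c3 : (B i0 ∩ Q).card = 3) (h1 : B i1 ∩ Q ⊆ B i0) (n1 : (B i1 ∩ Q).Nonempty) {y : V}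
    (hy : y ∈ Q) (hyi : y ∉ B i0) (e1 : (B k1 ∩ Q) \ B i0 = {y}) (e2 : (B k2 ∩ Q) \ B i0 = {y})
    (m1 : (B k1 ∩ (B i0 ∩ Q)).Nonempty) (m2 : (B k2 ∩ (B i0 ∩ Q)).Nonempty)
    (hee : ee B Q {y} = 0) : False := by
  classical
  have y1 : y ∈ B k1 := (mem_inter.1 (mem_sdiff.1 (by rw [e1]; exact mem_singleton_self y :
    y ∈ (B k1 ∩ Q) \ B i0)).1).1
  have y2 : y ∈ B k2 := (mem_inter.1 (mem_sdiff.1 (by rw [e2]; exact mem_singleton_self y :
    y ∈ (B k2 ∩ Q) \ B i0)).1).1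
  have yi1 : y ∉ B i1 := fun h => hyi (h1 (mem_inter.2 ⟨h, hy⟩))
  have d1 : k1 ≠ i0 := fun h => hyi (h ▸ y1)
  have d2 : k2 ≠ i0 := fun h => hyi (h ▸ y2)
  have d3 : k1 ≠ i1 := fun h => yi1 (h ▸ y1)
  have d4 : k2 ≠ i1 := fun h => yi1 (h ▸ y2)
  have hM : Mgb B Q i0 {i0, i1, k1, k2} {k1, k2} (fun _ => {y}) := by
    refine ⟨c3, ?_, ?_, ?_, ?_, ?_, ?_⟩
    · intro i hi
      simp only [mem_insert, mem_singleton] at hi
      rcases hi with rfl | rfl | rfl | rfl
      · obtain ⟨v, hv'⟩ : (B i ∩ Q).Nonempty := card_pos.1 (by omega)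
        exact ⟨v, mem_inter.2 ⟨(mem_inter.1 hv').1, hv'⟩⟩
      · obtain ⟨v, hv'⟩ := n1
        exact ⟨v, mem_inter.2 ⟨(mem_inter.1 hv').1, mem_inter.2 ⟨h1 hv', (mem_inter.1 hv').2⟩⟩⟩
      · exact m1
      · exact m2
    · intro k _
      exact singleton_subset_iff.2 (mem_sdiff.2 ⟨hy, hyi⟩)
    · intro k _
      simp
    · intro w hw hwi
      rw [sum_insert (by
          simp only [mem_insert, mem_singleton, not_or]
          exact ⟨h01, d1.symm, d2.symm⟩),
        sum_insert (by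
          simp only [mem_insert, mem_singleton, not_or]
          exact ⟨d3.symm, d4.symm⟩), sum_pair hk, sum_pair hk, if_neg hwi,
        if_neg (fun h => hwi (h1 (mem_inter.2 ⟨h, hw⟩))), Nat.zero_add, Nat.zero_add]
      by_cases hwy : w = y
      · subst hwy
        rw [if_pos y1, if_pos y2, if_pos (mem_singleton_self _)]
      · have n1' : w ∉ B k1 := fun h => hwy (mem_singleton.1 (by
          rw [← e1]; exact mem_sdiff.2 ⟨mem_inter.2 ⟨h, hw⟩, hwi⟩))
        have n2' : w ∉ B k2 := fun h => hwy (mem_singleton.1 (by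
          rw [← e2]; exact mem_sdiff.2 ⟨mem_inter.2 ⟨h, hw⟩, hwi⟩))
        rw [if_neg n1', if_neg n2', if_neg (fun h => hwy (mem_singleton.1 h))]
    · intro K hK
      rcases K.eq_empty_or_nonempty with rfl | hne
      · rw [biUnion_empty, union_empty, card_empty]
        exact rho_le_one (i := i0) inter_subset_left
      · have h5 : rho B ((B i0 ∩ Q) ∪ K.biUnion (fun _ => ({y} : Finset V))) ≤ 2 := by
          refine (rho_le (T := {i0, k1}) ?_).trans (card_le_two)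
          intro v hv'
          rw [mem_biUnion]
          rcases mem_union.1 hv' with h6 | h6
          · exact ⟨i0, mem_insert_self _ _, (mem_inter.1 h6).1⟩
          · obtain ⟨k, _, h7⟩ := mem_biUnion.1 h6
            rw [mem_singleton] at h7
            subst h7
            exact ⟨k1, mem_insert_of_mem (mem_singleton_self _), y1⟩
        have h6 := card_pos.2 hne
        omega
    · intro i hi
      simp only [mem_insert, mem_singleton] at hi
      refine ⟨k1, mem_insert_self _ _, ?_⟩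
      rcases hi with rfl | rfl | rfl | rfl
      · intro v hv'
        obtain ⟨h5, h6⟩ := mem_sdiff.1 hv'
        exact absurd (mem_inter.1 h5).1 h6
      · intro v hv'
        obtain ⟨h5, h6⟩ := mem_sdiff.1 hv'
        exact absurd (h1 h5) h6
      · rw [e1]
      · rw [e2]
  have h5 := hv.blk hM (Y2 := {y}) (singleton_subset_iff.2 (mem_sdiff.2 ⟨hy, hyi⟩)) hee
    (fun w hw => by
      rw [mem_singleton] at hw
      subst hw
      rw [filter_true_of_mem (fun k _ => rfl), card_pair hk])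
    ⟨k1, mem_insert_self _ _, singleton_nonempty y, by simp⟩
  have c4 : ({i0, i1, k1, k2} : Finset ι).card = 4 := by
    rw [card_insert_of_notMem (by
          simp only [mem_insert, mem_singleton, not_or]
          exact ⟨h01, d1.symm, d2.symm⟩),
        card_insert_of_notMem (by
          simp only [mem_insert, mem_singleton, not_or]
          exact ⟨d3.symm, d4.symm⟩), card_pair hk]
  rw [c4, card_pair hk, card_singleton] at h5
  have := hv.neg
  push_cast at h5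
  linarith

end

variable {V : Type v} [DecidableEq V] {ι : Type u} [Fintype ι] [DecidableEq ι] {B : ι → Finset V}

variable {Q U : Finset V} {T : Finset ι} {F : Finset (Finset V)} {j : ι} {L : Finset V}
  {m p q a b c : V} {s : ι}

/-- the situation: the leaf `{m, p, q}` of type (3;1) and the triple `{a, b, c}`. -/
structure S31 (B : ι → Finset V) (Q : Finset V) (L : Finset V) (m p q : V) (s j : ι)
    (a b c : V) : Prop where
  tr : Tr3 B Q
  t31 : T31 B L m p q s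
  LQ : L ⊆ Q
  jQ : B j ∩ Q = {a, b, c}
  jL : ∀ v ∈ L, v ∉ B j
  ab : a ≠ b
  ac : a ≠ c
  bc : b ≠ c
  ee0 : ee B Q L = 0

namespace S31

omit [DecidableEq ι] in
theorem swap (h : S31 B Q L m p q s j a b c) : S31 B Q L m q p s j a b c :=
  ⟨h.tr, h.t31.swap, h.LQ, h.jQ, h.jL, h.ab, h.ac, h.bc, h.ee0⟩

omit [DecidableEq ι] in
theorem inL (h : S31 B Q L m p q s j a b c) : m ∈ L ∧ p ∈ L ∧ q ∈ L := by
  rw [h.t31.eq]
  simp

omit [DecidableEq ι] in
theorem memj (h : S31 B Q L m p q s j a b c) {v : V} : v ∈ B j ∧ v ∈ Q ↔ v = a ∨ v = b ∨ v = c := by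
  rw [← mem_inter, h.jQ]
  simp

omit [DecidableEq ι] in
theorem aj (h : S31 B Q L m p q s j a b c) : a ∈ B j ∧ a ∈ Q := h.memj.2 (Or.inl rfl)

omit [DecidableEq ι] in
theorem aL (h : S31 B Q L m p q s j a b c) : a ∉ L := fun h1 => h.jL a h1 h.aj.1

omit [DecidableEq ι] in
theorem bL (h : S31 B Q L m p q s j a b c) : b ∉ L ∧ b ∈ B j ∧ b ∈ Q :=
  ⟨fun h1 => h.jL b h1 (h.memj.2 (Or.inr (Or.inl rfl))).1, h.memj.2 (Or.inr (Or.inl rfl))⟩

omit [DecidableEq ι] in
theorem cL (h : S31 B Q L m p q s j a b c) : c ∉ L ∧ c ∈ B j ∧ c ∈ Q :=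
  ⟨fun h1 => h.jL c h1 (h.memj.2 (Or.inr (Or.inr rfl))).1, h.memj.2 (Or.inr (Or.inr rfl))⟩

omit [DecidableEq ι] in
/-- a block with two points of the leaf and `a`. -/
theorem full (h : S31 B Q L m p q s j a b c) {x y : V} {k : ι} (hx : x ∈ L) (hy : y ∈ L)
    (hxy : x ≠ y) (kx : x ∈ B k) (ky : y ∈ B k) (ka : a ∈ B k) : B k ∩ Q = {x, y, a} := by
  have hxa : x ≠ a := fun he => h.aL (he ▸ hx)
  have hya : y ≠ a := fun he => h.aL (he ▸ hy)
  refine (eq_of_subset_of_card_le ?_ ?_).symm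
  · intro v hv
    simp only [mem_insert, mem_singleton] at hv
    rcases hv with rfl | rfl | rfl
    · exact mem_inter.2 ⟨kx, h.LQ hx⟩
    · exact mem_inter.2 ⟨ky, h.LQ hy⟩
    · exact mem_inter.2 ⟨ka, h.aj.2⟩
  · rw [card_eq_three.2 ⟨x, y, a, hxy, hxa, hya, rfl⟩]
    exact h.tr k

omit [DecidableEq ι] in
/-- a block with two points of the leaf has one more point. -/
theorem tro_le (h : S31 B Q L m p q s j a b c) {x y : V} {i0 k : ι} (hx : x ∈ L) (hy : y ∈ L)
    (hxy : x ≠ y) (kx : x ∈ B k) (ky : y ∈ B k) (ix : x ∈ B i0) (iy : y ∈ B i0) :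
    (tro B Q i0 k).card ≤ 1 := by
  have h1 : tro B Q i0 k ⊆ (B k ∩ Q) \ {x, y} := by
    intro v hv
    obtain ⟨v1, v2, v3⟩ := mem_tro.1 hv
    refine mem_sdiff.2 ⟨mem_inter.2 ⟨v1, v2⟩, ?_⟩
    simp only [mem_insert, mem_singleton, not_or]
    exact ⟨fun he => v3 (he ▸ ix), fun he => v3 (he ▸ iy)⟩
  have h2 := card_le_card h1
  have h3 : ({x, y} : Finset V) ⊆ B k ∩ Q := by
    intro v hv
    rcases mem_insert.1 hv with rfl | hv
    · exact mem_inter.2 ⟨kx, h.LQ hx⟩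
    · rw [mem_singleton.1 hv]; exact mem_inter.2 ⟨ky, h.LQ hy⟩
  have h4 := card_sdiff_add_card_eq_card h3
  rw [card_pair hxy] at h4
  have h5 : (B k ∩ Q).card ≤ 3 := h.tr k
  omega

omit [DecidableEq ι] in
/-- the trace of a full block of the leaf and `a`. -/
theorem tro_eq (h : S31 B Q L m p q s j a b c) {x y z : V} {i0 k : ι} (hx : x ∈ L) (hy : y ∈ L)
    (hz : z ∈ L) (hxy : x ≠ y) (hxz : x ≠ z) (hyz : y ≠ z) (kx : x ∈ B k) (ky : y ∈ B k)
    (ka : a ∈ B k) (iy : y ∈ B i0) (iz : z ∈ B i0) (ia : a ∈ B i0) : tro B Q i0 k = {x} := by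
  have h1 := h.full hx hy hxy kx ky ka
  have h2 := h.full hy hz hyz iy iz ia
  have hxi : x ∉ B i0 := by
    intro h3
    have h4 : x ∈ B i0 ∩ Q := mem_inter.2 ⟨h3, h.LQ hx⟩
    rw [h2] at h4
    simp only [mem_insert, mem_singleton] at h4
    rcases h4 with h4 | h4 | h4
    · exact hxy h4
    · exact hxz h4
    · exact h.aL (h4 ▸ hx)
  ext v
  rw [mem_tro, mem_singleton]
  constructor
  · rintro ⟨v1, v2, v3⟩
    have h4 : v ∈ B k ∩ Q := mem_inter.2 ⟨v1, v2⟩
    rw [h1] at h4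
    simp only [mem_insert, mem_singleton] at h4
    rcases h4 with h4 | h4 | h4
    · exact h4
    · exact absurd (h4 ▸ iy) v3
    · exact absurd (h4 ▸ ia) v3
  · rintro rfl
    exact ⟨kx, h.LQ hx, hxi⟩

omit [DecidableEq ι] in
/-- an equal full block has no trace. -/
theorem tro_empty (h : S31 B Q L m p q s j a b c) {x y : V} {i0 k : ι} (hx : x ∈ L) (hy : y ∈ L)
    (hxy : x ≠ y) (kx : x ∈ B k) (ky : y ∈ B k) (ka : a ∈ B k) (ix : x ∈ B i0) (iy : y ∈ B i0)
    (ia : a ∈ B i0) : tro B Q i0 k = ∅ := by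
  have h1 := h.full hx hy hxy kx ky ka
  ext v
  rw [mem_tro]
  simp only [notMem_empty, iff_false]
  rintro ⟨v1, v2, v3⟩
  have h4 : v ∈ B k ∩ Q := mem_inter.2 ⟨v1, v2⟩
  rw [h1] at h4
  simp only [mem_insert, mem_singleton] at h4
  rcases h4 with h4 | h4 | h4
  · exact v3 (h4 ▸ ix)
  · exact v3 (h4 ▸ iy)
  · exact v3 (h4 ▸ ia)

omit [DecidableEq ι] in
theorem tro_j (h : S31 B Q L m p q s j a b c) {i0 : ι} (ia : a ∈ B i0) :
    tro B Q i0 j ⊆ {b, c} ∧ (tro B Q i0 j).card ≤ 2 := by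
  have h1 : tro B Q i0 j ⊆ {b, c} := by
    intro v hv
    obtain ⟨v1, v2, v3⟩ := mem_tro.1 hv
    rcases h.memj.1 ⟨v1, v2⟩ with h2 | h2 | h2
    · exact absurd (h2 ▸ ia) v3
    · simp [h2]
    · simp [h2]
  exact ⟨h1, (card_le_card h1).trans card_le_two⟩

omit [DecidableEq ι] in
theorem ee_one (h : S31 B Q L m p q s j a b c) {x : V} (hx : x ∈ L) : ee B Q {x} = 0 := by
  have h1 := ee_mono (B := B) (Q := Q) (singleton_subset_iff.2 hx)
  have h2 := h.ee0
  omega

omit [DecidableEq ι] in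
/-- at most one of `x`, `y`, `z` fails on a block: no block has the whole leaf. -/
theorem no3 (h : S31 B Q L m p q s j a b c) {k : ι} : ¬ (m ∈ B k ∧ p ∈ B k ∧ q ∈ B k) := by
  rintro ⟨k1, k2, k3⟩
  have h9 : L ⊆ B k := by
    intro v hv
    rw [h.t31.eq] at hv
    simp only [mem_insert, mem_singleton] at hv
    rcases hv with rfl | rfl | rfl
    · exact k1
    · exact k2
    · exact k3
  have h10 := h.t31.two k
  have hc3 : L.card = 3 := by
    rw [h.t31.eq]
    exact card_eq_three.2 ⟨m, p, q, h.t31.ab, h.t31.ac, h.t31.bc, rfl⟩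
  rw [inter_eq_right.2 h9, hc3] at h10
  omega

omit [DecidableEq ι] in
theorem s_mem (h : S31 B Q L m p q s j a b c) : m ∈ B s ∧ p ∉ B s ∧ q ∉ B s := by
  have htr := h.t31.tr
  obtain ⟨hm, hp, hq⟩ := h.inL
  refine ⟨?_, ?_, ?_⟩
  · have h1 : m ∈ B s ∩ L := by rw [htr]; simp
    exact (mem_inter.1 h1).1
  · intro h7
    have h8 : p ∈ B s ∩ L := mem_inter.2 ⟨h7, hp⟩
    rw [htr, mem_singleton] at h8
    exact h.t31.ab h8.symm
  · intro h7
    have h8 : q ∈ B s ∩ L := mem_inter.2 ⟨h7, hq⟩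
    rw [htr, mem_singleton] at h8
    exact h.t31.ac h8.symm

omit [DecidableEq ι] in
/-- a block with a point of the leaf is not the triple. -/
theorem ne_j (h : S31 B Q L m p q s j a b c) {x : V} {k : ι} (hx : x ∈ L) (kx : x ∈ B k) :
    k ≠ j := fun he => h.jL x hx (he ▸ kx)

end S31

omit [Fintype ι] [DecidableEq ι] in
/-- two blocks of `K` through a point. -/
theorem kc_two {K : Finset ι} {x : V} (h : 2 ≤ kc B K x) :
    ∃ k ∈ K, ∃ k' ∈ K, k ≠ k' ∧ x ∈ B k ∧ x ∈ B k' := by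
  obtain ⟨k, hk, k', hk', hne⟩ := one_lt_card.1 (show 1 < (K.filter (fun k => x ∈ B k)).card from h)
  exact ⟨k, (mem_filter.1 hk).1, k', (mem_filter.1 hk').1, hne, (mem_filter.1 hk).2,
    (mem_filter.1 hk').2⟩

/-- **not two of the three blocks.** -/
theorem ViolR.noAA (hv : ViolR B Q) (h : S31 B Q L m p q s j a b c)
    (hb : Ez B L b = ∅) (hc : Ez B L c = ∅) : kc B (bl B p q) a ≤ 1 := by
  classical
  by_contra hcon
  obtain ⟨k, hk, k', hk', hne, ha, ha'⟩ := kc_two (B := B) (show 2 ≤ kc B (bl B p q) a by omega)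
  obtain ⟨hmL, hpL, hqL⟩ := h.inL
  have h31 := h.t31
  obtain ⟨k3, h3⟩ : ((bl B p q) \ {k, k'}).Nonempty := by
    rw [← card_pos]
    have h1 : ({k, k'} : Finset ι) ⊆ bl B p q := by
      intro i hi
      rcases mem_insert.1 hi with rfl | hi
      · exact hk
      · exact mem_singleton.1 hi ▸ hk'
    have h2 := card_sdiff_add_card_eq_card h1
    rw [card_pair hne, h31.cA] at h2
    omega
  obtain ⟨h3, h3n⟩ := mem_sdiff.1 h3
  simp only [mem_insert, mem_singleton, not_or] at h3n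
  obtain ⟨f, hf⟩ : (bl B m p).Nonempty := card_pos.1 (by rw [h31.cB]; norm_num)
  rw [mem_bl] at hk hk' h3 hf
  have hmk : m ∉ B k := fun h1 => h.no3 ⟨h1, hk.1, hk.2⟩
  have hmk' : m ∉ B k' := fun h1 => h.no3 ⟨h1, hk'.1, hk'.2⟩
  have hmk3 : m ∉ B k3 := fun h1 => h.no3 ⟨h1, h3.1, h3.2⟩
  have hmf : m ∈ tro B Q k f := mem_tro.2 ⟨hf.1, h.LQ hmL, hmk⟩
  have hM : Mr1 B Q k k3 j {k, k'} {f} := by
    refine ⟨?_, by simp, ?_, h.ne_j hpL h3.1, ?_, ?_, ?_, ?_, ?_, ?_, ?_, ?_, ?_, ?_, ?_⟩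
    · rw [h.full hpL hqL h31.bc hk.1 hk.2 ha]
      exact card_eq_three.2 ⟨p, q, a, h31.bc, fun he => h.aL (he ▸ hpL),
        fun he => h.aL (he ▸ hqL), rfl⟩
    · intro i hi
      have hi' : p ∈ B i ∧ q ∈ B i ∧ a ∈ B i := by
        rcases mem_insert.1 hi with rfl | hi
        · exact ⟨hk.1, hk.2, ha⟩
        · rw [mem_singleton.1 hi]
          exact ⟨hk'.1, hk'.2, ha'⟩
      exact ⟨h.tro_empty hpL hqL h31.bc hi'.1 hi'.2.1 hi'.2.2 hk.1 hk.2 ha,
        p, mem_inter.2 ⟨hi'.1, mem_inter.2 ⟨hk.1, h.LQ hpL⟩⟩⟩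
    · rw [h.full hpL hqL h31.bc hk.1 hk.2 ha]
      intro v hv'
      simp only [mem_insert, mem_singleton] at hv'
      rcases hv' with rfl | rfl | rfl
      · exact mem_union_left _ h3.1
      · exact mem_union_left _ h3.2
      · exact mem_union_right _ h.aj.1
    · exact ⟨p, mem_inter.2 ⟨h3.1, mem_inter.2 ⟨hk.1, h.LQ hpL⟩⟩⟩
    · exact ⟨a, mem_inter.2 ⟨h.aj.1, mem_inter.2 ⟨ha, h.aj.2⟩⟩⟩
    · rw [disjoint_left]
      intro v hv1 hv2
      have h5 := (mem_tro.1 hv1).1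
      have h6 := (h.tro_j ha).1 hv2
      have h7 : k3 ∈ Ez B L v := mem_Ez.2 ⟨h5, p, mem_inter.2 ⟨h3.1, hpL⟩⟩
      rcases mem_insert.1 h6 with h8 | h8
      · rw [h8, hb] at h7
        exact notMem_empty _ h7
      · rw [mem_singleton.1 h8, hc] at h7
        exact notMem_empty _ h7
    · have e1 := h.tro_le hpL hqL h31.bc h3.1 h3.2 hk.1 hk.2
      have e2 := (h.tro_j ha).2
      omega
    · intro i hi
      rw [mem_singleton.1 hi]
      exact ⟨p, mem_inter.2 ⟨hf.2, mem_inter.2 ⟨hk.1, h.LQ hpL⟩⟩⟩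
    · simp only [mem_insert, mem_singleton, not_or]
      exact h3n
    · simp only [mem_insert, mem_singleton, not_or]
      exact ⟨(h.ne_j hpL hk.1).symm, (h.ne_j hpL hk'.1).symm⟩
    · rw [mem_singleton]
      rintro rfl
      exact hmk3 hf.1
    · rw [mem_singleton]
      exact (h.ne_j hmL hf.1).symm
    · rw [disjoint_singleton_right]
      simp only [mem_insert, mem_singleton, not_or]
      exact ⟨fun he => hmk (he ▸ hf.1), fun he => hmk' (he ▸ hf.1)⟩
  have h5 := hv.mrg1v hM (Y2 := ∅) (empty_subset _) (by simp [ee])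
    (fun y hy => absurd hy (notMem_empty y)) ⟨f, mem_singleton_self f, m, hmf⟩
  rw [card_pair hne, card_empty] at h5
  have := hv.neg
  push_cast at h5
  linarith

/-- **two blocks `{m, q, a}`, a block `{m, p, a}`, the other one without `b`, `c`**. -/
theorem ViolR.noCCB (hv : ViolR B Q) (h : S31 B Q L m p q s j a b c)
    {k k' i e : ι} (hk : k ∈ bl B m q) (hk' : k' ∈ bl B m q) (hne : k ≠ k') (ha : a ∈ B k)
    (ha' : a ∈ B k') (hi : i ∈ bl B m p) (hai : a ∈ B i) (he : e ∈ bl B m p) (hie : i ≠ e)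
    (hbe : b ∉ B e) (hce : c ∉ B e) : False := by
  classical
  obtain ⟨hmL, hpL, hqL⟩ := h.inL
  have h31 := h.t31
  rw [mem_bl] at hk hk' hi he
  have t1 : tro B Q i k = {q} := h.tro_eq hqL hmL hpL h31.ac.symm h31.bc.symm h31.ab hk.2 hk.1 ha
    hi.1 hi.2 hai
  have t2 : tro B Q i k' = {q} := h.tro_eq hqL hmL hpL h31.ac.symm h31.bc.symm h31.ab hk'.2 hk'.1
    ha' hi.1 hi.2 hai
  have hqi : q ∉ B i := fun h1 => h.no3 ⟨hi.1, hi.2, h1⟩
  have hqe : q ∉ B e := fun h1 => h.no3 ⟨he.1, he.2, h1⟩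
  have hM : Mr1 B Q i e j {i} {k, k'} := by
    refine ⟨?_, by simp, ?_, h.ne_j hmL he.1, ?_, ?_, ?_, ?_, ?_, ?_, ?_, ?_, ?_, ?_, ?_⟩
    · rw [h.full hmL hpL h31.ab hi.1 hi.2 hai]
      exact card_eq_three.2 ⟨m, p, a, h31.ab, fun he => h.aL (he ▸ hmL),
        fun he => h.aL (he ▸ hpL), rfl⟩
    · intro x hx
      rw [mem_singleton.1 hx]
      exact ⟨h.tro_empty hmL hpL h31.ab hi.1 hi.2 hai hi.1 hi.2 hai,
        m, mem_inter.2 ⟨hi.1, mem_inter.2 ⟨hi.1, h.LQ hmL⟩⟩⟩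
    · rw [h.full hmL hpL h31.ab hi.1 hi.2 hai]
      intro v hv'
      simp only [mem_insert, mem_singleton] at hv'
      rcases hv' with rfl | rfl | rfl
      · exact mem_union_left _ he.1
      · exact mem_union_left _ he.2
      · exact mem_union_right _ h.aj.1
    · exact ⟨m, mem_inter.2 ⟨he.1, mem_inter.2 ⟨hi.1, h.LQ hmL⟩⟩⟩
    · exact ⟨a, mem_inter.2 ⟨h.aj.1, mem_inter.2 ⟨hai, h.aj.2⟩⟩⟩
    · rw [disjoint_left]
      intro v hv1 hv2
      have h5 := (mem_tro.1 hv1).1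
      have h6 := (h.tro_j hai).1 hv2
      rcases mem_insert.1 h6 with h8 | h8
      · exact hbe (h8 ▸ h5)
      · exact hce (mem_singleton.1 h8 ▸ h5)
    · have e1 := h.tro_le hmL hpL h31.ab he.1 he.2 hi.1 hi.2
      have e2 := (h.tro_j hai).2
      omega
    · intro x hx
      have : m ∈ B x := by
        rcases mem_insert.1 hx with rfl | hx
        · exact hk.1
        · exact mem_singleton.1 hx ▸ hk'.1
      exact ⟨m, mem_inter.2 ⟨this, mem_inter.2 ⟨hi.1, h.LQ hmL⟩⟩⟩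
    · rw [mem_singleton]
      exact hie.symm
    · rw [mem_singleton]
      exact (h.ne_j hmL hi.1).symm
    · simp only [mem_insert, mem_singleton, not_or]
      exact ⟨fun h1 => hqe (h1 ▸ hk.2), fun h1 => hqe (h1 ▸ hk'.2)⟩
    · simp only [mem_insert, mem_singleton, not_or]
      exact ⟨(h.ne_j hmL hk.1).symm, (h.ne_j hmL hk'.1).symm⟩
    · rw [disjoint_singleton_left]
      simp only [mem_insert, mem_singleton, not_or]
      exact ⟨fun h1 => hqi (h1 ▸ hk.2), fun h1 => hqi (h1 ▸ hk'.2)⟩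
  have h5 := hv.mrg1v hM (Y2 := {q}) (singleton_subset_iff.2 (mem_sdiff.2 ⟨h.LQ hqL, hqi⟩))
    (h.ee_one hqL) (fun y hy => by
      rw [mem_singleton] at hy
      subst hy
      have h6 : ({k, k'} : Finset ι).filter (fun x => tro B Q i x = {y}) = {k, k'} := by
        refine filter_true_of_mem fun x hx => ?_
        rcases mem_insert.1 hx with rfl | hx
        · exact t1
        · exact mem_singleton.1 hx ▸ t2
      rw [h6, card_pair hne]) ⟨k, by simp, by rw [t1]; simp⟩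
  rw [card_singleton, card_singleton] at h5
  have := hv.neg
  push_cast at h5
  linarith

/-- **two blocks `{m, q, a}`, and `a` on the single block or on a block `{p, q}`**. -/
theorem ViolR.noCCS (hv : ViolR B Q) (h : S31 B Q L m p q s j a b c)
    (hone : ∀ v ∈ Q, v ∉ L → v ∉ B j → (Ez B L v).card ≤ 1)
    (hb : Ez B L b = ∅) (hc : Ez B L c = ∅)
    {k k' e : ι} (hk : k ∈ bl B m q) (hk' : k' ∈ bl B m q) (hne : k ≠ k') (ha : a ∈ B k)
    (ha' : a ∈ B k') (he : e ∈ bl B p q) (hae : a ∈ B e ∨ a ∈ B s) (hne2 : ¬ (a ∈ B e ∧ a ∈ B s)) :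
    False := by
  classical
  obtain ⟨hmL, hpL, hqL⟩ := h.inL
  have h31 := h.t31
  obtain ⟨sm, sp, sq⟩ := h.s_mem
  rw [mem_bl] at hk hk' he
  have hpk : p ∉ B k := fun h1 => h.no3 ⟨hk.1, h1, hk.2⟩
  have hpk' : p ∉ B k' := fun h1 => h.no3 ⟨hk'.1, h1, hk'.2⟩
  have hme : m ∉ B e := fun h1 => h.no3 ⟨h1, he.1, he.2⟩
  have hfk := h.full hmL hqL h31.ac hk.1 hk.2 ha
  have hjn : b ∈ tro B Q k j := by
    refine mem_tro.2 ⟨h.bL.2.1, h.bL.2.2, fun h1 => ?_⟩
    have h2 : b ∈ B k ∩ Q := mem_inter.2 ⟨h1, h.bL.2.2⟩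
    rw [hfk] at h2
    simp only [mem_insert, mem_singleton] at h2
    rcases h2 with h2 | h2 | h2
    · exact h.bL.1 (h2 ▸ hmL)
    · exact h.bL.1 (h2 ▸ hqL)
    · exact h.ab h2.symm
  have hM : Mr1 B Q k e s {k, k'} {j} := by
    refine ⟨?_, by simp, ?_, fun h1 => sp (h1 ▸ he.1), ?_, ?_, ?_, ?_, ?_, ?_, ?_, ?_, ?_, ?_, ?_⟩
    · rw [hfk]
      exact card_eq_three.2 ⟨m, q, a, h31.ac, fun he => h.aL (he ▸ hmL),
        fun he => h.aL (he ▸ hqL), rfl⟩
    · intro i hi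
      have hi' : m ∈ B i ∧ q ∈ B i ∧ a ∈ B i := by
        rcases mem_insert.1 hi with rfl | hi
        · exact ⟨hk.1, hk.2, ha⟩
        · rw [mem_singleton.1 hi]
          exact ⟨hk'.1, hk'.2, ha'⟩
      exact ⟨h.tro_empty hmL hqL h31.ac hi'.1 hi'.2.1 hi'.2.2 hk.1 hk.2 ha,
        m, mem_inter.2 ⟨hi'.1, mem_inter.2 ⟨hk.1, h.LQ hmL⟩⟩⟩
    · rw [hfk]
      intro v hv'
      simp only [mem_insert, mem_singleton] at hv'
      rcases hv' with rfl | rfl | rfl
      · exact mem_union_right _ sm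
      · exact mem_union_left _ he.2
      · rcases hae with h1 | h1
        · exact mem_union_left _ h1
        · exact mem_union_right _ h1
    · exact ⟨q, mem_inter.2 ⟨he.2, mem_inter.2 ⟨hk.2, h.LQ hqL⟩⟩⟩
    · exact ⟨m, mem_inter.2 ⟨sm, mem_inter.2 ⟨hk.1, h.LQ hmL⟩⟩⟩
    · rw [disjoint_left]
      intro v hv1 hv2
      obtain ⟨v1, v2, v3⟩ := mem_tro.1 hv1
      obtain ⟨w1, _, _⟩ := mem_tro.1 hv2
      by_cases hvL : v ∈ L
      · rw [h31.eq] at hvL
        simp only [mem_insert, mem_singleton] at hvL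
        rcases hvL with h1 | h1 | h1
        · exact hme (h1 ▸ v1)
        · exact sp (h1 ▸ w1)
        · exact sq (h1 ▸ w1)
      · have z1 : e ∈ Ez B L v := mem_Ez.2 ⟨v1, p, mem_inter.2 ⟨he.1, hpL⟩⟩
        have z2 : s ∈ Ez B L v := mem_Ez.2 ⟨w1, m, mem_inter.2 ⟨sm, hmL⟩⟩
        by_cases hvj : v ∈ B j
        · rcases h.memj.1 ⟨hvj, v2⟩ with h1 | h1 | h1
          · exact v3 (h1 ▸ ha)
          · rw [h1, hb] at z1
            exact notMem_empty _ z1
          · rw [h1, hc] at z1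
            exact notMem_empty _ z1
        · have h1 := card_le_card (show ({e, s} : Finset ι) ⊆ Ez B L v by
            intro i hi
            rcases mem_insert.1 hi with rfl | hi
            · exact z1
            · exact mem_singleton.1 hi ▸ z2)
          rw [card_pair (fun h3 : e = s => sp (h3 ▸ he.1))] at h1
          have h2 := hone v v2 hvL hvj
          omega
    · -- the sizes
      rcases hae with h1 | h1
      · have e1 : (tro B Q k e).card ≤ 1 := by
          have h2 := h.full hpL hqL h31.bc he.1 he.2 h1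
          have h3 : tro B Q k e ⊆ {p} := by
            intro v hv'
            obtain ⟨v1, v2, v3⟩ := mem_tro.1 hv'
            have h4 : v ∈ B e ∩ Q := mem_inter.2 ⟨v1, v2⟩
            rw [h2] at h4
            simp only [mem_insert, mem_singleton] at h4
            rcases h4 with h4 | h4 | h4
            · simp [h4]
            · exact absurd (h4 ▸ hk.2) v3
            · exact absurd (h4 ▸ ha) v3
          have h4 := card_le_card h3
          rw [card_singleton] at h4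
          exact h4
        have e2 := tro_card (B := B) (Q := Q) (i0 := k) (k := s) h.tr
          ⟨m, mem_inter.2 ⟨sm, mem_inter.2 ⟨hk.1, h.LQ hmL⟩⟩⟩
        omega
      · have e1 := tro_card (B := B) (Q := Q) (i0 := k) (k := e) h.tr
          ⟨q, mem_inter.2 ⟨he.2, mem_inter.2 ⟨hk.2, h.LQ hqL⟩⟩⟩
        have e2 : (tro B Q k s).card ≤ 1 := by
          have h2 : tro B Q k s ⊆ (B s ∩ Q) \ {m, a} := by
            intro v hv'
            obtain ⟨v1, v2, v3⟩ := mem_tro.1 hv'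
            refine mem_sdiff.2 ⟨mem_inter.2 ⟨v1, v2⟩, ?_⟩
            simp only [mem_insert, mem_singleton, not_or]
            exact ⟨fun h4 => v3 (h4 ▸ hk.1), fun h4 => v3 (h4 ▸ ha)⟩
          have h3 := card_le_card h2
          have h4 : ({m, a} : Finset V) ⊆ B s ∩ Q := by
            intro v hv'
            rcases mem_insert.1 hv' with rfl | hv'
            · exact mem_inter.2 ⟨sm, h.LQ hmL⟩
            · rw [mem_singleton.1 hv']; exact mem_inter.2 ⟨h1, h.aj.2⟩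
          have h5 := card_sdiff_add_card_eq_card h4
          rw [card_pair (fun h6 : m = a => h.aL (h6 ▸ hmL))] at h5
          have h6 : (B s ∩ Q).card ≤ 3 := h.tr s
          omega
        omega
    · intro i hi
      rw [mem_singleton.1 hi]
      exact ⟨a, mem_inter.2 ⟨h.aj.1, mem_inter.2 ⟨ha, h.aj.2⟩⟩⟩
    · simp only [mem_insert, mem_singleton, not_or]
      exact ⟨fun h1 => hpk (h1 ▸ he.1), fun h1 => hpk' (h1 ▸ he.1)⟩
    · simp only [mem_insert, mem_singleton, not_or]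
      exact ⟨fun h1 => sq (h1 ▸ hk.2), fun h1 => sq (h1 ▸ hk'.2)⟩
    · rw [mem_singleton]
      exact h.ne_j hpL he.1
    · rw [mem_singleton]
      exact h.ne_j hmL sm
    · rw [disjoint_singleton_right]
      simp only [mem_insert, mem_singleton, not_or]
      exact ⟨(h.ne_j hmL hk.1).symm, (h.ne_j hmL hk'.1).symm⟩
  have h5 := hv.mrg1v hM (Y2 := ∅) (empty_subset _) (by simp [ee])
    (fun y hy => absurd hy (notMem_empty y)) ⟨j, mem_singleton_self j, b, hjn⟩
  rw [card_pair hne, card_empty] at h5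
  have := hv.neg
  have _ := hne2
  push_cast at h5
  linarith

omit [DecidableEq ι] in
/-- **two blocks `{m, q, a}` and two blocks `{m, p, a}`**. -/
theorem ViolR.noCCBB (hv : ViolR B Q) (h : S31 B Q L m p q s j a b c)
    {k k' i i' : ι} (hk : k ∈ bl B m q) (hk' : k' ∈ bl B m q) (hne : k ≠ k') (ha : a ∈ B k)
    (ha' : a ∈ B k') (hi : i ∈ bl B m p) (hi' : i' ∈ bl B m p) (hie : i ≠ i') (hai : a ∈ B i)
    (hai' : a ∈ B i') : False := by
  obtain ⟨hmL, hpL, hqL⟩ := h.inL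
  have h31 := h.t31
  rw [mem_bl] at hk hk' hi hi'
  have hpk : p ∉ B k := fun h1 => h.no3 ⟨hk.1, h1, hk.2⟩
  have hfk := h.full hmL hqL h31.ac hk.1 hk.2 ha
  have hfk' := h.full hmL hqL h31.ac hk'.1 hk'.2 ha'
  refine hv.dblY (i0 := k) (i1 := k') (k1 := i) (k2 := i') hne hie ?_ ?_ ?_ (h.LQ hpL) hpk ?_ ?_ ?_
    ?_ (h.ee_one hpL)
  · rw [hfk]
    exact card_eq_three.2 ⟨m, q, a, h31.ac, fun he => h.aL (he ▸ hmL),
      fun he => h.aL (he ▸ hqL), rfl⟩
  · rw [hfk', ← hfk]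
    exact inter_subset_left
  · exact ⟨m, mem_inter.2 ⟨hk'.1, h.LQ hmL⟩⟩
  · exact h.tro_eq hpL hmL hqL h31.ab.symm h31.bc h31.ac hi.2 hi.1 hai hk.1 hk.2 ha
  · exact h.tro_eq hpL hmL hqL h31.ab.symm h31.bc h31.ac hi'.2 hi'.1 hai' hk.1 hk.2 ha
  · exact ⟨m, mem_inter.2 ⟨hi.1, mem_inter.2 ⟨hk.1, h.LQ hmL⟩⟩⟩
  · exact ⟨m, mem_inter.2 ⟨hi'.1, mem_inter.2 ⟨hk.1, h.LQ hmL⟩⟩⟩

end Pool.Agent.Hyp6
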