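import Pool.Agent.Hyp6.L3P8g
import Pool.Agent.Hyp6.L3P8e

/-!
# HYP6 L3P8h: `V400` and `V310`

The two placements of a triple with four hits on a leaf of type (3;1) do not exist.
-/

set_option autoImplicit false

namespace Pool.Agent.Hyp6

open Finset Pool.Agent.Hyp5 Rt

universe u v

variable {V : Type v} [DecidableEq V] {ι : Type u} [Fintype ι] [DecidableEq ι] {B : ι → Finset V}

variable {Q U : Finset V} {T : Finset ι} {F : Finset (Finset V)} {j : ι} {L : Finset V}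
  {m p q a b c : V} {s : ι}

omit [Fintype ι] [DecidableEq ι] in
theorem kc_all {K : Finset ι} {x : V} (h : K.card ≤ kc B K x) : ∀ k ∈ K, x ∈ B k := by
  have h1 : K.filter (fun k => x ∈ B k) = K :=
    eq_of_subset_of_card_le (filter_subset _ _) h
  intro k hk
  rw [← h1] at hk
  exact (mem_filter.1 hk).2

/-- the case of two blocks `{m, q, a}` and two more hits. -/
theorem ViolR.no4C (hv : ViolR B Q) (h : S31 B Q L m p q s j a b c)
    (hone : ∀ v ∈ Q, v ∉ L → v ∉ B j → (Ez B L v).card ≤ 1)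
    (hb : Ez B L b = ∅) (hc : Ez B L c = ∅) (hA : kc B (bl B p q) a ≤ 1)
    (hC : 2 ≤ kc B (bl B m q) a)
    (h4 : 4 ≤ kc B (bl B p q) a + kc B (bl B m p) a + kc B (bl B m q) a +
      (if a ∈ B s then 1 else 0)) : False := by
  classical
  have h31 := h.t31
  obtain ⟨k, hk, k', hk', hne, ha, ha'⟩ := kc_two (B := B) hC
  have hC2 : kc B (bl B m q) a ≤ 2 := (card_filter_le _ _).trans h31.cC.le
  by_cases hs : a ∈ B s
  · -- a block {p, q} without a
    obtain ⟨e, he, hae⟩ : ∃ e ∈ bl B p q, a ∉ B e := by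
      by_contra hcon
      push Not at hcon
      have h1 : (bl B p q).filter (fun k => a ∈ B k) = bl B p q := filter_true_of_mem hcon
      have h2 : kc B (bl B p q) a = 3 := by
        unfold kc
        rw [h1, h31.cA]
      omega
    exact hv.noCCS h hone hb hc hk hk' hne ha ha' he (Or.inr hs) fun h1 => hae h1.1
  · rw [if_neg hs] at h4
    rcases Nat.lt_or_ge 0 (kc B (bl B p q) a) with h1 | h1
    · obtain ⟨e, he, hae⟩ := kc_pos h1
      exact hv.noCCS h hone hb hc hk hk' hne ha ha' he (Or.inl hae) fun h1 => hs h1.2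
    · obtain ⟨i, hi, i', hi', hie, hai, hai'⟩ := kc_two (B := B)
        (show 2 ≤ kc B (bl B m p) a by omega)
      exact hv.noCCBB h hk hk' hne ha ha' hi hi' hie hai hai'

/-- one hit of every kind. -/
theorem ViolR.no4M (hv : ViolR B Q) (h : S31 B Q L m p q s j a b c)
    {k0 i0 c0 : ι} (hk : k0 ∈ bl B p q) (ak : a ∈ B k0) (hA : kc B (bl B p q) a ≤ 1)
    (hi : i0 ∈ bl B m p) (ai : a ∈ B i0) (hc0 : c0 ∈ bl B m q) (ac0 : a ∈ B c0) : False := by
  classical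
  obtain ⟨hmL, hpL, hqL⟩ := h.inL
  have h31 := h.t31
  -- the other two blocks {p, q}
  have hsub : ({k0} : Finset ι) ⊆ bl B p q := singleton_subset_iff.2 hk
  have h1 := card_sdiff_add_card_eq_card hsub
  rw [card_singleton, h31.cA] at h1
  obtain ⟨k1, h2, k2, h3, h12⟩ := one_lt_card.1 (show 1 < (bl B p q \ {k0}).card by omega)
  obtain ⟨h2, h2n⟩ := mem_sdiff.1 h2
  obtain ⟨h3, h3n⟩ := mem_sdiff.1 h3
  rw [mem_singleton] at h2n h3n
  rw [mem_bl] at hk h2 h3 hi hc0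
  have hmk : ∀ k, p ∈ B k → q ∈ B k → m ∉ B k := fun k a1 a2 a3 => h.no3 ⟨a3, a1, a2⟩
  have qi : q ∉ B i0 := fun h4 => h.no3 ⟨hi.1, hi.2, h4⟩
  have hfk := h.full hpL hqL h31.bc hk.1 hk.2 ak
  have ti : tro B Q k0 i0 = {m} := h.tro_eq hmL hpL hqL h31.ab h31.ac h31.bc hi.1 hi.2 ai hk.1
    hk.2 ak
  have tc : tro B Q k0 c0 = {m} := h.tro_eq hmL hqL hpL h31.ac h31.ab h31.bc.symm hc0.1 hc0.2 ac0
    hk.2 hk.1 ak
  have hjn : b ∈ tro B Q k0 j := by
    refine mem_tro.2 ⟨h.bL.2.1, h.bL.2.2, fun h1 => ?_⟩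
    have h2 : b ∈ B k0 ∩ Q := mem_inter.2 ⟨h1, h.bL.2.2⟩
    rw [hfk] at h2
    simp only [mem_insert, mem_singleton] at h2
    rcases h2 with h2 | h2 | h2
    · exact h.bL.1 (h2 ▸ hpL)
    · exact h.bL.1 (h2 ▸ hqL)
    · exact h.ab h2.symm
  have hmeet : ∀ k, p ∈ B k → (B k ∩ (B k0 ∩ Q)).Nonempty := fun k h4 =>
    ⟨p, mem_inter.2 ⟨h4, mem_inter.2 ⟨hk.1, h.LQ hpL⟩⟩⟩
  have hmeetq : ∀ k, q ∈ B k → (B k ∩ (B k0 ∩ Q)).Nonempty := fun k h4 =>
    ⟨q, mem_inter.2 ⟨h4, mem_inter.2 ⟨hk.2, h.LQ hqL⟩⟩⟩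
  have hm1 := hmk k1 h2.1 h2.2
  have hm2 := hmk k2 h3.1 h3.2
  have hm0 := hmk k0 hk.1 hk.2
  have n1 : i0 ≠ c0 := fun h4 => qi (h4 ▸ hc0.2)
  have hdis : ∀ k, m ∉ B k → Disjoint (tro B Q k0 k) {m} := by
    intro k h4
    rw [disjoint_singleton_right]
    exact fun h5 => h4 (mem_tro.1 h5).1
  have e1 := h.tro_le hpL hqL h31.bc h2.1 h2.2 hk.1 hk.2
  have e2 := h.tro_le hpL hqL h31.bc h3.1 h3.2 hk.1 hk.2
  have hcovk : ∀ k k', p ∈ B k → q ∈ B k → a ∈ B k' → B k0 ∩ Q ⊆ B k ∪ B k' := by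
    intro k k' a1 a2 a3
    rw [hfk]
    intro v hv'
    simp only [mem_insert, mem_singleton] at hv'
    rcases hv' with rfl | rfl | rfl
    · exact mem_union_left _ a1
    · exact mem_union_left _ a2
    · exact mem_union_right _ a3
  have hM : Mr2 B Q k0 k1 i0 k2 c0 j := by
    constructor
    · rw [hfk]
      exact card_eq_three.2 ⟨p, q, a, h31.bc, fun he => h.aL (he ▸ hpL),
        fun he => h.aL (he ▸ hqL), rfl⟩
    · exact ⟨fun he => hm1 (he ▸ hi.1), h12, fun he => hm1 (he ▸ hc0.1),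
        fun he => hm2 (he ▸ hi.1), n1, fun he => hm2 (he ▸ hc0.1)⟩
    · exact ⟨fun he => h2n he.symm, fun he => hm0 (he ▸ hi.1), fun he => h3n he.symm,
        fun he => hm0 (he ▸ hc0.1), h.ne_j hpL hk.1⟩
    · exact ⟨(h.ne_j hpL h2.1).symm, (h.ne_j hmL hi.1).symm, (h.ne_j hpL h3.1).symm,
        (h.ne_j hmL hc0.1).symm⟩
    · exact hcovk k1 i0 h2.1 h2.2 ai
    · exact hcovk k2 c0 h3.1 h3.2 ac0
    · rw [tc, singleton_subset_iff]
      exact hi.1
    · exact hmeet k1 h2.1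
    · exact hmeet i0 hi.2
    · exact hmeet k2 h3.1
    · exact hmeetq c0 hc0.2
    · rw [ti]
      exact hdis k1 hm1
    · rw [tc]
      exact hdis k2 hm2
    · rw [ti, card_singleton]
      omega
    · rw [tc, card_singleton]
      omega
    · exact ⟨a, mem_inter.2 ⟨h.aj.1, mem_inter.2 ⟨ak, h.aj.2⟩⟩⟩
    · exact ⟨b, hjn⟩
  have h5 := hv.mrg2v hM
  have := hv.neg
  linarith

/-- **no point of a triple has four hits.** -/
theorem ViolR.no400 (hv : ViolR B Q) (h : S31 B Q L m p q s j a b c)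
    (hone : ∀ v ∈ Q, v ∉ L → v ∉ B j → (Ez B L v).card ≤ 1)
    (hb : Ez B L b = ∅) (hc : Ez B L c = ∅) (h4 : 4 ≤ (Ez B L a).card) : False := by
  have h31 := h.t31
  have h5 := h31.Ez_le a
  have hA := hv.noAA h hb hc
  have h6 : 4 ≤ kc B (bl B p q) a + kc B (bl B m p) a + kc B (bl B m q) a +
      (if a ∈ B s then 1 else 0) := h4.trans h5
  rcases Nat.lt_or_ge 1 (kc B (bl B m q) a) with h7 | h7
  · exact hv.no4C h hone hb hc hA h7 h6
  rcases Nat.lt_or_ge 1 (kc B (bl B m p) a) with h8 | h8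
  · refine hv.no4C h.swap hone hb hc ?_ h8 ?_
    · have : bl B q p = bl B p q := by
        ext i
        rw [mem_bl, mem_bl]
        exact and_comm
      rw [this]
      exact hA
    · have : bl B q p = bl B p q := by
        ext i
        rw [mem_bl, mem_bl]
        exact and_comm
      rw [this]
      omega
  · have h9 : (if a ∈ B s then 1 else 0 : ℕ) ≤ 1 := by
      split_ifs <;> omega
    obtain ⟨k0, hk0, ak0⟩ := kc_pos (show 1 ≤ kc B (bl B p q) a by omega)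
    obtain ⟨i0, hi0, ai0⟩ := kc_pos (show 1 ≤ kc B (bl B m p) a by omega)
    obtain ⟨c0, hc0, ac0⟩ := kc_pos (show 1 ≤ kc B (bl B m q) a by omega)
    exact hv.no4M h hk0 ak0 hA hi0 ai0 hc0 ac0

/-- **three hits on blocks with `m`, the second point on the single block.** -/
theorem ViolR.no310 (hv : ViolR B Q) (h : S31 B Q L m p q s j a b c)
    (hA : kc B (bl B p q) a = 0) (hs : a ∉ B s) (hbs : b ∈ B s) (hb : (Ez B L b).card ≤ 1)
    (hc : Ez B L c = ∅) (h3 : 3 ≤ (Ez B L a).card) : False := by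
  classical
  have h31 := h.t31
  obtain ⟨hmL, hpL, hqL⟩ := h.inL
  obtain ⟨sm, sp, sq⟩ := h.s_mem
  have h5 : 3 ≤ kc B (bl B p q) a + kc B (bl B m p) a + kc B (bl B m q) a +
      (if a ∈ B s then 1 else 0) := h3.trans (h31.Ez_le a)
  rw [if_neg hs, hA] at h5
  have hbn : ∀ k, k ≠ s → (B k ∩ L).Nonempty → b ∉ B k := by
    intro k hks hk hbk
    have h6 := card_le_card (show ({k, s} : Finset ι) ⊆ Ez B L b by
      intro i hi
      rcases mem_insert.1 hi with rfl | hi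
      · exact mem_Ez.2 ⟨hbk, hk⟩
      · rw [mem_singleton.1 hi]
        exact mem_Ez.2 ⟨hbs, m, mem_inter.2 ⟨sm, hmL⟩⟩)
    rw [card_pair hks] at h6
    omega
  have hcn : ∀ k, (B k ∩ L).Nonempty → c ∉ B k := by
    intro k hk hck
    have h6 : k ∈ Ez B L c := mem_Ez.2 ⟨hck, hk⟩
    rw [hc] at h6
    exact notMem_empty _ h6
  have hB2 : kc B (bl B m p) a ≤ 2 := (card_filter_le _ _).trans h31.cB.le
  have hC2 : kc B (bl B m q) a ≤ 2 := (card_filter_le _ _).trans h31.cC.le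
  rcases Nat.lt_or_ge 1 (kc B (bl B m q) a) with h7 | h7
  · obtain ⟨k, hk, k', hk', hne, ha, ha'⟩ := kc_two (B := B) h7
    obtain ⟨i, hi, hai⟩ := kc_pos (show 1 ≤ kc B (bl B m p) a by omega)
    obtain ⟨e, he, hie⟩ : ∃ e ∈ bl B m p, i ≠ e := by
      obtain ⟨e, he, hne'⟩ := exists_mem_ne (show 1 < (bl B m p).card by rw [h31.cB]; norm_num) i
      exact ⟨e, he, hne'.symm⟩
    have he' := mem_bl.1 he
    have hes : e ≠ s := fun h8 => sp (h8 ▸ he'.2)
    have hem : (B e ∩ L).Nonempty := ⟨m, mem_inter.2 ⟨he'.1, hmL⟩⟩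
    exact hv.noCCB h hk hk' hne ha ha' hi hai he hie (hbn e hes hem) (hcn e hem)
  · obtain ⟨k, hk, k', hk', hne, ha, ha'⟩ := kc_two (B := B)
      (show 2 ≤ kc B (bl B m p) a by omega)
    obtain ⟨i, hi, hai⟩ := kc_pos (show 1 ≤ kc B (bl B m q) a by omega)
    obtain ⟨e, he, hie⟩ : ∃ e ∈ bl B m q, i ≠ e := by
      obtain ⟨e, he, hne'⟩ := exists_mem_ne (show 1 < (bl B m q).card by rw [h31.cC]; norm_num) i
      exact ⟨e, he, hne'.symm⟩
    have he' := mem_bl.1 he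
    have hes : e ≠ s := fun h8 => sq (h8 ▸ he'.2)
    have hem : (B e ∩ L).Nonempty := ⟨m, mem_inter.2 ⟨he'.1, hmL⟩⟩
    exact hv.noCCB h.swap hk hk' hne ha ha' hi hai he hie (hbn e hes hem) (hcn e hem)

/-- the situation from labels. -/
theorem Frm.s31 (h : Frm B Q T U F) (hv : ViolR B Q) (hL : L ∈ F) (hc3 : L.card = 3)
    (h1 : nt B L 1 = 1) (hdv : dv B Q L = -1) (hj : j ∈ T) {hT hW : List ℕ} {ct : ℕ → V}
    (hl : Lbl B Q L j hT hW ct) {s0 : ι} (hs0 : (B s0 ∩ L).card = 1) : ∃ m p q,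
      S31 B Q L m p q s0 j (ct 0) (ct 1) (ct 2) := by
  obtain ⟨hcm, hrho, hP, _⟩ := h.leaf31 hv hL hc3 h1
  have hLQ := h.FQ hL
  obtain ⟨m, p, q, s, h31⟩ := exists_t31 (hv.reg.mono hLQ) (hv.tr.mono hLQ) hc3 hcm hrho
  have hlen : ∀ a0 < 3, a0 < 3 + hW.length := fun a0 h0 => by omega
  have hs : s0 = s := by
    obtain ⟨v, hv'⟩ := card_pos.1 (show 0 < (B s0 ∩ L).card by omega)
    rcases h31.cov s0 ⟨v, hv'⟩ with h4 | h4 | h4 | h4
    · rw [mem_bl] at h4
      exfalso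
      have h5 := card_le_card (show ({p, q} : Finset V) ⊆ B s0 ∩ L by
        intro w hw
        rcases mem_insert.1 hw with rfl | hw
        · exact mem_inter.2 ⟨h4.1, by rw [h31.eq]; simp⟩
        · rw [mem_singleton.1 hw]; exact mem_inter.2 ⟨h4.2, by rw [h31.eq]; simp⟩)
      rw [card_pair h31.bc] at h5
      omega
    · rw [mem_bl] at h4
      exfalso
      have h5 := card_le_card (show ({m, p} : Finset V) ⊆ B s0 ∩ L by
        intro w hw
        rcases mem_insert.1 hw with rfl | hw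
        · exact mem_inter.2 ⟨h4.1, by rw [h31.eq]; simp⟩
        · rw [mem_singleton.1 hw]; exact mem_inter.2 ⟨h4.2, by rw [h31.eq]; simp⟩)
      rw [card_pair h31.ab] at h5
      omega
    · rw [mem_bl] at h4
      exfalso
      have h5 := card_le_card (show ({m, q} : Finset V) ⊆ B s0 ∩ L by
        intro w hw
        rcases mem_insert.1 hw with rfl | hw
        · exact mem_inter.2 ⟨h4.1, by rw [h31.eq]; simp⟩
        · rw [mem_singleton.1 hw]; exact mem_inter.2 ⟨h4.2, by rw [h31.eq]; simp⟩)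
      rw [card_pair h31.ac] at h5
      omega
    · exact h4
  refine ⟨m, p, q, ⟨hv.tr, hs ▸ h31, hLQ, ?_, ?_, ?_, ?_, ?_, ?_⟩⟩
  · ext v
    rw [hl.trip v]
    simp only [mem_insert, mem_singleton]
    constructor
    · rintro ⟨a0, ha0, rfl⟩
      rcases (by omega : a0 = 0 ∨ a0 = 1 ∨ a0 = 2) with rfl | rfl | rfl
      · exact Or.inl rfl
      · exact Or.inr (Or.inl rfl)
      · exact Or.inr (Or.inr rfl)
    · rintro (rfl | rfl | rfl)
      · exact ⟨0, by norm_num, rfl⟩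
      · exact ⟨1, by norm_num, rfl⟩
      · exact ⟨2, by norm_num, rfl⟩
  · intro v hvL hvj
    exact (h.T_out hj (mem_inter.2 ⟨hvj, hLQ hvL⟩)).2 L hL hvL
  · exact fun he => absurd (hl.inj 0 (hlen 0 (by norm_num)) 1 (hlen 1 (by norm_num)) he)
      (by norm_num)
  · exact fun he => absurd (hl.inj 0 (hlen 0 (by norm_num)) 2 (hlen 2 (by norm_num)) he)
      (by norm_num)
  · exact fun he => absurd (hl.inj 1 (hlen 1 (by norm_num)) 2 (hlen 2 (by norm_num)) he)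
      (by norm_num)
  · unfold dv at hdv
    omega

theorem Frm.exists_s1 (h : Frm B Q T U F) (hL : L ∈ F) (h1 : nt B L 1 = 1) :
    ∃ s0, (B s0 ∩ L).card = 1 := by
  have _ := h
  have _ := hL
  obtain ⟨s0, hs0⟩ := card_pos.1 (show 0 < (trs B L 1).card by unfold nt at h1; omega)
  exact ⟨s0, mem_trs.1 hs0⟩

/-- **`V400`**. -/
theorem Frm.v400h (h : Frm B Q T U F) (hv : ViolR B Q) : V400 B Q T U F := by
  intro L hL hc3 h1 hdv _ j hj ct hl
  obtain ⟨s0, hs0⟩ := h.exists_s1 hL h1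
  obtain ⟨m, p, q, hS⟩ := h.s31 hv hL hc3 h1 hdv hj hl hs0
  have hlen : ([1, 1, 1, 1, 1] : List ℕ).length = 5 := rfl
  have e0 := hl.hits 0 (by omega)
  have e1 := hl.hits 1 (by omega)
  have e2 := hl.hits 2 (by omega)
  have e0' : (Ez B L (ct 0)).card = 4 := e0
  have e1' : (Ez B L (ct 1)).card = 0 := e1
  have e2' : (Ez B L (ct 2)).card = 0 := e2
  refine hv.no400 hS ?_ (card_eq_zero.1 e1') (card_eq_zero.1 e2') (by omega)
  intro v hvQ hvL hvj
  rcases (Ez B L v).eq_empty_or_nonempty with h2 | h2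
  · rw [h2, card_empty]
    norm_num
  · obtain ⟨a0, ha0, rfl⟩ := hl.all v hvQ hvL h2
    have h3 : 3 ≤ a0 := by
      by_contra hcon
      have h4 : ct a0 ∈ B j ∩ Q := (hl.trip _).2 ⟨a0, by omega, rfl⟩
      exact hvj (mem_inter.1 h4).1
    have h5 := hl.hits a0 ha0
    rw [h5]
    rw [hlen] at ha0
    rcases (by omega : a0 = 3 ∨ a0 = 4 ∨ a0 = 5 ∨ a0 = 6 ∨ a0 = 7) with
      rfl | rfl | rfl | rfl | rfl <;> simp

/-- **`V310`**. -/
theorem Frm.v310h (h : Frm B Q T U F) (hv : ViolR B Q) : V310 B Q T U F := by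
  intro L hL hc3 h1 hdv _ j hj ct hl s0 hs0 hb hk
  obtain ⟨m, p, q, hS⟩ := h.s31 hv hL hc3 h1 hdv hj hl hs0
  have hlen : ([1, 1, 1, 1, 1] : List ℕ).length = 5 := rfl
  have e0 := hl.hits 0 (by omega)
  have e1 := hl.hits 1 (by omega)
  have e2 := hl.hits 2 (by omega)
  have e0' : (Ez B L (ct 0)).card = 3 := e0
  have e1' : (Ez B L (ct 1)).card = 1 := e1
  have e2' : (Ez B L (ct 2)).card = 0 := e2
  obtain ⟨hmL, hpL, hqL⟩ := hS.inL
  obtain ⟨sm, _, _⟩ := hS.s_mem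
  refine hv.no310 hS ?_ ?_ hb (by omega) (card_eq_zero.1 e2') (by omega)
  · refine kc_of fun k hk1 hak => ?_
    rw [mem_bl] at hk1
    have h2 := (hk k hak ⟨p, mem_inter.2 ⟨hk1.1, hpL⟩⟩).2
    have h3 : m ∈ B k := h2 (mem_inter.2 ⟨sm, hmL⟩)
    exact hS.no3 ⟨h3, hk1.1, hk1.2⟩
  · intro has
    have h2 := (hk s0 has ⟨m, mem_inter.2 ⟨sm, hmL⟩⟩).1
    omega

end Pool.Agent.Hyp6
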