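import Pool.Agent.Hyp6.L3P8h
import Pool.Agent.Hyp6.L3G4v

/-!
# HYP6 L3P8i: the row (3;1) with four hits, without hypotheses

`StgR.x4h`: `X4`. `StgR.row31'`: a triple with four hits on a leaf of type (3;1) which is its own class
has at most three hits on the other leaves.
-/

set_option autoImplicit false

namespace Pool.Agent.Hyp6

open Finset Pool.Agent.Hyp5 Rt

universe u v

variable {V : Type v} [DecidableEq V] {ι : Type u} [Fintype ι] [DecidableEq ι] {B : ι → Finset V}

variable {Q U : Finset V} {T : Finset ι} {F : Finset (Finset V)}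
  {P : Finset (Finset (Finset V))} {a : V → Finset (Finset V) → ℕ} {L : Finset V} {j : ι}

/-- **`X4`**. -/
theorem StgR.x4h (s : StgR B Q T U F P a) : X4 B Q T U F P :=
  s.x4_of (s.frm.g4v s.viol) (s.frm.v400h s.viol) (s.frm.v310h s.viol)

/-- **at most three hits elsewhere**. -/
theorem StgR.row31' (s : StgR B Q T U F P a) (hL : {L} ∈ P) (hj : j ∈ T) (hc3 : L.card = 3)
    (h1 : nt B L 1 = 1) (hdv : dv B Q L = -1) (hg : hit B U L ≤ 2) (h4 : 4 ≤ jh B Q j L) :
    ∑ C ∈ F.erase L, jh B Q j C ≤ 3 :=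
  s.row31 (s.frm.g4v s.viol) (s.frm.v400h s.viol) (s.frm.v310h s.viol) hL hj hc3 h1 hdv hg h4

end Pool.Agent.Hyp6
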