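import Pool.Agent.Hyp6.L3P8e

/-!
# HYP6 L3P9: four hits on a leaf of type (3;1) and no other hits

`Cn31.two0`: two points of a triple with full hits on a leaf of type (3;1), four hits in all: the triple
has no hits on the other leaves. `StgR.no31`: a triple with four hits on a leaf of type (3;1) which is
its own class has no hit on another leaf.
-/

set_option autoImplicit false

namespace Pool.Agent.Hyp6

open Finset Pool.Agent.Hyp5 Rt

universe u v

/-- two points with full hits: no hits elsewhere. -/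
theorem Cn31.two0 {V : Type v} {α β γ σ n : V → ℕ} {o : V → Prop} {x y z : V}
    (h1 : Cn31 α β γ σ n o x y z) (h2 : Cn31 α β γ σ n o y z x) (h3 : Cn31 α β γ σ n o z x y)
    (h4 : Cn31 α β γ σ n o y x z) (h5 : Cn31 α β γ σ n o z y x) (h6 : Cn31 α β γ σ n o x z y)
    (hx : 1 ≤ α x + β x + γ x) (hy : 1 ≤ α y + β y + γ y) : n x + n y + n z = 0 := by
  have e1 := h2.f1 hx
  have e2 := h3.f1 hy
  by_cases hz : o z
  · exfalso
    have hoy : o y := e1.2 hz
    have hox : o x := e2.1 hz
    have a1 := h1.pA hz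
    have a2 := h4.pA hz
    have a3 := h6.pA hoy
    have a4 := h3.pA hoy
    have b1 := h1.pB hz
    have b2 := h4.pB hz
    have b3 := h6.pB hoy
    have c1 := h1.pC hz
    have c2 := h4.pC hz
    have c3 := h6.pC hoy
    have s1 := h1.pS hz
    have s2 := h2.pS hox
    have s3 := h3.pS hoy
    have t := h1.tot
    have u1 := h1.sA
    have u2 := h1.sB
    have u3 := h1.sC
    have v1 := h1.s1
    have v2 := h2.s1
    have v3 := h3.s1
    clear h1 h2 h3 h4 h5 h6 e1 e2
    rcases Nat.lt_or_ge 0 (α x) with g | g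
    · have := a1 g
      have := a3 g
      rcases Nat.lt_or_ge 0 (α y) with g' | g'
      · have := a2 g'
        omega
      · omega
    rcases Nat.lt_or_ge 0 (α y) with g' | g'
    · have := a2 g'
      omega
    rcases Nat.lt_or_ge 0 (α z) with g'' | g''
    · have := a4 g''
      omega
    rcases Nat.lt_or_ge 0 (β x) with k | k
    · have := b1 k
      have := b3 k
      rcases Nat.lt_or_ge 0 (β y) with k' | k'
      · have := b2 k'
        omega
      · omega
    · rcases Nat.lt_or_ge 0 (γ x) with k2 | k2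
      · have := c1 k2
        have := c3 k2
        rcases Nat.lt_or_ge 0 (γ y) with k' | k'
        · have := c2 k'
          omega
        · omega
      · omega
  · have hoy : ¬ o y := fun h => hz (e1.1 h)
    have hox : ¬ o x := fun h => hz (e2.2 h)
    have := h1.n0 hz
    have := h2.n0 hox
    have := h3.n0 hoy
    omega

variable {V : Type v} [DecidableEq V] {ι : Type u} [Fintype ι] {B : ι → Finset V}
  {Q U : Finset V} {T : Finset ι} {F : Finset (Finset V)} {j : ι} {L : Finset V}
  {m p q x y z : V} {s : ι}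

/-- **four hits on a leaf of type (3;1)**: if two points of the triple have two hits, or a point has two
hits and the others one, then the triple has no hit on another leaf. -/
theorem MTN.full31 [DecidableEq ι] (hm : MTN B Q T U F) (hv : ViolR B Q) (hj : j ∈ T) (hL : L ∈ F)
    (hfree : ∀ M ∈ F, M ≠ L → ∀ Z ⊆ U, Z.card ≤ (nbF (gr B) (F \ {L, M}) Z).card)
    (h31 : T31 B L m p q s) (h1 : nt B L 1 ≤ 1) (h4 : hit B (B j ∩ Q) L = 4)
    (hjQ : B j ∩ Q = {x, y, z}) (hx : 2 ≤ (Ez B L x).card)
    (hyz : 2 ≤ (Ez B L y).card ∨ (1 ≤ (Ez B L y).card ∧ 1 ≤ (Ez B L z).card)) :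
    ∑ C ∈ F.erase L, jh B Q j C = 0 := by
  have hf := hm.toMTE.frm
  obtain ⟨hxy, hxz, hyz'⟩ : x ≠ y ∧ x ≠ z ∧ y ≠ z := by
    obtain ⟨a, b, c, h1, h2, h3, h4⟩ := hf.three_points hj
    have h5 : ({x, y, z} : Finset V).card = 3 := by
      rw [← hjQ, h1]
      exact card_eq_three.2 ⟨a, b, c, h2, h3, h4, rfl⟩
    refine ⟨?_, ?_, ?_⟩
    · rintro rfl
      have h6 := card_le_two (a := x) (b := z)
      simp only [mem_insert, true_or, insert_eq_of_mem] at h5
      omega
    · rintro rfl
      have h6 := card_le_two (a := y) (b := x)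
      simp only [mem_insert, mem_singleton, or_true, insert_eq_of_mem] at h5
      omega
    · rintro rfl
      have h6 := card_le_two (a := x) (b := y)
      simp only [mem_singleton, insert_eq_of_mem] at h5
      omega
  have e1 : B j ∩ Q = {y, z, x} := by
    rw [hjQ]; ext v; simp only [mem_insert, mem_singleton]; tauto
  have e2 : B j ∩ Q = {z, x, y} := by
    rw [hjQ]; ext v; simp only [mem_insert, mem_singleton]; tauto
  have e3 : B j ∩ Q = {y, x, z} := by
    rw [hjQ]; ext v; simp only [mem_insert, mem_singleton]; tauto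
  have e4 : B j ∩ Q = {z, y, x} := by
    rw [hjQ]; ext v; simp only [mem_insert, mem_singleton]; tauto
  have e5 : B j ∩ Q = {x, z, y} := by
    rw [hjQ]; ext v; simp only [mem_insert, mem_singleton]; tauto
  have c1 := hm.cn31 hv hj hL hfree h31 h1 h4 hjQ
  have c2 := hm.cn31 hv hj hL hfree h31 h1 h4 e1
  have c3 := hm.cn31 hv hj hL hfree h31 h1 h4 e2
  have c4 := hm.cn31 hv hj hL hfree h31 h1 h4 e3
  have c5 := hm.cn31 hv hj hL hfree h31 h1 h4 e4
  have c6 := hm.cn31 hv hj hL hfree h31 h1 h4 e5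
  have hsum : ∑ C ∈ F.erase L, jh B Q j C = (∑ C ∈ F.erase L, uh B x C) +
      (∑ C ∈ F.erase L, uh B y C) + (∑ C ∈ F.erase L, uh B z C) := by
    rw [← sum_add_distrib, ← sum_add_distrib]
    refine sum_congr rfl fun C _ => ?_
    rw [jh_sum, hjQ, sum_insert (by simp [hxy, hxz]), sum_insert (by simp [hyz']), sum_singleton,
      add_assoc]
  rw [hsum]
  have lx := h31.Ez_le x
  have ly := h31.Ez_le y
  have lz := h31.Ez_le z
  have fx : 1 ≤ kc B (bl B p q) x + kc B (bl B m p) x + kc B (bl B m q) x := by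
    unfold kc
    have := c1.s1
    split_ifs at lx <;> omega
  by_cases fy : 1 ≤ kc B (bl B p q) y + kc B (bl B m p) y + kc B (bl B m q) y
  · have h7 := Cn31.two0 c1 c2 c3 c4 c5 c6 fx fy
    exact h7
  by_cases fz : 1 ≤ kc B (bl B p q) z + kc B (bl B m p) z + kc B (bl B m q) z
  · have := Cn31.two0 c3 c1 c2 c6 c4 c5 fz fx
    omega
  exfalso
  unfold kc at fy fz
  rcases hyz with hy | ⟨hy, hz⟩
  · split_ifs at ly <;> omega
  · have hys : y ∈ B s := by
      by_contra h6
      rw [if_neg h6] at ly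
      omega
    have hzs : z ∈ B s := by
      by_contra h6
      rw [if_neg h6] at lz
      omega
    have h7 := c2.nS (by simp [hys]) (by simp [hzs])
    omega

/-- the vector (3, 1, 0) does not occur on a leaf of type (3;1). -/
def V31 (B : ι → Finset V) (Q : Finset V) (T : Finset ι) (U : Finset V)
    (F : Finset (Finset V)) : Prop :=
  ∀ L ∈ F, L.card = 3 → nt B L 1 = 1 → dv B Q L = -1 → hit B U L ≤ 2 → ∀ j ∈ T, ∀ ct,
    Lbl B Q L j [3, 1, 0] [1, 1, 1, 1, 1] ct → False

/-- **a triple with four hits on a leaf of type (3;1)** which is its own class has no hit on another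
leaf. -/
theorem StgR.no31 [DecidableEq ι] {P : Finset (Finset (Finset V))} {a : V → Finset (Finset V) → ℕ}
    (s : StgR B Q T U F P a) (g4 : G4v B Q T U F) (v4 : V400 B Q T U F)
    (v3 : V31 B Q T U F) (hL : {L} ∈ P) (hj : j ∈ T) (hc3 : L.card = 3) (h1 : nt B L 1 = 1)
    (hdv : dv B Q L = -1) (hg : hit B U L ≤ 2) (h4 : 4 ≤ jh B Q j L) :
    ∑ C ∈ F.erase L, jh B Q j C = 0 := by
  have hLF := s.toStg.leafF hL
  have hfree := s.toStg.free_own (s.toStg.own_par hL)
  obtain ⟨hT, hW, ct, hl, rfl, hvec⟩ := g4 L hLF hc3 h1 hdv hg j hj h4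
  have hsT := hl.sumT
  have hs4 : hit B (B j ∩ Q) L = 4 := by
    rw [← hsT]
    rcases hvec with rfl | rfl | rfl | rfl <;> rfl
  obtain ⟨hcm, hrho, _, _⟩ := s.frm.leaf31 s.viol hLF hc3 h1
  have hLQ := s.frm.FQ hLF
  obtain ⟨m, p, q, sb, h31⟩ := exists_t31 (s.viol.reg.mono hLQ) (s.viol.tr.mono hLQ) hc3 hcm hrho
  have hN : MTN B Q T U F := s.mtr.toMTQ.toMTN
  have hjQ : B j ∩ Q = {ct 0, ct 1, ct 2} := by
    ext v
    rw [hl.trip v]
    simp only [mem_insert, mem_singleton]
    constructor
    · rintro ⟨b, hb, rfl⟩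
      rcases (by omega : b = 0 ∨ b = 1 ∨ b = 2) with rfl | rfl | rfl <;> simp
    · rintro (h | h | h)
      · exact ⟨0, by norm_num, h.symm⟩
      · exact ⟨1, by norm_num, h.symm⟩
      · exact ⟨2, by norm_num, h.symm⟩
  have hlen : ([1, 1, 1, 1, 1] : List ℕ).length = 5 := rfl
  have e0 := hl.hits 0 (by omega)
  have e1 := hl.hits 1 (by omega)
  have e2 := hl.hits 2 (by omega)
  rcases hvec with rfl | rfl | rfl | rfl
  · exact (v4 L hLF hc3 h1 hdv hg j hj ct hl).elim
  · exact (v3 L hLF hc3 h1 hdv hg j hj ct hl).elim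
  · exact hN.full31 s.viol hj hLF hfree h31 (by omega) hs4 hjQ (by rw [e0]; decide)
      (Or.inl (by rw [e1]; decide))
  · exact hN.full31 s.viol hj hLF hfree h31 (by omega) hs4 hjQ (by rw [e0]; decide)
      (Or.inr ⟨by rw [e1]; decide, by rw [e2]; decide⟩)

end Pool.Agent.Hyp6
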