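import Mathlib
import Pool.Agent.Hyp6.L3Nd2

/-!
# HYP6 L3Pc: Mason's inequality for three flats, pencils of pairwise coplanar lines
-/

set_option autoImplicit false

namespace Pool.Agent.Hyp6.Sp

open Finset

section

variable {V : Type*} [DecidableEq V]

/-- flats. -/
structure Flt (n : Finset V → ℤ) (Vs F : Finset V) : Prop where
  sub : F ⊆ Vs
  cl : clo n Vs F ⊆ F

variable {n : Finset V → ℤ} {Vs : Finset V}

theorem Nul.flt_clo (h : Nul n) {A : Finset V} (hA : A ⊆ Vs) : Flt n Vs (clo n Vs A) where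
  sub := clo_subset
  cl := fun _ hv => h.clo_clo hA (mem_filter.1 hv).1 (mem_filter.1 hv).2

theorem Nul.flt_inter (h : Nul n) {F G : Finset V} (hF : Flt n Vs F) (hG : Flt n Vs G) :
    Flt n Vs (F ∩ G) where
  sub := inter_subset_left.trans hF.sub
  cl := fun _ hv => mem_inter.2 ⟨hF.cl (h.clo_mono inter_subset_left hv),
    hG.cl (h.clo_mono inter_subset_right hv)⟩

/-- a set between a flat and a set of the same rank. -/
theorem Nul.flt_eq (h : Nul n) {F X : Finset V} (hF : Flt n Vs F) (hFX : F ⊆ X) (hX : X ⊆ Vs)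
    (hr : rkn n X ≤ rkn n F) : X = F :=
  ((h.mem_clo hFX hX hr).trans hF.cl).antisymm hFX

theorem card_union3 (A B C : Finset V) :
    (A ∪ B ∪ C).card + (A ∩ B).card + (A ∩ C).card + (B ∩ C).card =
      A.card + B.card + C.card + (A ∩ B ∩ C).card := by
  have h1 := card_union_add_card_inter (A ∪ B) C
  have h2 := card_union_add_card_inter A B
  have h3 : (A ∪ B) ∩ C = (A ∩ C) ∪ (B ∩ C) := by
    ext x
    simp only [mem_inter, mem_union]
    tauto
  have h4 := card_union_add_card_inter (A ∩ C) (B ∩ C)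
  have h5 : (A ∩ C) ∩ (B ∩ C) = A ∩ B ∩ C := by
    ext x
    simp only [mem_inter]
    tauto
  rw [h3] at h1
  rw [h5] at h4
  omega

end

section

variable {V : Type*} [DecidableEq V] {α : Type*} [DecidableEq α]
variable {U : Finset α} {N : α → Finset V} {Vs : Finset V}

omit [DecidableEq α] in
/-- the nullity of a flat is the number of points inside. -/
theorem dfc_flt (hN : ∀ u ∈ U, N u ⊆ Vs) {F : Finset V}
    (hF : Flt (dfc U N) Vs F) : dfc U N F = (Uin U N F).card := by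
  refine le_antisymm ?_ ?_
  · obtain ⟨B, hB, h1⟩ := dfc_exists U N F
    have hsub : B.biUnion N ⊆ F := by
      intro C hC
      by_contra hCX
      have hCP : C ∈ Vs := by
        obtain ⟨u, hu, hC⟩ := mem_biUnion.1 hC
        exact hN u (hB hu) hC
      refine hCX (hF.cl (mem_filter.2 ⟨hCP, ?_⟩))
      have h2 := le_dfc (N := N) (D := insert C F) hB
      have h3 : (B.biUnion N \ insert C F) = (B.biUnion N \ F).erase C := by
        ext z
        simp only [mem_sdiff, mem_insert, mem_erase, not_or]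
        tauto
      have h4 := card_erase_add_one (mem_sdiff.2 ⟨hC, hCX⟩)
      rw [h3] at h2
      unfold rkn
      rw [card_insert_of_notMem hCX]
      push_cast
      omega
    have h2 : B ⊆ Uin U N F := fun u hu =>
      mem_filter.2 ⟨hB hu, (subset_biUnion_of_mem N hu).trans hsub⟩
    have h3 := card_le_card h2
    rw [h1]
    omega
  · have hsubU : Uin U N F ⊆ U := filter_subset _ _
    have h1 := le_dfc (N := N) (D := F) hsubU
    have h2 : (Uin U N F).biUnion N \ F = ∅ := by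
      rw [sdiff_eq_empty_iff_subset]
      intro C hC
      obtain ⟨u, hu, hC⟩ := mem_biUnion.1 hC
      exact (mem_filter.1 hu).2 hC
    rw [h2, card_empty] at h1
    push_cast at h1
    linarith

/-- **Mason's inequality** for three flats. -/
theorem mason3 (h : Nul (dfc U N)) (hN : ∀ u ∈ U, N u ⊆ Vs) {F1 F2 F3 : Finset V}
    (h1 : Flt (dfc U N) Vs F1) (h2 : Flt (dfc U N) Vs F2) (h3 : Flt (dfc U N) Vs F3) :
    rkn (dfc U N) (F1 ∪ F2 ∪ F3) + rkn (dfc U N) (F1 ∩ F2) + rkn (dfc U N) (F1 ∩ F3) +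
        rkn (dfc U N) (F2 ∩ F3) ≤
      rkn (dfc U N) F1 + rkn (dfc U N) F2 + rkn (dfc U N) F3 +
        rkn (dfc U N) (F1 ∩ F2 ∩ F3) := by
  have h12 := h.flt_inter h1 h2
  have h13 := h.flt_inter h1 h3
  have h23 := h.flt_inter h2 h3
  have h123 := h.flt_inter h12 h3
  have key : ∀ F G : Finset V, Uin U N (F ∩ G) = Uin U N F ∩ Uin U N G := by
    intro F G
    ext u
    simp only [Uin, mem_filter, mem_inter, subset_inter_iff]
    tauto
  have hc := card_union3 F1 F2 F3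
  have hu := card_union3 (Uin U N F1) (Uin U N F2) (Uin U N F3)
  rw [← key, ← key, ← key, ← key] at hu
  have hn : ((Uin U N F1 ∪ Uin U N F2 ∪ Uin U N F3).card : ℤ) ≤
      dfc U N (F1 ∪ F2 ∪ F3) := by
    have hsubU : Uin U N F1 ∪ Uin U N F2 ∪ Uin U N F3 ⊆ U :=
      union_subset (union_subset (filter_subset _ _) (filter_subset _ _)) (filter_subset _ _)
    have e1 := le_dfc (N := N) (D := F1 ∪ F2 ∪ F3) hsubU
    have e2 : (Uin U N F1 ∪ Uin U N F2 ∪ Uin U N F3).biUnion N \ (F1 ∪ F2 ∪ F3) = ∅ := by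
      rw [sdiff_eq_empty_iff_subset]
      intro C hC
      obtain ⟨u, hu, hC⟩ := mem_biUnion.1 hC
      rcases mem_union.1 hu with hu | hu
      · rcases mem_union.1 hu with hu | hu
        · exact mem_union_left _ (mem_union_left _ ((mem_filter.1 hu).2 hC))
        · exact mem_union_left _ (mem_union_right _ ((mem_filter.1 hu).2 hC))
      · exact mem_union_right _ ((mem_filter.1 hu).2 hC)
    rw [e2, card_empty] at e1
    push_cast at e1
    linarith
  unfold rkn
  rw [dfc_flt hN h1, dfc_flt hN h2, dfc_flt hN h3, dfc_flt hN h12, dfc_flt hN h13,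
    dfc_flt hN h23, dfc_flt hN h123]
  have hc' : ((F1 ∪ F2 ∪ F3).card : ℤ) + (F1 ∩ F2).card + (F1 ∩ F3).card + (F2 ∩ F3).card =
      F1.card + F2.card + F3.card + (F1 ∩ F2 ∩ F3).card := by exact_mod_cast hc
  have hu' : ((Uin U N F1 ∪ Uin U N F2 ∪ Uin U N F3).card : ℤ) + (Uin U N (F1 ∩ F2)).card +
      (Uin U N (F1 ∩ F3)).card + (Uin U N (F2 ∩ F3)).card =
      (Uin U N F1).card + (Uin U N F2).card + (Uin U N F3).card +
        (Uin U N (F1 ∩ F2 ∩ F3)).card := by exact_mod_cast hu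
  linarith

omit [DecidableEq α] in
/-- the intersection of two different planes through a line is the line. -/
theorem plane_inter (h : Nul (dfc U N)) {l1 l2 l3 : Finset V}
    (h1 : Flt (dfc U N) Vs l1) (h2 : Flt (dfc U N) Vs l2) (h3 : Flt (dfc U N) Vs l3)
    (r1 : rkn (dfc U N) l1 = 2)
    (r12 : rkn (dfc U N) (l1 ∪ l2) ≤ 3) (r13 : rkn (dfc U N) (l1 ∪ l3) ≤ 3)
    (r123 : 4 ≤ rkn (dfc U N) (l1 ∪ l2 ∪ l3)) :
    clo (dfc U N) Vs (l1 ∪ l2) ∩ clo (dfc U N) Vs (l1 ∪ l3) = l1 := by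
  have s12 : l1 ∪ l2 ⊆ Vs := union_subset h1.sub h2.sub
  have s13 : l1 ∪ l3 ⊆ Vs := union_subset h1.sub h3.sub
  have f12 := h.flt_clo s12
  have f13 := h.flt_clo s13
  have f := h.flt_inter f12 f13
  have hl : l1 ⊆ clo (dfc U N) Vs (l1 ∪ l2) ∩ clo (dfc U N) Vs (l1 ∪ l3) :=
    subset_inter (subset_union_left.trans (subset_clo s12))
      (subset_union_left.trans (subset_clo s13))
  have e12 := h.rk_clo s12
  have e13 := h.rk_clo s13
  refine h.flt_eq h1 hl f.sub ?_
  rw [r1]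
  by_contra hcon
  have h4 : rkn (dfc U N) (clo (dfc U N) Vs (l1 ∪ l2)) ≤
      rkn (dfc U N) (clo (dfc U N) Vs (l1 ∪ l2) ∩ clo (dfc U N) Vs (l1 ∪ l3)) := by
    rw [e12]
    omega
  have h5 := h.flt_eq f inter_subset_left f12.sub h4
  have h6 : clo (dfc U N) Vs (l1 ∪ l2) ⊆ clo (dfc U N) Vs (l1 ∪ l3) := by
    rw [h5]
    exact inter_subset_right
  have h7 : l1 ∪ l2 ∪ l3 ⊆ clo (dfc U N) Vs (l1 ∪ l3) :=
    union_subset ((subset_clo s12).trans h6) (subset_union_right.trans (subset_clo s13))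
  have h8 := h.rk_mono h7
  omega

/-- **pencils**: three pairwise coplanar lines which are not in one plane have a common node. -/
theorem pencil (h : Nul (dfc U N)) (hN : ∀ u ∈ U, N u ⊆ Vs) {l1 l2 l3 : Finset V}
    (h1 : Flt (dfc U N) Vs l1) (h2 : Flt (dfc U N) Vs l2) (h3 : Flt (dfc U N) Vs l3)
    (r1 : rkn (dfc U N) l1 = 2) (r2 : rkn (dfc U N) l2 = 2) (r3 : rkn (dfc U N) l3 = 2)
    (r12 : rkn (dfc U N) (l1 ∪ l2) ≤ 3) (r13 : rkn (dfc U N) (l1 ∪ l3) ≤ 3)
    (r23 : rkn (dfc U N) (l2 ∪ l3) ≤ 3) (r123 : 4 ≤ rkn (dfc U N) (l1 ∪ l2 ∪ l3)) :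
    (l1 ∩ l2 ∩ l3).Nonempty := by
  have p1 := plane_inter h h1 h2 h3 r1 r12 r13 r123
  have p2 := plane_inter h h2 h1 h3 r2 (by rwa [union_comm]) r23
    (by rwa [union_comm l2 l1])
  have p3 := plane_inter h h3 h1 h2 r3 (by rwa [union_comm]) (by rwa [union_comm])
    (by rwa [union_comm l3 l1, union_right_comm])
  have s12 : l1 ∪ l2 ⊆ Vs := union_subset h1.sub h2.sub
  have s13 : l1 ∪ l3 ⊆ Vs := union_subset h1.sub h3.sub
  have s23 : l2 ∪ l3 ⊆ Vs := union_subset h2.sub h3.sub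
  have m := mason3 h hN (h.flt_clo s12) (h.flt_clo s13) (h.flt_clo s23)
  rw [union_comm l2 l1] at p2
  rw [union_comm l3 l1, union_comm l3 l2] at p3
  have e12 := h.rk_clo s12
  have e13 := h.rk_clo s13
  have e23 := h.rk_clo s23
  have hsub : l1 ∪ l2 ∪ l3 ⊆ clo (dfc U N) Vs (l1 ∪ l2) ∪ clo (dfc U N) Vs (l1 ∪ l3) ∪
      clo (dfc U N) Vs (l2 ∪ l3) := by
    refine union_subset ?_ ?_
    · exact (subset_clo s12).trans (subset_union_left.trans subset_union_left)
    · exact (subset_union_right.trans (subset_clo s23)).trans subset_union_right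
  have h4 := h.rk_mono hsub
  rw [p1, p2, p3] at m
  have h5 : l1 ∩ clo (dfc U N) Vs (l2 ∪ l3) ⊆ l1 ∩ l2 ∩ l3 := by
    intro x hx
    obtain ⟨hx1, hx2⟩ := mem_inter.1 hx
    have hx12 : x ∈ clo (dfc U N) Vs (l1 ∪ l2) := subset_clo s12 (mem_union_left _ hx1)
    have hx13 : x ∈ clo (dfc U N) Vs (l1 ∪ l3) := subset_clo s13 (mem_union_left _ hx1)
    have hxl2 : x ∈ l2 := by
      rw [← p2]
      exact mem_inter.2 ⟨hx12, hx2⟩
    have hxl3 : x ∈ l3 := by
      rw [← p3]
      exact mem_inter.2 ⟨hx13, hx2⟩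
    exact mem_inter.2 ⟨mem_inter.2 ⟨hx1, hxl2⟩, hxl3⟩
  have h6 := h.rk_mono h5
  rw [nonempty_iff_ne_empty]
  intro h0
  rw [h0] at h6
  have h7 : rkn (dfc U N) (∅ : Finset V) = 0 := by
    unfold rkn
    rw [h.empty, card_empty]
    norm_num
  rw [h7] at h6
  rw [e12, e13, e23] at m
  linarith

/-- a family of pairwise coplanar lines which are not all in one plane passes through one node. -/
theorem pencil_family (h : Nul (dfc U N)) (hN : ∀ u ∈ U, N u ⊆ Vs) {τ : Type*} {I : Finset τ}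
    {l : τ → Finset V} (hfl : ∀ T ∈ I, Flt (dfc U N) Vs (l T))
    (hrk : ∀ T ∈ I, rkn (dfc U N) (l T) = 2)
    (hone : ∀ T ∈ I, ∀ T' ∈ I, T ≠ T' → (l T ∩ l T').card ≤ 1)
    (hcop : ∀ T ∈ I, ∀ T' ∈ I, rkn (dfc U N) (l T ∪ l T') ≤ 3) {T1 T2 T3 : τ}
    (h1 : T1 ∈ I) (h2 : T2 ∈ I) (h3 : T3 ∈ I)
    (r123 : 4 ≤ rkn (dfc U N) (l T1 ∪ l T2 ∪ l T3)) : ∃ x, ∀ T ∈ I, x ∈ l T := by
  have c12 := hcop T1 h1 T2 h2
  have c13 := hcop T1 h1 T3 h3
  have c23 := hcop T2 h2 T3 h3
  obtain ⟨x, hx⟩ := pencil h hN (hfl T1 h1) (hfl T2 h2) (hfl T3 h3) (hrk T1 h1) (hrk T2 h2)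
    (hrk T3 h3) c12 c13 c23 r123
  obtain ⟨hx12, hx3⟩ := mem_inter.1 hx
  obtain ⟨hx1, hx2⟩ := mem_inter.1 hx12
  refine ⟨x, fun T hT => ?_⟩
  -- the three lines are different
  have n12 : T1 ≠ T2 := by
    rintro rfl
    rw [union_self] at r123
    omega
  have n13 : T1 ≠ T3 := by
    rintro rfl
    rw [union_right_comm, union_self] at r123
    omega
  have n23 : T2 ≠ T3 := by
    rintro rfl
    rw [union_assoc, union_self] at r123
    omega
  by_contra hxT
  have key : ∀ A ∈ I, ∀ A' ∈ I, A ≠ A' → x ∈ l A → x ∈ l A' →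
      l T ⊆ clo (dfc U N) Vs (l A ∪ l A') := by
    intro A hA A' hA' hne hxA hxA'
    have hsing : l A ∩ l A' = {x} := by
      refine (eq_of_subset_of_card_le ?_ ?_).symm
      · rw [singleton_subset_iff]
        exact mem_inter.2 ⟨hxA, hxA'⟩
      · rw [card_singleton]
        exact hone A hA A' hA' hne
    have hr : rkn (dfc U N) (l A ∪ l A' ∪ l T) ≤ 3 := by
      by_contra hcon
      obtain ⟨y, hy⟩ := pencil h hN (hfl A hA) (hfl A' hA') (hfl T hT) (hrk A hA) (hrk A' hA')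
        (hrk T hT) (hcop A hA A' hA') (hcop A hA T hT) (hcop A' hA' T hT) (by omega)
      obtain ⟨hy1, hy2⟩ := mem_inter.1 hy
      rw [hsing, mem_singleton] at hy1
      exact hxT (hy1 ▸ hy2)
    have h3 : 3 ≤ rkn (dfc U N) (l A ∪ l A') := by
      by_contra hcon
      have e1 := h.flt_eq (hfl A hA) (subset_union_left : l A ⊆ l A ∪ l A')
        (union_subset (hfl A hA).sub (hfl A' hA').sub) (by rw [hrk A hA]; omega)
      have e2 := h.flt_eq (hfl A' hA') (subset_union_right : l A' ⊆ l A ∪ l A')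
        (union_subset (hfl A hA).sub (hfl A' hA').sub) (by rw [hrk A' hA']; omega)
      have e3 : l A = l A' := e1.symm.trans e2
      rw [← e3, inter_self] at hsing
      have e4 := hrk A hA
      rw [hsing] at e4
      have e5 := h.nonneg {x}
      unfold rkn at e4
      rw [card_singleton] at e4
      push_cast at e4
      omega
    refine Subset.trans subset_union_right (h.mem_clo (subset_union_left :
      l A ∪ l A' ⊆ l A ∪ l A' ∪ l T) (union_subset (union_subset (hfl A hA).sub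
        (hfl A' hA').sub) (hfl T hT).sub) (by omega))
  have k12 := key T1 h1 T2 h2 n12 hx1 hx2
  have k13 := key T1 h1 T3 h3 n13 hx1 hx3
  have p1 := plane_inter h (hfl T1 h1) (hfl T2 h2) (hfl T3 h3) (hrk T1 h1) c12 c13 r123
  have hsub : l T ⊆ l T1 := by
    rw [← p1]
    exact subset_inter k12 k13
  have e1 := h.flt_eq (hfl T hT) hsub (hfl T1 h1).sub (by rw [hrk T1 h1, hrk T hT])
  exact hxT (e1 ▸ hx1)

end

section

variable {L : Type*} [DecidableEq L] {α : Type*} [DecidableEq α] {τ : Type*} [DecidableEq τ]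
variable {F : Finset L} {U : Finset α} {N : α → Finset L} {Ts : Finset τ} {NT : τ → Finset L}
  {P : Finset (Finset L)}

/-- pencils in the matroid of the classes. -/
theorem MinP.pencil (hg : Gd F F U N Ts NT) (h : MinP F F U N Ts NT P) {I : Finset τ}
    (hI : I ⊆ T2 U N Ts NT P)
    (hcop : ∀ T ∈ I, ∀ T' ∈ I, rkn (nP U N P) (ln U N NT P T ∪ ln U N NT P T') ≤ 3)
    {T1 T2' T3 : τ} (h1 : T1 ∈ I) (h2 : T2' ∈ I) (h3 : T3 ∈ I)
    (r123 : 4 ≤ rkn (nP U N P) (ln U N NT P T1 ∪ ln U N NT P T2' ∪ ln U N NT P T3)) :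
    ∃ C, ∀ T ∈ I, C ∈ ln U N NT P T := by
  have hn := h.nul hg
  refine pencil_family hn (fun u _ => met_subset) (fun T _ => hn.flt_clo met_subset)
    (fun T hT => ?_) (fun T hT T' hT' hne => (h.lin hg).one T (hI hT) T' (hI hT') hne)
    hcop h1 h2 h3 r123
  have e1 : rkn (nP U N P) (ln U N NT P T) = 2 := by
    unfold ln
    rw [hn.rk_clo met_subset]
    exact (mem_filter.1 (hI hT)).2
  exact e1

/-- at most three crossing triples in a plane. -/
theorem MinP.plane (hg : Gd F F U N Ts NT) (h : MinP F F U N Ts NT P)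
    {A : Finset (Finset L)} (hA : A ⊆ P) (h2 : 2 ≤ A.card) (hr : rkn (nP U N P) A ≤ 3)
    {I : Finset τ} (hI : I ⊆ Tx Ts NT P)
    (hIA : ∀ T ∈ I, met P (NT T) ⊆ clo (nP U N P) P A) : I.card ≤ 3 := by
  have h1 := h.sparse_clo hg hA h2
  have h3 : I ⊆ KK Ts NT P (clo (nP U N P) P A) := by
    intro T hT
    refine mem_filter.2 ⟨hI hT, (h.ptn.sub_met (hg.NTs T (mem_filter.1 (hI hT)).1)
      clo_subset).2 (hIA T hT)⟩
  have h4 := card_le_card h3
  omega

end

end Pool.Agent.Hyp6.Sp
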