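import Pool.Agent.Hyp6.Gdw2

/-!
# HYP6 L3Q1: labels in groups from a list of points

`Lgg B Q Z hs tm ct tb`: labels `ct` for all contact points of `Z` and further points, with the exact
numbers of hits `hs`, and full blocks `tb` whose points are the labels of the masks `tm`. `Lgg.gx`: the
context `Gx`. `Lgg.of_list`: the labels from a list of points.
-/

set_option autoImplicit false

namespace Pool.Agent.Hyp6

open Finset Pool.Agent.Hyp5 Gdx

universe u v

variable {V : Type v} [DecidableEq V] {ι : Type u} [Fintype ι] {B : ι → Finset V}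

/-- the instance with the block list `zm`, the exact numbers of hits `hs` and the triples `tm`. -/
def Pgr (zn r d0 pz : ℕ) (zm hs tm : List ℕ) : Gp :=
  ⟨zm.length, hs.length, zn, r, d0, pz, zm, hs, hs, tm⟩

/-- labels in groups. -/
structure Lgg (B : ι → Finset V) (Q Z : Finset V) (hs tm : List ℕ) (ct : ℕ → V) (tb : ℕ → ι) :
    Prop where
  memQ : ∀ a < hs.length, ct a ∈ Q ∧ ct a ∉ Z
  inj : ∀ a < hs.length, ∀ b < hs.length, ct a = ct b → a = b
  all : ∀ v ∈ Q, v ∉ Z → (Ez B Z v).Nonempty → ∃ a < hs.length, ct a = v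
  hits : ∀ a < hs.length, (Ez B Z (ct a)).card = hs.getD a 0
  trip : ∀ k < tm.length, B (tb k) ∩ Q = ptm ct hs.length (tm.getD k 0)
  tb3 : ∀ k < tm.length, (B (tb k) ∩ Q).card = 3
  tb_inj : ∀ k < tm.length, ∀ l < tm.length, tb k = tb l → k = l

/-- **the context from the labels and the block list**. -/
theorem Lgg.gx {Q Z : Finset V} {hs tm : List ℕ} {ct : ℕ → V} {tb : ℕ → ι} {zn r d0 pz : ℕ}
    {zm : List ℕ} {bl : ℕ → ι} {zt : ℕ → V} (hl : Lgg B Q Z hs tm ct tb)
    (hb : Blk B Z zn zm bl zt) (hv : ViolR B Q) (hZQ : Z ⊆ Q) (hZne : Z.Nonempty)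
    (hM : hs.length ≤ 32) (hr : rho B Z = r) (hd : (d0 : ℤ) ≤ dv B Q Z + 10)
    (hp : (pz : ℤ) = Pv B Z + 10) : Gdx.Gx B Q Z (Pgr zn r d0 pz zm hs tm) bl ct zt tb := by
  classical
  refine ⟨hv, hM, hZQ, hZne, hb.inj, fun i => ⟨hb.all i, ?_⟩, fun z hz => (hb.mem _).2 ⟨z, hz, rfl⟩,
    hb.injz, fun v hv' => (hb.mem v).1 hv', fun b hb' z hz => (hb.tr b hb' z hz).symm, hl.inj,
    fun a ha => (hl.memQ a ha).1, fun a ha => (hl.memQ a ha).2, fun b hb' v hvb hvQ => ?_,
    fun a ha => ?_, fun a ha => ?_, hl.trip, hl.tb3, hl.tb_inj, hr, hd, hp⟩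
  · rintro ⟨b, hb', rfl⟩
    exact hb.touch b hb'
  · by_cases hvZ : v ∈ Z
    · exact Or.inl hvZ
    · exact Or.inr (hl.all v hvQ hvZ ⟨bl b, mem_Ez.2 ⟨hvb, hb.touch b hb'⟩⟩)
  · show hs.getD a 0 ≤ hts B zm.length bl (ct a)
    rw [hb.hts_eq, hl.hits a ha]
  · show hts B zm.length bl (ct a) ≤ hs.getD a 0
    rw [hb.hts_eq, hl.hits a ha]

/-- the labels from a list of points; the triple `k` are the points at the places of the mask. -/
theorem Lgg.of_list {Q Z : Finset V} {hs tm : List ℕ} {tb : ℕ → ι} {l : List V} {v0 : V}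
    (hnd : l.Nodup) (hQ : ∀ v ∈ l, v ∈ Q ∧ v ∉ Z)
    (hall : ∀ v ∈ Q, v ∉ Z → (Ez B Z v).Nonempty → v ∈ l)
    (hhs : l.map (fun v => (Ez B Z v).card) = hs)
    (htr : ∀ k < tm.length, B (tb k) ∩ Q = ptm (fun a => l.getD a v0) hs.length (tm.getD k 0))
    (tb3 : ∀ k < tm.length, (B (tb k) ∩ Q).card = 3)
    (tb_inj : ∀ k < tm.length, ∀ l < tm.length, tb k = tb l → k = l) :
    Lgg B Q Z hs tm (fun a => l.getD a v0) tb := by
  have hlen : l.length = hs.length := by rw [← hhs, List.length_map]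
  refine ⟨fun a ha => ?_, fun a ha b hb he => ?_, fun v h1 h2 h3 => ?_, fun a ha => ?_, htr, tb3,
    tb_inj⟩
  · rw [← hlen] at ha
    simp only [List.getD_eq_getElem _ _ ha]
    exact hQ _ (List.getElem_mem ha)
  · rw [← hlen] at ha hb
    simp only [List.getD_eq_getElem _ _ ha, List.getD_eq_getElem _ _ hb] at he
    exact (List.Nodup.getElem_inj_iff hnd).1 he
  · obtain ⟨a, ha, he⟩ := List.getElem_of_mem (hall v h1 h2 h3)
    refine ⟨a, by rw [← hlen]; exact ha, ?_⟩
    simp only [List.getD_eq_getElem _ _ ha]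
    exact he
  · rw [← hlen] at ha
    simp only [List.getD_eq_getElem _ _ ha]
    have h1 : a < hs.length := by rw [← hlen]; exact ha
    rw [List.getD_eq_getElem _ _ h1]
    subst hhs
    rw [List.getElem_map]

/-- three points sorted by a function. -/
theorem exists_three {T : Finset V} (hT : T.card = 3) (f : V → ℕ) :
    ∃ a b c, T = {a, b, c} ∧ a ≠ b ∧ a ≠ c ∧ b ≠ c ∧ f b ≤ f a ∧ f c ≤ f b := by
  obtain ⟨x, y, z, hxy, hxz, hyz, rfl⟩ := card_eq_three.1 hT
  rcases le_total (f x) (f y) with h1 | h1 <;> rcases le_total (f y) (f z) with h2 | h2 <;>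
    rcases le_total (f x) (f z) with h3 | h3
  · exact ⟨z, y, x, by ext v; simp only [mem_insert, mem_singleton]; tauto, hyz.symm, hxz.symm,
      hxy.symm, h2, h1⟩
  · exact ⟨z, y, x, by ext v; simp only [mem_insert, mem_singleton]; tauto, hyz.symm, hxz.symm,
      hxy.symm, h2, h1⟩
  · exact ⟨y, z, x, by ext v; simp only [mem_insert, mem_singleton]; tauto, hyz, hxy.symm,
      hxz.symm, h2, h3⟩
  · exact ⟨y, x, z, by ext v; simp only [mem_insert, mem_singleton]; tauto, hxy.symm, hyz,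
      hxz, h1, h3⟩
  · exact ⟨z, x, y, by ext v; simp only [mem_insert, mem_singleton]; tauto, hxz.symm, hyz.symm,
      hxy, h3, h1⟩
  · exact ⟨x, z, y, by ext v; simp only [mem_insert, mem_singleton]; tauto, hxz, hxy,
      hyz.symm, h3, h2⟩
  · exact ⟨x, y, z, rfl, hxy, hxz, hyz, h1, h2⟩
  · exact ⟨x, y, z, rfl, hxy, hxz, hyz, h1, h2⟩

end Pool.Agent.Hyp6
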