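import Pool.Agent.Hyp6.L3Q1
import Pool.Agent.Hyp6.L3G4

/-!
# HYP6 L3Q2: the node (Q2)

A saturated leaf `L` of type (3;1), two full blocks with seven hits, one point `u` in no triple with its
only hit on the block with one point, one point `p` of a third full block with one hit: the labels and
the context of the tables.
-/

set_option autoImplicit false

namespace Pool.Agent.Hyp6

open Finset Pool.Agent.Hyp5 Gdx Rup

universe u v

variable {V : Type v} [DecidableEq V] {ι : Type u} [Fintype ι] {B : ι → Finset V}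

/-- **(S1)** for the tables: the two other points of a triple are not absorbed. -/
theorem Gdx.Gx.sat_s1 {Q Z : Finset V} {P : Gp} {bl : ℕ → ι} {ct zt : ℕ → V} {tb : ℕ → ι}
    (h : Gdx.Gx B Q Z P bl ct zt tb) (hcr : Crit B Z) (hs : sv B Z = -1) (hdv : -1 ≤ dv B Q Z) {k : ℕ}
    (hk : k < P.tm.length) (hdj : Disjoint Z (B (tb k) ∩ Q)) {a S : ℕ} (ha : a < P.M)
    (hm : ct a ∈ B (tb k)) (hS : (B (tb k) ∩ Q).erase (ct a) ⊆ ptm ct P.M S)
    (h3 : (Ez B Z (ct a)).card + 1 ≤ 3) (hH : hit B ((Q \ (B (tb k) ∩ Q)) \ Z) Z ≤ 3) :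
    Sat (gval B Q Z P bl ct) [ng (vA S)] := by
  refine ⟨ng (vA S), List.mem_singleton_self _, lit_ng.2 ?_⟩
  rw [gval_A]
  intro h1
  have hab : Abz B Z ((B (tb k) ∩ Q).erase (ct a)) := by
    have hc : Cov B (Z ∪ ptm ct P.M S) := h.cov.mono (union_subset h.ZQ (h.ptmQ S))
    obtain ⟨T, hT1, hT2⟩ := exists_cover hc
    exact ⟨T, (union_subset_union (Subset.refl _) hS).trans hT1, by rw [hT2]; exact h1⟩
  have h2 := h.hv.s1 (h.tb3 k hk) (L := Z)
    (fun v hv => mem_sdiff.2 ⟨h.ZQ hv, fun h4 => disjoint_left.1 hdj hv h4⟩) h.Zne hcr hs hm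
    (h.ctQ a ha) (nu := 3) (by norm_num) h3 hH (Or.inl hab)
  split_ifs at h2 <;> norm_num at h2 <;> omega

/-- the instance. -/
abbrev P2q (a b c a' b' c' : ℕ) : Gp :=
  Pgr 3 2 9 9 [3, 3, 3, 5, 5, 6, 6, 4] [a, b, c, a', b', c', 1, 1, 0, 0] [7, 56, 896]

/-- the node (Q2). -/
structure Q2d (B : ι → Finset V) (Q L : Finset V) (i j k : ι) (u p : V) : Prop where
  hv : ViolR B Q
  LQ : L ⊆ Q
  Lne : L.Nonempty
  blk : ∃ bl zt, Blk B L 3 [3, 3, 3, 5, 5, 6, 6, 4] bl zt
  cr : Crit B L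
  svL : sv B L = -1
  rh : rho B L = 2
  dvL : dv B Q L = -1
  pvL : Pv B L = -1
  i3 : (B i ∩ Q).card = 3
  j3 : (B j ∩ Q).card = 3
  k3 : (B k ∩ Q).card = 3
  dij : Disjoint (B i ∩ Q) (B j ∩ Q)
  dik : Disjoint (B i ∩ Q) (B k ∩ Q)
  djk : Disjoint (B j ∩ Q) (B k ∩ Q)
  iL : Disjoint L (B i ∩ Q)
  jL : Disjoint L (B j ∩ Q)
  kL : Disjoint L (B k ∩ Q)
  h7 : hit B (B i ∩ Q) L + hit B (B j ∩ Q) L = 7
  tot : hit B (Q \ L) L ≤ 9
  uQ : u ∈ Q
  uL : u ∉ L
  ui : u ∉ B i
  uj : u ∉ B j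
  uk : u ∉ B k
  u1 : (Ez B L u).card = 1
  us : ∃ s, u ∈ B s ∧ (B s ∩ L).card = 1
  pk : p ∈ B k ∩ Q
  p1 : (Ez B L p).card = 1

/-- the context of (Q2) with sorted numbers of hits. -/
structure Q2x (B : ι → Finset V) (Q L : Finset V) (a b c a' b' c' : ℕ) (bl : ℕ → ι)
    (ct zt : ℕ → V) (tb : ℕ → ι) : Prop where
  gx : Gdx.Gx B Q L (P2q a b c a' b' c') bl ct zt tb
  cr : Crit B L
  svL : sv B L = -1
  dvL : dv B Q L = -1
  hu : ct 6 ∈ B (bl 7)
  d0 : Disjoint L (B (tb 0) ∩ Q)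
  h0 : (Ez B L (ct 0)).card = a
  h1 : (Ez B L (ct 1)).card = b
  h2 : (Ez B L (ct 2)).card = c
  out : hit B ((Q \ (B (tb 0) ∩ Q)) \ L) L + (a + b + c) ≤ 9

variable {Q L : Finset V} {i j k : ι} {u p : V}

theorem Q2d.swap (h : Q2d B Q L i j k u p) : Q2d B Q L j i k u p :=
  ⟨h.hv, h.LQ, h.Lne, h.blk, h.cr, h.svL, h.rh, h.dvL, h.pvL, h.j3, h.i3, h.k3, h.dij.symm, h.djk,
    h.dik, h.jL, h.iL, h.kL, by have := h.h7; omega, h.tot, h.uQ, h.uL, h.uj, h.ui, h.uk, h.u1,
    h.us, h.pk, h.p1⟩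

/-- a point of a full block off `L` has at most four hits. -/
theorem hits_le4 (hr : Reg B Q) (hiL : Disjoint L (B i ∩ Q)) (hLQ : L ⊆ Q) {x : V}
    (hx : x ∈ B i ∩ Q) : (Ez B L x).card ≤ 4 := by
  classical
  obtain ⟨hx1, hx2⟩ := mem_inter.1 hx
  have h1 : (univ.filter (fun k => x ∈ B k)).card = 5 := hr x hx2
  have h2 : Ez B L x ⊆ (univ.filter (fun k => x ∈ B k)).erase i := by
    intro k hk
    obtain ⟨h3, h4⟩ := mem_Ez.1 hk
    refine mem_erase.2 ⟨?_, mem_filter.2 ⟨mem_univ _, h3⟩⟩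
    rintro rfl
    obtain ⟨v, hv⟩ := h4
    obtain ⟨h5, h6⟩ := mem_inter.1 hv
    exact disjoint_left.1 hiL h6 (mem_inter.2 ⟨h5, hLQ h6⟩)
  have h3 := card_le_card h2
  rw [card_erase_of_mem (show i ∈ univ.filter (fun k => x ∈ B k) from
    mem_filter.2 ⟨mem_univ _, hx1⟩), h1] at h3
  omega

/-- the hits of a triple. -/
theorem hit_three {T : Finset V} {x y z : V} (hT : T = {x, y, z}) (hxy : x ≠ y) (hxz : x ≠ z)
    (hyz : y ≠ z) : hit B T L = (Ez B L x).card + (Ez B L y).card + (Ez B L z).card := by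
  rw [hit_eq_Ez, hT, sum_insert (by simp [hxy, hxz]), sum_insert (by simp [hyz]), sum_singleton]
  ring

/-- **the context of (Q2)** for given orders of the two triples. -/
theorem Q2d.gx_of (h : Q2d B Q L i j k u p) {x y z x' y' z' : V} (hTi : B i ∩ Q = {x, y, z})
    (hxy : x ≠ y) (hxz : x ≠ z) (hyz : y ≠ z) (hTj : B j ∩ Q = {x', y', z'}) (hxy' : x' ≠ y')
    (hxz' : x' ≠ z') (hyz' : y' ≠ z') :
    ∃ bl ct zt tb, Q2x B Q L (Ez B L x).card (Ez B L y).card (Ez B L z).card (Ez B L x').card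
      (Ez B L y').card (Ez B L z').card bl ct zt tb := by
  classical
  obtain ⟨bl, zt, hblk⟩ := h.blk
  have hke : ((B k ∩ Q).erase p).card = 2 := by rw [card_erase_of_mem h.pk, h.k3]
  obtain ⟨q, q', hqq, hke'⟩ := card_eq_two.1 hke
  have mi : ∀ v, v ∈ B i ∩ Q ↔ v = x ∨ v = y ∨ v = z := by
    intro v; rw [hTi, mem_insert, mem_insert, mem_singleton]
  have mj : ∀ v, v ∈ B j ∩ Q ↔ v = x' ∨ v = y' ∨ v = z' := by
    intro v; rw [hTj, mem_insert, mem_insert, mem_singleton]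
  have mk : ∀ v, v ∈ B k ∩ Q ↔ v = p ∨ v = q ∨ v = q' := by
    intro v
    rw [← insert_erase h.pk, hke', mem_insert, mem_insert, mem_singleton]
  have hx := (mi x).2 (Or.inl rfl)
  have hy := (mi y).2 (Or.inr (Or.inl rfl))
  have hz := (mi z).2 (Or.inr (Or.inr rfl))
  have hx' := (mj x').2 (Or.inl rfl)
  have hy' := (mj y').2 (Or.inr (Or.inl rfl))
  have hz' := (mj z').2 (Or.inr (Or.inr rfl))
  have hp := (mk p).2 (Or.inl rfl)
  have hq := (mk q).2 (Or.inr (Or.inl rfl))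
  have hq' := (mk q').2 (Or.inr (Or.inr rfl))
  have hpq : p ≠ q := by
    have : q ∈ (B k ∩ Q).erase p := by rw [hke']; simp
    exact (mem_erase.1 this).1.symm
  have hpq' : p ≠ q' := by
    have : q' ∈ (B k ∩ Q).erase p := by rw [hke']; simp
    exact (mem_erase.1 this).1.symm
  have dij : ∀ v ∈ B i ∩ Q, ∀ w ∈ B j ∩ Q, v ≠ w := by
    rintro v hv w hw rfl
    exact disjoint_left.1 h.dij hv hw
  have dik : ∀ v ∈ B i ∩ Q, ∀ w ∈ B k ∩ Q, v ≠ w := by
    rintro v hv w hw rfl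
    exact disjoint_left.1 h.dik hv hw
  have djk : ∀ v ∈ B j ∩ Q, ∀ w ∈ B k ∩ Q, v ≠ w := by
    rintro v hv w hw rfl
    exact disjoint_left.1 h.djk hv hw
  have ui : ∀ v ∈ B i ∩ Q, v ≠ u := by
    rintro v hv rfl
    exact h.ui (mem_inter.1 hv).1
  have uj : ∀ v ∈ B j ∩ Q, v ≠ u := by
    rintro v hv rfl
    exact h.uj (mem_inter.1 hv).1
  have uk : ∀ v ∈ B k ∩ Q, u ≠ v := by
    rintro v hv rfl
    exact h.uk (mem_inter.1 hv).1
  -- the hits
  have hHi := hit_three (B := B) (L := L) hTi hxy hxz hyz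
  have hcovT : ∀ X : Finset V, X ⊆ Q → Disjoint L X → X ⊆ Q \ L := fun X hX hd v hv =>
    mem_sdiff.2 ⟨hX hv, fun h3 => disjoint_left.1 hd h3 hv⟩
  have hrest : (Ez B L q).card + (Ez B L q').card +
      ∑ v ∈ (Q \ L) \ ({u} ∪ ((B i ∩ Q) ∪ ((B j ∩ Q) ∪ (B k ∩ Q)))), (Ez B L v).card = 0 := by
    have e1 : {u} ∪ ((B i ∩ Q) ∪ ((B j ∩ Q) ∪ (B k ∩ Q))) ⊆ Q \ L := by
      refine union_subset ?_ (union_subset (hcovT _ inter_subset_right h.iL)
        (union_subset (hcovT _ inter_subset_right h.jL) (hcovT _ inter_subset_right h.kL)))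
      rw [singleton_subset_iff, mem_sdiff]
      exact ⟨h.uQ, h.uL⟩
    have e2 := sum_sdiff e1 (f := fun v => (Ez B L v).card)
    have e3 : hit B (Q \ L) L = ∑ v ∈ Q \ L, (Ez B L v).card := hit_eq_Ez _ _
    have e4 := h.tot
    have d1 : Disjoint ({u} : Finset V) ((B i ∩ Q) ∪ ((B j ∩ Q) ∪ (B k ∩ Q))) := by
      rw [disjoint_singleton_left, mem_union, mem_union]
      rintro (h3 | h3 | h3)
      · exact ui u h3 rfl
      · exact uj u h3 rfl
      · exact uk u h3 rfl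
    have d2 : Disjoint (B i ∩ Q) ((B j ∩ Q) ∪ (B k ∩ Q)) :=
      disjoint_union_right.2 ⟨h.dij, h.dik⟩
    rw [sum_union d1, sum_union d2, sum_union h.djk, sum_singleton, h.u1] at e2
    have e5 : ∑ v ∈ B i ∩ Q, (Ez B L v).card = hit B (B i ∩ Q) L := (hit_eq_Ez _ _).symm
    have e6 : ∑ v ∈ B j ∩ Q, (Ez B L v).card = hit B (B j ∩ Q) L := (hit_eq_Ez _ _).symm
    have e7 : ∑ v ∈ B k ∩ Q, (Ez B L v).card = 1 + (Ez B L q).card + (Ez B L q').card := by
      have e8 : B k ∩ Q = {p, q, q'} := by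
        ext v
        rw [mk, mem_insert, mem_insert, mem_singleton]
      rw [e8, sum_insert (by simp [hpq, hpq']), sum_insert (by simp [hqq]), sum_singleton, h.p1]
      ring
    rw [e5, e6, e7] at e2
    have e9 := h.h7
    omega
  have hz0 : (Ez B L q).card = 0 ∧ (Ez B L q').card = 0 := by omega
  have hrest0 : ∀ v ∈ (Q \ L) \ ({u} ∪ ((B i ∩ Q) ∪ ((B j ∩ Q) ∪ (B k ∩ Q)))),
      (Ez B L v).card = 0 := by
    have h3 : ∑ v ∈ (Q \ L) \ ({u} ∪ ((B i ∩ Q) ∪ ((B j ∩ Q) ∪ (B k ∩ Q)))),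
      (Ez B L v).card = 0 := by omega
    exact sum_eq_zero_iff.1 h3
  set l : List V := [x, y, z, x', y', z', u, p, q, q'] with hl
  set tb : ℕ → ι := fun m => if m = 0 then i else if m = 1 then j else k with htb
  set hs : List ℕ := [(Ez B L x).card, (Ez B L y).card, (Ez B L z).card, (Ez B L x').card,
    (Ez B L y').card, (Ez B L z').card, 1, 1, 0, 0] with hhs
  have hlgg : Lgg B Q L hs [7, 56, 896] (fun a => l.getD a u) tb := by
    refine Lgg.of_list ?_ ?_ ?_ ?_ ?_ ?_ ?_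
    · simp only [hl, List.nodup_cons, List.mem_cons, List.not_mem_nil, or_false, not_or,
        not_false_eq_true, List.nodup_nil, and_true]
      exact ⟨⟨hxy, hxz, dij x hx x' hx', dij x hx y' hy', dij x hx z' hz', ui x hx,
          dik x hx p hp, dik x hx q hq, dik x hx q' hq'⟩,
        ⟨hyz, dij y hy x' hx', dij y hy y' hy', dij y hy z' hz', ui y hy,
          dik y hy p hp, dik y hy q hq, dik y hy q' hq'⟩,
        ⟨dij z hz x' hx', dij z hz y' hy', dij z hz z' hz', ui z hz,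
          dik z hz p hp, dik z hz q hq, dik z hz q' hq'⟩,
        ⟨hxy', hxz', uj x' hx', djk x' hx' p hp, djk x' hx' q hq, djk x' hx' q' hq'⟩,
        ⟨hyz', uj y' hy', djk y' hy' p hp, djk y' hy' q hq, djk y' hy' q' hq'⟩,
        ⟨uj z' hz', djk z' hz' p hp, djk z' hz' q hq, djk z' hz' q' hq'⟩,
        ⟨uk p hp, uk q hq, uk q' hq'⟩, ⟨hpq, hpq'⟩, hqq⟩
    · have hQi : ∀ v ∈ B i ∩ Q, v ∈ Q ∧ v ∉ L := fun v hv =>
        ⟨(mem_inter.1 hv).2, fun h3 => disjoint_left.1 h.iL h3 hv⟩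
      have hQj : ∀ v ∈ B j ∩ Q, v ∈ Q ∧ v ∉ L := fun v hv =>
        ⟨(mem_inter.1 hv).2, fun h3 => disjoint_left.1 h.jL h3 hv⟩
      have hQk : ∀ v ∈ B k ∩ Q, v ∈ Q ∧ v ∉ L := fun v hv =>
        ⟨(mem_inter.1 hv).2, fun h3 => disjoint_left.1 h.kL h3 hv⟩
      intro v hv
      simp only [hl, List.mem_cons, List.not_mem_nil, or_false] at hv
      rcases hv with rfl | rfl | rfl | rfl | rfl | rfl | rfl | rfl | rfl | rfl
      · exact hQi _ hx
      · exact hQi _ hy
      · exact hQi _ hz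
      · exact hQj _ hx'
      · exact hQj _ hy'
      · exact hQj _ hz'
      · exact ⟨h.uQ, h.uL⟩
      · exact hQk _ hp
      · exact hQk _ hq
      · exact hQk _ hq'
    · intro v hvQ hvL hvE
      by_contra hcon
      simp only [hl, List.mem_cons, List.not_mem_nil, or_false, not_or] at hcon
      obtain ⟨n1, n2, n3, n4, n5, n6, n7, n8, n9, n10⟩ := hcon
      have h3 : v ∈ (Q \ L) \ ({u} ∪ ((B i ∩ Q) ∪ ((B j ∩ Q) ∪ (B k ∩ Q)))) := by
        rw [mem_sdiff, mem_sdiff, mem_union, mem_union, mem_union, mem_singleton, mi, mj, mk]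
        refine ⟨⟨hvQ, hvL⟩, ?_⟩
        rintro (h4 | (h4 | h4 | h4) | (h4 | h4 | h4) | (h4 | h4 | h4))
        · exact n7 h4
        · exact n1 h4
        · exact n2 h4
        · exact n3 h4
        · exact n4 h4
        · exact n5 h4
        · exact n6 h4
        · exact n8 h4
        · exact n9 h4
        · exact n10 h4
      have h4 := hrest0 v h3
      rw [card_eq_zero] at h4
      rw [h4] at hvE
      exact not_nonempty_empty hvE
    · simp only [hl, hhs, List.map_cons, List.map_nil, h.u1, h.p1, hz0.1, hz0.2]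
    · intro m hm
      have hm3 : m < 3 := hm
      interval_cases m
      · ext v
        show v ∈ B i ∩ Q ↔ v ∈ ptm (fun a => l.getD a u) 10 7
        rw [mi, mem_ptm]
        constructor
        · rintro (rfl | rfl | rfl)
          · exact ⟨0, by norm_num, by decide, rfl⟩
          · exact ⟨1, by norm_num, by decide, rfl⟩
          · exact ⟨2, by norm_num, by decide, rfl⟩
        · rintro ⟨a, ha, hb, rfl⟩
          interval_cases a
          · exact Or.inl rfl
          · exact Or.inr (Or.inl rfl)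
          · exact Or.inr (Or.inr rfl)
          all_goals exact absurd hb (by decide)
      · ext v
        show v ∈ B j ∩ Q ↔ v ∈ ptm (fun a => l.getD a u) 10 56
        rw [mj, mem_ptm]
        constructor
        · rintro (rfl | rfl | rfl)
          · exact ⟨3, by norm_num, by decide, rfl⟩
          · exact ⟨4, by norm_num, by decide, rfl⟩
          · exact ⟨5, by norm_num, by decide, rfl⟩
        · rintro ⟨a, ha, hb, rfl⟩
          interval_cases a
          iterate 3 exact absurd hb (by decide)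
          · exact Or.inl rfl
          · exact Or.inr (Or.inl rfl)
          · exact Or.inr (Or.inr rfl)
          all_goals exact absurd hb (by decide)
      · ext v
        show v ∈ B k ∩ Q ↔ v ∈ ptm (fun a => l.getD a u) 10 896
        rw [mk, mem_ptm]
        constructor
        · rintro (rfl | rfl | rfl)
          · exact ⟨7, by norm_num, by decide, rfl⟩
          · exact ⟨8, by norm_num, by decide, rfl⟩
          · exact ⟨9, by norm_num, by decide, rfl⟩
        · rintro ⟨a, ha, hb, rfl⟩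
          interval_cases a
          iterate 7 exact absurd hb (by decide)
          · exact Or.inl rfl
          · exact Or.inr (Or.inl rfl)
          · exact Or.inr (Or.inr rfl)
    · intro m hm
      have hm3 : m < 3 := hm
      interval_cases m
      · exact h.i3
      · exact h.j3
      · exact h.k3
    · have hij : i ≠ j := by
        rintro rfl
        exact disjoint_left.1 h.dij hx hx
      have hik : i ≠ k := by
        rintro rfl
        exact disjoint_left.1 h.dik hx hx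
      have hjk : j ≠ k := by
        rintro rfl
        exact disjoint_left.1 h.djk hx' hx'
      intro m hm m' hm' he
      have hm3 : m < 3 := hm
      have hm3' : m' < 3 := hm'
      interval_cases m <;> interval_cases m' <;>
        first
        | rfl
        | exact absurd he hij
        | exact absurd he hik
        | exact absurd he hjk
        | exact absurd he.symm hij
        | exact absurd he.symm hik
        | exact absurd he.symm hjk
  have hgx : Gdx.Gx B Q L (P2q (Ez B L x).card (Ez B L y).card (Ez B L z).card (Ez B L x').card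
      (Ez B L y').card (Ez B L z').card) bl (fun a => l.getD a u) zt tb :=
    hlgg.gx hblk h.hv h.LQ h.Lne (by simp [hhs]) h.rh (by rw [h.dvL]; norm_num)
      (by rw [h.pvL]; norm_num)
  have hu7 : u ∈ B (bl 7) := by
    obtain ⟨s, hus, hs1⟩ := h.us
    have hne : (B s ∩ L).Nonempty := card_pos.1 (by omega)
    obtain ⟨b, hb, hbs⟩ := hblk.all s hne
    have hb8 : b < 8 := hb
    have h3 : 1 = pcn 3 (([3, 3, 3, 5, 5, 6, 6, 4] : List ℕ).getD b 0) := by
      have h5 := hgx.card_tr (b := b) hb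
      rw [hbs, hs1] at h5
      exact h5
    have h4 : b = 7 := by
      interval_cases b
      all_goals first | rfl | exact absurd h3 (by decide)
    rw [h4] at hbs
    rw [hbs]
    exact hus
  refine ⟨bl, fun a => l.getD a u, zt, tb, hgx,
    h.cr, h.svL, h.dvL, hu7, h.iL, rfl, rfl, rfl, ?_⟩
  have e1 : hit B ((Q \ (B i ∩ Q)) \ L) L + hit B (B i ∩ Q) L = hit B (Q \ L) L := by
    rw [← hit_union_left]
    · congr 1
      ext v
      simp only [mem_union, mem_sdiff, mem_inter, not_and]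
      constructor
      · rintro (⟨⟨h1, h2⟩, h3⟩ | ⟨h1, h2⟩)
        · exact ⟨h1, h3⟩
        · exact ⟨h2, fun h3 => disjoint_left.1 h.iL h3 (mem_inter.2 ⟨h1, h2⟩)⟩
      · rintro ⟨h1, h2⟩
        by_cases h3 : v ∈ B i
        · exact Or.inr ⟨h3, h1⟩
        · exact Or.inl ⟨⟨h1, fun h4 => absurd h4 h3⟩, h2⟩
    · rw [disjoint_left]
      intro v hv hv'
      exact (mem_sdiff.1 (mem_sdiff.1 hv).1).2 hv'
  have e2 := h.tot
  show hit B ((Q \ (B i ∩ Q)) \ L) L + _ ≤ 9
  rw [← hHi]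
  omega

/-- **the numbers of (Q2)**. -/
theorem Q2d.exists_gx (h : Q2d B Q L i j k u p) :
    ∃ a b c a' b' c' : ℕ, b ≤ a ∧ c ≤ b ∧ b' ≤ a' ∧ c' ≤ b' ∧ a ≤ 4 ∧ a' ≤ 4 ∧
      a + b + c + (a' + b' + c') = 7 ∧
      (∃ bl ct zt tb, Q2x B Q L a b c a' b' c' bl ct zt tb) ∧
      ∃ bl ct zt tb, Q2x B Q L a' b' c' a b c bl ct zt tb := by
  obtain ⟨x, y, z, hTi, hxy, hxz, hyz, s1, s2⟩ := exists_three h.i3 (fun v => (Ez B L v).card)
  obtain ⟨x', y', z', hTj, hxy', hxz', hyz', s1', s2'⟩ :=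
    exists_three h.j3 (fun v => (Ez B L v).card)
  have hx : x ∈ B i ∩ Q := by rw [hTi]; simp
  have hx' : x' ∈ B j ∩ Q := by rw [hTj]; simp
  have hHi := hit_three (B := B) (L := L) hTi hxy hxz hyz
  have hHj := hit_three (B := B) (L := L) hTj hxy' hxz' hyz'
  have h7 := h.h7
  exact ⟨_, _, _, _, _, _, s1, s2, s1', s2', hits_le4 h.hv.reg h.iL h.LQ hx,
    hits_le4 h.hv.reg h.jL h.LQ hx', by omega, h.gx_of hTi hxy hxz hyz hTj hxy' hxz' hyz',
    h.swap.gx_of hTj hxy' hxz' hyz' hTi hxy hxz hyz⟩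

/-- the test of the given clauses. -/
def okQ2 (a b c : ℕ) (cl : List ℕ) : Bool :=
  decide (cl = [ps (vP 7 6)]) || (Nat.ble 6 (a + b + c) &&
    ((decide (cl = [ng (vA 6)]) && Nat.ble a 2) || ((decide (cl = [ng (vA 5)]) && Nat.ble b 2) ||
      (decide (cl = [ng (vA 3)]) && Nat.ble c 2))))

variable {a b c a' b' c' : ℕ} {bl : ℕ → ι} {ct zt : ℕ → V} {tb : ℕ → ι}

/-- the given clauses hold. -/
theorem Q2x.given (h : Q2x B Q L a b c a' b' c' bl ct zt tb) {cl : List ℕ}
    (hcl : okQ2 a b c cl = true) : Sat (gval B Q L (P2q a b c a' b' c') bl ct) cl := by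
  have hgx := h.gx
  have hM : (P2q a b c a' b' c').M = 10 := rfl
  have ht0 : B (tb 0) ∩ Q = ptm ct 10 7 := hgx.tbT 0 (by show 0 < 3; norm_num)
  have hin : ∀ m < 3, ct m ∈ B (tb 0) ∩ Q := by
    intro m hm
    rw [ht0, mem_ptm]
    refine ⟨m, by omega, ?_, rfl⟩
    interval_cases m <;> decide
  have key : ∀ m < 3, ∀ S : ℕ, (∀ e < 3, e ≠ m → S.testBit e = true) →
      (Ez B L (ct m)).card ≤ 2 → 6 ≤ a + b + c →
      Sat (gval B Q L (P2q a b c a' b' c') bl ct) [ng (vA S)] := by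
    intro m hm S hS h2 h6
    refine hgx.sat_s1 h.cr h.svL (by rw [h.dvL]) (k := 0) (by show 0 < 3; norm_num) h.d0
      (a := m) (by rw [hM]; omega) (mem_inter.1 (hin m hm)).1 ?_ (by omega)
      (by have := h.out; omega)
    intro v hv
    obtain ⟨hv1, hv2⟩ := mem_erase.1 hv
    rw [ht0, mem_ptm] at hv2
    obtain ⟨e, he, ht, rfl⟩ := hv2
    rw [mem_ptm]
    refine ⟨e, by rw [hM]; exact he, ?_, rfl⟩
    have he3 : e < 3 := by
      by_contra hcon
      push Not at hcon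
      have h4 : (7 : ℕ).testBit e = false := Nat.testBit_lt_two_pow (lt_of_lt_of_le
        (by norm_num : (7 : ℕ) < 2 ^ 3) (Nat.pow_le_pow_right (by norm_num) hcon))
      rw [h4] at ht
      exact absurd ht (by simp)
    exact hS e he3 (fun h5 => hv1 (by rw [h5]))
  unfold okQ2 at hcl
  simp only [Bool.or_eq_true, Bool.and_eq_true, decide_eq_true_eq, Nat.ble_eq] at hcl
  rcases hcl with rfl | ⟨h6, ⟨rfl, h7⟩ | ⟨rfl, h7⟩ | ⟨rfl, h7⟩⟩
  · refine ⟨ps (vP 7 6), List.mem_singleton_self _, lit_ps.2 ?_⟩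
    rw [gval_P (by norm_num)]
    exact h.hu
  · refine key 0 (by norm_num) 6 ?_ (by rw [h.h0]; exact h7) h6
    intro e he hne
    interval_cases e
    · exact absurd rfl hne
    · decide
    · decide
  · refine key 1 (by norm_num) 5 ?_ (by rw [h.h1]; exact h7) h6
    intro e he hne
    interval_cases e
    · decide
    · exact absurd rfl hne
    · decide
  · refine key 2 (by norm_num) 3 ?_ (by rw [h.h2]; exact h7) h6
    intro e he hne
    interval_cases e
    · decide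
    · decide
    · exact absurd rfl hne

/-- a checked instance does not occur. -/
theorem Q2x.no (h : Q2x B Q L a b c a' b' c' bl ct zt tb) {given : List (List ℕ)}
    (hg : given.all (okQ2 a b c) = true) {bs : List Gb} {ks : List Gk} {nm db : Tr}
    {cnf : List (List ℕ)} {prf : List ℕ}
    (hb : instX (P2q a b c a' b' c') given bs ks nm cnf db prf = true) : False :=
  h.gx.no (fun _ hc => h.given (List.all_eq_true.1 hg _ hc)) hb

/-- the list of the numbers of hits. -/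
def listQ : List (List ℕ) :=
  [[4, 3, 0, 0, 0, 0], [4, 2, 1, 0, 0, 0], [3, 3, 1, 0, 0, 0], [3, 2, 2, 0, 0, 0],
   [4, 2, 0, 1, 0, 0], [4, 1, 1, 1, 0, 0], [3, 3, 0, 1, 0, 0], [3, 2, 1, 1, 0, 0],
   [2, 2, 2, 1, 0, 0], [4, 1, 0, 2, 0, 0], [4, 1, 0, 1, 1, 0], [3, 2, 0, 2, 0, 0],
   [3, 2, 0, 1, 1, 0], [3, 1, 1, 2, 0, 0], [3, 1, 1, 1, 1, 0], [2, 2, 1, 2, 0, 0],
   [2, 2, 1, 1, 1, 0], [4, 0, 0, 3, 0, 0], [4, 0, 0, 2, 1, 0], [4, 0, 0, 1, 1, 1],
   [3, 1, 0, 3, 0, 0], [3, 1, 0, 2, 1, 0], [3, 1, 0, 1, 1, 1], [3, 0, 0, 2, 2, 0],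
   [2, 2, 0, 2, 1, 0], [2, 2, 0, 1, 1, 1], [3, 0, 0, 2, 1, 1], [2, 1, 1, 2, 1, 0],
   [2, 1, 1, 1, 1, 1]]

/-- the instances are impossible. -/
def NoQ2 (V : Type v) [DecidableEq V] (ι : Type u) [Fintype ι] : Prop :=
  ∀ (B : ι → Finset V) (Q L : Finset V) (bl : ℕ → ι) (ct zt : ℕ → V) (tb : ℕ → ι),
    ∀ t ∈ listQ, ¬ Q2x B Q L (t.getD 0 0) (t.getD 1 0) (t.getD 2 0) (t.getD 3 0) (t.getD 4 0)
      (t.getD 5 0) bl ct zt tb

theorem listQ_ok : (List.range 5).all (fun a => (List.range 5).all (fun b =>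
    (List.range 5).all (fun c => (List.range 5).all (fun a' => (List.range 5).all (fun b' =>
    (List.range 5).all (fun c' => !(Nat.ble b a && Nat.ble c b && Nat.ble b' a' && Nat.ble c' b' &&
      Nat.beq (a + b + c + (a' + b' + c')) 7 && Nat.ble 4 (a + b + c)) ||
      listQ.contains [a, b, c, a', b', c'] || listQ.contains [a', b', c', a, b, c])))))) = true := by
  decide +kernel

/-- **(Q2)**, from the impossibility of the instances. -/
theorem Q2d.false_of (hno : NoQ2.{u} V ι) (h : Q2d B Q L i j k u p) : False := by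
  obtain ⟨a, b, c, a', b', c', h1, h2, h3, h4, h5, h6, h7, hA, hB⟩ := h.exists_gx
  have main : ∀ a b c a' b' c' : ℕ, b ≤ a → c ≤ b → b' ≤ a' → c' ≤ b' → a ≤ 4 → a' ≤ 4 →
      a + b + c + (a' + b' + c') = 7 → 4 ≤ a + b + c →
      (∃ bl ct zt tb, Q2x B Q L a b c a' b' c' bl ct zt tb) →
      (∃ bl ct zt tb, Q2x B Q L a' b' c' a b c bl ct zt tb) → False := by
    intro a b c a' b' c' h1 h2 h3 h4 h5 h6 h7 h8 hA hB
    have k1 := List.all_eq_true.1 listQ_ok a (List.mem_range.2 (by omega))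
    have k2 := List.all_eq_true.1 k1 b (List.mem_range.2 (by omega))
    have k3 := List.all_eq_true.1 k2 c (List.mem_range.2 (by omega))
    have k4 := List.all_eq_true.1 k3 a' (List.mem_range.2 (by omega))
    have k5 := List.all_eq_true.1 k4 b' (List.mem_range.2 (by omega))
    have k6 := List.all_eq_true.1 k5 c' (List.mem_range.2 (by omega))
    simp only [Bool.or_eq_true, Bool.not_eq_true', Bool.and_eq_false_iff] at k6
    rcases k6 with (k6 | k6) | k6
    · exfalso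
      have e1 : Nat.ble b a = true := by rw [Nat.ble_eq]; exact h1
      have e2 : Nat.ble c b = true := by rw [Nat.ble_eq]; exact h2
      have e3 : Nat.ble b' a' = true := by rw [Nat.ble_eq]; exact h3
      have e4 : Nat.ble c' b' = true := by rw [Nat.ble_eq]; exact h4
      have e5 : Nat.beq (a + b + c + (a' + b' + c')) 7 = true := by
        rw [h7]
        rfl
      have e6 : Nat.ble 4 (a + b + c) = true := by rw [Nat.ble_eq]; exact h8
      rw [e1, e2, e3, e4, e5, e6] at k6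
      simp at k6
    · obtain ⟨bl, ct, zt, tb, hx⟩ := hA
      exact hno B Q L bl ct zt tb _ (List.contains_iff_mem.1 k6) hx
    · obtain ⟨bl, ct, zt, tb, hx⟩ := hB
      exact hno B Q L bl ct zt tb _ (List.contains_iff_mem.1 k6) hx
  by_cases h8 : 4 ≤ a + b + c
  · exact main a b c a' b' c' h1 h2 h3 h4 h5 h6 h7 h8 hA hB
  · exact main a' b' c' a b c h3 h4 h1 h2 h6 h5 (by omega) (by omega) hB hA

/-- **(Q2) for a leaf of a frame**, from the impossibility of the instances: a leaf `L` of type (3;1), two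
triples `i`, `j` with seven hits, a point `u` in none of the triples `i`, `j`, `k` whose only hit is the block
with one point, a point `p` of the triple `k` with one hit. -/
theorem Frm.q2_of {U : Finset V} {T : Finset ι} {F : Finset (Finset V)} (hno : NoQ2.{u} V ι)
    (h : Frm B Q T U F) (hv : ViolR B Q) (hL : L ∈ F) (hc3 : L.card = 3) (h1 : nt B L 1 = 1)
    (hi : i ∈ T) (hj : j ∈ T) (hk : k ∈ T) (hij : i ≠ j) (hik : i ≠ k) (hjk : j ≠ k)
    (h7 : hit B (B i ∩ Q) L + hit B (B j ∩ Q) L = 7) (huQ : u ∈ Q) (huL : u ∉ L) (hui : u ∉ B i)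
    (huj : u ∉ B j) (huk : u ∉ B k) (hu1 : (Ez B L u).card = 1)
    (hus : ∃ s, u ∈ B s ∧ (B s ∩ L).card = 1) (hp : p ∈ B k ∩ Q)
    (hp1 : (Ez B L p).card = 1) : False := by
  obtain ⟨hcm, hrho, hP, hit9⟩ := h.leaf31 hv hL hc3 h1
  have hLQ := h.FQ hL
  have hLne : L.Nonempty := card_pos.1 (by omega)
  obtain ⟨a, b, c, s, ht⟩ := exists_t31 (hv.reg.mono hLQ) (hv.tr.mono hLQ) hc3 hcm hrho
  obtain ⟨bl, zt, hb, _⟩ := ht.exists_blocks
  have hdv := hv.leaf_dv h hL
  have hdv' : dv B Q L = -1 := by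
    refine le_antisymm ?_ hdv
    have h3 : (0 : ℤ) ≤ ee B Q L := by positivity
    unfold dv
    rw [hP]
    linarith
  have hpk := h.mtp.tpk.pack
  exact Q2d.false_of hno (i := i) (j := j) (k := k) (u := u) (p := p)
    ⟨hv, hLQ, hLne, ⟨bl, zt, hb⟩, h.critL hL, h.sv_leaf hL, hrho, hdv', hP, hpk.card i hi,
      hpk.card j hj, hpk.card k hk, hpk.disj i hi j hj hij, hpk.disj i hi k hk hik,
      hpk.disj j hj k hk hjk, h.disT hL hi, h.disT hL hj, h.disT hL hk, h7, hit9, huQ, huL, hui, huj,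
      huk, hu1, hus, hp, hp1⟩

end Pool.Agent.Hyp6
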