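import Pool.Agent.Hyp6.L3Q2
import Pool.Agent.Hyp6.InsX.Q00
import Pool.Agent.Hyp6.InsX.Q01
import Pool.Agent.Hyp6.InsX.Q02
import Pool.Agent.Hyp6.InsX.Q03

/-!
# HYP6 L3Q3: the node (Q2) is impossible
-/

set_option autoImplicit false

namespace Pool.Agent.Hyp6

open Finset Pool.Agent.Hyp5

universe u v

variable {V : Type v} [DecidableEq V] {ι : Type u} [Fintype ι] {B : ι → Finset V}
variable {Q L U : Finset V} {T : Finset ι} {F : Finset (Finset V)} {i j k : ι} {u p : V}

/-- the instances of (Q2) are impossible. -/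
theorem noQ2 : NoQ2.{u} V ι := by
  intro B Q L bl ct zt tb t ht h
  unfold listQ at ht
  simp only [List.mem_cons, List.not_mem_nil, or_false] at ht
  rcases ht with rfl | rfl | rfl | rfl | rfl | rfl | rfl | rfl | rfl | rfl | rfl | rfl | rfl | rfl |
    rfl | rfl | rfl | rfl | rfl | rfl | rfl | rfl | rfl | rfl | rfl | rfl | rfl | rfl | rfl
  · exact Q2x.no h (given := Gdx.Dq2_430_000.given) (by decide) Gdx.Dq2_430_000.inst
  · exact Q2x.no h (given := Gdx.Dq2_421_000.given) (by decide) Gdx.Dq2_421_000.inst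
  · exact Q2x.no h (given := Gdx.Dq2_331_000.given) (by decide) Gdx.Dq2_331_000.inst
  · exact Q2x.no h (given := Gdx.Dq2_322_000.given) (by decide) Gdx.Dq2_322_000.inst
  · exact Q2x.no h (given := Gdx.Dq2_420_100.given) (by decide) Gdx.Dq2_420_100.inst
  · exact Q2x.no h (given := Gdx.Dq2_411_100.given) (by decide) Gdx.Dq2_411_100.inst
  · exact Q2x.no h (given := Gdx.Dq2_330_100.given) (by decide) Gdx.Dq2_330_100.inst
  · exact Q2x.no h (given := Gdx.Dq2_321_100.given) (by decide) Gdx.Dq2_321_100.inst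
  · exact Q2x.no h (given := Gdx.Dq2_222_100.given) (by decide) Gdx.Dq2_222_100.inst
  · exact Q2x.no h (given := Gdx.Dq2_410_200.given) (by decide) Gdx.Dq2_410_200.inst
  · exact Q2x.no h (given := Gdx.Dq2_410_110.given) (by decide) Gdx.Dq2_410_110.inst
  · exact Q2x.no h (given := Gdx.Dq2_320_200.given) (by decide) Gdx.Dq2_320_200.inst
  · exact Q2x.no h (given := Gdx.Dq2_320_110.given) (by decide) Gdx.Dq2_320_110.inst
  · exact Q2x.no h (given := Gdx.Dq2_311_200.given) (by decide) Gdx.Dq2_311_200.inst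
  · exact Q2x.no h (given := Gdx.Dq2_311_110.given) (by decide) Gdx.Dq2_311_110.inst
  · exact Q2x.no h (given := Gdx.Dq2_221_200.given) (by decide) Gdx.Dq2_221_200.inst
  · exact Q2x.no h (given := Gdx.Dq2_221_110.given) (by decide) Gdx.Dq2_221_110.inst
  · exact Q2x.no h (given := Gdx.Dq2_400_300.given) (by decide) Gdx.Dq2_400_300.inst
  · exact Q2x.no h (given := Gdx.Dq2_400_210.given) (by decide) Gdx.Dq2_400_210.inst
  · exact Q2x.no h (given := Gdx.Dq2_400_111.given) (by decide) Gdx.Dq2_400_111.inst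
  · exact Q2x.no h (given := Gdx.Dq2_310_300.given) (by decide) Gdx.Dq2_310_300.inst
  · exact Q2x.no h (given := Gdx.Dq2_310_210.given) (by decide) Gdx.Dq2_310_210.inst
  · exact Q2x.no h (given := Gdx.Dq2_310_111.given) (by decide) Gdx.Dq2_310_111.inst
  · exact Q2x.no h (given := Gdx.Dq2_300_220.given) (by decide) Gdx.Dq2_300_220.inst
  · exact Q2x.no h (given := Gdx.Dq2_220_210.given) (by decide) Gdx.Dq2_220_210.inst
  · exact Q2x.no h (given := Gdx.Dq2_220_111.given) (by decide) Gdx.Dq2_220_111.inst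
  · exact Q2x.no h (given := Gdx.Dq2_300_211.given) (by decide) Gdx.Dq2_300_211.inst
  · exact Q2x.no h (given := Gdx.Dq2_211_210.given) (by decide) Gdx.Dq2_211_210.inst
  · exact Q2x.no h (given := Gdx.Dq2_211_111.given) (by decide) Gdx.Dq2_211_111.inst

/-- **(Q2)**: a leaf `L` of type (3;1), two triples `i`, `j` with seven hits, a point `u` in none of the
triples `i`, `j`, `k` whose only hit is the block with one point, a point `p` of the triple `k` with one
hit: impossible. -/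
theorem Frm.q2 (h : Frm B Q T U F) (hv : ViolR B Q) (hL : L ∈ F) (hc3 : L.card = 3)
    (h1 : nt B L 1 = 1) (hi : i ∈ T) (hj : j ∈ T) (hk : k ∈ T) (hij : i ≠ j) (hik : i ≠ k)
    (hjk : j ≠ k) (h7 : hit B (B i ∩ Q) L + hit B (B j ∩ Q) L = 7) (huQ : u ∈ Q) (huL : u ∉ L)
    (hui : u ∉ B i) (huj : u ∉ B j) (huk : u ∉ B k) (hu1 : (Ez B L u).card = 1)
    (hus : ∃ s, u ∈ B s ∧ (B s ∩ L).card = 1) (hp : p ∈ B k ∩ Q)
    (hp1 : (Ez B L p).card = 1) : False :=
  h.q2_of noQ2 hv hL hc3 h1 hi hj hk hij hik hjk h7 huQ huL hui huj huk hu1 hus hp hp1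

end Pool.Agent.Hyp6
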