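import Pool.Agent.Hyp6.L3R
import Pool.Agent.Hyp6.L3T
import Pool.Agent.Hyp6.L3LA

/-!
# HYP6 L3RA: absorption with both clauses

`Cr3` is `Cp3` with the strong second clause; the facts `pt2`, `pt2b`, `pt2c`, `pt3` and the merged ones
with `lv` in place of `dv`.
-/

set_option autoImplicit false

namespace Pool.Agent.Hyp6

open Finset Pool.Agent.Hyp5

universe u v

variable {V : Type v} [DecidableEq V] {ι : Type u} [Fintype ι] {B : ι → Finset V}
variable {Q C : Finset V}

/-- a part of a system to which both clauses apply. -/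
structure Cr3 (B : ι → Finset V) (Q C : Finset V) : Prop extends Cp3 B Q C where
  ihr : IHR.{u} V Q.card

/-- the value is at least `-1`. -/
theorem Cr3.l_ge (h : Cr3 B Q C) : -1 ≤ lv B Q C := by
  by_cases hs : 0 ≤ sv B C
  · rw [lv_pos hs]
    have h1 := ih_nonneg h.ih h.ihr (B := B) (Q := C) (by have := h.card; omega)
      (h.reg.mono h.sub) (h.tr.mono h.sub) h.conn
      (not_KT_of_ssubset h.cq h.reg h.tr h.sub h.ne) hs
    have h2 : (ee B Q C : ℤ) ≤ ee B C C := by exact_mod_cast ee_le_ee (Subset.refl _) h.sub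
    unfold dv
    linarith
  · rw [lv_neg (by omega)]
    exact h.d_ge

open Classical in
/-- the general absorption fact: the new points of `Y` with hits `E`, and new blocks `N`. -/
theorem Cr3.gen (h : Cr3 B Q C) {Y : Finset V} (hY : Y ⊆ Q) (hYC : Disjoint C Y)
    {E : V → Finset ι} (hE : ∀ y ∈ Y, E y ⊆ Ez B C y) (hEne : ∀ y ∈ Y, (E y).Nonempty)
    {κ : Type} [Fintype κ] {N : κ → Finset V} (hN : ∀ c, N c ⊆ Y) (hNne : ∀ c, (N c).Nonempty)
    (hN3 : ∀ c, (N c).card ≤ 3)
    (hdeg : ∀ y ∈ Y, (E y).card + (univ.filter (fun c => y ∈ N c)).card = 5)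
    (hshort : ∃ c, (N c).card ≤ 2) (hn : C.card + Y.card < Q.card)
    {Y2 : Finset V} (hY2 : Y2 ⊆ Y)
    (hN2 : ∀ y ∈ Y2, 2 ≤ (univ.filter (fun c => N c = {y})).card)
    (hYc : 2 ≤ Y.card)
    (hd : lv B Q C + 5 * (Y.card : ℤ) + 4 * (Fintype.card κ : ℤ) ≤ 22 + 2 * (Y2.card : ℤ)) :
    Abz B C Y := by
  have hA : AbsData B C Y E N := by
    refine ⟨hYC, fun y hy i hi => (mem_Ez.1 (hE y hy hi)).2, hEne, hN, hNne, ?_, ?_, hN3⟩
    · intro y hy
      convert hdeg y hy using 3
    · intro i
      convert h.size' hY hYC hE i using 3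
  obtain ⟨c, hc⟩ := hshort
  have hk : ¬ KT (absG B C Y E N) (C ∪ Y) :=
    hA.not_KT (h.reg.mono h.sub) (k := Sum.inr c) (hNne c) hc
  obtain ⟨T, hT1, hT2, hT3⟩ := hA.absorbR h.ih h.ihr h.reg h.sub h.conn hk hn
    (fun y hy i hi => two_le_of h.sub (mem_Ez.1 (hE y hy hi)).2 (mem_Ez.1 (hE y hy hi)).1 (hY hy)
      (disjoint_right.1 hYC hy)) hY2 (fun y hy => by convert hN2 y hy using 2) hYc hd
  refine ⟨T, union_subset hT1 fun y hy => ?_, hT2⟩
  obtain ⟨i, hiT, hiE⟩ := hT3 y hy
  exact mem_biUnion.2 ⟨i, hiT, (mem_Ez.1 (hE y hy hiE)).1⟩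

/-- F2: two points with two hits each. -/
theorem Cr3.pt2 (h : Cr3 B Q C) (hd : lv B Q C ≤ 0) {z1 z2 : V} (h1Q : z1 ∈ Q) (h1 : z1 ∉ C)
    (h2Q : z2 ∈ Q) (h2 : z2 ∉ C) (h12 : z1 ≠ z2) (hE1 : 2 ≤ (Ez B C z1).card)
    (hE2 : 2 ≤ (Ez B C z2).card) : Abz B C {z1, z2} := by
  classical
  obtain ⟨S1, hS1, hc1⟩ := exists_subset_card_eq hE1
  obtain ⟨S2, hS2, hc2⟩ := exists_subset_card_eq hE2
  obtain ⟨E, hi1, hi2⟩ : ∃ E : V → Finset ι, E z1 = S1 ∧ E z2 = S2 :=
    ⟨fun y => if y = z1 then S1 else S2, if_pos rfl, if_neg (fun h => h12 h.symm)⟩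
  have hor : ∀ y ∈ ({z1, z2} : Finset V), y = z1 ∨ y = z2 := fun y hy => by simpa using hy
  refine h.gen (Y := {z1, z2}) (E := E) (κ := Fin 3) (N := fun _ => {z1, z2}) (Y2 := ∅)
    ?_ ?_ ?_ ?_ ?_ ?_ ?_ ?_ ?_ ?_ (empty_subset _) (by simp)
    (by rw [card_pair h12]) ?_
  · intro y hy
    rcases hor y hy with rfl | rfl
    · exact h1Q
    · exact h2Q
  · rw [disjoint_right]
    intro y hy
    rcases hor y hy with rfl | rfl
    · exact h1
    · exact h2
  · intro y hy
    rcases hor y hy with rfl | rfl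
    · rw [hi1]
      exact hS1
    · rw [hi2]
      exact hS2
  · intro y hy
    rcases hor y hy with rfl | rfl
    · rw [hi1, ← card_pos, hc1]
      norm_num
    · rw [hi2, ← card_pos, hc2]
      norm_num
  · intro c
    exact Subset.refl _
  · intro c
    exact insert_nonempty _ _
  · intro c
    exact card_le_two.trans (by norm_num)
  · intro y hy
    have h5 : (univ.filter (fun _ : Fin 3 => y ∈ ({z1, z2} : Finset V))) = univ :=
      filter_true_of_mem fun _ _ => hy
    rw [h5, card_univ, Fintype.card_fin]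
    rcases hor y hy with rfl | rfl
    · rw [hi1, hc1]
    · rw [hi2, hc2]
  · exact ⟨0, card_le_two⟩
  · rw [card_pair h12]
    have := h.card
    omega
  · rw [card_pair h12, Fintype.card_fin, card_empty]
    push_cast
    linarith

/-- F2b: two points with three hits each. -/
theorem Cr3.pt2b (h : Cr3 B Q C) (hd : lv B Q C ≤ 4) {z1 z2 : V} (h1Q : z1 ∈ Q) (h1 : z1 ∉ C)
    (h2Q : z2 ∈ Q) (h2 : z2 ∉ C) (h12 : z1 ≠ z2) (hE1 : 3 ≤ (Ez B C z1).card)
    (hE2 : 3 ≤ (Ez B C z2).card) : Abz B C {z1, z2} := by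
  classical
  obtain ⟨S1, hS1, hc1⟩ := exists_subset_card_eq hE1
  obtain ⟨S2, hS2, hc2⟩ := exists_subset_card_eq hE2
  obtain ⟨E, hi1, hi2⟩ : ∃ E : V → Finset ι, E z1 = S1 ∧ E z2 = S2 :=
    ⟨fun y => if y = z1 then S1 else S2, if_pos rfl, if_neg (fun h => h12 h.symm)⟩
  have hor : ∀ y ∈ ({z1, z2} : Finset V), y = z1 ∨ y = z2 := fun y hy => by simpa using hy
  refine h.gen (Y := {z1, z2}) (E := E) (κ := Fin 2) (N := fun _ => {z1, z2}) (Y2 := ∅)
    ?_ ?_ ?_ ?_ ?_ ?_ ?_ ?_ ?_ ?_ (empty_subset _) (by simp)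
    (by rw [card_pair h12]) ?_
  · intro y hy
    rcases hor y hy with rfl | rfl
    · exact h1Q
    · exact h2Q
  · rw [disjoint_right]
    intro y hy
    rcases hor y hy with rfl | rfl
    · exact h1
    · exact h2
  · intro y hy
    rcases hor y hy with rfl | rfl
    · rw [hi1]
      exact hS1
    · rw [hi2]
      exact hS2
  · intro y hy
    rcases hor y hy with rfl | rfl
    · rw [hi1, ← card_pos, hc1]
      norm_num
    · rw [hi2, ← card_pos, hc2]
      norm_num
  · intro c
    exact Subset.refl _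
  · intro c
    exact insert_nonempty _ _
  · intro c
    exact card_le_two.trans (by norm_num)
  · intro y hy
    have h5 : (univ.filter (fun _ : Fin 2 => y ∈ ({z1, z2} : Finset V))) = univ :=
      filter_true_of_mem fun _ _ => hy
    rw [h5, card_univ, Fintype.card_fin]
    rcases hor y hy with rfl | rfl
    · rw [hi1, hc1]
    · rw [hi2, hc2]
  · exact ⟨0, card_le_two⟩
  · rw [card_pair h12]
    have := h.card
    omega
  · rw [card_pair h12, Fintype.card_fin, card_empty]
    push_cast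
    linarith

/-- two points with four and two hits. -/
theorem Cr3.pt2c (h : Cr3 B Q C) (hd : lv B Q C ≤ 2) {z1 z2 : V} (h1Q : z1 ∈ Q) (h1 : z1 ∉ C)
    (h2Q : z2 ∈ Q) (h2 : z2 ∉ C) (h12 : z1 ≠ z2) (hE1 : 4 ≤ (Ez B C z1).card)
    (hE2 : 2 ≤ (Ez B C z2).card) : Abz B C {z1, z2} := by
  classical
  obtain ⟨S1, hS1, hc1⟩ := exists_subset_card_eq hE1
  obtain ⟨S2, hS2, hc2⟩ := exists_subset_card_eq hE2
  obtain ⟨E, hi1, hi2⟩ : ∃ E : V → Finset ι, E z1 = S1 ∧ E z2 = S2 :=
    ⟨fun y => if y = z1 then S1 else S2, if_pos rfl, if_neg (fun h => h12 h.symm)⟩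
  have hor : ∀ y ∈ ({z1, z2} : Finset V), y = z1 ∨ y = z2 := fun y hy => by simpa using hy
  refine h.gen (Y := {z1, z2}) (E := E) (κ := Fin 3)
    (N := fun c => if c = 0 then {z1, z2} else {z2}) (Y2 := {z2})
    ?_ ?_ ?_ ?_ ?_ ?_ ?_ ?_ ⟨1, ?_⟩ ?_ ?_ ?_ (by rw [card_pair h12]) ?_
  · intro y hy
    rcases hor y hy with rfl | rfl
    · exact h1Q
    · exact h2Q
  · rw [disjoint_right]
    intro y hy
    rcases hor y hy with rfl | rfl
    · exact h1
    · exact h2
  · intro y hy
    rcases hor y hy with rfl | rfl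
    · rw [hi1]
      exact hS1
    · rw [hi2]
      exact hS2
  · intro y hy
    rcases hor y hy with rfl | rfl
    · rw [hi1, ← card_pos, hc1]
      norm_num
    · rw [hi2, ← card_pos, hc2]
      norm_num
  · intro c
    split_ifs
    · exact Subset.refl _
    · exact subset_insert _ _
  · intro c
    split_ifs
    · exact insert_nonempty _ _
    · exact singleton_nonempty _
  · intro c
    split_ifs
    · exact card_le_two.trans (by norm_num)
    · simp
  · intro y hy
    have h5 : (univ.filter (fun c : Fin 3 =>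
        y ∈ (if c = 0 then ({z1, z2} : Finset V) else {z2}))).card =
        (if y ∈ ({z1, z2} : Finset V) then 1 else 0) +
          (if y ∈ ({z2} : Finset V) then 1 else 0) + (if y ∈ ({z2} : Finset V) then 1 else 0) := by
      rw [card_filter, Fin.sum_univ_three]
      simp
    rw [h5]
    rcases hor y hy with rfl | rfl
    · rw [hi1, hc1, if_pos (by simp), if_neg (by simp [h12])]
    · rw [hi2, hc2, if_pos (by simp), if_pos (by simp)]
  · rw [if_neg (by norm_num)]
    simp
  · rw [card_pair h12]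
    have := h.card
    omega
  · exact subset_insert _ _
  · intro y hy
    rw [mem_singleton.1 hy]
    have h6 : ({1, 2} : Finset (Fin 3)) ⊆ univ.filter (fun c : Fin 3 =>
        (if c = 0 then ({z1, z2} : Finset V) else {z2}) = {z2}) := by
      intro c hc
      rw [mem_filter]
      refine ⟨mem_univ _, ?_⟩
      rw [if_neg]
      rintro rfl
      simp at hc
    have h7 := card_le_card h6
    have h8 : ({1, 2} : Finset (Fin 3)).card = 2 := by decide
    omega
  · rw [card_pair h12, Fintype.card_fin, card_singleton]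
    push_cast
    linarith

/-- F3: three points with three hits each, the first one with four, or `C` has not three points. -/
theorem Cr3.pt3 (h : Cr3 B Q C) (hd : lv B Q C ≤ -1) {z1 z2 z3 : V} (h1Q : z1 ∈ Q) (h1 : z1 ∉ C)
    (h2Q : z2 ∈ Q) (h2 : z2 ∉ C) (h3Q : z3 ∈ Q) (h3 : z3 ∉ C) (h12 : z1 ≠ z2) (h13 : z1 ≠ z3)
    (h23 : z2 ≠ z3) (hn : C.card + 3 < Q.card) (hE1 : 3 ≤ (Ez B C z1).card)
    (hE2 : 3 ≤ (Ez B C z2).card) (hE3 : 3 ≤ (Ez B C z3).card)
    (hex : 4 ≤ (Ez B C z1).card ∨ C.card ≠ 3) : Abz B C {z1, z2, z3} := by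
  classical
  have hc3 : ({z1, z2, z3} : Finset V).card = 3 := card_eq_three.2 ⟨z1, z2, z3, h12, h13, h23, rfl⟩
  have hor : ∀ y ∈ ({z1, z2, z3} : Finset V), y = z1 ∨ y = z2 ∨ y = z3 :=
    fun y hy => by simpa using hy
  have hYQ : ({z1, z2, z3} : Finset V) ⊆ Q := by
    intro y hy
    rcases hor y hy with rfl | rfl | rfl
    · exact h1Q
    · exact h2Q
    · exact h3Q
  have hYC : Disjoint C {z1, z2, z3} := by
    rw [disjoint_right]
    intro y hy
    rcases hor y hy with rfl | rfl | rfl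
    · exact h1
    · exact h2
    · exact h3
  obtain ⟨S2, hS2, hc2⟩ := exists_subset_card_eq hE2
  obtain ⟨S3, hS3, hc3'⟩ := exists_subset_card_eq hE3
  by_cases h4 : 4 ≤ (Ez B C z1).card
  · obtain ⟨S1, hS1, hc1⟩ := exists_subset_card_eq h4
    obtain ⟨E, hi1, hi2, hi3⟩ : ∃ E : V → Finset ι, E z1 = S1 ∧ E z2 = S2 ∧ E z3 = S3 :=
      ⟨fun y => if y = z1 then S1 else if y = z2 then S2 else S3, if_pos rfl,
        by simp [h12.symm], by simp [h13.symm, h23.symm]⟩
    refine h.gen (E := E) (κ := Fin 2)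
      (N := fun c => if c = 0 then ({z1, z2, z3} : Finset V) else {z2, z3}) (Y2 := ∅)
      hYQ hYC ?_ ?_ ?_ ?_ ?_ ?_ ?_ ?_ (empty_subset _) (by simp)
      (by rw [hc3]; norm_num) ?_
    · intro y hy
      rcases hor y hy with rfl | rfl | rfl
      · rw [hi1]
        exact hS1
      · rw [hi2]
        exact hS2
      · rw [hi3]
        exact hS3
    · intro y hy
      rcases hor y hy with rfl | rfl | rfl
      · rw [hi1, ← card_pos, hc1]
        norm_num
      · rw [hi2, ← card_pos, hc2]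
        norm_num
      · rw [hi3, ← card_pos, hc3']
        norm_num
    · intro c
      split_ifs
      · exact Subset.refl _
      · exact subset_insert _ _
    · intro c
      split_ifs
      · exact insert_nonempty _ _
      · exact insert_nonempty _ _
    · intro c
      split_ifs
      · rw [hc3]
      · exact card_le_two.trans (by norm_num)
    · intro y hy
      have h5 : (univ.filter (fun c : Fin 2 =>
          y ∈ (if c = 0 then ({z1, z2, z3} : Finset V) else {z2, z3}))).card =
          (if y ∈ ({z1, z2, z3} : Finset V) then 1 else 0) +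
            (if y ∈ ({z2, z3} : Finset V) then 1 else 0) := by
        rw [card_filter, Fin.sum_univ_two]
        simp
      rw [h5]
      rcases hor y hy with rfl | rfl | rfl
      · rw [hi1, hc1, if_pos (by simp), if_neg (by simp [h12, h13])]
      · rw [hi2, hc2, if_pos (by simp), if_pos (by simp)]
      · rw [hi3, hc3', if_pos (by simp), if_pos (by simp)]
    · refine ⟨1, ?_⟩
      rw [if_neg (by norm_num)]
      exact card_le_two
    · rw [hc3]
      exact hn
    · rw [hc3, Fintype.card_fin, card_empty]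
      push_cast
      linarith
  · have hCc : C.card ≠ 3 := by
      rcases hex with h5 | h5
      · exact absurd h5 h4
      · exact h5
    obtain ⟨S1, hS1, hc1⟩ := exists_subset_card_eq hE1
    obtain ⟨E, hi1, hi2, hi3⟩ : ∃ E : V → Finset ι, E z1 = S1 ∧ E z2 = S2 ∧ E z3 = S3 :=
      ⟨fun y => if y = z1 then S1 else if y = z2 then S2 else S3, if_pos rfl,
        by simp [h12.symm], by simp [h13.symm, h23.symm]⟩
    have hsub : ∀ y ∈ ({z1, z2, z3} : Finset V), E y ⊆ Ez B C y := by
      intro y hy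
      rcases hor y hy with rfl | rfl | rfl
      · rw [hi1]
        exact hS1
      · rw [hi2]
        exact hS2
      · rw [hi3]
        exact hS3
    have hcE : ∀ y ∈ ({z1, z2, z3} : Finset V), (E y).card = 3 := by
      intro y hy
      rcases hor y hy with rfl | rfl | rfl
      · rw [hi1, hc1]
      · rw [hi2, hc2]
      · rw [hi3, hc3']
    have hA : AbsData B C {z1, z2, z3} E (fun _ : Fin 2 => ({z1, z2, z3} : Finset V)) := by
      refine ⟨hYC, fun y hy i hi => (mem_Ez.1 (hsub y hy hi)).2, ?_, fun _ => Subset.refl _,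
        fun _ => insert_nonempty _ _, ?_, ?_, fun _ => hc3.le⟩
      · intro y hy
        rw [← card_pos, hcE y hy]
        norm_num
      · intro y hy
        rw [hcE y hy]
        have h5 : (univ.filter (fun _ : Fin 2 => y ∈ ({z1, z2, z3} : Finset V))) = univ :=
          filter_true_of_mem fun _ _ => hy
        rw [h5, card_univ, Fintype.card_fin]
      · intro i
        convert h.size' hYQ hYC hsub i using 3
    have hk : ¬ KT (absG B C {z1, z2, z3} E (fun _ : Fin 2 => ({z1, z2, z3} : Finset V)))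
        (C ∪ {z1, z2, z3}) := by
      intro hK
      have h6 := hK.1
      rw [card_union_of_disjoint hYC, hc3] at h6
      omega
    obtain ⟨T, hT1, hT2, hT3⟩ := hA.absorbR h.ih h.ihr h.reg h.sub h.conn hk
      (by rw [hc3]; exact hn)
      (fun y hy i hi => two_le_of h.sub (mem_Ez.1 (hsub y hy hi)).2 (mem_Ez.1 (hsub y hy hi)).1
        (hYQ hy) (disjoint_right.1 hYC hy)) (empty_subset _) (by simp)
      (by rw [hc3]; norm_num) (by rw [hc3, Fintype.card_fin, card_empty]; push_cast; linarith)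
    refine ⟨T, union_subset hT1 fun y hy => ?_, hT2⟩
    obtain ⟨i, hiT, hiE⟩ := hT3 y hy
    exact mem_biUnion.2 ⟨i, hiT, (mem_Ez.1 (hsub y hy hiE)).1⟩

open Classical in
/-- two points of which the second one is merged from two points of `Q`. -/
theorem Cr3.mrgT (h : Cr3 B Q C) {y z1 z2 : V} (hyQ : y ∈ Q) (hyC : y ∉ C) (h1Q : z1 ∈ Q)
    (h1C : z1 ∉ C) (h2Q : z2 ∈ Q) (h2C : z2 ∉ C) (hy1 : y ≠ z1) (hy2 : y ≠ z2)
    {S1 S2 : Finset ι} (hS1 : S1 ⊆ Ez B C y) (hS2 : S2 ⊆ Ez B C z1 ∪ Ez B C z2)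
    (h1ne : S1.Nonempty) (h2ne : S2.Nonempty)
    {κ : Type} [Fintype κ] {N : κ → Finset V} (hN : ∀ c, N c ⊆ {y, z1})
    (hNne : ∀ c, (N c).Nonempty)
    (hdy : ∀ n : κ → Prop, (∀ c, n c ↔ y ∈ N c) → ∀ [DecidablePred n],
      S1.card + (univ.filter n).card = 5)
    (hdz : ∀ n : κ → Prop, (∀ c, n c ↔ z1 ∈ N c) → ∀ [DecidablePred n],
      S2.card + (univ.filter n).card = 5) (hκ : Nonempty κ)
    {Y2 : Finset V} (hY2 : Y2 ⊆ {y, z1})
    (hN2 : ∀ v ∈ Y2, 2 ≤ (univ.filter (fun c => N c = {v})).card)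
    (hd : lv B Q C + 10 + 4 * (Fintype.card κ : ℤ) ≤ 22 + 2 * (Y2.card : ℤ)) :
    Abz B C {y, z1} ∨ Abz B C {y, z2} := by
  obtain ⟨E, hEy, hEz⟩ : ∃ E : V → Finset ι, E y = S1 ∧ E z1 = S2 :=
    ⟨fun v => if v = y then S1 else S2, if_pos rfl, if_neg (fun h => hy1 h.symm)⟩
  have hor : ∀ v ∈ ({y, z1} : Finset V), v = y ∨ v = z1 := fun v hv => by simpa using hv
  have hEC : ∀ v ∈ ({y, z1} : Finset V), ∀ i ∈ E v, (B i ∩ C).Nonempty := by
    intro v hv i hi
    rcases hor v hv with rfl | rfl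
    · rw [hEy] at hi
      exact (mem_Ez.1 (hS1 hi)).2
    · rw [hEz] at hi
      rcases mem_union.1 (hS2 hi) with h1 | h1
      · exact (mem_Ez.1 h1).2
      · exact (mem_Ez.1 h1).2
  have hE2 : ∀ v ∈ ({y, z1} : Finset V), ∀ i ∈ E v, 2 ≤ (B i ∩ Q).card := by
    intro v hv i hi
    rcases hor v hv with rfl | rfl
    · rw [hEy] at hi
      exact two_le_of h.sub (mem_Ez.1 (hS1 hi)).2 (mem_Ez.1 (hS1 hi)).1 hyQ hyC
    · rw [hEz] at hi
      rcases mem_union.1 (hS2 hi) with h1 | h1
      · exact two_le_of h.sub (mem_Ez.1 h1).2 (mem_Ez.1 h1).1 h1Q h1C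
      · exact two_le_of h.sub (mem_Ez.1 h1).2 (mem_Ez.1 h1).1 h2Q h2C
  have hdis : Disjoint C {y, z1} := by
    rw [disjoint_right]
    intro v hv
    rcases hor v hv with rfl | rfl
    · exact hyC
    · exact h1C
  have hY3 : ({y, z1, z2} : Finset V) ⊆ Q := by
    intro v hv
    simp only [mem_insert, mem_singleton] at hv
    rcases hv with rfl | rfl | rfl
    · exact hyQ
    · exact h1Q
    · exact h2Q
  have hdis3 : Disjoint C ({y, z1, z2} : Finset V) := by
    rw [disjoint_right]
    intro v hv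
    simp only [mem_insert, mem_singleton] at hv
    rcases hv with rfl | rfl | rfl
    · exact hyC
    · exact h1C
    · exact h2C
  have hsz : ∀ i, (B i ∩ C).card + (({y, z1} : Finset V).filter (fun v => i ∈ E v)).card ≤ 3 := by
    intro i
    refine le_trans (Nat.add_le_add_left ?_ _) (h.size hY3 hdis3 i)
    -- an injection of the points carrying `i` into the points of the block `i`
    by_cases hiy : i ∈ E y
    · have hyi : y ∈ B i := by
        rw [hEy] at hiy
        exact (mem_Ez.1 (hS1 hiy)).1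
      by_cases hiz : i ∈ E z1
      · rw [hEz] at hiz
        have h5 : (({y, z1} : Finset V).filter (fun v => i ∈ E v)).card ≤ 2 :=
          (card_filter_le _ _).trans card_le_two
        rcases mem_union.1 (hS2 hiz) with h1 | h1
        · have h6 : ({y, z1} : Finset V) ⊆ ({y, z1, z2} : Finset V).filter (fun v => v ∈ B i) := by
            intro v hv
            rw [mem_filter]
            rcases hor v hv with rfl | rfl
            · exact ⟨by simp, hyi⟩
            · exact ⟨by simp, (mem_Ez.1 h1).1⟩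
          have h7 := card_le_card h6
          rw [card_pair hy1] at h7
          omega
        · have h6 : ({y, z2} : Finset V) ⊆ ({y, z1, z2} : Finset V).filter (fun v => v ∈ B i) := by
            intro v hv
            rw [mem_filter]
            simp only [mem_insert, mem_singleton] at hv
            rcases hv with rfl | rfl
            · exact ⟨by simp, hyi⟩
            · exact ⟨by simp, (mem_Ez.1 h1).1⟩
          have h7 := card_le_card h6
          rw [card_pair hy2] at h7
          omega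
      · have h5 : ({y, z1} : Finset V).filter (fun v => i ∈ E v) ⊆ {y} := by
          intro v hv
          rw [mem_filter] at hv
          rcases hor v hv.1 with rfl | rfl
          · simp
          · exact absurd hv.2 hiz
        have h6 : ({y} : Finset V) ⊆ ({y, z1, z2} : Finset V).filter (fun v => v ∈ B i) := by
          intro v hv
          rw [mem_singleton] at hv
          rw [mem_filter, hv]
          exact ⟨by simp, hyi⟩
        exact (card_le_card h5).trans (card_le_card h6)
    · have h5 : ({y, z1} : Finset V).filter (fun v => i ∈ E v) ⊆ {z1} := by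
        intro v hv
        rw [mem_filter] at hv
        rcases hor v hv.1 with rfl | rfl
        · exact absurd hv.2 hiy
        · simp
      by_cases hiz : i ∈ E z1
      · rw [hEz] at hiz
        have h6 : 0 < (({y, z1, z2} : Finset V).filter (fun v => v ∈ B i)).card := by
          rw [card_pos]
          rcases mem_union.1 (hS2 hiz) with h1 | h1
          · exact ⟨z1, mem_filter.2 ⟨by simp, (mem_Ez.1 h1).1⟩⟩
          · exact ⟨z2, mem_filter.2 ⟨by simp, (mem_Ez.1 h1).1⟩⟩
        have h7 := card_le_card h5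
        rw [card_singleton] at h7
        omega
      · have h6 : ({y, z1} : Finset V).filter (fun v => i ∈ E v) = ∅ := by
          rw [filter_eq_empty_iff]
          intro v hv
          rcases hor v hv with rfl | rfl
          · exact hiy
          · exact hiz
        rw [h6, card_empty]
        exact Nat.zero_le _
  have hA : AbsData B C {y, z1} E N := by
    refine ⟨hdis, hEC, ?_, hN, hNne, ?_, ?_, ?_⟩
    · intro v hv
      rcases hor v hv with rfl | rfl
      · rw [hEy]
        exact h1ne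
      · rw [hEz]
        exact h2ne
    · intro v hv
      rcases hor v hv with rfl | rfl
      · rw [hEy]
        exact hdy _ (fun _ => Iff.rfl)
      · rw [hEz]
        exact hdz _ (fun _ => Iff.rfl)
    · intro i
      convert hsz i using 3
    · intro c
      exact (card_le_card (hN c)).trans (card_le_two.trans (by norm_num))
  obtain ⟨c⟩ := hκ
  have hk : ¬ KT (absG B C {y, z1} E N) (C ∪ {y, z1}) :=
    hA.not_KT (h.reg.mono h.sub) (k := Sum.inr c) (hNne c)
      ((card_le_card (hN c)).trans card_le_two)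
  obtain ⟨T, hT1, hT2, hT3⟩ := hA.absorbR h.ih h.ihr h.reg h.sub h.conn hk
    (by rw [card_pair hy1]; have := h.card; omega) hE2 hY2
    (fun v hv => by convert hN2 v hv using 2) (by rw [card_pair hy1])
    (by rw [card_pair hy1]; push_cast; linarith)
  obtain ⟨i, hiT, hiE⟩ := hT3 y (by simp)
  obtain ⟨j, hjT, hjE⟩ := hT3 z1 (by simp)
  rw [hEy] at hiE
  rw [hEz] at hjE
  have hyT : y ∈ T.biUnion B := mem_biUnion.2 ⟨i, hiT, (mem_Ez.1 (hS1 hiE)).1⟩
  rcases mem_union.1 (hS2 hjE) with h1 | h1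
  · left
    refine ⟨T, union_subset hT1 fun v hv => ?_, hT2⟩
    rcases hor v hv with rfl | rfl
    · exact hyT
    · exact mem_biUnion.2 ⟨j, hjT, (mem_Ez.1 h1).1⟩
  · right
    refine ⟨T, union_subset hT1 fun v hv => ?_, hT2⟩
    simp only [mem_insert, mem_singleton] at hv
    rcases hv with rfl | rfl
    · exact hyT
    · exact mem_biUnion.2 ⟨j, hjT, (mem_Ez.1 h1).1⟩

open Classical in
/-- merged pair `(2, 2)`. -/
theorem Cr3.mrg22 (h : Cr3 B Q C) (hd : lv B Q C ≤ 0) {y z1 z2 : V} (hyQ : y ∈ Q) (hyC : y ∉ C)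
    (h1Q : z1 ∈ Q) (h1C : z1 ∉ C) (h2Q : z2 ∈ Q) (h2C : z2 ∉ C) (hy1 : y ≠ z1) (hy2 : y ≠ z2)
    (hE1 : 2 ≤ (Ez B C y).card) (hE2 : 2 ≤ (Ez B C z1 ∪ Ez B C z2).card) :
    Abz B C {y, z1} ∨ Abz B C {y, z2} := by
  obtain ⟨S1, hS1, hc1⟩ := exists_subset_card_eq hE1
  obtain ⟨S2, hS2, hc2⟩ := exists_subset_card_eq hE2
  refine h.mrgT hyQ hyC h1Q h1C h2Q h2C hy1 hy2 hS1 hS2 (card_pos.1 (by omega))
    (card_pos.1 (by omega)) (κ := Fin 3) (N := fun _ => {y, z1}) (Y2 := ∅)
    (fun _ => Subset.refl _) (fun _ => insert_nonempty _ _) ?_ ?_ ⟨0⟩ (empty_subset _)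
    (by simp) ?_
  · intro n hn _
    have h5 : univ.filter n = univ := filter_true_of_mem fun c _ => (hn c).2 (by simp)
    rw [h5, hc1, card_univ, Fintype.card_fin]
  · intro n hn _
    have h5 : univ.filter n = univ := filter_true_of_mem fun c _ => (hn c).2 (by simp)
    rw [h5, hc2, card_univ, Fintype.card_fin]
  · rw [Fintype.card_fin, card_empty]
    push_cast
    linarith

open Classical in
/-- merged pair `(2, 4)`. -/
theorem Cr3.mrg24 (h : Cr3 B Q C) (hd : lv B Q C ≤ 2) {y z1 z2 : V} (hyQ : y ∈ Q) (hyC : y ∉ C)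
    (h1Q : z1 ∈ Q) (h1C : z1 ∉ C) (h2Q : z2 ∈ Q) (h2C : z2 ∉ C) (hy1 : y ≠ z1) (hy2 : y ≠ z2)
    (hE1 : 2 ≤ (Ez B C y).card) (hE2 : 4 ≤ (Ez B C z1 ∪ Ez B C z2).card) :
    Abz B C {y, z1} ∨ Abz B C {y, z2} := by
  obtain ⟨S1, hS1, hc1⟩ := exists_subset_card_eq hE1
  obtain ⟨S2, hS2, hc2⟩ := exists_subset_card_eq hE2
  refine h.mrgT hyQ hyC h1Q h1C h2Q h2C hy1 hy2 hS1 hS2 (card_pos.1 (by omega))
    (card_pos.1 (by omega)) (κ := Fin 3) (N := fun c => if c = 0 then {y, z1} else {y})
    (Y2 := {y}) ?_ ?_ ?_ ?_ ⟨0⟩ (by simp) ?_ ?_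
  · intro c
    split_ifs
    · exact Subset.refl _
    · simp
  · intro c
    split_ifs
    · exact insert_nonempty _ _
    · exact singleton_nonempty _
  · intro n hn _
    have h5 : univ.filter n = univ := filter_true_of_mem fun c _ => (hn c).2 (by
      split_ifs <;> simp)
    rw [h5, hc1, card_univ, Fintype.card_fin]
  · intro n hn _
    have h5 : univ.filter n = {0} := by
      ext c
      rw [mem_filter, hn c, mem_singleton]
      by_cases hc : c = 0
      · simp [hc]
      · simp [hc, hy1.symm]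
    rw [h5, hc2, card_singleton]
  · intro v hv
    rw [mem_singleton.1 hv]
    have h6 : ({1, 2} : Finset (Fin 3)) ⊆ univ.filter (fun c : Fin 3 =>
        (if c = 0 then ({y, z1} : Finset V) else {y}) = {y}) := by
      intro c hc
      rw [mem_filter]
      refine ⟨mem_univ _, ?_⟩
      rw [if_neg]
      rintro rfl
      simp at hc
    have h7 := card_le_card h6
    have h8 : ({1, 2} : Finset (Fin 3)).card = 2 := by decide
    omega
  · rw [Fintype.card_fin, card_singleton]
    push_cast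
    linarith

end Pool.Agent.Hyp6
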