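import Pool.Agent.Hyp6.KDS

/-!
# HYP6 LEVEL5: no minimal counterexample for the slope `(13, 7, 55)` (owner helper96)

`level5`: from the level-3 theorem `L3e` and the statement `QA` on exceptional components there is no minimal
counterexample to `55 rho ≤ 13 cm + 7 |U|`.
-/

set_option autoImplicit false

namespace Pool.Agent.Hyp6

open Finset Pool.Agent.Hyp5

universe u v

variable {V : Type v} [DecidableEq V] {ι : Type u} [Fintype ι] [DecidableEq ι]

variable {B : ι → Finset V} {U : Finset V} {F : Finset ι} {K : Finset (Finset V)}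

/-- the total of the costs. -/
theorem sum_cst_split (p : Pts B U F K) :
    ∑ i, cst B U F i ≤ ∑ i ∈ NP B U F, cst B U F i + 495 * ∑ z ∈ F, ((tps B U F z).card : ℤ) := by
  classical
  have hc0 : ∀ i, 0 ≤ cst B U F i := by
    intro i
    unfold cst
    split_ifs <;> norm_num
  have h1 : ∑ i, cst B U F i = ∑ i ∈ NP B U F, cst B U F i + ∑ i ∈ univ \ NP B U F, cst B U F i := by
    rw [add_comm]
    exact (sum_sdiff (subset_univ _)).symm
  have h2 : ∑ i ∈ univ \ NP B U F, cst B U F i ≤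
      ∑ z ∈ F, ∑ i ∈ tps B U F z, cst B U F i := by
    rw [← sum_biUnion]
    · rw [← sum_filter_ne_zero]
      refine sum_le_sum_of_subset_of_nonneg (fun i hi' => ?_) fun i _ _ => hc0 i
      obtain ⟨hi, hne⟩ := mem_filter.1 hi'
      have hKB : i ∈ KB B U F := by
        by_contra hcon
        apply hne
        unfold cst
        rw [if_neg hcon]
      have hw := p.kb_ww hKB
      have hiF : i ∉ F := by
        intro hF
        have := Pack.ww_eq_zero (B := B) (U := U) hF
        omega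
      have hP : Priv B U F i := by
        by_contra hcon
        rw [mem_sdiff] at hi
        exact hi.2 (mem_NP.2 ⟨hiF, hcon⟩)
      obtain ⟨z, hz, hPz⟩ := hP.exists
      exact mem_biUnion.2 ⟨z, hz, mem_tps.2 ⟨hPz, mem_KB.1 hKB⟩⟩
    · intro z hz z' hz' hne
      show Disjoint _ _
      rw [Finset.disjoint_left]
      intro i hi hi'
      exact hne ((mem_tps.1 hi).1.unique p.h.pack hz hz' (mem_tps.1 hi').1)
  have h3 : ∀ z ∈ F, ∑ i ∈ tps B U F z, cst B U F i ≤ 495 * ((tps B U F z).card : ℤ) := by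
    intro z _
    calc ∑ i ∈ tps B U F z, cst B U F i ≤ ∑ i ∈ tps B U F z, 495 := by
          refine sum_le_sum fun i hi => ?_
          obtain ⟨hP, _⟩ := mem_tps.1 hi
          have g1 := hh_add_ww (B := B) U F i
          have g2 := hP.1.2.1
          have g3 := hP.1.2.2
          unfold cst
          rw [if_neg (show ww B U F i ≠ 3 by omega)]
          split_ifs <;> norm_num
      _ = 495 * ((tps B U F z).card : ℤ) := by
          rw [sum_const, nsmul_eq_mul, mul_comm]
  have h4 := sum_le_sum h3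
  rw [← mul_sum] at h4
  linarith

omit [DecidableEq ι] in
/-- the K-doubles. -/
theorem sum_kk (hF : Pack B U 5 F) : ∑ z ∈ F, kk B U F z = 2 * (KDb B U F).card := by
  unfold kk
  rw [sum_comm, sum_congr rfl fun b hb => KDb_sum hF hb, sum_const, smul_eq_mul, mul_comm]

/-- the value of a member. -/
noncomputable def Vl5 (B : ι → Finset V) (U : Finset V) (F : Finset ι) (KA : Finset (Finset V))
    (z : ι) : ℤ :=
  9900 - 675 * (pp B U F z : ℤ) - 495 * ((tps B U F z).card : ℤ) - 495 * (kk B U F z : ℤ) +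
    550 * ((prB B U F KA z).card : ℤ) + 125 * (∑ i ∈ NP B U F, (uu B U F z i : ℤ)) +
    550 * (∑ i ∈ goodA B U F KA, (uu B U F z i : ℤ))

theorem goodA_sub (KA : Finset (Finset V)) : goodA B U F KA ⊆ NP B U F := by
  classical
  intro i hi
  unfold goodA at hi
  rw [mem_filter] at hi
  exact mem_NP.2 ⟨hi.2.1, hi.2.2.1⟩

/-- the summation over the blocks and the parts. -/
theorem total_ge (p : Pts B U F K) {KA : Finset (Finset V)} (hKA : KA ⊆ K)
    (hA : ∀ C ∈ KA, MdA B C) (hB : ∀ C ∈ K, C ∉ KA → MdB B C) :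
    ∑ z ∈ F, Vl5 B U F KA z ≤ 550 * ∑ C ∈ K, MM B C + ∑ j ∈ F, (9900 - 675 * (pp B U F j : ℤ)) +
      ∑ i ∈ NP B U F, kept (hh B U F i) (ww B U F i) := by
  classical
  have h1 := p.comp_side hKA hA hB
  have h2 := sum_cst_split p
  have h3 := sum_le_sum fun i (hi : i ∈ NP B U F) => block_bal p hKA hi
  simp only [sum_add_distrib, ← mul_sum] at h3
  have h4 : ∑ i ∈ NP B U F, ∑ C ∈ KA, pay (B i ∩ C).card ≤ ∑ C ∈ KA, 550 * (NN B C : ℤ) := by
    rw [← sum_congr rfl fun C _ => sum_pay C, sum_comm]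
    refine sum_le_sum fun C _ => ?_
    exact sum_le_sum_of_subset_of_nonneg (subset_univ _) fun i _ _ => pay_nonneg _
  have h5 : ∑ i ∈ NP B U F, (if i ∈ KDb B U F then (990 : ℤ) else 0) ≤
      495 * ∑ z ∈ F, (kk B U F z : ℤ) := by
    have e := sum_kk (B := B) (U := U) p.h.pack
    have e' : (∑ z ∈ F, (kk B U F z : ℤ)) = 2 * ((KDb B U F).card : ℤ) := by exact_mod_cast e
    rw [e', ← sum_filter, sum_const, nsmul_eq_mul]
    have : (((NP B U F).filter (fun i => i ∈ KDb B U F)).card : ℤ) ≤ (KDb B U F).card := by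
      exact_mod_cast card_le_card fun i hi => (mem_filter.1 hi).2
    linarith
  have h6 : ∑ i ∈ NP B U F, (if i ∈ goodA B U F KA then
      550 * (∑ z ∈ F, (uu B U F z i : ℤ)) else 0) =
      550 * ∑ z ∈ F, ∑ i ∈ goodA B U F KA, (uu B U F z i : ℤ) := by
    rw [← sum_filter, filter_mem_eq_inter, inter_eq_right.2 (goodA_sub KA), ← mul_sum, sum_comm]
  have h7 : ∑ i ∈ NP B U F, ∑ z ∈ F, (uu B U F z i : ℤ) =
      ∑ z ∈ F, ∑ i ∈ NP B U F, (uu B U F z i : ℤ) := sum_comm
  have h8 : ∑ z ∈ F, Vl5 B U F KA z = ∑ z ∈ F, (9900 - 675 * (pp B U F z : ℤ)) -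
      495 * ∑ z ∈ F, ((tps B U F z).card : ℤ) - 495 * ∑ z ∈ F, (kk B U F z : ℤ) +
      550 * ∑ z ∈ F, ((prB B U F KA z).card : ℤ) +
      125 * ∑ z ∈ F, ∑ i ∈ NP B U F, (uu B U F z i : ℤ) +
      550 * ∑ z ∈ F, ∑ i ∈ goodA B U F KA, (uu B U F z i : ℤ) := by
    unfold Vl5
    simp only [sum_add_distrib, sum_sub_distrib, ← mul_sum]
  rw [h6, h7] at h3
  linarith

/-- a member which is not rich. -/
theorem poor_Vl (h : OptPack B U F) (p : Pts B U F K) {KA : Finset (Finset V)} (hKA : KA ⊆ K)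
    {z : ι} (hz : z ∈ F) (hnr : ¬ Rich B U F z) (hcl : (cl B U F z).card ≤ 15 + dns B U z) :
    0 ≤ Vl5 B U F KA z + (rcv B U F z : ℤ) := by
  classical
  have h0 : tps B U F z = ∅ := by
    rw [eq_empty_iff_forall_notMem]
    intro i hi
    obtain ⟨hP, X, hX, hiX⟩ := mem_tps.1 hi
    exact hnr (h.rich_of hz (hP.onl h.mp.pack hz) hX hiX)
  have h1 := VZ_ge p.h p.hr p.sep p.un hKA hz hcl
  obtain ⟨h2, h3⟩ := poor_bal h p.hr p.h5 hz hnr
  have h4 : prB B U F KA z = priB B U F KA z := by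
    unfold prB
    rw [h0]
    simp
  have h5 : (∑ i ∈ goodA B U F KA, (uu B U F z i : ℤ)) ≤
      ∑ i ∈ NP B U F, (uu B U F z i : ℤ) :=
    sum_le_sum_of_subset_of_nonneg (goodA_sub KA) fun i _ _ => by positivity
  have h6 : (0 : ℤ) ≤ ∑ i ∈ goodA B U F KA, (uu B U F z i : ℤ) :=
    sum_nonneg fun i _ => by positivity
  have h7 : (0 : ℤ) ≤ ((priB B U F KA z).card : ℤ) := by positivity
  unfold Vl5
  rw [h0, h4, card_empty]
  rcases Nat.le_total (pp B U F z) 14 with g | g
  · have h8 := h2 g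
    have h9 : (675 : ℤ) * pp B U F z + 495 * kk B U F z ≤ 9900 + rcv B U F z := by
      exact_mod_cast h8
    push_cast
    linarith
  · have h8 := h3 g
    have h9 : (495 : ℤ) * kk B U F z ≤ 450 + rcv B U F z := by exact_mod_cast h8
    push_cast
    linarith

/-- a rich member. -/
theorem rich_Vl (h : OptPack B U F) (p : Pts B U F K) (ov : NoOv B U F)
    (KA : Finset (Finset V)) {z : ι} (hz : z ∈ F) (hR : Rich B U F z) :
    (dem B U F z : ℤ) ≤ Vl5 B U F KA z := by
  classical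
  obtain ⟨Y, h1, h2, h3⟩ := hR
  have r : RY B U F z Y := ⟨h, p.hr, p.h5, ov, ⟨hz, h1, h2, h3⟩⟩
  have h4 := r.rich_bal
  have h5 : (675 : ℤ) * pp B U F z + 495 * (tps B U F z).card + 495 * kk B U F z + dem B U F z ≤
      9900 + 125 * ∑ i ∈ NP B U F, (uu B U F z i : ℤ) := by exact_mod_cast h4
  have h6 : (0 : ℤ) ≤ ∑ i ∈ goodA B U F KA, (uu B U F z i : ℤ) :=
    sum_nonneg fun i _ => by positivity
  have h7 : (0 : ℤ) ≤ ((prB B U F KA z).card : ℤ) := by positivity
  unfold Vl5
  linarith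

end Pool.Agent.Hyp6

namespace Pool.Agent.Hyp6

open Finset Pool.Agent.Hyp5

universe u v

/-- **level 5.** -/
theorem level5 {V : Type v} [DecidableEq V] (hL3 : L3e.{u} V) (hQA : QA.{u} V) {ι : Type u}
    [Fintype ι] {B : ι → Finset V} {U : Finset V} (h : MinC 13 7 55 B U) : False := by
  classical
  obtain ⟨F, hO, hdense⟩ := exists_opt_dense h.reg
    (fun I hI ht => h.clique13 hI ht)
  obtain ⟨K, hK1, hK2, hK3⟩ := exists_parts B (U \ F.biUnion B)
  have p : Pts B U F K := ⟨hO.mp, h.reg, h.five, hK1, hK2, hK3,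
    fun C hC => h.hd (by norm_num) hO.mp (hK1 C hC).1⟩
  have hbig : 13 * cm B U + 7 * U.card < 55 * rho B U := by
    have := h.gt
    omega
  have ov : NoOv B U F := fun z hz X hX Y hY hYs hYz =>
    hO.OV h.reg h.five h.conn hbig hz hX hY hYs hYz
  set KA := K.filter (fun C => MdA B C) with hKAd
  have hKA : KA ⊆ K := filter_subset _ _
  have hA : ∀ C ∈ KA, MdA B C := fun C hC => (mem_filter.1 hC).2
  have hB : ∀ C ∈ K, C ∉ KA → MdB B C := by
    intro C hC hnA
    rcases ineqH2 hL3 hQA (p.rC hC) (p.t4 hC) (p.hd C hC) (p.part C hC).2.2 with g | g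
    · exact absurd (mem_filter.2 ⟨hC, g⟩) hnA
    · exact g
  have h1 := total_ge p hKA hA hB
  have h2 := val_disch hO.mp.pack h.reg h.five hK2 hK3
  have h3 : ∑ i ∈ (univ \ F).filter (fun i => ¬ Priv B U F i), kept (hh B U F i) (ww B U F i) =
      ∑ i ∈ NP B U F, kept (hh B U F i) (ww B U F i) := by
    refine sum_congr ?_ fun _ _ => rfl
    ext i
    rw [mem_NP]
    simp
  rw [h3] at h2
  have h4 : 0 ≤ ∑ z ∈ F, Vl5 B U F KA z := by
    have e := sum_filter_add_sum_filter_not F (fun z => Rich B U F z) (fun z => Vl5 B U F KA z)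
    have g1 : ∑ z ∈ F.filter (fun z => Rich B U F z), (dem B U F z : ℤ) ≤
        ∑ z ∈ F.filter (fun z => Rich B U F z), Vl5 B U F KA z :=
      sum_le_sum fun z hz => rich_Vl hO p ov KA (mem_filter.1 hz).1 (mem_filter.1 hz).2
    have g2 : 0 ≤ ∑ z ∈ F.filter (fun z => ¬ Rich B U F z),
        (Vl5 B U F KA z + (rcv B U F z : ℤ)) :=
      sum_nonneg fun z hz => poor_Vl hO p hKA (mem_filter.1 hz).1 (mem_filter.1 hz).2
        (hdense z (mem_filter.1 hz).1 (mem_filter.1 hz).2)
    have g3 := flow hO h.reg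
    have g4 : ∑ z ∈ F.filter (fun z => ¬ Rich B U F z), (rcv B U F z : ℤ) ≤
        ∑ z ∈ F.filter (fun z => Rich B U F z), (dem B U F z : ℤ) := by exact_mod_cast g3
    rw [sum_add_distrib] at g2
    linarith
  have h5 : (13 * cm B U + 7 * U.card - 55 * rho B U : ℤ) < 0 := by
    have : ((13 * cm B U + 7 * U.card : ℕ) : ℤ) < ((55 * rho B U : ℕ) : ℤ) := by
      exact_mod_cast hbig
    push_cast at this
    linarith
  linarith

end Pool.Agent.Hyp6
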