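import Pool.Agent.Hyp6.L4Defs

/-!
# HYP6 L4ABS: abstract systems with traces of at most four points, absorption
-/

set_option autoImplicit false

namespace Pool.Agent.Hyp6

open Finset Pool.Agent.Hyp5

universe u v

section

variable {V : Type v} [DecidableEq V] {ι : Type u} {κ : Type}

open Classical in
/-- the data of a general abstract system with traces of at most four points. -/
structure AbsD [Fintype κ] (B : ι → Finset V) (C Y : Finset V) (E : V → Finset ι)
    (N : κ → Finset V) : Prop where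
  dis : Disjoint C Y
  meets : ∀ y ∈ Y, ∀ i ∈ E y, (B i ∩ C).Nonempty
  ne : ∀ y ∈ Y, (E y).Nonempty
  subN : ∀ c, N c ⊆ Y
  neN : ∀ c, (N c).Nonempty
  deg : ∀ y ∈ Y, (E y).card + (univ.filter (fun c => y ∈ N c)).card = 5
  size : ∀ i, (B i ∩ C).card + (Y.filter (fun y => i ∈ E y)).card ≤ 4
  sizeN : ∀ c, (N c).card ≤ 4
  small : ∀ S ⊆ Y, S.Nonempty → (∃ c, (N c ∩ S).Nonempty ∧ (N c ∩ S).card ≤ 2) ∨
    ∃ y ∈ S, ∃ i ∈ E y, (B i ∩ C).card + (Y.filter (fun y => i ∈ E y)).card ≤ 2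

variable {B : ι → Finset V} {C Y : Finset V} {E : V → Finset ι} {N : κ → Finset V}

variable [Fintype κ]

theorem AbsD.notMem (h : AbsD B C Y E N) {v : V} (hv : v ∈ C) : v ∉ Y :=
  fun h' => disjoint_left.1 h.dis hv h'

theorem AbsD.notMem' (h : AbsD B C Y E N) {v : V} (hv : v ∈ Y) : v ∉ C :=
  fun h' => disjoint_left.1 h.dis h' hv

theorem AbsD.mem_C (h : AbsD B C Y E N) {v : V} (hv : v ∈ C) {k : ι ⊕ κ} :
    v ∈ absG B C Y E N k ↔ ∃ i, k = Sum.inl i ∧ v ∈ B i := by
  rcases k with i | c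
  · rw [mem_absG_inl]
    constructor
    · rintro (h1 | h1)
      · exact ⟨i, rfl, h1.1⟩
      · exact absurd h1.1 (h.notMem hv)
    · rintro ⟨j, hj, hvj⟩
      have : i = j := Sum.inl.inj hj
      subst this
      exact Or.inl ⟨hvj, hv⟩
  · rw [mem_absG_inr]
    constructor
    · intro h1
      exact absurd (h.subN c h1) (h.notMem hv)
    · rintro ⟨j, hj, _⟩
      exact absurd hj (by simp)

theorem AbsD.mem_Y (h : AbsD B C Y E N) {v : V} (hv : v ∈ Y) {k : ι ⊕ κ} :
    v ∈ absG B C Y E N k ↔ (∃ i ∈ E v, k = Sum.inl i) ∨ ∃ c, k = Sum.inr c ∧ v ∈ N c := by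
  rcases k with i | c
  · rw [mem_absG_inl]
    constructor
    · rintro (h1 | h1)
      · exact absurd h1.2 (h.notMem' hv)
      · exact Or.inl ⟨i, h1.2, rfl⟩
    · rintro (⟨j, hj, hk⟩ | ⟨c, hc, _⟩)
      · have : i = j := Sum.inl.inj hk
        subst this
        exact Or.inr ⟨hv, hj⟩
      · exact absurd hc (by simp)
  · rw [mem_absG_inr]
    constructor
    · intro h1
      exact Or.inr ⟨c, rfl, h1⟩
    · rintro (⟨j, _, hj⟩ | ⟨d, hd, hvd⟩)
      · exact absurd hj (by simp)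
      · have : c = d := Sum.inr.inj hd
        subst this
        exact hvd

theorem AbsD.inter_self (h : AbsD B C Y E N) (k : ι ⊕ κ) :
    absG B C Y E N k ∩ (C ∪ Y) = absG B C Y E N k := by
  refine inter_eq_left.2 fun v hv => ?_
  rcases k with i | c
  · rw [mem_absG_inl] at hv
    rcases hv with h1 | h1
    · exact mem_union_left _ h1.2
    · exact mem_union_right _ h1.1
  · rw [mem_absG_inr] at hv
    exact mem_union_right _ (h.subN c hv)

theorem AbsD.tr4 (h : AbsD B C Y E N) : Tr4 (absG B C Y E N) (C ∪ Y) := by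
  classical
  intro k
  rw [h.inter_self]
  rcases k with i | c
  · refine (card_union_le _ _).trans ?_
    convert h.size i using 3
  · exact h.sizeN c

/-- the edges inside `C` are the old ones. -/
theorem AbsD.adj_C (h : AbsD B C Y E N) {u v : V} (hu : u ∈ C) (hv : v ∈ C) :
    (gr (absG B C Y E N)).Adj u v ↔ (gr B).Adj u v := by
  constructor
  · rintro ⟨hne, k, hk1, hk2⟩
    obtain ⟨i, rfl, hi⟩ := (h.mem_C hu).1 hk1
    obtain ⟨j, hj, hvj⟩ := (h.mem_C hv).1 hk2
    have : i = j := Sum.inl.inj hj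
    subst this
    exact ⟨hne, i, hi, hvj⟩
  · rintro ⟨hne, i, hi, hj⟩
    exact ⟨hne, Sum.inl i, (h.mem_C hu).2 ⟨i, rfl, hi⟩, (h.mem_C hv).2 ⟨i, rfl, hj⟩⟩

/-- a new point is adjacent to the points of `C` in its blocks. -/
theorem AbsD.adj_Y (h : AbsD B C Y E N) {y u : V} (hy : y ∈ Y) (hu : u ∈ C) {i : ι}
    (hi : i ∈ E y) (hui : u ∈ B i) : (gr (absG B C Y E N)).Adj y u :=
  ⟨fun he => h.notMem' hy (he ▸ hu), Sum.inl i, (h.mem_Y hy).2 (Or.inl ⟨i, hi, rfl⟩),
    (h.mem_C hu).2 ⟨i, rfl, hui⟩⟩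

/-- the abstract system is connected. -/
theorem AbsD.conn (h : AbsD B C Y E N) (hC : Conn (gr B) C) :
    Conn (gr (absG B C Y E N)) (C ∪ Y) := by
  refine ⟨hC.1.mono subset_union_left, fun Z hZ hne => ?_⟩
  have hY : ∀ y ∈ Y, ∃ u ∈ C, (gr (absG B C Y E N)).Adj y u := by
    intro y hy
    obtain ⟨i, hi⟩ := h.ne y hy
    obtain ⟨u, hu⟩ := h.meets y hy i hi
    rw [mem_inter] at hu
    exact ⟨u, hu.2, h.adj_Y hy hu.2 hi hu.1⟩
  have h1 : (Z ∩ C).Nonempty := by
    obtain ⟨z, hz⟩ := hne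
    rcases mem_union.1 (hZ.1 hz) with hzC | hzY
    · exact ⟨z, mem_inter.2 ⟨hz, hzC⟩⟩
    · obtain ⟨u, hu, hadj⟩ := hY z hzY
      exact ⟨u, mem_inter.2 ⟨hZ.2 z hz u (mem_union_left _ hu) hadj, hu⟩⟩
  have h2 : Closed (gr B) C (Z ∩ C) := by
    refine ⟨inter_subset_right, fun x hx y hy hxy => ?_⟩
    rw [mem_inter] at hx ⊢
    exact ⟨hZ.2 x hx.1 y (mem_union_left _ hy) ((h.adj_C hx.2 hy).2 hxy), hy⟩
  have h3 : Z ∩ C = C := hC.2 _ h2 h1
  have hCZ : C ⊆ Z := by rw [← h3]; exact inter_subset_left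
  refine Subset.antisymm hZ.1 fun v hv => ?_
  rcases mem_union.1 hv with hv | hv
  · exact hCZ hv
  · obtain ⟨u, hu, hadj⟩ := hY v hv
    exact hZ.2 u (hCZ hu) v (mem_union_right _ hv) hadj.symm

variable [Fintype ι]

theorem AbsD.reg (h : AbsD B C Y E N) (hr : Reg B C) :
    Reg (absG B C Y E N) (C ∪ Y) := by
  classical
  intro v hv
  rw [card_filter_sum]
  rcases mem_union.1 hv with hv | hv
  · have h1 : (univ.filter (fun i : ι => v ∈ absG B C Y E N (Sum.inl i))) =
        univ.filter (fun i => v ∈ B i) := by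
      ext i
      rw [mem_filter, mem_filter, h.mem_C hv]
      simp
    have h2 : (univ.filter (fun c : κ => v ∈ absG B C Y E N (Sum.inr c))) = ∅ := by
      ext c
      rw [mem_filter, h.mem_C hv]
      simp
    rw [h1, h2, hr v hv, card_empty]
  · have h1 : (univ.filter (fun i : ι => v ∈ absG B C Y E N (Sum.inl i))) = E v := by
      ext i
      rw [mem_filter, h.mem_Y hv]
      simp
    have h2 : (univ.filter (fun c : κ => v ∈ absG B C Y E N (Sum.inr c))) =
        univ.filter (fun c => v ∈ N c) := by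
      ext c
      rw [mem_filter, mem_filter, mem_absG_inr]
    rw [h1, h2]
    convert h.deg v hv using 2

/-- the number of blocks of the abstract system. -/
theorem AbsD.cm (h : AbsD B C Y E N) :
    cm (absG B C Y E N) (C ∪ Y) = Hyp6.cm B C + Fintype.card κ := by
  classical
  unfold Hyp6.cm tch
  rw [card_filter_sum]
  congr 1
  · congr 1
    ext i
    rw [mem_filter, mem_filter, h.inter_self]
    refine and_congr_right fun _ => ?_
    constructor
    · rintro ⟨v, hv⟩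
      rw [mem_absG_inl] at hv
      rcases hv with h1 | h1
      · exact ⟨v, mem_inter.2 h1⟩
      · exact h.meets v h1.1 i h1.2
    · rintro ⟨v, hv⟩
      exact ⟨v, mem_absG_inl.2 (Or.inl (mem_inter.1 hv))⟩
  · have h1 : (univ.filter (fun c : κ => (absG B C Y E N (Sum.inr c) ∩ (C ∪ Y)).Nonempty)) =
        univ := by
      ext c
      rw [mem_filter, h.inter_self]
      simp only [mem_univ, true_and, iff_true]
      obtain ⟨v, hv⟩ := h.neN c
      exact ⟨v, mem_absG_inr.2 hv⟩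
    rw [h1, card_univ]

/-- a cover of the abstract system gives a cover of `C` and a cover of the remaining new points. -/
theorem AbsD.rho_ge (h : AbsD B C Y E N) {t : ℕ}
    (hcov : Cov (absG B C Y E N) (C ∪ Y))
    (ht : ∀ (T : Finset ι) (K : Finset κ), C ⊆ T.biUnion B →
      (∀ y ∈ Y, (∃ i ∈ T, i ∈ E y) ∨ ∃ c ∈ K, y ∈ N c) → t ≤ T.card + K.card) :
    t ≤ rho (absG B C Y E N) (C ∪ Y) := by
  classical
  refine le_rho hcov fun U hU => ?_
  have hcard : U.card = (univ.filter (fun i : ι => Sum.inl i ∈ U)).card +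
      (univ.filter (fun c : κ => Sum.inr c ∈ U)).card := by
    rw [← card_filter_sum (fun k : ι ⊕ κ => k ∈ U)]
    congr 1
    ext k
    simp
  rw [hcard]
  refine ht _ _ ?_ ?_
  · intro v hv
    obtain ⟨k, hk, hvk⟩ := mem_biUnion.1 (hU (mem_union_left _ hv))
    obtain ⟨i, rfl, hi⟩ := (h.mem_C hv).1 hvk
    exact mem_biUnion.2 ⟨i, mem_filter.2 ⟨mem_univ _, hk⟩, hi⟩
  · intro y hy
    obtain ⟨k, hk, hyk⟩ := mem_biUnion.1 (hU (mem_union_right _ hy))
    rcases (h.mem_Y hy).1 hyk with ⟨i, hi, rfl⟩ | ⟨c, rfl, hc⟩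
    · exact Or.inl ⟨i, mem_filter.2 ⟨mem_univ _, hk⟩, hi⟩
    · exact Or.inr ⟨c, mem_filter.2 ⟨mem_univ _, hk⟩, hc⟩

/-- the potential of the abstract system. -/
theorem AbsD.Pv_eq (h : AbsD B C Y E N) :
    Pv (absG B C Y E N) (C ∪ Y) = Pv B C + 5 * (Y.card : ℤ) + 4 * (Fintype.card κ : ℤ) -
      24 * ((rho (absG B C Y E N) (C ∪ Y) : ℤ) - rho B C) := by
  rw [Hyp6.Pv_eq, Hyp6.Pv_eq, h.cm, card_union_of_disjoint h.dis]
  push_cast
  ring

omit [Fintype ι] in
/-- the traces on a subset of `C`. -/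
theorem AbsD.inter_sub (h : AbsD B C Y E N) {X : Finset V} (hX : X ⊆ C) (i : ι) :
    absG B C Y E N (Sum.inl i) ∩ X = B i ∩ X := by
  ext v
  rw [mem_inter, mem_inter]
  constructor
  · rintro ⟨h1, h2⟩
    obtain ⟨j, hj, hvj⟩ := (h.mem_C (hX h2)).1 h1
    have : i = j := Sum.inl.inj hj
    subst this
    exact ⟨hvj, h2⟩
  · rintro ⟨h1, h2⟩
    exact ⟨(h.mem_C (hX h2)).2 ⟨i, rfl, h1⟩, h2⟩

omit [Fintype ι] in
theorem AbsD.inter_sub' (h : AbsD B C Y E N) {X : Finset V} (hX : X ⊆ C) (c : κ) :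
    absG B C Y E N (Sum.inr c) ∩ X = ∅ := by
  ext v
  rw [mem_inter, mem_absG_inr]
  constructor
  · rintro ⟨h1, h2⟩
    exact absurd (h.subN c h1) (h.notMem (hX h2))
  · intro h1
    exact absurd h1 (notMem_empty _)

theorem AbsD.cm_sub (h : AbsD B C Y E N) {X : Finset V} (hX : X ⊆ C) :
    Hyp6.cm (absG B C Y E N) X = Hyp6.cm B X := by
  classical
  unfold Hyp6.cm tch
  rw [card_filter_sum]
  have h2 : (univ.filter (fun c : κ => (absG B C Y E N (Sum.inr c) ∩ X).Nonempty)) = ∅ := by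
    ext c
    rw [mem_filter, h.inter_sub' hX]
    simp
  rw [h2, card_empty, Nat.add_zero]
  congr 1
  ext i
  rw [mem_filter, mem_filter, h.inter_sub hX]

theorem AbsD.rho_sub (h : AbsD B C Y E N) (hr : Reg B C) {X : Finset V} (hX : X ⊆ C) :
    rho (absG B C Y E N) X = rho B X := by
  classical
  have hc : Cov B X := cov_of_reg (hr.mono hX)
  have hc' : Cov (absG B C Y E N) X := by
    intro v hv
    obtain ⟨i, hi⟩ := hc v hv
    exact ⟨Sum.inl i, (h.mem_C (hX hv)).2 ⟨i, rfl, hi⟩⟩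
  refine le_antisymm ?_ ?_
  · obtain ⟨T, hT, hTc⟩ := exists_cover hc
    rw [← hTc, ← card_image_of_injective T (Sum.inl_injective (β := κ))]
    refine rho_le fun v hv => ?_
    obtain ⟨i, hi, hvi⟩ := mem_biUnion.1 (hT hv)
    exact mem_biUnion.2 ⟨Sum.inl i, mem_image_of_mem _ hi, (h.mem_C (hX hv)).2 ⟨i, rfl, hvi⟩⟩
  · refine le_rho hc' fun U hU => ?_
    have h1 : X ⊆ (univ.filter (fun i : ι => Sum.inl i ∈ U)).biUnion B := by
      intro v hv
      obtain ⟨k, hk, hvk⟩ := mem_biUnion.1 (hU hv)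
      obtain ⟨i, rfl, hi⟩ := (h.mem_C (hX hv)).1 hvk
      exact mem_biUnion.2 ⟨i, mem_filter.2 ⟨mem_univ _, hk⟩, hi⟩
    refine (rho_le h1).trans ?_
    rw [← card_image_of_injective _ (Sum.inl_injective (α := ι) (β := κ))]
    refine card_le_card fun k hk => ?_
    obtain ⟨i, hi, rfl⟩ := mem_image.1 hk
    exact (mem_filter.1 hi).2

/-- the K-pieces of the abstract system are those of `C`. -/
theorem AbsD.kp (h : AbsD B C Y E N) (hr : Reg B C) {X : Finset V} (hX : X ⊆ C ∪ Y)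
    (hKP : KP (absG B C Y E N) X) : X ⊆ C ∧ KP B X := by
  classical
  by_cases hY : (X ∩ Y).Nonempty
  · exfalso
    rcases h.small (X ∩ Y) inter_subset_right hY with ⟨c, hc1, hc2⟩ | ⟨y, hy, i, hi, hi2⟩
    · have h1 : N c ∩ (X ∩ Y) = absG B C Y E N (Sum.inr c) ∩ X := by
        ext v
        rw [mem_inter, mem_inter, mem_inter, mem_absG_inr]
        constructor
        · rintro ⟨h2, h3, _⟩
          exact ⟨h2, h3⟩
        · rintro ⟨h2, h3⟩
          exact ⟨h2, h3, h.subN c h2⟩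
      rw [h1] at hc1 hc2
      have h2 := hKP.trace ((h.reg hr).mono hX) hc1
      omega
    · rw [mem_inter] at hy
      have h2 := hKP.trace ((h.reg hr).mono hX) (i := Sum.inl i)
        ⟨y, mem_inter.2 ⟨(h.mem_Y hy.2).2 (Or.inl ⟨i, hi, rfl⟩), hy.1⟩⟩
      have h3 : (absG B C Y E N (Sum.inl i) ∩ X).card ≤
          (B i ∩ C).card + (Y.filter (fun y => i ∈ E y)).card := by
        refine (card_le_card inter_subset_left).trans ((card_union_le _ _).trans ?_)
        apply le_of_eq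
        congr 2
      omega
  · rw [not_nonempty_iff_eq_empty] at hY
    have hXC : X ⊆ C := by
      intro v hv
      rcases mem_union.1 (hX hv) with h1 | h1
      · exact h1
      · have : v ∈ X ∩ Y := mem_inter.2 ⟨hv, h1⟩
        rw [hY] at this
        exact absurd this (notMem_empty _)
    refine ⟨hXC, fun i => ?_, hKP.2.1, ?_, ?_⟩
    · have := hKP.1 (Sum.inl i)
      rw [h.inter_sub hXC] at this
      exact this
    · rw [← h.cm_sub hXC]
      exact hKP.2.2.1
    · rw [← h.rho_sub hr hXC]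
      exact hKP.2.2.2

/-- the abstract system is K-free. -/
theorem AbsD.kfree (h : AbsD B C Y E N) (hr : Reg B C) (hk : KFree B C) :
    KFree (absG B C Y E N) (C ∪ Y) := fun _ hX hKP => hk _ (h.kp hr hX hKP).1 (h.kp hr hX hKP).2

/-- points with two single traces in `Q` keep them, and new points with two new single blocks are
counted. -/
theorem AbsD.ee_ge (h : AbsD B C Y E N) {Q : Finset V} (hCQ : C ⊆ Q)
    (hE : ∀ y ∈ Y, ∀ i ∈ E y, 2 ≤ (B i ∩ Q).card) {Y2 : Finset V} (hY2 : Y2 ⊆ Y)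
    (hN2 : ∀ y ∈ Y2, 2 ≤ (univ.filter (fun c => N c = {y})).card) :
    ee B Q C + Y2.card ≤ ee (absG B C Y E N) (C ∪ Y) (C ∪ Y) := by
  classical
  have key : ∀ t ∈ C, (univ.filter (fun i => B i ∩ Q = {t})).card ≤
      (univ.filter (fun k => absG B C Y E N k ∩ (C ∪ Y) = {t})).card := by
    intro t ht
    rw [card_filter_sum]
    refine le_trans (card_le_card fun i hi => ?_) (Nat.le_add_right _ _)
    rw [mem_filter] at hi ⊢
    refine ⟨mem_univ _, ?_⟩
    rw [h.inter_self]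
    have ht' : t ∈ B i := by
      have : t ∈ B i ∩ Q := by rw [hi.2]; exact mem_singleton_self t
      exact (mem_inter.1 this).1
    ext v
    rw [mem_absG_inl, mem_singleton]
    constructor
    · rintro (h1 | h1)
      · have : v ∈ B i ∩ Q := mem_inter.2 ⟨h1.1, hCQ h1.2⟩
        rw [hi.2] at this
        exact mem_singleton.1 this
      · have h2 := hE v h1.1 i h1.2
        rw [hi.2, card_singleton] at h2
        omega
    · rintro rfl
      exact Or.inl ⟨ht', ht⟩
  have key2 : ∀ y ∈ Y2, 2 ≤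
      (univ.filter (fun k => absG B C Y E N k ∩ (C ∪ Y) = {y})).card := by
    intro y hy
    rw [card_filter_sum]
    refine le_trans ((hN2 y hy).trans (card_le_card fun c hc => ?_)) (Nat.le_add_left _ _)
    rw [mem_filter] at hc ⊢
    refine ⟨mem_univ _, ?_⟩
    rw [h.inter_self]
    exact hc.2
  have hd : Disjoint (C.filter (fun t => 2 ≤ (univ.filter (fun i => B i ∩ Q = {t})).card)) Y2 :=
    disjoint_of_subset_left (filter_subset _ _) (disjoint_of_subset_right hY2 h.dis)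
  unfold ee
  rw [← card_union_of_disjoint hd]
  refine card_le_card fun t ht => ?_
  rw [mem_filter]
  rcases mem_union.1 ht with ht | ht
  · rw [mem_filter] at ht
    exact ⟨mem_union_left _ ht.1, ht.2.trans (key t ht.1)⟩
  · exact ⟨mem_union_right _ (hY2 ht), key2 t ht⟩

/-- absorption. -/
theorem AbsD.absorb {n : ℕ} (ih : IH4.{u} V n) (h : AbsD B C Y E N) (hr : Reg B C)
    (hC : Conn (gr B) C) (hk : KFree B C) (hn : C.card + Y.card < n) {Q : Finset V} (hCQ : C ⊆ Q)
    (hE : ∀ y ∈ Y, ∀ i ∈ E y, 2 ≤ (B i ∩ Q).card) {Y2 : Finset V} (hY2 : Y2 ⊆ Y)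
    (hN2 : ∀ y ∈ Y2, 2 ≤ (univ.filter (fun c => N c = {y})).card)
    (hd : dv B Q C + 5 * (Y.card : ℤ) + 4 * (Fintype.card κ : ℤ) ≤ 22 + 2 * (Y2.card : ℤ)) :
    ∃ T : Finset ι, C ⊆ T.biUnion B ∧ T.card ≤ rho B C ∧ ∀ y ∈ Y, ∃ i ∈ T, i ∈ E y := by
  classical
  by_contra hcon
  push Not at hcon
  have hreg := h.reg hr
  have h1 : rho B C + 1 ≤ rho (absG B C Y E N) (C ∪ Y) := by
    refine h.rho_ge (cov_of_reg hreg) fun T K hT hK => ?_
    have h2 := rho_le hT
    rcases K.eq_empty_or_nonempty with rfl | hKne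
    · by_contra h3
      have h4 : T.card ≤ rho B C := by
        rw [card_empty] at h3
        omega
      obtain ⟨y, hy, h5⟩ := hcon T hT h4
      rcases hK y hy with ⟨i, hi, hiE⟩ | ⟨c, hc, _⟩
      · exact h5 i hi hiE
      · exact absurd hc (notMem_empty _)
    · have := card_pos.2 hKne
      omega
  have h2 := ih (ι ⊕ κ) (absG B C Y E N) (C ∪ Y)
    (by rw [card_union_of_disjoint h.dis]; exact hn) hreg h.tr4 (h.conn hC) (h.kfree hr hk)
  rw [h.Pv_eq] at h2
  have h3 : ((rho B C : ℕ) : ℤ) + 1 ≤ rho (absG B C Y E N) (C ∪ Y) := by exact_mod_cast h1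
  have h4 := h.ee_ge hCQ hE hY2 hN2
  have h5 : (ee B Q C : ℤ) + Y2.card ≤ ee (absG B C Y E N) (C ∪ Y) (C ∪ Y) := by
    exact_mod_cast h4
  unfold dv at hd
  linarith

end

end Pool.Agent.Hyp6
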