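import Pool.Agent.Hyp6.Seven
import Pool.Agent.Hyp6.L4Abs
import Pool.Agent.Hyp6.L4F

/-!
# HYP6 QBASE: the members of the class E with three points absorb `4444`
-/

set_option autoImplicit false

namespace Pool.Agent.Hyp6

open Finset Pool.Agent.Hyp5

universe u v

section

variable {V : Type v} [DecidableEq V] {κ : Type u} [Fintype κ] {B : κ → Finset V}

theorem base44 {Q C Y : Finset V} (hr : Reg B Q) (h4 : Tr4 B Q) (hCQ : C ⊆ Q) (h3 : C.card = 3)
    (hcm : cm B C = 8) (hrho : rho B C = 2) (hYQ : Y ⊆ Q) (hd : Disjoint C Y) (hY : Y.card = 4)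
    (hE : ∀ y ∈ Y, 4 ≤ (Ez B C y).card) : Abz B C Y := by
  classical
  have hex : ∀ y ∈ Y, ∃ E ⊆ Ez B C y, E.card = 4 := fun y hy => exists_subset_card_eq (hE y hy)
  choose! E hEs hEc using hex
  set N : Unit → Finset V := fun _ => Y with hN
  set B' := absG B C Y E N with hB'
  have hYC : ∀ v ∈ Y, v ∉ C := fun v hv hvC => disjoint_left.1 hd hvC hv
  have hCY : ∀ v ∈ C, v ∉ Y := fun v hv hvY => disjoint_left.1 hd hv hvY
  have hreg : Reg B' (C ∪ Y) := by
    intro v hv
    rw [card_filter_sum]
    rcases mem_union.1 hv with hv | hv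
    · have h1 : (univ.filter (fun i : κ => v ∈ B' (Sum.inl i))) =
          univ.filter (fun i => v ∈ B i) := by
        ext i
        rw [mem_filter, mem_filter, hB', mem_absG_inl]
        constructor
        · rintro ⟨_, h | h⟩
          · exact ⟨mem_univ _, h.1⟩
          · exact absurd h.1 (hCY v hv)
        · rintro ⟨_, h⟩
          exact ⟨mem_univ _, Or.inl ⟨h, hv⟩⟩
      have h2 : (univ.filter (fun c : Unit => v ∈ B' (Sum.inr c))) = ∅ := by
        rw [filter_eq_empty_iff]
        intro c _ h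
        rw [hB', mem_absG_inr] at h
        exact hCY v hv h
      rw [h1, h2, hr v (hCQ hv), card_empty]
    · have h1 : (univ.filter (fun i : κ => v ∈ B' (Sum.inl i))) = E v := by
        ext i
        rw [mem_filter, hB', mem_absG_inl]
        constructor
        · rintro ⟨_, h | h⟩
          · exact absurd h.2 (hYC v hv)
          · exact h.2
        · intro h
          exact ⟨mem_univ _, Or.inr ⟨hv, h⟩⟩
      have h2 : (univ.filter (fun c : Unit => v ∈ B' (Sum.inr c))) = univ := by
        rw [filter_eq_self]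
        intro c _
        rw [hB', mem_absG_inr]
        exact hv
      rw [h1, h2, hEc v hv]
      rfl
  have htr : Tr4 B' (C ∪ Y) := by
    rintro (i | c)
    · refine le_trans (card_le_card fun v hv => ?_) (h4 i)
      rw [mem_inter, hB', mem_absG_inl] at hv
      rw [mem_inter]
      rcases hv.1 with h | h
      · exact ⟨h.1, hCQ h.2⟩
      · exact ⟨(mem_Ez.1 (hEs v h.1 h.2)).1, hYQ h.1⟩
    · rw [← hY]
      refine card_le_card fun v hv => ?_
      rw [mem_inter, hB', mem_absG_inr] at hv
      exact hv.1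
  have hcard : (C ∪ Y).card = 7 := by rw [card_union_of_disjoint hd, h3, hY]
  have hcm' : cm B' (C ∪ Y) = 9 := by
    unfold cm tch
    rw [card_filter_sum]
    have h1 : (univ.filter (fun i : κ => (B' (Sum.inl i) ∩ (C ∪ Y)).Nonempty)) = tch B C := by
      ext i
      rw [mem_filter, cost_mem_tch]
      constructor
      · rintro ⟨_, v, hv⟩
        rw [mem_inter, hB', mem_absG_inl] at hv
        rcases hv.1 with h | h
        · exact ⟨v, mem_inter.2 h⟩
        · exact (mem_Ez.1 (hEs v h.1 h.2)).2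
      · rintro ⟨v, hv⟩
        refine ⟨mem_univ _, v, mem_inter.2 ⟨?_, mem_union_left _ (mem_inter.1 hv).2⟩⟩
        rw [hB', mem_absG_inl]
        exact Or.inl (mem_inter.1 hv)
    have h2 : (univ.filter (fun c : Unit => (B' (Sum.inr c) ∩ (C ∪ Y)).Nonempty)) = univ := by
      rw [filter_eq_self]
      intro c _
      obtain ⟨v, hv⟩ := card_pos.1 (by omega : 0 < Y.card)
      refine ⟨v, mem_inter.2 ⟨?_, mem_union_right _ hv⟩⟩
      rw [hB', mem_absG_inr]
      exact hv
    rw [h1, h2]
    have h5 : (tch B C).card = 8 := hcm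
    rw [h5]
    rfl
  have hle := rho_seven hreg htr hcard hcm'
  obtain ⟨U, hU, hUc⟩ := exists_cover (cov_of_reg hreg)
  rw [← hUc] at hle
  -- `C` is not covered by one block
  have hone : ∀ i, ¬ C ⊆ B i := by
    intro i hi
    have h5 : rho B C ≤ ({i} : Finset κ).card := Hyp6.rho_le (by rwa [singleton_biUnion])
    rw [card_singleton] at h5
    omega
  set T : Finset κ := univ.filter (fun i => Sum.inl i ∈ U) with hT
  have hCT : C ⊆ T.biUnion B := by
    intro v hv
    obtain ⟨k, hk, hvk⟩ := mem_biUnion.1 (hU (mem_union_left _ hv))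
    rcases k with i | c
    · rw [hB', mem_absG_inl] at hvk
      rcases hvk with h | h
      · exact mem_biUnion.2 ⟨i, mem_filter.2 ⟨mem_univ _, hk⟩, h.1⟩
      · exact absurd h.1 (hCY v hv)
    · rw [hB', mem_absG_inr] at hvk
      exact absurd hvk (hCY v hv)
  have hTc : 2 ≤ T.card := by
    have h5 := Hyp6.rho_le hCT
    omega
  have hsum : U.card = T.card + (univ.filter (fun c : Unit => Sum.inr c ∈ U)).card := by
    rw [hT, ← card_filter_sum (fun k : κ ⊕ Unit => k ∈ U)]
    congr 1
    ext k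
    simp
  refine ⟨T, union_subset hCT ?_, by omega⟩
  intro y hy
  obtain ⟨k, hk, hyk⟩ := mem_biUnion.1 (hU (mem_union_right _ hy))
  rcases k with i | c
  · rw [hB', mem_absG_inl] at hyk
    rcases hyk with h | h
    · exact absurd h.2 (hYC y hy)
    · exact mem_biUnion.2 ⟨i, mem_filter.2 ⟨mem_univ _, hk⟩, (mem_Ez.1 (hEs y hy h.2)).1⟩
  · exfalso
    have h5 : 0 < (univ.filter (fun c : Unit => Sum.inr c ∈ U)).card :=
      card_pos.2 ⟨c, mem_filter.2 ⟨mem_univ _, hk⟩⟩
    omega

/-- the form used: `Pv = sv = -1` and three points. -/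
theorem base44' {Q C Y : Finset V} (hr : Reg B Q) (h4 : Tr4 B Q) (hCQ : C ⊆ Q) (h3 : C.card = 3)
    (hP : Pv B C = -1) (hs : sv B C = -1) (hYQ : Y ⊆ Q) (hd : Disjoint C Y) (hY : Y.card = 4)
    (hE : ∀ y ∈ Y, 4 ≤ (Ez B C y).card) : Abz B C Y := by
  have hrho : rho B C = 2 := by
    unfold Hyp6.sv at hs
    rw [h3] at hs
    push_cast at hs
    omega
  have hcm : cm B C = 8 := by
    rw [Pv_eq, h3, hrho] at hP
    push_cast at hP
    omega
  exact base44 hr h4 hCQ h3 hcm hrho hYQ hd hY hE

end

end Pool.Agent.Hyp6
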