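import Pool.Agent.Hyp6.QThmG
import Pool.Agent.Hyp6.QBase
import Pool.Agent.Hyp6.QTpp

/-!
# HYP6 QF44: members of the class E absorb four points with four blocks each

The induction: three points (`base44'`), otherwise theorem G gives a good gadget and the step applies.
-/

set_option autoImplicit false

namespace Pool.Agent.Hyp6

open Finset Pool.Agent.Hyp5

universe u v

/-- the step `C = D ∪ W`. -/
def Step44 (V : Type v) [DecidableEq V] : Prop :=
  ∀ (κ : Type u) [Fintype κ] (B : κ → Finset V) (Q C Z : Finset V) (a b c q : V) (o : κ),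
    EE B C → GGad B C a b c q o → Reg B Q → Tr4 B Q → C ⊆ Q → Z ⊆ Q → Disjoint C Z →
    Z.card = 4 → (∀ z ∈ Z, 4 ≤ (Ez B C z).card) →
    ((∀ z ∈ Z, 4 ≤ (Ez B (C \ {a, b, c, q}) z).card) → Abz B (C \ {a, b, c, q}) Z) → Abz B C Z

variable {V : Type v} [DecidableEq V]

/-- the induction. -/
theorem f44_of_step (hT : HT.{u} V) (hS : Step44.{u} V) : F44.{u} V := by
  intro κ _ B Q C Y hr h4 hCQ
  induction hn : C.card using Nat.strong_induction_on generalizing C Y with
  | _ n ih =>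
  intro hconn hk hP hs hYQ hd hY hE
  have hCE : EE B C := EE.of hT ⟨hr.mono hCQ, h4.mono hCQ, hk, hconn⟩ hP hs
  have hmod := ee_mod hCE
  by_cases h3 : C.card = 3
  · exact base44' hr h4 hCQ h3 hP hs hYQ hd hY hE
  have h7 : 7 ≤ C.card := by omega
  obtain ⟨a, b, c, q, o, hg⟩ := thmG hT (C.card + 1) κ B C hCE h7 (Nat.lt_succ_self _)
  have hD : EE B (C \ {a, b, c, q}) := Gad.ee hT hCE hg.toGad
  have hsub : C \ {a, b, c, q} ⊆ C := sdiff_subset
  refine hS κ B Q C Y a b c q o hCE hg hr h4 hCQ hYQ hd hY hE fun hD4 => ?_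
  refine ih (C \ {a, b, c, q}).card ?_ (C \ {a, b, c, q}) Y (hsub.trans hCQ) rfl hD.conn hD.kf
    hD.pv hD.sv hYQ (disjoint_of_subset_left hsub hd) hY hD4
  rw [← hn]
  have h1 := card_sdiff_add_card_eq_card hg.sub
  rw [hg.card] at h1
  omega

end Pool.Agent.Hyp6
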