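import Pool.Agent.Hyp6.Q44d
import Pool.Agent.Hyp6.QF44
import Pool.Agent.Hyp6.QTpp

/-!
# HYP6 QALL: Q-A, final assembly
-/

set_option autoImplicit false

namespace Pool.Agent.Hyp6

open Finset Pool.Agent.Hyp5

universe u v

variable {V : Type v} [DecidableEq V]

/-- every member of the class E absorbs four points with four hits each. -/
theorem f44 (hT : HT.{u} V) : F44.{u} V :=
  f44_of_step hT fun _ _ _ _ _ _ _ _ _ _ _ hC hg hr h4 hCQ hYQ hd hY hE ind =>
    step44 hT hr h4 hCQ hC hg hYQ hd hY hE ind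

/-- Q-A: a connected K-free set with value `-1` has `sv = -1`. -/
theorem QA_all (hL3 : L3e.{u} V) (hL3p : L3p.{u} V) : QA.{u} V :=
  QA_of hL3 hL3p (f44 (T0K hL3))

/-- T0++: value at least `0` if `sv` is positive. -/
theorem T0pp_all (hL3 : L3e.{u} V) (hL3p : L3p.{u} V) : ∀ n, IHP.{u} V n :=
  T0pp hL3 hL3p (f44 (T0K hL3))

end Pool.Agent.Hyp6
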