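import Pool.Agent.Hyp6.L3RB
import Pool.Agent.Hyp6.FinZ
import Pool.Agent.Hyp6.FinT
import Pool.Agent.Hyp6.QAll
import Pool.Agent.Hyp6.Level5

/-!
# HYP6 L3RZ: the final assembly, both clauses

The level-3 theorem from the two kinds of a minimal counterexample (`Viol` with value `0`, `ViolR` with
positive value), and the bound `55 rho <= 13 cm + 7 |U|` for all regular systems.
-/

set_option autoImplicit false

namespace Pool.Agent.Hyp6

open Finset Pool.Agent.Hyp5

universe u v

/-- the level-3 theorems from: no minimal counterexample with value `0`, no minimal counterexample with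
positive value. -/
theorem L3both_of_noR {V : Type v} [DecidableEq V]
    (hno : ∀ (κ : Type u) [Fintype κ] (B : κ → Finset V) (Q : Finset V), Viol B Q → sv B Q ≠ 0)
    (hnoR : ∀ (κ : Type u) [Fintype κ] (B : κ → Finset V) (Q : Finset V), ¬ ViolR B Q) :
    L3e.{u} V ∧ L3r.{u} V := by
  refine L3both_of_partsR (fun κ _ B Q ihE ihR hr h3 hQ hcr hs hK => ?_)
    (fun κ _ B Q ihE ihR hr h3 hQ hcr hs hK => ?_)
  · have h1 := L3zero_of_no hno κ B Q ihE hr h3 hQ hcr hs hK
    have h2 := Pv_eq_Pp (B := B) Q
    linarith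
  · by_contra hcon
    push Not at hcon
    exact hnoR κ B Q ⟨ihE, ihR, hr, h3, hQ, hcr, hs, hK, by unfold dv; linarith⟩

/-- **the final assembly**: the inequality for all regular systems from the two statements on minimal
counterexamples of level 3. -/
theorem dualAll_of_noR
    (hno : ∀ (V κ : Type) [DecidableEq V] [Fintype κ] (B : κ → Finset V) (Q : Finset V),
      Viol B Q → sv B Q ≠ 0)
    (hnoR : ∀ (V κ : Type) [DecidableEq V] [Fintype κ] (B : κ → Finset V) (Q : Finset V),
      ¬ ViolR B Q) : DualAll 13 7 55 := by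
  have hL : ∀ (V : Type) [DecidableEq V], L3e.{0} V ∧ L3r.{0} V := fun V _ =>
    L3both_of_noR (fun κ _ B Q => hno V κ B Q) (fun κ _ B Q => hnoR V κ B Q)
  exact dualAll_13 (fun V _ => (hL V).1) (fun V _ => (hL V).2.l3p)
    (fun V _ => f44 (T0K (hL V).1)) (fun V ι _ _ B U h3 hqa hmin => level5 h3 hqa hmin)

end Pool.Agent.Hyp6
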