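import Mathlib

/-!
# HYP6 L3RD0: claims of the triples of fat lines

`clm fl h o`: what a line triple may take back at a class which is seen by another triple or not seen
by it; `o` is the number of units of its own points at the class, `h` the number of its hits on the
class, `fl` says that the class is full.
-/

set_option autoImplicit false

namespace Pool.Agent.Hyp6.Rt

/-- the claim at a class which is not full, at most five hits. -/
def clA (o : ℕ) : ℤ :=
  if o ≤ 1 then 0 else if o = 2 then 6 else if o = 3 then 26 else if o = 4 then 47 else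
    21 * (o : ℤ) - 39

/-- the claim at a class which is not full, at least six hits. -/
def clB (o : ℕ) : ℤ :=
  if o ≤ 1 then 0 else if o = 2 then 3 else if o = 3 then 24 else if o = 4 then 45 else
    21 * (o : ℤ) - 39

/-- the claim at a full class. -/
def clF (o : ℕ) : ℤ := if o ≤ 5 then 14 * (o : ℤ) else 21 * (o : ℤ) - 35

/-- the claim. -/
def clm (fl : Prop) [Decidable fl] (h o : ℕ) : ℤ :=
  if fl then clF o else if h ≤ 5 then clA o else clB o

theorem clA_nonneg (o : ℕ) : 0 ≤ clA o := by
  unfold clA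
  split_ifs <;> omega

theorem clB_nonneg (o : ℕ) : 0 ≤ clB o := by
  unfold clB
  split_ifs <;> omega

theorem clB_le_clA (o : ℕ) : clB o ≤ clA o := by
  unfold clA clB
  split_ifs <;> omega

theorem clF_nonneg (o : ℕ) : 0 ≤ clF o := by
  unfold clF
  split_ifs <;> omega

theorem clA_le (o : ℕ) : clA o ≤ clF o := by
  unfold clA clF
  split_ifs <;> omega

theorem clB_le (o : ℕ) : clB o ≤ clF o := (clB_le_clA o).trans (clA_le o)

theorem clF_le (o : ℕ) : clF o ≤ 21 * (o : ℤ) := by
  unfold clF
  split_ifs <;> omega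

/-- two claims at a full class with `m` units. -/
theorem clF_two {o o' m : ℕ} (h5 : 5 ≤ m) (h : o + o' ≤ m) :
    clF o + clF o' ≤ 70 + 21 * ((m : ℤ) - 5) + 14 * ((m : ℤ) - (o + o')) := by
  unfold clF
  split_ifs <;> omega

variable (fl : Prop) [Decidable fl] (h o : ℕ)

theorem clm_nonneg : 0 ≤ clm fl h o := by
  unfold clm
  split_ifs
  · exact clF_nonneg o
  · exact clA_nonneg o
  · exact clB_nonneg o

theorem clm_leF : clm fl h o ≤ clF o := by
  unfold clm
  split_ifs
  · exact le_refl _
  · exact clA_le o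
  · exact clB_le o

theorem clm_le21 : clm fl h o ≤ 21 * (o : ℤ) := (clm_leF fl h o).trans (clF_le o)

theorem clB_le_clm : clB o ≤ clm fl h o := by
  unfold clm
  split_ifs
  · exact clB_le o
  · exact clB_le_clA o
  · exact le_refl _

theorem clA_le_clm (hh : h ≤ 5) : clA o ≤ clm fl h o := by
  unfold clm
  split_ifs
  · exact clA_le o
  · exact le_refl _

theorem clm_full (hf : fl) : clm fl h o = clF o := by
  unfold clm
  rw [if_pos hf]

/-- node side, class not full: what a triple may claim. -/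
theorem clm_cases (hf : ¬ fl) : (o ≤ 1 ∧ clm fl h o = 0) ∨
    (o = 2 ∧ (h ≤ 5 ∧ clm fl h o = 6 ∨ 6 ≤ h ∧ clm fl h o = 3)) ∨
    (o = 3 ∧ (h ≤ 5 ∧ clm fl h o = 26 ∨ 6 ≤ h ∧ clm fl h o = 24)) ∨
    (o = 4 ∧ (h ≤ 5 ∧ clm fl h o = 47 ∨ 6 ≤ h ∧ clm fl h o = 45)) ∨
    (5 ≤ o ∧ clm fl h o = 21 * (o : ℤ) - 39) := by
  unfold clm clA clB
  rw [if_neg hf]
  split_ifs <;> omega

end Pool.Agent.Hyp6.Rt
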