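import Pool.Agent.Hyp6.L3Rd0

/-!
# HYP6 L3RD1: the table of private leaves

A leaf with `m` points and `n1` single traces which is seen by one triple (`h` hits), has `y` hits of
own points of its line and `go` other hits of points of `U`; `a` own units, `fr` other units. `D` is the
demand, `d = 70 + 22 a + 36 fr - D` the surplus of its receipts.
-/

set_option autoImplicit false

namespace Pool.Agent.Hyp6.Rt

/-- the data of a private leaf, numbers only. -/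
structure Prv (m n1 h f e g D : ℤ) : Prop where
  m1 : 1 ≤ m
  m2 : m % 2 = 1
  n2 : n1 % 2 = 1
  n0 : 1 ≤ n1
  pt : m = 1 → n1 = 5
  slot : 2 * (h + g + f) = 5 * m + 3 * n1
  h0 : 0 ≤ h
  h1 : h ≤ 12
  f0 : 0 ≤ f
  e0 : 0 ≤ e
  gn : g ≤ n1
  ef : 4 * e ≤ f
  en : 2 * e ≤ n1 - g
  g3 : 3 ≤ g
  ex : ¬ (m = 3 ∧ n1 = 3 ∧ h = 9)
  hd : D = 180 - 18 * f - 3 * (n1 - g) + 30 * e

/-- what is used of a private class: bounds for its demand. -/
structure Prb (h g D : ℤ) : Prop where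
  g3 : 3 ≤ g
  d0 : D ≤ 180
  d3 : g = 3 → D ≤ 174
  d4 : g = 4 → D ≤ 177
  db : D ≤ 18 * h + 21 * g - 15 ∨ (D ≤ 132 ∧ D ≤ 18 * h + 78)
  d6 : 6 ≤ g → D ≤ 18 * h - 9

namespace Prv

variable {m n1 h f e g D : ℤ}

theorem prb (p : Prv m n1 h f e g D) : Prb h g D := by
  obtain ⟨m1, m2, n2, n0, pt, slot, h0, h1, f0, e0, gn, ef, en, g3, ex, hd⟩ := p
  have hD : D = 180 - 45 * m - 30 * n1 + 18 * h + 21 * g + 30 * e := by linarith
  have h48 : D ≤ 180 - 48 * e := by linarith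
  rcases eq_or_lt_of_le m1 with hm | hm
  · have hn := pt hm.symm
    subst hn
    rw [← hm] at hD slot
    refine ⟨g3, by linarith, fun h3 => ?_, fun h4 => ?_, ?_, fun h6 => ?_⟩
    · omega
    · omega
    · by_cases he : e = 0
      · left
        omega
      · right
        have : e = 1 := by omega
        constructor <;> omega
    · omega
  · have hm3 : 3 ≤ m := by omega
    refine ⟨g3, by linarith, fun h3 => ?_, fun h4 => ?_, ?_, fun h6 => ?_⟩
    · by_cases he : e = 0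
      · by_cases hn5 : 5 ≤ n1
        · subst he
          linarith
        · have hn3 : n1 = 3 := by omega
          by_cases hm5 : 5 ≤ m
          · have : 2 ≤ f := by omega
            linarith
          · have hm' : m = 3 := by omega
            have : 1 ≤ f := by
              by_contra hc
              exact ex ⟨hm', hn3, by omega⟩
            linarith
      · have : 1 ≤ e := by omega
        linarith
    · by_cases he : e = 0
      · have : 5 ≤ n1 := by omega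
        subst he
        linarith
      · have : 1 ≤ e := by omega
        linarith
    · left
      have : 3 + 2 * e ≤ n1 := by omega
      linarith
    · have : g + 2 * e ≤ n1 := by omega
      linarith

end Prv

namespace Prb

variable {h y go a fr g D : ℤ}

theorem f19 (p : Prb h (y + go) D) (a0 : 0 ≤ a) (fr0 : 0 ≤ fr) (le5 : a + fr ≤ 5)
    (full : a + fr = 5 ∨ (y ≤ a ∧ go ≤ fr)) : 19 * a - 95 ≤ 70 + 22 * a + 36 * fr - D := by
  obtain ⟨g3, d0, d3, d4, db, d6⟩ := p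
  omega

theorem f15 (p : Prb h (y + go) D) (a0 : 0 ≤ a) (fr0 : 0 ≤ fr) (le5 : a + fr ≤ 5)
    (full : a + fr = 5 ∨ (y ≤ a ∧ go ≤ fr)) :
    15 * a + 13 - 18 * h ≤ 70 + 22 * a + 36 * fr - D := by
  obtain ⟨g3, d0, d3, d4, db, d6⟩ := p
  omega

theorem f14 (p : Prb h (y + go) D) (a0 : 0 ≤ a) (fr0 : 0 ≤ fr) (le5 : a + fr ≤ 5)
    (full : a + fr = 5 ∨ (y ≤ a ∧ go ≤ fr)) (h5 : h ≤ 5) :
    14 * a - 70 ≤ 70 + 22 * a + 36 * fr - D := by
  obtain ⟨g3, d0, d3, d4, db, d6⟩ := p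
  omega

/-- two own points: the linear bounds. -/
theorem k2_lin (p : Prb h (y + go) D) (a0 : 0 ≤ a) (fr0 : 0 ≤ fr) (le5 : a + fr ≤ 5)
    (full : a + fr = 5 ∨ (y ≤ a ∧ go ≤ fr)) (hk : 1 ≤ go ∨ 6 ≤ y) :
    62 + 5 * a - 18 * h ≤ 70 + 22 * a + 36 * fr - D ∧
      10 * a - 50 ≤ 70 + 22 * a + 36 * fr - D := by
  obtain ⟨g3, d0, d3, d4, db, d6⟩ := p
  constructor <;> omega

/-- two own points: the table. -/
theorem k2_tab (p : Prb h (y + go) D) (a0 : 0 ≤ a) (fr0 : 0 ≤ fr) (le5 : a + fr ≤ 5)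
    (full : a + fr = 5 ∨ (y ≤ a ∧ go ≤ fr)) (hk : 1 ≤ go ∨ 6 ≤ y) (go0 : 0 ≤ go) {d : ℤ}
    (hd : d = 70 + 22 * a + 36 * fr - D) :
    (a = 0 ∧ 4 ≤ d) ∨ (a = 1 ∧ -10 ≤ d) ∨ (a = 2 ∧ -24 ≤ d ∧ (h ≤ 6 → -6 ≤ d)) ∨
      (a = 3 ∧ -5 ≤ d ∧ (y ≤ 3 ∨ 0 ≤ d)) ∨ (a = 4 ∧ 14 ≤ d) ∨
      (a = 5 ∧ 0 ≤ d ∧ (h ≤ 4 → 18 ≤ d) ∧ (h ≤ 10 → y ≤ 4 ∨ 5 ≤ d)) := by
  obtain ⟨g3, d0, d3, d4, db, d6⟩ := p
  have : a = 0 ∨ a = 1 ∨ a = 2 ∨ a = 3 ∨ a = 4 ∨ a = 5 := by omega
  rcases this with rfl | rfl | rfl | rfl | rfl | rfl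
  · left
    omega
  · right; left
    omega
  · right; right; left
    refine ⟨rfl, by omega, fun h6 => by omega⟩
  · right; right; right; left
    refine ⟨rfl, by omega, by omega⟩
  · right; right; right; right; left
    omega
  · right; right; right; right; right
    refine ⟨rfl, by omega, fun h6 => by omega, fun h6 => by omega⟩

/-- one own point: the table. -/
theorem k1_tab (p : Prb h (y + go) D) (a0 : 0 ≤ a) (fr0 : 0 ≤ fr) (le5 : a + fr ≤ 5)
    (full : a + fr = 5 ∨ (y ≤ a ∧ go ≤ fr)) (hk : 2 ≤ go) {d : ℤ}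
    (hd : d = 70 + 22 * a + 36 * fr - D) :
    (86 - 18 * h ≤ d) ∧ ((a = 0 ∧ 4 ≤ d) ∨ (a = 1 ∧ -10 ≤ d) ∨ (a = 2 ∧ 9 ≤ d) ∨
      (a = 3 ∧ 28 ≤ d) ∨ (a = 4 ∧ 14 ≤ d) ∨ (a = 5 ∧ 0 ≤ d)) := by
  obtain ⟨g3, d0, d3, d4, db, d6⟩ := p
  have : a = 0 ∨ a = 1 ∨ a = 2 ∨ a = 3 ∨ a = 4 ∨ a = 5 := by omega
  refine ⟨by omega, ?_⟩
  rcases this with rfl | rfl | rfl | rfl | rfl | rfl
  · left
    omega
  · right; left
    omega
  · right; right; left
    omega
  · right; right; right; left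
    omega
  · right; right; right; right; left
    omega
  · right; right; right; right; right
    omega

end Prb

/-- the data of a private class without inside triple, numbers only: `p` points, `r` other leaves,
`M` points and `N` single traces in all leaves. -/
structure PrvC (p r M N h f e g W D : ℤ) : Prop where
  p0 : 0 ≤ p
  r0 : 0 ≤ r
  two : 2 ≤ p + r
  hM : p + 3 * r ≤ M
  hN : 5 * p + r ≤ N
  slot : 2 * (h + g + (5 * (p + r - 1) - W) + f) = 5 * M + 3 * N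
  h1 : h ≤ 11
  f0 : 0 ≤ f
  e0 : 0 ≤ e
  W0 : 0 ≤ W
  ef : 4 * e ≤ f
  en : 2 * e ≤ N - (g + (5 * (p + r - 1) - W))
  g3 : 3 ≤ g
  hd : D = 180 + W - 18 * f - 3 * (N - (g + (5 * (p + r - 1) - W))) + 30 * e

theorem PrvC.prb {p r M N h f e g W D : ℤ} (q : PrvC p r M N h f e g W D) :
    3 ≤ g ∧ 0 ≤ W ∧ D ≤ 180 + W ∧ D ≤ 165 + 3 * g - 2 * W ∧
      D ≤ 18 * h + 6 * g - 30 - 5 * W ∧ D ≤ 18 * h - 9 * g + 45 + 10 * W := by
  obtain ⟨p0, r0, two, hM, hN, slot, h1, f0, e0, W0, ef, en, g3, hd⟩ := q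
  have hk : 5 * M + N + 4 * e ≤ 22 + 2 * f := by linarith
  refine ⟨g3, W0, by linarith, ?_, by linarith, by linarith⟩
  have key : 15 * (p + r) ≤ 3 * N + 18 * f - 30 * e := by
    rcases eq_or_lt_of_le r0 with hr | hr
    · rw [← hr] at hN ⊢
      linarith
    · rcases eq_or_lt_of_le (show 1 ≤ r by omega) with hr1 | hr1
      · have hp1 : 1 ≤ p := by omega
        have : 5 * p + 8 * r + 2 * e - 11 ≤ f := by linarith
        linarith
      · have hr2 : 2 ≤ r := by omega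
        have : 5 * p + 8 * r + 2 * e - 11 ≤ f := by linarith
        linarith
  linarith

end Pool.Agent.Hyp6.Rt
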