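import Mathlib

/-!
# HYP6 L3RD5: the sum over the line of a triple with own points

`Lw.main`: what a triple pays at the classes of its line with `k` own points. At a full class it pays
nothing and gets back its units above five. At the other classes the payment is bounded by
`477.5 + 21.5 h - 115 o`, `h` the number of its hits and `o` the number of its own units.
-/

set_option autoImplicit false

namespace Pool.Agent.Hyp6

open Finset

/-- the data of the sum over a line; `ex` are the excesses. -/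
structure Lw {γ : Type*} [DecidableEq γ] (l N : Finset γ) (k : ℕ) (h o : γ → ℕ)
    (pay ex : γ → ℤ) (w : ℤ) : Prop where
  card : l.card = k + 2
  sub : N ⊆ l
  w0 : 0 ≤ w
  so : ∑ C ∈ l, (o C : ℤ) = 5 * k - w
  fu : ∀ C ∈ l \ N, pay C ≤ 0 ∧ pay C ≤ 1400 - 280 * (o C : ℤ)
  o1 : ∀ C ∈ N, 1 ≤ o C
  nf : ∀ C ∈ N, 2 * pay C + 230 * (o C : ℤ) ≤ 955 + 43 * (h C : ℤ) + ex C

namespace Lw

variable {γ : Type*} [DecidableEq γ] {l N : Finset γ} {k : ℕ} {h o : γ → ℕ}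
  {pay ex : γ → ℤ} {w : ℤ}

theorem split (p : Lw l N k h o pay ex w) (f : γ → ℤ) :
    ∑ C ∈ l, f C = ∑ C ∈ N, f C + ∑ C ∈ l \ N, f C := by
  rw [← sum_sdiff p.sub]
  ring

/-- **the sum over the line**, with a transfer `t`; if the classes of `N` have less than
`5 (|N| - 2) - w` units then `330` more for each. -/
theorem main5 (p : Lw l N k h o pay ex w) {t z : ℤ}
    (hz : (N.card ≤ 2 ∧ z = 265) ∨ (3 ≤ N.card ∧ z = 195 * ((N.card : ℤ) - 3) +
      330 * max (5 * ((N.card : ℤ) - 2) - w - ∑ C ∈ N, (o C : ℤ)) 0))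
    (hx : ∑ C ∈ N, ex C ≤ 25 + 75 * (12 - ∑ C ∈ l, (h C : ℤ)) +
      43 * ∑ C ∈ l \ N, (h C : ℤ) + 330 * w + z + 2 * t) :
    ∑ C ∈ l, pay C ≤ 1320 - 16 * ∑ C ∈ l, (h C : ℤ) + 280 * w + t := by
  have hw := p.w0
  have e1 := p.split pay
  have e2 := p.split (fun C => (h C : ℤ))
  have e3 := p.split (fun C => (o C : ℤ))
  have hcard := card_sdiff_add_card_eq_card p.sub
  rw [p.card] at hcard
  have hc : ((l \ N).card : ℤ) = k + 2 - N.card := by
    have : ((k : ℤ) + 2) = ((l \ N).card : ℤ) + N.card := by exact_mod_cast hcard.symm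
    linarith
  -- the classes which are not full
  have n1 : 2 * ∑ C ∈ N, pay C + 230 * ∑ C ∈ N, (o C : ℤ) ≤
      955 * N.card + 43 * ∑ C ∈ N, (h C : ℤ) + ∑ C ∈ N, ex C := by
    have := sum_le_sum p.nf
    rw [sum_add_distrib, sum_add_distrib, sum_add_distrib, ← mul_sum, ← mul_sum, ← mul_sum,
      sum_const, nsmul_eq_mul] at this
    linarith
  have n2 : (N.card : ℤ) ≤ ∑ C ∈ N, (o C : ℤ) := by
    have h1 : ∑ C ∈ N, (1 : ℤ) ≤ ∑ C ∈ N, (o C : ℤ) :=
      sum_le_sum fun C hC => by exact_mod_cast p.o1 C hC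
    rw [sum_const, nsmul_eq_mul, mul_one] at h1
    exact h1
  -- the full classes
  have f0 : ∑ C ∈ l \ N, pay C ≤ 0 := sum_nonpos fun C hC => (p.fu C hC).1
  have f1 : ∑ C ∈ l \ N, pay C ≤ 1400 * (l \ N).card - 280 * ∑ C ∈ l \ N, (o C : ℤ) := by
    have := sum_le_sum fun C hC => (p.fu C hC).2
    rw [sum_sub_distrib, ← mul_sum, sum_const, nsmul_eq_mul] at this
    linarith
  have hN0 : (0 : ℤ) ≤ ∑ C ∈ N, (h C : ℤ) := sum_nonneg fun _ _ => by positivity
  have hF0 : (0 : ℤ) ≤ ∑ C ∈ l \ N, (h C : ℤ) := sum_nonneg fun _ _ => by positivity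
  rw [e1]
  rw [p.so] at e3
  rw [hc] at f1
  generalize ∑ C ∈ N, pay C = pN at *
  generalize ∑ C ∈ l \ N, pay C = pF at *
  generalize ∑ C ∈ N, (o C : ℤ) = oN at *
  generalize ∑ C ∈ l \ N, (o C : ℤ) = oF at *
  generalize ∑ C ∈ N, (h C : ℤ) = hN at *
  generalize ∑ C ∈ l \ N, (h C : ℤ) = hF at *
  generalize ∑ C ∈ l, (h C : ℤ) = H at *
  generalize ∑ C ∈ N, ex C = xN at *
  rcases hz with ⟨h3, rfl⟩ | ⟨h3, rfl⟩
  · have h3' : (N.card : ℤ) ≤ 2 := by exact_mod_cast h3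
    linarith
  · have h3' : (3 : ℤ) ≤ N.card := by exact_mod_cast h3
    have e4 : 5 * ((N.card : ℤ) - 2) - w - oN = oF - 5 * (k + 2 - N.card) := by linarith
    rw [e4] at hx
    -- two times the payment of the full classes is at most `230 / 560` of it
    have f2 : 2 * pF ≤ -230 * (oF - 5 * (k + 2 - N.card)) -
        330 * max (oF - 5 * ((k : ℤ) + 2 - N.card)) 0 := by
      rcases le_or_gt (oF - 5 * ((k : ℤ) + 2 - N.card)) 0 with h4 | h4
      · rw [max_eq_right h4]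
        linarith
      · rw [max_eq_left h4.le]
        linarith
    linarith

/-- the sum over the line, without the bonus. -/
theorem main2 (p : Lw l N k h o pay ex w) {t z : ℤ}
    (hz : (N.card ≤ 2 ∧ z = 265) ∨ (3 ≤ N.card ∧ z = 195 * ((N.card : ℤ) - 3)))
    (hx : ∑ C ∈ N, ex C ≤ 25 + 75 * (12 - ∑ C ∈ l, (h C : ℤ)) +
      43 * ∑ C ∈ l \ N, (h C : ℤ) + 330 * w + z + 2 * t) :
    ∑ C ∈ l, pay C ≤ 1320 - 16 * ∑ C ∈ l, (h C : ℤ) + 280 * w + t := by
  rcases hz with h1 | ⟨h1, h2⟩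
  · exact p.main5 (Or.inl h1) hx
  · have h3 := le_max_right (5 * ((N.card : ℤ) - 2) - w - ∑ C ∈ N, (o C : ℤ)) 0
    exact p.main5 (Or.inr ⟨h1, rfl⟩) (by linarith)

/-- **the sum over the line**. -/
theorem main (p : Lw l N k h o pay ex w)
    (hx : ∑ C ∈ N, ex C ≤ 25 + 75 * (12 - ∑ C ∈ l, (h C : ℤ)) +
      43 * ∑ C ∈ l \ N, (h C : ℤ)) :
    ∑ C ∈ l, pay C ≤ 1320 - 16 * ∑ C ∈ l, (h C : ℤ) + 280 * w := by
  have hw := p.w0
  rcases le_or_gt N.card 2 with h1 | h1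
  · have := p.main2 (t := 0) (Or.inl ⟨h1, rfl⟩) (by linarith)
    linarith
  · have h2 : (3 : ℤ) ≤ N.card := by exact_mod_cast h1
    have := p.main2 (t := 0) (Or.inr ⟨h1, rfl⟩) (by linarith)
    linarith

end Lw

end Pool.Agent.Hyp6
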