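import Pool.Agent.Hyp6.L3Rd6

/-!
# HYP6 L3RD7: the needs of the classes of a line with own points

`Stg.xcl_le`, `Stg.xcl_le8`: the exact need of a class which is not full, without the units. `Exs`: the
excess. `Stg.ex_single`: a single leaf without centres and inside triples. `Stg.ex_comp`: a class with
inside points and no inside triples. `Stg.ex_dense`: a class with inside triples.
-/

set_option autoImplicit false

namespace Pool.Agent.Hyp6

open Finset Pool.Agent.Hyp5 Rt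

universe u v

variable {V : Type v} [DecidableEq V] {ι : Type u} [Fintype ι] [DecidableEq ι]
  {B : ι → Finset V}

/-- the excess of a class over the linear price. -/
noncomputable def Exs (B : ι → Finset V) (Q : Finset V) (T : Finset ι) (U : Finset V)
    (F : Finset (Finset V)) (P : Finset (Finset (Finset V))) (a : V → Finset (Finset V) → ℕ)
    (t : ι → ℤ) (j : ι) (C : Finset (Finset V)) : ℤ :=
  2 * xcl 149 B Q T U F P a t j C + 165 + 6 * (owj B Q U F P a j C : ℤ) -
    43 * (jC B Q j C : ℤ)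

/-- the hits of the own points of a line triple on a class. -/
noncomputable abbrev yC (B : ι → Finset V) (Q U : Finset V) (F : Finset (Finset V))
    (P : Finset (Finset (Finset V))) (j : ι) (C : Finset (Finset V)) : ℕ :=
  ∑ u ∈ oj B Q U F P j, uC B u C

namespace Stg

variable {Q U : Finset V} {T : Finset ι} {F : Finset (Finset V)}
  {P : Finset (Finset (Finset V))} {a : V → Finset (Finset V) → ℕ}

/-- the hits of the crossing points are at most the units. -/
theorem gC_le (s : Stg B Q T U F P a) {C : Finset (Finset V)} (hC : C ∈ P)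
    (hn : ¬ Ful B Q T U F P a C) :
    (gC B U F P C : ℤ) ≤ Sp.ld (Sp.Ux U (slf B F) P) a C := by
  rcases s.bal C hC with h3 | h3
  · exact absurd h3 hn
  · unfold gC Sp.ld
    exact_mod_cast sum_le_sum h3

/-- the unused own units. -/
theorem gC_own (s : Stg B Q T U F P a) {C : Finset (Finset V)} (hC : C ∈ P)
    (hn : ¬ Ful B Q T U F P a C) (j : ι) :
    (gC B U F P C : ℤ) + owj B Q U F P a j C ≤
      Sp.ld (Sp.Ux U (slf B F) P) a C + yC B Q U F P j C := by
  rcases s.bal C hC with h3 | h3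
  · exact absurd h3 hn
  · have h1 : ∑ u ∈ oj B Q U F P j, ((a u C : ℤ) - uC B u C) ≤
        ∑ u ∈ Sp.Ux U (slf B F) P, ((a u C : ℤ) - uC B u C) := by
      refine sum_le_sum_of_subset_of_nonneg Sp.UU_sub fun u hu _ => ?_
      have h4 : (uC B u C : ℤ) ≤ a u C := by exact_mod_cast h3 u hu
      linarith
    rw [sum_sub_distrib, sum_sub_distrib] at h1
    unfold gC owj Sp.owl Sp.ld yC
    push_cast
    have h5 : (∑ u ∈ oj B Q U F P j, (a u C : ℤ)) =
        ∑ u ∈ Sp.UU U (slf B F) P (lj B Q U F P j), (a u C : ℤ) := rfl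
    linarith

/-- a class which is not full has an own hit of every line with own points. -/
theorem own_hit (s : Stg B Q T U F P a) {j : ι} (hj : j ∈ tl B Q T U F P)
    (ho : 1 ≤ (oj B Q U F P j).card) {C : Finset (Finset V)} (hC : C ∈ lj B Q U F P j) :
    1 ≤ yC B Q U F P j C := by
  obtain ⟨u, hu, hm⟩ := s.seen hj ho hC
  have hux : u ∈ Sp.Ux U (slf B F) P := Sp.UU_sub hu
  have h1 := s.frm.uC_ge (mem_filter.1 hux).1 hm
  have h3 : uC B u C ≤ yC B Q U F P j C :=
    single_le_sum (f := fun u => uC B u C) (fun _ _ => Nat.zero_le _) hu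
  omega

/-- the own units of the other triples. -/
theorem own_erase (s : Stg B Q T U F P a) {C : Finset (Finset V)} {j : ι}
    (hj : j ∈ aC B Q T U F P C) :
    ∑ i ∈ (aC B Q T U F P C).erase j, (owj B Q U F P a i C : ℤ) + owj B Q U F P a j C ≤
      Sp.ld (Sp.Ux U (slf B F) P) a C := by
  have h1 := s.own_le (C := C)
  rw [← add_sum_erase _ _ hj] at h1
  have h2 : ((owj B Q U F P a j C + ∑ i ∈ (aC B Q T U F P C).erase j,
      owj B Q U F P a i C : ℕ) : ℤ) ≤ ((Sp.ld (Sp.Ux U (slf B F) P) a C : ℕ) : ℤ) := by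
    exact_mod_cast h1
  push_cast at h2
  linarith

/-- **the need of a class which is not full, without the units**. -/
theorem xcl_le (s : Stg B Q T U F P a) (v : ℤ) (t : ι → ℤ) {C : Finset (Finset V)} (hC : C ∈ P)
    (hn : ¬ Ful B Q T U F P a C) {j : ι} (hj : j ∈ aC B Q T U F P C) :
    xcl v B Q T U F P a t j C ≤ 144 * (jC B Q j C : ℤ) - 560 -
      3 * (owj B Q U F P a j C : ℤ) -
      5 * ∑ i ∈ (aC B Q T U F P C).erase j, (jC B Q i C : ℤ) +
      ∑ j ∈ Trs B Q T (Rg B Q T U F) U F P, (144 * (jC B Q j C : ℤ) - Xv v B Q T U F P j C) -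
      5 * (gC B U F P C : ℤ) + ∑ L ∈ C, (240 * (ee B Q L : ℤ) - 120 * Pp B L + 120) +
      ∑ k ∈ Sp.Kin (Rg B Q T U F) (slj B Q F) C,
        (600 - 160 * ((jn B Q (Ep B Q T U F) k : ℤ) + jb B Q T U k)) -
      ∑ u ∈ Sp.Uin U (slf B F) C, (600 + 160 * (uo B Q T U F u : ℤ)) -
      tK B Q (Rg B Q T U F) F t C := by
  have h1 := s.ms_eq v hC
  have h2 := s.gC_le hC hn
  have h3 := s.own_erase hj
  rw [← add_sum_erase _ _ hj] at h1
  have e1 : ∑ i ∈ (aC B Q T U F P C).erase j, (144 * (jC B Q i C : ℤ) - 560 +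
        112 * (Sp.owl U (slf B F) P (lj B Q U F P) a i C : ℤ)) -
      ∑ i ∈ (aC B Q T U F P C).erase j,
        (149 * (jC B Q i C : ℤ) - 560 - 3 * (owj B Q U F P a i C : ℤ)) =
      115 * ∑ i ∈ (aC B Q T U F P C).erase j, (owj B Q U F P a i C : ℤ) -
        5 * ∑ i ∈ (aC B Q T U F P C).erase j, (jC B Q i C : ℤ) := by
    rw [← sum_sub_distrib, mul_sum, mul_sum, ← sum_sub_distrib]
    exact sum_congr rfl fun i _ => by ring
  unfold xcl ndC
  linarith

/-- **the need of a class which is not full, without the units**, with the unused own units. -/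
theorem xcl_le_y (s : Stg B Q T U F P a) (v : ℤ) (t : ι → ℤ) {C : Finset (Finset V)} (hC : C ∈ P)
    (hn : ¬ Ful B Q T U F P a C) {j : ι} (hj : j ∈ aC B Q T U F P C) :
    xcl v B Q T U F P a t j C ≤ 144 * (jC B Q j C : ℤ) - 560 -
      3 * (owj B Q U F P a j C : ℤ) -
      173 * ((owj B Q U F P a j C : ℤ) - yC B Q U F P j C) -
      5 * ∑ i ∈ (aC B Q T U F P C).erase j, (jC B Q i C : ℤ) +
      ∑ j ∈ Trs B Q T (Rg B Q T U F) U F P, (144 * (jC B Q j C : ℤ) - Xv v B Q T U F P j C) -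
      5 * (gC B U F P C : ℤ) + ∑ L ∈ C, (240 * (ee B Q L : ℤ) - 120 * Pp B L + 120) +
      ∑ k ∈ Sp.Kin (Rg B Q T U F) (slj B Q F) C,
        (600 - 160 * ((jn B Q (Ep B Q T U F) k : ℤ) + jb B Q T U k)) -
      ∑ u ∈ Sp.Uin U (slf B F) C, (600 + 160 * (uo B Q T U F u : ℤ)) -
      tK B Q (Rg B Q T U F) F t C := by
  have h1 := s.ms_eq v hC
  have h2 := s.gC_own hC hn j
  have h3 := s.own_erase hj
  rw [← add_sum_erase _ _ hj] at h1
  have e1 : ∑ i ∈ (aC B Q T U F P C).erase j, (144 * (jC B Q i C : ℤ) - 560 +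
        112 * (Sp.owl U (slf B F) P (lj B Q U F P) a i C : ℤ)) -
      ∑ i ∈ (aC B Q T U F P C).erase j,
        (149 * (jC B Q i C : ℤ) - 560 - 3 * (owj B Q U F P a i C : ℤ)) =
      115 * ∑ i ∈ (aC B Q T U F P C).erase j, (owj B Q U F P a i C : ℤ) -
        5 * ∑ i ∈ (aC B Q T U F P C).erase j, (jC B Q i C : ℤ) := by
    rw [← sum_sub_distrib, mul_sum, mul_sum, ← sum_sub_distrib]
    exact sum_congr rfl fun i _ => by ring
  unfold xcl ndC
  linarith

/-- the same with the demand of the class. -/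
theorem xcl_le8 (s : Stg B Q T U F P a) (v : ℤ) (t : ι → ℤ) {C : Finset (Finset V)} (hC : C ∈ P)
    (hn : ¬ Ful B Q T U F P a C) {j : ι} (hj : j ∈ aC B Q T U F P C) :
    xcl v B Q T U F P a t j C ≤ 8 * dmC B Q T (Rg B Q T U F) U F C - 560 -
      3 * (owj B Q U F P a j C : ℤ) - 173 * (gC B U F P C : ℤ) -
      149 * ∑ i ∈ (aC B Q T U F P C).erase j, (jC B Q i C : ℤ) -
      ∑ j ∈ Trs B Q T (Rg B Q T U F) U F P, Xv v B Q T U F P j C -
      tK B Q (Rg B Q T U F) F t C := by
  have h2 := s.gC_le hC hn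
  have h3 := s.own_erase hj
  have e1 : 8 * ∑ i ∈ (aC B Q T U F P C).erase j,
        (70 - 14 * (Sp.owl U (slf B F) P (lj B Q U F P) a i C : ℤ)) +
      ∑ i ∈ (aC B Q T U F P C).erase j,
        (149 * (jC B Q i C : ℤ) - 560 - 3 * (owj B Q U F P a i C : ℤ)) =
      149 * ∑ i ∈ (aC B Q T U F P C).erase j, (jC B Q i C : ℤ) -
        115 * ∑ i ∈ (aC B Q T U F P C).erase j, (owj B Q U F P a i C : ℤ) := by
    rw [mul_sum, mul_sum, mul_sum, ← sum_add_distrib, ← sum_sub_distrib]
    exact sum_congr rfl fun i _ => by ring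
  have h4 : ∑ i ∈ aC B Q T U F P C,
      (70 - 14 * (Sp.owl U (slf B F) P (lj B Q U F P) a i C : ℤ)) =
      (70 - 14 * (owj B Q U F P a j C : ℤ)) + ∑ i ∈ (aC B Q T U F P C).erase j,
        (70 - 14 * (Sp.owl U (slf B F) P (lj B Q U F P) a i C : ℤ)) :=
    (add_sum_erase _ _ hj).symm
  unfold xcl ndC msC mis
  have h5 : ∑ i ∈ Sp.atl (tl B Q T U F P) (lj B Q U F P) C,
      (70 - 14 * (Sp.owl U (slf B F) P (lj B Q U F P) a i C : ℤ)) =
      ∑ i ∈ aC B Q T U F P C,
      (70 - 14 * (Sp.owl U (slf B F) P (lj B Q U F P) a i C : ℤ)) := rfl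
  rw [h5, h4]
  linarith

end Stg

end Pool.Agent.Hyp6
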