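import Pool.Agent.Hyp6.L3Rd7
import Pool.Agent.Hyp6.L3Yb
import Pool.Agent.Hyp6.L3Td

/-!
# HYP6 L3RD8: the excess of a class of a line with own points

`Stg.xcl_num`: the exact need of a class in the numbers of the class. `Stg.xcl_NI`: the inequality `NI`
of the class with one line triple bounds the exact need. `Stg.ex_nct`: the excess of a single leaf
without centres and inside triples; `Stg.ex_rows`: its rows.
-/

set_option autoImplicit false

namespace Pool.Agent.Hyp6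

open Finset Pool.Agent.Hyp5 Rt

universe u v

variable {V : Type v} [DecidableEq V] {ι : Type u} [Fintype ι] [DecidableEq ι]
  {B : ι → Finset V}

namespace Stg

variable {Q U : Finset V} {T : Finset ι} {F : Finset (Finset V)}
  {P : Finset (Finset (Finset V))} {a : V → Finset (Finset V) → ℕ}

/-- **the need of a class which is not full** with the demand and the unused own units. -/
theorem xcl_le8y (s : Stg B Q T U F P a) (v : ℤ) (t : ι → ℤ) {C : Finset (Finset V)} (hC : C ∈ P)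
    (hn : ¬ Ful B Q T U F P a C) {j : ι} (hj : j ∈ aC B Q T U F P C) :
    xcl v B Q T U F P a t j C ≤ 8 * dmC B Q T (Rg B Q T U F) U F C - 560 -
      3 * (owj B Q U F P a j C : ℤ) -
      173 * ((owj B Q U F P a j C : ℤ) - yC B Q U F P j C) - 173 * (gC B U F P C : ℤ) -
      149 * ∑ i ∈ (aC B Q T U F P C).erase j, (jC B Q i C : ℤ) -
      ∑ j ∈ Trs B Q T (Rg B Q T U F) U F P, Xv v B Q T U F P j C -
      tK B Q (Rg B Q T U F) F t C := by
  have h2 := s.gC_own hC hn j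
  have h3 := s.own_erase hj
  have e1 : 8 * ∑ i ∈ (aC B Q T U F P C).erase j,
        (70 - 14 * (Sp.owl U (slf B F) P (lj B Q U F P) a i C : ℤ)) +
      ∑ i ∈ (aC B Q T U F P C).erase j,
        (149 * (jC B Q i C : ℤ) - 560 - 3 * (owj B Q U F P a i C : ℤ)) =
      149 * ∑ i ∈ (aC B Q T U F P C).erase j, (jC B Q i C : ℤ) -
        115 * ∑ i ∈ (aC B Q T U F P C).erase j, (owj B Q U F P a i C : ℤ) := by
    rw [mul_sum, mul_sum, mul_sum, ← sum_add_distrib, ← sum_sub_distrib]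
    exact sum_congr rfl fun i _ => by ring
  have h4 : ∑ i ∈ aC B Q T U F P C,
      (70 - 14 * (Sp.owl U (slf B F) P (lj B Q U F P) a i C : ℤ)) =
      (70 - 14 * (owj B Q U F P a j C : ℤ)) + ∑ i ∈ (aC B Q T U F P C).erase j,
        (70 - 14 * (Sp.owl U (slf B F) P (lj B Q U F P) a i C : ℤ)) :=
    (add_sum_erase _ _ hj).symm
  unfold xcl ndC msC mis
  have h5 : ∑ i ∈ Sp.atl (Sp.T2 U (slf B F) (Rg B Q T U F) (slj B Q F) P) (lj B Q U F P) C,
      (70 - 14 * (Sp.owl U (slf B F) P (lj B Q U F P) a i C : ℤ)) =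
      ∑ i ∈ aC B Q T U F P C,
      (70 - 14 * (Sp.owl U (slf B F) P (lj B Q U F P) a i C : ℤ)) := rfl
  rw [h5, h4]
  linarith

/-- the hits of the line triples without one of them. -/
theorem sum_aC (s : Stg B Q T U F P a) {C : Finset (Finset V)} {j : ι}
    (hj : j ∈ aC B Q T U F P C) :
    ∑ i ∈ aC B Q T U F P C, (jC B Q i C : ℤ) =
      jC B Q j C + ∑ i ∈ (aC B Q T U F P C).erase j, (jC B Q i C : ℤ) :=
  have _ := s.viol
  (add_sum_erase _ _ hj).symm

/-- **the exact need in the numbers of the class**: `x` are the weak hits. -/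
theorem xcl_num (s : Stg B Q T U F P a) (t : ι → ℤ) {C : Finset (Finset V)} (hC : C ∈ P)
    (hn : ¬ Ful B Q T U F P a C) {j : ι} (hj : j ∈ aC B Q T U F P C) :
    ∃ (sb : ι → ℕ) (x : ℤ), (∀ i ∈ Bc B Q T U F P C, sb i ≤ 8 ∧ sb i ≤ jC B Q i C) ∧
      x = (gC B U F P C : ℤ) + ∑ i ∈ (aC B Q T U F P C).erase j, (jC B Q i C : ℤ) +
        (∑ j ∈ Trs B Q T (Rg B Q T U F) U F P, (jC B Q j C : ℤ) -
          ∑ i ∈ Bc B Q T U F P C, (sb i : ℤ)) ∧
      ∑ i ∈ Bc B Q T U F P C, (sb i : ℤ) ≤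
        ∑ j ∈ Trs B Q T (Rg B Q T U F) U F P, (jC B Q j C : ℤ) ∧
      xcl 149 B Q T U F P a t j C ≤
        1440 * ((C.card : ℤ) - (Sp.Uin U (slf B F) C).card) +
        120 * (Sp.Uin U (slf B F) C).card - 16 * lsC B Q T U F C -
        24 * ∑ L ∈ C, (nt B L 1 : ℤ) - 144 * ∑ L ∈ C, fs B Q L +
        240 * ∑ L ∈ C, (ee B Q L : ℤ) -
        1128 * (Sp.Kin (Rg B Q T U F) (slj B Q F) C).card -
        16 * Frm.xC B Q T (Rg B Q T U F) U F C - 560 -
        3 * (owj B Q U F P a j C : ℤ) -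
        173 * ((owj B Q U F P a j C : ℤ) - yC B Q U F P j C) - 149 * x -
        584 * ((Bc B Q T U F P C).card : ℤ) + 16 * ∑ i ∈ Bc B Q T U F P C, (sb i : ℤ) -
        tK B Q (Rg B Q T U F) F t C := by
  obtain ⟨sb, hsb, hT⟩ := s.trs_ge hC
  have h1 := s.xcl_le8y 149 t hC hn hj
  have h2 := (s.nm hC).dem
  have hsub : Bc B Q T U F P C ⊆ Trs B Q T (Rg B Q T U F) U F P := filter_subset _ _
  have hsw : ∑ j ∈ Bc B Q T U F P C, (sb j : ℤ) ≤
      ∑ j ∈ Trs B Q T (Rg B Q T U F) U F P, (jC B Q j C : ℤ) := by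
    have e1 : ∑ j ∈ Bc B Q T U F P C, (sb j : ℤ) ≤ ∑ j ∈ Bc B Q T U F P C, (jC B Q j C : ℤ) :=
      sum_le_sum fun j hj => by exact_mod_cast (hsb j hj).2
    exact e1.trans (sum_le_sum_of_subset_of_nonneg hsub fun _ _ _ => by positivity)
  refine ⟨sb, _, hsb, rfl, hsw, ?_⟩
  have h4 : ∑ j ∈ Bc B Q T U F P C, (584 - 16 * (sb j : ℤ)) =
      584 * ((Bc B Q T U F P C).card : ℤ) - 16 * ∑ j ∈ Bc B Q T U F P C, (sb j : ℤ) := by
    rw [sum_sub_distrib, sum_const, nsmul_eq_mul, ← mul_sum]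
    ring
  rw [h4] at hT
  linarith

/-- **the exact need from the inequality of the class**: the triple `j` counts as the only line triple,
with payment `S`, and uses `jC j C + y` places, `y` its own hits. -/
theorem xcl_NI {n p K W X f e N b S s' x w o y d : ℤ} {z : ℤ}
    (h : z ≤ 1440 * (n - p) + 120 * p - 16 * W - 24 * N - 144 * f + 240 * e - 1128 * K -
      16 * X - 560 - 3 * o - 173 * (o - y) - 149 * w - 584 * b + 16 * s' + d)
    (hw : w = x + y) (hNI : NI n p K W X f e N b (S + 149 * y) s' x d) :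
    z ≤ S - 560 - 3 * o - 173 * (o - y) := by
  unfold NI at hNI
  subst hw
  linarith

variable {L : Finset V} {j : ι}

/-- the weak hits at a single leaf. -/
theorem weak_hits (s : Stg B Q T U F P a) (hL : {L} ∈ P) (hj : j ∈ aC B Q T U F P {L}) :
    ∑ i ∈ (aC B Q T U F P {L}).erase j, (jC B Q i {L} : ℤ) +
      ∑ k ∈ Sp.Kin (Rg B Q T U F) (slj B Q F) {L}, (jh B Q k L : ℤ) +
      ∑ k ∈ Trs B Q T (Rg B Q T U F) U F P, (jh B Q k L : ℤ) + hit B U L =
      hit B ((Q \ (B j ∩ Q)) \ L) L := by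
  have hjT : j ∈ T := (s.tl_sub (mem_filter.1 hj).1).1
  have h1 := s.frm.hit_two s.viol.reg (s.leafF hL) hjT
  have h3 := s.sum_jh hL
  have h4 : ∑ i ∈ aC B Q T U F P {L}, (jh B Q i L : ℤ) =
      jh B Q j L + ∑ i ∈ (aC B Q T U F P {L}).erase j, (jC B Q i {L} : ℤ) := by
    rw [← add_sum_erase _ _ hj]
    simp only [s.jC_one]
  have h6 : ((hit B ((Q \ (B j ∩ Q)) \ L) L + jh B Q j L : ℕ) : ℤ) =
      ((∑ j ∈ T, jh B Q j L + hit B U L : ℕ) : ℤ) := by exact_mod_cast h1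
  push_cast at h6
  rw [h4] at h3
  linarith

/-- **the excess of a single leaf without centres and inside triples**. -/
theorem ex_nct (s : Stg B Q T U F P a) (t : ι → ℤ) (hL : {L} ∈ P)
    (hn : ¬ Ful B Q T U F P a {L}) (hj : j ∈ aC B Q T U F P {L})
    (hK : Sp.Kin (Rg B Q T U F) (slj B Q F) {L} = ∅) (hB : NCt B Q T U F P {L}) :
    Exs B Q T U F P a t j {L} ≤ 245 * (jh B Q j L : ℤ) - 715 -
      10 * (hit B ((Q \ (B j ∩ Q)) \ L) L : ℤ) - 240 * (dv B Q L + 1) -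
      346 * ((owj B Q U F P a j {L} : ℤ) - yC B Q U F P j {L}) := by
  have hLF := s.leafF hL
  have h1 := s.xcl_le_y 149 t hL hn hj
  have h2 : ∑ k ∈ Trs B Q T (Rg B Q T U F) U F P,
      (144 * (jC B Q k {L} : ℤ) - Xv 149 B Q T U F P k {L}) ≤
      ∑ k ∈ Trs B Q T (Rg B Q T U F) U F P, -5 * (jh B Q k L : ℤ) := by
    refine sum_le_sum fun k hk => ?_
    have h3 := s.trs_le' hk hL hB
    rw [s.jC_one] at h3 ⊢
    exact h3
  rw [← mul_sum] at h2
  have h3 := s.weak_hits hL hj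
  obtain ⟨_, hdv, hd1⟩ := s.viol.even_dv s.frm hLF
  unfold tK at h1
  rw [hK] at h1 h3
  rw [s.jC_one, sum_singleton, sum_empty, s.uin_one, sum_empty, sum_empty, s.gC_one hL] at h1
  rw [sum_empty] at h3
  unfold Exs
  rw [s.jC_one]
  linarith

/-- the hits of `U` on a leaf are at most the single traces. -/
theorem hitU_le (s : Stg B Q T U F P a) (hLF : L ∈ F) : hit B U L ≤ nt B L 1 := by
  have h1 := (s.one hLF).gn
  exact_mod_cast h1

/-- the own hits at a single leaf. -/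
theorem yC_le (s : Stg B Q T U F P a) (hL : {L} ∈ P) (j : ι) :
    yC B Q U F P j {L} ≤ hit B U L := by
  have h1 := s.gC_one hL
  have h2 : yC B Q U F P j {L} ≤ gC B U F P {L} := by
    unfold yC gC
    exact sum_le_sum_of_subset Sp.UU_sub
  have h3 : gC B U F P {L} = hit B U L := by exact_mod_cast h1
  omega

/-- the rows of a single leaf: `H` the hits of the line triple, `W` the other hits. -/
theorem rows_num {P' e n H W : ℕ} (hev : Even P') (h10 : H ≤ 10) (hW2 : 2 ≤ W)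
    (hW3 : 1 ≤ P' → 3 ≤ W) (hs : 6 * (H + W) + 23 * e + n ≤ 5 * P' + 55) :
    245 * (H : ℤ) - 715 - 10 * W - 240 * P' ≤ -190 ∨ (P' = 0 ∧ 3 ≤ H) ∨
      (e = 0 ∧ ((P' = 2 ∧ 5 ≤ H) ∨ (P' = 4 ∧ 7 ≤ H) ∨ (P' = 6 ∧ 9 ≤ H))) := by
  obtain ⟨q, rfl⟩ := hev
  rcases (by omega : q = 0 ∨ q = 1 ∨ q = 2 ∨ q = 3 ∨ 4 ≤ q) with rfl | rfl | rfl | rfl | h
  · rcases (by omega : 3 ≤ H ∨ H ≤ 2) with h1 | h1
    · exact Or.inr (Or.inl ⟨rfl, h1⟩)
    · exact Or.inl (by omega)
  · have := hW3 (by norm_num)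
    rcases (by omega : 5 ≤ H ∨ H ≤ 4) with h1 | h1
    · exact Or.inr (Or.inr ⟨by omega, Or.inl ⟨rfl, h1⟩⟩)
    · exact Or.inl (by omega)
  · have := hW3 (by norm_num)
    rcases (by omega : 7 ≤ H ∨ H ≤ 6) with h1 | h1
    · exact Or.inr (Or.inr ⟨by omega, Or.inr (Or.inl ⟨rfl, h1⟩)⟩)
    · exact Or.inl (by omega)
  · have := hW3 (by norm_num)
    rcases (by omega : 9 ≤ H ∨ H ≤ 8) with h1 | h1
    · exact Or.inr (Or.inr ⟨by omega, Or.inr (Or.inr ⟨rfl, h1⟩)⟩)
    · exact Or.inl (by omega)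
  · have := hW3 (by omega)
    exact Or.inl (by push_cast; omega)

end Stg

end Pool.Agent.Hyp6
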