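import Pool.Agent.Hyp6.L3Rd8
import Pool.Agent.Hyp6.L3Vc
import Pool.Agent.Hyp6.L3Ne

/-!
# HYP6 L3RD9: the excess of a single leaf of a line with own points, numbers

`NumF`: the numbers of a single leaf with one distinguished line triple. `NumF.k1`, `NumF.b1`: with inside
triples, with a centre.
-/

set_option autoImplicit false

namespace Pool.Agent.Hyp6

open Finset Pool.Agent.Hyp5 Rt

universe u v

/-- the numbers of a single leaf: `t` hits of the line triple, `S` hits of the `b` centred triples, `X`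
hits of the `k` inside triples, `w` other hits of triples, `g` hits of `U`, `E` the excess. -/
structure NumF (E p n m f e g t S w b pi k X K : ℤ) : Prop where
  num : NumL p n m f e g (t + S + w + X)
  up : E ≤ 245 * t - 715 + 320 * S - 1168 * b - 152 * pi - 10 * (w + g) + 480 * e - 240 * p +
    2 * (160 * X - 1320 * k) - 2 * K
  K0 : -600 * k + 16 * X ≤ K
  S8 : S ≤ 8 * b
  S0 : 0 ≤ S
  w0 : 0 ≤ w
  p0 : 0 ≤ pi
  k0 : 0 ≤ k
  X0 : 0 ≤ X
  t0 : 0 ≤ t
  g1 : 1 ≤ g
  e6 : 11 * e ≤ 2 * f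
  ne : 2 * e ≤ n

namespace NumF

variable {E p n m f e g t S w b pi k X K : ℤ}

/-- the bound by the places. -/
theorem le (h : NumF E p n m f e g t S w b pi k X K) :
    E ≤ 1925 - 43 * t - 48 * n - 912 * b - 152 * pi - 298 * (w + g) - 288 * f + 480 * e -
      1440 * k := by
  obtain ⟨⟨h1, h2, h3, h4, h5, h6, h7, h8, h9, h10, h11, h12, h13⟩, h14, h15, h16, h17, h18, h19,
    h20, h21, h22, h23, h24, h25⟩ := h
  linarith

/-- two centres, or a centre and an inside triple, or two inside triples. -/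
theorem two (h : NumF E p n m f e g t S w b pi k X K) (h2 : 2 ≤ b + k) :
    E ≤ -245 := by
  have h0 := h.le
  obtain ⟨⟨h1, _, h3, h4, h5, h6, h7, h8, h9, h10, h11, h12, h13⟩, h14, h15, h16, h17, h18, h19,
    h20, h21, h22, h23, h24, h25⟩ := h
  linarith

/-- one inside triple. -/
theorem k1 (h : NumF E p n m f e g t S w b pi k X K) (hb : b = 0) (hk : k = 1)
    (hA : Few2 (p - 1 - 2 * e) (t + X) (w + g)) : E ≤ -159 - 43 * t := by
  have h0 := h.le
  obtain ⟨⟨h1, h2, h3, h4, h5, h6, h7, h8, h9, h10, h11, h12, h13⟩, h14, h15, h16, h17, h18, h19,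
    h20, h21, h22, h23, h24, h25⟩ := h
  obtain ⟨a1, a2, a3, a4⟩ := hA
  subst hb hk
  obtain rfl : S = 0 := by omega
  rcases (by omega : 2 ≤ w + g ∨ w + g ≤ 1) with h33 | h33
  · linarith
  · rcases (by omega : 1 ≤ e ∨ e = 0) with h34 | rfl
    · linarith
    · by_cases h35 : p = 0
      · have := a1 (by omega) h33
        omega
      · by_cases h36 : p = 2
        · have := a2 (by omega) h33
          have : n = 5 := by omega
          omega
        · have := a4 (by omega)
          omega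

/-- one centre. -/
theorem b1 (h : NumF E p n m f e g t S w b pi k X K) (hb : b = 1) (hk : k = 0) (ht : t ≤ 10)
    (hX : X = 0) (hs3 : m ≤ 3 → S + 2 * e ≤ n) (hs5 : 5 ≤ m → pi = 1 ∨ S + 4 * e ≤ 2 * n)
    (h51 : m = 5 → n = 1 → S ≤ 6) (hga : m = 3 → n = 1 → t ≤ 6)
    {w2 : ℤ} (hw2 : w2 ≤ w + g)
    (hA : Few2 (p - 1 - 2 * e) (t + S + w + g - w2) w2) :
    E ≤ -85 ∨ (m = 1 ∧ t = 3 ∧ w + g ≤ 2 ∧ E ≤ -28 - 10 * (w + g)) ∨
      (m = 1 ∧ t = 4 ∧ w + g ≤ 2 ∧ E ≤ -103 - 10 * (w + g)) ∨ (n = 1 ∧ t = 6 ∧ E ≤ -105) := by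
  obtain ⟨⟨h1, h2, h3, h4, h5, h6, h7, h8, h9, h10, h11, h12, h13⟩, h14, h15, h16, h17, h18, h19,
    h20, h21, h22, h23, h24, h25⟩ := h
  obtain ⟨a1, a2, a3, a4⟩ := hA
  subst hb hk hX
  have hE : E ≤ 245 * t - 1883 + 320 * S - 152 * pi - 10 * (w + g) + 480 * e - 240 * p := by
    linarith
  have hsl : 2 * (t + S + w + g + f) = 3 * n + 5 * m := by omega
  clear h14 h15
  rcases (by omega : m = 1 ∨ m = 3 ∨ m = 5 ∨ m = 7 ∨ 9 ≤ m) with rfl | rfl | rfl | rfl | hm
  · obtain rfl : n = 5 := h7 rfl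
    have hs := hs3 (by norm_num)
    clear hs3 hs5 h51 a4
    rcases (by omega : e = 0 ∨ 1 ≤ e) with rfl | he
    · have hH : w + g ≤ 1 → t + S ≤ 8 := by
        intro h
        have b1 := a2 (by omega) (by omega)
        omega
      rcases (by omega : S = 5 ∨ S = 4 ∨ S ≤ 3) with hS | hS | hS
      · subst hS
        rcases (by omega : t = 3 ∨ t ≤ 2) with ht3 | ht3
        · subst ht3
          exact Or.inr (Or.inl ⟨rfl, rfl, by omega, by omega⟩)
        · left
          omega
      · subst hS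
        rcases (by omega : t = 4 ∨ t ≤ 3) with ht3 | ht3
        · subst ht3
          exact Or.inr (Or.inr (Or.inl ⟨rfl, rfl, by omega, by omega⟩))
        · left
          omega
      · left
        omega
    · left
      omega
  · have hs := hs3 (by norm_num)
    clear hs3 hs5 h51 h7
    left
    rcases (by omega : 1 ≤ e ∨ n = 1 ∧ e = 0 ∨ 3 ≤ n ∧ e = 0) with he | ⟨rfl, rfl⟩ | ⟨hn, rfl⟩
    · omega
    · have := hga rfl rfl
      omega
    · have b1 := a4 (by omega)
      omega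
  · have hs := hs5 (by norm_num)
    have hs' := h51 rfl
    clear hs3 hs5 h51 h7
    rcases (by omega : 1 ≤ e ∧ 3 ≤ n ∨ n = 1 ∧ e = 0 ∨ 3 ≤ n ∧ e = 0) with
      ⟨he, hn⟩ | ⟨rfl, rfl⟩ | ⟨hn, rfl⟩
    · left
      rcases hs with hs | hs
      · subst hs
        linarith
      · linarith
    · have b1 := a4 (by omega)
      have b2 := hs' rfl
      rcases (by omega : t = 6 ∨ t ≤ 5 ∨ 7 ≤ t) with ht6 | ht6 | ht6
      · right; right; right
        subst ht6
        refine ⟨rfl, rfl, ?_⟩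
        rcases hs with hs | hs
        · subst hs
          omega
        · omega
      · left
        rcases hs with hs | hs
        · subst hs
          linarith
        · linarith
      · left
        rcases hs with hs | hs
        · subst hs
          linarith
        · linarith
    · left
      have b1 := a4 (by omega)
      rcases hs with hs | hs
      · subst hs
        omega
      · omega
  · have hs := hs5 (by omega)
    clear hs3 hs5 h51 h7
    left
    rcases (by omega : 1 ≤ e ∨ e = 0) with he | rfl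
    · rcases hs with hs | hs
      · subst hs
        omega
      · omega
    · have b1 := a4 (by omega)
      rcases hs with hs | hs
      · subst hs
        omega
      · omega
  · left
    have hs := hs5 (by omega)
    clear hs3 hs5 h51 h7 a1 a2 a3
    rcases hs with hs | hs
    · subst hs
      omega
    · omega

/-- one centre, few hits. -/
theorem b1s (h : NumF E p n m f e g t S w b pi k X K) (hb : b = 1) (hk : k = 0) (ht : t ≤ 4)
    (hX : X = 0) (hs3 : m ≤ 3 → S + 2 * e ≤ n) (hs5 : 5 ≤ m → pi = 1 ∨ S + 4 * e ≤ 2 * n)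
    (h51 : m = 5 → n = 1 → S ≤ 6) {w2 : ℤ} (hw2 : w2 ≤ w + g)
    (hA : Few2 (p - 1 - 2 * e) (t + S + w + g - w2) w2) :
    E ≤ -190 ∨ (m = 1 ∧ t = 3 ∧ w + g ≤ 2 ∧ E ≤ -28 - 10 * (w + g)) ∨
      (m = 1 ∧ t = 4 ∧ w + g ≤ 2 ∧ E ≤ -103 - 10 * (w + g)) := by
  obtain ⟨⟨h1, h2, h3, h4, h5, h6, h7, h8, h9, h10, h11, h12, h13⟩, h14, h15, h16, h17, h18, h19,
    h20, h21, h22, h23, h24, h25⟩ := h
  obtain ⟨a1, a2, a3, a4⟩ := hA
  subst hb hk hX
  have hE : E ≤ 245 * t - 1883 + 320 * S - 152 * pi - 10 * (w + g) + 480 * e - 240 * p := by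
    linarith
  have hsl : 2 * (t + S + w + g + f) = 3 * n + 5 * m := by omega
  clear h14 h15
  rcases (by omega : m = 1 ∨ m = 3 ∨ m = 5 ∨ 7 ≤ m) with rfl | rfl | rfl | hm
  · obtain rfl : n = 5 := h7 rfl
    have hs := hs3 (by norm_num)
    clear hs3 hs5 h51 a4
    rcases (by omega : e = 0 ∨ 1 ≤ e) with rfl | he
    · have hH : w + g ≤ 1 → t + S ≤ 8 := by
        intro h
        have b1 := a2 (by omega) (by omega)
        omega
      rcases (by omega : S = 5 ∨ S = 4 ∨ S ≤ 3) with hS | hS | hS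
      · subst hS
        rcases (by omega : t = 3 ∨ t ≤ 2) with ht3 | ht3
        · subst ht3
          exact Or.inr (Or.inl ⟨rfl, rfl, by omega, by omega⟩)
        · left
          omega
      · subst hS
        rcases (by omega : t = 4 ∨ t ≤ 3) with ht3 | ht3
        · subst ht3
          exact Or.inr (Or.inr ⟨rfl, rfl, by omega, by omega⟩)
        · left
          omega
      · left
        omega
    · left
      omega
  · have hs := hs3 (by norm_num)
    left
    linarith
  · have hs := hs5 (by norm_num)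
    have hs' := h51 rfl
    left
    rcases (by omega : n = 1 ∨ 3 ≤ n) with rfl | hn
    · have b2 := hs' rfl
      linarith
    · linarith
  · left
    linarith

end NumF

variable {V : Type v} [DecidableEq V] {ι : Type u} [Fintype ι] [DecidableEq ι]
  {B : ι → Finset V}

namespace StgR

variable {Q U : Finset V} {T : Finset ι} {F : Finset (Finset V)}
  {P : Finset (Finset (Finset V))} {a : V → Finset (Finset V) → ℕ} {L : Finset V} {j : ι}

/-- **the numbers of a single leaf with a distinguished line triple with own points**. -/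
theorem numF (s : StgR B Q T U F P a) (hL : {L} ∈ P) (hn : ¬ Ful B Q T U F P a {L})
    (hj : j ∈ aC B Q T U F P {L}) (ho : 1 ≤ (oj B Q U F P j).card) :
    ∃ w : ℤ, w = ∑ i ∈ (aC B Q T U F P {L}).erase j, (jC B Q i {L} : ℤ) +
        (∑ k ∈ Trs B Q T (Rg B Q T U F) U F P, (jh B Q k L : ℤ) -
          ∑ k ∈ Bs B Q T U F P L, (sB B Q F k L : ℤ)) ∧
      NumF (Exs B Q T U F P a (tF B Q T U F P) j {L} +
          346 * ((owj B Q U F P a j {L} : ℤ) - yC B Q U F P j {L}))
        (Pp B L) (nt B L 1) L.card (fs B Q L) (ee B Q L) (hit B U L) (jh B Q j L)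
        (∑ k ∈ Bs B Q T U F P L, (sB B Q F k L : ℤ)) w (Bs B Q T U F P L).card
        (∑ k ∈ Bs B Q T U F P L, (pB B Q T U F P k L : ℤ))
        (Sp.Kin (Rg B Q T U F) (slj B Q F) {L}).card
        (∑ k ∈ Sp.Kin (Rg B Q T U F) (slj B Q F) {L}, (jh B Q k L : ℤ))
        (tK B Q (Rg B Q T U F) F (tF B Q T U F P) {L}) := by
  have hLF := s.toStg.leafF hL
  refine ⟨_, rfl, ?_⟩
  obtain ⟨hjt, hjl⟩ := Sp.mem_atl.1 hj
  have h1 := s.toStg.xcl_le_y 149 (tF B Q T U F P) hL hn hj
  have h2 := s.toStg.sum_jh hL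
  have h3 := s.toStg.sum_terms hL
  have h4 := s.toStg.kin_term hL
  have h5 := s.toStg.one hLF
  have h6 := s.toStg.kin_le (W := L)
  have h9 : (∑ j ∈ Bs B Q T U F P L, (sB B Q F j L : ℤ)) ≤
      8 * ((Bs B Q T U F P L).card : ℤ) := by
    have h10 : ∀ j ∈ Bs B Q T U F P L, (sB B Q F j L : ℤ) ≤ 8 := fun j hj => by
      exact_mod_cast s.toStg.sB_eight hLF hj
    have h11 := sum_le_sum h10
    rw [sum_const, nsmul_eq_mul] at h11
    linarith
  have h10 : (∑ j ∈ Bs B Q T U F P L, (sB B Q F j L : ℤ)) ≤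
      ∑ j ∈ Trs B Q T (Rg B Q T U F) U F P, (jh B Q j L : ℤ) := by
    refine (sum_le_sum fun j _ => (by exact_mod_cast s.toStg.sB_le :
      (sB B Q F j L : ℤ) ≤ jh B Q j L)).trans ?_
    exact sum_le_sum_of_subset_of_nonneg Bs_sub fun _ _ _ => by positivity
  have h11 : ∑ i ∈ aC B Q T U F P {L}, (jh B Q i L : ℤ) =
      jh B Q j L + ∑ i ∈ (aC B Q T U F P {L}).erase j, (jC B Q i {L} : ℤ) := by
    rw [← add_sum_erase _ _ hj]
    simp only [s.toStg.jC_one]
  have h12 : 1 ≤ hit B U L := (s.toStg.own_hit hjt ho hjl).trans (s.toStg.yC_le hL j)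
  have h13 : ∑ k ∈ Sp.Kin (Rg B Q T U F) (slj B Q F) {L}, (16 * (jh B Q k L : ℤ) - 600) ≤
      tK B Q (Rg B Q T U F) F (tF B Q T U F P) {L} := by
    unfold tK
    refine sum_le_sum fun k hk => ?_
    have h14 := s.tF_kin_ge hL hk
    have h15 : jh B Q k L ≤ ∑ L ∈ F, jh B Q k L :=
      single_le_sum (f := fun L => jh B Q k L) (fun _ _ => Nat.zero_le _) hLF
    have h16 : (jh B Q k L : ℤ) ≤ ((∑ L ∈ F, jh B Q k L : ℕ) : ℤ) := by exact_mod_cast h15
    linarith
  rw [sum_sub_distrib, sum_const, nsmul_eq_mul, ← mul_sum] at h13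
  rw [h11] at h2
  have e1 : ∑ k ∈ Trs B Q T (Rg B Q T U F) U F P,
      (144 * (jC B Q k {L} : ℤ) - Xv 149 B Q T U F P k {L}) =
      ∑ k ∈ Trs B Q T (Rg B Q T U F) U F P,
      (144 * (jh B Q k L : ℤ) - Xv 149 B Q T U F P k {L}) :=
    sum_congr rfl fun k _ => by rw [s.toStg.jC_one]
  rw [e1, h4, s.toStg.jC_one, sum_singleton, s.toStg.uin_one, sum_empty,
    s.toStg.gC_one hL] at h1
  refine ⟨?_, ?_, by linarith, h9, sum_nonneg fun _ _ => by positivity, ?_,
    sum_nonneg fun _ _ => by positivity, by positivity, sum_nonneg fun _ _ => by positivity,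
    by positivity, by exact_mod_cast h12, s.viol.ee_fs (s.frm.FQ hLF),
    by exact_mod_cast s.toStg.two_ee_nt hLF⟩
  · have e2 : (jh B Q j L : ℤ) + ∑ k ∈ Bs B Q T U F P L, (sB B Q F k L : ℤ) +
        (∑ i ∈ (aC B Q T U F P {L}).erase j, (jC B Q i {L} : ℤ) +
          (∑ k ∈ Trs B Q T (Rg B Q T U F) U F P, (jh B Q k L : ℤ) -
            ∑ k ∈ Bs B Q T U F P L, (sB B Q F k L : ℤ))) +
        ∑ k ∈ Sp.Kin (Rg B Q T U F) (slj B Q F) {L}, (jh B Q k L : ℤ) =
        ∑ j ∈ T, (jh B Q j L : ℤ) := by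
      rw [h2]
      ring
    rw [e2]
    exact h5
  · unfold Exs
    rw [s.toStg.jC_one]
    linarith
  · have e3 : 0 ≤ ∑ i ∈ (aC B Q T U F P {L}).erase j, (jC B Q i {L} : ℤ) :=
      sum_nonneg fun _ _ => by positivity
    linarith

end StgR

end Pool.Agent.Hyp6
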