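import Pool.Agent.Hyp6.L3Rd9
import Pool.Agent.Hyp6.L3L2
import Pool.Agent.Hyp6.L3Tf

/-!
# HYP6 L3RDA: the excess of the single leaves of a line with own points

`StgR.ex_one`: at a single leaf which is not full the excess is at most `exS`, or it is a leaf with three
points and at least four hits, or a point with six hits.
-/

set_option autoImplicit false

namespace Pool.Agent.Hyp6

open Finset Pool.Agent.Hyp5 Rt

universe u v

variable {V : Type v} [DecidableEq V] {ι : Type u} [Fintype ι] [DecidableEq ι]
  {B : ι → Finset V}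

theorem exS_big {h : ℕ} (h3 : 3 ≤ h) : -5 ≤ exS h := by
  unfold exS sF
  split_ifs <;> omega

theorem exS_odd {h : ℕ} (h3 : 3 ≤ h) (ho : h % 2 = 1) : exS h = 0 := by
  unfold exS sF
  split_ifs <;> omega

namespace StgR

variable {Q U : Finset V} {T : Finset ι} {F : Finset (Finset V)}
  {P : Finset (Finset (Finset V))} {a : V → Finset (Finset V) → ℕ} {L : Finset V} {j : ι}

/-- **the excess of a single leaf of a line with own points**. -/
theorem ex_one (s : StgR B Q T U F P a) (hF : Few B Q T F) (h31 : Ga31 B Q T U F)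
    (h51 : ∀ i ∈ Bs B Q T U F P L, L.card = 5 → nt B L 1 = 1 → sB B Q F i L ≤ 6)
    (hL : {L} ∈ P) (hn : ¬ Ful B Q T U F P a {L}) (hj : j ∈ aC B Q T U F P {L})
    (ho : 1 ≤ (oj B Q U F P j).card) (h10 : jh B Q j L ≤ 10) :
    Exs B Q T U F P a (tF B Q T U F P) j {L} ≤ exS (jh B Q j L) ∨
    (L.card = 3 ∧ nt B L 1 = 1 ∧ dv B Q L = -1 ∧ hit B U L ≤ 2 ∧ 4 ≤ jh B Q j L) ∨
    (L.card = 1 ∧ jh B Q j L = 6 ∧ Exs B Q T U F P a (tF B Q T U F P) j {L} ≤ 245) := by
  have hLF := s.toStg.leafF hL
  have hjt : j ∈ tl B Q T U F P := (Sp.mem_atl.1 hj).1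
  have hjT : j ∈ T := (s.toStg.tl_sub hjt).1
  -- the unused own units
  have hoy : (yC B Q U F P j {L} : ℤ) ≤ owj B Q U F P a j {L} := by
    rcases s.toStg.bal {L} hL with h3 | h3
    · exact absurd h3 hn
    · have h4 : yC B Q U F P j {L} ≤ owj B Q U F P a j {L} := by
        unfold yC owj Sp.owl Sp.ld
        exact sum_le_sum fun u hu => h3 u (Sp.UU_sub hu)
      exact_mod_cast h4
  obtain ⟨x, hx⟩ : ∃ x, x = Exs B Q T U F P a (tF B Q T U F P) j {L} := ⟨_, rfl⟩
  obtain ⟨e, he⟩ : ∃ e : ℤ, e = (owj B Q U F P a j {L} : ℤ) - yC B Q U F P j {L} := ⟨_, rfl⟩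
  rw [← hx]
  have he0 : 0 ≤ e := by linarith
  have hge := exS_ge (jh B Q j L)
  obtain ⟨w, hw, h⟩ := s.numF hL hn hj ho
  rw [← hx, ← he] at h
  have hsum := s.toStg.sum_jh hL
  have hA : ∑ i ∈ aC B Q T U F P {L}, (jh B Q i L : ℤ) =
      jh B Q j L + ∑ i ∈ (aC B Q T U F P {L}).erase j, (jC B Q i {L} : ℤ) := by
    rw [← add_sum_erase _ _ hj]
    simp only [s.toStg.jC_one]
  rw [hA] at hsum
  -- two centres or inside triples
  by_cases h2 : 2 ≤ (Bs B Q T U F P L).card + (Sp.Kin (Rg B Q T U F) (slj B Q F) {L}).card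
  · left
    have h3 := h.two (by exact_mod_cast h2)
    linarith
  push Not at h2
  rcases Nat.eq_zero_or_pos (Bs B Q T U F P L).card with hb | hb
  · rcases Nat.eq_zero_or_pos (Sp.Kin (Rg B Q T U F) (slj B Q F) {L}).card with hk | hk
    · -- no centre, no inside triple
      have hK : Sp.Kin (Rg B Q T U F) (slj B Q F) {L} = ∅ := card_eq_zero.1 hk
      have hB : Bs B Q T U F P L = ∅ := card_eq_zero.1 hb
      have hNC : NCt B Q T U F P {L} := s.toStg.nct_of_Bs hB
      have h1 := s.toStg.ex_nct (tF B Q T U F P) hL hn hj hK hNC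
      rw [← hx, ← he] at h1
      obtain ⟨p, q, z, hpq, hpz, hqz, hT⟩ := card_eq_three.1 (s.frm.full hjT)
      have hR := s.toStg.trow hL hjt hT hpq hpz hqz
      obtain ⟨hev, hdv, hd1⟩ := s.viol.even_dv s.frm hLF
      have h5 : ((dv B Q L + 1).toNat : ℤ) = dv B Q L + 1 := Int.toNat_of_nonneg (by omega)
      have hs : jh B Q j L = (Ez B L p).card + (Ez B L q).card + (Ez B L z).card := by
        unfold jh
        rw [hit_eq_Ez, hT, sum_insert (by simp [hpq, hpz]), sum_pair hqz]
        omega
      obtain ⟨W, hW⟩ : ∃ W, W = hit B ((Q \ (B j ∩ Q)) \ L) L := ⟨_, rfl⟩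
      rw [← hW] at h1 hR
      obtain ⟨H, hH⟩ : ∃ H, H = jh B Q j L := ⟨_, rfl⟩
      rw [← hH] at h1 hs hge h10 ⊢
      have hW2 := hR.W2
      have hW3 := hR.W3
      have hm := hR.main hev
      rw [← hs] at hm
      obtain ⟨k0, k2, k4, k6⟩ := s.toStg.small_leaf hLF (L := L) |> fun f =>
        (⟨fun he0 => (f he0).1, fun he0 => (f he0).2.1, fun he0 => (f he0).2.2.1,
          fun he0 => (f he0).2.2.2⟩ : _ ∧ _ ∧ _ ∧ _)
      rcases (by omega : H ≤ 2 ∨ H = 3 ∨ 4 ≤ H) with h6 | h6 | h6
      · left
        have h7 : (H : ℤ) ≤ 2 := by exact_mod_cast h6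
        have h8 : (2 : ℤ) ≤ W := by exact_mod_cast hW2
        linarith
      · left
        subst h6
        have h8 : (2 : ℤ) ≤ W := by exact_mod_cast hW2
        rw [exS_odd le_rfl rfl]
        push_cast at h1
        linarith
      · have hb5 := exS_big (h := H) (by omega)
        rcases hm with hm | ⟨hz, hm⟩
        · left
          have h7 : (144 : ℤ) * (H : ℤ) + 120 ≤ 560 + 120 * ((dv B Q L + 1).toNat : ℤ) +
            5 * (W : ℤ) := by exact_mod_cast hm
          rw [h5] at h7
          have h8 : (4 : ℤ) ≤ H := by exact_mod_cast h6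
          linarith
        · rcases hm with ⟨hP, _⟩ | ⟨hP, hm⟩ | ⟨hP, hm⟩ | ⟨hP, hm⟩
          · obtain ⟨m1, m2⟩ := k0 hz hP
            right; left
            have h7 := s.toStg.hitU_le hLF
            exact ⟨m1, m2, by omega, by omega, h6⟩
          · have m1 := k2 hz hP
            have h7 := s.le_six hL hjT m1
            rw [← hH] at h7
            have h8 : (3 : ℤ) ≤ W := by exact_mod_cast hW3 (by omega)
            rw [hP] at h5
            push_cast at h5
            rcases (by omega : H = 6 ∨ H = 5 ∨ H = 4) with h9 | h9 | h9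
            · right; right
              subst h9
              refine ⟨m1, rfl, ?_⟩
              push_cast at h1
              linarith
            · left
              subst h9
              rw [exS_odd (by norm_num) rfl]
              push_cast at h1
              linarith
            · left
              subst h9
              push_cast at h1
              linarith
          · obtain ⟨m1, m2⟩ := k4 hz hP
            obtain ⟨_, h7⟩ := s.toStg.le7_three hL hjt hz m1 hP
            rw [← hH] at h7
            have h8 : H = 7 ∧ 4 ≤ W := by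
              rcases hm with ⟨h8, _, h9⟩ | ⟨h8, h9, _⟩ | ⟨h8, h9, _⟩
              · exact ⟨h8, by omega⟩
              · unfold isP at h8
                exact ⟨by omega, by omega⟩
              · unfold isP at h8
                exact ⟨by omega, by omega⟩
            obtain ⟨h8, h9⟩ := h8
            subst h8
            left
            rw [exS_odd (by norm_num) rfl]
            rw [hP] at h5
            have h9' : (4 : ℤ) ≤ W := by exact_mod_cast h9
            push_cast at h1 h5
            linarith
          · exfalso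
            have h7 := s.toStg.le8_five hL hjt hz (k6 hz hP).1 hP
            omega
    · -- one inside triple
      left
      obtain ⟨k, hk1⟩ := card_eq_one.1
        (show (Sp.Kin (Rg B Q T U F) (slj B Q F) {L}).card = 1 by omega)
      have hkK : k ∈ Sp.Kin (Rg B Q T U F) (slj B Q F) {L} := by
        rw [hk1]
        exact mem_singleton_self k
      have hkT := (s.toStg.kin.1 hkK).1
      have hjk : j ≠ k := by
        rintro rfl
        exact (mem_filter.1 (mem_filter.1 hjt).1).2.2 {L} hL (s.toStg.kin.1 hkK).2.2.2.2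
      obtain ⟨w2, h4, h5⟩ := s.toStg.few2 hF hLF hjT hkT hjk
      have hB : Bs B Q T U F P L = ∅ := card_eq_zero.1 hb
      rw [hB] at hw
      rw [hk1, sum_singleton] at hsum
      have h7 : w2 = w + hit B U L := by
        rw [h5, hsum, hw, sum_empty]
        ring
      have h8 : ∑ j ∈ T, (jh B Q j L : ℤ) + hit B U L - w2 = (jh B Q j L : ℤ) + jh B Q k L := by
        rw [h7, hsum, hw, sum_empty]
        ring
      rw [h8, h7] at h4
      have h9 := h.k1 (by rw [hb]; rfl) (by rw [hk1, card_singleton]; rfl)
        (by rw [hk1, sum_singleton]; exact h4)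
      have h10' : (0 : ℤ) ≤ jh B Q j L := by positivity
      linarith
  · -- one centre
    left
    obtain ⟨i, hi⟩ := card_eq_one.1 (show (Bs B Q T U F P L).card = 1 by omega)
    have hK : Sp.Kin (Rg B Q T U F) (slj B Q F) {L} = ∅ := card_eq_zero.1 (by omega)
    have hiB : i ∈ Bs B Q T U F P L := by rw [hi]; exact mem_singleton_self i
    have hiT := (mem_Bs.1 hiB).1
    have hij : j ≠ i := by
      rintro rfl
      exact (mem_sdiff.1 hiT).2 hjt
    have hiT' := (s.frm.types_trs s.part hiT).1
    obtain ⟨w2, h3, h4⟩ := s.toStg.few2 hF hLF hjT hiT' hij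
    have h6 : (sB B Q F i L : ℤ) ≤ jh B Q i L := by exact_mod_cast s.toStg.sB_le
    rw [hK, sum_empty, add_zero] at hsum
    have hw2 : w2 ≤ w + hit B U L := by
      rw [h4, hsum, hw, hi, sum_singleton]
      linarith
    have h9 : (jh B Q j L : ℤ) + ∑ k ∈ Bs B Q T U F P L, (sB B Q F k L : ℤ) + w +
        hit B U L - w2 = ∑ j ∈ T, (jh B Q j L : ℤ) + hit B U L - w2 := by
      rw [hsum, hw]
      ring
    have h7 := h.b1 (by rw [hi, card_singleton]; rfl) (by rw [hK, card_empty]; rfl)
      (by exact_mod_cast h10) (by rw [hK, sum_empty])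
      (fun hm => by
        rw [hi, sum_singleton]
        exact_mod_cast s.toStg.sB_small hiB (by exact_mod_cast hm))
      (fun _ => by
        rw [hi, sum_singleton, sum_singleton]
        exact s.toStg.sB_big hLF hiB)
      (fun h7 h8 => by
        rw [hi, sum_singleton]
        exact_mod_cast h51 i hiB (by exact_mod_cast h7) (by exact_mod_cast h8))
      (fun h7 h8 => ?_) hw2 (by rw [h9]; exact h3)
    · have hwg : 0 ≤ w + hit B U L := by
        have := h.w0
        positivity
      rcases h7 with h7 | ⟨_, h7, _, h8⟩ | ⟨_, h7, _, h8⟩ | ⟨_, h7, h8⟩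
      · linarith
      · have h10' : jh B Q j L = 3 := by exact_mod_cast h7
        rw [h10', exS_odd le_rfl rfl]
        linarith
      · linarith
      · linarith
    · have h10' := s.toStg.one hLF
      have m1 : L.card = 3 := by exact_mod_cast h7
      have m2 : nt B L 1 = 1 := by exact_mod_cast h8
      have h11 : dv B Q L = -1 := by
        have h12 := s.toStg.dv_W hLF
        have h13 := h10'.pp
        have h14 := h10'.e0
        have h15 := s.toStg.two_ee_nt hLF
        rw [m1, m2] at h13
        have h16 : ee B Q L = 0 := by omega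
        rw [h16] at h12
        push_cast at h12 h13
        linarith
      have h12 := (h31 L hLF m1 m2 h11 j hjT).1
      have h13 : (jh B Q j L : ℤ) ≤ 5 := by exact_mod_cast h12
      linarith

end StgR

end Pool.Agent.Hyp6
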