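import Pool.Agent.Hyp6.L3Y10
import Pool.Agent.Hyp6.L3Ya
import Pool.Agent.Hyp6.L3Yg

/-!
# HYP6 L3Re1: a class refuses the pairs of two triples together

`Stg.comp_par`: a class without inside triples is a parallel class. `dfc_class2`, `Frm.refuse_cls2`: a
class with its inside points refuses by two the pairs of two triples whose third points see two classes
which have rank three with it. `Stg.two_pairs`: this holds for a triple of rank three whose pair sees
only the class and any triple with a point which sees another class. `Frm.rho_blk`: a leaf absorbs every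
block which meets it.
-/

set_option autoImplicit false

namespace Pool.Agent.Hyp6

open Finset Pool.Agent.Hyp5 Rt

universe u v

variable {V : Type v} [DecidableEq V] {ι : Type u} {B : ι → Finset V}
  {Q U : Finset V} {T : Finset ι} {F : Finset (Finset V)}
  {τ : Type*} [DecidableEq τ] {Ts : Finset τ} {NT : τ → Finset (Finset V)}
  {P : Finset (Finset (Finset V))} {C D E : Finset (Finset V)}

omit [DecidableEq τ] in
/-- without the class `C` and leaves of two other classes the outside points can still be matched, if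
the three classes have rank three. -/
theorem dfc_class2 (hg : Sp.Gd F F U (slf B F) Ts NT) (hP : Sp.MinP F F U (slf B F) Ts NT P)
    (hC : C ∈ P) (hD : D ∈ P) (hE : E ∈ P) (hCD : C ≠ D) (hCE : C ≠ E) (hDE : D ≠ E)
    (h3 : Sp.nP U (slf B F) P {C, D, E} ≤ 0) {M K : Finset V} (hM : M ∈ D) (hK : K ∈ E) :
    Sp.dfc (U \ Sp.Uin U (slf B F) C) (slf B F) (C ∪ {M, K}) ≤ 0 := by
  classical
  have h2 : ({C, D, E} : Finset (Finset (Finset V))) \ {C} = {D, E} := by
    ext Z
    simp only [mem_sdiff, mem_insert, mem_singleton]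
    constructor
    · tauto
    · rintro (rfl | rfl)
      · exact ⟨Or.inr (Or.inl rfl), hCD.symm⟩
      · exact ⟨Or.inr (Or.inr rfl), hCE.symm⟩
  have h1 := hP.ptn.free hg (X := Sp.Ux U (slf B F) P) (S := {C, D, E}) (W := {C}) (by
      intro z hz
      rw [mem_insert, mem_insert, mem_singleton] at hz
      rcases hz with rfl | rfl | rfl <;> assumption) (by simp) h3
      (x := fun Z => if Z = D then M else K) (by
      intro Z hZ
      rw [h2, mem_insert, mem_singleton] at hZ
      rcases hZ with rfl | rfl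
      · rw [if_pos rfl]
        exact hM
      · rw [if_neg hDE.symm]
        exact hK)
  have h4 : ({D, E} : Finset (Finset (Finset V))).image (fun Z => if Z = D then M else K) =
      {M, K} := by
    rw [image_insert, image_singleton, if_pos rfl, if_neg hDE.symm]
  rw [h2, h4, singleton_biUnion, id] at h1
  refine Sp.dfc_le fun Z hZ => ?_
  refine le_trans (Sp.le_dfc (hZ.trans ?_)) h1
  intro w hw
  obtain ⟨hw1, hw2⟩ := mem_sdiff.1 hw
  by_cases h3 : ∃ E ∈ P, slf B F w ⊆ E
  · obtain ⟨E, hE, h4⟩ := h3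
    refine mem_union_right _ (mem_biUnion.2 ⟨E, mem_sdiff.2 ⟨hE, ?_⟩, mem_filter.2 ⟨hw1, h4⟩⟩)
    rw [mem_singleton]
    rintro rfl
    exact hw2 (mem_filter.2 ⟨hw1, h4⟩)
  · push Not at h3
    exact mem_union_left _ (mem_filter.2 ⟨hw1, h3⟩)

omit [DecidableEq τ] in
/-- **a class with its inside points refuses by two the pairs of two triples** whose third points see
leaves `M`, `K` of two other classes, if the three classes have rank three. -/
theorem Frm.refuse_cls2 [Fintype ι] (h : Frm B Q T U F) (hg : Sp.Gd F F U (slf B F) Ts NT)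
    (hP : Sp.MinP F F U (slf B F) Ts NT P) (hC : C ∈ P) (hD : D ∈ P) (hE : E ∈ P) (hCD : C ≠ D)
    (hCE : C ≠ E) (hDE : D ≠ E) (h3 : Sp.nP U (slf B F) P {C, D, E} ≤ 0) {i j : ι} (hi : i ∈ T)
    (hj : j ∈ T) (hij : i ≠ j) {z c : V} (hz : z ∈ B i ∩ Q) (hc : c ∈ B j ∩ Q) {M K : Finset V}
    (hM : M ∈ D) (hzM : M ∈ slf B F z) (hK : K ∈ E) (hcK : K ∈ slf B F c) {X : Finset V}
    (hXQ : X ⊆ Q) (hXi : B i ∩ Q ⊆ insert z X) (hXj : B j ∩ Q ⊆ insert c X) :
    ∑ L ∈ C, rho B L + 2 ≤ rho B (Sp.Uin U (slf B F) C ∪ C.biUnion id ∪ X) := by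
  classical
  have hCF : C ⊆ F := (hP.ptn.vc C hC).sub
  obtain ⟨g', hg'⟩ := exists_in (B := B) (C := C) hg hCF
  have hzc : z ≠ c := by
    rintro rfl
    exact disjoint_left.1 (h.mtp.tpk.pack.disj i hi j hj hij) hz hc
  have hMC : M ∉ C := fun h2 => disjoint_left.1 (hP.ptn.dj C hC D hD hCD) h2 hM
  have hKC : K ∉ C := fun h2 => disjoint_left.1 (hP.ptn.dj C hC E hE hCE) h2 hK
  have hMK : M ≠ K := by
    rintro rfl
    exact disjoint_left.1 (hP.ptn.dj D hD E hE hDE) hM hK
  have hdf := dfc_class2 hg hP hC hD hE hCD hCE hDE h3 hM hK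
  obtain ⟨f, e1, e2⟩ : ∃ f : V → Finset V, f z = M ∧ f c = K :=
    ⟨fun p => if p = z then M else K, if_pos rfl, if_neg hzc.symm⟩
  have h1 := h.cost hCF Dcl.empty (T' := ∅) (empty_subset _)
    (U' := Sp.Uin U (slf B F) C) (filter_subset _ _) hg' (I := {i, j}) (by
      intro k hk
      rcases mem_insert.1 hk with rfl | hk
      · exact hi
      · exact mem_singleton.1 hk ▸ hj)
    (disjoint_empty_right _) (P := X) (R := {z, c}) hXQ (by
      intro k hk v hv
      rcases mem_insert.1 hk with rfl | hk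
      · rcases mem_insert.1 (hXi hv) with rfl | h2
        · exact Or.inr (by simp)
        · exact Or.inl h2
      · rw [mem_singleton.1 hk] at hv
        rcases mem_insert.1 (hXj hv) with rfl | h2
        · exact Or.inr (by simp)
        · exact Or.inl h2) (by
      intro v hv
      rcases mem_insert.1 hv with rfl | hv
      · exact mem_inter.2 ⟨mem_biUnion.2 ⟨i, by simp, (mem_inter.1 hz).1⟩, (mem_inter.1 hz).2⟩
      · rw [mem_singleton.1 hv]
        exact mem_inter.2 ⟨mem_biUnion.2 ⟨j, by simp, (mem_inter.1 hc).1⟩, (mem_inter.1 hc).2⟩)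
    (x := f) (by
      intro p hp
      rcases mem_insert.1 hp with rfl | hp
      · rw [e1]
        exact ⟨hzM, hMC⟩
      · rw [mem_singleton.1 hp, e2]
        exact ⟨hcK, hKC⟩) (by
      intro p hp q hq he
      rcases mem_insert.1 hp with rfl | hp
      · rcases mem_insert.1 hq with rfl | hq
        · rfl
        · rw [mem_singleton.1 hq, e1, e2] at he
          exact absurd he hMK
      · rw [mem_singleton.1 hp, e2] at he
        rcases mem_insert.1 hq with rfl | hq
        · rw [e1] at he
          exact absurd he.symm hMK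
        · rw [mem_singleton.1 hp, mem_singleton.1 hq]) (by
      rw [image_insert, image_singleton, e1, e2]
      exact hdf)
  have hdf' : Sp.dfc (U \ Sp.Uin U (slf B F) C) (slf B F) C ≤ 0 :=
    le_trans (Sp.dfc_mono (subset_union_left (s₂ := {M, K}))) hdf
  have h2 := h.rho_cls hCF Dcl.empty (T' := ∅) (empty_subset _)
    (U' := Sp.Uin U (slf B F) C) (filter_subset _ _) hg' (g := Classical.choose (mtI_of_dfc
      (F := F) hdf')) (Classical.choose_spec (mtI_of_dfc (F := F) hdf'))
  rw [card_pair hij] at h1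
  rw [card_empty, add_zero, rho_empty, add_zero] at h2
  have h3 : Zn B Q ∅ (Sp.Uin U (slf B F) C) C ∅ = Sp.Uin U (slf B F) C ∪ C.biUnion id := by
    unfold Zn
    simp
  rw [h3] at h1 h2
  omega

/-- a leaf absorbs every block which meets it. -/
theorem Frm.rho_blk [Fintype ι] (h : Frm B Q T U F) {L : Finset V} (hL : L ∈ F) {k : ι}
    (hk : (B k ∩ L).Nonempty) {X : Finset V} (hX : X ⊆ B k ∩ Q) : rho B (L ∪ X) ≤ rho B L := by
  classical
  obtain ⟨v, hv⟩ := hk
  obtain ⟨hvk, hvL⟩ := mem_inter.1 hv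
  have h1 := h.crit_leaf' hL v hvL
  obtain ⟨S, hS1, hS2⟩ := exists_cover (h.cov.mono ((erase_subset v L).trans (h.FQ hL)))
  have h2 : L ∪ X ⊆ (insert k S).biUnion B := by
    intro w hw
    rcases mem_union.1 hw with hw | hw
    · by_cases he : w = v
      · exact mem_biUnion.2 ⟨k, mem_insert_self _ _, he ▸ hvk⟩
      · obtain ⟨l, hl, hwl⟩ := mem_biUnion.1 (hS1 (mem_erase.2 ⟨he, hw⟩))
        exact mem_biUnion.2 ⟨l, mem_insert_of_mem hl, hwl⟩
    · exact mem_biUnion.2 ⟨k, mem_insert_self _ _, (mem_inter.1 (hX hw)).1⟩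
  have h3 := (Hyp6.rho_le h2).trans (card_insert_le k S)
  omega

section

variable [Fintype ι] [DecidableEq ι] {al : V → Finset (Finset V) → ℕ}

namespace Stg

/-- **a class without inside triples is a parallel class**. -/
theorem comp_par (s : Stg B Q T U F P al) (hC : C ∈ P) (hK : KC B Q T U F C = ∅) :
    C ∈ par0 B U F := by
  have hCF : C ⊆ F := (s.part.ptn.vc C hC).sub
  have h1 := s.card_comp hC hK
  obtain ⟨D, hD, hCD⟩ := Sp.MinP.sub_of_rk s.frm.sur s.par hCF (s.part.ptn.vc C hC).ne h1.le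
  obtain ⟨C', hC', hDC'⟩ := s.sub_class hD
  have h2 : C = C' := by
    by_contra hne
    obtain ⟨L, hL⟩ := (s.part.ptn.vc C hC).ne
    exact disjoint_left.1 (s.part.ptn.dj C hC C' hC' hne) hL (hDC' (hCD hL))
  subst h2
  rw [Subset.antisymm hCD hDC']
  exact hD

/-- a parallel class inside a class without inside triples is the class. -/
theorem par_eq (s : Stg B Q T U F P al) (hC : C ∈ P) (hK : KC B Q T U F C = ∅)
    (hD : D ∈ par0 B U F) (hDC : D ⊆ C) : D = C := by
  by_contra hne
  obtain ⟨L, hL⟩ := s.par.ne hD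
  exact disjoint_left.1 (s.par.dj hD (s.comp_par hC hK) hne) hL (hDC hL)

/-- the third point of a triple of rank three whose pair sees only `C` sees a class outside of the line
of `C` and `G`. -/
theorem pick (s : Stg B Q T U F P al) (hC : C ∈ par0 B U F) {G : Finset (Finset V)}
    (hG : G ∈ par0 B U F) (hCG : C ≠ G) {i : ι}
    (h3 : 3 ≤ rkc B U F (par0 B U F) (mcj B Q F (par0 B U F) i)) {a b z : V}
    (hT : B i ∩ Q = {a, b, z}) (ha : slf B F a ⊆ C) (hb : slf B F b ⊆ C) :
    ∃ E ∈ par0 B U F, C ≠ E ∧ G ≠ E ∧ (∃ M ∈ E, M ∈ slf B F z) ∧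
      Sp.nP U (slf B F) (par0 B U F) {C, G, E} ≤ 0 := by
  classical
  have hn := s.par.nul s.frm.sur
  have hCGP : ({C, G} : Finset (Finset (Finset V))) ⊆ par0 B U F := by
    intro Z hZ
    rcases mem_insert.1 hZ with rfl | hZ
    · exact hC
    · exact mem_singleton.1 hZ ▸ hG
  obtain ⟨l, hl⟩ : ∃ l, l = Sp.clo (Sp.nP U (slf B F) (par0 B U F)) (par0 B U F) {C, G} :=
    ⟨_, rfl⟩
  have hCl : C ∈ l := by
    rw [hl]
    exact Sp.subset_clo hCGP (by simp)
  have hGl : G ∈ l := by
    rw [hl]
    exact Sp.subset_clo hCGP (by simp)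
  have hr2 : Sp.rkn (Sp.nP U (slf B F) (par0 B U F)) l ≤ 2 := by
    rw [hl, hn.rk_clo hCGP]
    unfold Sp.rkn
    rw [card_pair hCG]
    have := hn.nonneg {C, G}
    push_cast
    linarith
  by_contra hcon
  push Not at hcon
  have hsub : mcj B Q F (par0 B U F) i ⊆ l := by
    intro E hE
    obtain ⟨hEP, hEd⟩ := Sp.mem_met.1 hE
    obtain ⟨L, hL, hLE⟩ := not_disjoint_iff.1 hEd
    unfold slj at hL
    rw [hT] at hL
    obtain ⟨p, hp, hLp⟩ := mem_biUnion.1 hL
    have key : ∀ {q : V}, slf B F q ⊆ C → L ∈ slf B F q → E ∈ l := by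
      intro q hq hLq
      by_contra hne
      have hne' : C ≠ E := by
        rintro rfl
        exact hne hCl
      exact disjoint_left.1 (s.par.dj hC hEP hne') (hq hLq) hLE
    simp only [mem_insert, mem_singleton] at hp
    rcases hp with rfl | rfl | rfl
    · exact key ha hLp
    · exact key hb hLp
    · by_contra hne
      have h1 : C ≠ E := by
        rintro rfl
        exact hne hCl
      have h2 : G ≠ E := by
        rintro rfl
        exact hne hGl
      have h4 := hcon E hEP h1 h2 ⟨L, hLE, hLp⟩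
      -- the rank
      apply hne
      rw [hl]
      refine mem_filter.2 ⟨hEP, ?_⟩
      have h5 : insert E ({C, G} : Finset (Finset (Finset V))) = {C, G, E} := by
        ext Z
        simp only [mem_insert, mem_singleton]
        tauto
      have h6 : ({C, G, E} : Finset (Finset (Finset V))).card = 3 := by
        rw [card_insert_of_notMem (by simp [hCG, h1]), card_pair h2]
      have h7 := Sp.MinP.pair s.frm.sur s.par hC hG hCG
      rw [h5]
      unfold Sp.rkn
      rw [h6, card_pair hCG]
      push_cast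
      linarith
  have h4 := hn.rk_mono hsub
  unfold rkc at h3
  linarith

/-- **a parallel class refuses by two the pairs of a triple of rank three, whose pair sees only the
class, and of any triple with a point which sees another class**. -/
theorem two_pairs (s : Stg B Q T U F P al) (hC : C ∈ par0 B U F) {i j : ι} (hi : i ∈ T)
    (hj : j ∈ T) (hij : i ≠ j)
    (h3 : 3 ≤ rkc B U F (par0 B U F) (mcj B Q F (par0 B U F) i)) {a b z : V}
    (hT : B i ∩ Q = {a, b, z}) (ha : slf B F a ⊆ C) (hb : slf B F b ⊆ C) {c : V}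
    (hc : c ∈ B j ∩ Q) {K : Finset V} (hcK : K ∈ slf B F c) (hKC : K ∉ C) {X : Finset V}
    (hXQ : X ⊆ Q) (hXi : B i ∩ Q ⊆ insert z X) (hXj : B j ∩ Q ⊆ insert c X) :
    ∑ L ∈ C, rho B L + 2 ≤ rho B (Sp.Uin U (slf B F) C ∪ C.biUnion id ∪ X) := by
  obtain ⟨G, hG, hKG⟩ := exists_cls s.par (slf_sub hcK)
  have hCG : C ≠ G := by
    rintro rfl
    exact hKC hKG
  obtain ⟨E, hE, hCE, hGE, ⟨M, hME, hMz⟩, h0⟩ := s.pick hC hG hCG h3 hT ha hb
  have h0' : Sp.nP U (slf B F) (par0 B U F) {C, E, G} ≤ 0 := by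
    have : ({C, E, G} : Finset (Finset (Finset V))) = {C, G, E} := by
      rw [pair_comm]
    rw [this]
    exact h0
  exact s.frm.refuse_cls2 s.frm.sur s.par hC hE hG hCE hCG hGE.symm h0' hi hj hij
    (by rw [hT]; simp) hc hME hMz hKG hcK hXQ hXi hXj

end Stg

end

end Pool.Agent.Hyp6
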