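import Pool.Agent.Hyp6.L3Yi

/-!
# HYP6 L3Re3: composite classes with a centre, the integers

`ThC`: the bound of the need of one triple with `h` hits. `Pq`: the hits of the pair of the centre triple
on two leaves, on single traces, refused. `Lc.exc`: two leaves in the exceptional case of the centre
triple.
-/

set_option autoImplicit false

namespace Pool.Agent.Hyp6

/-- the bounds of the need `t` of a triple with `h` hits. -/
structure ThC (h t : ℤ) : Prop where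
  h0 : 0 ≤ h
  h11 : h ≤ 11
  t0 : h = 0 → t ≤ -464
  t1 : h = 1 → t ≤ -255
  t2 : h = 2 → t ≤ -175
  t3 : h = 3 → t ≤ -95
  t4 : h = 4 → t ≤ 60
  t5 : h = 5 → t ≤ 145
  t6 : h = 6 → t ≤ 305
  t7 : h = 7 → t ≤ 465
  t8 : h = 8 → t ≤ 625
  t9 : h = 9 → t ≤ 705
  t10 : h = 10 → t ≤ 775
  t11 : h = 11 → t ≤ 870

namespace ThC

variable {h t : ℤ}

/-- the bound as cases. -/
theorem cases (k : ThC h t) : (h = 0 ∧ t ≤ -464) ∨ (h = 1 ∧ t ≤ -255) ∨ (h = 2 ∧ t ≤ -175) ∨ (h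
    = 3 ∧ t ≤ -95) ∨ (h = 4 ∧ t ≤ 60) ∨ (h = 5 ∧ t ≤ 145) ∨ (h = 6 ∧ t ≤ 305) ∨ (h = 7 ∧ t ≤
    465) ∨ (h = 8 ∧ t ≤ 625) ∨ (h = 9 ∧ t ≤ 705) ∨ (h = 10 ∧ t ≤ 775) ∨ (h = 11 ∧ t ≤ 870) := by
  obtain ⟨a0, a1, b0, b1, b2, b3, b4, b5, b6, b7, b8, b9, b10, b11⟩ := k
  rcases (by omega : h = 0 ∨ h = 1 ∨ h = 2 ∨ h = 3 ∨ h = 4 ∨ h = 5 ∨ h = 6 ∨ h = 7 ∨ h = 8 ∨ h = 9 ∨ h = 10 ∨ h = 11) with
    e | e | e | e | e | e | e | e | e | e | e | e
  · exact Or.inl ⟨e, b0 e⟩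
  · exact Or.inr (Or.inl ⟨e, b1 e⟩)
  · exact Or.inr (Or.inr (Or.inl ⟨e, b2 e⟩))
  · exact Or.inr (Or.inr (Or.inr (Or.inl ⟨e, b3 e⟩)))
  · exact Or.inr (Or.inr (Or.inr (Or.inr (Or.inl ⟨e, b4 e⟩))))
  · exact Or.inr (Or.inr (Or.inr (Or.inr (Or.inr (Or.inl ⟨e, b5 e⟩)))))
  · exact Or.inr (Or.inr (Or.inr (Or.inr (Or.inr (Or.inr (Or.inl ⟨e, b6 e⟩))))))
  · exact Or.inr (Or.inr (Or.inr (Or.inr (Or.inr (Or.inr (Or.inr (Or.inl ⟨e, b7 e⟩)))))))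
  · exact Or.inr (Or.inr (Or.inr (Or.inr (Or.inr (Or.inr (Or.inr (Or.inr (Or.inl ⟨e, b8 e⟩))))))))
  · exact Or.inr (Or.inr (Or.inr (Or.inr (Or.inr (Or.inr (Or.inr (Or.inr (Or.inr (Or.inl ⟨e, b9 e⟩)))))))))
  · exact Or.inr (Or.inr (Or.inr (Or.inr (Or.inr (Or.inr (Or.inr (Or.inr (Or.inr (Or.inr (Or.inl ⟨e, b10 e⟩))))))))))
  · exact Or.inr (Or.inr (Or.inr (Or.inr (Or.inr (Or.inr (Or.inr (Or.inr (Or.inr (Or.inr (Or.inr (⟨e, b11 e⟩)))))))))))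

end ThC

/-- the hits `a`, `b` of the two points of the centre triple on two leaves with `N1`, `N2` single traces
and `y1`, `y2` own hits. -/
structure Pq (m1 N1 y1 a1 b1 m2 N2 y2 a2 b2 : ℤ) : Prop where
  a10 : 0 ≤ a1
  b10 : 0 ≤ b1
  a20 : 0 ≤ a2
  b20 : 0 ≤ b2
  f1 : a1 + b1 ≤ N1
  f2 : a2 + b2 ≤ N2
  ta : a1 + a2 ≤ 4
  tb : b1 + b2 ≤ 4
  p1 : m1 = 1 → a1 ≤ 3
  q1 : m1 = 1 → b1 ≤ 3
  p2 : m2 = 1 → a2 ≤ 3
  q2 : m2 = 1 → b2 ≤ 3
  c1 : 1 ≤ b2 → a1 + y1 ≤ N1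
  d1 : 1 ≤ a2 → b1 + y1 ≤ N1
  e1 : 1 ≤ a2 → 1 ≤ b2 → a1 + b1 + y1 ≤ N1
  c2 : 1 ≤ b1 → a2 + y2 ≤ N2
  d2 : 1 ≤ a1 → b2 + y2 ≤ N2
  e2 : 1 ≤ a1 → 1 ≤ b1 → a2 + b2 + y2 ≤ N2

namespace Pq

variable {m1 N1 y1 a1 b1 m2 N2 y2 a2 b2 : ℤ}

/-- the other order. -/
theorem swap (k : Pq m1 N1 y1 a1 b1 m2 N2 y2 a2 b2) : Pq m2 N2 y2 a2 b2 m1 N1 y1 a1 b1 := by
  obtain ⟨h1, h2, h3, h4, h5, h6, h7, h8, h9, h10, h11, h12, h13, h14, h15, h16, h17, h18⟩ := k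
  exact ⟨h3, h4, h1, h2, h6, h5, by linarith, by linarith, h11, h12, h9, h10, h16, h17, h18, h13,
    h14, h15⟩

/-- a leaf with one single trace has no hit of the pair. -/
theorem one (k : Pq m1 N1 y1 a1 b1 m2 N2 y2 a2 b2) (hy1 : 1 ≤ y1) (hN : N1 = 1)
    (h5 : 5 ≤ a1 + b1 + (a2 + b2)) : a1 + b1 = 0 := by
  obtain ⟨h1, h2, h3, h4, h5, h6, h7, h8, h9, h10, h11, h12, h13, h14, h15, h16, h17, h18⟩ := k
  by_contra hcon
  rcases (by omega : (1 ≤ a1 ∧ b1 = 0) ∨ (1 ≤ b1 ∧ a1 = 0)) with ⟨e1, e2⟩ | ⟨e1, e2⟩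
  · have : b2 ≤ 0 := by
      by_contra h19
      have := h13 (by omega)
      omega
    omega
  · have : a2 ≤ 0 := by
      by_contra h19
      have := h14 (by omega)
      omega
    omega

/-- two leaves with three single traces. -/
theorem three (k : Pq m1 N1 y1 a1 b1 m2 N2 y2 a2 b2) (hy1 : 1 ≤ y1) (hy2 : 1 ≤ y2) (hN : N1 = 3)
    (hM : N2 = 3) : a1 + b1 + (a2 + b2) ≤ 5 := by
  obtain ⟨h1, h2, h3, h4, h5, h6, h7, h8, h9, h10, h11, h12, h13, h14, h15, h16, h17, h18⟩ := k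
  by_contra hcon
  have k1 : a1 + b1 = 3 := by omega
  have k2 : a2 + b2 = 3 := by omega
  clear h5 h6
  rcases (by omega : b2 = 0 ∨ a2 = 0 ∨ (1 ≤ a2 ∧ 1 ≤ b2)) with e | e | ⟨e, e'⟩
  · have h20 := h14 (by omega)
    have h21 := h16 (by omega)
    omega
  · have h20 := h13 (by omega)
    have h21 := h17 (by omega)
    omega
  · have h20 := h15 e e'
    omega

/-- a point and a leaf with three single traces. -/
theorem pt3 (k : Pq m1 N1 y1 a1 b1 m2 N2 y2 a2 b2) (hm : m1 = 1) (hN1 : N1 = 5) (hN : N2 = 3)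
    (hy2 : 1 ≤ y2) : a1 + b1 + (a2 + b2) ≤ 7 ∧ (7 ≤ a1 + b1 + (a2 + b2) → y2 = 1) := by
  obtain ⟨h1, h2, h3, h4, h5, h6, h7, h8, h9, h10, h11, h12, h13, h14, h15, h16, h17, h18⟩ := k
  have h9 := h9 hm
  have h10 := h10 hm
  rcases (by omega : a1 + b1 ≤ 3 ∨ (1 ≤ a1 ∧ 1 ≤ b1)) with e | ⟨e, e'⟩
  · omega
  · have h20 := h18 e e'
    omega

end Pq

/-- the bounds of the need `c` of the centre triple and a triple with `H` hits together, in the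
exceptional case. -/
structure T71 (H c : ℤ) : Prop where
  le : H ≤ 19
  b19 : c ≤ 1566
  lin : c ≤ 120 * H - 599
  b8 : H ≤ 8 → c ≤ 281
  b9 : H ≤ 9 → c ≤ 441
  b10 : H ≤ 10 → c ≤ 521
  b11 : H ≤ 11 → c ≤ 601
  b12 : H ≤ 12 → c ≤ 756
  b13 : H ≤ 13 → c ≤ 841
  b14 : H ≤ 14 → c ≤ 1001
  b15 : H ≤ 15 → c ≤ 1161
  b16 : H ≤ 16 → c ≤ 1321
  b17 : H ≤ 17 → c ≤ 1401
  b18 : H ≤ 18 → c ≤ 1471

theorem ThC.t71 {s h t : ℤ} (k : ThC h t) (h5 : 5 ≤ s) (h8 : s ≤ 8) :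
    T71 (s + h) (160 * s - 584 + t) := by
  rcases k.cases with ⟨k1, k2⟩ | ⟨k1, k2⟩ | ⟨k1, k2⟩ | ⟨k1, k2⟩ | ⟨k1, k2⟩ | ⟨k1, k2⟩ |
      ⟨k1, k2⟩ | ⟨k1, k2⟩ | ⟨k1, k2⟩ | ⟨k1, k2⟩ | ⟨k1, k2⟩ | ⟨k1, k2⟩ <;> subst k1 <;> constructor <;> omega

/-- a double single. -/
theorem T71.dbl {S H Y x N E f c W : ℤ} (k : T71 H c)
    (sl : 6 * (H + Y + x + f) + N = 5 * (S + 2 * E) + 110) (hE : 1 ≤ E) (hf : 6 ≤ f)
    (hf4 : 4 * E ≤ f) (hY : Y = 5 - W) (hW : 0 ≤ W) (hN : Y ≤ N) (hS : 0 ≤ S)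
    (hS2 : S % 2 = 0) (hx : 0 ≤ x) :
    c + 240 - 120 * S - 600 - 160 * W - 5 * x ≤ 0 := by
  have lin := k.lin
  have b8 := k.b8
  subst hY
  have h1 : 10 * E - 6 * f ≤ -26 := by
    rcases (by omega : E = 1 ∨ 2 ≤ E) with h | h <;> omega
  have h2 : 6 * H ≤ 5 * S + 49 + 7 * W - 6 * x := by linarith
  clear h1 sl hf4 hf hE hN
  rcases (by omega : S = 0 ∨ 2 ≤ S) with h | h
  · subst h
    rcases (by omega : W = 0 ∨ 1 ≤ W) with h' | h' <;> omega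
  · linarith

/-- large values. -/
theorem T71.ten {S H Y x N f c W : ℤ} (k : T71 H c)
    (sl : 6 * (H + Y + x + f) + N = 5 * S + 110) (hf : 0 ≤ f)
    (hY : Y = 5 - W) (hW : 0 ≤ W) (hN : Y ≤ N) (hS : 10 ≤ S) (hx : 2 ≤ x) :
    c + 240 - 120 * S - 600 - 160 * W - 5 * x ≤ 0 := by
  have b18 := k.b18
  have b19 := k.b19
  subst hY
  rcases (by omega : W = 0 ∨ 1 ≤ W) with h' | h'
  · rcases (by omega : S = 10 ∨ 11 ≤ S) with h | h
    · have : H ≤ 18 := by omega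
      omega
    · omega
  · omega

/-- value eight. -/
theorem T71.eight {S H x c W : ℤ} (k : T71 H c) (hH : H ≤ 16) (hW : 0 ≤ W) (hS : S = 8)
    (hx : 2 ≤ x) : c + 240 - 120 * S - 600 - 160 * W - 5 * x ≤ 0 := by
  have b16 := k.b16
  omega

/-- value six: a point and a leaf with three points. -/
theorem ThC.six {S s h Y x f t W y1 y2 : ℤ} (k : ThC h t) (h7 : s ≤ 7) (h5 : 5 ≤ s)
    (h71 : 7 ≤ s → y2 = 1) (hy1 : y1 ≤ 3) (hYY : Y = y1 + y2)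
    (sl : s + h + Y + x + f = 22) (hf : 0 ≤ f) (hY : Y = 5 - W) (hW : 0 ≤ W) (hS : S = 6)
    (hx : 2 ≤ x) : 160 * s - 584 + t + 240 - 120 * S - 600 - 160 * W - 5 * x ≤ 0 := by
  rcases k.cases with ⟨k1, k2⟩ | ⟨k1, k2⟩ | ⟨k1, k2⟩ | ⟨k1, k2⟩ | ⟨k1, k2⟩ | ⟨k1, k2⟩ |
      ⟨k1, k2⟩ | ⟨k1, k2⟩ | ⟨k1, k2⟩ | ⟨k1, k2⟩ | ⟨k1, k2⟩ | ⟨k1, k2⟩ <;> omega

/-- value four: two points. -/
theorem T71.four {S H Y x f c W : ℤ} (k : T71 H c) (sl : H + Y + x + f = 20) (hf : 0 ≤ f)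
    (hY : Y = 5 - W) (hW : 0 ≤ W) (hW3 : W ≤ 3) (hS : S = 4) (hx : 2 ≤ x) :
    c + 240 - 120 * S - 600 - 160 * W - 5 * x ≤ 0 := by
  have b13 := k.b13
  have b14 := k.b14
  have b15 := k.b15
  have b16 := k.b16
  omega

/-- value two: a point and a leaf with three points and one single trace. -/
theorem ThC.two {h1 h2 s y2 x1 x2 f1 f2 t W : ℤ} (k : ThC (h1 + h2) t) (hs : s = 5)
    (sl1 : h1 + 1 + x1 + f1 = 9) (sl2 : s + h2 + y2 + x2 + f2 = 10) (hf1 : 0 ≤ f1) (hf2 : 0 ≤ f2)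
    (hx1 : 0 ≤ x1) (hx2 : 0 ≤ x2) (hy2 : y2 ≤ 3) (hy21 : 1 ≤ y2)
    (hY : 1 + y2 = 5 - W) (neg : 1 + x1 ≤ 1 → h1 ≤ 2) (q2 : x1 = 1 → 1 ≤ f1)
    (cls : x1 + x2 ≤ 1 → h1 + (s + h2) ≤ 12) (r3 : y2 = 3 → h1 = 6 → h2 = 2 → x1 = 2 → x2 = 0 → False) :
    160 * s - 584 + t + 240 - 120 * 2 - 600 - 160 * W - 5 * (x1 + x2) ≤ 0 := by
  subst hs
  rcases (by omega : h1 + h2 = 8 ∨ h1 + h2 ≠ 8) with h8 | h8
  · have h9 := k.t8 h8
    by_contra hcon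
    have e1 : W = 1 := by omega
    subst e1
    have e2 : y2 = 3 := by omega
    have e3 : x1 + x2 = 2 := by
      by_contra h
      have := cls (by omega)
      omega
    have e4 : x1 = 2 := by
      rcases (by omega : x1 = 0 ∨ x1 = 1 ∨ x1 = 2) with h | h | h
      · have := neg (by omega)
        omega
      · have := q2 h
        omega
      · exact h
    exact r3 e2 (by omega) (by omega) e4 (by omega)
  · clear r3
    rcases k.cases with ⟨k1, k2⟩ | ⟨k1, k2⟩ | ⟨k1, k2⟩ | ⟨k1, k2⟩ | ⟨k1, k2⟩ | ⟨k1, k2⟩ |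
      ⟨k1, k2⟩ | ⟨k1, k2⟩ | ⟨k1, k2⟩ | ⟨k1, k2⟩ | ⟨k1, k2⟩ | ⟨k1, k2⟩
    · omega
    · omega
    · omega
    · omega
    · omega
    · omega
    · omega
    · omega
    · exact absurd k1 h8
    · omega
    · omega
    · omega

/-- the small leaves. -/
theorem small_mN {m N : ℤ} (k1 : 1 ≤ m) (k2 : m % 2 = 1) (k3 : 1 ≤ N) (k4 : N % 2 = 1)
    (k5 : m = 1 → N = 5) :
    (2 * N + 3 * m - 11 = 0 → m = 3 ∧ N = 1) ∧
    (2 * N + 3 * m - 11 = 2 → m = 1 ∧ N = 5) ∧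
    (2 * N + 3 * m - 11 = 4 → m = 3 ∧ N = 3) ∧
    (2 * N + 3 * m - 11 = 6 → m = 5 ∧ N = 1) ∧
    (2 * N + 3 * m - 11 = 8 → m = 3 ∧ N = 5) := by
  refine ⟨fun k => ?_, fun k => ?_, fun k => ?_, fun k => ?_, fun k => ?_⟩ <;>
  rcases (by omega : m = 1 ∨ m = 3 ∨ m = 5 ∨ 7 ≤ m) with k6 | k6 | k6 | k6 <;> omega

/-- **two leaves in the exceptional case of the centre triple**: its third point has four hits, none
on the class, the hits of the pair are on single traces. -/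
theorem Lc.exc {P1 N1 m1 e1 y1 x1 f1 P2 N2 m2 e2 y2 x2 f2 a1 b1 h1 a2 b2 h2 W t : ℤ}
    (l1 : Lc P1 N1 m1 e1 (a1 + b1 + h1) y1 x1 f1) (l2 : Lc P2 N2 m2 e2 (a2 + b2 + h2) y2 x2 f2)
    (i1 : 1 ≤ e1 → 6 ≤ f1) (i2 : 1 ≤ e2 → 6 ≤ f2)
    (g1 : m1 = 1 → y1 ≤ 3) (g2 : m2 = 1 → y2 ≤ 3)
    (pq : Pq m1 N1 y1 a1 b1 m2 N2 y2 a2 b2) (ht : ThC (h1 + h2) t) (hW : 0 ≤ W)
    (hY : y1 + y2 = 5 - W) (h5 : 5 ≤ a1 + b1 + (a2 + b2))
    (hle : P1 - 2 * e1 ≤ P2 - 2 * e2)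
    (few : x1 + x2 ≤ 1 → (P1 - 2 * e1) + (P2 - 2 * e2) ≤ 2)
    (cls : P1 - 2 * e1 = 0 → P2 - 2 * e2 = 2 → x1 + x2 ≤ 1 → a1 + b1 + h1 + (a2 + b2 + h2) ≤ 12)
    (r3 : m1 = 3 → N1 = 1 → m2 = 1 → y1 = 1 → y2 = 3 → a1 + b1 = 0 → a2 + b2 = 5 → h1 = 6 →
      h2 = 2 → x1 = 2 → x2 = 0 → False) :
    160 * (a1 + b1 + (a2 + b2)) - 584 + t + 240 - 120 * ((P1 - 2 * e1) + (P2 - 2 * e2)) - 600 -
      160 * W - 5 * (x1 + x2) ≤ 0 := by
  have o1 := pq.one l1.y1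
  have o2 := pq.swap.one l2.y1
  have o3 := pq.three l1.y1 l2.y1
  have o4 := pq.pt3
  have u1 := pq.f1
  have u2 := pq.f2
  have ta := pq.ta
  have tb := pq.tb
  have h8 : a1 + b1 + (a2 + b2) ≤ 8 := by linarith
  have t71 := ht.t71 h5 h8
  have w1 := l1.sm.Se
  have w2 := l2.sm.Se
  have z1 := l1.sm.S0
  have z2 := l2.sm.S0
  obtain ⟨pp1, sl1, m11, mo1, n11, no1, pt1, e01, f01, p01, A01, y11, yn1, x01, neg1, -, -,
    q21⟩ := l1
  obtain ⟨pp2, sl2, m12, mo2, n12, no2, pt2, e02, f02, p02, A02, y12, yn2, x02, -, -, -,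
    -⟩ := l2
  have na1 := pq.a10
  have nb1 := pq.b10
  have na2 := pq.a20
  have nb2 := pq.b20
  clear pq
  rcases (by clear * - e01 e02; omega : 1 ≤ e1 + e2 ∨ (e1 = 0 ∧ e2 = 0)) with he | ⟨he1, he2⟩
  · -- a double single
    have hf : 6 ≤ f1 + f2 := by clear * - he e01 e02 i1 i2 f01 f02; omega
    have h := t71.dbl (S := (P1 - 2 * e1) + (P2 - 2 * e2)) (Y := y1 + y2) (x := x1 + x2)
      (N := N1 + N2) (E := e1 + e2) (f := f1 + f2) (W := W)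
      (by clear * - sl1 sl2; linarith) he hf (by clear * - f01 f02; linarith) hY hW
      (by clear * - yn1 yn2; linarith) (by clear * - z1 z2; linarith)
      (by clear * - w1 w2; omega) (by clear * - x01 x02; linarith)
    clear * - h
    linarith
  · subst he1
    subst he2
    obtain ⟨v10, v12, v14, v16, v18⟩ := small_mN m11 mo1 n11 no1 pt1
    obtain ⟨v20, v22, v24, v26, v28⟩ := small_mN m12 mo2 n12 no2 pt2
    rw [← pp1] at v10 v12 v14 v16 v18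
    rw [← pp2] at v20 v22 v24 v26 v28
    simp only [mul_zero, sub_zero] at *
    have hx0 : 0 ≤ x1 + x2 := by clear * - x01 x02; linarith
    rcases (by clear * - z1 z2 w1 w2; omega : 10 ≤ P1 + P2 ∨ P1 + P2 = 8 ∨ P1 + P2 = 6 ∨
      P1 + P2 = 4 ∨ P1 + P2 = 2 ∨ P1 + P2 = 0) with h | h | h | h | h | h
    · -- large values
      have hx : 2 ≤ x1 + x2 := by clear * - few h; omega
      have h := t71.ten (S := P1 + P2) (Y := y1 + y2) (x := x1 + x2)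
        (N := N1 + N2) (f := f1 + f2) (W := W)
        (by clear * - sl1 sl2; linarith) (by clear * - f01 f02; linarith) hY hW
        (by clear * - yn1 yn2; linarith) h hx
      clear * - h
      linarith
    · -- value eight
      have hx : 2 ≤ x1 + x2 := by clear * - few h; omega
      have hs : a1 + b1 + (a2 + b2) ≤ 5 := by
        rcases (by clear * - z1 z2 w1 w2 h hle; omega : (P1 = 0 ∧ P2 = 8) ∨ (P1 = 2 ∧ P2 = 6) ∨
          (P1 = 4 ∧ P2 = 4)) with ⟨k1, k2⟩ | ⟨k1, k2⟩ | ⟨k1, k2⟩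
        · have k3 := o1 (v10 k1).2 h5
          have k4 := (v28 k2).2
          clear * - k3 k4 u2
          linarith
        · have k3 := o2 (v26 k2).2 (by clear * - h5; linarith)
          have k4 := (v12 k1).2
          clear * - k3 k4 u1
          linarith
        · exact o3 (v14 k1).2 (v24 k2).2
      have h11 := ht.h11
      have h := t71.eight (S := P1 + P2) (x := x1 + x2) (W := W)
        (by clear * - hs h11; linarith) hW h hx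
      clear * - h
      linarith
    · -- value six
      have hx : 2 ≤ x1 + x2 := by clear * - few h; omega
      rcases (by clear * - z1 z2 w1 w2 h hle; omega : (P1 = 0 ∧ P2 = 6) ∨ (P1 = 2 ∧ P2 = 4))
        with ⟨k1, k2⟩ | ⟨k1, k2⟩
      · have k3 := o1 (v10 k1).2 h5
        have k4 := o2 (v26 k2).2 (by clear * - h5; linarith)
        clear * - k3 k4 h5
        omega
      · obtain ⟨m1e, N1e⟩ := v12 k1
        obtain ⟨m2e, N2e⟩ := v24 k2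
        obtain ⟨k3, k4⟩ := o4 m1e N1e N2e y12
        have h := ht.six (s := a1 + b1 + (a2 + b2)) (x := x1 + x2) (f := f1 + f2) (Y := y1 + y2)
          (W := W) (y1 := y1) (y2 := y2) (S := P1 + P2) k3 h5 k4 (g1 m1e) rfl
          (by clear * - sl1 sl2 N1e N2e h; omega) (by clear * - f01 f02; linarith) hY hW h hx
        clear * - h
        linarith
    · -- value four
      have hx : 2 ≤ x1 + x2 := by clear * - few h; omega
      rcases (by clear * - z1 z2 w1 w2 h hle; omega : (P1 = 0 ∧ P2 = 4) ∨ (P1 = 2 ∧ P2 = 2))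
        with ⟨k1, k2⟩ | ⟨k1, k2⟩
      · have k3 := o1 (v10 k1).2 h5
        have k4 := (v24 k2).2
        clear * - k3 k4 h5 u2
        omega
      · obtain ⟨m1e, N1e⟩ := v12 k1
        obtain ⟨m2e, N2e⟩ := v22 k2
        have h := t71.four (x := x1 + x2) (f := f1 + f2) (Y := y1 + y2)
          (W := W) (S := P1 + P2)
          (by clear * - sl1 sl2 N1e N2e h; omega) (by clear * - f01 f02; linarith) hY hW
          (by clear * - hY y11 y12; linarith) h hx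
        clear * - h
        linarith
    · -- value two
      obtain ⟨k1, k2⟩ : P1 = 0 ∧ P2 = 2 := by clear * - z1 z2 w1 w2 h hle; omega
      obtain ⟨m1e, N1e⟩ := v10 k1
      obtain ⟨m2e, N2e⟩ := v22 k2
      have k3 := o1 N1e h5
      have y1e : y1 = 1 := by clear * - y11 yn1 N1e; linarith
      have k5 : a2 + b2 = 5 := by clear * - k3 h5 u2 N2e; linarith
      have cls' := cls k1 k2
      have r3' := r3 m1e N1e m2e y1e
      have h := ht.two (s := a2 + b2) (y2 := y2) (x1 := x1) (x2 := x2) (f1 := f1) (f2 := f2)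
        (W := W) k5
        (by clear * - sl1 N1e k1 y1e k3; omega) (by clear * - sl2 N2e k2; omega)
        (by clear * - f01; linarith) (by clear * - f02; linarith) x01 x02 (g2 m2e) y12
        (by clear * - hY y1e; linarith)
        (fun k => by
          have := neg1 k1 (by clear * - k y1e; linarith)
          clear * - this k3
          linarith)
        (fun k => q21 m1e N1e y1e k)
        (fun k => by
          have := cls' k
          clear * - this k3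
          linarith)
        (fun k6 k7 k8 k9 k10 => r3' k6 k3 k5 k7 k8 k9 k10)
      clear * - h k1 k2 k3
      linarith
    · obtain ⟨k1, k2⟩ : P1 = 0 ∧ P2 = 0 := by clear * - z1 z2 w1 w2 h hle; omega
      have k3 := o1 (v10 k1).2 h5
      have k4 := o2 (v20 k2).2 (by clear * - h5; linarith)
      clear * - k3 k4 h5
      omega

end Pool.Agent.Hyp6
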