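import Pool.Agent.Hyp6.L3Yl
import Pool.Agent.Hyp6.L3Re1
import Pool.Agent.Hyp6.L3Re3
import Pool.Agent.Hyp6.L3Fk

/-!
# HYP6 L3Re2: a centre triple at a class with two or three leaves

`Stg.blk_abs`: blocks through the leaves of a parallel class do not contain its inside points and two
points of a triple whose third point sees another class. `Cx`: a triple of rank three whose pair sees
only the class, on single traces. `Cx.pq`: the hits of its pair on two leaves. `Cx.row3`, `Cx.three_ex`: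
the two rows which are left.
-/

set_option autoImplicit false

namespace Pool.Agent.Hyp6

open Finset Pool.Agent.Hyp5 Rt

universe u v

theorem ex_fun2 {α : Type*} {β : Type*} {L M : α} (h : L ≠ M) (k k' : β) :
    ∃ f : α → β, f L = k ∧ f M = k' := by
  classical
  exact ⟨fun N => if N = L then k else k', if_pos rfl, if_neg h.symm⟩

theorem ex_fun3 {α : Type*} {β : Type*} {L M N : α} (h1 : L ≠ M) (h2 : L ≠ N) (h3 : M ≠ N)
    (k k' k'' : β) : ∃ f : α → β, f L = k ∧ f M = k' ∧ f N = k'' := by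
  classical
  refine ⟨fun K => if K = L then k else if K = M then k' else k'', if_pos rfl, ?_, ?_⟩
  · show (if M = L then k else if M = M then k' else k'') = k'
    rw [if_neg h1.symm, if_pos rfl]
  · show (if N = L then k else if N = M then k' else k'') = k''
    rw [if_neg h2.symm, if_neg h3.symm]

variable {V : Type v} [DecidableEq V] {ι : Type u} {B : ι → Finset V}
  {Q U : Finset V} {T : Finset ι} {F : Finset (Finset V)}
  {P : Finset (Finset (Finset V))} {C : Finset (Finset V)} [Fintype ι]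

/-- a block through a point of `U` has at most one point in a leaf. -/
theorem Frm.own_single (h : Frm B Q T U F) {L : Finset V} (hL : L ∈ F) {w : V} (hw : w ∈ U) {k : ι}
    (hwk : w ∈ B k) (hk : (B k ∩ L).Nonempty) : (B k ∩ L).card = 1 := by
  obtain ⟨x, hx⟩ := hk
  obtain ⟨hxk, hxL⟩ := mem_inter.1 hx
  have h1 := h.two_leaf hL hxk hxL
  have h2 : insert w (B k ∩ L) ⊆ B k ∩ Dp B Q T := by
    intro y hy
    rcases mem_insert.1 hy with rfl | hy
    · exact mem_inter.2 ⟨hwk, h.UD hw⟩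
    · obtain ⟨h3, h4⟩ := mem_inter.1 hy
      exact mem_inter.2 ⟨h3, h.FD hL h4⟩
  have h3 := card_le_card h2
  rw [card_insert_of_notMem (fun h4 => disjoint_left.1 (h.ge.FU L hL) (mem_inter.1 h4).2 hw)] at h3
  have h4 := card_pos.2 ⟨x, hx⟩
  omega

section

variable [DecidableEq ι] {al : V → Finset (Finset V) → ℕ}

/-- **blocks through the leaves of a class do not contain its inside points and two points of a triple
whose third point sees another class**. -/
theorem Stg.blk_abs (s : Stg B Q T U F P al) (hC : C ∈ par0 B U F) {j : ι} (hj : j ∈ T) {c : V}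
    (hc : c ∈ B j ∩ Q) {K : Finset V} (hK : K ∈ slf B F c) (hKC : K ∉ C) {κ : Finset V → ι}
    (hκ : ∀ L ∈ C, (B (κ L) ∩ L).Nonempty)
    (hU : ∀ w ∈ Sp.Uin U (slf B F) C, ∃ L ∈ C, w ∈ B (κ L))
    (hT : ∀ w ∈ B j ∩ Q, w ≠ c → ∃ L ∈ C, w ∈ B (κ L)) : False := by
  classical
  obtain ⟨D, hD, hKD⟩ := exists_cls s.par (slf_sub hK)
  have hCD : C ≠ D := by
    rintro rfl
    exact hKC hKD
  have hCF : C ⊆ F := s.par.sub hC
  have h1 := s.frm.refuse_cls s.frm.sur s.par hC hD hCD hj hc hKD hK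
    (X := (B j ∩ Q).erase c) ((erase_subset _ _).trans inter_subset_right) (by
      rw [insert_erase hc])
  have h2 := rho_abs_le (B := B) (A := C) (X := fun L => B (κ L) ∩ Q) (fun L hL =>
    s.frm.cov.mono (union_subset (s.frm.FQ (hCF hL)) inter_subset_right))
    (fun L hL => s.frm.rho_blk (hCF hL) (hκ L hL) (Subset.refl _))
  have h3 : Sp.Uin U (slf B F) C ∪ C.biUnion id ∪ (B j ∩ Q).erase c ⊆
      C.biUnion (fun L => L ∪ B (κ L) ∩ Q) := by
    intro w hw
    rcases mem_union.1 hw with hw | hw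
    · rcases mem_union.1 hw with hw | hw
      · obtain ⟨L, hL, h4⟩ := hU w hw
        exact mem_biUnion.2 ⟨L, hL, mem_union_right _ (mem_inter.2 ⟨h4, s.frm.uin_Q hw⟩)⟩
      · obtain ⟨L, hL, h4⟩ := mem_biUnion.1 hw
        exact mem_biUnion.2 ⟨L, hL, mem_union_left _ h4⟩
    · obtain ⟨h4, h5⟩ := mem_erase.1 hw
      obtain ⟨L, hL, h6⟩ := hT w h5 h4
      exact mem_biUnion.2 ⟨L, hL, mem_union_right _ (mem_inter.2 ⟨h6, (mem_inter.1 h5).2⟩)⟩
  have h4 : Cov B (C.biUnion (fun L => L ∪ B (κ L) ∩ Q)) := by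
    refine s.frm.cov.mono fun w hw => ?_
    obtain ⟨L, hL, hw⟩ := mem_biUnion.1 hw
    rcases mem_union.1 hw with hw | hw
    · exact s.frm.FQ (hCF hL) hw
    · exact (mem_inter.1 hw).2
  have h5 := rho_mono h3 h4
  omega

/-- the case of two leaves. -/
theorem Stg.blk_abs2 (s : Stg B Q T U F P al) {L M : Finset V} (hLM : L ≠ M)
    (hC : ({L, M} : Finset (Finset V)) ∈ par0 B U F) {j : ι} (hj : j ∈ T) {c : V}
    (hc : c ∈ B j ∩ Q) {K : Finset V} (hK : K ∈ slf B F c)
    (hKC : K ∉ ({L, M} : Finset (Finset V))) {k k' : ι} (hk : (B k ∩ L).Nonempty)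
    (hk' : (B k' ∩ M).Nonempty)
    (hU : ∀ w ∈ Sp.Uin U (slf B F) {L, M}, w ∈ B k ∨ w ∈ B k')
    (hT : ∀ w ∈ B j ∩ Q, w ≠ c → w ∈ B k ∨ w ∈ B k') : False := by
  obtain ⟨κ, h1, h2⟩ := ex_fun2 hLM k k'
  refine s.blk_abs hC hj hc hK hKC (κ := κ) (fun N hN => ?_) (fun w hw => ?_) (fun w hw hwc => ?_)
  · rcases mem_insert.1 hN with rfl | hN
    · rwa [h1]
    · rw [mem_singleton.1 hN, h2]
      exact hk'
  · rcases hU w hw with h3 | h3
    · exact ⟨L, by simp, by rwa [h1]⟩
    · exact ⟨M, by simp, by rwa [h2]⟩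
  · rcases hT w hw hwc with h3 | h3
    · exact ⟨L, by simp, by rwa [h1]⟩
    · exact ⟨M, by simp, by rwa [h2]⟩

/-- a triple of rank three whose pair `a`, `b` sees only the class `C`, on single traces. -/
structure Cx (B : ι → Finset V) (Q : Finset V) (T : Finset ι) (U : Finset V)
    (F : Finset (Finset V)) (C : Finset (Finset V)) (i : ι) (a b z : V) : Prop where
  iT : i ∈ T
  r3 : 3 ≤ rkc B U F (par0 B U F) (mcj B Q F (par0 B U F) i)
  eq : B i ∩ Q = {a, b, z}
  ab : a ≠ b
  sa : slf B F a ⊆ C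
  sb : slf B F b ⊆ C
  nz : ¬ slf B F z ⊆ C
  sg : ∀ L ∈ C, ∀ k, a ∈ B k ∨ b ∈ B k → (B k ∩ L).card ≤ 1

namespace Cx

variable {i : ι} {a b z : V}

omit [Fintype ι] [DecidableEq ι] in
theorem swap (h : Cx B Q T U F C i a b z) : Cx B Q T U F C i b a z :=
  ⟨h.iT, h.r3, by rw [h.eq]; ext w; simp only [mem_insert, mem_singleton]; tauto, h.ab.symm,
    h.sb, h.sa, h.nz, fun L hL k hk => h.sg L hL k hk.symm⟩

omit [Fintype ι] [DecidableEq ι] in
theorem maQ (h : Cx B Q T U F C i a b z) : a ∈ B i ∩ Q := by rw [h.eq]; simp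

omit [Fintype ι] [DecidableEq ι] in
theorem mbQ (h : Cx B Q T U F C i a b z) : b ∈ B i ∩ Q := by rw [h.eq]; simp

omit [Fintype ι] [DecidableEq ι] in
theorem mzQ (h : Cx B Q T U F C i a b z) : z ∈ B i ∩ Q := by rw [h.eq]; simp

omit [DecidableEq ι] in
/-- the blocks of the pair at a leaf are single traces. -/
theorem ez_sub (h : Cx B Q T U F C i a b z) {L : Finset V} (hL : L ∈ C) :
    Ez B L a ⊆ trs B L 1 := by
  intro k hk
  obtain ⟨h1, h2⟩ := mem_Ez.1 hk
  rw [mem_trs]
  have h3 := h.sg L hL k (Or.inl h1)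
  have h4 := card_pos.2 h2
  omega

omit [DecidableEq ι] in
theorem own_sub (hf : Frm B Q T U F) {L : Finset V} (hL : L ∈ F) {w : V} (hw : w ∈ U) :
    Ez B L w ⊆ trs B L 1 := by
  intro k hk
  obtain ⟨h1, h2⟩ := mem_Ez.1 hk
  rw [mem_trs]
  exact hf.own_single hL hw h1 h2

/-- the pair at the leaf `L` of a class with two leaves, one half of `Pq`. -/
theorem half (s : Stg B Q T U F P al) {L M : Finset V} (hLM : L ≠ M)
    (hC : ({L, M} : Finset (Finset V)) ∈ par0 B U F)
    (h : Cx B Q T U F {L, M} i a b z) {w : V} (hU : Sp.Uin U (slf B F) {L, M} = {w})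
    (hwM : 0 < (Ez B M w).card) :
    (Ez B L a).card + (Ez B L b).card ≤ nt B L 1 ∧
    (0 < (Ez B M b).card → (Ez B L a).card + (Ez B L w).card ≤ nt B L 1) ∧
    (0 < (Ez B M a).card → 0 < (Ez B M b).card →
      (Ez B L a).card + (Ez B L b).card + (Ez B L w).card ≤ nt B L 1) := by
  classical
  have hLC : L ∈ ({L, M} : Finset (Finset V)) := by simp
  have hwU : w ∈ U := by
    have h1 : w ∈ Sp.Uin U (slf B F) {L, M} := by rw [hU]; simp
    exact Frm.uin_U h1
  have hLF : L ∈ F := s.par.sub hC hLC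
  obtain ⟨K, hK, hKC⟩ := not_subset.1 h.nz
  have sA := h.ez_sub hLC
  have sB := h.swap.ez_sub hLC
  have sW := own_sub s.frm hLF hwU
  have key : ∀ {k k' : ι}, (B k ∩ L).Nonempty → (B k' ∩ M).Nonempty → (w ∈ B k ∨ w ∈ B k') →
      (a ∈ B k ∨ a ∈ B k') → (b ∈ B k ∨ b ∈ B k') → False := by
    intro k k' h1 h2 h3 h4 h5
    refine s.blk_abs2 hLM hC h.iT h.mzQ hK hKC h1 h2 (fun x hx => ?_) (fun x hx hne => ?_)
    · rw [hU, mem_singleton] at hx
      rw [hx]
      exact h3
    · rw [h.eq] at hx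
      simp only [mem_insert, mem_singleton] at hx
      rcases hx with rfl | rfl | rfl
      · exact h4
      · exact h5
      · exact absurd rfl hne
  have dAB : Disjoint (Ez B L a) (Ez B L b) := by
    rw [disjoint_left]
    intro k hk hk'
    obtain ⟨k2, hk2⟩ := card_pos.1 hwM
    exact key (mem_Ez.1 hk).2 (mem_Ez.1 hk2).2 (Or.inr (mem_Ez.1 hk2).1) (Or.inl (mem_Ez.1 hk).1)
      (Or.inl (mem_Ez.1 hk').1)
  have dAW : 0 < (Ez B M b).card → Disjoint (Ez B L a) (Ez B L w) := by
    intro h1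
    rw [disjoint_left]
    intro k hk hk'
    obtain ⟨k2, hk2⟩ := card_pos.1 h1
    exact key (mem_Ez.1 hk).2 (mem_Ez.1 hk2).2 (Or.inl (mem_Ez.1 hk').1) (Or.inl (mem_Ez.1 hk).1)
      (Or.inr (mem_Ez.1 hk2).1)
  have dBW : 0 < (Ez B M a).card → Disjoint (Ez B L b) (Ez B L w) := by
    intro h1
    rw [disjoint_left]
    intro k hk hk'
    obtain ⟨k2, hk2⟩ := card_pos.1 h1
    exact key (mem_Ez.1 hk).2 (mem_Ez.1 hk2).2 (Or.inl (mem_Ez.1 hk').1) (Or.inr (mem_Ez.1 hk2).1)
      (Or.inl (mem_Ez.1 hk).1)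
  unfold nt
  refine ⟨?_, fun h1 => ?_, fun h1 h2 => ?_⟩
  · rw [← card_union_of_disjoint dAB]
    exact card_le_card (union_subset sA sB)
  · rw [← card_union_of_disjoint (dAW h1)]
    exact card_le_card (union_subset sA sW)
  · rw [← card_union_of_disjoint dAB, ← card_union_of_disjoint
      (disjoint_union_left.2 ⟨dAW h2, dBW h1⟩)]
    exact card_le_card (union_subset (union_subset sA sB) sW)

/-- a point of the pair has at most three hits on a point leaf. -/
theorem le_three (s : Stg B Q T U F P al) (h : Cx B Q T U F C i a b z) {L : Finset V} (hL : L ∈ F)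
    (h1 : L.card = 1) : (Ez B L a).card ≤ 3 := by
  obtain ⟨p, rfl⟩ := card_eq_one.1 h1
  refine s.viol.twin_pt (s.frm.FQ hL (mem_singleton_self p)) (mem_inter.1 h.maQ).2 ?_
  rintro rfl
  exact (s.frm.T_out h.iT h.maQ).2 _ hL (mem_singleton_self _)

/-- **the hits of the pair on two leaves**. -/
theorem pq (s : Stg B Q T U F P al) {L M : Finset V} (hLM : L ≠ M)
    (hC : ({L, M} : Finset (Finset V)) ∈ par0 B U F)
    (h : Cx B Q T U F {L, M} i a b z) {w : V} (hU : Sp.Uin U (slf B F) {L, M} = {w})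
    (hwL : 0 < (Ez B L w).card) (hwM : 0 < (Ez B M w).card) :
    Pq L.card (nt B L 1) (Ez B L w).card (Ez B L a).card (Ez B L b).card
      M.card (nt B M 1) (Ez B M w).card (Ez B M a).card (Ez B M b).card := by
  have hLF : L ∈ F := s.par.sub hC (by simp)
  have hMF : M ∈ F := s.par.sub hC (by simp)
  have hpc : ({M, L} : Finset (Finset V)) = {L, M} := pair_comm M L
  have hC' : ({M, L} : Finset (Finset V)) ∈ par0 B U F := by rwa [hpc]
  have h' : Cx B Q T U F {M, L} i a b z := by rwa [hpc]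
  have hU' : Sp.Uin U (slf B F) {M, L} = {w} := by rwa [hpc]
  obtain ⟨f1, c1, e1⟩ := h.half s hLM hC hU hwM
  obtain ⟨-, d1, -⟩ := h.swap.half s hLM hC hU hwM
  obtain ⟨f2, c2, e2⟩ := h'.half s hLM.symm hC' hU' hwL
  obtain ⟨-, d2, -⟩ := h'.swap.half s hLM.symm hC' hU' hwL
  have ta := (s.frm.four_two s.viol.reg h.iT hLF hMF hLM h.maQ).1
  have tb := (s.frm.four_two s.viol.reg h.iT hLF hMF hLM h.mbQ).1
  rw [uh_Ez, uh_Ez] at ta tb
  refine ⟨by positivity, by positivity, by positivity, by positivity, by exact_mod_cast f1,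
    by exact_mod_cast f2, by exact_mod_cast ta, by exact_mod_cast tb, fun k => ?_, fun k => ?_,
    fun k => ?_, fun k => ?_, fun k => ?_, fun k => ?_, fun k k' => ?_, fun k => ?_, fun k => ?_,
    fun k k' => ?_⟩
  · exact_mod_cast h.le_three s hLF (by exact_mod_cast k)
  · exact_mod_cast h.swap.le_three s hLF (by exact_mod_cast k)
  · exact_mod_cast h.le_three s hMF (by exact_mod_cast k)
  · exact_mod_cast h.swap.le_three s hMF (by exact_mod_cast k)
  · exact_mod_cast c1 (by exact_mod_cast k)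
  · exact_mod_cast d1 (by exact_mod_cast k)
  · exact_mod_cast e1 (by exact_mod_cast k) (by exact_mod_cast k')
  · exact_mod_cast c2 (by exact_mod_cast k)
  · exact_mod_cast d2 (by exact_mod_cast k)
  · exact_mod_cast e2 (by exact_mod_cast k) (by exact_mod_cast k')

/-- **the row with the pair at the point and six hits of a line triple at the other leaf**. -/
theorem row3 (s : Stg B Q T U F P al) {L : Finset V} {p : V} (hLp : L ≠ {p})
    (hC : ({L, {p}} : Finset (Finset V)) ∈ par0 B U F)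
    (h : Cx B Q T U F {L, {p}} i a b z) {w : V} (hU : Sp.Uin U (slf B F) {L, {p}} = {w})
    {j : ι} (hj : j ∈ T) (hij : i ≠ j) (hs : ¬ slj B Q F j ⊆ {L, {p}}) (hL3 : L.card = 3)
    (hN : nt B L 1 = 1) (hwp : (Ez B {p} w).card = 3) (hwL : 0 < (Ez B L w).card)
    (hab : (Ez B {p} a).card + (Ez B {p} b).card = 5) (hjL : jh B Q j L = 6)
    (hjp : jh B Q j {p} = 2) : False := by
  classical
  have hLF : L ∈ F := s.par.sub hC (by simp)
  have hpF : ({p} : Finset V) ∈ F := s.par.sub hC (by simp)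
  have hpQ : p ∈ Q := s.frm.FQ hpF (mem_singleton_self p)
  have hwU : w ∈ Sp.Uin U (slf B F) {L, {p}} := by rw [hU]; simp
  have hwQ : w ∈ Q := s.frm.uin_Q hwU
  obtain ⟨c, d, e, K, D, hD, hne, hKD, hK, hKC, hc, hd, he, hcd, hce, hde, hT⟩ :=
    s.frm.exists_xyz s.par hj hs
  simp only [mem_insert, mem_singleton, not_or] at hKC
  -- every block at the point contains exactly one of `a`, `b`
  obtain ⟨Z, hZ, hZC⟩ := not_subset.1 h.nz
  have dab : Disjoint (Ez B {p} a) (Ez B {p} b) := by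
    rw [disjoint_left]
    intro k hk hk'
    obtain ⟨k2, hk2⟩ := card_pos.1 hwL
    refine s.blk_abs2 hLp hC h.iT h.mzQ hZ hZC (mem_Ez.1 hk2).2 (mem_Ez.1 hk).2
      (fun x hx => ?_) (fun x hx hne => ?_)
    · rw [hU, mem_singleton] at hx
      rw [hx]
      exact Or.inl (mem_Ez.1 hk2).1
    · rw [h.eq] at hx
      simp only [mem_insert, mem_singleton] at hx
      rcases hx with rfl | rfl | rfl
      · exact Or.inr (mem_Ez.1 hk).1
      · exact Or.inr (mem_Ez.1 hk').1
      · exact absurd rfl hne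
  have hall : ∀ k, p ∈ B k → a ∈ B k ∨ b ∈ B k := by
    intro k hk
    have h1 : Ez B {p} a ∪ Ez B {p} b = univ.filter (fun k => p ∈ B k) := by
      refine eq_of_subset_of_card_le ?_ ?_
      · intro l hl
        rw [mem_filter]
        refine ⟨mem_univ _, ?_⟩
        rcases mem_union.1 hl with hl | hl
        · exact (mem_Ezp.1 hl).2
        · exact (mem_Ezp.1 hl).2
      · rw [card_union_of_disjoint dab, hab, s.viol.reg p hpQ]
    have h2 : k ∈ Ez B {p} a ∪ Ez B {p} b := by
      rw [h1]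
      exact mem_filter.2 ⟨mem_univ _, hk⟩
    rcases mem_union.1 h2 with h2 | h2
    · exact Or.inl (mem_Ezp.1 h2).1
    · exact Or.inr (mem_Ezp.1 h2).1
  have hnp : ∀ {q : V} {m : ι}, m ∈ T → q ∈ B m ∩ Q → q ≠ p := by
    rintro q m hm hq rfl
    exact (s.frm.T_out hm hq).2 _ hpF (mem_singleton_self _)
  have ta := h.le_three s hpF (card_singleton p)
  have tb := h.swap.le_three s hpF (card_singleton p)
  -- for a block with `p`, `g` there is a block with `p`, `w` such that both contain `a`, `b`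
  have key : ∀ g ∈ B j ∩ Q, ∀ k ∈ Ez B {p} g, ∃ k' ∈ Ez B {p} w,
      (a ∈ B k ∨ a ∈ B k') ∧ (b ∈ B k ∨ b ∈ B k') := by
    intro g hg k hk
    obtain ⟨hgk, hpk⟩ := mem_Ezp.1 hk
    have hwk : w ∉ B k := by
      intro hwk
      have h1 := s.viol.tr k
      obtain ⟨q, hq, hqk, hqi⟩ : ∃ q, q ∈ B i ∩ Q ∧ q ∈ B k ∧ (q = a ∨ q = b) := by
        rcases hall k hpk with h2 | h2
        · exact ⟨a, h.maQ, h2, Or.inl rfl⟩
        · exact ⟨b, h.mbQ, h2, Or.inr rfl⟩
      have h2 : ({p, g, w, q} : Finset V) ⊆ B k ∩ Q := by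
        intro x hx
        simp only [mem_insert, mem_singleton] at hx
        rcases hx with rfl | rfl | rfl | rfl
        · exact mem_inter.2 ⟨hpk, hpQ⟩
        · exact mem_inter.2 ⟨hgk, (mem_inter.1 hg).2⟩
        · exact mem_inter.2 ⟨hwk, hwQ⟩
        · exact mem_inter.2 ⟨hqk, (mem_inter.1 hq).2⟩
      have hgq : g ≠ q := by
        rintro rfl
        exact disjoint_left.1 (s.frm.mtp.tpk.pack.disj i h.iT j hj hij) hq hg
      have hwT : ∀ {m : ι}, m ∈ T → w ∉ B m := fun hm => disjoint_left.1 (s.frm.uin_disj hm) hwU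
      have hgw : g ≠ w := by
        rintro rfl
        exact hwT hj (mem_inter.1 hg).1
      have hqw : q ≠ w := by
        rintro rfl
        exact hwT h.iT (mem_inter.1 hq).1
      have hpw : p ≠ w := by
        rintro rfl
        exact disjoint_left.1 (s.frm.uin_leaf hpF) hwU (mem_singleton_self _)
      have h3 : ({p, g, w, q} : Finset V).card = 4 := by
        rw [card_insert_of_notMem, card_insert_of_notMem, card_pair hqw.symm]
        · simp only [mem_insert, mem_singleton, not_or]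
          exact ⟨hgw, hgq⟩
        · simp only [mem_insert, mem_singleton, not_or]
          exact ⟨(hnp hj hg).symm, hpw, (hnp h.iT hq).symm⟩
      have h4 := card_le_card h2
      omega
    have hcase : ∀ q r : V, (Ez B {p} q).card ≤ 3 → q ∈ B k →
        (∀ l, p ∈ B l → q ∈ B l ∨ r ∈ B l) → ∃ k' ∈ Ez B {p} w, r ∈ B k' := by
      intro q r hq3 hqk hqr
      by_contra hcon
      push Not at hcon
      have h1 : insert k (Ez B {p} w) ⊆ Ez B {p} q := by
        intro l hl
        rcases mem_insert.1 hl with rfl | hl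
        · exact mem_Ezp.2 ⟨hqk, hpk⟩
        · have h2 := (mem_Ezp.1 hl).2
          exact mem_Ezp.2 ⟨(hqr l h2).resolve_right (hcon l hl), h2⟩
      have h2 := card_le_card h1
      rw [card_insert_of_notMem (fun h3 => hwk (mem_Ezp.1 h3).1), hwp] at h2
      omega
    rcases hall k hpk with h1 | h1
    · obtain ⟨k', hk', h2⟩ := hcase a b ta h1 hall
      exact ⟨k', hk', Or.inl h1, Or.inr h2⟩
    · obtain ⟨k', hk', h2⟩ := hcase b a tb h1 (fun l hl => (hall l hl).symm)
      exact ⟨k', hk', Or.inr h2, Or.inl h1⟩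
  -- the double refusal
  have hdb : ∀ g f : V, g ∈ B j ∩ Q → f ∈ B j ∩ Q → B j ∩ Q ⊆ {c, g, f} →
      0 < (Ez B {p} g).card → (Ez B L f).card = 0 := by
    intro g f hg hf hT' h1
    by_contra h2
    obtain ⟨k, hk⟩ := card_pos.1 h1
    obtain ⟨k', hk', h3, h4⟩ := key g hg k hk
    obtain ⟨l, hl⟩ := card_pos.1 (Nat.pos_of_ne_zero h2)
    have h5 := s.two_pairs hC h.iT hj hij h.r3 h.eq h.sa h.sb hc hK (by
        simp only [mem_insert, mem_singleton, not_or]
        exact hKC) (X := {a, b, g, f}) (by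
      intro x hx
      simp only [mem_insert, mem_singleton] at hx
      rcases hx with rfl | rfl | rfl | rfl
      · exact (mem_inter.1 h.maQ).2
      · exact (mem_inter.1 h.mbQ).2
      · exact (mem_inter.1 hg).2
      · exact (mem_inter.1 hf).2) (by
      rw [h.eq]
      intro x hx
      simp only [mem_insert, mem_singleton] at hx ⊢
      tauto) (by
      intro x hx
      have h6 := hT' hx
      simp only [mem_insert, mem_singleton] at h6 ⊢
      tauto)
    rw [sum_pair hLp, hU] at h5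
    have hr1 : rho B {p} = 1 := by
      have h6 := s.frm.sv_leaf hpF
      unfold sv at h6
      rw [card_singleton] at h6
      push_cast at h6
      omega
    have h6 : {w} ∪ ({L, {p}} : Finset (Finset V)).biUnion id ∪ {a, b, g, f} ⊆
        (B k ∩ Q) ∪ ((B k' ∩ Q) ∪ (L ∪ (B l ∩ Q))) := by
      intro x hx
      simp only [mem_union, mem_singleton, mem_biUnion, mem_insert, id] at hx
      simp only [mem_union, mem_inter]
      rcases hx with (rfl | ⟨A, rfl | rfl, hA⟩) | rfl | rfl | rfl | rfl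
      · exact Or.inr (Or.inl ⟨(mem_Ezp.1 hk').1, hwQ⟩)
      · exact Or.inr (Or.inr (Or.inl hA))
      · rw [mem_singleton.1 hA]
        exact Or.inl ⟨(mem_Ezp.1 hk).2, hpQ⟩
      · rcases h3 with h3 | h3
        · exact Or.inl ⟨h3, (mem_inter.1 h.maQ).2⟩
        · exact Or.inr (Or.inl ⟨h3, (mem_inter.1 h.maQ).2⟩)
      · rcases h4 with h4 | h4
        · exact Or.inl ⟨h4, (mem_inter.1 h.mbQ).2⟩
        · exact Or.inr (Or.inl ⟨h4, (mem_inter.1 h.mbQ).2⟩)
      · exact Or.inl ⟨(mem_Ezp.1 hk).1, (mem_inter.1 hg).2⟩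
      · exact Or.inr (Or.inr (Or.inr ⟨(mem_Ez.1 hl).1, (mem_inter.1 hf).2⟩))
    have hcv : ∀ {X : Finset V}, X ⊆ Q → Cov B X := fun hX => s.frm.cov.mono hX
    have h7 := rho_mono h6 (hcv (union_subset inter_subset_right
      (union_subset inter_subset_right (union_subset (s.frm.FQ hLF) inter_subset_right))))
    have h8 := rho_union_le (B := B) (hcv (inter_subset_right (s₁ := B k) (s₂ := Q)))
      (hcv (union_subset (inter_subset_right (s₁ := B k') (s₂ := Q))
        (union_subset (s.frm.FQ hLF) (inter_subset_right (s₁ := B l) (s₂ := Q)))))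
    have h9 := rho_union_le (B := B) (hcv (inter_subset_right (s₁ := B k') (s₂ := Q)))
      (hcv (union_subset (s.frm.FQ hLF) (inter_subset_right (s₁ := B l) (s₂ := Q))))
    have h10 := s.frm.rho_blk hLF (mem_Ez.1 hl).2 (Subset.refl (B l ∩ Q))
    have h11 := rho_le_one (B := B) (i := k) (W := B k ∩ Q) inter_subset_left
    have h12 := rho_le_one (B := B) (i := k') (W := B k' ∩ Q) inter_subset_left
    omega
  -- counting
  have gL := s.frm.jh_three hT hcd hce hde L
  have gp := s.frm.jh_three hT hcd hce hde {p}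
  have fc := (s.frm.four_two s.viol.reg hj hLF hpF hLp hc).2 K hK hKC.1 hKC.2
  have fd := (s.frm.four_two s.viol.reg hj hLF hpF hLp hd).1
  have fe := (s.frm.four_two s.viol.reg hj hLF hpF hLp he).1
  rw [hjL] at gL
  rw [hjp] at gp
  simp only [uh_Ez] at gL gp fc fd fe
  have h1 := hdb d e hd he hT.subset
  have h2 := hdb e d he hd (by
    rw [hT]
    intro x hx
    simp only [mem_insert, mem_singleton] at hx ⊢
    tauto)
  rcases Nat.eq_zero_or_pos (Ez B {p} d).card with h3 | h3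
  · rcases Nat.eq_zero_or_pos (Ez B {p} e).card with h4 | h4
    · -- the leaf refuses the pair
      have h5 : uh B d L + uh B e L ≤ 4 := by
        refine ref31 s.viol s.frm hLF hL3 hN hj hd he fun hcon => ?_
        obtain ⟨l, hl⟩ := card_pos.1 (show 0 < (Ez B {p} w).card by omega)
        have h6 := s.frm.refuse_cls s.frm.sur s.par hC hD hne hj hc hKD hK (X := {d, e}) (by
          intro x hx
          rcases mem_insert.1 hx with rfl | hx
          · exact (mem_inter.1 hd).2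
          · rw [mem_singleton.1 hx]
            exact (mem_inter.1 he).2) hT.subset
        rw [sum_pair hLp, hU] at h6
        have h7 : {w} ∪ ({L, {p}} : Finset (Finset V)).biUnion id ∪ {d, e} ⊆
            (L ∪ {d, e}) ∪ ({p} ∪ (B l ∩ Q)) := by
          intro x hx
          simp only [mem_union, mem_singleton, mem_biUnion, mem_insert, id] at hx
          simp only [mem_union, mem_inter, mem_insert, mem_singleton]
          rcases hx with (rfl | ⟨A, rfl | rfl, hA⟩) | hx
          · exact Or.inr (Or.inr ⟨(mem_Ez.1 hl).1, hwQ⟩)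
          · exact Or.inl (Or.inl hA)
          · exact Or.inr (Or.inl (mem_singleton.1 hA))
          · exact Or.inl (Or.inr hx)
        have hde' : ({d, e} : Finset V) ⊆ Q := by
          intro x hx
          rcases mem_insert.1 hx with rfl | hx
          · exact (mem_inter.1 hd).2
          · rw [mem_singleton.1 hx]
            exact (mem_inter.1 he).2
        have hpp : ({p} : Finset V) ⊆ Q := singleton_subset_iff.2 hpQ
        have h8 := rho_mono h7 (s.frm.cov.mono (union_subset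
          (union_subset (s.frm.FQ hLF) hde') (union_subset hpp inter_subset_right)))
        have h9 := rho_union_le (B := B) (s.frm.cov.mono (union_subset (s.frm.FQ hLF) hde'))
          (s.frm.cov.mono (union_subset hpp (inter_subset_right (s₁ := B l) (s₂ := Q))))
        have h10 := s.frm.rho_blk hpF (mem_Ez.1 hl).2 (Subset.refl (B l ∩ Q))
        omega
      rw [uh_Ez, uh_Ez] at h5
      omega
    · have := h2 h4
      omega
  · have h4 := h1 h3
    rcases Nat.eq_zero_or_pos (Ez B {p} e).card with h5 | h5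
    · omega
    · have := h2 h5
      omega

/-- **two points and a leaf with three points and one single trace**, every own block useful: at most
seven hits of the pair. -/
theorem three_ex (s : Stg B Q T U F P al) {L : Finset V} {p q : V} (hLp : L ≠ {p}) (hLq : L ≠ {q})
    (hpq : p ≠ q) (hCP : ({L, {p}, {q}} : Finset (Finset V)) ∈ P)
    (hC : ({L, {p}, {q}} : Finset (Finset V)) ∈ par0 B U F)
    (h : Cx B Q T U F {L, {p}, {q}} i a b z)
    (hcard : (Sp.Uin U (slf B F) {L, {p}, {q}}).card = 2) (hN : nt B L 1 = 1)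
    (hls : lsC B Q T U F {L, {p}, {q}} = 0) :
    uC B a {L, {p}, {q}} + uC B b {L, {p}, {q}} ≤ 7 := by
  classical
  have hpq' : ({p} : Finset V) ≠ {q} := fun h1 => hpq (singleton_injective h1)
  have hLF : L ∈ F := s.par.sub hC (by simp)
  have hpF : ({p} : Finset V) ∈ F := s.par.sub hC (by simp)
  have hqF : ({q} : Finset V) ∈ F := s.par.sub hC (by simp)
  have hpQ : p ∈ Q := s.frm.FQ hpF (mem_singleton_self p)
  have hqQ : q ∈ Q := s.frm.FQ hqF (mem_singleton_self q)
  have hs3 : ∀ v, uC B v {L, {p}, {q}} =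
      (Ez B L v).card + (Ez B {p} v).card + (Ez B {q} v).card := by
    intro v
    unfold uC
    rw [sum_insert (by simp [hLp, hLq]), sum_pair hpq', uh_Ez, uh_Ez, uh_Ez]
    omega
  obtain ⟨w1, w2, hw12, hUe⟩ := card_eq_two.1 hcard
  have m1 : w1 ∈ Sp.Uin U (slf B F) {L, {p}, {q}} := by rw [hUe]; simp
  have m2 : w2 ∈ Sp.Uin U (slf B F) {L, {p}, {q}} := by rw [hUe]; simp
  -- only one of the two inside points sees the leaf
  have hL1 : (Ez B L w1).card + (Ez B L w2).card ≤ 1 := by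
    have h1 := s.frm.hitU_one hLF
    rw [hN] at h1
    have h2 : ({w1, w2} : Finset V) ⊆ U := by
      intro x hx
      rcases mem_insert.1 hx with rfl | hx
      · exact Frm.uin_U m1
      · rw [mem_singleton.1 hx]
        exact Frm.uin_U m2
    have h3 := hit_mono_left (B := B) L h2
    have h4 := Frm.hit_U_sum (B := B) {w1, w2} L
    rw [sum_pair hw12, uh_Ez, uh_Ez] at h4
    omega
  obtain ⟨w, w', hw, hw', hww, hwe, hw0⟩ : ∃ w w', w ∈ Sp.Uin U (slf B F) {L, {p}, {q}} ∧
      w' ∈ Sp.Uin U (slf B F) {L, {p}, {q}} ∧ w ≠ w' ∧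
      Sp.Uin U (slf B F) {L, {p}, {q}} = {w', w} ∧ (Ez B L w).card = 0 := by
    rcases (by omega : (Ez B L w1).card = 0 ∨ (Ez B L w2).card = 0) with h1 | h1
    · exact ⟨w1, w2, m1, m2, hw12, by rw [hUe, pair_comm], h1⟩
    · exact ⟨w2, w1, m2, m1, hw12.symm, hUe, h1⟩
  have hwL : 0 < (Ez B L w').card := by
    have h1 : ({L, {p}, {q}} : Finset (Finset V)).card = 3 := by
      rw [card_insert_of_notMem (by simp [hLp, hLq]), card_pair hpq']
    obtain ⟨x, hx, h2⟩ := s.frm.own_hit1 (by omega) (by omega) (L := L)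
      (C := {L, {p}, {q}}) (by simp)
    rw [hwe] at hx
    have h3 : hit B {x} L = (Ez B L x).card := uh_Ez
    rcases mem_insert.1 hx with rfl | hx
    · omega
    · rw [mem_singleton.1 hx] at h3 h2
      omega
  have hneQ : ∀ {v x : V} {m : ι}, m ∈ T → v ∈ B m ∩ Q → ({x} : Finset V) ∈ F → v ≠ x := by
    rintro v x m hm hv hx rfl
    exact (s.frm.T_out hm hv).2 _ hx (mem_singleton_self _)
  have hwne : ∀ {x : V}, ({x} : Finset V) ∈ F → w ≠ x := by
    rintro x hx rfl
    exact disjoint_left.1 (s.frm.uin_leaf hx) hw (mem_singleton_self _)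
  have hwp3 := s.viol.twin_pt hpQ (s.frm.uin_Q hw) (hwne hpF)
  have hwq3 := s.viol.twin_pt hqQ (s.frm.uin_Q hw) (hwne hqF)
  have hw5 : (Ez B {p} w).card + (Ez B {q} w).card = 5 := by
    have h1 := s.frm.uC_in s.viol.reg s.part hCP hw
    have h2 : uo B Q T U F w = 0 := by
      unfold lsC at hls
      exact (sum_eq_zero_iff.1 hls) w hw
    rw [h2, hs3 w, hw0] at h1
    push_cast at h1
    omega
  by_contra hcon
  obtain ⟨Z, hZ, hZC⟩ := not_subset.1 h.nz
  -- three blocks do not absorb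
  have key : ∀ {k k1 k2 : ι}, (B k ∩ L).Nonempty → p ∈ B k1 → q ∈ B k2 →
      (w ∈ B k ∨ w ∈ B k1 ∨ w ∈ B k2) → (w' ∈ B k ∨ w' ∈ B k1 ∨ w' ∈ B k2) →
      (a ∈ B k ∨ a ∈ B k1 ∨ a ∈ B k2) → (b ∈ B k ∨ b ∈ B k1 ∨ b ∈ B k2) → False := by
    intro k k1 k2 h1 h2 h3 h4 h5 h6 h7
    obtain ⟨κ, e1, e2, e3⟩ := ex_fun3 hLp hLq hpq' k k1 k2
    have hex : ∀ x, (x ∈ B k ∨ x ∈ B k1 ∨ x ∈ B k2) →
        ∃ N ∈ ({L, {p}, {q}} : Finset (Finset V)), x ∈ B (κ N) := by
      intro x hx
      rcases hx with hx | hx | hx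
      · exact ⟨L, by simp, by rwa [e1]⟩
      · exact ⟨{p}, by simp, by rwa [e2]⟩
      · exact ⟨{q}, by simp, by rwa [e3]⟩
    refine s.blk_abs hC h.iT h.mzQ hZ hZC (κ := κ) (fun N hN => ?_) (fun x hx => ?_)
      (fun x hx hne => ?_)
    · simp only [mem_insert, mem_singleton] at hN
      rcases hN with rfl | rfl | rfl
      · rwa [e1]
      · rw [e2]
        exact ⟨p, mem_inter.2 ⟨h2, mem_singleton_self p⟩⟩
      · rw [e3]
        exact ⟨q, mem_inter.2 ⟨h3, mem_singleton_self q⟩⟩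
    · rw [hwe] at hx
      rcases mem_insert.1 hx with rfl | hx
      · exact hex _ h5
      · rw [mem_singleton.1 hx]
        exact hex _ h4
    · rw [h.eq] at hx
      simp only [mem_insert, mem_singleton] at hx
      rcases hx with rfl | rfl | rfl
      · exact hex _ h6
      · exact hex _ h7
      · exact absurd rfl hne
  have a4 : uC B a {L, {p}, {q}} ≤ 4 := by
    refine le_trans (sum_le_sum_of_subset (s.par.sub hC)) ?_
    exact s.frm.four_t s.viol.reg h.iT h.maQ
  have b4 : uC B b {L, {p}, {q}} ≤ 4 := by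
    refine le_trans (sum_le_sum_of_subset (s.par.sub hC)) ?_
    exact s.frm.four_t s.viol.reg h.iT h.mbQ
  rw [hs3] at a4 b4
  rw [hs3, hs3] at hcon
  have ta := h.le_three s hpF (card_singleton p)
  have ta' := h.le_three s hqF (card_singleton q)
  have tb := h.swap.le_three s hpF (card_singleton p)
  have tb' := h.swap.le_three s hqF (card_singleton q)
  obtain ⟨l0, hl0⟩ := card_pos.1 hwL
  obtain ⟨kp, hkp⟩ := card_pos.1 (show 0 < (Ez B {p} w).card by omega)
  obtain ⟨kq, hkq⟩ := card_pos.1 (show 0 < (Ez B {q} w).card by omega)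
  obtain ⟨hl1, hl2⟩ := mem_Ez.1 hl0
  obtain ⟨hkp1, hkp2⟩ := mem_Ezp.1 hkp
  obtain ⟨hkq1, hkq2⟩ := mem_Ezp.1 hkq
  -- no hits of the pair on the leaf
  have hL0 : ∀ {x y : V}, Ez B L x ⊆ trs B L 1 → (a = x ∧ b = y ∨ a = y ∧ b = x) →
      (Ez B L y).card ≤ 1 → 4 ≤ (Ez B L y).card + (Ez B {p} y).card + (Ez B {q} y).card →
      (Ez B L x).card = 0 := by
    intro x y hx hxy hy1 hy4
    by_contra hne
    obtain ⟨k, hk⟩ := card_pos.1 (Nat.pos_of_ne_zero hne)
    have h1 : (trs B L 1).card = 1 := hN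
    obtain ⟨k0, hk0⟩ := card_eq_one.1 h1
    have h2 := hx hk
    have h3 := own_sub s.frm hLF (Frm.uin_U hw') hl0
    rw [hk0, mem_singleton] at h2 h3
    subst h2
    subst h3
    obtain ⟨hkx, -⟩ := mem_Ez.1 hk
    rcases (by omega : 0 < (Ez B {p} y).card ∨ 0 < (Ez B {q} y).card) with h4 | h4
    · obtain ⟨k2, hk2⟩ := card_pos.1 h4
      obtain ⟨h5, h6⟩ := mem_Ezp.1 hk2
      rcases hxy with ⟨rfl, rfl⟩ | ⟨rfl, rfl⟩
      · exact key hl2 h6 hkq2 (Or.inr (Or.inr hkq1)) (Or.inl hl1) (Or.inl hkx)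
          (Or.inr (Or.inl h5))
      · exact key hl2 h6 hkq2 (Or.inr (Or.inr hkq1)) (Or.inl hl1) (Or.inr (Or.inl h5))
          (Or.inl hkx)
    · obtain ⟨k2, hk2⟩ := card_pos.1 h4
      obtain ⟨h5, h6⟩ := mem_Ezp.1 hk2
      rcases hxy with ⟨rfl, rfl⟩ | ⟨rfl, rfl⟩
      · exact key hl2 hkp2 h6 (Or.inr (Or.inl hkp1)) (Or.inl hl1) (Or.inl hkx)
          (Or.inr (Or.inr h5))
      · exact key hl2 hkp2 h6 (Or.inr (Or.inl hkp1)) (Or.inl hl1) (Or.inr (Or.inr h5))
          (Or.inl hkx)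
  have sA := h.ez_sub (L := L) (by simp)
  have sB := h.swap.ez_sub (L := L) (by simp)
  have c1 : (trs B L 1).card = 1 := hN
  have cA := card_le_card sA
  have cB := card_le_card sB
  rw [c1] at cA cB
  have zA := hL0 sA (Or.inl ⟨rfl, rfl⟩) cB (by omega)
  have zB := hL0 sB (Or.inr ⟨rfl, rfl⟩) cA (by omega)
  -- disjoint blocks at the two points
  obtain ⟨ap, hap⟩ := card_pos.1 (show 0 < (Ez B {p} a).card by omega)
  obtain ⟨aq, haq⟩ := card_pos.1 (show 0 < (Ez B {q} a).card by omega)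
  obtain ⟨bp, hbp⟩ := card_pos.1 (show 0 < (Ez B {p} b).card by omega)
  obtain ⟨bq, hbq⟩ := card_pos.1 (show 0 < (Ez B {q} b).card by omega)
  have hp5 := three_disj s.viol.reg hpQ (u := w) (y := a) (z := b) (by
    rw [disjoint_left]
    intro k hk hk'
    exact key hl2 (mem_Ezp.1 hk).2 (mem_Ezp.1 hbq).2 (Or.inr (Or.inl (mem_Ezp.1 hk).1))
      (Or.inl hl1) (Or.inr (Or.inl (mem_Ezp.1 hk').1)) (Or.inr (Or.inr (mem_Ezp.1 hbq).1))) (by
    rw [disjoint_left]
    intro k hk hk'
    exact key hl2 (mem_Ezp.1 hk).2 (mem_Ezp.1 haq).2 (Or.inr (Or.inl (mem_Ezp.1 hk).1))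
      (Or.inl hl1) (Or.inr (Or.inr (mem_Ezp.1 haq).1)) (Or.inr (Or.inl (mem_Ezp.1 hk').1))) (by
    rw [disjoint_left]
    intro k hk hk'
    exact key hl2 (mem_Ezp.1 hk).2 hkq2 (Or.inr (Or.inr hkq1))
      (Or.inl hl1) (Or.inr (Or.inl (mem_Ezp.1 hk).1)) (Or.inr (Or.inl (mem_Ezp.1 hk').1)))
  have hq5 := three_disj s.viol.reg hqQ (u := w) (y := a) (z := b) (by
    rw [disjoint_left]
    intro k hk hk'
    exact key hl2 (mem_Ezp.1 hbp).2 (mem_Ezp.1 hk).2 (Or.inr (Or.inr (mem_Ezp.1 hk).1))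
      (Or.inl hl1) (Or.inr (Or.inr (mem_Ezp.1 hk').1)) (Or.inr (Or.inl (mem_Ezp.1 hbp).1))) (by
    rw [disjoint_left]
    intro k hk hk'
    exact key hl2 (mem_Ezp.1 hap).2 (mem_Ezp.1 hk).2 (Or.inr (Or.inr (mem_Ezp.1 hk).1))
      (Or.inl hl1) (Or.inr (Or.inl (mem_Ezp.1 hap).1)) (Or.inr (Or.inr (mem_Ezp.1 hk').1))) (by
    rw [disjoint_left]
    intro k hk hk'
    exact key hl2 hkp2 (mem_Ezp.1 hk).2 (Or.inr (Or.inl hkp1))
      (Or.inl hl1) (Or.inr (Or.inr (mem_Ezp.1 hk).1)) (Or.inr (Or.inr (mem_Ezp.1 hk').1)))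
  omega

end Cx

end

end Pool.Agent.Hyp6
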