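import Pool.Agent.Hyp6.L3Re3

/-!
# HYP6 L3Re5: composite classes with a centre, three or more leaves

`Lc.three71`, `T71.more`: three, four or more leaves in the exceptional case of the centre triple.
-/

set_option autoImplicit false

namespace Pool.Agent.Hyp6

/-- the bounds as cases. -/
theorem T71.cases {H c : ℤ} (k : T71 H c) : (H ≤ 8 ∧ c ≤ 281) ∨ (H = 9 ∧ c ≤ 441) ∨ (H = 10 ∧ c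
    ≤ 521) ∨ (H = 11 ∧ c ≤ 601) ∨ (H = 12 ∧ c ≤ 756) ∨ (H = 13 ∧ c ≤ 841) ∨ (H = 14 ∧ c ≤ 1001)
    ∨ (H = 15 ∧ c ≤ 1161) ∨ (H = 16 ∧ c ≤ 1321) ∨ (H = 17 ∧ c ≤ 1401) ∨ (H = 18 ∧ c ≤ 1471) ∨ (H
    = 19 ∧ c ≤ 1566) := by
  obtain ⟨h1, h2, -, b8, b9, b10, b11, b12, b13, b14, b15, b16, b17, b18⟩ := k
  rcases (by omega : H ≤ 8 ∨ H = 9 ∨ H = 10 ∨ H = 11 ∨ H = 12 ∨ H = 13 ∨ H = 14 ∨ H = 15 ∨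
      H = 16 ∨ H = 17 ∨ H = 18 ∨ H = 19) with
    e | e | e | e | e | e | e | e | e | e | e | e
  · exact Or.inl ⟨e, b8 e⟩
  · exact Or.inr (Or.inl ⟨e, b9 (by omega)⟩)
  · exact Or.inr (Or.inr (Or.inl ⟨e, b10 (by omega)⟩))
  · exact Or.inr (Or.inr (Or.inr (Or.inl ⟨e, b11 (by omega)⟩)))
  · exact Or.inr (Or.inr (Or.inr (Or.inr (Or.inl ⟨e, b12 (by omega)⟩))))
  · exact Or.inr (Or.inr (Or.inr (Or.inr (Or.inr (Or.inl ⟨e, b13 (by omega)⟩)))))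
  · exact Or.inr (Or.inr (Or.inr (Or.inr (Or.inr (Or.inr (Or.inl ⟨e, b14 (by omega)⟩))))))
  · exact Or.inr (Or.inr (Or.inr (Or.inr (Or.inr (Or.inr (Or.inr (Or.inl ⟨e, b15 (by omega)⟩)))))))
  · exact Or.inr (Or.inr (Or.inr (Or.inr (Or.inr (Or.inr (Or.inr (Or.inr (Or.inl ⟨e, b16 (by omega)⟩))))))))
  · exact Or.inr (Or.inr (Or.inr (Or.inr (Or.inr (Or.inr (Or.inr (Or.inr (Or.inr (Or.inl ⟨e, b17 (by omega)⟩)))))))))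
  · exact Or.inr (Or.inr (Or.inr (Or.inr (Or.inr (Or.inr (Or.inr (Or.inr (Or.inr (Or.inr (Or.inl ⟨e, b18 (by omega)⟩))))))))))
  · exact Or.inr (Or.inr (Or.inr (Or.inr (Or.inr (Or.inr (Or.inr (Or.inr (Or.inr (Or.inr (Or.inr (⟨e, h2⟩)))))))))))

/-- **four or more leaves**, in the exceptional case: `S` the sum of the values, `E` of the double singles, `N` of the single
traces, `H` of the hits of the line triples, `Y` of the own hits. -/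
theorem T71.more {p S E N H Y W x c : ℤ} (h : T71 H c) (hp : 3 ≤ p) (hE : 0 ≤ E) (hW : 0 ≤ W)
    (hY : Y = 5 * p - W) (hN : Y ≤ N) (hNS : N ≤ 2 * S + 4 * E + p + 1)
    (hH : 6 * (H + Y + x) + N ≤ 5 * S + 55 * (p + 1) - 14 * E) (hx : 0 ≤ x) (hS : 0 ≤ S) :
    c + 120 - 480 * p - 120 * S - 160 * W - 5 * x ≤ 0 := by
  subst hY
  rcases (by omega : E = 0 ∨ 1 ≤ E) with rfl | hE1
  · rcases h.cases with ⟨h1, h2⟩ | ⟨h1, h2⟩ | ⟨h1, h2⟩ | ⟨h1, h2⟩ | ⟨h1, h2⟩ | ⟨h1, h2⟩ |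
      ⟨h1, h2⟩ | ⟨h1, h2⟩ | ⟨h1, h2⟩ | ⟨h1, h2⟩ | ⟨h1, h2⟩ |
      ⟨h1, h2⟩ <;> omega
  · rcases h.cases with ⟨h1, h2⟩ | ⟨h1, h2⟩ | ⟨h1, h2⟩ | ⟨h1, h2⟩ | ⟨h1, h2⟩ | ⟨h1, h2⟩ |
      ⟨h1, h2⟩ | ⟨h1, h2⟩ | ⟨h1, h2⟩ | ⟨h1, h2⟩ | ⟨h1, h2⟩ |
      ⟨h1, h2⟩ <;> omega

/-- three leaves with `S ≠ 2`, in the exceptional case. -/
theorem Sm.three71 {S E N H Y x W c : ℤ} (h : Sm 3 S E N H Y x) (ht : T71 H c) (hW : 0 ≤ W)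
    (hY : Y = 10 - W) (hx : 2 ≤ x) (hS : S ≠ 2)
    (h17 : S = 4 → H = 17 → W = 0 → x = 2 → N = 11 → E = 0 → c ≤ 1320) :
    c + 360 - 120 * S - 1200 - 160 * W - 5 * x ≤ 0 := by
  obtain ⟨h1, h2, h3, h4, h5, h6, h7, h8⟩ := h
  by_cases h9 : S = 4 ∧ H = 17 ∧ W = 0 ∧ x = 2 ∧ N = 11 ∧ E = 0
  · have h10 := h17 h9.1 h9.2.1 h9.2.2.1 h9.2.2.2.1 h9.2.2.2.2.1 h9.2.2.2.2.2
    omega
  clear h17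
  subst hY
  rcases ht.cases with ⟨h1, h2⟩ | ⟨h1, h2⟩ | ⟨h1, h2⟩ | ⟨h1, h2⟩ | ⟨h1, h2⟩ | ⟨h1, h2⟩ |
    ⟨h1, h2⟩ | ⟨h1, h2⟩ | ⟨h1, h2⟩ | ⟨h1, h2⟩ | ⟨h1, h2⟩ |
      ⟨h1, h2⟩ <;> omega

/-- **three leaves**, in the exceptional case. -/
theorem Lc.three71 {P1 N1 m1 e1 A1 y1 x1 f1 P2 N2 m2 e2 A2 y2 x2 f2 P3 N3 m3 e3 A3 y3 x3 f3 : ℤ}
    {W c : ℤ} (h1 : Lc P1 N1 m1 e1 A1 y1 x1 f1) (h2 : Lc P2 N2 m2 e2 A2 y2 x2 f2)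
    (h3 : Lc P3 N3 m3 e3 A3 y3 x3 f3) (ht : T71 (A1 + A2 + A3) c) (hW : 0 ≤ W)
    (hY : y1 + y2 + y3 = 10 - W) (hx : 2 ≤ x1 + x2 + x3)
    (h17 : (P1 - 2 * e1) + (P2 - 2 * e2) + (P3 - 2 * e3) = 4 → A1 + A2 + A3 = 17 → W = 0 →
      x1 + x2 + x3 = 2 → N1 + N2 + N3 = 11 → e1 + e2 + e3 = 0 → c ≤ 1320) :
    c + 360 - 120 * ((P1 - 2 * e1) + (P2 - 2 * e2) + (P3 - 2 * e3)) - 1200 - 160 * W -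
      5 * (x1 + x2 + x3) ≤ 0 := by
  have hs := (h1.sm.add h2.sm).add h3.sm
  by_cases hS : (P1 - 2 * e1) + (P2 - 2 * e2) + (P3 - 2 * e3) = 2
  · obtain ⟨s1, s2, s3, s4, s5, s6, s7, s8⟩ := hs
    have p1 := h1.sm.S0
    have p2 := h2.sm.S0
    have p3 := h3.sm.S0
    have q1 := h1.sm.Se
    have q2 := h2.sm.Se
    have q3 := h3.sm.Se
    have r1 := h1.sm.H
    have r2 := h2.sm.H
    have r3 := h3.sm.H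
    have t1 := h1.e0
    have t2 := h2.e0
    have t3 := h3.e0
    have u1 := h1.sm.NS
    have u2 := h2.sm.NS
    have u3 := h3.sm.NS
    have v1 := h1.yn
    have v2 := h2.yn
    have v3 := h3.yn
    have w1 := h1.x0
    have w2 := h2.x0
    have w3 := h3.x0
    rcases (by omega : (P1 - 2 * e1 = 0 ∧ P2 - 2 * e2 = 0 ∧ P3 - 2 * e3 = 2) ∨
      (P1 - 2 * e1 = 0 ∧ P2 - 2 * e2 = 2 ∧ P3 - 2 * e3 = 0) ∨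
      (P1 - 2 * e1 = 2 ∧ P2 - 2 * e2 = 0 ∧ P3 - 2 * e3 = 0)) with ⟨a1, a2, a3⟩ | ⟨a1, a2, a3⟩ |
      ⟨a1, a2, a3⟩
    · have z1 := h1.zero a1
      have z2 := h2.zero a2
      have z3 := h3.two' a3
      rcases (by omega : e1 + e2 + e3 = 0 ∨ 1 ≤ e1 + e2 + e3) with he | he
      · have hW3 : 3 ≤ W := by omega
        have hH : A1 + A2 + A3 + x3 ≤ 14 + W := by omega
        clear s1 s2 s3 s4 s5 s6 s7 s8 r1 r2 r3 u1 u2 u3 v1 v2 v3 h1 h2 h3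
        rcases ht.cases with ⟨k1, k2⟩ | ⟨k1, k2⟩ | ⟨k1, k2⟩ | ⟨k1, k2⟩ | ⟨k1, k2⟩ | ⟨k1, k2⟩ |
          ⟨k1, k2⟩ | ⟨k1, k2⟩ | ⟨k1, k2⟩ | ⟨k1, k2⟩ | ⟨k1, k2⟩ |
      ⟨k1, k2⟩ <;> omega
      · rcases ht.cases with ⟨k1, k2⟩ | ⟨k1, k2⟩ | ⟨k1, k2⟩ | ⟨k1, k2⟩ | ⟨k1, k2⟩ | ⟨k1, k2⟩ |
          ⟨k1, k2⟩ | ⟨k1, k2⟩ | ⟨k1, k2⟩ | ⟨k1, k2⟩ | ⟨k1, k2⟩ |
      ⟨k1, k2⟩ <;> omega
    · have z1 := h1.zero a1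
      have z2 := h3.zero a3
      have z3 := h2.two' a2
      rcases (by omega : e1 + e2 + e3 = 0 ∨ 1 ≤ e1 + e2 + e3) with he | he
      · have hW3 : 3 ≤ W := by omega
        have hH : A1 + A2 + A3 + x2 ≤ 14 + W := by omega
        clear s1 s2 s3 s4 s5 s6 s7 s8 r1 r2 r3 u1 u2 u3 v1 v2 v3 h1 h2 h3
        rcases ht.cases with ⟨k1, k2⟩ | ⟨k1, k2⟩ | ⟨k1, k2⟩ | ⟨k1, k2⟩ | ⟨k1, k2⟩ | ⟨k1, k2⟩ |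
          ⟨k1, k2⟩ | ⟨k1, k2⟩ | ⟨k1, k2⟩ | ⟨k1, k2⟩ | ⟨k1, k2⟩ |
      ⟨k1, k2⟩ <;> omega
      · rcases ht.cases with ⟨k1, k2⟩ | ⟨k1, k2⟩ | ⟨k1, k2⟩ | ⟨k1, k2⟩ | ⟨k1, k2⟩ | ⟨k1, k2⟩ |
          ⟨k1, k2⟩ | ⟨k1, k2⟩ | ⟨k1, k2⟩ | ⟨k1, k2⟩ | ⟨k1, k2⟩ |
      ⟨k1, k2⟩ <;> omega
    · have z1 := h2.zero a2
      have z2 := h3.zero a3
      have z3 := h1.two' a1
      rcases (by omega : e1 + e2 + e3 = 0 ∨ 1 ≤ e1 + e2 + e3) with he | he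
      · have hW3 : 3 ≤ W := by omega
        have hH : A1 + A2 + A3 + x1 ≤ 14 + W := by omega
        clear s1 s2 s3 s4 s5 s6 s7 s8 r1 r2 r3 u1 u2 u3 v1 v2 v3 h1 h2 h3
        rcases ht.cases with ⟨k1, k2⟩ | ⟨k1, k2⟩ | ⟨k1, k2⟩ | ⟨k1, k2⟩ | ⟨k1, k2⟩ | ⟨k1, k2⟩ |
          ⟨k1, k2⟩ | ⟨k1, k2⟩ | ⟨k1, k2⟩ | ⟨k1, k2⟩ | ⟨k1, k2⟩ |
      ⟨k1, k2⟩ <;> omega
      · rcases ht.cases with ⟨k1, k2⟩ | ⟨k1, k2⟩ | ⟨k1, k2⟩ | ⟨k1, k2⟩ | ⟨k1, k2⟩ | ⟨k1, k2⟩ |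
          ⟨k1, k2⟩ | ⟨k1, k2⟩ | ⟨k1, k2⟩ | ⟨k1, k2⟩ | ⟨k1, k2⟩ |
      ⟨k1, k2⟩ <;> omega
  · have hs' : Sm 3 (P1 - 2 * e1 + (P2 - 2 * e2) + (P3 - 2 * e3)) (e1 + e2 + e3) (N1 + N2 + N3)
        (A1 + A2 + A3) (y1 + y2 + y3) (x1 + x2 + x3) := hs
    exact hs'.three71 ht hW hY hx hS h17

end Pool.Agent.Hyp6
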