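import Pool.Agent.Hyp6.L3Re3

/-!
# HYP6 L3Re6: composite classes with several centres, the integers

`b` centre triples with `s` hits of their pairs together.
-/

set_option autoImplicit false

namespace Pool.Agent.Hyp6

/-- two leaves, two centre triples. -/
theorem Sm.cen22 {S E N s h Y x W t : ℤ} (k : Sm 2 S E N (s + h) Y x) (ht : ThC h t)
    (h3 : 3 ≤ h) (hs : s ≤ 16) (hW : 0 ≤ W) (hY : Y = 5 - W) (hN : 2 ≤ N) :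
    160 * s - 584 * 2 + t + 240 - 120 * S - 600 - 160 * W - 5 * x ≤ 0 := by
  obtain ⟨g1, g2, g3, g4, g5, g6, g7, g8⟩ := k
  subst hY
  rcases (by omega : W = 0 ∨ W = 1 ∨ W = 2 ∨ W = 3 ∨ 4 ≤ W) with w | w | w | w | w <;>
  rcases ht.cases with ⟨k1, k2⟩ | ⟨k1, k2⟩ | ⟨k1, k2⟩ | ⟨k1, k2⟩ | ⟨k1, k2⟩ | ⟨k1, k2⟩ |
      ⟨k1, k2⟩ | ⟨k1, k2⟩ | ⟨k1, k2⟩ | ⟨k1, k2⟩ | ⟨k1, k2⟩ | ⟨k1, k2⟩ <;> omega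

/-- two leaves, three centre triples. -/
theorem Sm.cen23 {S E N s h Y x W t b : ℤ} (k : Sm 2 S E N (s + h) Y x) (ht : ThC h t)
    (hb : 3 ≤ b) (hs : s ≤ 8 * b) (hW : 0 ≤ W) (hY : Y = 5 - W) :
    160 * s - 584 * b + t + 240 - 120 * S - 600 - 160 * W - 5 * x ≤ 0 := by
  obtain ⟨g1, g2, g3, g4, g5, g6, g7, g8⟩ := k
  subst hY
  have e1 : 160 * s - 584 * b ≤ 87 * s := by linarith
  have e2 : 160 * s - 584 * b ≤ 160 * s - 1752 := by linarith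
  rcases ht.cases with ⟨k1, k2⟩ | ⟨k1, k2⟩ | ⟨k1, k2⟩ | ⟨k1, k2⟩ | ⟨k1, k2⟩ | ⟨k1, k2⟩ |
      ⟨k1, k2⟩ | ⟨k1, k2⟩ | ⟨k1, k2⟩ | ⟨k1, k2⟩ | ⟨k1, k2⟩ | ⟨k1, k2⟩ <;> omega

/-- three leaves, two centre triples. -/
theorem Sm.cen32 {S E N s h Y x W t : ℤ} (k : Sm 3 S E N (s + h) Y x) (ht : ThC h t)
    (hs : s ≤ 16) (hW : 0 ≤ W) (hW6 : W ≤ 6) (hY : Y = 10 - W) :
    160 * s - 584 * 2 + t + 360 - 120 * S - 1200 - 160 * W - 5 * x ≤ 0 := by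
  obtain ⟨g1, g2, g3, g4, g5, g6, g7, g8⟩ := k
  subst hY
  rcases (by omega : W = 0 ∨ W = 1 ∨ W = 2 ∨ W = 3 ∨ W = 4 ∨ 5 ≤ W) with w | w | w | w | w | w <;>
  rcases ht.cases with ⟨k1, k2⟩ | ⟨k1, k2⟩ | ⟨k1, k2⟩ | ⟨k1, k2⟩ | ⟨k1, k2⟩ | ⟨k1, k2⟩ |
      ⟨k1, k2⟩ | ⟨k1, k2⟩ | ⟨k1, k2⟩ | ⟨k1, k2⟩ | ⟨k1, k2⟩ | ⟨k1, k2⟩ <;> omega

/-- three leaves, three centre triples. -/
theorem Sm.cen33 {S E N s h Y x W t b : ℤ} (k : Sm 3 S E N (s + h) Y x) (ht : ThC h t)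
    (hb : 3 ≤ b) (hs : s ≤ 8 * b) (hW : 0 ≤ W) (hY : Y = 10 - W) :
    160 * s - 584 * b + t + 360 - 120 * S - 1200 - 160 * W - 5 * x ≤ 0 := by
  obtain ⟨g1, g2, g3, g4, g5, g6, g7, g8⟩ := k
  subst hY
  have e1 : 160 * s - 584 * b ≤ 87 * s := by linarith
  have e2 : 160 * s - 584 * b ≤ 160 * s - 1752 := by linarith
  rcases ht.cases with ⟨k1, k2⟩ | ⟨k1, k2⟩ | ⟨k1, k2⟩ | ⟨k1, k2⟩ | ⟨k1, k2⟩ | ⟨k1, k2⟩ |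
      ⟨k1, k2⟩ | ⟨k1, k2⟩ | ⟨k1, k2⟩ | ⟨k1, k2⟩ | ⟨k1, k2⟩ | ⟨k1, k2⟩ <;> omega

/-- four or more leaves, two or more centre triples. -/
theorem Sm.cen4 {p S E N s h Y x W t b : ℤ} (k : Sm (p + 1) S E N (s + h) Y x) (ht : ThC h t)
    (hp : 3 ≤ p) (hb : 2 ≤ b) (hs : s ≤ 8 * b) (hW : 0 ≤ W) (hY : Y = 5 * p - W) :
    160 * s - 584 * b + t + 120 * (p + 1) - 120 * S - 600 * p - 160 * W - 5 * x ≤ 0 := by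
  obtain ⟨g1, g2, g3, g4, g5, g6, g7, g8⟩ := k
  subst hY
  have e1 : 160 * s - 584 * b ≤ 87 * s := by linarith
  have e2 : 160 * s - 584 * b ≤ 160 * s - 1168 := by linarith
  obtain ⟨c, hc⟩ : ∃ c, c = 160 * s - 584 * b := ⟨_, rfl⟩
  rw [← hc] at e1 e2 ⊢
  clear hc hs hb
  rcases ht.cases with ⟨k1, k2⟩ | ⟨k1, k2⟩ | ⟨k1, k2⟩ | ⟨k1, k2⟩ | ⟨k1, k2⟩ | ⟨k1, k2⟩ |
      ⟨k1, k2⟩ | ⟨k1, k2⟩ | ⟨k1, k2⟩ | ⟨k1, k2⟩ | ⟨k1, k2⟩ | ⟨k1, k2⟩ <;> omega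

end Pool.Agent.Hyp6
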