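import Pool.Agent.Hyp6.L3Ty
import Pool.Agent.Hyp6.L3Pc

/-!
# HYP6 L3Rn: parallel classes and lines

The partition of the leaves into classes for the empty set of triples: the classes are the flats of
rank one of the matroid of the leaves. A class with `j` leaves has `j - 1` points inside, two classes
have rank two, a line with `k + 2` classes has `k` own points, different lines have at most one common
class and no common own points, and the types of a triple.
-/

set_option autoImplicit false

namespace Pool.Agent.Hyp6.Sp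

open Finset

section

variable {L : Type*} [DecidableEq L] {α : Type*} [DecidableEq α] {τ : Type*} [DecidableEq τ]
  {F : Finset L} {U : Finset α} {N : α → Finset L} {NT : τ → Finset L} {P : Finset (Finset L)}

/-- partitions into parallel classes. -/
def Par (F : Finset L) (U : Finset α) (N : α → Finset L) (P : Finset (Finset L)) : Prop :=
  MinP F F U N (∅ : Finset ℕ) (fun _ => (∅ : Finset L)) P

/-- the surplus data. -/
def Sur (F : Finset L) (U : Finset α) (N : α → Finset L) : Prop :=
  Gd F F U N (∅ : Finset ℕ) (fun _ => (∅ : Finset L))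

omit [DecidableEq α] in
theorem Sur.mk' (hN : ∀ u ∈ U, N u ⊆ F)
    (hs : ∀ B ⊆ U, B.Nonempty → B.card + 1 ≤ (B.biUnion N).card) : Sur F U N where
  sub := Subset.refl _
  NU := hN
  NTs := by simp
  sur := by
    intro B hB hne
    rw [inter_eq_left.2 (biUnion_subset.2 fun u hu => hN u (hB hu))]
    exact hs B hB hne

omit [DecidableEq α] in
theorem Sur.hall (hg : Sur F U N) {B : Finset α} (hB : B ⊆ U) (hne : B.Nonempty) :
    B.card + 1 ≤ (B.biUnion N).card :=
  (Gd.sur hg B hB hne).trans (card_le_card inter_subset_left)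

omit [DecidableEq α] in
theorem exists_par (F : Finset L) (U : Finset α) (N : α → Finset L) : ∃ P, Par F U N P :=
  exists_minP _ _ _ _ _ _

omit [DecidableEq α] in
theorem Par.sub (h : Par F U N P) {C : Finset L} (hC : C ∈ P) : C ⊆ F := (h.ptn.vc C hC).sub

omit [DecidableEq α] in
theorem Par.ne (h : Par F U N P) {C : Finset L} (hC : C ∈ P) : C.Nonempty := (h.ptn.vc C hC).ne

omit [DecidableEq α] in
theorem Par.dj (h : Par F U N P) {C D : Finset L} (hC : C ∈ P) (hD : D ∈ P) (hne : C ≠ D) :
    Disjoint C D := h.ptn.dj C hC D hD hne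

omit [DecidableEq α] in
theorem Par.un (h : Par F U N P) : P.biUnion id = F := h.ptn.un

omit [DecidableEq α] in
/-- every leaf is in a class. -/
theorem Par.cls (h : Par F U N P) {x : L} (hx : x ∈ F) : ∃ C ∈ P, x ∈ C := by
  rw [← h.un] at hx
  obtain ⟨C, hC, hxC⟩ := mem_biUnion.1 hx
  exact ⟨C, hC, hxC⟩

omit [DecidableEq α] in
/-- **a class with `j` leaves has `j - 1` own points**. -/
theorem Par.card_eq (hg : Sur F U N) (h : Par F U N P) {C : Finset L} (hC : C ∈ P) :
    C.card = (Uin U N C).card + 1 := by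
  have h1 := (h.ptn.vc C hC).dens
  have h2 : (Kin (∅ : Finset ℕ) (fun _ => (∅ : Finset L)) C).card = 0 := by
    unfold Kin
    simp
  rw [h2, inter_eq_left.2 (h.sub hC)] at h1
  have h3 := card_pos.2 (h.ne hC)
  rcases (Uin U N C).eq_empty_or_nonempty with h4 | h4
  · rw [h4, card_empty] at h1 ⊢
    push_cast at h1
    omega
  · have h5 : (Uin U N C).card + 1 ≤ ((Uin U N C).biUnion N).card :=
      hg.hall (filter_subset _ _) h4
    have h6 : (Uin U N C).biUnion N ⊆ C := biUnion_subset.2 fun u hu => (mem_filter.1 hu).2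
    have h7 := card_le_card h6
    push_cast at h1
    omega

omit [DecidableEq α] in
/-- the crossing points meet at least two classes. -/
theorem Par.two (hg : Sur F U N) (h : Par F U N P) {u : α} (hu : u ∈ Ux U N P) :
    2 ≤ (met P (N u)).card :=
  h.ptn.two_met (hg.NU u (mem_filter.1 hu).1) (Gd.N_ne hg (mem_filter.1 hu).1) (mem_filter.1 hu).2

/-- sets of crossing points have surplus two. -/
theorem Par.surplus (hg : Sur F U N) (h : Par F U N P) {B : Finset α} (hB : B ⊆ Ux U N P)
    (hne : B.Nonempty) : B.card + 2 ≤ (B.biUnion (fun u => met P (N u))).card :=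
  MinP.surplus hg h hB hne

theorem Par.nul (hg : Sur F U N) (h : Par F U N P) : Nul (nP U N P) := MinP.nul hg h

/-- a class has rank one. -/
theorem Par.rk_one (hg : Sur F U N) (h : Par F U N P) {C : Finset L} (_hC : C ∈ P) :
    rkn (nP U N P) {C} = 1 := by
  have h1 : nP U N P {C} ≤ 0 := MinP.one hg h C
  have h2 := (h.nul hg).nonneg {C}
  unfold rkn
  rw [card_singleton]
  push_cast
  omega

/-- **two classes have rank two**. -/
theorem Par.rk_two (hg : Sur F U N) (h : Par F U N P) {A : Finset (Finset L)} (hA : A ⊆ P)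
    (h2 : 2 ≤ A.card) : 2 ≤ rkn (nP U N P) A := by
  have h1 := MinP.sparse_clo hg h hA h2
  have h3 : (0 : ℤ) ≤ ((KK (∅ : Finset ℕ) (fun _ => (∅ : Finset L)) P
    (clo (nP U N P) P A)).card : ℤ) := by positivity
  omega

/-- the lines: the flats of rank two. -/
structure Line (U : Finset α) (N : α → Finset L) (P : Finset (Finset L))
    (l : Finset (Finset L)) : Prop where
  sub : l ⊆ P
  flat : ∀ C ∈ P, rkn (nP U N P) (insert C l) ≤ rkn (nP U N P) l → C ∈ l
  rk : rkn (nP U N P) l = 2

/-- the closure of a set of rank two is a line. -/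
theorem Par.line (hg : Sur F U N) (h : Par F U N P) {A : Finset (Finset L)} (hA : A ⊆ P)
    (h2 : rkn (nP U N P) A = 2) : Line U N P (clo (nP U N P) P A) where
  sub := clo_subset
  flat := fun _ hC hr => (h.nul hg).clo_clo hA hC hr
  rk := by rw [(h.nul hg).rk_clo hA, h2]

theorem Line.clo_eq (hg : Sur F U N) (h : Par F U N P) {l A : Finset (Finset L)}
    (hl : Line U N P l) (hA : A ⊆ l) (h2 : 2 ≤ A.card) : clo (nP U N P) P A = l := by
  have hn := h.nul hg
  have hAP := hA.trans hl.sub
  have h3 : rkn (nP U N P) A = 2 := le_antisymm ((hn.rk_mono hA).trans hl.rk.le) (h.rk_two hg hAP h2)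
  apply subset_antisymm
  · intro C hC
    obtain ⟨hC1, hC2⟩ := mem_filter.1 hC
    refine hl.flat C hC1 ?_
    have h4 := hn.rk_sub (insert C A) l
    have h5 : insert C A ∪ l = insert C l := by
      rw [insert_union, union_eq_right.2 hA]
    have h6 : rkn (nP U N P) A ≤ rkn (nP U N P) (insert C A ∩ l) :=
      hn.rk_mono (subset_inter (subset_insert _ _) hA)
    rw [h5] at h4
    linarith
  · intro C hC
    refine mem_filter.2 ⟨hl.sub hC, ?_⟩
    have h4 : insert C A ⊆ l := insert_subset hC hA
    exact (hn.rk_mono h4).trans (hl.rk.trans h3.symm).le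

/-- two classes determine the line. -/
theorem Line.unique (hg : Sur F U N) (h : Par F U N P) {l l' : Finset (Finset L)}
    (hl : Line U N P l) (hl' : Line U N P l') (h2 : 2 ≤ (l ∩ l').card) : l = l' := by
  rw [← Line.clo_eq hg h hl inter_subset_left h2, Line.clo_eq hg h hl' inter_subset_right h2]

/-- **different lines have at most one common class**. -/
theorem Line.inter_le (hg : Sur F U N) (h : Par F U N P) {l l' : Finset (Finset L)}
    (hl : Line U N P l) (hl' : Line U N P l') (hne : l ≠ l') : (l ∩ l').card ≤ 1 := by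
  by_contra hcon
  exact hne (Line.unique hg h hl hl' (by omega))

omit [DecidableEq α] in
/-- the own points of a line. -/
theorem mem_UU {A : Finset (Finset L)} {u : α} :
    u ∈ UU U N P A ↔ u ∈ Ux U N P ∧ N u ⊆ A.biUnion id := by
  unfold UU
  rw [mem_filter]

/-- **a line with `k + 2` classes has `k` own points**. -/
theorem Line.card_eq (hg : Sur F U N) (h : Par F U N P) {l : Finset (Finset L)}
    (hl : Line U N P l) : l.card = (UU U N P l).card + 2 := by
  have h1 : clo (nP U N P) P l = l := by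
    apply subset_antisymm
    · intro C hC
      obtain ⟨hC1, hC2⟩ := mem_filter.1 hC
      exact hl.flat C hC1 hC2
    · exact subset_clo hl.sub
  have h2 := MinP.nP_clo hg h hl.sub
  rw [h1] at h2
  have h3 := hl.rk
  unfold rkn at h3
  rw [h2] at h3
  omega

/-- every line has at least two classes. -/
theorem Line.two_le (hg : Sur F U N) (h : Par F U N P) {l : Finset (Finset L)}
    (hl : Line U N P l) : 2 ≤ l.card := by
  rw [hl.card_eq hg h]
  omega

/-- **different lines have no common own points**. -/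
theorem Line.own_disjoint (hg : Sur F U N) (h : Par F U N P) {l l' : Finset (Finset L)}
    (hl : Line U N P l) (hl' : Line U N P l') (hne : l ≠ l') :
    Disjoint (UU U N P l) (UU U N P l') := by
  rw [disjoint_left]
  intro u hu hu'
  obtain ⟨h1, h2⟩ := mem_UU.1 hu
  obtain ⟨_, h3⟩ := mem_UU.1 hu'
  have h4 := (h.ptn.sub_met (hg.NU u (mem_filter.1 h1).1) hl.sub).1 h2
  have h5 := (h.ptn.sub_met (hg.NU u (mem_filter.1 h1).1) hl'.sub).1 h3
  have h6 := h.two hg h1
  have h7 := card_le_card (subset_inter h4 h5)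
  have h8 := Line.inter_le hg h hl hl' hne
  omega

/-- sets of own points of a line see many classes of it. -/
theorem Line.own_sees (hg : Sur F U N) (h : Par F U N P) {l : Finset (Finset L)}
    (hl : Line U N P l) {B : Finset α} (hB : B ⊆ UU U N P l) (hne : B.Nonempty) :
    B.card + 2 ≤ ((B.biUnion (fun u => met P (N u))) ∩ l).card := by
  have h1 := h.surplus hg (B := B) (fun u hu => (mem_UU.1 (hB hu)).1) hne
  rw [inter_eq_left.2]
  · exact h1
  · intro C hC
    obtain ⟨u, hu, hC⟩ := mem_biUnion.1 hC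
    obtain ⟨h2, h3⟩ := mem_UU.1 (hB hu)
    exact (h.ptn.sub_met (hg.NU u (mem_filter.1 h2).1) hl.sub).1 h3 hC

/-- **the types of a triple** with points seeing the leaves `A1`, `A2`, `A3`: a point without leaf, or
two points which see only one class, or all see at most two classes, or a line with own points. -/
theorem Par.types (hg : Sur F U N) (h : Par F U N P) {A1 A2 A3 : Finset L}
    (h1 : A1 ⊆ F) (h2 : A2 ⊆ F) (h3 : A3 ⊆ F)
    (hno : ∀ x ∈ A1, ∀ y ∈ A2, ∀ z ∈ A3, x ≠ y → x ≠ z → y ≠ z → 0 < dfc U N {x, y, z}) :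
    A1 = ∅ ∨ A2 = ∅ ∨ A3 = ∅ ∨ (∃ C ∈ P, A1 ⊆ C ∧ A2 ⊆ C) ∨ (∃ C ∈ P, A1 ⊆ C ∧ A3 ⊆ C) ∨
      (∃ C ∈ P, A2 ⊆ C ∧ A3 ⊆ C) ∨ Line U N P (clo (nP U N P) P (met P (A1 ∪ A2 ∪ A3))) := by
  rcases MinP.types hg h h1 h2 h3 hno with h4 | h4 | h4 | h4 | h4 | h4 | h4
  · exact Or.inl h4
  · exact Or.inr (Or.inl h4)
  · exact Or.inr (Or.inr (Or.inl h4))
  · exact Or.inr (Or.inr (Or.inr (Or.inl h4)))
  · exact Or.inr (Or.inr (Or.inr (Or.inr (Or.inl h4))))
  · exact Or.inr (Or.inr (Or.inr (Or.inr (Or.inr (Or.inl h4)))))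
  · by_cases hm : 2 ≤ (met P (A1 ∪ A2 ∪ A3)).card
    · refine Or.inr (Or.inr (Or.inr (Or.inr (Or.inr (Or.inr ?_)))))
      exact h.line hg met_subset (le_antisymm h4 (h.rk_two hg met_subset hm))
    · -- at most one class is seen
      rcases A1.eq_empty_or_nonempty with h5 | ⟨x, hx⟩
      · exact Or.inl h5
      obtain ⟨C, hC, hxC⟩ := h.cls (h1 hx)
      have hCm : C ∈ met P (A1 ∪ A2 ∪ A3) := mem_met.2 ⟨hC, not_disjoint_iff.2
        ⟨x, mem_union_left _ (mem_union_left _ hx), hxC⟩⟩
      have hone : met P (A1 ∪ A2 ∪ A3) ⊆ {C} := by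
        intro D hD
        by_contra hDC
        rw [mem_singleton] at hDC
        have : 1 < (met P (A1 ∪ A2 ∪ A3)).card := one_lt_card.2 ⟨D, hD, C, hCm, hDC⟩
        omega
      refine Or.inr (Or.inr (Or.inr (Or.inl ⟨C, hC, ?_, ?_⟩)))
      · refine h.ptn.met_single h1 (fun D hD => hone ?_) hC
        obtain ⟨hD1, hD2⟩ := mem_met.1 hD
        refine mem_met.2 ⟨hD1, fun hd => hD2 (hd.mono_left ?_)⟩
        exact subset_union_left.trans subset_union_left
      · refine h.ptn.met_single h2 (fun D hD => hone ?_) hC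
        obtain ⟨hD1, hD2⟩ := mem_met.1 hD
        refine mem_met.2 ⟨hD1, fun hd => hD2 (hd.mono_left ?_)⟩
        exact subset_union_right.trans subset_union_left

end

end Pool.Agent.Hyp6.Sp
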