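import Pool.Agent.Hyp6.L3T1

/-!
# HYP6 L3Rs1: deletion of one point of a leaf

Rule R1 (helper66): the point `x` is deleted and absorbs `p` and `v`, with the full block of `v`.
-/

set_option autoImplicit false

namespace Pool.Agent.Hyp6

open Finset Pool.Agent.Hyp5

universe u v

variable {V : Type v} [DecidableEq V] {ι : Type u} [Fintype ι] {B : ι → Finset V}

/-- **rule R1**: the point `x` with its blocks, one of them `{x, p, v}`, two blocks `i0`, `i1` with the
common point `m`, one block `k` with `x`, `p`, all others inside `{x, p, v}`; the full block `t` of `v`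
meets neither `x`, `p` nor (outside `v`) the block `k`. -/
theorem ViolR.r1 {Q : Finset V} (hv : ViolR B Q) {x p v m : V} {i k i0 i1 t : ι}
    (hxQ : x ∈ Q) (hpQ : p ∈ Q) (hvQ : v ∈ Q) (hmQ : m ∈ Q) (hxp : x ≠ p) (hxv : x ≠ v)
    (hpv : p ≠ v) (hmx : m ≠ x) (hmp : m ≠ p) (hmv : m ≠ v) (hex : ee B Q {x} = 0)
    (hix : x ∈ B i) (hip : p ∈ B i) (hiv : v ∈ B i) (hkx : x ∈ B k) (hkp : p ∈ B k)
    (h0x : x ∈ B i0) (h1x : x ∈ B i1) (h0m : m ∈ B i0) (h1m : m ∈ B i1)
    (h01 : i0 ≠ i1) (hk0 : k ≠ i0) (hk1 : k ≠ i1)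
    (hall : ∀ j, x ∈ B j → j = i0 ∨ j = i1 ∨ j = k ∨ B j ∩ Q ⊆ {x, p, v})
    (ht : (B t ∩ Q).card = 3) (htv : v ∈ B t) (htx : x ∉ B t) (htp : p ∉ B t)
    (hsep : ∀ s ∈ B t ∩ Q, s ≠ v → s ∉ B k) : False := by
  classical
  set D : Finset V := {x, p, v} with hD
  have mD : ∀ z, z ∈ D ↔ z = x ∨ z = p ∨ z = v := fun z => by
    rw [hD, mem_insert, mem_insert, mem_singleton]
  have hDQ : D ⊆ Q := by
    intro z hz
    rcases (mD z).1 hz with rfl | rfl | rfl <;> assumption
  have hDi : D ⊆ B i := by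
    intro z hz
    rcases (mD z).1 hz with rfl | rfl | rfl <;> assumption
  set N0 := (B i0 ∩ Q) \ D with hN0
  set N1 := (B i1 ∩ Q) \ D with hN1
  set N2 := ((B k ∪ B t) ∩ Q) \ D with hN2
  have m0 : ∀ z, z ∈ N0 ↔ z ∈ B i0 ∧ z ∈ Q ∧ z ∉ D := fun z => by
    rw [hN0, mem_sdiff, mem_inter, and_assoc]
  have m1 : ∀ z, z ∈ N1 ↔ z ∈ B i1 ∧ z ∈ Q ∧ z ∉ D := fun z => by
    rw [hN1, mem_sdiff, mem_inter, and_assoc]
  have m2 : ∀ z, z ∈ N2 ↔ (z ∈ B k ∨ z ∈ B t) ∧ z ∈ Q ∧ z ∉ D := fun z => by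
    rw [hN2, mem_sdiff, mem_inter, mem_union, and_assoc]
  set X : Finset V := {p, v} with hX
  have mX : ∀ z, z ∈ X ↔ z = p ∨ z = v := fun z => by rw [hX, mem_insert, mem_singleton]
  have hXc : X.card = 2 := card_pair hpv
  have hXQ : X ⊆ Q := by
    intro z hz
    rcases (mX z).1 hz with rfl | rfl <;> assumption
  have hLX : ({x} : Finset V) ∪ X = D := by
    ext z
    rw [mem_union, mem_singleton, mX, mD]
  set Y : Finset V := (N0 ∪ N1) ∪ N2 with hY
  have mY : ∀ z, z ∈ Y ↔ z ∈ N0 ∨ z ∈ N1 ∨ z ∈ N2 := fun z => by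
    rw [hY, mem_union, mem_union, or_assoc]
  have hYQ : Y ⊆ Q := by
    intro z hz
    rcases (mY z).1 hz with h | h | h
    · exact ((m0 z).1 h).2.1
    · exact ((m1 z).1 h).2.1
    · exact ((m2 z).1 h).2.1
  have hYD : ∀ z ∈ Y, z ∉ D := by
    intro z hz
    rcases (mY z).1 hz with h | h | h
    · exact ((m0 z).1 h).2.2
    · exact ((m1 z).1 h).2.2
    · exact ((m2 z).1 h).2.2
  set N : ULift.{u} (Fin 3) → Finset V := fun c =>
    if c.down = 0 then N0 else if c.down = 1 then N1 else N2 with hN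
  have mN : ∀ (c : ULift.{u} (Fin 3)) (y : V), y ∈ N c ↔
      ((c.down = 0 ∧ y ∈ N0) ∨ (c.down = 1 ∧ y ∈ N1) ∨ (c.down = 2 ∧ y ∈ N2)) := by
    rintro ⟨c⟩ y
    simp only [hN]
    fin_cases c <;> simp
  have hmN0 : m ∈ N0 := (m0 m).2 ⟨h0m, hmQ, fun h => by
    rcases (mD m).1 h with h | h | h <;> contradiction⟩
  have hmN1 : m ∈ N1 := (m1 m).2 ⟨h1m, hmQ, fun h => by
    rcases (mD m).1 h with h | h | h <;> contradiction⟩
  -- the full block
  have hvt : v ∈ B t ∩ Q := mem_inter.2 ⟨htv, hvQ⟩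
  have hti : ∀ s ∈ (B t ∩ Q).erase v, s ∈ N2 ∧ s ∉ B k := by
    intro s hs
    obtain ⟨h1, h2⟩ := mem_erase.1 hs
    obtain ⟨h3, h4⟩ := mem_inter.1 h2
    refine ⟨(m2 s).2 ⟨Or.inr h3, h4, fun h5 => ?_⟩, hsep s h2 h1⟩
    rcases (mD s).1 h5 with rfl | rfl | rfl
    · exact htx h3
    · exact htp h3
    · exact h1 rfl
  have htc : ((B t ∩ Q).erase v).card = 2 := by
    have := card_erase_add_one hvt
    omega
  have hxt : t ≠ i0 ∧ t ≠ i1 ∧ t ≠ k ∧ t ≠ i := by
    refine ⟨?_, ?_, ?_, ?_⟩ <;>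
    · rintro rfl
      exact htx (by assumption)
  -- sizes
  have hc0 : N0.card ≤ 2 := by
    have h1 : N0 ⊆ (B i0 ∩ Q).erase x := by
      intro z hz
      obtain ⟨h2, h3, h4⟩ := (m0 z).1 hz
      exact mem_erase.2 ⟨fun h5 => h4 ((mD z).2 (Or.inl h5)), mem_inter.2 ⟨h2, h3⟩⟩
    have h2 := card_le_card h1
    have h3 := card_erase_add_one (mem_inter.2 ⟨h0x, hxQ⟩ : x ∈ B i0 ∩ Q)
    have h4 := hv.tr i0
    omega
  have hc1 : N1.card ≤ 2 := by
    have h1 : N1 ⊆ (B i1 ∩ Q).erase x := by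
      intro z hz
      obtain ⟨h2, h3, h4⟩ := (m1 z).1 hz
      exact mem_erase.2 ⟨fun h5 => h4 ((mD z).2 (Or.inl h5)), mem_inter.2 ⟨h2, h3⟩⟩
    have h2 := card_le_card h1
    have h3 := card_erase_add_one (mem_inter.2 ⟨h1x, hxQ⟩ : x ∈ B i1 ∩ Q)
    have h4 := hv.tr i1
    omega
  have hc2 : N2.card ≤ 3 := by
    have h1 : N2 ⊆ (((B k ∩ Q).erase x).erase p) ∪ (B t ∩ Q).erase v := by
      intro z hz
      obtain ⟨h2, h3, h4⟩ := (m2 z).1 hz
      rcases h2 with h2 | h2
      · exact mem_union_left _ (mem_erase.2 ⟨fun h5 => h4 ((mD z).2 (Or.inr (Or.inl h5))),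
          mem_erase.2 ⟨fun h5 => h4 ((mD z).2 (Or.inl h5)), mem_inter.2 ⟨h2, h3⟩⟩⟩)
      · exact mem_union_right _ (mem_erase.2 ⟨fun h5 => h4 ((mD z).2 (Or.inr (Or.inr h5))),
          mem_inter.2 ⟨h2, h3⟩⟩)
    have h2 := (card_le_card h1).trans (card_union_le _ _)
    have h3 := card_erase_add_one (mem_inter.2 ⟨hkx, hxQ⟩ : x ∈ B k ∩ Q)
    have h4 := card_erase_add_one (mem_erase.2 ⟨hxp.symm, mem_inter.2 ⟨hkp, hpQ⟩⟩ :
      p ∈ (B k ∩ Q).erase x)
    have h5 := hv.tr k
    omega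
  have hcov := hv.cov
  have hxne : ∀ j, (B j ∩ ({x} : Finset V)).Nonempty ↔ x ∈ B j := by
    intro j
    constructor
    · rintro ⟨z, hz⟩
      obtain ⟨h1, h2⟩ := mem_inter.1 hz
      rwa [mem_singleton.1 h2] at h1
    · intro h
      exact ⟨x, mem_inter.2 ⟨h, mem_singleton_self x⟩⟩
  have hg : Gdl B Q {x} X Y {t} (Gdl.kp B {x} {t}) N := by
    refine Gdl.of_keep hv.reg hv.tr (singleton_subset_iff.2 hxQ) hXQ hYQ ?_ ?_ ?_ ?_ ?_ ?_ ?_ ?_ ?_
    · rw [disjoint_singleton_left, mX]
      rintro (h | h)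
      · exact hxp h
      · exact hxv h
    · rw [disjoint_singleton_left]
      exact fun h => hYD x h ((mD x).2 (Or.inl rfl))
    · rw [disjoint_right]
      intro z hz hzX
      refine hYD z hz ((mD z).2 (Or.inr ?_))
      exact (mX z).1 hzX
    · intro j hj z hz
      rw [hxne] at hj
      rw [hLX]
      obtain ⟨hzj, hzQ⟩ := mem_inter.1 hz
      by_cases hzD : z ∈ D
      · exact mem_union_left _ hzD
      refine mem_union_right _ ((mY z).2 ?_)
      rcases hall j hj with rfl | rfl | rfl | h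
      · exact Or.inl ((m0 z).2 ⟨hzj, hzQ, hzD⟩)
      · exact Or.inr (Or.inl ((m1 z).2 ⟨hzj, hzQ, hzD⟩))
      · exact Or.inr (Or.inr ((m2 z).2 ⟨Or.inl hzj, hzQ, hzD⟩))
      · exact absurd (h hz) hzD
    · intro j hj
      rw [mem_singleton] at hj
      subst hj
      refine ⟨fun z hz => ?_, ht⟩
      by_cases hzv : z = v
      · exact mem_union_left _ ((mX z).2 (Or.inr hzv))
      · exact mem_union_right _ ((mY z).2 (Or.inr (Or.inr (hti z (mem_erase.2 ⟨hzv, hz⟩)).1)))
    · rintro c z hz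
      rcases (mN c z).1 hz with ⟨_, h⟩ | ⟨_, h⟩ | ⟨_, h⟩
      · exact (mY z).2 (Or.inl h)
      · exact (mY z).2 (Or.inr (Or.inl h))
      · exact (mY z).2 (Or.inr (Or.inr h))
    · -- degrees
      intro y hy
      have hyD := hYD y hy
      have hyQ := hYQ hy
      have e1 : (univ.filter (fun c => y ∈ N c)).card =
          (if y ∈ N0 then 1 else 0) + (if y ∈ N1 then 1 else 0) + (if y ∈ N2 then 1 else 0) := by
        have h4 := fin3_card.{u} (fun c => (c = 0 ∧ y ∈ N0) ∨ (c = 1 ∧ y ∈ N1) ∨ (c = 2 ∧ y ∈ N2))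
        rw [filter_congr (fun c _ => mN c y)]
        rw [h4]
        simp
      have e2 : (univ.filter (fun j => y ∈ B j ∧ (B j ∩ ({x} : Finset V)).Nonempty)).card =
          (if y ∈ B i0 then 1 else 0) + (if y ∈ B i1 then 1 else 0) +
            (if y ∈ B k then 1 else 0) := by
        have h1 : univ.filter (fun j => y ∈ B j ∧ (B j ∩ ({x} : Finset V)).Nonempty) =
            ({i0, i1, k} : Finset ι).filter (fun j => y ∈ B j) := by
          ext j
          rw [mem_filter, mem_filter, hxne, mem_insert, mem_insert, mem_singleton]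
          constructor
          · rintro ⟨_, h2, h3⟩
            refine ⟨?_, h2⟩
            rcases hall j h3 with h4 | h4 | h4 | h4
            · exact Or.inl h4
            · exact Or.inr (Or.inl h4)
            · exact Or.inr (Or.inr h4)
            · exact absurd (h4 (mem_inter.2 ⟨h2, hyQ⟩)) hyD
          · rintro ⟨h2, h3⟩
            refine ⟨mem_univ _, h3, ?_⟩
            rcases h2 with rfl | rfl | rfl <;> assumption
        rw [h1, card_filter, sum_insert (by
          rw [mem_insert, mem_singleton, not_or]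
          exact ⟨h01, hk0.symm⟩), sum_pair hk1.symm, add_assoc]
      have e3 : (({t} : Finset ι).filter (fun j => y ∈ B j)).card = if y ∈ B t then 1 else 0 := by
        rw [card_filter, sum_singleton]
      have e4 : (if y ∈ N2 then 1 else 0) = (if y ∈ B k then 1 else 0) +
          (if y ∈ B t then 1 else 0) := by
        by_cases h1 : y ∈ B k
        · have h2 : y ∉ B t := by
            intro h3
            have h4 : y ∈ (B t ∩ Q).erase v := mem_erase.2 ⟨fun h5 => hyD ((mD y).2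
              (Or.inr (Or.inr h5))), mem_inter.2 ⟨h3, hyQ⟩⟩
            exact (hti y h4).2 h1
          rw [if_pos ((m2 y).2 ⟨Or.inl h1, hyQ, hyD⟩), if_pos h1, if_neg h2]
        · by_cases h2 : y ∈ B t
          · rw [if_pos ((m2 y).2 ⟨Or.inr h2, hyQ, hyD⟩), if_neg h1, if_pos h2]
          · rw [if_neg (fun h3 => ((m2 y).1 h3).1.elim h1 h2), if_neg h1, if_neg h2]
      have e5 : (if y ∈ N0 then 1 else 0) = if y ∈ B i0 then 1 else 0 := by
        by_cases h1 : y ∈ B i0
        · rw [if_pos ((m0 y).2 ⟨h1, hyQ, hyD⟩), if_pos h1]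
        · rw [if_neg (fun h3 => h1 ((m0 y).1 h3).1), if_neg h1]
      have e6 : (if y ∈ N1 then 1 else 0) = if y ∈ B i1 then 1 else 0 := by
        by_cases h1 : y ∈ B i1
        · rw [if_pos ((m1 y).2 ⟨h1, hyQ, hyD⟩), if_pos h1]
        · rw [if_neg (fun h3 => h1 ((m1 y).1 h3).1), if_neg h1]
      rw [e1, e2, e3, e4, e5, e6]
      omega
    · rintro ⟨c⟩
      simp only [hN]
      split_ifs
      · omega
      · omega
      · exact hc2
    · -- costs
      intro K
      rw [hLX]
      have hr1 : rho B ({x} : Finset V) = 1 := by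
        refine le_antisymm (rho_le_one (i := i) (singleton_subset_iff.2 hix)) ?_
        by_contra hcon
        have h1 : rho B ({x} : Finset V) = 0 := by omega
        obtain ⟨S, hS1, hS2⟩ := exists_cover (B := B) (W := {x})
          (hcov.mono (singleton_subset_iff.2 hxQ))
        rw [h1] at hS2
        rw [card_eq_zero.1 hS2, biUnion_empty] at hS1
        exact notMem_empty _ (hS1 (mem_singleton_self x))
      rw [hr1]
      set S2 : Finset ι := if ULift.up 2 ∈ K then {k, t} else {i} with hS2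
      set S0 : Finset ι := if ULift.up 0 ∈ K then {i0} else ∅ with hS0
      set S1 : Finset ι := if ULift.up 1 ∈ K then {i1} else ∅ with hS1
      have hsub : D ∪ K.biUnion N ⊆ ((S2 ∪ S0) ∪ S1).biUnion B := by
        have hDS : D ⊆ ((S2 ∪ S0) ∪ S1).biUnion B := by
          intro z hz
          by_cases hK2 : ULift.up 2 ∈ K
          · rcases (mD z).1 hz with rfl | rfl | rfl
            · exact mem_biUnion.2 ⟨k, by simp [hS2, hK2], hkx⟩
            · exact mem_biUnion.2 ⟨k, by simp [hS2, hK2], hkp⟩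
            · exact mem_biUnion.2 ⟨t, by simp [hS2, hK2], htv⟩
          · exact mem_biUnion.2 ⟨i, by simp [hS2, hK2], hDi hz⟩
        refine union_subset hDS fun z hz => ?_
        obtain ⟨c, hc, hzc⟩ := mem_biUnion.1 hz
        have hcc : c = ULift.up c.down := rfl
        rcases (mN c z).1 hzc with ⟨h1, h2⟩ | ⟨h1, h2⟩ | ⟨h1, h2⟩
        · rw [hcc, h1] at hc
          exact mem_biUnion.2 ⟨i0, by simp [hS0, hc], ((m0 z).1 h2).1⟩
        · rw [hcc, h1] at hc
          exact mem_biUnion.2 ⟨i1, by simp [hS1, hc], ((m1 z).1 h2).1⟩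
        · rw [hcc, h1] at hc
          rcases ((m2 z).1 h2).1 with h3 | h3
          · exact mem_biUnion.2 ⟨k, by simp [hS2, hc], h3⟩
          · exact mem_biUnion.2 ⟨t, by simp [hS2, hc], h3⟩
      have h1 := rho_le hsub
      have h2 : ((S2 ∪ S0) ∪ S1).card ≤ S2.card + S0.card + S1.card := by
        have h3 := card_union_le (S2 ∪ S0) S1
        have h4 := card_union_le S2 S0
        omega
      have h3 : K.card = (if ULift.up (0 : Fin 3) ∈ K then 1 else 0) +
          (if ULift.up (1 : Fin 3) ∈ K then 1 else 0) +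
          (if ULift.up (2 : Fin 3) ∈ K then 1 else 0) := by
        have h4 := fin3_card.{u} (fun c => ULift.up c ∈ K)
        rw [← h4]
        congr 1
        ext c
        simp
      have h4 : S2.card ≤ 1 + (if ULift.up (2 : Fin 3) ∈ K then 1 else 0) := by
        rw [hS2]
        split_ifs
        · exact card_le_two
        · simp
      have h5 : S0.card = (if ULift.up (0 : Fin 3) ∈ K then 1 else 0) := by
        rw [hS0]
        split_ifs <;> simp
      have h6 : S1.card = (if ULift.up (1 : Fin 3) ∈ K then 1 else 0) := by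
        rw [hS1]
        split_ifs <;> simp
      omega
  have hw := hg.wir
  have hpart := hg.part_of_conn (singleton_nonempty x) (hv.conn_sdiff hXQ (by omega)) hg.keep_kp
  have hn : (Gdl.rm Q {x} X Y).card + Y.card < Q.card := by
    have h4 : Gdl.rm Q {x} X Y ∪ Y ⊂ Q := by
      refine ⟨union_subset sdiff_subset hYQ, fun h5 => ?_⟩
      rcases mem_union.1 (h5 hxQ) with h6 | h6
      · exact (Gdl.mem_rm.1 h6).2.1 (mem_singleton_self x)
      · exact hYD x h6 ((mD x).2 (Or.inl rfl))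
    have h5 := card_lt_card h4
    rwa [card_union_of_disjoint hg.wir.dis] at h5
  have hfin := (hg.partsR hv.ih hv.ihr hn hpart (K0 := {ULift.up 0, ULift.up 2})
    (fun Z hZ hZne hcl => by
      obtain ⟨z, hz⟩ := hZne
      have key : ∀ c : ULift.{u} (Fin 3), z ∈ N c → N c ⊆ Z := fun c hc =>
        hcl c ⟨z, mem_inter.2 ⟨hc, hz⟩⟩
      have g0 : N0 = N (ULift.up 0) := by simp [hN]
      have g1 : N1 = N (ULift.up 1) := by simp [hN]
      have g2 : N2 = N (ULift.up 2) := by simp [hN]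
      rcases (mY z).1 (hZ hz) with h1 | h1 | h1
      · refine ⟨ULift.up 0, by simp, ?_, ?_⟩
        · rw [← g0]
          exact ⟨z, h1⟩
        · exact key _ (by rw [← g0]; exact h1)
      · have h2 := key (ULift.up 1) (by rw [← g1]; exact h1)
        rw [← g1] at h2
        refine ⟨ULift.up 0, by simp, ?_, ?_⟩
        · rw [← g0]
          exact ⟨m, hmN0⟩
        · exact hcl _ ⟨m, mem_inter.2 ⟨by rw [← g0]; exact hmN0, h2 hmN1⟩⟩
      · refine ⟨ULift.up 2, by simp, ?_, ?_⟩
        · rw [← g2]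
          exact ⟨z, h1⟩
        · exact key _ (by rw [← g2]; exact h1))).1
  have hck : (Fintype.card (ULift.{u} (Fin 3)) : ℤ) = 3 := by simp
  have hdvx : dv B Q ({x} : Finset V) = 1 := by
    have h1 := Pv_eq (B := B) ({x} : Finset V)
    have h2 : cm B ({x} : Finset V) = 5 := by
      have h3 := hv.reg x hxQ
      unfold Hyp6.cm
      rw [← h3]
      congr 1
      ext j
      rw [cost_mem_tch, hxne, mem_filter]
      simp
    have h3 : rho B ({x} : Finset V) = 1 := by
      refine le_antisymm (rho_le_one (i := i) (singleton_subset_iff.2 hix)) ?_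
      by_contra hcon
      have h1 : rho B ({x} : Finset V) = 0 := by omega
      obtain ⟨S, hS1, hS2⟩ := exists_cover (B := B) (W := {x})
        (hcov.mono (singleton_subset_iff.2 hxQ))
      rw [h1] at hS2
      rw [card_eq_zero.1 hS2, biUnion_empty] at hS1
      exact notMem_empty _ (hS1 (mem_singleton_self x))
    rw [h2, h3, card_singleton] at h1
    unfold dv
    rw [h1, hex]
    norm_num
  have h4 := hv.neg
  have h5 : (0 : ℤ) ≤ ((Gdl.lost B Q {x} X Y {t} (Gdl.kp B {x} {t})).card : ℤ) := by positivity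
  have h6 : (({ULift.up 0, ULift.up 2} : Finset (ULift.{u} (Fin 3))).card : ℤ) ≤ 2 := by
    exact_mod_cast card_le_two
  have h7 : ((({ULift.up 0, ULift.up 2} : Finset (ULift.{u} (Fin 3))).filter
      (fun c => (N c).card = 3)).card : ℤ) ≤ 1 := by
    have h8 : ({ULift.up 0, ULift.up 2} : Finset (ULift.{u} (Fin 3))).filter
        (fun c => (N c).card = 3) ⊆ {ULift.up 2} := by
      intro c hc
      obtain ⟨h9, h10⟩ := mem_filter.1 hc
      rw [mem_insert, mem_singleton] at h9
      rw [mem_singleton]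
      rcases h9 with rfl | rfl
      · exfalso
        have g0 : N0 = N (ULift.up 0) := by simp [hN]
        rw [← g0] at h10
        omega
      · rfl
    exact_mod_cast (card_le_card h8).trans (by rw [card_singleton])
  rw [hck, hXc, card_singleton, hdvx] at hfin
  push_cast at hfin
  omega

end Pool.Agent.Hyp6
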