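import Pool.Agent.Hyp6.L3T1

/-!
# HYP6 L3T2: six contact points with one hit each

`ViolR.k2c`: two deleted triples, four new blocks, the parts of the rest contain one of the two small new
blocks. `ViolR.k33`: six contact points with one hit each in two sets of three points such that `L`
absorbs every pair of points of different sets.
-/

set_option autoImplicit false

namespace Pool.Agent.Hyp6

open Finset Pool.Agent.Hyp5

universe u v

variable {V : Type v} [DecidableEq V] {ι : Type u} [Fintype ι] {B : ι → Finset V}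

theorem fin4_card (P : Fin 4 → Prop) [DecidablePred P] :
    ((univ : Finset (ULift.{u} (Fin 4))).filter (fun c => P c.down)).card =
      (if P 0 then 1 else 0) + (if P 1 then 1 else 0) + (if P 2 then 1 else 0) +
        (if P 3 then 1 else 0) := by
  rw [card_filter, ← Equiv.ulift.symm.sum_comp, Fin.sum_univ_four]
  rfl

/-- **two deleted triples, four new blocks**: `L` absorbs `{p, q}`, `{q, p'}`, `{p, q'}`, `{p', q'}`;
two more contact points `r`, `r'`; all contact points but `p`, `q` have one hit, no two of them in a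
common block at `L`; every closed set of the rest contains `r` or `r'`. -/
theorem ViolR.k2c {Q L : Finset V} (hv : ViolR B Q) (hLQ : L ⊆ Q) (hLne : L.Nonempty)
    (hdv : -1 ≤ dv B Q L) (hsL : sv B L ≤ -1) {p q p' q' r r' : V} {i j : ι}
    (hi : (B i ∩ Q).card = 3)
    (hj : (B j ∩ Q).card = 3) (hp : p ∈ B i ∩ Q) (hq : q ∈ B j ∩ Q)
    (hij : Disjoint (B i ∩ Q) (B j ∩ Q))
    (hip : ∀ y ∈ B i ∩ Q, y ≠ p → Ez B L y = ∅) (hjq : ∀ y ∈ B j ∩ Q, y ≠ q → Ez B L y = ∅)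
    (hpL : p ∉ L) (hqL : q ∉ L) (hp'Q : p' ∈ Q) (hq'Q : q' ∈ Q) (hrQ : r ∈ Q) (hr'Q : r' ∈ Q)
    (hp'L : p' ∉ L) (hq'L : q' ∉ L) (hrL : r ∉ L) (hr'L : r' ∉ L)
    (h1 : (Ez B L p').card = 1) (h2 : (Ez B L q').card = 1)
    (h3 : (Ez B L r).card = 1) (h4' : (Ez B L r').card = 1)
    (n1 : p ≠ p') (n2 : p ≠ q') (n3 : p ≠ r) (n3' : p ≠ r') (n4 : q ≠ p') (n5 : q ≠ q')
    (n6 : q ≠ r) (n6' : q ≠ r')
    (n7 : p' ≠ q') (n8 : p' ≠ r) (n8' : p' ≠ r') (n9 : q' ≠ r) (n9' : q' ≠ r') (n10 : r ≠ r')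
    (hall : ∀ v ∈ Q, v ∉ L → (Ez B L v).Nonempty →
      v = p ∨ v = q ∨ v = p' ∨ v = q' ∨ v = r ∨ v = r')
    (hsp : ∀ k, (B k ∩ L).Nonempty → ∀ u ∈ B k, ∀ w ∈ B k, u ∈ Q → w ∈ Q → u ∉ L → w ∉ L →
      u = w)
    (a1 : rho B (L ∪ {p, q}) ≤ rho B L) (a2 : rho B (L ∪ {q, p'}) ≤ rho B L)
    (a3 : rho B (L ∪ {p, q'}) ≤ rho B L) (a4 : rho B (L ∪ {p', q'}) ≤ rho B L)
    (hK : ∀ Z, Closed (gr B) (Q \ (L ∪ {p, q})) Z → Z.Nonempty → r ∈ Z ∨ r' ∈ Z) : False := by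
  classical
  obtain ⟨hpi, hpQ⟩ := mem_inter.1 hp
  obtain ⟨hqj, hqQ⟩ := mem_inter.1 hq
  have hpq : p ≠ q := by
    rintro rfl
    exact disjoint_left.1 hij hp hq
  have hcov := hv.cov
  -- points of `L` have blocks at `L`
  have hEL : ∀ y ∈ L, (Ez B L y).Nonempty := by
    intro y hy
    have h4 : (univ.filter (fun k => y ∈ B k)).card = 5 := hv.reg y (hLQ hy)
    obtain ⟨k, hk⟩ := card_pos.1 (by omega : 0 < (univ.filter (fun k => y ∈ B k)).card)
    exact ⟨k, mem_Ez.2 ⟨(mem_filter.1 hk).2, y, mem_inter.2 ⟨(mem_filter.1 hk).2, hy⟩⟩⟩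
  have hiL : ∀ y ∈ B i ∩ Q, y ∉ L := by
    intro y hy hyL
    by_cases h4 : y = p
    · exact hpL (h4 ▸ hyL)
    · have h5 := hEL y hyL
      rw [hip y hy h4] at h5
      exact not_nonempty_empty h5
  have hjL : ∀ y ∈ B j ∩ Q, y ∉ L := by
    intro y hy hyL
    by_cases h4 : y = q
    · exact hqL (h4 ▸ hyL)
    · have h5 := hEL y hyL
      rw [hjq y hy h4] at h5
      exact not_nonempty_empty h5
  have ne1 : ∀ y, (Ez B L y).card = 1 → y ≠ p → y ∉ B i ∩ Q := by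
    intro y hy hyp hyi
    rw [hip y hyi hyp, card_empty] at hy
    omega
  have ne2 : ∀ y, (Ez B L y).card = 1 → y ≠ q → y ∉ B j ∩ Q := by
    intro y hy hyp hyi
    rw [hjq y hyi hyp, card_empty] at hy
    omega
  set Ti := (B i ∩ Q).erase p with hTi
  set Tj := (B j ∩ Q).erase q with hTj
  have cTi : Ti.card = 2 := by rw [hTi, card_erase_of_mem hp, hi]
  have cTj : Tj.card = 2 := by rw [hTj, card_erase_of_mem hq, hj]
  have mTi : ∀ y, y ∈ Ti ↔ y ≠ p ∧ y ∈ B i ∧ y ∈ Q := by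
    intro y
    rw [hTi, mem_erase, mem_inter]
  have mTj : ∀ y, y ∈ Tj ↔ y ≠ q ∧ y ∈ B j ∧ y ∈ Q := by
    intro y
    rw [hTj, mem_erase, mem_inter]
  set N : ULift.{u} (Fin 4) → Finset V := fun c =>
    if c.down = 0 then insert p' Ti else if c.down = 1 then insert q' Tj else
      if c.down = 2 then {r} else {r'} with hN
  have mN : ∀ (c : ULift.{u} (Fin 4)) (y : V), y ∈ N c ↔
      (c.down = 0 ∧ (y = p' ∨ y ∈ Ti)) ∨ (c.down = 1 ∧ (y = q' ∨ y ∈ Tj)) ∨
        (c.down = 2 ∧ y = r) ∨ (c.down = 3 ∧ y = r') := by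
    rintro ⟨c⟩ y
    simp only [hN]
    fin_cases c <;> simp
  set Y : Finset V := ((Ti ∪ Tj) ∪ {p', q'}) ∪ {r, r'} with hY
  have mY : ∀ y, y ∈ Y ↔ y ∈ Ti ∨ y ∈ Tj ∨ y = p' ∨ y = q' ∨ y = r ∨ y = r' := by
    intro y
    simp only [hY, mem_union, mem_insert, mem_singleton]
    tauto
  set X : Finset V := {p, q} with hX
  have hXc : X.card = 2 := card_pair hpq
  have mX : ∀ z, z ∈ X ↔ z = p ∨ z = q := fun z => by rw [hX, mem_insert, mem_singleton]
  have hTiE : ∀ y ∈ Ti, Ez B L y = ∅ := fun y hy =>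
    hip y (mem_inter.2 ((mTi y).1 hy).2) ((mTi y).1 hy).1
  have hTjE : ∀ y ∈ Tj, Ez B L y = ∅ := fun y hy =>
    hjq y (mem_inter.2 ((mTj y).1 hy).2) ((mTj y).1 hy).1
  have hTij : ∀ y ∈ Ti, y ∉ B j := fun y hy h4 =>
    disjoint_left.1 hij (mem_inter.2 ((mTi y).1 hy).2) (mem_inter.2 ⟨h4, ((mTi y).1 hy).2.2⟩)
  have hTji : ∀ y ∈ Tj, y ∉ B i := fun y hy h4 =>
    disjoint_right.1 hij (mem_inter.2 ((mTj y).1 hy).2) (mem_inter.2 ⟨h4, ((mTj y).1 hy).2.2⟩)
  have hd : ∀ y, (Ez B L y).card = 1 → y ∈ Q → y ≠ p → y ≠ q → y ∉ B i ∧ y ∉ B j := by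
    intro y hy hyQ h4 h5
    exact ⟨fun h6 => ne1 y hy h4 (mem_inter.2 ⟨h6, hyQ⟩),
      fun h6 => ne2 y hy h5 (mem_inter.2 ⟨h6, hyQ⟩)⟩
  obtain ⟨hp'i, hp'j⟩ := hd p' h1 hp'Q n1.symm n4.symm
  obtain ⟨hq'i, hq'j⟩ := hd q' h2 hq'Q n2.symm n5.symm
  obtain ⟨hri, hrj⟩ := hd r h3 hrQ n3.symm n6.symm
  obtain ⟨hr'i, hr'j⟩ := hd r' h4' hr'Q n3'.symm n6'.symm
  have hineqj : i ≠ j := by
    rintro rfl
    exact disjoint_left.1 hij hp hp
  have hYQ : Y ⊆ Q := by
    intro y hy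
    rcases (mY y).1 hy with h4 | h4 | rfl | rfl | rfl | rfl
    · exact ((mTi y).1 h4).2.2
    · exact ((mTj y).1 h4).2.2
    · exact hp'Q
    · exact hq'Q
    · exact hrQ
    · exact hr'Q
  have hXQ : X ⊆ Q := by
    intro y hy
    rcases (mX y).1 hy with rfl | rfl
    · exact hpQ
    · exact hqQ
  have dLX : Disjoint L X := by
    rw [disjoint_right]
    intro y hy
    rcases (mX y).1 hy with rfl | rfl
    · exact hpL
    · exact hqL
  have dLY : Disjoint L Y := by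
    rw [disjoint_right]
    intro y hy
    rcases (mY y).1 hy with h4 | h4 | rfl | rfl | rfl | rfl
    · exact hiL y (mem_inter.2 ((mTi y).1 h4).2)
    · exact hjL y (mem_inter.2 ((mTj y).1 h4).2)
    · exact hp'L
    · exact hq'L
    · exact hrL
    · exact hr'L
  have dXY : Disjoint X Y := by
    rw [disjoint_right]
    intro y hy h4
    rw [mX] at h4
    rcases (mY y).1 hy with h5 | h5 | h5 | h5 | h5 | h5
    · rcases h4 with h6 | h6
      · exact ((mTi y).1 h5).1 h6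
      · exact hTij y h5 (h6 ▸ hqj)
    · rcases h4 with h6 | h6
      · exact hTji y h5 (h6 ▸ hpi)
      · exact ((mTj y).1 h5).1 h6
    · rcases h4 with h6 | h6
      · exact n1 (h6.symm.trans h5)
      · exact n4 (h6.symm.trans h5)
    · rcases h4 with h6 | h6
      · exact n2 (h6.symm.trans h5)
      · exact n5 (h6.symm.trans h5)
    · rcases h4 with h6 | h6
      · exact n3 (h6.symm.trans h5)
      · exact n6 (h6.symm.trans h5)
    · rcases h4 with h6 | h6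
      · exact n3' (h6.symm.trans h5)
      · exact n6' (h6.symm.trans h5)
  have hcon : ∀ k, (B k ∩ L).Nonempty → B k ∩ Q ⊆ (L ∪ X) ∪ Y := by
    intro k hk y hy
    obtain ⟨hyk, hyQ⟩ := mem_inter.1 hy
    by_cases hyL : y ∈ L
    · exact mem_union_left _ (mem_union_left _ hyL)
    rcases hall y hyQ hyL ⟨k, mem_Ez.2 ⟨hyk, hk⟩⟩ with h4 | h4 | h4
    · exact mem_union_left _ (mem_union_right _ ((mX y).2 (Or.inl h4)))
    · exact mem_union_left _ (mem_union_right _ ((mX y).2 (Or.inr h4)))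
    · exact mem_union_right _ ((mY y).2 (Or.inr (Or.inr h4)))
  have hfull : ∀ k ∈ ({i, j} : Finset ι), B k ∩ Q ⊆ X ∪ Y ∧ (B k ∩ Q).card = 3 := by
    intro k hk
    rw [mem_insert, mem_singleton] at hk
    rcases hk with rfl | rfl
    · refine ⟨fun y hy => ?_, hi⟩
      by_cases h4 : y = p
      · exact mem_union_left _ ((mX y).2 (Or.inl h4))
      · exact mem_union_right _ ((mY y).2 (Or.inl ((mTi y).2 ⟨h4, mem_inter.1 hy⟩)))
    · refine ⟨fun y hy => ?_, hj⟩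
      by_cases h4 : y = q
      · exact mem_union_left _ ((mX y).2 (Or.inr h4))
      · exact mem_union_right _ ((mY y).2 (Or.inr (Or.inl ((mTj y).2 ⟨h4, mem_inter.1 hy⟩))))
  have hsub : ∀ c, N c ⊆ Y := by
    intro c y hy
    rw [mY]
    rcases (mN c y).1 hy with ⟨_, h4 | h4⟩ | ⟨_, h4 | h4⟩ | ⟨_, h4⟩ | ⟨_, h4⟩ <;> tauto
  have hdeg : ∀ y ∈ Y, (univ.filter (fun c => y ∈ N c)).card =
      (univ.filter (fun k => y ∈ B k ∧ (B k ∩ L).Nonempty)).card +
      (({i, j} : Finset ι).filter (fun k => y ∈ B k)).card := by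
    intro y hy
    have e1 : (univ.filter (fun c : ULift.{u} (Fin 4) => y ∈ N c)).card =
        (if (y = p' ∨ y ∈ Ti) then 1 else 0) + (if (y = q' ∨ y ∈ Tj) then 1 else 0) +
          (if y = r then 1 else 0) + (if y = r' then 1 else 0) := by
      have h4 := fin4_card.{u} (fun c => (c = 0 ∧ (y = p' ∨ y ∈ Ti)) ∨
        (c = 1 ∧ (y = q' ∨ y ∈ Tj)) ∨ (c = 2 ∧ y = r) ∨ (c = 3 ∧ y = r'))
      rw [filter_congr (fun c _ => mN c y)]
      rw [h4]
      simp
    have e2 : (univ.filter (fun k => y ∈ B k ∧ (B k ∩ L).Nonempty)) = Ez B L y := rfl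
    have e3 : (({i, j} : Finset ι).filter (fun k => y ∈ B k)).card =
        (if y ∈ B i then 1 else 0) + (if y ∈ B j then 1 else 0) := by
      rw [card_filter, sum_pair hineqj]
    rw [e1, e2, e3]
    have q1 : ∀ y ∈ Ti, y ∈ B i := fun y hy => ((mTi y).1 hy).2.1
    have q2 : ∀ y ∈ Tj, y ∈ B j := fun y hy => ((mTj y).1 hy).2.1
    rcases (mY y).1 hy with h4 | h4 | h4 | h4 | h4 | h4
    · have g1 : y ≠ p' := fun h5 => hp'i (h5 ▸ q1 y h4)
      have g2 : y ≠ q' := fun h5 => hq'i (h5 ▸ q1 y h4)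
      have g3 : y ≠ r := fun h5 => hri (h5 ▸ q1 y h4)
      have g3' : y ≠ r' := fun h5 => hr'i (h5 ▸ q1 y h4)
      have g4 : y ∉ Tj := fun h5 => hTij y h4 (q2 y h5)
      rw [hTiE y h4, if_pos (Or.inr h4), if_neg (fun h5 => h5.elim g2 g4), if_neg g3, if_neg g3',
        if_pos (q1 y h4), if_neg (hTij y h4), card_empty]
    · have g1 : y ≠ p' := fun h5 => hp'j (h5 ▸ q2 y h4)
      have g2 : y ≠ q' := fun h5 => hq'j (h5 ▸ q2 y h4)
      have g3 : y ≠ r := fun h5 => hrj (h5 ▸ q2 y h4)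
      have g3' : y ≠ r' := fun h5 => hr'j (h5 ▸ q2 y h4)
      have g4 : y ∉ Ti := fun h5 => hTji y h4 (q1 y h5)
      rw [hTjE y h4, if_neg (fun h5 => h5.elim g1 g4), if_pos (Or.inr h4), if_neg g3, if_neg g3',
        if_neg (hTji y h4), if_pos (q2 y h4), card_empty]
    · subst h4
      have g4 : y ∉ Ti := fun h5 => hp'i (q1 y h5)
      have g5 : y ∉ Tj := fun h5 => hp'j (q2 y h5)
      rw [h1, if_pos (Or.inl rfl), if_neg (fun h5 => h5.elim n7 g5), if_neg n8, if_neg n8',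
        if_neg hp'i, if_neg hp'j]
    · subst h4
      have g4 : y ∉ Ti := fun h5 => hq'i (q1 y h5)
      have g5 : y ∉ Tj := fun h5 => hq'j (q2 y h5)
      rw [h2, if_neg (fun h5 => h5.elim n7.symm g4), if_pos (Or.inl rfl), if_neg n9, if_neg n9',
        if_neg hq'i, if_neg hq'j]
    · subst h4
      have g4 : y ∉ Ti := fun h5 => hri (q1 y h5)
      have g5 : y ∉ Tj := fun h5 => hrj (q2 y h5)
      rw [h3, if_neg (fun h5 => h5.elim n8.symm g4), if_neg (fun h5 => h5.elim n9.symm g5),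
        if_pos rfl, if_neg n10, if_neg hri, if_neg hrj]
    · subst h4
      have g4 : y ∉ Ti := fun h5 => hr'i (q1 y h5)
      have g5 : y ∉ Tj := fun h5 => hr'j (q2 y h5)
      rw [h4', if_neg (fun h5 => h5.elim n8'.symm g4), if_neg (fun h5 => h5.elim n9'.symm g5),
        if_neg n10.symm, if_pos rfl, if_neg hr'i, if_neg hr'j]
  have hsize : ∀ c, (N c).card ≤ 3 := by
    rintro ⟨c⟩
    simp only [hN]
    fin_cases c
    · simp only [Fin.zero_eta, if_true]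
      have := card_insert_le p' Ti
      omega
    · simp only [Fin.mk_one, one_ne_zero, if_false, if_true]
      have := card_insert_le q' Tj
      omega
    · simp
    · simp
  -- the costs
  have hQc : ∀ {S : Finset V}, S ⊆ Q → Cov B S := fun hS => hcov.mono hS
  have hcost : ∀ K : Finset (ULift.{u} (Fin 4)),
      rho B ((L ∪ X) ∪ K.biUnion N) ≤ rho B L + K.card := by
    intro K
    have hKc : K.card = (if ULift.up 0 ∈ K then 1 else 0) + (if ULift.up 1 ∈ K then 1 else 0) +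
        (if ULift.up 2 ∈ K then 1 else 0) + (if ULift.up 3 ∈ K then 1 else 0) := by
      have h4 := fin4_card.{u} (fun c => ULift.up c ∈ K)
      rw [← h4]
      congr 1
      ext c
      simp
    obtain ⟨kr, hkr, _⟩ := card_pos.1 (by omega : 0 < (Ez B L r).card) |>.imp
      (fun k hk => mem_Ez.1 hk)
    obtain ⟨kr', hkr', _⟩ := card_pos.1 (by omega : 0 < (Ez B L r').card) |>.imp
      (fun k hk => mem_Ez.1 hk)
    -- the small blocks
    have key : ∀ S : Finset V, S ⊆ Q → (∀ y ∈ K.biUnion N, y ∈ S ∨ (ULift.up 2 ∈ K ∧ y = r) ∨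
        (ULift.up 3 ∈ K ∧ y = r')) →
        L ∪ X ⊆ S → rho B ((L ∪ X) ∪ K.biUnion N) ≤
          rho B S + (if ULift.up 2 ∈ K then 1 else 0) + (if ULift.up 3 ∈ K then 1 else 0) := by
      intro S hS hK hLX
      set S1 : Finset V := if ULift.up 2 ∈ K then S ∪ {r} else S with hS1
      have hSS1 : S ⊆ S1 := by
        rw [hS1]
        split_ifs
        · exact subset_union_left
        · exact Subset.refl _
      have hS1Q : S1 ⊆ Q := by
        rw [hS1]
        split_ifs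
        · exact union_subset hS (singleton_subset_iff.2 hrQ)
        · exact hS
      have e1 : rho B S1 ≤ rho B S + (if ULift.up 2 ∈ K then 1 else 0) := by
        rw [hS1]
        split_ifs
        · exact rho_union_block_le (hQc hS) (i := kr) (singleton_subset_iff.2 hkr)
        · exact le_rfl
      set S2 : Finset V := if ULift.up 3 ∈ K then S1 ∪ {r'} else S1 with hS2
      have hSS2 : S1 ⊆ S2 := by
        rw [hS2]
        split_ifs
        · exact subset_union_left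
        · exact Subset.refl _
      have hS2Q : S2 ⊆ Q := by
        rw [hS2]
        split_ifs
        · exact union_subset hS1Q (singleton_subset_iff.2 hr'Q)
        · exact hS1Q
      have e2 : rho B S2 ≤ rho B S1 + (if ULift.up 3 ∈ K then 1 else 0) := by
        rw [hS2]
        split_ifs
        · exact rho_union_block_le (hQc hS1Q) (i := kr') (singleton_subset_iff.2 hkr')
        · exact le_rfl
      have e3 : rho B ((L ∪ X) ∪ K.biUnion N) ≤ rho B S2 := by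
        refine rho_mono ?_ (hQc hS2Q)
        intro y hy
        rcases mem_union.1 hy with h5 | h5
        · exact hSS2 (hSS1 (hLX h5))
        · rcases hK y h5 with h6 | ⟨h6, h7⟩ | ⟨h6, h7⟩
          · exact hSS2 (hSS1 h6)
          · refine hSS2 ?_
            rw [hS1, if_pos h6, h7]
            exact mem_union_right _ (mem_singleton_self _)
          · rw [hS2, if_pos h6, h7]
            exact mem_union_right _ (mem_singleton_self _)
      omega
    have hbi : ∀ y ∈ K.biUnion N, (ULift.up 0 ∈ K ∧ (y = p' ∨ y ∈ Ti)) ∨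
        (ULift.up 1 ∈ K ∧ (y = q' ∨ y ∈ Tj)) ∨ (ULift.up 2 ∈ K ∧ y = r) ∨
          (ULift.up 3 ∈ K ∧ y = r') := by
      intro y hy
      obtain ⟨c, hc, hyc⟩ := mem_biUnion.1 hy
      rcases (mN c y).1 hyc with ⟨h4, h5⟩ | ⟨h4, h5⟩ | ⟨h4, h5⟩ | ⟨h4, h5⟩
      · exact Or.inl ⟨by rw [← h4]; exact hc, h5⟩
      · exact Or.inr (Or.inl ⟨by rw [← h4]; exact hc, h5⟩)
      · exact Or.inr (Or.inr (Or.inl ⟨by rw [← h4]; exact hc, h5⟩))
      · exact Or.inr (Or.inr (Or.inr ⟨by rw [← h4]; exact hc, h5⟩))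
    have pairQ : ∀ {x y : V}, x ∈ Q → y ∈ Q → L ∪ {x, y} ⊆ Q := by
      intro x y hx hy
      refine union_subset hLQ ?_
      intro z hz
      rw [mem_insert, mem_singleton] at hz
      rcases hz with rfl | rfl
      · exact hx
      · exact hy
    rw [hKc]
    by_cases k0 : ULift.up 0 ∈ K
    · by_cases k1 : ULift.up 1 ∈ K
      · rw [if_pos k0, if_pos k1]
        have h4 := key (((L ∪ {p', q'}) ∪ (B i ∩ Q)) ∪ (B j ∩ Q))
          (union_subset (union_subset (pairQ hp'Q hq'Q) inter_subset_right) inter_subset_right)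
          (fun y hy => by
            rcases hbi y hy with ⟨_, h5 | h5⟩ | ⟨_, h5 | h5⟩ | h5 | h5
            · exact Or.inl (mem_union_left _ (mem_union_left _ (mem_union_right _
                (by rw [h5]; exact mem_insert_self _ _))))
            · exact Or.inl (mem_union_left _ (mem_union_right _ (mem_inter.2 ((mTi y).1 h5).2)))
            · exact Or.inl (mem_union_left _ (mem_union_left _ (mem_union_right _
                (by rw [h5]; exact mem_insert_of_mem (mem_singleton_self _)))))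
            · exact Or.inl (mem_union_right _ (mem_inter.2 ((mTj y).1 h5).2))
            · exact Or.inr (Or.inl h5)
            · exact Or.inr (Or.inr h5))
          (fun y hy => by
            rcases mem_union.1 hy with h5 | h5
            · exact mem_union_left _ (mem_union_left _ (mem_union_left _ h5))
            · rcases (mX y).1 h5 with rfl | rfl
              · exact mem_union_left _ (mem_union_right _ hp)
              · exact mem_union_right _ hq)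
        have h5 : rho B ((L ∪ {p', q'}) ∪ (B i ∩ Q)) ≤ rho B (L ∪ {p', q'}) + 1 :=
          rho_union_block_le (hQc (pairQ hp'Q hq'Q)) inter_subset_left
        have h6 : rho B (((L ∪ {p', q'}) ∪ (B i ∩ Q)) ∪ (B j ∩ Q)) ≤
            rho B ((L ∪ {p', q'}) ∪ (B i ∩ Q)) + 1 :=
          rho_union_block_le (hQc (union_subset (pairQ hp'Q hq'Q) inter_subset_right))
            inter_subset_left
        omega
      · rw [if_pos k0, if_neg k1]
        have h4 := key ((L ∪ {q, p'}) ∪ (B i ∩ Q))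
          (union_subset (pairQ hqQ hp'Q) inter_subset_right)
          (fun y hy => by
            rcases hbi y hy with ⟨_, h5 | h5⟩ | ⟨h5, _⟩ | h5 | h5
            · exact Or.inl (mem_union_left _ (mem_union_right _
                (by rw [h5]; exact mem_insert_of_mem (mem_singleton_self _))))
            · exact Or.inl (mem_union_right _ (mem_inter.2 ((mTi y).1 h5).2))
            · exact absurd h5 k1
            · exact Or.inr (Or.inl h5)
            · exact Or.inr (Or.inr h5))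
          (fun y hy => by
            rcases mem_union.1 hy with h5 | h5
            · exact mem_union_left _ (mem_union_left _ h5)
            · rcases (mX y).1 h5 with rfl | rfl
              · exact mem_union_right _ hp
              · exact mem_union_left _ (mem_union_right _ (mem_insert_self _ _)))
        have h6 : rho B ((L ∪ {q, p'}) ∪ (B i ∩ Q)) ≤ rho B (L ∪ {q, p'}) + 1 :=
          rho_union_block_le (hQc (pairQ hqQ hp'Q)) inter_subset_left
        omega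
    · by_cases k1 : ULift.up 1 ∈ K
      · rw [if_neg k0, if_pos k1]
        have h4 := key ((L ∪ {p, q'}) ∪ (B j ∩ Q))
          (union_subset (pairQ hpQ hq'Q) inter_subset_right)
          (fun y hy => by
            rcases hbi y hy with ⟨h5, _⟩ | ⟨_, h5 | h5⟩ | h5 | h5
            · exact absurd h5 k0
            · exact Or.inl (mem_union_left _ (mem_union_right _
                (by rw [h5]; exact mem_insert_of_mem (mem_singleton_self _))))
            · exact Or.inl (mem_union_right _ (mem_inter.2 ((mTj y).1 h5).2))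
            · exact Or.inr (Or.inl h5)
            · exact Or.inr (Or.inr h5))
          (fun y hy => by
            rcases mem_union.1 hy with h5 | h5
            · exact mem_union_left _ (mem_union_left _ h5)
            · rcases (mX y).1 h5 with rfl | rfl
              · exact mem_union_left _ (mem_union_right _ (mem_insert_self _ _))
              · exact mem_union_right _ hq)
        have h6 : rho B ((L ∪ {p, q'}) ∪ (B j ∩ Q)) ≤ rho B (L ∪ {p, q'}) + 1 :=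
          rho_union_block_le (hQc (pairQ hpQ hq'Q)) inter_subset_left
        omega
      · rw [if_neg k0, if_neg k1]
        have h4 := key (L ∪ X) (union_subset hLQ hXQ)
          (fun y hy => by
            rcases hbi y hy with ⟨h5, _⟩ | ⟨h5, _⟩ | h5 | h5
            · exact absurd h5 k0
            · exact absurd h5 k1
            · exact Or.inr (Or.inl h5)
            · exact Or.inr (Or.inr h5))
          (Subset.refl _)
        omega
  have hg : Gdl B Q L X Y {i, j} (Gdl.kp B L {i, j}) N :=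
    Gdl.of_keep hv.reg hv.tr hLQ hXQ hYQ dLX dLY dXY hcon hfull hsub hdeg hsize hcost
  have hw := hg.wir
  have hn : (Gdl.rm Q L X Y).card + Y.card < Q.card := by
    have h4 : Gdl.rm Q L X Y ∪ Y ⊂ Q := by
      refine ⟨union_subset sdiff_subset hYQ, fun h5 => ?_⟩
      obtain ⟨l, hl⟩ := hLne
      rcases mem_union.1 (h5 (hLQ hl)) with h6 | h6
      · exact (Gdl.mem_rm.1 h6).2.1 hl
      · exact disjoint_left.1 dLY hl h6
    have h5 := card_lt_card h4
    rwa [card_union_of_disjoint hg.wir.dis] at h5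
  have hrmY : Gdl.rm Q L X Y ∪ Y = Q \ (L ∪ X) := by
    ext z
    constructor
    · intro g
      rcases mem_union.1 g with g | g
      · obtain ⟨g1, g2, g3, _⟩ := Gdl.mem_rm.1 g
        exact mem_sdiff.2 ⟨g1, fun g5 => (mem_union.1 g5).elim g2 g3⟩
      · exact mem_sdiff.2 ⟨hYQ g, fun g5 => (mem_union.1 g5).elim (disjoint_right.1 dLY g)
          (disjoint_right.1 dXY g)⟩
    · intro g
      obtain ⟨g1, g2⟩ := mem_sdiff.1 g
      by_cases g4 : z ∈ Y
      · exact mem_union_right _ g4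
      · exact mem_union_left _ (Gdl.mem_rm.2 ⟨g1, fun g5 => g2 (mem_union_left _ g5),
          fun g5 => g2 (mem_union_right _ g5), g4⟩)
  have hfin := (hg.partsC hv.ih hv.ihr hn (K0 := {ULift.up 2, ULift.up 3}) (fun Z hZ hZne => by
    have hlinkN : ∀ c, (N c ∩ Z).Nonempty → N c ⊆ Z := by
      rintro c ⟨z, hz⟩ w hw'
      obtain ⟨hzc, hzZ⟩ := mem_inter.1 hz
      by_cases hwz : w = z
      · rw [hwz]
        exact hzZ
      · exact hZ.2 z hzZ w (mem_union_right _ (hsub c hw'))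
          (hw.adj_N (fun h4 => hwz h4.symm) hzc hw')
    -- a closed set of the new system is closed in the old one
    have hZold : Closed (gr B) (Q \ (L ∪ X)) Z := by
      rw [← hrmY]
      refine ⟨hZ.1, fun z hz w hw' hzw => ?_⟩
      obtain ⟨hne, k, hk1, hk2⟩ := hzw
      have hz' := hZ.1 hz
      have hzm : z ∈ Q ∧ z ∉ L ∧ z ∉ X := by
        rw [hrmY, mem_sdiff, mem_union, not_or] at hz'
        exact hz'
      have hwm : w ∈ Q ∧ w ∉ L ∧ w ∉ X := by
        have h4 := hw'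
        rw [hrmY, mem_sdiff, mem_union, not_or] at h4
        exact h4
      by_cases hkL : (B k ∩ L).Nonempty
      · exact absurd (hsp k hkL z hk1 w hk2 hzm.1 hwm.1 hzm.2.1 hwm.2.1) hne
      by_cases hki : k = i
      · subst hki
        have gz : z ∈ Ti := (mTi z).2 ⟨fun h4 => hzm.2.2 (by rw [h4, hX]; exact mem_insert_self _ _),
          hk1, hzm.1⟩
        have gw : w ∈ Ti := (mTi w).2 ⟨fun h4 => hwm.2.2 (by rw [h4, hX]; exact mem_insert_self _ _),
          hk2, hwm.1⟩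
        exact hlinkN (ULift.up 0) ⟨z, mem_inter.2 ⟨(mN _ _).2 (Or.inl ⟨rfl, Or.inr gz⟩), hz⟩⟩
          ((mN _ _).2 (Or.inl ⟨rfl, Or.inr gw⟩))
      by_cases hkj : k = j
      · subst hkj
        have gz : z ∈ Tj := (mTj z).2 ⟨fun h4 => hzm.2.2 ((mX z).2 (Or.inr h4)),
          hk1, hzm.1⟩
        have gw : w ∈ Tj := (mTj w).2 ⟨fun h4 => hwm.2.2 ((mX w).2 (Or.inr h4)),
          hk2, hwm.1⟩
        exact hlinkN (ULift.up 1) ⟨z, mem_inter.2 ⟨(mN _ _).2 (Or.inr (Or.inl ⟨rfl, Or.inr gz⟩)),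
          hz⟩⟩ ((mN _ _).2 (Or.inr (Or.inl ⟨rfl, Or.inr gw⟩)))
      · have hkI : k ∉ ({i, j} : Finset ι) := by
          rw [mem_insert, mem_singleton]
          exact fun h4 => h4.elim hki hkj
        refine hZ.2 z hz w hw' ⟨hne, Sum.inl k, ?_, ?_⟩
        · rw [mem_absG_inl]
          by_cases g1 : z ∈ Y
          · exact Or.inr ⟨g1, Gdl.mem_kp.2 ⟨hk1, hkL, hkI⟩⟩
          · exact Or.inl ⟨hk1, Gdl.mem_rm.2 ⟨hzm.1, hzm.2.1, hzm.2.2, g1⟩⟩
        · rw [mem_absG_inl]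
          by_cases g1 : w ∈ Y
          · exact Or.inr ⟨g1, Gdl.mem_kp.2 ⟨hk2, hkL, hkI⟩⟩
          · exact Or.inl ⟨hk2, Gdl.mem_rm.2 ⟨hwm.1, hwm.2.1, hwm.2.2, g1⟩⟩
    rcases hK Z hZold hZne with h5 | h5
    · have g1 : r ∈ N (ULift.up 2) := (mN _ _).2 (Or.inr (Or.inr (Or.inl ⟨rfl, rfl⟩)))
      exact ⟨ULift.up 2, by simp, ⟨r, g1⟩, hlinkN _ ⟨r, mem_inter.2 ⟨g1, h5⟩⟩⟩
    · have g1 : r' ∈ N (ULift.up 3) := (mN _ _).2 (Or.inr (Or.inr (Or.inr ⟨rfl, rfl⟩)))
      exact ⟨ULift.up 3, by simp, ⟨r', g1⟩, hlinkN _ ⟨r', mem_inter.2 ⟨g1, h5⟩⟩⟩)).2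
      (fun c hc => by
      rw [mem_insert, mem_singleton] at hc
      rcases hc with rfl | rfl
      · simp [hN]
      · simp [hN]) (by
      have := hv.sv1
      rw [hXc]
      push_cast
      omega) ⟨r, mem_union_right _ ((mY r).2 (by tauto))⟩ (by
      have h4 : ({ULift.up 2, ULift.up 3} : Finset (ULift.{u} (Fin 4))).card ≤ 2 := card_le_two
      omega)
  have hcI : (({i, j} : Finset ι).card : ℤ) = 2 := by
    rw [card_pair hineqj]
    norm_num
  have hck : (Fintype.card (ULift.{u} (Fin 4)) : ℤ) = 4 := by simp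
  have h4 := hv.neg
  have h5 : (0 : ℤ) ≤ ((Gdl.lost B Q L X Y {i, j} (Gdl.kp B L {i, j})).card : ℤ) := by positivity
  have h6 : (({ULift.up 2, ULift.up 3} : Finset (ULift.{u} (Fin 4))).card : ℤ) ≤ 2 := by
    exact_mod_cast card_le_two
  rw [hck, hXc, hcI] at hfin
  push_cast at hfin
  omega

/-- six contact points with one hit each, in two sets of three points. -/
structure K33 (B : ι → Finset V) (Q L S R : Finset V) (τ : V → ι) : Prop where
  LQ : L ⊆ Q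
  ne : L.Nonempty
  dvL : -1 ≤ dv B Q L
  svL : sv B L ≤ -1
  cS : S.card = 3
  cR : R.card = 3
  dSR : Disjoint S R
  SQ : ∀ z ∈ S ∪ R, z ∈ Q
  SL : ∀ z ∈ S ∪ R, z ∉ L
  one : ∀ z ∈ S ∪ R, (Ez B L z).card = 1
  all : ∀ v ∈ Q, v ∉ L → (Ez B L v).Nonempty → v ∈ S ∪ R
  sp : ∀ k, (B k ∩ L).Nonempty → ∀ u ∈ B k, ∀ w ∈ B k, u ∈ Q → w ∈ Q → u ∉ L → w ∉ L → u = w
  full : ∀ z ∈ S ∪ R, (B (τ z) ∩ Q).card = 3
  mem : ∀ z ∈ S ∪ R, z ∈ B (τ z)
  own : ∀ z ∈ S ∪ R, ∀ y ∈ B (τ z) ∩ Q, y ≠ z → Ez B L y = ∅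
  dis : ∀ z ∈ S ∪ R, ∀ w ∈ S ∪ R, z ≠ w → Disjoint (B (τ z) ∩ Q) (B (τ w) ∩ Q)
  ab : ∀ x ∈ S, ∀ y ∈ R, rho B (L ∪ {x, y}) ≤ rho B L

namespace K33

variable {Q L S R : Finset V} {τ : V → ι}

theorem symm (h : K33 B Q L S R τ) : K33 B Q L R S τ where
  LQ := h.LQ
  ne := h.ne
  dvL := h.dvL
  svL := h.svL
  cS := h.cR
  cR := h.cS
  dSR := h.dSR.symm
  SQ := by rw [union_comm]; exact h.SQ
  SL := by rw [union_comm]; exact h.SL
  one := by rw [union_comm]; exact h.one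
  all := by rw [union_comm]; exact h.all
  sp := h.sp
  full := by rw [union_comm]; exact h.full
  mem := by rw [union_comm]; exact h.mem
  own := by rw [union_comm]; exact h.own
  dis := by rw [union_comm]; exact h.dis
  ab := fun x hx y hy => by rw [pair_comm]; exact h.ab y hy x hx

/-- the main application. -/
theorem core (h : K33 B Q L S R τ) (hv : ViolR B Q) {x r y r' : V} (hx : x ∈ S) (hr : r ∈ S)
    (hxr : x ≠ r) (hy : y ∈ R) (hr' : r' ∈ R) (hyr : y ≠ r')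
    (hK : ∀ Z, Closed (gr B) (Q \ (L ∪ {x, y})) Z → Z.Nonempty → r ∈ Z ∨ r' ∈ Z) : False := by
  have e1 : ∀ {A : Finset V} {u w : V}, A.card = 3 → u ∈ A → w ∈ A → u ≠ w →
      ∃ t ∈ A, t ≠ u ∧ t ≠ w ∧ ∀ z ∈ A, z = u ∨ z = w ∨ z = t := by
    intro A u w hA hu hw huw
    have h1 := card_erase_add_one hu
    have h2 := card_erase_add_one (mem_erase.2 ⟨huw.symm, hw⟩ : w ∈ A.erase u)
    obtain ⟨t, ht⟩ := card_eq_one.1 (by omega : ((A.erase u).erase w).card = 1)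
    have h3 : t ∈ (A.erase u).erase w := by
      rw [ht]
      exact mem_singleton_self t
    obtain ⟨h4, h5⟩ := mem_erase.1 h3
    obtain ⟨h5, h6⟩ := mem_erase.1 h5
    refine ⟨t, h6, h5, h4, fun z hz => ?_⟩
    by_cases h7 : z = u
    · exact Or.inl h7
    by_cases h8 : z = w
    · exact Or.inr (Or.inl h8)
    have h9 : z ∈ (A.erase u).erase w := mem_erase.2 ⟨h8, mem_erase.2 ⟨h7, hz⟩⟩
    rw [ht, mem_singleton] at h9
    exact Or.inr (Or.inr h9)
  obtain ⟨p', hp', n1, n2, hS⟩ := e1 h.cS hx hr hxr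
  obtain ⟨q', hq', m1, m2, hR⟩ := e1 h.cR hy hr' hyr
  have iS : ∀ {z}, z ∈ S → z ∈ S ∪ R := fun hz => mem_union_left _ hz
  have iR : ∀ {z}, z ∈ R → z ∈ S ∪ R := fun hz => mem_union_right _ hz
  have sr : ∀ {u w}, u ∈ S → w ∈ R → u ≠ w := fun hu hw huw =>
    disjoint_left.1 h.dSR hu (huw ▸ hw)
  refine hv.k2c h.LQ h.ne h.dvL h.svL (p := x) (q := y) (p' := p') (q' := q') (r := r) (r' := r')
    (h.full x (iS hx)) (h.full y (iR hy)) (mem_inter.2 ⟨h.mem x (iS hx), h.SQ x (iS hx)⟩)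
    (mem_inter.2 ⟨h.mem y (iR hy), h.SQ y (iR hy)⟩) (h.dis x (iS hx) y (iR hy) (sr hx hy))
    (h.own x (iS hx)) (h.own y (iR hy)) (h.SL x (iS hx)) (h.SL y (iR hy)) (h.SQ p' (iS hp'))
    (h.SQ q' (iR hq')) (h.SQ r (iS hr)) (h.SQ r' (iR hr')) (h.SL p' (iS hp'))
    (h.SL q' (iR hq')) (h.SL r (iS hr)) (h.SL r' (iR hr')) (h.one p' (iS hp'))
    (h.one q' (iR hq')) (h.one r (iS hr)) (h.one r' (iR hr')) n1.symm (sr hx hq') hxr
    (sr hx hr') (sr hp' hy).symm m1.symm (sr hr hy).symm hyr (sr hp' hq') n2 (sr hp' hr')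
    (sr hr hq').symm m2 (sr hr hr') (fun v hvQ hvL hvE => ?_) h.sp (h.ab x hx y hy)
    (by rw [pair_comm]; exact h.ab p' hp' y hy) (h.ab x hx q' hq') (h.ab p' hp' q' hq') hK
  rcases mem_union.1 (h.all v hvQ hvL hvE) with h1 | h1
  · rcases hS v h1 with h2 | h2 | h2
    · exact Or.inl h2
    · exact Or.inr (Or.inr (Or.inr (Or.inr (Or.inl h2))))
    · exact Or.inr (Or.inr (Or.inl h2))
  · rcases hR v h1 with h2 | h2 | h2
    · exact Or.inr (Or.inl h2)
    · exact Or.inr (Or.inr (Or.inr (Or.inr (Or.inr h2))))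
    · exact Or.inr (Or.inr (Or.inr (Or.inl h2)))

/-- a point of the triple of a contact point. -/
theorem mate (h : K33 B Q L S R τ) {z : V} (hz : z ∈ S ∪ R) :
    ∃ t ∈ Q, t ≠ z ∧ t ∉ L ∧ t ∉ S ∪ R ∧ (gr B).Adj z t := by
  have h1 := h.full z hz
  obtain ⟨t, ht, htz⟩ := exists_mem_ne (by omega : 1 < (B (τ z) ∩ Q).card) z
  obtain ⟨ht1, ht2⟩ := mem_inter.1 ht
  have h2 := h.own z hz t ht htz
  have h3 : t ∉ S ∪ R := by
    intro h4
    have h5 := h.one t h4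
    rw [h2, card_empty] at h5
    omega
  refine ⟨t, ht2, htz, fun htL => ?_, h3, fun h4 => htz h4.symm, τ z, h.mem z hz, ht1⟩
  -- `t ∈ L`: the block of `z` meets `L` in `t`
  have h4 : τ z ∈ Ez B L t := mem_Ez.2 ⟨ht1, t, mem_inter.2 ⟨ht1, htL⟩⟩
  rw [h2] at h4
  exact notMem_empty _ h4

/-- a point which is no contact point is adjacent to no point of `L`. -/
theorem no_adj (h : K33 B Q L S R τ) {z l : V} (hz : z ∈ Q) (hzL : z ∉ L) (hzC : z ∉ S ∪ R)
    (hl : l ∈ L) : ¬ (gr B).Adj z l := by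
  rintro ⟨_, k, hk1, hk2⟩
  exact hzC (h.all z hz hzL ⟨k, mem_Ez.2 ⟨hk1, l, mem_inter.2 ⟨hk2, hl⟩⟩⟩)

/-- **the second pair**: two closed sets with one contact point each. -/
theorem step (h : K33 B Q L S R τ) (hv : ViolR B Q) {x0 y0 z1 z2 : V} (hx0 : x0 ∈ S)
    (hy0 : y0 ∈ R) (hz1 : z1 ∈ S) (hz1x : z1 ≠ x0) (hz2 : z2 ∈ S ∪ R) {D1 D2 : Finset V}
    (hD1 : Closed (gr B) (Q \ (L ∪ {x0, y0})) D1) (hD2 : Closed (gr B) (Q \ (L ∪ {x0, y0})) D2)
    (hdis : Disjoint D1 D2) (h11 : z1 ∈ D1) (h12 : ∀ w ∈ S ∪ R, w ∈ D1 → w = z1)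
    (h21 : z2 ∈ D2) (h22 : ∀ w ∈ S ∪ R, w ∈ D2 → w = z2) : False := by
  classical
  have iS : ∀ {z}, z ∈ S → z ∈ S ∪ R := fun hz => mem_union_left _ hz
  have iR : ∀ {z}, z ∈ R → z ∈ S ∪ R := fun hz => mem_union_right _ hz
  have sr : ∀ {u w}, u ∈ S → w ∈ R → u ≠ w := fun hu hw huw =>
    disjoint_left.1 h.dSR hu (huw ▸ hw)
  have hz12 : z1 ≠ z2 := fun h1 => disjoint_left.1 hdis h11 (h1 ▸ h21)
  have mA : ∀ {x y z : V}, z ∈ Q \ (L ∪ {x, y}) ↔ z ∈ Q ∧ z ∉ L ∧ z ≠ x ∧ z ≠ y := by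
    intro x y z
    rw [mem_sdiff, mem_union, mem_insert, mem_singleton, not_or, not_or]
  have hz2A := mA.1 (hD2.1 h21)
  -- the second small block
  obtain ⟨r', hr', hr'y, hr'z⟩ : ∃ r' ∈ R, r' ≠ y0 ∧ r' ≠ z2 := by
    have h1 := card_erase_add_one hy0
    have h2 := h.cR
    obtain ⟨t, ht, htz⟩ := exists_mem_ne (by omega : 1 < (R.erase y0).card) z2
    obtain ⟨h3, h4⟩ := mem_erase.1 ht
    exact ⟨t, h4, h3, htz⟩
  -- the remaining contact point
  obtain ⟨u, hu, hcu⟩ : ∃ u ∈ S ∪ R, ∀ w ∈ S ∪ R, w ≠ x0 → w ≠ y0 → w ≠ z1 → w ≠ z2 → w ≠ r' →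
      w = u := by
    set W := (((((S ∪ R).erase x0).erase y0).erase z1).erase z2).erase r' with hW
    have c0 : (S ∪ R).card = 6 := by
      rw [card_union_of_disjoint h.dSR, h.cS, h.cR]
    have c1 := card_erase_add_one (iS hx0)
    have c2 := card_erase_add_one (mem_erase.2 ⟨(sr hx0 hy0).symm, iR hy0⟩ :
      y0 ∈ (S ∪ R).erase x0)
    have c3 := card_erase_add_one (mem_erase.2 ⟨sr hz1 hy0, mem_erase.2 ⟨hz1x, iS hz1⟩⟩ :
      z1 ∈ ((S ∪ R).erase x0).erase y0)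
    have c4 := card_erase_add_one (mem_erase.2 ⟨hz12.symm, mem_erase.2 ⟨hz2A.2.2.2,
      mem_erase.2 ⟨hz2A.2.2.1, hz2⟩⟩⟩ : z2 ∈ (((S ∪ R).erase x0).erase y0).erase z1)
    have c5 := card_erase_add_one (mem_erase.2 ⟨hr'z, mem_erase.2 ⟨(sr hz1 hr').symm,
      mem_erase.2 ⟨hr'y, mem_erase.2 ⟨(sr hx0 hr').symm, iR hr'⟩⟩⟩⟩ :
      r' ∈ ((((S ∪ R).erase x0).erase y0).erase z1).erase z2)
    have c6 : W.card = 1 := by
      rw [hW]
      omega
    obtain ⟨u, hu⟩ := card_eq_one.1 c6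
    have h1 : u ∈ W := by
      rw [hu]
      exact mem_singleton_self u
    refine ⟨u, mem_of_mem_erase (mem_of_mem_erase (mem_of_mem_erase (mem_of_mem_erase
      (mem_of_mem_erase h1)))), fun w hw w1 w2 w3 w4 w5 => ?_⟩
    have h2 : w ∈ W := mem_erase.2 ⟨w5, mem_erase.2 ⟨w4, mem_erase.2 ⟨w3, mem_erase.2 ⟨w2,
      mem_erase.2 ⟨w1, hw⟩⟩⟩⟩⟩
    rw [hu, mem_singleton] at h2
    exact h2
  refine h.core hv (x := z1) (r := x0) (y := y0) (r' := r') hz1 hx0 hz1x hy0 hr' hr'y.symm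
    (fun Z hZ hZne => ?_)
  by_contra hcon
  rw [not_or] at hcon
  obtain ⟨hx0Z, hr'Z⟩ := hcon
  -- a point of `Z` is not adjacent to `x0`
  have hZm : ∀ z ∈ Z, z ∈ Q ∧ z ∉ L ∧ z ≠ z1 ∧ z ≠ y0 := fun z hz => mA.1 (hZ.1 hz)
  have hadj0 : ∀ z ∈ Z, ¬ (gr B).Adj z x0 := fun z hz hzx =>
    hx0Z (hZ.2 z hz x0 (mA.2 ⟨h.SQ x0 (iS hx0), h.SL x0 (iS hx0), hz1x.symm, sr hx0 hy0⟩) hzx)
  -- the general closing argument
  have key : ∀ w W, w ∈ Q → w ≠ y0 → w ≠ x0 → W ⊆ Z → w ∉ W → (∀ z ∈ W, z ∉ S ∪ R) →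
      (∀ z ∈ W, ∀ t ∈ Q, t ∉ L → t ≠ w → t ≠ y0 → t ≠ x0 → (gr B).Adj z t → t ∈ W) → W = ∅ := by
    intro w W hwQ hwy hwx hWZ hwW hWC hcl
    by_contra hne
    have hXQ : ({w, y0} : Finset V) ⊆ Q := by
      intro z hz
      rw [mem_insert, mem_singleton] at hz
      rcases hz with rfl | rfl
      · exact hwQ
      · exact h.SQ _ (iR hy0)
    have h1 := hv.conn_sdiff hXQ card_le_two
    have h2 : Closed (gr B) (Q \ {w, y0}) W := by
      refine ⟨fun z hz => mem_sdiff.2 ⟨(hZm z (hWZ hz)).1, fun h3 => ?_⟩,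
        fun z hz t ht hzt => ?_⟩
      · rw [mem_insert, mem_singleton] at h3
        rcases h3 with h3 | h3
        · exact hwW (h3 ▸ hz)
        · exact (hZm z (hWZ hz)).2.2.2 h3
      · obtain ⟨htQ, ht2⟩ := mem_sdiff.1 ht
        rw [mem_insert, mem_singleton, not_or] at ht2
        by_cases htL : t ∈ L
        · exact absurd hzt (h.no_adj (hZm z (hWZ hz)).1 (hZm z (hWZ hz)).2.1 (hWC z hz) htL)
        by_cases htx : t = x0
        · exact absurd (htx ▸ hzt) (hadj0 z (hWZ hz))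
        · exact hcl z hz t htQ htL ht2.1 ht2.2 htx hzt
    have h3 := h1.2 W h2 (nonempty_iff_ne_empty.2 hne)
    have h4 : x0 ∈ Q \ {w, y0} := by
      refine mem_sdiff.2 ⟨h.SQ x0 (iS hx0), fun h5 => ?_⟩
      rw [mem_insert, mem_singleton] at h5
      rcases h5 with h5 | h5
      · exact hwx h5.symm
      · exact sr hx0 hy0 h5
    rw [← h3] at h4
    exact hx0Z (hWZ h4)
  -- `Z` does not meet `D1`
  have hZD1 : ∀ z ∈ Z, z ∉ D1 := by
    have h1 := key z1 (Z ∩ D1) (h.SQ z1 (iS hz1)) (sr hz1 hy0) hz1x inter_subset_left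
      (fun h2 => (hZm z1 (mem_inter.1 h2).1).2.2.1 rfl)
      (fun z hz hzC => (hZm z (mem_inter.1 hz).1).2.2.1 (h12 z hzC (mem_inter.1 hz).2))
      (fun z hz t htQ htL htw hty htx hzt => by
        obtain ⟨hzZ, hzD⟩ := mem_inter.1 hz
        exact mem_inter.2 ⟨hZ.2 z hzZ t (mA.2 ⟨htQ, htL, htw, hty⟩) hzt,
          hD1.2 z hzD t (mA.2 ⟨htQ, htL, htx, hty⟩) hzt⟩)
    intro z hz hzD
    have h2 : z ∈ Z ∩ D1 := mem_inter.2 ⟨hz, hzD⟩
    rw [h1] at h2
    exact notMem_empty _ h2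
  -- a point of `Z` is not adjacent to `z1`
  have hadj1 : ∀ z ∈ Z, z ∉ D1 → ¬ (gr B).Adj z z1 := by
    intro z hz hzD hzz
    have h1 := hZm z hz
    exact hzD (hD1.2 z1 h11 z (mA.2 ⟨h1.1, h1.2.1, fun h2 => hx0Z (h2 ▸ hz), h1.2.2.2⟩)
      ⟨hzz.1.symm, hzz.2.imp fun k hk => hk.symm⟩)
  -- `Z` does not meet `D2`
  have hZD2 : ∀ z ∈ Z, z ∉ D2 := by
    have h1 := key z2 ((Z ∩ D2).erase z2) hz2A.1 hz2A.2.2.2 hz2A.2.2.1
      ((erase_subset _ _).trans inter_subset_left) (notMem_erase _ _)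
      (fun z hz hzC => (mem_erase.1 hz).1 (h22 z hzC (mem_inter.1 (mem_erase.1 hz).2).2))
      (fun z hz t htQ htL htw hty htx hzt => by
        obtain ⟨hz2', hz3⟩ := mem_erase.1 hz
        obtain ⟨hzZ, hzD⟩ := mem_inter.1 hz3
        have htD : t ∈ D2 := hD2.2 z hzD t (mA.2 ⟨htQ, htL, htx, hty⟩) hzt
        have ht1 : t ≠ z1 := fun h2 => disjoint_left.1 hdis h11 (h2 ▸ htD)
        exact mem_erase.2 ⟨htw, mem_inter.2 ⟨hZ.2 z hzZ t (mA.2 ⟨htQ, htL, ht1, hty⟩) hzt,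
          htD⟩⟩)
    have h2 : z2 ∉ Z := by
      intro h3
      obtain ⟨t, htQ, htz, htL, htC, hadj⟩ := h.mate hz2
      have htx : t ≠ x0 := fun h4 => htC (h4 ▸ iS hx0)
      have hty : t ≠ y0 := fun h4 => htC (h4 ▸ iR hy0)
      have ht1 : t ≠ z1 := fun h4 => htC (h4 ▸ iS hz1)
      have h4 : t ∈ (Z ∩ D2).erase z2 := mem_erase.2 ⟨htz, mem_inter.2
        ⟨hZ.2 z2 h3 t (mA.2 ⟨htQ, htL, ht1, hty⟩) hadj,
          hD2.2 z2 h21 t (mA.2 ⟨htQ, htL, htx, hty⟩) hadj⟩⟩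
      rw [h1] at h4
      exact notMem_empty _ h4
    intro z hz hzD
    have h3 : z ∈ (Z ∩ D2).erase z2 := mem_erase.2 ⟨fun h4 => h2 (h4 ▸ hz),
      mem_inter.2 ⟨hz, hzD⟩⟩
    rw [h1] at h3
    exact notMem_empty _ h3
  -- only the contact point `u` is possible
  have hZu : ∀ w ∈ S ∪ R, w ∈ Z → w = u := fun w hw hwZ =>
    hcu w hw (fun h1 => hx0Z (h1 ▸ hwZ)) (hZm w hwZ).2.2.2 (hZm w hwZ).2.2.1
      (fun h1 => hZD2 w hwZ (h1 ▸ h21)) (fun h1 => hr'Z (h1 ▸ hwZ))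
  have hne : ∀ z ∈ Z, z ≠ u := by
    rintro z hz rfl
    have hux : z ≠ x0 := fun h1 => hx0Z (h1 ▸ hz)
    have h1 := key z (Z.erase z) (hZm z hz).1 (hZm z hz).2.2.2 hux (erase_subset _ _)
      (notMem_erase _ _) (fun t ht htC => (mem_erase.1 ht).1 (hZu t htC (mem_erase.1 ht).2))
      (fun t ht t' ht'Q ht'L ht'w ht'y ht'x htt => by
        obtain ⟨h2, h3⟩ := mem_erase.1 ht
        have h4 : t' ≠ z1 := fun h5 => hadj1 t h3 (hZD1 t h3) (h5 ▸ htt)
        exact mem_erase.2 ⟨ht'w, hZ.2 t h3 t' (mA.2 ⟨ht'Q, ht'L, h4, ht'y⟩) htt⟩)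
    obtain ⟨t, htQ, htz, htL, htC, hadj⟩ := h.mate hu
    have hty : t ≠ y0 := fun h4 => htC (h4 ▸ iR hy0)
    have ht1 : t ≠ z1 := fun h4 => htC (h4 ▸ iS hz1)
    have h4 : t ∈ Z.erase z := mem_erase.2 ⟨htz, hZ.2 z hz t (mA.2 ⟨htQ, htL, ht1, hty⟩) hadj⟩
    rw [h1] at h4
    exact notMem_empty _ h4
  have hZC : ∀ z ∈ Z, z ∉ S ∪ R := fun z hz hzC => hne z hz (hZu z hzC hz)
  obtain ⟨z, hz⟩ := hZne
  have hux : u ≠ x0 ∨ u = x0 := ne_or_eq _ _
  have h1 : Z = ∅ := by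
    refine key z1 Z (h.SQ z1 (iS hz1)) (sr hz1 hy0) hz1x (Subset.refl _)
      (fun h2 => (hZm z1 h2).2.2.1 rfl) hZC (fun t ht t' ht'Q ht'L ht'w ht'y ht'x htt => ?_)
    exact hZ.2 t ht t' (mA.2 ⟨ht'Q, ht'L, ht'w, ht'y⟩) htt
  rw [h1] at hz
  exact notMem_empty _ hz

/-- **no six contact points with one hit each** in two sets of three points such that `L` absorbs every
pair of points of different sets. -/
theorem false (h : K33 B Q L S R τ) (hv : ViolR B Q) : False := by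
  classical
  have iS : ∀ {z}, z ∈ S → z ∈ S ∪ R := fun hz => mem_union_left _ hz
  have iR : ∀ {z}, z ∈ R → z ∈ S ∪ R := fun hz => mem_union_right _ hz
  have sr : ∀ {u w}, u ∈ S → w ∈ R → u ≠ w := fun hu hw huw =>
    disjoint_left.1 h.dSR hu (huw ▸ hw)
  obtain ⟨x0, hx0⟩ := card_pos.1 (by have := h.cS; omega : 0 < S.card)
  obtain ⟨y0, hy0⟩ := card_pos.1 (by have := h.cR; omega : 0 < R.card)
  have mA : ∀ {z : V}, z ∈ Q \ (L ∪ {x0, y0}) ↔ z ∈ Q ∧ z ∉ L ∧ z ≠ x0 ∧ z ≠ y0 := by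
    intro z
    rw [mem_sdiff, mem_union, mem_insert, mem_singleton, not_or, not_or]
  obtain ⟨Ks, hK1, hK2, hK3⟩ := exists_parts B (Q \ (L ∪ {x0, y0}))
  set W := S.erase x0 ∪ R.erase y0 with hW
  have mW : ∀ z, z ∈ W ↔ z ∈ S ∪ R ∧ z ≠ x0 ∧ z ≠ y0 := by
    intro z
    rw [hW, mem_union, mem_erase, mem_erase, mem_union]
    constructor
    · rintro (⟨h1, h2⟩ | ⟨h1, h2⟩)
      · exact ⟨Or.inl h2, h1, sr h2 hy0⟩
      · exact ⟨Or.inr h2, (sr hx0 h2).symm, h1⟩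
    · rintro ⟨h1 | h1, h2, h3⟩
      · exact Or.inl ⟨h2, h1⟩
      · exact Or.inr ⟨h3, h1⟩
  have cW : W.card = 4 := by
    have h1 := card_erase_add_one hx0
    have h2 := card_erase_add_one hy0
    have h3 := h.cS
    have h4 := h.cR
    rw [hW, card_union_of_disjoint (h.dSR.mono (erase_subset _ _) (erase_subset _ _))]
    omega
  have inW : ∀ z ∈ W, ∃ D ∈ Ks, z ∈ D := by
    intro z hz
    obtain ⟨h1, h2, h3⟩ := (mW z).1 hz
    have h4 : z ∈ Q \ (L ∪ {x0, y0}) := mA.2 ⟨h.SQ z h1, h.SL z h1, h2, h3⟩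
    rw [← hK3] at h4
    obtain ⟨D, hD, hzD⟩ := mem_biUnion.1 h4
    exact ⟨D, hD, hzD⟩
  have uniq : ∀ D ∈ Ks, ∀ D' ∈ Ks, ∀ z, z ∈ D → z ∈ D' → D = D' := by
    intro D hD D' hD' z hz hz'
    by_contra hne
    exact disjoint_left.1 (hK2 D hD D' hD' hne).1 hz hz'
  -- every part has a contact point
  have hmeet : ∀ D ∈ Ks, ∃ z ∈ W, z ∈ D := by
    intro D hD
    obtain ⟨hD1, hD2, hD3⟩ := hK1 D hD
    by_contra hcon
    push Not at hcon
    have hXQ : ({x0, y0} : Finset V) ⊆ Q := by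
      intro z hz
      rw [mem_insert, mem_singleton] at hz
      rcases hz with rfl | rfl
      · exact h.SQ _ (iS hx0)
      · exact h.SQ _ (iR hy0)
    have h1 := hv.conn_sdiff hXQ card_le_two
    have h2 : Closed (gr B) (Q \ {x0, y0}) D := by
      refine ⟨fun z hz => ?_, fun z hz t ht hzt => ?_⟩
      · obtain ⟨g1, _, g2, g3⟩ := mA.1 (hD1 hz)
        refine mem_sdiff.2 ⟨g1, fun g4 => ?_⟩
        rw [mem_insert, mem_singleton] at g4
        exact g4.elim g2 g3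
      · obtain ⟨g1, _, g2, g3⟩ := mA.1 (hD1 hz)
        obtain ⟨htQ, ht2⟩ := mem_sdiff.1 ht
        rw [mem_insert, mem_singleton, not_or] at ht2
        by_cases htL : t ∈ L
        · refine absurd hzt (h.no_adj g1 (mA.1 (hD1 hz)).2.1 (fun g4 => ?_) htL)
          exact hcon z ((mW z).2 ⟨g4, g2, g3⟩) hz
        · exact hD2.2 z hz t (mA.2 ⟨htQ, htL, ht2.1, ht2.2⟩) hzt
    have h3 := h1.2 D h2 hD3.1
    obtain ⟨l, hl⟩ := h.ne
    have h4 : l ∈ Q \ {x0, y0} := by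
      refine mem_sdiff.2 ⟨h.LQ hl, fun h5 => ?_⟩
      rw [mem_insert, mem_singleton] at h5
      rcases h5 with rfl | rfl
      · exact h.SL _ (iS hx0) hl
      · exact h.SL _ (iR hy0) hl
    rw [← h3] at h4
    exact (mA.1 (hD1 h4)).2.1 hl
  -- a closed set contains a part
  have hpart : ∀ Z, Closed (gr B) (Q \ (L ∪ {x0, y0})) Z → Z.Nonempty → ∃ D ∈ Ks, D ⊆ Z := by
    rintro Z hZ ⟨z, hz⟩
    have h1 := hZ.1 hz
    rw [← hK3] at h1
    obtain ⟨D, hD, hzD⟩ := mem_biUnion.1 h1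
    simp only [id] at hzD
    obtain ⟨hD1, hD2, hD3⟩ := hK1 D hD
    have h2 : Closed (gr B) D (Z ∩ D) := by
      refine ⟨inter_subset_right, fun u hu w hw huw => ?_⟩
      exact mem_inter.2 ⟨hZ.2 u (mem_inter.1 hu).1 w (hD1 hw) huw, hw⟩
    have h3 := hD3.2 (Z ∩ D) h2 ⟨z, mem_inter.2 ⟨hz, hzD⟩⟩
    exact ⟨D, hD, by rw [← h3]; exact inter_subset_left⟩
  -- no pair meets all parts
  have hmiss : ∀ r ∈ S.erase x0, ∀ r' ∈ R.erase y0, ∃ D ∈ Ks, r ∉ D ∧ r' ∉ D := by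
    intro r hr r' hr'
    obtain ⟨hr1, hr2⟩ := mem_erase.1 hr
    obtain ⟨hr1', hr2'⟩ := mem_erase.1 hr'
    by_contra hcon
    push Not at hcon
    refine h.core hv hx0 hr2 hr1.symm hy0 hr2' hr1'.symm (fun Z hZ hZne => ?_)
    obtain ⟨D, hD, hDZ⟩ := hpart Z hZ hZne
    by_cases h1 : r ∈ D
    · exact Or.inl (hDZ h1)
    · exact Or.inr (hDZ (hcon D hD h1))
  have pS : ∃ r, r ∈ S.erase x0 := by
    have h1 := card_erase_add_one hx0
    have h2 := h.cS
    obtain ⟨r, hr⟩ := card_pos.1 (by omega : 0 < (S.erase x0).card)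
    exact ⟨r, hr⟩
  have pR : ∃ r, r ∈ R.erase y0 := by
    have h1 := card_erase_add_one hy0
    have h2 := h.cR
    obtain ⟨r, hr⟩ := card_pos.1 (by omega : 0 < (R.erase y0).card)
    exact ⟨r, hr⟩
  -- at least three parts
  have hc3 : 3 ≤ Ks.card := by
    by_contra hcon
    have hsame : ∀ r ∈ S.erase x0, ∀ r' ∈ R.erase y0, ∀ D ∈ Ks, r ∈ D → r' ∈ D := by
      intro r hr r' hr' D hD hrD
      obtain ⟨D', hD', hr'D'⟩ := inW r' (mem_union_right _ hr')
      obtain ⟨E, hE, h1, h2⟩ := hmiss r hr r' hr'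
      by_contra h3
      have h4 : D ≠ D' := fun h5 => h3 (h5 ▸ hr'D')
      have h5 : E ≠ D := fun h6 => h1 (h6 ▸ hrD)
      have h6 : E ≠ D' := fun h7 => h2 (h7 ▸ hr'D')
      have h7 : ({E, D, D'} : Finset (Finset V)) ⊆ Ks := by
        intro G hG
        simp only [mem_insert, mem_singleton] at hG
        rcases hG with rfl | rfl | rfl <;> assumption
      have h8 := card_le_card h7
      rw [card_eq_three.2 ⟨E, D, D', h5, h6, h4, rfl⟩] at h8
      omega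
    obtain ⟨r, hr⟩ := pS
    obtain ⟨r', hr'⟩ := pR
    obtain ⟨D, hD, hrD⟩ := inW r (mem_union_left _ hr)
    obtain ⟨E, hE, h1, h2⟩ := hmiss r hr r' hr'
    obtain ⟨z, hz, hzE⟩ := hmeet E hE
    rcases mem_union.1 hz with h3 | h3
    · exact h2 (hsame z h3 r' hr' E hE hzE)
    · have h4 := hsame r hr z h3 D hD hrD
      rw [uniq E hE D hD z hzE h4] at h1
      exact h1 hrD
  -- two parts with one contact point
  set K1 := Ks.filter (fun D => (W ∩ D).card = 1) with hK1d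
  have hsum : ∑ D ∈ Ks, (W ∩ D).card ≤ 4 := by
    rw [← cW, ← card_biUnion (fun D hD D' hD' hne => (hK2 D hD D' hD' hne).1.mono
      inter_subset_right inter_subset_right)]
    exact card_le_card (biUnion_subset.2 fun D _ => inter_subset_left)
  have hK1c : 2 ≤ K1.card := by
    have h1 : ∑ D ∈ Ks, (2 - (if (W ∩ D).card = 1 then 1 else 0 : ℤ)) ≤
        ∑ D ∈ Ks, ((W ∩ D).card : ℤ) := by
      refine sum_le_sum fun D hD => ?_
      obtain ⟨z, hz, hzD⟩ := hmeet D hD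
      have h2 : 0 < (W ∩ D).card := card_pos.2 ⟨z, mem_inter.2 ⟨hz, hzD⟩⟩
      split_ifs with h3
      · rw [h3]
        norm_num
      · have : 2 ≤ (W ∩ D).card := by omega
        have h4 : (2 : ℤ) ≤ (W ∩ D).card := by exact_mod_cast this
        linarith
    rw [sum_sub_distrib, sum_const, sum_boole, nsmul_eq_mul] at h1
    have h2 : ∑ D ∈ Ks, ((W ∩ D).card : ℤ) ≤ 4 := by exact_mod_cast hsum
    rw [← hK1d] at h1
    have h3 : (3 : ℤ) ≤ Ks.card := by exact_mod_cast hc3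
    have h4 : (2 : ℤ) ≤ K1.card := by linarith
    exact_mod_cast h4
  obtain ⟨D1, D2, hD1, hD2, hne⟩ := one_lt_card_iff.1 (by omega : 1 < K1.card)
  obtain ⟨hD1K, c1⟩ := mem_filter.1 hD1
  obtain ⟨hD2K, c2⟩ := mem_filter.1 hD2
  obtain ⟨z1, hz1⟩ := card_eq_one.1 c1
  obtain ⟨z2, hz2⟩ := card_eq_one.1 c2
  obtain ⟨hz1W, hz1D⟩ := mem_inter.1 (by rw [hz1]; exact mem_singleton_self z1 : z1 ∈ W ∩ D1)
  obtain ⟨hz2W, hz2D⟩ := mem_inter.1 (by rw [hz2]; exact mem_singleton_self z2 : z2 ∈ W ∩ D2)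
  have g1 : ∀ w ∈ S ∪ R, w ∈ D1 → w = z1 := by
    intro w hw hwD
    have h2 := mA.1 ((hK1 D1 hD1K).1 hwD)
    have h1 : w ∈ W ∩ D1 := mem_inter.2 ⟨(mW w).2 ⟨hw, h2.2.2⟩, hwD⟩
    rwa [hz1, mem_singleton] at h1
  have g2 : ∀ w ∈ S ∪ R, w ∈ D2 → w = z2 := by
    intro w hw hwD
    have h2 := mA.1 ((hK1 D2 hD2K).1 hwD)
    have h1 : w ∈ W ∩ D2 := mem_inter.2 ⟨(mW w).2 ⟨hw, h2.2.2⟩, hwD⟩
    rwa [hz2, mem_singleton] at h1
  have hdis := (hK2 D1 hD1K D2 hD2K hne).1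
  have c12 := hK1 D1 hD1K
  have c22 := hK1 D2 hD2K
  obtain ⟨hz1S, hz1x, hz1y⟩ := (mW z1).1 hz1W
  obtain ⟨hz2S, _, _⟩ := (mW z2).1 hz2W
  rcases mem_union.1 hz1S with h1 | h1
  · exact h.step hv hx0 hy0 h1 hz1x hz2S c12.2.1 c22.2.1 hdis hz1D g1 hz2D g2
  · have e1 : ({x0, y0} : Finset V) = {y0, x0} := pair_comm _ _
    have e2 : S ∪ R = R ∪ S := union_comm _ _
    rw [e1] at c12 c22
    rw [e2] at g1 g2 hz2S
    exact h.symm.step hv hy0 hx0 h1 hz1y hz2S c12.2.1 c22.2.1 hdis hz1D g1 hz2D g2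

end K33

end Pool.Agent.Hyp6
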