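import Pool.Agent.Hyp6.L3Rs1
import Pool.Agent.Hyp6.L3T2

/-!
# HYP6 L3Rs2: deletion of one point of a leaf with two full blocks

Rule R2: the point `x` is deleted and absorbs `p` and `v`, with the full blocks of `v` and of `p`.
-/

set_option autoImplicit false

namespace Pool.Agent.Hyp6

open Finset Pool.Agent.Hyp5

universe u v

variable {V : Type v} [DecidableEq V] {ι : Type u} [Fintype ι] {B : ι → Finset V}

/-- **the numbers of a point without double single**. -/
theorem ViolR.dv_point {Q : Finset V} (hv : ViolR B Q) {x : V} (hx : x ∈ Q)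
    (he : ee B Q {x} = 0) : dv B Q {x} = 1 ∧ rho B ({x} : Finset V) = 1 := by
  classical
  have hcov := hv.cov
  have h0 : (univ.filter (fun k => x ∈ B k)).card = 5 := hv.reg x hx
  obtain ⟨i, hi⟩ := card_pos.1 (by omega : 0 < (univ.filter (fun k => x ∈ B k)).card)
  have h3 : rho B ({x} : Finset V) = 1 := by
    refine le_antisymm (rho_le_one (i := i) (singleton_subset_iff.2 (mem_filter.1 hi).2)) ?_
    by_contra hcon
    have h1 : rho B ({x} : Finset V) = 0 := by omega
    obtain ⟨S, hS1, hS2⟩ := exists_cover (B := B) (W := {x})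
      (hcov.mono (singleton_subset_iff.2 hx))
    rw [h1] at hS2
    rw [card_eq_zero.1 hS2, biUnion_empty] at hS1
    exact notMem_empty _ (hS1 (mem_singleton_self x))
  refine ⟨?_, h3⟩
  have h1 := Pv_eq (B := B) ({x} : Finset V)
  have h2 : cm B ({x} : Finset V) = 5 := by
    unfold Hyp6.cm
    rw [← h0]
    congr 1
    ext j
    rw [cost_mem_tch, mem_filter]
    constructor
    · rintro ⟨z, hz⟩
      obtain ⟨h4, h5⟩ := mem_inter.1 hz
      rw [mem_singleton.1 h5] at h4
      exact ⟨mem_univ _, h4⟩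
    · rintro ⟨_, h4⟩
      exact ⟨x, mem_inter.2 ⟨h4, mem_singleton_self x⟩⟩
  rw [h2, h3, card_singleton] at h1
  unfold dv
  rw [h1, he]
  norm_num

/-- **rule R2**: the point `x` with its blocks `{x, p, v}`, `k` (with `x`, `p`) and three blocks `{x, m}`;
the block `w` is `{p, b, c}`; the blocks `w0`, `w1` contain `m`, `p`, `b` and `m`, `p`, `c`; the full
block `t` of `v` meets neither `x`, `p`, `m`, `b`, `c` nor (outside `v`) the block `k`. -/
theorem ViolR.r2 {Q : Finset V} (hv : ViolR B Q) {x p v m b c : V} {i k j0 j1 j2 t w w0 w1 : ι}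
    (hxQ : x ∈ Q) (hpQ : p ∈ Q) (hvQ : v ∈ Q) (hmQ : m ∈ Q) (hbQ : b ∈ Q) (hcQ : c ∈ Q)
    (hxp : x ≠ p) (hxv : x ≠ v)
    (hpv : p ≠ v) (hmx : m ≠ x) (hmp : m ≠ p) (hmv : m ≠ v) (hbx : b ≠ x) (hbp : b ≠ p)
    (hbv : b ≠ v) (hbm : b ≠ m) (hcx : c ≠ x) (hcp : c ≠ p) (hcv : c ≠ v) (hcm : c ≠ m)
    (hbc : b ≠ c) (hex : ee B Q {x} = 0)
    (hix : x ∈ B i) (hip : p ∈ B i) (hiv : v ∈ B i) (hkx : x ∈ B k) (hkp : p ∈ B k)
    (hkm : m ∉ B k) (hkb : b ∉ B k) (hkc : c ∉ B k)
    (h0 : B j0 ∩ Q = {x, m}) (h1 : B j1 ∩ Q = {x, m}) (h2 : B j2 ∩ Q = {x, m})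
    (h01 : j0 ≠ j1) (h02 : j0 ≠ j2) (h12 : j1 ≠ j2)
    (hall : ∀ j, x ∈ B j → j = j0 ∨ j = j1 ∨ j = j2 ∨ j = k ∨ B j ∩ Q ⊆ {x, p, v})
    (ht : (B t ∩ Q).card = 3) (htv : v ∈ B t) (htx : x ∉ B t) (htp : p ∉ B t)
    (htm : m ∉ B t) (htb : b ∉ B t) (htc : c ∉ B t)
    (hsep : ∀ s ∈ B t ∩ Q, s ≠ v → s ∉ B k)
    (hw : B w ∩ Q = {p, b, c})
    (hw0m : m ∈ B w0) (hw0b : b ∈ B w0)
    (hw1m : m ∈ B w1) (hw1c : c ∈ B w1) : False := by
  classical
  set D : Finset V := {x, p, v} with hD
  have mD : ∀ z, z ∈ D ↔ z = x ∨ z = p ∨ z = v := fun z => by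
    rw [hD, mem_insert, mem_insert, mem_singleton]
  have hDQ : D ⊆ Q := by
    intro z hz
    rcases (mD z).1 hz with rfl | rfl | rfl <;> assumption
  have hDi : D ⊆ B i := by
    intro z hz
    rcases (mD z).1 hz with rfl | rfl | rfl <;> assumption
  have mw : ∀ z, z ∈ B w → z ∈ Q → z = p ∨ z = b ∨ z = c := by
    intro z hz hzQ
    have h : z ∈ B w ∩ Q := mem_inter.2 ⟨hz, hzQ⟩
    rw [hw, mem_insert, mem_insert, mem_singleton] at h
    exact h
  have mw' : ∀ z, z = p ∨ z = b ∨ z = c → z ∈ B w := by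
    intro z hz
    have h : z ∈ B w ∩ Q := by
      rw [hw, mem_insert, mem_insert, mem_singleton]
      exact hz
    exact (mem_inter.1 h).1
  have mj : ∀ {j}, B j ∩ Q = {x, m} → ∀ z, z ∈ Q → (z ∈ B j ↔ z = x ∨ z = m) := by
    intro j hj z hzQ
    have h : z ∈ B j ∩ Q ↔ z = x ∨ z = m := by rw [hj, mem_insert, mem_singleton]
    rw [← h, mem_inter]
    exact ⟨fun h => ⟨h, hzQ⟩, fun h => h.1⟩
  have hDm : m ∉ D := fun h => by rcases (mD m).1 h with h | h | h <;> contradiction
  have hDb : b ∉ D := fun h => by rcases (mD b).1 h with h | h | h <;> contradiction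
  have hDc : c ∉ D := fun h => by rcases (mD c).1 h with h | h | h <;> contradiction
  have htw : t ≠ w := by
    rintro rfl
    exact htp (mw' p (Or.inl rfl))
  have hxw : x ∉ B w := fun h => by
    rcases mw x h hxQ with h | h | h
    · exact hxp h
    · exact hbx h.symm
    · exact hcx h.symm
  have hkj : ∀ {j}, B j ∩ Q = {x, m} → k ≠ j := by
    rintro j hj rfl
    exact hkm ((mj hj m hmQ).2 (Or.inr rfl))
  set N3 := ((B k ∪ B t) ∩ Q) \ D with hN3
  have m3 : ∀ z, z ∈ N3 ↔ (z ∈ B k ∨ z ∈ B t) ∧ z ∈ Q ∧ z ∉ D := fun z => by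
    rw [hN3, mem_sdiff, mem_inter, mem_union, and_assoc]
  set X : Finset V := {p, v} with hX
  have mX : ∀ z, z ∈ X ↔ z = p ∨ z = v := fun z => by rw [hX, mem_insert, mem_singleton]
  have hXc : X.card = 2 := card_pair hpv
  have hXQ : X ⊆ Q := by
    intro z hz
    rcases (mX z).1 hz with rfl | rfl <;> assumption
  have hLX : ({x} : Finset V) ∪ X = D := by
    ext z
    rw [mem_union, mem_singleton, mX, mD]
  set Y : Finset V := {m, b, c} ∪ N3 with hY
  have mY : ∀ z, z ∈ Y ↔ z = m ∨ z = b ∨ z = c ∨ z ∈ N3 := fun z => by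
    rw [hY, mem_union, mem_insert, mem_insert, mem_singleton, or_assoc, or_assoc]
  have hYQ : Y ⊆ Q := by
    intro z hz
    rcases (mY z).1 hz with rfl | rfl | rfl | h
    · exact hmQ
    · exact hbQ
    · exact hcQ
    · exact ((m3 z).1 h).2.1
  have hYD : ∀ z ∈ Y, z ∉ D := by
    intro z hz
    rcases (mY z).1 hz with rfl | rfl | rfl | h
    · exact hDm
    · exact hDb
    · exact hDc
    · exact ((m3 z).1 h).2.2
  set N : ULift.{u} (Fin 4) → Finset V := fun a =>
    if a.down = 0 then {m, b} else if a.down = 1 then {m, c} else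
      if a.down = 2 then {m} else N3 with hN
  have mN : ∀ (a : ULift.{u} (Fin 4)) (y : V), y ∈ N a ↔
      ((a.down = 0 ∧ (y = m ∨ y = b)) ∨ (a.down = 1 ∧ (y = m ∨ y = c)) ∨
        (a.down = 2 ∧ y = m) ∨ (a.down = 3 ∧ y ∈ N3)) := by
    rintro ⟨a⟩ y
    simp only [hN]
    fin_cases a <;> simp
  -- the full block
  have hvt : v ∈ B t ∩ Q := mem_inter.2 ⟨htv, hvQ⟩
  have hti : ∀ s ∈ (B t ∩ Q).erase v, s ∈ N3 ∧ s ∉ B k := by
    intro s hs
    obtain ⟨g1, g2⟩ := mem_erase.1 hs
    obtain ⟨g3, g4⟩ := mem_inter.1 g2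
    refine ⟨(m3 s).2 ⟨Or.inr g3, g4, fun g5 => ?_⟩, hsep s g2 g1⟩
    rcases (mD s).1 g5 with rfl | rfl | rfl
    · exact htx g3
    · exact htp g3
    · exact g1 rfl
  have hc3 : N3.card ≤ 3 := by
    have g1 : N3 ⊆ (((B k ∩ Q).erase x).erase p) ∪ (B t ∩ Q).erase v := by
      intro z hz
      obtain ⟨g2, g3, g4⟩ := (m3 z).1 hz
      rcases g2 with g2 | g2
      · exact mem_union_left _ (mem_erase.2 ⟨fun h5 => g4 ((mD z).2 (Or.inr (Or.inl h5))),
          mem_erase.2 ⟨fun h5 => g4 ((mD z).2 (Or.inl h5)), mem_inter.2 ⟨g2, g3⟩⟩⟩)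
      · exact mem_union_right _ (mem_erase.2 ⟨fun h5 => g4 ((mD z).2 (Or.inr (Or.inr h5))),
          mem_inter.2 ⟨g2, g3⟩⟩)
    have g2 := (card_le_card g1).trans (card_union_le _ _)
    have g3 := card_erase_add_one (mem_inter.2 ⟨hkx, hxQ⟩ : x ∈ B k ∩ Q)
    have g4 := card_erase_add_one (mem_erase.2 ⟨hxp.symm, mem_inter.2 ⟨hkp, hpQ⟩⟩ :
      p ∈ (B k ∩ Q).erase x)
    have g5 := hv.tr k
    have g6 := card_erase_add_one hvt
    omega
  have hm3 : m ∉ N3 := fun h => ((m3 m).1 h).1.elim hkm htm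
  have hb3 : b ∉ N3 := fun h => ((m3 b).1 h).1.elim hkb htb
  have hc3' : c ∉ N3 := fun h => ((m3 c).1 h).1.elim hkc htc
  have hcov := hv.cov
  have hxne : ∀ j, (B j ∩ ({x} : Finset V)).Nonempty ↔ x ∈ B j := by
    intro j
    constructor
    · rintro ⟨z, hz⟩
      obtain ⟨g1, g2⟩ := mem_inter.1 hz
      rwa [mem_singleton.1 g2] at g1
    · intro h
      exact ⟨x, mem_inter.2 ⟨h, mem_singleton_self x⟩⟩
  obtain ⟨hdvx, hrx⟩ := hv.dv_point hxQ hex
  have hg : Gdl B Q {x} X Y {t, w} (Gdl.kp B {x} {t, w}) N := by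
    refine Gdl.of_keep hv.reg hv.tr (singleton_subset_iff.2 hxQ) hXQ hYQ ?_ ?_ ?_ ?_ ?_ ?_ ?_ ?_ ?_
    · rw [disjoint_singleton_left, mX]
      rintro (h | h)
      · exact hxp h
      · exact hxv h
    · rw [disjoint_singleton_left]
      exact fun h => hYD x h ((mD x).2 (Or.inl rfl))
    · rw [disjoint_right]
      intro z hz hzX
      refine hYD z hz ((mD z).2 (Or.inr ?_))
      exact (mX z).1 hzX
    · intro j hj z hz
      rw [hxne] at hj
      rw [hLX]
      obtain ⟨hzj, hzQ⟩ := mem_inter.1 hz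
      by_cases hzD : z ∈ D
      · exact mem_union_left _ hzD
      refine mem_union_right _ ((mY z).2 ?_)
      have g0 : ∀ {j}, B j ∩ Q = {x, m} → z ∈ B j → z = m := by
        intro j hj hz'
        rcases (mj hj z hzQ).1 hz' with g | g
        · exact absurd ((mD z).2 (Or.inl g)) hzD
        · exact g
      rcases hall j hj with rfl | rfl | rfl | rfl | h
      · exact Or.inl (g0 h0 hzj)
      · exact Or.inl (g0 h1 hzj)
      · exact Or.inl (g0 h2 hzj)
      · exact Or.inr (Or.inr (Or.inr ((m3 z).2 ⟨Or.inl hzj, hzQ, hzD⟩)))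
      · exact absurd (h hz) hzD
    · intro j hj
      rw [mem_insert, mem_singleton] at hj
      rcases hj with rfl | rfl
      · refine ⟨fun z hz => ?_, ht⟩
        by_cases hzv : z = v
        · exact mem_union_left _ ((mX z).2 (Or.inr hzv))
        · exact mem_union_right _ ((mY z).2 (Or.inr (Or.inr (Or.inr
            (hti z (mem_erase.2 ⟨hzv, hz⟩)).1))))
      · refine ⟨fun z hz => ?_, ?_⟩
        · obtain ⟨g1, g2⟩ := mem_inter.1 hz
          rcases mw z g1 g2 with g | g | g
          · exact mem_union_left _ ((mX z).2 (Or.inl g))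
          · exact mem_union_right _ ((mY z).2 (Or.inr (Or.inl g)))
          · exact mem_union_right _ ((mY z).2 (Or.inr (Or.inr (Or.inl g))))
        · rw [hw]
          exact card_eq_three.2 ⟨p, b, c, hbp.symm, hcp.symm, hbc, rfl⟩
    · rintro a z hz
      rw [mY]
      rcases (mN a z).1 hz with ⟨_, h⟩ | ⟨_, h⟩ | ⟨_, h⟩ | ⟨_, h⟩ <;> tauto
    · -- degrees
      intro y hy
      have hyD := hYD y hy
      have hyQ := hYQ hy
      have hyx : y ≠ x := fun g => hyD ((mD y).2 (Or.inl g))
      have hyp : y ≠ p := fun g => hyD ((mD y).2 (Or.inr (Or.inl g)))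
      have e1 : (univ.filter (fun a => y ∈ N a)).card =
          (if (y = m ∨ y = b) then 1 else 0) + (if (y = m ∨ y = c) then 1 else 0) +
            (if y = m then 1 else 0) + (if y ∈ N3 then 1 else 0) := by
        have h4 := fin4_card.{u} (fun a => (a = 0 ∧ (y = m ∨ y = b)) ∨
          (a = 1 ∧ (y = m ∨ y = c)) ∨ (a = 2 ∧ y = m) ∨ (a = 3 ∧ y ∈ N3))
        rw [filter_congr (fun a _ => mN a y)]
        rw [h4]
        simp
      have e2 : (univ.filter (fun j => y ∈ B j ∧ (B j ∩ ({x} : Finset V)).Nonempty)).card =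
          (if y = m then 3 else 0) + (if y ∈ B k then 1 else 0) := by
        have g1 : univ.filter (fun j => y ∈ B j ∧ (B j ∩ ({x} : Finset V)).Nonempty) =
            ({j0, j1, j2, k} : Finset ι).filter (fun j => y ∈ B j) := by
          ext j
          rw [mem_filter, mem_filter, hxne, mem_insert, mem_insert, mem_insert, mem_singleton]
          constructor
          · rintro ⟨_, g2, g3⟩
            refine ⟨?_, g2⟩
            rcases hall j g3 with g4 | g4 | g4 | g4 | g4
            · exact Or.inl g4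
            · exact Or.inr (Or.inl g4)
            · exact Or.inr (Or.inr (Or.inl g4))
            · exact Or.inr (Or.inr (Or.inr g4))
            · exact absurd (g4 (mem_inter.2 ⟨g2, hyQ⟩)) hyD
          · rintro ⟨g2, g3⟩
            refine ⟨mem_univ _, g3, ?_⟩
            rcases g2 with rfl | rfl | rfl | rfl
            · exact (mj h0 x hxQ).2 (Or.inl rfl)
            · exact (mj h1 x hxQ).2 (Or.inl rfl)
            · exact (mj h2 x hxQ).2 (Or.inl rfl)
            · exact hkx
        rw [g1, card_filter, sum_insert (by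
          rw [mem_insert, mem_insert, mem_singleton, not_or, not_or]
          exact ⟨h01, h02, (hkj h0).symm⟩), sum_insert (by
          rw [mem_insert, mem_singleton, not_or]
          exact ⟨h12, (hkj h1).symm⟩), sum_pair (hkj h2).symm]
        have g2 : ∀ {j}, B j ∩ Q = {x, m} → (if y ∈ B j then 1 else 0) = if y = m then 1 else 0 := by
          intro j hj
          by_cases g3 : y = m
          · rw [if_pos ((mj hj y hyQ).2 (Or.inr g3)), if_pos g3]
          · rw [if_neg (fun g4 => ((mj hj y hyQ).1 g4).elim hyx g3), if_neg g3]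
        rw [g2 h0, g2 h1, g2 h2]
        split_ifs <;> omega
      have e3 : (({t, w} : Finset ι).filter (fun j => y ∈ B j)).card = (if y ∈ B t then 1 else 0) +
          (if (y = b ∨ y = c) then 1 else 0) := by
        rw [card_filter, sum_pair htw]
        congr 1
        by_cases g3 : y = b ∨ y = c
        · rw [if_pos (mw' y (Or.inr g3)), if_pos g3]
        · rw [if_neg (fun g4 => (mw y g4 hyQ).elim hyp g3), if_neg g3]
      have e4 : (if y ∈ N3 then 1 else 0) = (if y ∈ B k then 1 else 0) +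
          (if y ∈ B t then 1 else 0) := by
        by_cases g1 : y ∈ B k
        · have g2 : y ∉ B t := by
            intro g3
            have g4 : y ∈ (B t ∩ Q).erase v := mem_erase.2 ⟨fun h5 => hyD ((mD y).2
              (Or.inr (Or.inr h5))), mem_inter.2 ⟨g3, hyQ⟩⟩
            exact (hti y g4).2 g1
          rw [if_pos ((m3 y).2 ⟨Or.inl g1, hyQ, hyD⟩), if_pos g1, if_neg g2]
        · by_cases g2 : y ∈ B t
          · rw [if_pos ((m3 y).2 ⟨Or.inr g2, hyQ, hyD⟩), if_neg g1, if_pos g2]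
          · rw [if_neg (fun h3 => ((m3 y).1 h3).1.elim g1 g2), if_neg g1, if_neg g2]
      have e5 : (if (y = m ∨ y = b) then 1 else 0) + (if (y = m ∨ y = c) then 1 else 0) +
          (if y = m then 1 else 0) = (if y = m then 3 else 0) + (if (y = b ∨ y = c) then 1 else 0) := by
        by_cases g1 : y = m
        · have g2 : ¬ (y = b ∨ y = c) := by
            rw [g1]
            rintro (g | g)
            · exact hbm g.symm
            · exact hcm g.symm
          rw [if_pos (Or.inl g1), if_pos (Or.inl g1), if_pos g1, if_pos g1, if_neg g2]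
        · by_cases g2 : y = b
          · have g3 : y ≠ c := fun g4 => hbc (g2.symm.trans g4)
            rw [if_pos (Or.inr g2), if_neg (fun g4 => g4.elim g1 g3), if_neg g1, if_neg g1,
              if_pos (Or.inl g2)]
          · by_cases g3 : y = c
            · rw [if_neg (fun g4 => g4.elim g1 g2), if_pos (Or.inr g3), if_neg g1, if_neg g1,
                if_pos (Or.inr g3)]
            · rw [if_neg (fun g4 => g4.elim g1 g2), if_neg (fun g4 => g4.elim g1 g3),
                if_neg g1, if_neg g1, if_neg (fun g4 => g4.elim g2 g3)]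
      rw [e1, e2, e3, e4]
      omega
    · rintro ⟨a⟩
      simp only [hN]
      split_ifs
      · exact card_le_two.trans (by norm_num)
      · exact card_le_two.trans (by norm_num)
      · simp
      · exact hc3
    · -- costs
      intro K
      rw [hLX, hrx]
      set S3 : Finset ι := if ULift.up 3 ∈ K then {k, t} else {i} with hS3
      set S0 : Finset ι := if ULift.up 0 ∈ K then {w0} else ∅ with hS0
      set S1 : Finset ι := if ULift.up 1 ∈ K then {w1} else ∅ with hS1
      set S2 : Finset ι := if ULift.up 2 ∈ K then {w0} else ∅ with hS2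
      have hsub : D ∪ K.biUnion N ⊆ (((S3 ∪ S0) ∪ S1) ∪ S2).biUnion B := by
        have hDS : D ⊆ (((S3 ∪ S0) ∪ S1) ∪ S2).biUnion B := by
          intro z hz
          by_cases hK3 : ULift.up 3 ∈ K
          · rcases (mD z).1 hz with rfl | rfl | rfl
            · exact mem_biUnion.2 ⟨k, by simp [hS3, hK3], hkx⟩
            · exact mem_biUnion.2 ⟨k, by simp [hS3, hK3], hkp⟩
            · exact mem_biUnion.2 ⟨t, by simp [hS3, hK3], htv⟩
          · exact mem_biUnion.2 ⟨i, by simp [hS3, hK3], hDi hz⟩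
        refine union_subset hDS fun z hz => ?_
        obtain ⟨a, ha, hza⟩ := mem_biUnion.1 hz
        have haa : a = ULift.up a.down := rfl
        rcases (mN a z).1 hza with ⟨g1, g2⟩ | ⟨g1, g2⟩ | ⟨g1, g2⟩ | ⟨g1, g2⟩
        · rw [haa, g1] at ha
          refine mem_biUnion.2 ⟨w0, by simp [hS0, ha], ?_⟩
          rcases g2 with rfl | rfl
          · exact hw0m
          · exact hw0b
        · rw [haa, g1] at ha
          refine mem_biUnion.2 ⟨w1, by simp [hS1, ha], ?_⟩
          rcases g2 with rfl | rfl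
          · exact hw1m
          · exact hw1c
        · rw [haa, g1] at ha
          exact mem_biUnion.2 ⟨w0, by simp [hS2, ha], by rw [g2]; exact hw0m⟩
        · rw [haa, g1] at ha
          rcases ((m3 z).1 g2).1 with g3 | g3
          · exact mem_biUnion.2 ⟨k, by simp [hS3, ha], g3⟩
          · exact mem_biUnion.2 ⟨t, by simp [hS3, ha], g3⟩
      have g1 := rho_le hsub
      have g2 : (((S3 ∪ S0) ∪ S1) ∪ S2).card ≤ S3.card + S0.card + S1.card + S2.card := by
        have g3 := card_union_le ((S3 ∪ S0) ∪ S1) S2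
        have g4 := card_union_le (S3 ∪ S0) S1
        have g5 := card_union_le S3 S0
        omega
      have g3 : K.card = (if ULift.up (0 : Fin 4) ∈ K then 1 else 0) +
          (if ULift.up (1 : Fin 4) ∈ K then 1 else 0) +
          (if ULift.up (2 : Fin 4) ∈ K then 1 else 0) +
          (if ULift.up (3 : Fin 4) ∈ K then 1 else 0) := by
        have h4 := fin4_card.{u} (fun a => ULift.up a ∈ K)
        rw [← h4]
        congr 1
        ext a
        simp
      have g4 : S3.card ≤ 1 + (if ULift.up (3 : Fin 4) ∈ K then 1 else 0) := by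
        rw [hS3]
        split_ifs
        · exact card_le_two
        · simp
      have g5 : S0.card = (if ULift.up (0 : Fin 4) ∈ K then 1 else 0) := by
        rw [hS0]
        split_ifs <;> simp
      have g6 : S1.card = (if ULift.up (1 : Fin 4) ∈ K then 1 else 0) := by
        rw [hS1]
        split_ifs <;> simp
      have g7 : S2.card = (if ULift.up (2 : Fin 4) ∈ K then 1 else 0) := by
        rw [hS2]
        split_ifs <;> simp
      omega
  have hpart := hg.part_of_conn (singleton_nonempty x) (hv.conn_sdiff hXQ (by omega)) hg.keep_kp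
  have hn : (Gdl.rm Q {x} X Y).card + Y.card < Q.card := by
    have h4 : Gdl.rm Q {x} X Y ∪ Y ⊂ Q := by
      refine ⟨union_subset sdiff_subset hYQ, fun h5 => ?_⟩
      rcases mem_union.1 (h5 hxQ) with h6 | h6
      · exact (Gdl.mem_rm.1 h6).2.1 (mem_singleton_self x)
      · exact hYD x h6 ((mD x).2 (Or.inl rfl))
    have h5 := card_lt_card h4
    rwa [card_union_of_disjoint hg.wir.dis] at h5
  have gg2 : N (ULift.up 2) = {m} := by simp [hN]
  have gg3 : N (ULift.up 3) = N3 := by simp [hN]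
  have hfin := (hg.partsR hv.ih hv.ihr hn hpart (K0 := {ULift.up 2, ULift.up 3})
    (fun Z hZ hZne hcl => by
      obtain ⟨z, hz⟩ := hZne
      have key : ∀ a : ULift.{u} (Fin 4), z ∈ N a → N a ⊆ Z := fun a ha =>
        hcl a ⟨z, mem_inter.2 ⟨ha, hz⟩⟩
      have hm : m ∈ Z → ∃ a ∈ ({ULift.up 2, ULift.up 3} : Finset (ULift.{u} (Fin 4))),
          (N a).Nonempty ∧ N a ⊆ Z := by
        intro hmZ
        refine ⟨ULift.up 2, by simp, ?_, ?_⟩
        · rw [gg2]
          exact singleton_nonempty m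
        · rw [gg2]
          exact singleton_subset_iff.2 hmZ
      rcases (mY z).1 (hZ hz) with g1 | g1 | g1 | g1
      · exact hm (g1 ▸ hz)
      · have g2 := key (ULift.up 0) ((mN _ _).2 (Or.inl ⟨rfl, Or.inr g1⟩))
        exact hm (g2 ((mN _ _).2 (Or.inl ⟨rfl, Or.inl rfl⟩)))
      · have g2 := key (ULift.up 1) ((mN _ _).2 (Or.inr (Or.inl ⟨rfl, Or.inr g1⟩)))
        exact hm (g2 ((mN _ _).2 (Or.inr (Or.inl ⟨rfl, Or.inl rfl⟩))))
      · refine ⟨ULift.up 3, by simp, ?_, ?_⟩
        · rw [gg3]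
          exact ⟨z, g1⟩
        · exact key _ (by rw [gg3]; exact g1))).1
  have hck : (Fintype.card (ULift.{u} (Fin 4)) : ℤ) = 4 := by simp
  have hcI : (({t, w} : Finset ι).card : ℤ) = 2 := by
    rw [card_pair htw]
    norm_num
  have h4 := hv.neg
  have h5 : (0 : ℤ) ≤ ((Gdl.lost B Q {x} X Y {t, w} (Gdl.kp B {x} {t, w})).card : ℤ) :=
    Int.natCast_nonneg _
  have h6 : (({ULift.up 2, ULift.up 3} : Finset (ULift.{u} (Fin 4))).card : ℤ) ≤ 2 := by
    exact_mod_cast card_le_two
  have h7 : ((({ULift.up 2, ULift.up 3} : Finset (ULift.{u} (Fin 4))).filter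
      (fun a => (N a).card = 3)).card : ℤ) ≤ 1 := by
    have h8 : ({ULift.up 2, ULift.up 3} : Finset (ULift.{u} (Fin 4))).filter
        (fun a => (N a).card = 3) ⊆ {ULift.up 3} := by
      intro a ha
      obtain ⟨h9, h10⟩ := mem_filter.1 ha
      rw [mem_insert, mem_singleton] at h9
      rw [mem_singleton]
      rcases h9 with rfl | rfl
      · exfalso
        rw [gg2, card_singleton] at h10
        omega
      · rfl
    exact_mod_cast (card_le_card h8).trans (by rw [card_singleton])
  rw [hck, hXc, hcI, hdvx] at hfin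
  push_cast at hfin
  omega

end Pool.Agent.Hyp6
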