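import Pool.Agent.Hyp6.L3Rt

/-!
# HYP6 L3RV: the supply theorem with groups, value form

The supply theorem of `L3Rt` with a parameter `0 <= t <= 15`: every removed point and every triple
supplies `t` more, every leaf demands `t` more; the conclusion is for `Pv` (`t = 15` is the value form,
`t = 0` the old one, for sets with value at least zero). The payers may be grouped, the leaves may be
grouped into nodes.
-/

set_option autoImplicit false

namespace Pool.Agent.Hyp6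

open Finset Pool.Agent.Hyp5

universe u v

variable {V : Type v} [DecidableEq V] {ι : Type u} [Fintype ι]

namespace Rt

/-- the demand of a leaf. -/
noncomputable def dm (B : ι → Finset V) (Q : Finset V) (T : Finset ι) (U : Finset V) (t : ℤ)
    (L : Finset V) : ℤ :=
  18 * ∑ j ∈ T, (jh B Q j L : ℤ) + 33 * (hit B U L : ℤ) + 30 * (ee B Q L : ℤ) - lt B U L + t

/-- the supply of a triple. -/
noncomputable def sT [DecidableEq ι] (B : ι → Finset V) (Q : Finset V) (T : Finset ι)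
    (U : Finset V) (F : Finset (Finset V)) (t : ℤ) (j : ι) : ℤ :=
  126 + t + 2 * ((jn B Q (Ep B Q T U F) j : ℤ) + jb B Q T U j) - 8 * ja B Q (Ep B Q T U F) j

/-- the supply of a point of `U`. -/
noncomputable def sU [DecidableEq ι] (B : ι → Finset V) (Q : Finset V) (T : Finset ι)
    (U : Finset V) (F : Finset (Finset V)) (t : ℤ) (u : V) : ℤ :=
  165 + t - uo B Q T U F u

end Rt

open Rt

variable {B : ι → Finset V}

namespace Frm

variable {Q U : Finset V} {T : Finset ι} {F : Finset (Finset V)}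

/-- **the supply theorem, total form**. -/
theorem of_totalP (h : Frm B Q T U F) [DecidableEq ι] (hr : Reg B Q) {t : ℤ} (ht : 0 ≤ t)
    (ht' : t ≤ 15) (hs : 0 ≤ sv B Q)
    (hm : ∑ L ∈ F, dm B Q T U t L ≤ ∑ j ∈ T, sT B Q T U F t j + ∑ u ∈ U, sU B Q T U F t u + 14) :
    2 * (ee B Q Q : ℤ) ≤ Pv B Q := by
  have h0 := h.total_ge hr
  have hx := h.four_ee_X
  have hE := h.four_ee_E hr
  have h6 : (ee B Q Q : ℤ) = ∑ L ∈ F, (ee B Q L : ℤ) + ee B Q (Ep B Q T U F) +
      ee B Q (Xp B Q T U) := by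
    rw [h.ee_split]
    push_cast
    rfl
  have h7 : (0 : ℤ) ≤ ee B Q (Ep B Q T U F) := by positivity
  have h8 : (0 : ℤ) ≤ ee B Q (Xp B Q T U) := by positivity
  have hfa := h.fa_nonneg
  have hsv : sv B Q = T.card + U.card - F.card := by
    have h1 := h.svD'
    have h2 := h.svD
    linarith
  have hPv := Pv_eq_Pp (B := B) Q
  -- the demand
  have hd : ∑ L ∈ F, dm B Q T U t L = 18 * ∑ j ∈ T, (∑ L ∈ F, (jh B Q j L : ℤ)) +
      33 * ∑ L ∈ F, (hit B U L : ℤ) + 30 * ∑ L ∈ F, (ee B Q L : ℤ) - ∑ L ∈ F, lt B U L +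
      t * F.card := by
    unfold dm
    rw [sum_add_distrib, sum_sub_distrib, sum_add_distrib, sum_add_distrib, ← mul_sum, ← mul_sum,
      ← mul_sum, sum_const, nsmul_eq_mul, sum_comm]
    ring
  have hT : ∑ j ∈ T, sT B Q T U F t j = 18 * ∑ j ∈ T, (∑ L ∈ F, (jh B Q j L : ℤ)) +
      ∑ j ∈ T, (20 * ((jn B Q (Ep B Q T U F) j : ℤ) + jb B Q T U j) +
        10 * ja B Q (Ep B Q T U F) j - 90) + t * T.card := by
    have h1 : ∀ j ∈ T, sT B Q T U F t j = 18 * (∑ L ∈ F, (jh B Q j L : ℤ)) +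
        (20 * ((jn B Q (Ep B Q T U F) j : ℤ) + jb B Q T U j) +
        10 * ja B Q (Ep B Q T U F) j - 90) + t := by
      intro j hj
      have h4 : (∑ L ∈ F, (jh B Q j L : ℤ)) + jn B Q (Ep B Q T U F) j +
          ja B Q (Ep B Q T U F) j + jb B Q T U j = 12 := by
        exact_mod_cast h.twelve hr hj
      unfold sT
      linarith
    rw [sum_congr rfl h1, sum_add_distrib, sum_add_distrib, ← mul_sum, sum_const, nsmul_eq_mul]
    ring
  have h12 := h.five_U hr
  have h10 : ∑ u ∈ U, (uo B Q T U F u : ℤ) = hit B U (Ep B Q T U F) + ub B Q T U := by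
    unfold uo
    push_cast
    rw [sum_add_distrib]
    congr 1
    · have h11 := hit_U_sum (B := B) U (Ep B Q T U F)
      rw [h11]
      unfold uh
      push_cast
      rfl
    · unfold ub
      push_cast
      rw [sum_comm]
      refine sum_congr rfl fun i _ => ?_
      rw [inter_card_sum (B i) U]
      push_cast
      rfl
  have hU : ∑ u ∈ U, sU B Q T U F t u = 33 * ∑ L ∈ F, (hit B U L : ℤ) +
      32 * ((hit B U (Ep B Q T U F) : ℤ) + ub B Q T U) + t * U.card := by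
    unfold sU
    rw [sum_sub_distrib, sum_const, nsmul_eq_mul, h10]
    linarith
  rw [hd, hT, hU] at hm
  have key : 30 * (ee B Q Q : ℤ) - 14 ≤ 15 * Pp B Q + t * sv B Q := by
    rw [hsv, h6]
    linarith
  have h13 : t * sv B Q ≤ 15 * sv B Q := mul_le_mul_of_nonneg_right ht' hs
  rw [hPv]
  omega

/-- **the supply theorem with groups of payers and nodes of leaves**. -/
theorem of_groupsP {γ : Type*} (h : Frm B Q T U F) [DecidableEq ι] (hr : Reg B Q) {t : ℤ}
    (ht : 0 ≤ t) (ht' : t ≤ 15) (hs : 0 ≤ sv B Q)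
    (G : Finset γ) (TG : γ → Finset ι) (UG : γ → Finset V)
    (hT : G.biUnion TG = T) (hTd : ∀ g ∈ G, ∀ g' ∈ G, g ≠ g' → Disjoint (TG g) (TG g'))
    (hU : G.biUnion UG = U) (hUd : ∀ g ∈ G, ∀ g' ∈ G, g ≠ g' → Disjoint (UG g) (UG g'))
    (P : Finset (Finset (Finset V))) (hP : P.biUnion id = F)
    (hPd : ∀ C ∈ P, ∀ C' ∈ P, C ≠ C' → Disjoint C C')
    (pay : γ → Finset (Finset V) → ℤ)
    (hL : ∀ C ∈ P, ∑ L ∈ C, dm B Q T U t L ≤ ∑ g ∈ G, pay g C)
    (hG : ∀ g ∈ G, ∑ C ∈ P, pay g C ≤ ∑ j ∈ TG g, sT B Q T U F t j +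
      ∑ u ∈ UG g, sU B Q T U F t u) :
    2 * (ee B Q Q : ℤ) ≤ Pv B Q := by
  refine h.of_totalP hr ht ht' hs ?_
  have h1 : ∑ L ∈ F, dm B Q T U t L = ∑ C ∈ P, ∑ L ∈ C, dm B Q T U t L := by
    conv_lhs => rw [← hP]
    have h2 := sum_biUnion (s := P) (t := id) (f := fun L => dm B Q T U t L)
      (fun C hC C' hC' hne => hPd C hC C' hC' hne)
    exact h2
  have h2 : ∑ j ∈ T, sT B Q T U F t j = ∑ g ∈ G, ∑ j ∈ TG g, sT B Q T U F t j := by
    conv_lhs => rw [← hT]
    rw [sum_biUnion (fun g hg g' hg' hne => hTd g hg g' hg' hne), hT]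
  have h3 : ∑ u ∈ U, sU B Q T U F t u = ∑ g ∈ G, ∑ u ∈ UG g, sU B Q T U F t u := by
    conv_lhs => rw [← hU]
    rw [sum_biUnion (fun g hg g' hg' hne => hUd g hg g' hg' hne), hU]
  have h4 := sum_le_sum hL
  have h5 := sum_le_sum hG
  rw [sum_add_distrib] at h5
  rw [sum_comm] at h4
  rw [h1, h2, h3]
  linarith

/-- **the supply theorem**, value form without groups. -/
theorem of_supplyP (h : Frm B Q T U F) [DecidableEq ι] (hr : Reg B Q) {t : ℤ} (ht : 0 ≤ t)
    (ht' : t ≤ 15) (hs : 0 ≤ sv B Q) (r : ι → Finset V → ℤ) (s : V → Finset V → ℤ)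
    (hL : ∀ L ∈ F, dm B Q T U t L ≤ ∑ j ∈ T, r j L + ∑ u ∈ U, s u L)
    (hT : ∀ j ∈ T, ∑ L ∈ F, r j L ≤ sT B Q T U F t j)
    (hU : ∀ u ∈ U, ∑ L ∈ F, s u L ≤ sU B Q T U F t u) :
    2 * (ee B Q Q : ℤ) ≤ Pv B Q := by
  refine h.of_totalP hr ht ht' hs ?_
  have h1 := sum_le_sum hL
  have h2 := sum_le_sum hT
  have h3 := sum_le_sum hU
  rw [sum_add_distrib] at h1
  have h4 : ∑ L ∈ F, ∑ j ∈ T, r j L = ∑ j ∈ T, ∑ L ∈ F, r j L := sum_comm
  have h5 : ∑ L ∈ F, ∑ u ∈ U, s u L = ∑ u ∈ U, ∑ L ∈ F, s u L := sum_comm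
  rw [h4, h5] at h1
  linarith

/-- the demand of a leaf, exact form. -/
theorem dm_eq (h : Frm B Q T U F) (hr : Reg B Q) (t : ℤ) {L : Finset V} (hL : L ∈ F) :
    dm B Q T U t L = 165 + t - 18 * fs B Q L - 3 * ((nt B L 1 : ℤ) - hit B U L) +
      30 * (ee B Q L : ℤ) := by
  have h1 := h.leaf_term hr hL
  unfold dm
  linarith

/-- the demand of a leaf is at most `165 + t - 3 (n1 - g)`. -/
theorem dm_le (h : Frm B Q T U F) (hr : Reg B Q) (t : ℤ) {L : Finset V} (hL : L ∈ F) :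
    dm B Q T U t L ≤ 165 + t - 3 * ((nt B L 1 : ℤ) - hit B U L) - 42 * (ee B Q L : ℤ) := by
  have h1 := h.dm_eq hr t hL
  have h2 := four_ee_le_fs (W := L) h.reg3
  linarith

/-- closing form: the demand in terms of the hits and of `Pp`. -/
theorem dm_eq' (h : Frm B Q T U F) (t : ℤ) {L : Finset V} (_hL : L ∈ F) :
    dm B Q T U t L = 18 * ∑ j ∈ T, (jh B Q j L : ℤ) + 21 * (hit B U L : ℤ) +
      30 * (ee B Q L : ℤ) - 15 * Pp B L + t := by
  have _ := h.reg3
  unfold dm lt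
  ring

/-- the points of `U` may supply `33` (resp. `36` for `t = 15`) for every hit. -/
theorem sU_hits (h : Frm B Q T U F) [DecidableEq ι] (hr : Reg B Q) (t : ℤ) {u : V} (hu : u ∈ U) :
    33 * ∑ L ∈ F, (uh B u L : ℤ) + 32 * uo B Q T U F u + t = sU B Q T U F t u := by
  have h1 := h.five_u hr hu
  unfold sU
  push_cast [← @Nat.cast_inj ℤ] at h1
  linarith

theorem sU_hits15 (h : Frm B Q T U F) [DecidableEq ι] (hr : Reg B Q) {u : V} (hu : u ∈ U) :
    36 * ∑ L ∈ F, (uh B u L : ℤ) + 35 * uo B Q T U F u = sU B Q T U F 15 u := by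
  have h1 := h.five_u hr hu
  unfold sU
  push_cast [← @Nat.cast_inj ℤ] at h1
  linarith

end Frm

end Pool.Agent.Hyp6
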