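import Pool.Agent.Hyp6.Gad2

/-!
# HYP6 L3S0: a connected set which refuses outer points of `e` blocks

`pt_ge`: if the blocks of `E` meet the connected set `K` and `K` refuses the other points of each of
these blocks, then the value of `K` is at least `4, 8, 12, 14, 18` for `1, 2, 3, 4, 5` blocks.
-/

set_option autoImplicit false

namespace Pool.Agent.Hyp6

open Finset Pool.Agent.Hyp5

universe u v

variable {V : Type v} [DecidableEq V] {ι : Type u} [Fintype ι] {B : ι → Finset V}

/-- the bound for a refusing set in terms of the number of blocks. -/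
def phi (m : ℕ) : ℤ := if m ≤ 3 then 4 * m else if m = 4 then 14 else 18

theorem phi_mono {a b : ℕ} (h : a ≤ b) : phi a ≤ phi b := by
  unfold phi
  split_ifs <;> omega

theorem phi_add (a b : ℕ) : phi (a + b) ≤ phi a + phi b := by
  unfold phi
  split_ifs <;> omega

theorem phi_nonneg (a : ℕ) : 0 ≤ phi a := by
  unfold phi
  split_ifs <;> omega

theorem phi_le (a : ℕ) : phi a ≤ 18 := by
  unfold phi
  split_ifs <;> omega

/-- the closing with one new point. -/
theorem gx_pt {Q K : Finset V} (hK : K ⊆ Q) (hKQ : K.card < Q.card) {E : Finset ι}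
    (hE : ∀ i ∈ E, (B i ∩ K).Nonempty) (hE1 : 1 ≤ E.card) (hE5 : E.card ≤ 5)
    (href : ∀ i ∈ E, rho B K + 1 ≤ rho B (K ∪ (B i ∩ (Q \ K)))) :
    Gx B Q K (p := 1) (d := 5 - E.card) (fun _ => E) (fun _ => {0}) 1 where
  WQ := hK
  room := hKQ
  EW := fun _ i hi => hE i hi
  cap := by
    classical
    intro i
    by_cases hi : i ∈ E
    · have h1 : 0 < (B i ∩ (Q \ K)).card := by
        rw [card_pos]
        by_contra h2
        rw [not_nonempty_iff_eq_empty] at h2
        have h3 := href i hi
        rw [h2, union_empty] at h3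
        omega
      have h2 : (univ.filter (fun _ : Fin 1 => i ∈ E)).card ≤ 1 := by
        refine (card_filter_le _ _).trans ?_
        simp
      omega
    · rw [filter_false_of_mem (fun _ _ => hi), card_empty]
      exact Nat.zero_le _
  Ene := fun _ => card_pos.1 (by omega)
  deg := by
    intro z
    have h1 : (univ.filter (fun _ : Fin (5 - E.card) => z ∈ ({0} : Finset (Fin 1)))).card =
        5 - E.card := by
      rw [filter_true_of_mem (fun _ _ => by rw [mem_singleton]; exact Subsingleton.elim _ _)]
      simp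
    rw [h1]
    omega
  Nne := fun _ => singleton_nonempty _
  N3 := fun _ => by simp
  cost := by
    intro S g hg
    rcases S.eq_empty_or_nonempty with rfl | hS
    · rw [card_empty, add_zero]
      have h1 : (univ.filter (fun z : Fin 1 => ∀ c ∈ (∅ : Finset (Fin (5 - E.card))),
          z ∉ ({0} : Finset (Fin 1)))) = {0} := by
        ext z
        simp only [mem_filter, mem_univ, true_and, mem_singleton]
        exact ⟨fun _ => Subsingleton.elim _ _, fun _ c hc => absurd hc (notMem_empty _)⟩
      rw [h1, singleton_biUnion]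
      exact href _ (hg 0 fun c hc => absurd hc (notMem_empty _))
    · have h1 : (univ.filter (fun z : Fin 1 => ∀ c ∈ S, z ∉ ({0} : Finset (Fin 1)))) = ∅ := by
        rw [filter_eq_empty_iff]
        intro z _ h2
        obtain ⟨c, hc⟩ := hS
        exact h2 c hc (mem_singleton.2 (Subsingleton.elim _ _))
      rw [h1, biUnion_empty, union_empty]
      have := card_pos.2 hS
      omega

/-- **the bound for a set which refuses the points of `e` blocks**. -/
theorem pt_ge {Q K : Finset V} (hr : Reg B Q) (h3 : Tr3 B Q) (hKc : Conn (gr B) K) (hK : K ⊆ Q)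
    {n : ℕ} (ih : IHE.{u} V n) (hn : K.card + 1 < n) (hKQ : K.card < Q.card) {E : Finset ι}
    (hE : ∀ i ∈ E, (B i ∩ K).Nonempty) (hE1 : 1 ≤ E.card)
    (href : ∀ i ∈ E, rho B K + 1 ≤ rho B (K ∪ (B i ∩ (Q \ K)))) :
    phi E.card ≤ dv B Q K ∨ (5 ≤ E.card ∧ K.card = 5 ∧ 17 ≤ dv B Q K) := by
  classical
  obtain ⟨E', hE', hE'c⟩ := exists_subset_card_eq (s := E) (n := min 5 E.card) (by omega)
  have h1 : 1 ≤ E'.card := by omega
  have h5 : E'.card ≤ 5 := by omega
  have hg := gx_pt hK hKQ (E := E') (fun i hi => hE i (hE' hi)) h1 h5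
    (fun i hi => href i (hE' hi))
  have hK3 : (∃ c : Fin (5 - E'.card), (({0} : Finset (Fin 1))).card ≤ 2) ∨ K.card + 1 ≠ 6 ∨
      (E'.card = 5 ∧ K.card = 5) := by
    by_cases h6 : E'.card = 5
    · by_cases h7 : K.card = 5
      · exact Or.inr (Or.inr ⟨h6, h7⟩)
      · exact Or.inr (Or.inl (by omega))
    · exact Or.inl ⟨⟨0, by omega⟩, by simp⟩
  have hee : (0 : ℤ) ≤ ee B Q K := by positivity
  have hgen : ∀ Z2 : Finset (Fin 1), (∀ z ∈ Z2, 2 ≤ (univ.filter
      (fun _ : Fin (5 - E'.card) => ({0} : Finset (Fin 1)) = {z})).card) →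
      ((∃ c : Fin (5 - E'.card), (({0} : Finset (Fin 1))).card ≤ 2) ∨ K.card + 1 ≠ 6) →
      24 + 2 * (Z2.card : ℤ) ≤ dv B Q K + 5 + 4 * ((5 - E'.card : ℕ) : ℤ) + 1 := by
    intro Z2 hZ2 hK'
    have h8 := (hg.main ih hn hr h3 hKc hK' hZ2).1
    unfold dv
    push_cast at h8 ⊢
    linarith
  rcases hK3 with h6 | h6 | ⟨h6, h7⟩
  · left
    by_cases h8 : E'.card ≤ 3
    · have h9 := hgen univ (fun z _ => by
        rw [filter_true_of_mem (fun _ _ => by
          rw [Subsingleton.elim z 0])]
        rw [card_univ, Fintype.card_fin]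
        omega) (Or.inl h6)
      have h10 : E.card = E'.card := by omega
      rw [h10]
      unfold phi
      rw [if_pos h8]
      rw [card_univ, Fintype.card_fin] at h9
      omega
    · have h9 := hgen ∅ (fun z hz => absurd hz (notMem_empty _)) (Or.inl h6)
      rw [card_empty] at h9
      obtain ⟨c, _⟩ := h6
      have h10 := c.2
      have h11 : E'.card = 4 := by omega
      have h12 : E.card = 4 := by omega
      rw [h12]
      unfold phi
      rw [if_neg (by norm_num), if_pos rfl]
      omega
  · by_cases h8 : E'.card ≤ 3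
    · left
      have h9 := hgen univ (fun z _ => by
        rw [filter_true_of_mem (fun _ _ => by
          rw [Subsingleton.elim z 0])]
        rw [card_univ, Fintype.card_fin]
        omega) (Or.inr h6)
      have h10 : E.card = E'.card := by omega
      rw [h10]
      unfold phi
      rw [if_pos h8]
      rw [card_univ, Fintype.card_fin] at h9
      omega
    · left
      have h9 := hgen ∅ (fun z hz => absurd hz (notMem_empty _)) (Or.inr h6)
      rw [card_empty] at h9
      by_cases h10 : E'.card = 4
      · have h12 : E.card = 4 := by omega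
        rw [h12]
        unfold phi
        rw [if_neg (by norm_num), if_pos rfl]
        omega
      · have h12 := phi_le E.card
        omega
  · right
    refine ⟨by omega, h7, ?_⟩
    have h8 := hg.main0 ih hn hr h3 hKc (Z2 := ∅) (fun z hz => absurd hz (notMem_empty _))
    unfold dv
    rw [card_empty] at h8
    push_cast at h8 ⊢
    have h9 : ((5 - E'.card : ℕ) : ℤ) = 0 := by
      rw [h6]
      norm_num
    omega

end Pool.Agent.Hyp6
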