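import Pool.Agent.Hyp6.L3Pv
import Pool.Agent.Hyp6.L3S0
import Pool.Agent.Hyp6.L3Cnt
import Pool.Agent.Hyp6.GC

/-!
# HYP6 L3S1: the separation lemma for sets of leaves seen by one triple

`core_ge`: the value of the rest which refuses all contact points.
`Frm.sep1_gen`, `Frm.sep1_two`: a set `A` of leaves seen by one triple of the frame and by `|A| + 1`
points of `U`: `dv Q` is at least the sum of the `dv L` plus `5 |A| - 6`.
-/

set_option autoImplicit false

namespace Pool.Agent.Hyp6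

open Finset Pool.Agent.Hyp5

universe u v

variable {V : Type v} [DecidableEq V] {ι : Type u} [Fintype ι] {B : ι → Finset V}

/-- the blocks through a point of `X` which do not meet `W`. -/
noncomputable def dA (B : ι → Finset V) (X W : Finset V) : Finset ι :=
  univ.filter (fun i => (B i ∩ X).Nonempty ∧ ¬ (B i ∩ W).Nonempty)

theorem mem_dA {X W : Finset V} {i : ι} :
    i ∈ dA B X W ↔ (B i ∩ X).Nonempty ∧ ¬ (B i ∩ W).Nonempty := by
  unfold dA
  simp

theorem dA_mono {X X' W : Finset V} (h : X ⊆ X') : dA B X W ⊆ dA B X' W := by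
  intro i hi
  rw [mem_dA] at hi ⊢
  exact ⟨hi.1.mono (inter_subset_inter_left h), hi.2⟩

theorem phi_zero : phi 0 = 0 := by
  unfold phi
  simp

theorem phi_sum {α : Type*} [DecidableEq α] (S : Finset α) (f : α → ℕ) :
    phi (∑ a ∈ S, f a) ≤ ∑ a ∈ S, phi (f a) := by
  induction S using Finset.induction_on with
  | empty => rw [sum_empty, sum_empty, phi_zero]
  | insert a S ha ih =>
    rw [sum_insert ha, sum_insert ha]
    exact (phi_add _ _).trans (by linarith)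

/-- the value of a set which refuses the points of `X`, by components. -/
theorem comp_ge {Q R X : Finset V} (hr : Reg B Q) (h3 : Tr3 B Q) (ih : IHE.{u} V Q.card)
    (hc : Cov B Q) (hR : R ⊆ Q) (hRQ : R.card + 1 < Q.card) (hXQ : X ⊆ Q) (hXR : Disjoint X R)
    (href : ∀ p ∈ X, rho B R + 1 ≤ rho B (R ∪ {p}))
    (hE : ∀ K ⊆ R, Closed (gr B) R K → Conn (gr B) K →
      ∃ i, (B i ∩ K).Nonempty ∧ (B i ∩ X).Nonempty)
    {Dm : Finset ι} (hDm : ∀ i ∈ Dm, (B i ∩ R).Nonempty ∧ (B i ∩ X).Nonempty) :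
    phi Dm.card ≤ dv B Q R ∨ (R.card = 5 ∧ 17 ≤ dv B Q R) := by
  classical
  obtain ⟨Ks, hK1, hK2, hK3⟩ := exists_parts B R
  set E : Finset V → Finset ι := fun K =>
    univ.filter (fun i => (B i ∩ K).Nonempty ∧ (B i ∩ X).Nonempty) with hEdef
  have hmem : ∀ K i, i ∈ E K ↔ (B i ∩ K).Nonempty ∧ (B i ∩ X).Nonempty := by
    intro K i
    simp [hEdef]
  have hKR : ∀ K ∈ Ks, K ⊆ R := fun K hK => (hK1 K hK).1
  have hcR : Cov B R := hc.mono hR
  have hpt : ∀ K ∈ Ks, phi (E K).card ≤ dv B Q K ∨ (K.card = 5 ∧ 17 ≤ dv B Q K) := by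
    intro K hK
    have hKQ : K ⊆ Q := (hKR K hK).trans hR
    have hcard : K.card ≤ R.card := card_le_card (hKR K hK)
    have hE1 : 1 ≤ (E K).card := by
      obtain ⟨i, hi⟩ := hE K (hKR K hK) (hK1 K hK).2.1 (hK1 K hK).2.2
      exact card_pos.2 ⟨i, (hmem K i).2 hi⟩
    have hrefK : ∀ i ∈ E K, rho B K + 1 ≤ rho B (K ∪ (B i ∩ (Q \ K))) := by
      intro i hi
      obtain ⟨_, p, hp⟩ := (hmem K i).1 hi
      obtain ⟨hpi, hpX⟩ := mem_inter.1 hp
      have hpR : p ∉ R := disjoint_left.1 hXR hpX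
      have h1 : rho B R = rho B K + rho B (R \ K) := by
        have h2 : R = K ∪ (R \ K) := (union_sdiff_of_subset (hKR K hK)).symm
        have h4 := rho_add (B := B) (hcR.mono (hKR K hK)) (hcR.mono sdiff_subset)
          (sep_of_closed (hK1 K hK).2.1 sdiff_subset disjoint_sdiff)
        rw [← h2] at h4
        exact h4
      have h2 : rho B (R ∪ {p}) ≤ rho B (K ∪ {p}) + rho B (R \ K) := by
        refine le_trans (rho_mono ?_ ?_) (rho_union_le ?_ ?_)
        · intro v hv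
          rcases mem_union.1 hv with h5 | h5
          · by_cases h6 : v ∈ K
            · exact mem_union_left _ (mem_union_left _ h6)
            · exact mem_union_right _ (mem_sdiff.2 ⟨h5, h6⟩)
          · exact mem_union_left _ (mem_union_right _ h5)
        · exact hc.mono (union_subset (union_subset hKQ
            (singleton_subset_iff.2 (hXQ hpX))) (sdiff_subset.trans hR))
        · exact hc.mono (union_subset hKQ (singleton_subset_iff.2 (hXQ hpX)))
        · exact hc.mono (sdiff_subset.trans hR)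
      have h4 : rho B (K ∪ {p}) ≤ rho B (K ∪ (B i ∩ (Q \ K))) := by
        refine rho_mono (union_subset_union_right ?_) ?_
        · exact singleton_subset_iff.2 (mem_inter.2 ⟨hpi, mem_sdiff.2 ⟨hXQ hpX,
            fun h5 => hpR (hKR K hK h5)⟩⟩)
        · exact hc.mono (union_subset hKQ (inter_subset_right.trans sdiff_subset))
      have h5 := href p hpX
      omega
    rcases pt_ge hr h3 (hK1 K hK).2.2 hKQ ih (by omega) (by omega)
      (fun i hi => ((hmem K i).1 hi).1) hE1 hrefK with h1 | h1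
    · exact Or.inl h1
    · exact Or.inr ⟨h1.2.1, h1.2.2⟩
  have hdv : dv B Q R = ∑ K ∈ Ks, dv B Q K := by
    have h1 := Pv_biUnion (fun K hK => hcR.mono (hKR K hK)) hK2
    have h2 := ee_biUnion (B := B) (Q := Q) hK2
    rw [hK3] at h1 h2
    unfold dv
    rw [h1, h2, sum_sub_distrib, ← mul_sum]
    push_cast
    rfl
  have hpos : ∀ K ∈ Ks, 4 ≤ dv B Q K := by
    intro K hK
    have hE1 : 1 ≤ (E K).card := by
      obtain ⟨i, hi⟩ := hE K (hKR K hK) (hK1 K hK).2.1 (hK1 K hK).2.2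
      exact card_pos.2 ⟨i, (hmem K i).2 hi⟩
    have h4 : phi 1 ≤ phi (E K).card := phi_mono hE1
    have h5 : phi 1 = 4 := by unfold phi; norm_num
    rcases hpt K hK with h1 | h1
    · linarith
    · linarith [h1.2]
  by_cases hall : ∀ K ∈ Ks, phi (E K).card ≤ dv B Q K
  · left
    rw [hdv]
    have h1 : Dm ⊆ Ks.biUnion E := by
      intro i hi
      obtain ⟨⟨v, hv⟩, hX⟩ := hDm i hi
      obtain ⟨hvi, hvR⟩ := mem_inter.1 hv
      rw [← hK3] at hvR
      obtain ⟨K, hK, hvK⟩ := mem_biUnion.1 hvR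
      exact mem_biUnion.2 ⟨K, hK, (hmem K i).2 ⟨⟨v, mem_inter.2 ⟨hvi, hvK⟩⟩, hX⟩⟩
    have h2 := (card_le_card h1).trans card_biUnion_le
    calc phi Dm.card ≤ phi (∑ K ∈ Ks, (E K).card) := phi_mono h2
      _ ≤ ∑ K ∈ Ks, phi (E K).card := phi_sum _ _
      _ ≤ ∑ K ∈ Ks, dv B Q K := sum_le_sum hall
  · push Not at hall
    obtain ⟨K0, hK0, hlt⟩ := hall
    have h1 := (hpt K0 hK0).resolve_left (not_le.2 hlt)
    have h2 : dv B Q R = dv B Q K0 + ∑ K ∈ Ks.erase K0, dv B Q K := by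
      rw [hdv, add_sum_erase _ _ hK0]
    rcases (Ks.erase K0).eq_empty_or_nonempty with h4 | ⟨K1, hK1'⟩
    · right
      rw [h4, sum_empty, add_zero] at h2
      have h5 : Ks = {K0} := by
        rw [← insert_erase hK0, h4, insert_empty_eq]
      have h6 : R = K0 := by
        rw [← hK3, h5, singleton_biUnion]
        rfl
      exact ⟨by rw [h6]; exact h1.1, by rw [h2]; exact h1.2⟩
    · left
      have h5 : dv B Q K1 ≤ ∑ K ∈ Ks.erase K0, dv B Q K :=
        single_le_sum (fun K hK => by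
          have := hpos K (mem_of_mem_erase hK)
          linarith) hK1'
      have h6 := hpos K1 (mem_of_mem_erase hK1')
      have h7 := phi_le Dm.card
      linarith [h1.2]

/-- **the value of the rest**: `22` more than the value of the separator. -/
theorem core_ge {Q R X W Y : Finset V} (hr : Reg B Q) (h3 : Tr3 B Q) (ih : IHE.{u} V Q.card)
    (hcv : Cov B Q) (hR : R ⊆ Q) (hRQ : R.card + 1 < Q.card) (hY : Y ⊆ Q) (hXY : X ⊆ Y)
    (hun : Q \ Y = W ∪ R)
    (href : ∀ p ∈ X, rho B R + 1 ≤ rho B (R ∪ {p}))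
    (hE : ∀ K ⊆ R, Closed (gr B) R K → Conn (gr B) K →
      ∃ i, (B i ∩ K).Nonempty ∧ (B i ∩ X).Nonempty)
    {j0 : ι} (hj0 : (B j0 ∩ Q).card = 3) (hj0Y : B j0 ∩ Q ⊆ Y) (hj0X : Disjoint (B j0 ∩ Q) X)
    (hs : 0 ≤ sv B R) (hD5 : 5 ≤ (dA B X W).card)
    (hD6 : 6 ≤ ∑ i ∈ dA B X W, (B i ∩ X).card ∨ R.card ≠ 5)
    (hDe : 6 ≤ (dA B X W).card ∨ ee B Q X ≤ 1) :
    22 + 2 * (ee B Q Y : ℤ) ≤ dv B Q R + 4 * ((ins B Q Y).card : ℤ) := by
  classical
  have hXQ : X ⊆ Q := hXY.trans hY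
  have hnot : ∀ v, v ∈ W ∪ R → v ∉ Y := fun v hv => by
    rw [← hun] at hv
    exact (mem_sdiff.1 hv).2
  have hXR : Disjoint X R := disjoint_left.2 fun v hv hv' =>
    hnot v (mem_union_right _ hv') (hXY hv)
  have hWQ : W ⊆ Q := fun v hv => by
    have h1 : v ∈ Q \ Y := by
      rw [hun]
      exact mem_union_left _ hv
    exact (mem_sdiff.1 h1).1
  set D := dA B X W with hD
  set Dm := D.filter (fun i => (B i ∩ R).Nonempty) with hDm
  set Db := D.filter (fun i => ¬ (B i ∩ R).Nonempty) with hDb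
  have hmb : Dm.card + Db.card = D.card := card_filter_add_card_filter_not _
  have hcase := comp_ge hr h3 ih hcv hR hRQ hXQ hXR href hE (Dm := Dm) (fun i hi => by
    obtain ⟨h1, h2⟩ := mem_filter.1 hi
    exact ⟨h2, (mem_dA.1 h1).1⟩)
  -- the blocks inside the separator
  set S' := (ins B Q (Y \ X)).filter (fun i => (B i ∩ Q).card = 1) with hS'
  set S := (ins B Q X).filter (fun i => (B i ∩ Q).card = 1) with hS
  have hS'e : 2 * ee B Q (Y \ X) ≤ S'.card := two_ee_le Q _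
  have hSe : 2 * ee B Q X ≤ S.card := two_ee_le Q _
  have hSDb : S ⊆ Db := by
    intro i hi
    obtain ⟨h1, _⟩ := mem_filter.1 hi
    obtain ⟨⟨v, hv⟩, h2⟩ := mem_ins.1 h1
    refine mem_filter.2 ⟨mem_dA.2 ⟨⟨v, mem_inter.2 ⟨(mem_inter.1 hv).1, h2 hv⟩⟩, ?_⟩, ?_⟩
    · rintro ⟨w, hw⟩
      obtain ⟨hwi, hwW⟩ := mem_inter.1 hw
      exact hnot w (mem_union_left _ hwW) (hXY (h2 (mem_inter.2 ⟨hwi, hWQ hwW⟩)))
    · rintro ⟨w, hw⟩
      obtain ⟨hwi, hwR⟩ := mem_inter.1 hw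
      exact hnot w (mem_union_right _ hwR) (hXY (h2 (mem_inter.2 ⟨hwi, hR hwR⟩)))
  have hSb := (card_le_card hSDb)
  have hDbY : Db ⊆ ins B Q Y := by
    intro i hi
    obtain ⟨h1, h2⟩ := mem_filter.1 hi
    obtain ⟨⟨v, hv⟩, h4⟩ := mem_dA.1 h1
    obtain ⟨hvi, hvX⟩ := mem_inter.1 hv
    refine mem_ins.2 ⟨⟨v, mem_inter.2 ⟨hvi, hXQ hvX⟩⟩, ?_⟩
    intro w hw
    obtain ⟨hwi, hwQ⟩ := mem_inter.1 hw
    by_contra hwY
    have h5 : w ∈ W ∪ R := by
      rw [← hun]
      exact mem_sdiff.2 ⟨hwQ, hwY⟩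
    rcases mem_union.1 h5 with h6 | h6
    · exact h4 ⟨w, mem_inter.2 ⟨hwi, h6⟩⟩
    · exact h2 ⟨w, mem_inter.2 ⟨hwi, h6⟩⟩
  have hins : 1 + Db.card + S'.card ≤ (ins B Q Y).card := by
    have h1 : j0 ∉ Db ∪ S' := by
      intro h2
      rcases mem_union.1 h2 with h4 | h4
      · obtain ⟨⟨v, hv⟩, _⟩ := mem_dA.1 (mem_filter.1 h4).1
        obtain ⟨hvi, hvX⟩ := mem_inter.1 hv
        exact disjoint_left.1 hj0X (mem_inter.2 ⟨hvi, hXQ hvX⟩) hvX
      · have := (mem_filter.1 h4).2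
        omega
    have h2 : Disjoint Db S' := by
      rw [disjoint_left]
      intro i h4 h5
      obtain ⟨⟨v, hv⟩, _⟩ := mem_dA.1 (mem_filter.1 h4).1
      obtain ⟨hvi, hvX⟩ := mem_inter.1 hv
      have h6 := (mem_ins.1 (mem_filter.1 h5).1).2 (mem_inter.2 ⟨hvi, hXQ hvX⟩)
      exact (mem_sdiff.1 h6).2 hvX
    have h4 : insert j0 (Db ∪ S') ⊆ ins B Q Y := by
      refine insert_subset (mem_ins.2 ⟨card_pos.1 (by omega), hj0Y⟩) (union_subset hDbY ?_)
      intro i hi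
      obtain ⟨h5, h6⟩ := mem_ins.1 (mem_filter.1 hi).1
      exact mem_ins.2 ⟨h5, h6.trans sdiff_subset⟩
    have h5 := card_le_card h4
    rw [card_insert_of_notMem h1, card_union_of_disjoint h2] at h5
    omega
  have hee : ee B Q Y = ee B Q X + ee B Q (Y \ X) := by
    have h1 := ee_union (B := B) (Q := Q) (P := X) (P' := Y \ X) disjoint_sdiff
    rw [union_sdiff_of_subset hXY] at h1
    exact h1
  rw [hee]
  have hfin : phi Dm.card ≤ dv B Q R ∨ (1 ≤ Db.card ∧ 17 ≤ dv B Q R) := by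
    rcases hcase with h1 | ⟨h5, h17⟩
    · exact Or.inl h1
    by_cases hb : 1 ≤ Db.card
    · exact Or.inr ⟨hb, h17⟩
    left
    replace hD6 := hD6.resolve_right (by omega)
    have hb0 : Db = ∅ := card_eq_zero.1 (by omega)
    have h1 : ∑ i ∈ D, (B i ∩ X).card ≤ hit B X R := by
      unfold hit
      refine sum_le_sum_of_subset ?_
      intro i hi
      by_contra hn
      have h2 : i ∈ Db := mem_filter.2 ⟨hi, fun h4 => hn (cost_mem_tch.2 h4)⟩
      rw [hb0] at h2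
      exact notMem_empty _ h2
    have h2 : hit B X R ≤ hit B (Q \ R) R := by
      refine hit_mono_left R ?_
      intro v hv
      exact mem_sdiff.2 ⟨hXQ hv, disjoint_left.1 hXR hv⟩
    have h4 := hit_add_fsQ (hr.mono hR) hR
    have h6 := four_ee_le_fs (W := R) h3
    unfold hc at h4
    have h7 : rho B R ≤ 2 := by
      unfold sv at hs
      omega
    have h8 := phi_le Dm.card
    have h9 := Pv_eq (B := B) R
    unfold dv
    rw [h9]
    omega
  rcases hfin with h1 | ⟨hb, h17⟩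
  · unfold phi at h1
    split_ifs at h1 <;> omega
  · omega

section

variable {Q U : Finset V} {T : Finset ι} {F : Finset (Finset V)}

namespace Frm

/-- **the separation lemma**, general form. -/
theorem sep1_gen (h : Frm B Q T U F) (hr : Reg B Q) (ih : IHE.{u} V Q.card) (hs : 1 ≤ sv B Q)
    {j0 : ι} (hj0 : j0 ∈ T)
    (hcl : ∀ Y ⊆ Q, B j0 ∩ Q ⊆ Y → rho B (Q \ Y) + 1 = rho B Q → Conn (gr B) (Q \ Y))
    (hT2 : ∃ j ∈ T, j ≠ j0) {A : Finset (Finset V)} (hA : A ⊆ F) (hne : A.Nonempty)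
    (hp : ∀ j ∈ T, j ≠ j0 → Disjoint (slj B Q F j) A)
    (hX : (uA B U F A).card ≤ A.card + 1)
    (hD5 : 5 ≤ (dA B (uA B U F A) (A.biUnion id)).card)
    (hD6 : 6 ≤ ∑ i ∈ dA B (uA B U F A) (A.biUnion id), (B i ∩ uA B U F A).card ∨
      (rst B Q j0 (uA B U F A) A).card ≠ 5)
    (hDe : 6 ≤ (dA B (uA B U F A) (A.biUnion id)).card ∨ ee B Q (uA B U F A) ≤ 1) :
    ∑ L ∈ A, dv B Q L + 5 * (A.card : ℤ) - 6 ≤ dv B Q Q := by
  classical
  obtain ⟨hrho, href⟩ := h.sep1 hj0 hcl hT2 hA hne hp hX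
  have hpriv := h.priv hj0 hcl hT2 A.card A le_rfl hA hne hp
  have hsep := h.rst_sep hA hp
  set X := uA B U F A with hXdef
  set W := A.biUnion id with hW
  set R := rst B Q j0 X A with hR
  set Y := (B j0 ∩ Q) ∪ X with hY
  have hUQ : U ⊆ Q := h.UD.trans DQ
  have hXU : X ⊆ U := filter_subset _ _
  have hun : Q \ Y = W ∪ R := h.rst_union hj0 hA hXU
  have hRQ : R ⊆ Q := rst_sub
  have hYQ : Y ⊆ Q := union_subset inter_subset_right (hXU.trans hUQ)
  have hWQ : W ⊆ Q := biUnion_subset.2 fun C hC => h.FQ (hA hC)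
  have hcF : ∀ L ∈ A, Cov B L := fun L hL => h.covF L (hA hL)
  have hjX : Disjoint (B j0 ∩ Q) X := disjoint_left.2 fun v hv hv' =>
    (h.T_out hj0 hv).1 (hXU hv')
  have hj3 : (B j0 ∩ Q).card = 3 := by
    obtain ⟨a, b, c, hT, hab, hac, hbc⟩ := h.three_points hj0
    rw [hT]
    exact card_eq_three.2 ⟨a, b, c, hab, hac, hbc, rfl⟩
  have hYc : Y.card = 3 + X.card := by
    rw [hY, card_union_of_disjoint hjX, hj3]
  have hXc : X.card = A.card + 1 := by omega
  have hWR : Disjoint W R := disjoint_sdiff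
  have hQc : Q.card = Y.card + (W.card + R.card) := by
    have h1 := card_sdiff_add_card_eq_card hYQ
    rw [hun, card_union_of_disjoint hWR] at h1
    omega
  have hWc : (W.card : ℤ) - 2 * (∑ C ∈ A, (rho B C : ℤ)) = -(A.card : ℤ) := by
    have h1 := h.sv_leaves hA
    unfold sv at h1
    have h2 : rho B W = ∑ C ∈ A, rho B C := rho_biUnion hcF (h.sepF.mono hA)
    rw [← hW, h2] at h1
    push_cast at h1
    exact h1
  have hrhoZ : (rho B Q : ℤ) = ∑ C ∈ A, (rho B C : ℤ) + rho B R + 2 := by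
    rw [hrho]
    push_cast
    rfl
  have hsR : sv B R = sv B Q := by
    unfold sv
    rw [hQc, hYc, hXc]
    push_cast
    linarith
  have hWne : W.Nonempty := by
    obtain ⟨L, hL⟩ := hne
    obtain ⟨y, hy⟩ := (h.ge.sys.fc L (hA hL)).1
    exact ⟨y, mem_biUnion.2 ⟨L, hL, hy⟩⟩
  have hcore := core_ge (X := X) (W := W) (Y := Y) hr h.reg3 ih h.cov hRQ
    (by
      have := card_pos.2 hWne
      omega) hYQ subset_union_right hun
    (fun p hp' => (href p hp').ge) (by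
      intro K hKR hKcl hKc
      by_contra hcon
      push Not at hcon
      have hQ' : Conn (gr B) (Q \ (B j0 ∩ Q)) :=
        hcl (B j0 ∩ Q) inter_subset_right (Subset.refl _) (h.rho_one hj0)
      have hKQ' : K ⊆ Q \ (B j0 ∩ Q) := by
        intro v hv
        have h1 : v ∈ Q \ Y := by
          rw [hun]
          exact mem_union_right _ (hKR hv)
        exact mem_sdiff.2 ⟨(mem_sdiff.1 h1).1, fun h2 =>
          (mem_sdiff.1 h1).2 (mem_union_left _ h2)⟩
      have hclK : Closed (gr B) (Q \ (B j0 ∩ Q)) K := by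
        refine ⟨hKQ', fun v hv w hw hvw => ?_⟩
        obtain ⟨hwQ, hwj⟩ := mem_sdiff.1 hw
        by_cases hwY : w ∈ Y
        · rcases mem_union.1 hwY with h1 | h1
          · exact (hwj h1).elim
          · exfalso
            obtain ⟨_, i, hi1, hi2⟩ := hvw
            have h2 := hcon i ⟨v, mem_inter.2 ⟨hi1, hv⟩⟩
            have h3 : w ∈ B i ∩ X := mem_inter.2 ⟨hi2, h1⟩
            rw [h2] at h3
            exact notMem_empty _ h3
        · have h1 : w ∈ W ∪ R := by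
            rw [← hun]
            exact mem_sdiff.2 ⟨hwQ, hwY⟩
          rcases mem_union.1 h1 with h2 | h2
          · exfalso
            obtain ⟨_, i, hi1, hi2⟩ := hvw
            exact (hsep i ⟨w, mem_inter.2 ⟨hi2, h2⟩⟩
              ⟨v, mem_inter.2 ⟨hi1, hKR hv⟩⟩).elim
          · exact hKcl.2 v hv w h2 hvw
      have heq := hQ'.2 K hclK hKc.1
      obtain ⟨y, hy⟩ := hWne
      have hyQ : y ∈ Q \ (B j0 ∩ Q) := by
        have h1 : y ∈ Q \ Y := by
          rw [hun]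
          exact mem_union_left _ hy
        exact mem_sdiff.2 ⟨(mem_sdiff.1 h1).1, fun h2 =>
          (mem_sdiff.1 h1).2 (mem_union_left _ h2)⟩
      rw [← heq] at hyQ
      exact disjoint_left.1 hWR hy (hKR hyQ))
    hj3 subset_union_left hjX (by rw [hsR]; omega) hD5 hD6 hDe
  -- the value of the whole set
  have hPv := Pv_sdiff (B := B) (W := Q) (X := Y) hYQ
  have hPWR : Pv B (Q \ Y) = ∑ L ∈ A, Pv B L + Pv B R := by
    rw [hun, Pv_add (cov_biUnion hcF) (h.cov.mono hRQ) hWR hsep,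
      Pv_biUnion hcF (h.sepF.mono hA)]
  have hrQY : (rho B (Q \ Y) : ℤ) = ∑ C ∈ A, (rho B C : ℤ) + rho B R := by
    rw [hun, rho_add (cov_biUnion hcF) (h.cov.mono hRQ) hsep,
      rho_biUnion hcF (h.sepF.mono hA)]
    push_cast
    rfl
  have heQ : ee B Q Q = ee B Q Y + (∑ L ∈ A, ee B Q L + ee B Q R) := by
    have h1 := ee_union (B := B) (Q := Q) (P := Y) (P' := Q \ Y) disjoint_sdiff
    rw [union_sdiff_of_subset hYQ, hun, ee_union hWR, ee_biUnion (h.sepF.mono hA)] at h1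
    exact h1
  have hdA : ∑ L ∈ A, dv B Q L = ∑ L ∈ A, Pv B L - 2 * (∑ L ∈ A, (ee B Q L : ℤ)) := by
    unfold dv
    rw [sum_sub_distrib, ← mul_sum]
  have hdR : dv B Q R = Pv B R - 2 * (ee B Q R : ℤ) := rfl
  have hdQ : dv B Q Q = Pv B Q - 2 * (ee B Q Q : ℤ) := rfl
  rw [hdQ, hPv, hPWR, hrQY, hrhoZ, heQ, hYc, hXc, hdA]
  rw [hdR] at hcore
  push_cast
  linarith

/-- the blocks through a point of `X` missing the leaves of `A`. -/
theorem dp_card (hr : Reg B Q) {A : Finset (Finset V)} {p : V} (hp : p ∈ Q) :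
    5 ≤ (univ.filter (fun i => p ∈ B i ∧ ¬ (B i ∩ A.biUnion id).Nonempty)).card +
      ∑ L ∈ A, hit B {p} L := by
  classical
  have h1 : (univ.filter (fun i => p ∈ B i)).card = 5 := hr p hp
  have h2 : univ.filter (fun i => p ∈ B i) ⊆
      (univ.filter (fun i => p ∈ B i ∧ ¬ (B i ∩ A.biUnion id).Nonempty)) ∪
      A.biUnion (fun L => univ.filter (fun i => p ∈ B i ∧ (B i ∩ L).Nonempty)) := by
    intro i hi
    have hpi := (mem_filter.1 hi).2
    by_cases h3 : (B i ∩ A.biUnion id).Nonempty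
    · obtain ⟨v, hv⟩ := h3
      obtain ⟨hvi, hvA⟩ := mem_inter.1 hv
      obtain ⟨L, hL, hvL⟩ := mem_biUnion.1 hvA
      exact mem_union_right _ (mem_biUnion.2 ⟨L, hL, mem_filter.2
        ⟨mem_univ _, hpi, v, mem_inter.2 ⟨hvi, hvL⟩⟩⟩)
    · exact mem_union_left _ (mem_filter.2 ⟨mem_univ _, hpi, h3⟩)
  have h3 := (card_le_card h2).trans (card_union_le _ _)
  have h4 : (A.biUnion (fun L => univ.filter (fun i => p ∈ B i ∧ (B i ∩ L).Nonempty))).card ≤
      ∑ L ∈ A, hit B {p} L := by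
    refine card_biUnion_le.trans (sum_le_sum fun L _ => ?_)
    rw [hit_eq, sum_singleton]
  omega

/-- **the separation lemma for two points** which see at most `2 + 1` or `1 + 3` blocks at `A`. -/
theorem sep1_two (h : Frm B Q T U F) (hr : Reg B Q) (ih : IHE.{u} V Q.card) (hs : 1 ≤ sv B Q)
    {j0 : ι} (hj0 : j0 ∈ T)
    (hcl : ∀ Y ⊆ Q, B j0 ∩ Q ⊆ Y → rho B (Q \ Y) + 1 = rho B Q → Conn (gr B) (Q \ Y))
    (hT2 : ∃ j ∈ T, j ≠ j0) {A : Finset (Finset V)} (hA : A ⊆ F) (hne : A.Nonempty)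
    (hp : ∀ j ∈ T, j ≠ j0 → Disjoint (slj B Q F j) A)
    (hX : (uA B U F A).card ≤ A.card + 1) {p q : V} (hpX : p ∈ uA B U F A)
    (hqX : q ∈ uA B U F A) (hpq : p ≠ q) (h1 : ∑ L ∈ A, hit B {p} L ≤ 1)
    (h2 : ∑ L ∈ A, hit B {q} L ≤ 3)
    (h12 : (univ.filter (fun i => (p ∈ B i ∧ q ∈ B i) ∧
      ¬ (B i ∩ A.biUnion id).Nonempty)).card + ∑ L ∈ A, hit B {q} L ≤ 4) :
    ∑ L ∈ A, dv B Q L + 5 * (A.card : ℤ) - 6 ≤ dv B Q Q := by
  classical
  have hXU : uA B U F A ⊆ U := filter_subset _ _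
  have hUQ : U ⊆ Q := h.UD.trans DQ
  set X := uA B U F A with hXdef
  set W := A.biUnion id with hW
  set D := dA B X W with hD
  set Dp := univ.filter (fun i => p ∈ B i ∧ ¬ (B i ∩ W).Nonempty) with hDp
  set Dq := univ.filter (fun i => q ∈ B i ∧ ¬ (B i ∩ W).Nonempty) with hDq
  have hcp := dp_card (A := A) hr (hUQ (hXU hpX))
  have hcq := dp_card (A := A) hr (hUQ (hXU hqX))
  rw [← hW, ← hDp] at hcp
  rw [← hW, ← hDq] at hcq
  have hDpD : Dp ⊆ D := by
    intro i hi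
    obtain ⟨_, h3, h4⟩ := mem_filter.1 hi
    exact mem_dA.2 ⟨⟨p, mem_inter.2 ⟨h3, hpX⟩⟩, h4⟩
  have hDqD : Dq ⊆ D := by
    intro i hi
    obtain ⟨_, h3, h4⟩ := mem_filter.1 hi
    exact mem_dA.2 ⟨⟨q, mem_inter.2 ⟨h3, hqX⟩⟩, h4⟩
  have hDpq : Dp ∩ Dq = univ.filter (fun i => (p ∈ B i ∧ q ∈ B i) ∧ ¬ (B i ∩ W).Nonempty) := by
    ext i
    simp only [hDp, hDq, mem_inter, mem_filter, mem_univ, true_and]
    tauto
  have hu := card_union_add_card_inter Dp Dq
  rw [hDpq] at hu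
  have hsub := card_le_card (union_subset hDpD hDqD)
  have hDpc := card_le_card hDpD
  have hD6 : Dp.card + Dq.card ≤ ∑ i ∈ D, (B i ∩ X).card := by
    have e1 : Dp.card = ∑ i ∈ D, if p ∈ B i then 1 else 0 := by
      rw [← card_filter]
      refine congrArg card (subset_antisymm (fun i hi => ?_) (fun i hi => ?_))
      · exact mem_filter.2 ⟨hDpD hi, (mem_filter.1 hi).2.1⟩
      · obtain ⟨h3, h4⟩ := mem_filter.1 hi
        exact mem_filter.2 ⟨mem_univ _, h4, (mem_dA.1 h3).2⟩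
    have e2 : Dq.card = ∑ i ∈ D, if q ∈ B i then 1 else 0 := by
      rw [← card_filter]
      refine congrArg card (subset_antisymm (fun i hi => ?_) (fun i hi => ?_))
      · exact mem_filter.2 ⟨hDqD hi, (mem_filter.1 hi).2.1⟩
      · obtain ⟨h3, h4⟩ := mem_filter.1 hi
        exact mem_filter.2 ⟨mem_univ _, h4, (mem_dA.1 h3).2⟩
    rw [e1, e2, ← sum_add_distrib]
    refine sum_le_sum fun i _ => ?_
    have h3 : (B i ∩ ({p, q} : Finset V)).card ≤ (B i ∩ X).card :=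
      card_le_card (inter_subset_inter_left
        (insert_subset hpX (singleton_subset_iff.2 hqX)))
    refine le_trans ?_ h3
    by_cases hp1 : p ∈ B i
    · by_cases hq1 : q ∈ B i
      · rw [if_pos hp1, if_pos hq1, inter_eq_right.2
          (insert_subset hp1 (singleton_subset_iff.2 hq1)), card_pair hpq]
      · rw [if_pos hp1, if_neg hq1]
        exact card_pos.2 ⟨p, mem_inter.2 ⟨hp1, mem_insert_self _ _⟩⟩
    · by_cases hq1 : q ∈ B i
      · rw [if_neg hp1, if_pos hq1]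
        exact card_pos.2 ⟨q, mem_inter.2 ⟨hq1, mem_insert_of_mem (mem_singleton_self q)⟩⟩
      · rw [if_neg hp1, if_neg hq1]
        exact Nat.zero_le _
  refine h.sep1_gen hr ih hs hj0 hcl hT2 hA hne hp hX
    (show 5 ≤ D.card by omega) (Or.inl (show 6 ≤ ∑ i ∈ D, (B i ∩ X).card by omega))
    (show 6 ≤ D.card ∨ ee B Q X ≤ 1 from ?_)
  by_cases he : ee B Q X ≤ 1
  · exact Or.inr he
  left
  unfold ee at he
  obtain ⟨x, hx, hxp⟩ : ∃ x ∈ X.filter (fun t => 2 ≤ (univ.filter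
      (fun i => B i ∩ Q = {t})).card), x ≠ p := by
    by_contra hcon
    push Not at hcon
    apply he
    have h3 : X.filter (fun t => 2 ≤ (univ.filter (fun i => B i ∩ Q = {t})).card) ⊆ {p} :=
      fun x hx => mem_singleton.2 (hcon x hx)
    exact (card_le_card h3).trans (card_singleton p).le
  obtain ⟨hxX, hx2⟩ := mem_filter.1 hx
  have hdis : Disjoint Dp (univ.filter (fun i => B i ∩ Q = {x})) := by
    rw [disjoint_left]
    intro i h3 h4
    have h5 : p ∈ B i ∩ Q := mem_inter.2 ⟨(mem_filter.1 h3).2.1, hUQ (hXU hpX)⟩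
    rw [(mem_filter.1 h4).2] at h5
    exact hxp (mem_singleton.1 h5).symm
  have hS : univ.filter (fun i => B i ∩ Q = {x}) ⊆ D := by
    intro i hi
    have h3 := (mem_filter.1 hi).2
    have h4 : x ∈ B i ∩ Q := by
      rw [h3]
      exact mem_singleton_self x
    refine mem_dA.2 ⟨⟨x, mem_inter.2 ⟨(mem_inter.1 h4).1, hxX⟩⟩, ?_⟩
    rintro ⟨w, hw⟩
    obtain ⟨hwi, hwW⟩ := mem_inter.1 hw
    obtain ⟨L, hL, hwL⟩ := mem_biUnion.1 hwW
    have h5 : w ∈ B i ∩ Q := mem_inter.2 ⟨hwi, h.FQ (hA hL) hwL⟩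
    rw [h3] at h5
    rw [mem_singleton.1 h5] at hwL
    exact disjoint_left.1 (h.ge.FU L (hA hL)) hwL (hXU hxX)
  have h5 := card_le_card (union_subset hDpD hS)
  rw [card_union_of_disjoint hdis] at h5
  omega

/-- the separation lemma in a violation: one leaf of value at most zero. -/
theorem sep1_viol (h : Frm B Q T U F) (hr : Reg B Q) (ih : IHE.{u} V Q.card) (hs : 1 ≤ sv B Q)
    {j0 : ι} (hj0 : j0 ∈ T)
    (hcl : ∀ Y ⊆ Q, B j0 ∩ Q ⊆ Y → rho B (Q \ Y) + 1 = rho B Q → Conn (gr B) (Q \ Y))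
    (hT2 : ∃ j ∈ T, j ≠ j0) {A : Finset (Finset V)} (hA : A ⊆ F) (hne : A.Nonempty)
    (hp : ∀ j ∈ T, j ≠ j0 → Disjoint (slj B Q F j) A)
    (hX : (uA B U F A).card ≤ A.card + 1) {p q : V} (hpX : p ∈ uA B U F A)
    (hqX : q ∈ uA B U F A) (hpq : p ≠ q) (h1 : ∑ L ∈ A, hit B {p} L ≤ 1)
    (h2 : ∑ L ∈ A, hit B {q} L ≤ 3)
    (h12 : (univ.filter (fun i => (p ∈ B i ∧ q ∈ B i) ∧
      ¬ (B i ∩ A.biUnion id).Nonempty)).card + ∑ L ∈ A, hit B {q} L ≤ 4)
    (hv : dv B Q Q ≤ -1) (hL : ∀ L ∈ A, -1 ≤ dv B Q L) :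
    A.card = 1 ∧ ∀ L ∈ A, dv B Q L ≤ 0 := by
  classical
  have h3 := h.sep1_two hr ih hs hj0 hcl hT2 hA hne hp hX hpX hqX hpq h1 h2 h12
  have h4 : -(A.card : ℤ) ≤ ∑ L ∈ A, dv B Q L := by
    have h5 : ∑ L ∈ A, (-1 : ℤ) ≤ ∑ L ∈ A, dv B Q L := sum_le_sum hL
    rw [sum_const, nsmul_eq_mul] at h5
    linarith
  have h6 := card_pos.2 hne
  have h7 : A.card = 1 := by omega
  refine ⟨h7, fun L hLA => ?_⟩
  obtain ⟨L', hL'⟩ := card_eq_one.1 h7
  rw [hL'] at hLA
  rw [mem_singleton.1 hLA]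
  rw [h7, hL', sum_singleton] at h3
  push_cast at h3
  linarith

end Frm

end

end Pool.Agent.Hyp6
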