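import Mathlib
import Pool.Agent.Hyp6.L3Ra

/-!
# HYP6 L3Sc: the defect of Rado, circuits of stars
-/

set_option autoImplicit false

namespace Pool.Agent.Hyp6.Sp

open Finset

section

variable {V : Type*} [DecidableEq V] {κ : Type*} [DecidableEq κ] {n : Finset V → ℤ}

/-- the dependency of the subfamily `K` relative to `X`. -/
def rv (n : Finset V → ℤ) (X : Finset V) (A : κ → Finset V) (K : Finset κ) : ℤ :=
  (K.card : ℤ) + rkn n X - rkn n (X ∪ K.biUnion A)

variable {X : Finset V} {A : κ → Finset V} {J K K' : Finset κ}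

omit [DecidableEq κ] in
theorem radoC_iff : RadoC n X J A ↔ ∀ K ⊆ J, rv n X A K ≤ 0 := by
  unfold RadoC rv
  refine forall₂_congr fun K _ => ?_
  constructor <;> intro h <;> linarith

omit [DecidableEq κ] in
theorem rv_empty : rv n X A ∅ = 0 := by
  unfold rv
  simp

omit [DecidableEq κ] in
theorem RadoC.mono (h : RadoC n X J A) (hK : K ⊆ J) : RadoC n X K A :=
  fun K' hK' => h K' (hK'.trans hK)

theorem Nul.rv_super (h : Nul n) (K K' : Finset κ) :
    rv n X A K + rv n X A K' ≤ rv n X A (K ∪ K') + rv n X A (K ∩ K') := by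
  unfold rv
  have h1 := h.rk_sub (X ∪ K.biUnion A) (X ∪ K'.biUnion A)
  have h2 : (X ∪ K.biUnion A) ∪ (X ∪ K'.biUnion A) = X ∪ (K ∪ K').biUnion A := by
    ext z
    simp only [mem_union, mem_biUnion]
    constructor
    · rintro ((hz | ⟨i, hi, hz⟩) | (hz | ⟨i, hi, hz⟩))
      · exact Or.inl hz
      · exact Or.inr ⟨i, Or.inl hi, hz⟩
      · exact Or.inl hz
      · exact Or.inr ⟨i, Or.inr hi, hz⟩
    · rintro (hz | ⟨i, hi | hi, hz⟩)
      · exact Or.inl (Or.inl hz)
      · exact Or.inl (Or.inr ⟨i, hi, hz⟩)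
      · exact Or.inr (Or.inr ⟨i, hi, hz⟩)
  have h3 : rkn n (X ∪ (K ∩ K').biUnion A) ≤
      rkn n ((X ∪ K.biUnion A) ∩ (X ∪ K'.biUnion A)) := by
    refine h.rk_mono ?_
    intro z hz
    rcases mem_union.1 hz with hz | hz
    · exact mem_inter.2 ⟨mem_union_left _ hz, mem_union_left _ hz⟩
    · obtain ⟨i, hi, hz⟩ := mem_biUnion.1 hz
      obtain ⟨hi1, hi2⟩ := mem_inter.1 hi
      exact mem_inter.2 ⟨mem_union_right _ (mem_biUnion.2 ⟨i, hi1, hz⟩),
        mem_union_right _ (mem_biUnion.2 ⟨i, hi2, hz⟩)⟩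
  have h4 := card_union_add_card_inter K K'
  have h4' : ((K ∪ K').card : ℤ) + (K ∩ K').card = K.card + K'.card := by exact_mod_cast h4
  rw [h2] at h1
  linarith

/-- dropping elements lowers the dependency by at most their number. -/
theorem Nul.rv_le_add (h : Nul n) (hK : K' ⊆ K) :
    rv n X A K ≤ rv n X A K' + (K \ K').card := by
  unfold rv
  have h1 := h.rk_mono (union_subset_union (Subset.refl X) (biUnion_subset_biUnion_of_subset_left A hK))
  have h2 := card_sdiff_add_card_eq_card hK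
  have h2' : ((K \ K').card : ℤ) + K'.card = K.card := by exact_mod_cast h2
  linarith

/-- **the circuit**: if the dependency is at most one and not zero, there is a subfamily `C` such
that every subfamily not containing `C` is free. -/
theorem Nul.exists_circuit (h : Nul n) (h1 : ∀ K ⊆ J, rv n X A K ≤ 1)
    (h2 : ¬ RadoC n X J A) :
    ∃ C ⊆ J, rv n X A C = 1 ∧ ∀ I ⊆ J, ¬ C ⊆ I → RadoC n X I A := by
  rw [radoC_iff] at h2
  push Not at h2
  obtain ⟨K0, hK0, hk0⟩ := h2
  obtain ⟨C, hC, hmin⟩ := Finset.exists_min_image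
    (J.powerset.filter (fun K => rv n X A K = 1)) Finset.card
    ⟨K0, mem_filter.2 ⟨mem_powerset.2 hK0, le_antisymm (h1 K0 hK0) (by omega)⟩⟩
  obtain ⟨hCJ, hC1⟩ := mem_filter.1 hC
  rw [mem_powerset] at hCJ
  refine ⟨C, hCJ, hC1, fun I hI hCI => radoC_iff.2 fun K hK => ?_⟩
  by_contra hcon
  push Not at hcon
  have hKJ := hK.trans hI
  have hK1 : rv n X A K = 1 := le_antisymm (h1 K hKJ) (by omega)
  have h3 := h.rv_super (X := X) (A := A) C K
  have h4 := h1 (C ∪ K) (union_subset hCJ hKJ)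
  have h5 := h1 (C ∩ K) (inter_subset_left.trans hCJ)
  have h6 : rv n X A (C ∩ K) = 1 := by linarith
  have h7 := hmin (C ∩ K) (mem_filter.2 ⟨mem_powerset.2 (inter_subset_left.trans hCJ), h6⟩)
  have h8 : C ∩ K = C := eq_of_subset_of_card_le inter_subset_left h7
  exact hCI ((inter_eq_left.1 h8).trans hK)

/-- lines through `w`: the dependency is monotone. -/
theorem rv_mono {w : V} (hord : ∀ t ∈ J, ∀ S, w ∈ S →
    rkn n (S ∪ A t) ≤ rkn n S + 1) (hK : K ⊆ K') (hK' : K' ⊆ J) :
    rv n {w} A K ≤ rv n {w} A K' := by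
  have key : ∀ D : Finset κ, D ⊆ J → rv n {w} A K ≤ rv n {w} A (K ∪ D) := by
    intro D
    induction D using Finset.induction_on with
    | empty =>
      intro _
      rw [union_empty]
    | insert t D ht ih =>
      intro hD
      have h1 := ih ((subset_insert t D).trans hD)
      rw [union_insert]
      by_cases htK : t ∈ K ∪ D
      · rw [insert_eq_of_mem htK]
        exact h1
      · unfold rv at h1 ⊢
        rw [card_insert_of_notMem htK, biUnion_insert]
        have h2 := hord t (hD (mem_insert_self t D)) ({w} ∪ (K ∪ D).biUnion A)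
          (mem_union_left _ (mem_singleton_self w))
        have h3 : ({w} : Finset V) ∪ (A t ∪ (K ∪ D).biUnion A) =
            {w} ∪ (K ∪ D).biUnion A ∪ A t := by
          ext z
          simp only [mem_union]
          tauto
        rw [h3]
        push_cast
        linarith
  have h1 := key K' hK'
  rwa [union_eq_right.2 hK] at h1

omit [DecidableEq κ] in
/-- the size of a dependent subfamily. -/
theorem rv_card_ge {w : V} (hw : rkn n {w} = 1)
    (hsp : (K.card : ℤ) ≤ 2 * rkn n ({w} ∪ K.biUnion A) - 3) :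
    2 * rv n {w} A K + 1 ≤ K.card := by
  unfold rv
  rw [hw]
  linarith

end

section

variable {V : Type*} [DecidableEq V] {τ : Type*} [DecidableEq τ] {n : Finset V → ℤ}
variable {Vs : Finset V} {Ts : Finset τ} {l : τ → Finset V}

omit [DecidableEq τ] in
/-- the dependency of a star of lines is the dependency of Rado. -/
theorem rv_eq_nst {W : V} (hW : rkn n {W} = 1) (S : Finset τ) :
    rv n {W} l S = nst n l W S := by
  unfold rv nst
  rw [hW, singleton_union]

omit [DecidableEq τ] in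
/-- a line through `W` raises the rank by at most one. -/
theorem Lin.rk_add_line (h : Nul n) (hL : Lin n Vs Ts l) {T : τ} (hT : T ∈ Ts) {W : V}
    (hW : W ∈ l T) (hW1 : 1 ≤ rkn n {W}) {S : Finset V} (hS : W ∈ S) :
    rkn n (S ∪ l T) ≤ rkn n S + 1 := by
  have h1 := h.rk_sub S (l T)
  have h2 : rkn n (l T) = 2 := by
    unfold rkn
    rw [hL.nl T hT]
    ring
  have h3 : rkn n {W} ≤ rkn n (S ∩ l T) :=
    h.rk_mono (singleton_subset_iff.2 (mem_inter.2 ⟨hS, hW⟩))
  linarith

/-- **any choice of far nodes on the lines of a free star is free.** -/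
theorem Lin.star_choice (h : Nul n) (hL : Lin n Vs Ts l) {W : V} {S : Finset τ} (hS : S ⊆ Ts)
    (hW : ∀ T ∈ S, W ∈ l T) (hW1 : rkn n {W} = 1) (h0 : nst n l W S ≤ 0) {Y : τ → V}
    (hY : ∀ T ∈ S, Y T ∈ l T ∧ Y T ≠ W) :
    Set.InjOn Y S ∧ (∀ T ∈ S, Y T ≠ W) ∧ n ({W} ∪ S.image Y) = n {W} := by
  have h1 := hL.cls_star h hS hW (X := {W} ∪ S.image Y)
    (mem_union_left _ (mem_singleton_self W)) (fun T hT => ⟨Y T, (hY T hT).1, (hY T hT).2,
      mem_union_right _ (mem_image_of_mem Y hT)⟩)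
  have h2 : rkn n (insert W (S.biUnion l)) ≤
      rkn n ({W} ∪ S.image Y ∪ insert W (S.biUnion l)) := h.rk_mono subset_union_right
  have h3 : rkn n {W} + S.card ≤ rkn n ({W} ∪ S.image Y) := by
    unfold nst at h0
    rw [hW1]
    linarith
  obtain ⟨h4, -, h6⟩ := h.free_of_rk h3
  exact ⟨h4, fun T hT => (hY T hT).2, h6⟩

end

end Pool.Agent.Hyp6.Sp
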