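import Pool.Agent.Hyp6.L3St
import Pool.Agent.Hyp6.L3Cnt
import Pool.Agent.Hyp6.L3Sc

/-!
# HYP6 L3SAll: the star inequality for one class

All cases of the star inequality `2 e + Sum d <= Pp + 4 n`: closings of free stars, of stars with one
circuit, and the count.
-/

set_option autoImplicit false

namespace Pool.Agent.Hyp6

open Finset Pool.Agent.Hyp5

universe u v

variable {V : Type v} [DecidableEq V] {ι : Type u} [Fintype ι] {B : ι → Finset V}

/-- restricting the cost hypothesis to a subfamily. -/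
theorem cost_sub {W : Finset V} {τ : Type u} {T X : τ → Finset V} {S : Finset τ}
    {Pd : Finset τ → Prop} (hcost : ∀ (I : Finset τ) (f g r : τ → V), I ⊆ S → Pd I → Thirds B T X I f g r →
      rho B W + I.card ≤ rho B (W ∪ (I.image f ∪ I.image g)))
    (I : Finset {t // t ∈ S}) (f g r : {t // t ∈ S} → V)
    (hP : Pd (I.map ⟨Subtype.val, Subtype.val_injective⟩))
    (hI : Thirds B (fun t : {t // t ∈ S} => T t.1) (fun t => X t.1) I f g r) :
    rho B W + I.card ≤ rho B (W ∪ (I.image f ∪ I.image g)) := by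
  classical
  set I' : Finset τ := I.map ⟨Subtype.val, Subtype.val_injective⟩ with hI'
  rcases I.eq_empty_or_nonempty with h0 | ⟨t0, _⟩
  · subst h0
    simp
  have hx : ∀ h : {t // t ∈ S} → V, ∃ h' : τ → V, ∀ t : {t // t ∈ S}, h' t.1 = h t := by
    intro h
    exact ⟨fun t => if ht : t ∈ S then h ⟨t, ht⟩ else h t0, fun t => by simp [t.2]⟩
  obtain ⟨f', hf'⟩ := hx f
  obtain ⟨g', hg'⟩ := hx g
  obtain ⟨r', hr'⟩ := hx r
  have hsub : I' ⊆ S := by
    intro t ht
    rw [hI', mem_map] at ht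
    obtain ⟨s, _, rfl⟩ := ht
    exact s.2
  have h1 := hcost I' f' g' r' hsub hP (by
    intro t ht
    rw [hI', mem_map] at ht
    obtain ⟨s, hs, rfl⟩ := ht
    simp only [Function.Embedding.coeFn_mk]
    rw [hf', hg', hr']
    exact hI s hs)
  have him : ∀ (h : {t // t ∈ S} → V) (h' : τ → V), (∀ t : {t // t ∈ S}, h' t.1 = h t) →
      I'.image h' = I.image h := by
    intro h h' hh
    ext v
    simp only [hI', mem_image, mem_map, Function.Embedding.coeFn_mk]
    constructor
    · rintro ⟨t, ⟨s, hs, rfl⟩, rfl⟩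
      exact ⟨s, hs, (hh s).symm⟩
    · rintro ⟨s, hs, rfl⟩
      exact ⟨s.1, ⟨s, hs, rfl⟩, hh s⟩
  rw [him f f' hf', him g g' hg', hI', card_map] at h1
  exact h1

/-- the geometry of a star at `W`. -/
structure SG (B : ι → Finset V) (Q W : Finset V) {τ : Type u} (T : τ → Finset V) (S : Finset τ) :
    Prop where
  WQ : W ⊆ Q
  lt : W.card < Q.card
  out : ∀ t ∈ S, T t ⊆ Q \ W
  c3 : ∀ t ∈ S, (T t).card = 3
  dis : ∀ s ∈ S, ∀ t ∈ S, s ≠ t → Disjoint (T s) (T t)
  reg : Reg B Q
  tr : Tr3 B Q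
  conn : Conn (gr B) W

theorem SG.mono {Q W : Finset V} {τ : Type u} {T : τ → Finset V} {S S' : Finset τ}
    (h : SG B Q W T S) (hS : S' ⊆ S) : SG B Q W T S' :=
  ⟨h.WQ, h.lt, fun t ht => h.out t (hS ht), fun t ht => h.c3 t (hS ht),
    fun s hs t ht => h.dis s (hS hs) t (hS ht), h.reg, h.tr, h.conn⟩

/-- free star on a subfamily. -/
theorem star0S {Q W : Finset V} {τ : Type u} {T X : τ → Finset V} {d : τ → ℕ} {S : Finset τ}
    (hg : SG B Q W T S) (hD : ∀ t ∈ S, Dem B W (X t) (T t) (d t))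
    (hcost : ∀ (I : Finset τ) (f g r : τ → V), I ⊆ S → Thirds B T X I f g r →
      rho B W + I.card ≤ rho B (W ∪ (I.image f ∪ I.image g)))
    (ih : IHE.{u} V Q.card) (hKW : ¬ KT B W) (hs : sv B W ≤ 0) :
    2 * (ee B Q W : ℤ) + ∑ t ∈ S, (d t : ℤ) ≤ Pp B W := by
  classical
  have h1 := star0 (τ := {t // t ∈ S}) (T := fun t => T t.1) (X := fun t => X t.1)
    (d := fun t => d t.1) (Q := Q) (W := W) (fun t => hD t.1 t.2) hg.WQ hg.lt
    (fun t => hg.out t.1 t.2) (fun t => hg.c3 t.1 t.2)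
    (fun s t hst => hg.dis s.1 s.2 t.1 t.2 fun he => hst (Subtype.ext he))
    (fun I f g r hI => cost_sub (Pd := fun _ => True)
      (fun I f g r hI _ hT => hcost I f g r hI hT) I f g r trivial hI) ih hg.reg hg.tr hg.conn hKW
  have h2 := h1.2 hs
  have h3 : ∑ t : {t // t ∈ S}, (d t.1 : ℤ) = ∑ t ∈ S, (d t : ℤ) :=
    Finset.sum_coe_sort S (fun t => (d t : ℤ))
  rwa [h3] at h2

/-- star with one circuit on a subfamily. -/
theorem star1S {Q W : Finset V} {τ : Type u} [DecidableEq τ] {T X : τ → Finset V} {d : τ → ℕ}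
    {S C : Finset τ} (hg : SG B Q W T S) (hCS : C ⊆ S)
    (hD : ∀ t ∈ S, Dem B W (X t) (T t) (d t)) (hC3 : 3 ≤ C.card)
    (hone : ∀ s ∈ C, ∀ t ∈ C, 6 < d s → 6 < d t → s = t)
    (hC : ∀ t ∈ C, 5 ≤ d t ∧ (d t ≤ 6 ∨ 9 ≤ d t))
    (hcost : ∀ (I : Finset τ) (f g r : τ → V), I ⊆ S → ¬ C ⊆ I → Thirds B T X I f g r →
      rho B W + I.card ≤ rho B (W ∪ (I.image f ∪ I.image g)))
    (ih : IHE.{u} V Q.card) (hs : sv B W + 1 ≤ 0) :
    2 * (ee B Q W : ℤ) + ∑ t ∈ S, (d t : ℤ) ≤ Pp B W + 4 := by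
  classical
  set C' : Finset {t // t ∈ S} := univ.filter (fun t => t.1 ∈ C) with hC'
  have hmap : ∀ I : Finset {t // t ∈ S}, C ⊆ I.map ⟨Subtype.val, Subtype.val_injective⟩ →
      C' ⊆ I := by
    intro I hI t ht
    have h1 := hI (mem_filter.1 ht).2
    rw [mem_map] at h1
    obtain ⟨s, hs, he⟩ := h1
    have h2 : s = t := Subtype.ext he
    rwa [← h2]
  have hcard : C'.card = C.card := by
    have h1 : C'.map ⟨Subtype.val, Subtype.val_injective⟩ = C := by
      ext t
      rw [mem_map]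
      constructor
      · rintro ⟨s, hs, rfl⟩
        exact (mem_filter.1 hs).2
      · intro ht
        exact ⟨⟨t, hCS ht⟩, mem_filter.2 ⟨mem_univ _, ht⟩, rfl⟩
    rw [← h1, card_map]
  obtain ⟨t1, ht1⟩ : C.Nonempty := card_pos.1 (by omega)
  have ht0 : ∃ t0 : {t // t ∈ S}, ∀ t ∈ C', 6 < d t.1 → t = t0 := by
    by_cases hex : ∃ t ∈ C', 6 < d t.1
    · obtain ⟨t0, ht0, hd0⟩ := hex
      exact ⟨t0, fun t ht hd => Subtype.ext
        (hone t.1 (mem_filter.1 ht).2 t0.1 (mem_filter.1 ht0).2 hd hd0)⟩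
    · push Not at hex
      exact ⟨⟨t1, hCS ht1⟩, fun t ht hd => absurd hd (not_lt.2 (hex t ht))⟩
  obtain ⟨t0, ht0⟩ := ht0
  have h1 := star1 (τ := {t // t ∈ S}) (T := fun t => T t.1) (X := fun t => X t.1)
    (d := fun t => d t.1) (Q := Q) (W := W) (C := C') (t0 := t0) (fun t => hD t.1 t.2)
    (by omega) (fun t ht => by
      obtain ⟨h1, h2⟩ := hC t.1 (mem_filter.1 ht).2
      refine ⟨h1, ?_⟩
      rcases h2 with h2 | h2
      · exact Or.inl h2
      · exact Or.inr ⟨ht0 t ht (by omega), h2⟩) hg.WQ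
    (fun t => hg.out t.1 t.2) (fun t => hg.c3 t.1 t.2)
    (fun s t hst => hg.dis s.1 s.2 t.1 t.2 fun he => hst (Subtype.ext he))
    (fun I f g r hCI hI => cost_sub (Pd := fun J => ¬ C ⊆ J) hcost I f g r
      (fun h => hCI (hmap I h)) hI) ih hg.reg hg.tr hg.conn hs
  have h3 : ∑ t : {t // t ∈ S}, (d t.1 : ℤ) = ∑ t ∈ S, (d t : ℤ) :=
    Finset.sum_coe_sort S (fun t => (d t : ℤ))
  rwa [h3] at h1

/-- **the star inequality** for one class `W`: `S` the elements with demands, `Sb` the elements of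
type B, far sets `A` in the matroid `n`, `no` a bound for the dependency of the ordinary star. -/
theorem star_all {Q W : Finset V} {τ : Type u} [DecidableEq τ] {T X : τ → Finset V}
    {d : τ → ℕ} {S Sb : Finset τ} {K w' : ℕ} (hg : SG B Q W T S) (hSb : Sb ⊆ S)
    {κ : Type*} [DecidableEq κ] {n : Finset κ → ℤ} (hn : Sp.Nul n) {w : κ} {A : τ → Finset κ}
    (hw : Sp.rkn n {w} = 1)
    (hsp : ∀ J ⊆ S, J.Nonempty → (J.card : ℤ) ≤ 2 * Sp.rkn n ({w} ∪ J.biUnion A) - 3)
    (hord : ∀ t ∈ S, t ∉ Sb → ∀ R, w ∈ R → Sp.rkn n (R ∪ A t) ≤ Sp.rkn n R + 1)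
    {no : ℕ} (hno : Sp.rv n {w} A (S \ Sb) ≤ no)
    (hdo : ∀ t ∈ S, t ∉ Sb → Dem B W (X t) (T t) (d t))
    (hdb : ∀ t ∈ Sb, Dem B W (X t) (T t) 10) (hd6 : ∀ t ∈ S, d t ≤ 6)
    (hde : ∀ t ∈ S, d t % 2 = 0) (hhit : ∀ t ∈ S, 1 ≤ hit B (T t) W)
    (hcost : ∀ (I : Finset τ) (f g r : τ → V), I ⊆ S → Sp.RadoC n {w} I A →
      Thirds B T X I f g r → rho B W + I.card ≤ rho B (W ∪ (I.image f ∪ I.image g)))
    (ih : IHE.{u} V Q.card) (hKW : ¬ KT B W) (hCn : Cn B Q W K w')
    (hK : (K : ℤ) ≤ 2 * (sv B W + 1)) (hsv : -1 ≤ sv B W) :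
    2 * (ee B Q W : ℤ) + ∑ t ∈ S, (d t : ℤ) ≤ Pp B W + 4 * (no : ℤ) := by
  classical
  have hSD : StarD B Q W S Sb T (fun t => (d t : ℤ)) := by
    refine ⟨hSb, hg.out, hg.dis, fun t ht => by exact_mod_cast hd6 t ht, fun t ht => ?_,
      fun t ht => ?_, fun t ht => ?_⟩
    · have := hde t ht
      show (d t : ℤ) % 2 = 0
      omega
    · by_cases htb : t ∈ Sb
      · exact ((hdb t htb).mono (show d t ≤ 10 by have := hd6 t ht; omega)).ord (hd6 t ht)
          (hde t ht) (hhit t ht)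
      · exact (hdo t ht htb).ord (hd6 t ht) (hde t ht) (hhit t ht)
    · rcases hdb t ht with h0 | ⟨J1, J2, E1, E2, hO, hv⟩
      · omega
      · have h4 := hO.le4
        have h5 := hO.le5
        have h6 : E2.card = 4 := by
          split_ifs at hv <;> push_cast at hv <;> omega
        exact hO.typb h6 (by exact_mod_cast hd6 t (hSb ht))
  have hn0 : (0 : ℤ) ≤ no := by positivity
  have hcb : ∑ t ∈ S, (d t : ℤ) ≤ ∑ t ∈ S, ((if t ∈ Sb then 10 else d t : ℕ) : ℤ) -
      4 * (Sb.card : ℤ) := by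
    have h1 : ∀ t ∈ S, (d t : ℤ) + (if t ∈ Sb then 4 else 0) ≤
        ((if t ∈ Sb then 10 else d t : ℕ) : ℤ) := by
      intro t ht
      have := hd6 t ht
      split_ifs <;> push_cast <;> omega
    have h2 := sum_le_sum h1
    rw [sum_add_distrib, ← sum_filter, filter_mem_eq_inter, inter_eq_right.2 hSb, sum_const,
      nsmul_eq_mul] at h2
    linarith
  have hDem : ∀ t ∈ S, Dem B W (X t) (T t) (if t ∈ Sb then 10 else d t) := by
    intro t ht
    split_ifs with h
    · exact hdb t h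
    · exact hdo t ht h
  -- free families
  have hfree : ∀ J ⊆ S, Sp.RadoC n {w} J A → sv B W ≤ 0 →
      2 * (ee B Q W : ℤ) + ∑ t ∈ J, ((if t ∈ Sb then 10 else d t : ℕ) : ℤ) ≤ Pp B W := by
    intro J hJ hR hs
    exact star0S (hg.mono hJ) (fun t ht => hDem t (hJ ht))
      (fun I f g r hI hT => hcost I f g r (hI.trans hJ) (hR.mono hI) hT) ih hKW hs
  -- the size of dependent families
  have hsize : ∀ J ⊆ S, 2 * Sp.rv n {w} A J + 1 ≤ J.card ∨ J = ∅ := by
    intro J hJ
    rcases J.eq_empty_or_nonempty with h0 | hne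
    · exact Or.inr h0
    · exact Or.inl (Sp.rv_card_ge hw (hsp J hJ hne))
  have hb0 : (0 : ℤ) ≤ Sb.card := by positivity
  by_cases hR : Sp.RadoC n {w} S A
  · by_cases hs : sv B W ≤ 0
    · have h1 := hfree S (Subset.refl _) hR hs
      linarith
    · have h1 := star_pos hCn hSD (by omega) hK
      linarith
  -- a dependent family
  rcases lt_or_ge 0 (sv B W) with hs | hs
  · have h1 := star_pos hCn hSD (by omega) hK
    linarith
  have hR' := hR
  rw [Sp.radoC_iff] at hR'
  push Not at hR'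
  obtain ⟨J0, hJ0, hj0⟩ := hR'
  have h3 : 3 ≤ S.card := by
    rcases hsize J0 hJ0 with h1 | h1
    · have := card_le_card hJ0
      omega
    · subst h1
      rw [Sp.rv_empty] at hj0
      omega
  -- the dependency of the ordinary star
  have hordm : ∀ J ⊆ S, J ∩ Sb = ∅ → Sp.rv n {w} A J ≤ no := by
    intro J hJ hb
    refine le_trans (Sp.rv_mono (J := S \ Sb) (K' := S \ Sb) ?_ ?_ (Subset.refl _)) hno
    · intro t ht R hR
      obtain ⟨h1, h2⟩ := mem_sdiff.1 ht
      exact hord t h1 h2 R hR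
    · intro t ht
      refine mem_sdiff.2 ⟨hJ ht, fun hb' => ?_⟩
      have : t ∈ J ∩ Sb := mem_inter.2 ⟨ht, hb'⟩
      rw [hb] at this
      exact notMem_empty _ this
  have hsplit : ∀ J ⊆ S, Sp.rv n {w} A J ≤ no + (J ∩ Sb).card := by
    intro J hJ
    have h1 := hn.rv_le_add (X := {w}) (A := A) (K := J) (K' := J \ Sb) sdiff_subset
    have h2 := hordm (J \ Sb) (sdiff_subset.trans hJ) (by
      rw [eq_empty_iff_forall_notMem]
      intro t ht
      obtain ⟨h1, h2⟩ := mem_inter.1 ht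
      exact (mem_sdiff.1 h1).2 h2)
    rw [sdiff_sdiff_right_self] at h1
    have h3 : (J ⊓ Sb).card = (J ∩ Sb).card := rfl
    rw [h3] at h1
    linarith
  rcases Nat.eq_zero_or_pos (no + Sb.card) with hz | hz
  · -- no dependency possible
    exfalso
    have h1 := hsplit J0 hJ0
    have h2 := card_le_card (inter_subset_right : J0 ∩ Sb ⊆ Sb)
    have h4 : ((no + (J0 ∩ Sb).card : ℕ) : ℤ) ≤ 0 := by
      have : no + (J0 ∩ Sb).card ≤ 0 := by omega
      exact_mod_cast this
    push_cast at h4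
    linarith
  by_cases hs0 : sv B W = 0
  · -- value zero
    have h1 := star_zero hCn hSD hs0 (by omega) h3 (n := no) (by omega)
    linarith
  -- value -1
  have hs1 : sv B W = -1 := by omega
  have hK0 : K = 0 := by omega
  subst hK0
  by_cases h2 : ∀ J ⊆ S, Sp.rv n {w} A J ≤ 1
  · -- one circuit
    obtain ⟨C, hCS, hC1, hCI⟩ := hn.exists_circuit h2 hR
    have hC3 : 3 ≤ C.card := by
      rcases hsize C hCS with h4 | h4
      · rw [hC1] at h4
        omega
      · subst h4
        rw [Sp.rv_empty] at hC1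
        omega
    have hdropR : ∀ t ∈ C, Sp.RadoC n {w} (S.erase t) A := by
      intro t ht
      exact hCI (S.erase t) (erase_subset _ _) fun h => (mem_erase.1 (h ht)).1 rfl
    have hdrop : ∀ t ∈ C, 2 * (ee B Q W : ℤ) +
        ∑ t' ∈ S, ((if t' ∈ Sb then 10 else d t' : ℕ) : ℤ) ≤
        Pp B W + ((if t ∈ Sb then 10 else d t : ℕ) : ℤ) := by
      intro t ht
      have h4 := hfree (S.erase t) (erase_subset _ _) (hdropR t ht) (by omega)
      have h5 := add_sum_erase S (fun t' => ((if t' ∈ Sb then 10 else d t' : ℕ) : ℤ)) (hCS ht)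
      linarith
    by_cases hb3 : 3 ≤ Sb.card
    · have h4 := star_neg_b3 hCn hSD hs1 hb3
      linarith
    by_cases hb2 : Sb.card = 2
    · -- an ordinary element of the circuit
      obtain ⟨t, ht, htb⟩ : ∃ t ∈ C, t ∉ Sb := by
        by_contra hcon
        push Not at hcon
        have := card_le_card (show C ⊆ Sb from hcon)
        omega
      have h4 := hdrop t ht
      rw [if_neg htb] at h4
      have h5 := hd6 t (hCS ht)
      have hb2' : (Sb.card : ℤ) = 2 := by exact_mod_cast hb2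
      have h5' : (d t : ℤ) ≤ 6 := by exact_mod_cast h5
      linarith
    · have hb1 : Sb.card ≤ 1 := by omega
      have hn1 : 1 ≤ no + Sb.card := hz
      by_cases hlow : ∃ t ∈ C, t ∉ Sb ∧ d t ≤ 4
      · obtain ⟨t, ht, htb, hd4⟩ := hlow
        have h4 := hdrop t ht
        rw [if_neg htb] at h4
        have h5' : (d t : ℤ) ≤ 4 := by exact_mod_cast hd4
        have h6 : (1 : ℤ) ≤ no + Sb.card := by exact_mod_cast hn1
        linarith
      · push Not at hlow
        have h4 := star1S (d := fun t => if t ∈ Sb then 10 else d t) hg hCS hDem hC3 (by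
            intro s hs' t ht' hds hdt
            have hsb : s ∈ Sb := by
              by_contra hcon
              rw [if_neg hcon] at hds
              have := hd6 s (hCS hs')
              omega
            have htb : t ∈ Sb := by
              by_contra hcon
              rw [if_neg hcon] at hdt
              have := hd6 t (hCS ht')
              omega
            exact card_le_one.1 hb1 s hsb t htb) (by
            intro t ht
            by_cases htb : t ∈ Sb
            · rw [if_pos htb]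
              exact ⟨by norm_num, Or.inr (by norm_num)⟩
            · rw [if_neg htb]
              have h5 := hlow t ht htb
              exact ⟨by omega, Or.inl (hd6 t (hCS ht))⟩)
          (fun I f g r hI hCI' hT => hcost I f g r hI (hCI I hI hCI') hT) ih (by omega)
        have h6 : (1 : ℤ) ≤ no + Sb.card := by exact_mod_cast hn1
        linarith
  · -- at least two
    push Not at h2
    obtain ⟨J, hJ, hj⟩ := h2
    have h5 : 5 ≤ S.card := by
      rcases hsize J hJ with h4 | h4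
      · have := card_le_card hJ
        omega
      · subst h4
        rw [Sp.rv_empty] at hj
        omega
    have h6 := hsplit J hJ
    have h7 := card_le_card (inter_subset_right : J ∩ Sb ⊆ Sb)
    have h8 : 2 ≤ no + Sb.card := by
      have : (2 : ℤ) ≤ no + (J ∩ Sb).card := by linarith
      have : 2 ≤ no + (J ∩ Sb).card := by exact_mod_cast this
      omega
    have h9 := star_neg2 hCn hSD hs1 h5 (n := no) h8
    linarith

end Pool.Agent.Hyp6
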