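import Mathlib
import Pool.Agent.Hyp6.L3Sp

/-!
# HYP6 L3Sp3: the sparse lemma with additional circuits

The circuits `D g` contain disjoint lines with two nodes and have at most two nodes more than lines
(for example two disjoint lines in a plane).
-/

set_option autoImplicit false

namespace Pool.Agent.Hyp6.Sp

open Finset

section

variable {V : Type*} [DecidableEq V] {τ : Type*} [DecidableEq τ] {γ : Type*} [DecidableEq γ]

/-- the additional circuits. -/
structure Crc (n : Finset V → ℤ) (Vs : Finset V) (Ts : Finset τ) (l : τ → Finset V)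
    (G : Finset γ) (D : γ → Finset V) (tl : γ → Finset τ) : Prop where
  sub : ∀ g ∈ G, D g ⊆ Vs
  ne : ∀ g ∈ G, (D g).Nonempty
  er : ∀ g ∈ G, ∀ e ∈ D g, n ((D g).erase e) + 1 ≤ n (D g)
  tsub : ∀ g ∈ G, tl g ⊆ Ts
  tcard : ∀ g ∈ G, ∀ T ∈ tl g, (l T).card = 2
  tD : ∀ g ∈ G, ∀ T ∈ tl g, l T ⊆ D g
  tdis : ∀ g ∈ G, ∀ T ∈ tl g, ∀ T' ∈ tl g, T ≠ T' → Disjoint (l T) (l T')
  card : ∀ g ∈ G, (D g).card ≤ (tl g).card + 2
  gdis : ∀ g ∈ G, ∀ g' ∈ G, g ≠ g' → Disjoint (tl g) (tl g')

variable {n : Finset V → ℤ} {Vs : Finset V} {Ts : Finset τ} {l : τ → Finset V}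
variable {C E : Finset V} {S : V → Finset τ} {R : Finset τ} {k : τ → ℕ}
variable {G H : Finset γ} {D : γ → Finset V} {tl : γ → Finset τ}

/-- the induction hypothesis. -/
def IHg (n : Finset V → ℤ) (Vs : Finset V) (Ts : Finset τ) (l : τ → Finset V) (G : Finset γ)
    (D : γ → Finset V) (m : ℕ) : Prop :=
  ∀ C S R k E (H : Finset γ), Cfg Vs Ts l C S R k E → H ⊆ G → (∀ g ∈ H, D g ⊆ E) →
    cmu C S R k E + H.card < m → cval n l C S R k + H.card ≤ n E

omit [DecidableEq τ] [DecidableEq γ] in
theorem IHg.star (hc : Cfg Vs Ts l C S R k E) (hHG : H ⊆ G) (hHE : ∀ g ∈ H, D g ⊆ E)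
    (ih : IHg n Vs Ts l G D (cmu C S R k E + H.card))
    (hb : n E < cval n l C S R k + H.card) {W : V} (hW : W ∈ C) : 1 ≤ nst n l W (S W) := by
  have h1 := ih _ _ _ _ _ H (hc.erC W) hHG hHE (by
    unfold cmu
    have := add_sum_erase C (fun W => 1 + (S W).card) hW
    omega)
  unfold cval at *
  have h2 := add_sum_erase C (fun W => nst n l W (S W)) hW
  linarith

omit [DecidableEq τ] [DecidableEq γ] in
theorem IHg.star_ne (hpt : ∀ W ∈ Vs, n {W} ≤ 0) (hc : Cfg Vs Ts l C S R k E) (hHG : H ⊆ G)
    (hHE : ∀ g ∈ H, D g ⊆ E) (ih : IHg n Vs Ts l G D (cmu C S R k E + H.card))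
    (hb : n E < cval n l C S R k + H.card) {W : V} (hW : W ∈ C) : (S W).Nonempty := by
  rw [nonempty_iff_ne_empty]
  intro h0
  have h1 := ih.star hc hHG hHE hb hW
  rw [h0] at h1
  unfold nst rkn at h1
  rw [biUnion_empty, insert_empty] at h1
  have h2 := hpt W (hc.EV (hc.CE hW))
  rw [card_singleton, card_empty] at h1
  push_cast at h1
  linarith

theorem IHg.val_le (h : Nul n) (hpt : ∀ W ∈ Vs, n {W} ≤ 0) (hc : Cfg Vs Ts l C S R k E)
    (hHG : H ⊆ G) (hHE : ∀ g ∈ H, D g ⊆ E)
    (ih : IHg n Vs Ts l G D (cmu C S R k E + H.card))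
    (hb : n E < cval n l C S R k + H.card) : cval n l C S R k + H.card ≤ n E + 1 := by
  rcases H.eq_empty_or_nonempty with hH | ⟨g, hg⟩
  · rcases C.eq_empty_or_nonempty with hC | ⟨W, hW⟩
    · rcases R.eq_empty_or_nonempty with hR | ⟨T, hT⟩
      · subst hC hR hH
        have := h.nonneg E
        unfold cval at hb
        rw [sum_empty, sum_empty] at hb
        simp at hb
        omega
      · obtain ⟨R', k', h1, h2, h3, h4, h5⟩ := low_exists hc.k3 hT
        have hc' : Cfg Vs Ts l C S R' k' E := by
          refine ⟨hc.CE, hc.EV, hc.ST, hc.WT, hc.TE, h1.trans hc.RT, ?_, ?_⟩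
          · intro T' hT'
            by_cases he : T' = T
            · subst he
              have := h3 hT'
              omega
            · rw [h2 T' hT' he]
              exact hc.k3 T' (h1 hT')
          · intro T' hT'
            by_cases he : T' = T
            · subst he
              have := h3 hT'
              have := hc.kE T' hT
              omega
            · rw [h2 T' hT' he]
              exact hc.kE T' (h1 hT')
        have h6 := ih _ _ _ _ _ H hc' hHG hHE (by
          unfold cmu
          omega)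
        unfold cval at *
        linarith
    · obtain ⟨T, hT⟩ := ih.star_ne hpt hc hHG hHE hb hW
      have h6 := ih _ _ _ _ _ H (hc.upd (erase_subset T (S W))) hHG hHE (by
        unfold cmu
        have h1 := sum_upd S hW ((S W).erase T) (fun _ (x : Finset τ) => 1 + x.card)
        have h2 := card_erase_add_one hT
        omega)
      have h1 := sum_upd S hW ((S W).erase T) (fun W x => nst n l W x)
      have h2 := nst_erase (l := l) h (W := W) hT
      unfold cval at *
      linarith
  · have h1 := card_erase_add_one hg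
    have h6 := ih _ _ _ _ _ (H.erase g) hc ((erase_subset _ _).trans hHG)
      (fun g' hg' => hHE g' (mem_of_mem_erase hg')) (by omega)
    have h2 : (((H.erase g).card : ℕ) : ℤ) + 1 = H.card := by exact_mod_cast h1
    linarith

theorem IHg.need (h : Nul n) (hL : Lin n Vs Ts l) (hG : Crc n Vs Ts l G D tl)
    (hc : Cfg Vs Ts l C S R k E) (hHG : H ⊆ G) (hHE : ∀ g ∈ H, D g ⊆ E)
    (ih : IHg n Vs Ts l G D (cmu C S R k E + H.card))
    (hb : n E < cval n l C S R k + H.card) {e : V} (heE : e ∈ E) (heC : e ∉ C) :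
    2 ≤ ((A1 Ts l C S E).filter (fun T => e ∈ l T)).card +
      (R.filter (fun T => e ∈ l T ∧ (l T ∩ E).card = k T)).card +
      (H.filter (fun g => e ∈ D g)).card := by
  by_contra hlt
  have hmu : (E.erase e).card < E.card := card_erase_lt_of_mem heE
  have hCE : C ⊆ E.erase e := fun z hz => mem_erase.2 ⟨fun h => heC (h ▸ hz), hc.CE hz⟩
  have hEV : E.erase e ⊆ Vs := (erase_subset _ _).trans hc.EV
  -- the stars
  have hst : ∀ W ∈ C, ∀ T ∈ S W, ¬ (T ∈ A1 Ts l C S E ∧ e ∈ l T) →
      2 ≤ (l T ∩ E.erase e).card := by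
    intro W hW T hT hn
    by_cases he : e ∈ l T
    · have h1 := hc.TE W hW T hT
      have h2 : (l T ∩ E).card ≠ 2 := fun h2 =>
        hn ⟨mem_filter.2 ⟨hc.ST W hW hT, h2, W, hW, hT⟩, he⟩
      have h3 := card_inter_erase_ge (A := l T) (E := E) (e := e)
      omega
    · rw [card_inter_erase_eq he]
      exact hc.TE W hW T hT
  have hln : ∀ T ∈ R, ¬ (e ∈ l T ∧ (l T ∩ E).card = k T) → k T ≤ (l T ∩ E.erase e).card := by
    intro T hT hn
    by_cases he : e ∈ l T
    · have h1 := hc.kE T hT
      have h2 : (l T ∩ E).card ≠ k T := fun h2 => hn ⟨he, h2⟩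
      have h3 := card_inter_erase_ge (A := l T) (E := E) (e := e)
      omega
    · rw [card_inter_erase_eq he]
      exact hc.kE T hT
  have hHE' : (H.filter (fun g => e ∈ D g)).card = 0 → ∀ g ∈ H, D g ⊆ E.erase e := by
    intro h0 g hg z hz
    refine mem_erase.2 ⟨?_, hHE g hg hz⟩
    rintro rfl
    have h1 : g ∈ H.filter (fun g => z ∈ D g) := mem_filter.2 ⟨hg, hz⟩
    have h2 := card_pos.2 ⟨g, h1⟩
    omega
  by_cases hN3 : (H.filter (fun g => e ∈ D g)).card = 0
  swap
  · -- one circuit needs `e`
    have hN1 : ((A1 Ts l C S E).filter (fun T => e ∈ l T)).card = 0 := by omega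
    have hN2 : (R.filter (fun T => e ∈ l T ∧ (l T ∩ E).card = k T)).card = 0 := by omega
    have hN31 : (H.filter (fun g => e ∈ D g)).card = 1 := by omega
    rw [card_eq_zero] at hN1 hN2
    obtain ⟨g, hg⟩ := card_eq_one.1 hN31
    have hgm : g ∈ H.filter (fun g => e ∈ D g) := by
      rw [hg]
      exact mem_singleton_self g
    obtain ⟨hgH, heg⟩ := mem_filter.1 hgm
    have hc' : Cfg Vs Ts l C S R k (E.erase e) := by
      refine ⟨hCE, hEV, hc.ST, hc.WT, ?_, hc.RT, hc.k3, ?_⟩
      · intro W hW T hT
        refine hst W hW T hT fun hn => ?_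
        have : T ∈ (A1 Ts l C S E).filter (fun T => e ∈ l T) := mem_filter.2 hn
        rw [hN1] at this
        exact absurd this (notMem_empty T)
      · intro T hT
        refine hln T hT fun hn => ?_
        have : T ∈ R.filter (fun T => e ∈ l T ∧ (l T ∩ E).card = k T) := mem_filter.2 ⟨hT, hn⟩
        rw [hN2] at this
        exact absurd this (notMem_empty T)
    have hce := card_erase_add_one hgH
    have h1 := ih _ _ _ _ _ (H.erase g) hc' ((erase_subset _ _).trans hHG) (by
      intro g' hg' z hz
      refine mem_erase.2 ⟨?_, hHE g' (mem_of_mem_erase hg') hz⟩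
      rintro rfl
      have h2 : g' ∈ H.filter (fun g => z ∈ D g) :=
        mem_filter.2 ⟨mem_of_mem_erase hg', hz⟩
      rw [hg, mem_singleton] at h2
      exact (mem_erase.1 hg').1 h2) (by
        unfold cmu
        omega)
    have h7 := h.super (D g) (E.erase e)
    have h8 : D g ∪ E.erase e = E := by
      ext z
      simp only [mem_union, mem_erase]
      constructor
      · rintro (hz | ⟨_, hz⟩)
        · exact hHE g hgH hz
        · exact hz
      · intro hz
        by_cases hze : z = e
        · subst hze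
          exact Or.inl heg
        · exact Or.inr ⟨hze, hz⟩
    have h9 : D g ∩ E.erase e = (D g).erase e := by
      ext z
      simp only [mem_inter, mem_erase]
      constructor
      · rintro ⟨h1, h2, _⟩
        exact ⟨h2, h1⟩
      · rintro ⟨h1, h2⟩
        exact ⟨h2, h1, hHE g hgH h2⟩
    have h10 := hG.er g (hHG hgH) e heg
    rw [h8, h9] at h7
    have h11 : (((H.erase g).card : ℕ) : ℤ) + 1 = H.card := by exact_mod_cast hce
    linarith
  have hHE2 := hHE' hN3
  by_cases hN2 : (R.filter (fun T => e ∈ l T ∧ (l T ∩ E).card = k T)).card = 0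
  · rw [card_eq_zero] at hN2
    have hR' : ∀ T ∈ R, k T ≤ (l T ∩ E.erase e).card := by
      intro T hT
      refine hln T hT fun hn => ?_
      have : T ∈ R.filter (fun T => e ∈ l T ∧ (l T ∩ E).card = k T) := mem_filter.2 ⟨hT, hn⟩
      rw [hN2] at this
      exact absurd this (notMem_empty T)
    by_cases hN1 : ((A1 Ts l C S E).filter (fun T => e ∈ l T)).card = 0
    · -- nothing needs `e`
      rw [card_eq_zero] at hN1
      have hc' : Cfg Vs Ts l C S R k (E.erase e) := by
        refine ⟨hCE, hEV, hc.ST, hc.WT, ?_, hc.RT, hc.k3, hR'⟩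
        intro W hW T hT
        refine hst W hW T hT fun hn => ?_
        have : T ∈ (A1 Ts l C S E).filter (fun T => e ∈ l T) := mem_filter.2 hn
        rw [hN1] at this
        exact absurd this (notMem_empty T)
      have h1 := ih _ _ _ _ _ H hc' hHG hHE2 (by
        unfold cmu
        omega)
      have h2 := h.mono _ _ (erase_subset e E)
      linarith
    · -- one star line needs `e`
      have hN11 : ((A1 Ts l C S E).filter (fun T => e ∈ l T)).card = 1 := by omega
      obtain ⟨T, hT⟩ := card_eq_one.1 hN11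
      have hTm : T ∈ (A1 Ts l C S E).filter (fun T => e ∈ l T) := by
        rw [hT]
        exact mem_singleton_self T
      obtain ⟨hTA, heT⟩ := mem_filter.1 hTm
      obtain ⟨hTTs, hT2, W, hW, hTW⟩ := mem_filter.1 hTA
      have hWT := hc.WT W hW T hTW
      have hne : e ≠ W := fun h => heC (h ▸ hW)
      have hc' : Cfg Vs Ts l C (Function.update S W ((S W).erase T)) R k (E.erase e) := by
        have hu := hc.upd (erase_subset T (S W))
        refine ⟨hCE, hEV, hu.ST, hu.WT, ?_, hc.RT, hc.k3, hR'⟩
        intro W' hW' T' hT'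
        by_cases hWW : W' = W
        · subst hWW
          rw [Function.update_self] at hT'
          refine hst W' hW' T' (mem_of_mem_erase hT') fun hn => ?_
          have h3 : T' ∈ (A1 Ts l C S E).filter (fun T => e ∈ l T) := mem_filter.2 hn
          rw [hT, mem_singleton] at h3
          exact (mem_erase.1 hT').1 h3
        · rw [Function.update_of_ne hWW] at hT'
          refine hst W' hW' T' hT' fun hn => ?_
          have h3 : T' ∈ (A1 Ts l C S E).filter (fun T => e ∈ l T) := mem_filter.2 hn
          rw [hT, mem_singleton] at h3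
          subst h3
          rcases A1_pair hTA hWT (hc.CE hW) heT heE hne (hc.WT W' hW' T' hT') (hc.CE hW')
            with h4 | h4
          · exact hWW h4
          · exact heC (h4 ▸ hW')
      have h1 := ih _ _ _ _ _ H hc' hHG hHE2 (by
        unfold cmu
        have h1 := sum_upd S hW ((S W).erase T) (fun _ (x : Finset τ) => 1 + x.card)
        have h2 := card_erase_add_one hTW
        omega)
      have h2 := sum_upd S hW ((S W).erase T) (fun W x => nst n l W x)
      have h3 := hL.nst_drop h (hc.ST W hW) (hc.WT W hW) (hc.CE hW) (hc.TE W hW) hTW heT heE hne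
      unfold cval at *
      linarith
  · -- one line needs `e`
    have hN21 : (R.filter (fun T => e ∈ l T ∧ (l T ∩ E).card = k T)).card = 1 := by omega
    have hN1 : ((A1 Ts l C S E).filter (fun T => e ∈ l T)).card = 0 := by omega
    rw [card_eq_zero] at hN1
    obtain ⟨T, hT⟩ := card_eq_one.1 hN21
    have hTm : T ∈ R.filter (fun T => e ∈ l T ∧ (l T ∩ E).card = k T) := by
      rw [hT]
      exact mem_singleton_self T
    obtain ⟨hTR, heT, hTk⟩ := mem_filter.1 hTm
    obtain ⟨R', k', h1, h2, h3, h4, h5⟩ := low_exists hc.k3 hTR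
    have hc' : Cfg Vs Ts l C S R' k' (E.erase e) := by
      refine ⟨hCE, hEV, hc.ST, hc.WT, ?_, h1.trans hc.RT, ?_, ?_⟩
      · intro W hW T hT
        refine hst W hW T hT fun hn => ?_
        have : T ∈ (A1 Ts l C S E).filter (fun T => e ∈ l T) := mem_filter.2 hn
        rw [hN1] at this
        exact absurd this (notMem_empty T)
      · intro T' hT'
        by_cases he : T' = T
        · subst he
          have := h3 hT'
          omega
        · rw [h2 T' hT' he]
          exact hc.k3 T' (h1 hT')
      · intro T' hT'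
        by_cases he : T' = T
        · subst he
          have := h3 hT'
          have := card_inter_erase_ge (A := l T') (E := E) (e := e)
          omega
        · rw [h2 T' hT' he]
          refine hln T' (h1 hT') fun hn => ?_
          have h6 : T' ∈ R.filter (fun T => e ∈ l T ∧ (l T ∩ E).card = k T) :=
            mem_filter.2 ⟨h1 hT', hn⟩
          rw [hT, mem_singleton] at h6
          exact he h6
    have h6 := ih _ _ _ _ _ H hc' hHG hHE2 (by
      unfold cmu
      omega)
    -- the marginal of `e`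
    have h7 := h.super (l T ∩ E) (E.erase e)
    have h8 : (l T ∩ E) ∪ E.erase e = E := by
      ext z
      simp only [mem_union, mem_inter, mem_erase]
      constructor
      · rintro (⟨_, hz⟩ | ⟨_, hz⟩) <;> exact hz
      · intro hz
        by_cases hze : z = e
        · subst hze
          exact Or.inl ⟨heT, hz⟩
        · exact Or.inr ⟨hze, hz⟩
    have h9 : (l T ∩ E) ∩ E.erase e = (l T ∩ E).erase e := by
      ext z
      simp only [mem_inter, mem_erase]
      tauto
    have hk3 := hc.k3 T hTR
    have h10 : e ∈ l T ∩ E := mem_inter.2 ⟨heT, heE⟩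
    have h11 := card_erase_add_one h10
    have h12 := hL.part h (hc.RT hTR) (D := l T ∩ E) inter_subset_left (by omega)
    have h13 := hL.part h (hc.RT hTR) (D := (l T ∩ E).erase e)
      ((erase_subset _ _).trans inter_subset_left) (by omega)
    rw [h8, h9] at h7
    have h14 : ((((l T ∩ E).erase e).card : ℕ) : ℤ) + 1 = (l T ∩ E).card := by exact_mod_cast h11
    unfold cval at *
    linarith

theorem IHg.step (h : Nul n) (hL : Lin n Vs Ts l) (hG : Crc n Vs Ts l G D tl)
    (hpt : ∀ W ∈ Vs, n {W} ≤ 0) (hc : Cfg Vs Ts l C S R k E) (hHG : H ⊆ G)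
    (hHE : ∀ g ∈ H, D g ⊆ E) (ih : IHg n Vs Ts l G D (cmu C S R k E + H.card)) :
    cval n l C S R k + H.card ≤ n E := by
  by_contra hb
  rw [not_le] at hb
  -- two nodes
  have hE2 : 2 ≤ E.card := by
    rcases C.eq_empty_or_nonempty with hC | ⟨W, hW⟩
    · rcases R.eq_empty_or_nonempty with hR | ⟨T, hT⟩
      · rcases H.eq_empty_or_nonempty with hH | ⟨g, hg⟩
        · subst hC hR hH
          have := h.nonneg E
          unfold cval at hb
          rw [sum_empty, sum_empty] at hb
          simp at hb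
          omega
        · have h1 := card_le_card (hHE g hg)
          obtain ⟨e, he⟩ := hG.ne g (hHG hg)
          have h2 := hG.er g (hHG hg) e he
          have h3 := h.nonneg ((D g).erase e)
          by_contra hcon
          have h4 : (D g).card = 1 := by
            have := card_pos.2 ⟨e, he⟩
            omega
          obtain ⟨v, hv⟩ := card_eq_one.1 h4
          rw [hv] at h2 h3 he
          have h5 := hpt v (hG.sub g (hHG hg) (by rw [hv]; exact mem_singleton_self v))
          omega
      · have h1 := hc.k3 T hT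
        have h2 := hc.kE T hT
        have h3 := card_le_card (inter_subset_right : l T ∩ E ⊆ E)
        omega
    · obtain ⟨T, hT⟩ := ih.star_ne hpt hc hHG hHE hb hW
      have h2 := hc.TE W hW T hT
      have h3 := card_le_card (inter_subset_right : l T ∩ E ⊆ E)
      omega
  have hval := ih.val_le h hpt hc hHG hHE hb
  -- the needs
  have hF : 2 * (E \ C).card ≤ (A1 Ts l C S E).card + ∑ T ∈ R, k T +
      ∑ g ∈ H, (2 + (tl g \ A1 Ts l C S E).card) := by
    have h1 : ∀ e ∈ E \ C, 2 ≤ ((A1 Ts l C S E).filter (fun T => e ∈ l T)).card +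
        (R.filter (fun T => e ∈ l T ∧ (l T ∩ E).card = k T)).card +
        (H.filter (fun g => e ∈ D g)).card := by
      intro e he
      rw [mem_sdiff] at he
      exact ih.need h hL hG hc hHG hHE hb he.1 he.2
    have h2 := card_nsmul_le_sum _ _ _ h1
    rw [sum_add_distrib, sum_add_distrib] at h2
    have h23 := sum_filter_swap (E \ C) H (fun e g => e ∈ D g)
    have h5 : ∑ g ∈ H, ((E \ C).filter (fun e => e ∈ D g)).card ≤
        ∑ g ∈ H, (2 + (tl g \ A1 Ts l C S E).card) := by
      refine sum_le_sum fun g hg => ?_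
      -- the centres of the lines used by stars
      have hex : ∀ T ∈ tl g ∩ A1 Ts l C S E, ∃ W ∈ C, W ∈ l T := by
        intro T hT
        obtain ⟨-, -, W, hW, hTW⟩ := mem_filter.1 (mem_inter.1 hT).2
        exact ⟨W, hW, hc.WT W hW T hTW⟩
      have : Nonempty V := ⟨(hG.ne g (hHG hg)).choose⟩
      choose! f hf using hex
      have hinj : Set.InjOn f (tl g ∩ A1 Ts l C S E : Finset τ) := by
        intro T hT T' hT' he
        by_contra hne
        have e1 := (hf T hT).2
        have e2 := (hf T' hT').2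
        rw [← he] at e2
        exact disjoint_left.1 (hG.tdis g (hHG hg) T (mem_inter.1 (mem_coe.1 hT)).1 T'
          (mem_inter.1 (mem_coe.1 hT')).1 hne) e1 e2
      have h6 : (tl g ∩ A1 Ts l C S E).card ≤ (D g ∩ C).card := by
        rw [← card_image_of_injOn hinj]
        refine card_le_card ?_
        intro z hz
        obtain ⟨T, hT, rfl⟩ := mem_image.1 hz
        exact mem_inter.2 ⟨hG.tD g (hHG hg) T (mem_inter.1 hT).1 (hf T hT).2, (hf T hT).1⟩
      have h7 : ((E \ C).filter (fun e => e ∈ D g)).card ≤ (D g \ C).card := by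
        refine card_le_card ?_
        intro z hz
        rw [mem_filter, mem_sdiff] at hz
        exact mem_sdiff.2 ⟨hz.2, hz.1.2⟩
      have h8 := card_sdiff_add_card_inter (D g) C
      have h9 := card_sdiff_add_card_inter (tl g) (A1 Ts l C S E)
      have h10 := hG.card g (hHG hg)
      omega
    have h21 := sum_filter_swap (E \ C) (A1 Ts l C S E) (fun e T => e ∈ l T)
    have h22 := sum_filter_swap (E \ C) R (fun e T => e ∈ l T ∧ (l T ∩ E).card = k T)
    have h3 : ∑ T ∈ A1 Ts l C S E, ((E \ C).filter (fun e => e ∈ l T)).card ≤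
        ∑ T ∈ A1 Ts l C S E, 1 := by
      refine sum_le_sum fun T hT => ?_
      obtain ⟨hTTs, hT2, W, hW, hTW⟩ := mem_filter.1 hT
      have h4 : (E \ C).filter (fun e => e ∈ l T) ⊆ (l T ∩ E).erase W := by
        intro z hz
        rw [mem_filter, mem_sdiff] at hz
        exact mem_erase.2 ⟨fun h => hz.1.2 (h ▸ hW), mem_inter.2 ⟨hz.2, hz.1.1⟩⟩
      have h5 := card_le_card h4
      have h6 := card_erase_add_one (mem_inter.2 ⟨hc.WT W hW T hTW, hc.CE hW⟩ : W ∈ l T ∩ E)
      omega
    have h4 : ∑ T ∈ R, ((E \ C).filter (fun e => e ∈ l T ∧ (l T ∩ E).card = k T)).card ≤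
        ∑ T ∈ R, k T := by
      refine sum_le_sum fun T hT => ?_
      by_cases hk : (l T ∩ E).card = k T
      · rw [← hk]
        refine card_le_card ?_
        intro z hz
        rw [mem_filter, mem_sdiff] at hz
        exact mem_inter.2 ⟨hz.2.1, hz.1.1⟩
      · have : (E \ C).filter (fun e => e ∈ l T ∧ (l T ∩ E).card = k T) = ∅ := by
          rw [filter_eq_empty_iff]
          rintro z _ ⟨_, h⟩
          exact hk h
        rw [this, card_empty]
        omega
    rw [sum_const, smul_eq_mul, mul_one] at h3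
    rw [smul_eq_mul] at h2
    omega
  -- the lines
  have hK := hL.sparse E hc.EV hE2
  have hK2 : (A1 Ts l C S E).card + R.card + ∑ g ∈ H, (tl g \ A1 Ts l C S E).card ≤
      (Ts.filter (fun T => 2 ≤ (l T ∩ E).card)).card := by
    have hdj1 : Disjoint (A1 Ts l C S E) R := by
      rw [disjoint_left]
      intro T hT hTR
      have h1 := hc.k3 T hTR
      have h2 := hc.kE T hTR
      have h3 := (mem_filter.1 hT).2.1
      omega
    have hdj2 : Disjoint (A1 Ts l C S E ∪ R) (H.biUnion (fun g => tl g \ A1 Ts l C S E)) := by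
      rw [disjoint_left]
      intro T hT hT'
      obtain ⟨g, hg, hTg⟩ := mem_biUnion.1 hT'
      obtain ⟨hTg1, hTg2⟩ := mem_sdiff.1 hTg
      rcases mem_union.1 hT with hT | hT
      · exact hTg2 hT
      · have h1 := hc.k3 T hT
        have h2 := hc.kE T hT
        have h3 := hG.tcard g (hHG hg) T hTg1
        have h4 := card_le_card (inter_subset_left : l T ∩ E ⊆ l T)
        omega
    have hcb : ∑ g ∈ H, (tl g \ A1 Ts l C S E).card =
        (H.biUnion (fun g => tl g \ A1 Ts l C S E)).card := by
      rw [card_biUnion]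
      intro g hg g' hg' hne
      show Disjoint (tl g \ A1 Ts l C S E) (tl g' \ A1 Ts l C S E)
      exact disjoint_of_subset_left sdiff_subset (disjoint_of_subset_right sdiff_subset
        (hG.gdis g (hHG hg) g' (hHG hg') hne))
    rw [hcb, ← card_union_of_disjoint hdj1, ← card_union_of_disjoint hdj2]
    refine card_le_card ?_
    intro T hT
    rcases mem_union.1 hT with hT | hT
    · rcases mem_union.1 hT with hT | hT
      · obtain ⟨hTTs, hT2, -⟩ := mem_filter.1 hT
        exact mem_filter.2 ⟨hTTs, by omega⟩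
      · have h1 := hc.k3 T hT
        have h2 := hc.kE T hT
        exact mem_filter.2 ⟨hc.RT hT, by omega⟩
    · obtain ⟨g, hg, hTg⟩ := mem_biUnion.1 hT
      have hTg1 := (mem_sdiff.1 hTg).1
      refine mem_filter.2 ⟨hG.tsub g (hHG hg) hTg1, ?_⟩
      rw [inter_eq_left.2 ((hG.tD g (hHG hg) T hTg1).trans (hHE g hg)),
        hG.tcard g (hHG hg) T hTg1]
  -- the centres
  have hCn : (C.card : ℤ) ≤ ∑ W ∈ C, nst n l W (S W) := by
    have h1 : ∀ W ∈ C, (1 : ℤ) ≤ nst n l W (S W) := fun W hW => ih.star hc hHG hHE hb hW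
    have h2 := card_nsmul_le_sum _ _ _ h1
    simpa using h2
  have hk3 : 3 * R.card ≤ ∑ T ∈ R, k T := by
    have h2 := card_nsmul_le_sum R (fun T => k T) 3 hc.k3
    rw [smul_eq_mul] at h2
    omega
  have hk2 : ∑ T ∈ R, ((k T : ℤ) - 2) = ((∑ T ∈ R, k T : ℕ) : ℤ) - 2 * R.card := by
    rw [sum_sub_distrib, sum_const]
    push_cast
    ring
  have hEC := card_sdiff_add_card_eq_card hc.CE
  rw [sum_add_distrib, sum_const, smul_eq_mul] at hF
  unfold cval at hval hb
  rw [hk2] at hval hb
  generalize ∑ T ∈ R, k T = K at *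
  generalize ∑ g ∈ H, (tl g \ A1 Ts l C S E).card = M at *
  generalize ∑ W ∈ C, nst n l W (S W) = N at *
  omega

theorem IHg.all (h : Nul n) (hL : Lin n Vs Ts l) (hG : Crc n Vs Ts l G D tl)
    (hpt : ∀ W ∈ Vs, n {W} ≤ 0) : ∀ m : ℕ, IHg n Vs Ts l G D m := by
  intro m
  induction m with
  | zero =>
    intro C S R k E H _ _ _ h0
    omega
  | succ m ihm =>
    intro C S R k E H hc hHG hHE h0
    refine IHg.step h hL hG hpt hc hHG hHE ?_
    intro C' S' R' k' E' H' hc' hHG' hHE' h1
    exact ihm C' S' R' k' E' H' hc' hHG' hHE' (by omega)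

/-- THE SPARSE LEMMA with additional circuits, general form. -/
theorem Lin.main_gen3 (h : Nul n) (hL : Lin n Vs Ts l) (hG : Crc n Vs Ts l G D tl)
    (h2 : 2 ≤ Vs.card) (hc : Cfg Vs Ts l C S R k E) (hHG : H ⊆ G) (hHE : ∀ g ∈ H, D g ⊆ E) :
    ∑ W ∈ C, (n (insert W ((S W).biUnion l)) - ∑ T ∈ S W, (((l T).card : ℤ) - 2)) +
      ∑ T ∈ R, ((k T : ℤ) - 2) + H.card ≤ n E := by
  have h1 := IHg.all h hL hG (hL.pt h h2) (cmu C S R k E + H.card + 1) C S R k E H hc hHG hHE
    (by omega)
  unfold cval at h1
  rw [sum_congr rfl (fun W hW => hL.nst_eq (hc.ST W hW) (hc.WT W hW))] at h1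
  exact h1

/-- THE SPARSE LEMMA with additional circuits. -/
theorem Lin.main3 (h : Nul n) (hL : Lin n Vs Ts l) (hG : Crc n Vs Ts l G D tl)
    (h2 : 2 ≤ Vs.card) :
    ∑ W ∈ Vs, (n (insert W ((Ts.filter (fun T => W ∈ l T)).biUnion l)) -
      ∑ T ∈ Ts.filter (fun T => W ∈ l T), (((l T).card : ℤ) - 2)) +
      ∑ T ∈ Ts, (((l T).card : ℤ) - 2) + G.card ≤ n Vs := by
  have hc : Cfg Vs Ts l Vs (fun W => Ts.filter (fun T => W ∈ l T))
      (Ts.filter (fun T => 3 ≤ (l T).card)) (fun T => (l T).card) Vs := by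
    refine ⟨subset_rfl, subset_rfl, fun W _ => filter_subset _ _,
      fun W _ T hT => (mem_filter.1 hT).2, ?_, filter_subset _ _,
      fun T hT => (mem_filter.1 hT).2, ?_⟩
    · intro W _ T hT
      have hT' := (mem_filter.1 hT).1
      rw [inter_eq_left.2 (hL.sub T hT')]
      exact hL.two T hT'
    · intro T hT
      have hT' := (mem_filter.1 hT).1
      rw [inter_eq_left.2 (hL.sub T hT')]
  have h1 := hL.main_gen3 h hG h2 hc (Subset.refl G) hG.sub
  have h3 : ∑ T ∈ Ts.filter (fun T => 3 ≤ (l T).card), (((l T).card : ℤ) - 2) =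
      ∑ T ∈ Ts, (((l T).card : ℤ) - 2) := by
    refine sum_subset (filter_subset _ _) fun T hT hT' => ?_
    have h4 := hL.two T hT
    have h5 : ¬ 3 ≤ (l T).card := fun h => hT' (mem_filter.2 ⟨hT, h⟩)
    have h6 : (l T).card = 2 := by omega
    rw [h6]
    norm_num
  rw [h3] at h1
  exact h1

end

end Pool.Agent.Hyp6.Sp
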