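import Pool.Agent.Hyp6.L3Rt

/-!
# HYP6 L3SPC: special triples

A triple of the frame with a hit on an allowed block of the even part (`ja ≥ 1`) has at most three hits
on the leaves, all from one point; its supply in the rent criterion is at least `18` per leaf hit.
-/

set_option autoImplicit false

namespace Pool.Agent.Hyp6

open Finset Pool.Agent.Hyp5

open Rt

universe u v

variable {V : Type v} [DecidableEq V] {ι : Type u} [Fintype ι] {B : ι → Finset V}

namespace Frm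

variable {Q U : Finset V} {T : Finset ι} {F : Finset (Finset V)}

/-- a point of a triple of the frame which lies in an allowed block: the other two points see no
leaf. -/
theorem al_point [DecidableEq ι] (h : Frm B Q T U F) (hT : MTC B Q T) (hr : Reg B Q) {j : ι}
    (hj : j ∈ T) {a : V} (ha : a ∈ B j ∩ Q) {i : ι} (hi : i ∈ Als B (Ep B Q T U F)) (hai : a ∈ B i) :
    ∀ b ∈ B j ∩ Q, b ≠ a → ∀ C ∈ F, ∀ w ∈ C, ¬ (gr B).Adj b w := by
  intro b hb hba C hC
  have he := h.evn hr dcl_self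
  have hal := mem_Als.1 hi
  have h2 := he.alB_two hal
  obtain ⟨x, hx, y, hy, hne, hxi, hyi, hpm⟩ := hal
  have hj3 := h.mtp.tpk.pack.card j hj
  obtain ⟨haj, haQ⟩ := mem_inter.1 ha
  obtain ⟨hbj, hbQ⟩ := mem_inter.1 hb
  have haE : a ∉ Ep B Q T U F := fun h3 => (mem_sdiff.1 (ED h3)).2 (mem_biUnion.2 ⟨j, hj, haj⟩)
  have hbE : b ∉ Ep B Q T U F := fun h3 => (mem_sdiff.1 (ED h3)).2 (mem_biUnion.2 ⟨j, hj, hbj⟩)
  have hEi : B i ∩ Ep B Q T U F = {x, y} := by
    symm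
    refine eq_of_subset_of_card_le ?_ (by rw [h2, card_pair hne])
    intro v hv
    rcases mem_insert.1 hv with rfl | hv
    · exact mem_inter.2 ⟨hxi, hx⟩
    · rw [mem_singleton] at hv
      subst hv
      exact mem_inter.2 ⟨hyi, hy⟩
  have hax : a ≠ x := fun h3 => haE (h3 ▸ hx)
  have hay : a ≠ y := fun h3 => haE (h3 ▸ hy)
  have hsub : ({a, x, y} : Finset V) ⊆ B i ∩ Q := by
    intro v hv
    simp only [mem_insert, mem_singleton] at hv
    rcases hv with rfl | rfl | rfl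
    · exact mem_inter.2 ⟨hai, haQ⟩
    · exact mem_inter.2 ⟨hxi, DQ (ED hx)⟩
    · exact mem_inter.2 ⟨hyi, DQ (ED hy)⟩
  have hc3 : ({a, x, y} : Finset V).card = 3 := card_eq_three.2 ⟨a, x, y, hax, hay, hne, rfl⟩
  have h4 := h.reg3 i
  have hiQ : B i ∩ Q = {a, x, y} := (eq_of_subset_of_card_le hsub (by omega)).symm
  have hi3 : (B i ∩ Q).card = 3 := by rw [hiQ, hc3]
  -- the third point of the triple
  have hab : ({a, b} : Finset V) ⊆ B j ∩ Q := by
    intro v hv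
    rcases mem_insert.1 hv with rfl | hv
    · exact ha
    · rw [mem_singleton] at hv
      subst hv
      exact hb
  have h5 := card_sdiff_add_card_eq_card hab
  rw [card_pair hba.symm, hj3] at h5
  obtain ⟨c, hc⟩ := card_eq_one.1 (by omega : ((B j ∩ Q) \ {a, b}).card = 1)
  have hcm : c ∈ (B j ∩ Q) \ {a, b} := by
    rw [hc]
    exact mem_singleton_self c
  obtain ⟨hcj, hcn⟩ := mem_sdiff.1 hcm
  rw [mem_insert, mem_singleton, not_or] at hcn
  have hjQ : B j ∩ Q = {a, b, c} := by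
    rw [← union_sdiff_of_subset hab, hc]
    ext v
    simp only [mem_union, mem_insert, mem_singleton]
    tauto
  have hcE : c ∉ Ep B Q T U F := fun h3 =>
    (mem_sdiff.1 (ED h3)).2 (mem_biUnion.2 ⟨j, hj, (mem_inter.1 hcj).1⟩)
  have hno : ∀ v, v ∈ Q → v ≠ a → v ∉ Ep B Q T U F → v ∉ B i := by
    intro v hvQ hva hvE hvi
    have h6 : v ∈ B i ∩ Q := mem_inter.2 ⟨hvi, hvQ⟩
    rw [hiQ] at h6
    simp only [mem_insert, mem_singleton] at h6
    rcases h6 with h6 | h6 | h6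
    · exact hva h6
    · exact hvE (h6 ▸ hx)
    · exact hvE (h6 ▸ hy)
  exact h.even_hit hT hj hjQ hiQ hi3 (hno b hbQ hba hbE) (hno c (mem_inter.1 hcj).2 hcn.1 hcE)
    (fun h3 => hcn.2 h3.symm) hx hy hne hpm hC

/-- a special triple has at most three hits on the leaves. -/
theorem special_three [DecidableEq ι] (h : Frm B Q T U F) (hT : MTC B Q T) (hr : Reg B Q) {j : ι}
    (hj : j ∈ T) (hs : 1 ≤ ja B Q (Ep B Q T U F) j) : ∑ L ∈ F, jh B Q j L ≤ 3 := by
  have h0 : ∃ i ∈ Als B (Ep B Q T U F), (B i ∩ (B j ∩ Q)).Nonempty := by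
    by_contra hcon
    push Not at hcon
    have h1 : ja B Q (Ep B Q T U F) j = 0 := by
      unfold ja
      refine sum_eq_zero fun i hi => ?_
      rw [hcon i hi, card_empty]
    omega
  obtain ⟨i, hi, a, ha⟩ := h0
  obtain ⟨hai, haQ⟩ := mem_inter.1 ha
  have haj := (mem_inter.1 haQ).1
  have hnl := h.al_point hT hr hj haQ hi hai
  have h1 : ∑ L ∈ F, jh B Q j L = hit B (B j ∩ Q) (F.biUnion id) := (hit_biUnion _ h.sepF).symm
  rw [h1, hit_eq]
  -- only the point a counts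
  have h2 : ∀ b ∈ B j ∩ Q, b ≠ a →
      (univ.filter (fun i => b ∈ B i ∧ (B i ∩ F.biUnion id).Nonempty)).card = 0 := by
    intro b hb hba
    rw [card_eq_zero, eq_empty_iff_forall_notMem]
    intro k hk
    obtain ⟨_, hbk, w, hw⟩ := mem_filter.1 hk
    obtain ⟨hwk, hwF⟩ := mem_inter.1 hw
    obtain ⟨C, hC, hwC⟩ := mem_biUnion.1 hwF
    have hbw : b ≠ w := by
      rintro rfl
      exact (mem_sdiff.1 (h.FD hC hwC)).2 (mem_biUnion.2 ⟨j, hj, (mem_inter.1 hb).1⟩)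
    exact hnl b hb hba C hC w hwC ⟨hbw, k, hbk, hwk⟩
  rw [sum_eq_single_of_mem a haQ h2]
  have h3 : insert i (insert j
      (univ.filter (fun i => a ∈ B i ∧ (B i ∩ F.biUnion id).Nonempty))) ⊆
      univ.filter (fun i => a ∈ B i) := by
    intro k hk
    rw [mem_insert, mem_insert] at hk
    rcases hk with rfl | rfl | hk
    · exact mem_filter.2 ⟨mem_univ _, hai⟩
    · exact mem_filter.2 ⟨mem_univ _, haj⟩
    · exact mem_filter.2 ⟨mem_univ _, (mem_filter.1 hk).2.1⟩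
  have he := h.evn hr dcl_self
  have h2i := he.alB_two (mem_Als.1 hi)
  have hij : i ≠ j := by
    rintro rfl
    obtain ⟨v, hv⟩ := card_pos.1 (by omega : 0 < (B i ∩ Ep B Q T U F).card)
    obtain ⟨hv1, hv2⟩ := mem_inter.1 hv
    exact (mem_sdiff.1 (ED hv2)).2 (mem_biUnion.2 ⟨i, hj, hv1⟩)
  have hjn : j ∉ univ.filter (fun i => a ∈ B i ∧ (B i ∩ F.biUnion id).Nonempty) := by
    intro hk
    obtain ⟨_, _, w, hw⟩ := mem_filter.1 hk
    obtain ⟨hwk, hwF⟩ := mem_inter.1 hw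
    obtain ⟨C, hC, hwC⟩ := mem_biUnion.1 hwF
    exact (mem_sdiff.1 (h.FD hC hwC)).2 (mem_biUnion.2 ⟨j, hj, hwk⟩)
  have hin : i ∉ insert j
      (univ.filter (fun i => a ∈ B i ∧ (B i ∩ F.biUnion id).Nonempty)) := by
    rw [mem_insert, not_or]
    refine ⟨hij, fun hk => ?_⟩
    obtain ⟨_, _, hw⟩ := mem_filter.1 hk
    obtain ⟨v, hv⟩ := card_pos.1 (by omega : 0 < (B i ∩ Ep B Q T U F).card)
    exact h.sepE i hw ⟨v, hv⟩
  have h4 := card_le_card h3
  rw [card_insert_of_notMem hin, card_insert_of_notMem hjn, hr a (mem_inter.1 haQ).2] at h4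
  omega

/-- **the supply of a special triple**: at least `18` for every leaf hit. -/
theorem special_supply [DecidableEq ι] (h : Frm B Q T U F) (hT : MTC B Q T) (hr : Reg B Q) {j : ι}
    (hj : j ∈ T) (hs : 1 ≤ ja B Q (Ep B Q T U F) j) :
    18 * ∑ L ∈ F, (jh B Q j L : ℤ) ≤ 126 + 2 * ((jn B Q (Ep B Q T U F) j : ℤ) + jb B Q T U j) -
      8 * ja B Q (Ep B Q T U F) j := by
  have h1 := h.special_three hT hr hj hs
  have h2 := h.twelve hr hj
  have h3 : ((∑ L ∈ F, jh B Q j L : ℕ) : ℤ) = ∑ L ∈ F, (jh B Q j L : ℤ) := by push_cast; rfl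
  rw [← h3]
  omega

/-- the supply of a triple without hits on allowed blocks. -/
theorem plain_supply [DecidableEq ι] (h : Frm B Q T U F) (hr : Reg B Q) {j : ι} (hj : j ∈ T)
    (hs : ja B Q (Ep B Q T U F) j = 0) :
    126 + 2 * ((jn B Q (Ep B Q T U F) j : ℤ) + jb B Q T U j) -
      8 * ja B Q (Ep B Q T U F) j = 150 - 2 * ∑ L ∈ F, (jh B Q j L : ℤ) := by
  have h2 := h.twelve hr hj
  have h3 : ((∑ L ∈ F, jh B Q j L : ℕ) : ℤ) = ∑ L ∈ F, (jh B Q j L : ℤ) := by push_cast; rfl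
  rw [← h3]
  omega

/-- two points of a triple without leaf: at most four leaf hits, and the supply is at least `18` for
every leaf hit, and at least `33` if there are no hits on allowed blocks. -/
theorem two_dead_supply [DecidableEq ι] (h : Frm B Q T U F) (hT : MTC B Q T) (hr : Reg B Q) {j : ι}
    (hj : j ∈ T) {a : V} (ha : a ∈ B j ∩ Q)
    (hd : ∀ b ∈ B j ∩ Q, b ≠ a → ∀ C ∈ F, ∀ w ∈ C, ¬ (gr B).Adj b w) :
    18 * ∑ L ∈ F, (jh B Q j L : ℤ) ≤ 126 + 2 * ((jn B Q (Ep B Q T U F) j : ℤ) + jb B Q T U j) -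
      8 * ja B Q (Ep B Q T U F) j ∧ ∑ L ∈ F, jh B Q j L ≤ 4 ∧
      (ja B Q (Ep B Q T U F) j = 0 → 33 * ∑ L ∈ F, (jh B Q j L : ℤ) ≤
        126 + 2 * ((jn B Q (Ep B Q T U F) j : ℤ) + jb B Q T U j) -
          8 * ja B Q (Ep B Q T U F) j) := by
  have haj := (mem_inter.1 ha).1
  have h4 : ∑ L ∈ F, jh B Q j L ≤ 4 := by
    have h1 : ∑ L ∈ F, jh B Q j L = hit B (B j ∩ Q) (F.biUnion id) := (hit_biUnion _ h.sepF).symm
    rw [h1, hit_eq]
    have h2 : ∀ b ∈ B j ∩ Q, b ≠ a →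
        (univ.filter (fun i => b ∈ B i ∧ (B i ∩ F.biUnion id).Nonempty)).card = 0 := by
      intro b hb hba
      rw [card_eq_zero, eq_empty_iff_forall_notMem]
      intro k hk
      obtain ⟨_, hbk, w, hw⟩ := mem_filter.1 hk
      obtain ⟨hwk, hwF⟩ := mem_inter.1 hw
      obtain ⟨C, hC, hwC⟩ := mem_biUnion.1 hwF
      have hbw : b ≠ w := by
        rintro rfl
        exact (mem_sdiff.1 (h.FD hC hwC)).2 (mem_biUnion.2 ⟨j, hj, (mem_inter.1 hb).1⟩)
      exact hd b hb hba C hC w hwC ⟨hbw, k, hbk, hwk⟩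
    rw [sum_eq_single_of_mem a ha h2]
    have hjn : j ∉ univ.filter (fun i => a ∈ B i ∧ (B i ∩ F.biUnion id).Nonempty) := by
      intro hk
      obtain ⟨_, _, w, hw⟩ := mem_filter.1 hk
      obtain ⟨hwk, hwF⟩ := mem_inter.1 hw
      obtain ⟨C, hC, hwC⟩ := mem_biUnion.1 hwF
      exact (mem_sdiff.1 (h.FD hC hwC)).2 (mem_biUnion.2 ⟨j, hj, hwk⟩)
    have h3 : insert j
        (univ.filter (fun i => a ∈ B i ∧ (B i ∩ F.biUnion id).Nonempty)) ⊆
        univ.filter (fun i => a ∈ B i) := by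
      intro k hk
      rw [mem_insert] at hk
      rcases hk with rfl | hk
      · exact mem_filter.2 ⟨mem_univ _, haj⟩
      · exact mem_filter.2 ⟨mem_univ _, (mem_filter.1 hk).2.1⟩
    have h5 := card_le_card h3
    rw [card_insert_of_notMem hjn, hr a (mem_inter.1 ha).2] at h5
    omega
  refine ⟨?_, h4, fun h0 => ?_⟩
  swap
  · rw [h.plain_supply hr hj h0]
    have h3 : ((∑ L ∈ F, jh B Q j L : ℕ) : ℤ) = ∑ L ∈ F, (jh B Q j L : ℤ) := by push_cast; rfl
    rw [← h3]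
    omega
  rcases Nat.eq_zero_or_pos (ja B Q (Ep B Q T U F) j) with h0 | h0
  · rw [h.plain_supply hr hj h0]
    have h3 : ((∑ L ∈ F, jh B Q j L : ℕ) : ℤ) = ∑ L ∈ F, (jh B Q j L : ℤ) := by push_cast; rfl
    rw [← h3]
    omega
  · exact h.special_supply hT hr hj h0

end Frm

end Pool.Agent.Hyp6
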