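import Pool.Agent.Hyp6.L3Rv
import Pool.Agent.Hyp6.L3Spc

/-!
# HYP6 L3SQ: strong triples

Value form (`t = 15`): a triple of the frame with a hit on an allowed block of the even part supplies
at least `49` for every hit on a leaf, a triple with two points without leaf at least `39`; both are
more than the `36` of a point of `U`.
-/

set_option autoImplicit false

namespace Pool.Agent.Hyp6

open Finset Pool.Agent.Hyp5

open Rt

universe u v

variable {V : Type v} [DecidableEq V] {ι : Type u} [Fintype ι] {B : ι → Finset V}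

namespace Frm

variable {Q U : Finset V} {T : Finset ι} {F : Finset (Finset V)}

/-- the leaf hits of a triple are the hits on the union of the leaves. -/
theorem jh_F (h : Frm B Q T U F) (j : ι) :
    ∑ L ∈ F, jh B Q j L = hit B (B j ∩ Q) (F.biUnion id) := (hit_biUnion _ h.sepF).symm

/-- the leaf hits of a point of a triple. -/
theorem pt_F (B : ι → Finset V) (F : Finset (Finset V)) (a : V) :
    hit B {a} (F.biUnion id) =
      (univ.filter (fun i => a ∈ B i ∧ (B i ∩ F.biUnion id).Nonempty)).card := by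
  rw [hit_eq, sum_singleton]

/-- if all leaf hits come from the point `a`. -/
theorem jh_one (h : Frm B Q T U F) {j : ι} (hj : j ∈ T) {a : V} (ha : a ∈ B j ∩ Q)
    (hd : ∀ b ∈ B j ∩ Q, b ≠ a → ∀ C ∈ F, ∀ w ∈ C, ¬ (gr B).Adj b w) :
    ∑ L ∈ F, jh B Q j L =
      (univ.filter (fun i => a ∈ B i ∧ (B i ∩ F.biUnion id).Nonempty)).card := by
  rw [h.jh_F j, hit_eq]
  refine sum_eq_single_of_mem a ha fun b hb hba => ?_
  rw [card_eq_zero, eq_empty_iff_forall_notMem]
  intro k hk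
  obtain ⟨_, hbk, w, hw⟩ := mem_filter.1 hk
  obtain ⟨hwk, hwF⟩ := mem_inter.1 hw
  obtain ⟨C, hC, hwC⟩ := mem_biUnion.1 hwF
  have hbw : b ≠ w := by
    rintro rfl
    exact (mem_sdiff.1 (h.FD hC hwC)).2 (mem_biUnion.2 ⟨j, hj, (mem_inter.1 hb).1⟩)
  exact hd b hb hba C hC w hwC ⟨hbw, k, hbk, hwk⟩

/-- a special triple with a leaf hit: its hits on allowed blocks and its leaf hits come from one
point. -/
theorem special_four [DecidableEq ι] (h : Frm B Q T U F) (hT : MTC B Q T) (hr : Reg B Q) {j : ι}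
    (hj : j ∈ T) (h1 : 1 ≤ ∑ L ∈ F, jh B Q j L) (hs : 1 ≤ ja B Q (Ep B Q T U F) j) :
    ja B Q (Ep B Q T U F) j + ∑ L ∈ F, jh B Q j L ≤ 4 := by
  -- the point with the leaf hit
  have hex : ∃ a ∈ B j ∩ Q, ∃ C ∈ F, ∃ w ∈ C, (gr B).Adj a w := by
    by_contra hcon
    push Not at hcon
    obtain ⟨a, ha⟩ := card_pos.1 (by
      have := h.mtp.tpk.pack.card j hj
      omega : 0 < (B j ∩ Q).card)
    have h2 := h.jh_one hj ha (fun b hb _ C hC w hw => hcon b hb C hC w hw)
    rw [h2] at h1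
    obtain ⟨i, hi⟩ := card_pos.1 (by omega : 0 <
      (univ.filter (fun i => a ∈ B i ∧ (B i ∩ F.biUnion id).Nonempty)).card)
    obtain ⟨_, hai, w, hw⟩ := mem_filter.1 hi
    obtain ⟨hwi, hwF⟩ := mem_inter.1 hw
    obtain ⟨C, hC, hwC⟩ := mem_biUnion.1 hwF
    have haw : a ≠ w := by
      rintro rfl
      exact (mem_sdiff.1 (h.FD hC hwC)).2 (mem_biUnion.2 ⟨j, hj, (mem_inter.1 ha).1⟩)
    exact hcon a ha C hC w hwC ⟨haw, i, hai, hwi⟩
  obtain ⟨a, ha, C0, hC0, w0, hw0, haw0⟩ := hex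
  -- only the point a lies in allowed blocks
  have honly : ∀ i ∈ Als B (Ep B Q T U F), B i ∩ (B j ∩ Q) ⊆ {a} := by
    intro i hi b hb
    obtain ⟨hbi, hbj⟩ := mem_inter.1 hb
    rw [mem_singleton]
    by_contra hba
    exact h.al_point hT hr hj hbj hi hbi a ha (fun h2 => hba h2.symm) C0 hC0 w0 hw0 haw0
  have hja : ja B Q (Ep B Q T U F) j =
      ((Als B (Ep B Q T U F)).filter (fun i => a ∈ B i)).card := by
    unfold ja
    rw [card_filter]
    refine sum_congr rfl fun i hi => ?_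
    by_cases hai : a ∈ B i
    · rw [if_pos hai]
      have h2 : B i ∩ (B j ∩ Q) = {a} := Subset.antisymm (honly i hi) (by
        rw [singleton_subset_iff]
        exact mem_inter.2 ⟨hai, ha⟩)
      rw [h2, card_singleton]
    · rw [if_neg hai, card_eq_zero, eq_empty_iff_forall_notMem]
      intro b hb
      have h2 := mem_singleton.1 (honly i hi hb)
      exact hai (h2 ▸ (mem_inter.1 hb).1)
  obtain ⟨i0, hi0⟩ := card_pos.1 (by omega : 0 <
    ((Als B (Ep B Q T U F)).filter (fun i => a ∈ B i)).card)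
  obtain ⟨hi0A, hai0⟩ := mem_filter.1 hi0
  have hd := h.al_point hT hr hj ha hi0A hai0
  rw [h.jh_one hj ha hd, hja]
  -- the blocks of a
  have hdis : Disjoint ((Als B (Ep B Q T U F)).filter (fun i => a ∈ B i))
      (univ.filter (fun i => a ∈ B i ∧ (B i ∩ F.biUnion id).Nonempty)) := by
    rw [disjoint_left]
    intro k hk hk'
    obtain ⟨_, _, hw⟩ := mem_filter.1 hk'
    have he := h.evn hr dcl_self
    have h2 := he.alB_two (mem_Als.1 (mem_filter.1 hk).1)
    obtain ⟨v, hv⟩ := card_pos.1 (by omega : 0 < (B k ∩ Ep B Q T U F).card)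
    exact h.sepE k hw ⟨v, hv⟩
  have hjn : j ∉ (Als B (Ep B Q T U F)).filter (fun i => a ∈ B i) ∪
      (univ.filter (fun i => a ∈ B i ∧ (B i ∩ F.biUnion id).Nonempty)) := by
    intro hk
    rcases mem_union.1 hk with hk | hk
    · have he := h.evn hr dcl_self
      have h2 := he.alB_two (mem_Als.1 (mem_filter.1 hk).1)
      obtain ⟨v, hv⟩ := card_pos.1 (by omega : 0 < (B j ∩ Ep B Q T U F).card)
      obtain ⟨hv1, hv2⟩ := mem_inter.1 hv
      exact (mem_sdiff.1 (ED hv2)).2 (mem_biUnion.2 ⟨j, hj, hv1⟩)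
    · obtain ⟨_, _, w, hw⟩ := mem_filter.1 hk
      obtain ⟨hwk, hwF⟩ := mem_inter.1 hw
      obtain ⟨C, hC, hwC⟩ := mem_biUnion.1 hwF
      exact (mem_sdiff.1 (h.FD hC hwC)).2 (mem_biUnion.2 ⟨j, hj, hwk⟩)
  have hsub : insert j ((Als B (Ep B Q T U F)).filter (fun i => a ∈ B i) ∪
      (univ.filter (fun i => a ∈ B i ∧ (B i ∩ F.biUnion id).Nonempty))) ⊆
      univ.filter (fun i => a ∈ B i) := by
    intro k hk
    rw [mem_insert, mem_union] at hk
    rcases hk with rfl | hk | hk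
    · exact mem_filter.2 ⟨mem_univ _, (mem_inter.1 ha).1⟩
    · exact mem_filter.2 ⟨mem_univ _, (mem_filter.1 hk).2⟩
    · exact mem_filter.2 ⟨mem_univ _, (mem_filter.1 hk).2.1⟩
  have h5 := card_le_card hsub
  rw [card_insert_of_notMem hjn, card_union_of_disjoint hdis, hr a (mem_inter.1 ha).2] at h5
  omega

/-- **the supply of a special triple, value form**: at least `49` for every leaf hit. -/
theorem special_supplyP [DecidableEq ι] (h : Frm B Q T U F) (hT : MTC B Q T) (hr : Reg B Q) {j : ι}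
    (hj : j ∈ T) (hs : 1 ≤ ja B Q (Ep B Q T U F) j) :
    49 * ∑ L ∈ F, (jh B Q j L : ℤ) ≤ sT B Q T U F 15 j := by
  have h2 := h.twelve hr hj
  have h3 : ((∑ L ∈ F, jh B Q j L : ℕ) : ℤ) = ∑ L ∈ F, (jh B Q j L : ℤ) := by push_cast; rfl
  rw [← h3]
  unfold sT
  rcases Nat.eq_zero_or_pos (∑ L ∈ F, jh B Q j L) with h0 | h0
  · omega
  · have h1 := h.special_four hT hr hj h0 hs
    omega

/-- the supply of a triple without hits on allowed blocks, value form. -/
theorem plain_supplyP [DecidableEq ι] (h : Frm B Q T U F) (hr : Reg B Q) {j : ι} (hj : j ∈ T)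
    (hs : ja B Q (Ep B Q T U F) j = 0) :
    sT B Q T U F 15 j = 165 - 2 * ∑ L ∈ F, (jh B Q j L : ℤ) := by
  have h1 := h.plain_supply hr hj hs
  unfold sT
  linarith

/-- a triple with at most four leaf hits supplies at least `39` for every leaf hit. -/
theorem few_supplyP [DecidableEq ι] (h : Frm B Q T U F) (hT : MTC B Q T) (hr : Reg B Q) {j : ι}
    (hj : j ∈ T) (h4 : ∑ L ∈ F, jh B Q j L ≤ 4) :
    39 * ∑ L ∈ F, (jh B Q j L : ℤ) ≤ sT B Q T U F 15 j := by
  have h3 : ((∑ L ∈ F, jh B Q j L : ℕ) : ℤ) = ∑ L ∈ F, (jh B Q j L : ℤ) := by push_cast; rfl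
  rcases Nat.eq_zero_or_pos (ja B Q (Ep B Q T U F) j) with h0 | h0
  · rw [h.plain_supplyP hr hj h0, ← h3]
    omega
  · have h1 := h.special_supplyP hT hr hj h0
    rw [← h3] at h1 ⊢
    omega

/-- **a triple with two points without leaf supplies at least `39` for every leaf hit.** -/
theorem two_dead_supplyP [DecidableEq ι] (h : Frm B Q T U F) (hT : MTC B Q T) (hr : Reg B Q) {j : ι}
    (hj : j ∈ T) {a : V} (ha : a ∈ B j ∩ Q)
    (hd : ∀ b ∈ B j ∩ Q, b ≠ a → ∀ C ∈ F, ∀ w ∈ C, ¬ (gr B).Adj b w) :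
    39 * ∑ L ∈ F, (jh B Q j L : ℤ) ≤ sT B Q T U F 15 j :=
  h.few_supplyP hT hr hj (h.two_dead_supply hT hr hj ha hd).2.1

/-- the supply of a triple in terms of its leaf hits, in all cases. -/
theorem supplyP_ge [DecidableEq ι] (h : Frm B Q T U F) (hT : MTC B Q T) (hr : Reg B Q) {j : ι}
    (hj : j ∈ T) (h1 : 1 ≤ ∑ L ∈ F, jh B Q j L) :
    141 ≤ sT B Q T U F 15 j + 8 := by
  have h3 : ((∑ L ∈ F, jh B Q j L : ℕ) : ℤ) = ∑ L ∈ F, (jh B Q j L : ℤ) := by push_cast; rfl
  have h2 := h.twelve hr hj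
  rcases Nat.eq_zero_or_pos (ja B Q (Ep B Q T U F) j) with h0 | h0
  · rw [h.plain_supplyP hr hj h0, ← h3]
    omega
  · have h4 := h.special_four hT hr hj h1 h0
    unfold sT
    omega

end Frm

end Pool.Agent.Hyp6
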