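import Pool.Agent.Hyp6.L3Cu
import Pool.Agent.Hyp6.L3Pt

/-!
# HYP6 L3St: the star of triples at a node

A family of disjoint triples at the node `W` with demands `d`; if the third points can be absorbed
elsewhere, the potential of `W` is at least the sum of the demands.
-/

set_option autoImplicit false

namespace Pool.Agent.Hyp6

open Finset Pool.Agent.Hyp5

universe u v

variable {V : Type v} [DecidableEq V] {ι : Type u} [Fintype ι] {B : ι → Finset V}

theorem exists_third {T : Finset V} (hT3 : T.card = 3) {p q : V} (hp : p ∈ T) (hq : q ∈ T)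
    (hne : p ≠ q) : ∃ r, Lab T p q r := by
  have hc : (T \ {p, q}).card = 1 := by
    rw [card_sdiff_of_subset (by
      intro v hv
      rw [mem_insert, mem_singleton] at hv
      rcases hv with rfl | rfl
      · exact hp
      · exact hq), hT3, card_pair hne]
  obtain ⟨r, hr⟩ := card_eq_one.1 hc
  have hr' : r ∈ T \ {p, q} := by rw [hr]; simp
  rw [mem_sdiff, mem_insert, mem_singleton] at hr'
  push Not at hr'
  refine ⟨r, ?_, hne, hr'.2.1.symm, hr'.2.2.symm⟩
  ext v
  rw [mem_insert, mem_insert, mem_singleton]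
  constructor
  · intro hv
    by_cases h5 : v = p
    · exact Or.inl h5
    by_cases h6 : v = q
    · exact Or.inr (Or.inl h6)
    have h7 : v ∈ T \ {p, q} := mem_sdiff.2 ⟨hv, by simp [h5, h6]⟩
    rw [hr, mem_singleton] at h7
    exact Or.inr (Or.inr h7)
  · rintro (rfl | rfl | rfl)
    · exact hp
    · exact hq
    · exact hr'.1

/-- the third points see their nodes. -/
def Thirds (B : ι → Finset V) {τ : Type u} (T X : τ → Finset V) (I : Finset τ) (f g r : τ → V) :
    Prop :=
  ∀ t ∈ I, Lab (T t) (f t) (g t) (r t) ∧ (Ez B (X t) (r t)).Nonempty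

/-- **independent star.** -/
theorem star0 {Q W : Finset V} {τ : Type u} [Fintype τ] {T X : τ → Finset V} {d : τ → ℕ}
    (hD : ∀ t, Dem B W (X t) (T t) (d t)) (hWQ : W ⊆ Q) (hWQ' : W.card < Q.card)
    (hT : ∀ t, T t ⊆ Q \ W) (hT3 : ∀ t, (T t).card = 3)
    (hd : ∀ s t, s ≠ t → Disjoint (T s) (T t))
    (hcost : ∀ (I : Finset τ) (f g r : τ → V), Thirds B T X I f g r →
      rho B W + I.card ≤ rho B (W ∪ (I.image f ∪ I.image g)))
    (ih : IHE.{u} V Q.card) (hr : Reg B Q) (h3 : Tr3 B Q) (hW : Conn (gr B) W)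
    (hKW : ¬ KT B W) :
    2 * (ee B Q W : ℤ) + ∑ t : τ, (d t : ℤ) ≤ Pv B W + 1 ∧
    (sv B W ≤ 0 → 2 * (ee B Q W : ℤ) + ∑ t : τ, (d t : ℤ) ≤ Pp B W) := by
  classical
  have hD' : ∀ t : {t : τ // d t ≠ 0}, ∃ (J1 J2 : Finset V) (E1 E2 : Finset ι),
      POpt B W (X t) (T t) J1 J2 E1 E2 ∧
      (d t : ℤ) ≤ 4 * (E2.card : ℤ) - 6 + (if E2.card + 2 ≤ E1.card then 2 else 0) := by
    intro t
    rcases hD t.1 with h | h
    · exact absurd h t.2
    · exact h
  choose J1 J2 E1 E2 hO hv using hD'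
  have hPC : PairCl B Q W J1 J2 E1 E2 := by
    refine PairCl.of_opts (T := fun t => T t.1) (X := fun t => X t.1) hO hWQ (fun t => hT t.1)
      (fun t => hT3 t.1) (fun s t hst => hd s.1 t.1 fun h => hst (Subtype.ext h)) ?_
    intro I f g r hI
    -- extend the functions
    set I' : Finset τ := I.map ⟨Subtype.val, Subtype.val_injective⟩ with hI'
    have hx : ∀ h : {t : τ // d t ≠ 0} → V, ∃ h' : τ → V, ∀ t : {t : τ // d t ≠ 0}, h' t.1 = h t := by
      intro h
      rcases I.eq_empty_or_nonempty with h0 | ⟨t0, _⟩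
      · by_cases hV : Nonempty V
        · obtain ⟨v0⟩ := hV
          exact ⟨fun t => if ht : d t ≠ 0 then h ⟨t, ht⟩ else v0, fun t => by simp [t.2]⟩
        · refine ⟨fun t => absurd ?_ hV, fun t => absurd ⟨h t⟩ hV⟩
          have h3' := hT3 t
          obtain ⟨v, _⟩ := card_pos.1 (by rw [h3']; norm_num : 0 < (T t).card)
          exact ⟨v⟩
      · exact ⟨fun t => if ht : d t ≠ 0 then h ⟨t, ht⟩ else h t0, fun t => by simp [t.2]⟩
    obtain ⟨f', hf'⟩ := hx f
    obtain ⟨g', hg'⟩ := hx g
    obtain ⟨r', hr'⟩ := hx r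
    have h1 := hcost I' f' g' r' (by
      intro t ht
      rw [hI', mem_map] at ht
      obtain ⟨s, hs, rfl⟩ := ht
      simp only [Function.Embedding.coeFn_mk]
      rw [hf', hg', hr']
      exact hI s hs)
    have h2 : I'.image f' = I.image f := by
      ext v
      simp only [hI', mem_image, mem_map, Function.Embedding.coeFn_mk]
      constructor
      · rintro ⟨t, ⟨s, hs, rfl⟩, rfl⟩
        exact ⟨s, hs, (hf' s).symm⟩
      · rintro ⟨s, hs, rfl⟩
        exact ⟨s.1, ⟨s, hs, rfl⟩, hf' s⟩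
    have h3 : I'.image g' = I.image g := by
      ext v
      simp only [hI', mem_image, mem_map, Function.Embedding.coeFn_mk]
      constructor
      · rintro ⟨t, ⟨s, hs, rfl⟩, rfl⟩
        exact ⟨s, hs, (hg' s).symm⟩
      · rintro ⟨s, hs, rfl⟩
        exact ⟨s.1, ⟨s, hs, rfl⟩, hg' s⟩
    rw [h2, h3, hI', card_map] at h1
    exact h1
  have hcard : W.card + 3 * Fintype.card τ ≤ Q.card := by
    have h1 : W ∪ univ.biUnion T ⊆ Q := by
      refine union_subset hWQ (biUnion_subset.2 fun t _ => (hT t).trans sdiff_subset)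
    have h2 : Disjoint W (univ.biUnion T) := by
      rw [disjoint_biUnion_right]
      intro t _
      exact disjoint_of_subset_right (hT t) disjoint_sdiff
    have h4 := card_le_card h1
    rw [card_union_of_disjoint h2, card_biUnion fun s _ t _ hst => hd s t hst,
      sum_congr rfl fun t _ => hT3 t, sum_const, card_univ] at h4
    simp only [smul_eq_mul] at h4
    omega
  have hsub : Fintype.card {t : τ // d t ≠ 0} ≤ Fintype.card τ := Fintype.card_subtype_le _
  have hn : W.card + 2 * Fintype.card {t : τ // d t ≠ 0} < Q.card := by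
    rcases Nat.eq_zero_or_pos (Fintype.card τ) with h0 | h0
    · omega
    · omega
  have hmain := hPC.mainE ih hn hr h3 hW hKW
  have hsum : ∑ t : τ, (d t : ℤ) ≤ ∑ t : {t : τ // d t ≠ 0}, (4 * ((E2 t).card : ℤ) - 6 +
      if (E2 t).card + 2 ≤ (E1 t).card then 2 else 0) := by
    have h1 : ∑ t : τ, (d t : ℤ) = ∑ t : {t : τ // d t ≠ 0}, (d t.1 : ℤ) := by
      have h2 : ∑ t : τ, (d t : ℤ) = ∑ t ∈ univ.filter (fun t : τ => d t ≠ 0), (d t : ℤ) := by
        rw [sum_filter]
        refine sum_congr rfl fun t _ => ?_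
        split_ifs with h
        · rfl
        · push Not at h
          rw [h]
          rfl
      rw [h2]
      exact (sum_subtype (univ.filter (fun t : τ => d t ≠ 0)) (by simp) (fun t => (d t : ℤ)))
    rw [h1]
    exact sum_le_sum fun t _ => hv t
  refine ⟨by linarith [hmain.1], fun hs => ?_⟩
  have h4 := hmain.2.1 hs
  have h5 : (0 : ℤ) ≤ 2 * (((ee B Q W : ℤ) +
      (univ.filter (fun t => (E2 t).card + 2 ≤ (E1 t).card)).card +
      rho B W + Fintype.card {t : τ // d t ≠ 0}) % 2) := by omega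
  linarith

/-- shorter sets of blocks. -/
theorem POpt.trim {W X T J1 J2 : Finset V} {E1 E2 : Finset ι} (h : POpt B W X T J1 J2 E1 E2) {k : ℕ}
    (hk : k ≤ E2.card) (hk0 : 0 < k) : ∃ E1' E2' : Finset ι, POpt B W X T J1 J2 E1' E2' ∧
      E1'.card = k ∧ E2'.card = k := by
  obtain ⟨E1', h1, h1c⟩ := exists_subset_card_eq (hk.trans h.le)
  obtain ⟨E2', h2, h2c⟩ := exists_subset_card_eq hk
  have h4 := h.le4
  exact ⟨E1', E2', ⟨h.J1T, h.J2T, h.J12, h1.trans h.E1J, h2.trans h.E2J,
    card_pos.1 (by omega), by omega, by omega, by omega, h.third⟩, h1c, h2c⟩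

/-- extension of a function from a subtype. -/
theorem exists_ext {τ : Type u} {T : τ → Finset V} (hT3 : ∀ t, (T t).card = 3) {p : τ → Prop}
    (h : {t : τ // p t} → V) : ∃ h' : τ → V, ∀ t : {t : τ // p t}, h' t.1 = h t := by
  classical
  have hne : ∀ t, (T t).Nonempty := fun t => card_pos.1 (by rw [hT3 t]; norm_num)
  exact ⟨fun t => if ht : p t then h ⟨t, ht⟩ else (hne t).choose, fun t => by simp [t.2]⟩

/-- **star with one circuit** at a node of value `-1`. -/
theorem star1 {Q W : Finset V} {τ : Type u} [Fintype τ] {T X : τ → Finset V} {d : τ → ℕ}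
    {C : Finset τ} (hD : ∀ t, Dem B W (X t) (T t) (d t)) (hC3 : 3 ≤ C.card) {t0 : τ}
    (hC : ∀ t ∈ C, 5 ≤ d t ∧ (d t ≤ 6 ∨ (t = t0 ∧ 9 ≤ d t)))
    (hWQ : W ⊆ Q) (hT : ∀ t, T t ⊆ Q \ W) (hT3 : ∀ t, (T t).card = 3)
    (hd : ∀ s t, s ≠ t → Disjoint (T s) (T t))
    (hcost : ∀ (I : Finset τ) (f g r : τ → V), ¬ C ⊆ I → Thirds B T X I f g r →
      rho B W + I.card ≤ rho B (W ∪ (I.image f ∪ I.image g)))
    (ih : IHE.{u} V Q.card) (hr : Reg B Q) (h3 : Tr3 B Q) (hW : Conn (gr B) W)
    (hsv : sv B W + 1 ≤ 0) :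
    2 * (ee B Q W : ℤ) + ∑ t : τ, (d t : ℤ) ≤ Pp B W + 4 := by
  classical
  have hD' : ∀ t : {t : τ // d t ≠ 0}, ∃ (J1 J2 : Finset V) (E1 E2 : Finset ι),
      POpt B W (X t) (T t) J1 J2 E1 E2 ∧
      (d t : ℤ) ≤ 4 * (E2.card : ℤ) - 6 + (if E2.card + 2 ≤ E1.card then 2 else 0) ∧
      (t.1 ∈ C → (d t ≤ 6 → E1.card = 3) ∧ (9 ≤ d t → E1.card = 4)) := by
    intro t
    rcases hD t.1 with h | ⟨J1, J2, E1, E2, hO, hv⟩
    · exact absurd h t.2
    by_cases htC : t.1 ∈ C
    · obtain ⟨h5, h6⟩ := hC t.1 htC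
      have hle4 := hO.le4
      rcases h6 with h6 | ⟨_, h6⟩
      · have hk : 3 ≤ E2.card := by
          split_ifs at hv <;> omega
        obtain ⟨E1', E2', hO', h1c, h2c⟩ := hO.trim hk (by norm_num)
        refine ⟨J1, J2, E1', E2', hO', ?_, fun _ => ⟨fun _ => h1c, fun h9 => by omega⟩⟩
        rw [h1c, h2c]
        norm_num
        omega
      · have hk : 4 ≤ E2.card := by
          split_ifs at hv <;> omega
        obtain ⟨E1', E2', hO', h1c, h2c⟩ := hO.trim hk (by norm_num)
        refine ⟨J1, J2, E1', E2', hO', ?_, fun _ => ⟨fun h9 => by omega, fun _ => h1c⟩⟩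
        rw [h1c, h2c]
        norm_num
        have hle5 := hO.le5
        split_ifs at hv <;> omega
    · exact ⟨J1, J2, E1, E2, hO, hv, fun h => absurd h htC⟩
  choose J1 J2 E1 E2 hO hv hE using hD'
  set C' : Finset {t : τ // d t ≠ 0} := univ.filter (fun t => t.1 ∈ C) with hC'
  have hC'm : C'.map ⟨Subtype.val, Subtype.val_injective⟩ = C := by
    ext t
    rw [mem_map]
    constructor
    · rintro ⟨s, hs, rfl⟩
      exact (mem_filter.1 hs).2
    · intro ht
      have := (hC t ht).1
      exact ⟨⟨t, by omega⟩, mem_filter.2 ⟨mem_univ _, ht⟩, rfl⟩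
  have hC'c : C'.card = C.card := by rw [← hC'm, card_map]
  have hPU : PairU B Q W J1 J2 E1 E2 C' := by
    have hPC : PairCl B Q W J1 J2 E1 E2 → True := fun _ => trivial
    refine ⟨hWQ, fun t => (hO t).J1T.trans (hT t.1), fun t => (hO t).J2T.trans (hT t.1),
      fun t => (hO t).J12, fun s t hst => ?_, fun t => (hO t).E1J, fun t => (hO t).E2J,
      fun t => (hO t).E2ne, fun t => (hO t).le, fun t => (hO t).le4, fun t => (hO t).le5, ?_, ?_⟩
    · exact disjoint_of_subset_left (union_subset (hO s).J1T (hO s).J2T)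
        (disjoint_of_subset_right (union_subset (hO t).J1T (hO t).J2T)
          (hd s.1 t.1 fun h => hst (Subtype.ext h)))
    · -- slots
      have h1 : ∀ t ∈ C', (if t.1 = t0 then 1 else 2) ≤ 5 - (E1 t).card := by
        intro t ht
        have htC := (mem_filter.1 ht).2
        obtain ⟨h5, h6⟩ := hC t.1 htC
        obtain ⟨h7, h8⟩ := hE t htC
        rcases h6 with h6 | ⟨h6, h9⟩
        · rw [h7 h6]
          split_ifs <;> norm_num
        · rw [h8 h9, if_pos h6]
      refine le_trans ?_ (sum_le_sum h1)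
      have h2 : ∑ t ∈ C', (if t.1 = t0 then 1 else 2) + ∑ t ∈ C', (if t.1 = t0 then 1 else 0) =
          2 * C'.card := by
        rw [← sum_add_distrib, mul_comm, ← smul_eq_mul, ← sum_const]
        refine sum_congr rfl fun t _ => ?_
        split_ifs <;> rfl
      have h3 : ∑ t ∈ C', (if t.1 = t0 then 1 else 0) ≤ 1 := by
        rw [← sum_filter, sum_const, smul_eq_mul, mul_one, card_le_one]
        intro a ha b hb
        exact Subtype.ext ((mem_filter.1 ha).2.trans (mem_filter.1 hb).2.symm)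
      omega
    · intro I f g hCI hfg
      have hex : ∀ t : {t : τ // d t ≠ 0}, ∃ r, t ∈ I → Lab (T t) (f t) (g t) r := by
        intro t
        by_cases ht : t ∈ I
        · obtain ⟨h1, h2⟩ := hfg t ht
          have hne : f t ≠ g t := fun he => disjoint_left.1 (hO t).J12 h1 (he ▸ h2)
          obtain ⟨r, hr⟩ := exists_third (hT3 t.1) ((hO t).J1T h1) ((hO t).J2T h2) hne
          exact ⟨r, fun _ => hr⟩
        · exact ⟨f t, fun h => absurd h ht⟩
      choose r hr using hex
      obtain ⟨f', hf'⟩ := exists_ext hT3 f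
      obtain ⟨g', hg'⟩ := exists_ext hT3 g
      obtain ⟨r', hr'⟩ := exists_ext hT3 r
      set I' : Finset τ := I.map ⟨Subtype.val, Subtype.val_injective⟩ with hI'
      have h1 := hcost I' f' g' r' (by
        intro hsub
        apply hCI
        intro t ht
        have h2 : t.1 ∈ I' := hsub (mem_filter.1 ht).2
        rw [hI', mem_map] at h2
        obtain ⟨s, hs, hst⟩ := h2
        have h3 : s = t := Subtype.ext hst
        rwa [h3] at hs) (by
        intro t ht
        rw [hI', mem_map] at ht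
        obtain ⟨s, hs, rfl⟩ := ht
        simp only [Function.Embedding.coeFn_mk]
        rw [hf', hg', hr']
        obtain ⟨h4, h5⟩ := hfg s hs
        exact ⟨hr s hs, (hO s).third _ h4 _ h5 _ (hr s hs).mr (hr s hs).pr.symm
          (hr s hs).qr.symm⟩)
      have h2 : ∀ (h : {t : τ // d t ≠ 0} → V) (h' : τ → V), (∀ t : {t : τ // d t ≠ 0},
          h' t.1 = h t) → I'.image h' = I.image h := by
        intro h h' hh
        ext v
        simp only [hI', mem_image, mem_map, Function.Embedding.coeFn_mk]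
        constructor
        · rintro ⟨t, ⟨s, hs, rfl⟩, rfl⟩
          exact ⟨s, hs, (hh s).symm⟩
        · rintro ⟨s, hs, rfl⟩
          exact ⟨s.1, ⟨s, hs, rfl⟩, hh s⟩
      rw [h2 f f' hf', h2 g g' hg', hI', card_map] at h1
      exact h1
  have hcard : W.card + 3 * Fintype.card τ ≤ Q.card := by
    have h1 : W ∪ univ.biUnion T ⊆ Q := by
      refine union_subset hWQ (biUnion_subset.2 fun t _ => (hT t).trans sdiff_subset)
    have h2 : Disjoint W (univ.biUnion T) := by
      rw [disjoint_biUnion_right]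
      intro t _
      exact disjoint_of_subset_right (hT t) disjoint_sdiff
    have h4 := card_le_card h1
    rw [card_union_of_disjoint h2, card_biUnion fun s _ t _ hst => hd s t hst,
      sum_congr rfl fun t _ => hT3 t, sum_const, card_univ] at h4
    simp only [smul_eq_mul] at h4
    omega
  have hsub : Fintype.card {t : τ // d t ≠ 0} ≤ Fintype.card τ := Fintype.card_subtype_le _
  have hC'le : C'.card ≤ Fintype.card {t : τ // d t ≠ 0} := card_le_univ _
  have hmain := hPU.main ih (by omega) (by omega) hr h3 hW hsv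
  have hsum : ∑ t : τ, (d t : ℤ) ≤ ∑ t : {t : τ // d t ≠ 0}, (4 * ((E2 t).card : ℤ) - 6 +
      if (E2 t).card + 2 ≤ (E1 t).card then 2 else 0) := by
    have h1 : ∑ t : τ, (d t : ℤ) = ∑ t : {t : τ // d t ≠ 0}, (d t.1 : ℤ) := by
      have h2 : ∑ t : τ, (d t : ℤ) = ∑ t ∈ univ.filter (fun t : τ => d t ≠ 0), (d t : ℤ) := by
        rw [sum_filter]
        refine sum_congr rfl fun t _ => ?_
        split_ifs with h
        · rfl
        · push Not at h
          rw [h]
          rfl
      rw [h2]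
      exact (sum_subtype (univ.filter (fun t : τ => d t ≠ 0)) (by simp) (fun t => (d t : ℤ)))
    rw [h1]
    exact sum_le_sum fun t _ => hv t
  linarith

end Pool.Agent.Hyp6
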