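import Pool.Agent.Hyp6.L3E
import Pool.Agent.Hyp6.L3Sp3
import Pool.Agent.Hyp6.L3Nd1

/-!
# HYP6 L3Sum: the final sum of level three

`Pp_parts`, `Pv_parts`: the value of `Q` from the parts of `Q` without `X` (the points of the crossing
triples and of the crossing points `U`). `ee_parts`: the points with two single blocks. `sum_gen`: the
star inequalities, the payments for each triple and the sparse lemma give the bound for the sum.
-/

set_option autoImplicit false

namespace Pool.Agent.Hyp6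

open Finset Pool.Agent.Hyp5

universe u v

section parts

variable {V : Type v} [DecidableEq V] {ι : Type u} [Fintype ι] {B : ι → Finset V}

/-- the value of `Q` from the parts of `Q \ X`. -/
theorem Pp_parts {Q X : Finset V} {F : Finset (Finset V)} {k m : ℕ} (hX : X ⊆ Q)
    (hF : Q \ X = F.biUnion id) (hs : SepF B F) (hc : Cov B Q) (hcard : X.card = 3 * k + m)
    (hrho : rho B Q = rho B (Q \ X) + k) :
    Pp B Q = ∑ C ∈ F, Pp B C - 6 * (k : ℤ) + 4 * (m : ℤ) +
      4 * (((ins B Q X).card : ℤ) - k) := by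
  have hcF : ∀ C ∈ F, Cov B C := fun C hC => hc.mono
    ((subset_biUnion_of_mem id hC).trans (hF ▸ sdiff_subset))
  have h1 := Pp_sdiff (B := B) hX
  rw [h1, hF, Pp_biUnion hcF hs, ← hF, hrho, hcard]
  push_cast
  ring

/-- the potential of `Q` from the parts of `Q \ X`. -/
theorem Pv_parts {Q X : Finset V} {F : Finset (Finset V)} {k m : ℕ} (hX : X ⊆ Q)
    (hF : Q \ X = F.biUnion id) (hs : SepF B F) (hc : Cov B Q) (hcard : X.card = 3 * k + m)
    (hrho : rho B Q = rho B (Q \ X) + k) :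
    Pv B Q = ∑ C ∈ F, Pv B C - 5 * (k : ℤ) + 5 * (m : ℤ) +
      4 * (((ins B Q X).card : ℤ) - k) := by
  have hcF : ∀ C ∈ F, Cov B C := fun C hC => hc.mono
    ((subset_biUnion_of_mem id hC).trans (hF ▸ sdiff_subset))
  have h1 := Pv_sdiff (B := B) hX
  rw [h1, hF, Pv_biUnion hcF hs, ← hF, hrho, hcard]
  push_cast
  ring

/-- the value `sv` of `Q` from the parts of `Q \ X`. -/
theorem sv_parts {Q X : Finset V} {F : Finset (Finset V)} {k m : ℕ} (hX : X ⊆ Q)
    (hF : Q \ X = F.biUnion id) (hs : SepF B F) (hc : Cov B Q) (hcard : X.card = 3 * k + m)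
    (hrho : rho B Q = rho B (Q \ X) + k) :
    sv B Q = ∑ C ∈ F, sv B C + (k : ℤ) + (m : ℤ) := by
  have hcF : ∀ C ∈ F, Cov B C := fun C hC => hc.mono
    ((subset_biUnion_of_mem id hC).trans (hF ▸ sdiff_subset))
  have h1 := sv_biUnion hcF hs
  rw [← hF] at h1
  have h2 := card_sdiff_add_card_eq_card hX
  rw [← h1]
  unfold sv
  rw [hrho, ← h2, hcard]
  push_cast
  ring

/-- the points with two single blocks. -/
theorem ee_parts {Q X : Finset V} {F : Finset (Finset V)} (hX : X ⊆ Q)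
    (hF : Q \ X = F.biUnion id) (hs : SepF B F) :
    ee B Q Q ≤ ∑ C ∈ F, ee B C C + ee B Q X := by
  have h1 : ee B Q Q = ee B Q (Q \ X) + ee B Q X := by
    rw [← ee_union sdiff_disjoint, sdiff_union_of_subset hX]
  rw [h1, hF, ee_biUnion hs]
  refine Nat.add_le_add_right (sum_le_sum fun C hC => ?_) _
  exact ee_le_ee (Subset.refl _)
    ((subset_biUnion_of_mem id hC).trans (hF ▸ sdiff_subset))

/-- the blocks inside `X` which are not single traces. -/
theorem two_ee_add_le {Q X : Finset V} {T : Finset ι} (hT : T ⊆ ins B Q X)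
    (hT3 : ∀ i ∈ T, (B i ∩ Q).card ≠ 1) :
    2 * ee B Q X + T.card ≤ (ins B Q X).card := by
  classical
  have h1 := two_ee_le (B := B) Q X
  have h2 : (ins B Q X).filter (fun i => (B i ∩ Q).card = 1) ⊆ ins B Q X \ T := by
    intro i hi
    obtain ⟨h3, h4⟩ := mem_filter.1 hi
    exact mem_sdiff.2 ⟨h3, fun h => hT3 i h h4⟩
  have h3 := card_le_card h2
  have h4 := card_sdiff_add_card_eq_card hT
  omega

end parts

section sum

variable {W : Type*} [DecidableEq W] {τ : Type*} [DecidableEq τ]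

/-- **the final sum**: `PW C` the values of the classes, `d C T` the demands, `lam T` the payment of
the line of `T` (in units of four), `pay T` the payment from useless blocks, `nn C` the dependency
of the star at `C`, `g` additional circuits, `m` the number of crossing points, `r` the rest. -/
theorem sum_gen {P : Finset W} {Tx T2 : Finset τ} (hT2 : T2 ⊆ Tx) {PW e nn : W → ℤ}
    {d : W → τ → ℤ} {lam pay : τ → ℤ} {g m r r' : ℤ}
    (hst : ∀ C ∈ P, 2 * e C + ∑ T ∈ Tx, d C T ≤ PW C + 4 * nn C)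
    (hd2 : ∀ T ∈ T2, 6 ≤ ∑ C ∈ P, d C T + 4 * lam T + pay T)
    (hd1 : ∀ T ∈ Tx, T ∉ T2 → 6 ≤ ∑ C ∈ P, d C T + pay T)
    (hlin : ∑ C ∈ P, nn C + ∑ T ∈ T2, lam T + g ≤ m)
    (hpay : ∑ T ∈ Tx, pay T + r' ≤ r + 4 * g) :
    2 * ∑ C ∈ P, e C + r' ≤ ∑ C ∈ P, PW C - 6 * (Tx.card : ℤ) + 4 * m + r := by
  have h1 := sum_le_sum hst
  rw [sum_add_distrib, sum_add_distrib, ← mul_sum, ← mul_sum] at h1
  have h2 : ∑ C ∈ P, ∑ T ∈ Tx, d C T = ∑ T ∈ Tx, ∑ C ∈ P, d C T := sum_comm
  have h3 : ∑ T ∈ Tx, (6 : ℤ) ≤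
      ∑ T ∈ Tx, (∑ C ∈ P, d C T + (if T ∈ T2 then 4 * lam T else 0) + pay T) := by
    refine sum_le_sum fun T hT => ?_
    split_ifs with h
    · exact hd2 T h
    · rw [add_zero]
      exact hd1 T hT h
  rw [sum_add_distrib, sum_add_distrib, sum_const, nsmul_eq_mul, ← h2] at h3
  have h4 : ∑ T ∈ Tx, (if T ∈ T2 then 4 * lam T else 0) = 4 * ∑ T ∈ T2, lam T := by
    rw [← sum_filter, filter_mem_eq_inter, inter_eq_right.2 hT2, mul_sum]
  rw [h4] at h3
  linarith

end sum

namespace Sp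

section nd

variable {L : Type*} [DecidableEq L] {α : Type*} [DecidableEq α] {τ : Type*} [DecidableEq τ]
variable {F : Finset L} {U : Finset α} {N : α → Finset L} {Ts : Finset τ} {NT : τ → Finset L}
  {P : Finset (Finset L)}

/-- the dependency of the star of the lines at the class `C`. -/
def nsw (U : Finset α) (N : α → Finset L) (Ts : Finset τ) (NT : τ → Finset L)
    (P : Finset (Finset L)) (C : Finset L) : ℤ :=
  nP U N P (insert C (((T2 U N Ts NT P).filter (fun T => C ∈ ln U N NT P T)).biUnion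
    (ln U N NT P))) -
    ∑ T ∈ (T2 U N Ts NT P).filter (fun T => C ∈ ln U N NT P T),
      (((ln U N NT P T).card : ℤ) - 2)

theorem T2_sub : T2 U N Ts NT P ⊆ Tx Ts NT P := filter_subset _ _

/-- all crossing points are inside the set of all classes. -/
theorem MinP.nP_all (hg : Gd F F U N Ts NT) (h : MinP F F U N Ts NT P) :
    nP U N P P = (Ux U N P).card := by
  have h1 := h.nP_clo hg (Subset.refl P)
  have h2 : clo (nP U N P) P P = P := Subset.antisymm clo_subset (subset_clo (Subset.refl P))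
  rw [h2] at h1
  rw [h1]
  congr 2
  refine filter_true_of_mem fun u hu => ?_
  rw [h.ptn.un]
  exact hg.NU u (mem_filter.1 hu).1

/-- the sparse lemma on the classes. -/
theorem MinP.sparse_sum (hg : Gd F F U N Ts NT) (h : MinP F F U N Ts NT P) :
    ∑ C ∈ P, nsw U N Ts NT P C +
      ∑ T ∈ T2 U N Ts NT P, (((ln U N NT P T).card : ℤ) - 2) ≤ (Ux U N P).card := by
  rw [← h.nP_all hg]
  exact (h.lin hg).main (h.nul hg)

/-- the sparse lemma with circuits on the classes. -/
theorem MinP.sparse_sum3 (hg : Gd F F U N Ts NT) (h : MinP F F U N Ts NT P) {γ : Type*}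
    [DecidableEq γ] {G : Finset γ} {D : γ → Finset (Finset L)} {tl : γ → Finset τ}
    (hG : Crc (nP U N P) P (T2 U N Ts NT P) (ln U N NT P) G D tl) (h2 : 2 ≤ P.card) :
    ∑ C ∈ P, nsw U N Ts NT P C +
      ∑ T ∈ T2 U N Ts NT P, (((ln U N NT P T).card : ℤ) - 2) + G.card ≤ (Ux U N P).card := by
  rw [← h.nP_all hg]
  exact (h.lin hg).main3 (h.nul hg) hG h2

/-- **the sum over the classes**, without useless hits. -/
theorem MinP.sum_main (hg : Gd F F U N Ts NT) (h : MinP F F U N Ts NT P)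
    {PW e : Finset L → ℤ} {d : Finset L → τ → ℤ}
    (hst : ∀ C ∈ P, 2 * e C + ∑ T ∈ Tx Ts NT P, d C T ≤ PW C + 4 * nsw U N Ts NT P C)
    (hd2 : ∀ T ∈ T2 U N Ts NT P,
      6 ≤ ∑ C ∈ P, d C T + 4 * (((ln U N NT P T).card : ℤ) - 2))
    (hd1 : ∀ T ∈ Tx Ts NT P, T ∉ T2 U N Ts NT P → 6 ≤ ∑ C ∈ P, d C T) :
    2 * ∑ C ∈ P, e C ≤
      ∑ C ∈ P, PW C - 6 * ((Tx Ts NT P).card : ℤ) + 4 * ((Ux U N P).card : ℤ) := by
  have h1 := sum_gen (W := Finset L) (τ := τ) T2_sub (PW := PW) (e := e)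
    (nn := nsw U N Ts NT P) (d := d) (lam := fun T => ((ln U N NT P T).card : ℤ) - 2)
    (pay := fun _ => 0) (g := 0) (m := (Ux U N P).card) (r := 0) (r' := 0) hst
    (fun T hT => by rw [add_zero]; exact hd2 T hT)
    (fun T hT hT' => by rw [add_zero]; exact hd1 T hT hT')
    (by rw [add_zero]; exact h.sparse_sum hg) (by rw [sum_const_zero]; norm_num)
  linarith

/-- **the sum over the classes**, with payments for the useless hits: `pay T` is paid by the rest
`r` (E-components, blocks away from the classes) and by additional circuits. -/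
theorem MinP.sum_pay (hg : Gd F F U N Ts NT) (h : MinP F F U N Ts NT P) {γ : Type*}
    [DecidableEq γ] {G : Finset γ} {D : γ → Finset (Finset L)} {tl : γ → Finset τ}
    (hG : Crc (nP U N P) P (T2 U N Ts NT P) (ln U N NT P) G D tl) (h2 : 2 ≤ P.card)
    {PW e : Finset L → ℤ} {d : Finset L → τ → ℤ} {pay : τ → ℤ} {r r' : ℤ}
    (hst : ∀ C ∈ P, 2 * e C + ∑ T ∈ Tx Ts NT P, d C T ≤ PW C + 4 * nsw U N Ts NT P C)
    (hd2 : ∀ T ∈ T2 U N Ts NT P,
      6 ≤ ∑ C ∈ P, d C T + 4 * (((ln U N NT P T).card : ℤ) - 2) + pay T)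
    (hd1 : ∀ T ∈ Tx Ts NT P, T ∉ T2 U N Ts NT P → 6 ≤ ∑ C ∈ P, d C T + pay T)
    (hpay : ∑ T ∈ Tx Ts NT P, pay T + r' ≤ r + 4 * G.card) :
    2 * ∑ C ∈ P, e C + r' ≤
      ∑ C ∈ P, PW C - 6 * ((Tx Ts NT P).card : ℤ) + 4 * ((Ux U N P).card : ℤ) + r :=
  sum_gen (W := Finset L) (τ := τ) T2_sub (PW := PW) (e := e)
    (nn := nsw U N Ts NT P) (d := d) (lam := fun T => ((ln U N NT P T).card : ℤ) - 2)
    (pay := pay) (g := G.card) (m := (Ux U N P).card) (r := r) (r' := r') hst hd2 hd1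
    (h.sparse_sum3 hg hG h2) hpay

end nd

end Sp

end Pool.Agent.Hyp6
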