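import Pool.Agent.Hyp6.L3P6
import Pool.Agent.Hyp6.L3Fph
import Pool.Agent.Hyp6.L3Sr
import Pool.Agent.Hyp6.L3Mqs

/-!
# HYP6 L3Swa: switches

`Swt`: the pattern with six hits at a point leaf without hits of `U`, the third point of the inner block
`k0` is a point of another triple. The exchange at such a leaf gives again an `MTR` frame
(`Swt.mtr`), in which the pattern is reversed (`Swt.rev`) and the other patterns stay (`Swt.keep`).
-/

set_option autoImplicit false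

namespace Pool.Agent.Hyp6

open Finset Pool.Agent.Hyp5

universe u v

variable {V : Type v} [DecidableEq V] {ι : Type u} [Fintype ι] [DecidableEq ι]
  {B : ι → Finset V}

/-- **a switch**: the pattern with six hits at a point leaf without hits of `U`; the third point of the
inner block is a point of another triple. -/
structure Swt (B : ι → Finset V) (Q : Finset V) (T : Finset ι) (U : Finset V)
    (F : Finset (Finset V)) (j i k0 : ι) (a b c x : V) : Prop where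
  pf : Pxf B Q T U F j i k0 a b c x
  g0 : hit B U {x} = 0
  s3 : ∃ m ∈ T, m ≠ j ∧ (B k0 ∩ (B m ∩ Q)).Nonempty

section

variable {Q U : Finset V} {T : Finset ι} {F : Finset (Finset V)} {j i k0 : ι} {a b c x : V}

/-- the exchanged frame. -/
theorem Px.frm_new (h : Px B Q T U F j i a b c x) (hm : MTE B Q T U F) :
    Frm B Q (insert i (T.erase j)) U (insert {a} (F.erase {x})) := by
  obtain ⟨U1, F1, h'⟩ := h.exists_new
  obtain ⟨_, h2, _⟩ := h.mte hm h'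
  have h4 := h.F_new hm h'
  subst h2
  subst h4
  exact h'

omit [DecidableEq ι] in
theorem hit0_not_U {x : V} {U : Finset V} (g0 : hit B U {x} = 0) {k : ι} (hk : x ∈ B k) {u : V}
    (hu : u ∈ U) : u ∉ B k := by
  intro huk
  unfold hit at g0
  have h2 := sum_eq_zero_iff.1 g0 k (cost_mem_tch.2 ⟨x, mem_inter.2 ⟨hk, mem_singleton_self x⟩⟩)
  rw [card_eq_zero] at h2
  exact notMem_empty u (h2 ▸ mem_inter.2 ⟨huk, hu⟩)

/-- the patterns at the other point leaves stay. -/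
theorem Px.keep (h : Px B Q T U F j i a b c x) (hm : MTE B Q T U F) (g0 : hit B U {x} = 0)
    {j2 i2 : ι} {a2 b2 c2 x2 : V} (h2 : Px B Q T U F j2 i2 a2 b2 c2 x2) (hj : j2 ≠ j)
    (hx : x2 ≠ x) :
    Px B Q (insert i (T.erase j)) U (insert {a} (F.erase {x})) j2 i2 a2 b2 c2 x2 := by
  have hxx : ({x2} : Finset V) ≠ {x} := fun he => hx (singleton_injective he)
  refine ⟨h.frm_new hm, mem_insert_of_mem (mem_erase.2 ⟨hj, h2.hj⟩), h2.hjQ,
    mem_insert_of_mem (mem_erase.2 ⟨hxx, h2.hx⟩), ?_, h2.hiQ, h2.hi3⟩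
  intro L hL hne Z hZ
  rcases mem_insert.1 hL with rfl | hL
  · refine (h2.hfree {x} h.hx hxx.symm Z hZ).trans (card_le_card fun C hC => ?_)
    rw [mem_nbF] at hC ⊢
    obtain ⟨h3, h4⟩ := hC
    rw [mem_sdiff, mem_insert, mem_singleton, not_or] at h3
    refine ⟨?_, h4⟩
    rw [mem_sdiff, mem_insert, mem_insert, mem_singleton, not_or]
    refine ⟨Or.inr (mem_erase.2 ⟨h3.2.2, h3.1⟩), h3.2.1, ?_⟩
    rintro rfl
    exact h.a_notF (mem_erase.2 ⟨h3.2.2, h3.1⟩)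
  · obtain ⟨hLx, hLF⟩ := mem_erase.1 hL
    refine (h2.hfree L hLF hne Z hZ).trans (card_le_card fun C hC => ?_)
    rw [mem_nbF] at hC ⊢
    obtain ⟨h3, u, hu, y, hy, hadj⟩ := hC
    rw [mem_sdiff, mem_insert, mem_singleton, not_or] at h3
    refine ⟨?_, u, hu, y, hy, hadj⟩
    rw [mem_sdiff, mem_insert, mem_insert, mem_singleton, not_or]
    refine ⟨Or.inr (mem_erase.2 ⟨?_, h3.1⟩), h3.2⟩
    rintro rfl
    rw [mem_singleton] at hy
    subst hy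
    obtain ⟨_, k, h5, h6⟩ := hadj
    exact hit0_not_U g0 h6 (hZ hu) h5

/-- the reversed pattern. -/
theorem Px.rev (h : Px B Q T U F j i a b c x) (hm : MTE B Q T U F) {y z : V}
    (hjQ : B j ∩ Q = {a, y, z}) (hiQ : B i ∩ Q = {x, y, z}) :
    Px B Q (insert i (T.erase j)) U (insert {a} (F.erase {x})) i j x y z a := by
  refine ⟨h.frm_new hm, mem_insert_self _ _, hiQ, mem_insert_self _ _, ?_, hjQ,
    h.frm.mtp.tpk.pack.card j h.hj⟩
  intro L hL hne Z hZ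
  rcases mem_insert.1 hL with rfl | hL
  · exact absurd rfl hne
  · obtain ⟨hLx, hLF⟩ := mem_erase.1 hL
    refine (h.hfree L hLF hLx Z hZ).trans (card_le_card fun C hC => ?_)
    rw [mem_nbF] at hC ⊢
    obtain ⟨h3, h4⟩ := hC
    rw [mem_sdiff, mem_insert, mem_singleton, not_or] at h3
    refine ⟨?_, h4⟩
    rw [mem_sdiff, mem_insert, mem_insert, mem_singleton, not_or]
    refine ⟨Or.inr (mem_erase.2 ⟨h3.2.1, h3.1⟩), ?_, h3.2.2⟩
    rintro rfl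
    exact h.a_notF (mem_erase.2 ⟨h3.2.1, h3.1⟩)

theorem Pxf.ai (h : Pxf B Q T U F j i k0 a b c x) : a ∉ B i := by
  obtain ⟨hab, hac, _⟩ := h.px.ne
  intro h1
  have h2 : a ∈ B i ∩ Q := mem_inter.2 ⟨h1, h.px.aQ⟩
  rw [h.px.hiQ] at h2
  simp only [mem_insert, mem_singleton] at h2
  rcases h2 with h2 | h2 | h2
  · exact h.px.x_ne.1 h2.symm
  · exact hab h2
  · exact hac h2

theorem Pxf.xj (h : Pxf B Q T U F j i k0 a b c x) : x ∉ B j := fun h1 =>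
  Frm.T_notD h.px.hj h1 h.px.xD

theorem Pxf.ij (h : Pxf B Q T U F j i k0 a b c x) : i ≠ j := fun h1 =>
  h.ai (h1 ▸ h.px.aj)

theorem Pxf.k0j (h : Pxf B Q T U F j i k0 a b c x) : k0 ≠ j := fun h1 =>
  h.ck (h1 ▸ (mem_inter.1 (by rw [h.px.hjQ]; simp : c ∈ B j ∩ Q)).1)

/-- **the reversed pattern**. -/
theorem Pxf.rev (h : Pxf B Q T U F j i k0 a b c x) (hm : MTE B Q T U F) {i1 : ι} {y z : V}
    (hjQ : B j ∩ Q = {a, y, z}) (hiQ : B i ∩ Q = {x, y, z}) (hyz : (y = b ∧ z = c) ∨ (y = c ∧ z = b))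
    (hx1 : x ∈ B i1) (ha1 : a ∉ B i1) (hy1 : y ∈ B i1) (hz1 : z ∉ B i1)
    (hall : ∀ k, x ∈ B k → a ∈ B k ∨ k = i ∨ k = i1) :
    Pxf B Q (insert i (T.erase j)) U (insert {a} (F.erase {x})) i j i1 x y z a := by
  have hbj : b ∈ B j := (mem_inter.1 (by rw [h.px.hjQ]; simp : b ∈ B j ∩ Q)).1
  have hcj : c ∈ B j := (mem_inter.1 (by rw [h.px.hjQ]; simp : c ∈ B j ∩ Q)).1
  have e1 : (univ.filter fun k => a ∈ B k ∧ b ∈ B k) = {j, k0} := by
    ext k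
    rw [mem_filter, mem_insert, mem_singleton]
    constructor
    · rintro ⟨_, h1, h2⟩
      rcases h.all k h1 with h3 | h3
      · exact absurd h2 (h.hno k h3 h1).1
      · exact h3
    · rintro (rfl | rfl)
      · exact ⟨mem_univ _, h.px.aj, hbj⟩
      · exact ⟨mem_univ _, h.ak, h.bk⟩
  have e2 : (univ.filter fun k => a ∈ B k ∧ c ∈ B k) = {j} := by
    ext k
    rw [mem_filter, mem_singleton]
    constructor
    · rintro ⟨_, h1, h2⟩
      rcases h.all k h1 with h3 | h3 | h3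
      · exact absurd h2 (h.hno k h3 h1).2
      · exact h3
      · exact absurd (h3 ▸ h2) h.ck
    · rintro rfl
      exact ⟨mem_univ _, h.px.aj, hcj⟩
  refine ⟨h.px.rev hm hjQ hiQ, ?_, ?_, ?_, ha1, hx1, hy1, hz1, fun k hk => hall k hk⟩
  · rw [← h.ha]
    congr 1
    ext k
    simp only [mem_filter, and_comm]
  · rcases hyz with ⟨rfl, rfl⟩ | ⟨rfl, rfl⟩
    · rw [e1, e2, card_singleton, card_pair h.k0j.symm]
    · rw [e1, e2, card_singleton, card_pair h.k0j.symm]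
  · intro k h1 h2
    obtain ⟨h3, h4⟩ := h.hno k h2 h1
    rcases hyz with ⟨rfl, rfl⟩ | ⟨rfl, rfl⟩
    · exact ⟨h3, h4⟩
    · exact ⟨h4, h3⟩

/-- the point leaves of the patterns are different. -/
theorem Pxf.x_ne2 (h : Pxf B Q T U F j i k0 a b c x) (hr : Reg B Q) {j2 i2 k2 : ι}
    {a2 b2 c2 x2 : V} (h2 : Pxf B Q T U F j2 i2 k2 a2 b2 c2 x2) (hj : j2 ≠ j) : x2 ≠ x := by
  rintro rfl
  have hxi : x2 ∈ B i := (mem_inter.1 (by rw [h.px.hiQ]; simp : x2 ∈ B i ∩ Q)).1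
  have hd := h.px.dis j2 h2.px.hj hj
  have key : ∀ v ∈ B j2 ∩ Q, v ∉ B i := fun v hv hvi =>
    disjoint_left.1 hd (mem_inter.2 ⟨hvi, (mem_inter.1 hv).2⟩) hv
  have hb2 : b2 ∈ B j2 ∩ Q := by rw [h2.px.hjQ]; simp
  have hc2 : c2 ∈ B j2 ∩ Q := by rw [h2.px.hjQ]; simp
  have ha2 : a2 ∈ B j2 ∩ Q := by rw [h2.px.hjQ]; simp
  obtain ⟨i1, _, _, _, hall, h1⟩ := h2.px.fifth hr h2.ha h2.hbc h2.hno
  rcases hall i hxi with h3 | h3 | h3
  · exact key a2 ha2 h3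
  · exact key b2 hb2 (h3 ▸ (mem_inter.1 (by rw [h2.px.hiQ]; simp : b2 ∈ B i2 ∩ Q)).1)
  · rcases h1 with ⟨h4, _⟩ | ⟨_, h4⟩
    · exact key b2 hb2 (h3 ▸ h4)
    · exact key c2 hc2 (h3 ▸ h4)

/-- a block with two points of another triple and a point of `T_j` does not contain `a`. -/
theorem Pxf.a_notin (h : Pxf B Q T U F j i k0 a b c x) {j2 : ι} (hj2 : j2 ∈ T) (hj : j2 ≠ j)
    {p q : V} (hp : p ∈ B j2 ∩ Q) (hq : q ∈ B j2 ∩ Q) (hpq : p ≠ q) {k : ι} (hpk : p ∈ B k)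
    (hqk : q ∈ B k) : a ∉ B k := by
  intro hak
  have hd := h.px.frm.mtp.tpk.pack.disj j2 hj2 j h.px.hj hj
  have haJ : a ∈ B j ∩ Q := by rw [h.px.hjQ]; simp
  have hbJ : b ∈ B j ∩ Q := by rw [h.px.hjQ]; simp
  have hne : ∀ v ∈ B j2 ∩ Q, ∀ w ∈ B j ∩ Q, v ≠ w := fun v hv w hw he =>
    disjoint_left.1 hd hv (he ▸ hw)
  have hxne : ∀ v ∈ B j2 ∩ Q, v ≠ x := fun v hv he =>
    Frm.T_notD hj2 (mem_inter.1 hv).1 (he ▸ h.px.xD)
  have four : ∀ w ∈ Q, w ∈ B k → w ≠ a → w ≠ p → w ≠ q → False := by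
    intro w hw hwk hwa hwp hwq
    have h1 : ({w, a, p, q} : Finset V) ⊆ B k ∩ Q := by
      intro v hv
      simp only [mem_insert, mem_singleton] at hv
      rcases hv with rfl | rfl | rfl | rfl
      · exact mem_inter.2 ⟨hwk, hw⟩
      · exact mem_inter.2 ⟨hak, (mem_inter.1 haJ).2⟩
      · exact mem_inter.2 ⟨hpk, (mem_inter.1 hp).2⟩
      · exact mem_inter.2 ⟨hqk, (mem_inter.1 hq).2⟩
    have h2 := card_le_card h1
    rw [card_insert_of_notMem (by simp [hwa, hwp, hwq]),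
      card_insert_of_notMem (by simp [(hne p hp a haJ).symm, (hne q hq a haJ).symm]),
      card_pair hpq] at h2
    have h3 := h.px.frm.reg3 k
    omega
  rcases h.all k hak with h1 | h1 | h1
  · exact four x (Frm.DQ h.px.xD) h1 h.px.x_ne.1 (hxne p hp).symm (hxne q hq).symm
  · exact disjoint_left.1 hd hp (mem_inter.2 ⟨h1 ▸ hpk, (mem_inter.1 hp).2⟩)
  · exact four b (mem_inter.1 hbJ).2 (h1 ▸ h.bk) h.px.ne.1.symm (hne p hp b hbJ).symm
      (hne q hq b hbJ).symm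

/-- the blocks of `x` and of `a` which differ. -/
theorem Pxf.hbl (h : Pxf B Q T U F j i k0 a b c x) {i1 : ι} (hx1 : x ∈ B i1) (ha1 : a ∉ B i1)
    (hall : ∀ k, x ∈ B k → a ∈ B k ∨ k = i ∨ k = i1) :
    ((univ.filter fun k => x ∈ B k).erase i).erase i1 =
      ((univ.filter fun k => a ∈ B k).erase j).erase k0 := by
  ext k
  simp only [mem_erase, mem_filter, mem_univ, true_and]
  constructor
  · rintro ⟨h5, h6, h7⟩
    rcases hall k h7 with h8 | h8 | h8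
    · exact ⟨fun h9 => h.xk (h9 ▸ h7), fun h9 => h.xj (h9 ▸ h7), h8⟩
    · exact absurd h8 h6
    · exact absurd h8 h5
  · rintro ⟨h5, h6, h7⟩
    rcases h.all k h7 with h8 | h8 | h8
    · exact ⟨fun h9 => ha1 (h9 ▸ h7), fun h9 => h.ai (h9 ▸ h7), h8⟩
    · exact absurd h8 h6
    · exact absurd h8 h5

omit [DecidableEq ι] in
theorem Swt.s_ne (h : Swt B Q T U F j i k0 a b c x) : ∃ m ∈ T, m ≠ j ∧ ∃ s, s ∈ B m ∩ Q ∧
    s ∈ B k0 ∧ s ≠ a ∧ s ≠ b ∧ s ≠ x := by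
  obtain ⟨m, hm, hmj, s, hs⟩ := h.s3
  obtain ⟨h1, h2⟩ := mem_inter.1 hs
  have hd := h.pf.px.frm.mtp.tpk.pack.disj m hm j h.pf.px.hj hmj
  refine ⟨m, hm, hmj, s, h2, h1, ?_, ?_, ?_⟩
  · rintro rfl
    exact disjoint_left.1 hd h2 (by rw [h.pf.px.hjQ]; simp)
  · rintro rfl
    exact disjoint_left.1 hd h2 (by rw [h.pf.px.hjQ]; simp)
  · rintro rfl
    exact Frm.T_notD hm (mem_inter.1 h2).1 h.pf.px.xD

omit [DecidableEq ι] in
theorem Swt.k0_card (h : Swt B Q T U F j i k0 a b c x) : (B k0 ∩ Q).card = 3 := by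
  obtain ⟨m, hm, hmj, s, h1, h2, hsa, hsb, _⟩ := h.s_ne
  have hbJ : b ∈ B j ∩ Q := by rw [h.pf.px.hjQ]; simp
  have h3 : ({a, b, s} : Finset V) ⊆ B k0 ∩ Q := by
    intro v hv
    simp only [mem_insert, mem_singleton] at hv
    rcases hv with rfl | rfl | rfl
    · exact mem_inter.2 ⟨h.pf.ak, h.pf.px.aQ⟩
    · exact mem_inter.2 ⟨h.pf.bk, (mem_inter.1 hbJ).2⟩
    · exact mem_inter.2 ⟨h2, (mem_inter.1 h1).2⟩
  have h4 := card_le_card h3
  rw [card_eq_three.2 ⟨a, b, s, h.pf.px.ne.1, hsa.symm, hsb.symm, rfl⟩] at h4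
  have h5 := h.pf.px.frm.reg3 k0
  omega

/-- **the fifth block is full and its third point is a point of another triple**. -/
theorem Swt.out (h : Swt B Q T U F j i k0 a b c x) (hr : Reg B Q) (hq : MTR B Q T U F) :
    ∃ i1, x ∈ B i1 ∧ a ∉ B i1 ∧ i1 ≠ i ∧ (∀ k, x ∈ B k → a ∈ B k ∨ k = i ∨ k = i1) ∧
      ((b ∈ B i1 ∧ c ∉ B i1) ∨ (b ∉ B i1 ∧ c ∈ B i1)) ∧ (B i1 ∩ Q).card = 3 ∧
      ∃ l ∈ T, l ≠ j ∧ (B i1 ∩ (B l ∩ Q)).Nonempty := by
  obtain ⟨i1, hx1, ha1, hi1, hall, h1⟩ := h.pf.px.fifth hr h.pf.ha h.pf.hbc h.pf.hno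
  have hpb := h.pf.fpb h.g0
  have hxQ : x ∈ Q := Frm.DQ h.pf.px.xD
  have h4 := hq.last h.pf.px h.pf.theta h.pf.sq_le hx1 hi1 h.pf.ak h.pf.k0j
    (h.pf.hbl hx1 ha1 hall)
  have h5 : (B i1 ∩ U).card = 0 := by
    rw [card_eq_zero, eq_empty_iff_forall_notMem]
    intro u hu
    obtain ⟨hu1, hu2⟩ := mem_inter.1 hu
    exact hpb.not_U hx1 hu2 hu1
  have h6 := h4.2 (by omega)
  rw [h.k0_card] at h6
  have h7 := h.pf.px.frm.reg3 i1
  have h8 : (B i1 ∩ Q).card = 3 := by omega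
  refine ⟨i1, hx1, ha1, hi1, hall, h1, h8, ?_⟩
  have h9 : ∃ y z, (y = b ∧ z = c ∨ y = c ∧ z = b) ∧ y ∈ B i1 ∧ z ∉ B i1 := by
    rcases h1 with ⟨h2, h3⟩ | ⟨h2, h3⟩
    · exact ⟨b, c, Or.inl ⟨rfl, rfl⟩, h2, h3⟩
    · exact ⟨c, b, Or.inr ⟨rfl, rfl⟩, h3, h2⟩
  obtain ⟨y, z, hyz, hy1, hz1⟩ := h9
  obtain ⟨v, hv, hvn⟩ : ∃ v ∈ B i1 ∩ Q, v ∉ ({x, y} : Finset V) := by
    by_contra hcon
    push Not at hcon
    have h10 := card_le_card (show B i1 ∩ Q ⊆ {x, y} from hcon)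
    have h11 := card_le_two (a := x) (b := y)
    omega
  rw [mem_insert, mem_singleton, not_or] at hvn
  obtain ⟨hv1, hvQ⟩ := mem_inter.1 hv
  have hvD : v ∉ Dp B Q T := by
    intro hvD
    have hadj : (gr B).Adj x v := ⟨Ne.symm hvn.1, i1, hx1, hv1⟩
    have hvU : v ∉ U := fun h10 => hpb.not_U hx1 h10 hv1
    have h10 := (h.pf.px.frm.ge.sys.closed _ h.pf.px.hx).2 x (mem_singleton_self x) v
      (mem_sdiff.2 ⟨hvD, hvU⟩) hadj
    exact hvn.1 (mem_singleton.1 h10)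
  have hvT : v ∈ T.biUnion B := by
    by_contra h10
    exact hvD (mem_sdiff.2 ⟨hvQ, h10⟩)
  obtain ⟨l, hl, hvl⟩ := mem_biUnion.1 hvT
  refine ⟨l, hl, ?_, v, mem_inter.2 ⟨hv1, mem_inter.2 ⟨hvl, hvQ⟩⟩⟩
  rintro rfl
  have h10 : v ∈ B l ∩ Q := mem_inter.2 ⟨hvl, hvQ⟩
  rw [h.pf.px.hjQ] at h10
  simp only [mem_insert, mem_singleton] at h10
  have h11 : v ≠ z := fun he => hz1 (he ▸ hv1)
  rcases h10 with h10 | h10 | h10
  · exact ha1 (h10 ▸ hv1)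
  · rcases hyz with ⟨h12, h13⟩ | ⟨h12, h13⟩
    · exact hvn.2 (h10.trans h12.symm)
    · exact h11 (h10.trans h13.symm)
  · rcases hyz with ⟨h12, h13⟩ | ⟨h12, h13⟩
    · exact h11 (h10.trans h13.symm)
    · exact hvn.2 (h10.trans h12.symm)

/-- **the exchanged frame is of the last kind again**. -/
theorem Swt.mtr (h : Swt B Q T U F j i k0 a b c x) (hr : Reg B Q) (hq : MTR B Q T U F) :
    MTR B Q (insert i (T.erase j)) U (insert {a} (F.erase {x})) := by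
  have hpx := h.pf.px
  -- the free places of `a`
  obtain ⟨i1, hx1, ha1, hi1, hall, _, hc1, _⟩ := h.out hr hq
  have ht : ∀ v : V, tch B {v} = univ.filter fun k => v ∈ B k := by
    intro v
    ext k
    rw [cost_mem_tch, mem_filter]
    constructor
    · rintro ⟨y, hy⟩
      obtain ⟨h1, h2⟩ := mem_inter.1 hy
      rw [mem_singleton] at h2
      exact ⟨mem_univ _, h2 ▸ h1⟩
    · rintro ⟨_, h1⟩
      exact ⟨v, mem_inter.2 ⟨h1, mem_singleton_self v⟩⟩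
  have hxi : x ∈ B i := (mem_inter.1 (by rw [hpx.hiQ]; simp : x ∈ B i ∩ Q)).1
  have hfe : fs B Q {a} = fs B Q {x} := by
    unfold fs
    rw [ht, ht, ← add_sum_erase (univ.filter fun k => x ∈ B k) _
        (mem_filter.2 ⟨mem_univ _, hxi⟩),
      ← add_sum_erase ((univ.filter fun k => x ∈ B k).erase i) _
        (mem_erase.2 ⟨hi1, mem_filter.2 ⟨mem_univ _, hx1⟩⟩),
      ← add_sum_erase (univ.filter fun k => a ∈ B k) _ (mem_filter.2 ⟨mem_univ _, hpx.aj⟩),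
      ← add_sum_erase ((univ.filter fun k => a ∈ B k).erase j) _
        (mem_erase.2 ⟨h.pf.k0j, mem_filter.2 ⟨mem_univ _, h.pf.ak⟩⟩),
      h.pf.hbl hx1 ha1 hall, hc1, h.k0_card, hpx.hi3, hpx.frm.mtp.tpk.pack.card j hpx.hj]
  refine hpx.mtr hq h.pf.theta h.pf.sq_le ?_ hfe.le
  rw [h.g0]
  exact Nat.zero_le _

/-- **the other switches stay**. -/
theorem Swt.keep (h : Swt B Q T U F j i k0 a b c x) (hr : Reg B Q) (hm : MTE B Q T U F)
    {j2 i2 k2 : ι} {a2 b2 c2 x2 : V} (h2 : Swt B Q T U F j2 i2 k2 a2 b2 c2 x2) (hj : j2 ≠ j) :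
    Swt B Q (insert i (T.erase j)) U (insert {a} (F.erase {x})) j2 i2 k2 a2 b2 c2 x2 := by
  have hx := h.pf.x_ne2 hr h2.pf hj
  have h3 := h2.pf
  refine ⟨⟨h.pf.px.keep hm h.g0 h3.px hj hx, h3.ha, h3.hbc, h3.hno, h3.xk, h3.ak, h3.bk, h3.ck,
    h3.all⟩, h2.g0, ?_⟩
  obtain ⟨m, hmT, hmj, s, hs⟩ := h2.s3
  by_cases hmj' : m = j
  · subst hmj'
    obtain ⟨hs1, hs2⟩ := mem_inter.1 hs
    have hb2 : b2 ∈ B j2 ∩ Q := by rw [h3.px.hjQ]; simp
    have ha2 : a2 ∈ B j2 ∩ Q := by rw [h3.px.hjQ]; simp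
    have han : a ∉ B k2 := h.pf.a_notin h3.px.hj hj ha2 hb2 h3.px.ne.1 h3.ak h3.bk
    have hsi : s ∈ B i ∩ Q := by
      rw [h.pf.px.hjQ] at hs2
      rw [h.pf.px.hiQ]
      simp only [mem_insert, mem_singleton] at hs2 ⊢
      rcases hs2 with h4 | h4 | h4
      · exact absurd (h4 ▸ hs1) han
      · exact Or.inr (Or.inl h4)
      · exact Or.inr (Or.inr h4)
    refine ⟨i, mem_insert_self _ _, ?_, s, mem_inter.2 ⟨hs1, hsi⟩⟩
    rintro rfl
    have h4 := h.pf.px.dis i h3.px.hj hj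
    exact disjoint_left.1 h4 hb2 hb2
  · exact ⟨m, mem_insert_of_mem (mem_erase.2 ⟨hmj', hmT⟩), hmj, s, hs⟩

/-- the reversed switch. -/
theorem Swt.rev (h : Swt B Q T U F j i k0 a b c x) (hr : Reg B Q) (hq : MTR B Q T U F) {i1 : ι}
    (hx1 : x ∈ B i1) (ha1 : a ∉ B i1) (hi1 : i1 ≠ i)
    (hall : ∀ k, x ∈ B k → a ∈ B k ∨ k = i ∨ k = i1)
    (h1 : (b ∈ B i1 ∧ c ∉ B i1) ∨ (b ∉ B i1 ∧ c ∈ B i1)) {l : ι} (hl : l ∈ T) (hlj : l ≠ j)
    (hn : (B i1 ∩ (B l ∩ Q)).Nonempty) :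
    ∃ y z, Swt B Q (insert i (T.erase j)) U (insert {a} (F.erase {x})) i j i1 x y z a := by
  have hp := hq.point h.pf.px h.pf.theta h.pf.sq_le
  rw [h.g0] at hp
  have ha0 : hit B U {a} = 0 := by omega
  have hs3 : ∃ m ∈ insert i (T.erase j), m ≠ i ∧ (B i1 ∩ (B m ∩ Q)).Nonempty := by
    refine ⟨l, mem_insert_of_mem (mem_erase.2 ⟨hlj, hl⟩), ?_, hn⟩
    rintro rfl
    have h4 := h.pf.px.dis l hl hlj
    rw [disjoint_self] at h4
    have h5 := h.pf.px.hi3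
    rw [h4] at h5
    simp at h5
  rcases h1 with ⟨h2, h3⟩ | ⟨h2, h3⟩
  · exact ⟨b, c, h.pf.rev hq.toMTE h.pf.px.hjQ h.pf.px.hiQ (Or.inl ⟨rfl, rfl⟩) hx1 ha1 h2 h3 hall,
      ha0, hs3⟩
  · exact ⟨c, b, h.pf.rev hq.toMTE (by rw [h.pf.px.hjQ, pair_comm b c])
      (by rw [h.pf.px.hiQ, pair_comm b c]) (Or.inr ⟨rfl, rfl⟩) hx1 ha1 h3 h2 hall, ha0, hs3⟩

end

end Pool.Agent.Hyp6
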