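import Pool.Agent.Hyp6.L3Swa

/-!
# HYP6 L3Swb: a frame without bad triples

The switches are the edges of a graph on the triples: the in-end is the triple of the third point of the
inner block `k0`, the out-end is the triple of the third point of the fifth block of `x`. A triple is
bad if it has two in-edges and no out-edge. `exists_noBad`: there is an `MTR` frame without bad
triples.
-/

set_option autoImplicit false

namespace Pool.Agent.Hyp6

open Finset Pool.Agent.Hyp5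

universe u v

variable {V : Type v} [DecidableEq V] {ι : Type u} [Fintype ι] {B : ι → Finset V}

/-- an edge with its in-end at `k`. -/
def InE (B : ι → Finset V) (Q : Finset V) (T : Finset ι) (U : Finset V)
    (F : Finset (Finset V)) (k j : ι) : Prop :=
  ∃ i k0 a b c x, Swt B Q T U F j i k0 a b c x ∧ k ≠ j ∧ (B k0 ∩ (B k ∩ Q)).Nonempty

/-- an edge with its out-end at `z` and its in-end at `m`. -/
def OutE (B : ι → Finset V) (Q : Finset V) (T : Finset ι) (U : Finset V)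
    (F : Finset (Finset V)) (z m j : ι) : Prop :=
  ∃ i k0 a b c x i1, Swt B Q T U F j i k0 a b c x ∧ x ∈ B i1 ∧ a ∉ B i1 ∧ i1 ≠ i ∧ z ≠ j ∧
    (B i1 ∩ (B z ∩ Q)).Nonempty ∧ m ∈ T ∧ m ≠ j ∧ (B k0 ∩ (B m ∩ Q)).Nonempty

/-- a bad triple: two in-edges, no out-edge. -/
def BadT (B : ι → Finset V) (Q : Finset V) (T : Finset ι) (U : Finset V)
    (F : Finset (Finset V)) (k : ι) : Prop :=
  k ∈ T ∧ (∃ j j', j ≠ j' ∧ InE B Q T U F k j ∧ InE B Q T U F k j') ∧
    ∀ m j, ¬ OutE B Q T U F k m j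

omit [Fintype ι] in
/-- the triple of the third point of a block is unique. -/
theorem third_unique {Q U : Finset V} {T : Finset ι} {F : Finset (Finset V)}
    (hf : Frm B Q T U F) {e : ι} {u v : V} (huQ : u ∈ Q) (hvQ : v ∈ Q) (hue : u ∈ B e)
    (hve : v ∈ B e) (huv : u ≠ v) {k m : ι} (hk : k ∈ T) (hm : m ∈ T) (hku : u ∉ B k)
    (hkv : v ∉ B k) (hmu : u ∉ B m) (hmv : v ∉ B m) (h1 : (B e ∩ (B k ∩ Q)).Nonempty)
    (h2 : (B e ∩ (B m ∩ Q)).Nonempty) : k = m := by
  by_contra hne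
  obtain ⟨p, hp⟩ := h1
  obtain ⟨q, hq⟩ := h2
  obtain ⟨hp1, hp2⟩ := mem_inter.1 hp
  obtain ⟨hq1, hq2⟩ := mem_inter.1 hq
  obtain ⟨hp3, hpQ⟩ := mem_inter.1 hp2
  obtain ⟨hq3, hqQ⟩ := mem_inter.1 hq2
  have hpq : p ≠ q := by
    rintro rfl
    exact disjoint_left.1 (hf.mtp.tpk.pack.disj k hk m hm hne) hp2 hq2
  have h3 : ({u, v, p, q} : Finset V) ⊆ B e ∩ Q := by
    intro w hw
    simp only [mem_insert, mem_singleton] at hw
    rcases hw with rfl | rfl | rfl | rfl
    · exact mem_inter.2 ⟨hue, huQ⟩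
    · exact mem_inter.2 ⟨hve, hvQ⟩
    · exact mem_inter.2 ⟨hp1, hpQ⟩
    · exact mem_inter.2 ⟨hq1, hqQ⟩
  have h4 := card_le_card h3
  have e1 : u ≠ p := fun h => hku (h ▸ hp3)
  have e2 : v ≠ p := fun h => hkv (h ▸ hp3)
  have e3 : u ≠ q := fun h => hmu (h ▸ hq3)
  have e4 : v ≠ q := fun h => hmv (h ▸ hq3)
  rw [card_insert_of_notMem (by simp [huv, e1, e3]), card_insert_of_notMem (by simp [e2, e4]),
    card_pair hpq] at h4
  have h5 := hf.reg3 e
  omega

variable [DecidableEq ι]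

section

variable {Q U : Finset V} {T : Finset ι} {F : Finset (Finset V)} {j i k0 : ι} {a b c x : V}

theorem Pxf.not_other (h : Pxf B Q T U F j i k0 a b c x) {k : ι} (hk : k ∈ T) (hkj : k ≠ j)
    {v : V} (hv : v = a ∨ v = b ∨ v = c ∨ v = x) : v ∉ B k := by
  intro hvk
  have hd := h.px.frm.mtp.tpk.pack.disj k hk j h.px.hj hkj
  have h1 : v ∈ B j ∩ Q → False := fun h2 =>
    disjoint_left.1 hd (mem_inter.2 ⟨hvk, (mem_inter.1 h2).2⟩) h2
  rcases hv with rfl | rfl | rfl | rfl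
  · exact h1 (by rw [h.px.hjQ]; simp)
  · exact h1 (by rw [h.px.hjQ]; simp)
  · exact h1 (by rw [h.px.hjQ]; simp)
  · exact Frm.T_notD hk hvk h.px.xD

/-- the in-end is unique. -/
theorem Pxf.in_unique (h : Pxf B Q T U F j i k0 a b c x) {k m : ι} (hk : k ∈ T) (hm : m ∈ T)
    (hkj : k ≠ j) (hmj : m ≠ j) (h1 : (B k0 ∩ (B k ∩ Q)).Nonempty)
    (h2 : (B k0 ∩ (B m ∩ Q)).Nonempty) : k = m := by
  have hbQ : b ∈ Q := (mem_inter.1 (by rw [h.px.hjQ]; simp : b ∈ B j ∩ Q)).2
  exact third_unique h.px.frm h.px.aQ hbQ h.ak h.bk h.px.ne.1 hk hm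
    (h.not_other hk hkj (Or.inl rfl)) (h.not_other hk hkj (Or.inr (Or.inl rfl)))
    (h.not_other hm hmj (Or.inl rfl)) (h.not_other hm hmj (Or.inr (Or.inl rfl))) h1 h2

/-- the out-end is unique. -/
theorem Pxf.out_unique (h : Pxf B Q T U F j i k0 a b c x) {i1 : ι} (hx1 : x ∈ B i1)
    (h3 : (b ∈ B i1 ∧ c ∉ B i1) ∨ (b ∉ B i1 ∧ c ∈ B i1)) {k m : ι} (hk : k ∈ T) (hm : m ∈ T)
    (hkj : k ≠ j) (hmj : m ≠ j) (h1 : (B i1 ∩ (B k ∩ Q)).Nonempty)
    (h2 : (B i1 ∩ (B m ∩ Q)).Nonempty) : k = m := by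
  have hbQ : b ∈ Q := (mem_inter.1 (by rw [h.px.hjQ]; simp : b ∈ B j ∩ Q)).2
  have hcQ : c ∈ Q := (mem_inter.1 (by rw [h.px.hjQ]; simp : c ∈ B j ∩ Q)).2
  have hxQ : x ∈ Q := Frm.DQ h.px.xD
  rcases h3 with ⟨h3, _⟩ | ⟨_, h3⟩
  · exact third_unique h.px.frm hxQ hbQ hx1 h3 h.px.x_ne.2.1 hk hm
      (h.not_other hk hkj (Or.inr (Or.inr (Or.inr rfl)))) (h.not_other hk hkj (Or.inr (Or.inl rfl)))
      (h.not_other hm hmj (Or.inr (Or.inr (Or.inr rfl)))) (h.not_other hm hmj (Or.inr (Or.inl rfl)))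
      h1 h2
  · exact third_unique h.px.frm hxQ hcQ hx1 h3 h.px.x_ne.2.2 hk hm
      (h.not_other hk hkj (Or.inr (Or.inr (Or.inr rfl))))
      (h.not_other hk hkj (Or.inr (Or.inr (Or.inl rfl))))
      (h.not_other hm hmj (Or.inr (Or.inr (Or.inr rfl))))
      (h.not_other hm hmj (Or.inr (Or.inr (Or.inl rfl)))) h1 h2

/-- the fifth block is unique, for all namings of the pattern. -/
theorem Pxf.fifth_unique (h : Pxf B Q T U F j i k0 a b c x) {i1 : ι} (ha1 : a ∉ B i1)
    (h1 : (b ∈ B i1 ∧ c ∉ B i1) ∨ (b ∉ B i1 ∧ c ∈ B i1))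
    (hall : ∀ k, x ∈ B k → a ∈ B k ∨ k = i ∨ k = i1) {i' k0' : ι} {a' b' c' x' : V}
    (h' : Pxf B Q T U F j i' k0' a' b' c' x') {e : ι} (hxe : x' ∈ B e) (hae : a' ∉ B e)
    (hei : e ≠ i') : e = i1 := by
  obtain ⟨hx, ha, _⟩ := h.same h'
  subst hx
  subst ha
  -- `i' = i`
  have hbJ : b ∈ B j ∩ Q := by rw [h.px.hjQ]; simp
  have hcJ : c ∈ B j ∩ Q := by rw [h.px.hjQ]; simp
  obtain ⟨hab, hac, _⟩ := h.px.ne
  have hsub : ∀ v ∈ B j ∩ Q, v ≠ a → v ∈ B i' := by
    intro v hv hva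
    rw [h'.px.hjQ] at hv
    simp only [mem_insert, mem_singleton] at hv
    have h2 : v ∈ B i' ∩ Q := by
      rw [h'.px.hiQ]
      rcases hv with h3 | h3 | h3
      · exact absurd h3 hva
      · rw [h3]; simp
      · rw [h3]; simp
    exact (mem_inter.1 h2).1
  have hbi' := hsub b hbJ hab.symm
  have hci' := hsub c hcJ hac.symm
  have hxi' : x ∈ B i' := (mem_inter.1 (by rw [h'.px.hiQ]; simp : x ∈ B i' ∩ Q)).1
  have hii : i' = i := by
    rcases hall i' hxi' with h2 | h2 | h2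
    · exact absurd h2 h'.ai
    · exact h2
    · exfalso
      rw [h2] at hbi' hci'
      rcases h1 with ⟨_, h3⟩ | ⟨h3, _⟩
      · exact h3 hci'
      · exact h3 hbi'
  rcases hall e hxe with h2 | h2 | h2
  · exact absurd h2 hae
  · exact absurd (h2.trans hii.symm) hei
  · exact h2

theorem swap_back {S : Finset ι} {p q : ι} (hp : p ∈ S) (hq : q ∉ S.erase p) :
    insert p ((insert q (S.erase p)).erase q) = S := by
  rw [erase_insert hq, insert_erase hp]

theorem Pxf.i_notin (h : Pxf B Q T U F j i k0 a b c x) : i ∉ T.erase j := by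
  intro h1
  obtain ⟨h2, h3⟩ := mem_erase.1 h1
  have h4 := h.px.dis i h3 h2
  rw [disjoint_self] at h4
  have h5 := h.px.hi3
  rw [h4] at h5
  simp at h5

/-- the naming of the triples after an exchange. -/
def swp (j i m : ι) : ι := if m = j then i else m

theorem swp_self (j i : ι) : swp j i j = i := if_pos rfl

theorem swp_ne {j i m : ι} (h : m ≠ j) : swp j i m = m := if_neg h

theorem Pxf.swp_mem (_h : Pxf B Q T U F j i k0 a b c x) {m : ι} (hm : m ∈ T) :
    swp j i m ∈ insert i (T.erase j) := by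
  by_cases h1 : m = j
  · rw [h1, swp_self]
    exact mem_insert_self _ _
  · rw [swp_ne h1]
    exact mem_insert_of_mem (mem_erase.2 ⟨h1, hm⟩)

theorem Pxf.swp_inj (h : Pxf B Q T U F j i k0 a b c x) {m m' : ι} (hm : m ∈ T) (hm' : m' ∈ T)
    (he : swp j i m = swp j i m') : m = m' := by
  by_cases h1 : m = j
  · by_cases h2 : m' = j
    · rw [h1, h2]
    · rw [h1, swp_self, swp_ne h2] at he
      exact absurd (mem_erase.2 ⟨h2, hm'⟩) (he ▸ h.i_notin)
  · by_cases h2 : m' = j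
    · rw [h2, swp_self, swp_ne h1] at he
      exact absurd (mem_erase.2 ⟨h1, hm⟩) (he ▸ h.i_notin)
    · rwa [swp_ne h1, swp_ne h2] at he

/-- a block with a point of `T_j` but without `a` has a point of `T_i`. -/
theorem Pxf.move (h : Pxf B Q T U F j i k0 a b c x) {e z : ι} (ha : a ∉ B e)
    (hn : (B e ∩ (B z ∩ Q)).Nonempty) : (B e ∩ (B (swp j i z) ∩ Q)).Nonempty := by
  by_cases hz : z = j
  · subst hz
    obtain ⟨v, hv⟩ := hn
    obtain ⟨h1, h2⟩ := mem_inter.1 hv
    rw [swp_self]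
    refine ⟨v, mem_inter.2 ⟨h1, ?_⟩⟩
    rw [h.px.hjQ] at h2
    rw [h.px.hiQ]
    simp only [mem_insert, mem_singleton] at h2 ⊢
    rcases h2 with h4 | h4 | h4
    · exact absurd (h4 ▸ h1) ha
    · exact Or.inr (Or.inl h4)
    · exact Or.inr (Or.inr h4)
  · rwa [swp_ne hz]

/-- the inner blocks of the other patterns do not contain `a`. -/
theorem Pxf.a_notin_k (h : Pxf B Q T U F j i k0 a b c x) {j2 i2 k2 : ι} {a2 b2 c2 x2 : V}
    (h2 : Pxf B Q T U F j2 i2 k2 a2 b2 c2 x2) (hj : j2 ≠ j) : a ∉ B k2 :=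
  h.a_notin h2.px.hj hj (by rw [h2.px.hjQ]; simp) (by rw [h2.px.hjQ]; simp) h2.px.ne.1 h2.ak h2.bk

/-- the fifth blocks of the other patterns do not contain `a`. -/
theorem Pxf.a_notin_i (h : Pxf B Q T U F j i k0 a b c x) (hr : Reg B Q) {j2 i2 k2 : ι}
    {a2 b2 c2 x2 : V} (h2 : Pxf B Q T U F j2 i2 k2 a2 b2 c2 x2) (hj : j2 ≠ j) {e : ι}
    (hxe : x2 ∈ B e) (hae : a2 ∉ B e) (hei : e ≠ i2) : a ∉ B e := by
  intro hak
  have hxx := h.x_ne2 hr h2 hj
  obtain ⟨i1, _, _, _, hall, h1⟩ := h2.px.fifth hr h2.ha h2.hbc h2.hno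
  have he1 : e = i1 := by
    rcases hall e hxe with h3 | h3 | h3
    · exact absurd h3 hae
    · exact absurd h3 hei
    · exact h3
  obtain ⟨y, hy, hye⟩ : ∃ y ∈ B j2 ∩ Q, y ∈ B e := by
    rw [he1]
    rcases h1 with ⟨h3, _⟩ | ⟨_, h3⟩
    · exact ⟨b2, by rw [h2.px.hjQ]; simp, h3⟩
    · exact ⟨c2, by rw [h2.px.hjQ]; simp, h3⟩
  have hd := h.px.frm.mtp.tpk.pack.disj j2 h2.px.hj j h.px.hj hj
  have haJ : a ∈ B j ∩ Q := by rw [h.px.hjQ]; simp
  have hbJ : b ∈ B j ∩ Q := by rw [h.px.hjQ]; simp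
  have hay : a ≠ y := fun he => disjoint_left.1 hd hy (he ▸ haJ)
  have hby : b ≠ y := fun he => disjoint_left.1 hd hy (he ▸ hbJ)
  have hT : ∀ {m : ι}, m ∈ T → ∀ {v w : V}, v ∈ B m ∩ Q → w ∈ Dp B Q T → v ≠ w :=
    fun hm _ _ hv hw he => Frm.T_notD hm (mem_inter.1 hv).1 (he ▸ hw)
  have ax := hT h.px.hj haJ h.px.xD
  have ax2 := hT h.px.hj haJ h2.px.xD
  have bx2 := hT h.px.hj hbJ h2.px.xD
  have yx := hT h2.px.hj hy h.px.xD
  have yx2 := hT h2.px.hj hy h2.px.xD
  have h5 := h.px.frm.reg3 e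
  have hyQ := (mem_inter.1 hy).2
  rcases h.all e hak with h3 | h3 | h3
  · have h4 : ({x, x2, a, y} : Finset V) ⊆ B e ∩ Q := by
      intro v hv
      simp only [mem_insert, mem_singleton] at hv
      rcases hv with rfl | rfl | rfl | rfl
      · exact mem_inter.2 ⟨h3, Frm.DQ h.px.xD⟩
      · exact mem_inter.2 ⟨hxe, Frm.DQ h2.px.xD⟩
      · exact mem_inter.2 ⟨hak, h.px.aQ⟩
      · exact mem_inter.2 ⟨hye, hyQ⟩
    have h6 := card_le_card h4
    rw [card_insert_of_notMem (by simp [hxx.symm, ax.symm, yx.symm]),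
      card_insert_of_notMem (by simp [ax2.symm, yx2.symm]), card_pair hay] at h6
    omega
  · exact Frm.T_notD h.px.hj (h3 ▸ hxe) h2.px.xD
  · have h4 : ({a, b, x2, y} : Finset V) ⊆ B e ∩ Q := by
      intro v hv
      simp only [mem_insert, mem_singleton] at hv
      rcases hv with rfl | rfl | rfl | rfl
      · exact mem_inter.2 ⟨hak, h.px.aQ⟩
      · exact mem_inter.2 ⟨h3 ▸ h.bk, (mem_inter.1 hbJ).2⟩
      · exact mem_inter.2 ⟨hxe, Frm.DQ h2.px.xD⟩
      · exact mem_inter.2 ⟨hye, hyQ⟩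
    have h6 := card_le_card h4
    rw [card_insert_of_notMem (by simp [h.px.ne.1, ax2, hay]),
      card_insert_of_notMem (by simp [bx2, hby]), card_pair yx2.symm] at h6
    omega

/-- the in-edges of the other switches stay. -/
theorem Swt.inE_move (h : Swt B Q T U F j i k0 a b c x) (hr : Reg B Q) (hm : MTE B Q T U F)
    {z jz : ι} (hjz : jz ≠ j) (hI : InE B Q T U F z jz) :
    InE B Q (insert i (T.erase j)) U (insert {a} (F.erase {x})) (swp j i z) jz := by
  obtain ⟨i2, k2, a2, b2, c2, x2, h2, h3, h4⟩ := hI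
  refine ⟨i2, k2, a2, b2, c2, x2, h.keep hr hm h2 hjz, ?_, h.pf.move (h.pf.a_notin_k h2.pf hjz) h4⟩
  intro he
  by_cases hz : z = j
  · rw [hz, swp_self] at he
    exact h.pf.i_notin (mem_erase.2 ⟨he ▸ hjz, he ▸ h2.pf.px.hj⟩)
  · rw [swp_ne hz] at he
    exact h3 he

/-- the out-edges of the other switches stay. -/
theorem Swt.outE_move (h : Swt B Q T U F j i k0 a b c x) (hr : Reg B Q) (hm : MTE B Q T U F)
    {z m jz : ι} (hjz : jz ≠ j) (hO : OutE B Q T U F z m jz) :
    OutE B Q (insert i (T.erase j)) U (insert {a} (F.erase {x})) (swp j i z) (swp j i m) jz := by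
  obtain ⟨i2, k2, a2, b2, c2, x2, e, h2, h3, h4, h5, h6, h7, h8, h9, h10⟩ := hO
  have hne : ∀ {v : ι}, v ≠ jz → swp j i v ≠ jz := by
    intro v hv he
    by_cases hz : v = j
    · rw [hz, swp_self] at he
      exact h.pf.i_notin (mem_erase.2 ⟨he ▸ hjz, he ▸ h2.pf.px.hj⟩)
    · rw [swp_ne hz] at he
      exact hv he
  exact ⟨i2, k2, a2, b2, c2, x2, e, h.keep hr hm h2 hjz, h3, h4, h5, hne h6,
    h.pf.move (h.pf.a_notin_i hr h2.pf hjz h3 h4 h5) h7, h.pf.swp_mem h8, hne h9,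
    h.pf.move (h.pf.a_notin_k h2.pf hjz) h10⟩

/-- **one exchange**. -/
theorem Swt.step (h : Swt B Q T U F j i k0 a b c x) (hr : Reg B Q) (hq : MTR B Q T U F) :
    ∃ l ∈ T, l ≠ j ∧
      (∀ k ∈ T, k ≠ j → (B k0 ∩ (B k ∩ Q)).Nonempty →
        OutE B Q (insert i (T.erase j)) U (insert {a} (F.erase {x})) k l i) ∧
      (∀ m ∈ T, m ≠ l →
        BadT B Q (insert i (T.erase j)) U (insert {a} (F.erase {x})) (swp j i m) →
        BadT B Q T U F m) := by
  obtain ⟨i1, hx1, ha1, hi1, hall, h1, hc1, l, hl, hlj, hn⟩ := h.out hr hq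
  obtain ⟨y, z, hrev⟩ := h.rev hr hq hx1 ha1 hi1 hall h1 hl hlj hn
  have hm' := h.mtr hr hq
  have hiT := h.pf.i_notin
  have hiT' : i ∉ T := fun h2 => hiT (mem_erase.2 ⟨h.pf.ij, h2⟩)
  have hli : l ≠ i := fun h2 => hiT' (h2 ▸ hl)
  have hTT : insert j ((insert i (T.erase j)).erase i) = T := swap_back h.pf.px.hj hiT
  have hFF : insert {x} ((insert {a} (F.erase {x})).erase {a}) = F := by
    rw [erase_insert h.pf.px.a_notF, insert_erase h.pf.px.hx]
  refine ⟨l, hl, hlj, fun k hk hkj hkn => ?_, fun m hm hml hbad => ?_⟩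
  · -- the out-edge of the in-end
    exact ⟨j, i1, x, y, z, a, k0, hrev, h.pf.ak, h.pf.xk, h.pf.k0j,
      fun he => hiT' (he ▸ hk), hkn, mem_insert_of_mem (mem_erase.2 ⟨hlj, hl⟩), hli, hn⟩
  · -- the bad triples
    obtain ⟨hmT, ⟨j1, j2, h12, hI1, hI2⟩, hno⟩ := hbad
    have inb : ∀ jz, InE B Q (insert i (T.erase j)) U (insert {a} (F.erase {x})) (swp j i m) jz →
        InE B Q T U F m jz := by
      intro jz hI
      by_cases hji : jz = i
      · exfalso
        subst hji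
        obtain ⟨i2, k2, a2, b2, c2, x2, h2, h3, h4⟩ := hI
        have hmj : m ≠ j := by
          rintro rfl
          exact h3 (swp_self _ _)
        rw [swp_ne hmj] at h4
        obtain ⟨_, _, hk⟩ := hrev.pf.same h2.pf
        rw [← hk] at h4
        exact hml (h.pf.out_unique hx1 h1 hm hl hmj hlj h4 hn)
      · have h5 := hrev.inE_move hr hm'.toMTE hji hI
        rw [hTT, hFF] at h5
        have h6 : swp i j (swp j i m) = m := by
          by_cases hmj : m = j
          · rw [hmj, swp_self, swp_self]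
          · have h7 : m ≠ i := fun he => hiT' (he ▸ hm)
            rw [swp_ne hmj, swp_ne h7]
        rwa [h6] at h5
    refine ⟨hm, ⟨j1, j2, h12, inb _ hI1, inb _ hI2⟩, fun m' jz hO => ?_⟩
    by_cases hjz : jz = j
    · subst hjz
      obtain ⟨i2, k2, a2, b2, c2, x2, e, h2, h3, h4, h5, h6, h7, h8, h9, h10⟩ := hO
      have h11 : e = i1 := h.pf.fifth_unique ha1 h1 hall h2.pf h3 h4 h5
      subst h11
      exact hml (h.pf.out_unique hx1 h1 hm hl h6 hlj h7 hn)
    · exact hno _ _ (h.outE_move hr hq.toMTE hjz hO)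

open Classical in
/-- **the walk**: in the frames with the smallest number of bad triples there is no bad triple. -/
theorem bad_walk (hr : Reg B Q) {N : ℕ}
    (hmin : ∀ T' U' F', MTR B Q T' U' F' → N ≤ (T'.filter (BadT B Q T' U' F')).card) :
    ∀ (n : ℕ) (T : Finset ι) (F : Finset (Finset V)) (k j0 : ι) (Z : Finset ι),
      MTR B Q T U F → (T.filter (BadT B Q T U F)).card = N → BadT B Q T U F k → Z ⊆ T →
      T.card < Z.card + n → k ∉ Z →
      (∀ z ∈ Z, ∃ m jz, OutE B Q T U F z m jz ∧ (m ∈ Z ∨ (m = k ∧ jz = j0))) →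
      False := by
  intro n
  induction n with
  | zero =>
    intro T F k j0 Z _ _ _ hZ hc _ _
    have := card_le_card hZ
    omega
  | succ n ih =>
    intro T F k j0 Z hq hN hk hZ hc hkZ hinv
    obtain ⟨hkT, ⟨j1, j2, h12, hI1, hI2⟩, hno⟩ := hk
    -- an in-edge which is not the last one
    obtain ⟨j, hj0, hI⟩ : ∃ j, j ≠ j0 ∧ InE B Q T U F k j := by
      by_cases h1 : j1 = j0
      · exact ⟨j2, fun h2 => h12 (h1.trans h2.symm), hI2⟩
      · exact ⟨j1, h1, hI1⟩
    obtain ⟨i, k0, a, b, c, x, h, hkj, hkn⟩ := hI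
    obtain ⟨l, hl, hlj, s1, s2⟩ := h.step hr hq
    have hm' := h.mtr hr hq
    have hiT := h.pf.i_notin
    have hkout := s1 k hkT hkj hkn
    have hkbad : ¬ BadT B Q (insert i (T.erase j)) U (insert {a} (F.erase {x})) k :=
      fun h1 => h1.2.2 _ _ hkout
    have hkf : k ∈ T.filter (BadT B Q T U F) :=
      mem_filter.2 ⟨hkT, hkT, ⟨j1, j2, h12, hI1, hI2⟩, hno⟩
    have hsub : (insert i (T.erase j)).filter
        (BadT B Q (insert i (T.erase j)) U (insert {a} (F.erase {x}))) ⊆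
        insert l (((T.filter (BadT B Q T U F)).erase k).image (swp j i)) := by
      intro m hm
      obtain ⟨h1, h2⟩ := mem_filter.1 hm
      rcases mem_insert.1 h1 with h1 | h1
      · refine mem_insert_of_mem (mem_image.2 ⟨j, mem_erase.2 ⟨hkj.symm, mem_filter.2
          ⟨h.pf.px.hj, s2 j h.pf.px.hj hlj.symm ?_⟩⟩, ?_⟩)
        · rw [swp_self]
          exact h1 ▸ h2
        · rw [swp_self, h1]
      · obtain ⟨h3, h4⟩ := mem_erase.1 h1
        by_cases hml : m = l
        · rw [hml]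
          exact mem_insert_self _ _
        · refine mem_insert_of_mem (mem_image.2 ⟨m, mem_erase.2 ⟨?_, mem_filter.2
            ⟨h4, s2 m h4 hml ?_⟩⟩, swp_ne h3⟩)
          · rintro rfl
            exact hkbad h2
          · rw [swp_ne h3]
            exact h2
    have hNe : ((T.filter (BadT B Q T U F)).erase k).card + 1 = N := by
      rw [card_erase_add_one hkf, hN]
    have hNi : (((T.filter (BadT B Q T U F)).erase k).image (swp j i)).card ≤
        ((T.filter (BadT B Q T U F)).erase k).card := card_image_le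
    have hle := hmin _ _ _ hm'
    have hlbad : BadT B Q (insert i (T.erase j)) U (insert {a} (F.erase {x})) l := by
      by_contra hnb
      have h1 : (insert i (T.erase j)).filter
          (BadT B Q (insert i (T.erase j)) U (insert {a} (F.erase {x}))) ⊆
          ((T.filter (BadT B Q T U F)).erase k).image (swp j i) := by
        intro m hm
        rcases mem_insert.1 (hsub hm) with h2 | h2
        · exact absurd (h2 ▸ (mem_filter.1 hm).2) hnb
        · exact h2
      have h2 := card_le_card h1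
      omega
    have hN' : ((insert i (T.erase j)).filter
        (BadT B Q (insert i (T.erase j)) U (insert {a} (F.erase {x})))).card = N := by
      have h1 := card_le_card hsub
      have h2 := card_insert_le l (((T.filter (BadT B Q T U F)).erase k).image (swp j i))
      omega
    have hki : swp j i k = k := swp_ne hkj
    -- the out-edges of the old triples stay
    have hOz : ∀ z ∈ Z, ∃ m jz, OutE B Q (insert i (T.erase j)) U (insert {a} (F.erase {x}))
        (swp j i z) (swp j i m) jz ∧ (m ∈ Z ∨ m = k) := by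
      intro z hz
      obtain ⟨m, jz, hO, hor⟩ := hinv z hz
      have hjz : jz ≠ j := by
        rcases hor with h1 | ⟨_, h1⟩
        · rintro rfl
          obtain ⟨i2, k2, a2, b2, c2, x2, e, h2, h3, h4, h5, h6, h7, h8, h9, h10⟩ := hO
          obtain ⟨_, _, hkk⟩ := h.pf.same h2.pf
          rw [← hkk] at h10
          have h11 := h.pf.in_unique hkT h8 hkj h9 hkn h10
          exact hkZ (h11 ▸ h1)
        · rw [h1]
          exact hj0.symm
      refine ⟨m, jz, h.outE_move hr hq.toMTE hjz hO, ?_⟩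
      rcases hor with h1 | ⟨h1, _⟩
      · exact Or.inl h1
      · exact Or.inr h1
    have hkim : k ∉ Z.image (swp j i) := by
      intro h1
      obtain ⟨z, hz, h2⟩ := mem_image.1 h1
      have h3 := h.pf.swp_inj (hZ hz) hkT (h2.trans hki.symm)
      exact hkZ (h3 ▸ hz)
    refine ih (insert i (T.erase j)) (insert {a} (F.erase {x})) l i
      (insert k (Z.image (swp j i))) hm' hN' hlbad ?_ ?_ ?_ ?_
    · intro z hz
      rcases mem_insert.1 hz with rfl | hz
      · exact mem_insert_of_mem (mem_erase.2 ⟨hkj, hkT⟩)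
      · obtain ⟨z', hz', rfl⟩ := mem_image.1 hz
        exact h.pf.swp_mem (hZ hz')
    · have h1 : (Z.image (swp j i)).card = Z.card := card_image_of_injOn fun z hz z' hz' he =>
        h.pf.swp_inj (hZ (mem_coe.1 hz)) (hZ (mem_coe.1 hz')) he
      rw [card_insert_of_notMem hiT, card_insert_of_notMem hkim, h1]
      have := card_erase_add_one h.pf.px.hj
      omega
    · intro hlZ
      rcases mem_insert.1 hlZ with rfl | hlZ
      · exact hkbad hlbad
      · obtain ⟨z, hz, h1⟩ := mem_image.1 hlZ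
        obtain ⟨m, jz, hO, _⟩ := hOz z hz
        rw [h1] at hO
        exact hlbad.2.2 _ _ hO
    · intro z hz
      rcases mem_insert.1 hz with rfl | hz
      · exact ⟨l, i, hkout, Or.inr ⟨rfl, rfl⟩⟩
      · obtain ⟨z', hz', rfl⟩ := mem_image.1 hz
        obtain ⟨m, jz, hO, hor⟩ := hOz z' hz'
        refine ⟨swp j i m, jz, hO, Or.inl ?_⟩
        rcases hor with h1 | h1
        · exact mem_insert_of_mem (mem_image.2 ⟨m, h1, rfl⟩)
        · rw [h1, hki]
          exact mem_insert_self _ _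

/-- **there is an `MTR` frame without bad triples**. -/
theorem exists_noBad (hr : Reg B Q) (hc : Cov B Q) (h3 : Tr3 B Q) :
    ∃ (T : Finset ι) (U : Finset V) (F : Finset (Finset V)), MTR B Q T U F ∧
      ∀ k, ¬ BadT B Q T U F k := by
  classical
  have hex : ∃ n, ∃ (T : Finset ι) (U : Finset V) (F : Finset (Finset V)), MTR B Q T U F ∧
      (T.filter (BadT B Q T U F)).card = n := by
    obtain ⟨T, U, F, h⟩ := exists_MTR (B := B) hc h3
    exact ⟨_, T, U, F, h, rfl⟩
  obtain ⟨T, U, F, h, hn⟩ := Nat.find_spec hex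
  refine ⟨T, U, F, h, fun k hk => ?_⟩
  refine bad_walk (U := U) hr (N := Nat.find hex) (fun T' U' F' h' => ?_) (T.card + 1) T F k k ∅ h ?_ hk
    (empty_subset _) ?_ (notMem_empty _) (fun z hz => absurd hz (notMem_empty _))
  · refine Nat.find_min' hex ⟨T', U', F', h', ?_⟩
    congr
  · rw [← hn]
  · rw [card_empty]
    omega

end

end Pool.Agent.Hyp6
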