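import Pool.Agent.Hyp6.L3Fpg
import Pool.Agent.Hyp6.L3P8b

/-!
# HYP6 L3Ti: the triples with claims whose other two points see one small leaf

`Fpb.mirror_ref`: the two points are refused by every own leaf `W`. `StgR.cl_cases`: the two kinds of
triples with claims. `StgR.host_two`: the two points have together at most as many hits on their leaf
(one or three points, its own parallel class) as it has single blocks. `StgR.host_all`: the hits and the
claims.
-/

set_option autoImplicit false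

namespace Pool.Agent.Hyp6

open Finset Pool.Agent.Hyp5 Rt

universe u v

variable {V : Type v} [DecidableEq V] {ι : Type u} [Fintype ι] [DecidableEq ι]
  {B : ι → Finset V}

/-- **the mirror rule, pairs**: `s` is the third point of the inner block `k0` of the free point `a`: the
other two points of the triple of `s` are refused by every own leaf. -/
theorem Fpb.mirror_ref {Q U : Finset V} {T : Finset ι}
    {F : Finset (Finset V)} {j i k0 : ι} {a b c x : V} (h : Fpb B Q T U F j i k0 a b c x)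
    (hq : MTR B Q T U F) {k : ι} (hk : k ∈ T)
    (hkj : k ≠ j) {p q s : V} (hTk : B k ∩ Q = {p, q, s}) (hs : s ∈ B k0)
    {W : Finset V} (hW : W ∈ F) (hWx : W ≠ {x})
    (hfree : ∀ L ∈ F, L ≠ W → ∀ Z ⊆ U, Z.card ≤ (nbF (gr B) (F \ {W, L}) Z).card) :
    rho B W + 1 ≤ rho B (insert p (insert q W)) := by
  have hf := h.px.frm
  have hm := h.mirror hq.toMTE
  have hsk : s ∈ B k ∩ Q := by rw [hTk]; simp
  have hdis := hf.mtp.tpk.pack.disj k hk j h.px.hj hkj
  have haj : a ∈ B j ∩ Q := h.aQ'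
  have hsa : s ≠ a := by
    rintro rfl
    exact disjoint_left.1 hdis hsk haj
  have hki : k ∈ insert i (T.erase j) := mem_insert_of_mem (mem_erase.2 ⟨hkj, hk⟩)
  have hWn : W ∈ insert {a} (F.erase {x}) := mem_insert_of_mem (mem_erase.2 ⟨hWx, hW⟩)
  have hxU : ∀ u ∈ U, ∀ y ∈ ({x} : Finset V), ¬ (gr B).Adj u y := by
    intro u hu y hy
    rw [mem_singleton.1 hy]
    rintro ⟨_, m, h6, h7⟩
    exact h.not_U h7 hu h6
  have hWa : ({a} : Finset V) ≠ W := fun he =>
    h.px.notD (z := a) (by simp) (hf.FD hW (he ▸ mem_singleton_self a))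
  refine hm.frm.pair_ref3 hki hWn ?_ hTk
    ⟨{a}, mem_insert_self _ _, hWa, a, mem_singleton_self a, hsa, k0, hs, h.ak⟩
  intro L hL hLW Z hZ
  rcases mem_insert.1 hL with rfl | hL
  · have h6 := hfree {x} h.px.hx hWx.symm Z hZ
    refine h6.trans (card_le_card fun M hM => ?_)
    obtain ⟨h7, z, hz, y, hy, hzy⟩ := mem_nbF.1 hM
    obtain ⟨h8, h9⟩ := mem_sdiff.1 h7
    rw [mem_insert, mem_singleton, not_or] at h9
    refine mem_nbF.2 ⟨mem_sdiff.2 ⟨mem_insert_of_mem (mem_erase.2 ⟨h9.2, h8⟩), ?_⟩, z, hz, y, hy,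
      hzy⟩
    rw [mem_insert, mem_singleton, not_or]
    refine ⟨h9.1, ?_⟩
    rintro rfl
    exact h.px.notD (z := a) (by simp) (hf.FD h8 (mem_singleton_self a))
  · obtain ⟨h10, h11⟩ := mem_erase.1 hL
    have h6 := hfree L h11 hLW Z hZ
    refine h6.trans (card_le_card fun M hM => ?_)
    obtain ⟨h7, z, hz, y, hy, hzy⟩ := mem_nbF.1 hM
    obtain ⟨h8, h9⟩ := mem_sdiff.1 h7
    refine mem_nbF.2 ⟨mem_sdiff.2 ⟨mem_insert_of_mem (mem_erase.2 ⟨?_, h8⟩), h9⟩, z, hz, y, hy,
      hzy⟩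
    rintro rfl
    exact hxU z (hZ hz) y hy hzy

namespace StgR

variable {Q U : Finset V} {T : Finset ι} {F : Finset (Finset V)}
  {P : Finset (Finset (Finset V))} {a : V → Finset (Finset V) → ℕ} {L : Finset V} {k : ι}

/-- a triple with claims: there is a point without leaves and claims, or all claims are at one point and
the other two see a leaf and only leaves of one parallel class. -/
theorem cl_cases (s : StgR B Q T U F P a) (hkT : k ∈ T) (hk : Far B Q T U F P k)
    (hc : 0 < ncl B Q T U F P k) :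
    (∃ r ∈ B k ∩ Q, slf B F r = ∅ ∧ ncp B Q (Kf B Q T U F P) k r = 0) ∨
    ∃ v p q, B k ∩ Q = {p, q, v} ∧ v ≠ p ∧ v ≠ q ∧ p ≠ q ∧
      0 < ncp B Q (Kf B Q T U F P) k v ∧ ncp B Q (Kf B Q T U F P) k p = 0 ∧
      ncp B Q (Kf B Q T U F P) k q = 0 ∧ (slf B F p).Nonempty ∧ (slf B F q).Nonempty ∧
      ∃ D ∈ par0 B U F, slf B F p ⊆ D ∧ slf B F q ⊆ D := by
  by_cases hdead : ∃ p ∈ B k ∩ Q, slf B F p = ∅
  · exact Or.inl (s.dead_free hkT hdead (Or.inl hk))
  push Not at hdead
  rcases s.one_or_dead hkT hc with ⟨v, hv, h0, h1⟩ | h3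
  swap
  · exact Or.inl h3
  right
  have hcv : 0 < ncp B Q (Kf B Q T U F P) k v := by omega
  obtain ⟨k0, hk0, hc0, hvk0⟩ := ncp_pos (B := B) hcv.ne'
  obtain ⟨j', i', a', b', c', x, h⟩ := Kf_cla.1 hk0
  have hkj := h.1.claim_ne hc0
  obtain ⟨p, q, hT, hvp, hvq, hpq⟩ : ∃ b c, B k ∩ Q = {v, b, c} ∧ v ≠ b ∧ v ≠ c ∧ b ≠ c := by
    obtain ⟨y1, y2, y3, hT, hxy, hxz, hyz⟩ := s.frm.three_points hkT
    rw [hT] at hv
    simp only [mem_insert, mem_singleton] at hv
    rcases hv with rfl | rfl | rfl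
    · exact ⟨y2, y3, hT, hxy, hxz, hyz⟩
    · refine ⟨y1, y3, ?_, hxy.symm, hyz, hxz⟩
      rw [hT]
      ext v
      simp only [mem_insert, mem_singleton]
      tauto
    · refine ⟨y1, y2, ?_, hxz.symm, hyz.symm, hxy⟩
      rw [hT]
      ext v
      simp only [mem_insert, mem_singleton]
      tauto
  have hp : p ∈ B k ∩ Q := by rw [hT]; simp
  have hq : q ∈ B k ∩ Q := by rw [hT]; simp
  have hnx : ∀ w ∈ B k ∩ Q, ¬ slf B F w ⊆ {{x}} := by
    intro w hw h4
    obtain ⟨L, hL⟩ := hdead w hw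
    exact hk.1 _ _ _ _ _ _ _ h.1 hkj w hw ((mem_singleton.1 (h4 hL)) ▸ hL)
  rcases h.1.fpb.donor s.frm.sur s.par (h.1.xpar s.toStg) hkT hkj hT hvp hvq hpq hvk0 with
    h4 | h4 | ⟨D, hD, h4, h5⟩
  · exact absurd h4 (hnx p hp)
  · exact absurd h4 (hnx q hq)
  have h6 : ∀ w, w ∈ B k ∩ Q → slf B F w ⊆ insert {x} D → slf B F w ⊆ D := by
    intro w hw h5 L hL
    rcases mem_insert.1 (h5 hL) with h6 | h6
    · exact (hk.1 _ _ _ _ _ _ _ h.1 hkj w hw (h6 ▸ hL)).elim
    · exact h6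
  refine ⟨v, p, q, ?_, hvp, hvq, hpq, hcv, h1 p hp hvp.symm, h1 q hq hvq.symm, hdead p hp,
    hdead q hq, D, hD, h6 p hp h4, h6 q hq h5⟩
  rw [hT]
  ext w
  simp only [mem_insert, mem_singleton]
  tauto

/-- **the mirror rule for a claim**: `v` has a claim, `p` sees no leaf except the own leaf `L` with one
or three points: the blocks of the third point have at most one point in `L`. -/
theorem mir_one (s : StgR B Q T U F P a) (hL : {L} ∈ par0 B U F) (h3 : L.card ≤ 3)
    (hkT : k ∈ T) (hk : Far B Q T U F P k) {v p q : V} (hT : B k ∩ Q = {q, p, v}) (hpv : p ≠ v)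
    (hs : L ∈ slf B F q)
    (hc : 0 < ncp B Q (Kf B Q T U F P) k v) (hp : slf B F p ⊆ {L}) {l : ι} (hq : q ∈ B l) :
    (B l ∩ L).card ≤ 1 := by
  obtain ⟨k0, hk0, hc0, hvk0⟩ := ncp_pos (B := B) hc.ne'
  obtain ⟨j', i', a', b', c', x, h⟩ := Kf_cla.1 hk0
  have hkj := h.1.claim_ne hc0
  exact h.1.fpb.mirror_single s.mtr h.1.all hkT hkj hT hpv hvk0 (slf_sub hs)
    (fun he => hk.1 _ _ _ _ _ _ _ h.1 hkj q (by rw [hT]; simp) (he ▸ hs)) h3
    (s.toStg.free_own hL) hp hq

/-- **the mirror rule for a claim, pairs**. -/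
theorem mir_ref (s : StgR B Q T U F P a) (hL : {L} ∈ par0 B U F)
    (hkT : k ∈ T) (hk : Far B Q T U F P k) {v p q : V} (hT : B k ∩ Q = {p, q, v})
    (hs : L ∈ slf B F q)
    (hc : 0 < ncp B Q (Kf B Q T U F P) k v) : rho B L + 1 ≤ rho B (insert p (insert q L)) := by
  obtain ⟨k0, hk0, hc0, hvk0⟩ := ncp_pos (B := B) hc.ne'
  obtain ⟨j', i', a', b', c', x, h⟩ := Kf_cla.1 hk0
  have hkj := h.1.claim_ne hc0
  exact h.1.fpb.mirror_ref s.mtr hkT hkj hT hvk0 (slf_sub hs)
    (fun he => hk.1 _ _ _ _ _ _ _ h.1 hkj q (by rw [hT]; simp) (he ▸ hs)) (s.toStg.free_own hL)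

/-- **the host leaf**: `v` has a claim, the other two points see no leaf except the own leaf `L` with one
or three points: they have together at most as many hits on `L` as it has single blocks. -/
theorem host_two (s : StgR B Q T U F P a) (hL : {L} ∈ par0 B U F) (h3 : L.card ≤ 3)
    (hkT : k ∈ T) (hk : Far B Q T U F P k) {v p q : V} (hT : B k ∩ Q = {p, q, v})
    (hvp : v ≠ p) (hvq : v ≠ q) (hc : 0 < ncp B Q (Kf B Q T U F P) k v)
    (hp : slf B F p ⊆ {L}) (hq : slf B F q ⊆ {L}) :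
    uh B p L + uh B q L ≤ nt B L 1 := by
  have hLF : L ∈ F := (par0_spec (B := B) U F).sub hL (mem_singleton_self L)
  have hT' : B k ∩ Q = {q, p, v} := by rw [hT, insert_comm]
  have hpk : p ∈ B k ∩ Q := by rw [hT]; simp
  have hqk : q ∈ B k ∩ Q := by rw [hT]; simp
  have e : ∀ w, uh B w L = (Ez B L w).card := fun w => by
    unfold uh
    rw [hit_eq_Ez, sum_singleton]
  have key : ∀ w ∈ B k ∩ Q, (∀ l, w ∈ B l → L ∈ slf B F w → (B l ∩ L).card ≤ 1) →
      Ez B L w ⊆ trs B L 1 := by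
    intro w hw h i hi
    obtain ⟨h1, h2⟩ := mem_Ez.1 hi
    have h4 : L ∈ slf B F w := by
      refine (uh_pos hLF (s.frm.T_notin hkT hw hLF)).1 ?_
      rw [e]
      exact card_pos.2 ⟨i, hi⟩
    have h5 := h i h1 h4
    have h6 := card_pos.2 h2
    exact mem_trs.2 (by omega)
  have h1 : Ez B L p ⊆ trs B L 1 := key p hpk fun l hl hs =>
    s.mir_one hL h3 hkT hk hT hvq.symm hs hc hq hl
  have h2 : Ez B L q ⊆ trs B L 1 := key q hqk fun l hl hs =>
    s.mir_one hL h3 hkT hk hT' hvp.symm hs hc hp hl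
  have hd : Disjoint (Ez B L p) (Ez B L q) := by
    rw [disjoint_left]
    intro i hi hi'
    obtain ⟨h4, z, hz⟩ := mem_Ez.1 hi
    obtain ⟨h5, _⟩ := mem_Ez.1 hi'
    obtain ⟨h6, h7⟩ := mem_inter.1 hz
    have hs : L ∈ slf B F q := by
      refine (uh_pos hLF (s.frm.T_notin hkT hqk hLF)).1 ?_
      rw [e]
      exact card_pos.2 ⟨i, hi'⟩
    have h8 := s.mir_ref hL hkT hk hT hs hc
    have h9 := rho_erase_fc (s.frm.fcF hLF).1 (s.frm.fcF hLF).2 h7
    have hcL : Cov B (L.erase z) := (s.frm.covF L hLF).mono (erase_subset _ _)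
    have hcB : Cov B ({z, p, q} : Finset V) := by
      intro w hw
      refine ⟨i, ?_⟩
      simp only [mem_insert, mem_singleton] at hw
      rcases hw with rfl | rfl | rfl
      · exact h6
      · exact h4
      · exact h5
    have h10 : rho B ({z, p, q} : Finset V) ≤ 1 := by
      have h11 : ({z, p, q} : Finset V) ⊆ ({i} : Finset ι).biUnion B := by
        intro w hw
        rw [singleton_biUnion]
        simp only [mem_insert, mem_singleton] at hw
        rcases hw with rfl | rfl | rfl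
        · exact h6
        · exact h4
        · exact h5
      simpa using rho_le h11
    have h12 : insert p (insert q L) ⊆ L.erase z ∪ {z, p, q} := by
      intro w hw
      simp only [mem_insert] at hw
      rw [mem_union, mem_erase]
      simp only [mem_insert, mem_singleton]
      by_cases hwz : w = z
      · tauto
      · tauto
    have h13 := rho_mono h12 (hcL.union hcB)
    have h14 := rho_union_le hcL hcB
    omega
  rw [e, e, ← card_union_of_disjoint hd]
  exact card_le_card (union_subset h1 h2)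

/-- **the hits and the claims of a triple with all claims at one point**, if the other two points see
one small own leaf. -/
theorem host_all (s : StgR B Q T U F P a) (hL : {L} ∈ par0 B U F) (h3 : L.card ≤ 3)
    (hkT : k ∈ T) (hk : Far B Q T U F P k) {v p q : V} (hT : B k ∩ Q = {p, q, v})
    (hvp : v ≠ p) (hvq : v ≠ q) (hpq : p ≠ q) (hc : 0 < ncp B Q (Kf B Q T U F P) k v)
    (cp : ncp B Q (Kf B Q T U F P) k p = 0) (cq : ncp B Q (Kf B Q T U F P) k q = 0)
    (hp : slf B F p ⊆ {L}) (hq : slf B F q ⊆ {L}) :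
    ∑ M ∈ F, jh B Q k M + ncl B Q T U F P k ≤ 4 + nt B L 1 := by
  have hLF : L ∈ F := (par0_spec (B := B) U F).sub hL (mem_singleton_self L)
  have h1 : ncl B Q T U F P k = ∑ v ∈ B k ∩ Q, ncp B Q (Kf B Q T U F P) k v := ncK_eq _ _ _
  have hpk : p ∈ B k ∩ Q := by rw [hT]; simp
  have hqk : q ∈ B k ∩ Q := by rw [hT]; simp
  have hvk : v ∈ B k ∩ Q := by rw [hT]; simp
  have e1 : ∀ w ∈ B k ∩ Q, slf B F w ⊆ {L} → ∑ M ∈ F, uh B w M = uh B w L := by
    intro w hw h
    refine sum_eq_single_of_mem L hLF fun M hM hne => uh_zero hM (s.frm.T_notin hkT hw hM) ?_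
    exact fun h2 => hne (mem_singleton.1 (h h2))
  have h2 := s.hit_ncp hkT hvk
  have h4 := s.host_two hL h3 hkT hk hT hvp hvq hc hp hq
  have hsum : ∀ f : V → ℕ, ∑ w ∈ B k ∩ Q, f w = f p + (f q + f v) := by
    intro f
    rw [hT, sum_insert (by simp [hpq, hvp.symm]), sum_pair hvq.symm]
  rw [s.jh_pts, h1, hsum, hsum, e1 p hpk hp, e1 q hqk hq, cp, cq]
  omega

end StgR

end Pool.Agent.Hyp6
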