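import Pool.Agent.Hyp6.L3Swc
import Pool.Agent.Hyp6.L3Ti
import Pool.Agent.Hyp6.L3Fk

/-!
# HYP6 L3Swd: the triples with two claims

`StgN.astar`: a triple of rank two inside a class has at most one claim, or at most three claims and at
most eight hits and claims, or two claims and a record: another triple has six hits on a point leaf of
the class.
-/

set_option autoImplicit false

namespace Pool.Agent.Hyp6

open Finset Pool.Agent.Hyp5 Rt

universe u v

variable {V : Type v} [DecidableEq V] {ι : Type u} [Fintype ι] [DecidableEq ι]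
  {B : ι → Finset V} {Q U : Finset V} {T : Finset ι} {F : Finset (Finset V)}
  {P : Finset (Finset (Finset V))} {al : V → Finset (Finset V) → ℕ}

/-- no own point sees a leaf without hits of `U`. -/
theorem hit0_slf {x u : V} (g0 : hit B U {x} = 0) (hu : u ∈ U) : {x} ∉ slf B F u := by
  intro hL
  obtain ⟨_, y, hy, _, k, hk1, hk2⟩ := mem_slf.1 hL
  rw [mem_singleton] at hy
  subst hy
  exact hit0_not_U g0 hk2 hu hk1

/-- a leaf with one point and no hits of `U` is a parallel class. -/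
theorem Stg.par_zero (s : Stg B Q T U F P al) {x : V} (hx : {x} ∈ F) (g0 : hit B U {x} = 0) :
    {{x}} ∈ par0 B U F := by
  obtain ⟨D, hD, hxD⟩ := exists_cls s.par hx
  have h1 : D = {{x}} := by
    have h2 := s.par.card_eq s.frm.sur hD
    have h3 : (Sp.Uin U (slf B F) D).biUnion (slf B F) ⊆ D.erase {x} := by
      intro L hL
      obtain ⟨u, hu, hLu⟩ := mem_biUnion.1 hL
      obtain ⟨hu1, hu2⟩ := mem_filter.1 hu
      refine mem_erase.2 ⟨?_, hu2 hLu⟩
      rintro rfl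
      exact hit0_slf g0 hu1 hLu
    rcases (Sp.Uin U (slf B F) D).eq_empty_or_nonempty with h4 | h4
    · rw [h4, card_empty] at h2
      obtain ⟨L, hL⟩ := card_eq_one.1 h2
      rw [hL] at hxD ⊢
      rw [mem_singleton] at hxD
      rw [hxD]
    · have h5 := Sp.Sur.hall (B := Sp.Uin U (slf B F) D) s.frm.sur (filter_subset _ _) h4
      have h6 := card_le_card h3
      rw [card_erase_of_mem hxD] at h6
      omega
  exact h1 ▸ hD

/-- leaves with one point and no hits of `U` are independent. -/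
theorem Stg.zero_rank (s : Stg B Q T U F P al) {A : Finset (Finset (Finset V))}
    (hA : ∀ D ∈ A, ∃ x, D = {{x}} ∧ hit B U {x} = 0) :
    (A.card : ℤ) ≤ rkc B U F (par0 B U F) A := by
  have h1 : Sp.nP U (slf B F) (par0 B U F) A ≤ 0 := by
    unfold Sp.nP
    refine Sp.dfc_le fun W hW => ?_
    have h2 : (W.biUnion fun u => Sp.met (par0 B U F) (slf B F u)) \ A =
        W.biUnion fun u => Sp.met (par0 B U F) (slf B F u) := by
      rw [Finset.sdiff_eq_self_iff_disjoint, disjoint_left]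
      intro D hD hDA
      obtain ⟨u, hu, hDu⟩ := mem_biUnion.1 hD
      obtain ⟨x, rfl, g0⟩ := hA D hDA
      have h3 := (mem_filter.1 hDu).2
      rw [disjoint_singleton_right, not_not] at h3
      exact hit0_slf g0 (mem_filter.1 (hW hu)).1 h3
    rw [h2]
    rcases W.eq_empty_or_nonempty with h3 | h3
    · subst h3
      simp
    · have h4 := s.par.surplus s.frm.sur hW h3
      push_cast
      omega
  unfold rkc Sp.rkn
  omega

omit [DecidableEq V] [Fintype ι] [DecidableEq ι] in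
/-- a block through the leaf and a point of the triple: the point sees the leaf. -/
theorem slf_of_blk {L : Finset V} {x w : V} (hL : L ∈ F) (hx : x ∈ L) {e : ι} (hxe : x ∈ B e)
    (hwe : w ∈ B e) (hw : w ∉ L) : L ∈ slf B F w :=
  mem_slf.2 ⟨hL, x, hx, fun he => hw (he ▸ hx), e, hwe, hxe⟩

/-- a triple inside a class has at most two out-edges. -/
theorem StgR.out_le_two (s : StgR B Q T U F P al) {C : Finset (Finset V)} {k : ι}
    (hk : k ∈ Sp.Kin (Rg B Q T U F) (slj B Q F) C) : (outS B Q T U F k).card ≤ 2 := by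
  by_contra hcon
  obtain ⟨hkT, _, hrk, _, _⟩ := s.toStg.kin.1 hk
  obtain ⟨j1, h1, j2, h2, j3, h3, n12, n13, n23⟩ := two_lt_card.1 (not_le.1 hcon)
  obtain ⟨i1, k1, a1, b1, c1, x1, e1, w1, s1, xe1, ae1, ei1, kj1, wk1, we1⟩ :=
    (mem_outS.1 h1).2.data
  obtain ⟨i2, k2, a2, b2, c2, x2, e2, w2, s2, xe2, ae2, ei2, kj2, wk2, we2⟩ :=
    (mem_outS.1 h2).2.data
  obtain ⟨i3, k3, a3, b3, c3, x3, e3, w3, s3, xe3, ae3, ei3, kj3, wk3, we3⟩ :=
    (mem_outS.1 h3).2.data
  have hr := s.viol.reg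
  have m12 := s1.pf.x_ne2 hr s2.pf n12.symm
  have m13 := s1.pf.x_ne2 hr s3.pf n13.symm
  have m23 := s2.pf.x_ne2 hr s3.pf n23.symm
  have inj : ∀ {x y : V}, x ≠ y → ({{x}} : Finset (Finset V)) ≠ {{y}} := fun h h' =>
    h (singleton_injective (singleton_injective h'))
  have hc3 : ({{{x1}}, {{x2}}, {{x3}}} : Finset (Finset (Finset V))).card = 3 :=
    card_eq_three.2 ⟨_, _, _, inj m12.symm, inj m13.symm, inj m23.symm, rfl⟩
  have h4 := s.toStg.zero_rank (A := {{{x1}}, {{x2}}, {{x3}}}) (by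
    intro D hD
    simp only [mem_insert, mem_singleton] at hD
    rcases hD with rfl | rfl | rfl
    · exact ⟨x1, rfl, s1.g0⟩
    · exact ⟨x2, rfl, s2.g0⟩
    · exact ⟨x3, rfl, s3.g0⟩)
  have hmem : ∀ {j i k0 e : ι} {a b c x w : V}, Swt B Q T U F j i k0 a b c x → x ∈ B e →
      w ∈ B k ∩ Q → w ∈ B e → {{x}} ∈ mcj B Q F (par0 B U F) k := by
    intro j i k0 e a b c x w sw xe wk we
    refine mem_filter.2 ⟨s.toStg.par_zero sw.pf.px.hx sw.g0, ?_⟩
    rw [disjoint_singleton_right, not_not]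
    exact mem_biUnion.2 ⟨w, wk, slf_of_blk sw.pf.px.hx (mem_singleton_self _) xe we
      (s.frm.T_notin hkT wk sw.pf.px.hx)⟩
  have h5 : ({{{x1}}, {{x2}}, {{x3}}} : Finset (Finset (Finset V))) ⊆
      mcj B Q F (par0 B U F) k := by
    intro D hD
    simp only [mem_insert, mem_singleton] at hD
    rcases hD with rfl | rfl | rfl
    · exact hmem s1 xe1 wk1 we1
    · exact hmem s2 xe2 wk2 we2
    · exact hmem s3 xe3 wk3 we3
  have h6 : rkc B U F (par0 B U F) {{{x1}}, {{x2}}, {{x3}}} ≤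
      rkc B U F (par0 B U F) (mcj B Q F (par0 B U F) k) :=
    (s.toStg.par.nul s.frm.sur).rk_mono h5
  rw [hc3] at h4
  push_cast at h4
  omega

/-- the hits and claims at a point with a block which is no claim and has no leaf. -/
theorem StgR.hit_ncp' (s : StgR B Q T U F P al) {k : ι} (hk : k ∈ T) {v : V}
    (hv : v ∈ B k ∩ Q) {e : ι} (hve : v ∈ B e) (hek : e ≠ k) (heK : e ∉ Kf B Q T U F P)
    (heF : ¬ (B e ∩ F.biUnion id).Nonempty) :
    ∑ L ∈ F, uh B v L + ncp B Q (Kf B Q T U F P) k v ≤ 3 := by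
  have h1 : ∑ L ∈ F, uh B v L = hit B {v} (F.biUnion id) := (hit_biUnion _ s.frm.sepF).symm
  rw [h1, hit_eq, sum_singleton]
  unfold ncp
  set A := univ.filter (fun i => v ∈ B i ∧ (B i ∩ F.biUnion id).Nonempty) with hA
  set C := (Kf B Q T U F P).filter (fun k0 => (B k0 ∩ (B k ∩ Q)).card = 1 ∧ v ∈ B k0) with hC
  have hd : Disjoint A C := by
    rw [disjoint_left]
    intro i hi hi'
    obtain ⟨hiK, _, _⟩ := mem_filter.1 hi'
    obtain ⟨_, _, hne⟩ := mem_filter.1 hi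
    obtain ⟨j, i', a, b, c, x, h⟩ := Kf_cla.1 hiK
    exact h.1.k0_sep' s.mtr hne
  have hkn : k ∉ A ∪ C := by
    intro hk'
    rcases mem_union.1 hk' with h2 | h2
    · obtain ⟨_, _, w, hw⟩ := mem_filter.1 h2
      obtain ⟨hwk, hwF⟩ := mem_inter.1 hw
      obtain ⟨L, hL, hwL⟩ := mem_biUnion.1 hwF
      exact Frm.T_notD (Q := Q) hk hwk (s.frm.FD hL hwL)
    · obtain ⟨hiK, _, _⟩ := mem_filter.1 h2
      obtain ⟨j, i', a, b, c, x, h⟩ := Kf_cla.1 hiK
      exact h.1.fpb.k0_notT hk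
  have hen : e ∉ insert k (A ∪ C) := by
    intro h2
    rcases mem_insert.1 h2 with h3 | h3
    · exact hek h3
    · rcases mem_union.1 h3 with h4 | h4
      · exact heF (mem_filter.1 h4).2.2
      · exact heK (mem_filter.1 h4).1
  have hsub : insert e (insert k (A ∪ C)) ⊆ univ.filter (fun i => v ∈ B i) := by
    intro i hi
    rw [mem_insert, mem_insert, mem_union] at hi
    rcases hi with rfl | rfl | hi | hi
    · exact mem_filter.2 ⟨mem_univ _, hve⟩
    · exact mem_filter.2 ⟨mem_univ _, (mem_inter.1 hv).1⟩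
    · exact mem_filter.2 ⟨mem_univ _, (mem_filter.1 hi).2.1⟩
    · exact mem_filter.2 ⟨mem_univ _, (mem_filter.1 hi).2.2⟩
  have h5 := card_le_card hsub
  rw [card_insert_of_notMem hen, card_insert_of_notMem hkn, card_union_of_disjoint hd,
    s.viol.reg v (mem_inter.1 hv).2] at h5
  omega

section

variable {j i k0 : ι} {a b c x : V}

omit [DecidableEq ι] in
/-- the hits of a triple on its point leaf. -/
theorem Swt.six (h : Swt B Q T U F j i k0 a b c x) : 6 ≤ jh B Q j {x} := by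
  obtain ⟨hab, hac, hbc⟩ := h.pf.px.ne
  have e1 : jh B Q j {x} = uh B a {x} + (uh B b {x} + uh B c {x}) := by
    rw [jh_sum, h.pf.px.hjQ, sum_insert (by simp [hab, hac]), sum_pair hbc]
  rw [e1, uh_pt, uh_pt, uh_pt, h.pf.ha, h.pf.hbc]

omit [DecidableEq ι] in
/-- the inner block of a switch does not meet the leaves. -/
theorem Swt.k0_sepF (h : Swt B Q T U F j i k0 a b c x) : ¬ (B k0 ∩ F.biUnion id).Nonempty := by
  rintro ⟨z, hz⟩
  obtain ⟨hz1, hz2⟩ := mem_inter.1 hz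
  obtain ⟨L, hL, hzL⟩ := mem_biUnion.1 hz2
  have hzD := h.pf.px.frm.FD hL hzL
  obtain ⟨m, hm, hmj, s, h1, h2, hsa, hsb, _⟩ := h.s_ne
  have haJ : a ∈ B j ∩ Q := by rw [h.pf.px.hjQ]; simp
  have hbJ : b ∈ B j ∩ Q := by rw [h.pf.px.hjQ]; simp
  have hT : ∀ {m : ι}, m ∈ T → ∀ {v : V}, v ∈ B m ∩ Q → v ≠ z :=
    fun hm _ hv he => Frm.T_notD hm (mem_inter.1 hv).1 (he ▸ hzD)
  have za := hT h.pf.px.hj haJ
  have zb := hT h.pf.px.hj hbJ
  have zs := hT hm h1
  have h3 : ({z, a, b, s} : Finset V) ⊆ B k0 ∩ Q := by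
    intro v hv
    simp only [mem_insert, mem_singleton] at hv
    rcases hv with rfl | rfl | rfl | rfl
    · exact mem_inter.2 ⟨hz1, Frm.DQ hzD⟩
    · exact mem_inter.2 ⟨h.pf.ak, h.pf.px.aQ⟩
    · exact mem_inter.2 ⟨h.pf.bk, (mem_inter.1 hbJ).2⟩
    · exact mem_inter.2 ⟨h2, (mem_inter.1 h1).2⟩
  have h4 := card_le_card h3
  rw [card_insert_of_notMem (by simp [za.symm, zb.symm, zs.symm]),
    card_insert_of_notMem (by simp [h.pf.px.ne.1, hsa.symm]), card_pair hsb.symm] at h4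
  have h5 := h.pf.px.frm.reg3 k0
  omega

/-- the inner block of a switch on a leaf which is not an own class is no claim. -/
theorem Swt.k0_notK (h : Swt B Q T U F j i k0 a b c x) (hP : {{x}} ∉ P) :
    k0 ∉ Kf B Q T U F P := by
  intro hk
  obtain ⟨j', i', a', b', c', x', h'⟩ := Kf_cla.1 hk
  have h1 : 2 ≤ (B k0 ∩ (B j ∩ Q)).card := by
    have h2 : ({a, b} : Finset V) ⊆ B k0 ∩ (B j ∩ Q) := by
      intro v hv
      simp only [mem_insert, mem_singleton] at hv
      rcases hv with rfl | rfl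
      · exact mem_inter.2 ⟨h.pf.ak, by rw [h.pf.px.hjQ]; simp⟩
      · exact mem_inter.2 ⟨h.pf.bk, by rw [h.pf.px.hjQ]; simp⟩
    have h3 := card_le_card h2
    rwa [card_pair h.pf.px.ne.1] at h3
  have h4 := h'.1.fpb.own_unique h.pf.px.hj h1
  subst h4
  obtain ⟨hx, _, _⟩ := h.pf.same h'.1.toPxf
  exact hP (hx ▸ h'.1.xP)

/-- **the places of a triple with a switch on a leaf which is not an own class**. -/
theorem StgR.switch_ten (s : StgR B Q T U F P al) (h : Swt B Q T U F j i k0 a b c x)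
    (hP : {{x}} ∉ P) : ∑ L ∈ F, jh B Q j L + 2 + ncl B Q T U F P j ≤ 12 := by
  obtain ⟨hab, hac, hbc⟩ := h.pf.px.ne
  have hj := h.pf.px.hj
  have haJ : a ∈ B j ∩ Q := by rw [h.pf.px.hjQ]; simp
  have hbJ : b ∈ B j ∩ Q := by rw [h.pf.px.hjQ]; simp
  have hcJ : c ∈ B j ∩ Q := by rw [h.pf.px.hjQ]; simp
  have h1 := s.hit_ncp' hj haJ h.pf.ak h.pf.k0j (h.k0_notK hP) h.k0_sepF
  have h2 := s.hit_ncp' hj hbJ h.pf.bk h.pf.k0j (h.k0_notK hP) h.k0_sepF
  have h3 := s.hit_ncp hj hcJ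
  have h4 : ncl B Q T U F P j = ∑ v ∈ B j ∩ Q, ncp B Q (Kf B Q T U F P) j v := ncK_eq _ _ _
  rw [h4, s.jh_pts, h.pf.px.hjQ, sum_insert (by simp [hab, hac]), sum_pair hbc,
    sum_insert (by simp [hab, hac]), sum_pair hbc]
  omega

end

/-- **the triples with at least two claims**. -/
theorem StgN.astar (s : StgN B Q T U F P al) {C : Finset (Finset V)} (hC : C ∈ P) {k : ι}
    (hk : k ∈ Sp.Kin (Rg B Q T U F) (slj B Q F) C)
    (h2 : 2 ≤ rkc B U F (par0 B U F) (mcj B Q F (par0 B U F) k)) :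
    ncl B Q T U F P k ≤ 1 ∨
      (ncl B Q T U F P k ≤ 3 ∧ ∑ L ∈ F, jh B Q k L + ncl B Q T U F P k ≤ 8) ∨
      (ncl B Q T U F P k = 2 ∧ ∃ j x, j ∈ T ∧ j ≠ k ∧ OE B Q T U F k j ∧ {x} ∈ C ∧
        hit B U {x} = 0 ∧ 6 ≤ jh B Q j {x} ∧
        ∑ L ∈ F, jh B Q j L + 2 + ncl B Q T U F P j ≤ 12) := by
  rcases le_or_gt (ncl B Q T U F P k) 1 with h1 | h1
  · exact Or.inl h1
  right
  have hq := s.mtr
  have hr := s.viol.reg
  have sR := s.toStgR
  obtain ⟨hkT, _, _, _, hkC⟩ := s.toStg.kin.1 hk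
  have hfar := sR.far_kin hC hk h2
  have ho1 := s.claims_out hkT
  have ho2 := sR.out_le_two hk
  have hc3 : ncl B Q T U F P k ≤ 3 := by omega
  by_cases hd : ∃ p ∈ B k ∩ Q, slf B F p = ∅
  · exact Or.inl ⟨hc3, sR.eight_clF hkT hd (Or.inl hfar)⟩
  rcases sR.cl_cases hkT hfar (by omega) with ⟨r, hr, hrd, hrc⟩ |
    ⟨v, p, q, hT, hvp, hvq, hpq, hcv, hcp, hcq, hpn, hqn, D, hD, hpD, hqD⟩
  · exact absurd ⟨r, hr, hrd⟩ hd
  have hvk : v ∈ B k ∩ Q := by rw [hT]; simp
  have hpk : p ∈ B k ∩ Q := by rw [hT]; simp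
  have hqk : q ∈ B k ∩ Q := by rw [hT]; simp
  have hsum : ncl B Q T U F P k = ∑ v ∈ B k ∩ Q, ncp B Q (Kf B Q T U F P) k v := ncK_eq _ _ _
  have hn : ncl B Q T U F P k = ncp B Q (Kf B Q T U F P) k v := by
    rw [hsum, hT, sum_insert (by simp [hpq, hvp.symm]), sum_pair hvq.symm, hcp, hcq]
    omega
  have h8 := sR.hit_ncp hkT hvk
  have hsee : ∀ {j i k0 e : ι} {a b c x w : V}, Swt B Q T U F j i k0 a b c x → x ∈ B e →
      w ∈ B k ∩ Q → w ∈ B e → {x} ∈ slf B F w := fun sw xe wk we =>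
    slf_of_blk sw.pf.px.hx (mem_singleton_self _) xe we (s.frm.T_notin hkT wk sw.pf.px.hx)
  -- an out-edge at `p` or `q`
  by_cases hw : ∃ j, ∃ i k0 a b c x e w, Swt B Q T U F j i k0 a b c x ∧ x ∈ B e ∧ k ≠ j ∧
      w ∈ B k ∩ Q ∧ w ∈ B e ∧ w ≠ v
  · left
    refine ⟨hc3, ?_⟩
    obtain ⟨j, i, k0, a, b, c, x, e, w, h, xe, kj, wk, we, wv⟩ := hw
    have hx3 : {{x}} ∈ par0 B U F := s.toStg.par_zero h.pf.px.hx h.g0
    have hxD : {x} ∈ D := by
      rw [hT] at wk
      simp only [mem_insert, mem_singleton] at wk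
      rcases wk with h4 | h4 | h4
      · exact hpD (h4 ▸ hsee h xe (by rw [h4]; exact hpk) we)
      · exact hqD (h4 ▸ hsee h xe (by rw [h4]; exact hqk) we)
      · exact absurd h4 wv
    have hDx : D = {{x}} := by
      by_contra hne
      exact disjoint_left.1 (s.toStg.par.dj hD hx3 hne) hxD (mem_singleton_self _)
    have hz : ∀ y ∈ B k ∩ Q, slf B F y ⊆ D → ∑ M ∈ F, uh B y M = uh B y {x} := by
      intro y hy hyD
      rw [hDx] at hyD
      refine sum_eq_single_of_mem (f := fun M => uh B y M) ({x} : Finset V) h.pf.px.hx ?_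
      intro M hM hne
      refine uh_zero hM (s.frm.T_notin hkT hy hM) fun h4 => hne ?_
      exact mem_singleton.1 (hyD h4)
    have h4 := ten_pt s.viol s.frm h.pf.px.hx h.pf.px.hj hkT kj.symm
    have h5 := h.six
    have h6 : jh B Q k {x} = uh B p {x} + (uh B q {x} + uh B v {x}) := by
      rw [jh_sum, hT, sum_insert (by simp [hpq, hvp.symm]), sum_pair hvq.symm]
    have h7 : ∑ M ∈ F, jh B Q k M = ∑ M ∈ F, uh B p M + (∑ M ∈ F, uh B q M +
        ∑ M ∈ F, uh B v M) := by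
      rw [sR.jh_pts, hT, sum_insert (by simp [hpq, hvp.symm]), sum_pair hvq.symm]
    rw [hz p hpk hpD, hz q hqk hqD] at h7
    omega
  -- all out-edges at `v`
  have hall : ∀ j ∈ outS B Q T U F k, ∃ i k0 a b c x, Swt B Q T U F j i k0 a b c x ∧ k ≠ j ∧
      {x} ∈ slf B F v := by
    intro j hj
    obtain ⟨i, k0, a, b, c, x, e, w, h, xe, _, _, kj, wk, we⟩ := (mem_outS.1 hj).2.data
    have hwv : w = v := by
      by_contra hne
      exact hw ⟨j, i, k0, a, b, c, x, e, w, h, xe, kj, wk, we, hne⟩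
    subst hwv
    exact ⟨i, k0, a, b, c, x, h, kj, hsee h xe wk we⟩
  right
  have hc2 : ncl B Q T U F P k = 2 := by
    by_contra hne
    obtain ⟨j1, m1, j2, m2, n12⟩ := one_lt_card.1 (show 1 < (outS B Q T U F k).card by omega)
    obtain ⟨i1, k1, a1, b1, c1, x1, s1, kj1, v1⟩ := hall j1 m1
    obtain ⟨i2, k2, a2, b2, c2, x2, s2, kj2, v2⟩ := hall j2 m2
    have hxx := s1.pf.x_ne2 hr s2.pf n12.symm
    have hxx' : ({x1} : Finset V) ≠ {x2} := fun he => hxx (singleton_injective he).symm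
    have h4 : ∑ L ∈ ({{x1}, {x2}} : Finset (Finset V)), uh B v L ≤ ∑ L ∈ F, uh B v L := by
      refine sum_le_sum_of_subset fun L hL => ?_
      simp only [mem_insert, mem_singleton] at hL
      rcases hL with rfl | rfl
      · exact s1.pf.px.hx
      · exact s2.pf.px.hx
    rw [sum_pair hxx'] at h4
    have h5 := (uh_pos s1.pf.px.hx (s.frm.T_notin hkT hvk s1.pf.px.hx)).2 v1
    have h6 := (uh_pos s2.pf.px.hx (s.frm.T_notin hkT hvk s2.pf.px.hx)).2 v2
    omega
  refine ⟨hc2, ?_⟩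
  obtain ⟨j, hj⟩ := card_pos.1 (show 0 < (outS B Q T U F k).card by omega)
  obtain ⟨i, k0, a, b, c, x, h, kj, hxv⟩ := hall j hj
  have hxC : {x} ∈ C := hkC (mem_biUnion.2 ⟨v, hvk, hxv⟩)
  have hP : {{x}} ∉ P := by
    intro hP
    have h3 : C = {{x}} := by
      by_contra hne
      exact disjoint_left.1 (s.part.ptn.dj C hC _ hP hne) hxC (mem_singleton_self _)
    have h4 := sR.mcj_sub_one (s.toStg.own_par hP) (k := k) fun w hw => by
      rw [← h3]
      exact fun L hL => hkC (mem_biUnion.2 ⟨w, hw, hL⟩)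
    omega
  exact ⟨j, x, h.pf.px.hj, kj.symm, (mem_outS.1 hj).2, hxC, h.g0, h.six, sR.switch_ten h hP⟩

end Pool.Agent.Hyp6
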