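import Mathlib

/-!
# HYP6 L3Swe: balanced orientations

Every finite multigraph has an orientation in which the numbers of in-edges and out-edges of every
vertex differ by at most one.
-/

set_option autoImplicit false

namespace Pool.Agent.Hyp6

open Finset

universe u v

/-- the signed degree of an edge at a vertex: `d e b` are the two ends, `o e` names the in-end. -/
def sgnd {E : Type u} {K : Type v} [DecidableEq K] (d : E → Bool → K) (o : E → Bool) (e : E)
    (v : K) : ℤ :=
  (if d e (o e) = v then 1 else 0) - (if d e (!(o e)) = v then 1 else 0)

/-- **balanced orientations**. -/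
theorem graph_bal {E : Type u} {K : Type v} [DecidableEq E] [DecidableEq K] :
    ∀ (n : ℕ) (S : Finset E) (d : E → Bool → K), S.card = n →
      ∃ o : E → Bool, ∀ v, |∑ e ∈ S, sgnd d o e v| ≤ 1 := by
  intro n
  induction n with
  | zero =>
    intro S d hS
    rw [card_eq_zero] at hS
    subst hS
    exact ⟨fun _ => true, fun v => by simp⟩
  | succ n ih =>
    intro S d hS
    by_cases hc : ∃ e ∈ S, ∃ f ∈ S, e ≠ f ∧ ∃ β γ, d e β = d f γ
    · obtain ⟨e, he, f, hf, hne, β, γ, hd⟩ := hc
      obtain ⟨o', ho'⟩ := ih (S.erase f)
        (Function.update d e (fun b => if b = β then d f (!γ) else d e b))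
        (by rw [card_erase_of_mem hf, hS]; rfl)
      refine ⟨Function.update o' f (if o' e = β then !γ else γ), fun v => ?_⟩
      have hef : e ∈ S.erase f := mem_erase.2 ⟨hne, he⟩
      have key : ∑ c ∈ S, sgnd d (Function.update o' f (if o' e = β then !γ else γ)) c v =
          ∑ c ∈ S.erase f,
            sgnd (Function.update d e (fun b => if b = β then d f (!γ) else d e b)) o' c v := by
        rw [← add_sum_erase S _ hf, ← add_sum_erase (S.erase f) _ hef,
          ← add_sum_erase (S.erase f) _ hef, ← add_assoc]
        congr 1
        · have h1 : Function.update o' f (if o' e = β then !γ else γ) e = o' e :=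
            Function.update_of_ne hne _ _
          have h2 : Function.update o' f (if o' e = β then !γ else γ) f =
            if o' e = β then !γ else γ := Function.update_self _ _ _
          have h3 : ∀ b, Function.update d e (fun b => if b = β then d f (!γ) else d e b) e b =
            if b = β then d f (!γ) else d e b := fun b => by rw [Function.update_self]
          unfold sgnd
          rw [h1, h2, h3, h3]
          by_cases h4 : o' e = β
          · have h5 : ¬ (!(o' e)) = β := by
              rw [h4]
              cases β <;> simp
            rw [if_pos h4, if_pos h4, if_neg h5, h4, Bool.not_not, hd]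
            ring
          · have h5 : (!(o' e)) = β := by
              cases β <;> cases h6 : o' e <;> simp_all
            rw [if_neg h4, if_neg h4, if_pos h5, h5, hd]
            ring
        · refine sum_congr rfl fun c hc => ?_
          obtain ⟨h1, h2⟩ := mem_erase.1 hc
          obtain ⟨h3, _⟩ := mem_erase.1 h2
          unfold sgnd
          rw [Function.update_of_ne h3, Function.update_of_ne h1]
      rw [key]
      exact ho' v
    · push Not at hc
      refine ⟨fun _ => true, fun v => ?_⟩
      have hone : ∀ (e : E), |sgnd d (fun _ => true) e v| ≤ 1 := by
        intro e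
        unfold sgnd
        split_ifs <;> simp
      by_cases hv : ∃ e ∈ S, ∃ β, d e β = v
      · obtain ⟨e, he, β, hβ⟩ := hv
        rw [sum_eq_single_of_mem e he]
        · exact hone e
        · intro f hf hfe
          unfold sgnd
          have h1 : ∀ γ, ¬ d f γ = v := fun γ h2 =>
            hc e he f hf hfe.symm β γ (hβ.trans h2.symm)
          rw [if_neg (h1 _), if_neg (h1 _), sub_zero]
      · push Not at hv
        rw [sum_eq_zero]
        · simp
        · intro f hf
          unfold sgnd
          rw [if_neg (hv f hf _), if_neg (hv f hf _), sub_zero]

end Pool.Agent.Hyp6
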