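import Pool.Agent.Hyp6.L3Swb
import Pool.Agent.Hyp6.L3Swe

/-!
# HYP6 L3Swf: a balanced frame

All switches of an `MTR` frame can be exchanged independently (`all_flip`), so there is an `MTR` frame in
which the number of in-edges of every triple is at most the number of its out-edges plus one
(`exists_balN`).
-/

set_option autoImplicit false

namespace Pool.Agent.Hyp6

open Finset Pool.Agent.Hyp5

universe u v

variable {V : Type v} [DecidableEq V] {ι : Type u} [Fintype ι] [DecidableEq ι]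
  {B : ι → Finset V}

/-- an out-edge of `T_j` at `T_k`. -/
def OE (B : ι → Finset V) (Q : Finset V) (T : Finset ι) (U : Finset V)
    (F : Finset (Finset V)) (k j : ι) : Prop := ∃ m, OutE B Q T U F k m j

section

variable {Q U : Finset V} {T : Finset ι} {F : Finset (Finset V)} {j i k0 : ι} {a b c x : V}

/-- the edges after an exchange. -/
theorem Swt.flip_aux (h : Swt B Q T U F j i k0 a b c x) (hr : Reg B Q) (hq : MTR B Q T U F) :
    (∃ i1 y z, Swt B Q (insert i (T.erase j)) U (insert {a} (F.erase {x})) i j i1 x y z a) ∧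
    (∀ k jz, jz ≠ j → InE B Q T U F k jz →
      InE B Q (insert i (T.erase j)) U (insert {a} (F.erase {x})) (swp j i k) jz) ∧
    (∀ k jz, jz ≠ j → OE B Q T U F k jz →
      OE B Q (insert i (T.erase j)) U (insert {a} (F.erase {x})) (swp j i k) jz) ∧
    (∀ k ∈ T, InE B Q T U F k j →
      OE B Q (insert i (T.erase j)) U (insert {a} (F.erase {x})) (swp j i k) i) ∧
    (∀ k ∈ T, OE B Q T U F k j →
      InE B Q (insert i (T.erase j)) U (insert {a} (F.erase {x})) (swp j i k) i) := by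
  obtain ⟨i1, hx1, ha1, hi1, hall, h1, hc1, l, hl, hlj, hn⟩ := h.out hr hq
  obtain ⟨y, z, hrev⟩ := h.rev hr hq hx1 ha1 hi1 hall h1 hl hlj hn
  obtain ⟨l', hl', hlj', s1, _⟩ := h.step hr hq
  have hiT := h.pf.i_notin
  have hiT' : i ∉ T := fun h2 => hiT (mem_erase.2 ⟨h.pf.ij, h2⟩)
  refine ⟨⟨i1, y, z, hrev⟩, fun k jz hjz hI => h.inE_move hr hq.toMTE hjz hI,
    fun k jz hjz ⟨m, hO⟩ => ⟨_, h.outE_move hr hq.toMTE hjz hO⟩, fun k hk hI => ?_,
    fun k hk ⟨m, hO⟩ => ?_⟩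
  · obtain ⟨i2, k2, a2, b2, c2, x2, h2, h3, h4⟩ := hI
    obtain ⟨_, _, hkk⟩ := h.pf.same h2.pf
    rw [← hkk] at h4
    rw [swp_ne h3]
    exact ⟨_, s1 k hk h3 h4⟩
  · obtain ⟨i2, k2, a2, b2, c2, x2, e, h2, h3, h4, h5, h6, h7, h8, h9, h10⟩ := hO
    have h11 : e = i1 := h.pf.fifth_unique ha1 h1 hall h2.pf h3 h4 h5
    subst h11
    rw [swp_ne h6]
    exact ⟨_, _, _, _, _, _, hrev, fun he => hiT' (he ▸ hk), h7⟩

theorem swp_swp (hiT : i ∉ T) {k : ι} (hk : k ∈ T) : swp i j (swp j i k) = k := by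
  by_cases hmj : k = j
  · rw [hmj, swp_self, swp_self]
  · have h7 : k ≠ i := fun he => hiT (he ▸ hk)
    rw [swp_ne hmj, swp_ne h7]

/-- **the edges after an exchange**. -/
theorem Swt.flip (h : Swt B Q T U F j i k0 a b c x) (hr : Reg B Q) (hq : MTR B Q T U F) :
    (∀ k ∈ T, ∀ jz ∈ T, jz ≠ j →
      ((InE B Q (insert i (T.erase j)) U (insert {a} (F.erase {x})) (swp j i k) jz ↔
        InE B Q T U F k jz) ∧
      (OE B Q (insert i (T.erase j)) U (insert {a} (F.erase {x})) (swp j i k) jz ↔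
        OE B Q T U F k jz))) ∧
    (∀ k ∈ T,
      ((InE B Q (insert i (T.erase j)) U (insert {a} (F.erase {x})) (swp j i k) i ↔
        OE B Q T U F k j) ∧
      (OE B Q (insert i (T.erase j)) U (insert {a} (F.erase {x})) (swp j i k) i ↔
        InE B Q T U F k j))) := by
  obtain ⟨⟨i1, y, z, hrev⟩, a1, a2, a3, a4⟩ := h.flip_aux hr hq
  have hm' := h.mtr hr hq
  have hiT := h.pf.i_notin
  have hiT' : i ∉ T := fun h2 => hiT (mem_erase.2 ⟨h.pf.ij, h2⟩)
  obtain ⟨_, b1, b2, b3, b4⟩ := hrev.flip_aux hr hm'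
  have hTT : insert j ((insert i (T.erase j)).erase i) = T := swap_back h.pf.px.hj hiT
  have hFF : insert {x} ((insert {a} (F.erase {x})).erase {a}) = F := by
    rw [erase_insert h.pf.px.a_notF, insert_erase h.pf.px.hx]
  rw [hTT, hFF] at b1 b2 b3 b4
  refine ⟨fun k hk jz hjz hne => ⟨⟨fun h2 => ?_, a1 k jz hne⟩, ⟨fun h2 => ?_, a2 k jz hne⟩⟩,
    fun k hk => ⟨⟨fun h2 => ?_, a4 k hk⟩, ⟨fun h2 => ?_, a3 k hk⟩⟩⟩
  · have h3 := b1 _ jz (fun he => hiT' (he ▸ hjz)) h2
    rwa [swp_swp hiT' hk] at h3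
  · have h3 := b2 _ jz (fun he => hiT' (he ▸ hjz)) h2
    rwa [swp_swp hiT' hk] at h3
  · have h3 := b3 _ (h.pf.swp_mem hk) h2
    rwa [swp_swp hiT' hk] at h3
  · have h3 := b4 _ (h.pf.swp_mem hk) h2
    rwa [swp_swp hiT' hk] at h3

end

/-- **all switches can be exchanged independently**. -/
theorem all_flip {Q U : Finset V} (hr : Reg B Q) {T0 : Finset ι} {F0 : Finset (Finset V)}
    (hq0 : MTR B Q T0 U F0) (S : Finset ι)
    (hS : ∀ j ∈ S, j ∈ T0 ∧ ∃ k ∈ T0, InE B Q T0 U F0 k j) :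
    ∃ (T : Finset ι) (F : Finset (Finset V)) (lam : ι → ι), MTR B Q T U F ∧
      (∀ k ∈ T0, lam k ∈ T) ∧ (∀ k ∈ T0, ∀ k' ∈ T0, lam k = lam k' → k = k') ∧
      (∀ m ∈ T, ∃ k ∈ T0, lam k = m) ∧
      (∀ k ∈ T0, ∀ j ∈ T0, j ∉ S → ((InE B Q T U F (lam k) (lam j) ↔ InE B Q T0 U F0 k j) ∧
        (OE B Q T U F (lam k) (lam j) ↔ OE B Q T0 U F0 k j))) ∧
      (∀ k ∈ T0, ∀ j ∈ T0, j ∈ S → ((InE B Q T U F (lam k) (lam j) ↔ OE B Q T0 U F0 k j) ∧
        (OE B Q T U F (lam k) (lam j) ↔ InE B Q T0 U F0 k j))) := by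
  induction S using Finset.induction_on with
  | empty =>
    exact ⟨T0, F0, id, hq0, fun _ h => h, fun _ _ _ _ h => h, fun m hm => ⟨m, hm, rfl⟩,
      fun k _ j _ _ => ⟨Iff.rfl, Iff.rfl⟩, fun k _ j _ hj => absurd hj (notMem_empty _)⟩
  | insert j0 S hj0 ih =>
    obtain ⟨T, F, lam, hq, l1, l2, l3, e1, e2⟩ := ih fun j hj => hS j (mem_insert_of_mem hj)
    obtain ⟨hj0T, m, hm, hI⟩ := hS j0 (mem_insert_self _ _)
    have hI' := ((e1 m hm j0 hj0T hj0).1).2 hI
    obtain ⟨i, k0, a, b, c, x, h, _, _⟩ := hI'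
    obtain ⟨f1, f2⟩ := h.flip hr hq
    refine ⟨insert i (T.erase (lam j0)), insert {a} (F.erase {x}),
      fun k => swp (lam j0) i (lam k), h.mtr hr hq, fun k hk => h.pf.swp_mem (l1 k hk),
      fun k hk k' hk' he => l2 k hk k' hk' (h.pf.swp_inj (l1 k hk) (l1 k' hk') he), ?_, ?_, ?_⟩
    · intro m' hm'
      rcases mem_insert.1 hm' with rfl | h1
      · exact ⟨j0, hj0T, swp_self _ _⟩
      · obtain ⟨h2, h3⟩ := mem_erase.1 h1
        obtain ⟨k, hk, rfl⟩ := l3 m' h3
        exact ⟨k, hk, swp_ne h2⟩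
    · intro k hk j hj hjS
      rw [mem_insert, not_or] at hjS
      obtain ⟨hjj, hjS⟩ := hjS
      have hne : lam j ≠ lam j0 := fun he => hjj (l2 j hj j0 hj0T he)
      obtain ⟨g1, g2⟩ := f1 _ (l1 k hk) _ (l1 j hj) hne
      obtain ⟨g3, g4⟩ := e1 k hk j hj hjS
      beta_reduce
      rw [swp_ne hne]
      exact ⟨g1.trans g3, g2.trans g4⟩
    · intro k hk j hj hjS
      rcases mem_insert.1 hjS with rfl | hjS
      · obtain ⟨g1, g2⟩ := f2 _ (l1 k hk)
        obtain ⟨g3, g4⟩ := e1 k hk j hj hj0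
        beta_reduce
        rw [swp_self]
        exact ⟨g1.trans g4, g2.trans g3⟩
      · have hjj : j ≠ j0 := fun he => hj0 (he ▸ hjS)
        have hne : lam j ≠ lam j0 := fun he => hjj (l2 j hj j0 hj0T he)
        obtain ⟨g1, g2⟩ := f1 _ (l1 k hk) _ (l1 j hj) hne
        obtain ⟨g3, g4⟩ := e2 k hk j hj hjS
        beta_reduce
        rw [swp_ne hne]
        exact ⟨g1.trans g3, g2.trans g4⟩

open Classical in
/-- the in-edges of a triple. -/
noncomputable def inS (B : ι → Finset V) (Q : Finset V) (T : Finset ι) (U : Finset V)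
    (F : Finset (Finset V)) (k : ι) : Finset ι := T.filter (fun j => InE B Q T U F k j)

open Classical in
/-- the out-edges of a triple. -/
noncomputable def outS (B : ι → Finset V) (Q : Finset V) (T : Finset ι) (U : Finset V)
    (F : Finset (Finset V)) (k : ι) : Finset ι := T.filter (fun j => OE B Q T U F k j)

theorem InE.mem {Q U : Finset V} {T : Finset ι} {F : Finset (Finset V)} {k j : ι}
    (h : InE B Q T U F k j) : j ∈ T := by
  obtain ⟨_, _, _, _, _, _, h, _⟩ := h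
  exact h.pf.px.hj

theorem OE.mem {Q U : Finset V} {T : Finset ι} {F : Finset (Finset V)} {k j : ι}
    (h : OE B Q T U F k j) : j ∈ T := by
  obtain ⟨_, _, _, _, _, _, _, _, h, _⟩ := h
  exact h.pf.px.hj

/-- the in-end is unique. -/
theorem InE.unique {Q U : Finset V} {T : Finset ι} {F : Finset (Finset V)} {k k' j : ι}
    (hk : k ∈ T) (hk' : k' ∈ T) (h : InE B Q T U F k j) (h' : InE B Q T U F k' j) : k = k' := by
  obtain ⟨i, k0, a, b, c, x, h1, h2, h3⟩ := h
  obtain ⟨i', k0', a', b', c', x', h1', h2', h3'⟩ := h'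
  obtain ⟨_, _, hkk⟩ := h1.pf.same h1'.pf
  rw [← hkk] at h3'
  exact h1.pf.in_unique hk hk' h2 h2' h3 h3'

/-- the out-end is unique. -/
theorem OE.unique {Q U : Finset V} {T : Finset ι} {F : Finset (Finset V)} {k k' j : ι}
    (hr : Reg B Q) (hq : MTR B Q T U F) (hk : k ∈ T) (hk' : k' ∈ T) (h : OE B Q T U F k j)
    (h' : OE B Q T U F k' j) : k = k' := by
  obtain ⟨m, i, k0, a, b, c, x, e, h1, h2, h3, h4, h5, h6, _⟩ := h
  obtain ⟨m', i', k0', a', b', c', x', e', h1', h2', h3', h4', h5', h6', _⟩ := h'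
  obtain ⟨i1, hx1, ha1, hi1, hall, hb, hc1, l, hl, hlj, hn⟩ := h1.out hr hq
  have he : e = i1 := h1.pf.fifth_unique ha1 hb hall h1.pf h2 h3 h4
  have he' : e' = i1 := h1.pf.fifth_unique ha1 hb hall h1'.pf h2' h3' h4'
  rw [he] at h6
  rw [he'] at h6'
  exact h1.pf.out_unique hx1 hb hk hk' h5 h5' h6 h6'

/-- a switch has an out-end. -/
theorem InE.out {Q U : Finset V} {T : Finset ι} {F : Finset (Finset V)} {k j : ι}
    (hr : Reg B Q) (hq : MTR B Q T U F) (h : InE B Q T U F k j) : ∃ l ∈ T, OE B Q T U F l j := by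
  obtain ⟨i, k0, a, b, c, x, h1, _, _⟩ := h
  obtain ⟨i1, hx1, ha1, hi1, hall, hb, hc1, l, hl, hlj, hn⟩ := h1.out hr hq
  obtain ⟨m, hm, hmj, hmn⟩ := h1.s3
  exact ⟨l, hl, m, i, k0, a, b, c, x, i1, h1, hx1, ha1, hi1, hlj, hn, hm, hmj, hmn⟩

/-- an out-edge is a switch, it has an in-end. -/
theorem OE.inE {Q U : Finset V} {T : Finset ι} {F : Finset (Finset V)} {k j : ι}
    (h : OE B Q T U F k j) : ∃ m ∈ T, InE B Q T U F m j := by
  obtain ⟨m, i, k0, a, b, c, x, e, h1, h2, h3, h4, h5, h6, h7, h8, h9⟩ := h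
  exact ⟨m, h7, i, k0, a, b, c, x, h1, h8, h9⟩

/-- **there is a balanced frame**. -/
theorem exists_balN {Q : Finset V} (hr : Reg B Q) (hc : Cov B Q) (h3 : Tr3 B Q) :
    ∃ (T : Finset ι) (U : Finset V) (F : Finset (Finset V)), MTR B Q T U F ∧
      ∀ k ∈ T, (inS B Q T U F k).card ≤ (outS B Q T U F k).card + 1 := by
  classical
  obtain ⟨T0, U, F0, hq0⟩ := exists_MTR (B := B) hc h3
  set E0 := T0.filter (fun j => ∃ k ∈ T0, InE B Q T0 U F0 k j) with hE0
  -- the ends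
  have hs : ∀ j, ∃ k, j ∈ E0 → k ∈ T0 ∧ InE B Q T0 U F0 k j := by
    intro j
    by_cases hj : j ∈ E0
    · obtain ⟨_, k, hk, hI⟩ := mem_filter.1 hj
      exact ⟨k, fun _ => ⟨hk, hI⟩⟩
    · exact ⟨j, fun h => absurd h hj⟩
  have ht : ∀ j, ∃ k, j ∈ E0 → k ∈ T0 ∧ OE B Q T0 U F0 k j := by
    intro j
    by_cases hj : j ∈ E0
    · obtain ⟨_, k, hk, hI⟩ := mem_filter.1 hj
      obtain ⟨l, hl, hO⟩ := hI.out hr hq0
      exact ⟨l, fun _ => ⟨hl, hO⟩⟩
    · exact ⟨j, fun h => absurd h hj⟩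
  choose s hs using hs
  choose t ht using ht
  obtain ⟨o, ho⟩ := graph_bal E0.card E0 (fun j b => if b then s j else t j) rfl
  obtain ⟨T, F, lam, hq, l1, l2, l3, e1, e2⟩ := all_flip hr hq0 (E0.filter fun j => o j = false)
    fun j hj => mem_filter.1 (mem_filter.1 hj).1
  refine ⟨T, U, F, hq, fun k hk => ?_⟩
  obtain ⟨κ, hκ, rfl⟩ := l3 k hk
  have hin : inS B Q T U F (lam κ) = (E0.filter fun j => (if o j then s j else t j) = κ).image
      lam := by
    ext m
    unfold inS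
    rw [mem_filter, mem_image]
    constructor
    · rintro ⟨hm, hI⟩
      obtain ⟨j, hj, rfl⟩ := l3 m hm
      refine ⟨j, ?_, rfl⟩
      rw [mem_filter]
      by_cases hjS : j ∈ E0.filter fun j => o j = false
      · have h1 := ((e2 κ hκ j hj hjS).1).1 hI
        obtain ⟨h2, h3⟩ := mem_filter.1 hjS
        refine ⟨h2, ?_⟩
        rw [h3]
        exact (ht j h2).2.unique hr hq0 (ht j h2).1 hκ h1
      · have h1 := ((e1 κ hκ j hj hjS).1).1 hI
        have h2 : j ∈ E0 := mem_filter.2 ⟨hj, κ, hκ, h1⟩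
        have h3 : o j = true := by
          by_contra h4
          exact hjS (mem_filter.2 ⟨h2, by simpa using h4⟩)
        refine ⟨h2, ?_⟩
        rw [h3, if_pos rfl]
        exact InE.unique (hs j h2).1 hκ (hs j h2).2 h1
    · rintro ⟨j, hj, rfl⟩
      obtain ⟨h2, h3⟩ := mem_filter.1 hj
      have hjT : j ∈ T0 := (mem_filter.1 h2).1
      refine ⟨l1 j hjT, ?_⟩
      by_cases hjS : o j = true
      · rw [hjS, if_pos rfl] at h3
        refine ((e1 κ hκ j hjT ?_).1).2 (h3 ▸ (hs j h2).2)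
        intro h4
        have := (mem_filter.1 h4).2
        rw [hjS] at this
        exact Bool.noConfusion this
      · have h4 : o j = false := by simpa using hjS
        rw [h4] at h3
        exact ((e2 κ hκ j hjT (mem_filter.2 ⟨h2, h4⟩)).1).2 (h3 ▸ (ht j h2).2)
  have hout : outS B Q T U F (lam κ) = (E0.filter fun j => (if (!(o j)) then s j else t j) =
      κ).image lam := by
    ext m
    unfold outS
    rw [mem_filter, mem_image]
    constructor
    · rintro ⟨hm, hI⟩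
      obtain ⟨j, hj, rfl⟩ := l3 m hm
      refine ⟨j, ?_, rfl⟩
      rw [mem_filter]
      by_cases hjS : j ∈ E0.filter fun j => o j = false
      · have h1 := ((e2 κ hκ j hj hjS).2).1 hI
        obtain ⟨h2, h3⟩ := mem_filter.1 hjS
        refine ⟨h2, ?_⟩
        rw [h3]
        exact InE.unique (hs j h2).1 hκ (hs j h2).2 h1
      · have h1 := ((e1 κ hκ j hj hjS).2).1 hI
        have h2 : j ∈ E0 := mem_filter.2 ⟨hj, h1.inE⟩
        have h3 : o j = true := by
          by_contra h4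
          exact hjS (mem_filter.2 ⟨h2, by simpa using h4⟩)
        refine ⟨h2, ?_⟩
        rw [h3]
        exact (ht j h2).2.unique hr hq0 (ht j h2).1 hκ h1
    · rintro ⟨j, hj, rfl⟩
      obtain ⟨h2, h3⟩ := mem_filter.1 hj
      have hjT : j ∈ T0 := (mem_filter.1 h2).1
      refine ⟨l1 j hjT, ?_⟩
      by_cases hjS : o j = true
      · rw [hjS] at h3
        refine ((e1 κ hκ j hjT ?_).2).2 (h3 ▸ (ht j h2).2)
        intro h4
        have := (mem_filter.1 h4).2
        rw [hjS] at this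
        exact Bool.noConfusion this
      · have h4 : o j = false := by simpa using hjS
        rw [h4] at h3
        exact ((e2 κ hκ j hjT (mem_filter.2 ⟨h2, h4⟩)).2).2 (h3 ▸ (hs j h2).2)
  have hci : ∀ (p : ι → Prop) [DecidablePred p], ((E0.filter p).image lam).card =
      (E0.filter p).card := by
    intro p _
    refine card_image_of_injOn fun y hy z hz he => ?_
    exact l2 y (mem_filter.1 (mem_filter.1 (mem_coe.1 hy)).1).1 z
      (mem_filter.1 (mem_filter.1 (mem_coe.1 hz)).1).1 he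
  have h5 := (abs_le.1 (ho κ)).2
  unfold sgnd at h5
  rw [sum_sub_distrib, sum_boole, sum_boole] at h5
  rw [hin, hout, hci, hci]
  have h6 : ((E0.filter fun j => (if o j then s j else t j) = κ).card : ℤ) -
      ((E0.filter fun j => (if (!(o j)) then s j else t j) = κ).card : ℤ) ≤ 1 := h5
  omega

end Pool.Agent.Hyp6
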