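import Pool.Agent.Hyp6.L3Swd

/-!
# HYP6 L3Swg: at most three claims inside a class

`StgN.ncl_three`: a triple inside a class has at most three claims.
-/

set_option autoImplicit false

namespace Pool.Agent.Hyp6

open Finset Pool.Agent.Hyp5 Rt

universe u v

variable {V : Type v} [DecidableEq V] {ι : Type u} [Fintype ι] [DecidableEq ι]
  {B : ι → Finset V} {Q U : Finset V} {T : Finset ι} {F : Finset (Finset V)}
  {P : Finset (Finset (Finset V))} {al : V → Finset (Finset V) → ℕ}

/-- **at most three claims on a triple inside a class**. -/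
theorem StgN.ncl_three (s : StgN B Q T U F P al) {C : Finset (Finset V)} {k : ι}
    (hk : k ∈ Sp.Kin (Rg B Q T U F) (slj B Q F) C) : ncl B Q T U F P k ≤ 3 := by
  have h1 := s.claims_out (s.toStg.kin.1 hk).1
  have h2 := s.toStgR.out_le_two hk
  omega

/-- the form for the classes of rank three and four. -/
theorem StgN.hA (s : StgN B Q T U F P al) : ∀ C ∈ P,
    3 ≤ (C.card : ℤ) - (Sp.Uin U (slf B F) C).card →
    (C.card : ℤ) - (Sp.Uin U (slf B F) C).card ≤ 4 →
    ∀ k ∈ Sp.Kin (Rg B Q T U F) (slj B Q F) C, ncl B Q T U F P k ≤ 3 :=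
  fun _ _ _ _ _ hk => s.ncl_three hk

end Pool.Agent.Hyp6
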