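import Pool.Agent.Hyp6.L3T0

/-!
# HYP6 L3T1: the leaf (3;1) without line triples, both places of the single block used

Continuation of L3T0: with two contact points all of whose hits are single traces a set of type (3;1) whose
other contact points lie in own full blocks has at least seven hits (`ViolR.seven_T`).
-/

set_option autoImplicit false

namespace Pool.Agent.Hyp6

open Finset Pool.Agent.Hyp5

universe u v

variable {V : Type v} [DecidableEq V] {ι : Type u} [Fintype ι] {B : ι → Finset V}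

/-- **the four cycle** with one more new block `V0` (points with one hit each in a common block). -/
theorem ViolR.k3v {Q L : Finset V} (hv : ViolR B Q) (hLQ : L ⊆ Q) (hLne : L.Nonempty)
    (hdv : -1 ≤ dv B Q L) {p q p' q' : V} {V0 : Finset V} {i j k0 : ι} (hi : (B i ∩ Q).card = 3)
    (hj : (B j ∩ Q).card = 3) (hp : p ∈ B i ∩ Q) (hq : q ∈ B j ∩ Q)
    (hij : Disjoint (B i ∩ Q) (B j ∩ Q))
    (hip : ∀ y ∈ B i ∩ Q, y ≠ p → Ez B L y = ∅) (hjq : ∀ y ∈ B j ∩ Q, y ≠ q → Ez B L y = ∅)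
    (hpL : p ∉ L) (hqL : q ∉ L) (hp'Q : p' ∈ Q) (hq'Q : q' ∈ Q) (hV0Q : V0 ⊆ Q)
    (hp'L : p' ∉ L) (hq'L : q' ∉ L) (hV0L : ∀ r ∈ V0, r ∉ L)
    (h1 : (Ez B L p').card = 1) (h2 : (Ez B L q').card = 1)
    (h3 : ∀ r ∈ V0, (Ez B L r).card = 1) (hV0c : V0.card ≤ 2) (hV0k : V0 ⊆ B k0)
    (n1 : p ≠ p') (n2 : p ≠ q') (n3 : p ∉ V0) (n4 : q ≠ p') (n5 : q ≠ q') (n6 : q ∉ V0)
    (n7 : p' ≠ q') (n8 : p' ∉ V0) (n9 : q' ∉ V0)
    (hall : ∀ v ∈ Q, v ∉ L → (Ez B L v).Nonempty → v = p ∨ v = q ∨ v = p' ∨ v = q' ∨ v ∈ V0)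
    (a1 : rho B (L ∪ {p, q}) ≤ rho B L) (a2 : rho B (L ∪ {q, p'}) ≤ rho B L)
    (a3 : rho B (L ∪ {p, q'}) ≤ rho B L) (a4 : rho B (L ∪ {p', q'}) ≤ rho B L) : False := by
  classical
  obtain ⟨hpi, hpQ⟩ := mem_inter.1 hp
  obtain ⟨hqj, hqQ⟩ := mem_inter.1 hq
  have hpq : p ≠ q := by
    rintro rfl
    exact disjoint_left.1 hij hp hq
  have hcov := hv.cov
  -- points of `L` have blocks at `L`
  have hEL : ∀ y ∈ L, (Ez B L y).Nonempty := by
    intro y hy
    have h4 : (univ.filter (fun k => y ∈ B k)).card = 5 := hv.reg y (hLQ hy)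
    obtain ⟨k, hk⟩ := card_pos.1 (by omega : 0 < (univ.filter (fun k => y ∈ B k)).card)
    exact ⟨k, mem_Ez.2 ⟨(mem_filter.1 hk).2, y, mem_inter.2 ⟨(mem_filter.1 hk).2, hy⟩⟩⟩
  have hiL : ∀ y ∈ B i ∩ Q, y ∉ L := by
    intro y hy hyL
    by_cases h4 : y = p
    · exact hpL (h4 ▸ hyL)
    · have h5 := hEL y hyL
      rw [hip y hy h4] at h5
      exact not_nonempty_empty h5
  have hjL : ∀ y ∈ B j ∩ Q, y ∉ L := by
    intro y hy hyL
    by_cases h4 : y = q
    · exact hqL (h4 ▸ hyL)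
    · have h5 := hEL y hyL
      rw [hjq y hy h4] at h5
      exact not_nonempty_empty h5
  have ne1 : ∀ y, (Ez B L y).card = 1 → y ≠ p → y ∉ B i ∩ Q := by
    intro y hy hyp hyi
    rw [hip y hyi hyp, card_empty] at hy
    omega
  have ne2 : ∀ y, (Ez B L y).card = 1 → y ≠ q → y ∉ B j ∩ Q := by
    intro y hy hyp hyi
    rw [hjq y hyi hyp, card_empty] at hy
    omega
  set Ti := (B i ∩ Q).erase p with hTi
  set Tj := (B j ∩ Q).erase q with hTj
  have cTi : Ti.card = 2 := by rw [hTi, card_erase_of_mem hp, hi]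
  have cTj : Tj.card = 2 := by rw [hTj, card_erase_of_mem hq, hj]
  have mTi : ∀ y, y ∈ Ti ↔ y ≠ p ∧ y ∈ B i ∧ y ∈ Q := by
    intro y
    rw [hTi, mem_erase, mem_inter]
  have mTj : ∀ y, y ∈ Tj ↔ y ≠ q ∧ y ∈ B j ∧ y ∈ Q := by
    intro y
    rw [hTj, mem_erase, mem_inter]
  set N : ULift.{u} (Fin 3) → Finset V := fun c =>
    if c.down = 0 then insert p' Ti else if c.down = 1 then insert q' Tj else V0 with hN
  have mN : ∀ (c : ULift.{u} (Fin 3)) (y : V), y ∈ N c ↔
      (c.down = 0 ∧ (y = p' ∨ y ∈ Ti)) ∨ (c.down = 1 ∧ (y = q' ∨ y ∈ Tj)) ∨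
        (c.down = 2 ∧ y ∈ V0) := by
    rintro ⟨c⟩ y
    simp only [hN]
    fin_cases c <;> simp
  set Y : Finset V := ((Ti ∪ Tj) ∪ {p', q'}) ∪ V0 with hY
  have mY : ∀ y, y ∈ Y ↔ y ∈ Ti ∨ y ∈ Tj ∨ y = p' ∨ y = q' ∨ y ∈ V0 := by
    intro y
    simp only [hY, mem_union, mem_insert, mem_singleton]
    tauto
  set X : Finset V := {p, q} with hX
  have hXc : X.card = 2 := card_pair hpq
  have hTiE : ∀ y ∈ Ti, Ez B L y = ∅ := fun y hy =>
    hip y (mem_inter.2 ((mTi y).1 hy).2) ((mTi y).1 hy).1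
  have hTjE : ∀ y ∈ Tj, Ez B L y = ∅ := fun y hy =>
    hjq y (mem_inter.2 ((mTj y).1 hy).2) ((mTj y).1 hy).1
  have hTij : ∀ y ∈ Ti, y ∉ B j := fun y hy h4 =>
    disjoint_left.1 hij (mem_inter.2 ((mTi y).1 hy).2) (mem_inter.2 ⟨h4, ((mTi y).1 hy).2.2⟩)
  have hTji : ∀ y ∈ Tj, y ∉ B i := fun y hy h4 =>
    disjoint_right.1 hij (mem_inter.2 ((mTj y).1 hy).2) (mem_inter.2 ⟨h4, ((mTj y).1 hy).2.2⟩)
  have hd : ∀ y, (Ez B L y).card = 1 → y ∈ Q → y ≠ p → y ≠ q → y ∉ B i ∧ y ∉ B j := by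
    intro y hy hyQ h4 h5
    exact ⟨fun h6 => ne1 y hy h4 (mem_inter.2 ⟨h6, hyQ⟩),
      fun h6 => ne2 y hy h5 (mem_inter.2 ⟨h6, hyQ⟩)⟩
  obtain ⟨hp'i, hp'j⟩ := hd p' h1 hp'Q n1.symm n4.symm
  obtain ⟨hq'i, hq'j⟩ := hd q' h2 hq'Q n2.symm n5.symm
  have hri : ∀ r ∈ V0, r ∉ B i ∧ r ∉ B j := fun r hr => hd r (h3 r hr) (hV0Q hr)
    (fun h4 => n3 (h4 ▸ hr)) (fun h4 => n6 (h4 ▸ hr))
  have hineqj : i ≠ j := by
    rintro rfl
    exact disjoint_left.1 hij hp hp
  have hYQ : Y ⊆ Q := by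
    intro y hy
    rcases (mY y).1 hy with h4 | h4 | rfl | rfl | h4
    · exact ((mTi y).1 h4).2.2
    · exact ((mTj y).1 h4).2.2
    · exact hp'Q
    · exact hq'Q
    · exact hV0Q h4
  have hXQ : X ⊆ Q := by
    intro y hy
    rw [hX, mem_insert, mem_singleton] at hy
    rcases hy with rfl | rfl
    · exact hpQ
    · exact hqQ
  have dLX : Disjoint L X := by
    rw [disjoint_right]
    intro y hy
    rw [hX, mem_insert, mem_singleton] at hy
    rcases hy with rfl | rfl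
    · exact hpL
    · exact hqL
  have dLY : Disjoint L Y := by
    rw [disjoint_right]
    intro y hy
    rcases (mY y).1 hy with h4 | h4 | rfl | rfl | h4
    · exact hiL y (mem_inter.2 ((mTi y).1 h4).2)
    · exact hjL y (mem_inter.2 ((mTj y).1 h4).2)
    · exact hp'L
    · exact hq'L
    · exact hV0L y h4
  have dXY : Disjoint X Y := by
    rw [disjoint_right]
    intro y hy h4
    rw [hX, mem_insert, mem_singleton] at h4
    rcases (mY y).1 hy with h5 | h5 | h5 | h5 | h5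
    · rcases h4 with h6 | h6
      · exact ((mTi y).1 h5).1 h6
      · exact hTij y h5 (h6 ▸ hqj)
    · rcases h4 with h6 | h6
      · exact hTji y h5 (h6 ▸ hpi)
      · exact ((mTj y).1 h5).1 h6
    · rcases h4 with h6 | h6
      · exact n1 (h6.symm.trans h5)
      · exact n4 (h6.symm.trans h5)
    · rcases h4 with h6 | h6
      · exact n2 (h6.symm.trans h5)
      · exact n5 (h6.symm.trans h5)
    · rcases h4 with h6 | h6
      · exact n3 (h6 ▸ h5)
      · exact n6 (h6 ▸ h5)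
  have hcon : ∀ k, (B k ∩ L).Nonempty → B k ∩ Q ⊆ (L ∪ X) ∪ Y := by
    intro k hk y hy
    obtain ⟨hyk, hyQ⟩ := mem_inter.1 hy
    by_cases hyL : y ∈ L
    · exact mem_union_left _ (mem_union_left _ hyL)
    rcases hall y hyQ hyL ⟨k, mem_Ez.2 ⟨hyk, hk⟩⟩ with h4 | h4 | h4 | h4 | h4
    · exact mem_union_left _ (mem_union_right _ (by rw [h4, hX]; exact mem_insert_self _ _))
    · exact mem_union_left _ (mem_union_right _ (by rw [h4, hX]; simp))
    · exact mem_union_right _ ((mY y).2 (Or.inr (Or.inr (Or.inl h4))))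
    · exact mem_union_right _ ((mY y).2 (Or.inr (Or.inr (Or.inr (Or.inl h4)))))
    · exact mem_union_right _ ((mY y).2 (Or.inr (Or.inr (Or.inr (Or.inr h4)))))
  have hfull : ∀ k ∈ ({i, j} : Finset ι), B k ∩ Q ⊆ X ∪ Y ∧ (B k ∩ Q).card = 3 := by
    intro k hk
    rw [mem_insert, mem_singleton] at hk
    rcases hk with rfl | rfl
    · refine ⟨fun y hy => ?_, hi⟩
      by_cases h4 : y = p
      · exact mem_union_left _ (by rw [h4, hX]; exact mem_insert_self _ _)
      · exact mem_union_right _ ((mY y).2 (Or.inl ((mTi y).2 ⟨h4, mem_inter.1 hy⟩)))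
    · refine ⟨fun y hy => ?_, hj⟩
      by_cases h4 : y = q
      · exact mem_union_left _ (by rw [h4, hX]; simp)
      · exact mem_union_right _ ((mY y).2 (Or.inr (Or.inl ((mTj y).2 ⟨h4, mem_inter.1 hy⟩))))
  have hsub : ∀ c, N c ⊆ Y := by
    intro c y hy
    rw [mY]
    rcases (mN c y).1 hy with ⟨_, h4 | h4⟩ | ⟨_, h4 | h4⟩ | ⟨_, h4⟩
    · exact Or.inr (Or.inr (Or.inl h4))
    · exact Or.inl h4
    · exact Or.inr (Or.inr (Or.inr (Or.inl h4)))
    · exact Or.inr (Or.inl h4)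
    · exact Or.inr (Or.inr (Or.inr (Or.inr h4)))
  have hdeg : ∀ y ∈ Y, (univ.filter (fun c => y ∈ N c)).card =
      (univ.filter (fun k => y ∈ B k ∧ (B k ∩ L).Nonempty)).card +
      (({i, j} : Finset ι).filter (fun k => y ∈ B k)).card := by
    intro y hy
    have e1 : (univ.filter (fun c : ULift.{u} (Fin 3) => y ∈ N c)).card =
        (if (y = p' ∨ y ∈ Ti) then 1 else 0) + (if (y = q' ∨ y ∈ Tj) then 1 else 0) +
          (if y ∈ V0 then 1 else 0) := by
      have h4 := fin3_card.{u} (fun c => (c = 0 ∧ (y = p' ∨ y ∈ Ti)) ∨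
        (c = 1 ∧ (y = q' ∨ y ∈ Tj)) ∨ (c = 2 ∧ y ∈ V0))
      rw [filter_congr (fun c _ => mN c y)]
      rw [h4]
      simp
    have e2 : (univ.filter (fun k => y ∈ B k ∧ (B k ∩ L).Nonempty)) = Ez B L y := rfl
    have e3 : (({i, j} : Finset ι).filter (fun k => y ∈ B k)).card =
        (if y ∈ B i then 1 else 0) + (if y ∈ B j then 1 else 0) := by
      rw [card_filter, sum_pair hineqj]
    rw [e1, e2, e3]
    have q1 : ∀ y ∈ Ti, y ∈ B i := fun y hy => ((mTi y).1 hy).2.1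
    have q2 : ∀ y ∈ Tj, y ∈ B j := fun y hy => ((mTj y).1 hy).2.1
    rcases (mY y).1 hy with h4 | h4 | h4 | h4 | h4
    · have g1 : y ≠ p' := fun h5 => hp'i (h5 ▸ q1 y h4)
      have g2 : y ≠ q' := fun h5 => hq'i (h5 ▸ q1 y h4)
      have g3 : y ∉ V0 := fun h5 => (hri y h5).1 (q1 y h4)
      have g4 : y ∉ Tj := fun h5 => hTij y h4 (q2 y h5)
      rw [hTiE y h4, if_pos (Or.inr h4), if_neg (fun h5 => h5.elim g2 g4), if_neg g3,
        if_pos (q1 y h4), if_neg (hTij y h4), card_empty]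
    · have g1 : y ≠ p' := fun h5 => hp'j (h5 ▸ q2 y h4)
      have g2 : y ≠ q' := fun h5 => hq'j (h5 ▸ q2 y h4)
      have g3 : y ∉ V0 := fun h5 => (hri y h5).2 (q2 y h4)
      have g4 : y ∉ Ti := fun h5 => hTji y h4 (q1 y h5)
      rw [hTjE y h4, if_neg (fun h5 => h5.elim g1 g4), if_pos (Or.inr h4), if_neg g3,
        if_neg (hTji y h4), if_pos (q2 y h4), card_empty]
    · subst h4
      have g4 : y ∉ Ti := fun h5 => hp'i (q1 y h5)
      have g5 : y ∉ Tj := fun h5 => hp'j (q2 y h5)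
      rw [h1, if_pos (Or.inl rfl), if_neg (fun h5 => h5.elim n7 g5), if_neg n8, if_neg hp'i,
        if_neg hp'j]
    · subst h4
      have g4 : y ∉ Ti := fun h5 => hq'i (q1 y h5)
      have g5 : y ∉ Tj := fun h5 => hq'j (q2 y h5)
      rw [h2, if_neg (fun h5 => h5.elim n7.symm g4), if_pos (Or.inl rfl), if_neg n9, if_neg hq'i,
        if_neg hq'j]
    · obtain ⟨hyi, hyj⟩ := hri y h4
      have g4 : y ∉ Ti := fun h5 => hyi (q1 y h5)
      have g5 : y ∉ Tj := fun h5 => hyj (q2 y h5)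
      have g6 : y ≠ p' := fun h5 => n8 (h5 ▸ h4)
      have g7 : y ≠ q' := fun h5 => n9 (h5 ▸ h4)
      rw [h3 y h4, if_neg (fun h5 => h5.elim g6 g4), if_neg (fun h5 => h5.elim g7 g5),
        if_pos h4, if_neg hyi, if_neg hyj]
  have hsize : ∀ c, (N c).card ≤ 3 := by
    rintro ⟨c⟩
    simp only [hN]
    fin_cases c
    · simp only [Fin.zero_eta, if_true]
      have := card_insert_le p' Ti
      omega
    · simp only [Fin.mk_one, one_ne_zero, if_false, if_true]
      have := card_insert_le q' Tj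
      omega
    · simp
      omega
  -- the costs
  have hQc : ∀ {S : Finset V}, S ⊆ Q → Cov B S := fun hS => hcov.mono hS
  have hTiQ : Ti ⊆ Q := fun y hy => ((mTi y).1 hy).2.2
  have hTjQ : Tj ⊆ Q := fun y hy => ((mTj y).1 hy).2.2
  have hcost : ∀ K : Finset (ULift.{u} (Fin 3)),
      rho B ((L ∪ X) ∪ K.biUnion N) ≤ rho B L + K.card := by
    intro K
    have hKc : K.card = (if ULift.up 0 ∈ K then 1 else 0) + (if ULift.up 1 ∈ K then 1 else 0) +
        (if ULift.up 2 ∈ K then 1 else 0) := by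
      have h4 := fin3_card.{u} (fun c => ULift.up c ∈ K)
      rw [← h4]
      congr 1
      ext c
      simp
    -- the third block
    have key : ∀ S : Finset V, S ⊆ Q → (∀ y ∈ K.biUnion N, y ∈ S ∨ (ULift.up 2 ∈ K ∧ y ∈ V0)) →
        L ∪ X ⊆ S → rho B ((L ∪ X) ∪ K.biUnion N) ≤
          rho B S + (if ULift.up 2 ∈ K then 1 else 0) := by
      intro S hS hK hLX
      by_cases h4 : ULift.up 2 ∈ K
      · rw [if_pos h4]
        refine le_trans (rho_mono ?_ (hQc (union_subset hS hV0Q)))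
          (rho_union_block_le (hQc hS) (i := k0) (A := V0) hV0k)
        intro y hy
        rcases mem_union.1 hy with h5 | h5
        · exact mem_union_left _ (hLX h5)
        · rcases hK y h5 with h6 | h6
          · exact mem_union_left _ h6
          · exact mem_union_right _ h6.2
      · rw [if_neg h4, add_zero]
        refine rho_mono ?_ (hQc hS)
        intro y hy
        rcases mem_union.1 hy with h5 | h5
        · exact hLX h5
        · rcases hK y h5 with h6 | h6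
          · exact h6
          · exact absurd h6.1 h4
    have hbi : ∀ y ∈ K.biUnion N, (ULift.up 0 ∈ K ∧ (y = p' ∨ y ∈ Ti)) ∨
        (ULift.up 1 ∈ K ∧ (y = q' ∨ y ∈ Tj)) ∨ (ULift.up 2 ∈ K ∧ y ∈ V0) := by
      intro y hy
      obtain ⟨c, hc, hyc⟩ := mem_biUnion.1 hy
      rcases (mN c y).1 hyc with ⟨h4, h5⟩ | ⟨h4, h5⟩ | ⟨h4, h5⟩
      · exact Or.inl ⟨by rw [← h4]; exact hc, h5⟩
      · exact Or.inr (Or.inl ⟨by rw [← h4]; exact hc, h5⟩)
      · exact Or.inr (Or.inr ⟨by rw [← h4]; exact hc, h5⟩)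
    have pairQ : ∀ {x y : V}, x ∈ Q → y ∈ Q → L ∪ {x, y} ⊆ Q := by
      intro x y hx hy
      refine union_subset hLQ ?_
      intro z hz
      rw [mem_insert, mem_singleton] at hz
      rcases hz with rfl | rfl
      · exact hx
      · exact hy
    rw [hKc]
    by_cases k0 : ULift.up 0 ∈ K
    · by_cases k1 : ULift.up 1 ∈ K
      · rw [if_pos k0, if_pos k1]
        have h4 := key (((L ∪ {p', q'}) ∪ (B i ∩ Q)) ∪ (B j ∩ Q))
          (union_subset (union_subset (pairQ hp'Q hq'Q) inter_subset_right) inter_subset_right)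
          (fun y hy => by
            rcases hbi y hy with ⟨_, h5 | h5⟩ | ⟨_, h5 | h5⟩ | h5
            · exact Or.inl (mem_union_left _ (mem_union_left _ (mem_union_right _
                (by rw [h5]; exact mem_insert_self _ _))))
            · exact Or.inl (mem_union_left _ (mem_union_right _ (mem_inter.2 ((mTi y).1 h5).2)))
            · exact Or.inl (mem_union_left _ (mem_union_left _ (mem_union_right _
                (by rw [h5]; exact mem_insert_of_mem (mem_singleton_self _)))))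
            · exact Or.inl (mem_union_right _ (mem_inter.2 ((mTj y).1 h5).2))
            · exact Or.inr h5)
          (fun y hy => by
            rcases mem_union.1 hy with h5 | h5
            · exact mem_union_left _ (mem_union_left _ (mem_union_left _ h5))
            · rw [hX, mem_insert, mem_singleton] at h5
              rcases h5 with rfl | rfl
              · exact mem_union_left _ (mem_union_right _ hp)
              · exact mem_union_right _ hq)
        have h5 : rho B (((L ∪ {p', q'}) ∪ (B i ∩ Q)) ∪ (B j ∩ Q)) ≤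
            rho B ((L ∪ {p', q'}) ∪ (B i ∩ Q)) + 1 :=
          rho_union_block_le (hQc (union_subset (pairQ hp'Q hq'Q) inter_subset_right))
            inter_subset_left
        have h6 : rho B ((L ∪ {p', q'}) ∪ (B i ∩ Q)) ≤ rho B (L ∪ {p', q'}) + 1 :=
          rho_union_block_le (hQc (pairQ hp'Q hq'Q)) inter_subset_left
        omega
      · rw [if_pos k0, if_neg k1]
        have h4 := key ((L ∪ {q, p'}) ∪ (B i ∩ Q))
          (union_subset (pairQ hqQ hp'Q) inter_subset_right)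
          (fun y hy => by
            rcases hbi y hy with ⟨_, h5 | h5⟩ | ⟨h5, _⟩ | h5
            · exact Or.inl (mem_union_left _ (mem_union_right _
                (by rw [h5]; exact mem_insert_of_mem (mem_singleton_self _))))
            · exact Or.inl (mem_union_right _ (mem_inter.2 ((mTi y).1 h5).2))
            · exact absurd h5 k1
            · exact Or.inr h5)
          (fun y hy => by
            rcases mem_union.1 hy with h5 | h5
            · exact mem_union_left _ (mem_union_left _ h5)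
            · rw [hX, mem_insert, mem_singleton] at h5
              rcases h5 with rfl | rfl
              · exact mem_union_right _ hp
              · exact mem_union_left _ (mem_union_right _ (mem_insert_self _ _)))
        have h6 : rho B ((L ∪ {q, p'}) ∪ (B i ∩ Q)) ≤ rho B (L ∪ {q, p'}) + 1 :=
          rho_union_block_le (hQc (pairQ hqQ hp'Q)) inter_subset_left
        omega
    · by_cases k1 : ULift.up 1 ∈ K
      · rw [if_neg k0, if_pos k1]
        have h4 := key ((L ∪ {p, q'}) ∪ (B j ∩ Q))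
          (union_subset (pairQ hpQ hq'Q) inter_subset_right)
          (fun y hy => by
            rcases hbi y hy with ⟨h5, _⟩ | ⟨_, h5 | h5⟩ | h5
            · exact absurd h5 k0
            · exact Or.inl (mem_union_left _ (mem_union_right _
                (by rw [h5]; exact mem_insert_of_mem (mem_singleton_self _))))
            · exact Or.inl (mem_union_right _ (mem_inter.2 ((mTj y).1 h5).2))
            · exact Or.inr h5)
          (fun y hy => by
            rcases mem_union.1 hy with h5 | h5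
            · exact mem_union_left _ (mem_union_left _ h5)
            · rw [hX, mem_insert, mem_singleton] at h5
              rcases h5 with rfl | rfl
              · exact mem_union_left _ (mem_union_right _ (mem_insert_self _ _))
              · exact mem_union_right _ hq)
        have h6 : rho B ((L ∪ {p, q'}) ∪ (B j ∩ Q)) ≤ rho B (L ∪ {p, q'}) + 1 :=
          rho_union_block_le (hQc (pairQ hpQ hq'Q)) inter_subset_left
        omega
      · rw [if_neg k0, if_neg k1]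
        have h4 := key (L ∪ X) (union_subset hLQ hXQ)
          (fun y hy => by
            rcases hbi y hy with ⟨h5, _⟩ | ⟨h5, _⟩ | h5
            · exact absurd h5 k0
            · exact absurd h5 k1
            · exact Or.inr h5)
          (Subset.refl _)
        omega
  have hg : Gdl B Q L X Y {i, j} (Gdl.kp B L {i, j}) N :=
    Gdl.of_keep hv.reg hv.tr hLQ hXQ hYQ dLX dLY dXY hcon hfull hsub hdeg hsize hcost
  have hpart := hg.part_of_conn hLne (hv.conn_sdiff hXQ (by omega)) hg.keep_kp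
  have hn : (Gdl.rm Q L X Y).card + Y.card < Q.card := by
    have h4 : Gdl.rm Q L X Y ∪ Y ⊂ Q := by
      refine ⟨union_subset sdiff_subset hYQ, fun h5 => ?_⟩
      obtain ⟨l, hl⟩ := hLne
      rcases mem_union.1 (h5 (hLQ hl)) with h6 | h6
      · exact (Gdl.mem_rm.1 h6).2.1 hl
      · exact disjoint_left.1 dLY hl h6
    have h5 := card_lt_card h4
    rwa [card_union_of_disjoint hg.wir.dis] at h5
  have hfin := (hg.parts hv.ih hv.ihr hn hpart (fun y hy => by
    rcases (mY y).1 hy with h4 | h4 | h4 | h4 | h4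
    · exact ⟨ULift.up 0, (mN _ _).2 (Or.inl ⟨rfl, Or.inr h4⟩)⟩
    · exact ⟨ULift.up 1, (mN _ _).2 (Or.inr (Or.inl ⟨rfl, Or.inr h4⟩))⟩
    · exact ⟨ULift.up 0, (mN _ _).2 (Or.inl ⟨rfl, Or.inl h4⟩)⟩
    · exact ⟨ULift.up 1, (mN _ _).2 (Or.inr (Or.inl ⟨rfl, Or.inl h4⟩))⟩
    · exact ⟨ULift.up 2, (mN _ _).2 (Or.inr (Or.inr ⟨rfl, h4⟩))⟩)).1
  have hcI : (({i, j} : Finset ι).card : ℤ) = 2 := by
    rw [card_pair hineqj]
    norm_num
  have hck : (Fintype.card (ULift.{u} (Fin 3)) : ℤ) = 3 := by simp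
  have ha : (univ.filter (fun c => (N c).card = 3)).card ≤ 2 := by
    have h4 : (univ.filter (fun c => (N c).card = 3)) ⊆
        ({ULift.up 0, ULift.up 1} : Finset (ULift.{u} (Fin 3))) := by
      intro c hc
      have h5 := (mem_filter.1 hc).2
      obtain ⟨c⟩ := c
      simp only [hN] at h5
      fin_cases c
      · simp
      · simp
      · simp at h5
        omega
    exact (card_le_card h4).trans card_le_two
  have h4 := hv.neg
  have h5 : (0 : ℤ) ≤ ((Gdl.lost B Q L X Y {i, j} (Gdl.kp B L {i, j})).card : ℤ) := by positivity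
  rw [hcI, hck, hXc] at hfin
  push_cast at hfin
  omega


/-- **one deleted triple**: `L` absorbs `{x,y}` and `{y,v}`, one more hit `r` and the block `V0`; the component
of the triple of `x` contains `r` or meets `V0`. -/
theorem ViolR.k1c {Q L : Finset V} (hv : ViolR B Q) (hLQ : L ⊆ Q) (hLne : L.Nonempty)
    (hdv : -1 ≤ dv B Q L) (hsL : sv B L ≤ -1) {x y v r : V} {V0 : Finset V} {i k0 : ι}
    (hi : (B i ∩ Q).card = 3) (hx : x ∈ B i ∩ Q)
    (hix : ∀ z ∈ B i ∩ Q, z ≠ x → Ez B L z = ∅)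
    (hxL : x ∉ L) (hyL : y ∉ L) (hyQ : y ∈ Q) (hyE : (Ez B L y).Nonempty)
    (hvQ : v ∈ Q) (hrQ : r ∈ Q) (hV0Q : V0 ⊆ Q)
    (hvL : v ∉ L) (hrL : r ∉ L) (hV0L : ∀ r ∈ V0, r ∉ L)
    (h1 : (Ez B L v).card = 1) (h2 : (Ez B L r).card = 1)
    (h3 : ∀ r ∈ V0, (Ez B L r).card = 1) (hV0c : V0.card ≤ 2) (hV0k : V0 ⊆ B k0)
    (n0 : x ≠ y) (n1 : x ≠ v) (n2 : x ≠ r) (n3 : x ∉ V0) (n4 : y ≠ v) (n5 : y ≠ r) (n6 : y ∉ V0)
    (n7 : v ≠ r) (n8 : v ∉ V0) (n9 : r ∉ V0)
    (hall : ∀ w ∈ Q, w ∉ L → (Ez B L w).Nonempty → w = x ∨ w = y ∨ w = v ∨ w = r ∨ w ∈ V0)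
    (hsp : ∀ k, (B k ∩ L).Nonempty → ∀ u ∈ B k, ∀ w ∈ B k, u ≠ w → (u = v ∨ u = r ∨ u ∈ V0) →
      (w = v ∨ w = r ∨ w ∈ V0) → u ∈ V0 ∧ w ∈ V0)
    (a1 : rho B (L ∪ {x, y}) ≤ rho B L) (a2 : rho B (L ∪ {y, v}) ≤ rho B L)
    (hK : ∀ Z, Closed (gr B) (Q \ (L ∪ {x, y})) Z → ∀ t ∈ B i ∩ Q, t ≠ x → t ∈ Z →
      r ∈ Z ∨ (V0 ∩ Z).Nonempty) : False := by
  classical
  obtain ⟨hxi, hxQ⟩ := mem_inter.1 hx
  have hcov := hv.cov
  have hEL : ∀ y ∈ L, (Ez B L y).Nonempty := by
    intro y hy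
    have h4 : (univ.filter (fun k => y ∈ B k)).card = 5 := hv.reg y (hLQ hy)
    obtain ⟨k, hk⟩ := card_pos.1 (by omega : 0 < (univ.filter (fun k => y ∈ B k)).card)
    exact ⟨k, mem_Ez.2 ⟨(mem_filter.1 hk).2, y, mem_inter.2 ⟨(mem_filter.1 hk).2, hy⟩⟩⟩
  have hiL : ∀ y ∈ B i ∩ Q, y ∉ L := by
    intro y hy hyL
    by_cases h4 : y = x
    · exact hxL (h4 ▸ hyL)
    · have h5 := hEL y hyL
      rw [hix y hy h4] at h5
      exact not_nonempty_empty h5
  have ne0 : ∀ z ∈ Q, (Ez B L z).Nonempty → z ≠ x → z ∉ B i := by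
    intro z hzQ hz hzx hzi
    rw [hix z (mem_inter.2 ⟨hzi, hzQ⟩) hzx] at hz
    exact not_nonempty_empty hz
  have hyi : y ∉ B i := ne0 y hyQ hyE n0.symm
  have e1 : ∀ z, (Ez B L z).card = 1 → (Ez B L z).Nonempty := fun z hz => card_pos.1 (by omega)
  have hvi : v ∉ B i := ne0 v hvQ (e1 v h1) n1.symm
  have hri : r ∉ B i := ne0 r hrQ (e1 r h2) n2.symm
  have hV0i : ∀ z ∈ V0, z ∉ B i := fun z hz =>
    ne0 z (hV0Q hz) (e1 z (h3 z hz)) (fun h4 => n3 (h4 ▸ hz))
  set Ti := (B i ∩ Q).erase x with hTi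
  have cTi : Ti.card = 2 := by rw [hTi, card_erase_of_mem hx, hi]
  have mTi : ∀ y, y ∈ Ti ↔ y ≠ x ∧ y ∈ B i ∧ y ∈ Q := by
    intro y
    rw [hTi, mem_erase, mem_inter]
  set N : ULift.{u} (Fin 3) → Finset V := fun c =>
    if c.down = 0 then insert v Ti else if c.down = 1 then {r} else V0 with hN
  have mN : ∀ (c : ULift.{u} (Fin 3)) (y : V), y ∈ N c ↔
      (c.down = 0 ∧ (y = v ∨ y ∈ Ti)) ∨ (c.down = 1 ∧ y = r) ∨
        (c.down = 2 ∧ y ∈ V0) := by
    rintro ⟨c⟩ y
    simp only [hN]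
    fin_cases c <;> simp
  set Y : Finset V := (Ti ∪ {v, r}) ∪ V0 with hY
  have mY : ∀ y, y ∈ Y ↔ y ∈ Ti ∨ y = v ∨ y = r ∨ y ∈ V0 := by
    intro y
    simp only [hY, mem_union, mem_insert, mem_singleton]
    tauto
  set X : Finset V := {x, y} with hX
  have hXc : X.card = 2 := card_pair n0
  have hTiE : ∀ y ∈ Ti, Ez B L y = ∅ := fun y hy =>
    hix y (mem_inter.2 ((mTi y).1 hy).2) ((mTi y).1 hy).1
  have hYQ : Y ⊆ Q := by
    intro z hz
    rcases (mY z).1 hz with h4 | rfl | rfl | h4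
    · exact ((mTi z).1 h4).2.2
    · exact hvQ
    · exact hrQ
    · exact hV0Q h4
  have hXQ : X ⊆ Q := by
    intro z hz
    rw [hX, mem_insert, mem_singleton] at hz
    rcases hz with rfl | rfl
    · exact hxQ
    · exact hyQ
  have dLX : Disjoint L X := by
    rw [disjoint_right]
    intro z hz
    rw [hX, mem_insert, mem_singleton] at hz
    rcases hz with rfl | rfl
    · exact hxL
    · exact hyL
  have dLY : Disjoint L Y := by
    rw [disjoint_right]
    intro z hz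
    rcases (mY z).1 hz with h4 | rfl | rfl | h4
    · exact hiL z (mem_inter.2 ((mTi z).1 h4).2)
    · exact hvL
    · exact hrL
    · exact hV0L z h4
  have dXY : Disjoint X Y := by
    rw [disjoint_right]
    intro z hz h4
    rw [hX, mem_insert, mem_singleton] at h4
    rcases (mY z).1 hz with h5 | h5 | h5 | h5
    · rcases h4 with h6 | h6
      · exact ((mTi z).1 h5).1 h6
      · exact hyi (h6 ▸ ((mTi z).1 h5).2.1)
    · rcases h4 with h6 | h6
      · exact n1 (h6.symm.trans h5)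
      · exact n4 (h6.symm.trans h5)
    · rcases h4 with h6 | h6
      · exact n2 (h6.symm.trans h5)
      · exact n5 (h6.symm.trans h5)
    · rcases h4 with h6 | h6
      · exact n3 (h6 ▸ h5)
      · exact n6 (h6 ▸ h5)
  have hcon : ∀ k, (B k ∩ L).Nonempty → B k ∩ Q ⊆ (L ∪ X) ∪ Y := by
    intro k hk z hz
    obtain ⟨hzk, hzQ⟩ := mem_inter.1 hz
    by_cases hzL : z ∈ L
    · exact mem_union_left _ (mem_union_left _ hzL)
    rcases hall z hzQ hzL ⟨k, mem_Ez.2 ⟨hzk, hk⟩⟩ with h4 | h4 | h4 | h4 | h4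
    · exact mem_union_left _ (mem_union_right _ (by rw [h4, hX]; exact mem_insert_self _ _))
    · exact mem_union_left _ (mem_union_right _ (by rw [h4, hX]; simp))
    · exact mem_union_right _ ((mY z).2 (Or.inr (Or.inl h4)))
    · exact mem_union_right _ ((mY z).2 (Or.inr (Or.inr (Or.inl h4))))
    · exact mem_union_right _ ((mY z).2 (Or.inr (Or.inr (Or.inr h4))))
  have hfull : ∀ k ∈ ({i} : Finset ι), B k ∩ Q ⊆ X ∪ Y ∧ (B k ∩ Q).card = 3 := by
    intro k hk
    rw [mem_singleton] at hk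
    subst hk
    refine ⟨fun z hz => ?_, hi⟩
    by_cases h4 : z = x
    · exact mem_union_left _ (by rw [h4, hX]; exact mem_insert_self _ _)
    · exact mem_union_right _ ((mY z).2 (Or.inl ((mTi z).2 ⟨h4, mem_inter.1 hz⟩)))
  have hsub : ∀ c, N c ⊆ Y := by
    intro c z hz
    rw [mY]
    rcases (mN c z).1 hz with ⟨_, h4 | h4⟩ | ⟨_, h4⟩ | ⟨_, h4⟩
    · exact Or.inr (Or.inl h4)
    · exact Or.inl h4
    · exact Or.inr (Or.inr (Or.inl h4))
    · exact Or.inr (Or.inr (Or.inr h4))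
  have hdeg : ∀ z ∈ Y, (univ.filter (fun c => z ∈ N c)).card =
      (univ.filter (fun k => z ∈ B k ∧ (B k ∩ L).Nonempty)).card +
      (({i} : Finset ι).filter (fun k => z ∈ B k)).card := by
    intro z hz
    have e1 : (univ.filter (fun c : ULift.{u} (Fin 3) => z ∈ N c)).card =
        (if (z = v ∨ z ∈ Ti) then 1 else 0) + (if z = r then 1 else 0) +
          (if z ∈ V0 then 1 else 0) := by
      have h4 := fin3_card.{u} (fun c => (c = 0 ∧ (z = v ∨ z ∈ Ti)) ∨
        (c = 1 ∧ z = r) ∨ (c = 2 ∧ z ∈ V0))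
      rw [filter_congr (fun c _ => mN c z)]
      rw [h4]
      simp
    have e2 : (univ.filter (fun k => z ∈ B k ∧ (B k ∩ L).Nonempty)) = Ez B L z := rfl
    have e3 : (({i} : Finset ι).filter (fun k => z ∈ B k)).card =
        (if z ∈ B i then 1 else 0) := by
      rw [card_filter, sum_singleton]
    rw [e1, e2, e3]
    have q1 : ∀ z ∈ Ti, z ∈ B i := fun z hz => ((mTi z).1 hz).2.1
    rcases (mY z).1 hz with h4 | h4 | h4 | h4
    · have g1 : z ≠ r := fun h5 => hri (h5 ▸ q1 z h4)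
      have g3 : z ∉ V0 := fun h5 => hV0i z h5 (q1 z h4)
      rw [hTiE z h4, if_pos (Or.inr h4), if_neg g1, if_neg g3, if_pos (q1 z h4), card_empty]
    · subst h4
      rw [h1, if_pos (Or.inl rfl), if_neg n7, if_neg n8, if_neg hvi]
    · subst h4
      have g4 : z ∉ Ti := fun h5 => hri (q1 z h5)
      rw [h2, if_neg (fun h5 => h5.elim n7.symm g4), if_pos rfl, if_neg n9, if_neg hri]
    · have g4 : z ∉ Ti := fun h5 => hV0i z h4 (q1 z h5)
      have g6 : z ≠ v := fun h5 => n8 (h5 ▸ h4)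
      have g7 : z ≠ r := fun h5 => n9 (h5 ▸ h4)
      rw [h3 z h4, if_neg (fun h5 => h5.elim g6 g4), if_neg g7, if_pos h4,
        if_neg (hV0i z h4)]
  have hsize : ∀ c, (N c).card ≤ 3 := by
    rintro ⟨c⟩
    simp only [hN]
    fin_cases c
    · simp only [Fin.zero_eta, if_true]
      have := card_insert_le v Ti
      omega
    · simp
    · simp
      omega
  -- the costs
  have hQc : ∀ {S : Finset V}, S ⊆ Q → Cov B S := fun hS => hcov.mono hS
  have pairQ : ∀ {x y : V}, x ∈ Q → y ∈ Q → L ∪ {x, y} ⊆ Q := by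
    intro x y hx hy
    refine union_subset hLQ ?_
    intro z hz
    rw [mem_insert, mem_singleton] at hz
    rcases hz with rfl | rfl
    · exact hx
    · exact hy
  have hcost : ∀ K : Finset (ULift.{u} (Fin 3)),
      rho B ((L ∪ X) ∪ K.biUnion N) ≤ rho B L + K.card := by
    intro K
    have hKc : K.card = (if ULift.up 0 ∈ K then 1 else 0) + (if ULift.up 1 ∈ K then 1 else 0) +
        (if ULift.up 2 ∈ K then 1 else 0) := by
      have h4 := fin3_card.{u} (fun c => ULift.up c ∈ K)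
      rw [← h4]
      congr 1
      ext c
      simp
    have hbi : ∀ y ∈ K.biUnion N, (ULift.up 0 ∈ K ∧ (y = v ∨ y ∈ Ti)) ∨
        (ULift.up 1 ∈ K ∧ y = r) ∨ (ULift.up 2 ∈ K ∧ y ∈ V0) := by
      intro y hy
      obtain ⟨c, hc, hyc⟩ := mem_biUnion.1 hy
      rcases (mN c y).1 hyc with ⟨h4, h5⟩ | ⟨h4, h5⟩ | ⟨h4, h5⟩
      · exact Or.inl ⟨by rw [← h4]; exact hc, h5⟩
      · exact Or.inr (Or.inl ⟨by rw [← h4]; exact hc, h5⟩)
      · exact Or.inr (Or.inr ⟨by rw [← h4]; exact hc, h5⟩)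
    -- the second and the third block
    have key : ∀ S : Finset V, S ⊆ Q → (∀ y ∈ K.biUnion N, y ∈ S ∨ (ULift.up 1 ∈ K ∧ y = r) ∨
        (ULift.up 2 ∈ K ∧ y ∈ V0)) → L ∪ X ⊆ S → rho B ((L ∪ X) ∪ K.biUnion N) ≤
          rho B S + (if ULift.up 1 ∈ K then 1 else 0) + (if ULift.up 2 ∈ K then 1 else 0) := by
      intro S hS hK hLX
      set S1 : Finset V := S ∪ (if ULift.up 1 ∈ K then {r} else ∅) with hS1
      set S2 : Finset V := S1 ∪ (if ULift.up 2 ∈ K then V0 else ∅) with hS2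
      have hS1Q : S1 ⊆ Q := by
        rw [hS1]
        refine union_subset hS ?_
        split_ifs
        · exact singleton_subset_iff.2 hrQ
        · exact empty_subset _
      have hS2Q : S2 ⊆ Q := by
        rw [hS2]
        refine union_subset hS1Q ?_
        split_ifs
        · exact hV0Q
        · exact empty_subset _
      have g1 : rho B S1 ≤ rho B S + (if ULift.up 1 ∈ K then 1 else 0) := by
        rw [hS1]
        split_ifs
        · obtain ⟨k, hk⟩ := e1 r h2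
          exact rho_union_block_le (hQc hS) (i := k) (A := {r})
            (singleton_subset_iff.2 (mem_Ez.1 hk).1)
        · rw [union_empty, add_zero]
      have g2 : rho B S2 ≤ rho B S1 + (if ULift.up 2 ∈ K then 1 else 0) := by
        rw [hS2]
        split_ifs
        · exact rho_union_block_le (hQc hS1Q) (i := k0) (A := V0) hV0k
        · rw [union_empty, add_zero]
      have g3 : rho B ((L ∪ X) ∪ K.biUnion N) ≤ rho B S2 := by
        refine rho_mono ?_ (hQc hS2Q)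
        intro z hz
        have hSS1 : S ⊆ S1 := subset_union_left
        have hSS2 : S1 ⊆ S2 := subset_union_left
        rcases mem_union.1 hz with h5 | h5
        · exact hSS2 (hSS1 (hLX h5))
        · rcases hK z h5 with h6 | ⟨h6, h7⟩ | ⟨h6, h7⟩
          · exact hSS2 (hSS1 h6)
          · refine hSS2 ?_
            rw [hS1, if_pos h6, h7]
            exact mem_union_right _ (mem_singleton_self _)
          · rw [hS2, if_pos h6]
            exact mem_union_right _ h7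
      omega
    rw [hKc]
    by_cases k0' : ULift.up 0 ∈ K
    · rw [if_pos k0']
      have h4 := key ((L ∪ {y, v}) ∪ (B i ∩ Q))
        (union_subset (pairQ hyQ hvQ) inter_subset_right)
        (fun z hz => by
          rcases hbi z hz with ⟨_, h5 | h5⟩ | h5 | h5
          · exact Or.inl (mem_union_left _ (mem_union_right _
              (by rw [h5]; exact mem_insert_of_mem (mem_singleton_self _))))
          · exact Or.inl (mem_union_right _ (mem_inter.2 ((mTi z).1 h5).2))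
          · exact Or.inr (Or.inl h5)
          · exact Or.inr (Or.inr h5))
        (fun z hz => by
          rcases mem_union.1 hz with h5 | h5
          · exact mem_union_left _ (mem_union_left _ h5)
          · rw [hX, mem_insert, mem_singleton] at h5
            rcases h5 with rfl | rfl
            · exact mem_union_right _ hx
            · exact mem_union_left _ (mem_union_right _ (mem_insert_self _ _)))
      have h6 : rho B ((L ∪ {y, v}) ∪ (B i ∩ Q)) ≤ rho B (L ∪ {y, v}) + 1 :=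
        rho_union_block_le (hQc (pairQ hyQ hvQ)) inter_subset_left
      omega
    · rw [if_neg k0']
      have h4 := key (L ∪ X) (union_subset hLQ hXQ)
        (fun z hz => by
          rcases hbi z hz with ⟨h5, _⟩ | h5 | h5
          · exact absurd h5 k0'
          · exact Or.inr (Or.inl h5)
          · exact Or.inr (Or.inr h5))
        (Subset.refl _)
      omega
  have hg : Gdl B Q L X Y {i} (Gdl.kp B L {i}) N :=
    Gdl.of_keep hv.reg hv.tr hLQ hXQ hYQ dLX dLY dXY hcon hfull hsub hdeg hsize hcost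
  have hw := hg.wir
  have hpart := hg.part_of_conn hLne (hv.conn_sdiff hXQ (by omega)) hg.keep_kp
  have hn : (Gdl.rm Q L X Y).card + Y.card < Q.card := by
    have h4 : Gdl.rm Q L X Y ∪ Y ⊂ Q := by
      refine ⟨union_subset sdiff_subset hYQ, fun h5 => ?_⟩
      obtain ⟨l, hl⟩ := hLne
      rcases mem_union.1 (h5 (hLQ hl)) with h6 | h6
      · exact (Gdl.mem_rm.1 h6).2.1 hl
      · exact disjoint_left.1 dLY hl h6
    have h5 := card_lt_card h4
    rwa [card_union_of_disjoint hg.wir.dis] at h5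
  have hrmY : Gdl.rm Q L X Y ∪ Y = Q \ (L ∪ X) := by
    ext z
    constructor
    · intro g
      rcases mem_union.1 g with g | g
      · obtain ⟨g1, g2, g3, _⟩ := Gdl.mem_rm.1 g
        exact mem_sdiff.2 ⟨g1, fun g5 => (mem_union.1 g5).elim g2 g3⟩
      · exact mem_sdiff.2 ⟨hYQ g, fun g5 => (mem_union.1 g5).elim (disjoint_right.1 dLY g)
          (disjoint_right.1 dXY g)⟩
    · intro g
      obtain ⟨g1, g2⟩ := mem_sdiff.1 g
      by_cases g4 : z ∈ Y
      · exact mem_union_right _ g4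
      · exact mem_union_left _ (Gdl.mem_rm.2 ⟨g1, fun g5 => g2 (mem_union_left _ g5),
          fun g5 => g2 (mem_union_right _ g5), g4⟩)
  -- contact points outside of `X`
  have hcp : ∀ z, z ∈ Q → z ∉ L → z ∉ X → (Ez B L z).Nonempty → z = v ∨ z = r ∨ z ∈ V0 := by
    intro z hzQ hzL hzX hzE
    rw [hX, mem_insert, mem_singleton, not_or] at hzX
    rcases hall z hzQ hzL hzE with h4 | h4 | h4 | h4 | h4
    · exact absurd h4 hzX.1
    · exact absurd h4 hzX.2
    · exact Or.inl h4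
    · exact Or.inr (Or.inl h4)
    · exact Or.inr (Or.inr h4)
  have hfin := (hg.partsC hv.ih hv.ihr hn (K0 := {ULift.up 1, ULift.up 2}) (fun Z hZ hZne => by
    have hlinkN : ∀ c, (N c ∩ Z).Nonempty → N c ⊆ Z := by
      rintro c ⟨z, hz⟩ w hw'
      obtain ⟨hzc, hzZ⟩ := mem_inter.1 hz
      by_cases hwz : w = z
      · rw [hwz]
        exact hzZ
      · exact hZ.2 z hzZ w (mem_union_right _ (hsub c hw'))
          (hw.adj_N (fun h4 => hwz h4.symm) hzc hw')
    -- a closed set of the new system is closed in the old one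
    have hZold : Closed (gr B) (Q \ (L ∪ X)) Z := by
      rw [← hrmY]
      refine ⟨hZ.1, fun z hz w hw' hzw => ?_⟩
      obtain ⟨hne, k, hk1, hk2⟩ := hzw
      have hz' := hZ.1 hz
      have hzm : z ∈ Q ∧ z ∉ L ∧ z ∉ X := by
        rw [hrmY, mem_sdiff, mem_union, not_or] at hz'
        exact hz'
      have hwm : w ∈ Q ∧ w ∉ L ∧ w ∉ X := by
        have h4 := hw'
        rw [hrmY, mem_sdiff, mem_union, not_or] at h4
        exact h4
      by_cases hkL : (B k ∩ L).Nonempty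
      · obtain ⟨g1, g2⟩ := hsp k hkL z hk1 w hk2 hne
          (hcp z hzm.1 hzm.2.1 hzm.2.2 ⟨k, mem_Ez.2 ⟨hk1, hkL⟩⟩)
          (hcp w hwm.1 hwm.2.1 hwm.2.2 ⟨k, mem_Ez.2 ⟨hk2, hkL⟩⟩)
        exact hlinkN (ULift.up 2) ⟨z, mem_inter.2 ⟨(mN _ _).2 (Or.inr (Or.inr ⟨rfl, g1⟩)), hz⟩⟩
          ((mN _ _).2 (Or.inr (Or.inr ⟨rfl, g2⟩)))
      by_cases hki : k = i
      · subst hki
        have gz : z ∈ Ti := (mTi z).2 ⟨fun h4 => hzm.2.2 (by rw [h4, hX]; exact mem_insert_self _ _),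
          hk1, hzm.1⟩
        have gw : w ∈ Ti := (mTi w).2 ⟨fun h4 => hwm.2.2 (by rw [h4, hX]; exact mem_insert_self _ _),
          hk2, hwm.1⟩
        exact hlinkN (ULift.up 0) ⟨z, mem_inter.2 ⟨(mN _ _).2 (Or.inl ⟨rfl, Or.inr gz⟩), hz⟩⟩
          ((mN _ _).2 (Or.inl ⟨rfl, Or.inr gw⟩))
      · refine hZ.2 z hz w hw' ⟨hne, Sum.inl k, ?_, ?_⟩
        · rw [mem_absG_inl]
          by_cases g1 : z ∈ Y
          · exact Or.inr ⟨g1, Gdl.mem_kp.2 ⟨hk1, hkL, by rwa [mem_singleton]⟩⟩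
          · exact Or.inl ⟨hk1, Gdl.mem_rm.2 ⟨hzm.1, hzm.2.1, hzm.2.2, g1⟩⟩
        · rw [mem_absG_inl]
          by_cases g1 : w ∈ Y
          · exact Or.inr ⟨g1, Gdl.mem_kp.2 ⟨hk2, hkL, by rwa [mem_singleton]⟩⟩
          · exact Or.inl ⟨hk2, Gdl.mem_rm.2 ⟨hwm.1, hwm.2.1, hwm.2.2, g1⟩⟩
    have k1 : r ∈ Z → ∃ c ∈ ({ULift.up 1, ULift.up 2} : Finset (ULift.{u} (Fin 3))),
        (N c).Nonempty ∧ N c ⊆ Z := by
      intro hrZ
      have g1 : r ∈ N (ULift.up 1) := (mN _ _).2 (Or.inr (Or.inl ⟨rfl, rfl⟩))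
      exact ⟨ULift.up 1, by simp, ⟨r, g1⟩, hlinkN _ ⟨r, mem_inter.2 ⟨g1, hrZ⟩⟩⟩
    have k2 : (V0 ∩ Z).Nonempty → ∃ c ∈ ({ULift.up 1, ULift.up 2} : Finset (ULift.{u} (Fin 3))),
        (N c).Nonempty ∧ N c ⊆ Z := by
      rintro ⟨z, hz⟩
      obtain ⟨hz1, hz2⟩ := mem_inter.1 hz
      have g1 : z ∈ N (ULift.up 2) := (mN _ _).2 (Or.inr (Or.inr ⟨rfl, hz1⟩))
      exact ⟨ULift.up 2, by simp, ⟨z, g1⟩, hlinkN _ ⟨z, mem_inter.2 ⟨g1, hz2⟩⟩⟩
    have k3 : ∀ t ∈ Ti, t ∈ Z → ∃ c ∈ ({ULift.up 1, ULift.up 2} : Finset (ULift.{u} (Fin 3))),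
        (N c).Nonempty ∧ N c ⊆ Z := by
      intro t ht htZ
      obtain ⟨g1, g2⟩ := (mTi t).1 ht
      rcases hK Z hZold t (mem_inter.2 g2) g1 htZ with h4 | h4
      · exact k1 h4
      · exact k2 h4
    obtain ⟨z, hz⟩ := hg.part_meet hpart hZ hZne
    obtain ⟨hzZ, hzY⟩ := mem_inter.1 hz
    rcases (mY z).1 hzY with h4 | h4 | h4 | h4
    · exact k3 z h4 hzZ
    · obtain ⟨t, ht⟩ := card_pos.1 (by omega : 0 < Ti.card)
      refine k3 t ht (hlinkN (ULift.up 0) ⟨z, mem_inter.2 ⟨(mN _ _).2 (Or.inl ⟨rfl, Or.inl h4⟩),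
        hzZ⟩⟩ ((mN _ _).2 (Or.inl ⟨rfl, Or.inr ht⟩)))
    · exact k1 (h4 ▸ hzZ)
    · exact k2 ⟨z, mem_inter.2 ⟨h4, hzZ⟩⟩)).2 (fun c hc => by
      rw [mem_insert, mem_singleton] at hc
      rcases hc with rfl | rfl
      · simp [hN]
      · simp only [hN]
        simp
        omega) (by
      have := hv.sv1
      rw [hXc]
      push_cast
      omega) (by
      obtain ⟨t, ht⟩ := card_pos.1 (by omega : 0 < Ti.card)
      exact ⟨t, mem_union_right _ ((mY t).2 (Or.inl ht))⟩) (by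
      have h4 : ({ULift.up 1, ULift.up 2} : Finset (ULift.{u} (Fin 3))).card ≤ 2 := card_le_two
      omega)
  have hck : (Fintype.card (ULift.{u} (Fin 3)) : ℤ) = 3 := by simp
  have h4 := hv.neg
  have h5 : (0 : ℤ) ≤ ((Gdl.lost B Q L X Y {i} (Gdl.kp B L {i})).card : ℤ) := by positivity
  have h6 : (({ULift.up 1, ULift.up 2} : Finset (ULift.{u} (Fin 3))).card : ℤ) ≤ 2 := by
    exact_mod_cast card_le_two
  rw [hck, hXc, card_singleton] at hfin
  push_cast at hfin
  omega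

theorem T31.dv_eq {Q L : Finset V} {a b c : V} {s : ι} (h : T31 B L a b c s) (hLQ : L ⊆ Q)
    (hL3 : L.card = 3) (hcm : cm B L = 8) (hrho : rho B L = 2) :
    ee B Q L = 0 ∧ dv B Q L = -1 ∧ sv B L = -1 := by
  classical
  have mL : ∀ v, v ∈ L ↔ v = a ∨ v = b ∨ v = c := by
    intro v
    rw [h.eq, mem_insert, mem_insert, mem_singleton]
  have heL : ee B Q L = 0 := by
    have h1 := two_ee_le (B := B) Q L
    have h2 : (ins B Q L).filter (fun i => (B i ∩ Q).card = 1) ⊆ {s} := by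
      intro i hi
      obtain ⟨h3, h4⟩ := mem_filter.1 hi
      have h5 := (mem_ins.1 h3)
      rw [mem_singleton]
      obtain ⟨z, hz⟩ := h5.1
      have h6 : (B i ∩ L).Nonempty := ⟨z, mem_inter.2 ⟨(mem_inter.1 hz).1, h5.2 hz⟩⟩
      have key : ∀ x y, x ∈ L → y ∈ L → x ≠ y → i ∉ bl B x y := by
        intro x y hx hy hxy h7
        obtain ⟨h8, h9⟩ := mem_bl.1 h7
        have h10 := (card_le_one (s := B i ∩ Q)).1 h4.le x (mem_inter.2 ⟨h8, hLQ hx⟩) y
          (mem_inter.2 ⟨h9, hLQ hy⟩)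
        exact hxy h10
      have haL : a ∈ L := (mL a).2 (Or.inl rfl)
      rcases h.cov i h6 with h7 | h7 | h7 | h7
      · exact absurd h7 (key b c ((mL b).2 (by simp)) ((mL c).2 (by simp)) h.bc)
      · exact absurd h7 (key a b haL ((mL b).2 (by simp)) h.ab)
      · exact absurd h7 (key a c haL ((mL c).2 (by simp)) h.ac)
      · exact h7
    have h3 := card_le_card h2
    rw [card_singleton] at h3
    omega
  refine ⟨heL, ?_, ?_⟩
  · have h1 := Pv_eq (B := B) L
    rw [hL3, hcm, hrho] at h1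
    unfold dv
    rw [h1, heL]
    norm_num
  · unfold sv
    rw [hL3, hrho]
    norm_num

/-- a block with one point of `L` is the block `s`. -/
theorem T31.sing {L : Finset V} {a b c : V} {s : ι} (h : T31 B L a b c s) {i : ι}
    (hi : (B i ∩ L).card = 1) : i = s := by
  have mL : ∀ v, v ∈ L ↔ v = a ∨ v = b ∨ v = c := by
    intro v
    rw [h.eq, mem_insert, mem_insert, mem_singleton]
  have key : ∀ x y, x ∈ L → y ∈ L → x ≠ y → i ∉ bl B x y := by
    intro x y hx hy hxy h7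
    obtain ⟨h8, h9⟩ := mem_bl.1 h7
    exact hxy ((card_le_one (s := B i ∩ L)).1 hi.le x (mem_inter.2 ⟨h8, hx⟩) y
      (mem_inter.2 ⟨h9, hy⟩))
  have haL : a ∈ L := (mL a).2 (Or.inl rfl)
  rcases h.cov i (card_pos.1 (by omega)) with h7 | h7 | h7 | h7
  · exact absurd h7 (key b c ((mL b).2 (by simp)) ((mL c).2 (by simp)) h.bc)
  · exact absurd h7 (key a b haL ((mL b).2 (by simp)) h.ab)
  · exact absurd h7 (key a c haL ((mL c).2 (by simp)) h.ac)
  · exact h7

/-- **seven hits**: two contact points with single traces only. -/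
theorem ViolR.seven {Q L : Finset V} (hv : ViolR B Q) (hLQ : L ⊆ Q) (hL3 : L.card = 3)
    (hcm : cm B L = 8) (hrho : rho B L = 2) (hcr : Crit B L) {s1 s2 : V} (hne : s1 ≠ s2)
    (hs1Q : s1 ∈ Q) (hs2Q : s2 ∈ Q) (hs1L : s1 ∉ L) (hs2L : s2 ∉ L)
    (hs1E : (Ez B L s1).Nonempty) (hs2E : (Ez B L s2).Nonempty)
    (hs1 : ∀ i ∈ Ez B L s1, (B i ∩ L).card = 1) (hs2 : ∀ i ∈ Ez B L s2, (B i ∩ L).card = 1)
    {τ : V → ι}
    (hτ : ∀ v ∈ Q, v ∉ L → (Ez B L v).Nonempty → v ≠ s1 → v ≠ s2 → (B (τ v) ∩ Q).card = 3 ∧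
      v ∈ B (τ v) ∧ ∀ y ∈ B (τ v) ∩ Q, y ≠ v → Ez B L y = ∅)
    (hd : ∀ v ∈ Q, v ∉ L → (Ez B L v).Nonempty → v ≠ s1 → v ≠ s2 → ∀ w ∈ Q, w ∉ L →
      (Ez B L w).Nonempty → w ≠ s1 → w ≠ s2 → v ≠ w →
      Disjoint (B (τ v) ∩ Q) (B (τ w) ∩ Q)) :
    hit B (Q \ L) L ≠ 6 := by
  classical
  intro h6
  obtain ⟨a, b, c, s, h⟩ := exists_t31 (hv.reg.mono hLQ) (hv.tr.mono hLQ) hL3 hcm hrho
  obtain ⟨heL, hdv, hsL⟩ := h.dv_eq hLQ hL3 hcm hrho
  have mL : ∀ v, v ∈ L ↔ v = a ∨ v = b ∨ v = c := by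
    intro v
    rw [h.eq, mem_insert, mem_insert, mem_singleton]
  have haL : a ∈ L := (mL a).2 (Or.inl rfl)
  have hLne : L.Nonempty := ⟨a, haL⟩
  have has : a ∈ B s := by
    have h4 : a ∈ B s ∩ L := by
      rw [h.tr]
      exact mem_singleton_self a
    exact (mem_inter.1 h4).1
  rw [← hs_card] at h6
  set H := hs B Q L with hH
  have mem := fun {p : ι × V} => mem_hs (B := B) (Q := Q) (L := L) (p := p)
  obtain ⟨bA, bB, bC, bS⟩ := h.bounds hv.tr hLQ
  rw [← hH] at bA bB bC bS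
  set HA := H.filter (fun p => p.1 ∈ bl B b c) with hHA
  set HB := H.filter (fun p => p.1 ∈ bl B a b) with hHB
  set HC := H.filter (fun p => p.1 ∈ bl B a c) with hHC
  set HS := H.filter (fun p => p.1 = s) with hHS
  have hez : ∀ p ∈ H, (Ez B L p.2).Nonempty := fun p hp =>
    ⟨p.1, mem_Ez.2 ⟨(mem.1 hp).2.2.1, (mem.1 hp).2.2.2⟩⟩
  have hcov4 : ∀ p ∈ H, p ∈ HA ∨ p ∈ HB ∨ p ∈ HC ∨ p ∈ HS := by
    intro p hp
    rcases h.cov p.1 (mem.1 hp).2.2.2 with h1 | h1 | h1 | h1
    · exact Or.inl (mem_filter.2 ⟨hp, h1⟩)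
    · exact Or.inr (Or.inl (mem_filter.2 ⟨hp, h1⟩))
    · exact Or.inr (Or.inr (Or.inl (mem_filter.2 ⟨hp, h1⟩)))
    · exact Or.inr (Or.inr (Or.inr (mem_filter.2 ⟨hp, h1⟩)))
  have f1 : ∀ p ∈ HA, ∀ r ∈ H, r ∉ HA → rho B (L ∪ {p.2, r.2}) ≤ 2 := by
    intro p hp r hr hrA
    obtain ⟨hp1, hp2⟩ := mem_filter.1 hp
    have h1 := mem_bl.1 hp2
    have h2 : a ∈ B r.1 := by
      rcases hcov4 r hr with h3 | h3 | h3 | h3
      · exact absurd h3 hrA
      · exact (mem_bl.1 (mem_filter.1 h3).2).1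
      · exact (mem_bl.1 (mem_filter.1 h3).2).1
      · rw [(mem_filter.1 h3).2]
        exact has
    refine rho_two (i := p.1) (i' := r.1) (fun z hz => ?_) (mem_union_left _ (mem.1 hp1).2.2.1)
      (mem_union_right _ (mem.1 hr).2.2.1)
    rcases (mL z).1 hz with rfl | rfl | rfl
    · exact mem_union_right _ h2
    · exact mem_union_left _ h1.1
    · exact mem_union_left _ h1.2
  have f2 : ∀ p ∈ HB, ∀ r ∈ HC, rho B (L ∪ {p.2, r.2}) ≤ 2 := by
    intro p hp r hr
    obtain ⟨hp1, hp2⟩ := mem_filter.1 hp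
    obtain ⟨hr1, hr2⟩ := mem_filter.1 hr
    have h1 := mem_bl.1 hp2
    have h2 := mem_bl.1 hr2
    refine rho_two (i := p.1) (i' := r.1) (fun z hz => ?_) (mem_union_left _ (mem.1 hp1).2.2.1)
      (mem_union_right _ (mem.1 hr1).2.2.1)
    rcases (mL z).1 hz with rfl | rfl | rfl
    · exact mem_union_left _ h1.1
    · exact mem_union_left _ h1.2
    · exact mem_union_right _ h2.2
  have hpc : ∀ v w : V, L ∪ {v, w} = L ∪ {w, v} := fun v w => by rw [pair_comm]
  have no3 : ∀ i, a ∈ B i → b ∈ B i → c ∈ B i → False := by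
    intro i h1 h2 h3
    have h4 : L ⊆ B i := fun z hz => by
      rcases (mL z).1 hz with rfl | rfl | rfl <;> assumption
    have := rho_le_one h4
    omega
  have dAB : ∀ p ∈ HB, p ∉ HA := fun p hp hpA =>
    no3 p.1 (mem_bl.1 (mem_filter.1 hp).2).1 (mem_bl.1 (mem_filter.1 hp).2).2
      (mem_bl.1 (mem_filter.1 hpA).2).2
  have dAC : ∀ p ∈ HC, p ∉ HA := fun p hp hpA =>
    no3 p.1 (mem_bl.1 (mem_filter.1 hp).2).1 (mem_bl.1 (mem_filter.1 hpA).2).1
      (mem_bl.1 (mem_filter.1 hp).2).2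
  have dBC : ∀ p ∈ HC, p ∉ HB := fun p hp hpA =>
    no3 p.1 (mem_bl.1 (mem_filter.1 hp).2).1 (mem_bl.1 (mem_filter.1 hpA).2).2
      (mem_bl.1 (mem_filter.1 hp).2).2
  have dS : ∀ p ∈ H, p ∈ HA ∨ p ∈ HB ∨ p ∈ HC → p ∉ HS := by
    intro p _ hp h1
    have h2 := (mem_filter.1 h1).2
    have h8 : b ∈ B s ∨ c ∈ B s := by
      rcases hp with h9 | h9 | h9
      · exact Or.inl (by rw [← h2]; exact (mem_bl.1 (mem_filter.1 h9).2).1)
      · exact Or.inl (by rw [← h2]; exact (mem_bl.1 (mem_filter.1 h9).2).2)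
      · exact Or.inr (by rw [← h2]; exact (mem_bl.1 (mem_filter.1 h9).2).2)
    rcases h8 with h9 | h9
    · have h10 : b ∈ B s ∩ L := mem_inter.2 ⟨h9, (mL b).2 (by simp)⟩
      rw [h.tr, mem_singleton] at h10
      exact h.ab h10.symm
    · have h10 : c ∈ B s ∩ L := mem_inter.2 ⟨h9, (mL c).2 (by simp)⟩
      rw [h.tr, mem_singleton] at h10
      exact h.ac h10.symm
  -- the single block
  have es1 : Ez B L s1 = {s} := by
    ext i
    rw [mem_singleton]
    refine ⟨fun hi => h.sing (hs1 i hi), ?_⟩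
    rintro rfl
    obtain ⟨j, hj⟩ := hs1E
    rwa [h.sing (hs1 j hj)] at hj
  have es2 : Ez B L s2 = {s} := by
    ext i
    rw [mem_singleton]
    refine ⟨fun hi => h.sing (hs2 i hi), ?_⟩
    rintro rfl
    obtain ⟨j, hj⟩ := hs2E
    rwa [h.sing (hs2 j hj)] at hj
  have hs1s : s1 ∈ B s := by
    have h1 : s ∈ Ez B L s1 := by
      rw [es1]
      exact mem_singleton_self s
    exact (mem_Ez.1 h1).1
  have hs2s : s2 ∈ B s := by
    have h1 : s ∈ Ez B L s2 := by
      rw [es2]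
      exact mem_singleton_self s
    exact (mem_Ez.1 h1).1
  have m1 : ((s, s1) : ι × V) ∈ HS :=
    mem_filter.2 ⟨mem.2 ⟨hs1Q, hs1L, hs1s, a, mem_inter.2 ⟨has, haL⟩⟩, rfl⟩
  have m2 : ((s, s2) : ι × V) ∈ HS :=
    mem_filter.2 ⟨mem.2 ⟨hs2Q, hs2L, hs2s, a, mem_inter.2 ⟨has, haL⟩⟩, rfl⟩
  have hHSe : HS = {(s, s1), (s, s2)} := by
    have h1 : ({(s, s1), (s, s2)} : Finset (ι × V)) ⊆ HS := by
      intro z hz
      rw [mem_insert, mem_singleton] at hz
      rcases hz with rfl | rfl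
      · exact m1
      · exact m2
    refine (eq_of_subset_of_card_le h1 ?_).symm
    rw [card_pair (fun h2 => hne (congrArg Prod.snd h2))]
    exact bS
  have hHSc : HS.card = 2 := by
    rw [hHSe, card_pair (fun h2 => hne (congrArg Prod.snd h2))]
  have hHSH : HS ⊆ H := filter_subset _ _
  set O := H \ HS with hO
  have hOc : O.card = 4 := by
    have h1 : O.card + HS.card = H.card := card_sdiff_add_card_eq_card hHSH
    omega
  have hOH : O ⊆ H := sdiff_subset
  have hO3 : ∀ p ∈ O, p ∈ HA ∨ p ∈ HB ∨ p ∈ HC := by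
    intro p hp
    obtain ⟨h1, h2⟩ := mem_sdiff.1 hp
    rcases hcov4 p h1 with h3 | h3 | h3 | h3
    · exact Or.inl h3
    · exact Or.inr (Or.inl h3)
    · exact Or.inr (Or.inr h3)
    · exact absurd h3 h2
  have hAO : HA ⊆ O := fun p hp =>
    mem_sdiff.2 ⟨(mem_filter.1 hp).1, dS p (mem_filter.1 hp).1 (Or.inl hp)⟩
  have hBO : HB ⊆ O := fun p hp =>
    mem_sdiff.2 ⟨(mem_filter.1 hp).1, dS p (mem_filter.1 hp).1 (Or.inr (Or.inl hp))⟩
  have hCO : HC ⊆ O := fun p hp =>
    mem_sdiff.2 ⟨(mem_filter.1 hp).1, dS p (mem_filter.1 hp).1 (Or.inr (Or.inr hp))⟩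
  have hsum : HA.card + HB.card + HC.card = 4 := by
    have h1 : O = (HA ∪ HB) ∪ HC := by
      refine Subset.antisymm (fun p hp => ?_) (union_subset (union_subset hAO hBO) hCO)
      rcases hO3 p hp with h2 | h2 | h2
      · exact mem_union_left _ (mem_union_left _ h2)
      · exact mem_union_left _ (mem_union_right _ h2)
      · exact mem_union_right _ h2
    rw [h1, card_union_of_disjoint, card_union_of_disjoint] at hOc
    · exact hOc
    · exact disjoint_left.2 fun z h2 h3 => dAB z h3 h2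
    · rw [disjoint_left]
      intro z h2 h3
      rcases mem_union.1 h2 with h4 | h4
      · exact dAC z h3 h4
      · exact dBC z h3 h4
  have one1 : ∀ p ∈ H, p.2 = s1 → p ∈ HS := by
    intro p hp hps
    have h1 : p.1 ∈ Ez B L s1 := by
      rw [← hps]
      exact mem_Ez.2 ⟨(mem.1 hp).2.2.1, (mem.1 hp).2.2.2⟩
    rw [es1, mem_singleton] at h1
    exact mem_filter.2 ⟨hp, h1⟩
  have one2 : ∀ p ∈ H, p.2 = s2 → p ∈ HS := by
    intro p hp hps
    have h1 : p.1 ∈ Ez B L s2 := by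
      rw [← hps]
      exact mem_Ez.2 ⟨(mem.1 hp).2.2.1, (mem.1 hp).2.2.2⟩
    rw [es2, mem_singleton] at h1
    exact mem_filter.2 ⟨hp, h1⟩
  have on1 : ∀ p ∈ O, p.2 ≠ s1 := fun p hp h1 => (mem_sdiff.1 hp).2 (one1 p (hOH hp) h1)
  have on2 : ∀ p ∈ O, p.2 ≠ s2 := fun p hp h1 => (mem_sdiff.1 hp).2 (one2 p (hOH hp) h1)
  -- (S0)
  have s0 : ∀ p ∈ O, 3 ≤ (H.filter (fun r => r.2 ≠ p.2)).card := by
    intro p hp
    obtain ⟨hpQ, hpL, hpb, hpm⟩ := mem.1 (hOH hp)
    obtain ⟨t1, t2, t3⟩ := hτ p.2 hpQ hpL (hez p (hOH hp)) (on1 p hp) (on2 p hp)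
    have hTL : L ⊆ Q \ (B (τ p.2) ∩ Q) := by
      intro z hz
      refine mem_sdiff.2 ⟨hLQ hz, fun h1 => ?_⟩
      have h2 : z ≠ p.2 := fun h3 => hpL (h3 ▸ hz)
      have h3 := t3 z h1 h2
      have h4 : (univ.filter (fun k => z ∈ B k)).card = 5 := hv.reg z (hLQ hz)
      obtain ⟨k, hk⟩ := card_pos.1 (by omega : 0 < (univ.filter (fun k => z ∈ B k)).card)
      have h5 : k ∈ Ez B L z :=
        mem_Ez.2 ⟨(mem_filter.1 hk).2, z, mem_inter.2 ⟨(mem_filter.1 hk).2, hz⟩⟩
      rw [h3] at h5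
      exact notMem_empty _ h5
    have h1 : hit B ((Q \ (B (τ p.2) ∩ Q)) \ L) L ≤ (H.filter (fun r => r.2 ≠ p.2)).card := by
      rw [hs_out]
      refine card_le_card fun r hr => ?_
      obtain ⟨h2, h3⟩ := mem_filter.1 hr
      refine mem_filter.2 ⟨h2, fun h4 => h3 ?_⟩
      rw [h4]
      exact mem_inter.2 ⟨t2, hpQ⟩
    by_contra hcon
    have h2 := hv.s0 t1 hTL hLne hcr hsL t2 hpQ (hez p (hOH hp)) (nu := 2) (by norm_num)
      (by norm_num) (fun y hy => by
        rw [t3 y (mem_of_mem_erase hy) (ne_of_mem_erase hy), card_empty]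
        norm_num) (by omega)
    rw [hdv] at h2
    norm_num at h2
  have hex : ∀ p ∈ O, ∀ r ∈ O, ee B Q {p.2, r.2} = 0 := by
    intro p hp r hr
    have key : ∀ p ∈ O, (univ.filter (fun j => B j ∩ Q = {p.2})).card ≤ 1 := by
      intro p hp
      obtain ⟨hpQ, hpL, _, _⟩ := mem.1 (hOH hp)
      obtain ⟨t1, t2, _⟩ := hτ p.2 hpQ hpL (hez p (hOH hp)) (on1 p hp) (on2 p hp)
      exact hv.single_two t1 t2 hpQ
    unfold ee
    rw [card_eq_zero, filter_eq_empty_iff]
    intro t ht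
    rw [mem_insert, mem_singleton] at ht
    rcases ht with rfl | rfl
    · have := key p hp
      omega
    · have := key r hr
      omega
  -- two points
  have two : ∀ p ∈ O, ∀ r ∈ O, p.2 ≠ r.2 → rho B (L ∪ {p.2, r.2}) ≤ 2 →
      ((H.filter (fun z => z.2 ≠ p.2 ∧ z.2 ≠ r.2)).image Prod.fst).card ≤ 2 → False := by
    intro p hp r hr hpr hab hc
    obtain ⟨hpQ, hpL, _, _⟩ := mem.1 (hOH hp)
    obtain ⟨hrQ, hrL, _, _⟩ := mem.1 (hOH hr)
    refine hv.lb2 hLQ hL3 hcm heL hpQ hrQ hpL hrL hpr (hex p hp r hr) hab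
      (fun i hi hi2 => ?_) hc
    obtain ⟨z, hz⟩ := hi2
    obtain ⟨hzi, hzR⟩ := mem_inter.1 hz
    obtain ⟨hzQ, hzW⟩ := mem_sdiff.1 hzR
    rw [mem_union, mem_insert, mem_singleton, not_or, not_or] at hzW
    exact mem_image.2 ⟨(i, z), mem_filter.2 ⟨mem.2 ⟨hzQ, hzW.1, hzi, hi⟩, hzW.2.1, hzW.2.2⟩, rfl⟩
  by_cases hinj : ∀ p ∈ O, ∀ r ∈ O, p ≠ r → p.2 ≠ r.2
  · -- four different points
    have one : ∀ z ∈ O, (Ez B L z.2).card = 1 := by
      intro z hz
      obtain ⟨hzQ, hzL, _, _⟩ := mem.1 (hOH hz)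
      rw [← hs_fiber hzQ hzL, ← hH, card_eq_one]
      refine ⟨z, ?_⟩
      ext w
      rw [mem_filter, mem_singleton]
      constructor
      · rintro ⟨h7, h8⟩
        by_contra h9
        have hwO : w ∈ O := by
          refine mem_sdiff.2 ⟨h7, fun h10 => ?_⟩
          rw [hHSe, mem_insert, mem_singleton] at h10
          rcases h10 with h10 | h10
          · exact on1 z hz (by rw [← h8, h10])
          · exact on2 z hz (by rw [← h8, h10])
        exact hinj w hwO z hz h9 h8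
      · rintro rfl
        exact ⟨hOH hz, rfl⟩
    have c4 : ∀ p ∈ O, ∀ q ∈ O, ∀ p' ∈ O, ∀ q' ∈ O, p ≠ q → p ≠ p' → p ≠ q' → q ≠ p' →
        q ≠ q' → p' ≠ q' → rho B (L ∪ {p.2, q.2}) ≤ 2 → rho B (L ∪ {q.2, p'.2}) ≤ 2 →
        rho B (L ∪ {p.2, q'.2}) ≤ 2 → rho B (L ∪ {p'.2, q'.2}) ≤ 2 → False := by
      intro p hp q hq p' hp' q' hq' n1 n2 n3 n4 n5 n6 a1 a2 a3 a4
      have e1 := card_erase_add_one hp
      have m2' : q ∈ O.erase p := mem_erase.2 ⟨n1.symm, hq⟩
      have e2 := card_erase_add_one m2'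
      have m3 : p' ∈ (O.erase p).erase q := mem_erase.2 ⟨n4.symm, mem_erase.2 ⟨n2.symm, hp'⟩⟩
      have e3 := card_erase_add_one m3
      have m4 : q' ∈ ((O.erase p).erase q).erase p' :=
        mem_erase.2 ⟨n6.symm, mem_erase.2 ⟨n5.symm, mem_erase.2 ⟨n3.symm, hq'⟩⟩⟩
      have e4 := card_erase_add_one m4
      have hr : (((O.erase p).erase q).erase p').erase q' = ∅ := card_eq_zero.1 (by omega)
      have hallO : ∀ z ∈ O, z = p ∨ z = q ∨ z = p' ∨ z = q' := by
        intro z hz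
        by_contra h7
        push Not at h7
        have h8 : z ∈ (((O.erase p).erase q).erase p').erase q' :=
          mem_erase.2 ⟨h7.2.2.2, mem_erase.2 ⟨h7.2.2.1, mem_erase.2 ⟨h7.2.1,
            mem_erase.2 ⟨h7.1, hz⟩⟩⟩⟩
        rw [hr] at h8
        exact notMem_empty _ h8
      obtain ⟨hpQ, hpL, _, _⟩ := mem.1 (hOH hp)
      obtain ⟨hqQ, hqL, _, _⟩ := mem.1 (hOH hq)
      obtain ⟨hp'Q, hp'L, _, _⟩ := mem.1 (hOH hp')
      obtain ⟨hq'Q, hq'L, _, _⟩ := mem.1 (hOH hq')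
      obtain ⟨ti, ti', ti''⟩ := hτ p.2 hpQ hpL (hez p (hOH hp)) (on1 p hp) (on2 p hp)
      obtain ⟨tj, tj', tj''⟩ := hτ q.2 hqQ hqL (hez q (hOH hq)) (on1 q hq) (on2 q hq)
      have mV : ∀ z, z ∈ ({s1, s2} : Finset V) ↔ z = s1 ∨ z = s2 := fun z => by
        rw [mem_insert, mem_singleton]
      have nV : ∀ z ∈ O, z.2 ∉ ({s1, s2} : Finset V) := fun z hz h7 => by
        rcases (mV _).1 h7 with h8 | h8
        · exact on1 z hz h8
        · exact on2 z hz h8
      refine hv.k3v hLQ hLne hdv.ge (V0 := {s1, s2}) (k0 := s) ti tj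
        (mem_inter.2 ⟨ti', hpQ⟩) (mem_inter.2 ⟨tj', hqQ⟩)
        (hd p.2 hpQ hpL (hez p (hOH hp)) (on1 p hp) (on2 p hp) q.2 hqQ hqL (hez q (hOH hq))
          (on1 q hq) (on2 q hq) (hinj p hp q hq n1)) ti'' tj''
        hpL hqL hp'Q hq'Q (fun z hz => ?_) hp'L hq'L (fun z hz => ?_) (one p' hp') (one q' hq')
        (fun z hz => ?_) card_le_two (fun z hz => ?_)
        (hinj p hp p' hp' n2) (hinj p hp q' hq' n3) (nV p hp)
        (hinj q hq p' hp' n4) (hinj q hq q' hq' n5) (nV q hq)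
        (hinj p' hp' q' hq' n6) (nV p' hp') (nV q' hq')
        ?_ (by rw [hrho]; exact a1) (by rw [hrho]; exact a2) (by rw [hrho]; exact a3)
        (by rw [hrho]; exact a4)
      · rcases (mV z).1 hz with rfl | rfl
        · exact hs1Q
        · exact hs2Q
      · rcases (mV z).1 hz with rfl | rfl
        · exact hs1L
        · exact hs2L
      · rcases (mV z).1 hz with rfl | rfl
        · rw [es1, card_singleton]
        · rw [es2, card_singleton]
      · rcases (mV z).1 hz with rfl | rfl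
        · exact hs1s
        · exact hs2s
      · intro v hvQ hvL hvE
        obtain ⟨i, hi⟩ := hvE
        obtain ⟨hi1, hi2⟩ := mem_Ez.1 hi
        have hvH : ((i, v) : ι × V) ∈ H := mem.2 ⟨hvQ, hvL, hi1, hi2⟩
        by_cases hvS : ((i, v) : ι × V) ∈ HS
        · rw [hHSe, mem_insert, mem_singleton] at hvS
          refine Or.inr (Or.inr (Or.inr (Or.inr ((mV v).2 ?_))))
          rcases hvS with h7 | h7
          · exact Or.inl (congrArg Prod.snd h7)
          · exact Or.inr (congrArg Prod.snd h7)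
        · rcases hallO (i, v) (mem_sdiff.2 ⟨hvH, hvS⟩) with h7 | h7 | h7 | h7
          · exact Or.inl (by rw [← h7])
          · exact Or.inr (Or.inl (by rw [← h7]))
          · exact Or.inr (Or.inr (Or.inl (by rw [← h7])))
          · exact Or.inr (Or.inr (Or.inr (Or.inl (by rw [← h7]))))
    have sub : ∀ {S : Finset (ι × V)}, S ⊆ O → (O \ S).card + S.card = O.card := fun hS =>
      card_sdiff_add_card_eq_card hS
    by_cases hA2 : 2 ≤ HA.card ∧ HA.card ≤ 2
    · obtain ⟨p, p', hp, hp', hpp⟩ := one_lt_card_iff.1 (by omega : 1 < HA.card)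
      have h7 := sub hAO
      obtain ⟨q, q', hq, hq', hqq⟩ := one_lt_card_iff.1 (by omega : 1 < (O \ HA).card)
      obtain ⟨hq1, hq2⟩ := mem_sdiff.1 hq
      obtain ⟨hq'1, hq'2⟩ := mem_sdiff.1 hq'
      exact c4 p (hAO hp) q hq1 p' (hAO hp') q' hq'1 (fun h7 => hq2 (h7 ▸ hp)) hpp
        (fun h7 => hq'2 (h7 ▸ hp)) (fun h7 => hq2 (h7 ▸ hp')) hqq (fun h7 => hq'2 (h7 ▸ hp'))
        (f1 p hp q (hOH hq1) hq2) (by rw [hpc]; exact f1 p' hp' q (hOH hq1) hq2)
        (f1 p hp q' (hOH hq'1) hq'2) (f1 p' hp' q' (hOH hq'1) hq'2)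
    by_cases hB2 : HB.card = 2
    · obtain ⟨p, p', hp, hp', hpp⟩ := one_lt_card_iff.1 (by omega : 1 < HB.card)
      have h7 := sub hBO
      obtain ⟨q, q', hq, hq', hqq⟩ := one_lt_card_iff.1 (by omega : 1 < (O \ HB).card)
      have g1 : ∀ x ∈ HB, ∀ z ∈ O \ HB, x ≠ z ∧ z ∈ O ∧ rho B (L ∪ {x.2, z.2}) ≤ 2 := by
        intro x hx z hz
        obtain ⟨hz1, hz2⟩ := mem_sdiff.1 hz
        refine ⟨fun h8 => hz2 (h8 ▸ hx), hz1, ?_⟩
        rcases hO3 z hz1 with h8 | h8 | h8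
        · rw [hpc]
          exact f1 z h8 x (hOH (hBO hx)) (dAB x hx)
        · exact absurd h8 hz2
        · exact f2 x hx z h8
      obtain ⟨u1, u2, u3⟩ := g1 p hp q hq
      obtain ⟨w1, w2, w3⟩ := g1 p hp q' hq'
      obtain ⟨x1, x2, x3⟩ := g1 p' hp' q hq
      obtain ⟨y1, y2, y3⟩ := g1 p' hp' q' hq'
      exact c4 p (hBO hp) q u2 p' (hBO hp') q' w2 u1 hpp w1 x1.symm hqq y1 u3
        (by rw [hpc]; exact x3) w3 y3
    by_cases hC2 : HC.card = 2
    · obtain ⟨p, p', hp, hp', hpp⟩ := one_lt_card_iff.1 (by omega : 1 < HC.card)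
      have h7 := sub hCO
      obtain ⟨q, q', hq, hq', hqq⟩ := one_lt_card_iff.1 (by omega : 1 < (O \ HC).card)
      have g1 : ∀ x ∈ HC, ∀ z ∈ O \ HC, x ≠ z ∧ z ∈ O ∧ rho B (L ∪ {x.2, z.2}) ≤ 2 := by
        intro x hx z hz
        obtain ⟨hz1, hz2⟩ := mem_sdiff.1 hz
        refine ⟨fun h8 => hz2 (h8 ▸ hx), hz1, ?_⟩
        rcases hO3 z hz1 with h8 | h8 | h8
        · rw [hpc]
          exact f1 z h8 x (hOH (hCO hx)) (dAC x hx)
        · rw [hpc]
          exact f2 z h8 x hx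
        · exact absurd h8 hz2
      obtain ⟨u1, u2, u3⟩ := g1 p hp q hq
      obtain ⟨w1, w2, w3⟩ := g1 p hp q' hq'
      obtain ⟨x1, x2, x3⟩ := g1 p' hp' q hq
      obtain ⟨y1, y2, y3⟩ := g1 p' hp' q' hq'
      exact c4 p (hCO hp) q u2 p' (hCO hp') q' w2 u1 hpp w1 x1.symm hqq y1 u3
        (by rw [hpc]; exact x3) w3 y3
    -- three hits of class A, one other
    have hA3 : HA.card = 3 := by omega
    have h7 := sub hAO
    obtain ⟨y, hy⟩ := card_eq_one.1 (by omega : (O \ HA).card = 1)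
    have hyO : y ∈ O ∧ y ∉ HA := by
      have h8 : y ∈ O \ HA := by
        rw [hy]
        exact mem_singleton_self y
      exact mem_sdiff.1 h8
    obtain ⟨x, v, w, hxv, hxw, hvw, hAe⟩ := card_eq_three.1 hA3
    have mA : ∀ z, z ∈ HA ↔ z = x ∨ z = v ∨ z = w := fun z => by
      rw [hAe, mem_insert, mem_insert, mem_singleton]
    have hxA : x ∈ HA := (mA x).2 (Or.inl rfl)
    have hvA : v ∈ HA := (mA v).2 (Or.inr (Or.inl rfl))
    have hwA : w ∈ HA := (mA w).2 (Or.inr (Or.inr rfl))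
    have hallO : ∀ z ∈ O, z = x ∨ z = v ∨ z = w ∨ z = y := by
      intro z hz
      by_cases h8 : z ∈ HA
      · rcases (mA z).1 h8 with h9 | h9 | h9
        · exact Or.inl h9
        · exact Or.inr (Or.inl h9)
        · exact Or.inr (Or.inr (Or.inl h9))
      · have h9 : z ∈ O \ HA := mem_sdiff.2 ⟨hz, h8⟩
        rw [hy, mem_singleton] at h9
        exact Or.inr (Or.inr (Or.inr h9))
    obtain ⟨hxQ, hxL, _, _⟩ := mem.1 (hOH (hAO hxA))
    obtain ⟨hyQ, hyL, _, _⟩ := mem.1 (hOH hyO.1)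
    obtain ⟨ti, ti', ti''⟩ := hτ x.2 hxQ hxL (hez x (hOH (hAO hxA))) (on1 x (hAO hxA))
      (on2 x (hAO hxA))
    have hxy : x ≠ y := fun h8 => hyO.2 (h8 ▸ hxA)
    have mV : ∀ z, z ∈ ({s1, s2} : Finset V) ↔ z = s1 ∨ z = s2 := fun z => by
      rw [mem_insert, mem_singleton]
    have nV : ∀ z ∈ O, z.2 ∉ ({s1, s2} : Finset V) := fun z hz h7 => by
      rcases (mV _).1 h7 with h8 | h8
      · exact on1 z hz h8
      · exact on2 z hz h8
    have hcontact : ∀ u ∈ Q, u ∉ L → (Ez B L u).Nonempty →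
        u = x.2 ∨ u = y.2 ∨ u = v.2 ∨ u = w.2 ∨ u ∈ ({s1, s2} : Finset V) := by
      intro u huQ huL huE
      obtain ⟨i, hi⟩ := huE
      obtain ⟨hi1, hi2⟩ := mem_Ez.1 hi
      have hvH : ((i, u) : ι × V) ∈ H := mem.2 ⟨huQ, huL, hi1, hi2⟩
      by_cases hvS : ((i, u) : ι × V) ∈ HS
      · rw [hHSe, mem_insert, mem_singleton] at hvS
        refine Or.inr (Or.inr (Or.inr (Or.inr ((mV u).2 ?_))))
        rcases hvS with h7 | h7
        · exact Or.inl (congrArg Prod.snd h7)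
        · exact Or.inr (congrArg Prod.snd h7)
      · rcases hallO (i, u) (mem_sdiff.2 ⟨hvH, hvS⟩) with h7 | h7 | h7 | h7
        · exact Or.inl (by rw [← h7])
        · exact Or.inr (Or.inr (Or.inl (by rw [← h7])))
        · exact Or.inr (Or.inr (Or.inr (Or.inl (by rw [← h7]))))
        · exact Or.inr (Or.inl (by rw [← h7]))
    -- the final application
    have fin : ∀ v ∈ HA, ∀ r ∈ HA, v ≠ r → x ≠ v → x ≠ r →
        (∀ u ∈ Q, u ∉ L → (Ez B L u).Nonempty →
          u = x.2 ∨ u = y.2 ∨ u = v.2 ∨ u = r.2 ∨ u ∈ ({s1, s2} : Finset V)) →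
        (∀ Z, Closed (gr B) (Q \ (L ∪ {x.2, y.2})) Z → ∀ t ∈ B (τ x.2) ∩ Q, t ≠ x.2 → t ∈ Z →
          r.2 ∈ Z ∨ ((({s1, s2} : Finset V)) ∩ Z).Nonempty) → False := by
      intro v hv' r hr hvr hxv hxr hcp hK
      have hvO := hAO hv'
      have hrO := hAO hr
      have hxO := hAO hxA
      obtain ⟨hvQ, hvL, _, _⟩ := mem.1 (hOH hvO)
      obtain ⟨hrQ, hrL, _, _⟩ := mem.1 (hOH hrO)
      refine hv.k1c hLQ hLne hdv.ge hsL.le (V0 := {s1, s2}) (k0 := s) (x := x.2) (y := y.2)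
        (v := v.2) (r := r.2) ti
        (mem_inter.2 ⟨ti', hxQ⟩) ti'' hxL hyL hyQ (hez y (hOH hyO.1)) hvQ hrQ (fun z hz => ?_)
        hvL hrL (fun z hz => ?_) (one v hvO) (one r hrO) (fun z hz => ?_) card_le_two
        (fun z hz => ?_) (hinj x hxO y hyO.1 hxy) (hinj x hxO v hvO hxv) (hinj x hxO r hrO hxr)
        (nV x hxO) (hinj y hyO.1 v hvO (fun h8 => hyO.2 (h8 ▸ hv')))
        (hinj y hyO.1 r hrO (fun h8 => hyO.2 (h8 ▸ hr))) (nV y hyO.1) (hinj v hvO r hrO hvr)
        (nV v hvO) (nV r hrO) hcp ?_ (by rw [hrho]; exact f1 x hxA y (hOH hyO.1) hyO.2)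
        (by rw [hrho, hpc]; exact f1 v hv' y (hOH hyO.1) hyO.2) hK
      · rcases (mV z).1 hz with rfl | rfl
        · exact hs1Q
        · exact hs2Q
      · rcases (mV z).1 hz with rfl | rfl
        · exact hs1L
        · exact hs2L
      · rcases (mV z).1 hz with rfl | rfl
        · rw [es1, card_singleton]
        · rw [es2, card_singleton]
      · rcases (mV z).1 hz with rfl | rfl
        · exact hs1s
        · exact hs2s
      · -- different contact points in one block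
        intro k hk u hu w hw' huw hu' hw''
        -- hits of A-points are in different blocks
        have hblk : ∀ z ∈ HA, ∀ q ∈ H, q.1 = z.1 → q = z := by
          intro z hz q hq hqz
          have hqA : q ∈ HA := mem_filter.2 ⟨hq, by rw [hqz]; exact (mem_filter.1 hz).2⟩
          by_contra hne'
          have h8 := mem.1 hq
          have h9 := mem.1 (mem_filter.1 hz).1
          have h10 := mem_bl.1 (mem_filter.1 hz).2
          have h11 : q.2 ≠ z.2 := fun h12 => hne' (Prod.ext hqz h12)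
          have h12 : ({b, c, q.2, z.2} : Finset V) ⊆ B z.1 ∩ Q := by
            intro y' hy'
            simp only [mem_insert, mem_singleton] at hy'
            rcases hy' with rfl | rfl | rfl | rfl
            · exact mem_inter.2 ⟨h10.1, hLQ ((mL _).2 (by simp))⟩
            · exact mem_inter.2 ⟨h10.2, hLQ ((mL _).2 (by simp))⟩
            · exact mem_inter.2 ⟨by rw [← hqz]; exact h8.2.2.1, h8.1⟩
            · exact mem_inter.2 ⟨h9.2.2.1, h9.1⟩
          have h13 := card_le_card h12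
          have h14 := hv.tr z.1
          have h15 : ({b, c, q.2, z.2} : Finset V).card = 4 := by
            rw [card_insert_of_notMem, card_insert_of_notMem, card_pair h11]
            · rw [mem_insert, mem_singleton]
              rintro (h16 | h16)
              · exact h8.2.1 (h16 ▸ (mL c).2 (by simp))
              · exact h9.2.1 (h16 ▸ (mL c).2 (by simp))
            · rw [mem_insert, mem_insert, mem_singleton]
              rintro (h16 | h16 | h16)
              · exact h.bc h16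
              · exact h8.2.1 (h16 ▸ (mL b).2 (by simp))
              · exact h9.2.1 (h16 ▸ (mL b).2 (by simp))
          omega
        -- a hit of an A-point through `k`
        have hA1 : ∀ z ∈ HA, z.2 ∈ B k → z.1 = k := by
          intro z hz hzk
          have h8 := one z (hAO hz)
          have h9 := mem.1 (hOH (hAO hz))
          have h10 := (card_le_one (s := Ez B L z.2)).1 h8.le z.1
            (mem_Ez.2 ⟨h9.2.2.1, h9.2.2.2⟩) k (mem_Ez.2 ⟨hzk, hk⟩)
          exact h10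
        have hin : ∀ u, u = v.2 ∨ u = r.2 ∨ u ∈ ({s1, s2} : Finset V) → u ∈ Q ∧ u ∉ L := by
          rintro u (rfl | rfl | h8)
          · exact ⟨hvQ, hvL⟩
          · exact ⟨hrQ, hrL⟩
          · rcases (mV u).1 h8 with rfl | rfl
            · exact ⟨hs1Q, hs1L⟩
            · exact ⟨hs2Q, hs2L⟩
        have hno : ∀ z ∈ HA, z.2 ∈ B k → ∀ u ∈ B k, u ∈ Q → u ∉ L → u = z.2 := by
          intro z hz hzk u hu huQ huL
          have h8 := hA1 z hz hzk
          have h9 := hblk z hz (k, u) (mem.2 ⟨huQ, huL, hu, hk⟩) h8.symm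
          exact congrArg Prod.snd h9
        have g1 : ∀ u ∈ B k, ∀ w ∈ B k, u ≠ w → (u = v.2 ∨ u = r.2 ∨ u ∈ ({s1, s2} : Finset V)) →
            (w = v.2 ∨ w = r.2 ∨ w ∈ ({s1, s2} : Finset V)) → u ∈ ({s1, s2} : Finset V) := by
          intro u hu w hw' huw hu' hw''
          obtain ⟨gw1, gw2⟩ := hin w hw''
          rcases hu' with h8 | h8 | h8
          · exact absurd (hno v hv' (h8 ▸ hu) w hw' gw1 gw2) (fun h9 => huw (h8.trans h9.symm))
          · exact absurd (hno r hr (h8 ▸ hu) w hw' gw1 gw2) (fun h9 => huw (h8.trans h9.symm))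
          · exact h8
        exact ⟨g1 u hu w hw' huw hu' hw'', g1 w hw' u hu huw.symm hw'' hu'⟩
    -- the component of the triple
    obtain ⟨Ks, hK1, hK2, hK3⟩ := exists_parts B (Q \ (L ∪ {x.2, y.2}))
    obtain ⟨t0, ht0⟩ := card_pos.1 (by
      have h8 := card_erase_add_one (mem_inter.2 ⟨ti', hxQ⟩ : x.2 ∈ B (τ x.2) ∩ Q)
      omega : 0 < ((B (τ x.2) ∩ Q).erase x.2).card)
    obtain ⟨ht0x, ht0T⟩ := mem_erase.1 ht0
    obtain ⟨ht0i, ht0Q⟩ := mem_inter.1 ht0T
    have hyi : y.2 ∉ B (τ x.2) := by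
      intro h8
      have h9 := ti'' y.2 (mem_inter.2 ⟨h8, hyQ⟩)
        (fun h10 => hinj x (hAO hxA) y hyO.1 hxy h10.symm)
      have h10 := hez y (hOH hyO.1)
      rw [h9] at h10
      exact not_nonempty_empty h10
    have hTout : ∀ t ∈ B (τ x.2) ∩ Q, t ≠ x.2 → t ∈ Q \ (L ∪ {x.2, y.2}) := by
      intro t ht htx
      obtain ⟨hti, htQ⟩ := mem_inter.1 ht
      refine mem_sdiff.2 ⟨htQ, fun h8 => ?_⟩
      rcases mem_union.1 h8 with h9 | h9
      · have h10 := ti'' t ht htx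
        have h4 : (univ.filter (fun k => t ∈ B k)).card = 5 := hv.reg t htQ
        obtain ⟨k, hk⟩ := card_pos.1 (by omega : 0 < (univ.filter (fun k => t ∈ B k)).card)
        have h5 : k ∈ Ez B L t :=
          mem_Ez.2 ⟨(mem_filter.1 hk).2, t, mem_inter.2 ⟨(mem_filter.1 hk).2, h9⟩⟩
        rw [h10] at h5
        exact notMem_empty _ h5
      · rw [mem_insert, mem_singleton] at h9
        rcases h9 with h10 | h10
        · exact htx h10
        · exact hyi (h10 ▸ hti)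
    have ht0m := hTout t0 ht0T ht0x
    rw [← hK3] at ht0m
    obtain ⟨D, hD, ht0D⟩ := mem_biUnion.1 ht0m
    obtain ⟨hD1, hD2, hD3⟩ := hK1 D hD
    simp only [id] at ht0D
    -- a closed set with a point of the triple contains `D`
    have hDZ : ∀ Z, Closed (gr B) (Q \ (L ∪ {x.2, y.2})) Z → ∀ t ∈ B (τ x.2) ∩ Q, t ≠ x.2 →
        t ∈ Z → D ⊆ Z := by
      intro Z hZ t ht htx htZ
      have ht0Z : t0 ∈ Z := by
        by_cases h8 : t = t0
        · rw [← h8]
          exact htZ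
        · exact hZ.2 t htZ t0 (hD1 ht0D) ⟨h8, τ x.2, (mem_inter.1 ht).1, ht0i⟩
      have h8 : Closed (gr B) D (Z ∩ D) := by
        refine ⟨inter_subset_right, fun z hz w hw' hzw => ?_⟩
        exact mem_inter.2 ⟨hZ.2 z (mem_inter.1 hz).1 w (hD1 hw') hzw, hw'⟩
      have h9 := hD3.2 (Z ∩ D) h8 ⟨t0, mem_inter.2 ⟨ht0Z, ht0D⟩⟩
      rw [← h9]
      exact inter_subset_left
    -- `D` contains a contact point
    obtain ⟨u, huD, huE⟩ : ∃ u ∈ D, (Ez B L u).Nonempty := by
      by_contra hcon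
      push Not at hcon
      have hXQ : ({x.2, y.2} : Finset V) ⊆ Q := by
        intro z hz
        rw [mem_insert, mem_singleton] at hz
        rcases hz with rfl | rfl
        · exact hxQ
        · exact hyQ
      have h8 := hv.conn_sdiff hXQ card_le_two
      have h9 : Closed (gr B) (Q \ {x.2, y.2}) D := by
        refine ⟨fun z hz => ?_, fun z hz w hw' hzw => ?_⟩
        · obtain ⟨g1, g2⟩ := mem_sdiff.1 (hD1 hz)
          exact mem_sdiff.2 ⟨g1, fun g3 => g2 (mem_union_right _ g3)⟩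
        · by_cases hwL : w ∈ L
          · exfalso
            obtain ⟨_, k, hk1, hk2⟩ := hzw
            have h10 : k ∈ Ez B L z := mem_Ez.2 ⟨hk1, w, mem_inter.2 ⟨hk2, hwL⟩⟩
            rw [hcon z hz] at h10
            exact notMem_empty _ h10
          · refine hD2.2 z hz w (mem_sdiff.2 ⟨(mem_sdiff.1 hw').1, fun g3 => ?_⟩) hzw
            rcases mem_union.1 g3 with g4 | g4
            · exact hwL g4
            · exact (mem_sdiff.1 hw').2 g4
      have h10 := h8.2 D h9 hD3.1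
      have h11 : a ∈ Q \ {x.2, y.2} := by
        refine mem_sdiff.2 ⟨hLQ haL, fun g3 => ?_⟩
        rw [mem_insert, mem_singleton] at g3
        rcases g3 with g4 | g4
        · exact hxL (g4 ▸ haL)
        · exact hyL (g4 ▸ haL)
      rw [← h10] at h11
      exact (mem_sdiff.1 (hD1 h11)).2 (mem_union_left _ haL)
    obtain ⟨huQ, hum⟩ := mem_sdiff.1 (hD1 huD)
    rw [mem_union, mem_insert, mem_singleton, not_or, not_or] at hum
    rcases hcontact u huQ hum.1 huE with h8 | h8 | h8 | h8 | h8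
    · exact hum.2.1 h8
    · exact hum.2.2 h8
    · -- host `w`, single `v`
      refine fin w hwA v hvA hvw.symm hxw hxv (fun u' g1 g2 g3 => ?_)
        (fun Z hZ t ht htx htZ => Or.inl (hDZ Z hZ t ht htx htZ (h8 ▸ huD)))
      rcases hcontact u' g1 g2 g3 with g4 | g4 | g4 | g4 | g4
      · exact Or.inl g4
      · exact Or.inr (Or.inl g4)
      · exact Or.inr (Or.inr (Or.inr (Or.inl g4)))
      · exact Or.inr (Or.inr (Or.inl g4))
      · exact Or.inr (Or.inr (Or.inr (Or.inr g4)))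
    · exact fin v hvA w hwA hvw hxv hxw hcontact
        (fun Z hZ t ht htx htZ => Or.inl (hDZ Z hZ t ht htx htZ (h8 ▸ huD)))
    · exact fin v hvA w hwA hvw hxv hxw hcontact
        (fun Z hZ t ht htx htZ => Or.inr ⟨u, mem_inter.2 ⟨h8, hDZ Z hZ t ht htx htZ huD⟩⟩)
  · -- a point with two hits
    push Not at hinj
    obtain ⟨p1, hp1, p2, hp2, hne12, heq⟩ := hinj
    have hO'3 := s0 p1 hp1
    set O' := O.filter (fun r => r.2 ≠ p1.2) with hO'
    have hO'c : O'.card ≤ 2 := by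
      have h1 : O' ⊆ (O.erase p1).erase p2 := by
        intro z hz
        obtain ⟨h2, h3⟩ := mem_filter.1 hz
        exact mem_erase.2 ⟨fun h5 => h3 (by rw [h5, heq]),
          mem_erase.2 ⟨fun h5 => h3 (by rw [h5]), h2⟩⟩
      have h2 := card_le_card h1
      have h3 := card_erase_add_one hp1
      have h4 := card_erase_add_one (mem_erase.2 ⟨hne12.symm, hp2⟩)
      omega
    have hO'1 : 1 ≤ O'.card := by
      have h1 : H.filter (fun r => r.2 ≠ p1.2) ⊆ O' ∪ HS := by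
        intro z hz
        obtain ⟨h2, h3⟩ := mem_filter.1 hz
        by_cases h4 : z ∈ HS
        · exact mem_union_right _ h4
        · exact mem_union_left _ (mem_filter.2 ⟨mem_sdiff.2 ⟨h2, h4⟩, h3⟩)
      have h2 := (card_le_card h1).trans (card_union_le _ _)
      omega
    have hfin : ∀ p ∈ O, p.2 = p1.2 → ∀ r ∈ O', rho B (L ∪ {p.2, r.2}) ≤ 2 → False := by
      intro p hp hpp r hr hab
      obtain ⟨hrO, hr1⟩ := mem_filter.1 hr
      have h1 : p.2 ≠ r.2 := by
        rw [hpp]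
        exact hr1.symm
      refine two p hp r hrO h1 hab ?_
      have h2 : (H.filter (fun z => z.2 ≠ p.2 ∧ z.2 ≠ r.2)).image Prod.fst ⊆
          insert s ((O'.erase r).image Prod.fst) := by
        intro i hi
        obtain ⟨z, hz, rfl⟩ := mem_image.1 hi
        obtain ⟨h3, h4, h5⟩ := mem_filter.1 hz
        by_cases h6 : z ∈ HS
        · rw [(mem_filter.1 h6).2]
          exact mem_insert_self _ _
        · refine mem_insert_of_mem (mem_image_of_mem _ (mem_erase.2 ⟨fun h7 => h5 (by rw [h7]),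
            mem_filter.2 ⟨mem_sdiff.2 ⟨h3, h6⟩, by rw [← hpp]; exact h4⟩⟩))
      have h3 := card_le_card h2
      have h4 := card_insert_le s ((O'.erase r).image Prod.fst)
      have h5 : ((O'.erase r).image Prod.fst).card ≤ (O'.erase r).card := card_image_le
      have h6 := card_erase_add_one hr
      omega
    obtain ⟨r, hr⟩ := card_pos.1 (by omega : 0 < O'.card)
    obtain ⟨hrO, hr1⟩ := mem_filter.1 hr
    -- all hits are of the class of `r`
    have hcl : ∀ z ∈ O, z.2 = p1.2 ∨ z ∈ O' := by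
      intro z hz
      by_cases h1 : z.2 = p1.2
      · exact Or.inl h1
      · exact Or.inr (mem_filter.2 ⟨hz, h1⟩)
    rcases hO3 r hrO with h1 | h1 | h1
    · -- class A
      have g1 : ∀ z ∈ O, z.2 = p1.2 → z ∈ HA := by
        intro z hz hz1
        by_contra h2
        exact hfin z hz hz1 r hr (by
          rw [hpc]
          exact f1 r h1 z (hOH hz) h2)
      have g2 : ∀ z ∈ O', z ∈ HA := by
        intro z hz
        by_contra h2
        exact hfin p1 hp1 rfl z hz (f1 p1 (g1 p1 hp1 rfl) z (hOH (mem_filter.1 hz).1) h2)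
      have h2 : O ⊆ HA := fun z hz => (hcl z hz).elim (g1 z hz) (g2 z)
      have := card_le_card h2
      omega
    · -- class B
      have g1 : ∀ z ∈ O, z.2 = p1.2 → z ∈ HB := by
        intro z hz hz1
        rcases hO3 z hz with h2 | h2 | h2
        · exact absurd (f1 z h2 r (hOH hrO) (dAB r h1)) (fun h3 => hfin z hz hz1 r hr h3)
        · exact h2
        · exact absurd (f2 r h1 z h2) (fun h3 => hfin z hz hz1 r hr (by rw [hpc]; exact h3))
      have g2 : ∀ z ∈ O', z ∈ HB := by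
        intro z hz
        have hzO := (mem_filter.1 hz).1
        have hpB := g1 p1 hp1 rfl
        rcases hO3 z hzO with h2 | h2 | h2
        · exact absurd (f1 z h2 p1 (hOH hp1) (dAB p1 hpB))
            (fun h3 => hfin p1 hp1 rfl z hz (by rw [hpc]; exact h3))
        · exact h2
        · exact absurd (f2 p1 hpB z h2) (fun h3 => hfin p1 hp1 rfl z hz h3)
      have h2 : O ⊆ HB := fun z hz => (hcl z hz).elim (g1 z hz) (g2 z)
      have := card_le_card h2
      omega
    · -- class C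
      have g1 : ∀ z ∈ O, z.2 = p1.2 → z ∈ HC := by
        intro z hz hz1
        rcases hO3 z hz with h2 | h2 | h2
        · exact absurd (f1 z h2 r (hOH hrO) (dAC r h1)) (fun h3 => hfin z hz hz1 r hr h3)
        · exact absurd (f2 z h2 r h1) (fun h3 => hfin z hz hz1 r hr h3)
        · exact h2
      have g2 : ∀ z ∈ O', z ∈ HC := by
        intro z hz
        have hzO := (mem_filter.1 hz).1
        have hpB := g1 p1 hp1 rfl
        rcases hO3 z hzO with h2 | h2 | h2
        · exact absurd (f1 z h2 p1 (hOH hp1) (dAC p1 hpB))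
            (fun h3 => hfin p1 hp1 rfl z hz (by rw [hpc]; exact h3))
        · exact absurd (f2 z h2 p1 hpB)
            (fun h3 => hfin p1 hp1 rfl z hz (by rw [hpc]; exact h3))
        · exact h2
      have h2 : O ⊆ HC := fun z hz => (hcl z hz).elim (g1 z hz) (g2 z)
      have := card_le_card h2
      omega

/-- **seven hits, frame version**: a set of type (3;1) whose contact points lie in the disjoint full blocks
`T` off `L` (own triples or twins with single traces), with two contact points whose hits are all single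
traces, has at least seven hits. -/
theorem ViolR.seven_T {Q L : Finset V} (hv : ViolR B Q) (hLQ : L ⊆ Q) (hL3 : L.card = 3)
    (hcm : cm B L = 8) (hrho : rho B L = 2) (hcr : Crit B L) {T : Finset ι}
    (hT : ∀ j ∈ T, (B j ∩ Q).card = 3) (hTL : ∀ j ∈ T, Disjoint (B j ∩ Q) L)
    (hTd : ∀ j ∈ T, ∀ k ∈ T, j ≠ k → Disjoint (B j ∩ Q) (B k ∩ Q))
    (hc : ∀ v ∈ Q, v ∉ L → (Ez B L v).Nonempty → ∃ j ∈ T, v ∈ B j)
    (htw : ∀ j ∈ T, ∀ b ∈ B j ∩ Q, ∀ c ∈ B j ∩ Q, b ≠ c → (Ez B L b).Nonempty →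
      (Ez B L c).Nonempty → (∀ a ∈ B j ∩ Q, a ≠ b → a ≠ c → Ez B L a = ∅) ∧
        (∀ i ∈ Ez B L b, (B i ∩ L).card = 1) ∧ (∀ i ∈ Ez B L c, (B i ∩ L).card = 1))
    {s1 s2 : V} (hne : s1 ≠ s2) (hs1Q : s1 ∈ Q) (hs2Q : s2 ∈ Q) (hs1L : s1 ∉ L) (hs2L : s2 ∉ L)
    (hs1E : (Ez B L s1).Nonempty) (hs2E : (Ez B L s2).Nonempty)
    (hs1 : ∀ i ∈ Ez B L s1, (B i ∩ L).card = 1) (hs2 : ∀ i ∈ Ez B L s2, (B i ∩ L).card = 1) :
    7 ≤ hit B (Q \ L) L := by
  classical
  have h6 := hv.six_T hLQ hL3 hcm hrho hcr hT hTL hTd hc htw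
  obtain ⟨a, b, c, s, h⟩ := exists_t31 (hv.reg.mono hLQ) (hv.tr.mono hLQ) hL3 hcm hrho
  have mL : ∀ v, v ∈ L ↔ v = a ∨ v = b ∨ v = c := by
    intro v
    rw [h.eq, mem_insert, mem_insert, mem_singleton]
  have haL : a ∈ L := (mL a).2 (Or.inl rfl)
  have has : a ∈ B s := by
    have h4 : a ∈ B s ∩ L := by
      rw [h.tr]
      exact mem_singleton_self a
    exact (mem_inter.1 h4).1
  have inS : ∀ v, (Ez B L v).Nonempty → (∀ i ∈ Ez B L v, (B i ∩ L).card = 1) → v ∈ B s := by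
    rintro v ⟨i, hi⟩ hv1
    rw [← h.sing (hv1 i hi)]
    exact (mem_Ez.1 hi).1
  have hs1s := inS s1 hs1E hs1
  have hs2s := inS s2 hs2E hs2
  -- the block `s` has no other point off `L`
  have hS : ∀ v ∈ Q, v ∉ L → v ∈ B s → v = s1 ∨ v = s2 := by
    intro v hvQ hvL hvs
    by_contra hcon
    rw [not_or] at hcon
    have h1 : ({a, v, s1, s2} : Finset V) ⊆ B s ∩ Q := by
      intro z hz
      simp only [mem_insert, mem_singleton] at hz
      rcases hz with rfl | rfl | rfl | rfl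
      · exact mem_inter.2 ⟨has, hLQ haL⟩
      · exact mem_inter.2 ⟨hvs, hvQ⟩
      · exact mem_inter.2 ⟨hs1s, hs1Q⟩
      · exact mem_inter.2 ⟨hs2s, hs2Q⟩
    have h2 := card_le_card h1
    have h3 := hv.tr s
    have h4 : ({a, v, s1, s2} : Finset V).card = 4 := by
      rw [card_insert_of_notMem, card_insert_of_notMem, card_pair hne]
      · rw [mem_insert, mem_singleton, not_or]
        exact hcon
      · rw [mem_insert, mem_insert, mem_singleton]
        rintro (h5 | h5 | h5)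
        · exact hvL (h5 ▸ haL)
        · exact hs1L (h5 ▸ haL)
        · exact hs2L (h5 ▸ haL)
    omega
  have : Nonempty ι := ⟨s⟩
  choose! τ hτ using hc
  have own : ∀ v ∈ Q, v ∉ L → (Ez B L v).Nonempty → v ≠ s1 → v ≠ s2 →
      ∀ y ∈ B (τ v) ∩ Q, y ≠ v → Ez B L y = ∅ := by
    intro v hvQ hvL hvE n1 n2 y hy hyv
    obtain ⟨h1, h2⟩ := hτ v hvQ hvL hvE
    by_contra hcon
    have hyE : (Ez B L y).Nonempty := nonempty_iff_ne_empty.2 hcon
    obtain ⟨_, h3, _⟩ := htw _ h1 v (mem_inter.2 ⟨h2, hvQ⟩) y hy hyv.symm hvE hyE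
    rcases hS v hvQ hvL (inS v hvE h3) with h4 | h4
    · exact n1 h4
    · exact n2 h4
  have h7 := hv.seven hLQ hL3 hcm hrho hcr hne hs1Q hs2Q hs1L hs2L hs1E hs2E hs1 hs2 (τ := τ)
    (fun v hvQ hvL hvE n1 n2 => ⟨hT _ (hτ v hvQ hvL hvE).1, (hτ v hvQ hvL hvE).2,
      own v hvQ hvL hvE n1 n2⟩)
    (fun v hvQ hvL hvE n1 n2 w hwQ hwL hwE m1 m2 hvw => by
      obtain ⟨h1, h2⟩ := hτ v hvQ hvL hvE
      obtain ⟨h3, h4⟩ := hτ w hwQ hwL hwE
      refine hTd _ h1 _ h3 fun h5 => ?_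
      have h8 := own v hvQ hvL hvE n1 n2 w (mem_inter.2 ⟨by rw [h5]; exact h4, hwQ⟩) hvw.symm
      rw [h8] at hwE
      exact not_nonempty_empty hwE)
  omega

end Pool.Agent.Hyp6
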