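import Pool.Agent.Hyp6.L3Rs2

/-!
# HYP6 L3T3: the numbers of a set of type (3;1) without line triples

The contact points lie in own full blocks (or are twins with single traces). The class of three blocks
(A) is hit by three different points with one such hit each; the placements with six hits are
restricted (`Q0.numbers`).
-/

set_option autoImplicit false

namespace Pool.Agent.Hyp6

open Finset Pool.Agent.Hyp5

universe u v

variable {V : Type v} [DecidableEq V] {ι : Type u} [Fintype ι] {B : ι → Finset V}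

/-- the other order of the two points. -/
theorem T31.symm {L : Finset V} {a b c : V} {s : ι} (h : T31 B L a b c s) :
    T31 B L a c b s where
  eq := by
    rw [h.eq]
    ext v
    simp only [mem_insert, mem_singleton]
    tauto
  ab := h.ac
  ac := h.ab
  bc := h.bc.symm
  cA := by
    rw [← h.cA]
    congr 1
    ext i
    rw [mem_bl, mem_bl, and_comm]
  cB := h.cC
  cC := h.cB
  tr := h.tr
  cov := fun i hi => by
    rcases h.cov i hi with h1 | h1 | h1 | h1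
    · left
      rw [mem_bl] at h1 ⊢
      exact h1.symm
    · exact Or.inr (Or.inr (Or.inl h1))
    · exact Or.inr (Or.inl h1)
    · exact Or.inr (Or.inr (Or.inr h1))
  two := h.two

/-- a set of type (3;1) whose contact points lie in own full blocks or are twins with single traces. -/
structure Q0 (B : ι → Finset V) (Q L : Finset V) (T : Finset ι) (a b c : V) (s : ι) : Prop where
  hv : ViolR B Q
  LQ : L ⊆ Q
  L3 : L.card = 3
  cm8 : cm B L = 8
  rho2 : rho B L = 2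
  crit : Crit B L
  t : T31 B L a b c s
  T3 : ∀ j ∈ T, (B j ∩ Q).card = 3
  TL : ∀ j ∈ T, Disjoint (B j ∩ Q) L
  Td : ∀ j ∈ T, ∀ k ∈ T, j ≠ k → Disjoint (B j ∩ Q) (B k ∩ Q)
  cov : ∀ v ∈ Q, v ∉ L → (Ez B L v).Nonempty → ∃ j ∈ T, v ∈ B j
  tw : ∀ j ∈ T, ∀ b ∈ B j ∩ Q, ∀ c ∈ B j ∩ Q, b ≠ c → (Ez B L b).Nonempty →
    (Ez B L c).Nonempty → (∀ a ∈ B j ∩ Q, a ≠ b → a ≠ c → Ez B L a = ∅) ∧
      (∀ i ∈ Ez B L b, (B i ∩ L).card = 1) ∧ (∀ i ∈ Ez B L c, (B i ∩ L).card = 1)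

namespace Q0

variable {Q L : Finset V} {T : Finset ι} {a b c : V} {s : ι}

theorem symm (h : Q0 B Q L T a b c s) : Q0 B Q L T a c b s :=
  { h with t := h.t.symm }

theorem mL (h : Q0 B Q L T a b c s) {v : V} : v ∈ L ↔ v = a ∨ v = b ∨ v = c := by
  rw [h.t.eq, mem_insert, mem_insert, mem_singleton]

theorem aL (h : Q0 B Q L T a b c s) : a ∈ L := h.mL.2 (Or.inl rfl)

theorem bL (h : Q0 B Q L T a b c s) : b ∈ L := h.mL.2 (Or.inr (Or.inl rfl))

theorem cL (h : Q0 B Q L T a b c s) : c ∈ L := h.mL.2 (Or.inr (Or.inr rfl))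

theorem ne (h : Q0 B Q L T a b c s) : L.Nonempty := ⟨a, h.aL⟩

theorem nums (h : Q0 B Q L T a b c s) : ee B Q L = 0 ∧ dv B Q L = -1 ∧ sv B L = -1 :=
  h.t.dv_eq h.LQ h.L3 h.cm8 h.rho2

/-- no block contains all three points. -/
theorem no3 (h : Q0 B Q L T a b c s) {i : ι} (h1 : a ∈ B i) (h2 : b ∈ B i) (h3 : c ∈ B i) :
    False := by
  have h4 : L ⊆ B i := fun z hz => by
    rcases h.mL.1 hz with rfl | rfl | rfl <;> assumption
  have := rho_le_one h4
  have := h.rho2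
  omega

theorem as (h : Q0 B Q L T a b c s) : a ∈ B s := by
  have h4 : a ∈ B s ∩ L := by
    rw [h.t.tr]
    exact mem_singleton_self a
  exact (mem_inter.1 h4).1

theorem bs (h : Q0 B Q L T a b c s) : b ∉ B s := by
  intro h1
  have h4 : b ∈ B s ∩ L := mem_inter.2 ⟨h1, h.bL⟩
  rw [h.t.tr, mem_singleton] at h4
  exact h.t.ab h4.symm

theorem cs (h : Q0 B Q L T a b c s) : c ∉ B s := h.symm.bs

/-- the traces of the class A. -/
theorem trA (h : Q0 B Q L T a b c s) {i : ι} (hi : i ∈ bl B b c) : B i ∩ L = {b, c} := by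
  obtain ⟨h1, h2⟩ := mem_bl.1 hi
  ext z
  rw [mem_inter, mem_insert, mem_singleton]
  constructor
  · rintro ⟨h3, h4⟩
    rcases h.mL.1 h4 with rfl | h5 | h5
    · exact absurd h2 (fun h5 => h.no3 h3 h1 h5)
    · exact Or.inl h5
    · exact Or.inr h5
  · rintro (rfl | rfl)
    · exact ⟨h1, h.bL⟩
    · exact ⟨h2, h.cL⟩

/-- the traces of the class B. -/
theorem trB (h : Q0 B Q L T a b c s) {i : ι} (hi : i ∈ bl B a b) : B i ∩ L = {a, b} := by
  obtain ⟨h1, h2⟩ := mem_bl.1 hi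
  ext z
  rw [mem_inter, mem_insert, mem_singleton]
  constructor
  · rintro ⟨h3, h4⟩
    rcases h.mL.1 h4 with h5 | h5 | rfl
    · exact Or.inl h5
    · exact Or.inr h5
    · exact absurd h3 (fun h5 => h.no3 h1 h2 h5)
  · rintro (rfl | rfl)
    · exact ⟨h1, h.aL⟩
    · exact ⟨h2, h.bL⟩

theorem card_pairs (h : Q0 B Q L T a b c s) {i : ι}
    (hi : i ∈ bl B b c ∨ i ∈ bl B a b ∨ i ∈ bl B a c) : (B i ∩ L).card = 2 := by
  rcases hi with hi | hi | hi
  · rw [h.trA hi, card_pair h.t.bc]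
  · rw [h.trB hi, card_pair h.t.ab]
  · rw [h.symm.trB hi, card_pair h.t.ac]

/-- **full hits are own**: the other points of the triple see nothing. -/
theorem own (h : Q0 B Q L T a b c s) {v : V} {i j : ι} (hvQ : v ∈ Q) (hi : i ∈ Ez B L v)
    (h2 : (B i ∩ L).card = 2) (hj : j ∈ T) (hvj : v ∈ B j) :
    ∀ y ∈ B j ∩ Q, y ≠ v → Ez B L y = ∅ := by
  intro y hy hyv
  by_contra hcon
  obtain ⟨_, h3, _⟩ := h.tw j hj v (mem_inter.2 ⟨hvj, hvQ⟩) y hy hyv.symm ⟨i, hi⟩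
    (nonempty_iff_ne_empty.2 hcon)
  have := h3 i hi
  omega

/-- the triples of two contact points, one of them with a full hit. -/
theorem dis (h : Q0 B Q L T a b c s) {v w : V} {i j k : ι} (hvQ : v ∈ Q) (hi : i ∈ Ez B L v)
    (h2 : (B i ∩ L).card = 2) (hj : j ∈ T) (hvj : v ∈ B j) (hwQ : w ∈ Q)
    (hw : (Ez B L w).Nonempty) (hk : k ∈ T) (hwk : w ∈ B k) (hvw : v ≠ w) :
    Disjoint (B j ∩ Q) (B k ∩ Q) := by
  refine h.Td j hj k hk ?_
  rintro rfl
  rw [h.own hvQ hi h2 hj hvj w (mem_inter.2 ⟨hwk, hwQ⟩) hvw.symm] at hw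
  exact not_nonempty_empty hw

/-- a class has at most one contact point in every block. -/
theorem one_contact (h : Q0 B Q L T a b c s) {i : ι}
    (hi : i ∈ bl B b c ∨ i ∈ bl B a b ∨ i ∈ bl B a c) {v w : V} (hvi : v ∈ B i) (hwi : w ∈ B i)
    (hvQ : v ∈ Q) (hwQ : w ∈ Q) (hvL : v ∉ L) (hwL : w ∉ L) : v = w := by
  by_contra hne
  have h1 := h.card_pairs hi
  have h2 := h.hv.tr i
  have h3 : (B i ∩ L) ∪ {v, w} ⊆ B i ∩ Q := by
    refine union_subset (inter_subset_inter_left h.LQ) fun z hz => ?_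
    rw [mem_insert, mem_singleton] at hz
    rcases hz with rfl | rfl
    · exact mem_inter.2 ⟨hvi, hvQ⟩
    · exact mem_inter.2 ⟨hwi, hwQ⟩
  have h4 := card_le_card h3
  rw [card_union_of_disjoint (by
    rw [disjoint_right]
    intro z hz hz2
    rw [mem_insert, mem_singleton] at hz
    rcases hz with rfl | rfl
    · exact hvL (mem_inter.1 hz2).2
    · exact hwL (mem_inter.1 hz2).2), card_pair hne] at h4
  omega

open Classical in
/-- **class A**: at least two hits by other points. -/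
theorem classA (h : Q0 B Q L T a b c s) {v : V} {i : ι} (hvQ : v ∈ Q) (hvL : v ∉ L)
    (hi : i ∈ bl B b c) (hvi : v ∈ B i) :
    2 ≤ ((hs B Q L).filter (fun p => p.1 ∈ bl B b c ∧ p.2 ≠ v)).card := by
  classical
  by_contra hcon
  set A' := (hs B Q L).filter (fun p => p.1 ∈ bl B b c ∧ p.2 ≠ v) with hA'
  obtain ⟨hib, hic⟩ := mem_bl.1 hi
  -- the block of the other contact point
  obtain ⟨k, hk, hkA⟩ : ∃ k ∈ bl B b c, ∀ p ∈ A', p.1 = k := by
    rcases A'.eq_empty_or_nonempty with h1 | ⟨p, hp⟩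
    · exact ⟨i, hi, fun p hp => by rw [h1] at hp; exact absurd hp (notMem_empty _)⟩
    · refine ⟨p.1, (mem_filter.1 hp).2.1, fun r hr => ?_⟩
      have h2 := (card_le_one (s := A')).1 (by omega) r hr p hp
      rw [h2]
  obtain ⟨hkb, hkc⟩ := mem_bl.1 hk
  obtain ⟨i0, i1, h01, hBe⟩ := card_eq_two.1 h.t.cB
  have g0 : i0 ∈ bl B a b := by rw [hBe]; exact mem_insert_self _ _
  have g1 : i1 ∈ bl B a b := by rw [hBe]; exact mem_insert_of_mem (mem_singleton_self _)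
  obtain ⟨g0a, g0b⟩ := mem_bl.1 g0
  obtain ⟨g1a, g1b⟩ := mem_bl.1 g1
  have hiE : i ∈ Ez B L v := mem_Ez.2 ⟨hvi, b, mem_inter.2 ⟨hib, h.bL⟩⟩
  have hi2 := h.card_pairs (Or.inl hi)
  obtain ⟨t, htT, hvt⟩ := h.cov v hvQ hvL ⟨i, hiE⟩
  have hown := h.own hvQ hiE hi2 htT hvt
  have htL : ∀ z ∈ L, z ∉ B t := fun z hz hzt =>
    disjoint_left.1 (h.TL t htT) (mem_inter.2 ⟨hzt, h.LQ hz⟩) hz
  have hvb : b ≠ v := fun h1 => hvL (h1 ▸ h.bL)
  have hvc : c ≠ v := fun h1 => hvL (h1 ▸ h.cL)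
  have hva : a ≠ v := fun h1 => hvL (h1 ▸ h.aL)
  refine h.hv.r1 (x := b) (p := c) (v := v) (m := a) (i := i) (k := k) (i0 := i0) (i1 := i1)
    (t := t) (h.LQ h.bL) (h.LQ h.cL) hvQ (h.LQ h.aL) h.t.bc hvb hvc h.t.ab h.t.ac hva ?_
    hib hic hvi hkb hkc g0b g1b g0a g1a h01 ?_ ?_ (fun j hj => ?_) (h.T3 t htT) hvt
    (htL b h.bL) (htL c h.cL) (fun z hz hzv hzk => ?_)
  · have h1 := ee_mono (B := B) (Q := Q) (singleton_subset_iff.2 h.bL : {b} ⊆ L)
    have h2 := h.nums.1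
    omega
  · rintro rfl
    exact h.no3 g0a hkb hkc
  · rintro rfl
    exact h.no3 g1a hkb hkc
  · have hjL : (B j ∩ L).Nonempty := ⟨b, mem_inter.2 ⟨hj, h.bL⟩⟩
    rcases h.t.cov j hjL with h1 | h1 | h1 | h1
    · by_cases hjk : j = k
      · exact Or.inr (Or.inr (Or.inl hjk))
      · refine Or.inr (Or.inr (Or.inr fun z hz => ?_))
        obtain ⟨hzj, hzQ⟩ := mem_inter.1 hz
        rw [mem_insert, mem_insert, mem_singleton]
        by_cases hzL : z ∈ L
        · have h2 : z ∈ B j ∩ L := mem_inter.2 ⟨hzj, hzL⟩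
          rw [h.trA h1, mem_insert, mem_singleton] at h2
          rcases h2 with h2 | h2
          · exact Or.inl h2
          · exact Or.inr (Or.inl h2)
        · by_contra h3
          have h4 : z ≠ v := fun h5 => h3 (Or.inr (Or.inr h5))
          have h5 : ((j, z) : ι × V) ∈ A' :=
            mem_filter.2 ⟨mem_hs.2 ⟨hzQ, hzL, hzj, hjL⟩, h1, h4⟩
          exact hjk (hkA _ h5)
    · rw [hBe, mem_insert, mem_singleton] at h1
      rcases h1 with h1 | h1
      · exact Or.inl h1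
      · exact Or.inr (Or.inl h1)
    · exact absurd (mem_bl.1 h1).2 (fun h2 => h.no3 (mem_bl.1 h1).1 hj h2)
    · rw [h1] at hj
      exact absurd hj h.bs
  · have h1 := hown z hz hzv
    have h2 : k ∈ Ez B L z := mem_Ez.2 ⟨hzk, b, mem_inter.2 ⟨hkb, h.bL⟩⟩
    rw [h1] at h2
    exact notMem_empty _ h2

open Classical in
/-- **class A has no hit or three hits by different points**. -/
theorem classA3 (h : Q0 B Q L T a b c s) :
    (hs B Q L).filter (fun p => p.1 ∈ bl B b c) = ∅ ∨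
      (((hs B Q L).filter (fun p => p.1 ∈ bl B b c)).card = 3 ∧
        ∀ p ∈ (hs B Q L).filter (fun p => p.1 ∈ bl B b c),
          ∀ r ∈ (hs B Q L).filter (fun p => p.1 ∈ bl B b c), p.2 = r.2 → p = r) := by
  classical
  set A := (hs B Q L).filter (fun p => p.1 ∈ bl B b c) with hA
  have hb : A.card ≤ 3 := (h.t.bounds h.hv.tr h.LQ).1
  have key : ∀ p ∈ A, 2 ≤ (A.filter (fun r => r.2 ≠ p.2)).card := by
    intro p hp
    obtain ⟨h1, h2⟩ := mem_filter.1 hp
    obtain ⟨h3, h4, h5, _⟩ := mem_hs.1 h1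
    have h6 := h.classA h3 h4 h2 h5
    rwa [hA, filter_filter]
  rcases A.eq_empty_or_nonempty with h1 | ⟨p, hp⟩
  · exact Or.inl h1
  right
  have h2 : ∀ p ∈ A, (A.filter (fun r => r.2 ≠ p.2)).card + 1 ≤ A.card := by
    intro p hp
    have h3 : A.filter (fun r => r.2 ≠ p.2) ⊆ A.erase p := fun r hr =>
      mem_erase.2 ⟨fun h4 => (mem_filter.1 hr).2 (by rw [h4]), (mem_filter.1 hr).1⟩
    have h4 := card_le_card h3
    have h5 := card_erase_add_one hp
    omega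
  refine ⟨by have h3 := h2 p hp; have h4 := key p hp; omega, fun p hp r hr hpr => ?_⟩
  by_contra hne
  have h3 : A.filter (fun z => z.2 ≠ p.2) ⊆ (A.erase p).erase r := fun z hz =>
    mem_erase.2 ⟨fun h4 => (mem_filter.1 hz).2 (by rw [h4, hpr]),
      mem_erase.2 ⟨fun h4 => (mem_filter.1 hz).2 (by rw [h4]), (mem_filter.1 hz).1⟩⟩
  have h4 := card_le_card h3
  have h5 := card_erase_add_one hp
  have h6 := card_erase_add_one (mem_erase.2 ⟨fun h7 => hne h7.symm, hr⟩ : r ∈ A.erase p)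
  have h7 := key p hp
  omega

/-- two blocks cover `L` and the two points. -/
theorem rhoAB (h : Q0 B Q L T a b c s) {v w : V} {i k : ι} (hi : i ∈ bl B b c) (hv : v ∈ B i)
    (hk : a ∈ B k) (hw : w ∈ B k) : rho B (L ∪ {v, w}) ≤ 2 := by
  obtain ⟨h1, h2⟩ := mem_bl.1 hi
  refine rho_two (i := i) (i' := k) (fun z hz => ?_) (mem_union_left _ hv) (mem_union_right _ hw)
  rcases h.mL.1 hz with rfl | rfl | rfl
  · exact mem_union_right _ hk
  · exact mem_union_left _ h1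
  · exact mem_union_left _ h2

theorem rhoBC (h : Q0 B Q L T a b c s) {v w : V} {i k : ι} (hi : i ∈ bl B a b) (hv : v ∈ B i)
    (hk : k ∈ bl B a c) (hw : w ∈ B k) : rho B (L ∪ {v, w}) ≤ 2 := by
  obtain ⟨h1, h2⟩ := mem_bl.1 hi
  obtain ⟨h3, h4⟩ := mem_bl.1 hk
  refine rho_two (i := i) (i' := k) (fun z hz => ?_) (mem_union_left _ hv) (mem_union_right _ hw)
  rcases h.mL.1 hz with rfl | rfl | rfl
  · exact mem_union_left _ h1
  · exact mem_union_left _ h2
  · exact mem_union_right _ h4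

/-- two absorbed points close all but two blocks: impossible. -/
theorem lb (h : Q0 B Q L T a b c s) {x y : V} {i j : ι} (hxQ : x ∈ Q) (hyQ : y ∈ Q)
    (hxL : x ∉ L) (hyL : y ∉ L) (hxy : x ≠ y) (hi : i ∈ Ez B L x) (hj : j ∈ Ez B L y)
    (hab : rho B (L ∪ {x, y}) ≤ 2) {S : Finset ι}
    (hS : ∀ z ∈ hs B Q L, z.2 ≠ x → z.2 ≠ y → z.1 ∈ S) (hSc : S.card ≤ 2) : False := by
  classical
  obtain ⟨t1, ht1, hx1⟩ := h.cov x hxQ hxL ⟨i, hi⟩
  obtain ⟨t2, ht2, hy2⟩ := h.cov y hyQ hyL ⟨j, hj⟩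
  refine h.hv.lb2 h.LQ h.L3 h.cm8 h.nums.1 hxQ hyQ hxL hyL hxy ?_ hab (S := S)
    (fun k hk hk2 => ?_) hSc
  · unfold ee
    rw [card_eq_zero, filter_eq_empty_iff]
    intro t ht
    rw [mem_insert, mem_singleton] at ht
    rcases ht with rfl | rfl
    · have := h.hv.single_two (h.T3 t1 ht1) hx1 hxQ
      omega
    · have := h.hv.single_two (h.T3 t2 ht2) hy2 hyQ
      omega
  · obtain ⟨z, hz⟩ := hk2
    obtain ⟨hzk, hzR⟩ := mem_inter.1 hz
    obtain ⟨hzQ, hzW⟩ := mem_sdiff.1 hzR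
    rw [mem_union, mem_insert, mem_singleton, not_or, not_or] at hzW
    exact hS (k, z) (mem_hs.2 ⟨hzQ, hzW.1, hzk, hk⟩) hzW.2.1 hzW.2.2

/-- three hits by the other points. -/
theorem three (h : Q0 B Q L T a b c s) {v : V} {i : ι} (hvQ : v ∈ Q) (hvL : v ∉ L)
    (hi : i ∈ Ez B L v) (h2 : (B i ∩ L).card = 2) :
    3 ≤ ((hs B Q L).filter (fun p => p.2 ≠ v)).card := by
  classical
  obtain ⟨t, htT, hvt⟩ := h.cov v hvQ hvL ⟨i, hi⟩
  have hown := h.own hvQ hi h2 htT hvt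
  have hTL : L ⊆ Q \ (B t ∩ Q) := fun z hz => mem_sdiff.2 ⟨h.LQ hz, fun h3 =>
    disjoint_left.1 (h.TL t htT) h3 hz⟩
  by_contra hcon
  have h3 : hit B ((Q \ (B t ∩ Q)) \ L) L ≤ ((hs B Q L).filter (fun p => p.2 ≠ v)).card := by
    rw [hs_out]
    refine card_le_card fun r hr => ?_
    obtain ⟨h4, h5⟩ := mem_filter.1 hr
    refine mem_filter.2 ⟨h4, fun h6 => h5 ?_⟩
    rw [h6]
    exact mem_inter.2 ⟨hvt, hvQ⟩
  have h4 := h.hv.s0 (h.T3 t htT) hTL h.ne h.crit h.nums.2.2 hvt hvQ ⟨i, hi⟩ (nu := 2)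
    (by norm_num) (by norm_num) (fun y hy => by
      rw [hown y (mem_of_mem_erase hy) (ne_of_mem_erase hy), card_empty]
      norm_num) (by omega)
  rw [h.nums.2.1] at h4
  norm_num at h4

/-- a hit through a block of a pair. -/
theorem hitz (h : Q0 B Q L T a b c s) {z : ι × V} (hz : z ∈ hs B Q L) :
    z.1 ∈ Ez B L z.2 := by
  have _ := h.hv
  obtain ⟨_, _, h3, h4⟩ := mem_hs.1 hz
  exact mem_Ez.2 ⟨h3, h4⟩

end Q0

/-- the data of a placement with six hits and no hit of the class A. -/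
structure D6 (B : ι → Finset V) (Q L : Finset V) (a b c : V) (s : ι) (p p' r r' : ι × V)
    (s1 s2 : V) : Prop where
  A0 : ∀ i ∈ bl B b c, ∀ v ∈ Q, v ∉ L → v ∉ B i
  mp : p ∈ hs B Q L
  mp' : p' ∈ hs B Q L
  mr : r ∈ hs B Q L
  mr' : r' ∈ hs B Q L
  m1 : (s, s1) ∈ hs B Q L
  m2 : (s, s2) ∈ hs B Q L
  pB : p.1 ∈ bl B a b
  pB' : p'.1 ∈ bl B a b
  rC : r.1 ∈ bl B a c
  rC' : r'.1 ∈ bl B a c
  pp : p.1 ≠ p'.1
  rr : r.1 ≠ r'.1
  ss : s1 ≠ s2
  all : ∀ z ∈ hs B Q L, z = p ∨ z = p' ∨ z = r ∨ z = r' ∨ z = (s, s1) ∨ z = (s, s2)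

namespace D6

variable {Q L : Finset V} {T : Finset ι} {a b c : V} {s : ι} {p p' r r' : ι × V} {s1 s2 : V}

theorem swapP (d : D6 B Q L a b c s p p' r r' s1 s2) : D6 B Q L a b c s p' p r r' s1 s2 :=
  { d with
    mp := d.mp', mp' := d.mp, pB := d.pB', pB' := d.pB, pp := d.pp.symm,
    all := fun z hz => by have := d.all z hz; tauto }

theorem swapR (d : D6 B Q L a b c s p p' r r' s1 s2) : D6 B Q L a b c s p p' r' r s1 s2 :=
  { d with
    mr := d.mr', mr' := d.mr, rC := d.rC', rC' := d.rC, rr := d.rr.symm,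
    all := fun z hz => by have := d.all z hz; tauto }

theorem swapS (d : D6 B Q L a b c s p p' r r' s1 s2) : D6 B Q L a b c s p p' r r' s2 s1 :=
  { d with
    m1 := d.m2, m2 := d.m1, ss := d.ss.symm,
    all := fun z hz => by have := d.all z hz; tauto }

theorem symm (d : D6 B Q L a b c s p p' r r' s1 s2) : D6 B Q L a c b s r r' p p' s1 s2 where
  A0 := fun i hi => d.A0 i (by rw [mem_bl] at hi ⊢; exact hi.symm)
  mp := d.mr
  mp' := d.mr'
  mr := d.mp
  mr' := d.mp'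
  m1 := d.m1
  m2 := d.m2
  pB := d.rC
  pB' := d.rC'
  rC := d.pB
  rC' := d.pB'
  pp := d.rr
  rr := d.pp
  ss := d.ss
  all := fun z hz => by have := d.all z hz; tauto

/-- a point with a hit of both classes. -/
theorem mix (d : D6 B Q L a b c s p p' r r' s1 s2) (h : Q0 B Q L T a b c s)
    (hpr : p.2 = r.2) : False := by
  classical
  obtain ⟨xQ, xL, xp, _⟩ := mem_hs.1 d.mp
  obtain ⟨yQ, yL, yp, _⟩ := mem_hs.1 d.mp'
  obtain ⟨zQ, zL, zp, _⟩ := mem_hs.1 d.mr'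
  obtain ⟨_, _, xr, _⟩ := mem_hs.1 d.mr
  rw [← hpr] at xr
  by_cases h1 : p'.2 = p.2
  · by_cases h2 : r'.2 = p.2
    · have h3 := h.three xQ xL (h.hitz d.mp) (h.card_pairs (Or.inr (Or.inl d.pB)))
      have h4 : (hs B Q L).filter (fun z => z.2 ≠ p.2) ⊆ {(s, s1), (s, s2)} := by
        intro z hz
        obtain ⟨h5, h6⟩ := mem_filter.1 hz
        rw [mem_insert, mem_singleton]
        rcases d.all z h5 with h7 | h7 | h7 | h7 | h7 | h7
        · exact absurd (by rw [h7]) h6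
        · exact absurd (by rw [h7, h1]) h6
        · exact absurd (by rw [h7, hpr]) h6
        · exact absurd (by rw [h7, h2]) h6
        · exact Or.inl h7
        · exact Or.inr h7
      have h5 := (card_le_card h4).trans card_le_two
      omega
    · refine h.lb xQ zQ xL zL (fun h3 => h2 h3.symm) (h.hitz d.mp) (h.hitz d.mr')
        (h.rhoBC d.pB xp d.rC' zp) (S := {s}) (fun z hz h3 h4 => ?_) (by simp)
      rw [mem_singleton]
      rcases d.all z hz with h7 | h7 | h7 | h7 | h7 | h7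
      · exact absurd (by rw [h7]) h3
      · exact absurd (by rw [h7, h1]) h3
      · exact absurd (by rw [h7, hpr]) h3
      · exact absurd (by rw [h7]) h4
      · rw [h7]
      · rw [h7]
  · refine h.lb xQ yQ xL yL (fun h3 => h1 h3.symm) (h.hitz d.mp) (h.hitz d.mp')
      (by rw [pair_comm]; exact h.rhoBC d.pB' yp d.rC xr) (S := {r'.1, s})
      (fun z hz h3 h4 => ?_) card_le_two
    rw [mem_insert, mem_singleton]
    rcases d.all z hz with h7 | h7 | h7 | h7 | h7 | h7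
    · exact absurd (by rw [h7]) h3
    · exact absurd (by rw [h7]) h4
    · exact absurd (by rw [h7, hpr]) h3
    · exact Or.inl (by rw [h7])
    · exact Or.inr (by rw [h7])
    · exact Or.inr (by rw [h7])

/-- both hits of one class at the same point. -/
theorem dbl (d : D6 B Q L a b c s p p' r r' s1 s2) (h : Q0 B Q L T a b c s)
    (hpp : p.2 = p'.2) (hpr : p.2 ≠ r.2) : False := by
  classical
  obtain ⟨xQ, xL, xp, _⟩ := mem_hs.1 d.mp
  obtain ⟨zQ, zL, zp, _⟩ := mem_hs.1 d.mr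
  refine h.lb xQ zQ xL zL hpr (h.hitz d.mp) (h.hitz d.mr)
    (h.rhoBC d.pB xp d.rC zp) (S := {r'.1, s}) (fun z hz h3 h4 => ?_) card_le_two
  rw [mem_insert, mem_singleton]
  rcases d.all z hz with h7 | h7 | h7 | h7 | h7 | h7
  · exact absurd (by rw [h7]) h3
  · exact absurd (by rw [h7, hpp]) h3
  · exact absurd (by rw [h7]) h4
  · exact Or.inl (by rw [h7])
  · exact Or.inr (by rw [h7])
  · exact Or.inr (by rw [h7])

/-- the single block is used by points of both classes. -/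
theorem sbc (d : D6 B Q L a b c s p p' r r' s1 s2) (h : Q0 B Q L T a b c s)
    (h1 : s1 = p.2) (h2 : s2 = r.2) : False := by
  classical
  obtain ⟨xQ, xL, xp, _⟩ := mem_hs.1 d.mp
  obtain ⟨zQ, zL, zp, _⟩ := mem_hs.1 d.mr
  refine h.lb xQ zQ xL zL (fun h3 => d.ss (by rw [h1, h2, h3])) (h.hitz d.mp) (h.hitz d.mr)
    (h.rhoBC d.pB xp d.rC zp) (S := {p'.1, r'.1}) (fun z hz h3 h4 => ?_) card_le_two
  rw [mem_insert, mem_singleton]
  rcases d.all z hz with h7 | h7 | h7 | h7 | h7 | h7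
  · exact absurd (by rw [h7]) h3
  · exact Or.inl (by rw [h7])
  · exact absurd (by rw [h7]) h4
  · exact Or.inr (by rw [h7])
  · exact absurd (by rw [h7, h1]) h3
  · exact absurd (by rw [h7, h2]) h4

/-- every contact point is one of the points of the six hits. -/
theorem pts (d : D6 B Q L a b c s p p' r r' s1 s2) {v : V} (hvQ : v ∈ Q) (hvL : v ∉ L)
    (hE : (Ez B L v).Nonempty) :
    v = p.2 ∨ v = p'.2 ∨ v = r.2 ∨ v = r'.2 ∨ v = s1 ∨ v = s2 := by
  obtain ⟨i, hi⟩ := hE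
  obtain ⟨h1, h2⟩ := mem_Ez.1 hi
  rcases d.all (i, v) (mem_hs.2 ⟨hvQ, hvL, h1, h2⟩) with h | h | h | h | h | h
  · exact Or.inl (by rw [← h])
  · exact Or.inr (Or.inl (by rw [← h]))
  · exact Or.inr (Or.inr (Or.inl (by rw [← h])))
  · exact Or.inr (Or.inr (Or.inr (Or.inl (by rw [← h]))))
  · exact Or.inr (Or.inr (Or.inr (Or.inr (Or.inl (congrArg Prod.snd h)))))
  · exact Or.inr (Or.inr (Or.inr (Or.inr (Or.inr (congrArg Prod.snd h)))))

/-- one single hit at a point with a full hit, the other one at a new point. -/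
theorem sbn (d : D6 B Q L a b c s p p' r r' s1 s2) (h : Q0 B Q L T a b c s)
    (n1 : p.2 ≠ p'.2) (n2 : p.2 ≠ r.2) (n3 : p.2 ≠ r'.2) (n4 : p'.2 ≠ r.2) (n5 : p'.2 ≠ r'.2)
    (n6 : r.2 ≠ r'.2) (h1 : s1 = p.2) (m1 : s2 ≠ p.2) (m2 : s2 ≠ p'.2) (m3 : s2 ≠ r.2)
    (m4 : s2 ≠ r'.2) : False := by
  classical
  obtain ⟨xQ, xL, xp, _⟩ := mem_hs.1 d.mp
  obtain ⟨yQ, yL, yp, _⟩ := mem_hs.1 d.mp'
  obtain ⟨zQ, zL, zp, _⟩ := mem_hs.1 d.mr
  obtain ⟨wQ, wL, wp, _⟩ := mem_hs.1 d.mr'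
  obtain ⟨uQ, uL, up, uE⟩ := mem_hs.1 d.m2
  obtain ⟨t1, ht1, hx1⟩ := h.cov p.2 xQ xL ⟨p.1, h.hitz d.mp⟩
  obtain ⟨t2, ht2, hy2⟩ := h.cov r.2 zQ zL ⟨r.1, h.hitz d.mr⟩
  have cp := h.card_pairs (Or.inr (Or.inl d.pB))
  have cr := h.card_pairs (Or.inr (Or.inr d.rC))
  have one : ∀ {v : V} {i : ι}, v ∈ Q → v ∉ L → (i, v) ∈ hs B Q L →
      (∀ k, (k, v) ∈ hs B Q L → k = i) → (Ez B L v).card = 1 := by
    intro v i hvQ hvL hvi hk
    rw [card_eq_one]
    refine ⟨i, ?_⟩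
    ext k
    rw [mem_singleton]
    constructor
    · intro h5
      obtain ⟨h6, h7⟩ := mem_Ez.1 h5
      exact hk k (mem_hs.2 ⟨hvQ, hvL, h6, h7⟩)
    · rintro rfl
      exact h.hitz hvi
  refine h.hv.k3 h.LQ h.ne (by rw [h.nums.2.1]) (p := p.2) (q := r.2) (p' := p'.2) (q' := r'.2)
    (r := s2) (i := t1) (j := t2) (h.T3 t1 ht1) (h.T3 t2 ht2) (mem_inter.2 ⟨hx1, xQ⟩)
    (mem_inter.2 ⟨hy2, zQ⟩) (h.dis xQ (h.hitz d.mp) cp ht1 hx1 zQ ⟨r.1, h.hitz d.mr⟩ ht2 hy2 n2)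
    (h.own xQ (h.hitz d.mp) cp ht1 hx1) (h.own zQ (h.hitz d.mr) cr ht2 hy2) xL zL yQ wQ uQ yL wL
    uL (one (i := p'.1) yQ yL d.mp' fun k hk => ?_) (one (i := r'.1) wQ wL d.mr' fun k hk => ?_)
    (one (i := s) uQ uL d.m2 fun k hk => ?_) n1 n3 (Ne.symm m1) (Ne.symm n4) n6 (Ne.symm m3) n5
    (Ne.symm m2) (Ne.symm m4) (fun v hvQ hvL hE => ?_) ?_ ?_ ?_ ?_
  · rcases d.all _ hk with h7 | h7 | h7 | h7 | h7 | h7
    · exact absurd (congrArg Prod.snd h7) (Ne.symm n1)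
    · exact congrArg Prod.fst h7
    · exact absurd (congrArg Prod.snd h7) n4
    · exact absurd (congrArg Prod.snd h7) n5
    · exact absurd ((congrArg Prod.snd h7).trans h1) (Ne.symm n1)
    · exact absurd (congrArg Prod.snd h7) (Ne.symm m2)
  · rcases d.all _ hk with h7 | h7 | h7 | h7 | h7 | h7
    · exact absurd (congrArg Prod.snd h7) (Ne.symm n3)
    · exact absurd (congrArg Prod.snd h7) (Ne.symm n5)
    · exact absurd (congrArg Prod.snd h7) (Ne.symm n6)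
    · exact congrArg Prod.fst h7
    · exact absurd ((congrArg Prod.snd h7).trans h1) (Ne.symm n3)
    · exact absurd (congrArg Prod.snd h7) (Ne.symm m4)
  · rcases d.all _ hk with h7 | h7 | h7 | h7 | h7 | h7
    · exact absurd (congrArg Prod.snd h7) m1
    · exact absurd (congrArg Prod.snd h7) m2
    · exact absurd (congrArg Prod.snd h7) m3
    · exact absurd (congrArg Prod.snd h7) m4
    · exact congrArg Prod.fst h7
    · exact congrArg Prod.fst h7
  · rcases d.pts hvQ hvL hE with h7 | h7 | h7 | h7 | h7 | h7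
    · exact Or.inl h7
    · exact Or.inr (Or.inr (Or.inl h7))
    · exact Or.inr (Or.inl h7)
    · exact Or.inr (Or.inr (Or.inr (Or.inl h7)))
    · exact Or.inl (h7.trans h1)
    · exact Or.inr (Or.inr (Or.inr (Or.inr h7)))
  · rw [h.rho2]
    exact h.rhoBC d.pB xp d.rC zp
  · rw [h.rho2, pair_comm]
    exact h.rhoBC d.pB' yp d.rC zp
  · rw [h.rho2]
    exact h.rhoBC d.pB xp d.rC' wp
  · rw [h.rho2]
    exact h.rhoBC d.pB' yp d.rC' wp

/-- both single hits at the points of one class. -/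
theorem sbb (d : D6 B Q L a b c s p p' r r' s1 s2) (h : Q0 B Q L T a b c s)
    (n1 : p.2 ≠ p'.2) (n2 : p.2 ≠ r.2) (n3 : p.2 ≠ r'.2) (n4 : p'.2 ≠ r.2) (n5 : p'.2 ≠ r'.2)
    (h1 : s1 = p.2) (h2 : s2 = p'.2) : False := by
  classical
  subst h1 h2
  obtain ⟨xQ, xL, xp, _⟩ := mem_hs.1 d.mp
  obtain ⟨yQ, yL, yp, _⟩ := mem_hs.1 d.mp'
  obtain ⟨zQ, zL, zp, _⟩ := mem_hs.1 d.mr
  obtain ⟨wQ, wL, wp, _⟩ := mem_hs.1 d.mr'
  obtain ⟨_, _, xs, _⟩ := mem_hs.1 d.m1
  obtain ⟨_, _, ys, _⟩ := mem_hs.1 d.m2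
  obtain ⟨t, ht, hzt⟩ := h.cov r.2 zQ zL ⟨r.1, h.hitz d.mr⟩
  have cr := h.card_pairs (Or.inr (Or.inr d.rC))
  have hown := h.own zQ (h.hitz d.mr) cr ht hzt
  obtain ⟨ra, rc⟩ := mem_bl.1 d.rC
  obtain ⟨ra', rc'⟩ := mem_bl.1 d.rC'
  obtain ⟨pa, pb⟩ := mem_bl.1 d.pB
  obtain ⟨pa', pb'⟩ := mem_bl.1 d.pB'
  have htL : ∀ z ∈ L, z ∉ B t := fun z hz hzt =>
    disjoint_left.1 (h.TL t ht) (mem_inter.2 ⟨hzt, h.LQ hz⟩) hz
  have hA : ∀ j ∈ bl B b c, B j ∩ Q = {c, b} := by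
    intro j hj
    have h3 := h.trA hj
    ext z
    rw [mem_inter, mem_insert, mem_singleton]
    constructor
    · rintro ⟨h4, h5⟩
      by_cases hzL : z ∈ L
      · have h6 : z ∈ B j ∩ L := mem_inter.2 ⟨h4, hzL⟩
        rw [h3, mem_insert, mem_singleton] at h6
        exact h6.symm
      · exact absurd h4 (d.A0 j hj z h5 hzL)
    · rintro (rfl | rfl)
      · exact ⟨(mem_bl.1 hj).2, h.LQ h.cL⟩
      · exact ⟨(mem_bl.1 hj).1, h.LQ h.bL⟩
  obtain ⟨j0, j1, j2, e01, e02, e12, he⟩ := card_eq_three.1 h.t.cA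
  have g0 : j0 ∈ bl B b c := by rw [he]; simp
  have g1 : j1 ∈ bl B b c := by rw [he]; simp
  have g2 : j2 ∈ bl B b c := by rw [he]; simp
  have hCe : ∀ j ∈ bl B a c, j = r.1 ∨ j = r'.1 := by
    intro j hj
    have h3 : ({r.1, r'.1} : Finset ι) ⊆ bl B a c := by
      intro z hz
      rw [mem_insert, mem_singleton] at hz
      rcases hz with rfl | rfl
      · exact d.rC
      · exact d.rC'
    have h4 := eq_of_subset_of_card_le h3 (by rw [h.t.cC, card_pair d.rr])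
    rw [← h4, mem_insert, mem_singleton] at hj
    exact hj
  have hs3 : B s ∩ Q = {a, p.2, p'.2} := by
    symm
    refine eq_of_subset_of_card_le (fun z hz => ?_) ?_
    · rw [mem_insert, mem_insert, mem_singleton] at hz
      rcases hz with rfl | rfl | rfl
      · exact mem_inter.2 ⟨h.as, h.LQ h.aL⟩
      · exact mem_inter.2 ⟨xs, xQ⟩
      · exact mem_inter.2 ⟨ys, yQ⟩
    · rw [card_insert_of_notMem, card_pair n1]
      · exact h.hv.tr s
      · rw [mem_insert, mem_singleton]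
        rintro (h3 | h3)
        · exact xL (h3 ▸ h.aL)
        · exact yL (h3 ▸ h.aL)
  have nL : ∀ {x y : V}, x ∈ L → y ∉ L → x ≠ y := fun hx hy hxy => hy (hxy ▸ hx)
  refine h.hv.r2 (x := c) (p := a) (v := r.2) (m := b) (b := p.2) (c := p'.2) (i := r.1)
    (k := r'.1) (j0 := j0) (j1 := j1) (j2 := j2) (t := t) (w := s) (w0 := p.1) (w1 := p'.1)
    (h.LQ h.cL) (h.LQ h.aL) zQ (h.LQ h.bL) xQ yQ h.t.ac.symm (nL h.cL zL) (nL h.aL zL)
    h.t.bc h.t.ab.symm (nL h.bL zL) (nL h.cL xL).symm (nL h.aL xL).symm n2 (nL h.bL xL).symm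
    (nL h.cL yL).symm (nL h.aL yL).symm n4 (nL h.bL yL).symm n1 ?_ rc ra zp rc' ra'
    (fun h3 => h.no3 ra' h3 rc') (fun h3 => ?_) (fun h3 => ?_) (hA _ g0) (hA _ g1) (hA _ g2)
    e01 e02 e12 (fun j hj => ?_) (h.T3 t ht) hzt (htL c h.cL) (htL a h.aL) (htL b h.bL)
    (fun h3 => ?_) (fun h3 => ?_) (fun y hy hyv hyk => ?_) hs3 pb xp pb' yp
  · have h3 := ee_mono (B := B) (Q := Q) (singleton_subset_iff.2 h.cL : {c} ⊆ L)
    have h4 := h.nums.1
    omega
  · exact n3 (h.one_contact (Or.inr (Or.inr d.rC')) h3 wp xQ wQ xL wL)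
  · exact n5 (h.one_contact (Or.inr (Or.inr d.rC')) h3 wp yQ wQ yL wL)
  · have hjL : (B j ∩ L).Nonempty := ⟨c, mem_inter.2 ⟨hj, h.cL⟩⟩
    rcases h.t.cov j hjL with h3 | h3 | h3 | h3
    · rw [he, mem_insert, mem_insert, mem_singleton] at h3
      rcases h3 with h3 | h3 | h3
      · exact Or.inl h3
      · exact Or.inr (Or.inl h3)
      · exact Or.inr (Or.inr (Or.inl h3))
    · exact absurd hj (fun h4 => h.no3 (mem_bl.1 h3).1 (mem_bl.1 h3).2 h4)
    · rcases hCe j h3 with h4 | h4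
      · refine Or.inr (Or.inr (Or.inr (Or.inr fun z hz => ?_)))
        obtain ⟨hzj, hzQ⟩ := mem_inter.1 hz
        rw [mem_insert, mem_insert, mem_singleton]
        by_cases hzL : z ∈ L
        · have h5 : z ∈ B j ∩ L := mem_inter.2 ⟨hzj, hzL⟩
          rw [h.symm.trB h3, mem_insert, mem_singleton] at h5
          rcases h5 with h5 | h5
          · exact Or.inr (Or.inl h5)
          · exact Or.inl h5
        · exact Or.inr (Or.inr (h.one_contact (Or.inr (Or.inr h3)) hzj (by rw [h4]; exact zp)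
            hzQ zQ hzL zL))
      · exact Or.inr (Or.inr (Or.inr (Or.inl h4)))
    · rw [h3] at hj
      exact absurd hj h.cs
  · have h4 := hown _ (mem_inter.2 ⟨h3, xQ⟩) n2
    have h5 := h.hitz d.mp
    rw [h4] at h5
    exact notMem_empty _ h5
  · have h4 := hown _ (mem_inter.2 ⟨h3, yQ⟩) n4
    have h5 := h.hitz d.mp'
    rw [h4] at h5
    exact notMem_empty _ h5
  · have h4 := hown y hy hyv
    have h5 : r'.1 ∈ Ez B L y := mem_Ez.2 ⟨hyk, c, mem_inter.2 ⟨rc', h.cL⟩⟩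
    rw [h4] at h5
    exact notMem_empty _ h5

/-- a single hit at a point with a full hit. -/
theorem fin1 (d : D6 B Q L a b c s p p' r r' s1 s2) (h : Q0 B Q L T a b c s)
    (n1 : p.2 ≠ p'.2) (n2 : p.2 ≠ r.2) (n3 : p.2 ≠ r'.2) (n4 : p'.2 ≠ r.2) (n5 : p'.2 ≠ r'.2)
    (n6 : r.2 ≠ r'.2) (h1 : s1 = p.2) : False := by
  by_cases h2 : s2 = p'.2
  · exact d.sbb h n1 n2 n3 n4 n5 h1 h2
  by_cases h3 : s2 = r.2
  · exact d.sbc h h1 h3
  by_cases h4 : s2 = r'.2
  · exact d.swapR.sbc h h1 h4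
  exact d.sbn h n1 n2 n3 n4 n5 n6 h1 (fun h5 => d.ss (h1.trans h5.symm)) h2 h3 h4

/-- **no placement with six hits without a hit of the class A**. -/
theorem false (d : D6 B Q L a b c s p p' r r' s1 s2) (h : Q0 B Q L T a b c s) : False := by
  classical
  have n2 : p.2 ≠ r.2 := fun h1 => d.mix h h1
  have n3 : p.2 ≠ r'.2 := fun h1 => d.swapR.mix h h1
  have n4 : p'.2 ≠ r.2 := fun h1 => d.swapP.mix h h1
  have n5 : p'.2 ≠ r'.2 := fun h1 => d.swapP.swapR.mix h h1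
  have n1 : p.2 ≠ p'.2 := fun h1 => d.dbl h h1 n2
  have n6 : r.2 ≠ r'.2 := fun h1 => d.symm.dbl h.symm h1 n2.symm
  have k1 : ∀ {t1 t2 : V}, D6 B Q L a b c s p p' r r' t1 t2 → t1 ≠ p.2 ∧ t1 ≠ p'.2 ∧
      t1 ≠ r.2 ∧ t1 ≠ r'.2 := by
    intro t1 t2 e
    refine ⟨fun h1 => ?_, fun h1 => ?_, fun h1 => ?_, fun h1 => ?_⟩
    · exact e.fin1 h n1 n2 n3 n4 n5 n6 h1
    · exact e.swapP.fin1 h n1.symm n4 n5 n2 n3 n6 h1
    · exact e.symm.fin1 h.symm n6 n2.symm n4.symm n3.symm n5.symm n1 h1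
    · exact e.swapR.symm.fin1 h.symm n6.symm n3.symm n5.symm n2.symm n4.symm n1 h1
  obtain ⟨a1, a2, a3, a4⟩ := k1 d
  obtain ⟨b1, b2, b3, b4⟩ := k1 d.swapS
  obtain ⟨xQ, xL, xp, _⟩ := mem_hs.1 d.m1
  obtain ⟨yQ, yL, yp, _⟩ := mem_hs.1 d.m2
  have h7 := h.hv.seven_T h.LQ h.L3 h.cm8 h.rho2 h.crit h.T3 h.TL h.Td h.cov h.tw d.ss xQ yQ xL
    yL ⟨s, h.hitz d.m1⟩ ⟨s, h.hitz d.m2⟩ (fun i hi => ?_) (fun i hi => ?_)
  · rw [← hs_card] at h7
    have h8 : hs B Q L ⊆ {p, p', r, r', (s, s1), (s, s2)} := by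
      intro z hz
      simp only [mem_insert, mem_singleton]
      exact d.all z hz
    have h9 := card_le_card h8
    have h10 : ({p, p', r, r', (s, s1), (s, s2)} : Finset (ι × V)).card ≤ 6 := card_le_six
    omega
  · obtain ⟨h8, h9⟩ := mem_Ez.1 hi
    have h10 : i = s := by
      rcases d.all (i, s1) (mem_hs.2 ⟨xQ, xL, h8, h9⟩) with h11 | h11 | h11 | h11 | h11 | h11
      · exact absurd (congrArg Prod.snd h11) a1
      · exact absurd (congrArg Prod.snd h11) a2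
      · exact absurd (congrArg Prod.snd h11) a3
      · exact absurd (congrArg Prod.snd h11) a4
      · exact congrArg Prod.fst h11
      · exact congrArg Prod.fst h11
    rw [h10, h.t.tr, card_singleton]
  · obtain ⟨h8, h9⟩ := mem_Ez.1 hi
    have h10 : i = s := by
      rcases d.all (i, s2) (mem_hs.2 ⟨yQ, yL, h8, h9⟩) with h11 | h11 | h11 | h11 | h11 | h11
      · exact absurd (congrArg Prod.snd h11) b1
      · exact absurd (congrArg Prod.snd h11) b2
      · exact absurd (congrArg Prod.snd h11) b3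
      · exact absurd (congrArg Prod.snd h11) b4
      · exact congrArg Prod.fst h11
      · exact congrArg Prod.fst h11
    rw [h10, h.t.tr, card_singleton]

end D6

namespace Q0

variable {Q L : Finset V} {T : Finset ι} {a b c : V} {s : ι}

/-- two hits through a block of a pair are equal. -/
theorem inj (h : Q0 B Q L T a b c s) {p r : ι × V} (hp : p ∈ hs B Q L) (hr : r ∈ hs B Q L)
    (hi : p.1 ∈ bl B b c ∨ p.1 ∈ bl B a b ∨ p.1 ∈ bl B a c) (hpr : p.1 = r.1) : p = r := by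
  obtain ⟨xQ, xL, xp, _⟩ := mem_hs.1 hp
  obtain ⟨yQ, yL, yp, _⟩ := mem_hs.1 hr
  rw [← hpr] at yp
  exact Prod.ext hpr (h.one_contact hi xp yp xQ yQ xL yL)

open Classical in
/-- **the class A is hit**: by three different points. -/
theorem three_A (h : Q0 B Q L T a b c s) :
    ((hs B Q L).filter (fun p => p.1 ∈ bl B b c)).card = 3 ∧
      ∀ p ∈ (hs B Q L).filter (fun p => p.1 ∈ bl B b c),
        ∀ r ∈ (hs B Q L).filter (fun p => p.1 ∈ bl B b c), p.2 = r.2 → p = r := by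
  classical
  rcases h.classA3 with h0 | h0
  swap
  · exact h0
  exfalso
  have h6 := h.hv.six_T h.LQ h.L3 h.cm8 h.rho2 h.crit h.T3 h.TL h.Td h.cov h.tw
  rw [← hs_card] at h6
  obtain ⟨_, bB, bC, bS⟩ := h.t.bounds h.hv.tr h.LQ
  set H := hs B Q L with hH
  set HA := H.filter (fun p => p.1 ∈ bl B b c) with hHA
  set HB := H.filter (fun p => p.1 ∈ bl B a b) with hHB
  set HC := H.filter (fun p => p.1 ∈ bl B a c) with hHC
  set HS := H.filter (fun p => p.1 = s) with hHS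
  have hcov4 : ∀ p ∈ H, p ∈ HB ∨ p ∈ HC ∨ p ∈ HS := by
    intro p hp
    rcases h.t.cov p.1 (mem_hs.1 hp).2.2.2 with h1 | h1 | h1 | h1
    · have h2 : p ∈ HA := mem_filter.2 ⟨hp, h1⟩
      rw [h0] at h2
      exact absurd h2 (notMem_empty _)
    · exact Or.inl (mem_filter.2 ⟨hp, h1⟩)
    · exact Or.inr (Or.inl (mem_filter.2 ⟨hp, h1⟩))
    · exact Or.inr (Or.inr (mem_filter.2 ⟨hp, h1⟩))
  have hsub : H ⊆ (HB ∪ HC) ∪ HS := by
    intro p hp
    rw [mem_union, mem_union]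
    rcases hcov4 p hp with h1 | h1 | h1
    · exact Or.inl (Or.inl h1)
    · exact Or.inl (Or.inr h1)
    · exact Or.inr h1
  have h7 := (card_le_card hsub).trans ((card_union_le _ _).trans
    (Nat.add_le_add_right (card_union_le _ _) _))
  obtain ⟨p, p', hpp, hBe⟩ := card_eq_two.1 (by omega : HB.card = 2)
  obtain ⟨r, r', hrr, hCe⟩ := card_eq_two.1 (by omega : HC.card = 2)
  obtain ⟨u, u', huu, hSe⟩ := card_eq_two.1 (by omega : HS.card = 2)
  have mp : p ∈ HB := by rw [hBe]; exact mem_insert_self _ _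
  have mp' : p' ∈ HB := by rw [hBe]; exact mem_insert_of_mem (mem_singleton_self _)
  have mr : r ∈ HC := by rw [hCe]; exact mem_insert_self _ _
  have mr' : r' ∈ HC := by rw [hCe]; exact mem_insert_of_mem (mem_singleton_self _)
  have mu : u ∈ HS := by rw [hSe]; exact mem_insert_self _ _
  have mu' : u' ∈ HS := by rw [hSe]; exact mem_insert_of_mem (mem_singleton_self _)
  obtain ⟨p1, p2⟩ := mem_filter.1 mp
  obtain ⟨p1', p2'⟩ := mem_filter.1 mp'
  obtain ⟨r1, r2⟩ := mem_filter.1 mr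
  obtain ⟨r1', r2'⟩ := mem_filter.1 mr'
  obtain ⟨u1, u2⟩ := mem_filter.1 mu
  obtain ⟨u1', u2'⟩ := mem_filter.1 mu'
  have eu : (s, u.2) = u := by rw [← u2]
  have eu' : (s, u'.2) = u' := by rw [← u2']
  have d : D6 B Q L a b c s p p' r r' u.2 u'.2 :=
    { A0 := fun i hi v hvQ hvL hvi => by
        have h1 : (i, v) ∈ HA := mem_filter.2 ⟨mem_hs.2 ⟨hvQ, hvL, hvi, b,
          mem_inter.2 ⟨(mem_bl.1 hi).1, h.bL⟩⟩, hi⟩
        rw [h0] at h1
        exact notMem_empty _ h1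
      mp := p1
      mp' := p1'
      mr := r1
      mr' := r1'
      m1 := by rw [eu]; exact u1
      m2 := by rw [eu']; exact u1'
      pB := p2
      pB' := p2'
      rC := r2
      rC' := r2'
      pp := fun h1 => hpp (h.inj p1 p1' (Or.inr (Or.inl p2)) h1)
      rr := fun h1 => hrr (h.inj r1 r1' (Or.inr (Or.inr r2)) h1)
      ss := fun h1 => huu (by rw [← eu, ← eu', h1])
      all := fun z hz => by
        rcases hcov4 z hz with h1 | h1 | h1
        · rw [hBe, mem_insert, mem_singleton] at h1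
          rcases h1 with h1 | h1
          · exact Or.inl h1
          · exact Or.inr (Or.inl h1)
        · rw [hCe, mem_insert, mem_singleton] at h1
          rcases h1 with h1 | h1
          · exact Or.inr (Or.inr (Or.inl h1))
          · exact Or.inr (Or.inr (Or.inr (Or.inl h1)))
        · rw [hSe, mem_insert, mem_singleton] at h1
          rcases h1 with h1 | h1
          · exact Or.inr (Or.inr (Or.inr (Or.inr (Or.inl (h1.trans eu.symm)))))
          · exact Or.inr (Or.inr (Or.inr (Or.inr (Or.inr (h1.trans eu'.symm))))) }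
  exact d.false h

end Q0

/-- a point with a hit through a block of the pair `b`, `c`. -/
def Ap (B : ι → Finset V) (L : Finset V) (b c v : V) : Prop := ∃ i ∈ Ez B L v, i ∈ bl B b c

/-- a point with a full hit. -/
def Fp (B : ι → Finset V) (L : Finset V) (v : V) : Prop := ∃ i ∈ Ez B L v, (B i ∩ L).card = 2

open Classical in
/-- the points with a hit of the class A. -/
noncomputable def SA (B : ι → Finset V) (Q L : Finset V) (b c : V) : Finset V :=
  (Q \ L).filter (fun v => Ap B L b c v)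

open Classical in
/-- the other points with a full hit. -/
noncomputable def SF (B : ι → Finset V) (Q L : Finset V) (b c : V) : Finset V :=
  (Q \ L).filter (fun v => ¬ Ap B L b c v ∧ Fp B L v)

open Classical in
/-- the points with single hits only. -/
noncomputable def SO (B : ι → Finset V) (Q L : Finset V) : Finset V :=
  (Q \ L).filter (fun v => (Ez B L v).Nonempty ∧ ¬ Fp B L v)

namespace Q0

variable {Q L : Finset V} {T : Finset ι} {a b c : V} {s : ι}

theorem mSA {v : V} : v ∈ SA B Q L b c ↔ v ∈ Q ∧ v ∉ L ∧ Ap B L b c v := by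
  classical
  unfold SA
  rw [mem_filter, mem_sdiff, and_assoc]

theorem mSF {v : V} : v ∈ SF B Q L b c ↔ v ∈ Q ∧ v ∉ L ∧ ¬ Ap B L b c v ∧ Fp B L v := by
  classical
  unfold SF
  rw [mem_filter, mem_sdiff, and_assoc]

theorem mSO {v : V} : v ∈ SO B Q L ↔ v ∈ Q ∧ v ∉ L ∧ (Ez B L v).Nonempty ∧ ¬ Fp B L v := by
  classical
  unfold SO
  rw [mem_filter, mem_sdiff, and_assoc]

theorem Ap_Fp (h : Q0 B Q L T a b c s) {v : V} (hv : Ap B L b c v) : Fp B L v := by
  obtain ⟨i, hi, h1⟩ := hv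
  exact ⟨i, hi, h.card_pairs (Or.inl h1)⟩

/-- a block with a trace is the single block or has a full trace. -/
theorem full_or (h : Q0 B Q L T a b c s) {i : ι} (hi : (B i ∩ L).Nonempty) :
    (B i ∩ L).card = 2 ∨ i = s := by
  rcases h.t.cov i hi with h1 | h1 | h1 | h1
  · exact Or.inl (h.card_pairs (Or.inl h1))
  · exact Or.inl (h.card_pairs (Or.inr (Or.inl h1)))
  · exact Or.inl (h.card_pairs (Or.inr (Or.inr h1)))
  · exact Or.inr h1

/-- a point without full hits. -/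
theorem ez_s (h : Q0 B Q L T a b c s) {v : V} (hE : (Ez B L v).Nonempty) (hF : ¬ Fp B L v) :
    Ez B L v = {s} := by
  rw [eq_singleton_iff_nonempty_unique_mem]
  refine ⟨hE, fun i hi => ?_⟩
  rcases h.full_or (mem_Ez.1 hi).2 with h1 | h1
  · exact absurd ⟨i, hi, h1⟩ hF
  · exact h1

theorem card_SA (h : Q0 B Q L T a b c s) : (SA B Q L b c).card = 3 := by
  classical
  obtain ⟨h1, h2⟩ := h.three_A
  rw [← h1]
  symm
  refine card_bij (fun p _ => p.2) (fun p hp => ?_) (fun p hp r hr hpr => h2 p hp r hr hpr)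
    (fun v hv => ?_)
  · obtain ⟨h3, h4⟩ := mem_filter.1 hp
    obtain ⟨h5, h6, _, _⟩ := mem_hs.1 h3
    exact mSA.2 ⟨h5, h6, p.1, h.hitz h3, h4⟩
  · obtain ⟨h3, h4, i, hi, h5⟩ := mSA.1 hv
    exact ⟨(i, v), mem_filter.2 ⟨mem_hs.2 ⟨h3, h4, (mem_Ez.1 hi).1, (mem_Ez.1 hi).2⟩, h5⟩, rfl⟩

theorem one_SA {v : V} (hv : v ∈ SA B Q L b c) : 1 ≤ (Ez B L v).card := by
  obtain ⟨_, _, i, hi, _⟩ := mSA.1 hv
  exact card_pos.2 ⟨i, hi⟩

theorem one_SF {v : V} (hv : v ∈ SF B Q L b c) : 1 ≤ (Ez B L v).card := by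
  obtain ⟨_, _, _, i, hi, _⟩ := mSF.1 hv
  exact card_pos.2 ⟨i, hi⟩

theorem one_SO (h : Q0 B Q L T a b c s) {v : V} (hv : v ∈ SO B Q L) : (Ez B L v).card = 1 := by
  obtain ⟨_, _, h1, h2⟩ := mSO.1 hv
  rw [h.ez_s h1 h2, card_singleton]

theorem card_SO (h : Q0 B Q L T a b c s) : (SO B Q L).card ≤ 2 := by
  have h1 : SO B Q L ⊆ (B s ∩ Q).erase a := by
    intro v hv
    obtain ⟨h2, h3, h4, h5⟩ := mSO.1 hv
    have h6 : s ∈ Ez B L v := by
      rw [h.ez_s h4 h5]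
      exact mem_singleton_self _
    exact mem_erase.2 ⟨fun h7 => h3 (h7 ▸ h.aL), mem_inter.2 ⟨(mem_Ez.1 h6).1, h2⟩⟩
  have h2 := card_le_card h1
  have h3 := card_erase_add_one (mem_inter.2 ⟨h.as, h.LQ h.aL⟩)
  have h4 := h.hv.tr s
  omega

/-- the hits by the three kinds of contact points. -/
theorem hit_eq3 (h : Q0 B Q L T a b c s) : hit B (Q \ L) L =
    ∑ v ∈ SA B Q L b c, (Ez B L v).card + ∑ v ∈ SF B Q L b c, (Ez B L v).card +
      (SO B Q L).card := by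
  classical
  have e1 : ∑ v ∈ (Q \ L).filter (fun v => Ap B L b c v), (Ez B L v).card =
      ∑ v ∈ SA B Q L b c, (Ez B L v).card := by
    refine sum_congr ?_ fun _ _ => rfl
    ext v
    rw [mem_filter, mem_sdiff, mSA, and_assoc]
  have e2 : ∑ v ∈ ((Q \ L).filter (fun v => ¬ Ap B L b c v)).filter (fun v => Fp B L v),
      (Ez B L v).card = ∑ v ∈ SF B Q L b c, (Ez B L v).card := by
    refine sum_congr ?_ fun _ _ => rfl
    ext v
    rw [mem_filter, mem_filter, mem_sdiff, mSF, and_assoc, and_assoc]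
  have e3 : ∑ v ∈ ((Q \ L).filter (fun v => ¬ Ap B L b c v)).filter (fun v => ¬ Fp B L v),
      (Ez B L v).card = (SO B Q L).card := by
    rw [card_eq_sum_ones]
    symm
    refine (sum_congr rfl fun v hv => (h.one_SO hv).symm).trans ?_
    refine sum_subset (fun v hv => ?_) fun v hv hn => ?_
    · obtain ⟨h1, h2, h3, h4⟩ := mSO.1 hv
      rw [mem_filter, mem_filter, mem_sdiff]
      exact ⟨⟨⟨h1, h2⟩, fun h5 => h4 (h.Ap_Fp h5)⟩, h4⟩
    · rw [mem_filter, mem_filter, mem_sdiff] at hv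
      rw [card_eq_zero]
      by_contra hcon
      exact hn (mSO.2 ⟨hv.1.1.1, hv.1.1.2, nonempty_iff_ne_empty.2 hcon, hv.2⟩)
  rw [hit_eq_Ez, ← sum_filter_add_sum_filter_not (Q \ L) (fun v => Ap B L b c v),
    ← sum_filter_add_sum_filter_not ((Q \ L).filter (fun v => ¬ Ap B L b c v))
      (fun v => Fp B L v), e1, e2, e3, add_assoc]

/-- the contact points. -/
theorem mem3 {v : V} (hvQ : v ∈ Q) (hvL : v ∉ L) (hE : (Ez B L v).Nonempty) :
    v ∈ SA B Q L b c ∨ v ∈ SF B Q L b c ∨ v ∈ SO B Q L := by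
  classical
  by_cases h1 : Ap B L b c v
  · exact Or.inl (mSA.2 ⟨hvQ, hvL, h1⟩)
  by_cases h2 : Fp B L v
  · exact Or.inr (Or.inl (mSF.2 ⟨hvQ, hvL, h1, h2⟩))
  · exact Or.inr (Or.inr (mSO.2 ⟨hvQ, hvL, hE, h2⟩))

/-- the single hits at different points. -/
theorem not_two_SO (h : Q0 B Q L T a b c s) (h6 : hit B (Q \ L) L = 6) :
    (SO B Q L).card ≤ 1 := by
  by_contra hcon
  obtain ⟨x, hx, y, hy, hxy⟩ := one_lt_card.1 (by omega : 1 < (SO B Q L).card)
  obtain ⟨xQ, xL, xE, xF⟩ := mSO.1 hx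
  obtain ⟨yQ, yL, yE, yF⟩ := mSO.1 hy
  have h7 := h.hv.seven_T h.LQ h.L3 h.cm8 h.rho2 h.crit h.T3 h.TL h.Td h.cov h.tw hxy xQ yQ xL
    yL xE yE (fun i hi => ?_) (fun i hi => ?_)
  · omega
  · rw [h.ez_s xE xF, mem_singleton] at hi
    rw [hi, h.t.tr, card_singleton]
  · rw [h.ez_s yE yF, mem_singleton] at hi
    rw [hi, h.t.tr, card_singleton]

/-- all triples are own if only one point has single hits only. -/
theorem own1 (h : Q0 B Q L T a b c s) (h1 : (SO B Q L).card ≤ 1) {v : V} {j : ι} (hvQ : v ∈ Q)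
    (hvL : v ∉ L) (hE : (Ez B L v).Nonempty) (hj : j ∈ T) (hvj : v ∈ B j) :
    ∀ y ∈ B j ∩ Q, y ≠ v → Ez B L y = ∅ := by
  intro y hy hyv
  by_contra hcon
  have hyE : (Ez B L y).Nonempty := nonempty_iff_ne_empty.2 hcon
  obtain ⟨_, h3, h4⟩ := h.tw j hj v (mem_inter.2 ⟨hvj, hvQ⟩) y hy hyv.symm hE hyE
  have hyL : y ∉ L := fun h5 => disjoint_left.1 (h.TL j hj) hy h5
  refine hyv ((card_le_one.1 h1) y (mSO.2 ⟨(mem_inter.1 hy).2, hyL, hyE, ?_⟩) v
    (mSO.2 ⟨hvQ, hvL, hE, ?_⟩))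
  · rintro ⟨i, hi, h5⟩
    have := h4 i hi
    omega
  · rintro ⟨i, hi, h5⟩
    have := h3 i hi
    omega

end Q0

namespace Q0

variable {Q L : Finset V} {T : Finset ι} {a b c : V} {s : ι}

/-- the cover number with one point of the class A and one other contact point. -/
theorem rhoSA (h : Q0 B Q L T a b c s) {x y : V} (hx : x ∈ SA B Q L b c) (hyQ : y ∈ Q)
    (hyL : y ∉ L) (hyE : (Ez B L y).Nonempty) (hy : y ∉ SA B Q L b c) :
    rho B (L ∪ {x, y}) ≤ 2 := by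
  obtain ⟨_, _, i, hi, h1⟩ := mSA.1 hx
  obtain ⟨k, hk⟩ := hyE
  obtain ⟨h2, h3⟩ := mem_Ez.1 hk
  refine h.rhoAB h1 (mem_Ez.1 hi).1 (k := k) ?_ h2
  rcases h.t.cov k h3 with h4 | h4 | h4 | h4
  · exact absurd (mSA.2 ⟨hyQ, hyL, k, hk, h4⟩) hy
  · exact (mem_bl.1 h4).1
  · exact (mem_bl.1 h4).1
  · rw [h4]
    exact h.as

omit [DecidableEq V] in
/-- all numbers are one if the sum is the number of points. -/
theorem ones {S : Finset V} {n : V → ℕ} (h1 : ∀ v ∈ S, 1 ≤ n v) (h2 : ∑ v ∈ S, n v ≤ S.card) :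
    ∀ v ∈ S, n v = 1 := by
  intro v hv
  by_contra hcon
  have h3 : ∑ v ∈ S, 1 < ∑ v ∈ S, n v :=
    sum_lt_sum h1 ⟨v, hv, by have := h1 v hv; omega⟩
  rw [← card_eq_sum_ones] at h3
  omega

/-- **six hits and one point with single hits only**: at least four hits by the points of the class A. -/
theorem four_of_one (h : Q0 B Q L T a b c s) (h6 : hit B (Q \ L) L = 6)
    (h1 : (SO B Q L).card = 1) : 4 ≤ ∑ v ∈ SA B Q L b c, (Ez B L v).card := by
  classical
  by_contra hcon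
  have e3 := h.hit_eq3
  have hS3 := h.card_SA
  have hn1 := ones (S := SA B Q L b c) (n := fun v => (Ez B L v).card) (fun v hv => one_SA hv)
    (by omega)
  have hs3 : ∑ v ∈ SA B Q L b c, (Ez B L v).card = 3 := by
    rw [sum_congr rfl hn1, ← card_eq_sum_ones, hS3]
  have hF2 : ∑ v ∈ SF B Q L b c, (Ez B L v).card = 2 := by omega
  have hFc : (SF B Q L b c).card ≤ 2 := by
    rw [card_eq_sum_ones, ← hF2]
    exact sum_le_sum fun v hv => one_SF hv
  obtain ⟨z, hz⟩ := card_eq_one.1 h1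
  have mz : z ∈ SO B Q L := by rw [hz]; exact mem_singleton_self z
  obtain ⟨zQ, zL, zE, zF⟩ := mSO.1 mz
  have zA : z ∉ SA B Q L b c := fun h2 => zF (h.Ap_Fp (mSA.1 h2).2.2)
  have zS : z ∉ SF B Q L b c := fun h2 => zF (mSF.1 h2).2.2.2
  have z1 := h.one_SO mz
  have : Nonempty ι := ⟨s⟩
  have hcov := h.cov
  choose! τ hτ using hcov
  have Aq : ∀ {v}, v ∈ SA B Q L b c → v ∈ Q ∧ v ∉ L ∧ (Ez B L v).Nonempty := fun hv =>
    ⟨(mSA.1 hv).1, (mSA.1 hv).2.1, card_pos.1 (one_SA hv)⟩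
  have Fq : ∀ {v}, v ∈ SF B Q L b c → v ∈ Q ∧ v ∉ L ∧ (Ez B L v).Nonempty := fun hv =>
    ⟨(mSF.1 hv).1, (mSF.1 hv).2.1, card_pos.1 (one_SF hv)⟩
  have FA : ∀ {v}, v ∈ SF B Q L b c → v ∉ SA B Q L b c := fun hv h2 =>
    (mSF.1 hv).2.2.1 (mSA.1 h2).2.2
  have all : ∀ v ∈ Q, v ∉ L → (Ez B L v).Nonempty → v ∈ SA B Q L b c ∨ v ∈ SF B Q L b c ∨
      v = z := by
    intro v hvQ hvL hE
    rcases mem3 (b := b) (c := c) hvQ hvL hE with h2 | h2 | h2
    · exact Or.inl h2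
    · exact Or.inr (Or.inl h2)
    · rw [hz, mem_singleton] at h2
      exact Or.inr (Or.inr h2)
  have own : ∀ {v}, v ∈ Q → v ∉ L → (Ez B L v).Nonempty → (B (τ v) ∩ Q).card = 3 ∧
      v ∈ B (τ v) ∧ ∀ y ∈ B (τ v) ∩ Q, y ≠ v → Ez B L y = ∅ := fun {v} hvQ hvL hE =>
    ⟨h.T3 _ (hτ v hvQ hvL hE).1, (hτ v hvQ hvL hE).2,
      h.own1 h1.le hvQ hvL hE (hτ v hvQ hvL hE).1 (hτ v hvQ hvL hE).2⟩
  have dis : ∀ {v w}, v ∈ Q → v ∉ L → (Ez B L v).Nonempty → w ∈ Q → w ∉ L →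
      (Ez B L w).Nonempty → v ≠ w → Disjoint (B (τ v) ∩ Q) (B (τ w) ∩ Q) := by
    intro v w hvQ hvL hvE hwQ hwL hwE hvw
    refine h.Td _ (hτ v hvQ hvL hvE).1 _ (hτ w hwQ hwL hwE).1 fun h2 => ?_
    have h3 := (own hvQ hvL hvE).2.2 w (mem_inter.2 ⟨by rw [h2]; exact (own hwQ hwL hwE).2.1,
      hwQ⟩) hvw.symm
    rw [h3] at hwE
    exact not_nonempty_empty hwE
  rcases Nat.lt_or_ge (SF B Q L b c).card 2 with hc2 | hc2
  · rcases Nat.eq_zero_or_pos (SF B Q L b c).card with hc0 | hc0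
    · rw [card_eq_zero.1 hc0, sum_empty] at hF2
      omega
    obtain ⟨y, hy⟩ := card_eq_one.1 (by omega : (SF B Q L b c).card = 1)
    have my : y ∈ SF B Q L b c := by rw [hy]; exact mem_singleton_self y
    obtain ⟨yQ, yL, yE⟩ := Fq my
    obtain ⟨a1, a2, a3, n12, n13, n23, hAe⟩ := card_eq_three.1 hS3
    have m1 : a1 ∈ SA B Q L b c := by rw [hAe]; simp
    have m2 : a2 ∈ SA B Q L b c := by rw [hAe]; simp
    have m3 : a3 ∈ SA B Q L b c := by rw [hAe]; simp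
    have hyz : y ≠ z := fun h2 => zS (h2 ▸ my)
    have ne1 : ∀ {v}, v ∈ SA B Q L b c → v ≠ y := fun hv h2 => FA my (h2 ▸ hv)
    have ne2 : ∀ {v}, v ∈ SA B Q L b c → v ≠ z := fun hv h2 => zA (h2 ▸ hv)
    obtain ⟨q1, q2, q3⟩ := Aq m1
    obtain ⟨r1, r2, r3⟩ := Aq m2
    obtain ⟨t1, t2, t3⟩ := Aq m3
    refine h.hv.k3 h.LQ h.ne (by rw [h.nums.2.1]) (p := a1) (q := y) (p' := a2) (q' := z)
      (r := a3) (i := τ a1) (j := τ y) (own q1 q2 q3).1 (own yQ yL yE).1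
      (mem_inter.2 ⟨(own q1 q2 q3).2.1, q1⟩) (mem_inter.2 ⟨(own yQ yL yE).2.1, yQ⟩)
      (dis q1 q2 q3 yQ yL yE (ne1 m1)) (own q1 q2 q3).2.2 (own yQ yL yE).2.2 q2 yL r1 zQ t1 r2
      zL t2 (hn1 a2 m2) z1 (hn1 a3 m3) n12 (ne2 m1) n13 (ne1 m2).symm hyz (ne1 m3).symm (ne2 m2)
      n23 (ne2 m3).symm (fun v hvQ hvL hE => ?_) ?_ ?_ ?_ ?_
    · rcases all v hvQ hvL hE with h2 | h2 | h2
      · rw [hAe, mem_insert, mem_insert, mem_singleton] at h2
        rcases h2 with h2 | h2 | h2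
        · exact Or.inl h2
        · exact Or.inr (Or.inr (Or.inl h2))
        · exact Or.inr (Or.inr (Or.inr (Or.inr h2)))
      · rw [hy, mem_singleton] at h2
        exact Or.inr (Or.inl h2)
      · exact Or.inr (Or.inr (Or.inr (Or.inl h2)))
    · rw [h.rho2]
      exact h.rhoSA m1 yQ yL yE (FA my)
    · rw [h.rho2, pair_comm]
      exact h.rhoSA m2 yQ yL yE (FA my)
    · rw [h.rho2]
      exact h.rhoSA m1 zQ zL zE zA
    · rw [h.rho2]
      exact h.rhoSA m2 zQ zL zE zA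
  · have hFn := ones (S := SF B Q L b c) (n := fun v => (Ez B L v).card)
      (fun v hv => one_SF hv) (by omega)
    have mR : ∀ {v}, v ∈ insert z (SF B Q L b c) ↔ v = z ∨ v ∈ SF B Q L b c := mem_insert
    have mU : ∀ {v}, v ∈ SA B Q L b c ∪ insert z (SF B Q L b c) →
        v ∈ Q ∧ v ∉ L ∧ (Ez B L v).Nonempty := by
      intro v hv
      rcases mem_union.1 hv with h2 | h2
      · exact Aq h2
      · rcases mR.1 h2 with h2 | h2
        · rw [h2]
          exact ⟨zQ, zL, zE⟩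
        · exact Fq h2
    have mU1 : ∀ {v}, v ∈ SA B Q L b c ∪ insert z (SF B Q L b c) → (Ez B L v).card = 1 := by
      intro v hv
      rcases mem_union.1 hv with h2 | h2
      · exact hn1 v h2
      · rcases mR.1 h2 with h2 | h2
        · rw [h2]
          exact z1
        · exact hFn v h2
    have allU : ∀ v ∈ Q, v ∉ L → (Ez B L v).Nonempty →
        v ∈ SA B Q L b c ∪ insert z (SF B Q L b c) := by
      intro v hvQ hvL hE
      rw [mem_union, mR]
      rcases all v hvQ hvL hE with h2 | h2 | h2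
      · exact Or.inl h2
      · exact Or.inr (Or.inr h2)
      · exact Or.inr (Or.inl h2)
    have inS : ∀ {v}, v ∈ Q → v ∉ L → v ∈ B s → v = z := by
      intro v hvQ hvL hvs
      have h2 : s ∈ Ez B L v := mem_Ez.2 ⟨hvs, by rw [h.t.tr]; exact singleton_nonempty _⟩
      have h3 := mU1 (allU v hvQ hvL ⟨s, h2⟩)
      rcases all v hvQ hvL ⟨s, h2⟩ with h4 | h4 | h4
      · obtain ⟨i, hi, h5⟩ := h.Ap_Fp (mSA.1 h4).2.2
        rw [(card_le_one.1 h3.le) i hi s h2, h.t.tr, card_singleton] at h5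
        omega
      · obtain ⟨i, hi, h5⟩ := (mSF.1 h4).2.2.2
        rw [(card_le_one.1 h3.le) i hi s h2, h.t.tr, card_singleton] at h5
        omega
      · exact h4
    refine K33.false (B := B) (Q := Q) (L := L) (S := SA B Q L b c)
      (R := insert z (SF B Q L b c)) (τ := τ) ?_ h.hv
    exact
      { LQ := h.LQ
        ne := h.ne
        dvL := by rw [h.nums.2.1]
        svL := by rw [h.nums.2.2]
        cS := hS3
        cR := by rw [card_insert_of_notMem zS]; omega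
        dSR := by
          rw [disjoint_left]
          intro v hv hv2
          rcases mR.1 hv2 with h2 | h2
          · exact zA (h2 ▸ hv)
          · exact FA h2 hv
        SQ := fun v hv => (mU hv).1
        SL := fun v hv => (mU hv).2.1
        one := fun v hv => mU1 hv
        all := allU
        sp := fun k hk u hu w hw huQ hwQ huL hwL => by
          rcases h.t.cov k hk with h2 | h2 | h2 | h2
          · exact h.one_contact (Or.inl h2) hu hw huQ hwQ huL hwL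
          · exact h.one_contact (Or.inr (Or.inl h2)) hu hw huQ hwQ huL hwL
          · exact h.one_contact (Or.inr (Or.inr h2)) hu hw huQ hwQ huL hwL
          · rw [h2] at hu hw
            rw [inS huQ huL hu, inS hwQ hwL hw]
        full := fun v hv => (own (mU hv).1 (mU hv).2.1 (mU hv).2.2).1
        mem := fun v hv => (own (mU hv).1 (mU hv).2.1 (mU hv).2.2).2.1
        own := fun v hv => (own (mU hv).1 (mU hv).2.1 (mU hv).2.2).2.2
        dis := fun v hv w hw hvw => dis (mU hv).1 (mU hv).2.1 (mU hv).2.2 (mU hw).1 (mU hw).2.1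
          (mU hw).2.2 hvw
        ab := fun x hx y hy => by
          rw [h.rho2]
          have hy3 := mU (mem_union_right _ hy)
          refine h.rhoSA hx hy3.1 hy3.2.1 hy3.2.2 fun h2 => ?_
          rcases mR.1 hy with h3 | h3
          · exact zA (h3 ▸ h2)
          · exact FA h3 h2 }

/-- **the numbers of a set of type (3;1)**: with `24` for every hit of a point of the class A, `19` for
every hit of another point with a full hit and `5` for the other hits. -/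
theorem sum120 (h : Q0 B Q L T a b c s) :
    120 ≤ 24 * ∑ v ∈ SA B Q L b c, ((Ez B L v).card : ℤ) +
      19 * ∑ v ∈ SF B Q L b c, ((Ez B L v).card : ℤ) + 5 * ((SO B Q L).card : ℤ) := by
  have h6 := h.hv.six_T h.LQ h.L3 h.cm8 h.rho2 h.crit h.T3 h.TL h.Td h.cov h.tw
  have e3 := h.hit_eq3
  have hS3 := h.card_SA
  have hO := h.card_SO
  have h3 : 3 ≤ ∑ v ∈ SA B Q L b c, (Ez B L v).card := by
    rw [← hS3, card_eq_sum_ones]
    exact sum_le_sum fun v hv => one_SA hv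
  rcases h6.eq_or_lt with h7 | h7
  · have h8 := h.not_two_SO h7.symm
    rcases Nat.eq_zero_or_pos (SO B Q L).card with h9 | h9
    · push_cast [← Nat.cast_sum]
      omega
    · have h10 := h.four_of_one h7.symm (by omega)
      push_cast [← Nat.cast_sum]
      omega
  · push_cast [← Nat.cast_sum]
    omega

end Q0

end Pool.Agent.Hyp6
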