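import Pool.Agent.Hyp6.L3Td

/-!
# HYP6 L3Te: private single leaves, the score

The score `160 h - 120 P - 5 W` of a private single leaf (`h` hits of the line triple, `P = dv + 1`, `W`
other hits) is at most `545`, except in four kinds of rows. `Stg.priv_f`: the same in the setting.
-/

set_option autoImplicit false

namespace Pool.Agent.Hyp6

open Finset Pool.Agent.Hyp5 Rt

universe u v

/-- the score is at most `545` except in few rows, and these have no double single. -/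
theorem TRow.main2 {P d n a b c na nb nc W : ℕ} {sa sb sc Aa Ab Ac : Prop}
    (h : TRow P d n a b c na nb nc W sa sb sc Aa Ab Ac) (he : Even P) :
    160 * (a + b + c) ≤ 545 + 120 * P + 5 * W ∨ (d = 0 ∧ (
    (P = 0 ∧ 4 ≤ a + b + c) ∨
    (P = 2 ∧ ((a + b + c = 6 ∧ (Aa ∨ Ab ∨ Ac)) ∨
      (isP 3 2 2 a b c ∧ W = 3 ∧ Fk 3 a b c Aa Ab Ac))) ∨
    (P = 4 ∧ ((a + b + c = 7 ∧ (Aa ∨ Ab ∨ Ac) ∧ W = 5) ∨
      (isP 4 2 1 a b c ∧ W = 4 ∧ Fk 4 a b c Aa Ab Ac) ∨
      (isP 4 2 2 a b c ∧ W = 4 ∧ Fk 4 a b c Aa Ab Ac))) ∨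
    (P = 6 ∧ 9 ≤ a + b + c))) := by
  have h2 := h.W2
  have h4 := h.sl
  have h5 := h.n1
  obtain ⟨p, hp⟩ := he
  by_cases hd : d = 0
  · by_cases hP : P ≤ 8
    · have h1 : P = 0 ∨ P = 2 ∨ P = 4 ∨ P = 6 ∨ P = 8 := by omega
      rcases h1 with rfl | rfl | rfl | rfl | rfl
      · by_cases h3 : 4 ≤ a + b + c
        · exact Or.inr ⟨hd, Or.inl ⟨rfl, h3⟩⟩
        · exact Or.inl (by omega)
      · have h3 := h.W3 (by norm_num)
        rcases h.two with h1 | h1 | h1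
        · exact Or.inl (by omega)
        · exact Or.inr ⟨hd, Or.inr (Or.inl ⟨rfl, Or.inl h1⟩)⟩
        · exact Or.inr ⟨hd, Or.inr (Or.inl ⟨rfl, Or.inr h1⟩)⟩
      · have h3 := h.W3 (by norm_num)
        rcases h.four with h1 | h1 | h1 | h1
        · exact Or.inl (by omega)
        · exact Or.inr ⟨hd, Or.inr (Or.inr (Or.inl ⟨rfl, Or.inl h1⟩))⟩
        · exact Or.inr ⟨hd, Or.inr (Or.inr (Or.inl ⟨rfl, Or.inr (Or.inl h1)⟩))⟩
        · exact Or.inr ⟨hd, Or.inr (Or.inr (Or.inl ⟨rfl, Or.inr (Or.inr h1)⟩))⟩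
      · have h3 := h.W3 (by norm_num)
        by_cases h1 : a + b + c ≤ 8
        · exact Or.inl (by omega)
        · exact Or.inr ⟨hd, Or.inr (Or.inr (Or.inr ⟨rfl, by omega⟩))⟩
      · have h3 := h.W3 (by norm_num)
        have := h.eight
        exact Or.inl (by omega)
    · have h1 : 10 ≤ P := by omega
      have h3 := h.W3 (by omega)
      have := h.le11
      exact Or.inl (by omega)
  · left
    by_cases hP : P ≤ 8
    · have h1 : P = 0 ∨ P = 2 ∨ P = 4 ∨ P = 6 ∨ P = 8 := by omega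
      rcases h1 with rfl | rfl | rfl | rfl | rfl
      · omega
      · have h3 := h.W3 (by norm_num)
        omega
      · have h3 := h.W3 (by norm_num)
        have h6 : a + b + c ≤ 6 := by omega
        omega
      · have h3 := h.W3 (by norm_num)
        omega
      · have h3 := h.W3 (by norm_num)
        have := h.eight
        omega
    · have h1 : 10 ≤ P := by omega
      have h3 := h.W3 (by omega)
      have := h.le11
      omega

variable {V : Type v} [DecidableEq V] {ι : Type u} [Fintype ι] [DecidableEq ι]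
  {B : ι → Finset V}

namespace Stg

variable {Q U : Finset V} {T : Finset ι} {F : Finset (Finset V)}
  {P : Finset (Finset (Finset V))} {a : V → Finset (Finset V) → ℕ} {L : Finset V} {j : ι}

/-- **the score of a private single leaf**. -/
theorem score (s : Stg B Q T U F P a) (hL : {L} ∈ P) (hj : j ∈ tl B Q T U F P) :
    160 * (jh B Q j L : ℤ) ≤ 545 + 120 * (dv B Q L + 1) +
      5 * (hit B ((Q \ (B j ∩ Q)) \ L) L : ℤ) ∨ (ee B Q L = 0 ∧
    ((L.card = 3 ∧ nt B L 1 = 1 ∧ dv B Q L = -1 ∧ 4 ≤ jh B Q j L) ∨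
    (L.card = 1 ∧ dv B Q L = 1 ∧ 3 ≤ hit B ((Q \ (B j ∩ Q)) \ L) L ∧
      (jh B Q j L = 6 ∨ (jh B Q j L = 7 ∧ hit B ((Q \ (B j ∩ Q)) \ L) L = 3))) ∨
    (L.card = 3 ∧ nt B L 1 = 3 ∧ cm B L = 9 ∧ dv B Q L = 3 ∧ jh B Q j L = 7 ∧
      4 ≤ hit B ((Q \ (B j ∩ Q)) \ L) L))) := by
  have hLF := s.leafF hL
  have hjT := (s.tl_sub hj).1
  obtain ⟨x, y, z, hxy, hxz, hyz, hT⟩ := card_eq_three.1 (s.frm.full hjT)
  have hR := s.trow hL hj hT hxy hxz hyz
  obtain ⟨hev, hdv, hd1⟩ := s.viol.even_dv s.frm hLF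
  have h5 : ((dv B Q L + 1).toNat : ℤ) = dv B Q L + 1 := Int.toNat_of_nonneg (by omega)
  have hsum : jh B Q j L = (Ez B L x).card + (Ez B L y).card + (Ez B L z).card := by
    unfold jh
    rw [hit_eq_Ez, hT, sum_insert (by simp [hxy, hxz]), sum_pair hyz]
    omega
  have hW3 := hR.W3
  rcases hR.main2 hev with h2 | ⟨he, h2⟩
  · left
    rw [← hsum] at h2
    have h3 : (160 : ℤ) * (jh B Q j L : ℤ) ≤ 545 + 120 * ((dv B Q L + 1).toNat : ℤ) +
        5 * (hit B ((Q \ (B j ∩ Q)) \ L) L : ℤ) := by exact_mod_cast h2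
    rwa [h5] at h3
  refine Or.inr ⟨he, ?_⟩
  obtain ⟨k0, k2, k4, k6⟩ := s.small_leaf hLF he
  rw [← hsum] at h2
  rcases h2 with ⟨hP, h2⟩ | ⟨hP, h2⟩ | ⟨hP, h2⟩ | ⟨hP, h2⟩
  · obtain ⟨h3, h4⟩ := k0 hP
    exact Or.inl ⟨h3, h4, by omega, h2⟩
  · refine Or.inr (Or.inl ⟨k2 hP, by omega, hW3 (by omega), ?_⟩)
    rcases h2 with ⟨h2, -⟩ | ⟨h2, h3, -⟩
    · exact Or.inl h2
    · refine Or.inr ⟨?_, h3⟩
      unfold isP at h2
      omega
  · obtain ⟨h3, h4⟩ := k4 hP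
    obtain ⟨h6, h10⟩ := s.le7_three hL hj he h3 hP
    refine Or.inr (Or.inr ⟨h3, h4, h6, by omega, ?_⟩)
    rcases h2 with ⟨h2, -, h11⟩ | ⟨h2, h11, -⟩ | ⟨h2, h11, -⟩
    · exact ⟨h2, by omega⟩
    · unfold isP at h2
      exact ⟨by omega, by omega⟩
    · unfold isP at h2
      exact ⟨by omega, by omega⟩
  · exfalso
    have h3 := s.le8_five hL hj he (k6 hP).1 hP
    omega

/-- a private single leaf has at least two outer hits. -/
theorem two_out (s : Stg B Q T U F P a) (hL : {L} ∈ P) (hj : j ∈ tl B Q T U F P) :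
    2 ≤ hit B ((Q \ (B j ∩ Q)) \ L) L :=
  s.viol.two_out s.frm (s.tl_sub hj).1 (s.leafF hL)

end Stg

end Pool.Agent.Hyp6
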