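import Pool.Agent.Hyp6.L3Tf
import Pool.Agent.Hyp6.L3P6
import Pool.Agent.Hyp6.L3Fpj

/-!
# HYP6 L3Tg: a private point with six hits

`Stg.ms_privX`: what a private single leaf needs if the remaining triples pay `X` more.
`StgR.rest_point`: the payment at the other end of a private point with six hits, if the doubled pattern
does not occur.
-/

set_option autoImplicit false

namespace Pool.Agent.Hyp6

open Finset Pool.Agent.Hyp5 Rt

universe u v

/-- the numbers of a private point with six hits. -/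
theorem pt_num {c n W g : ℕ} {X ms tf : ℤ} (hm : ms ≤ -560 ∨ ms ≤ 184 - 5 * W - 115 * g - X)
    (hX : 0 ≤ X) (hn : 1 ≤ n) (hn4 : n ≤ 4) (hW : 3 ≤ W) (htf : -80 * (c : ℤ) ≤ tf)
    (hdon : 1 ≤ c → n + c = 3)
    (hcase : 1 ≤ g ∨ (n ≤ 2 ∧ c = 0) ∨ (n = 3 ∧ 80 ≤ X + tf) ∨
      (n = 4 ∧ 80 ≤ X + tf ∧ 4 ≤ W) ∨ (1 ≤ c ∧ 80 - 80 * (c : ℤ) ≤ X + tf)) :
    payE c n ≤ 8 + 16 * (12 - (6 : ℤ) - n) + tf - ms := by
  have hm' : ms ≤ 184 - 5 * W - 115 * g - X ∨ ms ≤ -560 := hm.symm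
  clear hm
  have hc : c = 0 ∨ (c = 1 ∧ n = 2) ∨ (c = 2 ∧ n = 1) := by omega
  rcases hc with rfl | ⟨rfl, rfl⟩ | ⟨rfl, rfl⟩
  · interval_cases n
    · show (-161 : ℤ) ≤ _
      omega
    · show (-97 : ℤ) ≤ _
      omega
    · show (-33 : ℤ) ≤ _
      omega
    · show (-44 : ℤ) ≤ _
      omega
  · show (-97 : ℤ) ≤ _
    omega
  · show (-161 : ℤ) ≤ _
    omega

variable {V : Type v} [DecidableEq V] {ι : Type u} [Fintype ι] [DecidableEq ι]
  {B : ι → Finset V}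

namespace Stg

variable {Q U : Finset V} {T : Finset ι} {F : Finset (Finset V)}
  {P : Finset (Finset (Finset V))} {a : V → Finset (Finset V) → ℕ} {L : Finset V} {j : ι}

/-- **what a private single leaf needs**, with a surplus of the remaining triples. -/
theorem ms_privX (s : Stg B Q T U F P a) (hL : {L} ∈ P) (hq : aC B Q T U F P {L} = {j})
    (ho : oj B Q U F P j = ∅) (hK : Sp.Kin (Rg B Q T U F) (slj B Q F) {L} = ∅) {X : ℤ}
    (hX0 : 0 ≤ X)
    (h2 : ∑ k ∈ Trs B Q T (Rg B Q T U F) U F P,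
      (144 * (jC B Q k {L} : ℤ) - Xv 149 B Q T U F P k {L}) ≤
      -5 * ∑ k ∈ Trs B Q T (Rg B Q T U F) U F P, (jC B Q k {L} : ℤ) - X) :
    msC 149 B Q T U F P a {L} ≤ -560 ∨
    msC 149 B Q T U F P a {L} ≤ 144 * (jh B Q j L : ℤ) - 440 - 120 * (dv B Q L + 1) -
      5 * (hit B ((Q \ (B j ∩ Q)) \ L) L : ℤ) - 115 * (hit B U L : ℤ) - X := by
  have hLF := s.leafF hL
  have hjT : j ∈ T := by
    have h1 : j ∈ aC B Q T U F P {L} := by rw [hq]; exact mem_singleton_self j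
    exact (s.tl_sub (mem_filter.1 h1).1).1
  have h1 := s.ms_one 149 hL
  have how : Sp.owl U (slf B F) P (lj B Q U F P) a j {L} = 0 := by
    have h2 : Sp.UU U (slf B F) P (lj B Q U F P j) = ∅ := ho
    unfold Sp.owl Sp.ld
    rw [h2, sum_empty]
  rw [hq, sum_singleton, hK, sum_empty, how] at h1
  simp only [s.jC_one] at h2
  have h3 := s.trs_hits hL hq hK
  obtain ⟨hld, hld5⟩ := s.ld_one hL
  obtain ⟨_, hdv, hd1⟩ := s.viol.even_dv s.frm hLF
  have h4 := s.viol.places s.frm hjT hLF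
  have h5 : ((dv B Q L + 1).toNat : ℤ) = dv B Q L + 1 := Int.toNat_of_nonneg (by omega)
  have hN := s.one hLF
  have h6 : (6 : ℤ) * (jh B Q j L + hit B ((Q \ (B j ∩ Q)) \ L) L) + 23 * ee B Q L +
      nt B L 1 ≤ 5 * (dv B Q L + 1) + 55 := by
    rw [← h5]
    unfold jh
    exact_mod_cast h4
  have h7 := hN.gn
  have h8 : (0 : ℤ) ≤ ∑ k ∈ Trs B Q T (Rg B Q T U F) U F P, (jh B Q k L : ℤ) :=
    sum_nonneg fun _ _ => by positivity
  have h9 : (0 : ℤ) ≤ ee B Q L := by positivity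
  have h10 : (0 : ℤ) ≤ jh B Q j L := by positivity
  have h11 : (0 : ℤ) ≤ hit B U L := by positivity
  have hldz : (Sp.ld (Sp.Ux U (slf B F) P) a {L} : ℤ) ≤ 5 := by exact_mod_cast hld5
  have hldw : (Sp.ld (Sp.Ux U (slf B F) P) a {L} : ℤ) = 5 ∨
      (hit B U L : ℤ) ≤ (Sp.ld (Sp.Ux U (slf B F) P) a {L} : ℤ) :=
    hld.imp_left fun h => by exact_mod_cast h
  push_cast at h1
  rcases le_or_gt (hit B U L : ℤ) 5 with h12 | h12
  · right
    rcases hldw with h13 | h13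
    · rw [h13] at h1
      linarith
    · linarith
  · left
    rcases hldw with h13 | h13
    · rw [h13] at h1
      linarith
    · exfalso
      linarith

/-- one remaining triple pays more. -/
theorem trs_more (s : Stg B Q T U F P a) (hL : {L} ∈ P) (hB : NCt B Q T U F P {L}) {X : ℤ}
    {l : ι} (hl : l ∈ Trs B Q T (Rg B Q T U F) U F P)
    (hlX : 144 * (jC B Q l {L} : ℤ) - Xv 149 B Q T U F P l {L} ≤
      -5 * (jC B Q l {L} : ℤ) - X) :
    ∑ k ∈ Trs B Q T (Rg B Q T U F) U F P,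
      (144 * (jC B Q k {L} : ℤ) - Xv 149 B Q T U F P k {L}) ≤
      -5 * ∑ k ∈ Trs B Q T (Rg B Q T U F) U F P, (jC B Q k {L} : ℤ) - X := by
  rw [← add_sum_erase _ _ hl, ← add_sum_erase _ (fun k => (jC B Q k {L} : ℤ)) hl]
  have h1 : ∑ k ∈ (Trs B Q T (Rg B Q T U F) U F P).erase l,
      (144 * (jC B Q k {L} : ℤ) - Xv 149 B Q T U F P k {L}) ≤
      ∑ k ∈ (Trs B Q T (Rg B Q T U F) U F P).erase l, -5 * (jC B Q k {L} : ℤ) :=
    sum_le_sum fun k hk => s.trs_le' (mem_of_mem_erase hk) hL hB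
  rw [← mul_sum] at h1
  linarith

end Stg

namespace StgR

variable {Q U : Finset V} {T : Finset ι} {F : Finset (Finset V)}
  {P : Finset (Finset (Finset V))} {a : V → Finset (Finset V) → ℕ} {L : Finset V} {j : ι}

/-- the hits elsewhere are the hits at the other end. -/
theorem else_eq (s : StgR B Q T U F P a) (hj : j ∈ tl B Q T U F P)
    {D : Finset (Finset V)} (hL : {L} ∈ P) (hLD : {L} ≠ D)
    (hl : lj B Q U F P j = {{L}, D}) :
    ∑ M ∈ F.erase L, jh B Q j M = jC B Q j D := by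
  have h1 := s.toStg.jC_pair hj hLD hl
  have h2 : ∑ M ∈ F, jh B Q j M = jh B Q j L + ∑ M ∈ F.erase L, jh B Q j M :=
    (add_sum_erase _ _ (s.toStg.leafF hL)).symm
  unfold uj at h1
  rw [s.toStg.jC_one] at h1
  have h3 : ((∑ M ∈ F, jh B Q j M : ℕ) : ℤ) = ∑ M ∈ F, (jh B Q j M : ℤ) := by push_cast; rfl
  rw [← h3, h2] at h1
  push_cast at h1
  have h4 : ((∑ M ∈ F.erase L, jh B Q j M : ℕ) : ℤ) = (jC B Q j D : ℤ) := by
    push_cast
    linarith
  exact_mod_cast h4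

/-- **a private point with six hits**: the payment at the other end. -/
theorem rest_point (s : StgR B Q T U F P a) (hj : j ∈ tl B Q T U F P)
    {D : Finset (Finset V)} (hL : {L} ∈ P) (hLD : {L} ≠ D) (hl : lj B Q U F P j = {{L}, D})
    (hq : aC B Q T U F P {L} = {j}) (ho : oj B Q U F P j = ∅) (hN : NCt B Q T U F P {L})
    (hK : Sp.Kin (Rg B Q T U F) (slj B Q F) {L} = ∅) (h1 : L.card = 1) (hd : dv B Q L = 1)
    (hW : 3 ≤ hit B ((Q \ (B j ∩ Q)) \ L) L) (h6 : jh B Q j L = 6)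
    (hc : ¬ (1 ≤ ncl B Q T U F P j ∧ 6 + jC B Q j D + ncl B Q T U F P j ≤ 8))
    (hDb : hit B U L = 0 → jC B Q j D = 3 → ncl B Q T U F P j = 0 →
      ∀ (i k0 : ι) (a b c x : V), L = {x} → Pex3 B Q T U F j i k0 a b c x → c ∈ B k0 → False) :
    payT (ncl B Q T U F P j) (jh B Q j L) (jC B Q j D) ≤
      8 + 16 * (12 - (jh B Q j L : ℤ) - jC B Q j D) + tF B Q T U F P j -
        msC 149 B Q T U F P a {L} := by
  obtain ⟨x, rfl⟩ := card_eq_one.1 h1
  have hjT := (s.toStg.tl_sub hj).1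
  have hxF := s.toStg.leafF hL
  have hfree := s.toStg.free_own (s.toStg.own_par hL)
  have hxD := s.frm.FD hxF (mem_singleton_self x)
  have hel := s.else_eq hj hL hLD hl
  have htF := Stg.tF_ge (B := B) (Q := Q) (T := T) (U := U) (F := F) (P := P) j
  obtain ⟨e1, e2⟩ := s.toStg.jC_two hj hLD hl
  have hpay : payT (ncl B Q T U F P j) (jh B Q j {x}) (jC B Q j D) =
      payE (ncl B Q T U F P j) (jC B Q j D) := by
    unfold payT
    rw [if_neg (by omega)]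
  rw [hpay]
  have h2 : ∑ k ∈ Trs B Q T (Rg B Q T U F) U F P,
      (144 * (jC B Q k {{x}} : ℤ) - Xv 149 B Q T U F P k {{x}}) ≤
      -5 * ∑ k ∈ Trs B Q T (Rg B Q T U F) U F P, (jC B Q k {{x}} : ℤ) - 0 := by
    rw [sub_zero, mul_sum]
    exact sum_le_sum fun k hk => s.toStg.trs_le' hk hL hN
  -- at most four hits elsewhere; the pattern for three hits
  have hpex : ∑ M ∈ F.erase {x}, jh B Q j M ≤ 2 ∨ ∃ (i k0 : ι) (a b c : V),
      Pex3 B Q T U F j i k0 a b c x ∧ ∑ M ∈ F.erase {x}, jh B Q j M =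
          mh B b ((F.erase {x}).biUnion id) + mh B c ((F.erase {x}).biUnion id) := by
    rcases s.mtr.toMTQ.point_main3 s.viol.reg hjT hxF hfree (fun p hp =>
      s.viol.twin (Frm.DQ hxD) (mem_inter.1 hp).2 (by
        rintro rfl
        exact Frm.T_notD (Q := Q) hjT (mem_inter.1 hp).1 hxD)) (le_of_eq h6.symm) with h3 | ⟨_, h3⟩
    · exact Or.inl h3
    · exact Or.inr h3
  have hn4 : jC B Q j D ≤ 4 := by
    rcases hpex with h3 | ⟨i, k0, a, b, c, h3, h4⟩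
    · omega
    · have := h3.hm4
      omega
  have hdon : 1 ≤ ncl B Q T U F P j → jC B Q j D + ncl B Q T U F P j = 3 := by
    intro h3
    rcases s.donor_six hL hj (le_of_eq h6.symm) h3 with h4 | ⟨h4, _⟩ <;> omega
  rw [h6]
  have hm : ∀ {X : ℤ}, (msC 149 B Q T U F P a {{x}} ≤ -560 ∨
      msC 149 B Q T U F P a {{x}} ≤ 144 * (jh B Q j {x} : ℤ) - 440 - 120 * (dv B Q {x} + 1) -
      5 * (hit B ((Q \ (B j ∩ Q)) \ {x}) {x} : ℤ) - 115 * (hit B U {x} : ℤ) - X) →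
      (msC 149 B Q T U F P a {{x}} ≤ -560 ∨ msC 149 B Q T U F P a {{x}} ≤
        184 - 5 * (hit B ((Q \ (B j ∩ Q)) \ {x}) {x} : ℕ) - 115 * (hit B U {x} : ℕ) - X) := by
    intro X h
    rw [h6, hd] at h
    rcases h with h | h
    · exact Or.inl h
    · right
      push_cast at h ⊢
      linarith
  have hm0 := hm (s.toStg.ms_privX hL hq ho hK (le_refl 0) h2)
  by_cases hg : 1 ≤ hit B U {x}
  · exact pt_num hm0 (le_refl 0) e2 hn4 hW htF hdon (Or.inl hg)
  have g0 : hit B U {x} = 0 := by omega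
  obtain ⟨_, h7⟩ := s.six_cases hL hq hK hN g0 (le_of_eq h6.symm)
  rw [hel] at h7
  -- four hits outside for four hits elsewhere
  have hW4 : jC B Q j D = 4 → 4 ≤ hit B ((Q \ (B j ∩ Q)) \ {x}) {x} := by
    intro h3
    rcases hpex with h4 | ⟨i, k0, a, b, c, h4, h5⟩
    · omega
    · have hck : c ∉ B k0 := by
        rcases h4.ck with h8 | h8
        · exact h8
        · omega
      exact (h4.pxf hck).four_out s.viol s.mtr g0
        ((h4.pxf hck).c_sees_big g0 s.mtr s.viol.reg h4.hm3)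
  rcases h7 with ⟨h8, h9⟩ | ⟨h8, h9⟩ | ⟨h8, h9, h10, h11⟩ | ⟨h8, h9, h10⟩ |
    ⟨h8, h9, l, h10, h11⟩ | ⟨h8, h9, i, k0, a, b, c, h10, h11⟩
  · exact pt_num hm0 (le_refl 0) e2 hn4 hW htF hdon (Or.inr (Or.inl ⟨h8, h9⟩))
  · omega
  · refine pt_num hm0 (le_refl 0) e2 hn4 hW htF hdon (Or.inr (Or.inr ?_))
    rcases (by omega : jC B Q j D = 3 ∨ jC B Q j D = 4) with h12 | h12
    · exact Or.inl ⟨h12, by omega⟩
    · exact Or.inr (Or.inl ⟨h12, by omega, hW4 h12⟩)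
  · exact pt_num hm0 (le_refl 0) e2 hn4 hW htF hdon (Or.inr (Or.inr (Or.inr (Or.inr
      ⟨h8, by omega⟩))))
  · have hm1 := hm (s.toStg.ms_privX hL hq ho hK (by norm_num) (s.toStg.trs_more hL hN h10 h11))
    refine pt_num hm1 (by norm_num) e2 hn4 hW htF hdon (Or.inr ?_)
    rcases Nat.eq_zero_or_pos (ncl B Q T U F P j) with h12 | h12
    · rw [h12] at htF
      rcases (by omega : jC B Q j D ≤ 2 ∨ jC B Q j D = 3 ∨ jC B Q j D = 4) with h13 | h13 | h13
      · exact Or.inl ⟨h13, h12⟩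
      · exact Or.inr (Or.inl ⟨h13, by push_cast at htF; linarith⟩)
      · exact Or.inr (Or.inr (Or.inl ⟨h13, by push_cast at htF; linarith, hW4 h13⟩))
    · exact Or.inr (Or.inr (Or.inr ⟨h12, by linarith⟩))
  · exact (hDb g0 h9 h8 i k0 a b c x rfl h10 h11).elim

end StgR

end Pool.Agent.Hyp6
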