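import Pool.Agent.Hyp6.L3RB
import Pool.Agent.Hyp6.CfS
import Pool.Agent.Hyp6.Cfg7

/-!
# HYP6 L3TQ: the tight case of Lemma A for value at least one

`TT`: the trace of the full block `i` and one more point form `X`, the rest is connected and critical
with value `-1` and `dv = -1`. The rest contains a full block `j`; `TQ` is the configuration with its
closure `Z` in the rest.
-/

set_option autoImplicit false

namespace Pool.Agent.Hyp6

open Finset Pool.Agent.Hyp5

universe u v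

/-! ### Hall's condition, abstract form -/

section hall

variable {V : Type v} [DecidableEq V] {ι : Type u} [Fintype ι] {B : ι → Finset V}

/-- fewer than `|A|` components are attached only inside `A`. -/
theorem card_FA_lt_of {W : Finset V} {F : Finset (Finset V)} (hc : ∀ D ∈ F, Cov B D)
    (hcr : ∀ D ∈ F, Crit B D) (hatt : ∀ D ∈ F, ∃ z ∈ W, (Ez B D z).Nonempty)
    (hJA : ∀ A ⊆ W, A.Nonempty → ¬ JA B (FA B W F A) A) :
    ∀ {A : Finset V}, A ⊆ W → A.Nonempty → (FA B W F A).card < A.card := by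
  classical
  intro A
  induction A using Finset.strongInduction with
  | H A ihA =>
    intro hA hne
    by_contra hcon
    push Not at hcon
    set t : {z // z ∈ A} → Finset (Finset V) := fun z =>
      (FA B W F A).filter (fun D => (Ez B D z.1).Nonempty) with ht
    have hall : ∀ s : Finset {z // z ∈ A}, s.card ≤ (s.biUnion t).card := by
      intro s
      rcases s.eq_empty_or_nonempty with rfl | hs
      · simp
      set S : Finset V := s.map (Function.Embedding.subtype _) with hS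
      have hSc : S.card = s.card := card_map _
      have hSA : S ⊆ A := by
        intro v hv
        rw [hS, mem_map] at hv
        obtain ⟨w, _, rfl⟩ := hv
        exact w.2
      have hSne : S.Nonempty := by
        rw [← card_pos, hSc]
        exact card_pos.2 hs
      have h1 : FA B W F A ⊆ s.biUnion t ∪ FA B W F (A \ S) := by
        intro D hD
        by_cases h2 : ∃ z ∈ S, (Ez B D z).Nonempty
        · obtain ⟨z, hz, hzE⟩ := h2
          rw [hS, mem_map] at hz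
          obtain ⟨w, hw, rfl⟩ := hz
          refine mem_union_left _ (mem_biUnion.2 ⟨w, hw, ?_⟩)
          rw [ht]
          exact mem_filter.2 ⟨hD, hzE⟩
        · push Not at h2
          refine mem_union_right _ ?_
          rw [mem_FA] at hD ⊢
          refine ⟨hD.1, fun z hz hzE => mem_sdiff.2 ⟨hD.2 z hz hzE, fun hzS => ?_⟩⟩
          rw [h2 z hzS] at hzE
          exact absurd hzE (by simp)
      have h2 := (card_le_card h1).trans (card_union_le _ _)
      have h3 := card_sdiff_add_card_eq_card hSA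
      rcases (A \ S).eq_empty_or_nonempty with h4 | h4
      · have h5 : FA B W F (A \ S) = ∅ := by
          rw [eq_empty_iff_forall_notMem]
          intro D hD
          rw [mem_FA] at hD
          obtain ⟨z, hz, hzE⟩ := hatt D hD.1
          have := hD.2 z hz hzE
          rw [h4] at this
          exact absurd this (notMem_empty _)
        rw [h5, card_empty] at h2
        rw [h4, card_empty] at h3
        omega
      · have h5 : A \ S ⊂ A := by
          refine ⟨sdiff_subset, fun hcon2 => ?_⟩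
          obtain ⟨z, hz⟩ := hSne
          exact (mem_sdiff.1 (hcon2 (hSA hz))).2 hz
        have h6 := ihA (A \ S) h5 (sdiff_subset.trans hA) h4
        omega
    obtain ⟨f, hf1, hf2⟩ := (all_card_le_biUnion_card_iff_exists_injective t).1 hall
    refine hJA A hA hne
      (JA_of (fun D => A.filter (fun z => ∃ hz : z ∈ A, f ⟨z, hz⟩ = D)) ?_ ?_)
    · intro D hD
      have hDF := (mem_FA.1 hD).1
      rcases (A.filter (fun z => ∃ hz : z ∈ A, f ⟨z, hz⟩ = D)).eq_empty_or_nonempty with h1 | h1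
      · rw [h1]
        exact Abz.empty (hc D hDF)
      · obtain ⟨z, hz⟩ := h1
        obtain ⟨hzA, _, hfz⟩ := mem_filter.1 hz
        have h2 : A.filter (fun z => ∃ hz : z ∈ A, f ⟨z, hz⟩ = D) ⊆ {z} := by
          intro y hy
          obtain ⟨hyA, _, hfy⟩ := mem_filter.1 hy
          rw [mem_singleton]
          have := hf1 (hfy.trans hfz.symm)
          exact congrArg Subtype.val this
        have h3 := hf2 ⟨z, hzA⟩
        rw [hfz, ht] at h3
        exact ((hcr D hDF).pt1 (hc D hDF) (mem_filter.1 h3).2).mono h2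
    · intro z hz
      refine mem_biUnion.2 ⟨f ⟨z, hz⟩, ?_, mem_filter.2 ⟨hz, hz, rfl⟩⟩
      exact (mem_filter.1 (hf2 ⟨z, hz⟩)).1

/-- Hall's condition with surplus one. -/
theorem hall_of {W : Finset V} {F : Finset (Finset V)} (hc : ∀ D ∈ F, Cov B D)
    (hcr : ∀ D ∈ F, Crit B D) (hatt : ∀ D ∈ F, ∃ z ∈ W, (Ez B D z).Nonempty)
    (hJA : ∀ A ⊆ W, A.Nonempty → ¬ JA B (FA B W F A) A) {S : Finset (Finset V)} (hS : S ⊆ F)
    (hne : S.Nonempty) : S.card + 1 ≤ (nbX B W S).card := by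
  have h1 : S ⊆ FA B W F (nbX B W S) := by
    intro L hL
    rw [mem_FA]
    exact ⟨hS hL, fun z hz hzE => mem_nbX.2 ⟨hz, L, hL, hzE⟩⟩
  have h2 : (nbX B W S).Nonempty := by
    obtain ⟨L, hL⟩ := hne
    obtain ⟨z, hz, hzE⟩ := hatt L (hS hL)
    exact ⟨z, mem_nbX.2 ⟨hz, L, hL, hzE⟩⟩
  have h3 := card_FA_lt_of hc hcr hatt hJA (fun z hz => (mem_nbX.1 hz).1) h2
  have h4 := card_le_card h1
  omega

end hall

variable {V : Type v} [DecidableEq V] {ι : Type u} [Fintype ι] {B : ι → Finset V}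
variable {Q X Z : Finset V} {F : Finset (Finset V)} {i j : ι}

/-- the tight case. -/
structure TT (B : ι → Finset V) (Q X : Finset V) (i : ι) : Prop extends VCR B Q X {Q \ X} i where
  x4 : X.card = 4
  n1 : (ins B Q X).card = 1
  s1 : sv B Q = 1
  d1 : dv B Q Q = -1
  sL : sv B (Q \ X) = -1
  dL : dv B Q (Q \ X) = -1

theorem TT.cL (h : TT B Q X i) : Conn (gr B) (Q \ X) :=
  (h.clo.parts (Q \ X) (by simp)).2.2

theorem TT.kL (h : TT B Q X i) : Crit B (Q \ X) := h.clo.crit (Q \ X) (by simp)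

theorem TT.covL (h : TT B Q X i) : Cov B (Q \ X) := h.cov.mono sdiff_subset

/-- at least four hits on the rest. -/
theorem TT.row4 (h : TT B Q X i) {z : V} (hz : z ∈ X) : 4 ≤ (Ez B (Q \ X) z).card := by
  have h1 := h.clo.row h.reg hz
  rw [sum_singleton] at h1
  have h2 := card_filter_le (ins B Q X) (fun i => z ∈ B i)
  have h3 := h.n1
  omega

/-- **the rest contains a full block.** -/
theorem TT.second (h : TT B Q X i) : ∃ j, (B j ∩ (Q \ X)).card = 3 := by
  classical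
  by_contra hcon
  push Not at hcon
  have htr : ∀ k, (B k ∩ (Q \ X)).card ≤ 2 := by
    intro k
    have h1 := h.tr k
    have h2 : (B k ∩ (Q \ X)).card ≤ (B k ∩ Q).card :=
      card_le_card (inter_subset_inter_left sdiff_subset)
    have h3 := hcon k
    omega
  obtain ⟨v0, _⟩ := h.Xne
  set l := X.toList with hl
  have hlen : l.length = 4 := by rw [hl, length_toList, h.x4]
  have hnd : l.Nodup := nodup_toList _
  set x : ℕ → V := fun a => l.getD a v0 with hx
  have hxX : ∀ v, v ∈ X ↔ ∃ a < 4, x a = v := by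
    intro v
    rw [← mem_toList, ← hl, mem_iff_getD (d := v0), hlen]
  have hxm : ∀ a < 4, x a ∈ X := fun a ha => (hxX _).2 ⟨a, ha, rfl⟩
  have hcf : Cf B Q 4 1 x (fun _ => Q \ X) 1 := by
    refine ⟨h.reg, h.tr, ?_, fun a ha => h.clo.sub (hxm a ha), fun _ _ => sdiff_subset, ?_, ?_,
      ?_, ?_, fun _ _ => h.cL, fun _ _ => h.kL, ?_⟩
    · intro a ha b hb he
      exact getD_inj hnd (by omega) (by omega) he
    · intro a ha b hb hc
      exact (mem_sdiff.1 hc).2 (hxm a ha)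
    · intro v hv
      by_cases hvX : v ∈ X
      · obtain ⟨a, ha, he⟩ := (hxX v).1 hvX
        exact Or.inl ⟨a, ha, he.symm⟩
      · exact Or.inr ⟨0, by norm_num, mem_sdiff.2 ⟨hv, hvX⟩⟩
    · intro a ha b hb hne
      omega
    · intro a ha b hb hne
      omega
    · rw [sum_range_one]
      exact h.clo.rhoX.le
  obtain ⟨p, hp, hp1, _⟩ := hcf.cap (j := 0) (kp := 0) (by norm_num) htr h.sL
    (by rw [kpv_eq, h.dL]; norm_num) (Or.inl rfl)
  have h4 : ∀ a ∈ range 4, 4 ≤ (cxs B (Q \ X) (ptm x 4 (2 ^ a))).card := by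
    intro a ha
    rw [mem_range] at ha
    refine (h.row4 (hxm a ha)).trans (card_le_card fun k hk => ?_)
    rw [mem_Ez] at hk
    exact (mem_cxs_bit ha).2 ⟨hk.2, hk.1⟩
  have h5 : ∑ _a ∈ range 4, 4 ≤ ∑ a ∈ range 4, (cxs B (Q \ X) (ptm x 4 (2 ^ a))).card :=
    sum_le_sum h4
  rw [sum_const, card_range, smul_eq_mul] at h5
  have h6 : p.1 ≤ 9 := by
    simp only [ctb, if_true, List.mem_cons, List.not_mem_nil, or_false] at hp
    rcases hp with rfl | rfl <;> simp
  omega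

/-- the configuration of the tight case. -/
structure TQ (B : ι → Finset V) (Q X Z : Finset V) (F : Finset (Finset V)) (i j : ι) : Prop
    extends TT B Q X i where
  fj : (B j ∩ Q).card = 3
  jL : B j ∩ Q ⊆ Q \ X
  jZ : B j ∩ Q ⊆ Z
  cz : Clo B (Q \ X) Z F

theorem TT.exists_TQ (h : TT B Q X i) : ∃ Z F j, TQ B Q X Z F i j := by
  obtain ⟨j, hj⟩ := h.second
  have h1 : B j ∩ (Q \ X) ⊆ B j ∩ Q := inter_subset_inter_left sdiff_subset
  have h2 : B j ∩ (Q \ X) = B j ∩ Q := eq_of_subset_of_card_le h1 (by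
    have := h.tr j
    omega)
  obtain ⟨Z, F, hP, hC⟩ := exists_clo h.kL h.covL (P := B j ∩ (Q \ X)) inter_subset_left
    inter_subset_right (card_pos.1 (by omega))
  rw [h2] at hj hP
  exact ⟨Z, F, j, h, hj, h2 ▸ inter_subset_right, hP, hC⟩

namespace TQ

theorem ZL (h : TQ B Q X Z F i j) : Z ⊆ Q \ X := h.cz.sub

theorem XZ (h : TQ B Q X Z F i j) : Disjoint X Z :=
  disjoint_left.2 fun _ hv hv' => (mem_sdiff.1 (h.ZL hv')).2 hv

theorem Zne (h : TQ B Q X Z F i j) : Z.Nonempty := by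
  rw [← card_pos]
  have h1 := card_le_card h.jZ
  rw [h.fj] at h1
  omega

theorem cardF (h : TQ B Q X Z F i j) : F.card + 1 = Z.card ∧ ∀ D ∈ F, sv B D = -1 :=
  h.cz.card_eq h.kL h.covL h.cL h.sL h.Zne

theorem subQ (h : TQ B Q X Z F i j) {D : Finset V} (hD : D ∈ F) : D ⊆ Q :=
  (h.cz.subC hD).trans sdiff_subset

theorem covD (h : TQ B Q X Z F i j) {D : Finset V} (hD : D ∈ F) : Cov B D :=
  h.cov.mono (h.subQ hD)

theorem notX (h : TQ B Q X Z F i j) {D : Finset V} (hD : D ∈ F) {z : V} (hz : z ∈ X) : z ∉ D :=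
  fun hzD => (mem_sdiff.1 (h.cz.subC hD hzD)).2 hz

theorem cp (h : TQ B Q X Z F i j) {D : Finset V} (hD : D ∈ F) : Cp3 B Q D := by
  refine ⟨h.ih, h.reg, h.tr, h.conn, h.subQ hD, (h.cz.parts D hD).2.2, ?_⟩
  have h1 := card_le_card (h.cz.subC hD)
  have h2 := card_sdiff_add_card_eq_card h.clo.sub
  have h3 := h.x4
  omega

/-- the cover number. -/
theorem rhoQ (h : TQ B Q X Z F i j) : rho B Q = ∑ D ∈ F, rho B D + 2 := by
  have h1 := h.clo.rhoX
  have h2 := h.cz.rhoX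
  have h3 := h.cz.sum_rho h.covL
  omega

theorem rhoL (h : TQ B Q X Z F i j) : rho B (Q \ X) = ∑ D ∈ F, rho B D + 1 := by
  have h2 := h.cz.rhoX
  have h3 := h.cz.sum_rho h.covL
  omega

/-- the exact sum of the values. -/
theorem sum_dv (h : TQ B Q X Z F i j) : ∑ D ∈ F, dv B Q D =
    23 + 2 * (ee B Q Z : ℤ) - 5 * (Z.card : ℤ) - 4 * ((ins B (Q \ X) Z).card : ℤ) := by
  have h1 := h.cz.sum_Pv h.covL
  have h2 : ee B Q (Q \ X) = ∑ D ∈ F, ee B Q D + ee B Q Z := by
    rw [← ee_biUnion h.cz.sep, h.cz.un, ← ee_union sdiff_disjoint,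
      sdiff_union_of_subset h.cz.sub]
  have h3 : ∑ D ∈ F, dv B Q D = ∑ D ∈ F, Pv B D - 2 * ∑ D ∈ F, (ee B Q D : ℤ) := by
    unfold dv
    rw [sum_sub_distrib, ← mul_sum]
  have c1 : (ee B Q (Q \ X) : ℤ) = ∑ D ∈ F, (ee B Q D : ℤ) + ee B Q Z := by
    rw [h2]
    push_cast
    ring
  have h4 := h.dL
  unfold dv at h4
  rw [h3, h1]
  linarith

theorem even (h : TQ B Q X Z F i j) {D : Finset V} (hD : D ∈ F) : (dv B Q D + 1) % 2 = 0 := by
  have h1 := Pp_even (B := B) D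
  have h2 := Pv_eq_Pp (B := B) D
  rw [h.cardF.2 D hD] at h2
  unfold dv
  omega

theorem nonneg (h : TQ B Q X Z F i j) {D : Finset V} (hD : D ∈ F) : 0 ≤ dv B Q D + 1 := by
  have := (h.cp hD).d_ge
  linarith

/-- Hall's condition inside the rest. -/
theorem hall1 (h : TQ B Q X Z F i j) {S : Finset (Finset V)} (hS : S ⊆ F) (hne : S.Nonempty) :
    S.card + 1 ≤ (nbX B Z S).card :=
  h.cz.hall h.kL h.covL h.cL h.Zne hS hne

theorem jQ (_ : TQ B Q X Z F i j) : B j ∩ Q ⊆ Q := inter_subset_right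

/-- no block meets a component and another part except through `X` and `Z`. -/
theorem sep_FA (h : TQ B Q X Z F i j) (A : Finset V) :
    Sep B ((FA B ((X ∪ Z) \ (B j ∩ Q)) F A).biUnion id)
      (Q \ (B j ∩ Q ∪ ((FA B ((X ∪ Z) \ (B j ∩ Q)) F A).biUnion id ∪ A))) := by
  intro k hk hk2
  obtain ⟨u, hu⟩ := hk
  obtain ⟨m, hm⟩ := hk2
  rw [mem_inter, mem_biUnion] at hu
  obtain ⟨huk, L, hL, huL⟩ := hu
  rw [mem_inter, mem_sdiff, mem_union, mem_union, not_or, not_or] at hm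
  obtain ⟨hmk, hmQ, hmj, hmN, hmA⟩ := hm
  have hLF := (mem_FA.1 hL).1
  by_cases hmX : m ∈ X ∪ Z
  · exact hmA ((mem_FA.1 hL).2 m (mem_sdiff.2 ⟨hmX, hmj⟩)
      ⟨k, mem_Ez.2 ⟨hmk, u, mem_inter.2 ⟨huk, huL⟩⟩⟩)
  · rw [mem_union, not_or] at hmX
    have hmL : m ∈ L := by
      by_cases hum : u = m
      · rw [← hum]
        exact huL
      · exact (h.cz.parts L hLF).2.1.2 u huL m
          (mem_sdiff.2 ⟨mem_sdiff.2 ⟨hmQ, hmX.1⟩, hmX.2⟩) ⟨hum, k, huk, hmk⟩
    exact hmN (mem_biUnion.2 ⟨L, hL, hmL⟩)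

/-- a set `N` separated from the rest of `Q` outside `B j` and `A`, both nonempty, with the same
cover number: impossible. -/
theorem not_sep (h : TQ B Q X Z F i j) {N A : Finset V} (hNQ : N ⊆ Q \ (B j ∩ Q))
    (hAQ : A ⊆ Q \ (B j ∩ Q)) (hNA : Disjoint N A) (hN : N.Nonempty)
    (hsep : Sep B N (Q \ (B j ∩ Q ∪ (N ∪ A))))
    (hrho : rho B (N ∪ A) ≤ rho B N) (hX : ∀ z ∈ X, z ∉ N) : False := by
  classical
  set M := Q \ (B j ∩ Q ∪ (N ∪ A)) with hM
  have hNc : Cov B N := h.cov.mono (hNQ.trans sdiff_subset)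
  have hMc : Cov B M := h.cov.mono sdiff_subset
  have hun : Q \ (B j ∩ Q) = (N ∪ A) ∪ M := by
    ext v
    have h1 : v ∈ N → v ∈ Q ∧ v ∉ B j ∩ Q := fun hv => mem_sdiff.1 (hNQ hv)
    have h2 : v ∈ A → v ∈ Q ∧ v ∉ B j ∩ Q := fun hv => mem_sdiff.1 (hAQ hv)
    rw [hM, mem_union, mem_union, mem_sdiff, mem_sdiff, mem_union, mem_union]
    tauto
  have hun2 : Q \ (B j ∩ Q ∪ A) = N ∪ M := by
    ext v
    have h1 : v ∈ N → v ∈ Q ∧ v ∉ B j ∩ Q := fun hv => mem_sdiff.1 (hNQ hv)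
    have h2 : v ∈ N → v ∉ A := fun hv => disjoint_left.1 hNA hv
    rw [hM, mem_union, mem_sdiff, mem_sdiff, mem_union, mem_union, mem_union]
    tauto
  have h1 : rho B (Q \ (B j ∩ Q)) ≤ rho B (N ∪ A) + rho B M := by
    rw [hun]
    exact rho_union_le (h.cov.mono (union_subset (hNQ.trans sdiff_subset)
      (hAQ.trans sdiff_subset))) hMc
  have h2 : rho B (Q \ (B j ∩ Q ∪ A)) = rho B N + rho B M := by
    rw [hun2, rho_add hNc hMc hsep]
  have h3 := h.rhoT h.fj
  have h4 : rho B (Q \ (B j ∩ Q ∪ A)) ≤ rho B (Q \ (B j ∩ Q)) :=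
    rho_mono (sdiff_subset_sdiff (Subset.refl _) subset_union_left) (h.cov.mono sdiff_subset)
  have h5 : rho B (Q \ (B j ∩ Q ∪ A)) + 1 = rho B Q := by omega
  obtain ⟨h6, h7⟩ := h.sep1 h.fj (P := B j ∩ Q ∪ A)
    (union_subset inter_subset_right (hAQ.trans sdiff_subset)) subset_union_left h5
  -- `A` has at most one point
  have h8 : A.card ≤ 1 := by
    have h9 : (B j ∩ Q ∪ A).card = 3 + A.card := by
      rw [card_union_of_disjoint, h.fj]
      rw [disjoint_left]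
      intro v hv hv'
      exact (mem_sdiff.1 (hAQ hv')).2 hv
    omega
  -- a point of `X` outside `A`
  obtain ⟨z, hzX, hzA⟩ : ∃ z ∈ X, z ∉ A := by
    by_contra hcon
    push Not at hcon
    have h9 := card_le_card (show X ⊆ A from hcon)
    have := h.x4
    omega
  have hzM : z ∈ M := by
    rw [hM, mem_sdiff, mem_union, mem_union, not_or, not_or]
    exact ⟨h.clo.sub hzX, fun hc => (mem_sdiff.1 (h.jL hc)).2 hzX, hX z hzX, hzA⟩
  -- the rest is not connected
  have hne : N ≠ Q \ (B j ∩ Q ∪ A) := by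
    intro he
    have h9 : z ∈ N := by
      rw [he, hun2]
      exact mem_union_right _ hzM
    exact hX z hzX h9
  have hsub : N ⊆ Q \ (B j ∩ Q ∪ A) := by
    rw [hun2]
    exact subset_union_left
  obtain ⟨p, hp, q, hq, hqN, hadj⟩ := h6.exists_edge hsub hN hne
  have hqM : q ∈ M := by
    rw [hun2] at hq
    rcases mem_union.1 hq with hq | hq
    · exact absurd hq hqN
    · exact hq
  obtain ⟨_, k, hk1, hk2⟩ := hadj
  exact hsep k ⟨p, mem_inter.2 ⟨hk1, hp⟩⟩ ⟨q, mem_inter.2 ⟨hk2, hqM⟩⟩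

theorem partQ (h : TQ B Q X Z F i j) {D : Finset V} (hD : D ∈ F) : D ⊆ Q \ (B j ∩ Q) := by
  intro v hv
  rw [mem_sdiff]
  exact ⟨h.subQ hD hv, fun hc => h.cz.notMem hD (h.jZ hc) hv⟩

/-- a family absorbing a set attached to it only: impossible. -/
theorem not_fam (h : TQ B Q X Z F i j) {A : Finset V} (hA : A ⊆ (X ∪ Z) \ (B j ∩ Q))
    (hne : (FA B ((X ∪ Z) \ (B j ∩ Q)) F A).Nonempty)
    (hrho : rho B ((FA B ((X ∪ Z) \ (B j ∩ Q)) F A).biUnion id ∪ A) ≤
      ∑ D ∈ FA B ((X ∪ Z) \ (B j ∩ Q)) F A, rho B D) : False := by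
  classical
  set S := FA B ((X ∪ Z) \ (B j ∩ Q)) F A with hS
  have hSF : S ⊆ F := fun D hD => (mem_FA.1 hD).1
  have hrN : rho B (S.biUnion id) = ∑ D ∈ S, rho B D :=
    rho_biUnion (fun D hD => h.covD (hSF hD)) (h.cz.sep.mono hSF)
  have hXZQ : X ∪ Z ⊆ Q := union_subset h.clo.sub (h.ZL.trans sdiff_subset)
  refine h.not_sep (N := S.biUnion id) (A := A) ?_ ?_ ?_ ?_ (h.sep_FA A) (hrho.trans hrN.ge) ?_
  · intro v hv
    obtain ⟨D, hD, hvD⟩ := mem_biUnion.1 hv
    exact h.partQ (hSF hD) hvD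
  · exact hA.trans (sdiff_subset_sdiff hXZQ (Subset.refl _))
  · rw [disjoint_left]
    intro v hv hv'
    obtain ⟨D, hD, hvD⟩ := mem_biUnion.1 hv
    rcases mem_union.1 (mem_sdiff.1 (hA hv')).1 with h1 | h1
    · exact h.notX (hSF hD) h1 hvD
    · exact h.cz.notMem (hSF hD) h1 hvD
  · obtain ⟨D, hD⟩ := hne
    obtain ⟨v, hv⟩ := (h.cz.parts D (hSF hD)).2.2.1
    exact ⟨v, mem_biUnion.2 ⟨D, hD, hv⟩⟩
  · intro z hz hzN
    obtain ⟨D, hD, hvD⟩ := mem_biUnion.1 hzN
    exact h.notX (hSF hD) hz hvD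

/-- every component sees a point outside the second full block. -/
theorem att2 (h : TQ B Q X Z F i j) {D : Finset V} (hD : D ∈ F) :
    ∃ z ∈ (X ∪ Z) \ (B j ∩ Q), (Ez B D z).Nonempty := by
  classical
  by_contra hcon
  push Not at hcon
  have hDA : D ∈ FA B ((X ∪ Z) \ (B j ∩ Q)) F ∅ := by
    rw [mem_FA]
    refine ⟨hD, fun z hz hE => ?_⟩
    rw [hcon z hz] at hE
    exact absurd hE (by simp)
  have hSF : FA B ((X ∪ Z) \ (B j ∩ Q)) F ∅ ⊆ F := fun D hD => (mem_FA.1 hD).1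
  refine h.not_fam (A := ∅) (empty_subset _) ⟨D, hDA⟩ ?_
  rw [union_empty]
  exact (rho_biUnion (fun D hD => h.covD (hSF hD)) (h.cz.sep.mono hSF)).le

theorem not_JA2 (h : TQ B Q X Z F i j) {A : Finset V} (hA : A ⊆ (X ∪ Z) \ (B j ∩ Q))
    (hne : A.Nonempty) : ¬ JA B (FA B ((X ∪ Z) \ (B j ∩ Q)) F A) A := by
  classical
  rintro ⟨T, hT, hTc⟩
  refine h.not_fam hA ?_ ((Hyp6.rho_le hT).trans hTc)
  rw [nonempty_iff_ne_empty]
  intro he
  rw [he, sum_empty] at hTc
  have h1 : T = ∅ := card_eq_zero.1 (by omega)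
  obtain ⟨a, ha⟩ := hne
  have h2 := hT (mem_union_right _ ha)
  rw [h1] at h2
  simp at h2

/-- Hall's condition outside the second full block. -/
theorem hall2 (h : TQ B Q X Z F i j) {S : Finset (Finset V)} (hS : S ⊆ F) (hne : S.Nonempty) :
    S.card + 1 ≤ (nbX B ((X ∪ Z) \ (B j ∩ Q)) S).card :=
  hall_of (fun _ hD => h.covD hD) (fun D hD => h.cz.crit D hD) (fun _ hD => h.att2 hD)
    (fun _ hA hA' => h.not_JA2 hA hA') hS hne

/-- the inner blocks. -/
theorem ins_eq [DecidableEq ι] (_ : TQ B Q X Z F i j) :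
    ins B Q (X ∪ Z) = ins B Q X ∪ ins B (Q \ X) Z := by
  ext k
  rw [mem_union, mem_ins, mem_ins, mem_ins]
  constructor
  · rintro ⟨⟨v, hv⟩, hsub⟩
    by_cases hk : B k ∩ Q ⊆ X
    · exact Or.inl ⟨⟨v, hv⟩, hk⟩
    · right
      obtain ⟨w, hw, hwX⟩ := not_subset.1 hk
      rw [mem_inter] at hw
      refine ⟨⟨w, mem_inter.2 ⟨hw.1, mem_sdiff.2 ⟨hw.2, hwX⟩⟩⟩, fun z hz => ?_⟩
      rw [mem_inter, mem_sdiff] at hz
      rcases mem_union.1 (hsub (mem_inter.2 ⟨hz.1, hz.2.1⟩)) with h1 | h1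
      · exact absurd h1 hz.2.2
      · exact h1
  · rintro (⟨h1, h2⟩ | ⟨⟨w, hw⟩, h2⟩)
    · exact ⟨h1, h2.trans subset_union_left⟩
    · rw [mem_inter, mem_sdiff] at hw
      refine ⟨⟨w, mem_inter.2 ⟨hw.1, hw.2.1⟩⟩, fun z hz => ?_⟩
      rw [mem_inter] at hz
      rw [mem_union]
      by_cases hzX : z ∈ X
      · exact Or.inl hzX
      · exact Or.inr (h2 (mem_inter.2 ⟨hz.1, mem_sdiff.2 ⟨hz.2, hzX⟩⟩))

theorem card_ins (h : TQ B Q X Z F i j) :
    (ins B Q (X ∪ Z)).card = 1 + (ins B (Q \ X) Z).card := by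
  classical
  rw [h.ins_eq, card_union_of_disjoint, h.n1]
  rw [disjoint_left]
  intro k hk hk'
  rw [mem_ins] at hk hk'
  obtain ⟨w, hw⟩ := hk'.1
  rw [mem_inter, mem_sdiff] at hw
  exact hw.2.2 (hk.2 (mem_inter.2 ⟨hw.1, hw.2.1⟩))

/-- **the sum of the values.** -/
theorem sum_p (h : TQ B Q X Z F i j) : ∑ D ∈ F, (dv B Q D + 1) + 4 * ((ins B Q (X ∪ Z)).card : ℤ) +
    4 * (Z.card : ℤ) = 26 + 2 * (ee B Q (X ∪ Z) : ℤ) := by
  have h1 := h.sum_dv
  have h2 := h.card_ins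
  have h3 : ee B Q (X ∪ Z) = ee B Q X + ee B Q Z := ee_union h.XZ
  have h4 : (F.card : ℤ) + 1 = Z.card := by exact_mod_cast h.cardF.1
  have h5 := h.ee0
  rw [sum_add_distrib, sum_const, nsmul_eq_mul, mul_one, h1, h2, h3, h5]
  push_cast
  linarith

end TQ

end Pool.Agent.Hyp6
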