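import Pool.Agent.Hyp6.L3Kw

/-!
# HYP6 L3Um: frames with the largest set U

Among the frames choose one whose set `U` has the largest size.  Then a triple `{t, x, y}` such that
a block of `t` has two points in a leaf `W` which is free together with every other leaf, `x` sees no
leaf but `W` and `y` sees a leaf different from `W` does not exist.
-/

set_option autoImplicit false

namespace Pool.Agent.Hyp6

open Finset Pool.Agent.Hyp5

universe u v

variable {V : Type v} [DecidableEq V] {ι : Type u} {B : ι → Finset V} [Fintype ι]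

namespace Frm

variable {Q U : Finset V} {T : Finset ι} {F : Finset (Finset V)}

/-- the cost of `U` and the leaves outside `S`. -/
theorem rho_part (h : Frm B Q T U F) {S : Finset (Finset V)} (hS : S ⊆ F) (hne : S.Nonempty)
    (hH : ∀ Z ⊆ U, Z.card ≤ (nbF (gr B) (F \ S) Z).card) :
    2 * (rho B (U ∪ (F \ S).biUnion id) : ℤ) ≤
      (U ∪ (F \ S).biUnion id).card + F.card - S.card - U.card := by
  classical
  obtain ⟨C0, hC0⟩ := hne
  obtain ⟨v0, _⟩ := (h.ge.sys.fc C0 (hS hC0)).1
  have : Nonempty V := ⟨v0⟩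
  obtain ⟨F1, φ, hF1, hcard, hφ, hinj, him⟩ := exists_match hH
  have hsub : F \ S ⊆ F := sdiff_subset
  have hcov : Cov B (U ∪ (F \ S).biUnion id ∪ ∅) := by
    rw [union_empty]
    refine h.covD.mono (union_subset h.UD ?_)
    intro v hv
    obtain ⟨C, hC, hvC⟩ := mem_biUnion.1 hv
    exact h.FD (hsub hC) hvC
  have h1 := sv_ge_of_assignment (B := B) (A := U) (R := ∅) (F := F \ S)
    (F1 := F1) (F2 := (F \ S) \ F1) (F3 := ∅) (φ := φ) hcov
    (fun C hC => h.ge.sys.fc C (hsub hC))
    (fun C hC C' hC' => h.ge.sys.disj C (hsub hC) C' (hsub hC'))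
    (fun C hC => h.ge.FU C (hsub hC))
    (fun C hC => disjoint_empty_right _) (disjoint_empty_right _)
    (by rw [union_empty, union_sdiff_of_subset hF1]) disjoint_sdiff (disjoint_empty_right _)
    (disjoint_empty_right _) hφ hinj him (by simp)
  rw [union_empty, card_empty, sv_empty] at h1
  have h2 := card_sdiff_add_card_eq_card hF1
  have h3 := card_sdiff_add_card_eq_card hS
  unfold sv at h1
  have h2' : (((F \ S) \ F1).card : ℤ) + F1.card = (F \ S).card := by exact_mod_cast h2
  have h3' : ((F \ S).card : ℤ) + S.card = F.card := by exact_mod_cast h3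
  have h4' : (F1.card : ℤ) = U.card := by exact_mod_cast hcard
  push_cast at h1
  linarith

omit [Fintype ι] in
/-- the sizes of the parts of the rest. -/
theorem card_parts (h : Frm B Q T U F) {S : Finset (Finset V)} (hS : S ⊆ F) :
    (U ∪ (F \ S).biUnion id).card + (S.biUnion id).card + (Ep B Q T U F).card =
      (Dp B Q T).card := by
  classical
  have hset : U ∪ F.biUnion id ∪ Ep B Q T U F = Dp B Q T := h.ge.set_eq
  have hF : F.biUnion id = (F \ S).biUnion id ∪ S.biUnion id := by
    rw [← union_biUnion, sdiff_union_of_subset hS]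
  have hd1 : Disjoint (U ∪ (F \ S).biUnion id) (S.biUnion id) := by
    rw [disjoint_left]
    intro v hv hv'
    obtain ⟨C, hC, hvC⟩ := mem_biUnion.1 hv'
    rcases mem_union.1 hv with hv | hv
    · exact disjoint_left.1 (h.ge.FU C (hS hC)) hvC hv
    · obtain ⟨C', hC', hvC'⟩ := mem_biUnion.1 hv
      have hne : C' ≠ C := fun he => (mem_sdiff.1 hC').2 (he ▸ hC)
      exact disjoint_left.1 (h.ge.sys.disj C' (mem_sdiff.1 hC').1 C (hS hC) hne) hvC' hvC
  have hd2 : Disjoint (U ∪ (F \ S).biUnion id ∪ S.biUnion id) (Ep B Q T U F) := by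
    rw [union_assoc, ← hF, disjoint_union_left]
    refine ⟨?_, disE⟩
    rw [disjoint_left]
    intro v hv hv'
    exact (mem_sdiff.1 (mem_sdiff.1 hv').1).2 hv
  rw [← card_union_of_disjoint hd1, ← card_union_of_disjoint hd2, union_assoc U, ← hF, hset]

/-- the even part has even size. -/
theorem card_E (h : Frm B Q T U F) : ((Ep B Q T U F).card : ℤ) = 2 * rho B (Ep B Q T U F) := by
  have h1 := h.svE
  unfold sv at h1
  linarith

theorem card_leaf (h : Frm B Q T U F) {C : Finset V} (hC : C ∈ F) :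
    (C.card : ℤ) = 2 * rho B C - 1 := by
  have h1 := h.sv_leaf hC
  unfold sv at h1
  linarith

/-- the data of an exchange at a leaf. -/
structure Exl (B : ι → Finset V) (Q : Finset V) (T : Finset ι) (U : Finset V)
    (F : Finset (Finset V)) (i j : ι) (W : Finset V) (t x y w w' : V) : Prop where
  frm : Frm B Q T U F
  hj : j ∈ T
  hjQ : B j ∩ Q = {t, x, y}
  hiQ : B i ∩ Q = {t, w, w'}
  hww : w ≠ w'
  hW : W ∈ F
  hw : w ∈ W
  hw' : w' ∈ W

namespace Exl

variable {i j : ι} {W : Finset V} {t x y w w' : V}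

omit [Fintype ι] in
theorem dis (h : Exl B Q T U F i j W t x y w w') : t ≠ x ∧ t ≠ y ∧ x ≠ y := by
  have h1 : (B j ∩ Q).card = 3 := h.frm.mtp.tpk.pack.card j h.hj
  rw [h.hjQ] at h1
  refine ⟨?_, ?_, ?_⟩
  · rintro rfl
    rw [insert_eq_of_mem (mem_insert_self _ _)] at h1
    have := card_le_two (a := t) (b := y)
    omega
  · rintro rfl
    have h2 : ({t, x, t} : Finset V) = {x, t} := by
      ext v
      simp only [mem_insert, mem_singleton]
      tauto
    rw [h2] at h1
    have := card_le_two (a := x) (b := t)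
    omega
  · rintro rfl
    rw [insert_eq_of_mem (mem_singleton_self x)] at h1
    have := card_le_two (a := t) (b := x)
    omega

omit [Fintype ι] in
theorem tj (h : Exl B Q T U F i j W t x y w w') : t ∈ B j ∩ Q := by rw [h.hjQ]; simp

omit [Fintype ι] in
theorem xj (h : Exl B Q T U F i j W t x y w w') : x ∈ B j ∩ Q := by rw [h.hjQ]; simp

omit [Fintype ι] in
theorem yj (h : Exl B Q T U F i j W t x y w w') : y ∈ B j ∩ Q := by rw [h.hjQ]; simp

omit [Fintype ι] in
theorem tD (h : Exl B Q T U F i j W t x y w w') : t ∉ Dp B Q T :=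
  T_notD h.hj (mem_inter.1 h.tj).1

omit [Fintype ι] in
theorem xD (h : Exl B Q T U F i j W t x y w w') : x ∉ Dp B Q T :=
  T_notD h.hj (mem_inter.1 h.xj).1

omit [Fintype ι] in
theorem yD (h : Exl B Q T U F i j W t x y w w') : y ∉ Dp B Q T :=
  T_notD h.hj (mem_inter.1 h.yj).1

omit [Fintype ι] in
theorem wD (h : Exl B Q T U F i j W t x y w w') : w ∈ Dp B Q T := h.frm.FD h.hW h.hw

omit [Fintype ι] in
theorem wD' (h : Exl B Q T U F i j W t x y w w') : w' ∈ Dp B Q T := h.frm.FD h.hW h.hw'

omit [Fintype ι] in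
theorem card3 (h : Exl B Q T U F i j W t x y w w') : (B i ∩ Q).card = 3 := by
  rw [h.hiQ]
  have h1 : t ≠ w := fun he => h.tD (he ▸ h.wD)
  have h2 : t ≠ w' := fun he => h.tD (he ▸ h.wD')
  rw [card_insert_of_notMem, card_pair h.hww]
  simp only [mem_insert, mem_singleton]
  rintro (h3 | h3)
  · exact h1 h3
  · exact h2 h3

omit [Fintype ι] in
theorem xi (h : Exl B Q T U F i j W t x y w w') : x ∉ B i := by
  intro h1
  have h2 : x ∈ B i ∩ Q := mem_inter.2 ⟨h1, (mem_inter.1 h.xj).2⟩
  rw [h.hiQ] at h2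
  simp only [mem_insert, mem_singleton] at h2
  rcases h2 with h2 | h2 | h2
  · exact h.dis.1 h2.symm
  · exact h.xD (h2 ▸ h.wD)
  · exact h.xD (h2 ▸ h.wD')

omit [Fintype ι] in
theorem yi (h : Exl B Q T U F i j W t x y w w') : y ∉ B i := by
  intro h1
  have h2 : y ∈ B i ∩ Q := mem_inter.2 ⟨h1, (mem_inter.1 h.yj).2⟩
  rw [h.hiQ] at h2
  simp only [mem_insert, mem_singleton] at h2
  rcases h2 with h2 | h2 | h2
  · exact h.dis.2.1 h2.symm
  · exact h.yD (h2 ▸ h.wD)
  · exact h.yD (h2 ▸ h.wD')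

omit [Fintype ι] in
theorem set_eq (h : Exl B Q T U F i j W t x y w w') :
    (Dp B Q T ∪ (B j ∩ Q)) \ B i = (Dp B Q T \ {w, w'}) ∪ {x, y} :=
  exch_set h.hjQ h.hiQ DQ h.tD h.xi h.yi

omit [Fintype ι] in
theorem cov_xy (h : Exl B Q T U F i j W t x y w w') : Cov B ({x, y} : Finset V) := by
  intro v hv
  rcases mem_insert.1 hv with h1 | h1
  · exact ⟨j, h1 ▸ (mem_inter.1 h.xj).1⟩
  · exact ⟨j, (mem_singleton.1 h1) ▸ (mem_inter.1 h.yj).1⟩

omit [Fintype ι] in
theorem rho_xy (h : Exl B Q T U F i j W t x y w w') : rho B ({x, y} : Finset V) ≤ 1 := by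
  refine rho_le_one (i := j) ?_
  intro v hv
  rcases mem_insert.1 hv with h1 | h1
  · exact h1 ▸ (mem_inter.1 h.xj).1
  · exact (mem_singleton.1 h1) ▸ (mem_inter.1 h.yj).1

/-- the cost of the leaf without the two points. -/
theorem rho_W (h : Exl B Q T U F i j W t x y w w') :
    2 * (rho B (W \ {w, w'}) : ℤ) ≤ W.card - 1 := by
  have h1 := h.frm.rho_leaf_two h.hW h.hw (P := {w, w'}) (mem_insert_self _ _)
  have h2 := h.frm.card_leaf h.hW
  have h1' : (rho B (W \ {w, w'}) : ℤ) + 1 ≤ rho B W := by exact_mod_cast h1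
  linarith

omit [Fintype ι] in
theorem cov_new (h : Exl B Q T U F i j W t x y w w') :
    Cov B ((Dp B Q T \ {w, w'}) ∪ {x, y}) :=
  (h.frm.covD.mono sdiff_subset).union h.cov_xy

/-- the new rest is not more expensive. -/
theorem rho_new (h : Exl B Q T U F i j W t x y w w') :
    rho B ((Dp B Q T ∪ (B j ∩ Q)) \ B i) ≤ rho B (Dp B Q T) := by
  rw [h.set_eq]
  have h1 : (Dp B Q T \ {w, w'}) ∪ {x, y} ⊆
      (Dp B Q T \ ({W} : Finset (Finset V)).biUnion id) ∪ ((W \ {w, w'}) ∪ {x, y}) := by
    intro v hv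
    rcases mem_union.1 hv with hv | hv
    · obtain ⟨hv1, hv2⟩ := mem_sdiff.1 hv
      by_cases hvW : v ∈ W
      · exact mem_union_right _ (mem_union_left _ (mem_sdiff.2 ⟨hvW, hv2⟩))
      · refine mem_union_left _ (mem_sdiff.2 ⟨hv1, fun h6 => hvW ?_⟩)
        rw [singleton_biUnion] at h6
        exact h6
    · exact mem_union_right _ (mem_union_right _ hv)
  have hc1 : Cov B (W \ {w, w'}) := (h.frm.covF W h.hW).mono sdiff_subset
  have h2 := (h.frm.frr_single h.hW).rho_le h.frm.covD (hc1.union h.cov_xy) h1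
  rw [sum_singleton] at h2
  have h3 := rho_union_le hc1 h.cov_xy
  have h4 := h.rho_xy
  have h5 := h.frm.rho_leaf_two h.hW h.hw (P := {w, w'}) (mem_insert_self _ _)
  omega

/-- the exchanged packing. -/
theorem swap [DecidableEq ι] (h : Exl B Q T U F i j W t x y w w') :
    MTP B Q (insert i (T.erase j)) ∧
      Dp B Q (insert i (T.erase j)) = (Dp B Q T \ {w, w'}) ∪ {x, y} := by
  have h1 := h.frm.mtp.swap h.frm.cov h.hj h.card3
    (h.frm.exch_dis h.hj h.hjQ h.hiQ h.wD h.wD') h.rho_new
  refine ⟨h1.1, h1.2.trans h.set_eq⟩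

omit [Fintype ι] in
theorem card_new (h : Exl B Q T U F i j W t x y w w') :
    ((Dp B Q T \ {w, w'}) ∪ {x, y}).card = (Dp B Q T).card := by
  have h1 : Disjoint (Dp B Q T \ {w, w'}) {x, y} := by
    rw [disjoint_left]
    intro v hv hv'
    rcases mem_insert.1 hv' with h2 | h2
    · exact h.xD (h2 ▸ (mem_sdiff.1 hv).1)
    · exact h.yD ((mem_singleton.1 h2) ▸ (mem_sdiff.1 hv).1)
  have h2 : ({w, w'} : Finset V) ⊆ Dp B Q T := by
    intro v hv
    rcases mem_insert.1 hv with h2 | h2
    · exact h2 ▸ h.wD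
    · exact (mem_singleton.1 h2) ▸ h.wD'
  have h3 := card_sdiff_add_card_eq_card h2
  rw [card_union_of_disjoint h1, card_pair h.dis.2.2]
  rw [card_pair h.hww] at h3
  exact h3

theorem rho_new_eq [DecidableEq ι] (h : Exl B Q T U F i j W t x y w w') :
    rho B ((Dp B Q T \ {w, w'}) ∪ {x, y}) = rho B (Dp B Q T) := by
  obtain ⟨hM, hMset⟩ := h.swap
  have h1 := hM.tpk.opt
  have h2 := h.frm.mtp.tpk.opt
  have h3 := hM.max _ h.frm.mtp.tpk
  have h4 := h.frm.mtp.max _ hM.tpk
  have h5 : Q \ (insert i (T.erase j)).biUnion B = (Dp B Q T \ {w, w'}) ∪ {x, y} := hMset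
  have h6 : Q \ T.biUnion B = Dp B Q T := rfl
  rw [h5] at h1
  rw [h6] at h2
  omega

/-- the points of a leaf which is free together with `W` are critical in the new rest. -/
theorem crit (h : Exl B Q T U F i j W t x y w w') {L : Finset V} (hL : L ∈ F) (hne : L ≠ W)
    (hH : ∀ Z ⊆ U, Z.card ≤ (nbF (gr B) (F \ {W, L}) Z).card) {v : V} (hv : v ∈ L) :
    rho B (((Dp B Q T \ {w, w'}) ∪ {x, y}).erase v) + 1 ≤ rho B (Dp B Q T) := by
  classical
  have hS : ({W, L} : Finset (Finset V)) ⊆ F := by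
    intro C hC
    rcases mem_insert.1 hC with h1 | h1
    · exact h1 ▸ h.hW
    · exact (mem_singleton.1 h1) ▸ hL
  have hN := h.frm.rho_part hS (insert_nonempty _ _) hH
  have hP := h.frm.card_parts hS
  have hcS : (({W, L} : Finset (Finset V)).biUnion id).card = W.card + L.card := by
    rw [biUnion_insert, singleton_biUnion]
    exact card_union_of_disjoint (h.frm.ge.sys.disj W h.hW L hL hne.symm)
  have hc2 : (({W, L} : Finset (Finset V))).card = 2 := card_pair hne.symm
  set N := U ∪ (F \ {W, L}).biUnion id with hNdef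
  set E := Ep B Q T U F with hE
  have hsub : ((Dp B Q T \ {w, w'}) ∪ {x, y}).erase v ⊆
      ((N ∪ E) ∪ (W \ {w, w'})) ∪ (L.erase v ∪ {x, y}) := by
    intro z hz
    obtain ⟨hzv, hz1⟩ := mem_erase.1 hz
    rcases mem_union.1 hz1 with hz2 | hz2
    · obtain ⟨hz3, hz4⟩ := mem_sdiff.1 hz2
      have hset : U ∪ F.biUnion id ∪ E = Dp B Q T := h.frm.ge.set_eq
      rw [← hset] at hz3
      rcases mem_union.1 hz3 with hz5 | hz5
      · rcases mem_union.1 hz5 with hz6 | hz6
        · exact mem_union_left _ (mem_union_left _ (mem_union_left _ (mem_union_left _ hz6)))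
        · obtain ⟨C, hC, hzC⟩ := mem_biUnion.1 hz6
          by_cases hCW : C = W
          · exact mem_union_left _ (mem_union_right _ (mem_sdiff.2 ⟨hCW ▸ hzC, hz4⟩))
          by_cases hCL : C = L
          · exact mem_union_right _ (mem_union_left _ (mem_erase.2 ⟨hzv, hCL ▸ hzC⟩))
          · refine mem_union_left _ (mem_union_left _ (mem_union_left _ (mem_union_right _
              (mem_biUnion.2 ⟨C, mem_sdiff.2 ⟨hC, ?_⟩, hzC⟩))))
            simp only [mem_insert, mem_singleton, not_or]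
            exact ⟨hCW, hCL⟩
      · exact mem_union_left _ (mem_union_left _ (mem_union_right _ hz5))
    · exact mem_union_right _ (mem_union_right _ hz2)
  have hcN : Cov B N := by
    refine h.frm.covD.mono (union_subset h.frm.UD ?_)
    intro z hz
    obtain ⟨C, hC, hzC⟩ := mem_biUnion.1 hz
    exact h.frm.FD (mem_sdiff.1 hC).1 hzC
  have hcE : Cov B E := h.frm.covD.mono ED
  have hcW : Cov B (W \ {w, w'}) := (h.frm.covF W h.hW).mono sdiff_subset
  have hcL : Cov B (L.erase v) := (h.frm.covF L hL).mono (erase_subset _ _)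
  have r1 := rho_mono hsub (((hcN.union hcE).union hcW).union (hcL.union h.cov_xy))
  have r2 := rho_union_le ((hcN.union hcE).union hcW) (hcL.union h.cov_xy)
  have r3 := rho_union_le (hcN.union hcE) hcW
  have r4 := rho_union_le hcN hcE
  have r5 := rho_union_le hcL h.cov_xy
  have r6 := h.rho_xy
  have r7 := rho_erase_fc (h.frm.ge.sys.fc L hL) (h.frm.sv_leaf hL) hv
  have r8 := h.rho_W
  have r9 := h.frm.card_E
  have r10 := h.frm.card_leaf hL
  have r11 := h.frm.svD
  rw [hcS] at hP
  rw [hc2] at hN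
  rw [← hE] at r9
  unfold sv at r11
  push_cast at hN
  omega

/-- the part of the new rest around `W` cannot be covered perfectly. -/
theorem part_odd [DecidableEq ι] (h : Exl B Q T U F i j W t x y w w') {M : Finset V} (hM : M ∈ F)
    (hne : M ≠ W) (hH : ∀ Z ⊆ U, Z.card ≤ (nbF (gr B) (F \ {W, M}) Z).card)
    (hy : ∃ m ∈ M, (gr B).Adj y m) :
    (((W \ {w, w'}) ∪ {x} ∪ Ep B Q T U F).card : ℤ) <
      2 * rho B ((W \ {w, w'}) ∪ {x} ∪ Ep B Q T U F) := by
  classical
  by_contra hcon
  push Not at hcon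
  have hS : ({W, M} : Finset (Finset V)) ⊆ F := by
    intro C hC
    rcases mem_insert.1 hC with h1 | h1
    · exact h1 ▸ h.hW
    · exact (mem_singleton.1 h1) ▸ hM
  have hN := h.frm.rho_part hS (insert_nonempty _ _) hH
  have hP := h.frm.card_parts hS
  have hcS : (({W, M} : Finset (Finset V)).biUnion id).card = W.card + M.card := by
    rw [biUnion_insert, singleton_biUnion]
    exact card_union_of_disjoint (h.frm.ge.sys.disj W h.hW M hM hne.symm)
  have hc2 : (({W, M} : Finset (Finset V))).card = 2 := card_pair hne.symm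
  set N := U ∪ (F \ {W, M}).biUnion id with hNdef
  set E := Ep B Q T U F with hE
  have hsub : (Dp B Q T \ {w, w'}) ∪ {x, y} ⊆
      ((W \ {w, w'}) ∪ {x} ∪ E) ∪ (N ∪ insert y M) := by
    intro z hz
    rcases mem_union.1 hz with hz2 | hz2
    · obtain ⟨hz3, hz4⟩ := mem_sdiff.1 hz2
      have hset : U ∪ F.biUnion id ∪ E = Dp B Q T := h.frm.ge.set_eq
      rw [← hset] at hz3
      rcases mem_union.1 hz3 with hz5 | hz5
      · rcases mem_union.1 hz5 with hz6 | hz6
        · exact mem_union_right _ (mem_union_left _ (mem_union_left _ hz6))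
        · obtain ⟨C, hC, hzC⟩ := mem_biUnion.1 hz6
          by_cases hCW : C = W
          · exact mem_union_left _ (mem_union_left _ (mem_union_left _
              (mem_sdiff.2 ⟨hCW ▸ hzC, hz4⟩)))
          by_cases hCM : C = M
          · exact mem_union_right _ (mem_union_right _ (mem_insert_of_mem (hCM ▸ hzC)))
          · refine mem_union_right _ (mem_union_left _ (mem_union_right _
              (mem_biUnion.2 ⟨C, mem_sdiff.2 ⟨hC, ?_⟩, hzC⟩)))
            simp only [mem_insert, mem_singleton, not_or]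
            exact ⟨hCW, hCM⟩
      · exact mem_union_left _ (mem_union_right _ hz5)
    · rcases mem_insert.1 hz2 with hz3 | hz3
      · exact mem_union_left _ (mem_union_left _ (mem_union_right _ (by rw [hz3]; simp)))
      · rw [mem_singleton.1 hz3]
        exact mem_union_right _ (mem_union_right _ (mem_insert_self _ _))
  have hcN : Cov B N := by
    refine h.frm.covD.mono (union_subset h.frm.UD ?_)
    intro z hz
    obtain ⟨C, hC, hzC⟩ := mem_biUnion.1 hz
    exact h.frm.FD (mem_sdiff.1 hC).1 hzC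
  have hcE : Cov B E := h.frm.covD.mono ED
  have hcW : Cov B (W \ {w, w'}) := (h.frm.covF W h.hW).mono sdiff_subset
  have hcx : Cov B ({x} : Finset V) := h.cov_xy.mono (by
    intro z hz
    rw [mem_singleton.1 hz]
    exact mem_insert_self _ _)
  have hcM : Cov B (insert y M) := by
    intro z hz
    rcases mem_insert.1 hz with h1 | h1
    · exact ⟨j, h1 ▸ (mem_inter.1 h.yj).1⟩
    · exact h.frm.covF M hM z h1
  have hcH := (hcW.union hcx).union hcE
  have r1 := rho_mono hsub (hcH.union (hcN.union hcM))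
  have r2 := rho_union_le hcH (hcN.union hcM)
  have r3 := rho_union_le hcN hcM
  have r4 := rho_insert_fc (h.frm.ge.sys.fc M hM) (h.frm.sv_leaf hM) hy
    (fun hyM => h.yD (h.frm.FD hM hyM))
  have r5 := h.rho_new_eq
  have r6 := h.frm.card_leaf hM
  have r7 := h.frm.svD
  have r8 : ((W \ {w, w'}) ∪ {x} ∪ E).card ≤ W.card - 1 + E.card := by
    have h1 := card_union_le ((W \ {w, w'}) ∪ {x}) E
    have h2 := card_union_le (W \ {w, w'}) {x}
    have h3 : ({w, w'} : Finset V) ⊆ W := by
      intro z hz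
      rcases mem_insert.1 hz with h4 | h4
      · exact h4 ▸ h.hw
      · exact (mem_singleton.1 h4) ▸ h.hw'
    have h4 := card_sdiff_add_card_eq_card h3
    rw [card_pair h.hww] at h4
    rw [card_singleton] at h2
    omega
  have r9 : 2 ≤ W.card := by
    have h3 : ({w, w'} : Finset V) ⊆ W := by
      intro z hz
      rcases mem_insert.1 hz with h4 | h4
      · exact h4 ▸ h.hw
      · exact (mem_singleton.1 h4) ▸ h.hw'
    have h4 := card_le_card h3
    rwa [card_pair h.hww] at h4
  rw [hcS] at hP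
  rw [hc2] at hN
  unfold sv at r7
  push_cast at hN
  omega

omit [Fintype ι] in
/-- the size of the part around `W`. -/
theorem card_H (h : Exl B Q T U F i j W t x y w w') :
    ((W \ {w, w'}) ∪ {x} ∪ Ep B Q T U F).card + 1 = W.card + (Ep B Q T U F).card := by
  have h1 : Disjoint ((W \ {w, w'}) ∪ {x}) (Ep B Q T U F) := by
    rw [disjoint_left]
    intro v hv hv'
    rcases mem_union.1 hv with h2 | h2
    · exact disjoint_left.1 (h.frm.ge.FE W h.hW) (mem_sdiff.1 h2).1 hv'
    · exact h.xD (ED ((mem_singleton.1 h2) ▸ hv'))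
  have h2 : Disjoint (W \ {w, w'}) {x} := by
    rw [disjoint_singleton_right]
    exact fun h3 => h.xD (h.frm.FD h.hW (mem_sdiff.1 h3).1)
  have h3 : ({w, w'} : Finset V) ⊆ W := by
    intro z hz
    rcases mem_insert.1 hz with h4 | h4
    · exact h4 ▸ h.hw
    · exact (mem_singleton.1 h4) ▸ h.hw'
  have h4 := card_sdiff_add_card_eq_card h3
  rw [card_pair h.hww] at h4
  rw [card_union_of_disjoint h1, card_union_of_disjoint h2, card_singleton]
  omega

/-- **the lemma of the largest `U`**: every new frame has a larger set `U`. -/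
theorem umax_sub [DecidableEq ι] (h : Exl B Q T U F i j W t x y w w')
    (hfree : ∀ L ∈ F, L ≠ W → ∀ Z ⊆ U, Z.card ≤ (nbF (gr B) (F \ {W, L}) Z).card)
    (hx : ∀ L ∈ F, L ≠ W → ∀ l ∈ L, ¬ (gr B).Adj x l)
    (hy : ∃ M ∈ F, M ≠ W ∧ ∃ m ∈ M, (gr B).Adj y m) {U1 : Finset V} {F1 : Finset (Finset V)}
    (h1 : Frm B Q (insert i (T.erase j)) U1 F1) : insert y U ⊆ U1 := by
  classical
  have hMset := h.swap.2
  have hG := h1.ge
  obtain ⟨M, hMF, hMW, hyM⟩ := hy
  have hodd := h.part_odd hMF hMW (hfree M hMF hMW) hyM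
  have hcH := h.card_H
  set E := Ep B Q T U F with hE
  set H := (W \ {w, w'}) ∪ {x} ∪ E with hH
  obtain ⟨UH, FH, hGH⟩ := exists_GE (gr B) H
  have hcovH : Cov B H := by
    refine Cov.union (Cov.union ((h.frm.covF W h.hW).mono sdiff_subset) (h.cov_xy.mono ?_))
      (h.frm.covD.mono ED)
    intro z hz
    rw [mem_singleton.1 hz]
    exact mem_insert_self _ _
  have hxH : x ∈ H := mem_union_left _ (mem_union_right _ (mem_singleton_self x))
  have hcard : UH.card + 2 ≤ FH.card := by
    have r1 := hGH.sv_ge hcovH ⟨x, hxH⟩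
    have r2 := hGH.rest_nonneg
    have r3 := h.frm.card_leaf h.hW
    have r4 := h.frm.card_E
    rw [← hE] at r4
    unfold sv at r1 r2
    omega
  have hrD := h.rho_new_eq
  have hcD := h.card_new
  have hcovD := h.cov_new
  set D1 := (Dp B Q T \ {w, w'}) ∪ {x, y} with hD1
  have hDp1 : Dp B Q (insert i (T.erase j)) = D1 := hMset
  have hEU : ∀ z ∈ E, z ∉ U := fun z hz hzU => (mem_sdiff.1 (mem_sdiff.1 hz).1).2 hzU
  have hEF : ∀ z ∈ E, ∀ C ∈ F, z ∉ C := fun z hz C hC hzC =>
    disjoint_left.1 (h.frm.ge.FE C hC) hzC hz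
  have hDX : ∀ z ∈ Dp B Q T, z ∉ U → z ∈ (Q \ T.biUnion B) \ U := fun z hz hzU =>
    mem_sdiff.2 ⟨hz, hzU⟩
  intro u hu
  have huD1 : u ∈ D1 := by
    rcases mem_insert.1 hu with h2 | h2
    · rw [h2]
      exact mem_union_right _ (by simp)
    · refine mem_union_left _ (mem_sdiff.2 ⟨h.frm.UD h2, fun h3 => ?_⟩)
      rcases mem_insert.1 h3 with h4 | h4
      · exact disjoint_left.1 (h.frm.ge.FU W h.hW) h.hw (h4 ▸ h2)
      · exact disjoint_left.1 (h.frm.ge.FU W h.hW) h.hw' ((mem_singleton.1 h4) ▸ h2)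
  -- `u` is not critical in the new rest
  have hncr : rho B (D1.erase u) + 1 ≠ rho B D1 := by
    intro hcr
    have hpt : PT B (D1.erase u) := by
      have h2 := h1.pt
      rw [hDp1] at h2
      refine h2.erase ?_ hcovD (by omega)
      have h3 := h1.tr3D
      rwa [hDp1] at h3
    have hsys : OddSys (gr B) (D1.erase u \ (insert y U ∪ UH).erase u) (F.erase W ∪ FH) := by
      have hHc : ∀ c ∈ H, c ∈ Dp B Q T → c ∉ U → c ∈ W ∨ c ∈ E := by
        intro c hc hcD' _
        rcases mem_union.1 hc with h2 | h2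
        · rcases mem_union.1 h2 with h3 | h3
          · exact Or.inl (mem_sdiff.1 h3).1
          · exact absurd ((mem_singleton.1 h3) ▸ hcD') h.xD
        · exact Or.inr h2
      have hHL : ∀ C ∈ F, C ≠ W → Disjoint C H := by
        intro C hC hCW
        rw [disjoint_left]
        intro c hc hcH'
        have h3 := h.frm.FD hC hc
        rcases hHc c hcH' h3 (fun h4 => disjoint_left.1 (h.frm.ge.FU C hC) hc h4) with h4 | h4
        · exact disjoint_left.1 (h.frm.ge.sys.disj C hC W h.hW hCW) hc h4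
        · exact hEF c h4 C hC hc
      -- no edge between a leaf different from `W` and `H`
      have hsep : ∀ C ∈ F, C ≠ W → ∀ c ∈ C, ∀ z ∈ H, ¬ (gr B).Adj c z := by
        intro C hC hCW c hc z hz hadj
        by_cases hzD : z ∈ Dp B Q T
        · have hzU : z ∉ U := by
            intro h2
            rcases mem_union.1 hz with h3 | h3
            · rcases mem_union.1 h3 with h4 | h4
              · exact disjoint_left.1 (h.frm.ge.FU W h.hW) (mem_sdiff.1 h4).1 h2
              · exact h.xD ((mem_singleton.1 h4) ▸ hzD)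
            · exact hEU z h3 h2
          have h2 := (h.frm.ge.sys.closed C hC).2 c hc z (hDX z hzD hzU) hadj
          exact disjoint_left.1 (hHL C hC hCW) h2 hz
        · have hzx : z = x := by
            rcases mem_union.1 hz with h3 | h3
            · rcases mem_union.1 h3 with h4 | h4
              · exact absurd (h.frm.FD h.hW (mem_sdiff.1 h4).1) hzD
              · exact mem_singleton.1 h4
            · exact absurd (ED h3) hzD
          rw [hzx] at hadj
          exact hx C hC hCW c hc hadj.symm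
      -- the points of the ambient set
      have hamb : ∀ z ∈ D1.erase u \ (insert y U ∪ UH).erase u,
          (∃ C ∈ F, C ≠ W ∧ z ∈ C) ∨ z ∈ H \ UH := by
        intro z hz
        obtain ⟨h2, h3⟩ := mem_sdiff.1 hz
        obtain ⟨hzu, h4⟩ := mem_erase.1 h2
        have h5 : z ∉ insert y U ∪ UH := fun h6 => h3 (mem_erase.2 ⟨hzu, h6⟩)
        have hzUH : z ∉ UH := fun h6 => h5 (mem_union_right _ h6)
        have hzy : z ≠ y := fun h6 => h5 (mem_union_left _ (by rw [h6]; exact mem_insert_self _ _))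
        have hzU : z ∉ U := fun h6 => h5 (mem_union_left _ (mem_insert_of_mem h6))
        rcases mem_union.1 h4 with h6 | h6
        · obtain ⟨h7, h8⟩ := mem_sdiff.1 h6
          have hset : U ∪ F.biUnion id ∪ E = Dp B Q T := h.frm.ge.set_eq
          rw [← hset] at h7
          rcases mem_union.1 h7 with h9 | h9
          · rcases mem_union.1 h9 with h10 | h10
            · exact absurd h10 hzU
            · obtain ⟨C, hC, hzC⟩ := mem_biUnion.1 h10
              by_cases hCW : C = W
              · right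
                exact mem_sdiff.2 ⟨mem_union_left _ (mem_union_left _
                  (mem_sdiff.2 ⟨hCW ▸ hzC, h8⟩)), hzUH⟩
              · exact Or.inl ⟨C, hC, hCW, hzC⟩
          · exact Or.inr (mem_sdiff.2 ⟨mem_union_right _ h9, hzUH⟩)
        · rcases mem_insert.1 h6 with h7 | h7
          · right
            rw [h7]
            exact mem_sdiff.2 ⟨hxH, h7 ▸ hzUH⟩
          · exact absurd (mem_singleton.1 h7) hzy
      have hFD1 : ∀ C ∈ F, C ≠ W → ∀ z ∈ C, z ∈ D1.erase u \ (insert y U ∪ UH).erase u := by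
        intro C hC hCW z hz
        have hzD := h.frm.FD hC hz
        have hzU : z ∉ U := fun h2 => disjoint_left.1 (h.frm.ge.FU C hC) hz h2
        have hzu : z ≠ u := by
          rintro rfl
          rcases mem_insert.1 hu with h2 | h2
          · exact h.yD (h2 ▸ hzD)
          · exact hzU h2
        refine mem_sdiff.2 ⟨mem_erase.2 ⟨hzu, mem_union_left _ (mem_sdiff.2 ⟨hzD, ?_⟩)⟩, ?_⟩
        · intro h2
          rcases mem_insert.1 h2 with h3 | h3
          · exact disjoint_left.1 (h.frm.ge.sys.disj C hC W h.hW hCW) hz (h3 ▸ h.hw)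
          · exact disjoint_left.1 (h.frm.ge.sys.disj C hC W h.hW hCW) hz
              ((mem_singleton.1 h3) ▸ h.hw')
        · intro h2
          rcases mem_union.1 (mem_erase.1 h2).2 with h3 | h3
          · rcases mem_insert.1 h3 with h4 | h4
            · exact h.yD (h4 ▸ hzD)
            · exact hzU h4
          · exact disjoint_left.1 (hHL C hC hCW) hz (hGH.sub h3)
      have hHD1 : ∀ z ∈ H, z ∉ UH → z ∈ D1.erase u \ (insert y U ∪ UH).erase u := by
        intro z hz hzUH
        have hzyU : z ∉ insert y U := by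
          intro h2
          rcases mem_insert.1 h2 with h3 | h3
          · rcases mem_union.1 hz with h4 | h4
            · rcases mem_union.1 h4 with h5 | h5
              · exact h.yD (h3 ▸ h.frm.FD h.hW (mem_sdiff.1 h5).1)
              · exact h.dis.2.2 ((mem_singleton.1 h5).symm.trans h3)
            · exact h.yD (h3 ▸ ED h4)
          · rcases mem_union.1 hz with h4 | h4
            · rcases mem_union.1 h4 with h5 | h5
              · exact disjoint_left.1 (h.frm.ge.FU W h.hW) (mem_sdiff.1 h5).1 h3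
              · exact h.xD (h.frm.UD ((mem_singleton.1 h5) ▸ h3))
            · exact hEU z h4 h3
        have hzu : z ≠ u := fun h2 => hzyU (h2 ▸ hu)
        refine mem_sdiff.2 ⟨mem_erase.2 ⟨hzu, ?_⟩, ?_⟩
        · rcases mem_union.1 hz with h4 | h4
          · rcases mem_union.1 h4 with h5 | h5
            · exact mem_union_left _ (mem_sdiff.2 ⟨h.frm.FD h.hW (mem_sdiff.1 h5).1,
                (mem_sdiff.1 h5).2⟩)
            · exact mem_union_right _ (by rw [mem_singleton.1 h5]; simp)
          · refine mem_union_left _ (mem_sdiff.2 ⟨ED h4, fun h5 => ?_⟩)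
            rcases mem_insert.1 h5 with h6 | h6
            · exact hEF z h4 W h.hW (h6 ▸ h.hw)
            · exact hEF z h4 W h.hW ((mem_singleton.1 h6) ▸ h.hw')
        · intro h2
          rcases mem_union.1 (mem_erase.1 h2).2 with h3 | h3
          · exact hzyU h3
          · exact hzUH h3
      have hCH : ∀ C ∈ FH, ∀ z ∈ C, z ∈ H \ UH := fun C hC z hz => (hGH.sys.closed C hC).1 hz
      refine ⟨fun C hC => ?_, fun C hC => ?_, fun C hC C' hC' hne => ?_⟩
      · rcases mem_union.1 hC with hC1 | hC1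
        · obtain ⟨hCW, hCF⟩ := mem_erase.1 hC1
          refine ⟨fun z hz => hFD1 C hCF hCW z hz, fun c hc z hz hadj => ?_⟩
          rcases hamb z hz with ⟨C', hC', hC'W, hzC'⟩ | h2
          · have hzD := h.frm.FD hC' hzC'
            have hzU : z ∉ U := fun h3 => disjoint_left.1 (h.frm.ge.FU C' hC') hzC' h3
            exact (h.frm.ge.sys.closed C hCF).2 c hc z (hDX z hzD hzU) hadj
          · exact absurd hadj (hsep C hCF hCW c hc z (mem_sdiff.1 h2).1)
        · refine ⟨fun z hz => hHD1 z (mem_sdiff.1 (hCH C hC1 z hz)).1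
            (mem_sdiff.1 (hCH C hC1 z hz)).2, fun c hc z hz hadj => ?_⟩
          rcases hamb z hz with ⟨C', hC', hC'W, hzC'⟩ | h2
          · exact absurd hadj.symm (hsep C' hC' hC'W z hzC' c (mem_sdiff.1 (hCH C hC1 c hc)).1)
          · exact (hGH.sys.closed C hC1).2 c hc z h2 hadj
      · rcases mem_union.1 hC with hC1 | hC1
        · exact (h.frm.ge.sys.fc C (mem_erase.1 hC1).2).odd
        · exact (hGH.sys.fc C hC1).odd
      · rcases mem_union.1 hC with hC1 | hC1 <;> rcases mem_union.1 hC' with hC2 | hC2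
        · exact h.frm.ge.sys.disj C (mem_erase.1 hC1).2 C' (mem_erase.1 hC2).2 hne
        · exact disjoint_of_subset_right (fun z hz => (mem_sdiff.1 (hCH C' hC2 z hz)).1)
            (hHL C (mem_erase.1 hC1).2 (mem_erase.1 hC1).1)
        · exact (disjoint_of_subset_right (fun z hz => (mem_sdiff.1 (hCH C hC1 z hz)).1)
            (hHL C' (mem_erase.1 hC2).2 (mem_erase.1 hC2).1)).symm
        · exact hGH.sys.disj C hC1 C' hC2 hne
    have hfam : Disjoint (F.erase W) FH := by
      rw [disjoint_left]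
      intro C hC hC'
      obtain ⟨c, hc⟩ := (hGH.sys.fc C hC').1
      have h2 := (mem_sdiff.1 ((hGH.sys.closed C hC').1 hc)).1
      have h3 := h.frm.FD (mem_erase.1 hC).2 hc
      rcases mem_union.1 h2 with h4 | h4
      · rcases mem_union.1 h4 with h5 | h5
        · exact disjoint_left.1 (h.frm.ge.sys.disj C (mem_erase.1 hC).2 W h.hW (mem_erase.1 hC).1)
            hc (mem_sdiff.1 h5).1
        · exact h.xD ((mem_singleton.1 h5) ▸ h3)
      · exact hEF c h4 C (mem_erase.1 hC).2 hc
    have h2 := berge (hcovD.mono (erase_subset _ _)) (by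
      have h3 := h1.tr3D
      rw [hDp1] at h3
      exact h3.mono (erase_subset _ _)) hpt hsys
    rw [card_union_of_disjoint hfam] at h2
    have h3 := card_erase_add_one h.hW
    have hcu : ((insert y U ∪ UH).erase u).card + 1 ≤ U.card + 1 + UH.card := by
      rw [card_erase_add_one (mem_union_left _ hu)]
      exact (card_union_le _ _).trans (Nat.add_le_add_right (card_insert_le _ _) _)
    have h4 := card_erase_add_one huD1
    have h5 := h.frm.svD
    unfold sv at h2 h5
    push_cast at h2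
    omega
  -- `u` sees a critical point
  obtain ⟨L, hL, hLW, l, hl, hadj⟩ : ∃ L ∈ F, L ≠ W ∧ ∃ l ∈ L, (gr B).Adj u l := by
    rcases mem_insert.1 hu with h2 | h2
    · obtain ⟨m, hm, hadj⟩ := hyM
      exact ⟨M, hMF, hMW, m, hm, h2 ▸ hadj⟩
    · have h3 := h.frm.ge.surplus {u} (singleton_subset_iff.2 h2) (singleton_nonempty u)
      rw [card_singleton] at h3
      obtain ⟨C, hC, hCW⟩ := exists_mem_ne (by omega : 1 < (nbF (gr B) F {u}).card) W
      obtain ⟨h4, x', hx', l, hl, hadj⟩ := mem_nbF.1 hC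
      rw [mem_singleton] at hx'
      exact ⟨C, h4, hCW, l, hl, hx' ▸ hadj⟩
  have hlD1 : l ∈ D1 := by
    refine mem_union_left _ (mem_sdiff.2 ⟨h.frm.FD hL hl, fun h2 => ?_⟩)
    rcases mem_insert.1 h2 with h3 | h3
    · exact disjoint_left.1 (h.frm.ge.sys.disj L hL W h.hW hLW) hl (h3 ▸ h.hw)
    · exact disjoint_left.1 (h.frm.ge.sys.disj L hL W h.hW hLW) hl ((mem_singleton.1 h3) ▸ h.hw')
  have hlcr : rho B (D1.erase l) + 1 = rho B D1 := by
    have h2 := h.crit hL hLW (hfree L hL hLW) hl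
    rw [← hD1] at h2
    have h3 := rho_le_erase (x := l) hcovD
    omega
  have hlF : l ∈ F1.biUnion id := by
    refine (h1.crit_iff (by rw [hDp1]; exact hlD1)).1 ?_
    rw [hDp1]
    exact hlcr
  by_contra hcon
  obtain ⟨C, hC, hlC⟩ := mem_biUnion.1 hlF
  have h3 : u ∈ (Q \ (insert i (T.erase j)).biUnion B) \ U1 := by
    refine mem_sdiff.2 ⟨?_, hcon⟩
    have h4 : Q \ (insert i (T.erase j)).biUnion B = D1 := hDp1
    rw [h4]
    exact huD1
  have h4 := (hG.sys.closed C hC).2 l hlC u h3 hadj.symm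
  refine hncr ?_
  have h5 := (h1.crit_iff (v := u) (by rw [hDp1]; exact huD1)).2 (mem_biUnion.2 ⟨C, hC, h4⟩)
  rwa [hDp1] at h5

/-- the new frame has a larger set `U`. -/
theorem umax [DecidableEq ι] (h : Exl B Q T U F i j W t x y w w')
    (hfree : ∀ L ∈ F, L ≠ W → ∀ Z ⊆ U, Z.card ≤ (nbF (gr B) (F \ {W, L}) Z).card)
    (hx : ∀ L ∈ F, L ≠ W → ∀ l ∈ L, ¬ (gr B).Adj x l)
    (hy : ∃ M ∈ F, M ≠ W ∧ ∃ m ∈ M, (gr B).Adj y m) :
    ∃ (U' : Finset V) (F' : Finset (Finset V)),
      Frm B Q (insert i (T.erase j)) U' F' ∧ insert y U ⊆ U' := by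
  obtain ⟨U1, F1, hG⟩ := exists_GE (gr B) (Q \ (insert i (T.erase j)).biUnion B)
  have h1 : Frm B Q (insert i (T.erase j)) U1 F1 := ⟨h.frm.reg3, h.frm.cov, h.swap.1, hG⟩
  exact ⟨U1, F1, h1, h.umax_sub hfree hx hy h1⟩

end Exl

omit [Fintype ι] in
/-- the data of the exchange from a block with two points in the leaf. -/
theorem exl (h : Frm B Q T U F) {i j : ι} (hj : j ∈ T) {W : Finset V} (hW : W ∈ F)
    {t x y : V} (hjQ : B j ∩ Q = {t, x, y}) (ht : t ∈ B i) (hi : (B i ∩ W).card = 2) :
    ∃ w w', Exl B Q T U F i j W t x y w w' := by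
  obtain ⟨w, w', hww, hBW⟩ := card_eq_two.1 hi
  have hw : w ∈ B i ∩ W := by rw [hBW]; simp
  have hw' : w' ∈ B i ∩ W := by rw [hBW]; simp
  have htj : t ∈ B j ∩ Q := by rw [hjQ]; simp
  have htD : t ∉ Dp B Q T := T_notD hj (mem_inter.1 htj).1
  have hwD := h.FD hW (mem_inter.1 hw).2
  have hwD' := h.FD hW (mem_inter.1 hw').2
  have hiQ : B i ∩ Q = {t, w, w'} := by
    symm
    refine eq_of_subset_of_card_le ?_ ?_
    · intro v hv
      simp only [mem_insert, mem_singleton] at hv
      rcases hv with h1 | h1 | h1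
      · rw [h1]; exact mem_inter.2 ⟨ht, (mem_inter.1 htj).2⟩
      · rw [h1]; exact mem_inter.2 ⟨(mem_inter.1 hw).1, DQ hwD⟩
      · rw [h1]; exact mem_inter.2 ⟨(mem_inter.1 hw').1, DQ hwD'⟩
    · have h1 : t ∉ ({w, w'} : Finset V) := by
        intro h2
        rcases mem_insert.1 h2 with h3 | h3
        · exact htD (h3 ▸ hwD)
        · exact htD ((mem_singleton.1 h3) ▸ hwD')
      rw [card_insert_of_notMem h1, card_pair hww]
      exact h.reg3 i
  exact ⟨w, w', h, hj, hjQ, hiQ, hww, hW, (mem_inter.1 hw).2, (mem_inter.1 hw').2⟩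

/-- in a frame with the largest set `U` there is no triple `{t, x, y}` such that `t` has a block with
two points in the leaf `W` (free together with every other leaf), `x` sees no leaf but `W` and `y` sees
a leaf different from `W`. -/
theorem no_full [DecidableEq ι] (h : Frm B Q T U F)
    (htop : ∀ (T' : Finset ι) (U' : Finset V) (F' : Finset (Finset V)),
      Frm B Q T' U' F' → U'.card ≤ U.card) {i j : ι} (hj : j ∈ T) {W : Finset V} (hW : W ∈ F)
    (hfree : ∀ L ∈ F, L ≠ W → ∀ Z ⊆ U, Z.card ≤ (nbF (gr B) (F \ {W, L}) Z).card)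
    {t x y : V} (hjQ : B j ∩ Q = {t, x, y}) (ht : t ∈ B i) (hi : (B i ∩ W).card = 2)
    (hx : ∀ L ∈ F, L ≠ W → ∀ l ∈ L, ¬ (gr B).Adj x l)
    (hy : ∃ M ∈ F, M ≠ W ∧ ∃ m ∈ M, (gr B).Adj y m) : False := by
  obtain ⟨w, w', hE⟩ := h.exl hj hW hjQ ht hi
  obtain ⟨U', F', h1, h2⟩ := hE.umax hfree hx hy
  have h3 := htop _ U' F' h1
  have h4 := card_le_card h2
  have h5 : y ∉ U := fun h6 => hE.yD (h.UD h6)
  rw [card_insert_of_notMem h5] at h4
  omega

end Frm

/-- a bounded function on a nonempty class attains its maximum. -/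
theorem exists_top {α : Type*} {p : α → Prop} (f : α → ℕ) (N : ℕ) (hne : ∃ a, p a)
    (hN : ∀ a, p a → f a ≤ N) : ∃ a, p a ∧ ∀ b, p b → f b ≤ f a := by
  classical
  have hex : ∃ k : ℕ, ∃ a, p a ∧ N - f a = k := by
    obtain ⟨a, ha⟩ := hne
    exact ⟨_, a, ha, rfl⟩
  obtain ⟨a, ha, hk⟩ := Nat.find_spec hex
  refine ⟨a, ha, fun b hb => ?_⟩
  have h1 := Nat.find_min' hex ⟨b, hb, rfl⟩
  have h2 := hN a ha
  have h3 := hN b hb
  omega

/-- the frame: among all frames the set `U` has the largest size, and then the number of points of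
the leaves is as large as possible. -/
structure FrmU (B : ι → Finset V) (Q : Finset V) (T : Finset ι) (U : Finset V)
    (F : Finset (Finset V)) : Prop where
  frm : Frm B Q T U F
  top : ∀ (T' : Finset ι) (U' : Finset V) (F' : Finset (Finset V)),
    Frm B Q T' U' F' → U'.card ≤ U.card
  top2 : ∀ (T' : Finset ι) (U' : Finset V) (F' : Finset (Finset V)),
    Frm B Q T' U' F' → U'.card = U.card → (F'.biUnion id).card ≤ (F.biUnion id).card

theorem exists_frmU {Q : Finset V} (hc : Cov B Q) (h3 : Tr3 B Q) :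
    ∃ (T : Finset ι) (U : Finset V) (F : Finset (Finset V)), FrmU B Q T U F := by
  obtain ⟨T0, U0, F0, h0⟩ := exists_frm hc h3
  obtain ⟨⟨T1, U1, F1⟩, h1, hm1⟩ := exists_top
    (p := fun a : Finset ι × Finset V × Finset (Finset V) => Frm B Q a.1 a.2.1 a.2.2)
    (fun a => a.2.1.card) Q.card ⟨⟨T0, U0, F0⟩, h0⟩
    (fun a ha => card_le_card (ha.UD.trans Frm.DQ))
  obtain ⟨⟨T2, U2, F2⟩, ⟨h2, h2'⟩, hm2⟩ := exists_top
    (p := fun a : Finset ι × Finset V × Finset (Finset V) =>
      Frm B Q a.1 a.2.1 a.2.2 ∧ a.2.1.card = U1.card)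
    (fun a => (a.2.2.biUnion id).card) Q.card ⟨⟨T1, U1, F1⟩, h1, rfl⟩
    (fun a ha => by
      refine card_le_card fun v hv => ?_
      obtain ⟨C, hC, hvC⟩ := mem_biUnion.1 hv
      exact ha.1.FQ hC hvC)
  refine ⟨T2, U2, F2, h2, fun T' U' F' h => ?_, fun T' U' F' h he => ?_⟩
  · have h4 := hm1 ⟨T', U', F'⟩ h
    simp only at h4 h2'
    rw [h2']
    exact h4
  · exact hm2 ⟨T', U', F'⟩ ⟨h, he.trans h2'⟩

end Pool.Agent.Hyp6
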