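import Mathlib.Tactic

/-!
# HYP6 L3Vb: the centres of the triples with two points at one class (numbers)

A leaf `L` which is its own class and the centre of `b` triples `{a, b | c}`: `a` and `b` see no
other leaf. Such a triple pays `73 - 2 h` to its centre, `h` the number of hits of `a` and `b`
there, and `21` for every hit of `c`. In units of `1 / 15`.
-/

set_option autoImplicit false

namespace Pool.Agent.Hyp6

/-- the numbers of a leaf which is its own class: `m` points, `n1` single traces, `f` free places,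
`e` double singles, `g` hits of points of `U`, `t` hits of line triples, `s` hits of the pairs of
the triples centred there, `w` other hits. -/
structure Lf (D m n1 f e g t s w : ℤ) : Prop where
  dem : D = 180 - 18 * f - 3 * (n1 - g) + 30 * e
  plc : 2 * (t + s + w + g + f) = 3 * n1 + 5 * m
  m1 : 1 ≤ m
  mo : m % 2 = 1
  n0 : 1 ≤ n1
  no : n1 % 2 = 1
  f0 : 4 * e ≤ f
  e0 : 0 ≤ e
  g0 : 0 ≤ g
  gn : g ≤ n1
  t0 : 0 ≤ t
  s0 : 0 ≤ s
  w0 : 0 ≤ w
  pt : m = 1 → n1 = 5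

namespace Lf

variable {D m n1 f e g t s w q b : ℤ}

/-- at least two line triples. -/
theorem q2 (h : Lf D m n1 f e g t s w) (hq : 2 ≤ q) (hb : 1 ≤ b) (hs : s ≤ 8 * b) :
    D ≤ 70 * q + 22 * g + (73 * b - 2 * s) + 18 * w := by
  obtain ⟨h1, h2, h3, h4, h5, h6, h7, h8, h9, h10, h11, h12, h13, h14⟩ := h
  omega

/-- a line triple and at least two pairs. -/
theorem q1b2 (h : Lf D m n1 f e g t s w) (hq : 1 ≤ q) (hb : 2 ≤ b) (hs : s ≤ 8 * b) :
    D ≤ 70 * q + 22 * g + (73 * b - 2 * s) + 18 * w := by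
  obtain ⟨h1, h2, h3, h4, h5, h6, h7, h8, h9, h10, h11, h12, h13, h14⟩ := h
  omega

/-- a line triple, one pair and two further hits (or a point with few hits). -/
theorem q1b1 (h : Lf D m n1 f e g t s w) (hs8 : s ≤ 8) (hsn : s + 2 * e ≤ n1)
    (ha : 2 ≤ w + g ∨ (m = 1 ∧ t + s ≤ 8)) :
    D ≤ 70 + 22 * g + (73 - 2 * s) + 18 * w := by
  obtain ⟨h1, h2, h3, h4, h5, h6, h7, h8, h9, h10, h11, h12, h13, h14⟩ := h
  rcases ha with ha | ⟨ha, hb⟩
  · omega
  · have := h14 ha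
    omega

/-- one pair, no line triple: all cases but a point without points of `U` all of whose hit blocks
meet the pair. -/
theorem q0b1 (h : Lf D m n1 f e g t s w) (ht : t = 0) (hs8 : s ≤ 8) (hsn : s + 2 * e ≤ n1)
    (hx : m = 1 → s + 2 * e ≤ 4 ∨ s ≤ 2 ∨ 1 ≤ g) :
    D ≤ 36 * g + (73 - 2 * s) + 18 * w := by
  obtain ⟨h1, h2, h3, h4, h5, h6, h7, h8, h9, h10, h11, h12, h13, h14⟩ := h
  by_cases hm : m = 1
  · have h15 := h14 hm
    have h16 := hx hm
    omega
  · omega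

/-- the exception. -/
theorem q0b1x (h : Lf D m n1 f e g t s w) (ht : t = 0) (hm : m = 1)
    (hsn : s + 2 * e ≤ n1) : D ≤ 75 - 15 * g + 36 * g + 18 * w := by
  obtain ⟨h1, h2, h3, h4, h5, h6, h7, h8, h9, h10, h11, h12, h13, h14⟩ := h
  have h15 := h14 hm
  omega

/-- two pairs, no line triple. -/
theorem q0b2 (h : Lf D m n1 f e g t s w) {s1 s2 : ℤ} (ht : t = 0) (hs : s = s1 + s2)
    (ha : s1 ≤ 8) (hb : s2 ≤ 8) (hn1 : s1 + 2 * e ≤ n1) (hn2 : s2 + 2 * e ≤ n1)
    (hx : m = 1 → s ≤ 8) :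
    D ≤ 36 * g + (146 - 2 * s) + 18 * w := by
  obtain ⟨h1, h2, h3, h4, h5, h6, h7, h8, h9, h10, h11, h12, h13, h14⟩ := h
  by_cases hm : m = 1
  · have h15 := h14 hm
    have h16 := hx hm
    omega
  · omega

/-- three pairs, no line triple. -/
theorem q0b3 (h : Lf D m n1 f e g t s w) (hs : s ≤ 24) (hn : s + 6 * e ≤ 3 * n1) :
    D ≤ 22 * g + (219 - 2 * s) + 18 * w := by
  obtain ⟨h1, h2, h3, h4, h5, h6, h7, h8, h9, h10, h11, h12, h13, h14⟩ := h
  omega

/-- four or more pairs. -/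
theorem q0b4 (h : Lf D m n1 f e g t s w) (hb : 4 ≤ b) (hs : s ≤ 8 * b) :
    D ≤ 22 * g + (73 * b - 2 * s) + 18 * w := by
  obtain ⟨h1, h2, h3, h4, h5, h6, h7, h8, h9, h10, h11, h12, h13, h14⟩ := h
  omega

end Lf

end Pool.Agent.Hyp6
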