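import Pool.Agent.Hyp6.L3Vc
import Pool.Agent.Hyp6.L3Fr

/-!
# HYP6 L3Vd: single leaves with a centre and with line triples, the integers

`cstB k`: the least payment of a line triple with `k` hits, for them and for itself. `NumK`: the numbers
of a single leaf with a centre and line triples, with the tables `NumK.q3`, `b3`, `q2b2`, `q2b1`,
`q1b2`, `q1b1`.
-/

set_option autoImplicit false

namespace Pool.Agent.Hyp6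

open Finset Pool.Agent.Hyp5 Rt

universe u v

variable {V : Type v} [DecidableEq V] {ι : Type u} [Fintype ι] [DecidableEq ι]
  {B : ι → Finset V}

/-- the least payment of a line triple with `k` hits, for them and for itself. -/
def cstB (k : ℕ) : ℤ := if k = 0 then 464 else 560 + pm k

theorem cstB_cases (k : ℕ) : ((k : ℤ) = 0 ∧ cstB k = 464) ∨ ((k : ℤ) = 1 ∧ cstB k = 399) ∨
    ((k : ℤ) = 2 ∧ cstB k = 463) ∨ ((k : ℤ) = 3 ∧ cstB k = 527) ∨ ((k : ℤ) = 4 ∧ cstB k = 516) ∨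
    ((k : ℤ) = 5 ∧ cstB k = 575) ∨ ((k : ℤ) = 6 ∧ cstB k = 559) ∨ ((k : ℤ) = 7 ∧ cstB k = 543) ∨
    ((k : ℤ) = 8 ∧ cstB k = 527) ∨ ((k : ℤ) = 9 ∧ cstB k = 591) ∨
    (10 ≤ (k : ℤ) ∧ cstB k = 601) := by
  rcases (by omega : k = 0 ∨ k = 1 ∨ k = 2 ∨ k = 3 ∨ k = 4 ∨ k = 5 ∨ k = 6 ∨ k = 7 ∨ k = 8 ∨
    k = 9 ∨ 10 ≤ k) with rfl | rfl | rfl | rfl | rfl | rfl | rfl | rfl | rfl | rfl | h
  iterate 10 simp [cstB, pm]
  have h1 : cstB k = 601 := by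
    unfold cstB pm
    split_ifs <;> omega
  have h2 : (10 : ℤ) ≤ k := by exact_mod_cast h
  exact Or.inr (Or.inr (Or.inr (Or.inr (Or.inr (Or.inr (Or.inr (Or.inr (Or.inr
    (Or.inr ⟨h2, h1⟩)))))))))

theorem cstB_low (k : ℕ) : ((k : ℤ) ≤ 1 ∧ 399 ≤ cstB k) ∨
    ((k : ℤ) ≤ 2 ∧ 463 ≤ cstB k) ∨ 516 ≤ cstB k := by
  unfold cstB pm
  split_ifs <;> omega

theorem cstB_ge (k : ℕ) : 399 ≤ cstB k := by
  unfold cstB pm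
  split_ifs <;> omega

/-- the numbers of a single leaf with a centre: `c` the payments of the line triples, `K` their hits,
`S` the hits of the pairs of the `b` triples centred there, `w` the other hits of triples, `g` the hits
of points of `U`, `f` free places, `pi` the number of poor triples, `G` what is missing. -/
structure NumK (G c n m f e g K S w b pi : ℤ) : Prop where
  slot : 2 * (K + S + w + g + f) = 3 * n + 5 * m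
  up : G ≤ 144 * K - c + 160 * S - 584 * b - 76 * pi - 5 * w - 5 * g + 240 * e -
    120 * (2 * n + 3 * m - 11) + 120
  m1 : 1 ≤ m
  mo : m % 2 = 1
  n1 : 1 ≤ n
  no : n % 2 = 1
  pt : m = 1 → n = 5
  f0 : 4 * e ≤ f
  e0 : 0 ≤ e
  g0 : 0 ≤ g
  w0 : 0 ≤ w
  p0 : 0 ≤ pi
  S0 : 0 ≤ S
  K0 : 0 ≤ K
  S8 : S ≤ 8 * b
  ne : 2 * e ≤ n

namespace NumK

variable {G c n m f e g K S w b pi : ℤ}

/-- the bound by the places. -/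
theorem le (h : NumK G c n m f e g K S w b pi) :
    G ≤ 1440 - 24 * n - c + 16 * S - 584 * b - 76 * pi - 149 * w - 149 * g - 144 * f +
      240 * e := by
  have h1 := h.up
  have h2 := h.slot
  linarith

theorem le' (h : NumK G c n m f e g K S w b pi) :
    G ≤ 1440 - 24 * n - c + 16 * S - 584 * b - 76 * pi - 144 * (w + g + f) + 240 * e := by
  have h1 := h.le
  have h2 := h.w0
  have h3 := h.g0
  linarith

/-- three line triples. -/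
theorem q3 (h : NumK G c n m f e g K S w b pi) (hb : 1 ≤ b) (hc : 1197 ≤ c) : G ≤ 0 := by
  have h1 := h.le'
  obtain ⟨_, _, _, _, h3, _, _, h6, h7, h8, h9, h10, h11, h14, h12, h13⟩ := h
  linarith

/-- three centred triples. -/
theorem b3 (h : NumK G c n m f e g K S w b pi) (hb : 3 ≤ b) (hc : 399 ≤ c) : G ≤ 0 := by
  have h1 := h.le'
  obtain ⟨_, _, _, _, h3, _, _, h6, h7, h8, h9, h10, h11, h14, h12, h13⟩ := h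
  linarith

/-- two line triples and two centred triples. -/
theorem q2b2 (h : NumK G c n m f e g K S w b pi) (hb : 2 ≤ b) (hc : 798 ≤ c) : G ≤ 0 := by
  have h1 := h.le'
  obtain ⟨_, _, _, _, h3, _, _, h6, h7, h8, h9, h10, h11, h14, h12, h13⟩ := h
  linarith

/-- two line triples and one centred triple. -/
theorem q2b1 (h : NumK G c n m f e g K S w b pi) (hb : b = 1)
    (hc : (K ≤ 2 ∧ 798 ≤ c) ∨ (K ≤ 3 ∧ 862 ≤ c) ∨ 915 ≤ c)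
    (hs3 : m ≤ 3 → S + 2 * e ≤ n) (hs5 : 5 ≤ m → pi = 1 ∨ S + 4 * e ≤ 2 * n) : G ≤ 0 := by
  have h1 := h.le'
  obtain ⟨h0, _, h2, h2', h3, h3', h4, h6, h7, h8, h9, h10, h11, h14, h12, h13⟩ := h
  subst hb
  rcases (by omega : m = 1 ∨ m = 3 ∨ 5 ≤ m) with rfl | rfl | hm
  · obtain rfl := h4 rfl
    have hs := hs3 (by norm_num)
    rcases hc with ⟨hK, hc⟩ | ⟨hK, hc⟩ | hc <;> linarith
  · have hs := hs3 (by norm_num)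
    rcases hc with ⟨hK, hc⟩ | ⟨hK, hc⟩ | hc <;> linarith
  · have hs := hs5 hm
    rcases hc with ⟨hK, hc⟩ | ⟨hK, hc⟩ | hc
    · linarith
    · linarith
    · rcases (by omega : n = 1 ∨ 3 ≤ n) with rfl | hn
      · rcases hs with hs | hs <;> linarith
      · linarith

/-- one line triple and two centred triples. -/
theorem q1b2 (h : NumK G c n m f e g K S w b pi) (hb : b = 2)
    (hc : (K ≤ 1 ∧ 399 ≤ c) ∨ (K ≤ 2 ∧ 463 ≤ c) ∨ 516 ≤ c)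
    {s1 s2 p1 p2 : ℤ} (hS : S = s1 + s2) (hpi : pi = p1 + p2) (h1p : 0 ≤ p1) (h2p : 0 ≤ p2)
    (h81 : s1 ≤ 8) (h82 : s2 ≤ 8)
    (hs3 : m ≤ 3 → s1 + 2 * e ≤ n) (hs5 : 5 ≤ m → p1 = 1 ∨ s1 + 4 * e ≤ 2 * n)
    (hs3' : m ≤ 3 → s2 + 2 * e ≤ n) (hs5' : 5 ≤ m → p2 = 1 ∨ s2 + 4 * e ≤ 2 * n)
    (h51 : m = 5 → n = 1 → S ≤ 12) : G ≤ 0 := by
  have h1 := h.le'
  obtain ⟨h0, h00, h2, h2', h3, h3', h4, h6, h7, h8, h9, h10, h11, h14, h12, h13⟩ := h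
  subst hb hS hpi
  rcases hc with ⟨hK, hc⟩ | ⟨hK, hc⟩ | hc
  · rcases (by omega : m = 1 ∨ m = 3 ∨ m = 5 ∨ 7 ≤ m) with rfl | rfl | rfl | hm
    · obtain rfl := h4 rfl
      have hs := hs3 (by norm_num)
      have hs' := hs3' (by norm_num)
      rcases (by omega : e = 0 ∨ 1 ≤ e) with rfl | he
      · linarith
      · linarith
    · have hs := hs3 (by norm_num)
      have hs' := hs3' (by norm_num)
      rcases (by omega : n ≤ 9 ∨ 11 ≤ n) with hn | hn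
      · linarith
      · linarith
    · have hs := hs5 (by norm_num)
      have hs' := hs5' (by norm_num)
      rcases (by omega : n = 1 ∨ n = 3 ∨ n = 5 ∨ 7 ≤ n) with rfl | rfl | rfl | hn
      · have := h51 rfl rfl
        linarith
      · rcases (by omega : e = 0 ∨ e = 1) with rfl | rfl
        · rcases hs with hs | hs <;> rcases hs' with hs' | hs' <;> linarith
        · linarith
      · linarith
      · linarith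
    · linarith
  · rcases (by omega : m = 1 ∨ m = 3 ∨ m = 5 ∨ 7 ≤ m) with rfl | rfl | rfl | hm
    · obtain rfl := h4 rfl
      have hs := hs3 (by norm_num)
      have hs' := hs3' (by norm_num)
      rcases (by omega : e = 0 ∨ 1 ≤ e) with rfl | he
      · linarith
      · linarith
    · have hs := hs3 (by norm_num)
      have hs' := hs3' (by norm_num)
      rcases (by omega : n ≤ 9 ∨ 11 ≤ n) with hn | hn
      · linarith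
      · linarith
    · have hs := hs5 (by norm_num)
      have hs' := hs5' (by norm_num)
      rcases (by omega : n = 1 ∨ n = 3 ∨ n = 5 ∨ 7 ≤ n) with rfl | rfl | rfl | hn
      · have := h51 rfl rfl
        linarith
      · rcases (by omega : e = 0 ∨ e = 1) with rfl | rfl
        · rcases hs with hs | hs <;> rcases hs' with hs' | hs' <;> linarith
        · linarith
      · linarith
      · linarith
    · linarith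
  · rcases (by omega : 1 ≤ e ∨ e = 0) with he | rfl
    · linarith
    · linarith

/-- one line triple and one centred triple, no own hits. -/
theorem q1b1 (h : NumK G c n m f e g K S w b pi) (hb : b = 1)
    (hc : (K = 0 ∧ c = 464) ∨ (K = 1 ∧ c = 399) ∨ (K = 2 ∧ c = 463) ∨ (K = 3 ∧ c = 527) ∨ (K = 4 ∧ c = 516) ∨
      (K = 5 ∧ c = 575) ∨ (K = 6 ∧ c = 559) ∨ (K = 7 ∧ c = 543) ∨ (K = 8 ∧ c = 527) ∨
      (K = 9 ∧ c = 591) ∨ (10 ≤ K ∧ c = 601))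
    (hs3 : m ≤ 3 → S + 2 * e ≤ n) (hs5 : 5 ≤ m → pi = 1 ∨ S + 4 * e ≤ 2 * n)
    (h51 : m = 5 → n = 1 → S ≤ 6) {w2 : ℤ} (hw2 : w2 ≤ w + g)
    (hA : Few2 (2 * n + 3 * m - 11 - 1 - 2 * e) (K + S + w + g - w2) w2) : G ≤ 0 := by
  have h1 := h.le
  obtain ⟨h0, h00, h2, h2', h3, h3', h4, h6, h7, h8, h9, h10, h11, h14, h12, h13⟩ := h
  obtain ⟨a1, a2, a3, a4⟩ := hA
  subst hb
  rcases (by omega : m = 1 ∨ m = 3 ∨ m = 5 ∨ 7 ≤ m) with rfl | rfl | rfl | hm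
  · obtain rfl : n = 5 := h4 rfl
    have hs := hs3 (by norm_num)
    clear hs3 hs5 h51 a4 a1
    rcases (by omega : e = 0 ∨ 1 ≤ e) with rfl | he
    · have hf : 2 ≤ w + g + f ∧ (w + g + f = 2 → 1 ≤ w + g) := by
        constructor
        · by_contra hcon
          have b1 := a2 (by omega) (by omega)
          have b2 := a3 (by omega)
          omega
        · intro hcon
          by_contra hcon'
          have b2 := a3 (by omega) (by omega)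
          omega
      have h5 : 293 ≤ 149 * (w + g) + 144 * f := by
        rcases (by omega : w + g + f = 2 ∨ 3 ≤ w + g + f) with h5 | h5
        · have := hf.2 h5
          linarith
        · linarith
      clear a2 a3
      rcases hc with ⟨rfl, rfl⟩ | ⟨rfl, rfl⟩ | ⟨rfl, rfl⟩ | ⟨rfl, rfl⟩ | ⟨rfl, rfl⟩ | ⟨rfl, rfl⟩ | ⟨rfl, rfl⟩ |
        ⟨rfl, rfl⟩ | ⟨rfl, rfl⟩ | ⟨rfl, rfl⟩ | ⟨hK, rfl⟩ <;> linarith
    · clear a2 a3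
      rcases hc with ⟨rfl, rfl⟩ | ⟨rfl, rfl⟩ | ⟨rfl, rfl⟩ | ⟨rfl, rfl⟩ | ⟨rfl, rfl⟩ | ⟨rfl, rfl⟩ | ⟨rfl, rfl⟩ |
        ⟨rfl, rfl⟩ | ⟨rfl, rfl⟩ | ⟨rfl, rfl⟩ | ⟨hK, rfl⟩ <;> linarith
  · have hs := hs3 (by norm_num)
    clear hs3 hs5 h51 h4
    rcases (by omega : 1 ≤ e ∨ n = 1 ∧ e = 0 ∨ 3 ≤ n ∧ e = 0) with he | ⟨rfl, rfl⟩ | ⟨hn, rfl⟩
    · clear a1 a2 a3 a4
      rcases hc with ⟨rfl, rfl⟩ | ⟨rfl, rfl⟩ | ⟨rfl, rfl⟩ | ⟨rfl, rfl⟩ | ⟨rfl, rfl⟩ | ⟨rfl, rfl⟩ | ⟨rfl, rfl⟩ |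
        ⟨rfl, rfl⟩ | ⟨rfl, rfl⟩ | ⟨rfl, rfl⟩ | ⟨hK, rfl⟩ <;> linarith
    · have hf : 2 ≤ w + g ∨ 6 ≤ f := by
        by_contra hcon
        have b1 := a1 (by omega) (by omega)
        omega
      clear a1 a2 a3 a4
      rcases hf with hf | hf <;>
      rcases hc with ⟨rfl, rfl⟩ | ⟨rfl, rfl⟩ | ⟨rfl, rfl⟩ | ⟨rfl, rfl⟩ | ⟨rfl, rfl⟩ | ⟨rfl, rfl⟩ | ⟨rfl, rfl⟩ |
        ⟨rfl, rfl⟩ | ⟨rfl, rfl⟩ | ⟨rfl, rfl⟩ | ⟨hK, rfl⟩ <;> linarith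
    · have b1 := a4 (by omega)
      clear a1 a2 a3 a4
      rcases (by omega : n = 3 ∨ 5 ≤ n) with rfl | hn
      · rcases hc with ⟨rfl, rfl⟩ | ⟨rfl, rfl⟩ | ⟨rfl, rfl⟩ | ⟨rfl, rfl⟩ | ⟨rfl, rfl⟩ | ⟨rfl, rfl⟩ |
          ⟨rfl, rfl⟩ | ⟨rfl, rfl⟩ | ⟨rfl, rfl⟩ | ⟨rfl, rfl⟩ | ⟨hK, rfl⟩ <;> linarith
      · rcases hc with ⟨rfl, rfl⟩ | ⟨rfl, rfl⟩ | ⟨rfl, rfl⟩ | ⟨rfl, rfl⟩ | ⟨rfl, rfl⟩ | ⟨rfl, rfl⟩ |
          ⟨rfl, rfl⟩ | ⟨rfl, rfl⟩ | ⟨rfl, rfl⟩ | ⟨rfl, rfl⟩ | ⟨hK, rfl⟩ <;> linarith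
  · have hs := hs5 (by norm_num)
    have hs' := h51 rfl
    clear hs3 hs5 h51 h4
    rcases (by omega : 1 ≤ e ∧ 3 ≤ n ∨ n = 1 ∧ e = 0 ∨ 3 ≤ n ∧ e = 0) with
      ⟨he, hn⟩ | ⟨rfl, rfl⟩ | ⟨hn, rfl⟩
    · clear a1 a2 a3 a4
      rcases hs with hs | hs <;>
      rcases hc with ⟨rfl, rfl⟩ | ⟨rfl, rfl⟩ | ⟨rfl, rfl⟩ | ⟨rfl, rfl⟩ | ⟨rfl, rfl⟩ | ⟨rfl, rfl⟩ | ⟨rfl, rfl⟩ |
        ⟨rfl, rfl⟩ | ⟨rfl, rfl⟩ | ⟨rfl, rfl⟩ | ⟨hK, rfl⟩ <;> linarith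
    · have b1 := a4 (by omega)
      have := hs' rfl
      clear a1 a2 a3 a4
      rcases hs with hs | hs <;>
      rcases hc with ⟨rfl, rfl⟩ | ⟨rfl, rfl⟩ | ⟨rfl, rfl⟩ | ⟨rfl, rfl⟩ | ⟨rfl, rfl⟩ | ⟨rfl, rfl⟩ | ⟨rfl, rfl⟩ |
        ⟨rfl, rfl⟩ | ⟨rfl, rfl⟩ | ⟨rfl, rfl⟩ | ⟨hK, rfl⟩ <;> linarith
    · have b1 := a4 (by omega)
      clear a1 a2 a3 a4
      rcases (by omega : n = 3 ∨ 5 ≤ n) with rfl | hn
      · rcases hs with hs | hs <;>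
        rcases hc with ⟨rfl, rfl⟩ | ⟨rfl, rfl⟩ | ⟨rfl, rfl⟩ | ⟨rfl, rfl⟩ | ⟨rfl, rfl⟩ | ⟨rfl, rfl⟩ |
          ⟨rfl, rfl⟩ | ⟨rfl, rfl⟩ | ⟨rfl, rfl⟩ | ⟨rfl, rfl⟩ | ⟨hK, rfl⟩ <;> linarith
      · rcases hc with ⟨rfl, rfl⟩ | ⟨rfl, rfl⟩ | ⟨rfl, rfl⟩ | ⟨rfl, rfl⟩ | ⟨rfl, rfl⟩ | ⟨rfl, rfl⟩ |
          ⟨rfl, rfl⟩ | ⟨rfl, rfl⟩ | ⟨rfl, rfl⟩ | ⟨rfl, rfl⟩ | ⟨hK, rfl⟩ <;> linarith
  · have hs := hs5 (by omega)
    clear hs3 hs5 h51 h4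
    rcases (by omega : 1 ≤ e ∨ e = 0) with he | rfl
    · clear a1 a2 a3 a4
      have hn : 3 ≤ n := by omega
      rcases hc with ⟨rfl, rfl⟩ | ⟨rfl, rfl⟩ | ⟨rfl, rfl⟩ | ⟨rfl, rfl⟩ | ⟨rfl, rfl⟩ | ⟨rfl, rfl⟩ | ⟨rfl, rfl⟩ |
        ⟨rfl, rfl⟩ | ⟨rfl, rfl⟩ | ⟨rfl, rfl⟩ | ⟨hK, rfl⟩ <;> linarith
    · have b1 := a4 (by omega)
      clear a1 a2 a3 a4
      rcases (by omega : n = 1 ∨ n = 3 ∨ 5 ≤ n) with rfl | rfl | hn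
      · rcases hs with hs | hs <;>
        rcases hc with ⟨rfl, rfl⟩ | ⟨rfl, rfl⟩ | ⟨rfl, rfl⟩ | ⟨rfl, rfl⟩ | ⟨rfl, rfl⟩ | ⟨rfl, rfl⟩ |
          ⟨rfl, rfl⟩ | ⟨rfl, rfl⟩ | ⟨rfl, rfl⟩ | ⟨rfl, rfl⟩ | ⟨hK, rfl⟩ <;> linarith
      · rcases hs with hs | hs <;>
        rcases hc with ⟨rfl, rfl⟩ | ⟨rfl, rfl⟩ | ⟨rfl, rfl⟩ | ⟨rfl, rfl⟩ | ⟨rfl, rfl⟩ | ⟨rfl, rfl⟩ |
          ⟨rfl, rfl⟩ | ⟨rfl, rfl⟩ | ⟨rfl, rfl⟩ | ⟨rfl, rfl⟩ | ⟨hK, rfl⟩ <;> linarith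
      · rcases hc with ⟨rfl, rfl⟩ | ⟨rfl, rfl⟩ | ⟨rfl, rfl⟩ | ⟨rfl, rfl⟩ | ⟨rfl, rfl⟩ | ⟨rfl, rfl⟩ |
          ⟨rfl, rfl⟩ | ⟨rfl, rfl⟩ | ⟨rfl, rfl⟩ | ⟨rfl, rfl⟩ | ⟨hK, rfl⟩ <;> linarith

end NumK

end Pool.Agent.Hyp6
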