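import Pool.Agent.Hyp6.L3Vd
import Pool.Agent.Hyp6.L3Yh

/-!
# HYP6 L3Ve: single leaves with a centre and with line triples

`Stg.nC_one`: the need of a single leaf without its line triples. `Stg.numK`: the numbers.
`Stg.BLn`: the inequality for any needs of the line triples with `144 h - cstB h` at least.
`StgR.BL`: the line `BL` of `finT`; `StgR.ms_pm`: a private single leaf with a centre.
-/

set_option autoImplicit false

namespace Pool.Agent.Hyp6

open Finset Pool.Agent.Hyp5 Rt

universe u v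

variable {V : Type v} [DecidableEq V] {ι : Type u} [Fintype ι] [DecidableEq ι]
  {B : ι → Finset V}

namespace Stg

variable {Q U : Finset V} {T : Finset ι} {F : Finset (Finset V)}
  {P : Finset (Finset (Finset V))} {a : V → Finset (Finset V) → ℕ} {W : Finset V}

/-- the need of a single leaf without its line triples. -/
theorem nC_one (s : Stg B Q T U F P a) (hW : {W} ∈ P) (hK : KC B Q T U F {W} = ∅) :
    nC B Q T U F P {W} = ∑ j ∈ Trs B Q T (Rg B Q T U F) U F P,
      (144 * (jh B Q j W : ℤ) - Xv 149 B Q T U F P j {W}) - 5 * (hit B U W : ℤ) +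
      (240 * (ee B Q W : ℤ) - 120 * Pp B W + 120) := by
  unfold nC
  rw [hK, sum_empty, s.uin_one, sum_empty, sum_singleton, s.gC_one hW]
  simp only [s.jC_one]
  ring

/-- **the numbers of a single leaf with a centre**. -/
theorem numK (s : Stg B Q T U F P a) (hW : {W} ∈ P) (hK : KC B Q T U F {W} = ∅) {C : ι → ℤ}
    (hC : ∀ j ∈ aC B Q T U F P {W}, C j ≤ 144 * (jh B Q j W : ℤ) - cstB (jh B Q j W)) :
    NumK (∑ j ∈ aC B Q T U F P {W}, C j + nC B Q T U F P {W})
      (∑ j ∈ aC B Q T U F P {W}, cstB (jh B Q j W)) (nt B W 1) W.card (fs B Q W) (ee B Q W)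
      (hit B U W) (∑ j ∈ aC B Q T U F P {W}, (jh B Q j W : ℤ))
      (∑ j ∈ Bs B Q T U F P W, (sB B Q F j W : ℤ))
      (∑ j ∈ Trs B Q T (Rg B Q T U F) U F P, (jh B Q j W : ℤ) -
        ∑ j ∈ Bs B Q T U F P W, (sB B Q F j W : ℤ)) (Bs B Q T U F P W).card
      (∑ j ∈ Bs B Q T U F P W, (pB B Q T U F P j W : ℤ)) := by
  have h := s.numB hW
  have hK' : Sp.Kin (Rg B Q T U F) (slj B Q F) {W} = ∅ := hK
  rw [hK', sum_empty] at h
  have h4 := s.sum_terms hW
  have h5 := sum_le_sum hC
  rw [sum_sub_distrib, ← mul_sum] at h5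
  rw [s.nC_one hW hK]
  generalize ∑ j ∈ aC B Q T U F P {W}, C j = x1 at h5 ⊢
  generalize ∑ j ∈ aC B Q T U F P {W}, cstB (jh B Q j W) = x2 at h5 ⊢
  generalize ∑ j ∈ Trs B Q T (Rg B Q T U F) U F P,
      (144 * (jh B Q j W : ℤ) - Xv 149 B Q T U F P j {W}) = x3 at h4 ⊢
  generalize ∑ j ∈ aC B Q T U F P {W}, (jh B Q j W : ℤ) = x4 at h h5 ⊢
  generalize ∑ j ∈ Bs B Q T U F P W, (sB B Q F j W : ℤ) = x5 at h h4 ⊢
  generalize ∑ j ∈ Trs B Q T (Rg B Q T U F) U F P, (jh B Q j W : ℤ) = x6 at h h4 ⊢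
  generalize ∑ j ∈ Bs B Q T U F P W, (pB B Q T U F P j W : ℤ) = x7 at h h4 ⊢
  generalize msC 149 B Q T U F P a {W} = x8 at h
  obtain ⟨⟨h21, h22, h23, h24, h25, h26, h27, h28, h29, h30, h31, h32, h33⟩, _, _, _, h37,
    h38, h39, h40, h41, h42, h43, h44, h45, h46, h47⟩ := h
  refine ⟨by linarith, ?_, h23, h24, h25, h26, h27, h28, h29, h30, h41, h43, h40, h39, h37, h46⟩
  rw [← h21]
  linarith

/-- **a single leaf with a centre and line triples**. -/
theorem BLn (s : Stg B Q T U F P a) (hF : Few B Q T F) (hW : {W} ∈ P)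
    (hK : KC B Q T U F {W} = ∅) (hb : (Bs B Q T U F P W).Nonempty)
    (hq : (aC B Q T U F P {W}).Nonempty)
    (h51 : ∀ j ∈ Bs B Q T U F P W, W.card = 5 → nt B W 1 = 1 → sB B Q F j W ≤ 6)
    {C : ι → ℤ}
    (hC : ∀ j ∈ aC B Q T U F P {W}, C j ≤ 144 * (jh B Q j W : ℤ) - cstB (jh B Q j W)) :
    ∑ j ∈ aC B Q T U F P {W}, C j + nC B Q T U F P {W} ≤ 0 := by
  have hWF : W ∈ F := (s.part.ptn.vc {W} hW).sub (mem_singleton_self W)
  have h := s.numK hW hK hC
  have hb1 : 1 ≤ (Bs B Q T U F P W).card := card_pos.2 hb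
  have hq1' : 1 ≤ (aC B Q T U F P {W}).card := card_pos.2 hq
  have hcge : ∀ j ∈ aC B Q T U F P {W}, 399 ≤ cstB (jh B Q j W) := fun j _ => cstB_ge _
  have hcs := sum_le_sum hcge
  rw [sum_const, nsmul_eq_mul] at hcs
  have hK' : Sp.Kin (Rg B Q T U F) (slj B Q F) {W} = ∅ := hK
  generalize ∑ j ∈ aC B Q T U F P {W}, C j + nC B Q T U F P {W} = G at h ⊢
  rcases (by omega : (aC B Q T U F P {W}).card = 1 ∨ (aC B Q T U F P {W}).card = 2 ∨
    3 ≤ (aC B Q T U F P {W}).card) with hq1 | hq2 | hq3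
  · -- one line triple
    obtain ⟨i, hi⟩ := card_eq_one.1 hq1
    have hiA : i ∈ aC B Q T U F P {W} := by rw [hi]; exact mem_singleton_self i
    have hiT : i ∈ tl B Q T U F P := (Sp.mem_atl.1 hiA).1
    rcases (by omega : (Bs B Q T U F P W).card = 1 ∨ (Bs B Q T U F P W).card = 2 ∨
      3 ≤ (Bs B Q T U F P W).card) with h1 | h1 | h1
    · obtain ⟨j, hj⟩ := card_eq_one.1 h1
      have hjB : j ∈ Bs B Q T U F P W := by rw [hj]; exact mem_singleton_self j
      have hjT := (mem_Bs.1 hjB).1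
      have hij : i ≠ j := by
        rintro rfl
        exact (mem_sdiff.1 hjT).2 hiT
      have hiT' := (s.tl_sub hiT).1
      have hjT' := (s.frm.types_trs s.part hjT).1
      obtain ⟨w2, h3, h4⟩ := s.few2 hF hWF hiT' hjT' hij
      have h5 := s.sum_jh hW
      have h6 : (sB B Q F j W : ℤ) ≤ jh B Q j W := by exact_mod_cast s.sB_le
      rw [hK', sum_empty, add_zero] at h5
      have hp := (s.numB hW).num.pp
      rw [hi, hj] at h
      rw [hi] at h5
      simp only [sum_singleton, card_singleton] at h h5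
      rw [h5] at h3 h4
      refine h.q1b1 (by norm_num) (cstB_cases _) (fun hm => ?_) (fun _ => ?_) (fun h7 h8 => ?_)
        (w2 := w2) ?_ ?_
      · exact_mod_cast s.sB_small hjB (by exact_mod_cast hm)
      · exact s.sB_big hWF hjB
      · exact_mod_cast h51 j hjB (by exact_mod_cast h7) (by exact_mod_cast h8)
      · linarith
      · rw [← hp]
        have h9 : (jh B Q i W : ℤ) + (sB B Q F j W : ℤ) +
            (∑ j ∈ Trs B Q T (Rg B Q T U F) U F P, (jh B Q j W : ℤ) - (sB B Q F j W : ℤ)) +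
            (hit B U W : ℤ) - w2 =
            (jh B Q i W : ℤ) + ∑ j ∈ Trs B Q T (Rg B Q T U F) U F P, (jh B Q j W : ℤ) +
            (hit B U W : ℤ) - w2 := by ring
        rw [h9]
        exact h3
    · obtain ⟨j1, j2, hj12, hj⟩ := card_eq_two.1 h1
      have hB1 : j1 ∈ Bs B Q T U F P W := by rw [hj]; simp
      have hB2 : j2 ∈ Bs B Q T U F P W := by rw [hj]; simp
      rw [hi] at h
      simp only [sum_singleton] at h
      refine h.q1b2 (s1 := sB B Q F j1 W) (s2 := sB B Q F j2 W) (p1 := pB B Q T U F P j1 W)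
        (p2 := pB B Q T U F P j2 W) (by exact_mod_cast h1) (cstB_low _)
        (by rw [hj, sum_pair hj12])
        (by rw [hj, sum_pair hj12]) (by positivity) (by positivity)
        (by exact_mod_cast s.sB_eight hWF hB1) (by exact_mod_cast s.sB_eight hWF hB2)
        (fun hm => ?_) (fun _ => s.sB_big hWF hB1) (fun hm => ?_) (fun _ => s.sB_big hWF hB2)
        (fun h7 h8 => ?_)
      · exact_mod_cast s.sB_small hB1 (by exact_mod_cast hm)
      · exact_mod_cast s.sB_small hB2 (by exact_mod_cast hm)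
      · rw [hj, sum_pair hj12]
        have h9 := h51 j1 hB1 (by exact_mod_cast h7) (by exact_mod_cast h8)
        have h10 := h51 j2 hB2 (by exact_mod_cast h7) (by exact_mod_cast h8)
        clear h hcs
        push_cast
        omega
    · exact h.b3 (by exact_mod_cast h1) (by rw [hq1] at hcs; push_cast at hcs; linarith)
  · -- two line triples
    rcases (by omega : (Bs B Q T U F P W).card = 1 ∨ 2 ≤ (Bs B Q T U F P W).card) with h1 | h1
    · obtain ⟨j, hj⟩ := card_eq_one.1 h1
      have hjB : j ∈ Bs B Q T U F P W := by rw [hj]; exact mem_singleton_self j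
      obtain ⟨i1, i2, hi12, hi⟩ := card_eq_two.1 hq2
      have e1 := cstB_cases (jh B Q i1 W)
      have e2 := cstB_cases (jh B Q i2 W)
      rw [hi, hj] at h
      simp only [sum_singleton, card_singleton, sum_pair hi12] at h
      refine h.q2b1 (by norm_num) ?_ (fun hm => ?_) (fun _ => ?_)
      · clear h hcs hcge
        generalize (jh B Q i1 W : ℤ) = k1 at e1 ⊢
        generalize (jh B Q i2 W : ℤ) = k2 at e2 ⊢
        generalize cstB (jh B Q i1 W) = c1 at e1 ⊢
        generalize cstB (jh B Q i2 W) = c2 at e2 ⊢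
        have f1 : (k1 = 1 ∧ c1 = 399) ∨ (k1 ≤ 2 ∧ 463 ≤ c1) ∨ 516 ≤ c1 := by
          rcases e1 with r | r | r | r | r | r | r | r | r | r | r
          · exact Or.inr (Or.inl ⟨by linarith [r.1], by linarith [r.2]⟩)
          · exact Or.inl r
          · exact Or.inr (Or.inl ⟨by linarith [r.1], by linarith [r.2]⟩)
          all_goals exact Or.inr (Or.inr (by linarith [r.2]))
        have f2 : (k2 = 1 ∧ c2 = 399) ∨ (k2 ≤ 2 ∧ 463 ≤ c2) ∨ 516 ≤ c2 := by
          rcases e2 with r | r | r | r | r | r | r | r | r | r | r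
          · exact Or.inr (Or.inl ⟨by linarith [r.1], by linarith [r.2]⟩)
          · exact Or.inl r
          · exact Or.inr (Or.inl ⟨by linarith [r.1], by linarith [r.2]⟩)
          all_goals exact Or.inr (Or.inr (by linarith [r.2]))
        clear e1 e2
        rcases f1 with ⟨r1, r2⟩ | ⟨r1, r2⟩ | r2 <;> rcases f2 with ⟨r3, r4⟩ | ⟨r3, r4⟩ | r4
        · exact Or.inl ⟨by linarith, by linarith⟩
        · exact Or.inr (Or.inl ⟨by linarith, by linarith⟩)
        · exact Or.inr (Or.inr (by linarith))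
        · exact Or.inr (Or.inl ⟨by linarith, by linarith⟩)
        all_goals exact Or.inr (Or.inr (by linarith))
      · exact_mod_cast s.sB_small hjB (by exact_mod_cast hm)
      · exact s.sB_big hWF hjB
    · exact h.q2b2 (by exact_mod_cast h1) (by rw [hq2] at hcs; push_cast at hcs; linarith)
  · refine h.q3 (by exact_mod_cast hb1) ?_
    have h3 : (3 : ℤ) ≤ ((aC B Q T U F P {W}).card : ℤ) := by exact_mod_cast hq3
    linarith

end Stg

namespace StgR

variable {Q U : Finset V} {T : Finset ι} {F : Finset (Finset V)}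
  {P : Finset (Finset (Finset V))} {a : V → Finset (Finset V) → ℕ} {W : Finset V}

/-- the needs of the line triples. -/
theorem cJ_leB (s : StgR B Q T U F P a) {j : ι} (hj : j ∈ aC B Q T U F P {W}) :
    cJ B Q U F P j {W} ≤ 144 * (jh B Q j W : ℤ) - cstB (jh B Q j W) := by
  unfold cJ
  rw [s.toStg.jC_one]
  split_ifs with h2
  · have h1 := s.jC_thin hj h2
    rw [s.toStg.jC_one] at h1
    unfold cstB
    rw [if_neg (by omega)]
    linarith
  · have h3 : cstB (jh B Q j W) ≤ sF (jh B Q j W) := by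
      generalize jh B Q j W = n
      unfold cstB pm sF
      split_ifs <;> omega
    linarith

/-- **`BL`: a single leaf with a centre and line triples**. -/
theorem BL (s : StgR B Q T U F P a) (hF : Few B Q T F) (hW : {W} ∈ P)
    (hf : ¬ Ful B Q T U F P a {W}) (hK : KC B Q T U F {W} = ∅)
    (hb : (Bs B Q T U F P W).Nonempty) (hq : (aC B Q T U F P {W}).Nonempty)
    (h51 : ∀ j ∈ Bs B Q T U F P W, W.card = 5 → nt B W 1 = 1 → sB B Q F j W ≤ 6) :
    NdOk B Q T U F P a {W} :=
  s.nd_ok hW hf fun _ => s.toStg.BLn hF hW hK hb hq h51 fun _ hj => s.cJ_leB hj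

/-- **a private single leaf with a centre**. -/
theorem ms_pm (s : StgR B Q T U F P a) (hF : Few B Q T F) (hW : {W} ∈ P)
    (hf : ¬ Ful B Q T U F P a {W}) (hK : KC B Q T U F {W} = ∅)
    (hb : (Bs B Q T U F P W).Nonempty)
    (h51 : ∀ j ∈ Bs B Q T U F P W, W.card = 5 → nt B W 1 = 1 → sB B Q F j W ≤ 6) {j : ι}
    (hj : aC B Q T U F P {W} = {j}) (h2 : (lj B Q U F P j).card = 2) :
    ndF B Q T U F P a {W} ≤ pm (jC B Q j {W}) := by
  have hq : (aC B Q T U F P {W}).Nonempty := by
    rw [hj]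
    exact singleton_nonempty j
  have h1 := s.BL hF hW hf hK hb hq h51 (fun j => pm (jC B Q j {W})) (fun _ _ _ => le_rfl)
    fun i hi h3 => by
      rw [hj, mem_singleton] at hi
      rw [hi] at h3
      omega
  rw [hj, sum_singleton] at h1
  exact h1

end StgR

end Pool.Agent.Hyp6
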