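import Pool.Agent.Hyp6.L3Yj
import Pool.Agent.Hyp6.L3Dq

/-!
# HYP6 L3W1: the leaves of a class outside of a parallel class

`MinP.fU_trace`: the part of a set of leaves in a class. `Par.hall`: the inside points of a set of leaves
outside of a parallel class. `Frm.z_match`, `Frm.rho_z`, `Frm.rho_OcZ`: points of `U` with surplus on a set
`G` of leaves and one contact point are absorbed by `G`. `Frm.few_outZ`, `Frm.cls_leafZ`: the contacts of `G`.
-/

set_option autoImplicit false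

namespace Pool.Agent.Hyp6.Sp

open Finset

section

variable {L : Type*} [DecidableEq L] {α : Type*} [DecidableEq α] {τ : Type*} [DecidableEq τ]
  {F : Finset L} {U : Finset α} {N : α → Finset L} {Ts : Finset τ} {NT : τ → Finset L}
  {P P0 : Finset (Finset L)}

/-- **the part of a set of leaves in a class**. -/
theorem MinP.fU_trace (hg : Gd F F U N Ts NT) (h : MinP F F U N Ts NT P)
    {C S : Finset L} (hS : S ⊆ F) (hCA : C ∈ met P S) :
    fU U N (S ∩ C) + rkn (nP U N P) (met P S) ≤ fU U N S + 1 := by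
  set A := met P S with hA
  set Y := (Uin U N S).filter (fun u => u ∈ Ux U N P) with hY
  have hAP : A ⊆ P := met_subset
  have h1 : Uin U N S ⊆ Y ∪ A.biUnion (fun C => Uin U N (S ∩ C)) := by
    intro u hu
    by_cases hx : u ∈ Ux U N P
    · exact mem_union_left _ (mem_filter.2 ⟨hu, hx⟩)
    · obtain ⟨hu1, hu2⟩ := mem_filter.1 hu
      have h2 : ∃ C ∈ P, N u ⊆ C := by
        by_contra hcon
        push Not at hcon
        exact hx (mem_filter.2 ⟨hu1, hcon⟩)
      obtain ⟨C, hC, h3⟩ := h2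
      obtain ⟨x, hxu⟩ := hg.N_ne hu1
      exact mem_union_right _ (mem_biUnion.2 ⟨C, mem_met.2 ⟨hC, not_disjoint_iff.2
        ⟨x, hu2 hxu, h3 hxu⟩⟩, mem_filter.2 ⟨hu1, subset_inter hu2 h3⟩⟩)
  have h2 : ∀ D ∈ A, (1 : ℤ) ≤ fU U N (S ∩ D) := by
    intro D hD
    obtain ⟨x, hx1, hx2⟩ := not_disjoint_iff.1 (mem_met.1 hD).2
    exact hg.fU_pos ⟨x, mem_inter.2 ⟨hx1, hx2⟩⟩
  have h3 : ∑ C ∈ A, (S ∩ C).card = S.card := by
    rw [← card_biUnion]
    · congr 1
      ext x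
      simp only [mem_biUnion, mem_inter]
      constructor
      · rintro ⟨_, _, hx, _⟩
        exact hx
      · intro hx
        have hxF := hS hx
        rw [← h.ptn.un] at hxF
        obtain ⟨C, hC, hxC⟩ := mem_biUnion.1 hxF
        exact ⟨C, mem_met.2 ⟨hC, not_disjoint_iff.2 ⟨x, hx, hxC⟩⟩, hx, hxC⟩
    · intro C hC D hD hne
      exact (h.ptn.dj C (hAP hC) D (hAP hD) hne).mono inter_subset_right inter_subset_right
  have h4 : (Uin U N S).card ≤ Y.card + ∑ C ∈ A, (Uin U N (S ∩ C)).card :=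
    (card_le_card h1).trans ((card_union_le _ _).trans (by
      have := card_biUnion_le (s := A) (t := fun C => Uin U N (S ∩ C))
      omega))
  have h5 : ∑ D ∈ A, fU U N (S ∩ D) ≤ (S.card : ℤ) - ∑ C ∈ A, (Uin U N (S ∩ C)).card := by
    unfold fU
    rw [sum_sub_distrib, ← h3]
    push_cast
    exact le_refl _
  have h6 : (Y.card : ℤ) ≤ nP U N P A := by
    have h7 := le_dfc (U := Ux U N P) (N := fun u => met P (N u)) (D := A) (B := Y)
      (fun u hu => (mem_filter.1 hu).2)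
    have h8 : (Y.biUnion (fun u => met P (N u))) \ A = ∅ := by
      rw [sdiff_eq_empty_iff_subset]
      refine biUnion_subset.2 fun u hu C hC => ?_
      obtain ⟨hC1, hC2⟩ := mem_met.1 hC
      exact mem_met.2 ⟨hC1, fun hd => hC2 (hd.mono_left (mem_filter.1 (mem_filter.1 hu).1).2)⟩
    rw [h8, card_empty] at h7
    unfold nP
    push_cast at h7
    linarith
  have h8 : fU U N (S ∩ C) + ∑ D ∈ A.erase C, (1 : ℤ) ≤ ∑ D ∈ A, fU U N (S ∩ D) := by
    rw [← add_sum_erase A _ hCA]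
    have := sum_le_sum (s := A.erase C) fun D hD => h2 D (mem_of_mem_erase hD)
    linarith
  rw [sum_const, nsmul_eq_mul, mul_one, card_erase_of_mem hCA] at h8
  have h9 := card_pos.2 ⟨C, hCA⟩
  have h10 : fU U N S = (S.card : ℤ) - (Uin U N S).card := rfl
  have h11 : ((Uin U N S).card : ℤ) ≤ Y.card + ∑ C ∈ A, ((Uin U N (S ∩ C)).card : ℤ) := by
    exact_mod_cast h4
  push_cast [Nat.cast_sub h9] at h8
  push_cast at h5
  unfold rkn
  rw [h10]
  linarith

omit [DecidableEq τ] in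
/-- leaves of rank one are in a parallel class. -/
theorem Par.in_class (hp : Par F U N P0) (hs : Sur F U N) {E : Finset L} (hE : E ⊆ F)
    (hne : E.Nonempty) (h1 : fU U N E ≤ 1) : ∃ D ∈ P0, E ⊆ D := by
  refine MinP.sub_of_rk hs hp hE hne ?_
  unfold fU at h1
  omega

omit [DecidableEq τ] in
theorem Par.fU_one (hp : Par F U N P0) (hs : Sur F U N) {D : Finset L} (hD : D ∈ P0) :
    fU U N D = 1 := by
  have h1 := Par.card_eq hs hp hD
  unfold fU
  omega

omit [DecidableEq τ] in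
/-- more than a parallel class has rank two. -/
theorem Par.fU_two (hp : Par F U N P0) (hs : Sur F U N) {D E : Finset L} (hD : D ∈ P0)
    (hDE : D ⊆ E) (hne : E ≠ D) (hE : E ⊆ F) : 2 ≤ fU U N E := by
  by_contra h1
  obtain ⟨x, hx⟩ := hp.ne hD
  obtain ⟨D', hD', h2⟩ := hp.in_class hs hE ⟨x, hDE hx⟩ (by omega)
  have h3 : D = D' := by
    by_contra h4
    exact disjoint_left.1 (hp.dj hD hD' h4) hx (h2 (hDE hx))
  exact hne (Subset.antisymm (h3 ▸ h2) hDE)

omit [DecidableEq τ] in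
/-- **the inside points outside of a parallel class have surplus one outside of it**. -/
theorem Par.hall (hp : Par F U N P0) (hs : Sur F U N) {C D : Finset L} (hD : D ∈ P0)
    (hCF : C ⊆ F) {Y : Finset α} (hY : Y ⊆ Uin U N C \ Uin U N D) (hne : Y.Nonempty) :
    Y.card + 1 ≤ ((Y.biUnion N) \ D).card := by
  have hYU : ∀ u ∈ Y, u ∈ U := fun u hu => (mem_filter.1 (mem_sdiff.1 (hY hu)).1).1
  have hYC : ∀ u ∈ Y, N u ⊆ C := fun u hu => (mem_filter.1 (mem_sdiff.1 (hY hu)).1).2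
  have hE : D ∪ Y.biUnion N ⊆ F :=
    union_subset (hp.sub hD) (biUnion_subset.2 fun u hu => (hYC u hu).trans hCF)
  have h2 := hp.fU_two hs (E := D ∪ Y.biUnion N) hD subset_union_left (by
    intro h3
    obtain ⟨u, hu⟩ := hne
    have h4 : N u ⊆ D := by
      rw [← h3]
      exact (subset_biUnion_of_mem N hu).trans subset_union_right
    exact (mem_sdiff.1 (hY hu)).2 (mem_filter.2 ⟨hYU u hu, h4⟩)) hE
  have h3 : Uin U N D ∪ Y ⊆ Uin U N (D ∪ Y.biUnion N) := by
    intro u hu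
    rcases mem_union.1 hu with h4 | h4
    · exact mem_filter.2 ⟨(mem_filter.1 h4).1, (mem_filter.1 h4).2.trans subset_union_left⟩
    · exact mem_filter.2 ⟨hYU u h4, (subset_biUnion_of_mem N h4).trans subset_union_right⟩
  have h4 : Disjoint (Uin U N D) Y :=
    disjoint_left.2 fun u hu hu' => (mem_sdiff.1 (hY hu')).2 hu
  have h5 := card_le_card h3
  rw [card_union_of_disjoint h4] at h5
  have h6 : (D ∪ Y.biUnion N).card = D.card + (Y.biUnion N \ D).card := by
    rw [← union_sdiff_self_eq_union, card_union_of_disjoint disjoint_sdiff]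
  have h7 := Par.card_eq hs hp hD
  unfold fU at h2
  omega

omit [DecidableEq τ] in
/-- the number of leaves outside of a parallel class. -/
theorem Par.card_diff (hp : Par F U N P0) (hs : Sur F U N) {C D : Finset L} (hD : D ∈ P0)
    (hDC : D ⊆ C) : ((C \ D).card : ℤ) = (Uin U N C \ Uin U N D).card + (fU U N C - 1) := by
  have h1 : Uin U N D ⊆ Uin U N C := fun u hu =>
    mem_filter.2 ⟨(mem_filter.1 hu).1, (mem_filter.1 hu).2.trans hDC⟩
  have h2 := Par.card_eq hs hp hD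
  have h3 := card_sdiff_add_card_eq_card hDC
  have h4 := card_sdiff_add_card_eq_card h1
  unfold fU
  omega

end

end Pool.Agent.Hyp6.Sp

namespace Pool.Agent.Hyp6

open Finset Pool.Agent.Hyp5 Rt

universe u v

variable {V : Type v} [DecidableEq V] {ι : Type u} [Fintype ι] {B : ι → Finset V}
variable {Q U Z : Finset V} {T : Finset ι} {F G : Finset (Finset V)} {i j : ι}

/-- a set of points of `U` with surplus one on the set `G` of leaves. -/
def SurZ (B : ι → Finset V) (F G : Finset (Finset V)) (Z : Finset V) : Prop :=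
  ∀ Y ⊆ Z, Y.Nonempty → Y.card + 1 ≤ ((Y.biUnion (slf B F)) ∩ G).card

/-- the contact points of `G` outside of two triples and `Z`. -/
noncomputable def OcZ (B : ι → Finset V) (Q Z : Finset V) (i j : ι)
    (G : Finset (Finset V)) : Finset V :=
  Q.filter (fun v => v ∉ B i ∧ v ∉ B j ∧ v ∉ G.biUnion id ∧ v ∉ Z ∧
    (Ez B (G.biUnion id) v).Nonempty)

/-- the points which are not in a leaf, two triples or `Z`. -/
noncomputable def RsZ (B : ι → Finset V) (Q Z : Finset V) (i j : ι) (L : Finset V) : Finset V :=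
  Q \ (L ∪ ((B i ∩ Q) ∪ (B j ∩ Q)) ∪ Z)

namespace Frm

/-- **the points of `Z` are matched with the leaves of `G` other than one**. -/
theorem z_match (hZ : SurZ B F G Z) (hGF : G ⊆ F) (L0 : Finset V) :
    ∃ g, MtI B Z (G.erase L0) g := by
  classical
  refine mti_of_hall fun Y hY => ?_
  rcases Y.eq_empty_or_nonempty with rfl | hne
  · simp
  · have h1 := hZ Y hY hne
    have h2 : ((Y.biUnion (slf B F)) ∩ G).erase L0 ⊆ nbF (gr B) (G.erase L0) Y := by
      intro D hD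
      obtain ⟨h3, h4⟩ := mem_erase.1 hD
      obtain ⟨h5, h6⟩ := mem_inter.1 h4
      obtain ⟨x, hx, h7⟩ := mem_biUnion.1 h5
      obtain ⟨h8, y, hy, h9⟩ := mem_slf.1 h7
      exact mem_nbF.2 ⟨mem_erase.2 ⟨h3, h6⟩, x, hx, y, hy, h9⟩
    have h3 := card_le_card h2
    have h4 := pred_card_le_card_erase (s := (Y.biUnion (slf B F)) ∩ G) (a := L0)
    have _ := hGF
    omega

/-- **the points of `Z` and one contact point are absorbed**. -/
theorem rho_z (h : Frm B Q T U F) (hGF : G ⊆ F) (hZU : Z ⊆ U) (hZ : SurZ B F G Z)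
    {L0 : Finset V} {p : V} (hpQ : p ∈ Q) (hL0 : L0 ∈ G) (hp : (Ez B L0 p).Nonempty) :
    rho B (G.biUnion id ∪ insert p Z) ≤ ∑ L ∈ G, rho B L := by
  classical
  have hZQ : Z ⊆ Q := hZU.trans (h.UD.trans sdiff_subset)
  obtain ⟨g, hg⟩ := z_match hZ hGF L0
  obtain ⟨X, hX0⟩ : ∃ X : Finset V → Finset V, ∀ L, X L =
      Z.filter (fun v => g v = L) ∪ (if L = L0 then {p} else ∅) :=
    ⟨_, fun _ => rfl⟩
  have hXQ : ∀ L, X L ⊆ Q := by
    intro L v hv
    rw [hX0] at hv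
    rcases mem_union.1 hv with h1 | h1
    · exact hZQ (mem_filter.1 h1).1
    · split_ifs at h1 with h2
      · rw [mem_singleton.1 h1]
        exact hpQ
      · simp at h1
  have hX1 : ∀ L ∈ G, X L = ∅ ∨ ∃ v, X L = {v} ∧ (Ez B L v).Nonempty := by
    intro L hL
    by_cases hL0 : L = L0
    · right
      refine ⟨p, ?_, by rw [hL0]; exact hp⟩
      rw [hX0, if_pos hL0]
      have : Z.filter (fun v => g v = L) = ∅ := by
        rw [filter_eq_empty_iff]
        intro v hv he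
        have := hg.mem v hv
        rw [he] at this
        exact (mem_erase.1 this).1 hL0
      rw [this, empty_union]
    · rw [hX0, if_neg hL0, union_empty]
      rcases (Z.filter (fun v => g v = L)).eq_empty_or_nonempty with h1 | h1
      · left
        exact h1
      · right
        obtain ⟨v, hv⟩ := h1
        obtain ⟨hv1, hv2⟩ := mem_filter.1 hv
        refine ⟨v, ?_, ?_⟩
        · ext w
          rw [mem_filter, mem_singleton]
          constructor
          · rintro ⟨hw1, hw2⟩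
            exact hg.inj w hw1 v hv1 (hw2.trans hv2.symm)
          · rintro rfl
            exact ⟨hv1, hv2⟩
        · obtain ⟨y, hy, hne, k, hvk, hyk⟩ := hg.see v hv1
          rw [hv2] at hy
          exact ⟨k, mem_Ez.2 ⟨hvk, y, mem_inter.2 ⟨hyk, hy⟩⟩⟩
  have hcov : ∀ L ∈ G, Cov B (L ∪ X L) := fun L hL =>
    h.cov.mono (union_subset (h.FQ (hGF hL)) (hXQ L))
  have h1 := rho_abs_le (B := B) (A := G) (X := X) hcov (fun L hL => by
    rcases hX1 L hL with h2 | ⟨v, h2, h3⟩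
    · rw [h2, union_empty]
    · rw [h2]
      have hcr : Crit B L := fun v hv =>
        le_antisymm (rho_erase_fc (h.ge.sys.fc L (hGF hL)) (h.sv_leaf (hGF hL)) hv)
          (rho_le_erase (x := v) (h.cov.mono (h.FQ (hGF hL))))
      obtain ⟨S, h4, h5⟩ := hcr.pt1 (h.cov.mono (h.FQ (hGF hL))) h3
      exact (rho_le h4).trans h5)
  refine (rho_mono ?_ ?_).trans h1
  · intro v hv
    rcases mem_union.1 hv with h2 | h2
    · obtain ⟨L, hL, hvL⟩ := mem_biUnion.1 h2
      exact mem_biUnion.2 ⟨L, hL, mem_union_left _ hvL⟩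
    · rcases mem_insert.1 h2 with rfl | h3
      · refine mem_biUnion.2 ⟨L0, hL0, mem_union_right _ ?_⟩
        rw [hX0, if_pos rfl]
        exact mem_union_right _ (mem_singleton_self _)
      · refine mem_biUnion.2 ⟨g v, (mem_erase.1 (hg.mem v h3)).2, mem_union_right _ ?_⟩
        rw [hX0]
        exact mem_union_left _ (mem_filter.2 ⟨h3, rfl⟩)
  · refine h.cov.mono fun v hv => ?_
    obtain ⟨L, hL, hvL⟩ := mem_biUnion.1 hv
    rcases mem_union.1 hvL with h2 | h2
    · exact h.FQ (hGF hL) h2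
    · exact hXQ L h2

/-- the points of `Z` and at most one contact point are absorbed. -/
theorem rho_OcZ (h : Frm B Q T U F) (hGF : G ⊆ F) (hZU : Z ⊆ U) (hZ : SurZ B F G Z)
    (hne : Z.Nonempty) (hO : (OcZ B Q Z i j G).card ≤ 1) :
    rho B (G.biUnion id ∪ (Z ∪ OcZ B Q Z i j G)) ≤ ∑ L ∈ G, rho B L := by
  classical
  have hZQ : Z ⊆ Q := hZU.trans (h.UD.trans sdiff_subset)
  have hez : ∀ {v : V}, (Ez B (G.biUnion id) v).Nonempty → ∃ L ∈ G, (Ez B L v).Nonempty := by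
    rintro v ⟨k, hk⟩
    obtain ⟨h1, w, hw⟩ := mem_Ez.1 hk
    obtain ⟨h2, h3⟩ := mem_inter.1 hw
    obtain ⟨L, hL, hwL⟩ := mem_biUnion.1 h3
    exact ⟨L, hL, k, mem_Ez.2 ⟨h1, w, mem_inter.2 ⟨h2, hwL⟩⟩⟩
  rcases (OcZ B Q Z i j G).eq_empty_or_nonempty with h0 | ⟨p, hp⟩
  · obtain ⟨u, hu⟩ := hne
    obtain ⟨L0, hL0, hu0⟩ : ∃ L ∈ G, (Ez B L u).Nonempty := by
      have h1 := hZ {u} (singleton_subset_iff.2 hu) (singleton_nonempty u)
      rw [card_singleton, singleton_biUnion] at h1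
      obtain ⟨L, hL⟩ := card_pos.1 (by omega : 0 < (slf B F u ∩ G).card)
      obtain ⟨h2, h3⟩ := mem_inter.1 hL
      obtain ⟨h5, y, hy, hne, k, hxk, hyk⟩ := mem_slf.1 h2
      exact ⟨L, h3, k, mem_Ez.2 ⟨hxk, y, mem_inter.2 ⟨hyk, hy⟩⟩⟩
    have h2 := h.rho_z hGF hZU hZ (hZQ hu) hL0 hu0
    rw [insert_eq_of_mem hu] at h2
    rw [h0, union_empty]
    exact h2
  · have h1 : OcZ B Q Z i j G = {p} := by
      obtain ⟨q, hq⟩ := card_eq_one.1 (le_antisymm hO (card_pos.2 ⟨p, hp⟩))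
      rw [hq] at hp ⊢
      rw [mem_singleton.1 hp]
    obtain ⟨hpQ, -, -, -, -, h2⟩ := mem_filter.1 hp
    obtain ⟨L0, hL0, h3⟩ := hez h2
    have h4 := h.rho_z hGF hZU hZ hpQ hL0 h3
    rw [h1, union_comm Z {p}, ← insert_eq]
    exact h4

/-- the contact points are other hits. -/
theorem OcZ_le (G : Finset (Finset V)) (i j : ι) :
    (OcZ B Q Z i j G).card ≤ ∑ L ∈ G, hit B (RsZ B Q Z i j L) L := by
  classical
  have h1 : ∀ L ∈ G, hit B (OcZ B Q Z i j G) L ≤ hit B (RsZ B Q Z i j L) L := by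
    intro L hL
    refine hit_mono_left L fun v hv => ?_
    obtain ⟨hvQ, hvi, hvj, hvC, hvU, -⟩ := mem_filter.1 hv
    refine mem_sdiff.2 ⟨hvQ, fun h2 => ?_⟩
    rcases mem_union.1 h2 with h2 | h2
    · rcases mem_union.1 h2 with h2 | h2
      · exact hvC (mem_biUnion.2 ⟨L, hL, h2⟩)
      · rcases mem_union.1 h2 with h2 | h2
        · exact hvi (mem_inter.1 h2).1
        · exact hvj (mem_inter.1 h2).1
    · exact hvU h2
  refine le_trans ?_ (sum_le_sum h1)
  have h2 : ∀ L, hit B (OcZ B Q Z i j G) L = ∑ v ∈ OcZ B Q Z i j G, hit B {v} L :=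
    fun L => hit_U_sum _ L
  simp only [h2]
  rw [sum_comm, card_eq_sum_ones]
  refine sum_le_sum fun v hv => ?_
  obtain ⟨-, -, -, -, -, k, hk⟩ := mem_filter.1 hv
  obtain ⟨h3, w, hw⟩ := mem_Ez.1 hk
  obtain ⟨h4, h5⟩ := mem_inter.1 hw
  obtain ⟨L, hL, hwL⟩ := mem_biUnion.1 h5
  refine le_trans ?_ (single_le_sum (f := fun L => hit B {v} L) (fun _ _ => Nat.zero_le _) hL)
  unfold hit
  refine le_trans (card_pos.2 ⟨v, mem_inter.2 ⟨h3, mem_singleton_self v⟩⟩)
    (single_le_sum (f := fun i => (B i ∩ ({v} : Finset V)).card) (fun i _ => Nat.zero_le _)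
      (cost_mem_tch.2 ⟨w, mem_inter.2 ⟨h4, hwL⟩⟩))

/-- the data of `G` with the contact points. -/
theorem outZ (h : Frm B Q T U F) (hi : i ∈ T) (hj : j ∈ T) (hGF : G ⊆ F) (hZU : Z ⊆ U) :
    Z ∪ OcZ B Q Z i j G ⊆ Q ∧ Disjoint (Z ∪ OcZ B Q Z i j G) (B i) ∧
    Disjoint (Z ∪ OcZ B Q Z i j G) (B j) ∧ Disjoint (Z ∪ OcZ B Q Z i j G) (G.biUnion id) ∧
    ∀ v ∈ Q, v ∉ B i → v ∉ B j → (∃ a, v ∈ B a ∧ (B a ∩ G.biUnion id).Nonempty) →
      v ∈ G.biUnion id ∪ (Z ∪ OcZ B Q Z i j G) := by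
  classical
  have hZQ : Z ⊆ Q := hZU.trans (h.UD.trans sdiff_subset)
  have hd : ∀ {i : ι}, i ∈ T → Disjoint Z (B i) := fun hi => disjoint_left.2 fun v hv hvi =>
    (mem_sdiff.1 (h.UD (hZU hv))).2 (mem_biUnion.2 ⟨_, hi, hvi⟩)
  refine ⟨union_subset hZQ (filter_subset _ _), disjoint_union_left.2 ⟨hd hi, ?_⟩,
    disjoint_union_left.2 ⟨hd hj, ?_⟩, disjoint_union_left.2 ⟨?_, ?_⟩, ?_⟩
  · exact disjoint_left.2 fun v hv => (mem_filter.1 hv).2.1
  · exact disjoint_left.2 fun v hv => (mem_filter.1 hv).2.2.1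
  · rw [disjoint_biUnion_right]
    intro L hL
    exact disjoint_left.2 fun v hv hvL => disjoint_left.1 (h.ge.FU L (hGF hL)) hvL (hZU hv)
  · exact disjoint_left.2 fun v hv => (mem_filter.1 hv).2.2.2.1
  · rintro v hvQ hvi hvj ⟨a, hva, ha⟩
    by_cases h1 : v ∈ G.biUnion id
    · exact mem_union_left _ h1
    by_cases h2 : v ∈ Z
    · exact mem_union_right _ (mem_union_left _ h2)
    · exact mem_union_right _ (mem_union_right _ (mem_filter.2 ⟨hvQ, hvi, hvj, h1, h2, a,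
        mem_Ez.2 ⟨hva, ha⟩⟩))

/-- **at most one further contact point**: two leaves of small value. -/
theorem few_outZ (h : Frm B Q T U F) (hv : ViolR B Q) (hi : i ∈ T) (hj : j ∈ T) (hij : i ≠ j)
    (hGF : G ⊆ F) (hZU : Z ⊆ U) (hZ : SurZ B F G Z) (h2 : 2 ≤ G.card)
    (hn : G.card = Z.card + 1) {M : Finset V} (hM : M ∈ F) (hMG : M ∉ G)
    (hO : (OcZ B Q Z i j G).card ≤ 1) :
    G.card = 2 ∧ ∑ L ∈ G, (dv B Q L + 1) ≤ 2 := by
  classical
  have hne : Z.Nonempty := card_pos.1 (by omega)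
  obtain ⟨v0, hv0⟩ := (h.conn_leaf hM).1
  obtain ⟨d1, d2, d3, d4, d5⟩ := h.outZ hi hj hGF hZU
  have hv0G : v0 ∉ G.biUnion id := by
    intro h3
    obtain ⟨L, hL, hvL⟩ := mem_biUnion.1 h3
    have hne : M ≠ L := fun he => hMG (he ▸ hL)
    exact disjoint_left.1 (h.sepF M hM L (hGF hL) hne).1 hv0 hvL
  have h1 := h.comp_fam2 hv hi hj hij hGF h2 d1 d2 d3 d4 (hne.mono subset_union_left)
    (h.rho_OcZ hGF hZU hZ hne hO) d5 (by
      have := card_le_card (subset_union_left (s₁ := Z) (s₂ := OcZ B Q Z i j G))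
      omega) (h.FQ hM hv0) (h.in_leaf hM hi hv0) (h.in_leaf hM hj hv0) hv0G (by
      intro h3
      rcases mem_union.1 h3 with h3 | h3
      · exact disjoint_left.1 (h.ge.FU M hM) hv0 (hZU h3)
      · obtain ⟨-, -, -, -, -, k, hk⟩ := mem_filter.1 h3
        obtain ⟨hvk, w, hw⟩ := mem_Ez.1 hk
        obtain ⟨hwk, hwC⟩ := mem_inter.1 hw
        obtain ⟨L, hL, hwL⟩ := mem_biUnion.1 hwC
        have hne : M ≠ L := fun he => hMG (he ▸ hL)
        exact (h.sepF M hM L (hGF hL) hne).2 k ⟨v0, mem_inter.2 ⟨hvk, hv0⟩⟩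
          ⟨w, mem_inter.2 ⟨hwk, hwL⟩⟩)
  exact ⟨h1.1, h1.2.2⟩

/-- **two leaves of values `-1`, `1`** with one point of `U` and at most one other hit: at most twelve
hits of the two triples. -/
theorem cls_leafZ (h : Frm B Q T U F) (hv : ViolR B Q) (hi : i ∈ T) (hj : j ∈ T) (hij : i ≠ j)
    {L M : Finset V} (hL : L ∈ F) (hM : M ∈ F) (hLM : L ≠ M) {u : V} (huU : u ∈ U)
    (hZ : SurZ B F {L, M} {u}) (dL : dv B Q L = -1) (dM : dv B Q M = 1)
    (hw : hit B (RsZ B Q {u} i j L) L + hit B (RsZ B Q {u} i j M) M ≤ 1) :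
    hit B ((B i ∩ Q) ∪ (B j ∩ Q)) L + hit B ((B i ∩ Q) ∪ (B j ∩ Q)) M ≤ 12 := by
  classical
  have hGF : ({L, M} : Finset (Finset V)) ⊆ F := by
    intro K hK
    rcases mem_insert.1 hK with rfl | hK
    · exact hL
    · rw [mem_singleton.1 hK]
      exact hM
  have hZU : ({u} : Finset V) ⊆ U := singleton_subset_iff.2 huU
  have hO : (OcZ B Q {u} i j {L, M}).card ≤ 1 := by
    have h1 := OcZ_le (B := B) (Q := Q) (Z := {u}) {L, M} i j
    rw [sum_pair hLM] at h1
    omega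
  obtain ⟨d1, d2, d3, d4, d5⟩ := h.outZ hi hj hGF hZU
  have fi := h.mtp.tpk.pack.card i hi
  have fj := h.mtp.tpk.pack.card j hj
  have dG : ∀ {a : ι}, a ∈ T →
      Disjoint (({L, M} : Finset (Finset V)).biUnion id) (B a ∩ Q) := by
    intro a ha
    rw [disjoint_biUnion_left]
    exact fun K hK => h.disT (hGF hK) ha
  obtain ⟨Y, F', hK, hPY, hGF'⟩ := hv.exists_KGF fi fj (h.mtp.tpk.pack.disj i hi j hj hij)
    (hv.lemA' fi).1 (hv.lemA' fi).2.1 (hv.lemA' fj).1 (hv.lemA' fj).2.1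
    (fun K hK => h.FQ (hGF hK)) (fun K hK => h.conn_leaf (hGF hK))
    (fun K hK => h.critL (hGF hK)) (h.sepF.mono hGF) (dG hi) (dG hj) d1
    (d2.mono_right inter_subset_left) d4
    (h.rho_OcZ hGF hZU hZ (singleton_nonempty u) hO) (by
      intro a ha v hv'
      obtain ⟨hva, hvQ⟩ := mem_inter.1 hv'
      by_cases hvi : v ∈ B i
      · exact mem_union_right _ (mem_union_left _ (mem_inter.2 ⟨hvi, hvQ⟩))
      by_cases hvj : v ∈ B j
      · exact mem_union_right _ (mem_union_right _ (mem_union_left _ (mem_inter.2 ⟨hvj, hvQ⟩)))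
      rcases mem_union.1 (d5 v hvQ hvi hvj ⟨a, hva, ha⟩) with h3 | h3
      · exact mem_union_left _ h3
      · exact mem_union_right _ (mem_union_right _ (mem_union_right _ h3)))
  have hLF' : L ∈ F' := hGF' (by simp)
  have hMF' : M ∈ F' := hGF' (by simp)
  have hle : ∀ K ∈ F', hit B (Y \ ((B i ∩ Q) ∪ (B j ∩ Q) ∪ {u})) K ≤
      hit B (RsZ B Q {u} i j K) K := by
    intro K hKF
    refine hit_mono_left K fun v hv' => ?_
    obtain ⟨h1, h2⟩ := mem_sdiff.1 hv'
    refine mem_sdiff.2 ⟨hK.YQ h1, fun h3 => ?_⟩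
    rcases mem_union.1 h3 with h3 | h3
    · rcases mem_union.1 h3 with h3 | h3
      · exact (mem_sdiff.1 ((hK.parts K hKF).1 h3)).2 h1
      · exact h2 (mem_union_left _ h3)
    · exact h2 (mem_union_right _ h3)
  have h1 := hle L hLF'
  have h2 := hle M hMF'
  have hui : ∀ {i : ι}, i ∈ T → u ∉ B i := fun hi hvi =>
    (mem_sdiff.1 (h.UD huU)).2 (mem_biUnion.2 ⟨_, hi, hvi⟩)
  exact hK.two_leaf hLF' hMF' (h.sv_leaf hL) (h.nt3 hL) dL (h.sv_leaf hM) (h.nt3 hM) dM
    (hPY (mem_union_left _ (mem_singleton_self u))) (hui hi) (hui hj) (by omega)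

end Frm

end Pool.Agent.Hyp6
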