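import Pool.Agent.Hyp6.L3W1
import Pool.Agent.Hyp6.L3Yd

/-!
# HYP6 L3W2: the outer hits and free places of a class of rank two

`oh`: the hits at a leaf from outside of two triples and the inside points of the class. `Stg.o31`: a leaf
of type (3;1). `Stg.S_two`: a class of rank two has outside of a parallel class at least two outer hits or
free places. `Stg.oh_le`: the outer hits in terms of the hits of the line triples, the crossing points and
the remaining triples. `Stg.line_par`: a line triple sees at most one parallel class of a class.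
-/

set_option autoImplicit false

namespace Pool.Agent.Hyp6

open Finset Pool.Agent.Hyp5 Rt

universe u v

variable {V : Type v} [DecidableEq V] {ι : Type u} [Fintype ι] [DecidableEq ι]
  {B : ι → Finset V} {Q U Z : Finset V} {T : Finset ι} {F : Finset (Finset V)}
  {P : Finset (Finset (Finset V))} {a : V → Finset (Finset V) → ℕ} {C : Finset (Finset V)} {i j : ι}

/-- the hits at a leaf from outside of two triples and the inside points of the class. -/
noncomputable def oh (B : ι → Finset V) (Q : Finset V) (T : Finset ι) (U : Finset V)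
    (F C : Finset (Finset V)) (i j : ι) (L : Finset V) : ℤ :=
  ∑ k ∈ T, (jh B Q k L : ℤ) + hit B U L - jh B Q i L - jh B Q j L -
    ∑ u ∈ Sp.Uin U (slf B F) C, (uh B u L : ℤ)

namespace Stg

/-- the hits from outside of two triples and a set of points of `U`. -/
theorem hit_RsZ (s : Stg B Q T U F P a) {L : Finset V} (hL : L ∈ F) (hi : i ∈ T) (hj : j ∈ T)
    (hij : i ≠ j) (hZU : Z ⊆ U) : (hit B (RsZ B Q Z i j L) L : ℤ) =
      ∑ k ∈ T, (jh B Q k L : ℤ) + hit B U L - jh B Q i L - jh B Q j L -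
        ∑ u ∈ Z, (uh B u L : ℤ) := by
  have hdij : Disjoint (B i ∩ Q) (B j ∩ Q) := s.frm.mtp.tpk.pack.disj i hi j hj hij
  have hZQ : Z ⊆ Q := hZU.trans (s.frm.UD.trans sdiff_subset)
  have hTZ : ∀ {k : ι}, k ∈ T → ∀ v ∈ B k ∩ Q, v ∉ Z := fun hk v hv hvZ =>
    (mem_sdiff.1 (s.frm.UD (hZU hvZ))).2 (mem_biUnion.2 ⟨_, hk, (mem_inter.1 hv).1⟩)
  have hTL : ∀ {k : ι}, k ∈ T → ∀ v ∈ B k ∩ Q, v ∉ L := fun hk v hv hvL =>
    (mem_sdiff.1 (s.frm.FD hL hvL)).2 (mem_biUnion.2 ⟨_, hk, (mem_inter.1 hv).1⟩)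
  have hZL : ∀ v ∈ Z, v ∉ L := fun v hv hvL => disjoint_left.1 (s.frm.ge.FU L hL) hvL (hZU hv)
  have e1 : Q \ L = ((B i ∩ Q) ∪ (B j ∩ Q)) ∪ (Z ∪ RsZ B Q Z i j L) := by
    ext v
    constructor
    · intro h1
      obtain ⟨h2, h3⟩ := mem_sdiff.1 h1
      by_cases h4 : v ∈ (B i ∩ Q) ∪ (B j ∩ Q)
      · exact mem_union_left _ h4
      by_cases h5 : v ∈ Z
      · exact mem_union_right _ (mem_union_left _ h5)
      refine mem_union_right _ (mem_union_right _ (mem_sdiff.2 ⟨h2, fun h6 => ?_⟩))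
      rcases mem_union.1 h6 with h6 | h6
      · rcases mem_union.1 h6 with h6 | h6
        · exact h3 h6
        · exact h4 h6
      · exact h5 h6
    · intro h1
      rcases mem_union.1 h1 with h2 | h2
      · rcases mem_union.1 h2 with h3 | h3
        · exact mem_sdiff.2 ⟨(mem_inter.1 h3).2, hTL hi v h3⟩
        · exact mem_sdiff.2 ⟨(mem_inter.1 h3).2, hTL hj v h3⟩
      · rcases mem_union.1 h2 with h3 | h3
        · exact mem_sdiff.2 ⟨hZQ h3, hZL v h3⟩
        · obtain ⟨h4, h5⟩ := mem_sdiff.1 h3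
          exact mem_sdiff.2 ⟨h4, fun h6 => h5 (mem_union_left _ (mem_union_left _ h6))⟩
  have h1 : hit B (Q \ L) L = (jh B Q i L + jh B Q j L) +
      (∑ u ∈ Z, uh B u L + hit B (RsZ B Q Z i j L) L) := by
    rw [e1, hit_union_left, hit_union_left L hdij, hit_union_left, Frm.hit_U_sum Z]
    · rfl
    · exact disjoint_left.2 fun v hv hv' => (mem_sdiff.1 hv').2 (mem_union_right _ hv)
    · refine disjoint_left.2 fun v hv hv' => ?_
      rcases mem_union.1 hv' with h2 | h2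
      · rcases mem_union.1 hv with h3 | h3
        · exact hTZ hi v h3 h2
        · exact hTZ hj v h3 h2
      · exact (mem_sdiff.1 h2).2 (mem_union_left _ (mem_union_right _ hv))
  have h2 := s.hit_all hL
  rw [h1] at h2
  push_cast at h2
  linarith

/-- a point inside a parallel class sees no leaf outside. -/
theorem uin_zero (s : Stg B Q T U F P a) {D : Finset (Finset V)} {L : Finset V} (hL : L ∈ F)
    (hLD : L ∉ D) {u : V} (hu : u ∈ Sp.Uin U (slf B F) D) : uh B u L = 0 := by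
  obtain ⟨h1, h2⟩ := mem_filter.1 hu
  exact uh_zero hL (s.frm.U_notin h1 hL) fun h3 => hLD (h2 h3)

theorem oh_nonneg (s : Stg B Q T U F P a) {L : Finset V} (hL : L ∈ F) (hi : i ∈ T) (hj : j ∈ T)
    (hij : i ≠ j) : 0 ≤ oh B Q T U F C i j L := by
  have h1 := s.hit_RsZ (Z := Sp.Uin U (slf B F) C) hL hi hj hij (filter_subset _ _)
  unfold oh
  rw [← h1]
  positivity

/-- **a leaf of type (3;1)**: at least two outer hits or free places, at least three if no inside point
sees it. -/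
theorem o31 (s : Stg B Q T U F P a) (hG : G31 B Q T U F) (hC : C ∈ P) {L : Finset V}
    (hL : L ∈ C) (hi : i ∈ T) (hj : j ∈ T) (hij : i ≠ j) (h3 : L.card = 3) (h1 : nt B L 1 = 1) :
    2 ≤ oh B Q T U F C i j L + fs B Q L ∧
      ((∀ u ∈ Sp.Uin U (slf B F) C, L ∉ slf B F u) → 3 ≤ oh B Q T U F C i j L + fs B Q L) := by
  have hCF : C ⊆ F := (s.part.ptn.vc C hC).sub
  have hLF := hCF hL
  obtain ⟨e1, e2, -, -, -, -, -, e3, e4, e5, e6, -, e8⟩ := s.one hLF
  have hd : dv B Q L = -1 := by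
    have h1' := Pv_eq_Pp (B := B) L
    rw [s.frm.sv_leaf hLF] at h1'
    unfold dv
    rw [h3, h1] at e1
    push_cast at e1
    have : (ee B Q L : ℤ) = 0 := by linarith
    rw [this]
    linarith
  rw [h3, h1] at e1
  rw [h1] at e2 e6
  push_cast at e1 e2 e6
  have hU : hit B U L ≤ 2 := by
    have : (hit B U L : ℤ) ≤ 2 := by linarith
    exact_mod_cast this
  have h4 : (jh B Q i L : ℤ) + jh B Q j L ≤ 6 := by
    have g1 := hG L hLF h3 h1 hd hU i hi
    have g2 := hG L hLF h3 h1 hd hU j hj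
    change 4 ≤ jh B Q i L → jh B Q i L ≤ 4 ∧ ∀ j' ∈ T, i ≠ j' → jh B Q j' L ≤ 2 at g1
    change 4 ≤ jh B Q j L → jh B Q j L ≤ 4 ∧ ∀ j' ∈ T, j ≠ j' → jh B Q j' L ≤ 2 at g2
    have h5 : jh B Q i L + jh B Q j L ≤ 6 := by
      by_cases a1 : 4 ≤ jh B Q i L
      · obtain ⟨b1, b2⟩ := g1 a1
        have := b2 j hj hij
        omega
      · by_cases a2 : 4 ≤ jh B Q j L
        · obtain ⟨b1, b2⟩ := g2 a2
          have := b2 i hi hij.symm
          omega
        · omega
    exact_mod_cast h5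
  have h5 : ∑ u ∈ Sp.Uin U (slf B F) C, (uh B u L : ℤ) ≤ hit B U L := by
    rw [Frm.hit_U_sum]
    push_cast
    exact sum_le_sum_of_subset_of_nonneg (filter_subset _ _) fun _ _ _ => by positivity
  constructor
  · unfold oh
    linarith
  · intro hn
    have h6 : ∑ u ∈ Sp.Uin U (slf B F) C, (uh B u L : ℤ) = 0 := by
      refine sum_eq_zero fun u hu => ?_
      rw [uh_zero hLF (s.frm.U_notin (mem_filter.1 hu).1 hLF) (hn u hu)]
      rfl
    unfold oh
    linarith

/-- **outside of a parallel class, a class of rank two has at least two outer hits or free places**. -/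
theorem S_two (s : Stg B Q T U F P a) (hF : Few B Q T F) (hG : G31 B Q T U F) (hC : C ∈ P)
    (hr : Sp.fU U (slf B F) C = 2) (hi : i ∈ T) (hj : j ∈ T) (hij : i ≠ j)
    {D : Finset (Finset V)} (hD : D ∈ par0 B U F) (hDC : D ⊆ C) :
    2 ≤ ∑ L ∈ C \ D, (oh B Q T U F C i j L + fs B Q L) := by
  classical
  have hCF : C ⊆ F := (s.part.ptn.vc C hC).sub
  have hpar : Sp.Par F U (slf B F) (par0 B U F) := s.par
  have hsur := s.frm.sur
  set Z := Sp.Uin U (slf B F) C \ Sp.Uin U (slf B F) D with hZ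
  have hZU : Z ⊆ U := sdiff_subset.trans (filter_subset _ _)
  have hcard := hpar.card_diff hsur hD hDC
  rw [hr] at hcard
  have hcard' : (C \ D).card = Z.card + 1 := by
    rw [← hZ] at hcard
    omega
  have hGF : C \ D ⊆ F := sdiff_subset.trans hCF
  have hSur : SurZ B F (C \ D) Z := by
    intro Y hY hne
    refine (hpar.hall hsur hD hCF hY hne).trans (card_le_card fun x hx => ?_)
    obtain ⟨h1, h2⟩ := mem_sdiff.1 hx
    obtain ⟨u, hu, hxu⟩ := mem_biUnion.1 h1
    exact mem_inter.2 ⟨h1, mem_sdiff.2 ⟨(mem_filter.1 (mem_sdiff.1 (hY hu)).1).2 hxu, h2⟩⟩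
  -- the outer hits
  have hoh : ∀ L ∈ C \ D, oh B Q T U F C i j L = hit B (RsZ B Q Z i j L) L := by
    intro L hL
    rw [s.hit_RsZ (hGF hL) hi hj hij hZU]
    unfold oh
    congr 1
    rw [hZ]
    symm
    refine sum_subset sdiff_subset fun u hu hu' => ?_
    have h1 : u ∈ Sp.Uin U (slf B F) D := by
      by_contra h2
      exact hu' (mem_sdiff.2 ⟨hu, h2⟩)
    rw [s.uin_zero (hGF hL) (mem_sdiff.1 hL).2 h1]
    rfl
  have hfs0 : ∀ L ∈ C \ D, 0 ≤ fs B Q L := by
    intro L hL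
    have h1 := (s.one (hGF hL)).f0
    have h2 := (s.one (hGF hL)).e0
    linarith
  by_contra hlt
  have hle : ∑ L ∈ C \ D, (oh B Q T U F C i j L + fs B Q L) ≤ 1 := by omega
  rw [sum_add_distrib, sum_congr rfl hoh] at hle
  have hf1 : 0 ≤ ∑ L ∈ C \ D, fs B Q L := sum_nonneg hfs0
  have hx0 : (0 : ℤ) ≤ ∑ L ∈ C \ D, (hit B (RsZ B Q Z i j L) L : ℤ) :=
    sum_nonneg fun _ _ => by positivity
  have hfs : ∀ L ∈ C \ D, fs B Q L ≤ 1 := fun L hL =>
    (single_le_sum (f := fun L => fs B Q L) hfs0 hL).trans (by linarith)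
  have hee : ∀ L ∈ C \ D, (ee B Q L : ℤ) = 0 := by
    intro L hL
    have h1 := (s.one (hGF hL)).f0
    have h2 := (s.one (hGF hL)).e0
    have h3 := hfs L hL
    linarith
  have hp0 : ∀ L ∈ C \ D, dv B Q L = 2 * (nt B L 1 : ℤ) + 3 * L.card - 12 := by
    intro L hL
    rw [s.dv_W (hGF hL), hee L hL, (s.one (hGF hL)).pp]
    ring
  obtain ⟨M, hM⟩ := hpar.ne hD
  rcases (by omega : (C \ D).card = 1 ∨ 2 ≤ (C \ D).card) with h1 | h2
  · obtain ⟨L, hL⟩ := card_eq_one.1 h1
    have hLG : L ∈ C \ D := by rw [hL]; exact mem_singleton_self L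
    have hZ0 : Z = ∅ := card_eq_zero.1 (by omega)
    rw [hL, sum_singleton, sum_singleton, s.hit_RsZ (hGF hLG) hi hj hij hZU, hZ0,
      sum_empty] at hle
    obtain ⟨e1, e2, e9, e10, e11, e12, e13, e3, e4, e5, e6, e7, e8⟩ := s.one (hGF hLG)
    obtain ⟨w2, ⟨f1, f2, -, f4⟩, f5⟩ := s.few2 hF (hGF hLG) hi hj hij
    rw [hee L hLG] at f1 f2 f4 e8
    have h3 := hfs0 L hLG
    have hw : w2 ≤ 1 := by linarith
    have hwf : w2 + fs B Q L ≤ 1 := by linarith
    rcases (by omega : Pp B L - 1 - 2 * 0 = -1 ∨ Pp B L - 1 - 2 * 0 = 1 ∨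
      3 ≤ Pp B L - 1 - 2 * 0) with g | g | g
    · have := f1 g hw
      omega
    · have := f2 g hw
      omega
    · have := f4 g
      omega
  · have hO := Frm.OcZ_le (B := B) (Q := Q) (Z := Z) (C \ D) i j
    have hO1 : (OcZ B Q Z i j (C \ D)).card ≤ 1 := by
      have h3 : ((∑ L ∈ C \ D, hit B (RsZ B Q Z i j L) L : ℕ) : ℤ) ≤ 1 := by
        push_cast
        linarith
      have h4 : ∑ L ∈ C \ D, hit B (RsZ B Q Z i j L) L ≤ 1 := by exact_mod_cast h3
      omega
    obtain ⟨g1, g2⟩ := s.frm.few_outZ s.viol hi hj hij hGF hZU hSur h2 hcard'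
      (hCF (hDC hM)) (fun h => (mem_sdiff.1 h).2 hM) hO1
    obtain ⟨L, M', hLM, hGe⟩ := card_eq_two.1 g1
    have hLG : L ∈ C \ D := by rw [hGe]; simp
    have hMG : M' ∈ C \ D := by rw [hGe]; simp
    have hZ1 : Z.card = 1 := by omega
    obtain ⟨u, hu⟩ := card_eq_one.1 hZ1
    have huU : u ∈ U := hZU (by rw [hu]; exact mem_singleton_self u)
    rw [hGe, sum_pair hLM, hp0 L hLG, hp0 M' hMG] at g2
    have key : ∀ {K K' : Finset V}, K ∈ C \ D → K' ∈ C \ D → K ≠ K' → C \ D = {K, K'} →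
        2 * (nt B K 1 : ℤ) + 3 * K.card = 11 → 2 * (nt B K' 1 : ℤ) + 3 * K'.card ≤ 13 → False := by
      intro K K' hK hK' hne hGK hK1 hK2
      obtain ⟨e1, e2, e9, e10, e11, e12, e13, e3, e4, e5, e6, e7, e8⟩ := s.one (hGF hK)
      obtain ⟨l1, l2, l9, l10, l11, l12, l13, l3, l4, l5, l6, l7, l8⟩ := s.one (hGF hK')
      have hm3 : K.card = 3 ∧ nt B K 1 = 1 := by omega
      have hs := hle
      rw [hGK, sum_pair hne, sum_pair hne] at hs
      have hf' := hfs0 K hK
      have hf'' := hfs0 K' hK'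
      rcases (by omega : 2 * (nt B K' 1 : ℤ) + 3 * K'.card = 11 ∨
        2 * (nt B K' 1 : ℤ) + 3 * K'.card = 13) with h3 | h3
      · have h4 := (s.o31 hG hC (mem_sdiff.1 hK).1 hi hj hij hm3.1 hm3.2).1
        rw [hoh K hK] at h4
        have h5 : (0 : ℤ) ≤ hit B (RsZ B Q Z i j K') K' := by positivity
        linarith
      · have hSur' : SurZ B F {K, K'} {u} := by
          rw [← hGK, ← hu]
          exact hSur
        have h4 := s.frm.cls_leafZ s.viol hi hj hij (hGF hK) (hGF hK') hne huU hSur'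
          (by rw [hp0 K hK]; linarith) (by rw [hp0 K' hK']; linarith) (by
            rw [← hu]
            have : ((hit B (RsZ B Q Z i j K) K + hit B (RsZ B Q Z i j K') K' : ℕ) : ℤ) ≤ 1 := by
              push_cast
              linarith
            exact_mod_cast this)
        have hdij : Disjoint (B i ∩ Q) (B j ∩ Q) := s.frm.mtp.tpk.pack.disj i hi j hj hij
        rw [hit_union_left _ hdij, hit_union_left _ hdij] at h4
        change jh B Q i K + jh B Q j K + (jh B Q i K' + jh B Q j K') ≤ 12 at h4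
        have r1 := s.hit_RsZ (hGF hK) hi hj hij hZU
        have r2 := s.hit_RsZ (hGF hK') hi hj hij hZU
        rw [hu, sum_singleton] at r1 r2
        have h5 : uh B u K + uh B u K' ≤ 5 := by
          have h6 := s.frm.five_u s.viol.reg huU
          have h7 : ∑ L ∈ ({K, K'} : Finset (Finset V)), uh B u L ≤ ∑ L ∈ F, uh B u L :=
            sum_le_sum_of_subset (by rw [← hGK]; exact hGF)
          rw [sum_pair hne] at h7
          omega
        have h4' : ((jh B Q i K + jh B Q j K + (jh B Q i K' + jh B Q j K') : ℕ) : ℤ) ≤ 12 := by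
          exact_mod_cast h4
        have h5' : ((uh B u K + uh B u K' : ℕ) : ℤ) ≤ 5 := by exact_mod_cast h5
        push_cast at h4' h5'
        rw [hu] at hs
        have e15 : Pp B K = 0 := by linarith
        have l15 : Pp B K' = 2 := by linarith
        rw [e15] at e2
        rw [l15] at l2
        have hm5 : nt B K' 1 = 5 := by omega
        rw [hm3.2] at e2
        rw [hm5] at l2
        push_cast at e2 l2
        linarith
    obtain ⟨e1, e2, e9, e10, e11, e12, e13, e3, e4, e5, e6, e7, e8⟩ := s.one (hGF hLG)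
    obtain ⟨l1, l2, l9, l10, l11, l12, l13, l3, l4, l5, l6, l7, l8⟩ := s.one (hGF hMG)
    rw [hee L hLG] at e8
    rw [hee M' hMG] at l8
    rcases (by omega : 2 * (nt B L 1 : ℤ) + 3 * L.card = 11 ∨
      2 * (nt B M' 1 : ℤ) + 3 * M'.card = 11) with h3 | h3
    · exact key hLG hMG hLM hGe h3 (by linarith)
    · exact key hMG hLG hLM.symm (by rw [hGe, pair_comm]) h3 (by linarith)

/-- **a line triple sees at most one parallel class of a class**. -/
theorem line_par (s : Stg B Q T U F P a) (hC : C ∈ P) {k : ι} (hk : k ∈ aC B Q T U F P C) :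
    ∃ D ∈ par0 B U F, D ⊆ C ∧ ∀ L ∈ C \ D, jh B Q k L = 0 := by
  classical
  have hCF : C ⊆ F := (s.part.ptn.vc C hC).sub
  have hpar : Sp.Par F U (slf B F) (par0 B U F) := s.par
  have hsur := s.frm.sur
  have hgd := s.frm.gdT (R := Rg B Q T U F)
  obtain ⟨hkt, hCl⟩ := Sp.mem_atl.1 hk
  obtain ⟨hkR, hne, hno⟩ := mem_filter.1 (mem_filter.1 hkt).1
  have hkT : k ∈ T := Rg_sub hkR
  by_cases hm : C ∈ Sp.met P (slj B Q F k)
  · obtain ⟨S, hS, h3, h4⟩ := hpar.exists_set hsur (slj_sub (B := B) (Q := Q) (F := F) (j := k))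
      (mem_Rg.1 hkR).2.2
    have h5 : Sp.met P (slj B Q F k) ⊆ Sp.met P S := by
      intro E hE
      obtain ⟨h6, h7⟩ := Sp.mem_met.1 hE
      exact Sp.mem_met.2 ⟨h6, fun hd => h7 (hd.mono_left h3)⟩
    have h6 := s.part.ptn.two_met (hgd.NTs k hkR) hne hno
    have h7 : 2 ≤ Sp.rkn (Sp.nP U (slf B F) P) (Sp.met P S) := by
      obtain ⟨E1, E2, hE1, hE2, hE⟩ := one_lt_card_iff.1 (by omega : 1 < (Sp.met P (slj B Q F k)).card)
      have h8 := s.part.pair hgd (Sp.met_subset hE1) (Sp.met_subset hE2) hE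
      have h9 := (s.part.nul hgd).rk_mono (insert_subset (h5 hE1) (singleton_subset_iff.2 (h5 hE2)))
      unfold Sp.rkn at h9 ⊢
      rw [card_pair hE] at h9
      push_cast at h9
      linarith
    have h8 := s.part.fU_trace hgd hS (h5 hm)
    obtain ⟨x, hx1, hx2⟩ := not_disjoint_iff.1 (Sp.mem_met.1 hm).2
    obtain ⟨D, hD, hDs⟩ := hpar.in_class hsur (E := S ∩ C) (inter_subset_left.trans hS)
      ⟨x, mem_inter.2 ⟨h3 hx1, hx2⟩⟩ (by linarith)
    obtain ⟨C', hC', hDC'⟩ := hpar.sub_class hgd s.part hD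
    have hCC : C' = C := by
      by_contra hne
      exact disjoint_left.1 (s.part.ptn.dj C' hC' C hC hne)
        (hDC' (hDs (mem_inter.2 ⟨h3 hx1, hx2⟩))) hx2
    refine ⟨D, hD, hCC ▸ hDC', fun L hL => ?_⟩
    by_contra h9
    obtain ⟨h10, h11⟩ := mem_sdiff.1 hL
    exact h11 (hDs (mem_inter.2 ⟨h3 (s.frm.slj_of_hit (hCF h10) hkT h9), h10⟩))
  · obtain ⟨x, hx⟩ := (s.part.ptn.vc C hC).ne
    obtain ⟨D, hD, hxD⟩ := hpar.cls (hCF hx)
    obtain ⟨C', hC', hDC'⟩ := hpar.sub_class hgd s.part hD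
    have hCC : C' = C := by
      by_contra hne
      exact disjoint_left.1 (s.part.ptn.dj C' hC' C hC hne) (hDC' hxD) hx
    refine ⟨D, hD, hCC ▸ hDC', fun L hL => ?_⟩
    by_contra h9
    exact hm (Sp.mem_met.2 ⟨hC, not_disjoint_iff.2
      ⟨L, s.frm.slj_of_hit (hCF (mem_sdiff.1 hL).1) hkT h9, (mem_sdiff.1 hL).1⟩⟩)

/-- **the outer hits of a set of leaves of a class**. -/
theorem oh_le (s : Stg B Q T U F P a) (hC : C ∈ P) (hij : i ≠ j)
    (hK : Sp.Kin (Rg B Q T U F) (slj B Q F) C = {i, j}) {S : Finset (Finset V)} (hS : S ⊆ C) :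
    ∑ L ∈ S, oh B Q T U F C i j L ≤ ∑ k ∈ aC B Q T U F P C, ∑ L ∈ S, (jh B Q k L : ℤ) +
      gC B U F P C + ∑ k ∈ Trs B Q T (Rg B Q T U F) U F P, ∑ L ∈ S, (jh B Q k L : ℤ) := by
  classical
  have hCF : C ⊆ F := (s.part.ptn.vc C hC).sub
  have hiK : i ∈ Sp.Kin (Rg B Q T U F) (slj B Q F) C := by rw [hK]; simp
  have hjK : j ∈ Sp.Kin (Rg B Q T U F) (slj B Q F) C := by rw [hK]; simp
  have hiT := (s.kin.1 hiK).1
  have hjT := (s.kin.1 hjK).1
  -- the hits of `U`
  have h1 : ∀ L ∈ S, (hit B U L : ℤ) - ∑ u ∈ Sp.Uin U (slf B F) C, (uh B u L : ℤ) =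
      ∑ u ∈ Sp.Ux U (slf B F) P, (uh B u L : ℤ) := by
    intro L hL
    have hLF := hCF (hS hL)
    rw [Frm.hit_U_sum]
    push_cast
    have hd : Disjoint (Sp.Uin U (slf B F) C) (Sp.Ux U (slf B F) P) :=
      disjoint_left.2 fun u hu hu' => (mem_filter.1 hu').2 C hC (mem_filter.1 hu).2
    have h2 : Sp.Uin U (slf B F) C ∪ Sp.Ux U (slf B F) P ⊆ U :=
      union_subset (filter_subset _ _) (filter_subset _ _)
    rw [← sum_subset h2 fun u hu hu' => ?_, sum_union hd]
    · ring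
    · rw [mem_union, not_or] at hu'
      have h3 : ∃ D ∈ P, slf B F u ⊆ D := by
        by_contra hcon
        push Not at hcon
        exact hu'.2 (mem_filter.2 ⟨hu, hcon⟩)
      obtain ⟨D, hD, h4⟩ := h3
      have hDC : D ≠ C := by
        rintro rfl
        exact hu'.1 (mem_filter.2 ⟨hu, h4⟩)
      rw [uh_zero hLF (s.frm.U_notin hu hLF) fun h5 =>
        disjoint_left.1 (s.part.ptn.dj D hD C hC hDC) (h4 h5) (hS hL)]
      rfl
  have h2 : ∑ L ∈ S, ∑ u ∈ Sp.Ux U (slf B F) P, (uh B u L : ℤ) ≤ gC B U F P C := by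
    rw [sum_comm]
    unfold gC uC
    push_cast
    exact sum_le_sum fun u _ => sum_le_sum_of_subset_of_nonneg hS fun _ _ _ => by positivity
  -- the hits of the triples
  have h3 : ∀ L ∈ S, ∑ k ∈ T, (jh B Q k L : ℤ) - jh B Q i L - jh B Q j L =
      ∑ k ∈ aC B Q T U F P C, (jh B Q k L : ℤ) +
        ∑ k ∈ Trs B Q T (Rg B Q T U F) U F P, (jh B Q k L : ℤ) := by
    intro L hL
    have hLC := hS hL
    have hKT : ({i, j} : Finset ι) ⊆ T := by
      intro k hk
      rcases mem_insert.1 hk with rfl | hk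
      · exact hiT
      · rw [mem_singleton.1 hk]
        exact hjT
    have haT : aC B Q T U F P C ⊆ T := fun k hk => (s.tl_sub (Sp.mem_atl.1 hk).1).1
    have hTT : Trs B Q T (Rg B Q T U F) U F P ⊆ T := fun k hk =>
      (mem_sdiff.1 (mem_sdiff.1 hk).1).1
    have d1 : Disjoint (aC B Q T U F P C) (Trs B Q T (Rg B Q T U F) U F P) :=
      disjoint_left.2 fun k hk hk' => (mem_sdiff.1 hk').2 (Sp.mem_atl.1 hk).1
    have d2 : Disjoint ({i, j} : Finset ι)
        (aC B Q T U F P C ∪ Trs B Q T (Rg B Q T U F) U F P) := by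
      refine disjoint_left.2 fun k hk hk' => ?_
      rw [← hK] at hk
      rcases mem_union.1 hk' with h4 | h4
      · exact (mem_filter.1 (mem_filter.1 (Sp.mem_atl.1 h4).1).1).2.2 C hC
          (s.kin.1 hk).2.2.2.2
      · exact (mem_sdiff.1 (mem_sdiff.1 h4).1).2 (mem_biUnion.2 ⟨C, hC, hk⟩)
    have hsub : ({i, j} : Finset ι) ∪ (aC B Q T U F P C ∪ Trs B Q T (Rg B Q T U F) U F P) ⊆ T :=
      union_subset hKT (union_subset haT hTT)
    rw [← sum_subset hsub fun k hk hk' => ?_, sum_union d2, sum_union d1, sum_pair hij]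
    · ring
    · rw [mem_union, mem_union, not_or, not_or] at hk'
      obtain ⟨n1, n2, n3⟩ := hk'
      by_contra h0
      have h0' : jh B Q k L ≠ 0 := fun h => h0 (by rw [h]; rfl)
      have h5 := s.frm.slj_of_hit (hCF hLC) hk h0'
      have hm : C ∈ Sp.met P (slj B Q F k) :=
        Sp.mem_met.2 ⟨hC, not_disjoint_iff.2 ⟨L, h5, hLC⟩⟩
      by_cases h2 : k ∈ tl B Q T U F P
      · exact n2 (Sp.mem_atl.2 ⟨h2, Sp.met_sub_lx hm⟩)
      · by_cases h3 : k ∈ P.biUnion (Sp.Kin (Rg B Q T U F) (slj B Q F))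
        · obtain ⟨D, hD, hkD⟩ := mem_biUnion.1 h3
          have hDC : D ≠ C := by
            rintro rfl
            rw [hK] at hkD
            exact n1 hkD
          exact disjoint_left.1 (s.part.ptn.dj D hD C hC hDC) ((s.kin.1 hkD).2.2.2.2 h5) hLC
        · exact n3 (mem_sdiff.2 ⟨mem_sdiff.2 ⟨hk, h3⟩, h2⟩)
  have h4 : ∀ L ∈ S, oh B Q T U F C i j L = (∑ k ∈ aC B Q T U F P C, (jh B Q k L : ℤ) +
      ∑ k ∈ Trs B Q T (Rg B Q T U F) U F P, (jh B Q k L : ℤ)) +
        ∑ u ∈ Sp.Ux U (slf B F) P, (uh B u L : ℤ) := by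
    intro L hL
    have h5 := h1 L hL
    have h6 := h3 L hL
    unfold oh
    linarith
  rw [sum_congr rfl h4, sum_add_distrib, sum_add_distrib, sum_comm (s := S),
    sum_comm (s := S) (t := Trs B Q T (Rg B Q T U F) U F P)]
  linarith

end Stg

end Pool.Agent.Hyp6
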