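import Pool.Agent.Hyp6.L3Yb

/-!
# HYP6 L3W3: the numbers of the classes of rank two with two inside triples

Integer lemmas: the inequality `NI` of a class of rank two with two inside triples from its numbers and
facts about its leaves. Found by branch and bound, every leaf of the search is a linear combination.
-/

set_option autoImplicit false
set_option linter.unusedVariables false

namespace Pool.Agent.Hyp6

section

variable {n p K W X f e N M q b k S s x d : ℤ}

/-- rank two, two inside triples, one line triple. -/
theorem Nd.g22q (h : Nd n p K W X f e N M q b k S s x) (hr : n - p = 2) (hK : K = 2)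
    (hq : q = 1) (hb : b = 0) (hs0 : s = 0)
    (hd : d ≤ 0 ∨ (d ≤ 80 ∧ 1 ≤ X) ∨ (d ≤ 160 ∧ 2 ≤ X) ∨ (d ≤ 240 ∧ 7 ≤ X) ∨
      (d ≤ 320 ∧ 8 ≤ X) ∨ (d ≤ 400 ∧ 13 ≤ X) ∨ (d ≤ 480 ∧ 14 ≤ X))
    (hA : n + 2 * e ≤ N) (hxf : 2 ≤ x + f)
    (h1 : N = n → M = 3 * n → 3 ≤ x + f)
    (h2 : N = n + 2 → M = 3 * n → 4 ≤ k + s + x + f ∧ (3 ≤ x + f ∨ s ≤ 4 ∨ 3 ≤ W))
    (hk11 : k ≤ 11) (hk2 : 2 ≤ k → 463 ≤ S) (hk3 : 3 ≤ k → 516 ≤ S)
    (hk5 : 5 ≤ k → 527 ≤ S) (hk7 : 5 ≤ k → k ≤ 7 → 543 ≤ S) :
    NI n p K W X f e N b S s x d := by
  obtain ⟨c1, c2, c3, c4, c5, c6, c7, c8, c9, c10, c11, c12, c13, c14, c15, c16, c17, c18, c19, c20,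
    c21, c22, c23, c24, c25, c26⟩ := h
  obtain ⟨A, hA1⟩ : ∃ A, N = n + 2 * A := ⟨(N - n) / 2, by omega⟩
  obtain ⟨Bm, hB1⟩ : ∃ Bm, M = n + 2 * Bm := ⟨(M - n) / 2, by omega⟩
  obtain rfl : n = p + 2 := by omega
  subst hA1 hB1 hK hq hb
  unfold NI
  clear c7 c8
  by_contra hcon
  rw [not_le] at hcon
  rcases hd with hd | ⟨hd, hX⟩ | ⟨hd, hX⟩ | ⟨hd, hX⟩ | ⟨hd, hX⟩ | ⟨hd, hX⟩ | ⟨hd, hX⟩
  · rcases (by omega : p ≤ 1 ∨ 2 ≤ p) with g1 | g1
    · rcases (by omega : A ≤ 0 ∨ 1 ≤ A) with g2 | g2
      · linarith
      · rcases (by omega : Bm ≤ 3 ∨ 4 ≤ Bm) with g3 | g3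
        · linarith
        · linarith
    · rcases (by omega : A ≤ 1 ∨ 2 ≤ A) with g4 | g4
      · linarith
      · rcases (by omega : p ≤ 2 ∨ 3 ≤ p) with g5 | g5
        · rcases (by omega : Bm ≤ 3 ∨ 4 ≤ Bm) with g6 | g6
          · rcases (by omega : Bm ≤ 2 ∨ 3 ≤ Bm) with g7 | g7
            · linarith
            · rcases (by omega : A ≤ 2 ∨ 3 ≤ A) with g8 | g8
              · rcases (by omega : X ≤ 0 ∨ 1 ≤ X) with g9 | g9
                · rcases (by omega : W ≤ 2 ∨ 3 ≤ W) with g10 | g10
                  · rcases (by omega : e ≤ 0 ∨ 1 ≤ e) with g11 | g11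
                    · linarith
                    · linarith
                  · linarith
                · linarith
              · linarith
          · linarith
        · linarith
  · rcases (by omega : p ≤ 1 ∨ 2 ≤ p) with g1 | g1
    · rcases (by omega : A ≤ 0 ∨ 1 ≤ A) with g2 | g2
      · rcases (by omega : Bm ≤ 3 ∨ 4 ≤ Bm) with g3 | g3
        · linarith
        · linarith
      · rcases (by omega : Bm ≤ 3 ∨ 4 ≤ Bm) with g4 | g4
        · rcases (by omega : A ≤ 1 ∨ 2 ≤ A) with g5 | g5
          · rcases (by omega : e ≤ 0 ∨ 1 ≤ e) with g6 | g6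
            · linarith
            · linarith
          · rcases (by omega : Bm ≤ 2 ∨ 3 ≤ Bm) with g7 | g7
            · linarith
            · rcases (by omega : A ≤ 2 ∨ 3 ≤ A) with g8 | g8
              · rcases (by omega : W ≤ 0 ∨ 1 ≤ W) with g9 | g9
                · rcases (by omega : X ≤ 1 ∨ 2 ≤ X) with g10 | g10
                  · rcases (by omega : e ≤ 0 ∨ 1 ≤ e) with g11 | g11
                    · linarith
                    · linarith
                  · linarith
                · linarith
              · linarith
        · rcases (by omega : Bm ≤ 4 ∨ 5 ≤ Bm) with g12 | g12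
          · rcases (by omega : A ≤ 1 ∨ 2 ≤ A) with g13 | g13
            · rcases (by omega : W ≤ 0 ∨ 1 ≤ W) with g14 | g14
              · rcases (by omega : X ≤ 1 ∨ 2 ≤ X) with g15 | g15
                · rcases (by omega : e ≤ 0 ∨ 1 ≤ e) with g16 | g16
                  · linarith
                  · linarith
                · linarith
              · linarith
            · linarith
          · linarith
    · rcases (by omega : p ≤ 2 ∨ 3 ≤ p) with g17 | g17
      · rcases (by omega : A ≤ 0 ∨ 1 ≤ A) with g18 | g18
        · linarith
        · rcases (by omega : Bm ≤ 3 ∨ 4 ≤ Bm) with g19 | g19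
          · rcases (by omega : A ≤ 3 ∨ 4 ≤ A) with g20 | g20
            · rcases (by omega : W ≤ 0 ∨ 1 ≤ W) with g21 | g21
              · rcases (by omega : X ≤ 1 ∨ 2 ≤ X) with g22 | g22
                · rcases (by omega : Bm ≤ 2 ∨ 3 ≤ Bm) with g23 | g23
                  · linarith
                  · rcases (by omega : e ≤ 0 ∨ 1 ≤ e) with g24 | g24
                    · linarith
                    · linarith
                · rcases (by omega : Bm ≤ 2 ∨ 3 ≤ Bm) with g25 | g25
                  · linarith
                  · linarith
              · rcases (by omega : A ≤ 2 ∨ 3 ≤ A) with g26 | g26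
                · rcases (by omega : W ≤ 3 ∨ 4 ≤ W) with g27 | g27
                  · rcases (by omega : X ≤ 1 ∨ 2 ≤ X) with g28 | g28
                    · rcases (by omega : e ≤ 0 ∨ 1 ≤ e) with g29 | g29
                      · linarith
                      · linarith
                    · rcases (by omega : W ≤ 2 ∨ 3 ≤ W) with g30 | g30
                      · rcases (by omega : X ≤ 2 ∨ 3 ≤ X) with g31 | g31
                        · rcases (by omega : e ≤ 0 ∨ 1 ≤ e) with g32 | g32
                          · linarith
                          · linarith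
                        · linarith
                      · linarith
                  · linarith
                · rcases (by omega : Bm ≤ 2 ∨ 3 ≤ Bm) with g33 | g33
                  · linarith
                  · linarith
            · rcases (by omega : Bm ≤ 2 ∨ 3 ≤ Bm) with g34 | g34
              · rcases (by omega : A ≤ 4 ∨ 5 ≤ A) with g35 | g35
                · rcases (by omega : W ≤ 0 ∨ 1 ≤ W) with g36 | g36
                  · rcases (by omega : X ≤ 1 ∨ 2 ≤ X) with g37 | g37
                    · rcases (by omega : e ≤ 0 ∨ 1 ≤ e) with g38 | g38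
                      · linarith
                      · linarith
                    · linarith
                  · linarith
                · linarith
              · linarith
          · linarith
      · linarith
  · rcases (by omega : p ≤ 1 ∨ 2 ≤ p) with g1 | g1
    · rcases (by omega : A ≤ 0 ∨ 1 ≤ A) with g2 | g2
      · rcases (by omega : Bm ≤ 3 ∨ 4 ≤ Bm) with g3 | g3
        · have g4f : 3 ≤ x + f := by
            have hf := h1 (by omega) (by omega)
            omega
          linarith
        · rcases (by omega : Bm ≤ 4 ∨ 5 ≤ Bm) with g5 | g5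
          · rcases (by omega : X ≤ 2 ∨ 3 ≤ X) with g6 | g6
            · rcases (by omega : W ≤ 2 ∨ 3 ≤ W) with g7 | g7
              · rcases (by omega : p ≤ 0 ∨ 1 ≤ p) with g8 | g8
                · linarith
                · have g9f : 516 ≤ S := by
                    have hf := hk3 (by omega)
                    omega
                  linarith
              · linarith
            · linarith
          · linarith
      · rcases (by omega : e ≤ 0 ∨ 1 ≤ e) with g10 | g10
        · rcases (by omega : 2 ≤ A ∨ A ≤ 1) with g11 | g11
          · rcases (by omega : Bm ≤ 2 ∨ 3 ≤ Bm) with g12 | g12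
            · linarith
            · linarith
          · have g13f : (3 ≤ x + f ∧ 4 ≤ k + s + x + f) ∨ (s ≤ 4 ∧ 4 ≤ k + s + x + f) ∨ (3 ≤ W ∧ 4 ≤ k + s + x + f) := by
              have hf := h2 (by omega) (by omega)
              omega
            rcases g13f with ⟨g13_0, g13_1⟩ | ⟨g13_0, g13_1⟩ | ⟨g13_0, g13_1⟩
            · linarith
            · rcases (by omega : Bm ≤ 3 ∨ 4 ≤ Bm) with g14 | g14
              · rcases (by omega : Bm ≤ 2 ∨ 3 ≤ Bm) with g15 | g15
                · linarith
                · rcases (by omega : W ≤ 1 ∨ 2 ≤ W) with g16 | g16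
                  · rcases (by omega : X ≤ 2 ∨ 3 ≤ X) with g17 | g17
                    · have g18f : 463 ≤ S := by
                        have hf := hk2 (by omega)
                        omega
                      linarith
                    · rcases (by omega : W ≤ 0 ∨ 1 ≤ W) with g19 | g19
                      · rcases (by omega : X ≤ 3 ∨ 4 ≤ X) with g20 | g20
                        · have g21f : 463 ≤ S := by
                            have hf := hk2 (by omega)
                            omega
                          linarith
                        · linarith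
                      · linarith
                  · linarith
              · linarith
            · linarith
        · linarith
    · rcases (by omega : p ≤ 2 ∨ 3 ≤ p) with g22 | g22
      · rcases (by omega : A ≤ 0 ∨ 1 ≤ A) with g23 | g23
        · linarith
        · rcases (by omega : Bm ≤ 4 ∨ 5 ≤ Bm) with g24 | g24
          · rcases (by omega : W ≤ 5 ∨ 6 ≤ W) with g25 | g25
            · rcases (by omega : A ≤ 1 ∨ 2 ≤ A) with g26 | g26
              · rcases (by omega : X ≤ 2 ∨ 3 ≤ X) with g27 | g27
                · rcases (by omega : e ≤ 0 ∨ 1 ≤ e) with g28 | g28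
                  · linarith
                  · linarith
                · rcases (by omega : W ≤ 4 ∨ 5 ≤ W) with g29 | g29
                  · rcases (by omega : X ≤ 3 ∨ 4 ≤ X) with g30 | g30
                    · rcases (by omega : e ≤ 0 ∨ 1 ≤ e) with g31 | g31
                      · linarith
                      · linarith
                    · rcases (by omega : Bm ≤ 3 ∨ 4 ≤ Bm) with g32 | g32
                      · linarith
                      · linarith
                  · rcases (by omega : Bm ≤ 3 ∨ 4 ≤ Bm) with g33 | g33
                    · linarith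
                    · linarith
              · rcases (by omega : W ≤ 2 ∨ 3 ≤ W) with g34 | g34
                · rcases (by omega : A ≤ 2 ∨ 3 ≤ A) with g35 | g35
                  · rcases (by omega : X ≤ 2 ∨ 3 ≤ X) with g36 | g36
                    · rcases (by omega : e ≤ 0 ∨ 1 ≤ e) with g37 | g37
                      · rcases (by omega : Bm ≤ 3 ∨ 4 ≤ Bm) with g38 | g38
                        · have g39f : 516 ≤ S := by
                            have hf := hk3 (by omega)
                            omega
                          linarith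
                        · linarith
                      · linarith
                    · rcases (by omega : Bm ≤ 3 ∨ 4 ≤ Bm) with g40 | g40
                      · rcases (by omega : X ≤ 4 ∨ 5 ≤ X) with g41 | g41
                        · rcases (by omega : e ≤ 0 ∨ 1 ≤ e) with g42 | g42
                          · linarith
                          · linarith
                        · linarith
                      · linarith
                  · rcases (by omega : Bm ≤ 3 ∨ 4 ≤ Bm) with g43 | g43
                    · rcases (by omega : A ≤ 3 ∨ 4 ≤ A) with g44 | g44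
                      · rcases (by omega : Bm ≤ 2 ∨ 3 ≤ Bm) with g45 | g45
                        · linarith
                        · rcases (by omega : W ≤ 1 ∨ 2 ≤ W) with g46 | g46
                          · rcases (by omega : X ≤ 2 ∨ 3 ≤ X) with g47 | g47
                            · rcases (by omega : e ≤ 0 ∨ 1 ≤ e) with g48 | g48
                              · linarith
                              · linarith
                            · rcases (by omega : W ≤ 0 ∨ 1 ≤ W) with g49 | g49
                              · rcases (by omega : X ≤ 3 ∨ 4 ≤ X) with g50 | g50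
                                · rcases (by omega : e ≤ 0 ∨ 1 ≤ e) with g51 | g51
                                  · linarith
                                  · linarith
                                · linarith
                              · linarith
                          · linarith
                      · rcases (by omega : Bm ≤ 2 ∨ 3 ≤ Bm) with g52 | g52
                        · rcases (by omega : A ≤ 4 ∨ 5 ≤ A) with g53 | g53
                          · rcases (by omega : W ≤ 1 ∨ 2 ≤ W) with g54 | g54
                            · rcases (by omega : X ≤ 2 ∨ 3 ≤ X) with g55 | g55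
                              · rcases (by omega : e ≤ 0 ∨ 1 ≤ e) with g56 | g56
                                · linarith
                                · linarith
                              · rcases (by omega : W ≤ 0 ∨ 1 ≤ W) with g57 | g57
                                · rcases (by omega : X ≤ 3 ∨ 4 ≤ X) with g58 | g58
                                  · rcases (by omega : e ≤ 0 ∨ 1 ≤ e) with g59 | g59
                                    · linarith
                                    · linarith
                                  · linarith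
                                · linarith
                            · linarith
                          · linarith
                        · linarith
                    · linarith
                · rcases (by omega : Bm ≤ 3 ∨ 4 ≤ Bm) with g60 | g60
                  · rcases (by omega : A ≤ 2 ∨ 3 ≤ A) with g61 | g61
                    · rcases (by omega : X ≤ 3 ∨ 4 ≤ X) with g62 | g62
                      · rcases (by omega : W ≤ 3 ∨ 4 ≤ W) with g63 | g63
                        · rcases (by omega : e ≤ 0 ∨ 1 ≤ e) with g64 | g64
                          · linarith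
                          · linarith
                        · rcases (by omega : X ≤ 2 ∨ 3 ≤ X) with g65 | g65
                          · rcases (by omega : W ≤ 4 ∨ 5 ≤ W) with g66 | g66
                            · rcases (by omega : e ≤ 0 ∨ 1 ≤ e) with g67 | g67
                              · linarith
                              · linarith
                            · linarith
                          · linarith
                      · linarith
                    · rcases (by omega : Bm ≤ 2 ∨ 3 ≤ Bm) with g68 | g68
                      · linarith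
                      · linarith
                  · linarith
            · rcases (by omega : Bm ≤ 3 ∨ 4 ≤ Bm) with g69 | g69
              · linarith
              · linarith
          · linarith
      · rcases (by omega : p ≤ 3 ∨ 4 ≤ p) with g70 | g70
        · rcases (by omega : A ≤ 3 ∨ 4 ≤ A) with g71 | g71
          · linarith
          · rcases (by omega : Bm ≤ 3 ∨ 4 ≤ Bm) with g72 | g72
            · rcases (by omega : A ≤ 4 ∨ 5 ≤ A) with g73 | g73
              · rcases (by omega : W ≤ 2 ∨ 3 ≤ W) with g74 | g74
                · rcases (by omega : X ≤ 2 ∨ 3 ≤ X) with g75 | g75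
                  · rcases (by omega : e ≤ 0 ∨ 1 ≤ e) with g76 | g76
                    · linarith
                    · linarith
                  · linarith
                · linarith
              · rcases (by omega : Bm ≤ 2 ∨ 3 ≤ Bm) with g77 | g77
                · linarith
                · linarith
            · linarith
        · linarith
  · rcases (by omega : p ≤ 1 ∨ 2 ≤ p) with g1 | g1
    · rcases (by omega : A ≤ 0 ∨ 1 ≤ A) with g2 | g2
      · rcases (by omega : Bm ≤ 3 ∨ 4 ≤ Bm) with g3 | g3
        · rcases (by omega : p ≤ 0 ∨ 1 ≤ p) with g4 | g4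
          · rcases (by omega : Bm ≤ 2 ∨ 3 ≤ Bm) with g5 | g5
            · linarith
            · linarith
          · rcases (by omega : W ≤ 2 ∨ 3 ≤ W) with g6 | g6
            · rcases (by omega : X ≤ 7 ∨ 8 ≤ X) with g7 | g7
              · have g8f : 3 ≤ x + f := by
                  have hf := h1 (by omega) (by omega)
                  omega
                linarith
              · linarith
            · linarith
        · linarith
      · rcases (by omega : Bm ≤ 3 ∨ 4 ≤ Bm) with g9 | g9
        · rcases (by omega : Bm ≤ 2 ∨ 3 ≤ Bm) with g10 | g10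
          · rcases (by omega : p ≤ 0 ∨ 1 ≤ p) with g11 | g11
            · rcases (by omega : Bm ≤ 1 ∨ 2 ≤ Bm) with g12 | g12
              · linarith
              · rcases (by omega : A ≤ 1 ∨ 2 ≤ A) with g13 | g13
                · rcases (by omega : X ≤ 8 ∨ 9 ≤ X) with g14 | g14
                  · rcases (by omega : e ≤ 0 ∨ 1 ≤ e) with g15 | g15
                    · linarith
                    · linarith
                  · linarith
                · linarith
            · rcases (by omega : A ≤ 2 ∨ 3 ≤ A) with g16 | g16
              · rcases (by omega : W ≤ 1 ∨ 2 ≤ W) with g17 | g17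
                · rcases (by omega : X ≤ 7 ∨ 8 ≤ X) with g18 | g18
                  · rcases (by omega : e ≤ 0 ∨ 1 ≤ e) with g19 | g19
                    · linarith
                    · linarith
                  · rcases (by omega : W ≤ 0 ∨ 1 ≤ W) with g20 | g20
                    · rcases (by omega : X ≤ 8 ∨ 9 ≤ X) with g21 | g21
                      · rcases (by omega : e ≤ 0 ∨ 1 ≤ e) with g22 | g22
                        · linarith
                        · linarith
                      · linarith
                    · linarith
                · linarith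
              · linarith
          · rcases (by omega : A ≤ 1 ∨ 2 ≤ A) with g23 | g23
            · rcases (by omega : X ≤ 8 ∨ 9 ≤ X) with g24 | g24
              · rcases (by omega : W ≤ 0 ∨ 1 ≤ W) with g25 | g25
                · rcases (by omega : p ≤ 0 ∨ 1 ≤ p) with g26 | g26
                  · linarith
                  · rcases (by omega : e ≤ 0 ∨ 1 ≤ e) with g27 | g27
                    · linarith
                    · linarith
                · rcases (by omega : X ≤ 7 ∨ 8 ≤ X) with g28 | g28
                  · rcases (by omega : W ≤ 1 ∨ 2 ≤ W) with g29 | g29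
                    · rcases (by omega : p ≤ 0 ∨ 1 ≤ p) with g30 | g30
                      · linarith
                      · rcases (by omega : e ≤ 0 ∨ 1 ≤ e) with g31 | g31
                        · linarith
                        · linarith
                    · linarith
                  · linarith
              · linarith
            · linarith
        · linarith
    · rcases (by omega : p ≤ 2 ∨ 3 ≤ p) with g32 | g32
      · rcases (by omega : A ≤ 1 ∨ 2 ≤ A) with g33 | g33
        · linarith
        · rcases (by omega : Bm ≤ 3 ∨ 4 ≤ Bm) with g34 | g34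
          · rcases (by omega : A ≤ 2 ∨ 3 ≤ A) with g35 | g35
            · rcases (by omega : W ≤ 2 ∨ 3 ≤ W) with g36 | g36
              · rcases (by omega : X ≤ 7 ∨ 8 ≤ X) with g37 | g37
                · rcases (by omega : e ≤ 0 ∨ 1 ≤ e) with g38 | g38
                  · linarith
                  · linarith
                · linarith
              · linarith
            · rcases (by omega : Bm ≤ 2 ∨ 3 ≤ Bm) with g39 | g39
              · linarith
              · linarith
          · linarith
      · linarith
  · rcases (by omega : p ≤ 1 ∨ 2 ≤ p) with g1 | g1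
    · rcases (by omega : A ≤ 0 ∨ 1 ≤ A) with g2 | g2
      · rcases (by omega : Bm ≤ 3 ∨ 4 ≤ Bm) with g3 | g3
        · rcases (by omega : X ≤ 8 ∨ 9 ≤ X) with g4 | g4
          · rcases (by omega : p + 3 ≤ Bm ∨ Bm ≤ p + 2) with g5 | g5
            · have g6f : 516 ≤ S := by
                have hf := hk3 (by omega)
                omega
              linarith
            · have g7f : 3 ≤ x + f := by
                have hf := h1 (by omega) (by omega)
                omega
              linarith
          · rcases (by omega : p ≤ 0 ∨ 1 ≤ p) with g8 | g8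
            · rcases (by omega : Bm ≤ 2 ∨ 3 ≤ Bm) with g9 | g9
              · rcases (by omega : X ≤ 10 ∨ 11 ≤ X) with g10 | g10
                · have g11f : 3 ≤ x + f := by
                    have hf := h1 (by omega) (by omega)
                    omega
                  linarith
                · linarith
              · linarith
            · rcases (by omega : W ≤ 2 ∨ 3 ≤ W) with g12 | g12
              · rcases (by omega : X ≤ 9 ∨ 10 ≤ X) with g13 | g13
                · have g14f : 3 ≤ x + f := by
                    have hf := h1 (by omega) (by omega)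
                    omega
                  linarith
                · linarith
              · linarith
        · linarith
      · rcases (by omega : Bm ≤ 3 ∨ 4 ≤ Bm) with g15 | g15
        · rcases (by omega : A ≤ 1 ∨ 2 ≤ A) with g16 | g16
          · rcases (by omega : X ≤ 8 ∨ 9 ≤ X) with g17 | g17
            · rcases (by omega : e ≤ 0 ∨ 1 ≤ e) with g18 | g18
              · rcases (by omega : W ≤ 0 ∨ 1 ≤ W) with g19 | g19
                · rcases (by omega : p ≤ 0 ∨ 1 ≤ p) with g20 | g20
                  · rcases (by omega : Bm ≤ 1 ∨ 2 ≤ Bm) with g21 | g21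
                    · linarith
                    · linarith
                  · have g22f : 516 ≤ S := by
                      have hf := hk3 (by omega)
                      omega
                    rcases (by omega : x + f ≤ 2 ∨ 3 ≤ x + f) with g23 | g23
                    · have g24f : 527 ≤ S := by
                        have hf := hk5 (by omega)
                        omega
                      rcases (by omega : Bm ≤ 2 ∨ 3 ≤ Bm) with g25 | g25
                      · linarith
                      · have g26f : 543 ≤ S := by
                          have hf := hk7 (by omega) (by omega)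
                          omega
                        linarith
                    · linarith
                · rcases (by omega : Bm ≤ 2 ∨ 3 ≤ Bm) with g27 | g27
                  · rcases (by omega : p ≤ 0 ∨ 1 ≤ p) with g28 | g28
                    · linarith
                    · linarith
                  · linarith
              · linarith
            · rcases (by omega : X ≤ 11 ∨ 12 ≤ X) with g29 | g29
              · rcases (by omega : W ≤ 0 ∨ 1 ≤ W) with g30 | g30
                · rcases (by omega : p ≤ 0 ∨ 1 ≤ p) with g31 | g31
                  · rcases (by omega : Bm ≤ 2 ∨ 3 ≤ Bm) with g32 | g32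
                    · rcases (by omega : Bm ≤ 1 ∨ 2 ≤ Bm) with g33 | g33
                      · linarith
                      · rcases (by omega : X ≤ 10 ∨ 11 ≤ X) with g34 | g34
                        · rcases (by omega : e ≤ 0 ∨ 1 ≤ e) with g35 | g35
                          · linarith
                          · linarith
                        · linarith
                    · linarith
                  · rcases (by omega : e ≤ 0 ∨ 1 ≤ e) with g36 | g36
                    · rcases (by omega : Bm ≤ 2 ∨ 3 ≤ Bm) with g37 | g37
                      · linarith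
                      · linarith
                    · linarith
                · rcases (by omega : X ≤ 10 ∨ 11 ≤ X) with g38 | g38
                  · rcases (by omega : W ≤ 1 ∨ 2 ≤ W) with g39 | g39
                    · rcases (by omega : p ≤ 0 ∨ 1 ≤ p) with g40 | g40
                      · linarith
                      · rcases (by omega : e ≤ 0 ∨ 1 ≤ e) with g41 | g41
                        · linarith
                        · linarith
                    · rcases (by omega : X ≤ 9 ∨ 10 ≤ X) with g42 | g42
                      · rcases (by omega : W ≤ 2 ∨ 3 ≤ W) with g43 | g43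
                        · rcases (by omega : p ≤ 0 ∨ 1 ≤ p) with g44 | g44
                          · linarith
                          · rcases (by omega : e ≤ 0 ∨ 1 ≤ e) with g45 | g45
                            · linarith
                            · linarith
                        · rcases (by omega : Bm ≤ 2 ∨ 3 ≤ Bm) with g46 | g46
                          · linarith
                          · linarith
                      · rcases (by omega : Bm ≤ 2 ∨ 3 ≤ Bm) with g47 | g47
                        · linarith
                        · linarith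
                  · rcases (by omega : Bm ≤ 2 ∨ 3 ≤ Bm) with g48 | g48
                    · rcases (by omega : p ≤ 0 ∨ 1 ≤ p) with g49 | g49
                      · linarith
                      · linarith
                    · linarith
              · rcases (by omega : Bm ≤ 2 ∨ 3 ≤ Bm) with g50 | g50
                · rcases (by omega : p ≤ 0 ∨ 1 ≤ p) with g51 | g51
                  · linarith
                  · linarith
                · linarith
          · rcases (by omega : A ≤ 2 ∨ 3 ≤ A) with g52 | g52
            · rcases (by omega : W ≤ 0 ∨ 1 ≤ W) with g53 | g53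
              · rcases (by omega : X ≤ 8 ∨ 9 ≤ X) with g54 | g54
                · rcases (by omega : p ≤ 0 ∨ 1 ≤ p) with g55 | g55
                  · rcases (by omega : Bm ≤ 1 ∨ 2 ≤ Bm) with g56 | g56
                    · rcases (by omega : e ≤ 0 ∨ 1 ≤ e) with g57 | g57
                      · linarith
                      · linarith
                    · linarith
                  · rcases (by omega : e ≤ 0 ∨ 1 ≤ e) with g58 | g58
                    · rcases (by omega : Bm ≤ 2 ∨ 3 ≤ Bm) with g59 | g59
                      · have g60f : 516 ≤ S := by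
                          have hf := hk3 (by omega)
                          omega
                        linarith
                      · linarith
                    · linarith
                · rcases (by omega : Bm ≤ 2 ∨ 3 ≤ Bm) with g61 | g61
                  · rcases (by omega : X ≤ 10 ∨ 11 ≤ X) with g62 | g62
                    · rcases (by omega : p ≤ 0 ∨ 1 ≤ p) with g63 | g63
                      · rcases (by omega : Bm ≤ 1 ∨ 2 ≤ Bm) with g64 | g64
                        · rcases (by omega : e ≤ 0 ∨ 1 ≤ e) with g65 | g65
                          · linarith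
                          · linarith
                        · linarith
                      · rcases (by omega : e ≤ 0 ∨ 1 ≤ e) with g66 | g66
                        · linarith
                        · linarith
                    · linarith
                  · linarith
              · rcases (by omega : Bm ≤ 2 ∨ 3 ≤ Bm) with g67 | g67
                · rcases (by omega : X ≤ 9 ∨ 10 ≤ X) with g68 | g68
                  · rcases (by omega : p ≤ 0 ∨ 1 ≤ p) with g69 | g69
                    · linarith
                    · rcases (by omega : W ≤ 1 ∨ 2 ≤ W) with g70 | g70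
                      · rcases (by omega : e ≤ 0 ∨ 1 ≤ e) with g71 | g71
                        · linarith
                        · linarith
                      · rcases (by omega : X ≤ 8 ∨ 9 ≤ X) with g72 | g72
                        · rcases (by omega : W ≤ 2 ∨ 3 ≤ W) with g73 | g73
                          · rcases (by omega : e ≤ 0 ∨ 1 ≤ e) with g74 | g74
                            · linarith
                            · linarith
                          · linarith
                        · linarith
                  · linarith
                · linarith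
            · rcases (by omega : Bm ≤ 1 ∨ 2 ≤ Bm) with g75 | g75
              · rcases (by omega : p ≤ 0 ∨ 1 ≤ p) with g76 | g76
                · rcases (by omega : Bm ≤ 0 ∨ 1 ≤ Bm) with g77 | g77
                  · linarith
                  · linarith
                · linarith
              · linarith
        · linarith
    · rcases (by omega : p ≤ 2 ∨ 3 ≤ p) with g78 | g78
      · rcases (by omega : Bm ≤ 2 ∨ 3 ≤ Bm) with g79 | g79
        · rcases (by omega : A ≤ 4 ∨ 5 ≤ A) with g80 | g80
          · rcases (by omega : W ≤ 0 ∨ 1 ≤ W) with g81 | g81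
            · rcases (by omega : X ≤ 8 ∨ 9 ≤ X) with g82 | g82
              · rcases (by omega : e ≤ 0 ∨ 1 ≤ e) with g83 | g83
                · linarith
                · linarith
              · linarith
            · linarith
          · linarith
        · rcases (by omega : x + f ≤ 2 ∨ 3 ≤ x + f) with g84 | g84
          · rcases (by omega : e ≤ 0 ∨ 1 ≤ e) with g85 | g85
            · linarith
            · linarith
          · linarith
      · linarith
  · rcases (by omega : p ≤ 0 ∨ 1 ≤ p) with g1 | g1
    · rcases (by omega : A ≤ 0 ∨ 1 ≤ A) with g2 | g2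
      · rcases (by omega : Bm ≤ 2 ∨ 3 ≤ Bm) with g3 | g3
        · rcases (by omega : X ≤ 13 ∨ 14 ≤ X) with g4 | g4
          · have g5f : 3 ≤ x + f := by
              have hf := h1 (by omega) (by omega)
              omega
            linarith
          · linarith
        · linarith
      · rcases (by omega : Bm ≤ 1 ∨ 2 ≤ Bm) with g6 | g6
        · linarith
        · linarith
    · rcases (by omega : p ≤ 1 ∨ 2 ≤ p) with g7 | g7
      · rcases (by omega : Bm ≤ 2 ∨ 3 ≤ Bm) with g8 | g8
        · rcases (by omega : A ≤ 2 ∨ 3 ≤ A) with g9 | g9
          · rcases (by omega : W ≤ 0 ∨ 1 ≤ W) with g10 | g10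
            · rcases (by omega : X ≤ 13 ∨ 14 ≤ X) with g11 | g11
              · rcases (by omega : e ≤ 0 ∨ 1 ≤ e) with g12 | g12
                · linarith
                · linarith
              · linarith
            · linarith
          · linarith
        · linarith
      · linarith
  · rcases (by omega : p ≤ 0 ∨ 1 ≤ p) with g1 | g1
    · rcases (by omega : A ≤ 0 ∨ 1 ≤ A) with g2 | g2
      · rcases (by omega : Bm ≤ 2 ∨ 3 ≤ Bm) with g3 | g3
        · rcases (by omega : X ≤ 15 ∨ 16 ≤ X) with g4 | g4
          · have g5f : 3 ≤ x + f := by
              have hf := h1 (by omega) (by omega)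
              omega
            linarith
          · linarith
        · linarith
      · rcases (by omega : Bm ≤ 2 ∨ 3 ≤ Bm) with g6 | g6
        · rcases (by omega : A ≤ 1 ∨ 2 ≤ A) with g7 | g7
          · rcases (by omega : X ≤ 15 ∨ 16 ≤ X) with g8 | g8
            · rcases (by omega : e ≤ 0 ∨ 1 ≤ e) with g9 | g9
              · linarith
              · linarith
            · rcases (by omega : Bm ≤ 1 ∨ 2 ≤ Bm) with g10 | g10
              · linarith
              · linarith
          · rcases (by omega : Bm ≤ 1 ∨ 2 ≤ Bm) with g11 | g11
            · rcases (by omega : A ≤ 2 ∨ 3 ≤ A) with g12 | g12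
              · rcases (by omega : X ≤ 14 ∨ 15 ≤ X) with g13 | g13
                · rcases (by omega : e ≤ 0 ∨ 1 ≤ e) with g14 | g14
                  · linarith
                  · linarith
                · linarith
              · linarith
            · linarith
        · linarith
    · rcases (by omega : p ≤ 1 ∨ 2 ≤ p) with g15 | g15
      · rcases (by omega : Bm ≤ 2 ∨ 3 ≤ Bm) with g16 | g16
        · rcases (by omega : x + f ≤ 2 ∨ 3 ≤ x + f) with g17 | g17
          · rcases (by omega : e ≤ 0 ∨ 1 ≤ e) with g18 | g18
            · linarith
            · linarith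
          · linarith
        · linarith
      · linarith

/-- rank two, two inside triples, one centre. -/
theorem Nd.g22b (h : Nd n p K W X f e N M q b k S s x) (hr : n - p = 2) (hK : K = 2)
    (hq : q = 0) (hb : b = 1) (hk0 : k = 0) (hS0 : S = 0)
    (hd : d ≤ 0 ∨ (d ≤ 80 ∧ 1 ≤ X) ∨ (d ≤ 160 ∧ 2 ≤ X) ∨ (d ≤ 240 ∧ 7 ≤ X) ∨
      (d ≤ 320 ∧ 8 ≤ X) ∨ (d ≤ 400 ∧ 13 ≤ X) ∨ (d ≤ 480 ∧ 14 ≤ X))
    (hA : n + 2 * e ≤ N) (hxf : 2 ≤ x + f)
    (h1 : N = n → M = 3 * n → 3 ≤ x + f)
    (h2 : N = n + 2 → M = 3 * n → 4 ≤ k + s + x + f ∧ (3 ≤ x + f ∨ s ≤ 4 ∨ 3 ≤ W)) :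
    NI n p K W X f e N b S s x d := by
  obtain ⟨c1, c2, c3, c4, c5, c6, c7, c8, c9, c10, c11, c12, c13, c14, c15, c16, c17, c18, c19, c20,
    c21, c22, c23, c24, c25, c26⟩ := h
  obtain ⟨A, hA1⟩ : ∃ A, N = n + 2 * A := ⟨(N - n) / 2, by omega⟩
  obtain ⟨Bm, hB1⟩ : ∃ Bm, M = n + 2 * Bm := ⟨(M - n) / 2, by omega⟩
  obtain rfl : n = p + 2 := by omega
  subst hA1 hB1 hK hq hb
  unfold NI
  clear c7 c8
  by_contra hcon
  rw [not_le] at hcon
  rcases hd with hd | ⟨hd, hX⟩ | ⟨hd, hX⟩ | ⟨hd, hX⟩ | ⟨hd, hX⟩ | ⟨hd, hX⟩ | ⟨hd, hX⟩
  · rcases (by omega : p ≤ 2 ∨ 3 ≤ p) with g1 | g1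
    · rcases (by omega : A ≤ 0 ∨ 1 ≤ A) with g2 | g2
      · linarith
      · linarith
    · linarith
  · rcases (by omega : p ≤ 2 ∨ 3 ≤ p) with g1 | g1
    · rcases (by omega : A ≤ 0 ∨ 1 ≤ A) with g2 | g2
      · linarith
      · rcases (by omega : e ≤ 0 ∨ 1 ≤ e) with g3 | g3
        · linarith
        · linarith
    · rcases (by omega : p ≤ 3 ∨ 4 ≤ p) with g4 | g4
      · rcases (by omega : Bm ≤ 2 ∨ 3 ≤ Bm) with g5 | g5
        · linarith
        · linarith
      · linarith
  · rcases (by omega : p ≤ 2 ∨ 3 ≤ p) with g1 | g1
    · rcases (by omega : A ≤ 0 ∨ 1 ≤ A) with g2 | g2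
      · rcases (by omega : p + 3 ≤ Bm ∨ Bm ≤ p + 2) with g3 | g3
        · rcases (by omega : p ≤ 1 ∨ 2 ≤ p) with g4 | g4
          · rcases (by omega : Bm ≤ 4 ∨ 5 ≤ Bm) with g5 | g5
            · linarith
            · linarith
          · linarith
        · have g6f : 3 ≤ x + f := by
            have hf := h1 (by omega) (by omega)
            omega
          linarith
      · rcases (by omega : Bm ≤ 3 ∨ 4 ≤ Bm) with g7 | g7
        · rcases (by omega : e ≤ 0 ∨ 1 ≤ e) with g8 | g8
          · linarith
          · linarith
        · rcases (by omega : p ≤ 1 ∨ 2 ≤ p) with g9 | g9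
          · rcases (by omega : Bm ≤ 4 ∨ 5 ≤ Bm) with g10 | g10
            · rcases (by omega : e ≤ 0 ∨ 1 ≤ e) with g11 | g11
              · linarith
              · linarith
            · linarith
          · rcases (by omega : e ≤ 0 ∨ 1 ≤ e) with g12 | g12
            · linarith
            · linarith
    · rcases (by omega : Bm ≤ 2 ∨ 3 ≤ Bm) with g13 | g13
      · linarith
      · linarith
  · rcases (by omega : p ≤ 1 ∨ 2 ≤ p) with g1 | g1
    · rcases (by omega : A ≤ 0 ∨ 1 ≤ A) with g2 | g2
      · rcases (by omega : Bm ≤ 3 ∨ 4 ≤ Bm) with g3 | g3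
        · linarith
        · linarith
      · rcases (by omega : Bm ≤ 3 ∨ 4 ≤ Bm) with g4 | g4
        · rcases (by omega : A ≤ 1 ∨ 2 ≤ A) with g5 | g5
          · rcases (by omega : e ≤ 0 ∨ 1 ≤ e) with g6 | g6
            · linarith
            · linarith
          · rcases (by omega : Bm ≤ 2 ∨ 3 ≤ Bm) with g7 | g7
            · linarith
            · linarith
        · linarith
    · rcases (by omega : Bm ≤ 2 ∨ 3 ≤ Bm) with g8 | g8
      · linarith
      · linarith
  · rcases (by omega : p ≤ 1 ∨ 2 ≤ p) with g1 | g1
    · rcases (by omega : A ≤ 0 ∨ 1 ≤ A) with g2 | g2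
      · rcases (by omega : Bm ≤ 3 ∨ 4 ≤ Bm) with g3 | g3
        · have g4f : 3 ≤ x + f := by
            have hf := h1 (by omega) (by omega)
            omega
          linarith
        · linarith
      · rcases (by omega : Bm ≤ 3 ∨ 4 ≤ Bm) with g5 | g5
        · rcases (by omega : A ≤ 1 ∨ 2 ≤ A) with g6 | g6
          · rcases (by omega : e ≤ 0 ∨ 1 ≤ e) with g7 | g7
            · have g8f : (3 ≤ x + f ∧ 4 ≤ k + s + x + f) ∨ (s ≤ 4 ∧ 4 ≤ k + s + x + f) ∨ (3 ≤ W ∧ 4 ≤ k + s + x + f) := by
                have hf := h2 (by omega) (by omega)
                omega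
              rcases g8f with ⟨g8_0, g8_1⟩ | ⟨g8_0, g8_1⟩ | ⟨g8_0, g8_1⟩
              · linarith
              · linarith
              · rcases (by omega : Bm ≤ 2 ∨ 3 ≤ Bm) with g9 | g9
                · linarith
                · linarith
            · linarith
          · rcases (by omega : Bm ≤ 2 ∨ 3 ≤ Bm) with g10 | g10
            · rcases (by omega : e ≤ 0 ∨ 1 ≤ e) with g11 | g11
              · linarith
              · linarith
            · linarith
        · linarith
    · rcases (by omega : Bm ≤ 2 ∨ 3 ≤ Bm) with g12 | g12
      · linarith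
      · linarith
  · rcases (by omega : p ≤ 0 ∨ 1 ≤ p) with g1 | g1
    · rcases (by omega : A ≤ 0 ∨ 1 ≤ A) with g2 | g2
      · rcases (by omega : Bm ≤ 2 ∨ 3 ≤ Bm) with g3 | g3
        · linarith
        · linarith
      · rcases (by omega : e ≤ 0 ∨ 1 ≤ e) with g4 | g4
        · linarith
        · linarith
    · rcases (by omega : Bm ≤ 2 ∨ 3 ≤ Bm) with g5 | g5
      · linarith
      · linarith
  · rcases (by omega : p ≤ 0 ∨ 1 ≤ p) with g1 | g1
    · rcases (by omega : A ≤ 0 ∨ 1 ≤ A) with g2 | g2
      · rcases (by omega : Bm ≤ 2 ∨ 3 ≤ Bm) with g3 | g3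
        · have g4f : 3 ≤ x + f := by
            have hf := h1 (by omega) (by omega)
            omega
          linarith
        · linarith
      · rcases (by omega : Bm ≤ 1 ∨ 2 ≤ Bm) with g5 | g5
        · rcases (by omega : A ≤ 2 ∨ 3 ≤ A) with g6 | g6
          · rcases (by omega : e ≤ 0 ∨ 1 ≤ e) with g7 | g7
            · linarith
            · linarith
          · rcases (by omega : Bm ≤ 0 ∨ 1 ≤ Bm) with g8 | g8
            · linarith
            · linarith
        · rcases (by omega : e ≤ 0 ∨ 1 ≤ e) with g9 | g9
          · linarith
          · linarith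
    · linarith

/-- rank two, two inside triples, two parallel classes. -/
theorem Nd.g22t0 (h : Nd n p K W X f e N M q b k S s x) (hr : n - p = 2) (hK : K = 2)
    (hq : q = 0) (hb : b = 0) (hk0 : k = 0) (hS0 : S = 0) (hs0 : s = 0)
    (hd : d ≤ 0 ∨ (d ≤ 80 ∧ 1 ≤ X) ∨ (d ≤ 160 ∧ 2 ≤ X) ∨ (d ≤ 240 ∧ 7 ≤ X) ∨
      (d ≤ 320 ∧ 8 ≤ X) ∨ (d ≤ 400 ∧ 13 ≤ X) ∨ (d ≤ 480 ∧ 14 ≤ X))
    (hA : n + 2 * e ≤ N) (hE : 1 ≤ e → 8 ≤ x + f) (hy : 4 ≤ x + f)
    (r026 : p = 0 → N = 2 → M = 6 → 6 ≤ x + f) (r028 : p = 0 → N = 2 → M = 8 → 5 ≤ x + f)
    (r046 : p = 0 → N = 4 → M = 6 → 5 ≤ x + f) (r064 : p = 0 → N = 6 → M = 4 → 5 ≤ x + f)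
    (r048 : p = 0 → N = 4 → M = 8 → d ≤ 80 ∨ 3 ≤ X ∨ 5 ≤ x + f)
    (r139 : p = 1 → N = 3 → M = 9 → 5 ≤ x + f) (r159 : p = 1 → N = 5 → M = 9 → 5 ≤ x + f)
    (r177 : p = 1 → N = 7 → M = 7 → 5 ≤ x + f)
    (r197 : p = 1 → N = 9 → M = 7 → d ≤ 80 ∨ 3 ≤ X ∨ 1 ≤ W ∨ 5 ≤ x + f) :
    NI n p K W X f e N b S s x d := by
  obtain ⟨c1, c2, c3, c4, c5, c6, c7, c8, c9, c10, c11, c12, c13, c14, c15, c16, c17, c18, c19, c20,
    c21, c22, c23, c24, c25, c26⟩ := h
  obtain ⟨A, hA1⟩ : ∃ A, N = n + 2 * A := ⟨(N - n) / 2, by omega⟩
  obtain ⟨Bm, hB1⟩ : ∃ Bm, M = n + 2 * Bm := ⟨(M - n) / 2, by omega⟩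
  obtain rfl : n = p + 2 := by omega
  subst hA1 hB1 hK hq hb
  unfold NI
  clear c7 c8
  by_contra hcon
  rw [not_le] at hcon
  rcases hd with hd | ⟨hd, hX⟩ | ⟨hd, hX⟩ | ⟨hd, hX⟩ | ⟨hd, hX⟩ | ⟨hd, hX⟩ | ⟨hd, hX⟩
  · rcases (by omega : p ≤ 1 ∨ 2 ≤ p) with g1 | g1
    · rcases (by omega : Bm ≤ 3 ∨ 4 ≤ Bm) with g2 | g2
      · rcases (by omega : A ≤ 0 ∨ 1 ≤ A) with g3 | g3
        · linarith
        · rcases (by omega : e ≤ 0 ∨ 1 ≤ e) with g4 | g4
          · linarith
          · linarith
      · rcases (by omega : p ≤ 0 ∨ 1 ≤ p) with g5 | g5
        · linarith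
        · linarith
    · rcases (by omega : A ≤ 2 ∨ 3 ≤ A) with g6 | g6
      · rcases (by omega : e ≤ 0 ∨ 1 ≤ e) with g7 | g7
        · linarith
        · rcases (by omega : A ≤ 1 ∨ 2 ≤ A) with g8 | g8
          · linarith
          · rcases (by omega : p ≤ 2 ∨ 3 ≤ p) with g9 | g9
            · rcases (by omega : Bm ≤ 3 ∨ 4 ≤ Bm) with g10 | g10
              · rcases (by omega : x + f ≤ 5 ∨ 6 ≤ x + f) with g11 | g11
                · linarith
                · rcases (by omega : x + f ≤ 6 ∨ 7 ≤ x + f) with g12 | g12
                  · rcases (by omega : e ≤ 1 ∨ 2 ≤ e) with g13 | g13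
                    · linarith
                    · linarith
                  · linarith
              · linarith
            · linarith
      · rcases (by omega : Bm ≤ 2 ∨ 3 ≤ Bm) with g14 | g14
        · rcases (by omega : e ≤ 0 ∨ 1 ≤ e) with g15 | g15
          · linarith
          · rcases (by omega : p ≤ 2 ∨ 3 ≤ p) with g16 | g16
            · linarith
            · linarith
        · rcases (by omega : e ≤ 1 ∨ 2 ≤ e) with g17 | g17
          · linarith
          · linarith
  · rcases (by omega : p ≤ 1 ∨ 2 ≤ p) with g1 | g1
    · rcases (by omega : Bm ≤ 3 ∨ 4 ≤ Bm) with g2 | g2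
      · rcases (by omega : A ≤ 1 ∨ 2 ≤ A) with g3 | g3
        · rcases (by omega : e ≤ 0 ∨ 1 ≤ e) with g4 | g4
          · rcases (by omega : A ≤ 0 ∨ 1 ≤ A) with g5 | g5
            · have g6f : 5 ≤ k + s + x + f := by
                have hf := r139 (by omega) (by omega) (by omega)
                omega
              linarith
            · have g7f : 5 ≤ k + s + x + f := by
                have hf := r159 (by omega) (by omega) (by omega)
                omega
              linarith
          · rcases (by omega : x + f ≤ 5 ∨ 6 ≤ x + f) with g8 | g8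
            · linarith
            · linarith
        · rcases (by omega : Bm ≤ 2 ∨ 3 ≤ Bm) with g9 | g9
          · rcases (by omega : A ≤ 3 ∨ 4 ≤ A) with g10 | g10
            · rcases (by omega : e ≤ 0 ∨ 1 ≤ e) with g11 | g11
              · linarith
              · linarith
            · rcases (by omega : Bm ≤ 1 ∨ 2 ≤ Bm) with g12 | g12
              · rcases (by omega : e ≤ 0 ∨ 1 ≤ e) with g13 | g13
                · linarith
                · linarith
              · linarith
          · rcases (by omega : e ≤ 0 ∨ 1 ≤ e) with g14 | g14
            · linarith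
            · rcases (by omega : A ≤ 2 ∨ 3 ≤ A) with g15 | g15
              · rcases (by omega : x + f ≤ 5 ∨ 6 ≤ x + f) with g16 | g16
                · linarith
                · rcases (by omega : e ≤ 1 ∨ 2 ≤ e) with g17 | g17
                  · linarith
                  · linarith
              · linarith
      · rcases (by omega : p ≤ 0 ∨ 1 ≤ p) with g18 | g18
        · linarith
        · linarith
    · rcases (by omega : Bm ≤ 2 ∨ 3 ≤ Bm) with g19 | g19
      · rcases (by omega : e ≤ 0 ∨ 1 ≤ e) with g20 | g20
        · linarith
        · rcases (by omega : p ≤ 2 ∨ 3 ≤ p) with g21 | g21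
          · rcases (by omega : A ≤ 4 ∨ 5 ≤ A) with g22 | g22
            · rcases (by omega : x + f ≤ 5 ∨ 6 ≤ x + f) with g23 | g23
              · linarith
              · rcases (by omega : e ≤ 1 ∨ 2 ≤ e) with g24 | g24
                · linarith
                · linarith
            · rcases (by omega : Bm ≤ 1 ∨ 2 ≤ Bm) with g25 | g25
              · linarith
              · linarith
          · linarith
      · rcases (by omega : e ≤ 1 ∨ 2 ≤ e) with g26 | g26
        · have g27f : 8 ≤ x + f := by
            have hf := hE (by omega)
            omega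
          linarith
        · linarith
  · rcases (by omega : p ≤ 1 ∨ 2 ≤ p) with g1 | g1
    · rcases (by omega : Bm ≤ 3 ∨ 4 ≤ Bm) with g2 | g2
      · rcases (by omega : A ≤ 1 ∨ 2 ≤ A) with g3 | g3
        · rcases (by omega : e ≤ 0 ∨ 1 ≤ e) with g4 | g4
          · rcases (by omega : p ≤ 0 ∨ 1 ≤ p) with g5 | g5
            · rcases (by omega : A ≤ 0 ∨ 1 ≤ A) with g6 | g6
              · have g7f : 5 ≤ k + s + x + f := by
                  have hf := r028 (by omega) (by omega) (by omega)
                  omega
                linarith
              · have g8f : d ≤ 80 ∨ 3 ≤ X ∨ 5 ≤ k + s + x + f := by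
                  have hf := r048 (by omega) (by omega) (by omega)
                  omega
                rcases g8f with g8 | g8 | g8
                · linarith
                · rcases (by omega : Bm ≤ 2 ∨ 3 ≤ Bm) with g9 | g9
                  · linarith
                  · linarith
                · linarith
            · rcases (by omega : A ≤ 0 ∨ 1 ≤ A) with g10 | g10
              · have g11f : 5 ≤ k + s + x + f := by
                  have hf := r139 (by omega) (by omega) (by omega)
                  omega
                linarith
              · have g12f : 5 ≤ k + s + x + f := by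
                  have hf := r159 (by omega) (by omega) (by omega)
                  omega
                linarith
          · rcases (by omega : x + f ≤ 5 ∨ 6 ≤ x + f) with g13 | g13
            · linarith
            · rcases (by omega : x ≤ 0 ∨ 1 ≤ x) with g14 | g14
              · have g15f : 8 ≤ x + f := by
                  have hf := hE (by omega)
                  omega
                linarith
              · linarith
        · rcases (by omega : Bm ≤ 2 ∨ 3 ≤ Bm) with g16 | g16
          · rcases (by omega : e ≤ 0 ∨ 1 ≤ e) with g17 | g17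
            · rcases (by omega : A ≤ 2 ∨ 3 ≤ A) with g18 | g18
              · have g19f : 5 ≤ k + s + x + f := by
                  have hf := r177 (by omega) (by omega) (by omega)
                  omega
                linarith
              · rcases (by omega : 4 ≤ A ∨ A ≤ 3) with g20 | g20
                · rcases (by omega : Bm ≤ 1 ∨ 2 ≤ Bm) with g21 | g21
                  · linarith
                  · linarith
                · have g22f : d ≤ 80 ∨ 3 ≤ X ∨ 1 ≤ W ∨ 5 ≤ k + s + x + f := by
                    have hf := r197 (by omega) (by omega) (by omega)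
                    omega
                  rcases g22f with g22 | g22 | g22 | g22
                  · linarith
                  · rcases (by omega : Bm ≤ 1 ∨ 2 ≤ Bm) with g23 | g23
                    · linarith
                    · linarith
                  · rcases (by omega : Bm ≤ 1 ∨ 2 ≤ Bm) with g24 | g24
                    · linarith
                    · linarith
                  · linarith
            · rcases (by omega : A ≤ 3 ∨ 4 ≤ A) with g25 | g25
              · rcases (by omega : x + f ≤ 5 ∨ 6 ≤ x + f) with g26 | g26
                · linarith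
                · rcases (by omega : e ≤ 1 ∨ 2 ≤ e) with g27 | g27
                  · linarith
                  · linarith
              · rcases (by omega : Bm ≤ 1 ∨ 2 ≤ Bm) with g28 | g28
                · linarith
                · linarith
          · rcases (by omega : e ≤ 1 ∨ 2 ≤ e) with g29 | g29
            · rcases (by omega : x ≤ 0 ∨ 1 ≤ x) with g30 | g30
              · have g31f : 8 ≤ x + f := by
                  have hf := hE (by omega)
                  omega
                linarith
              · rcases (by omega : e ≤ 0 ∨ 1 ≤ e) with g32 | g32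
                · linarith
                · linarith
            · linarith
      · linarith
    · rcases (by omega : Bm ≤ 2 ∨ 3 ≤ Bm) with g33 | g33
      · rcases (by omega : e ≤ 1 ∨ 2 ≤ e) with g34 | g34
        · rcases (by omega : x ≤ 0 ∨ 1 ≤ x) with g35 | g35
          · have g36f : 8 ≤ x + f := by
              have hf := hE (by omega)
              omega
            linarith
          · rcases (by omega : e ≤ 0 ∨ 1 ≤ e) with g37 | g37
            · linarith
            · rcases (by omega : p ≤ 2 ∨ 3 ≤ p) with g38 | g38
              · linarith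
              · linarith
        · linarith
      · rcases (by omega : e ≤ 1 ∨ 2 ≤ e) with g39 | g39
        · linarith
        · linarith
  · rcases (by omega : p ≤ 0 ∨ 1 ≤ p) with g1 | g1
    · rcases (by omega : A ≤ 0 ∨ 1 ≤ A) with g2 | g2
      · rcases (by omega : Bm ≤ 2 ∨ 3 ≤ Bm) with g3 | g3
        · have g4f : 6 ≤ k + s + x + f := by
            have hf := r026 (by omega) (by omega) (by omega)
            omega
          linarith
        · linarith
      · rcases (by omega : e ≤ 0 ∨ 1 ≤ e) with g5 | g5
        · rcases (by omega : 2 ≤ A ∨ A ≤ 1) with g6 | g6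
          · rcases (by omega : Bm ≤ 1 ∨ 2 ≤ Bm) with g7 | g7
            · linarith
            · linarith
          · have g8f : 5 ≤ k + s + x + f := by
              have hf := r046 (by omega) (by omega) (by omega)
              omega
            linarith
        · rcases (by omega : Bm ≤ 2 ∨ 3 ≤ Bm) with g9 | g9
          · rcases (by omega : A ≤ 1 ∨ 2 ≤ A) with g10 | g10
            · rcases (by omega : x + f ≤ 5 ∨ 6 ≤ x + f) with g11 | g11
              · linarith
              · linarith
            · rcases (by omega : Bm ≤ 1 ∨ 2 ≤ Bm) with g12 | g12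
              · linarith
              · linarith
          · linarith
    · rcases (by omega : Bm ≤ 2 ∨ 3 ≤ Bm) with g13 | g13
      · rcases (by omega : e ≤ 1 ∨ 2 ≤ e) with g14 | g14
        · rcases (by omega : x ≤ 0 ∨ 1 ≤ x) with g15 | g15
          · have g16f : 8 ≤ x + f := by
              have hf := hE (by omega)
              omega
            linarith
          · rcases (by omega : e ≤ 0 ∨ 1 ≤ e) with g17 | g17
            · linarith
            · rcases (by omega : p ≤ 1 ∨ 2 ≤ p) with g18 | g18
              · linarith
              · linarith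
        · linarith
      · linarith
  · rcases (by omega : p ≤ 0 ∨ 1 ≤ p) with g1 | g1
    · rcases (by omega : A ≤ 0 ∨ 1 ≤ A) with g2 | g2
      · rcases (by omega : Bm ≤ 2 ∨ 3 ≤ Bm) with g3 | g3
        · have g4f : 6 ≤ k + s + x + f := by
            have hf := r026 (by omega) (by omega) (by omega)
            omega
          linarith
        · linarith
      · rcases (by omega : Bm ≤ 1 ∨ 2 ≤ Bm) with g5 | g5
        · rcases (by omega : A ≤ 2 ∨ 3 ≤ A) with g6 | g6
          · rcases (by omega : e ≤ 0 ∨ 1 ≤ e) with g7 | g7
            · have g8f : 5 ≤ k + s + x + f := by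
                have hf := r064 (by omega) (by omega) (by omega)
                omega
              linarith
            · rcases (by omega : x + f ≤ 5 ∨ 6 ≤ x + f) with g9 | g9
              · linarith
              · rcases (by omega : e ≤ 1 ∨ 2 ≤ e) with g10 | g10
                · linarith
                · linarith
          · rcases (by omega : Bm ≤ 0 ∨ 1 ≤ Bm) with g11 | g11
            · rcases (by omega : e ≤ 0 ∨ 1 ≤ e) with g12 | g12
              · linarith
              · linarith
            · rcases (by omega : e ≤ 1 ∨ 2 ≤ e) with g13 | g13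
              · linarith
              · linarith
        · rcases (by omega : e ≤ 0 ∨ 1 ≤ e) with g14 | g14
          · linarith
          · rcases (by omega : Bm ≤ 2 ∨ 3 ≤ Bm) with g15 | g15
            · rcases (by omega : A ≤ 1 ∨ 2 ≤ A) with g16 | g16
              · rcases (by omega : x + f ≤ 5 ∨ 6 ≤ x + f) with g17 | g17
                · linarith
                · rcases (by omega : x ≤ 0 ∨ 1 ≤ x) with g18 | g18
                  · have g19f : 8 ≤ x + f := by
                      have hf := hE (by omega)
                      omega
                    linarith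
                  · linarith
              · linarith
            · linarith
    · rcases (by omega : p ≤ 1 ∨ 2 ≤ p) with g20 | g20
      · rcases (by omega : A ≤ 1 ∨ 2 ≤ A) with g21 | g21
        · rcases (by omega : Bm ≤ 2 ∨ 3 ≤ Bm) with g22 | g22
          · linarith
          · linarith
        · rcases (by omega : e ≤ 1 ∨ 2 ≤ e) with g23 | g23
          · linarith
          · linarith
      · linarith
  · linarith
  · linarith

/-- rank two, two inside triples, an inside point which sees three leaves. -/
theorem Nd.g22t1 (h : Nd n p K W X f e N M q b k S s x) (hr : n - p = 2) (hK : K = 2)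
    (hq : q = 0) (hb : b = 0) (hk0 : k = 0) (hS0 : S = 0) (hs0 : s = 0)
    (hd : d ≤ 0 ∨ (d ≤ 80 ∧ 1 ≤ X) ∨ (d ≤ 160 ∧ 2 ≤ X) ∨ (d ≤ 240 ∧ 7 ≤ X) ∨
      (d ≤ 320 ∧ 8 ≤ X) ∨ (d ≤ 400 ∧ 13 ≤ X) ∨ (d ≤ 480 ∧ 14 ≤ X))
    (hA : n + 2 * e ≤ N) (hE : 1 ≤ e → 8 ≤ x + f) (hp : p = 1) (hy : 3 ≤ x + f)
    (r139 : N = 3 → M = 9 → 6 ≤ x + f) (r159 : N = 5 → M = 9 → 4 ≤ x + f)
    (r177 : N = 7 → M = 7 → 4 ≤ x + f) (r197 : N = 9 → M = 7 → 4 ≤ x + f)
    (hH : (N = 15 ∧ M = 3) ∨ (N = 11 ∧ M = 5) ∨ (N = 7 ∧ M = 7) ∨ (N = 9 ∧ M = 7) ∨
      (N = 5 ∧ M = 9) → d ≤ 0 ∨ (d ≤ 80 ∧ 4 ≤ X) ∨ 6 ≤ X) :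
    NI n p K W X f e N b S s x d := by
  obtain ⟨c1, c2, c3, c4, c5, c6, c7, c8, c9, c10, c11, c12, c13, c14, c15, c16, c17, c18, c19, c20,
    c21, c22, c23, c24, c25, c26⟩ := h
  obtain ⟨A, hA1⟩ : ∃ A, N = n + 2 * A := ⟨(N - n) / 2, by omega⟩
  obtain ⟨Bm, hB1⟩ : ∃ Bm, M = n + 2 * Bm := ⟨(M - n) / 2, by omega⟩
  obtain rfl : n = p + 2 := by omega
  subst hA1 hB1 hK hq hb
  unfold NI
  clear c7 c8
  by_contra hcon
  rw [not_le] at hcon
  rcases hd with hd | ⟨hd, hX⟩ | ⟨hd, hX⟩ | ⟨hd, hX⟩ | ⟨hd, hX⟩ | ⟨hd, hX⟩ | ⟨hd, hX⟩
  · rcases (by omega : p ≤ 1 ∨ 2 ≤ p) with g1 | g1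
    · rcases (by omega : Bm ≤ 3 ∨ 4 ≤ Bm) with g2 | g2
      · rcases (by omega : 1 ≤ A ∨ A ≤ 0) with g3 | g3
        · rcases (by omega : A ≤ 1 ∨ 2 ≤ A) with g4 | g4
          · have g5f : 4 ≤ k + s + x + f := by
              have hf := r159 (by omega) (by omega)
              omega
            rcases (by omega : e ≤ 0 ∨ 1 ≤ e) with g6 | g6
            · linarith
            · linarith
          · rcases (by omega : Bm ≤ 2 ∨ 3 ≤ Bm) with g7 | g7
            · rcases (by omega : A ≤ 3 ∨ 4 ≤ A) with g8 | g8
              · rcases (by omega : A ≤ 2 ∨ 3 ≤ A) with g9 | g9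
                · have g10f : 4 ≤ k + s + x + f := by
                    have hf := r177 (by omega) (by omega)
                    omega
                  rcases (by omega : e ≤ 0 ∨ 1 ≤ e) with g11 | g11
                  · linarith
                  · linarith
                · have g12f : 4 ≤ k + s + x + f := by
                    have hf := r197 (by omega) (by omega)
                    omega
                  rcases (by omega : e ≤ 0 ∨ 1 ≤ e) with g13 | g13
                  · linarith
                  · linarith
              · rcases (by omega : Bm ≤ 1 ∨ 2 ≤ Bm) with g14 | g14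
                · rcases (by omega : e ≤ 0 ∨ 1 ≤ e) with g15 | g15
                  · linarith
                  · linarith
                · linarith
            · rcases (by omega : e ≤ 0 ∨ 1 ≤ e) with g16 | g16
              · linarith
              · linarith
        · have g17f : 6 ≤ k + s + x + f := by
            have hf := r139 (by omega) (by omega)
            omega
          linarith
      · linarith
    · rcases (by omega : Bm ≤ 2 ∨ 3 ≤ Bm) with g18 | g18
      · rcases (by omega : e ≤ 0 ∨ 1 ≤ e) with g19 | g19
        · linarith
        · rcases (by omega : p ≤ 2 ∨ 3 ≤ p) with g20 | g20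
          · linarith
          · linarith
      · rcases (by omega : e ≤ 0 ∨ 1 ≤ e) with g21 | g21
        · linarith
        · rcases (by omega : A ≤ 1 ∨ 2 ≤ A) with g22 | g22
          · linarith
          · rcases (by omega : e ≤ 1 ∨ 2 ≤ e) with g23 | g23
            · rcases (by omega : A ≤ 2 ∨ 3 ≤ A) with g24 | g24
              · rcases (by omega : Bm ≤ 3 ∨ 4 ≤ Bm) with g25 | g25
                · rcases (by omega : x + f ≤ 5 ∨ 6 ≤ x + f) with g26 | g26
                  · linarith
                  · linarith
                · linarith
              · linarith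
            · linarith
  · rcases (by omega : p ≤ 1 ∨ 2 ≤ p) with g1 | g1
    · rcases (by omega : Bm ≤ 3 ∨ 4 ≤ Bm) with g2 | g2
      · rcases (by omega : A ≤ 1 ∨ 2 ≤ A) with g3 | g3
        · rcases (by omega : A ≤ 0 ∨ 1 ≤ A) with g4 | g4
          · have g5f : 6 ≤ k + s + x + f := by
              have hf := r139 (by omega) (by omega)
              omega
            linarith
          · have g6f : 4 ≤ k + s + x + f := by
              have hf := r159 (by omega) (by omega)
              omega
            rcases (by omega : e ≤ 0 ∨ 1 ≤ e) with g7 | g7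
            · have g8f : d ≤ 0 ∨ (d ≤ 80 ∧ 4 ≤ X) ∨ 6 ≤ X := by
                have hf := hH (by omega)
                omega
              rcases g8f with g8 | ⟨g8_0, g8_1⟩ | g8
              · linarith
              · rcases (by omega : Bm ≤ 2 ∨ 3 ≤ Bm) with g9 | g9
                · linarith
                · linarith
              · linarith
            · rcases (by omega : x + f ≤ 5 ∨ 6 ≤ x + f) with g10 | g10
              · linarith
              · linarith
        · rcases (by omega : Bm ≤ 2 ∨ 3 ≤ Bm) with g11 | g11
          · rcases (by omega : A ≤ 2 ∨ 3 ≤ A) with g12 | g12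
            · have g13f : 4 ≤ k + s + x + f := by
                have hf := r177 (by omega) (by omega)
                omega
              rcases (by omega : e ≤ 0 ∨ 1 ≤ e) with g14 | g14
              · linarith
              · linarith
            · rcases (by omega : 4 ≤ A ∨ A ≤ 3) with g15 | g15
              · rcases (by omega : Bm ≤ 1 ∨ 2 ≤ Bm) with g16 | g16
                · rcases (by omega : A ≤ 4 ∨ 5 ≤ A) with g17 | g17
                  · rcases (by omega : e ≤ 0 ∨ 1 ≤ e) with g18 | g18
                    · have g19f : d ≤ 0 ∨ (d ≤ 80 ∧ 4 ≤ X) ∨ 6 ≤ X := by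
                        have hf := hH (by omega)
                        omega
                      rcases g19f with g19 | ⟨g19_0, g19_1⟩ | g19
                      · linarith
                      · linarith
                      · linarith
                    · linarith
                  · rcases (by omega : Bm ≤ 0 ∨ 1 ≤ Bm) with g20 | g20
                    · rcases (by omega : A ≤ 6 ∨ 7 ≤ A) with g21 | g21
                      · rcases (by omega : e ≤ 0 ∨ 1 ≤ e) with g22 | g22
                        · linarith
                        · linarith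
                      · linarith
                    · rcases (by omega : e ≤ 0 ∨ 1 ≤ e) with g23 | g23
                      · linarith
                      · linarith
                · linarith
              · have g24f : 4 ≤ k + s + x + f := by
                  have hf := r197 (by omega) (by omega)
                  omega
                rcases (by omega : e ≤ 0 ∨ 1 ≤ e) with g25 | g25
                · linarith
                · linarith
          · rcases (by omega : e ≤ 0 ∨ 1 ≤ e) with g26 | g26
            · linarith
            · rcases (by omega : A ≤ 2 ∨ 3 ≤ A) with g27 | g27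
              · rcases (by omega : x + f ≤ 5 ∨ 6 ≤ x + f) with g28 | g28
                · linarith
                · rcases (by omega : e ≤ 1 ∨ 2 ≤ e) with g29 | g29
                  · linarith
                  · linarith
              · linarith
      · linarith
    · rcases (by omega : Bm ≤ 2 ∨ 3 ≤ Bm) with g30 | g30
      · rcases (by omega : e ≤ 0 ∨ 1 ≤ e) with g31 | g31
        · linarith
        · rcases (by omega : p ≤ 2 ∨ 3 ≤ p) with g32 | g32
          · rcases (by omega : A ≤ 4 ∨ 5 ≤ A) with g33 | g33
            · rcases (by omega : x + f ≤ 5 ∨ 6 ≤ x + f) with g34 | g34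
              · linarith
              · rcases (by omega : e ≤ 1 ∨ 2 ≤ e) with g35 | g35
                · linarith
                · linarith
            · rcases (by omega : Bm ≤ 1 ∨ 2 ≤ Bm) with g36 | g36
              · linarith
              · linarith
          · linarith
      · rcases (by omega : e ≤ 1 ∨ 2 ≤ e) with g37 | g37
        · have g38f : 8 ≤ x + f := by
            have hf := hE (by omega)
            omega
          linarith
        · linarith
  · rcases (by omega : p ≤ 1 ∨ 2 ≤ p) with g1 | g1
    · rcases (by omega : Bm ≤ 3 ∨ 4 ≤ Bm) with g2 | g2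
      · rcases (by omega : A ≤ 0 ∨ 1 ≤ A) with g3 | g3
        · have g4f : 6 ≤ k + s + x + f := by
            have hf := r139 (by omega) (by omega)
            omega
          linarith
        · rcases (by omega : 2 ≤ A ∨ A ≤ 1) with g5 | g5
          · rcases (by omega : Bm ≤ 2 ∨ 3 ≤ Bm) with g6 | g6
            · rcases (by omega : A ≤ 2 ∨ 3 ≤ A) with g7 | g7
              · have g8f : 4 ≤ k + s + x + f := by
                  have hf := r177 (by omega) (by omega)
                  omega
                rcases (by omega : e ≤ 0 ∨ 1 ≤ e) with g9 | g9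
                · have g10f : d ≤ 0 ∨ (d ≤ 80 ∧ 4 ≤ X) ∨ 6 ≤ X := by
                    have hf := hH (by omega)
                    omega
                  rcases g10f with g10 | ⟨g10_0, g10_1⟩ | g10
                  · linarith
                  · linarith
                  · linarith
                · rcases (by omega : x + f ≤ 5 ∨ 6 ≤ x + f) with g11 | g11
                  · linarith
                  · rcases (by omega : e ≤ 1 ∨ 2 ≤ e) with g12 | g12
                    · linarith
                    · linarith
              · rcases (by omega : Bm ≤ 1 ∨ 2 ≤ Bm) with g13 | g13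
                · rcases (by omega : A ≤ 4 ∨ 5 ≤ A) with g14 | g14
                  · rcases (by omega : e ≤ 0 ∨ 1 ≤ e) with g15 | g15
                    · have g16f : d ≤ 0 ∨ (d ≤ 80 ∧ 4 ≤ X) ∨ 6 ≤ X := by
                        have hf := hH (by omega)
                        omega
                      rcases g16f with g16 | ⟨g16_0, g16_1⟩ | g16
                      · linarith
                      · linarith
                      · linarith
                    · linarith
                  · rcases (by omega : Bm ≤ 0 ∨ 1 ≤ Bm) with g17 | g17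
                    · rcases (by omega : e ≤ 0 ∨ 1 ≤ e) with g18 | g18
                      · have g19f : d ≤ 0 ∨ (d ≤ 80 ∧ 4 ≤ X) ∨ 6 ≤ X := by
                          have hf := hH (by omega)
                          omega
                        rcases g19f with g19 | ⟨g19_0, g19_1⟩ | g19
                        · linarith
                        · linarith
                        · linarith
                      · linarith
                    · rcases (by omega : e ≤ 0 ∨ 1 ≤ e) with g20 | g20
                      · linarith
                      · linarith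
                · rcases (by omega : e ≤ 0 ∨ 1 ≤ e) with g21 | g21
                  · have g22f : d ≤ 0 ∨ (d ≤ 80 ∧ 4 ≤ X) ∨ 6 ≤ X := by
                      have hf := hH (by omega)
                      omega
                    rcases g22f with g22 | ⟨g22_0, g22_1⟩ | g22
                    · linarith
                    · linarith
                    · linarith
                  · rcases (by omega : A ≤ 3 ∨ 4 ≤ A) with g23 | g23
                    · rcases (by omega : x + f ≤ 5 ∨ 6 ≤ x + f) with g24 | g24
                      · linarith
                      · rcases (by omega : e ≤ 1 ∨ 2 ≤ e) with g25 | g25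
                        · linarith
                        · linarith
                    · linarith
            · rcases (by omega : e ≤ 1 ∨ 2 ≤ e) with g26 | g26
              · rcases (by omega : x ≤ 0 ∨ 1 ≤ x) with g27 | g27
                · have g28f : 8 ≤ x + f := by
                    have hf := hE (by omega)
                    omega
                  linarith
                · rcases (by omega : e ≤ 0 ∨ 1 ≤ e) with g29 | g29
                  · linarith
                  · linarith
              · linarith
          · have g30f : 4 ≤ k + s + x + f := by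
              have hf := r159 (by omega) (by omega)
              omega
            rcases (by omega : e ≤ 0 ∨ 1 ≤ e) with g31 | g31
            · have g32f : d ≤ 0 ∨ (d ≤ 80 ∧ 4 ≤ X) ∨ 6 ≤ X := by
                have hf := hH (by omega)
                omega
              rcases g32f with g32 | ⟨g32_0, g32_1⟩ | g32
              · linarith
              · rcases (by omega : Bm ≤ 2 ∨ 3 ≤ Bm) with g33 | g33
                · linarith
                · linarith
              · rcases (by omega : Bm ≤ 2 ∨ 3 ≤ Bm) with g34 | g34
                · linarith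
                · linarith
            · rcases (by omega : x + f ≤ 5 ∨ 6 ≤ x + f) with g35 | g35
              · linarith
              · rcases (by omega : x ≤ 0 ∨ 1 ≤ x) with g36 | g36
                · have g37f : 8 ≤ x + f := by
                    have hf := hE (by omega)
                    omega
                  linarith
                · linarith
      · linarith
    · rcases (by omega : Bm ≤ 2 ∨ 3 ≤ Bm) with g38 | g38
      · rcases (by omega : e ≤ 1 ∨ 2 ≤ e) with g39 | g39
        · rcases (by omega : x ≤ 0 ∨ 1 ≤ x) with g40 | g40
          · have g41f : 8 ≤ x + f := by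
              have hf := hE (by omega)
              omega
            linarith
          · rcases (by omega : e ≤ 0 ∨ 1 ≤ e) with g42 | g42
            · linarith
            · rcases (by omega : p ≤ 2 ∨ 3 ≤ p) with g43 | g43
              · linarith
              · linarith
        · linarith
      · rcases (by omega : e ≤ 1 ∨ 2 ≤ e) with g44 | g44
        · linarith
        · linarith
  · rcases (by omega : Bm ≤ 2 ∨ 3 ≤ Bm) with g1 | g1
    · rcases (by omega : e ≤ 1 ∨ 2 ≤ e) with g2 | g2
      · rcases (by omega : x ≤ 0 ∨ 1 ≤ x) with g3 | g3
        · have g4f : 8 ≤ x + f := by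
            have hf := hE (by omega)
            omega
          linarith
        · rcases (by omega : e ≤ 0 ∨ 1 ≤ e) with g5 | g5
          · linarith
          · rcases (by omega : p ≤ 1 ∨ 2 ≤ p) with g6 | g6
            · linarith
            · linarith
      · linarith
    · linarith
  · rcases (by omega : p ≤ 1 ∨ 2 ≤ p) with g1 | g1
    · rcases (by omega : A ≤ 1 ∨ 2 ≤ A) with g2 | g2
      · rcases (by omega : Bm ≤ 2 ∨ 3 ≤ Bm) with g3 | g3
        · linarith
        · linarith
      · rcases (by omega : e ≤ 1 ∨ 2 ≤ e) with g4 | g4
        · linarith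
        · linarith
    · linarith
  · linarith
  · linarith

/-- rank two, two inside triples, at least two inside points. -/
theorem Nd.g22p (h : Nd n p K W X f e N M q b k S s x) (hr : n - p = 2) (hK : K = 2)
    (hq : q = 0) (hb : b = 0) (hk0 : k = 0) (hS0 : S = 0) (hs0 : s = 0)
    (hd : d ≤ 0 ∨ (d ≤ 80 ∧ 1 ≤ X) ∨ (d ≤ 160 ∧ 2 ≤ X) ∨ (d ≤ 240 ∧ 7 ≤ X) ∨
      (d ≤ 320 ∧ 8 ≤ X) ∨ (d ≤ 400 ∧ 13 ≤ X) ∨ (d ≤ 480 ∧ 14 ≤ X))
    (hA : n + 2 * e ≤ N) (hE : 1 ≤ e → 8 ≤ x + f) (hp : 2 ≤ p) :
    NI n p K W X f e N b S s x d := by
  obtain ⟨c1, c2, c3, c4, c5, c6, c7, c8, c9, c10, c11, c12, c13, c14, c15, c16, c17, c18, c19, c20,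
    c21, c22, c23, c24, c25, c26⟩ := h
  obtain ⟨A, hA1⟩ : ∃ A, N = n + 2 * A := ⟨(N - n) / 2, by omega⟩
  obtain ⟨Bm, hB1⟩ : ∃ Bm, M = n + 2 * Bm := ⟨(M - n) / 2, by omega⟩
  obtain rfl : n = p + 2 := by omega
  subst hA1 hB1 hK hq hb
  unfold NI
  clear c7 c8
  by_contra hcon
  rw [not_le] at hcon
  rcases hd with hd | ⟨hd, hX⟩ | ⟨hd, hX⟩ | ⟨hd, hX⟩ | ⟨hd, hX⟩ | ⟨hd, hX⟩ | ⟨hd, hX⟩
  · rcases (by omega : Bm ≤ 2 ∨ 3 ≤ Bm) with g1 | g1
    · rcases (by omega : e ≤ 0 ∨ 1 ≤ e) with g2 | g2
      · linarith
      · rcases (by omega : p ≤ 2 ∨ 3 ≤ p) with g3 | g3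
        · linarith
        · linarith
    · rcases (by omega : e ≤ 0 ∨ 1 ≤ e) with g4 | g4
      · linarith
      · rcases (by omega : A ≤ 1 ∨ 2 ≤ A) with g5 | g5
        · linarith
        · rcases (by omega : e ≤ 1 ∨ 2 ≤ e) with g6 | g6
          · rcases (by omega : A ≤ 2 ∨ 3 ≤ A) with g7 | g7
            · rcases (by omega : Bm ≤ 3 ∨ 4 ≤ Bm) with g8 | g8
              · rcases (by omega : x + f ≤ 5 ∨ 6 ≤ x + f) with g9 | g9
                · linarith
                · linarith
              · linarith
            · linarith
          · linarith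
  · rcases (by omega : Bm ≤ 2 ∨ 3 ≤ Bm) with g1 | g1
    · rcases (by omega : e ≤ 0 ∨ 1 ≤ e) with g2 | g2
      · linarith
      · rcases (by omega : p ≤ 2 ∨ 3 ≤ p) with g3 | g3
        · rcases (by omega : A ≤ 4 ∨ 5 ≤ A) with g4 | g4
          · rcases (by omega : x + f ≤ 5 ∨ 6 ≤ x + f) with g5 | g5
            · linarith
            · rcases (by omega : e ≤ 1 ∨ 2 ≤ e) with g6 | g6
              · linarith
              · linarith
          · rcases (by omega : Bm ≤ 1 ∨ 2 ≤ Bm) with g7 | g7
            · linarith
            · linarith
        · linarith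
    · rcases (by omega : e ≤ 1 ∨ 2 ≤ e) with g8 | g8
      · have g9f : 8 ≤ x + f := by
          have hf := hE (by omega)
          omega
        linarith
      · linarith
  · rcases (by omega : Bm ≤ 2 ∨ 3 ≤ Bm) with g1 | g1
    · rcases (by omega : e ≤ 1 ∨ 2 ≤ e) with g2 | g2
      · rcases (by omega : x ≤ 0 ∨ 1 ≤ x) with g3 | g3
        · have g4f : 8 ≤ x + f := by
            have hf := hE (by omega)
            omega
          linarith
        · rcases (by omega : e ≤ 0 ∨ 1 ≤ e) with g5 | g5
          · linarith
          · rcases (by omega : p ≤ 2 ∨ 3 ≤ p) with g6 | g6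
            · linarith
            · linarith
      · linarith
    · rcases (by omega : e ≤ 1 ∨ 2 ≤ e) with g7 | g7
      · linarith
      · linarith
  · linarith
  · linarith
  · linarith
  · linarith

/-- rank two, two inside triples, a line triple without hits. -/
theorem Nd.g22f (h : Nd n p K W X f e N M q b k S s x) (hr : n - p = 2) (hK : K = 2)
    (hq : q = 0) (hb : b = 0) (hk0 : k = 0) (hs0 : s = 0)
    (hd : d ≤ 0 ∨ (d ≤ 80 ∧ 1 ≤ X) ∨ (d ≤ 160 ∧ 2 ≤ X) ∨ (d ≤ 240 ∧ 7 ≤ X) ∨
      (d ≤ 320 ∧ 8 ≤ X) ∨ (d ≤ 400 ∧ 13 ≤ X) ∨ (d ≤ 480 ∧ 14 ≤ X))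
    (hA : n + 2 * e ≤ N) (hE : 1 ≤ e → 8 ≤ x + f) (hxf : 3 ≤ x + f) (hS : 464 ≤ S) :
    NI n p K W X f e N b S s x d := by
  obtain ⟨c1, c2, c3, c4, c5, c6, c7, c8, c9, c10, c11, c12, c13, c14, c15, c16, c17, c18, c19, c20,
    c21, c22, c23, c24, c25, c26⟩ := h
  obtain ⟨A, hA1⟩ : ∃ A, N = n + 2 * A := ⟨(N - n) / 2, by omega⟩
  obtain ⟨Bm, hB1⟩ : ∃ Bm, M = n + 2 * Bm := ⟨(M - n) / 2, by omega⟩
  obtain rfl : n = p + 2 := by omega
  subst hA1 hB1 hK hq hb
  unfold NI
  clear c7 c8
  by_contra hcon
  rw [not_le] at hcon
  rcases hd with hd | ⟨hd, hX⟩ | ⟨hd, hX⟩ | ⟨hd, hX⟩ | ⟨hd, hX⟩ | ⟨hd, hX⟩ | ⟨hd, hX⟩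
  · linarith
  · linarith
  · rcases (by omega : p ≤ 1 ∨ 2 ≤ p) with g1 | g1
    · linarith
    · linarith
  · linarith
  · linarith
  · linarith
  · linarith

/-- rank two, two inside triples, two line triples or centres. -/
theorem Nd.g22z (h : Nd n p K W X f e N M q b k S s x) (hr : n - p = 2) (hK : K = 2)
    (hd : d ≤ 0 ∨ (d ≤ 80 ∧ 1 ≤ X) ∨ (d ≤ 160 ∧ 2 ≤ X) ∨ (d ≤ 240 ∧ 7 ≤ X) ∨
      (d ≤ 320 ∧ 8 ≤ X) ∨ (d ≤ 400 ∧ 13 ≤ X) ∨ (d ≤ 480 ∧ 14 ≤ X))
    (hA : n + 2 * e ≤ N) (hqb : 2 ≤ q + b) :
    NI n p K W X f e N b S s x d := by
  obtain ⟨c1, c2, c3, c4, c5, c6, c7, c8, c9, c10, c11, c12, c13, c14, c15, c16, c17, c18, c19, c20,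
    c21, c22, c23, c24, c25, c26⟩ := h
  obtain ⟨A, hA1⟩ : ∃ A, N = n + 2 * A := ⟨(N - n) / 2, by omega⟩
  obtain ⟨Bm, hB1⟩ : ∃ Bm, M = n + 2 * Bm := ⟨(M - n) / 2, by omega⟩
  obtain rfl : n = p + 2 := by omega
  subst hA1 hB1 hK
  unfold NI
  clear c7 c8
  by_contra hcon
  rw [not_le] at hcon
  rcases hd with hd | ⟨hd, hX⟩ | ⟨hd, hX⟩ | ⟨hd, hX⟩ | ⟨hd, hX⟩ | ⟨hd, hX⟩ | ⟨hd, hX⟩
  · linarith
  · linarith
  · linarith
  · linarith
  · rcases (by omega : p ≤ 0 ∨ 1 ≤ p) with g1 | g1
    · linarith
    · linarith
  · linarith
  · rcases (by omega : p ≤ 0 ∨ 1 ≤ p) with g1 | g1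
    · linarith
    · linarith

/-- rank two, two inside triples, one line triple, a single point leaf. -/
theorem Nd.g22qE (h : Nd n p K W X f e N M q b k S s x) (hr : n - p = 2) (hK : K = 2)
    (hq : q = 1) (hb : b = 0) (hs0 : s = 0)
    (hd : (d ≤ 160 ∧ 2 ≤ X) ∨ (d ≤ 240 ∧ 3 ≤ X) ∨ (d ≤ 320 ∧ 4 ≤ X) ∨ (d ≤ 400 ∧ 9 ≤ X) ∨
      (d ≤ 480 ∧ 14 ≤ X))
    (hA : n + 2 * e ≤ N) (hxf : 2 ≤ x + f) (hy : 4 ≤ k + s + x + f)
    (hN4 : n + 4 ≤ N) (hL2 : 11 * n + 2 ≤ 3 * M + 2 * N)
    (hg5 : 5 * p - W ≤ N - 5)
    (h1 : N = n → M = 3 * n → 3 ≤ x + f)
    (h2 : N = n + 2 → M = 3 * n → 4 ≤ k + s + x + f ∧ (3 ≤ x + f ∨ s ≤ 4 ∨ 3 ≤ W))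
    (hk11 : k ≤ 11) (hk2 : 2 ≤ k → 463 ≤ S) (hk3 : 3 ≤ k → 516 ≤ S)
    (hk5 : 5 ≤ k → 527 ≤ S) (hk7 : 5 ≤ k → k ≤ 7 → 543 ≤ S) :
    NI n p K W X f e N b S s x d := by
  obtain ⟨c1, c2, c3, c4, c5, c6, c7, c8, c9, c10, c11, c12, c13, c14, c15, c16, c17, c18, c19, c20,
    c21, c22, c23, c24, c25, c26⟩ := h
  obtain ⟨A, hA1⟩ : ∃ A, N = n + 2 * A := ⟨(N - n) / 2, by omega⟩
  obtain ⟨Bm, hB1⟩ : ∃ Bm, M = n + 2 * Bm := ⟨(M - n) / 2, by omega⟩
  obtain rfl : n = p + 2 := by omega
  subst hA1 hB1 hK hq hb
  unfold NI
  clear c7 c8
  by_contra hcon
  rw [not_le] at hcon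
  rcases hd with ⟨hd, hX⟩ | ⟨hd, hX⟩ | ⟨hd, hX⟩ | ⟨hd, hX⟩ | ⟨hd, hX⟩
  · rcases (by omega : p ≤ 1 ∨ 2 ≤ p) with g1 | g1
    · rcases (by omega : Bm ≤ 2 ∨ 3 ≤ Bm) with g2 | g2
      · rcases (by omega : A ≤ 2 ∨ 3 ≤ A) with g3 | g3
        · rcases (by omega : X ≤ 3 ∨ 4 ≤ X) with g4 | g4
          · rcases (by omega : e ≤ 0 ∨ 1 ≤ e) with g5 | g5
            · linarith
            · linarith
          · linarith
        · rcases (by omega : p ≤ 0 ∨ 1 ≤ p) with g6 | g6
          · linarith
          · rcases (by omega : A ≤ 3 ∨ 4 ≤ A) with g7 | g7
            · rcases (by omega : X ≤ 2 ∨ 3 ≤ X) with g8 | g8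
              · rcases (by omega : Bm ≤ 1 ∨ 2 ≤ Bm) with g9 | g9
                · linarith
                · rcases (by omega : W ≤ 1 ∨ 2 ≤ W) with g10 | g10
                  · rcases (by omega : e ≤ 0 ∨ 1 ≤ e) with g11 | g11
                    · linarith
                    · linarith
                  · linarith
              · rcases (by omega : Bm ≤ 1 ∨ 2 ≤ Bm) with g12 | g12
                · linarith
                · linarith
            · linarith
      · linarith
    · linarith
  · rcases (by omega : p ≤ 1 ∨ 2 ≤ p) with g1 | g1
    · rcases (by omega : Bm ≤ 2 ∨ 3 ≤ Bm) with g2 | g2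
      · rcases (by omega : A ≤ 2 ∨ 3 ≤ A) with g3 | g3
        · rcases (by omega : X ≤ 5 ∨ 6 ≤ X) with g4 | g4
          · rcases (by omega : e ≤ 0 ∨ 1 ≤ e) with g5 | g5
            · rcases (by omega : p ≤ 0 ∨ 1 ≤ p) with g6 | g6
              · linarith
              · linarith
            · linarith
          · rcases (by omega : p ≤ 0 ∨ 1 ≤ p) with g7 | g7
            · rcases (by omega : Bm ≤ 1 ∨ 2 ≤ Bm) with g8 | g8
              · linarith
              · linarith
            · linarith
        · rcases (by omega : A ≤ 3 ∨ 4 ≤ A) with g9 | g9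
          · rcases (by omega : X ≤ 4 ∨ 5 ≤ X) with g10 | g10
            · rcases (by omega : p ≤ 0 ∨ 1 ≤ p) with g11 | g11
              · rcases (by omega : Bm ≤ 1 ∨ 2 ≤ Bm) with g12 | g12
                · linarith
                · linarith
              · rcases (by omega : Bm ≤ 1 ∨ 2 ≤ Bm) with g13 | g13
                · linarith
                · rcases (by omega : W ≤ 1 ∨ 2 ≤ W) with g14 | g14
                  · rcases (by omega : e ≤ 0 ∨ 1 ≤ e) with g15 | g15
                    · linarith
                    · linarith
                  · rcases (by omega : X ≤ 3 ∨ 4 ≤ X) with g16 | g16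
                    · rcases (by omega : W ≤ 2 ∨ 3 ≤ W) with g17 | g17
                      · rcases (by omega : e ≤ 0 ∨ 1 ≤ e) with g18 | g18
                        · linarith
                        · linarith
                      · linarith
                    · linarith
            · rcases (by omega : p ≤ 0 ∨ 1 ≤ p) with g19 | g19
              · linarith
              · rcases (by omega : Bm ≤ 1 ∨ 2 ≤ Bm) with g20 | g20
                · linarith
                · linarith
          · rcases (by omega : Bm ≤ 1 ∨ 2 ≤ Bm) with g21 | g21
            · rcases (by omega : A ≤ 4 ∨ 5 ≤ A) with g22 | g22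
              · rcases (by omega : p ≤ 0 ∨ 1 ≤ p) with g23 | g23
                · linarith
                · rcases (by omega : W ≤ 2 ∨ 3 ≤ W) with g24 | g24
                  · rcases (by omega : X ≤ 3 ∨ 4 ≤ X) with g25 | g25
                    · rcases (by omega : e ≤ 0 ∨ 1 ≤ e) with g26 | g26
                      · linarith
                      · linarith
                    · rcases (by omega : W ≤ 1 ∨ 2 ≤ W) with g27 | g27
                      · rcases (by omega : X ≤ 4 ∨ 5 ≤ X) with g28 | g28
                        · rcases (by omega : e ≤ 0 ∨ 1 ≤ e) with g29 | g29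
                          · linarith
                          · linarith
                        · rcases (by omega : W ≤ 0 ∨ 1 ≤ W) with g30 | g30
                          · rcases (by omega : X ≤ 5 ∨ 6 ≤ X) with g31 | g31
                            · rcases (by omega : e ≤ 0 ∨ 1 ≤ e) with g32 | g32
                              · linarith
                              · linarith
                            · linarith
                          · linarith
                      · linarith
                  · linarith
              · rcases (by omega : Bm ≤ 0 ∨ 1 ≤ Bm) with g33 | g33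
                · linarith
                · linarith
            · linarith
      · rcases (by omega : p ≤ 0 ∨ 1 ≤ p) with g34 | g34
        · linarith
        · linarith
    · rcases (by omega : A ≤ 4 ∨ 5 ≤ A) with g35 | g35
      · linarith
      · rcases (by omega : p ≤ 2 ∨ 3 ≤ p) with g36 | g36
        · rcases (by omega : Bm ≤ 1 ∨ 2 ≤ Bm) with g37 | g37
          · linarith
          · linarith
        · linarith
  · rcases (by omega : p ≤ 1 ∨ 2 ≤ p) with g1 | g1
    · rcases (by omega : Bm ≤ 3 ∨ 4 ≤ Bm) with g2 | g2
      · rcases (by omega : A ≤ 2 ∨ 3 ≤ A) with g3 | g3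
        · rcases (by omega : X ≤ 5 ∨ 6 ≤ X) with g4 | g4
          · rcases (by omega : e ≤ 0 ∨ 1 ≤ e) with g5 | g5
            · rcases (by omega : Bm ≤ 2 ∨ 3 ≤ Bm) with g6 | g6
              · rcases (by omega : k ≤ 2 ∨ 3 ≤ k) with g7 | g7
                · rcases (by omega : p ≤ 0 ∨ 1 ≤ p) with g8 | g8
                  · have g9f : 463 ≤ S := by
                      have hf := hk2 (by omega)
                      omega
                    linarith
                  · linarith
                · have g10f : 516 ≤ S := by
                    have hf := hk3 (by omega)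
                    omega
                  linarith
              · linarith
            · linarith
          · rcases (by omega : Bm ≤ 2 ∨ 3 ≤ Bm) with g11 | g11
            · rcases (by omega : X ≤ 7 ∨ 8 ≤ X) with g12 | g12
              · rcases (by omega : e ≤ 0 ∨ 1 ≤ e) with g13 | g13
                · rcases (by omega : p ≤ 0 ∨ 1 ≤ p) with g14 | g14
                  · linarith
                  · linarith
                · linarith
              · rcases (by omega : p ≤ 0 ∨ 1 ≤ p) with g15 | g15
                · rcases (by omega : Bm ≤ 1 ∨ 2 ≤ Bm) with g16 | g16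
                  · rcases (by omega : X ≤ 10 ∨ 11 ≤ X) with g17 | g17
                    · rcases (by omega : e ≤ 0 ∨ 1 ≤ e) with g18 | g18
                      · linarith
                      · linarith
                    · linarith
                  · linarith
                · linarith
            · linarith
        · rcases (by omega : X ≤ 4 ∨ 5 ≤ X) with g19 | g19
          · rcases (by omega : W ≤ 1 ∨ 2 ≤ W) with g20 | g20
            · rcases (by omega : A ≤ 3 ∨ 4 ≤ A) with g21 | g21
              · rcases (by omega : p ≤ 0 ∨ 1 ≤ p) with g22 | g22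
                · rcases (by omega : Bm ≤ 2 ∨ 3 ≤ Bm) with g23 | g23
                  · rcases (by omega : e ≤ 0 ∨ 1 ≤ e) with g24 | g24
                    · linarith
                    · linarith
                  · linarith
                · rcases (by omega : e ≤ 0 ∨ 1 ≤ e) with g25 | g25
                  · rcases (by omega : Bm ≤ 2 ∨ 3 ≤ Bm) with g26 | g26
                    · have g27f : 516 ≤ S := by
                        have hf := hk3 (by omega)
                        omega
                      linarith
                    · linarith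
                  · linarith
              · rcases (by omega : Bm ≤ 2 ∨ 3 ≤ Bm) with g28 | g28
                · rcases (by omega : A ≤ 4 ∨ 5 ≤ A) with g29 | g29
                  · rcases (by omega : Bm ≤ 1 ∨ 2 ≤ Bm) with g30 | g30
                    · rcases (by omega : e ≤ 0 ∨ 1 ≤ e) with g31 | g31
                      · rcases (by omega : p ≤ 0 ∨ 1 ≤ p) with g32 | g32
                        · linarith
                        · rcases (by omega : W ≤ 0 ∨ 1 ≤ W) with g33 | g33
                          · have g34f : 463 ≤ S := by
                              have hf := hk2 (by omega)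
                              omega
                            linarith
                          · linarith
                      · linarith
                    · rcases (by omega : W ≤ 0 ∨ 1 ≤ W) with g35 | g35
                      · rcases (by omega : p ≤ 0 ∨ 1 ≤ p) with g36 | g36
                        · linarith
                        · rcases (by omega : e ≤ 0 ∨ 1 ≤ e) with g37 | g37
                          · linarith
                          · linarith
                      · linarith
                  · rcases (by omega : Bm ≤ 1 ∨ 2 ≤ Bm) with g38 | g38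
                    · rcases (by omega : A ≤ 5 ∨ 6 ≤ A) with g39 | g39
                      · rcases (by omega : p ≤ 0 ∨ 1 ≤ p) with g40 | g40
                        · linarith
                        · rcases (by omega : Bm ≤ 0 ∨ 1 ≤ Bm) with g41 | g41
                          · linarith
                          · rcases (by omega : W ≤ 0 ∨ 1 ≤ W) with g42 | g42
                            · rcases (by omega : e ≤ 0 ∨ 1 ≤ e) with g43 | g43
                              · linarith
                              · linarith
                            · linarith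
                      · rcases (by omega : Bm ≤ 0 ∨ 1 ≤ Bm) with g44 | g44
                        · rcases (by omega : A ≤ 6 ∨ 7 ≤ A) with g45 | g45
                          · rcases (by omega : W ≤ 0 ∨ 1 ≤ W) with g46 | g46
                            · rcases (by omega : p ≤ 0 ∨ 1 ≤ p) with g47 | g47
                              · linarith
                              · rcases (by omega : e ≤ 0 ∨ 1 ≤ e) with g48 | g48
                                · linarith
                                · linarith
                            · linarith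
                          · linarith
                        · linarith
                    · linarith
                · linarith
            · rcases (by omega : Bm ≤ 2 ∨ 3 ≤ Bm) with g49 | g49
              · rcases (by omega : A ≤ 3 ∨ 4 ≤ A) with g50 | g50
                · rcases (by omega : e ≤ 0 ∨ 1 ≤ e) with g51 | g51
                  · rcases (by omega : p ≤ 0 ∨ 1 ≤ p) with g52 | g52
                    · linarith
                    · rcases (by omega : Bm ≤ 1 ∨ 2 ≤ Bm) with g53 | g53
                      · linarith
                      · linarith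
                  · linarith
                · rcases (by omega : Bm ≤ 1 ∨ 2 ≤ Bm) with g54 | g54
                  · rcases (by omega : A ≤ 4 ∨ 5 ≤ A) with g55 | g55
                    · rcases (by omega : e ≤ 0 ∨ 1 ≤ e) with g56 | g56
                      · linarith
                      · linarith
                    · linarith
                  · linarith
              · linarith
          · rcases (by omega : Bm ≤ 2 ∨ 3 ≤ Bm) with g57 | g57
            · rcases (by omega : Bm ≤ 1 ∨ 2 ≤ Bm) with g58 | g58
              · rcases (by omega : A ≤ 4 ∨ 5 ≤ A) with g59 | g59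
                · rcases (by omega : p ≤ 0 ∨ 1 ≤ p) with g60 | g60
                  · rcases (by omega : A ≤ 3 ∨ 4 ≤ A) with g61 | g61
                    · rcases (by omega : X ≤ 7 ∨ 8 ≤ X) with g62 | g62
                      · rcases (by omega : e ≤ 0 ∨ 1 ≤ e) with g63 | g63
                        · linarith
                        · linarith
                      · rcases (by omega : Bm ≤ 0 ∨ 1 ≤ Bm) with g64 | g64
                        · linarith
                        · linarith
                    · rcases (by omega : Bm ≤ 0 ∨ 1 ≤ Bm) with g65 | g65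
                      · linarith
                      · linarith
                  · rcases (by omega : W ≤ 2 ∨ 3 ≤ W) with g66 | g66
                    · rcases (by omega : X ≤ 5 ∨ 6 ≤ X) with g67 | g67
                      · rcases (by omega : e ≤ 0 ∨ 1 ≤ e) with g68 | g68
                        · linarith
                        · linarith
                      · rcases (by omega : W ≤ 1 ∨ 2 ≤ W) with g69 | g69
                        · rcases (by omega : X ≤ 6 ∨ 7 ≤ X) with g70 | g70
                          · rcases (by omega : e ≤ 0 ∨ 1 ≤ e) with g71 | g71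
                            · linarith
                            · linarith
                          · rcases (by omega : W ≤ 0 ∨ 1 ≤ W) with g72 | g72
                            · rcases (by omega : X ≤ 7 ∨ 8 ≤ X) with g73 | g73
                              · rcases (by omega : e ≤ 0 ∨ 1 ≤ e) with g74 | g74
                                · linarith
                                · linarith
                              · linarith
                            · linarith
                        · linarith
                    · linarith
                · rcases (by omega : Bm ≤ 0 ∨ 1 ≤ Bm) with g75 | g75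
                  · rcases (by omega : p ≤ 0 ∨ 1 ≤ p) with g76 | g76
                    · linarith
                    · linarith
                  · linarith
              · rcases (by omega : A ≤ 3 ∨ 4 ≤ A) with g77 | g77
                · rcases (by omega : X ≤ 6 ∨ 7 ≤ X) with g78 | g78
                  · rcases (by omega : W ≤ 1 ∨ 2 ≤ W) with g79 | g79
                    · rcases (by omega : p ≤ 0 ∨ 1 ≤ p) with g80 | g80
                      · linarith
                      · rcases (by omega : e ≤ 0 ∨ 1 ≤ e) with g81 | g81
                        · linarith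
                        · linarith
                    · rcases (by omega : X ≤ 5 ∨ 6 ≤ X) with g82 | g82
                      · rcases (by omega : W ≤ 2 ∨ 3 ≤ W) with g83 | g83
                        · rcases (by omega : p ≤ 0 ∨ 1 ≤ p) with g84 | g84
                          · linarith
                          · rcases (by omega : e ≤ 0 ∨ 1 ≤ e) with g85 | g85
                            · linarith
                            · linarith
                        · linarith
                      · linarith
                  · linarith
                · linarith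
            · linarith
      · linarith
    · rcases (by omega : p ≤ 2 ∨ 3 ≤ p) with g86 | g86
      · rcases (by omega : A ≤ 4 ∨ 5 ≤ A) with g87 | g87
        · rcases (by omega : Bm ≤ 2 ∨ 3 ≤ Bm) with g88 | g88
          · rcases (by omega : X ≤ 5 ∨ 6 ≤ X) with g89 | g89
            · rcases (by omega : W ≤ 3 ∨ 4 ≤ W) with g90 | g90
              · rcases (by omega : e ≤ 0 ∨ 1 ≤ e) with g91 | g91
                · linarith
                · linarith
              · rcases (by omega : W ≤ 4 ∨ 5 ≤ W) with g92 | g92
                · rcases (by omega : X ≤ 4 ∨ 5 ≤ X) with g93 | g93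
                  · rcases (by omega : e ≤ 0 ∨ 1 ≤ e) with g94 | g94
                    · linarith
                    · linarith
                  · linarith
                · linarith
            · linarith
          · linarith
        · rcases (by omega : Bm ≤ 2 ∨ 3 ≤ Bm) with g95 | g95
          · rcases (by omega : A ≤ 5 ∨ 6 ≤ A) with g96 | g96
            · rcases (by omega : X ≤ 4 ∨ 5 ≤ X) with g97 | g97
              · rcases (by omega : W ≤ 1 ∨ 2 ≤ W) with g98 | g98
                · rcases (by omega : e ≤ 0 ∨ 1 ≤ e) with g99 | g99
                  · linarith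
                  · linarith
                · rcases (by omega : Bm ≤ 1 ∨ 2 ≤ Bm) with g100 | g100
                  · linarith
                  · linarith
              · rcases (by omega : Bm ≤ 1 ∨ 2 ≤ Bm) with g101 | g101
                · linarith
                · linarith
            · rcases (by omega : Bm ≤ 1 ∨ 2 ≤ Bm) with g102 | g102
              · rcases (by omega : A ≤ 6 ∨ 7 ≤ A) with g103 | g103
                · rcases (by omega : W ≤ 0 ∨ 1 ≤ W) with g104 | g104
                  · rcases (by omega : X ≤ 4 ∨ 5 ≤ X) with g105 | g105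
                    · rcases (by omega : e ≤ 0 ∨ 1 ≤ e) with g106 | g106
                      · linarith
                      · linarith
                    · linarith
                  · linarith
                · linarith
              · linarith
          · linarith
      · linarith
  · rcases (by omega : p ≤ 0 ∨ 1 ≤ p) with g1 | g1
    · rcases (by omega : Bm ≤ 2 ∨ 3 ≤ Bm) with g2 | g2
      · rcases (by omega : A ≤ 2 ∨ 3 ≤ A) with g3 | g3
        · rcases (by omega : X ≤ 9 ∨ 10 ≤ X) with g4 | g4
          · rcases (by omega : e ≤ 0 ∨ 1 ≤ e) with g5 | g5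
            · rcases (by omega : Bm ≤ 1 ∨ 2 ≤ Bm) with g6 | g6
              · have g7f : 463 ≤ S := by
                  have hf := hk2 (by omega)
                  omega
                linarith
              · linarith
            · linarith
          · rcases (by omega : Bm ≤ 1 ∨ 2 ≤ Bm) with g8 | g8
            · rcases (by omega : X ≤ 12 ∨ 13 ≤ X) with g9 | g9
              · rcases (by omega : e ≤ 0 ∨ 1 ≤ e) with g10 | g10
                · linarith
                · linarith
              · linarith
            · linarith
        · rcases (by omega : Bm ≤ 1 ∨ 2 ≤ Bm) with g11 | g11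
          · rcases (by omega : A ≤ 3 ∨ 4 ≤ A) with g12 | g12
            · rcases (by omega : X ≤ 9 ∨ 10 ≤ X) with g13 | g13
              · rcases (by omega : e ≤ 0 ∨ 1 ≤ e) with g14 | g14
                · linarith
                · linarith
              · rcases (by omega : Bm ≤ 0 ∨ 1 ≤ Bm) with g15 | g15
                · linarith
                · linarith
            · rcases (by omega : Bm ≤ 0 ∨ 1 ≤ Bm) with g16 | g16
              · rcases (by omega : A ≤ 4 ∨ 5 ≤ A) with g17 | g17
                · rcases (by omega : X ≤ 9 ∨ 10 ≤ X) with g18 | g18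
                  · rcases (by omega : e ≤ 0 ∨ 1 ≤ e) with g19 | g19
                    · linarith
                    · linarith
                  · linarith
                · linarith
              · linarith
          · linarith
      · linarith
    · rcases (by omega : p ≤ 1 ∨ 2 ≤ p) with g20 | g20
      · rcases (by omega : A ≤ 2 ∨ 3 ≤ A) with g21 | g21
        · rcases (by omega : Bm ≤ 2 ∨ 3 ≤ Bm) with g22 | g22
          · rcases (by omega : X ≤ 10 ∨ 11 ≤ X) with g23 | g23
            · rcases (by omega : e ≤ 0 ∨ 1 ≤ e) with g24 | g24
              · linarith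
              · linarith
            · linarith
          · linarith
        · rcases (by omega : Bm ≤ 2 ∨ 3 ≤ Bm) with g25 | g25
          · rcases (by omega : A ≤ 3 ∨ 4 ≤ A) with g26 | g26
            · rcases (by omega : X ≤ 9 ∨ 10 ≤ X) with g27 | g27
              · rcases (by omega : W ≤ 1 ∨ 2 ≤ W) with g28 | g28
                · rcases (by omega : e ≤ 0 ∨ 1 ≤ e) with g29 | g29
                  · linarith
                  · linarith
                · rcases (by omega : Bm ≤ 1 ∨ 2 ≤ Bm) with g30 | g30
                  · linarith
                  · linarith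
              · rcases (by omega : Bm ≤ 1 ∨ 2 ≤ Bm) with g31 | g31
                · linarith
                · linarith
            · rcases (by omega : Bm ≤ 1 ∨ 2 ≤ Bm) with g32 | g32
              · rcases (by omega : A ≤ 4 ∨ 5 ≤ A) with g33 | g33
                · rcases (by omega : W ≤ 0 ∨ 1 ≤ W) with g34 | g34
                  · rcases (by omega : X ≤ 9 ∨ 10 ≤ X) with g35 | g35
                    · rcases (by omega : e ≤ 0 ∨ 1 ≤ e) with g36 | g36
                      · linarith
                      · linarith
                    · linarith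
                  · linarith
                · linarith
              · linarith
          · linarith
      · linarith
  · rcases (by omega : p ≤ 0 ∨ 1 ≤ p) with g1 | g1
    · rcases (by omega : Bm ≤ 1 ∨ 2 ≤ Bm) with g2 | g2
      · rcases (by omega : A ≤ 2 ∨ 3 ≤ A) with g3 | g3
        · rcases (by omega : X ≤ 14 ∨ 15 ≤ X) with g4 | g4
          · rcases (by omega : e ≤ 0 ∨ 1 ≤ e) with g5 | g5
            · linarith
            · linarith
          · linarith
        · linarith
      · linarith
    · linarith

/-- rank two, two inside triples, one centre, a single point leaf. -/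
theorem Nd.g22bE (h : Nd n p K W X f e N M q b k S s x) (hr : n - p = 2) (hK : K = 2)
    (hq : q = 0) (hb : b = 1) (hk0 : k = 0) (hS0 : S = 0)
    (hd : (d ≤ 160 ∧ 2 ≤ X) ∨ (d ≤ 240 ∧ 3 ≤ X) ∨ (d ≤ 320 ∧ 4 ≤ X) ∨ (d ≤ 400 ∧ 9 ≤ X) ∨
      (d ≤ 480 ∧ 14 ≤ X))
    (hA : n + 2 * e ≤ N) (hxf : 2 ≤ x + f) (hy : 4 ≤ k + s + x + f)
    (hN4 : n + 4 ≤ N) (hL2 : 11 * n + 2 ≤ 3 * M + 2 * N)
    (hg5 : 5 * p - W ≤ N - 5)
    (h1 : N = n → M = 3 * n → 3 ≤ x + f)
    (h2 : N = n + 2 → M = 3 * n → 4 ≤ k + s + x + f ∧ (3 ≤ x + f ∨ s ≤ 4 ∨ 3 ≤ W)) :
    NI n p K W X f e N b S s x d := by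
  obtain ⟨c1, c2, c3, c4, c5, c6, c7, c8, c9, c10, c11, c12, c13, c14, c15, c16, c17, c18, c19, c20,
    c21, c22, c23, c24, c25, c26⟩ := h
  obtain ⟨A, hA1⟩ : ∃ A, N = n + 2 * A := ⟨(N - n) / 2, by omega⟩
  obtain ⟨Bm, hB1⟩ : ∃ Bm, M = n + 2 * Bm := ⟨(M - n) / 2, by omega⟩
  obtain rfl : n = p + 2 := by omega
  subst hA1 hB1 hK hq hb
  unfold NI
  clear c7 c8
  by_contra hcon
  rw [not_le] at hcon
  rcases hd with ⟨hd, hX⟩ | ⟨hd, hX⟩ | ⟨hd, hX⟩ | ⟨hd, hX⟩ | ⟨hd, hX⟩
  · rcases (by omega : p ≤ 1 ∨ 2 ≤ p) with g1 | g1
    · linarith
    · rcases (by omega : p ≤ 2 ∨ 3 ≤ p) with g2 | g2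
      · rcases (by omega : A ≤ 3 ∨ 4 ≤ A) with g3 | g3
        · linarith
        · linarith
      · linarith
  · rcases (by omega : p ≤ 1 ∨ 2 ≤ p) with g1 | g1
    · rcases (by omega : e ≤ 0 ∨ 1 ≤ e) with g2 | g2
      · linarith
      · linarith
    · rcases (by omega : p ≤ 2 ∨ 3 ≤ p) with g3 | g3
      · rcases (by omega : A ≤ 5 ∨ 6 ≤ A) with g4 | g4
        · rcases (by omega : Bm ≤ 1 ∨ 2 ≤ Bm) with g5 | g5
          · linarith
          · rcases (by omega : e ≤ 0 ∨ 1 ≤ e) with g6 | g6
            · linarith
            · linarith
        · rcases (by omega : Bm ≤ 1 ∨ 2 ≤ Bm) with g7 | g7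
          · linarith
          · linarith
      · linarith
  · rcases (by omega : p ≤ 1 ∨ 2 ≤ p) with g1 | g1
    · rcases (by omega : Bm ≤ 2 ∨ 3 ≤ Bm) with g2 | g2
      · rcases (by omega : e ≤ 0 ∨ 1 ≤ e) with g3 | g3
        · linarith
        · linarith
      · rcases (by omega : p ≤ 0 ∨ 1 ≤ p) with g4 | g4
        · rcases (by omega : Bm ≤ 3 ∨ 4 ≤ Bm) with g5 | g5
          · rcases (by omega : A ≤ 2 ∨ 3 ≤ A) with g6 | g6
            · rcases (by omega : e ≤ 0 ∨ 1 ≤ e) with g7 | g7
              · linarith
              · linarith
            · linarith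
          · linarith
        · rcases (by omega : e ≤ 0 ∨ 1 ≤ e) with g8 | g8
          · linarith
          · linarith
    · rcases (by omega : p ≤ 2 ∨ 3 ≤ p) with g9 | g9
      · rcases (by omega : A ≤ 5 ∨ 6 ≤ A) with g10 | g10
        · rcases (by omega : Bm ≤ 1 ∨ 2 ≤ Bm) with g11 | g11
          · linarith
          · rcases (by omega : e ≤ 0 ∨ 1 ≤ e) with g12 | g12
            · linarith
            · linarith
        · rcases (by omega : Bm ≤ 1 ∨ 2 ≤ Bm) with g13 | g13
          · rcases (by omega : A ≤ 6 ∨ 7 ≤ A) with g14 | g14
            · rcases (by omega : e ≤ 0 ∨ 1 ≤ e) with g15 | g15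
              · linarith
              · linarith
            · rcases (by omega : Bm ≤ 0 ∨ 1 ≤ Bm) with g16 | g16
              · linarith
              · linarith
          · linarith
      · linarith
  · rcases (by omega : p ≤ 0 ∨ 1 ≤ p) with g1 | g1
    · rcases (by omega : Bm ≤ 2 ∨ 3 ≤ Bm) with g2 | g2
      · rcases (by omega : A ≤ 2 ∨ 3 ≤ A) with g3 | g3
        · rcases (by omega : e ≤ 0 ∨ 1 ≤ e) with g4 | g4
          · linarith
          · linarith
        · rcases (by omega : Bm ≤ 1 ∨ 2 ≤ Bm) with g5 | g5
          · linarith
          · linarith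
      · linarith
    · rcases (by omega : p ≤ 1 ∨ 2 ≤ p) with g6 | g6
      · rcases (by omega : A ≤ 3 ∨ 4 ≤ A) with g7 | g7
        · rcases (by omega : Bm ≤ 1 ∨ 2 ≤ Bm) with g8 | g8
          · linarith
          · rcases (by omega : A ≤ 2 ∨ 3 ≤ A) with g9 | g9
            · rcases (by omega : e ≤ 0 ∨ 1 ≤ e) with g10 | g10
              · linarith
              · linarith
            · linarith
        · rcases (by omega : Bm ≤ 1 ∨ 2 ≤ Bm) with g11 | g11
          · rcases (by omega : A ≤ 4 ∨ 5 ≤ A) with g12 | g12
            · rcases (by omega : e ≤ 0 ∨ 1 ≤ e) with g13 | g13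
              · linarith
              · linarith
            · rcases (by omega : Bm ≤ 0 ∨ 1 ≤ Bm) with g14 | g14
              · linarith
              · linarith
          · linarith
      · linarith
  · rcases (by omega : p ≤ 0 ∨ 1 ≤ p) with g1 | g1
    · rcases (by omega : Bm ≤ 1 ∨ 2 ≤ Bm) with g2 | g2
      · rcases (by omega : A ≤ 2 ∨ 3 ≤ A) with g3 | g3
        · rcases (by omega : e ≤ 0 ∨ 1 ≤ e) with g4 | g4
          · linarith
          · linarith
        · rcases (by omega : Bm ≤ 0 ∨ 1 ≤ Bm) with g5 | g5
          · linarith
          · linarith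
      · linarith
    · linarith

/-- rank two, two inside triples, a line triple without hits, a single point leaf. -/
theorem Nd.g22fE (h : Nd n p K W X f e N M q b k S s x) (hr : n - p = 2) (hK : K = 2)
    (hq : q = 0) (hb : b = 0) (hk0 : k = 0) (hs0 : s = 0)
    (hd : (d ≤ 160 ∧ 2 ≤ X) ∨ (d ≤ 240 ∧ 3 ≤ X) ∨ (d ≤ 320 ∧ 4 ≤ X) ∨ (d ≤ 400 ∧ 9 ≤ X) ∨
      (d ≤ 480 ∧ 14 ≤ X))
    (hA : n + 2 * e ≤ N) (hE : 1 ≤ e → 8 ≤ x + f) (hy : 4 ≤ x + f) (hS : 464 ≤ S)
    (hN4 : n + 4 ≤ N) (hL2 : 11 * n + 2 ≤ 3 * M + 2 * N)
    (hg5 : 5 * p - W ≤ N - 5) :
    NI n p K W X f e N b S s x d := by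
  obtain ⟨c1, c2, c3, c4, c5, c6, c7, c8, c9, c10, c11, c12, c13, c14, c15, c16, c17, c18, c19, c20,
    c21, c22, c23, c24, c25, c26⟩ := h
  obtain ⟨A, hA1⟩ : ∃ A, N = n + 2 * A := ⟨(N - n) / 2, by omega⟩
  obtain ⟨Bm, hB1⟩ : ∃ Bm, M = n + 2 * Bm := ⟨(M - n) / 2, by omega⟩
  obtain rfl : n = p + 2 := by omega
  subst hA1 hB1 hK hq hb
  unfold NI
  clear c7 c8
  by_contra hcon
  rw [not_le] at hcon
  rcases hd with ⟨hd, hX⟩ | ⟨hd, hX⟩ | ⟨hd, hX⟩ | ⟨hd, hX⟩ | ⟨hd, hX⟩
  · linarith
  · linarith
  · linarith
  · linarith
  · linarith

/-- rank two, two inside triples, two line triples or centres, a single point leaf. -/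
theorem Nd.g22zE (h : Nd n p K W X f e N M q b k S s x) (hr : n - p = 2) (hK : K = 2)
    (hd : (d ≤ 160 ∧ 2 ≤ X) ∨ (d ≤ 240 ∧ 3 ≤ X) ∨ (d ≤ 320 ∧ 4 ≤ X) ∨ (d ≤ 400 ∧ 9 ≤ X) ∨
      (d ≤ 480 ∧ 14 ≤ X))
    (hA : n + 2 * e ≤ N) (hqb : 2 ≤ q + b)
    (hN4 : n + 4 ≤ N) (hL2 : 11 * n + 2 ≤ 3 * M + 2 * N)
    (hg5 : 5 * p - W ≤ N - 5) :
    NI n p K W X f e N b S s x d := by
  obtain ⟨c1, c2, c3, c4, c5, c6, c7, c8, c9, c10, c11, c12, c13, c14, c15, c16, c17, c18, c19, c20,
    c21, c22, c23, c24, c25, c26⟩ := h
  obtain ⟨A, hA1⟩ : ∃ A, N = n + 2 * A := ⟨(N - n) / 2, by omega⟩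
  obtain ⟨Bm, hB1⟩ : ∃ Bm, M = n + 2 * Bm := ⟨(M - n) / 2, by omega⟩
  obtain rfl : n = p + 2 := by omega
  subst hA1 hB1 hK
  unfold NI
  clear c7 c8
  by_contra hcon
  rw [not_le] at hcon
  rcases hd with ⟨hd, hX⟩ | ⟨hd, hX⟩ | ⟨hd, hX⟩ | ⟨hd, hX⟩ | ⟨hd, hX⟩
  · linarith
  · linarith
  · linarith
  · linarith
  · linarith

/-- rank two, two inside triples, a single point leaf. -/
theorem Nd.g22tE (h : Nd n p K W X f e N M q b k S s x) (hr : n - p = 2) (hK : K = 2)
    (hq : q = 0) (hb : b = 0) (hk0 : k = 0) (hS0 : S = 0) (hs0 : s = 0)
    (hd : (d ≤ 160 ∧ 4 ≤ X) ∨ (d ≤ 240 ∧ 5 ≤ X) ∨ (d ≤ 320 ∧ 8 ≤ X))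
    (hA : n + 2 * e ≤ N) (hE : 1 ≤ e → 8 ≤ x + f) (hy : 4 ≤ x + f)
    (hN4 : n + 4 ≤ N) (hL2 : 11 * n + 2 ≤ 3 * M + 2 * N)
    (hg5 : 5 * p - W ≤ N - 5)
    (r064 : p = 0 → N = 6 → M = 4 → 5 ≤ x + f) :
    NI n p K W X f e N b S s x d := by
  obtain ⟨c1, c2, c3, c4, c5, c6, c7, c8, c9, c10, c11, c12, c13, c14, c15, c16, c17, c18, c19, c20,
    c21, c22, c23, c24, c25, c26⟩ := h
  obtain ⟨A, hA1⟩ : ∃ A, N = n + 2 * A := ⟨(N - n) / 2, by omega⟩
  obtain ⟨Bm, hB1⟩ : ∃ Bm, M = n + 2 * Bm := ⟨(M - n) / 2, by omega⟩
  obtain rfl : n = p + 2 := by omega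
  subst hA1 hB1 hK hq hb
  unfold NI
  clear c7 c8
  by_contra hcon
  rw [not_le] at hcon
  rcases hd with ⟨hd, hX⟩ | ⟨hd, hX⟩ | ⟨hd, hX⟩
  · rcases (by omega : p ≤ 0 ∨ 1 ≤ p) with g1 | g1
    · rcases (by omega : e ≤ 0 ∨ 1 ≤ e) with g2 | g2
      · linarith
      · rcases (by omega : Bm ≤ 2 ∨ 3 ≤ Bm) with g3 | g3
        · linarith
        · linarith
    · rcases (by omega : A ≤ 3 ∨ 4 ≤ A) with g4 | g4
      · rcases (by omega : Bm ≤ 1 ∨ 2 ≤ Bm) with g5 | g5
        · linarith
        · rcases (by omega : e ≤ 1 ∨ 2 ≤ e) with g6 | g6
          · linarith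
          · linarith
      · rcases (by omega : p ≤ 1 ∨ 2 ≤ p) with g7 | g7
        · rcases (by omega : e ≤ 0 ∨ 1 ≤ e) with g8 | g8
          · linarith
          · rcases (by omega : Bm ≤ 1 ∨ 2 ≤ Bm) with g9 | g9
            · linarith
            · linarith
        · linarith
  · rcases (by omega : p ≤ 0 ∨ 1 ≤ p) with g1 | g1
    · rcases (by omega : Bm ≤ 1 ∨ 2 ≤ Bm) with g2 | g2
      · rcases (by omega : A ≤ 3 ∨ 4 ≤ A) with g3 | g3
        · rcases (by omega : e ≤ 0 ∨ 1 ≤ e) with g4 | g4
          · linarith
          · linarith
        · rcases (by omega : Bm ≤ 0 ∨ 1 ≤ Bm) with g5 | g5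
          · rcases (by omega : e ≤ 0 ∨ 1 ≤ e) with g6 | g6
            · linarith
            · linarith
          · linarith
      · rcases (by omega : e ≤ 0 ∨ 1 ≤ e) with g7 | g7
        · linarith
        · rcases (by omega : Bm ≤ 2 ∨ 3 ≤ Bm) with g8 | g8
          · rcases (by omega : A ≤ 2 ∨ 3 ≤ A) with g9 | g9
            · rcases (by omega : x + f ≤ 5 ∨ 6 ≤ x + f) with g10 | g10
              · linarith
              · rcases (by omega : e ≤ 1 ∨ 2 ≤ e) with g11 | g11
                · linarith
                · linarith
            · linarith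
          · linarith
    · rcases (by omega : A ≤ 3 ∨ 4 ≤ A) with g12 | g12
      · rcases (by omega : Bm ≤ 1 ∨ 2 ≤ Bm) with g13 | g13
        · linarith
        · linarith
      · rcases (by omega : e ≤ 0 ∨ 1 ≤ e) with g14 | g14
        · linarith
        · rcases (by omega : p ≤ 1 ∨ 2 ≤ p) with g15 | g15
          · rcases (by omega : Bm ≤ 1 ∨ 2 ≤ Bm) with g16 | g16
            · rcases (by omega : A ≤ 4 ∨ 5 ≤ A) with g17 | g17
              · rcases (by omega : x + f ≤ 5 ∨ 6 ≤ x + f) with g18 | g18
                · linarith
                · rcases (by omega : e ≤ 1 ∨ 2 ≤ e) with g19 | g19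
                  · linarith
                  · linarith
              · rcases (by omega : Bm ≤ 0 ∨ 1 ≤ Bm) with g20 | g20
                · linarith
                · linarith
            · linarith
          · linarith
  · rcases (by omega : p ≤ 0 ∨ 1 ≤ p) with g1 | g1
    · rcases (by omega : Bm ≤ 1 ∨ 2 ≤ Bm) with g2 | g2
      · rcases (by omega : A ≤ 2 ∨ 3 ≤ A) with g3 | g3
        · rcases (by omega : e ≤ 0 ∨ 1 ≤ e) with g4 | g4
          · have g5f : 5 ≤ k + s + x + f := by
              have hf := r064 (by omega) (by omega) (by omega)
              omega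
            linarith
          · rcases (by omega : x + f ≤ 5 ∨ 6 ≤ x + f) with g6 | g6
            · linarith
            · rcases (by omega : e ≤ 1 ∨ 2 ≤ e) with g7 | g7
              · linarith
              · linarith
        · rcases (by omega : Bm ≤ 0 ∨ 1 ≤ Bm) with g8 | g8
          · rcases (by omega : e ≤ 0 ∨ 1 ≤ e) with g9 | g9
            · linarith
            · linarith
          · rcases (by omega : e ≤ 1 ∨ 2 ≤ e) with g10 | g10
            · linarith
            · linarith
      · linarith
    · linarith

/-- rank two, two inside triples, a single point leaf, six outer hits. -/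
theorem Nd.g22tX (h : Nd n p K W X f e N M q b k S s x) (hr : n - p = 2) (hK : K = 2)
    (hq : q = 0) (hb : b = 0) (hk0 : k = 0) (hS0 : S = 0) (hs0 : s = 0)
    (hd : (d ≤ 160 ∧ 2 ≤ X) ∨ (d ≤ 240 ∧ 3 ≤ X) ∨ (d ≤ 320 ∧ 4 ≤ X) ∨ (d ≤ 400 ∧ 9 ≤ X) ∨
      (d ≤ 480 ∧ 14 ≤ X))
    (hA : n + 2 * e ≤ N) (hE : 1 ≤ e → 8 ≤ x + f) (hy : 6 ≤ x + f)
    (hN4 : n + 4 ≤ N) (hL2 : 11 * n + 2 ≤ 3 * M + 2 * N)
    (hg5 : 5 * p - W ≤ N - 5) :
    NI n p K W X f e N b S s x d := by
  obtain ⟨c1, c2, c3, c4, c5, c6, c7, c8, c9, c10, c11, c12, c13, c14, c15, c16, c17, c18, c19, c20,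
    c21, c22, c23, c24, c25, c26⟩ := h
  obtain ⟨A, hA1⟩ : ∃ A, N = n + 2 * A := ⟨(N - n) / 2, by omega⟩
  obtain ⟨Bm, hB1⟩ : ∃ Bm, M = n + 2 * Bm := ⟨(M - n) / 2, by omega⟩
  obtain rfl : n = p + 2 := by omega
  subst hA1 hB1 hK hq hb
  unfold NI
  clear c7 c8
  by_contra hcon
  rw [not_le] at hcon
  rcases hd with ⟨hd, hX⟩ | ⟨hd, hX⟩ | ⟨hd, hX⟩ | ⟨hd, hX⟩ | ⟨hd, hX⟩
  · rcases (by omega : p ≤ 1 ∨ 2 ≤ p) with g1 | g1
    · rcases (by omega : Bm ≤ 2 ∨ 3 ≤ Bm) with g2 | g2
      · rcases (by omega : A ≤ 2 ∨ 3 ≤ A) with g3 | g3
        · rcases (by omega : e ≤ 1 ∨ 2 ≤ e) with g4 | g4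
          · linarith
          · linarith
        · rcases (by omega : e ≤ 1 ∨ 2 ≤ e) with g5 | g5
          · linarith
          · linarith
      · linarith
    · linarith
  · rcases (by omega : p ≤ 1 ∨ 2 ≤ p) with g1 | g1
    · rcases (by omega : Bm ≤ 2 ∨ 3 ≤ Bm) with g2 | g2
      · rcases (by omega : A ≤ 2 ∨ 3 ≤ A) with g3 | g3
        · rcases (by omega : e ≤ 1 ∨ 2 ≤ e) with g4 | g4
          · rcases (by omega : x ≤ 0 ∨ 1 ≤ x) with g5 | g5
            · have g6f : 8 ≤ x + f := by
                have hf := hE (by omega)
                omega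
              linarith
            · rcases (by omega : e ≤ 0 ∨ 1 ≤ e) with g7 | g7
              · linarith
              · linarith
          · linarith
        · rcases (by omega : e ≤ 1 ∨ 2 ≤ e) with g8 | g8
          · rcases (by omega : x ≤ 0 ∨ 1 ≤ x) with g9 | g9
            · have g10f : 8 ≤ x + f := by
                have hf := hE (by omega)
                omega
              linarith
            · rcases (by omega : e ≤ 0 ∨ 1 ≤ e) with g11 | g11
              · linarith
              · linarith
          · linarith
      · linarith
    · linarith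
  · rcases (by omega : e ≤ 1 ∨ 2 ≤ e) with g1 | g1
    · rcases (by omega : x ≤ 0 ∨ 1 ≤ x) with g2 | g2
      · have g3f : 8 ≤ x + f := by
          have hf := hE (by omega)
          omega
        linarith
      · rcases (by omega : e ≤ 0 ∨ 1 ≤ e) with g4 | g4
        · linarith
        · rcases (by omega : p ≤ 1 ∨ 2 ≤ p) with g5 | g5
          · rcases (by omega : Bm ≤ 2 ∨ 3 ≤ Bm) with g6 | g6
            · rcases (by omega : A ≤ 2 ∨ 3 ≤ A) with g7 | g7
              · rcases (by omega : x + f ≤ 6 ∨ 7 ≤ x + f) with g8 | g8
                · linarith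
                · linarith
              · rcases (by omega : Bm ≤ 1 ∨ 2 ≤ Bm) with g9 | g9
                · linarith
                · rcases (by omega : p ≤ 0 ∨ 1 ≤ p) with g10 | g10
                  · linarith
                  · linarith
            · linarith
          · linarith
    · linarith
  · rcases (by omega : p ≤ 0 ∨ 1 ≤ p) with g1 | g1
    · rcases (by omega : Bm ≤ 1 ∨ 2 ≤ Bm) with g2 | g2
      · rcases (by omega : A ≤ 2 ∨ 3 ≤ A) with g3 | g3
        · rcases (by omega : e ≤ 1 ∨ 2 ≤ e) with g4 | g4
          · rcases (by omega : x ≤ 0 ∨ 1 ≤ x) with g5 | g5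
            · have g6f : 8 ≤ x + f := by
                have hf := hE (by omega)
                omega
              linarith
            · rcases (by omega : e ≤ 0 ∨ 1 ≤ e) with g7 | g7
              · linarith
              · linarith
          · linarith
        · rcases (by omega : Bm ≤ 0 ∨ 1 ≤ Bm) with g8 | g8
          · rcases (by omega : A ≤ 4 ∨ 5 ≤ A) with g9 | g9
            · rcases (by omega : e ≤ 1 ∨ 2 ≤ e) with g10 | g10
              · linarith
              · linarith
            · linarith
          · linarith
      · linarith
    · linarith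
  · linarith

end

end Pool.Agent.Hyp6
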