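import Pool.Agent.Hyp6.L3W2
import Pool.Agent.Hyp6.L3Dr4
import Pool.Agent.Hyp6.L3Ti
import Pool.Agent.Hyp6.L3Ex4

/-!
# HYP6 L3W4: the numbers of a class of rank two with two inside triples

`Stg.trsD`: the payments of the remaining triples, with the parallel class which the two points of a
centre see. `Stg.nd22`: the numbers of a class where a set `A` of line triples is paid. `Stg.oS_le`: the
outer hits and free places in terms of these numbers. `StgR.don1`: the claims on a triple which sees no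
point leaf of a claim.
-/

set_option autoImplicit false

namespace Pool.Agent.Hyp6

open Finset Pool.Agent.Hyp5 Rt

universe u v

variable {V : Type v} [DecidableEq V] {ι : Type u} [Fintype ι] [DecidableEq ι]
  {B : ι → Finset V} {Q U Z : Finset V} {T : Finset ι} {F : Finset (Finset V)}
  {P : Finset (Finset (Finset V))} {a : V → Finset (Finset V) → ℕ} {C : Finset (Finset V)} {i j : ι}

namespace Stg

/-- **the payments of the remaining triples at a class**: `sb j` is the number of hits of the two points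
of a triple with the centre inside the class, they see only the parallel class `D`. -/
theorem trsD (s : Stg B Q T U F P a) (hC : C ∈ P) :
    ∃ sb : ι → ℕ, (∀ j ∈ Bc B Q T U F P C, sb j ≤ 8 ∧ sb j ≤ jC B Q j C ∧
      ∃ D ∈ par0 B U F, D ⊆ C ∧ sb j + ∑ L ∈ C \ D, jh B Q j L ≤ jC B Q j C) ∧
      149 * (∑ j ∈ Trs B Q T (Rg B Q T U F) U F P, (jC B Q j C : ℤ) -
          ∑ j ∈ Bc B Q T U F P C, (sb j : ℤ)) +
        ∑ j ∈ Bc B Q T U F P C, (584 - 16 * (sb j : ℤ)) ≤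
      ∑ j ∈ Trs B Q T (Rg B Q T U F) U F P, Xv 149 B Q T U F P j C := by
  classical
  have hCF : C ⊆ F := (s.part.ptn.vc C hC).sub
  have hkey : ∀ j ∈ Bc B Q T U F P C, ∃ m : ℕ, m ≤ 8 ∧ m ≤ jC B Q j C ∧
      (∃ D ∈ par0 B U F, D ⊆ C ∧ m + ∑ L ∈ C \ D, jh B Q j L ≤ jC B Q j C) ∧
      149 * ((jC B Q j C : ℤ) - m) + (584 - 16 * (m : ℤ)) ≤ Xv 149 B Q T U F P j C := by
    intro j hj
    obtain ⟨hjt, _, _, x, y, z, D, hB, hD, hj3, hx4, hy4, hz, h⟩ := s.Bc_data hC hj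
    have hjT := (s.frm.types_trs s.part hjt).1
    have hr := Frm.rB_ge (B := B) Q T U F P x y z D
    have hr2 := Frm.rB_le (B := B) Q T U F P x y z D
    refine ⟨uC B x C + uC B y C, by omega, by omega, ⟨D, hB.mem, hD, ?_⟩, ?_⟩
    · have h1 : ∀ L ∈ C \ D, jh B Q j L = uh B z L := by
        intro L hL
        obtain ⟨h2, h3⟩ := mem_sdiff.1 hL
        have hLF := hCF h2
        rw [jh_sum, hB.eq, sum_insert (by simp [hB.ab, hB.ac]), sum_pair hB.bc,
          uh_zero hLF (s.frm.T_notin hjT (by rw [hB.eq]; simp) hLF) fun h4 => h3 (hB.sa h4),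
          uh_zero hLF (s.frm.T_notin hjT (by rw [hB.eq]; simp) hLF) fun h4 => h3 (hB.sb h4)]
        omega
      have h3 : ∑ L ∈ C \ D, jh B Q j L = ∑ L ∈ C \ D, uh B z L := sum_congr rfl h1
      rw [h3, hj3]
      have h2 : ∑ L ∈ C \ D, uh B z L ≤ uC B z C := by
        unfold uC
        exact sum_le_sum_of_subset sdiff_subset
      omega
    · have hcc : ((∑ C' ∈ P, uC B z C' : ℕ) : ℤ) + (ncl B Q T U F P j : ℤ) ≤ 4 := by
        exact_mod_cast hB.cc
      have hz0 : (0 : ℤ) ≤ ((∑ C' ∈ P, uC B z C' : ℕ) : ℤ) := by positivity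
      have hn0 : (0 : ℤ) ≤ (ncl B Q T U F P j : ℤ) := by positivity
      have hzC : (0 : ℤ) ≤ (uC B z C : ℤ) := by positivity
      have e1 : (jC B Q j C : ℤ) = (uC B x C : ℤ) + uC B y C + uC B z C := by exact_mod_cast hj3
      rw [e1] at h ⊢
      generalize ((∑ C' ∈ P, uC B z C' : ℕ) : ℤ) = Z at *
      have h5 := mul_nonneg (sub_nonneg.2 hr) hzC
      have h6 := mul_nonneg (sub_nonneg.2 hr2) hz0
      push_cast
      linarith
  choose! m hm using hkey
  refine ⟨m, fun j hj => ⟨(hm j hj).1, (hm j hj).2.1, (hm j hj).2.2.1⟩, ?_⟩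
  have hsub : Bc B Q T U F P C ⊆ Trs B Q T (Rg B Q T U F) U F P := filter_subset _ _
  have h1 := sum_le_sum fun j hj => (hm j hj).2.2.2
  have h2 : ∑ j ∈ Trs B Q T (Rg B Q T U F) U F P \ Bc B Q T U F P C,
      149 * (jC B Q j C : ℤ) ≤
      ∑ j ∈ Trs B Q T (Rg B Q T U F) U F P \ Bc B Q T U F P C, Xv 149 B Q T U F P j C := by
    refine sum_le_sum fun j hj => ?_
    obtain ⟨h3, h4⟩ := mem_sdiff.1 hj
    by_contra h5
    exact h4 (mem_filter.2 ⟨h3, not_le.1 h5⟩)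
  rw [← sum_sdiff hsub (f := fun j => Xv 149 B Q T U F P j C),
    ← sum_sdiff hsub (f := fun j => (jC B Q j C : ℤ))]
  rw [sum_add_distrib, ← mul_sum, sum_sub_distrib] at h1
  rw [← mul_sum] at h2
  linarith

/-- the weak hits of a class where the line triples `A` are paid. -/
noncomputable def _root_.Pool.Agent.Hyp6.xA (B : ι → Finset V) (Q : Finset V) (T : Finset ι)
    (U : Finset V) (F : Finset (Finset V)) (P : Finset (Finset (Finset V)))
    (C : Finset (Finset V)) (A : Finset ι) (sb : ι → ℕ) : ℤ :=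
  (gC B U F P C : ℤ) + ∑ k ∈ aC B Q T U F P C \ A, (jC B Q k C : ℤ) +
    (∑ j ∈ Trs B Q T (Rg B Q T U F) U F P, (jC B Q j C : ℤ) -
      ∑ j ∈ Bc B Q T U F P C, (sb j : ℤ))

/-- **the numbers of a class where a set `A` of line triples is paid**. -/
theorem nd22 (s : Stg B Q T U F P a) (hC : C ∈ P) {A : Finset ι}
    (hA : A ⊆ aC B Q T U F P C) {π : ι → ℤ}
    (hπ : ∀ k ∈ A, 399 ≤ π k ∧ 54 * (jC B Q k C : ℤ) ≤ π k ∧
      381 + 18 * (jC B Q k C : ℤ) ≤ π k)
    {sb : ι → ℕ} (hsb : ∀ j ∈ Bc B Q T U F P C, sb j ≤ 8 ∧ sb j ≤ jC B Q j C) :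
    Nd C.card (Sp.Uin U (slf B F) C).card (Sp.Kin (Rg B Q T U F) (slj B Q F) C).card
        (lsC B Q T U F C) (Frm.xC B Q T (Rg B Q T U F) U F C)
        (∑ L ∈ C, fs B Q L) (∑ L ∈ C, (ee B Q L : ℤ)) (∑ L ∈ C, (nt B L 1 : ℤ))
        (∑ L ∈ C, (L.card : ℤ)) (A.filter (fun k => 1 ≤ jC B Q k C)).card
        (Bc B Q T U F P C).card
        (∑ k ∈ A, (jC B Q k C : ℤ)) (∑ k ∈ A, π k)
        (∑ j ∈ Bc B Q T U F P C, (sb j : ℤ)) (xA B Q T U F P C A sb) := by
  classical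
  obtain ⟨n1, n2, n3, n4, n5, n6, n7, n8, n9, n10, n11, n12, n13, n14, n15, n16, n17, n18, n19,
    n20, n21⟩ := s.nm hC
  rw [s.sum_at2 hC] at n2
  have hsub : Bc B Q T U F P C ⊆ Trs B Q T (Rg B Q T U F) U F P := filter_subset _ _
  have hsw : ∑ j ∈ Bc B Q T U F P C, (sb j : ℤ) ≤
      ∑ j ∈ Trs B Q T (Rg B Q T U F) U F P, (jC B Q j C : ℤ) := by
    have e1 : ∑ j ∈ Bc B Q T U F P C, (sb j : ℤ) ≤ ∑ j ∈ Bc B Q T U F P C, (jC B Q j C : ℤ) :=
      sum_le_sum fun j hj => by exact_mod_cast (hsb j hj).2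
    exact e1.trans (sum_le_sum_of_subset_of_nonneg hsub fun _ _ _ => by positivity)
  have hee : 11 * ∑ L ∈ C, (ee B Q L : ℤ) ≤ 2 * ∑ L ∈ C, fs B Q L := by
    rw [mul_sum, mul_sum]
    exact sum_le_sum fun L hL => s.viol.ee_fs (s.frm.FQ ((s.part.ptn.vc C hC).sub hL))
  have hA2 : ∑ k ∈ aC B Q T U F P C, (jC B Q k C : ℤ) =
      ∑ k ∈ aC B Q T U F P C \ A, (jC B Q k C : ℤ) + ∑ k ∈ A, (jC B Q k C : ℤ) :=
    (sum_sdiff hA).symm
  have hx1 : 0 ≤ ∑ k ∈ aC B Q T U F P C \ A, (jC B Q k C : ℤ) :=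
    sum_nonneg fun _ _ => by positivity
  have hfil : ∀ (m : ℤ), 0 ≤ m → (∀ k ∈ A, m ≤ π k) → ∀ c : ι → ℤ, (∀ k ∈ A, 0 ≤ c k) →
      (∀ k ∈ A, m + c k ≤ π k) →
      m * ((A.filter (fun k => 1 ≤ jC B Q k C)).card : ℤ) + ∑ k ∈ A, c k ≤ ∑ k ∈ A, π k := by
    intro m hm _ c hc h
    have h1 : ∑ k ∈ A, ((if 1 ≤ jC B Q k C then m else 0) + c k) ≤ ∑ k ∈ A, π k := by
      refine sum_le_sum fun k hk => ?_
      have := h k hk
      split_ifs <;> linarith
    rw [sum_add_distrib, ← sum_filter, sum_const, nsmul_eq_mul, mul_comm] at h1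
    exact h1
  refine ⟨?_, hee, n4, by linarith, n6, n7, n8, n9, n10, n11, n12, n13,
    n14, n15, n16, n20, n21, by positivity, by positivity, sum_nonneg fun _ _ => by positivity,
    ?_, ?_, ?_, ?_, ?_, ?_⟩
  · unfold xA
    linarith
  · unfold xA
    linarith
  · have h4 : ∑ k ∈ A, (if 1 ≤ jC B Q k C then (1 : ℤ) else 0) ≤ ∑ k ∈ A, (jC B Q k C : ℤ) := by
      refine sum_le_sum fun k _ => ?_
      split_ifs with h5
      · exact_mod_cast h5
      · positivity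
    rw [← sum_filter, sum_const, nsmul_eq_mul, mul_one] at h4
    exact h4
  · have h4 := sum_le_sum fun j hj => (hsb j hj).1
    rw [sum_const, smul_eq_mul, mul_comm] at h4
    exact_mod_cast h4
  · have h4 := hfil 399 (by norm_num) (fun k hk => (hπ k hk).1) (fun _ => 0) (fun _ _ => le_refl _)
      (fun k hk => by
        have := (hπ k hk).1
        linarith)
    rw [sum_const_zero, add_zero] at h4
    exact h4
  · have h4 := sum_le_sum fun k hk => (hπ k hk).2.1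
    rw [← mul_sum] at h4
    exact h4
  · have h4 := hfil 381 (by norm_num) (fun k hk => by
        have := (hπ k hk).1
        linarith) (fun k => 18 * (jC B Q k C : ℤ)) (fun _ _ => by positivity)
      (fun k hk => (hπ k hk).2.2)
    rw [← mul_sum] at h4
    exact h4

/-- **the outer hits and free places of a set of leaves** in terms of the numbers of the class. -/
theorem oS_le (s : Stg B Q T U F P a) (hC : C ∈ P) (hij : i ≠ j)
    (hK : Sp.Kin (Rg B Q T U F) (slj B Q F) C = {i, j}) {A : Finset ι}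
    (hA : A ⊆ aC B Q T U F P C) {sb : ι → ℕ} {S : Finset (Finset V)} (hS : S ⊆ C)
    (hAS : ∀ k ∈ A, ∀ L ∈ S, jh B Q k L = 0)
    (hBS : ∀ k ∈ Bc B Q T U F P C, sb k + ∑ L ∈ S, jh B Q k L ≤ jC B Q k C) :
    ∑ L ∈ S, (oh B Q T U F C i j L + fs B Q L) ≤
      xA B Q T U F P C A sb + ∑ L ∈ C, fs B Q L := by
  classical
  have hCF : C ⊆ F := (s.part.ptn.vc C hC).sub
  have h1 := s.oh_le hC hij hK hS
  have h2 : ∑ L ∈ S, fs B Q L ≤ ∑ L ∈ C, fs B Q L := by
    refine sum_le_sum_of_subset_of_nonneg hS fun L hL _ => ?_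
    have h3 := (s.one (hCF hL)).f0
    have h4 := (s.one (hCF hL)).e0
    linarith
  have h3 : ∑ k ∈ aC B Q T U F P C, ∑ L ∈ S, (jh B Q k L : ℤ) ≤
      ∑ k ∈ aC B Q T U F P C \ A, (jC B Q k C : ℤ) := by
    rw [← sum_sdiff hA]
    have h4 : ∑ k ∈ A, ∑ L ∈ S, (jh B Q k L : ℤ) = 0 :=
      sum_eq_zero fun k hk => sum_eq_zero fun L hL => by rw [hAS k hk L hL]; rfl
    have h5 : ∑ k ∈ aC B Q T U F P C \ A, ∑ L ∈ S, (jh B Q k L : ℤ) ≤
        ∑ k ∈ aC B Q T U F P C \ A, (jC B Q k C : ℤ) := by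
      refine sum_le_sum fun k _ => ?_
      unfold jC
      push_cast
      exact sum_le_sum_of_subset_of_nonneg hS fun _ _ _ => by positivity
    linarith
  have hsub : Bc B Q T U F P C ⊆ Trs B Q T (Rg B Q T U F) U F P := filter_subset _ _
  have h6 : ∑ k ∈ Trs B Q T (Rg B Q T U F) U F P, ∑ L ∈ S, (jh B Q k L : ℤ) ≤
      ∑ j ∈ Trs B Q T (Rg B Q T U F) U F P, (jC B Q j C : ℤ) -
        ∑ j ∈ Bc B Q T U F P C, (sb j : ℤ) := by
    rw [← sum_sdiff hsub, ← sum_sdiff hsub (f := fun j => (jC B Q j C : ℤ))]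
    have h7 : ∑ k ∈ Bc B Q T U F P C, ∑ L ∈ S, (jh B Q k L : ℤ) ≤
        ∑ j ∈ Bc B Q T U F P C, ((jC B Q j C : ℤ) - (sb j : ℤ)) := by
      refine sum_le_sum fun k hk => ?_
      have h8 := hBS k hk
      have h9 : ((sb k + ∑ L ∈ S, jh B Q k L : ℕ) : ℤ) ≤ (jC B Q k C : ℤ) := by exact_mod_cast h8
      push_cast at h9
      linarith
    rw [sum_sub_distrib] at h7
    have h8 : ∑ k ∈ Trs B Q T (Rg B Q T U F) U F P \ Bc B Q T U F P C,
        ∑ L ∈ S, (jh B Q k L : ℤ) ≤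
        ∑ k ∈ Trs B Q T (Rg B Q T U F) U F P \ Bc B Q T U F P C, (jC B Q k C : ℤ) := by
      refine sum_le_sum fun k _ => ?_
      unfold jC
      push_cast
      exact sum_le_sum_of_subset_of_nonneg hS fun _ _ _ => by positivity
    linarith
  rw [sum_add_distrib]
  unfold xA
  linarith

/-- the outer hits and free places of the class. -/
theorem oS_all (s : Stg B Q T U F P a) (hC : C ∈ P) (hij : i ≠ j)
    (hK : Sp.Kin (Rg B Q T U F) (slj B Q F) C = {i, j}) {A : Finset ι}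
    (hA : A ⊆ aC B Q T U F P C) (sb : ι → ℕ) :
    ∑ L ∈ C, (oh B Q T U F C i j L + fs B Q L) ≤
      ∑ k ∈ A, (jC B Q k C : ℤ) + ∑ j ∈ Bc B Q T U F P C, (sb j : ℤ) +
        xA B Q T U F P C A sb + ∑ L ∈ C, fs B Q L := by
  classical
  have h1 := s.oh_le hC hij hK (Subset.refl C)
  have h2 : ∀ k : ι, ∑ L ∈ C, (jh B Q k L : ℤ) = (jC B Q k C : ℤ) := by
    intro k
    unfold jC
    push_cast
    rfl
  simp only [h2] at h1
  rw [← sum_sdiff hA] at h1
  rw [sum_add_distrib]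
  unfold xA
  linarith

end Stg

end Pool.Agent.Hyp6
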