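import Pool.Agent.Hyp6.L3W4

/-!
# HYP6 L3W5: the claims on the inside triples of a composite class

`StgR.host_two1`: the host leaf of a triple with claims which sees no point leaf of a claim. `StgR.don1`:
at most eight hits and claims, or the other two points see one parallel class. `StgR.no_see`: an inside
triple of a composite class sees no point leaf of a claim.
-/

set_option autoImplicit false

namespace Pool.Agent.Hyp6

open Finset Pool.Agent.Hyp5 Rt

universe u v

variable {V : Type v} [DecidableEq V] {ι : Type u} [Fintype ι] [DecidableEq ι]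
  {B : ι → Finset V}

/-- the triple sees no point leaf of a claim. -/
def Nse (B : ι → Finset V) (Q : Finset V) (T : Finset ι) (U : Finset V)
    (F : Finset (Finset V)) (P : Finset (Finset (Finset V))) (k : ι) : Prop :=
  ∀ (j i k0 : ι) (a b c x : V), Pcl B Q T U F P j i k0 a b c x → k ≠ j →
    ∀ v ∈ B k ∩ Q, {x} ∉ slf B F v

namespace StgR

variable {Q U : Finset V} {T : Finset ι} {F : Finset (Finset V)}
  {P : Finset (Finset (Finset V))} {a : V → Finset (Finset V) → ℕ} {L : Finset V} {k : ι}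

/-- an inside triple of a composite class sees no point leaf of a claim. -/
theorem no_see (s : StgR B Q T U F P a) {C : Finset (Finset V)} (hC : C ∈ P) (h2 : 2 ≤ C.card)
    (hk : k ∈ Sp.Kin (Rg B Q T U F) (slj B Q F) C) : Nse B Q T U F P k := by
  intro j i k0 a b c x h _ v hv hx
  have h1 : {x} ∈ C := (s.toStg.kin.1 hk).2.2.2.2 (mem_biUnion.2 ⟨v, hv, hx⟩)
  have h3 : ({{x}} : Finset (Finset V)) ≠ C := by
    rintro rfl
    rw [card_singleton] at h2
    omega
  exact disjoint_left.1 (s.part.ptn.dj _ h.xP C hC h3) (mem_singleton_self _) h1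

/-- **the mirror rule for a claim**, second form. -/
theorem mir_one1 (s : StgR B Q T U F P a) (hL : {L} ∈ par0 B U F) (h3 : L.card ≤ 3)
    (hkT : k ∈ T) (hk : Nse B Q T U F P k) {v p q : V} (hT : B k ∩ Q = {q, p, v}) (hpv : p ≠ v)
    (hs : L ∈ slf B F q)
    (hc : 0 < ncp B Q (Kf B Q T U F P) k v) (hp : slf B F p ⊆ {L}) {l : ι} (hq : q ∈ B l) :
    (B l ∩ L).card ≤ 1 := by
  obtain ⟨k0, hk0, hc0, hvk0⟩ := ncp_pos (B := B) hc.ne'
  obtain ⟨j', i', a', b', c', x, h⟩ := Kf_cla.1 hk0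
  have hkj := h.1.claim_ne hc0
  exact h.1.fpb.mirror_single s.mtr h.1.all hkT hkj hT hpv hvk0 (slf_sub hs)
    (fun he => hk _ _ _ _ _ _ _ h.1 hkj q (by rw [hT]; simp) (he ▸ hs)) h3
    (s.toStg.free_own hL) hp hq

/-- **the mirror rule for a claim, pairs**, second form. -/
theorem mir_ref1 (s : StgR B Q T U F P a) (hL : {L} ∈ par0 B U F)
    (hkT : k ∈ T) (hk : Nse B Q T U F P k) {v p q : V} (hT : B k ∩ Q = {p, q, v})
    (hs : L ∈ slf B F q)
    (hc : 0 < ncp B Q (Kf B Q T U F P) k v) : rho B L + 1 ≤ rho B (insert p (insert q L)) := by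
  obtain ⟨k0, hk0, hc0, hvk0⟩ := ncp_pos (B := B) hc.ne'
  obtain ⟨j', i', a', b', c', x, h⟩ := Kf_cla.1 hk0
  have hkj := h.1.claim_ne hc0
  exact h.1.fpb.mirror_ref s.mtr hkT hkj hT hvk0 (slf_sub hs)
    (fun he => hk _ _ _ _ _ _ _ h.1 hkj q (by rw [hT]; simp) (he ▸ hs)) (s.toStg.free_own hL)

/-- **the host leaf**, second form. -/
theorem host_two1 (s : StgR B Q T U F P a) (hL : {L} ∈ par0 B U F) (h3 : L.card ≤ 3)
    (hkT : k ∈ T) (hk : Nse B Q T U F P k) {v p q : V} (hT : B k ∩ Q = {p, q, v})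
    (hvp : v ≠ p) (hvq : v ≠ q) (hc : 0 < ncp B Q (Kf B Q T U F P) k v)
    (hp : slf B F p ⊆ {L}) (hq : slf B F q ⊆ {L}) :
    uh B p L + uh B q L ≤ nt B L 1 := by
  have hLF : L ∈ F := (par0_spec (B := B) U F).sub hL (mem_singleton_self L)
  have hT' : B k ∩ Q = {q, p, v} := by rw [hT, insert_comm]
  have hpk : p ∈ B k ∩ Q := by rw [hT]; simp
  have hqk : q ∈ B k ∩ Q := by rw [hT]; simp
  have e : ∀ w, uh B w L = (Ez B L w).card := fun w => by
    unfold uh
    rw [hit_eq_Ez, sum_singleton]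
  have key : ∀ w ∈ B k ∩ Q, (∀ l, w ∈ B l → L ∈ slf B F w → (B l ∩ L).card ≤ 1) →
      Ez B L w ⊆ trs B L 1 := by
    intro w hw h i hi
    obtain ⟨h1, h2⟩ := mem_Ez.1 hi
    have h4 : L ∈ slf B F w := by
      refine (uh_pos hLF (s.frm.T_notin hkT hw hLF)).1 ?_
      rw [e]
      exact card_pos.2 ⟨i, hi⟩
    have h5 := h i h1 h4
    have h6 := card_pos.2 h2
    exact mem_trs.2 (by omega)
  have h1 : Ez B L p ⊆ trs B L 1 := key p hpk fun l hl hs =>
    s.mir_one1 hL h3 hkT hk hT hvq.symm hs hc hq hl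
  have h2 : Ez B L q ⊆ trs B L 1 := key q hqk fun l hl hs =>
    s.mir_one1 hL h3 hkT hk hT' hvp.symm hs hc hp hl
  have hd : Disjoint (Ez B L p) (Ez B L q) := by
    rw [disjoint_left]
    intro i hi hi'
    obtain ⟨h4, z, hz⟩ := mem_Ez.1 hi
    obtain ⟨h5, _⟩ := mem_Ez.1 hi'
    obtain ⟨h6, h7⟩ := mem_inter.1 hz
    have hs : L ∈ slf B F q := by
      refine (uh_pos hLF (s.frm.T_notin hkT hqk hLF)).1 ?_
      rw [e]
      exact card_pos.2 ⟨i, hi'⟩
    have h8 := s.mir_ref1 hL hkT hk hT hs hc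
    have h9 := rho_erase_fc (s.frm.fcF hLF).1 (s.frm.fcF hLF).2 h7
    have hcL : Cov B (L.erase z) := (s.frm.covF L hLF).mono (erase_subset _ _)
    have hcB : Cov B ({z, p, q} : Finset V) := by
      intro w hw
      refine ⟨i, ?_⟩
      simp only [mem_insert, mem_singleton] at hw
      rcases hw with rfl | rfl | rfl
      · exact h6
      · exact h4
      · exact h5
    have h10 : rho B ({z, p, q} : Finset V) ≤ 1 := by
      have h11 : ({z, p, q} : Finset V) ⊆ ({i} : Finset ι).biUnion B := by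
        intro w hw
        rw [singleton_biUnion]
        simp only [mem_insert, mem_singleton] at hw
        rcases hw with rfl | rfl | rfl
        · exact h6
        · exact h4
        · exact h5
      simpa using rho_le h11
    have h12 : insert p (insert q L) ⊆ L.erase z ∪ {z, p, q} := by
      intro w hw
      simp only [mem_insert] at hw
      rw [mem_union, mem_erase]
      simp only [mem_insert, mem_singleton]
      by_cases hwz : w = z
      · tauto
      · tauto
    have h13 := rho_mono h12 (hcL.union hcB)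
    have h14 := rho_union_le hcL hcB
    omega
  rw [e, e, ← card_union_of_disjoint hd]
  exact card_le_card (union_subset h1 h2)

/-- **a triple with claims which sees no point leaf of a claim**: at most eight hits and claims, or all
but four hits and claims are hits at one parallel class, at most `nt` if this is a small leaf. -/
theorem don1 (s : StgR B Q T U F P a) (hkT : k ∈ T) (hk : Nse B Q T U F P k)
    (hc : 0 < ncl B Q T U F P k) :
    ∑ L ∈ F, jh B Q k L + ncl B Q T U F P k ≤ 8 ∨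
    ∃ D ∈ par0 B U F, (∃ L ∈ D, L ∈ slj B Q F k) ∧
      ∑ L ∈ F, jh B Q k L + ncl B Q T U F P k ≤ 4 + ∑ L ∈ D, jh B Q k L ∧
      ∀ L, D = {L} → L.card ≤ 3 →
        ∑ L ∈ F, jh B Q k L + ncl B Q T U F P k ≤ 4 + nt B L 1 := by
  classical
  rcases s.four_or_eight hkT hc with ⟨v, hv, h1, h2, h3⟩ | h3
  swap
  · exact Or.inl h3
  obtain ⟨k0, hk0, hc0, hvk0⟩ := ncp_pos (B := B) (by omega :
    ncp B Q (Kf B Q T U F P) k v ≠ 0)
  obtain ⟨j, i, a', b, c, x, h⟩ := Kf_cla.1 hk0
  have hkj := h.1.claim_ne hc0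
  obtain ⟨p, q, hT, hvp, hvq, hpq⟩ : ∃ b c, B k ∩ Q = {v, b, c} ∧ v ≠ b ∧ v ≠ c ∧ b ≠ c := by
    obtain ⟨y1, y2, y3, hT, hxy, hxz, hyz⟩ := s.frm.three_points hkT
    rw [hT] at hv
    simp only [mem_insert, mem_singleton] at hv
    rcases hv with rfl | rfl | rfl
    · exact ⟨y2, y3, hT, hxy, hxz, hyz⟩
    · refine ⟨y1, y3, ?_, hxy.symm, hyz, hxz⟩
      rw [hT]
      ext v
      simp only [mem_insert, mem_singleton]
      tauto
    · refine ⟨y1, y2, ?_, hxz.symm, hyz.symm, hxy⟩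
      rw [hT]
      ext v
      simp only [mem_insert, mem_singleton]
      tauto
  have hp : p ∈ B k ∩ Q := by rw [hT]; simp
  have hq : q ∈ B k ∩ Q := by rw [hT]; simp
  have hsum : ∑ L ∈ F, jh B Q k L = ∑ L ∈ F, uh B v L + (∑ L ∈ F, uh B p L +
      ∑ L ∈ F, uh B q L) := by
    rw [s.jh_pts, hT, sum_insert (by simp [hvp, hvq]), sum_pair hpq]
  have hz : ∀ w ∈ B k ∩ Q, slf B F w = ∅ → ∑ L ∈ F, uh B w L = 0 := by
    intro w hw h4
    refine sum_eq_zero fun L hL => uh_zero hL (s.frm.T_notin hkT hw hL) ?_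
    rw [h4]
    exact notMem_empty _
  have h4p := s.hit_ncp hkT hp
  have h4q := s.hit_ncp hkT hq
  by_cases hpd : slf B F p = ∅
  · left
    have := hz p hp hpd
    omega
  by_cases hqd : slf B F q = ∅
  · left
    have := hz q hq hqd
    omega
  right
  have hnx : ∀ w ∈ B k ∩ Q, slf B F w ≠ ∅ → ¬ slf B F w ⊆ {{x}} := by
    intro w hw hd h4
    obtain ⟨L, hL⟩ := nonempty_iff_ne_empty.2 hd
    exact hk _ _ _ _ _ _ _ h.1 hkj w hw ((mem_singleton.1 (h4 hL)) ▸ hL)
  rcases h.1.fpb.donor s.frm.sur s.par (h.1.xpar s.toStg) hkT hkj hT hvp hvq hpq hvk0 with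
    h4 | h4 | ⟨D, hD, h4, h5⟩
  · exact absurd h4 (hnx p hp hpd)
  · exact absurd h4 (hnx q hq hqd)
  have h6 : ∀ w, w ∈ B k ∩ Q → slf B F w ⊆ insert {x} D → slf B F w ⊆ D := by
    intro w hw h5 L hL
    rcases mem_insert.1 (h5 hL) with h6 | h6
    · exact (hk _ _ _ _ _ _ _ h.1 hkj w hw (h6 ▸ hL)).elim
    · exact h6
  have hpD := h6 p hp h4
  have hqD := h6 q hq h5
  have hDF : D ⊆ F := s.par.sub hD
  have hfull : ∀ w ∈ B k ∩ Q, slf B F w ⊆ D → ∑ L ∈ F, uh B w L = ∑ L ∈ D, uh B w L := by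
    intro w hw h7
    refine (sum_subset hDF fun L hL hn => ?_).symm
    exact uh_zero hL (s.frm.T_notin hkT hw hL) fun h8 => hn (h7 h8)
  refine ⟨D, hD, ?_, ?_, ?_⟩
  · obtain ⟨L, hL⟩ := nonempty_iff_ne_empty.2 hpd
    exact ⟨L, hpD hL, mem_biUnion.2 ⟨p, hp, hL⟩⟩
  · have h7 : ∑ L ∈ D, uh B p L + ∑ L ∈ D, uh B q L ≤ ∑ L ∈ D, jh B Q k L := by
      rw [← sum_add_distrib]
      refine sum_le_sum fun L _ => ?_
      rw [jh_sum, hT, sum_insert (by simp [hvp, hvq]), sum_pair hpq]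
      omega
    rw [hsum, hfull p hp hpD, hfull q hq hqD]
    omega
  · rintro L rfl hL3
    have hT' : B k ∩ Q = {p, q, v} := by
      rw [hT]
      ext w
      simp only [mem_insert, mem_singleton]
      tauto
    have h7 := s.host_two1 hD hL3 hkT hk hT' hvp hvq h2 hpD hqD
    rw [hsum, hfull p hp hpD, hfull q hq hqD, sum_singleton, sum_singleton]
    omega

end StgR

end Pool.Agent.Hyp6
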