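import Pool.Agent.Hyp6.L3W5
import Pool.Agent.Hyp6.L3W3

/-!
# HYP6 L3W6: the leaves of a class of rank two with two inside triples

`Wd2`: the data of the class. `Wd2.S2`: the outer hits and free places outside of a parallel class, `Wd2.o31`,
`Wd2.o31'`: at leaves of type (3;1). `Wd2.three`, `Wd2.four`, `Wd2.five`: the sum over the class. `Wd2.D0`: the
parallel class of a line triple or centre.
-/

set_option autoImplicit false

namespace Pool.Agent.Hyp6

open Finset Pool.Agent.Hyp5 Rt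

universe u v

variable {V : Type v} [DecidableEq V] {ι : Type u} [Fintype ι] [DecidableEq ι]
  {B : ι → Finset V} {Q U : Finset V} {T : Finset ι} {F : Finset (Finset V)}
  {P : Finset (Finset (Finset V))} {a : V → Finset (Finset V) → ℕ} {C : Finset (Finset V)} {i j : ι}
  {A : Finset ι} {sb : ι → ℕ}

/-- the data of a class of rank two with two inside triples. -/
structure Wd2 (B : ι → Finset V) (Q : Finset V) (T : Finset ι) (U : Finset V)
    (F : Finset (Finset V)) (P : Finset (Finset (Finset V))) (a : V → Finset (Finset V) → ℕ)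
    (C : Finset (Finset V)) (i j : ι) (A : Finset ι) (sb : ι → ℕ) : Prop where
  s : StgR B Q T U F P a
  few : Few B Q T F
  g31 : G31 B Q T U F
  hC : C ∈ P
  ij : i ≠ j
  K : Sp.Kin (Rg B Q T U F) (slj B Q F) C = {i, j}
  r : (C.card : ℤ) - (Sp.Uin U (slf B F) C).card = 2
  A : A ⊆ aC B Q T U F P C
  sb : ∀ k ∈ Bc B Q T U F P C, sb k ≤ 8 ∧ sb k ≤ jC B Q k C ∧
      ∃ D ∈ par0 B U F, D ⊆ C ∧ sb k + ∑ L ∈ C \ D, jh B Q k L ≤ jC B Q k C

/-- the outer hits and free places at a leaf. -/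
noncomputable def oF (B : ι → Finset V) (Q : Finset V) (T : Finset ι) (U : Finset V)
    (F C : Finset (Finset V)) (i j : ι) (L : Finset V) : ℤ := oh B Q T U F C i j L + fs B Q L

namespace Wd2

theorem CF (d : Wd2 B Q T U F P a C i j A sb) : C ⊆ F := (d.s.part.ptn.vc C d.hC).sub

theorem iT (d : Wd2 B Q T U F P a C i j A sb) : i ∈ T :=
  (d.s.toStg.kin.1 (by rw [d.K]; simp : i ∈ Sp.Kin (Rg B Q T U F) (slj B Q F) C)).1

theorem jT (d : Wd2 B Q T U F P a C i j A sb) : j ∈ T :=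
  (d.s.toStg.kin.1 (by rw [d.K]; simp : j ∈ Sp.Kin (Rg B Q T U F) (slj B Q F) C)).1

/-- outside of a parallel class there are at least two outer hits or free places. -/
theorem S2 (d : Wd2 B Q T U F P a C i j A sb) {D : Finset (Finset V)} (hD : D ∈ par0 B U F)
    (hDC : D ⊆ C) : 2 ≤ ∑ L ∈ C \ D, oF B Q T U F C i j L :=
  d.s.toStg.S_two d.few d.g31 d.hC (by unfold Sp.fU; exact d.r) d.iT d.jT d.ij hD hDC

theorem o31 (d : Wd2 B Q T U F P a C i j A sb) {L : Finset V} (hL : L ∈ C) (h3 : L.card = 3)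
    (h1 : nt B L 1 = 1) : 2 ≤ oF B Q T U F C i j L :=
  (d.s.toStg.o31 d.g31 d.hC hL d.iT d.jT d.ij h3 h1).1

theorem o31' (d : Wd2 B Q T U F P a C i j A sb) {L : Finset V} (hL : L ∈ C) (h3 : L.card = 3)
    (h1 : nt B L 1 = 1) (hn : ∀ u ∈ Sp.Uin U (slf B F) C, L ∉ slf B F u) :
    3 ≤ oF B Q T U F C i j L :=
  (d.s.toStg.o31 d.g31 d.hC hL d.iT d.jT d.ij h3 h1).2 hn

theorem fs0 (d : Wd2 B Q T U F P a C i j A sb) {L : Finset V} (hL : L ∈ C) : 0 ≤ fs B Q L := by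
  have h3 := (d.s.toStg.one (d.CF hL)).f0
  have h4 := (d.s.toStg.one (d.CF hL)).e0
  linarith

theorem o0 (d : Wd2 B Q T U F P a C i j A sb) {L : Finset V} (hL : L ∈ C) :
    0 ≤ oF B Q T U F C i j L :=
  add_nonneg (d.s.toStg.oh_nonneg (d.CF hL) d.iT d.jT d.ij) (d.fs0 hL)

/-- every leaf of the class is in a parallel class inside the class. -/
theorem cls (d : Wd2 B Q T U F P a C i j A sb) {L : Finset V} (hL : L ∈ C) :
    ∃ D ∈ par0 B U F, D ⊆ C ∧ L ∈ D := by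
  obtain ⟨D, hD, hLD⟩ := d.s.toStg.par.cls (d.CF hL)
  obtain ⟨C', hC', hDC⟩ := d.s.toStg.sub_class hD
  have h1 : C' = C := by
    by_contra hne
    exact disjoint_left.1 (d.s.part.ptn.dj C' hC' C d.hC hne) (hDC hLD) hL
  exact ⟨D, hD, h1 ▸ hDC, hLD⟩

theorem split (_d : Wd2 B Q T U F P a C i j A sb) {D : Finset (Finset V)} (hD : D ⊆ C) :
    ∑ L ∈ C, oF B Q T U F C i j L =
      ∑ L ∈ C \ D, oF B Q T U F C i j L + ∑ L ∈ D, oF B Q T U F C i j L :=
  (sum_sdiff hD).symm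

theorem ge_one (d : Wd2 B Q T U F P a C i j A sb) {S : Finset (Finset V)} (hS : S ⊆ C)
    {L : Finset V} (hL : L ∈ S) : oF B Q T U F C i j L ≤ ∑ L ∈ S, oF B Q T U F C i j L :=
  single_le_sum (f := fun L => oF B Q T U F C i j L) (fun _ hM => d.o0 (hS hM)) hL

/-- a leaf with at least `m` outer hits and free places. -/
theorem plus (d : Wd2 B Q T U F P a C i j A sb) {L : Finset V} (hL : L ∈ C) {m : ℤ}
    (h : m ≤ oF B Q T U F C i j L) : m + 2 ≤ ∑ L ∈ C, oF B Q T U F C i j L := by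
  obtain ⟨D, hD, hDC, hLD⟩ := d.cls hL
  have h1 := d.S2 hD hDC
  have h2 := d.split hDC
  have h3 := d.ge_one hDC hLD
  linarith

/-- at least three outer hits and free places. -/
theorem three (d : Wd2 B Q T U F P a C i j A sb) : 3 ≤ ∑ L ∈ C, oF B Q T U F C i j L := by
  by_contra hlt
  have h1 : ∀ L ∈ C, oF B Q T U F C i j L = 0 := by
    intro L hL
    have h2 := d.plus hL (le_refl _)
    have h3 := d.o0 hL
    omega
  obtain ⟨L, hL⟩ := (d.s.part.ptn.vc C d.hC).ne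
  have h2 := d.plus hL (m := 0) (d.o0 hL)
  rw [sum_eq_zero h1] at h2
  omega

/-- two parallel classes. -/
theorem two_par (d : Wd2 B Q T U F P a C i j A sb) {D : Finset (Finset V)} (hD : D ∈ par0 B U F)
    (hDC : D ⊆ C) (hE : C \ D ∈ par0 B U F) : 4 ≤ ∑ L ∈ C, oF B Q T U F C i j L := by
  have h1 := d.S2 hD hDC
  have h2 := d.S2 hE sdiff_subset
  rw [Finset.sdiff_sdiff_eq_self hDC] at h2
  have h3 := d.split hDC
  linarith

/-- the numbers of a leaf. -/
theorem one (d : Wd2 B Q T U F P a C i j A sb) {L : Finset V} (hL : L ∈ C) :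
    NumL (Pp B L) (nt B L 1) L.card (fs B Q L) (ee B Q L) (hit B U L)
      (∑ j ∈ T, (jh B Q j L : ℤ)) := d.s.toStg.one (d.CF hL)

/-- the single blocks of the leaves of the class. -/
theorem hA (d : Wd2 B Q T U F P a C i j A sb) :
    (C.card : ℤ) + 2 * ∑ L ∈ C, (ee B Q L : ℤ) ≤ ∑ L ∈ C, (nt B L 1 : ℤ) := by
  have h1 : ∀ L ∈ C, (1 : ℤ) + 2 * (ee B Q L : ℤ) ≤ (nt B L 1 : ℤ) := by
    intro L hL
    have h2 := d.s.frm.two_ee_hit (d.CF hL)
    have h3 := (d.one hL).no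
    omega
  have h2 := sum_le_sum h1
  rw [sum_add_distrib, sum_const, nsmul_eq_mul, mul_one, ← mul_sum] at h2
  exact h2

/-- a double single means many free places. -/
theorem hE (d : Wd2 B Q T U F P a C i j A sb) (he : 1 ≤ ∑ L ∈ C, (ee B Q L : ℤ)) :
    8 ≤ ∑ L ∈ C, oF B Q T U F C i j L := by
  obtain ⟨L, hL, h1⟩ : ∃ L ∈ C, 1 ≤ (ee B Q L : ℤ) := by
    by_contra hcon
    push Not at hcon
    have h2 : ∑ L ∈ C, (ee B Q L : ℤ) ≤ ∑ L ∈ C, (0 : ℤ) := sum_le_sum fun L hL => by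
      have := hcon L hL
      omega
    rw [sum_const_zero] at h2
    omega
  have h2 := d.s.viol.ee_fs (d.s.frm.FQ (d.CF hL))
  have h3 := d.s.toStg.oh_nonneg (C := C) (d.CF hL) d.iT d.jT d.ij
  have h4 : (6 : ℤ) ≤ oF B Q T U F C i j L := by
    unfold oF
    omega
  have h5 := d.plus hL h4
  linarith

theorem jh_zero (d : Wd2 B Q T U F P a C i j A sb) {k : ι} (h : jC B Q k C = 0) {L : Finset V}
    (hL : L ∈ C) : jh B Q k L = 0 := by
  have _ := d.s
  unfold jC at h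
  exact sum_eq_zero_iff.1 h L hL

/-- without hits of the paid triples and without centre. -/
theorem le0 (d : Wd2 B Q T U F P a C i j A sb) (hq : ∀ k ∈ A, jC B Q k C = 0)
    (hb : Bc B Q T U F P C = ∅) : ∑ L ∈ C, oF B Q T U F C i j L ≤
      xA B Q T U F P C A sb + ∑ L ∈ C, fs B Q L :=
  d.s.toStg.oS_le d.hC d.ij d.K d.A (Subset.refl C) (fun k hk L hL => d.jh_zero (hq k hk) hL)
    (fun k hk => by rw [hb] at hk; exact absurd hk (notMem_empty k))

/-- **the parallel class of one line triple or centre**. -/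
theorem D0 (d : Wd2 B Q T U F P a C i j A sb)
    (h : (A.filter (fun k => 1 ≤ jC B Q k C)).card + (Bc B Q T U F P C).card = 1) :
    ∃ D ∈ par0 B U F, D ⊆ C ∧ ∑ L ∈ C \ D, oF B Q T U F C i j L ≤
      xA B Q T U F P C A sb + ∑ L ∈ C, fs B Q L ∧
      ∑ k ∈ Bc B Q T U F P C, (sb k : ℤ) ≤ (∑ k ∈ Bc B Q T U F P C, ∑ L ∈ D, jh B Q k L : ℕ) ∧
      (Bc B Q T U F P C).card ≤ 1 ∧ ∀ k ∈ Bc B Q T U F P C, k ∈ T := by
  classical
  have hBT : ∀ k ∈ Bc B Q T U F P C, k ∈ T := fun k hk =>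
    (mem_sdiff.1 (mem_sdiff.1 (mem_filter.1 hk).1).1).1
  have hz : ∀ k ∈ A, k ∉ A.filter (fun k => 1 ≤ jC B Q k C) → jC B Q k C = 0 := by
    intro k hk h1
    by_contra h2
    exact h1 (mem_filter.2 ⟨hk, by omega⟩)
  rcases Nat.eq_zero_or_pos (Bc B Q T U F P C).card with hb | hb
  · have hb0 := card_eq_zero.1 hb
    obtain ⟨k0, hk0⟩ := card_eq_one.1 (by omega :
      (A.filter (fun k => 1 ≤ jC B Q k C)).card = 1)
    have hk0A : k0 ∈ A := (mem_filter.1 (by rw [hk0]; exact mem_singleton_self k0 :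
      k0 ∈ A.filter (fun k => 1 ≤ jC B Q k C))).1
    obtain ⟨D, hD, hDC, h1⟩ := d.s.toStg.line_par d.hC (d.A hk0A)
    refine ⟨D, hD, hDC, d.s.toStg.oS_le d.hC d.ij d.K d.A sdiff_subset (fun k hk L hL => ?_)
      (fun k hk => by rw [hb0] at hk; exact absurd hk (notMem_empty k)), ?_, by omega, hBT⟩
    · by_cases hkk : k = k0
      · rw [hkk]
        exact h1 L hL
      · exact d.jh_zero (hz k hk (by rw [hk0, mem_singleton]; exact hkk)) (mem_sdiff.1 hL).1
    · rw [hb0, sum_empty, sum_empty]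
      norm_num
  · have hq0 : A.filter (fun k => 1 ≤ jC B Q k C) = ∅ := card_eq_zero.1 (by omega)
    obtain ⟨k0, hk0⟩ := card_eq_one.1 (by omega : (Bc B Q T U F P C).card = 1)
    have hk0B : k0 ∈ Bc B Q T U F P C := by rw [hk0]; exact mem_singleton_self k0
    obtain ⟨_, _, D, hD, hDC, h1⟩ := d.sb k0 hk0B
    refine ⟨D, hD, hDC, d.s.toStg.oS_le d.hC d.ij d.K d.A sdiff_subset (fun k hk L hL => ?_)
      (fun k hk => ?_), ?_, by omega, hBT⟩
    · exact d.jh_zero (hz k hk (by rw [hq0]; exact notMem_empty k)) (mem_sdiff.1 hL).1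
    · rw [hk0, mem_singleton] at hk
      rw [hk]
      exact h1
    · rw [hk0, sum_singleton, sum_singleton]
      have h2 : jC B Q k0 C = ∑ L ∈ C \ D, jh B Q k0 L + ∑ L ∈ D, jh B Q k0 L :=
        (sum_sdiff hDC).symm
      rw [h2] at h1
      have h3 : sb k0 ≤ ∑ L ∈ D, jh B Q k0 L := by omega
      exact_mod_cast h3

/-- the hits of a triple at a leaf of type (3;1). -/
theorem four_le (d : Wd2 B Q T U F P a C i j A sb) {L : Finset V} (hL : L ∈ C) (h3 : L.card = 3)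
    (h1 : nt B L 1 = 1) {k : ι} (hk : k ∈ T) : jh B Q k L ≤ 4 := by
  obtain ⟨e1, e2, -, -, -, -, -, e3, e4, e5, e6, -, e8⟩ := d.one hL
  have hd : dv B Q L = -1 := by
    have h1' := Pv_eq_Pp (B := B) L
    rw [d.s.frm.sv_leaf (d.CF hL)] at h1'
    unfold dv
    rw [h3, h1] at e1
    push_cast at e1
    have : (ee B Q L : ℤ) = 0 := by linarith
    rw [this]
    linarith
  have hU : hit B U L ≤ 2 := by
    rw [h1] at e6
    push_cast at e6
    have : (hit B U L : ℤ) ≤ 2 := by linarith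
    exact_mod_cast this
  by_contra hcon
  have h5 := d.g31 L (d.CF hL) h3 h1 hd hU k hk
  change 4 ≤ jh B Q k L → jh B Q k L ≤ 4 ∧ _ at h5
  exact hcon (h5 (by omega)).1

/-- the useless blocks of the inside points of a parallel class. -/
theorem lost (d : Wd2 B Q T U F P a C i j A sb) {D : Finset (Finset V)}
    (hD : D ∈ par0 B U F) (hDC : D ⊆ C) :
    5 * ((D.card : ℤ) - 1) ≤ ∑ L ∈ D, (nt B L 1 : ℤ) + lsC B Q T U F C := by
  classical
  have h0 := d.s.toStg.par.card_eq d.s.frm.sur hD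
  have hsub : Sp.Uin U (slf B F) D ⊆ Sp.Uin U (slf B F) C := fun u hu =>
    mem_filter.2 ⟨(mem_filter.1 hu).1, (mem_filter.1 hu).2.trans hDC⟩
  have hDF : D ⊆ F := hDC.trans d.CF
  have h1 : ∀ u ∈ Sp.Uin U (slf B F) D, ∑ L ∈ D, uh B u L + uo B Q T U F u = 5 := by
    intro u hu
    obtain ⟨huU, hus⟩ := mem_filter.1 hu
    have h2 := d.s.frm.five_u d.s.viol.reg huU
    have h3 : ∑ L ∈ F, uh B u L = ∑ L ∈ D, uh B u L := by
      refine (sum_subset hDF fun L hL hn => ?_).symm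
      have hnu : u ∉ L := fun h => disjoint_left.1 (d.s.frm.ge.FU L hL) h huU
      exact uh_zero hL hnu fun h => hn (hus h)
    omega
  have h2 : 5 * (Sp.Uin U (slf B F) D).card = ∑ u ∈ Sp.Uin U (slf B F) D, ∑ L ∈ D, uh B u L +
      ∑ u ∈ Sp.Uin U (slf B F) D, uo B Q T U F u := by
    rw [← sum_add_distrib, sum_congr rfl h1, sum_const, smul_eq_mul, mul_comm]
  have h3 : ∑ u ∈ Sp.Uin U (slf B F) D, uo B Q T U F u ≤ lsC B Q T U F C := by
    unfold lsC
    exact sum_le_sum_of_subset hsub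
  have h4 : ∑ u ∈ Sp.Uin U (slf B F) D, ∑ L ∈ D, uh B u L ≤ ∑ L ∈ D, nt B L 1 := by
    rw [sum_comm]
    refine sum_le_sum fun L hL => ?_
    have h5 := d.s.toStg.hitU_le (hDF hL)
    rw [Frm.hit_U_sum] at h5
    exact (sum_le_sum_of_subset (filter_subset _ _)).trans h5
  have h5 : ((5 * (Sp.Uin U (slf B F) D).card : ℕ) : ℤ) ≤
      ((∑ L ∈ D, nt B L 1 + lsC B Q T U F C : ℕ) : ℤ) := by
    exact_mod_cast (by omega : 5 * (Sp.Uin U (slf B F) D).card ≤
      ∑ L ∈ D, nt B L 1 + lsC B Q T U F C)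
  push_cast at h5
  have h6 : (D.card : ℤ) = (Sp.Uin U (slf B F) D).card + 1 := by exact_mod_cast h0
  linarith

/-- a parallel class with all its hits of type (3;1), not a single leaf. -/
theorem W3 (d : Wd2 B Q T U F P a C i j A sb) {D : Finset (Finset V)}
    (hD : D ∈ par0 B U F) (hDC : D ⊆ C) (h2 : 2 ≤ D.card) (h1 : ∀ L ∈ D, nt B L 1 = 1) :
    (3 : ℤ) ≤ lsC B Q T U F C := by
  have h3 := d.lost hD hDC
  have h4 : ∑ L ∈ D, (nt B L 1 : ℤ) = D.card := by
    rw [sum_congr rfl fun L hL => by rw [h1 L hL], sum_const, nsmul_eq_mul]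
    norm_num
  rw [h4] at h3
  have h5 : (2 : ℤ) ≤ D.card := by exact_mod_cast h2
  linarith

/-- the leaves outside of a parallel class are of type (3;1). -/
theorem out31 (d : Wd2 B Q T U F P a C i j A sb) {D : Finset (Finset V)}
    (hD : D ∈ par0 B U F) (hDC : D ⊆ C) (h : ∀ L ∈ C \ D, L.card = 3 ∧ nt B L 1 = 1) :
    3 ≤ ∑ L ∈ C \ D, oF B Q T U F C i j L := by
  classical
  have h1 := d.s.toStg.par.card_diff d.s.frm.sur hD hDC
  have hr : Sp.fU U (slf B F) C = 2 := d.r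
  rw [hr] at h1
  rcases (by omega : (C \ D).card = 1 ∨ 2 ≤ (C \ D).card) with h2 | h2
  · obtain ⟨L, hL⟩ := card_eq_one.1 h2
    have hLC : L ∈ C \ D := by rw [hL]; exact mem_singleton_self L
    rw [hL, sum_singleton]
    refine d.o31' (mem_sdiff.1 hLC).1 (h L hLC).1 (h L hLC).2 fun u hu h3 => ?_
    have h4 : (Sp.Uin U (slf B F) C \ Sp.Uin U (slf B F) D).card = 0 := by omega
    have h5 : u ∈ Sp.Uin U (slf B F) D := by
      by_contra h6
      exact absurd (mem_sdiff.2 ⟨hu, h6⟩) (by rw [card_eq_zero.1 h4]; exact notMem_empty u)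
    exact (mem_sdiff.1 hLC).2 ((mem_filter.1 h5).2 h3)
  · have h3 : ∑ L ∈ C \ D, (2 : ℤ) ≤ ∑ L ∈ C \ D, oF B Q T U F C i j L :=
      sum_le_sum fun L hL => d.o31 (mem_sdiff.1 hL).1 (h L hL).1 (h L hL).2
    rw [sum_const, nsmul_eq_mul] at h3
    have h4 : (2 : ℤ) ≤ (C \ D).card := by exact_mod_cast h2
    linarith

/-- the types of the leaves with few single blocks and few points. -/
theorem all31 (d : Wd2 B Q T U F P a C i j A sb)
    (hN : ∑ L ∈ C, (nt B L 1 : ℤ) ≤ C.card) (hM : ∑ L ∈ C, (L.card : ℤ) ≤ 3 * C.card) :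
    ∀ L ∈ C, L.card = 3 ∧ nt B L 1 = 1 := by
  have h1 : ∀ L ∈ C, nt B L 1 = 1 := by
    intro L hL
    by_contra h2
    have h3 : ∑ L ∈ C, (1 : ℤ) < ∑ L ∈ C, (nt B L 1 : ℤ) := by
      refine sum_lt_sum (fun M hM => (d.one hM).n1) ⟨L, hL, ?_⟩
      have := (d.one hL).n1
      omega
    rw [sum_const, nsmul_eq_mul, mul_one] at h3
    linarith
  have h2 : ∀ L ∈ C, (3 : ℤ) ≤ L.card := by
    intro L hL
    obtain ⟨e1, e2, e9, e10, e11, e12, e13, e3, e4, e5, e6, e7, e8⟩ := d.one hL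
    have := h1 L hL
    omega
  intro L hL
  refine ⟨?_, h1 L hL⟩
  by_contra h3
  have h4 : ∑ L ∈ C, (3 : ℤ) < ∑ L ∈ C, (L.card : ℤ) := by
    refine sum_lt_sum (fun M hM => h2 M hM) ⟨L, hL, ?_⟩
    have := h2 L hL
    omega
  rw [sum_const, nsmul_eq_mul] at h4
  linarith

/-- the types of the leaves, all but one of type (3;1). -/
theorem most31 (d : Wd2 B Q T U F P a C i j A sb)
    (hN : ∑ L ∈ C, (nt B L 1 : ℤ) = C.card + 2) (hM : ∑ L ∈ C, (L.card : ℤ) ≤ 3 * C.card) :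
    ∃ L0 ∈ C, ∀ L ∈ C, L ≠ L0 → L.card = 3 ∧ nt B L 1 = 1 := by
  classical
  obtain ⟨L0, hL0, h0⟩ : ∃ L ∈ C, nt B L 1 ≠ 1 := by
    by_contra hcon
    push Not at hcon
    have h1 : ∑ L ∈ C, (nt B L 1 : ℤ) = C.card := by
      rw [sum_congr rfl fun L hL => by rw [hcon L hL], sum_const, nsmul_eq_mul]
      norm_num
    linarith
  have h00 : 3 ≤ (nt B L0 1 : ℤ) := by
    have h1 := (d.one hL0).n1
    have h2 := (d.one hL0).no
    omega
  have h1 : ∀ L ∈ C, L ≠ L0 → nt B L 1 = 1 := by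
    intro L hL hne
    by_contra h2
    have h3 : 3 ≤ (nt B L 1 : ℤ) := by
      have h1 := (d.one hL).n1
      have h2 := (d.one hL).no
      omega
    have h4 : L ∈ C.erase L0 := mem_erase.2 ⟨hne, hL⟩
    have h5 := card_erase_of_mem hL0
    have h6 := card_erase_of_mem h4
    rw [← add_sum_erase C _ hL0, ← add_sum_erase (C.erase L0) _ h4] at hN
    have h7 : ∑ L ∈ (C.erase L0).erase L, (1 : ℤ) ≤ ∑ L ∈ (C.erase L0).erase L,
        (nt B L 1 : ℤ) := sum_le_sum fun M hM => (d.one (mem_of_mem_erase (mem_of_mem_erase hM))).n1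
    rw [sum_const, nsmul_eq_mul, mul_one] at h7
    have h8 := card_pos.2 ⟨L, h4⟩
    have h9 := card_pos.2 ⟨L0, hL0⟩
    have h10 : (((C.erase L0).erase L).card : ℤ) = (C.card : ℤ) - 2 := by omega
    linarith
  have h2 : ∀ L ∈ C, (3 : ℤ) ≤ L.card := by
    intro L hL
    obtain ⟨e1, e2, e9, e10, e11, e12, e13, e3, e4, e5, e6, e7, e8⟩ := d.one hL
    by_cases hne : L = L0
    · have h5 : (nt B L 1 : ℤ) ≤ 3 := by
        subst hne
        rw [← add_sum_erase C _ hL0] at hN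
        have h7 : ∑ L ∈ C.erase L, (1 : ℤ) ≤ ∑ L ∈ C.erase L,
          (nt B L 1 : ℤ) := sum_le_sum fun M hM => (d.one (mem_of_mem_erase hM)).n1
        rw [sum_const, nsmul_eq_mul, mul_one, card_erase_of_mem hL0] at h7
        have h9 := card_pos.2 ⟨L, hL0⟩
        push_cast [Nat.cast_sub h9] at h7
        linarith
      by_contra h6
      have h7 : (L.card : ℤ) = 1 := by omega
      have := e13 h7
      omega
    · have := h1 L hL hne
      omega
  refine ⟨L0, hL0, fun L hL hne => ⟨?_, h1 L hL hne⟩⟩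
  by_contra h3
  have h4 : ∑ L ∈ C, (3 : ℤ) < ∑ L ∈ C, (L.card : ℤ) := by
    refine sum_lt_sum (fun M hM => h2 M hM) ⟨L, hL, ?_⟩
    have := h2 L hL
    omega
  rw [sum_const, nsmul_eq_mul] at h4
  linarith

/-- **all leaves of type (3;1)**, one line triple or centre. -/
theorem h1 (d : Wd2 B Q T U F P a C i j A sb)
    (h : (A.filter (fun k => 1 ≤ jC B Q k C)).card + (Bc B Q T U F P C).card = 1)
    (hN : ∑ L ∈ C, (nt B L 1 : ℤ) = C.card) (hM : ∑ L ∈ C, (L.card : ℤ) = 3 * C.card) :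
    3 ≤ xA B Q T U F P C A sb + ∑ L ∈ C, fs B Q L := by
  obtain ⟨D, hD, hDC, h2, _⟩ := d.D0 h
  have h3 := d.all31 hN.le hM.le
  exact (d.out31 hD hDC fun L hL => h3 L (mem_sdiff.1 hL).1).trans h2

/-- **all leaves but one of type (3;1)**, one line triple or centre. -/
theorem h2 (d : Wd2 B Q T U F P a C i j A sb)
    (h : (A.filter (fun k => 1 ≤ jC B Q k C)).card + (Bc B Q T U F P C).card = 1)
    (hN : ∑ L ∈ C, (nt B L 1 : ℤ) = C.card + 2) (hM : ∑ L ∈ C, (L.card : ℤ) = 3 * C.card) :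
    4 ≤ ∑ k ∈ A, (jC B Q k C : ℤ) + ∑ j ∈ Bc B Q T U F P C, (sb j : ℤ) +
        xA B Q T U F P C A sb + ∑ L ∈ C, fs B Q L ∧
      (3 ≤ xA B Q T U F P C A sb + ∑ L ∈ C, fs B Q L ∨
        ∑ j ∈ Bc B Q T U F P C, (sb j : ℤ) ≤ 4 ∨ (3 : ℤ) ≤ lsC B Q T U F C) := by
  classical
  obtain ⟨L0, hL0, h3⟩ := d.most31 hN hM.le
  obtain ⟨D, hD, hDC, h4, h5, h6, h7⟩ := d.D0 h
  constructor
  · have h8 : 2 ≤ C.card := by
      have := d.r
      omega
    obtain ⟨L, hL, hne⟩ : ∃ L ∈ C, L ≠ L0 := by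
      by_contra hcon
      push Not at hcon
      have h9 : C ⊆ {L0} := fun L hL => mem_singleton.2 (hcon L hL)
      have h10 := card_le_card h9
      rw [card_singleton] at h10
      omega
    have h9 := d.plus hL (d.o31 hL (h3 L hL hne).1 (h3 L hL hne).2)
    have h10 := d.s.toStg.oS_all d.hC d.ij d.K d.A sb
    exact h9.trans h10
  · by_cases h8 : L0 ∈ D
    · left
      refine (d.out31 hD hDC fun L hL => ?_).trans h4
      obtain ⟨h9, h10⟩ := mem_sdiff.1 hL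
      exact h3 L h9 fun he => h10 (he ▸ h8)
    · right
      have h9 : ∀ L ∈ D, L.card = 3 ∧ nt B L 1 = 1 := fun L hL =>
        h3 L (hDC hL) fun he => h8 (he ▸ hL)
      have h10 := card_pos.2 (d.s.toStg.par.ne hD)
      rcases (by omega : D.card = 1 ∨ 2 ≤ D.card) with h11 | h11
      · left
        refine h5.trans ?_
        obtain ⟨L, hL⟩ := card_eq_one.1 h11
        have hLD : L ∈ D := by rw [hL]; exact mem_singleton_self L
        have h12 : ∑ k ∈ Bc B Q T U F P C, ∑ L ∈ D, jh B Q k L ≤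
            ∑ k ∈ Bc B Q T U F P C, 4 := by
          refine sum_le_sum fun k hk => ?_
          rw [hL, sum_singleton]
          exact d.four_le (hDC hLD) (h9 L hLD).1 (h9 L hLD).2 (h7 k hk)
        rw [sum_const, smul_eq_mul] at h12
        have h13 : ∑ k ∈ Bc B Q T U F P C, ∑ L ∈ D, jh B Q k L ≤ 4 := by omega
        exact_mod_cast h13
      · right
        exact d.W3 hD hDC h11 fun L hL => (h9 L hL).2

end Wd2

end Pool.Agent.Hyp6
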