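import Pool.Agent.Hyp6.L3W6

/-!
# HYP6 L3W7: classes of rank two with two inside triples, the small cases

`Wd2.p0`, `Wd2.p1`: the parallel classes of a class with at most one inside point. `Wd2.row0`, `Wd2.row1`,
`Wd2.row2`: the facts about the leaves. `Wd2.e2b`: a point leaf without hits of `U`. `Wd2.don`: the claims.
-/

set_option autoImplicit false

namespace Pool.Agent.Hyp6

open Finset Pool.Agent.Hyp5 Rt

universe u v

variable {V : Type v} [DecidableEq V] {ι : Type u} [Fintype ι] [DecidableEq ι]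
  {B : ι → Finset V} {Q U : Finset V} {T : Finset ι} {F : Finset (Finset V)}
  {P : Finset (Finset (Finset V))} {a : V → Finset (Finset V) → ℕ} {C : Finset (Finset V)} {i j : ι}
  {A : Finset ι} {sb : ι → ℕ}

namespace Wd2

/-- a leaf in a parallel class without inside points. -/
theorem single (d : Wd2 B Q T U F P a C i j A sb) {D : Finset (Finset V)} (hD : D ∈ par0 B U F)
    {L : Finset V} (hL : L ∈ D) (h : (Sp.Uin U (slf B F) D).card = 0) : {L} ∈ par0 B U F := by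
  have h0 := d.s.toStg.par.card_eq d.s.frm.sur hD
  obtain ⟨M, hM⟩ := card_eq_one.1 (by omega : D.card = 1)
  rw [hM, mem_singleton] at hL
  rw [hL, ← hM]
  exact hD

theorem uin_sub (_d : Wd2 B Q T U F P a C i j A sb) {D : Finset (Finset V)} (hDC : D ⊆ C) :
    Sp.Uin U (slf B F) D ⊆ Sp.Uin U (slf B F) C := fun _ hu =>
  mem_filter.2 ⟨(mem_filter.1 hu).1, (mem_filter.1 hu).2.trans hDC⟩

/-- a class without inside point: two leaves, each a parallel class. -/
theorem p0 (d : Wd2 B Q T U F P a C i j A sb) (hp : (Sp.Uin U (slf B F) C).card = 0) :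
    ∃ L M, L ≠ M ∧ C = {L, M} ∧ ∀ K ∈ C, {K} ∈ par0 B U F := by
  have h1 := d.r
  obtain ⟨L, M, hLM, hC⟩ := card_eq_two.1 (by omega : C.card = 2)
  refine ⟨L, M, hLM, hC, fun K hK => ?_⟩
  obtain ⟨D, hD, hDC, hKD⟩ := d.cls hK
  have h2 := card_le_card (d.uin_sub hDC)
  exact d.single hD hKD (by omega)

/-- a class with one inside point: three leaves, all of them parallel classes or one parallel class with
two leaves. -/
theorem p1 (d : Wd2 B Q T U F P a C i j A sb) (hp : (Sp.Uin U (slf B F) C).card = 1) :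
    (∀ K ∈ C, {K} ∈ par0 B U F) ∨
      ∃ La Lb L3 w, La ≠ Lb ∧ La ≠ L3 ∧ Lb ≠ L3 ∧ C = {La, Lb, L3} ∧
        {La, Lb} ∈ par0 B U F ∧ C \ {La, Lb} = {L3} ∧ {L3} ∈ par0 B U F ∧
        Sp.Uin U (slf B F) C = {w} ∧ w ∈ U ∧ slf B F w ⊆ {La, Lb} := by
  classical
  by_cases h0 : ∀ K ∈ C, {K} ∈ par0 B U F
  · exact Or.inl h0
  right
  push Not at h0
  obtain ⟨K, hK, hK0⟩ := h0
  obtain ⟨D, hD, hDC, hKD⟩ := d.cls hK
  have h1 := card_le_card (d.uin_sub hDC)
  have h2 : (Sp.Uin U (slf B F) D).card ≠ 0 := fun h => hK0 (d.single hD hKD h)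
  have h3 := d.s.toStg.par.card_eq d.s.frm.sur hD
  have h4 := d.r
  obtain ⟨La, Lb, hab, hDe⟩ := card_eq_two.1 (by omega : D.card = 2)
  have h5 := card_sdiff_add_card_eq_card hDC
  obtain ⟨L3, hL3⟩ := card_eq_one.1 (by omega : (C \ D).card = 1)
  have h3C : L3 ∈ C \ D := by rw [hL3]; exact mem_singleton_self L3
  obtain ⟨h6, h7⟩ := mem_sdiff.1 h3C
  obtain ⟨w, hw⟩ := card_eq_one.1 hp
  have hwD : w ∈ Sp.Uin U (slf B F) D := by
    obtain ⟨u, hu⟩ := card_pos.1 (Nat.pos_of_ne_zero h2)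
    have h8 := d.uin_sub hDC hu
    rw [hw, mem_singleton] at h8
    rw [← h8]
    exact hu
  obtain ⟨hwU, hws⟩ := mem_filter.1 hwD
  obtain ⟨D3, hD3, hD3C, h3D⟩ := d.cls h6
  have h8 : D3 ≠ D := fun h => h7 (h ▸ h3D)
  have h9 : D3 ⊆ {L3} := by
    rw [← hL3]
    intro M hM
    exact mem_sdiff.2 ⟨hD3C hM, fun h => disjoint_left.1 (d.s.toStg.par.dj hD3 hD h8) hM h⟩
  have h10 : D3 = {L3} := Subset.antisymm h9 (singleton_subset_iff.2 h3D)
  refine ⟨La, Lb, L3, w, hab, ?_, ?_, ?_, hDe ▸ hD, by rw [← hDe]; exact hL3, h10 ▸ hD3, hw, hwU,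
    by rw [← hDe]; exact hws⟩
  · rintro rfl
    exact h7 (by rw [hDe]; simp)
  · rintro rfl
    exact h7 (by rw [hDe]; simp)
  · rw [← sdiff_union_of_subset hDC, hL3, hDe]
    ext M
    simp only [mem_union, mem_insert, mem_singleton]
    tauto

/-- **a point leaf without hits of `U`**. -/
theorem e2b (d : Wd2 B Q T U F P a C i j A sb) {x : V} (hx : {x} ∈ C) (h0 : hit B U {x} = 0) :
    4 ≤ ∑ L ∈ C, oF B Q T U F C i j L ∧
      (C.card : ℤ) + 4 ≤ ∑ L ∈ C, (nt B L 1 : ℤ) ∧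
      11 * (C.card : ℤ) + 2 ≤ 3 * ∑ L ∈ C, (L.card : ℤ) + 2 * ∑ L ∈ C, (nt B L 1 : ℤ) ∧
      5 * ((Sp.Uin U (slf B F) C).card : ℤ) - lsC B Q T U F C ≤
        ∑ L ∈ C, (nt B L 1 : ℤ) - 5 := by
  classical
  have hpar := d.s.toStg.par
  have hxF := d.CF hx
  have hns : ∀ u ∈ U, {x} ∉ slf B F u := by
    intro u hu h
    have h1 : 0 < uh B u {x} := (uh_pos hxF (d.s.frm.U_notin hu hxF)).2 h
    have h2 : uh B u {x} ≤ hit B U {x} := by
      rw [Frm.hit_U_sum]
      exact single_le_sum (f := fun u => uh B u {x}) (fun _ _ => Nat.zero_le _) hu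
    omega
  have hUe : Sp.Uin U (slf B F) (C.erase {x}) = Sp.Uin U (slf B F) C := by
    ext u
    unfold Sp.Uin
    rw [mem_filter, mem_filter]
    constructor
    · rintro ⟨h1, h2⟩
      exact ⟨h1, h2.trans (erase_subset _ _)⟩
    · rintro ⟨h1, h2⟩
      exact ⟨h1, fun L hL => mem_erase.2 ⟨fun he => hns u h1 (he ▸ hL), h2 hL⟩⟩
  have hce := card_erase_of_mem hx
  have hcp := card_pos.2 ⟨_, hx⟩
  have hr := d.r
  have hfe : Sp.fU U (slf B F) (C.erase {x}) = 1 := by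
    unfold Sp.fU
    rw [hUe]
    omega
  obtain ⟨K, hK⟩ := card_pos.1 (by omega : 0 < (C.erase {x}).card)
  obtain ⟨Wd2', hD2, h1⟩ := hpar.in_class d.s.frm.sur ((erase_subset _ _).trans d.CF) ⟨K, hK⟩ hfe.le
  obtain ⟨C', hC', h2⟩ := d.s.toStg.sub_class hD2
  have h3 : C' = C := by
    by_contra hne
    exact disjoint_left.1 (d.s.part.ptn.dj C' hC' C d.hC hne) (h2 (h1 hK)) (mem_of_mem_erase hK)
  rw [h3] at h2
  have h4 : {x} ∉ Wd2' := by
    intro h5
    have h6 : Wd2' = C := Subset.antisymm h2 fun L hL => by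
      by_cases h7 : L = {x}
      · rw [h7]
        exact h5
      · exact h1 (mem_erase.2 ⟨h7, hL⟩)
    have h7 := hpar.card_eq d.s.frm.sur hD2
    rw [h6] at h7
    omega
  have h5 : Wd2' = C \ {{x}} := by
    rw [sdiff_singleton_eq_erase]
    exact Subset.antisymm (fun L hL => mem_erase.2 ⟨fun he => h4 (he ▸ hL), h2 hL⟩) h1
  obtain ⟨D, hD, hDC, hxD⟩ := d.cls hx
  have h6 : D = {{x}} := by
    refine Subset.antisymm (fun L hL => ?_) (singleton_subset_iff.2 hxD)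
    by_contra h7
    have h8 : L ∈ Wd2' := by
      rw [h5]
      exact mem_sdiff.2 ⟨hDC hL, h7⟩
    exact disjoint_left.1 (hpar.dj hD hD2 (fun h => h4 (h ▸ hxD))) hL h8
  subst h6
  have hm : (({x} : Finset V).card : ℤ) = 1 := by
    rw [card_singleton]
    norm_num
  have hn5 := (d.one hx).pt hm
  refine ⟨d.two_par hD hDC (h5 ▸ hD2), ?_, ?_, ?_⟩
  · rw [← add_sum_erase C _ hx]
    have h7 : ∑ L ∈ C.erase {x}, (1 : ℤ) ≤ ∑ L ∈ C.erase {x},
        (nt B L 1 : ℤ) := sum_le_sum fun M hM => (d.one (mem_of_mem_erase hM)).n1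
    rw [sum_const, nsmul_eq_mul, mul_one, hce] at h7
    push_cast [Nat.cast_sub hcp] at h7
    linarith
  · rw [← add_sum_erase C _ hx, ← add_sum_erase C (fun L => (nt B L 1 : ℤ)) hx]
    have h7 : ∑ L ∈ C.erase {x}, (11 : ℤ) ≤ ∑ L ∈ C.erase {x},
        (3 * (L.card : ℤ) + 2 * (nt B L 1 : ℤ)) := sum_le_sum fun M hM => by
      obtain ⟨e1, e2, e9, e10, e11, e12, e13, e3, e4, e5, e6, e7, e8⟩ :=
        d.one (mem_of_mem_erase hM)
      linarith
    rw [sum_const, nsmul_eq_mul, sum_add_distrib, ← mul_sum, ← mul_sum, hce] at h7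
    push_cast [Nat.cast_sub hcp] at h7
    linarith
  · have h7 := d.s.frm.sum_hitU d.s.viol.reg d.s.part d.hC
    have h8 : (0 : ℤ) ≤ (gC B U F P C : ℤ) := by positivity
    have h9 : ∑ L ∈ C, (hit B U L : ℤ) ≤ ∑ L ∈ C, (nt B L 1 : ℤ) - 5 := by
      rw [← add_sum_erase C _ hx, ← add_sum_erase C (fun L => (nt B L 1 : ℤ)) hx, h0, hn5]
      have h10 : ∑ L ∈ C.erase {x}, (hit B U L : ℤ) ≤ ∑ L ∈ C.erase {x}, (nt B L 1 : ℤ) :=
        sum_le_sum fun M hM => (d.one (mem_of_mem_erase hM)).gn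
      push_cast
      linarith
    linarith

/-- the claims as numbers. -/
theorem don (d : Wd2 B Q T U F P a C i j A sb) :
    -tK B Q (Rg B Q T U F) F (tF B Q T U F P) C =
        80 * ((ncl B Q T U F P i : ℤ) + ncl B Q T U F P j) ∧
      Frm.xC B Q T (Rg B Q T U F) U F C = (jn B Q (Ep B Q T U F) i + jb B Q T U i) +
        (jn B Q (Ep B Q T U F) j + jb B Q T U j) := by
  constructor
  · rw [d.s.don_eq d.hC, d.K, sum_pair d.ij]
  · unfold Frm.xC
    rw [d.K, sum_pair d.ij]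

/-- the numbers of an inside triple. -/
theorem kx (d : Wd2 B Q T U F P a C i j A sb) {k : ι}
    (hk : k ∈ Sp.Kin (Rg B Q T U F) (slj B Q F) C) :
    ∑ L ∈ F, jh B Q k L + (jn B Q (Ep B Q T U F) k + jb B Q T U k) = 12 ∧
      ∑ L ∈ F, jh B Q k L + ncl B Q T U F P k ≤ 12 :=
  ⟨d.s.kin_x hk, d.s.twelve_ncl (d.s.toStg.kin.1 hk).1⟩

theorem c2 (d : Wd2 B Q T U F P a C i j A sb) : 2 ≤ C.card := by
  have := d.r
  omega

/-- the host class of a donor is inside the class. -/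
theorem host (d : Wd2 B Q T U F P a C i j A sb) {k : ι}
    (hk : k ∈ Sp.Kin (Rg B Q T U F) (slj B Q F) C) (hc : 0 < ncl B Q T U F P k)
    (hs : ∀ K ∈ C, {K} ∈ par0 B U F) :
    ∑ L ∈ F, jh B Q k L + ncl B Q T U F P k ≤ 8 ∨
      ∃ L ∈ C, ∑ L ∈ F, jh B Q k L + ncl B Q T U F P k ≤ 4 + jh B Q k L ∧
        (L.card ≤ 3 → ∑ L ∈ F, jh B Q k L + ncl B Q T U F P k ≤ 4 + nt B L 1) := by
  obtain ⟨hkT, -, -, -, hkC⟩ := d.s.toStg.kin.1 hk
  rcases d.s.don1 hkT (d.s.no_see d.hC d.c2 hk) hc with h | ⟨D, hD, ⟨L, hLD, hLk⟩, h1, h2⟩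
  · exact Or.inl h
  · right
    have hLC := hkC hLk
    have h3 : D = {L} := by
      by_contra hne
      exact disjoint_left.1 (d.s.toStg.par.dj hD (hs L hLC) hne) hLD (mem_singleton_self L)
    rw [h3, sum_singleton] at h1
    exact ⟨L, hLC, h1, h2 L h3⟩

/-- a point and a point leaf have at most three common blocks. -/
theorem twin_le (d : Wd2 B Q T U F P a C i j A sb) {w x : V} (hw : w ∈ U) (hx : {x} ∈ F) :
    uh B w {x} ≤ 3 := by
  have hxD := d.s.frm.FD hx (mem_singleton_self x)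
  have hux : x ≠ w := by
    rintro rfl
    exact disjoint_left.1 (d.s.frm.ge.FU {x} hx) (mem_singleton_self x) hw
  have h4 := d.s.viol.twin (Frm.DQ hxD) (Frm.DQ (d.s.frm.UD hw)) hux
  have h6 : uh B w {x} ≤ (univ.filter fun k => x ∈ B k ∧ w ∈ B k).card := by
    unfold uh hit
    have h7 : ∀ i ∈ tch B ({x} : Finset V), (B i ∩ {w}).card = if w ∈ B i then 1 else 0 := by
      intro i _
      split_ifs with h8
      · rw [inter_singleton_of_mem h8, card_singleton]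
      · rw [inter_singleton_of_notMem h8, card_empty]
    rw [sum_congr rfl h7, sum_boole]
    push_cast
    refine card_le_card fun i hi => ?_
    obtain ⟨h8, h9⟩ := mem_filter.1 hi
    obtain ⟨y, hy⟩ := cost_mem_tch.1 h8
    obtain ⟨hy1, hy2⟩ := mem_inter.1 hy
    rw [mem_singleton] at hy2
    exact mem_filter.2 ⟨mem_univ _, hy2 ▸ hy1, h9⟩
  omega

/-- an inside point which sees a leaf of type (3;1) and a leaf with three single blocks or one point has
a useless block. -/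
theorem W1 (d : Wd2 B Q T U F P a C i j A sb) {w : V} {La Lb : Finset V} (hab : La ≠ Lb)
    (ha : La ∈ C) (hb : Lb ∈ C) (hw : w ∈ U) (hws : slf B F w ⊆ {La, Lb})
    (h1 : nt B La 1 = 1) (h2 : nt B Lb 1 = 3 ∨ Lb.card = 1) : (1 : ℤ) ≤ lsC B Q T U F C := by
  classical
  have haF := d.CF ha
  have hbF := d.CF hb
  have h5 := d.s.frm.five_u d.s.viol.reg hw
  have hsub : ({La, Lb} : Finset (Finset V)) ⊆ F := insert_subset haF (singleton_subset_iff.2 hbF)
  have hsum : ∑ L ∈ F, uh B w L = uh B w La + uh B w Lb := by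
    rw [← sum_pair hab]
    refine (sum_subset hsub fun L hL hn => ?_).symm
    have hnu : w ∉ L := fun h => disjoint_left.1 (d.s.frm.ge.FU L hL) h hw
    exact uh_zero hL hnu fun h => hn (hws h)
  have hle : ∀ {L : Finset V}, L ∈ F → uh B w L ≤ nt B L 1 := by
    intro L hL
    have h3 := d.s.toStg.hitU_le hL
    rw [Frm.hit_U_sum] at h3
    exact (single_le_sum (f := fun u => uh B u L) (fun _ _ => Nat.zero_le _) hw).trans h3
  have h6 := hle haF
  have h7 : uh B w Lb ≤ 3 := by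
    rcases h2 with h2 | h2
    · have := hle hbF
      omega
    · obtain ⟨x, rfl⟩ := card_eq_one.1 h2
      exact d.twin_le hw hbF
  have h8 : w ∈ Sp.Uin U (slf B F) C :=
    mem_filter.2 ⟨hw, hws.trans (insert_subset ha (singleton_subset_iff.2 hb))⟩
  have h9 : uo B Q T U F w ≤ lsC B Q T U F C := by
    unfold lsC
    exact single_le_sum (f := fun w => uo B Q T U F w) (fun _ _ => Nat.zero_le _) h8
  have h10 : 1 ≤ lsC B Q T U F C := by omega
  exact_mod_cast h10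

/-- the place count of a leaf of type (5;1). -/
theorem no_two8 (d : Wd2 B Q T U F P a C i j A sb) {L : Finset V} (hL : L ∈ C)
    (h5 : L.card = 5) (h1 : nt B L 1 = 1) (hi8 : 8 ≤ jh B Q i L) (hj8 : 8 ≤ jh B Q j L) :
    False := by
  classical
  obtain ⟨e1, e2, e9, e10, e11, e12, e13, e3, e4, e5, e6, e7, e8⟩ := d.one hL
  have h2 : ∑ k ∈ ({i, j} : Finset ι), (jh B Q k L : ℤ) ≤ ∑ k ∈ T, (jh B Q k L : ℤ) :=
    sum_le_sum_of_subset_of_nonneg (insert_subset d.iT (singleton_subset_iff.2 d.jT))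
      fun _ _ _ => by positivity
  rw [sum_pair d.ij] at h2
  omega

end Wd2

end Pool.Agent.Hyp6
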