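import Pool.Agent.Hyp6.L3W7

/-!
# HYP6 L3W8: classes of rank two with two inside triples, the rows

`Wd2.row0`: no inside point. `Wd2.row1`: one inside point in a parallel class. `Wd2.row2`: one inside point
which sees three parallel classes. `Wd2.r048`, `Wd2.rowH`: the claims in the small cases.
-/

set_option autoImplicit false

namespace Pool.Agent.Hyp6

open Finset Pool.Agent.Hyp5 Rt

universe u v

variable {V : Type v} [DecidableEq V] {ι : Type u} [Fintype ι] [DecidableEq ι]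
  {B : ι → Finset V} {Q U : Finset V} {T : Finset ι} {F : Finset (Finset V)}
  {P : Finset (Finset (Finset V))} {a : V → Finset (Finset V) → ℕ} {C : Finset (Finset V)} {i j : ι}
  {A : Finset ι} {sb : ι → ℕ}

/-- the inside triples have at most one claim or at most eight hits and claims. -/
def DonC (B : ι → Finset V) (Q : Finset V) (T : Finset ι) (U : Finset V)
    (F : Finset (Finset V)) (P : Finset (Finset (Finset V))) (C : Finset (Finset V)) : Prop :=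
  ∀ k ∈ Sp.Kin (Rg B Q T U F) (slj B Q F) C, ncl B Q T U F P k ≤ 1 ∨
    (ncl B Q T U F P k ≤ 3 ∧ ∑ L ∈ F, jh B Q k L + ncl B Q T U F P k ≤ 8)

/-- the type of a leaf: `2 a + 1` points and `2 b + 1` single blocks. -/
def Wty (a b : ℤ) : Prop := (a = 0 ∧ b = 2) ∨ (1 ≤ a ∧ 0 ≤ b)

theorem ty_two {a1 b1 a2 b2 : ℤ} (h1 : Wty a1 b1) (h2 : Wty a2 b2) :
    (b1 + b2 = 0 → a1 + a2 = 2 → (a1 = 1 ∧ b1 = 0) ∧ (a2 = 1 ∧ b2 = 0)) ∧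
    (b1 + b2 = 0 → a1 + a2 = 3 → (a1 = 1 ∧ b1 = 0) ∨ (a2 = 1 ∧ b2 = 0)) ∧
    (b1 + b2 = 1 → a1 + a2 = 2 → (a1 = 1 ∧ b1 = 0) ∨ (a2 = 1 ∧ b2 = 0)) ∧
    (b1 + b2 = 2 → a1 + a2 = 1 → (a1 = 1 ∧ b1 = 0) ∨ (a2 = 1 ∧ b2 = 0)) ∧
    (b1 + b2 = 1 → a1 + a2 = 3 → (a1 = 1 ∧ b1 = 0) ∨ (a2 = 1 ∧ b2 = 0) ∨
      (a1 = 2 ∧ b1 = 0 ∧ a2 = 1 ∧ b2 = 1) ∨ (a2 = 2 ∧ b2 = 0 ∧ a1 = 1 ∧ b1 = 1)) := by
  unfold Wty at h1 h2
  rcases h1 with h1 | h1 <;> rcases h2 with h2 | h2 <;>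
    refine ⟨?_, ?_, ?_, ?_, ?_⟩ <;> intro g1 g2 <;> omega

theorem ty_three {a1 b1 a2 b2 a3 b3 : ℤ} (h1 : Wty a1 b1) (h2 : Wty a2 b2) (h3 : Wty a3 b3) :
    (b1 + (b2 + b3) = 0 → a1 + (a2 + a3) = 3 →
      (a1 = 1 ∧ b1 = 0) ∧ (a2 = 1 ∧ b2 = 0) ∧ (a3 = 1 ∧ b3 = 0)) ∧
    ((b1 + (b2 + b3) = 1 ∧ a1 + (a2 + a3) = 3) ∨ (b1 + (b2 + b3) = 2 ∧ a1 + (a2 + a3) = 2) →
      (a3 = 1 ∧ b3 = 0) ∨ ((a1 = 1 ∧ b1 = 0) ∧ (a2 = 1 ∧ b2 = 0))) ∧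
    (b1 + (b2 + b3) = 3 → a1 + (a2 + a3) = 2 → (a3 = 1 ∧ b3 = 0) ∨
      (b1 = 0 ∧ (b2 = 1 ∨ a2 = 0)) ∨ (b2 = 0 ∧ (b1 = 1 ∨ a1 = 0))) ∧
    (b1 + (b2 + b3) = 3 → a1 + (a2 + a3) = 2 → (a1 = 1 ∧ b1 = 0) ∨ (a2 = 1 ∧ b2 = 0) ∨
      (a3 = 1 ∧ b3 = 0)) ∧
    ((b1 + (b2 + b3) = 6 ∧ a1 + (a2 + a3) = 0) ∨ (b1 + (b2 + b3) = 4 ∧ a1 + (a2 + a3) = 1) ∨
      (b1 + (b2 + b3) = 2 ∧ a1 + (a2 + a3) = 2) ∨ (b1 + (b2 + b3) = 3 ∧ a1 + (a2 + a3) = 2) ∨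
      (b1 + (b2 + b3) = 1 ∧ a1 + (a2 + a3) = 3) →
      (a1 ≤ 1 ∧ b1 ≤ 2) ∧ (a2 ≤ 1 ∧ b2 ≤ 2) ∧ (a3 ≤ 1 ∧ b3 ≤ 2)) := by
  unfold Wty at h1 h2 h3
  rcases h1 with h1 | h1 <;> rcases h2 with h2 | h2 <;> rcases h3 with h3 | h3 <;>
    refine ⟨fun g1 g2 => ?_, fun g1 => ?_, fun g1 g2 => ?_, fun g1 g2 => ?_, fun g1 => ?_⟩ <;>
      omega

namespace Wd2

theorem ty (d : Wd2 B Q T U F P a C i j A sb) {L : Finset V} (hL : L ∈ C) :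
    ∃ x y : ℤ, (L.card : ℤ) = 2 * x + 1 ∧ (nt B L 1 : ℤ) = 2 * y + 1 ∧ Wty x y := by
  obtain ⟨e1, -, e9, e10, e11, e12, e13, -, e4, -, -, -, e8⟩ := d.one hL
  refine ⟨((L.card : ℤ) - 1) / 2, ((nt B L 1 : ℤ) - 1) / 2, by omega, by omega, ?_⟩
  unfold Wty
  rcases (by omega : (L.card : ℤ) = 1 ∨ 3 ≤ (L.card : ℤ)) with h | h
  · left
    have := e13 h
    omega
  · right
    omega

/-- **no inside point**. -/
theorem row0 (d : Wd2 B Q T U F P a C i j A sb) (hp : (Sp.Uin U (slf B F) C).card = 0) :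
    4 ≤ ∑ L ∈ C, oF B Q T U F C i j L ∧
    (∑ L ∈ C, (nt B L 1 : ℤ) = 2 → ∑ L ∈ C, (L.card : ℤ) = 6 →
      6 ≤ ∑ L ∈ C, oF B Q T U F C i j L) ∧
    (∑ L ∈ C, (nt B L 1 : ℤ) = 2 → ∑ L ∈ C, (L.card : ℤ) = 8 →
      5 ≤ ∑ L ∈ C, oF B Q T U F C i j L) ∧
    (∑ L ∈ C, (nt B L 1 : ℤ) = 4 → ∑ L ∈ C, (L.card : ℤ) = 6 →
      5 ≤ ∑ L ∈ C, oF B Q T U F C i j L) ∧
    (∑ L ∈ C, (nt B L 1 : ℤ) = 6 → ∑ L ∈ C, (L.card : ℤ) = 4 →
      5 ≤ ∑ L ∈ C, oF B Q T U F C i j L) ∧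
    (∑ L ∈ C, (nt B L 1 : ℤ) = 4 → ∑ L ∈ C, (L.card : ℤ) = 8 →
      5 ≤ ∑ L ∈ C, oF B Q T U F C i j L ∨
      ∃ L M, L ≠ M ∧ C = {L, M} ∧ L.card = 5 ∧ nt B L 1 = 1 ∧ M.card = 3 ∧ nt B M 1 = 3) := by
  classical
  have hU := card_eq_zero.1 hp
  obtain ⟨L, M, hLM, hC, hs⟩ := d.p0 hp
  have hL : L ∈ C := by rw [hC]; simp
  have hM : M ∈ C := by rw [hC]; simp
  have hsum : ∀ f : Finset V → ℤ, ∑ K ∈ C, f K = f L + f M := fun f => by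
    rw [hC, sum_pair hLM]
  have h3 : ∀ K ∈ C, K.card = 3 → nt B K 1 = 1 → 3 ≤ oF B Q T U F C i j K := fun K hK h3 h1 =>
    d.o31' hK h3 h1 fun u hu => by
      rw [hU] at hu
      exact absurd hu (notMem_empty u)
  have h5 : ∀ K ∈ C, K.card = 3 → nt B K 1 = 1 → 5 ≤ ∑ L ∈ C, oF B Q T U F C i j L :=
    fun K hK a b => by
      have := d.plus hK (h3 K hK a b)
      linarith
  have hsd : C \ {L} = {M} := by
    rw [hC]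
    ext K
    simp only [mem_sdiff, mem_insert, mem_singleton]
    constructor
    · rintro ⟨rfl | rfl, h⟩
      · exact absurd rfl h
      · rfl
    · rintro rfl
      exact ⟨Or.inr rfl, hLM.symm⟩
  obtain ⟨x1, y1, g1, g2, t1⟩ := d.ty hL
  obtain ⟨x2, y2, g3, g4, t2⟩ := d.ty hM
  obtain ⟨r1, r2, r3, r4, r5⟩ := ty_two t1 t2
  have key : ∀ {N' M' : ℤ}, ∑ L ∈ C, (nt B L 1 : ℤ) = N' → ∑ L ∈ C, (L.card : ℤ) = M' →
      2 * (y1 + y2) + 2 = N' ∧ 2 * (x1 + x2) + 2 = M' := fun h1 h2 => by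
    rw [hsum] at h1 h2
    constructor <;> linarith
  have c1 : x1 = 1 ∧ y1 = 0 → L.card = 3 ∧ nt B L 1 = 1 := fun h => by omega
  have c2 : x2 = 1 ∧ y2 = 0 → M.card = 3 ∧ nt B M 1 = 1 := fun h => by omega
  have h52 : (x1 = 1 ∧ y1 = 0) ∨ (x2 = 1 ∧ y2 = 0) →
      5 ≤ ∑ L ∈ C, oF B Q T U F C i j L := by
    rintro (h | h)
    · exact h5 L hL (c1 h).1 (c1 h).2
    · exact h5 M hM (c2 h).1 (c2 h).2
  refine ⟨d.two_par (hs L hL) (singleton_subset_iff.2 hL) (hsd ▸ hs M hM), fun h1 h2 => ?_,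
    fun h1 h2 => ?_, fun h1 h2 => ?_, fun h1 h2 => ?_, fun h1 h2 => ?_⟩
  · obtain ⟨q1, q2⟩ := key h1 h2
    obtain ⟨p1, p2⟩ := r1 (by linarith) (by linarith)
    have a1 := h3 L hL (c1 p1).1 (c1 p1).2
    have a2 := h3 M hM (c2 p2).1 (c2 p2).2
    rw [hsum]
    linarith
  · obtain ⟨q1, q2⟩ := key h1 h2
    exact h52 (r2 (by linarith) (by linarith))
  · obtain ⟨q1, q2⟩ := key h1 h2
    exact h52 (r3 (by linarith) (by linarith))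
  · obtain ⟨q1, q2⟩ := key h1 h2
    exact h52 (r4 (by linarith) (by linarith))
  · obtain ⟨q1, q2⟩ := key h1 h2
    rcases r5 (by linarith) (by linarith) with h | h | h | h
    · exact Or.inl (h52 (Or.inl h))
    · exact Or.inl (h52 (Or.inr h))
    · exact Or.inr ⟨L, M, hLM, hC, by omega⟩
    · exact Or.inr ⟨M, L, hLM.symm, by rw [hC, pair_comm], by omega⟩

/-- **one inside point in a parallel class**. -/
theorem row1 (d : Wd2 B Q T U F P a C i j A sb) {La Lb L3 : Finset V} {w : V} (hab : La ≠ Lb)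
    (ha3 : La ≠ L3) (hb3 : Lb ≠ L3) (hC : C = {La, Lb, L3}) (hD : {La, Lb} ∈ par0 B U F)
    (hsd : C \ {La, Lb} = {L3}) (hL3 : {L3} ∈ par0 B U F)
    (hU : Sp.Uin U (slf B F) C = {w}) (hw : w ∈ U) (hws : slf B F w ⊆ {La, Lb}) :
    4 ≤ ∑ L ∈ C, oF B Q T U F C i j L ∧
    (∑ L ∈ C, (nt B L 1 : ℤ) = 3 → ∑ L ∈ C, (L.card : ℤ) = 9 →
      5 ≤ ∑ L ∈ C, oF B Q T U F C i j L) ∧
    (∑ L ∈ C, (nt B L 1 : ℤ) = 5 → ∑ L ∈ C, (L.card : ℤ) = 9 →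
      5 ≤ ∑ L ∈ C, oF B Q T U F C i j L) ∧
    (∑ L ∈ C, (nt B L 1 : ℤ) = 7 → ∑ L ∈ C, (L.card : ℤ) = 7 →
      5 ≤ ∑ L ∈ C, oF B Q T U F C i j L) ∧
    (∑ L ∈ C, (nt B L 1 : ℤ) = 9 → ∑ L ∈ C, (L.card : ℤ) = 7 →
      (1 : ℤ) ≤ lsC B Q T U F C ∨ 5 ≤ ∑ L ∈ C, oF B Q T U F C i j L) := by
  classical
  have ha : La ∈ C := by rw [hC]; simp
  have hb : Lb ∈ C := by rw [hC]; simp
  have h3 : L3 ∈ C := by rw [hC]; simp
  have hDC : ({La, Lb} : Finset (Finset V)) ⊆ C :=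
    insert_subset ha (singleton_subset_iff.2 hb)
  have hsum : ∀ f : Finset V → ℤ, ∑ K ∈ C, f K = f La + (f Lb + f L3) := fun f => by
    rw [hC, sum_insert (by simp [hab, ha3]), sum_pair hb3]
  have h5 : L3.card = 3 → nt B L3 1 = 1 → 5 ≤ ∑ L ∈ C, oF B Q T U F C i j L := by
    intro g1 g2
    have g3 := d.o31' h3 g1 g2 fun u hu => by
      rw [hU, mem_singleton] at hu
      rw [hu]
      intro h
      have h4 := hws h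
      simp only [mem_insert, mem_singleton] at h4
      rcases h4 with h4 | h4
      · exact ha3 h4.symm
      · exact hb3 h4.symm
    have := d.plus h3 g3
    linarith
  have h6 : La.card = 3 → nt B La 1 = 1 → Lb.card = 3 → nt B Lb 1 = 1 →
      5 ≤ ∑ L ∈ C, oF B Q T U F C i j L := by
    intro g1 g2 g3 g4
    have h7 := d.S2 hD hDC
    have h8 := d.split hDC
    have h9 := d.o31 ha g1 g2
    have h10 := d.o31 hb g3 g4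
    rw [sum_pair hab] at h8
    linarith
  obtain ⟨x1, y1, g1, g2, t1⟩ := d.ty ha
  obtain ⟨x2, y2, g3, g4, t2⟩ := d.ty hb
  obtain ⟨x3, y3, g5, g6, t3⟩ := d.ty h3
  obtain ⟨r1, r2, r3, -, -⟩ := ty_three t1 t2 t3
  have key : ∀ {N' M' : ℤ}, ∑ L ∈ C, (nt B L 1 : ℤ) = N' → ∑ L ∈ C, (L.card : ℤ) = M' →
      2 * (y1 + (y2 + y3)) + 3 = N' ∧ 2 * (x1 + (x2 + x3)) + 3 = M' := fun h1 h2 => by
    rw [hsum] at h1 h2
    constructor <;> linarith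
  have h56 : (x3 = 1 ∧ y3 = 0) ∨ ((x1 = 1 ∧ y1 = 0) ∧ (x2 = 1 ∧ y2 = 0)) →
      5 ≤ ∑ L ∈ C, oF B Q T U F C i j L := by
    rintro (h | ⟨h, h'⟩)
    · exact h5 (by omega) (by omega)
    · exact h6 (by omega) (by omega) (by omega) (by omega)
  refine ⟨d.two_par hD hDC (hsd ▸ hL3), fun h1 h2 => ?_, fun h1 h2 => ?_, fun h1 h2 => ?_,
    fun h1 h2 => ?_⟩
  · obtain ⟨q1, q2⟩ := key h1 h2
    exact h56 (Or.inl (r1 (by linarith) (by linarith)).2.2)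
  · obtain ⟨q1, q2⟩ := key h1 h2
    exact h56 (r2 (Or.inl ⟨by linarith, by linarith⟩))
  · obtain ⟨q1, q2⟩ := key h1 h2
    exact h56 (r2 (Or.inr ⟨by linarith, by linarith⟩))
  · obtain ⟨q1, q2⟩ := key h1 h2
    rcases r3 (by linarith) (by linarith) with h | ⟨h, h'⟩ | ⟨h, h'⟩
    · exact Or.inr (h56 (Or.inl h))
    · exact Or.inl (d.W1 hab ha hb hw hws (by omega) (by omega))
    · exact Or.inl (d.W1 hab.symm hb ha hw (by rw [pair_comm]; exact hws) (by omega) (by omega))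

/-- **one inside point which sees three parallel classes**. -/
theorem row2 (d : Wd2 B Q T U F P a C i j A sb) (hp : (Sp.Uin U (slf B F) C).card = 1)
    (hs : ∀ K ∈ C, {K} ∈ par0 B U F) (hD : DonC B Q T U F P C) {dd : ℤ}
    (hdd : dd = -tK B Q (Rg B Q T U F) F (tF B Q T U F P) C) :
    (∑ L ∈ C, (nt B L 1 : ℤ) = 3 → ∑ L ∈ C, (L.card : ℤ) = 9 →
      6 ≤ ∑ L ∈ C, oF B Q T U F C i j L) ∧
    (∑ L ∈ C, (nt B L 1 : ℤ) = 5 → ∑ L ∈ C, (L.card : ℤ) = 9 →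
      4 ≤ ∑ L ∈ C, oF B Q T U F C i j L) ∧
    (∑ L ∈ C, (nt B L 1 : ℤ) = 7 → ∑ L ∈ C, (L.card : ℤ) = 7 →
      4 ≤ ∑ L ∈ C, oF B Q T U F C i j L) ∧
    (∑ L ∈ C, (nt B L 1 : ℤ) = 9 → ∑ L ∈ C, (L.card : ℤ) = 7 →
      4 ≤ ∑ L ∈ C, oF B Q T U F C i j L) ∧
    ((∑ L ∈ C, (nt B L 1 : ℤ) = 15 ∧ ∑ L ∈ C, (L.card : ℤ) = 3) ∨
      (∑ L ∈ C, (nt B L 1 : ℤ) = 11 ∧ ∑ L ∈ C, (L.card : ℤ) = 5) ∨
      (∑ L ∈ C, (nt B L 1 : ℤ) = 7 ∧ ∑ L ∈ C, (L.card : ℤ) = 7) ∨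
      (∑ L ∈ C, (nt B L 1 : ℤ) = 9 ∧ ∑ L ∈ C, (L.card : ℤ) = 7) ∨
      (∑ L ∈ C, (nt B L 1 : ℤ) = 5 ∧ ∑ L ∈ C, (L.card : ℤ) = 9) →
      dd ≤ 0 ∨ (dd ≤ 80 ∧ 4 ≤ (Frm.xC B Q T (Rg B Q T U F) U F C : ℤ)) ∨
        6 ≤ (Frm.xC B Q T (Rg B Q T U F) U F C : ℤ)) := by
  classical
  have hr := d.r
  obtain ⟨La, Lb, L3, hab, ha3, hb3, hC⟩ := card_eq_three.1 (by omega : C.card = 3)
  have ha : La ∈ C := by rw [hC]; simp
  have hb : Lb ∈ C := by rw [hC]; simp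
  have h3 : L3 ∈ C := by rw [hC]; simp
  have hsum : ∀ f : Finset V → ℤ, ∑ K ∈ C, f K = f La + (f Lb + f L3) := fun f => by
    rw [hC, sum_insert (by simp [hab, ha3]), sum_pair hb3]
  obtain ⟨x1, y1, g1, g2, t1⟩ := d.ty ha
  obtain ⟨x2, y2, g3, g4, t2⟩ := d.ty hb
  obtain ⟨x3, y3, g5, g6, t3⟩ := d.ty h3
  obtain ⟨r1, r2, -, r4, r5⟩ := ty_three t1 t2 t3
  have key : ∀ {N' M' : ℤ}, ∑ L ∈ C, (nt B L 1 : ℤ) = N' → ∑ L ∈ C, (L.card : ℤ) = M' →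
      2 * (y1 + (y2 + y3)) + 3 = N' ∧ 2 * (x1 + (x2 + x3)) + 3 = M' := fun h1 h2 => by
    rw [hsum] at h1 h2
    constructor <;> linarith
  have c1 : x1 = 1 ∧ y1 = 0 → 2 ≤ oF B Q T U F C i j La := fun h =>
    d.o31 ha (by omega) (by omega)
  have c2 : x2 = 1 ∧ y2 = 0 → 2 ≤ oF B Q T U F C i j Lb := fun h =>
    d.o31 hb (by omega) (by omega)
  have c3 : x3 = 1 ∧ y3 = 0 → 2 ≤ oF B Q T U F C i j L3 := fun h =>
    d.o31 h3 (by omega) (by omega)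
  have h4 : (x1 = 1 ∧ y1 = 0) ∨ (x2 = 1 ∧ y2 = 0) ∨ (x3 = 1 ∧ y3 = 0) →
      4 ≤ ∑ L ∈ C, oF B Q T U F C i j L := by
    rintro (h | h | h)
    · exact d.plus ha (c1 h)
    · exact d.plus hb (c2 h)
    · exact d.plus h3 (c3 h)
  have h4' : (x3 = 1 ∧ y3 = 0) ∨ ((x1 = 1 ∧ y1 = 0) ∧ (x2 = 1 ∧ y2 = 0)) →
      4 ≤ ∑ L ∈ C, oF B Q T U F C i j L := by
    rintro (h | ⟨h, _⟩)
    · exact h4 (Or.inr (Or.inr h))
    · exact h4 (Or.inl h)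
  refine ⟨fun h1 h2 => ?_, fun h1 h2 => ?_, fun h1 h2 => ?_, fun h1 h2 => ?_, fun h12 => ?_⟩
  · obtain ⟨q1, q2⟩ := key h1 h2
    obtain ⟨p1, p2, p3⟩ := r1 (by linarith) (by linarith)
    have a1 := c1 p1
    have a2 := c2 p2
    have a3 := c3 p3
    rw [hsum]
    linarith
  · obtain ⟨q1, q2⟩ := key h1 h2
    exact h4' (r2 (Or.inl ⟨by linarith, by linarith⟩))
  · obtain ⟨q1, q2⟩ := key h1 h2
    exact h4' (r2 (Or.inr ⟨by linarith, by linarith⟩))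
  · obtain ⟨q1, q2⟩ := key h1 h2
    exact h4 (r4 (by linarith) (by linarith))
  · have hsm : ∀ L ∈ C, L.card ≤ 3 ∧ nt B L 1 ≤ 5 := by
      have hall : (x1 ≤ 1 ∧ y1 ≤ 2) ∧ (x2 ≤ 1 ∧ y2 ≤ 2) ∧ (x3 ≤ 1 ∧ y3 ≤ 2) := by
        refine r5 ?_
        rcases h12 with ⟨h1, h2⟩ | ⟨h1, h2⟩ | ⟨h1, h2⟩ | ⟨h1, h2⟩ | ⟨h1, h2⟩
        · obtain ⟨q1, q2⟩ := key h1 h2
          exact Or.inl ⟨by linarith, by linarith⟩
        · obtain ⟨q1, q2⟩ := key h1 h2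
          exact Or.inr (Or.inl ⟨by linarith, by linarith⟩)
        · obtain ⟨q1, q2⟩ := key h1 h2
          exact Or.inr (Or.inr (Or.inl ⟨by linarith, by linarith⟩))
        · obtain ⟨q1, q2⟩ := key h1 h2
          exact Or.inr (Or.inr (Or.inr (Or.inl ⟨by linarith, by linarith⟩)))
        · obtain ⟨q1, q2⟩ := key h1 h2
          exact Or.inr (Or.inr (Or.inr (Or.inr ⟨by linarith, by linarith⟩)))
      obtain ⟨z1, z2, z3⟩ := hall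
      intro L hL
      rw [hC] at hL
      simp only [mem_insert, mem_singleton] at hL
      rcases hL with rfl | rfl | rfl
      · omega
      · omega
      · omega
    obtain ⟨hd1, hd2⟩ := d.don
    have hi : i ∈ Sp.Kin (Rg B Q T U F) (slj B Q F) C := by rw [d.K]; simp
    have hj : j ∈ Sp.Kin (Rg B Q T U F) (slj B Q F) C := by rw [d.K]; simp
    have hk : ∀ k ∈ Sp.Kin (Rg B Q T U F) (slj B Q F) C, ncl B Q T U F P k = 0 ∨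
        ∑ L ∈ F, jh B Q k L + ncl B Q T U F P k ≤ 9 := by
      intro k hk
      rcases Nat.eq_zero_or_pos (ncl B Q T U F P k) with h0 | h0
      · exact Or.inl h0
      · right
        rcases d.host hk h0 hs with h1 | ⟨L, hL, _, h2⟩
        · omega
        · have h3 := h2 (hsm L hL).1
          have h4 := (hsm L hL).2
          omega
    have i1 := d.kx hi
    have j1 := d.kx hj
    have i2 := hk i hi
    have j2 := hk j hj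
    have i3 := hD i hi
    have j3 := hD j hj
    rw [hdd, hd1, hd2]
    push_cast
    omega

/-- **no inside point, leaves of types (5;1) and (3;3)**: the claims. -/
theorem r048 (d : Wd2 B Q T U F P a C i j A sb) (hp : (Sp.Uin U (slf B F) C).card = 0)
    (hD : DonC B Q T U F P C) {L M : Finset V} (hC : C = {L, M}) (h5 : L.card = 5)
    (h1 : nt B L 1 = 1) (h3 : M.card = 3) (h33 : nt B M 1 = 3) {dd : ℤ}
    (hdd : dd = -tK B Q (Rg B Q T U F) F (tF B Q T U F P) C) :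
    dd ≤ 80 ∨ 3 ≤ (Frm.xC B Q T (Rg B Q T U F) U F C : ℤ) := by
  classical
  obtain ⟨_, _, _, _, hs⟩ := d.p0 hp
  have hL : L ∈ C := by rw [hC]; simp
  obtain ⟨hd1, hd2⟩ := d.don
  have hi : i ∈ Sp.Kin (Rg B Q T U F) (slj B Q F) C := by rw [d.K]; simp
  have hj : j ∈ Sp.Kin (Rg B Q T U F) (slj B Q F) C := by rw [d.K]; simp
  have hk : ∀ k ∈ Sp.Kin (Rg B Q T U F) (slj B Q F) C, ncl B Q T U F P k = 1 →
      ∑ L ∈ F, jh B Q k L = 11 → 8 ≤ jh B Q k L := by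
    intro k hk h0 h11
    rcases d.host hk (by omega) hs with h6 | ⟨K, hK, h6, h7⟩
    · omega
    · rw [hC] at hK
      simp only [mem_insert, mem_singleton] at hK
      rcases hK with rfl | rfl
      · omega
      · have := h7 (by omega)
        omega
  have i1 := d.kx hi
  have j1 := d.kx hj
  have i3 := hD i hi
  have j3 := hD j hj
  by_contra hcon
  push Not at hcon
  obtain ⟨c1, c2⟩ := hcon
  rw [hdd, hd1] at c1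
  rw [hd2] at c2
  push_cast at c2
  have i4 := hk i hi (by omega) (by omega)
  have j4 := hk j hj (by omega) (by omega)
  exact d.no_two8 hL h5 h1 i4 j4

end Wd2

end Pool.Agent.Hyp6
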