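import Pool.Agent.Hyp6.L3W8

/-!
# HYP6 L3W9: classes of rank two with two inside triples are paid

`StgR.ndok2`: a class is paid if `NI` holds with the exact payments. `StgR.exs_of2`: the excess. `Wd2.ni`:
the inequality for classes of rank two with two inside triples. `StgR.D22`: these classes are paid,
`StgR.h22`: the excess.
-/

set_option autoImplicit false

namespace Pool.Agent.Hyp6

open Finset Pool.Agent.Hyp5 Rt

universe u v

/-- the payments of a line triple with own points are at least those without. -/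
theorem sF_pm {h : ℕ} (h1 : 1 ≤ h) (h11 : h ≤ 11) : 560 + pm h ≤ sF h := by
  interval_cases h <;> decide

theorem pm_num {h : ℕ} (h1 : 1 ≤ h) (h11 : h ≤ 11) : 399 ≤ 560 + pm h ∧
    54 * (h : ℤ) ≤ 560 + pm h ∧ 381 + 18 * (h : ℤ) ≤ 560 + pm h ∧ (2 ≤ h → 463 ≤ 560 + pm h) ∧
    (3 ≤ h → 516 ≤ 560 + pm h) ∧ (5 ≤ h → 527 ≤ 560 + pm h) ∧
    (5 ≤ h → h ≤ 7 → 543 ≤ 560 + pm h) := by
  interval_cases h <;> decide

theorem NI.mono {n p K W X f e N b S S' s x d : ℤ} (h : NI n p K W X f e N b S s x d)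
    (hS : S ≤ S') : NI n p K W X f e N b S' s x d := by
  unfold NI at *
  linarith

theorem Nd.S0 {n p K W X f e N M b S s x : ℤ} (h : Nd n p K W X f e N M 0 b 0 S s x) :
    Nd n p K W X f e N M 0 b 0 0 s x := by
  obtain ⟨h1, h2, h3, h4, h5, h6, h7, h8, h9, h10, h11, h12, h13, h14, h15, h16, h17, h18, h19, h20,
    h21, h22, h23, h24, h25, h26⟩ := h
  exact ⟨h1, h2, h3, h4, h5, h6, h7, h8, h9, h10, h11, h12, h13, h14, h15, h16, h17, h18, h19, h20,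
    h21, h22, h23, by norm_num, by norm_num, by norm_num⟩

/-- the claims of two inside triples. -/
theorem listC {ci cj xi xj : ℕ} {d X : ℤ} (hd : d = 80 * ((ci : ℤ) + cj))
    (hX : X = ((xi + xj : ℕ) : ℤ))
    (hi : (ci ≤ 1 ∧ ci ≤ xi) ∨ (ci ≤ 3 ∧ 4 + ci ≤ xi))
    (hj : (cj ≤ 1 ∧ cj ≤ xj) ∨ (cj ≤ 3 ∧ 4 + cj ≤ xj)) :
    d ≤ 0 ∨ (d ≤ 80 ∧ 1 ≤ X) ∨ (d ≤ 160 ∧ 2 ≤ X) ∨ (d ≤ 240 ∧ 7 ≤ X) ∨
      (d ≤ 320 ∧ 8 ≤ X) ∨ (d ≤ 400 ∧ 13 ≤ X) ∨ (d ≤ 480 ∧ 14 ≤ X) := by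
  omega

/-- the claims of two inside triples, one of them with two claims. -/
theorem listE {ci cj xi xj : ℕ} {d X : ℤ} (hd : d = 80 * ((ci : ℤ) + cj))
    (hX : X = ((xi + xj : ℕ) : ℤ)) (hi : ci = 2 ∧ 2 ≤ xi)
    (hj : (cj ≤ 1 ∧ cj ≤ xj) ∨ (cj ≤ 3 ∧ 4 + cj ≤ xj) ∨ (cj = 2 ∧ 2 ≤ xj)) :
    (d ≤ 160 ∧ 2 ≤ X) ∨ (d ≤ 240 ∧ 3 ≤ X) ∨ (d ≤ 320 ∧ 4 ≤ X) ∨ (d ≤ 400 ∧ 9 ≤ X) ∨
      (d ≤ 480 ∧ 14 ≤ X) := by
  omega

/-- the claims of two inside triples, the other one is the host. -/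
theorem listI {ci cj xi xj : ℕ} {d X : ℤ} (hd : d = 80 * ((ci : ℤ) + cj))
    (hX : X = ((xi + xj : ℕ) : ℤ)) (hi : ci = 2 ∧ 2 ≤ xi)
    (hj : 2 + cj ≤ xj) (hj' : cj ≤ 1 ∨ (cj ≤ 2 ∧ 6 ≤ xj) ∨ (cj = 2 ∧ 4 ≤ xi)) :
    (d ≤ 160 ∧ 4 ≤ X) ∨ (d ≤ 240 ∧ 5 ≤ X) ∨ (d ≤ 320 ∧ 8 ≤ X) := by
  omega

variable {V : Type v} [DecidableEq V] {ι : Type u} [Fintype ι] [DecidableEq ι]
  {B : ι → Finset V} {Q U : Finset V} {T : Finset ι} {F : Finset (Finset V)}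
  {P : Finset (Finset (Finset V))} {a : V → Finset (Finset V) → ℕ} {C : Finset (Finset V)} {i j : ι}
  {A : Finset ι} {sb : ι → ℕ}

/-- the payment of a line triple at a class. -/
noncomputable def pJ (B : ι → Finset V) (Q U : Finset V) (F : Finset (Finset V))
    (P : Finset (Finset (Finset V))) (C : Finset (Finset V)) (j : ι) : ℤ :=
  if (lj B Q U F P j).card = 2 then 560 + pm (jC B Q j C) else sF (jC B Q j C)

/-- the data of the centres. -/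
def SbD (B : ι → Finset V) (Q : Finset V) (T : Finset ι) (U : Finset V)
    (F : Finset (Finset V)) (P : Finset (Finset (Finset V))) (C : Finset (Finset V))
    (sb : ι → ℕ) : Prop :=
  ∀ j ∈ Bc B Q T U F P C, sb j ≤ 8 ∧ sb j ≤ jC B Q j C ∧
    ∃ D ∈ par0 B U F, D ⊆ C ∧ sb j + ∑ L ∈ C \ D, jh B Q j L ≤ jC B Q j C

/-- the inequality with the payments `S` of the triples `A`. -/
def NIA (B : ι → Finset V) (Q : Finset V) (T : Finset ι) (U : Finset V)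
    (F : Finset (Finset V)) (P : Finset (Finset (Finset V)))
    (C : Finset (Finset V)) (A : Finset ι) (sb : ι → ℕ) (S : ℤ) : Prop :=
  NI C.card (Sp.Uin U (slf B F) C).card (Sp.Kin (Rg B Q T U F) (slj B Q F) C).card
    (lsC B Q T U F C) (Frm.xC B Q T (Rg B Q T U F) U F C)
    (∑ L ∈ C, fs B Q L) (∑ L ∈ C, (ee B Q L : ℤ)) (∑ L ∈ C, (nt B L 1 : ℤ))
    (Bc B Q T U F P C).card S (∑ j ∈ Bc B Q T U F P C, (sb j : ℤ)) (xA B Q T U F P C A sb)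
    (-tK B Q (Rg B Q T U F) F (tF B Q T U F P) C)

namespace StgR

/-- **a class is paid** if the inequality holds with the exact payments. -/
theorem ndok2 (s : StgR B Q T U F P a) (hC : C ∈ P) (hf : ¬ Ful B Q T U F P a C)
    (h : ∀ sb : ι → ℕ, SbD B Q T U F P C sb →
      NIA B Q T U F P C (aC B Q T U F P C) sb (∑ k ∈ aC B Q T U F P C, pJ B Q U F P C k)) :
    NdOk B Q T U F P a C := by
  refine s.nd_ok hC hf fun _ => ?_
  obtain ⟨sb, hsb, hT⟩ := s.toStg.trsD hC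
  have h1 := h sb hsb
  unfold NIA NI xA at h1
  rw [Finset.sdiff_self, sum_empty, add_zero] at h1
  have h2 := s.toStg.ms_eq 149 hC
  have h3 := s.toStg.ndC_cst (v := 149) (t := tF B Q T U F P) (C := C)
  have h4 := (s.toStg.nm hC).dem
  have h5 : ndC 149 B Q T U F P a (tF B Q T U F P) C = msC 149 B Q T U F P a C -
      ∑ k ∈ Sp.Kin (Rg B Q T U F) (slj B Q F) C, tF B Q T U F P k := rfl
  have h6 : tK B Q (Rg B Q T U F) F (tF B Q T U F P) C =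
      ∑ k ∈ Sp.Kin (Rg B Q T U F) (slj B Q F) C, tF B Q T U F P k := rfl
  unfold cstY at h3
  have h8 : ∑ k ∈ KC B Q T U F C,
      (600 - 160 * ((jn B Q (Ep B Q T U F) k : ℤ) + jb B Q T U k) - tF B Q T U F P k) =
      ∑ k ∈ Sp.Kin (Rg B Q T U F) (slj B Q F) C,
        (600 - 160 * ((jn B Q (Ep B Q T U F) k : ℤ) + jb B Q T U k)) -
      ∑ k ∈ Sp.Kin (Rg B Q T U F) (slj B Q F) C, tF B Q T U F P k := by
    rw [← sum_sub_distrib]
  have h9 : ∑ k ∈ aC B Q T U F P C, cJ B Q U F P k C =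
      ∑ k ∈ aC B Q T U F P C, (144 * (jC B Q k C : ℤ)) -
        ∑ k ∈ aC B Q T U F P C, pJ B Q U F P C k := by
    rw [← sum_sub_distrib]
    refine sum_congr rfl fun k _ => ?_
    unfold cJ pJ
    split_ifs <;> ring
  have h10 : ∑ k ∈ aC B Q T U F P C, (144 * (jC B Q k C : ℤ) - 560 +
          112 * (Sp.owl U (slf B F) P (lj B Q U F P) a k C : ℤ)) =
      ∑ k ∈ aC B Q T U F P C, (144 * (jC B Q k C : ℤ)) -
        ∑ k ∈ aC B Q T U F P C, (560 - 112 * (owj B Q U F P a k C : ℤ)) := by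
    rw [← sum_sub_distrib]
    exact sum_congr rfl fun k _ => by ring
  have h11 : ∑ j ∈ Bc B Q T U F P C, (584 - 16 * (sb j : ℤ)) =
      584 * ((Bc B Q T U F P C).card : ℤ) - 16 * ∑ j ∈ Bc B Q T U F P C, (sb j : ℤ) := by
    rw [sum_sub_distrib, sum_const, nsmul_eq_mul, ← mul_sum]
    ring
  rw [h10] at h2
  rw [h11] at hT
  unfold nC
  rw [h9, h8]
  linarith

/-- **the excess** if the inequality holds with the exact payment. -/
theorem exs_of2 (s : StgR B Q T U F P a) (hC : C ∈ P) (hf : ¬ Ful B Q T U F P a C)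
    (hj : j ∈ aC B Q T U F P C)
    (h : ∀ sb : ι → ℕ, SbD B Q T U F P C sb → NIA B Q T U F P C {j} sb (sF (jC B Q j C))) :
    Exs B Q T U F P a (tF B Q T U F P) j C ≤ exS (jC B Q j C) := by
  obtain ⟨sb, hsb, hT⟩ := s.toStg.trsD hC
  have h1 := h sb hsb
  unfold NIA NI xA at h1
  rw [sdiff_singleton_eq_erase] at h1
  have h2 := s.toStg.xcl_le8y 149 (tF B Q T U F P) hC hf hj
  have h4 := (s.toStg.nm hC).dem
  have hyo := s.toStg.yC_owj hC hf j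
  have h11 : ∑ j ∈ Bc B Q T U F P C, (584 - 16 * (sb j : ℤ)) =
      584 * ((Bc B Q T U F P C).card : ℤ) - 16 * ∑ j ∈ Bc B Q T U F P C, (sb j : ℤ) := by
    rw [sum_sub_distrib, sum_const, nsmul_eq_mul, ← mul_sum]
    ring
  rw [h11] at hT
  unfold Exs exS
  linarith

end StgR

namespace Wd2

/-- the facts about the claims: one kind or the other. -/
theorem cases (d : Wd2 B Q T U F P a C i j A sb) (hD : DonS B Q T U F P C) :
    DonC B Q T U F P C ∨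
      ∃ k l, Sp.Kin (Rg B Q T U F) (slj B Q F) C = {k, l} ∧ k ≠ l ∧ ncl B Q T U F P k = 2 ∧
        (∃ (m : ι) (x : V), m ∈ T ∧ m ≠ k ∧ {x} ∈ C ∧ hit B U {x} = 0 ∧ 6 ≤ jh B Q m {x} ∧
          ∑ L ∈ F, jh B Q m L + 2 + ncl B Q T U F P m ≤ 12) ∧
        (ncl B Q T U F P l ≤ 1 ∨
          (ncl B Q T U F P l ≤ 3 ∧ ∑ L ∈ F, jh B Q l L + ncl B Q T U F P l ≤ 8) ∨
          (ncl B Q T U F P l = 2 ∧ ∃ (m : ι) (x : V), m ∈ T ∧ m ≠ l ∧ {x} ∈ C ∧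
            hit B U {x} = 0 ∧ 6 ≤ jh B Q m {x} ∧
            ∑ L ∈ F, jh B Q m L + 2 + ncl B Q T U F P m ≤ 12)) := by
  obtain ⟨R, _, hR⟩ := hD
  have hi := hR i (by rw [d.K]; simp)
  have hj := hR j (by rw [d.K]; simp)
  have conv : ∀ {k : ι}, (ncl B Q T U F P k ≤ 1 ∨
      (ncl B Q T U F P k ≤ 3 ∧ ∑ L ∈ F, jh B Q k L + ncl B Q T U F P k ≤ 8) ∨
      (ncl B Q T U F P k = 2 ∧ ∃ (j : ι) (x : V), R j k ∧ j ∈ T ∧ j ≠ k ∧ {x} ∈ C ∧
        hit B U {x} = 0 ∧ 6 ≤ jh B Q j {x} ∧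
        ∑ L ∈ F, jh B Q j L + 2 + ncl B Q T U F P j ≤ 12)) →
      (ncl B Q T U F P k ≤ 1 ∨
      (ncl B Q T U F P k ≤ 3 ∧ ∑ L ∈ F, jh B Q k L + ncl B Q T U F P k ≤ 8)) ∨
      (ncl B Q T U F P k = 2 ∧ ∃ (m : ι) (x : V), m ∈ T ∧ m ≠ k ∧ {x} ∈ C ∧
            hit B U {x} = 0 ∧ 6 ≤ jh B Q m {x} ∧
            ∑ L ∈ F, jh B Q m L + 2 + ncl B Q T U F P m ≤ 12) := by
    rintro k (h | h | ⟨h, m, x, _, h2, h3, h4, h5, h6, h7⟩)
    · exact Or.inl (Or.inl h)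
    · exact Or.inl (Or.inr h)
    · exact Or.inr ⟨h, m, x, h2, h3, h4, h5, h6, h7⟩
  rcases conv hi with h1 | h1
  · rcases conv hj with h2 | h2
    · left
      intro k hk
      rw [d.K] at hk
      simp only [mem_insert, mem_singleton] at hk
      rcases hk with rfl | rfl
      · exact h1
      · exact h2
    · right
      exact ⟨j, i, by rw [d.K, pair_comm], d.ij.symm, h2.1, h2.2, or_assoc.1 (Or.inl h1)⟩
  · right
    exact ⟨i, j, d.K, d.ij, h1.1, h1.2, or_assoc.1 (conv hj)⟩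

end Wd2

end Pool.Agent.Hyp6
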