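import Pool.Agent.Hyp6.L3Gk
import Pool.Agent.Hyp6.L3Tw

/-!
# HYP6 L3X3: leaves with three points and nine blocks

A part with three points, cover number two and nine blocks, outside of a full block `T`: the points of
`T` have at most seven hits on it.
-/

set_option autoImplicit false

namespace Pool.Agent.Hyp6

open Finset Pool.Agent.Hyp5

universe u v

variable {V : Type v} [DecidableEq V] {ι : Type u} [Fintype ι] {B : ι → Finset V}

/-- a part with three points and nine blocks, outside of a full block. -/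
structure Lt3 (B : ι → Finset V) (Q L : Finset V) (j0 : ι) : Prop where
  viol : ViolR B Q
  c3 : (B j0 ∩ Q).card = 3
  LQ : L ⊆ Q \ (B j0 ∩ Q)
  conn : Conn (gr B) L
  crit : Crit B L
  svL : sv B L = -1
  cL : L.card = 3
  cmL : cm B L = 9

/-- the number of blocks of `S` through `x`, not through `y`, `z`. -/
def k1 (B : ι → Finset V) (S : Finset ι) (x y z : V) : ℕ :=
  (S.filter (fun i => x ∈ B i ∧ y ∉ B i ∧ z ∉ B i)).card

/-- the number of blocks of `S` through `x` and `y`. -/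
def k2 (B : ι → Finset V) (S : Finset ι) (x y : V) : ℕ :=
  (S.filter (fun i => x ∈ B i ∧ y ∈ B i)).card

namespace Lt3

variable {Q L : Finset V} {j0 : ι} {p q r : V}

theorem LQ' (h : Lt3 B Q L j0) : L ⊆ Q := h.LQ.trans sdiff_subset

theorem cov (h : Lt3 B Q L j0) : Cov B L := h.viol.cov.mono h.LQ'

theorem rhoL (h : Lt3 B Q L j0) : rho B L = 2 := by
  have h1 := h.svL
  unfold sv at h1
  rw [h.cL] at h1
  omega

theorem PvL (h : Lt3 B Q L j0) : Pv B L = 3 := by
  rw [Hyp6.Pv_eq, h.cL, h.cmL, h.rhoL]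
  norm_num

theorem dvL_le (h : Lt3 B Q L j0) : dv B Q L ≤ 3 := by
  unfold dv
  have h1 := h.PvL
  have h2 : (0 : ℤ) ≤ ee B Q L := by positivity
  linarith

theorem not3 (h : Lt3 B Q L j0) (i : ι) : ¬ L ⊆ B i := by
  intro h1
  have h2 : rho B L ≤ ({i} : Finset ι).card :=
    Hyp6.rho_le (by rw [singleton_biUnion]; exact h1)
  rw [h.rhoL, card_singleton] at h2
  omega

theorem abz (h : Lt3 B Q L j0) {i j : ι} (hL : L ⊆ B i ∪ B j) {A : Finset V}
    (hA : A ⊆ B i ∪ B j) : Abz B L A := by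
  classical
  refine ⟨{i, j}, ?_, ?_⟩
  · rw [biUnion_insert, singleton_biUnion]
    exact union_subset hL hA
  · rw [h.rhoL]
    exact card_le_two

theorem lt (h : Lt3 B Q L j0) : L.card + 3 ≤ Q.card := by
  have h1 := card_le_card h.LQ
  rw [card_sdiff_of_subset inter_subset_right, h.c3] at h1
  have h2 := h.c3
  have h3 := card_le_card (inter_subset_right : B j0 ∩ Q ⊆ Q)
  omega

theorem cp3 (h : Lt3 B Q L j0) : Cp3 B Q L where
  ih := h.viol.ih
  reg := h.viol.reg
  tr := h.viol.tr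
  cq := h.viol.conn
  sub := h.LQ'
  conn := h.conn
  card := h.lt

theorem out (h : Lt3 B Q L j0) {t : V} (ht : t ∈ B j0 ∩ Q) : t ∉ L := fun h1 =>
  (mem_sdiff.1 (h.LQ h1)).2 ht

/-- a point of the full block has at most four hits. -/
theorem four (h : Lt3 B Q L j0) {t : V} (ht : t ∈ B j0 ∩ Q) : (Ez B L t).card ≤ 4 := by
  have h1 := (h.viol.dlt h.c3 h.LQ (card_pos.1 (by rw [h.cL]; norm_num)) h.crit h.svL).five
    (mem_inter.1 ht).2
  rw [if_pos (mem_inter.1 ht).1] at h1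
  omega

/-- some outside point sees the part. -/
theorem out_pos (h : Lt3 B Q L j0) : 1 ≤ hit B ((Q \ (B j0 ∩ Q)) \ L) L := by
  by_contra hcon
  have h0 : hit B ((Q \ (B j0 ∩ Q)) \ L) L = 0 := by omega
  have hcl : Closed (gr B) (Q \ (B j0 ∩ Q)) L := by
    refine ⟨h.LQ, fun x hx y hy hxy => ?_⟩
    by_contra hyL
    obtain ⟨_, i, hi1, hi2⟩ := hxy
    rw [hit_eq_Ez, sum_eq_zero_iff] at h0
    have h1 := h0 y (mem_sdiff.2 ⟨hy, hyL⟩)
    rw [card_eq_zero] at h1
    have h2 : i ∈ Ez B L y := mem_Ez.2 ⟨hi2, x, mem_inter.2 ⟨hi1, hx⟩⟩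
    rw [h1] at h2
    exact notMem_empty _ h2
  have h1 := h.viol.lemA h.c3
  have h2 := h1.1.2 L hcl (card_pos.1 (by rw [h.cL]; norm_num))
  have h3 := h1.2.2.2.1
  rw [← h2, h.svL] at h3
  have h4 := h.viol.sv1
  linarith

/-- the number of all hits. -/
theorem hits (h : Lt3 B Q L j0) :
    hit B (B j0 ∩ Q) L + hit B ((Q \ (B j0 ∩ Q)) \ L) L + 4 * ee B Q L ≤ 12 := by
  classical
  have hrL : Reg B L := h.viol.reg.mono h.LQ'
  have hd : Disjoint L (Q \ L) := disjoint_sdiff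
  have h1 := hit_add_fs hrL hd
  have h2 : L ∪ (Q \ L) = Q := union_sdiff_of_subset h.LQ'
  rw [h2] at h1
  have h3 : hc B L = 12 := by
    unfold hc
    rw [h.cL, h.cmL]
    norm_num
  have h4 : hit B (Q \ L) L = hit B (B j0 ∩ Q) L + hit B ((Q \ (B j0 ∩ Q)) \ L) L := by
    rw [← hit_union_left]
    · congr 1
      ext v
      simp only [mem_sdiff, mem_union, mem_inter]
      constructor
      · rintro ⟨h5, h6⟩
        by_cases h7 : v ∈ B j0
        · exact Or.inl ⟨h7, h5⟩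
        · exact Or.inr ⟨⟨h5, fun h8 => h7 h8.1⟩, h6⟩
      · rintro (h5 | h5)
        · exact ⟨h5.2, h.out (mem_inter.2 h5)⟩
        · exact ⟨h5.1.1, h5.2⟩
    · rw [disjoint_left]
      intro v hv hv'
      exact (mem_sdiff.1 (mem_sdiff.1 hv').1).2 hv
  -- the points with two single traces
  have h5 : (4 : ℤ) * ee B Q L ≤ fs B Q L := by
    have h6 := two_ee_le (B := B) Q L
    set S := (ins B Q L).filter (fun i => (B i ∩ Q).card = 1) with hS
    have hSt : S ⊆ tch B L := by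
      intro i hi
      obtain ⟨h7, h8⟩ := mem_filter.1 hi
      obtain ⟨⟨v, hv⟩, h10⟩ := mem_ins.1 h7
      exact cost_mem_tch.2 ⟨v, mem_inter.2 ⟨(mem_inter.1 hv).1, h10 hv⟩⟩
    have h7 : (2 * (S.card : ℤ)) ≤ fs B Q L := by
      unfold fs
      refine le_trans ?_ (sum_le_sum_of_subset_of_nonneg hSt fun i _ _ => ?_)
      · rw [mul_comm, ← nsmul_eq_mul, ← sum_const]
        refine sum_le_sum fun i hi => ?_
        rw [(mem_filter.1 hi).2]
        norm_num
      · have := h.viol.tr i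
        have h8 : ((B i ∩ Q).card : ℤ) ≤ 3 := by exact_mod_cast this
        linarith
    have h8 : (2 * (ee B Q L : ℤ)) ≤ S.card := by exact_mod_cast h6
    linarith
  rw [h3, h4] at h1
  push_cast at h1
  have h9 : ((hit B (B j0 ∩ Q) L + hit B ((Q \ (B j0 ∩ Q)) \ L) L + 4 * ee B Q L : ℕ) : ℤ) ≤
      (12 : ℕ) := by
    push_cast
    linarith
  exact_mod_cast h9

/-- the two points of the full block besides `t` are not absorbed if `t` has at most three hits. -/
theorem refuse (h : Lt3 B Q L j0) (h8 : 8 ≤ hit B (B j0 ∩ Q) L) {t : V} (ht : t ∈ B j0 ∩ Q)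
    (ht3 : (Ez B L t).card ≤ 3) : ¬ Abz B L ((B j0 ∩ Q).erase t) := by
  intro hab
  have h1 := h.hits
  have h2 := h.out_pos
  have h3 : ee B Q L = 0 := by omega
  have h4 := h.viol.s1 h.c3 h.LQ (card_pos.1 (by rw [h.cL]; norm_num)) h.crit h.svL
    (mem_inter.1 ht).1 (mem_inter.1 ht).2 (nu := 4) (by norm_num) (by omega) (by omega)
    (Or.inl hab)
  have h5 : dv B Q L = 3 := by
    unfold dv
    rw [h.PvL, h3]
    norm_num
  rw [h5] at h4
  split_ifs at h4 <;> norm_num at h4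

/-! ### the structure with points `p, q, r` -/

/-- the classes of the blocks. -/
theorem cls (h : Lt3 B Q L j0) (hL : L = {p, q, r}) {S : Finset ι} (hS : S ⊆ tch B L) :
    S.card = k1 B S p q r + k1 B S q p r + k1 B S r p q + k2 B S p q + k2 B S p r +
      k2 B S q r := by
  classical
  unfold k1 k2
  simp only [card_filter]
  rw [← sum_add_distrib, ← sum_add_distrib, ← sum_add_distrib, ← sum_add_distrib,
    ← sum_add_distrib, card_eq_sum_ones]
  refine sum_congr rfl fun i hi => ?_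
  have h1 : ¬ (p ∈ B i ∧ q ∈ B i ∧ r ∈ B i) := by
    rintro ⟨h2, h3, h4⟩
    refine h.not3 i fun v hv => ?_
    rw [hL] at hv
    simp only [mem_insert, mem_singleton] at hv
    rcases hv with rfl | rfl | rfl
    · exact h2
    · exact h3
    · exact h4
  have h2 : p ∈ B i ∨ q ∈ B i ∨ r ∈ B i := by
    obtain ⟨v, hv⟩ := cost_mem_tch.1 (hS hi)
    obtain ⟨h3, h4⟩ := mem_inter.1 hv
    rw [hL] at h4
    simp only [mem_insert, mem_singleton] at h4
    rcases h4 with rfl | rfl | rfl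
    · exact Or.inl h3
    · exact Or.inr (Or.inl h3)
    · exact Or.inr (Or.inr h3)
  by_cases hp : p ∈ B i <;> by_cases hq : q ∈ B i <;> by_cases hr : r ∈ B i <;>
    simp [hp, hq, hr] at h1 h2 ⊢

/-- the blocks through `p`. -/
theorem deg (h : Lt3 B Q L j0) (hL : L = {p, q, r}) :
    k1 B (tch B L) p q r + k2 B (tch B L) p q + k2 B (tch B L) p r = 5 := by
  classical
  have hpL : p ∈ L := by rw [hL]; simp
  have h0 := h.viol.reg p (h.LQ' hpL)
  have h1 : univ.filter (fun i => p ∈ B i) = (tch B L).filter (fun i => p ∈ B i) := by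
    ext i
    simp only [mem_filter, mem_univ, true_and, cost_mem_tch]
    exact ⟨fun h2 => ⟨⟨p, mem_inter.2 ⟨h2, hpL⟩⟩, h2⟩, fun h2 => h2.2⟩
  rw [h1] at h0
  rw [← h0]
  unfold k1 k2
  simp only [card_filter]
  rw [← sum_add_distrib, ← sum_add_distrib]
  refine sum_congr rfl fun i hi => ?_
  have h1 : ¬ (p ∈ B i ∧ q ∈ B i ∧ r ∈ B i) := by
    rintro ⟨h2, h3, h4⟩
    refine h.not3 i fun v hv => ?_
    rw [hL] at hv
    simp only [mem_insert, mem_singleton] at hv
    rcases hv with rfl | rfl | rfl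
    · exact h2
    · exact h3
    · exact h4
  by_cases hp : p ∈ B i <;> by_cases hq : q ∈ B i <;> by_cases hr : r ∈ B i <;>
    simp [hp, hq, hr] at h1 ⊢

/-- two points have at most three common blocks. -/
theorem twin (h : Lt3 B Q L j0) (hL : L = {p, q, r}) (hpq : p ≠ q) :
    k2 B (tch B L) p q ≤ 3 := by
  have hpL : p ∈ L := by rw [hL]; simp
  have hqL : q ∈ L := by rw [hL]; simp
  have h1 := h.viol.twin_of (h.LQ' hpL) (h.LQ' hqL) hpq (h.viol.conn_sdiff (by
    intro v hv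
    simp only [mem_insert, mem_singleton] at hv
    rcases hv with rfl | rfl
    · exact h.LQ' hpL
    · exact h.LQ' hqL) card_le_two)
  refine (card_le_card ?_).trans h1
  intro i hi
  exact mem_filter.2 ⟨mem_univ _, (mem_filter.1 hi).2⟩

omit [Fintype ι] in
theorem k2_comm (S : Finset ι) (x y : V) : k2 B S x y = k2 B S y x := by
  unfold k2
  congr 1
  ext i
  simp only [mem_filter]
  tauto

omit [Fintype ι] in
theorem k1_comm (S : Finset ι) (x y z : V) : k1 B S x y z = k1 B S x z y := by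
  unfold k1
  congr 1
  ext i
  simp only [mem_filter]
  tauto

/-- the numbers of the classes. -/
theorem nums (h : Lt3 B Q L j0) (hL : L = {p, q, r}) (hpq : p ≠ q) (hpr : p ≠ r) (hqr : q ≠ r) :
    k1 B (tch B L) p q r + k1 B (tch B L) q p r + k1 B (tch B L) r p q = 3 ∧
    k2 B (tch B L) q r = 1 + k1 B (tch B L) p q r ∧
    k2 B (tch B L) p r = 1 + k1 B (tch B L) q p r ∧
    k2 B (tch B L) p q = 1 + k1 B (tch B L) r p q ∧
    k1 B (tch B L) p q r ≤ 2 ∧ k1 B (tch B L) q p r ≤ 2 ∧ k1 B (tch B L) r p q ≤ 2 := by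
  have hL2 : L = {q, p, r} := by rw [hL]; exact insert_comm _ _ _
  have hL3 : L = {r, p, q} := by
    rw [hL]
    ext v
    simp only [mem_insert, mem_singleton]
    tauto
  have e1 := h.deg hL
  have e2 := h.deg hL2
  have e3 := h.deg hL3
  have e4 := h.cls hL (Subset.refl _)
  have e5 : (tch B L).card = 9 := h.cmL
  have t1 := h.twin hL hpq
  have t2 := h.twin (p := p) (q := r) (r := q) (by
    rw [hL]
    ext v
    simp only [mem_insert, mem_singleton]
    tauto) hpr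
  have t3 := h.twin (p := q) (q := r) (r := p) (by
    rw [hL]
    ext v
    simp only [mem_insert, mem_singleton]
    tauto) hqr
  rw [k2_comm _ q p] at e2
  rw [k2_comm _ r p, k2_comm _ r q] at e3
  omega

omit [Fintype ι] in
/-- disjoint families of blocks. -/
theorem add_le {S S' S0 : Finset ι} (hd : Disjoint S S') (h1 : S ⊆ S0) (h2 : S' ⊆ S0)
    (P : ι → Prop) [DecidablePred P] :
    (S.filter P).card + (S'.filter P).card ≤ (S0.filter P).card := by
  classical
  have h3 : Disjoint (S.filter P) (S'.filter P) :=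
    disjoint_of_subset_left (filter_subset _ _) (disjoint_of_subset_right (filter_subset _ _) hd)
  rw [← card_union_of_disjoint h3]
  exact card_le_card (union_subset (filter_subset_filter _ h1) (filter_subset_filter _ h2))

/-- a refused pair. -/
theorem ref (h : Lt3 B Q L j0) {a x : V} (hna : ¬ Abz B L {a, x}) {P P' : ι → Prop}
    [DecidablePred P] [DecidablePred P'] (hP : ∀ i j, P i → P' j → L ⊆ B i ∪ B j) :
    ((Ez B L a).filter P).card = 0 ∨ ((Ez B L x).filter P').card = 0 := by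
  by_contra hcon
  push Not at hcon
  obtain ⟨i, hi⟩ := card_pos.1 (Nat.pos_of_ne_zero hcon.1)
  obtain ⟨j, hj⟩ := card_pos.1 (Nat.pos_of_ne_zero hcon.2)
  obtain ⟨hi1, hi2⟩ := mem_filter.1 hi
  obtain ⟨hj1, hj2⟩ := mem_filter.1 hj
  refine hna (h.abz (hP i j hi2 hj2) ?_)
  intro v hv
  simp only [mem_insert, mem_singleton] at hv
  rcases hv with rfl | rfl
  · exact mem_union_left _ (mem_Ez.1 hi1).1
  · exact mem_union_right _ (mem_Ez.1 hj1).1

end Lt3

/-- the only pattern of a refused pair with four and two hits. -/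
theorem num422 {s1 s2 s3 a1 a2 a3 a12 a13 a23 x1 x2 x3 x12 x13 x23 : ℕ} (hs : s1 + s2 + s3 = 3)
    (h12 : s2 ≤ s1) (h23 : s3 ≤ s2) (hs1 : s1 ≤ 2)
    (ha : a1 + a2 + a3 + a12 + a13 + a23 = 4) (hx : x1 + x2 + x3 + x12 + x13 + x23 = 2)
    (c1 : a1 + x1 ≤ s1) (c2 : a2 + x2 ≤ s2) (c3 : a3 + x3 ≤ s3) (c12 : a12 + x12 ≤ 1 + s3)
    (c13 : a13 + x13 ≤ 1 + s2) (c23 : a23 + x23 ≤ 1 + s1)
    (d1 : a23 = 0 ∨ x1 = 0) (d2 : a13 = 0 ∨ x2 = 0) (d3 : a12 = 0 ∨ x3 = 0)
    (e1 : a1 = 0 ∨ x23 = 0) (e2 : a2 = 0 ∨ x13 = 0) (e3 : a3 = 0 ∨ x12 = 0)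
    (f1 : a12 = 0 ∨ x13 = 0) (f2 : a12 = 0 ∨ x23 = 0) (f3 : a13 = 0 ∨ x12 = 0)
    (f4 : a13 = 0 ∨ x23 = 0) (f5 : a23 = 0 ∨ x12 = 0) (f6 : a23 = 0 ∨ x13 = 0) :
    s1 = 2 ∧ s2 = 1 ∧ s3 = 0 ∧ a12 = 1 ∧ a13 = 2 ∧ a23 = 0 ∧ a1 = 0 ∧ a2 = 1 ∧ x1 = 2 ∧
      x2 = 0 ∧ x12 = 0 ∧ x13 = 0 ∧ x23 = 0 := by
  have hx12 : x12 = 0 := by
    by_contra hn
    have g1 := e3.resolve_right hn
    have g2 := f3.resolve_right hn
    have g3 := f5.resolve_right hn
    clear d1 d2 d3 e1 e2 e3 f1 f2 f3 f4 f5 f6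
    omega
  have hx13 : x13 = 0 := by
    by_contra hn
    have g1 := e2.resolve_right hn
    have g2 := f1.resolve_right hn
    have g3 := f6.resolve_right hn
    clear d1 d2 d3 e1 e2 e3 f1 f2 f3 f4 f5 f6
    omega
  have hx23 : x23 = 0 := by
    by_contra hn
    have g1 := e1.resolve_right hn
    have g2 := f2.resolve_right hn
    have g3 := f4.resolve_right hn
    clear d1 d2 d3 e1 e2 e3 f1 f2 f3 f4 f5 f6
    omega
  clear e1 e2 e3 f1 f2 f3 f4 f5 f6
  omega

end Pool.Agent.Hyp6
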