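import Pool.Agent.Hyp6.L3X3

/-!
# HYP6 L3X4: leaves with three points and nine blocks, the last pattern

The hits `4, 2, 2` where both pairs with the first point are refused: one configuration, excluded by a
general deletion. Conclusion: a full block has at most seven hits on such a part.
-/

set_option autoImplicit false

namespace Pool.Agent.Hyp6

open Finset Pool.Agent.Hyp5

universe u v

variable {V : Type v} [DecidableEq V] {ι : Type u} [Fintype ι] {B : ι → Finset V}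

/-- the last configuration. -/
structure X2c (B : ι → Finset V) (Q L : Finset V) (j0 : ι) (p q r a b c : V) (s2 : ι) :
    Prop where
  lt : Lt3 B Q L j0
  hL : L = {p, q, r}
  pq : p ≠ q
  pr : p ≠ r
  qr : q ≠ r
  hT : B j0 ∩ Q = {a, b, c}
  ab : a ≠ b
  ac : a ≠ c
  bc : b ≠ c
  kpq : ∀ i, p ∈ B i → q ∈ B i → a ∈ B i
  kpr : ∀ i, p ∈ B i → r ∈ B i → a ∈ B i
  kqr : ∀ i, q ∈ B i → r ∈ B i → a ∉ B i ∧ b ∉ B i ∧ c ∉ B i
  sp : ∀ i, p ∈ B i → q ∉ B i → r ∉ B i → b ∈ B i ∧ c ∈ B i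
  sq : ∀ i, q ∈ B i → p ∉ B i → r ∉ B i → i = s2
  sr : ∀ i, r ∈ B i → p ∈ B i ∨ q ∈ B i
  q2 : q ∈ B s2
  a2 : a ∈ B s2
  b2 : b ∉ B s2
  c2 : c ∉ B s2
  n23 : k2 B (tch B L) q r = 3
  exp : ∃ i, p ∈ B i ∧ q ∉ B i ∧ r ∉ B i
  exr : ∃ i, p ∈ B i ∧ r ∈ B i
  hb : (Ez B L b).card = 2
  hc : (Ez B L c).card = 2
  dv3 : dv B Q L = 3

namespace X2c

variable {Q L : Finset V} {j0 s2 : ι} {p q r a b c : V}

theorem pL (h : X2c B Q L j0 p q r a b c s2) : p ∈ L := by rw [h.hL]; simp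
theorem qL (h : X2c B Q L j0 p q r a b c s2) : q ∈ L := by rw [h.hL]; simp
theorem rL (h : X2c B Q L j0 p q r a b c s2) : r ∈ L := by rw [h.hL]; simp

theorem aT (h : X2c B Q L j0 p q r a b c s2) : a ∈ B j0 ∩ Q := by rw [h.hT]; simp
theorem bT (h : X2c B Q L j0 p q r a b c s2) : b ∈ B j0 ∩ Q := by rw [h.hT]; simp
theorem cT (h : X2c B Q L j0 p q r a b c s2) : c ∈ B j0 ∩ Q := by rw [h.hT]; simp

/-- four points in a block. -/
theorem no4 (h : X2c B Q L j0 p q r a b c s2) {i : ι} {x y z w : V} (hx : x ∈ B i ∩ Q)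
    (hy : y ∈ B i ∩ Q) (hz : z ∈ B i ∩ Q) (hw : w ∈ B i ∩ Q) (hxy : x ≠ y) (hxz : x ≠ z)
    (hyz : y ≠ z) (hwx : w ≠ x) (hwy : w ≠ y) (hwz : w ≠ z) : False := by
  have h1 : ({w, x, y, z} : Finset V) ⊆ B i ∩ Q := by
    intro v hv
    simp only [mem_insert, mem_singleton] at hv
    rcases hv with rfl | rfl | rfl | rfl
    · exact hw
    · exact hx
    · exact hy
    · exact hz
  have h2 := card_le_card h1
  have h3 := h.lt.viol.tr i
  rw [card_insert_of_notMem (by simp [hwx, hwy, hwz]), card_insert_of_notMem (by simp [hxy, hxz]),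
    card_pair hyz] at h2
  omega

/-- the deleted points. -/
def X (B : ι → Finset V) (Q L : Finset V) (s2 : ι) : Finset V := (B s2 ∩ Q) \ L

/-- the blocks through `q` and `r`. -/
def K (B : ι → Finset V) (L : Finset V) (q r : V) : Finset ι :=
  (tch B L).filter (fun i => q ∈ B i ∧ r ∈ B i)

/-- the outside points of the new blocks. -/
def O (B : ι → Finset V) (Q L : Finset V) (s2 i : ι) : Finset V := (B i ∩ Q) \ (L ∪ X B Q L s2)

/-- the points with new blocks. -/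
def Y (B : ι → Finset V) (Q L : Finset V) (s2 : ι) (q r b c : V) : Finset V :=
  {b, c} ∪ (K B L q r).biUnion (O B Q L s2)

omit [Fintype ι] in
theorem mem_X {v : V} : v ∈ X B Q L s2 ↔ v ∈ B s2 ∧ v ∈ Q ∧ v ∉ L := by
  unfold X
  simp only [mem_sdiff, mem_inter]
  tauto

theorem mem_K (h : X2c B Q L j0 p q r a b c s2) {i : ι} :
    i ∈ K B L q r ↔ q ∈ B i ∧ r ∈ B i := by
  unfold K
  simp only [mem_filter, cost_mem_tch]
  exact ⟨fun h1 => h1.2, fun h1 => ⟨⟨q, mem_inter.2 ⟨h1.1, h.qL⟩⟩, h1⟩⟩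

omit [Fintype ι] in
theorem mem_O {i : ι} {v : V} : v ∈ O B Q L s2 i ↔ v ∈ B i ∧ v ∈ Q ∧ v ∉ L ∧ v ∉ X B Q L s2 := by
  unfold O
  simp only [mem_sdiff, mem_inter, mem_union]
  tauto

theorem mem_Y {v : V} : v ∈ Y B Q L s2 q r b c ↔ v = b ∨ v = c ∨
    ∃ i ∈ K B L q r, v ∈ O B Q L s2 i := by
  unfold Y
  simp only [mem_union, mem_insert, mem_singleton, mem_biUnion]
  tauto

theorem aX (h : X2c B Q L j0 p q r a b c s2) : a ∈ X B Q L s2 :=
  mem_X.2 ⟨h.a2, (mem_inter.1 h.aT).2, h.lt.out h.aT⟩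

theorem bX (h : X2c B Q L j0 p q r a b c s2) : b ∉ X B Q L s2 := fun h1 => h.b2 (mem_X.1 h1).1
theorem cX (h : X2c B Q L j0 p q r a b c s2) : c ∉ X B Q L s2 := fun h1 => h.c2 (mem_X.1 h1).1

omit [Fintype ι] in
theorem XQ : X B Q L s2 ⊆ Q := fun _ hv => (mem_X.1 hv).2.1

theorem YQ (h : X2c B Q L j0 p q r a b c s2) : Y B Q L s2 q r b c ⊆ Q := by
  intro v hv
  rcases mem_Y.1 hv with rfl | rfl | ⟨i, _, hi⟩
  · exact (mem_inter.1 h.bT).2
  · exact (mem_inter.1 h.cT).2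
  · exact (mem_O.1 hi).2.1

theorem X_card (h : X2c B Q L j0 p q r a b c s2) : (X B Q L s2).card ≤ 2 := by
  have h1 := h.lt.viol.tr s2
  have h2 : insert q (X B Q L s2) ⊆ B s2 ∩ Q := by
    intro v hv
    rcases mem_insert.1 hv with rfl | hv
    · exact mem_inter.2 ⟨h.q2, h.lt.LQ' h.qL⟩
    · exact mem_inter.2 ⟨(mem_X.1 hv).1, (mem_X.1 hv).2.1⟩
  have h3 := card_le_card h2
  rw [card_insert_of_notMem (fun h4 => (mem_X.1 h4).2.2 h.qL)] at h3
  omega

theorem X_pos (h : X2c B Q L j0 p q r a b c s2) : 1 ≤ (X B Q L s2).card :=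
  card_pos.2 ⟨a, h.aX⟩

/-- the outside points of the blocks at `L` which are not `a, b, c`. -/
theorem pt (h : X2c B Q L j0 p q r a b c s2) {i : ι} {v : V} (hi : (B i ∩ L).Nonempty)
    (hv : v ∈ B i) (hvQ : v ∈ Q) (hvL : v ∉ L) (hvX : v ∉ X B Q L s2) (hvb : v ≠ b)
    (hvc : v ≠ c) : i ∈ K B L q r := by
  have hva : v ≠ a := fun h1 => hvX (h1 ▸ h.aX)
  have hvp : v ≠ p := fun h1 => hvL (h1 ▸ h.pL)
  have hvq : v ≠ q := fun h1 => hvL (h1 ▸ h.qL)
  have hvr : v ≠ r := fun h1 => hvL (h1 ▸ h.rL)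
  have hap : a ≠ p := fun h1 => h.lt.out h.aT (h1 ▸ h.pL)
  have haq : a ≠ q := fun h1 => h.lt.out h.aT (h1 ▸ h.qL)
  have har : a ≠ r := fun h1 => h.lt.out h.aT (h1 ▸ h.rL)
  have hbp : b ≠ p := fun h1 => h.lt.out h.bT (h1 ▸ h.pL)
  have hcp : c ≠ p := fun h1 => h.lt.out h.cT (h1 ▸ h.pL)
  have hpQ := h.lt.LQ' h.pL
  have hqQ := h.lt.LQ' h.qL
  have hrQ := h.lt.LQ' h.rL
  have haQ := (mem_inter.1 h.aT).2
  have hbQ := (mem_inter.1 h.bT).2
  have hcQ := (mem_inter.1 h.cT).2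
  rw [h.mem_K]
  by_cases hp : p ∈ B i
  · exfalso
    by_cases hq : q ∈ B i
    · exact h.no4 (mem_inter.2 ⟨hp, hpQ⟩) (mem_inter.2 ⟨hq, hqQ⟩)
        (mem_inter.2 ⟨h.kpq i hp hq, haQ⟩) (mem_inter.2 ⟨hv, hvQ⟩) h.pq hap.symm haq.symm hvp hvq
        hva
    by_cases hr : r ∈ B i
    · exact h.no4 (mem_inter.2 ⟨hp, hpQ⟩) (mem_inter.2 ⟨hr, hrQ⟩)
        (mem_inter.2 ⟨h.kpr i hp hr, haQ⟩) (mem_inter.2 ⟨hv, hvQ⟩) h.pr hap.symm har.symm hvp hvr
        hva
    obtain ⟨h1, h2⟩ := h.sp i hp hq hr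
    exact h.no4 (mem_inter.2 ⟨hp, hpQ⟩) (mem_inter.2 ⟨h1, hbQ⟩) (mem_inter.2 ⟨h2, hcQ⟩)
      (mem_inter.2 ⟨hv, hvQ⟩) hbp.symm hcp.symm h.bc hvp hvb hvc
  by_cases hq : q ∈ B i
  · by_cases hr : r ∈ B i
    · exact ⟨hq, hr⟩
    · exfalso
      have h1 := h.sq i hq hp hr
      rw [h1] at hv
      exact hvX (mem_X.2 ⟨hv, hvQ, hvL⟩)
  exfalso
  obtain ⟨w, hw⟩ := hi
  obtain ⟨hw1, hw2⟩ := mem_inter.1 hw
  rw [h.hL] at hw2
  simp only [mem_insert, mem_singleton] at hw2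
  rcases hw2 with rfl | rfl | rfl
  · exact hp hw1
  · exact hq hw1
  · rcases h.sr i hw1 with h1 | h1
    · exact hp h1
    · exact hq h1

theorem abc_out (h : X2c B Q L j0 p q r a b c s2) {i : ι} (hi : i ∈ K B L q r) :
    b ∉ O B Q L s2 i ∧ c ∉ O B Q L s2 i := by
  have h1 := h.kqr i (h.mem_K.1 hi).1 (h.mem_K.1 hi).2
  exact ⟨fun h2 => h1.2.1 (mem_O.1 h2).1, fun h2 => h1.2.2 (mem_O.1 h2).1⟩

/-- a contact point different from `b` and `c` is not in the full block. -/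
theorem not_T (h : X2c B Q L j0 p q r a b c s2) {v : V} (hv : v ∈ Y B Q L s2 q r b c)
    (hvb : v ≠ b) (hvc : v ≠ c) : v ∉ B j0 := by
  intro h1
  have h2 : v ∈ B j0 ∩ Q := mem_inter.2 ⟨h1, h.YQ hv⟩
  rw [h.hT] at h2
  simp only [mem_insert, mem_singleton] at h2
  rcases h2 with rfl | rfl | rfl
  · rcases mem_Y.1 hv with h3 | h3 | ⟨i, hi, h3⟩
    · exact hvb h3
    · exact hvc h3
    · exact (mem_O.1 h3).2.2.2 h.aX
  · exact hvb rfl
  · exact hvc rfl

/-- the new blocks. -/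
def N (B : ι → Finset V) (Q L : Finset V) (s2 : ι) (q r b c : V) (k : K B L q r) : Finset V :=
  {b, c} ∪ O B Q L s2 k.1

theorem mem_N {k : K B L q r} {v : V} : v ∈ N B Q L s2 q r b c k ↔ v = b ∨ v = c ∨
    v ∈ O B Q L s2 k.1 := by
  unfold N
  simp only [mem_union, mem_insert, mem_singleton]
  tauto

theorem card_K (h : X2c B Q L j0 p q r a b c s2) : Fintype.card (K B L q r) = 3 := by
  rw [Fintype.card_coe]
  exact h.n23

theorem con (h : X2c B Q L j0 p q r a b c s2) (i : ι) (hi : (B i ∩ L).Nonempty) :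
    B i ∩ Q ⊆ (L ∪ X B Q L s2) ∪ Y B Q L s2 q r b c := by
  intro v hv
  obtain ⟨hv1, hv2⟩ := mem_inter.1 hv
  by_cases hvL : v ∈ L
  · exact mem_union_left _ (mem_union_left _ hvL)
  by_cases hvX : v ∈ X B Q L s2
  · exact mem_union_left _ (mem_union_right _ hvX)
  refine mem_union_right _ (mem_Y.2 ?_)
  by_cases hvb : v = b
  · exact Or.inl hvb
  by_cases hvc : v = c
  · exact Or.inr (Or.inl hvc)
  exact Or.inr (Or.inr ⟨i, h.pt hi hv1 hv2 hvL hvX hvb hvc, mem_O.2 ⟨hv1, hv2, hvL, hvX⟩⟩)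

theorem T_sub (h : X2c B Q L j0 p q r a b c s2) :
    B j0 ∩ Q ⊆ X B Q L s2 ∪ Y B Q L s2 q r b c := by
  rw [h.hT]
  intro v hv
  simp only [mem_insert, mem_singleton] at hv
  rcases hv with rfl | rfl | rfl
  · exact mem_union_left _ h.aX
  · exact mem_union_right _ (mem_Y.2 (Or.inl rfl))
  · exact mem_union_right _ (mem_Y.2 (Or.inr (Or.inl rfl)))

open Classical in
/-- the degrees. -/
theorem deg (h : X2c B Q L j0 p q r a b c s2) {y : V} (hy : y ∈ Y B Q L s2 q r b c) :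
    (univ.filter (fun k => y ∈ N B Q L s2 q r b c k)).card =
      (univ.filter (fun i => y ∈ B i ∧ (B i ∩ L).Nonempty)).card +
      (({j0} : Finset ι).filter (fun i => y ∈ B i)).card := by
  have hEz : ∀ z, (univ.filter (fun i => z ∈ B i ∧ (B i ∩ L).Nonempty)).card =
      (Ez B L z).card := fun z => by
    congr 1
  rw [hEz]
  have hall : ∀ z, (z = b ∨ z = c) → (univ.filter (fun k => z ∈ N B Q L s2 q r b c k)).card = 3 := by
    intro z hz
    rw [filter_true_of_mem, card_univ, h.card_K]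
    intro k _
    rw [mem_N]
    tauto
  by_cases hyb : y = b
  · rw [hall y (Or.inl hyb), hyb, h.hb, filter_true_of_mem]
    · simp
    · intro i hi
      rw [mem_singleton.1 hi]
      exact (mem_inter.1 h.bT).1
  by_cases hyc : y = c
  · rw [hall y (Or.inr hyc), hyc, h.hc, filter_true_of_mem]
    · simp
    · intro i hi
      rw [mem_singleton.1 hi]
      exact (mem_inter.1 h.cT).1
  rw [filter_false_of_mem (s := {j0}) (fun i hi => by
    rw [mem_singleton.1 hi]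
    exact h.not_T hy hyb hyc), card_empty, add_zero]
  obtain ⟨i0, hi0, hy0⟩ : ∃ i ∈ K B L q r, y ∈ O B Q L s2 i := by
    rcases mem_Y.1 hy with h1 | h1 | h1
    · exact absurd h1 hyb
    · exact absurd h1 hyc
    · exact h1
  obtain ⟨_, hyQ, hyL, hyX⟩ := mem_O.1 hy0
  have h1 : Ez B L y = (K B L q r).filter (fun i => y ∈ B i) := by
    ext i
    rw [mem_Ez, mem_filter]
    constructor
    · rintro ⟨h2, h3⟩
      exact ⟨h.pt h3 h2 hyQ hyL hyX hyb hyc, h2⟩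
    · rintro ⟨h2, h3⟩
      exact ⟨h3, q, mem_inter.2 ⟨(h.mem_K.1 h2).1, h.qL⟩⟩
  rw [h1, card_filter, card_filter, ← sum_coe_sort (K B L q r) (fun i => if y ∈ B i then 1 else 0)]
  refine sum_congr rfl fun k _ => ?_
  have h2 : y ∈ N B Q L s2 q r b c k ↔ y ∈ B k.1 := by
    rw [mem_N, mem_O]
    tauto
  simp only [h2]

theorem dLX (_h : X2c B Q L j0 p q r a b c s2) : Disjoint L (X B Q L s2) := by
  rw [disjoint_left]
  exact fun v hv hv' => (mem_X.1 hv').2.2 hv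

theorem dLY (h : X2c B Q L j0 p q r a b c s2) : Disjoint L (Y B Q L s2 q r b c) := by
  rw [disjoint_left]
  intro v hv hv'
  rcases mem_Y.1 hv' with rfl | rfl | ⟨i, _, hi⟩
  · exact h.lt.out h.bT hv
  · exact h.lt.out h.cT hv
  · exact (mem_O.1 hi).2.2.1 hv

theorem dXY (h : X2c B Q L j0 p q r a b c s2) :
    Disjoint (X B Q L s2) (Y B Q L s2 q r b c) := by
  rw [disjoint_left]
  intro v hv hv'
  rcases mem_Y.1 hv' with rfl | rfl | ⟨i, _, hi⟩
  · exact h.bX hv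
  · exact h.cX hv
  · exact (mem_O.1 hi).2.2.2 hv

/-- the covers. -/
theorem cost (h : X2c B Q L j0 p q r a b c s2) (J : Finset (K B L q r)) :
    rho B ((L ∪ X B Q L s2) ∪ J.biUnion (N B Q L s2 q r b c)) ≤ rho B L + J.card := by
  classical
  rw [h.lt.rhoL]
  rcases J.eq_empty_or_nonempty with rfl | ⟨k0, hk0⟩
  · rw [biUnion_empty, union_empty, card_empty]
    obtain ⟨i, hi1, hi2⟩ := h.exr
    refine (Hyp6.rho_le (T := {s2, i}) ?_).trans card_le_two
    rw [biUnion_insert, singleton_biUnion]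
    refine union_subset ?_ ?_
    · rw [h.hL]
      intro v hv
      simp only [mem_insert, mem_singleton] at hv
      rcases hv with rfl | rfl | rfl
      · exact mem_union_right _ hi1
      · exact mem_union_left _ h.q2
      · exact mem_union_right _ hi2
    · exact fun v hv => mem_union_left _ (mem_X.1 hv).1
  · obtain ⟨i, hi1, hi2, hi3⟩ := h.exp
    obtain ⟨hib, hic⟩ := h.sp i hi1 hi2 hi3
    have h1 : (({s2, i} : Finset ι) ∪ J.image Subtype.val).card ≤ 2 + J.card :=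
      (card_union_le _ _).trans (Nat.add_le_add card_le_two card_image_le)
    refine (Hyp6.rho_le (T := ({s2, i} : Finset ι) ∪ J.image Subtype.val) ?_).trans h1
    intro v hv
    rw [mem_biUnion]
    have hs2 : s2 ∈ ({s2, i} : Finset ι) ∪ J.image Subtype.val := by simp
    have hi' : i ∈ ({s2, i} : Finset ι) ∪ J.image Subtype.val := by simp
    have hJ : ∀ k ∈ J, (k : ι) ∈ ({s2, i} : Finset ι) ∪ J.image Subtype.val := fun k hk =>
      mem_union_right _ (mem_image_of_mem _ hk)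
    rcases mem_union.1 hv with hv | hv
    · rcases mem_union.1 hv with hv | hv
      · rw [h.hL] at hv
        simp only [mem_insert, mem_singleton] at hv
        rcases hv with rfl | rfl | rfl
        · exact ⟨i, hi', hi1⟩
        · exact ⟨s2, hs2, h.q2⟩
        · exact ⟨k0, hJ k0 hk0, (h.mem_K.1 k0.2).2⟩
      · exact ⟨s2, hs2, (mem_X.1 hv).1⟩
    · obtain ⟨k, hk, hvk⟩ := mem_biUnion.1 hv
      rcases mem_N.1 hvk with rfl | rfl | h2
      · exact ⟨i, hi', hib⟩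
      · exact ⟨i, hi', hic⟩
      · exact ⟨k, hJ k hk, (mem_O.1 h2).1⟩

/-- the size of the new blocks. -/
theorem sizeN (h : X2c B Q L j0 p q r a b c s2) (k : K B L q r) :
    (N B Q L s2 q r b c k).card ≤ 3 := by
  have h1 := h.lt.viol.tr k.1
  obtain ⟨hq, hr⟩ := h.mem_K.1 k.2
  have h2 : ({q, r} : Finset V) ∪ O B Q L s2 k.1 ⊆ B k.1 ∩ Q := by
    intro v hv
    simp only [mem_union, mem_insert, mem_singleton] at hv
    rcases hv with (rfl | rfl) | hv
    · exact mem_inter.2 ⟨hq, h.lt.LQ' h.qL⟩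
    · exact mem_inter.2 ⟨hr, h.lt.LQ' h.rL⟩
    · exact mem_inter.2 ⟨(mem_O.1 hv).1, (mem_O.1 hv).2.1⟩
  have h3 : Disjoint ({q, r} : Finset V) (O B Q L s2 k.1) := by
    rw [disjoint_left]
    intro v hv hv'
    simp only [mem_insert, mem_singleton] at hv
    rcases hv with rfl | rfl
    · exact (mem_O.1 hv').2.2.1 h.qL
    · exact (mem_O.1 hv').2.2.1 h.rL
  have h4 := card_le_card h2
  rw [card_union_of_disjoint h3, card_pair h.qr] at h4
  unfold N
  have h5 := card_union_le ({b, c} : Finset V) (O B Q L s2 k.1)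
  have h6 : ({b, c} : Finset V).card ≤ 2 := card_le_two
  omega

/-- the general deletion. -/
theorem gdl (h : X2c B Q L j0 p q r a b c s2) :
    Gdl B Q L (X B Q L s2) (Y B Q L s2 q r b c) {j0} (Gdl.kp B L {j0})
      (N B Q L s2 q r b c) := by
  classical
  refine Gdl.of_keep h.lt.viol.reg h.lt.viol.tr h.lt.LQ' XQ h.YQ h.dLX h.dLY h.dXY h.con ?_ ?_ ?_
    h.sizeN h.cost
  · intro i hi
    rw [mem_singleton.1 hi]
    exact ⟨h.T_sub, h.lt.c3⟩
  · intro k v hv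
    rcases mem_N.1 hv with h1 | h1 | h1
    · exact mem_Y.2 (Or.inl h1)
    · exact mem_Y.2 (Or.inr (Or.inl h1))
    · exact mem_Y.2 (Or.inr (Or.inr ⟨k.1, k.2, h1⟩))
  · intro y hy
    convert h.deg hy using 3

/-- **the last configuration does not exist**. -/
theorem false (h : X2c B Q L j0 p q r a b c s2) : False := by
  classical
  have hg := h.gdl
  have hQ := h.lt.viol
  obtain ⟨k0⟩ : Nonempty (K B L q r) := by
    rw [← Fintype.card_pos_iff, h.card_K]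
    norm_num
  have hbY : b ∈ Y B Q L s2 q r b c := mem_Y.2 (Or.inl rfl)
  have hin : ∀ v ∈ Y B Q L s2 q r b c, ∃ k, v ∈ N B Q L s2 q r b c k := by
    intro v hv
    rcases mem_Y.1 hv with h1 | h1 | ⟨i, hi, h1⟩
    · exact ⟨k0, mem_N.2 (Or.inl h1)⟩
    · exact ⟨k0, mem_N.2 (Or.inr (Or.inl h1))⟩
    · exact ⟨⟨i, hi⟩, mem_N.2 (Or.inr (Or.inr h1))⟩
  have hbN : ∀ k, b ∈ N B Q L s2 q r b c k := fun k => mem_N.2 (Or.inl rfl)
  have hconn := hg.conn_sep ⟨b, hbY⟩ ⟨p, h.pL⟩ (hQ.conn_sdiff XQ h.X_card) (by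
    intro Z hZ hne hneq
    by_cases hbZ : b ∈ Z
    · obtain ⟨v, hv⟩ : (Y B Q L s2 q r b c \ Z).Nonempty := by
        rw [sdiff_nonempty]
        exact fun h1 => hneq (subset_antisymm hZ h1)
      obtain ⟨hv1, hv2⟩ := mem_sdiff.1 hv
      obtain ⟨k, hk⟩ := hin v hv1
      exact ⟨k, ⟨b, mem_inter.2 ⟨hbN k, hbZ⟩⟩, ⟨v, mem_sdiff.2 ⟨hk, hv2⟩⟩⟩
    · obtain ⟨v, hv⟩ := hne
      obtain ⟨k, hk⟩ := hin v (hZ hv)
      exact ⟨k, ⟨v, mem_inter.2 ⟨hk, hv⟩⟩, ⟨b, mem_sdiff.2 ⟨hbN k, hbZ⟩⟩⟩) (by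
    intro y _ i hyi hi
    obtain ⟨w, hw⟩ := hi
    obtain ⟨hw1, hw2⟩ := mem_inter.1 hw
    obtain ⟨hwQ, hwL, hwX, hwY⟩ := Gdl.mem_rm.1 hw2
    refine Gdl.mem_kp.2 ⟨hyi, fun h1 => ?_, fun h1 => ?_⟩
    · rcases mem_union.1 (h.con i h1 (mem_inter.2 ⟨hw1, hwQ⟩)) with h2 | h2
      · rcases mem_union.1 h2 with h3 | h3
        · exact hwL h3
        · exact hwX h3
      · exact hwY h2
    · rw [mem_singleton] at h1
      subst h1
      rcases mem_union.1 (h.T_sub (mem_inter.2 ⟨hw1, hwQ⟩)) with h2 | h2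
      · exact hwX h2
      · exact hwY h2)
  have hn : (Gdl.rm Q L (X B Q L s2) (Y B Q L s2 q r b c)).card +
      (Y B Q L s2 q r b c).card < Q.card := by
    rw [← card_union_of_disjoint hg.wir.dis]
    refine card_lt_card ⟨union_subset sdiff_subset h.YQ, fun h1 => ?_⟩
    rcases mem_union.1 (h1 (h.lt.LQ' h.pL)) with h2 | h2
    · exact (Gdl.mem_rm.1 h2).2.1 h.pL
    · exact disjoint_left.1 h.dLY h.pL h2
  have hm := hg.mainK hQ.ih hQ.ihr hn hconn (Y2 := ∅) (empty_subset _) (by simp)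
    (by simp [ee])
  have h1 := hQ.neg
  have h2 := hQ.sv1
  have h3 := h.X_card
  have h4 := h.X_pos
  have h5 := h.lt.svL
  have h6 := h.dv3
  have h7 : (0 : ℤ) ≤ ((Gdl.lost B Q L (X B Q L s2) (Y B Q L s2 q r b c) {j0}
    (Gdl.kp B L {j0})).card : ℤ) := by positivity
  rw [h.card_K, card_singleton, card_empty, h6, h5] at hm
  push_cast at hm
  rcases Nat.lt_or_ge (X B Q L s2).card 2 with h8 | h8
  · have h9 : (X B Q L s2).card = 1 := by omega
    rw [h9] at hm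
    have h10 := hm.2 (by push_cast; linarith)
    push_cast at h10
    linarith
  · have h9 : (X B Q L s2).card = 2 := by omega
    rw [h9] at hm
    have h10 := hm.1
    push_cast at h10
    linarith

end X2c

end Pool.Agent.Hyp6
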