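import Pool.Agent.Hyp6.L3X5

/-!
# HYP6 L3X6: leaves with five points and thirteen blocks

`Lt5.abz`: a part with five points, cover number three and thirteen blocks (twelve pairs with at most
three common blocks each, one single block) absorbs every two outside points with at least three and at
least two hits. The check runs over the multigraphs on five labelled points.
-/

set_option autoImplicit false

namespace Pool.Agent.Hyp6

open Finset Pool.Agent.Hyp5

universe u v

/-- the traces: ten pairs and the single trace of the point `0`. -/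
def ms5 : List ℕ := [3, 5, 9, 17, 6, 10, 18, 12, 20, 24, 1]

/-- the traces with the numbers of blocks. -/
def zs5 (a b c d e : ℕ) : List (ℕ × ℕ) :=
  [(3, 5 - (a + b + c)), (5, 5 - (a + d + e)), (9, 5 - (b + d + (8 - (a + b + c + d + e)))),
    (17, 5 - (c + e + (8 - (a + b + c + d + e)))), (6, a), (10, b), (18, c), (12, d), (20, e),
    (24, 8 - (a + b + c + d + e)), (1, 1)]

/-- the numbers are possible, the points `1, 2, 3, 4` in the order of their numbers of blocks
with `0`. -/
def ok5 (a b c d e : ℕ) : Bool :=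
  Nat.ble (a + b + c + d + e) 8 && Nat.ble 5 (a + b + c + d + e) &&
  Nat.ble (a + b + c) 5 && Nat.ble 2 (a + b + c) &&
  Nat.ble (a + d + e) 5 && Nat.ble 2 (a + d + e) &&
  Nat.ble (b + d + (8 - (a + b + c + d + e))) 5 &&
  Nat.ble 2 (b + d + (8 - (a + b + c + d + e))) &&
  Nat.ble (c + e + (8 - (a + b + c + d + e))) 5 &&
  Nat.ble 2 (c + e + (8 - (a + b + c + d + e))) &&
  Nat.ble (a + d + e) (a + b + c) &&
  Nat.ble (b + d + (8 - (a + b + c + d + e))) (a + d + e) &&
  Nat.ble (c + e + (8 - (a + b + c + d + e))) (b + d + (8 - (a + b + c + d + e)))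

/-- the traces `u` and `t` are completed to a cover by a block, or both are the single trace. -/
def cm5 (zs : List (ℕ × ℕ)) (u t : ℕ) : Bool :=
  (Nat.beq u 1 && Nat.beq t 1) ||
    zs.any fun z => !(Nat.beq z.2 0) && Nat.beq (Nat.lor (Nat.lor u t) z.1) 31

/-- the numbers of blocks which are not completed with `t`; `k` blocks with trace `t` are used. -/
def fl5 (zs : List (ℕ × ℕ)) (k t : ℕ) : List ℕ :=
  zs.map fun z => cond (cm5 zs z.1 t) 0 (cond (Nat.beq z.1 t) (z.2 - k) z.2)

/-- the whole check for given numbers. -/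
def ch5 (zs : List (ℕ × ℕ)) : Bool :=
  (zs.all fun z => zs.all fun z' => Nat.beq z.2 0 || Nat.beq z'.2 0 || Nat.beq z.1 z'.1 ||
    Nat.ble (List.zipWith min (fl5 zs 1 z.1) (fl5 zs 1 z'.1)).sum 2) &&
  zs.all fun z => Nat.ble z.2 1 || Nat.ble (fl5 zs 2 z.1).sum 2

/-- the whole check. -/
def ck5 (a b c d e : ℕ) : Bool := cond (ok5 a b c d e) (ch5 (zs5 a b c d e)) true

/-- all values of a number. -/
def al4 (f : ℕ → Bool) : Bool := f 0 && f 1 && f 2 && f 3

theorem of_al4 {f : ℕ → Bool} (h : al4 f = true) {a : ℕ} (ha : a < 4) : f a = true := by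
  unfold al4 at h
  simp only [Bool.and_eq_true] at h
  obtain ⟨⟨⟨h0, h1⟩, h2⟩, h3⟩ := h
  interval_cases a
  · exact h0
  · exact h1
  · exact h2
  · exact h3

set_option maxRecDepth 100000 in
theorem ck5_all : (al4 fun a => al4 fun b => al4 fun c => al4 fun d => al4 fun e =>
    ck5 a b c d e) = true := by
  decide +kernel

/-- five bits. -/
def bt5 (b : Fin 5 → Bool) : ℕ :=
  (b 0).toNat + 2 * (b 1).toNat + 4 * (b 2).toNat + 8 * (b 3).toNat + 16 * (b 4).toNat

theorem bt5_test (b : Fin 5 → Bool) (k : Fin 5) : (bt5 b).testBit (k : ℕ) = b k := by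
  have key : ∀ x0 x1 x2 x3 x4 : Bool,
      (x0.toNat + 2 * x1.toNat + 4 * x2.toNat + 8 * x3.toNat + 16 * x4.toNat).testBit 0 = x0 ∧
      (x0.toNat + 2 * x1.toNat + 4 * x2.toNat + 8 * x3.toNat + 16 * x4.toNat).testBit 1 = x1 ∧
      (x0.toNat + 2 * x1.toNat + 4 * x2.toNat + 8 * x3.toNat + 16 * x4.toNat).testBit 2 = x2 ∧
      (x0.toNat + 2 * x1.toNat + 4 * x2.toNat + 8 * x3.toNat + 16 * x4.toNat).testBit 3 = x3 ∧
      (x0.toNat + 2 * x1.toNat + 4 * x2.toNat + 8 * x3.toNat + 16 * x4.toNat).testBit 4 = x4 := by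
    decide
  obtain ⟨h0, h1, h2, h3, h4⟩ := key (b 0) (b 1) (b 2) (b 3) (b 4)
  unfold bt5
  fin_cases k
  · exact h0
  · exact h1
  · exact h2
  · exact h3
  · exact h4

theorem bt5_mem (b : Fin 5 → Bool)
    (h : (b 0).toNat + (b 1).toNat + (b 2).toNat + (b 3).toNat + (b 4).toNat = 2 ∨
      ((b 0).toNat + (b 1).toNat + (b 2).toNat + (b 3).toNat + (b 4).toNat = 1 ∧ b 0 = true)) :
    bt5 b ∈ ms5 := by
  unfold bt5
  generalize h0 : b 0 = x0 at *
  generalize h1 : b 1 = x1 at *
  generalize h2 : b 2 = x2 at *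
  generalize h3 : b 3 = x3 at *
  generalize h4 : b 4 = x4 at *
  clear h0 h1 h2 h3 h4
  revert h
  revert x0 x1 x2 x3 x4
  decide

end Pool.Agent.Hyp6
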