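import Pool.Agent.Hyp6.L3X5

/-!
# HYP6 L3X8: deletion of two points of a triple with two contact points in a common new block

`ViolR.s1g`: the rule (S1) with an arbitrary distribution `g` of the hits of the contact points on the
new blocks, all of which contain the point `t` of the triple. `ViolR.s1p`: two contact points absorbed
jointly save one new block.
-/

set_option autoImplicit false

namespace Pool.Agent.Hyp6

open Finset Pool.Agent.Hyp5

universe u v

variable {V : Type v} [DecidableEq V] {ι : Type u} [Fintype ι] {B : ι → Finset V}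

/-- the contact points in the new block `c`. -/
def Wg (B : ι → Finset V) (Q L : Finset V) (i0 : ι) (g : V → ι → ℕ) (c : ℕ) : Finset V :=
  (Vs B Q L i0).filter (fun v => ∃ i ∈ Ez B L v, g v i = c)

theorem mem_Wg {Q L : Finset V} {i0 : ι} {g : V → ι → ℕ} {c : ℕ} {v : V} :
    v ∈ Wg B Q L i0 g c ↔ v ∈ Vs B Q L i0 ∧ ∃ i ∈ Ez B L v, g v i = c := by
  unfold Wg
  rw [mem_filter]

namespace ViolR

variable {Q L : Finset V} {i0 : ι}

/-- **(S1) with an arbitrary distribution of the hits.** -/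
theorem s1g (h : ViolR B Q) (hi : (B i0 ∩ Q).card = 3) (hLQ : L ⊆ Q \ (B i0 ∩ Q))
    (hne : L.Nonempty) (hs : sv B L = -1) {t : V} (ht : t ∈ B i0) (htQ : t ∈ Q) {nu : ℕ}
    (h5 : nu ≤ 5) (hy : (Ez B L t).card + 1 ≤ nu) (habs : Abz B L ((B i0 ∩ Q).erase t))
    (g : V → ι → ℕ) (hg : ∀ v ∈ Vs B Q L i0, ∀ i ∈ Ez B L v, g v i < nu)
    (hinj : ∀ v ∈ Vs B Q L i0, ∀ i ∈ Ez B L v, ∀ j ∈ Ez B L v, g v i = g v j → i = j)
    (h2 : ∀ c, (Wg B Q L i0 g c).card ≤ 2) (h1 : ∃ c < nu, (Wg B Q L i0 g c).card ≤ 1)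
    (hcost : ∀ K : Finset ℕ, K.Nonempty →
      rho B (L ∪ K.biUnion (Wg B Q L i0 g)) + 1 ≤ rho B L + K.card) :
    dv B Q L + 15 ≤ 4 * (nu : ℤ) := by
  classical
  have hLQ' : L ⊆ Q := hLQ.trans sdiff_subset
  have hTB : ∀ v ∈ L, v ∉ B i0 := fun v hv h3 =>
    (mem_sdiff.1 (hLQ hv)).2 (mem_inter.2 ⟨h3, hLQ' hv⟩)
  have htL : t ∉ L := fun h3 => hTB t h3 ht
  have hTt : t ∈ B i0 ∩ Q := mem_inter.2 ⟨ht, htQ⟩
  have hcov := h.cov
  have hcovL : Cov B L := hcov.mono hLQ'
  have hi0L : B i0 ∩ L = ∅ := by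
    rw [eq_empty_iff_forall_notMem]
    intro v hv
    exact hTB v (mem_inter.1 hv).2 (mem_inter.1 hv).1
  -- five blocks
  have five : ∀ y ∈ Q, (Okp B L i0 y).card + (Ez B L y).card + (if y ∈ B i0 then 1 else 0) = 5 := by
    intro y hy'
    have e1 := h.reg y hy'
    have e2 : univ.filter (fun i => y ∈ B i) =
        (Okp B L i0 y ∪ Ez B L y) ∪ (if y ∈ B i0 then {i0} else ∅) := by
      ext i
      rw [mem_filter, mem_union, mem_union, mem_Okp, mem_Ez]
      constructor
      · rintro ⟨_, hi'⟩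
        by_cases he : i = i0
        · subst he
          rw [if_pos hi']
          exact Or.inr (mem_singleton_self _)
        · rcases (B i ∩ L).eq_empty_or_nonempty with h3 | h3
          · exact Or.inl (Or.inl ⟨hi', he, h3⟩)
          · exact Or.inl (Or.inr ⟨hi', h3⟩)
      · rintro ((h3 | h3) | h3)
        · exact ⟨mem_univ _, h3.1⟩
        · exact ⟨mem_univ _, h3.1⟩
        · split_ifs at h3 with h4
          · rw [mem_singleton] at h3
            subst h3
            exact ⟨mem_univ _, h4⟩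
          · exact absurd h3 (notMem_empty _)
    rw [← e1, e2, card_union_of_disjoint, card_union_of_disjoint]
    · congr 1
      split_ifs <;> simp
    · rw [disjoint_left]
      intro i hi' hi''
      rw [mem_Okp] at hi'
      rw [mem_Ez, hi'.2.2] at hi''
      exact absurd hi''.2 (by simp)
    · rw [disjoint_left]
      intro i hi' hi''
      split_ifs at hi'' with h4
      · rw [mem_singleton] at hi''
        subst hi''
        rcases mem_union.1 hi' with h5' | h5'
        · exact (mem_Okp.1 h5').2.1 rfl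
        · have h6 := (mem_Ez.1 h5').2
          rw [hi0L] at h6
          exact absurd h6 (by simp)
      · exact absurd hi'' (notMem_empty _)
  have hmV : ∀ {v : V}, v ∈ Vs B Q L i0 ↔ v ∈ Q ∧ v ∉ B i0 ∧ v ∉ L ∧ (Ez B L v).Nonempty :=
    fun {v} => Dlt.mem_Vs
  have htV : t ∉ Vs B Q L i0 := fun h3 => (hmV.1 h3).2.1 ht
  set X : Finset V := (B i0 ∩ Q).erase t with hX
  set Y : Finset V := insert t (Vs B Q L i0) with hY
  have hXQ : X ⊆ Q := (erase_subset _ _).trans inter_subset_right
  have hYQ : Y ⊆ Q := insert_subset htQ fun v hv => (hmV.1 hv).1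
  have hXc : X.card = 2 := by rw [hX, card_erase_of_mem hTt, hi]
  -- the old blocks of `t`
  obtain ⟨S, hS, hSc⟩ : ∃ S ⊆ Okp B L i0 t, S.card + nu = 5 := by
    have e1 := five t htQ
    rw [if_pos ht] at e1
    obtain ⟨S, hS, hSc⟩ := exists_subset_card_eq (s := Okp B L i0 t) (n := 5 - nu) (by omega)
    exact ⟨S, hS, by omega⟩
  set E : V → Finset ι := fun y => if y = t then S else Okp B L i0 y with hE
  have hEt : E t = S := if_pos rfl
  have hEy : ∀ y, y ≠ t → E y = Okp B L i0 y := fun y hy' => if_neg hy'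
  have hEO : ∀ y, E y ⊆ Okp B L i0 y := by
    intro y
    by_cases he : y = t
    · rw [he, hEt]
      exact hS
    · rw [hEy y he]
  set N : ULift.{u} (Fin nu) → Finset V := fun c => insert t (Wg B Q L i0 g (c.down : ℕ)) with hN
  have htN : ∀ c, t ∈ N c := fun c => mem_insert_self _ _
  have hWV : ∀ c, Wg B Q L i0 g c ⊆ Vs B Q L i0 := fun c => filter_subset _ _
  have hcs : Fintype.card (ULift.{u} (Fin nu)) = nu := by
    rw [Fintype.card_ulift, Fintype.card_fin]
  have hcount : ∀ v ∈ Vs B Q L i0,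
      (univ.filter (fun c => v ∈ N c)).card = (Ez B L v).card := by
    intro v hv
    have hvt : v ≠ t := fun h3 => htV (h3 ▸ hv)
    symm
    refine Finset.card_bij (fun i hi' => ⟨⟨g v i, hg v hv i hi'⟩⟩) ?_ ?_ ?_
    · intro i hi'
      rw [mem_filter]
      exact ⟨mem_univ _, mem_insert_of_mem (mem_Wg.2 ⟨hv, i, hi', rfl⟩)⟩
    · intro i hi' j hj he
      have h3 := congrArg ULift.down he
      exact hinj v hv i hi' j hj (congrArg Fin.val h3)
    · intro c hc
      rcases mem_insert.1 (mem_filter.1 hc).2 with h3 | h3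
      · exact absurd h3 hvt
      · obtain ⟨_, i, hi', hi2⟩ := mem_Wg.1 h3
        exact ⟨i, hi', ULift.down_injective (Fin.ext hi2)⟩
  have hcon : ∀ i, (B i ∩ L).Nonempty → B i ∩ Q ⊆ (L ∪ X) ∪ Y := by
    intro i hiL v hv
    obtain ⟨hv1, hv2⟩ := mem_inter.1 hv
    by_cases hvL : v ∈ L
    · exact mem_union_left _ (mem_union_left _ hvL)
    by_cases hvt : v = t
    · exact mem_union_right _ (hvt ▸ mem_insert_self _ _)
    by_cases hvT : v ∈ B i0
    · exact mem_union_left _ (mem_union_right _ (mem_erase.2 ⟨hvt, mem_inter.2 ⟨hvT, hv2⟩⟩))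
    · exact mem_union_right _ (mem_insert_of_mem (hmV.2 ⟨hv2, hvT, hvL, i, mem_Ez.2 ⟨hv1, hiL⟩⟩))
  have hT : B i0 ∩ Q ⊆ X ∪ Y := by
    intro v hv
    by_cases hvt : v = t
    · exact mem_union_right _ (hvt ▸ mem_insert_self _ _)
    · exact mem_union_left _ (mem_erase.2 ⟨hvt, hv⟩)
  have hgd : Gdl B Q L X Y {i0} E N :=
    { reg := h.reg
      tr := h.tr
      LQ := hLQ'
      XQ := hXQ
      YQ := hYQ
      dLX := by
        rw [disjoint_left]
        exact fun v hv hv' => hTB v hv (mem_inter.1 (mem_erase.1 hv').2).1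
      dLY := by
        rw [disjoint_left]
        intro v hv hv'
        rcases mem_insert.1 hv' with rfl | hv'
        · exact htL hv
        · exact (hmV.1 hv').2.2.1 hv
      dXY := by
        rw [disjoint_left]
        intro v hv hv'
        rcases mem_insert.1 hv' with rfl | hv'
        · exact (mem_erase.1 hv).1 rfl
        · exact (hmV.1 hv').2.1 (mem_inter.1 (mem_erase.1 hv).2).1
      con := hcon
      full := by
        intro i hi'
        rw [mem_singleton.1 hi']
        exact ⟨hT, hi⟩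
      mem := fun y _ i hi' => (mem_Okp.1 (hEO y hi')).1
      keep := fun y _ i hi' => by
        obtain ⟨_, h4, h5'⟩ := mem_Okp.1 (hEO y hi')
        exact ⟨by rw [h5']; exact not_nonempty_empty, by rwa [mem_singleton]⟩
      subN := fun c => insert_subset_insert _ (hWV _)
      deg := by
        intro y hy'
        rcases mem_insert.1 hy' with rfl | hy''
        · rw [hEt, filter_true_of_mem fun c _ => htN c, card_univ, hcs]
          exact hSc
        · have hvt : y ≠ t := fun h3 => htV (h3 ▸ hy'')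
          rw [hEy y hvt, hcount y hy'']
          have h3 := five y (hmV.1 hy'').1
          rw [if_neg (hmV.1 hy'').2.1] at h3
          omega
      sizeN := fun c => by
        have h3 := h2 (c.down : ℕ)
        have h4 := card_insert_le t (Wg B Q L i0 g (c.down : ℕ))
        simp only [hN]
        omega
      cost := by
        intro K
        rcases K.eq_empty_or_nonempty with rfl | hK
        · rw [biUnion_empty, union_empty, card_empty, add_zero]
          obtain ⟨T, hT1, hT2⟩ := habs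
          exact (Hyp6.rho_le hT1).trans hT2
        · have h3 := hcost (K.image (fun c => (c.down : ℕ))) (hK.image _)
          have h4 : (K.image (fun c => (c.down : ℕ))).card ≤ K.card := card_image_le
          have h6 : (L ∪ X) ∪ K.biUnion N ⊆ (B i0 ∩ Q) ∪
              (L ∪ (K.image (fun c => (c.down : ℕ))).biUnion (Wg B Q L i0 g)) := by
            intro v hv
            rcases mem_union.1 hv with hv | hv
            · rcases mem_union.1 hv with hv | hv
              · exact mem_union_right _ (mem_union_left _ hv)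
              · exact mem_union_left _ (mem_erase.1 hv).2
            · obtain ⟨c, hc, hvc⟩ := mem_biUnion.1 hv
              rcases mem_insert.1 hvc with rfl | hvc
              · exact mem_union_left _ hTt
              · exact mem_union_right _ (mem_union_right _
                  (mem_biUnion.2 ⟨_, mem_image_of_mem _ hc, hvc⟩))
          have hWQ : (K.image (fun c => (c.down : ℕ))).biUnion (Wg B Q L i0 g) ⊆ Q :=
            biUnion_subset.2 fun c _ => (hWV c).trans fun v hv => (hmV.1 hv).1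
          have hcT : Cov B (B i0 ∩ Q) := hcov.mono inter_subset_right
          have hcW : Cov B (L ∪ (K.image (fun c => (c.down : ℕ))).biUnion (Wg B Q L i0 g)) :=
            hcov.mono (union_subset hLQ' hWQ)
          have h7 := rho_mono h6 (hcT.union hcW)
          have h8 := rho_union_le hcT hcW
          have h9 : rho B (B i0 ∩ Q) ≤ 1 := by
            refine (Hyp6.rho_le (T := {i0}) ?_).trans (by simp)
            rw [singleton_biUnion]
            exact inter_subset_left
          omega }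
  have hconn := hgd.conn_one (i0 := i0) ⟨t, mem_insert_self _ _⟩ hne (erase_subset _ _) (by
      rw [disjoint_left]
      exact fun v hv hv' => hTB v hv (mem_inter.1 hv').1) (h.lemA hi).1 (by
      intro Z hZ hZne hneq
      have hin : ∀ y ∈ Y, ∃ c, y ∈ N c := by
        intro y hy'
        rcases mem_insert.1 hy' with rfl | hy''
        · exact ⟨⟨⟨0, by omega⟩⟩, htN _⟩
        · obtain ⟨i, hi'⟩ := (hmV.1 hy'').2.2.2
          exact ⟨⟨⟨g y i, hg y hy'' i hi'⟩⟩, mem_insert_of_mem (mem_Wg.2 ⟨hy'', i, hi', rfl⟩)⟩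
      by_cases htZ : t ∈ Z
      · obtain ⟨v, hv⟩ : (Y \ Z).Nonempty := by
          rw [sdiff_nonempty]
          exact fun h3 => hneq (subset_antisymm hZ h3)
        obtain ⟨hv1, hv2⟩ := mem_sdiff.1 hv
        obtain ⟨c, hc⟩ := hin v hv1
        exact ⟨c, ⟨t, mem_inter.2 ⟨htN c, htZ⟩⟩, ⟨v, mem_sdiff.2 ⟨hc, hv2⟩⟩⟩
      · obtain ⟨v, hv⟩ := hZne
        obtain ⟨c, hc⟩ := hin v (hZ hv)
        exact ⟨c, ⟨v, mem_inter.2 ⟨hc, hv⟩⟩, ⟨t, mem_sdiff.2 ⟨htN c, htZ⟩⟩⟩) (by
      intro y hy' hyT i hyi hir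
      obtain ⟨w, hw⟩ := hir
      obtain ⟨hw1, hw2⟩ := mem_inter.1 hw
      obtain ⟨hwQ, hwL, hwX, hwY⟩ := Gdl.mem_rm.1 hw2
      have hyt : y ≠ t := fun h3 => hyT (h3 ▸ ht)
      rw [hEy y hyt, mem_Okp]
      refine ⟨hyi, ?_, ?_⟩
      · rintro rfl
        exact hyT hyi
      · rw [← not_nonempty_iff_eq_empty]
        intro h3
        rcases mem_union.1 (hcon i h3 (mem_inter.2 ⟨hw1, hwQ⟩)) with h4 | h4
        · rcases mem_union.1 h4 with h6 | h6
          · exact hwL h6
          · exact hwX h6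
        · exact hwY h4) hT
  obtain ⟨c1, hc1, hc2⟩ := h1
  have hK := hgd.nkt (c := ⟨⟨c1, hc1⟩⟩) ⟨t, htN _⟩ (by
    simp only [hN]
    have h4 := card_insert_le t (Wg B Q L i0 g c1)
    omega)
  have hn : (Gdl.rm Q L X Y).card + Y.card < Q.card := by
    rw [← card_union_of_disjoint hgd.wir.dis]
    refine card_lt_card ⟨union_subset sdiff_subset hYQ, fun h3 => ?_⟩
    obtain ⟨l, hl⟩ := hne
    rcases mem_union.1 (h3 (hLQ' hl)) with h4 | h4
    · exact (Gdl.mem_rm.1 h4).2.1 hl
    · exact disjoint_left.1 hgd.dLY hl h4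
  have hm := (hgd.main h.ih h.ihr hn hconn hK (Y2 := ∅) (empty_subset _) (by simp)
    (by simp [ee])).2 (by
      rw [hXc, hs]
      have := h.sv1
      push_cast
      linarith)
  have h3 := h.neg
  have h7 : (0 : ℤ) ≤ ((Gdl.lost B Q L X Y {i0} E).card : ℤ) := by positivity
  rw [hXc, hcs, card_singleton, card_empty] at hm
  push_cast at hm
  linarith

/-- **(S1) with two contact points absorbed jointly.** -/
theorem s1p (h : ViolR B Q) (hi : (B i0 ∩ Q).card = 3) (hLQ : L ⊆ Q \ (B i0 ∩ Q))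
    (hne : L.Nonempty) (hcr : Crit B L) (hs : sv B L = -1) {t : V} (ht : t ∈ B i0) (htQ : t ∈ Q)
    {nu : ℕ} (hnu : 2 ≤ nu) (h5 : nu ≤ 5) (hy : (Ez B L t).card + 1 ≤ nu)
    (hH : hit B ((Q \ (B i0 ∩ Q)) \ L) L ≤ nu + 1)
    (habs : Abz B L ((B i0 ∩ Q).erase t)) {v w : V} (hv : v ∈ Vs B Q L i0)
    (hw : w ∈ Vs B Q L i0) (hvw : v ≠ w) (hab : Abz B L {v, w}) :
    dv B Q L + 15 ≤ 4 * (nu : ℤ) := by
  classical
  have hLQ' : L ⊆ Q := hLQ.trans sdiff_subset
  have hcov := h.cov
  have hcovL : Cov B L := hcov.mono hLQ'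
  have hmV : ∀ {v : V}, v ∈ Vs B Q L i0 ↔ v ∈ Q ∧ v ∉ B i0 ∧ v ∉ L ∧ (Ez B L v).Nonempty :=
    fun {v} => Dlt.mem_Vs
  have hd := h.dlt hi hLQ hne hcr hs
  obtain ⟨i1, hi1⟩ := (hmV.1 hv).2.2.2
  obtain ⟨j1, hj1⟩ := (hmV.1 hw).2.2.2
  set P : Finset (Σ _ : V, ι) := (Vs B Q L i0).sigma (fun v => Ez B L v) with hP
  have hPc : P.card = hit B ((Q \ (B i0 ∩ Q)) \ L) L := by
    rw [hP, card_sigma, hd.sum_hit]
  have hmP : ∀ u i, (⟨u, i⟩ : Σ _ : V, ι) ∈ P ↔ u ∈ Vs B Q L i0 ∧ i ∈ Ez B L u := by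
    intro u i
    rw [hP, mem_sigma]
  set e1 : Σ _ : V, ι := ⟨v, i1⟩ with he1
  set e2 : Σ _ : V, ι := ⟨w, j1⟩ with he2
  have h1P : e1 ∈ P := (hmP v i1).2 ⟨hv, hi1⟩
  have h2P : e2 ∈ P := (hmP w j1).2 ⟨hw, hj1⟩
  have h12 : e1 ≠ e2 := fun h3 => hvw (congrArg Sigma.fst h3)
  have h1P' : e1 ∈ P.erase e2 := mem_erase.2 ⟨h12, h1P⟩
  obtain ⟨f, hf1, hf2, _⟩ := exists_num (P.erase e2) (n := nu) (by
    rw [card_erase_of_mem h2P]
    omega)
  set g : V → ι → ℕ := fun u i => if (⟨u, i⟩ : Σ _ : V, ι) = e2 then f e1 else f ⟨u, i⟩ with hg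
  have hg2 : g w j1 = f e1 := if_pos rfl
  have hgn : ∀ u i, (⟨u, i⟩ : Σ _ : V, ι) ≠ e2 → g u i = f ⟨u, i⟩ := fun u i h3 => if_neg h3
  have hmem' : ∀ u ∈ Vs B Q L i0, ∀ i ∈ Ez B L u, (⟨u, i⟩ : Σ _ : V, ι) ≠ e2 →
      (⟨u, i⟩ : Σ _ : V, ι) ∈ P.erase e2 := fun u hu i hi' h3 =>
    mem_erase.2 ⟨h3, (hmP u i).2 ⟨hu, hi'⟩⟩
  -- the points of the new blocks
  have hW : ∀ c, ∀ u ∈ Wg B Q L i0 g c, (u = w ∧ c = f e1) ∨
      ∃ i, (⟨u, i⟩ : Σ _ : V, ι) ∈ P.erase e2 ∧ f ⟨u, i⟩ = c := by
    intro c u hu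
    obtain ⟨hu1, i, hi', hc⟩ := mem_Wg.1 hu
    by_cases he : (⟨u, i⟩ : Σ _ : V, ι) = e2
    · left
      have hg3 : g u i = f e1 := if_pos he
      exact ⟨congrArg Sigma.fst he, hc.symm.trans hg3⟩
    · right
      exact ⟨i, hmem' u hu1 i hi' he, by rw [← hgn u i he, hc]⟩
  have hW1 : ∀ c, c ≠ f e1 → (Wg B Q L i0 g c).card ≤ 1 := by
    intro c hc
    rw [card_le_one]
    intro a ha b hb
    rcases hW c a ha with h3 | ⟨i, hi', hic⟩
    · exact absurd h3.2 hc
    rcases hW c b hb with h3 | ⟨j, hj', hjc⟩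
    · exact absurd h3.2 hc
    exact congrArg Sigma.fst (hf2 _ hi' _ hj' (hic.trans hjc.symm))
  have hW0 : Wg B Q L i0 g (f e1) ⊆ {v, w} := by
    intro u hu
    rw [mem_insert, mem_singleton]
    rcases hW _ u hu with h3 | ⟨i, hi', hic⟩
    · exact Or.inr h3.1
    · exact Or.inl (congrArg Sigma.fst (hf2 _ hi' _ h1P' hic))
  have hWQ : ∀ c, Wg B Q L i0 g c ⊆ Q := fun c u hu => (hmV.1 (mem_Wg.1 hu).1).1
  have hbi : ∀ K : Finset ℕ, f e1 ∉ K → (K.biUnion (Wg B Q L i0 g)).card ≤ K.card := by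
    intro K hK
    refine card_biUnion_le.trans ?_
    rw [card_eq_sum_ones]
    exact sum_le_sum fun c hc => hW1 c fun h3 => hK (h3 ▸ hc)
  refine h.s1g hi hLQ hne hs ht htQ h5 hy habs g ?_ ?_ ?_ ?_ ?_
  · intro u hu i hi'
    by_cases he : (⟨u, i⟩ : Σ _ : V, ι) = e2
    · have hg3 : g u i = f e1 := if_pos he
      rw [hg3]
      exact hf1 _ h1P'
    · rw [hgn u i he]
      exact hf1 _ (hmem' u hu i hi' he)
  · intro u hu i hi' j hj' hij
    by_cases he : (⟨u, i⟩ : Σ _ : V, ι) = e2
    · by_cases he' : (⟨u, j⟩ : Σ _ : V, ι) = e2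
      · have h3 := he.trans he'.symm
        simpa using h3
      · exfalso
        have hg3 : g u i = f e1 := if_pos he
        rw [hg3, hgn u j he'] at hij
        have h3 := hf2 _ h1P' _ (hmem' u hu j hj' he') hij
        have h4 : v = u := congrArg Sigma.fst h3
        have h6 : u = w := congrArg Sigma.fst he
        exact hvw (h4.trans h6)
    · by_cases he' : (⟨u, j⟩ : Σ _ : V, ι) = e2
      · exfalso
        have hg3 : g u j = f e1 := if_pos he'
        rw [hg3, hgn u i he] at hij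
        have h3 := hf2 _ (hmem' u hu i hi' he) _ h1P' hij
        have h4 : u = v := congrArg Sigma.fst h3
        have h6 : u = w := congrArg Sigma.fst he'
        exact hvw (h4.symm.trans h6)
      · rw [hgn u i he, hgn u j he'] at hij
        have h3 := hf2 _ (hmem' u hu i hi' he) _ (hmem' u hu j hj' he') hij
        simpa using h3
  · intro c
    by_cases hc : c = f e1
    · rw [hc]
      exact (card_le_card hW0).trans card_le_two
    · exact (hW1 c hc).trans (by norm_num)
  · by_cases h3 : f e1 = 0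
    · exact ⟨1, by omega, hW1 1 (by omega)⟩
    · exact ⟨0, by omega, hW1 0 (Ne.symm h3)⟩
  · intro K hK
    by_cases hc : f e1 ∈ K
    · have h3 : L ∪ K.biUnion (Wg B Q L i0 g) ⊆
          (L ∪ {v, w}) ∪ (K.erase (f e1)).biUnion (Wg B Q L i0 g) := by
        intro u hu
        rcases mem_union.1 hu with hu | hu
        · exact mem_union_left _ (mem_union_left _ hu)
        · obtain ⟨c, hcK, huc⟩ := mem_biUnion.1 hu
          by_cases he : c = f e1
          · exact mem_union_left _ (mem_union_right _ (hW0 (he ▸ huc)))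
          · exact mem_union_right _ (mem_biUnion.2 ⟨c, mem_erase.2 ⟨he, hcK⟩, huc⟩)
      have hvwQ : ({v, w} : Finset V) ⊆ Q := by
        intro u hu
        rcases mem_insert.1 hu with rfl | hu
        · exact (hmV.1 hv).1
        · rw [mem_singleton.1 hu]
          exact (hmV.1 hw).1
      have hc' : Cov B ((L ∪ {v, w}) ∪ (K.erase (f e1)).biUnion (Wg B Q L i0 g)) :=
        hcov.mono (union_subset (union_subset hLQ' hvwQ) (biUnion_subset.2 fun c _ => hWQ c))
      have h4 := rho_mono h3 hc'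
      have h6 := rho_union_card hc'
      have h7 := hbi (K.erase (f e1)) (notMem_erase _ _)
      rw [card_erase_of_mem hc] at h7
      have h8 := hab.rho_le'
      have h9 := card_pos.2 hK
      omega
    · have h7 := hbi K hc
      rcases (K.biUnion (Wg B Q L i0 g)).eq_empty_or_nonempty with h3 | ⟨u, hu⟩
      · rw [h3, union_empty]
        have h9 := card_pos.2 hK
        omega
      · obtain ⟨c, _, huc⟩ := mem_biUnion.1 hu
        have huV := hmV.1 (mem_Wg.1 huc).1
        have h4 : Abz B L {u} := hd.abs u huV.1 huV.2.2.1 huV.2.1 huV.2.2.2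
        have h3 : L ∪ K.biUnion (Wg B Q L i0 g) ⊆
            (L ∪ {u}) ∪ (K.biUnion (Wg B Q L i0 g)).erase u := by
          intro x hx
          rcases mem_union.1 hx with hx | hx
          · exact mem_union_left _ (mem_union_left _ hx)
          · by_cases he : x = u
            · exact mem_union_left _ (mem_union_right _ (mem_singleton.2 he))
            · exact mem_union_right _ (mem_erase.2 ⟨he, hx⟩)
        have hc' : Cov B ((L ∪ {u}) ∪ (K.biUnion (Wg B Q L i0 g)).erase u) :=
          hcov.mono (union_subset (union_subset hLQ' (singleton_subset_iff.2 huV.1))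
            ((erase_subset _ _).trans (biUnion_subset.2 fun c _ => hWQ c)))
        have h6 := rho_mono h3 hc'
        have h8 := rho_union_card hc'
        rw [card_erase_of_mem hu] at h8
        have h9 := h4.rho_le'
        have h10 := card_pos.2 ⟨u, hu⟩
        omega

end ViolR

end Pool.Agent.Hyp6
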