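import Pool.Agent.Hyp6.L3X8

/-!
# HYP6 L3X9: a general deletion given by an assignment of blocks

`Gph`: `L` and `X` are deleted with the full block `j0`; the block `i` at `L` gives its outside points
to the new block `φ i`, the points of the full block are given to the new blocks by `A`. Only the
cost of the covers, the sizes and the disjointness are hypotheses.
-/

set_option autoImplicit false

namespace Pool.Agent.Hyp6

open Finset Pool.Agent.Hyp5

universe u v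

variable {V : Type v} [DecidableEq V] {ι : Type u} [Fintype ι] {κ : Type u} [Fintype κ]
  [DecidableEq κ] {B : ι → Finset V}

/-- the outside points of a block. -/
def Og (B : ι → Finset V) (Q L X : Finset V) (j0 i : ι) : Finset V :=
  (B i ∩ Q) \ ((L ∪ X) ∪ (B j0 ∩ Q))

omit [Fintype ι] in
theorem mem_Og {Q L X : Finset V} {j0 i : ι} {v : V} : v ∈ Og B Q L X j0 i ↔
    v ∈ B i ∧ v ∈ Q ∧ v ∉ L ∧ v ∉ X ∧ v ∉ B j0 := by
  unfold Og
  simp only [mem_sdiff, mem_inter, mem_union]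
  tauto

/-- the new blocks. -/
def Ng (B : ι → Finset V) (Q L X : Finset V) (j0 : ι) (A : κ → Finset V) (φ : ι → κ) (c : κ) :
    Finset V :=
  A c ∪ ((tch B L).filter (fun i => φ i = c)).biUnion (Og B Q L X j0)

omit [Fintype κ] in
theorem mem_Ng {Q L X : Finset V} {j0 : ι} {A : κ → Finset V} {φ : ι → κ} {c : κ} {v : V} :
    v ∈ Ng B Q L X j0 A φ c ↔ v ∈ A c ∨ ∃ i, (B i ∩ L).Nonempty ∧ φ i = c ∧
      v ∈ Og B Q L X j0 i := by
  unfold Ng
  simp only [mem_union, mem_biUnion, mem_filter, cost_mem_tch]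
  constructor
  · rintro (h | ⟨i, ⟨h1, h2⟩, h3⟩)
    · exact Or.inl h
    · exact Or.inr ⟨i, h1, h2, h3⟩
  · rintro (h | ⟨i, h1, h2, h3⟩)
    · exact Or.inl h
    · exact Or.inr ⟨i, ⟨h1, h2⟩, h3⟩

/-- the points with new blocks. -/
def Yg (B : ι → Finset V) (Q L X : Finset V) (j0 : ι) : Finset V :=
  ((B j0 ∩ Q) \ X) ∪ (tch B L).biUnion (Og B Q L X j0)

theorem mem_Yg {Q L X : Finset V} {j0 : ι} {v : V} : v ∈ Yg B Q L X j0 ↔
    (v ∈ B j0 ∧ v ∈ Q ∧ v ∉ X) ∨ ∃ i, (B i ∩ L).Nonempty ∧ v ∈ Og B Q L X j0 i := by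
  unfold Yg
  simp only [mem_union, mem_biUnion, mem_sdiff, mem_inter, cost_mem_tch]
  tauto

/-- the data of the deletion. -/
structure Gph (B : ι → Finset V) (Q L X : Finset V) (j0 : ι) (A : κ → Finset V) (φ : ι → κ) :
    Prop where
  viol : ViolR B Q
  c3 : (B j0 ∩ Q).card = 3
  LQ : L ⊆ Q \ (B j0 ∩ Q)
  Lne : L.Nonempty
  XQ : X ⊆ Q
  dLX : Disjoint L X
  X2 : X.card ≤ 2
  subA : ∀ c, A c ⊆ (B j0 ∩ Q) \ X
  degA : ∀ t ∈ B j0 ∩ Q, t ∉ X →
    (univ.filter (fun c => t ∈ A c)).card = (Ez B L t).card + 1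
  inj : ∀ i i', (B i ∩ L).Nonempty → (B i' ∩ L).Nonempty → φ i = φ i' →
    ∀ v, v ∈ Og B Q L X j0 i → v ∈ Og B Q L X j0 i' → i = i'
  size : ∀ c, (Ng B Q L X j0 A φ c).card ≤ 3
  cost : ∀ K : Finset κ, rho B ((L ∪ X) ∪ K.biUnion (Ng B Q L X j0 A φ)) ≤ rho B L + K.card
  link : ∀ Z ⊆ Yg B Q L X j0, Z.Nonempty → Z ≠ Yg B Q L X j0 →
    ∃ c, (Ng B Q L X j0 A φ c ∩ Z).Nonempty ∧ (Ng B Q L X j0 A φ c \ Z).Nonempty

namespace Gph

variable {Q L X : Finset V} {j0 : ι} {A : κ → Finset V} {φ : ι → κ}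

theorem LQ' (h : Gph B Q L X j0 A φ) : L ⊆ Q := h.LQ.trans sdiff_subset

theorem outL (h : Gph B Q L X j0 A φ) {v : V} (hv : v ∈ L) : v ∉ B j0 := fun h1 =>
  (mem_sdiff.1 (h.LQ hv)).2 (mem_inter.2 ⟨h1, h.LQ' hv⟩)

theorem j0L (h : Gph B Q L X j0 A φ) : ¬ (B j0 ∩ L).Nonempty := by
  rintro ⟨v, hv⟩
  exact h.outL (mem_inter.1 hv).2 (mem_inter.1 hv).1

theorem YQ (_h : Gph B Q L X j0 A φ) : Yg B Q L X j0 ⊆ Q := by
  intro v hv
  rcases mem_Yg.1 hv with h1 | ⟨i, _, h1⟩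
  · exact h1.2.1
  · exact (mem_Og.1 h1).2.1

theorem dLY (h : Gph B Q L X j0 A φ) : Disjoint L (Yg B Q L X j0) := by
  rw [disjoint_left]
  intro v hv hv'
  rcases mem_Yg.1 hv' with h1 | ⟨i, _, h1⟩
  · exact h.outL hv h1.1
  · exact (mem_Og.1 h1).2.2.1 hv

theorem dXY (_h : Gph B Q L X j0 A φ) : Disjoint X (Yg B Q L X j0) := by
  rw [disjoint_left]
  intro v hv hv'
  rcases mem_Yg.1 hv' with h1 | ⟨i, _, h1⟩
  · exact h1.2.2 hv
  · exact (mem_Og.1 h1).2.2.2.1 hv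

theorem con (_h : Gph B Q L X j0 A φ) (i : ι) (hi : (B i ∩ L).Nonempty) :
    B i ∩ Q ⊆ (L ∪ X) ∪ Yg B Q L X j0 := by
  intro v hv
  obtain ⟨hv1, hv2⟩ := mem_inter.1 hv
  by_cases hvL : v ∈ L
  · exact mem_union_left _ (mem_union_left _ hvL)
  by_cases hvX : v ∈ X
  · exact mem_union_left _ (mem_union_right _ hvX)
  refine mem_union_right _ (mem_Yg.2 ?_)
  by_cases hvT : v ∈ B j0
  · exact Or.inl ⟨hvT, hv2, hvX⟩
  · exact Or.inr ⟨i, hi, mem_Og.2 ⟨hv1, hv2, hvL, hvX, hvT⟩⟩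

theorem Tsub (_h : Gph B Q L X j0 A φ) : B j0 ∩ Q ⊆ X ∪ Yg B Q L X j0 := by
  intro v hv
  by_cases hvX : v ∈ X
  · exact mem_union_left _ hvX
  · exact mem_union_right _ (mem_Yg.2 (Or.inl ⟨(mem_inter.1 hv).1, (mem_inter.1 hv).2, hvX⟩))

/-- the general deletion. -/
theorem gdl (h : Gph B Q L X j0 A φ) :
    Gdl B Q L X (Yg B Q L X j0) {j0} (Gdl.kp B L {j0}) (Ng B Q L X j0 A φ) := by
  classical
  refine Gdl.of_keep h.viol.reg h.viol.tr h.LQ' h.XQ h.YQ h.dLX h.dLY h.dXY h.con ?_ ?_ ?_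
    h.size h.cost
  · intro i hi
    rw [mem_singleton.1 hi]
    exact ⟨h.Tsub, h.c3⟩
  · intro c v hv
    rcases mem_Ng.1 hv with h1 | ⟨i, h1, _, h2⟩
    · have h3 := h.subA c h1
      obtain ⟨h4, h5⟩ := mem_sdiff.1 h3
      exact mem_Yg.2 (Or.inl ⟨(mem_inter.1 h4).1, (mem_inter.1 h4).2, h5⟩)
    · exact mem_Yg.2 (Or.inr ⟨i, h1, h2⟩)
  · intro y hy
    by_cases hyT : y ∈ B j0
    · have hyQ := h.YQ hy
      have hyX : y ∉ X := fun h1 => disjoint_left.1 h.dXY h1 hy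
      have h1 : univ.filter (fun c => y ∈ Ng B Q L X j0 A φ c) =
          univ.filter (fun c => y ∈ A c) := by
        ext c
        simp only [mem_filter, mem_univ, true_and, mem_Ng]
        constructor
        · rintro (h2 | ⟨i, _, _, h2⟩)
          · exact h2
          · exact absurd hyT (mem_Og.1 h2).2.2.2.2
        · exact Or.inl
      have h2 : (({j0} : Finset ι).filter (fun i => y ∈ B i)).card = 1 := by
        rw [filter_true_of_mem (fun i hi => by rw [mem_singleton.1 hi]; exact hyT),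
          card_singleton]
      have h3 := h.degA y (mem_inter.2 ⟨hyT, hyQ⟩) hyX
      have h4 : (univ.filter (fun i => y ∈ B i ∧ (B i ∩ L).Nonempty)).card =
          (Ez B L y).card := rfl
      convert h3 using 1
      · convert congrArg card h1 using 3
      · rw [← h4, ← h2]
    · obtain ⟨i0, hi0, hy0⟩ : ∃ i, (B i ∩ L).Nonempty ∧ y ∈ Og B Q L X j0 i := by
        rcases mem_Yg.1 hy with h1 | h1
        · exact absurd h1.1 hyT
        · exact h1
      obtain ⟨_, hyQ, hyL, hyX, _⟩ := mem_Og.1 hy0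
      have h2 : (({j0} : Finset ι).filter (fun i => y ∈ B i)).card = 0 := by
        rw [filter_false_of_mem (fun i hi => by rw [mem_singleton.1 hi]; exact hyT), card_empty]
      have hO : ∀ i, y ∈ B i → y ∈ Og B Q L X j0 i := fun i hi =>
        mem_Og.2 ⟨hi, hyQ, hyL, hyX, hyT⟩
      have h3 : (univ.filter (fun i => y ∈ B i ∧ (B i ∩ L).Nonempty)).card =
          (univ.filter (fun c => y ∈ Ng B Q L X j0 A φ c)).card := by
        refine card_bij (fun i _ => φ i) ?_ ?_ ?_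
        · intro i hi
          obtain ⟨h4, h5⟩ := (mem_filter.1 hi).2
          exact mem_filter.2 ⟨mem_univ _, mem_Ng.2 (Or.inr ⟨i, h5, rfl, hO i h4⟩)⟩
        · intro i hi i' hi' he
          obtain ⟨h4, h5⟩ := (mem_filter.1 hi).2
          obtain ⟨h6, h7⟩ := (mem_filter.1 hi').2
          exact h.inj i i' h5 h7 he y (hO i h4) (hO i' h6)
        · intro c hc
          rcases mem_Ng.1 (mem_filter.1 hc).2 with h4 | ⟨i, h4, h5, h6⟩
          · exact absurd (mem_inter.1 (mem_sdiff.1 (h.subA c h4)).1).1 hyT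
          · exact ⟨i, mem_filter.2 ⟨mem_univ _, (mem_Og.1 h6).1, h4⟩, h5⟩
      have h4 : (univ.filter (fun c => y ∈ Ng B Q L X j0 A φ c)).card =
          (univ.filter (fun i => y ∈ B i ∧ (B i ∩ L).Nonempty)).card +
          (({j0} : Finset ι).filter (fun i => y ∈ B i)).card := by
        rw [h3, h2, add_zero]
      convert h4 using 3

/-- the new system is connected. -/
theorem conn (h : Gph B Q L X j0 A φ) :
    Conn (gr (absG B (Gdl.rm Q L X (Yg B Q L X j0)) (Yg B Q L X j0) (Gdl.kp B L {j0})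
      (Ng B Q L X j0 A φ))) (Gdl.rm Q L X (Yg B Q L X j0) ∪ Yg B Q L X j0) := by
  classical
  have hYne : (Yg B Q L X j0).Nonempty := by
    by_contra h0
    rw [not_nonempty_iff_eq_empty] at h0
    have h1 : B j0 ∩ Q ⊆ X := by
      intro v hv
      rcases mem_union.1 (h.Tsub hv) with h2 | h2
      · exact h2
      · rw [h0] at h2
        exact absurd h2 (notMem_empty _)
    have h2 := card_le_card h1
    have h3 := h.c3
    have h4 := h.X2
    omega
  refine h.gdl.conn_sep hYne h.Lne (h.viol.conn_sdiff h.XQ h.X2) h.link ?_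
  intro y _ i hyi hi
  obtain ⟨w, hw⟩ := hi
  obtain ⟨hw1, hw2⟩ := mem_inter.1 hw
  obtain ⟨hwQ, hwL, hwX, hwY⟩ := Gdl.mem_rm.1 hw2
  refine Gdl.mem_kp.2 ⟨hyi, fun h1 => ?_, fun h1 => ?_⟩
  · rcases mem_union.1 (h.con i h1 (mem_inter.2 ⟨hw1, hwQ⟩)) with h2 | h2
    · rcases mem_union.1 h2 with h3 | h3
      · exact hwL h3
      · exact hwX h3
    · exact hwY h2
  · rw [mem_singleton] at h1
    subst h1
    rcases mem_union.1 (h.Tsub (mem_inter.2 ⟨hw1, hwQ⟩)) with h2 | h2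
    · exact hwX h2
    · exact hwY h2

theorem hn (h : Gph B Q L X j0 A φ) : (Gdl.rm Q L X (Yg B Q L X j0)).card +
    (Yg B Q L X j0).card < Q.card := by
  rw [← card_union_of_disjoint h.gdl.wir.dis]
  refine card_lt_card ⟨union_subset sdiff_subset h.YQ, fun h1 => ?_⟩
  obtain ⟨l, hl⟩ := h.Lne
  rcases mem_union.1 (h1 (h.LQ' hl)) with h2 | h2
  · exact (Gdl.mem_rm.1 h2).2.1 hl
  · exact disjoint_left.1 h.dLY hl h2

/-- **the values**, exceptional new systems allowed. -/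
theorem val (h : Gph B Q L X j0 A φ) :
    dv B Q L + 5 * (X.card : ℤ) + 4 - 4 * (Fintype.card κ : ℤ) - 2 ≤ dv B Q Q ∧
    ((X.card : ℤ) + 1 ≤ sv B Q - sv B L →
      dv B Q L + 5 * (X.card : ℤ) + 4 - 4 * (Fintype.card κ : ℤ) ≤ dv B Q Q) := by
  classical
  have h7 : (0 : ℤ) ≤ ((Gdl.lost B Q L X (Yg B Q L X j0) {j0}
    (Gdl.kp B L {j0})).card : ℤ) := by positivity
  have hm := h.gdl.mainK h.viol.ih h.viol.ihr h.hn h.conn (Y2 := ∅) (empty_subset _) (by simp)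
    (by simp [ee])
  rw [card_singleton, card_empty] at hm
  push_cast at hm
  constructor
  · linarith [hm.1]
  · intro h1
    linarith [hm.2 h1]

/-- the value if a new block has at most two points. -/
theorem val2 (h : Gph B Q L X j0 A φ) {c : κ} (hc : (Ng B Q L X j0 A φ c).Nonempty)
    (hc2 : (Ng B Q L X j0 A φ c).card ≤ 2) (hX : (X.card : ℤ) ≤ sv B Q - sv B L) :
    dv B Q L + 5 * (X.card : ℤ) + 4 - 4 * (Fintype.card κ : ℤ) ≤ dv B Q Q := by
  classical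
  have h7 : (0 : ℤ) ≤ ((Gdl.lost B Q L X (Yg B Q L X j0) {j0}
    (Gdl.kp B L {j0})).card : ℤ) := by positivity
  have hm := (h.gdl.main h.viol.ih h.viol.ihr h.hn h.conn (h.gdl.nkt hc hc2) (Y2 := ∅)
    (empty_subset _) (by simp) (by simp [ee])).2 hX
  rw [card_singleton, card_empty] at hm
  push_cast at hm
  linarith

end Gph

end Pool.Agent.Hyp6
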