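import Pool.Agent.Hyp6.L3X9

/-!
# HYP6 L3Xa: leaves with three points and nine blocks, seven hits, the refused configuration

`R1c`: hits `4, 2, 1` where both pairs with the first point are refused: excluded by a general
deletion.
-/

set_option autoImplicit false

namespace Pool.Agent.Hyp6

open Finset Pool.Agent.Hyp5

universe u v

variable {V : Type v} [DecidableEq V] {ι : Type u} [Fintype ι] {B : ι → Finset V}

/-- the configuration. -/
structure R1c (B : ι → Finset V) (Q L : Finset V) (j0 : ι) (p q r a b c : V)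
    (s2 sA sB k1 k2 k3 : ι) : Prop where
  lt : Lt3 B Q L j0
  hL : L = {p, q, r}
  pq : p ≠ q
  pr : p ≠ r
  qr : q ≠ r
  hT : B j0 ∩ Q = {a, b, c}
  ab : a ≠ b
  ac : a ≠ c
  bc : b ≠ c
  kpq : ∀ i, p ∈ B i → q ∈ B i → a ∈ B i
  kpr : ∀ i, p ∈ B i → r ∈ B i → a ∈ B i
  kqr : ∀ i, q ∈ B i → r ∈ B i → i = k1 ∨ i = k2 ∨ i = k3
  sp : ∀ i, p ∈ B i → q ∉ B i → r ∉ B i → i = sA ∨ i = sB
  sq : ∀ i, q ∈ B i → p ∉ B i → r ∉ B i → i = s2
  sr : ∀ i, r ∈ B i → p ∈ B i ∨ q ∈ B i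
  pA : p ∈ B sA
  pB : p ∈ B sB
  q2 : q ∈ B s2
  q1' : q ∈ B k1
  q2' : q ∈ B k2
  q3' : q ∈ B k3
  r1' : r ∈ B k1
  r2' : r ∈ B k2
  r3' : r ∈ B k3
  k12 : k1 ≠ k2
  k13 : k1 ≠ k3
  k23 : k2 ≠ k3
  a2 : a ∈ B s2
  b2 : b ∉ B s2
  c2 : c ∉ B s2
  bA : b ∈ B sA
  cA : c ∈ B sA
  bB : b ∈ B sB
  exr : ∃ i, p ∈ B i ∧ r ∈ B i
  hb : (Ez B L b).card = 2
  hc : (Ez B L c).card = 1
  dv3 : dv B Q L = 3

namespace R1c

variable {Q L : Finset V} {j0 s2 sA sB k1 k2 k3 : ι} {p q r a b c : V}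

theorem pL (h : R1c B Q L j0 p q r a b c s2 sA sB k1 k2 k3) : p ∈ L := by rw [h.hL]; simp
theorem qL (h : R1c B Q L j0 p q r a b c s2 sA sB k1 k2 k3) : q ∈ L := by rw [h.hL]; simp
theorem rL (h : R1c B Q L j0 p q r a b c s2 sA sB k1 k2 k3) : r ∈ L := by rw [h.hL]; simp

theorem aT (h : R1c B Q L j0 p q r a b c s2 sA sB k1 k2 k3) : a ∈ B j0 ∩ Q := by
  rw [h.hT]; simp
theorem bT (h : R1c B Q L j0 p q r a b c s2 sA sB k1 k2 k3) : b ∈ B j0 ∩ Q := by
  rw [h.hT]; simp
theorem cT (h : R1c B Q L j0 p q r a b c s2 sA sB k1 k2 k3) : c ∈ B j0 ∩ Q := by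
  rw [h.hT]; simp

/-- four points in a block. -/
theorem no4 (h : R1c B Q L j0 p q r a b c s2 sA sB k1 k2 k3) {i : ι} {x y z w : V}
    (hx : x ∈ B i ∩ Q) (hy : y ∈ B i ∩ Q) (hz : z ∈ B i ∩ Q) (hw : w ∈ B i ∩ Q) (hxy : x ≠ y)
    (hxz : x ≠ z) (hyz : y ≠ z) (hwx : w ≠ x) (hwy : w ≠ y) (hwz : w ≠ z) : False := by
  have h1 : ({w, x, y, z} : Finset V) ⊆ B i ∩ Q := by
    intro v hv
    simp only [mem_insert, mem_singleton] at hv
    rcases hv with rfl | rfl | rfl | rfl
    · exact hw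
    · exact hx
    · exact hy
    · exact hz
  have h2 := card_le_card h1
  have h3 := h.lt.viol.tr i
  rw [card_insert_of_notMem (by simp [hwx, hwy, hwz]), card_insert_of_notMem (by simp [hxy, hxz]),
    card_pair hyz] at h2
  omega

/-- the deleted points. -/
abbrev X (B : ι → Finset V) (Q L : Finset V) (s2 : ι) : Finset V := (B s2 ∩ Q) \ L

omit [Fintype ι] in
theorem mem_X {v : V} : v ∈ X B Q L s2 ↔ v ∈ B s2 ∧ v ∈ Q ∧ v ∉ L := by
  simp only [mem_sdiff, mem_inter]
  tauto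

theorem aX (h : R1c B Q L j0 p q r a b c s2 sA sB k1 k2 k3) : a ∈ X B Q L s2 :=
  mem_X.2 ⟨h.a2, (mem_inter.1 h.aT).2, h.lt.out h.aT⟩

theorem bX (h : R1c B Q L j0 p q r a b c s2 sA sB k1 k2 k3) : b ∉ X B Q L s2 := fun h1 =>
  h.b2 (mem_X.1 h1).1

theorem cX (h : R1c B Q L j0 p q r a b c s2 sA sB k1 k2 k3) : c ∉ X B Q L s2 := fun h1 =>
  h.c2 (mem_X.1 h1).1

theorem X_card (h : R1c B Q L j0 p q r a b c s2 sA sB k1 k2 k3) : (X B Q L s2).card ≤ 2 := by
  have h1 := h.lt.viol.tr s2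
  have h2 : insert q (X B Q L s2) ⊆ B s2 ∩ Q := by
    intro v hv
    rcases mem_insert.1 hv with rfl | hv
    · exact mem_inter.2 ⟨h.q2, h.lt.LQ' h.qL⟩
    · exact mem_inter.2 ⟨(mem_X.1 hv).1, (mem_X.1 hv).2.1⟩
  have h3 := card_le_card h2
  rw [card_insert_of_notMem (fun h4 => (mem_X.1 h4).2.2 h.qL)] at h3
  omega

theorem X_pos (h : R1c B Q L j0 p q r a b c s2 sA sB k1 k2 k3) : 1 ≤ (X B Q L s2).card :=
  card_pos.2 ⟨a, h.aX⟩

/-- the blocks with outside points. -/
theorem pt (h : R1c B Q L j0 p q r a b c s2 sA sB k1 k2 k3) {i : ι} {v : V}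
    (hi : (B i ∩ L).Nonempty) (hv : v ∈ Og B Q L (X B Q L s2) j0 i) :
    i = k1 ∨ i = k2 ∨ i = k3 ∨ i = sB := by
  obtain ⟨hvi, hvQ, hvL, hvX, hvT⟩ := mem_Og.1 hv
  have hT : ∀ w ∈ B j0 ∩ Q, v ≠ w := fun w hw h1 => hvT (h1 ▸ (mem_inter.1 hw).1)
  have hLn : ∀ w ∈ L, v ≠ w := fun w hw h1 => hvL (h1 ▸ hw)
  have hpQ := h.lt.LQ' h.pL
  have hqQ := h.lt.LQ' h.qL
  have hrQ := h.lt.LQ' h.rL
  have haL := h.lt.out h.aT
  have hbL := h.lt.out h.bT
  have hcL := h.lt.out h.cT
  by_cases hp : p ∈ B i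
  · by_cases hq : q ∈ B i
    · exact (h.no4 (mem_inter.2 ⟨hp, hpQ⟩) (mem_inter.2 ⟨hq, hqQ⟩)
        (mem_inter.2 ⟨h.kpq i hp hq, (mem_inter.1 h.aT).2⟩) (mem_inter.2 ⟨hvi, hvQ⟩) h.pq
        (fun h1 => haL (h1 ▸ h.pL)) (fun h1 => haL (h1 ▸ h.qL)) (hLn p h.pL) (hLn q h.qL)
        (hT a h.aT)).elim
    by_cases hr : r ∈ B i
    · exact (h.no4 (mem_inter.2 ⟨hp, hpQ⟩) (mem_inter.2 ⟨hr, hrQ⟩)
        (mem_inter.2 ⟨h.kpr i hp hr, (mem_inter.1 h.aT).2⟩) (mem_inter.2 ⟨hvi, hvQ⟩) h.pr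
        (fun h1 => haL (h1 ▸ h.pL)) (fun h1 => haL (h1 ▸ h.rL)) (hLn p h.pL) (hLn r h.rL)
        (hT a h.aT)).elim
    rcases h.sp i hp hq hr with h1 | h1
    · rw [h1] at hvi
      exact (h.no4 (mem_inter.2 ⟨h.pA, hpQ⟩) (mem_inter.2 ⟨h.bA, (mem_inter.1 h.bT).2⟩)
        (mem_inter.2 ⟨h.cA, (mem_inter.1 h.cT).2⟩) (mem_inter.2 ⟨hvi, hvQ⟩)
        (fun h1 => hbL (h1 ▸ h.pL)) (fun h1 => hcL (h1 ▸ h.pL)) h.bc (hLn p h.pL) (hT b h.bT)
        (hT c h.cT)).elim
    · exact Or.inr (Or.inr (Or.inr h1))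
  by_cases hq : q ∈ B i
  · by_cases hr : r ∈ B i
    · rcases h.kqr i hq hr with h1 | h1 | h1
      · exact Or.inl h1
      · exact Or.inr (Or.inl h1)
      · exact Or.inr (Or.inr (Or.inl h1))
    · have h1 := h.sq i hq hp hr
      rw [h1] at hvi
      exact absurd (mem_X.2 ⟨hvi, hvQ, hvL⟩) hvX
  exfalso
  obtain ⟨w, hw⟩ := hi
  obtain ⟨hw1, hw2⟩ := mem_inter.1 hw
  rw [h.hL] at hw2
  simp only [mem_insert, mem_singleton] at hw2
  rcases hw2 with rfl | rfl | rfl
  · exact hp hw1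
  · exact hq hw1
  · rcases h.sr i hw1 with h1 | h1
    · exact hp h1
    · exact hq h1

/-- at most one outside point. -/
theorem O_le (h : R1c B Q L j0 p q r a b c s2 sA sB k1 k2 k3) {i : ι} {x y : V}
    (hx : x ∈ B i) (hy : y ∈ B i) (hxy : x ≠ y) (hxL : x ∈ Q) (hyL : y ∈ Q)
    (hx' : x ∉ Og B Q L (X B Q L s2) j0 i) (hy' : y ∉ Og B Q L (X B Q L s2) j0 i) :
    (Og B Q L (X B Q L s2) j0 i).card ≤ 1 := by
  have h1 := h.lt.viol.tr i
  have h2 : ({x, y} : Finset V) ∪ Og B Q L (X B Q L s2) j0 i ⊆ B i ∩ Q := by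
    intro v hv
    rcases mem_union.1 hv with hv | hv
    · simp only [mem_insert, mem_singleton] at hv
      rcases hv with rfl | rfl
      · exact mem_inter.2 ⟨hx, hxL⟩
      · exact mem_inter.2 ⟨hy, hyL⟩
    · exact mem_inter.2 ⟨(mem_Og.1 hv).1, (mem_Og.1 hv).2.1⟩
  have h3 : Disjoint ({x, y} : Finset V) (Og B Q L (X B Q L s2) j0 i) := by
    rw [disjoint_left]
    intro v hv hv'
    simp only [mem_insert, mem_singleton] at hv
    rcases hv with rfl | rfl
    · exact hx' hv'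
    · exact hy' hv'
  have h4 := card_le_card h2
  rw [card_union_of_disjoint h3, card_pair hxy] at h4
  omega

theorem Ok_le (h : R1c B Q L j0 p q r a b c s2 sA sB k1 k2 k3) {k : ι} (hq : q ∈ B k)
    (hr : r ∈ B k) : (Og B Q L (X B Q L s2) j0 k).card ≤ 1 :=
  h.O_le hq hr h.qr (h.lt.LQ' h.qL) (h.lt.LQ' h.rL) (fun h1 => (mem_Og.1 h1).2.2.1 h.qL)
    (fun h1 => (mem_Og.1 h1).2.2.1 h.rL)

theorem OB_le (h : R1c B Q L j0 p q r a b c s2 sA sB k1 k2 k3) :
    (Og B Q L (X B Q L s2) j0 sB).card ≤ 1 :=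
  h.O_le h.pB h.bB (fun h1 => h.lt.out h.bT (h1 ▸ h.pL)) (h.lt.LQ' h.pL) (mem_inter.1 h.bT).2
    (fun h1 => (mem_Og.1 h1).2.2.1 h.pL) (fun h1 => (mem_Og.1 h1).2.2.2.2 (mem_inter.1 h.bT).1)

/-- the points of the full block which are not deleted. -/
theorem Trest (h : R1c B Q L j0 p q r a b c s2 sA sB k1 k2 k3) {t : V} (ht : t ∈ B j0 ∩ Q)
    (htX : t ∉ X B Q L s2) : t = b ∨ t = c := by
  rw [h.hT] at ht
  simp only [mem_insert, mem_singleton] at ht
  rcases ht with rfl | rfl | rfl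
  · exact absurd h.aX htX
  · exact Or.inl rfl
  · exact Or.inr rfl

theorem dLX (_h : R1c B Q L j0 p q r a b c s2 sA sB k1 k2 k3) : Disjoint L (X B Q L s2) :=
  disjoint_sdiff

open Classical in
/-- the assignment of the blocks. -/
noncomputable def ph (k1 k2 k3 : ι) (n : ℕ) (hn : 3 ≤ n) (i : ι) : ULift.{u} (Fin n) :=
  if i = k1 then ⟨⟨0, by omega⟩⟩ else if i = k2 then ⟨⟨1, by omega⟩⟩ else
    if i = k3 then ⟨⟨2, by omega⟩⟩ else ⟨⟨n - 1, by omega⟩⟩

omit [DecidableEq V] [Fintype ι] in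
theorem ph_k1 {n : ℕ} {hn : 3 ≤ n} : (ph k1 k2 k3 n hn k1 : ULift.{u} (Fin n)).down.val = 0 := by
  unfold ph
  rw [if_pos rfl]

theorem ne12 (h : R1c B Q L j0 p q r a b c s2 sA sB k1 k2 k3) {n : ℕ} {hn : 3 ≤ n} :
    (ph k1 k2 k3 n hn k2 : ULift.{u} (Fin n)).down.val = 1 := by
  unfold ph
  rw [if_neg h.k12.symm, if_pos rfl]

theorem ne13 (h : R1c B Q L j0 p q r a b c s2 sA sB k1 k2 k3) {n : ℕ} {hn : 3 ≤ n} :
    (ph k1 k2 k3 n hn k3 : ULift.{u} (Fin n)).down.val = 2 := by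
  unfold ph
  rw [if_neg h.k13.symm, if_neg h.k23.symm, if_pos rfl]

theorem sB_ne (h : R1c B Q L j0 p q r a b c s2 sA sB k1 k2 k3) {k : ι} (hq : q ∈ B k)
    (hr : r ∈ B k) : sB ≠ k := by
  rintro rfl
  refine h.lt.not3 sB fun v hv => ?_
  rw [h.hL] at hv
  simp only [mem_insert, mem_singleton] at hv
  rcases hv with rfl | rfl | rfl
  · exact h.pB
  · exact hq
  · exact hr

theorem neB (h : R1c B Q L j0 p q r a b c s2 sA sB k1 k2 k3) {n : ℕ} {hn : 3 ≤ n} :
    (ph k1 k2 k3 n hn sB : ULift.{u} (Fin n)).down.val = n - 1 := by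
  unfold ph
  rw [if_neg (h.sB_ne h.q1' h.r1'), if_neg (h.sB_ne h.q2' h.r2'), if_neg (h.sB_ne h.q3' h.r3')]

theorem meets {k : ι} (hk : q ∈ B k) (h : R1c B Q L j0 p q r a b c s2 sA sB k1 k2 k3) :
    (B k ∩ L).Nonempty := ⟨q, mem_inter.2 ⟨hk, h.qL⟩⟩

theorem meetsB (h : R1c B Q L j0 p q r a b c s2 sA sB k1 k2 k3) :
    (B sB ∩ L).Nonempty := ⟨p, mem_inter.2 ⟨h.pB, h.pL⟩⟩

/-- the points of the new blocks. -/
theorem mem_N (h : R1c B Q L j0 p q r a b c s2 sA sB k1 k2 k3) {n : ℕ} {hn : 3 ≤ n}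
    {A : ULift.{u} (Fin n) → Finset V} {d : ULift.{u} (Fin n)} {v : V} :
    v ∈ Ng B Q L (X B Q L s2) j0 A (ph k1 k2 k3 n hn) d ↔ v ∈ A d ∨
      (d.down.val = 0 ∧ v ∈ Og B Q L (X B Q L s2) j0 k1) ∨
      (d.down.val = 1 ∧ v ∈ Og B Q L (X B Q L s2) j0 k2) ∨
      (d.down.val = 2 ∧ v ∈ Og B Q L (X B Q L s2) j0 k3) ∨
      (d.down.val = n - 1 ∧ v ∈ Og B Q L (X B Q L s2) j0 sB) := by
  rw [mem_Ng]
  have ext' : ∀ e : ULift.{u} (Fin n), e.down.val = d.down.val → e = d := fun e he =>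
    ULift.down_injective (Fin.ext he)
  constructor
  · rintro (h1 | ⟨i, hi, hid, hv⟩)
    · exact Or.inl h1
    · right
      rcases h.pt hi hv with h2 | h2 | h2 | h2
      · subst h2
        exact Or.inl ⟨by rw [← hid]; exact ph_k1, hv⟩
      · subst h2
        exact Or.inr (Or.inl ⟨by rw [← hid]; exact h.ne12, hv⟩)
      · subst h2
        exact Or.inr (Or.inr (Or.inl ⟨by rw [← hid]; exact h.ne13, hv⟩))
      · subst h2
        exact Or.inr (Or.inr (Or.inr ⟨by rw [← hid]; exact h.neB, hv⟩))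
  · rintro (h1 | ⟨h1, h2⟩ | ⟨h1, h2⟩ | ⟨h1, h2⟩ | ⟨h1, h2⟩)
    · exact Or.inl h1
    · exact Or.inr ⟨k1, meets h.q1' h, ext' _ (by rw [h1]; exact ph_k1), h2⟩
    · exact Or.inr ⟨k2, meets h.q2' h, ext' _ (by rw [h1]; exact h.ne12), h2⟩
    · exact Or.inr ⟨k3, meets h.q3' h, ext' _ (by rw [h1]; exact h.ne13), h2⟩
    · exact Or.inr ⟨sB, h.meetsB, ext' _ (by rw [h1]; exact h.neB), h2⟩

theorem mem_Y (h : R1c B Q L j0 p q r a b c s2 sA sB k1 k2 k3) {v : V} :
    v ∈ Yg B Q L (X B Q L s2) j0 ↔ v = b ∨ v = c ∨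
      v ∈ Og B Q L (X B Q L s2) j0 k1 ∨ v ∈ Og B Q L (X B Q L s2) j0 k2 ∨
      v ∈ Og B Q L (X B Q L s2) j0 k3 ∨ v ∈ Og B Q L (X B Q L s2) j0 sB := by
  rw [mem_Yg]
  constructor
  · rintro (⟨h1, h2, h3⟩ | ⟨i, hi, hv⟩)
    · rcases h.Trest (mem_inter.2 ⟨h1, h2⟩) h3 with h4 | h4
      · exact Or.inl h4
      · exact Or.inr (Or.inl h4)
    · rcases h.pt hi hv with h2 | h2 | h2 | h2
      · subst h2
        exact Or.inr (Or.inr (Or.inl hv))
      · subst h2
        exact Or.inr (Or.inr (Or.inr (Or.inl hv)))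
      · subst h2
        exact Or.inr (Or.inr (Or.inr (Or.inr (Or.inl hv))))
      · subst h2
        exact Or.inr (Or.inr (Or.inr (Or.inr (Or.inr hv))))
  · rintro (rfl | rfl | h1 | h1 | h1 | h1)
    · exact Or.inl ⟨(mem_inter.1 h.bT).1, (mem_inter.1 h.bT).2, h.bX⟩
    · exact Or.inl ⟨(mem_inter.1 h.cT).1, (mem_inter.1 h.cT).2, h.cX⟩
    · exact Or.inr ⟨k1, meets h.q1' h, h1⟩
    · exact Or.inr ⟨k2, meets h.q2' h, h1⟩
    · exact Or.inr ⟨k3, meets h.q3' h, h1⟩
    · exact Or.inr ⟨sB, h.meetsB, h1⟩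

/-- covers of the part. -/
theorem L_sub (h : R1c B Q L j0 p q r a b c s2 sA sB k1 k2 k3) {T : Finset ι} {i j k : ι}
    (hi : i ∈ T) (hj : j ∈ T) (hk : k ∈ T) (hp : p ∈ B i) (hq : q ∈ B j) (hr : r ∈ B k) :
    L ⊆ T.biUnion B := by
  rw [h.hL]
  intro v hv
  simp only [mem_insert, mem_singleton] at hv
  rw [mem_biUnion]
  rcases hv with rfl | rfl | rfl
  · exact ⟨i, hi, hp⟩
  · exact ⟨j, hj, hq⟩
  · exact ⟨k, hk, hr⟩

/-- the block of an index. -/
def bk4 (k1 k2 k3 sB : ι) (n : ℕ) : ι := if n = 0 then k1 else if n = 1 then k2 else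
  if n = 2 then k3 else sB

/-- **the case of two deleted points**. -/
theorem two (h : R1c B Q L j0 p q r a b c s2 sA sB k1 k2 k3) (hX : (X B Q L s2).card = 2) :
    False := by
  classical
  set O := Og B Q L (X B Q L s2) j0 with hO
  set A : ULift.{u} (Fin 4) → Finset V := fun d => if d.down.val = 0 then {b, c} else
    if d.down.val = 2 then {c} else {b} with hA
  have hN := fun {d : ULift.{u} (Fin 4)} {v : V} =>
    h.mem_N (hn := (by norm_num : 3 ≤ 4)) (A := A) (d := d) (v := v)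
  have hbd : ∀ d : ULift.{u} (Fin 4), d.down.val ≠ 2 → b ∈ A d := by
    intro d hd
    simp only [hA]
    split_ifs <;> simp
  have hcd : ∀ d : ULift.{u} (Fin 4), d.down.val = 0 ∨ d.down.val = 2 → c ∈ A d := by
    intro d hd
    simp only [hA]
    rcases hd with hd | hd
    · rw [if_pos hd]
      simp
    · rw [if_neg (by omega), if_pos hd]
      simp
  have hAs : ∀ d v, v ∈ A d → (v = b ∧ d.down.val ≠ 2) ∨
      (v = c ∧ (d.down.val = 0 ∨ d.down.val = 2)) := by
    intro d v hv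
    simp only [hA] at hv
    split_ifs at hv with h1 h2
    · simp only [mem_insert, mem_singleton] at hv
      rcases hv with rfl | rfl
      · exact Or.inl ⟨rfl, by omega⟩
      · exact Or.inr ⟨rfl, Or.inl h1⟩
    · exact Or.inr ⟨mem_singleton.1 hv, Or.inr h2⟩
    · exact Or.inl ⟨mem_singleton.1 hv, h2⟩
  have hcz : ∀ S : Finset ℕ, (univ.filter (fun d : ULift.{u} (Fin 4) => d.down.val ∈ S)).card =
      ((range 4).filter (fun n => n ∈ S)).card := by
    intro S
    refine card_bij (fun d _ => d.down.val) ?_ ?_ ?_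
    · intro d hd
      exact mem_filter.2 ⟨mem_range.2 d.down.2, (mem_filter.1 hd).2⟩
    · intro d _ e _ he
      exact ULift.down_injective (Fin.ext he)
    · intro n hn
      obtain ⟨h1, h2⟩ := mem_filter.1 hn
      exact ⟨⟨⟨n, mem_range.1 h1⟩⟩, mem_filter.2 ⟨mem_univ _, h2⟩, rfl⟩
  have hg : Gph B Q L (X B Q L s2) j0 A (ph k1 k2 k3 4 (by norm_num)) :=
    { viol := h.lt.viol
      c3 := h.lt.c3
      LQ := h.lt.LQ
      Lne := ⟨p, h.pL⟩
      XQ := fun v hv => (mem_X.1 hv).2.1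
      dLX := h.dLX
      X2 := h.X_card
      subA := by
        intro d v hv
        rcases hAs d v hv with ⟨rfl, _⟩ | ⟨rfl, _⟩
        · exact mem_sdiff.2 ⟨h.bT, h.bX⟩
        · exact mem_sdiff.2 ⟨h.cT, h.cX⟩
      degA := by
        intro t ht htX
        rcases h.Trest ht htX with rfl | rfl
        · rw [h.hb]
          have h1 : (univ.filter (fun d => t ∈ A d)) =
              univ.filter (fun d : ULift.{u} (Fin 4) => d.down.val ∈ ({0, 1, 3} : Finset ℕ)) := by
            ext d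
            simp only [mem_filter, mem_univ, true_and, mem_insert, mem_singleton]
            constructor
            · intro hd
              rcases hAs d t hd with ⟨_, h2⟩ | ⟨h2, _⟩
              · have := d.down.2
                omega
              · exact absurd h2 h.bc
            · intro hd
              exact hbd d (by omega)
          rw [h1, hcz]
          rfl
        · rw [h.hc]
          have h1 : (univ.filter (fun d => t ∈ A d)) =
              univ.filter (fun d : ULift.{u} (Fin 4) => d.down.val ∈ ({0, 2} : Finset ℕ)) := by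
            ext d
            simp only [mem_filter, mem_univ, true_and, mem_insert, mem_singleton]
            constructor
            · intro hd
              rcases hAs d t hd with ⟨h2, _⟩ | ⟨_, h2⟩
              · exact absurd h2.symm h.bc
              · exact h2
            · exact hcd d
          rw [h1, hcz]
          rfl
      inj := by
        intro i i' hi hi' he v hv hv'
        have e1 : ∀ j, (B j ∩ L).Nonempty → v ∈ O j →
            (j = k1 ∧ (ph k1 k2 k3 4 (by norm_num) j : ULift.{u} (Fin 4)).down.val = 0) ∨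
            (j = k2 ∧ (ph k1 k2 k3 4 (by norm_num) j : ULift.{u} (Fin 4)).down.val = 1) ∨
            (j = k3 ∧ (ph k1 k2 k3 4 (by norm_num) j : ULift.{u} (Fin 4)).down.val = 2) ∨
            (j = sB ∧ (ph k1 k2 k3 4 (by norm_num) j : ULift.{u} (Fin 4)).down.val = 3) := by
          intro j hj hvj
          rcases h.pt hj hvj with h2 | h2 | h2 | h2
          · exact Or.inl ⟨h2, by rw [h2]; exact ph_k1⟩
          · exact Or.inr (Or.inl ⟨h2, by rw [h2]; exact h.ne12⟩)
          · exact Or.inr (Or.inr (Or.inl ⟨h2, by rw [h2]; exact h.ne13⟩))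
          · exact Or.inr (Or.inr (Or.inr ⟨h2, by rw [h2]; exact h.neB⟩))
        have e2 : (ph k1 k2 k3 4 (by norm_num) i : ULift.{u} (Fin 4)).down.val =
            (ph k1 k2 k3 4 (by norm_num) i' : ULift.{u} (Fin 4)).down.val := by rw [he]
        rcases e1 i hi hv with ⟨f1, f2⟩ | ⟨f1, f2⟩ | ⟨f1, f2⟩ | ⟨f1, f2⟩ <;>
          rcases e1 i' hi' hv' with ⟨g1, g2⟩ | ⟨g1, g2⟩ | ⟨g1, g2⟩ | ⟨g1, g2⟩ <;>
          first
          | exact f1.trans g1.symm
          | (exfalso; omega)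
      size := by
        intro d
        have hk1 := h.Ok_le h.q1' h.r1'
        have hk2 := h.Ok_le h.q2' h.r2'
        have hk3 := h.Ok_le h.q3' h.r3'
        have hkB := h.OB_le
        have h1 : (A d).card ≤ 2 := by
          simp only [hA]
          split_ifs
          · exact card_le_two
          · simp
          · simp
        have h2 : Ng B Q L (X B Q L s2) j0 A (ph k1 k2 k3 4 (by norm_num)) d ⊆
            A d ∪ O (bk4 k1 k2 k3 sB d.down.val) := by
          intro v hv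
          unfold bk4
          rcases hN.1 hv with h3 | ⟨h3, h4⟩ | ⟨h3, h4⟩ | ⟨h3, h4⟩ | ⟨h3, h4⟩
          · exact mem_union_left _ h3
          · rw [if_pos h3]
            exact mem_union_right _ h4
          · rw [if_neg (by omega), if_pos h3]
            exact mem_union_right _ h4
          · rw [if_neg (by omega), if_neg (by omega), if_pos h3]
            exact mem_union_right _ h4
          · rw [if_neg (by omega), if_neg (by omega), if_neg (by omega)]
            exact mem_union_right _ h4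
        have h3 : (O (bk4 k1 k2 k3 sB d.down.val)).card ≤ 1 := by
          unfold bk4
          split_ifs <;> assumption
        have h4 := card_le_card h2
        have h5 := card_union_le (A d) (O (bk4 k1 k2 k3 sB d.down.val))
        omega
      cost := by
        intro K
        rw [h.lt.rhoL]
        have hsub : ∀ (T : Finset ι), L ⊆ T.biUnion B → s2 ∈ T →
            (∀ d ∈ K, A d ⊆ T.biUnion B ∧ bk4 k1 k2 k3 sB d.down.val ∈ T) →
            (L ∪ X B Q L s2) ∪ K.biUnion (Ng B Q L (X B Q L s2) j0 A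
              (ph k1 k2 k3 4 (by norm_num))) ⊆ T.biUnion B := by
          intro T hT1 hT2 hT3
          refine union_subset (union_subset hT1 fun v hv => mem_biUnion.2
            ⟨s2, hT2, (mem_X.1 hv).1⟩) fun v hv => ?_
          obtain ⟨d, hd, hv2⟩ := mem_biUnion.1 hv
          obtain ⟨h3, h4⟩ := hT3 d hd
          rcases hN.1 hv2 with h5 | ⟨h5, h6⟩ | ⟨h5, h6⟩ | ⟨h5, h6⟩ | ⟨h5, h6⟩
          · exact h3 h5
          · unfold bk4 at h4
            rw [if_pos h5] at h4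
            exact mem_biUnion.2 ⟨_, h4, (mem_Og.1 h6).1⟩
          · unfold bk4 at h4
            rw [if_neg (by omega), if_pos h5] at h4
            exact mem_biUnion.2 ⟨_, h4, (mem_Og.1 h6).1⟩
          · unfold bk4 at h4
            rw [if_neg (by omega), if_neg (by omega), if_pos h5] at h4
            exact mem_biUnion.2 ⟨_, h4, (mem_Og.1 h6).1⟩
          · unfold bk4 at h4
            rw [if_neg (by omega), if_neg (by omega), if_neg (by omega)] at h4
            exact mem_biUnion.2 ⟨_, h4, (mem_Og.1 h6).1⟩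
        by_cases hK : ∃ d ∈ K, d.down.val ≠ 3
        · obtain ⟨d0, hd0, hd03⟩ := hK
          have h3 : bk4 k1 k2 k3 sB d0.down.val ∈
              (({sA, s2} : Finset ι) ∪ K.image (fun d => bk4 k1 k2 k3 sB d.down.val)) :=
            mem_union_right _ (mem_image_of_mem _ hd0)
          have h4 : r ∈ B (bk4 k1 k2 k3 sB d0.down.val) := by
            have := d0.down.2
            unfold bk4
            split_ifs with g1 g2 g3
            · exact h.r1'
            · exact h.r2'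
            · exact h.r3'
            · exfalso
              omega
          have h5 := Hyp6.rho_le (hsub (({sA, s2} : Finset ι) ∪
            K.image (fun d => bk4 k1 k2 k3 sB d.down.val))
            (h.L_sub (i := sA) (j := s2) (mem_union_left _ (by simp)) (mem_union_left _ (by simp))
              h3 h.pA h.q2 h4) (mem_union_left _ (by simp)) fun d hd => ⟨fun v hv => by
                have h6 : v ∈ B sA := by
                  rcases hAs d v hv with ⟨rfl, _⟩ | ⟨rfl, _⟩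
                  · exact h.bA
                  · exact h.cA
                exact mem_biUnion.2 ⟨sA, mem_union_left _ (by simp), h6⟩,
                mem_union_right _ (mem_image_of_mem _ hd)⟩)
          refine h5.trans ((card_union_le _ _).trans ?_)
          have h6 : (({sA, s2} : Finset ι)).card ≤ 2 := card_le_two
          have h7 : (K.image (fun d => bk4 k1 k2 k3 sB d.down.val)).card ≤ K.card :=
            card_image_le
          omega
        · push Not at hK
          rcases K.eq_empty_or_nonempty with rfl | hKne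
          · obtain ⟨i, hi1, hi2⟩ := h.exr
            have h5 := Hyp6.rho_le (hsub (({i, s2} : Finset ι))
              (h.L_sub (i := i) (j := s2) (k := i) (by simp) (by simp) (by simp) hi1 h.q2 hi2)
              (by simp) fun d hd => absurd hd (notMem_empty _))
            have h6 : (({i, s2} : Finset ι)).card ≤ 2 := card_le_two
            exact h5.trans (by omega)
          · have h5 := Hyp6.rho_le (hsub (({sB, s2, k1} : Finset ι))
              (h.L_sub (i := sB) (j := s2) (k := k1) (by simp) (by simp) (by simp) h.pB h.q2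
                h.r1') (by simp) fun d hd => ⟨fun v hv => by
                  rcases hAs d v hv with ⟨rfl, _⟩ | ⟨_, h7⟩
                  · exact mem_biUnion.2 ⟨sB, by simp, h.bB⟩
                  · have := hK d hd
                    omega, by
                  unfold bk4
                  rw [hK d hd]
                  simp⟩)
            have h6 : (({sB, s2, k1} : Finset ι)).card ≤ 3 := card_le_three
            have h7 := card_pos.2 hKne
            exact h5.trans (by omega)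
      link := by
        intro Z hZ hne hneq
        by_contra hcon
        push Not at hcon
        have hcl : ∀ d v w, v ∈ Ng B Q L (X B Q L s2) j0 A (ph k1 k2 k3 4 (by norm_num)) d →
            w ∈ Ng B Q L (X B Q L s2) j0 A (ph k1 k2 k3 4 (by norm_num)) d → v ∈ Z → w ∈ Z := by
          intro d v w hv hw hvZ
          by_contra hwZ
          have h1 := hcon d ⟨v, mem_inter.2 ⟨hv, hvZ⟩⟩
          rw [sdiff_eq_empty_iff_subset] at h1
          exact hwZ (h1 hw)
        have i0 : (⟨⟨0, by norm_num⟩⟩ : ULift.{u} (Fin 4)).down.val = 0 := rfl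
        have i1 : (⟨⟨1, by norm_num⟩⟩ : ULift.{u} (Fin 4)).down.val = 1 := rfl
        have i2 : (⟨⟨2, by norm_num⟩⟩ : ULift.{u} (Fin 4)).down.val = 2 := rfl
        have i3 : (⟨⟨3, by norm_num⟩⟩ : ULift.{u} (Fin 4)).down.val = 3 := rfl
        have hb0 := hN.2 (Or.inl (hbd ⟨⟨0, by norm_num⟩⟩ (by rw [i0]; norm_num)))
        have hb1 := hN.2 (Or.inl (hbd ⟨⟨1, by norm_num⟩⟩ (by rw [i1]; norm_num)))
        have hb3 := hN.2 (Or.inl (hbd ⟨⟨3, by norm_num⟩⟩ (by rw [i3]; norm_num)))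
        have hc0 := hN.2 (Or.inl (hcd ⟨⟨0, by norm_num⟩⟩ (Or.inl i0)))
        have hc2 := hN.2 (Or.inl (hcd ⟨⟨2, by norm_num⟩⟩ (Or.inr i2)))
        -- every point is linked with `b`
        have hall : ∀ v ∈ Yg B Q L (X B Q L s2) j0, (v ∈ Z ↔ b ∈ Z) := by
          intro v hv
          rcases h.mem_Y.1 hv with rfl | rfl | h1 | h1 | h1 | h1
          · exact Iff.rfl
          · exact ⟨hcl _ _ _ hc0 hb0, hcl _ _ _ hb0 hc0⟩
          · have h2 := hN.2 (Or.inr (Or.inl ⟨i0, h1⟩))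
            exact ⟨hcl _ _ _ h2 hb0, hcl _ _ _ hb0 h2⟩
          · have h2 := hN.2 (Or.inr (Or.inr (Or.inl ⟨i1, h1⟩)))
            exact ⟨hcl _ _ _ h2 hb1, hcl _ _ _ hb1 h2⟩
          · have h2 := hN.2 (Or.inr (Or.inr (Or.inr (Or.inl ⟨i2, h1⟩))))
            exact ⟨fun h3 => hcl _ _ _ hc0 hb0 (hcl _ _ _ h2 hc2 h3),
              fun h3 => hcl _ _ _ hc2 h2 (hcl _ _ _ hb0 hc0 h3)⟩
          · have h2 := hN.2 (Or.inr (Or.inr (Or.inr (Or.inr ⟨i3, h1⟩))))
            exact ⟨hcl _ _ _ h2 hb3, hcl _ _ _ hb3 h2⟩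
        obtain ⟨z, hz⟩ := hne
        have hbZ : b ∈ Z := (hall z (hZ hz)).1 hz
        exact hneq (subset_antisymm hZ fun v hv => (hall v hv).2 hbZ) }
  have h1 := h.lt.viol.neg
  have h2 := h.lt.viol.sv1
  have i1 : (⟨⟨1, by norm_num⟩⟩ : ULift.{u} (Fin 4)).down.val = 1 := rfl
  have h3 := hg.val2 (c := ⟨⟨1, by norm_num⟩⟩)
    ⟨b, hN.2 (Or.inl (hbd _ (by rw [i1]; norm_num)))⟩ (by
      have h4 : Ng B Q L (X B Q L s2) j0 A (ph k1 k2 k3 4 (by norm_num)) ⟨⟨1, by norm_num⟩⟩ ⊆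
          insert b (O k2) := by
        intro v hv
        rcases hN.1 hv with h5 | ⟨h5, _⟩ | ⟨_, h5⟩ | ⟨h5, _⟩ | ⟨h5, _⟩
        · rcases hAs _ _ h5 with ⟨rfl, _⟩ | ⟨_, h6⟩
          · exact mem_insert_self _ _
          · rw [i1] at h6
            omega
        · rw [i1] at h5
          omega
        · exact mem_insert_of_mem h5
        · rw [i1] at h5
          omega
        · rw [i1] at h5
          omega
      have h5 := card_le_card h4
      have h6 := card_insert_le b (O k2)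
      have h7 : (O k2).card ≤ 1 := h.Ok_le h.q2' h.r2'
      omega) (by rw [hX, h.lt.svL]; push_cast; linarith)
  rw [h.dv3, hX] at h3
  have h4 : (Fintype.card (ULift.{u} (Fin 4)) : ℤ) = 4 := by
    rw [Fintype.card_ulift, Fintype.card_fin]
    norm_num
  rw [h4] at h3
  push_cast at h3
  linarith

end R1c

end Pool.Agent.Hyp6
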