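import Pool.Agent.Hyp6.L3Xa

/-!
# HYP6 L3Xb: leaves with three points and nine blocks, the row of seven hits

With seven hits of the full block there are exactly five other hits, and no two outside contact
points are jointly absorbed.
-/

set_option autoImplicit false

namespace Pool.Agent.Hyp6

open Finset Pool.Agent.Hyp5

universe u v

variable {V : Type v} [DecidableEq V] {ι : Type u} [Fintype ι] {B : ι → Finset V}

namespace R1c

variable {Q L : Finset V} {j0 s2 sA sB k1 k2 k3 : ι} {p q r a b c : V}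

/-- another order of the three blocks. -/
theorem swap13 (h : R1c B Q L j0 p q r a b c s2 sA sB k1 k2 k3) :
    R1c B Q L j0 p q r a b c s2 sA sB k3 k2 k1 :=
  { h with
    kqr := fun i h1 h2 => by
      rcases h.kqr i h1 h2 with h3 | h3 | h3
      · exact Or.inr (Or.inr h3)
      · exact Or.inr (Or.inl h3)
      · exact Or.inl h3
    q1' := h.q3'
    q3' := h.q1'
    r1' := h.r3'
    r3' := h.r1'
    k12 := h.k23.symm
    k13 := h.k13.symm
    k23 := h.k12.symm }

/-- another order of the three blocks. -/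
theorem swap23 (h : R1c B Q L j0 p q r a b c s2 sA sB k1 k2 k3) :
    R1c B Q L j0 p q r a b c s2 sA sB k1 k3 k2 :=
  { h with
    kqr := fun i h1 h2 => by
      rcases h.kqr i h1 h2 with h3 | h3 | h3
      · exact Or.inl h3
      · exact Or.inr (Or.inr h3)
      · exact Or.inr (Or.inl h3)
    q2' := h.q3'
    q3' := h.q2'
    r2' := h.r3'
    r3' := h.r2'
    k12 := h.k13
    k13 := h.k12
    k23 := h.k23.symm }

/-- the block of an index. -/
def bk3 (k1 k2 k3 : ι) (n : ℕ) : ι := if n = 0 then k1 else if n = 1 then k2 else k3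

/-- **the case of one deleted point**, with disjoint outside points. -/
theorem one' (h : R1c B Q L j0 p q r a b c s2 sA sB k1 k2 k3) (hX : (X B Q L s2).card = 1)
    (hd3 : Disjoint (Og B Q L (X B Q L s2) j0 k3) (Og B Q L (X B Q L s2) j0 sB)) :
    False := by
  classical
  set O := Og B Q L (X B Q L s2) j0 with hO
  set A : ULift.{u} (Fin 3) → Finset V := fun d => if d.down.val = 2 then {b} else {b, c} with hA
  have hN := fun {d : ULift.{u} (Fin 3)} {v : V} =>
    h.mem_N (hn := (by norm_num : 3 ≤ 3)) (A := A) (d := d) (v := v)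
  have hbd : ∀ d : ULift.{u} (Fin 3), b ∈ A d := by
    intro d
    simp only [hA]
    split_ifs <;> simp
  have hcd : ∀ d : ULift.{u} (Fin 3), d.down.val ≠ 2 → c ∈ A d := by
    intro d hd
    simp only [hA]
    rw [if_neg hd]
    simp
  have hAs : ∀ d v, v ∈ A d → v = b ∨ (v = c ∧ d.down.val ≠ 2) := by
    intro d v hv
    simp only [hA] at hv
    split_ifs at hv with h1
    · exact Or.inl (mem_singleton.1 hv)
    · simp only [mem_insert, mem_singleton] at hv
      rcases hv with rfl | rfl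
      · exact Or.inl rfl
      · exact Or.inr ⟨rfl, h1⟩
  have hcz : ∀ S : Finset ℕ, (univ.filter (fun d : ULift.{u} (Fin 3) => d.down.val ∈ S)).card =
      ((range 3).filter (fun n => n ∈ S)).card := by
    intro S
    refine card_bij (fun d _ => d.down.val) ?_ ?_ ?_
    · intro d hd
      exact mem_filter.2 ⟨mem_range.2 d.down.2, (mem_filter.1 hd).2⟩
    · intro d _ e _ he
      exact ULift.down_injective (Fin.ext he)
    · intro n hn
      obtain ⟨h1, h2⟩ := mem_filter.1 hn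
      exact ⟨⟨⟨n, mem_range.1 h1⟩⟩, mem_filter.2 ⟨mem_univ _, h2⟩, rfl⟩
  have hXa : X B Q L s2 = {a} := by
    obtain ⟨w, hw⟩ := card_eq_one.1 hX
    have h1 := h.aX
    rw [hw, mem_singleton] at h1
    rw [hw, h1]
  have hg : Gph B Q L (X B Q L s2) j0 A (ph k1 k2 k3 3 (by norm_num)) :=
    { viol := h.lt.viol
      c3 := h.lt.c3
      LQ := h.lt.LQ
      Lne := ⟨p, h.pL⟩
      XQ := fun v hv => (mem_X.1 hv).2.1
      dLX := h.dLX
      X2 := h.X_card
      subA := by
        intro d v hv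
        rcases hAs d v hv with rfl | ⟨rfl, _⟩
        · exact mem_sdiff.2 ⟨h.bT, h.bX⟩
        · exact mem_sdiff.2 ⟨h.cT, h.cX⟩
      degA := by
        intro t ht htX
        rcases h.Trest ht htX with rfl | rfl
        · rw [h.hb]
          have h1 : (univ.filter (fun d => t ∈ A d)) =
              univ.filter (fun d : ULift.{u} (Fin 3) => d.down.val ∈ ({0, 1, 2} : Finset ℕ)) := by
            ext d
            simp only [mem_filter, mem_univ, true_and, mem_insert, mem_singleton]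
            constructor
            · intro _
              have := d.down.2
              omega
            · intro _
              exact hbd d
          rw [h1, hcz]
          rfl
        · rw [h.hc]
          have h1 : (univ.filter (fun d => t ∈ A d)) =
              univ.filter (fun d : ULift.{u} (Fin 3) => d.down.val ∈ ({0, 1} : Finset ℕ)) := by
            ext d
            simp only [mem_filter, mem_univ, true_and, mem_insert, mem_singleton]
            constructor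
            · intro hd
              rcases hAs d t hd with h2 | ⟨_, h2⟩
              · exact absurd h2.symm h.bc
              · have := d.down.2
                omega
            · intro hd
              exact hcd d (by omega)
          rw [h1, hcz]
          rfl
      inj := by
        intro i i' hi hi' he v hv hv'
        have e1 : ∀ j, (B j ∩ L).Nonempty → v ∈ O j →
            (j = k1 ∧ (ph k1 k2 k3 3 (by norm_num) j : ULift.{u} (Fin 3)).down.val = 0) ∨
            (j = k2 ∧ (ph k1 k2 k3 3 (by norm_num) j : ULift.{u} (Fin 3)).down.val = 1) ∨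
            (j = k3 ∧ (ph k1 k2 k3 3 (by norm_num) j : ULift.{u} (Fin 3)).down.val = 2) ∨
            (j = sB ∧ (ph k1 k2 k3 3 (by norm_num) j : ULift.{u} (Fin 3)).down.val = 2) := by
          intro j hj hvj
          rcases h.pt hj hvj with h2 | h2 | h2 | h2
          · exact Or.inl ⟨h2, by rw [h2]; exact ph_k1⟩
          · exact Or.inr (Or.inl ⟨h2, by rw [h2]; exact h.ne12⟩)
          · exact Or.inr (Or.inr (Or.inl ⟨h2, by rw [h2]; exact h.ne13⟩))
          · exact Or.inr (Or.inr (Or.inr ⟨h2, by rw [h2]; exact h.neB⟩))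
        have e2 : (ph k1 k2 k3 3 (by norm_num) i : ULift.{u} (Fin 3)).down.val =
            (ph k1 k2 k3 3 (by norm_num) i' : ULift.{u} (Fin 3)).down.val := by rw [he]
        have e3 : v ∈ O k3 → v ∈ O sB → False := fun g1 g2 => disjoint_left.1 hd3 g1 g2
        rcases e1 i hi hv with ⟨f1, f2⟩ | ⟨f1, f2⟩ | ⟨f1, f2⟩ | ⟨f1, f2⟩ <;>
          rcases e1 i' hi' hv' with ⟨g1, g2⟩ | ⟨g1, g2⟩ | ⟨g1, g2⟩ | ⟨g1, g2⟩ <;>
          first
          | exact f1.trans g1.symm
          | (exfalso; omega)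
          | (exfalso; subst f1 g1; exact e3 hv hv')
          | (exfalso; subst f1 g1; exact e3 hv' hv)
      size := by
        intro d
        have hk1 := h.Ok_le h.q1' h.r1'
        have hk2 := h.Ok_le h.q2' h.r2'
        have hk3 := h.Ok_le h.q3' h.r3'
        have hkB := h.OB_le
        by_cases hd : d.down.val = 2
        · have h2 : Ng B Q L (X B Q L s2) j0 A (ph k1 k2 k3 3 (by norm_num)) d ⊆
              {b} ∪ (O k3 ∪ O sB) := by
            intro v hv
            rcases hN.1 hv with h3 | ⟨h3, h4⟩ | ⟨h3, h4⟩ | ⟨h3, h4⟩ | ⟨h3, h4⟩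
            · rcases hAs _ _ h3 with h5 | ⟨_, h5⟩
              · exact mem_union_left _ (mem_singleton.2 h5)
              · exact absurd hd h5
            · omega
            · omega
            · exact mem_union_right _ (mem_union_left _ h4)
            · exact mem_union_right _ (mem_union_right _ h4)
          have h4 := card_le_card h2
          have h5 := card_union_le {b} (O k3 ∪ O sB)
          have h6 := card_union_le (O k3) (O sB)
          have h7 : (O k3).card ≤ 1 := hk3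
          have h8 : (O sB).card ≤ 1 := hkB
          rw [card_singleton] at h5
          omega
        · have h1 : (A d).card ≤ 2 := by
            simp only [hA]
            rw [if_neg hd]
            exact card_le_two
          have h2 : Ng B Q L (X B Q L s2) j0 A (ph k1 k2 k3 3 (by norm_num)) d ⊆
              A d ∪ O (bk3 k1 k2 k3 d.down.val) := by
            intro v hv
            unfold bk3
            rcases hN.1 hv with h3 | ⟨h3, h4⟩ | ⟨h3, h4⟩ | ⟨h3, h4⟩ | ⟨h3, h4⟩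
            · exact mem_union_left _ h3
            · rw [if_pos h3]
              exact mem_union_right _ h4
            · rw [if_neg (by omega), if_pos h3]
              exact mem_union_right _ h4
            · omega
            · omega
          have h3 : (O (bk3 k1 k2 k3 d.down.val)).card ≤ 1 := by
            unfold bk3
            split_ifs <;> assumption
          have h4 := card_le_card h2
          have h5 := card_union_le (A d) (O (bk3 k1 k2 k3 d.down.val))
          omega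
      cost := by
        intro K
        rw [h.lt.rhoL]
        rcases K.eq_empty_or_nonempty with rfl | hKne
        · obtain ⟨i, hi1, hi2⟩ := h.exr
          have h5 : rho B ((L ∪ X B Q L s2) ∪ (∅ : Finset (ULift.{u} (Fin 3))).biUnion
              (Ng B Q L (X B Q L s2) j0 A (ph k1 k2 k3 3 (by norm_num)))) ≤
              (({i, s2} : Finset ι)).card := by
            rw [biUnion_empty, union_empty]
            refine Hyp6.rho_le (union_subset
              (h.L_sub (i := i) (j := s2) (k := i) (by simp) (by simp) (by simp) hi1 h.q2 hi2)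
              fun v hv => mem_biUnion.2 ⟨s2, by simp, (mem_X.1 hv).1⟩)
          have h6 : (({i, s2} : Finset ι)).card ≤ 2 := card_le_two
          exact h5.trans (by omega)
        · obtain ⟨d0, hd0⟩ := hKne
          have h4 : q ∈ B (bk3 k1 k2 k3 d0.down.val) ∧ r ∈ B (bk3 k1 k2 k3 d0.down.val) := by
            unfold bk3
            split_ifs with g1 g2
            · exact ⟨h.q1', h.r1'⟩
            · exact ⟨h.q2', h.r2'⟩
            · exact ⟨h.q3', h.r3'⟩
          set S : Finset ι := ({sB, j0} : Finset ι) ∪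
            K.image (fun d => bk3 k1 k2 k3 d.down.val) with hS
          have hSk : ∀ d ∈ K, bk3 k1 k2 k3 d.down.val ∈ S := fun d hd =>
            mem_union_right _ (mem_image_of_mem _ hd)
          have hSB : sB ∈ S := mem_union_left _ (by simp)
          have hSj : j0 ∈ S := mem_union_left _ (by simp)
          have h5 : rho B ((L ∪ X B Q L s2) ∪ K.biUnion
              (Ng B Q L (X B Q L s2) j0 A (ph k1 k2 k3 3 (by norm_num)))) ≤ S.card := by
            refine Hyp6.rho_le (union_subset (union_subset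
              (h.L_sub (i := sB) (j := bk3 k1 k2 k3 d0.down.val)
                (k := bk3 k1 k2 k3 d0.down.val) hSB (hSk _ hd0) (hSk _ hd0) h.pB h4.1 h4.2) ?_) ?_)
            · rw [hXa]
              intro v hv
              rw [mem_singleton.1 hv]
              exact mem_biUnion.2 ⟨j0, hSj, (mem_inter.1 h.aT).1⟩
            · intro v hv
              obtain ⟨d, hd, hv2⟩ := mem_biUnion.1 hv
              have h6 := hSk d hd
              rcases hN.1 hv2 with h5 | ⟨h5, h7⟩ | ⟨h5, h7⟩ | ⟨h5, h7⟩ | ⟨h5, h7⟩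
              · rcases hAs _ _ h5 with rfl | ⟨rfl, _⟩
                · exact mem_biUnion.2 ⟨j0, hSj, (mem_inter.1 h.bT).1⟩
                · exact mem_biUnion.2 ⟨j0, hSj, (mem_inter.1 h.cT).1⟩
              · unfold bk3 at h6
                rw [if_pos h5] at h6
                exact mem_biUnion.2 ⟨_, h6, (mem_Og.1 h7).1⟩
              · unfold bk3 at h6
                rw [if_neg (by omega), if_pos h5] at h6
                exact mem_biUnion.2 ⟨_, h6, (mem_Og.1 h7).1⟩
              · unfold bk3 at h6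
                rw [if_neg (by omega), if_neg (by omega)] at h6
                exact mem_biUnion.2 ⟨_, h6, (mem_Og.1 h7).1⟩
              · exact mem_biUnion.2 ⟨_, hSB, (mem_Og.1 h7).1⟩
          refine h5.trans ((card_union_le _ _).trans ?_)
          have h6 : (({sB, j0} : Finset ι)).card ≤ 2 := card_le_two
          have h7 : (K.image (fun d => bk3 k1 k2 k3 d.down.val)).card ≤ K.card :=
            card_image_le
          omega
      link := by
        intro Z hZ hne hneq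
        by_contra hcon
        push Not at hcon
        have hcl : ∀ d v w, v ∈ Ng B Q L (X B Q L s2) j0 A (ph k1 k2 k3 3 (by norm_num)) d →
            w ∈ Ng B Q L (X B Q L s2) j0 A (ph k1 k2 k3 3 (by norm_num)) d → v ∈ Z → w ∈ Z := by
          intro d v w hv hw hvZ
          by_contra hwZ
          have h1 := hcon d ⟨v, mem_inter.2 ⟨hv, hvZ⟩⟩
          rw [sdiff_eq_empty_iff_subset] at h1
          exact hwZ (h1 hw)
        have i0 : (⟨⟨0, by norm_num⟩⟩ : ULift.{u} (Fin 3)).down.val = 0 := rfl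
        have i1 : (⟨⟨1, by norm_num⟩⟩ : ULift.{u} (Fin 3)).down.val = 1 := rfl
        have i2 : (⟨⟨2, by norm_num⟩⟩ : ULift.{u} (Fin 3)).down.val = 2 := rfl
        have hb0 := hN.2 (Or.inl (hbd ⟨⟨0, by norm_num⟩⟩))
        have hb1 := hN.2 (Or.inl (hbd ⟨⟨1, by norm_num⟩⟩))
        have hb2 := hN.2 (Or.inl (hbd ⟨⟨2, by norm_num⟩⟩))
        have hc0 := hN.2 (Or.inl (hcd ⟨⟨0, by norm_num⟩⟩ (by rw [i0]; norm_num)))
        -- every point is linked with `b`
        have hall : ∀ v ∈ Yg B Q L (X B Q L s2) j0, (v ∈ Z ↔ b ∈ Z) := by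
          intro v hv
          rcases h.mem_Y.1 hv with rfl | rfl | h1 | h1 | h1 | h1
          · exact Iff.rfl
          · exact ⟨hcl _ _ _ hc0 hb0, hcl _ _ _ hb0 hc0⟩
          · have h2 := hN.2 (Or.inr (Or.inl ⟨i0, h1⟩))
            exact ⟨hcl _ _ _ h2 hb0, hcl _ _ _ hb0 h2⟩
          · have h2 := hN.2 (Or.inr (Or.inr (Or.inl ⟨i1, h1⟩)))
            exact ⟨hcl _ _ _ h2 hb1, hcl _ _ _ hb1 h2⟩
          · have h2 := hN.2 (Or.inr (Or.inr (Or.inr (Or.inl ⟨i2, h1⟩))))
            exact ⟨hcl _ _ _ h2 hb2, hcl _ _ _ hb2 h2⟩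
          · have h2 := hN.2 (Or.inr (Or.inr (Or.inr (Or.inr ⟨i2, h1⟩))))
            exact ⟨hcl _ _ _ h2 hb2, hcl _ _ _ hb2 h2⟩
        obtain ⟨z, hz⟩ := hne
        have hbZ : b ∈ Z := (hall z (hZ hz)).1 hz
        exact hneq (subset_antisymm hZ fun v hv => (hall v hv).2 hbZ) }
  have h1 := h.lt.viol.neg
  have h2 := h.lt.viol.sv1
  have h3 := hg.val.2 (by rw [hX, h.lt.svL]; push_cast; linarith)
  rw [h.dv3, hX] at h3
  have h4 : (Fintype.card (ULift.{u} (Fin 3)) : ℤ) = 3 := by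
    rw [Fintype.card_ulift, Fintype.card_fin]
    norm_num
  rw [h4] at h3
  push_cast at h3
  linarith

/-- **the case of one deleted point.** -/
theorem one (h : R1c B Q L j0 p q r a b c s2 sA sB k1 k2 k3) (hX : (X B Q L s2).card = 1)
    (hV : 2 ≤ (Vs B Q L j0).card) : False := by
  classical
  have hXa : X B Q L s2 = {a} := by
    obtain ⟨w, hw⟩ := card_eq_one.1 hX
    have h1 := h.aX
    rw [hw, mem_singleton] at h1
    rw [hw, h1]
  by_cases d3 : Disjoint (Og B Q L (X B Q L s2) j0 k3) (Og B Q L (X B Q L s2) j0 sB)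
  · exact h.one' hX d3
  by_cases d2 : Disjoint (Og B Q L (X B Q L s2) j0 k2) (Og B Q L (X B Q L s2) j0 sB)
  · exact h.swap23.one' hX d2
  by_cases d1 : Disjoint (Og B Q L (X B Q L s2) j0 k1) (Og B Q L (X B Q L s2) j0 sB)
  · exact h.swap13.one' hX d1
  rw [not_disjoint_iff] at d1 d2 d3
  obtain ⟨y1, a1, b1⟩ := d1
  obtain ⟨y2, a2, b2⟩ := d2
  obtain ⟨y3, a3, b3⟩ := d3
  have e2 := card_le_one.1 h.OB_le y2 b2 y1 b1
  have e3 := card_le_one.1 h.OB_le y3 b3 y1 b1
  rw [e2] at a2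
  rw [e3] at a3
  obtain ⟨w, hw, hwy⟩ := exists_mem_ne (by omega : 1 < (Vs B Q L j0).card) y1
  obtain ⟨hwQ, hwT, hwL, i, hi⟩ := Dlt.mem_Vs.1 hw
  obtain ⟨hwi, hiL⟩ := mem_Ez.1 hi
  have hwX : w ∉ X B Q L s2 := by
    rw [hXa, mem_singleton]
    rintro rfl
    exact hwT (mem_inter.1 h.aT).1
  have hwO : w ∈ Og B Q L (X B Q L s2) j0 i := mem_Og.2 ⟨hwi, hwQ, hwL, hwX, hwT⟩
  rcases h.pt hiL hwO with h2 | h2 | h2 | h2
  · rw [h2] at hwO
    exact hwy (card_le_one.1 (h.Ok_le h.q1' h.r1') w hwO y1 a1)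
  · rw [h2] at hwO
    exact hwy (card_le_one.1 (h.Ok_le h.q2' h.r2') w hwO y1 a2)
  · rw [h2] at hwO
    exact hwy (card_le_one.1 (h.Ok_le h.q3' h.r3') w hwO y1 a3)
  · rw [h2] at hwO
    exact hwy (card_le_one.1 h.OB_le w hwO y1 b1)

/-- the configuration is impossible. -/
theorem false (h : R1c B Q L j0 p q r a b c s2 sA sB k1 k2 k3)
    (hV : 2 ≤ (Vs B Q L j0).card) : False := by
  have h1 := h.X_card
  have h2 := h.X_pos
  rcases (by omega : (X B Q L s2).card = 1 ∨ (X B Q L s2).card = 2) with h3 | h3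
  · exact h.one h3 hV
  · exact h.two h3

end R1c

/-- two refused points with pair blocks: the numbers. -/
theorem num322 {s1 s2 s3 a12 a13 a23 b12 b13 b23 c12 c13 c23 : ℕ} (h1 : s1 ≤ 2) (h2 : s2 ≤ 2)
    (h3 : s3 ≤ 2) (c1 : a12 + b12 + c12 ≤ 1 + s3) (c2 : a13 + b13 + c13 ≤ 1 + s2)
    (c3 : a23 + b23 + c23 ≤ 1 + s1)
    (f1 : a12 = 0 ∨ b13 = 0) (f2 : a12 = 0 ∨ b23 = 0) (f3 : a13 = 0 ∨ b12 = 0)
    (f4 : a13 = 0 ∨ b23 = 0) (f5 : a23 = 0 ∨ b12 = 0) (f6 : a23 = 0 ∨ b13 = 0)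
    (g1 : a12 = 0 ∨ c13 = 0) (g2 : a12 = 0 ∨ c23 = 0) (g3 : a13 = 0 ∨ c12 = 0)
    (g4 : a13 = 0 ∨ c23 = 0) (g5 : a23 = 0 ∨ c12 = 0) (g6 : a23 = 0 ∨ c13 = 0)
    (ha : 0 < a12 + a13 + a23) (hb : 0 < b12 + b13 + b23) :
    (a12 + a13 + a23) + (b12 + b13 + b23) + (c12 + c13 + c23) ≤ 3 := by
  rcases Nat.eq_zero_or_pos a12 with ha12 | ha12
  · rcases Nat.eq_zero_or_pos a13 with ha13 | ha13
    · have h23 : a23 ≠ 0 := by
        clear f1 f2 f3 f4 f5 f6 g1 g2 g3 g4 g5 g6
        omega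
      have e1 := f5.resolve_left h23
      have e2 := f6.resolve_left h23
      have e3 := g5.resolve_left h23
      have e4 := g6.resolve_left h23
      clear f1 f2 f3 f4 f5 f6 g1 g2 g3 g4 g5 g6
      omega
    · have e1 := f3.resolve_left ha13.ne'
      have e2 := f4.resolve_left ha13.ne'
      have e3 := f6.resolve_right (by clear f1 f2 f3 f4 f5 f6 g1 g2 g3 g4 g5 g6; omega)
      have e4 := g3.resolve_left ha13.ne'
      have e5 := g4.resolve_left ha13.ne'
      clear f1 f2 f3 f4 f5 f6 g1 g2 g3 g4 g5 g6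
      omega
  · have e1 := f1.resolve_left ha12.ne'
    have e2 := f2.resolve_left ha12.ne'
    have e3 := f3.resolve_right (by clear f1 f2 f3 f4 f5 f6 g1 g2 g3 g4 g5 g6; omega)
    have e4 := f5.resolve_right (by clear f1 f2 f3 f4 f5 f6 g1 g2 g3 g4 g5 g6; omega)
    have e5 := g1.resolve_left ha12.ne'
    have e6 := g2.resolve_left ha12.ne'
    clear f1 f2 f3 f4 f5 f6 g1 g2 g3 g4 g5 g6
    omega

theorem num7a {na nb nc a1 a2 a3 a12 a13 a23 b1 b2 b3 b12 b13 b23 c1 c2 c3 c12 c13 c23 s1 s2 s3 : ℕ}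
    (ca : na = a1 + a2 + a3 + a12 + a13 + a23) (cb : nb = b1 + b2 + b3 + b12 + b13 + b23)
    (cc : nc = c1 + c2 + c3 + c12 + c13 + c23) (g1 : a1 + b1 + c1 ≤ s1) (g2 : a2 + b2 + c2 ≤ s2)
    (g3 : a3 + b3 + c3 ≤ s3) (n0 : s1 + s2 + s3 = 3) (h7 : 7 ≤ na + nb + nc) :
    4 ≤ (a12 + a13 + a23) + (b12 + b13 + b23) + (c12 + c13 + c23) := by
  linarith

theorem num7b {n a b c d e f : ℕ} (h : n = a + b + c + d + e + f) (hn : n ≤ 3) :
    d + e + f ≤ 3 := by
  omega

theorem num7c {a b c : ℕ} (h : 4 ≤ a + b + c) (ha : a = 0) (hb : b ≤ 3) (hc : c ≤ 3) :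
    0 < b ∧ 0 < c := by
  omega

theorem num7d {a b c : ℕ} (h : 4 ≤ a + b + c) (hb : b = 0) (ha : a ≤ 3) (hc : c ≤ 3) :
    0 < c := by
  omega

theorem num7e {a b c : ℕ} (h : 4 ≤ a + b + c) (h' : a + b + c ≤ 3) : False := by
  omega

namespace Lt3

variable {Q L : Finset V} {j0 : ι} {p q r : V}

/-- refused points have pair blocks of one kind only. -/
theorem ref6 (h : Lt3 B Q L j0) (hL : L = {p, q, r}) {a x : V} (hna : ¬ Abz B L {a, x}) :
    (k2 B (Ez B L a) p q = 0 ∨ k2 B (Ez B L x) p r = 0) ∧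
    (k2 B (Ez B L a) p q = 0 ∨ k2 B (Ez B L x) q r = 0) ∧
    (k2 B (Ez B L a) p r = 0 ∨ k2 B (Ez B L x) p q = 0) ∧
    (k2 B (Ez B L a) p r = 0 ∨ k2 B (Ez B L x) q r = 0) ∧
    (k2 B (Ez B L a) q r = 0 ∨ k2 B (Ez B L x) p q = 0) ∧
    (k2 B (Ez B L a) q r = 0 ∨ k2 B (Ez B L x) p r = 0) :=
  ⟨h.ref hna (P := fun i => p ∈ B i ∧ q ∈ B i) (P' := fun i => p ∈ B i ∧ r ∈ B i)
    (fun i j hi hj => cov2 hL (Or.inl hi.1) (Or.inl hi.2) (Or.inr hj.2)),
  h.ref hna (P := fun i => p ∈ B i ∧ q ∈ B i) (P' := fun i => q ∈ B i ∧ r ∈ B i)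
    (fun i j hi hj => cov2 hL (Or.inl hi.1) (Or.inl hi.2) (Or.inr hj.2)),
  h.ref hna (P := fun i => p ∈ B i ∧ r ∈ B i) (P' := fun i => p ∈ B i ∧ q ∈ B i)
    (fun i j hi hj => cov2 hL (Or.inl hi.1) (Or.inr hj.2) (Or.inl hi.2)),
  h.ref hna (P := fun i => p ∈ B i ∧ r ∈ B i) (P' := fun i => q ∈ B i ∧ r ∈ B i)
    (fun i j hi hj => cov2 hL (Or.inl hi.1) (Or.inr hj.1) (Or.inl hi.2)),
  h.ref hna (P := fun i => q ∈ B i ∧ r ∈ B i) (P' := fun i => p ∈ B i ∧ q ∈ B i)
    (fun i j hi hj => cov2 hL (Or.inr hj.1) (Or.inl hi.1) (Or.inl hi.2)),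
  h.ref hna (P := fun i => q ∈ B i ∧ r ∈ B i) (P' := fun i => p ∈ B i ∧ r ∈ B i)
    (fun i j hi hj => cov2 hL (Or.inr hj.1) (Or.inl hi.1) (Or.inl hi.2))⟩

/-- three pairwise refused points. -/
theorem three_ref (h : Lt3 B Q L j0) {a b c : V} (hab : ¬ Abz B L {a, b})
    (hac : ¬ Abz B L {a, c}) (hbc : ¬ Abz B L {b, c}) (ha : (Ez B L a).card ≤ 3)
    (hb : (Ez B L b).card ≤ 3) (hc : (Ez B L c).card ≤ 3) :
    (Ez B L a).card + (Ez B L b).card + (Ez B L c).card ≤ 6 := by
  classical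
  obtain ⟨p, q, r, hL, hpq, hpr, hqr, _, _⟩ := h.exists_sorted
  obtain ⟨n0, n1, n2, n3, n4, n5, n6⟩ := h.nums hL hpq hpr hqr
  have hsub : ∀ v, Ez B L v ⊆ tch B L := fun v i hi => cost_mem_tch.2 (mem_Ez.1 hi).2
  have dab := h.disj hL hpq hpr hqr hab
  have dac := h.disj hL hpq hpr hqr hac
  have dbc := h.disj hL hpq hpr hqr hbc
  have ca := h.cls hL (hsub a)
  have cb := h.cls hL (hsub b)
  have cc := h.cls hL (hsub c)
  have g : ∀ (P : ι → Prop) [DecidablePred P], ((Ez B L a).filter P).card +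
      ((Ez B L b).filter P).card + ((Ez B L c).filter P).card ≤
      ((tch B L).filter P).card := by
    intro P _
    have h1 := add_le dab (subset_union_left : Ez B L a ⊆ Ez B L a ∪ Ez B L b)
      (subset_union_right : Ez B L b ⊆ Ez B L a ∪ Ez B L b) P
    have h2 := add_le (disjoint_union_left.2 ⟨dac, dbc⟩) (union_subset (hsub a) (hsub b))
      (hsub c) P
    omega
  have g1 := g (fun i => p ∈ B i ∧ q ∉ B i ∧ r ∉ B i)
  have g2 := g (fun i => q ∈ B i ∧ p ∉ B i ∧ r ∉ B i)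
  have g3 := g (fun i => r ∈ B i ∧ p ∉ B i ∧ q ∉ B i)
  have g12 := g (fun i => p ∈ B i ∧ q ∈ B i)
  have g13 := g (fun i => p ∈ B i ∧ r ∈ B i)
  have g23 := g (fun i => q ∈ B i ∧ r ∈ B i)
  change k1 B (Ez B L a) p q r + k1 B (Ez B L b) p q r + k1 B (Ez B L c) p q r ≤
    k1 B (tch B L) p q r at g1
  change k1 B (Ez B L a) q p r + k1 B (Ez B L b) q p r + k1 B (Ez B L c) q p r ≤
    k1 B (tch B L) q p r at g2
  change k1 B (Ez B L a) r p q + k1 B (Ez B L b) r p q + k1 B (Ez B L c) r p q ≤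
    k1 B (tch B L) r p q at g3
  change k2 B (Ez B L a) p q + k2 B (Ez B L b) p q + k2 B (Ez B L c) p q ≤
    k2 B (tch B L) p q at g12
  change k2 B (Ez B L a) p r + k2 B (Ez B L b) p r + k2 B (Ez B L c) p r ≤
    k2 B (tch B L) p r at g13
  change k2 B (Ez B L a) q r + k2 B (Ez B L b) q r + k2 B (Ez B L c) q r ≤
    k2 B (tch B L) q r at g23
  rw [n3] at g12
  rw [n2] at g13
  rw [n1] at g23
  obtain ⟨x1, x2, x3, x4, x5, x6⟩ := h.ref6 hL hab
  obtain ⟨y1, y2, y3, y4, y5, y6⟩ := h.ref6 hL hac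
  obtain ⟨z1, z2, z3, z4, z5, z6⟩ := h.ref6 hL hbc
  rw [pair_comm] at hab hac hbc
  obtain ⟨w1, w2, w3, w4, w5, w6⟩ := h.ref6 hL hab
  by_contra hcon
  rw [not_le] at hcon
  have hsum := num7a ca cb cc g1 g2 g3 n0 hcon
  have pa := num7b ca ha
  have pb := num7b cb hb
  have pc := num7b cc hc
  rcases Nat.eq_zero_or_pos (k2 B (Ez B L a) p q + k2 B (Ez B L a) p r + k2 B (Ez B L a) q r)
    with qa | qa
  · -- b and c
    obtain ⟨e1, e2⟩ := num7c hsum qa pb pc
    have h1 := num322 (a12 := k2 B (Ez B L b) p q) (a13 := k2 B (Ez B L b) p r)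
      (a23 := k2 B (Ez B L b) q r) (b12 := k2 B (Ez B L c) p q) (b13 := k2 B (Ez B L c) p r)
      (b23 := k2 B (Ez B L c) q r) (c12 := k2 B (Ez B L a) p q) (c13 := k2 B (Ez B L a) p r)
      (c23 := k2 B (Ez B L a) q r) n4 n5 n6 (by linarith) (by linarith) (by linarith)
      z1 z2 z3 z4 z5 z6 w1 w2 w3 w4 w5 w6 e1 e2
    exact num7e hsum (by linarith)
  rcases Nat.eq_zero_or_pos (k2 B (Ez B L b) p q + k2 B (Ez B L b) p r + k2 B (Ez B L b) q r)
    with qb | qb
  · -- a and c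
    have e1 := num7d hsum qb pa pc
    have h1 := num322 (a12 := k2 B (Ez B L a) p q) (a13 := k2 B (Ez B L a) p r)
      (a23 := k2 B (Ez B L a) q r) (b12 := k2 B (Ez B L c) p q) (b13 := k2 B (Ez B L c) p r)
      (b23 := k2 B (Ez B L c) q r) (c12 := k2 B (Ez B L b) p q) (c13 := k2 B (Ez B L b) p r)
      (c23 := k2 B (Ez B L b) q r) n4 n5 n6 (by linarith) (by linarith) (by linarith)
      y1 y2 y3 y4 y5 y6 x1 x2 x3 x4 x5 x6 qa e1
    exact num7e hsum (by linarith)
  · have h1 := num322 (a12 := k2 B (Ez B L a) p q) (a13 := k2 B (Ez B L a) p r)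
      (a23 := k2 B (Ez B L a) q r) (b12 := k2 B (Ez B L b) p q) (b13 := k2 B (Ez B L b) p r)
      (b23 := k2 B (Ez B L b) q r) (c12 := k2 B (Ez B L c) p q) (c13 := k2 B (Ez B L c) p r)
      (c23 := k2 B (Ez B L c) q r) n4 n5 n6 g12 g13 g23
      x1 x2 x3 x4 x5 x6 y1 y2 y3 y4 y5 y6 qa qb
    exact num7e hsum h1

/-- the row `4, 2, 1` with refused pairs. -/
theorem row421 (h : Lt3 B Q L j0) (he : ee B Q L = 0) (hV : 2 ≤ (Vs B Q L j0).card) {a b c : V}
    (hT : B j0 ∩ Q = {a, b, c}) (hab : a ≠ b) (hac : a ≠ c) (hbc : b ≠ c)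
    (ha : (Ez B L a).card = 4) (hb : (Ez B L b).card = 2) (hc : (Ez B L c).card = 1)
    (hnab : ¬ Abz B L {a, b}) (hnac : ¬ Abz B L {a, c}) : False := by
  classical
  obtain ⟨p, q, r, hL, hpq, hpr, hqr, s1, s2⟩ := h.exists_sorted
  obtain ⟨n0, n1, n2, n3, n4, _, _⟩ := h.nums hL hpq hpr hqr
  obtain ⟨u1, u2, u3, u4, u5, u6, u7, u8, u9, u10, u11, u12, u13⟩ :=
    h.pat hL hpq hpr hqr s1 s2 hnab ha hb
  have hd := h.disj hL hpq hpr hqr hnac
  have hsub : ∀ v, Ez B L v ⊆ tch B L := fun v i hi => cost_mem_tch.2 (mem_Ez.1 hi).2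
  have hpL : p ∈ L := by rw [hL]; simp
  have hqL : q ∈ L := by rw [hL]; simp
  have hrL : r ∈ L := by rw [hL]; simp
  -- all blocks of a class
  have hfull : ∀ (v : V) (P : ι → Prop) [DecidablePred P],
      ((tch B L).filter P).card ≤ ((Ez B L v).filter P).card →
      ∀ i, (B i ∩ L).Nonempty → P i → v ∈ B i := by
    intro v P _ hc i hi hP
    have h1 := eq_of_subset_of_card_le (filter_subset_filter P (hsub v)) hc
    have h2 : i ∈ (tch B L).filter P := mem_filter.2 ⟨cost_mem_tch.2 hi, hP⟩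
    rw [← h1] at h2
    exact (mem_Ez.1 (mem_filter.1 h2).1).1
  have hnone : ∀ (v : V) (P : ι → Prop) [DecidablePred P], ((Ez B L v).filter P).card = 0 →
      ∀ i, (B i ∩ L).Nonempty → P i → v ∉ B i := by
    intro v P _ hc i hi hP hv
    rw [card_eq_zero] at hc
    have h2 : i ∈ (Ez B L v).filter P := mem_filter.2 ⟨mem_Ez.2 ⟨hv, hi⟩, hP⟩
    rw [hc] at h2
    exact notMem_empty _ h2
  obtain ⟨t2, ht2⟩ := card_pos.1 (by unfold k1 at u8; omega :
    0 < ((Ez B L a).filter (fun i => q ∈ B i ∧ p ∉ B i ∧ r ∉ B i)).card)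
  obtain ⟨ht2a, ht2q, ht2p, ht2r⟩ := mem_filter.1 ht2
  obtain ⟨ia, hia⟩ := card_pos.1 (by unfold k2 at u4; omega :
    0 < ((Ez B L a).filter (fun i => p ∈ B i ∧ q ∈ B i)).card)
  obtain ⟨hiaa, hiap, hiaq⟩ := mem_filter.1 hia
  obtain ⟨ir, hir⟩ := card_pos.1 (by unfold k2 at n2; omega :
    0 < ((tch B L).filter (fun i => p ∈ B i ∧ r ∈ B i)).card)
  obtain ⟨_, hir1, hir2⟩ := mem_filter.1 hir
  have hmp : ∀ i, p ∈ B i → (B i ∩ L).Nonempty := fun i hi => ⟨p, mem_inter.2 ⟨hi, hpL⟩⟩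
  have hmq : ∀ i, q ∈ B i → (B i ∩ L).Nonempty := fun i hi => ⟨q, mem_inter.2 ⟨hi, hqL⟩⟩
  have hmr : ∀ i, r ∈ B i → (B i ∩ L).Nonempty := fun i hi => ⟨r, mem_inter.2 ⟨hi, hrL⟩⟩
  have kpq : ∀ i, p ∈ B i → q ∈ B i → a ∈ B i := fun i h1 h2 =>
    hfull a (fun i => p ∈ B i ∧ q ∈ B i) (by
      unfold k2 at u4 n3
      rw [u4]
      omega) i (hmp i h1) ⟨h1, h2⟩
  have kpr : ∀ i, p ∈ B i → r ∈ B i → a ∈ B i := fun i h1 h2 =>
    hfull a (fun i => p ∈ B i ∧ r ∈ B i) (by
      unfold k2 at u5 n2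
      rw [u5]
      omega) i (hmp i h1) ⟨h1, h2⟩
  have sq : ∀ i, q ∈ B i → p ∉ B i → r ∉ B i → i = t2 := fun i h1 h2 h3 => by
    unfold k1 at u2
    obtain ⟨w, hw⟩ := card_eq_one.1 u2
    have h4 : i ∈ (tch B L).filter (fun i => q ∈ B i ∧ p ∉ B i ∧ r ∉ B i) :=
      mem_filter.2 ⟨cost_mem_tch.2 (hmq i h1), h1, h2, h3⟩
    have h5 : t2 ∈ (tch B L).filter (fun i => q ∈ B i ∧ p ∉ B i ∧ r ∉ B i) :=
      mem_filter.2 ⟨hsub a ht2a, ht2q, ht2p, ht2r⟩
    rw [hw, mem_singleton] at h4 h5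
    rw [h4, h5]
  have sr : ∀ i, r ∈ B i → p ∈ B i ∨ q ∈ B i := fun i h1 => by
    by_contra hcon
    push Not at hcon
    unfold k1 at u3
    rw [card_eq_zero] at u3
    have h4 : i ∈ (tch B L).filter (fun i => r ∈ B i ∧ p ∉ B i ∧ q ∉ B i) :=
      mem_filter.2 ⟨cost_mem_tch.2 (hmr i h1), h1, hcon.1, hcon.2⟩
    rw [u3] at h4
    exact notMem_empty _ h4
  -- the block of the third point
  obtain ⟨sA, hsA⟩ := card_pos.1 (by omega : 0 < (Ez B L c).card)
  obtain ⟨hcA, hsAL⟩ := mem_Ez.1 hsA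
  have haA : a ∉ B sA := fun h1 => disjoint_left.1 hd (mem_Ez.2 ⟨h1, hsAL⟩) hsA
  have hA : p ∈ B sA ∧ q ∉ B sA ∧ r ∉ B sA := by
    by_cases hp : p ∈ B sA
    · exact ⟨hp, fun h1 => haA (kpq sA hp h1), fun h1 => haA (kpr sA hp h1)⟩
    exfalso
    by_cases hq : q ∈ B sA
    · by_cases hr : r ∈ B sA
      · refine hnac (h.abz (i := ia) (j := sA)
          (cov2 hL (Or.inl hiap) (Or.inl hiaq) (Or.inr hr)) ?_)
        intro v hv
        simp only [mem_insert, mem_singleton] at hv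
        rcases hv with rfl | rfl
        · exact mem_union_left _ (mem_Ez.1 hiaa).1
        · exact mem_union_right _ hcA
      · have h1 := sq sA hq hp hr
        rw [h1] at haA
        exact haA (mem_Ez.1 ht2a).1
    · obtain ⟨w, hw⟩ := hsAL
      obtain ⟨hw1, hw2⟩ := mem_inter.1 hw
      rw [hL] at hw2
      simp only [mem_insert, mem_singleton] at hw2
      rcases hw2 with rfl | rfl | rfl
      · exact hp hw1
      · exact hq hw1
      · rcases sr sA hw1 with h1 | h1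
        · exact hp h1
        · exact hq h1
  have hAb : ∀ i, p ∈ B i → q ∉ B i → r ∉ B i → b ∈ B i := fun i h1 h2 h3 =>
    hfull b (fun i => p ∈ B i ∧ q ∉ B i ∧ r ∉ B i) (by
      unfold k1 at u1 u9
      rw [u1, u9]) i (hmp i h1) ⟨h1, h2, h3⟩
  have hAm : sA ∈ (tch B L).filter (fun i => p ∈ B i ∧ q ∉ B i ∧ r ∉ B i) :=
    mem_filter.2 ⟨cost_mem_tch.2 hsAL, hA⟩
  obtain ⟨sB, hsB, hAB⟩ : ∃ sB, sB ∈ (tch B L).filter
      (fun i => p ∈ B i ∧ q ∉ B i ∧ r ∉ B i) ∧
      ∀ i ∈ (tch B L).filter (fun i => p ∈ B i ∧ q ∉ B i ∧ r ∉ B i), i = sA ∨ i = sB := by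
    unfold k1 at u1
    obtain ⟨x, y, _, hxy⟩ := card_eq_two.1 u1
    rw [hxy] at hAm ⊢
    simp only [mem_insert, mem_singleton] at hAm
    rcases hAm with rfl | rfl
    · exact ⟨y, by simp, fun i hi => by
        simp only [mem_insert, mem_singleton] at hi
        exact hi⟩
    · exact ⟨x, by simp, fun i hi => by
        simp only [mem_insert, mem_singleton] at hi
        exact hi.symm⟩
  obtain ⟨x1, x2, x3, h12, h13, h23, hx⟩ : ∃ x1 x2 x3, x1 ≠ x2 ∧ x1 ≠ x3 ∧ x2 ≠ x3 ∧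
      (tch B L).filter (fun i => q ∈ B i ∧ r ∈ B i) = {x1, x2, x3} := by
    refine card_eq_three.1 ?_
    unfold k2 at n1
    rw [n1, u1]
  have hxm : ∀ i, i ∈ ({x1, x2, x3} : Finset ι) ↔ q ∈ B i ∧ r ∈ B i := by
    intro i
    rw [← hx, mem_filter, cost_mem_tch]
    exact ⟨fun h1 => h1.2, fun h1 => ⟨hmq i h1.1, h1⟩⟩
  have hR : R1c B Q L j0 p q r a b c t2 sA sB x1 x2 x3 :=
    { lt := h
      hL := hL
      pq := hpq
      pr := hpr
      qr := hqr
      hT := hT
      ab := hab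
      ac := hac
      bc := hbc
      kpq := kpq
      kpr := kpr
      kqr := fun i h1 h2 => by
        have h3 := (hxm i).2 ⟨h1, h2⟩
        simp only [mem_insert, mem_singleton] at h3
        exact h3
      sp := fun i h1 h2 h3 => hAB i (mem_filter.2 ⟨cost_mem_tch.2 (hmp i h1), h1, h2, h3⟩)
      sq := sq
      sr := sr
      pA := hA.1
      pB := (mem_filter.1 hsB).2.1
      q2 := ht2q
      q1' := ((hxm x1).1 (by simp)).1
      q2' := ((hxm x2).1 (by simp)).1
      q3' := ((hxm x3).1 (by simp)).1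
      r1' := ((hxm x1).1 (by simp)).2
      r2' := ((hxm x2).1 (by simp)).2
      r3' := ((hxm x3).1 (by simp)).2
      k12 := h12
      k13 := h13
      k23 := h23
      a2 := (mem_Ez.1 ht2a).1
      b2 := hnone b (fun i => q ∈ B i ∧ p ∉ B i ∧ r ∉ B i) u10 t2 (hmq t2 ht2q)
        ⟨ht2q, ht2p, ht2r⟩
      c2 := fun h1 => disjoint_left.1 hd ht2a (mem_Ez.2 ⟨h1, hmq t2 ht2q⟩)
      bA := hAb sA hA.1 hA.2.1 hA.2.2
      cA := hcA
      bB := hAb sB (mem_filter.1 hsB).2.1 (mem_filter.1 hsB).2.2.1 (mem_filter.1 hsB).2.2.2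
      exr := ⟨ir, hir1, hir2⟩
      hb := hb
      hc := hc
      dv3 := by
        unfold dv
        rw [h.PvL, he]
        norm_num }
  exact hR.false hV

/-- the outside hits. -/
theorem card_Vs_le (_h : Lt3 B Q L j0) :
    (Vs B Q L j0).card ≤ hit B ((Q \ (B j0 ∩ Q)) \ L) L := by
  classical
  rw [hit_eq_Ez, card_eq_sum_ones]
  refine (sum_le_sum fun v hv => ?_).trans (sum_le_sum_of_subset (filter_subset _ _))
  exact card_pos.2 (mem_filter.1 hv).2

/-- **some pair of the full block is absorbed.** -/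
theorem ex_abz (h : Lt3 B Q L j0) (h7 : hit B (B j0 ∩ Q) L = 7)
    (hV : 2 ≤ (Vs B Q L j0).card) : ∃ t ∈ B j0 ∩ Q, (Ez B L t).card ≤ 3 ∧
    Abz B L ((B j0 ∩ Q).erase t) := by
  classical
  by_contra hcon
  push Not at hcon
  have h1 := h.hits
  have h2 := h.card_Vs_le
  have he : ee B Q L = 0 := by omega
  obtain ⟨a, b, c, hab, hac, hbc, hT⟩ := card_eq_three.1 h.c3
  have hsum : hit B (B j0 ∩ Q) L = (Ez B L a).card + ((Ez B L b).card + (Ez B L c).card) := by
    rw [hit_eq_Ez, hT, sum_insert (by simp [hab, hac]), sum_pair hbc]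
  have haT : a ∈ B j0 ∩ Q := by rw [hT]; simp
  have hbT : b ∈ B j0 ∩ Q := by rw [hT]; simp
  have hcT : c ∈ B j0 ∩ Q := by rw [hT]; simp
  have fa := h.four haT
  have fb := h.four hbT
  have fc := h.four hcT
  have er : ∀ {x y t : V}, (∀ v, v ∈ ({x, y, t} : Finset V) ↔ v ∈ ({a, b, c} : Finset V)) →
      x ≠ t → y ≠ t → (B j0 ∩ Q).erase t = {x, y} := by
    intro x y t hv hx hy
    ext v
    rw [mem_erase, hT, ← hv v]
    simp only [mem_insert, mem_singleton]
    constructor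
    · tauto
    · rintro (rfl | rfl)
      · exact ⟨hx, Or.inl rfl⟩
      · exact ⟨hy, Or.inr (Or.inl rfl)⟩
  have eab : (B j0 ∩ Q).erase c = {a, b} := er (fun v => Iff.rfl) hac hbc
  have eac : (B j0 ∩ Q).erase b = {a, c} := er (fun v => by
    simp only [mem_insert, mem_singleton]
    tauto) hab hbc.symm
  have ebc : (B j0 ∩ Q).erase a = {b, c} := er (fun v => by
    simp only [mem_insert, mem_singleton]
    tauto) hab.symm hac.symm
  -- refusals
  have rab : (Ez B L c).card ≤ 3 → ¬ Abz B L {a, b} := fun h3 => eab ▸ hcon c hcT h3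
  have rac : (Ez B L b).card ≤ 3 → ¬ Abz B L {a, c} := fun h3 => eac ▸ hcon b hbT h3
  have rbc : (Ez B L a).card ≤ 3 → ¬ Abz B L {b, c} := fun h3 => ebc ▸ hcon a haT h3
  have sw : ∀ {x y : V}, ¬ Abz B L {x, y} → ¬ Abz B L {y, x} := fun {x y} h3 => by
    rw [pair_comm]
    exact h3
  have key : ∀ {x y : V}, x ∈ B j0 ∩ Q → y ∈ B j0 ∩ Q → x ≠ y → ¬ Abz B L {x, y} →
      3 ≤ (Ez B L x).card → 3 ≤ (Ez B L y).card → False := fun {x y} hx hy hxy h3 h4 h5 =>
    h3 (h.cp3.pt2b (h.dvL_le.trans (by norm_num)) (mem_inter.1 hx).2 (h.out hx)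
      (mem_inter.1 hy).2 (h.out hy) hxy h4 h5)
  rw [h7] at hsum
  have nab : ¬ (3 ≤ (Ez B L a).card ∧ 3 ≤ (Ez B L b).card) := fun h3 =>
    key haT hbT hab (rab (by omega)) h3.1 h3.2
  have nac : ¬ (3 ≤ (Ez B L a).card ∧ 3 ≤ (Ez B L c).card) := fun h3 =>
    key haT hcT hac (rac (by omega)) h3.1 h3.2
  have nbc : ¬ (3 ≤ (Ez B L b).card ∧ 3 ≤ (Ez B L c).card) := fun h3 =>
    key hbT hcT hbc (rbc (by omega)) h3.1 h3.2
  have hTac : B j0 ∩ Q = {a, c, b} := by
    rw [hT]
    congr 1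
    exact pair_comm _ _
  have hTb : B j0 ∩ Q = {b, a, c} := by
    rw [hT]
    exact insert_comm _ _ _
  have hTb' : B j0 ∩ Q = {b, c, a} := by
    rw [hTb]
    congr 1
    exact pair_comm _ _
  have hTc : B j0 ∩ Q = {c, a, b} := by
    rw [hTac]
    exact insert_comm _ _ _
  have hTc' : B j0 ∩ Q = {c, b, a} := by
    rw [hTc]
    congr 1
    exact pair_comm _ _
  clear h1 h2 h7
  -- all at most three
  by_cases hall : (Ez B L a).card ≤ 3 ∧ (Ez B L b).card ≤ 3 ∧ (Ez B L c).card ≤ 3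
  · have h3 := h.three_ref (rab hall.2.2) (rac hall.2.1) (rbc hall.1) hall.1 hall.2.1 hall.2.2
    omega
  have h4 : (Ez B L a).card = 4 ∨ (Ez B L b).card = 4 ∨ (Ez B L c).card = 4 := by omega
  rcases h4 with h4 | h4 | h4
  · have h5 : (Ez B L b).card = 2 ∧ (Ez B L c).card = 1 ∨
        (Ez B L b).card = 1 ∧ (Ez B L c).card = 2 := by omega
    rcases h5 with h5 | h5
    · exact h.row421 he hV hT hab hac hbc h4 h5.1 h5.2 (rab (by omega)) (rac (by omega))
    · exact h.row421 he hV hTac hac hab hbc.symm h4 h5.2 h5.1 (rac (by omega))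
        (rab (by omega))
  · have h5 : (Ez B L a).card = 2 ∧ (Ez B L c).card = 1 ∨
        (Ez B L a).card = 1 ∧ (Ez B L c).card = 2 := by omega
    rcases h5 with h5 | h5
    · exact h.row421 he hV hTb hab.symm hbc hac h4 h5.1 h5.2 (sw (rab (by omega)))
        (rbc (by omega))
    · exact h.row421 he hV hTb' hbc hab.symm hac.symm h4 h5.2 h5.1 (rbc (by omega))
        (sw (rab (by omega)))
  · have h5 : (Ez B L a).card = 2 ∧ (Ez B L b).card = 1 ∨
        (Ez B L a).card = 1 ∧ (Ez B L b).card = 2 := by omega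
    rcases h5 with h5 | h5
    · exact h.row421 he hV hTc hac.symm hbc.symm hab h4 h5.1 h5.2 (sw (rac (by omega)))
        (sw (rbc (by omega)))
    · exact h.row421 he hV hTc' hbc.symm hac.symm hab.symm h4 h5.2 h5.1 (sw (rbc (by omega)))
        (sw (rac (by omega)))

/-- **seven hits: exactly five other hits, and no two contact points are jointly absorbed.** -/
theorem row7 (h : Lt3 B Q L j0) (h7 : hit B (B j0 ∩ Q) L = 7)
    (hV : 2 ≤ (Vs B Q L j0).card) : hit B ((Q \ (B j0 ∩ Q)) \ L) L = 5 ∧ ee B Q L = 0 ∧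
    ∀ v ∈ Vs B Q L j0, ∀ w ∈ Vs B Q L j0, v ≠ w → ¬ Abz B L {v, w} := by
  obtain ⟨t, ht, ht3, hab⟩ := h.ex_abz h7 hV
  have h1 := h.hits
  have h2 := h.card_Vs_le
  have he : ee B Q L = 0 := by omega
  have hne : L.Nonempty := card_pos.1 (by rw [h.cL]; norm_num)
  have h5 : dv B Q L = 3 := by
    unfold dv
    rw [h.PvL, he]
    norm_num
  have h6 : hit B ((Q \ (B j0 ∩ Q)) \ L) L = 5 := by
    by_contra hcon
    have h4 := h.viol.s1 h.c3 h.LQ hne h.crit h.svL
      (mem_inter.1 ht).1 (mem_inter.1 ht).2 (nu := 4) (by norm_num) (by omega) (by omega)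
      (Or.inl hab)
    rw [h5] at h4
    split_ifs at h4 <;> norm_num at h4
  refine ⟨h6, he, fun v hv w hw hvw hvw' => ?_⟩
  have h4 := h.viol.s1p h.c3 h.LQ hne h.crit h.svL (mem_inter.1 ht).1 (mem_inter.1 ht).2
    (nu := 4) (by norm_num) (by norm_num) (by omega) (by omega) hab hv hw hvw hvw'
  rw [h5] at h4
  norm_num at h4

end Lt3

namespace ViolR

variable {Q U : Finset V} {T : Finset ι} {F : Finset (Finset V)}

/-- the two sets of contact points. -/
theorem cpt_eq_Vs {j0 : ι} {L : Finset V} : cpt B Q j0 L = Vs B Q L j0 := by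
  classical
  ext v
  rw [mem_cpt]
  unfold Vs
  rw [mem_filter]
  constructor
  · rintro ⟨h1, i, h2, h3⟩
    exact ⟨h1, i, mem_Ez.2 ⟨h2, h3⟩⟩
  · rintro ⟨h1, i, h2⟩
    exact ⟨h1, i, mem_Ez.1 h2⟩

/-- **a triple with seven hits on a leaf with three points and nine blocks.** -/
theorem row7 (hv : ViolR B Q) (h : Frm B Q T U F) {j0 : ι} (hj0 : j0 ∈ T) {L : Finset V}
    (hL : L ∈ F) (hL3 : L.card = 3) (h9 : cm B L = 9) (h7 : hit B (B j0 ∩ Q) L = 7) :
    hit B ((Q \ (B j0 ∩ Q)) \ L) L = 5 ∧ ee B Q L = 0 ∧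
    ∀ v ∈ Vs B Q L j0, ∀ w ∈ Vs B Q L j0, v ≠ w → ¬ Abz B L {v, w} :=
  (hv.lt3 h hj0 hL hL3 h9).row7 h7 (by
    rw [← cpt_eq_Vs]
    exact hv.cpt_two_le h hj0 hL)

end ViolR

end Pool.Agent.Hyp6
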