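import Pool.Agent.Hyp6.Gdv3
import Pool.Agent.Hyp6.L3Kw
import Pool.Agent.Hyp6.Gd34
import Pool.Agent.Hyp6.L3Xb

/-!
# HYP6 L3Xc: leaves with three points and nine blocks, seven hits, at most two hits of `U`

The only vector which is not excluded by the tables is `(3,2,2 | 3,1,1)`; then the point with three hits
is in a second triple, which has three hits.
-/

set_option autoImplicit false
set_option maxRecDepth 100000

namespace Pool.Agent.Hyp6

open Finset Pool.Agent.Hyp5 Gdx Rup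

universe u v

/-- the vectors with seven and five hits which are excluded by the tables. -/
def need33 : List (List ℕ × List ℕ) :=
  [([3, 2, 2], [1, 1, 1, 1, 1]), ([3, 2, 2], [2, 1, 1, 1]), ([3, 2, 2], [2, 2, 1]),
   ([3, 2, 2], [3, 2]), ([3, 2, 2], [4, 1]), ([3, 2, 2], [5]),
   ([3, 3, 1], [1, 1, 1, 1, 1]), ([3, 3, 1], [2, 1, 1, 1]), ([3, 3, 1], [2, 2, 1]),
   ([3, 3, 1], [3, 1, 1]), ([3, 3, 1], [3, 2]), ([3, 3, 1], [4, 1]), ([3, 3, 1], [5]),
   ([4, 2, 1], [1, 1, 1, 1, 1]), ([4, 2, 1], [2, 1, 1, 1]), ([4, 2, 1], [2, 2, 1]),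
   ([4, 2, 1], [3, 1, 1]), ([4, 2, 1], [3, 2]), ([4, 2, 1], [4, 1]), ([4, 2, 1], [5]),
   ([4, 3, 0], [1, 1, 1, 1, 1]), ([4, 3, 0], [2, 1, 1, 1]), ([4, 3, 0], [2, 2, 1]),
   ([4, 3, 0], [3, 1, 1]), ([4, 3, 0], [3, 2]), ([4, 3, 0], [4, 1]), ([4, 3, 0], [5])]

/-- the vectors which are not excluded by the tables. -/
def exc33 : List (List ℕ × List ℕ) :=
  ([3, 2, 2], [3, 1, 1]) :: (cand 7 12).filter (fun p => decide (p.2.sum ≠ 5))

theorem chk33 : chkL7 7 12 13 need33 exc33 = true := by decide +kernel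

/-- the second triple. -/
theorem chk33_2 : (sps 4 [3, 1, 1]).all (fun q => decide (q.1.sum ≠ 3) ||
    decide (q = ([3, 0, 0], [1, 1]))) = true := by
  decide +kernel

/-- the instance with two triples does not occur at a leaf. -/
def NoN2 (V : Type v) [DecidableEq V] (ι : Type u) [Fintype ι] [DecidableEq ι] (zn r d0 pz : ℕ)
    (zm : List ℕ) (hs : List (List ℕ)) (hW : List ℕ) : Prop :=
  ∀ (B : ι → Finset V) (Q U L : Finset V) (T : Finset ι) (F : Finset (Finset V)) (tb : ℕ → ι)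
    (ct zt : ℕ → V) (bl : ℕ → ι), Frm B Q T U F → ViolR B Q → L ∈ F → (∀ i < 2, tb i ∈ T) →
    (∀ i < 2, ∀ i' < 2, tb i = tb i' → i = i') → LblN B Q L 2 tb hs hW ct →
    Gdx.Gx B Q L (PgN zn r d0 pz zm hs hW) bl ct zt tb → False

section

variable {V : Type v} [DecidableEq V] {ι : Type u} [Fintype ι] {B : ι → Finset V}

/-- a contact point outside of `U` is in a triple. -/
theorem Frm.exists_T' {Q U L : Finset V} {T : Finset ι} {F : Finset (Finset V)}
    (h : Frm B Q T U F) (hL : L ∈ F) {v : V} (hvQ : v ∈ Q) (hvL : v ∉ L) (hvU : v ∉ U)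
    (hne : (Ez B L v).Nonempty) : ∃ j ∈ T, v ∈ B j := by
  classical
  by_contra hcon
  push Not at hcon
  obtain ⟨i, hi⟩ := hne
  obtain ⟨h1, h2⟩ := mem_Ez.1 hi
  have h3 : v ∈ Dp B Q T := mem_sdiff.2 ⟨hvQ, fun h4 => by
    obtain ⟨j, hj, h5⟩ := mem_biUnion.1 h4
    exact hcon j hj h5⟩
  rcases h.mem_leaf_or_U hL h2 h1 h3 with h4 | h4
  · exact hvL h4
  · exact hvU h4

variable [DecidableEq ι]

/-- **the only vector with seven hits**: `(3,2,2 | 3,1,1)`. -/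
theorem Frm.vec33 {Q U L : Finset V} {T : Finset ι} {F : Finset (Finset V)}
    (hna : ∀ p ∈ need33, NoX V ι 3 2 13 13 z33a p) (hnb : ∀ p ∈ need33, NoX V ι 3 2 13 13 z33b p)
    (h : Frm B Q T U F) (hv : ViolR B Q) (hL : L ∈ F) (hL3 : L.card = 3) (h9 : cm B L = 9)
    {j : ι} (hj : j ∈ T) (h7 : hit B (B j ∩ Q) L = 7) :
    ∃ zm, (zm = z33a ∨ zm = z33b) ∧ ∃ bl ct zt, Lbl B Q L j [3, 2, 2] [3, 1, 1] ct ∧
      Gdx.Gx B Q L (Pgx 3 2 13 13 zm [3, 2, 2] [3, 1, 1]) bl ct zt (fun _ => j) := by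
  classical
  have h5 := (hv.row7 h hj hL hL3 h9 h7).1
  have e1 : (Q \ L) \ B j = (Q \ (B j ∩ Q)) \ L := by
    ext v
    simp only [mem_sdiff, mem_inter]
    tauto
  rw [← e1] at h5
  obtain ⟨zm, hzm, hT, hW, bl, ct, zt, hl, hg, hmem⟩ := h.gx_list33 hv hL hL3 h9 hj
    (by rw [h7]) (by omega) hna hnb chk33 chk33
  rcases List.mem_cons.1 hmem with h1 | h1
  · obtain ⟨rfl, rfl⟩ := Prod.mk.inj h1
    exact ⟨zm, hzm, bl, ct, zt, hl, hg⟩
  · exfalso
    have h2 := (List.mem_filter.1 h1).2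
    rw [decide_eq_true_eq] at h2
    exact h2 (hl.sumW.trans h5)

/-- **at most six hits**, if `U` has at most two hits. -/
theorem Frm.no7_of {Q U L : Finset V} {T : Finset ι} {F : Finset (Finset V)}
    (hna : ∀ p ∈ need33, NoX V ι 3 2 13 13 z33a p) (hnb : ∀ p ∈ need33, NoX V ι 3 2 13 13 z33b p)
    (ha2 : NoN2 V ι 3 2 13 13 z33a [[3, 2, 2], [3, 0, 0]] [1, 1])
    (hb2 : NoN2 V ι 3 2 13 13 z33b [[3, 2, 2], [3, 0, 0]] [1, 1])
    (h : Frm B Q T U F) (hv : ViolR B Q) (hL : L ∈ F) (hL3 : L.card = 3) (h9 : cm B L = 9)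
    (hbig : ∀ i ∈ T, ∀ j ∈ T, i ≠ j →
      2 ≤ hit B (Q \ (L ∪ ((B i ∩ Q) ∪ (B j ∩ Q)))) L)
    {j : ι} (hj : j ∈ T) (hU : hit B U L ≤ 2) : hit B (B j ∩ Q) L ≤ 6 := by
  classical
  have hle := hv.le7 h hj hL hL3 h9
  by_contra hcon
  have h7 : hit B (B j ∩ Q) L = 7 := by omega
  obtain ⟨h5, hee, _⟩ := hv.row7 h hj hL hL3 h9 h7
  obtain ⟨zm, hzm, bl, ct, zt, hl, hg⟩ := h.vec33 hna hnb hv hL hL3 h9 hj h7
  -- the point with three hits
  have h3 := hl.hits 3 (by norm_num)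
  have h3' : (Ez B L (ct 3)).card = 3 := h3
  obtain ⟨hvQ, hvL⟩ := hl.memQ 3 (by norm_num)
  have hvU : ct 3 ∉ U := fun h1 => by
    have h2 : (Ez B L (ct 3)).card ≤ hit B U L := by
      rw [hit_eq_Ez]
      exact single_le_sum (f := fun v => (Ez B L v).card) (fun _ _ => Nat.zero_le _) h1
    omega
  obtain ⟨j', hj', hvj'⟩ := h.exists_T' hL hvQ hvL hvU (card_pos.1 (by omega))
  have hne : j ≠ j' := by
    rintro rfl
    obtain ⟨a, ha, he⟩ := (hl.trip (ct 3)).1 (mem_inter.2 ⟨hvj', hvQ⟩)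
    have := hl.inj a (by show a < 3 + 3; omega) 3 (by norm_num) he
    omega
  set tb : ℕ → ι := fun i => if i = 0 then j else j' with htb
  have hT2 : ∀ i < 2, tb i ∈ T := by
    intro i hi
    rw [htb]
    dsimp only
    split_ifs
    · exact hj
    · exact hj'
  have hinj : ∀ i < 2, ∀ i' < 2, tb i = tb i' → i = i' := by
    intro i hi i' hi' he
    rw [htb] at he
    dsimp only at he
    split_ifs at he with h5 h6 h6
    · omega
    · exact absurd he hne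
    · exact absurd he.symm hne
    · omega
  have hjZ : ∀ i < 2, ¬ (B (tb i) ∩ L).Nonempty := by
    rintro i hi ⟨v, hv'⟩
    obtain ⟨h2, h5⟩ := mem_inter.1 hv'
    exact (h.T_out (hT2 i hi) (mem_inter.2 ⟨h2, h.FQ hL h5⟩)).2 L hL h5
  have hdis : ∀ i < 2, ∀ i' < 2, i ≠ i' → Disjoint (B (tb i) ∩ Q) (B (tb i') ∩ Q) :=
    fun i hi i' hi' hn => h.mtp.tpk.pack.disj _ (hT2 i hi) _ (hT2 i' hi')
      fun he => hn (hinj i hi i' hi' he)
  obtain ⟨hs, hW', ct', hn⟩ := exists_labelsN (Z := L) (k := 2) (by norm_num)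
    (fun i hi => h.full (hT2 i hi)) hjZ hdis
  obtain ⟨a, b, rfl⟩ : ∃ a b, hs = [a, b] := List.length_eq_two.1 hn.len
  have ha : a = [3, 2, 2] := hl.fst_of hn (i := 0) (by norm_num) rfl
  subst ha
  have hp := hl.perm_of hn
  rw [List.flatten_cons, List.flatten_nil, List.append_nil] at hp
  have hb3 : b.length = 3 := hn.len3 b (by simp)
  have hbd : b.Pairwise (fun a b => b ≤ a) := hn.desT b (by simp)
  have hsum : b.sum = hit B (B j' ∩ Q) L := hn.sumT 1 (by norm_num)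
  have hb4 : ∀ x ∈ b, x ≤ 4 := by
    intro x hx
    rcases Nat.eq_zero_or_pos x with h0 | h0
    · omega
    · have h5 : x ∈ [3, 1, 1] := hp.mem_iff.1 (List.mem_append_left _ (List.mem_filter.2
        ⟨hx, by simpa using h0⟩))
      simp only [List.mem_cons, List.not_mem_nil, or_false] at h5
      omega
  have hsps := mem_sps (mem_tri hb3 hbd hb4) hp hl.desW hn.desW
  have hchk := List.all_eq_true.1 chk33_2 _ hsps
  simp only [Bool.or_eq_true, decide_eq_true_eq] at hchk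
  -- the second triple has three hits
  have hd3 : dv B Q L = 3 := by
    unfold dv
    rw [(hv.lt3 h hj hL hL3 h9).PvL, hee]
    norm_num
  have hbig := hbig j hj j' hj' hne
  have hge : 3 ≤ hit B (B j' ∩ Q) L := by
    rw [hit_eq_Ez, ← h3']
    exact single_le_sum (f := fun v => (Ez B L v).card) (fun _ _ => Nat.zero_le _)
      (mem_inter.2 ⟨hvj', hvQ⟩)
  have hle3 : hit B (B j' ∩ Q) L + hit B (Q \ (L ∪ ((B j ∩ Q) ∪ (B j' ∩ Q)))) L ≤
      hit B ((Q \ (B j ∩ Q)) \ L) L := by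
    rw [← hit_union_left]
    · refine hit_mono_left _ fun v hv' => ?_
      rcases mem_union.1 hv' with h1 | h1
      · refine mem_sdiff.2 ⟨mem_sdiff.2 ⟨(mem_inter.1 h1).2, fun h2 => ?_⟩, ?_⟩
        · have h4 := hdis 0 (by norm_num) 1 (by norm_num) (by norm_num)
          exact disjoint_left.1 h4 h2 h1
        · exact fun h2 => hjZ 1 (by norm_num) ⟨v, mem_inter.2 ⟨(mem_inter.1 h1).1, h2⟩⟩
      · simp only [mem_sdiff, mem_union, mem_inter, not_or] at h1 ⊢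
        exact ⟨⟨h1.1, h1.2.2.1⟩, h1.2.1⟩
    · rw [disjoint_left]
      intro v h1 h2
      exact (mem_sdiff.1 h2).2 (mem_union_right _ (mem_union_right _ h1))
  rcases hchk with hc | hc
  · refine hc ?_
    show b.sum = 3
    rw [hsum]
    omega
  · obtain ⟨rfl, rfl⟩ := Prod.mk.inj hc
    have hrho := (hv.lt3 h hj hL hL3 h9).rhoL
    have hPv := (hv.lt3 h hj hL hL3 h9).PvL
    obtain ⟨zm', hzm', bl', zt', hb⟩ := (hv.lt3 h hj hL hL3 h9).exists_blocks
    have hgN : Gdx.Gx B Q L (PgN 3 2 13 13 zm' [[3, 2, 2], [3, 0, 0]] [1, 1]) bl' ct' zt' tb :=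
      hn.gx hb hv (h.FQ hL) (card_pos.1 (by omega)) (fun i hi => h.full (hT2 i hi)) hinj
        (by norm_num) hrho (by rw [hd3]; norm_num) (by rw [hPv]; norm_num)
    rcases hzm' with rfl | rfl
    · exact ha2 B Q U L T F tb ct' zt' bl' h hv hL hT2 hinj hn hgN
    · exact hb2 B Q U L T F tb ct' zt' bl' h hv hL hT2 hinj hn hgN

end

end Pool.Agent.Hyp6
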