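import Pool.Agent.Hyp6.L3Nx
import Pool.Agent.Hyp6.L3Rdc
import Pool.Agent.Hyp6.L3Nq
import Pool.Agent.Hyp6.L3NS

/-!
# HYP6 L3Xf: composite classes with one line triple and at most one centred triple

`Stg.two_main`: the inequality of a composite class for any two triples. `Stg.c1_main`: the inequality
for a centred and a line triple. `StgR.pc_b1`, `StgR.lf_b1`: a private composite class and a composite
class of a fat line with at most one centred triple.
-/

set_option autoImplicit false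

namespace Pool.Agent.Hyp6

open Finset Pool.Agent.Hyp5 Rt

universe u v

variable {V : Type v} [DecidableEq V] {ι : Type u} [Fintype ι] [DecidableEq ι]
  {B : ι → Finset V} {Q U : Finset V} {T : Finset ι} {F C : Finset (Finset V)}
  {P : Finset (Finset (Finset V))} {a : V → Finset (Finset V) → ℕ} {i j : ι}

namespace Stg

omit [DecidableEq ι] in
/-- the leaves of a class, in the form of the numbers. -/
theorem leaf_sum (B : ι → Finset V) (Q : Finset V) (C : Finset (Finset V)) :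
    ∑ L ∈ C, (240 * (ee B Q L : ℤ) - 120 * Pp B L + 120) =
      120 * (C.card : ℤ) - 120 * ∑ L ∈ C, (Pp B L - 2 * (ee B Q L : ℤ)) := by
  rw [mul_sum]
  have : (120 : ℤ) * (C.card : ℤ) = ∑ L ∈ C, (120 : ℤ) := by
    rw [sum_const, nsmul_eq_mul]
    ring
  rw [this, ← sum_sub_distrib]
  exact sum_congr rfl fun L _ => by ring

/-- **a composite class for any two triples** which see leaves outside of the class. -/
theorem two_main (s : Stg B Q T U F P a) (hC : C ∈ P) (h2 : 2 ≤ C.card)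
    (hK : KC B Q T U F C = ∅) (hi : i ∈ T) (hj : j ∈ T) (hij : i ≠ j)
    (hsi : ¬ slj B Q F i ⊆ C) (hsj : ¬ slj B Q F j ⊆ C)
    (h8 : jC B Q i C ≤ 11) (h9 : jC B Q j C ≤ 11) {c : ℤ}
    (hc : c ≤ tC (jC B Q i C) + tC (jC B Q j C)) :
    c + 120 * (C.card : ℤ) - 120 * ∑ L ∈ C, (Pp B L - 2 * (ee B Q L : ℤ)) -
      600 * ((Sp.Uin U (slf B F) C).card : ℤ) - 160 * (lsC B Q T U F C : ℤ) -
      5 * ∑ L ∈ C, (hit B (Rso B Q U F i j C L) L : ℤ) ≤ 0 := by
  classical
  have hCF : C ⊆ F := (s.part.ptn.vc C hC).sub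
  have hcard := s.card_comp hC hK
  have hA : (jC B Q i C : ℤ) + jC B Q j C = ∑ L ∈ C, ((jh B Q i L : ℤ) + jh B Q j L) := by
    unfold jC
    push_cast
    rw [sum_add_distrib]
  have hW : (0 : ℤ) ≤ lsC B Q T U F C := by positivity
  have hY := s.sum_y hC
  rcases (by omega : C.card = 2 ∨ C.card = 3 ∨ 4 ≤ C.card) with hc2 | hc3 | hc4
  · obtain ⟨L, M, hLM, rfl⟩ := card_eq_two.1 hc2
    have hp : (Sp.Uin U (slf B F) {L, M}).card = 1 := by omega
    rw [hc2, hp, sum_pair hLM, sum_pair hLM]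
    rcases le_total (Pp B L - 2 * (ee B Q L : ℤ)) (Pp B M - 2 * (ee B Q M : ℤ)) with hle | hle
    · have h11 := s.cn_pair hC hLM hK hi hj hij hsi hsj hle h8 h9 hc
      push_cast
      linarith
    · have hpc : ({M, L} : Finset (Finset V)) = {L, M} := pair_comm M L
      have h11 := s.cn_pair (L := M) (M := L) (i := i) (j := j)
        (c := c) (by rw [hpc]; exact hC)
        hLM.symm (by rw [hpc]; exact hK) hi hj hij (by rw [hpc]; exact hsi)
        (by rw [hpc]; exact hsj) hle (by rw [hpc]; exact h8) (by rw [hpc]; exact h9)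
        (by rw [hpc]; exact hc)
      rw [hpc] at h11
      push_cast
      linarith
  · obtain ⟨L, M, N, hLM, hLN, hMN, rfl⟩ := card_eq_three.1 hc3
    have hp : (Sp.Uin U (slf B F) {L, M, N}).card = 2 := by omega
    have hs3 : ∀ f : Finset V → ℤ, ∑ K ∈ ({L, M, N} : Finset (Finset V)), f K =
        f L + f M + f N := by
      intro f
      rw [sum_insert (by simp [hLM, hLN]), sum_pair hMN]
      ring
    have l1 := s.lc hC hK h2 hi hj hij (L := L) (by simp)
    have l2 := s.lc hC hK h2 hi hj hij (L := M) (by simp)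
    have l3 := s.lc hC hK h2 hi hj hij (L := N) (by simp)
    have tb := tC_tb h8 h9 hc
    rw [hA, hs3] at tb
    rw [hs3, hp] at hY
    push_cast at hY
    have hx : 2 ≤ ∑ L' ∈ ({L, M, N} : Finset (Finset V)),
        hit B (Rso B Q U F i j {L, M, N} L') L' := by
      by_contra hcon
      have h12 := Frm.Oc_le (B := B) (Q := Q) (U := U) (F := F) {L, M, N} i j
      obtain ⟨K, hK1, hK2⟩ := not_subset.1 hsi
      have h13 := (s.frm.few_out s.viol hi hj hij hCF h2 hcard (slj_sub hK1) hK2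
        (by omega)).1
      omega
    have hx' : 2 ≤ ∑ L' ∈ ({L, M, N} : Finset (Finset V)),
        (hit B (Rso B Q U F i j {L, M, N} L') L' : ℤ) := by exact_mod_cast hx
    rw [hs3] at hx'
    have h14 := Lc.three l1 l2 l3 tb hW (by linarith) hx'
    rw [hc3, hp, hs3, hs3]
    push_cast
    linarith
  · have h11 := Sm.sum fun L hL => (s.lc hC hK h2 hi hj hij (L := L) hL).sm
    obtain ⟨k1, k2, k3, k4, k5, k6, -, -⟩ := h11
    have tb := tC_tb h8 h9 hc
    rw [hA] at tb
    have hcz : (C.card : ℤ) = (Sp.Uin U (slf B F) C).card + 1 := by exact_mod_cast hcard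
    rw [hcz] at k5 k6 ⊢
    have h12 := tb_four (p := ((Sp.Uin U (slf B F) C).card : ℤ)) tb (by omega) k2 hW hY k4
      (by linarith) k6 k3 k1
    linarith

/-- a centred triple has at most three hits of its third point on the class. -/
theorem cd_z3 (s : Stg B Q T U F P a) (hC : C ∈ P) {x y z : V} {m w : ℕ}
    (d : Cd B Q T U F P C i x y z m w) : uC B z C ≤ 3 := by
  classical
  obtain ⟨M, hM, hMC⟩ := not_subset.1 d.bt.nsc
  obtain ⟨E, hE, hME⟩ := exists_cls s.part (slf_sub hM)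
  have hne : C ≠ E := fun h1 => hMC (h1 ▸ hME)
  have h1 : 1 ≤ uC B z E := by
    have h3 : 0 < uh B z M := by
      obtain ⟨hLF, y', hy, hne', k, hpk, hyk⟩ := mem_slf.1 hM
      unfold uh hit
      exact lt_of_lt_of_le (card_pos.2 ⟨z, mem_inter.2 ⟨hpk, mem_singleton_self z⟩⟩)
        (single_le_sum (f := fun k => (B k ∩ {z}).card) (fun k _ => Nat.zero_le _)
          (cost_mem_tch.2 ⟨y', mem_inter.2 ⟨hyk, hy⟩⟩))
    have h4 : uh B z M ≤ uC B z E :=
      single_le_sum (f := fun L => uh B z L) (fun _ _ => Nat.zero_le _) hME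
    omega
  have h3 : uC B z C + uC B z E ≤ ∑ D ∈ P, uC B z D := by
    rw [← sum_pair hne]
    refine sum_le_sum_of_subset fun D hD => ?_
    rcases mem_insert.1 hD with h4 | h4
    · exact h4 ▸ hC
    · exact mem_singleton.1 h4 ▸ hE
  have h5 := d.cc
  omega

/-- **a composite class with a centred triple and a line triple**, from the exceptional case: a pair
without full hits, with at least five hits, whose third point has no hit on the class. -/
theorem c1_main (s : Stg B Q T U F P a) (hC : C ∈ P) (h2 : 2 ≤ C.card)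
    (hK : KC B Q T U F C = ∅) {x y z : V} {m w : ℕ} (d : Cd B Q T U F P C i x y z m w)
    (hj : j ∈ T) (hij : i ≠ j) (hsj : ¬ slj B Q F j ⊆ C) (h9 : jC B Q j C ≤ 11) {c : ℤ}
    (hc : c ≤ tC (jC B Q j C))
    (hex : w = 0 → 5 ≤ m → jC B Q i C = m →
      c + (160 * (m : ℤ) - 584) + 120 * (C.card : ℤ) -
        120 * ∑ L ∈ C, (Pp B L - 2 * (ee B Q L : ℤ)) -
        600 * ((Sp.Uin U (slf B F) C).card : ℤ) - 160 * (lsC B Q T U F C : ℤ) -
        5 * ∑ L ∈ C, (hit B (Rso B Q U F i j C L) L : ℤ) ≤ 0) :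
    (c + (-5 * ((jC B Q i C : ℤ) - m) + (160 * (m : ℤ) - 584 - 76 * (w : ℤ)))) +
      120 * (C.card : ℤ) - 120 * ∑ L ∈ C, (Pp B L - 2 * (ee B Q L : ℤ)) -
      600 * ((Sp.Uin U (slf B F) C).card : ℤ) - 160 * (lsC B Q T U F C : ℤ) -
      5 * ∑ L ∈ C, (hit B (Rso B Q U F i j C L) L : ℤ) ≤ 0 := by
  obtain ⟨h1, _, h4⟩ := s.cd_le hC d
  have h5 := s.cd_z3 hC d
  by_cases h6 : w = 0 ∧ uC B z C = 0 ∧ 5 ≤ m
  · obtain ⟨hw, hz, hm⟩ := h6
    have h7 : jC B Q i C = m := by omega
    have h8 := hex hw hm h7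
    rw [h7, hw]
    push_cast
    linarith
  · have h7 := s.cd_cost hC d (c := -5 * ((jC B Q i C : ℤ) - m) +
      (160 * (m : ℤ) - 584 - 76 * (w : ℤ))) le_rfl
    rw [if_neg h6, add_zero] at h7
    exact s.two_main hC h2 hK d.mT hj hij (Stg.cd_out d) hsj (by omega) h9 (by linarith)

/-- the payments of the remaining triples at a class without centred triple. -/
theorem trs_b0 (_s : Stg B Q T U F P a) (hb : Bc B Q T U F P C = ∅) :
    ∑ k ∈ Trs B Q T (Rg B Q T U F) U F P,
        (144 * (jC B Q k C : ℤ) - Xv 149 B Q T U F P k C) ≤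
      -5 * ∑ k ∈ Trs B Q T (Rg B Q T U F) U F P, (jC B Q k C : ℤ) := by
  rw [mul_sum]
  refine sum_le_sum fun k hk => ?_
  have h5 : ¬ Xv 149 B Q T U F P k C < 149 * (jC B Q k C : ℤ) := fun h6 => by
    have h7 : k ∈ Bc B Q T U F P C := mem_filter.2 ⟨hk, h6⟩
    rw [hb] at h7
    exact notMem_empty _ h7
  push Not at h5
  linarith

/-- the exceptional case of a composite class with a centred triple and a line triple. -/
def ExOk (B : ι → Finset V) (Q : Finset V) (T : Finset ι) (U : Finset V)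
    (F : Finset (Finset V)) (P : Finset (Finset (Finset V))) (C : Finset (Finset V)) : Prop :=
  ∀ (i j : ι) (x y z : V) (m : ℕ), Cd B Q T U F P C i x y z m 0 → 5 ≤ m → jC B Q i C = m →
    j ∈ T → i ≠ j → ¬ slj B Q F j ⊆ C → jC B Q j C ≤ 11 → ∀ c : ℤ,
    c ≤ tC (jC B Q j C) + (160 * (m : ℤ) - 584) →
    (jC B Q j C = 11 → c ≤ 870 + (160 * (m : ℤ) - 584)) →
    c + 120 * (C.card : ℤ) - 120 * ∑ L ∈ C, (Pp B L - 2 * (ee B Q L : ℤ)) -
      600 * ((Sp.Uin U (slf B F) C).card : ℤ) - 160 * (lsC B Q T U F C : ℤ) -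
      5 * ∑ L ∈ C, (hit B (Rso B Q U F i j C L) L : ℤ) ≤ 0

/-- **a class with one centred triple and a line triple**, in the form of the needs. -/
theorem one_c (s : Stg B Q T U F P a) (hex : ExOk B Q T U F P C) (hC : C ∈ P)
    (h2 : 2 ≤ C.card) (hK : KC B Q T U F C = ∅) (hb : (Bc B Q T U F P C).card = 1)
    (hj : j ∈ aC B Q T U F P C) {c : ℤ} (hc : c ≤ tC (jC B Q j C))
    (hc' : jC B Q j C = 11 → c ≤ 870) :
    c + ∑ k ∈ Trs B Q T (Rg B Q T U F) U F P,
        (144 * (jC B Q k C : ℤ) - Xv 149 B Q T U F P k C) -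
      5 * ∑ k ∈ (aC B Q T U F P C).erase j, (jC B Q k C : ℤ) - 5 * (gC B U F P C : ℤ) +
      ∑ L ∈ C, (240 * (ee B Q L : ℤ) - 120 * Pp B L + 120) -
      ∑ u ∈ Sp.Uin U (slf B F) C, (600 + 160 * (uo B Q T U F u : ℤ)) ≤ 0 := by
  classical
  obtain ⟨x, y, z, m, w, hcd, -, hsum⟩ := s.trs_cd hC h2 (s.card_comp hC hK)
  obtain ⟨i, hi⟩ := card_eq_one.1 hb
  rw [hi, sum_singleton, sum_singleton] at hsum
  have d := hcd i (by rw [hi]; exact mem_singleton_self i)
  have hjt := (Sp.mem_atl.1 hj).1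
  have hjT : j ∈ T := (s.tl_sub hjt).1
  have hsj : ¬ slj B Q F j ⊆ C := (mem_filter.1 (mem_filter.1 hjt).1).2.2 C hC
  have hij : i ≠ j := by
    rintro rfl
    exact (mem_sdiff.1 d.mTr).2 hjt
  have h9 := s.jC_le11 hjt hC
  have h3 := s.sum_xg hC hK d.mT hjT hij
  have h5 := s.uin_sum (C := C)
  rw [← add_sum_erase _ _ hj] at h3
  have h6 := s.c1_main hC h2 hK d hjT hij hsj h9 hc fun hw hm hjm => by
    have d' := d
    rw [hw] at d'
    exact hex i j (x i) (y i) (z i) (m i) d' hm hjm hjT hij hsj h9 _ (by linarith)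
      (fun h => by have := hc' h; linarith)
  rw [leaf_sum, h5]
  linarith

end Stg

namespace StgR

/-- **a private composite class with at most one centred triple**. -/
theorem pc_b1' (s : StgR B Q T U F P a) (hga : Ga31 B Q T U F) (hj : j ∈ tl B Q T U F P)
    {C D : Finset (Finset V)} (hex : Stg.ExOk B Q T U F P D) (hCD : C ≠ D)
    (hl : lj B Q U F P j = {C, D}) (hq : aC B Q T U F P D = {j})
    (hf : ¬ Ful B Q T U F P a D) (h2 : 2 ≤ D.card) (hK : KC B Q T U F D = ∅)
    (hb : (Bc B Q T U F P D).card ≤ 1) : ndF B Q T U F P a D ≤ pmC (jC B Q j D) := by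
  classical
  rcases Nat.eq_zero_or_pos (Bc B Q T U F P D).card with hb0 | hb1
  · exact s.nd_pmC' hga hj hCD hl hq hf h2 hK (s.toStg.trs_b0 (card_eq_zero.1 hb0))
  · have hD : D ∈ P := s.lnf.sub j hj (by rw [hl]; simp)
    have hja : j ∈ aC B Q T U F P D := by rw [hq]; exact mem_singleton_self j
    have hl2 : (lj B Q U F P j).card = 2 := by rw [hl, card_pair hCD]
    have h1 := s.jC_thin hja hl2
    have h11 := s.toStg.jC_le11 hj hD
    have h3 := s.toStg.xcl_le 149 (tF B Q T U F P) hD hf hja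
    have h4 : xcl 149 B Q T U F P a (tF B Q T U F P) j D = ndF B Q T U F P a D := by
      unfold xcl
      rw [hq, erase_singleton, sum_empty, sub_zero]
    have h5 := s.owj_thin hj hl2 D
    have hK' : Sp.Kin (Rg B Q T U F) (slj B Q F) D = ∅ := hK
    have h6 : tK B Q (Rg B Q T U F) F (tF B Q T U F P) D = 0 := by
      unfold tK
      rw [hK', sum_empty]
    have h7 := tC_thin _ (mem_range.2 (by omega : jC B Q j D < 12)) h1
    have h8 := pm_le_pmC (jC B Q j D)
    have h9 := s.toStg.one_c (c := 144 * (jC B Q j D : ℤ) - 560 - pmC (jC B Q j D)) hex hD h2 hK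
      (by omega) hja (by linarith) (fun h => by rw [h]; decide)
    rw [h4, h5, hK', sum_empty, h6] at h3
    push_cast at h3
    linarith

/-- **the composite classes of a fat line**, without inside triples and centres, from the set of the
centred triples. -/
theorem exc_comp' (s : StgR B Q T U F P a) (hC : C ∈ P) (h2 : 2 ≤ C.card)
    (hn : ¬ Ful B Q T U F P a C) (hj : j ∈ aC B Q T U F P C)
    (ho : 1 ≤ (oj B Q U F P j).card) (hK : KC B Q T U F C = ∅)
    (hBc : Bc B Q T U F P C = ∅) :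
    Exs B Q T U F P a (tF B Q T U F P) j C ≤ exS (jC B Q j C) := by
  obtain ⟨hjt, hjl⟩ := Sp.mem_atl.1 hj
  have h10 := s.fat_ten hjt ho hjl
  obtain ⟨sb, x, _, _, hd, hf⟩ := s.toStg.exc_nd (tF B Q T U F P) hC hn hj ho (by omega)
  have hK' : Sp.Kin (Rg B Q T U F) (slj B Q F) C = ∅ := hK
  have hg := (s.toStg.nm hC).gm
  have hyg : (yC B Q U F P j C : ℤ) ≤ gC B U F P C := by
    exact_mod_cast Stg.yC_gC B Q U F P j C
  have hy1 : (1 : ℤ) ≤ yC B Q U F P j C := by exact_mod_cast s.toStg.own_hit hjt ho hjl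
  have hX : Frm.xC B Q T (Rg B Q T U F) U F C = 0 := by
    unfold Frm.xC
    rw [hK', sum_empty]
  have htK : tK B Q (Rg B Q T U F) F (tF B Q T U F P) C = 0 := by
    unfold tK
    rw [hK', sum_empty]
  rw [hK', hBc, hX, sum_empty, card_empty] at hd hf
  rw [htK] at hf
  obtain ⟨y, hy⟩ : ∃ y : ℤ, y = (yC B Q U F P j C : ℤ) := ⟨_, rfl⟩
  rw [← hy] at hd hf hyg hy1
  push_cast at hd hf
  refine hf ?_
  rw [neg_zero]
  refine hd.comp0 (by exact_mod_cast h2) rfl hy1 h10 (by linarith) fun h3 h4 h5 => ?_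
  have h6 : (Sp.Uin U (slf B F) C).card = 1 := by
    have h7 := hd.dn
    have h8 := hd.rk
    have h9 : ((Sp.Uin U (slf B F) C).card : ℤ) = 1 := by omega
    exact_mod_cast h9
  exact_mod_cast s.ls_pos hC (by exact_mod_cast h3) h6 h4 h5

/-- **the composite classes of a fat line with at most one centred triple**. -/
theorem lf_b1' (s : StgR B Q T U F P a) (hex : Stg.ExOk B Q T U F P C) (hC : C ∈ P)
    (h2 : 2 ≤ C.card) (hn : ¬ Ful B Q T U F P a C) (hj : j ∈ aC B Q T U F P C)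
    (ho : 1 ≤ (oj B Q U F P j).card) (hK : KC B Q T U F C = ∅)
    (hb : (Bc B Q T U F P C).card ≤ 1) :
    Exs B Q T U F P a (tF B Q T U F P) j C ≤ exS (jC B Q j C) := by
  classical
  rcases Nat.eq_zero_or_pos (Bc B Q T U F P C).card with hb0 | hb1
  · exact s.exc_comp' hC h2 hn hj ho hK (card_eq_zero.1 hb0)
  · obtain ⟨hjt, hjl⟩ := Sp.mem_atl.1 hj
    have h10 := s.fat_ten hjt ho hjl
    have h3 := s.toStg.xcl_le_y 149 (tF B Q T U F P) hC hn hj
    have h4 := s.toStg.yC_owj hC hn j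
    have hK' : Sp.Kin (Rg B Q T U F) (slj B Q F) C = ∅ := hK
    have h6 : tK B Q (Rg B Q T U F) F (tF B Q T U F P) C = 0 := by
      unfold tK
      rw [hK', sum_empty]
    have h7 := tC_fat _ (mem_range.2 (by omega : jC B Q j C < 12))
    have h9 := s.toStg.one_c (c := 144 * (jC B Q j C : ℤ) - sF (jC B Q j C)) hex hC h2 hK
      (by omega) hj h7 (fun h => by omega)
    rw [hK', sum_empty, h6] at h3
    unfold Exs exS
    linarith

end StgR

end Pool.Agent.Hyp6
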