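import Mathlib.Combinatorics.Hall.Basic
import Mathlib.Tactic

/-!
# HYP6 L3Y1: balanced distributions

Every point `u` of `U` has `d u` units which are distributed to the nodes of `N u`, a node `x` gets at
most `cap x` units, and at a node which is not full every point `u` gives at least `g u x` units. Such
a distribution exists if `d u <= c <= cap x` and `U` satisfies the condition of Hall.
-/

set_option autoImplicit false

namespace Pool.Agent.Hyp6.Sp

open Finset

section

variable {L : Type*} [DecidableEq L] {α : Type*} [DecidableEq α]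

/-- the number of units at a node. -/
def ld (U : Finset α) (a : α → L → ℕ) (x : L) : ℕ := ∑ u ∈ U, a u x

/-- distributions which are admissible up to overload. -/
structure Adm (d : α → ℕ) (cap : L → ℕ) (F : Finset L) (U : Finset α) (N : α → Finset L)
    (g a : α → L → ℕ) : Prop where
  sup : ∀ u ∈ U, ∀ x ∈ F, 0 < a u x → x ∈ N u
  tot : ∀ u ∈ U, ∑ x ∈ F, a u x = d u
  fair : ∀ x ∈ F, cap x ≤ ld U a x ∨ ∀ u ∈ U, g u x ≤ a u x

/-- the overload. -/
def ovl (cap : L → ℕ) (F : Finset L) (U : Finset α) (a : α → L → ℕ) : ℕ :=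
  ∑ x ∈ F, (ld U a x - cap x)

/-- walks which end in a node with free capacity. -/
def rch (cap : L → ℕ) (F : Finset L) (U : Finset α) (N : α → Finset L) (a : α → L → ℕ) :
    ℕ → L → Prop
  | 0, x => x ∈ F ∧ ld U a x < cap x
  | n + 1, x => x ∈ F ∧ ∃ u ∈ U, 0 < a u x ∧ ∃ y ∈ N u, rch cap F U N a n y

/-- one unit of `u` is moved from `x` to `y`. -/
def shf (a : α → L → ℕ) (u : α) (x y : L) : α → L → ℕ := fun v z =>
  if v = u then (if z = x then a u x - 1 else if z = y then a u y + 1 else a u z) else a v z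

variable {c : ℕ} {d : α → ℕ} {cap : L → ℕ} {F : Finset L} {U : Finset α} {N : α → Finset L} {g a : α → L → ℕ}

omit [DecidableEq L] [DecidableEq α] in
theorem rch_mem {n : ℕ} {x : L} (h : rch cap F U N a n x) : x ∈ F := by
  cases n with
  | zero => exact h.1
  | succ n => exact h.1

theorem shf_other {u v : α} {x y z : L} (h : z ≠ x) (h' : z ≠ y) : shf a u x y v z = a v z := by
  unfold shf
  split_ifs with h1 <;> simp_all

theorem shf_x {u : α} {x y : L} : shf a u x y u x = a u x - 1 := by simp [shf]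

theorem shf_y {u : α} {x y : L} (h : y ≠ x) : shf a u x y u y = a u y + 1 := by simp [shf, h]

theorem shf_ne {u v : α} {x y z : L} (h : v ≠ u) : shf a u x y v z = a v z := by simp [shf, h]

theorem ld_other {u : α} {x y z : L} (h : z ≠ x) (h' : z ≠ y) :
    ld U (shf a u x y) z = ld U a z := by
  unfold ld
  exact sum_congr rfl fun v _ => shf_other h h'

theorem ld_x {u : α} {x y : L} (hu : u ∈ U) (hp : 0 < a u x) :
    ld U (shf a u x y) x + 1 = ld U a x := by
  unfold ld
  rw [← add_sum_erase U _ hu, ← add_sum_erase U (fun v => a v x) hu]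
  have h1 : ∑ v ∈ U.erase u, shf a u x y v x = ∑ v ∈ U.erase u, a v x :=
    sum_congr rfl fun v hv => shf_ne (mem_erase.1 hv).1
  rw [h1, shf_x]
  omega

theorem ld_y {u : α} {x y : L} (hu : u ∈ U) (hxy : y ≠ x) :
    ld U (shf a u x y) y = ld U a y + 1 := by
  unfold ld
  rw [← add_sum_erase U _ hu, ← add_sum_erase U (fun v => a v y) hu]
  have h1 : ∑ v ∈ U.erase u, shf a u x y v y = ∑ v ∈ U.erase u, a v y :=
    sum_congr rfl fun v hv => shf_ne (mem_erase.1 hv).1
  rw [h1, shf_y hxy]
  omega

/-- moving one unit from a node with load above `c` keeps the conditions. -/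
theorem Adm.shf (h : Adm d cap F U N g a) (hN : ∀ u ∈ U, N u ⊆ F) {u : α} {x y : L} (hu : u ∈ U)
    (hx : x ∈ F) (hp : 0 < a u x) (hy : y ∈ N u) (hxy : y ≠ x) (hl : cap x < ld U a x) :
    Adm d cap F U N g (shf a u x y) := by
  have hyF : y ∈ F := hN u hu hy
  refine ⟨fun v hv z hz h0 => ?_, fun v hv => ?_, fun z hz => ?_⟩
  · by_cases hvu : v = u
    · subst hvu
      by_cases hzy : z = y
      · rw [hzy]; exact hy
      · by_cases hzx : z = x
        · rw [hzx]; exact h.sup v hv x hx hp
        · rw [shf_other hzx hzy] at h0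
          exact h.sup v hv z hz h0
    · rw [shf_ne hvu] at h0
      exact h.sup v hv z hz h0
  · by_cases hvu : v = u
    · subst hvu
      have h1 := h.tot v hv
      rw [← add_sum_erase F _ hx, ← add_sum_erase (F.erase x) _ (mem_erase.2 ⟨hxy, hyF⟩)] at h1 ⊢
      have h2 : ∑ z ∈ (F.erase x).erase y, Sp.shf a v x y v z =
          ∑ z ∈ (F.erase x).erase y, a v z :=
        sum_congr rfl fun z hz => shf_other (mem_erase.1 (mem_erase.1 hz).2).1 (mem_erase.1 hz).1
      rw [h2, shf_x, shf_y hxy]
      omega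
    · rw [← h.tot v hv]
      exact sum_congr rfl fun z _ => shf_ne hvu
  · by_cases hzx : z = x
    · subst hzx
      left
      have := ld_x (y := y) hu hp
      omega
    · by_cases hzy : z = y
      · subst hzy
        rcases h.fair z hz with h1 | h1
        · left
          rw [ld_y hu hxy]
          omega
        · right
          intro v hv
          have h2 := h1 v hv
          by_cases hvu : v = u
          · subst hvu
            rw [shf_y hxy]
            omega
          · rw [shf_ne hvu]
            exact h2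
      · rw [ld_other hzx hzy]
        rcases h.fair z hz with h1 | h1
        · exact Or.inl h1
        · right
          intro v hv
          rw [shf_other hzx hzy]
          exact h1 v hv

/-- the overload goes down if the unit goes to a node with free capacity. -/
theorem ovl_lt {u : α} {x y : L} (hu : u ∈ U) (hx : x ∈ F) (hyF : y ∈ F) (hp : 0 < a u x)
    (hxy : y ≠ x) (hl : cap x < ld U a x) (hy : ld U a y < cap y) :
    ovl cap F U (shf a u x y) < ovl cap F U a := by
  unfold ovl
  refine sum_lt_sum (fun z hz => ?_) ⟨x, hx, ?_⟩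
  · by_cases hzx : z = x
    · subst hzx
      have := ld_x (y := y) hu hp
      omega
    · by_cases hzy : z = y
      · subst hzy
        rw [ld_y hu hxy]
        omega
      · rw [ld_other hzx hzy]
  · have := ld_x (y := y) hu hp
    omega

/-- the overload does not change if the unit goes to a full node. -/
theorem ovl_eq {u : α} {x y : L} (hu : u ∈ U) (hx : x ∈ F) (hyF : y ∈ F) (hp : 0 < a u x)
    (hxy : y ≠ x) (hl : cap x < ld U a x) (hy : cap y ≤ ld U a y) :
    ovl cap F U (shf a u x y) = ovl cap F U a := by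
  unfold ovl
  rw [← add_sum_erase F _ hx, ← add_sum_erase (F.erase x) _ (mem_erase.2 ⟨hxy, hyF⟩),
    ← add_sum_erase F (fun z => ld U a z - cap z) hx,
    ← add_sum_erase (F.erase x) (fun z => ld U a z - cap z) (mem_erase.2 ⟨hxy, hyF⟩)]
  have h2 : ∑ z ∈ (F.erase x).erase y, (ld U (shf a u x y) z - cap z) =
      ∑ z ∈ (F.erase x).erase y, (ld U a z - cap z) :=
    sum_congr rfl fun z hz => by
      rw [ld_other (mem_erase.1 (mem_erase.1 hz).2).1 (mem_erase.1 hz).1]
  rw [h2]
  have h3 := ld_x (y := y) hu hp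
  have h4 := ld_y (a := a) (x := x) hu hxy
  omega

/-- walks which avoid the changed place survive. -/
theorem rch_shf {u : α} {x y : L} (hxy : y ≠ x) (hy : cap y ≤ ld U a y) :
    ∀ (m : ℕ) (z : L), rch cap F U N a m z → (∀ k ≤ m, ¬ rch cap F U N a k x) →
      rch cap F U N (shf a u x y) m z := by
  intro m
  induction m with
  | zero =>
    intro z hz hk
    have hzx : z ≠ x := by
      rintro rfl
      exact hk 0 le_rfl hz
    have hzy : z ≠ y := by
      rintro rfl
      have := hz.2
      omega
    exact ⟨hz.1, by rw [ld_other hzx hzy]; exact hz.2⟩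
  | succ m ih =>
    rintro z ⟨hzF, v, hv, hp, w, hw, hr⟩ hk
    refine ⟨hzF, v, hv, ?_, w, hw, ih w hr fun k hkm => hk k (by omega)⟩
    have hzx : z ≠ x := by
      rintro rfl
      exact hk (m + 1) le_rfl ⟨hzF, v, hv, hp, w, hw, hr⟩
    by_cases hzy : z = y
    · subst hzy
      by_cases hvu : v = u
      · subst hvu
        rw [shf_y hxy]
        omega
      · rw [shf_ne hvu]
        exact hp
    · rw [shf_other hzx hzy]
      exact hp

/-- no walk from an overloaded node to a node with free capacity if the overload is minimal. -/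
theorem no_rch (hN : ∀ u ∈ U, N u ⊆ F) {e : ℕ}
    (hmin : ∀ a', Adm d cap F U N g a' → e ≤ ovl cap F U a') :
    ∀ (n : ℕ) (a : α → L → ℕ) (x : L), Adm d cap F U N g a → ovl cap F U a = e → cap x < ld U a x →
      ¬ rch cap F U N a n x := by
  intro n
  induction n using Nat.strong_induction_on with
  | _ n ih =>
    intro a x hA he hl hr
    cases n with
    | zero =>
      have := hr.2
      omega
    | succ n =>
      obtain ⟨hxF, u, hu, hp, y, hy, hr'⟩ := hr
      have hyF : y ∈ F := hN u hu hy
      have hno : ∀ k ≤ n, ¬ rch cap F U N a k x := fun k hk => ih k (by omega) a x hA he hl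
      have hxy : y ≠ x := by
        rintro rfl
        exact hno n le_rfl hr'
      by_cases hyl : ld U a y < cap y
      · have h1 := ovl_lt hu hxF hyF hp hxy hl hyl
        have h2 := hmin _ (hA.shf hN hu hxF hp hy hxy hl)
        omega
      · have hyl' : cap y ≤ ld U a y := by omega
        have h1 := ovl_eq hu hxF hyF hp hxy hl hyl'
        refine ih n (by omega) (shf a u x y) y (hA.shf hN hu hxF hp hy hxy hl) (by omega) ?_
          (rch_shf hxy hyl' n y hr' hno)
        rw [ld_y hu hxy]
        omega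

/-- **balanced distributions exist**. -/
theorem exists_bal (hN : ∀ u ∈ U, N u ⊆ F) (hall : ∀ B ⊆ U, B.card ≤ (B.biUnion N).card)
    (hd : ∀ u ∈ U, d u ≤ c) (hc : ∀ x ∈ F, c ≤ cap x)
    (hg : ∀ u ∈ U, ∀ x ∈ F, 0 < g u x → x ∈ N u) (hs : ∀ u ∈ U, ∑ x ∈ F, g u x ≤ d u) :
    ∃ a : α → L → ℕ, (∀ u ∈ U, ∀ x ∈ F, 0 < a u x → x ∈ N u) ∧
      (∀ u ∈ U, ∑ x ∈ F, a u x = d u) ∧ (∀ x ∈ F, ld U a x ≤ cap x) ∧
      (∀ x ∈ F, ld U a x = cap x ∨ ∀ u ∈ U, g u x ≤ a u x) := by
  classical
  -- the first distribution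
  have hne : ∀ u ∈ U, (N u).Nonempty := by
    intro u hu
    have h1 := hall {u} (singleton_subset_iff.2 hu)
    rw [singleton_biUnion, card_singleton] at h1
    exact card_pos.1 (by omega)
  have hex : ∃ a, Adm d cap F U N g a := by
    by_cases hU : U.Nonempty
    · obtain ⟨u0, hu0⟩ := hU
      obtain ⟨x0, _⟩ := hne u0 hu0
      have : Nonempty L := ⟨x0⟩
      choose! p hp using hne
      refine ⟨fun u x => if x = p u then g u x + (d u - ∑ z ∈ F, g u z) else g u x,
        fun u hu x hx h0 => ?_, fun u hu => ?_, fun x hx => Or.inr fun u hu => ?_⟩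
      · by_cases hxp : x = p u
        · rw [hxp]
          exact hp u hu
        · rw [if_neg hxp] at h0
          exact hg u hu x hx h0
      · have h1 : p u ∈ F := hN u hu (hp u hu)
        have h2 := hs u hu
        have h3 := add_sum_erase F (fun z => g u z) h1
        rw [← add_sum_erase F _ h1, if_pos rfl]
        have h4 : ∑ x ∈ F.erase (p u), (if x = p u then g u x + (d u - ∑ z ∈ F, g u z) else g u x) =
            ∑ x ∈ F.erase (p u), g u x :=
          sum_congr rfl fun x hx => if_neg (mem_erase.1 hx).1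
        rw [h4]
        omega
      · split_ifs <;> omega
    · rw [not_nonempty_iff_eq_empty] at hU
      subst hU
      exact ⟨fun _ _ => 0, by simp, by simp, fun x _ => Or.inr (by simp)⟩
  obtain ⟨a, ha, hmin⟩ : ∃ a, Adm d cap F U N g a ∧ ∀ a', Adm d cap F U N g a' →
      ovl cap F U a ≤ ovl cap F U a' := by
    have h1 : ∃ n, ∃ a, Adm d cap F U N g a ∧ ovl cap F U a = n := by
      obtain ⟨a, ha⟩ := hex
      exact ⟨_, a, ha, rfl⟩
    obtain ⟨a, ha, he⟩ := Nat.find_spec h1
    refine ⟨a, ha, fun a' ha' => ?_⟩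
    rw [he]
    exact Nat.find_min' h1 ⟨a', ha', rfl⟩
  have hcap : ∀ x ∈ F, ld U a x ≤ cap x := by
    intro x0 hx0
    by_contra hcon
    push Not at hcon
    -- the reachable nodes
    let R : Set L := fun z => Relation.ReflTransGen
      (fun s t => s ∈ F ∧ ∃ u ∈ U, 0 < a u s ∧ t ∈ N u) x0 z
    set RF := F.filter (fun z => z ∈ R) with hRF
    have hstep : ∀ z ∈ R, z ∈ F → ∀ u ∈ U, 0 < a u z → ∀ t ∈ N u, t ∈ R := by
      intro z hz hzF u hu hp t ht
      exact Relation.ReflTransGen.tail hz ⟨hzF, u, hu, hp, ht⟩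
    -- no reachable node has free capacity
    have hfull : ∀ z ∈ R, z ∈ F → cap z ≤ ld U a z := by
      intro z hz hzF
      by_contra hlt
      push Not at hlt
      have key : ∀ s, Relation.ReflTransGen
          (fun s t => s ∈ F ∧ ∃ u ∈ U, 0 < a u s ∧ t ∈ N u) s z → ∃ n, rch cap F U N a n s := by
        intro s hs
        induction hs using Relation.ReflTransGen.head_induction_on with
        | refl => exact ⟨0, hzF, hlt⟩
        | head h1 _ ih =>
          obtain ⟨n, hn⟩ := ih
          obtain ⟨hsF, u, hu, hp, ht⟩ := h1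
          exact ⟨n + 1, hsF, u, hu, hp, _, ht, hn⟩
      obtain ⟨n, hn⟩ := key x0 hz
      exact no_rch hN hmin n a x0 ha rfl hcon hn
    set Bd := U.filter (fun u => ∃ z ∈ RF, 0 < a u z) with hBd
    have hNB : Bd.biUnion N ⊆ RF := by
      intro t ht
      obtain ⟨u, hu, htu⟩ := mem_biUnion.1 ht
      obtain ⟨huU, z, hz, hp⟩ := mem_filter.1 hu
      obtain ⟨hzF, hzR⟩ := mem_filter.1 hz
      exact mem_filter.2 ⟨hN u huU htu, hstep z hzR hzF u huU hp t htu⟩
    have h1 : Bd.card ≤ RF.card := (hall Bd (filter_subset _ _)).trans (card_le_card hNB)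
    have h2 : ∑ z ∈ RF, ld U a z ≤ Bd.card * c := by
      unfold ld
      rw [sum_comm]
      have h3 : ∑ u ∈ U, ∑ z ∈ RF, a u z = ∑ u ∈ Bd, ∑ z ∈ RF, a u z := by
        refine (sum_subset (filter_subset _ _) fun u hu hu' => ?_).symm
        refine sum_eq_zero fun z hz => ?_
        by_contra h0
        exact hu' (mem_filter.2 ⟨hu, z, hz, Nat.pos_of_ne_zero h0⟩)
      rw [h3]
      have h4 : ∀ u ∈ Bd, ∑ z ∈ RF, a u z ≤ c := by
        intro u hu
        refine le_trans ?_ (hd u (mem_filter.1 hu).1)
        rw [← ha.tot u (mem_filter.1 hu).1]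
        exact sum_le_sum_of_subset (filter_subset _ _)
      calc ∑ u ∈ Bd, ∑ z ∈ RF, a u z ≤ ∑ u ∈ Bd, c := sum_le_sum h4
        _ = Bd.card * c := by rw [sum_const, smul_eq_mul]
    have hx0R : x0 ∈ RF := mem_filter.2 ⟨hx0, Relation.ReflTransGen.refl⟩
    have h5 : RF.card * c < ∑ z ∈ RF, ld U a z := by
      have h6 : ∑ z ∈ RF, cap z < ∑ z ∈ RF, ld U a z :=
        sum_lt_sum (fun z hz => hfull z (mem_filter.1 hz).2 (mem_filter.1 hz).1) ⟨x0, hx0R, hcon⟩
      have h6' : ∑ z ∈ RF, c ≤ ∑ z ∈ RF, cap z :=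
        sum_le_sum fun z hz => hc z (mem_filter.1 hz).1
      rw [sum_const, smul_eq_mul] at h6'
      exact lt_of_le_of_lt h6' h6
    have h7 := Nat.mul_le_mul_right c h1
    omega
  refine ⟨a, ha.sup, ha.tot, hcap, fun x hx => ?_⟩
  rcases ha.fair x hx with h1 | h1
  · exact Or.inl (le_antisymm (hcap x hx) h1)
  · exact Or.inr h1

end

end Pool.Agent.Hyp6.Sp
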