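import Pool.Agent.Hyp6.L3Y1
import Pool.Agent.Hyp6.L3Ty
import Pool.Agent.Hyp6.L3Pc

/-!
# HYP6 L3Y2: the rent sum on a minimal partition into classes (pure part)

The lines of the crossing triples of rank two: a line with `k + 2` classes has `k` own points, the own
points of different triples are different. A balanced distribution of the crossing points gives the
payments of the rent proof: a triple pays `70 - 14 o` to every class of its line, `o` the number of
units of its own points at the class, together `140` plus `14` for every missing unit of an own point.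
-/

set_option autoImplicit false

namespace Pool.Agent.Hyp6.Sp

open Finset

section

variable {L : Type*} [DecidableEq L] {α : Type*} [DecidableEq α] {τ : Type*} [DecidableEq τ]
variable {F : Finset L} {U : Finset α} {N : α → Finset L} {Ts : Finset τ} {NT : τ → Finset L}
  {P : Finset (Finset L)}

/-- the own points of the line of a triple. -/
def ow (U : Finset α) (N : α → Finset L) (NT : τ → Finset L) (P : Finset (Finset L)) (T : τ) :
    Finset α := UU U N P (ln U N NT P T)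

omit [DecidableEq τ] in
theorem ow_sub {T : τ} : ow U N NT P T ⊆ Ux U N P := filter_subset _ _

theorem ow_met (hg : Gd F F U N Ts NT) (h : MinP F F U N Ts NT P) {T : τ} {u : α}
    (hu : u ∈ ow U N NT P T) : met P (N u) ⊆ ln U N NT P T := by
  obtain ⟨h1, h2⟩ := mem_filter.1 hu
  exact (h.ptn.sub_met (hg.NU u (mem_filter.1 h1).1) clo_subset).1 h2

/-- **a line with `k + 2` classes has `k` own points**. -/
theorem MinP.ow_card (hg : Gd F F U N Ts NT) (h : MinP F F U N Ts NT P) {T : τ}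
    (hT : T ∈ T2 U N Ts NT P) : (ln U N NT P T).card = (ow U N NT P T).card + 2 := by
  have h1 := (h.lin hg).nl T hT
  have h2 := h.nP_clo hg (A := met P (NT T)) met_subset
  have h3 : nP U N P (ln U N NT P T) = ((ow U N NT P T).card : ℤ) := h2
  rw [h3] at h1
  omega

/-- **the own points of different triples are different**. -/
theorem MinP.ow_disj (hg : Gd F F U N Ts NT) (h : MinP F F U N Ts NT P) {T T' : τ}
    (hT : T ∈ T2 U N Ts NT P) (hT' : T' ∈ T2 U N Ts NT P) (hne : T ≠ T') :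
    Disjoint (ow U N NT P T) (ow U N NT P T') := by
  rw [disjoint_left]
  intro u hu hu'
  have h1 := ow_met hg h hu
  have h2 := ow_met hg h hu'
  have h3 := (h.lin hg).one T hT T' hT' hne
  have h4 := h.ptn.two_met (hg.NU u (mem_filter.1 (ow_sub hu)).1)
    (hg.N_ne (mem_filter.1 (ow_sub hu)).1) (mem_filter.1 (ow_sub hu)).2
  have h5 := card_le_card (subset_inter h1 h2)
  omega

variable {a : α → Finset L → ℕ} {d : α → ℕ}

/-- the units of an own point are inside the line. -/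
theorem ow_units (hg : Gd F F U N Ts NT) (h : MinP F F U N Ts NT P)
    (hs : ∀ u ∈ Ux U N P, ∀ C ∈ P, 0 < a u C → C ∈ met P (N u))
    (ht : ∀ u ∈ Ux U N P, ∑ C ∈ P, a u C = d u) {T : τ} :
    ∑ C ∈ ln U N NT P T, ld (ow U N NT P T) a C = ∑ u ∈ ow U N NT P T, d u := by
  unfold ld
  rw [sum_comm]
  refine sum_congr rfl fun u hu => ?_
  rw [← ht u (ow_sub hu)]
  refine sum_subset clo_subset fun C hC hCl => ?_
  by_contra h0
  exact hCl (ow_met hg h hu (hs u (ow_sub hu) C hC (Nat.pos_of_ne_zero h0)))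

/-- the triples whose line contains a class. -/
def at2 (U : Finset α) (N : α → Finset L) (Ts : Finset τ) (NT : τ → Finset L)
    (P : Finset (Finset L)) (C : Finset L) : Finset τ :=
  (T2 U N Ts NT P).filter (fun T => C ∈ ln U N NT P T)

theorem mem_at2 {C : Finset L} {T : τ} :
    T ∈ at2 U N Ts NT P C ↔ T ∈ T2 U N Ts NT P ∧ C ∈ ln U N NT P T := mem_filter

/-- the standard payment of a triple to a class of its line. -/
def pay (U : Finset α) (N : α → Finset L) (NT : τ → Finset L) (P : Finset (Finset L))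
    (a : α → Finset L → ℕ) (T : τ) (C : Finset L) : ℤ :=
  70 - 14 * (ld (ow U N NT P T) a C : ℤ)

/-- **the total of the standard payments of a triple**. -/
theorem MinP.pay_sum (hg : Gd F F U N Ts NT) (h : MinP F F U N Ts NT P)
    (hs : ∀ u ∈ Ux U N P, ∀ C ∈ P, 0 < a u C → C ∈ met P (N u))
    (ht : ∀ u ∈ Ux U N P, ∑ C ∈ P, a u C = d u) {T : τ} (hT : T ∈ T2 U N Ts NT P) :
    ∑ C ∈ ln U N NT P T, pay U N NT P a T C =
      140 + 14 * ∑ u ∈ ow U N NT P T, (5 - (d u : ℤ)) := by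
  have h1 := ow_units hg h hs ht (T := T)
  have h2 := h.ow_card hg hT
  unfold pay
  rw [sum_sub_distrib, sum_const, nsmul_eq_mul, ← mul_sum, sum_sub_distrib, sum_const,
    nsmul_eq_mul]
  have h3 : ∑ C ∈ ln U N NT P T, (ld (ow U N NT P T) a C : ℤ) =
      ∑ u ∈ ow U N NT P T, (d u : ℤ) := by exact_mod_cast h1
  have h4 : ((ln U N NT P T).card : ℤ) = (ow U N NT P T).card + 2 := by exact_mod_cast h2
  rw [h3, h4]
  ring

/-- the own masses at a class are together at most its mass. -/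
theorem MinP.own_le (hg : Gd F F U N Ts NT) (h : MinP F F U N Ts NT P) (C : Finset L) :
    ∑ T ∈ at2 U N Ts NT P C, ld (ow U N NT P T) a C ≤ ld (Ux U N P) a C := by
  unfold ld
  have h1 : ∑ T ∈ at2 U N Ts NT P C, ∑ u ∈ ow U N NT P T, a u C =
      ∑ u ∈ (at2 U N Ts NT P C).biUnion (ow U N NT P), a u C := by
    rw [sum_biUnion]
    intro T hT T' hT' hne
    exact h.ow_disj hg (mem_at2.1 hT).1 (mem_at2.1 hT').1 hne
  rw [h1]
  exact sum_le_sum_of_subset (biUnion_subset.2 fun T _ => ow_sub)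

/-- **the standard receipts of a class**. -/
theorem MinP.receipts (hg : Gd F F U N Ts NT) (h : MinP F F U N Ts NT P) (C : Finset L) :
    70 * ((at2 U N Ts NT P C).card : ℤ) + 22 * (ld (Ux U N P) a C : ℤ) ≤
      ∑ T ∈ at2 U N Ts NT P C, pay U N NT P a T C + 36 * (ld (Ux U N P) a C : ℤ) := by
  have h1 := h.own_le hg (a := a) C
  unfold pay
  rw [sum_sub_distrib, sum_const, nsmul_eq_mul, ← mul_sum]
  have h2 : ∑ T ∈ at2 U N Ts NT P C, (ld (ow U N NT P T) a C : ℤ) ≤
      (ld (Ux U N P) a C : ℤ) := by exact_mod_cast h1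
  linarith

/-- **the rent sum**: `D` the demands of the classes, `w T` the supply of the line triples above
`140`, `e` their extra payments, `X` the payments of further payers. -/
theorem MinP.rent (hg : Gd F F U N Ts NT) (h : MinP F F U N Ts NT P)
    (hs : ∀ u ∈ Ux U N P, ∀ C ∈ P, 0 < a u C → C ∈ met P (N u))
    (ht : ∀ u ∈ Ux U N P, ∑ C ∈ P, a u C = d u) (hd : ∀ u ∈ Ux U N P, d u ≤ 5)
    (D X : Finset L → ℤ) (e : τ → Finset L → ℤ)
    (hn : ∀ C ∈ P, D C ≤ ∑ T ∈ at2 U N Ts NT P C, pay U N NT P a T C +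
      36 * (ld (Ux U N P) a C : ℤ) + ∑ T ∈ T2 U N Ts NT P, e T C + X C) :
    ∑ C ∈ P, D C + 21 * ∑ u ∈ Ux U N P, (5 - (d u : ℤ)) ≤
      ∑ T ∈ T2 U N Ts NT P, (140 + ∑ C ∈ P, e T C) +
        ∑ u ∈ Ux U N P, (180 - (5 - (d u : ℤ))) + ∑ C ∈ P, X C +
        7 * ∑ u ∈ Ux U N P, (5 - (d u : ℤ)) := by
  have h1 := sum_le_sum hn
  rw [sum_add_distrib, sum_add_distrib, sum_add_distrib] at h1
  have h2 : ∑ C ∈ P, ∑ T ∈ at2 U N Ts NT P C, pay U N NT P a T C =
      ∑ T ∈ T2 U N Ts NT P, ∑ C ∈ ln U N NT P T, pay U N NT P a T C := by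
    unfold at2
    simp_rw [sum_filter]
    rw [sum_comm]
    refine sum_congr rfl fun T _ => ?_
    rw [← sum_filter]
    congr 1
    ext C
    rw [mem_filter]
    exact ⟨fun hC => hC.2, fun hC => ⟨clo_subset hC, hC⟩⟩
  have h3 : ∑ T ∈ T2 U N Ts NT P, ∑ C ∈ ln U N NT P T, pay U N NT P a T C =
      ∑ T ∈ T2 U N Ts NT P, (140 + 14 * ∑ u ∈ ow U N NT P T, (5 - (d u : ℤ))) :=
    sum_congr rfl fun T hT => h.pay_sum hg hs ht hT
  have h4 : ∑ C ∈ P, 36 * (ld (Ux U N P) a C : ℤ) = ∑ u ∈ Ux U N P, 36 * (d u : ℤ) := by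
    have h5 : ∑ C ∈ P, ld (Ux U N P) a C = ∑ u ∈ Ux U N P, d u := by
      unfold ld
      rw [sum_comm]
      exact sum_congr rfl fun u hu => ht u hu
    rw [← mul_sum, ← mul_sum]
    have h6 : ∑ C ∈ P, (ld (Ux U N P) a C : ℤ) = ∑ u ∈ Ux U N P, (d u : ℤ) := by
      exact_mod_cast h5
    rw [h6]
  have h5 : ∑ C ∈ P, ∑ T ∈ T2 U N Ts NT P, e T C = ∑ T ∈ T2 U N Ts NT P, ∑ C ∈ P, e T C :=
    sum_comm
  have h6 : ∑ T ∈ T2 U N Ts NT P, ∑ u ∈ ow U N NT P T, (5 - (d u : ℤ)) ≤
      ∑ u ∈ Ux U N P, (5 - (d u : ℤ)) := by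
    have h7 : ∑ T ∈ T2 U N Ts NT P, ∑ u ∈ ow U N NT P T, (5 - (d u : ℤ)) =
        ∑ u ∈ (T2 U N Ts NT P).biUnion (ow U N NT P), (5 - (d u : ℤ)) := by
      rw [sum_biUnion]
      intro T hT T' hT' hne
      exact h.ow_disj hg hT hT' hne
    rw [h7]
    refine sum_le_sum_of_subset_of_nonneg (biUnion_subset.2 fun T _ => ow_sub) fun u hu _ => ?_
    have := hd u hu
    omega
  rw [h2, h3, h4, h5, sum_add_distrib, sum_const, nsmul_eq_mul, ← mul_sum] at h1
  rw [sum_add_distrib, sum_const, nsmul_eq_mul]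
  have h8 : ∑ u ∈ Ux U N P, (180 - (5 - (d u : ℤ))) = ∑ u ∈ Ux U N P, 36 * (d u : ℤ) +
      35 * ∑ u ∈ Ux U N P, (5 - (d u : ℤ)) := by
    rw [mul_sum, ← sum_add_distrib]
    exact sum_congr rfl fun u _ => by ring
  have h9 : (0 : ℤ) ≤ ∑ u ∈ Ux U N P, (5 - (d u : ℤ)) := by
    refine sum_nonneg fun u hu => ?_
    have := hd u hu
    omega
  rw [h8]
  linarith

end

end Pool.Agent.Hyp6.Sp
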