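import Pool.Agent.Hyp6.L3Y2
import Pool.Agent.Hyp6.L3Rv
import Pool.Agent.Hyp6.L3Tp

/-!
# HYP6 L3Y3: the rent sum on a minimal partition into classes (frame part)

The nodes are the classes of a minimal partition of the leaves (`MinP`, with the triples of the
frame). The demand of a node is the demand of its leaves minus the supplies of its inside points and
triples. `of_nodes`: if every node is paid by the standard payments of `L3Y2`, the extra payments of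
the line triples and the payments of the remaining triples, then `2 ee <= Pv`.
-/

set_option autoImplicit false

namespace Pool.Agent.Hyp6

open Finset Pool.Agent.Hyp5 Rt

universe u v

variable {V : Type v} [DecidableEq V] {ι : Type u} [Fintype ι] [DecidableEq ι]
  {B : ι → Finset V}

/-- the hits of a point on a class. -/
def uC (B : ι → Finset V) (p : V) (C : Finset (Finset V)) : ℕ := ∑ L ∈ C, uh B p L

/-- the demand of a class. -/
noncomputable def dmC (B : ι → Finset V) (Q : Finset V) (T R : Finset ι) (U : Finset V)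
    (F C : Finset (Finset V)) : ℤ :=
  ∑ L ∈ C, dm B Q T U 15 L - ∑ u ∈ Sp.Uin U (slf B F) C, sU B Q T U F 15 u -
    ∑ j ∈ Sp.Kin R (slj B Q F) C, sT B Q T U F 15 j

/-- the triples which are neither triples of `R` inside a class nor line triples of `R`. -/
noncomputable def Trs (B : ι → Finset V) (Q : Finset V) (T R : Finset ι) (U : Finset V)
    (F : Finset (Finset V)) (P : Finset (Finset (Finset V))) : Finset ι :=
  (T \ P.biUnion (Sp.Kin R (slj B Q F))) \ Sp.T2 U (slf B F) R (slj B Q F) P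

/-- the loss of the inside points of a class. -/
noncomputable def lsC (B : ι → Finset V) (Q : Finset V) (T : Finset ι) (U : Finset V)
    (F C : Finset (Finset V)) : ℕ := ∑ u ∈ Sp.Uin U (slf B F) C, uo B Q T U F u

namespace Frm

variable {Q U : Finset V} {T R : Finset ι} {F : Finset (Finset V)}
  {P : Finset (Finset (Finset V))}

omit [DecidableEq ι] in
/-- the data of the classes with the triples of the frame. -/
theorem gdT (h : Frm B Q T U F) : Sp.Gd F F U (slf B F) R (slj B Q F) where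
  sub := Subset.refl _
  NU := fun _ _ => slf_sub
  NTs := fun _ _ => slj_sub
  sur := h.sur.sur

omit [DecidableEq ι] in
/-- a point of `U` with a hit on a class sees it. -/
theorem uC_pos (h : Frm B Q T U F) (hP : Sp.MinP F F U (slf B F) R (slj B Q F) P) {u : V}
    (hu : u ∈ U) {C : Finset (Finset V)} (hC : C ∈ P) (h0 : 0 < uC B u C) :
    C ∈ Sp.met P (slf B F u) := by
  refine Sp.mem_met.2 ⟨hC, ?_⟩
  rw [not_disjoint_iff]
  obtain ⟨L, hL, hpos⟩ := exists_ne_zero_of_sum_ne_zero (Nat.pos_iff_ne_zero.1 h0)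
  have hLF : L ∈ F := (hP.ptn.vc C hC).sub hL
  refine ⟨L, ?_, hL⟩
  rw [mem_slf]
  refine ⟨hLF, ?_⟩
  unfold uh hit at hpos
  obtain ⟨i, hi, hpos⟩ := exists_ne_zero_of_sum_ne_zero hpos
  obtain ⟨w, hw⟩ := card_pos.1 (Nat.pos_of_ne_zero hpos)
  obtain ⟨hw1, hw2⟩ := mem_inter.1 hw
  rw [mem_singleton] at hw2
  subst hw2
  obtain ⟨y, hy⟩ := cost_mem_tch.1 hi
  obtain ⟨hy1, hy2⟩ := mem_inter.1 hy
  exact ⟨y, hy2, fun he => disjoint_left.1 (h.ge.FU L hLF) (he ▸ hy2) hu, i, hw1, hy1⟩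

omit [Fintype ι] [DecidableEq ι] in
/-- sums over the leaves are sums over the classes. -/
theorem sum_leaves {M : Type*} [AddCommMonoid M] {B : ι → Finset V}
    (hP : Sp.MinP F F U (slf B F) R (slj B Q F) P) (f : Finset V → M) :
    ∑ L ∈ F, f L = ∑ C ∈ P, ∑ L ∈ C, f L := by
  conv_lhs => rw [← hP.ptn.un]
  exact sum_biUnion fun C hC C' hC' hne => hP.ptn.dj C hC C' hC' hne

/-- the hits of a point of `U` on the classes. -/
theorem uC_sum (h : Frm B Q T U F) (hr : Reg B Q)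
    (hP : Sp.MinP F F U (slf B F) R (slj B Q F) P) {u : V} (hu : u ∈ U) :
    ∑ C ∈ P, uC B u C = 5 - uo B Q T U F u := by
  have h1 := h.five_u hr hu
  rw [sum_leaves hP] at h1
  unfold uC
  omega

theorem uo_le (h : Frm B Q T U F) (hr : Reg B Q) {u : V} (hu : u ∈ U) :
    uo B Q T U F u ≤ 5 := by
  have h1 := h.five_u hr hu
  omega

/-- **balanced distributions of the crossing points**. -/
theorem exists_bal (h : Frm B Q T U F) (hr : Reg B Q)
    (hP : Sp.MinP F F U (slf B F) R (slj B Q F) P) :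
    ∃ a : V → Finset (Finset V) → ℕ,
      (∀ u ∈ Sp.Ux U (slf B F) P, ∀ C ∈ P, 0 < a u C → C ∈ Sp.met P (slf B F u)) ∧
      (∀ u ∈ Sp.Ux U (slf B F) P, ∑ C ∈ P, a u C = 5 - uo B Q T U F u) ∧
      (∀ C ∈ P, Sp.ld (Sp.Ux U (slf B F) P) a C ≤ 5 + lsC B Q T U F C) ∧
      (∀ C ∈ P, Sp.ld (Sp.Ux U (slf B F) P) a C = 5 + lsC B Q T U F C ∨
        ∀ u ∈ Sp.Ux U (slf B F) P, uC B u C ≤ a u C) := by
  have hg := h.gdT (R := R)
  have hUx : ∀ u ∈ Sp.Ux U (slf B F) P, u ∈ U := fun u hu => (mem_filter.1 hu).1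
  refine Sp.exists_bal (c := 5) (N := fun u => Sp.met P (slf B F u)) (fun u _ => Sp.met_subset)
    (fun Z hZ => ?_) (fun u _ => Nat.sub_le _ _) (fun C _ => by omega)
    (fun u hu C hC h0 => h.uC_pos hP (hUx u hu) hC h0)
    (fun u hu => (h.uC_sum hr hP (hUx u hu)).le)
  rcases Z.eq_empty_or_nonempty with rfl | hne
  · simp
  · have := hP.surplus hg hZ hne
    omega

omit [Fintype ι] in
/-- sums over the points of `U`. -/
theorem sum_U {B : ι → Finset V} (hg : Sp.Gd F F U (slf B F) R (slj B Q F))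
    (hP : Sp.MinP F F U (slf B F) R (slj B Q F) P) (f : V → ℤ) :
    ∑ u ∈ U, f u = ∑ u ∈ Sp.Ux U (slf B F) P, f u +
      ∑ C ∈ P, ∑ u ∈ Sp.Uin U (slf B F) C, f u := by
  have h1 : ∑ C ∈ P, ∑ u ∈ Sp.Uin U (slf B F) C, f u =
      ∑ u ∈ P.biUnion (Sp.Uin U (slf B F)), f u := by
    rw [sum_biUnion]
    intro C hC C' hC' hne
    refine disjoint_left.2 fun u hu hu' => ?_
    obtain ⟨h1, h2⟩ := mem_filter.1 hu
    obtain ⟨_, h3⟩ := mem_filter.1 hu'
    obtain ⟨x, hx⟩ := hg.N_ne h1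
    exact disjoint_left.1 (hP.ptn.dj C hC C' hC' hne) (h2 hx) (h3 hx)
  have h2 : Disjoint (Sp.Ux U (slf B F) P) (P.biUnion (Sp.Uin U (slf B F))) := by
    refine disjoint_left.2 fun u hu hu' => ?_
    obtain ⟨C, hC, hu2⟩ := mem_biUnion.1 hu'
    exact (mem_filter.1 hu).2 C hC (mem_filter.1 hu2).2
  rw [h1, ← sum_union h2]
  congr 1
  ext u
  rw [mem_union, mem_biUnion]
  constructor
  · intro hu
    by_cases hex : ∃ C ∈ P, slf B F u ⊆ C
    · obtain ⟨C, hC, hs⟩ := hex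
      exact Or.inr ⟨C, hC, mem_filter.2 ⟨hu, hs⟩⟩
    · push Not at hex
      exact Or.inl (mem_filter.2 ⟨hu, hex⟩)
  · rintro (hu | ⟨C, _, hu⟩)
    · exact (mem_filter.1 hu).1
    · exact (mem_filter.1 hu).1

omit [Fintype ι] in
/-- sums over the triples. -/
theorem sum_T (hP : Sp.MinP F F U (slf B F) R (slj B Q F) P) (hR : R ⊆ T) (f : ι → ℤ) :
    ∑ j ∈ T, f j = ∑ j ∈ Sp.T2 U (slf B F) R (slj B Q F) P, f j +
      ∑ C ∈ P, ∑ j ∈ Sp.Kin R (slj B Q F) C, f j + ∑ j ∈ Trs B Q T R U F P, f j := by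
  have h1 : ∑ C ∈ P, ∑ j ∈ Sp.Kin R (slj B Q F) C, f j =
      ∑ j ∈ P.biUnion (Sp.Kin R (slj B Q F)), f j := by
    rw [sum_biUnion]
    intro C hC C' hC' hne
    refine disjoint_left.2 fun j hj hj' => ?_
    obtain ⟨_, ⟨x, hx⟩, h2⟩ := mem_filter.1 hj
    obtain ⟨_, _, h3⟩ := mem_filter.1 hj'
    exact disjoint_left.1 (hP.ptn.dj C hC C' hC' hne) (h2 hx) (h3 hx)
  have hs1 : P.biUnion (Sp.Kin R (slj B Q F)) ⊆ T :=
    biUnion_subset.2 fun C _ => (filter_subset _ _).trans hR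
  have hs2 : Sp.T2 U (slf B F) R (slj B Q F) P ⊆ T \ P.biUnion (Sp.Kin R (slj B Q F)) := by
    intro j hj
    obtain ⟨hj1, hj2, hj3⟩ := mem_filter.1 (mem_filter.1 hj).1
    refine mem_sdiff.2 ⟨hR hj1, fun hj4 => ?_⟩
    obtain ⟨C, hC, hj5⟩ := mem_biUnion.1 hj4
    exact hj3 C hC (mem_filter.1 hj5).2.2
  rw [h1]
  have h2 := sum_sdiff (f := f) hs1
  have h3 := sum_sdiff (f := f) hs2
  unfold Trs
  linarith

/-- **the rent sum**. -/
theorem of_nodes (h : Frm B Q T U F) (hr : Reg B Q) (hsv : 0 ≤ sv B Q) (hR : R ⊆ T)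
    (hP : Sp.MinP F F U (slf B F) R (slj B Q F) P) {a : V → Finset (Finset V) → ℕ}
    (hs : ∀ u ∈ Sp.Ux U (slf B F) P, ∀ C ∈ P, 0 < a u C → C ∈ Sp.met P (slf B F u))
    (ht : ∀ u ∈ Sp.Ux U (slf B F) P, ∑ C ∈ P, a u C = 5 - uo B Q T U F u)
    (e X : ι → Finset (Finset V) → ℤ)
    (he : ∀ j ∈ Sp.T2 U (slf B F) R (slj B Q F) P, 140 + ∑ C ∈ P, e j C ≤ sT B Q T U F 15 j)
    (hX : ∀ j ∈ Trs B Q T R U F P, ∑ C ∈ P, X j C ≤ sT B Q T U F 15 j)
    (hn : ∀ C ∈ P, dmC B Q T R U F C ≤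
      ∑ j ∈ Sp.at2 U (slf B F) R (slj B Q F) P C, Sp.pay U (slf B F) (slj B Q F) P a j C +
      36 * (Sp.ld (Sp.Ux U (slf B F) P) a C : ℤ) +
      ∑ j ∈ Sp.T2 U (slf B F) R (slj B Q F) P, e j C + ∑ j ∈ Trs B Q T R U F P, X j C) :
    2 * (ee B Q Q : ℤ) ≤ Pv B Q := by
  have hg := h.gdT (R := R)
  have hUx : ∀ u ∈ Sp.Ux U (slf B F) P, u ∈ U := fun u hu => (mem_filter.1 hu).1
  refine h.of_totalP hr (by norm_num) le_rfl hsv ?_
  have h1 := hP.rent hg hs ht (fun u _ => Nat.sub_le _ _) (dmC B Q T R U F)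
    (fun C => ∑ j ∈ Trs B Q T R U F P, X j C) e hn
  have h2 : ∀ u ∈ Sp.Ux U (slf B F) P, (5 - ((5 - uo B Q T U F u : ℕ) : ℤ)) =
      uo B Q T U F u := by
    intro u hu
    have := h.uo_le hr (hUx u hu)
    omega
  have h3 : ∑ u ∈ Sp.Ux U (slf B F) P, (180 - (5 - ((5 - uo B Q T U F u : ℕ) : ℤ))) =
      ∑ u ∈ Sp.Ux U (slf B F) P, sU B Q T U F 15 u := by
    refine sum_congr rfl fun u hu => ?_
    rw [h2 u hu]
    unfold sU
    ring
  have h4 : (0 : ℤ) ≤ ∑ u ∈ Sp.Ux U (slf B F) P, (5 - ((5 - uo B Q T U F u : ℕ) : ℤ)) := by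
    refine sum_nonneg fun u hu => ?_
    rw [h2 u hu]
    positivity
  have h5 : ∑ C ∈ P, ∑ j ∈ Trs B Q T R U F P, X j C = ∑ j ∈ Trs B Q T R U F P, ∑ C ∈ P, X j C :=
    sum_comm
  have h6 := sum_le_sum he
  have h7 := sum_le_sum hX
  have h8 := sum_U hg hP (sU B Q T U F 15)
  have h9 := sum_T hP hR (sT B Q T U F 15)
  have h10 := sum_leaves hP (dm B Q T U 15)
  have h11 : ∑ C ∈ P, dmC B Q T R U F C = ∑ C ∈ P, ∑ L ∈ C, dm B Q T U 15 L -
      ∑ C ∈ P, ∑ u ∈ Sp.Uin U (slf B F) C, sU B Q T U F 15 u -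
      ∑ C ∈ P, ∑ j ∈ Sp.Kin R (slj B Q F) C, sT B Q T U F 15 j := by
    unfold dmC
    rw [sum_sub_distrib, sum_sub_distrib]
  rw [h3, h5] at h1
  rw [h8, h9, h10]
  linarith

/-- the standard receipts of a node. -/
theorem receipts (h : Frm B Q T U F) (hP : Sp.MinP F F U (slf B F) R (slj B Q F) P)
    (a : V → Finset (Finset V) → ℕ) (C : Finset (Finset V)) :
    70 * ((Sp.at2 U (slf B F) R (slj B Q F) P C).card : ℤ) +
        22 * (Sp.ld (Sp.Ux U (slf B F) P) a C : ℤ) ≤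
      ∑ j ∈ Sp.at2 U (slf B F) R (slj B Q F) P C, Sp.pay U (slf B F) (slj B Q F) P a j C +
        36 * (Sp.ld (Sp.Ux U (slf B F) P) a C : ℤ) :=
  hP.receipts (h.gdT (R := R)) C

end Frm

end Pool.Agent.Hyp6
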