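import Pool.Agent.Hyp6.L3Y3

/-!
# HYP6 L3Y4: the demand of a class

The hits on the leaves of a class come from the points and triples inside the class, from the crossing
points, from the line triples and from the remaining triples. The demand of a class and the number of
its free places in terms of these numbers.
-/

set_option autoImplicit false

namespace Pool.Agent.Hyp6

open Finset Pool.Agent.Hyp5 Rt

universe u v

variable {V : Type v} [DecidableEq V] {ι : Type u} [Fintype ι] [DecidableEq ι]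
  {B : ι → Finset V}

/-- the hits of a triple on a class. -/
def jC (B : ι → Finset V) (Q : Finset V) (j : ι) (C : Finset (Finset V)) : ℕ :=
  ∑ L ∈ C, jh B Q j L

/-- the hits of the crossing points on a class. -/
noncomputable def gC (B : ι → Finset V) (U : Finset V) (F : Finset (Finset V))
    (P : Finset (Finset (Finset V))) (C : Finset (Finset V)) : ℕ :=
  ∑ u ∈ Sp.Ux U (slf B F) P, uC B u C

namespace Frm

variable {Q U : Finset V} {T R : Finset ι} {F : Finset (Finset V)}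
  {P : Finset (Finset (Finset V))}

omit [DecidableEq ι] in
/-- a hit gives a seen leaf. -/
theorem slf_of_hit (h : Frm B Q T U F) {L : Finset V} (hL : L ∈ F) {p : V} (hp : p ∉ L)
    (h0 : hit B {p} L ≠ 0) : L ∈ slf B F p := by
  have _ := h.reg3
  rw [mem_slf]
  refine ⟨hL, ?_⟩
  unfold hit at h0
  obtain ⟨i, hi, hpos⟩ := exists_ne_zero_of_sum_ne_zero h0
  obtain ⟨w, hw⟩ := card_pos.1 (Nat.pos_of_ne_zero hpos)
  obtain ⟨hw1, hw2⟩ := mem_inter.1 hw
  rw [mem_singleton] at hw2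
  subst hw2
  obtain ⟨y, hy⟩ := cost_mem_tch.1 hi
  obtain ⟨hy1, hy2⟩ := mem_inter.1 hy
  exact ⟨y, hy2, fun he => hp (he ▸ hy2), i, hw1, hy1⟩

/-- the hits of an inside point. -/
theorem uC_in (h : Frm B Q T U F) (hr : Reg B Q) (hP : Sp.MinP F F U (slf B F) R (slj B Q F) P)
    {C : Finset (Finset V)} (hC : C ∈ P) {u : V} (hu : u ∈ Sp.Uin U (slf B F) C) :
    (uC B u C : ℤ) = 5 - uo B Q T U F u := by
  obtain ⟨huU, hs⟩ := mem_filter.1 hu
  have h1 := h.five_u hr huU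
  have h2 : ∑ L ∈ F, uh B u L = uC B u C := by
    unfold uC
    symm
    refine sum_subset (hP.ptn.vc C hC).sub fun L hL hLC => ?_
    by_contra h0
    exact hLC (hs (h.slf_of_hit hL (fun hc => disjoint_left.1 (h.ge.FU L hL) hc huU) h0))
  rw [h2] at h1
  omega

omit [DecidableEq ι] in
/-- a point inside another class has no hits. -/
theorem uC_out (h : Frm B Q T U F) (hP : Sp.MinP F F U (slf B F) R (slj B Q F) P)
    {C C' : Finset (Finset V)} (hC : C ∈ P) (hC' : C' ∈ P) (hne : C' ≠ C) {u : V}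
    (hu : u ∈ Sp.Uin U (slf B F) C') : uC B u C = 0 := by
  obtain ⟨huU, hs⟩ := mem_filter.1 hu
  unfold uC
  refine sum_eq_zero fun L hL => ?_
  by_contra h0
  have hLF : L ∈ F := (hP.ptn.vc C hC).sub hL
  exact disjoint_left.1 (hP.ptn.dj C' hC' C hC hne)
    (hs (h.slf_of_hit hLF (fun hc => disjoint_left.1 (h.ge.FU L hLF) hc huU) h0)) hL

/-- **the hits of the points of `U` on a class**. -/
theorem sum_hitU (h : Frm B Q T U F) (hr : Reg B Q)
    (hP : Sp.MinP F F U (slf B F) R (slj B Q F) P) {C : Finset (Finset V)} (hC : C ∈ P) :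
    ∑ L ∈ C, (hit B U L : ℤ) = 5 * ((Sp.Uin U (slf B F) C).card : ℤ) - lsC B Q T U F C +
      gC B U F P C := by
  have h1 : ∑ L ∈ C, (hit B U L : ℤ) = ∑ u ∈ U, (uC B u C : ℤ) := by
    unfold uC
    push_cast
    rw [sum_comm]
    refine sum_congr rfl fun L _ => ?_
    rw [hit_U_sum U L]
    unfold uh
    push_cast
    rfl
  rw [h1, sum_U (h.gdT (R := R)) hP]
  have h2 : ∑ C' ∈ P, ∑ u ∈ Sp.Uin U (slf B F) C', (uC B u C : ℤ) =
      ∑ u ∈ Sp.Uin U (slf B F) C, (uC B u C : ℤ) := by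
    refine sum_eq_single_of_mem C hC fun C' hC' hne => sum_eq_zero fun u hu => ?_
    rw [h.uC_out hP hC hC' hne hu]
    rfl
  rw [h2, sum_congr rfl fun u hu => h.uC_in hr hP hC hu, sum_sub_distrib, sum_const, nsmul_eq_mul]
  unfold lsC gC
  push_cast
  ring

omit [DecidableEq ι] in
/-- a hit of a triple gives a seen leaf. -/
theorem slj_of_hit (h : Frm B Q T U F) {L : Finset V} (hL : L ∈ F) {j : ι} (hj : j ∈ T)
    (h0 : jh B Q j L ≠ 0) : L ∈ slj B Q F j := by
  unfold jh hit at h0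
  obtain ⟨i, hi, hpos⟩ := exists_ne_zero_of_sum_ne_zero h0
  obtain ⟨w, hw⟩ := card_pos.1 (Nat.pos_of_ne_zero hpos)
  obtain ⟨hw1, hw2⟩ := mem_inter.1 hw
  unfold slj
  refine mem_biUnion.2 ⟨w, hw2, ?_⟩
  refine h.slf_of_hit hL (fun hc => ?_) ?_
  · exact (mem_sdiff.1 (h.FD hL hc)).2 (mem_biUnion.2 ⟨j, hj, (mem_inter.1 hw2).1⟩)
  · unfold hit
    have h1 : (B i ∩ {w}).card ≠ 0 := by
      rw [card_ne_zero]
      exact ⟨w, mem_inter.2 ⟨hw1, mem_singleton_self w⟩⟩
    intro h2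
    exact h1 (Finset.sum_eq_zero_iff.1 h2 i hi)

omit [DecidableEq ι] in
theorem jC_zero (h : Frm B Q T U F) (hP : Sp.MinP F F U (slf B F) R (slj B Q F) P)
    {C : Finset (Finset V)} (hC : C ∈ P) {j : ι} (hj : j ∈ T)
    (hn : C ∉ Sp.met P (slj B Q F j)) : jC B Q j C = 0 := by
  unfold jC
  refine sum_eq_zero fun L hL => ?_
  by_contra h0
  have hLF : L ∈ F := (hP.ptn.vc C hC).sub hL
  exact hn (Sp.mem_met.2 ⟨hC, not_disjoint_iff.2 ⟨L, h.slj_of_hit hLF hj h0, hL⟩⟩)

/-- the hits of an inside triple. -/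
theorem jC_in (h : Frm B Q T U F) (hr : Reg B Q) (hR : R ⊆ T)
    (hP : Sp.MinP F F U (slf B F) R (slj B Q F) P)
    {C : Finset (Finset V)} (hC : C ∈ P) {j : ι} (hj : j ∈ Sp.Kin R (slj B Q F) C) :
    (jC B Q j C : ℤ) = 12 - (jn B Q (Ep B Q T U F) j + jb B Q T U j) -
      ja B Q (Ep B Q T U F) j := by
  obtain ⟨hjR, _, hs⟩ := mem_filter.1 hj
  have h1 := h.twelve hr (hR hjR)
  have h2 : ∑ L ∈ F, jh B Q j L = jC B Q j C := by
    unfold jC
    symm
    refine sum_subset (hP.ptn.vc C hC).sub fun L hL hLC => ?_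
    by_contra h0
    exact hLC (hs (h.slj_of_hit hL (hR hjR) h0))
  rw [h2] at h1
  omega

omit [DecidableEq ι] in
theorem jC_out (h : Frm B Q T U F) (hR : R ⊆ T)
    (hP : Sp.MinP F F U (slf B F) R (slj B Q F) P) {C C' : Finset (Finset V)} (hC : C ∈ P)
    (hC' : C' ∈ P) (hne : C' ≠ C) {j : ι} (hj : j ∈ Sp.Kin R (slj B Q F) C') :
    jC B Q j C = 0 := by
  obtain ⟨hjR, _, hs⟩ := mem_filter.1 hj
  refine h.jC_zero hP hC (hR hjR) fun hm => ?_
  exact (Sp.mem_met.1 hm).2 ((hP.ptn.dj C' hC' C hC hne).mono_left hs)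

/-- **the hits of the triples on a class**. -/
theorem sum_hitT (h : Frm B Q T U F) (hr : Reg B Q) (hR : R ⊆ T)
    (hP : Sp.MinP F F U (slf B F) R (slj B Q F) P) {C : Finset (Finset V)} (hC : C ∈ P) :
    ∑ L ∈ C, ∑ j ∈ T, (jh B Q j L : ℤ) =
      ∑ j ∈ Sp.at2 U (slf B F) R (slj B Q F) P C, (jC B Q j C : ℤ) +
      ∑ j ∈ Sp.Kin R (slj B Q F) C, (12 - ((jn B Q (Ep B Q T U F) j : ℤ) + jb B Q T U j) -
        ja B Q (Ep B Q T U F) j) +
      ∑ j ∈ Trs B Q T R U F P, (jC B Q j C : ℤ) := by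
  have h1 : ∑ L ∈ C, ∑ j ∈ T, (jh B Q j L : ℤ) = ∑ j ∈ T, (jC B Q j C : ℤ) := by
    unfold jC
    push_cast
    rw [sum_comm]
  rw [h1, sum_T hP hR]
  have h2 : ∑ C' ∈ P, ∑ j ∈ Sp.Kin R (slj B Q F) C', (jC B Q j C : ℤ) =
      ∑ j ∈ Sp.Kin R (slj B Q F) C, (jC B Q j C : ℤ) := by
    refine sum_eq_single_of_mem C hC fun C' hC' hne => sum_eq_zero fun u hu => ?_
    rw [h.jC_out hR hP hC hC' hne hu]
    rfl
  have h3 : ∑ j ∈ Sp.T2 U (slf B F) R (slj B Q F) P, (jC B Q j C : ℤ) =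
      ∑ j ∈ Sp.at2 U (slf B F) R (slj B Q F) P C, (jC B Q j C : ℤ) := by
    symm
    refine sum_subset (filter_subset _ _) fun j hj hjn => ?_
    have hjR : j ∈ R := (mem_filter.1 (mem_filter.1 hj).1).1
    rw [h.jC_zero hP hC (hR hjR) fun hm => hjn (Sp.mem_at2.2 ⟨hj, ?_⟩)]
    · rfl
    · exact Sp.subset_clo Sp.met_subset hm
  rw [h2, h3, sum_congr rfl fun j hj => h.jC_in hr hR hP hC hj]

/-- the useless hits of the triples inside a class. -/
noncomputable def xC (B : ι → Finset V) (Q : Finset V) (T R : Finset ι) (U : Finset V)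
    (F C : Finset (Finset V)) : ℕ :=
  ∑ j ∈ Sp.Kin R (slj B Q F) C, (jn B Q (Ep B Q T U F) j + jb B Q T U j)

end Frm

open Frm

/-- the numbers of a class: `n` leaves, `p` inside points with `W` useless hits, `K` inside triples
with `X` useless hits, `t` hits of line triples, `g` hits of crossing points, `w` hits of the other
triples, `f` free places, `m` single traces, `e` double singles. -/
structure Cls (D n p K W X t g w f m e : ℤ) : Prop where
  dem : D = 180 * n - 18 * f - 3 * (m - (5 * p - W + g)) + 30 * e - 180 * p + W - 141 * K - 2 * X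
  plc : 9 * n ≤ t + w + (12 * K - X) + (5 * p - W + g) + f
  f0 : 4 * e ≤ f
  e0 : 0 ≤ e
  gm : 5 * p - W + g ≤ m
  nm : n ≤ m
  par : (m - n) % 2 = 0
  p0 : 0 ≤ p
  W0 : 0 ≤ W
  Wp : W ≤ 3 * p
  K0 : 0 ≤ K
  X0 : 0 ≤ X
  t0 : 0 ≤ t
  g0 : 0 ≤ g
  w0 : 0 ≤ w
  rk : 1 ≤ n - p
  dn : 2 * (n - p) - 2 ≤ K

namespace Frm

variable {Q U : Finset V} {T R : Finset ι} {F : Finset (Finset V)}
  {P : Finset (Finset (Finset V))}

omit [DecidableEq ι] in
/-- a leaf has at least nine places. -/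
theorem nine_places (h : Frm B Q T U F) (hr : Reg B Q) {L : Finset V} (hL : L ∈ F)
    (hp : 0 ≤ Pp B L) : 9 ≤ hc B L := by
  have h2 : ∀ i, (B i ∩ L).card ≤ 2 := by
    intro i
    rcases (B i ∩ L).eq_empty_or_nonempty with h0 | ⟨v, hv⟩
    · rw [h0, card_empty]
      exact Nat.zero_le _
    · obtain ⟨hv1, hv2⟩ := mem_inter.1 hv
      exact (card_le_card (inter_subset_inter_left (h.FD hL))).trans (h.two_leaf hL hv1 hv2)
  have h3 := five_Pp_leaf (hr.mono (h.FQ hL)) h2 (h.sv_leaf hL)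
  have h4 : 2 * (nt B L 1 : ℤ) ≤ hc B L := by
    rw [hc_sum (hr.mono (h.FQ hL))]
    have h5 : ∑ i ∈ trs B L 1, (3 - ((B i ∩ L).card : ℤ)) ≤
        ∑ i ∈ tch B L, (3 - ((B i ∩ L).card : ℤ)) := by
      refine sum_le_sum_of_subset_of_nonneg (fun i hi => ?_) fun i _ _ => ?_
      · rw [mem_trs] at hi
        exact cost_mem_tch.2 (card_pos.1 (by omega))
      · have := h2 i
        omega
    have h6 : ∑ i ∈ trs B L 1, (3 - ((B i ∩ L).card : ℤ)) = 2 * (nt B L 1 : ℤ) := by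
      rw [sum_congr rfl fun i hi => by rw [mem_trs.1 hi], sum_const, nsmul_eq_mul]
      unfold nt
      push_cast
      ring
    linarith
  omega

/-- **the numbers of a class**. -/
theorem cls (h : Frm B Q T U F) (hr : Reg B Q) (hR : R ⊆ T)
    (hRa : ∀ j ∈ R, ja B Q (Ep B Q T U F) j = 0)
    (hpF : ∀ L ∈ F, 0 ≤ Pp B L)
    (hP : Sp.MinP F F U (slf B F) R (slj B Q F) P) {C : Finset (Finset V)} (hC : C ∈ P) :
    Cls (dmC B Q T R U F C) C.card (Sp.Uin U (slf B F) C).card (Sp.Kin R (slj B Q F) C).card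
      (lsC B Q T U F C) (xC B Q T R U F C)
      (∑ j ∈ Sp.at2 U (slf B F) R (slj B Q F) P C, (jC B Q j C : ℤ)) (gC B U F P C)
      (∑ j ∈ Trs B Q T R U F P, (jC B Q j C : ℤ)) (∑ L ∈ C, fs B Q L)
      (∑ L ∈ C, (nt B L 1 : ℤ)) (∑ L ∈ C, (ee B Q L : ℤ)) := by
  have hCF : C ⊆ F := (hP.ptn.vc C hC).sub
  have hU := h.sum_hitU hr hP hC
  have hT := h.sum_hitT hr hR hP hC
  have hT2 : ∑ j ∈ Sp.Kin R (slj B Q F) C, (12 - ((jn B Q (Ep B Q T U F) j : ℤ) + jb B Q T U j) -
        ja B Q (Ep B Q T U F) j) = 12 * ((Sp.Kin R (slj B Q F) C).card : ℤ) - xC B Q T R U F C := by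
    have h1 : ∀ j ∈ Sp.Kin R (slj B Q F) C,
        (12 - ((jn B Q (Ep B Q T U F) j : ℤ) + jb B Q T U j) - ja B Q (Ep B Q T U F) j) =
        12 - ((jn B Q (Ep B Q T U F) j : ℤ) + jb B Q T U j) := by
      intro j hj
      rw [hRa j (mem_filter.1 hj).1]
      push_cast
      ring
    rw [sum_congr rfl h1, sum_sub_distrib, sum_const, nsmul_eq_mul]
    unfold xC
    push_cast
    ring
  have hpl : ∀ L ∈ C, hc B L = ∑ j ∈ T, (jh B Q j L : ℤ) + hit B U L + fs B Q L :=
    fun L hL => h.leaf_places hr (hCF hL)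
  have hpl2 := sum_congr (rfl : C = C) hpl
  rw [sum_add_distrib, sum_add_distrib, hT, hU, hT2] at hpl2
  have h9 : 9 * (C.card : ℤ) ≤ ∑ L ∈ C, hc B L := by
    have h1 := sum_le_sum fun L hL => h.nine_places hr (hCF hL) (hpF L (hCF hL))
    rw [sum_const, nsmul_eq_mul] at h1
    linarith
  have hdm : ∑ L ∈ C, dm B Q T U 15 L = 180 * (C.card : ℤ) - 18 * ∑ L ∈ C, fs B Q L -
      3 * (∑ L ∈ C, (nt B L 1 : ℤ) - ∑ L ∈ C, (hit B U L : ℤ)) + 30 * ∑ L ∈ C, (ee B Q L : ℤ) := by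
    rw [sum_congr rfl fun L hL => h.dm_eq hr 15 (hCF hL), sum_add_distrib, sum_sub_distrib,
      sum_sub_distrib, ← mul_sum, ← mul_sum, ← mul_sum, sum_sub_distrib, sum_const, nsmul_eq_mul]
    ring
  have hsU : ∑ u ∈ Sp.Uin U (slf B F) C, sU B Q T U F 15 u =
      180 * ((Sp.Uin U (slf B F) C).card : ℤ) - lsC B Q T U F C := by
    unfold sU lsC
    rw [sum_sub_distrib, sum_const, nsmul_eq_mul]
    push_cast
    ring
  have hsT : ∑ j ∈ Sp.Kin R (slj B Q F) C, sT B Q T U F 15 j =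
      141 * ((Sp.Kin R (slj B Q F) C).card : ℤ) + 2 * xC B Q T R U F C := by
    have h1 : ∀ j ∈ Sp.Kin R (slj B Q F) C, sT B Q T U F 15 j =
        141 + 2 * ((jn B Q (Ep B Q T U F) j : ℤ) + jb B Q T U j) := by
      intro j hj
      unfold sT
      rw [hRa j (mem_filter.1 hj).1]
      push_cast
      ring
    rw [sum_congr rfl h1, sum_add_distrib, sum_const, nsmul_eq_mul, ← mul_sum]
    unfold xC
    push_cast
    ring
  have hee : 4 * ∑ L ∈ C, (ee B Q L : ℤ) ≤ ∑ L ∈ C, fs B Q L := by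
    rw [mul_sum]
    exact sum_le_sum fun L hL => four_ee_le_fs (W := L) h.reg3
  have hgm : ∑ L ∈ C, (hit B U L : ℤ) ≤ ∑ L ∈ C, (nt B L 1 : ℤ) :=
    sum_le_sum fun L hL => by exact_mod_cast h.hitU_one (hCF hL)
  have hn1 : ∀ L ∈ C, 1 ≤ nt B L 1 ∧ nt B L 1 % 2 = 1 := by
    intro L hL
    have hLF := hCF hL
    have h2 : ∀ i, (B i ∩ L).card ≤ 2 := by
      intro i
      rcases (B i ∩ L).eq_empty_or_nonempty with h0 | ⟨v, hv⟩
      · rw [h0, card_empty]
        exact Nat.zero_le _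
      · obtain ⟨hv1, hv2⟩ := mem_inter.1 hv
        exact (card_le_card (inter_subset_inter_left (h.FD hLF))).trans (h.two_leaf hLF hv1 hv2)
    have h3 := nt1_mod (hr.mono (h.FQ hLF)) h2
    have h4 := odd_of_sv_neg_one (h.sv_leaf hLF)
    omega
  have hnm : (C.card : ℤ) ≤ ∑ L ∈ C, (nt B L 1 : ℤ) := by
    have h1 := sum_le_sum fun L hL => (hn1 L hL).1
    rw [sum_const, smul_eq_mul, mul_one] at h1
    exact_mod_cast h1
  have hpar : (∑ L ∈ C, (nt B L 1 : ℤ) - C.card) % 2 = 0 := by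
    have h1 : ∑ L ∈ C, (nt B L 1 : ℤ) - (C.card : ℤ) = ∑ L ∈ C, ((nt B L 1 : ℤ) - 1) := by
      rw [sum_sub_distrib, sum_const, nsmul_eq_mul]
      ring
    rw [h1]
    refine Int.emod_eq_zero_of_dvd (dvd_sum fun L hL => ?_)
    have := (hn1 L hL).2
    omega
  have hvc := hP.ptn.vc C hC
  have hdn := hvc.dens
  rw [inter_eq_left.2 hCF] at hdn
  have hW3 : (lsC B Q T U F C : ℤ) ≤ 3 * ((Sp.Uin U (slf B F) C).card : ℤ) := by
    unfold lsC
    push_cast
    have h1 : ∀ u ∈ Sp.Uin U (slf B F) C, (uo B Q T U F u : ℤ) ≤ 3 := by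
      intro u hu
      have huU := (mem_filter.1 hu).1
      have h2 := h.five_u hr huU
      have h3 := (h.gdT (R := R)).two_leaf huU
      rw [inter_eq_left.2 slf_sub] at h3
      have h4 : (slf B F u).card ≤ ∑ L ∈ F, uh B u L := by
        have h5 : ∑ L ∈ slf B F u, 1 ≤ ∑ L ∈ slf B F u, uh B u L := by
          refine sum_le_sum fun L hL => ?_
          obtain ⟨hLF, y, hy, hadj⟩ := mem_slf.1 hL
          obtain ⟨_, i, hi1, hi2⟩ := hadj
          unfold uh hit
          refine Nat.one_le_iff_ne_zero.2 fun h0 => ?_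
          have h6 := Finset.sum_eq_zero_iff.1 h0 i (cost_mem_tch.2 ⟨y, mem_inter.2 ⟨hi2, hy⟩⟩)
          rw [card_eq_zero] at h6
          exact notMem_empty u (h6 ▸ mem_inter.2 ⟨hi1, mem_singleton_self u⟩)
        rw [sum_const, smul_eq_mul, mul_one] at h5
        exact h5.trans (sum_le_sum_of_subset slf_sub)
      omega
    have h2 := sum_le_sum h1
    rw [sum_const, nsmul_eq_mul] at h2
    linarith
  have hrk : (1 : ℤ) ≤ C.card - (Sp.Uin U (slf B F) C).card := by
    rcases (Sp.Uin U (slf B F) C).eq_empty_or_nonempty with h0 | h0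
    · rw [h0, card_empty]
      have := card_pos.2 hvc.ne
      omega
    · have h1 := h.sur.sur _ (filter_subset _ _) h0
      have h2 : ((Sp.Uin U (slf B F) C).biUnion (slf B F) ∩ F).card ≤ C.card := by
        refine card_le_card (inter_subset_left.trans (biUnion_subset.2 fun u hu => ?_))
        exact (mem_filter.1 hu).2
      have h3 : (Sp.Uin U (slf B F) C).card + 1 ≤ C.card := h1.trans h2
      omega
  refine ⟨?_, ?_, hee, sum_nonneg fun _ _ => by positivity, ?_, hnm, hpar, by positivity,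
    by positivity, hW3, by positivity, by positivity, sum_nonneg fun _ _ => by positivity,
    by positivity, sum_nonneg fun _ _ => by positivity, hrk, ?_⟩
  · unfold dmC
    rw [hdm, hsU, hsT, hU]
    ring
  · linarith
  · linarith
  · linarith

end Frm

namespace Cls

variable {D n p K W X t g w f m e : ℤ}

/-- the demand of a class without free places. -/
theorem le (h : Cls D n p K W X t g w f m e) : D ≤ 180 * (n - p) - 141 * K + W := by
  obtain ⟨h1, h2, h3, h4, h5, h6, h7, h8, h9, h10, h11, h12, h13, h14, h15, h16, h17⟩ := h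
  omega

/-- **the demand of a class in terms of its hits**. -/
theorem seven (h : Cls D n p K W X t g w f m e) :
    7 * D ≤ 1233 * (n - p) - 951 * K + 3 * (t + w + g) - 17 * X := by
  obtain ⟨h1, h2, h3, h4, h5, h6, h7, h8, h9, h10, h11, h12, h13, h14, h15, h16, h17⟩ := h
  omega

/-- the demand of a class is at most `180 + W`. -/
theorem le180 (h : Cls D n p K W X t g w f m e) : D ≤ 180 + W := by
  have := h.le
  have := h.dn
  have := h.rk
  have := h.K0
  omega

end Cls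

end Pool.Agent.Hyp6
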