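import Pool.Agent.Hyp6.L3Y4

/-!
# HYP6 L3Y5: the rent sum with general lines, in fine units

The line of a triple which sees exactly two classes is this pair (without own points), the line of the
other crossing triples of rank two is the closure. The rent sum for a family of lines, with one
hypothesis for the sum of all supplies, in units `1 / 120`.
-/

set_option autoImplicit false

namespace Pool.Agent.Hyp6

open Finset

namespace Sp

section

variable {L : Type*} [DecidableEq L] {α : Type*} [DecidableEq α] {τ : Type*} [DecidableEq τ]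
variable {F : Finset L} {U : Finset α} {N : α → Finset L} {Ts : Finset τ} {NT : τ → Finset L}
  {P : Finset (Finset L)}

/-- families of lines: a line with `k + 2` classes has `k` own points, the own points of different
triples are different. -/
structure Lnf (U : Finset α) (N : α → Finset L) (P : Finset (Finset L)) (S : Finset τ)
    (l : τ → Finset (Finset L)) : Prop where
  sub : ∀ T ∈ S, l T ⊆ P
  card : ∀ T ∈ S, (l T).card = (UU U N P (l T)).card + 2
  disj : ∀ T ∈ S, ∀ T' ∈ S, T ≠ T' → Disjoint (UU U N P (l T)) (UU U N P (l T'))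

/-- the line of a triple: the pair of classes it sees, or the closure. -/
def lx (U : Finset α) (N : α → Finset L) (NT : τ → Finset L) (P : Finset (Finset L)) (T : τ) :
    Finset (Finset L) :=
  if (met P (NT T)).card = 2 then met P (NT T) else ln U N NT P T

omit [DecidableEq τ] in
theorem met_sub_lx {T : τ} : met P (NT T) ⊆ lx U N NT P T := by
  unfold lx
  split_ifs with h
  · exact Subset.refl _
  · exact subset_clo met_subset

omit [DecidableEq τ] in
theorem lx_sub_ln {T : τ} : lx U N NT P T ⊆ ln U N NT P T := by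
  unfold lx
  split_ifs with h
  · exact subset_clo met_subset
  · exact Subset.refl _

omit [DecidableEq τ] in
theorem lx_sub {T : τ} : lx U N NT P T ⊆ P := lx_sub_ln.trans clo_subset

omit [DecidableEq τ] in
theorem lx_eq {T : τ} (h : 3 ≤ (met P (NT T)).card) : lx U N NT P T = ln U N NT P T := by
  unfold lx
  rw [if_neg (by omega)]

omit [DecidableEq α] [DecidableEq τ] in
/-- the own points of a line see classes of the line only. -/
theorem UU_met (hg : Gd F F U N Ts NT) (h : MinP F F U N Ts NT P) {A : Finset (Finset L)}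
    (hA : A ⊆ P) {u : α} (hu : u ∈ UU U N P A) : met P (N u) ⊆ A := by
  obtain ⟨h1, h2⟩ := mem_filter.1 hu
  exact (h.ptn.sub_met (hg.NU u (mem_filter.1 h1).1) hA).1 h2

omit [DecidableEq α] in
theorem UU_sub {A : Finset (Finset L)} : UU U N P A ⊆ Ux U N P := filter_subset _ _

/-- a crossing point sees at least three classes. -/
theorem MinP.three_met (hg : Gd F F U N Ts NT) (h : MinP F F U N Ts NT P) {u : α}
    (hu : u ∈ Ux U N P) : 3 ≤ (met P (N u)).card := by
  have h1 := h.surplus hg (singleton_subset_iff.2 hu) (singleton_nonempty u)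
  rw [singleton_biUnion, card_singleton] at h1
  omega

/-- **the lines of the crossing triples**. -/
theorem MinP.lnf (hg : Gd F F U N Ts NT) (h : MinP F F U N Ts NT P) :
    Lnf U N P (T2 U N Ts NT P) (lx U N NT P) where
  sub := fun T _ => lx_sub
  card := by
    intro T hT
    by_cases h2 : (met P (NT T)).card = 2
    · have h3 : UU U N P (lx U N NT P T) = ∅ := by
        rw [eq_empty_iff_forall_notMem]
        intro u hu
        have h4 := UU_met hg h lx_sub hu
        have h5 := h.three_met hg (UU_sub hu)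
        have h6 := card_le_card h4
        unfold lx at h6
        rw [if_pos h2] at h6
        omega
      rw [h3, card_empty]
      unfold lx
      rw [if_pos h2, h2]
    · have h3 : lx U N NT P T = ln U N NT P T := by
        unfold lx
        rw [if_neg h2]
      rw [h3]
      exact h.ow_card hg hT
  disj := by
    intro T hT T' hT' hne
    have h1 := h.ow_disj hg hT hT' hne
    refine disjoint_left.2 fun u hu hu' => ?_
    have h2 : ∀ T'', u ∈ UU U N P (lx U N NT P T'') → u ∈ ow U N NT P T'' := by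
      intro T'' hu''
      obtain ⟨h3, h4⟩ := mem_filter.1 hu''
      exact mem_filter.2 ⟨h3, h4.trans (biUnion_subset_biUnion_of_subset_left _ lx_sub_ln)⟩
    exact disjoint_left.1 h1 (h2 T hu) (h2 T' hu')

variable {S : Finset τ} {l : τ → Finset (Finset L)} {a : α → Finset L → ℕ} {d : α → ℕ}

/-- the triples whose line contains a class. -/
def atl (S : Finset τ) (l : τ → Finset (Finset L)) (C : Finset L) : Finset τ :=
  S.filter (fun T => C ∈ l T)

omit [DecidableEq τ] in
theorem mem_atl {C : Finset L} {T : τ} : T ∈ atl S l C ↔ T ∈ S ∧ C ∈ l T := mem_filter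

/-- the units of the own points of a line at a class. -/
def owl (U : Finset α) (N : α → Finset L) (P : Finset (Finset L)) (l : τ → Finset (Finset L))
    (a : α → Finset L → ℕ) (T : τ) (C : Finset L) : ℕ := ld (UU U N P (l T)) a C

omit [DecidableEq τ] in
/-- the units of an own point are inside the line. -/
theorem owl_units (hg : Gd F F U N Ts NT) (h : MinP F F U N Ts NT P)
    (hs : ∀ u ∈ Ux U N P, ∀ C ∈ P, 0 < a u C → C ∈ met P (N u))
    (ht : ∀ u ∈ Ux U N P, ∑ C ∈ P, a u C = d u) (hl : Lnf U N P S l) {T : τ} (hT : T ∈ S) :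
    ∑ C ∈ l T, owl U N P l a T C = ∑ u ∈ UU U N P (l T), d u := by
  unfold owl ld
  rw [sum_comm]
  refine sum_congr rfl fun u hu => ?_
  rw [← ht u (UU_sub hu)]
  refine sum_subset (hl.sub T hT) fun C hC hCl => ?_
  by_contra h0
  exact hCl (UU_met hg h (hl.sub T hT) hu (hs u (UU_sub hu) C hC (Nat.pos_of_ne_zero h0)))

omit [DecidableEq τ] in
/-- the own units at a class are together at most its mass. -/
theorem owl_le (hl : Lnf U N P S l) (C : Finset L) :
    ∑ T ∈ atl S l C, owl U N P l a T C ≤ ld (Ux U N P) a C := by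
  unfold owl ld
  have h1 : ∑ T ∈ atl S l C, ∑ u ∈ UU U N P (l T), a u C =
      ∑ u ∈ (atl S l C).biUnion (fun T => UU U N P (l T)), a u C := by
    rw [sum_biUnion]
    intro T hT T' hT' hne
    exact hl.disj T (mem_atl.1 hT).1 T' (mem_atl.1 hT').1 hne
  rw [h1]
  exact sum_le_sum_of_subset (biUnion_subset.2 fun T _ => UU_sub)

omit [DecidableEq τ] in
/-- **the rent sum in units `1 / 120`**: `D` the demands of the classes, `e`, `X` the extra payments
of the line triples and of the other payers. -/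
theorem rent8 (hg : Gd F F U N Ts NT) (h : MinP F F U N Ts NT P)
    (hs : ∀ u ∈ Ux U N P, ∀ C ∈ P, 0 < a u C → C ∈ met P (N u))
    (ht : ∀ u ∈ Ux U N P, ∑ C ∈ P, a u C = d u) (hd : ∀ u ∈ Ux U N P, d u ≤ 5)
    (hl : Lnf U N P S l) (D X : Finset L → ℤ) (e : τ → Finset L → ℤ)
    (hn : ∀ C ∈ P, 8 * D C ≤ 8 * ∑ T ∈ atl S l C, (70 - 14 * (owl U N P l a T C : ℤ)) +
      288 * (ld (Ux U N P) a C : ℤ) + ∑ T ∈ S, e T C + X C) :
    8 * ∑ C ∈ P, D C + 168 * ∑ T ∈ S, ∑ u ∈ UU U N P (l T), (5 - (d u : ℤ)) ≤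
      ∑ T ∈ S, (1120 + ∑ C ∈ P, e T C) +
        8 * ∑ u ∈ Ux U N P, (180 - (5 - (d u : ℤ))) + ∑ C ∈ P, X C := by
  have h1 := sum_le_sum hn
  rw [sum_add_distrib, sum_add_distrib, sum_add_distrib, ← mul_sum, ← mul_sum, ← mul_sum] at h1
  have h2 : ∑ C ∈ P, ∑ T ∈ atl S l C, (70 - 14 * (owl U N P l a T C : ℤ)) =
      ∑ T ∈ S, ∑ C ∈ l T, (70 - 14 * (owl U N P l a T C : ℤ)) := by
    unfold atl
    simp_rw [sum_filter]
    rw [sum_comm]
    refine sum_congr rfl fun T hT => ?_
    rw [← sum_filter]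
    congr 1
    ext C
    rw [mem_filter]
    exact ⟨fun hC => hC.2, fun hC => ⟨hl.sub T hT hC, hC⟩⟩
  have h3 : ∑ T ∈ S, ∑ C ∈ l T, (70 - 14 * (owl U N P l a T C : ℤ)) =
      ∑ T ∈ S, (140 + 14 * ∑ u ∈ UU U N P (l T), (5 - (d u : ℤ))) := by
    refine sum_congr rfl fun T hT => ?_
    have h4 := owl_units hg h hs ht hl hT
    have h5 := hl.card T hT
    rw [sum_sub_distrib, sum_const, nsmul_eq_mul, ← mul_sum, sum_sub_distrib, sum_const,
      nsmul_eq_mul]
    have h6 : ∑ C ∈ l T, (owl U N P l a T C : ℤ) = ∑ u ∈ UU U N P (l T), (d u : ℤ) := by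
      exact_mod_cast h4
    have h7 : ((l T).card : ℤ) = (UU U N P (l T)).card + 2 := by exact_mod_cast h5
    rw [h6, h7]
    ring
  have h4 : ∑ C ∈ P, (ld (Ux U N P) a C : ℤ) = ∑ u ∈ Ux U N P, (d u : ℤ) := by
    have h5 : ∑ C ∈ P, ld (Ux U N P) a C = ∑ u ∈ Ux U N P, d u := by
      unfold ld
      rw [sum_comm]
      exact sum_congr rfl fun u hu => ht u hu
    exact_mod_cast h5
  have h5 : ∑ C ∈ P, ∑ T ∈ S, e T C = ∑ T ∈ S, ∑ C ∈ P, e T C := sum_comm
  have h6 : ∑ T ∈ S, ∑ u ∈ UU U N P (l T), (5 - (d u : ℤ)) ≤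
      ∑ u ∈ Ux U N P, (5 - (d u : ℤ)) := by
    have h7 : ∑ T ∈ S, ∑ u ∈ UU U N P (l T), (5 - (d u : ℤ)) =
        ∑ u ∈ S.biUnion (fun T => UU U N P (l T)), (5 - (d u : ℤ)) := by
      rw [sum_biUnion]
      intro T hT T' hT' hne
      exact hl.disj T hT T' hT' hne
    rw [h7]
    refine sum_le_sum_of_subset_of_nonneg (biUnion_subset.2 fun T _ => UU_sub) fun u hu _ => ?_
    have := hd u hu
    omega
  rw [h2, h3, h4, h5, sum_add_distrib, sum_const, nsmul_eq_mul, ← mul_sum] at h1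
  rw [sum_add_distrib, sum_const, nsmul_eq_mul]
  have h8 : ∑ u ∈ Ux U N P, (180 - (5 - (d u : ℤ))) = 36 * ∑ u ∈ Ux U N P, (d u : ℤ) +
      35 * ∑ u ∈ Ux U N P, (5 - (d u : ℤ)) := by
    rw [mul_sum, mul_sum, ← sum_add_distrib]
    exact sum_congr rfl fun u _ => by ring
  rw [h8]
  linarith

end

end Sp

universe u v

open Pool.Agent.Hyp5 Rt

variable {V : Type v} [DecidableEq V] {ι : Type u} [Fintype ι] [DecidableEq ι]
  {B : ι → Finset V}

namespace Frm

variable {Q U : Finset V} {T R : Finset ι} {F : Finset (Finset V)}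
  {P : Finset (Finset (Finset V))}

theorem lnf (h : Frm B Q T U F) (hP : Sp.MinP F F U (slf B F) R (slj B Q F) P) :
    Sp.Lnf U (slf B F) P (Sp.T2 U (slf B F) R (slj B Q F) P) (Sp.lx U (slf B F) (slj B Q F) P) :=
  hP.lnf (h.gdT (R := R))

/-- **the rent sum, fine units, one hypothesis for all supplies**. -/
theorem of_nodes8 (h : Frm B Q T U F) (hr : Reg B Q) (hsv : 0 ≤ sv B Q) (hR : R ⊆ T)
    (hP : Sp.MinP F F U (slf B F) R (slj B Q F) P) {a : V → Finset (Finset V) → ℕ}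
    (hs : ∀ u ∈ Sp.Ux U (slf B F) P, ∀ C ∈ P, 0 < a u C → C ∈ Sp.met P (slf B F u))
    (ht : ∀ u ∈ Sp.Ux U (slf B F) P, ∑ C ∈ P, a u C = 5 - uo B Q T U F u)
    {l : ι → Finset (Finset (Finset V))}
    (hl : Sp.Lnf U (slf B F) P (Sp.T2 U (slf B F) R (slj B Q F) P) l)
    (e X : ι → Finset (Finset V) → ℤ)
    (hsum : ∑ j ∈ Sp.T2 U (slf B F) R (slj B Q F) P, (1120 + ∑ C ∈ P, e j C) +
        ∑ j ∈ Trs B Q T R U F P, ∑ C ∈ P, X j C ≤
      8 * (∑ j ∈ Sp.T2 U (slf B F) R (slj B Q F) P, sT B Q T U F 15 j +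
        ∑ j ∈ Trs B Q T R U F P, sT B Q T U F 15 j) +
      168 * ∑ j ∈ Sp.T2 U (slf B F) R (slj B Q F) P,
        ∑ u ∈ Sp.UU U (slf B F) P (l j), (uo B Q T U F u : ℤ) + 112)
    (hn : ∀ C ∈ P, 8 * dmC B Q T R U F C ≤
      8 * ∑ j ∈ Sp.atl (Sp.T2 U (slf B F) R (slj B Q F) P) l C,
        (70 - 14 * (Sp.owl U (slf B F) P l a j C : ℤ)) +
      288 * (Sp.ld (Sp.Ux U (slf B F) P) a C : ℤ) +
      ∑ j ∈ Sp.T2 U (slf B F) R (slj B Q F) P, e j C + ∑ j ∈ Trs B Q T R U F P, X j C) :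
    2 * (ee B Q Q : ℤ) ≤ Pv B Q := by
  have hg := h.gdT (R := R)
  have hUx : ∀ u ∈ Sp.Ux U (slf B F) P, u ∈ U := fun u hu => (mem_filter.1 hu).1
  refine h.of_totalP hr (by norm_num) le_rfl hsv ?_
  have h1 := Sp.rent8 hg hP hs ht (fun u _ => Nat.sub_le _ _) hl (dmC B Q T R U F)
    (fun C => ∑ j ∈ Trs B Q T R U F P, X j C) e hn
  have h2 : ∀ u ∈ Sp.Ux U (slf B F) P, (5 - ((5 - uo B Q T U F u : ℕ) : ℤ)) =
      uo B Q T U F u := by
    intro u hu
    have := h.uo_le hr (hUx u hu)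
    omega
  have h3 : ∑ u ∈ Sp.Ux U (slf B F) P, (180 - (5 - ((5 - uo B Q T U F u : ℕ) : ℤ))) =
      ∑ u ∈ Sp.Ux U (slf B F) P, sU B Q T U F 15 u := by
    refine sum_congr rfl fun u hu => ?_
    rw [h2 u hu]
    unfold sU
    ring
  have h4 : ∑ j ∈ Sp.T2 U (slf B F) R (slj B Q F) P,
      ∑ u ∈ Sp.UU U (slf B F) P (l j), (5 - ((5 - uo B Q T U F u : ℕ) : ℤ)) =
      ∑ j ∈ Sp.T2 U (slf B F) R (slj B Q F) P,
        ∑ u ∈ Sp.UU U (slf B F) P (l j), (uo B Q T U F u : ℤ) :=
    sum_congr rfl fun j _ => sum_congr rfl fun u hu => h2 u (Sp.UU_sub hu)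
  have h5 : ∑ C ∈ P, ∑ j ∈ Trs B Q T R U F P, X j C = ∑ j ∈ Trs B Q T R U F P, ∑ C ∈ P, X j C :=
    sum_comm
  have h8 := sum_U hg hP (sU B Q T U F 15)
  have h9 := sum_T hP hR (sT B Q T U F 15)
  have h10 := sum_leaves hP (dm B Q T U 15)
  have h11 : ∑ C ∈ P, dmC B Q T R U F C = ∑ C ∈ P, ∑ L ∈ C, dm B Q T U 15 L -
      ∑ C ∈ P, ∑ u ∈ Sp.Uin U (slf B F) C, sU B Q T U F 15 u -
      ∑ C ∈ P, ∑ j ∈ Sp.Kin R (slj B Q F) C, sT B Q T U F 15 j := by
    unfold dmC
    rw [sum_sub_distrib, sum_sub_distrib]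
  rw [h3, h4, h5] at h1
  rw [h8, h9, h10]
  linarith

end Frm

end Pool.Agent.Hyp6
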