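import Pool.Agent.Hyp6.L3Fq
import Pool.Agent.Hyp6.L3Rd6

/-!
# HYP6 L3Y6: the numbers of a class in the setting, full classes

`NmY`: the numbers of a class with the exact number of places. `cstY`: what a class needs before the
standard payments of the line triples. `Stg.full_cst`: a full class needs at most `- 280` for every
useless hit of its inside points.
-/

set_option autoImplicit false

namespace Pool.Agent.Hyp6

open Finset Pool.Agent.Hyp5 Rt

universe u v

variable {V : Type v} [DecidableEq V] {ι : Type u} [Fintype ι] [DecidableEq ι]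
  {B : ι → Finset V}

/-- the numbers of a class: `n` leaves, `p` inside points with `W` useless hits, `K` inside triples
with `X` useless hits, `t` hits of line triples, `g` hits of crossing points, `w` hits of the other
triples, `f` free places, `e` double singles, `N` single traces, `M` points; `D` is the demand. -/
structure NmY (D n p K W X t w g f e N M : ℤ) : Prop where
  dem : 8 * D = 1440 * (n - p) + 120 * p - 16 * W + 24 * g - 24 * N - 144 * f + 240 * e -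
    1128 * K - 16 * X
  plc : 2 * (t + w + g + f + (5 * p - W) + (12 * K - X)) = 3 * N + 5 * M
  f0 : 4 * e ≤ f
  e0 : 0 ≤ e
  gm : 5 * p - W + g ≤ N
  nN : n ≤ N
  nM : n ≤ M
  pN : (N - n) % 2 = 0
  pM : (M - n) % 2 = 0
  lf : 7 * n ≤ 2 * M + N
  lp : 11 * n ≤ 3 * M + 2 * N
  p0 : 0 ≤ p
  W0 : 0 ≤ W
  Wp : W ≤ 3 * p
  K0 : 0 ≤ K
  X0 : 0 ≤ X
  t0 : 0 ≤ t
  g0 : 0 ≤ g
  w0 : 0 ≤ w
  rk : 1 ≤ n - p
  dn : 2 * (n - p) - 2 ≤ K

/-- what a class needs before the standard payments of the line triples. -/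
noncomputable def cstY (v : ℤ) (B : ι → Finset V) (Q : Finset V) (T : Finset ι) (U : Finset V)
    (F : Finset (Finset V)) (P : Finset (Finset (Finset V))) (a : V → Finset (Finset V) → ℕ)
    (t : ι → ℤ) (C : Finset (Finset V)) : ℤ :=
  8 * dmC B Q T (Rg B Q T U F) U F C - 288 * (Sp.ld (Sp.Ux U (slf B F) P) a C : ℤ) -
    ∑ j ∈ Trs B Q T (Rg B Q T U F) U F P, Xv v B Q T U F P j C - tK B Q (Rg B Q T U F) F t C

namespace Stg

variable {Q U : Finset V} {T : Finset ι} {F : Finset (Finset V)}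
  {P : Finset (Finset (Finset V))} {a : V → Finset (Finset V) → ℕ}

/-- the need of a class in terms of `cstY`. -/
theorem ndC_cst (_s : Stg B Q T U F P a) {v : ℤ} {t : ι → ℤ} {C : Finset (Finset V)} :
    ndC v B Q T U F P a t C = cstY v B Q T U F P a t C -
      ∑ j ∈ aC B Q T U F P C, (560 - 112 * (owj B Q U F P a j C : ℤ)) := by
  unfold ndC msC mis cstY
  have h1 : (8 : ℤ) * ∑ j ∈ Sp.atl (Sp.T2 U (slf B F) (Rg B Q T U F) (slj B Q F) P)
      (lj B Q U F P) C, (70 - 14 * (Sp.owl U (slf B F) P (lj B Q U F P) a j C : ℤ)) =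
      ∑ j ∈ aC B Q T U F P C, (560 - 112 * (owj B Q U F P a j C : ℤ)) := by
    rw [mul_sum]
    exact sum_congr rfl fun j _ => by ring
  rw [h1]
  ring

/-- the places of a leaf. -/
theorem leaf_slot (s : Stg B Q T U F P a) {L : Finset V} (hL : L ∈ F) :
    2 * (∑ j ∈ T, (jh B Q j L : ℤ) + hit B U L + fs B Q L) = 3 * nt B L 1 + 5 * L.card := by
  have h1 := s.one hL
  have h2 := h1.slot
  have h3 := h1.pp
  linarith

/-- **the numbers of a class**. -/
theorem nm (s : Stg B Q T U F P a) {C : Finset (Finset V)} (hC : C ∈ P) :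
    NmY (dmC B Q T (Rg B Q T U F) U F C) C.card (Sp.Uin U (slf B F) C).card
      (Sp.Kin (Rg B Q T U F) (slj B Q F) C).card (lsC B Q T U F C)
      (Frm.xC B Q T (Rg B Q T U F) U F C)
      (∑ j ∈ Sp.at2 U (slf B F) (Rg B Q T U F) (slj B Q F) P C, (jC B Q j C : ℤ))
      (∑ j ∈ Trs B Q T (Rg B Q T U F) U F P, (jC B Q j C : ℤ)) (gC B U F P C)
      (∑ L ∈ C, fs B Q L) (∑ L ∈ C, (ee B Q L : ℤ)) (∑ L ∈ C, (nt B L 1 : ℤ))
      (∑ L ∈ C, (L.card : ℤ)) := by
  have hCF : C ⊆ F := (s.part.ptn.vc C hC).sub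
  obtain ⟨c1, c2, c3, c4, c5, c6, c7, c8, c9, c10, c11, c12, c13, c14, c15, c16, c17⟩ := s.cls hC
  have hU := s.frm.sum_hitU s.viol.reg s.part hC
  have hT := s.frm.sum_hitT s.viol.reg Rg_sub s.part hC
  have hT2 : ∑ j ∈ Sp.Kin (Rg B Q T U F) (slj B Q F) C,
      (12 - ((jn B Q (Ep B Q T U F) j : ℤ) + jb B Q T U j) - ja B Q (Ep B Q T U F) j) =
      12 * ((Sp.Kin (Rg B Q T U F) (slj B Q F) C).card : ℤ) -
        Frm.xC B Q T (Rg B Q T U F) U F C := by
    have h1 : ∀ j ∈ Sp.Kin (Rg B Q T U F) (slj B Q F) C,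
        (12 - ((jn B Q (Ep B Q T U F) j : ℤ) + jb B Q T U j) - ja B Q (Ep B Q T U F) j) =
        12 - ((jn B Q (Ep B Q T U F) j : ℤ) + jb B Q T U j) := by
      intro j hj
      rw [(mem_Rg.1 (mem_filter.1 hj).1).2.1]
      push_cast
      ring
    rw [sum_congr rfl h1, sum_sub_distrib, sum_const, nsmul_eq_mul]
    unfold Frm.xC
    push_cast
    ring
  rw [hT2] at hT
  have hsl : ∑ L ∈ C, 2 * (∑ j ∈ T, (jh B Q j L : ℤ) + hit B U L + fs B Q L) =
      ∑ L ∈ C, (3 * (nt B L 1 : ℤ) + 5 * L.card) :=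
    sum_congr rfl fun L hL => s.leaf_slot (hCF hL)
  rw [← mul_sum, sum_add_distrib, sum_add_distrib, hT, hU, sum_add_distrib, ← mul_sum,
    ← mul_sum] at hsl
  have hM : ∀ L ∈ C, 1 ≤ (L.card : ℤ) ∧ (L.card : ℤ) % 2 = 1 ∧ 7 ≤ 2 * (L.card : ℤ) + nt B L 1 ∧
      11 ≤ 3 * (L.card : ℤ) + 2 * nt B L 1 := by
    intro L hL
    have h1 := s.one (hCF hL)
    have h2 := h1.p0
    have h3 := h1.e0
    have h4 := h1.pp
    have h5 := h1.m1
    have h6 := h1.mo
    have h7 := h1.n1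
    have h8 := h1.pt
    refine ⟨h5, h6, ?_, by linarith⟩
    rcases h5.eq_or_lt with h9 | h9
    · have := h8 h9.symm
      omega
    · omega
  have hN : ∀ L ∈ C, (nt B L 1 : ℤ) % 2 = 1 := fun L hL => (s.one (hCF hL)).no
  have hMn : (C.card : ℤ) ≤ ∑ L ∈ C, (L.card : ℤ) := by
    have h1 := sum_le_sum fun L hL => (hM L hL).1
    rw [sum_const, nsmul_eq_mul, mul_one] at h1
    exact h1
  have h7 : 7 * (C.card : ℤ) ≤ 2 * ∑ L ∈ C, (L.card : ℤ) + ∑ L ∈ C, (nt B L 1 : ℤ) := by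
    have h1 := sum_le_sum fun L hL => (hM L hL).2.2.1
    rw [sum_const, nsmul_eq_mul, sum_add_distrib, ← mul_sum] at h1
    linarith
  have h11 : 11 * (C.card : ℤ) ≤ 3 * ∑ L ∈ C, (L.card : ℤ) + 2 * ∑ L ∈ C, (nt B L 1 : ℤ) := by
    have h1 := sum_le_sum fun L hL => (hM L hL).2.2.2
    rw [sum_const, nsmul_eq_mul, sum_add_distrib, ← mul_sum, ← mul_sum] at h1
    linarith
  have hpar : ∀ x : Finset V → ℤ, (∀ L ∈ C, x L % 2 = 1) → (∑ L ∈ C, x L - C.card) % 2 = 0 := by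
    intro x hx
    have h1 : ∑ L ∈ C, x L - (C.card : ℤ) = ∑ L ∈ C, (x L - 1) := by
      rw [sum_sub_distrib, sum_const, nsmul_eq_mul]
      ring
    rw [h1]
    refine Int.emod_eq_zero_of_dvd (dvd_sum fun L hL => ?_)
    have := hx L hL
    omega
  refine ⟨?_, ?_, c3, c4, by linarith, c6, hMn, c7, hpar _ fun L hL => (hM L hL).2.1, h7, h11, c8,
    c9, c10, c11, c12, c13, c14, c15, c16, c17⟩
  · rw [c1]
    ring
  · linarith

/-- **a full class needs nothing**, with any number of line triples. -/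
theorem full_cst (s : Stg B Q T U F P a) {v : ℤ} (hv : 0 ≤ v) {C : Finset (Finset V)}
    (hC : C ∈ P) (hf : Ful B Q T U F P a C) {t : ι → ℤ}
    (ht : ∀ k ∈ T, -408 ≤ t k + 16 * ((jn B Q (Ep B Q T U F) k : ℤ) + jb B Q T U k)) :
    cstY v B Q T U F P a t C ≤ -280 * (lsC B Q T U F C : ℤ) := by
  have hX : 0 ≤ ∑ j ∈ Trs B Q T (Rg B Q T U F) U F P, Xv v B Q T U F P j C :=
    sum_nonneg fun j hj => s.Xv_nonneg hv hj hC
  have hK : -408 * ((Sp.Kin (Rg B Q T U F) (slj B Q F) C).card : ℤ) ≤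
      tK B Q (Rg B Q T U F) F t C + 16 * (Frm.xC B Q T (Rg B Q T U F) U F C : ℤ) := by
    unfold tK Frm.xC
    have h3 : ∑ j ∈ Sp.Kin (Rg B Q T U F) (slj B Q F) C, (-408 : ℤ) ≤
        ∑ k ∈ Sp.Kin (Rg B Q T U F) (slj B Q F) C,
          (t k + 16 * ((jn B Q (Ep B Q T U F) k : ℤ) + jb B Q T U k)) :=
      sum_le_sum fun k hk => ht k (s.kin.1 hk).1
    rw [sum_const, nsmul_eq_mul, sum_add_distrib, ← mul_sum] at h3
    push_cast
    linarith
  obtain ⟨c1, c2, c3, c4, c5, c6, c7, c8, c9, c10, c11, c12, c13, c14, c15, c16, c17⟩ := s.cls hC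
  unfold cstY
  rw [show Sp.ld (Sp.Ux U (slf B F) P) a C = 5 + lsC B Q T U F C from hf]
  push_cast
  linarith

/-- the units above five of the lines are at most the useless hits, at a full class. -/
theorem full_own (s : Stg B Q T U F P a) {C : Finset (Finset V)} (hf : Ful B Q T U F P a C) :
    ∑ j ∈ aC B Q T U F P C, max ((owj B Q U F P a j C : ℤ) - 5) 0 ≤ lsC B Q T U F C := by
  have h1 := s.own_le (C := C)
  rw [show Sp.ld (Sp.Ux U (slf B F) P) a C = 5 + lsC B Q T U F C from hf] at h1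
  by_cases h2 : ∃ j ∈ aC B Q T U F P C, 5 ≤ owj B Q U F P a j C
  · obtain ⟨j, hj, hj5⟩ := h2
    rw [← add_sum_erase _ _ hj] at h1 ⊢
    have h3 : ∑ i ∈ (aC B Q T U F P C).erase j, max ((owj B Q U F P a i C : ℤ) - 5) 0 ≤
        ∑ i ∈ (aC B Q T U F P C).erase j, (owj B Q U F P a i C : ℤ) :=
      sum_le_sum fun i _ => max_le (by linarith) (by positivity)
    have h4 : max ((owj B Q U F P a j C : ℤ) - 5) 0 = (owj B Q U F P a j C : ℤ) - 5 :=
      max_eq_left (by
        have : (5 : ℤ) ≤ owj B Q U F P a j C := by exact_mod_cast hj5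
        linarith)
    have h5 : (owj B Q U F P a j C : ℤ) +
        ∑ i ∈ (aC B Q T U F P C).erase j, (owj B Q U F P a i C : ℤ) ≤ 5 + lsC B Q T U F C := by
      exact_mod_cast h1
    rw [h4]
    linarith
  · push Not at h2
    have h3 : ∑ j ∈ aC B Q T U F P C, max ((owj B Q U F P a j C : ℤ) - 5) 0 = 0 := by
      refine sum_eq_zero fun j hj => max_eq_right ?_
      have : (owj B Q U F P a j C : ℤ) < 5 := by exact_mod_cast h2 j hj
      linarith
    rw [h3]
    positivity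

/-- **full classes**: everything can be given back to the lines. -/
theorem full_node (s : Stg B Q T U F P a) {v : ℤ} (hv : 0 ≤ v) {C : Finset (Finset V)}
    (hC : C ∈ P) (hf : Ful B Q T U F P a C) {t : ι → ℤ}
    (ht : ∀ k ∈ T, -408 ≤ t k + 16 * ((jn B Q (Ep B Q T U F) k : ℤ) + jb B Q T U k))
    {c : ι → ℤ} (hc : ∀ j ∈ aC B Q T U F P C, -(560 - 112 * (owj B Q U F P a j C : ℤ)) -
      280 * max ((owj B Q U F P a j C : ℤ) - 5) 0 ≤ c j) :
    ndC v B Q T U F P a t C ≤ ∑ j ∈ aC B Q T U F P C, c j := by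
  have h1 := s.full_cst hv hC hf ht
  have h2 := s.full_own hf
  have h3 := sum_le_sum hc
  rw [sum_sub_distrib, ← mul_sum, sum_neg_distrib] at h3
  rw [s.ndC_cst]
  linarith

end Stg

end Pool.Agent.Hyp6
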