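import Pool.Agent.Hyp6.L3Fin
import Pool.Agent.Hyp6.L3Y8

/-!
# HYP6 L3Y9: the assembly with transfers

`Frm.fin_tr`: the assembly `Frm.fin` with transfers `t` between the triples (sum at most
`160 * #bt2`): the supply of `j` is `8 sT j + t j`, the transfers of the inside triples of a class
belong to the class.
-/

set_option autoImplicit false

namespace Pool.Agent.Hyp6

open Finset Pool.Agent.Hyp5 Rt

universe u v

variable {V : Type v} [DecidableEq V] {ι : Type u} [Fintype ι] [DecidableEq ι]
  {B : ι → Finset V}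

/-- the transfers of the inside triples of a class. -/
noncomputable def tK (B : ι → Finset V) (Q : Finset V) (R : Finset ι) (F : Finset (Finset V))
    (t : ι → ℤ) (C : Finset (Finset V)) : ℤ := ∑ j ∈ Sp.Kin R (slj B Q F) C, t j

namespace Frm

variable {Q U : Finset V} {T R : Finset ι} {F : Finset (Finset V)}
  {P : Finset (Finset (Finset V))}

/-- **the assembly with transfers**. -/
theorem fin_tr (h : Frm B Q T U F) (hr : Reg B Q) (hsv : 0 ≤ sv B Q) (hR : R ⊆ T)
    (hP : Sp.MinP F F U (slf B F) R (slj B Q F) P) {a : V → Finset (Finset V) → ℕ}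
    (hs : ∀ u ∈ Sp.Ux U (slf B F) P, ∀ C ∈ P, 0 < a u C → C ∈ Sp.met P (slf B F u))
    (ht : ∀ u ∈ Sp.Ux U (slf B F) P, ∑ C ∈ P, a u C = 5 - uo B Q T U F u)
    {l : ι → Finset (Finset (Finset V))}
    (hl : Sp.Lnf U (slf B F) P (Sp.T2 U (slf B F) R (slj B Q F) P) l)
    (X clm : ι → Finset (Finset V) → ℤ) (t : ι → ℤ)
    (htr : ∑ j ∈ T, t j ≤ 160 * ((bt2 B Q T U).card : ℤ))
    (HX : ∑ j ∈ Trs B Q T R U F P, ∑ C ∈ P, X j C ≤
      ∑ j ∈ Trs B Q T R U F P, (8 * sT B Q T U F 15 j + t j) + 112)
    (H0 : ∀ C ∈ P, (Sp.atl (Sp.T2 U (slf B F) R (slj B Q F) P) l C).card = 0 →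
      mis B Q T R U F P a l X C ≤ tK B Q R F t C)
    (HN : ∀ C ∈ P, 2 ≤ (Sp.atl (Sp.T2 U (slf B F) R (slj B Q F) P) l C).card →
      mis B Q T R U F P a l X C ≤
        ∑ j ∈ Sp.atl (Sp.T2 U (slf B F) R (slj B Q F) P) l C, clm j C + tK B Q R F t C)
    (HL : ∀ j ∈ Sp.T2 U (slf B F) R (slj B Q F) P,
      ∑ C ∈ (l j).filter (fun C =>
          (Sp.atl (Sp.T2 U (slf B F) R (slj B Q F) P) l C).card = 1),
        (mis B Q T R U F P a l X C - tK B Q R F t C) +
      ∑ C ∈ (l j).filter (fun C =>
          2 ≤ (Sp.atl (Sp.T2 U (slf B F) R (slj B Q F) P) l C).card), clm j C ≤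
        8 * sT B Q T U F 15 j + t j - 1120 +
          168 * ∑ u ∈ Sp.UU U (slf B F) P (l j), (uo B Q T U F u : ℤ)) :
    2 * (ee B Q Q : ℤ) ≤ Pv B Q := by
  set Tl := Sp.T2 U (slf B F) R (slj B Q F) P with hTl
  set e : ι → Finset (Finset V) → ℤ := fun j C =>
    if C ∈ l j then (if (Sp.atl Tl l C).card = 1 then
      mis B Q T R U F P a l X C - tK B Q R F t C else clm j C) else 0 with he
  refine h.of_nodes8t hr hsv hR hP hs ht hl e X t htr ?_ fun C hC => ?_
  · rw [← hTl]
    have h1 : ∑ j ∈ Tl, (1120 + ∑ C ∈ P, e j C) ≤ ∑ j ∈ Tl, ((8 * sT B Q T U F 15 j + t j) +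
        168 * ∑ u ∈ Sp.UU U (slf B F) P (l j), (uo B Q T U F u : ℤ)) := by
      refine sum_le_sum fun j hj => ?_
      have h2 : ∑ C ∈ P, e j C = ∑ C ∈ l j,
          (if (Sp.atl Tl l C).card = 1 then mis B Q T R U F P a l X C - tK B Q R F t C
            else clm j C) := by
        rw [he]
        dsimp only
        rw [← sum_filter]
        congr 1
        ext C
        rw [mem_filter]
        exact ⟨fun h3 => h3.2, fun h3 => ⟨hl.sub j hj h3, h3⟩⟩
      have h3 : ∑ C ∈ l j,
          (if (Sp.atl Tl l C).card = 1 then mis B Q T R U F P a l X C - tK B Q R F t C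
            else clm j C) =
          ∑ C ∈ (l j).filter (fun C => (Sp.atl Tl l C).card = 1),
            (mis B Q T R U F P a l X C - tK B Q R F t C) +
          ∑ C ∈ (l j).filter (fun C => 2 ≤ (Sp.atl Tl l C).card), clm j C := by
        rw [sum_ite]
        congr 1
        refine sum_congr ?_ fun _ _ => rfl
        ext C
        rw [mem_filter, mem_filter]
        constructor
        · rintro ⟨h4, h5⟩
          have h6 : 0 < (Sp.atl Tl l C).card := card_pos.2 ⟨j, Sp.mem_atl.2 ⟨hj, h4⟩⟩
          exact ⟨h4, by omega⟩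
        · rintro ⟨h4, h5⟩
          exact ⟨h4, by omega⟩
      have h4 := HL j hj
      rw [h2, h3]
      linarith
    rw [sum_add_distrib (s := Tl)
      (f := fun j => 8 * sT B Q T U F 15 j + t j), ← mul_sum] at h1
    linarith
  · have h1 : ∑ j ∈ Tl, e j C = ∑ j ∈ Sp.atl Tl l C,
        (if (Sp.atl Tl l C).card = 1 then mis B Q T R U F P a l X C - tK B Q R F t C
          else clm j C) := by
      rw [he]
      dsimp only
      rw [← sum_filter]
      rfl
    rw [← hTl, h1]
    have hK : tK B Q R F t C = ∑ j ∈ Sp.Kin R (slj B Q F) C, t j := rfl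
    rcases Nat.lt_or_ge (Sp.atl Tl l C).card 1 with h2 | h2
    · have h3 := H0 C hC (by omega)
      have h4 : Sp.atl Tl l C = ∅ := card_eq_zero.1 (by omega)
      unfold mis at h3
      rw [← hTl] at h3
      rw [h4] at h3 ⊢
      rw [sum_empty] at h3 ⊢
      rw [sum_empty]
      linarith
    · rcases h2.eq_or_lt with h3 | h3
      · have h4 : ∑ j ∈ Sp.atl Tl l C,
            (if (Sp.atl Tl l C).card = 1 then mis B Q T R U F P a l X C - tK B Q R F t C
              else clm j C) = mis B Q T R U F P a l X C - tK B Q R F t C := by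
          simp only [← h3, if_true]
          rw [sum_const, ← h3, one_smul]
        rw [h4]
        unfold mis
        rw [← hTl]
        linarith
      · have h4 := HN C hC (by omega)
        have h5 : ∑ j ∈ Sp.atl Tl l C,
            (if (Sp.atl Tl l C).card = 1 then mis B Q T R U F P a l X C - tK B Q R F t C
              else clm j C) = ∑ j ∈ Sp.atl Tl l C, clm j C := by
          refine sum_congr rfl fun j _ => ?_
          rw [if_neg (by omega)]
        rw [h5]
        unfold mis at h4
        rw [← hTl] at h4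
        linarith

end Frm

end Pool.Agent.Hyp6
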