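import Pool.Agent.Hyp6.L3Yb

/-!
# HYP6 L3Yc: the numbers of the classes which are not full, integer lemmas

`Nd.k1`, .. : dense classes with any donations `d <= 180 K + 35 X`, `d <= 80 X`. `Nd.n1`, .. : dense
classes without donations. `Nd.e1`, .. : dense classes with at most one claim at a point,
`3 d <= 160 K + 80 X`, `d <= 240 K`. `Nd.q3`: classes without inside triple and with three line triples.
-/

set_option autoImplicit false
set_option linter.unusedVariables false

namespace Pool.Agent.Hyp6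

section

variable {n p K W X f e N M q b k S s x d : ℤ}

/-- rank one, two inside triples, any donations. -/
theorem Nd.k1 (h : Nd n p K W X f e N M q b k S s x) (hr : n - p = 1) (hK : 2 ≤ K)
    (hd : d ≤ 180 * K + 35 * X) (hX : d ≤ 80 * X) : NI n p K W X f e N b S s x d := by
  obtain ⟨h1, h2, h3, h4, h5, h6, h7, h8, h9, h10, h11, h12, h13, h14, h15, h16, h17, h18, h19, h20,
    h21, h22, h23, h24, h25, h26⟩ := h
  unfold NI
  linarith

/-- rank two, four inside triples, any donations. -/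
theorem Nd.k2 (h : Nd n p K W X f e N M q b k S s x) (hr : n - p = 2) (hK : 4 ≤ K)
    (hd : d ≤ 180 * K + 35 * X) (hX : d ≤ 80 * X) : NI n p K W X f e N b S s x d := by
  obtain ⟨h1, h2, h3, h4, h5, h6, h7, h8, h9, h10, h11, h12, h13, h14, h15, h16, h17, h18, h19, h20,
    h21, h22, h23, h24, h25, h26⟩ := h
  unfold NI
  linarith

/-- rank two, three inside triples and a line triple, any donations. -/
theorem Nd.k2q (h : Nd n p K W X f e N M q b k S s x) (hr : n - p = 2) (hK : 3 ≤ K) (hq : 1 ≤ q)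
    (hd : d ≤ 180 * K + 35 * X) (hX : d ≤ 80 * X) : NI n p K W X f e N b S s x d := by
  obtain ⟨h1, h2, h3, h4, h5, h6, h7, h8, h9, h10, h11, h12, h13, h14, h15, h16, h17, h18, h19, h20,
    h21, h22, h23, h24, h25, h26⟩ := h
  unfold NI
  linarith

/-- rank two, three inside triples and two line triples or centres, any donations. -/
theorem Nd.k2b (h : Nd n p K W X f e N M q b k S s x) (hr : n - p = 2) (hK : 3 ≤ K)
    (hq : 2 ≤ q + b) (hd : d ≤ 180 * K + 35 * X) (hX : d ≤ 80 * X) :
    NI n p K W X f e N b S s x d := by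
  obtain ⟨h1, h2, h3, h4, h5, h6, h7, h8, h9, h10, h11, h12, h13, h14, h15, h16, h17, h18, h19, h20,
    h21, h22, h23, h24, h25, h26⟩ := h
  unfold NI
  linarith

/-- rank three, six inside triples, any donations. -/
theorem Nd.k3 (h : Nd n p K W X f e N M q b k S s x) (hr : n - p = 3) (hK : 6 ≤ K)
    (hd : d ≤ 180 * K + 35 * X) (hX : d ≤ 80 * X) : NI n p K W X f e N b S s x d := by
  obtain ⟨h1, h2, h3, h4, h5, h6, h7, h8, h9, h10, h11, h12, h13, h14, h15, h16, h17, h18, h19, h20,
    h21, h22, h23, h24, h25, h26⟩ := h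
  unfold NI
  linarith

/-- rank four, seven inside triples, any donations. -/
theorem Nd.k4 (h : Nd n p K W X f e N M q b k S s x) (hr : n - p = 4) (hK : 7 ≤ K)
    (hd : d ≤ 180 * K + 35 * X) (hX : d ≤ 80 * X) : NI n p K W X f e N b S s x d := by
  obtain ⟨h1, h2, h3, h4, h5, h6, h7, h8, h9, h10, h11, h12, h13, h14, h15, h16, h17, h18, h19, h20,
    h21, h22, h23, h24, h25, h26⟩ := h
  unfold NI
  linarith

/-- rank at least three, no donations. -/
theorem Nd.n3 (h : Nd n p K W X f e N M q b k S s x) (hr : 3 ≤ n - p) (hd : d ≤ 0) :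
    NI n p K W X f e N b S s x d := by
  obtain ⟨h1, h2, h3, h4, h5, h6, h7, h8, h9, h10, h11, h12, h13, h14, h15, h16, h17, h18, h19, h20,
    h21, h22, h23, h24, h25, h26⟩ := h
  unfold NI
  linarith

/-- rank two, three inside triples, no donations. -/
theorem Nd.n2 (h : Nd n p K W X f e N M q b k S s x) (hr : n - p = 2) (hK : 3 ≤ K) (hd : d ≤ 0) :
    NI n p K W X f e N b S s x d := by
  obtain ⟨h1, h2, h3, h4, h5, h6, h7, h8, h9, h10, h11, h12, h13, h14, h15, h16, h17, h18, h19, h20,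
    h21, h22, h23, h24, h25, h26⟩ := h
  unfold NI
  linarith

/-- rank two, two line triples or centres, donations at most `80`. -/
theorem Nd.n22 (h : Nd n p K W X f e N M q b k S s x) (hr : n - p = 2) (hK : 2 ≤ K)
    (hq : 2 ≤ q + b) (hd : d ≤ 80) (hX : d ≤ 80 * X) : NI n p K W X f e N b S s x d := by
  obtain ⟨h1, h2, h3, h4, h5, h6, h7, h8, h9, h10, h11, h12, h13, h14, h15, h16, h17, h18, h19, h20,
    h21, h22, h23, h24, h25, h26⟩ := h
  unfold NI
  linarith

/-- rank one, an inside triple, a line triple or centre, no donations. -/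
theorem Nd.n11 (h : Nd n p K W X f e N M q b k S s x) (hr : n - p = 1) (hK : 1 ≤ K)
    (hq : 1 ≤ q + b) (hd : d ≤ 0) : NI n p K W X f e N b S s x d := by
  obtain ⟨h1, h2, h3, h4, h5, h6, h7, h8, h9, h10, h11, h12, h13, h14, h15, h16, h17, h18, h19, h20,
    h21, h22, h23, h24, h25, h26⟩ := h
  unfold NI
  linarith

/-- rank two, three inside triples, one claim at a point. -/
theorem Nd.e2 (h : Nd n p K W X f e N M q b k S s x) (hr : n - p = 2) (hK : 3 ≤ K)
    (hd : 3 * d ≤ 160 * K + 80 * X) (hX : d ≤ 80 * X) (h3 : d ≤ 240 * K) :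
    NI n p K W X f e N b S s x d := by
  obtain ⟨h1, h2, h3, h4, h5, h6, h7, h8, h9, h10, h11, h12, h13, h14, h15, h16, h17, h18, h19, h20,
    h21, h22, h23, h24, h25, h26⟩ := h
  unfold NI
  linarith

/-- rank three, five inside triples, one claim at a point. -/
theorem Nd.e3 (h : Nd n p K W X f e N M q b k S s x) (hr : n - p = 3) (hK : 5 ≤ K)
    (hd : 3 * d ≤ 160 * K + 80 * X) (hX : d ≤ 80 * X) (h3 : d ≤ 240 * K) :
    NI n p K W X f e N b S s x d := by
  obtain ⟨h1, h2, h3, h4, h5, h6, h7, h8, h9, h10, h11, h12, h13, h14, h15, h16, h17, h18, h19, h20,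
    h21, h22, h23, h24, h25, h26⟩ := h
  unfold NI
  linarith

/-- rank three, four inside triples, a line triple or centre, one claim at a point. -/
theorem Nd.e3q (h : Nd n p K W X f e N M q b k S s x) (hr : n - p = 3) (hK : 4 ≤ K)
    (hq : 1 ≤ q + b) (hd : 3 * d ≤ 160 * K + 80 * X) (hX : d ≤ 80 * X) (h3 : d ≤ 240 * K) :
    NI n p K W X f e N b S s x d := by
  obtain ⟨h1, h2, h3, h4, h5, h6, h7, h8, h9, h10, h11, h12, h13, h14, h15, h16, h17, h18, h19, h20,
    h21, h22, h23, h24, h25, h26⟩ := h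
  unfold NI
  linarith

/-- rank three, four inside triples, two claims. -/
theorem Nd.e3c (h : Nd n p K W X f e N M q b k S s x) (hr : n - p = 3) (hK : 4 ≤ K)
    (hd : d ≤ 160) (hX : d ≤ 80 * X) : NI n p K W X f e N b S s x d := by
  obtain ⟨h1, h2, h3, h4, h5, h6, h7, h8, h9, h10, h11, h12, h13, h14, h15, h16, h17, h18, h19, h20,
    h21, h22, h23, h24, h25, h26⟩ := h
  unfold NI
  linarith

/-- rank four, one claim at a point. -/
theorem Nd.e4 (h : Nd n p K W X f e N M q b k S s x) (hr : n - p = 4)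
    (hd : 3 * d ≤ 160 * K + 80 * X) (hX : d ≤ 80 * X) (h3 : d ≤ 240 * K) :
    NI n p K W X f e N b S s x d := by
  obtain ⟨h1, h2, h3, h4, h5, h6, h7, h8, h9, h10, h11, h12, h13, h14, h15, h16, h17, h18, h19, h20,
    h21, h22, h23, h24, h25, h26⟩ := h
  unfold NI
  linarith

/-- rank at least five, one claim at a point. -/
theorem Nd.e5 (h : Nd n p K W X f e N M q b k S s x) (hr : 5 ≤ n - p)
    (hd : 3 * d ≤ 160 * K + 80 * X) (hX : d ≤ 80 * X) (h3 : d ≤ 240 * K) :
    NI n p K W X f e N b S s x d := by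
  obtain ⟨h1, h2, h3, h4, h5, h6, h7, h8, h9, h10, h11, h12, h13, h14, h15, h16, h17, h18, h19, h20,
    h21, h22, h23, h24, h25, h26⟩ := h
  unfold NI
  linarith

/-- rank two, two line triples, one claim at a point. -/
theorem Nd.e22 (h : Nd n p K W X f e N M q b k S s x) (hr : n - p = 2) (hK : 2 ≤ K) (hq : 2 ≤ q)
    (hd : 3 * d ≤ 160 * K + 80 * X) (hX : d ≤ 80 * X) (h3 : d ≤ 240 * K) :
    NI n p K W X f e N b S s x d := by
  obtain ⟨h1, h2, h3, h4, h5, h6, h7, h8, h9, h10, h11, h12, h13, h14, h15, h16, h17, h18, h19, h20,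
    h21, h22, h23, h24, h25, h26⟩ := h
  unfold NI
  linarith

/-- rank two, three line triples or centres, one claim at a point. -/
theorem Nd.e23 (h : Nd n p K W X f e N M q b k S s x) (hr : n - p = 2) (hK : 2 ≤ K)
    (hq : 3 ≤ q + b) (hd : 3 * d ≤ 160 * K + 80 * X) (hX : d ≤ 80 * X) (h3 : d ≤ 240 * K) :
    NI n p K W X f e N b S s x d := by
  obtain ⟨h1, h2, h3, h4, h5, h6, h7, h8, h9, h10, h11, h12, h13, h14, h15, h16, h17, h18, h19, h20,
    h21, h22, h23, h24, h25, h26⟩ := h
  unfold NI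
  linarith

/-- **no inside triple, three line triples, composite**. -/
theorem Nd.q3 (h : Nd n p K W X f e N M q b k S s x) (hr : n - p = 1) (hp : 1 ≤ p) (hK : K = 0)
    (hX : X = 0) (hb : b = 0) (hs : s = 0) (hq : 3 ≤ q) (hd : d ≤ 0)
    (h16 : q = 3 → k = 16 → 1464 ≤ S) (h14 : q = 3 → k = 14 → 1416 ≤ S) :
    NI n p K W X f e N b S s x d := by
  obtain ⟨h1, h2, h3, h4, h5, h6, h7, h8, h9, h10, h11, h12, h13, h14', h15, h16', h17, h18, h19, h20,
    h21, h22, h23, h24, h25, h26⟩ := h
  unfold NI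
  rcases (by omega : q = 3 ∨ 4 ≤ q) with hq3 | hq4
  swap
  · linarith
  have h16 := h16 hq3
  have h14 := h14 hq3
  rcases (by omega : p = 1 ∨ 2 ≤ p) with hp1 | hp2
  swap
  · linarith
  rcases (by omega : N = 2 ∨ N = 4 ∨ N = 6 ∨ 8 ≤ N) with hN | hN | hN | hN
  · rcases (by omega : M = 6 ∨ 8 ≤ M) with hM | hM
    · rcases (by omega : x + f = 0 ∨ 1 ≤ x + f) with hxf | hxf
      · have h30 := h16 (by omega)
        linarith
      · linarith
    · linarith
  · have hM : 6 ≤ M := by omega
    linarith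
  · rcases (by omega : M = 4 ∨ 6 ≤ M) with hM | hM
    · rcases (by omega : x + f = 0 ∨ 1 ≤ x + f) with hxf | hxf
      · rcases (by omega : W = 0 ∨ 1 ≤ W) with hW | hW
        · have h30 := h14 (by omega)
          linarith
        · linarith
      · linarith
    · linarith
  · linarith

end

end Pool.Agent.Hyp6
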