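import Mathlib

/-!
# HYP6 L3Yi: composite classes with two line triples, the integers

`Lc`: the numbers of a leaf of a composite class without inside triples, with two line triples. `Tb`: the
bounds of the need of two line triples with `H` hits. `Lc.two`, `Lc.three`, `tb_four`: the class is paid.
-/

set_option autoImplicit false

namespace Pool.Agent.Hyp6

/-- the numbers of a leaf of a composite class: value `P`, `N` single traces, `m` points, `e` double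
singles, `A` hits of the two line triples, `y` own hits, `x` other hits, `f` free places. -/
structure Lc (P N m e A y x f : ℤ) : Prop where
  pp : P = 2 * N + 3 * m - 11
  slot : 6 * (A + y + x + f) + N = 5 * P + 55
  m1 : 1 ≤ m
  mo : m % 2 = 1
  n1 : 1 ≤ N
  no : N % 2 = 1
  pt : m = 1 → N = 5
  e0 : 0 ≤ e
  f0 : 4 * e ≤ f
  p0 : 2 * e ≤ P
  A0 : 0 ≤ A
  y1 : 1 ≤ y
  yn : y ≤ N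
  x0 : 0 ≤ x
  neg : P - 2 * e = 0 → y + x ≤ 1 → A ≤ 2
  one : P - 2 * e = 2 → y + x ≤ 1 → A ≤ 8
  big : 4 ≤ P - 2 * e → 2 ≤ y + x
  q2 : m = 3 → N = 1 → y = 1 → x = 1 → 1 ≤ f

/-- the bounds of the need `c` of two line triples with `H` hits. -/
structure Tb (H c : ℤ) : Prop where
  le : H ≤ 24
  b7 : H ≤ 7 → c ≤ 50
  b8 : H ≤ 8 → c ≤ 210
  b9 : H ≤ 9 → c ≤ 370
  b10 : H ≤ 10 → c ≤ 450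
  b11 : H ≤ 11 → c ≤ 584
  b12 : H ≤ 12 → c ≤ 728
  b13 : H ≤ 13 → c ≤ 808
  b14 : H ≤ 14 → c ≤ 930
  b15 : H ≤ 15 → c ≤ 1090
  b16 : H ≤ 16 → c ≤ 1250
  b17 : H ≤ 17 → c ≤ 1330
  b18 : H ≤ 18 → c ≤ 1464
  b19 : H ≤ 19 → c ≤ 1608
  b20 : H ≤ 20 → c ≤ 1688
  b21 : H ≤ 21 → c ≤ 1822
  b22 : H ≤ 22 → c ≤ 1966
  b24 : c ≤ 1986

namespace Tb

variable {H c : ℤ}

/-- the bound as cases. -/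
theorem cases (h : Tb H c) : (H ≤ 12 ∧ c ≤ 728) ∨ (H = 13 ∧ c ≤ 808) ∨ (H = 14 ∧ c ≤ 930) ∨
    (H = 15 ∧ c ≤ 1090) ∨ (H = 16 ∧ c ≤ 1250) ∨ (H = 17 ∧ c ≤ 1330) ∨ (H = 18 ∧ c ≤ 1464) ∨
    (H = 19 ∧ c ≤ 1608) ∨ (H = 20 ∧ c ≤ 1688) ∨ (H = 21 ∧ c ≤ 1822) ∨
    (22 ≤ H ∧ c ≤ 20 * H + 1526) := by
  obtain ⟨h0, _, _, _, _, _, h1, h2, h3, h4, h5, h6, h7, h8, h9, h10, h11, h12⟩ := h
  rcases (by omega : H ≤ 12 ∨ H = 13 ∨ H = 14 ∨ H = 15 ∨ H = 16 ∨ H = 17 ∨ H = 18 ∨ H = 19 ∨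
    H = 20 ∨ H = 21 ∨ H = 22 ∨ H = 23 ∨ H = 24) with h | h | h | h | h | h | h | h | h | h | h | h | h
  · exact Or.inl ⟨h, h1 h⟩
  · exact Or.inr (Or.inl ⟨h, h2 (by omega)⟩)
  · exact Or.inr (Or.inr (Or.inl ⟨h, h3 (by omega)⟩))
  · exact Or.inr (Or.inr (Or.inr (Or.inl ⟨h, h4 (by omega)⟩)))
  · exact Or.inr (Or.inr (Or.inr (Or.inr (Or.inl ⟨h, h5 (by omega)⟩))))
  · exact Or.inr (Or.inr (Or.inr (Or.inr (Or.inr (Or.inl ⟨h, h6 (by omega)⟩)))))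
  · exact Or.inr (Or.inr (Or.inr (Or.inr (Or.inr (Or.inr (Or.inl ⟨h, h7 (by omega)⟩))))))
  · exact Or.inr (Or.inr (Or.inr (Or.inr (Or.inr (Or.inr (Or.inr (Or.inl ⟨h, h8 (by omega)⟩)))))))
  · exact Or.inr (Or.inr (Or.inr (Or.inr (Or.inr (Or.inr (Or.inr (Or.inr (Or.inl
      ⟨h, h9 (by omega)⟩))))))))
  · exact Or.inr (Or.inr (Or.inr (Or.inr (Or.inr (Or.inr (Or.inr (Or.inr (Or.inr (Or.inl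
      ⟨h, h10 (by omega)⟩)))))))))
  · have := h11 (by omega)
    exact Or.inr (Or.inr (Or.inr (Or.inr (Or.inr (Or.inr (Or.inr (Or.inr (Or.inr (Or.inr
      ⟨by omega, by omega⟩)))))))))
  · exact Or.inr (Or.inr (Or.inr (Or.inr (Or.inr (Or.inr (Or.inr (Or.inr (Or.inr (Or.inr
      ⟨by omega, by omega⟩)))))))))
  · exact Or.inr (Or.inr (Or.inr (Or.inr (Or.inr (Or.inr (Or.inr (Or.inr (Or.inr (Or.inr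
      ⟨by omega, by omega⟩)))))))))

end Tb

/-- **four or more leaves**: `S` the sum of the values, `E` of the double singles, `N` of the single
traces, `H` of the hits of the line triples, `Y` of the own hits. -/
theorem tb_four {p S E N H Y W x c : ℤ} (h : Tb H c) (hp : 3 ≤ p) (hE : 0 ≤ E) (hW : 0 ≤ W)
    (hY : Y = 5 * p - W) (hN : Y ≤ N) (hNS : N ≤ 2 * S + 4 * E + p + 1)
    (hH : 6 * (H + Y + x) + N ≤ 5 * S + 55 * (p + 1) - 14 * E) (hx : 0 ≤ x) (hS : 0 ≤ S) :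
    c + 120 - 480 * p - 120 * S - 160 * W - 5 * x ≤ 0 := by
  subst hY
  rcases (by omega : E = 0 ∨ 1 ≤ E) with rfl | hE1
  · rcases h.cases with ⟨h1, h2⟩ | ⟨h1, h2⟩ | ⟨h1, h2⟩ | ⟨h1, h2⟩ | ⟨h1, h2⟩ | ⟨h1, h2⟩ |
      ⟨h1, h2⟩ | ⟨h1, h2⟩ | ⟨h1, h2⟩ | ⟨h1, h2⟩ | ⟨h1, h2⟩ <;> omega
  · rcases h.cases with ⟨h1, h2⟩ | ⟨h1, h2⟩ | ⟨h1, h2⟩ | ⟨h1, h2⟩ | ⟨h1, h2⟩ | ⟨h1, h2⟩ |
      ⟨h1, h2⟩ | ⟨h1, h2⟩ | ⟨h1, h2⟩ | ⟨h1, h2⟩ | ⟨h1, h2⟩ <;> omega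

/-- the sums of the leaves of a class, for `n` leaves. -/
structure Sm (n S E N H Y x : ℤ) : Prop where
  S0 : 0 ≤ S
  E0 : 0 ≤ E
  x0 : 0 ≤ x
  yN : Y ≤ N
  NS : N ≤ 2 * S + 4 * E + n
  H : 6 * (H + Y + x) + N ≤ 5 * S + 55 * n - 14 * E
  Se : S % 2 = 0
  Ne : (N - n) % 2 = 0

theorem Lc.sm {P N m e A y x f : ℤ} (h : Lc P N m e A y x f) :
    Sm 1 (P - 2 * e) e N A y x := by
  obtain ⟨h1, h2, h3, h4, h5, h6, h7, h8, h9, h10, h11, h12, h13, h14, h15, h16, h17, h18⟩ := h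
  refine ⟨by omega, h8, h14, h13, ?_, by omega, by omega, by omega⟩
  rcases (by omega : m = 1 ∨ 3 ≤ m) with hm | hm
  · have := h7 hm
    omega
  · omega

theorem Sm.add {n S E N H Y x n' S' E' N' H' Y' x' : ℤ} (h : Sm n S E N H Y x)
    (h' : Sm n' S' E' N' H' Y' x') :
    Sm (n + n') (S + S') (E + E') (N + N') (H + H') (Y + Y') (x + x') := by
  obtain ⟨h1, h2, h3, h4, h5, h6, h7, h8⟩ := h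
  obtain ⟨k1, k2, k3, k4, k5, k6, k7, k8⟩ := h'
  exact ⟨by omega, by omega, by omega, by omega, by omega, by omega, by omega, by omega⟩

/-- two leaves with `8 ≤ S`. -/
theorem Sm.two8 {S E N H Y x W c : ℤ} (h : Sm 2 S E N H Y x) (ht : Tb H c) (hW : 0 ≤ W)
    (hY : Y = 5 - W) (hx : 2 ≤ x) (hS : 8 ≤ S) :
    c + 240 - 120 * S - 600 - 160 * W - 5 * x ≤ 0 := by
  obtain ⟨h1, h2, h3, h4, h5, h6, h7, h8⟩ := h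
  subst hY
  rcases ht.cases with ⟨h1, h2⟩ | ⟨h1, h2⟩ | ⟨h1, h2⟩ | ⟨h1, h2⟩ | ⟨h1, h2⟩ | ⟨h1, h2⟩ |
    ⟨h1, h2⟩ | ⟨h1, h2⟩ | ⟨h1, h2⟩ | ⟨h1, h2⟩ | ⟨h1, h2⟩ <;> omega

/-- three leaves with `S ≠ 2`. -/
theorem Sm.three2 {S E N H Y x W c : ℤ} (h : Sm 3 S E N H Y x) (ht : Tb H c) (hW : 0 ≤ W)
    (hY : Y = 10 - W) (hx : 2 ≤ x) (hS : S ≠ 2) :
    c + 360 - 120 * S - 1200 - 160 * W - 5 * x ≤ 0 := by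
  obtain ⟨h1, h2, h3, h4, h5, h6, h7, h8⟩ := h
  subst hY
  rcases ht.cases with ⟨h1, h2⟩ | ⟨h1, h2⟩ | ⟨h1, h2⟩ | ⟨h1, h2⟩ | ⟨h1, h2⟩ | ⟨h1, h2⟩ |
    ⟨h1, h2⟩ | ⟨h1, h2⟩ | ⟨h1, h2⟩ | ⟨h1, h2⟩ | ⟨h1, h2⟩ <;> omega

/-- a leaf of value zero has at most six hits of the two line triples. -/
theorem Lc.zero {P N m e A y x f : ℤ} (h : Lc P N m e A y x f) (h0 : P - 2 * e = 0) :
    (A ≤ 6 ∧ A + y + x ≤ 9 ∧ y = 1 ∧ N = 1 ∧ m = 3 ∧ (x = 0 → A ≤ 2)) ∨ (1 ≤ e ∧ A + y + x ≤ 6) := by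
  obtain ⟨h1, h2, h3, h4, h5, h6, h7, h8, h9, h10, h11, h12, h13, h14, h15, h16, h17, h18⟩ := h
  rcases (by omega : m = 1 ∨ m = 3 ∨ 5 ≤ m) with hm | hm | hm
  · have := h7 hm
    omega
  · rcases (by omega : e = 0 ∨ 1 ≤ e) with he | he
    · left
      have hN : N = 1 := by omega
      have hy : y = 1 := by omega
      rcases (by omega : x = 0 ∨ x = 1 ∨ 2 ≤ x) with hx | hx | hx
      · have := h15 h0 (by omega)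
        omega
      · have := h18 hm hN hy hx
        omega
      · omega
    · right
      omega
  · right
    omega

/-- a leaf of value two. -/
theorem Lc.two' {P N m e A y x f : ℤ} (h : Lc P N m e A y x f) (h0 : P - 2 * e = 2) :
    (A + y + x ≤ 10 ∧ y ≤ 5 ∧ N = 5 ∧ m = 1 ∧ e = 0) ∨ (1 ≤ e ∧ A + y + x ≤ 8) := by
  obtain ⟨h1, h2, h3, h4, h5, h6, h7, h8, h9, h10, h11, h12, h13, h14, h15, h16, h17, h18⟩ := h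
  rcases (by omega : e = 0 ∨ 1 ≤ e) with he | he
  · left
    have hN : N = 5 := by omega
    omega
  · right
    omega

/-- **three leaves**. -/
theorem Lc.three {P1 N1 m1 e1 A1 y1 x1 f1 P2 N2 m2 e2 A2 y2 x2 f2 P3 N3 m3 e3 A3 y3 x3 f3 : ℤ}
    {W c : ℤ} (h1 : Lc P1 N1 m1 e1 A1 y1 x1 f1) (h2 : Lc P2 N2 m2 e2 A2 y2 x2 f2)
    (h3 : Lc P3 N3 m3 e3 A3 y3 x3 f3) (ht : Tb (A1 + A2 + A3) c) (hW : 0 ≤ W)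
    (hY : y1 + y2 + y3 = 10 - W) (hx : 2 ≤ x1 + x2 + x3) :
    c + 360 - 120 * ((P1 - 2 * e1) + (P2 - 2 * e2) + (P3 - 2 * e3)) - 1200 - 160 * W -
      5 * (x1 + x2 + x3) ≤ 0 := by
  have hs := (h1.sm.add h2.sm).add h3.sm
  by_cases hS : (P1 - 2 * e1) + (P2 - 2 * e2) + (P3 - 2 * e3) = 2
  · obtain ⟨s1, s2, s3, s4, s5, s6, s7, s8⟩ := hs
    have p1 := h1.sm.S0
    have p2 := h2.sm.S0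
    have p3 := h3.sm.S0
    have q1 := h1.sm.Se
    have q2 := h2.sm.Se
    have q3 := h3.sm.Se
    have r1 := h1.sm.H
    have r2 := h2.sm.H
    have r3 := h3.sm.H
    have t1 := h1.e0
    have t2 := h2.e0
    have t3 := h3.e0
    have u1 := h1.sm.NS
    have u2 := h2.sm.NS
    have u3 := h3.sm.NS
    have v1 := h1.yn
    have v2 := h2.yn
    have v3 := h3.yn
    have w1 := h1.x0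
    have w2 := h2.x0
    have w3 := h3.x0
    rcases (by omega : (P1 - 2 * e1 = 0 ∧ P2 - 2 * e2 = 0 ∧ P3 - 2 * e3 = 2) ∨
      (P1 - 2 * e1 = 0 ∧ P2 - 2 * e2 = 2 ∧ P3 - 2 * e3 = 0) ∨
      (P1 - 2 * e1 = 2 ∧ P2 - 2 * e2 = 0 ∧ P3 - 2 * e3 = 0)) with ⟨a1, a2, a3⟩ | ⟨a1, a2, a3⟩ |
      ⟨a1, a2, a3⟩
    · have z1 := h1.zero a1
      have z2 := h2.zero a2
      have z3 := h3.two' a3
      rcases (by omega : e1 + e2 + e3 = 0 ∨ 1 ≤ e1 + e2 + e3) with he | he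
      · have hW3 : 3 ≤ W := by omega
        have hH : A1 + A2 + A3 + x3 ≤ 14 + W := by omega
        clear s1 s2 s3 s4 s5 s6 s7 s8 r1 r2 r3 u1 u2 u3 v1 v2 v3 h1 h2 h3
        rcases ht.cases with ⟨k1, k2⟩ | ⟨k1, k2⟩ | ⟨k1, k2⟩ | ⟨k1, k2⟩ | ⟨k1, k2⟩ | ⟨k1, k2⟩ |
          ⟨k1, k2⟩ | ⟨k1, k2⟩ | ⟨k1, k2⟩ | ⟨k1, k2⟩ | ⟨k1, k2⟩ <;> omega
      · rcases ht.cases with ⟨k1, k2⟩ | ⟨k1, k2⟩ | ⟨k1, k2⟩ | ⟨k1, k2⟩ | ⟨k1, k2⟩ | ⟨k1, k2⟩ |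
          ⟨k1, k2⟩ | ⟨k1, k2⟩ | ⟨k1, k2⟩ | ⟨k1, k2⟩ | ⟨k1, k2⟩ <;> omega
    · have z1 := h1.zero a1
      have z2 := h3.zero a3
      have z3 := h2.two' a2
      rcases (by omega : e1 + e2 + e3 = 0 ∨ 1 ≤ e1 + e2 + e3) with he | he
      · have hW3 : 3 ≤ W := by omega
        have hH : A1 + A2 + A3 + x2 ≤ 14 + W := by omega
        clear s1 s2 s3 s4 s5 s6 s7 s8 r1 r2 r3 u1 u2 u3 v1 v2 v3 h1 h2 h3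
        rcases ht.cases with ⟨k1, k2⟩ | ⟨k1, k2⟩ | ⟨k1, k2⟩ | ⟨k1, k2⟩ | ⟨k1, k2⟩ | ⟨k1, k2⟩ |
          ⟨k1, k2⟩ | ⟨k1, k2⟩ | ⟨k1, k2⟩ | ⟨k1, k2⟩ | ⟨k1, k2⟩ <;> omega
      · rcases ht.cases with ⟨k1, k2⟩ | ⟨k1, k2⟩ | ⟨k1, k2⟩ | ⟨k1, k2⟩ | ⟨k1, k2⟩ | ⟨k1, k2⟩ |
          ⟨k1, k2⟩ | ⟨k1, k2⟩ | ⟨k1, k2⟩ | ⟨k1, k2⟩ | ⟨k1, k2⟩ <;> omega
    · have z1 := h2.zero a2
      have z2 := h3.zero a3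
      have z3 := h1.two' a1
      rcases (by omega : e1 + e2 + e3 = 0 ∨ 1 ≤ e1 + e2 + e3) with he | he
      · have hW3 : 3 ≤ W := by omega
        have hH : A1 + A2 + A3 + x1 ≤ 14 + W := by omega
        clear s1 s2 s3 s4 s5 s6 s7 s8 r1 r2 r3 u1 u2 u3 v1 v2 v3 h1 h2 h3
        rcases ht.cases with ⟨k1, k2⟩ | ⟨k1, k2⟩ | ⟨k1, k2⟩ | ⟨k1, k2⟩ | ⟨k1, k2⟩ | ⟨k1, k2⟩ |
          ⟨k1, k2⟩ | ⟨k1, k2⟩ | ⟨k1, k2⟩ | ⟨k1, k2⟩ | ⟨k1, k2⟩ <;> omega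
      · rcases ht.cases with ⟨k1, k2⟩ | ⟨k1, k2⟩ | ⟨k1, k2⟩ | ⟨k1, k2⟩ | ⟨k1, k2⟩ | ⟨k1, k2⟩ |
          ⟨k1, k2⟩ | ⟨k1, k2⟩ | ⟨k1, k2⟩ | ⟨k1, k2⟩ | ⟨k1, k2⟩ <;> omega
  · have hs' : Sm 3 (P1 - 2 * e1 + (P2 - 2 * e2) + (P3 - 2 * e3)) (e1 + e2 + e3) (N1 + N2 + N3)
        (A1 + A2 + A3) (y1 + y2 + y3) (x1 + x2 + x3) := hs
    exact hs'.three2 ht hW hY hx hS

/-- a leaf of value four. -/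
theorem Lc.four {P N m e A y x f : ℤ} (h : Lc P N m e A y x f) (h0 : P - 2 * e = 4) :
    (A + y + x ≤ 12 ∧ y ≤ 3 ∧ N = 3 ∧ m = 3 ∧ e = 0) ∨ (1 ≤ e ∧ A + y + x ≤ 10) := by
  obtain ⟨h1, h2, h3, h4, h5, h6, h7, h8, h9, h10, h11, h12, h13, h14, h15, h16, h17, h18⟩ := h
  rcases (by omega : e = 0 ∨ 1 ≤ e) with he | he
  · left
    have hN : N = 3 := by
      rcases (by omega : m = 1 ∨ m = 3 ∨ 5 ≤ m) with hm | hm | hm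
      · have := h7 hm
        omega
      · omega
      · omega
    omega
  · right
    omega

/-- a leaf of value six. -/
theorem Lc.six {P N m e A y x f : ℤ} (h : Lc P N m e A y x f) (h0 : P - 2 * e = 6) :
    (A + y + x ≤ 14 ∧ y = 1 ∧ N = 1 ∧ m = 5 ∧ e = 0) ∨ (1 ≤ e ∧ A + y + x ≤ 11) := by
  obtain ⟨h1, h2, h3, h4, h5, h6, h7, h8, h9, h10, h11, h12, h13, h14, h15, h16, h17, h18⟩ := h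
  rcases (by omega : e = 0 ∨ 1 ≤ e) with he | he
  · left
    have hN : N = 1 := by
      rcases (by omega : m = 1 ∨ m = 3 ∨ m = 5 ∨ 7 ≤ m) with hm | hm | hm | hm
      · have := h7 hm
        omega
      · omega
      · omega
      · omega
    omega
  · right
    omega

/-- **two leaves, at least two other hits**. -/
theorem Lc.two {P1 N1 m1 e1 A1 y1 x1 f1 P2 N2 m2 e2 A2 y2 x2 f2 : ℤ}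
    {W c : ℤ} (h1 : Lc P1 N1 m1 e1 A1 y1 x1 f1) (h2 : Lc P2 N2 m2 e2 A2 y2 x2 f2)
    (g1 : m1 = 1 → y1 ≤ 3) (g2 : m2 = 1 → y2 ≤ 3) (ht : Tb (A1 + A2) c) (hW : 0 ≤ W)
    (hY : y1 + y2 = 5 - W) (hx : 2 ≤ x1 + x2) (hle : P1 - 2 * e1 ≤ P2 - 2 * e2)
    (hs : m1 = 3 → m2 = 1 → N1 = 1 → x2 = 0 → A1 + A2 = 13 → W = 1 → c ≤ 770)
    (thr : P2 - 2 * e2 = 4 → x2 = 0 → A2 ≤ 7) :
    c + 240 - 120 * ((P1 - 2 * e1) + (P2 - 2 * e2)) - 600 - 160 * W - 5 * (x1 + x2) ≤ 0 := by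
  have p1 := h1.sm.S0
  have p2 := h2.sm.S0
  have q1 := h1.sm.Se
  have q2 := h2.sm.Se
  have a1 := h1.A0
  have a2 := h2.A0
  have b1 := h1.y1
  have b2 := h2.y1
  have w1 := h1.x0
  have w2 := h2.x0
  have r1 := h1.sm.H
  have r2 := h2.sm.H
  have u1 := h1.sm.NS
  have u2 := h2.sm.NS
  have v1 := h1.yn
  have v2 := h2.yn
  have t1 := h1.e0
  have t2 := h2.e0
  rcases (by omega : 8 ≤ (P1 - 2 * e1) + (P2 - 2 * e2) ∨ (P1 - 2 * e1 = 2 ∧ P2 - 2 * e2 = 4) ∨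
      (P1 - 2 * e1 = 2 ∧ P2 - 2 * e2 = 2) ∨ (P1 - 2 * e1 = 0 ∧ P2 - 2 * e2 = 6) ∨
      (P1 - 2 * e1 = 0 ∧ P2 - 2 * e2 = 4) ∨ (P1 - 2 * e1 = 0 ∧ P2 - 2 * e2 = 2) ∨
      (P1 - 2 * e1 = 0 ∧ P2 - 2 * e2 = 0)) with hS | ⟨k1, k2⟩ | ⟨k1, k2⟩ | ⟨k1, k2⟩ | ⟨k1, k2⟩ |
      ⟨k1, k2⟩ | ⟨k1, k2⟩
  · have hs' : Sm 2 (P1 - 2 * e1 + (P2 - 2 * e2)) (e1 + e2) (N1 + N2)
        (A1 + A2) (y1 + y2) (x1 + x2) := h1.sm.add h2.sm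
    exact hs'.two8 ht hW hY hx hS
  · have z1 := h1.two' k1
    have z2 := h2.four k2
    rcases z1 with ⟨z3, z4, z5, z6, z7⟩ | ⟨z3, z4⟩ <;>
    rcases z2 with ⟨y3, y4, y5, y6, y7⟩ | ⟨y3, y4⟩ <;>
    rcases ht.cases with ⟨k1, k2⟩ | ⟨k1, k2⟩ | ⟨k1, k2⟩ | ⟨k1, k2⟩ | ⟨k1, k2⟩ | ⟨k1, k2⟩ |
      ⟨k1, k2⟩ | ⟨k1, k2⟩ | ⟨k1, k2⟩ | ⟨k1, k2⟩ | ⟨k1, k2⟩ <;> omega
  · have z1 := h1.two' k1
    have z2 := h2.two' k2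
    rcases z1 with ⟨z3, z4, z5, z6, z7⟩ | ⟨z3, z4⟩ <;>
    rcases z2 with ⟨y3, y4, y5, y6, y7⟩ | ⟨y3, y4⟩ <;>
    rcases ht.cases with ⟨k1, k2⟩ | ⟨k1, k2⟩ | ⟨k1, k2⟩ | ⟨k1, k2⟩ | ⟨k1, k2⟩ | ⟨k1, k2⟩ |
      ⟨k1, k2⟩ | ⟨k1, k2⟩ | ⟨k1, k2⟩ | ⟨k1, k2⟩ | ⟨k1, k2⟩ <;> omega
  · have z1 := h1.zero k1
    have z2 := h2.six k2
    have z0 := h2.big (by omega)
    rcases z1 with ⟨z3, z4, z5, z6, z7⟩ | ⟨z3, z4⟩ <;>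
    rcases z2 with ⟨y3, y4, y5, y6, y7⟩ | ⟨y3, y4⟩ <;>
    rcases ht.cases with ⟨k1, k2⟩ | ⟨k1, k2⟩ | ⟨k1, k2⟩ | ⟨k1, k2⟩ | ⟨k1, k2⟩ | ⟨k1, k2⟩ |
      ⟨k1, k2⟩ | ⟨k1, k2⟩ | ⟨k1, k2⟩ | ⟨k1, k2⟩ | ⟨k1, k2⟩ <;> omega
  · have z1 := h1.zero k1
    have z2 := h2.four k2
    have z0 := thr (by omega)
    rcases z1 with ⟨z3, z4, z5, z6, z7⟩ | ⟨z3, z4⟩ <;>
    rcases z2 with ⟨y3, y4, y5, y6, y7⟩ | ⟨y3, y4⟩ <;>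
    rcases ht.cases with ⟨k1, k2⟩ | ⟨k1, k2⟩ | ⟨k1, k2⟩ | ⟨k1, k2⟩ | ⟨k1, k2⟩ | ⟨k1, k2⟩ |
      ⟨k1, k2⟩ | ⟨k1, k2⟩ | ⟨k1, k2⟩ | ⟨k1, k2⟩ | ⟨k1, k2⟩ <;> omega
  · have z1 := h1.zero k1
    have z2 := h2.two' k2
    have z0 := h1.q2
    have b9 := ht.b9
    have b10 := ht.b10
    have b11 := ht.b11
    rcases z1 with ⟨z3, z4, z5, z6, z7⟩ | ⟨z3, z4⟩ <;>
    rcases z2 with ⟨y3, y4, y5, y6, y7⟩ | ⟨y3, y4⟩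
    · have hs' := hs z7.1 y6 z6
      have hg := g2 y6
      have z0 := z0 z7.1 z6 z5
      have z9 := h1.slot
      have z8 := h1.pp
      have z10 := h1.f0
      rcases (by omega : x2 = 0 ∨ 1 ≤ x2) with hx2 | hx2
      · have hs' := hs' hx2
        rcases ht.cases with ⟨k1, k2⟩ | ⟨k1, k2⟩ | ⟨k1, k2⟩ | ⟨k1, k2⟩ | ⟨k1, k2⟩ | ⟨k1, k2⟩ |
          ⟨k1, k2⟩ | ⟨k1, k2⟩ | ⟨k1, k2⟩ | ⟨k1, k2⟩ | ⟨k1, k2⟩ <;> omega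
      · clear hs' hs
        rcases ht.cases with ⟨k1, k2⟩ | ⟨k1, k2⟩ | ⟨k1, k2⟩ | ⟨k1, k2⟩ | ⟨k1, k2⟩ | ⟨k1, k2⟩ |
          ⟨k1, k2⟩ | ⟨k1, k2⟩ | ⟨k1, k2⟩ | ⟨k1, k2⟩ | ⟨k1, k2⟩ <;> omega
    · clear hs z0
      rcases ht.cases with ⟨k1, k2⟩ | ⟨k1, k2⟩ | ⟨k1, k2⟩ | ⟨k1, k2⟩ | ⟨k1, k2⟩ | ⟨k1, k2⟩ |
        ⟨k1, k2⟩ | ⟨k1, k2⟩ | ⟨k1, k2⟩ | ⟨k1, k2⟩ | ⟨k1, k2⟩ <;> omega
    · clear hs z0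
      have hg := g2 y6
      rcases ht.cases with ⟨k1, k2⟩ | ⟨k1, k2⟩ | ⟨k1, k2⟩ | ⟨k1, k2⟩ | ⟨k1, k2⟩ | ⟨k1, k2⟩ |
        ⟨k1, k2⟩ | ⟨k1, k2⟩ | ⟨k1, k2⟩ | ⟨k1, k2⟩ | ⟨k1, k2⟩ <;> omega
    · clear hs z0
      rcases ht.cases with ⟨k1, k2⟩ | ⟨k1, k2⟩ | ⟨k1, k2⟩ | ⟨k1, k2⟩ | ⟨k1, k2⟩ | ⟨k1, k2⟩ |
        ⟨k1, k2⟩ | ⟨k1, k2⟩ | ⟨k1, k2⟩ | ⟨k1, k2⟩ | ⟨k1, k2⟩ <;> omega
  · have z1 := h1.zero k1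
    have z2 := h2.zero k2
    have b7 := ht.b7
    have b8 := ht.b8
    have b9 := ht.b9
    have b10 := ht.b10
    have b11 := ht.b11
    clear hs
    rcases z1 with ⟨z3, z4, z5, z6, z7⟩ | ⟨z3, z4⟩ <;>
    rcases z2 with ⟨y3, y4, y5, y6, y7⟩ | ⟨y3, y4⟩
    · rcases ht.cases with ⟨k1, k2⟩ | ⟨k1, k2⟩ | ⟨k1, k2⟩ | ⟨k1, k2⟩ | ⟨k1, k2⟩ | ⟨k1, k2⟩ |
        ⟨k1, k2⟩ | ⟨k1, k2⟩ | ⟨k1, k2⟩ | ⟨k1, k2⟩ | ⟨k1, k2⟩ <;> omega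
    · have hy2 : y2 ≤ 3 := by
        obtain ⟨i1, i2, i3, i4, i5, i6, i7, i8, i9, i10, i11, i12, i13, i14, -, -, -, -⟩ := h2
        rcases (by omega : m2 = 1 ∨ m2 = 3 ∨ 5 ≤ m2) with hm | hm | hm
        · exact g2 hm
        · omega
        · omega
      rcases ht.cases with ⟨k1, k2⟩ | ⟨k1, k2⟩ | ⟨k1, k2⟩ | ⟨k1, k2⟩ | ⟨k1, k2⟩ | ⟨k1, k2⟩ |
        ⟨k1, k2⟩ | ⟨k1, k2⟩ | ⟨k1, k2⟩ | ⟨k1, k2⟩ | ⟨k1, k2⟩ <;> omega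
    · have hy1 : y1 ≤ 3 := by
        obtain ⟨i1, i2, i3, i4, i5, i6, i7, i8, i9, i10, i11, i12, i13, i14, -, -, -, -⟩ := h1
        rcases (by omega : m1 = 1 ∨ m1 = 3 ∨ 5 ≤ m1) with hm | hm | hm
        · exact g1 hm
        · omega
        · omega
      rcases ht.cases with ⟨k1, k2⟩ | ⟨k1, k2⟩ | ⟨k1, k2⟩ | ⟨k1, k2⟩ | ⟨k1, k2⟩ | ⟨k1, k2⟩ |
        ⟨k1, k2⟩ | ⟨k1, k2⟩ | ⟨k1, k2⟩ | ⟨k1, k2⟩ | ⟨k1, k2⟩ <;> omega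
    · rcases ht.cases with ⟨k1, k2⟩ | ⟨k1, k2⟩ | ⟨k1, k2⟩ | ⟨k1, k2⟩ | ⟨k1, k2⟩ | ⟨k1, k2⟩ |
        ⟨k1, k2⟩ | ⟨k1, k2⟩ | ⟨k1, k2⟩ | ⟨k1, k2⟩ | ⟨k1, k2⟩ <;> omega

/-- **two leaves, at most one other hit, small values**. -/
theorem Lc.two1 {P1 N1 m1 e1 A1 y1 x1 f1 P2 N2 m2 e2 A2 y2 x2 f2 : ℤ}
    {W c : ℤ} (h1 : Lc P1 N1 m1 e1 A1 y1 x1 f1) (h2 : Lc P2 N2 m2 e2 A2 y2 x2 f2)
    (g1 : m1 = 1 → y1 ≤ 3) (g2 : m2 = 1 → y2 ≤ 3) (ht : Tb (A1 + A2) c) (hW : 0 ≤ W)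
    (hY : y1 + y2 = 5 - W) (hx : x1 + x2 ≤ 1) (hle : P1 - 2 * e1 ≤ P2 - 2 * e2)
    (hS : (P1 - 2 * e1) + (P2 - 2 * e2) ≤ 2)
    (hH : P1 - 2 * e1 = 0 → P2 - 2 * e2 = 2 → e1 = 0 → e2 = 0 → A1 + A2 ≤ 12) :
    c + 240 - 120 * ((P1 - 2 * e1) + (P2 - 2 * e2)) - 600 - 160 * W - 5 * (x1 + x2) ≤ 0 := by
  have p1 := h1.sm.S0
  have p2 := h2.sm.S0
  have q1 := h1.sm.Se
  have q2 := h2.sm.Se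
  have a1 := h1.A0
  have a2 := h2.A0
  have b1 := h1.y1
  have b2 := h2.y1
  have w1 := h1.x0
  have w2 := h2.x0
  have t1 := h1.e0
  have t2 := h2.e0
  have b7 := ht.b7
  have b8 := ht.b8
  have b9 := ht.b9
  have b10 := ht.b10
  have b11 := ht.b11
  have n1 := h1.q2
  have m1' := h1.slot
  have pp1 := h1.pp
  have f1' := h1.f0
  have n2 := h2.q2
  have m2' := h2.slot
  have pp2 := h2.pp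
  have f2' := h2.f0
  rcases (by omega : (P1 - 2 * e1 = 0 ∧ P2 - 2 * e2 = 2) ∨
      (P1 - 2 * e1 = 0 ∧ P2 - 2 * e2 = 0)) with ⟨k1, k2⟩ | ⟨k1, k2⟩
  · have hH := hH k1 k2
    rcases h1.zero k1 with ⟨z3, z4, z5, z6, z7, z8⟩ | ⟨z3, z4⟩ <;>
    rcases h2.two' k2 with ⟨y3, y4, y5, y6, y7⟩ | ⟨y3, y4⟩
    · have hg := g2 y6
      have he1 : e1 = 0 := by omega
      have hH := hH he1 y7
      rcases ht.cases with ⟨k1, k2⟩ | ⟨k1, k2⟩ | ⟨k1, k2⟩ | ⟨k1, k2⟩ | ⟨k1, k2⟩ | ⟨k1, k2⟩ |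
        ⟨k1, k2⟩ | ⟨k1, k2⟩ | ⟨k1, k2⟩ | ⟨k1, k2⟩ | ⟨k1, k2⟩ <;> omega
    · have n1 := n1 z7 z6 z5
      clear hH g1 g2 n2
      rcases ht.cases with ⟨k1, k2⟩ | ⟨k1, k2⟩ | ⟨k1, k2⟩ | ⟨k1, k2⟩ | ⟨k1, k2⟩ | ⟨k1, k2⟩ |
        ⟨k1, k2⟩ | ⟨k1, k2⟩ | ⟨k1, k2⟩ | ⟨k1, k2⟩ | ⟨k1, k2⟩ <;> omega
    · have hg := g2 y6
      clear hH g1 g2 n1 n2 m1' pp1 f1' m2' pp2 f2'
      rcases ht.cases with ⟨k1, k2⟩ | ⟨k1, k2⟩ | ⟨k1, k2⟩ | ⟨k1, k2⟩ | ⟨k1, k2⟩ | ⟨k1, k2⟩ |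
        ⟨k1, k2⟩ | ⟨k1, k2⟩ | ⟨k1, k2⟩ | ⟨k1, k2⟩ | ⟨k1, k2⟩ <;> omega
    · clear hH g1 g2 n1 n2 m1' pp1 f1' m2' pp2 f2'
      rcases ht.cases with ⟨k1, k2⟩ | ⟨k1, k2⟩ | ⟨k1, k2⟩ | ⟨k1, k2⟩ | ⟨k1, k2⟩ | ⟨k1, k2⟩ |
        ⟨k1, k2⟩ | ⟨k1, k2⟩ | ⟨k1, k2⟩ | ⟨k1, k2⟩ | ⟨k1, k2⟩ <;> omega
  · clear hH n1 n2 m1' pp1 f1' m2' pp2 f2'
    have z1 := h1.zero k1
    have z2 := h2.zero k2
    rcases z1 with ⟨z3, z4, z5, z6, z7⟩ | ⟨z3, z4⟩ <;>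
    rcases z2 with ⟨y3, y4, y5, y6, y7⟩ | ⟨y3, y4⟩
    · rcases ht.cases with ⟨k1, k2⟩ | ⟨k1, k2⟩ | ⟨k1, k2⟩ | ⟨k1, k2⟩ | ⟨k1, k2⟩ | ⟨k1, k2⟩ |
        ⟨k1, k2⟩ | ⟨k1, k2⟩ | ⟨k1, k2⟩ | ⟨k1, k2⟩ | ⟨k1, k2⟩ <;> omega
    · have hy2 : y2 ≤ 3 := by
        obtain ⟨i1, i2, i3, i4, i5, i6, i7, i8, i9, i10, i11, i12, i13, i14, -, -, -, -⟩ := h2
        rcases (by omega : m2 = 1 ∨ m2 = 3 ∨ 5 ≤ m2) with hm | hm | hm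
        · exact g2 hm
        · omega
        · omega
      rcases ht.cases with ⟨k1, k2⟩ | ⟨k1, k2⟩ | ⟨k1, k2⟩ | ⟨k1, k2⟩ | ⟨k1, k2⟩ | ⟨k1, k2⟩ |
        ⟨k1, k2⟩ | ⟨k1, k2⟩ | ⟨k1, k2⟩ | ⟨k1, k2⟩ | ⟨k1, k2⟩ <;> omega
    · have hy1 : y1 ≤ 3 := by
        obtain ⟨i1, i2, i3, i4, i5, i6, i7, i8, i9, i10, i11, i12, i13, i14, -, -, -, -⟩ := h1
        rcases (by omega : m1 = 1 ∨ m1 = 3 ∨ 5 ≤ m1) with hm | hm | hm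
        · exact g1 hm
        · omega
        · omega
      rcases ht.cases with ⟨k1, k2⟩ | ⟨k1, k2⟩ | ⟨k1, k2⟩ | ⟨k1, k2⟩ | ⟨k1, k2⟩ | ⟨k1, k2⟩ |
        ⟨k1, k2⟩ | ⟨k1, k2⟩ | ⟨k1, k2⟩ | ⟨k1, k2⟩ | ⟨k1, k2⟩ <;> omega
    · rcases ht.cases with ⟨k1, k2⟩ | ⟨k1, k2⟩ | ⟨k1, k2⟩ | ⟨k1, k2⟩ | ⟨k1, k2⟩ | ⟨k1, k2⟩ |
        ⟨k1, k2⟩ | ⟨k1, k2⟩ | ⟨k1, k2⟩ | ⟨k1, k2⟩ | ⟨k1, k2⟩ <;> omega

end Pool.Agent.Hyp6
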