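import Pool.Agent.Hyp6.L3Ge
import Pool.Agent.Hyp6.L3G11
import Pool.Agent.Hyp6.L3Yk

/-!
# HYP6 L3Yj: the contacts of a composite class

`Frm.comp_fam2`: a composite class whose contacts lie in two triples and an absorbed set, without a
third triple. `Frm.few_out`: a class with at most one contact point outside of two triples and the inside
points has two leaves of small value. `Frm.cls_leaf`: its leaves of values `-1`, `1` have at most twelve
hits of the two triples.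
-/

set_option autoImplicit false

namespace Pool.Agent.Hyp6

open Finset Pool.Agent.Hyp5 Rt

universe u v

variable {V : Type v} [DecidableEq V] {ι : Type u} [Fintype ι] {B : ι → Finset V}
variable {Q P U : Finset V} {T : Finset ι} {F G C : Finset (Finset V)} {i j : ι}

/-- **several components with contacts in two full blocks**, with one further point. -/
theorem ViolR.fam_comp2 (h : ViolR B Q) (fi : (B i ∩ Q).card = 3)
    (fj : (B j ∩ Q).card = 3)
    (dij : Disjoint (B i ∩ Q) (B j ∩ Q)) (conni : Conn (gr B) (Q \ (B i ∩ Q)))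
    (criti : Crit B (Q \ (B i ∩ Q))) (connj : Conn (gr B) (Q \ (B j ∩ Q)))
    (critj : Crit B (Q \ (B j ∩ Q))) (hGQ : ∀ L ∈ G, L ⊆ Q) (hGc : ∀ L ∈ G, Conn (gr B) L)
    (hGcr : ∀ L ∈ G, Crit B L) (hsep : SepF B G) (hGs : ∀ L ∈ G, sv B L = -1)
    (hLi : Disjoint (G.biUnion id) (B i ∩ Q)) (hLj : Disjoint (G.biUnion id) (B j ∩ Q))
    (hPQ : P ⊆ Q) (hPi : Disjoint P (B i ∩ Q)) (hPj : Disjoint P (B j ∩ Q))
    (hPL : Disjoint P (G.biUnion id)) (hPne : P.Nonempty)
    (hrho : rho B (G.biUnion id ∪ P) ≤ ∑ L ∈ G, rho B L)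
    (hcon : ∀ k, (B k ∩ G.biUnion id).Nonempty →
      B k ∩ Q ⊆ G.biUnion id ∪ ((B i ∩ Q) ∪ ((B j ∩ Q) ∪ P))) (h2 : 2 ≤ G.card)
    (hGP : G.card ≤ P.card + 1) {v0 : V} (hv0 : v0 ∈ Q)
    (hv1 : v0 ∉ G.biUnion id ∪ ((B i ∩ Q) ∪ ((B j ∩ Q) ∪ P))) :
    G.card = 2 ∧ P.card ≤ 2 ∧ ∑ L ∈ G, (dv B Q L + 1) ≤ 2 := by
  classical
  obtain ⟨Y, F, hK, hPY, hGF⟩ := h.exists_KGF fi fj dij conni criti connj critj hGQ hGc hGcr hsep
    hLi hLj hPQ hPi hPL hrho hcon
  have hGne : G.Nonempty := card_pos.1 (by omega)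
  have hne : F.Nonempty := hGne.mono hGF
  have hY8 := hK.Y8 hne
  have hfull := hK.full_lt noU hne
  have hsum := hK.sum_wv
  have hee := hK.ee_le
  have hw12 : ∑ L ∈ G, (dv B Q L + 1) ≤ ∑ L ∈ F, wv B Q L := by
    rw [← sum_congr rfl fun L hL => wv_neg (Q := Q) (hGs L hL)]
    exact sum_le_sum_of_subset_of_nonneg hGF fun M hM _ => wv_nn (hK.cp hM).l_ge
  have k3 : Disjoint (B i ∩ Q) ((B j ∩ Q) ∪ P) := disjoint_union_right.2 ⟨dij, hPi.symm⟩
  have k1 : (B i ∩ Q) ∪ ((B j ∩ Q) ∪ P) ⊆ Y := union_subset hK.iY (union_subset hK.jY hPY)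
  have hc : ((B i ∩ Q) ∪ ((B j ∩ Q) ∪ P)).card = 6 + P.card := by
    rw [card_union_of_disjoint k3, card_union_of_disjoint hPj.symm, fi, fj]
    omega
  have h7 : 6 + P.card ≤ Y.card := by
    rw [← hc]
    exact card_le_card k1
  have hP1 := card_pos.2 hPne
  have hF2 := card_le_card hGF
  rcases hF2.lt_or_eq with hlt | heq
  · refine ⟨by omega, by omega, ?_⟩
    have : F.card = 3 := by omega
    omega
  · have hFe : G = F := eq_of_subset_of_card_le hGF (by omega)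
    have hun : Q \ Y = G.biUnion id := by
      rw [← hK.un, hFe]
    have hvY : v0 ∈ Y := by
      by_contra hvY
      exact hv1 (mem_union_left _ (by rw [← hun]; exact mem_sdiff.2 ⟨hv0, hvY⟩))
    have k4 : insert v0 ((B i ∩ Q) ∪ ((B j ∩ Q) ∪ P)) ⊆ Y := insert_subset hvY k1
    have k5 := card_le_card k4
    rw [card_insert_of_notMem (fun h8 => hv1 (mem_union_right _ h8)), hc] at k5
    have hP : P.card = 1 := by omega
    refine ⟨by omega, by omega, ?_⟩
    omega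

namespace Frm

/-- **several leaves whose contacts lie in two triples and an absorbed set**, with a further point. -/
theorem comp_fam2 (h : Frm B Q T U F) (hv : ViolR B Q) (hi : i ∈ T) (hj : j ∈ T) (hij : i ≠ j)
    (hG : G ⊆ F) (h2 : 2 ≤ G.card)
    (hPQ : P ⊆ Q) (hPi : Disjoint P (B i)) (hPj : Disjoint P (B j))
    (hPL : Disjoint P (G.biUnion id)) (hPne : P.Nonempty)
    (hrho : rho B (G.biUnion id ∪ P) ≤ ∑ L ∈ G, rho B L)
    (hP : ∀ v ∈ Q, v ∉ B i → v ∉ B j → (∃ a, v ∈ B a ∧ (B a ∩ G.biUnion id).Nonempty) →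
      v ∈ G.biUnion id ∪ P)
    (hGP : G.card ≤ P.card + 1) {v0 : V} (hv0 : v0 ∈ Q) (hvi : v0 ∉ B i) (hvj : v0 ∉ B j)
    (hvG : v0 ∉ G.biUnion id) (hvP : v0 ∉ P) :
    G.card = 2 ∧ P.card ≤ 2 ∧ ∑ L ∈ G, (dv B Q L + 1) ≤ 2 := by
  classical
  have fi := h.mtp.tpk.pack.card i hi
  have fj := h.mtp.tpk.pack.card j hj
  have dG : ∀ {a : ι}, a ∈ T → Disjoint (G.biUnion id) (B a ∩ Q) := by
    intro a ha
    rw [disjoint_biUnion_left]
    exact fun L hL => h.disT (hG hL) ha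
  refine hv.fam_comp2 fi fj (h.mtp.tpk.pack.disj i hi j hj hij) (hv.lemA' fi).1
    (hv.lemA' fi).2.1 (hv.lemA' fj).1 (hv.lemA' fj).2.1 (fun L hL => h.FQ (hG hL))
    (fun L hL => h.conn_leaf (hG hL)) (fun L hL => h.critL (hG hL)) (h.sepF.mono hG)
    (fun L hL => h.sv_leaf (hG hL)) (dG hi) (dG hj) hPQ (hPi.mono_right inter_subset_left)
    (hPj.mono_right inter_subset_left) hPL hPne hrho ?_ h2 hGP hv0 ?_
  · intro a ha v hv'
    obtain ⟨hva, hvQ⟩ := mem_inter.1 hv'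
    by_cases hvi : v ∈ B i
    · exact mem_union_right _ (mem_union_left _ (mem_inter.2 ⟨hvi, hvQ⟩))
    by_cases hvj : v ∈ B j
    · exact mem_union_right _ (mem_union_right _ (mem_union_left _ (mem_inter.2 ⟨hvj, hvQ⟩)))
    rcases mem_union.1 (hP v hvQ hvi hvj ⟨a, hva, ha⟩) with h3 | h3
    · exact mem_union_left _ h3
    · exact mem_union_right _ (mem_union_right _ (mem_union_right _ h3))
  · intro h3
    rcases mem_union.1 h3 with h3 | h3
    · exact hvG h3
    rcases mem_union.1 h3 with h3 | h3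
    · exact hvi (mem_inter.1 h3).1
    rcases mem_union.1 h3 with h3 | h3
    · exact hvj (mem_inter.1 h3).1
    · exact hvP h3

omit [Fintype ι] in
theorem in_leaf (h : Frm B Q T U F) {M : Finset V} (hM : M ∈ F) (hi : i ∈ T) {v : V}
    (hv : v ∈ M) : v ∉ B i := fun h1 =>
  (mem_sdiff.1 (h.FD hM hv)).2 (mem_biUnion.2 ⟨i, hi, h1⟩)

/-- the data of a class with at most one contact point outside of two triples and inside points. -/
theorem out_data (h : Frm B Q T U F) (hi : i ∈ T) (hj : j ∈ T) (hCF : C ⊆ F) :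
    Sp.Uin U (slf B F) C ∪ Oc B Q U F i j C ⊆ Q ∧
    Disjoint (Sp.Uin U (slf B F) C ∪ Oc B Q U F i j C) (B i) ∧
    Disjoint (Sp.Uin U (slf B F) C ∪ Oc B Q U F i j C) (B j) ∧
    Disjoint (Sp.Uin U (slf B F) C ∪ Oc B Q U F i j C) (C.biUnion id) ∧
    ∀ v ∈ Q, v ∉ B i → v ∉ B j → (∃ a, v ∈ B a ∧ (B a ∩ C.biUnion id).Nonempty) →
      v ∈ C.biUnion id ∪ (Sp.Uin U (slf B F) C ∪ Oc B Q U F i j C) := by
  classical
  refine ⟨union_subset h.uin_Q (filter_subset _ _), disjoint_union_left.2 ⟨h.uin_disj hi, ?_⟩,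
    disjoint_union_left.2 ⟨h.uin_disj hj, ?_⟩, disjoint_union_left.2 ⟨?_, ?_⟩, ?_⟩
  · exact disjoint_left.2 fun v hv => (mem_filter.1 hv).2.1
  · exact disjoint_left.2 fun v hv => (mem_filter.1 hv).2.2.1
  · rw [disjoint_biUnion_right]
    exact fun L hL => h.uin_leaf (hCF hL)
  · exact disjoint_left.2 fun v hv => (mem_filter.1 hv).2.2.2.1
  · rintro v hvQ hvi hvj ⟨a, hva, ha⟩
    by_cases h1 : v ∈ C.biUnion id
    · exact mem_union_left _ h1
    by_cases h2 : v ∈ Sp.Uin U (slf B F) C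
    · exact mem_union_right _ (mem_union_left _ h2)
    · exact mem_union_right _ (mem_union_right _ (mem_filter.2 ⟨hvQ, hvi, hvj, h1, h2, a,
        mem_Ez.2 ⟨hva, ha⟩⟩))

/-- **at most one further contact point**: two leaves of small value. -/
theorem few_out (h : Frm B Q T U F) (hv : ViolR B Q) (hi : i ∈ T) (hj : j ∈ T) (hij : i ≠ j)
    (hCF : C ⊆ F) (h2 : 2 ≤ C.card) (hn : C.card = (Sp.Uin U (slf B F) C).card + 1)
    {M : Finset V} (hM : M ∈ F) (hMC : M ∉ C) (hO : (Oc B Q U F i j C).card ≤ 1) :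
    C.card = 2 ∧ ∑ L ∈ C, (dv B Q L + 1) ≤ 2 := by
  classical
  have hne : (Sp.Uin U (slf B F) C).Nonempty := card_pos.1 (by omega)
  obtain ⟨v0, hv0⟩ := (h.conn_leaf hM).1
  obtain ⟨d1, d2, d3, d4, d5⟩ := h.out_data hi hj hCF
  have hv0C : v0 ∉ C.biUnion id := by
    intro h3
    obtain ⟨L, hL, hvL⟩ := mem_biUnion.1 h3
    have hne : M ≠ L := fun he => hMC (he ▸ hL)
    exact disjoint_left.1 (h.sepF M hM L (hCF hL) hne).1 hv0 hvL
  have h1 := h.comp_fam2 hv hi hj hij hCF h2 d1 d2 d3 d4 (hne.mono subset_union_left)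
    (h.rho_Oc hCF hne hO) d5 (by
      have := card_le_card (subset_union_left (s₁ := Sp.Uin U (slf B F) C)
        (s₂ := Oc B Q U F i j C))
      omega) (h.FQ hM hv0) (h.in_leaf hM hi hv0) (h.in_leaf hM hj hv0) hv0C (by
      intro h3
      rcases mem_union.1 h3 with h3 | h3
      · exact disjoint_left.1 (h.uin_leaf hM) h3 hv0
      · obtain ⟨-, -, -, -, -, k, hk⟩ := mem_filter.1 h3
        obtain ⟨hvk, w, hw⟩ := mem_Ez.1 hk
        obtain ⟨hwk, hwC⟩ := mem_inter.1 hw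
        obtain ⟨L, hL, hwL⟩ := mem_biUnion.1 hwC
        have hne : M ≠ L := fun he => hMC (he ▸ hL)
        exact (h.sepF M hM L (hCF hL) hne).2 k ⟨v0, mem_inter.2 ⟨hvk, hv0⟩⟩
          ⟨w, mem_inter.2 ⟨hwk, hwL⟩⟩)
  exact ⟨h1.1, h1.2.2⟩

/-- **two leaves of values `-1`, `1`** with one inside point and at most one other hit: at most twelve
hits of the two triples. -/
theorem cls_leaf (h : Frm B Q T U F) (hv : ViolR B Q) (hi : i ∈ T) (hj : j ∈ T) (hij : i ≠ j)
    {L M : Finset V} (hL : L ∈ F) (hM : M ∈ F) (hLM : L ≠ M) {u : V}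
    (hU : Sp.Uin U (slf B F) {L, M} = {u}) (dL : dv B Q L = -1) (dM : dv B Q M = 1)
    (hw : hit B (Rso B Q U F i j {L, M} L) L + hit B (Rso B Q U F i j {L, M} M) M ≤ 1) :
    hit B ((B i ∩ Q) ∪ (B j ∩ Q)) L + hit B ((B i ∩ Q) ∪ (B j ∩ Q)) M ≤ 12 := by
  classical
  have hCF : ({L, M} : Finset (Finset V)) ⊆ F := by
    intro K hK
    rcases mem_insert.1 hK with rfl | hK
    · exact hL
    · rw [mem_singleton.1 hK]
      exact hM
  have hne : (Sp.Uin U (slf B F) {L, M}).Nonempty := by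
    rw [hU]
    exact singleton_nonempty u
  have hO : (Oc B Q U F i j {L, M}).card ≤ 1 := by
    have h1 := Oc_le (B := B) (Q := Q) (U := U) (F := F) {L, M} i j
    rw [sum_pair hLM] at h1
    omega
  obtain ⟨d1, d2, d3, d4, d5⟩ := h.out_data hi hj hCF
  have fi := h.mtp.tpk.pack.card i hi
  have fj := h.mtp.tpk.pack.card j hj
  have dG : ∀ {a : ι}, a ∈ T →
      Disjoint (({L, M} : Finset (Finset V)).biUnion id) (B a ∩ Q) := by
    intro a ha
    rw [disjoint_biUnion_left]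
    exact fun K hK => h.disT (hCF hK) ha
  obtain ⟨Y, F', hK, hPY, hGF⟩ := hv.exists_KGF fi fj (h.mtp.tpk.pack.disj i hi j hj hij)
    (hv.lemA' fi).1 (hv.lemA' fi).2.1 (hv.lemA' fj).1 (hv.lemA' fj).2.1
    (fun K hK => h.FQ (hCF hK)) (fun K hK => h.conn_leaf (hCF hK))
    (fun K hK => h.critL (hCF hK)) (h.sepF.mono hCF) (dG hi) (dG hj) d1
    (d2.mono_right inter_subset_left) d4 (h.rho_Oc hCF hne hO) (by
      intro a ha v hv'
      obtain ⟨hva, hvQ⟩ := mem_inter.1 hv'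
      by_cases hvi : v ∈ B i
      · exact mem_union_right _ (mem_union_left _ (mem_inter.2 ⟨hvi, hvQ⟩))
      by_cases hvj : v ∈ B j
      · exact mem_union_right _ (mem_union_right _ (mem_union_left _ (mem_inter.2 ⟨hvj, hvQ⟩)))
      rcases mem_union.1 (d5 v hvQ hvi hvj ⟨a, hva, ha⟩) with h3 | h3
      · exact mem_union_left _ h3
      · exact mem_union_right _ (mem_union_right _ (mem_union_right _ h3)))
  have hLF' : L ∈ F' := hGF (by simp)
  have hMF' : M ∈ F' := hGF (by simp)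
  have hu : u ∈ Sp.Uin U (slf B F) {L, M} := by
    rw [hU]
    exact mem_singleton_self u
  have hle : ∀ K ∈ F', hit B (Y \ ((B i ∩ Q) ∪ (B j ∩ Q) ∪ {u})) K ≤
      hit B (Rso B Q U F i j {L, M} K) K := by
    intro K hKF
    refine hit_mono_left K fun v hv' => ?_
    obtain ⟨h1, h2⟩ := mem_sdiff.1 hv'
    refine mem_sdiff.2 ⟨hK.YQ h1, fun h3 => ?_⟩
    rcases mem_union.1 h3 with h3 | h3
    · rcases mem_union.1 h3 with h3 | h3
      · exact (mem_sdiff.1 ((hK.parts K hKF).1 h3)).2 h1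
      · exact h2 (mem_union_left _ h3)
    · rw [hU] at h3
      exact h2 (mem_union_right _ h3)
  have h1 := hle L hLF'
  have h2 := hle M hMF'
  exact hK.two_leaf hLF' hMF' (h.sv_leaf hL) (h.nt3 hL) dL (h.sv_leaf hM) (h.nt3 hM) dM
    (hPY (mem_union_left _ hu)) (disjoint_left.1 (h.uin_disj hi) hu)
    (disjoint_left.1 (h.uin_disj hj) hu) (by omega)

end Frm

end Pool.Agent.Hyp6
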