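import Pool.Agent.Hyp6.L3Yi
import Pool.Agent.Hyp6.L3Yj
import Pool.Agent.Hyp6.L3Yh
import Pool.Agent.Hyp6.L3Yb
import Pool.Agent.Hyp6.L3G9
import Pool.Agent.Hyp6.L3G12
import Pool.Agent.Hyp6.L3Q3
import Pool.Agent.Hyp6.L3Tx
import Pool.Agent.Hyp6.L3Y10

/-!
# HYP6 L3Yl: composite classes with two line triples

`tC`: the bound of the need of a line triple. `Stg.lc`: the numbers of a leaf of a composite class.
`StgR.cn_two`: a composite class with exactly two line triples, without inside triples and centres, is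
paid.
-/

set_option autoImplicit false

namespace Pool.Agent.Hyp6

open Finset Pool.Agent.Hyp5 Rt

universe u v

variable {V : Type v} [DecidableEq V] {ι : Type u} [Fintype ι] {B : ι → Finset V}
variable {Q U : Finset V} {T : Finset ι} {F C : Finset (Finset V)} {i j : ι}

/-- the bound of the need of a line triple with `h` hits. -/
def tC (h : ℕ) : ℤ :=
  if h = 0 then -464
  else if h = 1 then -255
  else if h = 2 then -175
  else if h = 3 then -95
  else if h = 4 then 60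
  else if h = 5 then 145
  else if h = 6 then 305
  else if h = 7 then 465
  else if h = 8 then 625
  else if h = 9 then 705
  else if h = 10 then 839
  else 983

theorem tC_thin : ∀ n ∈ range 12, 1 ≤ n → 144 * (n : ℤ) - 560 - pm n ≤ tC n := by decide

theorem tC_fat : ∀ n ∈ range 12, 144 * (n : ℤ) - sF n ≤ tC n := by decide

theorem tC_dec : ∀ a ∈ range 12, ∀ b ∈ range 12,
    (a + b ≤ 7 → tC a + tC b ≤ 50) ∧ (a + b ≤ 8 → tC a + tC b ≤ 210) ∧
    (a + b ≤ 9 → tC a + tC b ≤ 370) ∧ (a + b ≤ 10 → tC a + tC b ≤ 450) ∧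
    (a + b ≤ 11 → tC a + tC b ≤ 584) ∧ (a + b ≤ 12 → tC a + tC b ≤ 728) ∧
    (a + b ≤ 13 → tC a + tC b ≤ 808) ∧ (a + b ≤ 14 → tC a + tC b ≤ 930) ∧
    (a + b ≤ 15 → tC a + tC b ≤ 1090) ∧ (a + b ≤ 16 → tC a + tC b ≤ 1250) ∧
    (a + b ≤ 17 → tC a + tC b ≤ 1330) ∧ (a + b ≤ 18 → tC a + tC b ≤ 1464) ∧
    (a + b ≤ 19 → tC a + tC b ≤ 1608) ∧ (a + b ≤ 20 → tC a + tC b ≤ 1688) ∧
    (a + b ≤ 21 → tC a + tC b ≤ 1822) ∧ tC a + tC b ≤ 1966 ∧
    (a + b ≤ 13 → a ≤ 10 → b ≤ 10 → tC a + tC b ≤ 770) := by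
  decide +kernel

/-- the table. -/
theorem tC_tb {a b : ℕ} (ha : a ≤ 11) (hb : b ≤ 11) {c : ℤ} (hc : c ≤ tC a + tC b) :
    Tb ((a : ℤ) + b) c := by
  obtain ⟨h1, h2, h3, h4, h5, h6, h7, h8, h9, h10, h11, h12, h13, h14, h15, h16, -⟩ :=
    tC_dec a (mem_range.2 (by omega)) b (mem_range.2 (by omega))
  constructor <;> omega

theorem tC_770 {a b : ℕ} (ha : a ≤ 10) (hb : b ≤ 10) (hab : a + b ≤ 13) {c : ℤ}
    (hc : c ≤ tC a + tC b) : c ≤ 770 := by
  have h := (tC_dec a (mem_range.2 (by omega)) b (mem_range.2 (by omega))).2.2.2.2.2.2.2.2.2.2.2.2.2.2.2.2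
  exact hc.trans (h hab ha hb)

namespace Frm

/-- the hits of the outside on a leaf, in four parts. -/
theorem hit_parts4 (h : Frm B Q T U F) (hi : i ∈ T) (hj : j ∈ T) (hij : i ≠ j) {L : Finset V}
    (hL : L ∈ F) : hit B (Q \ L) L = jh B Q i L + jh B Q j L +
      hit B (Sp.Uin U (slf B F) C) L + hit B (Rso B Q U F i j C L) L := by
  classical
  have hdij : Disjoint (B i ∩ Q) (B j ∩ Q) := h.mtp.tpk.pack.disj i hi j hj hij
  have hdi := h.disT hL hi
  have hdj := h.disT hL hj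
  have hdU := h.uin_leaf (C := C) hL
  have hUi := h.uin_disj (C := C) hi
  have hUj := h.uin_disj (C := C) hj
  have h1 : Q \ L = ((B i ∩ Q) ∪ (B j ∩ Q)) ∪ Sp.Uin U (slf B F) C ∪ Rso B Q U F i j C L := by
    ext v
    unfold Rso
    simp only [mem_union, mem_sdiff, mem_inter]
    constructor
    · rintro ⟨h2, h3⟩
      tauto
    · rintro (((h2 | h2) | h2) | h2)
      · exact ⟨h2.2, fun h3 => disjoint_left.1 hdi h3 (mem_inter.2 h2)⟩
      · exact ⟨h2.2, fun h3 => disjoint_left.1 hdj h3 (mem_inter.2 h2)⟩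
      · exact ⟨h.uin_Q h2, fun h3 => disjoint_left.1 hdU h2 h3⟩
      · exact ⟨h2.1, fun h3 => h2.2 (Or.inl (Or.inl h3))⟩
  rw [h1, hit_union_left L, hit_union_left L, hit_union_left L hdij]
  · rfl
  · rw [disjoint_union_left]
    exact ⟨(hUi.mono_right inter_subset_left).symm, (hUj.mono_right inter_subset_left).symm⟩
  · unfold Rso
    rw [disjoint_left]
    intro v hv hv'
    refine (mem_sdiff.1 hv').2 ?_
    rcases mem_union.1 hv with h2 | h2
    · exact mem_union_left _ (mem_union_right _ h2)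
    · exact mem_union_right _ h2

/-- the hits outside of two triples. -/
theorem hit_out2 (h : Frm B Q T U F) (hi : i ∈ T) (hj : j ∈ T) {L : Finset V}
    (hL : L ∈ F) : hit B (Q \ (L ∪ ((B i ∩ Q) ∪ (B j ∩ Q)))) L =
      hit B (Sp.Uin U (slf B F) C) L + hit B (Rso B Q U F i j C L) L := by
  classical
  have hdU := h.uin_leaf (C := C) hL
  have hUi := h.uin_disj (C := C) hi
  have hUj := h.uin_disj (C := C) hj
  have h1 : Q \ (L ∪ ((B i ∩ Q) ∪ (B j ∩ Q))) =
      Sp.Uin U (slf B F) C ∪ Rso B Q U F i j C L := by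
    ext v
    unfold Rso
    simp only [mem_union, mem_sdiff, mem_inter]
    constructor
    · rintro ⟨h2, h3⟩
      tauto
    · rintro (h2 | h2)
      · refine ⟨h.uin_Q h2, ?_⟩
        rintro (h3 | h3 | h3)
        · exact disjoint_left.1 hdU h2 h3
        · exact disjoint_left.1 hUi h2 h3.1
        · exact disjoint_left.1 hUj h2 h3.1
      · exact ⟨h2.1, fun h3 => h2.2 (Or.inl h3)⟩
  rw [h1, hit_union_left L]
  unfold Rso
  rw [disjoint_left]
  intro v hv hv'
  exact (mem_sdiff.1 hv').2 (mem_union_right _ hv)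

/-- every leaf of a class with one point less than leaves has an own hit. -/
theorem own_hit1 (h : Frm B Q T U F) (h2 : 2 ≤ C.card)
    (hn : C.card = (Sp.Uin U (slf B F) C).card + 1) {L : Finset V} (hL : L ∈ C) :
    ∃ u ∈ Sp.Uin U (slf B F) C, 1 ≤ hit B {u} L := by
  classical
  have hne : (Sp.Uin U (slf B F) C).Nonempty := card_pos.1 (by omega)
  have h1 := h.ge.surplus _ (uin_U (B := B) (F := F) (U := U) (C := C)) hne
  have h3 : nbF (gr B) F (Sp.Uin U (slf B F) C) ⊆ C := by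
    intro D hD
    obtain ⟨h5, x, hx, y, hy, hxy⟩ := mem_nbF.1 hD
    exact (mem_filter.1 hx).2 (mem_slf.2 ⟨h5, y, hy, hxy⟩)
  have h4 : nbF (gr B) F (Sp.Uin U (slf B F) C) = C :=
    eq_of_subset_of_card_le h3 (by omega)
  rw [← h4] at hL
  obtain ⟨h5, x, hx, y, hy, hne, k, hxk, hyk⟩ := mem_nbF.1 hL
  refine ⟨x, hx, ?_⟩
  unfold hit
  exact le_trans (card_pos.2 ⟨x, mem_inter.2 ⟨hxk, mem_singleton_self x⟩⟩)
    (single_le_sum (f := fun i => (B i ∩ ({x} : Finset V)).card) (fun i _ => Nat.zero_le _)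
      (cost_mem_tch.2 ⟨y, mem_inter.2 ⟨hyk, hy⟩⟩))

/-- a point with a hit on a leaf, outside of it, is in a triple or a point of `U`. -/
theorem hit_cases (h : Frm B Q T U F) {L : Finset V} (hL : L ∈ F) {p : V} (hpQ : p ∈ Q)
    (hpL : p ∉ L) (hp : 1 ≤ hit B {p} L) : (∃ k ∈ T, p ∈ B k ∩ Q) ∨ p ∈ U := by
  classical
  have h1 : ∃ k, p ∈ B k ∧ (B k ∩ L).Nonempty := by
    by_contra hcon
    push Not at hcon
    unfold hit at hp
    rw [sum_eq_zero] at hp
    · omega
    · intro k hk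
      rw [card_eq_zero]
      ext w
      simp only [mem_inter, mem_singleton, notMem_empty, iff_false]
      rintro ⟨h2, rfl⟩
      exact (cost_mem_tch.1 hk).ne_empty (hcon k h2)
  obtain ⟨k, hpk, hk⟩ := h1
  by_contra hcon
  push Not at hcon
  obtain ⟨hcT, hcU⟩ := hcon
  have h2 := h.inter_leaf hL hk
  have h3 : (B k ∩ L) ∪ (B k ∩ (T.biUnion B ∩ Q)) ∪ (B k ∩ U) ⊆ (B k ∩ Q).erase p := by
    intro v hv
    rcases mem_union.1 hv with h4 | h4
    · rcases mem_union.1 h4 with h4 | h4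
      · obtain ⟨h5, h6⟩ := mem_inter.1 h4
        exact mem_erase.2 ⟨fun he => hpL (he ▸ h6), mem_inter.2 ⟨h5, h.FQ hL h6⟩⟩
      · obtain ⟨h5, h6⟩ := mem_inter.1 h4
        obtain ⟨h7, h8⟩ := mem_inter.1 h6
        refine mem_erase.2 ⟨?_, mem_inter.2 ⟨h5, h8⟩⟩
        rintro rfl
        obtain ⟨m, hm, hvm⟩ := mem_biUnion.1 h7
        exact hcT m hm (mem_inter.2 ⟨hvm, h8⟩)
    · obtain ⟨h5, h6⟩ := mem_inter.1 h4
      exact mem_erase.2 ⟨fun he => hcU (he ▸ h6), mem_inter.2 ⟨h5, sdiff_subset (h.UD h6)⟩⟩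
  have h4 := card_le_card h3
  rw [card_erase_of_mem (mem_inter.2 ⟨hpk, hpQ⟩)] at h4
  have h5 : Disjoint (B k ∩ L) (B k ∩ (T.biUnion B ∩ Q)) := by
    rw [disjoint_left]
    intro v h6 h7
    exact (mem_sdiff.1 (h.FD hL (mem_inter.1 h6).2)).2 (mem_inter.1 (mem_inter.1 h7).2).1
  have h6 : Disjoint ((B k ∩ L) ∪ (B k ∩ (T.biUnion B ∩ Q))) (B k ∩ U) := by
    rw [disjoint_left]
    intro v h6 h7
    have h8 := (mem_inter.1 h7).2
    rcases mem_union.1 h6 with h6 | h6
    · exact disjoint_left.1 (h.ge.FU L hL) (mem_inter.1 h6).2 h8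
    · exact (mem_sdiff.1 (h.UD h8)).2 (mem_inter.1 (mem_inter.1 h6).2).1
  rw [card_union_of_disjoint h6, card_union_of_disjoint h5] at h4
  have h7 := card_pos.2 ⟨p, mem_inter.2 ⟨hpk, hpQ⟩⟩
  omega

/-- **(Q2) at a leaf of a class**. -/
theorem lc_q2 (h : Frm B Q T U F) (hv : ViolR B Q) (hi : i ∈ T) (hj : j ∈ T) (hij : i ≠ j)
    {L : Finset V} (hL : L ∈ F) (hm : L.card = 3) (hN : nt B L 1 = 1)
    (hy : hit B (Sp.Uin U (slf B F) C) L = 1) (hx : hit B (Rso B Q U F i j C L) L = 1) :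
    jh B Q i L + jh B Q j L ≠ 7 := by
  classical
  intro h7
  obtain ⟨u, hu, hu1⟩ : ∃ u ∈ Sp.Uin U (slf B F) C, hit B {u} L ≠ 0 := by
    by_contra hcon
    push Not at hcon
    have h1 := hit_U_sum (B := B) (Sp.Uin U (slf B F) C) L
    have h2 : ∑ u ∈ Sp.Uin U (slf B F) C, uh B u L = 0 := sum_eq_zero fun u hu => hcon u hu
    omega
  obtain ⟨p, hp, hp1⟩ : ∃ p ∈ Rso B Q U F i j C L, hit B {p} L ≠ 0 := by
    by_contra hcon
    push Not at hcon
    have h1 := hit_U_sum (B := B) (Rso B Q U F i j C L) L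
    have h2 : ∑ u ∈ Rso B Q U F i j C L, uh B u L = 0 := sum_eq_zero fun u hu => hcon u hu
    omega
  have hu2 : hit B {u} L = 1 := by
    have := hit_mono_left (B := B) L (singleton_subset_iff.2 hu)
    omega
  have hp2 : hit B {p} L = 1 := by
    have := hit_mono_left (B := B) L (singleton_subset_iff.2 hp)
    omega
  obtain ⟨hpQ, hpn⟩ := mem_sdiff.1 hp
  simp only [mem_union, mem_inter, not_or, not_and] at hpn
  obtain ⟨⟨hpL, hpi, hpj⟩, hpU⟩ := hpn
  have huU := uin_U hu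
  have hez : ∀ w, hit B {w} L = 1 → (Ez B L w).card = 1 := by
    intro w hw
    have h1 := hit_eq_Ez (B := B) {w} L
    rw [sum_singleton] at h1
    omega
  rcases h.hit_cases hL hpQ hpL (by omega) with ⟨k, hk, hpk⟩ | hpU'
  · have huk : u ∉ B k := disjoint_left.1 (h.uin_disj hk) hu
    have huL : u ∉ L := disjoint_left.1 (h.uin_leaf hL) hu
    obtain ⟨s, hs⟩ := card_pos.1 (by rw [hez u hu2]; exact Nat.one_pos : 0 < (Ez B L u).card)
    obtain ⟨hus, v, hv1⟩ := mem_Ez.1 hs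
    obtain ⟨hvs, hvL⟩ := mem_inter.1 hv1
    have hs1 : (B s ∩ L).card = 1 := by
      have h1 := h.two_leaf hL hvs hvL
      have h2 : insert u (B s ∩ L) ⊆ B s ∩ Dp B Q T := by
        intro w hw
        rcases mem_insert.1 hw with rfl | hw
        · exact mem_inter.2 ⟨hus, h.UD huU⟩
        · obtain ⟨h3, h4⟩ := mem_inter.1 hw
          exact mem_inter.2 ⟨h3, h.FD hL h4⟩
      have h3 := card_le_card h2
      rw [card_insert_of_notMem (fun h4 => huL (mem_inter.1 h4).2)] at h3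
      have h4 := card_pos.2 ⟨v, hv1⟩
      omega
    refine h.q2 hv hL hm hN hi hj hk hij ?_ ?_ h7 (h.uin_Q hu) huL
      (disjoint_left.1 (h.uin_disj hi) hu) (disjoint_left.1 (h.uin_disj hj) hu) huk (hez u hu2)
      ⟨s, hus, hs1⟩ hpk (hez p hp2)
    · rintro rfl
      exact hpi (mem_inter.1 hpk).1 hpQ
    · rintro rfl
      exact hpj (mem_inter.1 hpk).1 hpQ
  · have h1 : ({u, p} : Finset V) ⊆ U := by
      intro w hw
      rcases mem_insert.1 hw with rfl | hw
      · exact huU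
      · rw [mem_singleton.1 hw]
        exact hpU'
    have hup : u ≠ p := by
      rintro rfl
      exact hpU hu
    have h2 := hit_mono_left (B := B) L h1
    have h3 := h.hitU_one hL
    have h4 := hit_U_sum (B := B) {u, p} L
    rw [sum_pair hup] at h4
    have h5 : uh B u L = 1 := hu2
    have h6 : uh B p L = 1 := hp2
    omega

end Frm

theorem Sm.sum {τ : Type*} [DecidableEq τ] {A : Finset τ} {S E N H Y x : τ → ℤ}
    (h : ∀ L ∈ A, Sm 1 (S L) (E L) (N L) (H L) (Y L) (x L)) :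
    Sm A.card (∑ L ∈ A, S L) (∑ L ∈ A, E L) (∑ L ∈ A, N L) (∑ L ∈ A, H L) (∑ L ∈ A, Y L)
      (∑ L ∈ A, x L) := by
  induction A using Finset.induction_on with
  | empty =>
    simp only [sum_empty, card_empty, Nat.cast_zero]
    exact ⟨le_refl _, le_refl _, le_refl _, le_refl _, by norm_num, by norm_num, by norm_num,
      by norm_num⟩
  | insert L A hL ih =>
    have h1 := (h L (mem_insert_self _ _)).add (ih fun K hK => h K (mem_insert_of_mem hK))
    rw [sum_insert hL, sum_insert hL, sum_insert hL, sum_insert hL, sum_insert hL, sum_insert hL,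
      card_insert_of_notMem hL]
    push_cast
    rw [add_comm (A.card : ℤ) 1]
    exact h1

/-- two points of a violator have at most three common blocks. -/
theorem ViolR.hit_point (hv : ViolR B Q) {u z : V} (hu : u ∈ Q) (hz : z ∈ Q) (huz : u ≠ z) :
    hit B {u} {z} ≤ 3 := by
  have h1 := hit_eq_Ez (B := B) {u} {z}
  rw [sum_singleton] at h1
  rw [h1]
  refine (card_le_card ?_).trans (hv.twin hu hz huz)
  intro k hk
  obtain ⟨h2, w, hw⟩ := mem_Ez.1 hk
  obtain ⟨h3, h4⟩ := mem_inter.1 hw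
  rw [mem_singleton.1 h4] at h3
  exact mem_filter.2 ⟨mem_univ _, h2, h3⟩

section

variable [DecidableEq ι] {P : Finset (Finset (Finset V))} {a : V → Finset (Finset V) → ℕ}

namespace Stg

/-- **the numbers of a leaf of a composite class**. -/
theorem lc (s : Stg B Q T U F P a) (hC : C ∈ P) (hK : KC B Q T U F C = ∅) (h2 : 2 ≤ C.card)
    (hi : i ∈ T) (hj : j ∈ T) (hij : i ≠ j) {L : Finset V} (hL : L ∈ C) :
    Lc (Pp B L) (nt B L 1) L.card (ee B Q L) ((jh B Q i L : ℤ) + jh B Q j L)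
      (hit B (Sp.Uin U (slf B F) C) L) (hit B (Rso B Q U F i j C L) L) (fs B Q L) := by
  have hCF : C ⊆ F := (s.part.ptn.vc C hC).sub
  have hLF := hCF hL
  have hn := s.card_comp hC hK
  have h1 := s.one hLF
  have h3 := s.hit_all hLF
  have h4 := s.frm.hit_parts4 (C := C) hi hj hij hLF
  have h5 := s.frm.hit_out2 (C := C) hi hj hLF
  have h6 := s.frm.few s.viol i hi j hj hij L hLF
  have h7 : hit B ((B i ∩ Q) ∪ (B j ∩ Q)) L = jh B Q i L + jh B Q j L :=
    hit_union_left L (s.frm.mtp.tpk.pack.disj i hi j hj hij)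
  rw [h5, h7, s.dv_W hLF] at h6
  obtain ⟨u, hu, hu1⟩ := s.frm.own_hit1 h2 hn hL
  have h8 := hit_mono_left (B := B) L (singleton_subset_iff.2 hu)
  have h9 := hit_mono_left (B := B) L (Frm.uin_U (B := B) (F := F) (U := U) (C := C))
  have h10 := h1.gn
  have h11 := h1.slot
  have h12 := h1.pp
  have h13 := h1.f0
  have h14 := h1.e0
  obtain ⟨f1, f2, -, f4⟩ := h6
  have hq := s.frm.lc_q2 (C := C) s.viol hi hj hij hLF
  rw [h4] at h3
  push_cast at h3 f1 f2 f4
  refine ⟨h12, by linarith, h1.m1, h1.mo, h1.n1, h1.no, h1.pt, h14, h13, h1.p0, by positivity,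
    by omega, by omega, by positivity, fun h => ?_, fun h => ?_, fun h => ?_, ?_⟩
  · exact f1 (by linarith)
  · exact f2 (by linarith)
  · exact f4 (by linarith)
  · intro hm hN hy hx
    by_contra hcon
    have hm' : L.card = 3 := by exact_mod_cast hm
    have hN' : nt B L 1 = 1 := by exact_mod_cast hN
    have hy' : hit B (Sp.Uin U (slf B F) C) L = 1 := by exact_mod_cast hy
    have hx' : hit B (Rso B Q U F i j C L) L = 1 := by exact_mod_cast hx
    have h15 := hq hm' hN' hy' hx'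
    apply h15
    have h16 : (jh B Q i L : ℤ) + jh B Q j L = 7 := by
      rw [hm, hN] at h12
      rw [hN] at h11
      rw [hy, hx] at h3
      omega
    exact_mod_cast h16

/-- the own hits of a class. -/
theorem sum_y (s : Stg B Q T U F P a) (hC : C ∈ P) :
    ∑ L ∈ C, (hit B (Sp.Uin U (slf B F) C) L : ℤ) =
      5 * ((Sp.Uin U (slf B F) C).card : ℤ) - lsC B Q T U F C := by
  have h1 : ∑ L ∈ C, (hit B (Sp.Uin U (slf B F) C) L : ℤ) =
      ∑ u ∈ Sp.Uin U (slf B F) C, (uC B u C : ℤ) := by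
    unfold uC
    push_cast
    rw [sum_comm]
    refine sum_congr rfl fun L _ => ?_
    rw [Frm.hit_U_sum]
    push_cast
    rfl
  rw [h1, sum_congr rfl fun u hu => s.frm.uC_in s.viol.reg s.part hC hu, sum_sub_distrib, sum_const,
    nsmul_eq_mul]
  unfold lsC
  push_cast
  ring

/-- the other hits of a class with two line triples. -/
theorem sum_x (s : Stg B Q T U F P a) (hC : C ∈ P) (hK : KC B Q T U F C = ∅) (hi : i ∈ T)
    (hj : j ∈ T) (hij : i ≠ j) (ha : aC B Q T U F P C = {i, j}) :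
    ∑ L ∈ C, (hit B (Rso B Q U F i j C L) L : ℤ) =
      ∑ k ∈ Trs B Q T (Rg B Q T U F) U F P, (jC B Q k C : ℤ) + gC B U F P C := by
  have hCF : C ⊆ F := (s.part.ptn.vc C hC).sub
  have h1 := s.frm.sum_hitT s.viol.reg Rg_sub s.part hC
  have h2 := s.frm.sum_hitU s.viol.reg s.part hC
  have h3 := s.sum_at2 hC
  have h4 := s.sum_y hC
  have h5 : ∀ L ∈ C, (hit B (Rso B Q U F i j C L) L : ℤ) = (∑ j ∈ T, (jh B Q j L : ℤ)) +
      hit B U L - ((jh B Q i L : ℤ) + jh B Q j L) - hit B (Sp.Uin U (slf B F) C) L := by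
    intro L hL
    have h6 := s.hit_all (hCF hL)
    have h7 := s.frm.hit_parts4 (C := C) hi hj hij (hCF hL)
    rw [h7] at h6
    push_cast at h6
    linarith
  rw [sum_congr rfl h5, sum_sub_distrib, sum_sub_distrib, sum_add_distrib, sum_add_distrib]
  have hK' : Sp.Kin (Rg B Q T U F) (slj B Q F) C = ∅ := hK
  rw [hK', sum_empty, h3, ha, sum_pair hij] at h1
  have h8 : ∀ k, (jC B Q k C : ℤ) = ∑ L ∈ C, (jh B Q k L : ℤ) := by
    intro k
    unfold jC
    push_cast
    rfl
  rw [h8 i, h8 j] at h1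
  linarith

/-- **two leaves, ordered**. -/
theorem cn_pair (s : Stg B Q T U F P a) {L M : Finset V}
    (hC : ({L, M} : Finset (Finset V)) ∈ P) (hLM : L ≠ M) (hK : KC B Q T U F {L, M} = ∅)
    (hi : i ∈ T) (hj : j ∈ T) (hij : i ≠ j) (hsi : ¬ slj B Q F i ⊆ {L, M})
    (hsj : ¬ slj B Q F j ⊆ {L, M})
    (hle : Pp B L - 2 * (ee B Q L : ℤ) ≤ Pp B M - 2 * (ee B Q M : ℤ))
    (ha : jC B Q i {L, M} ≤ 11) (hb : jC B Q j {L, M} ≤ 11) {c : ℤ}
    (hc : c ≤ tC (jC B Q i {L, M}) + tC (jC B Q j {L, M})) :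
    c + 240 - 120 * ((Pp B L - 2 * (ee B Q L : ℤ)) + (Pp B M - 2 * (ee B Q M : ℤ))) - 600 -
      160 * (lsC B Q T U F {L, M} : ℤ) - 5 * ((hit B (Rso B Q U F i j {L, M} L) L : ℤ) +
        hit B (Rso B Q U F i j {L, M} M) M) ≤ 0 := by
  classical
  have hCF : ({L, M} : Finset (Finset V)) ⊆ F := (s.part.ptn.vc _ hC).sub
  have hLF : L ∈ F := hCF (by simp)
  have hMF : M ∈ F := hCF (by simp)
  have h2 : ({L, M} : Finset (Finset V)).card = 2 := card_pair hLM
  have hn := s.card_comp hC hK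
  obtain ⟨u, hU⟩ := card_eq_one.1 (by omega : (Sp.Uin U (slf B F) {L, M}).card = 1)
  have hu : u ∈ Sp.Uin U (slf B F) {L, M} := by
    rw [hU]
    exact mem_singleton_self u
  have l1 := s.lc hC hK (by omega) hi hj hij (L := L) (by simp)
  have l2 := s.lc hC hK (by omega) hi hj hij (L := M) (by simp)
  have hjC : ∀ k, jC B Q k {L, M} = jh B Q k L + jh B Q k M := fun k => sum_pair hLM
  have hA : (jC B Q i {L, M} : ℤ) + jC B Q j {L, M} =
      ((jh B Q i L : ℤ) + jh B Q j L) + ((jh B Q i M : ℤ) + jh B Q j M) := by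
    rw [hjC i, hjC j]
    push_cast
    ring
  have tb := tC_tb ha hb hc
  rw [hA] at tb
  have hW : (0 : ℤ) ≤ lsC B Q T U F {L, M} := by positivity
  have hY := s.sum_y hC
  rw [sum_pair hLM, hU, card_singleton, Nat.cast_one, mul_one] at hY
  have hpt : ∀ K ∈ F, (K.card : ℤ) = 1 → (hit B (Sp.Uin U (slf B F) {L, M}) K : ℤ) ≤ 3 := by
    intro K hKF hK1
    obtain ⟨z, rfl⟩ := card_eq_one.1 (by exact_mod_cast hK1 : K.card = 1)
    rw [hU]
    have h3 : u ≠ z := by
      rintro rfl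
      exact disjoint_left.1 (s.frm.uin_leaf hKF) hu (mem_singleton_self u)
    exact_mod_cast s.viol.hit_point (s.frm.uin_Q hu) (s.frm.FQ hKF (mem_singleton_self z)) h3
  rw [← hU] at hY
  obtain ⟨K, hK1, hK2⟩ := not_subset.1 hsi
  have hKF : K ∈ F := slj_sub hK1
  by_cases hx : 2 ≤ (hit B (Rso B Q U F i j {L, M} L) L : ℤ) +
      hit B (Rso B Q U F i j {L, M} M) M
  · refine Lc.two l1 l2 (hpt L hLF) (hpt M hMF) tb hW (by linarith) hx hle ?_ ?_
    · intro hm1 hm2 hN1 _ hA13 hW1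
      obtain ⟨p, rfl⟩ := card_eq_one.1 (by exact_mod_cast hm2 : M.card = 1)
      have hN1' : nt B L 1 = 1 := by exact_mod_cast hN1
      have hu4 : 4 ≤ uh B u L + uh B u {p} := by
        have h3 : (hit B {u} L : ℤ) + hit B {u} {p} = 4 := by
          rw [hU] at hY
          linarith
        have h4 : hit B {u} L + hit B {u} {p} = 4 := by exact_mod_cast h3
        exact h4.ge
      have h5 := s.viol.priv31 s.frm (s.frm.gdT (R := Rg B Q T U F)) s.part hC
        (by exact_mod_cast hm1) hN1'.le hU hu4 hi hsi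
      have h6 := s.viol.priv31 s.frm (s.frm.gdT (R := Rg B Q T U F)) s.part hC
        (by exact_mod_cast hm1) hN1'.le hU hu4 hj hsj
      rw [← hjC i] at h5
      rw [← hjC j] at h6
      refine tC_770 h5 h6 ?_ hc
      have : (jC B Q i {L, {p}} : ℤ) + jC B Q j {L, {p}} = 13 := by
        rw [hA]
        exact hA13
      omega
    · intro hP2 hx2
      have hx2' : hit B (Rso B Q U F i j {L, M} M) M = 0 := by exact_mod_cast hx2
      have h3 := s.frm.one_three s.viol hi hj hij hMF (p := u) (fun v hv hvu => ?_)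
        (by rw [s.dv_W hMF]; linarith)
      · have h7 : hit B ((B i ∩ Q) ∪ (B j ∩ Q)) M = jh B Q i M + jh B Q j M :=
          hit_union_left M (s.frm.mtp.tpk.pack.disj i hi j hj hij)
        rw [h7] at h3
        exact_mod_cast h3
      · have h4 : v ∈ Rso B Q U F i j {L, M} M := by
          obtain ⟨h5, h6⟩ := mem_sdiff.1 hv
          refine mem_sdiff.2 ⟨h5, fun h7 => ?_⟩
          rcases mem_union.1 h7 with h7 | h7
          · exact h6 h7
          · rw [hU, mem_singleton] at h7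
            exact hvu h7
        have h5 := hit_eq_Ez (B := B) (Rso B Q U F i j {L, M} M) M
        rw [hx2'] at h5
        have h6 := (sum_eq_zero_iff.1 h5.symm) v h4
        exact card_eq_zero.1 h6
  · have hO : (Oc B Q U F i j {L, M}).card ≤ 1 := by
      have h3 := Frm.Oc_le (B := B) (Q := Q) (U := U) (F := F) {L, M} i j
      rw [sum_pair hLM] at h3
      omega
    have h4 := (s.frm.few_out s.viol hi hj hij hCF (by omega) hn hKF hK2 hO).2
    rw [sum_pair hLM, s.dv_W hLF, s.dv_W hMF] at h4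
    refine Lc.two1 l1 l2 (hpt L hLF) (hpt M hMF) tb hW (by linarith) (by omega) hle (by linarith)
      fun hP1 hP2 _ _ => ?_
    have h5 := s.frm.cls_leaf s.viol hi hj hij hLF hMF hLM hU (by rw [s.dv_W hLF]; linarith)
      (by rw [s.dv_W hMF]; linarith) (by omega)
    have h7 : ∀ N, hit B ((B i ∩ Q) ∪ (B j ∩ Q)) N = jh B Q i N + jh B Q j N := fun N =>
      hit_union_left N (s.frm.mtp.tpk.pack.disj i hi j hj hij)
    rw [h7, h7] at h5
    exact_mod_cast h5

end Stg

namespace StgR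

/-- the need of a line triple. -/
theorem cJ_le (s : StgR B Q T U F P a) (hC : C ∈ P) (hj : j ∈ aC B Q T U F P C) :
    cJ B Q U F P j C ≤ tC (jC B Q j C) := by
  have hjt := (Sp.mem_atl.1 hj).1
  have h11 := s.toStg.jC_le11 hjt hC
  unfold cJ
  split_ifs with h2
  · exact tC_thin _ (mem_range.2 (by omega)) (s.jC_thin hj h2)
  · exact tC_fat _ (mem_range.2 (by omega))

/-- a composite class with exactly two line triples, without inside triples, if the remaining
triples pay `149` for every hit. -/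
theorem cn_two' (s : StgR B Q T U F P a) (hC : C ∈ P) (hf : ¬ Ful B Q T U F P a C)
    (h2 : 2 ≤ C.card) (ha : (aC B Q T U F P C).card = 2) (hK : KC B Q T U F C = ∅)
    (h3 : ∑ j ∈ Trs B Q T (Rg B Q T U F) U F P,
        (144 * (jC B Q j C : ℤ) - Xv 149 B Q T U F P j C) ≤
      -5 * ∑ j ∈ Trs B Q T (Rg B Q T U F) U F P, (jC B Q j C : ℤ)) : NdOk B Q T U F P a C := by
  classical
  refine s.nd_ok hC hf fun _ => ?_
  obtain ⟨i, j, hij, he⟩ := card_eq_two.1 ha
  have hia : i ∈ aC B Q T U F P C := by rw [he]; simp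
  have hja : j ∈ aC B Q T U F P C := by rw [he]; simp
  have hit' := (Sp.mem_atl.1 hia).1
  have hjt' := (Sp.mem_atl.1 hja).1
  have hi : i ∈ T := (s.toStg.tl_sub hit').1
  have hj : j ∈ T := (s.toStg.tl_sub hjt').1
  have hsi : ¬ slj B Q F i ⊆ C := (mem_filter.1 (mem_filter.1 hit').1).2.2 C hC
  have hsj : ¬ slj B Q F j ⊆ C := (mem_filter.1 (mem_filter.1 hjt').1).2.2 C hC
  have hCF : C ⊆ F := (s.toStg.part.ptn.vc C hC).sub
  have hcard := s.toStg.card_comp hC hK
  have h4 := s.toStg.sum_x hC hK hi hj hij he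
  have h5 := s.toStg.uin_sum (C := C)
  have h6 := s.cJ_le hC hia
  have h7 := s.cJ_le hC hja
  have h8 := s.toStg.jC_le11 hit' hC
  have h9 := s.toStg.jC_le11 hjt' hC
  have h10 : ∑ L ∈ C, (240 * (ee B Q L : ℤ) - 120 * Pp B L + 120) =
      120 * (C.card : ℤ) - 120 * ∑ L ∈ C, (Pp B L - 2 * (ee B Q L : ℤ)) := by
    rw [mul_sum]
    have : (120 : ℤ) * (C.card : ℤ) = ∑ L ∈ C, (120 : ℤ) := by
      rw [sum_const, nsmul_eq_mul]
      ring
    rw [this, ← sum_sub_distrib]
    exact sum_congr rfl fun L _ => by ring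
  suffices hmain : (cJ B Q U F P i C + cJ B Q U F P j C) + 120 * (C.card : ℤ) -
      120 * ∑ L ∈ C, (Pp B L - 2 * (ee B Q L : ℤ)) -
      600 * ((Sp.Uin U (slf B F) C).card : ℤ) - 160 * (lsC B Q T U F C : ℤ) -
      5 * ∑ L ∈ C, (hit B (Rso B Q U F i j C L) L : ℤ) ≤ 0 by
    rw [he, sum_pair hij]
    unfold nC
    rw [hK, sum_empty, h5, h10]
    rw [h4] at hmain
    linarith
  have hc : cJ B Q U F P i C + cJ B Q U F P j C ≤ tC (jC B Q i C) + tC (jC B Q j C) := by
    linarith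
  have hA : (jC B Q i C : ℤ) + jC B Q j C = ∑ L ∈ C, ((jh B Q i L : ℤ) + jh B Q j L) := by
    unfold jC
    push_cast
    rw [sum_add_distrib]
  have hW : (0 : ℤ) ≤ lsC B Q T U F C := by positivity
  have hY := s.toStg.sum_y hC
  rcases (by omega : C.card = 2 ∨ C.card = 3 ∨ 4 ≤ C.card) with hc2 | hc3 | hc4
  · obtain ⟨L, M, hLM, rfl⟩ := card_eq_two.1 hc2
    have hp : (Sp.Uin U (slf B F) {L, M}).card = 1 := by omega
    rw [hc2, hp, sum_pair hLM, sum_pair hLM]
    rcases le_total (Pp B L - 2 * (ee B Q L : ℤ)) (Pp B M - 2 * (ee B Q M : ℤ)) with hle | hle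
    · have h11 := s.toStg.cn_pair hC hLM hK hi hj hij hsi hsj hle h8 h9 hc
      push_cast
      linarith
    · have hpc : ({M, L} : Finset (Finset V)) = {L, M} := pair_comm M L
      have h11 := s.toStg.cn_pair (L := M) (M := L) (i := i) (j := j)
        (c := cJ B Q U F P i {L, M} + cJ B Q U F P j {L, M}) (by rw [hpc]; exact hC)
        hLM.symm (by rw [hpc]; exact hK) hi hj hij (by rw [hpc]; exact hsi)
        (by rw [hpc]; exact hsj) hle (by rw [hpc]; exact h8) (by rw [hpc]; exact h9)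
        (by rw [hpc]; exact hc)
      rw [hpc] at h11
      push_cast
      linarith
  · obtain ⟨L, M, N, hLM, hLN, hMN, rfl⟩ := card_eq_three.1 hc3
    have hp : (Sp.Uin U (slf B F) {L, M, N}).card = 2 := by omega
    have hs3 : ∀ f : Finset V → ℤ, ∑ K ∈ ({L, M, N} : Finset (Finset V)), f K =
        f L + f M + f N := by
      intro f
      rw [sum_insert (by simp [hLM, hLN]), sum_pair hMN]
      ring
    have l1 := s.toStg.lc hC hK h2 hi hj hij (L := L) (by simp)
    have l2 := s.toStg.lc hC hK h2 hi hj hij (L := M) (by simp)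
    have l3 := s.toStg.lc hC hK h2 hi hj hij (L := N) (by simp)
    have tb := tC_tb h8 h9 hc
    rw [hA, hs3] at tb
    rw [hs3, hp] at hY
    push_cast at hY
    have hx : 2 ≤ ∑ L' ∈ ({L, M, N} : Finset (Finset V)),
        hit B (Rso B Q U F i j {L, M, N} L') L' := by
      by_contra hcon
      have h12 := Frm.Oc_le (B := B) (Q := Q) (U := U) (F := F) {L, M, N} i j
      obtain ⟨K, hK1, hK2⟩ := not_subset.1 hsi
      have h13 := (s.toStg.frm.few_out s.toStg.viol hi hj hij hCF h2 hcard (slj_sub hK1) hK2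
        (by omega)).1
      omega
    have hx' : 2 ≤ ∑ L' ∈ ({L, M, N} : Finset (Finset V)),
        (hit B (Rso B Q U F i j {L, M, N} L') L' : ℤ) := by exact_mod_cast hx
    rw [hs3] at hx'
    have h14 := Lc.three l1 l2 l3 tb hW (by linarith) hx'
    rw [hc3, hp, hs3, hs3]
    push_cast
    linarith
  · have h11 := Sm.sum fun L hL => (s.toStg.lc hC hK h2 hi hj hij (L := L) hL).sm
    obtain ⟨k1, k2, k3, k4, k5, k6, -, -⟩ := h11
    have tb := tC_tb h8 h9 hc
    rw [hA] at tb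
    have hcz : (C.card : ℤ) = (Sp.Uin U (slf B F) C).card + 1 := by exact_mod_cast hcard
    rw [hcz] at k5 k6 ⊢
    have h12 := tb_four (p := ((Sp.Uin U (slf B F) C).card : ℤ)) tb (by omega) k2 hW hY k4
      (by linarith) k6 k3 k1
    linarith

/-- **a composite class with exactly two line triples**, without inside triples and centres. -/
theorem cn_two (s : StgR B Q T U F P a) (hC : C ∈ P) (hf : ¬ Ful B Q T U F P a C)
    (h2 : 2 ≤ C.card) (ha : (aC B Q T U F P C).card = 2) (hK : KC B Q T U F C = ∅)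
    (hn : NCt B Q T U F P C) : NdOk B Q T U F P a C :=
  s.cn_two' hC hf h2 ha hK (s.toStg.trs_sum_le hC hn)

end StgR

end

end Pool.Agent.Hyp6
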