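import Pool.Agent.Hyp6.L3Yl

/-!
# HYP6 L3Ym: composite classes with at least three line triples

`Tq3`: the bounds of the need of at least three line triples. `Sm.cn3`: the class is paid, by numbers.
`StgR.CN`: **composite classes without inside triples and centres**, with at least two line triples.
-/

set_option autoImplicit false

namespace Pool.Agent.Hyp6

open Finset Pool.Agent.Hyp5 Rt

universe u v

/-- the bounds of the need `c` of at least three line triples with `H` hits. -/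
structure Tq3 (H c : ℤ) : Prop where
  lin : c ≤ 120 * H - 1005
  b14 : H ≤ 14 → c ≤ 553
  b15 : H = 15 → c ≤ 675
  b16 : H = 16 → c ≤ 835
  b17 : H = 17 → c ≤ 995

theorem tC_lin : ∀ n ∈ range 12, tC n ≤ 120 * (n : ℤ) - 335 := by decide

theorem tC_dec3 : ∀ a ∈ range 12, ∀ b ∈ range 12, ∀ c ∈ range 12,
    (a + b + c ≤ 14 → tC a + tC b + tC c ≤ 553) ∧ (a + b + c ≤ 15 → tC a + tC b + tC c ≤ 675) ∧
    (a + b + c ≤ 16 → tC a + tC b + tC c ≤ 835) ∧
    (a + b + c ≤ 17 → tC a + tC b + tC c ≤ 995) := by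
  decide +kernel

/-- the needs of at least three line triples. -/
theorem t3_of {τ : Type*} [DecidableEq τ] {A : Finset τ} (h3 : 3 ≤ A.card) {h : τ → ℕ}
    {c : τ → ℤ} (h11 : ∀ j ∈ A, h j ≤ 11) (hc : ∀ j ∈ A, c j ≤ tC (h j)) :
    Tq3 (∑ j ∈ A, (h j : ℤ)) (∑ j ∈ A, c j) := by
  have h1 : ∑ j ∈ A, c j ≤ 120 * ∑ j ∈ A, (h j : ℤ) - 335 * (A.card : ℤ) := by
    have h2 : ∑ j ∈ A, c j ≤ ∑ j ∈ A, (120 * (h j : ℤ) - 335) := sum_le_sum fun j hj =>
      (hc j hj).trans (tC_lin _ (mem_range.2 (by have := h11 j hj; omega)))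
    rw [sum_sub_distrib, ← mul_sum, sum_const, nsmul_eq_mul] at h2
    linarith
  have h3' : (3 : ℤ) ≤ A.card := by exact_mod_cast h3
  rcases h3.lt_or_eq with h4 | h4
  · have h4' : (4 : ℤ) ≤ A.card := by exact_mod_cast h4
    exact ⟨by linarith, fun _ => by linarith, fun _ => by linarith, fun _ => by linarith,
      fun _ => by linarith⟩
  · obtain ⟨x, y, z, hxy, hxz, hyz, rfl⟩ := card_eq_three.1 h4.symm
    have hs : ∀ f : τ → ℤ, ∑ j ∈ ({x, y, z} : Finset τ), f j = f x + f y + f z := by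
      intro f
      rw [sum_insert (by simp [hxy, hxz]), sum_pair hyz]
      ring
    have e1 := h11 x (by simp)
    have e2 := h11 y (by simp)
    have e3 := h11 z (by simp)
    have k1 := hc x (by simp)
    have k2 := hc y (by simp)
    have k3 := hc z (by simp)
    obtain ⟨t1, t2, t3, t4⟩ := tC_dec3 (h x) (mem_range.2 (by omega)) (h y)
      (mem_range.2 (by omega)) (h z) (mem_range.2 (by omega))
    rw [hs, hs] at h1 ⊢
    refine ⟨by linarith, fun h5 => ?_, fun h5 => ?_, fun h5 => ?_, fun h5 => ?_⟩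
    · have := t1 (by omega)
      linarith
    · have := t2 (by omega)
      linarith
    · have := t3 (by omega)
      linarith
    · have := t4 (by omega)
      linarith

/-- **a class with at least three line triples is paid**. -/
theorem Sm.cn3 {n S E N H Y x p W c : ℤ} (h : Sm n S E N H Y x) (hn : n = p + 1) (hp : 1 ≤ p)
    (t : Tq3 H c) (hW : 0 ≤ W) (hY : Y = 5 * p - W) (hN : n ≤ N) :
    c + 120 * n - 120 * S - 600 * p - 160 * W - 5 * x ≤ 0 := by
  obtain ⟨h1, h2, h3, h4, h5, h6, h7, h8⟩ := h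
  obtain ⟨t1, t2, t3, t4, t5⟩ := t
  subst hn hY
  rcases (by omega : p = 1 ∨ p = 2 ∨ 3 ≤ p) with rfl | rfl | hp3
  · rcases (by omega : H ≤ 14 ∨ H = 15 ∨ H = 16 ∨ H = 17 ∨ 18 ≤ H) with hH | hH | hH | hH | hH
    · have := t2 hH
      omega
    · have := t3 hH
      omega
    · have := t4 hH
      omega
    · have := t5 hH
      omega
    · rcases (by omega : S = 0 ∨ S = 2 ∨ S = 4 ∨ S = 6 ∨ 8 ≤ S) with hS | hS | hS | hS | hS
      · have hb : H ≤ W + 13 := by omega
        have hw : 5 ≤ W := by omega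
        linarith
      · omega
      · omega
      · omega
      · omega
  · rcases (by omega : S = 0 ∨ S = 2 ∨ S = 4 ∨ S = 6 ∨ 8 ≤ S) with hS | hS | hS | hS | hS
    · omega
    · omega
    · omega
    · omega
    · omega
  · omega

theorem NumL.sm {p n m f e g h A y x : ℤ} (k : NumL p n m f e g h) (hs : A + y + x = h + g)
    (hx : 0 ≤ x) (hy : y ≤ g) : Sm 1 (p - 2 * e) e n A y x := by
  obtain ⟨h1, h2, h3, h4, h5, h6, h7, h8, h9, h10, h11, h12, h13⟩ := k
  refine ⟨by omega, h9, hx, by omega, ?_, by omega, by omega, by omega⟩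
  rcases (by omega : m = 1 ∨ 3 ≤ m) with hm | hm
  · have := h7 hm
    omega
  · omega

variable {V : Type v} [DecidableEq V] {ι : Type u} [Fintype ι] [DecidableEq ι] {B : ι → Finset V}
variable {Q U : Finset V} {T : Finset ι} {F C : Finset (Finset V)}
  {P : Finset (Finset (Finset V))} {a : V → Finset (Finset V) → ℕ}

namespace StgR

/-- **the sums of a class without inside triples**. -/
theorem smC (s : StgR B Q T U F P a) (hC : C ∈ P) (hK : KC B Q T U F C = ∅) :
    Sm C.card (∑ L ∈ C, (Pp B L - 2 * (ee B Q L : ℤ))) (∑ L ∈ C, (ee B Q L : ℤ))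
      (∑ L ∈ C, (nt B L 1 : ℤ)) (∑ j ∈ aC B Q T U F P C, (jC B Q j C : ℤ))
      (5 * ((Sp.Uin U (slf B F) C).card : ℤ) - lsC B Q T U F C)
      (∑ k ∈ Trs B Q T (Rg B Q T U F) U F P, (jC B Q k C : ℤ) + gC B U F P C) ∧
    (C.card : ℤ) ≤ ∑ L ∈ C, (nt B L 1 : ℤ) ∧
    nC B Q T U F P C = ∑ j ∈ Trs B Q T (Rg B Q T U F) U F P,
        (144 * (jC B Q j C : ℤ) - Xv 149 B Q T U F P j C) - 5 * (gC B U F P C : ℤ) +
      120 * (C.card : ℤ) - 120 * ∑ L ∈ C, (Pp B L - 2 * (ee B Q L : ℤ)) -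
      600 * ((Sp.Uin U (slf B F) C).card : ℤ) - 160 * (lsC B Q T U F C : ℤ) := by
  classical
  have hCF : C ⊆ F := (s.toStg.part.ptn.vc C hC).sub
  have haT : aC B Q T U F P C ⊆ T := fun j hj => (s.toStg.tl_sub (Sp.mem_atl.1 hj).1).1
  have h5 := s.toStg.uin_sum (C := C)
  have h1 := s.toStg.frm.sum_hitT s.toStg.viol.reg Rg_sub s.toStg.part hC
  have h4 := s.toStg.frm.sum_hitU s.toStg.viol.reg s.toStg.part hC
  have h6 := s.toStg.sum_at2 hC
  have hY := s.toStg.sum_y hC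
  have hK' : Sp.Kin (Rg B Q T U F) (slj B Q F) C = ∅ := hK
  rw [hK', sum_empty, h6] at h1
  have h8 : ∑ j ∈ aC B Q T U F P C, (jC B Q j C : ℤ) =
      ∑ L ∈ C, ∑ j ∈ aC B Q T U F P C, (jh B Q j L : ℤ) := by
    unfold jC
    push_cast
    exact sum_comm
  obtain ⟨x, hx⟩ : ∃ x : Finset V → ℤ, ∀ L, x L = ∑ j ∈ T, (jh B Q j L : ℤ) + hit B U L -
      ∑ j ∈ aC B Q T U F P C, (jh B Q j L : ℤ) - hit B (Sp.Uin U (slf B F) C) L :=
    ⟨_, fun _ => rfl⟩
  have hsm := Sm.sum (A := C) (S := fun L => Pp B L - 2 * (ee B Q L : ℤ))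
    (E := fun L => (ee B Q L : ℤ)) (N := fun L => (nt B L 1 : ℤ))
    (H := fun L => ∑ j ∈ aC B Q T U F P C, (jh B Q j L : ℤ))
    (Y := fun L => (hit B (Sp.Uin U (slf B F) C) L : ℤ)) (x := x) fun L hL => by
      have e1 : (hit B (Sp.Uin U (slf B F) C) L : ℤ) ≤ hit B U L := by
        exact_mod_cast hit_mono_left (B := B) L (Frm.uin_U (B := B) (F := F) (U := U) (C := C))
      have e2 : ∑ j ∈ aC B Q T U F P C, (jh B Q j L : ℤ) ≤ ∑ j ∈ T, (jh B Q j L : ℤ) :=
        sum_le_sum_of_subset_of_nonneg haT fun _ _ _ => by positivity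
      exact (s.toStg.one (hCF hL)).sm (by rw [hx]; ring) (by rw [hx]; linarith) e1
  have hxs : ∑ L ∈ C, x L =
      ∑ k ∈ Trs B Q T (Rg B Q T U F) U F P, (jC B Q k C : ℤ) + gC B U F P C := by
    rw [sum_congr rfl fun L _ => hx L, sum_sub_distrib, sum_sub_distrib, sum_add_distrib, ← h8]
    linarith
  have hN : (C.card : ℤ) ≤ ∑ L ∈ C, (nt B L 1 : ℤ) := by
    have e1 : ∑ L ∈ C, (1 : ℤ) ≤ ∑ L ∈ C, (nt B L 1 : ℤ) :=
      sum_le_sum fun L hL => (s.toStg.one (hCF hL)).n1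
    rw [sum_const, nsmul_eq_mul, mul_one] at e1
    exact e1
  rw [← h8, hY, hxs] at hsm
  refine ⟨hsm, hN, ?_⟩
  have h10 : ∑ L ∈ C, (240 * (ee B Q L : ℤ) - 120 * Pp B L + 120) =
      120 * (C.card : ℤ) - 120 * ∑ L ∈ C, (Pp B L - 2 * (ee B Q L : ℤ)) := by
    rw [mul_sum]
    have : (120 : ℤ) * (C.card : ℤ) = ∑ L ∈ C, (120 : ℤ) := by
      rw [sum_const, nsmul_eq_mul]
      ring
    rw [this, ← sum_sub_distrib]
    exact sum_congr rfl fun L _ => by ring
  unfold nC
  rw [hK, sum_empty, h5, h10]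
  ring

/-- a composite class with at least three line triples, without inside triples, if the remaining
triples pay `149` for every hit. -/
theorem cn_three' (s : StgR B Q T U F P a) (hC : C ∈ P) (hf : ¬ Ful B Q T U F P a C)
    (h2 : 2 ≤ C.card) (ha : 3 ≤ (aC B Q T U F P C).card) (hK : KC B Q T U F C = ∅)
    (h3 : ∑ j ∈ Trs B Q T (Rg B Q T U F) U F P,
        (144 * (jC B Q j C : ℤ) - Xv 149 B Q T U F P j C) ≤
      -5 * ∑ j ∈ Trs B Q T (Rg B Q T U F) U F P, (jC B Q j C : ℤ)) :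
    NdOk B Q T U F P a C := by
  refine s.nd_ok hC hf fun _ => ?_
  obtain ⟨hsm, hN, hnC⟩ := s.smC hC hK
  have hcard := s.toStg.card_comp hC hK
  have ht := t3_of (A := aC B Q T U F P C) ha (h := fun j => jC B Q j C)
    (c := fun j => cJ B Q U F P j C) (fun j hj => s.toStg.jC_le11 (Sp.mem_atl.1 hj).1 hC)
    (fun j hj => s.cJ_le hC hj)
  have hW : (0 : ℤ) ≤ lsC B Q T U F C := by positivity
  have hcz : (C.card : ℤ) = (Sp.Uin U (slf B F) C).card + 1 := by exact_mod_cast hcard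
  have hmain := hsm.cn3 hcz (by omega) ht hW rfl hN
  rw [hnC]
  linarith

/-- **a composite class with at least three line triples**, without inside triples and centres. -/
theorem cn_three (s : StgR B Q T U F P a) (hC : C ∈ P) (hf : ¬ Ful B Q T U F P a C)
    (h2 : 2 ≤ C.card) (ha : 3 ≤ (aC B Q T U F P C).card) (hK : KC B Q T U F C = ∅)
    (hn : NCt B Q T U F P C) : NdOk B Q T U F P a C :=
  s.cn_three' hC hf h2 ha hK (s.toStg.trs_sum_le hC hn)

/-- **composite classes with at least two line triples**, without inside triples and centres. -/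
theorem CN (s : StgR B Q T U F P a) : ∀ C ∈ P, ¬ Ful B Q T U F P a C → 2 ≤ C.card →
    2 ≤ (aC B Q T U F P C).card → KC B Q T U F C = ∅ → NCt B Q T U F P C →
    ¬ Exa B Q T U F P C → NdOk B Q T U F P a C := by
  intro C hC hf h2 ha hK hn _
  rcases (by omega : (aC B Q T U F P C).card = 2 ∨ 3 ≤ (aC B Q T U F P C).card) with h3 | h3
  · exact s.cn_two hC hf h2 h3 hK hn
  · exact s.cn_three hC hf h2 h3 hK hn

end StgR

end Pool.Agent.Hyp6
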