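import Pool.Agent.Hyp6.L3Yn
import Pool.Agent.Hyp6.L3L2m

/-!
# HYP6 L3Yo0: one line triple and two centred triples, the integers

`fC`: the bound of the need of the line triple. `Sm.pc2`: two centred triples, the class is paid by
numbers or one of four rows. `Lc.pc_row`: three of the rows, at the leaves.
-/

set_option autoImplicit false

namespace Pool.Agent.Hyp6

open Finset Pool.Agent.Hyp5 Rt

universe u v

/-- the bound of the need of the only line triple, with `h` hits. -/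
def fC (h : ℕ) : ℤ :=
  if h = 0 then -464
  else if h = 1 then -255
  else if h = 2 then -175
  else if h = 3 then -95
  else if h = 4 then 60
  else if h = 5 then 145
  else if h = 6 then 305
  else if h = 7 then 465
  else if h = 8 then 625
  else if h = 9 then 705
  else if h = 10 then 775
  else 870

theorem fC_thin : ∀ n ∈ range 12, 1 ≤ n → 144 * (n : ℤ) - 560 - pmC n ≤ fC n := by decide

theorem fC_fat : ∀ n ∈ range 12, 144 * (n : ℤ) - sF n ≤ fC n := by decide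

theorem fC_lin : ∀ n ∈ range 12, fC n ≤ 120 * (n : ℤ) - 335 := by decide

/-- the bounds of the need `c` of one line triple and two centred triples with `H` hits. -/
def Tq12 (H c : ℤ) : Prop :=
  (H ≤ 17 ∧ c ≤ 160 * H - 1583) ∨ (H = 18 ∧ c ≤ 1217) ∨ (H = 19 ∧ c ≤ 1297) ∨
    (H = 20 ∧ c ≤ 1452) ∨ (21 ≤ H ∧ H ≤ 24 ∧ c ≤ 160 * H - 1823) ∨ (H = 25 ∧ c ≤ 2097) ∨
    (26 ≤ H ∧ c ≤ 2262)

theorem t12_of {h s : ℕ} (hh : h ≤ 11) (hs : s ≤ 16) {c : ℤ}
    (hc : c ≤ fC h + (160 * (s : ℤ) - 1168)) : Tq12 ((h : ℤ) + s) c := by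
  unfold Tq12
  interval_cases h <;> simp only [fC] at hc <;> norm_num at hc <;> omega

/-- the need of the rows. -/
theorem t12_two {h s : ℕ} (hh : h ≤ 11) (h2 : 2 ≤ h) {c : ℤ}
    (hc : c ≤ fC h + (160 * (s : ℤ) - 1168)) :
    c ≤ 160 * ((h : ℤ) + s) - 1663 ∧ (3 ≤ h → c ≤ 160 * ((h : ℤ) + s) - 1743) := by
  interval_cases h <;> simp only [fC] at hc <;> norm_num at hc <;> omega

/-- **one line triple and two centred triples**: the class is paid, or one of four rows. -/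
theorem Sm.pc2 {n S E N H Y x p W c : ℤ} (h : Sm n S E N H Y x) (hn : n = p + 1) (hp : 1 ≤ p)
    (t : Tq12 H c) (hW : 0 ≤ W) (hY : Y = 5 * p - W) (hN : n ≤ Y) (hY2 : 2 * p ≤ Y) :
    c + 120 * n - 120 * S - 600 * p - 160 * W - 5 * x ≤ 0 ∨
    (n = 2 ∧ E = 0 ∧ x = 0 ∧ ((S = 0 ∧ W = 3 ∧ H = 16) ∨ (S = 2 ∧ H = 14 + W) ∨
      (S = 4 ∧ H = 16 + W) ∨ (S = 6 ∧ W = 0 ∧ H = 17))) := by
  obtain ⟨h1, h2, h3, h4, h5, h6, h7, h8⟩ := h
  unfold Tq12 at t
  subst hn hY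
  by_contra hcon
  rw [not_or] at hcon
  obtain ⟨c1, c2⟩ := hcon
  rcases (by omega : p = 1 ∨ p = 2 ∨ p = 3 ∨ p = 4 ∨ 5 ≤ p) with rfl | rfl | rfl | rfl | hp5
  · rcases (by omega : S = 0 ∨ S = 2 ∨ S = 4 ∨ S = 6 ∨ S = 8 ∨ S = 10 ∨ S = 12 ∨ 14 ≤ S) with
      rfl | rfl | rfl | rfl | rfl | rfl | rfl | hS <;>
    rcases (by omega : W = 0 ∨ W = 1 ∨ W = 2 ∨ W = 3) with rfl | rfl | rfl | rfl <;>
    rcases t with t | t | t | t | t | t | t <;> omega
  · clear c2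
    rcases (by omega : S = 0 ∨ S = 2 ∨ S = 4 ∨ S = 6 ∨ S = 8 ∨ S = 10 ∨ 12 ≤ S) with
      rfl | rfl | rfl | rfl | rfl | rfl | hS <;>
    rcases (by omega : W = 0 ∨ W = 1 ∨ W = 2 ∨ W = 3 ∨ W = 4 ∨ W = 5 ∨ W = 6) with
      rfl | rfl | rfl | rfl | rfl | rfl | rfl <;>
    rcases t with t | t | t | t | t | t | t <;> omega
  · clear c2
    rcases (by omega : S = 0 ∨ S = 2 ∨ S = 4 ∨ S = 6 ∨ 8 ≤ S) with rfl | rfl | rfl | rfl | hS <;>
    rcases (by omega : W = 0 ∨ W = 1 ∨ W = 2 ∨ W = 3 ∨ W = 4 ∨ W = 5 ∨ 6 ≤ W) with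
      rfl | rfl | rfl | rfl | rfl | rfl | hW6 <;>
    rcases t with t | t | t | t | t | t | t <;> omega
  · clear c2
    rcases (by omega : S = 0 ∨ S = 2 ∨ 4 ≤ S) with rfl | rfl | hS <;>
    rcases (by omega : W = 0 ∨ W = 1 ∨ W = 2 ∨ 3 ≤ W) with rfl | rfl | rfl | hW3 <;>
    rcases t with t | t | t | t | t | t | t <;> omega
  · omega

/-- the numbers of a leaf of value at most four. -/
theorem Lc.tot {P N m e A y x f : ℤ} (l : Lc P N m e A y x f) (he : e = 0) (hP : P ≤ 4) :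
    (P = 0 ∧ m = 3 ∧ N = 1 ∧ y = 1 ∧ A + y + x + f = 9) ∨ (P = 2 ∧ A + y + x + f = 10) ∨
      (P = 4 ∧ N = 3 ∧ A + y + x + f = 12) := by
  obtain ⟨a1, a2, a3, a4, a5, a6, a7, a8, a9, a10, a11, a12, a13, a14, -, -, -, -⟩ := l
  rcases (by omega : m = 1 ∨ m = 3 ∨ 5 ≤ m) with rfl | rfl | h13
  · have := a7 rfl
    clear a7
    omega
  · clear a7
    omega
  · clear a7
    omega

/-- the other hits of a tight leaf. -/
theorem Lc.tight {P N m e A y x f : ℤ} (l : Lc P N m e A y x f) (he : e = 0) (hf : f = 0)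
    (hP : P ≤ 4) (t1 : P - 2 * e = 4 → x = 0 → A ≤ 7) :
    (P = 0 ∧ 2 ≤ x) ∨ P = 2 ∨ (P = 4 ∧ 1 ≤ x) := by
  have hx0 := l.x0
  rcases l.tot he hP with ⟨h1, h2, h3, h4, h5⟩ | ⟨h1, h2⟩ | ⟨h1, h2, h3⟩
  · refine Or.inl ⟨h1, ?_⟩
    have h6 := l.neg (by omega)
    have h7 := l.q2 h2 h3 h4
    by_contra hcon
    rcases (by omega : x = 0 ∨ x = 1) with h8 | h8
    · have := h6 (by omega)
      omega
    · have := h7 h8
      omega
  · exact Or.inr (Or.inl h1)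
  · refine Or.inr (Or.inr ⟨h1, ?_⟩)
    by_contra hcon
    have h4 := t1 (by omega) (by omega)
    have h5 := l.yn
    omega

/-- **three of the rows**: the hits of the line triple are `x + x'`. -/
theorem Lc.pc_row {P N m e A y x f P' N' m' e' A' y' x' f' W : ℤ} (l1 : Lc P N m e A y x f)
    (l2 : Lc P' N' m' e' A' y' x' f') (t1 : P - 2 * e = 4 → x = 0 → A ≤ 7)
    (t2 : P' - 2 * e' = 4 → x' = 0 → A' ≤ 7) (hE : e + e' = 0) (hY : y + y' = 5 - W)
    (hr : ((P - 2 * e) + (P' - 2 * e') = 0 ∧ A + A' + (x + x') = 16 ∧ W = 3) ∨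
      ((P - 2 * e) + (P' - 2 * e') = 2 ∧ A + A' + (x + x') = 14 + W) ∨
      ((P - 2 * e) + (P' - 2 * e') = 4 ∧ A + A' + (x + x') = 16 + W)) :
    2 ≤ x + x' ∧ ((P - 2 * e) + (P' - 2 * e') ≠ 2 → 3 ≤ x + x') := by
  have e1 := l1.e0
  have e2 := l2.e0
  have p1 := l1.p0
  have p2 := l2.p0
  have f1 := l1.f0
  have f2 := l2.f0
  have x1 := l1.x0
  have x2 := l2.x0
  have he : e = 0 := by omega
  have he' : e' = 0 := by omega
  have hP : P ≤ 4 := by omega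
  have hP' : P' ≤ 4 := by omega
  have k1 := l1.tot he hP
  have k2 := l2.tot he' hP'
  have hf : f = 0 := by omega
  have hf' : f' = 0 := by omega
  have g1 := l1.tight he hf hP t1
  have g2 := l2.tight he' hf' hP' t2
  rcases k1 with k1 | k1 | k1 <;> rcases k2 with k2 | k2 | k2 <;>
    rcases hr with hr | hr | hr <;> omega

end Pool.Agent.Hyp6
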