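import Pool.Agent.Hyp6.L3Y10
import Pool.Agent.Hyp6.L3Yg

/-!
# HYP6 L3Yp0: refusals at a composite class which is its own parallel class

`Stg.par_comp`: a class with one point less than leaves is a parallel class. `Frm.refuse_leaf`: a leaf
of a class refuses two points of a triple whose third point sees another class. `Frm.refuse_leaf2`: the
same for two triples whose third points see two further classes, the three classes being free.
-/

set_option autoImplicit false

namespace Pool.Agent.Hyp6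

open Finset Pool.Agent.Hyp5 Rt

universe u v

section

variable {V : Type v} [DecidableEq V] {ι : Type u} {B : ι → Finset V}
  {Q U : Finset V} {T : Finset ι} {F : Finset (Finset V)} {j : ι}
  {τ : Type*} [DecidableEq τ] {Ts : Finset τ} {NT : τ → Finset (Finset V)}
  {P : Finset (Finset (Finset V))} {C D : Finset (Finset V)}

/-- outside one leaf of every class of a free set the points can be matched. -/
theorem dfc_leaf (hg : Sp.Gd F F U (slf B F) Ts NT) (hP : Sp.MinP F F U (slf B F) Ts NT P)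
    {S : Finset (Finset (Finset V))} (hS : S ⊆ P) (hn : Sp.nP U (slf B F) P S ≤ 0)
    {x : Finset (Finset V) → Finset V} (hx : ∀ D ∈ S, x D ∈ D) :
    Sp.dfc U (slf B F) (S.image x) ≤ 0 := by
  classical
  have h1 := hP.ptn.free hg (X := Sp.Ux U (slf B F) P) (S := S) (W := ∅) hS (empty_subset _) hn
    (x := x) (fun D hD => hx D (mem_sdiff.1 hD).1)
  rw [sdiff_empty, sdiff_empty, biUnion_empty, empty_union] at h1
  refine Sp.dfc_le fun Z hZ => ?_
  refine le_trans (Sp.le_dfc (hZ.trans ?_)) h1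
  intro w hw
  by_cases h3 : ∃ E ∈ P, slf B F w ⊆ E
  · obtain ⟨E, hE, h4⟩ := h3
    exact mem_union_right _ (mem_biUnion.2 ⟨E, hE, mem_filter.2 ⟨hw, h4⟩⟩)
  · push Not at h3
    exact mem_union_left _ (mem_filter.2 ⟨hw, h3⟩)

variable [Fintype ι]

/-- **a leaf refuses two points of a triple whose third point sees another class**. -/
theorem Frm.refuse_leaf (h : Frm B Q T U F) (hg : Sp.Gd F F U (slf B F) Ts NT)
    (hP : Sp.MinP F F U (slf B F) Ts NT P) (hC : C ∈ P) (hD : D ∈ P) (hne : C ≠ D)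
    {L : Finset V} (hL : L ∈ C) (hj : j ∈ T)
    {x : V} (hx : x ∈ B j ∩ Q) {M : Finset V} (hM : M ∈ D) (hxM : M ∈ slf B F x) {X : Finset V}
    (hXQ : X ⊆ Q) (hX : B j ∩ Q ⊆ insert x X) : rho B L + 1 ≤ rho B (L ∪ X) := by
  classical
  have hCF : C ⊆ F := (hP.ptn.vc C hC).sub
  have hLM : M ≠ L := by
    rintro rfl
    exact disjoint_left.1 (hP.ptn.dj C hC D hD hne) hL hM
  have h1 := h.cost (A := {L}) (singleton_subset_iff.2 (hCF hL)) Dcl.empty (T' := ∅)
    (empty_subset _) (U' := ∅) (empty_subset _) (g' := fun _ => ∅) ⟨by simp, by simp, by simp⟩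
    (I := {j}) (singleton_subset_iff.2 hj) (disjoint_empty_right _) (P := X) (R := {x}) hXQ (by
      intro k hk v hv
      rw [mem_singleton.1 hk] at hv
      rcases mem_insert.1 (hX hv) with h2 | h2
      · exact Or.inr (mem_singleton.2 h2)
      · exact Or.inl h2) (by
      rw [singleton_subset_iff, singleton_biUnion]
      exact hx) (x := fun _ => M) (by
      intro p hp
      rw [mem_singleton.1 hp]
      exact ⟨hxM, fun h2 => hLM (mem_singleton.1 h2)⟩) (by
      intro p hp q hq _
      rw [mem_singleton.1 hp, mem_singleton.1 hq]) (by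
      rw [sdiff_empty, image_singleton]
      have h2 := dfc_leaf hg hP (S := {C, D}) (by
        intro E hE
        rcases mem_insert.1 hE with rfl | hE
        · exact hC
        · exact mem_singleton.1 hE ▸ hD) (hP.pair hg hC hD hne)
        (x := fun E => if E = C then L else M) (by
        intro E hE
        rcases mem_insert.1 hE with rfl | hE
        · rw [if_pos rfl]
          exact hL
        · rw [mem_singleton.1 hE, if_neg hne.symm]
          exact hM)
      rw [image_insert, image_singleton, if_pos rfl, if_neg hne.symm] at h2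
      exact h2)
  have h3 : Zn B Q (∅ : Finset ι) ∅ {L} ∅ = L := by
    unfold Zn
    simp
  rw [h3, card_singleton] at h1
  exact h1

/-- **a leaf refuses four points of two triples** whose third points see two further classes. -/
theorem Frm.refuse_leaf2 (h : Frm B Q T U F) (hg : Sp.Gd F F U (slf B F) Ts NT)
    (hP : Sp.MinP F F U (slf B F) Ts NT P) {D1 D2 : Finset (Finset V)} (hC : C ∈ P) (hD1 : D1 ∈ P)
    (hD2 : D2 ∈ P) (h01 : C ≠ D1) (h02 : C ≠ D2) (h12 : D1 ≠ D2)
    (hn : Sp.nP U (slf B F) P {C, D1, D2} ≤ 0) {L : Finset V} (hL : L ∈ C) {j1 j2 : ι}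
    (hj1 : j1 ∈ T) (hj2 : j2 ∈ T) (hj : j1 ≠ j2) {x1 x2 : V} (hx1 : x1 ∈ B j1 ∩ Q)
    (hx2 : x2 ∈ B j2 ∩ Q) {M1 M2 : Finset V} (hM1 : M1 ∈ D1) (hM2 : M2 ∈ D2)
    (hs1 : M1 ∈ slf B F x1) (hs2 : M2 ∈ slf B F x2) {X : Finset V} (hXQ : X ⊆ Q)
    (hX1 : B j1 ∩ Q ⊆ insert x1 X) (hX2 : B j2 ∩ Q ⊆ insert x2 X) :
    rho B L + 2 ≤ rho B (L ∪ X) := by
  classical
  have hCF : C ⊆ F := (hP.ptn.vc C hC).sub
  have hd : ∀ {E E' : Finset (Finset V)}, E ∈ P → E' ∈ P → E ≠ E' → ∀ {A : Finset V}, A ∈ E →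
      A ∈ E' → False := fun hE hE' hne _ h1 h2 =>
    disjoint_left.1 (hP.ptn.dj _ hE _ hE' hne) h1 h2
  have hL1 : M1 ≠ L := fun h1 => hd hC hD1 h01 hL (h1 ▸ hM1)
  have hL2 : M2 ≠ L := fun h1 => hd hC hD2 h02 hL (h1 ▸ hM2)
  have hM12 : M1 ≠ M2 := fun h1 => hd hD1 hD2 h12 (h1 ▸ hM1) hM2
  have hx12 : x1 ≠ x2 := by
    rintro rfl
    exact disjoint_left.1 (h.mtp.tpk.pack.disj j1 hj1 j2 hj2 hj) hx1 hx2
  set f : V → Finset V := fun p => if p = x1 then M1 else M2 with hf
  have f1 : f x1 = M1 := by simp [hf]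
  have f2 : f x2 = M2 := by simp [hf, hx12.symm]
  have h1 := h.cost (A := {L}) (singleton_subset_iff.2 (hCF hL)) Dcl.empty (T' := ∅)
    (empty_subset _) (U' := ∅) (empty_subset _) (g' := fun _ => ∅) ⟨by simp, by simp, by simp⟩
    (I := {j1, j2}) (by
      intro k hk
      rcases mem_insert.1 hk with rfl | hk
      · exact hj1
      · exact mem_singleton.1 hk ▸ hj2) (disjoint_empty_right _) (P := X) (R := {x1, x2}) hXQ (by
      intro k hk v hv
      rcases mem_insert.1 hk with rfl | hk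
      · rcases mem_insert.1 (hX1 hv) with h2 | h2
        · exact Or.inr (by rw [h2]; simp)
        · exact Or.inl h2
      · rw [mem_singleton.1 hk] at hv
        rcases mem_insert.1 (hX2 hv) with h2 | h2
        · exact Or.inr (by rw [h2]; simp)
        · exact Or.inl h2) (by
      intro v hv
      obtain ⟨a1, a2⟩ := mem_inter.1 hx1
      obtain ⟨b1, b2⟩ := mem_inter.1 hx2
      rcases mem_insert.1 hv with rfl | hv
      · exact mem_inter.2 ⟨mem_biUnion.2 ⟨j1, by simp, a1⟩, a2⟩
      · rw [mem_singleton.1 hv]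
        exact mem_inter.2 ⟨mem_biUnion.2 ⟨j2, by simp, b1⟩, b2⟩) (x := f) (by
      intro p hp
      rcases mem_insert.1 hp with rfl | hp
      · rw [f1]
        exact ⟨hs1, fun h2 => hL1 (mem_singleton.1 h2)⟩
      · rw [mem_singleton.1 hp, f2]
        exact ⟨hs2, fun h2 => hL2 (mem_singleton.1 h2)⟩) (by
      intro p hp q hq he
      rcases mem_insert.1 hp with rfl | hp
      · rcases mem_insert.1 hq with rfl | hq
        · rfl
        · rw [mem_singleton.1 hq, f1, f2] at he
          exact absurd he hM12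
      · rw [mem_singleton.1 hp] at he ⊢
        rcases mem_insert.1 hq with rfl | hq
        · rw [f1, f2] at he
          exact absurd he.symm hM12
        · rw [mem_singleton.1 hq]) (by
      rw [sdiff_empty, image_insert, image_singleton, f1, f2]
      have h2 := dfc_leaf hg hP (S := {C, D1, D2}) (by
        intro E hE
        rcases mem_insert.1 hE with rfl | hE
        · exact hC
        rcases mem_insert.1 hE with rfl | hE
        · exact hD1
        · exact mem_singleton.1 hE ▸ hD2) hn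
        (x := fun E => if E = C then L else if E = D1 then M1 else M2) (by
        intro E hE
        rcases mem_insert.1 hE with rfl | hE
        · rw [if_pos rfl]
          exact hL
        rcases mem_insert.1 hE with rfl | hE
        · rw [if_neg h01.symm, if_pos rfl]
          exact hM1
        · rw [mem_singleton.1 hE, if_neg h02.symm, if_neg h12.symm]
          exact hM2)
      rw [image_insert, image_insert, image_singleton, if_pos rfl, if_neg h01.symm, if_pos rfl,
        if_neg h02.symm, if_neg h12.symm] at h2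
      exact h2)
  have h3 : Zn B Q (∅ : Finset ι) ∅ {L} ∅ = L := by
    unfold Zn
    simp
  rw [h3, card_pair hj] at h1
  exact h1

end

variable {V : Type v} [DecidableEq V] {ι : Type u} [Fintype ι] [DecidableEq ι]
  {B : ι → Finset V} {Q U : Finset V} {T : Finset ι} {F : Finset (Finset V)}
  {P : Finset (Finset (Finset V))} {a : V → Finset (Finset V) → ℕ} {C : Finset (Finset V)}

namespace Stg

/-- **a class with one point less than leaves is a parallel class**. -/
theorem par_comp (s : Stg B Q T U F P a) (hC : C ∈ P)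
    (hc : C.card = (Sp.Uin U (slf B F) C).card + 1) : C ∈ par0 B U F := by
  have hv := s.part.ptn.vc C hC
  obtain ⟨D, hD, hCD⟩ := Sp.MinP.sub_of_rk s.frm.sur s.par hv.sub hv.ne hc.le
  obtain ⟨C', hC', hDC⟩ := s.sub_class hD
  have h1 : C = C' := by
    by_contra hne
    obtain ⟨L, hL⟩ := hv.ne
    exact disjoint_left.1 (s.part.ptn.dj C hC C' hC' hne) hL (hDC (hCD hL))
  subst h1
  have h2 : C = D := Subset.antisymm hCD hDC
  rw [h2]
  exact hD

/-- two triples of type B with the same centre: two further classes which are free together. -/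
theorem exists_two (s : Stg B Q T U F P a) {j1 j2 : ι} {a1 b1 c1 a2 b2 c2 : V}
    (hB1 : BT B Q F (par0 B U F) j1 a1 b1 c1 C) (hB2 : BT B Q F (par0 B U F) j2 a2 b2 c2 C)
    (hr : 3 ≤ rkc B U F (par0 B U F) (mcj B Q F (par0 B U F) j2)) :
    ∃ D1 D2 M1 M2, D1 ∈ par0 B U F ∧ D2 ∈ par0 B U F ∧ C ≠ D1 ∧ C ≠ D2 ∧ D1 ≠ D2 ∧
      Sp.nP U (slf B F) (par0 B U F) {C, D1, D2} ≤ 0 ∧ M1 ∈ D1 ∧ M2 ∈ D2 ∧
      M1 ∈ slf B F c1 ∧ M2 ∈ slf B F c2 := by
  have hg := s.frm.sur
  have hn := s.par.nul hg
  obtain ⟨M1, hM1, hM1C⟩ := not_subset.1 hB1.nsc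
  obtain ⟨D1, hD1, hMD1⟩ := s.par.cls (slf_sub hM1)
  have h01 : C ≠ D1 := fun h1 => hM1C (h1 ▸ hMD1)
  have hCD : ({C, D1} : Finset (Finset (Finset V))) ⊆ par0 B U F := by
    intro E hE
    rcases mem_insert.1 hE with rfl | hE
    · exact hB1.mem
    · exact mem_singleton.1 hE ▸ hD1
  have hr2 : Sp.rkn (Sp.nP U (slf B F) (par0 B U F)) {C, D1} ≤ 2 := by
    have h1 := hn.nonneg {C, D1}
    unfold Sp.rkn
    rw [card_pair h01]
    push_cast
    linarith
  obtain ⟨D2, hD2, hD2n⟩ : ∃ D2 ∈ mcj B Q F (par0 B U F) j2,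
      D2 ∉ Sp.clo (Sp.nP U (slf B F) (par0 B U F)) (par0 B U F) {C, D1} := by
    by_contra hcon
    push Not at hcon
    have h1 := hn.rk_mono (show mcj B Q F (par0 B U F) j2 ⊆ _ from hcon)
    rw [hn.rk_clo hCD] at h1
    unfold rkc at hr
    linarith
  obtain ⟨hD2P, hD2s⟩ := Sp.mem_met.1 hD2
  have h3 : ¬ Sp.rkn (Sp.nP U (slf B F) (par0 B U F)) (insert D2 {C, D1}) ≤
      Sp.rkn (Sp.nP U (slf B F) (par0 B U F)) {C, D1} := fun h4 =>
    hD2n (mem_filter.2 ⟨hD2P, h4⟩)
  have hD2m : D2 ∉ ({C, D1} : Finset (Finset (Finset V))) := fun h4 =>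
    h3 (by rw [insert_eq_of_mem h4])
  have h02 : C ≠ D2 := fun h4 => hD2m (by rw [← h4]; simp)
  have h12 : D1 ≠ D2 := fun h4 => hD2m (by rw [← h4]; simp)
  have hr1 : 2 ≤ Sp.rkn (Sp.nP U (slf B F) (par0 B U F)) {C, D1} :=
    s.par.rk_two hg hCD (by rw [card_pair h01])
  obtain ⟨M2, hM2, hM2D⟩ := not_disjoint_iff.1 hD2s
  refine ⟨D1, D2, M1, M2, hD1, hD2P, h01, h02, h12, ?_, hMD1, hM2D, hM1, ?_⟩
  · have h4 : insert D2 ({C, D1} : Finset (Finset (Finset V))) = {C, D1, D2} := by
      ext E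
      simp only [mem_insert, mem_singleton]
      tauto
    rw [h4] at h3
    have h5 : ({C, D1, D2} : Finset (Finset (Finset V))).card = 3 :=
      card_eq_three.2 ⟨C, D1, D2, h01, h02, h12, rfl⟩
    unfold Sp.rkn at h3 hr1
    rw [h5] at h3
    push_cast at h3
    linarith
  · rw [hB2.slj_eq] at hM2
    rcases mem_union.1 hM2 with h4 | h4
    · exfalso
      have h5 : M2 ∈ C := by
        rcases mem_union.1 h4 with h5 | h5
        · exact hB2.sa h5
        · exact hB2.sb h5
      exact disjoint_left.1 (s.par.dj hB2.mem hD2P h02) h5 hM2D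
    · exact h4

end Stg

end Pool.Agent.Hyp6
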