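import Pool.Agent.Hyp6.L3Yp0

/-!
# HYP6 L3Yp1: two centred triples at a class with two point leaves

`Ka`: two pairs of points `a, b` and `c, d`, refused at the point leaves `p`, `q` and at the class, with
the inside point `u`. `Ka.le`: the four points have at most `12 + w` hits, `w` the number of the useless
hits of `u`. `Stg.ka2`: **two triples of type B centred at a class of two point leaves**.
-/

set_option autoImplicit false

namespace Pool.Agent.Hyp6

open Finset Pool.Agent.Hyp5 Rt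

universe u v

section

variable {V : Type v} [DecidableEq V] {ι : Type u} [Fintype ι] {B : ι → Finset V}
  {Q : Finset V} {p q u a b c d : V}

/-- two refused pairs at two point leaves. -/
structure Ka (B : ι → Finset V) (Q : Finset V) (p q u a b c d : V) : Prop where
  r : ViolR B Q
  pQ : p ∈ Q
  qQ : q ∈ Q
  l1 : ∀ i, p ∈ B i → a ∈ B i → b ∉ B i
  l2 : ∀ i, q ∈ B i → a ∈ B i → b ∉ B i
  l3 : ∀ i, p ∈ B i → c ∈ B i → d ∉ B i
  l4 : ∀ i, q ∈ B i → c ∈ B i → d ∉ B i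
  c1 : ∀ i k, p ∈ B i ∪ B k → q ∈ B i ∪ B k → u ∈ B i ∪ B k → a ∈ B i ∪ B k →
    b ∈ B i ∪ B k → False
  c2 : ∀ i k, p ∈ B i ∪ B k → q ∈ B i ∪ B k → u ∈ B i ∪ B k → c ∈ B i ∪ B k →
    d ∈ B i ∪ B k → False
  d1 : ∀ i k, p ∈ B i ∪ B k → a ∈ B i ∪ B k → b ∈ B i ∪ B k → c ∈ B i ∪ B k →
    d ∈ B i ∪ B k → False
  d2 : ∀ i k, q ∈ B i ∪ B k → a ∈ B i ∪ B k → b ∈ B i ∪ B k → c ∈ B i ∪ B k →
    d ∈ B i ∪ B k → False
  fa : (Ez B {p} a).card + (Ez B {q} a).card ≤ 4
  fb : (Ez B {p} b).card + (Ez B {q} b).card ≤ 4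
  fc : (Ez B {p} c).card + (Ez B {q} c).card ≤ 4
  fd : (Ez B {p} d).card + (Ez B {q} d).card ≤ 4
  fu : (Ez B {p} u).card + (Ez B {q} u).card ≤ 5
  tup : (Ez B {p} u).card ≤ 3
  tuq : (Ez B {q} u).card ≤ 3
  tap : (Ez B {p} a).card ≤ 3
  taq : (Ez B {q} a).card ≤ 3
  tbp : (Ez B {p} b).card ≤ 3
  tbq : (Ez B {q} b).card ≤ 3
  tcp : (Ez B {p} c).card ≤ 3
  tcq : (Ez B {q} c).card ≤ 3
  tdp : (Ez B {p} d).card ≤ 3
  tdq : (Ez B {q} d).card ≤ 3

namespace Ka

/-- the two leaves exchanged. -/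
theorem sw (h : Ka B Q p q u a b c d) : Ka B Q q p u a b c d :=
  ⟨h.r, h.qQ, h.pQ, h.l2, h.l1, h.l4, h.l3, fun i k h1 h2 => h.c1 i k h2 h1,
    fun i k h1 h2 => h.c2 i k h2 h1, h.d2, h.d1, by have := h.fa; omega, by have := h.fb; omega,
    by have := h.fc; omega, by have := h.fd; omega, by have := h.fu; omega, h.tuq, h.tup, h.taq, h.tap, h.tbq, h.tbp,
    h.tcq, h.tcp, h.tdq, h.tdp⟩

/-- the first pair exchanged. -/
theorem sa (h : Ka B Q p q u a b c d) : Ka B Q p q u b a c d :=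
  ⟨h.r, h.pQ, h.qQ, fun i h1 h2 h3 => h.l1 i h1 h3 h2, fun i h1 h2 h3 => h.l2 i h1 h3 h2, h.l3,
    h.l4, fun i k h1 h2 h3 h4 h5 => h.c1 i k h1 h2 h3 h5 h4, h.c2,
    fun i k h1 h2 h3 => h.d1 i k h1 h3 h2, fun i k h1 h2 h3 => h.d2 i k h1 h3 h2, h.fb, h.fa,
    h.fc, h.fd, h.fu, h.tup, h.tuq, h.tbp, h.tbq, h.tap, h.taq, h.tcp, h.tcq, h.tdp, h.tdq⟩

/-- the second pair exchanged. -/
theorem sc (h : Ka B Q p q u a b c d) : Ka B Q p q u a b d c :=
  ⟨h.r, h.pQ, h.qQ, h.l1, h.l2, fun i h1 h2 h3 => h.l3 i h1 h3 h2,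
    fun i h1 h2 h3 => h.l4 i h1 h3 h2, h.c1, fun i k h1 h2 h3 h4 h5 => h.c2 i k h1 h2 h3 h5 h4,
    fun i k h1 h2 h3 h4 h5 => h.d1 i k h1 h2 h3 h5 h4,
    fun i k h1 h2 h3 h4 h5 => h.d2 i k h1 h2 h3 h5 h4, h.fa, h.fb,
    h.fd, h.fc, h.fu, h.tup, h.tuq, h.tap, h.taq, h.tbp, h.tbq, h.tdp, h.tdq, h.tcp, h.tcq⟩

/-- the two pairs exchanged. -/
theorem sp (h : Ka B Q p q u a b c d) : Ka B Q p q u c d a b :=
  ⟨h.r, h.pQ, h.qQ, h.l3, h.l4, h.l1, h.l2, h.c2, h.c1,
    fun i k h1 h2 h3 h4 h5 => h.d1 i k h1 h4 h5 h2 h3,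
    fun i k h1 h2 h3 h4 h5 => h.d2 i k h1 h4 h5 h2 h3, h.fc, h.fd, h.fa, h.fb, h.fu, h.tup, h.tuq,
    h.tcp, h.tcq, h.tdp, h.tdq, h.tap, h.taq, h.tbp, h.tbq⟩

/-- the hits of the second pair at a leaf. -/
theorem pair_card [DecidableEq ι] (h : Ka B Q p q u a b c d) :
    (Ez B {p} c ∪ Ez B {p} d).card = (Ez B {p} c).card + (Ez B {p} d).card := by
  refine card_union_of_disjoint (disjoint_left.2 fun i h1 h2 => ?_)
  obtain ⟨h3, h4⟩ := mem_Ezp.1 h1
  exact h.l3 i h4 h3 (mem_Ezp.1 h2).1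

/-- two disjoint sets of blocks of a leaf. -/
theorem le_five (h : Ka B Q p q u a b c d) {X : Finset ι} (hX : ∀ i ∈ X, p ∈ B i) :
    X.card ≤ 5 := by
  classical
  rw [← h.r.reg p h.pQ]
  exact card_le_card fun i hi => mem_filter.2 ⟨mem_univ _, hX i hi⟩

/-- **every block with points of both pairs contains `a`, and `a` sees both leaves**. -/
theorem both (h : Ka B Q p q u a b c d)
    (hc : ∀ i, (p ∈ B i ∨ q ∈ B i) → b ∈ B i → c ∉ B i ∧ d ∉ B i)
    (hp : 0 < (Ez B {p} a).card) (hq : 0 < (Ez B {q} a).card) :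
    (Ez B {p} a).card + (Ez B {p} b).card + (Ez B {p} c).card + (Ez B {p} d).card +
      ((Ez B {q} a).card + (Ez B {q} b).card + (Ez B {q} c).card + (Ez B {q} d).card) +
      ((Ez B {p} u).card + (Ez B {q} u).card) ≤ 17 := by
  classical
  by_contra hcon
  -- the count at one leaf
  have key : ∀ {p q : V}, Ka B Q p q u a b c d →
      (∀ i, (p ∈ B i ∨ q ∈ B i) → b ∈ B i → c ∉ B i ∧ d ∉ B i) → 0 < (Ez B {q} a).card →
      (Ez B {p} b).card + (Ez B {p} c).card + (Ez B {p} d).card + (Ez B {p} u).card ≤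
        5 + ((Ez B {p} c ∪ Ez B {p} d) ∩ Ez B {p} u).card := by
    intro p q h hc hq
    obtain ⟨k, hk⟩ := card_pos.1 hq
    obtain ⟨hka, hkq⟩ := mem_Ezp.1 hk
    have h1 := h.pair_card
    have h2 := card_sdiff_add_card_inter (Ez B {p} c ∪ Ez B {p} d) (Ez B {p} u)
    have h3 : Disjoint (Ez B {p} b) ((Ez B {p} c ∪ Ez B {p} d) \ Ez B {p} u) := by
      refine disjoint_left.2 fun i h4 h5 => ?_
      obtain ⟨h6, h7⟩ := mem_Ezp.1 h4
      have h8 := hc i (Or.inl h7) h6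
      rcases mem_union.1 (mem_sdiff.1 h5).1 with h9 | h9
      · exact h8.1 (mem_Ezp.1 h9).1
      · exact h8.2 (mem_Ezp.1 h9).1
    have h4 : Disjoint (Ez B {p} b ∪ ((Ez B {p} c ∪ Ez B {p} d) \ Ez B {p} u)) (Ez B {p} u) := by
      rw [disjoint_union_left]
      refine ⟨disjoint_left.2 fun i h5 h6 => ?_, sdiff_disjoint⟩
      obtain ⟨h7, h8⟩ := mem_Ezp.1 h5
      exact h.c1 i k (mem_union_left _ h8) (mem_union_right _ hkq)
        (mem_union_left _ (mem_Ezp.1 h6).1) (mem_union_right _ hka) (mem_union_left _ h7)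
    have h5 := h.le_five (X := (Ez B {p} b ∪ ((Ez B {p} c ∪ Ez B {p} d) \ Ez B {p} u)) ∪
      Ez B {p} u) (fun i hi => by
        simp only [mem_union, mem_sdiff] at hi
        rcases hi with (hi | ⟨hi | hi, _⟩) | hi
        all_goals exact (mem_Ezp.1 hi).2)
    rw [card_union_of_disjoint h4, card_union_of_disjoint h3] at h5
    omega
  have e1 := key h hc hq
  have e2 := key h.sw (fun i hi => hc i hi.symm) hp
  have e3 : ((Ez B {p} c ∪ Ez B {p} d) ∩ Ez B {p} u).card ≤ (Ez B {p} u).card :=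
    card_le_card inter_subset_right
  have e4 : ((Ez B {q} c ∪ Ez B {q} d) ∩ Ez B {q} u).card ≤ (Ez B {q} u).card :=
    card_le_card inter_subset_right
  have e5 := h.tup
  have e6 := h.tuq
  have e7 := h.fa
  have e8 := h.fu
  obtain ⟨i, hi⟩ := card_pos.1 (show 0 < ((Ez B {p} c ∪ Ez B {p} d) ∩ Ez B {p} u).card by omega)
  obtain ⟨k, hk⟩ := card_pos.1 (show 0 < ((Ez B {q} c ∪ Ez B {q} d) ∩ Ez B {q} u).card by omega)
  obtain ⟨hi1, hi2⟩ := mem_inter.1 hi
  obtain ⟨hk1, hk2⟩ := mem_inter.1 hk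
  obtain ⟨hiu, hip⟩ := mem_Ezp.1 hi2
  obtain ⟨hku, hkq⟩ := mem_Ezp.1 hk2
  have fin : ∀ {c d : V}, Ka B Q p q u a b c d → c ∈ B i → (c ∈ B k ∨ d ∈ B k) →
      (Ez B {p} a).card + (Ez B {p} b).card + (Ez B {p} c).card + (Ez B {p} d).card +
      ((Ez B {q} a).card + (Ez B {q} b).card + (Ez B {q} c).card + (Ez B {q} d).card) ≤ 12 := by
    intro c d h hci hk3
    have g1 : Ez B {q} d = ∅ := by
      by_contra hne
      obtain ⟨m, hm⟩ := nonempty_iff_ne_empty.2 hne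
      obtain ⟨m1, m2⟩ := mem_Ezp.1 hm
      exact h.c2 i m (mem_union_left _ hip) (mem_union_right _ m2) (mem_union_left _ hiu)
        (mem_union_left _ hci) (mem_union_right _ m1)
    have hck : c ∈ B k := by
      rcases hk3 with h1 | h1
      · exact h1
      · exfalso
        have h2 : k ∈ Ez B {q} d := mem_Ezp.2 ⟨h1, hkq⟩
        rw [g1] at h2
        exact notMem_empty _ h2
    have g2 : Ez B {p} d = ∅ := by
      by_contra hne
      obtain ⟨m, hm⟩ := nonempty_iff_ne_empty.2 hne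
      obtain ⟨m1, m2⟩ := mem_Ezp.1 hm
      exact h.c2 k m (mem_union_right _ m2) (mem_union_left _ hkq) (mem_union_left _ hku)
        (mem_union_left _ hck) (mem_union_right _ m1)
    rw [g1, g2, card_empty]
    have g3 := h.fa
    have g4 := h.fb
    have g5 := h.fc
    omega
  have hk3 : c ∈ B k ∨ d ∈ B k := by
    rcases mem_union.1 hk1 with h1 | h1
    · exact Or.inl (mem_Ezp.1 h1).1
    · exact Or.inr (mem_Ezp.1 h1).1
  rcases mem_union.1 hi1 with h1 | h1
  · have h2 := fin h (mem_Ezp.1 h1).1 hk3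
    omega
  · have h2 := fin h.sc (mem_Ezp.1 h1).1 hk3.symm
    omega

/-- **every block with points of both pairs contains `a`, and `a` misses one leaf**. -/
theorem miss (h : Ka B Q p q u a b c d)
    (hc : ∀ i, (p ∈ B i ∨ q ∈ B i) → b ∈ B i → c ∉ B i ∧ d ∉ B i)
    (hq : (Ez B {q} a).card = 0) (hu : 1 ≤ (Ez B {q} u).card) :
    (Ez B {p} a).card + (Ez B {p} b).card + (Ez B {p} c).card + (Ez B {p} d).card +
      ((Ez B {q} a).card + (Ez B {q} b).card + (Ez B {q} c).card + (Ez B {q} d).card) +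
      ((Ez B {p} u).card + (Ez B {q} u).card) ≤ 17 := by
  classical
  by_contra hcon
  have key : ∀ {p q : V}, Ka B Q p q u a b c d →
      (∀ i, (p ∈ B i ∨ q ∈ B i) → b ∈ B i → c ∉ B i ∧ d ∉ B i) →
      (Ez B {p} b).card + (Ez B {p} c).card + (Ez B {p} d).card ≤ 5 ∧
      ((Ez B {p} b).card + (Ez B {p} c).card + (Ez B {p} d).card = 5 →
        ∀ i, p ∈ B i → b ∈ B i ∨ c ∈ B i ∨ d ∈ B i) := by
    intro p q h hc
    have h1 := h.pair_card
    have h3 : Disjoint (Ez B {p} b) (Ez B {p} c ∪ Ez B {p} d) := by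
      refine disjoint_left.2 fun i h4 h5 => ?_
      obtain ⟨h6, h7⟩ := mem_Ezp.1 h4
      have h8 := hc i (Or.inl h7) h6
      rcases mem_union.1 h5 with h9 | h9
      · exact h8.1 (mem_Ezp.1 h9).1
      · exact h8.2 (mem_Ezp.1 h9).1
    have h4 : Ez B {p} b ∪ (Ez B {p} c ∪ Ez B {p} d) ⊆ univ.filter (fun i => p ∈ B i) := by
      intro i hi
      rw [mem_filter]
      refine ⟨mem_univ _, ?_⟩
      simp only [mem_union] at hi
      rcases hi with hi | hi | hi
      all_goals exact (mem_Ezp.1 hi).2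
    have h5 := card_le_card h4
    rw [card_union_of_disjoint h3, h.r.reg p h.pQ] at h5
    refine ⟨by omega, fun h6 i hi => ?_⟩
    have h7 := eq_of_subset_of_card_le h4 (by
      rw [card_union_of_disjoint h3, h.r.reg p h.pQ]
      omega)
    have h8 : i ∈ Ez B {p} b ∪ (Ez B {p} c ∪ Ez B {p} d) := by
      rw [h7]
      exact mem_filter.2 ⟨mem_univ _, hi⟩
    simp only [mem_union] at h8
    rcases h8 with h9 | h9 | h9
    · exact Or.inl (mem_Ezp.1 h9).1
    · exact Or.inr (Or.inl (mem_Ezp.1 h9).1)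
    · exact Or.inr (Or.inr (mem_Ezp.1 h9).1)
  obtain ⟨e1, e2⟩ := key h hc
  obtain ⟨e3, e4⟩ := key h.sw (fun i hi => hc i hi.symm)
  have t1 := h.tap
  have t2 := h.tup
  have t3 := h.tuq
  have t4 := h.fu
  have hp5 := e2 (by omega)
  have hq5 := e4 (by omega)
  obtain ⟨i, hi⟩ := card_pos.1 (show 0 < (Ez B {p} a).card by omega)
  obtain ⟨hia, hip⟩ := mem_Ezp.1 hi
  -- the blocks of `u` at `q`
  have hU : ∀ k ∈ Ez B {q} u, c ∈ B k ∨ d ∈ B k := by
    intro k hk
    obtain ⟨h1, h2⟩ := mem_Ezp.1 hk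
    rcases hq5 k h2 with h3 | h3
    · exact (h.c1 k i (mem_union_right _ hip) (mem_union_left _ h2) (mem_union_left _ h1)
        (mem_union_right _ hia) (mem_union_left _ h3)).elim
    · exact h3
  have fin : ∀ {c d : V}, Ka B Q p q u a b c d → (∀ k ∈ Ez B {q} u, c ∈ B k ∨ d ∈ B k) →
      (∀ i, p ∈ B i → b ∈ B i ∨ c ∈ B i ∨ d ∈ B i) → ∀ k ∈ Ez B {q} u, c ∈ B k → False := by
    intro c d h hU hp5 k hk hck
    obtain ⟨hku, hkq⟩ := mem_Ezp.1 hk
    have g1 : ∀ m, p ∈ B m → d ∈ B m → False := fun m m1 m2 =>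
      h.c2 k m (mem_union_right _ m1) (mem_union_left _ hkq) (mem_union_left _ hku)
        (mem_union_left _ hck) (mem_union_right _ m2)
    have g2 : Ez B {p} a ⊆ Ez B {p} c := by
      intro m hm
      obtain ⟨m1, m2⟩ := mem_Ezp.1 hm
      rcases hp5 m m2 with m3 | m3 | m3
      · exact (h.l1 m m2 m1 m3).elim
      · exact mem_Ezp.2 ⟨m3, m2⟩
      · exact (g1 m m2 m3).elim
    have g3 := card_le_card g2
    have g4 := h.fc
    have g5 : ∀ m ∈ Ez B {q} u, c ∈ B m := by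
      intro m hm
      rcases hU m hm with m1 | m1
      · exact m1
      · exfalso
        obtain ⟨m2, m3⟩ := mem_Ezp.1 hm
        have hic := (mem_Ezp.1 (g2 hi)).1
        exact h.c2 m i (mem_union_right _ hip) (mem_union_left _ m3) (mem_union_left _ m2)
          (mem_union_right _ hic) (mem_union_left _ m1)
    have g6 : Ez B {q} u ⊆ Ez B {q} c := fun m hm =>
      mem_Ezp.2 ⟨g5 m hm, (mem_Ezp.1 hm).2⟩
    have g7 := card_le_card g6
    omega
  obtain ⟨k, hk⟩ := card_pos.1 (show 0 < (Ez B {q} u).card by omega)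
  rcases hU k hk with h1 | h1
  · exact fin h hU hp5 k hk h1
  · exact fin h.sc (fun k hk => (hU k hk).symm) (fun i hi => by
      rcases hp5 i hi with h2 | h2 | h2
      · exact Or.inl h2
      · exact Or.inr (Or.inr h2)
      · exact Or.inr (Or.inl h2)) k hk h1

/-- every block with points of both pairs contains `a`. -/
theorem one (h : Ka B Q p q u a b c d)
    (hc : ∀ i, (p ∈ B i ∨ q ∈ B i) → b ∈ B i → c ∉ B i ∧ d ∉ B i)
    (hup : 1 ≤ (Ez B {p} u).card) (huq : 1 ≤ (Ez B {q} u).card) :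
    (Ez B {p} a).card + (Ez B {p} b).card + (Ez B {p} c).card + (Ez B {p} d).card +
      ((Ez B {q} a).card + (Ez B {q} b).card + (Ez B {q} c).card + (Ez B {q} d).card) +
      ((Ez B {p} u).card + (Ez B {q} u).card) ≤ 17 := by
  rcases Nat.eq_zero_or_pos (Ez B {q} a).card with h0 | h0
  · exact h.miss hc h0 huq
  · rcases Nat.eq_zero_or_pos (Ez B {p} a).card with h1 | h1
    · have h2 := h.sw.miss (fun i hi => hc i hi.symm) h1 hup
      omega
    · exact h.both hc h1 h0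

/-- **two refused pairs at two point leaves**. -/
theorem le (h : Ka B Q p q u a b c d) (hup : 1 ≤ (Ez B {p} u).card)
    (huq : 1 ≤ (Ez B {q} u).card) :
    (Ez B {p} a).card + (Ez B {p} b).card + (Ez B {p} c).card + (Ez B {p} d).card +
      ((Ez B {q} a).card + (Ez B {q} b).card + (Ez B {q} c).card + (Ez B {q} d).card) +
      ((Ez B {p} u).card + (Ez B {q} u).card) ≤ 17 := by
  have n1 : ∀ i k, (p ∈ B i ∨ q ∈ B i) → a ∈ B i → c ∈ B i → b ∈ B k → d ∈ B k → False := by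
    intro i k h1 h2 h3 h4 h5
    rcases h1 with h1 | h1
    · exact h.d1 i k (mem_union_left _ h1) (mem_union_left _ h2) (mem_union_right _ h4)
        (mem_union_left _ h3) (mem_union_right _ h5)
    · exact h.d2 i k (mem_union_left _ h1) (mem_union_left _ h2) (mem_union_right _ h4)
        (mem_union_left _ h3) (mem_union_right _ h5)
  have n2 : ∀ i k, (p ∈ B i ∨ q ∈ B i) → a ∈ B i → d ∈ B i → b ∈ B k → c ∈ B k → False := by
    intro i k h1 h2 h3 h4 h5
    rcases h1 with h1 | h1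
    · exact h.d1 i k (mem_union_left _ h1) (mem_union_left _ h2) (mem_union_right _ h4)
        (mem_union_right _ h5) (mem_union_left _ h3)
    · exact h.d2 i k (mem_union_left _ h1) (mem_union_left _ h2) (mem_union_right _ h4)
        (mem_union_right _ h5) (mem_union_left _ h3)
  by_cases k1 : ∃ i, (p ∈ B i ∨ q ∈ B i) ∧ a ∈ B i ∧ c ∈ B i
  · obtain ⟨i, i1, i2, i3⟩ := k1
    by_cases k2 : ∃ i, (p ∈ B i ∨ q ∈ B i) ∧ a ∈ B i ∧ d ∈ B i
    · obtain ⟨k, j1, j2, j3⟩ := k2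
      exact h.one (fun m m1 m2 => ⟨fun m3 => n2 k m j1 j2 j3 m2 m3,
        fun m3 => n1 i m i1 i2 i3 m2 m3⟩) hup huq
    · -- all common blocks contain `c`
      have h1 := h.sp.one (fun m m1 m2 => ⟨fun m3 => k2 ⟨m, m1, m3, m2⟩,
        fun m3 => n1 i m i1 i2 i3 m3 m2⟩) hup huq
      omega
  · by_cases k2 : ∃ i, (p ∈ B i ∨ q ∈ B i) ∧ b ∈ B i ∧ c ∈ B i
    · obtain ⟨k, j1, j2, j3⟩ := k2
      have h1 := h.sa.one (fun m m1 m2 => ⟨fun m3 => k1 ⟨m, m1, m2, m3⟩,
        fun m3 => n2 m k m1 m2 m3 j2 j3⟩) hup huq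
      omega
    · have h1 := h.sp.sa.one (fun m m1 m2 => ⟨fun m3 => k1 ⟨m, m1, m3, m2⟩,
        fun m3 => k2 ⟨m, m1, m3, m2⟩⟩) hup huq
      omega

end Ka

end

variable {V : Type v} [DecidableEq V] {ι : Type u} [Fintype ι] [DecidableEq ι]
  {B : ι → Finset V} {Q U : Finset V} {T : Finset ι} {F : Finset (Finset V)}
  {P : Finset (Finset (Finset V))} {a : V → Finset (Finset V) → ℕ}

namespace Stg

/-- the centre inside a class which is a parallel class. -/
theorem cent_eq (s : Stg B Q T U F P a) {C D : Finset (Finset V)} (hC : C ∈ P)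
    (hc : C.card = (Sp.Uin U (slf B F) C).card + 1) {j : ι} {x y z : V}
    (hB : BT B Q F (par0 B U F) j x y z D) (hD : D ⊆ C) : D = C := by
  by_contra hne
  obtain ⟨L, hL⟩ := hB.nb
  exact disjoint_left.1 (s.par.ptn.dj D hB.mem C (s.par_comp hC hc) hne) (hB.sb hL)
    (hD (hB.sb hL))

/-- **two triples of type B centred at a class of two point leaves**: the four points have at most
twelve hits, and one more for every useless hit of the inside point. -/
theorem ka2 (s : Stg B Q T U F P a) {p q u : V} (hpq : p ≠ q)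
    (hC : ({{p}, {q}} : Finset (Finset V)) ∈ P) (hU : Sp.Uin U (slf B F) {{p}, {q}} = {u})
    {i j : ι} (hi : i ∈ T) (hj : j ∈ T) (hij : i ≠ j) {a1 b1 c1 a2 b2 c2 : V}
    {D1 D2 : Finset (Finset V)} (hB1 : BT B Q F (par0 B U F) i a1 b1 c1 D1)
    (hB2 : BT B Q F (par0 B U F) j a2 b2 c2 D2) (hD1 : D1 ⊆ {{p}, {q}}) (hD2 : D2 ⊆ {{p}, {q}})
    (hr : 3 ≤ rkc B U F (par0 B U F) (mcj B Q F (par0 B U F) j)) :
    uC B a1 {{p}, {q}} + uC B b1 {{p}, {q}} + (uC B a2 {{p}, {q}} + uC B b2 {{p}, {q}}) ≤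
      12 + lsC B Q T U F {{p}, {q}} := by
  classical
  have hv := s.viol
  have h := s.frm
  have hLp : ({p} : Finset V) ≠ {q} := fun h1 => hpq (singleton_injective h1)
  have hcard : ({{p}, {q}} : Finset (Finset V)).card =
      (Sp.Uin U (slf B F) {{p}, {q}}).card + 1 := by
    rw [hU, card_singleton, card_pair hLp]
  have e1 := s.cent_eq hC hcard hB1 hD1
  have e2 := s.cent_eq hC hcard hB2 hD2
  subst e1
  subst e2
  have hCF : ({{p}, {q}} : Finset (Finset V)) ⊆ F := (s.part.ptn.vc _ hC).sub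
  have hpF : ({p} : Finset V) ∈ F := hCF (by simp)
  have hqF : ({q} : Finset V) ∈ F := hCF (by simp)
  have hpQ : p ∈ Q := h.FQ hpF (mem_singleton_self p)
  have hqQ : q ∈ Q := h.FQ hqF (mem_singleton_self q)
  have huI : u ∈ Sp.Uin U (slf B F) {{p}, {q}} := by rw [hU]; simp
  have huU : u ∈ U ∧ slf B F u ⊆ {{p}, {q}} := mem_filter.1 huI
  have huQ : u ∈ Q := Frm.DQ (h.UD huU.1)
  have hup : u ≠ p := by
    rintro rfl
    exact disjoint_left.1 (h.ge.FU _ hpF) (mem_singleton_self _) huU.1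
  have huq : u ≠ q := by
    rintro rfl
    exact disjoint_left.1 (h.ge.FU _ hqF) (mem_singleton_self _) huU.1
  have hr1 : ∀ w : V, ({w} : Finset V) ∈ F → rho B {w} = 1 := by
    intro w hw
    have h1 := h.sv_leaf hw
    unfold sv at h1
    rw [card_singleton] at h1
    push_cast at h1
    omega
  have ma1 : a1 ∈ B i ∩ Q := by rw [hB1.eq]; simp
  have mb1 : b1 ∈ B i ∩ Q := by rw [hB1.eq]; simp
  have mc1 : c1 ∈ B i ∩ Q := by rw [hB1.eq]; simp
  have ma2 : a2 ∈ B j ∩ Q := by rw [hB2.eq]; simp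
  have mb2 : b2 ∈ B j ∩ Q := by rw [hB2.eq]; simp
  have mc2 : c2 ∈ B j ∩ Q := by rw [hB2.eq]; simp
  obtain ⟨E1, E2, M1, M2, hE1, hE2, n01, n02, n12, hn, hM1, hM2, hs1, hs2⟩ :=
    s.exists_two hB1 hB2 hr
  have hC0 := hB1.mem
  -- the refusals
  have cls : ∀ {k : ι} {x y z : V} {E : Finset (Finset V)} {M : Finset V}, k ∈ T →
      B k ∩ Q = {x, y, z} → x ∈ B k ∩ Q → y ∈ B k ∩ Q → z ∈ B k ∩ Q → E ∈ par0 B U F →
      ({{p}, {q}} : Finset (Finset V)) ≠ E → M ∈ E → M ∈ slf B F z →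
      ∀ i k, p ∈ B i ∪ B k → q ∈ B i ∪ B k → u ∈ B i ∪ B k → x ∈ B i ∪ B k →
        y ∈ B i ∪ B k → False := by
    intro k x y z E M hk hT hx hy hz hE hne hM hzM i1 i2 g1 g2 g3 g4 g5
    have href := h.refuse_cls h.sur s.par hC0 hE hne hk hz hM hzM (X := {x, y}) (by
      intro v hv'
      rcases mem_insert.1 hv' with rfl | hv'
      · exact (mem_inter.1 hx).2
      · exact mem_singleton.1 hv' ▸ (mem_inter.1 hy).2) (by
      rw [hT]
      intro v hv'
      simp only [mem_insert, mem_singleton] at hv' ⊢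
      tauto)
    rw [sum_pair hLp, hr1 p hpF, hr1 q hqF, hU] at href
    have h2 : ({u} ∪ ({{p}, {q}} : Finset (Finset V)).biUnion id ∪ {x, y}) ⊆
        ({i1, i2} : Finset ι).biUnion B := by
      intro v hv'
      have h4 : v ∈ B i1 ∪ B i2 := by
        simp only [mem_union (s := {u} ∪ _), mem_union (s := {u}), mem_singleton, mem_biUnion,
          mem_insert, id] at hv'
        rcases hv' with (rfl | ⟨A, rfl | rfl, hA⟩) | rfl | rfl
        · exact g3
        · rw [mem_singleton.1 hA]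
          exact g1
        · rw [mem_singleton.1 hA]
          exact g2
        · exact g4
        · exact g5
      simp only [mem_union, mem_biUnion, mem_insert, mem_singleton] at h4 ⊢
      rcases h4 with h4 | h4
      · exact ⟨i1, Or.inl rfl, h4⟩
      · exact ⟨i2, Or.inr rfl, h4⟩
    have h3 := (Hyp6.rho_le h2).trans card_le_two
    omega
  have leaf : ∀ {k : ι} {x y z : V} {E : Finset (Finset V)} {M : Finset V} {w : V},
      ({w} : Finset V) ∈ ({{p}, {q}} : Finset (Finset V)) → k ∈ T → B k ∩ Q = {x, y, z} →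
      x ∈ B k ∩ Q → y ∈ B k ∩ Q → z ∈ B k ∩ Q → E ∈ par0 B U F →
      ({{p}, {q}} : Finset (Finset V)) ≠ E → M ∈ E → M ∈ slf B F z →
      ∀ i, w ∈ B i → x ∈ B i → y ∉ B i := by
    intro k x y z E M w hw hk hT hx hy hz hE hne hM hzM i g1 g2 g3
    have href := h.refuse_leaf h.sur s.par hC0 hE hne hw hk hz hM hzM (X := {x, y}) (by
      intro v hv'
      rcases mem_insert.1 hv' with rfl | hv'
      · exact (mem_inter.1 hx).2
      · exact mem_singleton.1 hv' ▸ (mem_inter.1 hy).2) (by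
      rw [hT]
      intro v hv'
      simp only [mem_insert, mem_singleton] at hv' ⊢
      tauto)
    rw [hr1 w (hCF hw)] at href
    have h2 : ({w} ∪ {x, y} : Finset V) ⊆ ({i} : Finset ι).biUnion B := by
      intro v hv'
      rw [singleton_biUnion]
      simp only [mem_union, mem_singleton, mem_insert] at hv'
      rcases hv' with rfl | rfl | rfl
      · exact g1
      · exact g2
      · exact g3
    have h3 := Hyp6.rho_le h2
    rw [card_singleton] at h3
    omega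
  have dbl : ∀ {w : V}, ({w} : Finset V) ∈ ({{p}, {q}} : Finset (Finset V)) →
      ∀ i k, w ∈ B i ∪ B k → a1 ∈ B i ∪ B k → b1 ∈ B i ∪ B k → a2 ∈ B i ∪ B k →
        b2 ∈ B i ∪ B k → False := by
    intro w hw i1 i2 g1 g2 g3 g4 g5
    have href := h.refuse_leaf2 h.sur s.par hC0 hE1 hE2 n01 n02 n12 hn hw hi hj hij mc1 mc2
      hM1 hM2 hs1 hs2 (X := {a1, b1, a2, b2}) (by
      intro v hv'
      simp only [mem_insert, mem_singleton] at hv'
      rcases hv' with rfl | rfl | rfl | rfl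
      · exact (mem_inter.1 ma1).2
      · exact (mem_inter.1 mb1).2
      · exact (mem_inter.1 ma2).2
      · exact (mem_inter.1 mb2).2) (by
      rw [hB1.eq]
      intro v hv'
      simp only [mem_insert, mem_singleton] at hv' ⊢
      tauto) (by
      rw [hB2.eq]
      intro v hv'
      simp only [mem_insert, mem_singleton] at hv' ⊢
      tauto)
    rw [hr1 w (hCF hw)] at href
    have h2 : ({w} ∪ {a1, b1, a2, b2} : Finset V) ⊆ ({i1, i2} : Finset ι).biUnion B := by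
      intro v hv'
      have h4 : v ∈ B i1 ∪ B i2 := by
        simp only [mem_union (s := {w}), mem_singleton, mem_insert] at hv'
        rcases hv' with rfl | rfl | rfl | rfl | rfl
        all_goals assumption
      simp only [mem_union, mem_biUnion, mem_insert, mem_singleton] at h4 ⊢
      rcases h4 with h4 | h4
      · exact ⟨i1, Or.inl rfl, h4⟩
      · exact ⟨i2, Or.inr rfl, h4⟩
    have h3 := (Hyp6.rho_le h2).trans card_le_two
    omega
  have hpC : ({p} : Finset V) ∈ ({{p}, {q}} : Finset (Finset V)) := by simp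
  have hqC : ({q} : Finset V) ∈ ({{p}, {q}} : Finset (Finset V)) := by simp
  -- the numbers
  have four : ∀ {k : ι}, k ∈ T → ∀ x ∈ B k ∩ Q,
      (Ez B {p} x).card + (Ez B {q} x).card ≤ 4 := by
    intro k hk x hx
    have h1 := (h.four_two hv.reg hk hpF hqF hLp hx).1
    rw [uh_Ez, uh_Ez] at h1
    exact h1
  have npt : ∀ {k : ι}, k ∈ T → ∀ x ∈ B k ∩ Q, ∀ w : V, ({w} : Finset V) ∈ F → x ≠ w := by
    rintro k hk x hx w hw rfl
    exact (h.T_out hk hx).2 _ hw (mem_singleton_self _)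
  have tw : ∀ {k : ι}, k ∈ T → ∀ x ∈ B k ∩ Q, (Ez B {p} x).card ≤ 3 ∧ (Ez B {q} x).card ≤ 3 :=
    fun hk x hx => ⟨hv.twin_pt hpQ (mem_inter.1 hx).2 (npt hk x hx p hpF),
      hv.twin_pt hqQ (mem_inter.1 hx).2 (npt hk x hx q hqF)⟩
  have huC : (uC B u {{p}, {q}} : ℤ) = 5 - uo B Q T U F u := h.uC_in hv.reg s.part hC huI
  have hls : lsC B Q T U F {{p}, {q}} = uo B Q T U F u := by
    unfold lsC
    rw [hU, sum_singleton]
  have hpair : ∀ x, uC B x {{p}, {q}} = (Ez B {p} x).card + (Ez B {q} x).card := by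
    intro x
    unfold uC
    rw [sum_pair hLp, uh_Ez, uh_Ez]
  rw [hpair u] at huC
  push_cast at huC
  have own : ∀ w : V, ({w} : Finset V) ∈ ({{p}, {q}} : Finset (Finset V)) →
      1 ≤ (Ez B {w} u).card := by
    intro w hw
    have hboth : slf B F u = {{p}, {q}} := by
      refine eq_of_subset_of_card_le huU.2 ?_
      have h1 := h.sur.two_leaf huU.1
      rw [card_pair hLp]
      exact h1.trans (card_le_card inter_subset_left)
    rw [← hboth] at hw
    obtain ⟨_, w', hw', _, i, hi1, hi2⟩ := mem_slf.1 hw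
    rw [mem_singleton] at hw'
    subst hw'
    exact card_pos.2 ⟨i, mem_Ezp.2 ⟨hi1, hi2⟩⟩
  have hKa : Ka B Q p q u a1 b1 a2 b2 := by
    refine ⟨hv, hpQ, hqQ, leaf hpC hi hB1.eq ma1 mb1 mc1 hE1 n01 hM1 hs1,
      leaf hqC hi hB1.eq ma1 mb1 mc1 hE1 n01 hM1 hs1,
      leaf hpC hj hB2.eq ma2 mb2 mc2 hE2 n02 hM2 hs2,
      leaf hqC hj hB2.eq ma2 mb2 mc2 hE2 n02 hM2 hs2,
      cls hi hB1.eq ma1 mb1 mc1 hE1 n01 hM1 hs1, cls hj hB2.eq ma2 mb2 mc2 hE2 n02 hM2 hs2,
      dbl hpC, dbl hqC, four hi a1 ma1, four hi b1 mb1, four hj a2 ma2, four hj b2 mb2, ?_,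
      hv.twin_pt hpQ huQ hup, hv.twin_pt hqQ huQ huq, (tw hi a1 ma1).1, (tw hi a1 ma1).2,
      (tw hi b1 mb1).1, (tw hi b1 mb1).2, (tw hj a2 ma2).1, (tw hj a2 ma2).2,
      (tw hj b2 mb2).1, (tw hj b2 mb2).2⟩
    omega
  have h1 := hKa.le (own p hpC) (own q hqC)
  rw [hpair a1, hpair b1, hpair a2, hpair b2, hls]
  omega

end Stg

end Pool.Agent.Hyp6
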