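import Pool.Agent.Hyp6.L3Yp2

/-!
# HYP6 L3Yp3: the hits of a centred triple on a point leaf

`Stg.cd_pt`: also with full hits, the pair has at most `5 - 2 ee` hits on a point leaf.
-/

set_option autoImplicit false

namespace Pool.Agent.Hyp6

open Finset Pool.Agent.Hyp5 Rt

universe u v

variable {V : Type v} [DecidableEq V] {ι : Type u} [Fintype ι] [DecidableEq ι]
  {B : ι → Finset V} {Q U : Finset V} {T : Finset ι} {F : Finset (Finset V)}
  {P : Finset (Finset (Finset V))} {C : Finset (Finset V)} {j : ι}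
  {a : V → Finset (Finset V) → ℕ} {x y z : V} {m w : ℕ}

namespace Stg

/-- **the pair of a centred triple at a point leaf**, full hits at other leaves allowed. -/
theorem cd_pt (s : Stg B Q T U F P a) (h : Cd B Q T U F P C j x y z m w) {p : V}
    (hp : ({p} : Finset V) ∈ C) : uh B x {p} + uh B y {p} + 2 * ee B Q {p} ≤ 5 := by
  have hpF : ({p} : Finset V) ∈ F := (s.par.ptn.vc C h.bt.mem).sub hp
  have mx : x ∈ B j ∩ Q := by rw [h.bt.eq]; simp
  have my : y ∈ B j ∩ Q := by rw [h.bt.eq]; simp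
  have h1 := s.frm.leaf_of hpF (mem_inter.1 mx).2 (mem_inter.1 my).2
    ((s.frm.T_out h.mT mx).2 _ hpF) ((s.frm.T_out h.mT my).2 _ hpF) (h.nbl _ hp)
    (fun i _ => (card_le_card inter_subset_right).trans (card_singleton p).le)
  rw [s.frm.point_nt s.viol.reg hpF (card_singleton p)] at h1
  exact h1

/-- the hits of each point of the pair on a point leaf. -/
theorem cd_three (s : Stg B Q T U F P a) (h : Cd B Q T U F P C j x y z m w) {p : V}
    (hp : ({p} : Finset V) ∈ C) : uh B x {p} ≤ 3 ∧ uh B y {p} ≤ 3 := by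
  have hpF : ({p} : Finset V) ∈ F := (s.par.ptn.vc C h.bt.mem).sub hp
  have hpQ : p ∈ Q := s.frm.FQ hpF (mem_singleton_self p)
  have mx : x ∈ B j ∩ Q := by rw [h.bt.eq]; simp
  have my : y ∈ B j ∩ Q := by rw [h.bt.eq]; simp
  have hnp : ∀ v ∈ B j ∩ Q, v ≠ p := by
    rintro v hv rfl
    exact (s.frm.T_out h.mT hv).2 _ hpF (mem_singleton_self _)
  rw [uh_Ez, uh_Ez]
  exact ⟨s.viol.twin_pt hpQ (mem_inter.1 mx).2 (hnp x mx),
    s.viol.twin_pt hpQ (mem_inter.1 my).2 (hnp y my)⟩

end Stg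

end Pool.Agent.Hyp6
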