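import Mathlib

/-!
# HYP6 L3Yq0: composite classes with at most two centred triples, the integers

`Lb`, `Le`: the numbers of a leaf of a composite class of two leaves without inside triples. `Tr2`: the
numbers of a centred triple at two leaves. `Lb.e1`, `Le.two2`: one and two centred triples are paid.
-/

set_option autoImplicit false

namespace Pool.Agent.Hyp6

/-- the numbers of a leaf: value `P`, `N` single traces, `m` points, `e` double singles, `y` own hits. -/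
structure Lb (P N m e y : ℤ) : Prop where
  pp : P = 2 * N + 3 * m - 11
  m1 : 1 ≤ m
  mo : m % 2 = 1
  n1 : 1 ≤ N
  no : N % 2 = 1
  pt : m = 1 → N = 5
  e0 : 0 ≤ e
  p0 : 2 * e ≤ P
  y1 : 1 ≤ y
  yn : y + 2 * e ≤ N
  py : m = 1 → y ≤ 3

/-- the numbers of a leaf with the hits: `A` hits of two triples, `x` other hits. -/
structure Le (P N m e A y x : ℤ) : Prop where
  b : Lb P N m e y
  slot : 6 * (A + y + x + 4 * e) + N ≤ 5 * P + 55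
  A0 : 0 ≤ A
  x0 : 0 ≤ x
  a31 : m = 3 → N = 1 → A ≤ 6
  thr : P - 2 * e = 4 → x = 0 → A ≤ 7

/-- the numbers of a centred triple at two leaves: `s1`, `s2` hits of the pair, `w` the poor flag. -/
structure Tr2 (N1 m1 e1 y1 N2 m2 e2 y2 s1 s2 w : ℤ) : Prop where
  a0 : 0 ≤ s1
  b0 : 0 ≤ s2
  w0 : 0 ≤ w
  w1 : w ≤ 1
  le : s1 + s2 ≤ 8
  p1 : m1 = 1 → s1 + 2 * e1 ≤ 5
  p2 : m2 = 1 → s2 + 2 * e2 ≤ 5
  n1 : w = 0 → s1 + 2 * e1 ≤ N1
  n2 : w = 0 → s2 + 2 * e2 ≤ N2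
  k1 : w = 0 → m1 = 1 → s1 ≤ 3 ∨ y2 + s2 + 2 * e2 ≤ N2
  k2 : w = 0 → m2 = 1 → s2 ≤ 3 ∨ y1 + s1 + 2 * e1 ≤ N1
  g1 : m1 = 3 → N1 = 1 → s1 ≤ 4
  g2 : m2 = 3 → N2 = 1 → s2 ≤ 4

theorem Tr2.symm {N1 m1 e1 y1 N2 m2 e2 y2 s1 s2 w : ℤ} (t : Tr2 N1 m1 e1 y1 N2 m2 e2 y2 s1 s2 w) :
    Tr2 N2 m2 e2 y2 N1 m1 e1 y1 s2 s1 w :=
  ⟨t.b0, t.a0, t.w0, t.w1, (add_comm s2 s1).trans_le t.le, t.p2, t.p1, t.n2, t.n1, t.k2, t.k1, t.g2,
    t.g1⟩

namespace Lb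

variable {P N m e y : ℤ}

theorem cs (h : Lb P N m e y) : (m = 1 ∧ N = 5 ∧ P = 2 ∧ e ≤ 1 ∧ y ≤ 3) ∨
    (3 ≤ m ∧ P = 2 * N + 3 * m - 11) := by
  have h1 := h.m1
  have h2 := h.mo
  rcases (by omega : m = 1 ∨ 3 ≤ m) with hm | hm
  · have h3 := h.pt hm
    have h4 := h.py hm
    have h5 := h.pp
    have h6 := h.p0
    left
    omega
  · exact Or.inr ⟨hm, h.pp⟩

theorem even (h : Lb P N m e y) : 0 ≤ P - 2 * e ∧ (P - 2 * e) % 2 = 0 := by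
  have h1 := h.p0
  have h2 := h.mo
  have h3 := h.pp
  constructor <;> omega

/-- the leaves of value zero. -/
theorem t0 (h : Lb P N m e y) (h0 : P - 2 * e = 0) :
    (m = 3 ∧ N = 1 ∧ e = 0 ∧ y = 1) ∨ (m = 1 ∧ N = 5 ∧ e = 1 ∧ y ≤ 3) := by
  have h1 := h.y1
  have h2 := h.yn
  have h3 := h.e0
  have h4 := h.no
  have h5 := h.mo
  rcases h.cs with ⟨c1, c2, c3, c4, c5⟩ | ⟨c1, c2⟩
  · right
    omega
  · left
    omega

/-- the leaves of value two. -/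
theorem t2 (h : Lb P N m e y) (h0 : P - 2 * e = 2) :
    (m = 1 ∧ N = 5 ∧ e = 0 ∧ y ≤ 3) ∨ (m = 3 ∧ N = 3 ∧ e = 1 ∧ y = 1) := by
  have h1 := h.y1
  have h2 := h.yn
  have h3 := h.e0
  have h4 := h.no
  have h5 := h.mo
  rcases h.cs with ⟨c1, c2, c3, c4, c5⟩ | ⟨c1, c2⟩
  · left
    omega
  · right
    omega

/-- the leaves of value four. -/
theorem t4 (h : Lb P N m e y) (h0 : P - 2 * e = 4) :
    (m = 3 ∧ N = 3 ∧ e = 0 ∧ y ≤ 3) ∨ (m = 3 ∧ N = 5 ∧ e = 2 ∧ y = 1) := by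
  have h1 := h.y1
  have h2 := h.yn
  have h3 := h.e0
  have h4 := h.no
  have h5 := h.mo
  rcases h.cs with ⟨c1, c2, c3, c4, c5⟩ | ⟨c1, c2⟩
  · omega
  · have h6 : m = 3 := by omega
    rcases (by omega : e ≤ 0 ∨ 1 ≤ e) with h7 | h7
    · left
      omega
    · right
      omega

/-- the leaves of value six. -/
theorem t6 (h : Lb P N m e y) (h0 : P - 2 * e = 6) :
    (m = 5 ∧ N = 1 ∧ e = 0 ∧ y = 1) ∨ (m = 3 ∧ N = 5 ∧ e = 1) ∨ (m = 3 ∧ N = 7 ∧ e = 3 ∧ y = 1) := by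
  have h1 := h.y1
  have h2 := h.yn
  have h3 := h.e0
  have h4 := h.no
  have h5 := h.mo
  rcases h.cs with ⟨c1, c2, c3, c4, c5⟩ | ⟨c1, c2⟩
  · omega
  · rcases (by omega : m = 3 ∨ 5 ≤ m) with h6 | h6
    · right
      rcases (by omega : e ≤ 1 ∨ 2 ≤ e) with h7 | h7
      · left
        omega
      · right
        omega
    · left
      omega

/-- **one centred triple at two leaves**. -/
theorem e1 {P1 N1 m1 e1 y1 P2 N2 m2 e2 y2 s1 s2 w W : ℤ} (h : Lb P1 N1 m1 e1 y1)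
    (k : Lb P2 N2 m2 e2 y2) (t : Tr2 N1 m1 e1 y1 N2 m2 e2 y2 s1 s2 w) (hW : 0 ≤ W)
    (hY : y1 + y2 = 5 - W) (ke : m1 = 1 → m2 = 1 → s1 + s2 + 2 * e1 + 2 * e2 ≤ 9)
    (hle : P1 - 2 * e1 ≤ P2 - 2 * e2) :
    160 * (s1 + s2) - 944 - 76 * w ≤ 120 * ((P1 - 2 * e1) + (P2 - 2 * e2)) + 160 * W := by
  have g1 := t.le
  have g2 := t.w0
  obtain ⟨a1, a2⟩ := h.even
  obtain ⟨b1, b2⟩ := k.even
  rcases (by omega : (P1 - 2 * e1 = 0 ∧ P2 - 2 * e2 = 0) ∨ (P1 - 2 * e1 = 0 ∧ P2 - 2 * e2 = 2) ∨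
      4 ≤ (P1 - 2 * e1) + (P2 - 2 * e2)) with ⟨c1, c2⟩ | ⟨c1, c2⟩ | c1
  · rw [c1, c2]
    rcases h.t0 c1 with ⟨d1, d2, d3, d4⟩ | ⟨d1, d2, d3, d4⟩
    · rcases k.t0 c2 with ⟨f1, f2, f3, f4⟩ | ⟨f1, f2, f3, f4⟩
      · omega
      · have g3 := t.g1 d1 d2
        have g4 := t.p2 f1
        rcases (by omega : s1 + s2 ≤ 6 ∨ s1 = 4) with h1 | h1
        · omega
        · have g5 := t.n1
          have g6 : w ≠ 0 := fun h0 => by
            have := g5 h0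
            omega
          omega
    · rcases k.t0 c2 with ⟨f1, f2, f3, f4⟩ | ⟨f1, f2, f3, f4⟩
      · have g3 := t.g2 f1 f2
        have g4 := t.p1 d1
        rcases (by omega : s1 + s2 ≤ 6 ∨ s2 = 4) with h1 | h1
        · omega
        · have g5 := t.n2
          have g6 : w ≠ 0 := fun h0 => by
            have := g5 h0
            omega
          omega
      · have := ke d1 f1
        omega
  · rw [c1, c2]
    rcases h.t0 c1 with ⟨d1, d2, d3, d4⟩ | ⟨d1, d2, d3, d4⟩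
    · rcases k.t2 c2 with ⟨f1, f2, f3, f4⟩ | ⟨f1, f2, f3, f4⟩ <;> omega
    · rcases k.t2 c2 with ⟨f1, f2, f3, f4⟩ | ⟨f1, f2, f3, f4⟩
      · have := ke d1 f1
        omega
      · omega
  · omega

end Lb

namespace Le

variable {P1 N1 m1 e1 A1 y1 x1 P2 N2 m2 e2 A2 y2 x2 s1 s2 w s1' s2' w' W : ℤ}

/-- types (3;1) and a point. -/
theorem c31p (hA1 : A1 ≤ 6) (hA2 : A2 + y2 + x2 ≤ 10) (hy : y2 ≤ 3) (hY : 1 + y2 = 5 - W)
    (hx1 : 0 ≤ x1) (hx2 : 0 ≤ x2) (t : Tr2 1 3 0 1 5 1 0 y2 s1 s2 w)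
    (t' : Tr2 1 3 0 1 5 1 0 y2 s1' s2' w') (h1 : s1 + s1' ≤ A1) (h2 : s2 + s2' ≤ A2) :
    160 * (s1 + s2 + s1' + s2') - 1528 - 76 * (w + w') ≤
      240 + 160 * W + 5 * (A1 + A2 - (s1 + s2 + s1' + s2') + x1 + x2) := by
  have q1 := t.g1 rfl rfl
  have q2 := t'.g1 rfl rfl
  have q3 := t.p2 rfl
  have q4 := t'.p2 rfl
  have q5 := t.le
  have q6 := t'.le
  have q7 := t.w0
  have q8 := t'.w0
  have q9 := t.w1
  have q10 := t'.w1
  have q11 := t.a0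
  have q12 := t'.a0
  have r1 : w = 0 → s1 + s2 ≤ 4 ∨ (s1 = 0 ∧ s2 = 5) := fun h0 => by
    have f1 := t.n1 h0
    have f2 := t.k2 h0 rfl
    omega
  have r2 : w' = 0 → s1' + s2' ≤ 4 ∨ (s1' = 0 ∧ s2' = 5) := fun h0 => by
    have f1 := t'.n1 h0
    have f2 := t'.k2 h0 rfl
    omega
  rcases (by omega : w = 0 ∨ w = 1) with rfl | rfl
  · rcases r1 rfl with h3 | ⟨h3, h4⟩ <;> omega
  · rcases (by omega : w' = 0 ∨ w' = 1) with rfl | rfl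
    · rcases r2 rfl with h3 | ⟨h3, h4⟩ <;> omega
    · omega

/-- types (3;1) and (3;3). -/
theorem c3133 (hA1 : A1 ≤ 6) (hA2 : A2 + y2 + x2 ≤ 12) (hy : 1 ≤ W) (hY : 1 + y2 = 5 - W)
    (hx1 : 0 ≤ x1) (hx2 : 0 ≤ x2) (ht : x2 = 0 → A2 ≤ 7) (t : Tr2 1 3 0 1 3 3 0 y2 s1 s2 w)
    (t' : Tr2 1 3 0 1 3 3 0 y2 s1' s2' w') (h1 : s1 + s1' ≤ A1) (h2 : s2 + s2' ≤ A2) :
    160 * (s1 + s2 + s1' + s2') - 1528 - 76 * (w + w') ≤
      480 + 160 * W + 5 * (A1 + A2 - (s1 + s2 + s1' + s2') + x1 + x2) := by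
  have q7 := t.w0
  have q8 := t'.w0
  have q9 := t.w1
  have q10 := t'.w1
  rcases (by omega : x2 = 0 ∨ 1 ≤ x2) with h3 | h3
  · have := ht h3
    omega
  · rcases (by omega : (w = 0 ∧ w' = 0) ∨ 1 ≤ w + w') with ⟨h4, h5⟩ | h4
    · have f1 := t.n1 h4
      have f2 := t'.n1 h5
      have f3 := t.n2 h4
      have f4 := t'.n2 h5
      omega
    · omega

/-- types a point and (3;3) with a double single. -/
theorem cp33e (hA1 : A1 + y1 + x1 ≤ 10) (hA2 : A2 + x2 ≤ 7) (hY : y1 + 1 = 5 - W)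
    (hx1 : 0 ≤ x1) (hx2 : 0 ≤ x2) (t : Tr2 5 1 0 y1 3 3 1 1 s1 s2 w)
    (t' : Tr2 5 1 0 y1 3 3 1 1 s1' s2' w') (h1 : s1 + s1' ≤ A1) (h2 : s2 + s2' ≤ A2) :
    160 * (s1 + s2 + s1' + s2') - 1528 - 76 * (w + w') ≤
      480 + 160 * W + 5 * (A1 + A2 - (s1 + s2 + s1' + s2') + x1 + x2) := by
  have q3 := t.p1 rfl
  have q4 := t'.p1 rfl
  have q7 := t.w0
  have q8 := t'.w0
  have q9 := t.w1
  have q10 := t'.w1
  rcases (by omega : (w = 0 ∧ w' = 0) ∨ 1 ≤ w + w') with ⟨h4, h5⟩ | h4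
  · have f3 := t.n2 h4
    have f4 := t'.n2 h5
    omega
  · omega

/-- types a point with a double single and a leaf of value six with one own hit. -/
theorem cp6 {N e : ℤ} (hA1 : A1 + y1 + x1 ≤ 6) (hA2 : A2 + x2 ≤ 13) (hy : y1 ≤ 3)
    (hY : y1 + 1 = 5 - W) (hx1 : 0 ≤ x1) (hx2 : 0 ≤ x2) (hN : N - 2 * e = 1)
    (t : Tr2 5 1 1 y1 N m2 e y2 s1 s2 w)
    (t' : Tr2 5 1 1 y1 N m2 e y2 s1' s2' w') (h1 : s1 + s1' ≤ A1) (h2 : s2 + s2' ≤ A2) :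
    160 * (s1 + s2 + s1' + s2') - 1528 - 76 * (w + w') ≤
      720 + 160 * W + 5 * (A1 + A2 - (s1 + s2 + s1' + s2') + x1 + x2) := by
  have q5 := t.le
  have q6 := t'.le
  have q3 := t.p1 rfl
  have q4 := t'.p1 rfl
  have q7 := t.w0
  have q8 := t'.w0
  have q9 := t.w1
  have q10 := t'.w1
  have r1 : w = 0 → s1 + s2 ≤ 4 := fun h0 => by
    have f1 := t.n2 h0
    omega
  have r2 : w' = 0 → s1' + s2' ≤ 4 := fun h0 => by
    have f1 := t'.n2 h0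
    omega
  rcases (by omega : w = 0 ∨ w = 1) with rfl | rfl
  · have := r1 rfl
    omega
  · rcases (by omega : w' = 0 ∨ w' = 1) with rfl | rfl
    · have := r2 rfl
      omega
    · omega

/-- types a point and (3;3). -/
theorem cp33 (hA1 : A1 + y1 + x1 ≤ 10) (hA2 : A2 + y2 + x2 ≤ 12) (hy : y1 ≤ 3) (hy2 : 1 ≤ y2)
    (hY : y1 + y2 = 5 - W) (hW : 0 ≤ W) (hX : 2 ≤ x1 + x2)
    (t : Tr2 5 1 0 y1 3 3 0 y2 s1 s2 w)
    (t' : Tr2 5 1 0 y1 3 3 0 y2 s1' s2' w') (h1 : s1 + s1' ≤ A1) (h2 : s2 + s2' ≤ A2) :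
    160 * (s1 + s2 + s1' + s2') - 1528 - 76 * (w + w') ≤
      720 + 160 * W + 5 * (A1 + A2 - (s1 + s2 + s1' + s2') + x1 + x2) := by
  have q3 := t.p1 rfl
  have q4 := t'.p1 rfl
  have q5 := t.le
  have q6 := t'.le
  have q7 := t.w0
  have q8 := t'.w0
  have q9 := t.w1
  have q10 := t'.w1
  have r1 : w = 0 → s1 + s2 ≤ 6 ∨ (s1 + s2 = 7 ∧ y2 = 1) := fun h0 => by
    have f1 := t.n2 h0
    rcases t.k1 h0 rfl with f2 | f2 <;> omega
  have r2 : w' = 0 → s1' + s2' ≤ 6 ∨ (s1' + s2' = 7 ∧ y2 = 1) := fun h0 => by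
    have f1 := t'.n2 h0
    rcases t'.k1 h0 rfl with f2 | f2 <;> omega
  rcases (by omega : w = 0 ∨ w = 1) with rfl | rfl
  · rcases r1 rfl with h3 | ⟨h3, h4⟩ <;> omega
  · rcases (by omega : w' = 0 ∨ w' = 1) with rfl | rfl
    · rcases r2 rfl with h3 | ⟨h3, h4⟩ <;> omega
    · omega

/-- value eight: both triples are not poor only if the sum of the hits is small. -/
theorem c8 {w0 w0' : ℤ} (h : Le P1 N1 m1 e1 A1 y1 x1) (k : Le P2 N2 m2 e2 A2 y2 x2)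
    (t : Tr2 N1 m1 e1 y1 N2 m2 e2 y2 s1 s2 w0) (t' : Tr2 N1 m1 e1 y1 N2 m2 e2 y2 s1' s2' w0')
    (h1 : s1 + s1' ≤ A1) (h2 : s2 + s2' ≤ A2) (hY : y1 + y2 = 5)
    (hX : 2 ≤ x1 + x2) (h8 : (P1 - 2 * e1) + (P2 - 2 * e2) = 8) (hs : s1 + s2 = 8)
    (hs' : s1' + s2' = 8) (h0 : w0 = 0) (h0' : w0' = 0) : False := by
  have f1 := t.n1 h0
  have f2 := t.n2 h0
  have f3 := t'.n1 h0'
  have f4 := t'.n2 h0'
  have f5 := h.slot
  have f6 := k.slot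
  have f7 := h.b.e0
  have f8 := k.b.e0
  have g1 : 6 * (23 + 4 * (e1 + e2)) + (N1 + N2) ≤ 5 * (P1 + P2) + 110 := by
    linarith
  have g2 : P1 + P2 = 8 + 2 * (e1 + e2) := by linarith
  have g3 : 8 + 2 * (e1 + e2) ≤ N1 + N2 := by linarith
  obtain ⟨E, hE⟩ : ∃ E, E = e1 + e2 := ⟨_, rfl⟩
  rw [← hE] at g1 g2 g3
  have g4 : E = 0 := by omega
  have g5 : e1 = 0 := by omega
  have g6 : e2 = 0 := by omega
  have g7 : N1 + N2 ≤ 12 := by omega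
  have g8 := h.b.no
  have g9 := k.b.no
  have g10 := h.b.mo
  have g11 := k.b.mo
  have k1 := h.b.m1
  have k2 := k.b.m1
  clear f1 f2 f3 f4 f5 f6 f7 f8 g1 hY hX h1 h2 hs hs' t t'
  rcases h.b.cs with ⟨c1, c2, c3, c4, c5⟩ | ⟨c1, c2⟩
  · rcases k.b.cs with ⟨d1, d2, d3, d4, d5⟩ | ⟨d1, d2⟩
    · omega
    · omega
  · rcases k.b.cs with ⟨d1, d2, d3, d4, d5⟩ | ⟨d1, d2⟩
    · omega
    · omega

/-- **two centred triples at two leaves**. -/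
theorem two2 (h : Le P1 N1 m1 e1 A1 y1 x1) (k : Le P2 N2 m2 e2 A2 y2 x2)
    (t : Tr2 N1 m1 e1 y1 N2 m2 e2 y2 s1 s2 w) (t' : Tr2 N1 m1 e1 y1 N2 m2 e2 y2 s1' s2' w')
    (h1 : s1 + s1' ≤ A1) (h2 : s2 + s2' ≤ A2) (hW : 0 ≤ W) (hY : y1 + y2 = 5 - W)
    (hX : 2 < (P1 - 2 * e1) + (P2 - 2 * e2) → 2 ≤ x1 + x2)
    (ka : m1 = 1 → m2 = 1 → s1 + s2 + (s1' + s2') ≤ 12 + W)
    (hle : P1 - 2 * e1 ≤ P2 - 2 * e2) :
    160 * (s1 + s2 + s1' + s2') - 1528 - 76 * (w + w') ≤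
      120 * ((P1 - 2 * e1) + (P2 - 2 * e2)) + 160 * W +
        5 * (A1 + A2 - (s1 + s2 + s1' + s2') + x1 + x2) := by
  obtain ⟨a1, a2⟩ := h.b.even
  obtain ⟨b1, b2⟩ := k.b.even
  have q1 := h.slot
  have q2 := k.slot
  have q3 := h.x0
  have q4 := k.x0
  have q5 := t.w0
  have q6 := t'.w0
  rcases (by omega : (P1 - 2 * e1 = 0 ∧ P2 - 2 * e2 = 0) ∨ (P1 - 2 * e1 = 0 ∧ P2 - 2 * e2 = 2) ∨
      (P1 - 2 * e1 = 0 ∧ P2 - 2 * e2 = 4) ∨ (P1 - 2 * e1 = 2 ∧ P2 - 2 * e2 = 2) ∨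
      (P1 - 2 * e1 = 0 ∧ P2 - 2 * e2 = 6) ∨ (P1 - 2 * e1 = 2 ∧ P2 - 2 * e2 = 4) ∨
      (P1 - 2 * e1) + (P2 - 2 * e2) = 8 ∨ 10 ≤ (P1 - 2 * e1) + (P2 - 2 * e2)) with
    ⟨c1, c2⟩ | ⟨c1, c2⟩ | ⟨c1, c2⟩ | ⟨c1, c2⟩ | ⟨c1, c2⟩ | ⟨c1, c2⟩ | c1 | c1
  · rw [c1, c2]
    rcases h.b.t0 c1 with ⟨rfl, rfl, rfl, rfl⟩ | ⟨rfl, rfl, rfl, d4⟩
    · obtain rfl : P1 = 0 := by omega
      have d5 := h.a31 rfl rfl
      rcases k.b.t0 c2 with ⟨rfl, rfl, rfl, rfl⟩ | ⟨rfl, rfl, rfl, f4⟩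
      · obtain rfl : P2 = 0 := by omega
        have d6 := k.a31 rfl rfl
        omega
      · obtain rfl : P2 = 2 := by omega
        omega
    · obtain rfl : P1 = 2 := by omega
      rcases k.b.t0 c2 with ⟨rfl, rfl, rfl, rfl⟩ | ⟨rfl, rfl, rfl, f4⟩
      · obtain rfl : P2 = 0 := by omega
        have d6 := k.a31 rfl rfl
        omega
      · obtain rfl : P2 = 2 := by omega
        omega
  · rw [c1, c2]
    rcases h.b.t0 c1 with ⟨rfl, rfl, rfl, rfl⟩ | ⟨rfl, rfl, rfl, d4⟩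
    · obtain rfl : P1 = 0 := by omega
      have d5 := h.a31 rfl rfl
      rcases k.b.t2 c2 with ⟨rfl, rfl, rfl, f4⟩ | ⟨rfl, rfl, rfl, rfl⟩
      · obtain rfl : P2 = 2 := by omega
        have := c31p d5 (by omega) f4 hY q3 q4 t t' h1 h2
        linarith
      · obtain rfl : P2 = 4 := by omega
        omega
    · obtain rfl : P1 = 2 := by omega
      rcases k.b.t2 c2 with ⟨rfl, rfl, rfl, f4⟩ | ⟨rfl, rfl, rfl, rfl⟩
      · obtain rfl : P2 = 2 := by omega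
        omega
      · obtain rfl : P2 = 4 := by omega
        omega
  · have hX' := hX (by omega)
    have ht := k.thr c2
    rw [c1, c2]
    rcases h.b.t0 c1 with ⟨rfl, rfl, rfl, rfl⟩ | ⟨rfl, rfl, rfl, d4⟩
    · obtain rfl : P1 = 0 := by omega
      have d5 := h.a31 rfl rfl
      rcases k.b.t4 c2 with ⟨rfl, rfl, rfl, f4⟩ | ⟨rfl, rfl, rfl, rfl⟩
      · obtain rfl : P2 = 4 := by omega
        have := c3133 d5 (by omega) (by omega) hY q3 q4 ht t t' h1 h2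
        linarith
      · obtain rfl : P2 = 8 := by omega
        omega
    · obtain rfl : P1 = 2 := by omega
      rcases k.b.t4 c2 with ⟨rfl, rfl, rfl, f4⟩ | ⟨rfl, rfl, rfl, rfl⟩
      · obtain rfl : P2 = 4 := by omega
        rcases (by omega : x2 = 0 ∨ 1 ≤ x2) with h3 | h3
        · have := ht h3
          have := k.b.y1
          omega
        · omega
      · obtain rfl : P2 = 8 := by omega
        omega
  · have hX' := hX (by omega)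
    rw [c1, c2]
    rcases h.b.t2 c1 with ⟨rfl, rfl, rfl, d4⟩ | ⟨rfl, rfl, rfl, rfl⟩
    · obtain rfl : P1 = 2 := by omega
      rcases k.b.t2 c2 with ⟨rfl, rfl, rfl, f4⟩ | ⟨rfl, rfl, rfl, rfl⟩
      · have := ka rfl rfl
        omega
      · obtain rfl : P2 = 4 := by omega
        have := cp33e (y1 := y1) (W := W) (by omega) (by omega) hY q3 q4 t t' h1 h2
        linarith
    · obtain rfl : P1 = 4 := by omega
      rcases k.b.t2 c2 with ⟨rfl, rfl, rfl, f4⟩ | ⟨rfl, rfl, rfl, rfl⟩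
      · obtain rfl : P2 = 2 := by omega
        have := cp33e (y1 := y2) (W := W) (by omega) (by omega) (by omega) q4 q3 t.symm
          t'.symm h2 h1
        linarith
      · obtain rfl : P2 = 4 := by omega
        omega
  · have hX' := hX (by omega)
    rw [c1, c2]
    have g1 := t.le
    have g2 := t'.le
    rcases h.b.t0 c1 with ⟨rfl, rfl, rfl, rfl⟩ | ⟨rfl, rfl, rfl, d4⟩
    · obtain rfl : P1 = 0 := by omega
      have d5 := h.a31 rfl rfl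
      rcases k.b.t6 c2 with ⟨rfl, rfl, rfl, rfl⟩ | ⟨rfl, rfl, rfl⟩ | ⟨rfl, rfl, rfl, rfl⟩
      · omega
      · obtain rfl : P2 = 8 := by omega
        omega
      · omega
    · obtain rfl : P1 = 2 := by omega
      rcases k.b.t6 c2 with ⟨rfl, rfl, rfl, rfl⟩ | ⟨rfl, rfl, rfl⟩ | ⟨rfl, rfl, rfl, rfl⟩
      · obtain rfl : P2 = 6 := by omega
        have := cp6 (y1 := y1) (W := W) (by omega) (by omega) d4 hY q3 q4 (by norm_num) t t' h1 h2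
        linarith
      · obtain rfl : P2 = 8 := by omega
        omega
      · obtain rfl : P2 = 12 := by omega
        have := cp6 (y1 := y1) (W := W) (by omega) (by omega) d4 hY q3 q4 (by norm_num) t t' h1 h2
        linarith
  · have hX' := hX (by omega)
    have ht := k.thr c2
    rw [c1, c2]
    rcases h.b.t2 c1 with ⟨rfl, rfl, rfl, d4⟩ | ⟨rfl, rfl, rfl, rfl⟩
    · obtain rfl : P1 = 2 := by omega
      rcases k.b.t4 c2 with ⟨rfl, rfl, rfl, f4⟩ | ⟨rfl, rfl, rfl, rfl⟩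
      · obtain rfl : P2 = 4 := by omega
        have := cp33 (y1 := y1) (W := W) (by omega) (by omega) d4 k.b.y1 hY hW hX' t t' h1 h2
        linarith
      · obtain rfl : P2 = 8 := by omega
        omega
    · obtain rfl : P1 = 4 := by omega
      rcases k.b.t4 c2 with ⟨rfl, rfl, rfl, f4⟩ | ⟨rfl, rfl, rfl, rfl⟩
      · obtain rfl : P2 = 4 := by omega
        rcases (by omega : x2 = 0 ∨ 1 ≤ x2) with h3 | h3
        · have := ht h3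
          omega
        · omega
      · obtain rfl : P2 = 8 := by omega
        omega
  · have hX' := hX (by omega)
    have g1 := t.le
    have g2 := t'.le
    rw [c1]
    rcases (by omega : 1 ≤ W ∨ W = 0) with h3 | h3
    · linarith
    subst h3
    rcases (by omega : s1 + s2 + (s1' + s2') ≤ 15 ∨ 1 ≤ w + w' ∨
      (s1 + s2 = 8 ∧ s1' + s2' = 8 ∧ w = 0 ∧ w' = 0)) with h4 | h4 | ⟨h4, h5, h6, h7⟩
    · linarith
    · linarith
    · exact (c8 h k t t' h1 h2 (by linarith) hX' c1 h4 h5 h6 h7).elim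
  · have g1 := t.le
    have g2 := t'.le
    linarith

end Le

end Pool.Agent.Hyp6
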