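import Pool.Agent.Hyp6.L3Nw
import Pool.Agent.Hyp6.L3Yq0
import Pool.Agent.Hyp6.L3NS

/-!
# HYP6 L3Yq1: the numbers of the centred triples of a composite class

`Cd.g31`: a pair at a leaf (3;1). `Stg.g31two`: two triples at a leaf (3;1). `Cd.tr2`: the numbers `Tr2`
at the two leaves of a class. `e0q3`, `e0q4`: three and four leaves.
-/

set_option autoImplicit false

namespace Pool.Agent.Hyp6

open Finset Pool.Agent.Hyp5 Rt

universe u v

/-- three leaves with two centred triples, in integers. -/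
theorem e0q3 {s S E N Y x W w : ℤ} (hs : s ≤ 16) (hS : 0 ≤ S) (hS2 : S % 2 = 0)
    (hW : 0 ≤ W) (hY : Y = 10 - W) (hYN : Y ≤ N) (hN : N ≤ 2 * S + 4 * E + 3)
    (hH : 6 * (Y + x) + N ≤ 5 * S + 165 - 14 * E) (hx : s + 2 ≤ x) (hw : 0 ≤ w)
    (hnp : w = 0 → s + Y + 4 * E ≤ 2 * N) :
    160 * s - 2008 - 76 * w ≤ 120 * S + 160 * W + 5 * (x - s) := by
  rcases (by omega : S = 0 ∨ S = 2 ∨ S = 4 ∨ 6 ≤ S) with h | h | h | h
  · subst h
    omega
  · subst h
    omega
  · subst h
    rcases (by omega : w = 0 ∨ 1 ≤ w) with h1 | h1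
    · have := hnp h1
      omega
    · omega
  · omega

/-- four leaves with two centred triples, in integers. -/
theorem e0q4 {s S E N Y x W w : ℤ} (hs : s ≤ 16) (hS : 0 ≤ S) (hS2 : S % 2 = 0) (hE : 0 ≤ E)
    (hW : 0 ≤ W) (hY : Y = 15 - W) (hYN : Y ≤ N) (hN : N ≤ 2 * S + 4 * E + 4)
    (hH : 6 * (Y + x) + N ≤ 5 * S + 220 - 14 * E) (hx : s ≤ x) (hw : 0 ≤ w) :
    160 * s - 2488 - 76 * w ≤ 120 * S + 160 * W + 5 * (x - s) := by
  rcases (by omega : S = 0 ∨ 2 ≤ S) with h | h
  · subst h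
    omega
  · omega

variable {V : Type v} [DecidableEq V] {ι : Type u} [Fintype ι] [DecidableEq ι]
  {B : ι → Finset V} {Q U : Finset V} {T : Finset ι} {F : Finset (Finset V)}
  {P : Finset (Finset (Finset V))} {C : Finset (Finset V)} {i j : ι}
  {a : V → Finset (Finset V) → ℕ} {x y z x' y' z' : V} {m w m' w' : ℕ} {L M : Finset V}

/-- **two triples at a leaf (3;1)**. -/
theorem Stg.g31two (s : Stg B Q T U F P a) (hG : G31 B Q T U F) (hL : L ∈ F)
    (h3 : L.card = 3) (hN : nt B L 1 = 1) (hi : i ∈ T) (hj : j ∈ T) (hij : i ≠ j) :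
    jh B Q i L + jh B Q j L ≤ 6 := by
  have h4 := s.one hL
  have h5 := h4.pp
  have h6 := h4.p0
  have h7 := h4.e0
  have h8 := h4.gn
  have h9 := s.dv_W hL
  have key := hG L hL h3 hN (by rw [h9]; omega) (by omega)
  by_cases h10 : 4 ≤ jh B Q i L
  · obtain ⟨h11, h12⟩ := key i hi h10
    have h13 := h12 j hj hij
    have h14 : jh B Q i L ≤ 4 := h11
    have h15 : jh B Q j L ≤ 2 := h13
    omega
  · by_cases h11 : 4 ≤ jh B Q j L
    · obtain ⟨h12, h13⟩ := key j hj h11
      have h14 : jh B Q j L ≤ 4 := h12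
      have h15 : jh B Q i L ≤ 2 := h13 i hi hij.symm
      omega
    · omega

namespace Cd

theorem xT (c : Cd B Q T U F P C j x y z m w) : x ∈ B j ∩ Q := by rw [c.bt.eq]; simp

theorem yT (c : Cd B Q T U F P C j x y z m w) : y ∈ B j ∩ Q := by rw [c.bt.eq]; simp

/-- the hits of the pair are hits of the triple. -/
theorem le_jh (c : Cd B Q T U F P C j x y z m w) (L : Finset V) :
    uh B x L + uh B y L ≤ jh B Q j L := by
  rw [jh_sum, c.bt.eq, sum_insert (by simp [c.bt.ab, c.bt.ac]), sum_pair c.bt.bc]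
  omega

/-- the hits of the pair, by leaves. -/
theorem m_sum (c : Cd B Q T U F P C j x y z m w) : m = ∑ L ∈ C, (uh B x L + uh B y L) := by
  rw [c.s_eq, sum_add_distrib]
  rfl

theorem m8 (c : Cd B Q T U F P C j x y z m w) : m ≤ 8 := by
  have h1 := c.s_eq
  have h2 := c.x4
  have h3 := c.y4
  omega

/-- a pair at a point leaf. -/
theorem pt (s : Stg B Q T U F P a) (c : Cd B Q T U F P C j x y z m w) (hC : C ∈ P)
    (hL : L ∈ C) (h1 : L.card = 1) : uh B x L + uh B y L + 2 * ee B Q L ≤ 5 := by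
  obtain ⟨p, rfl⟩ := card_eq_one.1 h1
  exact s.pt5 hC c hL

/-- **a triple at a leaf (3;1)**. -/
theorem g31 (s : Stg B Q T U F P a) (hG : G31 B Q T U F) (c : Cd B Q T U F P C j x y z m w)
    (hCF : C ⊆ F) (hL : L ∈ C) (h3 : L.card = 3) (hN : nt B L 1 = 1) :
    uh B x L + uh B y L ≤ 4 := by
  have hLF := hCF hL
  have h1 := c.le_jh L
  have h4 := s.one hLF
  have h5 := h4.pp
  have h6 := h4.p0
  have h7 := h4.e0
  have h8 := h4.gn
  have h9 := s.dv_W hLF
  rcases (by omega : uh B x L + uh B y L ≤ 4 ∨ 4 ≤ jh B Q j L) with h10 | h10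
  · exact h10
  · have h11 := (hG L hLF h3 hN (by rw [h9]; omega) (by omega) j c.mT h10).1
    exact h1.trans h11

/-- one half of the numbers at two leaves. -/
theorem half (s : Stg B Q T U F P a) (hC : ({L, M} : Finset (Finset V)) ∈ P) (hLM : L ≠ M) {u : V}
    (hU : Sp.Uin U (slf B F) {L, M} = {u}) (c : Cd B Q T U F P {L, M} j x y z m w) (h0 : w = 0)
    (h1 : L.card = 1) : uh B x L + uh B y L ≤ 3 ∨
      hit B (Sp.Uin U (slf B F) {L, M}) M + (uh B x M + uh B y M) + 2 * ee B Q M ≤ nt B M 1 := by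
  obtain ⟨p, rfl⟩ := card_eq_one.1 h1
  have h2 : ¬ PoorF B x y {{p}, M} := fun h3 => by
    have := c.poor.2 h3
    omega
  have h3 := (s.kb hC hLM hU c.mT c.bt (Subset.refl _) h2).2.2
  have h4 : hit B (Sp.Uin U (slf B F) {{p}, M}) M = uh B u M := by
    rw [hU]
    rfl
  rw [h4]
  rcases h3 with h3 | h3
  · exact Or.inl h3
  · exact Or.inr (by omega)

/-- **the numbers of a centred triple at two leaves**. -/
theorem tr2 (s : Stg B Q T U F P a) (hG : G31 B Q T U F) (hC : ({L, M} : Finset (Finset V)) ∈ P)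
    (hLM : L ≠ M) {u : V} (hU : Sp.Uin U (slf B F) {L, M} = {u})
    (c : Cd B Q T U F P {L, M} j x y z m w) :
    Tr2 (nt B L 1) L.card (ee B Q L) (hit B (Sp.Uin U (slf B F) {L, M}) L) (nt B M 1) M.card
      (ee B Q M) (hit B (Sp.Uin U (slf B F) {L, M}) M) ((uh B x L : ℤ) + uh B y L)
      ((uh B x M : ℤ) + uh B y M) w := by
  have hCF : ({L, M} : Finset (Finset V)) ⊆ F := (s.part.ptn.vc _ hC).sub
  have hm := c.m_sum
  rw [sum_pair hLM] at hm
  have h8 := c.m8
  have hw := c.w1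
  have hC' : ({M, L} : Finset (Finset V)) ∈ P := by rwa [pair_comm M L]
  have c' : Cd B Q T U F P {M, L} j x y z m w := by rwa [pair_comm M L]
  refine ⟨by positivity, by positivity, by positivity, by exact_mod_cast hw, by omega,
    fun h => ?_, fun h => ?_, fun h => ?_, fun h => ?_, fun h h1 => ?_, fun h h1 => ?_,
    fun h h1 => ?_, fun h h1 => ?_⟩
  · have := c.pt s hC (L := L) (by simp) (by exact_mod_cast h)
    exact_mod_cast this
  · have := c.pt s hC (L := M) (by simp) (by exact_mod_cast h)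
    exact_mod_cast this
  · have := c.leaf (by exact_mod_cast h) L (by simp)
    exact_mod_cast this
  · have := c.leaf (by exact_mod_cast h) M (by simp)
    exact_mod_cast this
  · have := half s hC hLM hU c (by exact_mod_cast h) (by exact_mod_cast h1)
    exact_mod_cast this
  · have := half s hC' hLM.symm (u := u) (by rw [pair_comm M L]; exact hU) c'
      (by exact_mod_cast h) (by exact_mod_cast h1)
    rw [pair_comm M L] at this
    exact_mod_cast this
  · have := c.g31 s hG hCF (L := L) (by simp) (by exact_mod_cast h) (by exact_mod_cast h1)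
    exact_mod_cast this
  · have := c.g31 s hG hCF (L := M) (by simp) (by exact_mod_cast h) (by exact_mod_cast h1)
    exact_mod_cast this

end Cd

end Pool.Agent.Hyp6
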