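import Pool.Agent.Hyp6.L3Zm

/-!
# HYP6 L3Z0: a leaf with its triple

`Z = L + T` for a leaf `L` of a frame and a triple `T`: cover number `rho L + 1`, value `0`, potential,
and the criterion for the cost condition of a general deletion at `Z`.
-/

set_option autoImplicit false

namespace Pool.Agent.Hyp6

open Finset Pool.Agent.Hyp5

universe u v

variable {V : Type v} [DecidableEq V] {ι : Type u} [Fintype ι] {B : ι → Finset V}

/-- the leaf with the triple. -/
def Zo (B : ι → Finset V) (Q L : Finset V) (i0 : ι) : Finset V := L ∪ (B i0 ∩ Q)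

section

variable {Q L : Finset V} {i0 : ι}

theorem Zo_sub (hLQ : L ⊆ Q \ (B i0 ∩ Q)) : Zo B Q L i0 ⊆ Q :=
  union_subset (hLQ.trans sdiff_subset) inter_subset_right

theorem Zo_dis (hLQ : L ⊆ Q \ (B i0 ∩ Q)) : Disjoint L (B i0 ∩ Q) := by
  rw [disjoint_left]
  intro v hv hv'
  exact (mem_sdiff.1 (hLQ hv)).2 hv'

theorem Zo_card (hc3 : (B i0 ∩ Q).card = 3) (hLQ : L ⊆ Q \ (B i0 ∩ Q)) :
    (Zo B Q L i0).card = L.card + 3 := by
  unfold Zo
  rw [card_union_of_disjoint (Zo_dis hLQ), hc3]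

/-- the value. -/
theorem Zo_sv (hc3 : (B i0 ∩ Q).card = 3) (hLQ : L ⊆ Q \ (B i0 ∩ Q))
    (hrho : rho B (Zo B Q L i0) = rho B L + 1) : sv B (Zo B Q L i0) = sv B L + 1 := by
  unfold sv
  rw [hrho, Zo_card hc3 hLQ]
  push_cast
  ring

/-- the potential; `ins` counts the blocks of the triple which miss `L` (with the triple). -/
theorem Zo_Pv (hc3 : (B i0 ∩ Q).card = 3) (hLQ : L ⊆ Q \ (B i0 ∩ Q))
    (hrho : rho B (Zo B Q L i0) = rho B L + 1) : Pv B (Zo B Q L i0) = Pv B L - 9 +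
    4 * ((ins B (Zo B Q L i0) (B i0 ∩ Q)).card : ℤ) := by
  have h1 := Pv_sdiff (B := B) (W := Zo B Q L i0) (X := B i0 ∩ Q) subset_union_right
  have h2 : Zo B Q L i0 \ (B i0 ∩ Q) = L := by
    unfold Zo
    rw [union_sdiff_right, sdiff_eq_self_of_disjoint (Zo_dis hLQ)]
  rw [h2, hrho, hc3] at h1
  push_cast at h1
  linarith

/-- the potential with the singles. -/
theorem Zo_dv (hc3 : (B i0 ∩ Q).card = 3) (hLQ : L ⊆ Q \ (B i0 ∩ Q))
    (hrho : rho B (Zo B Q L i0) = rho B L + 1) (he : ee B Q (B i0 ∩ Q) = 0) :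
    dv B Q (Zo B Q L i0) = dv B Q L - 9 +
    4 * ((ins B (Zo B Q L i0) (B i0 ∩ Q)).card : ℤ) := by
  have h1 := Zo_Pv hc3 hLQ hrho
  have h2 : ee B Q (Zo B Q L i0) = ee B Q L + ee B Q (B i0 ∩ Q) := by
    unfold Zo
    rw [ee_union (Zo_dis hLQ)]
  rw [he] at h2
  unfold dv
  rw [h1, h2]
  push_cast
  ring

/-- **the cost of a set by an explicit cover** outside a critical set without one point. -/
theorem cost_of_cover {W A : Finset V} {l : V} (hcL : Cov B L) (hl : l ∈ L)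
    (hcr : rho B (L.erase l) + 1 = rho B L) (S : Finset ι)
    (hS : ∀ v ∈ W ∪ A, v ∈ L.erase l ∨ ∃ i ∈ S, v ∈ B i) {m : ℕ}
    (hm : S.card ≤ m + 1) : rho B (W ∪ A) ≤ rho B L + m := by
  classical
  obtain ⟨T0, hT0, hT0c⟩ := exists_cover (hcL.mono (erase_subset l L))
  have h1 : W ∪ A ⊆ (T0 ∪ S).biUnion B := by
    intro v hv
    rcases hS v hv with h2 | ⟨i, hi, h2⟩
    · obtain ⟨j, hj, h3⟩ := mem_biUnion.1 (hT0 h2)
      exact mem_biUnion.2 ⟨j, mem_union_left _ hj, h3⟩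
    · exact mem_biUnion.2 ⟨i, mem_union_right _ hi, h2⟩
  have h2 := rho_le h1
  have h3 := card_union_le T0 S
  omega

/-- the cost with a full cover of `L`. -/
theorem cost_of_cover' {W A : Finset V} (hcL : Cov B L) (S : Finset ι)
    (hS : ∀ v ∈ W ∪ A, v ∈ L ∨ ∃ i ∈ S, v ∈ B i) {m : ℕ}
    (hm : S.card ≤ m) : rho B (W ∪ A) ≤ rho B L + m := by
  classical
  obtain ⟨T0, hT0, hT0c⟩ := exists_cover hcL
  have h1 : W ∪ A ⊆ (T0 ∪ S).biUnion B := by
    intro v hv
    rcases hS v hv with h2 | ⟨i, hi, h2⟩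
    · obtain ⟨j, hj, h3⟩ := mem_biUnion.1 (hT0 h2)
      exact mem_biUnion.2 ⟨j, mem_union_left _ hj, h3⟩
    · exact mem_biUnion.2 ⟨i, mem_union_right _ hi, h2⟩
  have h2 := rho_le h1
  have h3 := card_union_le T0 S
  omega

end

namespace Frm

variable {Q U : Finset V} {T : Finset ι} {F : Finset (Finset V)}

/-- `U` is matched outside one leaf. -/
theorem hall_one (h : Frm B Q T U F) {L : Finset V} (hL : L ∈ F) :
    ∀ Z ⊆ U, Z.card ≤ (nbF (gr B) (F \ {L}) Z).card := by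
  intro Z hZ
  rcases Z.eq_empty_or_nonempty with rfl | hne
  · simp
  have h1 := h.ge.surplus Z hZ hne
  have h2 : (nbF (gr B) F Z).erase L ⊆ nbF (gr B) (F \ {L}) Z := by
    intro C hC
    obtain ⟨h3, h4⟩ := mem_erase.1 hC
    obtain ⟨h5, h6⟩ := mem_nbF.1 h4
    exact mem_nbF.2 ⟨mem_sdiff.2 ⟨h5, fun h7 => h3 (mem_singleton.1 h7)⟩, h6⟩
  have h3 := card_le_card h2
  have h4 := card_erase_add_one (s := nbF (gr B) F Z) (a := L)
  by_cases h5 : L ∈ nbF (gr B) F Z
  · have := h4 h5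
    omega
  · rw [erase_eq_of_notMem h5] at h3
    omega

theorem Zo_eq (L : Finset V) (j : ι) : Zo B Q L j = Zn B Q {j} ∅ {L} ∅ := by
  ext v
  unfold Zo
  rw [mem_Zn]
  simp only [mem_union, mem_inter, mem_singleton, exists_eq_left, notMem_empty,
    false_or, or_false]
  tauto

/-- the cover number of the leaf with the triple. -/
theorem rho_Zo (h : Frm B Q T U F) {j : ι} (hj : j ∈ T) {L : Finset V} (hL : L ∈ F) :
    rho B (Zo B Q L j) = rho B L + 1 := by
  classical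
  obtain ⟨g, hg⟩ := mti_of_hall (h.hall_one hL)
  have h1 := h.rho_cls (singleton_subset_iff.2 hL) Dcl.empty (T' := {j})
    (singleton_subset_iff.2 hj) (U' := ∅) (empty_subset _) (g' := g)
    ⟨fun p hp => absurd hp (notMem_empty _), fun p hp => absurd hp (notMem_empty _),
      fun p hp => absurd hp (notMem_empty _)⟩ (g := g) (by rw [sdiff_empty]; exact hg)
  rw [Zo_eq, h1, sum_singleton, card_singleton, rho_empty]

/-- the value of the leaf with the triple. -/
theorem sv_Zo (h : Frm B Q T U F) {j : ι} (hj : j ∈ T) {L : Finset V} (hL : L ∈ F) :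
    sv B (Zo B Q L j) = 0 := by
  rw [Zo_sv (h.mtp.tpk.pack.card j hj) (h.leaf_out hj hL) (h.rho_Zo hj hL), h.sv_leaf hL]
  norm_num

end Frm

end Pool.Agent.Hyp6
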