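import Pool.Agent.Hyp6.L4Defs
import Pool.Agent.Hyp6.L3Neg

/-!
# HYP6 L4E: the value part of the level-3 theorem with the term for the single traces
-/

set_option autoImplicit false

namespace Pool.Agent.Hyp6

open Finset Pool.Agent.Hyp5

universe u v

variable {V : Type v} [DecidableEq V]

/-- the value part of the level-3 theorem with the term for the single traces. -/
theorem L3e_of_IHL (hL : ∀ n, IHL.{u} V n) : L3e.{u} V := by
  classical
  intro κ _ B Q
  induction Q using Finset.strongInduction with
  | H Q ih =>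
    intro hr h3 hQ hk
    have hok := hL (Q.card + 1) κ B Q (Nat.lt_succ_self _) hr h3 hQ hk
    by_cases hcr : Crit B Q
    · have h1 := crit_sv_ge hr hQ hcr
      have h2 := hok.1
      rw [Pv_eq_Pp]
      linarith
    · unfold Crit at hcr
      push Not at hcr
      obtain ⟨x, hx, hxr⟩ := hcr
      have hcov : Cov B Q := cov_of_reg hr
      have hrho : rho B (Q.erase x) = rho B Q := by
        have h1 := rho_le_erase (x := x) hcov
        have h2 := rho_erase_le (x := x) hcov
        omega
      obtain ⟨K, hK1, hK2, hK3⟩ := exists_parts B (Q.erase x)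
      have hcard := card_comps_le hr hx hQ hK1 hK2
      have hxs : ({x} : Finset V) ⊆ Q := singleton_subset_iff.2 hx
      have hKQ : ∀ C ∈ K, C ⊆ Q := fun C hC => (hK1 C hC).1.trans (erase_subset _ _)
      have hKcov : ∀ C ∈ K, Cov B C := fun C hC => hcov.mono (hKQ C hC)
      have hval : ∀ C ∈ K, -1 ≤ dv B Q C := by
        intro C hC
        have hne : C ≠ Q := by
          rintro rfl
          exact (mem_erase.1 ((hK1 _ hC).1 hx)).1 rfl
        have h1 := ih C (lt_of_le_of_ne (hKQ C hC) hne) (hr.mono (hKQ C hC)) (h3.mono (hKQ C hC))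
          (hK1 C hC).2.2 (not_KT_of_ssubset hQ hr h3 (hKQ C hC) hne)
        have h2 : (ee B Q C : ℤ) ≤ ee B C C := by
          exact_mod_cast ee_le_ee (Subset.refl _) (hKQ C hC)
        unfold dv
        linarith
      have he : Q \ {x} = K.biUnion id := by rw [hK3, sdiff_singleton_eq_erase]
      have h2 := Pv_sdiff (B := B) hxs
      rw [he, Pv_biUnion hKcov hK2, card_singleton] at h2
      have hr' : rho B (K.biUnion id) = rho B Q := by rw [hK3, hrho]
      rw [hr'] at h2
      have hee : ee B Q Q = ∑ C ∈ K, ee B Q C + ee B Q {x} := by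
        rw [← ee_biUnion hK2, ← he, ← ee_union sdiff_disjoint, sdiff_union_of_subset hxs]
      have h5 := two_ee_le' (B := B) Q {x}
      have h6 : ∑ C ∈ K, (-1 : ℤ) ≤ ∑ C ∈ K, dv B Q C := sum_le_sum fun C hC => hval C hC
      rw [sum_const, nsmul_eq_mul] at h6
      have h7 : ∑ C ∈ K, dv B Q C = ∑ C ∈ K, Pv B C - 2 * ∑ C ∈ K, (ee B Q C : ℤ) := by
        unfold dv
        rw [sum_sub_distrib, ← mul_sum]
      have c1 : (ee B Q Q : ℤ) = ∑ C ∈ K, (ee B Q C : ℤ) + ee B Q {x} := by
        rw [hee]
        push_cast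
        ring
      have c2 : (K.card : ℤ) + (ins B Q {x}).card ≤ 5 := by exact_mod_cast hcard
      have c3 : 2 * (ee B Q {x} : ℤ) ≤ (ins B Q {x}).card := by exact_mod_cast h5
      have c4 : (0 : ℤ) ≤ (ins B Q {x}).card := by positivity
      push_cast at h2
      linarith

end Pool.Agent.Hyp6
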