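import Pool.Agent.Hyp6.L4K

/-!
# HYP6 L4K2: any two points of a K-piece lie in a common block; covers of a K-piece by three blocks
-/

set_option autoImplicit false

namespace Pool.Agent.Hyp6

open Finset Pool.Agent.Hyp5

universe u v

variable {V : Type v} [DecidableEq V] {ι : Type u} [Fintype ι] {B : ι → Finset V} {X : Finset V}

/-- every block meeting `X` contains one of two points which lie in no common block. -/
theorem KP.one_of (hr : Reg B X) (h : KP B X) {z z' : V} (hz : z ∈ X) (hz' : z' ∈ X)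
    (hno : ∀ i, z ∈ B i → z' ∉ B i) {i : ι} (hi : (B i ∩ X).Nonempty) : z ∈ B i ∨ z' ∈ B i := by
  classical
  have h1 : Disjoint (univ.filter (fun i => z ∈ B i)) (univ.filter (fun i => z' ∈ B i)) := by
    rw [disjoint_left]
    intro j hj hj'
    exact hno j (mem_filter.1 hj).2 (mem_filter.1 hj').2
  have h2 : univ.filter (fun i => z ∈ B i) ∪ univ.filter (fun i => z' ∈ B i) ⊆ tch B X := by
    intro j hj
    rw [cost_mem_tch]
    rcases mem_union.1 hj with hj | hj
    · exact ⟨z, mem_inter.2 ⟨(mem_filter.1 hj).2, hz⟩⟩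
    · exact ⟨z', mem_inter.2 ⟨(mem_filter.1 hj).2, hz'⟩⟩
  have h3 : univ.filter (fun i => z ∈ B i) ∪ univ.filter (fun i => z' ∈ B i) = tch B X := by
    refine eq_of_subset_of_card_le h2 ?_
    rw [card_union_of_disjoint h1, hr z hz, hr z' hz']
    exact h.cmX.le
  have h4 : i ∈ tch B X := cost_mem_tch.2 hi
  rw [← h3, mem_union, mem_filter, mem_filter] at h4
  tauto

/-- closure under complements. -/
theorem KP.compl_block (hr : Reg B X) (h : KP B X) {z z' : V} (hz : z ∈ X) (hz' : z' ∈ X)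
    (hno : ∀ i, z ∈ B i → z' ∉ B i) {i : ι} (hi : z ∈ B i) :
    ∃ j, z ∈ B j ∧ B j ∩ ((X.erase z).erase z') = ((X.erase z).erase z') \ B i := by
  classical
  have hzz : z ≠ z' := by
    rintro rfl
    exact hno i hi hi
  have hiX : (B i ∩ X).Nonempty := ⟨z, mem_inter.2 ⟨hi, hz⟩⟩
  have hUc : (X \ B i).card = 3 := by
    have h1 := card_sdiff_add_card_inter X (B i)
    rw [inter_comm, h.trace hr hiX, h.card] at h1
    omega
  have hz'U : z' ∈ X \ B i := mem_sdiff.2 ⟨hz', hno i hi⟩
  have h2 : ((X \ B i).erase z').card = 2 := by rw [card_erase_of_mem hz'U, hUc]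
  obtain ⟨u, w, huw, h3⟩ := card_eq_two.1 h2
  have hu : u ∈ (X \ B i).erase z' := by rw [h3]; simp
  have hw : w ∈ (X \ B i).erase z' := by rw [h3]; simp
  rw [mem_erase] at hu hw
  obtain ⟨j, hj⟩ := h.pair_block hr hiX hu.2 hw.2 huw
  have hju : u ∈ B j := by
    have : u ∈ B j ∩ (X \ B i) := by rw [hj]; simp
    exact (mem_inter.1 this).1
  have hz'j : z' ∉ B j := by
    intro hc
    have h5 : z' ∈ B j ∩ (X \ B i) := mem_inter.2 ⟨hc, hz'U⟩
    rw [hj, mem_insert, mem_singleton] at h5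
    rcases h5 with h5 | h5
    · exact hu.1 h5.symm
    · exact hw.1 h5.symm
  have hzj : z ∈ B j := by
    rcases h.one_of hr hz hz' hno (i := j) ⟨u, mem_inter.2 ⟨hju, (mem_sdiff.1 hu.2).1⟩⟩ with h5 | h5
    · exact h5
    · exact absurd h5 hz'j
  have h6 := h.trace hr (i := j) ⟨z, mem_inter.2 ⟨hzj, hz⟩⟩
  have h7 : ({z, u, w} : Finset V) ⊆ B j ∩ X := by
    intro v hv
    simp only [mem_insert, mem_singleton] at hv
    rcases hv with rfl | rfl | rfl
    · exact mem_inter.2 ⟨hzj, hz⟩
    · exact mem_inter.2 ⟨hju, (mem_sdiff.1 hu.2).1⟩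
    · have : v ∈ B j ∩ (X \ B i) := by rw [hj]; simp
      exact mem_inter.2 ⟨(mem_inter.1 this).1, (mem_sdiff.1 hw.2).1⟩
  have hzu : z ≠ u := by
    rintro rfl
    exact (mem_sdiff.1 hu.2).2 hi
  have hzw : z ≠ w := by
    rintro rfl
    exact (mem_sdiff.1 hw.2).2 hi
  have h8 : ({z, u, w} : Finset V).card = 3 := card_eq_three.2 ⟨z, u, w, hzu, hzw, huw, rfl⟩
  have h9 : ({z, u, w} : Finset V) = B j ∩ X := eq_of_subset_of_card_le h7 (by omega)
  refine ⟨j, hzj, ?_⟩
  ext v
  rw [mem_inter, mem_sdiff, mem_erase, mem_erase]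
  constructor
  · rintro ⟨hvj, hvz', hvz, hvX⟩
    refine ⟨⟨hvz', hvz, hvX⟩, fun hvi => ?_⟩
    have h10 : v ∈ ({z, u, w} : Finset V) := by
      rw [h9]
      exact mem_inter.2 ⟨hvj, hvX⟩
    simp only [mem_insert, mem_singleton] at h10
    rcases h10 with rfl | rfl | rfl
    · exact hvz rfl
    · exact (mem_sdiff.1 hu.2).2 hvi
    · exact (mem_sdiff.1 hw.2).2 hvi
  · rintro ⟨⟨hvz', hvz, hvX⟩, hvi⟩
    refine ⟨?_, hvz', hvz, hvX⟩
    have h10 : v ∈ (X \ B i).erase z' := mem_erase.2 ⟨hvz', mem_sdiff.2 ⟨hvX, hvi⟩⟩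
    rw [h3] at h10
    have h11 : v ∈ B j ∩ (X \ B i) := by
      rw [hj]
      exact h10
    exact (mem_inter.1 h11).1

/-- the blocks of the two sides meet in one further point. -/
theorem KP.cross_one (hr : Reg B X) (h : KP B X) {z z' : V} (hz : z ∈ X) (hz' : z' ∈ X)
    (hno : ∀ i, z ∈ B i → z' ∉ B i) {i k : ι} (hi : z ∈ B i) (hk : z' ∈ B k) :
    (B k ∩ (B i ∩ ((X.erase z).erase z'))).card = 1 := by
  classical
  set R := (X.erase z).erase z' with hR
  have hzk : z ∉ B k := fun hc => hno k hc hk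
  have hz'i : z' ∉ B i := hno i hi
  have hzz : z ≠ z' := by
    rintro rfl
    exact hno i hi hi
  have hRc : R.card = 4 := by
    rw [hR, card_erase_of_mem (mem_erase.2 ⟨hzz.symm, hz'⟩), card_erase_of_mem hz, h.card]
  have hiR : (B i ∩ R).card = 2 := by
    have h1 := h.trace hr (i := i) ⟨z, mem_inter.2 ⟨hi, hz⟩⟩
    have h2 : B i ∩ R = (B i ∩ X).erase z := by
      ext v
      rw [hR, mem_inter, mem_erase, mem_erase, mem_erase, mem_inter]
      constructor
      · rintro ⟨a, _, b, c⟩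
        exact ⟨b, a, c⟩
      · rintro ⟨b, a, c⟩
        exact ⟨a, fun e => hz'i (e ▸ a), b, c⟩
    rw [h2, card_erase_of_mem (mem_inter.2 ⟨hi, hz⟩), h1]
  have hkR : (B k ∩ R).card = 2 := by
    have h1 := h.trace hr (i := k) ⟨z', mem_inter.2 ⟨hk, hz'⟩⟩
    have h2 : B k ∩ R = (B k ∩ X).erase z' := by
      ext v
      rw [hR, mem_inter, mem_erase, mem_erase, mem_erase, mem_inter]
      constructor
      · rintro ⟨a, b, _, c⟩
        exact ⟨b, a, c⟩
      · rintro ⟨b, a, c⟩
        exact ⟨a, b, fun e => hzk (e ▸ a), c⟩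
    rw [h2, card_erase_of_mem (mem_inter.2 ⟨hk, hz'⟩), h1]
  have hcross : ∀ j, z ∈ B j → ¬ R ⊆ B j ∪ B k := by
    intro j hj hsub
    refine h.not_cover j k fun v hv => ?_
    by_cases h1 : v = z
    · rw [h1]
      exact mem_union_left _ hj
    by_cases h2 : v = z'
    · rw [h2]
      exact mem_union_right _ hk
    · exact hsub (by rw [hR, mem_erase, mem_erase]; exact ⟨h2, h1, hv⟩)
  have hle : (B k ∩ (B i ∩ R)).card ≤ 2 := by
    rw [← hkR]
    exact card_le_card (inter_subset_inter_left inter_subset_right)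
  have h0 : (B k ∩ (B i ∩ R)).card ≠ 0 := by
    intro h0
    rw [card_eq_zero] at h0
    refine hcross i hi fun v hv => ?_
    have h1 : B k ∩ R ⊆ R \ B i := by
      intro w hw
      rw [mem_inter] at hw
      refine mem_sdiff.2 ⟨hw.2, fun hwi => ?_⟩
      have : w ∈ B k ∩ (B i ∩ R) := mem_inter.2 ⟨hw.1, mem_inter.2 ⟨hwi, hw.2⟩⟩
      rw [h0] at this
      exact absurd this (notMem_empty _)
    have h2 : (R \ B i).card = 2 := by
      have h3 := card_sdiff_add_card_inter R (B i)
      rw [inter_comm, hiR, hRc] at h3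
      omega
    have h3 : B k ∩ R = R \ B i := eq_of_subset_of_card_le h1 (by omega)
    by_cases hvi : v ∈ B i
    · exact mem_union_left _ hvi
    · have : v ∈ B k ∩ R := by
        rw [h3]
        exact mem_sdiff.2 ⟨hv, hvi⟩
      exact mem_union_right _ (mem_inter.1 this).1
  have h2 : (B k ∩ (B i ∩ R)).card ≠ 2 := by
    intro h2
    obtain ⟨j, hj, hjR⟩ := h.compl_block hr hz hz' hno hi
    rw [← hR] at hjR
    refine hcross j hj fun v hv => ?_
    have h3 : B k ∩ (B i ∩ R) = B i ∩ R := eq_of_subset_of_card_le inter_subset_right (by omega)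
    by_cases hvi : v ∈ B i
    · have : v ∈ B k ∩ (B i ∩ R) := by
        rw [h3]
        exact mem_inter.2 ⟨hvi, hv⟩
      exact mem_union_right _ (mem_inter.1 this).1
    · have : v ∈ B j ∩ R := by
        rw [hjR]
        exact mem_sdiff.2 ⟨hv, hvi⟩
      exact mem_union_left _ (mem_inter.1 this).1
  omega

/-- a second block of the same side meeting the first one in one further point. -/
theorem KP.side_one (hr : Reg B X) (h : KP B X) {z z' : V} (hz : z ∈ X) (hz' : z' ∈ X)
    (hno : ∀ i, z ∈ B i → z' ∉ B i) {i : ι} (hi : z ∈ B i) :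
    ∃ j, z ∈ B j ∧ (B j ∩ (B i ∩ ((X.erase z).erase z'))).card = 1 := by
  classical
  set R := (X.erase z).erase z' with hR
  have hzz : z ≠ z' := by
    rintro rfl
    exact hno i hi hi
  have hz'i : z' ∉ B i := hno i hi
  set S := B i ∩ R with hS
  have hSX : S ⊆ X := by
    intro v hv
    rw [hS, hR, mem_inter, mem_erase, mem_erase] at hv
    exact hv.2.2.2
  have hSc : S.card = 2 := by
    have h1 := h.trace hr (i := i) ⟨z, mem_inter.2 ⟨hi, hz⟩⟩
    have h2 : S = (B i ∩ X).erase z := by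
      ext v
      rw [hS, hR, mem_inter, mem_erase, mem_erase, mem_erase, mem_inter]
      constructor
      · rintro ⟨a, _, b, c⟩
        exact ⟨b, a, c⟩
      · rintro ⟨b, a, c⟩
        exact ⟨a, fun e => hz'i (e ▸ a), b, c⟩
    rw [h2, card_erase_of_mem (mem_inter.2 ⟨hi, hz⟩), h1]
  have hsum := sum_inc (hr.mono hSX)
  rw [hSc] at hsum
  have hdis : Disjoint (univ.filter (fun j => z ∈ B j)) (univ.filter (fun j => z' ∈ B j)) := by
    rw [disjoint_left]
    intro j hj hj'
    exact hno j (mem_filter.1 hj).2 (mem_filter.1 hj').2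
  have h1 : ∑ j, (B j ∩ S).card = ∑ j ∈ univ.filter (fun j => z ∈ B j), (B j ∩ S).card +
      ∑ j ∈ univ.filter (fun j => z' ∈ B j), (B j ∩ S).card := by
    rw [← sum_union hdis]
    symm
    refine sum_subset (subset_univ _) fun j _ hj => ?_
    rw [mem_union, mem_filter, mem_filter] at hj
    rw [card_eq_zero, ← not_nonempty_iff_eq_empty]
    intro hne
    have := h.one_of hr hz hz' hno (hne.mono (inter_subset_inter_left hSX))
    exact hj (by rcases this with h5 | h5 <;> simp [h5])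
  have h2 : ∑ j ∈ univ.filter (fun j => z' ∈ B j), (B j ∩ S).card = 5 := by
    rw [sum_congr rfl (fun j hj => h.cross_one hr hz hz' hno hi (mem_filter.1 hj).2), sum_const,
      hr z' hz']
    rfl
  by_contra hcon
  push Not at hcon
  have h3 : ∀ j ∈ univ.filter (fun j => z ∈ B j), Even (B j ∩ S).card := by
    intro j hj
    have h4 := hcon j (mem_filter.1 hj).2
    have h5 : (B j ∩ S).card ≤ 2 := by
      rw [← hSc]
      exact card_le_card inter_subset_right
    rcases (by omega : (B j ∩ S).card = 0 ∨ (B j ∩ S).card = 2) with h6 | h6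
    · rw [h6]
      exact Even.zero
    · rw [h6]
      exact even_two
  have h4 := even_sum _ h3
  rw [even_iff_two_dvd] at h4
  omega

/-- any two points of a K-piece lie in a common block. -/
theorem KP.common (hr : Reg B X) (h : KP B X) {z z' : V} (hz : z ∈ X) (hz' : z' ∈ X)
    (hne : z ≠ z') : ∃ i, z ∈ B i ∧ z' ∈ B i := by
  classical
  by_contra hcon
  push Not at hcon
  have hno : ∀ i, z ∈ B i → z' ∉ B i := hcon
  have hno' : ∀ i, z' ∈ B i → z ∉ B i := fun i h1 h2 => hno i h2 h1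
  obtain ⟨i, hi⟩ := cov_of_reg hr z hz
  obtain ⟨k, hk⟩ := cov_of_reg hr z' hz'
  obtain ⟨j, hj, hij⟩ := h.side_one hr hz hz' hno hi
  obtain ⟨l, hl, hkl⟩ := h.side_one hr hz' hz hno' hk
  have c1 := h.cross_one hr hz hz' hno hi hk
  have c2 := h.cross_one hr hz hz' hno hi hl
  have c3 := h.cross_one hr hz hz' hno hj hk
  have c4 := h.cross_one hr hz hz' hno hj hl
  have hRR : (X.erase z').erase z = (X.erase z).erase z' := erase_right_comm
  rw [hRR] at hkl
  set R := (X.erase z).erase z' with hR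
  have hRc : R.card = 4 := by
    rw [hR, card_erase_of_mem (mem_erase.2 ⟨hne.symm, hz'⟩), card_erase_of_mem hz, h.card]
  have hside : ∀ {p q : V}, p ∈ X → q ∈ X → (∀ i, p ∈ B i → q ∉ B i) → ∀ {m : ι}, p ∈ B m →
      (B m ∩ ((X.erase p).erase q)).card = 2 := by
    intro p q hp _ hpq m hm
    have h1 := h.trace hr (i := m) ⟨p, mem_inter.2 ⟨hm, hp⟩⟩
    have h2 : B m ∩ ((X.erase p).erase q) = (B m ∩ X).erase p := by
      ext v
      rw [mem_inter, mem_erase, mem_erase, mem_erase, mem_inter]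
      constructor
      · rintro ⟨a, _, b, c⟩
        exact ⟨b, a, c⟩
      · rintro ⟨b, a, c⟩
        exact ⟨a, fun e => hpq m hm (e ▸ a), b, c⟩
    rw [h2, card_erase_of_mem (mem_inter.2 ⟨hm, hp⟩), h1]
  have d1 := hside hz hz' hno hi
  have d2 := hside hz hz' hno hj
  have d3 := hside hz' hz hno' hk
  have d4 := hside hz' hz hno' hl
  rw [hRR] at d3 d4
  rw [← hR] at d1 d2
  -- the four points
  obtain ⟨a, ha⟩ := card_eq_one.1 hij
  have ha' : a ∈ B j ∩ (B i ∩ R) := by rw [ha]; exact mem_singleton_self _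
  rw [mem_inter, mem_inter] at ha'
  have hb1 : ((B i ∩ R) \ B j).card = 1 := by
    have := card_sdiff_add_card_inter (B i ∩ R) (B j)
    rw [inter_comm (B i ∩ R) (B j), hij, d1] at this
    omega
  obtain ⟨b, hb⟩ := card_eq_one.1 hb1
  have hb' : b ∈ (B i ∩ R) \ B j := by rw [hb]; exact mem_singleton_self _
  rw [mem_sdiff, mem_inter] at hb'
  have hc1 : ((B j ∩ R) \ B i).card = 1 := by
    have h1 := card_sdiff_add_card_inter (B j ∩ R) (B i)
    have h2 : (B j ∩ R) ∩ B i = B j ∩ (B i ∩ R) := by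
      ext v
      simp only [mem_inter]
      tauto
    rw [h2, hij, d2] at h1
    omega
  obtain ⟨c, hc⟩ := card_eq_one.1 hc1
  have hc' : c ∈ (B j ∩ R) \ B i := by rw [hc]; exact mem_singleton_self _
  rw [mem_sdiff, mem_inter] at hc'
  have hab : a ≠ b := by
    rintro rfl
    exact hb'.2 ha'.1
  have hac : a ≠ c := by
    rintro rfl
    exact hc'.2 ha'.2.1
  have hbc : b ≠ c := by
    rintro rfl
    exact hc'.2 hb'.1.1
  have h3c : ({a, b, c} : Finset V).card = 3 := card_eq_three.2 ⟨a, b, c, hab, hac, hbc, rfl⟩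
  have h3s : ({a, b, c} : Finset V) ⊆ R := by
    intro v hv
    simp only [mem_insert, mem_singleton] at hv
    rcases hv with rfl | rfl | rfl
    · exact ha'.2.2
    · exact hb'.1.2
    · exact hc'.1.2
  have hd1 : (R \ {a, b, c}).card = 1 := by
    have := card_sdiff_add_card_eq_card h3s
    omega
  obtain ⟨d, hd⟩ := card_eq_one.1 hd1
  have hd' : d ∈ R \ {a, b, c} := by rw [hd]; exact mem_singleton_self _
  rw [mem_sdiff] at hd'
  simp only [mem_insert, mem_singleton, not_or] at hd'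
  have hI : B i ∩ R = {a, b} := by
    symm
    refine eq_of_subset_of_card_le (fun v hv => ?_) (by rw [d1, card_pair hab])
    rw [mem_insert, mem_singleton] at hv
    rcases hv with rfl | rfl
    · exact mem_inter.2 ha'.2
    · exact mem_inter.2 hb'.1
  have hJ : B j ∩ R = {a, c} := by
    symm
    refine eq_of_subset_of_card_le (fun v hv => ?_) (by rw [d2, card_pair hac])
    rw [mem_insert, mem_singleton] at hv
    rcases hv with rfl | rfl
    · exact mem_inter.2 ⟨ha'.1, ha'.2.2⟩
    · exact mem_inter.2 hc'.1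
  have hRe : R = {a, b, c, d} := by
    symm
    refine eq_of_subset_of_card_le (fun v hv => ?_) ?_
    · simp only [mem_insert, mem_singleton] at hv
      rcases hv with rfl | rfl | rfl | rfl
      · exact ha'.2.2
      · exact hb'.1.2
      · exact hc'.1.2
      · exact hd'.1
    · rw [hRc]
      have : ({a, b, c, d} : Finset V).card = 4 := by
        rw [card_insert_of_notMem, card_insert_of_notMem, card_pair]
        · exact fun e => hd'.2.2.2 e.symm
        · simp only [mem_insert, mem_singleton, not_or]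
          exact ⟨hbc, fun e => hd'.2.2.1 e.symm⟩
        · simp only [mem_insert, mem_singleton, not_or]
          exact ⟨hab, hac, fun e => hd'.2.1 e.symm⟩
      omega
  have k2 : ∀ (S : Finset V) (x y : V), x ≠ y → (S ∩ {x, y}).card =
      (if x ∈ S then 1 else 0) + (if y ∈ S then 1 else 0) := by
    intro S x y hxy
    rw [inter_comm, ← filter_mem_eq_inter, card_filter, sum_pair hxy]
  have k4 : ∀ (S : Finset V), (S ∩ R).card = (if a ∈ S then 1 else 0) +
      (if b ∈ S then 1 else 0) + (if c ∈ S then 1 else 0) + (if d ∈ S then 1 else 0) := by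
    intro S
    rw [hRe, inter_comm, ← filter_mem_eq_inter, card_filter, sum_insert, sum_insert,
      sum_pair (fun e => hd'.2.2.2 e.symm)]
    · ring
    · simp only [mem_insert, mem_singleton, not_or]
      exact ⟨hbc, fun e => hd'.2.2.1 e.symm⟩
    · simp only [mem_insert, mem_singleton, not_or]
      exact ⟨hab, hac, fun e => hd'.2.1 e.symm⟩
  rw [hI, k2 _ _ _ hab] at c1 c2
  rw [hJ, k2 _ _ _ hac] at c3 c4
  have hkl2 : B l ∩ (B k ∩ R) = (B l ∩ B k) ∩ R := by rw [inter_assoc]
  rw [hkl2, k4] at hkl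
  rw [k4] at d3 d4
  simp only [mem_inter] at hkl
  by_cases e1 : a ∈ B k <;> by_cases e2 : b ∈ B k <;> by_cases e3 : c ∈ B k <;>
    by_cases e4 : d ∈ B k <;> by_cases f1 : a ∈ B l <;> by_cases f2 : b ∈ B l <;>
    by_cases f3 : c ∈ B l <;> by_cases f4 : d ∈ B l <;>
    simp [e1, e2, e3, e4, f1, f2, f3, f4] at c1 c2 c3 c4 d3 d4 hkl

/-- a trace extends to a cover by three blocks. -/
theorem KP.cover_one (hr : Reg B X) (h : KP B X) {i : ι} (hi : (B i ∩ X).Nonempty) :
    ∃ j k, X ⊆ B i ∪ (B j ∪ B k) := by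
  have hUc : (X \ B i).card = 3 := by
    have h1 := card_sdiff_add_card_inter X (B i)
    rw [inter_comm, h.trace hr hi, h.card] at h1
    omega
  obtain ⟨u, w, z, huw, huz, hwz, hU⟩ := card_eq_three.1 hUc
  have hu : u ∈ X \ B i := by rw [hU]; simp
  have hw : w ∈ X \ B i := by rw [hU]; simp
  have hz : z ∈ X \ B i := by rw [hU]; simp
  obtain ⟨j, hj1, hj2⟩ := h.common hr (mem_sdiff.1 hu).1 (mem_sdiff.1 hw).1 huw
  obtain ⟨k, hk⟩ := cov_of_reg hr z (mem_sdiff.1 hz).1
  refine ⟨j, k, fun v hv => ?_⟩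
  by_cases hvi : v ∈ B i
  · exact mem_union_left _ hvi
  · have h1 : v ∈ X \ B i := mem_sdiff.2 ⟨hv, hvi⟩
    rw [hU] at h1
    simp only [mem_insert, mem_singleton] at h1
    rcases h1 with rfl | rfl | rfl
    · exact mem_union_right _ (mem_union_left _ hj1)
    · exact mem_union_right _ (mem_union_left _ hj2)
    · exact mem_union_right _ (mem_union_right _ hk)

/-- two different traces extend to a cover by three blocks. -/
theorem KP.cover_two (hr : Reg B X) (h : KP B X) {i j : ι} (hi : (B i ∩ X).Nonempty)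
    (hj : (B j ∩ X).Nonempty) (hij : B i ∩ X ≠ B j ∩ X) :
    ∃ k, X ⊆ B i ∪ (B j ∪ B k) := by
  classical
  have h1 := h.trace hr hi
  have h2 := h.trace hr hj
  have h3 : (X \ (B i ∪ B j)).card ≤ 2 := by
    have h4 := card_sdiff_add_card_inter X (B i ∪ B j)
    have h5 : X ∩ (B i ∪ B j) = (B i ∩ X) ∪ (B j ∩ X) := by
      rw [← union_inter_distrib_right, inter_comm]
    have h6 : 3 < ((B i ∩ X) ∪ (B j ∩ X)).card := by
      by_contra hcon
      push Not at hcon
      have h7 : B i ∩ X = (B i ∩ X) ∪ (B j ∩ X) :=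
        eq_of_subset_of_card_le subset_union_left (by omega)
      have h8 : B j ∩ X = (B i ∩ X) ∪ (B j ∩ X) :=
        eq_of_subset_of_card_le subset_union_right (by omega)
      exact hij (h7.trans h8.symm)
    rw [h5, h.card] at h4
    omega
  have h4 : ∃ k, X \ (B i ∪ B j) ⊆ B k := by
    rcases (by omega : (X \ (B i ∪ B j)).card = 0 ∨ (X \ (B i ∪ B j)).card = 1 ∨
      (X \ (B i ∪ B j)).card = 2) with h5 | h5 | h5
    · rw [card_eq_zero] at h5
      exact ⟨i, by rw [h5]; exact empty_subset _⟩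
    · obtain ⟨z, hz⟩ := card_eq_one.1 h5
      have hz' : z ∈ X \ (B i ∪ B j) := by rw [hz]; exact mem_singleton_self _
      obtain ⟨k, hk⟩ := cov_of_reg hr z (mem_sdiff.1 hz').1
      exact ⟨k, by rw [hz]; exact singleton_subset_iff.2 hk⟩
    · obtain ⟨u, w, huw, hz⟩ := card_eq_two.1 h5
      have hu : u ∈ X \ (B i ∪ B j) := by rw [hz]; simp
      have hw : w ∈ X \ (B i ∪ B j) := by rw [hz]; simp
      obtain ⟨k, hk1, hk2⟩ := h.common hr (mem_sdiff.1 hu).1 (mem_sdiff.1 hw).1 huw
      refine ⟨k, ?_⟩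
      rw [hz]
      intro v hv
      rw [mem_insert, mem_singleton] at hv
      rcases hv with rfl | rfl
      · exact hk1
      · exact hk2
  obtain ⟨k, hk⟩ := h4
  refine ⟨k, fun v hv => ?_⟩
  by_cases h5 : v ∈ B i ∪ B j
  · rcases mem_union.1 h5 with h6 | h6
    · exact mem_union_left _ h6
    · exact mem_union_right _ (mem_union_left _ h6)
  · exact mem_union_right _ (mem_union_right _ (hk (mem_sdiff.2 ⟨hv, h5⟩)))

end Pool.Agent.Hyp6
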