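import Pool.Agent.Hyp6.L4V
import Pool.Agent.Hyp6.L4K2

/-!
# HYP6 L4G: gadgets replacing a K-piece by up to three new points
-/

set_option autoImplicit false

namespace Pool.Agent.Hyp6

open Finset Pool.Agent.Hyp5

universe u v

variable {V : Type v} [DecidableEq V] {ι : Type u} [Fintype ι] {B : ι → Finset V}

open Classical in
/-- the data of a gadget: the K-piece `X` of `M` is replaced by the points of `Y`, the blocks joining
`X` to the rest are divided into the groups `E y`, and there are new single blocks. -/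
structure Gd (B : ι → Finset V) (M X Y : Finset V) (E : V → Finset ι) {κ : Type} [Fintype κ]
    (N : κ → Finset V) : Prop where
  reg : Reg B M
  tr : Tr4 B M
  sub : X ⊆ M
  kp : KP B X
  Ysub : Y ⊆ X
  Yne : Y.Nonempty
  hit : ∀ y ∈ Y, E y ⊆ cxs B X (M \ X)
  ne : ∀ y ∈ Y, (E y).Nonempty
  disj : ∀ y ∈ Y, ∀ y' ∈ Y, y ≠ y' → Disjoint (E y) (E y')
  all : ∀ i ∈ cxs B X (M \ X), ∃ y ∈ Y, i ∈ E y
  single : ∀ c, ∃ y ∈ Y, N c = {y}
  deg : ∀ y ∈ Y, (E y).card + (univ.filter (fun c => N c = {y})).card = 5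
  cover : ∀ S ⊆ Y, ∀ f : V → ι, (∀ y ∈ S, f y ∈ E y) →
    ∃ K : Finset ι, S.card + K.card ≤ 3 ∧ X ⊆ (S.image f ∪ K).biUnion B

variable {M X Y : Finset V} {E : V → Finset ι} {κ : Type} [Fintype κ] {N : κ → Finset V}

/-- a block joining a K-piece to the rest has exactly one point in the rest. -/
theorem hit_card {M X : Finset V} (hr : Reg B M) (h4 : Tr4 B M) (hX : X ⊆ M) (hk : KP B X)
    {i : ι} (hi : i ∈ cxs B X (M \ X)) : (B i ∩ (M \ X)).card = 1 ∧ (B i ∩ M).card = 4 := by
  rw [mem_cxs] at hi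
  have h1 := hk.trace (hr.mono hX) hi.1
  have h2 := card_pos.2 hi.2
  have h3 := h4 i
  have h5 : (B i ∩ M).card = (B i ∩ X).card + (B i ∩ (M \ X)).card := by
    rw [← card_union_of_disjoint, ← inter_union_distrib_left, union_sdiff_of_subset hX]
    exact disjoint_of_subset_left inter_subset_right
      (disjoint_of_subset_right inter_subset_right disjoint_sdiff)
  omega

theorem Gd.filter_le (h : Gd B M X Y E N) (i : ι) [∀ y, Decidable (i ∈ E y)] :
    (Y.filter (fun y => i ∈ E y)).card ≤ 1 := by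
  rw [card_le_one]
  intro y hy y' hy'
  rw [mem_filter] at hy hy'
  by_contra hne
  exact disjoint_left.1 (h.disj y hy.1 y' hy'.1 hne) hy.2 hy'.2

theorem Gd.size2 (h : Gd B M X Y E N) {y : V} (hy : y ∈ Y) {i : ι} (hi : i ∈ E y)
    [∀ y, Decidable (i ∈ E y)] :
    (B i ∩ (M \ X)).card + (Y.filter (fun y => i ∈ E y)).card ≤ 2 := by
  have h1 := hit_card h.reg h.tr h.sub h.kp (h.hit y hy hi)
  have h2 := h.filter_le i
  omega

/-- the abstract system of a gadget. -/
theorem Gd.abs (h : Gd B M X Y E N) : AbsD B (M \ X) Y E N := by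
  classical
  refine ⟨?_, ?_, h.ne, ?_, ?_, ?_, ?_, ?_, ?_⟩
  · exact disjoint_of_subset_right h.Ysub sdiff_disjoint
  · intro y hy i hi
    exact (mem_cxs.1 (h.hit y hy hi)).2
  · intro c
    obtain ⟨y, hy, hc⟩ := h.single c
    rw [hc]
    exact singleton_subset_iff.2 hy
  · intro c
    obtain ⟨y, hy, hc⟩ := h.single c
    rw [hc]
    exact singleton_nonempty _
  · intro y hy
    rw [← h.deg y hy]
    congr 2
    ext c
    rw [mem_filter, mem_filter]
    refine and_congr_right fun _ => ?_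
    obtain ⟨y', hy', hc⟩ := h.single c
    rw [hc, mem_singleton]
    constructor
    · rintro rfl
      rfl
    · intro h1
      exact (singleton_injective h1).symm
  · intro i
    by_cases hi : ∃ y ∈ Y, i ∈ E y
    · obtain ⟨y, hy, hiy⟩ := hi
      have := h.size2 hy hiy
      refine le_trans ?_ (this.trans (by norm_num))
      apply le_of_eq
      congr 2
    · have h1 : Y.filter (fun y => i ∈ E y) = ∅ := by
        rw [filter_eq_empty_iff]
        intro y hy hiy
        exact hi ⟨y, hy, hiy⟩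
      have h2 := h.tr.mono (sdiff_subset (s := M) (t := X)) i
      have h3 : (Y.filter (fun y => i ∈ E y)).card = 0 := by rw [h1, card_empty]
      refine le_trans ?_ h2
      apply le_of_eq
      have h4 : (B i ∩ (M \ X)).card + (Y.filter (fun y => i ∈ E y)).card =
          (B i ∩ (M \ X)).card := by omega
      refine Eq.trans ?_ h4
      congr 2
  · intro c
    obtain ⟨y, hy, hc⟩ := h.single c
    rw [hc, card_singleton]
    norm_num
  · intro S hS hne
    obtain ⟨y, hy⟩ := hne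
    obtain ⟨i, hi⟩ := h.ne y (hS hy)
    refine Or.inr ⟨y, hy, i, hi, ?_⟩
    have := h.size2 (hS hy) hi
    refine le_trans ?_ this
    apply le_of_eq
    congr 2

/-- the number of new single blocks. -/
theorem Gd.card_single (h : Gd B M X Y E N) :
    Fintype.card κ + (cxs B X (M \ X)).card = 5 * Y.card := by
  classical
  have h1 : (cxs B X (M \ X)).card = ∑ y ∈ Y, (E y).card := by
    rw [← card_biUnion (fun y hy y' hy' hne => h.disj y hy y' hy' hne)]
    congr 1
    ext i
    rw [mem_biUnion]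
    constructor
    · intro hi
      exact h.all i hi
    · rintro ⟨y, hy, hi⟩
      exact h.hit y hy hi
  have h2 : Fintype.card κ = ∑ y ∈ Y, (univ.filter (fun c => N c = {y})).card := by
    rw [← card_univ, ← card_biUnion]
    · congr 1
      ext c
      rw [mem_biUnion]
      simp only [mem_univ, true_iff]
      obtain ⟨y, hy, hc⟩ := h.single c
      exact ⟨y, hy, mem_filter.2 ⟨mem_univ _, hc⟩⟩
    · intro y _ y' _ hne
      rw [Function.onFun, disjoint_left]
      intro c hc hc'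
      rw [mem_filter] at hc hc'
      exact hne (singleton_injective (hc.2.symm.trans hc'.2))
  rw [h1, h2, ← sum_add_distrib]
  have h3 : ∀ y ∈ Y, (univ.filter (fun c => N c = {y})).card + (E y).card = 5 := by
    intro y hy
    rw [add_comm, ← h.deg y hy]
  rw [sum_congr rfl h3, sum_const, smul_eq_mul, mul_comm]

/-- the cover number. -/
theorem Gd.rho_le (h : Gd B M X Y E N) :
    rho B M + Y.card ≤ rho (absG B (M \ X) Y E N) ((M \ X) ∪ Y) + 3 := by
  classical
  have hreg := h.abs.reg (h.reg.mono (sdiff_subset (s := M) (t := X)))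
  have key : rho B M + Y.card - 3 ≤ rho (absG B (M \ X) Y E N) ((M \ X) ∪ Y) := by
    refine h.abs.rho_ge (cov_of_reg hreg) fun T K hT hK => ?_
    set S := Y.filter (fun y => ∃ i ∈ T, i ∈ E y) with hS
    have hSY : S ⊆ Y := filter_subset _ _
    obtain ⟨y0, hy0⟩ := h.Yne
    obtain ⟨i00, _⟩ := h.ne y0 hy0
    have hSf : ∀ y ∈ S, ∃ i, i ∈ T ∧ i ∈ E y := fun y hy => (mem_filter.1 hy).2
    haveI : Nonempty ι := ⟨i00⟩
    choose! f hf1 hf2 using hSf
    obtain ⟨K', hK1, hK2⟩ := h.cover S hSY f hf2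
    have hYS : (Y \ S).card ≤ K.card := by
      have h1 : ∀ y ∈ Y \ S, ∃ c, c ∈ K ∧ N c = {y} := by
        intro y hy
        rw [mem_sdiff] at hy
        rcases hK y hy.1 with h2 | ⟨c, hc, hyc⟩
        · exact absurd (mem_filter.2 ⟨hy.1, h2⟩) hy.2
        · refine ⟨c, hc, ?_⟩
          obtain ⟨y', _, hc'⟩ := h.single c
          rw [hc', mem_singleton] at hyc
          rw [hc', hyc]
      rcases (Y \ S).eq_empty_or_nonempty with h2 | ⟨y1, hy1⟩
      · rw [h2, card_empty]
        exact Nat.zero_le _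
      · obtain ⟨c0, _⟩ := h1 y1 hy1
        haveI : Nonempty κ := ⟨c0⟩
        choose! g hg1 hg2 using h1
        refine card_le_card_of_injOn g hg1 fun a ha b hb hab => ?_
        have h3 := hg2 a ha
        have h4 := hg2 b hb
        rw [hab, h4] at h3
        exact (singleton_injective h3).symm
    have h1 : M ⊆ (T ∪ K').biUnion B := by
      intro v hv
      by_cases hvX : v ∈ X
      · obtain ⟨i, hi, hvi⟩ := mem_biUnion.1 (hK2 hvX)
        rcases mem_union.1 hi with hi | hi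
        · obtain ⟨y, hy, rfl⟩ := mem_image.1 hi
          exact mem_biUnion.2 ⟨_, mem_union_left _ (hf1 y hy), hvi⟩
        · exact mem_biUnion.2 ⟨i, mem_union_right _ hi, hvi⟩
      · obtain ⟨i, hi, hvi⟩ := mem_biUnion.1 (hT (mem_sdiff.2 ⟨hv, hvX⟩))
        exact mem_biUnion.2 ⟨i, mem_union_left _ hi, hvi⟩
    have h2 := (Hyp6.rho_le h1).trans (card_union_le _ _)
    have h3 := card_sdiff_add_card_eq_card hSY
    omega
  omega

/-- the value. -/
theorem Gd.Pv_le (h : Gd B M X Y E N) :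
    Pv (absG B (M \ X) Y E N) ((M \ X) ∪ Y) - 2 - (Y.card : ℤ) ≤ Pv B M := by
  classical
  have h1 := h.abs.Pv_eq
  have h2 := Pv_sdiff (B := B) h.sub
  have h3 := h.card_single
  have h4 := h.rho_le
  have h5 : (ins B M X).card + (cxs B X (M \ X)).card = 10 := by
    rw [← h.kp.cmX]
    unfold cm
    rw [← card_union_of_disjoint]
    · congr 1
      ext i
      rw [mem_union, mem_ins, mem_cxs, cost_mem_tch]
      constructor
      · rintro (⟨h6, h7⟩ | ⟨h6, _⟩)
        · obtain ⟨v, hv⟩ := h6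
          exact ⟨v, mem_inter.2 ⟨(mem_inter.1 hv).1, h7 hv⟩⟩
        · exact h6
      · intro h6
        by_cases h7 : (B i ∩ (M \ X)).Nonempty
        · exact Or.inr ⟨h6, h7⟩
        · refine Or.inl ⟨h6.mono (inter_subset_inter_left h.sub), fun v hv => ?_⟩
          by_contra hvX
          rw [mem_inter] at hv
          exact h7 ⟨v, mem_inter.2 ⟨hv.1, mem_sdiff.2 ⟨hv.2, hvX⟩⟩⟩
    · rw [disjoint_left]
      intro i hi hi2
      rw [mem_ins] at hi
      rw [mem_cxs] at hi2
      obtain ⟨v, hv⟩ := hi2.2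
      rw [mem_inter, mem_sdiff] at hv
      exact hv.2.2 (hi.2 (mem_inter.2 ⟨hv.1, hv.2.1⟩))
  rw [h.kp.card] at h2
  have c1 : (Fintype.card κ : ℤ) + (cxs B X (M \ X)).card = 5 * Y.card := by exact_mod_cast h3
  have c2 : (rho B M : ℤ) + Y.card ≤ rho (absG B (M \ X) Y E N) ((M \ X) ∪ Y) + 3 := by
    exact_mod_cast h4
  have c3 : ((ins B M X).card : ℤ) + (cxs B X (M \ X)).card = 10 := by exact_mod_cast h5
  push_cast at h2
  linarith

/-- the single traces. -/
theorem Gd.ee_ge (h : Gd B M X Y E N) {Y2 : Finset V} (hY2 : Y2 ⊆ Y)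
    (h3 : ∀ y ∈ Y2, (E y).card ≤ 3) : ee B M (M \ X) + Y2.card ≤
      ee (absG B (M \ X) Y E N) ((M \ X) ∪ Y) ((M \ X) ∪ Y) := by
  classical
  refine h.abs.ee_ge sdiff_subset ?_ hY2 ?_
  · intro y hy i hi
    have := (hit_card h.reg h.tr h.sub h.kp (h.hit y hy hi)).2
    omega
  · intro y hy
    have h1 := h.deg y (hY2 hy)
    have h2 := h3 y hy
    have h4 : 2 ≤ (univ.filter (fun c => N c = {y})).card := by omega
    refine h4.trans (le_of_eq ?_)
    congr 1

/-- connectedness. -/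
theorem Gd.conn (h : Gd B M X Y E N) (hM : Conn (gr B) M)
    (hlink : ∀ S, Closed (gr (absG B (M \ X) Y E N)) ((M \ X) ∪ Y) S → (S ∩ Y).Nonempty →
      Y ⊆ S) : Conn (gr (absG B (M \ X) Y E N)) ((M \ X) ∪ Y) := by
  classical
  have key : ∀ S, Closed (gr (absG B (M \ X) Y E N)) ((M \ X) ∪ Y) S → S.Nonempty →
      (S ∩ Y).Nonempty := by
    intro S hS hne
    by_contra hcon
    have hSC : S ⊆ M \ X := by
      intro v hv
      rcases mem_union.1 (hS.1 hv) with h1 | h1
      · exact h1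
      · exact absurd ⟨v, mem_inter.2 ⟨hv, h1⟩⟩ hcon
    have h1 : Closed (gr B) M S := by
      refine ⟨hSC.trans sdiff_subset, fun x hx y hy hxy => ?_⟩
      by_cases hyX : y ∈ X
      · exfalso
        obtain ⟨_, i, hi1, hi2⟩ := hxy
        have h2 : i ∈ cxs B X (M \ X) :=
          mem_cxs.2 ⟨⟨y, mem_inter.2 ⟨hi2, hyX⟩⟩, ⟨x, mem_inter.2 ⟨hi1, hSC hx⟩⟩⟩
        obtain ⟨w, hw, hiw⟩ := h.all i h2
        have h3 := hS.2 x hx w (mem_union_right _ hw)
          (h.abs.adj_Y hw (hSC hx) hiw hi1).symm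
        exact hcon ⟨w, mem_inter.2 ⟨h3, hw⟩⟩
      · have hyC : y ∈ M \ X := mem_sdiff.2 ⟨hy, hyX⟩
        exact hS.2 x hx y (mem_union_left _ hyC) ((h.abs.adj_C (hSC hx) hyC).2 hxy)
    have h2 := hM.2 S h1 hne
    obtain ⟨v, hv⟩ := h.kp.nonempty
    have h3 : v ∈ S := by
      rw [h2]
      exact h.sub hv
    exact (mem_sdiff.1 (hSC h3)).2 hv
  refine ⟨h.Yne.mono subset_union_right, fun S hS hne => ?_⟩
  have h1 := hlink S hS (key S hS hne)
  by_contra hne2
  have h2 : (((M \ X) ∪ Y) \ S).Nonempty := by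
    rw [sdiff_nonempty]
    intro hcon
    exact hne2 (Subset.antisymm hS.1 hcon)
  obtain ⟨w, hw⟩ := key _ (closed_sdiff (G := gr (absG B (M \ X) Y E N))
    ⟨Subset.refl _, fun _ _ y hy _ => hy⟩ hS) h2
  rw [mem_inter, mem_sdiff] at hw
  exact hw.1.2 (h1 hw.2)

/-- two groups hitting a common connected part are linked. -/
theorem Gd.link (h : Gd B M X Y E N) {S : Finset V}
    (hS : Closed (gr (absG B (M \ X) Y E N)) ((M \ X) ∪ Y) S) {D : Finset V} (hD : D ⊆ M \ X)
    (hDc : Conn (gr B) D) {y y' : V} (hy : y ∈ Y) (hy' : y' ∈ Y) {i j : ι} (hi : i ∈ E y)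
    (hj : j ∈ E y') (hiD : (B i ∩ D).Nonempty) (hjD : (B j ∩ D).Nonempty) (hyS : y ∈ S) :
    y' ∈ S := by
  obtain ⟨a, ha⟩ := hiD
  obtain ⟨b, hb⟩ := hjD
  rw [mem_inter] at ha hb
  have haS : a ∈ S := hS.2 y hyS a (mem_union_left _ (hD ha.2)) (h.abs.adj_Y hy (hD ha.2) hi ha.1)
  have h1 : Closed (gr B) D (S ∩ D) := by
    refine ⟨inter_subset_right, fun p hp q hq hpq => ?_⟩
    rw [mem_inter] at hp ⊢
    exact ⟨hS.2 p hp.1 q (mem_union_left _ (hD hq)) ((h.abs.adj_C (hD hp.2) (hD hq)).2 hpq), hq⟩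
  have h2 := hDc.2 _ h1 ⟨a, mem_inter.2 ⟨haS, ha.2⟩⟩
  have hbS : b ∈ S := by
    have : b ∈ S ∩ D := by
      rw [h2]
      exact hb.2
    exact (mem_inter.1 this).1
  exact hS.2 b hbS y' (mem_union_right _ hy') (h.abs.adj_Y hy' (hD hb.2) hj hb.1).symm

/-- the gadget inequality, K-free rest. -/
theorem Gd.ge (hL3 : L3e.{u} V) (h : Gd B M X Y E N) (hk : KFree B (M \ X))
    (hc : Conn (gr (absG B (M \ X) Y E N)) ((M \ X) ∪ Y)) {Y2 : Finset V} (hY2 : Y2 ⊆ Y)
    (h3 : ∀ y ∈ Y2, (E y).card ≤ 3) :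
    -3 - (Y.card : ℤ) + 2 * ((ee B M (M \ X) : ℤ) + Y2.card) ≤ Pv B M := by
  have hrC := h.reg.mono (sdiff_subset (s := M) (t := X))
  have h1 := T0e hL3 (h.abs.reg hrC) h.abs.tr4 hc (h.abs.kfree hrC hk)
  have h2 := h.Pv_le
  have h4 := h.ee_ge hY2 h3
  have c1 : (ee B M (M \ X) : ℤ) + Y2.card ≤
      ee (absG B (M \ X) Y E N) ((M \ X) ∪ Y) ((M \ X) ∪ Y) := by exact_mod_cast h4
  linarith

open Classical in
/-- new single blocks with given multiplicities. -/
theorem exists_singles (Y : Finset V) (g : V → ℕ) : ∃ (κ : Type) (_ : Fintype κ)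
    (N : κ → Finset V), (∀ c, ∃ y ∈ Y, N c = {y}) ∧
      ∀ y ∈ Y, (univ.filter (fun c => N c = {y})).card = g y := by
  refine ⟨Σ m : Fin Y.card, Fin (g (Y.equivFin.symm m).1), inferInstance,
    fun c => {(Y.equivFin.symm c.1).1}, ?_, ?_⟩
  · intro c
    exact ⟨_, (Y.equivFin.symm c.1).2, rfl⟩
  · intro y hy
    rw [card_filter, Fintype.sum_sigma, sum_eq_single (Y.equivFin ⟨y, hy⟩)]
    · simp
    · intro m _ hm
      rw [sum_eq_zero]
      intro r _
      rw [if_neg]
      intro h1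
      have h2 := singleton_injective h1
      apply hm
      rw [← (Y.equivFin).apply_symm_apply m]
      congr 1
      exact Subtype.ext h2
    · intro h1
      exact absurd (mem_univ _) h1

/-- a constructor: groups with different traces, at most two of them, or three of them whose
transversals cover `X`. -/
theorem Gd.of (hr : Reg B M) (h4 : Tr4 B M) (hX : X ⊆ M) (hK : KP B X) (hY : Y ⊆ X)
    (hYne : Y.Nonempty) (hit : ∀ y ∈ Y, E y ⊆ cxs B X (M \ X)) (hne : ∀ y ∈ Y, (E y).Nonempty)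
    (hfive : ∀ y ∈ Y, (E y).card ≤ 5) (hall : ∀ i ∈ cxs B X (M \ X), ∃ y ∈ Y, i ∈ E y)
    (hdiff : ∀ y ∈ Y, ∀ y' ∈ Y, y ≠ y' → ∀ i ∈ E y, ∀ j ∈ E y', B i ∩ X ≠ B j ∩ X)
    (hY3 : Y.card ≤ 2 ∨ (Y.card = 3 ∧ ∀ f : V → ι, (∀ y ∈ Y, f y ∈ E y) →
      ∀ v ∈ X, ∃ y ∈ Y, v ∈ B (f y))) :
    ∃ (κ : Type) (_ : Fintype κ) (N : κ → Finset V), Gd B M X Y E N := by
  classical
  obtain ⟨κ, hκ, N, hN1, hN2⟩ := exists_singles Y (fun y => 5 - (E y).card)
  refine ⟨κ, hκ, N, hr, h4, hX, hK, hY, hYne, hit, hne, ?_, hall, hN1, ?_, ?_⟩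
  · intro y hy y' hy' hyy
    rw [disjoint_left]
    intro i hi hi'
    exact hdiff y hy y' hy' hyy i hi i hi' rfl
  · intro y hy
    have h1 := hN2 y hy
    have h2 := hfive y hy
    omega
  · intro S hS f hf
    have hrX := hr.mono hX
    have hne' : ∀ y ∈ S, (B (f y) ∩ X).Nonempty := fun y hy =>
      (mem_cxs.1 (hit y (hS hy) (hf y hy))).1
    have hSc : S.card ≤ 3 := by
      have := card_le_card hS
      rcases hY3 with h5 | h5
      · omega
      · omega
    rcases (by omega : S.card = 0 ∨ S.card = 1 ∨ S.card = 2 ∨ S.card = 3) with h5 | h5 | h5 | h5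
    · obtain ⟨T, hT, hTc⟩ := exists_cover (cov_of_reg hrX)
      rw [hK.rhoX] at hTc
      refine ⟨T, by omega, ?_⟩
      rw [union_biUnion]
      exact hT.trans subset_union_right
    · obtain ⟨y, hy⟩ := card_eq_one.1 h5
      have hyS : y ∈ S := by rw [hy]; exact mem_singleton_self _
      obtain ⟨j, k, hjk⟩ := hK.cover_one hrX (hne' y hyS)
      refine ⟨{j, k}, ?_, ?_⟩
      · have := card_le_two (a := j) (b := k)
        omega
      · rw [hy, image_singleton]
        intro v hv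
        rw [mem_biUnion]
        rcases mem_union.1 (hjk hv) with h6 | h6
        · exact ⟨f y, by simp, h6⟩
        · rcases mem_union.1 h6 with h7 | h7
          · exact ⟨j, by simp, h7⟩
          · exact ⟨k, by simp, h7⟩
    · obtain ⟨y, y', hyy, hy⟩ := card_eq_two.1 h5
      have hyS : y ∈ S := by rw [hy]; simp
      have hyS' : y' ∈ S := by rw [hy]; simp
      obtain ⟨k, hk⟩ := hK.cover_two hrX (hne' y hyS) (hne' y' hyS')
        (hdiff y (hS hyS) y' (hS hyS') hyy _ (hf y hyS) _ (hf y' hyS'))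
      refine ⟨{k}, ?_, ?_⟩
      · rw [card_singleton]
        omega
      · rw [hy]
        intro v hv
        rw [mem_biUnion]
        rcases mem_union.1 (hk hv) with h6 | h6
        · exact ⟨f y, by simp, h6⟩
        · rcases mem_union.1 h6 with h7 | h7
          · exact ⟨f y', by simp, h7⟩
          · exact ⟨k, by simp, h7⟩
    · rcases hY3 with h6 | h6
      · have := card_le_card hS
        omega
      · have h7 : S = Y := eq_of_subset_of_card_le hS (by omega)
        refine ⟨∅, by rw [card_empty]; omega, ?_⟩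
        intro v hv
        obtain ⟨y, hy, hvy⟩ := h6.2 f (fun y hy => hf y (h7 ▸ hy)) v hv
        rw [mem_biUnion]
        exact ⟨f y, mem_union_left _ (mem_image_of_mem _ (h7 ▸ hy)), hvy⟩

end Pool.Agent.Hyp6
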