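import Pool.Agent.Hyp6.L4Q
import Pool.Agent.Hyp6.Disch

/-!
# HYP6 L4H: the inequality (H) for the components at level 5

`110 Pv + 220 kap - 11 J + 15 N ≥ 0`, where `J` is the number of blocks with four points meeting a
K-piece and `N = n2 + 2 n1`.
-/

set_option autoImplicit false

namespace Pool.Agent.Hyp6

open Finset Pool.Agent.Hyp5

universe u v

variable {V : Type v} [DecidableEq V] {ι : Type u} [Fintype ι] {B : ι → Finset V}

open Classical in
/-- the K-pieces inside `M`. -/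
noncomputable def KS (B : ι → Finset V) (M : Finset V) : Finset (Finset V) :=
  M.powerset.filter (fun X => KP B X)

open Classical in
/-- the blocks with four points in `M` meeting a K-piece of `M`. -/
noncomputable def JS (B : ι → Finset V) (M : Finset V) : Finset ι :=
  univ.filter (fun i => (B i ∩ M).card = 4 ∧ ∃ X ∈ KS B M, (B i ∩ X).Nonempty)

open Classical in
/-- the outer points of the K-piece `X` of `M`. -/
noncomputable def OP (B : ι → Finset V) (M X : Finset V) : Finset V :=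
  (M \ X).filter (fun v => ∃ i, (B i ∩ X).Nonempty ∧ v ∈ B i)

variable {M : Finset V}

theorem mem_KS {X : Finset V} : X ∈ KS B M ↔ X ⊆ M ∧ KP B X := by
  classical
  unfold KS
  rw [mem_filter, mem_powerset]

theorem mem_JS {i : ι} : i ∈ JS B M ↔ (B i ∩ M).card = 4 ∧ ∃ X ∈ KS B M, (B i ∩ X).Nonempty := by
  unfold JS
  simp

theorem mem_OP {X : Finset V} {v : V} :
    v ∈ OP B M X ↔ v ∈ M \ X ∧ ∃ i, (B i ∩ X).Nonempty ∧ v ∈ B i := by
  classical
  unfold OP
  rw [mem_filter]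

theorem kap_eq_card (hHD : HD B M) : kap B M = (KS B M).card := by
  refine le_antisymm ?_ ?_
  · obtain ⟨P, hP, hc⟩ := exists_kap B M
    rw [← hc]
    exact card_le_card fun X hX => mem_KS.2 ⟨hP.sub X hX, hP.kp X hX⟩
  · refine KFam.le_kap ⟨fun X hX => (mem_KS.1 hX).1, fun X hX => (mem_KS.1 hX).2,
      fun X hX Y hY hne => ?_⟩
    exact hHD X (mem_KS.1 hX).1 Y (mem_KS.1 hY).1 (mem_KS.1 hX).2 (mem_KS.1 hY).2 hne

/-- a quad meets at most one K-piece. -/
theorem one_piece (hHD : HD B M) (hr : Reg B M) (h4 : Tr4 B M) {X Y : Finset V}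
    (hX : X ∈ KS B M) (hY : Y ∈ KS B M) {i : ι} (hiX : (B i ∩ X).Nonempty)
    (hiY : (B i ∩ Y).Nonempty) : X = Y := by
  rw [mem_KS] at hX hY
  by_contra hne
  have h1 := hX.2.trace (hr.mono hX.1) hiX
  have h2 := hY.2.trace (hr.mono hY.1) hiY
  have h3 := hHD X hX.1 Y hY.1 hX.2 hY.2 hne
  have h5 : (B i ∩ X ∪ B i ∩ Y).card ≤ 4 := by
    refine (card_le_card ?_).trans (h4 i)
    rw [← inter_union_distrib_left]
    exact inter_subset_inter_left (union_subset hX.1 hY.1)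
  rw [card_union_of_disjoint (disjoint_of_subset_left inter_subset_right
    (disjoint_of_subset_right inter_subset_right h3))] at h5
  omega

/-- the quad of a hit point. -/
theorem hit_quad (hr : Reg B M) (h4 : Tr4 B M) {X : Finset V} (hX : X ∈ KS B M) {i : ι} {v : V}
    (hiX : (B i ∩ X).Nonempty) (hvM : v ∈ M) (hvX : v ∉ X) (hvi : v ∈ B i) :
    (B i ∩ M).card = 4 ∧ ∀ w ∈ B i ∩ M, w ∈ X ∨ w = v := by
  rw [mem_KS] at hX
  have h1 := hX.2.trace (hr.mono hX.1) hiX
  have h2 : insert v (B i ∩ X) ⊆ B i ∩ M := by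
    intro w hw
    rcases mem_insert.1 hw with rfl | hw
    · exact mem_inter.2 ⟨hvi, hvM⟩
    · exact mem_inter.2 ⟨(mem_inter.1 hw).1, hX.1 (mem_inter.1 hw).2⟩
  have h3 : (insert v (B i ∩ X)).card = 4 := by
    rw [card_insert_of_notMem (fun h => hvX (mem_inter.1 h).2), h1]
  have h5 := card_le_card h2
  have h6 := h4 i
  have h7 : insert v (B i ∩ X) = B i ∩ M := eq_of_subset_of_card_le h2 (by omega)
  refine ⟨by omega, fun w hw => ?_⟩
  rw [← h7, mem_insert] at hw
  rcases hw with h8 | h8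
  · exact Or.inr h8
  · exact Or.inl (mem_inter.1 h8).2

/-- a packing of quads from a maximum matching of the K-pieces with their outer points. -/
theorem exists_pkmatch (hr : Reg B M) (h4 : Tr4 B M) (hHD : HD B M) :
    ∃ Pk : Finset ι, PkF B M Pk ∧ (JS B M).card ≤ 10 * Pk.card := by
  classical
  -- a family of maximal deficiency
  have hdef : ∃ S0 ⊆ KS B M, ∃ d : ℕ, (S0.biUnion (OP B M)).card + d = S0.card ∧
      ∀ S ⊆ KS B M, S.card ≤ (S.biUnion (OP B M)).card + d := by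
    obtain ⟨S0, hS0, hmax⟩ := exists_max_image (KS B M).powerset
      (fun S => (S.card : ℤ) - (S.biUnion (OP B M)).card) ⟨∅, by simp⟩
    rw [mem_powerset] at hS0
    have h0 := hmax ∅ (by simp)
    simp only [card_empty, biUnion_empty] at h0
    refine ⟨S0, hS0, S0.card - (S0.biUnion (OP B M)).card, ?_, fun S hS => ?_⟩
    · push_cast at h0
      omega
    · have h1 := hmax S (mem_powerset.2 hS)
      push_cast at h0
      omega
  obtain ⟨S0, hS0, d, hd1, hd2⟩ := hdef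
  -- Hall's theorem with `d` dummies
  set t : {X // X ∈ KS B M} → Finset (V ⊕ Fin d) := fun X => (OP B M X.1).disjSum univ with ht
  have hall : ∀ s : Finset {X // X ∈ KS B M}, s.card ≤ (s.biUnion t).card := by
    intro s
    rcases s.eq_empty_or_nonempty with rfl | ⟨X0, hX0⟩
    · simp
    set S := s.map (Function.Embedding.subtype _) with hS
    have hSc : S.card = s.card := card_map _
    have hSK : S ⊆ KS B M := by
      intro X hX
      rw [hS, mem_map] at hX
      obtain ⟨Y, _, rfl⟩ := hX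
      exact Y.2
    have h1 : (S.biUnion (OP B M)).disjSum (univ : Finset (Fin d)) ⊆ s.biUnion t := by
      intro q hq
      rcases q with v | m
      · rw [inl_mem_disjSum, mem_biUnion] at hq
        obtain ⟨X, hX, hv⟩ := hq
        rw [hS, mem_map] at hX
        obtain ⟨Y, hY, rfl⟩ := hX
        exact mem_biUnion.2 ⟨Y, hY, by rw [ht]; exact inl_mem_disjSum.2 hv⟩
      · exact mem_biUnion.2 ⟨X0, hX0, by rw [ht]; exact inr_mem_disjSum.2 (mem_univ _)⟩
    have h2 := card_le_card h1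
    rw [card_disjSum, card_univ, Fintype.card_fin] at h2
    have h3 := hd2 S hSK
    omega
  obtain ⟨f, hf1, hf2⟩ := (all_card_le_biUnion_card_iff_exists_injective t).1 hall
  set Km := (KS B M).filter (fun X => ∃ h : X ∈ KS B M, ∃ v, f ⟨X, h⟩ = Sum.inl v) with hKm
  have hg : ∀ X ∈ Km, ∃ v, ∃ h : X ∈ KS B M, f ⟨X, h⟩ = Sum.inl v := by
    intro X hX
    obtain ⟨_, h, v, hv⟩ := mem_filter.1 hX
    exact ⟨v, h, hv⟩
  have hnm : ((KS B M) \ Km).card ≤ d := by
    have h1 : ∀ X ∈ (KS B M) \ Km, ∃ m : Fin d, ∃ h : X ∈ KS B M, f ⟨X, h⟩ = Sum.inr m := by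
      intro X hX
      rw [mem_sdiff] at hX
      rcases h2 : f ⟨X, hX.1⟩ with v | m
      · exact absurd (mem_filter.2 ⟨hX.1, hX.1, v, h2⟩) hX.2
      · exact ⟨m, hX.1, h2⟩
    rcases ((KS B M) \ Km).eq_empty_or_nonempty with h2 | ⟨X1, hX1⟩
    · rw [h2, card_empty]
      exact Nat.zero_le _
    · obtain ⟨m0, _⟩ := h1 X1 hX1
      haveI : Nonempty (Fin d) := ⟨m0⟩
      choose! q hq using h1
      have h3 : ((KS B M) \ Km).card ≤ (univ : Finset (Fin d)).card := by
        refine card_le_card_of_injOn q (fun _ _ => mem_coe.2 (mem_univ _)) fun a ha b hb hab => ?_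
        obtain ⟨ha1, ha2⟩ := hq a ha
        obtain ⟨hb1, hb2⟩ := hq b hb
        rw [hab, ← hb2] at ha2
        exact congrArg Subtype.val (hf1 ha2)
      rwa [card_univ, Fintype.card_fin] at h3
  have hKmc : (KS B M).card ≤ Km.card + d := by
    have h1 : ((KS B M) \ Km).card + Km.card = (KS B M).card :=
      card_sdiff_add_card_eq_card (filter_subset _ _)
    omega
  -- the number of quads
  have hJ : (JS B M).card ≤ 10 * ((KS B M) \ S0).card + 5 * (S0.biUnion (OP B M)).card := by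
    have h1 : JS B M ⊆ ((KS B M) \ S0).biUnion (fun X => tch B X) ∪
        (S0.biUnion (OP B M)).biUnion (fun v => univ.filter (fun i => v ∈ B i)) := by
      intro i hi
      obtain ⟨hi4, X, hX, hiX⟩ := mem_JS.1 hi
      by_cases hXS : X ∈ S0
      · refine mem_union_right _ ?_
        have hX' := mem_KS.1 hX
        have h2 := hX'.2.trace (hr.mono hX'.1) hiX
        have h3 : ∃ v ∈ B i ∩ M, v ∉ X := by
          by_contra hcon
          push Not at hcon
          have h5 : B i ∩ M ⊆ B i ∩ X := fun v hv =>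
            mem_inter.2 ⟨(mem_inter.1 hv).1, hcon v hv⟩
          have := card_le_card h5
          omega
        obtain ⟨v, hv, hvX⟩ := h3
        rw [mem_inter] at hv
        exact mem_biUnion.2 ⟨v, mem_biUnion.2 ⟨X, hXS,
          mem_OP.2 ⟨mem_sdiff.2 ⟨hv.2, hvX⟩, i, hiX, hv.1⟩⟩, mem_filter.2 ⟨mem_univ _, hv.1⟩⟩
      · exact mem_union_left _ (mem_biUnion.2 ⟨X, mem_sdiff.2 ⟨hX, hXS⟩, cost_mem_tch.2 hiX⟩)
    refine (card_le_card h1).trans ((card_union_le _ _).trans (Nat.add_le_add ?_ ?_))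
    · rw [mul_comm]
      refine card_biUnion_le_card_mul _ _ _ fun X hX => ?_
      exact (mem_KS.1 (mem_sdiff.1 hX).1).2.cmX.le
    · rw [mul_comm]
      refine card_biUnion_le_card_mul _ _ _ fun v hv => ?_
      obtain ⟨X, _, hvX⟩ := mem_biUnion.1 hv
      rw [mem_OP, mem_sdiff] at hvX
      exact (hr v hvX.1.1).le
  have hS0c := card_sdiff_add_card_eq_card hS0
  rcases Km.eq_empty_or_nonempty with hKm0 | ⟨X1, hX1⟩
  · refine ⟨∅, ⟨by simp, by simp, by simp⟩, ?_⟩
    rw [hKm0] at hKmc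
    rw [card_empty] at hKmc ⊢
    omega
  · obtain ⟨v1, h11, h12⟩ := hg X1 hX1
    haveI : Nonempty V := ⟨v1⟩
    choose! g hg' using hg
    have hgOP : ∀ X ∈ Km, g X ∈ OP B M X := by
      intro X hX
      obtain ⟨h1, h2⟩ := hg' X hX
      have h3 := hf2 ⟨X, h1⟩
      rw [h2, ht] at h3
      exact inl_mem_disjSum.1 h3
    have hginj : ∀ X ∈ Km, ∀ Y ∈ Km, X ≠ Y → g X ≠ g Y := by
      intro X hX Y hY hne heq
      obtain ⟨h1, h2⟩ := hg' X hX
      obtain ⟨h3, h5⟩ := hg' Y hY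
      rw [heq, ← h5] at h2
      exact hne (congrArg Subtype.val (hf1 h2))
    have hKmK : ∀ X ∈ Km, X ∈ KS B M := fun X hX => (mem_filter.1 hX).1
    have hblk : ∀ X ∈ Km, ∃ i, (B i ∩ X).Nonempty ∧ g X ∈ B i := fun X hX =>
      (mem_OP.1 (hgOP X hX)).2
    obtain ⟨i1, _⟩ := hblk X1 hX1
    haveI : Nonempty ι := ⟨i1⟩
    choose! b hb1 hb2 using hblk
    have hout : ∀ X ∈ Km, g X ∈ M ∧ g X ∉ X := fun X hX => by
      have := (mem_OP.1 (hgOP X hX)).1
      rw [mem_sdiff] at this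
      exact this
    have hq : ∀ X ∈ Km, (B (b X) ∩ M).card = 4 ∧ ∀ w ∈ B (b X) ∩ M, w ∈ X ∨ w = g X :=
      fun X hX => hit_quad hr h4 (hKmK X hX) (hb1 X hX) (hout X hX).1 (hout X hX).2 (hb2 X hX)
    have hdis : ∀ X ∈ Km, ∀ Y ∈ Km, X ≠ Y → Disjoint (B (b X) ∩ M) (B (b Y) ∩ M) := by
      intro X hX Y hY hne
      rw [disjoint_left]
      intro w hw hw'
      have hXY := hHD X (mem_KS.1 (hKmK X hX)).1 Y (mem_KS.1 (hKmK Y hY)).1
        (mem_KS.1 (hKmK X hX)).2 (mem_KS.1 (hKmK Y hY)).2 hne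
      rcases (hq X hX).2 w hw with h1 | h1
      · rcases (hq Y hY).2 w hw' with h2 | h2
        · exact disjoint_left.1 hXY h1 h2
        · exact hne (one_piece hHD hr h4 (hKmK X hX) (hKmK Y hY)
            (i := b Y) ⟨w, mem_inter.2 ⟨(mem_inter.1 hw').1, h1⟩⟩ (hb1 Y hY))
      · rcases (hq Y hY).2 w hw' with h2 | h2
        · exact hne (one_piece hHD hr h4 (hKmK X hX) (hKmK Y hY)
            (i := b X) (hb1 X hX) ⟨w, mem_inter.2 ⟨(mem_inter.1 hw).1, h2⟩⟩)
        · exact hginj X hX Y hY hne (h1.symm.trans h2)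
    have hbinj : Set.InjOn b (Km : Set (Finset V)) := by
      intro X hX Y hY hXY
      by_contra hne
      have h1 := hdis X hX Y hY hne
      rw [hXY, disjoint_self_iff_empty, ← card_eq_zero, (hq Y hY).1] at h1
      omega
    refine ⟨Km.image b, ⟨?_, ?_, ?_⟩, ?_⟩
    · intro i hi
      obtain ⟨X, hX, rfl⟩ := mem_image.1 hi
      exact (hq X hX).1
    · intro i hi
      obtain ⟨X, hX, rfl⟩ := mem_image.1 hi
      exact ⟨X, (mem_KS.1 (hKmK X hX)).1, (mem_KS.1 (hKmK X hX)).2, hb1 X hX⟩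
    · intro i hi j hj hij
      obtain ⟨X, hX, rfl⟩ := mem_image.1 hi
      obtain ⟨Y, hY, rfl⟩ := mem_image.1 hj
      exact hdis X hX Y hY fun h => hij (by rw [h])
    · rw [card_image_of_injOn hbinj]
      omega

/-- the K-pieces outside a packing. -/
theorem PkF.kap_le {Pk : Finset ι} (h : PkF B M Pk) (hHD : HD B M) (hr : Reg B M)
    (h4 : Tr4 B M) : kap B (M \ Pk.biUnion B) + Pk.card ≤ kap B M := by
  classical
  obtain ⟨P, hP, hc⟩ := exists_kap B (M \ Pk.biUnion B)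
  have hPk' : ∀ i ∈ Pk, ∃ X, X ∈ KS B M ∧ (B i ∩ X).Nonempty := by
    intro i hi
    obtain ⟨X, hX, hK, hiX⟩ := h.hit i hi
    exact ⟨X, mem_KS.2 ⟨hX, hK⟩, hiX⟩
  rw [kap_eq_card hHD, ← hc]
  rcases Pk.eq_empty_or_nonempty with h0 | ⟨i0, hi0⟩
  · rw [h0, card_empty]
    refine card_le_card fun X hX => mem_KS.2 ⟨(hP.sub X hX).trans sdiff_subset, hP.kp X hX⟩
  choose! q hq1 hq2 using hPk'
  have hinj : Set.InjOn q (Pk : Set ι) := by
    intro i hi j hj hij
    by_contra hne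
    exact h.two_hits hr hi hj hne (mem_KS.1 (hq1 i hi)).1 (mem_KS.1 (hq1 i hi)).2 (hq2 i hi)
      (hij ▸ hq2 j hj)
  have hd : Disjoint P (Pk.image q) := by
    rw [disjoint_left]
    intro X hX hX'
    obtain ⟨i, hi, rfl⟩ := mem_image.1 hX'
    obtain ⟨v, hv⟩ := hq2 i hi
    rw [mem_inter] at hv
    exact (mem_sdiff.1 (hP.sub _ hX hv.2)).2 (mem_biUnion.2 ⟨i, hi, hv.1⟩)
  rw [← card_image_of_injOn hinj, ← card_union_of_disjoint hd]
  refine card_le_card fun X hX => ?_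
  rcases mem_union.1 hX with h1 | h1
  · exact mem_KS.2 ⟨(hP.sub X h1).trans sdiff_subset, hP.kp X h1⟩
  · obtain ⟨i, hi, rfl⟩ := mem_image.1 h1
    exact hq1 i hi

theorem PkF.kap_pos {Pk : Finset ι} (h : PkF B M Pk) (hHD : HD B M) (hr : Reg B M)
    (h4 : Tr4 B M) (hlt : Pk.card < kap B M) : 1 ≤ kap B (M \ Pk.biUnion B) := by
  classical
  by_contra hcon
  rw [kap_eq_card hHD] at hlt
  -- every piece is met
  have hmet : ∀ X ∈ KS B M, ∃ i, i ∈ Pk ∧ (B i ∩ X).Nonempty := by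
    intro X hX
    by_contra hno
    push Not at hno
    apply hcon
    refine Hyp6.kap_pos fun hf => hf X (fun v hv => mem_sdiff.2 ⟨(mem_KS.1 hX).1 hv, fun hvU => ?_⟩)
      (mem_KS.1 hX).2
    obtain ⟨i, hi, hvi⟩ := mem_biUnion.1 hvU
    have h1 : (B i ∩ X).Nonempty := ⟨v, mem_inter.2 ⟨hvi, hv⟩⟩
    rw [hno i hi] at h1
    exact absurd h1 (by simp)
  have hne : (KS B M).Nonempty := card_pos.1 (by omega)
  obtain ⟨X0, hX0⟩ := hne
  obtain ⟨i0, _⟩ := hmet X0 hX0
  haveI : Nonempty ι := ⟨i0⟩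
  choose! q hq1 hq2 using hmet
  have h1 : (KS B M).card ≤ Pk.card := by
    refine card_le_card_of_injOn q (fun X hX => mem_coe.2 (hq1 X hX)) fun X hX Y hY hXY => ?_
    exact one_piece hHD hr h4 hX hY (hq2 X hX) (hXY ▸ hq2 Y hY)
  omega

/-- the inequality (H). -/
theorem ineqH (hL3 : L3e.{u} V) (hQA : QA.{u} V) (hr : Reg B M) (h4 : Tr4 B M) (hHD : HD B M)
    (hM : Conn (gr B) M) :
    0 ≤ 110 * Pv B M + 220 * (kap B M : ℤ) - 11 * ((JS B M).card : ℤ) + 15 * (NN B M : ℤ) := by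
  classical
  obtain ⟨Pk, hPk, hJ⟩ := exists_pkmatch hr h4 hHD
  obtain ⟨p1, p2, p3⟩ := T0P1 hL3 hQA B M hr h4 hHD hM Pk hPk
  have hk := hPk.kap_le hHD hr h4
  have hJ4 : (JS B M).card ≤ nt B M 4 := by
    refine card_le_card fun i hi => ?_
    exact mem_trs.2 (mem_JS.1 hi).1
  have hN := four_NN hr h4
  have c1 : (kap B (M \ Pk.biUnion B) : ℤ) + Pk.card ≤ kap B M := by exact_mod_cast hk
  have c2 : ((JS B M).card : ℤ) ≤ 10 * Pk.card := by exact_mod_cast hJ
  have c3 : ((JS B M).card : ℤ) ≤ nt B M 4 := by exact_mod_cast hJ4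
  have c4 : (0 : ℤ) ≤ NN B M := by positivity
  have c5 : (0 : ℤ) ≤ kap B (M \ Pk.biUnion B) := by positivity
  have hR : R1 B M Pk = Pv B M + 2 * (kap B (M \ Pk.biUnion B) : ℤ) + (Pk.card : ℤ) := rfl
  by_cases h0 : 0 ≤ R1 B M Pk
  · linarith
  · have h1 : R1 B M Pk = -1 := by omega
    obtain ⟨s1, s2⟩ := p3 h1
    have h2 : ¬ 1 ≤ kap B (M \ Pk.biUnion B) := fun h3 => h0 (p2 h3)
    have h3 : ¬ Pk.card < kap B M := fun h3 => h2 (hPk.kap_pos hHD hr h4 h3)
    have h5 : kap B (M \ Pk.biUnion B) = 0 := by omega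
    have h6 : kap B M = Pk.card := by omega
    rw [h5] at hR
    rw [h6]
    have c6 : 7 * (Pk.card : ℤ) + 3 ≤ M.card := by exact_mod_cast s2
    push_cast at hR
    have c7 : Pv B M = -1 - (Pk.card : ℤ) := by linarith
    rw [c7, s1] at hN
    rw [c7]
    by_cases h7 : ((JS B M).card : ℤ) ≤ 10 * ((Pk.card : ℤ) - 1)
    · linarith
    · push Not at h7
      have c8 : (0 : ℤ) ≤ Pk.card := by positivity
      omega

end Pool.Agent.Hyp6
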