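import Pool.Agent.Hyp6.L4P

/-!
# HYP6 L4Q: the theorem T0P1 on packings of quads touching K-pieces
-/

set_option autoImplicit false

namespace Pool.Agent.Hyp6

open Finset Pool.Agent.Hyp5

universe u v

variable {V : Type v} [DecidableEq V] {ι : Type u} [Fintype ι]

/-- the statement T0P1 for one set. -/
def P1 (B : ι → Finset V) (Q : Finset V) : Prop :=
  ∀ Pk : Finset ι, PkF B Q Pk → -1 ≤ R1 B Q Pk ∧
    (1 ≤ kap B (Q \ Pk.biUnion B) → 0 ≤ R1 B Q Pk) ∧
    (R1 B Q Pk = -1 → sv B Q = (Pk.card : ℤ) - 1 ∧ 7 * Pk.card + 3 ≤ Q.card)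

/-- the value modulo four. -/
theorem card_of_Pv {B : ι → Finset V} {Q : Finset V} (h : Pv B Q = -1) : 3 ≤ Q.card := by
  rw [Pv_eq] at h
  omega

/-- helper43's theorem T0P1. -/
theorem T0P1 (hL3 : L3e.{u} V) (hQA : QA.{u} V) (B : ι → Finset V) : ∀ Q : Finset V,
    Reg B Q → Tr4 B Q → HD B Q → Conn (gr B) Q → P1 B Q := by
  classical
  intro Q
  induction Q using Finset.strongInduction with
  | H Q ih =>
    intro hr h4 hHD hQ Pk hPk
    have hcov : Cov B Q := cov_of_reg hr
    have hP1 : ∀ W ⊂ Q, Conn (gr B) W → P1 B W := fun W hW hWc =>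
      ih W hW (hr.mono hW.1) (h4.mono hW.1) (hHD.mono hW.1) hWc
    rcases Pk.eq_empty_or_nonempty with hPk0 | hPkne
    · -- no packing
      subst hPk0
      have hR : R1 B Q ∅ = Pv B Q + 2 * (kap B Q : ℤ) := by
        unfold R1
        simp
      rw [hR, biUnion_empty, sdiff_empty, card_empty]
      by_cases hk : KFree B Q
      · have h1 := T0 hL3 hr h4 hQ
        have h2 := kap_eq_zero hk
        refine ⟨h1, fun h3 => by omega, fun h3 => ?_⟩
        rw [h2] at h3
        have h5 : Pv B Q = -1 := by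
          push_cast at h3
          linarith
        have h6 := hQA ι B Q hr h4 hQ hk h5
        refine ⟨by rw [h6]; norm_num, ?_⟩
        have := card_of_Pv h5
        omega
      · have h1 := T0_pos hL3 B Q hr h4 hQ hk
        refine ⟨by linarith, fun _ => h1, fun h3 => ?_⟩
        exfalso
        linarith
    obtain ⟨z, hz⟩ := hPkne
    obtain ⟨X, hXQ, hX, hzX⟩ := hPk.hit z hz
    have hrX := hr.mono hXQ
    have hz3 := hX.trace hrX hzX
    have hz4 := hPk.four z hz
    -- the fourth point
    have hx1 : ((B z ∩ Q) \ X).card = 1 := by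
      have h1 := card_sdiff_add_card_inter (B z ∩ Q) X
      have h2 : B z ∩ Q ∩ X = B z ∩ X := by
        rw [inter_assoc, inter_eq_right.2 hXQ]
      rw [h2, hz3, hz4] at h1
      omega
    obtain ⟨x, hx⟩ := card_eq_one.1 hx1
    have hx' : x ∈ (B z ∩ Q) \ X := by rw [hx]; exact mem_singleton_self _
    rw [mem_sdiff, mem_inter] at hx'
    obtain ⟨⟨hxz, hxQ⟩, hxX⟩ := hx'
    have hzQ : ∀ v ∈ B z ∩ Q, v = x ∨ v ∈ X := by
      intro v hv
      by_cases hvX : v ∈ X
      · exact Or.inr hvX
      · left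
        have : v ∈ (B z ∩ Q) \ X := mem_sdiff.2 ⟨hv, hvX⟩
        rw [hx, mem_singleton] at this
        exact this
    -- the other members of the packing
    set P' := Pk.erase z with hP'
    have hP'sub : P' ⊆ Pk := erase_subset _ _
    have hP'c : P'.card + 1 = Pk.card := card_erase_add_one hz
    have hdisQ : ∀ i ∈ P', ∀ v ∈ B i ∩ Q, v ∉ B z := by
      intro i hi v hv hvz
      rw [hP', mem_erase] at hi
      exact disjoint_left.1 (hPk.disj i hi.2 z hz hi.1) hv
        (mem_inter.2 ⟨hvz, (mem_inter.1 hv).2⟩)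
    have hdisX : ∀ i ∈ P', ∀ X ⊆ Q, KP B X → (B i ∩ X).Nonempty → ∀ v ∈ X, v ∉ B z := by
      intro i hi Y hY hK hiY
      rw [hP', mem_erase] at hi
      exact hPk.disj_piece hr hz hi.2 hi.1 hY hK hiY
    have hXP' : ∀ i ∈ P', ¬ (B i ∩ X).Nonempty := by
      intro i hi hiX
      obtain ⟨v, hv⟩ := hzX
      rw [mem_inter] at hv
      exact hdisX i hi X hXQ hX hiX v hv.2 hv.1
    by_cases hcrit : rho B (Q.erase x) = rho B Q
    · -- the point `x` is not critical
      obtain ⟨K, hK1, hK2, hK3⟩ := exists_parts B (Q.erase x)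
      have hcard := card_comps_le hr hxQ hQ hK1 hK2
      have hxs : ({x} : Finset V) ⊆ Q := singleton_subset_iff.2 hxQ
      have hKQ : ∀ C ∈ K, C ⊆ Q := fun C hC => (hK1 C hC).1.trans (erase_subset _ _)
      have hKss : ∀ C ∈ K, C ⊂ Q := by
        intro C hC
        refine ⟨hKQ C hC, fun hcon => ?_⟩
        exact (mem_erase.1 ((hK1 C hC).1 (hcon hxQ))).1 rfl
      have hKcov : ∀ C ∈ K, Cov B C := fun C hC => hcov.mono (hKQ C hC)
      have he : Q \ {x} = K.biUnion id := by rw [hK3, sdiff_singleton_eq_erase]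
      have h2 := Pv_sdiff (B := B) hxs
      rw [he, Pv_biUnion hKcov hK2, card_singleton] at h2
      have hr' : rho B (K.biUnion id) = rho B Q := by rw [hK3, hcrit]
      rw [hr'] at h2
      -- the packings of the parts
      have hpart : ∀ C ∈ K, PkF B C (P'.filter (fun i => (B i ∩ C).Nonempty)) := by
        intro C hC
        refine hPk.part hr (erase_subset x Q) (hK1 C hC).2.1 hP'sub ?_ ?_
        · intro i hi v hv
          refine mem_erase.2 ⟨?_, (mem_inter.1 hv).2⟩
          rintro rfl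
          exact hdisQ i hi v hv hxz
        · intro i hi Y hY hKY hiY v hv
          refine mem_erase.2 ⟨?_, hY hv⟩
          rintro rfl
          exact hdisX i hi Y hY hKY hiY v hv hxz
      have hPc := sum_filter_le hK2 P'
      have hkap1 := sum_kap_part (B := B) (W := Q.erase x) hK2 (fun C hC => (hK1 C hC).1)
        (P := P') (Subset.refl _)
      have hkap2 : kap B ((Q.erase x) \ P'.biUnion B) ≤ kap B (Q \ Pk.biUnion B) + 1 := by
        obtain ⟨P, hP, hPc⟩ := exists_kap B ((Q.erase x) \ P'.biUnion B)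
        have hPQ : ∀ Y ∈ P, Y ⊆ Q := fun Y hY =>
          (hP.sub Y hY).trans (sdiff_subset.trans (erase_subset _ _))
        have h3 : KFam B (Q \ Pk.biUnion B) (P.erase X) := by
          refine ⟨?_, fun Y hY => hP.kp Y (mem_of_mem_erase hY),
            fun Y hY Y' hY' hne => hP.disj Y (mem_of_mem_erase hY) Y' (mem_of_mem_erase hY') hne⟩
          intro Y hY v hv
          rw [mem_erase] at hY
          have h4 := hP.sub Y hY.2 hv
          rw [mem_sdiff, mem_erase] at h4
          refine mem_sdiff.2 ⟨h4.1.2, fun hvU => ?_⟩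
          obtain ⟨i, hi, hvi⟩ := mem_biUnion.1 hvU
          by_cases hiz : i = z
          · rw [hiz] at hvi
            rcases hzQ v (mem_inter.2 ⟨hvi, h4.1.2⟩) with h5 | h5
            · exact h4.1.1 h5
            · exact disjoint_left.1 (hHD Y (hPQ Y hY.2) X hXQ (hP.kp Y hY.2) hX hY.1) hv h5
          · exact h4.2 (mem_biUnion.2 ⟨i, mem_erase.2 ⟨hiz, hi⟩, hvi⟩)
        have h4 := h3.le_kap
        have h5 := pred_card_le_card_erase (s := P) (a := X)
        omega
      -- the part containing the piece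
      have hXe : X ⊆ Q.erase x := fun v hv =>
        mem_erase.2 ⟨fun h => hxX (h ▸ hv), hXQ hv⟩
      obtain ⟨u0, hu0⟩ := hX.nonempty
      have hu0e : u0 ∈ K.biUnion id := by
        rw [hK3]
        exact hXe hu0
      obtain ⟨C0, hC0, hu0C⟩ := mem_biUnion.1 hu0e
      have hXC0 : X ⊆ C0 := hX.sub_closed hrX hXe (hK1 C0 hC0).2.1
        ⟨u0, mem_inter.2 ⟨hu0C, hu0⟩⟩
      have h0 : 0 ≤ R1 B C0 (P'.filter (fun i => (B i ∩ C0).Nonempty)) := by
        refine (hP1 C0 (hKss C0 hC0) (hK1 C0 hC0).2.2 _ (hpart C0 hC0)).2.1 ?_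
        refine kap_pos fun hfree => hfree X (fun v hv => ?_) hX
        rw [sdiff_filter_biUnion, mem_sdiff]
        refine ⟨hXC0 hv, fun hvU => ?_⟩
        obtain ⟨i, hi, hvi⟩ := mem_biUnion.1 hvU
        exact hXP' i hi ⟨v, mem_inter.2 ⟨hvi, hv⟩⟩
      have h5 := add_sum_erase K
        (fun C => R1 B C (P'.filter (fun i => (B i ∩ C).Nonempty))) hC0
      have h6 : ∑ D ∈ K.erase C0, (-1 : ℤ) ≤
          ∑ D ∈ K.erase C0, R1 B D (P'.filter (fun i => (B i ∩ D).Nonempty)) :=
        sum_le_sum fun D hD => (hP1 D (hKss D (mem_of_mem_erase hD))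
          (hK1 D (mem_of_mem_erase hD)).2.2 _ (hpart D (mem_of_mem_erase hD))).1
      rw [sum_const, nsmul_eq_mul] at h6
      have h7 := card_erase_add_one hC0
      have h8 : ∑ C ∈ K, R1 B C (P'.filter (fun i => (B i ∩ C).Nonempty)) =
          ∑ C ∈ K, Pv B C +
          2 * ∑ C ∈ K, (kap B (C \ (P'.filter (fun i => (B i ∩ C).Nonempty)).biUnion B) : ℤ) +
          ∑ C ∈ K, ((P'.filter (fun i => (B i ∩ C).Nonempty)).card : ℤ) := by
        unfold R1
        rw [sum_add_distrib, sum_add_distrib, ← mul_sum]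
      have c1 : ((K.erase C0).card : ℤ) + 1 = K.card := by exact_mod_cast h7
      have c2 : (K.card : ℤ) + (ins B Q {x}).card ≤ 5 := by exact_mod_cast hcard
      have c3 : ∑ C ∈ K, (kap B (C \ (P'.filter (fun i => (B i ∩ C).Nonempty)).biUnion B) : ℤ) ≤
          kap B (Q \ Pk.biUnion B) + 1 := by exact_mod_cast hkap1.trans hkap2
      have c4 : (0 : ℤ) ≤ (ins B Q {x}).card := by positivity
      have c5 : ∑ C ∈ K, ((P'.filter (fun i => (B i ∩ C).Nonempty)).card : ℤ) + 1 ≤ Pk.card := by
        rw [← hP'c]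
        push_cast
        have : ∑ C ∈ K, ((P'.filter (fun i => (B i ∩ C).Nonempty)).card : ℤ) ≤ P'.card := by
          exact_mod_cast hPc
        linarith
      have hfin : 0 ≤ R1 B Q Pk := by
        have h9 : R1 B Q Pk = Pv B Q + 2 * (kap B (Q \ Pk.biUnion B) : ℤ) + (Pk.card : ℤ) := rfl
        push_cast at h2
        linarith
      refine ⟨by linarith, fun _ => hfin, fun h9 => ?_⟩
      exfalso
      linarith
    · -- the point `x` is critical
      have hcr : rho B (Q.erase x) + 1 = rho B Q := by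
        have h1 := rho_le_erase (x := x) hcov
        have h2 := rho_erase_le (x := x) hcov
        omega
      obtain ⟨F, hF1, hF2, hF3⟩ := exists_parts B (Q \ (B z ∩ Q))
      have hFQ : ∀ C ∈ F, C ⊆ Q := fun C hC => (hF1 C hC).1.trans sdiff_subset
      have hxZ : x ∈ B z ∩ Q := mem_inter.2 ⟨hxz, hxQ⟩
      have hFx : ∀ C ∈ F, x ∉ C := fun C hC hxC => (mem_sdiff.1 ((hF1 C hC).1 hxC)).2 hxZ
      have hFss : ∀ C ∈ F, C ⊂ Q := fun C hC =>
        ⟨hFQ C hC, fun hcon => hFx C hC (hcon hxQ)⟩
      have hzC : ∀ C ∈ F, ¬ (B z ∩ C).Nonempty := by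
        rintro C hC ⟨v, hv⟩
        rw [mem_inter] at hv
        exact (mem_sdiff.1 ((hF1 C hC).1 hv.2)).2 (mem_inter.2 ⟨hv.1, hFQ C hC hv.2⟩)
      have hFcov : ∀ C ∈ F, Cov B C := fun C hC => hcov.mono (hFQ C hC)
      have hZQ : B z ∩ Q ⊆ Q := inter_subset_right
      -- the value
      have hval0 := Pv_sdiff (B := B) hZQ
      rw [← hF3, Pv_biUnion hFcov hF2, hF3, hz4] at hval0
      have hins : 0 < (ins B Q (B z ∩ Q)).card :=
        card_pos.2 ⟨z, mem_ins.2 ⟨⟨x, hxZ⟩, Subset.refl _⟩⟩
      have hdrop := rho_le_sdiff (i := z) (W := Q) (Z := B z ∩ Q) inter_subset_left hcov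
      -- the packings of the parts
      have hpart : ∀ C ∈ F, PkF B C (P'.filter (fun i => (B i ∩ C).Nonempty)) := by
        intro C hC
        refine hPk.part hr sdiff_subset (hF1 C hC).2.1 hP'sub ?_ ?_
        · intro i hi v hv
          exact mem_sdiff.2 ⟨(mem_inter.1 hv).2, fun h => hdisQ i hi v hv (mem_inter.1 h).1⟩
        · intro i hi Y hY hKY hiY v hv
          exact mem_sdiff.2 ⟨hY hv, fun h => hdisX i hi Y hY hKY hiY v hv (mem_inter.1 h).1⟩
      have hPc := sum_filter_le hF2 P'
      have hkap := sum_kap_part (B := B) (W := Q \ (B z ∩ Q)) (U := Q \ Pk.biUnion B) hF2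
        (fun C hC => (hF1 C hC).1) (P := P') (by
          intro v hv
          rw [mem_sdiff, mem_sdiff] at hv
          refine mem_sdiff.2 ⟨hv.1.1, fun hvU => ?_⟩
          obtain ⟨i, hi, hvi⟩ := mem_biUnion.1 hvU
          by_cases hiz : i = z
          · rw [hiz] at hvi
            exact hv.1.2 (mem_inter.2 ⟨hvi, hv.1.1⟩)
          · exact hv.2 (mem_biUnion.2 ⟨i, mem_erase.2 ⟨hiz, hi⟩, hvi⟩))
      have hR : ∀ C ∈ F, P1 B C := fun C hC => hP1 C (hFss C hC) (hF1 C hC).2.2
      -- the component of the complement of the trace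
      have hUc : (X \ B z).card = 3 := by
        have h1 := card_sdiff_add_card_inter X (B z)
        rw [inter_comm, hz3, hX.card] at h1
        omega
      have hUne : (X \ B z).Nonempty := card_pos.1 (by omega)
      obtain ⟨w0, hw0⟩ := hUne
      have hUW : ∀ v ∈ X \ B z, v ∈ Q \ (B z ∩ Q) := fun v hv =>
        mem_sdiff.2 ⟨hXQ (mem_sdiff.1 hv).1, fun h => (mem_sdiff.1 hv).2 (mem_inter.1 h).1⟩
      have hw0F : w0 ∈ F.biUnion id := by
        rw [hF3]
        exact hUW w0 hw0
      obtain ⟨C0, hC0, hw0C⟩ := mem_biUnion.1 hw0F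
      have hUC0 : ∀ v ∈ X \ B z, v ∈ C0 := by
        intro v hv
        by_cases hvw : w0 = v
        · rw [← hvw]
          exact hw0C
        · exact (hF1 C0 hC0).2.1.2 w0 hw0C v (hUW v hv) (hX.clique hrX hzX hw0 hv hvw)
      set N := univ.filter (fun j => B j ∩ X = B z ∩ X) with hN
      have hN2 : N.card ≤ 2 := (hX.count hrX hzX).1
      have hzN : z ∈ N := mem_filter.2 ⟨mem_univ _, rfl⟩
      have hN1 : (N.erase z).card ≤ 1 := by
        rw [card_erase_of_mem hzN]
        omega
      -- the special components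
      set Sp := F.filter (fun C => C = C0 ∨ ∃ j ∈ N.erase z, (B j ∩ C).Nonempty) with hSp
      have hSp2 : Sp.card ≤ 2 := by
        have h3 : (Sp.erase C0).card ≤ 1 := by
          rw [card_le_one]
          intro C hC D hD
          rw [mem_erase, hSp, mem_filter] at hC hD
          obtain ⟨j, hj, hjC⟩ := hC.2.2.resolve_left hC.1
          obtain ⟨k, hk, hkD⟩ := hD.2.2.resolve_left hD.1
          have hjk : j = k := card_le_one.1 hN1 j hj k hk
          by_contra hne
          exact (hF2 C hC.2.1 D hD.2.1 hne).2 j hjC (hjk ▸ hkD)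
        have h4 := pred_card_le_card_erase (s := Sp) (a := C0)
        omega
      have hbig : ∀ C ∈ F, C ∉ Sp → 2 ≤ R1 B C (P'.filter (fun i => (B i ∩ C).Nonempty)) := by
        intro C hC hCSp
        have hCC0 : C ≠ C0 := by
          rintro rfl
          exact hCSp (mem_filter.2 ⟨hC, Or.inl rfl⟩)
        have hcon : ∀ j ∈ N.erase z, ¬ (B j ∩ C).Nonempty := fun j hj hjC =>
          hCSp (mem_filter.2 ⟨hC, Or.inr ⟨j, hj, hjC⟩⟩)
        -- no block meets the trace and `C`
        have hno : ∀ j, (B j ∩ C).Nonempty → ∀ t ∈ X, t ∉ B j := by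
          intro j hjC t ht htj
          have h1 := hX.trace hrX (i := j) ⟨t, mem_inter.2 ⟨htj, ht⟩⟩
          by_cases h2 : B j ∩ X = B z ∩ X
          · have hji : j ≠ z := by
              rintro rfl
              exact hzC C hC hjC
            exact hcon j (mem_erase.2 ⟨hji, mem_filter.2 ⟨mem_univ _, h2⟩⟩) hjC
          · have h3 : ∃ v ∈ B j ∩ X, v ∉ B z := by
              by_contra hc
              push Not at hc
              apply h2
              refine eq_of_subset_of_card_le (fun v hv => ?_) (by omega)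
              exact mem_inter.2 ⟨hc v hv, (mem_inter.1 hv).2⟩
            obtain ⟨v, hv, hvi⟩ := h3
            rw [mem_inter] at hv
            exact (hF2 C hC C0 hC0 hCC0).2 j hjC
              ⟨v, mem_inter.2 ⟨hv.1, hUC0 v (mem_sdiff.2 ⟨hv.2, hvi⟩)⟩⟩
        have hclx : ∀ a ∈ C, ∀ y ∈ Q, y ∉ C → (gr B).Adj a y → y = x := by
          intro a ha y hy hyC hadj
          have hyZ : y ∈ B z ∩ Q := by
            by_contra hyZ
            exact hyC ((hF1 C hC).2.1.2 a ha y (mem_sdiff.2 ⟨hy, hyZ⟩) hadj)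
          rcases hzQ y hyZ with h1 | h1
          · exact h1
          · exfalso
            obtain ⟨_, j, hj1, hj2⟩ := hadj
            exact hno j ⟨a, mem_inter.2 ⟨hj1, ha⟩⟩ y h1 hj2
        have hCne : C ≠ Q := (hFss C hC).ne
        obtain ⟨a, ha, y, hy, hyC, hadj⟩ := hQ.exists_edge (hFQ C hC) (hF1 C hC).2.2.1 hCne
        have hyx := hclx a ha y hy hyC hadj
        rw [hyx] at hadj
        have hcl : Closed (gr B) (Q.erase x) C := by
          refine ⟨fun v hv => mem_erase.2 ⟨fun h => hFx C hC (h ▸ hv), hFQ C hC hv⟩,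
            fun b hb y hy hby => ?_⟩
          by_contra hyC
          exact (mem_erase.1 hy).1 (hclx b hb y (mem_of_mem_erase hy) hyC hby)
        have hWss : insert x C ⊂ Q := by
          refine ⟨insert_subset hxQ (hFQ C hC), fun hcon2 => ?_⟩
          obtain ⟨u0, hu0⟩ := hzX
          rw [mem_inter] at hu0
          rcases mem_insert.1 (hcon2 (hXQ hu0.2)) with h1 | h1
          · exact hxX (h1 ▸ hu0.2)
          · exact hzC C hC ⟨u0, mem_inter.2 ⟨hu0.1, h1⟩⟩
        have hconW := (hF1 C hC).2.2.insert ⟨a, ha, hadj.symm⟩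
        set PC := P'.filter (fun i => (B i ∩ C).Nonempty) with hPC
        have hPCx : ∀ i ∈ PC, B i ∩ insert x C = B i ∩ C := by
          intro i hi
          rw [inter_insert_of_notMem]
          intro hxi
          exact hdisQ i (mem_filter.1 hi).1 x (mem_inter.2 ⟨hxi, hxQ⟩) hxz
        have hPkW : PkF B (insert x C) PC := by
          have h1 := hpart C hC
          refine ⟨fun i hi => ?_, fun i hi => ?_, fun i hi j hj hij => ?_⟩
          · rw [hPCx i hi]
            exact h1.four i hi
          · obtain ⟨Y, hY, hK, hiY⟩ := h1.hit i hi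
            exact ⟨Y, hY.trans (subset_insert _ _), hK, hiY⟩
          · rw [hPCx i hi, hPCx j hj]
            exact h1.disj i hi j hj hij
        have hlowW := (hP1 _ hWss hconW PC hPkW).1
        obtain ⟨_, j, hj1, hj2⟩ := hadj
        have h10 := comp_large' hr hxQ (hFQ C hC) (hFx C hC) hcl hcr hj2
          ⟨a, mem_inter.2 ⟨hj1, ha⟩⟩
        have h11 := kap_insert_sdiff_le (S := PC.biUnion B) (hr.mono hWss.1) hxz (hzC C hC)
        have h12 : (kap B (insert x C \ PC.biUnion B) : ℤ) ≤ kap B (C \ PC.biUnion B) := by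
          exact_mod_cast h11
        unfold R1 at hlowW ⊢
        linarith
      -- the sum
      have hge : ∀ C ∈ F, -1 ≤ R1 B C (P'.filter (fun i => (B i ∩ C).Nonempty)) := fun C hC =>
        (hR C hC _ (hpart C hC)).1
      have hA : -2 + 2 * ((F \ Sp).card : ℤ) ≤
          ∑ C ∈ F, R1 B C (P'.filter (fun i => (B i ∩ C).Nonempty)) := by
        rw [← sum_sdiff (filter_subset _ _ : Sp ⊆ F)]
        have h1 : ∑ C ∈ Sp, (-1 : ℤ) ≤
            ∑ C ∈ Sp, R1 B C (P'.filter (fun i => (B i ∩ C).Nonempty)) :=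
          sum_le_sum fun C hC => hge C (mem_filter.1 hC).1
        have h2 : ∑ C ∈ F \ Sp, (2 : ℤ) ≤
            ∑ C ∈ F \ Sp, R1 B C (P'.filter (fun i => (B i ∩ C).Nonempty)) :=
          sum_le_sum fun C hC => hbig C (mem_sdiff.1 hC).1 (mem_sdiff.1 hC).2
        rw [sum_const, nsmul_eq_mul] at h1 h2
        have h3 : (Sp.card : ℤ) ≤ 2 := by exact_mod_cast hSp2
        linarith
      have h8 : ∑ C ∈ F, R1 B C (P'.filter (fun i => (B i ∩ C).Nonempty)) =
          ∑ C ∈ F, Pv B C +
          2 * ∑ C ∈ F, (kap B (C \ (P'.filter (fun i => (B i ∩ C).Nonempty)).biUnion B) : ℤ) +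
          ∑ C ∈ F, ((P'.filter (fun i => (B i ∩ C).Nonempty)).card : ℤ) := by
        unfold R1
        rw [sum_add_distrib, sum_add_distrib, ← mul_sum]
      have c1 : (1 : ℤ) ≤ (ins B Q (B z ∩ Q)).card := by exact_mod_cast hins
      have c2 : (rho B Q : ℤ) ≤ rho B (Q \ (B z ∩ Q)) + 1 := by exact_mod_cast hdrop
      have c3 : ∑ C ∈ F, (kap B (C \ (P'.filter (fun i => (B i ∩ C).Nonempty)).biUnion B) : ℤ) ≤
          kap B (Q \ Pk.biUnion B) := by exact_mod_cast hkap
      have c5 : ∑ C ∈ F, ((P'.filter (fun i => (B i ∩ C).Nonempty)).card : ℤ) ≤ P'.card := by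
        exact_mod_cast hPc
      have c6 : (P'.card : ℤ) + 1 = Pk.card := by exact_mod_cast hP'c
      have h9 : R1 B Q Pk = Pv B Q + 2 * (kap B (Q \ Pk.biUnion B) : ℤ) + (Pk.card : ℤ) := rfl
      have c7 : (0 : ℤ) ≤ (F \ Sp).card := by positivity
      push_cast at hval0
      have hmain : ∑ C ∈ F, R1 B C (P'.filter (fun i => (B i ∩ C).Nonempty)) + 1 ≤
          R1 B Q Pk := by linarith
      -- the case of equality
      have hFSp : R1 B Q Pk ≤ -1 → F.card ≤ 2 := by
        intro h1
        have h2 : ((F \ Sp).card : ℤ) = 0 := by linarith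
        have h3 : (F \ Sp).card = 0 := by exact_mod_cast h2
        have h4 : (F \ Sp).card + Sp.card = F.card :=
          card_sdiff_add_card_eq_card (filter_subset _ _)
        omega
      have hall : R1 B Q Pk ≤ -1 → ∀ C ∈ F,
          R1 B C (P'.filter (fun i => (B i ∩ C).Nonempty)) = -1 := by
        intro h1 C hC
        have h2 := hFSp h1
        have h3 := hge C hC
        have h5 := add_sum_erase F
          (fun C => R1 B C (P'.filter (fun i => (B i ∩ C).Nonempty))) hC
        have h6 : ∑ D ∈ F.erase C, (-1 : ℤ) ≤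
            ∑ D ∈ F.erase C, R1 B D (P'.filter (fun i => (B i ∩ D).Nonempty)) :=
          sum_le_sum fun D hD => hge D (mem_of_mem_erase hD)
        rw [sum_const, nsmul_eq_mul] at h6
        have h7 := card_erase_add_one hC
        have e1 : ((F.erase C).card : ℤ) + 1 = F.card := by exact_mod_cast h7
        have e2 : (F.card : ℤ) ≤ 2 := by exact_mod_cast h2
        linarith
      refine ⟨by linarith, fun hk1 => ?_, fun heq => ?_⟩
      · by_contra hcon
        have h1 : R1 B Q Pk ≤ -1 := by omega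
        have hnf : ¬ KFree B (Q \ Pk.biUnion B) := by
          intro hf
          rw [kap_eq_zero hf] at hk1
          omega
        unfold KFree at hnf
        push Not at hnf
        obtain ⟨Y, hY, hKY⟩ := hnf
        have hYQ : Y ⊆ Q := hY.trans sdiff_subset
        have hYz : ∀ v ∈ Y, v ∉ B z := fun v hv hvz =>
          (mem_sdiff.1 (hY hv)).2 (mem_biUnion.2 ⟨z, hz, hvz⟩)
        have hYW : Y ⊆ Q \ (B z ∩ Q) := fun v hv =>
          mem_sdiff.2 ⟨hYQ hv, fun h => hYz v hv (mem_inter.1 h).1⟩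
        obtain ⟨v0, hv0⟩ := hKY.nonempty
        have hv0F : v0 ∈ F.biUnion id := by
          rw [hF3]
          exact hYW hv0
        obtain ⟨C, hC, hv0C⟩ := mem_biUnion.1 hv0F
        have hYC : Y ⊆ C := hKY.sub_closed (hr.mono hYQ) hYW (hF1 C hC).2.1
          ⟨v0, mem_inter.2 ⟨hv0C, hv0⟩⟩
        have h2 := (hR C hC _ (hpart C hC)).2.1 (kap_pos fun hfree => hfree Y (fun v hv => by
          rw [sdiff_filter_biUnion, mem_sdiff]
          refine ⟨hYC hv, fun hvU => ?_⟩
          obtain ⟨i, hi, hvi⟩ := mem_biUnion.1 hvU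
          exact (mem_sdiff.1 (hY hv)).2 (mem_biUnion.2 ⟨i, hP'sub hi, hvi⟩)) hKY)
        have h3 := hall h1 C hC
        rw [h3] at h2
        omega
      · have h1 : R1 B Q Pk ≤ -1 := heq.le
        have h2 := hFSp h1
        have hall' := hall h1
        have h3 : ∑ C ∈ F, R1 B C (P'.filter (fun i => (B i ∩ C).Nonempty)) = -(F.card : ℤ) := by
          rw [sum_congr rfl hall', sum_const, nsmul_eq_mul]
          ring
        have e1 : (2 : ℤ) ≤ F.card := by linarith
        have h4 : F.card = 2 := by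
          have : 2 ≤ F.card := by exact_mod_cast e1
          omega
        obtain ⟨C, D, hCD, hF⟩ := card_eq_two.1 h4
        have hC : C ∈ F := by rw [hF]; simp
        have hD : D ∈ F := by rw [hF]; simp
        obtain ⟨s1, m1⟩ := (hR C hC _ (hpart C hC)).2.2 (hall' C hC)
        obtain ⟨s2, m2⟩ := (hR D hD _ (hpart D hD)).2.2 (hall' D hD)
        have hrF := rho_biUnion hFcov hF2
        have hcF := card_biUnion_sepF hF2
        have hsum2 : ∀ g : Finset V → ℤ, ∑ E ∈ F, g E = g C + g D := fun g => by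
          rw [hF, sum_pair hCD]
        have hsum3 : ∀ g : Finset V → ℕ, ∑ E ∈ F, g E = g C + g D := fun g => by
          rw [hF, sum_pair hCD]
        rw [hF3, hsum3] at hrF hcF
        rw [hsum2] at h3 hval0
        rw [hsum2, hsum2, hsum2, hsum2] at h8
        rw [hsum2] at c5 c3
        rw [h4] at h3
        have h5 := card_sdiff_add_card_eq_card hZQ
        have e2 : (rho B Q : ℤ) = rho B (Q \ (B z ∩ Q)) + 1 := by
          have : rho B Q = rho B (Q \ (B z ∩ Q)) + 1 := by
            by_contra hne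
            have h6 : rho B Q ≤ rho B (Q \ (B z ∩ Q)) := by omega
            have h7 : (rho B Q : ℤ) ≤ rho B (Q \ (B z ∩ Q)) := by exact_mod_cast h6
            push_cast at h3
            linarith
          exact_mod_cast this
        have e3 : ((P'.filter (fun i => (B i ∩ C).Nonempty)).card : ℤ) +
            (P'.filter (fun i => (B i ∩ D).Nonempty)).card = P'.card := by
          push_cast at h3
          linarith
        have e4 : (P'.filter (fun i => (B i ∩ C).Nonempty)).card +
            (P'.filter (fun i => (B i ∩ D).Nonempty)).card = P'.card := by exact_mod_cast e3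
        unfold sv at s1 s2 ⊢
        constructor
        · have f1 : (rho B (Q \ (B z ∩ Q)) : ℤ) = rho B C + rho B D := by exact_mod_cast hrF
          have f2 : ((Q \ (B z ∩ Q)).card : ℤ) = C.card + D.card := by exact_mod_cast hcF
          have f3 : ((Q \ (B z ∩ Q)).card : ℤ) + 4 = Q.card := by
            rw [← h5, hz4]
            push_cast
            ring
          rw [e2, f1, ← f3, f2, ← c6, ← e3]
          linarith
        · omega

end Pool.Agent.Hyp6
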