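import Pool.Agent.Hyp6.L4T

/-!
# HYP6 L4U: two components and the K-free level-4 theorem
-/

set_option autoImplicit false

namespace Pool.Agent.Hyp6

open Finset Pool.Agent.Hyp5

universe u v

variable {V : Type v} [DecidableEq V] {ι : Type u} [Fintype ι] {B : ι → Finset V}
variable {Q Z : Finset V} {F : Finset (Finset V)} {i0 : ι}

/-- the last case: the component `D` has one block to three points of `Z`, four to the last point. -/
theorem Ct.last (h : Ct B Q Z F i0) {C D : Finset V} (hF : F = {C, D}) (hCD : C ≠ D)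
    {a b c d : V} (h4 : Four Z a b c d) (ha : 1 ≤ (Ez B C a).card) (hd : Abz B D {d}) {β : ι}
    (hβ : ∀ x ∈ ({a, b, c} : Finset V), ∀ i ∈ Ez B D x, i = β) : False := by
  classical
  have hC : C ∈ F := by rw [hF]; simp
  have hD : D ∈ F := by rw [hF]; simp
  have hsum := h.un
  rw [hF, biUnion_insert, singleton_biUnion] at hsum
  simp only [id] at hsum
  have habc : ({a, b, c} : Finset V) ⊆ Z := by
    intro x hx
    simp only [mem_insert, mem_singleton] at hx
    rcases hx with rfl | rfl | rfl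
    · exact h4.ma
    · exact h4.mb
    · exact h4.mc
  set M : Finset V := {a, b, c} ∪ C with hM
  have hMQ : M ⊆ Q := union_subset (habc.trans h.ZQ) (h.cp hC).sub
  have hDQ : D ⊆ Q := (h.cp hD).sub
  have hdM : d ∉ M := by
    rw [hM, mem_union]
    rintro (h1 | h1)
    · simp only [mem_insert, mem_singleton] at h1
      rcases h1 with h1 | h1 | h1
      · exact h4.ad h1.symm
      · exact h4.bd h1.symm
      · exact h4.cd h1.symm
    · exact h.notMem hC h4.md h1
  have hMD : Disjoint M D := by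
    rw [hM, disjoint_union_left]
    refine ⟨?_, (h.sep C hC D hD hCD).1⟩
    rw [disjoint_left]
    intro x hx hxD
    exact h.notMem hD (habc hx) hxD
  have hQ : Q = (M ∪ D) ∪ {d} := by
    ext v
    constructor
    · intro hv
      by_cases hvZ : v ∈ Z
      · rcases h4.cov v hvZ with rfl | rfl | rfl | rfl
        · simp [hM]
        · simp [hM]
        · simp [hM]
        · simp
      · have h1 : v ∈ C ∪ D := by
          rw [hsum]
          exact mem_sdiff.2 ⟨hv, hvZ⟩
        rcases mem_union.1 h1 with h2 | h2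
        · exact mem_union_left _ (mem_union_left _ (mem_union_right _ h2))
        · exact mem_union_left _ (mem_union_right _ h2)
    · intro hv
      rcases mem_union.1 hv with h1 | h1
      · rcases mem_union.1 h1 with h2 | h2
        · exact hMQ h2
        · exact hDQ h2
      · rw [mem_singleton] at h1
        rw [h1]
        exact h.ZQ h4.md
  have hcard : Q.card = M.card + D.card + 1 := by
    conv_lhs => rw [hQ]
    rw [card_union_of_disjoint, card_union_of_disjoint hMD, card_singleton]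
    rw [disjoint_singleton_right, mem_union]
    rintro (h1 | h1)
    · exact hdM h1
    · exact h.notMem hD h4.md h1
  have hconn : Conn (gr B) M := by
    refine ⟨⟨a, by simp [hM]⟩, fun S hS hne => ?_⟩
    have hcomp : (S ∩ C).Nonempty → C ⊆ S := by
      intro hSC
      have h1 : Closed (gr B) C (S ∩ C) := by
        refine ⟨inter_subset_right, fun x hx y hy hxy => ?_⟩
        rw [mem_inter] at hx ⊢
        exact ⟨hS.2 x hx.1 y (mem_union_right _ hy) hxy, hy⟩
      rw [← (h.parts C hC).2.2.2 _ h1 hSC]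
      exact inter_subset_left
    obtain ⟨i, hi⟩ := card_pos.1 ha
    obtain ⟨hi1, u, hu⟩ := mem_Ez.1 hi
    rw [mem_inter] at hu
    have hadj : (gr B).Adj a u := by
      refine ⟨?_, i, hi1, hu.1⟩
      rintro rfl
      exact h.notMem hC h4.ma hu.2
    have haM : a ∈ M := by simp [hM]
    have hclq : ∀ x ∈ ({a, b, c} : Finset V), x ∈ S → ({a, b, c} : Finset V) ⊆ S := by
      intro x hx hxS y hy
      by_cases hxy : x = y
      · rw [← hxy]
        exact hxS
      · exact hS.2 x hxS y (mem_union_left _ hy)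
          ⟨hxy, i0, h.i0_mem (habc hx), h.i0_mem (habc hy)⟩
    have haS : a ∈ S := by
      obtain ⟨s, hs⟩ := hne
      rcases mem_union.1 (hS.1 hs) with h1 | h1
      · exact hclq s h1 hs (by simp)
      · exact hS.2 u (hcomp ⟨s, mem_inter.2 ⟨hs, h1⟩⟩ hu.2) a haM hadj.symm
    refine Subset.antisymm hS.1 fun v hv => ?_
    rcases mem_union.1 hv with h1 | h1
    · exact hclq a (by simp) haS h1
    · have h2 : u ∈ S := hS.2 a haS u (mem_union_right _ hu.2) hadj
      exact hcomp ⟨u, mem_inter.2 ⟨h2, hu.2⟩⟩ h1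
  have hPM := h.ih ι B M (by omega) (h.reg.mono hMQ) (h.tr.mono hMQ) hconn
    (h.kf.mono hMQ)
  have hPD : -1 ≤ dv B Q D := (h.cp hD).d_ge
  have heZ : ee B Q Z = 0 := by
    have h1 := h.ee_Z
    have h2 := h.summary.1
    omega
  have hee := h.ee_split
  rw [hF, sum_pair hCD, heZ] at hee
  have heM : ee B Q C ≤ ee B M M :=
    (ee_mono subset_union_right).trans (ee_le_ee (Subset.refl _) hMQ)
  have hcx : cx B M D ≤ 1 := by
    refine (card_le_card (t := {β}) fun i hi => ?_).trans (by simp)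
    rw [mem_cxs] at hi
    obtain ⟨⟨x, hx⟩, hiD⟩ := hi
    rw [mem_inter] at hx
    rw [mem_singleton]
    rcases mem_union.1 hx.2 with h1 | h1
    · exact hβ x h1 i (mem_Ez.2 ⟨hx.1, hiD⟩)
    · exact absurd hiD (fun h2 =>
        (h.sep C hC D hD hCD).2 i ⟨x, mem_inter.2 ⟨hx.1, h1⟩⟩ h2)
  have hcm : cm B M + cm B D ≤ cm B Q + 1 := by
    have h1 := cm_union (B := B) M D
    have h2 : cm B (M ∪ D) ≤ cm B Q := cm_mono (union_subset hMQ hDQ)
    omega
  have hrho : rho B Q ≤ rho B M + rho B D := by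
    obtain ⟨T, hT, hTc⟩ := hd
    obtain ⟨T', hT', hTc'⟩ := exists_cover (h.cov.mono hMQ)
    rw [← hTc']
    refine (Hyp6.rho_le (T := T' ∪ T) ?_).trans
      ((card_union_le _ _).trans (Nat.add_le_add_left hTc _))
    rw [hQ, union_biUnion, union_assoc]
    exact union_subset_union hT' hT
  have e1 := Hyp6.Pv_eq (B := B) Q
  have e2 := Hyp6.Pv_eq (B := B) M
  have e3 := Hyp6.Pv_eq (B := B) D
  have h1 := h.neg
  unfold dv at h1 hPD
  have c6 : (ee B Q Q : ℤ) = ee B Q C + ee B Q D := by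
    rw [hee]
    push_cast
    ring
  have c7 : (ee B Q C : ℤ) ≤ ee B M M := by exact_mod_cast heM
  have c1 : (Q.card : ℤ) = M.card + D.card + 1 := by exact_mod_cast hcard
  have c2 : (cm B M : ℤ) + cm B D ≤ cm B Q + 1 := by exact_mod_cast hcm
  have c3 : (rho B Q : ℤ) ≤ rho B M + rho B D := by exact_mod_cast hrho
  linarith

/-- a block meeting `D` and containing two points of `Z` absorbs both. -/
theorem Ct.blk2 (h : Ct B Q Z F i0) {D : Finset V} (hD : D ∈ F) {i : ι} (hi : (B i ∩ D).Nonempty)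
    {S : Finset V} (hSZ : S ⊆ Z) (hSne : S.Nonempty) (hS : S ⊆ B i) : Abz B D S := by
  obtain ⟨z, hz⟩ := hSne
  obtain ⟨T, h1, h2, h3⟩ := (h.cp hD).blk (by have := h.summary.2.2.1 D hD; linarith) hi (hS hz)
    (h.ZQ (hSZ hz)) (h.notMem hD (hSZ hz))
  exact ⟨T, union_subset h1 fun x hx => mem_biUnion.2 ⟨i, h3, hS hx⟩, h2⟩

/-- three points of `Z` with three blocks to `C`. -/
theorem Ct.core (h : Ct B Q Z F i0) {C D : Finset V} (hF : F = {C, D}) (hCD : C ≠ D)
    (hPC : dv B Q C ≤ -1) {a b c d : V} (h4 : Four Z a b c d)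
    (ha : 3 ≤ (Ez B C a).card) (hb : 3 ≤ (Ez B C b).card) (hc : 3 ≤ (Ez B C c).card) : False := by
  classical
  obtain ⟨hbi, _, hd0, _⟩ := h.summary
  have hC : C ∈ F := by rw [hF]; simp
  have hD : D ∈ F := by rw [hF]; simp
  have hrow : ∀ z ∈ Z, (Ez B C z).card + (Ez B D z).card = 4 := by
    intro z hz
    have h5 := h.row_eq hbi hz
    rw [hF, sum_pair hCD] at h5
    exact h5
  have ra := hrow a h4.ma
  have rb := hrow b h4.mb
  have rc := hrow c h4.mc
  have rd := hrow d h4.md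
  have hpt3 : ∀ x y z : V, x ∈ Z → y ∈ Z → z ∈ Z → x ≠ y → x ≠ z → y ≠ z →
      4 ≤ (Ez B C x).card → 3 ≤ (Ez B C y).card → 3 ≤ (Ez B C z).card →
      Abz B C {x, y, z} := fun x y z hx hy hz hxy hxz hyz e1 e2 e3 =>
    (h.cp hC).pt3 hPC (h.ZQ hx) (h.notMem hC hx) (h.ZQ hy) (h.notMem hC hy) (h.ZQ hz)
      (h.notMem hC hz) hxy hxz hyz e1 e2 e3
  -- the fourth point is adjacent to `D`
  have hdD : 1 ≤ (Ez B D d).card := by
    by_contra hcon
    have s1 := h.sup hD h4.rot.rot.rot
    rcases (by omega : 1 ≤ (Ez B D a).card ∨ 1 ≤ (Ez B D b).card ∨ 1 ≤ (Ez B D c).card) with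
      t | t | t
    · refine h.assign2 hF hCD (hpt3 d b c h4.md h4.mb h4.mc h4.bd.symm h4.cd.symm h4.bc
        (by omega) hb hc) (h.ab1 hD h4.ma t) fun z hz => ?_
      rcases h4.cov z hz with rfl | rfl | rfl | rfl <;> simp
    · refine h.assign2 hF hCD (hpt3 d a c h4.md h4.ma h4.mc h4.ad.symm h4.cd.symm h4.ac
        (by omega) ha hc) (h.ab1 hD h4.mb t) fun z hz => ?_
      rcases h4.cov z hz with rfl | rfl | rfl | rfl <;> simp
    · refine h.assign2 hF hCD (hpt3 d a b h4.md h4.ma h4.mb h4.ad.symm h4.bd.symm h4.ab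
        (by omega) ha hb) (h.ab1 hD h4.mc t) fun z hz => ?_
      rcases h4.cov z hz with rfl | rfl | rfl | rfl <;> simp
  have hd1 := h.ab1 hD h4.md hdD
  have ea : (Ez B C a).card = 3 := by
    by_contra hcon
    refine h.assign2 hF hCD (hpt3 a b c h4.ma h4.mb h4.mc h4.ab h4.ac h4.bc
        (by omega) hb hc) hd1 fun z hz => ?_
    rcases h4.cov z hz with rfl | rfl | rfl | rfl <;> simp
  have eb : (Ez B C b).card = 3 := by
    by_contra hcon
    refine h.assign2 hF hCD (hpt3 b a c h4.mb h4.ma h4.mc h4.ab.symm h4.bc h4.ac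
        (by omega) ha hc) hd1 fun z hz => ?_
    rcases h4.cov z hz with rfl | rfl | rfl | rfl <;> simp
  have ec : (Ez B C c).card = 3 := by
    by_contra hcon
    refine h.assign2 hF hCD (hpt3 c a b h4.mc h4.ma h4.mb h4.ac.symm h4.bc.symm h4.ab
        (by omega) ha hb) hd1 fun z hz => ?_
    rcases h4.cov z hz with rfl | rfl | rfl | rfl <;> simp
  obtain ⟨Ba, hBa⟩ := card_eq_one.1 (by omega : (Ez B D a).card = 1)
  obtain ⟨Bb, hBb⟩ := card_eq_one.1 (by omega : (Ez B D b).card = 1)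
  obtain ⟨Bc, hBc⟩ := card_eq_one.1 (by omega : (Ez B D c).card = 1)
  have mBa : Ba ∈ Ez B D a := by rw [hBa]; exact mem_singleton_self _
  have mBb : Bb ∈ Ez B D b := by rw [hBb]; exact mem_singleton_self _
  have mBc : Bc ∈ Ez B D c := by rw [hBc]; exact mem_singleton_self _
  rw [mem_Ez] at mBa mBb mBc
  have hs0 : ∀ i, ∀ x ∈ Z, x ∈ B i → (B i ∩ D).Nonempty → 2 ≤ (B i ∩ Q).card :=
    fun i x hx hxi hi => two_le_of (h.cp hD).sub hi hxi (h.ZQ hx) (h.notMem hD hx)
  have hs1 : ∀ i, ∀ x ∈ Z, x ∈ B i → (B i ∩ D).card ≤ 3 := by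
    intro i x hx hxi
    have h5 := (h.cp hD).size (Y := {x}) (singleton_subset_iff.2 (h.ZQ hx))
      (disjoint_singleton_right.2 (h.notMem hD hx)) i
    have h6 : (({x} : Finset V).filter (fun y => y ∈ B i)) = {x} := by
      rw [filter_eq_self]
      intro y hy
      rw [mem_singleton] at hy
      rw [hy]
      exact hxi
    rw [h6, card_singleton] at h5
    omega
  have hs2 : ∀ i, ∀ x ∈ Z, ∀ y ∈ Z, x ≠ y → x ∈ B i → y ∈ B i → (B i ∩ D).card ≤ 2 := by
    intro i x hx y hy hxy hxi hyi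
    have h5 := (h.cp hD).size (Y := {x, y})
      (by
        intro v hv
        rw [mem_insert, mem_singleton] at hv
        rcases hv with rfl | rfl
        · exact h.ZQ hx
        · exact h.ZQ hy)
      (by
        rw [disjoint_right]
        intro v hv
        rw [mem_insert, mem_singleton] at hv
        rcases hv with rfl | rfl
        · exact h.notMem hD hx
        · exact h.notMem hD hy) i
    have h6 : (({x, y} : Finset V).filter (fun y => y ∈ B i)) = {x, y} := by
      rw [filter_eq_self]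
      intro v hv
      rw [mem_insert, mem_singleton] at hv
      rcases hv with rfl | rfl
      · exact hxi
      · exact hyi
    rw [h6, card_pair hxy] at h5
    omega
  have mk2 : ∀ (T : Finset ι), D ⊆ T.biUnion B → T.card ≤ rho B D → ∀ i ∈ T, ∀ j ∈ T, ∀ x y : V,
      x ∈ B i → y ∈ B j → Abz B D {x, y} := by
    intro T h1 h2 i hi j hj x y hx hy
    refine ⟨T, union_subset h1 fun v hv => ?_, h2⟩
    rw [mem_insert, mem_singleton] at hv
    rcases hv with rfl | rfl
    · exact mem_biUnion.2 ⟨i, hi, hx⟩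
    · exact mem_biUnion.2 ⟨j, hj, hy⟩
  by_cases hd2 : (Ez B D d).card ≤ 2
  · -- `C` absorbs every pair
    have hall : ∀ z ∈ Z, 2 ≤ (Ez B C z).card := by
      intro z hz
      rcases h4.cov z hz with rfl | rfl | rfl | rfl <;> omega
    have hno : ∀ x ∈ Z, ∀ y ∈ Z, x ≠ y → ¬ Abz B D {x, y} := by
      intro x hx y hy hxy hab
      obtain ⟨x', y', h5⟩ := four_of h.cZ hx hy hxy
      refine h.assign2 hF hCD (h.ab2 hC h5.mc h5.md h5.cd (hall _ h5.mc) (hall _ h5.md)) hab
        fun z hz => ?_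
      rcases h5.cov z hz with rfl | rfl | rfl | rfl <;> simp
    have hblk : ∀ i, (B i ∩ D).Nonempty → ∀ x ∈ Z, ∀ y ∈ Z, x ≠ y → x ∈ B i → y ∈ B i →
        False := by
      intro i hi x hx y hy hxy hxi hyi
      refine hno x hx y hy hxy (h.blk2 hD hi ?_ (insert_nonempty _ _) ?_)
      · intro v hv
        rw [mem_insert, mem_singleton] at hv
        rcases hv with rfl | rfl
        · exact hx
        · exact hy
      · intro v hv
        rw [mem_insert, mem_singleton] at hv
        rcases hv with rfl | rfl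
        · exact hxi
        · exact hyi
    obtain ⟨i4, hi4⟩ := card_pos.1 hdD
    rw [mem_Ez] at hi4
    obtain ⟨T, hT1, hT2, hT3, hT4⟩ := (h.cp hD).lab2 (hd0 D hD) (h.notMem hD h4.ma)
      (h.notMem hD h4.mb) h4.ab (i1 := Ba) (i2 := i4) (j1 := Bb) (j2 := Bc)
      (fun he => hblk Ba mBa.2 a h4.ma d h4.md h4.ad mBa.1 (he ▸ hi4.1))
      (fun he => hblk Bb mBb.2 b h4.mb c h4.mc h4.bc mBb.1 (he ▸ mBc.1))
      mBa.2 hi4.2 mBb.2 mBc.2
      (by
        rintro i (rfl | rfl | rfl | rfl)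
        · exact hs0 _ a h4.ma mBa.1 mBa.2
        · exact hs0 _ d h4.md hi4.1 hi4.2
        · exact hs0 _ b h4.mb mBb.1 mBb.2
        · exact hs0 _ c h4.mc mBc.1 mBc.2)
      (by
        rintro i (rfl | rfl | rfl | rfl)
        · exact hs1 _ a h4.ma mBa.1
        · exact hs1 _ d h4.md hi4.1
        · exact hs1 _ b h4.mb mBb.1
        · exact hs1 _ c h4.mc mBc.1)
      (by
        rintro i (rfl | rfl) (hj | hj)
        · exact hs2 _ a h4.ma b h4.mb h4.ab mBa.1 (hj ▸ mBb.1)
        · exact hs2 _ a h4.ma c h4.mc h4.ac mBa.1 (hj ▸ mBc.1)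
        · exact hs2 _ d h4.md b h4.mb h4.bd.symm hi4.1 (hj ▸ mBb.1)
        · exact hs2 _ d h4.md c h4.mc h4.cd.symm hi4.1 (hj ▸ mBc.1))
    rcases hT3 with hT3 | hT3
    · rcases hT4 with hT4 | hT4
      · exact hno a h4.ma b h4.mb h4.ab (mk2 T hT1 hT2 _ hT3 _ hT4 a b mBa.1 mBb.1)
      · exact hno a h4.ma c h4.mc h4.ac (mk2 T hT1 hT2 _ hT3 _ hT4 a c mBa.1 mBc.1)
    · rcases hT4 with hT4 | hT4
      · exact hno d h4.md b h4.mb h4.bd.symm (mk2 T hT1 hT2 _ hT3 _ hT4 d b hi4.1 mBb.1)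
      · exact hno d h4.md c h4.mc h4.cd.symm (mk2 T hT1 hT2 _ hT3 _ hT4 d c hi4.1 mBc.1)
  · -- `C` absorbs the pairs in `{a, b, c}`
    have na : ¬ Abz B D {d, a} := by
      intro hab
      refine h.assign2 hF hCD (h.ab2 hC h4.mb h4.mc h4.bc (by omega) (by omega)) hab
        fun z hz => ?_
      rcases h4.cov z hz with rfl | rfl | rfl | rfl <;> simp
    have nb : ¬ Abz B D {d, b} := by
      intro hab
      refine h.assign2 hF hCD (h.ab2 hC h4.ma h4.mc h4.ac (by omega) (by omega)) hab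
        fun z hz => ?_
      rcases h4.cov z hz with rfl | rfl | rfl | rfl <;> simp
    have nc : ¬ Abz B D {d, c} := by
      intro hab
      refine h.assign2 hF hCD (h.ab2 hC h4.ma h4.mb h4.ab (by omega) (by omega)) hab
        fun z hz => ?_
      rcases h4.cov z hz with rfl | rfl | rfl | rfl <;> simp
    obtain ⟨j1, hj1, j2, hj2, hj⟩ := one_lt_card.1 (by omega : 1 < (Ez B D d).card)
    rw [mem_Ez] at hj1 hj2
    have hEq : ∀ x y : V, x ∈ Z → y ∈ Z → x ≠ d → y ≠ d → ¬ Abz B D {d, x} → ¬ Abz B D {d, y} →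
        ∀ i j : ι, x ∈ B i → (B i ∩ D).Nonempty → y ∈ B j → (B j ∩ D).Nonempty → i = j := by
      intro x y hx hy hxd hyd nx ny i j hxi hiD hyj hjD
      by_contra hij
      obtain ⟨T, hT1, hT2, hT3, hT4⟩ := (h.cp hD).lab2 (hd0 D hD) (h.notMem hD h4.md)
        (h.notMem hD hx) hxd.symm hj hij hj1.2 hj2.2 hiD hjD
        (by
          rintro k (rfl | rfl | rfl | rfl)
          · exact hs0 _ d h4.md hj1.1 hj1.2
          · exact hs0 _ d h4.md hj2.1 hj2.2
          · exact hs0 _ x hx hxi hiD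
          · exact hs0 _ y hy hyj hjD)
        (by
          rintro k (rfl | rfl | rfl | rfl)
          · exact hs1 _ d h4.md hj1.1
          · exact hs1 _ d h4.md hj2.1
          · exact hs1 _ x hx hxi
          · exact hs1 _ y hy hyj)
        (by
          rintro k (rfl | rfl) (hk | hk)
          · exact hs2 _ d h4.md x hx hxd.symm hj1.1 (hk ▸ hxi)
          · exact hs2 _ d h4.md y hy hyd.symm hj1.1 (hk ▸ hyj)
          · exact hs2 _ d h4.md x hx hxd.symm hj2.1 (hk ▸ hxi)
          · exact hs2 _ d h4.md y hy hyd.symm hj2.1 (hk ▸ hyj))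
      rcases hT3 with hT3 | hT3
      · rcases hT4 with hT4 | hT4
        · exact nx (mk2 T hT1 hT2 _ hT3 _ hT4 d x hj1.1 hxi)
        · exact ny (mk2 T hT1 hT2 _ hT3 _ hT4 d y hj1.1 hyj)
      · rcases hT4 with hT4 | hT4
        · exact nx (mk2 T hT1 hT2 _ hT3 _ hT4 d x hj2.1 hxi)
        · exact ny (mk2 T hT1 hT2 _ hT3 _ hT4 d y hj2.1 hyj)
    have hab := hEq a b h4.ma h4.mb h4.ad h4.bd na nb Ba Bb mBa.1 mBa.2 mBb.1 mBb.2
    have hac := hEq a c h4.ma h4.mc h4.ad h4.cd na nc Ba Bc mBa.1 mBa.2 mBc.1 mBc.2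
    rw [← hab] at mBb hBb
    rw [← hac] at mBc hBc
    have habc : Abz B D {a, b, c} := by
      refine h.blk2 hD mBa.2 ?_ (insert_nonempty _ _) ?_
      · intro v hv
        simp only [mem_insert, mem_singleton] at hv
        rcases hv with rfl | rfl | rfl
        · exact h4.ma
        · exact h4.mb
        · exact h4.mc
      · intro v hv
        simp only [mem_insert, mem_singleton] at hv
        rcases hv with rfl | rfl | rfl
        · exact mBa.1
        · exact mBb.1
        · exact mBc.1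
    refine h.last hF hCD h4 (by omega) hd1 (β := Ba) fun x hx i hi => ?_
    simp only [mem_insert, mem_singleton] at hx
    rcases hx with rfl | rfl | rfl
    · rw [hBa] at hi
      exact mem_singleton.1 hi
    · rw [hBb] at hi
      exact mem_singleton.1 hi
    · rw [hBc] at hi
      exact mem_singleton.1 hi

theorem three_of {S : Finset V} (hc : Z.card = 4) (hS : S ⊆ Z) (h3 : 3 ≤ S.card) :
    ∃ a b c d, Four Z a b c d ∧ a ∈ S ∧ b ∈ S ∧ c ∈ S := by
  obtain ⟨S', hS', hc'⟩ := exists_subset_card_eq h3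
  obtain ⟨a, b, c, hab, hac, hbc, h1⟩ := card_eq_three.1 hc'
  have ha : a ∈ S := hS' (by rw [h1]; simp)
  have hb : b ∈ S := hS' (by rw [h1]; simp)
  have hcS : c ∈ S := hS' (by rw [h1]; simp)
  obtain ⟨x, y, h4⟩ := four_of hc (hS ha) (hS hb) hab
  rcases h4.cov c (hS hcS) with h5 | h5 | h5 | h5
  · exact absurd h5.symm hac
  · exact absurd h5.symm hbc
  · exact ⟨a, b, c, y, by rw [h5]; exact h4, ha, hb, hcS⟩
  · refine ⟨a, b, c, x, ?_, ha, hb, hcS⟩
    rw [h5]
    exact ⟨h4.ma, h4.mb, h4.md, h4.mc, h4.ab, h4.ad, h4.ac, h4.bd, h4.bc, h4.cd.symm,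
      fun z hz => by have := h4.cov z hz; tauto⟩

/-- two components. -/
theorem Ct.t2 (h : Ct B Q Z F i0) (h2 : F.card = 2) : False := by
  classical
  obtain ⟨hb, _, hd, hsum⟩ := h.summary
  obtain ⟨C, D, hCD, hF⟩ := card_eq_two.1 h2
  have hC : C ∈ F := by rw [hF]; simp
  have hD : D ∈ F := by rw [hF]; simp
  rw [hF, sum_pair hCD] at hsum
  have h3 := (h.cp hC).d_ge
  have h4 := (h.cp hD).d_ge
  have hrow : ∀ z ∈ Z, (Ez B C z).card + (Ez B D z).card = 4 := by
    intro z hz
    have h5 := h.row_eq hb hz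
    rw [hF, sum_pair hCD] at h5
    exact h5
  set L := Z.filter (fun z => 3 ≤ (Ez B C z).card) with hL
  set S := Z.filter (fun z => (Ez B C z).card ≤ 1) with hS
  by_cases hL3 : 3 ≤ L.card
  · obtain ⟨a, b, c, d, h5, ha, hb, hc⟩ := three_of h.cZ (filter_subset _ _) hL3
    exact h.core hF hCD (by linarith) h5 (mem_filter.1 ha).2 (mem_filter.1 hb).2
      (mem_filter.1 hc).2
  by_cases hS3 : 3 ≤ S.card
  · obtain ⟨a, b, c, d, h5, ha, hb, hc⟩ := three_of h.cZ (filter_subset _ _) hS3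
    have hF' : F = {D, C} := by rw [hF, pair_comm]
    have ra := hrow a h5.ma
    have rb := hrow b h5.mb
    have rc := hrow c h5.mc
    have ea := (mem_filter.1 ha).2
    have eb := (mem_filter.1 hb).2
    have ec := (mem_filter.1 hc).2
    exact h.core hF' hCD.symm (by linarith) h5 (by omega) (by omega) (by omega)
  have hsub : L ⊆ Z \ S := by
    intro z hz
    rw [hL, mem_filter] at hz
    rw [mem_sdiff, hS, mem_filter]
    exact ⟨hz.1, fun h6 => by have := h6.2; omega⟩
  have hc := card_sdiff_add_card_eq_card (filter_subset (fun z => (Ez B C z).card ≤ 1) Z)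
  rw [← hS, h.cZ] at hc
  obtain ⟨A, hA1, hA2, hA3⟩ := exists_subsuperset_card_eq hsub (n := 2) (by omega) (by omega)
  obtain ⟨a, b, hab, hA⟩ := card_eq_two.1 hA3
  have ha : a ∈ A := by rw [hA]; simp
  have hb' : b ∈ A := by rw [hA]; simp
  have hAZ : A ⊆ Z := hA2.trans sdiff_subset
  obtain ⟨c, d, h5⟩ := four_of h.cZ (hAZ ha) (hAZ hb') hab
  have hin : ∀ x ∈ A, 2 ≤ (Ez B C x).card := by
    intro x hx
    have h6 := hA2 hx
    rw [mem_sdiff, hS, mem_filter] at h6
    by_contra hcon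
    exact h6.2 ⟨h6.1, by omega⟩
  have hout : ∀ x ∈ Z, x ∉ A → 2 ≤ (Ez B D x).card := by
    intro x hx hxA
    have h6 := hrow x hx
    have h7 : x ∉ L := fun h8 => hxA (hA1 h8)
    rw [hL, mem_filter] at h7
    by_contra hcon
    exact h7 ⟨hx, by omega⟩
  have hcA : c ∉ A := by
    rw [hA, mem_insert, mem_singleton]
    rintro (h6 | h6)
    · exact h5.ac h6.symm
    · exact h5.bc h6.symm
  have hdA : d ∉ A := by
    rw [hA, mem_insert, mem_singleton]
    rintro (h6 | h6)
    · exact h5.ad h6.symm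
    · exact h5.bd h6.symm
  refine h.assign2 hF hCD (h.ab2 hC h5.ma h5.mb h5.ab (hin a ha) (hin b hb'))
    (h.ab2 hD h5.mc h5.md h5.cd (hout c h5.mc hcA) (hout d h5.md hdA)) fun z hz => ?_
  rcases h5.cov z hz with rfl | rfl | rfl | rfl <;> simp

theorem Ct.false (h : Ct B Q Z F i0) : False := by
  obtain ⟨_, h3, _, hsum⟩ := h.summary
  have h6 : ∑ C ∈ F, (-1 : ℤ) ≤ ∑ C ∈ F, dv B Q C :=
    sum_le_sum fun C hC => (h.cp hC).d_ge
  rw [sum_const, nsmul_eq_mul] at h6
  have h7 : (2 : ℤ) ≤ F.card := by linarith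
  have h8 : 2 ≤ F.card := by exact_mod_cast h7
  rcases (by omega : F.card = 2 ∨ F.card = 3) with h9 | h9
  · exact h.t2 h9
  · exact h.t3 h9

/-- the K-free level-4 theorem, with the term for the single traces. -/
theorem T0K (hL3 : L3e.{u} V) : ∀ n, IH4.{u} V n := by
  intro n
  induction n using Nat.strong_induction_on with
  | _ n ih =>
    intro κ _ B Q hn hr h4 hc hk
    by_cases h3 : Tr3 B Q
    · exact hL3 κ B Q hr h3 hc fun h => hk Q (Subset.refl _) ⟨h3, h⟩
    · unfold Tr3 at h3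
      push Not at h3
      obtain ⟨i0, hi0⟩ := h3
      by_contra hcon
      obtain ⟨F, hF1, hF2, hF3⟩ := exists_parts B (Q \ (B i0 ∩ Q))
      have hneg : dv B Q Q ≤ -2 := by
        unfold dv
        omega
      have hct : Ct B Q (B i0 ∩ Q) F i0 :=
        ⟨ih Q.card hn, hr, h4, hc, hk, hneg, rfl,
          le_antisymm (h4 i0) hi0, hF1, hF2, hF3⟩
      exact hct.false

/-- the K-free level-4 theorem for one set. -/
theorem T0e (hL3 : L3e.{u} V) {Q : Finset V} (hr : Reg B Q) (h4 : Tr4 B Q)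
    (hQ : Conn (gr B) Q) (hk : KFree B Q) : -1 + 2 * (ee B Q Q : ℤ) ≤ Pv B Q :=
  T0K hL3 (Q.card + 1) ι B Q (Nat.lt_succ_self _) hr h4 hQ hk

end Pool.Agent.Hyp6
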