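import Pool.Agent.Hyp6.Cnt2

/-!
# HYP6 L6: blocks of at least six points

The inequality `33 rho <= 7 c + 5 |U|` for all systems follows from the same inequality for the systems
with traces of at most five points. For those systems
`8 (7 c + 5 |U| - 33 rho) = V5 + 3 ex`, where `V5 = 55 |U| + 44 c - 3 n5 - 264 rho` and `ex` is the sum
of `4 - k` over the blocks with a trace of `k <= 4` points.
-/

set_option autoImplicit false

namespace Pool.Agent.Hyp6

open Finset Pool.Agent.Hyp5

variable {V : Type*} [DecidableEq V] {ι : Type*} [Fintype ι]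

/-- The value at level five: `55 |W| + 44 c(W) - 3 n5(W) - 264 rho(W)`. -/
noncomputable def V5 (B : ι → Finset V) (W : Finset V) : ℤ :=
  55 * (W.card : ℤ) + 44 * (cm B W : ℤ) - 3 * (nt B W 5 : ℤ) - 264 * (rho B W : ℤ)

/-- the sum of `4 - k` over the blocks with a nonempty trace of `k <= 4` points. -/
def ex (B : ι → Finset V) (W : Finset V) : ℕ := ∑ i ∈ tch B W, (4 - (B i ∩ W).card)

/-- The value at levels three and four: `12 S(W) + G(W) = 5 |W| + 4 c(W) - 24 rho(W)`. -/
noncomputable def Pv (B : ι → Finset V) (W : Finset V) : ℤ := 12 * sv B W + G B W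

variable {B : ι → Finset V}

theorem Pv_eq (W : Finset V) :
    Pv B W = 5 * (W.card : ℤ) + 4 * (cm B W : ℤ) - 24 * (rho B W : ℤ) := by
  unfold Pv sv G
  ring

theorem V5_eq (W : Finset V) : V5 B W = 11 * Pv B W - 3 * (nt B W 5 : ℤ) := by
  rw [Pv_eq]
  unfold V5
  ring

/-- incidences in a system with traces of at most five points. -/
theorem inc_le5 {W : Finset V} (hr : Reg B W) (h5 : ∀ i, (B i ∩ W).card ≤ 5) :
    5 * W.card ≤ 4 * cm B W + nt B W 5 := by
  rw [← sum_inc hr]
  have h1 : ∀ i, (B i ∩ W).card ≤ 4 * (if (B i ∩ W).Nonempty then 1 else 0) +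
      (if (B i ∩ W).card = 5 then 1 else 0) := by
    intro i
    have h2 := h5 i
    by_cases h3 : (B i ∩ W).Nonempty
    · rw [if_pos h3]
      split_ifs <;> omega
    · rw [if_neg h3]
      rw [not_nonempty_iff_eq_empty, ← card_eq_zero] at h3
      omega
  refine (sum_le_sum fun i _ => h1 i).trans ?_
  rw [sum_add_distrib, ← mul_sum]
  unfold cm nt tch trs
  rw [card_filter, card_filter]

/-- deleting the trace of a block lowers the number of blocks. -/
theorem cm_sdiff_block {W : Finset V} {i : ι} (h : (B i ∩ W).Nonempty) :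
    cm B (W \ B i) + 1 ≤ cm B W := by
  classical
  have h1 : tch B (W \ B i) ⊆ (tch B W).erase i := by
    intro j hj
    rw [cost_mem_tch] at hj
    rw [mem_erase, cost_mem_tch]
    constructor
    · rintro rfl
      obtain ⟨v, hv⟩ := hj
      rw [mem_inter, mem_sdiff] at hv
      exact hv.2.2 hv.1
    · exact hj.mono (inter_subset_inter_left sdiff_subset)
  have h2 := card_le_card h1
  have h3 : ((tch B W).erase i).card + 1 = (tch B W).card :=
    card_erase_add_one (cost_mem_tch.2 h)
  unfold cm
  omega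

theorem card_sdiff_block (W : Finset V) (i : ι) :
    (W \ B i).card + (B i ∩ W).card = W.card := by
  rw [inter_comm]
  exact card_sdiff_add_card_inter W (B i)

theorem rho_le_sdiff_block {W : Finset V} (i : ι) (hc : Cov B W) :
    rho B W ≤ rho B (W \ B i) + 1 := by
  have h1 : W \ B i = W \ (B i ∩ W) := by
    ext v
    simp only [mem_sdiff, mem_inter]
    tauto
  rw [h1]
  exact rho_le_sdiff (i := i) inter_subset_left hc

/-- the value `7 c + 5 |W| - 33 rho` and the value `V5`. -/
theorem V5_ex {W : Finset V} (hr : Reg B W) (h5 : ∀ i, (B i ∩ W).card ≤ 5) :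
    8 * (7 * (cm B W : ℤ) + 5 * (W.card : ℤ) - 33 * (rho B W : ℤ)) =
      V5 B W + 3 * (ex B W : ℤ) := by
  have h0 := sum_inc hr
  have h1 : ∀ i, (4 : ℤ) * (if (B i ∩ W).Nonempty then 1 else 0) +
      (if (B i ∩ W).card = 5 then 1 else 0) =
      ((B i ∩ W).card : ℤ) + (if (B i ∩ W).Nonempty then ((4 - (B i ∩ W).card : ℕ) : ℤ) else 0) := by
    intro i
    have h2 := h5 i
    by_cases h3 : (B i ∩ W).Nonempty
    · rw [if_pos h3, if_pos h3]
      split_ifs <;> omega
    · rw [if_neg h3, if_neg h3]
      rw [not_nonempty_iff_eq_empty, ← card_eq_zero] at h3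
      rw [h3]
      norm_num
  have h2 : (4 : ℤ) * (cm B W : ℤ) + (nt B W 5 : ℤ) = 5 * (W.card : ℤ) + (ex B W : ℤ) := by
    have h3 : ((∑ i, (B i ∩ W).card : ℕ) : ℤ) = 5 * (W.card : ℤ) := by exact_mod_cast h0
    rw [← h3]
    unfold cm nt tch trs ex tch
    rw [card_filter, card_filter, sum_filter]
    push_cast
    rw [mul_sum, ← sum_add_distrib, ← sum_add_distrib]
    exact sum_congr rfl fun i _ => by
      have := h1 i
      push_cast at this ⊢
      exact this
  unfold V5
  linarith

/-- **L6.** -/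
theorem all_of_five
    (h : ∀ W : Finset V, Reg B W → (∀ i, (B i ∩ W).card ≤ 5) →
      33 * rho B W ≤ 7 * cm B W + 5 * W.card) :
    ∀ W : Finset V, Reg B W → 33 * rho B W ≤ 7 * cm B W + 5 * W.card := by
  intro W
  induction hn : W.card using Nat.strong_induction_on generalizing W with
  | _ n ih =>
  intro hr
  subst hn
  by_cases h5 : ∀ i, (B i ∩ W).card ≤ 5
  · exact h W hr h5
  · push Not at h5
    obtain ⟨i, hi⟩ := h5
    have h1 := card_sdiff_block (B := B) W i
    have hr' : Reg B (W \ B i) := hr.mono sdiff_subset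
    have h2 := ih (W \ B i).card (by omega) (W \ B i) rfl hr'
    have h3 := rho_le_sdiff_block i (cov_of_reg hr)
    have h4 : cm B (W \ B i) + 1 ≤ cm B W :=
      cm_sdiff_block (card_pos.1 (by omega))
    omega

end Pool.Agent.Hyp6
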