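import Pool.Agent.Hyp6.KP2

/-!
# HYP6 OV1: two K-pieces meeting in one point

`One B U X Y w`: blocks with at most five points in `U`, two K-pieces `X`, `Y` with `X ∩ Y = {w}`.
`Alt B U X Y w Z`: a further K-piece `Z` meeting both and avoiding a block through `w`.
`One.absurd`: not every block through `w` is avoided by such a K-piece.
-/

set_option autoImplicit false

namespace Pool.Agent.Hyp6

open Finset Pool.Agent.Hyp5

universe u v

variable {V : Type v} [DecidableEq V] {ι : Type u} [Fintype ι] {B : ι → Finset V}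
  {U X Y Z : Finset V} {w : V}

/-- two K-pieces with one common point. -/
structure One (B : ι → Finset V) (U X Y : Finset V) (w : V) : Prop where
  reg : Reg B U
  five : ∀ i, (B i ∩ U).card ≤ 5
  sx : X ⊆ U
  sy : Y ⊆ U
  kx : KP B X
  ky : KP B Y
  int : X ∩ Y = {w}

/-- a K-piece meeting `X` and `Y` and avoiding a block through `w`. -/
structure Alt (B : ι → Finset V) (U X Y : Finset V) (w : V) (Z : Finset V) : Prop where
  kz : KP B Z
  sz : Z ⊆ U
  ax : (X ∩ Z).Nonempty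
  ay : (Y ∩ Z).Nonempty
  c : ∃ i, w ∈ B i ∧ Disjoint (B i) Z

/-- the blocks through `w` meeting `Z`. -/
def Mw (B : ι → Finset V) (w : V) (Z : Finset V) : Finset ι :=
  univ.filter (fun i => w ∈ B i ∧ (B i ∩ Z).Nonempty)

theorem mem_Mw {i : ι} : i ∈ Mw B w Z ↔ w ∈ B i ∧ (B i ∩ Z).Nonempty := by
  unfold Mw
  rw [mem_filter]
  simp

theorem Alt.symm (a : Alt B U X Y w Z) : Alt B U Y X w Z := ⟨a.kz, a.sz, a.ay, a.ax, a.c⟩

theorem Alt.nw (a : Alt B U X Y w Z) : w ∉ Z := by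
  obtain ⟨i, h1, h2⟩ := a.c
  exact fun h => Finset.disjoint_left.1 h2 h1 h

namespace One

theorem symm (h : One B U X Y w) : One B U Y X w :=
  ⟨h.reg, h.five, h.sy, h.sx, h.ky, h.kx, by rw [inter_comm]; exact h.int⟩

theorem wx (h : One B U X Y w) : w ∈ X := by
  have : w ∈ X ∩ Y := by rw [h.int]; exact mem_singleton_self _
  exact (mem_inter.1 this).1

theorem wy (h : One B U X Y w) : w ∈ Y := h.symm.wx

theorem rx (h : One B U X Y w) : Reg B X := h.reg.mono h.sx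

theorem tr (h : One B U X Y w) {i : ι} (hi : (B i ∩ X).Nonempty) : (B i ∩ X).card = 3 :=
  h.kx.trace h.rx hi

theorem w5 (h : One B U X Y w) : (univ.filter (fun i => w ∈ B i)).card = 5 := h.reg w (h.sx h.wx)

theorem wtr (h : One B U X Y w) {i : ι} (hi : w ∈ B i) : (B i ∩ X).card = 3 :=
  h.tr ⟨w, mem_inter.2 ⟨hi, h.wx⟩⟩

theorem wsub (h : One B U X Y w) {i : ι} (hi : w ∈ B i) :
    B i ∩ U ⊆ X ∪ Y ∧ (B i ∩ U).card = 5 := by
  have h1 := h.wtr hi
  have h2 := h.symm.wtr hi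
  have h3 := inter_inter_card (B := B) i X Y
  have h4 : (B i ∩ (X ∩ Y)).card = 1 := by
    rw [h.int, inter_singleton_of_mem hi, card_singleton]
  have h5 : B i ∩ (X ∪ Y) ⊆ B i ∩ U := inter_subset_inter_left (union_subset h.sx h.sy)
  have h6 := h.five i
  have h7 : B i ∩ (X ∪ Y) = B i ∩ U := eq_of_subset_of_card_le h5 (by omega)
  refine ⟨?_, by rw [← h7]; omega⟩
  rw [← h7]
  exact inter_subset_right

theorem nmeet (h : One B U X Y w) {i : ι} (hi : w ∉ B i) (hX : (B i ∩ X).Nonempty) :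
    ∀ v ∈ B i, v ∉ Y := by
  intro v hv hvY
  have h1 := h.tr hX
  have h2 := h.symm.tr (i := i) ⟨v, mem_inter.2 ⟨hv, hvY⟩⟩
  have h3 := inter_inter_card (B := B) i X Y
  have h4 : (B i ∩ (X ∩ Y)).card = 0 := by
    rw [h.int, inter_singleton_of_notMem hi, card_empty]
  have h5 : B i ∩ (X ∪ Y) ⊆ B i ∩ U := inter_subset_inter_left (union_subset h.sx h.sy)
  have h6 := h.five i
  have h7 := card_le_card h5
  omega

/-- the part in `X` of a block through `w` meeting `Z`. -/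
theorem le2 (h : One B U X Y w) (a : Alt B U X Y w Z) {i : ι} (hi : w ∈ B i) :
    (B i ∩ (X ∩ Z)).card ≤ 2 := by
  have h1 := h.wtr hi
  have h2 : B i ∩ (X ∩ Z) ⊆ (B i ∩ X).erase w := by
    intro v hv
    rw [mem_inter, mem_inter] at hv
    refine mem_erase.2 ⟨?_, mem_inter.2 ⟨hv.1, hv.2.1⟩⟩
    rintro rfl
    exact a.nw hv.2.2
  have h3 := card_le_card h2
  rw [card_erase_of_mem (mem_inter.2 ⟨hi, h.wx⟩)] at h3
  omega

theorem sum3 (h : One B U X Y w) (a : Alt B U X Y w Z) {i : ι} (hi : i ∈ Mw B w Z) :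
    (B i ∩ (X ∩ Z)).card + (B i ∩ (Y ∩ Z)).card = 3 := by
  rw [mem_Mw] at hi
  have h1 := a.kz.trace (h.reg.mono a.sz) hi.2
  have h2 := (h.wsub hi.1).1
  have h3 : B i ∩ Z = (B i ∩ (X ∩ Z)) ∪ (B i ∩ (Y ∩ Z)) := by
    ext v
    rw [mem_union, mem_inter, mem_inter, mem_inter, mem_inter, mem_inter]
    constructor
    · rintro ⟨hv, hvZ⟩
      have := h2 (mem_inter.2 ⟨hv, a.sz hvZ⟩)
      rw [mem_union] at this
      tauto
    · tauto
  have h4 : Disjoint (B i ∩ (X ∩ Z)) (B i ∩ (Y ∩ Z)) := by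
    rw [Finset.disjoint_left]
    intro v hv hv'
    rw [mem_inter, mem_inter] at hv hv'
    have : v ∈ X ∩ Y := mem_inter.2 ⟨hv.2.1, hv'.2.1⟩
    rw [h.int, mem_singleton] at this
    rw [this] at hv
    exact a.nw hv.2.2
  rw [h3, card_union_of_disjoint h4] at h1
  exact h1

theorem one_le (h : One B U X Y w) (a : Alt B U X Y w Z) {i : ι} (hi : i ∈ Mw B w Z) :
    1 ≤ (B i ∩ (X ∩ Z)).card := by
  have h1 := h.sum3 a hi
  have h2 := h.symm.le2 a.symm (mem_Mw.1 hi).1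
  omega

/-- the counting identity. -/
theorem cm_eq (h : One B U X Y w) (a : Alt B U X Y w Z) :
    cm B (X ∩ Z) + cm B (Y ∩ Z) = (Mw B w Z).card + cm B ((X ∩ Z) ∪ (Y ∩ Z)) := by
  have h1 := cm_union (B := B) (X ∩ Z) (Y ∩ Z)
  have h2 : cxs B (X ∩ Z) (Y ∩ Z) = Mw B w Z := by
    ext i
    rw [mem_cxs]
    constructor
    · rintro ⟨⟨x, hx⟩, ⟨y, hy⟩⟩
      rw [mem_inter, mem_inter] at hx hy
      rw [mem_Mw]
      refine ⟨?_, ⟨x, mem_inter.2 ⟨hx.1, hx.2.2⟩⟩⟩
      by_contra hw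
      exact h.nmeet hw ⟨x, mem_inter.2 ⟨hx.1, hx.2.1⟩⟩ y hy.1 hy.2.1
    · intro hi
      exact ⟨card_pos.1 (h.one_le a hi), card_pos.1 (h.symm.one_le a.symm hi)⟩
  unfold cx at h1
  rw [h2] at h1
  omega

theorem M_le (_h : One B U X Y w) (a : Alt B U X Y w Z)
    (h5 : (univ.filter (fun i => w ∈ B i)).card = 5) : (Mw B w Z).card ≤ 4 := by
  obtain ⟨c, hc1, hc2⟩ := a.c
  have h1 : Mw B w Z ⊂ univ.filter (fun i => w ∈ B i) := by
    rw [ssubset_iff_of_subset]
    · refine ⟨c, mem_filter.2 ⟨mem_univ _, hc1⟩, fun hc => ?_⟩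
      rw [mem_Mw] at hc
      obtain ⟨v, hv⟩ := hc.2
      rw [mem_inter] at hv
      exact Finset.disjoint_left.1 hc2 hv.1 hv.2
    · intro i hi
      rw [mem_Mw] at hi
      exact mem_filter.2 ⟨mem_univ _, hi.1⟩
  have h2 := card_lt_card h1
  omega

theorem M_pos (h : One B U X Y w) (a : Alt B U X Y w Z) : 1 ≤ (Mw B w Z).card := by
  obtain ⟨b, hb⟩ := a.ay
  rw [mem_inter] at hb
  obtain ⟨i, hi, hib⟩ := h.ky.common (h.reg.mono h.sy) h.wy hb.1 (by
    rintro rfl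
    exact a.nw hb.2)
  exact card_pos.2 ⟨i, mem_Mw.2 ⟨hi, b, mem_inter.2 ⟨hib, hb.2⟩⟩⟩

end One

/-- bounds for the number of blocks meeting a part of a K-piece. -/
theorem KP.cm_bd (hr : Reg B X) (h : KP B X) {P : Finset V} (hP : P ⊆ X) :
    (P.card = 1 → cm B P = 5) ∧ (P.card = 2 → 7 ≤ cm B P) ∧ (P.card = 3 → 8 ≤ cm B P) ∧
    (4 ≤ P.card → cm B P = 10) ∧ cm B P ≤ 10 := by
  refine ⟨?_, ?_, ?_, h.cm_four hr hP, ?_⟩
  · intro h1
    obtain ⟨a, rfl⟩ := card_eq_one.1 h1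
    exact cm_singleton (hr.mono hP)
  · intro h2
    obtain ⟨a, b, hab, rfl⟩ := card_eq_two.1 h2
    have ha : a ∈ X := hP (by simp)
    have hb : b ∈ X := hP (by simp)
    have h3 := cm_pair (hr.mono (singleton_subset_iff.2 ha)) (hr.mono (singleton_subset_iff.2 hb))
    have h4 := h.lam_le hr ha hb hab
    omega
  · intro h3
    have h4 := h.cm_three hr hP h3
    have h5 := card_sdiff_add_card_eq_card hP
    rw [h.card] at h5
    have h6 := h.mt_le hr (T := X \ P) (card_pos.1 (by omega))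
    omega
  · have := cm_mono (B := B) hP
    rw [h.cmX] at this
    exact this

namespace One

/-- the case of one common point with `X`. -/
theorem case1 (h : One B U X Y w) (a : Alt B U X Y w Z) (h1 : (X ∩ Z).card = 1) :
    ((Y ∩ Z).card = 2 ∧ (Mw B w Z).card = 2 ∧ cm B (Y ∩ Z) = 7) ∨
    ((Y ∩ Z).card = 3 ∧ (Mw B w Z).card = 3) := by
  classical
  have hrZ := h.reg.mono a.sz
  have hA := a.kz.cm_bd hrZ (P := X ∩ Z) inter_subset_right
  have hB := a.kz.cm_bd hrZ (P := Y ∩ Z) inter_subset_right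
  have hAB := a.kz.cm_bd hrZ (P := (X ∩ Z) ∪ (Y ∩ Z)) (union_subset inter_subset_right
    inter_subset_right)
  have hid := h.cm_eq a
  have hM4 := h.M_le a h.w5
  have hM1 := h.M_pos a
  have hcA := hA.1 h1
  have hdis : Disjoint (X ∩ Z) (Y ∩ Z) := by
    rw [Finset.disjoint_left]
    intro v hv hv'
    rw [mem_inter] at hv hv'
    have : v ∈ X ∩ Y := mem_inter.2 ⟨hv.1, hv'.1⟩
    rw [h.int, mem_singleton] at this
    rw [this] at hv
    exact a.nw hv.2
  have hcard := card_union_of_disjoint hdis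
  have hBle : ∀ i, (B i ∩ (X ∩ Z)).card ≤ 1 := fun i => by
    rw [← h1]
    exact card_le_card inter_subset_right
  have hB2 : ∀ i ∈ Mw B w Z, (B i ∩ (Y ∩ Z)).card = 2 := by
    intro i hi
    have e1 := h.sum3 a hi
    have e2 := hBle i
    have e3 := h.symm.le2 a.symm (mem_Mw.1 hi).1
    omega
  have hY2 : 2 ≤ (Y ∩ Z).card := by
    obtain ⟨i, hi⟩ := card_pos.1 hM1
    rw [← hB2 i hi]
    exact card_le_card inter_subset_right
  rcases (by omega : (Y ∩ Z).card = 2 ∨ (Y ∩ Z).card = 3 ∨ 4 ≤ (Y ∩ Z).card) with h2 | h2 | h2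
  · left
    have h3 : (Mw B w Z).card ≤ 2 := by
      have h4 : Mw B w Z ⊆ univ.filter (fun i => B i ∩ Y = insert w (Y ∩ Z)) := by
        intro i hi
        rw [mem_filter]
        refine ⟨mem_univ _, ?_⟩
        symm
        refine eq_of_subset_of_card_le ?_ ?_
        · intro v hv
          rw [mem_insert] at hv
          rcases hv with rfl | hv
          · exact mem_inter.2 ⟨(mem_Mw.1 hi).1, h.wy⟩
          · have h5 : B i ∩ (Y ∩ Z) = Y ∩ Z :=
              eq_of_subset_of_card_le inter_subset_right (by rw [hB2 i hi]; omega)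
            rw [← h5, mem_inter, mem_inter] at hv
            exact mem_inter.2 ⟨hv.1, hv.2.1⟩
        · rw [h.symm.wtr (mem_Mw.1 hi).1, card_insert_of_notMem (fun hc => a.nw (mem_inter.1 hc).2)]
          omega
      have h5 := card_le_card h4
      have h6 := h.ky.mt_le (h.reg.mono h.sy) (T := insert w (Y ∩ Z)) (insert_nonempty _ _)
      unfold mt at h6
      omega
    have h4 := hB.2.1 h2
    have h5 := hAB.2.2.2.2
    exact ⟨h2, by omega, by omega⟩
  · right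
    have h3 : (Mw B w Z).card ≤ 3 := by
      obtain ⟨x, hx⟩ := card_eq_one.1 h1
      have hx' : x ∈ X ∩ Z := by rw [hx]; exact mem_singleton_self _
      rw [mem_inter] at hx'
      have h4 := h.kx.lam_le h.rx h.wx hx'.1 (by
        rintro rfl
        exact a.nw hx'.2)
      refine le_trans (card_le_card fun i hi => ?_) h4
      rw [mem_filter]
      refine ⟨mem_univ _, (mem_Mw.1 hi).1, ?_⟩
      obtain ⟨v, hv⟩ := card_pos.1 (h.one_le a hi)
      rw [mem_inter, hx, mem_singleton] at hv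
      rw [← hv.2]
      exact hv.1
    have h4 := hB.2.2.1 h2
    have h5 := hAB.2.2.2.1 (by omega)
    exact ⟨h2, by omega⟩
  · exfalso
    have h4 := hB.2.2.2.1 h2
    have h5 := hAB.2.2.2.1 (by omega)
    omega

/-- two common points on both sides do not occur. -/
theorem case2 (h : One B U X Y w) (a : Alt B U X Y w Z) (h7 : cm B (X ∩ Z) = 7)
    (h2 : (X ∩ Z).card = 2) (h4 : (Mw B w Z).card = 4) : ∀ i ∈ Mw B w Z,
    (B i ∩ (X ∩ Z)).card ≠ 2 := by
  classical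
  intro i hi hi2
  have hiw := (mem_Mw.1 hi).1
  have hT : B i ∩ X = insert w (X ∩ Z) := by
    symm
    refine eq_of_subset_of_card_le ?_ ?_
    · intro v hv
      rw [mem_insert] at hv
      rcases hv with rfl | hv
      · exact mem_inter.2 ⟨hiw, h.wx⟩
      · have h5 : B i ∩ (X ∩ Z) = X ∩ Z :=
          eq_of_subset_of_card_le inter_subset_right (by omega)
        rw [← h5, mem_inter, mem_inter] at hv
        exact mem_inter.2 ⟨hv.1, hv.2.1⟩
    · rw [h.wtr hiw, card_insert_of_notMem (fun hc => a.nw (mem_inter.1 hc).2)]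
      omega
  have hTX : insert w (X ∩ Z) ⊆ X := by rw [← hT]; exact inter_subset_right
  have h5 := h.kx.cm_three h.rx hTX (by rw [← hT]; exact h.wtr hiw)
  have h6 : mt B X (X \ insert w (X ∩ Z)) = 0 := by
    refine mt_eq_zero fun j hj => h.kx.no_compl (i := i) (j := j) ?_
    rw [hj, ← hT]
    ext v
    simp only [mem_sdiff, mem_inter]
    tauto
  have h8 := cm_union (B := B) {w} (X ∩ Z)
  rw [cm_singleton (h.rx.mono (singleton_subset_iff.2 h.wx)), ← insert_eq] at h8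
  have h9 : (Mw B w Z).card ≤ cx B {w} (X ∩ Z) := by
    unfold cx
    refine card_le_card fun j hj => ?_
    rw [mem_cxs]
    exact ⟨⟨w, mem_inter.2 ⟨(mem_Mw.1 hj).1, mem_singleton_self _⟩⟩, card_pos.1 (h.one_le a hj)⟩
  omega

/-- the four kinds. -/
theorem kinds (h : One B U X Y w) (a : Alt B U X Y w Z) :
    ((X ∩ Z).card = 2 ∧ (Y ∩ Z).card = 1 ∧ (Mw B w Z).card = 2 ∧ cm B (X ∩ Z) = 7) ∨
    ((X ∩ Z).card = 3 ∧ (Y ∩ Z).card = 1 ∧ (Mw B w Z).card = 3) ∨
    ((X ∩ Z).card = 1 ∧ (Y ∩ Z).card = 2 ∧ (Mw B w Z).card = 2 ∧ cm B (Y ∩ Z) = 7) ∨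
    ((X ∩ Z).card = 1 ∧ (Y ∩ Z).card = 3 ∧ (Mw B w Z).card = 3) := by
  classical
  have hrZ := h.reg.mono a.sz
  have hA := a.kz.cm_bd hrZ (P := X ∩ Z) inter_subset_right
  have hB := a.kz.cm_bd hrZ (P := Y ∩ Z) inter_subset_right
  have hAB := a.kz.cm_bd hrZ (P := (X ∩ Z) ∪ (Y ∩ Z)) (union_subset inter_subset_right
    inter_subset_right)
  have hid := h.cm_eq a
  have hM4 := h.M_le a h.w5
  have hM1 := h.M_pos a
  have hx := card_pos.2 a.ax
  have hy := card_pos.2 a.ay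
  by_cases h1 : (X ∩ Z).card = 1
  · rcases h.case1 a h1 with h2 | h2
    · exact Or.inr (Or.inr (Or.inl ⟨h1, h2.1, h2.2.1, h2.2.2⟩))
    · exact Or.inr (Or.inr (Or.inr ⟨h1, h2.1, h2.2⟩))
  by_cases h2 : (Y ∩ Z).card = 1
  · rcases h.symm.case1 a.symm h2 with h3 | h3
    · exact Or.inl ⟨h3.1, h2, h3.2.1, h3.2.2⟩
    · exact Or.inr (Or.inl ⟨h3.1, h2, h3.2⟩)
  exfalso
  have hx2 : (X ∩ Z).card = 2 ∨ (X ∩ Z).card = 3 ∨ 4 ≤ (X ∩ Z).card := by omega
  have hy2 : (Y ∩ Z).card = 2 ∨ (Y ∩ Z).card = 3 ∨ 4 ≤ (Y ∩ Z).card := by omega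
  have hx7 : 7 ≤ cm B (X ∩ Z) ∧ ((X ∩ Z).card ≠ 2 → 8 ≤ cm B (X ∩ Z)) := by
    rcases hx2 with h3 | h3 | h3
    · exact ⟨hA.2.1 h3, fun h4 => absurd h3 h4⟩
    · have := hA.2.2.1 h3
      exact ⟨by omega, fun _ => this⟩
    · have := hA.2.2.2.1 h3
      exact ⟨by omega, fun _ => by omega⟩
  have hy7 : 7 ≤ cm B (Y ∩ Z) ∧ ((Y ∩ Z).card ≠ 2 → 8 ≤ cm B (Y ∩ Z)) := by
    rcases hy2 with h3 | h3 | h3
    · exact ⟨hB.2.1 h3, fun h4 => absurd h3 h4⟩
    · have := hB.2.2.1 h3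
      exact ⟨by omega, fun _ => this⟩
    · have := hB.2.2.2.1 h3
      exact ⟨by omega, fun _ => by omega⟩
  have h10 := hAB.2.2.2.2
  have h3 : (X ∩ Z).card = 2 := by
    by_contra h3
    have := hx7.2 h3
    omega
  have h4 : (Y ∩ Z).card = 2 := by
    by_contra h4
    have := hy7.2 h4
    omega
  have h5 : (Mw B w Z).card = 4 := by omega
  obtain ⟨i, hi⟩ := card_pos.1 hM1
  have h6 := h.case2 a (by omega) h3 h5 i hi
  have h7 := h.symm.case2 a.symm (by omega) h4 h5 i hi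
  have h8 := h.sum3 a hi
  have h9 := h.le2 a (mem_Mw.1 hi).1
  have h11 := h.symm.le2 a.symm (mem_Mw.1 hi).1
  omega

end One

end Pool.Agent.Hyp6
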