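import Pool.Agent.Hyp6.OVA

/-!
# HYP6 OVC: two K-pieces with three common points

The K-piece `X` misses the block `z`, the K-piece `Y` meets it. If every block with exactly one point in
`X ∩ Y` is missed by a K-piece with at least three points in `X` and in `Y`, then `X ∪ (B z ∩ U)` is closed.
-/

set_option autoImplicit false

namespace Pool.Agent.Hyp6

open Finset Pool.Agent.Hyp5

universe u v

variable {V : Type v} [DecidableEq V] {ι : Type u} [Fintype ι] {B : ι → Finset V}

/-- the data of the third claim. -/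
structure Ov3 (B : ι → Finset V) (U X Y : Finset V) (z : ι) : Prop where
  hr : Reg B U
  h5 : ∀ i, (B i ∩ U).card ≤ 5
  kX : KP B X
  kY : KP B Y
  sX : X ⊆ U
  sY : Y ⊆ U
  zX : Disjoint (B z) X
  z5 : (B z ∩ U).card = 5
  zY : (B z ∩ Y).Nonempty
  h3 : (X ∩ Y).card = 3
  hP : ∀ i, (B i ∩ (X ∩ Y)).card = 1 → ∃ K, KP B K ∧ K ⊆ U ∧ Disjoint (B i) K ∧
    3 ≤ (K ∩ X).card ∧ 3 ≤ (K ∩ Y).card

namespace Ov3

variable {U X Y : Finset V} {z : ι}

theorem rX (o : Ov3 B U X Y z) : Reg B X := o.hr.mono o.sX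

theorem rY (o : Ov3 B U X Y z) : Reg B Y := o.hr.mono o.sY

theorem YX (o : Ov3 B U X Y z) : (Y \ X).card = 3 := by
  have := card_sdiff_add_card_inter Y X
  rw [inter_comm, o.h3, o.kY.card] at this
  omega

/-- the trace of `z`. -/
theorem zYX (o : Ov3 B U X Y z) : B z ∩ Y = Y \ X := by
  refine eq_of_subset_of_card_le (fun v hv => ?_) ?_
  · rw [mem_inter] at hv
    exact mem_sdiff.2 ⟨hv.2, fun h => disjoint_left.1 o.zX hv.1 h⟩
  · rw [o.kY.trace o.rY o.zY, o.YX]

/-- a block meeting `Y` but not `X ∩ Y` has the same trace on `Y` as `z`. -/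
theorem miss (o : Ov3 B U X Y z) {j : ι} (h : (B j ∩ Y).Nonempty)
    (h' : ¬ (B j ∩ (X ∩ Y)).Nonempty) : B j ∩ Y = B z ∩ Y := by
  rw [o.zYX]
  refine eq_of_subset_of_card_le (fun v hv => ?_) ?_
  · rw [mem_inter] at hv
    refine mem_sdiff.2 ⟨hv.2, fun hX => h' ⟨v, ?_⟩⟩
    exact mem_inter.2 ⟨hv.1, mem_inter.2 ⟨hX, hv.2⟩⟩
  · rw [o.kY.trace o.rY h, o.YX]

/-- a block with the trace of `z` on `Y` misses `X`. -/
theorem missX (o : Ov3 B U X Y z) {j : ι} (h : B j ∩ Y = B z ∩ Y) : ¬ (B j ∩ X).Nonempty := by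
  intro hX
  have hY : (B j ∩ Y).Nonempty := by rw [h]; exact o.zY
  obtain ⟨v, hv⟩ := kk_meet o.hr o.h5 o.kX o.kY o.sX o.sY hX hY
  rw [mem_inter, mem_inter] at hv
  have : v ∈ B z ∩ Y := by rw [← h]; exact mem_inter.2 ⟨hv.1, hv.2.2⟩
  exact disjoint_left.1 o.zX (mem_inter.1 this).1 hv.2.1

theorem le2 (o : Ov3 B U X Y z) (j : ι) : (B j ∩ (X ∩ Y)).card ≤ 2 := by
  classical
  by_contra hcon
  push Not at hcon
  have h1 : B j ∩ (X ∩ Y) ⊆ B j ∩ Y := inter_subset_inter_left inter_subset_right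
  have h2 : (B j ∩ Y).Nonempty := (card_pos.1 (by omega : 0 < (B j ∩ (X ∩ Y)).card)).mono h1
  have h3 : B j ∩ (X ∩ Y) = B j ∩ Y := eq_of_subset_of_card_le h1 (by
    rw [o.kY.trace o.rY h2]; omega)
  obtain ⟨v, hv⟩ := o.kY.meet o.rY h2 o.zY
  rw [mem_inter, ← h3, mem_inter, mem_inter, mem_inter] at hv
  exact disjoint_left.1 o.zX hv.2.1 hv.1.2.1

/-- the blocks meeting `X ∩ Y`. -/
theorem cI (o : Ov3 B U X Y z) : (tch B (X ∩ Y)).card +
    (univ.filter (fun j => B j ∩ Y = B z ∩ Y)).card = 10 := by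
  classical
  have hY : (tch B Y).card = 10 := o.kY.cmX
  rw [← hY, ← card_union_of_disjoint]
  · congr 1
    ext j
    rw [mem_union, cost_mem_tch, cost_mem_tch, mem_filter]
    constructor
    · rintro (h | h)
      · exact h.mono (inter_subset_inter_left inter_subset_right)
      · rw [h.2]
        exact o.zY
    · intro h
      by_cases h' : (B j ∩ (X ∩ Y)).Nonempty
      · exact Or.inl h'
      · exact Or.inr ⟨mem_univ _, o.miss h h'⟩
  · rw [disjoint_left]
    intro j hj hj'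
    have h1 := (mem_filter.1 hj').2
    obtain ⟨v, hv⟩ := cost_mem_tch.1 hj
    rw [mem_inter, mem_inter] at hv
    exact o.missX h1 ⟨v, mem_inter.2 ⟨hv.1, hv.2.1⟩⟩

theorem mle (o : Ov3 B U X Y z) : (univ.filter (fun j => B j ∩ Y = B z ∩ Y)).card ≤ 2 :=
  (o.kY.count o.rY o.zY).1

/-- the number of blocks with exactly one point in `X ∩ Y`. -/
theorem b1 (o : Ov3 B U X Y z) : (univ.filter (fun j => (B j ∩ (X ∩ Y)).card = 1)).card +
    2 * (univ.filter (fun j => B j ∩ Y = B z ∩ Y)).card = 5 := by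
  classical
  have h1 := o.cI
  have h2 := sum_inc (o.rX.mono (inter_subset_left : X ∩ Y ⊆ X))
  rw [o.h3] at h2
  unfold tch at h1
  rw [card_filter] at h1
  have h3 : ∑ j, (B j ∩ (X ∩ Y)).card + (univ.filter (fun j => (B j ∩ (X ∩ Y)).card = 1)).card =
      2 * ∑ j, (if (B j ∩ (X ∩ Y)).Nonempty then 1 else 0) := by
    rw [card_filter, mul_sum, ← sum_add_distrib]
    refine sum_congr rfl fun j _ => ?_
    have h4 := o.le2 j
    by_cases h5 : (B j ∩ (X ∩ Y)).Nonempty
    · have h6 := card_pos.2 h5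
      rw [if_pos h5]
      split_ifs <;> omega
    · have h6 : (B j ∩ (X ∩ Y)).card = 0 := by
        rw [card_eq_zero]
        exact not_nonempty_iff_eq_empty.1 h5
      rw [if_neg h5, h6]
      norm_num
  omega

/-- **the third claim.** -/
theorem closed (o : Ov3 B U X Y z) {i : ι} (hi : (B i ∩ (X ∪ (B z ∩ U))).Nonempty) :
    B i ∩ U ⊆ X ∪ (B z ∩ U) := by
  classical
  have hb1 := o.b1
  have hcI := o.cI
  have hle := o.mle
  set M := univ.filter (fun j => B j ∩ Y = B z ∩ Y) with hM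
  obtain ⟨c, hc⟩ := card_pos.1 (by omega :
    0 < (univ.filter (fun j => (B j ∩ (X ∩ Y)).card = 1)).card)
  have hc1 := (mem_filter.1 hc).2
  obtain ⟨K, kK, sK, hcK, hKX, hKY⟩ := o.hP c hc1
  have rK : Reg B K := o.hr.mono sK
  obtain ⟨w, hw⟩ := card_pos.1 (by rw [hc1]; norm_num : 0 < (B c ∩ (X ∩ Y)).card)
  rw [mem_inter, mem_inter] at hw
  have hcX : (B c ∩ X).card = 3 := o.kX.trace o.rX ⟨w, mem_inter.2 ⟨hw.1, hw.2.1⟩⟩
  have hcY : (B c ∩ Y).card = 3 := o.kY.trace o.rY ⟨w, mem_inter.2 ⟨hw.1, hw.2.2⟩⟩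
  -- the traces of `K` on `X` and `Y`
  have tr : ∀ {S : Finset V}, KP B S → (B c ∩ S).card = 3 → 3 ≤ (K ∩ S).card →
      K ∩ S = S \ B c := by
    intro S kS g1 g2
    refine eq_of_subset_of_card_le (fun v hv => ?_) ?_
    · rw [mem_inter] at hv
      exact mem_sdiff.2 ⟨hv.2, fun h => disjoint_left.1 hcK h hv.1⟩
    · have := card_sdiff_add_card_inter S (B c)
      rw [inter_comm S, g1, kS.card] at this
      omega
  have hKX' := tr o.kX hcX hKX
  have hKY' := tr o.kY hcY hKY
  have hKXc : (K ∩ X).card = 3 := by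
    rw [hKX']
    have := card_sdiff_add_card_inter X (B c)
    rw [inter_comm X, hcX, o.kX.card] at this
    omega
  have hKYc : (K ∩ Y).card = 3 := by
    rw [hKY']
    have := card_sdiff_add_card_inter Y (B c)
    rw [inter_comm Y, hcY, o.kY.card] at this
    omega
  have hKI : ((K ∩ X) ∩ (K ∩ Y)).card = 2 := by
    have h1 : (K ∩ X) ∩ (K ∩ Y) = (X ∩ Y) \ B c := by
      rw [hKX', hKY']
      ext v
      simp only [mem_inter, mem_sdiff]
      tauto
    rw [h1]
    have := card_sdiff_add_card_inter (X ∩ Y) (B c)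
    rw [inter_comm (X ∩ Y), hc1, o.h3] at this
    omega
  have hKU : (K ∩ (X ∪ Y)).card = 4 := by
    have := card_union_add_card_inter (K ∩ X) (K ∩ Y)
    rw [← inter_union_distrib_left, hKI, hKXc, hKYc] at this
    omega
  set R := K \ (X ∪ Y) with hR
  have hRc : R.card = 2 := by
    have := card_sdiff_add_card_inter K (X ∪ Y)
    rw [hKU, kK.card, ← hR] at this
    omega
  -- the point `b`
  have hb : (K ∩ (Y \ X)).card = 1 := by
    have h1 : K ∩ Y = ((K ∩ X) ∩ (K ∩ Y)) ∪ (K ∩ (Y \ X)) := by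
      ext v
      simp only [mem_inter, mem_union, mem_sdiff]
      tauto
    have h2 : Disjoint ((K ∩ X) ∩ (K ∩ Y)) (K ∩ (Y \ X)) := by
      rw [disjoint_left]
      intro v hv hv'
      exact (mem_sdiff.1 (mem_inter.1 hv').2).2 (mem_inter.1 (mem_inter.1 hv).1).2
    have h3 := congrArg Finset.card h1
    rw [card_union_of_disjoint h2, hKI, hKYc] at h3
    omega
  obtain ⟨b, hb1'⟩ := card_eq_one.1 hb
  have hbm : b ∈ K ∩ (Y \ X) := by rw [hb1']; simp
  rw [mem_inter, mem_sdiff] at hbm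
  have hbz : b ∈ B z := by
    have : b ∈ B z ∩ Y := by
      rw [o.zYX]
      exact mem_sdiff.2 hbm.2
    exact (mem_inter.1 this).1
  have hKnX : K \ X = insert b R := by
    ext v
    rw [mem_sdiff, mem_insert, hR, mem_sdiff, mem_union]
    constructor
    · rintro ⟨h1, h2⟩
      by_cases h3 : v ∈ Y
      · have : v ∈ K ∩ (Y \ X) := mem_inter.2 ⟨h1, mem_sdiff.2 ⟨h3, h2⟩⟩
        rw [hb1', mem_singleton] at this
        exact Or.inl this
      · exact Or.inr ⟨h1, fun h => h.elim h2 h3⟩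
    · rintro (rfl | h)
      · exact ⟨hbm.1, hbm.2.2⟩
      · exact ⟨h.1, fun h' => h.2 (Or.inl h')⟩
  have hbR : b ∉ R := fun h => (mem_sdiff.1 h).2 (mem_union.2 (Or.inr hbm.2.1))
  -- a block meeting `K` but not `X`
  have hmis : ∀ j, (B j ∩ K).Nonempty → ¬ (B j ∩ X).Nonempty → B j ∩ K = insert b R := by
    intro j h1 h2
    refine eq_of_subset_of_card_le (fun v hv => ?_) ?_
    · rw [← hKnX]
      rw [mem_inter] at hv
      exact mem_sdiff.2 ⟨hv.2, fun h => h2 ⟨v, mem_inter.2 ⟨hv.1, h⟩⟩⟩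
    · rw [card_insert_of_notMem hbR, hRc, kK.trace rK h1]
  have hzX : ¬ (B z ∩ X).Nonempty := by
    rw [not_nonempty_iff_eq_empty]
    exact disjoint_iff_inter_eq_empty.1 o.zX
  have hzK := hmis z ⟨b, mem_inter.2 ⟨hbz, hbm.1⟩⟩ hzX
  have hRz : R ⊆ B z := by
    intro v hv
    have : v ∈ B z ∩ K := by
      rw [hzK]
      exact mem_insert_of_mem hv
    exact (mem_inter.1 this).1
  have hZ : B z ∩ U = (Y \ X) ∪ R := by
    symm
    refine eq_of_subset_of_card_le (fun v hv => ?_) ?_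
    · rcases mem_union.1 hv with h | h
      · have h1 : v ∈ B z ∩ Y := by rw [o.zYX]; exact h
        exact mem_inter.2 ⟨(mem_inter.1 h1).1, o.sY (mem_inter.1 h1).2⟩
      · exact mem_inter.2 ⟨hRz h, sK (mem_sdiff.1 h).1⟩
    · rw [o.z5, card_union_of_disjoint, o.YX, hRc]
      rw [disjoint_left]
      intro v hv hv'
      exact (mem_sdiff.1 hv').2 (mem_union.2 (Or.inr (mem_sdiff.1 hv).1))
  -- the blocks meeting `K` but not `X` are the blocks of `M`
  have hMeq : M = univ.filter (fun j => (B j ∩ K).Nonempty ∧ ¬ (B j ∩ X).Nonempty) := by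
    ext j
    rw [hM, mem_filter, mem_filter]
    refine and_congr_right fun _ => ?_
    constructor
    · intro h
      refine ⟨⟨b, mem_inter.2 ⟨?_, hbm.1⟩⟩, o.missX h⟩
      have : b ∈ B j ∩ Y := by
        rw [h]
        exact mem_inter.2 ⟨hbz, hbm.2.1⟩
      exact (mem_inter.1 this).1
    · rintro ⟨h1, h2⟩
      have h3 := hmis j h1 h2
      have h4 : b ∈ B j := by
        have : b ∈ B j ∩ K := by
          rw [h3]
          exact mem_insert_self _ _
        exact (mem_inter.1 this).1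
      refine o.miss ⟨b, mem_inter.2 ⟨h4, hbm.2.1⟩⟩ (fun h5 => h2 ?_)
      exact h5.mono (inter_subset_inter_left inter_subset_left)
  -- the blocks meeting `X` but not `K` have the trace of `c`
  have hXK : (univ.filter (fun j => (B j ∩ X).Nonempty ∧ ¬ (B j ∩ K).Nonempty)).card =
      M.card := by
    have h1 : (tch B X).card = 10 := o.kX.cmX
    have h2 : (tch B K).card = 10 := kK.cmX
    unfold tch at h1 h2
    have h3 := card_filter_add_card_filter_not (s := univ.filter (fun j => (B j ∩ X).Nonempty))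
      (fun j => (B j ∩ K).Nonempty)
    have h4 := card_filter_add_card_filter_not (s := univ.filter (fun j => (B j ∩ K).Nonempty))
      (fun j => (B j ∩ X).Nonempty)
    rw [filter_filter, filter_filter, h1] at h3
    rw [filter_filter, filter_filter, h2] at h4
    have h5 : univ.filter (fun j => (B j ∩ X).Nonempty ∧ (B j ∩ K).Nonempty) =
        univ.filter (fun j => (B j ∩ K).Nonempty ∧ (B j ∩ X).Nonempty) := by
      ext j
      simp only [mem_filter, mem_univ, true_and]
      tauto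
    rw [h5] at h3
    rw [hMeq]
    omega
  have hXc : ∀ j, (B j ∩ X).Nonempty → ¬ (B j ∩ K).Nonempty → B j ∩ X = B c ∩ X := by
    intro j h1 h2
    have g1 : B j ∩ X ⊆ X \ K := by
      intro v hv
      rw [mem_inter] at hv
      exact mem_sdiff.2 ⟨hv.2, fun h => h2 ⟨v, mem_inter.2 ⟨hv.1, h⟩⟩⟩
    have g2 : B c ∩ X ⊆ X \ K := by
      intro v hv
      rw [mem_inter] at hv
      exact mem_sdiff.2 ⟨hv.2, fun h => disjoint_left.1 hcK hv.1 h⟩
    have g3 : (X \ K).card = 3 := by
      have := card_sdiff_add_card_inter X K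
      rw [inter_comm X, hKXc, o.kX.card] at this
      omega
    rw [eq_of_subset_of_card_le g1 (by rw [o.kX.trace o.rX h1, g3]),
      eq_of_subset_of_card_le g2 (by rw [hcX, g3])]
  have hM1 : M.card = 1 := by
    by_contra hne
    have hzM : z ∈ M := mem_filter.2 ⟨mem_univ _, rfl⟩
    have h1 : 0 < M.card := card_pos.2 ⟨z, hzM⟩
    have h2 : M.card = 2 := by omega
    rw [h2] at hXK
    have h3 : univ.filter (fun j => (B j ∩ X).Nonempty ∧ ¬ (B j ∩ K).Nonempty) ⊆
        univ.filter (fun j => (B j ∩ (X ∩ Y)).card = 1) := by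
      intro j hj
      have hj' := (mem_filter.1 hj).2
      have h4 := hXc j hj'.1 hj'.2
      refine mem_filter.2 ⟨mem_univ _, ?_⟩
      rw [← inter_assoc, h4, inter_assoc, hc1]
    have h4 := card_le_card h3
    omega
  have hMz : ∀ j ∈ M, j = z := by
    intro j hj
    exact card_le_one.1 hM1.le j hj z (mem_filter.2 ⟨mem_univ _, rfl⟩)
  -- the blocks at the points of `z`
  have hat : ∀ v ∈ B z ∩ U, ∀ j, v ∈ B j → j ≠ z → (B j ∩ X).Nonempty := by
    intro v hv j hj hne
    by_contra hcon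
    rw [hZ, mem_union] at hv
    rcases hv with h | h
    · have h1 : (B j ∩ Y).Nonempty := ⟨v, mem_inter.2 ⟨hj, (mem_sdiff.1 h).1⟩⟩
      have h2 := o.miss h1 (fun h5 => hcon (h5.mono
        (inter_subset_inter_left inter_subset_left)))
      exact hne (hMz j (mem_filter.2 ⟨mem_univ _, h2⟩))
    · have h1 : (B j ∩ K).Nonempty := ⟨v, mem_inter.2 ⟨hj, (mem_sdiff.1 h).1⟩⟩
      refine hne (hMz j ?_)
      rw [hMeq]
      exact mem_filter.2 ⟨mem_univ _, h1, hcon⟩
  -- counting the outer points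
  have hXZ : Disjoint X (B z ∩ U) := by
    rw [disjoint_left]
    intro v hv hv'
    exact disjoint_left.1 o.zX (mem_inter.1 hv').1 hv
  have hle2 : ∀ j ∈ tch B X, (B j ∩ (B z ∩ U)).card ≤ 2 := by
    intro j hj
    have h1 := o.kX.trace o.rX (cost_mem_tch.1 hj)
    have h2 := o.h5 j
    have h3 : (B j ∩ X).card + (B j ∩ (B z ∩ U)).card ≤ (B j ∩ U).card := by
      rw [← card_union_of_disjoint (disjoint_of_subset_left inter_subset_right
        (disjoint_of_subset_right inter_subset_right hXZ)), ← inter_union_distrib_left]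
      exact card_le_card (inter_subset_inter_left (union_subset o.sX inter_subset_right))
    omega
  have hsum : ∑ j ∈ tch B X, (B j ∩ (B z ∩ U)).card = ∑ _j ∈ tch B X, 2 := by
    have h1 := sum_inc (o.hr.mono (inter_subset_right : B z ∩ U ⊆ U))
    rw [o.z5] at h1
    have h2 : ∑ j, (B j ∩ (B z ∩ U)).card = ∑ j ∈ tch B X, (B j ∩ (B z ∩ U)).card +
        (B z ∩ (B z ∩ U)).card := by
      have hz : z ∉ tch B X := fun h => hzX (cost_mem_tch.1 h)
      have e : ∑ j ∈ insert z (tch B X), (B j ∩ (B z ∩ U)).card =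
          (B z ∩ (B z ∩ U)).card + ∑ j ∈ tch B X, (B j ∩ (B z ∩ U)).card := sum_insert hz
      rw [add_comm, ← e]
      symm
      refine sum_subset (subset_univ _) fun j _ hj => ?_
      rw [card_eq_zero, ← not_nonempty_iff_eq_empty]
      rintro ⟨v, hv⟩
      rw [mem_inter] at hv
      have hne : j ≠ z := fun h => hj (h ▸ mem_insert_self _ _)
      exact hj (mem_insert_of_mem (cost_mem_tch.2 (hat v hv.2 j hv.1 hne)))
    have h3 : B z ∩ (B z ∩ U) = B z ∩ U := by rw [← inter_assoc, inter_self]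
    rw [h3, o.z5] at h2
    have h4 : (tch B X).card = 10 := o.kX.cmX
    rw [sum_const, h4, smul_eq_mul]
    omega
  have heq := (sum_eq_sum_iff_of_le hle2).1 hsum
  -- blocks meeting `X` stay inside
  have hin : ∀ j, (B j ∩ X).Nonempty → B j ∩ U ⊆ X ∪ (B z ∩ U) := by
    intro j hj
    have h1 := heq j (cost_mem_tch.2 hj)
    have h2 := o.kX.trace o.rX hj
    have h3 : (B j ∩ (X ∪ (B z ∩ U))).card = 5 := by
      rw [inter_union_distrib_left, card_union_of_disjoint (disjoint_of_subset_left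
        inter_subset_right (disjoint_of_subset_right inter_subset_right hXZ)), h1, h2]
    have h4 : B j ∩ (X ∪ (B z ∩ U)) = B j ∩ U := by
      refine eq_of_subset_of_card_le (inter_subset_inter_left
        (union_subset o.sX inter_subset_right)) ?_
      rw [h3]
      exact o.h5 j
    rw [← h4]
    exact inter_subset_right
  by_cases hiX : (B i ∩ X).Nonempty
  · exact hin i hiX
  · obtain ⟨v, hv⟩ := hi
    rw [mem_inter, mem_union] at hv
    rcases hv.2 with h | h
    · exact absurd ⟨v, mem_inter.2 ⟨hv.1, h⟩⟩ hiX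
    · by_cases hne : i = z
      · rw [hne]
        exact subset_union_right
      · exact absurd (hat v h i hv.1 hne) hiX

end Ov3

end Pool.Agent.Hyp6
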