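import Pool.Agent.Hyp6.OVB
import Pool.Agent.Hyp6.OVC

/-!
# HYP6 OVF: overlapping K-pieces, the frame

`QQ`: the blocks with five points inside `V0`, `KQ`: the K-pieces inside `V0` which meet such a block, `Sys`:
the five-point blocks inside `V0` meet pairwise, and each of them is missed by some member of `KQ`.
`OvOne`: no two members of a suitable family have exactly one common point.
-/

set_option autoImplicit false

namespace Pool.Agent.Hyp6

open Finset Pool.Agent.Hyp5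

universe u v

variable {V : Type v} [DecidableEq V] {ι : Type u} [Fintype ι] {B : ι → Finset V}

/-- the blocks with five points inside `V0`. -/
def QQ (B : ι → Finset V) (U V0 : Finset V) (q : ι) : Prop := (B q ∩ U).card = 5 ∧ B q ∩ U ⊆ V0

/-- the K-pieces inside `V0` which meet a block with five points inside `V0`. -/
def KQ (B : ι → Finset V) (U V0 S : Finset V) : Prop :=
  KP B S ∧ S ⊆ V0 ∧ ∃ q, QQ B U V0 q ∧ (B q ∩ S).Nonempty

/-- a family of K-pieces in which every block with exactly one point in the intersection of two members is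
missed by a member meeting both. -/
structure OvFam (B : ι → Finset V) (U : Finset V) (Ks : Finset V → Prop) : Prop where
  kp : ∀ S, Ks S → KP B S
  sub : ∀ S, Ks S → S ⊆ U
  star : ∀ S S' i, Ks S → Ks S' → (B i ∩ (S ∩ S')).card = 1 →
    ∃ K, Ks K ∧ Disjoint (B i) K ∧ (K ∩ S).Nonempty ∧ (K ∩ S').Nonempty

/-- the five-point blocks inside `V0` meet pairwise, and each is missed by a member of `KQ`. -/
structure Sys (B : ι → Finset V) (U V0 : Finset V) : Prop where
  sub : V0 ⊆ U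
  clq : ∀ q q', QQ B U V0 q → QQ B U V0 q' → (B q ∩ B q' ∩ U).Nonempty
  star : ∀ q, QQ B U V0 q → ∃ K, KQ B U V0 K ∧ Disjoint (B q) K

theorem Sys.fam {U V0 : Finset V} (s : Sys B U V0) (hr : Reg B U)
    (h5 : ∀ i, (B i ∩ U).card ≤ 5) : OvFam B U (KQ B U V0) := by
  refine ⟨fun S h => h.1, fun S h => h.2.1.trans s.sub, ?_⟩
  intro S S' i hS hS' hi
  have sS := hS.2.1.trans s.sub
  have sS' := hS'.2.1.trans s.sub
  obtain ⟨g1, g2⟩ := kk_quint hr h5 hS.1 hS'.1 sS sS' hi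
  have hq : QQ B U V0 i := ⟨g1, g2.trans (union_subset hS.2.1 hS'.2.1)⟩
  obtain ⟨K, hK, hd⟩ := s.star i hq
  have sK := hK.2.1.trans s.sub
  obtain ⟨q, hq', hqK⟩ := hK.2.2
  obtain ⟨v, hv⟩ := s.clq i q hq hq'
  rw [mem_inter, mem_inter] at hv
  obtain ⟨w, hw⟩ := card_pos.1 (by rw [hi]; norm_num : 0 < (B i ∩ (S ∩ S')).card)
  rw [mem_inter, mem_inter] at hw
  have hwK : w ∉ K := fun h => disjoint_left.1 hd hw.1 h
  have key : ∀ {S1 S2 : Finset V}, KP B S1 → KP B S2 → S1 ⊆ U → S2 ⊆ U → w ∈ S1 → w ∈ S2 →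
      (K ∩ S1).Nonempty → (K ∩ S2).Nonempty := by
    intro S1 S2 k1 k2 s1 s2 w1 w2 ⟨a, ha⟩
    rw [mem_inter] at ha
    obtain ⟨d, hd1, hd2⟩ := k1.common (hr.mono s1) ha.2 w1 (fun e => hwK (e ▸ ha.1))
    obtain ⟨x, hx⟩ := kk_meet hr h5 hK.1 k2 sK s2 (i := d) ⟨a, mem_inter.2 ⟨hd1, ha.1⟩⟩
      ⟨w, mem_inter.2 ⟨hd2, w2⟩⟩
    exact ⟨x, (mem_inter.1 hx).2⟩
  refine ⟨K, hK, hd, ?_⟩
  rcases mem_union.1 (g2 (mem_inter.2 ⟨hv.1.1, hv.2⟩)) with h | h
  · obtain ⟨x, hx⟩ := kk_meet hr h5 hK.1 hS.1 sK sS (i := q) hqK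
      ⟨v, mem_inter.2 ⟨hv.1.2, h⟩⟩
    have h1 : (K ∩ S).Nonempty := ⟨x, (mem_inter.1 hx).2⟩
    exact ⟨h1, key hS.1 hS'.1 sS sS' hw.2.1 hw.2.2 h1⟩
  · obtain ⟨x, hx⟩ := kk_meet hr h5 hK.1 hS'.1 sK sS' (i := q) hqK
      ⟨v, mem_inter.2 ⟨hv.1.2, h⟩⟩
    have h1 : (K ∩ S').Nonempty := ⟨x, (mem_inter.1 hx).2⟩
    exact ⟨key hS'.1 hS.1 sS' sS hw.2.2 hw.2.1 h1, h1⟩

/-- no two members of a family with the exchange property have exactly one common point. -/
def OvOne (B : ι → Finset V) (U : Finset V) : Prop :=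
  ∀ Ks, OvFam B U Ks → ∀ S S', Ks S → Ks S' → (S ∩ S').card ≠ 1

section

variable {U : Finset V} {Ks : Finset V → Prop}

/-- two members of a family with the exchange property which meet have at least three common points. -/
theorem OvFam.three (f : OvFam B U Ks) (hr : Reg B U) (h5 : ∀ i, (B i ∩ U).card ≤ 5)
    (h1 : OvOne B U) {S S' : Finset V} (hS : Ks S) (hS' : Ks S') (h : (S ∩ S').Nonempty) :
    3 ≤ (S ∩ S').card := by
  have e1 := h1 Ks f S S' hS hS'
  have e0 := card_pos.2 h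
  have e2 : (S ∩ S').card ≠ 2 := by
    intro h2
    refine ov_two hr h5 (f.kp S hS) (f.kp S' hS') (f.sub S hS) (f.sub S' hS') h2 ?_
    intro i hi
    obtain ⟨K, hK, hd, g1, g2⟩ := f.star S S' i hS hS' hi
    have a1 := h1 Ks f K S hK hS
    have a2 := h1 Ks f K S' hK hS'
    have b1 := card_pos.2 g1
    have b2 := card_pos.2 g2
    exact ⟨K, f.kp K hK, f.sub K hK, hd, by omega, by omega⟩
  omega

end

section Packing

variable [DecidableEq ι]

/-- a block with five points inside the rest and the member `z` is `z` or meets only `z`. -/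
theorem MaxPack.qq_onl {U : Finset V} {F : Finset ι} (h : MaxPack B U F) {z : ι} (hz : z ∈ F)
    {q : ι} (hq : QQ B U (Wr B U F ∪ (B z ∩ U)) q) (hne : q ≠ z) : Onl B U F z q := by
  have hk : ∀ k ∈ F, k ≠ z → Disjoint (B q ∩ U) (B k ∩ U) := by
    intro k hk hkz
    rw [Finset.disjoint_left]
    intro v hv hv'
    rcases mem_union.1 (hq.2 hv) with g | g
    · exact (mem_Wr.1 g).2 k hk (mem_inter.1 hv').1
    · exact Finset.disjoint_left.1 (h.pack.disj k hk z hz hkz) hv' g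
  refine ⟨fun hqF => ?_, hq.1, hk⟩
  have h1 := hk q hqF hne
  rw [disjoint_self] at h1
  have h2 : (B q ∩ U).card = 0 := by rw [h1]; rfl
  have := hq.1
  omega

theorem MaxPack.qq_self {U : Finset V} {F : Finset ι} (h : MaxPack B U F) {z : ι} (hz : z ∈ F) :
    QQ B U (Wr B U F ∪ (B z ∩ U)) z := ⟨h.pack.card z hz, subset_union_right⟩

/-- the exchange system at a member `z`. -/
theorem OptPack.sys {U : Finset V} {F : Finset ι} (h : OptPack B U F)
    (h5 : ∀ i, (B i ∩ U).card ≤ 5) {z : ι} (hz : z ∈ F) {X : Finset V}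
    (hX : X ∈ kps B (Wr B U F))
    (hXq : ∃ q, QQ B U (Wr B U F ∪ (B z ∩ U)) q ∧ (B q ∩ X).Nonempty) :
    Sys B U (Wr B U F ∪ (B z ∩ U)) := by
  have hXW := mem_kps.1 hX
  have hXK : KQ B U (Wr B U F ∪ (B z ∩ U)) X :=
    ⟨hXW.2, hXW.1.trans subset_union_left, hXq⟩
  refine ⟨union_subset Wr_sub inter_subset_right, ?_, ?_⟩
  · -- the five-point blocks meet
    have hz1 : ∀ q, QQ B U (Wr B U F ∪ (B z ∩ U)) q → (B q ∩ B z ∩ U).Nonempty := by
      intro q hq
      by_contra hcon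
      have h1 := h.mp.four h5 q
      have h2 : B q ∩ U ⊆ B q ∩ (U \ F.biUnion B) := by
        intro v hv
        refine mem_inter.2 ⟨(mem_inter.1 hv).1, ?_⟩
        rcases mem_union.1 (hq.2 hv) with g | g
        · exact g
        · exact absurd ⟨v, mem_inter.2 ⟨mem_inter.2 ⟨(mem_inter.1 hv).1, (mem_inter.1 g).1⟩,
            (mem_inter.1 hv).2⟩⟩ hcon
      have h3 := card_le_card h2
      have := hq.1
      omega
    intro q q' hq hq'
    by_cases e : q = z
    · rw [e]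
      obtain ⟨v, hv⟩ := hz1 q' hq'
      rw [mem_inter, mem_inter] at hv
      exact ⟨v, mem_inter.2 ⟨mem_inter.2 ⟨hv.1.2, hv.1.1⟩, hv.2⟩⟩
    by_cases e' : q' = z
    · rw [e']
      exact hz1 q hq
    · have h1 := h.mp.onl_meet hz (h.mp.qq_onl hz hq e) (h.mp.qq_onl hz hq' e')
      rw [disjoint_iff_inter_eq_empty, ← not_nonempty_iff_eq_empty, not_not] at h1
      obtain ⟨v, hv⟩ := h1
      rw [mem_inter, mem_inter, mem_inter] at hv
      exact ⟨v, mem_inter.2 ⟨mem_inter.2 ⟨hv.1.1, hv.2.1⟩, hv.1.2⟩⟩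
  · intro q hq
    by_cases e : q = z
    · refine ⟨X, hXK, ?_⟩
      rw [e, Finset.disjoint_left]
      intro v hv hv'
      exact (mem_Wr.1 (hXW.1 hv')).2 z hz hv
    by_contra hcon
    push Not at hcon
    have ho := h.mp.qq_onl hz hq e
    have h1 : MaxPack B U (sw1 F z q) := ho.sw h.mp hz
    have h2 := h.min _ h1
    have h3 : kps B (Wr B U (sw1 F z q)) ⊆ (kps B (Wr B U F)).erase X := by
      intro Y hY
      obtain ⟨h4, h5'⟩ := mem_kps.1 hY
      rw [Wr_sw1 h.mp.pack hz] at h4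
      have hYV : Y ⊆ Wr B U F ∪ (B z ∩ U) := fun v hv => (mem_sdiff.1 (h4 hv)).1
      have hYq : Disjoint (B q) Y := by
        rw [Finset.disjoint_left]
        intro v hv hv'
        exact (mem_sdiff.1 (h4 hv')).2 hv
      have hnot : ¬ KQ B U (Wr B U F ∪ (B z ∩ U)) Y := fun g => hcon Y g hYq
      refine mem_erase.2 ⟨?_, mem_kps.2 ⟨fun v hv => ?_, h5'⟩⟩
      · rintro rfl
        exact hnot hXK
      · rcases mem_union.1 (hYV hv) with g | g
        · exact g
        · exact absurd ⟨h5', hYV, z, h.mp.qq_self hz, v,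
            mem_inter.2 ⟨(mem_inter.1 g).1, hv⟩⟩ hnot
    have h4 := card_le_card h3
    have h5' := card_erase_add_one hX
    omega

omit [DecidableEq ι] in
/-- some block has exactly one point in the intersection of two K-pieces with at most three common
points, one of which misses a block meeting the other one. -/
theorem exists_one {U X Y : Finset V} {z : ι} (hr : Reg B U) (h5 : ∀ i, (B i ∩ U).card ≤ 5)
    (kX : KP B X) (kY : KP B Y) (sX : X ⊆ U) (sY : Y ⊆ U) (zX : Disjoint (B z) X)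
    (zY : (B z ∩ Y).Nonempty) (hne : (X ∩ Y).Nonempty) :
    ∃ i, (B i ∩ (X ∩ Y)).card = 1 := by
  classical
  have hle3 : (X ∩ Y).card ≤ 3 := by
    have h1 : X ∩ Y ⊆ Y \ B z := by
      intro v hv
      rw [mem_inter] at hv
      exact mem_sdiff.2 ⟨hv.2, fun h => Finset.disjoint_left.1 zX h hv.1⟩
    have h2 := card_le_card h1
    have h3 := card_sdiff_add_card_inter Y (B z)
    rw [inter_comm Y, kY.trace (hr.mono sY) zY, kY.card] at h3
    omega
  by_contra hcon
  push Not at hcon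
  have hge : ∀ i ∈ tch B (X ∩ Y), 2 ≤ (B i ∩ (X ∩ Y)).card := by
    intro i hi
    have h1 := card_pos.2 (cost_mem_tch.1 hi)
    have h2 := hcon i
    omega
  have h1 := sum_inc_tch ((hr.mono sX).mono (inter_subset_left : X ∩ Y ⊆ X))
  have h2 : (tch B (X ∩ Y)).card * 2 ≤ 5 * (X ∩ Y).card := by
    rw [← h1, ← smul_eq_mul, ← sum_const]
    exact sum_le_sum hge
  have h0 := card_pos.2 hne
  rcases (by omega : (X ∩ Y).card = 1 ∨ (X ∩ Y).card = 2 ∨ (X ∩ Y).card = 3) with h | h | h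
  · obtain ⟨w, hw⟩ := card_eq_one.1 h
    have hwX : w ∈ X ∩ Y := by rw [hw]; simp
    obtain ⟨i, hi⟩ := cov_of_reg (hr.mono sX) w (mem_inter.1 hwX).1
    have h3 := hge i (cost_mem_tch.2 ⟨w, mem_inter.2 ⟨hi, hwX⟩⟩)
    have h4 := card_le_card (inter_subset_right : B i ∩ (X ∩ Y) ⊆ X ∩ Y)
    omega
  · obtain ⟨w, w', hww, hw⟩ := card_eq_two.1 h
    have hwX : w ∈ X ∩ Y := by rw [hw]; simp
    have hwX' : w' ∈ X ∩ Y := by rw [hw]; simp
    rw [mem_inter] at hwX hwX'
    have h3 := kX.lam3 (hr.mono sX) hwX.1 hwX'.1 hww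
    have h4 := hr w (sX hwX.1)
    have h6 : univ.filter (fun i => w ∈ B i) ⊆ univ.filter (fun i => w ∈ B i ∧ w' ∈ B i) := by
      intro i hi
      have hi' := (mem_filter.1 hi).2
      refine mem_filter.2 ⟨mem_univ _, hi', ?_⟩
      have h7 := hge i (cost_mem_tch.2 ⟨w, mem_inter.2 ⟨hi', mem_inter.2 hwX⟩⟩)
      have h8 : B i ∩ (X ∩ Y) = X ∩ Y := eq_of_subset_of_card_le inter_subset_right (by omega)
      have h9 : w' ∈ B i ∩ (X ∩ Y) := by rw [h8, hw]; simp
      exact (mem_inter.1 h9).1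
    have h7 := card_le_card h6
    omega
  · -- blocks of `Y` missing the intersection have the trace of `z`
    have hYX : (Y \ X).card = 3 := by
      have := card_sdiff_add_card_inter Y X
      rw [inter_comm, h, kY.card] at this
      omega
    have h10 : (tch B Y).card = 10 := kY.cmX
    have h3 : tch B Y ⊆ tch B (X ∩ Y) ∪ univ.filter (fun j => B j ∩ Y = B z ∩ Y) := by
      intro j hj
      rw [cost_mem_tch] at hj
      rw [mem_union, cost_mem_tch, mem_filter]
      by_cases h' : (B j ∩ (X ∩ Y)).Nonempty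
      · exact Or.inl h'
      · refine Or.inr ⟨mem_univ _, ?_⟩
        have g : ∀ k, (B k ∩ Y).Nonempty → ¬ (B k ∩ (X ∩ Y)).Nonempty → B k ∩ Y = Y \ X := by
          intro k g1 g2
          refine eq_of_subset_of_card_le (fun v hv => ?_) ?_
          · rw [mem_inter] at hv
            exact mem_sdiff.2 ⟨hv.2, fun hX => g2 ⟨v, mem_inter.2 ⟨hv.1,
              mem_inter.2 ⟨hX, hv.2⟩⟩⟩⟩
          · rw [kY.trace (hr.mono sY) g1, hYX]
        rw [g j hj h', g z zY]
        rintro ⟨v, hv⟩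
        rw [mem_inter, mem_inter] at hv
        exact Finset.disjoint_left.1 zX hv.1 hv.2.1
    have h4 := card_le_card h3
    have h6 := card_union_le (tch B (X ∩ Y)) (univ.filter (fun j => B j ∩ Y = B z ∩ Y))
    have h7 := (kY.count (hr.mono sY) zY).1
    omega

/-- **OV, closed form.** a K-piece of the rest and a K-piece meeting the member `z` have a common point
only if `X ∪ (B z ∩ U)` is closed. -/
theorem OptPack.ov_closed {U : Finset V} {F : Finset ι} (h : OptPack B U F) (hr : Reg B U)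
    (h5 : ∀ i, (B i ∩ U).card ≤ 5) (h1 : OvOne B U) {z : ι} (hz : z ∈ F) {X Y : Finset V}
    (hX : X ∈ kps B (Wr B U F)) (hY : KP B Y) (hYs : Y ⊆ Wr B U F ∪ (B z ∩ U))
    (hYz : (B z ∩ Y).Nonempty) (hne : (X ∩ Y).Nonempty) :
    ∀ i, (B i ∩ (X ∪ (B z ∩ U))).Nonempty → B i ∩ U ⊆ X ∪ (B z ∩ U) := by
  have hXW := mem_kps.1 hX
  have sX : X ⊆ U := hXW.1.trans Wr_sub
  have sY : Y ⊆ U := hYs.trans (union_subset Wr_sub inter_subset_right)
  have zX : Disjoint (B z) X := by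
    rw [Finset.disjoint_left]
    intro v hv hv'
    exact (mem_Wr.1 (hXW.1 hv')).2 z hz hv
  obtain ⟨i0, hi0⟩ := exists_one hr h5 hXW.2 hY sX sY zX hYz hne
  obtain ⟨g1, g2⟩ := kk_quint hr h5 hXW.2 hY sX sY hi0
  have hq0 : QQ B U (Wr B U F ∪ (B z ∩ U)) i0 :=
    ⟨g1, g2.trans (union_subset (hXW.1.trans subset_union_left) hYs)⟩
  obtain ⟨w, hw⟩ := card_pos.1 (by rw [hi0]; norm_num : 0 < (B i0 ∩ (X ∩ Y)).card)
  rw [mem_inter, mem_inter] at hw
  have s := h.sys h5 hz hX ⟨i0, hq0, w, mem_inter.2 ⟨hw.1, hw.2.1⟩⟩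
  have f := s.fam hr h5
  have kX : KQ B U (Wr B U F ∪ (B z ∩ U)) X :=
    ⟨hXW.2, hXW.1.trans subset_union_left, i0, hq0, w, mem_inter.2 ⟨hw.1, hw.2.1⟩⟩
  have kY : KQ B U (Wr B U F ∪ (B z ∩ U)) Y := ⟨hY, hYs, z, h.mp.qq_self hz, hYz⟩
  have h3 := f.three hr h5 h1 kX kY hne
  have hle3 : (X ∩ Y).card ≤ 3 := by
    have h1 : X ∩ Y ⊆ Y \ B z := by
      intro v hv
      rw [mem_inter] at hv
      exact mem_sdiff.2 ⟨hv.2, fun h => Finset.disjoint_left.1 zX h hv.1⟩
    have h2 := card_le_card h1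
    have h3 := card_sdiff_add_card_inter Y (B z)
    rw [inter_comm Y, hY.trace (hr.mono sY) hYz, hY.card] at h3
    omega
  have o : Ov3 B U X Y z := by
    refine ⟨hr, h5, hXW.2, hY, sX, sY, zX, h.mp.pack.card z hz, hYz, by omega, ?_⟩
    intro i hi
    obtain ⟨K, hK, hd, a1, a2⟩ := f.star X Y i kX kY hi
    exact ⟨K, hK.1, hK.2.1.trans s.sub, hd, f.three hr h5 h1 hK kX a1,
      f.three hr h5 h1 hK kY a2⟩
  exact fun i hi => o.closed hi

/-- **OV.** in a connected set with `55 rho > 13 cm + 7 |U|` a K-piece of the rest is disjoint from all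
K-pieces inside the rest together with one member. -/
theorem OptPack.ov {U : Finset V} {F : Finset ι} (h : OptPack B U F) (hr : Reg B U)
    (h5 : ∀ i, (B i ∩ U).card ≤ 5) (h1 : OvOne B U) (hc : Conn (gr B) U)
    (hbig : 13 * cm B U + 7 * U.card < 55 * rho B U) {z : ι} (hz : z ∈ F) {X Y : Finset V}
    (hX : X ∈ kps B (Wr B U F)) (hY : KP B Y) (hYs : Y ⊆ Wr B U F ∪ (B z ∩ U))
    (hYz : (B z ∩ Y).Nonempty) : Disjoint X Y := by
  by_contra hcon
  rw [disjoint_iff_inter_eq_empty, ← not_nonempty_iff_eq_empty, not_not] at hcon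
  have hcl := h.ov_closed hr h5 h1 hz hX hY hYs hYz hcon
  have hXW := mem_kps.1 hX
  have sX : X ⊆ U := hXW.1.trans Wr_sub
  set C := X ∪ (B z ∩ U) with hC
  have hCU : C ⊆ U := union_subset sX inter_subset_right
  have hCc : Closed (gr B) U C := by
    refine ⟨hCU, ?_⟩
    rintro x hx y hy ⟨_, i, hxi, hyi⟩
    exact hcl i ⟨x, mem_inter.2 ⟨hxi, hx⟩⟩ (mem_inter.2 ⟨hyi, hy⟩)
  have hCne : C.Nonempty := hXW.2.nonempty.mono subset_union_left
  have hUC : C = U := hc.2 C hCc hCne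
  have hcard : U.card = 11 := by
    rw [← hUC, hC, card_union_of_disjoint, hXW.2.card, h.mp.pack.card z hz]
    rw [Finset.disjoint_left]
    intro v hv hv'
    exact (mem_Wr.1 (hXW.1 hv)).2 z hz (mem_inter.1 hv').1
  have hcm : 55 ≤ 5 * cm B U := by
    have h2 := sum_inc_tch hr
    rw [hcard] at h2
    unfold cm
    have h3 : ∑ i ∈ tch B U, (B i ∩ U).card ≤ ∑ _i ∈ tch B U, 5 :=
      sum_le_sum fun i _ => h5 i
    rw [sum_const, smul_eq_mul] at h3
    omega
  have hrho : rho B U ≤ 4 := by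
    have h2 : Cov B X := cov_of_reg (hr.mono sX)
    have h3 : Cov B (B z ∩ U) := fun v hv => ⟨z, (mem_inter.1 hv).1⟩
    have h4 := rho_union_le h2 h3
    have h6 := rho_le_one (B := B) (inter_subset_left : B z ∩ U ⊆ B z)
    rw [← hC, hUC, hXW.2.rhoX] at h4
    omega
  omega

end Packing

end Pool.Agent.Hyp6
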