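import Pool.Agent.Hyp6.OV2
import Pool.Agent.Hyp6.OVF

/-!
# HYP6 OV3: the K-pieces of the rest and the K-pieces at a member are disjoint
-/

set_option autoImplicit false

namespace Pool.Agent.Hyp6

open Finset Pool.Agent.Hyp5

universe u v

variable {V : Type v} [DecidableEq V] {ι : Type u} [Fintype ι] {B : ι → Finset V}

/-- no two members of a family with the exchange property have exactly one common point. -/
theorem ovOne {U : Finset V} (hr : Reg B U) (h5 : ∀ i, (B i ∩ U).card ≤ 5) : OvOne B U := by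
  intro Ks f S S' hS hS' h1
  obtain ⟨w, hw⟩ := card_eq_one.1 h1
  have one : One B U S S' w :=
    ⟨hr, h5, f.sub S hS, f.sub S' hS', f.kp S hS, f.kp S' hS', hw⟩
  refine one.absurd fun c hc => ?_
  obtain ⟨K, hK, hd, g1, g2⟩ := f.star S S' c hS hS' (by
    rw [hw, inter_singleton_of_mem hc, card_singleton])
  exact ⟨K, ⟨f.kp K hK, f.sub K hK, by rwa [inter_comm], by rwa [inter_comm], c, hc, hd⟩, hd⟩

/-- **OV.** a K-piece of the rest and a K-piece which meets a member and lies in the rest and this member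
are disjoint. -/
theorem OptPack.ovl [DecidableEq ι] {U : Finset V} {F : Finset ι} (h : OptPack B U F)
    (hr : Reg B U) (h5 : ∀ i, (B i ∩ U).card ≤ 5) (hc : Conn (gr B) U)
    (hbig : 13 * cm B U + 7 * U.card < 55 * rho B U) {z : ι} (hz : z ∈ F) {X Y : Finset V}
    (hX : X ∈ kps B (Wr B U F)) (hY : KP B Y) (hYs : Y ⊆ Wr B U F ∪ (B z ∩ U))
    (hYz : (B z ∩ Y).Nonempty) : Disjoint X Y :=
  h.ov hr h5 (ovOne hr h5) hc hbig hz hX hY hYs hYz

end Pool.Agent.Hyp6
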