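import Pool.Agent.Hyp6.OVA

/-!
# HYP6 OVB: two K-pieces with exactly two common points

`Ov2`: the K-pieces `S`, `S'` meet in `{i1, i2}`, the block `c` contains `i1` but not `i2`, the K-piece `K`
misses `c` and has at least two points in `S` and in `S'`. Then two blocks through `i1` have the same traces
on `S` and on `S'` as `c`, and `i1`, `i2` lie in exactly two common blocks.
-/

set_option autoImplicit false

namespace Pool.Agent.Hyp6

open Finset Pool.Agent.Hyp5

universe u v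

variable {V : Type v} [DecidableEq V] {ι : Type u} [Fintype ι] {B : ι → Finset V}

/-- the data of the second claim. -/
structure Ov2 (B : ι → Finset V) (U S S' K : Finset V) (i1 i2 : V) (c : ι) : Prop where
  hr : Reg B U
  h5 : ∀ i, (B i ∩ U).card ≤ 5
  kS : KP B S
  kS' : KP B S'
  kK : KP B K
  sS : S ⊆ U
  sS' : S' ⊆ U
  sK : K ⊆ U
  hI : S ∩ S' = {i1, i2}
  ne : i1 ≠ i2
  c1 : i1 ∈ B c
  c2 : i2 ∉ B c
  ck : Disjoint (B c) K
  a2 : 2 ≤ (K ∩ S).card
  b2 : 2 ≤ (K ∩ S').card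

namespace Ov2

variable {U S S' K : Finset V} {i1 i2 : V} {c : ι}

theorem symm (o : Ov2 B U S S' K i1 i2 c) : Ov2 B U S' S K i1 i2 c :=
  ⟨o.hr, o.h5, o.kS', o.kS, o.kK, o.sS', o.sS, o.sK, by rw [inter_comm, o.hI], o.ne, o.c1, o.c2,
    o.ck, o.b2, o.a2⟩

theorem m1 (o : Ov2 B U S S' K i1 i2 c) : i1 ∈ S ∧ i1 ∈ S' := by
  have : i1 ∈ S ∩ S' := by rw [o.hI]; simp
  exact mem_inter.1 this

theorem m2 (o : Ov2 B U S S' K i1 i2 c) : i2 ∈ S ∧ i2 ∈ S' := by
  have : i2 ∈ S ∩ S' := by rw [o.hI]; simp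
  exact mem_inter.1 this

theorem k1 (o : Ov2 B U S S' K i1 i2 c) : i1 ∉ K := fun h =>
  disjoint_left.1 o.ck o.c1 h

/-- a point of both `S` and `S'` in `K` is `i2`. -/
theorem eq2 (o : Ov2 B U S S' K i1 i2 c) {v : V} (h1 : v ∈ S) (h2 : v ∈ S') (h3 : v ∈ K) :
    v = i2 := by
  have h4 : v ∈ S ∩ S' := mem_inter.2 ⟨h1, h2⟩
  rw [o.hI, mem_insert, mem_singleton] at h4
  rcases h4 with rfl | h4
  · exact absurd h3 o.k1
  · exact h4

theorem rS (o : Ov2 B U S S' K i1 i2 c) : Reg B S := o.hr.mono o.sS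

theorem rK (o : Ov2 B U S S' K i1 i2 c) : Reg B K := o.hr.mono o.sK

theorem tS (o : Ov2 B U S S' K i1 i2 c) {j : ι} (h : (B j ∩ S).Nonempty) :
    (B j ∩ S).card = 3 := o.kS.trace o.rS h

theorem tK (o : Ov2 B U S S' K i1 i2 c) {j : ι} (h : (B j ∩ K).Nonempty) :
    (B j ∩ K).card = 3 := o.kK.trace o.rK h

/-- the trace of `c`. -/
theorem cS (o : Ov2 B U S S' K i1 i2 c) : (B c ∩ S).card = 3 :=
  o.tS ⟨i1, mem_inter.2 ⟨o.c1, o.m1.1⟩⟩

/-- the points of `S` outside `K` contain the trace of `c`. -/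
theorem cSK (o : Ov2 B U S S' K i1 i2 c) : B c ∩ S ⊆ S \ K := by
  intro v hv
  rw [mem_inter] at hv
  exact mem_sdiff.2 ⟨hv.2, fun h => disjoint_left.1 o.ck hv.1 h⟩

theorem cardSK (o : Ov2 B U S S' K i1 i2 c) : (S \ K).card + (K ∩ S).card = 6 := by
  have := card_sdiff_add_card_inter S K
  rw [inter_comm S K, o.kS.card] at this
  exact this

theorem a3 (o : Ov2 B U S S' K i1 i2 c) : (K ∩ S).card ≤ 3 := by
  have h1 := o.cardSK
  have h2 := card_le_card o.cSK
  rw [o.cS] at h2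
  omega

/-- a block missing `S ∩ S'` misses `S` or `S'`. -/
theorem side (o : Ov2 B U S S' K i1 i2 c) {j : ι} (h1 : i1 ∉ B j) (h2 : i2 ∉ B j)
    (h : (B j ∩ S).Nonempty) : ¬ (B j ∩ S').Nonempty := by
  intro h'
  obtain ⟨v, hv⟩ := kk_meet o.hr o.h5 o.kS o.kS' o.sS o.sS' h h'
  rw [o.hI, mem_inter, mem_insert, mem_singleton] at hv
  rcases hv.2 with rfl | rfl
  · exact h1 hv.1
  · exact h2 hv.1

theorem inI1 (o : Ov2 B U S S' K i1 i2 c) {j : ι} (h1 : i1 ∈ B j) (h2 : i2 ∉ B j) :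
    (B j ∩ (S ∩ S')).card = 1 := by
  rw [o.hI, card_eq_one]
  refine ⟨i1, ?_⟩
  ext v
  rw [mem_inter, mem_insert, mem_singleton, mem_singleton]
  constructor
  · rintro ⟨h3, rfl | rfl⟩
    · rfl
    · exact absurd h3 h2
  · rintro rfl
    exact ⟨h1, Or.inl rfl⟩

theorem inI2 (o : Ov2 B U S S' K i1 i2 c) {j : ι} (h1 : i1 ∉ B j) (h2 : i2 ∈ B j) :
    (B j ∩ (S ∩ S')).card = 1 := by
  rw [o.hI, card_eq_one]
  refine ⟨i2, ?_⟩
  ext v
  rw [mem_inter, mem_insert, mem_singleton]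
  constructor
  · rintro ⟨h3, rfl | rfl⟩
    · exact absurd h3 h1
    · rfl
  · rintro rfl
    exact ⟨h2, Or.inr rfl⟩

/-- a block containing exactly one of the two points stays inside `S ∪ S'`. -/
theorem one (o : Ov2 B U S S' K i1 i2 c) {j : ι}
    (h : (i1 ∈ B j ∧ i2 ∉ B j) ∨ (i1 ∉ B j ∧ i2 ∈ B j)) {v : V} (hv : v ∈ B j) (hvU : v ∈ U) :
    v ∈ S ∨ v ∈ S' := by
  have h1 : (B j ∩ (S ∩ S')).card = 1 := by
    rcases h with h | h
    · exact o.inI1 h.1 h.2
    · exact o.inI2 h.1 h.2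
  have h2 := (kk_quint o.hr o.h5 o.kS o.kS' o.sS o.sS' h1).2
  exact mem_union.1 (h2 (mem_inter.2 ⟨hv, hvU⟩))

/-- a block containing both points has at most one further point outside `S ∪ S'`. -/
theorem two (o : Ov2 B U S S' K i1 i2 c) {j : ι} (h1 : i1 ∈ B j) (h2 : i2 ∈ B j) :
    (B j ∩ (K \ (S ∪ S'))).card ≤ 1 := by
  have h3 : (B j ∩ (S ∩ S')).card = 2 := by
    rw [o.hI, inter_eq_right.2, card_pair o.ne]
    intro v hv
    rw [mem_insert, mem_singleton] at hv
    rcases hv with rfl | rfl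
    · exact h1
    · exact h2
  have h4 := kk_sum o.hr o.kS o.kS' o.sS o.sS' (i := j) ⟨i1, mem_inter.2 ⟨h1, o.m1.1⟩⟩
    ⟨i1, mem_inter.2 ⟨h1, o.m1.2⟩⟩
  have h5 : (B j ∩ (S ∪ S')).card + (B j ∩ (K \ (S ∪ S'))).card ≤ 5 := by
    rw [← card_union_of_disjoint]
    · refine (card_le_card ?_).trans (o.h5 j)
      rw [← inter_union_distrib_left]
      refine inter_subset_inter_left (union_subset (union_subset o.sS o.sS') ?_)
      exact sdiff_subset.trans o.sK
    · rw [disjoint_left]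
      intro v hv hv'
      exact (mem_sdiff.1 (mem_inter.1 hv').2).2 (mem_inter.1 hv).2
  omega

/-- the number of blocks with neither point. -/
theorem nS (o : Ov2 B U S S' K i1 i2 c) :
    (univ.filter (fun j => (B j ∩ S).Nonempty ∧ i1 ∉ B j ∧ i2 ∉ B j)).card =
      (univ.filter (fun j => i1 ∈ B j ∧ i2 ∈ B j)).card :=
  o.kS.neither o.rS o.m1.1 o.m2.1

theorem n1 (o : Ov2 B U S S' K i1 i2 c) :
    (univ.filter (fun j => i1 ∈ B j ∧ i2 ∉ B j)).card +
      (univ.filter (fun j => i1 ∈ B j ∧ i2 ∈ B j)).card = 5 := by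
  classical
  rw [← o.hr i1 (o.sS o.m1.1), ← card_union_of_disjoint]
  · congr 1
    ext j
    simp only [mem_union, mem_filter, mem_univ, true_and]
    tauto
  · rw [disjoint_left]
    intro j hj hj'
    exact (mem_filter.1 hj).2.2 (mem_filter.1 hj').2.2

theorem n2 (o : Ov2 B U S S' K i1 i2 c) :
    (univ.filter (fun j => i1 ∉ B j ∧ i2 ∈ B j)).card +
      (univ.filter (fun j => i1 ∈ B j ∧ i2 ∈ B j)).card = 5 := by
  classical
  rw [← o.hr i2 (o.sS o.m2.1), ← card_union_of_disjoint]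
  · congr 1
    ext j
    simp only [mem_union, mem_filter, mem_univ, true_and]
    tauto
  · rw [disjoint_left]
    intro j hj hj'
    exact (mem_filter.1 hj).2.1 (mem_filter.1 hj').2.1

theorem t3 (o : Ov2 B U S S' K i1 i2 c) :
    (univ.filter (fun j => i1 ∈ B j ∧ i2 ∈ B j)).card ≤ 3 :=
  o.kS.lam3 o.rS o.m1.1 o.m2.1 o.ne

/-- case (d): `K` meets `S` and `S'` in two points, one of them is `i2`. -/
theorem cd (o : Ov2 B U S S' K i1 i2 c) (h2K : i2 ∈ K) (ha : (K ∩ S).card = 2)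
    (hb : (K ∩ S').card = 2) : False := by
  classical
  obtain ⟨a, ha1⟩ : ∃ a, K ∩ S = {i2, a} ∧ i2 ≠ a := by
    have h1 : ((K ∩ S).erase i2).card = 1 := by
      rw [card_erase_of_mem (mem_inter.2 ⟨h2K, o.m2.1⟩), ha]
    obtain ⟨a, h2⟩ := card_eq_one.1 h1
    refine ⟨a, ?_, ?_⟩
    · rw [← h2, insert_erase (mem_inter.2 ⟨h2K, o.m2.1⟩)]
    · rintro rfl
      have : i2 ∈ (K ∩ S).erase i2 := by rw [h2]; simp
      exact (mem_erase.1 this).1 rfl
  obtain ⟨b, hb1⟩ : ∃ b, K ∩ S' = {i2, b} ∧ i2 ≠ b := by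
    have h1 : ((K ∩ S').erase i2).card = 1 := by
      rw [card_erase_of_mem (mem_inter.2 ⟨h2K, o.m2.2⟩), hb]
    obtain ⟨b, h2⟩ := card_eq_one.1 h1
    refine ⟨b, ?_, ?_⟩
    · rw [← h2, insert_erase (mem_inter.2 ⟨h2K, o.m2.2⟩)]
    · rintro rfl
      have : i2 ∈ (K ∩ S').erase i2 := by rw [h2]; simp
      exact (mem_erase.1 this).1 rfl
  obtain ⟨ha1, ha2⟩ := ha1
  obtain ⟨hb1, hb2⟩ := hb1
  have haS : a ∈ K ∧ a ∈ S := by
    have : a ∈ K ∩ S := by rw [ha1]; simp
    exact mem_inter.1 this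
  have hbS : b ∈ K ∧ b ∈ S' := by
    have : b ∈ K ∩ S' := by rw [hb1]; simp
    exact mem_inter.1 this
  have hab : a ≠ b := by
    rintro rfl
    exact ha2 (o.eq2 haS.2 hbS.2 haS.1).symm
  -- the trace of a block with exactly one of the two points
  have hsub : ∀ j, ((i1 ∈ B j ∧ i2 ∉ B j) ∨ (i1 ∉ B j ∧ i2 ∈ B j)) →
      B j ∩ K ⊆ {i2, a, b} := by
    intro j hj v hv
    rw [mem_inter] at hv
    rcases o.one hj hv.1 (o.sK hv.2) with h | h
    · have : v ∈ K ∩ S := mem_inter.2 ⟨hv.2, h⟩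
      rw [ha1, mem_insert, mem_singleton] at this
      rw [mem_insert, mem_insert, mem_singleton]
      tauto
    · have : v ∈ K ∩ S' := mem_inter.2 ⟨hv.2, h⟩
      rw [hb1, mem_insert, mem_singleton] at this
      rw [mem_insert, mem_insert, mem_singleton]
      tauto
  have hc3 : ({i2, a, b} : Finset V).card = 3 := card_eq_three.2 ⟨i2, a, b, ha2, hb2, hab, rfl⟩
  have hall : ∀ j, ((i1 ∈ B j ∧ i2 ∉ B j) ∨ (i1 ∉ B j ∧ i2 ∈ B j)) → (B j ∩ K).Nonempty →
      B j ∩ K = {i2, a, b} := by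
    intro j hj hne
    refine eq_of_subset_of_card_le (hsub j hj) ?_
    rw [o.tK hne, hc3]
  have hq1 : ∀ j, i1 ∈ B j → i2 ∉ B j → a ∉ B j ∧ b ∉ B j := by
    intro j h1 h2
    have h3 : ¬ (B j ∩ K).Nonempty := by
      intro h3
      have h4 := hall j (Or.inl ⟨h1, h2⟩) h3
      have : i2 ∈ B j ∩ K := by rw [h4]; simp
      exact h2 (mem_inter.1 this).1
    exact ⟨fun h => h3 ⟨a, mem_inter.2 ⟨h, haS.1⟩⟩, fun h => h3 ⟨b, mem_inter.2 ⟨h, hbS.1⟩⟩⟩
  have hq2 : ∀ j, i1 ∉ B j → i2 ∈ B j → a ∈ B j ∧ b ∈ B j := by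
    intro j h1 h2
    have h4 := hall j (Or.inr ⟨h1, h2⟩) ⟨i2, mem_inter.2 ⟨h2, h2K⟩⟩
    have e1 : a ∈ B j ∩ K := by rw [h4]; simp
    have e2 : b ∈ B j ∩ K := by rw [h4]; simp
    exact ⟨(mem_inter.1 e1).1, (mem_inter.1 e2).1⟩
  have hn2 := o.n2
  have ht3 := o.t3
  -- at most one block on both points contains `a`, and at least one
  have key : ∀ x, x ∈ K → (∀ j, i1 ∉ B j → i2 ∈ B j → x ∈ B j) →
      (univ.filter (fun j => i2 ∈ B j ∧ x ∈ B j)).card ≤ 3 →
      (univ.filter (fun j => i1 ∉ B j ∧ i2 ∈ B j)).card +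
        (univ.filter (fun j => i1 ∈ B j ∧ i2 ∈ B j ∧ x ∈ B j)).card ≤ 3 := by
    intro x _ h1 h2
    rw [← card_union_of_disjoint]
    · refine (card_le_card ?_).trans h2
      intro j hj
      rw [mem_filter]
      refine ⟨mem_univ _, ?_⟩
      rcases mem_union.1 hj with hj | hj
      · have := (mem_filter.1 hj).2
        exact ⟨this.2, h1 j this.1 this.2⟩
      · have := (mem_filter.1 hj).2
        exact ⟨this.2.1, this.2.2⟩
    · rw [disjoint_left]
      intro j hj hj'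
      exact (mem_filter.1 hj).2.1 (mem_filter.1 hj').2.1
  have ka := key a haS.1 (fun j h1 h2 => (hq2 j h1 h2).1)
    (o.kS.lam3 o.rS o.m2.1 haS.2 ha2)
  have kb := key b hbS.1 (fun j h1 h2 => (hq2 j h1 h2).2)
    (o.kS'.lam3 o.symm.rS o.m2.2 hbS.2 hb2)
  obtain ⟨j, hj1, hja⟩ := o.kS.common o.rS o.m1.1 haS.2 (fun e => o.k1 (e ▸ haS.1))
  have hj2 : i2 ∈ B j := by
    by_contra h
    exact (hq1 j hj1 h).1 hja
  have hpos : 0 < (univ.filter (fun j => i1 ∈ B j ∧ i2 ∈ B j ∧ a ∈ B j)).card :=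
    card_pos.2 ⟨j, mem_filter.2 ⟨mem_univ _, hj1, hj2, hja⟩⟩
  have hT : univ.filter (fun j => i1 ∈ B j ∧ i2 ∈ B j) ⊆
      univ.filter (fun j => i1 ∈ B j ∧ i2 ∈ B j ∧ a ∈ B j) ∪
      univ.filter (fun j => i1 ∈ B j ∧ i2 ∈ B j ∧ b ∈ B j) := by
    intro j hj
    have hj' := (mem_filter.1 hj).2
    rw [mem_union, mem_filter, mem_filter]
    by_contra hcon
    have h1 : a ∉ B j := fun h => hcon (Or.inl ⟨mem_univ _, hj'.1, hj'.2, h⟩)
    have h2 : b ∉ B j := fun h => hcon (Or.inr ⟨mem_univ _, hj'.1, hj'.2, h⟩)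
    have h3 := o.two hj'.1 hj'.2
    have h4 := o.tK (j := j) ⟨i2, mem_inter.2 ⟨hj'.2, h2K⟩⟩
    have h5 : B j ∩ K ⊆ {i2} ∪ (B j ∩ (K \ (S ∪ S'))) := by
      intro v hv
      rw [mem_inter] at hv
      rw [mem_union, mem_singleton, mem_inter, mem_sdiff, mem_union]
      by_cases h6 : v ∈ S
      · have : v ∈ K ∩ S := mem_inter.2 ⟨hv.2, h6⟩
        rw [ha1, mem_insert, mem_singleton] at this
        rcases this with h7 | h7
        · exact Or.inl h7
        · exact absurd (h7 ▸ hv.1) h1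
      · by_cases h7 : v ∈ S'
        · have : v ∈ K ∩ S' := mem_inter.2 ⟨hv.2, h7⟩
          rw [hb1, mem_insert, mem_singleton] at this
          rcases this with h8 | h8
          · exact Or.inl h8
          · exact absurd (h8 ▸ hv.1) h2
        · exact Or.inr ⟨hv.1, hv.2, fun h => h.elim h6 h7⟩
    have h6 := card_le_card h5
    have h7 := card_union_le ({i2} : Finset V) (B j ∩ (K \ (S ∪ S')))
    rw [card_singleton] at h7
    omega
  have h1 := card_le_card hT
  have h2 := card_union_le (univ.filter (fun j => i1 ∈ B j ∧ i2 ∈ B j ∧ a ∈ B j))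
    (univ.filter (fun j => i1 ∈ B j ∧ i2 ∈ B j ∧ b ∈ B j))
  omega

/-- the points of `S` outside `K` are the trace of `c`, if `K` has three points in `S`. -/
theorem cSK3 (o : Ov2 B U S S' K i1 i2 c) (ha : (K ∩ S).card = 3) : S \ K = B c ∩ S := by
  symm
  refine eq_of_subset_of_card_le o.cSK ?_
  have := o.cardSK
  rw [o.cS]
  omega

/-- a side block meets `K`, if `i1` is one of three points of `S` outside `K`. -/
theorem side_meet3 (o : Ov2 B U S S' K i1 i2 c) (ha : (K ∩ S).card = 3) {j : ι}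
    (h : (B j ∩ S).Nonempty) (h1 : i1 ∉ B j) : (B j ∩ (K ∩ S)).Nonempty := by
  by_contra hcon
  rw [not_nonempty_iff_eq_empty] at hcon
  have h2 : B j ∩ S ⊆ (S \ K).erase i1 := by
    intro v hv
    rw [mem_inter] at hv
    refine mem_erase.2 ⟨fun e => h1 (e ▸ hv.1), mem_sdiff.2 ⟨hv.2, fun hK => ?_⟩⟩
    have : v ∈ B j ∩ (K ∩ S) := mem_inter.2 ⟨hv.1, mem_inter.2 ⟨hK, hv.2⟩⟩
    rw [hcon] at this
    exact notMem_empty _ this
  have h3 := card_le_card h2
  have h4 := o.cardSK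
  rw [card_erase_of_mem (mem_sdiff.2 ⟨o.m1.1, o.k1⟩), o.tS h] at h3
  omega

/-- the points of `K` in `S ∪ S'`, when `i2` is in `K`. -/
theorem cardK (o : Ov2 B U S S' K i1 i2 c) (h2K : i2 ∈ K) :
    (K ∩ (S ∪ S')).card + 1 = (K ∩ S).card + (K ∩ S').card := by
  rw [← card_union_add_card_inter, ← inter_union_distrib_left]
  congr 1
  symm
  rw [card_eq_one]
  refine ⟨i2, ?_⟩
  ext v
  rw [mem_inter, mem_inter, mem_inter, mem_singleton]
  constructor
  · rintro ⟨⟨h1, h2⟩, _, h3⟩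
    exact o.eq2 h2 h3 h1
  · rintro rfl
    exact ⟨⟨h2K, o.m2.1⟩, h2K, o.m2.2⟩

theorem cardR (_o : Ov2 B U S S' K i1 i2 c) :
    (K ∩ (S ∪ S')).card + (K \ (S ∪ S')).card = 6 := by
  have := card_sdiff_add_card_inter K (S ∪ S')
  rw [_o.kK.card] at this
  omega

/-- case (b): `K` meets `S` and `S'` in three points. -/
theorem cb (o : Ov2 B U S S' K i1 i2 c) (h2K : i2 ∈ K) (ha : (K ∩ S).card = 3)
    (hb : (K ∩ S').card = 3) :
    (univ.filter (fun j => i1 ∈ B j ∧ i2 ∈ B j)).card = 2 ∧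
      ∃ d, d ≠ c ∧ i1 ∈ B d ∧ i2 ∉ B d ∧ B d ∩ S = B c ∩ S ∧ B d ∩ S' = B c ∩ S' := by
  classical
  have hR := o.cardR
  have hK := o.cardK h2K
  obtain ⟨r, hr⟩ := card_eq_one.1 (by omega : (K \ (S ∪ S')).card = 1)
  have hrK : r ∈ K \ (S ∪ S') := by rw [hr]; simp
  rw [mem_sdiff, mem_union, not_or] at hrK
  have hS := o.nS
  have hS' := o.symm.nS
  have h1 := o.n1
  set T := univ.filter (fun j => i1 ∈ B j ∧ i2 ∈ B j) with hT
  set N := univ.filter (fun j => (B j ∩ S).Nonempty ∧ i1 ∉ B j ∧ i2 ∉ B j) with hN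
  set N' := univ.filter (fun j => (B j ∩ S').Nonempty ∧ i1 ∉ B j ∧ i2 ∉ B j) with hN'
  -- the side blocks contain `r`
  have hside : ∀ j ∈ N, (B j ∩ K).Nonempty ∧ r ∈ B j := by
    intro j hj
    have hj' := (mem_filter.1 hj).2
    obtain ⟨v, hv⟩ := o.side_meet3 ha hj'.1 hj'.2.1
    rw [mem_inter, mem_inter] at hv
    have hne : (B j ∩ K).Nonempty := ⟨v, mem_inter.2 ⟨hv.1, hv.2.1⟩⟩
    refine ⟨hne, ?_⟩
    by_contra hcon
    have h3 := o.tK hne
    have h4 := o.side hj'.2.1 hj'.2.2 hj'.1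
    have h5 : B j ∩ K ⊆ (K ∩ S).erase i2 := by
      intro w hw
      rw [mem_inter] at hw
      refine mem_erase.2 ⟨fun e => hj'.2.2 (e ▸ hw.1), mem_inter.2 ⟨hw.2, ?_⟩⟩
      by_contra hwS
      have hwS' : w ∉ S' := fun h => h4 ⟨w, mem_inter.2 ⟨hw.1, h⟩⟩
      have : w ∈ K \ (S ∪ S') := mem_sdiff.2 ⟨hw.2, fun h => (mem_union.1 h).elim hwS hwS'⟩
      rw [hr, mem_singleton] at this
      exact hcon (this ▸ hw.1)
    have h6 := card_le_card h5
    rw [card_erase_of_mem (mem_inter.2 ⟨h2K, o.m2.1⟩)] at h6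
    omega
  have hside' : ∀ j ∈ N', (B j ∩ K).Nonempty ∧ r ∈ B j := by
    intro j hj
    have hj' := (mem_filter.1 hj).2
    obtain ⟨v, hv⟩ := o.symm.side_meet3 hb hj'.1 hj'.2.1
    rw [mem_inter, mem_inter] at hv
    have hne : (B j ∩ K).Nonempty := ⟨v, mem_inter.2 ⟨hv.1, hv.2.1⟩⟩
    refine ⟨hne, ?_⟩
    by_contra hcon
    have h3 := o.tK hne
    have h4 := o.symm.side hj'.2.1 hj'.2.2 hj'.1
    have h5 : B j ∩ K ⊆ (K ∩ S').erase i2 := by
      intro w hw
      rw [mem_inter] at hw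
      refine mem_erase.2 ⟨fun e => hj'.2.2 (e ▸ hw.1), mem_inter.2 ⟨hw.2, ?_⟩⟩
      by_contra hwS
      have hwS' : w ∉ S := fun h => h4 ⟨w, mem_inter.2 ⟨hw.1, h⟩⟩
      have : w ∈ K \ (S ∪ S') := mem_sdiff.2 ⟨hw.2, fun h => (mem_union.1 h).elim hwS' hwS⟩
      rw [hr, mem_singleton] at this
      exact hcon (this ▸ hw.1)
    have h6 := card_le_card h5
    rw [card_erase_of_mem (mem_inter.2 ⟨h2K, o.m2.2⟩)] at h6
    omega
  have hdis : Disjoint N N' := by
    rw [disjoint_left]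
    intro j hj hj'
    have h2 := (mem_filter.1 hj).2
    exact o.side h2.2.1 h2.2.2 h2.1 (mem_filter.1 hj').2.1
  have hdT : Disjoint (N ∪ N') T := by
    rw [disjoint_left]
    intro j hj hj'
    have h2 := (mem_filter.1 hj').2
    rcases mem_union.1 hj with h3 | h3
    · exact (mem_filter.1 h3).2.2.1 h2.1
    · exact (mem_filter.1 h3).2.2.1 h2.1
  -- every block meeting `K` meets `S ∪ S'`
  have hmeet : ∀ j, (B j ∩ K).Nonempty → i1 ∉ B j → i2 ∉ B j → j ∈ N ∪ N' := by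
    intro j hj h2 h3
    by_contra hcon
    rw [mem_union, mem_filter, mem_filter] at hcon
    have h4 : ¬ (B j ∩ S).Nonempty := fun h => hcon (Or.inl ⟨mem_univ _, h, h2, h3⟩)
    have h5 : ¬ (B j ∩ S').Nonempty := fun h => hcon (Or.inr ⟨mem_univ _, h, h2, h3⟩)
    have h6 : B j ∩ K ⊆ K \ (S ∪ S') := by
      intro w hw
      rw [mem_inter] at hw
      refine mem_sdiff.2 ⟨hw.2, fun h => ?_⟩
      rcases mem_union.1 h with h | h
      · exact h4 ⟨w, mem_inter.2 ⟨hw.1, h⟩⟩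
      · exact h5 ⟨w, mem_inter.2 ⟨hw.1, h⟩⟩
    have h7 := card_le_card h6
    rw [o.tK hj, hr, card_singleton] at h7
    omega
  have hdeg := o.hr r (o.sK hrK.1)
  have hlow : N ∪ N' ⊆ univ.filter (fun j => r ∈ B j) := by
    intro j hj
    refine mem_filter.2 ⟨mem_univ _, ?_⟩
    rcases mem_union.1 hj with h3 | h3
    · exact (hside j h3).2
    · exact (hside' j h3).2
  have hup : univ.filter (fun j => r ∈ B j) ⊆ (N ∪ N') ∪ T := by
    intro j hj
    have h2 := (mem_filter.1 hj).2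
    have h3 : (B j ∩ K).Nonempty := ⟨r, mem_inter.2 ⟨h2, hrK.1⟩⟩
    by_cases h4 : i1 ∈ B j <;> by_cases h5 : i2 ∈ B j
    · exact mem_union.2 (Or.inr (mem_filter.2 ⟨mem_univ _, h4, h5⟩))
    · rcases o.one (Or.inl ⟨h4, h5⟩) h2 (o.sK hrK.1) with h | h
      · exact absurd h hrK.2.1
      · exact absurd h hrK.2.2
    · rcases o.one (Or.inr ⟨h4, h5⟩) h2 (o.sK hrK.1) with h | h
      · exact absurd h hrK.2.1
      · exact absurd h hrK.2.2
    · exact mem_union.2 (Or.inl (hmeet j h3 h4 h5))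
  have e1 := card_le_card hlow
  have e2 := card_le_card hup
  rw [card_union_of_disjoint hdis, hdeg] at e1
  rw [card_union_of_disjoint hdT, card_union_of_disjoint hdis, hdeg] at e2
  have hT2 : T.card = 2 := by omega
  refine ⟨hT2, ?_⟩
  -- the blocks meeting `K`
  set Q := univ.filter (fun j => i1 ∈ B j ∧ i2 ∉ B j) with hQ
  set D := univ.filter (fun j => i2 ∈ B j) with hD
  have hDc : D.card = 5 := o.hr i2 (o.sK h2K)
  have hcov : Q.filter (fun j => (B j ∩ K).Nonempty) ∪ ((N ∪ N') ∪ D) ⊆ tch B K := by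
    intro j hj
    rw [cost_mem_tch]
    rcases mem_union.1 hj with h | h
    · exact (mem_filter.1 h).2
    rcases mem_union.1 h with h | h
    · rcases mem_union.1 h with h3 | h3
      · exact (hside j h3).1
      · exact (hside' j h3).1
    · exact ⟨i2, mem_inter.2 ⟨(mem_filter.1 h).2, h2K⟩⟩
  have hdD : Disjoint (N ∪ N') D := by
    rw [disjoint_left]
    intro j hj hj'
    have h2 := (mem_filter.1 hj').2
    rcases mem_union.1 hj with h3 | h3
    · exact (mem_filter.1 h3).2.2.2 h2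
    · exact (mem_filter.1 h3).2.2.2 h2
  have hdQ : Disjoint (Q.filter (fun j => (B j ∩ K).Nonempty)) ((N ∪ N') ∪ D) := by
    rw [disjoint_left]
    intro j hj hj'
    have h2 := (mem_filter.1 (mem_filter.1 hj).1).2
    rcases mem_union.1 hj' with h | h
    · rcases mem_union.1 h with h3 | h3
      · exact (mem_filter.1 h3).2.2.1 h2.1
      · exact (mem_filter.1 h3).2.2.1 h2.1
    · exact h2.2 (mem_filter.1 h).2
  have e3 := card_le_card hcov
  have hK10 : (tch B K).card = 10 := o.kK.cmX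
  rw [card_union_of_disjoint hdQ, card_union_of_disjoint hdD, card_union_of_disjoint hdis, hK10]
    at e3
  have e4 := card_filter_add_card_filter_not (s := Q) (fun j => (B j ∩ K).Nonempty)
  have hcQ : c ∈ Q.filter (fun j => ¬ (B j ∩ K).Nonempty) := by
    refine mem_filter.2 ⟨mem_filter.2 ⟨mem_univ _, o.c1, o.c2⟩, ?_⟩
    rw [not_nonempty_iff_eq_empty]
    exact disjoint_iff_inter_eq_empty.1 o.ck
  have h6 : 1 < (Q.filter (fun j => ¬ (B j ∩ K).Nonempty)).card := by omega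
  obtain ⟨d, hd, hdc⟩ := exists_mem_ne h6 c
  have hd' := mem_filter.1 hd
  have hd'' := (mem_filter.1 hd'.1).2
  have hfin : ∀ {S1 : Finset V}, (B d ∩ S1).card = 3 → (S1 \ K).card = 3 →
      B d ∩ S1 = S1 \ K := by
    intro S1 g1 g2
    refine eq_of_subset_of_card_le (fun v hv => ?_) (by omega)
    rw [mem_inter] at hv
    exact mem_sdiff.2 ⟨hv.2, fun h => hd'.2 ⟨v, mem_inter.2 ⟨hv.1, h⟩⟩⟩
  have g1 := o.cardSK
  have g2 := o.symm.cardSK
  refine ⟨d, hdc, hd''.1, hd''.2, ?_, ?_⟩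
  · rw [← o.cSK3 ha]
    exact hfin (o.tS ⟨i1, mem_inter.2 ⟨hd''.1, o.m1.1⟩⟩) (by omega)
  · rw [← o.symm.cSK3 hb]
    exact hfin (o.symm.tS ⟨i1, mem_inter.2 ⟨hd''.1, o.m1.2⟩⟩) (by omega)

/-- the other point of `K ∩ S`. -/
theorem other (o : Ov2 B U S S' K i1 i2 c) (h2K : i2 ∈ K) (ha : (K ∩ S).card = 2) :
    ∃ a, K ∩ S = {i2, a} ∧ i2 ≠ a ∧ a ∈ K ∧ a ∈ S ∧ a ∉ S' ∧ a ≠ i1 := by
  have h1 : ((K ∩ S).erase i2).card = 1 := by
    rw [card_erase_of_mem (mem_inter.2 ⟨h2K, o.m2.1⟩), ha]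
  obtain ⟨a, h2⟩ := card_eq_one.1 h1
  have h3 : a ∈ (K ∩ S).erase i2 := by rw [h2]; simp
  rw [mem_erase, mem_inter] at h3
  refine ⟨a, ?_, h3.1.symm, h3.2.1, h3.2.2, fun h => h3.1 (o.eq2 h3.2.2 h h3.2.1),
    fun e => o.k1 (e ▸ h3.2.1)⟩
  rw [← h2, insert_erase (mem_inter.2 ⟨h2K, o.m2.1⟩)]

/-- case (c): `K` meets `S` in two points and `S'` in three points. -/
theorem cc (o : Ov2 B U S S' K i1 i2 c) (h2K : i2 ∈ K) (ha : (K ∩ S).card = 2)
    (hb : (K ∩ S').card = 3) : False := by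
  classical
  have hR := o.cardR
  have hK := o.cardK h2K
  obtain ⟨a, ha1, ha2, haK, haS, haS', hai⟩ := o.other h2K ha
  obtain ⟨r, r', hrr, hRe⟩ := card_eq_two.1 (by omega : (K \ (S ∪ S')).card = 2)
  have hrK : r ∈ K \ (S ∪ S') := by rw [hRe]; simp
  have hrK' : r' ∈ K \ (S ∪ S') := by rw [hRe]; simp
  rw [mem_sdiff, mem_union, not_or] at hrK hrK'
  have hS := o.nS
  have hS' := o.symm.nS
  have hn1 := o.n1
  have hn2 := o.n2
  have ht3 := o.t3
  set T := univ.filter (fun j => i1 ∈ B j ∧ i2 ∈ B j) with hT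
  set N := univ.filter (fun j => (B j ∩ S).Nonempty ∧ i1 ∉ B j ∧ i2 ∉ B j) with hN
  set N' := univ.filter (fun j => (B j ∩ S').Nonempty ∧ i1 ∉ B j ∧ i2 ∉ B j) with hN'
  set Na := N.filter (fun j => a ∈ B j) with hNa
  set NR := N'.filter (fun j => r ∈ B j ∧ r' ∈ B j) with hNR
  have hNal : Na.card ≤ N.card := card_filter_le _ _
  -- blocks of `N` with the point `a` contain `r` and `r'`
  have hNaR : ∀ j ∈ Na, r ∈ B j ∧ r' ∈ B j := by
    intro j hj
    have hj1 := mem_filter.1 hj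
    have hj2 := (mem_filter.1 hj1.1).2
    have h3 := o.tK (j := j) ⟨a, mem_inter.2 ⟨hj1.2, haK⟩⟩
    have h4 := o.side hj2.2.1 hj2.2.2 hj2.1
    have h5 : B j ∩ K ⊆ {a, r, r'} := by
      intro w hw
      rw [mem_inter] at hw
      rw [mem_insert, mem_insert, mem_singleton]
      by_cases hwS : w ∈ S
      · have : w ∈ K ∩ S := mem_inter.2 ⟨hw.2, hwS⟩
        rw [ha1, mem_insert, mem_singleton] at this
        rcases this with h | h
        · exact absurd (h ▸ hw.1) hj2.2.2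
        · exact Or.inl h
      · have hwS' : w ∉ S' := fun h => h4 ⟨w, mem_inter.2 ⟨hw.1, h⟩⟩
        have : w ∈ K \ (S ∪ S') := mem_sdiff.2 ⟨hw.2, fun h => (mem_union.1 h).elim hwS hwS'⟩
        rw [hRe, mem_insert, mem_singleton] at this
        exact Or.inr this
    have h6 : B j ∩ K = {a, r, r'} := eq_of_subset_of_card_le h5 (by
      rw [h3]; exact card_le_three)
    have e1 : r ∈ B j ∩ K := by rw [h6]; simp
    have e2 : r' ∈ B j ∩ K := by rw [h6]; simp
    exact ⟨(mem_inter.1 e1).1, (mem_inter.1 e2).1⟩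
  have hdis : Disjoint N N' := by
    rw [disjoint_left]
    intro j hj hj'
    have h2 := (mem_filter.1 hj).2
    exact o.side h2.2.1 h2.2.2 h2.1 (mem_filter.1 hj').2.1
  have hlam : Na.card + NR.card ≤ 3 := by
    rw [← card_union_of_disjoint (disjoint_of_subset_left (filter_subset _ _)
      (disjoint_of_subset_right (filter_subset _ _) hdis))]
    refine (card_le_card ?_).trans (o.kK.lam3 o.rK hrK.1 hrK'.1 hrr)
    intro j hj
    refine mem_filter.2 ⟨mem_univ _, ?_⟩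
    rcases mem_union.1 hj with h | h
    · exact hNaR j h
    · exact (mem_filter.1 h).2
  -- blocks of `N` without `a` miss `K`
  have hmiss : ∀ j, (B j ∩ S).Nonempty → i2 ∉ B j → a ∉ B j → ¬ (B j ∩ K).Nonempty := by
    intro j h1 h2 h3 h4
    obtain ⟨v, hv⟩ := kk_meet o.hr o.h5 o.kK o.kS o.sK o.sS h4 h1
    rw [ha1, mem_inter, mem_insert, mem_singleton] at hv
    rcases hv.2 with h | h
    · exact h2 (h ▸ hv.1)
    · exact h3 (h ▸ hv.1)
  have hRin : ∀ j, (B j ∩ {r, r'}).card = (if r ∈ B j then 1 else 0) +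
      (if r' ∈ B j then 1 else 0) := by
    intro j
    rw [inter_comm, ← filter_mem_eq_inter, card_filter, sum_pair hrr]
  have hmeet : ∀ j, (B j ∩ K).Nonempty → i1 ∉ B j → i2 ∉ B j → j ∈ N ∪ N' := by
    intro j hj h2 h3
    by_contra hcon
    rw [mem_union, mem_filter, mem_filter] at hcon
    have h4 : ¬ (B j ∩ S).Nonempty := fun h => hcon (Or.inl ⟨mem_univ _, h, h2, h3⟩)
    have h5 : ¬ (B j ∩ S').Nonempty := fun h => hcon (Or.inr ⟨mem_univ _, h, h2, h3⟩)
    have h6 : B j ∩ K ⊆ K \ (S ∪ S') := by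
      intro w hw
      rw [mem_inter] at hw
      refine mem_sdiff.2 ⟨hw.2, fun h => ?_⟩
      rcases mem_union.1 h with h | h
      · exact h4 ⟨w, mem_inter.2 ⟨hw.1, h⟩⟩
      · exact h5 ⟨w, mem_inter.2 ⟨hw.1, h⟩⟩
    have h7 := card_le_card h6
    rw [o.tK hj, hRe, card_pair hrr] at h7
    omega
  -- the incidences with `r`, `r'`
  have hrU : r ∈ U := o.sK hrK.1
  have hrU' : r' ∈ U := o.sK hrK'.1
  have hsum : (10 : ℕ) ≤ 2 * Na.card + N'.card + NR.card + T.card := by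
    have h1 := o.hr r hrU
    have h2 := o.hr r' hrU'
    rw [card_filter] at h1 h2
    have h3 : (10 : ℕ) = ∑ j, ((if r ∈ B j then 1 else 0) + (if r' ∈ B j then 1 else 0)) := by
      rw [sum_add_distrib, h1, h2]
    rw [h3]
    have h4 : ∀ j ∈ (univ : Finset ι), (if r ∈ B j then 1 else 0) + (if r' ∈ B j then 1 else 0) ≤
        2 * (if j ∈ Na then 1 else 0) + (if j ∈ N' then 1 else 0) + (if j ∈ NR then 1 else 0) +
          (if j ∈ T then 1 else 0) := by
      intro j _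
      by_cases g0 : r ∈ B j ∨ r' ∈ B j
      swap
      · rw [not_or] at g0
        rw [if_neg g0.1, if_neg g0.2]
        exact Nat.zero_le _
      have gK : (B j ∩ K).Nonempty := by
        rcases g0 with g | g
        · exact ⟨r, mem_inter.2 ⟨g, hrK.1⟩⟩
        · exact ⟨r', mem_inter.2 ⟨g, hrK'.1⟩⟩
      by_cases g1 : i1 ∈ B j <;> by_cases g2 : i2 ∈ B j
      · have g3 := o.two g1 g2
        rw [hRe, hRin] at g3
        have g4 : j ∈ T := mem_filter.2 ⟨mem_univ _, g1, g2⟩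
        rw [if_pos g4]
        omega
      · exfalso
        rcases g0 with g | g
        · rcases o.one (Or.inl ⟨g1, g2⟩) g hrU with h | h
          · exact hrK.2.1 h
          · exact hrK.2.2 h
        · rcases o.one (Or.inl ⟨g1, g2⟩) g hrU' with h | h
          · exact hrK'.2.1 h
          · exact hrK'.2.2 h
      · exfalso
        rcases g0 with g | g
        · rcases o.one (Or.inr ⟨g1, g2⟩) g hrU with h | h
          · exact hrK.2.1 h
          · exact hrK.2.2 h
        · rcases o.one (Or.inr ⟨g1, g2⟩) g hrU' with h | h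
          · exact hrK'.2.1 h
          · exact hrK'.2.2 h
      · rcases mem_union.1 (hmeet j gK g1 g2) with g3 | g3
        · have g4 : j ∈ Na := by
            refine mem_filter.2 ⟨g3, ?_⟩
            by_contra h
            exact hmiss j (mem_filter.1 g3).2.1 g2 h gK
          rw [if_pos g4]
          split_ifs <;> omega
        · rw [if_pos g3]
          by_cases g5 : r ∈ B j ∧ r' ∈ B j
          · rw [if_pos (mem_filter.2 ⟨g3, g5⟩ : j ∈ NR), if_pos g5.1, if_pos g5.2]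
            omega
          · have : (if r ∈ B j then 1 else 0) + (if r' ∈ B j then 1 else 0) ≤ 1 := by
              by_cases g6 : r ∈ B j
              · have g7 : r' ∉ B j := fun h => g5 ⟨g6, h⟩
                rw [if_pos g6, if_neg g7]
              · rw [if_neg g6]
                split_ifs <;> omega
            omega
    refine (sum_le_sum h4).trans (le_of_eq ?_)
    simp only [sum_add_distrib, ← mul_sum, sum_ite_mem, univ_inter, sum_const, smul_eq_mul,
      mul_one]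
  have hT3 : T.card = 3 := by omega
  -- the blocks meeting `K`
  set Q := univ.filter (fun j => i1 ∈ B j ∧ i2 ∉ B j) with hQ
  set QK := Q.filter (fun j => (B j ∩ K).Nonempty) with hQK
  set D := univ.filter (fun j => i2 ∈ B j) with hD
  have hDc : D.card = 5 := o.hr i2 (o.sK h2K)
  have hcov : QK ∪ ((Na ∪ N') ∪ D) ⊆ tch B K := by
    intro j hj
    rw [cost_mem_tch]
    rcases mem_union.1 hj with h | h
    · exact (mem_filter.1 h).2
    rcases mem_union.1 h with h | h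
    · rcases mem_union.1 h with h3 | h3
      · exact ⟨a, mem_inter.2 ⟨(mem_filter.1 h3).2, haK⟩⟩
      · have h4 := (mem_filter.1 h3).2
        exact (o.symm.side_meet3 hb h4.1 h4.2.1).mono
          (inter_subset_inter_left inter_subset_left)
    · exact ⟨i2, mem_inter.2 ⟨(mem_filter.1 h).2, h2K⟩⟩
  have hdN : Disjoint Na N' := disjoint_of_subset_left (filter_subset _ _) hdis
  have hdD : Disjoint (Na ∪ N') D := by
    rw [disjoint_left]
    intro j hj hj'
    have h2 := (mem_filter.1 hj').2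
    rcases mem_union.1 hj with h3 | h3
    · exact (mem_filter.1 (mem_filter.1 h3).1).2.2.2 h2
    · exact (mem_filter.1 h3).2.2.2 h2
  have hdQ : Disjoint QK ((Na ∪ N') ∪ D) := by
    rw [disjoint_left]
    intro j hj hj'
    have h2 := (mem_filter.1 (mem_filter.1 hj).1).2
    rcases mem_union.1 hj' with h | h
    · rcases mem_union.1 h with h3 | h3
      · exact (mem_filter.1 (mem_filter.1 h3).1).2.2.1 h2.1
      · exact (mem_filter.1 h3).2.2.1 h2.1
    · exact h2.2 (mem_filter.1 h).2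
  have e3 := card_le_card hcov
  have hK10 : (tch B K).card = 10 := o.kK.cmX
  rw [card_union_of_disjoint hdQ, card_union_of_disjoint hdD, card_union_of_disjoint hdN, hK10]
    at e3
  -- some side block of `S` misses `a`
  have hex : ∃ d ∈ N, a ∉ B d := by
    by_contra hcon
    push Not at hcon
    have : Na = N := filter_true_of_mem hcon
    rw [this] at e3
    omega
  obtain ⟨d, hdN', had⟩ := hex
  have hd := (mem_filter.1 hdN').2
  -- no block on both points contains `a`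
  have hTa : ∀ j, i1 ∈ B j → i2 ∈ B j → a ∉ B j := by
    intro j h1 h2 h3
    have h4 : B j ∩ S = {i1, i2, a} := by
      symm
      refine eq_of_subset_of_card_le ?_ ?_
      · intro v hv
        simp only [mem_insert, mem_singleton] at hv
        rcases hv with rfl | rfl | rfl
        · exact mem_inter.2 ⟨h1, o.m1.1⟩
        · exact mem_inter.2 ⟨h2, o.m2.1⟩
        · exact mem_inter.2 ⟨h3, haS⟩
      · rw [o.tS ⟨a, mem_inter.2 ⟨h3, haS⟩⟩]
        exact (card_eq_three.2 ⟨i1, i2, a, o.ne, hai.symm, ha2, rfl⟩).ge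
    obtain ⟨v, hv⟩ := o.kS.meet o.rS (i := j) (j := d) ⟨a, mem_inter.2 ⟨h3, haS⟩⟩ hd.1
    rw [h4, mem_inter] at hv
    have hv2 := (mem_inter.1 hv.2).1
    have hv1 := hv.1
    simp only [mem_insert, mem_singleton] at hv1
    rcases hv1 with rfl | rfl | rfl
    · exact hd.2.1 hv2
    · exact hd.2.2 hv2
    · exact had hv2
  have hdega := o.hr a (o.sS haS)
  have hupa : univ.filter (fun j => a ∈ B j) ⊆
      Na ∪ (univ.filter (fun j => i1 ∉ B j ∧ i2 ∈ B j) ∪ QK) := by
    intro j hj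
    have h1 := (mem_filter.1 hj).2
    by_cases g1 : i1 ∈ B j <;> by_cases g2 : i2 ∈ B j
    · exact absurd h1 (hTa j g1 g2)
    · refine mem_union.2 (Or.inr (mem_union.2 (Or.inr (mem_filter.2 ⟨mem_filter.2
        ⟨mem_univ _, g1, g2⟩, ⟨a, mem_inter.2 ⟨h1, haK⟩⟩⟩))))
    · exact mem_union.2 (Or.inr (mem_union.2 (Or.inl (mem_filter.2 ⟨mem_univ _, g1, g2⟩))))
    · exact mem_union.2 (Or.inl (mem_filter.2 ⟨mem_filter.2 ⟨mem_univ _,
        ⟨a, mem_inter.2 ⟨h1, haS⟩⟩, g1, g2⟩, h1⟩))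
  have e5 := card_le_card hupa
  have e6 := card_union_le Na (univ.filter (fun j => i1 ∉ B j ∧ i2 ∈ B j) ∪ QK)
  have e7 := card_union_le (univ.filter (fun j => i1 ∉ B j ∧ i2 ∈ B j)) QK
  omega

/-- case (a): `i2` is not in `K`. -/
theorem ca (o : Ov2 B U S S' K i1 i2 c) (h2K : i2 ∉ K) : False := by
  classical
  have hR := o.cardR
  -- `K` meets `S` and `S'` in two points
  have two : ∀ {S1 S2 : Finset V}, Ov2 B U S1 S2 K i1 i2 c → (K ∩ S1).card = 2 := by
    intro S1 S2 o1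
    have h1 := o1.cardSK
    have h2 : insert i2 (B c ∩ S1) ⊆ S1 \ K := by
      intro v hv
      rw [mem_insert] at hv
      rcases hv with rfl | hv
      · exact mem_sdiff.2 ⟨o1.m2.1, h2K⟩
      · exact o1.cSK hv
    have h3 := card_le_card h2
    rw [card_insert_of_notMem (fun h => o1.c2 (mem_inter.1 h).1), o1.cS] at h3
    have := o1.a2
    omega
  have ha := two o
  have hb := two o.symm
  have hno : ∀ v, v ∈ K → v ∈ S → v ∉ S' := by
    intro v h1 h2 h3
    exact h2K (o.eq2 h2 h3 h1 ▸ h1)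
  have hKc : (K ∩ (S ∪ S')).card = 4 := by
    rw [inter_union_distrib_left, card_union_of_disjoint, ha, hb]
    rw [disjoint_left]
    intro v hv hv'
    exact hno v (mem_inter.1 hv).1 (mem_inter.1 hv).2 (mem_inter.1 hv').2
  obtain ⟨r, r', hrr, hRe⟩ := card_eq_two.1 (by omega : (K \ (S ∪ S')).card = 2)
  have hrK : r ∈ K \ (S ∪ S') := by rw [hRe]; simp
  have hrK' : r' ∈ K \ (S ∪ S') := by rw [hRe]; simp
  rw [mem_sdiff, mem_union, not_or] at hrK hrK'
  have hS := o.nS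
  have hS' := o.symm.nS
  have ht3 := o.t3
  set T := univ.filter (fun j => i1 ∈ B j ∧ i2 ∈ B j) with hT
  set N := univ.filter (fun j => (B j ∩ S).Nonempty ∧ i1 ∉ B j ∧ i2 ∉ B j) with hN
  set N' := univ.filter (fun j => (B j ∩ S').Nonempty ∧ i1 ∉ B j ∧ i2 ∉ B j) with hN'
  have hdis : Disjoint N N' := by
    rw [disjoint_left]
    intro j hj hj'
    have h2 := (mem_filter.1 hj).2
    exact o.side h2.2.1 h2.2.2 h2.1 (mem_filter.1 hj').2.1
  have hlam := o.kK.lam3 o.rK hrK.1 hrK'.1 hrr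
  have hRin : ∀ j, (B j ∩ {r, r'}).card = (if r ∈ B j then 1 else 0) +
      (if r' ∈ B j then 1 else 0) := by
    intro j
    rw [inter_comm, ← filter_mem_eq_inter, card_filter, sum_pair hrr]
  have hrU : r ∈ U := o.sK hrK.1
  have hrU' : r' ∈ U := o.sK hrK'.1
  have hmeet : ∀ j, (B j ∩ K).Nonempty → i1 ∉ B j → i2 ∉ B j → j ∈ N ∪ N' := by
    intro j hj h2 h3
    by_contra hcon
    rw [mem_union, mem_filter, mem_filter] at hcon
    have h4 : ¬ (B j ∩ S).Nonempty := fun h => hcon (Or.inl ⟨mem_univ _, h, h2, h3⟩)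
    have h5 : ¬ (B j ∩ S').Nonempty := fun h => hcon (Or.inr ⟨mem_univ _, h, h2, h3⟩)
    have h6 : B j ∩ K ⊆ K \ (S ∪ S') := by
      intro w hw
      rw [mem_inter] at hw
      refine mem_sdiff.2 ⟨hw.2, fun h => ?_⟩
      rcases mem_union.1 h with h | h
      · exact h4 ⟨w, mem_inter.2 ⟨hw.1, h⟩⟩
      · exact h5 ⟨w, mem_inter.2 ⟨hw.1, h⟩⟩
    have h7 := card_le_card h6
    rw [o.tK hj, hRe, card_pair hrr] at h7
    omega
  -- the incidences with `r`, `r'`
  set L := univ.filter (fun j => r ∈ B j ∧ r' ∈ B j) with hL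
  have hsum : (10 : ℕ) ≤ N.card + N'.card + L.card + T.card := by
    have h1 := o.hr r hrU
    have h2 := o.hr r' hrU'
    rw [card_filter] at h1 h2
    have h3 : (10 : ℕ) = ∑ j, ((if r ∈ B j then 1 else 0) + (if r' ∈ B j then 1 else 0)) := by
      rw [sum_add_distrib, h1, h2]
    rw [h3]
    have h4 : ∀ j ∈ (univ : Finset ι), (if r ∈ B j then 1 else 0) + (if r' ∈ B j then 1 else 0) ≤
        (if j ∈ N then 1 else 0) + (if j ∈ N' then 1 else 0) + (if j ∈ L then 1 else 0) +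
          (if j ∈ T then 1 else 0) := by
      intro j _
      by_cases g0 : r ∈ B j ∨ r' ∈ B j
      swap
      · rw [not_or] at g0
        rw [if_neg g0.1, if_neg g0.2]
        exact Nat.zero_le _
      have gK : (B j ∩ K).Nonempty := by
        rcases g0 with g | g
        · exact ⟨r, mem_inter.2 ⟨g, hrK.1⟩⟩
        · exact ⟨r', mem_inter.2 ⟨g, hrK'.1⟩⟩
      have gL : (if r ∈ B j then 1 else 0) + (if r' ∈ B j then 1 else 0) ≤
          1 + (if j ∈ L then 1 else 0) := by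
        by_cases g5 : r ∈ B j ∧ r' ∈ B j
        · rw [if_pos (mem_filter.2 ⟨mem_univ _, g5⟩ : j ∈ L), if_pos g5.1, if_pos g5.2]
        · have : (if r ∈ B j then 1 else 0) + (if r' ∈ B j then 1 else 0) ≤ 1 := by
            by_cases g6 : r ∈ B j
            · have g7 : r' ∉ B j := fun h => g5 ⟨g6, h⟩
              rw [if_pos g6, if_neg g7]
            · rw [if_neg g6]
              split_ifs <;> omega
          omega
      by_cases g1 : i1 ∈ B j <;> by_cases g2 : i2 ∈ B j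
      · have g3 := o.two g1 g2
        rw [hRe, hRin] at g3
        have g4 : j ∈ T := mem_filter.2 ⟨mem_univ _, g1, g2⟩
        rw [if_pos g4]
        omega
      · exfalso
        rcases g0 with g | g
        · rcases o.one (Or.inl ⟨g1, g2⟩) g hrU with h | h
          · exact hrK.2.1 h
          · exact hrK.2.2 h
        · rcases o.one (Or.inl ⟨g1, g2⟩) g hrU' with h | h
          · exact hrK'.2.1 h
          · exact hrK'.2.2 h
      · exfalso
        rcases g0 with g | g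
        · rcases o.one (Or.inr ⟨g1, g2⟩) g hrU with h | h
          · exact hrK.2.1 h
          · exact hrK.2.2 h
        · rcases o.one (Or.inr ⟨g1, g2⟩) g hrU' with h | h
          · exact hrK'.2.1 h
          · exact hrK'.2.2 h
      · rcases mem_union.1 (hmeet j gK g1 g2) with g3 | g3
        · rw [if_pos g3]
          omega
        · rw [if_pos g3]
          omega
    refine (sum_le_sum h4).trans (le_of_eq ?_)
    simp only [sum_add_distrib, sum_ite_mem, univ_inter, sum_const, smul_eq_mul, mul_one]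
  have hT3 : T.card = 3 := by omega
  -- side blocks meet `K` in `S`, and outside `S`
  have hsideS : ∀ {S1 S2 : Finset V}, Ov2 B U S1 S2 K i1 i2 c → (K ∩ S1).card = 2 →
      ∀ j, (B j ∩ S1).Nonempty → i1 ∉ B j → i2 ∉ B j → (B j ∩ (K ∩ S1)).Nonempty := by
    intro S1 S2 o1 g j h1 h2 h3
    by_contra hcon
    rw [not_nonempty_iff_eq_empty] at hcon
    have h4 : B j ∩ S1 ⊆ ((S1 \ K).erase i1).erase i2 := by
      intro v hv
      rw [mem_inter] at hv
      refine mem_erase.2 ⟨fun e => h3 (e ▸ hv.1), mem_erase.2 ⟨fun e => h2 (e ▸ hv.1),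
        mem_sdiff.2 ⟨hv.2, fun hK => ?_⟩⟩⟩
      have : v ∈ B j ∩ (K ∩ S1) := mem_inter.2 ⟨hv.1, mem_inter.2 ⟨hK, hv.2⟩⟩
      rw [hcon] at this
      exact notMem_empty _ this
    have h5 := card_le_card h4
    have h6 := o1.cardSK
    rw [card_erase_of_mem (mem_erase.2 ⟨o1.ne.symm, mem_sdiff.2 ⟨o1.m2.1, h2K⟩⟩),
      card_erase_of_mem (mem_sdiff.2 ⟨o1.m1.1, o1.k1⟩), o1.tS h1] at h5
    omega
  have hK' : ∀ {S1 S2 : Finset V}, Ov2 B U S1 S2 K i1 i2 c → (K ∩ S1).card = 2 →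
      K \ (S1 ∪ S2) = {r, r'} → ∀ j, (B j ∩ S1).Nonempty → i1 ∉ B j → i2 ∉ B j →
      (B j ∩ K).card = 3 ∧ B j ∩ K ⊆ (K ∩ S1) ∪ {r, r'} := by
    intro S1 S2 o1 g gR j h1 h2 h3
    refine ⟨o1.tK ((hsideS o1 g j h1 h2 h3).mono (inter_subset_inter_left inter_subset_left)),
      ?_⟩
    intro w hw
    rw [mem_inter] at hw
    by_cases hwS : w ∈ S1
    · exact mem_union.2 (Or.inl (mem_inter.2 ⟨hw.2, hwS⟩))
    · have hwS' : w ∉ S2 := fun h => o1.side h2 h3 h1 ⟨w, mem_inter.2 ⟨hw.1, h⟩⟩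
      rw [← gR]
      exact mem_union.2 (Or.inr (mem_sdiff.2 ⟨hw.2, fun h => (mem_union.1 h).elim hwS hwS'⟩))
  have hRe' : K \ (S' ∪ S) = {r, r'} := by rw [union_comm, hRe]
  -- a side block containing `r` and `r'` contains the other points of the trace of `c`
  have hbig : ∀ {S1 S2 : Finset V}, Ov2 B U S1 S2 K i1 i2 c → (K ∩ S1).card = 2 →
      K \ (S1 ∪ S2) = {r, r'} →
      (∀ j, (B j ∩ S1).Nonempty → i1 ∉ B j → i2 ∉ B j → r ∈ B j ∧ r' ∈ B j) →
      (univ.filter (fun j => (B j ∩ S1).Nonempty ∧ i1 ∉ B j ∧ i2 ∉ B j)).card = 3 → False := by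
    intro S1 S2 o1 g gR hall hc3
    have hP : ((B c ∩ S1).erase i1).card = 2 := by
      rw [card_erase_of_mem (mem_inter.2 ⟨o1.c1, o1.m1.1⟩), o1.cS]
    obtain ⟨p, p', hpp, hPe⟩ := card_eq_two.1 hP
    have hp : p ∈ (B c ∩ S1).erase i1 := by rw [hPe]; simp
    have hp' : p' ∈ (B c ∩ S1).erase i1 := by rw [hPe]; simp
    rw [mem_erase, mem_inter] at hp hp'
    have hsub : ∀ j, (B j ∩ S1).Nonempty → i1 ∉ B j → i2 ∉ B j → p ∈ B j ∧ p' ∈ B j := by
      intro j h1 h2 h3
      obtain ⟨g1, g2⟩ := hall j h1 h2 h3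
      obtain ⟨g3, g4⟩ := hK' o1 g gR j h1 h2 h3
      have hrS : r ∉ S1 := by
        have : r ∈ K \ (S1 ∪ S2) := by rw [gR]; simp
        exact fun h => (mem_sdiff.1 this).2 (mem_union.2 (Or.inl h))
      have hrS' : r' ∉ S1 := by
        have : r' ∈ K \ (S1 ∪ S2) := by rw [gR]; simp
        exact fun h => (mem_sdiff.1 this).2 (mem_union.2 (Or.inl h))
      have hrKK : r ∈ K ∧ r' ∈ K := ⟨hrK.1, hrK'.1⟩
      -- exactly one point of `K ∩ S1`
      have g5 : (B j ∩ (K ∩ S1)).card ≤ 1 := by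
        have h6 : (B j ∩ (K ∩ S1)) ∪ {r, r'} ⊆ B j ∩ K := by
          intro w hw
          rcases mem_union.1 hw with h | h
          · exact mem_inter.2 ⟨(mem_inter.1 h).1, (mem_inter.1 (mem_inter.1 h).2).1⟩
          · rw [mem_insert, mem_singleton] at h
            rcases h with rfl | rfl
            · exact mem_inter.2 ⟨g1, hrKK.1⟩
            · exact mem_inter.2 ⟨g2, hrKK.2⟩
        have h7 : Disjoint (B j ∩ (K ∩ S1)) {r, r'} := by
          rw [disjoint_left]
          intro w hw hw'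
          rw [mem_insert, mem_singleton] at hw'
          have := (mem_inter.1 (mem_inter.1 hw).2).2
          rcases hw' with rfl | rfl
          · exact hrS this
          · exact hrS' this
        have h8 := card_le_card h6
        rw [card_union_of_disjoint h7, card_pair hrr, g3] at h8
        omega
      -- so two points in `(S1 \ K) \ {i1, i2}`
      have h6 : B j ∩ S1 ⊆ (B j ∩ (K ∩ S1)) ∪ (B j ∩ (((S1 \ K).erase i1).erase i2)) := by
        intro w hw
        rw [mem_inter] at hw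
        by_cases h : w ∈ K
        · exact mem_union.2 (Or.inl (mem_inter.2 ⟨hw.1, mem_inter.2 ⟨h, hw.2⟩⟩))
        · exact mem_union.2 (Or.inr (mem_inter.2 ⟨hw.1, mem_erase.2 ⟨fun e => h3 (e ▸ hw.1),
            mem_erase.2 ⟨fun e => h2 (e ▸ hw.1), mem_sdiff.2 ⟨hw.2, h⟩⟩⟩⟩))
      have h7 := card_le_card h6
      rw [o1.tS h1] at h7
      have h8 := card_union_le (B j ∩ (K ∩ S1)) (B j ∩ (((S1 \ K).erase i1).erase i2))
      have h9 : (((S1 \ K).erase i1).erase i2).card = 2 := by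
        have := o1.cardSK
        rw [card_erase_of_mem (mem_erase.2 ⟨o1.ne.symm, mem_sdiff.2 ⟨o1.m2.1, h2K⟩⟩),
          card_erase_of_mem (mem_sdiff.2 ⟨o1.m1.1, o1.k1⟩)]
        omega
      have h10 : (B c ∩ S1).erase i1 = ((S1 \ K).erase i1).erase i2 := by
        refine eq_of_subset_of_card_le ?_ (by omega)
        intro w hw
        rw [mem_erase, mem_inter] at hw
        exact mem_erase.2 ⟨fun e => o1.c2 (e ▸ hw.2.1), mem_erase.2 ⟨hw.1,
          o1.cSK (mem_inter.2 hw.2)⟩⟩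
      have h11 : B j ∩ (((S1 \ K).erase i1).erase i2) = ((S1 \ K).erase i1).erase i2 :=
        eq_of_subset_of_card_le inter_subset_right (by omega)
      have m1 : p ∈ ((S1 \ K).erase i1).erase i2 := by rw [← h10, hPe]; simp
      have m2 : p' ∈ ((S1 \ K).erase i1).erase i2 := by rw [← h10, hPe]; simp
      rw [← h11] at m1 m2
      exact ⟨(mem_inter.1 m1).1, (mem_inter.1 m2).1⟩
    have h1 := o1.kS.lam3 o1.rS hp.2.2 hp'.2.2 hpp
    have h2 : insert c (univ.filter (fun j => (B j ∩ S1).Nonempty ∧ i1 ∉ B j ∧ i2 ∉ B j)) ⊆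
        univ.filter (fun j => p ∈ B j ∧ p' ∈ B j) := by
      intro j hj
      refine mem_filter.2 ⟨mem_univ _, ?_⟩
      rcases mem_insert.1 hj with rfl | h
      · exact ⟨hp.2.1, hp'.2.1⟩
      · have := (mem_filter.1 h).2
        exact hsub j this.1 this.2.1 this.2.2
    have h3 := card_le_card h2
    rw [card_insert_of_notMem (fun h => (mem_filter.1 h).2.2.1 o1.c1), hc3] at h3
    omega
  -- a block of `N` and a block of `N'` share `r` or `r'`
  have hcross : ∀ j ∈ N, ∀ j' ∈ N', (r ∈ B j ∧ r ∈ B j') ∨ (r' ∈ B j ∧ r' ∈ B j') := by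
    intro j hj j' hj'
    have g1 := (mem_filter.1 hj).2
    have g2 := (mem_filter.1 hj').2
    have g3 := hK' o ha hRe j g1.1 g1.2.1 g1.2.2
    have g4 := hK' o.symm hb hRe' j' g2.1 g2.2.1 g2.2.2
    obtain ⟨v, hv⟩ := o.kK.meet o.rK (i := j) (j := j') (card_pos.1 (by omega))
      (card_pos.1 (by omega))
    rw [mem_inter] at hv
    have g5 := g3.2 hv.1
    have g6 := g4.2 hv.2
    rw [mem_inter, mem_inter] at hv
    have g7 : v ∈ ({r, r'} : Finset V) := by
      rcases mem_union.1 g5 with g | g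
      · rcases mem_union.1 g6 with g' | g'
        · exact absurd (mem_inter.1 g').2 (hno v hv.1.2 (mem_inter.1 g).2)
        · exact g'
      · exact g
    rw [mem_insert, mem_singleton] at g7
    rcases g7 with rfl | rfl
    · exact Or.inl ⟨hv.1.1, hv.2.1⟩
    · exact Or.inr ⟨hv.1.1, hv.2.1⟩
  -- not all the six blocks contain the same point
  have hsix : ∀ x, x ∈ U → (∀ j ∈ N, x ∈ B j) → (∀ j ∈ N', x ∈ B j) → False := by
    intro x hx h1 h2
    have h3 : N ∪ N' ⊆ univ.filter (fun j => x ∈ B j) := by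
      intro j hj
      refine mem_filter.2 ⟨mem_univ _, ?_⟩
      rcases mem_union.1 hj with h | h
      · exact h1 j h
      · exact h2 j h
    have h4 := card_le_card h3
    rw [card_union_of_disjoint hdis, o.hr x hx] at h4
    omega
  by_cases hA : ∀ j ∈ N, r ∈ B j ∧ r' ∈ B j
  · exact hbig o ha hRe (fun j h1 h2 h3 => hA j (mem_filter.2 ⟨mem_univ _, h1, h2, h3⟩))
      (hS.trans hT3)
  · push Not at hA
    obtain ⟨d, hd, hdr⟩ := hA
    have hall : (∀ j' ∈ N', r ∈ B j') ∨ (∀ j' ∈ N', r' ∈ B j') := by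
      by_cases h : r ∈ B d
      · left
        intro j' hj'
        rcases hcross d hd j' hj' with h1 | h1
        · exact h1.2
        · exact absurd h1.1 (hdr h)
      · right
        intro j' hj'
        rcases hcross d hd j' hj' with h1 | h1
        · exact absurd h1.1 h
        · exact h1.2
    have hboth : (∀ j' ∈ N', r ∈ B j') ∧ (∀ j' ∈ N', r' ∈ B j') := by
      rcases hall with h | h
      · refine ⟨h, ?_⟩
        have : ∃ j ∈ N, r ∉ B j := by
          by_contra hcon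
          push Not at hcon
          exact hsix r hrU hcon h
        obtain ⟨j, hj, hjr⟩ := this
        intro j' hj'
        rcases hcross j hj j' hj' with h1 | h1
        · exact absurd h1.1 hjr
        · exact h1.2
      · refine ⟨?_, h⟩
        have : ∃ j ∈ N, r' ∉ B j := by
          by_contra hcon
          push Not at hcon
          exact hsix r' hrU' hcon h
        obtain ⟨j, hj, hjr⟩ := this
        intro j' hj'
        rcases hcross j hj j' hj' with h1 | h1
        · exact h1.2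
        · exact absurd h1.1 hjr
    refine hbig o.symm hb hRe' (fun j h1 h2 h3 => ?_) (hS'.trans hT3)
    have hj : j ∈ N' := mem_filter.2 ⟨mem_univ _, h1, h2, h3⟩
    exact ⟨hboth.1 j hj, hboth.2 j hj⟩

/-- **the second claim**: two blocks through `i1` have the same traces on `S` and on `S'`, and `i1`, `i2` lie
in exactly two common blocks. -/
theorem main (o : Ov2 B U S S' K i1 i2 c) :
    (univ.filter (fun j => i1 ∈ B j ∧ i2 ∈ B j)).card = 2 ∧
      ∃ d, d ≠ c ∧ i1 ∈ B d ∧ i2 ∉ B d ∧ B d ∩ S = B c ∩ S ∧ B d ∩ S' = B c ∩ S' := by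
  by_cases h2K : i2 ∈ K
  · have h1 := o.a2
    have h2 := o.b2
    have h3 := o.a3
    have h4 := o.symm.a3
    rcases (by omega : (K ∩ S).card = 2 ∨ (K ∩ S).card = 3) with ha | ha <;>
      rcases (by omega : (K ∩ S').card = 2 ∨ (K ∩ S').card = 3) with hb | hb
    · exact (o.cd h2K ha hb).elim
    · exact (o.cc h2K ha hb).elim
    · exact (o.symm.cc h2K hb ha).elim
    · exact o.cb h2K ha hb
  · exact (o.ca h2K).elim

end Ov2

/-- two K-pieces of a suitable family do not meet in exactly two points. -/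
theorem ov_two {U S S' : Finset V} (hr : Reg B U) (h5 : ∀ i, (B i ∩ U).card ≤ 5) (kS : KP B S)
    (kS' : KP B S') (sS : S ⊆ U) (sS' : S' ⊆ U) (h2 : (S ∩ S').card = 2)
    (hP : ∀ i, (B i ∩ (S ∩ S')).card = 1 → ∃ K, KP B K ∧ K ⊆ U ∧ Disjoint (B i) K ∧
      2 ≤ (K ∩ S).card ∧ 2 ≤ (K ∩ S').card) : False := by
  classical
  obtain ⟨i1, i2, hne, hI⟩ := card_eq_two.1 h2
  have hmk : ∀ c, i1 ∈ B c → i2 ∉ B c → ∃ K, Ov2 B U S S' K i1 i2 c := by
    intro c h1 h3
    have h4 : (B c ∩ (S ∩ S')).card = 1 := by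
      rw [hI, card_eq_one]
      refine ⟨i1, ?_⟩
      ext v
      rw [mem_inter, mem_insert, mem_singleton, mem_singleton]
      constructor
      · rintro ⟨h5, rfl | rfl⟩
        · rfl
        · exact absurd h5 h3
      · rintro rfl
        exact ⟨h1, Or.inl rfl⟩
    obtain ⟨K, g1, g2, g3, g4, g5⟩ := hP c h4
    exact ⟨K, hr, h5, kS, kS', g1, sS, sS', g2, hI, hne, h1, h3, g3, g4, g5⟩
  have hm1 : i1 ∈ S ∩ S' := by rw [hI]; simp
  have hm2 : i2 ∈ S ∩ S' := by rw [hI]; simp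
  rw [mem_inter] at hm1 hm2
  -- the blocks containing `i1` only
  set Q := univ.filter (fun j => i1 ∈ B j ∧ i2 ∉ B j) with hQ
  have hQc : Q.card + (univ.filter (fun j => i1 ∈ B j ∧ i2 ∈ B j)).card = 5 := by
    rw [← hr i1 (sS hm1.1), ← card_union_of_disjoint]
    · congr 1
      ext j
      simp only [hQ, mem_union, mem_filter, mem_univ, true_and]
      tauto
    · rw [disjoint_left]
      intro j hj hj'
      exact (mem_filter.1 hj).2.2 (mem_filter.1 hj').2.2
  have ht3 := kS.lam3 (hr.mono sS) hm1.1 hm2.1 hne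
  obtain ⟨c, hc⟩ := card_pos.1 (by omega : 0 < Q.card)
  have hc' := (mem_filter.1 hc).2
  obtain ⟨K, o⟩ := hmk c hc'.1 hc'.2
  obtain ⟨hT, d, hdc, hd1, hd2, hdS, _⟩ := o.main
  -- a third block
  have hQ3 : Q.card = 3 := by omega
  have hdQ : d ∈ Q := mem_filter.2 ⟨mem_univ _, hd1, hd2⟩
  have h3 : ((Q.erase c).erase d).card = 1 := by
    rw [card_erase_of_mem (mem_erase.2 ⟨hdc, hdQ⟩), card_erase_of_mem hc, hQ3]
  obtain ⟨e, he⟩ := card_eq_one.1 h3
  have he' : e ∈ (Q.erase c).erase d := by rw [he]; simp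
  rw [mem_erase, mem_erase] at he'
  have he2 := (mem_filter.1 he'.2.2).2
  obtain ⟨K', o'⟩ := hmk e he2.1 he2.2
  obtain ⟨_, f, hfe, hf1, hf2, hfS, _⟩ := o'.main
  have hfQ : f ∈ Q := mem_filter.2 ⟨mem_univ _, hf1, hf2⟩
  have hfcd : f = c ∨ f = d := by
    by_contra hcon
    rw [not_or] at hcon
    have : f ∈ (Q.erase c).erase d := mem_erase.2 ⟨hcon.2, mem_erase.2 ⟨hcon.1, hfQ⟩⟩
    rw [he, mem_singleton] at this
    exact hfe this
  have heS : B e ∩ S = B c ∩ S := by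
    rcases hfcd with rfl | rfl
    · exact hfS.symm
    · rw [← hfS, hdS]
  have h4 := (kS.count (hr.mono sS) (i := c) ⟨i1, mem_inter.2 ⟨hc'.1, hm1.1⟩⟩).1
  have h6 : ({c, d, e} : Finset ι) ⊆ univ.filter (fun j => B j ∩ S = B c ∩ S) := by
    intro j hj
    refine mem_filter.2 ⟨mem_univ _, ?_⟩
    simp only [mem_insert, mem_singleton] at hj
    rcases hj with rfl | rfl | rfl
    · rfl
    · exact hdS
    · exact heS
  have h7 := card_le_card h6
  have h8 : ({c, d, e} : Finset ι).card = 3 :=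
    card_eq_three.2 ⟨c, d, e, hdc.symm, he'.2.1.symm, he'.1.symm, rfl⟩
  omega

end Pool.Agent.Hyp6
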