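import Pool.Agent.Hyp6.L6
import Pool.Agent.Hyp6.CompLow

/-!
# HYP6 PEEL: peeling off a packing of blocks, components, absorption

`Pack B U k F`: the blocks of `F` have pairwise disjoint traces in `U`, all with `k` points.
-/

set_option autoImplicit false

namespace Pool.Agent.Hyp6

open Finset Pool.Agent.Hyp5

variable {V : Type*} [DecidableEq V] {ι : Type*}

section

variable [Fintype ι] {B : ι → Finset V}

/-- deleting a part `X` of `W`. -/
theorem Pv_sdiff {W X : Finset V} (hX : X ⊆ W) :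
    Pv B W = Pv B (W \ X) + 5 * (X.card : ℤ) + 4 * ((ins B W X).card : ℤ) -
      24 * ((rho B W : ℤ) - (rho B (W \ X) : ℤ)) := by
  have h1 := cm_sdiff (B := B) W X
  have h2 := card_sdiff_add_card_eq_card hX
  rw [Pv_eq, Pv_eq, h1, ← h2]
  push_cast
  ring

theorem Pv_add {U W : Finset V} (hU : Cov B U) (hW : Cov B W) (hd : Disjoint U W)
    (hs : Sep B U W) : Pv B (U ∪ W) = Pv B U + Pv B W := by
  unfold Pv
  rw [sv_add hU hW hs hd, G_add hd hs]
  ring

theorem Pv_biUnion {F : Finset (Finset V)} (hc : ∀ C ∈ F, Cov B C) (h : SepF B F) :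
    Pv B (F.biUnion id) = ∑ C ∈ F, Pv B C := by
  unfold Pv
  rw [sv_biUnion hc h, G_biUnion h, mul_sum, ← sum_add_distrib]

@[simp] theorem Pv_empty : Pv B ∅ = 0 := by simp [Pv]

/-- the decomposition into connected parts. -/
theorem exists_parts (B : ι → Finset V) (W : Finset V) :
    ∃ K : Finset (Finset V), (∀ C ∈ K, C ⊆ W ∧ Closed (gr B) W C ∧ Conn (gr B) C) ∧
      SepF B K ∧ K.biUnion id = W := by
  obtain ⟨K, hK1, hK2, hK3⟩ := exists_conn_family (G := gr B) (W := W) (R := W)
    ⟨Subset.refl _, fun _ _ y hy _ => hy⟩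
  refine ⟨K, fun C hC => ⟨(hK1 C hC).1.1, (hK1 C hC).1, (hK1 C hC).2⟩, ?_, hK3⟩
  intro C hC D hD hne
  exact ⟨hK2 C hC D hD hne,
    sep_of_closed (hK1 C hC).1 (hK1 D hD).1.1 (hK2 C hC D hD hne)⟩

theorem rho_biUnion {F : Finset (Finset V)} (hc : ∀ C ∈ F, Cov B C) (h : SepF B F) :
    rho B (F.biUnion id) = ∑ C ∈ F, rho B C := by
  have h1 := sv_biUnion hc h
  have h2 := card_biUnion_sepF h
  unfold sv at h1
  rw [h2, sum_sub_distrib, ← mul_sum] at h1
  push_cast at h1
  have h3 : ((rho B (F.biUnion id) : ℕ) : ℤ) = ∑ C ∈ F, (rho B C : ℤ) := by linarith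
  exact_mod_cast h3

end

section Absorb

variable {B : ι → Finset V}

/-- absorption: the points of `Z` are distributed over the parts. -/
theorem rho_absorb {K : Finset (Finset V)} {Z : Finset V} (hc : ∀ C ∈ K, Cov B C)
    (hZ : Cov B Z) (φ : V → Finset V) (hφ : ∀ z ∈ Z, φ z ∈ K) (d : Finset V → ℕ)
    (habs : ∀ C ∈ K, rho B (C ∪ Z.filter (fun z => φ z = C)) ≤ rho B C + d C) :
    rho B (K.biUnion id ∪ Z) ≤ ∑ C ∈ K, rho B C + ∑ C ∈ K, d C := by
  classical
  set K' : Finset (Finset V) := K.image (fun C => C ∪ Z.filter (fun z => φ z = C)) with hK'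
  have hcov : Cov B (K.biUnion id ∪ Z) := by
    refine Cov.union ?_ hZ
    intro v hv
    obtain ⟨C, hC, hvC⟩ := mem_biUnion.1 hv
    exact hc C hC v hvC
  have hsub : K.biUnion id ∪ Z ⊆ K.biUnion (fun C => C ∪ Z.filter (fun z => φ z = C)) := by
    intro v hv
    rcases mem_union.1 hv with hv | hv
    · obtain ⟨C, hC, hvC⟩ := mem_biUnion.1 hv
      exact mem_biUnion.2 ⟨C, hC, mem_union_left _ hvC⟩
    · exact mem_biUnion.2 ⟨φ v, hφ v hv, mem_union_right _ (mem_filter.2 ⟨hv, rfl⟩)⟩
  have hcov2 : ∀ C ∈ K, Cov B (C ∪ Z.filter (fun z => φ z = C)) := fun C hC =>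
    (hc C hC).union (hZ.mono (filter_subset _ _))
  have key : ∀ L : Finset (Finset V), L ⊆ K →
      rho B (L.biUnion (fun C => C ∪ Z.filter (fun z => φ z = C))) ≤
        ∑ C ∈ L, (rho B C + d C) := by
    intro L
    induction L using Finset.induction_on with
    | empty => intro _; simp
    | insert C L hC ih =>
      intro hL
      rw [biUnion_insert, sum_insert hC]
      have hL' : L ⊆ K := (subset_insert _ _).trans hL
      have h1 : Cov B (L.biUnion (fun C => C ∪ Z.filter (fun z => φ z = C))) := by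
        intro v hv
        obtain ⟨D, hD, hvD⟩ := mem_biUnion.1 hv
        exact hcov2 D (hL' hD) v hvD
      have h2 := rho_union_le (hcov2 C (hL (mem_insert_self _ _))) h1
      have h3 := habs C (hL (mem_insert_self _ _))
      have h4 := ih hL'
      omega
  have h5 : Cov B (K.biUnion (fun C => C ∪ Z.filter (fun z => φ z = C))) := by
    intro v hv
    obtain ⟨D, hD, hvD⟩ := mem_biUnion.1 hv
    exact hcov2 D hD v hvD
  have h6 := rho_mono hsub h5
  have h7 := key K (Subset.refl _)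
  rw [sum_add_distrib] at h7
  exact h6.trans h7

end Absorb

section Packing

variable {B : ι → Finset V}

/-- the blocks of `F` have pairwise disjoint traces with `k` points in `U`. -/
structure Pack (B : ι → Finset V) (U : Finset V) (k : ℕ) (F : Finset ι) : Prop where
  card : ∀ i ∈ F, (B i ∩ U).card = k
  disj : ∀ i ∈ F, ∀ j ∈ F, i ≠ j → Disjoint (B i ∩ U) (B j ∩ U)

theorem pack_empty (U : Finset V) (k : ℕ) : Pack B U k ∅ := ⟨by simp, by simp⟩

theorem exists_maxPack [Fintype ι] (B : ι → Finset V) (U : Finset V) (k : ℕ) :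
    ∃ F : Finset ι, Pack B U k F ∧ ∀ F', Pack B U k F' → F'.card ≤ F.card := by
  classical
  obtain ⟨F, hF, hmax⟩ := Finset.exists_max_image
    ((univ : Finset (Finset ι)).filter (fun F => Pack B U k F)) Finset.card
    ⟨∅, mem_filter.2 ⟨mem_univ _, pack_empty U k⟩⟩
  refine ⟨F, (mem_filter.1 hF).2, fun F' hF' => hmax F' (mem_filter.2 ⟨mem_univ _, hF'⟩)⟩

theorem Pack.inter_card {U : Finset V} {k : ℕ} {F : Finset ι} (h : Pack B U k F) :
    (F.biUnion B ∩ U).card = k * F.card := by
  have h1 : F.biUnion B ∩ U = F.biUnion (fun i => B i ∩ U) := by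
    ext v
    simp only [mem_inter, mem_biUnion]
    constructor
    · rintro ⟨⟨i, hi, hv⟩, hU⟩
      exact ⟨i, hi, hv, hU⟩
    · rintro ⟨i, hi, hv, hU⟩
      exact ⟨⟨i, hi, hv⟩, hU⟩
  rw [h1, card_biUnion (fun i hi j hj hne => h.disj i hi j hj hne), sum_congr rfl h.card]
  simp [mul_comm]

theorem Pack.card_eq {U : Finset V} {k : ℕ} {F : Finset ι} (h : Pack B U k F) :
    (U \ F.biUnion B).card + k * F.card = U.card := by
  have h1 := h.inter_card
  have h2 := card_sdiff_add_card_inter U (F.biUnion B)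
  rw [inter_comm] at h1
  omega

theorem rho_le_peel {U : Finset V} (F : Finset ι) (hc : Cov B U) :
    rho B U ≤ rho B (U \ F.biUnion B) + F.card := by
  classical
  obtain ⟨T, hT, hTc⟩ := exists_cover (hc.mono (sdiff_subset (s := U) (t := F.biUnion B)))
  rw [← hTc]
  refine (rho_le (T := T ∪ F) ?_).trans (card_union_le _ _)
  intro v hv
  rw [union_biUnion, mem_union]
  by_cases h : v ∈ F.biUnion B
  · exact Or.inr h
  · exact Or.inl (hT (mem_sdiff.2 ⟨hv, h⟩))

/-- a packing is contained in the blocks whose trace lies in its union. -/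
theorem Pack.sub_ins [Fintype ι] {U : Finset V} {k : ℕ} {F : Finset ι} (h : Pack B U k F) (hk : 1 ≤ k) :
    F ⊆ ins B U (F.biUnion B) := by
  intro i hi
  rw [mem_ins]
  refine ⟨card_pos.1 (by rw [h.card i hi]; exact hk), fun v hv => ?_⟩
  exact mem_biUnion.2 ⟨i, hi, (mem_inter.1 hv).1⟩

/-- peeling a packing of blocks with `k` points. -/
theorem Pack.Pv_ge [Fintype ι] {U : Finset V} {k : ℕ} {F : Finset ι} (h : Pack B U k F)
    (hc : Cov B U) :
    Pv B (U \ F.biUnion B) + (5 * (k : ℤ) - 24) * (F.card : ℤ) +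
      4 * ((ins B U (F.biUnion B)).card : ℤ) ≤ Pv B U := by
  have h1 := h.card_eq
  have h2 := rho_le_peel F hc
  have h3 := cm_sdiff (B := B) U (F.biUnion B)
  rw [Pv_eq, Pv_eq]
  have h1' : (((U \ F.biUnion B).card : ℕ) : ℤ) + k * F.card = U.card := by exact_mod_cast h1
  have h2' : ((rho B U : ℕ) : ℤ) ≤ rho B (U \ F.biUnion B) + F.card := by exact_mod_cast h2
  have h3' : ((cm B U : ℕ) : ℤ) = cm B (U \ F.biUnion B) + (ins B U (F.biUnion B)).card := by
    exact_mod_cast h3
  rw [h3', ← h1']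
  linarith

/-- peeling a packing of quads. -/
theorem Pack.Pv_ge4 [Fintype ι] {U : Finset V} {F : Finset ι} (h : Pack B U 4 F)
    (hc : Cov B U) :
    Pv B (U \ F.biUnion B) ≤ Pv B U := by
  have h1 := h.Pv_ge hc
  have h2 := card_le_card (h.sub_ins (by norm_num))
  have h2' : ((F.card : ℕ) : ℤ) ≤ (ins B U (F.biUnion B)).card := by exact_mod_cast h2
  push_cast at h1
  linarith

/-- peeling a packing of quints. -/
theorem Pack.V5_ge [Fintype ι] {U : Finset V} {F : Finset ι} (h : Pack B U 5 F)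
    (hc : Cov B U) :
    11 * Pv B (U \ F.biUnion B) + 55 * (F.card : ℤ) +
      44 * (((ins B U (F.biUnion B)).card : ℤ) - F.card) - 3 * (nt B U 5 : ℤ) ≤ V5 B U := by
  have h1 := h.Pv_ge hc
  rw [V5_eq]
  push_cast at h1
  linarith

/-- a maximal packing leaves only smaller traces. -/
theorem Pack.lt_of_max {U : Finset V} {k : ℕ} {F : Finset ι} (h : Pack B U k F)
    (hmax : ∀ F', Pack B U k F' → F'.card ≤ F.card) (hk : 1 ≤ k)
    (hU : ∀ i, (B i ∩ U).card ≤ k) (i : ι) : (B i ∩ (U \ F.biUnion B)).card < k := by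
  classical
  by_contra hcon
  push Not at hcon
  have h1 : B i ∩ (U \ F.biUnion B) ⊆ B i ∩ U := inter_subset_inter_left sdiff_subset
  have h2 := card_le_card h1
  have h3 := hU i
  have h4 : B i ∩ (U \ F.biUnion B) = B i ∩ U := eq_of_subset_of_card_le h1 (by omega)
  have h5 : ∀ j ∈ F, Disjoint (B i ∩ U) (B j ∩ U) := by
    intro j hj
    rw [Finset.disjoint_left]
    intro v hv hv'
    rw [← h4, mem_inter, mem_sdiff] at hv
    exact hv.2.2 (mem_biUnion.2 ⟨j, hj, (mem_inter.1 hv').1⟩)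
  have h6 : i ∉ F := by
    intro hi
    have h7 : (B i ∩ U).Nonempty := card_pos.1 (by omega)
    obtain ⟨v, hv⟩ := h7
    exact Finset.disjoint_left.1 (h5 i hi) hv hv
  have h8 : Pack B U k (insert i F) := by
    constructor
    · intro j hj
      rcases mem_insert.1 hj with rfl | hj
      · omega
      · exact h.card j hj
    · intro a ha b hb hne
      rcases mem_insert.1 ha with h' | ha
      · rcases mem_insert.1 hb with h'' | hb
        · exact absurd (h'.trans h''.symm) hne
        · rw [h']; exact h5 b hb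
      · rcases mem_insert.1 hb with h'' | hb
        · rw [h'']; exact (h5 a ha).symm
        · exact h.disj a ha b hb hne
  have h9 := hmax _ h8
  rw [card_insert_of_notMem h6] at h9
  omega

/-- a maximal packing meets every block with `k` points. -/
theorem Pack.meets_of_max {U : Finset V} {k : ℕ} {F : Finset ι} (h : Pack B U k F)
    (hmax : ∀ F', Pack B U k F' → F'.card ≤ F.card) (hk : 1 ≤ k)
    (hU : ∀ i, (B i ∩ U).card ≤ k) {i : ι} (hi : (B i ∩ U).card = k) :
    ∃ j ∈ F, ¬ Disjoint (B i ∩ U) (B j ∩ U) := by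
  have h1 := h.lt_of_max hmax hk hU i
  by_contra hcon
  push Not at hcon
  have h2 : B i ∩ (U \ F.biUnion B) = B i ∩ U := by
    refine subset_antisymm (inter_subset_inter_left sdiff_subset) fun v hv => ?_
    rw [mem_inter] at hv
    refine mem_inter.2 ⟨hv.1, mem_sdiff.2 ⟨hv.2, fun hF => ?_⟩⟩
    obtain ⟨j, hj, hvj⟩ := mem_biUnion.1 hF
    exact Finset.disjoint_left.1 (hcon j hj) (mem_inter.2 hv) (mem_inter.2 ⟨hvj, hv.2⟩)
  rw [h2, hi] at h1
  omega

end Packing

end Pool.Agent.Hyp6
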