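import Pool.Agent.Hyp6.L4F
import Pool.Agent.Hyp6.L3Non

/-!
# HYP6 QDEFS: definitions for the proof of Q-A (exceptional connected systems of level 4)

`CK B M`: a connected K-free system with traces of at most four points. `CE B p M`: moreover critical,
`sv = -1`, value `p`. `EE B C = CE B (-1) C`: the class E. `Ab B M L`: some optimal cover of `M` meets all
the sets of blocks in the list `L`. `Cmp B M i j`: some optimal cover of `M` contains both blocks.
`Gad B C a b c q o`: the gadget `{a,b,c,q}` of `C`. `PForm B C D y β`: the P-form.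
-/

set_option autoImplicit false

namespace Pool.Agent.Hyp6

open Finset Pool.Agent.Hyp5

universe u v

/-- the value theorem of level 4 for K-free systems, at all sizes. -/
def HT (V : Type v) [DecidableEq V] : Prop := ∀ n, IH4.{u} V n

section

variable {V : Type v} [DecidableEq V] {ι : Type u}

/-- some optimal cover of `M` meets all the sets of blocks in `L`. -/
def Ab (B : ι → Finset V) (M : Finset V) (L : List (Finset ι)) : Prop :=
  ∃ T : Finset ι, M ⊆ T.biUnion B ∧ T.card ≤ rho B M ∧ ∀ E ∈ L, ∃ i ∈ T, i ∈ E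

/-- some optimal cover of `M` contains both blocks. -/
def Cmp (B : ι → Finset V) (M : Finset V) (i j : ι) : Prop :=
  ∃ T : Finset ι, M ⊆ T.biUnion B ∧ T.card ≤ rho B M ∧ i ∈ T ∧ j ∈ T

variable [Fintype ι]

/-- a connected K-free system with traces of at most four points. -/
structure CK (B : ι → Finset V) (M : Finset V) : Prop where
  reg : Reg B M
  tr4 : Tr4 B M
  kf : KFree B M
  conn : Conn (gr B) M

/-- critical systems with `sv = -1` and value `p`. -/
structure CE (B : ι → Finset V) (p : ℤ) (M : Finset V) : Prop extends CK B M where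
  crit : Crit B M
  sv : sv B M = -1
  pv : Pv B M = p

/-- the class E. -/
def EE (B : ι → Finset V) (C : Finset V) : Prop := CE B (-1) C

/-- the blocks meeting `M` and `G`. -/
def Eg (B : ι → Finset V) (M G : Finset V) : Finset ι :=
  univ.filter (fun i => (B i ∩ M).Nonempty ∧ (B i ∩ G).Nonempty)

/-- the blocks of the part `D` of `C` leaving `D`. -/
def Out (B : ι → Finset V) (C D : Finset V) : Finset ι :=
  univ.filter (fun i => (B i ∩ D).Nonempty ∧ (B i ∩ (C \ D)).Nonempty)

/-- the gadget `{a,b,c,q}` of `C`: `{a,b,c}` is a T3-piece, and of its eight blocks exactly one, `o`,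
leaves `{a,b,c,q}`. -/
structure Gad (B : ι → Finset V) (C : Finset V) (a b c q : V) (o : ι) : Prop where
  sub : ({a, b, c, q} : Finset V) ⊆ C
  card : ({a, b, c, q} : Finset V).card = 4
  nbc : (univ.filter (fun i => B i ∩ ({a, b, c} : Finset V) = {b, c})).card = 3
  nab : (univ.filter (fun i => B i ∩ ({a, b, c} : Finset V) = {a, b})).card = 2
  nac : (univ.filter (fun i => B i ∩ ({a, b, c} : Finset V) = {a, c})).card = 2
  na : (univ.filter (fun i => B i ∩ ({a, b, c} : Finset V) = {a})).card = 1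
  oA : (B o ∩ ({a, b, c} : Finset V)).Nonempty
  oC : (B o ∩ (C \ {a, b, c, q})).Nonempty
  ins : ∀ i, i ≠ o → (B i ∩ ({a, b, c} : Finset V)).Nonempty → B i ∩ C ⊆ {a, b, c, q}
  qA : ∃ i, i ≠ o ∧ q ∈ B i ∧ (B i ∩ ({a, b, c} : Finset V)).Nonempty

/-- a good gadget: `q` lies in at least three blocks meeting `{a,b,c}` (`q` is not in `o` in the class E, so
these are among the seven inner blocks). -/
structure GGad (B : ι → Finset V) (C : Finset V) (a b c q : V) (o : ι) : Prop
    extends Gad B C a b c q o where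
  good : 3 ≤ (Eg B {a, b, c} {q}).card

/-- `C` has a gadget. -/
def HasG (B : ι → Finset V) (C : Finset V) : Prop := ∃ a b c q o, Gad B C a b c q o

/-- `C` has a good gadget. -/
def HasGG (B : ι → Finset V) (C : Finset V) : Prop := ∃ a b c q o, GGad B C a b c q o

/-- the P-form: all outer blocks of `D` but `β` have the outer part `{y}`; `β` avoids `y` and is
incompatible in `D` with all of them. -/
structure PForm (B : ι → Finset V) (C D : Finset V) (y : V) (β : ι) : Prop where
  ee : EE B D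
  sub : D ⊆ C
  yC : y ∈ C
  yD : y ∉ D
  yb : y ∉ B β
  b : β ∈ Out B C D
  part : ∀ i ∈ Out B C D, i ≠ β → B i ∩ (C \ D) = {y}
  inc : ∀ i ∈ Out B C D, i ≠ β → ¬ Cmp B D i β
  ne : ∃ i ∈ Out B C D, i ≠ β

end

/-- the induction hypothesis of theorem G: the members of E with seven or more points, less than `n`, have
a good gadget. -/
def GH (V : Type v) [DecidableEq V] (n : ℕ) : Prop :=
  ∀ (κ : Type u) [Fintype κ] (B : κ → Finset V) (C : Finset V), EE B C → 7 ≤ C.card → C.card < n →
    HasGG B C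

section

variable {V : Type v} [DecidableEq V] {ι : Type u} {B : ι → Finset V} {M : Finset V}

theorem Cmp.symm {i j : ι} (h : Cmp B M i j) : Cmp B M j i := by
  obtain ⟨T, h1, h2, h3, h4⟩ := h
  exact ⟨T, h1, h2, h4, h3⟩

theorem Ab.mono {L L' : List (Finset ι)} (h : Ab B M L) (hL : ∀ E' ∈ L', ∃ E ∈ L, E ⊆ E') :
    Ab B M L' := by
  obtain ⟨T, h1, h2, h3⟩ := h
  refine ⟨T, h1, h2, fun E' hE' => ?_⟩
  obtain ⟨E, hE, hs⟩ := hL E' hE'
  obtain ⟨i, hi, hiE⟩ := h3 E hE
  exact ⟨i, hi, hs hiE⟩

theorem ab_two {E1 E2 : Finset ι} : Ab B M [E1, E2] ↔ ∃ i ∈ E1, ∃ j ∈ E2, Cmp B M i j := by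
  constructor
  · rintro ⟨T, h1, h2, h3⟩
    obtain ⟨i, hi, hi1⟩ := h3 E1 (by simp)
    obtain ⟨j, hj, hj1⟩ := h3 E2 (by simp)
    exact ⟨i, hi1, j, hj1, T, h1, h2, hi, hj⟩
  · rintro ⟨i, hi, j, hj, T, h1, h2, h3, h4⟩
    refine ⟨T, h1, h2, fun E hE => ?_⟩
    rw [List.mem_cons, List.mem_cons] at hE
    rcases hE with rfl | rfl | hE
    · exact ⟨i, h3, hi⟩
    · exact ⟨j, h4, hj⟩
    · exact absurd hE (by simp)

theorem CE.ck [Fintype ι] {p : ℤ} (h : CE B p M) : CK B M := h.toCK

theorem CK.cov [Fintype ι] (h : CK B M) : Cov B M := cov_of_reg h.reg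

theorem mem_Eg [Fintype ι] {G : Finset V} {i : ι} :
    i ∈ Eg B M G ↔ (B i ∩ M).Nonempty ∧ (B i ∩ G).Nonempty := by simp [Eg]

theorem mem_Out [Fintype ι] {C : Finset V} {i : ι} :
    i ∈ Out B C M ↔ (B i ∩ M).Nonempty ∧ (B i ∩ (C \ M)).Nonempty := by simp [Out]

end

end Pool.Agent.Hyp6
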