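import Pool.Agent.Hyp6.QClo
import Pool.Agent.Hyp6.QDefs

/-!
# HYP6 QTY: the four types of closures in a member of the class E

`EE.types`: every block with three or more points of a member `C` of E lies in a closure `X` whose
components are of type I (E, 5), II (1, 3), III (E, 1) with `|X| = 3`, or IV (E, E, 1) with `|X| = 4`.
-/

set_option autoImplicit false

namespace Pool.Agent.Hyp6

open Finset Pool.Agent.Hyp5

universe u v

section

variable {V : Type v} [DecidableEq V] {ι : Type u} [Fintype ι] {B : ι → Finset V}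
variable {C X M : Finset V} {F : Finset (Finset V)}

theorem Eg_singleton {z : V} : Eg B M {z} = Ez B M z := by
  ext i
  rw [mem_Eg, mem_Ez]
  constructor
  · rintro ⟨h1, t, ht⟩
    rw [mem_inter, mem_singleton] at ht
    exact ⟨ht.2 ▸ ht.1, h1⟩
  · rintro ⟨h1, h2⟩
    exact ⟨h2, z, mem_inter.2 ⟨h1, mem_singleton_self _⟩⟩

omit [Fintype ι] in
theorem Cmp.abz {i j : ι} {y z : V} (h : Cmp B M i j) (hy : y ∈ B i) (hz : z ∈ B j) :
    Abz B M {y, z} := by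
  obtain ⟨T, h1, h2, h3, h4⟩ := h
  refine ⟨T, ?_, h2⟩
  intro v hv
  rw [mem_union, mem_insert, mem_singleton] at hv
  rcases hv with hv | rfl | rfl
  · exact h1 hv
  · exact mem_biUnion.2 ⟨i, h3, hy⟩
  · exact mem_biUnion.2 ⟨j, h4, hz⟩

theorem Ab.abz {y z : V} (h : Ab B M [Eg B M {y}, Eg B M {z}]) : Abz B M {y, z} := by
  obtain ⟨i, hi, j, hj, hij⟩ := ab_two.1 h
  rw [Eg_singleton] at hi hj
  exact hij.abz (mem_Ez.1 hi).1 (mem_Ez.1 hj).1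

theorem Crit.blk_abz (hcr : Crit B M) (hc : Cov B M) {i : ι} (hi : (B i ∩ M).Nonempty)
    {y z : V} (hy : y ∈ B i) (hz : z ∈ B i) : Abz B M {y, z} := by
  obtain ⟨T, h1, h2, h3⟩ := hcr.blkT hc hi
  exact Cmp.abz ⟨T, h1, h2, h3, h3⟩ hy hz

/-- the components of a closure as systems. -/
theorem Clo.ce (h : Clo B C X F) (hC : CK B C) {p : ℤ} (hM : M ∈ F) (hs : sv B M = -1)
    (hp : Pv B M = p) : CE B p M :=
  ⟨⟨hC.reg.mono (h.subC hM), hC.tr4.mono (h.subC hM), hC.kf.mono (h.subC hM),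
    (h.parts M hM).2.2⟩, h.crit M hM, hs, hp⟩

theorem Clo.h1 (h : Clo B C X F) (hcr : Crit B C) (hc : Cov B C) (hC : Conn (gr B) C)
    (hM : M ∈ F) {t : V} (ht : t ∈ X) : ∃ x ∈ X, x ≠ t ∧ (Ez B M x).Nonempty := by
  obtain ⟨z, hz, y, hy, hzy, hEz, hEy⟩ := h.two hcr hc hC ⟨t, ht⟩ hM
  by_cases h1 : z = t
  · exact ⟨y, hy, fun h2 => hzy (h1.trans h2.symm), hEy⟩
  · exact ⟨z, hz, h1, hEz⟩

theorem Clo.h2 (h : Clo B C X F) (hcr : Crit B C) (hc : Cov B C) (hC : Conn (gr B) C)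
    {L : Finset V} (hM : M ∈ F) (hL : L ∈ F) (hne : M ≠ L) {t s : V} (ht : t ∈ X) (hs : s ∈ X) :
    ∃ x ∈ X, x ≠ t ∧ x ≠ s ∧ ((Ez B M x).Nonempty ∨ (Ez B L x).Nonempty) := by
  classical
  have h1 := h.hall hcr hc hC ⟨t, ht⟩ (S := {M, L})
    (by
      intro D hD
      rw [mem_insert, mem_singleton] at hD
      rcases hD with rfl | rfl
      · exact hM
      · exact hL) (insert_nonempty _ _)
  rw [card_pair hne] at h1
  by_contra hcon
  push Not at hcon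
  have h2 : nbX B X {M, L} ⊆ {t, s} := by
    intro x hx
    rw [mem_nbX] at hx
    obtain ⟨hxX, D, hD, hxD⟩ := hx
    rw [mem_insert, mem_singleton]
    by_contra h3
    push Not at h3
    have h4 := hcon x hxX h3.1 h3.2
    rw [mem_insert, mem_singleton] at hD
    rcases hD with rfl | rfl
    · rw [h4.1] at hxD
      exact absurd hxD (by simp)
    · rw [h4.2] at hxD
      exact absurd hxD (by simp)
  have h3 := card_le_card h2
  have h4 : ({t, s} : Finset V).card ≤ 2 := card_le_two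
  omega

theorem Clo.ne_C (h : Clo B C X F) (hMF : M ∈ F) (hX : X.Nonempty) : M ≠ C := by
  rintro rfl
  obtain ⟨x, hx⟩ := hX
  exact h.notMem hMF hx (h.sub hx)

/-- the four types. -/
theorem EE.types (hT : HT.{u} V) (hE : EE B C) {i : ι} (hi3 : 3 ≤ (B i ∩ C).card) :
    ∃ X F, B i ∩ C ⊆ X ∧ Clo B C X F ∧
      ((X = B i ∩ C ∧ X.card = 3 ∧ (ins B C X).card = 1 ∧
        ∃ M L, M ≠ L ∧ F = {M, L} ∧ EE B M ∧ CE B 5 L) ∨
      (X = B i ∩ C ∧ X.card = 3 ∧ (ins B C X).card = 1 ∧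
        ∃ M L, M ≠ L ∧ F = {M, L} ∧ CE B 1 M ∧ CE B 3 L) ∨
      (X = B i ∩ C ∧ X.card = 3 ∧ (ins B C X).card = 2 ∧
        ∃ M L, M ≠ L ∧ F = {M, L} ∧ EE B M ∧ CE B 1 L) ∨
      (X.card = 4 ∧ (ins B C X).card = 1 ∧ ∃ M1 M2 L, M1 ≠ M2 ∧ M1 ≠ L ∧ M2 ≠ L ∧
        F = {M1, M2, L} ∧ EE B M1 ∧ EE B M2 ∧ CE B 1 L)) := by
  have hc : Cov B C := hE.ck.cov
  obtain ⟨t, ht⟩ := card_pos.1 (by omega : 0 < (B i ∩ C).card)
  obtain ⟨X, F, hiX, h⟩ := exists_clo hE.crit hc (P := B i ∩ C) inter_subset_left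
    inter_subset_right ⟨t, ht⟩
  have hsv := (h.card_eq hE.crit hc hE.conn hE.sv ⟨t, hiX ht⟩).2
  refine ⟨X, F, hiX, h, ?_⟩
  rcases h.types hT hE.reg hE.tr4 hE.kf hE.conn hE.crit hE.pv hE.sv hiX hi3 with
    ⟨h1, h2, h3, M, L, h4, h5, h6, h7⟩ | ⟨h1, h2, h3, M, L, h4, h5, h6, h7⟩ |
    ⟨h1, h2, h3, M, L, h4, h5, h6, h7⟩ | ⟨h1, h2, M1, M2, L, h3, h4, h5, h6, h7, h8, h9⟩
  · have hM : M ∈ F := by rw [h5]; simp
    have hL : L ∈ F := by rw [h5]; simp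
    exact Or.inl ⟨h1, h2, h3, M, L, h4, h5, h.ce hE.ck hM (hsv M hM) h6,
      h.ce hE.ck hL (hsv L hL) h7⟩
  · have hM : M ∈ F := by rw [h5]; simp
    have hL : L ∈ F := by rw [h5]; simp
    exact Or.inr (Or.inl ⟨h1, h2, h3, M, L, h4, h5, h.ce hE.ck hM (hsv M hM) h6,
      h.ce hE.ck hL (hsv L hL) h7⟩)
  · have hM : M ∈ F := by rw [h5]; simp
    have hL : L ∈ F := by rw [h5]; simp
    exact Or.inr (Or.inr (Or.inl ⟨h1, h2, h3, M, L, h4, h5, h.ce hE.ck hM (hsv M hM) h6,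
      h.ce hE.ck hL (hsv L hL) h7⟩))
  · have hM1 : M1 ∈ F := by rw [h6]; simp
    have hM2 : M2 ∈ F := by rw [h6]; simp
    have hL : L ∈ F := by rw [h6]; simp
    exact Or.inr (Or.inr (Or.inr ⟨h1, h2, M1, M2, L, h3, h4, h5, h6,
      h.ce hE.ck hM1 (hsv M1 hM1) h7, h.ce hE.ck hM2 (hsv M2 hM2) h8,
      h.ce hE.ck hL (hsv L hL) h9⟩))

end

end Pool.Agent.Hyp6
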