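import Pool.Agent.Hyp6.QGad
import Pool.Agent.Hyp6.QTy

/-!
# HYP6 Q44: absorption of four points with four hits each, the step for a good gadget (frame)
-/

set_option autoImplicit false

namespace Pool.Agent.Hyp6

open Finset Pool.Agent.Hyp5

universe u v

section

variable {V : Type v} [DecidableEq V] {ι : Type u} [Fintype ι] {B : ι → Finset V}
  {Q C Y : Finset V} {a b c q : V} {o : ι}

/-- a counterexample to the step: `C` with the good gadget `{a,b,c,q}` refuses `Y`, the rest absorbs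
four points with four hits. -/
structure Fr (B : ι → Finset V) (Q C Y : Finset V) (a b c q : V) (o : ι) : Prop where
  hT : HT.{u} V
  r : Reg B Q
  t4 : Tr4 B Q
  CQ : C ⊆ Q
  e : EE B C
  g : GGad B C a b c q o
  YQ : Y ⊆ Q
  dis : Disjoint C Y
  cY : Y.card = 4
  hit : ∀ y ∈ Y, 4 ≤ (Ez B C y).card
  ind : (∀ y ∈ Y, 4 ≤ (Ez B (C \ {a, b, c, q}) y).card) → Abz B (C \ {a, b, c, q}) Y
  neg : ¬ Abz B C Y

/-- the inner blocks of the gadget containing `z`. -/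
def Lz (B : ι → Finset V) (C : Finset V) (a b c q : V) (z : V) : Finset ι :=
  (ins B C {a, b, c, q}).filter (fun i => z ∈ B i)

/-- two inner blocks which cover the gadget. -/
def Okb (B : ι → Finset V) (a b c q : V) (i j : ι) : Prop :=
  B i ∩ ({a, b, c} : Finset V) ≠ B j ∩ ({a, b, c} : Finset V) ∧ (q ∈ B i ∨ q ∈ B j)

theorem Okb.symm {i j : ι} (h : Okb B a b c q i j) : Okb B a b c q j i := ⟨h.1.symm, h.2.symm⟩

theorem mem_Lz {z : V} {i : ι} : i ∈ Lz B C a b c q z ↔ i ∈ ins B C {a, b, c, q} ∧ z ∈ B i := by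
  simp [Lz]

theorem Fr.t3 (h : Fr B Q C Y a b c q o) : T3 B a b c := h.g.toGad.t3 h.e.toCK.reg

theorem Fr.eD (h : Fr B Q C Y a b c q o) : EE B (C \ {a, b, c, q}) := h.g.toGad.ee h.hT h.e

theorem Fr.rho (h : Fr B Q C Y a b c q o) : rho B C = rho B (C \ {a, b, c, q}) + 2 :=
  h.g.toGad.rho_eq h.hT h.e

theorem Fr.tr (h : Fr B Q C Y a b c q o) {i : ι} (hi : i ∈ ins B C {a, b, c, q}) :
    B i ∩ ({a, b, c} : Finset V) = {b, c} ∨ B i ∩ ({a, b, c} : Finset V) = {a, b} ∨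
      B i ∩ ({a, b, c} : Finset V) = {a, c} := by
  rw [mem_ins] at hi
  exact h.g.tr_ins h.hT h.e hi.1 hi.2

/-- two blocks with different traces cover `{a,b,c}`. -/
theorem Fr.cov2 (h : Fr B Q C Y a b c q o) {i j : ι} (hi : i ∈ ins B C {a, b, c, q})
    (hj : j ∈ ins B C {a, b, c, q})
    (hij : B i ∩ ({a, b, c} : Finset V) ≠ B j ∩ ({a, b, c} : Finset V)) :
    ({a, b, c} : Finset V) ⊆ B i ∪ B j := by
  have haA : a ∈ ({a, b, c} : Finset V) := by simp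
  have hbA : b ∈ ({a, b, c} : Finset V) := by simp
  have hcA : c ∈ ({a, b, c} : Finset V) := by simp
  have key : ∀ S T : Finset V, B i ∩ ({a, b, c} : Finset V) = S →
      B j ∩ ({a, b, c} : Finset V) = T → a ∈ S ∪ T → b ∈ S ∪ T → c ∈ S ∪ T →
      ({a, b, c} : Finset V) ⊆ B i ∪ B j := by
    intro S T hS hT h1 h2 h3
    rw [mem_union, ← mem_of_tr hS haA, ← mem_of_tr hT haA] at h1
    rw [mem_union, ← mem_of_tr hS hbA, ← mem_of_tr hT hbA] at h2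
    rw [mem_union, ← mem_of_tr hS hcA, ← mem_of_tr hT hcA] at h3
    exact sub_union_of h1 h2 h3
  rcases h.tr hi with h1 | h1 | h1 <;> rcases h.tr hj with h2 | h2 | h2
  · exact absurd (h1.trans h2.symm) hij
  · exact key _ _ h1 h2 (by simp) (by simp) (by simp)
  · exact key _ _ h1 h2 (by simp) (by simp) (by simp)
  · exact key _ _ h1 h2 (by simp) (by simp) (by simp)
  · exact absurd (h1.trans h2.symm) hij
  · exact key _ _ h1 h2 (by simp) (by simp) (by simp)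
  · exact key _ _ h1 h2 (by simp) (by simp) (by simp)
  · exact key _ _ h1 h2 (by simp) (by simp) (by simp)
  · exact absurd (h1.trans h2.symm) hij

/-- the basic refusal: no cover of the rest together with two inner blocks takes everything. -/
theorem Fr.no (h : Fr B Q C Y a b c q o) {T : Finset ι}
    (hT1 : C \ {a, b, c, q} ⊆ T.biUnion B) (hT2 : T.card ≤ Hyp6.rho B (C \ {a, b, c, q})) {i j : ι}
    (hA : ({a, b, c} : Finset V) ⊆ B i ∪ B j) (hq : q ∈ B i ∨ q ∈ B j ∨ q ∈ T.biUnion B)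
    (hY : ∀ y ∈ Y, y ∈ T.biUnion B ∨ y ∈ B i ∨ y ∈ B j) : False := by
  classical
  have hq' : q ∈ B i ∨ q ∈ B j ∨ (∃ k ∈ T, q ∈ B k) := by
    rcases hq with h1 | h1 | h1
    · exact Or.inl h1
    · exact Or.inr (Or.inl h1)
    · exact Or.inr (Or.inr (mem_biUnion.1 h1))
  obtain ⟨k, hk⟩ : ∃ k, q ∈ B i ∨ q ∈ B j ∨ (k ∈ T ∧ q ∈ B k) := by
    rcases hq' with h1 | h1 | ⟨k, h1, h2⟩
    · exact ⟨i, Or.inl h1⟩
    · exact ⟨i, Or.inr (Or.inl h1)⟩
    · exact ⟨k, Or.inr (Or.inr ⟨h1, h2⟩)⟩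
  obtain ⟨T', h1, h2, h3, h4, h5⟩ := h.g.toGad.glue h.hT h.e hT1 hT2 hA hk
  refine h.neg ⟨T', union_subset h1 fun y hy => ?_, h2⟩
  rcases hY y hy with h6 | h6 | h6
  · exact (biUnion_subset_biUnion_of_subset_left B h5) h6
  · exact mem_biUnion.2 ⟨i, h3, h6⟩
  · exact mem_biUnion.2 ⟨j, h4, h6⟩

/-- an `Okb` pair: the rest refuses the points of `Y` outside. -/
theorem Fr.ref (h : Fr B Q C Y a b c q o) {i j : ι} (hi : i ∈ ins B C {a, b, c, q})
    (hj : j ∈ ins B C {a, b, c, q}) (hij : Okb B a b c q i j) {S : Finset V}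
    (hS : ∀ y ∈ Y, y ∉ S → y ∈ B i ∨ y ∈ B j) : ¬ Abz B (C \ {a, b, c, q}) S := by
  rintro ⟨T, hT1, hT2⟩
  refine h.no ((subset_union_left).trans hT1) hT2 (h.cov2 hi hj hij.1)
    (hij.2.elim Or.inl fun h => Or.inr (Or.inl h)) fun y hy => ?_
  by_cases hyS : y ∈ S
  · exact Or.inl (hT1 (mem_union_right _ hyS))
  · exact Or.inr (hS y hy hyS)

/-- every inner block has a partner. -/
theorem Fr.partner (h : Fr B Q C Y a b c q o) {i : ι} (hi : i ∈ ins B C {a, b, c, q}) :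
    ∃ j ∈ ins B C {a, b, c, q}, Okb B a b c q i j := by
  obtain ⟨⟨j1, hq1, hj1⟩, ⟨j2, hq2, hj2⟩⟩ := h.g.q_ab h.hT h.e
  have key : ∀ j, q ∈ B j → (B j ∩ ({a, b, c} : Finset V)).Nonempty → j ∈ ins B C {a, b, c, q} := by
    intro j hqj hjA
    have h1 : j ∈ Eg B {a, b, c} {q} := mem_Eg.2 ⟨hjA, q, mem_inter.2 ⟨hqj, mem_singleton_self q⟩⟩
    have h2 := h.g.toGad.qE h.hT h.e h1
    refine mem_ins.2 ⟨?_, h.g.ins j h2.2.2 hjA⟩
    exact ⟨q, mem_inter.2 ⟨hqj, h.g.sub (by simp)⟩⟩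
  have hab : ({a, b} : Finset V) ≠ {a, c} := by
    intro he
    have : b ∈ ({a, c} : Finset V) := he ▸ (by simp)
    rw [mem_insert, mem_singleton] at this
    exact this.elim (fun e => h.t3.ab e.symm) h.t3.bc
  by_cases h1 : B i ∩ ({a, b, c} : Finset V) = {a, b}
  · refine ⟨j2, key j2 hq2 (by rw [hj2]; simp), ?_, Or.inr hq2⟩
    rw [h1, hj2]
    exact hab
  · refine ⟨j1, key j1 hq1 (by rw [hj1]; simp), ?_, Or.inr hq1⟩
    rw [hj1]
    exact h1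

/-- the hits are inner blocks or hits of the rest. -/
theorem Fr.four (h : Fr B Q C Y a b c q o) {z : V} (hz : z ∈ Y) :
    4 ≤ (Lz B C a b c q z).card + (Ez B (C \ {a, b, c, q}) z).card := by
  classical
  refine (h.hit z hz).trans ((card_le_card ?_).trans (card_union_le _ _))
  intro i hi
  rw [mem_Ez] at hi
  rw [mem_union, mem_Lz, mem_ins, mem_Ez]
  by_cases h1 : (B i ∩ (C \ {a, b, c, q})).Nonempty
  · exact Or.inr ⟨hi.1, h1⟩
  · refine Or.inl ⟨⟨hi.2, fun v hv => ?_⟩, hi.1⟩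
    by_contra hvW
    rw [mem_inter] at hv
    exact h1 ⟨v, mem_inter.2 ⟨hv.1, mem_sdiff.2 ⟨hv.2, hvW⟩⟩⟩

theorem Fr.notMem (h : Fr B Q C Y a b c q o) {z : V} (hz : z ∈ Y) : z ∉ C :=
  fun hc => disjoint_left.1 h.dis hc hz

theorem Fr.notMemD (h : Fr B Q C Y a b c q o) {z : V} (hz : z ∈ Y) : z ∉ C \ {a, b, c, q} :=
  fun hc => h.notMem hz (mem_sdiff.1 hc).1

/-- one point. -/
theorem Fr.d1 (h : Fr B Q C Y a b c q o) {z : V} (hz : 1 ≤ (Ez B (C \ {a, b, c, q}) z).card) :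
    Abz B (C \ {a, b, c, q}) {z} := by
  obtain ⟨i, hi⟩ := card_pos.1 (by omega : 0 < (Ez B (C \ {a, b, c, q}) z).card)
  have h1 := (mem_Ez.1 hi).2
  refine abz_of_ab (ab_one h.eD.crit h.eD.toCK.cov h1 hi) fun w hw => ?_
  rw [mem_singleton] at hw
  subst hw
  exact ⟨_, by simp, Subset.refl _⟩

/-- two points with two hits. -/
theorem Fr.d2 (h : Fr B Q C Y a b c q o) {z z' : V} (hz : z ∉ C \ {a, b, c, q})
    (hz' : z' ∉ C \ {a, b, c, q}) (hne : z ≠ z')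
    (h1 : 2 ≤ (Ez B (C \ {a, b, c, q}) z).card) (h2 : 2 ≤ (Ez B (C \ {a, b, c, q}) z').card) :
    Abz B (C \ {a, b, c, q}) {z, z'} := by
  rw [abz_iff_ab]
  exact h.eD.two h.hT ⟨z, z', hz, hz', hne⟩ (fun i hi => (mem_Ez.1 hi).2)
    (fun i hi => (mem_Ez.1 hi).2) h1 h2

/-- three groups with (4,3,3) hits. -/
theorem Fr.d3g (h : Fr B Q C Y a b c q o) {G1 G2 G3 : Finset V}
    (hG1 : G1 ⊆ Q \ (C \ {a, b, c, q})) (hG2 : G2 ⊆ Q \ (C \ {a, b, c, q}))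
    (hG3 : G3 ⊆ Q \ (C \ {a, b, c, q})) (h12 : Disjoint G1 G2)
    (h13 : Disjoint G1 G3) (h23 : Disjoint G2 G3)
    (hc1 : 4 ≤ (Eg B (C \ {a, b, c, q}) G1).card)
    (hc2 : 3 ≤ (Eg B (C \ {a, b, c, q}) G2).card) (hc3 : 3 ≤ (Eg B (C \ {a, b, c, q}) G3).card) :
    Ab B (C \ {a, b, c, q}) [Eg B (C \ {a, b, c, q}) G1, Eg B (C \ {a, b, c, q}) G2,
      Eg B (C \ {a, b, c, q}) G3] :=
  h.eD.three h.hT (sdiff_subset.trans h.CQ) h.t4 hG1 hG2 hG3 h12 h13 h23 hc1 hc2 hc3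

end

end Pool.Agent.Hyp6
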