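import Pool.Agent.Hyp6.QFct

/-!
# HYP6 QGAD: gadgets of the members of the class E
-/

set_option autoImplicit false

namespace Pool.Agent.Hyp6

open Finset Pool.Agent.Hyp5

universe u v

section

variable {V : Type v} [DecidableEq V] {ι : Type u} [Fintype ι] {B : ι → Finset V}
  {M C D : Finset V} {a b c q : V} {o : ι}

/-- a T3-piece: three points, eight blocks. -/
structure T3 (B : ι → Finset V) (a b c : V) : Prop where
  ab : a ≠ b
  ac : a ≠ c
  bc : b ≠ c
  nbc : (univ.filter (fun i => B i ∩ ({a, b, c} : Finset V) = {b, c})).card = 3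
  nab : (univ.filter (fun i => B i ∩ ({a, b, c} : Finset V) = {a, b})).card = 2
  nac : (univ.filter (fun i => B i ∩ ({a, b, c} : Finset V) = {a, c})).card = 2
  na : (univ.filter (fun i => B i ∩ ({a, b, c} : Finset V) = {a})).card = 1
  ra : (univ.filter (fun i => a ∈ B i)).card = 5
  rb : (univ.filter (fun i => b ∈ B i)).card = 5
  rc : (univ.filter (fun i => c ∈ B i)).card = 5

/-- membership from a trace. -/
theorem mem_of_tr {A S : Finset V} {i : ι} (h : B i ∩ A = S) {x : V} (hx : x ∈ A) :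
    x ∈ B i ↔ x ∈ S := by
  rw [← h, mem_inter]
  exact ⟨fun h => ⟨h, hx⟩, fun h => h.1⟩

theorem T3.tr_a (h : T3 B a b c) {i : ι} (hi : a ∈ B i) :
    B i ∩ ({a, b, c} : Finset V) = {a, b} ∨ B i ∩ ({a, b, c} : Finset V) = {a, c} ∨
      B i ∩ ({a, b, c} : Finset V) = {a} := by
  classical
  set A : Finset V := {a, b, c} with hA
  have ha : a ∈ A := by simp [hA]
  set S1 := univ.filter (fun i => B i ∩ A = {a, b}) with hS1
  set S2 := univ.filter (fun i => B i ∩ A = {a, c}) with hS2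
  set S3 := univ.filter (fun i => B i ∩ A = {a}) with hS3
  have d12 : Disjoint S1 S2 := by
    rw [disjoint_filter]
    intro j _ h1 h2
    have := h1.symm.trans h2
    have hb : b ∈ ({a, c} : Finset V) := this ▸ (by simp : b ∈ ({a, b} : Finset V))
    rw [mem_insert, mem_singleton] at hb
    exact hb.elim (fun e => h.ab e.symm) h.bc
  have d3 : Disjoint (S1 ∪ S2) S3 := by
    rw [disjoint_left]
    intro j hj hj3
    rw [mem_filter] at hj3
    rcases mem_union.1 hj with hj | hj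
    · rw [mem_filter] at hj
      have := hj.2.symm.trans hj3.2
      have hb : b ∈ ({a} : Finset V) := this ▸ (by simp : b ∈ ({a, b} : Finset V))
      rw [mem_singleton] at hb
      exact h.ab hb.symm
    · rw [mem_filter] at hj
      have := hj.2.symm.trans hj3.2
      have hb : c ∈ ({a} : Finset V) := this ▸ (by simp : c ∈ ({a, c} : Finset V))
      rw [mem_singleton] at hb
      exact h.ac hb.symm
  have hsub : S1 ∪ S2 ∪ S3 ⊆ univ.filter (fun i => a ∈ B i) := by
    intro j hj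
    rw [mem_filter]
    refine ⟨mem_univ _, ?_⟩
    rcases mem_union.1 hj with hj | hj
    · rcases mem_union.1 hj with hj | hj
      · exact (mem_of_tr (mem_filter.1 hj).2 ha).2 (by simp)
      · exact (mem_of_tr (mem_filter.1 hj).2 ha).2 (by simp)
    · exact (mem_of_tr (mem_filter.1 hj).2 ha).2 (by simp)
  have heq := eq_of_subset_of_card_le hsub (by
    rw [h.ra, card_union_of_disjoint d3, card_union_of_disjoint d12, h.nab, h.nac, h.na])
  have hmem : i ∈ S1 ∪ S2 ∪ S3 := by
    rw [heq]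
    exact mem_filter.2 ⟨mem_univ _, hi⟩
  rcases mem_union.1 hmem with hj | hj
  · rcases mem_union.1 hj with hj | hj
    · exact Or.inl (mem_filter.1 hj).2
    · exact Or.inr (Or.inl (mem_filter.1 hj).2)
  · exact Or.inr (Or.inr (mem_filter.1 hj).2)

theorem T3.tr_b (h : T3 B a b c) {i : ι} (hi : b ∈ B i) :
    B i ∩ ({a, b, c} : Finset V) = {b, c} ∨ B i ∩ ({a, b, c} : Finset V) = {a, b} := by
  classical
  set A : Finset V := {a, b, c} with hA
  have hb : b ∈ A := by simp [hA]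
  set S1 := univ.filter (fun i => B i ∩ A = {b, c}) with hS1
  set S2 := univ.filter (fun i => B i ∩ A = {a, b}) with hS2
  have d12 : Disjoint S1 S2 := by
    rw [disjoint_filter]
    intro j _ h1 h2
    have := h1.symm.trans h2
    have hb : c ∈ ({a, b} : Finset V) := this ▸ (by simp : c ∈ ({b, c} : Finset V))
    rw [mem_insert, mem_singleton] at hb
    exact hb.elim (fun e => h.ac e.symm) (fun e => h.bc e.symm)
  have hsub : S1 ∪ S2 ⊆ univ.filter (fun i => b ∈ B i) := by
    intro j hj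
    rw [mem_filter]
    refine ⟨mem_univ _, ?_⟩
    rcases mem_union.1 hj with hj | hj
    · exact (mem_of_tr (mem_filter.1 hj).2 hb).2 (by simp)
    · exact (mem_of_tr (mem_filter.1 hj).2 hb).2 (by simp)
  have heq := eq_of_subset_of_card_le hsub (by
    rw [h.rb, card_union_of_disjoint d12, h.nbc, h.nab])
  have hmem : i ∈ S1 ∪ S2 := by
    rw [heq]
    exact mem_filter.2 ⟨mem_univ _, hi⟩
  rcases mem_union.1 hmem with hj | hj
  · exact Or.inl (mem_filter.1 hj).2
  · exact Or.inr (mem_filter.1 hj).2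

/-- the T3-piece is symmetric in `b` and `c`. -/
theorem T3.swap (h : T3 B a b c) : T3 B a c b := by
  have e : ({a, c, b} : Finset V) = {a, b, c} := by
    rw [pair_comm c b]
  refine ⟨h.ac, h.ab, h.bc.symm, ?_, ?_, ?_, ?_, h.ra, h.rc, h.rb⟩
  · rw [e, pair_comm c b]
    exact h.nbc
  · rw [e]
    exact h.nac
  · rw [e]
    exact h.nab
  · rw [e]
    exact h.na

theorem T3.tr_c (h : T3 B a b c) {i : ι} (hi : c ∈ B i) :
    B i ∩ ({a, b, c} : Finset V) = {b, c} ∨ B i ∩ ({a, b, c} : Finset V) = {a, c} := by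
  have e : ({a, c, b} : Finset V) = {a, b, c} := by
    rw [pair_comm c b]
  have h1 := h.swap.tr_b hi
  rw [e, pair_comm c b] at h1
  exact h1

/-- the four traces. -/
theorem T3.tr (h : T3 B a b c) {i : ι} (hi : (B i ∩ ({a, b, c} : Finset V)).Nonempty) :
    B i ∩ ({a, b, c} : Finset V) = {b, c} ∨ B i ∩ ({a, b, c} : Finset V) = {a, b} ∨
      B i ∩ ({a, b, c} : Finset V) = {a, c} ∨ B i ∩ ({a, b, c} : Finset V) = {a} := by
  obtain ⟨v, hv⟩ := hi
  rw [mem_inter, mem_insert, mem_insert, mem_singleton] at hv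
  obtain ⟨hvi, rfl | rfl | rfl⟩ := hv
  · rcases h.tr_a hvi with h1 | h1 | h1
    · exact Or.inr (Or.inl h1)
    · exact Or.inr (Or.inr (Or.inl h1))
    · exact Or.inr (Or.inr (Or.inr h1))
  · rcases h.tr_b hvi with h1 | h1
    · exact Or.inl h1
    · exact Or.inr (Or.inl h1)
  · rcases h.tr_c hvi with h1 | h1
    · exact Or.inl h1
    · exact Or.inr (Or.inr (Or.inl h1))

/-- the complement of every trace lies in a block. -/
theorem T3.compl (h : T3 B a b c) {i : ι} (hi : (B i ∩ ({a, b, c} : Finset V)).Nonempty) :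
    ∃ j, ({a, b, c} : Finset V) ⊆ B i ∪ B j := by
  classical
  obtain ⟨jbc, hjbc⟩ := card_pos.1 (by rw [h.nbc]; norm_num :
    0 < (univ.filter (fun i => B i ∩ ({a, b, c} : Finset V) = {b, c})).card)
  obtain ⟨jab, hjab⟩ := card_pos.1 (by rw [h.nab]; norm_num :
    0 < (univ.filter (fun i => B i ∩ ({a, b, c} : Finset V) = {a, b})).card)
  obtain ⟨jac, hjac⟩ := card_pos.1 (by rw [h.nac]; norm_num :
    0 < (univ.filter (fun i => B i ∩ ({a, b, c} : Finset V) = {a, c})).card)
  rw [mem_filter] at hjbc hjab hjac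
  have ha : a ∈ ({a, b, c} : Finset V) := by simp
  have hb : b ∈ ({a, b, c} : Finset V) := by simp
  have hc : c ∈ ({a, b, c} : Finset V) := by simp
  have key : ∀ {j : ι}, (a ∈ B i ∨ a ∈ B j) → (b ∈ B i ∨ b ∈ B j) → (c ∈ B i ∨ c ∈ B j) →
      ({a, b, c} : Finset V) ⊆ B i ∪ B j := by
    intro j h1 h2 h3 v hv
    rw [mem_insert, mem_insert, mem_singleton] at hv
    rw [mem_union]
    rcases hv with rfl | rfl | rfl
    · exact h1
    · exact h2
    · exact h3
  rcases h.tr hi with h1 | h1 | h1 | h1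
  · exact ⟨jab, key (Or.inr ((mem_of_tr hjab.2 ha).2 (by simp)))
      (Or.inl ((mem_of_tr h1 hb).2 (by simp))) (Or.inl ((mem_of_tr h1 hc).2 (by simp)))⟩
  · exact ⟨jbc, key (Or.inl ((mem_of_tr h1 ha).2 (by simp)))
      (Or.inl ((mem_of_tr h1 hb).2 (by simp))) (Or.inr ((mem_of_tr hjbc.2 hc).2 (by simp)))⟩
  · exact ⟨jbc, key (Or.inl ((mem_of_tr h1 ha).2 (by simp)))
      (Or.inr ((mem_of_tr hjbc.2 hb).2 (by simp))) (Or.inl ((mem_of_tr h1 hc).2 (by simp)))⟩
  · exact ⟨jbc, key (Or.inl ((mem_of_tr h1 ha).2 (by simp)))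
      (Or.inr ((mem_of_tr hjbc.2 hb).2 (by simp))) (Or.inr ((mem_of_tr hjbc.2 hc).2 (by simp)))⟩

theorem Gad.pts (h : Gad B C a b c q o) : a ≠ b ∧ a ≠ c ∧ a ≠ q ∧ b ≠ c ∧ b ≠ q ∧ c ≠ q := by
  have h4 := h.card
  have h5 : ∀ x y z : V, ({x, y, z} : Finset V).card ≤ 3 := fun x y z => card_le_three
  refine ⟨?_, ?_, ?_, ?_, ?_, ?_⟩ <;>
  · intro e
    rw [e] at h4
    simp only [insert_eq_of_mem, mem_insert, mem_singleton, true_or, or_true] at h4
    have := h5 a b c
    have := h5 a b q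
    have := h5 a c q
    have := h5 b c q
    omega

theorem Gad.qnA (h : Gad B C a b c q o) : q ∉ ({a, b, c} : Finset V) := by
  obtain ⟨_, _, h1, _, h2, h3⟩ := h.pts
  rw [mem_insert, mem_insert, mem_singleton]
  rintro (rfl | rfl | rfl)
  · exact h1 rfl
  · exact h2 rfl
  · exact h3 rfl

theorem W_eq : ({a, b, c, q} : Finset V) = insert q {a, b, c} := by
  ext v
  simp only [mem_insert, mem_singleton]
  tauto

theorem A_sub_W : ({a, b, c} : Finset V) ⊆ {a, b, c, q} := by
  rw [W_eq]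
  exact subset_insert _ _

theorem Gad.t3 (hr : Reg B C) (h : Gad B C a b c q o) : T3 B a b c := by
  obtain ⟨h1, h2, _, h3, _, _⟩ := h.pts
  exact ⟨h1, h2, h3, h.nbc, h.nab, h.nac, h.na, hr a (h.sub (by simp)), hr b (h.sub (by simp)),
    hr c (h.sub (by simp))⟩

theorem Gad.insA (h : Gad B C a b c q o) {i : ι} (hi : i ≠ o)
    (hA : (B i ∩ ({a, b, c} : Finset V)).Nonempty) (hD : (B i ∩ (C \ {a, b, c, q})).Nonempty) :
    False := by
  obtain ⟨v, hv⟩ := hD
  rw [mem_inter, mem_sdiff] at hv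
  exact hv.2.2 (h.ins i hi hA (mem_inter.2 ⟨hv.1, hv.2.1⟩))

/-- a block meeting `D` and `W`, other than `o`, contains `q` and avoids `{a,b,c}`. -/
theorem Gad.out (h : Gad B C a b c q o) {i : ι} (hi : i ≠ o)
    (hD : (B i ∩ (C \ {a, b, c, q})).Nonempty) {w : V} (hw : w ∈ ({a, b, c, q} : Finset V))
    (hwi : w ∈ B i) : w = q := by
  rw [W_eq, mem_insert] at hw
  rcases hw with hw | hw
  · exact hw
  · exact absurd ⟨w, mem_inter.2 ⟨hwi, hw⟩⟩ (fun hA => h.insA hi hA hD)

/-- the blocks inside `W`: the seven and the single traces `{q}`. -/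
theorem gad_card_ins (hr : Reg B C) (h : Gad B C a b c q o) :
    (ins B C {a, b, c, q}).card = 7 + (univ.filter (fun i => B i ∩ C = {q})).card := by
  classical
  have ht := h.t3 hr
  set A : Finset V := {a, b, c} with hA
  have haA : a ∈ A := by simp [hA]
  have hbA : b ∈ A := by simp [hA]
  have hcA : c ∈ A := by simp [hA]
  -- the blocks meeting `A`
  have h8 : (univ.filter (fun i => (B i ∩ A).Nonempty)).card = 8 := by
    have e : univ.filter (fun i => (B i ∩ A).Nonempty) =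
        (univ.filter (fun i => b ∈ B i)) ∪ ((univ.filter (fun i => B i ∩ A = {a, c})) ∪
          (univ.filter (fun i => B i ∩ A = {a}))) := by
      ext i
      simp only [mem_union, mem_filter, mem_univ, true_and]
      constructor
      · intro hi
        rcases ht.tr hi with h1 | h1 | h1 | h1
        · exact Or.inl ((mem_of_tr h1 hbA).2 (by simp))
        · exact Or.inl ((mem_of_tr h1 hbA).2 (by simp))
        · exact Or.inr (Or.inl h1)
        · exact Or.inr (Or.inr h1)
      · rintro (h1 | h1 | h1)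
        · exact ⟨b, mem_inter.2 ⟨h1, hbA⟩⟩
        · rw [h1]
          exact insert_nonempty _ _
        · rw [h1]
          exact singleton_nonempty _
    have d1 : Disjoint (univ.filter (fun i => B i ∩ A = {a, c}))
        (univ.filter (fun i => B i ∩ A = {a})) := by
      rw [disjoint_filter]
      intro j _ h1 h2
      have := h1.symm.trans h2
      have hb : c ∈ ({a} : Finset V) := this ▸ (by simp : c ∈ ({a, c} : Finset V))
      rw [mem_singleton] at hb
      exact ht.ac hb.symm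
    have d2 : Disjoint (univ.filter (fun i => b ∈ B i))
        ((univ.filter (fun i => B i ∩ A = {a, c})) ∪ (univ.filter (fun i => B i ∩ A = {a}))) := by
      rw [disjoint_left]
      intro j hj hj2
      rw [mem_filter] at hj
      rcases mem_union.1 hj2 with h2 | h2
      · have h3 := (mem_of_tr (mem_filter.1 h2).2 hbA).1 hj.2
        rw [mem_insert, mem_singleton] at h3
        exact h3.elim (fun e => ht.ab e.symm) (fun e => ht.bc e)
      · have h3 := (mem_of_tr (mem_filter.1 h2).2 hbA).1 hj.2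
        rw [mem_singleton] at h3
        exact ht.ab h3.symm
    rw [e, card_union_of_disjoint d2, card_union_of_disjoint d1, ht.rb, ht.nac, ht.na]
  have hAC : A ⊆ C := A_sub_W.trans h.sub
  have e2 : ins B C {a, b, c, q} = ((univ.filter (fun i => (B i ∩ A).Nonempty)).erase o) ∪
      (univ.filter (fun i => B i ∩ C = {q})) := by
    ext i
    rw [mem_ins, mem_union, mem_erase, mem_filter, mem_filter]
    constructor
    · rintro ⟨h1, h2⟩
      by_cases hi : (B i ∩ A).Nonempty
      · refine Or.inl ⟨?_, mem_univ _, hi⟩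
        rintro rfl
        obtain ⟨v, hv⟩ := h.oC
        rw [mem_inter, mem_sdiff] at hv
        exact hv.2.2 (h2 (mem_inter.2 ⟨hv.1, hv.2.1⟩))
      · refine Or.inr ⟨mem_univ _, ?_⟩
        have h3 : B i ∩ C ⊆ {q} := by
          intro v hv
          have h4 := h2 hv
          rw [W_eq, mem_insert] at h4
          rcases h4 with h4 | h4
          · rw [h4]
            exact mem_singleton_self q
          · exact absurd ⟨v, mem_inter.2 ⟨(mem_inter.1 hv).1, h4⟩⟩ hi
        exact (subset_singleton_iff.1 h3).resolve_left h1.ne_empty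
    · rintro (⟨h1, _, h2⟩ | ⟨_, h1⟩)
      · refine ⟨h2.mono (inter_subset_inter_left hAC), h.ins i h1 h2⟩
      · rw [h1]
        exact ⟨singleton_nonempty _, singleton_subset_iff.2 (by simp)⟩
  have d3 : Disjoint ((univ.filter (fun i => (B i ∩ A).Nonempty)).erase o)
      (univ.filter (fun i => B i ∩ C = {q})) := by
    rw [disjoint_left]
    intro j hj hj2
    rw [mem_erase, mem_filter] at hj
    rw [mem_filter] at hj2
    obtain ⟨v, hv⟩ := hj.2.2
    rw [mem_inter] at hv
    have h3 : v ∈ B j ∩ C := mem_inter.2 ⟨hv.1, hAC hv.2⟩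
    rw [hj2.2, mem_singleton] at h3
    exact h.qnA (h3 ▸ hv.2)
  have ho : o ∈ univ.filter (fun i => (B i ∩ A).Nonempty) := mem_filter.2 ⟨mem_univ _, h.oA⟩
  rw [e2, card_union_of_disjoint d3, card_erase_of_mem ho, h8]

/-- `W` is covered by two blocks. -/
theorem gad_rho_le (hr : Reg B C) (h : Gad B C a b c q o) :
    rho B C ≤ rho B (C \ {a, b, c, q}) + 2 := by
  classical
  have ht := h.t3 hr
  obtain ⟨i, _, hqi, hiA⟩ := h.qA
  obtain ⟨j, hj⟩ := ht.compl hiA
  obtain ⟨T, hT1, hT2⟩ := exists_cover (cov_of_reg (hr.mono (sdiff_subset (t := {a, b, c, q}))))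
  have h1 : C ⊆ (insert i (insert j T)).biUnion B := by
    intro v hv
    by_cases hvW : v ∈ ({a, b, c, q} : Finset V)
    · rw [W_eq, mem_insert] at hvW
      rcases hvW with rfl | hvW
      · exact mem_biUnion.2 ⟨i, by simp, hqi⟩
      · rcases mem_union.1 (hj hvW) with h2 | h2
        · exact mem_biUnion.2 ⟨i, by simp, h2⟩
        · exact mem_biUnion.2 ⟨j, by simp, h2⟩
    · obtain ⟨k, hk, hvk⟩ := mem_biUnion.1 (hT1 (mem_sdiff.2 ⟨hv, hvW⟩))
      exact mem_biUnion.2 ⟨k, mem_insert_of_mem (mem_insert_of_mem hk), hvk⟩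
  have h2 := rho_le h1
  have h3 := card_insert_le i (insert j T)
  have h4 := card_insert_le j T
  omega

/-- a component of `D` seen only by `q`. -/
theorem pt_refused (hT : HT.{u} V) {L : Finset V} (hCC : CK B C) (hcr : Crit B C) (hL : CK B L)
    (hLC : L ⊆ C) (hq : q ∈ C) (hqL : q ∉ L)
    (hs : Sep B L (C \ insert q L)) {i : ι} (hi : (B i ∩ L).Nonempty) (hqi : q ∈ B i) :
    4 ≤ Pv B L := by
  classical
  have hcC := hCC.cov
  have hcL := hL.cov
  have hnr : ¬ Abz B L {q} := by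
    rintro ⟨T, hT1, hT2⟩
    obtain ⟨T', hT1', hT2'⟩ := exists_cover (hcC.mono (sdiff_subset (t := insert q L)))
    have h1 : C ⊆ (T ∪ T').biUnion B := by
      intro v hv
      by_cases hvL : v ∈ insert q L
      · have : v ∈ L ∪ {q} := by
          rw [mem_insert] at hvL
          rw [mem_union, mem_singleton]
          tauto
        obtain ⟨k, hk, hvk⟩ := mem_biUnion.1 (hT1 this)
        exact mem_biUnion.2 ⟨k, mem_union_left _ hk, hvk⟩
      · obtain ⟨k, hk, hvk⟩ := mem_biUnion.1 (hT1' (mem_sdiff.2 ⟨hv, hvL⟩))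
        exact mem_biUnion.2 ⟨k, mem_union_right _ hk, hvk⟩
    have h2 := rho_le h1
    have h3 := card_union_le T T'
    have h4 : C.erase q = L ∪ (C \ insert q L) := by
      ext v
      simp only [mem_erase, mem_union, mem_sdiff, mem_insert]
      constructor
      · rintro ⟨h5, h6⟩
        by_cases h7 : v ∈ L
        · exact Or.inl h7
        · exact Or.inr ⟨h6, by tauto⟩
      · rintro (h5 | h5)
        · exact ⟨fun h6 => hqL (h6 ▸ h5), hLC h5⟩
        · exact ⟨fun h6 => h5.2 (Or.inl h6), h5.1⟩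
    have h5 := rho_add hcL (hcC.mono (sdiff_subset (t := insert q L))) hs
    rw [← h4] at h5
    have h6 := hcr q hq
    omega
  by_contra hcon
  push Not at hcon
  have h4 := hCC.tr4 i
  have h5 : (B i ∩ L).card + 1 ≤ (B i ∩ C).card := by
    have : insert q (B i ∩ L) ⊆ B i ∩ C := by
      intro v hv
      rw [mem_insert] at hv
      rcases hv with rfl | hv
      · exact mem_inter.2 ⟨hqi, hq⟩
      · exact mem_inter.2 ⟨(mem_inter.1 hv).1, hLC (mem_inter.1 hv).2⟩
    have h6 := card_le_card this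
    rwa [card_insert_of_notMem (fun h => hqL (mem_inter.1 h).2)] at h6
  obtain ⟨T, h1, h2, h3⟩ := absorb1 (hT (L.card + 2)) (Subset.refl (insert q L) |>.trans' (subset_insert q L)) hL.reg
    hL.conn hL.kf hL.tr4 hqL (by omega) hi (by omega) (two_le_of (subset_insert q L) hi hqi
      (mem_insert_self _ _) hqL) (by
        unfold dv
        have e6 : (0 : ℤ) ≤ ee B (insert q L) L := by positivity
        linarith)
  exact hnr ⟨T, union_subset h1 (singleton_subset_iff.2 (mem_biUnion.2 ⟨i, h3, hqi⟩)), h2⟩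

/-- G1. -/
theorem gad_D (hT : HT.{u} V) (hC : EE B C) (h : Gad B C a b c q o) :
    EE B (C \ {a, b, c, q}) ∧ rho B C = rho B (C \ {a, b, c, q}) + 2 ∧
      (univ.filter (fun i => B i ∩ C = {q})).card = 0 := by
  classical
  have hCK : CK B C := hC.toCK
  have hcov := hCK.cov
  have hr := hCK.reg
  set W : Finset V := {a, b, c, q} with hW
  have h1 := Pv_sdiff (B := B) h.sub
  rw [← hW, h.card, gad_card_ins hr h] at h1
  have h2 := gad_rho_le hr h
  rw [← hW] at h2
  have hrD : rho B (C \ W) ≤ rho B C := rho_mono sdiff_subset hcov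
  have h3 := hC.pv
  obtain ⟨K, hK1, hK2, hK3⟩ := exists_parts B (C \ W)
  have hKC : ∀ L ∈ K, L ⊆ C := fun L hL => (hK1 L hL).1.trans sdiff_subset
  have hKcov : ∀ L ∈ K, Cov B L := fun L hL => hcov.mono (hKC L hL)
  have hKck : ∀ L ∈ K, CK B L := fun L hL => hCK.mono (hKC L hL) (hK1 L hL).2.2
  obtain ⟨v0, hv0⟩ := h.oC
  rw [← hW, mem_inter] at hv0
  have hv0K : v0 ∈ K.biUnion id := by rw [hK3]; exact hv0.2
  obtain ⟨L0, hL0, hvL0⟩ := mem_biUnion.1 hv0K
  have hoL0 : (B o ∩ L0).Nonempty := ⟨v0, mem_inter.2 ⟨hv0.1, hvL0⟩⟩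
  have hqC : q ∈ C := h.sub (by simp)
  have hbig : ∀ L ∈ K, L ≠ L0 → 4 ≤ Pv B L := by
    intro L hL hne
    have hoL : ¬ (B o ∩ L).Nonempty := fun hcon => by
      have h5 := (hK2 L0 hL0 L hL hne.symm).2 o hoL0
      exact h5 hcon
    have hqL : q ∉ L := fun hcon => (mem_sdiff.1 ((hK1 L hL).1 hcon)).2 (by simp [hW])
    have hLne : L ≠ C := by
      rintro rfl
      exact hqL hqC
    -- a block meeting `L` meets `C` only in `L` and `q`
    have hkey : ∀ k, (B k ∩ L).Nonempty → ∀ z ∈ B k, z ∈ C → z ∉ L → z = q := by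
      intro k hk z hzk hzC hzL
      obtain ⟨x, hx⟩ := hk
      rw [mem_inter] at hx
      have hko : k ≠ o := by
        rintro rfl
        exact hoL ⟨x, mem_inter.2 hx⟩
      by_cases hzW : z ∈ W
      · refine h.out hko ⟨x, mem_inter.2 ⟨hx.1, (hK1 L hL).1 hx.2⟩⟩ hzW hzk
      · refine absurd ((hK1 L hL).2.1.2 x hx.2 z (mem_sdiff.2 ⟨hzC, hzW⟩) ⟨?_, k, hx.1, hzk⟩) hzL
        rintro rfl
        exact hzL hx.2
    obtain ⟨x, hx, y, hy, hyL, _, i, hi1, hi2⟩ :=
      hCK.conn.exists_edge (hKC L hL) (hK1 L hL).2.2.1 hLne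
    have hyq : y = q := hkey i ⟨x, mem_inter.2 ⟨hi1, hx⟩⟩ y hi2 hy hyL
    subst hyq
    refine pt_refused hT hCK hC.crit (hKck L hL) (hKC L hL) hqC hqL ?_
      ⟨x, mem_inter.2 ⟨hi1, hx⟩⟩ hi2
    intro k hk1 hk2
    obtain ⟨z, hz⟩ := hk2
    rw [mem_inter, mem_sdiff, mem_insert, not_or] at hz
    exact hz.2.2.1 (hkey k hk1 z hz.1 hz.2.1 hz.2.2.2)
  have hsum : Pv B (C \ W) = ∑ L ∈ K, Pv B L := by
    rw [← Pv_biUnion hKcov hK2, hK3]
  have hKeq : K = {L0} := by
    by_contra hne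
    have h5 : (K.erase L0).Nonempty := by
      rw [nonempty_iff_ne_empty]
      intro he
      rw [erase_eq_empty_iff] at he
      rcases he with he | he
      · rw [he] at hL0
        exact notMem_empty _ hL0
      · exact hne he
    have h6 : ∑ L ∈ K, Pv B L = Pv B L0 + ∑ L ∈ K.erase L0, Pv B L :=
      (add_sum_erase K _ hL0).symm
    have h7 : ∑ L ∈ K.erase L0, (4 : ℤ) ≤ ∑ L ∈ K.erase L0, Pv B L :=
      sum_le_sum fun L hL => hbig L (mem_of_mem_erase hL) (ne_of_mem_erase hL)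
    rw [sum_const, nsmul_eq_mul] at h7
    have h8 : (1 : ℤ) ≤ (K.erase L0).card := by exact_mod_cast card_pos.2 h5
    have h9 := (hKck L0 hL0).ge' hT
    have h10 : (0 : ℤ) ≤ ((univ.filter (fun i => B i ∩ C = {q})).card : ℤ) := by positivity
    have h11 : (rho B C : ℤ) ≤ rho B (C \ W) + 2 := by exact_mod_cast h2
    push_cast at h1
    linarith
  have hDL : C \ W = L0 := by
    rw [← hK3, hKeq, singleton_biUnion]
    rfl
  have hckD : CK B (C \ W) := by
    rw [hDL]
    exact hKck L0 hL0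
  have h9 := hckD.ge' hT
  have h12 : rho B C = rho B (C \ W) + 2 ∧
      (univ.filter (fun i => B i ∩ C = {q})).card = 0 := by
    push_cast at h1
    omega
  refine ⟨EE.of hT hckD ?_ ?_, h12⟩
  · have h13 : (rho B C : ℤ) = rho B (C \ W) + 2 := by exact_mod_cast h12.1
    rw [h12.2] at h1
    push_cast at h1
    linarith
  · have h13 : (rho B C : ℤ) = rho B (C \ W) + 2 := by exact_mod_cast h12.1
    have h14 := card_sdiff_add_card_eq_card h.sub
    rw [← hW, h.card] at h14
    have h15 : ((C \ W).card : ℤ) + 4 = C.card := by exact_mod_cast h14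
    have h16 := hC.sv
    unfold sv at h16 ⊢
    linarith

/-- G1. -/
theorem Gad.ee (hT : HT.{u} V) (hC : EE B C) (h : Gad B C a b c q o) : EE B (C \ {a, b, c, q}) :=
  (gad_D hT hC h).1

theorem Gad.rho_eq (hT : HT.{u} V) (hC : EE B C) (h : Gad B C a b c q o) :
    rho B C = rho B (C \ {a, b, c, q}) + 2 := (gad_D hT hC h).2.1

theorem Gad.no_single (hT : HT.{u} V) (hC : EE B C) (h : Gad B C a b c q o) {i : ι} :
    B i ∩ C ≠ {q} := by
  intro hi
  have h1 := (gad_D hT hC h).2.2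
  rw [card_eq_zero, filter_eq_empty_iff] at h1
  exact h1 (mem_univ i) hi

/-- no block of an optimal cover of `D` with `o` in it together with one more block covers `W`. -/
theorem Gad.no_cov (hT : HT.{u} V) (hC : EE B C) (h : Gad B C a b c q o) {T : Finset ι}
    (hT1 : C \ {a, b, c, q} ⊆ T.biUnion B) (hT2 : T.card ≤ rho B (C \ {a, b, c, q})) {i : ι}
    (hW : ({a, b, c, q} : Finset V) ⊆ T.biUnion B ∪ B i) : False := by
  classical
  have h1 : C ⊆ (insert i T).biUnion B := by
    intro v hv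
    by_cases hvW : v ∈ ({a, b, c, q} : Finset V)
    · rcases mem_union.1 (hW hvW) with h2 | h2
      · obtain ⟨k, hk, hvk⟩ := mem_biUnion.1 h2
        exact mem_biUnion.2 ⟨k, mem_insert_of_mem hk, hvk⟩
      · exact mem_biUnion.2 ⟨i, mem_insert_self _ _, h2⟩
    · obtain ⟨k, hk, hvk⟩ := mem_biUnion.1 (hT1 (mem_sdiff.2 ⟨hv, hvW⟩))
      exact mem_biUnion.2 ⟨k, mem_insert_of_mem hk, hvk⟩
  have h2 := rho_le h1
  have h3 := card_insert_le i T
  have h4 := h.rho_eq hT hC
  omega

/-- `o` is incompatible in `D = C \ W` with the outer blocks of `q`. -/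
theorem Gad.inc (hT : HT.{u} V) (hC : EE B C) (h : Gad B C a b c q o) {j : ι} (hq : q ∈ B j) :
    ¬ Cmp B (C \ {a, b, c, q}) o j := by
  rintro ⟨T, hT1, hT2, hoT, hjT⟩
  obtain ⟨k, hk⟩ := (h.t3 hC.toCK.reg).compl h.oA
  refine h.no_cov hT hC hT1 hT2 (i := k) ?_
  intro v hv
  rw [W_eq, mem_insert] at hv
  rcases hv with rfl | hv
  · exact mem_union_left _ (mem_biUnion.2 ⟨j, hjT, hq⟩)
  · rcases mem_union.1 (hk hv) with h2 | h2
    · exact mem_union_left _ (mem_biUnion.2 ⟨o, hoT, h2⟩)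
    · exact mem_union_right _ h2

theorem Gad.qo (hT : HT.{u} V) (hC : EE B C) (h : Gad B C a b c q o) : q ∉ B o := fun hq =>
  h.inc hT hC hq ((h.ee hT hC).crit.cmp (h.ee hT hC).toCK.cov h.oC)

/-- the blocks at `q`: inner ones and outer ones (of the part `D`), no block meets both, no single. -/
theorem Gad.count (hT : HT.{u} V) (hC : EE B C) (h : Gad B C a b c q o) :
    (Eg B {a, b, c} {q}).card + (Eg B (C \ {a, b, c, q}) {q}).card = 5 := by
  classical
  have hr := hC.toCK.reg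
  have hqC : q ∈ C := h.sub (by simp)
  rw [← hr q hqC, ← card_union_of_disjoint]
  · congr 1
    ext i
    rw [mem_union, mem_Eg, mem_Eg, mem_filter]
    have hqq : (B i ∩ ({q} : Finset V)).Nonempty ↔ q ∈ B i := by
      constructor
      · rintro ⟨v, hv⟩
        rw [mem_inter, mem_singleton] at hv
        exact hv.2 ▸ hv.1
      · intro hq
        exact ⟨q, mem_inter.2 ⟨hq, mem_singleton_self q⟩⟩
    rw [hqq]
    constructor
    · rintro (h1 | h1)
      · exact ⟨mem_univ _, h1.2⟩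
      · exact ⟨mem_univ _, h1.2⟩
    · rintro ⟨_, h1⟩
      by_contra hcon
      rw [not_or] at hcon
      have hA : ¬ (B i ∩ ({a, b, c} : Finset V)).Nonempty := fun hA => hcon.1 ⟨hA, h1⟩
      have hD : ¬ (B i ∩ (C \ {a, b, c, q})).Nonempty := fun hD => hcon.2 ⟨hD, h1⟩
      refine h.no_single hT hC (i := i) ?_
      refine Subset.antisymm ?_ (singleton_subset_iff.2 (mem_inter.2 ⟨h1, hqC⟩))
      intro v hv
      rw [mem_inter] at hv
      by_cases hvW : v ∈ ({a, b, c, q} : Finset V)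
      · rw [W_eq, mem_insert] at hvW
        rcases hvW with hvW | hvW
        · exact mem_singleton.2 hvW
        · exact absurd ⟨v, mem_inter.2 ⟨hv.1, hvW⟩⟩ hA
      · exact absurd ⟨v, mem_inter.2 ⟨hv.1, mem_sdiff.2 ⟨hv.2, hvW⟩⟩⟩ hD
  · rw [disjoint_left]
    intro i hi hi2
    rw [mem_Eg] at hi hi2
    refine h.insA ?_ hi.1 hi2.1
    rintro rfl
    obtain ⟨v, hv⟩ := hi.2
    rw [mem_inter, mem_singleton] at hv
    exact h.qo hT hC (hv.2 ▸ hv.1)

theorem Gad.qE (hT : HT.{u} V) (hC : EE B C) (h : Gad B C a b c q o) {i : ι}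
    (hi : i ∈ Eg B {a, b, c} {q}) : q ∈ B i ∧ (B i ∩ ({a, b, c} : Finset V)).Nonempty ∧ i ≠ o := by
  rw [mem_Eg] at hi
  obtain ⟨v, hv⟩ := hi.2
  rw [mem_inter, mem_singleton] at hv
  have hq : q ∈ B i := hv.2 ▸ hv.1
  refine ⟨hq, hi.1, ?_⟩
  rintro rfl
  exact h.qo hT hC hq

/-- no block contains `q` and the complement of the trace of `o`. -/
theorem Gad.no_compl (hT : HT.{u} V) (hC : EE B C) (h : Gad B C a b c q o) {i : ι} (hq : q ∈ B i) :
    ¬ ({a, b, c} : Finset V) ⊆ B o ∪ B i := by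
  intro hi
  have hD := h.ee hT hC
  obtain ⟨T, hT1, hT2, hoT⟩ := hD.crit.blkT hD.toCK.cov h.oC
  refine h.no_cov hT hC hT1 hT2 (i := i) ?_
  intro v hv
  rw [W_eq, mem_insert] at hv
  rcases hv with rfl | hv
  · exact mem_union_right _ hq
  · rcases mem_union.1 (hi hv) with h2 | h2
    · exact mem_union_left _ (mem_biUnion.2 ⟨o, hoT, h2⟩)
    · exact mem_union_right _ h2

theorem sub_union_of {i j : ι} (h1 : a ∈ B i ∨ a ∈ B j) (h2 : b ∈ B i ∨ b ∈ B j)
    (h3 : c ∈ B i ∨ c ∈ B j) : ({a, b, c} : Finset V) ⊆ B i ∪ B j := by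
  intro v hv
  rw [mem_insert, mem_insert, mem_singleton] at hv
  rw [mem_union]
  rcases hv with rfl | rfl | rfl
  · exact h1
  · exact h2
  · exact h3

/-- G2. -/
theorem GGad.o_eq (hT : HT.{u} V) (hC : EE B C) (h : GGad B C a b c q o) :
    B o ∩ ({a, b, c} : Finset V) = {a} := by
  classical
  have hg := h.toGad
  have ht := hg.t3 hC.toCK.reg
  have hgood := h.good
  have haA : a ∈ ({a, b, c} : Finset V) := by simp
  have hbA : b ∈ ({a, b, c} : Finset V) := by simp
  have hcA : c ∈ ({a, b, c} : Finset V) := by simp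
  rcases ht.tr hg.oA with h1 | h1 | h1 | h1
  · exfalso
    have hsub : Eg B {a, b, c} {q} ⊆
        (univ.filter (fun i => B i ∩ ({a, b, c} : Finset V) = {b, c})).erase o := by
      intro i hi
      obtain ⟨hq, hiA, hio⟩ := hg.qE hT hC hi
      rw [mem_erase, mem_filter]
      refine ⟨hio, mem_univ _, ?_⟩
      have hn := hg.no_compl hT hC hq
      have hai : a ∉ B i := fun ha => hn (sub_union_of (Or.inr ha)
        (Or.inl ((mem_of_tr h1 hbA).2 (by simp))) (Or.inl ((mem_of_tr h1 hcA).2 (by simp))))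
      rcases ht.tr hiA with h2 | h2 | h2 | h2
      · exact h2
      · exact absurd ((mem_of_tr h2 haA).2 (by simp)) hai
      · exact absurd ((mem_of_tr h2 haA).2 (by simp)) hai
      · exact absurd ((mem_of_tr h2 haA).2 (by simp)) hai
    have h3 := card_le_card hsub
    have ho : o ∈ univ.filter (fun i => B i ∩ ({a, b, c} : Finset V) = {b, c}) :=
      mem_filter.2 ⟨mem_univ _, h1⟩
    rw [card_erase_of_mem ho, ht.nbc] at h3
    omega
  · exfalso
    have hsub : Eg B {a, b, c} {q} ⊆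
        (univ.filter (fun i => B i ∩ ({a, b, c} : Finset V) = {a, b})).erase o ∪
          univ.filter (fun i => B i ∩ ({a, b, c} : Finset V) = {a}) := by
      intro i hi
      obtain ⟨hq, hiA, hio⟩ := hg.qE hT hC hi
      rw [mem_union, mem_erase, mem_filter, mem_filter]
      have hn := hg.no_compl hT hC hq
      have hci : c ∉ B i := fun hc => hn (sub_union_of (Or.inl ((mem_of_tr h1 haA).2 (by simp)))
        (Or.inl ((mem_of_tr h1 hbA).2 (by simp))) (Or.inr hc))
      rcases ht.tr hiA with h2 | h2 | h2 | h2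
      · exact absurd ((mem_of_tr h2 hcA).2 (by simp)) hci
      · exact Or.inl ⟨hio, mem_univ _, h2⟩
      · exact absurd ((mem_of_tr h2 hcA).2 (by simp)) hci
      · exact Or.inr ⟨mem_univ _, h2⟩
    have h3 := card_le_card hsub
    have h4 := card_union_le
      ((univ.filter (fun i => B i ∩ ({a, b, c} : Finset V) = {a, b})).erase o)
      (univ.filter (fun i => B i ∩ ({a, b, c} : Finset V) = {a}))
    have ho : o ∈ univ.filter (fun i => B i ∩ ({a, b, c} : Finset V) = {a, b}) :=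
      mem_filter.2 ⟨mem_univ _, h1⟩
    rw [card_erase_of_mem ho, ht.nab, ht.na] at h4
    omega
  · exfalso
    have hsub : Eg B {a, b, c} {q} ⊆
        (univ.filter (fun i => B i ∩ ({a, b, c} : Finset V) = {a, c})).erase o ∪
          univ.filter (fun i => B i ∩ ({a, b, c} : Finset V) = {a}) := by
      intro i hi
      obtain ⟨hq, hiA, hio⟩ := hg.qE hT hC hi
      rw [mem_union, mem_erase, mem_filter, mem_filter]
      have hn := hg.no_compl hT hC hq
      have hbi : b ∉ B i := fun hb => hn (sub_union_of (Or.inl ((mem_of_tr h1 haA).2 (by simp)))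
        (Or.inr hb) (Or.inl ((mem_of_tr h1 hcA).2 (by simp))))
      rcases ht.tr hiA with h2 | h2 | h2 | h2
      · exact absurd ((mem_of_tr h2 hbA).2 (by simp)) hbi
      · exact absurd ((mem_of_tr h2 hbA).2 (by simp)) hbi
      · exact Or.inl ⟨hio, mem_univ _, h2⟩
      · exact Or.inr ⟨mem_univ _, h2⟩
    have h3 := card_le_card hsub
    have h4 := card_union_le
      ((univ.filter (fun i => B i ∩ ({a, b, c} : Finset V) = {a, c})).erase o)
      (univ.filter (fun i => B i ∩ ({a, b, c} : Finset V) = {a}))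
    have ho : o ∈ univ.filter (fun i => B i ∩ ({a, b, c} : Finset V) = {a, c}) :=
      mem_filter.2 ⟨mem_univ _, h1⟩
    rw [card_erase_of_mem ho, ht.nac, ht.na] at h4
    omega
  · exact h1

/-- only `o` has the trace `{a}`. -/
theorem GGad.eq_o (hT : HT.{u} V) (hC : EE B C) (h : GGad B C a b c q o) {i : ι}
    (hi : B i ∩ ({a, b, c} : Finset V) = {a}) : i = o := by
  have h1 := h.na
  obtain ⟨j, hj⟩ := card_eq_one.1 h1
  have h2 : i ∈ univ.filter (fun i => B i ∩ ({a, b, c} : Finset V) = {a}) :=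
    mem_filter.2 ⟨mem_univ _, hi⟩
  have h3 : o ∈ univ.filter (fun i => B i ∩ ({a, b, c} : Finset V) = {a}) :=
    mem_filter.2 ⟨mem_univ _, h.o_eq hT hC⟩
  rw [hj, mem_singleton] at h2 h3
  rw [h2, h3]

theorem GGad.q_tr (hT : HT.{u} V) (hC : EE B C) (h : GGad B C a b c q o) {i : ι} (hq : q ∈ B i)
    (hi : (B i ∩ ({a, b, c} : Finset V)).Nonempty) :
    B i ∩ ({a, b, c} : Finset V) = {a, b} ∨ B i ∩ ({a, b, c} : Finset V) = {a, c} := by
  have hg := h.toGad
  have ht := hg.t3 hC.toCK.reg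
  have ho := h.o_eq hT hC
  have haA : a ∈ ({a, b, c} : Finset V) := by simp
  have hbA : b ∈ ({a, b, c} : Finset V) := by simp
  have hcA : c ∈ ({a, b, c} : Finset V) := by simp
  rcases ht.tr hi with h2 | h2 | h2 | h2
  · exact absurd (sub_union_of (Or.inl ((mem_of_tr ho haA).2 (by simp)))
      (Or.inr ((mem_of_tr h2 hbA).2 (by simp))) (Or.inr ((mem_of_tr h2 hcA).2 (by simp))))
      (hg.no_compl hT hC hq)
  · exact Or.inl h2
  · exact Or.inr h2
  · have := h.eq_o hT hC h2
    rw [this] at hq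
    exact absurd hq (hg.qo hT hC)

/-- `q` has one or two outer blocks. -/
theorem GGad.q_out (hT : HT.{u} V) (hC : EE B C) (h : GGad B C a b c q o) :
    1 ≤ (Eg B (C \ {a, b, c, q}) {q}).card ∧ (Eg B (C \ {a, b, c, q}) {q}).card ≤ 2 := by
  classical
  have hg := h.toGad
  have ht := hg.t3 hC.toCK.reg
  have h1 := hg.count hT hC
  have h2 := h.good
  have hsub : Eg B {a, b, c} {q} ⊆
      univ.filter (fun i => B i ∩ ({a, b, c} : Finset V) = {a, b}) ∪
        univ.filter (fun i => B i ∩ ({a, b, c} : Finset V) = {a, c}) := by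
    intro i hi
    obtain ⟨hq, hiA, hio⟩ := hg.qE hT hC hi
    rw [mem_union, mem_filter, mem_filter]
    rcases h.q_tr hT hC hq hiA with h3 | h3
    · exact Or.inl ⟨mem_univ _, h3⟩
    · exact Or.inr ⟨mem_univ _, h3⟩
  have h3 := card_le_card hsub
  have h4 := card_union_le (univ.filter (fun i => B i ∩ ({a, b, c} : Finset V) = {a, b}))
    (univ.filter (fun i => B i ∩ ({a, b, c} : Finset V) = {a, c}))
  rw [ht.nab, ht.nac] at h4
  omega

/-- `q` is in a block with the trace `{a,b}` and in one with the trace `{a,c}`. -/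
theorem GGad.q_ab (hT : HT.{u} V) (hC : EE B C) (h : GGad B C a b c q o) :
    (∃ i, q ∈ B i ∧ B i ∩ ({a, b, c} : Finset V) = {a, b}) ∧
      (∃ i, q ∈ B i ∧ B i ∩ ({a, b, c} : Finset V) = {a, c}) := by
  classical
  have hg := h.toGad
  have ht := hg.t3 hC.toCK.reg
  have h2 := h.good
  constructor
  · by_contra hcon
    push Not at hcon
    have hsub : Eg B {a, b, c} {q} ⊆
        univ.filter (fun i => B i ∩ ({a, b, c} : Finset V) = {a, c}) := by
      intro i hi
      obtain ⟨hq, hiA, hio⟩ := hg.qE hT hC hi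
      rw [mem_filter]
      rcases h.q_tr hT hC hq hiA with h3 | h3
      · exact absurd h3 (hcon i hq)
      · exact ⟨mem_univ _, h3⟩
    have h3 := card_le_card hsub
    rw [ht.nac] at h3
    omega
  · by_contra hcon
    push Not at hcon
    have hsub : Eg B {a, b, c} {q} ⊆
        univ.filter (fun i => B i ∩ ({a, b, c} : Finset V) = {a, b}) := by
      intro i hi
      obtain ⟨hq, hiA, hio⟩ := hg.qE hT hC hi
      rw [mem_filter]
      rcases h.q_tr hT hC hq hiA with h3 | h3
      · exact ⟨mem_univ _, h3⟩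
      · exact absurd h3 (hcon i hq)
    have h3 := card_le_card hsub
    rw [ht.nab] at h3
    omega

/-- a block inside `W` has the trace `{b,c}`, `{a,b}` or `{a,c}`. -/
theorem GGad.tr_ins (hT : HT.{u} V) (hC : EE B C) (h : GGad B C a b c q o) {i : ι}
    (hi : (B i ∩ C).Nonempty) (hiW : B i ∩ C ⊆ {a, b, c, q}) :
    B i ∩ ({a, b, c} : Finset V) = {b, c} ∨ B i ∩ ({a, b, c} : Finset V) = {a, b} ∨
      B i ∩ ({a, b, c} : Finset V) = {a, c} := by
  have hg := h.toGad
  have ht := hg.t3 hC.toCK.reg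
  have hio : i ≠ o := by
    rintro rfl
    obtain ⟨v, hv⟩ := hg.oC
    rw [mem_inter, mem_sdiff] at hv
    exact hv.2.2 (hiW (mem_inter.2 ⟨hv.1, hv.2.1⟩))
  by_cases hA : (B i ∩ ({a, b, c} : Finset V)).Nonempty
  · rcases ht.tr hA with h2 | h2 | h2 | h2
    · exact Or.inl h2
    · exact Or.inr (Or.inl h2)
    · exact Or.inr (Or.inr h2)
    · exact absurd (h.eq_o hT hC h2) hio
  · have h3 : B i ∩ C ⊆ {q} := by
      intro v hv
      have h4 := hiW hv
      rw [W_eq, mem_insert] at h4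
      rcases h4 with h4 | h4
      · exact mem_singleton.2 h4
      · exact absurd ⟨v, mem_inter.2 ⟨(mem_inter.1 hv).1, h4⟩⟩ hA
    exact absurd ((subset_singleton_iff.1 h3).resolve_left hi.ne_empty)
      (hg.no_single hT hC)

/-- gluing an optimal cover of `D` and two blocks covering the rest of `W`. -/
theorem Gad.glue (hT : HT.{u} V) (hC : EE B C) (h : Gad B C a b c q o) {T : Finset ι}
    (hT1 : C \ {a, b, c, q} ⊆ T.biUnion B) (hT2 : T.card ≤ rho B (C \ {a, b, c, q})) {i j k : ι}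
    (hA : ({a, b, c} : Finset V) ⊆ B i ∪ B j) (hq : q ∈ B i ∨ q ∈ B j ∨ (k ∈ T ∧ q ∈ B k)) :
    ∃ T' : Finset ι, C ⊆ T'.biUnion B ∧ T'.card ≤ rho B C ∧ i ∈ T' ∧ j ∈ T' ∧ T ⊆ T' := by
  classical
  refine ⟨insert i (insert j T), ?_, ?_, by simp, by simp, fun x hx => by simp [hx]⟩
  · intro v hv
    by_cases hvW : v ∈ ({a, b, c, q} : Finset V)
    · rw [W_eq, mem_insert] at hvW
      rcases hvW with rfl | hvW
      · rcases hq with h2 | h2 | ⟨h2, h3⟩
        · exact mem_biUnion.2 ⟨i, by simp, h2⟩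
        · exact mem_biUnion.2 ⟨j, by simp, h2⟩
        · exact mem_biUnion.2 ⟨k, by simp [h2], h3⟩
      · rcases mem_union.1 (hA hvW) with h2 | h2
        · exact mem_biUnion.2 ⟨i, by simp, h2⟩
        · exact mem_biUnion.2 ⟨j, by simp, h2⟩
    · obtain ⟨k, hk, hvk⟩ := mem_biUnion.1 (hT1 (mem_sdiff.2 ⟨hv, hvW⟩))
      exact mem_biUnion.2 ⟨k, mem_insert_of_mem (mem_insert_of_mem hk), hvk⟩
  · have h3 := card_insert_le i (insert j T)
    have h4 := card_insert_le j T
    have h5 := h.rho_eq hT hC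
    omega

/-- G3 (conf lemma). -/
theorem GGad.conf (hT : HT.{u} V) (hC : EE B C) (h : GGad B C a b c q o) {i j : ι}
    (hi : (B i ∩ C).Nonempty) (hiW : B i ∩ C ⊆ {a, b, c, q}) (hj : (B j ∩ C).Nonempty)
    (hn : ¬ Cmp B C i j) : B j ∩ C ⊆ {a, b, c, q} ∧
      B i ∩ ({a, b, c} : Finset V) = B j ∩ ({a, b, c} : Finset V) ∧ i ≠ j := by
  classical
  have hg := h.toGad
  have hr := hC.toCK.reg
  have ht := hg.t3 hr
  have hD := hg.ee hT hC
  have haA : a ∈ ({a, b, c} : Finset V) := by simp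
  have hbA : b ∈ ({a, b, c} : Finset V) := by simp
  have hcA : c ∈ ({a, b, c} : Finset V) := by simp
  have hij : i ≠ j := by
    rintro rfl
    exact hn (hC.crit.cmp hC.toCK.cov hi)
  have htr := h.tr_ins hT hC hi hiW
  obtain ⟨⟨k1, hk1q, hk1⟩, ⟨k2, hk2q, hk2⟩⟩ := h.q_ab hT hC
  -- a second block covering the rest of `W`
  have hex : ∃ k, ({a, b, c} : Finset V) ⊆ B i ∪ B k ∧ q ∈ B k := by
    rcases htr with h1 | h1 | h1
    · exact ⟨k1, sub_union_of (Or.inr ((mem_of_tr hk1 haA).2 (by simp)))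
        (Or.inl ((mem_of_tr h1 hbA).2 (by simp))) (Or.inl ((mem_of_tr h1 hcA).2 (by simp))), hk1q⟩
    · exact ⟨k2, sub_union_of (Or.inl ((mem_of_tr h1 haA).2 (by simp)))
        (Or.inl ((mem_of_tr h1 hbA).2 (by simp))) (Or.inr ((mem_of_tr hk2 hcA).2 (by simp))), hk2q⟩
    · exact ⟨k1, sub_union_of (Or.inl ((mem_of_tr h1 haA).2 (by simp)))
        (Or.inr ((mem_of_tr hk1 hbA).2 (by simp))) (Or.inl ((mem_of_tr h1 hcA).2 (by simp))), hk1q⟩
  have hjD : ¬ (B j ∩ (C \ {a, b, c, q})).Nonempty := by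
    intro hjD
    obtain ⟨T, hT1, hT2, hjT⟩ := hD.crit.blkT hD.toCK.cov hjD
    obtain ⟨k, hk, hkq⟩ := hex
    obtain ⟨T', h1, h2, h3, _, h5⟩ := hg.glue hT hC hT1 hT2 (k := j) hk (Or.inr (Or.inl hkq))
    exact hn ⟨T', h1, h2, h3, h5 hjT⟩
  have hjW : B j ∩ C ⊆ {a, b, c, q} := by
    intro v hv
    by_contra hvW
    exact hjD ⟨v, mem_inter.2 ⟨(mem_inter.1 hv).1, mem_sdiff.2 ⟨(mem_inter.1 hv).2, hvW⟩⟩⟩
  refine ⟨hjW, ?_, hij⟩
  by_contra htrne
  have htrj := h.tr_ins hT hC hj hjW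
  have hcov : ({a, b, c} : Finset V) ⊆ B i ∪ B j := by
    rcases htr with h1 | h1 | h1
    · rcases htrj with h2 | h2 | h2
      · exact absurd (h1.trans h2.symm) htrne
      · exact sub_union_of (Or.inr ((mem_of_tr h2 haA).2 (by simp)))
          (Or.inl ((mem_of_tr h1 hbA).2 (by simp))) (Or.inl ((mem_of_tr h1 hcA).2 (by simp)))
      · exact sub_union_of (Or.inr ((mem_of_tr h2 haA).2 (by simp)))
          (Or.inl ((mem_of_tr h1 hbA).2 (by simp))) (Or.inl ((mem_of_tr h1 hcA).2 (by simp)))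
    · rcases htrj with h2 | h2 | h2
      · exact sub_union_of (Or.inl ((mem_of_tr h1 haA).2 (by simp)))
          (Or.inl ((mem_of_tr h1 hbA).2 (by simp))) (Or.inr ((mem_of_tr h2 hcA).2 (by simp)))
      · exact absurd (h1.trans h2.symm) htrne
      · exact sub_union_of (Or.inl ((mem_of_tr h1 haA).2 (by simp)))
          (Or.inl ((mem_of_tr h1 hbA).2 (by simp))) (Or.inr ((mem_of_tr h2 hcA).2 (by simp)))
    · rcases htrj with h2 | h2 | h2
      · exact sub_union_of (Or.inl ((mem_of_tr h1 haA).2 (by simp)))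
          (Or.inr ((mem_of_tr h2 hbA).2 (by simp))) (Or.inl ((mem_of_tr h1 hcA).2 (by simp)))
      · exact sub_union_of (Or.inl ((mem_of_tr h1 haA).2 (by simp)))
          (Or.inr ((mem_of_tr h2 hbA).2 (by simp))) (Or.inl ((mem_of_tr h1 hcA).2 (by simp)))
      · exact absurd (h1.trans h2.symm) htrne
  -- `q` is absorbed by `D`
  obtain ⟨g, hg2⟩ := card_pos.1 (h.q_out hT hC).1
  rw [mem_Eg] at hg2
  have hqg : q ∈ B g := by
    obtain ⟨v, hv⟩ := hg2.2
    rw [mem_inter, mem_singleton] at hv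
    exact hv.2 ▸ hv.1
  obtain ⟨T, hT1, hT2, hgT⟩ := hD.crit.blkT hD.toCK.cov hg2.1
  obtain ⟨T', h1, h2, h3, h4, _⟩ := hg.glue hT hC hT1 hT2 (k := g) hcov (Or.inr (Or.inr ⟨hgT, hqg⟩))
  exact hn ⟨T', h1, h2, h3, h4⟩

/-- so it is incompatible with at most two blocks. -/
theorem GGad.conf2 (hT : HT.{u} V) (hC : EE B C) (h : GGad B C a b c q o) {i : ι}
    (hi : (B i ∩ C).Nonempty) (hiW : B i ∩ C ⊆ {a, b, c, q}) {S : Finset ι}
    (hS : ∀ j ∈ S, (B j ∩ C).Nonempty ∧ ¬ Cmp B C i j) : S.card ≤ 2 := by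
  classical
  have ht := h.toGad.t3 hC.toCK.reg
  have h3 : (univ.filter (fun j => B j ∩ ({a, b, c} : Finset V) =
      B i ∩ ({a, b, c} : Finset V))).card ≤ 3 := by
    rcases h.tr_ins hT hC hi hiW with h1 | h1 | h1
    · rw [h1, ht.nbc]
    · rw [h1, ht.nab]
      norm_num
    · rw [h1, ht.nac]
      norm_num
  have hsub : S ⊆ (univ.filter (fun j => B j ∩ ({a, b, c} : Finset V) =
      B i ∩ ({a, b, c} : Finset V))).erase i := by
    intro j hj
    obtain ⟨h4, h5⟩ := hS j hj
    obtain ⟨_, h6, h7⟩ := h.conf hT hC hi hiW h4 h5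
    exact mem_erase.2 ⟨h7.symm, mem_filter.2 ⟨mem_univ _, h6.symm⟩⟩
  have h4 := card_le_card hsub
  have hi' : i ∈ univ.filter (fun j => B j ∩ ({a, b, c} : Finset V) =
      B i ∩ ({a, b, c} : Finset V)) := mem_filter.2 ⟨mem_univ _, rfl⟩
  rw [card_erase_of_mem hi'] at h4
  omega

end

end Pool.Agent.Hyp6
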