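import Pool.Agent.Hyp6.QBase
import Pool.Agent.Hyp6.QGad
import Pool.Agent.Hyp6.QTpp

/-!
# HYP6 Q44FIN: `4444` is absorbed by all members of the class E

`ST44 V`: the step from `C \ W` to `C` for a good gadget `W`. `F44_of`: the induction.
-/

set_option autoImplicit false

namespace Pool.Agent.Hyp6

open Finset Pool.Agent.Hyp5

universe u v

/-- the step: if `C \ W` absorbs `4444` then so does `C`. -/
def ST44 (V : Type v) [DecidableEq V] : Prop :=
  ∀ (κ : Type u) [Fintype κ] (B : κ → Finset V) (Q C : Finset V) (a b c q : V) (o : κ),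
    Reg B Q → Tr4 B Q → C ⊆ Q → EE B C → GGad B C a b c q o →
    (∀ Y ⊆ Q, Disjoint (C \ {a, b, c, q}) Y → Y.card = 4 →
      (∀ y ∈ Y, 4 ≤ (Ez B (C \ {a, b, c, q}) y).card) → Abz B (C \ {a, b, c, q}) Y) →
    ∀ Y ⊆ Q, Disjoint C Y → Y.card = 4 → (∀ y ∈ Y, 4 ≤ (Ez B C y).card) → Abz B C Y

/-- **4444.** -/
theorem F44_of {V : Type v} [DecidableEq V] (hT : HT.{u} V) (hG : ∀ n, GH.{u} V n)
    (hS : ST44.{u} V) : F44.{u} V := by
  intro κ _ B Q C
  induction C using Finset.strongInduction with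
  | H C ih =>
    intro Y hr h4 hCQ hC hk hP hs hYQ hd hY hE
    have hEC : EE B C := EE.of hT ⟨hr.mono hCQ, h4.mono hCQ, hk, hC⟩ hP hs
    by_cases h7 : 7 ≤ C.card
    · obtain ⟨a, b, c, q, o, hg⟩ := hG (C.card + 1) κ B C hEC h7 (Nat.lt_succ_self _)
      have hD := hg.toGad.ee hT hEC
      refine hS κ B Q C a b c q o hr h4 hCQ hEC hg ?_ Y hYQ hd hY hE
      intro Y' hY'Q hd' hY' hE'
      have haW : a ∈ ({a, b, c, q} : Finset V) := by simp
      have hss : C \ {a, b, c, q} ⊂ C := by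
        refine ⟨sdiff_subset, fun hcon => ?_⟩
        exact (mem_sdiff.1 (hcon (hg.sub haW))).2 haW
      exact ih _ hss Y' hr h4 (sdiff_subset.trans hCQ) hD.conn hD.kf hD.pv hD.sv hY'Q hd' hY' hE'
    · have h3 : C.card = 3 := by
        have h8 := hs
        have h9 := hP
        rw [Pv_eq] at h9
        unfold Hyp6.sv at h8
        omega
      exact base44' hr h4 hCQ h3 hP hs hYQ hd hY hE

end Pool.Agent.Hyp6
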