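import Pool.Agent.Hyp6.Q44
import Pool.Agent.Hyp6.L4T

/-!
# HYP6 Q44B: conflicts between the inner blocks, the cases with at most two rows of three labels
-/

set_option autoImplicit false

namespace Pool.Agent.Hyp6

open Finset Pool.Agent.Hyp5

universe u v

section

variable {V : Type v} [DecidableEq V] {ι : Type u} [Fintype ι] {B : ι → Finset V}
  {Q C Y : Finset V} {a b c q : V} {o : ι}

/-- the inner blocks without `q`. -/
def NQ (B : ι → Finset V) (C : Finset V) (a b c q : V) : Finset ι :=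
  (ins B C {a, b, c, q}).filter (fun i => q ∉ B i)

theorem Fr.card_ins (h : Fr B Q C Y a b c q o) : (ins B C {a, b, c, q}).card = 7 := by
  rw [gad_card_ins h.e.toCK.reg h.g.toGad, (gad_D h.hT h.e h.g.toGad).2.2]

theorem Fr.card_NQ (h : Fr B Q C Y a b c q o) : (NQ B C a b c q).card ≤ 4 := by
  classical
  have h1 : ((ins B C {a, b, c, q}).filter (fun i => q ∈ B i)).card + (NQ B C a b c q).card = 7 := by
    rw [← h.card_ins, ← card_filter_add_card_filter_not (s := ins B C {a, b, c, q})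
      (fun i => q ∈ B i)]
    rfl
  have h2 : Eg B {a, b, c} {q} ⊆ (ins B C {a, b, c, q}).filter (fun i => q ∈ B i) := by
    intro i hi
    obtain ⟨h3, h4, h5⟩ := h.g.toGad.qE h.hT h.e hi
    exact mem_filter.2 ⟨mem_ins.2 ⟨⟨q, mem_inter.2 ⟨h3, h.g.sub (by simp)⟩⟩, h.g.ins i h5 h4⟩, h3⟩
  have h3 := card_le_card h2
  have h4 := h.g.good
  omega

/-- a block with `q` has the trace `ab` or `ac`. -/
theorem Fr.trq (h : Fr B Q C Y a b c q o) {i : ι} (hi : i ∈ ins B C {a, b, c, q}) (hq : q ∈ B i) :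
    B i ∩ ({a, b, c} : Finset V) = {a, b} ∨ B i ∩ ({a, b, c} : Finset V) = {a, c} := by
  refine h.g.q_tr h.hT h.e hq ?_
  rcases h.tr hi with h1 | h1 | h1 <;> rw [h1] <;> simp

/-- two blocks of the class of a block with `q`. -/
theorem Fr.cls (h : Fr B Q C Y a b c q o) {i : ι} (hi : i ∈ ins B C {a, b, c, q}) (hq : q ∈ B i)
    {S : Finset ι} (hS : ∀ j ∈ S, B j ∩ ({a, b, c} : Finset V) = B i ∩ ({a, b, c} : Finset V)) :
    S.card ≤ 2 := by
  classical
  rcases h.trq hi hq with h1 | h1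
  · rw [← h.t3.nab]
    refine card_le_card fun j hj => mem_filter.2 ⟨mem_univ _, ?_⟩
    rw [hS j hj, h1]
  · rw [← h.t3.nac]
    refine card_le_card fun j hj => mem_filter.2 ⟨mem_univ _, ?_⟩
    rw [hS j hj, h1]

/-- at most two blocks are in conflict with two given blocks. -/
theorem Fr.nb2 (h : Fr B Q C Y a b c q o) {i i' : ι} (hi : i ∈ ins B C {a, b, c, q})
    (hi' : i' ∈ ins B C {a, b, c, q}) (hne : i ≠ i') {S : Finset ι}
    (hS : ∀ j ∈ S, j ∈ ins B C {a, b, c, q} ∧ j ≠ i ∧ j ≠ i' ∧ ¬ Okb B a b c q i j ∧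
      ¬ Okb B a b c q i' j) : S.card ≤ 2 := by
  classical
  have key : ∀ k : ι, k ∈ ins B C {a, b, c, q} → q ∈ B k →
      (∀ j ∈ S, j ≠ k ∧ ¬ Okb B a b c q k j) → S.card ≤ 2 := by
    intro k hk hqk hSk
    refine h.cls hk hqk fun j hj => ?_
    by_contra hcon
    exact (hSk j hj).2 ⟨fun e => hcon e.symm, Or.inl hqk⟩
  by_cases hq : q ∈ B i
  · exact key i hi hq fun j hj => ⟨(hS j hj).2.1, (hS j hj).2.2.2.1⟩
  by_cases hq' : q ∈ B i'
  · exact key i' hi' hq' fun j hj => ⟨(hS j hj).2.2.1, (hS j hj).2.2.2.2⟩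
  have hsub : S ⊆ ((NQ B C a b c q).erase i).erase i' := by
    intro j hj
    obtain ⟨h1, h2, h3, h4, h5⟩ := hS j hj
    refine mem_erase.2 ⟨h3, mem_erase.2 ⟨h2, mem_filter.2 ⟨h1, fun hqj => ?_⟩⟩⟩
    have h6 : B i ∩ ({a, b, c} : Finset V) = B j ∩ ({a, b, c} : Finset V) := by
      by_contra hcon
      exact h4 ⟨hcon, Or.inr hqj⟩
    have h7 : B i' ∩ ({a, b, c} : Finset V) = B j ∩ ({a, b, c} : Finset V) := by
      by_contra hcon
      exact h5 ⟨hcon, Or.inr hqj⟩
    have h8 : ({i, i', j} : Finset ι).card ≤ 2 := by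
      refine h.cls h1 hqj fun k hk => ?_
      rw [mem_insert, mem_insert, mem_singleton] at hk
      rcases hk with rfl | rfl | rfl
      · exact h6
      · exact h7
      · rfl
    rw [card_eq_three.2 ⟨i, i', j, hne, h2.symm, h3.symm, rfl⟩] at h8
    omega
  have h1 : i ∈ NQ B C a b c q := mem_filter.2 ⟨hi, hq⟩
  have h2 : i' ∈ (NQ B C a b c q).erase i := mem_erase.2 ⟨hne.symm, mem_filter.2 ⟨hi', hq'⟩⟩
  have h3 := card_le_card hsub
  rw [card_erase_of_mem h2, card_erase_of_mem h1] at h3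
  have h4 := h.card_NQ
  omega

/-- the inner blocks at the two points are pairwise in conflict. -/
def Inc (B : ι → Finset V) (C : Finset V) (a b c q : V) (z z' : V) : Prop :=
  ∀ i ∈ Lz B C a b c q z, ∀ j ∈ Lz B C a b c q z', i ≠ j ∧ ¬ Okb B a b c q i j

theorem Inc.symm {z z' : V} (h : Inc B C a b c q z z') : Inc B C a b c q z' z :=
  fun i hi j hj => ⟨(h j hj i hi).1.symm, fun e => (h j hj i hi).2 e.symm⟩

/-- a row of three labels leaves at most one label for a row in conflict. -/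
theorem Fr.inc_le (h : Fr B Q C Y a b c q o) {z z' : V} (hi : Inc B C a b c q z z')
    (h3 : 3 ≤ (Lz B C a b c q z).card) : (Lz B C a b c q z').card ≤ 1 := by
  classical
  rw [card_le_one]
  intro i hi1 j hj1
  by_contra hne
  have h1 := h.nb2 (mem_Lz.1 hi1).1 (mem_Lz.1 hj1).1 hne (S := Lz B C a b c q z) (fun k hk =>
    ⟨(mem_Lz.1 hk).1, (hi k hk i hi1).1, (hi k hk j hj1).1, fun e => (hi k hk i hi1).2 e.symm,
      fun e => (hi k hk j hj1).2 e.symm⟩)
  omega

/-- the two blocks take two points, the rest refuses the others. -/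
theorem Fr.ref' (h : Fr B Q C Y a b c q o) {i j : ι} (hi : i ∈ ins B C {a, b, c, q})
    (hj : j ∈ ins B C {a, b, c, q}) (hij : i = j ∨ Okb B a b c q i j) {S : Finset V}
    (hS : ∀ y ∈ Y, y ∉ S → y ∈ B i ∨ y ∈ B j) : ¬ Abz B (C \ {a, b, c, q}) S := by
  rcases hij with rfl | hij
  · obtain ⟨k, hk, hik⟩ := h.partner hi
    exact h.ref hi hk hik fun y hy hyS => Or.inl ((hS y hy hyS).elim id id)
  · exact h.ref hi hj hij hS

/-- the two other points with at most two labels: conflict. -/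
theorem Fr.inc_of (h : Fr B Q C Y a b c q o) {z z' u u' : V} (h4 : Four Y z z' u u')
    (hu : (Lz B C a b c q u).card ≤ 2) (hu' : (Lz B C a b c q u').card ≤ 2) :
    Inc B C a b c q z z' := by
  intro i hi j hj
  by_contra hcon
  have hij : i = j ∨ Okb B a b c q i j := by tauto
  rw [mem_Lz] at hi hj
  refine h.ref' hi.1 hj.1 hij (S := {u, u'}) ?_ ?_
  · intro y hy hyS
    rw [mem_insert, mem_singleton] at hyS
    push Not at hyS
    rcases h4.cov y hy with rfl | rfl | rfl | rfl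
    · exact Or.inl hi.2
    · exact Or.inr hj.2
    · exact absurd rfl hyS.1
    · exact absurd rfl hyS.2
  · have h1 := h.four h4.mc
    have h2 := h.four h4.md
    exact h.d2 (h.notMemD h4.mc) (h.notMemD h4.md) h4.cd (by omega) (by omega)

/-- a point with an inner block: the rest refuses the other three. -/
theorem Fr.ref3 (h : Fr B Q C Y a b c q o) {z u1 u2 u3 : V} (h4 : Four Y z u1 u2 u3)
    (hz : (Lz B C a b c q z).Nonempty) : ¬ Abz B (C \ {a, b, c, q}) {u1, u2, u3} := by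
  obtain ⟨i, hi⟩ := hz
  rw [mem_Lz] at hi
  refine h.ref' hi.1 hi.1 (Or.inl rfl) fun y hy hyS => ?_
  rw [mem_insert, mem_insert, mem_singleton] at hyS
  push Not at hyS
  rcases h4.cov y hy with rfl | rfl | rfl | rfl
  · exact Or.inl hi.2
  · exact absurd rfl hyS.1
  · exact absurd rfl hyS.2.1
  · exact absurd rfl hyS.2.2

theorem Fr.mem_QD (h : Fr B Q C Y a b c q o) {z : V} (hz : z ∈ Y) : z ∈ Q \ (C \ {a, b, c, q}) :=
  mem_sdiff.2 ⟨h.YQ hz, h.notMemD hz⟩

/-- three points with (4,3,3) hits. -/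
theorem Fr.d3 (h : Fr B Q C Y a b c q o) {x y z : V} (hx : x ∈ Q \ (C \ {a, b, c, q}))
    (hy : y ∈ Q \ (C \ {a, b, c, q})) (hz : z ∈ Q \ (C \ {a, b, c, q})) (hxy : x ≠ y) (hxz : x ≠ z)
    (hyz : y ≠ z) (h1 : 4 ≤ (Ez B (C \ {a, b, c, q}) x).card)
    (h2 : 3 ≤ (Ez B (C \ {a, b, c, q}) y).card) (h3 : 3 ≤ (Ez B (C \ {a, b, c, q}) z).card) :
    Abz B (C \ {a, b, c, q}) {x, y, z} := by
  have h5 := h.d3g (G1 := {x}) (G2 := {y}) (G3 := {z}) (singleton_subset_iff.2 hx)
    (singleton_subset_iff.2 hy) (singleton_subset_iff.2 hz) (disjoint_singleton.2 hxy)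
    (disjoint_singleton.2 hxz) (disjoint_singleton.2 hyz) (by rwa [Eg_singleton])
    (by rwa [Eg_singleton]) (by rwa [Eg_singleton])
  refine abz_of_ab h5 fun w hw => ?_
  rw [mem_insert, mem_insert, mem_singleton] at hw
  rcases hw with rfl | rfl | rfl
  · exact ⟨Eg B (C \ {a, b, c, q}) {w}, by simp, by rw [Eg_singleton]⟩
  · exact ⟨Eg B (C \ {a, b, c, q}) {w}, by simp, by rw [Eg_singleton]⟩
  · exact ⟨Eg B (C \ {a, b, c, q}) {w}, by simp, by rw [Eg_singleton]⟩

/-- the rows of the other three are not (0,1,1). -/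
theorem Fr.not011 (h : Fr B Q C Y a b c q o) {z u1 u2 u3 : V} (h4 : Four Y z u1 u2 u3)
    (hz : (Lz B C a b c q z).Nonempty) (h1 : (Lz B C a b c q u1).card = 0)
    (h2 : (Lz B C a b c q u2).card ≤ 1) (h3 : (Lz B C a b c q u3).card ≤ 1) : False := by
  have e1 := h.four h4.mb
  have e2 := h.four h4.mc
  have e3 := h.four h4.md
  exact h.ref3 h4 hz (h.d3 (h.mem_QD h4.mb) (h.mem_QD h4.mc) (h.mem_QD h4.md) h4.bc h4.bd h4.cd
    (by omega) (by omega) (by omega))

/-- the capacity of an inner block. -/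
theorem Fr.cap (h : Fr B Q C Y a b c q o) {i : ι} (hi : i ∈ ins B C {a, b, c, q}) :
    (Y.filter (fun z => z ∈ B i)).card + (if q ∈ B i then 3 else 2) ≤ 4 := by
  classical
  have h1 : (if q ∈ B i then 3 else 2) ≤ (B i ∩ C).card := by
    have h2 : (B i ∩ ({a, b, c} : Finset V)).card = 2 := by
      rcases h.tr hi with h1 | h1 | h1
      · rw [h1, card_pair h.t3.bc]
      · rw [h1, card_pair h.t3.ab]
      · rw [h1, card_pair h.t3.ac]
    have hAC : ({a, b, c} : Finset V) ⊆ C := A_sub_W.trans h.g.sub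
    split_ifs with hq
    · have h3 : insert q (B i ∩ ({a, b, c} : Finset V)) ⊆ B i ∩ C := by
        intro v hv
        rcases mem_insert.1 hv with rfl | hv
        · exact mem_inter.2 ⟨hq, h.g.sub (by simp)⟩
        · exact inter_subset_inter_left hAC hv
      have h4 := card_le_card h3
      rw [card_insert_of_notMem (fun hh => h.g.toGad.qnA (mem_inter.1 hh).2), h2] at h4
      exact h4
    · rw [← h2]
      exact card_le_card (inter_subset_inter_left hAC)
  have h2 : (Y.filter (fun z => z ∈ B i)).card + (B i ∩ C).card ≤ 4 := by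
    rw [← card_union_of_disjoint]
    · refine (card_le_card ?_).trans (h.t4 i)
      intro v hv
      rw [mem_union, mem_filter, mem_inter] at hv
      rw [mem_inter]
      rcases hv with hv | hv
      · exact ⟨hv.2, h.YQ hv.1⟩
      · exact ⟨hv.1, h.CQ hv.2⟩
    · rw [disjoint_left]
      intro v hv hv'
      exact h.notMem (mem_filter.1 hv).1 (mem_inter.1 hv').2
  omega

/-- no inner block contains three points of `Y`. -/
theorem Fr.no3 (h : Fr B Q C Y a b c q o) {i : ι} (hi : i ∈ ins B C {a, b, c, q}) {x y z : V}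
    (hx : x ∈ Y) (hy : y ∈ Y) (hz : z ∈ Y) (hxy : x ≠ y) (hxz : x ≠ z) (hyz : y ≠ z)
    (h1 : x ∈ B i) (h2 : y ∈ B i) (h3 : z ∈ B i) : False := by
  classical
  have h4 := h.cap hi
  have h5 : ({x, y, z} : Finset V) ⊆ Y.filter (fun z => z ∈ B i) := by
    intro v hv
    rw [mem_insert, mem_insert, mem_singleton] at hv
    rcases hv with rfl | rfl | rfl
    · exact mem_filter.2 ⟨hx, h1⟩
    · exact mem_filter.2 ⟨hy, h2⟩
    · exact mem_filter.2 ⟨hz, h3⟩
  have h6 := card_le_card h5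
  rw [card_eq_three.2 ⟨x, y, z, hxy, hxz, hyz, rfl⟩] at h6
  split_ifs at h4 <;> omega

/-- a block with `q` contains at most one point of `Y`. -/
theorem Fr.no2 (h : Fr B Q C Y a b c q o) {i : ι} (hi : i ∈ ins B C {a, b, c, q}) (hq : q ∈ B i)
    {x y : V} (hx : x ∈ Y) (hy : y ∈ Y) (hxy : x ≠ y) (h1 : x ∈ B i) (h2 : y ∈ B i) : False := by
  classical
  have h4 := h.cap hi
  have h5 : ({x, y} : Finset V) ⊆ Y.filter (fun z => z ∈ B i) := by
    intro v hv
    rw [mem_insert, mem_singleton] at hv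
    rcases hv with rfl | rfl
    · exact mem_filter.2 ⟨hx, h1⟩
    · exact mem_filter.2 ⟨hy, h2⟩
  have h6 := card_le_card h5
  rw [card_pair hxy] at h6
  rw [if_pos hq] at h4
  omega

/-- exactly one row with three labels: impossible. -/
theorem Fr.one3 (h : Fr B Q C Y a b c q o) {z u1 u2 u3 : V} (h4 : Four Y z u1 u2 u3)
    (hz : 3 ≤ (Lz B C a b c q z).card) (h1 : (Lz B C a b c q u1).card ≤ 2)
    (h2 : (Lz B C a b c q u2).card ≤ 2) (h3 : (Lz B C a b c q u3).card ≤ 2) : False := by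
  classical
  have hzne : (Lz B C a b c q z).Nonempty := card_pos.1 (by omega)
  have p2 : Four Y z u2 u3 u1 :=
    ⟨h4.ma, h4.mc, h4.md, h4.mb, h4.ac, h4.ad, h4.ab, h4.cd, h4.bc.symm, h4.bd.symm,
      fun x hx => by have := h4.cov x hx; tauto⟩
  have p3 : Four Y z u3 u1 u2 :=
    ⟨h4.ma, h4.md, h4.mb, h4.mc, h4.ad, h4.ab, h4.ac, h4.bd.symm, h4.cd.symm, h4.bc,
      fun x hx => by have := h4.cov x hx; tauto⟩
  have i1 := h.inc_of h4 h2 h3
  have i2 := h.inc_of p2 h3 h1
  have i3 := h.inc_of p3 h1 h2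
  have c1 := h.inc_le i1 hz
  have c2 := h.inc_le i2 hz
  have c3 := h.inc_le i3 hz
  have n1 : (Lz B C a b c q u1).Nonempty := by
    rw [← card_pos]
    by_contra hcon
    exact h.not011 h4 hzne (by omega) c2 c3
  have n2 : (Lz B C a b c q u2).Nonempty := by
    rw [← card_pos]
    by_contra hcon
    exact h.not011 p2 hzne (by omega) c3 c1
  have n3 : (Lz B C a b c q u3).Nonempty := by
    rw [← card_pos]
    by_contra hcon
    exact h.not011 p3 hzne (by omega) c1 c2
  obtain ⟨j1, hj1⟩ := n1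
  obtain ⟨j2, hj2⟩ := n2
  obtain ⟨j3, hj3⟩ := n3
  have e : ∀ {u u' : V} {j j' : ι}, Inc B C a b c q z u → Inc B C a b c q z u' →
      j ∈ Lz B C a b c q u → j' ∈ Lz B C a b c q u' → j = j' := by
    intro u u' j j' iu iu' hj hj'
    by_contra hne
    have h1 := h.nb2 (mem_Lz.1 hj).1 (mem_Lz.1 hj').1 hne (S := Lz B C a b c q z) (fun k hk =>
      ⟨(mem_Lz.1 hk).1, (iu k hk j hj).1, (iu' k hk j' hj').1, fun e => (iu k hk j hj).2 e.symm,
        fun e => (iu' k hk j' hj').2 e.symm⟩)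
    omega
  have e12 := e i1 i2 hj1 hj2
  have e13 := e i1 i3 hj1 hj3
  subst e12
  subst e13
  exact h.no3 (mem_Lz.1 hj1).1 h4.mb h4.mc h4.md h4.bc h4.bd h4.cd (mem_Lz.1 hj1).2
    (mem_Lz.1 hj2).2 (mem_Lz.1 hj3).2

/-- exactly two rows with three labels: impossible. -/
theorem Fr.two3 (h : Fr B Q C Y a b c q o) {z z' u u' : V} (h4 : Four Y z z' u u')
    (hz : 3 ≤ (Lz B C a b c q z).card) (hz' : 3 ≤ (Lz B C a b c q z').card)
    (h1 : (Lz B C a b c q u).card ≤ 2) (h2 : (Lz B C a b c q u').card ≤ 2) : False := by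
  have := h.inc_le (h.inc_of h4 h1 h2) hz
  omega

end

end Pool.Agent.Hyp6
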