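import Pool.Agent.Hyp6.Q44b

/-!
# HYP6 Q44C: all rows with at most two labels
-/

set_option autoImplicit false

namespace Pool.Agent.Hyp6

open Finset Pool.Agent.Hyp5

universe u v

section

variable {V : Type v} [DecidableEq V] {ι : Type u} [Fintype ι] {B : ι → Finset V}
  {Q C Y : Finset V} {a b c q : V} {o : ι}

/-- merging: if the rest refuses `{x,y,z}` and `{x,y,z'}`, with (4,3) hits of `x`, `y` (or (3,3) and
four merged hits), the merged row is small. -/
theorem Fr.mrg (h : Fr B Q C Y a b c q o) {x y z z' : V} (hx : x ∈ Q \ (C \ {a, b, c, q}))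
    (hy : y ∈ Q \ (C \ {a, b, c, q})) (hz : z ∈ Q \ (C \ {a, b, c, q}))
    (hz' : z' ∈ Q \ (C \ {a, b, c, q})) (hxy : x ≠ y) (hxz : x ≠ z) (hxz' : x ≠ z')
    (hyz : y ≠ z) (hyz' : y ≠ z') (h1 : 3 ≤ (Ez B (C \ {a, b, c, q}) x).card)
    (h2 : 3 ≤ (Ez B (C \ {a, b, c, q}) y).card)
    (n1 : ¬ Abz B (C \ {a, b, c, q}) {x, y, z}) (n2 : ¬ Abz B (C \ {a, b, c, q}) {x, y, z'}) :
    (Eg B (C \ {a, b, c, q}) {z, z'}).card ≤ 3 ∧
      (4 ≤ (Ez B (C \ {a, b, c, q}) x).card → (Eg B (C \ {a, b, c, q}) {z, z'}).card ≤ 2) := by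
  classical
  have hG : ({z, z'} : Finset V) ⊆ Q \ (C \ {a, b, c, q}) := by
    intro v hv
    rw [mem_insert, mem_singleton] at hv
    rcases hv with rfl | rfl
    · exact hz
    · exact hz'
  have dx : Disjoint {x} ({z, z'} : Finset V) := by
    rw [disjoint_singleton_left, mem_insert, mem_singleton]
    tauto
  have dy : Disjoint {y} ({z, z'} : Finset V) := by
    rw [disjoint_singleton_left, mem_insert, mem_singleton]
    tauto
  have key : ∀ L, (Eg B (C \ {a, b, c, q}) {x} ∈ L ∧ Eg B (C \ {a, b, c, q}) {y} ∈ L ∧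
      Eg B (C \ {a, b, c, q}) {z, z'} ∈ L) → ¬ Ab B (C \ {a, b, c, q}) L := by
    rintro L ⟨e1, e2, e3⟩ ⟨T, t1, t2, t3⟩
    have f : ∀ w : V, Eg B (C \ {a, b, c, q}) {w} ∈ L → w ∈ T.biUnion B := by
      intro w hw
      obtain ⟨i, hi, hiE⟩ := t3 _ hw
      rw [Eg_singleton, mem_Ez] at hiE
      exact mem_biUnion.2 ⟨i, hi, hiE.1⟩
    have fx := f x e1
    have fy := f y e2
    obtain ⟨i, hi, hiE⟩ := t3 _ e3
    obtain ⟨w, hw⟩ := (mem_Eg.1 hiE).2
    rw [mem_inter, mem_insert, mem_singleton] at hw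
    have fw : w ∈ T.biUnion B := mem_biUnion.2 ⟨i, hi, hw.1⟩
    rcases hw.2 with rfl | rfl
    · refine n1 ⟨T, union_subset t1 fun v hv => ?_, t2⟩
      rw [mem_insert, mem_insert, mem_singleton] at hv
      rcases hv with rfl | rfl | rfl
      · exact fx
      · exact fy
      · exact fw
    · refine n2 ⟨T, union_subset t1 fun v hv => ?_, t2⟩
      rw [mem_insert, mem_insert, mem_singleton] at hv
      rcases hv with rfl | rfl | rfl
      · exact fx
      · exact fy
      · exact fw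
  constructor
  · by_contra hcon
    refine key _ ?_ (h.d3g (G1 := {z, z'}) (G2 := {x}) (G3 := {y}) hG (singleton_subset_iff.2 hx)
      (singleton_subset_iff.2 hy) dx.symm dy.symm (disjoint_singleton.2 hxy) (by omega)
      (by rwa [Eg_singleton]) (by rwa [Eg_singleton]))
    simp
  · intro h4
    by_contra hcon
    refine key _ ?_ (h.d3g (G1 := {x}) (G2 := {y}) (G3 := {z, z'}) (singleton_subset_iff.2 hx)
      (singleton_subset_iff.2 hy) hG (disjoint_singleton.2 hxy) dx dy (by rwa [Eg_singleton])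
      (by rwa [Eg_singleton]) (by omega))
    simp

theorem Ez_sub_Eg {D : Finset V} {z z' : V} : Ez B D z ⊆ Eg B D {z, z'} ∧ Ez B D z' ⊆ Eg B D {z, z'} := by
  constructor
  · intro i hi
    rw [mem_Ez] at hi
    exact mem_Eg.2 ⟨hi.2, z, mem_inter.2 ⟨hi.1, by simp⟩⟩
  · intro i hi
    rw [mem_Ez] at hi
    exact mem_Eg.2 ⟨hi.2, z', mem_inter.2 ⟨hi.1, by simp⟩⟩

/-- all rows have exactly one label: impossible. -/
theorem Fr.case1 (h : Fr B Q C Y a b c q o) {z1 z2 z3 z4 : V} (h4 : Four Y z1 z2 z3 z4)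
    (w1 : (Lz B C a b c q z1).card = 1) (w2 : (Lz B C a b c q z2).card = 1)
    (w3 : (Lz B C a b c q z3).card = 1) (w4 : (Lz B C a b c q z4).card = 1) : False := by
  classical
  have e1 := h.four h4.ma
  have e2 := h.four h4.mb
  have e3 := h.four h4.mc
  have e4 := h.four h4.md
  have q1 := h.mem_QD h4.ma
  have q2 := h.mem_QD h4.mb
  have q3 := h.mem_QD h4.mc
  have q4 := h.mem_QD h4.md
  have key : ∀ {x y z z' : V}, Four Y x y z z' → 3 ≤ (Ez B (C \ {a, b, c, q}) x).card →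
      3 ≤ (Ez B (C \ {a, b, c, q}) y).card → (Lz B C a b c q z).card = 1 →
      (Lz B C a b c q z').card = 1 → 3 ≤ (Ez B (C \ {a, b, c, q}) z).card →
      3 ≤ (Ez B (C \ {a, b, c, q}) z').card →
      Ez B (C \ {a, b, c, q}) z = Ez B (C \ {a, b, c, q}) z' := by
    intro x y z z' hf hx hy hwz hwz' hz hz'
    have p1 : Four Y z' x y z := hf.rot.rot.rot
    have p2 : Four Y z x y z' := ⟨hf.mc, hf.ma, hf.mb, hf.md, hf.ac.symm, hf.bc.symm, hf.cd,
      hf.ab, hf.ad, hf.bd, fun v hv => by have := hf.cov v hv; tauto⟩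
    have n1 := h.ref3 p1 (card_pos.1 (by omega))
    have n2 := h.ref3 p2 (card_pos.1 (by omega))
    have h5 := (h.mrg (h.mem_QD hf.ma) (h.mem_QD hf.mb) (h.mem_QD hf.mc) (h.mem_QD hf.md) hf.ab
      hf.ac hf.ad hf.bc hf.bd hx hy n1 n2).1
    have h6 := Ez_sub_Eg (B := B) (D := C \ {a, b, c, q}) (z := z) (z' := z')
    rw [eq_of_subset_of_card_le h6.1 (by omega), eq_of_subset_of_card_le h6.2 (by omega)]
  have f1 : Ez B (C \ {a, b, c, q}) z3 = Ez B (C \ {a, b, c, q}) z4 :=
    key h4 (by omega) (by omega) w3 w4 (by omega) (by omega)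
  have f2 : Ez B (C \ {a, b, c, q}) z4 = Ez B (C \ {a, b, c, q}) z1 :=
    key h4.rot (by omega) (by omega) w4 w1 (by omega) (by omega)
  have f3 : Ez B (C \ {a, b, c, q}) z1 = Ez B (C \ {a, b, c, q}) z2 :=
    key h4.rot.rot (by omega) (by omega) w1 w2 (by omega) (by omega)
  obtain ⟨i, hi⟩ := card_pos.1 (by omega : 0 < (Ez B (C \ {a, b, c, q}) z1).card)
  have g1 := mem_Ez.1 hi
  have g2 := mem_Ez.1 (f3 ▸ hi)
  have g4 := mem_Ez.1 (f2.symm ▸ hi)
  have g3 := mem_Ez.1 (f1.symm ▸ (f2.symm ▸ hi))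
  obtain ⟨d, hd⟩ := g1.2
  rw [mem_inter] at hd
  have hsub : insert d Y ⊆ B i ∩ Q := by
    intro v hv
    rcases mem_insert.1 hv with rfl | hv
    · exact mem_inter.2 ⟨hd.1, h.CQ (mem_sdiff.1 hd.2).1⟩
    · refine mem_inter.2 ⟨?_, h.YQ hv⟩
      rcases h4.cov v hv with rfl | rfl | rfl | rfl
      · exact g1.1
      · exact g2.1
      · exact g3.1
      · exact g4.1
  have h5 := card_le_card hsub
  rw [card_insert_of_notMem (fun hdY => h.notMemD hdY hd.2), h.cY] at h5
  have h6 := h.t4 i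
  omega

/-- the rows (2,2,0,0). -/
theorem Fr.case22 (h : Fr B Q C Y a b c q o) {z3 z4 z1 z2 : V} (h4 : Four Y z3 z4 z1 z2)
    (w3 : (Lz B C a b c q z3).card = 2) (w4 : (Lz B C a b c q z4).card = 2)
    (w1 : (Lz B C a b c q z1).card = 0) (w2 : (Lz B C a b c q z2).card = 0) : False := by
  classical
  have e1 := h.four h4.mc
  have e2 := h.four h4.md
  have e3 := h.four h4.ma
  have e4 := h.four h4.mb
  have q1 := h.mem_QD h4.mc
  have q2 := h.mem_QD h4.md
  have q3 := h.mem_QD h4.ma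
  have q4 := h.mem_QD h4.mb
  have hinc := h.inc_of h4 (by omega) (by omega)
  -- refusals
  have n4 : ¬ Abz B (C \ {a, b, c, q}) {z1, z2, z4} := by
    have h5 := h.ref3 h4 (card_pos.1 (by omega))
    intro h6
    exact h5 (h6.mono (by intro v hv; simp only [mem_insert, mem_singleton] at hv ⊢; tauto))
  have n3 : ¬ Abz B (C \ {a, b, c, q}) {z1, z2, z3} := by
    have h5 := h.ref3 h4.swap (card_pos.1 (by omega))
    intro h6
    exact h5 (h6.mono (by intro v hv; simp only [mem_insert, mem_singleton] at hv ⊢; tauto))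
  -- two blocks of different traces without `q`
  obtain ⟨i, hi, j, hj, hij, hqi, hqj⟩ : ∃ i ∈ Lz B C a b c q z3, ∃ j ∈ Lz B C a b c q z4,
      B i ∩ ({a, b, c} : Finset V) ≠ B j ∩ ({a, b, c} : Finset V) ∧ q ∉ B i ∧ q ∉ B j := by
    by_contra hcon
    push Not at hcon
    have hsame : ∀ i ∈ Lz B C a b c q z3, ∀ j ∈ Lz B C a b c q z4,
        B i ∩ ({a, b, c} : Finset V) = B j ∩ ({a, b, c} : Finset V) := by
      intro i hi j hj
      by_contra hne
      have h5 := (hinc i hi j hj).2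
      by_cases hq : q ∈ B i
      · exact h5 ⟨hne, Or.inl hq⟩
      · exact h5 ⟨hne, Or.inr (hcon i hi j hj hne hq)⟩
    obtain ⟨i0, hi0⟩ := card_pos.1 (by omega : 0 < (Lz B C a b c q z3).card)
    obtain ⟨j0, hj0⟩ := card_pos.1 (by omega : 0 < (Lz B C a b c q z4).card)
    have hall : ∀ k ∈ Lz B C a b c q z3 ∪ Lz B C a b c q z4,
        B k ∩ ({a, b, c} : Finset V) = B i0 ∩ ({a, b, c} : Finset V) := by
      intro k hk
      rcases mem_union.1 hk with hk | hk
      · rw [hsame k hk j0 hj0, hsame i0 hi0 j0 hj0]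
      · rw [hsame i0 hi0 k hk]
    have hc4 : (Lz B C a b c q z3 ∪ Lz B C a b c q z4).card = 4 := by
      rw [card_union_of_disjoint, w3, w4]
      rw [disjoint_left]
      intro k hk hk'
      exact (hinc k hk k hk').1 rfl
    have hle : (Lz B C a b c q z3 ∪ Lz B C a b c q z4).card ≤
        (univ.filter (fun k => B k ∩ ({a, b, c} : Finset V) = B i0 ∩ ({a, b, c} : Finset V))).card :=
      card_le_card fun k hk => mem_filter.2 ⟨mem_univ _, hall k hk⟩
    rcases h.tr (mem_Lz.1 hi0).1 with h6 | h6 | h6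
    · rw [h6, h.t3.nbc] at hle
      omega
    · rw [h6, h.t3.nab] at hle
      omega
    · rw [h6, h.t3.nac] at hle
      omega
  rw [mem_Lz] at hi hj
  have hA := h.cov2 hi.1 hj.1 hij
  -- the rest refuses `z1, z2, q`
  have nq : ¬ Abz B (C \ {a, b, c, q}) {z1, z2, q} := by
    rintro ⟨T, t1, t2⟩
    refine h.no ((subset_union_left).trans t1) t2 hA
      (Or.inr (Or.inr (t1 (mem_union_right _ (by simp))))) fun y hy => ?_
    rcases h4.cov y hy with rfl | rfl | rfl | rfl
    · exact Or.inr (Or.inl hi.2)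
    · exact Or.inr (Or.inr hj.2)
    · exact Or.inl (t1 (mem_union_right _ (by simp)))
    · exact Or.inl (t1 (mem_union_right _ (by simp)))
  have hqC : q ∈ C := h.g.sub (by simp)
  have haC : a ∈ C := h.g.sub (by simp)
  have hqQ : q ∈ Q \ (C \ {a, b, c, q}) :=
    mem_sdiff.2 ⟨h.CQ hqC, fun hh => (mem_sdiff.1 hh).2 (by simp)⟩
  have haQ : a ∈ Q \ (C \ {a, b, c, q}) :=
    mem_sdiff.2 ⟨h.CQ haC, fun hh => (mem_sdiff.1 hh).2 (by simp)⟩
  have ne : ∀ {z w : V}, z ∈ Y → w ∈ C → z ≠ w := fun hz hw e => h.notMem hz (e ▸ hw)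
  -- merging
  have m34 := (h.mrg q1 q2 q3 q4 h4.cd h4.ac.symm h4.bc.symm h4.ad.symm h4.bd.symm (by omega)
    (by omega) n3 n4).2 (by omega)
  have m3q := (h.mrg q1 q2 q3 hqQ h4.cd h4.ac.symm (ne h4.mc hqC) h4.ad.symm (ne h4.md hqC)
    (by omega) (by omega) n3 nq).2 (by omega)
  -- `q` has two hits
  have hq2 : 2 ≤ (Ez B (C \ {a, b, c, q}) q).card := by
    have h5 := h.g.toGad.count h.hT h.e
    have h6 : (Eg B {a, b, c} {q}).card ≤ 3 := by
      -- one of the two blocks has a trace with `a`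
      have h7 : ∀ k, k ∈ ins B C {a, b, c, q} → q ∉ B k →
          (B k ∩ ({a, b, c} : Finset V) = {a, b} ∨ B k ∩ ({a, b, c} : Finset V) = {a, c}) →
          (Eg B {a, b, c} {q}).card ≤ 3 := by
        intro k _ hqk hk
        have h8 : insert k (Eg B {a, b, c} {q}) ⊆
            univ.filter (fun i => B i ∩ ({a, b, c} : Finset V) = {a, b}) ∪
              univ.filter (fun i => B i ∩ ({a, b, c} : Finset V) = {a, c}) := by
          intro l hl
          rw [mem_union, mem_filter, mem_filter]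
          rcases mem_insert.1 hl with rfl | hl
          · rcases hk with hk | hk
            · exact Or.inl ⟨mem_univ _, hk⟩
            · exact Or.inr ⟨mem_univ _, hk⟩
          · obtain ⟨g1, g2, _⟩ := h.g.toGad.qE h.hT h.e hl
            rcases h.g.q_tr h.hT h.e g1 g2 with g3 | g3
            · exact Or.inl ⟨mem_univ _, g3⟩
            · exact Or.inr ⟨mem_univ _, g3⟩
        have h9 := (card_le_card h8).trans (card_union_le _ _)
        rw [h.t3.nab, h.t3.nac, card_insert_of_notMem (fun hh =>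
          hqk (h.g.toGad.qE h.hT h.e hh).1)] at h9
        omega
      rcases h.tr hi.1 with g1 | g1 | g1
      · rcases h.tr hj.1 with g2 | g2 | g2
        · exact absurd (g1.trans g2.symm) hij
        · exact h7 j hj.1 hqj (Or.inl g2)
        · exact h7 j hj.1 hqj (Or.inr g2)
      · exact h7 i hi.1 hqi (Or.inl g1)
      · exact h7 i hi.1 hqi (Or.inr g1)
    have h7 : Eg B (C \ {a, b, c, q}) {q} = Ez B (C \ {a, b, c, q}) q := Eg_singleton
    rw [h7] at h5
    omega
  have s34 := Ez_sub_Eg (B := B) (D := C \ {a, b, c, q}) (z := z3) (z' := z4)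
  have s3q := Ez_sub_Eg (B := B) (D := C \ {a, b, c, q}) (z := z3) (z' := q)
  have f3 := eq_of_subset_of_card_le s34.1 (by omega)
  have f4 := eq_of_subset_of_card_le s34.2 (by omega)
  have g3 := eq_of_subset_of_card_le s3q.1 (by omega)
  have gq := eq_of_subset_of_card_le s3q.2 (by omega)
  have hE34 : Ez B (C \ {a, b, c, q}) z4 = Ez B (C \ {a, b, c, q}) z3 := f4.trans f3.symm
  have hEq3 : Ez B (C \ {a, b, c, q}) q = Ez B (C \ {a, b, c, q}) z3 := gq.trans g3.symm
  -- a common block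
  obtain ⟨β, hβ⟩ := card_pos.1 (by omega : 0 < (Ez B (C \ {a, b, c, q}) q).card)
  have b1 := mem_Ez.1 hβ
  have b3 := mem_Ez.1 (hEq3 ▸ hβ)
  have b4 := mem_Ez.1 (hE34 ▸ (hEq3 ▸ hβ) : β ∈ Ez B (C \ {a, b, c, q}) z4)
  -- the rest refuses `z1, z2, a`
  obtain ⟨x, hx⟩ := card_pos.1 (by rw [h.t3.nbc]; norm_num :
    0 < (univ.filter (fun i => B i ∩ ({a, b, c} : Finset V) = {b, c})).card)
  have hx' := (mem_filter.1 hx).2
  have hbx : b ∈ B x := (mem_of_tr hx' (by simp)).2 (by simp)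
  have hcx : c ∈ B x := (mem_of_tr hx' (by simp)).2 (by simp)
  have na : ¬ Abz B (C \ {a, b, c, q}) {z1, z2, a} := by
    rintro ⟨T, t1, t2⟩
    refine h.neg ⟨insert β (insert x T), ?_, ?_⟩
    · intro v hv
      have hT' : T.biUnion B ⊆ (insert β (insert x T)).biUnion B :=
        biUnion_subset_biUnion_of_subset_left B fun k hk => by simp [hk]
      have hβ' : B β ⊆ (insert β (insert x T)).biUnion B := subset_biUnion_of_mem B (by simp)
      have hx'' : B x ⊆ (insert β (insert x T)).biUnion B := subset_biUnion_of_mem B (by simp)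
      rcases mem_union.1 hv with hv | hv
      · by_cases hvW : v ∈ ({a, b, c, q} : Finset V)
        · simp only [mem_insert, mem_singleton] at hvW
          rcases hvW with rfl | rfl | rfl | rfl
          · exact hT' (t1 (mem_union_right _ (by simp)))
          · exact hx'' hbx
          · exact hx'' hcx
          · exact hβ' b1.1
        · exact hT' (t1 (mem_union_left _ (mem_sdiff.2 ⟨hv, hvW⟩)))
      · rcases h4.cov v hv with rfl | rfl | rfl | rfl
        · exact hβ' b3.1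
        · exact hβ' b4.1
        · exact hT' (t1 (mem_union_right _ (by simp)))
        · exact hT' (t1 (mem_union_right _ (by simp)))
    · rw [h.rho]
      have h5 := card_insert_le β (insert x T)
      have h6 := card_insert_le x T
      omega
  have m3a := (h.mrg q1 q2 q3 haQ h4.cd h4.ac.symm (ne h4.mc haC) h4.ad.symm (ne h4.md haC)
    (by omega) (by omega) n3 na).2 (by omega)
  have s3a := Ez_sub_Eg (B := B) (D := C \ {a, b, c, q}) (z := z3) (z' := a)
  have hoa : o ∈ Ez B (C \ {a, b, c, q}) a := by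
    have h5 := h.g.o_eq h.hT h.e
    exact mem_Ez.2 ⟨(mem_of_tr h5 (by simp)).2 (by simp), h.g.oC⟩
  have ho3 : o ∉ Ez B (C \ {a, b, c, q}) z3 := by
    intro hh
    rw [← hEq3] at hh
    exact h.g.toGad.qo h.hT h.e (mem_Ez.1 hh).1
  have h7 : insert o (Ez B (C \ {a, b, c, q}) z3) ⊆ Eg B (C \ {a, b, c, q}) {z3, a} :=
    insert_subset (s3a.2 hoa) s3a.1
  have h8 := card_le_card h7
  rw [card_insert_of_notMem ho3] at h8
  omega

/-- all rows have at most two labels: impossible. -/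
theorem Fr.small (h : Fr B Q C Y a b c q o) {z1 z2 z3 z4 : V} (h4 : Four Y z1 z2 z3 z4)
    (w1 : (Lz B C a b c q z1).card ≤ 2) (w2 : (Lz B C a b c q z2).card ≤ 2)
    (w3 : (Lz B C a b c q z3).card ≤ 2) (w4 : (Lz B C a b c q z4).card ≤ 2)
    (h12 : (Lz B C a b c q z2).card ≤ (Lz B C a b c q z1).card)
    (h23 : (Lz B C a b c q z3).card ≤ (Lz B C a b c q z2).card)
    (h34 : (Lz B C a b c q z4).card ≤ (Lz B C a b c q z3).card)
    (hpos : 1 ≤ (Lz B C a b c q z1).card) : False := by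
  classical
  have i12 := h.inc_of h4 w3 w4
  have p13 : Four Y z1 z3 z2 z4 := ⟨h4.ma, h4.mc, h4.mb, h4.md, h4.ac, h4.ab, h4.ad, h4.bc.symm,
    h4.cd, h4.bd, fun v hv => by have := h4.cov v hv; tauto⟩
  have i13 := h.inc_of p13 w2 w4
  have i23 := h.inc_of (z := z2) (z' := z3) (u := z4) (u' := z1) h4.rot w4 w1
  have hne1 : (Lz B C a b c q z1).Nonempty := card_pos.1 (by omega)
  have p1 : Four Y z1 z4 z2 z3 := ⟨h4.ma, h4.md, h4.mb, h4.mc, h4.ad, h4.ab, h4.ac, h4.bd.symm,
    h4.cd.symm, h4.bc, fun v hv => by have := h4.cov v hv; tauto⟩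
  by_cases c2 : (Lz B C a b c q z2).card ≤ 1
  · -- others at most one: all equal to one
    have c4 : (Lz B C a b c q z4).card = 1 := by
      by_contra hcon
      exact h.not011 p1 hne1 (by omega) (by omega) (by omega)
    by_cases c1 : (Lz B C a b c q z1).card = 1
    · exact h.case1 h4 c1 (by omega) (by omega) c4
    · -- rows (2,1,1,1)
      obtain ⟨i, i', hii, hL⟩ := card_eq_two.1 (by omega : (Lz B C a b c q z1).card = 2)
      obtain ⟨j2, hj2⟩ := card_pos.1 (by omega : 0 < (Lz B C a b c q z2).card)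
      obtain ⟨j3, hj3⟩ := card_pos.1 (by omega : 0 < (Lz B C a b c q z3).card)
      obtain ⟨j4, hj4⟩ := card_pos.1 (by omega : 0 < (Lz B C a b c q z4).card)
      have i14 := h.inc_of p1 w2 w3
      have p24 : Four Y z2 z4 z1 z3 := ⟨h4.mb, h4.md, h4.ma, h4.mc, h4.bd, h4.ab.symm, h4.bc,
        h4.ad.symm, h4.cd.symm, h4.ac, fun v hv => by have := h4.cov v hv; tauto⟩
      have i24 := h.inc_of p24 w1 w3
      have i34 := h.inc_of (z := z3) (z' := z4) (u := z1) (u' := z2) h4.rot.rot w1 w2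
      have hi : i ∈ Lz B C a b c q z1 := by rw [hL]; simp
      have hi' : i' ∈ Lz B C a b c q z1 := by rw [hL]; simp
      have h5 := h.nb2 (mem_Lz.1 hi).1 (mem_Lz.1 hi').1 hii (S := {j2, j3, j4}) (by
        intro k hk
        rw [mem_insert, mem_insert, mem_singleton] at hk
        rcases hk with rfl | rfl | rfl
        · exact ⟨(mem_Lz.1 hj2).1, (i12 i hi _ hj2).1.symm, (i12 i' hi' _ hj2).1.symm,
            (i12 i hi _ hj2).2, (i12 i' hi' _ hj2).2⟩
        · exact ⟨(mem_Lz.1 hj3).1, (i13 i hi _ hj3).1.symm, (i13 i' hi' _ hj3).1.symm,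
            (i13 i hi _ hj3).2, (i13 i' hi' _ hj3).2⟩
        · exact ⟨(mem_Lz.1 hj4).1, (i14 i hi _ hj4).1.symm, (i14 i' hi' _ hj4).1.symm,
            (i14 i hi _ hj4).2, (i14 i' hi' _ hj4).2⟩)
      rw [card_eq_three.2 ⟨j2, j3, j4, (i23 j2 hj2 j3 hj3).1, (i24 j2 hj2 j4 hj4).1,
        (i34 j3 hj3 j4 hj4).1, rfl⟩] at h5
      omega
  · by_cases c3 : (Lz B C a b c q z3).card = 0
    · exact h.case22 h4 (by omega) (by omega) c3 (by omega)
    · -- a third label
      obtain ⟨i, i', hii, hL⟩ := card_eq_two.1 (by omega : (Lz B C a b c q z1).card = 2)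
      obtain ⟨j3, hj3⟩ := card_pos.1 (by omega : 0 < (Lz B C a b c q z3).card)
      have hi : i ∈ Lz B C a b c q z1 := by rw [hL]; simp
      have hi' : i' ∈ Lz B C a b c q z1 := by rw [hL]; simp
      have h5 := h.nb2 (mem_Lz.1 hi).1 (mem_Lz.1 hi').1 hii (S := insert j3 (Lz B C a b c q z2)) (by
        intro k hk
        rcases mem_insert.1 hk with rfl | hk
        · exact ⟨(mem_Lz.1 hj3).1, (i13 i hi _ hj3).1.symm, (i13 i' hi' _ hj3).1.symm,
            (i13 i hi _ hj3).2, (i13 i' hi' _ hj3).2⟩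
        · exact ⟨(mem_Lz.1 hk).1, (i12 i hi _ hk).1.symm, (i12 i' hi' _ hk).1.symm,
            (i12 i hi _ hk).2, (i12 i' hi' _ hk).2⟩)
      rw [card_insert_of_notMem (fun hh => (i23 j3 hh j3 hj3).1 rfl)] at h5
      omega

end

end Pool.Agent.Hyp6
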