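import Pool.Agent.Hyp6.Q44c

/-!
# HYP6 Q44D: three rows with at least three labels, the step
-/

set_option autoImplicit false

namespace Pool.Agent.Hyp6

open Finset Pool.Agent.Hyp5

universe u v

section

variable {V : Type v} [DecidableEq V] {ι : Type u} [Fintype ι] {B : ι → Finset V}
  {Q C Y : Finset V} {a b c q : V} {o : ι}

omit [Fintype ι] in
/-- double counting. -/
theorem sum_lab (S : Finset ι) (Z : Finset V) :
    ∑ z ∈ Z, (S.filter (fun i => z ∈ B i)).card = ∑ i ∈ S, (Z.filter (fun z => z ∈ B i)).card := by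
  simp_rw [card_filter]
  exact sum_comm

/-- at most eleven labels. -/
theorem Fr.total (h : Fr B Q C Y a b c q o) :
    ∑ z ∈ Y, (Lz B C a b c q z).card ≤ 11 := by
  classical
  have h1 : ∑ z ∈ Y, (Lz B C a b c q z).card =
      ∑ i ∈ ins B C {a, b, c, q}, (Y.filter (fun z => z ∈ B i)).card := sum_lab _ _
  rw [h1]
  have h2 : ∑ i ∈ ins B C {a, b, c, q}, (Y.filter (fun z => z ∈ B i)).card ≤
      ∑ i ∈ ins B C {a, b, c, q}, (1 + if q ∉ B i then 1 else 0) := by
    refine sum_le_sum fun i hi => ?_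
    have h3 := h.cap hi
    split_ifs at h3 ⊢ <;> omega
  have h3 : ∑ i ∈ ins B C {a, b, c, q}, (1 + if q ∉ B i then 1 else 0) =
      7 + (NQ B C a b c q).card := by
    rw [sum_add_distrib, ← card_filter]
    simp only [sum_const, smul_eq_mul, mul_one]
    rw [h.card_ins]
    rfl
  have h4 := h.card_NQ
  omega

/-- the part of the row in a set of blocks. -/
def rw0 (B : ι → Finset V) (S : Finset ι) (z : V) : ℕ := (S.filter (fun i => z ∈ B i)).card

omit [Fintype ι] in
theorem rw0_le (S : Finset ι) (z : V) : rw0 B S z ≤ S.card := card_filter_le _ _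

omit [Fintype ι] in
theorem rw0_pos {S : Finset ι} {z : V} (h : 1 ≤ rw0 B S z) : ∃ i ∈ S, z ∈ B i := by
  obtain ⟨i, hi⟩ := card_pos.1 (by unfold rw0 at h; omega : 0 < (S.filter (fun i => z ∈ B i)).card)
  exact ⟨i, (mem_filter.1 hi).1, (mem_filter.1 hi).2⟩

omit [Fintype ι] in
/-- no block of `S` contains both. -/
theorem rw0_two {S : Finset ι} {x y : V} (h : ∀ i ∈ S, ¬ (x ∈ B i ∧ y ∈ B i)) :
    rw0 B S x + rw0 B S y ≤ S.card := by
  classical
  unfold rw0
  rw [← card_union_of_disjoint]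
  · exact card_le_card (union_subset (filter_subset _ _) (filter_subset _ _))
  · rw [disjoint_left]
    intro i hi hi'
    exact h i (mem_filter.1 hi).1 ⟨(mem_filter.1 hi).2, (mem_filter.1 hi').2⟩

omit [Fintype ι] in
/-- no block of `S` contains all three. -/
theorem rw0_three {S : Finset ι} {x y z : V} (h : ∀ i ∈ S, ¬ (x ∈ B i ∧ y ∈ B i ∧ z ∈ B i)) :
    rw0 B S x + rw0 B S y + rw0 B S z ≤ 2 * S.card := by
  classical
  unfold rw0
  have h1 := card_union_add_card_inter (S.filter (fun i => x ∈ B i)) (S.filter (fun i => y ∈ B i))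
  have h2 : ((S.filter (fun i => x ∈ B i)) ∩ (S.filter (fun i => y ∈ B i))).card +
      (S.filter (fun i => z ∈ B i)).card ≤ S.card := by
    rw [← card_union_of_disjoint]
    · refine card_le_card (union_subset ?_ (filter_subset _ _))
      exact inter_subset_left.trans (filter_subset _ _)
    · rw [disjoint_left]
      intro i hi hi'
      rw [mem_inter, mem_filter, mem_filter] at hi
      exact h i hi.1.1 ⟨hi.1.2, hi.2.2, (mem_filter.1 hi').2⟩
  have h3 : ((S.filter (fun i => x ∈ B i)) ∪ (S.filter (fun i => y ∈ B i))).card ≤ S.card :=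
    card_le_card (union_subset (filter_subset _ _) (filter_subset _ _))
  omega

omit [Fintype ι] in
/-- every block of `S` contains at most one. -/
theorem rw0_one {S : Finset ι} {x y z : V} (h1 : ∀ i ∈ S, ¬ (x ∈ B i ∧ y ∈ B i))
    (h2 : ∀ i ∈ S, ¬ (x ∈ B i ∧ z ∈ B i)) (h3 : ∀ i ∈ S, ¬ (y ∈ B i ∧ z ∈ B i)) :
    rw0 B S x + rw0 B S y + rw0 B S z ≤ S.card := by
  classical
  unfold rw0
  rw [← card_union_of_disjoint, ← card_union_of_disjoint]
  · exact card_le_card (union_subset (union_subset (filter_subset _ _) (filter_subset _ _))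
      (filter_subset _ _))
  · rw [disjoint_left]
    intro i hi hi'
    rcases mem_union.1 hi with hi | hi
    · exact h2 i (mem_filter.1 hi).1 ⟨(mem_filter.1 hi).2, (mem_filter.1 hi').2⟩
    · exact h3 i (mem_filter.1 hi).1 ⟨(mem_filter.1 hi).2, (mem_filter.1 hi').2⟩
  · rw [disjoint_left]
    intro i hi hi'
    exact h1 i (mem_filter.1 hi).1 ⟨(mem_filter.1 hi).2, (mem_filter.1 hi').2⟩

/-- the inner blocks with trace `bc`. -/
def Pbc (B : ι → Finset V) (C : Finset V) (a b c q : V) : Finset ι :=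
  (ins B C {a, b, c, q}).filter (fun i => B i ∩ ({a, b, c} : Finset V) = {b, c})

/-- the other inner blocks without `q`. -/
def Unq (B : ι → Finset V) (C : Finset V) (a b c q : V) : Finset ι :=
  (ins B C {a, b, c, q}).filter (fun i => B i ∩ ({a, b, c} : Finset V) ≠ {b, c} ∧ q ∉ B i)

/-- the inner blocks with `q`. -/
def Sqb (B : ι → Finset V) (C : Finset V) (a b c q : V) : Finset ι :=
  (ins B C {a, b, c, q}).filter (fun i => q ∈ B i)

theorem Fr.card_Pbc (h : Fr B Q C Y a b c q o) : (Pbc B C a b c q).card = 3 := by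
  classical
  rw [← h.t3.nbc]
  congr 1
  ext i
  rw [Pbc, mem_filter, mem_filter]
  refine ⟨fun h1 => ⟨mem_univ _, h1.2⟩, fun h1 => ⟨?_, h1.2⟩⟩
  have hne : (B i ∩ ({a, b, c} : Finset V)).Nonempty := by rw [h1.2]; simp
  have hio : i ≠ o := by
    rintro rfl
    have h2 := h.g.o_eq h.hT h.e
    rw [h1.2] at h2
    have : c ∈ ({a} : Finset V) := h2 ▸ (by simp)
    rw [mem_singleton] at this
    exact h.t3.ac this.symm
  refine mem_ins.2 ⟨?_, h.g.ins i hio hne⟩
  exact hne.mono (inter_subset_inter_left (A_sub_W.trans h.g.sub))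

theorem Fr.bc_q (h : Fr B Q C Y a b c q o) {i : ι} (hi : i ∈ Pbc B C a b c q) : q ∉ B i := by
  intro hq
  rw [Pbc, mem_filter] at hi
  rcases h.trq hi.1 hq with h1 | h1
  · rw [hi.2] at h1
    have : c ∈ ({a, b} : Finset V) := h1 ▸ (by simp)
    rw [mem_insert, mem_singleton] at this
    exact this.elim (fun e => h.t3.ac e.symm) (fun e => h.t3.bc e.symm)
  · rw [hi.2] at h1
    have : b ∈ ({a, c} : Finset V) := h1 ▸ (by simp)
    rw [mem_insert, mem_singleton] at this
    exact this.elim (fun e => h.t3.ab e.symm) h.t3.bc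

theorem Fr.cards (h : Fr B Q C Y a b c q o) :
    (Unq B C a b c q).card ≤ 1 ∧ (Unq B C a b c q).card + (Sqb B C a b c q).card = 4 := by
  classical
  have h1 : (NQ B C a b c q).card = (Pbc B C a b c q).card + (Unq B C a b c q).card := by
    rw [← card_union_of_disjoint]
    · congr 1
      ext i
      rw [mem_union, NQ, Unq, mem_filter, mem_filter]
      constructor
      · rintro ⟨h1, h2⟩
        by_cases h3 : B i ∩ ({a, b, c} : Finset V) = {b, c}
        · exact Or.inl (mem_filter.2 ⟨h1, h3⟩)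
        · exact Or.inr ⟨h1, h3, h2⟩
      · rintro (h1 | h1)
        · exact ⟨(mem_filter.1 h1).1, h.bc_q h1⟩
        · exact ⟨h1.1, h1.2.2⟩
    · rw [disjoint_left]
      intro i hi hi'
      exact (mem_filter.1 hi').2.1 (mem_filter.1 hi).2
  have h2 : (Sqb B C a b c q).card + (NQ B C a b c q).card = 7 := by
    rw [← h.card_ins, ← card_filter_add_card_filter_not (s := ins B C {a, b, c, q})
      (fun i => q ∈ B i)]
    rfl
  have h3 := h.card_NQ
  have h4 := h.card_Pbc
  omega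

theorem Fr.row_le (_h : Fr B Q C Y a b c q o) (z : V) : (Lz B C a b c q z).card ≤
    rw0 B (Pbc B C a b c q) z + rw0 B (Unq B C a b c q) z + rw0 B (Sqb B C a b c q) z := by
  classical
  unfold rw0
  refine (card_le_card ?_).trans ((card_union_le _ _).trans
    (Nat.add_le_add_right (card_union_le _ _) _))
  intro i hi
  rw [mem_Lz] at hi
  rw [mem_union, mem_union, mem_filter, mem_filter, mem_filter, Pbc, Unq, Sqb, mem_filter,
    mem_filter, mem_filter]
  by_cases h1 : q ∈ B i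
  · exact Or.inr ⟨⟨hi.1, h1⟩, hi.2⟩
  · by_cases h2 : B i ∩ ({a, b, c} : Finset V) = {b, c}
    · exact Or.inl (Or.inl ⟨⟨hi.1, h2⟩, hi.2⟩)
    · exact Or.inl (Or.inr ⟨⟨hi.1, h2, h1⟩, hi.2⟩)

theorem Fr.ok_bc (h : Fr B Q C Y a b c q o) {i j : ι} (hi : i ∈ Pbc B C a b c q)
    (hj : j ∈ Sqb B C a b c q) : Okb B a b c q i j := by
  rw [Pbc, mem_filter] at hi
  rw [Sqb, mem_filter] at hj
  refine ⟨?_, Or.inr hj.2⟩
  intro he
  have h1 : j ∈ Pbc B C a b c q := mem_filter.2 ⟨hj.1, he ▸ hi.2⟩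
  exact h.bc_q h1 hj.2

/-- the three rows: no `Okb` pair takes all three. -/
def Rf (B : ι → Finset V) (C : Finset V) (a b c q x y z : V) : Prop :=
  ∀ i ∈ ins B C {a, b, c, q}, ∀ j ∈ ins B C {a, b, c, q}, Okb B a b c q i j →
    ¬ ((x ∈ B i ∨ x ∈ B j) ∧ (y ∈ B i ∨ y ∈ B j) ∧ (z ∈ B i ∨ z ∈ B j))

theorem Rf.rot {x y z : V} (h : Rf B C a b c q x y z) : Rf B C a b c q y z x :=
  fun i hi j hj hij hh => h i hi j hj hij ⟨hh.2.2, hh.1, hh.2.1⟩

theorem Rf.swap {x y z : V} (h : Rf B C a b c q x y z) : Rf B C a b c q y x z :=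
  fun i hi j hj hij hh => h i hi j hj hij ⟨hh.2.1, hh.1, hh.2.2⟩

/-- if `x` has a label on a block with `q`, then no `bc` block contains `y` and `z`. -/
theorem Fr.no_bc (h : Fr B Q C Y a b c q o) {x y z : V} (hR : Rf B C a b c q x y z)
    (hs : 1 ≤ rw0 B (Sqb B C a b c q) x) :
    ∀ i ∈ Pbc B C a b c q, ¬ (y ∈ B i ∧ z ∈ B i) := by
  rintro i hi ⟨h1, h2⟩
  obtain ⟨j, hj, hxj⟩ := rw0_pos hs
  exact hR i (mem_filter.1 hi).1 j (mem_filter.1 hj).1 (h.ok_bc hi hj)
    ⟨Or.inr hxj, Or.inl h1, Or.inl h2⟩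

/-- the data of the three points. -/
structure Tp (B : ι → Finset V) (C Y : Finset V) (a b c q x y z : V) : Prop where
  mx : x ∈ Y
  my : y ∈ Y
  mz : z ∈ Y
  xy : x ≠ y
  xz : x ≠ z
  yz : y ≠ z
  wx : 3 ≤ (Lz B C a b c q x).card
  wy : 3 ≤ (Lz B C a b c q y).card
  wz : 3 ≤ (Lz B C a b c q z).card
  R : Rf B C a b c q x y z

theorem Tp.rot {x y z : V} (h : Tp B C Y a b c q x y z) : Tp B C Y a b c q y z x :=
  ⟨h.my, h.mz, h.mx, h.yz, h.xy.symm, h.xz.symm, h.wy, h.wz, h.wx, h.R.rot⟩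

theorem Tp.swap {x y z : V} (h : Tp B C Y a b c q x y z) : Tp B C Y a b c q y x z :=
  ⟨h.my, h.mx, h.mz, h.xy.symm, h.yz, h.xz, h.wy, h.wx, h.wz, h.R.swap⟩

/-- the last configuration: the block without `q` contains `x` and `z`. -/
theorem Fr.lastU (h : Fr B Q C Y a b c q o) {x y z : V} (t : Tp B C Y a b c q x y z)
    (hux : 1 ≤ rw0 B (Unq B C a b c q) x) (huz : 1 ≤ rw0 B (Unq B C a b c q) z)
    (hsy : 2 ≤ rw0 B (Sqb B C a b c q) y) : False := by
  classical
  obtain ⟨k, hk, hxk⟩ := rw0_pos hux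
  obtain ⟨k', hk', hzk'⟩ := rw0_pos huz
  have hkk : k = k' := card_le_one.1 h.cards.1 k hk k' hk'
  subst hkk
  have hk0 := mem_filter.1 hk
  obtain ⟨i, hi, hik⟩ : ∃ i ∈ (Sqb B C a b c q).filter (fun i => y ∈ B i),
      B k ∩ ({a, b, c} : Finset V) ≠ B i ∩ ({a, b, c} : Finset V) := by
    by_contra hcon
    push Not at hcon
    obtain ⟨i0, hi0⟩ := card_pos.1 (by unfold rw0 at hsy; omega :
      0 < ((Sqb B C a b c q).filter (fun i => y ∈ B i)).card)
    have hi0' := mem_filter.1 (mem_filter.1 hi0).1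
    have h1 : (insert k ((Sqb B C a b c q).filter (fun i => y ∈ B i))).card ≤ 2 := by
      refine h.cls hi0'.1 hi0'.2 fun j hj => ?_
      rcases mem_insert.1 hj with rfl | hj
      · exact hcon i0 hi0
      · rw [← hcon j hj, hcon i0 hi0]
    rw [card_insert_of_notMem] at h1
    · unfold rw0 at hsy
      omega
    · intro hh
      exact hk0.2.2 (mem_filter.1 (mem_filter.1 hh).1).2
  have hi1 := mem_filter.1 hi
  have hi2 := mem_filter.1 hi1.1
  exact t.R k hk0.1 i hi2.1 ⟨hik, Or.inr hi2.2⟩ ⟨Or.inl hxk, Or.inr hi1.2, Or.inl hzk'⟩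

/-- two of the three rows have labels on the blocks with `q`. -/
theorem Fr.lam2 (h : Fr B Q C Y a b c q o) {x y z : V} (t : Tp B C Y a b c q x y z)
    (hU : (Unq B C a b c q).card = 1)
    (hx : 1 ≤ rw0 B (Sqb B C a b c q) x) (hy : 1 ≤ rw0 B (Sqb B C a b c q) y)
    (hz : rw0 B (Sqb B C a b c q) z = 0) : False := by
  have hc := h.cards
  have hP := h.card_Pbc
  have r1 := h.row_le x
  have r2 := h.row_le y
  have r3 := h.row_le z
  have w1 := t.wx
  have w2 := t.wy
  have w3 := t.wz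
  have n1 := rw0_two (h.no_bc t.R hx)
  have n2 := rw0_two (h.no_bc t.R.swap hy)
  have s1 := rw0_one (S := Sqb B C a b c q) (x := x) (y := y) (z := z)
    (fun i hi hh => h.no2 (mem_filter.1 hi).1 (mem_filter.1 hi).2 t.mx t.my t.xy hh.1 hh.2)
    (fun i hi hh => h.no2 (mem_filter.1 hi).1 (mem_filter.1 hi).2 t.mx t.mz t.xz hh.1 hh.2)
    (fun i hi hh => h.no2 (mem_filter.1 hi).1 (mem_filter.1 hi).2 t.my t.mz t.yz hh.1 hh.2)
  have u1 := rw0_three (S := Unq B C a b c q) (x := x) (y := y) (z := z)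
    (fun i hi hh => h.no3 (mem_filter.1 hi).1 t.mx t.my t.mz t.xy t.xz t.yz hh.1 hh.2.1 hh.2.2)
  have c1 := rw0_le (B := B) (Unq B C a b c q) x
  have c2 := rw0_le (B := B) (Unq B C a b c q) y
  have c3 := rw0_le (B := B) (Unq B C a b c q) z
  by_cases hux : 1 ≤ rw0 B (Unq B C a b c q) x
  · exact h.lastU t hux (by omega) (by omega)
  · exact h.lastU t.swap (by omega) (by omega) (by omega)

/-- three rows with at least three labels: some pair takes all three. -/
theorem Fr.lam (h : Fr B Q C Y a b c q o) {x y z : V} (t : Tp B C Y a b c q x y z) : False := by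
  have hc := h.cards
  have hP := h.card_Pbc
  have r1 := h.row_le x
  have r2 := h.row_le y
  have r3 := h.row_le z
  have w1 := t.wx
  have w2 := t.wy
  have w3 := t.wz
  have s1 := rw0_one (S := Sqb B C a b c q) (x := x) (y := y) (z := z)
    (fun i hi hh => h.no2 (mem_filter.1 hi).1 (mem_filter.1 hi).2 t.mx t.my t.xy hh.1 hh.2)
    (fun i hi hh => h.no2 (mem_filter.1 hi).1 (mem_filter.1 hi).2 t.mx t.mz t.xz hh.1 hh.2)
    (fun i hi hh => h.no2 (mem_filter.1 hi).1 (mem_filter.1 hi).2 t.my t.mz t.yz hh.1 hh.2)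
  have u1 := rw0_three (S := Unq B C a b c q) (x := x) (y := y) (z := z)
    (fun i hi hh => h.no3 (mem_filter.1 hi).1 t.mx t.my t.mz t.xy t.xz t.yz hh.1 hh.2.1 hh.2.2)
  have p1 := rw0_three (S := Pbc B C a b c q) (x := x) (y := y) (z := z)
    (fun i hi hh => h.no3 (mem_filter.1 hi).1 t.mx t.my t.mz t.xy t.xz t.yz hh.1 hh.2.1 hh.2.2)
  have c1 := rw0_le (B := B) (Unq B C a b c q) x
  have c2 := rw0_le (B := B) (Unq B C a b c q) y
  have c3 := rw0_le (B := B) (Unq B C a b c q) z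
  rcases Nat.lt_or_ge (Unq B C a b c q).card 1 with hU | hU
  · -- no block without `q`
    have key : ∀ {x y z : V}, Tp B C Y a b c q x y z → ∀ i ∈ Pbc B C a b c q,
        ¬ (y ∈ B i ∧ z ∈ B i) := by
      intro x y z t i hi hh
      have r0 := h.row_le x
      have w0 := t.wx
      have c0 := rw0_le (B := B) (Unq B C a b c q) x
      by_cases hs : 1 ≤ rw0 B (Sqb B C a b c q) x
      · exact h.no_bc t.R hs i hi hh
      · have hp : (Pbc B C a b c q).card ≤ rw0 B (Pbc B C a b c q) x := by omega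
        have hall := eq_of_subset_of_card_le (filter_subset (fun i => x ∈ B i) _) hp
        have hxi : i ∈ (Pbc B C a b c q).filter (fun i => x ∈ B i) := by rw [hall]; exact hi
        exact h.no3 (mem_filter.1 hi).1 t.mx t.my t.mz t.xy t.xz t.yz (mem_filter.1 hxi).2 hh.1 hh.2
    have p2 := rw0_one (S := Pbc B C a b c q) (x := x) (y := y) (z := z)
      (key t.rot.rot) (fun i hi hh => key t.rot i hi ⟨hh.2, hh.1⟩) (key t)
    omega
  · have hU1 : (Unq B C a b c q).card = 1 := le_antisymm hc.1 hU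
    by_cases hx : 1 ≤ rw0 B (Sqb B C a b c q) x <;> by_cases hy : 1 ≤ rw0 B (Sqb B C a b c q) y <;>
      by_cases hz : 1 ≤ rw0 B (Sqb B C a b c q) z
    · have p2 := rw0_one (S := Pbc B C a b c q) (x := x) (y := y) (z := z)
        (h.no_bc t.rot.rot.R hz) (h.no_bc t.swap.R hy) (h.no_bc t.R hx)
      omega
    · exact h.lam2 t hU1 hx hy (by omega)
    · exact h.lam2 t.rot.rot hU1 hz hx (by omega)
    · have n1 := rw0_two (h.no_bc t.R hx)
      omega
    · exact h.lam2 t.rot hU1 hy hz (by omega)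
    · have n1 := rw0_two (h.no_bc t.swap.R hy)
      omega
    · have n1 := rw0_two (h.no_bc t.rot.rot.R hz)
      omega
    · omega

/-- three rows with at least three labels: impossible. -/
theorem Fr.three3 (h : Fr B Q C Y a b c q o) {x y z u : V} (h4 : Four Y x y z u)
    (wx : 3 ≤ (Lz B C a b c q x).card) (wy : 3 ≤ (Lz B C a b c q y).card)
    (wz : 3 ≤ (Lz B C a b c q z).card) : False := by
  classical
  have ht := h.total
  have hY : Y = {x, y, z, u} := by
    ext v
    simp only [mem_insert, mem_singleton]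
    constructor
    · exact h4.cov v
    · rintro (rfl | rfl | rfl | rfl)
      · exact h4.ma
      · exact h4.mb
      · exact h4.mc
      · exact h4.md
  rw [hY, sum_insert (by simp [h4.ab, h4.ac, h4.ad]), sum_insert (by simp [h4.bc, h4.bd]),
    sum_insert (by simp [h4.cd]), sum_singleton] at ht
  have hu := h.four h4.md
  refine h.lam (x := x) (y := y) (z := z) ⟨h4.ma, h4.mb, h4.mc, h4.ab, h4.ac, h4.bc, wx, wy, wz, ?_⟩
  intro i hi j hj hij hh
  refine h.ref hi hj hij (S := {u}) ?_ (h.d1 (by omega))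
  intro v hv hvS
  rw [mem_singleton] at hvS
  rcases h4.cov v hv with rfl | rfl | rfl | rfl
  · exact hh.1
  · exact hh.2.1
  · exact hh.2.2
  · exact absurd rfl hvS

/-- four elements sorted by a function. -/
theorem sort4 {Z : Finset V} (hc : Z.card = 4) (f : V → ℕ) : ∃ z1 z2 z3 z4, Four Z z1 z2 z3 z4 ∧
    f z2 ≤ f z1 ∧ f z3 ≤ f z2 ∧ f z4 ≤ f z3 := by
  classical
  have h1 : Z.Nonempty := card_pos.1 (by omega)
  obtain ⟨z1, m1, g1⟩ := exists_max_image Z f h1
  have c1 := card_erase_of_mem m1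
  have h2 : (Z.erase z1).Nonempty := card_pos.1 (by omega)
  obtain ⟨z2, m2, g2⟩ := exists_max_image (Z.erase z1) f h2
  have c2 := card_erase_of_mem m2
  have h3 : ((Z.erase z1).erase z2).Nonempty := card_pos.1 (by omega)
  obtain ⟨z3, m3, g3⟩ := exists_max_image ((Z.erase z1).erase z2) f h3
  have c3 := card_erase_of_mem m3
  obtain ⟨z4, m4⟩ := card_eq_one.1 (by omega : (((Z.erase z1).erase z2).erase z3).card = 1)
  have m4' : z4 ∈ ((Z.erase z1).erase z2).erase z3 := by rw [m4]; simp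
  have k4 := m4'
  have k3 := m3
  have k2 := m2
  simp only [mem_erase] at k4 k3 k2
  refine ⟨z1, z2, z3, z4, ⟨m1, k2.2, k3.2.2, k4.2.2.2, fun e => k2.1 e.symm, fun e => k3.2.1 e.symm,
    fun e => k4.2.2.1 e.symm, fun e => k3.1 e.symm, fun e => k4.2.1 e.symm, fun e => k4.1 e.symm,
    fun v hv => ?_⟩, g1 z2 k2.2, g2 z3 (mem_erase.2 ⟨k3.2.1, k3.2.2⟩), g3 z4 (mem_erase.1 m4').2⟩
  by_cases e1 : v = z1
  · exact Or.inl e1
  by_cases e2 : v = z2
  · exact Or.inr (Or.inl e2)
  by_cases e3 : v = z3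
  · exact Or.inr (Or.inr (Or.inl e3))
  have : v ∈ ((Z.erase z1).erase z2).erase z3 :=
    mem_erase.2 ⟨e3, mem_erase.2 ⟨e2, mem_erase.2 ⟨e1, hv⟩⟩⟩
  rw [m4, mem_singleton] at this
  exact Or.inr (Or.inr (Or.inr this))

/-- the frame is contradictory. -/
theorem Fr.false (h : Fr B Q C Y a b c q o) : False := by
  classical
  obtain ⟨z1, z2, z3, z4, h4, g1, g2, g3⟩ := sort4 h.cY (fun z => (Lz B C a b c q z).card)
  by_cases c3 : 3 ≤ (Lz B C a b c q z3).card
  · exact h.three3 h4 (by omega) (by omega) c3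
  by_cases c2 : 3 ≤ (Lz B C a b c q z2).card
  · exact h.two3 h4 (by omega) c2 (by omega) (by omega)
  by_cases c1 : 3 ≤ (Lz B C a b c q z1).card
  · exact h.one3 h4 c1 (by omega) (by omega) (by omega)
  by_cases c0 : 1 ≤ (Lz B C a b c q z1).card
  · exact h.small h4 (by omega) (by omega) (by omega) (by omega) g1 g2 g3 c0
  · -- no labels
    have hall : ∀ y ∈ Y, 4 ≤ (Ez B (C \ {a, b, c, q}) y).card := by
      intro y hy
      have h5 := h.four hy
      rcases h4.cov y hy with rfl | rfl | rfl | rfl <;> omega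
    obtain ⟨i, hi⟩ := card_pos.1 (by rw [h.card_Pbc]; norm_num : 0 < (Pbc B C a b c q).card)
    have hi' := (mem_filter.1 hi).1
    exact h.ref' hi' hi' (Or.inl rfl) (fun y hy hyY => absurd hy hyY) (h.ind hall)

/-- THE STEP: if the rest of a good gadget absorbs four points with four hits, so does `C`. -/
theorem step44 (hT : HT.{u} V) (hr : Reg B Q) (h4 : Tr4 B Q) (hCQ : C ⊆ Q) (hC : EE B C)
    (hg : GGad B C a b c q o) (hYQ : Y ⊆ Q) (hd : Disjoint C Y) (hY : Y.card = 4)
    (hE : ∀ y ∈ Y, 4 ≤ (Ez B C y).card)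
    (ind : (∀ y ∈ Y, 4 ≤ (Ez B (C \ {a, b, c, q}) y).card) → Abz B (C \ {a, b, c, q}) Y) :
    Abz B C Y := by
  by_contra hcon
  exact Fr.false (Q := Q) ⟨hT, hr, h4, hCQ, hC, hg, hYQ, hd, hY, hE, ind, hcon⟩

end

end Pool.Agent.Hyp6
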