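import Pool.Agent.Hyp6.QTy

/-!
# HYP6 QFCT: closings for the class E
-/

set_option autoImplicit false

namespace Pool.Agent.Hyp6

open Finset Pool.Agent.Hyp5

universe u v

section

variable {V : Type v} [DecidableEq V] {ι : Type u} {B : ι → Finset V} {M C D : Finset V}

/-- all the blocks of an optimal cover of `M` meet `M`. -/
theorem mem_of_opt {T : Finset ι} (h1 : M ⊆ T.biUnion B) (h2 : T.card ≤ rho B M) {i : ι}
    (hi : i ∈ T) : (B i ∩ M).Nonempty := by
  classical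
  by_contra hcon
  rw [not_nonempty_iff_eq_empty] at hcon
  have h3 : M ⊆ (T.erase i).biUnion B := by
    intro v hv
    obtain ⟨j, hj, hvj⟩ := mem_biUnion.1 (h1 hv)
    refine mem_biUnion.2 ⟨j, mem_erase.2 ⟨?_, hj⟩, hvj⟩
    rintro rfl
    have : v ∈ B j ∩ M := mem_inter.2 ⟨hvj, hv⟩
    rw [hcon] at this
    exact absurd this (notMem_empty v)
  have h4 := rho_le h3
  have h5 := card_erase_add_one hi
  omega

/-- in a critical system every block is in an optimal cover. -/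
theorem Crit.cmp [Fintype ι] (hcr : Crit B M) (hc : Cov B M) {i : ι} (hi : (B i ∩ M).Nonempty) :
    Cmp B M i i := by
  obtain ⟨T, h1, h2, h3⟩ := hcr.blkT hc hi
  exact ⟨T, h1, h2, h3, h3⟩

theorem Crit.blk [Fintype ι] (hc : Cov B M) (hcr : Crit B M) {i : ι} (hi : (B i ∩ M).Nonempty) :
    Cmp B M i i := hcr.cmp hc hi

/-- a block hitting two groups absorbs both. -/
theorem cmp_self_ab {E1 E2 : Finset ι} {i : ι} (h : Cmp B M i i) (h1 : i ∈ E1) (h2 : i ∈ E2) :
    Ab B M [E1, E2] := ab_two.2 ⟨i, h1, i, h2, h⟩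

theorem ab_one [Fintype ι] {E : Finset ι} (hcr : Crit B M) (hc : Cov B M) {i : ι} (hi : (B i ∩ M).Nonempty)
    (hiE : i ∈ E) : Ab B M [E] := by
  obtain ⟨T, h1, h2, h3⟩ := hcr.blkT hc hi
  refine ⟨T, h1, h2, fun E' hE' => ?_⟩
  rw [List.mem_singleton] at hE'
  subst hE'
  exact ⟨i, h3, hiE⟩

theorem ab_three {E1 E2 E3 : Finset ι} (h : ∃ T : Finset ι, M ⊆ T.biUnion B ∧ T.card ≤ rho B M ∧
    (∃ i ∈ T, i ∈ E1) ∧ (∃ i ∈ T, i ∈ E2) ∧ (∃ i ∈ T, i ∈ E3)) : Ab B M [E1, E2, E3] := by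
  obtain ⟨T, h1, h2, h3, h4, h5⟩ := h
  refine ⟨T, h1, h2, fun E hE => ?_⟩
  rw [List.mem_cons, List.mem_cons, List.mem_cons] at hE
  rcases hE with rfl | rfl | rfl | hE
  · exact h3
  · exact h4
  · exact h5
  · exact absurd hE (by simp)

/-- absorption of real points and absorption of sets of blocks. -/
theorem abz_of_ab [Fintype ι] {A : Finset V} {L : List (Finset ι)} (h : Ab B M L)
    (hA : ∀ z ∈ A, ∃ E ∈ L, E ⊆ Ez B M z) : Abz B M A := by
  obtain ⟨T, h1, h2, h3⟩ := h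
  refine ⟨T, union_subset h1 fun z hz => ?_, h2⟩
  obtain ⟨E, hE, hEz⟩ := hA z hz
  obtain ⟨i, hi, hiE⟩ := h3 E hE
  exact mem_biUnion.2 ⟨i, hi, (mem_Ez.1 (hEz hiE)).1⟩

theorem ab_of_abz [Fintype ι] {A : Finset V} {L : List (Finset ι)} (h : Abz B M A)
    (hA : ∀ E ∈ L, ∃ z ∈ A, Ez B M z ⊆ E) : Ab B M L := by
  obtain ⟨T, h1, h2⟩ := h
  have h1' : M ⊆ T.biUnion B := (subset_union_left).trans h1
  refine ⟨T, h1', h2, fun E hE => ?_⟩
  obtain ⟨z, hz, hzE⟩ := hA E hE
  obtain ⟨i, hi, hzi⟩ := mem_biUnion.1 (h1 (mem_union_right _ hz))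
  exact ⟨i, hi, hzE (mem_Ez.2 ⟨hzi, mem_of_opt h1' h2 hi⟩)⟩

theorem abz_iff_ab [Fintype ι] {y z : V} : Abz B M {y, z} ↔ Ab B M [Ez B M y, Ez B M z] := by
  constructor
  · intro h
    refine ab_of_abz h fun E hE => ?_
    rw [List.mem_cons, List.mem_cons] at hE
    rcases hE with rfl | rfl | hE
    · exact ⟨y, by simp, Subset.refl _⟩
    · exact ⟨z, by simp, Subset.refl _⟩
    · exact absurd hE (by simp)
  · intro h
    refine abz_of_ab h fun w hw => ?_
    rw [mem_insert, mem_singleton] at hw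
    rcases hw with rfl | rfl
    · exact ⟨_, by simp, Subset.refl _⟩
    · exact ⟨_, by simp, Subset.refl _⟩

theorem Eg_mono [Fintype ι] {G G' : Finset V} (h : G ⊆ G') : Eg B M G ⊆ Eg B M G' := by
  intro i hi
  rw [mem_Eg] at hi ⊢
  exact ⟨hi.1, hi.2.mono (inter_subset_inter_left h)⟩

variable [Fintype ι]

theorem CK.mono {W : Finset V} (h : CK B M) (hW : W ⊆ M) (hc : Conn (gr B) W) : CK B W :=
  ⟨h.reg.mono hW, h.tr4.mono hW, h.kf.mono hW, hc⟩

theorem CK.ge (hT : HT.{u} V) (h : CK B M) : -1 + 2 * (ee B M M : ℤ) ≤ Pv B M :=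
  hT (M.card + 1) ι B M (Nat.lt_succ_self _) h.reg h.tr4 h.conn h.kf

theorem CK.ge' (hT : HT.{u} V) (h : CK B M) : -1 ≤ Pv B M := by
  have h1 := h.ge hT
  have h2 : (0 : ℤ) ≤ ee B M M := by positivity
  linarith

/-- a connected K-free system with negative value is critical. -/
theorem CK.crit (hT : HT.{u} V) (h : CK B M) (hp : Pv B M ≤ -1) : Crit B M := by
  classical
  intro x hx
  have hcov := h.cov
  by_contra hxr
  have hrho : rho B (M.erase x) = rho B M := by
    have h1 := rho_le_erase (x := x) hcov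
    have h2 := rho_erase_le (x := x) hcov
    omega
  obtain ⟨K, hK1, hK2, hK3⟩ := exists_parts B (M.erase x)
  have hcard := card_comps_le h.reg hx h.conn hK1 hK2
  have hxs : ({x} : Finset V) ⊆ M := singleton_subset_iff.2 hx
  have hKQ : ∀ C ∈ K, C ⊆ M := fun C hC => (hK1 C hC).1.trans (erase_subset _ _)
  have hKcov : ∀ C ∈ K, Cov B C := fun C hC => hcov.mono (hKQ C hC)
  have hval : ∀ C ∈ K, -1 ≤ Pv B C := fun C hC =>
    (h.mono (hKQ C hC) (hK1 C hC).2.2).ge' hT
  have he : M \ {x} = K.biUnion id := by rw [hK3, sdiff_singleton_eq_erase]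
  have h2 := Pv_sdiff (B := B) hxs
  rw [he, Pv_biUnion hKcov hK2, card_singleton] at h2
  have hr' : rho B (K.biUnion id) = rho B M := by rw [hK3, hrho]
  rw [hr'] at h2
  have h6 : ∑ C ∈ K, (-1 : ℤ) ≤ ∑ C ∈ K, Pv B C := sum_le_sum fun C hC => hval C hC
  rw [sum_const, nsmul_eq_mul] at h6
  have c2 : (K.card : ℤ) + (ins B M {x}).card ≤ 5 := by exact_mod_cast hcard
  have c4 : (0 : ℤ) ≤ (ins B M {x}).card := by positivity
  push_cast at h2
  linarith

/-- the members of E. -/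
theorem EE.of (hT : HT.{u} V) (h : CK B M) (hp : Pv B M = -1) (hs : sv B M = -1) : EE B M :=
  ⟨h, h.crit hT (by linarith), hs, hp⟩

/-- new points with two new single blocks are counted. -/
theorem AbsD.ee_ge0 {κ : Type} [Fintype κ] {Y : Finset V} {E : V → Finset ι} {N : κ → Finset V}
    (h : AbsD B M Y E N) {Y2 : Finset V} (hY2 : Y2 ⊆ Y)
    (hN2 : ∀ y ∈ Y2, 2 ≤ (univ.filter (fun c => N c = {y})).card) :
    Y2.card ≤ ee (absG B M Y E N) (M ∪ Y) (M ∪ Y) := by
  classical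
  unfold ee
  refine card_le_card fun t ht => ?_
  rw [mem_filter]
  refine ⟨mem_union_right _ (hY2 ht), ?_⟩
  rw [card_filter_sum]
  refine le_trans ((hN2 t ht).trans (card_le_card fun c hc => ?_)) (Nat.le_add_left _ _)
  rw [mem_filter] at hc ⊢
  refine ⟨mem_univ _, ?_⟩
  rw [h.inter_self]
  exact hc.2

/-- a refusal gives a lower bound for the value. -/
theorem AbsD.refuse {κ : Type} [Fintype κ] (hT : HT.{u} V) {Y : Finset V} {E : V → Finset ι}
    {N : κ → Finset V} (h : AbsD B M Y E N) (hM : CK B M)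
    (hn : ∀ T : Finset ι, M ⊆ T.biUnion B → T.card ≤ rho B M → ∃ y ∈ Y, ∀ i ∈ T, i ∉ E y)
    {Y2 : Finset V} (hY2 : Y2 ⊆ Y)
    (hN2 : ∀ y ∈ Y2, 2 ≤ (univ.filter (fun c => N c = {y})).card) :
    23 + 2 * (Y2.card : ℤ) ≤ Pv B M + 5 * (Y.card : ℤ) + 4 * (Fintype.card κ : ℤ) := by
  classical
  have hreg := h.reg hM.reg
  have h1 : rho B M + 1 ≤ rho (absG B M Y E N) (M ∪ Y) := by
    refine h.rho_ge (cov_of_reg hreg) fun T K hT hK => ?_
    have h2 := rho_le hT
    rcases K.eq_empty_or_nonempty with rfl | hKne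
    · by_contra h3
      have h4 : T.card ≤ rho B M := by
        rw [card_empty] at h3
        omega
      obtain ⟨y, hy, h5⟩ := hn T hT h4
      rcases hK y hy with ⟨i, hi, hiE⟩ | ⟨c, hc, _⟩
      · exact h5 i hi hiE
      · exact absurd hc (notMem_empty _)
    · have := card_pos.2 hKne
      omega
  have h2 := hT ((M ∪ Y).card + 1) (ι ⊕ κ) (absG B M Y E N) (M ∪ Y)
    (Nat.lt_succ_self _) hreg h.tr4 (h.conn hM.conn) (h.kfree hM.reg hM.kf)
  rw [h.Pv_eq] at h2
  have h3 : ((rho B M : ℕ) : ℤ) + 1 ≤ rho (absG B M Y E N) (M ∪ Y) := by exact_mod_cast h1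
  have h4 := h.ee_ge0 hY2 hN2
  have h5 : (Y2.card : ℤ) ≤ ee (absG B M Y E N) (M ∪ Y) (M ∪ Y) := by exact_mod_cast h4
  linarith

open Classical in
/-- the closing with two new points. -/
theorem CK.ref0 (hT : HT.{u} V) (h : CK B M) {w1 w2 : V} (hw1 : w1 ∉ M) (hw2 : w2 ∉ M)
    (h12 : w1 ≠ w2) {E1 E2 : Finset ι} (h1 : ∀ i ∈ E1, (B i ∩ M).Nonempty)
    (h2 : ∀ i ∈ E2, (B i ∩ M).Nonempty)
    (hs : ∀ i, (B i ∩ M).card + (if i ∈ E1 then 1 else 0) + (if i ∈ E2 then 1 else 0) ≤ 4)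
    (hc : 1 ≤ E2.card) (h21 : E2.card ≤ E1.card) (h14 : E1.card ≤ 4)
    (hn : ¬ Ab B M [E1, E2]) :
    4 * (E2.card : ℤ) - 7 + (if E2.card + 2 ≤ E1.card then 2 else 0) ≤ Pv B M := by
  set E : V → Finset ι := fun y => if y = w1 then E1 else E2 with hE
  have hEw1 : E w1 = E1 := by simp [hE]
  have hEw2 : E w2 = E2 := by simp [hE, h12.symm]
  set N : Fin (5 - E1.card) ⊕ Fin (E1.card - E2.card) → Finset V :=
    Sum.elim (fun _ => {w1, w2}) (fun _ => {w2}) with hN
  have hN1 : ∀ c, N (Sum.inl c) = {w1, w2} := fun c => rfl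
  have hN2 : ∀ c, N (Sum.inr c) = {w2} := fun c => rfl
  have hY : ∀ y ∈ ({w1, w2} : Finset V), y = w1 ∨ y = w2 := by
    intro y hy
    rwa [mem_insert, mem_singleton] at hy
  have hab : AbsD B M {w1, w2} E N := by
    refine ⟨?_, ?_, ?_, ?_, ?_, ?_, ?_, ?_, ?_⟩
    · rw [disjoint_right]
      intro y hy
      rcases hY y hy with rfl | rfl
      · exact hw1
      · exact hw2
    · intro y hy i hi
      rcases hY y hy with rfl | rfl
      · rw [hEw1] at hi
        exact h1 i hi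
      · rw [hEw2] at hi
        exact h2 i hi
    · intro y hy
      rcases hY y hy with rfl | rfl
      · rw [hEw1, ← card_pos]
        omega
      · rw [hEw2, ← card_pos]
        omega
    · rintro (c | c)
      · rw [hN1]
      · rw [hN2]
        exact singleton_subset_iff.2 (by simp)
    · rintro (c | c)
      · rw [hN1]
        exact insert_nonempty _ _
      · rw [hN2]
        exact singleton_nonempty _
    · intro y hy
      rw [card_filter_sum]
      rcases hY y hy with rfl | rfl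
      · rw [hEw1]
        have e1 : (univ.filter (fun c : Fin (5 - E1.card) => y ∈ N (Sum.inl c))) = univ := by
          rw [filter_eq_self]
          intro c _
          rw [hN1]
          simp
        have e2 : (univ.filter (fun c : Fin (E1.card - E2.card) => y ∈ N (Sum.inr c))) = ∅ := by
          rw [filter_eq_empty_iff]
          intro c _
          rw [hN2, mem_singleton]
          exact h12
        rw [e1, e2, card_univ, Fintype.card_fin, card_empty]
        omega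
      · rw [hEw2]
        have e1 : (univ.filter (fun c : Fin (5 - E1.card) => y ∈ N (Sum.inl c))) = univ := by
          rw [filter_eq_self]
          intro c _
          rw [hN1]
          simp
        have e2 : (univ.filter (fun c : Fin (E1.card - E2.card) => y ∈ N (Sum.inr c))) = univ := by
          rw [filter_eq_self]
          intro c _
          rw [hN2]
          simp
        rw [e1, e2, card_univ, card_univ, Fintype.card_fin, Fintype.card_fin]
        omega
    · intro i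
      refine le_trans ?_ (hs i)
      rw [add_assoc]
      refine Nat.add_le_add_left ?_ _
      have e1 : (({w1, w2} : Finset V).filter (fun y => i ∈ E y)).card =
          (({w1} : Finset V).filter (fun y => i ∈ E y)).card +
          (({w2} : Finset V).filter (fun y => i ∈ E y)).card := by
        rw [← card_union_of_disjoint]
        · rw [← filter_union]
          rfl
        · refine disjoint_filter_filter ?_
          rw [disjoint_singleton]
          exact h12
      have e2 : (({w1} : Finset V).filter (fun y => i ∈ E y)).card = if i ∈ E1 then 1 else 0 := by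
        rw [filter_singleton, hEw1]
        split_ifs <;> simp
      have e3 : (({w2} : Finset V).filter (fun y => i ∈ E y)).card = if i ∈ E2 then 1 else 0 := by
        rw [filter_singleton, hEw2]
        split_ifs <;> simp
      exact (e1.trans (by rw [e2, e3])).le
    · rintro (c | c)
      · rw [hN1]
        exact card_le_two.trans (by norm_num)
      · rw [hN2, card_singleton]
        norm_num
    · intro S hS hne
      refine Or.inl ⟨Sum.inl ⟨0, by omega⟩, ?_, ?_⟩
      · rw [hN1, inter_eq_right.2 hS]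
        exact hne
      · exact (card_le_card inter_subset_left).trans card_le_two
  have hn' : ∀ T : Finset ι, M ⊆ T.biUnion B → T.card ≤ rho B M →
      ∃ y ∈ ({w1, w2} : Finset V), ∀ i ∈ T, i ∉ E y := by
    intro T hT1 hT2
    by_contra hcon
    push Not at hcon
    refine hn ⟨T, hT1, hT2, fun E' hE' => ?_⟩
    rw [List.mem_cons, List.mem_cons] at hE'
    rcases hE' with rfl | rfl | hE'
    · obtain ⟨i, hi, hiE⟩ := hcon w1 (by simp)
      rw [hEw1] at hiE
      exact ⟨i, hi, hiE⟩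
    · obtain ⟨i, hi, hiE⟩ := hcon w2 (by simp)
      rw [hEw2] at hiE
      exact ⟨i, hi, hiE⟩
    · exact absurd hE' (by simp)
  have hk : Fintype.card (Fin (5 - E1.card) ⊕ Fin (E1.card - E2.card)) = 5 - E2.card := by
    rw [Fintype.card_sum, Fintype.card_fin, Fintype.card_fin]
    omega
  have hk' : ((Fintype.card (Fin (5 - E1.card) ⊕ Fin (E1.card - E2.card)) : ℕ) : ℤ) =
      5 - (E2.card : ℤ) := by
    rw [hk]
    omega
  split_ifs with hb
  · have h5 := hab.refuse hT h hn' (Y2 := {w2}) (by simp) (by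
      intro y hy
      rw [mem_singleton] at hy
      subst hy
      rw [card_filter_sum]
      have e2 : (univ.filter (fun c : Fin (E1.card - E2.card) => N (Sum.inr c) = {y})) = univ := by
        rw [filter_eq_self]
        intro c _
        rw [hN2]
      rw [e2, card_univ, Fintype.card_fin]
      omega)
    rw [hk', card_pair h12, card_singleton] at h5
    push_cast at h5
    linarith
  · have h5 := hab.refuse hT h hn' (Y2 := ∅) (empty_subset _) (by simp)
    rw [hk', card_pair h12, card_empty] at h5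
    push_cast at h5
    linarith

open Classical in
/-- the size condition for groups of real points. -/
theorem size_groups (hMC : M ⊆ C) (h4 : Tr4 B C) {G1 G2 : Finset V}
    (hG1 : G1 ⊆ C \ M) (hG2 : G2 ⊆ C \ M) (hd : Disjoint G1 G2) {E1 E2 : Finset ι}
    (h1 : E1 ⊆ Eg B M G1) (h2 : E2 ⊆ Eg B M G2) (i : ι) :
    (B i ∩ M).card + (if i ∈ E1 then 1 else 0) + (if i ∈ E2 then 1 else 0) ≤ 4 := by
  refine le_trans ?_ (h4 i)
  have e1 : (if i ∈ E1 then 1 else 0) ≤ (B i ∩ G1).card := by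
    split_ifs with hi
    · exact card_pos.2 (mem_Eg.1 (h1 hi)).2
    · exact Nat.zero_le _
  have e2 : (if i ∈ E2 then 1 else 0) ≤ (B i ∩ G2).card := by
    split_ifs with hi
    · exact card_pos.2 (mem_Eg.1 (h2 hi)).2
    · exact Nat.zero_le _
  have d12 : Disjoint (B i ∩ G1) (B i ∩ G2) :=
    hd.mono inter_subset_right inter_subset_right
  have d3 : Disjoint (B i ∩ M) (B i ∩ G1 ∪ B i ∩ G2) := by
    rw [disjoint_left]
    intro v hv hv'
    have hvM := (mem_inter.1 hv).2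
    rcases mem_union.1 hv' with h | h
    · exact (mem_sdiff.1 (hG1 (mem_inter.1 h).2)).2 hvM
    · exact (mem_sdiff.1 (hG2 (mem_inter.1 h).2)).2 hvM
  have e3 : (B i ∩ M).card + ((B i ∩ G1).card + (B i ∩ G2).card) ≤ (B i ∩ C).card := by
    rw [← card_union_of_disjoint d12, ← card_union_of_disjoint d3]
    refine card_le_card (union_subset (inter_subset_inter_left hMC)
      (union_subset ?_ ?_))
    · exact inter_subset_inter_left (hG1.trans sdiff_subset)
    · exact inter_subset_inter_left (hG2.trans sdiff_subset)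
  omega

theorem exists_sub_card {τ : Type u} {S : Finset τ} {k : ℕ} (h : k ≤ S.card) :
    ∃ S' ⊆ S, S'.card = k := exists_subset_card_eq h

/-- (R), real points, merged groups: `M` refuses `G1`, `G2`, both with at least `k` hits. -/
theorem CK.ref1 (hT : HT.{u} V) (h : CK B M) (hMC : M ⊆ C) (h4 : Tr4 B C) {G1 G2 : Finset V}
    (hG1 : G1 ⊆ C \ M) (hG2 : G2 ⊆ C \ M) (hd : Disjoint G1 G2)
    (hn : ¬ Ab B M [Eg B M G1, Eg B M G2]) {k : ℕ} (hk : 1 ≤ k) (hk4 : k ≤ 4)
    (hk1 : k ≤ (Eg B M G1).card) (hk2 : k ≤ (Eg B M G2).card) : 4 * (k : ℤ) - 7 ≤ Pv B M := by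
  classical
  obtain ⟨E1, hE1, hc1⟩ := exists_sub_card hk1
  obtain ⟨E2, hE2, hc2⟩ := exists_sub_card hk2
  obtain ⟨i1, hi1⟩ := card_pos.1 (by omega : 0 < (Eg B M G1).card)
  obtain ⟨i2, hi2⟩ := card_pos.1 (by omega : 0 < (Eg B M G2).card)
  obtain ⟨w1, hw1⟩ := (mem_Eg.1 hi1).2
  obtain ⟨w2, hw2⟩ := (mem_Eg.1 hi2).2
  have hw1' := (mem_inter.1 hw1).2
  have hw2' := (mem_inter.1 hw2).2
  have h5 := h.ref0 hT (w1 := w1) (w2 := w2) (E1 := E1) (E2 := E2) (mem_sdiff.1 (hG1 hw1')).2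
    (mem_sdiff.1 (hG2 hw2')).2 (fun h => disjoint_left.1 hd hw1' (h ▸ hw2'))
    (fun i hi => (mem_Eg.1 (hE1 hi)).1) (fun i hi => (mem_Eg.1 (hE2 hi)).1)
    (fun i => by convert size_groups hMC h4 hG1 hG2 hd hE1 hE2 i) (by omega) (by omega)
    (by omega) (fun hcon => hn (hcon.mono fun E' hE' => by
      rw [List.mem_cons, List.mem_cons] at hE'
      rcases hE' with rfl | rfl | hE'
      · exact ⟨E1, by simp, hE1⟩
      · exact ⟨E2, by simp, hE2⟩
      · exact absurd hE' (by simp)))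
  rw [hc2] at h5
  split_ifs at h5 <;> linarith

/-- (R) with the bonus. -/
theorem CK.ref2 (hT : HT.{u} V) (h : CK B M) (hMC : M ⊆ C) (h4 : Tr4 B C) {G1 G2 : Finset V}
    (hG1 : G1 ⊆ C \ M) (hG2 : G2 ⊆ C \ M) (hd : Disjoint G1 G2)
    (hn : ¬ Ab B M [Eg B M G1, Eg B M G2]) {k : ℕ} (hk : 1 ≤ k) (hk2 : k ≤ 2)
    (hk1 : k + 2 ≤ (Eg B M G1).card) (hk2 : k ≤ (Eg B M G2).card) : 4 * (k : ℤ) - 5 ≤ Pv B M := by
  classical
  obtain ⟨E1, hE1, hc1⟩ := exists_sub_card hk1
  obtain ⟨E2, hE2, hc2⟩ := exists_sub_card hk2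
  obtain ⟨i1, hi1⟩ := card_pos.1 (by omega : 0 < (Eg B M G1).card)
  obtain ⟨i2, hi2⟩ := card_pos.1 (by omega : 0 < (Eg B M G2).card)
  obtain ⟨w1, hw1⟩ := (mem_Eg.1 hi1).2
  obtain ⟨w2, hw2⟩ := (mem_Eg.1 hi2).2
  have hw1' := (mem_inter.1 hw1).2
  have hw2' := (mem_inter.1 hw2).2
  have h5 := h.ref0 hT (w1 := w1) (w2 := w2) (E1 := E1) (E2 := E2) (mem_sdiff.1 (hG1 hw1')).2
    (mem_sdiff.1 (hG2 hw2')).2 (fun h => disjoint_left.1 hd hw1' (h ▸ hw2'))
    (fun i hi => (mem_Eg.1 (hE1 hi)).1) (fun i hi => (mem_Eg.1 (hE2 hi)).1)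
    (fun i => by convert size_groups hMC h4 hG1 hG2 hd hE1 hE2 i) (by omega) (by omega)
    (by omega) (fun hcon => hn (hcon.mono fun E' hE' => by
      rw [List.mem_cons, List.mem_cons] at hE'
      rcases hE' with rfl | rfl | hE'
      · exact ⟨E1, by simp, hE1⟩
      · exact ⟨E2, by simp, hE2⟩
      · exact absurd hE' (by simp)))
  rw [hc2, hc1, if_pos (le_refl _)] at h5
  linarith

/-- if the closure of a block is the block itself, it is compatible with every block meeting a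
component. -/
theorem Clo.cmp {X : Finset V} {F : Finset (Finset V)} (h : Clo B C X F) (hc : Cov B C) {i j : ι}
    (hX : X ⊆ B i) {L0 : Finset V} (hL0 : L0 ∈ F) (hj : (B j ∩ L0).Nonempty) : Cmp B C i j := by
  classical
  have hcov : ∀ L ∈ F, Cov B L := fun L hL => hc.mono (h.subC hL)
  have hex : ∀ L ∈ F, ∃ T : Finset ι, L ⊆ T.biUnion B ∧ T.card ≤ rho B L ∧ (L = L0 → j ∈ T) := by
    intro L hL
    by_cases hLL : L = L0
    · rw [← hLL] at hj
      obtain ⟨T, h1, h2, h3⟩ := (h.crit L hL).blkT (hcov L hL) hj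
      exact ⟨T, h1, h2, fun _ => h3⟩
    · obtain ⟨T, h1, h2⟩ := exists_cover (hcov L hL)
      exact ⟨T, h1, h2.le, fun h => absurd h hLL⟩
  choose! T hT1 hT2 hT3 using hex
  refine ⟨insert i (F.biUnion T), ?_, ?_, mem_insert_self _ _, mem_insert_of_mem
    (mem_biUnion.2 ⟨L0, hL0, hT3 L0 hL0 rfl⟩)⟩
  · intro v hv
    by_cases hvX : v ∈ X
    · exact mem_biUnion.2 ⟨i, mem_insert_self _ _, hX hvX⟩
    · have hv2 : v ∈ F.biUnion id := by
        rw [h.un]
        exact mem_sdiff.2 ⟨hv, hvX⟩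
      obtain ⟨L, hL, hvL⟩ := mem_biUnion.1 hv2
      obtain ⟨k, hk, hvk⟩ := mem_biUnion.1 (hT1 L hL hvL)
      exact mem_biUnion.2 ⟨k, mem_insert_of_mem (mem_biUnion.2 ⟨L, hL, hk⟩), hvk⟩
  · have e1 : (F.biUnion T).card ≤ ∑ L ∈ F, rho B L := card_biUnion_le.trans (sum_le_sum hT2)
    have e2 := h.sum_rho hc
    have e3 := h.rhoX
    have e4 := card_insert_le i (F.biUnion T)
    omega

/-- a block with four points is compatible with everything. -/
theorem EE.quad (hT : HT.{u} V) (h : EE B D) {i j : ι} (hi : (B i ∩ D).card = 4)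
    (hj : (B j ∩ D).Nonempty) : Cmp B D i j := by
  classical
  have hc : Cov B D := h.toCK.cov
  have hne : (B i ∩ D).Nonempty := card_pos.1 (by omega)
  obtain ⟨X, F, hPX, hclo⟩ := exists_clo h.crit hc (P := B i ∩ D) (i := i) inter_subset_left
    inter_subset_right hne
  have h4 := card_le_card hPX
  rcases hclo.types hT h.reg h.tr4 h.kf h.conn h.crit h.pv h.sv hPX (by omega) with
    ⟨h1, h2, h3, _⟩ | ⟨h1, h2, h3, _⟩ | h1 | ⟨h1, h2, _⟩
  · omega
  · omega
  · have := h1.1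
    omega
  · have hX : X = B i ∩ D := (eq_of_subset_of_card_le hPX (by omega)).symm
    have hins : ins B D X = {i} := by
      refine ins_eq_singleton ?_ hPX hne
      exact h2
    by_cases hjX : B j ∩ D ⊆ X
    · have : j ∈ ins B D X := mem_ins.2 ⟨hj, hjX⟩
      rw [hins, mem_singleton] at this
      rw [this]
      exact h.crit.cmp hc hne
    · rw [not_subset] at hjX
      obtain ⟨v, hv, hvX⟩ := hjX
      have hv2 : v ∈ F.biUnion id := by
        rw [hclo.un]
        exact mem_sdiff.2 ⟨(mem_inter.1 hv).2, hvX⟩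
      obtain ⟨L, hL, hvL⟩ := mem_biUnion.1 hv2
      exact hclo.cmp hc (hX ▸ inter_subset_left) hL ⟨v, mem_inter.2 ⟨(mem_inter.1 hv).1, hvL⟩⟩

/-- (R) for a member of E and any sets of blocks (no size condition). -/
theorem EE.two (hT : HT.{u} V) (h : EE B D) (hw : ∃ w1 w2, w1 ∉ D ∧ w2 ∉ D ∧ w1 ≠ w2)
    {E1 E2 : Finset ι} (h1 : ∀ i ∈ E1, (B i ∩ D).Nonempty) (h2 : ∀ i ∈ E2, (B i ∩ D).Nonempty)
    (hc1 : 2 ≤ E1.card) (hc2 : 2 ≤ E2.card) : Ab B D [E1, E2] := by
  classical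
  have hc : Cov B D := h.toCK.cov
  obtain ⟨j1, hj1⟩ := card_pos.1 (by omega : 0 < E1.card)
  obtain ⟨j2, hj2⟩ := card_pos.1 (by omega : 0 < E2.card)
  by_cases q1 : ∃ i ∈ E1, (B i ∩ D).card = 4
  · obtain ⟨i, hi, hi4⟩ := q1
    exact ab_two.2 ⟨i, hi, j2, hj2, h.quad hT hi4 (h2 j2 hj2)⟩
  by_cases q2 : ∃ i ∈ E2, (B i ∩ D).card = 4
  · obtain ⟨i, hi, hi4⟩ := q2
    exact ab_two.2 ⟨j1, hj1, i, hi, (h.quad hT hi4 (h1 j1 hj1)).symm⟩
  push Not at q1 q2
  by_cases q3 : ∃ i, i ∈ E1 ∧ i ∈ E2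
  · obtain ⟨i, hi, hi2⟩ := q3
    exact cmp_self_ab (h.crit.cmp hc (h1 i hi)) hi hi2
  push Not at q3
  by_contra hn
  obtain ⟨w1, w2, hw1, hw2, hw12⟩ := hw
  obtain ⟨S1, hS1, hs1⟩ := exists_sub_card hc1
  obtain ⟨S2, hS2, hs2⟩ := exists_sub_card hc2
  have h5 := h.toCK.ref0 hT hw1 hw2 hw12 (E1 := S1) (E2 := S2) (fun i hi => h1 i (hS1 hi))
    (fun i hi => h2 i (hS2 hi)) (fun i => by
      have e4 := h.tr4 i
      by_cases hi1 : i ∈ S1
      · have hi2 : i ∉ S2 := fun hi2 => q3 i (hS1 hi1) (hS2 hi2)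
        have e5 := q1 i (hS1 hi1)
        rw [if_pos hi1, if_neg hi2]
        omega
      · rw [if_neg hi1]
        by_cases hi2 : i ∈ S2
        · have e5 := q2 i (hS2 hi2)
          rw [if_pos hi2]
          omega
        · rw [if_neg hi2]
          omega) (by omega) (by omega) (by omega) (fun hcon => hn (hcon.mono fun E' hE' => by
      rw [List.mem_cons, List.mem_cons] at hE'
      rcases hE' with rfl | rfl | hE'
      · exact ⟨S1, by simp, hS1⟩
      · exact ⟨S2, by simp, hS2⟩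
      · exact absurd hE' (by simp)))
  rw [hs1, hs2, if_neg (by norm_num), h.pv] at h5
  norm_num at h5

/-- the size condition for groups of real points, any number of groups. -/
theorem size_gen (hDC : D ⊆ C) (h4 : Tr4 B C) {Y : Finset V} {g : V → Finset V}
    (hg : ∀ y ∈ Y, g y ⊆ C \ D) (hdis : ∀ y ∈ Y, ∀ y' ∈ Y, y ≠ y' → Disjoint (g y) (g y'))
    {E : V → Finset ι} (hE : ∀ y ∈ Y, E y ⊆ Eg B D (g y)) (i : ι)
    [DecidablePred fun y => i ∈ E y] :
    (B i ∩ D).card + (Y.filter (fun y => i ∈ E y)).card ≤ 4 := by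
  refine le_trans ?_ (h4 i)
  have e1 : (Y.filter (fun y => i ∈ E y)).card ≤ ((Y.filter (fun y => i ∈ E y)).biUnion
      (fun y => B i ∩ g y)).card := by
    rw [card_biUnion]
    · rw [card_eq_sum_ones]
      refine sum_le_sum fun y hy => ?_
      rw [mem_filter] at hy
      exact card_pos.2 (mem_Eg.1 (hE y hy.1 hy.2)).2
    · intro y hy y' hy' hne
      exact (hdis y (mem_filter.1 hy).1 y' (mem_filter.1 hy').1 hne).mono inter_subset_right
        inter_subset_right
  refine (Nat.add_le_add_left e1 _).trans ?_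
  rw [← card_union_of_disjoint]
  · refine card_le_card (union_subset (inter_subset_inter_left hDC) ?_)
    intro v hv
    obtain ⟨y, hy, hvy⟩ := mem_biUnion.1 hv
    rw [mem_inter] at hvy ⊢
    exact ⟨hvy.1, (mem_sdiff.1 (hg y (mem_filter.1 hy).1 hvy.2)).1⟩
  · rw [disjoint_left]
    intro v hv hv'
    obtain ⟨y, hy, hvy⟩ := mem_biUnion.1 hv'
    exact (mem_sdiff.1 (hg y (mem_filter.1 hy).1 (mem_inter.1 hvy).2)).2 (mem_inter.1 hv).2

/-- F3: rows (4,3,3), real points, merged groups. -/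
theorem EE.three (hT : HT.{u} V) (h : EE B D) (hDC : D ⊆ C) (h4 : Tr4 B C) {G1 G2 G3 : Finset V}
    (hG1 : G1 ⊆ C \ D) (hG2 : G2 ⊆ C \ D) (hG3 : G3 ⊆ C \ D) (h12 : Disjoint G1 G2)
    (h13 : Disjoint G1 G3) (h23 : Disjoint G2 G3) (hc1 : 4 ≤ (Eg B D G1).card)
    (hc2 : 3 ≤ (Eg B D G2).card) (hc3 : 3 ≤ (Eg B D G3).card) :
    Ab B D [Eg B D G1, Eg B D G2, Eg B D G3] := by
  classical
  obtain ⟨E1, hE1, hk1⟩ := exists_sub_card hc1
  obtain ⟨E2, hE2, hk2⟩ := exists_sub_card hc2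
  obtain ⟨E3, hE3, hk3⟩ := exists_sub_card hc3
  obtain ⟨i1, hi1⟩ := card_pos.1 (by omega : 0 < (Eg B D G1).card)
  obtain ⟨i2, hi2⟩ := card_pos.1 (by omega : 0 < (Eg B D G2).card)
  obtain ⟨i3, hi3⟩ := card_pos.1 (by omega : 0 < (Eg B D G3).card)
  obtain ⟨w1, hw1⟩ := (mem_Eg.1 hi1).2
  obtain ⟨w2, hw2⟩ := (mem_Eg.1 hi2).2
  obtain ⟨w3, hw3⟩ := (mem_Eg.1 hi3).2
  have hw1' := (mem_inter.1 hw1).2
  have hw2' := (mem_inter.1 hw2).2
  have hw3' := (mem_inter.1 hw3).2
  have n12 : w1 ≠ w2 := fun h => disjoint_left.1 h12 hw1' (h ▸ hw2')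
  have n13 : w1 ≠ w3 := fun h => disjoint_left.1 h13 hw1' (h ▸ hw3')
  have n23 : w2 ≠ w3 := fun h => disjoint_left.1 h23 hw2' (h ▸ hw3')
  set E : V → Finset ι := fun y => if y = w1 then E1 else if y = w2 then E2 else E3 with hE
  set g : V → Finset V := fun y => if y = w1 then G1 else if y = w2 then G2 else G3 with hg
  have e1 : E w1 = E1 := by simp [hE]
  have e2 : E w2 = E2 := by simp [hE, n12.symm]
  have e3 : E w3 = E3 := by simp [hE, n13.symm, n23.symm]
  have g1 : g w1 = G1 := by simp [hg]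
  have g2 : g w2 = G2 := by simp [hg, n12.symm]
  have g3 : g w3 = G3 := by simp [hg, n13.symm, n23.symm]
  have hY : ∀ y ∈ ({w1, w2, w3} : Finset V), y = w1 ∨ y = w2 ∨ y = w3 := by
    intro y hy
    rwa [mem_insert, mem_insert, mem_singleton] at hy
  have hgs : ∀ y ∈ ({w1, w2, w3} : Finset V), g y ⊆ C \ D := by
    intro y hy
    rcases hY y hy with rfl | rfl | rfl
    · rw [g1]; exact hG1
    · rw [g2]; exact hG2
    · rw [g3]; exact hG3
  have hEs : ∀ y ∈ ({w1, w2, w3} : Finset V), E y ⊆ Eg B D (g y) := by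
    intro y hy
    rcases hY y hy with rfl | rfl | rfl
    · rw [g1, e1]; exact hE1
    · rw [g2, e2]; exact hE2
    · rw [g3, e3]; exact hE3
  have hds : ∀ y ∈ ({w1, w2, w3} : Finset V), ∀ y' ∈ ({w1, w2, w3} : Finset V), y ≠ y' →
      Disjoint (g y) (g y') := by
    intro y hy y' hy' hne
    rcases hY y hy with rfl | rfl | rfl
    · rcases hY y' hy' with rfl | rfl | rfl
      · exact absurd rfl hne
      · rw [g1, g2]; exact h12
      · rw [g1, g3]; exact h13
    · rcases hY y' hy' with rfl | rfl | rfl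
      · rw [g1, g2]; exact h12.symm
      · exact absurd rfl hne
      · rw [g2, g3]; exact h23
    · rcases hY y' hy' with rfl | rfl | rfl
      · rw [g1, g3]; exact h13.symm
      · rw [g2, g3]; exact h23.symm
      · exact absurd rfl hne
  obtain ⟨T, hT1, hT2, hT3⟩ := absorb3 (hT (D.card + 4)) hDC h.reg h.conn h.kf
    (w1 := w1) (w2 := w2) (w3 := w3) (E := E) (mem_sdiff.1 (hG1 hw1')).2
    (mem_sdiff.1 (hG2 hw2')).2 (mem_sdiff.1 (hG3 hw3')).2 n12 n13 n23 (by omega)
    (fun y hy i hi => (mem_Eg.1 (hEs y hy hi)).1)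
    (fun y hy i hi => by
      have e5 := mem_Eg.1 (hEs y hy hi)
      obtain ⟨w, hw⟩ := e5.2
      rw [mem_inter] at hw
      have hw6 := mem_sdiff.1 (hgs y hy hw.2)
      exact two_le_of hDC e5.1 hw.1 hw6.1 hw6.2)
    (by rw [e1, hk1]) (by rw [e2, hk2]) (by rw [e3, hk3])
    (fun i => by convert size_gen hDC h4 hgs hds hEs i)
    (by
      unfold dv
      have := h.pv
      have e6 : (0 : ℤ) ≤ ee B C D := by positivity
      linarith)
  refine ⟨T, hT1, hT2, fun E' hE' => ?_⟩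
  rw [List.mem_cons, List.mem_cons, List.mem_cons] at hE'
  rcases hE' with rfl | rfl | rfl | hE'
  · obtain ⟨i, hi, hiE⟩ := hT3 w1 (by simp)
    exact ⟨i, hi, hE1 (e1 ▸ hiE)⟩
  · obtain ⟨i, hi, hiE⟩ := hT3 w2 (by simp)
    exact ⟨i, hi, hE2 (e2 ▸ hiE)⟩
  · obtain ⟨i, hi, hiE⟩ := hT3 w3 (by simp)
    exact ⟨i, hi, hE3 (e3 ▸ hiE)⟩
  · exact absurd hE' (by simp)

end

end Pool.Agent.Hyp6
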