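import Pool.Agent.Hyp6.QGad

/-!
# HYP6 QP3: members of E with three points, gadgets and good gadgets, the P-form
-/

set_option autoImplicit false

namespace Pool.Agent.Hyp6

open Finset Pool.Agent.Hyp5

universe u v

variable {V : Type v} [DecidableEq V] {ι : Type u} [Fintype ι] {B : ι → Finset V}
  {C D : Finset V}

section three

variable {x y z : V}

/-- the number of blocks with the trace `S` on `D`. -/
def nS (B : ι → Finset V) (D S : Finset V) : ℕ := (univ.filter (fun i => B i ∩ D = S)).card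

theorem nS_sum (D S : Finset V) : nS B D S = ∑ i, if B i ∩ D = S then 1 else 0 := by
  unfold nS
  rw [card_filter]

theorem tr_x (hxy : x ≠ y) (hxz : x ≠ z) (U : Finset V) :
    U ∩ {x, y, z} = {x} ↔ x ∈ U ∧ y ∉ U ∧ z ∉ U := by
  rw [Finset.ext_iff]
  simp only [mem_inter, mem_insert, mem_singleton]
  constructor
  · intro h
    have h1 := h x
    have h2 := h y
    have h3 := h z
    simp only [true_or, and_true, or_true, iff_true] at h1 h2 h3
    exact ⟨h1, fun h4 => hxy (h2.1 h4).symm, fun h4 => hxz (h3.1 h4).symm⟩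
  · rintro ⟨h1, h2, h3⟩ v
    constructor
    · rintro ⟨h4, rfl | rfl | rfl⟩
      · rfl
      · exact absurd h4 h2
      · exact absurd h4 h3
    · rintro rfl
      exact ⟨h1, Or.inl rfl⟩

theorem tr_xy (hxz : x ≠ z) (hyz : y ≠ z) (U : Finset V) :
    U ∩ {x, y, z} = {x, y} ↔ x ∈ U ∧ y ∈ U ∧ z ∉ U := by
  rw [Finset.ext_iff]
  simp only [mem_inter, mem_insert, mem_singleton]
  constructor
  · intro h
    have h1 := h x
    have h2 := h y
    have h3 := h z
    simp only [true_or, and_true, or_true, iff_true] at h1 h2 h3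
    refine ⟨h1, h2, fun h4 => ?_⟩
    rcases h3.1 h4 with h5 | h5
    · exact hxz h5.symm
    · exact hyz h5.symm
  · rintro ⟨h1, h2, h3⟩ v
    constructor
    · rintro ⟨h4, rfl | rfl | rfl⟩
      · exact Or.inl rfl
      · exact Or.inr rfl
      · exact absurd h4 h3
    · rintro (rfl | rfl)
      · exact ⟨h1, Or.inl rfl⟩
      · exact ⟨h2, Or.inr (Or.inl rfl)⟩

theorem tr_xyz (U : Finset V) :
    U ∩ {x, y, z} = {x, y, z} ↔ x ∈ U ∧ y ∈ U ∧ z ∈ U := by
  rw [inter_eq_right]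
  constructor
  · intro h
    exact ⟨h (by simp), h (by simp), h (by simp)⟩
  · rintro ⟨h1, h2, h3⟩ v hv
    rw [mem_insert, mem_insert, mem_singleton] at hv
    rcases hv with rfl | rfl | rfl
    · exact h1
    · exact h2
    · exact h3

theorem rot3 : ({x, y, z} : Finset V) = {y, x, z} := by
  ext v
  simp only [mem_insert, mem_singleton]
  tauto

theorem rot3' : ({x, y, z} : Finset V) = {x, z, y} := by
  ext v
  simp only [mem_insert, mem_singleton]
  tauto

theorem rot3'' : ({x, y, z} : Finset V) = {z, x, y} := by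
  ext v
  simp only [mem_insert, mem_singleton]
  tauto

/-- the degree of a point in terms of the traces. -/
theorem deg3 (hxy : x ≠ y) (hxz : x ≠ z) (hyz : y ≠ z) :
    (univ.filter (fun i => x ∈ B i)).card = nS B {x, y, z} {x} + nS B {x, y, z} {x, y} +
      nS B {x, y, z} {x, z} + nS B {x, y, z} {x, y, z} := by
  classical
  rw [card_filter, nS_sum, nS_sum, nS_sum, nS_sum, ← sum_add_distrib, ← sum_add_distrib,
    ← sum_add_distrib]
  refine sum_congr rfl fun i _ => ?_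
  have e1 : B i ∩ {x, y, z} = {x} ↔ x ∈ B i ∧ y ∉ B i ∧ z ∉ B i := tr_x hxy hxz _
  have e2 : B i ∩ {x, y, z} = {x, y} ↔ x ∈ B i ∧ y ∈ B i ∧ z ∉ B i := tr_xy hxz hyz _
  have e3 : B i ∩ {x, y, z} = {x, z} ↔ x ∈ B i ∧ z ∈ B i ∧ y ∉ B i := by
    rw [rot3' (x := x) (y := y) (z := z)]
    exact tr_xy hxy hyz.symm _
  have e4 : B i ∩ {x, y, z} = {x, y, z} ↔ x ∈ B i ∧ y ∈ B i ∧ z ∈ B i := tr_xyz _
  simp only [e1, e2, e3, e4]
  by_cases h1 : x ∈ B i <;> by_cases h2 : y ∈ B i <;> by_cases h3 : z ∈ B i <;>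
    simp [h1, h2, h3]

/-- the number of blocks meeting three points. -/
theorem cm3 (hxy : x ≠ y) (hxz : x ≠ z) (hyz : y ≠ z) :
    cm B {x, y, z} = nS B {x, y, z} {x} + nS B {x, y, z} {y} + nS B {x, y, z} {z} +
      nS B {x, y, z} {x, y} + nS B {x, y, z} {x, z} + nS B {x, y, z} {y, z} +
      nS B {x, y, z} {x, y, z} := by
  classical
  have e0 : cm B {x, y, z} = ∑ i, if (B i ∩ {x, y, z}).Nonempty then 1 else 0 := by
    unfold cm tch
    rw [card_filter]
  rw [e0, nS_sum, nS_sum, nS_sum, nS_sum, nS_sum, nS_sum, nS_sum, ← sum_add_distrib,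
    ← sum_add_distrib, ← sum_add_distrib, ← sum_add_distrib, ← sum_add_distrib,
    ← sum_add_distrib]
  refine sum_congr rfl fun i _ => ?_
  have e1 : B i ∩ {x, y, z} = {x} ↔ x ∈ B i ∧ y ∉ B i ∧ z ∉ B i := tr_x hxy hxz _
  have e2 : B i ∩ {x, y, z} = {x, y} ↔ x ∈ B i ∧ y ∈ B i ∧ z ∉ B i := tr_xy hxz hyz _
  have e3 : B i ∩ {x, y, z} = {x, z} ↔ x ∈ B i ∧ z ∈ B i ∧ y ∉ B i := by
    rw [rot3' (x := x) (y := y) (z := z)]
    exact tr_xy hxy hyz.symm _
  have e4 : B i ∩ {x, y, z} = {x, y, z} ↔ x ∈ B i ∧ y ∈ B i ∧ z ∈ B i := tr_xyz _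
  have e5 : B i ∩ {x, y, z} = {y} ↔ y ∈ B i ∧ x ∉ B i ∧ z ∉ B i := by
    rw [rot3 (x := x) (y := y) (z := z)]
    exact tr_x hxy.symm hyz _
  have e6 : B i ∩ {x, y, z} = {z} ↔ z ∈ B i ∧ x ∉ B i ∧ y ∉ B i := by
    rw [rot3'' (x := x) (y := y) (z := z)]
    exact tr_x hxz.symm hyz.symm _
  have e7 : B i ∩ {x, y, z} = {y, z} ↔ y ∈ B i ∧ z ∈ B i ∧ x ∉ B i := by
    rw [rot3 (x := x) (y := y) (z := z), rot3' (x := y) (y := x) (z := z)]
    exact tr_xy hxy.symm hxz.symm _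
  have e8 : (B i ∩ {x, y, z}).Nonempty ↔ x ∈ B i ∨ y ∈ B i ∨ z ∈ B i := by
    constructor
    · rintro ⟨v, hv⟩
      rw [mem_inter, mem_insert, mem_insert, mem_singleton] at hv
      rcases hv with ⟨h1, rfl | rfl | rfl⟩
      · exact Or.inl h1
      · exact Or.inr (Or.inl h1)
      · exact Or.inr (Or.inr h1)
    · rintro (h1 | h1 | h1)
      · exact ⟨x, mem_inter.2 ⟨h1, by simp⟩⟩
      · exact ⟨y, mem_inter.2 ⟨h1, by simp⟩⟩
      · exact ⟨z, mem_inter.2 ⟨h1, by simp⟩⟩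
  simp only [e1, e2, e3, e4, e5, e6, e7, e8]
  by_cases h1 : x ∈ B i <;> by_cases h2 : y ∈ B i <;> by_cases h3 : z ∈ B i <;>
    simp [h1, h2, h3]

end three

/-- the members of E with three points are T3. -/
theorem EE.t3 (h : EE B D) (h3 : D.card = 3) : ∃ a b c, D = {a, b, c} ∧ T3 B a b c := by
  classical
  obtain ⟨x, y, z, hxy, hxz, hyz, rfl⟩ := card_eq_three.1 h3
  have hs := h.sv
  have hp := h.pv
  rw [Pv_eq, h3] at hp
  unfold sv at hs
  rw [h3] at hs
  push_cast at hs hp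
  have hrho : rho B {x, y, z} = 2 := by
    have : (rho B {x, y, z} : ℤ) = 2 := by linarith
    exact_mod_cast this
  have hcm : cm B {x, y, z} = 8 := by
    have : (cm B {x, y, z} : ℤ) = 8 := by linarith
    exact_mod_cast this
  have hn0 : nS B {x, y, z} {x, y, z} = 0 := by
    unfold nS
    rw [card_eq_zero, filter_eq_empty_iff]
    intro i _ hi
    have h1 : rho B {x, y, z} ≤ 1 := rho_le_one (inter_eq_right.1 hi)
    omega
  have c0 := cm3 (B := B) hxy hxz hyz
  have dx := deg3 (B := B) hxy hxz hyz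
  have dy := deg3 (B := B) hxy.symm hyz hxz
  have dz := deg3 (B := B) hxz.symm hyz.symm hxy
  rw [← rot3 (x := x) (y := y) (z := z), pair_comm y x] at dy
  rw [← rot3'' (x := x) (y := y) (z := z), pair_comm z x, pair_comm z y] at dz
  rw [h.reg x (by simp)] at dx
  rw [h.reg y (by simp)] at dy
  rw [h.reg z (by simp)] at dz
  have key : (nS B {x, y, z} {x} = 1 ∧ nS B {x, y, z} {y} = 0 ∧ nS B {x, y, z} {z} = 0) ∨
      (nS B {x, y, z} {x} = 0 ∧ nS B {x, y, z} {y} = 1 ∧ nS B {x, y, z} {z} = 0) ∨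
      (nS B {x, y, z} {x} = 0 ∧ nS B {x, y, z} {y} = 0 ∧ nS B {x, y, z} {z} = 1) := by omega
  have rx := h.reg x (by simp)
  have ry := h.reg y (by simp)
  have rz := h.reg z (by simp)
  rcases key with hk | hk | hk
  · refine ⟨x, y, z, rfl, hxy, hxz, hyz, ?_, ?_, ?_, ?_, rx, ry, rz⟩
    · change nS B {x, y, z} {y, z} = 3
      omega
    · change nS B {x, y, z} {x, y} = 2
      omega
    · change nS B {x, y, z} {x, z} = 2
      omega
    · change nS B {x, y, z} {x} = 1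
      omega
  · refine ⟨y, x, z, rot3, hxy.symm, hyz, hxz, ?_, ?_, ?_, ?_, ry, rx, rz⟩
    · rw [← rot3 (x := x) (y := y) (z := z)]
      change nS B {x, y, z} {x, z} = 3
      omega
    · rw [← rot3 (x := x) (y := y) (z := z), pair_comm y x]
      change nS B {x, y, z} {x, y} = 2
      omega
    · rw [← rot3 (x := x) (y := y) (z := z)]
      change nS B {x, y, z} {y, z} = 2
      omega
    · rw [← rot3 (x := x) (y := y) (z := z)]
      change nS B {x, y, z} {y} = 1
      omega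
  · refine ⟨z, x, y, rot3'', hxz.symm, hyz.symm, hxy, ?_, ?_, ?_, ?_, rz, rx, ry⟩
    · rw [← rot3'' (x := x) (y := y) (z := z)]
      change nS B {x, y, z} {x, y} = 3
      omega
    · rw [← rot3'' (x := x) (y := y) (z := z), pair_comm z x]
      change nS B {x, y, z} {x, z} = 2
      omega
    · rw [← rot3'' (x := x) (y := y) (z := z), pair_comm z y]
      change nS B {x, y, z} {y, z} = 2
      omega
    · rw [← rot3'' (x := x) (y := y) (z := z)]
      change nS B {x, y, z} {z} = 1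
      omega

/-- a member of E has three or at least seven points. -/
theorem EE.card_cases (h : EE B D) : D.card = 3 ∨ 7 ≤ D.card := by
  have hp := h.pv
  have h1 := card_pos.2 h.conn.1
  rw [Pv_eq] at hp
  omega

variable {a b c q : V} {o : ι}

theorem abc_sub : ({a, b, c} : Finset V) ⊆ {a, b, c, q} := by
  intro v hv
  simp only [mem_insert, mem_singleton] at hv ⊢
  tauto

/-- a gadget of the part `D` is a gadget of `C` if no inner block leaves `D`. -/
theorem Gad.trans (hDC : D ⊆ C) (h : Gad B D a b c q o)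
    (hn : ∀ i, i ≠ o → (B i ∩ ({a, b, c} : Finset V)).Nonempty → i ∉ Out B C D) :
    Gad B C a b c q o where
  sub := h.sub.trans hDC
  card := h.card
  nbc := h.nbc
  nab := h.nab
  nac := h.nac
  na := h.na
  oA := h.oA
  oC := h.oC.mono (inter_subset_inter_left (sdiff_subset_sdiff hDC (Subset.refl _)))
  ins := by
    intro i hio hi v hv
    rw [mem_inter] at hv
    by_cases hvD : v ∈ D
    · exact h.ins i hio hi (mem_inter.2 ⟨hv.1, hvD⟩)
    · exfalso
      refine hn i hio hi (mem_Out.2 ⟨?_, v, mem_inter.2 ⟨hv.1, mem_sdiff.2 ⟨hv.2, hvD⟩⟩⟩)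
      exact hi.mono (inter_subset_inter_left (abc_sub.trans h.sub))
  qA := h.qA

theorem GGad.trans (hDC : D ⊆ C) (h : GGad B D a b c q o)
    (hn : ∀ i, i ≠ o → (B i ∩ ({a, b, c} : Finset V)).Nonempty → i ∉ Out B C D) :
    GGad B C a b c q o :=
  ⟨h.toGad.trans hDC hn, h.good⟩

/-- a T3 and a point with seven inner blocks. -/
theorem T3.gad {y : V} {β : ι} (h : T3 B a b c) (hDC : ({a, b, c} : Finset V) ⊆ C) (hyC : y ∈ C)
    (hyD : y ∉ ({a, b, c} : Finset V)) (hβ : (B β ∩ ({a, b, c} : Finset V)).Nonempty)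
    (hβC : ∃ v ∈ B β, v ∈ C ∧ v ∉ ({a, b, c} : Finset V) ∧ v ≠ y)
    (hout : ∀ i, i ≠ β → (B i ∩ ({a, b, c} : Finset V)).Nonempty → ∀ v ∈ B i, v ∈ C →
      v ∉ ({a, b, c} : Finset V) → v = y)
    (hne : ∃ i, i ≠ β ∧ y ∈ B i ∧ (B i ∩ ({a, b, c} : Finset V)).Nonempty) :
    Gad B C a b c y β where
  sub := by
    intro v hv
    simp only [mem_insert, mem_singleton] at hv
    rcases hv with rfl | rfl | rfl | rfl
    · exact hDC (by simp)
    · exact hDC (by simp)
    · exact hDC (by simp)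
    · exact hyC
  card := by
    simp only [mem_insert, mem_singleton, not_or] at hyD
    rw [card_insert_of_notMem, card_insert_of_notMem, card_insert_of_notMem, card_singleton]
    · simp [Ne.symm hyD.2.2]
    · simp [h.bc, Ne.symm hyD.2.1]
    · simp [h.ab, h.ac, Ne.symm hyD.1]
  nbc := h.nbc
  nab := h.nab
  nac := h.nac
  na := h.na
  oA := hβ
  oC := by
    obtain ⟨v, hv, hvC, hvD, hvy⟩ := hβC
    refine ⟨v, mem_inter.2 ⟨hv, mem_sdiff.2 ⟨hvC, fun h1 => ?_⟩⟩⟩
    simp only [mem_insert, mem_singleton] at h1 hvD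
    tauto
  ins := by
    intro i hi hiA v hv
    rw [mem_inter] at hv
    by_cases hvA : v ∈ ({a, b, c} : Finset V)
    · exact abc_sub hvA
    · have := hout i hi hiA v hv.1 hv.2 hvA
      simp [this]
  qA := hne

/-- G4. -/
theorem HasG.good (hT : HT.{u} V) (hG : GH.{u} V C.card) (hC : EE B C) (h : HasG B C) :
    HasGG B C := by
  classical
  obtain ⟨a, b, c, q, o, hg⟩ := h
  by_cases h3 : 3 ≤ (Eg B {a, b, c} {q}).card
  · exact ⟨a, b, c, q, o, hg, h3⟩
  have hk := hg.count hT hC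
  set D := C \ {a, b, c, q} with hDdef
  have hD : EE B D := hg.ee hT hC
  have hDC : D ⊆ C := sdiff_subset
  have hcard : D.card + 4 = C.card := by
    have h1 := card_sdiff_add_card_eq_card hg.sub
    rw [hg.card] at h1
    exact h1
  have hk3 : 3 ≤ (Eg B D {q}).card := by omega
  have hqC : q ∈ C := hg.sub (by simp)
  have hqD : q ∉ D := fun h1 => (mem_sdiff.1 h1).2 (by simp)
  have hoD : (B o ∩ D).Nonempty := hg.oC
  have hqo := hg.qo hT hC
  have hmemF : ∀ j, j ∈ Eg B D {q} → (B j ∩ D).Nonempty ∧ q ∈ B j := by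
    intro j hj
    rw [mem_Eg] at hj
    obtain ⟨v, hv⟩ := hj.2
    rw [mem_inter, mem_singleton] at hv
    exact ⟨hj.1, by rw [← hv.2]; exact hv.1⟩
  -- an outer block of `D` is `o` or contains `q`, with outer part `{q}`
  have hout : ∀ i, i ≠ o → (B i ∩ D).Nonempty → ∀ v ∈ B i, v ∈ C → v ∉ D → v = q := by
    intro i hio hi v hv hvC hvD
    by_contra hvq
    have hvA : v ∈ ({a, b, c} : Finset V) := by
      by_contra hvA
      refine hvD (mem_sdiff.2 ⟨hvC, fun h1 => ?_⟩)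
      simp only [mem_insert, mem_singleton] at h1 hvA
      tauto
    have h1 := hg.ins i hio ⟨v, mem_inter.2 ⟨hv, hvA⟩⟩
    obtain ⟨w, hw⟩ := hi
    rw [mem_inter] at hw
    exact (mem_sdiff.1 hw.2).2 (h1 (mem_inter.2 ⟨hw.1, hDC hw.2⟩))
  have hoC : ∃ v ∈ B o, v ∈ C ∧ v ∉ D ∧ v ≠ q := by
    obtain ⟨v, hv⟩ := hg.oA
    rw [mem_inter] at hv
    refine ⟨v, hv.1, hg.sub (abc_sub hv.2), fun h1 => (mem_sdiff.1 h1).2 (abc_sub hv.2), ?_⟩
    rintro rfl
    exact hqo hv.1
  rcases hD.card_cases with h4 | h7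
  · obtain ⟨a', b', c', hDe, ht⟩ := hD.t3 h4
    rw [hDe] at hk3 hqD hoD hDC hmemF hout hoC
    have hgad : Gad B C a' b' c' q o := by
      refine ht.gad hDC hqC hqD hoD hoC hout ?_
      obtain ⟨j, hj⟩ := card_pos.1 (by omega : 0 < (Eg B {a', b', c'} {q}).card)
      exact ⟨j, fun h1 => hqo (h1 ▸ (hmemF j hj).2), (hmemF j hj).2, (hmemF j hj).1⟩
    exact ⟨a', b', c', q, o, hgad, hk3⟩
  · obtain ⟨a', b', c', q', o', hg'⟩ := hG ι B D hD h7 (by omega)
    have hWD := hg'.sub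
    have hno : ¬ B o ∩ D ⊆ {a', b', c', q'} := by
      intro h1
      have h2 := hg'.conf2 hT hD (i := o) hoD h1 (S := Eg B D {q})
        (fun j hj => ⟨(hmemF j hj).1, hg.inc hT hC (hmemF j hj).2⟩)
      omega
    refine ⟨a', b', c', q', o', hg'.trans hDC fun i hio' hiA hiO => ?_⟩
    have hiW := hg'.ins i hio' hiA
    have hiD : (B i ∩ D).Nonempty := (mem_Out.1 hiO).1
    by_cases hio : i = o
    · rw [hio] at hiW
      exact hno hiW
    · obtain ⟨v, hv⟩ := (mem_Out.1 hiO).2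
      rw [mem_inter, mem_sdiff] at hv
      have hvq := hout i hio hiD v hv.1 hv.2.1 hv.2.2
      rw [hvq] at hv
      have h1 : ¬ Cmp B D i o := fun h2 => hg.inc hT hC hv.1 h2.symm
      exact hno (hg'.conf hT hD hiD hiW hoD h1).1

/-- the P-form of `D0 = D \ W0`, if all outer blocks of `D` are inside `W0`. -/
theorem GGad.pform (hT : HT.{u} V) (hD : EE B D) (hDC : D ⊆ C) (hg : GGad B D a b c q o)
    (hall : ∀ i ∈ Out B C D, B i ∩ D ⊆ {a, b, c, q}) :
    PForm B C (D \ {a, b, c, q}) q o := by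
  classical
  have hqo := hg.toGad.qo hT hD
  have hqD : q ∈ D := hg.sub (by simp)
  have hqn : q ∉ ({a, b, c} : Finset V) := by
    intro h1
    have h2 := hg.card
    have h3 : ({a, b, c, q} : Finset V) = {a, b, c} := by
      ext v
      simp only [mem_insert, mem_singleton] at h1 ⊢
      constructor
      · rintro (rfl | rfl | rfl | rfl)
        · simp
        · simp
        · simp
        · exact h1
      · tauto
    rw [h3] at h2
    have h4 : ({a, b, c} : Finset V).card ≤ 3 := card_le_three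
    omega
  -- a block meeting `D0` does not leave `D`
  have hin : ∀ i, (B i ∩ (D \ {a, b, c, q})).Nonempty → ∀ v ∈ B i, v ∈ C → v ∈ D := by
    intro i hi v hv hvC
    by_contra hvD
    obtain ⟨w, hw⟩ := hi
    rw [mem_inter, mem_sdiff] at hw
    have h1 : i ∈ Out B C D := mem_Out.2 ⟨⟨w, mem_inter.2 ⟨hw.1, hw.2.1⟩⟩, v,
      mem_inter.2 ⟨hv, mem_sdiff.2 ⟨hvC, hvD⟩⟩⟩
    exact hw.2.2 (hall i h1 (mem_inter.2 ⟨hw.1, hw.2.1⟩))
  have hpart : ∀ i ∈ Out B C (D \ {a, b, c, q}), i ≠ o →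
      B i ∩ (C \ (D \ {a, b, c, q})) = {q} := by
    intro i hi hio
    rw [mem_Out] at hi
    have h1 : ∀ v ∈ B i, v ∈ C → v ∉ D \ {a, b, c, q} → v = q := by
      intro v hv hvC hvD
      have hvD' := hin i hi.1 v hv hvC
      by_contra hvq
      have hvA : v ∈ ({a, b, c} : Finset V) := by
        by_contra hvA
        refine hvD (mem_sdiff.2 ⟨hvD', fun h2 => ?_⟩)
        simp only [mem_insert, mem_singleton] at h2 hvA
        tauto
      obtain ⟨w, hw⟩ := hi.1
      rw [mem_inter, mem_sdiff] at hw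
      exact hw.2.2 (hg.ins i hio ⟨v, mem_inter.2 ⟨hv, hvA⟩⟩ (mem_inter.2 ⟨hw.1, hw.2.1⟩))
    obtain ⟨v, hv⟩ := hi.2
    rw [mem_inter, mem_sdiff] at hv
    have h2 := h1 v hv.1 hv.2.1 hv.2.2
    ext w
    rw [mem_inter, mem_sdiff, mem_singleton]
    constructor
    · rintro ⟨hw1, hw2, hw3⟩
      exact h1 w hw1 hw2 hw3
    · intro hw
      rw [hw, ← h2]
      exact ⟨hv.1, hv.2.1, by rw [h2] at hv ⊢; exact hv.2.2⟩
  refine ⟨hg.toGad.ee hT hD, sdiff_subset.trans hDC, hDC hqD,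
    fun h1 => (mem_sdiff.1 h1).2 (by simp), hqo, ?_, hpart, ?_, ?_⟩
  · rw [mem_Out]
    refine ⟨hg.oC, ?_⟩
    obtain ⟨v, hv⟩ := hg.oA
    rw [mem_inter] at hv
    exact ⟨v, mem_inter.2 ⟨hv.1, mem_sdiff.2 ⟨hDC (hg.sub (abc_sub hv.2)),
      fun h1 => (mem_sdiff.1 h1).2 (abc_sub hv.2)⟩⟩⟩
  · intro i hi hio hcmp
    have h1 : q ∈ B i ∩ (C \ (D \ {a, b, c, q})) := by
      rw [hpart i hi hio]
      exact mem_singleton_self _
    exact hg.toGad.inc hT hD (mem_inter.1 h1).1 hcmp.symm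
  · obtain ⟨i, hi⟩ := card_pos.1 (by
      have := (hg.q_out hT hD).1
      omega : 0 < (Eg B (D \ {a, b, c, q}) {q}).card)
    rw [mem_Eg] at hi
    obtain ⟨v, hv⟩ := hi.2
    rw [mem_inter, mem_singleton] at hv
    have hqi : q ∈ B i := by rw [← hv.2]; exact hv.1
    refine ⟨i, mem_Out.2 ⟨hi.1, q, mem_inter.2 ⟨hqi, mem_sdiff.2 ⟨hDC hqD, ?_⟩⟩⟩, ?_⟩
    · exact fun h1 => (mem_sdiff.1 h1).2 (by simp)
    · rintro rfl
      exact hqo hqi

/-- PF. -/
theorem PForm.hasG (hT : HT.{u} V) (hG : GH.{u} V C.card) (_hC : EE B C) {y : V} {β : ι}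
    (h : PForm B C D y β) : HasG B C := by
  classical
  induction hn : D.card using Nat.strong_induction_on generalizing D y β with
  | _ n ih =>
  subst hn
  have hlt : D.card < C.card := card_lt_card ⟨h.sub, fun h1 => h.yD (h1 h.yC)⟩
  have houtp : ∀ i, i ≠ β → (B i ∩ D).Nonempty → ∀ v ∈ B i, v ∈ C → v ∉ D → v = y := by
    intro i hib hiD v hv hvC hvD
    have h1 : v ∈ B i ∩ (C \ D) := mem_inter.2 ⟨hv, mem_sdiff.2 ⟨hvC, hvD⟩⟩
    rw [h.part i (mem_Out.2 ⟨hiD, v, h1⟩) hib, mem_singleton] at h1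
    exact h1
  rcases h.ee.card_cases with h3 | h7
  · obtain ⟨a, b, c, hDe, ht⟩ := h.ee.t3 h3
    have hb := mem_Out.1 h.b
    obtain ⟨i, hi, hib⟩ := h.ne
    have hiy : y ∈ B i := by
      have h1 : y ∈ B i ∩ (C \ D) := by
        rw [h.part i hi hib]
        exact mem_singleton_self _
      exact (mem_inter.1 h1).1
    have hiD := (mem_Out.1 hi).1
    have hsub := h.sub
    have hyD := h.yD
    have hyb := h.yb
    have hyC := h.yC
    rw [hDe] at houtp hb hiD hsub hyD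
    refine ⟨a, b, c, y, β, ht.gad hsub hyC hyD hb.1 ?_ houtp ⟨i, hib, hiy, hiD⟩⟩
    obtain ⟨v, hv⟩ := hb.2
    rw [mem_inter, mem_sdiff] at hv
    exact ⟨v, hv.1, hv.2.1, hv.2.2, fun h1 => hyb (h1 ▸ hv.1)⟩
  · obtain ⟨a, b, c, q, o, hg⟩ := hG ι B D h.ee h7 hlt
    by_cases hn : ∀ i, i ≠ o → (B i ∩ ({a, b, c} : Finset V)).Nonempty → i ∉ Out B C D
    · exact ⟨a, b, c, q, o, hg.toGad.trans h.sub hn⟩
    · push Not at hn
      obtain ⟨i1, hi1o, hi1A, hi1O⟩ := hn
      have hi1W := hg.ins i1 hi1o hi1A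
      have hbW : B β ∩ D ⊆ {a, b, c, q} := by
        by_cases h1 : i1 = β
        · rw [← h1]
          exact hi1W
        · exact (hg.conf hT h.ee (mem_Out.1 hi1O).1 hi1W (mem_Out.1 h.b).1
            (h.inc i1 hi1O h1)).1
      have hall : ∀ i ∈ Out B C D, B i ∩ D ⊆ {a, b, c, q} := by
        intro i hi
        by_cases h1 : i = β
        · rw [h1]
          exact hbW
        · exact (hg.conf hT h.ee (mem_Out.1 h.b).1 hbW (mem_Out.1 hi).1
            (fun h2 => h.inc i hi h1 h2.symm)).1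
      refine ih _ ?_ (hg.pform hT h.ee h.sub hall) rfl
      refine card_lt_card ⟨sdiff_subset, fun h1 => ?_⟩
      have h2 : q ∈ D := hg.sub (by simp)
      exact (mem_sdiff.1 (h1 h2)).2 (by simp)

/-- PF'. -/
theorem hasG_of_inc (hT : HT.{u} V) (hG : GH.{u} V C.card) (hC : EE B C) (hD : EE B D)
    (hDC : D ⊆ C) (hne : D ≠ C) (h7 : 7 ≤ D.card) (_h2 : 2 ≤ (Out B C D).card)
    (hinc : ∀ i ∈ Out B C D, ∀ j ∈ Out B C D, i ≠ j → ¬ Cmp B D i j) : HasG B C := by
  classical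
  have hlt : D.card < C.card := card_lt_card (Finset.ssubset_iff_subset_ne.2 ⟨hDC, hne⟩)
  obtain ⟨a, b, c, q, o, hg⟩ := hG ι B D hD h7 hlt
  by_cases hn : ∀ i, i ≠ o → (B i ∩ ({a, b, c} : Finset V)).Nonempty → i ∉ Out B C D
  · exact ⟨a, b, c, q, o, hg.toGad.trans hDC hn⟩
  · push Not at hn
    obtain ⟨i1, hi1o, hi1A, hi1O⟩ := hn
    have hi1W := hg.ins i1 hi1o hi1A
    have hall : ∀ i ∈ Out B C D, B i ∩ D ⊆ {a, b, c, q} := by
      intro i hi
      by_cases h1 : i1 = i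
      · rw [← h1]
        exact hi1W
      · exact (hg.conf hT hD (mem_Out.1 hi1O).1 hi1W (mem_Out.1 hi).1
          (hinc i1 hi1O i hi h1)).1
    exact (hg.pform hT hD hDC hall).hasG hT hG hC

end Pool.Agent.Hyp6
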