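import Pool.Agent.Hyp6.QIb
import Pool.Agent.Hyp6.QClo
import Pool.Agent.Hyp6.QP3

/-!
# HYP6 QI: type I of theorem G

A member `C` of E with a closure `X` of three points, one block inside `X` and components `M`, `L` with
`Pv B M = -1`, `Pv B L = 5` has a gadget.
-/

set_option autoImplicit false

namespace Pool.Agent.Hyp6

open Finset Pool.Agent.Hyp5

universe u v

section trans

variable {V : Type v} [DecidableEq V] {ι : Type u} [Fintype ι] {B : ι → Finset V}
  {L : Finset V} {x y z : V}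

theorem Rp.inl_A (h : Rp B L x y) {A : Finset V} (hA : A ⊆ L) (i : ι) :
    LB B L x y (Sum.inl i) ∩ A = B i ∩ A := by
  ext v
  rw [mem_inter, mem_inter, h.mem_inl]
  constructor
  · rintro ⟨⟨h1, _⟩, h2⟩
    exact ⟨h1, h2⟩
  · rintro ⟨h1, h2⟩
    exact ⟨⟨h1, Or.inl (hA h2)⟩, h2⟩

theorem Rp.inr_A (h : Rp B L x y) {A : Finset V} (hA : A ⊆ L) (c : Fin 2) :
    LB B L x y (Sum.inr c) ∩ A = ∅ := by
  ext v
  rw [mem_inter, mem_LB_inr]
  constructor
  · rintro ⟨h1 | h1, h2⟩
    · exact absurd (hA h2) (h1 ▸ h.n1)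
    · exact absurd (hA h2) (h1 ▸ h.n2)
  · intro h1
    exact absurd h1 (notMem_empty _)

/-- the numbers of the traces on a part of `L`. -/
theorem Rp.card_tr (h : Rp B L x y) {A S : Finset V} (hA : A ⊆ L) (hS : S.Nonempty) :
    (univ.filter (fun k => LB B L x y k ∩ A = S)).card =
      (univ.filter (fun i => B i ∩ A = S)).card := by
  classical
  rw [card_filter_sum]
  have h1 : (univ.filter (fun c : Fin 2 => LB B L x y (Sum.inr c) ∩ A = S)) = ∅ := by
    rw [filter_eq_empty_iff]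
    intro c _
    rw [h.inr_A hA]
    rintro rfl
    exact absurd hS (by simp)
  rw [h1, card_empty, Nat.add_zero]
  congr 1
  ext i
  rw [mem_filter, mem_filter, h.inl_A hA]

/-- a gadget of the abstract system with `a, b, c` in `L` is a gadget of `C` if no inner block goes
through `z`. -/
theorem Rp.gad (h : Rp B L x y) {C : Finset V} (hxC : x ∈ C) (hyC : y ∈ C)
    (hLC : L ⊆ C) (hout : ∀ i, (B i ∩ L).Nonempty → ∀ v ∈ B i, v ∈ C → v ∈ L ∨ v = x ∨ v = y ∨ v = z)
    {a b c q : V} {o : ι ⊕ Fin 2}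
    (hG : Gad (LB B L x y) (L ∪ {x, y}) a b c q o) (hA : ({a, b, c} : Finset V) ⊆ L)
    (hz : ∀ i, (B i ∩ ({a, b, c} : Finset V)).Nonempty →
      LB B L x y (Sum.inl i) ∩ (L ∪ {x, y}) ⊆ {a, b, c, q} → z ∉ B i) : HasG B C := by
  classical
  have hsub : L ∪ {x, y} ⊆ C := by
    refine union_subset hLC fun v hv => ?_
    rcases Rp.mem_cases hv with rfl | rfl
    · exact hxC
    · exact hyC
  have hAo := hG.oA
  rcases o with o | c'
  · refine ⟨a, b, c, q, o, ⟨hG.sub.trans hsub, hG.card, ?_, ?_, ?_, ?_, ?_, ?_, ?_, ?_⟩⟩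
    · rw [← h.card_tr hA (insert_nonempty _ _)]
      exact hG.nbc
    · rw [← h.card_tr hA (insert_nonempty _ _)]
      exact hG.nab
    · rw [← h.card_tr hA (insert_nonempty _ _)]
      exact hG.nac
    · rw [← h.card_tr hA (singleton_nonempty _)]
      exact hG.na
    · rw [h.inl_A hA] at hAo
      exact hAo
    · obtain ⟨v, hv⟩ := hG.oC
      rw [mem_inter, mem_sdiff, h.mem_inl] at hv
      exact ⟨v, mem_inter.2 ⟨hv.1.1, mem_sdiff.2 ⟨hsub hv.2.1, hv.2.2⟩⟩⟩
    · intro i hio hiA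
      have h1 := hG.ins (Sum.inl i) (fun h2 => hio (Sum.inl.inj h2))
        (by rw [h.inl_A hA]; exact hiA)
      have hiL : (B i ∩ L).Nonempty := hiA.mono (inter_subset_inter_left hA)
      intro v hv
      rw [mem_inter] at hv
      have h2 : v ∈ L ∪ {x, y} → v ∈ ({a, b, c, q} : Finset V) := by
        intro h3
        refine h1 (mem_inter.2 ⟨?_, h3⟩)
        rw [h.inl_eq hiL]
        exact mem_inter.2 ⟨hv.1, h3⟩
      rcases hout i hiL v hv.1 hv.2 with h3 | rfl | rfl | rfl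
      · exact h2 (mem_union_left _ h3)
      · exact h2 (mem_union_right _ (by simp))
      · exact h2 (mem_union_right _ (by simp))
      · exact absurd hv.1 (hz i hiA h1)
    · obtain ⟨k, hk1, hk2, hk3⟩ := hG.qA
      rcases k with k | c'
      · rw [h.inl_A hA] at hk3
        exact ⟨k, fun h2 => hk1 (by rw [h2]), (h.mem_inl.1 hk2).1, hk3⟩
      · rw [h.inr_A hA] at hk3
        exact absurd hk3 (by simp)
  · rw [h.inr_A hA] at hAo
    exact absurd hAo (by simp)

/-- a cover of the abstract system through a new block, `x` and `z`. -/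
theorem Rp.abz_of (h : Rp B L x y) {t : V} {T : Finset (ι ⊕ Fin 2)}
    (hT : L ⊆ T.biUnion (LB B L x y)) (hTc : T.card ≤ rho B L + 1) {c : Fin 2}
    (hc : Sum.inr c ∈ T) {e g : ι} (he : Sum.inl e ∈ T) (het : t ∈ B e) (hg : Sum.inl g ∈ T)
    (hgz : z ∈ B g) : Abz B L {t, z} := by
  classical
  refine ⟨univ.filter (fun i => Sum.inl i ∈ T), union_subset ?_ ?_, ?_⟩
  · intro v hv
    obtain ⟨k, hk, hvk⟩ := mem_biUnion.1 (hT hv)
    rcases k with i | c'
    · exact mem_biUnion.2 ⟨i, mem_filter.2 ⟨mem_univ _, hk⟩, (h.mem_inl.1 hvk).1⟩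
    · rw [mem_LB_inr] at hvk
      rcases hvk with rfl | rfl
      · exact absurd hv h.n1
      · exact absurd hv h.n2
  · intro v hv
    rw [mem_insert, mem_singleton] at hv
    rcases hv with rfl | rfl
    · exact mem_biUnion.2 ⟨e, mem_filter.2 ⟨mem_univ _, he⟩, het⟩
    · exact mem_biUnion.2 ⟨g, mem_filter.2 ⟨mem_univ _, hg⟩, hgz⟩
  · have h1 : ((univ.filter (fun i : ι => Sum.inl i ∈ T)).image
        (Sum.inl : ι → ι ⊕ Fin 2)) ⊆ T.erase (Sum.inr c) := by
      intro k hk
      obtain ⟨i, hi, rfl⟩ := mem_image.1 hk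
      exact mem_erase.2 ⟨by simp, (mem_filter.1 hi).2⟩
    have h2 := card_le_card h1
    rw [card_image_of_injective _ Sum.inl_injective, card_erase_of_mem hc] at h2
    omega

end trans

section good

variable {V : Type v} [DecidableEq V] {κ : Type u} [Fintype κ] {B : κ → Finset V} {C : Finset V}
  {a b c q : V} {o : κ}

theorem GGad.ne4 (h : GGad B C a b c q o) :
    a ≠ b ∧ a ≠ c ∧ b ≠ c ∧ q ≠ a ∧ q ≠ b ∧ q ≠ c := by
  obtain ⟨h1, h2, h3, h4, h5, h6⟩ := h.toGad.pts
  exact ⟨h1, h2, h4, h3.symm, h5.symm, h6.symm⟩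

/-- every inner block is completed to a cover of `{a,b,c,q}` by an inner block through `q`. -/
theorem GGad.compl (hT : HT.{u} V) (hC : EE B C) (h : GGad B C a b c q o) {i : κ}
    (hi : (B i ∩ ({a, b, c} : Finset V)).Nonempty) (hiW : B i ∩ C ⊆ {a, b, c, q}) :
    ∃ j, q ∈ B j ∧ (B j ∩ ({a, b, c} : Finset V)).Nonempty ∧
      ({a, b, c, q} : Finset V) ⊆ B i ∪ B j := by
  obtain ⟨hab, hac, hbc, _, _, _⟩ := h.ne4
  obtain ⟨⟨j1, hq1, hj1⟩, j2, hq2, hj2⟩ := h.q_ab hT hC
  have m : ∀ {k : κ} {S : Finset V} {v : V}, B k ∩ ({a, b, c} : Finset V) = S → v ∈ S →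
      v ∈ B k := by
    intro k S v hk hv
    rw [← hk] at hv
    exact (mem_inter.1 hv).1
  rcases (h.toGad.t3 hC.reg).tr hi with h1 | h1 | h1 | h1
  · refine ⟨j1, hq1, by rw [hj1]; simp, fun v hv => ?_⟩
    rw [mem_insert, mem_insert, mem_insert, mem_singleton] at hv
    rw [mem_union]
    rcases hv with rfl | rfl | rfl | rfl
    · exact Or.inr (m hj1 (by simp))
    · exact Or.inl (m h1 (by simp))
    · exact Or.inl (m h1 (by simp))
    · exact Or.inr hq1
  · refine ⟨j2, hq2, by rw [hj2]; simp, fun v hv => ?_⟩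
    rw [mem_insert, mem_insert, mem_insert, mem_singleton] at hv
    rw [mem_union]
    rcases hv with rfl | rfl | rfl | rfl
    · exact Or.inl (m h1 (by simp))
    · exact Or.inl (m h1 (by simp))
    · exact Or.inr (m hj2 (by simp))
    · exact Or.inr hq2
  · refine ⟨j1, hq1, by rw [hj1]; simp, fun v hv => ?_⟩
    rw [mem_insert, mem_insert, mem_insert, mem_singleton] at hv
    rw [mem_union]
    rcases hv with rfl | rfl | rfl | rfl
    · exact Or.inl (m h1 (by simp))
    · exact Or.inr (m hj1 (by simp))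
    · exact Or.inl (m h1 (by simp))
    · exact Or.inr hq1
  · exfalso
    have h2 : i = o := by
      have h3 := card_le_one.1 h.na.le
      exact h3 i (mem_filter.2 ⟨mem_univ _, h1⟩) o
        (mem_filter.2 ⟨mem_univ _, h.o_eq hT hC⟩)
    obtain ⟨v, hv⟩ := h.oC
    rw [mem_inter, mem_sdiff] at hv
    rw [h2] at hiW
    exact hv.2.2 (hiW (mem_inter.2 ⟨hv.1, hv.2.1⟩))

end good

section main

variable {V : Type v} [DecidableEq V] {ι : Type u} [Fintype ι] {B : ι → Finset V}
  {C X M L : Finset V} {i0 : ι}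

theorem Clo.mkTwo (hC : EE B C) (h : Clo B C X {M, L}) (hML : M ≠ L) (hX : X = B i0 ∩ C)
    (h3 : X.card = 3) (hn : (ins B C X).card = 1) : Two B C X i0 M L := by
  classical
  have hc : Cov B C := cov_of_reg hC.reg
  have hXne : X.Nonempty := card_pos.1 (by omega)
  have hMF : M ∈ ({M, L} : Finset (Finset V)) := by simp
  have hLF : L ∈ ({M, L} : Finset (Finset V)) := by simp
  have hsub : B i0 ∩ C ⊆ X := by rw [hX]
  have hins : ins B C X = {i0} := ins_eq_singleton hn hsub (by rw [← hX]; exact hXne)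
  have htwo : ∀ {K : Finset V}, K ∈ ({M, L} : Finset (Finset V)) → ∀ x ∈ X,
      ∃ y ∈ X, y ≠ x ∧ (Ez B K y).Nonempty := by
    intro K hK x _
    obtain ⟨z, hz, y, hy, hzy, h1, h2⟩ := h.two hC.crit hc hC.conn hXne hK
    by_cases hzx : z = x
    · exact ⟨y, hy, fun h3 => hzy (hzx.trans h3.symm), h2⟩
    · exact ⟨z, hz, hzx, h1⟩
  refine ⟨hC.reg, hC.tr4, hC.kf, hX.symm, h3, ?_, ?_, ?_, ?_, (h.parts M hMF).2.2,
    (h.parts L hLF).2.2, h.crit M hMF, h.crit L hLF, htwo hMF, htwo hLF, ?_⟩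
  · intro i hi hiX
    have h1 : i ∈ ins B C X := mem_ins.2 ⟨hi, hiX⟩
    rw [hins, mem_singleton] at h1
    exact h1
  · rw [← h.un]
    simp
  · exact (h.sep M hMF L hLF hML).1
  · exact (h.sep M hMF L hLF hML).2
  · intro T hT
    have h1 := rho_le hT
    have h2 := h.rhoX
    have h4 := h.sum_rho hc
    rw [sum_pair hML] at h4
    omega

theorem PF0.pform {y : V} {β : ι} (h : PF0 B C M y β) (hM : EE B M) : PForm B C M y β := by
  have hmem : ∀ i ∈ Out B C M, i ≠ β → B i ∩ (C \ M) = {y} := by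
    intro i hi hib
    rw [mem_Out] at hi
    have h1 : ∀ v ∈ B i, v ∈ C → v ∉ M → v = y := by
      refine h.out i hi.1 (fun h2 => ?_) hib
      obtain ⟨v, hv⟩ := hi.2
      rw [mem_inter, mem_sdiff] at hv
      exact hv.2.2 (h2 (mem_inter.2 ⟨hv.1, hv.2.1⟩))
    obtain ⟨v, hv⟩ := hi.2
    rw [mem_inter, mem_sdiff] at hv
    have h2 := h1 v hv.1 hv.2.1 hv.2.2
    ext w
    rw [mem_inter, mem_sdiff, mem_singleton]
    constructor
    · rintro ⟨hw1, hw2, hw3⟩
      exact h1 w hw1 hw2 hw3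
    · rintro rfl
      rw [← h2]
      exact ⟨hv.1, hv.2.1, hv.2.2⟩
  refine ⟨hM, h.sub, h.yC, h.yM, h.hby, ?_, hmem, ?_, ?_⟩
  · rw [mem_Out]
    refine ⟨h.hb, ?_⟩
    have h1 := h.hbo
    rw [not_subset] at h1
    obtain ⟨v, hv, hvM⟩ := h1
    rw [mem_inter] at hv
    exact ⟨v, mem_inter.2 ⟨hv.1, mem_sdiff.2 ⟨hv.2, hvM⟩⟩⟩
  · intro i hi hib
    rintro ⟨T, h1, h2, h3, h4⟩
    have h5 : y ∈ B i ∩ (C \ M) := by rw [hmem i hi hib]; simp
    exact h.inc i (mem_inter.1 h5).1 (mem_Out.1 hi).1 T h1 h2 h4 h3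
  · obtain ⟨i, hyi, hiM⟩ := h.other
    refine ⟨i, mem_Out.2 ⟨hiM, y, mem_inter.2 ⟨hyi, mem_sdiff.2 ⟨h.yC, h.yM⟩⟩⟩, ?_⟩
    rintro rfl
    exact h.hby hyi

theorem EE.rr2 (hT : HT.{u} V) (hM : EE B M) (hw : ∃ w1 w2, w1 ∉ M ∧ w2 ∉ M ∧ w1 ≠ w2) :
    RR2 B M := by
  intro F G hF hG hcF hcG
  obtain ⟨T, h1, h2, h3⟩ := hM.two hT hw hF hG hcF hcG
  exact ⟨T, h1, h2, h3 F (by simp), h3 G (by simp)⟩

/-- the contradiction from an inner block of the abstract gadget through `z`. -/
theorem Rp.noz {x y z t : V} (h : Rp B L x y) {a b c q : V} (hrf : ¬ Abz B L {t, z})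
    (hrho : rho (LB B L x y) (L ∪ {x, y}) =
      rho (LB B L x y) ((L ∪ {x, y}) \ {a, b, c, q}) + 2)
    {T : Finset (ι ⊕ Fin 2)}
    (hT : (L ∪ {x, y}) \ {a, b, c, q} ⊆ T.biUnion (LB B L x y))
    (hTc : T.card ≤ rho (LB B L x y) ((L ∪ {x, y}) \ {a, b, c, q})) {r : Fin 2}
    (hr : Sum.inr r ∈ T) {i : ι} (hzi : z ∈ B i) {j : ι ⊕ Fin 2}
    (hij : ({a, b, c, q} : Finset V) ⊆ LB B L x y (Sum.inl i) ∪ LB B L x y j)
    {e : ι} (he : Sum.inl e = j ∨ Sum.inl e ∈ T) (hte : t ∈ B e) : False := by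
  classical
  have h1 := h.rho_eq
  refine hrf (h.abz_of (T := insert (Sum.inl i) (insert j T)) (c := r) (e := e) (g := i)
    ?_ ?_ ?_ ?_ hte (mem_insert_self _ _) hzi)
  · intro v hv
    by_cases hvW : v ∈ ({a, b, c, q} : Finset V)
    · rcases mem_union.1 (hij hvW) with h2 | h2
      · exact mem_biUnion.2 ⟨_, mem_insert_self _ _, h2⟩
      · exact mem_biUnion.2 ⟨_, mem_insert_of_mem (mem_insert_self _ _), h2⟩
    · obtain ⟨k, hk, hvk⟩ := mem_biUnion.1 (hT (mem_sdiff.2 ⟨mem_union_left _ hv, hvW⟩))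
      exact mem_biUnion.2 ⟨k, mem_insert_of_mem (mem_insert_of_mem hk), hvk⟩
  · have h2 := card_insert_le (Sum.inl i) (insert j T)
    have h3 := card_insert_le j T
    omega
  · exact mem_insert_of_mem (mem_insert_of_mem hr)
  · rcases he with he | he
    · rw [he]
      exact mem_insert_of_mem (mem_insert_self _ _)
    · exact mem_insert_of_mem (mem_insert_of_mem he)

theorem Rp.seven {x y : V} (h : Rp B L x y) (hnb : ∀ i, (B i ∩ L).Nonempty → x ∈ B i → y ∉ B i)
    (hp : Pv (LB B L x y) (L ∪ {x, y}) = -1) : 7 ≤ (L ∪ {x, y}).card := by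
  classical
  have h1 := h.card_eq
  have h2 := Hyp6.Pv_eq (B := LB B L x y) (L ∪ {x, y})
  rw [hp] at h2
  have h3 := card_pos.2 h.conn.1
  by_contra hcon
  have h4 : L.card = 1 := by omega
  obtain ⟨v, hv⟩ := card_eq_one.1 h4
  have h5 := h.reg v (by rw [hv]; simp)
  have h6 : Ez B L x ∪ Ez B L y ⊆ univ.filter (fun i => v ∈ B i) := by
    intro i hi
    rw [mem_filter]
    refine ⟨mem_univ _, ?_⟩
    rcases mem_union.1 hi with h7 | h7
    · obtain ⟨w, hw⟩ := (mem_Ez.1 h7).2
      rw [mem_inter, hv, mem_singleton] at hw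
      rw [← hw.2]
      exact hw.1
    · obtain ⟨w, hw⟩ := (mem_Ez.1 h7).2
      rw [mem_inter, hv, mem_singleton] at hw
      rw [← hw.2]
      exact hw.1
  have h7 : Disjoint (Ez B L x) (Ez B L y) := by
    rw [disjoint_left]
    intro i hi hi2
    exact hnb i (mem_Ez.1 hi).2 (mem_Ez.1 hi).1 (mem_Ez.1 hi2).1
  have h8 := card_le_card h6
  rw [card_union_of_disjoint h7, h.c1, h.c2, h5] at h8
  omega

/-- not both new points are in a good gadget of the abstract system. -/
theorem Rp.not_both {x y : V} (hT : HT.{u} V) (h : Rp B L x y)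
    (hnb : ∀ i, (B i ∩ L).Nonempty → x ∈ B i → y ∉ B i)
    (hE : EE (LB B L x y) (L ∪ {x, y})) {a b c q : V} {o : ι ⊕ Fin 2}
    (hg : GGad (LB B L x y) (L ∪ {x, y}) a b c q o) (hx : x ∈ ({a, b, c, q} : Finset V))
    (hy : y ∈ ({a, b, c, q} : Finset V)) : False := by
  classical
  obtain ⟨hab, hac, hbc, hqa, hqb, hqc⟩ := hg.ne4
  have hN : ∀ r : Fin 2, LB B L x y (Sum.inr r) = {x, y} := by
    intro r
    ext v
    rw [mem_LB_inr, mem_insert, mem_singleton]
  have hmem4 : ∀ {v : V}, v ∈ ({a, b, c, q} : Finset V) → v ∈ ({a, b, c} : Finset V) ∨ v = q := by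
    intro v hv
    simp only [mem_insert, mem_singleton] at hv ⊢
    tauto
  have hqA : q ∉ ({a, b, c} : Finset V) := by simp [hqa, hqb, hqc]
  -- neither is `q`
  have key : ∀ s t : V, ({x, y} : Finset V) = {s, t} → s ≠ t → s = q →
      t ∈ ({a, b, c} : Finset V) → False := by
    intro s t hst hne hs ht
    have h1 : LB B L x y (Sum.inr 0) ∩ ({a, b, c} : Finset V) = {t} := by
      rw [hN, hst]
      ext v
      rw [mem_inter, mem_insert, mem_singleton]
      constructor
      · rintro ⟨rfl | h1, h2⟩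
        · exact absurd (hs ▸ h2) hqA
        · exact h1
      · rintro rfl
        exact ⟨Or.inr rfl, ht⟩
    have h2 := hg.q_tr hT hE (i := Sum.inr 0) (by rw [hN, hst, ← hs]; simp)
      (by rw [h1]; exact singleton_nonempty _)
    rw [h1] at h2
    rcases h2 with h2 | h2
    · have h3 := congrArg Finset.card h2
      rw [card_singleton, card_pair hab] at h3
      omega
    · have h3 := congrArg Finset.card h2
      rw [card_singleton, card_pair hac] at h3
      omega
  rcases hmem4 hx with hxA | hxq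
  · rcases hmem4 hy with hyA | hyq
    · -- both in `{a, b, c}`
      have hS : ∀ r : Fin 2, LB B L x y (Sum.inr r) ∩ ({a, b, c} : Finset V) = {x, y} := by
        intro r
        rw [hN]
        refine inter_eq_left.2 fun v hv => ?_
        rcases Rp.mem_cases hv with rfl | rfl
        · exact hxA
        · exact hyA
      have hqN : ∀ r : Fin 2, q ∉ LB B L x y (Sum.inr r) := by
        intro r hq
        rw [mem_LB_inr] at hq
        rcases hq with rfl | rfl
        · exact hqA hxA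
        · exact hqA hyA
      have h01 : (Sum.inr 0 : ι ⊕ Fin 2) ≠ Sum.inr 1 := by simp
      -- the two other traces
      have key2 : ∀ S : Finset V, ({x, y} : Finset V) = S →
          (univ.filter (fun k => LB B L x y k ∩ ({a, b, c} : Finset V) = S)).card = 2 →
          ∀ i, q ∈ LB B L x y i → LB B L x y i ∩ ({a, b, c} : Finset V) = S → False := by
        intro S hSe hc i hq hi
        have h1 : ({Sum.inr 0, Sum.inr 1, i} : Finset (ι ⊕ Fin 2)) ⊆
            univ.filter (fun k => LB B L x y k ∩ ({a, b, c} : Finset V) = S) := by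
          intro k hk
          rw [mem_insert, mem_insert, mem_singleton] at hk
          rw [mem_filter]
          refine ⟨mem_univ _, ?_⟩
          rcases hk with rfl | rfl | rfl
          · rw [hS, hSe]
          · rw [hS, hSe]
          · exact hi
        have h2 := card_le_card h1
        have h3 : ({Sum.inr 0, Sum.inr 1, i} : Finset (ι ⊕ Fin 2)).card = 3 :=
          card_eq_three.2 ⟨_, _, _, h01, fun h4 => hqN 0 (h4 ▸ hq), fun h4 => hqN 1 (h4 ▸ hq), rfl⟩
        omega
      obtain ⟨⟨j1, hq1, hj1⟩, j2, hq2, hj2⟩ := hg.q_ab hT hE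
      rcases (hg.toGad.t3 hE.reg).tr (i := Sum.inr 0)
        (by rw [hS]; exact insert_nonempty _ _) with h1 | h1 | h1 | h1
      · rw [hS] at h1
        -- three blocks with the trace `{b, c} = {x, y}`
        have h2 : ∃ k, k ∉ ({Sum.inr 0, Sum.inr 1} : Finset (ι ⊕ Fin 2)) ∧
            LB B L x y k ∩ ({a, b, c} : Finset V) = {b, c} := by
          by_contra hcon
          push Not at hcon
          have h3 : univ.filter (fun k => LB B L x y k ∩ ({a, b, c} : Finset V) = {b, c}) ⊆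
              ({Sum.inr 0, Sum.inr 1} : Finset (ι ⊕ Fin 2)) := by
            intro k hk
            by_contra hk2
            exact hcon k hk2 (mem_filter.1 hk).2
          have h4 := card_le_card h3
          rw [hg.nbc, card_pair h01] at h4
          omega
        obtain ⟨k, hk1, hk2⟩ := h2
        have hxk : x ∈ LB B L x y k ∩ ({a, b, c} : Finset V) := by
          rw [hk2, ← h1]
          exact mem_insert_self _ _
        have hyk : y ∈ LB B L x y k ∩ ({a, b, c} : Finset V) := by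
          rw [hk2, ← h1]
          exact mem_insert_of_mem (mem_singleton_self _)
        rcases k with i | r
        · have hx1 := (mem_inter.1 hxk).1
          have hy1 := (mem_inter.1 hyk).1
          rw [h.mem_inl] at hx1 hy1
          rcases hx1.2 with h5 | h5
          · exact h.n1 h5
          · exact hnb i h5.2 hx1.1 hy1.1
        · refine hk1 ?_
          rw [mem_insert, mem_singleton]
          fin_cases r
          · exact Or.inl rfl
          · exact Or.inr rfl
      · rw [hS] at h1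
        exact key2 _ h1 hg.nab j1 hq1 hj1
      · rw [hS] at h1
        exact key2 _ h1 hg.nac j2 hq2 hj2
      · rw [hS] at h1
        have h3 := congrArg Finset.card h1
        rw [card_singleton, card_pair h.ne] at h3
        omega
    · exact key y x (pair_comm _ _) h.ne.symm hyq hxA
  · rcases hmem4 hy with hyA | hyq
    · exact key x y rfl h.ne hxq hyA
    · exact h.ne (hxq.trans hyq.symm)

/-- **type I.** -/
theorem tyI (hT : HT.{u} V) (hG : GH.{u} V C.card) (hC : EE B C) (hclo : Clo B C X {M, L})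
    (hML : M ≠ L) (hX : X = B i0 ∩ C) (h3 : X.card = 3) (hn : (ins B C X).card = 1)
    (hPM : Pv B M = -1) (hPL : Pv B L = 5) : HasG B C := by
  classical
  have h := hclo.mkTwo hC hML hX h3 hn
  have hc : Cov B C := cov_of_reg hC.reg
  have hXne : X.Nonempty := card_pos.1 (by omega)
  have hsv := (hclo.card_eq hC.crit hc hC.conn hC.sv hXne).2
  have hM : EE B M := ⟨⟨hC.reg.mono h.MC, hC.tr4.mono h.MC, hC.kf.mono h.MC, h.cM⟩, h.crM,
    hsv M (by simp), hPM⟩
  obtain ⟨x, hx⟩ := hXne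
  obtain ⟨y, z, hyx, hzx, hyz, hXe⟩ := h.X_of hx
  have hxX : x ∈ X := hx
  have hyX : y ∈ X := by rw [hXe]; simp
  have hzX : z ∈ X := by rw [hXe]; simp
  have hR : RR2 B M := hM.rr2 hT ⟨x, y, h.nMX hxX, h.nMX hyX, hyx.symm⟩
  by_cases hA : ∃ w ∈ X, (Ez B M w).card = 0
  · obtain ⟨w, hw, hw0⟩ := hA
    obtain ⟨y', β, hp⟩ := h.caseA hR hw hw0
    exact (hp.pform hM).hasG hT hG hC
  by_cases hB : ∃ w ∈ X, (Ez B L w).card = 0
  · obtain ⟨w, hw, hw0⟩ := hB
    obtain ⟨y', β, hp⟩ := h.caseB hR hw hw0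
    exact (hp.pform hM).hasG hT hG hC
  push Not at hA hB
  have hMs : ∀ w ∈ X, (Ez B M w).Nonempty := fun w hw => card_pos.1 (Nat.pos_of_ne_zero (hA w hw))
  have hLs : ∀ w ∈ X, (Ez B L w).Nonempty := fun w hw => card_pos.1 (Nat.pos_of_ne_zero (hB w hw))
  have hrp : Rp B L x y := h.caseC_rp hR hMs hLs hXe hyx.symm
  have hrxz : ¬ Abz B L {x, z} :=
    h.symm.refM (hMs y hyX) (by rw [hXe]; intro v hv; simp at hv ⊢; tauto)
  have hryz : ¬ Abz B L {y, z} :=
    h.symm.refM (hMs x hxX) (by rw [hXe]; intro v hv; simp at hv ⊢; tauto)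
  have hnb : ∀ i, (B i ∩ L).Nonempty → x ∈ B i → y ∉ B i := fun i hi hxi hyi =>
    h.symm.no_both hrp.rf hi hxi hyi
  have hpv : Pv (LB B L x y) (L ∪ {x, y}) = -1 := by
    rw [hrp.Pv_eq, hPL]
    norm_num
  have hE : EE (LB B L x y) (L ∪ {x, y}) := EE.of hT ⟨hrp.reg', hrp.tr', hrp.kf', hrp.conn'⟩ hpv
    (by rw [hrp.sv_eq]; exact hsv L (by simp))
  have h7 := hrp.seven hnb hpv
  have hLC : L ⊆ C := h.symm.MC
  have hlt : (L ∪ {x, y}).card < C.card := by
    have e1 := card_sdiff_add_card_eq_card h.XC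
    rw [← h.un, card_union_of_disjoint h.dis] at e1
    have e2 := card_pos.2 h.cM.1
    have e3 := hrp.card_eq
    omega
  obtain ⟨a, b, c, q, o, hg⟩ := hG _ (LB B L x y) (L ∪ {x, y}) hE h7 hlt
  obtain ⟨hab, hac, hbc, hqa, hqb, hqc⟩ := hg.ne4
  have hnot := fun h1 h2 => hrp.not_both hT hnb hE hg h1 h2
  have hD := hg.toGad.ee hT hE
  have hrho := hg.toGad.rho_eq hT hE
  have hsub := hg.sub
  have hxC' : x ∈ L ∪ {x, y} := mem_union_right _ (by simp)
  have hyC' : y ∈ L ∪ {x, y} := mem_union_right _ (by simp)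
  have haW : a ∈ ({a, b, c, q} : Finset V) := by simp
  have hbW : b ∈ ({a, b, c, q} : Finset V) := by simp
  have hcW : c ∈ ({a, b, c, q} : Finset V) := by simp
  have hqW : q ∈ ({a, b, c, q} : Finset V) := by simp
  have hout : ∀ i, (B i ∩ L).Nonempty → ∀ v ∈ B i, v ∈ C → v ∈ L ∨ v = x ∨ v = y ∨ v = z := by
    intro i hi v hv hvC
    by_cases hvL : v ∈ L
    · exact Or.inl hvL
    · right
      have h1 := h.symm.out_X hi hv hvC hvL
      rwa [hXe, mem_insert, mem_insert, mem_singleton] at h1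
  have hAL : x ∉ ({a, b, c} : Finset V) → y ∉ ({a, b, c} : Finset V) →
      ({a, b, c} : Finset V) ⊆ L := by
    intro h1 h2 v hv
    have h4 : v ∈ L ∪ {x, y} := hsub (by
      simp only [mem_insert, mem_singleton] at hv ⊢
      tauto)
    rcases mem_union.1 h4 with h5 | h5
    · exact h5
    · rcases Rp.mem_cases h5 with rfl | rfl
      · exact absurd hv h1
      · exact absurd hv h2
  have hA4 : ∀ {v : V}, v ∉ ({a, b, c, q} : Finset V) → v ∉ ({a, b, c} : Finset V) := by
    intro v h1 h2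
    apply h1
    simp only [mem_insert, mem_singleton] at h2 ⊢
    tauto
  have hqA : q ∉ ({a, b, c} : Finset V) := by simp [hqa, hqb, hqc]
  -- one of the new points in the gadget
  have key : ∀ s t : V, s ∈ ({a, b, c, q} : Finset V) → t ∉ ({a, b, c, q} : Finset V) →
      (∀ r : Fin 2, s ∈ LB B L x y (Sum.inr r)) → (∀ r : Fin 2, t ∈ LB B L x y (Sum.inr r)) →
      t ∈ L ∪ {x, y} → ¬ Abz B L {s, z} → (s = q → ({a, b, c} : Finset V) ⊆ L) → HasG B C := by
    intro s t hs ht hsN htN htC hrf hAs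
    have hsq : s = q := by
      by_contra hsq
      have hsA : s ∈ ({a, b, c} : Finset V) := by
        simp only [mem_insert, mem_singleton] at hs ⊢
        tauto
      have h1 : ∀ r : Fin 2, Sum.inr r = o := by
        intro r
        by_contra hro
        have h2 := hg.ins (Sum.inr r) hro ⟨s, mem_inter.2 ⟨hsN r, hsA⟩⟩
        exact ht (h2 (mem_inter.2 ⟨htN r, htC⟩))
      have h2 := (h1 0).trans (h1 1).symm
      simp at h2
    have hA := hAs hsq
    obtain ⟨T, hT1, hT2, hT3⟩ := Crit.opt hD.reg hD.crit (i := Sum.inr 0)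
      ⟨t, mem_inter.2 ⟨htN 0, mem_sdiff.2 ⟨htC, ht⟩⟩⟩
    refine hrp.gad (h.XC hxX) (h.XC hyX) hLC hout hg.toGad hA fun i hi hiW hzi => ?_
    obtain ⟨j, hqj, hjA, hij⟩ := hg.compl hT hE (i := Sum.inl i)
      (by rw [hrp.inl_A hA]; exact hi) hiW
    rcases j with e | r
    · exact hrp.noz hrf hrho hT1 hT2 hT3 hzi hij (e := e) (Or.inl rfl)
        (by rw [hsq]; exact (hrp.mem_inl.1 hqj).1)
    · rw [hrp.inr_A hA] at hjA
      exact absurd hjA (by simp)
  by_cases hxW : x ∈ ({a, b, c, q} : Finset V)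
  · by_cases hyW : y ∈ ({a, b, c, q} : Finset V)
    · exact absurd hyW (fun h2 => hnot hxW h2)
    · exact key x y hxW hyW (fun r => mem_LB_inr.2 (Or.inl rfl))
        (fun r => mem_LB_inr.2 (Or.inr rfl)) hyC' hrxz
        (fun hxq => hAL (by rw [hxq]; exact hqA) (hA4 hyW))
  · by_cases hyW : y ∈ ({a, b, c, q} : Finset V)
    · exact key y x hyW hxW (fun r => mem_LB_inr.2 (Or.inr rfl))
        (fun r => mem_LB_inr.2 (Or.inl rfl)) hxC' hryz
        (fun hyq => hAL (hA4 hxW) (by rw [hyq]; exact hqA))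
    · -- both outside
      have hA := hAL (hA4 hxW) (hA4 hyW)
      have hab2 : Ab (LB B L x y) ((L ∪ {x, y}) \ {a, b, c, q})
          [({Sum.inr 0, Sum.inr 1} : Finset (ι ⊕ Fin 2)), (Ez B L x).image Sum.inl] := by
        refine hD.two hT
          ⟨a, b, fun h1 => (mem_sdiff.1 h1).2 haW, fun h1 => (mem_sdiff.1 h1).2 hbW, hab⟩
          ?_ ?_ ?_ ?_
        · intro k hk
          refine ⟨x, mem_inter.2 ⟨?_, mem_sdiff.2 ⟨hxC', hxW⟩⟩⟩
          rw [mem_insert, mem_singleton] at hk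
          rcases hk with rfl | rfl
          · exact mem_LB_inr.2 (Or.inl rfl)
          · exact mem_LB_inr.2 (Or.inl rfl)
        · intro k hk
          obtain ⟨e, he, rfl⟩ := mem_image.1 hk
          rw [mem_Ez] at he
          exact ⟨x, mem_inter.2 ⟨hrp.mem_inl.2 ⟨he.1, Or.inr ⟨Or.inl rfl, he.2⟩⟩,
            mem_sdiff.2 ⟨hxC', hxW⟩⟩⟩
        · exact (card_pair (by simp)).ge
        · rw [card_image_of_injective _ Sum.inl_injective, hrp.c1]
          decide
      obtain ⟨T, hT1, hT2, hT3⟩ := hab2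
      obtain ⟨k, hkT, hk⟩ := hT3 {Sum.inr 0, Sum.inr 1} (by simp)
      obtain ⟨k', hkT', hk'⟩ := hT3 ((Ez B L x).image Sum.inl) (by simp)
      obtain ⟨e, he, rfl⟩ := mem_image.1 hk'
      obtain ⟨r, hr⟩ : ∃ r : Fin 2, Sum.inr r ∈ T := by
        rw [mem_insert, mem_singleton] at hk
        rcases hk with rfl | rfl
        · exact ⟨0, hkT⟩
        · exact ⟨1, hkT⟩
      refine hrp.gad (h.XC hxX) (h.XC hyX) hLC hout hg.toGad hA fun i hi hiW hzi => ?_
      obtain ⟨j, hqj, hjA, hij⟩ := hg.compl hT hE (i := Sum.inl i)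
        (by rw [hrp.inl_A hA]; exact hi) hiW
      exact hrp.noz hrxz hrho hT1 hT2 hr hzi hij (e := e) (Or.inr hkT') (mem_Ez.1 he).1

end main

end Pool.Agent.Hyp6
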