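import Pool.Agent.Hyp6.QIII
import Pool.Agent.Hyp6.QP3
import Pool.Agent.Hyp6.L4V

/-!
# HYP6 QII: closures of type II
-/

set_option autoImplicit false

namespace Pool.Agent.Hyp6

open Finset Pool.Agent.Hyp5

universe u v

section

variable {V : Type v} [DecidableEq V] {ι : Type u} [Fintype ι] {B : ι → Finset V}
  {M C X L : Finset V} {a b c : V} {i0 : ι}

/-- refusal raises the cover number. -/
theorem rho_pair_ge (hcov : Cov B (M ∪ {a, b}))
    (r : ¬ Ab B M [Eg B M {a}, Eg B M {b}]) : rho B M + 1 ≤ rho B (M ∪ {a, b}) := by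
  classical
  by_contra hcon
  push Not at hcon
  obtain ⟨T, hT1, hT2⟩ := exists_cover hcov
  have hcM : Cov B M := hcov.mono subset_union_left
  have hm : ∀ i ∈ T, (B i ∩ M).Nonempty := by
    intro i hi
    by_contra hne
    rw [not_nonempty_iff_eq_empty] at hne
    have h1 : M ⊆ (T.erase i).biUnion B := by
      intro v hv
      obtain ⟨j, hj, hvj⟩ := mem_biUnion.1 (hT1 (mem_union_left _ hv))
      refine mem_biUnion.2 ⟨j, mem_erase.2 ⟨?_, hj⟩, hvj⟩
      rintro rfl
      have : v ∈ B j ∩ M := mem_inter.2 ⟨hvj, hv⟩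
      rw [hne] at this
      exact absurd this (notMem_empty _)
    have h2 := rho_le h1
    rw [card_erase_of_mem hi] at h2
    have h3 : 1 ≤ T.card := card_pos.2 ⟨i, hi⟩
    omega
  refine r ⟨T, subset_union_left.trans hT1, by omega, fun E hE => ?_⟩
  have key : ∀ z ∈ ({a, b} : Finset V), ∃ i ∈ T, i ∈ Eg B M {z} := by
    intro z hz
    obtain ⟨j, hj, hzj⟩ := mem_biUnion.1 (hT1 (mem_union_right _ hz))
    refine ⟨j, hj, ?_⟩
    rw [Eg_singleton, mem_Ez]
    exact ⟨hzj, hm j hj⟩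
  rw [List.mem_cons, List.mem_cons] at hE
  rcases hE with rfl | rfl | hE
  · exact key a (by simp)
  · exact key b (by simp)
  · exact absurd hE (by simp)

/-- the data of type II in the main case: `M` does not see `c`. -/
structure T2 (B : ι → Finset V) (C X M L : Finset V) (a b c : V) (i0 : ι) : Prop
    extends Ty B C X M L where
  pM : Pv B M = 1
  pL : Pv B L = 3
  bl : B i0 ∩ C = X
  ins1 : ins B C X = {i0}
  hX : X = {a, b, c}
  hab : a ≠ b
  hac : a ≠ c
  hbc : b ≠ c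
  hMc : Ez B M c = ∅
  row : ∀ z ∈ X, (Ez B M z).card + (Ez B L z).card = 4

theorem T2.aX (h : T2 B C X M L a b c i0) : a ∈ X := by rw [h.hX]; simp

theorem T2.bX (h : T2 B C X M L a b c i0) : b ∈ X := by rw [h.hX]; simp

theorem T2.cX (h : T2 B C X M L a b c i0) : c ∈ X := by rw [h.hX]; simp

theorem T2.eLc (h : T2 B C X M L a b c i0) : (Ez B L c).card = 4 := by
  have h1 := h.row c h.cX
  rw [h.hMc, card_empty] at h1
  omega

theorem T2.seesM (h : T2 B C X M L a b c i0) : (Ez B M a).Nonempty ∧ (Ez B M b).Nonempty :=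
  h.toTy.two h.hX h.hMc

theorem T2.refL (h : T2 B C X M L a b c i0) : ¬ Ab B L [Eg B L {c}, Eg B L {a}] ∧
    ¬ Ab B L [Eg B L {c}, Eg B L {b}] := by
  refine ⟨h.toTy.swap.refuse (a := c) (b := a) (c := b) ?_ h.hbc.symm h.hab h.seesM.2,
    h.toTy.swap.refuse (a := c) (b := b) (c := a) ?_ h.hac.symm h.hab.symm h.seesM.1⟩
  · rw [h.hX]
    ext v
    simp only [mem_insert, mem_singleton]
    tauto
  · rw [h.hX]
    ext v
    simp only [mem_insert, mem_singleton]
    tauto

theorem T2.refM (h : T2 B C X M L a b c i0) : ¬ Ab B M [Eg B M {a}, Eg B M {b}] :=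
  h.toTy.refuse h.hX h.hac h.hbc (card_pos.1 (by rw [h.eLc]; norm_num))

theorem T2.disM (h : T2 B C X M L a b c i0) : Disjoint M {a, b} := by
  rw [disjoint_right]
  intro z hz
  rw [mem_insert, mem_singleton] at hz
  rcases hz with rfl | rfl
  · exact h.toTy.notMem h.aX
  · exact h.toTy.notMem h.bX

theorem T2.sdM (h : T2 B C X M L a b c i0) : (M ∪ {a, b}) \ {a, b} = M := by
  rw [union_sdiff_right]
  exact sdiff_eq_self_of_disjoint h.disM

theorem T2.WC (h : T2 B C X M L a b c i0) : M ∪ {a, b} ⊆ C := by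
  refine union_subset h.toTy.subC fun z hz => ?_
  rw [mem_insert, mem_singleton] at hz
  rcases hz with rfl | rfl
  · exact h.clo.sub h.aX
  · exact h.clo.sub h.bX

theorem T2.cW (h : T2 B C X M L a b c i0) : c ∉ M ∪ {a, b} := by
  rw [mem_union, mem_insert, mem_singleton]
  rintro (h1 | h1 | h1)
  · exact h.toTy.notMem h.cX h1
  · exact h.hac h1.symm
  · exact h.hbc h1.symm

/-- a block meeting `M` stays inside `M` and the two points. -/
theorem T2.blM (h : T2 B C X M L a b c i0) {i : ι} (hi : (B i ∩ M).Nonempty) :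
    B i ∩ C ⊆ M ∪ {a, b} := by
  intro v hv
  have h1 := h.clo.sub_of_mem (L := M) (by simp) hi hv
  rcases mem_union.1 h1 with h2 | h2
  · rw [h.hX, mem_insert, mem_insert, mem_singleton] at h2
    rcases h2 with h3 | h3 | h3
    · simp [h3]
    · simp [h3]
    · exfalso
      have h4 : i ∈ Ez B M c := mem_Ez.2 ⟨h3 ▸ (mem_inter.1 hv).1, hi⟩
      rw [h.hMc] at h4
      exact absurd h4 (notMem_empty _)
  · exact mem_union_left _ h2

theorem T2.blL (h : T2 B C X M L a b c i0) {i : ι} (hi : (B i ∩ L).Nonempty) :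
    B i ∩ C ⊆ X ∪ L := h.clo.sub_of_mem (L := L) (by simp) hi

theorem T2.disML (h : T2 B C X M L a b c i0) : Disjoint M L :=
  (h.clo.sep M (by simp) L (by simp) h.ne).1

theorem T2.L_notMem (h : T2 B C X M L a b c i0) {v : V} (hv : v ∈ L) : v ∉ M ∪ {a, b} := by
  rw [mem_union, mem_insert, mem_singleton]
  rintro (h1 | h1 | h1)
  · exact disjoint_left.1 h.disML h1 hv
  · exact h.toTy.swap.notMem h.aX (h1 ▸ hv)
  · exact h.toTy.swap.notMem h.bX (h1 ▸ hv)

theorem T2.mem_CX (h : T2 B C X M L a b c i0) {v : V} (hv : v ∈ C) (hvX : v ∉ X) :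
    v ∈ M ∨ v ∈ L := by
  have h1 : v ∈ ({M, L} : Finset (Finset V)).biUnion id := by
    rw [h.clo.un]
    exact mem_sdiff.2 ⟨hv, hvX⟩
  rw [mem_biUnion] at h1
  obtain ⟨D, hD, hvD⟩ := h1
  rw [mem_insert, mem_singleton] at hD
  rcases hD with rfl | rfl
  · exact Or.inl hvD
  · exact Or.inr hvD

/-- the blocks of `W = M + a + b` inside `{a, b}`. -/
theorem T2.insW [DecidableEq ι] (h : T2 B C X M L a b c i0) :
    ins B (M ∪ {a, b}) {a, b} = insert i0 (Eg B L {a, b}) := by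
  have hi0 : ∀ v, v ∈ B i0 → v ∈ C → v ∈ X := by
    intro v hv hvC
    rw [← h.bl]
    exact mem_inter.2 ⟨hv, hvC⟩
  have hi0' : ∀ v ∈ X, v ∈ B i0 := by
    intro v hv
    rw [← h.bl] at hv
    exact (mem_inter.1 hv).1
  ext i
  rw [mem_ins, mem_insert, mem_Eg_pair]
  constructor
  · rintro ⟨⟨v, hv⟩, h2⟩
    have h3 := h2 hv
    have hab' : a ∈ B i ∨ b ∈ B i := by
      rw [mem_insert, mem_singleton] at h3
      rw [mem_inter] at hv
      rcases h3 with h3 | h3
      · exact Or.inl (h3 ▸ hv.1)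
      · exact Or.inr (h3 ▸ hv.1)
    by_cases h4 : B i ∩ C ⊆ X
    · left
      have h5 : i ∈ ins B C X := mem_ins.2 ⟨⟨v, mem_inter.2 ⟨(mem_inter.1 hv).1,
        h.WC (mem_inter.1 hv).2⟩⟩, h4⟩
      rw [h.ins1, mem_singleton] at h5
      exact h5
    · right
      rw [not_subset] at h4
      obtain ⟨w, hw, hwX⟩ := h4
      rw [mem_inter] at hw
      rcases h.mem_CX hw.2 hwX with h5 | h5
      · exfalso
        have h6 : w ∈ ({a, b} : Finset V) := h2 (mem_inter.2 ⟨hw.1, mem_union_left _ h5⟩)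
        exact disjoint_left.1 h.disM h5 h6
      · exact ⟨⟨w, mem_inter.2 ⟨hw.1, h5⟩⟩, hab'⟩
  · rintro (rfl | ⟨h1, h2⟩)
    · refine ⟨⟨a, mem_inter.2 ⟨hi0' a h.aX, by simp⟩⟩, fun v hv => ?_⟩
      rw [mem_inter] at hv
      have h3 := hi0 v hv.1 (h.WC hv.2)
      rcases mem_union.1 hv.2 with h4 | h4
      · exact absurd h4 (h.toTy.notMem h3)
      · exact h4
    · refine ⟨?_, fun v hv => ?_⟩
      · rcases h2 with h2 | h2
        · exact ⟨a, mem_inter.2 ⟨h2, by simp⟩⟩
        · exact ⟨b, mem_inter.2 ⟨h2, by simp⟩⟩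
      · rw [mem_inter] at hv
        rcases mem_union.1 hv.2 with h4 | h4
        · exfalso
          have h5 := h.blL h1 (mem_inter.2 ⟨hv.1, h.WC hv.2⟩)
          rcases mem_union.1 h5 with h6 | h6
          · exact h.toTy.notMem h6 h4
          · exact disjoint_left.1 h.disML h4 h6
        · exact h4

theorem T2.i0_notMem (h : T2 B C X M L a b c i0) (S : Finset V) : i0 ∉ Eg B L S := by
  intro h1
  obtain ⟨v, hv⟩ := (mem_Eg.1 h1).1
  rw [mem_inter] at hv
  have h2 : v ∈ X := by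
    rw [← h.bl]
    exact mem_inter.2 ⟨hv.1, h.toTy.swap.subC hv.2⟩
  exact h.toTy.swap.notMem h2 hv.2

theorem T2.connW (h : T2 B C X M L a b c i0) : Conn (gr B) (M ∪ {a, b}) := by
  obtain ⟨⟨i, hi⟩, ⟨j, hj⟩⟩ := h.seesM
  rw [mem_Ez] at hi hj
  obtain ⟨hai, u, hu⟩ := hi
  obtain ⟨hbj, w, hw⟩ := hj
  rw [mem_inter] at hu hw
  have h1 : Conn (gr B) (insert b M) := h.toTy.ce.conn.insert ⟨w, hw.2,
    fun he => h.toTy.notMem h.bX (he ▸ hw.2), j, hbj, hw.1⟩
  have h2 : Conn (gr B) (insert a (insert b M)) := h1.insert ⟨u, mem_insert_of_mem hu.2,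
    fun he => h.toTy.notMem h.aX (he ▸ hu.2), i, hai, hu.1⟩
  have h3 : M ∪ {a, b} = insert a (insert b M) := by
    ext v
    simp only [mem_union, mem_insert, mem_singleton]
    tauto
  rw [h3]
  exact h2

theorem T2.rhoW (h : T2 B C X M L a b c i0) : rho B (M ∪ {a, b}) = rho B M + 1 := by
  have hcov : Cov B (M ∪ {a, b}) := h.toTy.cov.mono h.WC
  refine le_antisymm ?_ (rho_pair_ge hcov h.refM)
  have h1 : ({a, b} : Finset V) ⊆ B i0 := by
    intro v hv
    rw [mem_insert, mem_singleton] at hv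
    have h2 : v ∈ X := by
      rcases hv with rfl | rfl
      · exact h.aX
      · exact h.bX
    rw [← h.bl] at h2
    exact (mem_inter.1 h2).1
  have h2 := rho_le_sdiff h1 hcov
  rwa [h.sdM] at h2

/-- **the set `W` is a member of E**, and the groups have two blocks. -/
theorem T2.eeW (hT : HT.{u} V) (h : T2 B C X M L a b c i0) :
    EE B (M ∪ {a, b}) ∧ (Eg B L {a, b}).card = 2 := by
  classical
  have hn : (Eg B L {a, b}).card ≤ 2 := by
    by_contra hcon
    push Not at hcon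
    have := h.toTy.swap.close1 hT h.hX h.hac h.hbc h.refL.1 h.refL.2 (k := 3) (by norm_num)
      (by norm_num) (by rw [h.eLc]; norm_num) hcon
    rw [h.pL] at this
    norm_num at this
  have h1 := Pv_sdiff (B := B) (W := M ∪ {a, b}) (X := {a, b}) subset_union_right
  rw [h.sdM, h.insW, card_insert_of_notMem (h.i0_notMem _), card_pair h.hab, h.rhoW, h.pM] at h1
  push_cast at h1
  have hck : CK B (M ∪ {a, b}) := ⟨h.ee.reg.mono h.WC, h.ee.tr4.mono h.WC, h.ee.kf.mono h.WC,
    h.connW⟩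
  have h2 := hT ((M ∪ {a, b}).card + 1) ι B _ (Nat.lt_succ_self _) hck.reg hck.tr4 hck.conn hck.kf
  have h3 : (0 : ℤ) ≤ ee B (M ∪ {a, b}) (M ∪ {a, b}) := by positivity
  have h4 : (Eg B L {a, b}).card = 2 := by omega
  rw [h4] at h1
  refine ⟨EE.of hT hck (by rw [h1]; push_cast; ring) ?_, h4⟩
  have h5 := h.toTy.ce.sv
  unfold sv at h5 ⊢
  rw [h.rhoW, card_union_of_disjoint h.disM, card_pair h.hab]
  push_cast
  linarith

/-- the outer blocks of `W` avoid `M`. -/
theorem T2.outW (h : T2 B C X M L a b c i0) {i : ι} (hi : i ∈ Out B C (M ∪ {a, b})) :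
    B i ∩ M = ∅ := by
  rw [← not_nonempty_iff_eq_empty]
  intro hne
  obtain ⟨v, hv⟩ := (mem_Out.1 hi).2
  rw [mem_inter, mem_sdiff] at hv
  exact hv.2.2 (h.blM hne (mem_inter.2 ⟨hv.1, hv.2.1⟩))

/-- type II with a large `W`. -/
theorem T2.large (hT : HT.{u} V) (hG : GH.{u} V C.card) (h : T2 B C X M L a b c i0)
    (h7 : 7 ≤ (M ∪ {a, b}).card) : HasG B C := by
  classical
  obtain ⟨hW, hn⟩ := h.eeW hT
  refine hasG_of_inc hT hG h.ee hW h.WC ?_ h7 ?_ ?_
  · intro he
    exact h.cW (he ▸ h.clo.sub h.cX)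
  · rw [← hn]
    refine card_le_card fun i hi => ?_
    rw [mem_Eg_pair] at hi
    rw [mem_Out]
    obtain ⟨w, hw⟩ := hi.1
    rw [mem_inter] at hw
    refine ⟨?_, w, mem_inter.2 ⟨hw.1, mem_sdiff.2 ⟨h.toTy.swap.subC hw.2, h.L_notMem hw.2⟩⟩⟩
    rcases hi.2 with h2 | h2
    · exact ⟨a, mem_inter.2 ⟨h2, by simp⟩⟩
    · exact ⟨b, mem_inter.2 ⟨h2, by simp⟩⟩
  · rintro i hi j hj hij ⟨T, hT1, hT2, hiT, hjT⟩
    have h1 := h.outW hi
    have h2 := h.outW hj
    have h3 : M ⊆ ((T.erase i).erase j).biUnion B := by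
      intro v hv
      obtain ⟨k, hk, hvk⟩ := mem_biUnion.1 (hT1 (mem_union_left _ hv))
      refine mem_biUnion.2 ⟨k, mem_erase.2 ⟨?_, mem_erase.2 ⟨?_, hk⟩⟩, hvk⟩
      · rintro rfl
        have : v ∈ B k ∩ M := mem_inter.2 ⟨hvk, hv⟩
        rw [h2] at this
        exact absurd this (notMem_empty _)
      · rintro rfl
        have : v ∈ B k ∩ M := mem_inter.2 ⟨hvk, hv⟩
        rw [h1] at this
        exact absurd this (notMem_empty _)
    have h4 := rho_le h3
    rw [card_erase_of_mem (mem_erase.2 ⟨hij.symm, hjT⟩), card_erase_of_mem hiT] at h4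
    rw [h.rhoW] at hT2
    have h5 : 2 ≤ T.card := by
      have h6 : ({i, j} : Finset ι) ⊆ T := by
        intro k hk
        rw [mem_insert, mem_singleton] at hk
        rcases hk with rfl | rfl
        · exact hiT
        · exact hjT
      have h7 := card_le_card h6
      rwa [card_pair hij] at h7
    omega

end

end Pool.Agent.Hyp6
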