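import Pool.Agent.Hyp6.L4Defs

/-!
# HYP6 QNINE: three points with nine blocks

The last case with seven points: the part `L` has three points and nine blocks, two of them (`G2`) are
incompatible with four others (`E3`).
-/

set_option autoImplicit false

namespace Pool.Agent.Hyp6

open Finset Pool.Agent.Hyp5

universe u v

variable {V : Type v} [DecidableEq V] {ι : Type u} [Fintype ι] {B : ι → Finset V}

/-- the hypotheses on the part with three points and nine blocks. -/
structure L9 (B : ι → Finset V) (L : Finset V) (G2 E3 : Finset ι) : Prop where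
  reg : Reg B L
  card : L.card = 3
  tr : ∀ i, (B i ∩ L).card ≤ 2
  cm : cm B L = 9
  cG : G2.card = 2
  cE : E3.card = 4
  dis : Disjoint G2 E3
  mG : ∀ g ∈ G2, (B g ∩ L).Nonempty
  mE : ∀ e ∈ E3, (B e ∩ L).Nonempty
  inc : ∀ g ∈ G2, ∀ e ∈ E3, ¬ L ⊆ B g ∪ B e

variable {L : Finset V} {G2 E3 : Finset ι}

theorem L9.nt1 (h : L9 B L G2 E3) : nt B L 1 = 3 := by
  have h1 := cm_eq3 (B := B) (W := L) (fun i => (h.tr i).trans (by norm_num))
  have h2 := inc_eq3 h.reg (fun i => (h.tr i).trans (by norm_num))
  have h3 : nt B L 3 = 0 := by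
    unfold nt
    rw [card_eq_zero]
    ext i
    rw [mem_trs]
    have := h.tr i
    simp only [notMem_empty, iff_false]
    omega
  rw [h.cm, h3] at h1
  rw [h.card, h3] at h2
  omega

/-- the blocks without the point `z`. -/
theorem L9.without (h : L9 B L G2 E3) {z : V} (hz : z ∈ L) :
    ((tch B L).filter (fun i => z ∉ B i)).card = 4 := by
  classical
  have h1 : (tch B L).filter (fun i => z ∈ B i) = univ.filter (fun i => z ∈ B i) := by
    ext i
    rw [mem_filter, mem_filter, cost_mem_tch]
    exact ⟨fun hi => ⟨mem_univ _, hi.2⟩, fun hi => ⟨⟨z, mem_inter.2 ⟨hi.2, hz⟩⟩, hi.2⟩⟩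
  have h2 := card_filter_add_card_filter_not (s := tch B L) (fun i => z ∈ B i)
  rw [h1, h.reg z hz] at h2
  have h3 : (tch B L).card = 9 := h.cm
  omega

/-- the blocks of `G2` have one point in `L`. -/
theorem L9.single (h : L9 B L G2 E3) {g : ι} (hg : g ∈ G2) : (B g ∩ L).card = 1 := by
  classical
  have h1 := card_pos.2 (h.mG g hg)
  have h2 := h.tr g
  by_contra hne
  have h3 : (B g ∩ L).card = 2 := by omega
  have h4 : (L \ B g).card = 1 := by
    have h5 := card_sdiff_add_card_inter L (B g)
    rw [inter_comm L, h3, h.card] at h5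
    omega
  obtain ⟨c, hc⟩ := card_eq_one.1 h4
  have hcL : c ∈ L ∧ c ∉ B g := by
    have : c ∈ L \ B g := by rw [hc]; exact mem_singleton_self c
    exact mem_sdiff.1 this
  have h5 : insert g E3 ⊆ (tch B L).filter (fun i => c ∉ B i) := by
    intro i hi
    rw [mem_filter, cost_mem_tch]
    rcases mem_insert.1 hi with rfl | hi
    · exact ⟨h.mG i hg, hcL.2⟩
    · refine ⟨h.mE i hi, fun hci => h.inc g hg i hi fun v hv => ?_⟩
      by_cases hvg : v ∈ B g
      · exact mem_union_left _ hvg
      · have : v ∈ L \ B g := mem_sdiff.2 ⟨hv, hvg⟩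
        rw [hc, mem_singleton] at this
        rw [this]
        exact mem_union_right _ hci
  have h6 := card_le_card h5
  rw [card_insert_of_notMem (disjoint_left.1 h.dis hg), h.cE, h.without hcL.1] at h6
  omega

/-- the blocks of `G2` have the same trace. -/
theorem L9.same (h : L9 B L G2 E3) : ∃ u ∈ L, ∀ g ∈ G2, B g ∩ L = {u} := by
  classical
  obtain ⟨g, g', hgg, hG⟩ := card_eq_two.1 h.cG
  have hg : g ∈ G2 := by rw [hG]; simp
  have hg' : g' ∈ G2 := by rw [hG]; simp
  obtain ⟨a, ha⟩ := card_eq_one.1 (h.single hg)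
  obtain ⟨b, hb⟩ := card_eq_one.1 (h.single hg')
  have haL : a ∈ B g ∩ L := by rw [ha]; exact mem_singleton_self a
  have hbL : b ∈ B g' ∩ L := by rw [hb]; exact mem_singleton_self b
  by_cases hab : a = b
  · subst hab
    refine ⟨a, (mem_inter.1 haL).2, fun k hk => ?_⟩
    rw [hG, mem_insert, mem_singleton] at hk
    rcases hk with rfl | rfl
    · exact ha
    · exact hb
  exfalso
  have h4 : (L \ {a, b}).card = 1 := by
    have h5 : ({a, b} : Finset V) ⊆ L := by
      intro v hv
      rw [mem_insert, mem_singleton] at hv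
      rcases hv with rfl | rfl
      · exact (mem_inter.1 haL).2
      · exact (mem_inter.1 hbL).2
    have h6 := card_sdiff_add_card_eq_card h5
    rw [card_pair hab, h.card] at h6
    omega
  obtain ⟨c, hc⟩ := card_eq_one.1 h4
  have hcL : c ∈ L ∧ c ≠ a ∧ c ≠ b := by
    have : c ∈ L \ {a, b} := by rw [hc]; exact mem_singleton_self c
    rw [mem_sdiff, mem_insert, mem_singleton] at this
    push Not at this
    exact this
  have hL : ∀ v ∈ L, v = a ∨ v = b ∨ v = c := by
    intro v hv
    by_cases hva : v = a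
    · exact Or.inl hva
    by_cases hvb : v = b
    · exact Or.inr (Or.inl hvb)
    have : v ∈ L \ {a, b} := by
      rw [mem_sdiff, mem_insert, mem_singleton]
      push Not
      exact ⟨hv, hva, hvb⟩
    rw [hc, mem_singleton] at this
    exact Or.inr (Or.inr this)
  have hcg : c ∉ B g := by
    intro hcg
    have : c ∈ B g ∩ L := mem_inter.2 ⟨hcg, hcL.1⟩
    rw [ha, mem_singleton] at this
    exact hcL.2.1 this
  have hcg' : c ∉ B g' := by
    intro hcg
    have : c ∈ B g' ∩ L := mem_inter.2 ⟨hcg, hcL.1⟩
    rw [hb, mem_singleton] at this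
    exact hcL.2.2 this
  -- the blocks of `E3` through `c` are single
  have hE : ∀ e ∈ E3, c ∈ B e → e ∈ trs B L 1 := by
    intro e he hce
    rw [mem_trs]
    have h7 : B e ∩ L = {c} := by
      refine subset_antisymm (fun v hv => ?_) (singleton_subset_iff.2 (mem_inter.2 ⟨hce, hcL.1⟩))
      rw [mem_inter] at hv
      rw [mem_singleton]
      rcases hL v hv.2 with hv1 | hv1 | hv1
      · exfalso
        refine h.inc g' hg' e he fun w hw => ?_
        rcases hL w hw with hw1 | hw1 | hw1
        · rw [hw1, ← hv1]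
          exact mem_union_right _ hv.1
        · rw [hw1]
          exact mem_union_left _ (mem_inter.1 hbL).1
        · rw [hw1]
          exact mem_union_right _ hce
      · exfalso
        refine h.inc g hg e he fun w hw => ?_
        rcases hL w hw with hw1 | hw1 | hw1
        · rw [hw1]
          exact mem_union_left _ (mem_inter.1 haL).1
        · rw [hw1, ← hv1]
          exact mem_union_right _ hv.1
        · rw [hw1]
          exact mem_union_right _ hce
      · exact hv1
    rw [h7, card_singleton]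
  have hE1 : (E3.filter (fun e => c ∈ B e)) ∪ {g, g'} ⊆ trs B L 1 := by
    intro e he
    rcases mem_union.1 he with he | he
    · exact hE e (mem_filter.1 he).1 (mem_filter.1 he).2
    · rw [mem_insert, mem_singleton] at he
      rw [mem_trs]
      rcases he with rfl | rfl
      · exact h.single hg
      · exact h.single hg'
  have hE2 : (E3.filter (fun e => c ∉ B e)) ∪ {g, g'} ⊆ (tch B L).filter (fun i => c ∉ B i) := by
    intro e he
    rw [mem_filter, cost_mem_tch]
    rcases mem_union.1 he with he | he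
    · exact ⟨h.mE e (mem_filter.1 he).1, (mem_filter.1 he).2⟩
    · rw [mem_insert, mem_singleton] at he
      rcases he with rfl | rfl
      · exact ⟨h.mG _ hg, hcg⟩
      · exact ⟨h.mG _ hg', hcg'⟩
  have hd : ∀ S ⊆ E3, Disjoint S ({g, g'} : Finset ι) := by
    intro S hS
    rw [disjoint_left]
    intro e he he'
    rw [← hG] at he'
    exact disjoint_left.1 h.dis he' (hS he)
  have h8 := card_le_card hE1
  have h9 := card_le_card hE2
  rw [card_union_of_disjoint (hd _ (filter_subset _ _)), card_pair hgg] at h8 h9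
  have h10 : (trs B L 1).card = 3 := h.nt1
  rw [h.without hcL.1] at h9
  have h11 := card_filter_add_card_filter_not (s := E3) (fun e => c ∈ B e)
  rw [h.cE] at h11
  omega

/-- the structure of the part. -/
theorem L9.main (h : L9 B L G2 E3) : ∃ u v w, L = {u, v, w} ∧ u ≠ v ∧ u ≠ w ∧ v ≠ w ∧
    (∀ g ∈ G2, B g ∩ L = {u}) ∧
    (∀ i, (B i ∩ L).Nonempty → i ∉ G2 → i ∉ E3 → B i ∩ L = {v, w}) ∧
    3 ≤ (E3.filter (fun e => u ∈ B e)).card ∧
    (∀ e ∈ E3, (B e ∩ {v, w}).card = 1) := by
  classical
  obtain ⟨u, hu, hG⟩ := h.same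
  have h1 : (L.erase u).card = 2 := by rw [card_erase_of_mem hu, h.card]
  obtain ⟨v, w, hvw, hL⟩ := card_eq_two.1 h1
  have hv : v ∈ L.erase u := by rw [hL]; simp
  have hw : w ∈ L.erase u := by rw [hL]; simp
  rw [mem_erase] at hv hw
  have hL' : L = {u, v, w} := by rw [← insert_erase hu, hL]
  set P := univ.filter (fun i => B i ∩ L = {v, w}) with hP
  have hvwL : ({v, w} : Finset V) ⊆ L := by
    rw [← hL]
    exact erase_subset _ _
  have hPt : P ⊆ (tch B L).filter (fun i => u ∉ B i) := by
    intro i hi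
    rw [hP, mem_filter] at hi
    rw [mem_filter, cost_mem_tch, hi.2]
    refine ⟨insert_nonempty _ _, fun hui => ?_⟩
    have : u ∈ B i ∩ L := mem_inter.2 ⟨hui, hu⟩
    rw [hi.2, mem_insert, mem_singleton] at this
    rcases this with h2 | h2
    · exact hv.1 h2.symm
    · exact hw.1 h2.symm
  have hGP : ∀ g ∈ G2, g ∉ P := by
    intro g hg hgP
    rw [hP, mem_filter, hG g hg] at hgP
    have : v ∈ ({u} : Finset V) := by rw [hgP.2]; simp
    rw [mem_singleton] at this
    exact hv.1 this
  have hEP : ∀ e ∈ E3, e ∉ P := by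
    intro e he heP
    rw [hP, mem_filter] at heP
    obtain ⟨g, hg⟩ := card_pos.1 (by rw [h.cG]; norm_num : 0 < G2.card)
    refine h.inc g hg e he fun z hz => ?_
    by_cases hzu : z = u
    · have : u ∈ B g ∩ L := by rw [hG g hg]; exact mem_singleton_self u
      rw [hzu]
      exact mem_union_left _ (mem_inter.1 this).1
    · have : z ∈ B e ∩ L := by
        rw [heP.2, ← hL]
        exact mem_erase.2 ⟨hzu, hz⟩
      exact mem_union_right _ (mem_inter.1 this).1
  have hsub : G2 ∪ E3 ⊆ tch B L \ P := by
    intro i hi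
    rw [mem_sdiff, cost_mem_tch]
    rcases mem_union.1 hi with hi | hi
    · exact ⟨h.mG i hi, hGP i hi⟩
    · exact ⟨h.mE i hi, hEP i hi⟩
  have hPt' : P ⊆ tch B L := hPt.trans (filter_subset _ _)
  have c1 := card_le_card hsub
  have c2 := card_sdiff_add_card_eq_card hPt'
  have c3 : (tch B L).card = 9 := h.cm
  rw [card_union_of_disjoint h.dis, h.cG, h.cE] at c1
  -- the blocks without `u` which are not `{v, w}` are single
  set R := ((tch B L).filter (fun i => u ∉ B i)) \ P with hR
  have hRs : ∀ i ∈ R, (B i ∩ L).card = 1 := by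
    intro i hi
    rw [hR, mem_sdiff, mem_filter, cost_mem_tch] at hi
    have h2 := card_pos.2 hi.1.1
    have h3 := h.tr i
    by_contra hne
    have h4 : (B i ∩ L).card = 2 := by omega
    apply hi.2
    rw [hP, mem_filter]
    refine ⟨mem_univ _, eq_of_subset_of_card_le (fun z hz => ?_) (by rw [h4, card_pair hvw])⟩
    rw [← hL, mem_erase]
    rw [mem_inter] at hz
    exact ⟨fun he => hi.1.2 (he ▸ hz.1), hz.2⟩
  have hRG : ∀ i ∈ R, i ∉ G2 := by
    intro i hi hiG
    rw [hR, mem_sdiff, mem_filter] at hi
    have : u ∈ B i ∩ L := by rw [hG i hiG]; exact mem_singleton_self u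
    exact hi.1.2 (mem_inter.1 this).1
  have hGs : ∀ g ∈ G2, (B g ∩ L).card = 1 := fun g hg => h.single hg
  have c4 := card_sdiff_add_card_eq_card hPt
  rw [h.without hu, ← hR] at c4
  have c5 : (trs B L 1).card = 3 := h.nt1
  have hRGs : R ∪ G2 ⊆ trs B L 1 := by
    intro i hi
    rw [mem_trs]
    rcases mem_union.1 hi with hi | hi
    · exact hRs i hi
    · exact hGs i hi
  have hRGd : Disjoint R G2 := disjoint_left.2 hRG
  have c6 := card_le_card hRGs
  rw [card_union_of_disjoint hRGd, h.cG, c5] at c6
  have cP : P.card = 3 := by omega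
  have cR : R.card = 1 := by omega
  have hall : G2 ∪ E3 = tch B L \ P := eq_of_subset_of_card_le hsub (by
    rw [card_union_of_disjoint h.dis, h.cG, h.cE]
    omega)
  have hsing : R ∪ G2 = trs B L 1 := eq_of_subset_of_card_le hRGs (by
    rw [card_union_of_disjoint hRGd, h.cG, c5]
    omega)
  refine ⟨u, v, w, hL', hv.1.symm, hw.1.symm, hvw, hG, ?_, ?_, ?_⟩
  · intro i hi hiG hiE
    by_contra hne
    have h2 : i ∈ tch B L \ P := by
      rw [mem_sdiff, cost_mem_tch]
      refine ⟨hi, fun hiP => hne ?_⟩
      rw [hP, mem_filter] at hiP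
      exact hiP.2
    rw [← hall] at h2
    rcases mem_union.1 h2 with h2 | h2
    · exact hiG h2
    · exact hiE h2
  · have h2 : E3.filter (fun e => u ∉ B e) ⊆ R := by
      intro e he
      rw [mem_filter] at he
      rw [hR, mem_sdiff, mem_filter, cost_mem_tch]
      exact ⟨⟨h.mE e he.1, he.2⟩, hEP e he.1⟩
    have h3 := card_le_card h2
    have h4 := card_filter_add_card_filter_not (s := E3) (fun e => u ∈ B e)
    rw [h.cE] at h4
    omega
  · intro e he
    have h2 := h.tr e
    have h3 := card_pos.2 (h.mE e he)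
    by_cases hue : u ∈ B e
    · -- the trace is not `{u}`
      have h4 : (B e ∩ L).card ≠ 1 := by
        intro h4
        have h5 : e ∈ trs B L 1 := mem_trs.2 h4
        rw [← hsing] at h5
        rcases mem_union.1 h5 with h5 | h5
        · rw [hR, mem_sdiff, mem_filter] at h5
          exact h5.1.2 hue
        · exact disjoint_left.1 h.dis h5 he
      have h5 : (B e ∩ L).erase u = B e ∩ {v, w} := by
        rw [← hL]
        ext z
        simp only [mem_erase, mem_inter]
        tauto
      rw [← h5, card_erase_of_mem (mem_inter.2 ⟨hue, hu⟩)]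
      omega
    · have h4 : e ∈ R := by
        rw [hR, mem_sdiff, mem_filter, cost_mem_tch]
        exact ⟨⟨h.mE e he, hue⟩, hEP e he⟩
      have h5 : B e ∩ L = B e ∩ {v, w} := by
        rw [← hL]
        ext z
        simp only [mem_erase, mem_inter]
        constructor
        · rintro ⟨h6, h7⟩
          exact ⟨h6, fun he => hue (he ▸ h6), h7⟩
        · rintro ⟨h6, _, h7⟩
          exact ⟨h6, h7⟩
      rw [← h5]
      exact hRs e h4

end Pool.Agent.Hyp6
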