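import Pool.Agent.Hyp6.L4Defs

/-!
# HYP6 QREST: the last type of triples, counting

Class `E`, last case: every triple `i` has a set `A` of three points which contains two points of the
triple and a point `x` all blocks of which lie inside `A`. These sets are disjoint, at most three
triples have the same set: `|C| <= 7`.
-/

set_option autoImplicit false

namespace Pool.Agent.Hyp6

open Finset Pool.Agent.Hyp5

universe u v

variable {V : Type v} [DecidableEq V] {ι : Type u} [Fintype ι] {B : ι → Finset V}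

/-- the set of the triple `i`: three points with eight blocks, the point `x` is not in the triple. -/
structure Rt (B : ι → Finset V) (C : Finset V) (i : ι) (A : Finset V) (x : V) : Prop where
  sub : A ⊆ C
  card : A.card = 3
  xA : x ∈ A
  xi : x ∉ B i
  two : A.erase x ⊆ B i
  blk : ∀ j, x ∈ B j → B j ∩ C ⊆ A
  cm : cm B A = 8
  tr : ∀ j, (B j ∩ A).card ≤ 2

variable {C A A' : Finset V} {i j : ι} {x x' s : V}

/-- no triple of `C` lies in the set. -/
theorem Rt.not_sub (h : Rt B C i A x) (hj : (B j ∩ C).card = 3) : ¬ B j ∩ C ⊆ A := by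
  intro hs
  have h1 : B j ∩ C ⊆ B j ∩ A := fun v hv => mem_inter.2 ⟨(mem_inter.1 hv).1, hs hv⟩
  have h2 := card_le_card h1
  have h3 := h.tr j
  omega

/-- the point `x` is determined by the set. -/
theorem Rt.x_eq (h : Rt B C i A x) (h' : Rt B C j A x') (hj : (B j ∩ C).card = 3) : x = x' := by
  by_contra hne
  have h1 : x ∈ B j := h'.two (mem_erase.2 ⟨hne, h.xA⟩)
  exact h.not_sub hj (h.blk j h1)

/-- the blocks of `x` and `s`. -/
theorem Rt.deg (h : Rt B C i A x) (hr : Reg B C) (hs : s ∈ A) :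
    2 ≤ (univ.filter (fun j => x ∈ B j ∧ s ∈ B j)).card := by
  classical
  have h1 := hr x (h.sub h.xA)
  have h2 := hr s (h.sub hs)
  have h3 : (univ.filter (fun j => x ∈ B j)) ∪ (univ.filter (fun j => s ∈ B j)) ⊆ tch B A := by
    intro j hj
    rw [cost_mem_tch]
    rcases mem_union.1 hj with hj | hj
    · exact ⟨x, mem_inter.2 ⟨(mem_filter.1 hj).2, h.xA⟩⟩
    · exact ⟨s, mem_inter.2 ⟨(mem_filter.1 hj).2, hs⟩⟩
  have h4 := card_le_card h3
  have h5 := card_union_add_card_inter (univ.filter (fun j => x ∈ B j))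
    (univ.filter (fun j => s ∈ B j))
  have h6 : (univ.filter (fun j => x ∈ B j)) ∩ (univ.filter (fun j => s ∈ B j)) =
      univ.filter (fun j => x ∈ B j ∧ s ∈ B j) := by
    ext j
    simp [mem_inter, mem_filter]
  have h7 : (tch B A).card = 8 := h.cm
  rw [h6] at h5
  omega

/-- the triple and the set have only the two points in common, at most three triples for one set. -/
theorem Rt.fiber (h : Rt B C i A x) (hr : Reg B C) (S : Finset ι)
    (hS : ∀ j ∈ S, (B j ∩ C).card = 3 ∧ ∃ y, Rt B C j A y) : S.card ≤ 3 := by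
  classical
  have h1 : S ⊆ tch B A \ univ.filter (fun j => x ∈ B j) := by
    intro j hj
    obtain ⟨hj3, y, hy⟩ := hS j hj
    have hxy : x = y := h.x_eq hy hj3
    subst hxy
    rw [mem_sdiff, cost_mem_tch, mem_filter]
    refine ⟨?_, fun hx => hy.xi hx.2⟩
    have hne : (A.erase x).Nonempty := by
      rw [← card_pos, card_erase_of_mem hy.xA, hy.card]
      norm_num
    obtain ⟨s, hs⟩ := hne
    exact ⟨s, mem_inter.2 ⟨hy.two hs, (mem_erase.1 hs).2⟩⟩
  have h2 := card_le_card h1
  have h3 : univ.filter (fun j => x ∈ B j) ⊆ tch B A := by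
    intro j hj
    rw [cost_mem_tch]
    exact ⟨x, mem_inter.2 ⟨(mem_filter.1 hj).2, h.xA⟩⟩
  have h4 := card_sdiff_add_card_eq_card h3
  have h5 : (tch B A).card = 8 := h.cm
  have h6 := hr x (h.sub h.xA)
  omega

/-- `x` has a common block with every point of the set. -/
theorem Rt.adj (h : Rt B C i A x) (hr : Reg B C) (hs : s ∈ A) :
    ∃ j, x ∈ B j ∧ s ∈ B j := by
  have h1 := h.deg hr hs
  obtain ⟨j, hj⟩ := card_pos.1 (lt_of_lt_of_le (by norm_num) h1)
  exact ⟨j, (mem_filter.1 hj).2⟩

/-- the special point of one set is not in another one. -/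
theorem Rt.x_notMem (h : Rt B C i A x) (h' : Rt B C j A' x') (hr : Reg B C)
    (hj : (B j ∩ C).card = 3) (hne : A ≠ A') : x ∉ A' := by
  intro hx
  by_cases hxx : x = x'
  · subst hxx
    apply hne
    have hsub : A' ⊆ A := by
      intro s hs
      by_cases hsx : s = x
      · rw [hsx]
        exact h.xA
      · obtain ⟨k, hk1, hk2⟩ := h'.adj hr hs
        exact h.blk k hk1 (mem_inter.2 ⟨hk2, h'.sub hs⟩)
    exact (eq_of_subset_of_card_le hsub (by rw [h.card, h'.card])).symm
  · have h1 : x ∈ B j := h'.two (mem_erase.2 ⟨hxx, hx⟩)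
    exact h.not_sub hj (h.blk j h1)

/-- different sets are disjoint. -/
theorem Rt.disj (h : Rt B C i A x) (h' : Rt B C j A' x') (hr : Reg B C) (hij : i ≠ j)
    (hi : (B i ∩ C).card = 3) (hj : (B j ∩ C).card = 3) (hne : A ≠ A') : Disjoint A A' := by
  classical
  rw [disjoint_left]
  intro s hs hs'
  have hx1 := h.x_notMem h' hr hj hne
  have hx2 := h'.x_notMem h hr hi hne.symm
  have hsx : s ≠ x := fun he => hx1 (he ▸ hs')
  have hsx' : s ≠ x' := fun he => hx2 (he ▸ hs)
  have h3 := h.deg hr hs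
  have h4 := h'.deg hr hs'
  have h5 := hr s (h.sub hs)
  have hiA : s ∈ B i := h.two (mem_erase.2 ⟨hsx, hs⟩)
  have hjA : s ∈ B j := h'.two (mem_erase.2 ⟨hsx', hs'⟩)
  have hxj : x ∉ B j := fun hx => h.not_sub hj (h.blk j hx)
  have hxi' : x' ∉ B i := fun hx => h'.not_sub hi (h'.blk i hx)
  have d1 : Disjoint (univ.filter (fun k => x ∈ B k ∧ s ∈ B k))
      (univ.filter (fun k => x' ∈ B k ∧ s ∈ B k)) := by
    rw [disjoint_left]
    intro k hk hk'
    exact hx2 (h.blk k (mem_filter.1 hk).2.1
      (mem_inter.2 ⟨(mem_filter.1 hk').2.1, h'.sub h'.xA⟩))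
  have d2 : Disjoint (univ.filter (fun k => x ∈ B k ∧ s ∈ B k) ∪
      univ.filter (fun k => x' ∈ B k ∧ s ∈ B k)) {i, j} := by
    rw [disjoint_right]
    intro k hk hk'
    rw [mem_insert, mem_singleton] at hk
    rw [mem_union, mem_filter, mem_filter] at hk'
    rcases hk with rfl | rfl
    · rcases hk' with hk' | hk'
      · exact h.xi hk'.2.1
      · exact hxi' hk'.2.1
    · rcases hk' with hk' | hk'
      · exact hxj hk'.2.1
      · exact h'.xi hk'.2.1
  have h6 : (univ.filter (fun k => x ∈ B k ∧ s ∈ B k) ∪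
      univ.filter (fun k => x' ∈ B k ∧ s ∈ B k)) ∪ {i, j} ⊆ univ.filter (fun k => s ∈ B k) := by
    intro k hk
    rw [mem_filter]
    refine ⟨mem_univ _, ?_⟩
    rcases mem_union.1 hk with hk | hk
    · rcases mem_union.1 hk with hk | hk
      · exact (mem_filter.1 hk).2.2
      · exact (mem_filter.1 hk).2.2
    · rw [mem_insert, mem_singleton] at hk
      rcases hk with rfl | rfl
      · exact hiA
      · exact hjA
  have h7 := card_le_card h6
  rw [card_union_of_disjoint d2, card_union_of_disjoint d1, card_pair hij] at h7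
  omega

/-- the number of triples. -/
theorem rest_nt (hr : Reg B C) (hall : ∀ i, (B i ∩ C).card = 3 → ∃ A x, Rt B C i A x) :
    ∃ k, nt B C 3 ≤ 3 * k ∧ 3 * k ≤ C.card := by
  classical
  choose! f hfg using hall
  refine ⟨((trs B C 3).image f).card, ?_, ?_⟩
  · have h1 : ∀ A ∈ (trs B C 3).image f, ((trs B C 3).filter (fun i => f i = A)).card ≤ 3 := by
      intro A hA
      obtain ⟨i, hi, rfl⟩ := mem_image.1 hA
      rw [mem_trs] at hi
      obtain ⟨x, hx⟩ := hfg i hi
      refine hx.fiber hr _ fun j hj => ?_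
      rw [mem_filter, mem_trs] at hj
      refine ⟨hj.1, ?_⟩
      rw [← hj.2]
      exact hfg j hj.1
    have h2 := card_le_mul_card_image (trs B C 3) 3 h1
    unfold nt
    omega
  · have h1 : ((trs B C 3).image f).biUnion id ⊆ C := by
      intro v hv
      obtain ⟨A, hA, hvA⟩ := mem_biUnion.1 hv
      obtain ⟨i, hi, rfl⟩ := mem_image.1 hA
      rw [mem_trs] at hi
      exact (hfg i hi).choose_spec.sub hvA
    have h2 := card_le_card h1
    rw [card_biUnion] at h2
    · have h3 : ∑ A ∈ (trs B C 3).image f, (id A).card = ∑ A ∈ (trs B C 3).image f, 3 := by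
        refine sum_congr rfl fun A hA => ?_
        obtain ⟨i, hi, rfl⟩ := mem_image.1 hA
        rw [mem_trs] at hi
        exact (hfg i hi).choose_spec.card
      rw [h3, sum_const, smul_eq_mul] at h2
      omega
    · intro A hA A' hA' hne
      obtain ⟨i, hi, rfl⟩ := mem_image.1 hA
      obtain ⟨j, hj, rfl⟩ := mem_image.1 hA'
      rw [mem_trs] at hi hj
      exact (hfg i hi).choose_spec.disj (hfg j hj).choose_spec hr (fun he => hne (by rw [he]))
        hi hj hne

/-- **REST**: at most seven points. -/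
theorem rest_card (hr : Reg B C) (h3 : ∀ i, (B i ∩ C).card ≤ 3)
    (hall : ∀ i, (B i ∩ C).card = 3 → ∃ A x, Rt B C i A x) (hP : Pv B C = -1)
    (hs : sv B C = -1) : C.card ≤ 7 := by
  obtain ⟨k, h1, h2⟩ := rest_nt hr hall
  have h4 := cm_eq3 h3
  have h5 := inc_eq3 hr h3
  have h6 : G B C = 11 := by
    unfold Pv at hP
    linarith
  unfold G at h6
  have h7 : 4 * cm B C = 7 * C.card + 11 := by
    have : (4 * cm B C : ℤ) = 7 * C.card + 11 := by linarith
    exact_mod_cast this
  omega

end Pool.Agent.Hyp6
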