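import Pool.Agent.Hyp6.QPf
import Pool.Agent.Hyp6.QNine
import Pool.Agent.Hyp6.QRest

/-!
# HYP6 QIII: closures of types III and II
-/

set_option autoImplicit false

namespace Pool.Agent.Hyp6

open Finset Pool.Agent.Hyp5

universe u v

section

variable {V : Type v} [DecidableEq V] {ι : Type u} [Fintype ι] {B : ι → Finset V}
  {M C X L : Finset V} {a b c : V}

theorem Ty.refuses (h : Ty B C X M L) (hX : X = {a, b, c}) (hab : a ≠ b) (hac : a ≠ c)
    (hbc : b ≠ c) (ha : (Ez B L a).Nonempty) (hb : (Ez B L b).Nonempty)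
    (hc : (Ez B L c).Nonempty) :
    ¬ Ab B M [Eg B M {a}, Eg B M {b}] ∧ ¬ Ab B M [Eg B M {c}, Eg B M {a}] ∧
      ¬ Ab B M [Eg B M {c}, Eg B M {b}] := by
  refine ⟨h.refuse hX hac hbc hc, ?_, ?_⟩
  · refine h.refuse (a := c) (b := a) (c := b) ?_ hbc.symm hab hb
    rw [hX]
    ext v
    simp only [mem_insert, mem_singleton]
    tauto
  · refine h.refuse (a := c) (b := b) (c := a) ?_ hac.symm hab.symm ha
    rw [hX]
    ext v
    simp only [mem_insert, mem_singleton]
    tauto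

/-- the closing with a merged pair and a single point: `k` blocks each. -/
theorem Ty.close1 (hT : HT.{u} V) (h : Ty B C X M L) (hX : X = {a, b, c}) (hac : a ≠ c)
    (hbc : b ≠ c) (r1 : ¬ Ab B M [Eg B M {c}, Eg B M {a}])
    (r2 : ¬ Ab B M [Eg B M {c}, Eg B M {b}]) {k : ℕ} (hk : 1 ≤ k) (hk4 : k ≤ 4)
    (hc : k ≤ (Ez B M c).card) (hab : k ≤ (Eg B M {a, b}).card) :
    4 * (k : ℤ) - 7 ≤ Pv B M := by
  have haX : a ∈ X := by rw [hX]; simp
  have hbX : b ∈ X := by rw [hX]; simp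
  have hcX : c ∈ X := by rw [hX]; simp
  exact CK.ref1 hT h.ce.ck h.subC h.ee.tr4 (h.single_sub hcX) (h.pair_sub haX hbX)
      (by
        rw [disjoint_singleton_left, mem_insert, mem_singleton, not_or]
        exact ⟨hac.symm, hbc.symm⟩) (not_ab_merge r1 r2) hk hk4
      (by rw [Eg_singleton]; exact hc) hab

/-- the closing with the bonus: the merged pair has `k + 2` blocks. -/
theorem Ty.close2 (hT : HT.{u} V) (h : Ty B C X M L) (hX : X = {a, b, c}) (hac : a ≠ c)
    (hbc : b ≠ c) (r1 : ¬ Ab B M [Eg B M {c}, Eg B M {a}])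
    (r2 : ¬ Ab B M [Eg B M {c}, Eg B M {b}]) {k : ℕ} (hk : 1 ≤ k) (hk2 : k ≤ 2)
    (hc : k ≤ (Ez B M c).card) (hab : k + 2 ≤ (Eg B M {a, b}).card) :
    4 * (k : ℤ) - 5 ≤ Pv B M := by
  have haX : a ∈ X := by rw [hX]; simp
  have hbX : b ∈ X := by rw [hX]; simp
  have hcX : c ∈ X := by rw [hX]; simp
  exact CK.ref2 hT h.ce.ck h.subC h.ee.tr4 (h.pair_sub haX hbX) (h.single_sub hcX)
      (by
        rw [disjoint_singleton_right, mem_insert, mem_singleton, not_or]
        exact ⟨hac.symm, hbc.symm⟩) (not_ab_symm (not_ab_merge r1 r2)) hk hk2 hab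
      (by rw [Eg_singleton]; exact hc)

/-- two single points. -/
theorem Ty.close (hT : HT.{u} V) (h : Ty B C X M L) (haX : a ∈ X) (hbX : b ∈ X) (hab : a ≠ b)
    (r : ¬ Ab B M [Eg B M {a}, Eg B M {b}]) {k : ℕ} (hk : 1 ≤ k) (hk4 : k ≤ 4)
    (ha : k ≤ (Ez B M a).card) (hb : k ≤ (Ez B M b).card) : 4 * (k : ℤ) - 7 ≤ Pv B M :=
  CK.ref1 hT h.ce.ck h.subC h.ee.tr4 (h.single_sub haX) (h.single_sub hbX)
      (by rwa [disjoint_singleton]) r hk hk4
      (by rw [Eg_singleton]; exact ha) (by rw [Eg_singleton]; exact hb)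

/-- two single points with the bonus. -/
theorem Ty.closeb (hT : HT.{u} V) (h : Ty B C X M L) (haX : a ∈ X) (hbX : b ∈ X) (hab : a ≠ b)
    (r : ¬ Ab B M [Eg B M {a}, Eg B M {b}]) {k : ℕ} (hk : 1 ≤ k) (hk2 : k ≤ 2)
    (ha : k + 2 ≤ (Ez B M a).card) (hb : k ≤ (Ez B M b).card) : 4 * (k : ℤ) - 5 ≤ Pv B M :=
  CK.ref2 hT h.ce.ck h.subC h.ee.tr4 (h.single_sub haX) (h.single_sub hbX)
      (by rwa [disjoint_singleton]) r hk hk2
      (by rw [Eg_singleton]; exact ha) (by rw [Eg_singleton]; exact hb)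

/-- **type III.** -/
theorem Ty.typeIII (hT : HT.{u} V) (h : Ty B C X M L) (hM : EE B M) (hL : Pv B L = 1)
    (hrow : ∀ z ∈ X, 3 ≤ (Ez B M z).card + (Ez B L z).card) : ∃ y β, PForm B C M y β := by
  rcases h.cases hT hM hrow with h1 | ⟨h1, h2⟩
  · exact h1
  exfalso
  obtain ⟨c, hc⟩ := h.xne
  obtain ⟨a, b, hab, hac, hbc, hX⟩ := three_pts h.c3 hc
  have haX : a ∈ X := by rw [hX]; simp
  have hbX : b ∈ X := by rw [hX]; simp
  have hne : ∀ z ∈ X, (Ez B M z).Nonempty := fun z hz => card_pos.1 (by rw [h1 z hz]; norm_num)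
  obtain ⟨r0, r1, r2⟩ := h.swap.refuses hX hab hac hbc (hne a haX) (hne b hbX) (hne c hc)
  have e1 := card_Eg_pair h.swap.ce r0
  have ha := hrow a haX
  have hb := hrow b hbX
  have hc' := hrow c hc
  rw [h1 a haX] at ha
  rw [h1 b hbX] at hb
  rw [h1 c hc] at hc'
  have h3 := h.swap.close2 hT hX hac hbc r1 r2 (k := 2) (by norm_num) (by norm_num) (by omega)
    (by rw [e1]; omega)
  rw [hL] at h3
  norm_num at h3

/-- type II, all rows positive: impossible. -/
theorem Ty.typeII_pos (hT : HT.{u} V) (h : Ty B C X M L) (hM : Pv B M = 1) (hL : Pv B L = 3)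
    (hrow : ∀ z ∈ X, (Ez B M z).card + (Ez B L z).card = 4)
    (hMX : ∀ z ∈ X, (Ez B M z).Nonempty) (hLX : ∀ z ∈ X, (Ez B L z).Nonempty) : False := by
  obtain ⟨c, hc⟩ := h.xne
  obtain ⟨a, b, hab, hac, hbc, hX⟩ := three_pts h.c3 hc
  have haX : a ∈ X := by rw [hX]; simp
  have hbX : b ∈ X := by rw [hX]; simp
  have hX1 : X = {b, c, a} := by
    rw [hX]
    ext v
    simp only [mem_insert, mem_singleton]
    tauto
  have hX2 : X = {c, a, b} := by
    rw [hX]
    ext v
    simp only [mem_insert, mem_singleton]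
    tauto
  obtain ⟨m0, m1, m2⟩ := h.refuses hX hab hac hbc (hLX a haX) (hLX b hbX) (hLX c hc)
  obtain ⟨l0, l1, l2⟩ := h.swap.refuses hX hab hac hbc (hMX a haX) (hMX b hbX) (hMX c hc)
  have eM := card_Eg_pair h.ce m0
  have eM1 := card_Eg_pair h.ce (not_ab_symm m2)
  have eM2 := card_Eg_pair h.ce m1
  have eL := card_Eg_pair h.swap.ce l0
  have eL1 := card_Eg_pair h.swap.ce (not_ab_symm l2)
  have eL2 := card_Eg_pair h.swap.ce l1
  have ra := hrow a haX
  have rb := hrow b hbX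
  have rc := hrow c hc
  -- closings at `L`
  have L1 : ¬ (3 ≤ (Ez B L a).card ∧ 3 ≤ (Ez B L b).card) := by
    rintro ⟨h1, h2⟩
    have := h.swap.close hT haX hbX hab l0 (k := 3) (by norm_num) (by norm_num) h1 h2
    rw [hL] at this
    norm_num at this
  have L2 : ¬ (3 ≤ (Ez B L c).card ∧ 3 ≤ (Ez B L a).card) := by
    rintro ⟨h1, h2⟩
    have := h.swap.close hT hc haX hac.symm l1 (k := 3) (by norm_num) (by norm_num) h1 h2
    rw [hL] at this
    norm_num at this
  have L3 : ¬ (3 ≤ (Ez B L c).card ∧ 3 ≤ (Ez B L b).card) := by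
    rintro ⟨h1, h2⟩
    have := h.swap.close hT hc hbX hbc.symm l2 (k := 3) (by norm_num) (by norm_num) h1 h2
    rw [hL] at this
    norm_num at this
  have L4 : ¬ (3 ≤ (Ez B L c).card ∧ 3 ≤ (Ez B L a).card + (Ez B L b).card) := by
    rintro ⟨h1, h2⟩
    have := h.swap.close1 hT hX hac hbc l1 l2 (k := 3) (by norm_num) (by norm_num) h1
      (by rw [eL]; exact h2)
    rw [hL] at this
    norm_num at this
  have L5 : ¬ (3 ≤ (Ez B L a).card ∧ 3 ≤ (Ez B L b).card + (Ez B L c).card) := by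
    rintro ⟨h1, h2⟩
    have := h.swap.close1 hT hX1 hab.symm hac.symm l0 (not_ab_symm l1) (k := 3) (by norm_num)
      (by norm_num) h1 (by rw [eL1]; exact h2)
    rw [hL] at this
    norm_num at this
  have L6 : ¬ (3 ≤ (Ez B L b).card ∧ 3 ≤ (Ez B L c).card + (Ez B L a).card) := by
    rintro ⟨h1, h2⟩
    have := h.swap.close1 hT hX2 hbc.symm hab (not_ab_symm l2) (not_ab_symm l0) (k := 3)
      (by norm_num) (by norm_num) h1 (by rw [eL2]; exact h2)
    rw [hL] at this
    norm_num at this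
  -- closings at `M`
  have M1 : ¬ (3 ≤ (Ez B M c).card ∧ 3 ≤ (Ez B M a).card + (Ez B M b).card) := by
    rintro ⟨h1, h2⟩
    have := h.close1 hT hX hac hbc m1 m2 (k := 3) (by norm_num) (by norm_num) h1
      (by rw [eM]; exact h2)
    rw [hM] at this
    norm_num at this
  have M2 : ¬ (3 ≤ (Ez B M a).card ∧ 3 ≤ (Ez B M b).card + (Ez B M c).card) := by
    rintro ⟨h1, h2⟩
    have := h.close1 hT hX1 hab.symm hac.symm m0 (not_ab_symm m1) (k := 3) (by norm_num)
      (by norm_num) h1 (by rw [eM1]; exact h2)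
    rw [hM] at this
    norm_num at this
  have M3 : ¬ (3 ≤ (Ez B M b).card ∧ 3 ≤ (Ez B M c).card + (Ez B M a).card) := by
    rintro ⟨h1, h2⟩
    have := h.close1 hT hX2 hbc.symm hab (not_ab_symm m2) (not_ab_symm m0) (k := 3)
      (by norm_num) (by norm_num) h1 (by rw [eM2]; exact h2)
    rw [hM] at this
    norm_num at this
  have M4 : ¬ (2 ≤ (Ez B M c).card ∧ 4 ≤ (Ez B M a).card + (Ez B M b).card) := by
    rintro ⟨h1, h2⟩
    have := h.close2 hT hX hac hbc m1 m2 (k := 2) (by norm_num) (by norm_num) h1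
      (by rw [eM]; exact h2)
    rw [hM] at this
    norm_num at this
  have pa := card_pos.2 (hMX a haX)
  have pb := card_pos.2 (hMX b hbX)
  have pc := card_pos.2 (hMX c hc)
  have qa := card_pos.2 (hLX a haX)
  have qb := card_pos.2 (hLX b hbX)
  have qc := card_pos.2 (hLX c hc)
  omega

/-- type II: `L` sees all points. -/
theorem Ty.typeII_L (hT : HT.{u} V) (h : Ty B C X M L) (hM : Pv B M = 1) (hL : Pv B L = 3)
    (hrow : ∀ z ∈ X, (Ez B M z).card + (Ez B L z).card = 4) {c : V} (hc : c ∈ X)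
    (hLc : Ez B L c = ∅) : False := by
  obtain ⟨a, b, hab, hac, hbc, hX⟩ := three_pts h.c3 hc
  have haX : a ∈ X := by rw [hX]; simp
  have hbX : b ∈ X := by rw [hX]; simp
  obtain ⟨hLa, hLb⟩ := h.swap.two hX hLc
  have rc := hrow c hc
  rw [hLc, card_empty] at rc
  have ra := hrow a haX
  have rb := hrow b hbX
  have r1 : ¬ Ab B M [Eg B M {c}, Eg B M {a}] :=
    h.refuse (a := c) (b := a) (c := b) (by rw [hX]; ext v; simp only [mem_insert, mem_singleton]
                                            tauto) hbc.symm hab hLb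
  have r2 : ¬ Ab B M [Eg B M {c}, Eg B M {b}] :=
    h.refuse (a := c) (b := b) (c := a) (by rw [hX]; ext v; simp only [mem_insert, mem_singleton]
                                            tauto) hac.symm hab.symm hLa
  have hMc : (Ez B M c).Nonempty := card_pos.1 (by omega)
  have l0 := h.swap.refuse hX hac hbc hMc
  have M1 : ¬ (2 ≤ (Ez B M a).card) := by
    intro h2
    have := h.closeb hT hc haX hac.symm r1 (k := 2) (by norm_num) (by norm_num) (by omega) h2
    rw [hM] at this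
    norm_num at this
  have M2 : ¬ (2 ≤ (Ez B M b).card) := by
    intro h2
    have := h.closeb hT hc hbX hbc.symm r2 (k := 2) (by norm_num) (by norm_num) (by omega) h2
    rw [hM] at this
    norm_num at this
  have := h.swap.close hT haX hbX hab l0 (k := 3) (by norm_num) (by norm_num) (by omega)
    (by omega)
  rw [hL] at this
  norm_num at this

end

end Pool.Agent.Hyp6
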