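import Pool.Agent.Hyp6.QII

/-!
# HYP6 QIIB: closures of type II with a one-point component
-/

set_option autoImplicit false

namespace Pool.Agent.Hyp6

open Finset Pool.Agent.Hyp5

universe u v

section

variable {V : Type v} [DecidableEq V] {ι : Type u} [Fintype ι] {B : ι → Finset V}
  {M C X L : Finset V} {a b c : V} {i0 : ι}

theorem ee_mod (h : EE B C) : 4 * cm B C = 7 * C.card + 11 := by
  have h1 := h.pv
  have h2 := h.sv
  unfold Pv G at h1
  rw [h2] at h1
  have : (4 * cm B C : ℤ) = 7 * C.card + 11 := by linarith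
  exact_mod_cast this

theorem ee_rho (h : EE B C) : C.card + 1 = 2 * rho B C := by
  have h2 := h.sv
  unfold sv at h2
  have : (C.card : ℤ) + 1 = 2 * rho B C := by linarith
  exact_mod_cast this

theorem T2.cardW (h : T2 B C X M L a b c i0) : (M ∪ {a, b}).card = M.card + 2 := by
  rw [card_union_of_disjoint h.disM, card_pair h.hab]

/-- the set `W` of a one-point component. -/
theorem T2.rt (hT : HT.{u} V) (h : T2 B C X M L a b c i0) {x : V} (hM : M = {x}) :
    Rt B C i0 (M ∪ {a, b}) x := by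
  obtain ⟨hW, hn⟩ := h.eeW hT
  have hc3 : (M ∪ {a, b}).card = 3 := by rw [h.cardW, hM, card_singleton]
  have hxM : x ∈ M := by rw [hM]; exact mem_singleton_self x
  refine ⟨h.WC, hc3, mem_union_left _ hxM, ?_, ?_, ?_, ?_, ?_⟩
  · intro hx
    have h1 : x ∈ X := by
      rw [← h.bl]
      exact mem_inter.2 ⟨hx, h.toTy.subC hxM⟩
    exact h.toTy.notMem h1 hxM
  · intro v hv
    rw [mem_erase, mem_union, hM, mem_singleton] at hv
    have h1 : v ∈ X := by
      rcases hv.2 with h2 | h2
      · exact absurd h2 hv.1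
      · rw [mem_insert, mem_singleton] at h2
        rcases h2 with rfl | rfl
        · exact h.aX
        · exact h.bX
    rw [← h.bl] at h1
    exact (mem_inter.1 h1).1
  · intro j hj
    exact h.blM ⟨x, mem_inter.2 ⟨hj, hxM⟩⟩
  · have h1 := ee_mod hW
    rw [hc3] at h1
    omega
  · intro j
    by_contra hcon
    push Not at hcon
    have h1 : (M ∪ {a, b}) ⊆ B j := by
      have h2 : B j ∩ (M ∪ {a, b}) = M ∪ {a, b} :=
        eq_of_subset_of_card_le inter_subset_right (by rw [hc3]; omega)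
      rw [← h2]
      exact inter_subset_left
    have h2 := rho_le_one h1
    have h3 := ee_rho hW
    rw [hc3] at h3
    omega

theorem T2.card_C (h : T2 B C X M L a b c i0) : C.card = M.card + L.card + 3 := by
  have h1 := card_sdiff_add_card_eq_card h.clo.sub
  have h2 : C \ X = M ∪ L := by
    rw [← h.clo.un]
    ext v
    simp
  rw [h2, card_union_of_disjoint h.disML, h.c3] at h1
  exact h1.symm

/-- the part `L` if `C` has seven points. -/
theorem T2.l9 (hT : HT.{u} V) (h : T2 B C X M L a b c i0) {x : V} (hM : M = {x})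
    (h7 : C.card = 7) : L9 B L (Eg B L {a, b}) (Ez B L c) := by
  classical
  obtain ⟨hW, hn⟩ := h.eeW hT
  have hL3 : L.card = 3 := by
    have h1 := h.card_C
    rw [h7, hM, card_singleton] at h1
    omega
  have hce := h.toTy.swap.ce
  have hrho : rho B L = 2 := by
    have h1 := hce.sv
    unfold sv at h1
    rw [hL3] at h1
    push_cast at h1
    have : (rho B L : ℤ) = 2 := by linarith
    exact_mod_cast this
  have r := not_ab_merge h.refL.1 h.refL.2
  refine ⟨hce.reg, hL3, ?_, ?_, hn, h.eLc, ?_, ?_, ?_, ?_⟩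
  · intro i
    by_contra hcon
    push Not at hcon
    have h1 : L ⊆ B i := by
      have h2 : B i ∩ L = L := eq_of_subset_of_card_le inter_subset_right (by rw [hL3]; omega)
      rw [← h2]
      exact inter_subset_left
    have h2 := rho_le_one h1
    omega
  · have h1 := h.pL
    rw [Pv_eq, hL3, hrho] at h1
    push_cast at h1
    have : (cm B L : ℤ) = 9 := by linarith
    exact_mod_cast this
  · have h1 := disj_of_refuse hce r
    rw [Eg_singleton] at h1
    exact h1.symm
  · intro g hg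
    exact (mem_Eg.1 hg).1
  · intro e he
    exact (mem_Ez.1 he).2
  · intro g hg e he hsub
    refine r ⟨{e, g}, ?_, ?_, fun E hE => ?_⟩
    · intro v hv
      rw [mem_biUnion]
      rcases mem_union.1 (hsub hv) with h1 | h1
      · exact ⟨g, by simp, h1⟩
      · exact ⟨e, by simp, h1⟩
    · rw [hrho]
      exact card_le_two
    · rw [List.mem_cons, List.mem_cons] at hE
      rcases hE with rfl | rfl | hE
      · exact ⟨e, by simp, by rw [Eg_singleton]; exact he⟩
      · exact ⟨g, by simp, hg⟩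
      · exact absurd hE (by simp)

/-- the gadget of the last case. -/
theorem T2.seven (hT : HT.{u} V) (h : T2 B C X M L a b c i0) {x : V} (hM : M = {x})
    (h7 : C.card = 7) : HasG B C := by
  classical
  have h9 := h.l9 hT hM h7
  obtain ⟨u, v, w, hL, huv, huw, hvw, hG, hall, hE3, hE1⟩ := h9.main
  have huL : u ∈ L := by rw [hL]; simp
  have hvL : v ∈ L := by rw [hL]; simp
  have hwL : w ∈ L := by rw [hL]; simp
  have hcL : c ∉ L := h.toTy.swap.notMem h.cX
  have hcu : c ≠ u := fun he => hcL (he ▸ huL)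
  have hcv : c ≠ v := fun he => hcL (he ▸ hvL)
  have hcw : c ≠ w := fun he => hcL (he ▸ hwL)
  have hLC : L ⊆ C := h.toTy.swap.subC
  have hcC : c ∈ C := h.clo.sub h.cX
  have haL : a ∉ L := h.toTy.swap.notMem h.aX
  have hi0c : c ∈ B i0 := by
    have := h.cX
    rw [← h.bl] at this
    exact (mem_inter.1 this).1
  have hi0a : a ∈ B i0 := by
    have := h.aX
    rw [← h.bl] at this
    exact (mem_inter.1 this).1
  have hi0L : ∀ z ∈ L, z ∉ B i0 := by
    intro z hz hzi
    have : z ∈ X := by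
      rw [← h.bl]
      exact mem_inter.2 ⟨hzi, hLC hz⟩
    exact h.toTy.swap.notMem this hz
  -- the blocks through `c`
  have hcB : ∀ i, c ∈ B i → i = i0 ∨ i ∈ Ez B L c := by
    intro i hi
    by_cases h1 : B i ∩ C ⊆ X
    · left
      have h2 : i ∈ ins B C X := mem_ins.2 ⟨⟨c, mem_inter.2 ⟨hi, hcC⟩⟩, h1⟩
      rw [h.ins1, mem_singleton] at h2
      exact h2
    · rw [not_subset] at h1
      obtain ⟨z, hz, hzX⟩ := h1
      rw [mem_inter] at hz
      rcases h.mem_CX hz.2 hzX with h2 | h2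
      · exfalso
        have h3 : i ∈ Ez B M c := mem_Ez.2 ⟨hi, z, mem_inter.2 ⟨hz.1, h2⟩⟩
        rw [h.hMc] at h3
        exact absurd h3 (notMem_empty _)
      · exact Or.inr (mem_Ez.2 ⟨hi, z, mem_inter.2 ⟨hz.1, h2⟩⟩)
  have hEG : ∀ e ∈ Ez B L c, a ∉ B e ∧ b ∉ B e := by
    intro e he
    have h1 : e ∉ Eg B L {a, b} := fun hg => disjoint_left.1 h9.dis hg he
    exact ⟨fun hae => h1 (mem_Eg_pair.2 ⟨(mem_Ez.1 he).2, Or.inl hae⟩),
      fun hbe => h1 (mem_Eg_pair.2 ⟨(mem_Ez.1 he).2, Or.inr hbe⟩)⟩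
  -- the traces on `{c, v, w}`
  have hA : ∀ i, B i ∩ {c, v, w} = (B i ∩ {c}) ∪ (B i ∩ {v, w}) := by
    intro i
    ext z
    simp only [mem_inter, mem_insert, mem_singleton, mem_union]
    tauto
  have hcE : ∀ e ∈ Ez B L c, B e ∩ {c} = {c} := by
    intro e he
    rw [inter_eq_right, singleton_subset_iff]
    exact (mem_Ez.1 he).1
  have hcI : ∀ i, c ∉ B i → B i ∩ {c} = ∅ := by
    intro i hi
    rw [inter_singleton_of_notMem hi]
  have hvwL : ({v, w} : Finset V) ⊆ L := by
    intro z hz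
    rw [mem_insert, mem_singleton] at hz
    rcases hz with rfl | rfl
    · exact hvL
    · exact hwL
  have hout : ∀ i, (B i ∩ L).Nonempty → i ∉ Eg B L {a, b} → i ∉ Ez B L c →
      B i ∩ ({v, w} : Finset V) = {v, w} := by
    intro i hi h1 h2
    have h3 := hall i hi h1 h2
    rw [inter_eq_right, ← h3]
    exact inter_subset_left
  have hGvw : ∀ g ∈ Eg B L {a, b}, B g ∩ ({v, w} : Finset V) = ∅ := by
    intro g hg
    rw [eq_empty_iff_forall_notMem]
    intro z hz
    rw [mem_inter] at hz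
    have h1 : z ∈ B g ∩ L := mem_inter.2 ⟨hz.1, hvwL hz.2⟩
    rw [hG g hg, mem_singleton] at h1
    rw [h1, mem_insert, mem_singleton] at hz
    rcases hz.2 with h2 | h2
    · exact huv h2
    · exact huw h2
  have hGc : ∀ g ∈ Eg B L {a, b}, c ∉ B g := by
    intro g hg hcg
    exact disjoint_left.1 h9.dis hg (mem_Ez.2 ⟨hcg, (mem_Eg.1 hg).1⟩)
  -- the number of blocks `{v, w}`
  set P := tch B L \ (Eg B L {a, b} ∪ Ez B L c) with hP
  have hPc : P.card = 3 := by
    have h1 : Eg B L {a, b} ∪ Ez B L c ⊆ tch B L := by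
      intro i hi
      rw [cost_mem_tch]
      rcases mem_union.1 hi with h2 | h2
      · exact (mem_Eg.1 h2).1
      · exact (mem_Ez.1 h2).2
    have h2 := card_sdiff_add_card_eq_card h1
    rw [card_union_of_disjoint h9.dis, h9.cG, h9.cE] at h2
    have h3 : (tch B L).card = 9 := h9.cm
    rw [hP]
    omega
  have hPi : ∀ i ∈ P, c ∉ B i ∧ B i ∩ ({v, w} : Finset V) = {v, w} := by
    intro i hi
    rw [hP, mem_sdiff, cost_mem_tch, mem_union, not_or] at hi
    refine ⟨fun hci => ?_, hout i hi.1 hi.2.1 hi.2.2⟩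
    exact hi.2.2 (mem_Ez.2 ⟨hci, hi.1⟩)
  -- the blocks through a point of `{v, w}`
  have hdeg : ∀ z ∈ ({v, w} : Finset V), ((Ez B L c).filter (fun e => z ∈ B e)).card = 2 := by
    intro z hz
    have hzL := hvwL hz
    have h1 : univ.filter (fun i => z ∈ B i) = P ∪ (Ez B L c).filter (fun e => z ∈ B e) := by
      ext i
      rw [mem_filter, mem_union, mem_filter]
      constructor
      · rintro ⟨_, hi⟩
        have hiL : (B i ∩ L).Nonempty := ⟨z, mem_inter.2 ⟨hi, hzL⟩⟩
        by_cases h2 : i ∈ Ez B L c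
        · exact Or.inr ⟨h2, hi⟩
        · left
          rw [hP, mem_sdiff, cost_mem_tch, mem_union, not_or]
          refine ⟨hiL, fun h3 => ?_, h2⟩
          have h4 : z ∈ B i ∩ ({v, w} : Finset V) := mem_inter.2 ⟨hi, hz⟩
          rw [hGvw i h3] at h4
          exact absurd h4 (notMem_empty _)
      · rintro (hi | hi)
        · refine ⟨mem_univ _, ?_⟩
          have h2 : z ∈ B i ∩ ({v, w} : Finset V) := by
            rw [(hPi i hi).2]
            exact hz
          exact (mem_inter.1 h2).1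
        · exact ⟨mem_univ _, hi.2⟩
    have h2 : Disjoint P ((Ez B L c).filter (fun e => z ∈ B e)) := by
      rw [disjoint_left]
      intro i hi hi'
      exact (hPi i hi).1 (mem_Ez.1 (mem_filter.1 hi').1).1
    have h3 := h9.reg z hzL
    rw [h1, card_union_of_disjoint h2, hPc] at h3
    omega
  -- the traces of the blocks of `c`
  have hEtr : ∀ e ∈ Ez B L c, ∀ z ∈ ({v, w} : Finset V), z ∈ B e →
      B e ∩ {c, v, w} = {c, z} := by
    intro e he z hz hze
    rw [hA, hcE e he]
    have h1 : z ∈ B e ∩ ({v, w} : Finset V) := mem_inter.2 ⟨hze, hz⟩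
    obtain ⟨y, hy⟩ := card_eq_one.1 (hE1 e he)
    rw [hy, mem_singleton] at h1
    rw [hy, ← h1]
    rfl
  have hstay : ∀ i, i ≠ i0 → (B i ∩ ({c, v, w} : Finset V)).Nonempty →
      B i ∩ C ⊆ {c, v, w, u} := by
    intro i hne hi
    have hLs : ∀ z ∈ L, z ∈ ({c, v, w, u} : Finset V) := by
      intro z hz
      rw [hL] at hz
      simp only [mem_insert, mem_singleton] at hz ⊢
      tauto
    by_cases hci : c ∈ B i
    · rcases hcB i hci with h1 | h1
      · exact absurd h1 hne
      · intro z hz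
        have h2 := h.blL (mem_Ez.1 h1).2 hz
        rcases mem_union.1 h2 with h3 | h3
        · rw [h.hX, mem_insert, mem_insert, mem_singleton] at h3
          rcases h3 with h4 | h4 | h4
          · exact absurd (h4 ▸ (mem_inter.1 hz).1) (hEG i h1).1
          · exact absurd (h4 ▸ (mem_inter.1 hz).1) (hEG i h1).2
          · rw [h4]
            simp
        · exact hLs z h3
    · obtain ⟨y, hy⟩ := hi
      rw [hA, hcI i hci, empty_union] at hy
      have hyL := hvwL (mem_inter.1 hy).2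
      have hiL : (B i ∩ L).Nonempty := ⟨y, mem_inter.2 ⟨(mem_inter.1 hy).1, hyL⟩⟩
      have hiG : i ∉ Eg B L {a, b} := by
        intro hiG
        rw [hGvw i hiG] at hy
        exact absurd hy (notMem_empty _)
      intro z hz
      have h2 := h.blL hiL hz
      rcases mem_union.1 h2 with h3 | h3
      · rw [h.hX, mem_insert, mem_insert, mem_singleton] at h3
        rcases h3 with h4 | h4 | h4
        · exact absurd (mem_Eg_pair.2 ⟨hiL, Or.inl (h4 ▸ (mem_inter.1 hz).1)⟩) hiG
        · exact absurd (mem_Eg_pair.2 ⟨hiL, Or.inr (h4 ▸ (mem_inter.1 hz).1)⟩) hiG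
        · exact absurd (h4 ▸ (mem_inter.1 hz).1) hci
      · exact hLs z h3
  have hi0tr : B i0 ∩ ({c, v, w} : Finset V) = {c} := by
    rw [hA, inter_eq_right.2 (singleton_subset_iff.2 hi0c)]
    have h1 : B i0 ∩ ({v, w} : Finset V) = ∅ := by
      rw [eq_empty_iff_forall_notMem]
      intro z hz
      rw [mem_inter] at hz
      exact hi0L z (hvwL hz.2) hz.1
    rw [h1, union_empty]
  have hcard : ({c, v, w, u} : Finset V).card = 4 := by
    rw [card_insert_of_notMem, card_insert_of_notMem, card_pair huw.symm]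
    · simp [hvw, huv.symm]
    · simp [hcu, hcv, hcw]
  refine ⟨c, v, w, u, i0, ?_, hcard, ?_, ?_, ?_, ?_, ?_, ?_, ?_, ?_⟩
  · intro z hz
    simp only [mem_insert, mem_singleton] at hz
    rcases hz with rfl | rfl | rfl | rfl
    · exact hcC
    · exact hLC hvL
    · exact hLC hwL
    · exact hLC huL
  · rw [← hPc]
    congr 1
    ext i
    rw [mem_filter]
    constructor
    · rintro ⟨_, hi⟩
      have hci : c ∉ B i := by
        intro hci
        have h1 : c ∈ B i ∩ ({c, v, w} : Finset V) := mem_inter.2 ⟨hci, by simp⟩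
        rw [hi, mem_insert, mem_singleton] at h1
        rcases h1 with h2 | h2
        · exact hcv h2
        · exact hcw h2
      have hvi : v ∈ B i := by
        have h1 : v ∈ B i ∩ ({c, v, w} : Finset V) := by rw [hi]; simp
        exact (mem_inter.1 h1).1
      rw [hP, mem_sdiff, cost_mem_tch, mem_union, not_or]
      refine ⟨⟨v, mem_inter.2 ⟨hvi, hvL⟩⟩, fun h1 => ?_, fun h1 => hci (mem_Ez.1 h1).1⟩
      have h2 : v ∈ B i ∩ ({v, w} : Finset V) := mem_inter.2 ⟨hvi, by simp⟩
      rw [hGvw i h1] at h2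
      exact absurd h2 (notMem_empty _)
    · intro hi
      have h1 := hPi i hi
      refine ⟨mem_univ _, ?_⟩
      rw [hA, hcI i h1.1, empty_union, h1.2]
  · rw [← hdeg v (by simp)]
    congr 1
    ext i
    rw [mem_filter, mem_filter]
    constructor
    · rintro ⟨_, hi⟩
      have hci : c ∈ B i := by
        have h1 : c ∈ B i ∩ ({c, v, w} : Finset V) := by rw [hi]; simp
        exact (mem_inter.1 h1).1
      have hvi : v ∈ B i := by
        have h1 : v ∈ B i ∩ ({c, v, w} : Finset V) := by rw [hi]; simp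
        exact (mem_inter.1 h1).1
      exact ⟨mem_Ez.2 ⟨hci, v, mem_inter.2 ⟨hvi, hvL⟩⟩, hvi⟩
    · rintro ⟨h1, h2⟩
      exact ⟨mem_univ _, hEtr i h1 v (by simp) h2⟩
  · rw [← hdeg w (by simp)]
    congr 1
    ext i
    rw [mem_filter, mem_filter]
    constructor
    · rintro ⟨_, hi⟩
      have hci : c ∈ B i := by
        have h1 : c ∈ B i ∩ ({c, v, w} : Finset V) := by rw [hi]; simp
        exact (mem_inter.1 h1).1
      have hwi : w ∈ B i := by
        have h1 : w ∈ B i ∩ ({c, v, w} : Finset V) := by rw [hi]; simp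
        exact (mem_inter.1 h1).1
      exact ⟨mem_Ez.2 ⟨hci, w, mem_inter.2 ⟨hwi, hwL⟩⟩, hwi⟩
    · rintro ⟨h1, h2⟩
      exact ⟨mem_univ _, hEtr i h1 w (by simp) h2⟩
  · rw [card_eq_one]
    refine ⟨i0, ?_⟩
    ext i
    rw [mem_filter, mem_singleton]
    constructor
    · rintro ⟨_, hi⟩
      have hci : c ∈ B i := by
        have h1 : c ∈ B i ∩ ({c, v, w} : Finset V) := by rw [hi]; simp
        exact (mem_inter.1 h1).1
      rcases hcB i hci with h1 | h1
      · exact h1
      · exfalso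
        obtain ⟨y, hy⟩ := card_eq_one.1 (hE1 i h1)
        have h2 : y ∈ B i ∩ ({v, w} : Finset V) := by rw [hy]; simp
        have h3 : y ∈ B i ∩ ({c, v, w} : Finset V) := by
          rw [hA]
          exact mem_union_right _ h2
        rw [hi, mem_singleton] at h3
        exact hcL (h3 ▸ hvwL (mem_inter.1 h2).2)
    · rintro rfl
      exact ⟨mem_univ _, hi0tr⟩
  · rw [hi0tr]
    exact singleton_nonempty _
  · refine ⟨a, mem_inter.2 ⟨hi0a, mem_sdiff.2 ⟨h.clo.sub h.aX, ?_⟩⟩⟩
    simp only [mem_insert, mem_singleton, not_or]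
    exact ⟨h.hac, fun he => haL (he ▸ hvL), fun he => haL (he ▸ hwL), fun he => haL (he ▸ huL)⟩
  · exact hstay
  · obtain ⟨e, he⟩ := card_pos.1 (lt_of_lt_of_le (by norm_num) hE3)
    rw [mem_filter] at he
    refine ⟨e, ?_, he.2, c, mem_inter.2 ⟨(mem_Ez.1 he.1).1, by simp⟩⟩
    rintro rfl
    exact hi0L u huL he.2

/-- type II, `M` does not see `c`. -/
theorem T2.final (hT : HT.{u} V) (hG : GH.{u} V C.card) (h : T2 B C X M L a b c i0) :
    HasG B C ∨ (C.card ≠ 7 ∧ ∃ A x, Rt B C i0 A x) := by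
  obtain ⟨hW, _⟩ := h.eeW hT
  have h1 := ee_mod hW
  by_cases h7 : 7 ≤ (M ∪ {a, b}).card
  · exact Or.inl (h.large hT hG h7)
  have h2 := h.cardW
  have h3 : 1 ≤ M.card := card_pos.2 h.toTy.ce.conn.1
  have h4 : M.card = 1 := by omega
  obtain ⟨x, hx⟩ := card_eq_one.1 h4
  by_cases hC : C.card = 7
  · exact Or.inl (h.seven hT hx hC)
  · exact Or.inr ⟨hC, _, x, h.rt hT hx⟩

/-- **type II.** -/
theorem Ty.typeII (hT : HT.{u} V) (hG : GH.{u} V C.card) (h : Ty B C X M L)
    (hM : Pv B M = 1) (hL : Pv B L = 3) (hi : B i0 ∩ C = X) (hn : ins B C X = {i0}) :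
    HasG B C ∨ (C.card ≠ 7 ∧ ∃ A x, Rt B C i0 A x) := by
  classical
  have hrow : ∀ z ∈ X, (Ez B M z).card + (Ez B L z).card = 4 := by
    intro z hz
    have hzi : z ∈ B i0 := by
      rw [← hi] at hz
      exact (mem_inter.1 hz).1
    have h1 := h.clo.row1 h.ee.reg hn hz hzi
    rwa [sum_pair h.ne] at h1
  by_cases h1 : ∃ c ∈ X, Ez B L c = ∅
  · obtain ⟨c, hc, h2⟩ := h1
    exact absurd (h.typeII_L hT hM hL hrow hc h2) id
  by_cases h2 : ∃ c ∈ X, Ez B M c = ∅
  · obtain ⟨c, hc, h3⟩ := h2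
    obtain ⟨a, b, hab, hac, hbc, hX⟩ := three_pts h.c3 hc
    exact T2.final hT hG (a := a) (b := b) (c := c) (X := X) (M := M) (L := L) (i0 := i0)
      ⟨h, hM, hL, hi, hn, hX, hab, hac, hbc, h3, hrow⟩
  push Not at h1 h2
  exact absurd (h.typeII_pos hT hM hL hrow h2 h1) id

end

end Pool.Agent.Hyp6
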