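import Pool.Agent.Hyp6.QTy
import Pool.Agent.Hyp6.L4T

/-!
# HYP6 QIV: type IV of theorem G

A member `C` of the class E with a closure `X` of four points and the three components `M1`, `M2` (in E)
and `L` (value `1`) has a gadget. The absorption facts and the P-forms are used through `IVF`.
-/

set_option autoImplicit false

namespace Pool.Agent.Hyp6

open Finset Pool.Agent.Hyp5

universe u v

section

variable {V : Type v} [DecidableEq V] {ι : Type u} [Fintype ι] {B : ι → Finset V}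
variable {C X M : Finset V} {F : Finset (Finset V)}

/-- the facts used in type IV. -/
structure IVF (B : ι → Finset V) (C : Finset V) : Prop where
  r1 : ∀ M, EE B M → M ⊆ C → ∀ G1 G2 : Finset V, G1 ⊆ C \ M → G2 ⊆ C \ M → Disjoint G1 G2 →
    2 ≤ (Eg B M G1).card → 2 ≤ (Eg B M G2).card → Ab B M [Eg B M G1, Eg B M G2]
  r33 : ∀ L, CE B 1 L → L ⊆ C → ∀ y ∈ C \ L, ∀ z ∈ C \ L, y ≠ z →
    3 ≤ (Eg B L {y}).card → 3 ≤ (Eg B L {z}).card → Ab B L [Eg B L {y}, Eg B L {z}]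
  r42 : ∀ L, CE B 1 L → L ⊆ C → ∀ y ∈ C \ L, ∀ z ∈ C \ L, y ≠ z →
    4 ≤ (Eg B L {y}).card → 2 ≤ (Eg B L {z}).card → Ab B L [Eg B L {y}, Eg B L {z}]
  pf : ∀ D y β, PForm B C D y β → D ≠ C → HasG B C
  pf' : ∀ D, EE B D → D ⊆ C → D ≠ C → 7 ≤ D.card →
    (∀ i ∈ Out B C D, ∀ j ∈ Out B C D, i ≠ j → ¬ Cmp B D i j) → 2 ≤ (Out B C D).card → HasG B C

/-- the P-form at a component. -/
theorem Clo.pform (h : Clo B C X F) (hMF : M ∈ F) (hE : EE B M) {u : V} (hu : u ∈ X)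
    (hEu : (Ez B M u).Nonempty) {β : ι} (hβ : Eg B M (X.erase u) = {β})
    (hno : ∀ t ∈ X, t ≠ u → (Ez B M t).Nonempty → ¬ Abz B M {u, t}) : PForm B C M u β := by
  have hcM : Cov B M := hE.ck.cov
  have hβ' : β ∈ Eg B M (X.erase u) := by
    rw [hβ]
    exact mem_singleton_self _
  obtain ⟨hβM, t, ht⟩ := mem_Eg.1 hβ'
  rw [mem_inter, mem_erase] at ht
  obtain ⟨htβ, htu, htX⟩ := ht
  have hMC := h.subC hMF
  have huM : u ∉ M := h.notMem hMF hu
  have key : ∀ i, (B i ∩ M).Nonempty → i ≠ β → ∀ s ∈ B i ∩ (C \ M), s = u := by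
    intro i hi hiβ s hs
    rw [mem_inter, mem_sdiff] at hs
    have h1 := h.sub_of_mem hMF hi (mem_inter.2 ⟨hs.1, hs.2.1⟩)
    rw [mem_union] at h1
    have hsX : s ∈ X := h1.resolve_right hs.2.2
    by_contra hsu
    have h2 : i ∈ Eg B M (X.erase u) :=
      mem_Eg.2 ⟨hi, s, mem_inter.2 ⟨hs.1, mem_erase.2 ⟨hsu, hsX⟩⟩⟩
    rw [hβ, mem_singleton] at h2
    exact hiβ h2
  have hyb : u ∉ B β := fun hub =>
    hno t htX htu ⟨β, mem_Ez.2 ⟨htβ, hβM⟩⟩ (hE.crit.blk_abz hcM hβM hub htβ)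
  have hpart : ∀ i ∈ Out B C M, i ≠ β → B i ∩ (C \ M) = {u} := by
    intro i hi hiβ
    rw [mem_Out] at hi
    obtain ⟨s, hs⟩ := hi.2
    have h1 := key i hi.1 hiβ
    ext v
    rw [mem_singleton]
    constructor
    · exact h1 v
    · rintro rfl
      rw [← h1 s hs]
      exact hs
  refine ⟨hE, hMC, h.sub hu, huM, hyb, ?_, hpart, ?_, ?_⟩
  · exact mem_Out.2 ⟨hβM, t, mem_inter.2 ⟨htβ, mem_sdiff.2 ⟨h.sub htX, h.notMem hMF htX⟩⟩⟩
  · intro i hi hiβ hcmp
    have h1 := hpart i hi hiβ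
    have h2 : u ∈ B i := by
      have : u ∈ B i ∩ (C \ M) := by
        rw [h1]
        exact mem_singleton_self _
      exact (mem_inter.1 this).1
    exact hno t htX htu ⟨β, mem_Ez.2 ⟨htβ, hβM⟩⟩ (hcmp.abz h2 htβ)
  · obtain ⟨i, hi⟩ := hEu
    rw [mem_Ez] at hi
    refine ⟨i, mem_Out.2 ⟨hi.2, u, mem_inter.2 ⟨hi.1, mem_sdiff.2 ⟨h.sub hu, huM⟩⟩⟩, ?_⟩
    rintro rfl
    exact hyb hi.1

/-- a point with two hits refused with all the others gives a gadget. -/
theorem Clo.pq (hf : IVF B C) (h : Clo B C X F) (hcr : Crit B C) (hc : Cov B C)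
    (hC : Conn (gr B) C) (hMF : M ∈ F) (hE : EE B M) {u : V} (hu : u ∈ X)
    (h2 : 2 ≤ (Ez B M u).card)
    (hno : ∀ t ∈ X, t ≠ u → (Ez B M t).Nonempty → ¬ Abz B M {u, t}) : HasG B C := by
  classical
  have hX : X.Nonempty := ⟨u, hu⟩
  have hXM : X ⊆ C \ M := fun v hv => mem_sdiff.2 ⟨h.sub hv, h.notMem hMF hv⟩
  have h3 : (Eg B M (X.erase u)).card ≤ 1 := by
    by_contra hcon
    push Not at hcon
    have h4 := hf.r1 M hE (h.subC hMF) {u} (X.erase u) (singleton_subset_iff.2 (hXM hu))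
      ((erase_subset _ _).trans hXM) (disjoint_singleton_left.2 (notMem_erase _ _))
      (by rwa [Eg_singleton]) hcon
    obtain ⟨i, hi, j, hj, hij⟩ := ab_two.1 h4
    rw [Eg_singleton] at hi
    obtain ⟨hjM, t, ht⟩ := mem_Eg.1 hj
    rw [mem_inter, mem_erase] at ht
    exact hno t ht.2.2 ht.2.1 ⟨j, mem_Ez.2 ⟨ht.1, hjM⟩⟩ (hij.abz (mem_Ez.1 hi).1 ht.1)
  obtain ⟨x, hx, hxu, hEx⟩ := h.h1 hcr hc hC hMF hu
  have h5 : 0 < (Eg B M (X.erase u)).card := by
    rw [card_pos]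
    obtain ⟨i, hi⟩ := hEx
    rw [mem_Ez] at hi
    exact ⟨i, mem_Eg.2 ⟨hi.2, x, mem_inter.2 ⟨hi.1, mem_erase.2 ⟨hxu, hx⟩⟩⟩⟩
  obtain ⟨β, hβ⟩ := card_eq_one.1 (by omega : (Eg B M (X.erase u)).card = 1)
  exact hf.pf M u β (h.pform hMF hE hu (card_pos.1 (by omega)) hβ hno) (h.ne_C hMF hX)

/-- a component seeing only two points which it refuses. -/
theorem Clo.pp (hf : IVF B C) (h : Clo B C X F) (hcr : Crit B C) (hc : Cov B C)
    (hC : Conn (gr B) C) (hMF : M ∈ F) (hE : EE B M) {y z : V} (hy : y ∈ X) (hz : z ∈ X)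
    (hyz : y ≠ z) (hEy : (Ez B M y).Nonempty) (hEz : (Ez B M z).Nonempty)
    (honly : ∀ t ∈ X, (Ez B M t).Nonempty → t = y ∨ t = z) (hno : ¬ Abz B M {y, z}) :
    HasG B C := by
  classical
  have hX : X.Nonempty := ⟨y, hy⟩
  by_cases h2 : 2 ≤ (Ez B M y).card
  · refine h.pq hf hcr hc hC hMF hE hy h2 ?_
    intro t ht hty hEt
    rcases honly t ht hEt with rfl | rfl
    · exact absurd rfl hty
    · exact hno
  · have h3 : (Ez B M y).card = 1 := by
      have := card_pos.2 hEy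
      omega
    obtain ⟨β, hβ⟩ := card_eq_one.1 h3
    have h4 : Eg B M (X.erase z) = {β} := by
      rw [← hβ]
      ext i
      rw [mem_Eg, mem_Ez]
      constructor
      · rintro ⟨h5, t, ht⟩
        rw [mem_inter, mem_erase] at ht
        rcases honly t ht.2.2 ⟨i, mem_Ez.2 ⟨ht.1, h5⟩⟩ with rfl | rfl
        · exact ⟨ht.1, h5⟩
        · exact absurd rfl ht.2.1
      · rintro ⟨h5, h6⟩
        exact ⟨h6, y, mem_inter.2 ⟨h5, mem_erase.2 ⟨hyz, hy⟩⟩⟩
    refine hf.pf M z β (h.pform hMF hE hz hEz h4 ?_) (h.ne_C hMF hX)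
    intro t ht htz hEt
    rcases honly t ht hEt with rfl | rfl
    · rwa [pair_comm]
    · exact absurd rfl htz


/-- in the members of E with three points no four blocks are pairwise incompatible. -/
theorem EE.no_four (hE : EE B M) (h3 : M.card = 3) {S : Finset ι}
    (hS : ∀ i ∈ S, (B i ∩ M).Nonempty) (h4 : 4 ≤ S.card)
    (hinc : ∀ i ∈ S, ∀ j ∈ S, i ≠ j → ¬ Cmp B M i j) : False := by
  classical
  have hrho : rho B M = 2 := by
    have h1 := hE.sv
    unfold Hyp6.sv at h1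
    rw [h3] at h1
    push_cast at h1
    omega
  have hcm : cm B M = 8 := by
    have h1 := hE.pv
    rw [Pv_eq, h3, hrho] at h1
    push_cast at h1
    omega
  have hsum := sum_inc_tch hE.reg
  rw [h3] at hsum
  have hle2 : ∀ i, (B i ∩ M).card ≤ 2 := by
    intro i
    by_contra hcon
    push Not at hcon
    have h1 : B i ∩ M = M := eq_of_subset_of_card_le inter_subset_right (by omega)
    have h2 : M ⊆ ({i} : Finset ι).biUnion B := by
      rw [singleton_biUnion, ← h1]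
      exact inter_subset_left
    have h3 := Hyp6.rho_le h2
    rw [hrho, card_singleton] at h3
    omega
  have hST : S ⊆ tch B M := fun i hi => cost_mem_tch.2 (hS i hi)
  obtain ⟨k, hk, hk2⟩ : ∃ k ∈ S, (B k ∩ M).card = 2 := by
    by_contra hcon
    push Not at hcon
    have h5 : ∑ i ∈ tch B M, ((B i ∩ M).card + if i ∈ S then 1 else 0) ≤ ∑ i ∈ tch B M, 2 := by
      refine sum_le_sum fun i _ => ?_
      have h6 := hle2 i
      split_ifs with h7
      · have := hcon i h7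
        omega
      · omega
    rw [sum_add_distrib, hsum, sum_boole, sum_const, smul_eq_mul] at h5
    have h6 : S ⊆ (tch B M).filter (fun i => i ∈ S) := fun i hi => mem_filter.2 ⟨hST hi, hi⟩
    have h7 := card_le_card h6
    have h8 : (tch B M).card = 8 := hcm
    simp only [Nat.cast_id] at h5
    omega
  have h5 : (M \ B k).card = 1 := by
    have h6 := card_sdiff_add_card_inter M (B k)
    rw [inter_comm] at h6
    omega
  obtain ⟨p, hp⟩ := card_eq_one.1 h5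
  have hpM : p ∈ M \ B k := by
    rw [hp]
    exact mem_singleton_self _
  rw [mem_sdiff] at hpM
  have hmiss : ∀ j ∈ S, p ∉ B j := by
    intro j hj hpj
    by_cases hjk : j = k
    · exact hpM.2 (hjk ▸ hpj)
    · refine hinc k hk j hj (fun h => hjk h.symm) ⟨{k, j}, ?_, ?_, by simp, by simp⟩
      · intro v hv
        rw [mem_biUnion]
        by_cases hvk : v ∈ B k
        · exact ⟨k, by simp, hvk⟩
        · have h6 : v ∈ M \ B k := mem_sdiff.2 ⟨hv, hvk⟩
          rw [hp, mem_singleton] at h6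
          exact ⟨j, by simp, h6 ▸ hpj⟩
      · rw [hrho]
        exact card_le_two
  have h6 : (tch B M).filter (fun i => p ∈ B i) = univ.filter (fun i => p ∈ B i) := by
    ext i
    rw [mem_filter, mem_filter, cost_mem_tch]
    exact ⟨fun h => ⟨mem_univ _, h.2⟩, fun h => ⟨⟨p, mem_inter.2 ⟨h.2, hpM.1⟩⟩, h.2⟩⟩
  have h7 := card_filter_add_card_filter_not (s := tch B M) (fun i => p ∈ B i)
  rw [h6, hE.reg p hpM.1] at h7
  have h8 : S ⊆ (tch B M).filter (fun i => ¬ p ∈ B i) := fun i hi =>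
    mem_filter.2 ⟨hST hi, hmiss i hi⟩
  have h9 := card_le_card h8
  have h10 : (tch B M).card = 8 := hcm
  omega

omit [DecidableEq V] in
theorem Four.cbad {Z : Finset V} {a b c d : V} (h : Four Z a b c d) : Four Z c b a d :=
  ⟨h.mc, h.mb, h.ma, h.md, h.bc.symm, h.ac.symm, h.cd, h.ab.symm, h.bd, h.ad,
    fun x hx => by have := h.cov x hx; tauto⟩

omit [DecidableEq V] in
theorem Four.cabd {Z : Finset V} {a b c d : V} (h : Four Z a b c d) : Four Z c a b d :=
  ⟨h.mc, h.ma, h.mb, h.md, h.ac.symm, h.bc.symm, h.cd, h.ab, h.ad, h.bd,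
    fun x hx => by have := h.cov x hx; tauto⟩

omit [DecidableEq V] in
theorem Four.abdc {Z : Finset V} {a b c d : V} (h : Four Z a b c d) : Four Z a b d c :=
  ⟨h.ma, h.mb, h.md, h.mc, h.ab, h.ad, h.ac, h.bd, h.bc, h.cd.symm,
    fun x hx => by have := h.cov x hx; tauto⟩

theorem prop1 {p q r s : Prop} (a1 : p ∨ q) (a2 : r ∨ s) (a3 : p ∨ r) (a4 : q ∨ s) :
    (p ∧ s) ∨ (q ∧ r) := by tauto

theorem prop2 {p q r s : Prop} (n1 : ¬ (p ∧ s)) (n2 : ¬ (q ∧ r)) (cu : ¬ (¬ p ∧ ¬ r))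
    (cw : ¬ (¬ q ∧ ¬ s)) : (r ∧ s ∧ ¬ p ∧ ¬ q) ∨ (p ∧ q ∧ ¬ r ∧ ¬ s) := by tauto

/-- a point seen only by `M1`. -/
theorem Clo.c1 (hf : IVF B C) {M1 M2 L : Finset V} (h : Clo B C X {M1, M2, L}) (hEC : EE B C)
    (h12 : M1 ≠ M2) (h1L : M1 ≠ L) (h2L : M2 ≠ L) (hE1 : EE B M1) (hn : (ins B C X).card = 1)
    (hX4 : X.card = 4) {u : V} (hu : u ∈ X) (hu2 : ¬ (Ez B M2 u).Nonempty)
    (huL : ¬ (Ez B L u).Nonempty) : HasG B C := by
  classical
  have hc : Cov B C := hEC.ck.cov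
  have hM1 : M1 ∈ ({M1, M2, L} : Finset (Finset V)) := by simp
  have hM2 : M2 ∈ ({M1, M2, L} : Finset (Finset V)) := by simp
  have hL : L ∈ ({M1, M2, L} : Finset (Finset V)) := by simp
  have h4 := h.row_ge hEC.reg hn hu
  rw [sum_insert (by simp [h12, h1L]), sum_pair h2L] at h4
  have h5 : (Ez B M2 u).card = 0 := by
    rw [card_eq_zero]
    exact not_nonempty_iff_eq_empty.1 hu2
  have h6 : (Ez B L u).card = 0 := by
    rw [card_eq_zero]
    exact not_nonempty_iff_eq_empty.1 huL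
  refine h.pq hf hEC.crit hc hEC.conn hM1 hE1 hu (by omega) ?_
  intro t ht htu _ hab
  obtain ⟨p, q, hF⟩ := four_of hX4 hu ht htu.symm
  -- the two others are matched
  obtain ⟨x1, hx1, hx1t, hx1E⟩ := h.h1 hEC.crit hc hEC.conn hM2 ht
  obtain ⟨x2, hx2, hx2t, hx2E⟩ := h.h1 hEC.crit hc hEC.conn hL ht
  obtain ⟨x3, hx3, hx3t, hx3q, hx3E⟩ := h.h2 hEC.crit hc hEC.conn hM2 hL h2L ht hF.md
  obtain ⟨x4, hx4, hx4t, hx4p, hx4E⟩ := h.h2 hEC.crit hc hEC.conn hM2 hL h2L ht hF.mc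
  have a1 : (Ez B M2 p).Nonempty ∨ (Ez B M2 q).Nonempty := by
    rcases hF.cov x1 hx1 with rfl | rfl | rfl | rfl
    · exact absurd hx1E hu2
    · exact absurd rfl hx1t
    · exact Or.inl hx1E
    · exact Or.inr hx1E
  have a2 : (Ez B L p).Nonempty ∨ (Ez B L q).Nonempty := by
    rcases hF.cov x2 hx2 with rfl | rfl | rfl | rfl
    · exact absurd hx2E huL
    · exact absurd rfl hx2t
    · exact Or.inl hx2E
    · exact Or.inr hx2E
  have a3 : (Ez B M2 p).Nonempty ∨ (Ez B L p).Nonempty := by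
    rcases hF.cov x3 hx3 with rfl | rfl | rfl | rfl
    · exact (hx3E.elim hu2 huL).elim
    · exact absurd rfl hx3t
    · exact hx3E
    · exact absurd rfl hx3q
  have a4 : (Ez B M2 q).Nonempty ∨ (Ez B L q).Nonempty := by
    rcases hF.cov x4 hx4 with rfl | rfl | rfl | rfl
    · exact (hx4E.elim hu2 huL).elim
    · exact absurd rfl hx4t
    · exact absurd rfl hx4p
    · exact hx4E
  have hcM2 : Cov B M2 := hc.mono (h.subC hM2)
  have hcL : Cov B L := hc.mono (h.subC hL)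
  rcases prop1 a1 a2 a3 a4 with h7 | h7
  · refine h.assign3 hEC.crit hc ⟨u, hu⟩ h12 h1L h2L hab ((h.crit M2 hM2).pt1 hcM2 h7.1)
      ((h.crit L hL).pt1 hcL h7.2) ?_
    intro x hx
    rcases hF.cov x hx with rfl | rfl | rfl | rfl <;> simp
  · refine h.assign3 hEC.crit hc ⟨u, hu⟩ h12 h1L h2L hab ((h.crit M2 hM2).pt1 hcM2 h7.1)
      ((h.crit L hL).pt1 hcL h7.2) ?_
    intro x hx
    rcases hF.cov x hx with rfl | rfl | rfl | rfl <;> simp

/-- the last case of (i): `w` has one hit in `M2`. -/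
theorem Clo.c3 (hf : IVF B C) {M1 M2 L : Finset V} (h : Clo B C X {M1, M2, L}) (hEC : EE B C)
    (h12 : M1 ≠ M2) (h1L : M1 ≠ L) (h2L : M2 ≠ L) (hE1 : EE B M1) (hn : (ins B C X).card = 1)
    {y z u w : V} (h4 : Four X y z u w) (hy2 : (Ez B M2 y).Nonempty ∨ (Ez B M2 z).Nonempty)
    (hu2 : (Ez B M2 u).Nonempty) (hyL : (Ez B L y).Nonempty) (hzL : (Ez B L z).Nonempty)
    (hwL : ¬ (Ez B L w).Nonempty) (hw1 : (Ez B M2 w).card ≤ 1) : HasG B C := by
  classical
  have hc : Cov B C := hEC.ck.cov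
  have hM1 : M1 ∈ ({M1, M2, L} : Finset (Finset V)) := by simp
  have hM2 : M2 ∈ ({M1, M2, L} : Finset (Finset V)) := by simp
  have hL : L ∈ ({M1, M2, L} : Finset (Finset V)) := by simp
  have hcM2 : Cov B M2 := hc.mono (h.subC hM2)
  have hcL : Cov B L := hc.mono (h.subC hL)
  have h5 := h.row_ge hEC.reg hn h4.md
  rw [sum_insert (by simp [h12, h1L]), sum_pair h2L] at h5
  have h6 : (Ez B L w).card = 0 := by
    rw [card_eq_zero]
    exact not_nonempty_iff_eq_empty.1 hwL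
  refine h.pq hf hEC.crit hc hEC.conn hM1 hE1 h4.md (by omega) ?_
  intro t ht htw _ hab
  have key : ∀ {p q r : V}, Four X p q r w → t = r → (Ez B M2 p).Nonempty → (Ez B L q).Nonempty →
      False := by
    intro p q r hF hr hp hq
    subst hr
    refine h.assign3 hEC.crit hc ⟨y, h4.ma⟩ h12 h1L h2L hab ((h.crit M2 hM2).pt1 hcM2 hp)
      ((h.crit L hL).pt1 hcL hq) ?_
    intro x hx
    rcases hF.cov x hx with rfl | rfl | rfl | rfl <;> simp
  rcases h4.cov t ht with h7 | h7 | h7 | h7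
  · exact key h4.cbad h7 hu2 hzL
  · exact key h4.cabd h7 hu2 hyL
  · rcases hy2 with h8 | h8
    · exact key h4 h7 h8 hzL
    · exact key h4.swap h7 h8 hyL
  · exact absurd h7 htw

/-- (i): `M1` absorbs two of its points. -/
theorem Clo.iv_i (hf : IVF B C) {M1 M2 L : Finset V} (h : Clo B C X {M1, M2, L}) (hEC : EE B C)
    (h12 : M1 ≠ M2) (h1L : M1 ≠ L) (h2L : M2 ≠ L) (hE1 : EE B M1) (hE2 : EE B M2)
    (hn : (ins B C X).card = 1) (hX4 : X.card = 4) {y z u w : V} (h4 : Four X y z u w)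
    (hy1 : (Ez B M1 y).Nonempty) (hz1 : (Ez B M1 z).Nonempty) (hab : Abz B M1 {y, z}) :
    HasG B C := by
  classical
  have hc : Cov B C := hEC.ck.cov
  have hX : X.Nonempty := ⟨y, h4.ma⟩
  have hM1 : M1 ∈ ({M1, M2, L} : Finset (Finset V)) := by simp
  have hM2 : M2 ∈ ({M1, M2, L} : Finset (Finset V)) := by simp
  have hL : L ∈ ({M1, M2, L} : Finset (Finset V)) := by simp
  have hcM1 : Cov B M1 := hc.mono (h.subC hM1)
  have hcM2 : Cov B M2 := hc.mono (h.subC hM2)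
  have hcL : Cov B L := hc.mono (h.subC hL)
  have n1 : ¬ ((Ez B M2 u).Nonempty ∧ (Ez B L w).Nonempty) := by
    rintro ⟨h5, h6⟩
    refine h.assign3 hEC.crit hc hX h12 h1L h2L hab ((h.crit M2 hM2).pt1 hcM2 h5)
      ((h.crit L hL).pt1 hcL h6) ?_
    intro x hx
    rcases h4.cov x hx with rfl | rfl | rfl | rfl <;> simp
  have n2 : ¬ ((Ez B M2 w).Nonempty ∧ (Ez B L u).Nonempty) := by
    rintro ⟨h5, h6⟩
    refine h.assign3 hEC.crit hc hX h12 h1L h2L hab ((h.crit M2 hM2).pt1 hcM2 h5)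
      ((h.crit L hL).pt1 hcL h6) ?_
    intro x hx
    rcases h4.cov x hx with rfl | rfl | rfl | rfl <;> simp
  by_cases cu : ¬ (Ez B M2 u).Nonempty ∧ ¬ (Ez B L u).Nonempty
  · exact h.c1 hf hEC h12 h1L h2L hE1 hn hX4 h4.mc cu.1 cu.2
  by_cases cw : ¬ (Ez B M2 w).Nonempty ∧ ¬ (Ez B L w).Nonempty
  · exact h.c1 hf hEC h12 h1L h2L hE1 hn hX4 h4.md cw.1 cw.2
  rcases prop2 n1 n2 cu cw with ⟨b1, b2, b3, b4⟩ | ⟨b1, b2, b3, b4⟩
  · -- `u`, `w` see `L` and not `M2`
    have hz2 : (Ez B M2 z).Nonempty := by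
      obtain ⟨x, hx, hxy, hxE⟩ := h.h1 hEC.crit hc hEC.conn hM2 h4.ma
      rcases h4.cov x hx with rfl | rfl | rfl | rfl
      · exact absurd rfl hxy
      · exact hxE
      · exact absurd hxE b3
      · exact absurd hxE b4
    have hy2 : (Ez B M2 y).Nonempty := by
      obtain ⟨x, hx, hxy, hxE⟩ := h.h1 hEC.crit hc hEC.conn hM2 h4.mb
      rcases h4.cov x hx with rfl | rfl | rfl | rfl
      · exact hxE
      · exact absurd rfl hxy
      · exact absurd hxE b3
      · exact absurd hxE b4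
    refine h.pp hf hEC.crit hc hEC.conn hM2 hE2 h4.ma h4.mb h4.ab hy2 hz2 ?_ ?_
    · intro t ht htE
      rcases h4.cov t ht with rfl | rfl | rfl | rfl
      · exact Or.inl rfl
      · exact Or.inr rfl
      · exact absurd htE b3
      · exact absurd htE b4
    · intro hab2
      obtain ⟨x, hx, hxy, hxz, hxE⟩ := h.h2 hEC.crit hc hEC.conn hM1 hM2 h12 h4.ma h4.mb
      rcases h4.cov x hx with rfl | rfl | rfl | rfl
      · exact hxy rfl
      · exact hxz rfl
      · have hx1 : (Ez B M1 x).Nonempty := hxE.resolve_right b3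
        refine h.assign3 hEC.crit hc hX h12 h1L h2L ((h.crit M1 hM1).pt1 hcM1 hx1) hab2
          ((h.crit L hL).pt1 hcL b2) ?_
        intro v hv
        rcases h4.cov v hv with rfl | rfl | rfl | rfl <;> simp
      · have hx1 : (Ez B M1 x).Nonempty := hxE.resolve_right b4
        refine h.assign3 hEC.crit hc hX h12 h1L h2L ((h.crit M1 hM1).pt1 hcM1 hx1) hab2
          ((h.crit L hL).pt1 hcL b1) ?_
        intro v hv
        rcases h4.cov v hv with rfl | rfl | rfl | rfl <;> simp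
  · -- `u`, `w` see `M2` and not `L`
    have hzL : (Ez B L z).Nonempty := by
      obtain ⟨x, hx, hxy, hxE⟩ := h.h1 hEC.crit hc hEC.conn hL h4.ma
      rcases h4.cov x hx with rfl | rfl | rfl | rfl
      · exact absurd rfl hxy
      · exact hxE
      · exact absurd hxE b3
      · exact absurd hxE b4
    have hyL : (Ez B L y).Nonempty := by
      obtain ⟨x, hx, hxy, hxE⟩ := h.h1 hEC.crit hc hEC.conn hL h4.mb
      rcases h4.cov x hx with rfl | rfl | rfl | rfl
      · exact hxE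
      · exact absurd rfl hxy
      · exact absurd hxE b3
      · exact absurd hxE b4
    have hno2 : ¬ Abz B M2 {u, w} := by
      intro hab2
      refine h.assign3 hEC.crit hc hX h12 h1L h2L ((h.crit M1 hM1).pt1 hcM1 hy1) hab2
        ((h.crit L hL).pt1 hcL hzL) ?_
      intro v hv
      rcases h4.cov v hv with rfl | rfl | rfl | rfl <;> simp
    by_cases hN : (Ez B M2 y).Nonempty ∨ (Ez B M2 z).Nonempty
    · have hXM : X ⊆ C \ M2 := fun v hv => mem_sdiff.2 ⟨h.sub hv, h.notMem hM2 hv⟩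
      by_cases hw1 : (Ez B M2 w).card ≤ 1
      · exact h.c3 hf hEC h12 h1L h2L hE1 hn h4 hN b1 hyL hzL b4 hw1
      · have hu1 : (Ez B M2 u).card ≤ 1 := by
          by_contra hcon
          push Not at hcon hw1
          refine hno2 (Ab.abz (hf.r1 M2 hE2 (h.subC hM2) {u} {w}
            (singleton_subset_iff.2 (hXM h4.mc)) (singleton_subset_iff.2 (hXM h4.md))
            (disjoint_singleton.2 h4.cd) ?_ ?_))
          · rw [Eg_singleton]
            exact hcon
          · rw [Eg_singleton]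
            exact hw1
        exact h.c3 hf hEC h12 h1L h2L hE1 hn h4.abdc hN b2 hyL hzL b3 hu1
    · push Not at hN
      refine h.pp hf hEC.crit hc hEC.conn hM2 hE2 h4.mc h4.md h4.cd b1 b2 ?_ hno2
      intro t ht htE
      rcases h4.cov t ht with rfl | rfl | rfl | rfl
      · rw [hN.1] at htE
        exact absurd htE (by simp)
      · rw [hN.2] at htE
        exact absurd htE (by simp)
      · exact Or.inl rfl
      · exact Or.inr rfl


/-- (ii): `M` refuses all pairs. -/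
theorem Clo.iv_ii (hf : IVF B C) (h : Clo B C X F) (hEC : EE B C) (hMF : M ∈ F) (hE : EE B M)
    (hX4 : X.card = 4)
    (hno : ∀ y ∈ X, ∀ z ∈ X, y ≠ z → (Ez B M y).Nonempty → (Ez B M z).Nonempty →
      ¬ Abz B M {y, z}) :
    HasG B C ∨ ((∀ t ∈ X, (Ez B M t).card ≤ 1) ∧ ∃ u ∈ X, ¬ (Ez B M u).Nonempty ∧
      ∀ t ∈ X, t ≠ u → (Ez B M t).Nonempty) := by
  classical
  have hc : Cov B C := hEC.ck.cov
  have hcM : Cov B M := hc.mono (h.subC hMF)
  have hXM : X ⊆ C \ M := fun v hv => mem_sdiff.2 ⟨h.sub hv, h.notMem hMF hv⟩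
  have hXne : X.Nonempty := card_pos.1 (by omega)
  by_cases hbig : ∃ u ∈ X, 2 ≤ (Ez B M u).card
  · obtain ⟨u, hu, hu2⟩ := hbig
    exact Or.inl (h.pq hf hEC.crit hc hEC.conn hMF hE hu hu2
      (fun t ht htu htE => hno u hu t ht htu.symm (card_pos.1 (by omega)) htE))
  push Not at hbig
  have hle : ∀ t ∈ X, (Ez B M t).card ≤ 1 := fun t ht => by
    have := hbig t ht
    omega
  -- an outer block sees exactly one point of `X`
  have hout : ∀ i ∈ Out B C M, ∃ t ∈ X, i ∈ Ez B M t := by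
    intro i hi
    rw [mem_Out] at hi
    obtain ⟨h1, s, hs⟩ := hi
    rw [mem_inter, mem_sdiff] at hs
    have h2 := h.sub_of_mem hMF h1 (mem_inter.2 ⟨hs.1, hs.2.1⟩)
    rw [mem_union] at h2
    exact ⟨s, h2.resolve_right hs.2.2, mem_Ez.2 ⟨hs.1, h1⟩⟩
  have hinc : ∀ i ∈ Out B C M, ∀ j ∈ Out B C M, i ≠ j → ¬ Cmp B M i j := by
    intro i hi j hj hij hcmp
    obtain ⟨t, ht, hit⟩ := hout i hi
    obtain ⟨s, hs, hjs⟩ := hout j hj
    by_cases hts : t = s
    · subst hts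
      exact hij (card_le_one.1 (hle t ht) i hit j hjs)
    · exact hno t ht s hs hts ⟨i, hit⟩ ⟨j, hjs⟩
        (hcmp.abz (mem_Ez.1 hit).1 (mem_Ez.1 hjs).1)
  obtain ⟨y, hy, z, hz, hyz, hEy, hEz⟩ := h.two hEC.crit hc hEC.conn hXne hMF
  have hEzOut : ∀ t ∈ X, ∀ i ∈ Ez B M t, i ∈ Out B C M := by
    intro t ht i hi
    rw [mem_Ez] at hi
    exact mem_Out.2 ⟨hi.2, t, mem_inter.2 ⟨hi.1, hXM ht⟩⟩
  -- blocks of different points are different
  have hdiff : ∀ t ∈ X, ∀ s ∈ X, t ≠ s → ∀ i ∈ Ez B M t, ∀ j ∈ Ez B M s, i ≠ j := by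
    rintro t ht s hs hts i hi j hj rfl
    exact hno t ht s hs hts ⟨i, hi⟩ ⟨i, hj⟩
      (hE.crit.blk_abz hcM (mem_Ez.1 hi).2 (mem_Ez.1 hi).1 (mem_Ez.1 hj).1)
  obtain ⟨iy, hiy⟩ := hEy
  obtain ⟨iz, hiz⟩ := hEz
  by_cases h7 : 7 ≤ M.card
  · left
    refine hf.pf' M hE (h.subC hMF) (h.ne_C hMF hXne) h7 hinc ?_
    have h8 : ({iy, iz} : Finset ι) ⊆ Out B C M := by
      intro i hi
      rw [mem_insert, mem_singleton] at hi
      rcases hi with rfl | rfl
      · exact hEzOut y hy _ hiy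
      · exact hEzOut z hz _ hiz
    have h9 := card_le_card h8
    rwa [card_pair (hdiff y hy z hz hyz iy hiy iz hiz)] at h9
  have h3 : M.card = 3 := by
    have h8 := hE.sv
    have h9 := hE.pv
    rw [Pv_eq] at h9
    unfold Hyp6.sv at h8
    omega
  obtain ⟨u, w, h4⟩ := four_of hX4 hy hz hyz
  by_cases hu : (Ez B M u).Nonempty
  · by_cases hw : (Ez B M w).Nonempty
    · exfalso
      obtain ⟨iu, hiu⟩ := hu
      obtain ⟨iw, hiw⟩ := hw
      refine hE.no_four h3 (S := {iy, iz, iu, iw}) ?_ ?_ ?_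
      · intro i hi
        simp only [mem_insert, mem_singleton] at hi
        rcases hi with rfl | rfl | rfl | rfl
        · exact (mem_Ez.1 hiy).2
        · exact (mem_Ez.1 hiz).2
        · exact (mem_Ez.1 hiu).2
        · exact (mem_Ez.1 hiw).2
      · have e1 := hdiff y hy z hz hyz iy hiy iz hiz
        have e2 := hdiff y hy u h4.mc h4.ac iy hiy iu hiu
        have e3 := hdiff y hy w h4.md h4.ad iy hiy iw hiw
        have e4 := hdiff z hz u h4.mc h4.bc iz hiz iu hiu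
        have e5 := hdiff z hz w h4.md h4.bd iz hiz iw hiw
        have e6 := hdiff u h4.mc w h4.md h4.cd iu hiu iw hiw
        rw [card_insert_of_notMem (by simp [e1, e2, e3]),
          card_insert_of_notMem (by simp [e4, e5]), card_pair e6]
      · have hall : ∀ i ∈ ({iy, iz, iu, iw} : Finset ι), i ∈ Out B C M := by
          intro i hi
          simp only [mem_insert, mem_singleton] at hi
          rcases hi with rfl | rfl | rfl | rfl
          · exact hEzOut y hy _ hiy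
          · exact hEzOut z hz _ hiz
          · exact hEzOut u h4.mc _ hiu
          · exact hEzOut w h4.md _ hiw
        exact fun i hi j hj => hinc i (hall i hi) j (hall j hj)
    · refine Or.inr ⟨hle, w, h4.md, hw, ?_⟩
      intro t ht htw
      rcases h4.cov t ht with rfl | rfl | rfl | rfl
      · exact ⟨iy, hiy⟩
      · exact ⟨iz, hiz⟩
      · exact hu
      · exact absurd rfl htw
  · by_cases hw : (Ez B M w).Nonempty
    · refine Or.inr ⟨hle, u, h4.mc, hu, ?_⟩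
      intro t ht htu
      rcases h4.cov t ht with rfl | rfl | rfl | rfl
      · exact ⟨iy, hiy⟩
      · exact ⟨iz, hiz⟩
      · exact absurd rfl htu
      · exact hw
    · left
      refine h.pp hf hEC.crit hc hEC.conn hMF hE hy hz hyz ⟨iy, hiy⟩ ⟨iz, hiz⟩ ?_
        (hno y hy z hz hyz ⟨iy, hiy⟩ ⟨iz, hiz⟩)
      intro t ht htE
      rcases h4.cov t ht with rfl | rfl | rfl | rfl
      · exact Or.inl rfl
      · exact Or.inr rfl
      · exact absurd htE hu
      · exact absurd htE hw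

/-- type IV. -/
theorem Clo.typeIV (hf : IVF B C) {M1 M2 L : Finset V} (h : Clo B C X {M1, M2, L}) (hEC : EE B C)
    (h12 : M1 ≠ M2) (h1L : M1 ≠ L) (h2L : M2 ≠ L) (hE1 : EE B M1) (hE2 : EE B M2)
    (hEL : CE B 1 L) (hn : (ins B C X).card = 1) (hX4 : X.card = 4) : HasG B C := by
  classical
  have hc : Cov B C := hEC.ck.cov
  have hXne : X.Nonempty := card_pos.1 (by omega)
  have hM1 : M1 ∈ ({M1, M2, L} : Finset (Finset V)) := by simp
  have hM2 : M2 ∈ ({M1, M2, L} : Finset (Finset V)) := by simp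
  have hL : L ∈ ({M1, M2, L} : Finset (Finset V)) := by simp
  have hcM1 : Cov B M1 := hc.mono (h.subC hM1)
  have hcM2 : Cov B M2 := hc.mono (h.subC hM2)
  have hXL : X ⊆ C \ L := fun v hv => mem_sdiff.2 ⟨h.sub hv, h.notMem hL hv⟩
  by_cases hA1 : ∃ y ∈ X, ∃ z ∈ X, y ≠ z ∧ (Ez B M1 y).Nonempty ∧ (Ez B M1 z).Nonempty ∧
      Abz B M1 {y, z}
  · obtain ⟨y, hy, z, hz, hyz, hEy, hEz, hab⟩ := hA1
    obtain ⟨u, w, h4⟩ := four_of hX4 hy hz hyz
    exact h.iv_i hf hEC h12 h1L h2L hE1 hE2 hn hX4 h4 hEy hEz hab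
  by_cases hA2 : ∃ y ∈ X, ∃ z ∈ X, y ≠ z ∧ (Ez B M2 y).Nonempty ∧ (Ez B M2 z).Nonempty ∧
      Abz B M2 {y, z}
  · obtain ⟨y, hy, z, hz, hyz, hEy, hEz, hab⟩ := hA2
    obtain ⟨u, w, h4⟩ := four_of hX4 hy hz hyz
    have h' : Clo B C X {M2, M1, L} := by
      rwa [insert_comm]
    exact h'.iv_i hf hEC h12.symm h2L h1L hE2 hE1 hn hX4 h4 hEy hEz hab
  push Not at hA1 hA2
  rcases h.iv_ii hf hEC hM1 hE1 hX4 hA1 with hG | ⟨hle1, u1, hu1, hu1n, hu1a⟩
  · exact hG
  rcases h.iv_ii hf hEC hM2 hE2 hX4 hA2 with hG | ⟨hle2, u2, hu2, hu2n, hu2a⟩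
  · exact hG
  exfalso
  have hrow : ∀ t ∈ X, 4 ≤ (Ez B M1 t).card + ((Ez B M2 t).card + (Ez B L t).card) := by
    intro t ht
    have h5 := h.row_ge hEC.reg hn ht
    rwa [sum_insert (by simp [h12, h1L]), sum_pair h2L] at h5
  have hz1 : (Ez B M1 u1).card = 0 := by
    rw [card_eq_zero]
    exact not_nonempty_iff_eq_empty.1 hu1n
  have hz2 : (Ez B M2 u2).card = 0 := by
    rw [card_eq_zero]
    exact not_nonempty_iff_eq_empty.1 hu2n
  by_cases hu : u1 = u2
  · subst hu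
    obtain ⟨y, hy, hyu⟩ : ∃ y ∈ X, y ≠ u1 := by
      obtain ⟨x, hx, hxu, _⟩ := h.h1 hEC.crit hc hEC.conn hM1 hu1
      exact ⟨x, hx, hxu⟩
    obtain ⟨z, w, h4⟩ := four_of hX4 hu1 hy hyu.symm
    have r1 := hrow u1 hu1
    have r2 := hrow y hy
    have l1 := hle1 y hy
    have l2 := hle2 y hy
    have hab : Abz B L {u1, y} := by
      refine Ab.abz (hf.r42 L hEL (h.subC hL) u1 (hXL hu1) y (hXL hy) hyu.symm ?_ ?_)
      · rw [Eg_singleton]
        omega
      · rw [Eg_singleton]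
        omega
    refine h.assign3 hEC.crit hc hXne h12 h1L h2L
      ((h.crit M1 hM1).pt1 hcM1 (hu1a z h4.mc h4.ac.symm))
      ((h.crit M2 hM2).pt1 hcM2 (hu2a w h4.md h4.ad.symm)) hab ?_
    intro v hv
    rcases h4.cov v hv with rfl | rfl | rfl | rfl <;> simp
  · obtain ⟨y, z, h4⟩ := four_of hX4 hu1 hu2 hu
    have r1 := hrow u1 hu1
    have r2 := hrow u2 hu2
    have l1 := hle1 u2 hu2
    have l2 := hle2 u1 hu1
    have hab : Abz B L {u1, u2} := by
      refine Ab.abz (hf.r33 L hEL (h.subC hL) u1 (hXL hu1) u2 (hXL hu2) hu ?_ ?_)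
      · rw [Eg_singleton]
        omega
      · rw [Eg_singleton]
        omega
    refine h.assign3 hEC.crit hc hXne h12 h1L h2L
      ((h.crit M1 hM1).pt1 hcM1 (hu1a y h4.mc h4.ac.symm))
      ((h.crit M2 hM2).pt1 hcM2 (hu2a z h4.md h4.bd.symm)) hab ?_
    intro v hv
    rcases h4.cov v hv with rfl | rfl | rfl | rfl <;> simp

end

end Pool.Agent.Hyp6
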