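import Pool.Agent.Hyp6.QIV
import Pool.Agent.Hyp6.QFct

/-!
# HYP6 QIV2: the facts used in type IV
-/

set_option autoImplicit false

namespace Pool.Agent.Hyp6

open Finset Pool.Agent.Hyp5

universe u v

variable {V : Type v} [DecidableEq V] {ι : Type u} [Fintype ι] {B : ι → Finset V} {C : Finset V}

/-- the facts used in type IV. -/
theorem ivf_of (hT : HT.{u} V) (hC : EE B C)
    (pf : ∀ D y β, PForm B C D y β → HasG B C)
    (pf' : ∀ D, EE B D → D ⊆ C → D ≠ C → 7 ≤ D.card → 2 ≤ (Out B C D).card →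
      (∀ i ∈ Out B C D, ∀ j ∈ Out B C D, i ≠ j → ¬ Cmp B D i j) → HasG B C) : IVF B C := by
  refine ⟨?_, ?_, ?_, fun D y β h _ => pf D y β h,
    fun D h1 h2 h3 h4 h5 h6 => pf' D h1 h2 h3 h4 h6 h5⟩
  · intro M hM hMC G1 G2 hG1 hG2 hd hc1 hc2
    by_contra hn
    have h1 := hM.ck.ref1 hT hMC hC.tr4 hG1 hG2 hd hn (k := 2) (by norm_num) (by norm_num) hc1 hc2
    have h2 := hM.pv
    push_cast at h1
    omega
  · intro L hL hLC y hy z hz hyz hc1 hc2
    by_contra hn
    have h1 := hL.ck.ref1 hT hLC hC.tr4 (singleton_subset_iff.2 hy) (singleton_subset_iff.2 hz)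
      (disjoint_singleton.2 hyz) hn (k := 3) (by norm_num) (by norm_num) hc1 hc2
    have h2 := hL.pv
    push_cast at h1
    omega
  · intro L hL hLC y hy z hz hyz hc1 hc2
    by_contra hn
    have h1 := hL.ck.ref2 hT hLC hC.tr4 (singleton_subset_iff.2 hy) (singleton_subset_iff.2 hz)
      (disjoint_singleton.2 hyz) hn (k := 2) (by norm_num) (by norm_num) hc1 hc2
    have h2 := hL.pv
    push_cast at h1
    omega

end Pool.Agent.Hyp6
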