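import Pool.Agent.Hyp6.L4F

/-!
# HYP6 QIA: the pair closing with three hits (type I of theorem G)

`L` refuses the outer points `y1`, `y2` with three hits each. `LB` is the system on `L` and `y1`, `y2`
with two new blocks `{y1, y2}`.
-/

set_option autoImplicit false

namespace Pool.Agent.Hyp6

open Finset Pool.Agent.Hyp5

universe u v

variable {V : Type v} [DecidableEq V] {ι : Type u} [Fintype ι]

/-- the system `L` with the two outer points `y1`, `y2` and two new blocks. -/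
noncomputable def LB (B : ι → Finset V) (L : Finset V) (y1 y2 : V) : ι ⊕ Fin 2 → Finset V :=
  absG B L {y1, y2} (Ez B L) (fun _ : Fin 2 => ({y1, y2} : Finset V))

/-- `L` refuses the outer points `y1`, `y2` with three hits each. -/
structure Rp (B : ι → Finset V) (L : Finset V) (y1 y2 : V) : Prop where
  reg : Reg B L
  tr : Tr4 B (L ∪ {y1, y2})
  kf : KFree B L
  conn : Conn (gr B) L
  n1 : y1 ∉ L
  n2 : y2 ∉ L
  ne : y1 ≠ y2
  c1 : (Ez B L y1).card = 3
  c2 : (Ez B L y2).card = 3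
  rf : ¬ Abz B L {y1, y2}

variable {B : ι → Finset V} {L : Finset V} {y1 y2 : V}

theorem Rp.mem_cases {y : V} (hy : y ∈ ({y1, y2} : Finset V)) : y = y1 ∨ y = y2 := by
  rwa [mem_insert, mem_singleton] at hy

theorem Rp.dis (h : Rp B L y1 y2) : Disjoint L {y1, y2} := by
  rw [disjoint_right]
  intro y hy
  rcases Rp.mem_cases hy with rfl | rfl
  · exact h.n1
  · exact h.n2

theorem Rp.card (h : Rp B L y1 y2) {y : V} (hy : y ∈ ({y1, y2} : Finset V)) :
    (Ez B L y).card = 3 := by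
  rcases Rp.mem_cases hy with rfl | rfl
  · exact h.c1
  · exact h.c2

theorem Rp.size (h : Rp B L y1 y2) (i : ι) [DecidablePred fun y => i ∈ Ez B L y] :
    (B i ∩ L).card + (({y1, y2} : Finset V).filter (fun y => i ∈ Ez B L y)).card ≤ 4 := by
  refine le_trans ?_ (h.tr i)
  rw [← card_union_of_disjoint]
  · refine card_le_card fun v hv => ?_
    rw [mem_union, mem_inter, mem_filter] at hv
    rw [mem_inter, mem_union]
    rcases hv with hv | hv
    · exact ⟨hv.1, Or.inl hv.2⟩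
    · exact ⟨(mem_Ez.1 hv.2).1, Or.inr hv.1⟩
  · rw [disjoint_left]
    intro v hv hv2
    exact disjoint_left.1 h.dis (mem_inter.1 hv).2 (mem_filter.1 hv2).1

theorem Rp.data (h : Rp B L y1 y2) :
    AbsD B L {y1, y2} (Ez B L) (fun _ : Fin 2 => ({y1, y2} : Finset V)) := by
  classical
  refine ⟨h.dis, ?_, ?_, ?_, ?_, ?_, ?_, ?_, ?_⟩
  · intro y _ i hi
    exact (mem_Ez.1 hi).2
  · intro y hy
    rw [← card_pos, h.card hy]
    norm_num
  · intro c
    exact Subset.refl _
  · intro c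
    exact insert_nonempty _ _
  · intro y hy
    rw [h.card hy]
    have h5 : (univ.filter (fun _ : Fin 2 => y ∈ ({y1, y2} : Finset V))) = univ := by
      ext c
      rw [mem_filter]
      exact ⟨fun h => h.1, fun h => ⟨h, hy⟩⟩
    rw [h5, card_univ, Fintype.card_fin]
  · intro i
    convert h.size i using 3
  · intro c
    exact card_le_two.trans (by norm_num)
  · intro S hS hne
    refine Or.inl ⟨0, ?_, ?_⟩
    · rw [inter_eq_right.2 hS]
      exact hne
    · exact (card_le_card inter_subset_left).trans card_le_two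

theorem Rp.mem_inl (_h : Rp B L y1 y2) {i : ι} {v : V} : v ∈ LB B L y1 y2 (Sum.inl i) ↔
    v ∈ B i ∧ (v ∈ L ∨ (v = y1 ∨ v = y2) ∧ (B i ∩ L).Nonempty) := by
  unfold LB
  rw [mem_absG_inl, mem_insert, mem_singleton, mem_Ez]
  tauto

theorem mem_LB_inr {c : Fin 2} {v : V} : v ∈ LB B L y1 y2 (Sum.inr c) ↔ v = y1 ∨ v = y2 := by
  unfold LB
  rw [mem_absG_inr, mem_insert, mem_singleton]

/-- the traces of the old blocks meeting `L`. -/
theorem Rp.inl_eq (h : Rp B L y1 y2) {i : ι} (hi : (B i ∩ L).Nonempty) :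
    LB B L y1 y2 (Sum.inl i) = B i ∩ (L ∪ {y1, y2}) := by
  ext v
  rw [h.mem_inl, mem_inter, mem_union, mem_insert, mem_singleton]
  tauto

theorem Rp.reg' (h : Rp B L y1 y2) : Reg (LB B L y1 y2) (L ∪ {y1, y2}) := h.data.reg h.reg

theorem Rp.tr' (h : Rp B L y1 y2) : Tr4 (LB B L y1 y2) (L ∪ {y1, y2}) := h.data.tr4

theorem Rp.conn' (h : Rp B L y1 y2) : Conn (gr (LB B L y1 y2)) (L ∪ {y1, y2}) :=
  h.data.conn h.conn

theorem Rp.kf' (h : Rp B L y1 y2) : KFree (LB B L y1 y2) (L ∪ {y1, y2}) :=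
  h.data.kfree h.reg h.kf

theorem Rp.rho_eq (h : Rp B L y1 y2) :
    rho (LB B L y1 y2) (L ∪ {y1, y2}) = rho B L + 1 := by
  classical
  refine le_antisymm ?_ ?_
  · obtain ⟨T, hT, hTc⟩ := exists_cover (cov_of_reg h.reg)
    have h1 : L ∪ {y1, y2} ⊆ (insert (Sum.inr 0) (T.image Sum.inl)).biUnion (LB B L y1 y2) := by
      intro v hv
      rcases mem_union.1 hv with h2 | h2
      · obtain ⟨i, hi, hvi⟩ := mem_biUnion.1 (hT h2)
        exact mem_biUnion.2 ⟨Sum.inl i, mem_insert_of_mem (mem_image_of_mem _ hi),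
          h.mem_inl.2 ⟨hvi, Or.inl h2⟩⟩
      · exact mem_biUnion.2 ⟨Sum.inr 0, mem_insert_self _ _, mem_LB_inr.2 (Rp.mem_cases h2)⟩
    refine (rho_le h1).trans ((card_insert_le _ _).trans ?_)
    rw [card_image_of_injective _ Sum.inl_injective, hTc]
  · refine h.data.rho_ge (cov_of_reg h.reg') fun T K hT hK => ?_
    have h2 := rho_le hT
    rcases K.eq_empty_or_nonempty with rfl | hKne
    · by_contra h3
      refine h.rf ⟨T, union_subset hT fun y hy => ?_, by rw [card_empty] at h3; omega⟩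
      rcases hK y hy with ⟨i, hi, hiE⟩ | ⟨c, hc, _⟩
      · exact mem_biUnion.2 ⟨i, hi, (mem_Ez.1 hiE).1⟩
      · exact absurd hc (notMem_empty _)
    · have := card_pos.2 hKne
      omega

theorem Rp.card_eq (h : Rp B L y1 y2) : (L ∪ {y1, y2}).card = L.card + 2 := by
  rw [card_union_of_disjoint h.dis, card_pair h.ne]

theorem Rp.Pv_eq (h : Rp B L y1 y2) :
    Pv (LB B L y1 y2) (L ∪ {y1, y2}) = Pv B L - 6 := by
  have h1 := h.data.Pv_eq
  have h2 := h.rho_eq
  unfold LB at h2 ⊢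
  rw [h1, h2, card_pair h.ne, Fintype.card_fin]
  push_cast
  ring

theorem Rp.sv_eq (h : Rp B L y1 y2) : sv (LB B L y1 y2) (L ∪ {y1, y2}) = sv B L := by
  unfold sv
  rw [h.rho_eq, h.card_eq]
  push_cast
  ring

end Pool.Agent.Hyp6
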