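import Pool.Agent.Hyp6.QIa

/-!
# HYP6 QIB: type I of theorem G, the rows

`Two B C X i0 M L`: a closure `X = B i0 ∩ C` with three points, no other block inside `X`, and two
components `M`, `L`.
-/

set_option autoImplicit false

namespace Pool.Agent.Hyp6

open Finset Pool.Agent.Hyp5

universe u v

variable {V : Type v} [DecidableEq V] {ι : Type u} [Fintype ι]

/-- a critical set has an optimal cover through every block meeting it. -/
theorem Crit.opt {B : ι → Finset V} {L : Finset V} (hr : Reg B L) (hL : Crit B L) {i : ι}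
    (hi : (B i ∩ L).Nonempty) :
    ∃ T : Finset ι, L ⊆ T.biUnion B ∧ T.card ≤ rho B L ∧ i ∈ T := by
  classical
  obtain ⟨v, hv⟩ := hi
  rw [mem_inter] at hv
  obtain ⟨T, hT, hTc⟩ := exists_cover (cov_of_reg (hr.mono (erase_subset v L)))
  refine ⟨insert i T, ?_, ?_, mem_insert_self _ _⟩
  · intro w hw
    by_cases hwv : w = v
    · rw [hwv]
      exact mem_biUnion.2 ⟨i, mem_insert_self _ _, hv.1⟩
    · obtain ⟨j, hj, hwj⟩ := mem_biUnion.1 (hT (mem_erase.2 ⟨hwv, hw⟩))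
      exact mem_biUnion.2 ⟨j, mem_insert_of_mem hj, hwj⟩
  · have h1 := card_insert_le i T
    have h2 := hL v hv.2
    omega

/-- a critical set absorbs every adjacent point. -/
theorem Crit.abz {B : ι → Finset V} {L : Finset V} (hr : Reg B L) (hL : Crit B L) {z : V}
    (hz : (Ez B L z).Nonempty) : Abz B L {z} := by
  obtain ⟨i, hi⟩ := hz
  rw [mem_Ez] at hi
  obtain ⟨T, h1, h2, h3⟩ := Crit.opt hr hL hi.2
  refine ⟨T, union_subset h1 ?_, h2⟩
  rw [singleton_subset_iff]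
  exact mem_biUnion.2 ⟨i, h3, hi.1⟩

/-- a closure with three points and two components. -/
structure Two (B : ι → Finset V) (C X : Finset V) (i0 : ι) (M L : Finset V) : Prop where
  reg : Reg B C
  tr : Tr4 B C
  kf : KFree B C
  i0X : B i0 ∩ C = X
  c3 : X.card = 3
  ins1 : ∀ i, (B i ∩ C).Nonempty → B i ∩ C ⊆ X → i = i0
  un : M ∪ L = C \ X
  dis : Disjoint M L
  sep : Sep B M L
  cM : Conn (gr B) M
  cL : Conn (gr B) L
  crM : Crit B M
  crL : Crit B L
  nM : ∀ x ∈ X, ∃ y ∈ X, y ≠ x ∧ (Ez B M y).Nonempty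
  nL : ∀ x ∈ X, ∃ y ∈ X, y ≠ x ∧ (Ez B L y).Nonempty
  nab : ∀ T : Finset ι, C ⊆ T.biUnion B → rho B M + rho B L < T.card

variable {B : ι → Finset V} {C X M L : Finset V} {i0 : ι}

theorem Two.symm (h : Two B C X i0 M L) : Two B C X i0 L M where
  reg := h.reg
  tr := h.tr
  kf := h.kf
  i0X := h.i0X
  c3 := h.c3
  ins1 := h.ins1
  un := by rw [union_comm]; exact h.un
  dis := h.dis.symm
  sep := h.sep.symm
  cM := h.cL
  cL := h.cM
  crM := h.crL
  crL := h.crM
  nM := h.nL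
  nL := h.nM
  nab := fun T hT => by rw [add_comm]; exact h.nab T hT

theorem Two.MC (h : Two B C X i0 M L) : M ⊆ C := fun v hv => by
  have h1 : v ∈ M ∪ L := mem_union_left _ hv
  rw [h.un] at h1
  exact (mem_sdiff.1 h1).1

theorem Two.XC (h : Two B C X i0 M L) : X ⊆ C := by
  rw [← h.i0X]
  exact inter_subset_right

theorem Two.nMX (h : Two B C X i0 M L) {v : V} (hv : v ∈ X) : v ∉ M := fun h1 => by
  have h2 : v ∈ M ∪ L := mem_union_left _ h1
  rw [h.un] at h2
  exact (mem_sdiff.1 h2).2 hv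

theorem Two.cases (h : Two B C X i0 M L) {v : V} (hv : v ∈ C) : v ∈ X ∨ v ∈ M ∨ v ∈ L := by
  by_cases hvX : v ∈ X
  · exact Or.inl hvX
  · right
    have h1 : v ∈ C \ X := mem_sdiff.2 ⟨hv, hvX⟩
    rw [← h.un] at h1
    exact mem_union.1 h1

/-- every row has four entries. -/
theorem Two.row (h : Two B C X i0 M L) {x : V} (hx : x ∈ X) :
    (Ez B M x).card + (Ez B L x).card = 4 := by
  classical
  have h0 := h.reg x (h.XC hx)
  have hx0 : x ∈ B i0 := by
    have := hx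
    rw [← h.i0X] at this
    exact (mem_inter.1 this).1
  have h1 : (univ.filter (fun i => x ∈ B i)) = insert i0 (Ez B M x ∪ Ez B L x) := by
    ext i
    rw [mem_filter, mem_insert, mem_union, mem_Ez, mem_Ez]
    constructor
    · rintro ⟨_, hi⟩
      by_cases h2 : B i ∩ C ⊆ X
      · exact Or.inl (h.ins1 i ⟨x, mem_inter.2 ⟨hi, h.XC hx⟩⟩ h2)
      · right
        rw [not_subset] at h2
        obtain ⟨v, hv, hvX⟩ := h2
        rw [mem_inter] at hv
        rcases h.cases hv.2 with h3 | h3 | h3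
        · exact absurd h3 hvX
        · exact Or.inl ⟨hi, v, mem_inter.2 ⟨hv.1, h3⟩⟩
        · exact Or.inr ⟨hi, v, mem_inter.2 ⟨hv.1, h3⟩⟩
    · rintro (rfl | h2 | h2)
      · exact ⟨mem_univ _, hx0⟩
      · exact ⟨mem_univ _, h2.1⟩
      · exact ⟨mem_univ _, h2.1⟩
  have hi0M : ¬ (B i0 ∩ M).Nonempty := by
    rintro ⟨v, hv⟩
    rw [mem_inter] at hv
    refine h.nMX (v := v) ?_ hv.2
    rw [← h.i0X]
    exact mem_inter.2 ⟨hv.1, h.MC hv.2⟩
  have hi0L : ¬ (B i0 ∩ L).Nonempty := by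
    rintro ⟨v, hv⟩
    rw [mem_inter] at hv
    refine h.symm.nMX (v := v) ?_ hv.2
    rw [← h.i0X]
    exact mem_inter.2 ⟨hv.1, h.symm.MC hv.2⟩
  have h2 : i0 ∉ Ez B M x ∪ Ez B L x := by
    rw [mem_union, mem_Ez, mem_Ez]
    rintro (h3 | h3)
    · exact hi0M h3.2
    · exact hi0L h3.2
  have h3 : Disjoint (Ez B M x) (Ez B L x) := by
    rw [disjoint_left]
    intro i hi hi2
    exact h.sep i (mem_Ez.1 hi).2 (mem_Ez.1 hi2).2
  rw [h1, card_insert_of_notMem h2, card_union_of_disjoint h3] at h0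
  omega

/-- two absorptions give a small cover. -/
theorem Two.not_abz (h : Two B C X i0 M L) {A A' : Finset V} (hA : Abz B M A) (hA' : Abz B L A')
    (hX : X ⊆ A ∪ A') : False := by
  classical
  obtain ⟨T, hT, hTc⟩ := hA
  obtain ⟨T', hT', hTc'⟩ := hA'
  have h1 : C ⊆ (T ∪ T').biUnion B := by
    intro v hv
    rw [union_biUnion, mem_union]
    rcases h.cases hv with h2 | h2 | h2
    · rcases mem_union.1 (hX h2) with h3 | h3
      · exact Or.inl (hT (mem_union_right _ h3))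
      · exact Or.inr (hT' (mem_union_right _ h3))
    · exact Or.inl (hT (mem_union_left _ h2))
    · exact Or.inr (hT' (mem_union_left _ h2))
  have h2 := h.nab _ h1
  have h3 := card_union_le T T'
  omega

/-- `M` refuses the complement of a point seen by `L`. -/
theorem Two.refM (h : Two B C X i0 M L) {x : V} (hx : (Ez B L x).Nonempty) {A : Finset V}
    (hA : X ⊆ A ∪ {x}) : ¬ Abz B M A := fun h1 =>
  h.not_abz h1 (Crit.abz (h.reg.mono h.symm.MC) h.crL hx) hA

/-- a block of `M` with two points of a refused pair. -/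
theorem Two.no_both (h : Two B C X i0 M L) {y z : V} (hr : ¬ Abz B M {y, z}) {i : ι}
    (hi : (B i ∩ M).Nonempty) (hy : y ∈ B i) (hz : z ∈ B i) : False := by
  obtain ⟨T, h1, h2, h3⟩ := Crit.opt (h.reg.mono h.MC) h.crM hi
  refine hr ⟨T, union_subset h1 fun v hv => ?_, h2⟩
  rw [mem_insert, mem_singleton] at hv
  rcases hv with rfl | rfl
  · exact mem_biUnion.2 ⟨i, h3, hy⟩
  · exact mem_biUnion.2 ⟨i, h3, hz⟩

/-- the data of a P-form: `β` is incompatible with all other outer blocks, whose outer part is `{y}`. -/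
structure PF0 (B : ι → Finset V) (C M : Finset V) (y : V) (β : ι) : Prop where
  sub : M ⊆ C
  yC : y ∈ C
  yM : y ∉ M
  hb : (B β ∩ M).Nonempty
  hbo : ¬ B β ∩ C ⊆ M
  hby : y ∉ B β
  other : ∃ i, y ∈ B i ∧ (B i ∩ M).Nonempty
  out : ∀ i, (B i ∩ M).Nonempty → ¬ B i ∩ C ⊆ M → i ≠ β → ∀ v ∈ B i, v ∈ C → v ∉ M → v = y
  inc : ∀ i, y ∈ B i → (B i ∩ M).Nonempty → ∀ T : Finset ι, M ⊆ T.biUnion B →
    T.card ≤ rho B M → β ∈ T → i ∉ T

/-- two sets of at least two blocks are absorbed together. -/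
def RR2 (B : ι → Finset V) (M : Finset V) : Prop :=
  ∀ F G : Finset ι, (∀ i ∈ F, (B i ∩ M).Nonempty) → (∀ i ∈ G, (B i ∩ M).Nonempty) →
    2 ≤ F.card → 2 ≤ G.card → ∃ T : Finset ι, M ⊆ T.biUnion B ∧ T.card ≤ rho B M ∧
      (∃ i ∈ T, i ∈ F) ∧ ∃ i ∈ T, i ∈ G

theorem RR2.pair {y z : V} (h : RR2 B M) (hr : ¬ Abz B M {y, z}) (hy : 2 ≤ (Ez B M y).card) :
    (Ez B M z).card ≤ 1 := by
  by_contra hcon
  obtain ⟨T, h1, h2, ⟨i, hi, hiy⟩, j, hj, hjz⟩ := h (Ez B M y) (Ez B M z)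
    (fun i hi => (mem_Ez.1 hi).2) (fun i hi => (mem_Ez.1 hi).2) hy (by omega)
  refine hr ⟨T, union_subset h1 fun v hv => ?_, h2⟩
  rw [mem_insert, mem_singleton] at hv
  rcases hv with rfl | rfl
  · exact mem_biUnion.2 ⟨i, hi, (mem_Ez.1 hiy).1⟩
  · exact mem_biUnion.2 ⟨j, hj, (mem_Ez.1 hjz).1⟩

theorem RR2.merge {y z w : V} (h : RR2 B M) (hr : ¬ Abz B M {y, z}) (hr' : ¬ Abz B M {y, w})
    (hy : 2 ≤ (Ez B M y).card) [DecidableEq ι] : (Ez B M z ∪ Ez B M w).card ≤ 1 := by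
  by_contra hcon
  obtain ⟨T, h1, h2, ⟨i, hi, hiy⟩, j, hj, hjz⟩ := h (Ez B M y) (Ez B M z ∪ Ez B M w)
    (fun i hi => (mem_Ez.1 hi).2) (fun i hi => by
      rcases mem_union.1 hi with h3 | h3 <;> exact (mem_Ez.1 h3).2) hy (by omega)
  rcases mem_union.1 hjz with h3 | h3
  · refine hr ⟨T, union_subset h1 fun v hv => ?_, h2⟩
    rw [mem_insert, mem_singleton] at hv
    rcases hv with rfl | rfl
    · exact mem_biUnion.2 ⟨i, hi, (mem_Ez.1 hiy).1⟩
    · exact mem_biUnion.2 ⟨j, hj, (mem_Ez.1 h3).1⟩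
  · refine hr' ⟨T, union_subset h1 fun v hv => ?_, h2⟩
    rw [mem_insert, mem_singleton] at hv
    rcases hv with rfl | rfl
    · exact mem_biUnion.2 ⟨i, hi, (mem_Ez.1 hiy).1⟩
    · exact mem_biUnion.2 ⟨j, hj, (mem_Ez.1 h3).1⟩

theorem Two.X_of (h : Two B C X i0 M L) {x : V} (hx : x ∈ X) :
    ∃ y z, y ≠ x ∧ z ≠ x ∧ y ≠ z ∧ X = {x, y, z} := by
  have h1 : (X.erase x).card = 2 := by
    rw [card_erase_of_mem hx, h.c3]
  obtain ⟨y, z, hyz, h2⟩ := card_eq_two.1 h1
  have hy : y ∈ X.erase x := by rw [h2]; simp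
  have hz : z ∈ X.erase x := by rw [h2]; simp
  refine ⟨y, z, (mem_erase.1 hy).1, (mem_erase.1 hz).1, hyz, ?_⟩
  rw [← insert_erase hx, h2]

/-- an outer point of an outer block of `M` lies in `X`. -/
theorem Two.out_X (h : Two B C X i0 M L) {i : ι} (hi : (B i ∩ M).Nonempty) {v : V} (hv : v ∈ B i)
    (hvC : v ∈ C) (hvM : v ∉ M) : v ∈ X := by
  rcases h.cases hvC with h1 | h1 | h1
  · exact h1
  · exact absurd h1 hvM
  · exact absurd ⟨v, mem_inter.2 ⟨hv, h1⟩⟩ (h.sep i hi)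

/-- case A: `M` does not see `x`. -/
theorem Two.caseA (h : Two B C X i0 M L) (hR : RR2 B M) {x : V} (hx : x ∈ X)
    (hf : (Ez B M x).card = 0) : ∃ y β, PF0 B C M y β := by
  classical
  obtain ⟨y, z, hyx, hzx, hyz, hX⟩ := h.X_of hx
  have hyX : y ∈ X := by rw [hX]; simp
  have hzX : z ∈ X := by rw [hX]; simp
  have hLx : (Ez B L x).Nonempty := by
    rw [← card_pos]
    have := h.row hx
    omega
  have hr : ¬ Abz B M {y, z} := h.refM hLx (by rw [hX]; intro v hv; simp at hv ⊢; tauto)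
  have hfx : ∀ i, (B i ∩ M).Nonempty → x ∉ B i := by
    intro i hi hxi
    have h1 : i ∈ Ez B M x := mem_Ez.2 ⟨hxi, hi⟩
    rw [card_eq_zero] at hf
    rw [hf] at h1
    exact absurd h1 (notMem_empty _)
  have hfy : (Ez B M y).Nonempty := by
    obtain ⟨w, hw, hwz, hwE⟩ := h.nM z hzX
    rw [hX, mem_insert, mem_insert, mem_singleton] at hw
    rcases hw with rfl | rfl | rfl
    · obtain ⟨i, hi⟩ := hwE
      exact absurd (mem_Ez.1 hi).1 (hfx i (mem_Ez.1 hi).2)
    · exact hwE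
    · exact absurd rfl hwz
  have hfz : (Ez B M z).Nonempty := by
    obtain ⟨w, hw, hwz, hwE⟩ := h.nM y hyX
    rw [hX, mem_insert, mem_insert, mem_singleton] at hw
    rcases hw with rfl | rfl | rfl
    · obtain ⟨i, hi⟩ := hwE
      exact absurd (mem_Ez.1 hi).1 (hfx i (mem_Ez.1 hi).2)
    · exact absurd rfl hwz
    · exact hwE
  have key : ∀ y z : V, y ∈ X → z ∈ X → y ≠ z → X = {x, y, z} → ¬ Abz B M {y, z} →
      (Ez B M y).Nonempty → (Ez B M z).card = 1 → ∃ y β, PF0 B C M y β := by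
    intro y z hyX hzX hyz hX hr hfy hfz
    obtain ⟨β, hβ⟩ := card_eq_one.1 hfz
    have hβz : β ∈ Ez B M z := by rw [hβ]; simp
    rw [mem_Ez] at hβz
    refine ⟨y, β, h.MC, h.XC hyX, h.nMX hyX, hβz.2, ?_, ?_, ?_, ?_, ?_⟩
    · intro h1
      exact h.nMX hzX (h1 (mem_inter.2 ⟨hβz.1, h.XC hzX⟩))
    · intro h1
      exact h.no_both hr hβz.2 h1 hβz.1
    · obtain ⟨i, hi⟩ := hfy
      exact ⟨i, (mem_Ez.1 hi).1, (mem_Ez.1 hi).2⟩
    · intro i hi _ hib v hv hvC hvM
      have h1 := h.out_X hi hv hvC hvM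
      rw [hX, mem_insert, mem_insert, mem_singleton] at h1
      rcases h1 with rfl | rfl | rfl
      · exact absurd hv (hfx i hi)
      · rfl
      · have h2 : i ∈ Ez B M v := mem_Ez.2 ⟨hv, hi⟩
        rw [hβ, mem_singleton] at h2
        exact absurd h2 hib
    · intro i hyi hi T hT hTc hβT hiT
      refine hr ⟨T, union_subset hT fun v hv => ?_, hTc⟩
      rw [mem_insert, mem_singleton] at hv
      rcases hv with rfl | rfl
      · exact mem_biUnion.2 ⟨i, hiT, hyi⟩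
      · exact mem_biUnion.2 ⟨β, hβT, hβz.1⟩
  have hy1 := card_pos.2 hfy
  have hz1 := card_pos.2 hfz
  by_cases h2 : 2 ≤ (Ez B M y).card
  · exact key y z hyX hzX hyz hX hr hfy (by have := hR.pair hr h2; omega)
  · refine key z y hzX hyX hyz.symm (by rw [hX]; ext v; simp; tauto) ?_ hfz (by omega)
    rw [pair_comm]
    exact hr

/-- case B: `L` does not see `x`. -/
theorem Two.caseB (h : Two B C X i0 M L) (hR : RR2 B M) {x : V} (hx : x ∈ X)
    (he : (Ez B L x).card = 0) : ∃ y β, PF0 B C M y β := by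
  classical
  obtain ⟨y, z, hyx, hzx, hyz, hX⟩ := h.X_of hx
  have hyX : y ∈ X := by rw [hX]; simp
  have hzX : z ∈ X := by rw [hX]; simp
  have hfx : (Ez B M x).card = 4 := by
    have := h.row hx
    omega
  have hex : ¬ (Ez B L x).Nonempty := by
    rw [← card_pos]
    omega
  have hey : (Ez B L y).Nonempty := by
    obtain ⟨w, hw, hwz, hwE⟩ := h.nL z hzX
    rw [hX, mem_insert, mem_insert, mem_singleton] at hw
    rcases hw with rfl | rfl | rfl
    · exact absurd hwE hex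
    · exact hwE
    · exact absurd rfl hwz
  have hez : (Ez B L z).Nonempty := by
    obtain ⟨w, hw, hwz, hwE⟩ := h.nL y hyX
    rw [hX, mem_insert, mem_insert, mem_singleton] at hw
    rcases hw with rfl | rfl | rfl
    · exact absurd hwE hex
    · exact absurd rfl hwz
    · exact hwE
  have hrz : ¬ Abz B M {x, z} := h.refM hey (by rw [hX]; intro v hv; simp at hv ⊢; tauto)
  have hry : ¬ Abz B M {x, y} := h.refM hez (by rw [hX]; intro v hv; simp at hv ⊢; tauto)
  have hG := hR.merge hry hrz (by omega)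
  obtain ⟨β, hβ⟩ : ∃ β, Ez B M y ∪ Ez B M z = {β} := by
    rw [← card_eq_one]
    have h1 : 0 < (Ez B M y ∪ Ez B M z).card := by
      rw [card_pos]
      obtain ⟨w, hw, hwz, hwE⟩ := h.nM x hx
      rw [hX, mem_insert, mem_insert, mem_singleton] at hw
      rcases hw with rfl | rfl | rfl
      · exact absurd rfl hwz
      · exact hwE.mono subset_union_left
      · exact hwE.mono subset_union_right
    omega
  have hβm : β ∈ Ez B M y ∪ Ez B M z := by rw [hβ]; simp
  have hβM : (B β ∩ M).Nonempty := by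
    rcases mem_union.1 hβm with h1 | h1 <;> exact (mem_Ez.1 h1).2
  have hcon : ∀ T : Finset ι, M ⊆ T.biUnion B → T.card ≤ rho B M → β ∈ T → ∀ i ∈ T,
      x ∉ B i := by
    intro T hT hTc hβT i hiT hxi
    rcases mem_union.1 hβm with h1 | h1
    · refine hry ⟨T, union_subset hT fun v hv => ?_, hTc⟩
      rw [mem_insert, mem_singleton] at hv
      rcases hv with rfl | rfl
      · exact mem_biUnion.2 ⟨i, hiT, hxi⟩
      · exact mem_biUnion.2 ⟨β, hβT, (mem_Ez.1 h1).1⟩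
    · refine hrz ⟨T, union_subset hT fun v hv => ?_, hTc⟩
      rw [mem_insert, mem_singleton] at hv
      rcases hv with rfl | rfl
      · exact mem_biUnion.2 ⟨i, hiT, hxi⟩
      · exact mem_biUnion.2 ⟨β, hβT, (mem_Ez.1 h1).1⟩
  refine ⟨x, β, h.MC, h.XC hx, h.nMX hx, hβM, ?_, ?_, ?_, ?_, ?_⟩
  · intro h1
    rcases mem_union.1 hβm with h2 | h2
    · exact h.nMX hyX (h1 (mem_inter.2 ⟨(mem_Ez.1 h2).1, h.XC hyX⟩))
    · exact h.nMX hzX (h1 (mem_inter.2 ⟨(mem_Ez.1 h2).1, h.XC hzX⟩))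
  · intro h1
    obtain ⟨T, hT, hTc, hβT⟩ := Crit.opt (h.reg.mono h.MC) h.crM hβM
    exact hcon T hT hTc hβT β hβT h1
  · obtain ⟨i, hi⟩ : (Ez B M x).Nonempty := card_pos.1 (by omega)
    exact ⟨i, (mem_Ez.1 hi).1, (mem_Ez.1 hi).2⟩
  · intro i hi _ hib v hv hvC hvM
    have h1 := h.out_X hi hv hvC hvM
    rw [hX, mem_insert, mem_insert, mem_singleton] at h1
    rcases h1 with rfl | rfl | rfl
    · rfl
    · have h2 : i ∈ Ez B M v ∪ Ez B M z := mem_union_left _ (mem_Ez.2 ⟨hv, hi⟩)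
      rw [hβ, mem_singleton] at h2
      exact absurd h2 hib
    · have h2 : i ∈ Ez B M y ∪ Ez B M v := mem_union_right _ (mem_Ez.2 ⟨hv, hi⟩)
      rw [hβ, mem_singleton] at h2
      exact absurd h2 hib
  · intro i hxi _ T hT hTc hβT hiT
    exact hcon T hT hTc hβT i hiT hxi

/-- case C: all entries are positive. Then every point has one block at `M` and three at `L`. -/
theorem Two.caseC (h : Two B C X i0 M L) (hR : RR2 B M)
    (hM : ∀ x ∈ X, (Ez B M x).Nonempty) (hL : ∀ x ∈ X, (Ez B L x).Nonempty) {x : V}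
    (hx : x ∈ X) : (Ez B M x).card = 1 ∧ (Ez B L x).card = 3 := by
  classical
  obtain ⟨y, z, hyx, hzx, hyz, hX⟩ := h.X_of hx
  have hyX : y ∈ X := by rw [hX]; simp
  have hzX : z ∈ X := by rw [hX]; simp
  have hxy : ¬ Abz B M {x, y} := h.refM (hL z hzX) (by rw [hX]; intro v hv; simp at hv ⊢; tauto)
  have hxz : ¬ Abz B M {x, z} := h.refM (hL y hyX) (by rw [hX]; intro v hv; simp at hv ⊢; tauto)
  have hyz' : ¬ Abz B M {y, z} := h.refM (hL x hx) (by rw [hX]; intro v hv; simp at hv ⊢; tauto)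
  have h1 : (Ez B M x).card ≤ 1 := by
    by_contra hcon
    have h2 := hR.merge hxy hxz (by omega)
    have h3 : Disjoint (Ez B M y) (Ez B M z) := by
      rw [disjoint_left]
      intro i hi hi2
      exact h.no_both hyz' (mem_Ez.1 hi).2 (mem_Ez.1 hi).1 (mem_Ez.1 hi2).1
    rw [card_union_of_disjoint h3] at h2
    have h4 := card_pos.2 (hM y hyX)
    have h5 := card_pos.2 (hM z hzX)
    omega
  have h2 := card_pos.2 (hM x hx)
  have h3 := h.row hx
  omega

/-- in case C the set `L` refuses every pair. -/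
theorem Two.caseC_rp (h : Two B C X i0 M L) (hR : RR2 B M)
    (hM : ∀ x ∈ X, (Ez B M x).Nonempty) (hL : ∀ x ∈ X, (Ez B L x).Nonempty) {x y z : V}
    (hX : X = {x, y, z}) (hxy : x ≠ y) : Rp B L x y where
  reg := h.reg.mono h.symm.MC
  tr := by
    refine h.tr.mono (union_subset h.symm.MC fun v hv => ?_)
    rw [mem_insert, mem_singleton] at hv
    refine h.XC ?_
    rw [hX]
    rcases hv with rfl | rfl <;> simp
  kf := h.kf.mono h.symm.MC
  conn := h.cL
  n1 := h.symm.nMX (by rw [hX]; simp)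
  n2 := h.symm.nMX (by rw [hX]; simp)
  ne := hxy
  c1 := (h.caseC hR hM hL (by rw [hX]; simp)).2
  c2 := (h.caseC hR hM hL (by rw [hX]; simp)).2
  rf := h.symm.refM (x := z) (hM z (by rw [hX]; simp))
    (by rw [hX]; intro v hv; simp at hv ⊢; tauto)

end Pool.Agent.Hyp6
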