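import Pool.Agent.Hyp6.QFct

/-!
# HYP6 QPF: the P-form from a closure

General facts on the blocks between a component and groups of outer points, and the P-form.
-/

set_option autoImplicit false

namespace Pool.Agent.Hyp6

open Finset Pool.Agent.Hyp5

universe u v

section

variable {V : Type v} [DecidableEq V] {ι : Type u} {B : ι → Finset V} {M C X L : Finset V}

variable [Fintype ι]

theorem mem_Eg_pair {a b : V} {i : ι} :
    i ∈ Eg B M {a, b} ↔ (B i ∩ M).Nonempty ∧ (a ∈ B i ∨ b ∈ B i) := by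
  rw [mem_Eg]
  refine and_congr_right fun _ => ?_
  constructor
  · rintro ⟨w, hw⟩
    rw [mem_inter, mem_insert, mem_singleton] at hw
    rcases hw.2 with h | h
    · exact Or.inl (h ▸ hw.1)
    · exact Or.inr (h ▸ hw.1)
  · rintro (h | h)
    · exact ⟨a, by simp [h]⟩
    · exact ⟨b, by simp [h]⟩

/-- absorption of a pair of points. -/
theorem abz_pair {a b : V} (h : Ab B M [Eg B M {a}, Eg B M {b}]) : Abz B M {a, b} := by
  obtain ⟨T, h1, h2, h3⟩ := h
  refine ⟨T, union_subset h1 ?_, h2⟩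
  intro w hw
  rw [mem_insert, mem_singleton] at hw
  rcases hw with rfl | rfl
  · obtain ⟨i, hi, hi2⟩ := h3 (Eg B M {w}) (by simp)
    rw [Eg_singleton, mem_Ez] at hi2
    exact mem_biUnion.2 ⟨i, hi, hi2.1⟩
  · obtain ⟨i, hi, hi2⟩ := h3 (Eg B M {w}) (by simp)
    rw [Eg_singleton, mem_Ez] at hi2
    exact mem_biUnion.2 ⟨i, hi, hi2.1⟩

/-- merging: if `{y, a}` and `{y, b}` are refused then `y` and the group `{a, b}` are refused. -/
theorem not_ab_merge {y a b : V} (h1 : ¬ Ab B M [Eg B M {y}, Eg B M {a}])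
    (h2 : ¬ Ab B M [Eg B M {y}, Eg B M {b}]) : ¬ Ab B M [Eg B M {y}, Eg B M {a, b}] := by
  rintro ⟨T, hT1, hT2, hT3⟩
  obtain ⟨i, hi, hiy⟩ := hT3 (Eg B M {y}) (by simp)
  obtain ⟨j, hj, hjab⟩ := hT3 (Eg B M {a, b}) (by simp)
  rw [mem_Eg_pair] at hjab
  rcases hjab.2 with h | h
  · refine h1 ⟨T, hT1, hT2, fun E hE => ?_⟩
    rw [List.mem_cons, List.mem_cons] at hE
    rcases hE with rfl | rfl | hE
    · exact ⟨i, hi, hiy⟩
    · exact ⟨j, hj, by rw [Eg_singleton, mem_Ez]; exact ⟨h, hjab.1⟩⟩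
    · exact absurd hE (by simp)
  · refine h2 ⟨T, hT1, hT2, fun E hE => ?_⟩
    rw [List.mem_cons, List.mem_cons] at hE
    rcases hE with rfl | rfl | hE
    · exact ⟨i, hi, hiy⟩
    · exact ⟨j, hj, by rw [Eg_singleton, mem_Ez]; exact ⟨h, hjab.1⟩⟩
    · exact absurd hE (by simp)

/-- merging of three. -/
theorem not_ab_merge3 {y a b c : V} (h1 : ¬ Ab B M [Eg B M {y}, Eg B M {a}])
    (h2 : ¬ Ab B M [Eg B M {y}, Eg B M {b}]) (h3 : ¬ Ab B M [Eg B M {y}, Eg B M {c}]) :
    ¬ Ab B M [Eg B M {y}, Eg B M {a, b, c}] := by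
  rintro ⟨T, hT1, hT2, hT3⟩
  obtain ⟨i, hi, hiy⟩ := hT3 (Eg B M {y}) (by simp)
  obtain ⟨j, hj, hjab⟩ := hT3 (Eg B M {a, b, c}) (by simp)
  have key : ∀ w : V, w ∈ B j → ¬ Ab B M [Eg B M {y}, Eg B M {w}] → False := by
    intro w hw hn
    refine hn ⟨T, hT1, hT2, fun E hE => ?_⟩
    rw [List.mem_cons, List.mem_cons] at hE
    rcases hE with rfl | rfl | hE
    · exact ⟨i, hi, hiy⟩
    · exact ⟨j, hj, by rw [Eg_singleton, mem_Ez]; exact ⟨hw, (mem_Eg.1 hjab).1⟩⟩
    · exact absurd hE (by simp)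
  obtain ⟨w, hw⟩ := (mem_Eg.1 hjab).2
  rw [mem_inter, mem_insert, mem_insert, mem_singleton] at hw
  rcases hw.2 with h | h | h
  · exact key w hw.1 (h ▸ h1)
  · exact key w hw.1 (h ▸ h2)
  · exact key w hw.1 (h ▸ h3)

omit [Fintype ι] in
theorem not_ab_symm {E1 E2 : Finset ι} (h : ¬ Ab B M [E1, E2]) : ¬ Ab B M [E2, E1] := by
  rintro ⟨T, hT1, hT2, hT3⟩
  exact h ⟨T, hT1, hT2, fun E hE => hT3 E (by simp at hE ⊢; tauto)⟩

/-- the blocks of two refused groups are different. -/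
theorem disj_of_refuse {p : ℤ} (hM : CE B p M) {G1 G2 : Finset V}
    (h : ¬ Ab B M [Eg B M G1, Eg B M G2]) : Disjoint (Eg B M G1) (Eg B M G2) := by
  rw [disjoint_left]
  intro i h1 h2
  exact h (cmp_self_ab (Crit.cmp hM.crit hM.ck.cov (mem_Eg.1 h1).1) h1 h2)

/-- the number of blocks of a merged pair. -/
theorem card_Eg_pair {p : ℤ} (hM : CE B p M) {a b : V}
    (h : ¬ Ab B M [Eg B M {a}, Eg B M {b}]) :
    (Eg B M {a, b}).card = (Ez B M a).card + (Ez B M b).card := by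
  classical
  have h1 := disj_of_refuse hM h
  rw [Eg_singleton, Eg_singleton] at h1
  rw [← card_union_of_disjoint h1]
  congr 1
  ext i
  rw [mem_Eg_pair, mem_union, mem_Ez, mem_Ez]
  tauto

/-- **the P-form**: the outer blocks of `M` meet only the group `G` and the point `y`; there is exactly
one block at `G`; `y` and `G` are refused. -/
theorem pform_of (hM : EE B M) (hMC : M ⊆ C) {y : V} {G : Finset V} {β : ι} (hyC : y ∈ C)
    (hyM : y ∉ M) (hG : G ⊆ C \ M) (hβ : Eg B M G = {β})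
    (hout : ∀ i ∈ Out B C M, B i ∩ (C \ M) ⊆ insert y G)
    (hn : ¬ Ab B M [Eg B M {y}, Eg B M G]) (hy : (Ez B M y).Nonempty) : PForm B C M y β := by
  have hβm : β ∈ Eg B M G := by rw [hβ]; exact mem_singleton_self β
  have hβ2 := mem_Eg.1 hβm
  have hyβ : y ∉ B β := by
    intro hy'
    refine disjoint_left.1 (disj_of_refuse hM hn) ?_ hβm
    rw [Eg_singleton, mem_Ez]
    exact ⟨hy', hβ2.1⟩
  have hpart : ∀ i ∈ Out B C M, i ≠ β → B i ∩ (C \ M) = {y} := by
    intro i hi hne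
    have h1 := mem_Out.1 hi
    refine (subset_singleton_iff.1 fun v hv => ?_).resolve_left h1.2.ne_empty
    rcases mem_insert.1 (hout i hi hv) with h2 | h2
    · exact mem_singleton.2 h2
    · exfalso
      have h3 : i ∈ Eg B M G := mem_Eg.2 ⟨h1.1, v, mem_inter.2 ⟨(mem_inter.1 hv).1, h2⟩⟩
      rw [hβ, mem_singleton] at h3
      exact hne h3
  refine ⟨hM, hMC, hyC, hyM, hyβ, ?_, hpart, ?_, ?_⟩
  · rw [mem_Out]
    obtain ⟨v, hv⟩ := hβ2.2
    rw [mem_inter] at hv
    exact ⟨hβ2.1, v, mem_inter.2 ⟨hv.1, hG hv.2⟩⟩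
  · intro i hi hne hcmp
    have h1 := hpart i hi hne
    have h2 : y ∈ B i ∩ (C \ M) := by rw [h1]; exact mem_singleton_self y
    refine hn (ab_two.2 ⟨i, ?_, β, hβm, hcmp⟩)
    rw [Eg_singleton, mem_Ez]
    exact ⟨(mem_inter.1 h2).1, (mem_Out.1 hi).1⟩
  · obtain ⟨i, hi⟩ := hy
    rw [mem_Ez] at hi
    refine ⟨i, mem_Out.2 ⟨hi.2, y, mem_inter.2 ⟨hi.1, mem_sdiff.2 ⟨hyC, hyM⟩⟩⟩, ?_⟩
    rintro rfl
    exact hyβ hi.1

/-! ### closures with three points -/

/-- a closure with three points of a member of E. -/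
structure Ty (B : ι → Finset V) (C X M L : Finset V) : Prop where
  ee : EE B C
  clo : Clo B C X {M, L}
  ne : M ≠ L
  c3 : X.card = 3

variable {a b c : V}

theorem Ty.swap (h : Ty B C X M L) : Ty B C X L M := ⟨h.ee, h.clo.swap2, h.ne.symm, h.c3⟩

theorem Ty.cov (h : Ty B C X M L) : Cov B C := h.ee.ck.cov

theorem Ty.xne (h : Ty B C X M L) : X.Nonempty := card_pos.1 (by rw [h.c3]; norm_num)

theorem Ty.subC (h : Ty B C X M L) : M ⊆ C := h.clo.subC (by simp)

theorem Ty.ce (h : Ty B C X M L) : CE B (Pv B M) M := by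
  have hMF : M ∈ ({M, L} : Finset (Finset V)) := by simp
  have h1 := h.clo.card_eq h.ee.crit h.cov h.ee.conn h.ee.sv h.xne
  exact ⟨⟨h.ee.reg.mono h.subC, h.ee.tr4.mono h.subC, h.ee.kf.mono h.subC,
    (h.clo.parts M hMF).2.2⟩, h.clo.crit M hMF, h1.2 M hMF, rfl⟩

theorem Ty.notMem (h : Ty B C X M L) {z : V} (hz : z ∈ X) : z ∉ M :=
  h.clo.notMem (by simp) hz

theorem Ty.out_sub (h : Ty B C X M L) {i : ι} (hi : i ∈ Out B C M) : B i ∩ (C \ M) ⊆ X := by
  intro v hv
  rw [mem_inter, mem_sdiff] at hv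
  have h1 := h.clo.sub_of_mem (L := M) (by simp) (mem_Out.1 hi).1 (mem_inter.2 ⟨hv.1, hv.2.1⟩)
  rcases mem_union.1 h1 with h2 | h2
  · exact h2
  · exact absurd h2 hv.2.2

/-- the other two points. -/
theorem three_pts (hX : X.card = 3) (hc : c ∈ X) :
    ∃ a b, a ≠ b ∧ a ≠ c ∧ b ≠ c ∧ X = {a, b, c} := by
  have h1 : (X.erase c).card = 2 := by rw [card_erase_of_mem hc, hX]
  obtain ⟨a, b, hab, hab2⟩ := card_eq_two.1 h1
  have ha : a ∈ X.erase c := by rw [hab2]; simp
  have hb : b ∈ X.erase c := by rw [hab2]; simp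
  refine ⟨a, b, hab, (mem_erase.1 ha).1, (mem_erase.1 hb).1, ?_⟩
  rw [← insert_erase hc, hab2]
  ext v
  simp only [mem_insert, mem_singleton]
  tauto

/-- if `L` sees `c` then `M` refuses the other two. -/
theorem Ty.refuse (h : Ty B C X M L) (hX : X = {a, b, c}) (hac : a ≠ c) (hbc : b ≠ c)
    (hL : (Ez B L c).Nonempty) : ¬ Ab B M [Eg B M {a}, Eg B M {b}] := by
  intro hab
  refine h.clo.refuse2 h.ee.crit h.cov h.ne (z := c) (by rw [hX]; simp) hL ?_
  have h1 : X.erase c = {a, b} := by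
    rw [hX]
    ext v
    simp only [mem_erase, mem_insert, mem_singleton]
    constructor
    · rintro ⟨h1, h2 | h2 | h2⟩
      · exact Or.inl h2
      · exact Or.inr h2
      · exact absurd h2 h1
    · rintro (h1 | h1)
      · exact ⟨fun he => hac (h1 ▸ he), Or.inl h1⟩
      · exact ⟨fun he => hbc (h1 ▸ he), Or.inr (Or.inl h1)⟩
  rw [h1]
  exact abz_pair hab

/-- `M` sees two points: if it does not see `c`, it sees the others. -/
theorem Ty.two (h : Ty B C X M L) (hX : X = {a, b, c}) (hc : Ez B M c = ∅) :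
    (Ez B M a).Nonempty ∧ (Ez B M b).Nonempty := by
  obtain ⟨z, hz, y, hy, hzy, h1, h2⟩ := h.clo.two h.ee.crit h.cov h.ee.conn h.xne (L := M)
    (by simp)
  have hzc : z ≠ c := by
    rintro rfl
    rw [hc] at h1
    exact absurd h1 (by simp)
  have hyc : y ≠ c := by
    rintro rfl
    rw [hc] at h2
    exact absurd h2 (by simp)
  rw [hX, mem_insert, mem_insert, mem_singleton] at hz hy
  rcases hz with rfl | rfl | rfl
  · rcases hy with rfl | rfl | rfl
    · exact absurd rfl hzy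
    · exact ⟨h1, h2⟩
    · exact absurd rfl hyc
  · rcases hy with rfl | rfl | rfl
    · exact ⟨h2, h1⟩
    · exact absurd rfl hzy
    · exact absurd rfl hyc
  · exact absurd rfl hzc

/-- `M` sees two points: one of `a`, `b`. -/
theorem Ty.one (h : Ty B C X M L) (hX : X = {a, b, c}) :
    (Ez B M a).Nonempty ∨ (Ez B M b).Nonempty := by
  obtain ⟨z, hz, y, hy, hzy, h1, h2⟩ := h.clo.two h.ee.crit h.cov h.ee.conn h.xne (L := M)
    (by simp)
  rw [hX, mem_insert, mem_insert, mem_singleton] at hz hy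
  rcases hz with rfl | rfl | rfl
  · exact Or.inl h1
  · exact Or.inr h1
  · rcases hy with rfl | rfl | rfl
    · exact Or.inl h2
    · exact Or.inr h2
    · exact absurd rfl hzy

theorem Ty.single_sub (h : Ty B C X M L) {z : V} (hz : z ∈ X) : ({z} : Finset V) ⊆ C \ M :=
  singleton_subset_iff.2 (mem_sdiff.2 ⟨h.clo.sub hz, h.notMem hz⟩)

theorem Ty.pair_sub (h : Ty B C X M L) {y z : V} (hy : y ∈ X) (hz : z ∈ X) :
    ({y, z} : Finset V) ⊆ C \ M := by
  rw [insert_subset_iff]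
  exact ⟨mem_sdiff.2 ⟨h.clo.sub hy, h.notMem hy⟩, h.single_sub hz⟩

/-- case B: `L` does not see `c`. -/
theorem Ty.caseB (hT : HT.{u} V) (h : Ty B C X M L) (hM : EE B M) (hc : c ∈ X)
    (hLc : Ez B L c = ∅) (hMc : 2 ≤ (Ez B M c).card) : ∃ y β, PForm B C M y β := by
  obtain ⟨a, b, hab, hac, hbc, hX⟩ := three_pts h.c3 hc
  have haX : a ∈ X := by rw [hX]; simp
  have hbX : b ∈ X := by rw [hX]; simp
  obtain ⟨hLa, hLb⟩ := h.swap.two hX hLc
  have r1 : ¬ Ab B M [Eg B M {c}, Eg B M {a}] :=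
    h.refuse (a := c) (b := a) (c := b) (by rw [hX]; ext v; simp only [mem_insert, mem_singleton]
                                            tauto) hbc.symm hab hLb
  have r2 : ¬ Ab B M [Eg B M {c}, Eg B M {b}] :=
    h.refuse (a := c) (b := b) (c := a) (by rw [hX]; ext v; simp only [mem_insert, mem_singleton]
                                            tauto) hac.symm hab.symm hLa
  have r := not_ab_merge r1 r2
  have h1 : (Eg B M {a, b}).card ≤ 1 := by
    by_contra hcon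
    push Not at hcon
    have h2 := CK.ref1 hT hM.ck h.subC h.ee.tr4 (h.single_sub hc) (h.pair_sub haX hbX)
      (by
        rw [disjoint_singleton_left, mem_insert, mem_singleton, not_or]
        exact ⟨hac.symm, hbc.symm⟩) r (k := 2) (by norm_num) (by norm_num)
      (by rw [Eg_singleton]; exact hMc) hcon
    have h3 : Pv B M = -1 := hM.pv
    rw [h3] at h2
    norm_num at h2
  have h2 : 1 ≤ (Eg B M {a, b}).card := by
    rw [Nat.succ_le_iff, card_pos]
    rcases h.one hX with ⟨i, hi⟩ | ⟨i, hi⟩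
    · rw [mem_Ez] at hi
      exact ⟨i, mem_Eg_pair.2 ⟨hi.2, Or.inl hi.1⟩⟩
    · rw [mem_Ez] at hi
      exact ⟨i, mem_Eg_pair.2 ⟨hi.2, Or.inr hi.1⟩⟩
  obtain ⟨β, hβ⟩ := card_eq_one.1 (le_antisymm h1 h2)
  refine ⟨c, β, pform_of hM h.subC (h.clo.sub hc) (h.notMem hc) (h.pair_sub haX hbX) hβ ?_ r
    (card_pos.1 (by omega))⟩
  intro i hi v hv
  have h3 := h.out_sub hi hv
  rw [hX] at h3
  simp only [mem_insert, mem_singleton] at h3 ⊢
  tauto

/-- case C: `M` does not see `c`. -/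
theorem Ty.caseC (hT : HT.{u} V) (h : Ty B C X M L) (hM : EE B M) (hc : c ∈ X)
    (hMc : Ez B M c = ∅) (hLc : (Ez B L c).Nonempty) : ∃ y β, PForm B C M y β := by
  obtain ⟨a, b, hab, hac, hbc, hX⟩ := three_pts h.c3 hc
  have haX : a ∈ X := by rw [hX]; simp
  have hbX : b ∈ X := by rw [hX]; simp
  obtain ⟨hMa, hMb⟩ := h.two hX hMc
  have r := h.refuse hX hac hbc hLc
  have key : ∀ {y z : V}, y ∈ X → z ∈ X → y ≠ z → (∀ v ∈ X, v ≠ c → v = y ∨ v = z) →
      ¬ Ab B M [Eg B M {y}, Eg B M {z}] → (Ez B M y).Nonempty → (Ez B M z).card = 1 →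
      ∃ y β, PForm B C M y β := by
    intro y z hy hz hyz hyz2 hn hMy hMz
    obtain ⟨β, hβ⟩ := card_eq_one.1 hMz
    refine ⟨y, β, pform_of hM h.subC (h.clo.sub hy) (h.notMem hy) (h.single_sub hz)
      (by rw [Eg_singleton]; exact hβ) ?_ hn hMy⟩
    intro i hi v hv
    have h3 := h.out_sub hi hv
    have hvc : v ≠ c := by
      rintro rfl
      have h4 : i ∈ Ez B M v := mem_Ez.2 ⟨(mem_inter.1 hv).1, (mem_Out.1 hi).1⟩
      rw [hMc] at h4
      exact absurd h4 (notMem_empty _)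
    rw [mem_insert, mem_singleton]
    exact hyz2 v h3 hvc
  have h1 : ¬ (2 ≤ (Ez B M a).card ∧ 2 ≤ (Ez B M b).card) := by
    rintro ⟨h2, h3⟩
    have h4 := CK.ref1 hT hM.ck h.subC h.ee.tr4 (h.single_sub haX) (h.single_sub hbX)
      (by rwa [disjoint_singleton]) r (k := 2) (by norm_num) (by norm_num)
      (by rw [Eg_singleton]; exact h2) (by rw [Eg_singleton]; exact h3)
    have h5 : Pv B M = -1 := hM.pv
    rw [h5] at h4
    norm_num at h4
  have h2 := card_pos.2 hMa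
  have h3 := card_pos.2 hMb
  have hX2 : ∀ v ∈ X, v ≠ c → v = a ∨ v = b := by
    intro v hv hvc
    rw [hX, mem_insert, mem_insert, mem_singleton] at hv
    tauto
  rcases (by omega : (Ez B M a).card = 1 ∨ (Ez B M b).card = 1) with h4 | h4
  · exact key hbX haX hab.symm (fun v hv hvc => (hX2 v hv hvc).symm) (not_ab_symm r) hMb h4
  · exact key haX hbX hab hX2 r hMa h4

/-- all rows positive: `M` has one block at every point. -/
theorem Ty.all_one (hT : HT.{u} V) (h : Ty B C X M L) (hM : EE B M)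
    (hMX : ∀ z ∈ X, (Ez B M z).Nonempty) (hLX : ∀ z ∈ X, (Ez B L z).Nonempty) :
    ∀ z ∈ X, (Ez B M z).card = 1 := by
  intro c hc
  obtain ⟨a, b, hab, hac, hbc, hX⟩ := three_pts h.c3 hc
  have haX : a ∈ X := by rw [hX]; simp
  have hbX : b ∈ X := by rw [hX]; simp
  have r1 : ¬ Ab B M [Eg B M {c}, Eg B M {a}] :=
    h.refuse (a := c) (b := a) (c := b) (by rw [hX]; ext v; simp only [mem_insert, mem_singleton]
                                            tauto) hbc.symm hab (hLX b hbX)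
  have r2 : ¬ Ab B M [Eg B M {c}, Eg B M {b}] :=
    h.refuse (a := c) (b := b) (c := a) (by rw [hX]; ext v; simp only [mem_insert, mem_singleton]
                                            tauto) hac.symm hab.symm (hLX a haX)
  have r3 : ¬ Ab B M [Eg B M {a}, Eg B M {b}] := h.refuse hX hac hbc (hLX c hc)
  have r := not_ab_merge r1 r2
  have h1 := card_Eg_pair hM r3
  have h2 := card_pos.2 (hMX a haX)
  have h3 := card_pos.2 (hMX b hbX)
  have h4 := card_pos.2 (hMX c hc)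
  by_contra hcon
  have h5 := CK.ref1 hT hM.ck h.subC h.ee.tr4 (h.single_sub hc) (h.pair_sub haX hbX)
      (by
        rw [disjoint_singleton_left, mem_insert, mem_singleton, not_or]
        exact ⟨hac.symm, hbc.symm⟩) r (k := 2) (by norm_num) (by norm_num)
      (by rw [Eg_singleton]; omega) (by rw [h1]; omega)
  have h6 : Pv B M = -1 := hM.pv
  rw [h6] at h5
  norm_num at h5

/-- types I and III: a P-form, or all rows are positive and `M` has one block at every point. -/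
theorem Ty.cases (hT : HT.{u} V) (h : Ty B C X M L) (hM : EE B M)
    (hrow : ∀ z ∈ X, 3 ≤ (Ez B M z).card + (Ez B L z).card) :
    (∃ y β, PForm B C M y β) ∨
      ((∀ z ∈ X, (Ez B M z).card = 1) ∧ (∀ z ∈ X, (Ez B L z).Nonempty)) := by
  by_cases h1 : ∃ c ∈ X, Ez B L c = ∅
  · obtain ⟨c, hc, h2⟩ := h1
    have h3 := hrow c hc
    rw [h2, card_empty] at h3
    exact Or.inl (h.caseB hT hM hc h2 (by omega))
  by_cases h2 : ∃ c ∈ X, Ez B M c = ∅
  · obtain ⟨c, hc, h3⟩ := h2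
    have h4 := hrow c hc
    rw [h3, card_empty] at h4
    exact Or.inl (h.caseC hT hM hc h3 (card_pos.1 (by omega)))
  push Not at h1 h2
  exact Or.inr ⟨h.all_one hT hM h2 h1, h1⟩

end

end Pool.Agent.Hyp6
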