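import Pool.Agent.Hyp6.L4U

/-!
# HYP6 QTA: T0++, a minimal counterexample with a trace of four points

`IHP V n`: connected K-free sets with fewer than `n` points and value `sv ≥ 1` have `Pv ≥ 0`.
`Cu`: a minimal counterexample. Copied from L4Z with the sharper bounds (helper90, section 5).
-/

set_option autoImplicit false

namespace Pool.Agent.Hyp6

open Finset Pool.Agent.Hyp5

universe u v

variable {V : Type v} [DecidableEq V] {ι : Type u} [Fintype ι] {B : ι → Finset V}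

/-- the induction hypothesis of T0++. -/
def IHP (V : Type v) [DecidableEq V] (n : ℕ) : Prop :=
  ∀ (κ : Type u) [Fintype κ] (B : κ → Finset V) (Q : Finset V), Q.card < n → Reg B Q → Tr4 B Q →
    Conn (gr B) Q → KFree B Q → 1 ≤ sv B Q → 0 ≤ Pv B Q

/-- a minimal counterexample, a block `i0` with four points and the components of the rest. -/
structure Cu (B : ι → Finset V) (Q Z : Finset V) (F : Finset (Finset V)) (i0 : ι) : Prop where
  ih : ∀ n, IH4.{u} V n
  ihp : IHP.{u} V Q.card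
  reg : Reg B Q
  tr : Tr4 B Q
  conn : Conn (gr B) Q
  kf : KFree B Q
  val : Pv B Q = -1
  sv1 : 1 ≤ sv B Q
  hZ : B i0 ∩ Q = Z
  cZ : Z.card = 4
  parts : ∀ C ∈ F, C ⊆ Q \ Z ∧ Closed (gr B) (Q \ Z) C ∧ Conn (gr B) C
  sep : SepF B F
  un : F.biUnion id = Q \ Z

variable {Q Z : Finset V} {F : Finset (Finset V)} {i0 : ι}

theorem Cu.ee0 (h : Cu B Q Z F i0) : ee B Q Q = 0 := by
  have h1 := h.ih (Q.card + 1) ι B Q (Nat.lt_succ_self _) h.reg h.tr h.conn h.kf
  rw [h.val] at h1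
  have h2 : (ee B Q Q : ℤ) ≤ 0 := by linarith
  have h3 : ee B Q Q ≤ 0 := by exact_mod_cast h2
  omega

theorem Cu.neg (h : Cu B Q Z F i0) : dv B Q Q ≤ -1 := by
  unfold dv
  rw [h.val, h.ee0]
  norm_num

theorem Cu.ZQ (h : Cu B Q Z F i0) : Z ⊆ Q := by
  rw [← h.hZ]
  exact inter_subset_right

theorem Cu.cp (h : Cu B Q Z F i0) {C : Finset V} (hC : C ∈ F) : Cp B Q C := by
  refine ⟨h.ih _, h.reg, h.tr, h.kf, (h.parts C hC).1.trans sdiff_subset, (h.parts C hC).2.2, ?_⟩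
  have h1 := card_le_card (h.parts C hC).1
  have h2 := card_sdiff_add_card_eq_card h.ZQ
  have h3 := h.cZ
  omega

theorem Cu.notMem (h : Cu B Q Z F i0) {C : Finset V} (hC : C ∈ F) {z : V} (hz : z ∈ Z) :
    z ∉ C := fun hzC => (mem_sdiff.1 ((h.parts C hC).1 hzC)).2 hz

theorem Cu.att (h : Cu B Q Z F i0) {C : Finset V} (hC : C ∈ F) :
    ∃ z ∈ Z, (Ez B C z).Nonempty := by
  have hne : C ≠ Q := by
    rintro rfl
    have h1 := h.cZ
    have h2 : Z.Nonempty := card_pos.1 (by omega)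
    obtain ⟨z, hz⟩ := h2
    exact h.notMem hC hz (h.ZQ hz)
  obtain ⟨x, hx, y, hy, hyC, hadj⟩ := h.conn.exists_edge (h.cp hC).sub (h.parts C hC).2.2.1 hne
  have hyZ : y ∈ Z := by
    by_contra hyZ
    exact hyC ((h.parts C hC).2.1.2 x hx y (mem_sdiff.2 ⟨hy, hyZ⟩) hadj)
  obtain ⟨_, i, hi1, hi2⟩ := hadj
  exact ⟨y, hyZ, i, mem_Ez.2 ⟨hi2, x, mem_inter.2 ⟨hi1, hx⟩⟩⟩

/-- the five blocks of a point of `Z`. -/
theorem Cu.row (h : Cu B Q Z F i0) {z : V} (hz : z ∈ Z) :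
    ∑ C ∈ F, (Ez B C z).card + ((ins B Q Z).filter (fun i => z ∈ B i)).card = 5 := by
  classical
  rw [← h.reg z (h.ZQ hz)]
  have h1 : (F.biUnion (fun C => Ez B C z)).card = ∑ C ∈ F, (Ez B C z).card := by
    rw [card_biUnion]
    intro C hC D hD hne
    rw [Function.onFun, disjoint_left]
    intro i hi hi2
    exact (h.sep C hC D hD hne).2 i (mem_Ez.1 hi).2 (mem_Ez.1 hi2).2
  rw [← h1, ← card_union_of_disjoint]
  · congr 1
    ext i
    rw [mem_union, mem_biUnion, mem_filter, mem_filter, mem_ins]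
    constructor
    · rintro (⟨C, _, hi⟩ | ⟨_, hi⟩)
      · exact ⟨mem_univ _, (mem_Ez.1 hi).1⟩
      · exact ⟨mem_univ _, hi⟩
    · rintro ⟨_, hi⟩
      by_cases h2 : B i ∩ Q ⊆ Z
      · exact Or.inr ⟨⟨⟨z, mem_inter.2 ⟨hi, h.ZQ hz⟩⟩, h2⟩, hi⟩
      · left
        rw [not_subset] at h2
        obtain ⟨v, hv, hvZ⟩ := h2
        rw [mem_inter] at hv
        have h3 : v ∈ F.biUnion id := by
          rw [h.un]
          exact mem_sdiff.2 ⟨hv.2, hvZ⟩
        obtain ⟨C, hC, hvC⟩ := mem_biUnion.1 h3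
        exact ⟨C, hC, mem_Ez.2 ⟨hi, v, mem_inter.2 ⟨hv.1, hvC⟩⟩⟩
  · rw [disjoint_left]
    intro i hi hi2
    obtain ⟨C, hC, hiC⟩ := mem_biUnion.1 hi
    rw [mem_filter, mem_ins] at hi2
    obtain ⟨v, hv⟩ := (mem_Ez.1 hiC).2
    rw [mem_inter] at hv
    have h3 := (h.parts C hC).1 hv.2
    exact (mem_sdiff.1 h3).2 (hi2.1.2 (mem_inter.2 ⟨hv.1, (mem_sdiff.1 h3).1⟩))

theorem Cu.i0_ins (h : Cu B Q Z F i0) : i0 ∈ ins B Q Z := by
  rw [mem_ins, h.hZ]
  have h1 := h.cZ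
  exact ⟨card_pos.1 (by omega), Subset.refl _⟩

theorem Cu.i0_mem (h : Cu B Q Z F i0) {z : V} (hz : z ∈ Z) : z ∈ B i0 := by
  rw [← h.hZ] at hz
  exact (mem_inter.1 hz).1

theorem Cu.row_le (h : Cu B Q Z F i0) {z : V} (hz : z ∈ Z) :
    ∑ C ∈ F, (Ez B C z).card ≤ 4 := by
  have h1 := h.row hz
  have h2 : 0 < ((ins B Q Z).filter (fun i => z ∈ B i)).card :=
    card_pos.2 ⟨i0, mem_filter.2 ⟨h.i0_ins, h.i0_mem hz⟩⟩
  omega

theorem Cu.row_eq (h : Cu B Q Z F i0) (hb : (ins B Q Z).card = 1) {z : V} (hz : z ∈ Z) :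
    ∑ C ∈ F, (Ez B C z).card = 4 := by
  have h1 := h.row hz
  have h2 : 0 < ((ins B Q Z).filter (fun i => z ∈ B i)).card :=
    card_pos.2 ⟨i0, mem_filter.2 ⟨h.i0_ins, h.i0_mem hz⟩⟩
  have h3 : ((ins B Q Z).filter (fun i => z ∈ B i)).card ≤ 1 := by
    rw [← hb]
    exact card_filter_le _ _
  omega

/-- the number of components attached to `A`. -/
theorem Cu.card_att (h : Cu B Q Z F i0) {A : Finset V} (hA : A ⊆ Z) {L : Finset (Finset V)}
    (hL : L ⊆ F) (hatt : ∀ C ∈ L, ∃ z ∈ A, (Ez B C z).Nonempty) : L.card ≤ 4 * A.card := by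
  have h1 : ∑ C ∈ L, 1 ≤ ∑ C ∈ L, ∑ z ∈ A, (Ez B C z).card := by
    refine sum_le_sum fun C hC => ?_
    obtain ⟨z, hz, hne⟩ := hatt C hC
    refine (Nat.succ_le_of_lt (card_pos.2 hne)).trans ?_
    exact single_le_sum (f := fun z => (Ez B C z).card) (fun _ _ => Nat.zero_le _) hz
  rw [sum_comm] at h1
  have h2 : ∑ z ∈ A, ∑ C ∈ L, (Ez B C z).card ≤ ∑ z ∈ A, 4 := by
    refine sum_le_sum fun z hz => ?_
    refine le_trans ?_ (h.row_le (hA hz))
    exact sum_le_sum_of_subset hL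
  have h3 := h1.trans h2
  simp only [sum_const, smul_eq_mul, mul_one] at h3
  omega

theorem Cu.cov (h : Cu B Q Z F i0) : Cov B Q := cov_of_reg h.reg

theorem Cu.rho_le (h : Cu B Q Z F i0) : rho B Q ≤ rho B (Q \ Z) + 1 := by
  have h1 : Z ⊆ B i0 := by
    rw [← h.hZ]
    exact inter_subset_left
  exact rho_le_sdiff h1 h.cov

theorem Cu.sum_Pv (h : Cu B Q Z F i0) : Pv B (Q \ Z) = ∑ C ∈ F, Pv B C := by
  rw [← h.un]
  exact Pv_biUnion (fun C hC => (h.cp hC).cov) h.sep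

theorem Cu.sum_rho (h : Cu B Q Z F i0) : rho B (Q \ Z) = ∑ C ∈ F, rho B C := by
  rw [← h.un]
  exact rho_biUnion (fun C hC => (h.cp hC).cov) h.sep

theorem Cu.ee_split (h : Cu B Q Z F i0) : ee B Q Q = ∑ C ∈ F, ee B Q C + ee B Q Z := by
  rw [← ee_biUnion h.sep, h.un, ← ee_union sdiff_disjoint, sdiff_union_of_subset h.ZQ]

theorem Cu.ee_Z (h : Cu B Q Z F i0) : 2 * ee B Q Z + 1 ≤ (ins B Q Z).card := by
  classical
  have h1 := two_ee_le (B := B) Q Z
  have h2 : (ins B Q Z).filter (fun i => (B i ∩ Q).card = 1) ⊆ (ins B Q Z).erase i0 := by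
    intro i hi
    rw [mem_filter] at hi
    refine mem_erase.2 ⟨?_, hi.1⟩
    rintro rfl
    rw [h.hZ, h.cZ] at hi
    omega
  have h3 := card_le_card h2
  have h4 := card_erase_add_one h.i0_ins
  omega

theorem Cu.sum_dv (h : Cu B Q Z F i0) :
    ∑ C ∈ F, dv B Q C = Pv B (Q \ Z) - 2 * ∑ C ∈ F, (ee B Q C : ℤ) := by
  unfold dv
  rw [h.sum_Pv, sum_sub_distrib, ← mul_sum]

/-- `Z` lowers the cover number. -/
theorem Cu.rho_eq (h : Cu B Q Z F i0) : rho B Q = rho B (Q \ Z) + 1 := by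
  have h1 := h.rho_le
  have h2 : rho B (Q \ Z) ≤ rho B Q := rho_mono sdiff_subset h.cov
  by_contra hcon
  have h3 : rho B Q = rho B (Q \ Z) := by omega
  have h4 := Pv_sdiff (B := B) h.ZQ
  rw [h3, h.cZ] at h4
  have h5 := h.card_att (Subset.refl Z) (Subset.refl F) (fun C hC => h.att hC)
  rw [h.cZ] at h5
  have h6 : ∑ C ∈ F, (-1 : ℤ) ≤ ∑ C ∈ F, dv B Q C := sum_le_sum fun C hC => (h.cp hC).d_ge
  rw [sum_const, nsmul_eq_mul, h.sum_dv] at h6
  have h7 : 0 < (ins B Q Z).card := card_pos.2 ⟨i0, h.i0_ins⟩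
  have h8 := h.neg
  have h11 := h.ee_split
  have h12 := h.ee_Z
  unfold dv at h8
  push_cast at h4
  have h9 : (F.card : ℤ) ≤ 16 := by exact_mod_cast h5
  have h10 : (1 : ℤ) ≤ (ins B Q Z).card := by exact_mod_cast h7
  have c1 : (ee B Q Q : ℤ) = ∑ C ∈ F, (ee B Q C : ℤ) + ee B Q Z := by
    rw [h11]
    push_cast
    ring
  have c2 : 2 * (ee B Q Z : ℤ) + 1 ≤ (ins B Q Z).card := by exact_mod_cast h12
  linarith

theorem Cu.dv_ge (h : Cu B Q Z F i0) :
    ∑ C ∈ F, dv B Q C + 3 * ((ins B Q Z).card : ℤ) - 3 ≤ dv B Q Q := by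
  have h4 := Pv_sdiff (B := B) h.ZQ
  rw [h.rho_eq, h.cZ] at h4
  have h11 := h.ee_split
  have h12 := h.ee_Z
  rw [h.sum_dv]
  unfold dv
  push_cast at h4
  have c1 : (ee B Q Q : ℤ) = ∑ C ∈ F, (ee B Q C : ℤ) + ee B Q Z := by
    rw [h11]
    push_cast
    ring
  have c2 : 2 * (ee B Q Z : ℤ) + 1 ≤ (ins B Q Z).card := by exact_mod_cast h12
  linarith

theorem Cu.not_JA_Z (h : Cu B Q Z F i0) : ¬ JA B F Z := by
  rintro ⟨T, hT, hTc⟩
  have h1 : Q ⊆ T.biUnion B := by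
    refine Subset.trans ?_ hT
    rw [h.un, sdiff_union_of_subset h.ZQ]
  have h2 := Hyp6.rho_le h1
  have h3 := h.rho_eq
  have h4 := h.sum_rho
  omega

/-- the rest is connected. -/
theorem Cu.conn_M (h : Cu B Q Z F i0) {A : Finset V} (hAZ : ¬ Z ⊆ A) :
    Conn (gr B) ((Z \ A) ∪ (F \ FA B Z F A).biUnion id) := by
  obtain ⟨z0, hz0, hz0A⟩ := not_subset.1 hAZ
  refine ⟨⟨z0, mem_union_left _ (mem_sdiff.2 ⟨hz0, hz0A⟩)⟩, fun S hS hne => ?_⟩
  have hcomp : ∀ C ∈ F \ FA B Z F A, (S ∩ C).Nonempty → C ⊆ S := by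
    intro C hC hSC
    have h1 : Closed (gr B) C (S ∩ C) := by
      refine ⟨inter_subset_right, fun x hx y hy hxy => ?_⟩
      rw [mem_inter] at hx ⊢
      refine ⟨hS.2 x hx.1 y (mem_union_right _ (mem_biUnion.2 ⟨C, hC, hy⟩)) hxy, hy⟩
    have h2 := (h.parts C (mem_sdiff.1 hC).1).2.2.2 _ h1 hSC
    rw [← h2]
    exact inter_subset_left
  have hatt : ∀ C ∈ F \ FA B Z F A, ∃ z ∈ Z \ A, ∃ u ∈ C, (gr B).Adj z u := by
    intro C hC
    rw [mem_sdiff, mem_FA] at hC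
    have h1 : ¬ ∀ z ∈ Z, (Ez B C z).Nonempty → z ∈ A := fun h1 => hC.2 ⟨hC.1, h1⟩
    push Not at h1
    obtain ⟨z, hz, ⟨i, hi⟩, hzA⟩ := h1
    obtain ⟨hi1, u, hu⟩ := mem_Ez.1 hi
    rw [mem_inter] at hu
    refine ⟨z, mem_sdiff.2 ⟨hz, hzA⟩, u, hu.2, ?_, i, hi1, hu.1⟩
    rintro rfl
    exact h.notMem hC.1 hz hu.2
  have hclq : ∀ z ∈ Z \ A, z ∈ S → Z \ A ⊆ S := by
    intro z hz hzS y hy
    by_cases hzy : z = y
    · rw [← hzy]
      exact hzS
    · exact hS.2 z hzS y (mem_union_left _ hy)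
        ⟨hzy, i0, h.i0_mem (mem_sdiff.1 hz).1, h.i0_mem (mem_sdiff.1 hy).1⟩
  have hZA : Z \ A ⊆ S := by
    obtain ⟨s, hs⟩ := hne
    rcases mem_union.1 (hS.1 hs) with h1 | h1
    · exact hclq s h1 hs
    · obtain ⟨C, hC, hsC⟩ := mem_biUnion.1 h1
      have hCS := hcomp C hC ⟨s, mem_inter.2 ⟨hs, hsC⟩⟩
      obtain ⟨z, hz, u, hu, hadj⟩ := hatt C hC
      exact hclq z hz (hS.2 u (hCS hu) z (mem_union_left _ hz) hadj.symm)
  refine Subset.antisymm hS.1 fun v hv => ?_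
  rcases mem_union.1 hv with h1 | h1
  · exact hZA h1
  · obtain ⟨C, hC, hvC⟩ := mem_biUnion.1 h1
    obtain ⟨z, hz, u, hu, hadj⟩ := hatt C hC
    have h2 : u ∈ S := hS.2 z (hZA hz) u (mem_union_right _ (mem_biUnion.2 ⟨C, hC, hu⟩)) hadj
    exact hcomp C hC ⟨u, mem_inter.2 ⟨h2, hu⟩⟩ hvC

/-- (A): no nonempty subset of `Z` is absorbed by the components attached only inside it. -/
theorem Cu.not_JA (h : Cu B Q Z F i0) {A : Finset V} (hA : A ⊆ Z) (hne : A.Nonempty) :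
    ¬ JA B (FA B Z F A) A := by
  classical
  by_cases hAZ : Z ⊆ A
  · have h1 : A = Z := Subset.antisymm hA hAZ
    rw [h1]
    have h2 : FA B Z F Z = F := by
      ext C
      rw [mem_FA]
      exact ⟨fun h => h.1, fun h => ⟨h, fun z hz _ => hz⟩⟩
    rw [h2]
    exact h.not_JA_Z
  rintro ⟨T, hT, hTc⟩
  set L := FA B Z F A with hL
  set M := (Z \ A) ∪ (F \ L).biUnion id with hM
  set N := L.biUnion id with hN
  have hLF : L ⊆ F := fun C hC => (mem_FA.1 hC).1
  have hMQ : M ⊆ Q := by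
    intro v hv
    rcases mem_union.1 hv with h1 | h1
    · exact h.ZQ (mem_sdiff.1 h1).1
    · obtain ⟨C, hC, hvC⟩ := mem_biUnion.1 h1
      exact (h.cp (mem_sdiff.1 hC).1).sub hvC
  have hNQ : N ⊆ Q := by
    intro v hv
    obtain ⟨C, hC, hvC⟩ := mem_biUnion.1 hv
    exact (h.cp (hLF hC)).sub hvC
  have hAQ : A ⊆ Q := hA.trans h.ZQ
  have hNZ : ∀ v ∈ N, v ∉ Z := by
    intro v hv hvZ
    obtain ⟨C, hC, hvC⟩ := mem_biUnion.1 hv
    exact h.notMem (hLF hC) hvZ hvC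
  have hMA : Disjoint M A := by
    rw [disjoint_left]
    intro v hv hvA
    rcases mem_union.1 hv with h1 | h1
    · exact (mem_sdiff.1 h1).2 hvA
    · obtain ⟨C, hC, hvC⟩ := mem_biUnion.1 h1
      exact h.notMem (mem_sdiff.1 hC).1 (hA hvA) hvC
  have hsepMN : Sep B M N := by
    rintro i ⟨x, hx⟩ ⟨y, hy⟩
    rw [mem_inter] at hx hy
    obtain ⟨D, hD, hyD⟩ := mem_biUnion.1 hy.2
    have hyD' : y ∈ D := hyD
    rcases mem_union.1 hx.2 with h1 | h1
    · have h2 := (mem_FA.1 hD).2 x (mem_sdiff.1 h1).1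
        ⟨i, mem_Ez.2 ⟨hx.1, y, mem_inter.2 ⟨hy.1, hyD'⟩⟩⟩
      exact (mem_sdiff.1 h1).2 h2
    · obtain ⟨C, hC, hxC⟩ := mem_biUnion.1 h1
      have hCD : C ≠ D := by
        rintro rfl
        exact (mem_sdiff.1 hC).2 hD
      exact (h.sep C (mem_sdiff.1 hC).1 D (hLF hD) hCD).2 i ⟨x, mem_inter.2 ⟨hx.1, hxC⟩⟩
        ⟨y, mem_inter.2 ⟨hy.1, hyD'⟩⟩
  have hMN : Disjoint M N := by
    rw [disjoint_left]
    intro v hv hvN
    obtain ⟨i, hi⟩ := h.cov v (hMQ hv)
    exact hsepMN i ⟨v, mem_inter.2 ⟨hi, hv⟩⟩ ⟨v, mem_inter.2 ⟨hi, hvN⟩⟩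
  have hQ : Q = (M ∪ N) ∪ A := by
    ext v
    constructor
    · intro hv
      by_cases hvZ : v ∈ Z
      · by_cases hvA : v ∈ A
        · exact mem_union_right _ hvA
        · exact mem_union_left _ (mem_union_left _ (mem_union_left _ (mem_sdiff.2 ⟨hvZ, hvA⟩)))
      · have h1 : v ∈ F.biUnion id := by
          rw [h.un]
          exact mem_sdiff.2 ⟨hv, hvZ⟩
        obtain ⟨C, hC, hvC⟩ := mem_biUnion.1 h1
        by_cases hCL : C ∈ L
        · exact mem_union_left _ (mem_union_right _ (mem_biUnion.2 ⟨C, hCL, hvC⟩))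
        · exact mem_union_left _ (mem_union_left _ (mem_union_right _
            (mem_biUnion.2 ⟨C, mem_sdiff.2 ⟨hC, hCL⟩, hvC⟩)))
    · intro hv
      rcases mem_union.1 hv with h1 | h1
      · rcases mem_union.1 h1 with h2 | h2
        · exact hMQ h2
        · exact hNQ h2
      · exact hAQ h1
  have hNA : Disjoint N A := by
    rw [disjoint_left]
    intro v hv hvA
    exact hNZ v hv (hA hvA)
  have hcard : Q.card = M.card + N.card + A.card := by
    conv_lhs => rw [hQ]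
    rw [card_union_of_disjoint, card_union_of_disjoint hMN]
    exact disjoint_union_left.2 ⟨hMA, hNA⟩
  have hApos := card_pos.2 hne
  have hPM := h.ih Q.card ι B M (by omega) (h.reg.mono hMQ) (h.tr.mono hMQ)
    (h.conn_M hAZ) (h.kf.mono hMQ)
  have hcovL : ∀ C ∈ L, Cov B C := fun C hC => (h.cp (hLF hC)).cov
  have hPN : Pv B N = ∑ C ∈ L, Pv B C := Pv_biUnion hcovL (h.sep.mono hLF)
  have hrN : rho B N = ∑ C ∈ L, rho B C := rho_biUnion hcovL (h.sep.mono hLF)
  have hPN2 : -(L.card : ℤ) ≤ Pv B N - 2 * (ee B Q N : ℤ) := by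
    have h6 : ∑ C ∈ L, (-1 : ℤ) ≤ ∑ C ∈ L, dv B Q C :=
      sum_le_sum fun C hC => (h.cp (hLF hC)).d_ge
    rw [sum_const, nsmul_eq_mul] at h6
    have h7 : (ee B Q N : ℤ) = ∑ C ∈ L, (ee B Q C : ℤ) := by
      rw [hN, ee_biUnion (h.sep.mono hLF)]
      push_cast
      rfl
    have h8 : ∑ C ∈ L, dv B Q C = ∑ C ∈ L, Pv B C - 2 * ∑ C ∈ L, (ee B Q C : ℤ) := by
      unfold dv
      rw [sum_sub_distrib, ← mul_sum]
    rw [hPN, h7]
    linarith
  have hLc : L.card ≤ 4 * A.card := by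
    refine h.card_att hA hLF fun C hC => ?_
    obtain ⟨z, hz, hzE⟩ := h.att (hLF hC)
    exact ⟨z, (mem_FA.1 hC).2 z hz hzE, hzE⟩
  have hMN' : M ∪ N = Q \ A := by
    rw [hQ, union_sdiff_right, sdiff_eq_self_of_disjoint]
    exact disjoint_union_left.2 ⟨hMA, hNA⟩
  have hcm : cm B M + cm B N + (ins B Q A).card = cm B Q := by
    rw [← cm_add hsepMN, hMN', ← cm_sdiff]
  have hee : ee B Q Q = ee B Q M + ee B Q N + ee B Q A := by
    rw [← ee_union hMN, hMN', ← ee_union sdiff_disjoint, sdiff_union_of_subset hAQ]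
  have heM : ee B Q M ≤ ee B M M := ee_le_ee (Subset.refl _) hMQ
  have heA := two_ee_le' (B := B) Q A
  have hcovM : Cov B M := h.cov.mono hMQ
  have hrho : rho B Q ≤ rho B M + rho B N := by
    obtain ⟨T', hT', hTc'⟩ := exists_cover hcovM
    rw [hrN, ← hTc']
    refine (Hyp6.rho_le (T := T' ∪ T) ?_).trans
      ((card_union_le _ _).trans (Nat.add_le_add_left hTc _))
    rw [hQ, union_biUnion, union_assoc]
    exact union_subset_union hT' hT
  have e1 := Hyp6.Pv_eq (B := B) Q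
  have e2 := Hyp6.Pv_eq (B := B) M
  have e3 := Hyp6.Pv_eq (B := B) N
  have h1 := h.neg
  unfold dv at h1
  have c1 : (Q.card : ℤ) = M.card + N.card + A.card := by exact_mod_cast hcard
  have c2 : (cm B M : ℤ) + cm B N + (ins B Q A).card = cm B Q := by exact_mod_cast hcm
  have c6 : (ee B Q Q : ℤ) = ee B Q M + ee B Q N + ee B Q A := by exact_mod_cast hee
  have c7 : (ee B Q M : ℤ) ≤ ee B M M := by exact_mod_cast heM
  have c8 : 2 * (ee B Q A : ℤ) ≤ (ins B Q A).card := by exact_mod_cast heA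
  have c3 : (rho B Q : ℤ) ≤ rho B M + rho B N := by exact_mod_cast hrho
  have c4 : (L.card : ℤ) ≤ 4 * A.card := by exact_mod_cast hLc
  have c5 : (1 : ℤ) ≤ A.card := by exact_mod_cast hApos
  linarith

/-- (H): fewer than `|A|` good components are attached only inside `A`. -/
theorem Cu.good_lt (h : Cu B Q Z F i0) : ∀ {A : Finset V}, A ⊆ Z → A.Nonempty →
    ((FA B Z F A).filter (fun C => dv B Q C ≤ 3)).card < A.card := by
  classical
  intro A
  induction A using Finset.strongInduction with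
  | H A ihA =>
    intro hA hne
    by_contra hcon
    push Not at hcon
    set t : {z // z ∈ A} → Finset (Finset V) := fun z =>
      ((FA B Z F A).filter (fun C => dv B Q C ≤ 3)).filter (fun C => (Ez B C z.1).Nonempty) with ht
    have hall : ∀ s : Finset {z // z ∈ A}, s.card ≤ (s.biUnion t).card := by
      intro s
      rcases s.eq_empty_or_nonempty with rfl | hs
      · simp
      set S : Finset V := s.map (Function.Embedding.subtype _) with hS
      have hSc : S.card = s.card := card_map _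
      have hSA : S ⊆ A := by
        intro v hv
        rw [hS, mem_map] at hv
        obtain ⟨w, _, rfl⟩ := hv
        exact w.2
      have hSne : S.Nonempty := by
        rw [← card_pos, hSc]
        exact card_pos.2 hs
      have h1 : (FA B Z F A).filter (fun C => dv B Q C ≤ 3) ⊆
          s.biUnion t ∪ (FA B Z F (A \ S)).filter (fun C => dv B Q C ≤ 3) := by
        intro C hC
        rw [mem_filter, mem_FA] at hC
        by_cases h2 : ∃ z ∈ S, (Ez B C z).Nonempty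
        · obtain ⟨z, hz, hzE⟩ := h2
          rw [hS, mem_map] at hz
          obtain ⟨w, hw, rfl⟩ := hz
          refine mem_union_left _ (mem_biUnion.2 ⟨w, hw, ?_⟩)
          rw [ht]
          simp only [mem_filter, mem_FA]
          exact ⟨hC, hzE⟩
        · push Not at h2
          refine mem_union_right _ ?_
          rw [mem_filter, mem_FA]
          refine ⟨⟨hC.1.1, fun z hz hzE => mem_sdiff.2 ⟨hC.1.2 z hz hzE, fun hzS => ?_⟩⟩, hC.2⟩
          rw [h2 z hzS] at hzE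
          exact absurd hzE (by simp)
      have h2 := (card_le_card h1).trans (card_union_le _ _)
      have h3 := card_sdiff_add_card_eq_card hSA
      rcases (A \ S).eq_empty_or_nonempty with h4 | h4
      · have h5 : (FA B Z F (A \ S)).filter (fun C => dv B Q C ≤ 3) = ∅ := by
          rw [filter_eq_empty_iff]
          intro C hC
          exfalso
          rw [mem_FA] at hC
          obtain ⟨z, hz, hzE⟩ := h.att hC.1
          have := hC.2 z hz hzE
          rw [h4] at this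
          exact absurd this (notMem_empty _)
        rw [h5, card_empty] at h2
        rw [h4, card_empty] at h3
        omega
      · have h5 : A \ S ⊂ A := by
          refine ⟨sdiff_subset, fun hcon2 => ?_⟩
          obtain ⟨z, hz⟩ := hSne
          exact (mem_sdiff.1 (hcon2 (hSA hz))).2 hz
        have h6 := ihA (A \ S) h5 (sdiff_subset.trans hA) h4
        omega
    obtain ⟨f, hf1, hf2⟩ := (all_card_le_biUnion_card_iff_exists_injective t).1 hall
    refine h.not_JA hA hne (JA_of (fun C => A.filter (fun z => ∃ hz : z ∈ A, f ⟨z, hz⟩ = C)) ?_ ?_)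
    · intro C hC
      rcases (A.filter (fun z => ∃ hz : z ∈ A, f ⟨z, hz⟩ = C)).eq_empty_or_nonempty with h1 | h1
      · rw [h1]
        exact Abz.empty (h.cp (mem_FA.1 hC).1).cov
      · obtain ⟨z, hz⟩ := h1
        obtain ⟨hzA, _, hfz⟩ := mem_filter.1 hz
        have h2 : A.filter (fun z => ∃ hz : z ∈ A, f ⟨z, hz⟩ = C) ⊆ {z} := by
          intro y hy
          obtain ⟨hyA, _, hfy⟩ := mem_filter.1 hy
          rw [mem_singleton]
          have := hf1 (hfy.trans hfz.symm)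
          exact congrArg Subtype.val this
        have h3 := hf2 ⟨z, hzA⟩
        rw [hfz, ht] at h3
        simp only [mem_filter, mem_FA] at h3
        exact ((h.cp h3.1.1.1).pt1 h3.1.2 (h.ZQ (hA hzA)) (h.notMem h3.1.1.1 (hA hzA)) h3.2).mono h2
    · intro z hz
      refine mem_biUnion.2 ⟨f ⟨z, hz⟩, ?_, mem_filter.2 ⟨hz, hz, rfl⟩⟩
      have h3 := hf2 ⟨z, hz⟩
      rw [ht] at h3
      simp only [mem_filter] at h3
      exact h3.1.1


theorem Cu.ee_part (h : Cu B Q Z F i0) {C : Finset V} (hC : C ∈ F) : ee B Q C = 0 := by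
  have h1 := h.ee_split
  rw [h.ee0] at h1
  have h2 : ee B Q C ≤ ∑ C ∈ F, ee B Q C :=
    single_le_sum (f := fun C => ee B Q C) (fun _ _ => Nat.zero_le _) hC
  omega

theorem Cu.dv_part (h : Cu B Q Z F i0) {C : Finset V} (hC : C ∈ F) : dv B Q C = Pv B C := by
  unfold dv
  rw [h.ee_part hC]
  norm_num

theorem Cu.sum_sv (h : Cu B Q Z F i0) : sv B Q = ∑ C ∈ F, sv B C + 2 := by
  have h1 : ∑ C ∈ F, sv B C = sv B (Q \ Z) := by
    rw [← h.un]
    exact (sv_biUnion (fun C hC => (h.cp hC).cov) h.sep).symm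
  rw [h1]
  have h2 := card_sdiff_add_card_eq_card h.ZQ
  rw [h.cZ] at h2
  have h3 := h.rho_eq
  unfold sv
  have c2 : ((Q \ Z).card : ℤ) + 4 = Q.card := by exact_mod_cast h2
  have c3 : (rho B Q : ℤ) = rho B (Q \ Z) + 1 := by exact_mod_cast h3
  linarith

/-- the parity of the value. -/
theorem Pv_parity (W : Finset V) : ∃ k : ℤ, Pv B W = sv B W + 2 * k := by
  rw [Hyp6.Pv_eq]
  unfold sv
  exact ⟨2 * W.card + 2 * cm B W - 11 * rho B W, by ring⟩

/-- a part of value `-1` has `sv ≤ -1`. -/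
theorem Cu.sv_neg (h : Cu B Q Z F i0) {C : Finset V} (hC : C ∈ F) (hP : Pv B C = -1) :
    sv B C ≤ -1 := by
  have h1 := h.cp hC
  by_contra hcon
  obtain ⟨k, hk⟩ := Pv_parity (B := B) C
  have h2 := h.ihp ι B C (by have := h1.card; omega) (h1.reg.mono h1.sub) (h1.tr.mono h1.sub)
    h1.conn (h1.kf.mono h1.sub) (by omega)
  omega

/-- one inner block, at most three components, the sum of the values is `-1`. -/
theorem Cu.summary (h : Cu B Q Z F i0) : (ins B Q Z).card = 1 ∧ F.card ≤ 3 ∧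
    ∑ C ∈ F, Pv B C = -1 := by
  classical
  have h1 := h.good_lt (Subset.refl Z) (card_pos.1 (by rw [h.cZ]; norm_num))
  have hFA : FA B Z F Z = F := by
    ext C
    rw [mem_FA]
    exact ⟨fun h => h.1, fun h => ⟨h, fun z hz _ => hz⟩⟩
  rw [hFA, h.cZ] at h1
  have h2 := sum_filter_add_sum_filter_not F (fun C => dv B Q C ≤ 3) (fun C => dv B Q C)
  have h3 : ∑ C ∈ F.filter (fun C => dv B Q C ≤ 3), (-1 : ℤ) ≤
      ∑ C ∈ F.filter (fun C => dv B Q C ≤ 3), dv B Q C :=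
    sum_le_sum fun C hC => (h.cp (mem_filter.1 hC).1).d_ge
  have h4 : ∑ C ∈ F.filter (fun C => ¬ dv B Q C ≤ 3), (4 : ℤ) ≤
      ∑ C ∈ F.filter (fun C => ¬ dv B Q C ≤ 3), dv B Q C := by
    refine sum_le_sum fun C hC => ?_
    have := (mem_filter.1 hC).2
    omega
  rw [sum_const, nsmul_eq_mul] at h3 h4
  have hdP : ∑ C ∈ F, dv B Q C = ∑ C ∈ F, Pv B C := sum_congr rfl fun C hC => h.dv_part hC
  have hQ : Pv B Q = ∑ C ∈ F, Pv B C + 4 * ((ins B Q Z).card : ℤ) - 4 := by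
    have h4 := Pv_sdiff (B := B) h.ZQ
    rw [h.rho_eq, h.cZ, h.sum_Pv] at h4
    push_cast at h4
    linarith
  rw [h.val] at hQ
  have h7 : 0 < (ins B Q Z).card := card_pos.2 ⟨i0, h.i0_ins⟩
  have c1 : ((F.filter (fun C => dv B Q C ≤ 3)).card : ℤ) ≤ 3 := by
    exact_mod_cast (by omega : (F.filter (fun C => dv B Q C ≤ 3)).card ≤ 3)
  have c2 : (1 : ℤ) ≤ (ins B Q Z).card := by exact_mod_cast h7
  have h8 : (F.filter (fun C => ¬ dv B Q C ≤ 3)).card = 0 := by
    by_contra hcon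
    have c3 : (1 : ℤ) ≤ (F.filter (fun C => ¬ dv B Q C ≤ 3)).card := by
      exact_mod_cast (by omega : 1 ≤ (F.filter (fun C => ¬ dv B Q C ≤ 3)).card)
    linarith
  have h9 : (ins B Q Z).card = 1 := by
    by_contra hcon
    have c3 : (2 : ℤ) ≤ (ins B Q Z).card := by
      exact_mod_cast (by omega : 2 ≤ (ins B Q Z).card)
    have c4 : (0 : ℤ) ≤ (F.filter (fun C => ¬ dv B Q C ≤ 3)).card := by positivity
    linarith
  have h10 : F.filter (fun C => dv B Q C ≤ 3) = F := by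
    rw [filter_eq_self]
    intro C hC
    by_contra hcon
    have : C ∈ F.filter (fun C => ¬ dv B Q C ≤ 3) := mem_filter.2 ⟨hC, hcon⟩
    rw [card_eq_zero] at h8
    rw [h8] at this
    exact absurd this (notMem_empty _)
  rw [h10] at h1
  refine ⟨h9, by omega, ?_⟩
  rw [h9] at hQ
  push_cast at hQ
  linarith

theorem Cu.P_ge (h : Cu B Q Z F i0) {C : Finset V} (hC : C ∈ F) : -1 ≤ Pv B C := by
  rw [← h.dv_part hC]
  exact (h.cp hC).d_ge

/-- every part has `Pv ≤ 0`, or `Pv = 1` and `sv ≥ 1`. -/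
theorem Cu.P_le (h : Cu B Q Z F i0) {C : Finset V} (hC : C ∈ F) :
    Pv B C ≤ 0 ∨ (Pv B C = 1 ∧ 1 ≤ sv B C) := by
  classical
  obtain ⟨_, h3, hs⟩ := h.summary
  have h12 := add_sum_erase F (fun C => Pv B C) hC
  have h13 : ∑ D ∈ F.erase C, (-1 : ℤ) ≤ ∑ D ∈ F.erase C, Pv B D :=
    sum_le_sum fun D hD => h.P_ge (mem_of_mem_erase hD)
  rw [sum_const, nsmul_eq_mul] at h13
  have h14 := card_erase_add_one hC
  have c3 : ((F.erase C).card : ℤ) + 1 = F.card := by exact_mod_cast h14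
  have c4 : (F.card : ℤ) ≤ 3 := by exact_mod_cast h3

  by_cases h0 : Pv B C ≤ 0
  · exact Or.inl h0
  · right
    have h1 : Pv B C = 1 := by linarith [show (1 : ℤ) ≤ Pv B C by omega]
    refine ⟨h1, ?_⟩
    have h5 : ∀ D ∈ F.erase C, Pv B D = -1 := by
      intro D hD
      by_contra hcon
      have h6 : 0 ≤ Pv B D := by
        have := h.P_ge (mem_of_mem_erase hD)
        omega
      have h7 := add_sum_erase (F.erase C) (fun C => Pv B C) hD
      have h8 : ∑ D' ∈ (F.erase C).erase D, (-1 : ℤ) ≤ ∑ D' ∈ (F.erase C).erase D, Pv B D' :=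
        sum_le_sum fun D' hD' => h.P_ge (mem_of_mem_erase (mem_of_mem_erase hD'))
      rw [sum_const, nsmul_eq_mul] at h8
      have h9 := card_erase_add_one hD
      have c5 : (((F.erase C).erase D).card : ℤ) + 1 = (F.erase C).card := by exact_mod_cast h9

      linarith
    have h6 : ∑ D ∈ F.erase C, sv B D ≤ ∑ D ∈ F.erase C, (-1 : ℤ) :=
      sum_le_sum fun D hD => h.sv_neg (mem_of_mem_erase hD) (h5 D hD)
    rw [sum_const, nsmul_eq_mul] at h6
    have h7 := add_sum_erase F (fun C => sv B C) hC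
    have h8 := h.sum_sv
    have h9 := h.sv1
    have h10 : ∑ D ∈ F.erase C, Pv B D = ∑ D ∈ F.erase C, (-1 : ℤ) :=
      sum_congr rfl h5
    rw [sum_const, nsmul_eq_mul] at h10

    linarith

end Pool.Agent.Hyp6
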