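import Pool.Agent.Hyp6.QTa

/-!
# HYP6 QTB: T0++, closings with value `sv ≥ 1`, three components
-/

set_option autoImplicit false

namespace Pool.Agent.Hyp6

open Finset Pool.Agent.Hyp5

universe u v

variable {V : Type v} [DecidableEq V] {ι : Type u} [Fintype ι] {B : ι → Finset V}
variable {Q Z : Finset V} {F : Finset (Finset V)} {i0 : ι}

theorem Cu.final (h : Cu B Q Z F i0) (f : Finset V → Finset V) (hf : ∀ C ∈ F, Abz B C (f C))
    (hZ : Z ⊆ F.biUnion f) : False := h.not_JA_Z (JA_of f hf hZ)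

theorem Cu.assign3 (h : Cu B Q Z F i0) {I J K : Finset V} (hF : F = {I, J, K}) (hIJ : I ≠ J)
    (hIK : I ≠ K) (hJK : J ≠ K) {SI SJ SK : Finset V} (hI : Abz B I SI) (hJ : Abz B J SJ)
    (hK : Abz B K SK) (hZ : ∀ z ∈ Z, z ∈ SI ∨ z ∈ SJ ∨ z ∈ SK) : False := by
  classical
  obtain ⟨f, h1, h2, h3⟩ : ∃ f : Finset V → Finset V, f I = SI ∧ f J = SJ ∧ f K = SK :=
    ⟨fun C => if C = I then SI else if C = J then SJ else SK, if_pos rfl, by simp [hIJ.symm],
      by simp [hIK.symm, hJK.symm]⟩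
  refine h.final f ?_ ?_
  · intro C hC
    rw [hF, mem_insert, mem_insert, mem_singleton] at hC
    rcases hC with rfl | rfl | rfl
    · rw [h1]
      exact hI
    · rw [h2]
      exact hJ
    · rw [h3]
      exact hK
  · intro z hz
    rw [mem_biUnion, hF]
    rcases hZ z hz with h4 | h4 | h4
    · exact ⟨I, by simp, by rw [h1]; exact h4⟩
    · exact ⟨J, by simp, by rw [h2]; exact h4⟩
    · exact ⟨K, by simp, by rw [h3]; exact h4⟩

theorem Cu.assign2 (h : Cu B Q Z F i0) {I J : Finset V} (hF : F = {I, J}) (hIJ : I ≠ J)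
    {SI SJ : Finset V} (hI : Abz B I SI) (hJ : Abz B J SJ)
    (hZ : ∀ z ∈ Z, z ∈ SI ∨ z ∈ SJ) : False := by
  classical
  obtain ⟨f, h1, h2⟩ : ∃ f : Finset V → Finset V, f I = SI ∧ f J = SJ :=
    ⟨fun C => if C = I then SI else SJ, if_pos rfl, by simp [hIJ.symm]⟩
  refine h.final f ?_ ?_
  · intro C hC
    rw [hF, mem_insert, mem_singleton] at hC
    rcases hC with rfl | rfl
    · rw [h1]
      exact hI
    · rw [h2]
      exact hJ
  · intro z hz
    rw [mem_biUnion, hF]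
    rcases hZ z hz with h4 | h4
    · exact ⟨I, by simp, by rw [h1]; exact h4⟩
    · exact ⟨J, by simp, by rw [h2]; exact h4⟩

theorem Cu.FA_Z (_h : Cu B Q Z F i0) : FA B Z F Z = F := by
  ext C
  rw [mem_FA]
  exact ⟨fun h => h.1, fun h => ⟨h, fun z hz _ => hz⟩⟩

/-- absorption for parts for which a refusal would give a smaller set with `sv ≥ 1`. -/
theorem AbsD.absorbP {κ : Type} [Fintype κ] {C Y : Finset V} {E : V → Finset ι} {N : κ → Finset V}
    {n : ℕ} (ih : ∀ n, IH4.{u} V n) (ihp : IHP.{u} V n) (h : AbsD B C Y E N) (hr : Reg B C)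
    (hC : Conn (gr B) C) (hk : KFree B C) (hn : C.card + Y.card < n)
    (hP : Pv B C + 5 * (Y.card : ℤ) + 4 * (Fintype.card κ : ℤ) ≤ 23)
    (hs : 3 ≤ sv B C + Y.card) :
    ∃ T : Finset ι, C ⊆ T.biUnion B ∧ T.card ≤ rho B C ∧ ∀ y ∈ Y, ∃ i ∈ T, i ∈ E y := by
  classical
  by_contra hcon
  push Not at hcon
  have hreg := h.reg hr
  have h1 : rho B C + 1 ≤ rho (absG B C Y E N) (C ∪ Y) := by
    refine h.rho_ge (cov_of_reg hreg) fun T K hT hK => ?_
    have h2 := rho_le hT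
    rcases K.eq_empty_or_nonempty with rfl | hKne
    · by_contra h3
      have h4 : T.card ≤ rho B C := by
        rw [card_empty] at h3
        omega
      obtain ⟨y, hy, h5⟩ := hcon T hT h4
      rcases hK y hy with ⟨i, hi, hiE⟩ | ⟨c, hc, _⟩
      · exact h5 i hi hiE
      · exact absurd hc (notMem_empty _)
    · have := card_pos.2 hKne
      omega
  have h3 : ((rho B C : ℕ) : ℤ) + 1 ≤ rho (absG B C Y E N) (C ∪ Y) := by exact_mod_cast h1
  have hcard := card_union_of_disjoint h.dis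
  have hPe := h.Pv_eq
  have h2 := ih n (ι ⊕ κ) (absG B C Y E N) (C ∪ Y)
    (by rw [hcard]; exact hn) hreg h.tr4 (h.conn hC) (h.kfree hr hk)
  rw [hPe] at h2
  have h4 : ((rho (absG B C Y E N) (C ∪ Y) : ℕ) : ℤ) = rho B C + 1 := by
    have h5 : (0 : ℤ) ≤ ee (absG B C Y E N) (C ∪ Y) (C ∪ Y) := by positivity
    omega
  have h6 := ihp (ι ⊕ κ) (absG B C Y E N) (C ∪ Y)
    (by rw [hcard]; exact hn) hreg h.tr4 (h.conn hC) (h.kfree hr hk) (by
      unfold sv at hs ⊢
      rw [hcard, h4]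
      push_cast
      linarith)
  rw [hPe, h4] at h6
  linarith

open Classical in
/-- two points with two blocks each, `Pv ≤ 1` and `sv ≥ 1`. -/
theorem absorb2P {n : ℕ} (ih : ∀ n, IH4.{u} V n) (ihp : IHP.{u} V n) {C : Finset V}
    (hr : Reg B C) (hC : Conn (gr B) C) (hk : KFree B C) {w1 w2 : V} (hw1 : w1 ∉ C) (hw2 : w2 ∉ C)
    (h12 : w1 ≠ w2) (hn : C.card + 2 < n) {E : V → Finset ι}
    (hm : ∀ y ∈ ({w1, w2} : Finset V), ∀ i ∈ E y, (B i ∩ C).Nonempty)
    (hE1 : (E w1).card = 2) (hE2 : (E w2).card = 2)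
    (hs : ∀ i, (B i ∩ C).card +
      (({w1, w2} : Finset V).filter (fun y => i ∈ E y)).card ≤ 4) (hP : Pv B C ≤ 1)
    (hsv : 1 ≤ sv B C) :
    ∃ T : Finset ι, C ⊆ T.biUnion B ∧ T.card ≤ rho B C ∧
      ∀ y ∈ ({w1, w2} : Finset V), ∃ i ∈ T, i ∈ E y := by
  classical
  have hE : ∀ y ∈ ({w1, w2} : Finset V), (E y).card = 2 := by
    intro y hy
    rw [mem_insert, mem_singleton] at hy
    rcases hy with rfl | rfl
    · exact hE1
    · exact hE2
  have h : AbsD B C {w1, w2} E (fun _ : Fin 3 => ({w1, w2} : Finset V)) := by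
    refine ⟨?_, hm, ?_, ?_, ?_, ?_, ?_, ?_, ?_⟩
    · rw [disjoint_right]
      intro y hy
      rw [mem_insert, mem_singleton] at hy
      rcases hy with rfl | rfl
      · exact hw1
      · exact hw2
    · intro y hy
      rw [← card_pos, hE y hy]
      norm_num
    · intro c
      exact Subset.refl _
    · intro c
      exact insert_nonempty _ _
    · intro y hy
      rw [hE y hy]
      have h5 : (univ.filter (fun _ : Fin 3 => y ∈ ({w1, w2} : Finset V))) = univ := by
        ext c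
        rw [mem_filter]
        exact ⟨fun h => h.1, fun h => ⟨h, hy⟩⟩
      rw [h5, card_univ, Fintype.card_fin]
    · intro j
      convert hs j using 3
    · intro c
      exact card_le_two.trans (by norm_num)
    · intro S hS hne
      refine Or.inl ⟨0, ?_, ?_⟩
      · rw [inter_eq_right.2 hS]
        exact hne
      · exact (card_le_card inter_subset_left).trans card_le_two
  refine h.absorbP ih ihp hr hC hk ?_ ?_ ?_
  · rw [card_pair h12]
    exact hn
  · rw [card_pair h12, Fintype.card_fin]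
    push_cast
    linarith
  · rw [card_pair h12]
    push_cast
    linarith

open Classical in
/-- three points with four, three and three blocks, `Pv ≤ 0` and `sv ≥ 0`. -/
theorem absorb3P {n : ℕ} (ih : ∀ n, IH4.{u} V n) (ihp : IHP.{u} V n) {C : Finset V}
    (hr : Reg B C) (hC : Conn (gr B) C) (hk : KFree B C) {w1 w2 w3 : V} (hw1 : w1 ∉ C)
    (hw2 : w2 ∉ C) (hw3 : w3 ∉ C) (h12 : w1 ≠ w2)
    (h13 : w1 ≠ w3) (h23 : w2 ≠ w3) (hn : C.card + 3 < n) {E : V → Finset ι}
    (hm : ∀ y ∈ ({w1, w2, w3} : Finset V), ∀ i ∈ E y, (B i ∩ C).Nonempty)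
    (hE1 : (E w1).card = 4) (hE2 : (E w2).card = 3) (hE3 : (E w3).card = 3)
    (hs : ∀ i, (B i ∩ C).card +
      (({w1, w2, w3} : Finset V).filter (fun y => i ∈ E y)).card ≤ 4) (hP : Pv B C ≤ 0)
    (hsv : 0 ≤ sv B C) :
    ∃ T : Finset ι, C ⊆ T.biUnion B ∧ T.card ≤ rho B C ∧
      ∀ y ∈ ({w1, w2, w3} : Finset V), ∃ i ∈ T, i ∈ E y := by
  classical
  have hc3 : ({w1, w2, w3} : Finset V).card = 3 := card_eq_three.2 ⟨w1, w2, w3, h12, h13, h23, rfl⟩
  have h : AbsD B C {w1, w2, w3} E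
      (fun c : Fin 2 => if c = 0 then ({w1, w2, w3} : Finset V) else {w2, w3}) := by
    refine ⟨?_, hm, ?_, ?_, ?_, ?_, ?_, ?_, ?_⟩
    · rw [disjoint_right]
      intro y hy
      rw [mem_insert, mem_insert, mem_singleton] at hy
      rcases hy with rfl | rfl | rfl
      · exact hw1
      · exact hw2
      · exact hw3
    · intro y hy
      rw [mem_insert, mem_insert, mem_singleton] at hy
      rw [← card_pos]
      rcases hy with rfl | rfl | rfl
      · omega
      · omega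
      · omega
    · intro c
      split_ifs
      · exact Subset.refl _
      · exact subset_insert _ _
    · intro c
      split_ifs
      · exact insert_nonempty _ _
      · exact insert_nonempty _ _
    · intro y hy
      rw [mem_insert, mem_insert, mem_singleton] at hy
      have h5 : (univ.filter (fun c : Fin 2 =>
          y ∈ (if c = 0 then ({w1, w2, w3} : Finset V) else {w2, w3}))).card =
          (if y ∈ ({w1, w2, w3} : Finset V) then 1 else 0) +
            (if y ∈ ({w2, w3} : Finset V) then 1 else 0) := by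
        rw [card_filter, Fin.sum_univ_two]
        simp
      rw [h5]
      rcases hy with rfl | rfl | rfl
      · rw [hE1, if_pos (by simp), if_neg (by simp [h12, h13])]
      · rw [hE2, if_pos (by simp), if_pos (by simp)]
      · rw [hE3, if_pos (by simp), if_pos (by simp)]
    · intro j
      convert hs j using 3
    · intro c
      split_ifs
      · rw [hc3]
        norm_num
      · exact card_le_two.trans (by norm_num)
    · intro S hS hne
      by_cases h5 : (({w2, w3} : Finset V) ∩ S).Nonempty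
      · refine Or.inl ⟨1, ?_, ?_⟩
        · simpa using h5
        · simp only [one_ne_zero, if_false]
          exact (card_le_card inter_subset_left).trans card_le_two
      · rw [not_nonempty_iff_eq_empty] at h5
        refine Or.inl ⟨0, ?_, ?_⟩
        · simp only [if_true]
          rw [inter_eq_right.2 hS]
          exact hne
        · simp only [if_true]
          rw [inter_eq_right.2 hS]
          have h6 : S ⊆ {w1} := by
            intro v hv
            have h7 := hS hv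
            rw [mem_insert] at h7
            rcases h7 with h7 | h7
            · rw [h7]
              exact mem_singleton_self _
            · have : v ∈ ({w2, w3} : Finset V) ∩ S := mem_inter.2 ⟨h7, hv⟩
              rw [h5] at this
              exact absurd this (notMem_empty _)
          exact (card_le_card h6).trans (by simp)
  refine h.absorbP ih ihp hr hC hk ?_ ?_ ?_
  · rw [hc3]
    exact hn
  · rw [hc3, Fintype.card_fin]
    push_cast
    linarith
  · rw [hc3]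
    push_cast
    linarith

theorem Cp.pt2P {C : Finset V} (h : Cp B Q C) (ih : ∀ n, IH4.{u} V n) (ihp : IHP.{u} V Q.card)
    (hP : Pv B C ≤ 1) (hsv : 1 ≤ sv B C) {z1 z2 : V} (h1Q : z1 ∈ Q) (h1 : z1 ∉ C)
    (h2Q : z2 ∈ Q) (h2 : z2 ∉ C) (h12 : z1 ≠ z2) (hE1 : 2 ≤ (Ez B C z1).card)
    (hE2 : 2 ≤ (Ez B C z2).card) : Abz B C {z1, z2} := by
  classical
  obtain ⟨S1, hS1, hc1⟩ := exists_subset_card_eq hE1
  obtain ⟨S2, hS2, hc2⟩ := exists_subset_card_eq hE2
  obtain ⟨E, hi1, hi2⟩ : ∃ E : V → Finset ι, E z1 = S1 ∧ E z2 = S2 :=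
    ⟨fun y => if y = z1 then S1 else S2, if_pos rfl, if_neg (fun h => h12 h.symm)⟩
  have hsub : ∀ y ∈ ({z1, z2} : Finset V), E y ⊆ Ez B C y := by
    intro y hy
    rw [mem_insert, mem_singleton] at hy
    rcases hy with rfl | rfl
    · rw [hi1]
      exact hS1
    · rw [hi2]
      exact hS2
  have hY : ({z1, z2} : Finset V) ⊆ Q := by
    intro y hy
    rw [mem_insert, mem_singleton] at hy
    rcases hy with rfl | rfl
    · exact h1Q
    · exact h2Q
  have hYC : Disjoint C {z1, z2} := by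
    rw [disjoint_right]
    intro y hy
    rw [mem_insert, mem_singleton] at hy
    rcases hy with rfl | rfl
    · exact h1
    · exact h2
  obtain ⟨T, hT1, hT2, hT3⟩ := absorb2P ih ihp (h.reg.mono h.sub) h.conn (h.kf.mono h.sub)
    h1 h2 h12 (by have := h.card; omega) (fun y hy i hiE => (mem_Ez.1 (hsub y hy hiE)).2)
    (by rw [hi1]; exact hc1) (by rw [hi2]; exact hc2) (fun i => h.size' hY hYC hsub i) hP hsv
  refine ⟨T, union_subset hT1 fun y hy => ?_, hT2⟩
  obtain ⟨i, hiT, hiE⟩ := hT3 y hy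
  exact mem_biUnion.2 ⟨i, hiT, (mem_Ez.1 (hsub y hy hiE)).1⟩

theorem Cp.pt3P {C : Finset V} (h : Cp B Q C) (ih : ∀ n, IH4.{u} V n) (ihp : IHP.{u} V Q.card)
    (hP : Pv B C ≤ 0) (hsv : 0 ≤ sv B C) {z1 z2 z3 : V} (h1Q : z1 ∈ Q) (h1 : z1 ∉ C)
    (h2Q : z2 ∈ Q) (h2 : z2 ∉ C) (h3Q : z3 ∈ Q) (h3 : z3 ∉ C) (h12 : z1 ≠ z2) (h13 : z1 ≠ z3)
    (h23 : z2 ≠ z3) (hE1 : 4 ≤ (Ez B C z1).card)
    (hE2 : 3 ≤ (Ez B C z2).card) (hE3 : 3 ≤ (Ez B C z3).card) : Abz B C {z1, z2, z3} := by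
  classical
  obtain ⟨S1, hS1, hc1⟩ := exists_subset_card_eq hE1
  obtain ⟨S2, hS2, hc2⟩ := exists_subset_card_eq hE2
  obtain ⟨S3, hS3, hc3⟩ := exists_subset_card_eq hE3
  obtain ⟨E, hi1, hi2, hi3⟩ : ∃ E : V → Finset ι, E z1 = S1 ∧ E z2 = S2 ∧ E z3 = S3 :=
    ⟨fun y => if y = z1 then S1 else if y = z2 then S2 else S3, if_pos rfl,
      by simp [h12.symm], by simp [h13.symm, h23.symm]⟩
  have hsub : ∀ y ∈ ({z1, z2, z3} : Finset V), E y ⊆ Ez B C y := by
    intro y hy
    rw [mem_insert, mem_insert, mem_singleton] at hy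
    rcases hy with rfl | rfl | rfl
    · rw [hi1]
      exact hS1
    · rw [hi2]
      exact hS2
    · rw [hi3]
      exact hS3
  have hY : ({z1, z2, z3} : Finset V) ⊆ Q := by
    intro y hy
    rw [mem_insert, mem_insert, mem_singleton] at hy
    rcases hy with rfl | rfl | rfl
    · exact h1Q
    · exact h2Q
    · exact h3Q
  have hYC : Disjoint C {z1, z2, z3} := by
    rw [disjoint_right]
    intro y hy
    rw [mem_insert, mem_insert, mem_singleton] at hy
    rcases hy with rfl | rfl | rfl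
    · exact h1
    · exact h2
    · exact h3
  obtain ⟨T, hT1, hT2, hT3⟩ := absorb3P ih ihp (h.reg.mono h.sub) h.conn (h.kf.mono h.sub)
    h1 h2 h3 h12 h13 h23 (by have := h.card; omega)
    (fun y hy i hiE => (mem_Ez.1 (hsub y hy hiE)).2)
    (by rw [hi1]; exact hc1) (by rw [hi2]; exact hc2) (by rw [hi3]; exact hc3)
    (fun i => h.size' hY hYC hsub i) hP hsv
  refine ⟨T, union_subset hT1 fun y hy => ?_, hT2⟩
  obtain ⟨i, hiT, hiE⟩ := hT3 y hy
  exact mem_biUnion.2 ⟨i, hiT, (mem_Ez.1 (hsub y hy hiE)).1⟩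

theorem Cu.dv_le3 (h : Cu B Q Z F i0) {C : Finset V} (hC : C ∈ F) : dv B Q C ≤ 3 := by
  rw [h.dv_part hC]
  rcases h.P_le hC with h1 | h1
  · linarith
  · linarith [h1.1]

theorem Cu.two_att (h : Cu B Q Z F i0) {C : Finset V} (hC : C ∈ F) {a : V} (ha : a ∈ Z) :
    ∃ x ∈ Z, x ≠ a ∧ (Ez B C x).Nonempty := by
  classical
  by_contra hcon
  push Not at hcon
  have h1 := h.good_lt (singleton_subset_iff.2 ha) (singleton_nonempty a)
  rw [card_singleton, Nat.lt_one_iff, card_eq_zero, filter_eq_empty_iff] at h1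
  refine h1 (x := C) ?_ ?_
  · rw [mem_FA]
    refine ⟨hC, fun z hz hzE => ?_⟩
    rw [mem_singleton]
    by_contra hza
    rw [hcon z hz hza] at hzE
    exact absurd hzE (by simp)
  · exact h.dv_le3 hC

theorem Cu.pair_att (h : Cu B Q Z F i0) {C D : Finset V} (hC : C ∈ F) (hD : D ∈ F) (hCD : C ≠ D)
    {a b : V} (ha : a ∈ Z) (hb : b ∈ Z) :
    ∃ x ∈ Z, x ≠ a ∧ x ≠ b ∧ ((Ez B C x).Nonempty ∨ (Ez B D x).Nonempty) := by
  classical
  by_contra hcon
  push Not at hcon
  have hsub : ({a, b} : Finset V) ⊆ Z := by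
    intro v hv
    rw [mem_insert, mem_singleton] at hv
    rcases hv with rfl | rfl
    · exact ha
    · exact hb
  have h1 := h.good_lt hsub (insert_nonempty _ _)
  have h2 : ({C, D} : Finset (Finset V)) ⊆
      (FA B Z F {a, b}).filter (fun C => dv B Q C ≤ 3) := by
    intro E hE
    rw [mem_insert, mem_singleton] at hE
    rw [mem_filter, mem_FA]
    have hEF : E ∈ F := by
      rcases hE with rfl | rfl
      · exact hC
      · exact hD
    refine ⟨⟨hEF, fun z hz hzE => ?_⟩, ?_⟩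
    · rw [mem_insert, mem_singleton]
      by_contra hza
      push Not at hza
      have h3 := hcon z hz hza.1 hza.2
      rcases hE with rfl | rfl
      · rw [h3.1] at hzE
        exact absurd hzE (by simp)
      · rw [h3.2] at hzE
        exact absurd hzE (by simp)
    · exact h.dv_le3 hEF
  have h3 := card_le_card h2
  rw [card_pair hCD] at h3
  have h4 : ({a, b} : Finset V).card ≤ 2 := card_le_two
  omega

theorem Cu.ab1 (h : Cu B Q Z F i0) {C : Finset V} (hC : C ∈ F) {z : V} (hz : z ∈ Z)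
    (he : 1 ≤ (Ez B C z).card) : Abz B C {z} :=
  (h.cp hC).pt1 (h.dv_le3 hC) (h.ZQ hz) (h.notMem hC hz)
    (card_pos.1 he)

theorem Cu.ab2 (h : Cu B Q Z F i0) {C : Finset V} (hC : C ∈ F) {z z' : V} (hz : z ∈ Z)
    (hz' : z' ∈ Z) (hne : z ≠ z') (he : 2 ≤ (Ez B C z).card) (he' : 2 ≤ (Ez B C z').card) :
    Abz B C {z, z'} := by
  rcases h.P_le hC with h1 | h1
  · exact (h.cp hC).pt2 (by rw [h.dv_part hC]; exact h1) (h.ZQ hz) (h.notMem hC hz) (h.ZQ hz')
      (h.notMem hC hz') hne he he'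
  · exact (h.cp hC).pt2P h.ih h.ihp h1.1.le h1.2 (h.ZQ hz) (h.notMem hC hz) (h.ZQ hz')
      (h.notMem hC hz') hne he he'

theorem Cu.ab0 (h : Cu B Q Z F i0) {C : Finset V} (hC : C ∈ F) : Abz B C ∅ :=
  Abz.empty (h.cp hC).cov

theorem Cu.sup (h : Cu B Q Z F i0) {C : Finset V} (hC : C ∈ F) {a b c d : V}
    (h4 : Four Z a b c d) :
    1 ≤ (Ez B C b).card + (Ez B C c).card + (Ez B C d).card := by
  obtain ⟨x, hx, hxa, hE⟩ := h.two_att hC h4.ma
  have h1 := card_pos.2 hE
  rcases h4.cov x hx with rfl | rfl | rfl | rfl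
  · exact absurd rfl hxa
  · omega
  · omega
  · omega

theorem Cu.sup2 (h : Cu B Q Z F i0) {C D : Finset V} (hC : C ∈ F) (hD : D ∈ F) (hCD : C ≠ D)
    {a b c d : V} (h4 : Four Z a b c d) :
    1 ≤ (Ez B C c).card + (Ez B C d).card + (Ez B D c).card + (Ez B D d).card := by
  obtain ⟨x, hx, hxa, hxb, hE⟩ := h.pair_att hC hD hCD h4.ma h4.mb
  rcases h4.cov x hx with rfl | rfl | rfl | rfl
  · exact absurd rfl hxa
  · exact absurd rfl hxb
  · rcases hE with hE | hE
    · have := card_pos.2 hE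
      omega
    · have := card_pos.2 hE
      omega
  · rcases hE with hE | hE
    · have := card_pos.2 hE
      omega
    · have := card_pos.2 hE
      omega

/-- three components. -/
theorem Cu.t3 (h : Cu B Q Z F i0) (h3 : F.card = 3) : False := by
  classical
  obtain ⟨hb, _, _⟩ := h.summary
  have hbig : ∀ z ∈ Z, ∃ C ∈ F, 2 ≤ (Ez B C z).card := by
    intro z hz
    by_contra hcon
    push Not at hcon
    have h1 := h.row_eq hb hz
    have h2 : ∑ C ∈ F, (Ez B C z).card ≤ ∑ C ∈ F, 1 :=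
      sum_le_sum fun C hC => by have := hcon C hC; omega
    rw [sum_const, smul_eq_mul, mul_one] at h2
    omega
  choose! g hg1 hg2 using hbig
  obtain ⟨z1, hz1, z2, hz2, h12, hg⟩ := exists_ne_map_eq_of_card_lt_of_maps_to
    (s := Z) (t := F) (by rw [h.cZ, h3]; norm_num) hg1
  obtain ⟨z3, z4, h4⟩ := four_of h.cZ hz1 hz2 h12
  obtain ⟨I, hI⟩ : ∃ I, I = g z1 := ⟨_, rfl⟩
  have hIF : I ∈ F := by rw [hI]; exact hg1 z1 hz1
  have h1 : (F.erase I).card = 2 := by rw [card_erase_of_mem hIF, h3]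
  obtain ⟨J, K, hJK, h2⟩ := card_eq_two.1 h1
  have hJ : J ∈ F.erase I := by rw [h2]; simp
  have hK : K ∈ F.erase I := by rw [h2]; simp
  rw [mem_erase] at hJ hK
  have hF : F = {I, J, K} := by rw [← insert_erase hIF, h2]
  have hIJ : I ≠ J := hJ.1.symm
  have hIK : I ≠ K := hK.1.symm
  have e1 : 2 ≤ (Ez B I z1).card := by rw [hI]; exact hg2 z1 hz1
  have e2 : 2 ≤ (Ez B I z2).card := by rw [hI, hg]; exact hg2 z2 hz2
  have hrow : ∀ z ∈ Z, (Ez B I z).card + (Ez B J z).card + (Ez B K z).card = 4 := by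
    intro z hz
    have h5 := h.row_eq hb hz
    rw [hF, sum_insert (by simp [hIJ, hIK]), sum_pair hJK] at h5
    omega
  have q1 := h.sup hJ.2 h4
  have q2 := h.sup hJ.2 h4.swap
  have q3 := h.sup hK.2 h4
  have q4 := h.sup hK.2 h4.rot.rot
  have q5 := h.sup hK.2 h4.rot.rot.rot
  have q6 := h.sup2 hJ.2 hK.2 hJK h4
  have r3 := hrow z3 h4.mc
  have r4 := hrow z4 h4.md
  have ha := h4.ab
  rcases col3 (Ez B I z3).card (Ez B I z4).card (Ez B J z1).card (Ez B J z2).card
    (Ez B J z3).card (Ez B J z4).card (Ez B K z1).card (Ez B K z2).card (Ez B K z3).card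
    (Ez B K z4).card r3 r4 q1 q2 q3 (by omega) (by omega) q6 with
    t | t | t | t | t | t | t | t | t | t
  · refine h.assign3 hF hIJ hIK hJK (h.ab2 hIF h4.ma h4.mb h4.ab e1 e2) (h.ab1 hJ.2 h4.mc t.1)
      (h.ab1 hK.2 h4.md t.2) fun z hz => ?_
    rcases h4.cov z hz with rfl | rfl | rfl | rfl <;> simp
  · refine h.assign3 hF hIJ hIK hJK (h.ab2 hIF h4.ma h4.mb h4.ab e1 e2) (h.ab1 hJ.2 h4.md t.1)
      (h.ab1 hK.2 h4.mc t.2) fun z hz => ?_
    rcases h4.cov z hz with rfl | rfl | rfl | rfl <;> simp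
  · refine h.assign3 hF hIJ hIK hJK (h.ab2 hIF h4.ma h4.mc h4.ac e1 t.1)
      (h.ab1 hJ.2 h4.mb t.2.1) (h.ab1 hK.2 h4.md t.2.2) fun z hz => ?_
    rcases h4.cov z hz with rfl | rfl | rfl | rfl <;> simp
  · refine h.assign3 hF hIJ hIK hJK (h.ab2 hIF h4.ma h4.mc h4.ac e1 t.1)
      (h.ab1 hJ.2 h4.md t.2.1) (h.ab1 hK.2 h4.mb t.2.2) fun z hz => ?_
    rcases h4.cov z hz with rfl | rfl | rfl | rfl <;> simp
  · refine h.assign3 hF hIJ hIK hJK (h.ab2 hIF h4.mb h4.mc h4.bc e2 t.1)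
      (h.ab1 hJ.2 h4.md t.2.1) (h.ab1 hK.2 h4.ma t.2.2) fun z hz => ?_
    rcases h4.cov z hz with rfl | rfl | rfl | rfl <;> simp
  · refine h.assign3 hF hIJ hIK hJK (h.ab2 hIF h4.ma h4.md h4.ad e1 t.1)
      (h.ab1 hJ.2 h4.mb t.2.1) (h.ab1 hK.2 h4.mc t.2.2) fun z hz => ?_
    rcases h4.cov z hz with rfl | rfl | rfl | rfl <;> simp
  · refine h.assign3 hF hIJ hIK hJK (h.ab2 hIF h4.ma h4.md h4.ad e1 t.1)
      (h.ab1 hJ.2 h4.mc t.2.1) (h.ab1 hK.2 h4.mb t.2.2) fun z hz => ?_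
    rcases h4.cov z hz with rfl | rfl | rfl | rfl <;> simp
  · refine h.assign3 hF hIJ hIK hJK (h.ab2 hIF h4.mb h4.md h4.bd e2 t.1)
      (h.ab1 hJ.2 h4.mc t.2.1) (h.ab1 hK.2 h4.ma t.2.2) fun z hz => ?_
    rcases h4.cov z hz with rfl | rfl | rfl | rfl <;> simp
  · refine h.assign3 hF hIJ hIK hJK (h.ab2 hIF h4.ma h4.mb h4.ab e1 e2)
      (h.ab2 hJ.2 h4.mc h4.md h4.cd t.1 t.2) (h.ab0 hK.2) fun z hz => ?_
    rcases h4.cov z hz with rfl | rfl | rfl | rfl <;> simp
  · refine h.assign3 hF hIJ hIK hJK (h.ab2 hIF h4.ma h4.mb h4.ab e1 e2) (h.ab0 hJ.2)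
      (h.ab2 hK.2 h4.mc h4.md h4.cd t.1 t.2) fun z hz => ?_
    rcases h4.cov z hz with rfl | rfl | rfl | rfl <;> simp

end Pool.Agent.Hyp6
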