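import Pool.Agent.Hyp6.QIIb
import Pool.Agent.Hyp6.QI
import Pool.Agent.Hyp6.QIV2

/-!
# HYP6 QTHMG: theorem G, every member of the class E with at least seven points has a good gadget
-/

set_option autoImplicit false

namespace Pool.Agent.Hyp6

open Finset Pool.Agent.Hyp5

universe u v

section

variable {V : Type v} [DecidableEq V] {ι : Type u} [Fintype ι] {B : ι → Finset V} {C : Finset V}

/-- a block with at least three points. -/
theorem block_cases (hT : HT.{u} V) (hG : GH.{u} V C.card) (hC : EE B C)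
    {i : ι} (hi : 3 ≤ (B i ∩ C).card) :
    HasG B C ∨ ((B i ∩ C).card = 3 ∧ C.card ≠ 7 ∧ ∃ A x, Rt B C i A x) := by
  classical
  obtain ⟨X, F, hX, hclo, htypes⟩ := EE.types hT hC hi
  rcases htypes with ⟨hXe, h3, hn, M, L, hML, hF, hM, hL⟩ | ⟨hXe, h3, hn, M, L, hML, hF, hM, hL⟩ |
    ⟨hXe, h3, hn, M, L, hML, hF, hM, hL⟩ | ⟨h4, hn, M1, M2, L, h12, h1L, h2L, hF, hM1, hM2, hL⟩
  · subst hF
    exact Or.inl (tyI hT hG hC hclo hML hXe h3 hn hM.pv hL.pv)
  · subst hF
    have hins : ins B C X = {i} := ins_eq_singleton hn hX (card_pos.1 (by omega))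
    rcases Ty.typeII hT hG ⟨hC, hclo, hML, h3⟩ hM.pv hL.pv hXe.symm hins with h | ⟨h, h'⟩
    · exact Or.inl h
    · exact Or.inr ⟨by rw [← hXe]; exact h3, h, h'⟩
  · subst hF
    have hrow : ∀ z ∈ X, 3 ≤ (Ez B M z).card + (Ez B L z).card := by
      intro z hz
      have h5 := hclo.row hC.reg hz
      rw [sum_pair hML] at h5
      have h6 := card_filter_le (ins B C X) (fun j => z ∈ B j)
      omega
    obtain ⟨y, β, hpf⟩ := Ty.typeIII hT (B := B) (C := C) ⟨hC, hclo, hML, h3⟩ hM hL.pv hrow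
    exact Or.inl (hpf.hasG hT hG hC)
  · subst hF
    exact Or.inl (hclo.typeIV (ivf_of hT hC (fun D y β h => h.hasG hT hG hC)
      (fun D hD hDC hne h7 h2 hinc => hasG_of_inc hT hG hC hD hDC hne h7 h2 hinc)) hC h12 h1L h2L
      hM1 hM2 hL hn h4)

/-- a gadget exists. -/
theorem exists_hasG (hT : HT.{u} V) (hG : GH.{u} V C.card) (hC : EE B C)
    (h7 : 7 ≤ C.card) : HasG B C := by
  by_contra hno
  have hall : ∀ i, 3 ≤ (B i ∩ C).card →
      (B i ∩ C).card = 3 ∧ C.card ≠ 7 ∧ ∃ A x, Rt B C i A x := fun i hi =>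
    (block_cases hT hG hC hi).resolve_left hno
  have h3 : ∀ i, (B i ∩ C).card ≤ 3 := by
    intro i
    by_contra hcon
    push Not at hcon
    have := (hall i (by omega)).1
    omega
  have hle := rest_card hC.reg h3 (fun i hi => (hall i (by omega)).2.2) hC.pv hC.sv
  by_cases htr : ∃ i, 3 ≤ (B i ∩ C).card
  · obtain ⟨i, hi⟩ := htr
    exact (hall i hi).2.1 (by omega)
  · push Not at htr
    have h1 := G_eq2 hC.reg (fun i => Nat.lt_succ_iff.1 (htr i))
    have h2 := hC.pv
    have h4 := hC.sv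
    unfold Pv at h2
    rw [h1, h4] at h2
    have h5 : (0 : ℤ) ≤ nt B C 1 := by positivity
    have h6 : (7 : ℤ) ≤ C.card := by exact_mod_cast h7
    linarith

/-- **theorem G.** -/
theorem thmG (hT : HT.{u} V) : ∀ n, GH.{u} V n := by
  intro n
  induction n with
  | zero => intro κ _ B C _ _ h; omega
  | succ n ih =>
    intro κ _ B C hC h7 hn
    by_cases h : C.card < n
    · exact ih κ B C hC h7 h
    · have h1 : C.card = n := by omega
      have hG : GH.{u} V C.card := by rw [h1]; exact ih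
      exact (exists_hasG hT hG hC h7).good hT hG hC

end

end Pool.Agent.Hyp6
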