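import Mathlib

/-!
# HYP6 RUP: a checker for propositional refutations, made for evaluation by the kernel

A literal is a number: `2 v` is the variable `v`, `2 v + 1` its negation; a clause is a list of
literals, a formula a list of clauses. `chk cnf db prf` verifies a refutation: `db` is a search tree
with all the clauses (those of `cnf` and the learned ones, coded by digits in base `65536`), `prf` gives
for every learned clause the clauses used by unit propagation. `unsat`: if `chk cnf db prf` is `true`,
no assignment satisfies `cnf`. Everything is computed with bit masks.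
-/

set_option autoImplicit false

namespace Pool.Agent.Hyp6.Rup

/-- the literal `l` holds under `f`. -/
def Lit (f : ℕ → Bool) (l : ℕ) : Prop := f (l / 2) = (l % 2 == 0)

/-- the clause `c` holds under `f`. -/
def Sat (f : ℕ → Bool) (c : List ℕ) : Prop := ∃ l ∈ c, Lit f l

/-- the code of a clause. -/
noncomputable def enc (c : List ℕ) : ℕ :=
  List.rec 0 (fun l _ ih => Nat.add (Nat.mul ih 65536) (Nat.add l 2)) c

/-- search trees of codes of clauses. -/
inductive Tr : Type
  | leaf : ℕ → Tr
  | node : ℕ → Tr → Tr → Tr

/-- look up the clause with the given index. -/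
noncomputable def Tr.get (t : Tr) : ℕ → ℕ :=
  Tr.rec (fun c _ => c) (fun k _ _ l r i => Bool.rec (r i) (l i) (Nat.ble i k)) t

/-- the mask of the literals of the parity `b` in a code. -/
noncomputable def mk (b : ℕ) (k : ℕ) : ℕ → ℕ :=
  Nat.rec (fun _ => 0)
    (fun _ ih C =>
      Bool.rec
        (Bool.rec (ih (Nat.div C 65536))
          (Nat.lor (Nat.pow 2 (Nat.sub (Nat.div (Nat.mod C 65536) 2) 1)) (ih (Nat.div C 65536)))
          (Nat.beq (Nat.mod (Nat.mod C 65536) 2) b))
        0 (Nat.beq C 0)) k

/-- the positive mask of the clause with index `i`. -/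
noncomputable def pm (db : Tr) (i : ℕ) : ℕ := mk 0 100000 (db.get i)

/-- the negative mask of the clause with index `i`. -/
noncomputable def nm (db : Tr) (i : ℕ) : ℕ := mk 1 100000 (db.get i)

/-- unit propagation along the hints `H` (digits in base `1048576`): the hint `d` is the clause
`i - d`. -/
noncomputable def prop (db : Tr) (i : ℕ) (k : ℕ) : ℕ → ℕ → ℕ → Bool :=
  Nat.rec (fun _ _ _ => false)
    (fun _ ih H T F =>
      Nat.rec false (fun j' _ =>
        (fun p n : ℕ =>
        Bool.rec
          (Bool.rec false
            (Bool.rec false (ih (Nat.div H 1048576) T (Nat.lor F n))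
              (Nat.beq (Nat.land n (Nat.sub n 1)) 0))
            (Nat.beq p 0))
          (Bool.rec
            (Bool.rec false (ih (Nat.div H 1048576) (Nat.lor T p) F)
              (Nat.beq (Nat.land p (Nat.sub p 1)) 0))
            true
            (Nat.beq p 0))
          (Nat.beq n 0))
        (Nat.xor (pm db (Nat.succ j')) (Nat.land (pm db (Nat.succ j')) F))
        (Nat.xor (nm db (Nat.succ j')) (Nat.land (nm db (Nat.succ j')) T)))
        (Nat.sub i (Nat.mod H 1048576))) k

/-- check the learned clauses. -/
noncomputable def run (db : Tr) (s : List ℕ) : ℕ → Bool :=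
  List.rec (fun i => Nat.beq (db.get i) 0)
    (fun H _ ih i => Nat.rec false (fun i' _ =>
      Bool.rec false (ih (Nat.succ i'))
        (prop db i 100000 H (nm db (Nat.succ i')) (pm db (Nat.succ i')))) (Nat.succ i)) s

/-- compare the clauses of the formula with the tree, then check the learned clauses. -/
noncomputable def cmp (db : Tr) (prf : List ℕ) (s : List (List ℕ)) : ℕ → Bool :=
  List.rec (fun i => run db prf i)
    (fun c _ ih i => Nat.rec false (fun i' _ =>
      Bool.rec false (ih (Nat.succ i')) (Nat.beq (db.get (Nat.succ i')) (enc c))) (Nat.succ i)) s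

/-- the checker. -/
noncomputable def chk (cnf : List (List ℕ)) (db : Tr) (prf : List ℕ) : Bool := cmp db prf cnf 0

/-! ### soundness -/

/-- the clause with the masks `P`, `N` holds under `f`. -/
def SatM (f : ℕ → Bool) (P N : ℕ) : Prop :=
  (∃ v, P.testBit v = true ∧ f v = true) ∨ (∃ v, N.testBit v = true ∧ f v = false)

theorem one_bit : ∀ (n p : ℕ), p ≤ n → p &&& (p - 1) = 0 → ∀ v w, p.testBit v = true →
    p.testBit w = true → v = w := by
  intro n
  induction n with
  | zero =>
    intro p hp _ v w hv _
    have : p = 0 := by omega
    subst this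
    simp at hv
  | succ n ih =>
    intro p hp h v w hv hw
    rcases Nat.even_or_odd' p with ⟨q, rfl | rfl⟩
    · have hq0 : q ≠ 0 := by
        rintro rfl
        simp at hv
      have h1 : q &&& (q - 1) = 0 := by
        have h2 : (2 * q &&& (2 * q - 1)) / 2 = q &&& (q - 1) := by
          rw [Nat.and_div_two]
          congr 1 <;> omega
        rw [← h2, h]
      cases v with
      | zero => simp at hv
      | succ v =>
        cases w with
        | zero => simp at hw
        | succ w =>
          rw [Nat.testBit_succ] at hv hw
          have e : 2 * q / 2 = q := by omega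
          rw [e] at hv hw
          rw [ih q (by omega) h1 v w hv hw]
    · have h1 : (2 * q + 1) - 1 = 2 * q := by omega
      rw [h1] at h
      have h2 : (2 * q + 1 &&& 2 * q) / 2 = q := by
        rw [Nat.and_div_two]
        have e1 : (2 * q + 1) / 2 = q := by omega
        have e2 : 2 * q / 2 = q := by omega
        rw [e1, e2, Nat.and_self]
      rw [h] at h2
      have hq : q = 0 := by omega
      subst hq
      cases v with
      | zero =>
        cases w with
        | zero => rfl
        | succ w => simp [Nat.testBit_succ] at hw
      | succ v => simp [Nat.testBit_succ] at hv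

theorem prop_succ (db : Tr) (i k H T F : ℕ) :
    prop db i (k + 1) H T F =
      Nat.rec false (fun j' _ =>
        (fun p n : ℕ =>
        Bool.rec
          (Bool.rec false
            (Bool.rec false (prop db i k (Nat.div H 1048576) T (Nat.lor F n))
              (Nat.beq (Nat.land n (Nat.sub n 1)) 0))
            (Nat.beq p 0))
          (Bool.rec
            (Bool.rec false (prop db i k (Nat.div H 1048576) (Nat.lor T p) F)
              (Nat.beq (Nat.land p (Nat.sub p 1)) 0))
            true
            (Nat.beq p 0))
          (Nat.beq n 0))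
        (Nat.xor (pm db (Nat.succ j')) (Nat.land (pm db (Nat.succ j')) F))
        (Nat.xor (nm db (Nat.succ j')) (Nat.land (nm db (Nat.succ j')) T)))
        (Nat.sub i (Nat.mod H 1048576)) := rfl

theorem mask_bit {P F v : ℕ} (h : P.testBit v = true) (hF : F.testBit v = false) :
    (Nat.xor P (Nat.land P F)).testBit v = true := by
  have h1 : (P ^^^ (P &&& F)).testBit v = true := by
    rw [Nat.testBit_xor, Nat.testBit_and, h, hF]
    rfl
  exact h1

theorem prop_sound {f : ℕ → Bool} {db : Tr} {i : ℕ}
    (hdb : ∀ j, 1 ≤ j → j ≤ i → SatM f (pm db j) (nm db j)) :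
    ∀ (k H T F : ℕ), prop db i k H T F = true → (∀ v, T.testBit v = true → f v = true) →
      (∀ v, F.testBit v = true → f v = false) → False := by
  intro k
  induction k with
  | zero =>
    intro H T F h
    exact absurd h (by simp [prop])
  | succ k ih =>
    intro H T F h hT hF
    rw [prop_succ] at h
    rcases hj : Nat.sub i (Nat.mod H 1048576) with _ | j'
    · rw [hj] at h
      exact absurd h (by simp)
    rw [hj] at h
    have hji : j' + 1 ≤ i := by
      have : i - H % 1048576 = j' + 1 := hj
      omega
    have hs := hdb (j' + 1) (by omega) hji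
    simp only at h
    set P := pm db (Nat.succ j') with hP
    set N := nm db (Nat.succ j') with hN
    set p := Nat.xor P (Nat.land P F) with hp
    set n := Nat.xor N (Nat.land N T) with hn
    have hsP : ∀ v, P.testBit v = true → f v = true → p.testBit v = true := by
      intro v hv hfv
      refine mask_bit hv ?_
      by_contra hcon
      have := hF v (by simpa using hcon)
      rw [this] at hfv
      exact absurd hfv (by simp)
    have hsN : ∀ v, N.testBit v = true → f v = false → n.testBit v = true := by
      intro v hv hfv
      refine mask_bit hv ?_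
      by_contra hcon
      have := hT v (by simpa using hcon)
      rw [this] at hfv
      exact absurd hfv (by simp)
    rcases hn0 : Nat.beq n 0 with _ | _
    · rw [hn0] at h
      simp only at h
      rcases hp0 : Nat.beq p 0 with _ | _
      · rw [hp0] at h
        exact absurd h (by simp)
      rw [hp0] at h
      simp only at h
      have hp00 : p = 0 := Nat.eq_of_beq_eq_true hp0
      rcases h2 : Nat.beq (Nat.land n (Nat.sub n 1)) 0 with _ | _
      · rw [h2] at h
        exact absurd h (by simp)
      rw [h2] at h
      simp only at h
      have h3 : n &&& (n - 1) = 0 := Nat.eq_of_beq_eq_true h2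
      refine ih _ _ _ h hT ?_
      intro v hv
      have hv' : (F ||| n).testBit v = true := hv
      rw [Nat.testBit_or, Bool.or_eq_true] at hv'
      rcases hv' with hv' | hv'
      · exact hF v hv'
      · rcases hs with ⟨w, hw, hfw⟩ | ⟨w, hw, hfw⟩
        · have := hsP w hw hfw
          rw [hp00] at this
          simp at this
        · have h4 := hsN w hw hfw
          rw [one_bit n n le_rfl h3 v w hv' h4]
          exact hfw
    · rw [hn0] at h
      simp only at h
      have hn00 : n = 0 := Nat.eq_of_beq_eq_true hn0
      have hPt : ∃ w, P.testBit w = true ∧ f w = true := by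
        rcases hs with hs | ⟨w, hw, hfw⟩
        · exact hs
        · have := hsN w hw hfw
          rw [hn00] at this
          simp at this
      obtain ⟨w, hw, hfw⟩ := hPt
      have hpw := hsP w hw hfw
      rcases hp0 : Nat.beq p 0 with _ | _
      · rw [hp0] at h
        simp only at h
        rcases h2 : Nat.beq (Nat.land p (Nat.sub p 1)) 0 with _ | _
        · rw [h2] at h
          exact absurd h (by simp)
        rw [h2] at h
        simp only at h
        have h3 : p &&& (p - 1) = 0 := Nat.eq_of_beq_eq_true h2
        refine ih _ _ _ h ?_ hF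
        intro v hv
        have hv' : (T ||| p).testBit v = true := hv
        rw [Nat.testBit_or, Bool.or_eq_true] at hv'
        rcases hv' with hv' | hv'
        · exact hT v hv'
        · rw [one_bit p p le_rfl h3 v w hv' hpw]
          exact hfw
      · have hp00 : p = 0 := Nat.eq_of_beq_eq_true hp0
        rw [hp00] at hpw
        simp at hpw

theorem run_sound {f : ℕ → Bool} {db : Tr} : ∀ (s : List ℕ) (i : ℕ), run db s i = true →
    (∀ j, 1 ≤ j → j ≤ i → SatM f (pm db j) (nm db j)) → 1 ≤ i → False := by
  intro s
  induction s with
  | nil =>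
    intro i h hdb hi
    have h1 : db.get i = 0 := Nat.eq_of_beq_eq_true h
    have h2 := hdb i hi le_rfl
    have h3 : ∀ b, mk b 100000 0 = 0 := fun b => rfl
    unfold pm nm at h2
    rw [h1, h3, h3] at h2
    rcases h2 with ⟨v, hv, _⟩ | ⟨v, hv, _⟩ <;> simp at hv
  | cons H s ih =>
    intro i h hdb hi
    have h1 : run db (H :: s) i = Bool.rec false (run db s (i + 1))
        (prop db i 100000 H (nm db (i + 1)) (pm db (i + 1))) := rfl
    rw [h1] at h
    rcases h2 : prop db i 100000 H (nm db (i + 1)) (pm db (i + 1)) with _ | _
    · rw [h2] at h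
      exact absurd h (by simp)
    rw [h2] at h
    refine ih (i + 1) h ?_ (by omega)
    intro j hj1 hj2
    rcases Nat.lt_or_ge i j with hj | hj
    · have hji : j = i + 1 := by omega
      subst hji
      by_contra hcon
      unfold SatM at hcon
      push Not at hcon
      refine prop_sound hdb _ _ _ _ h2 ?_ ?_
      · intro v hv
        have := hcon.2 v hv
        simpa using this
      · intro v hv
        have := hcon.1 v hv
        simpa using this
    · exact hdb j hj1 hj

theorem mk_zero (b : ℕ) : ∀ k, mk b k 0 = 0 := by
  intro k
  cases k <;> rfl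

theorem mk_enc {b : ℕ} {l : ℕ} : ∀ (c : List ℕ) (k : ℕ), c.length ≤ k → (∀ x ∈ c, x + 2 < 65536) →
    l ∈ c → l % 2 = b → (mk b k (enc c)).testBit (l / 2) = true := by
  intro c
  induction c with
  | nil => intro k _ _ h; simp at h
  | cons x c ih =>
    intro k hk hx hl hb
    cases k with
    | zero => simp at hk
    | succ k =>
      have hx0 := hx x (by simp)
      have e0 : enc (x :: c) = enc c * 65536 + (x + 2) := rfl
      have e1 : (enc (x :: c)) % 65536 = x + 2 := by rw [e0]; omega
      have e2 : (enc (x :: c)) / 65536 = enc c := by rw [e0]; omega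
      have e3 : mk b (k + 1) (enc (x :: c)) = Bool.rec
          (Bool.rec (mk b k ((enc (x :: c)) / 65536))
            (Nat.lor (Nat.pow 2 (((enc (x :: c)) % 65536) / 2 - 1))
              (mk b k ((enc (x :: c)) / 65536)))
            (Nat.beq (((enc (x :: c)) % 65536) % 2) b))
          0 (Nat.beq (enc (x :: c)) 0) := rfl
      have e4 : Nat.beq (enc (x :: c)) 0 = false := by
        rcases h : Nat.beq (enc (x :: c)) 0 with _ | _
        · rfl
        · have := Nat.eq_of_beq_eq_true h
          rw [e0] at this
          omega
      rw [e3, e4, e1, e2]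
      simp only
      rcases h5 : Nat.beq ((x + 2) % 2) b with _ | _
      · simp only
        have hxl : l ≠ x := by
          rintro rfl
          have h6 : (l + 2) % 2 = b := by omega
          rw [h6] at h5
          simp at h5
        have hlc : l ∈ c := by
          rcases List.mem_cons.1 hl with h | h
          · exact absurd h hxl
          · exact h
        exact ih k (by simpa using hk) (fun y hy => hx y (by simp [hy])) hlc hb
      · simp only
        have h7 : ((2 ^ ((x + 2) / 2 - 1)) ||| mk b k (enc c)).testBit (l / 2) = true := by
          rw [Nat.testBit_or, Bool.or_eq_true]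
          rcases List.mem_cons.1 hl with h | h
          · left
            subst h
            have e5 : (l + 2) / 2 - 1 = l / 2 := by omega
            rw [e5]
            exact Nat.testBit_two_pow_self
          · right
            exact ih k (by simpa using hk) (fun y hy => hx y (by simp [hy])) h hb
        exact h7

/-- all the literals are small and all clauses short. -/
def Okc (cnf : List (List ℕ)) : Prop := ∀ c ∈ cnf, c.length ≤ 100000 ∧ ∀ x ∈ c, x + 2 < 65536

theorem satM_of_sat {f : ℕ → Bool} {c : List ℕ} (hlen : c.length ≤ 100000)
    (hx : ∀ x ∈ c, x + 2 < 65536) (h : Sat f c) :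
    SatM f (mk 0 100000 (enc c)) (mk 1 100000 (enc c)) := by
  obtain ⟨l, hl, hf⟩ := h
  unfold Lit at hf
  rcases Nat.mod_two_eq_zero_or_one l with h0 | h1
  · left
    refine ⟨l / 2, mk_enc c _ hlen hx hl h0, ?_⟩
    rw [hf, h0]
    rfl
  · right
    refine ⟨l / 2, mk_enc c _ hlen hx hl h1, ?_⟩
    rw [hf, h1]
    rfl

theorem cmp_sound {f : ℕ → Bool} {db : Tr} {prf : List ℕ} : ∀ (s : List (List ℕ)) (i : ℕ),
    cmp db prf s i = true → Okc s → (∀ c ∈ s, Sat f c) →
    (∀ j, 1 ≤ j → j ≤ i → SatM f (pm db j) (nm db j)) → 1 ≤ i + s.length → False := by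
  intro s
  induction s with
  | nil =>
    intro i h _ _ hdb hi
    exact run_sound prf i h hdb (by simpa using hi)
  | cons c s ih =>
    intro i h hok hsat hdb hi
    have h1 : cmp db prf (c :: s) i = Bool.rec false (cmp db prf s (i + 1))
        (Nat.beq (db.get (i + 1)) (enc c)) := rfl
    rw [h1] at h
    rcases h2 : Nat.beq (db.get (i + 1)) (enc c) with _ | _
    · rw [h2] at h
      exact absurd h (by simp)
    rw [h2] at h
    have h3 : db.get (i + 1) = enc c := Nat.eq_of_beq_eq_true h2
    refine ih (i + 1) h (fun c' hc' => hok c' (by simp [hc'])) (fun c' hc' => hsat c' (by simp [hc']))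
      ?_ (by omega)
    intro j hj1 hj2
    rcases Nat.lt_or_ge i j with hj | hj
    · have hji : j = i + 1 := by omega
      subst hji
      unfold pm nm
      rw [h3]
      obtain ⟨h4, h5⟩ := hok c (by simp)
      exact satM_of_sat h4 h5 (hsat c (by simp))
    · exact hdb j hj1 hj

/-- **soundness of the checker.** -/
theorem unsat {cnf : List (List ℕ)} {db : Tr} {prf : List ℕ} (h : chk cnf db prf = true)
    (hok : Okc cnf) (hne : cnf ≠ []) (f : ℕ → Bool) : ∃ c ∈ cnf, ¬ Sat f c := by
  by_contra hcon
  push Not at hcon
  refine cmp_sound (f := f) cnf 0 h hok hcon (fun j h1 h2 => by omega) ?_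
  have := List.length_pos_of_ne_nil hne
  omega

end Pool.Agent.Hyp6.Rup
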