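import Pool.Agent.Hyp6.L4Defs

/-!
# HYP6 SEVEN: seven points and nine blocks with at most four points have cover number at most two

This excludes the smallest exceptional system (`Pv = -1`, value `1`) of level four.
-/

set_option autoImplicit false

namespace Pool.Agent.Hyp6

open Finset Pool.Agent.Hyp5

universe u v

/-- eight pairwise intersecting triples whose degrees are `4` on `T` and `3` outside, none equal to
`T`, do not exist. -/
theorem seven_core {V : Type v} [DecidableEq V] {ι : Type u} [DecidableEq ι] {K : Finset ι}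
    {A : ι → Finset V} {T : Finset V} (hK : K.card = 8) (hA : ∀ i ∈ K, (A i).card = 3)
    (hT : T.card = 3)
    (hdeg : ∀ i ∈ K, ∀ x ∈ A i, (K.filter (fun j => x ∈ A j)).card = if x ∈ T then 4 else 3)
    (hdegT : ∀ x ∈ T, (K.filter (fun j => x ∈ A j)).card = 4)
    (hint : ∀ i ∈ K, ∀ j ∈ K, i ≠ j → (A i ∩ A j).Nonempty)
    (hne : ∀ i ∈ K, (T ∩ A i).card ≤ 2) : False := by
  have dc : ∀ (L : Finset ι) (S : Finset V),
      ∑ j ∈ L, (S ∩ A j).card = ∑ x ∈ S, (L.filter (fun j => x ∈ A j)).card := by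
    intro L S
    simp_rw [← filter_mem_eq_inter, card_filter]
    exact sum_comm
  -- the intersections with one of the sets
  have h1 : ∀ i ∈ K, ∑ j ∈ K.erase i, (A i ∩ A j).card = 6 + (T ∩ A i).card := by
    intro i hi
    have h2 := dc K (A i)
    rw [sum_congr rfl (fun x hx => hdeg i hi x hx)] at h2
    have h3 : ∑ x ∈ A i, (if x ∈ T then 4 else 3) = 9 + (T ∩ A i).card := by
      have : ∀ x ∈ A i, (if x ∈ T then 4 else 3) = 3 + (if x ∈ T then 1 else 0) := by
        intro x _
        split_ifs <;> rfl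
      rw [sum_congr rfl this, sum_add_distrib, sum_const, hA i hi, ← card_filter,
        filter_mem_eq_inter, inter_comm]
      rfl
    rw [h3, ← add_sum_erase K (fun j => (A i ∩ A j).card) hi, inter_self, hA i hi] at h2
    omega
  have hpos : ∀ i ∈ K, ∀ j ∈ K.erase i, 1 ≤ (A i ∩ A j).card := by
    intro i hi j hj
    rw [mem_erase] at hj
    exact card_pos.2 (hint i hi j hj.2 (Ne.symm hj.1))
  have h2 : ∀ i ∈ K, 1 ≤ (T ∩ A i).card := by
    intro i hi
    have h3 := h1 i hi
    have h4 : (K.erase i).card • 1 ≤ ∑ j ∈ K.erase i, (A i ∩ A j).card :=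
      card_nsmul_le_sum _ _ _ (hpos i hi)
    rw [card_erase_of_mem hi, hK, h3] at h4
    simp at h4
    omega
  -- the sets meeting `T` in one point meet every other set in exactly one point
  have h5 : ∀ i ∈ K, (T ∩ A i).card = 1 → ∀ j ∈ K.erase i, (A i ∩ A j).card = 1 := by
    intro i hi h1i j hj
    have h3 := h1 i hi
    rw [h1i] at h3
    have h4 : ∑ j ∈ K.erase i, (1 : ℕ) = ∑ j ∈ K.erase i, (A i ∩ A j).card := by
      rw [h3, sum_const, card_erase_of_mem hi, hK]
      rfl
    exact ((sum_eq_sum_iff_of_le (hpos i hi)).1 h4 j hj).symm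
  -- four sets meet `T` in two points
  have h6 : ∑ i ∈ K, (T ∩ A i).card = 12 := by
    rw [dc K T, sum_congr rfl (fun x hx => hdegT x hx), sum_const, hT]
    rfl
  set K2 := K.filter (fun i => (T ∩ A i).card = 2) with hK2
  set K1 := K.filter (fun i => ¬ (T ∩ A i).card = 2) with hK1
  have h7 : K2.card + K1.card = 8 := by
    rw [hK2, hK1, card_filter_add_card_filter_not, hK]
  have h8 : ∑ i ∈ K, (T ∩ A i).card = 2 * K2.card + K1.card := by
    rw [← sum_filter_add_sum_filter_not K (fun i => (T ∩ A i).card = 2)]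
    congr 1
    · rw [sum_congr rfl (fun i hi => (mem_filter.1 hi).2), sum_const]
      simp [hK2, mul_comm]
    · have : ∀ i ∈ K.filter (fun i => ¬ (T ∩ A i).card = 2), (T ∩ A i).card = 1 := by
        intro i hi
        rw [mem_filter] at hi
        have := h2 i hi.1
        have := hne i hi.1
        omega
      rw [sum_congr rfl this, sum_const]
      simp [hK1]
  have h9 : K2.card = 4 := by omega
  -- pigeonhole
  obtain ⟨c, hc, hc2⟩ : ∃ c ∈ T, 2 ≤ (K2.filter (fun i => c ∉ A i)).card := by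
    by_contra hcon
    push Not at hcon
    have h10 : ∑ c ∈ T, (K2.filter (fun i => c ∉ A i)).card = 4 := by
      have h11 : ∀ c ∈ T, (K2.filter (fun i => c ∉ A i)).card +
          (K2.filter (fun i => c ∈ A i)).card = 4 := by
        intro c _
        rw [add_comm, card_filter_add_card_filter_not, h9]
      have h12 := sum_congr (s₁ := T) rfl h11
      rw [sum_add_distrib, sum_const, hT, ← dc K2 T,
        sum_congr rfl (fun i (hi : i ∈ K2) => (mem_filter.1 hi).2), sum_const, h9] at h12
      simp at h12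
      exact h12
    have h13 : ∑ c ∈ T, (K2.filter (fun i => c ∉ A i)).card ≤ ∑ c ∈ T, 1 :=
      sum_le_sum fun c hc => by have := hcon c hc; omega
    rw [h10, sum_const, hT] at h13
    simp at h13
  obtain ⟨i1, hi1⟩ : (K2.filter (fun i => c ∉ A i)).Nonempty := card_pos.1 (by omega)
  rw [mem_filter] at hi1
  have hi1K : i1 ∈ K := (mem_filter.1 hi1.1).1
  have hi12 : (T ∩ A i1).card = 2 := (mem_filter.1 hi1.1).2
  -- two sets of the other kind contain `c`
  have h14 : 2 ≤ (K1.filter (fun i => c ∈ A i)).card := by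
    have h15 := hdegT c hc
    have h16 : (K.filter (fun j => c ∈ A j)).card =
        (K2.filter (fun j => c ∈ A j)).card + (K1.filter (fun j => c ∈ A j)).card := by
      rw [hK2, hK1, filter_filter, filter_filter,
        ← card_filter_add_card_filter_not (s := K.filter (fun j => c ∈ A j))
          (fun i => (T ∩ A i).card = 2), filter_filter, filter_filter]
      simp_rw [and_comm]
    have h17 : (K2.filter (fun i => c ∈ A i)).card +
        (K2.filter (fun i => c ∉ A i)).card = 4 := by
      rw [card_filter_add_card_filter_not, h9]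
    omega
  obtain ⟨j1, hj1, j2, hj2, hj12⟩ := one_lt_card.1 (show 1 < (K1.filter (fun i => c ∈ A i)).card by
    omega)
  have hK1' : ∀ j ∈ K1, j ∈ K ∧ (T ∩ A j).card = 1 := by
    intro j hj
    rw [hK1, mem_filter] at hj
    have := h2 j hj.1
    have := hne j hj.1
    exact ⟨hj.1, by omega⟩
  rw [mem_filter] at hj1 hj2
  obtain ⟨hj1K, hj1T⟩ := hK1' j1 hj1.1
  obtain ⟨hj2K, hj2T⟩ := hK1' j2 hj2.1
  -- the point of `A i1` outside `T`
  have h18 : (A i1 \ T).card = 1 := by
    have := card_sdiff_add_card_inter (A i1) T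
    rw [hA i1 hi1K, inter_comm, hi12] at this
    omega
  obtain ⟨x, hx⟩ := card_eq_one.1 h18
  have hxT : x ∉ T := by
    have : x ∈ A i1 \ T := by rw [hx]; exact mem_singleton_self x
    exact (mem_sdiff.1 this).2
  have key : ∀ j ∈ K, (T ∩ A j).card = 1 → c ∈ A j → x ∈ A j := by
    intro j hj hjT hcj
    have hji : j ≠ i1 := by
      rintro rfl
      exact hi1.2 hcj
    obtain ⟨z, hz⟩ := hint j hj i1 hi1K hji
    rw [mem_inter] at hz
    by_cases hzT : z ∈ T
    · exfalso
      have hzc : z ≠ c := by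
        rintro rfl
        exact hi1.2 hz.2
      obtain ⟨w, hw⟩ := card_eq_one.1 hjT
      have e1 : z ∈ T ∩ A j := mem_inter.2 ⟨hzT, hz.1⟩
      have e2 : c ∈ T ∩ A j := mem_inter.2 ⟨hc, hcj⟩
      rw [hw, mem_singleton] at e1 e2
      exact hzc (e1.trans e2.symm)
    · have : z ∈ A i1 \ T := mem_sdiff.2 ⟨hz.2, hzT⟩
      rw [hx, mem_singleton] at this
      rw [← this]
      exact hz.1
  have hx1 := key j1 hj1K hj1T hj1.2
  have hx2 := key j2 hj2K hj2T hj2.2
  have h19 := h5 j1 hj1K hj1T j2 (mem_erase.2 ⟨Ne.symm hj12, hj2K⟩)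
  obtain ⟨w, hw⟩ := card_eq_one.1 h19
  have e1 : x ∈ A j1 ∩ A j2 := mem_inter.2 ⟨hx1, hx2⟩
  have e2 : c ∈ A j1 ∩ A j2 := mem_inter.2 ⟨hj1.2, hj2.2⟩
  rw [hw, mem_singleton] at e1 e2
  exact hxT ((e1.trans e2.symm) ▸ hc)

variable {V : Type v} [DecidableEq V] {ι : Type u} [Fintype ι] {B : ι → Finset V}

/-- **Seven points.** -/
theorem rho_seven {Q : Finset V} (hr : Reg B Q) (h4 : Tr4 B Q) (hQ : Q.card = 7)
    (hc : cm B Q = 9) : rho B Q ≤ 2 := by
  classical
  by_contra hcon
  -- no two blocks cover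
  have hno : ∀ i j, ¬ Q ⊆ B i ∪ B j := by
    intro i j h
    refine hcon (rho_le_of ⟨{i, j}, ?_, card_le_two⟩)
    intro v hv
    rw [mem_biUnion]
    rcases mem_union.1 (h hv) with h1 | h1
    · exact ⟨i, by simp, h1⟩
    · exact ⟨j, by simp, h1⟩
  have hsum : ∑ i ∈ tch B Q, (B i ∩ Q).card = 35 := by
    have h1 := sum_inc hr
    rw [hQ] at h1
    rw [show (35 : ℕ) = 5 * 7 from rfl, ← h1]
    refine sum_subset (subset_univ _) fun i _ hi => ?_
    unfold tch at hi
    rw [mem_filter, not_and] at hi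
    exact card_eq_zero.2 (not_nonempty_iff_eq_empty.1 (hi (mem_univ i)))
  have hcard : (tch B Q).card = 9 := hc
  -- the block with three points
  obtain ⟨t, ht, ht3⟩ : ∃ t ∈ tch B Q, (B t ∩ Q).card ≤ 3 := by
    by_contra hcon2
    push Not at hcon2
    have h1 : (tch B Q).card • 4 ≤ ∑ i ∈ tch B Q, (B i ∩ Q).card :=
      card_nsmul_le_sum _ _ _ fun i hi => hcon2 i hi
    rw [hcard, hsum] at h1
    simp at h1
  have hrest : ∑ i ∈ (tch B Q).erase t, (B i ∩ Q).card + (B t ∩ Q).card = 35 := by
    rw [sum_erase_add _ _ ht, hsum]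
  have hle : ∑ i ∈ (tch B Q).erase t, (B i ∩ Q).card ≤ ((tch B Q).erase t).card • 4 :=
    sum_le_card_nsmul _ _ _ fun i _ => h4 i
  rw [card_erase_of_mem ht, hcard] at hle
  simp only [smul_eq_mul] at hle
  have hT : (B t ∩ Q).card = 3 := by omega
  have hK4 : ∀ i ∈ (tch B Q).erase t, (B i ∩ Q).card = 4 := by
    have h1 : ∑ i ∈ (tch B Q).erase t, (B i ∩ Q).card = ∑ i ∈ (tch B Q).erase t, 4 := by
      rw [sum_const, card_erase_of_mem ht, hcard, smul_eq_mul]
      omega
    exact (sum_eq_sum_iff_of_le fun i _ => h4 i).1 h1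
  have hKc : ((tch B Q).erase t).card = 8 := by rw [card_erase_of_mem ht, hcard]
  have hdeg : ∀ x ∈ Q, (((tch B Q).erase t).filter (fun j => x ∈ B j)).card +
      (if x ∈ B t ∩ Q then 1 else 0) = 5 := by
    intro x hx
    have e1 : (tch B Q).filter (fun j => x ∈ B j) = univ.filter (fun j => x ∈ B j) := by
      ext j
      unfold tch
      simp only [mem_filter, mem_univ, true_and]
      exact ⟨fun h => h.2, fun h => ⟨⟨x, mem_inter.2 ⟨h, hx⟩⟩, h⟩⟩
    have e2 : ((tch B Q).erase t).filter (fun j => x ∈ B j) =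
        ((tch B Q).filter (fun j => x ∈ B j)).erase t := by
      ext j
      simp only [mem_filter, mem_erase]
      tauto
    rw [e2, e1]
    have e3 := hr x hx
    split_ifs with h
    · have e4 : t ∈ univ.filter (fun j => x ∈ B j) := by
        simp only [mem_filter, mem_univ, true_and]
        exact (mem_inter.1 h).1
      rw [card_erase_of_mem e4, e3]
    · have e4 : t ∉ univ.filter (fun j => x ∈ B j) := by
        simp only [mem_filter, mem_univ, true_and]
        exact fun h' => h (mem_inter.2 ⟨h', hx⟩)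
      rw [erase_eq_of_notMem e4, e3]
  have hdeg2 : ∀ x ∈ Q, (((tch B Q).erase t).filter (fun j => x ∈ Q \ B j)).card =
      if x ∈ B t ∩ Q then 4 else 3 := by
    intro x hx
    have e1 := hdeg x hx
    have e2 := card_filter_add_card_filter_not (s := (tch B Q).erase t) (fun j => x ∈ B j)
    rw [hKc] at e2
    have e3 : ((tch B Q).erase t).filter (fun j => x ∈ Q \ B j) =
        ((tch B Q).erase t).filter (fun j => ¬ x ∈ B j) := by
      refine filter_congr fun j _ => ?_
      rw [mem_sdiff]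
      exact ⟨fun h => h.2, fun h => ⟨hx, h⟩⟩
    rw [e3]
    split_ifs at e1 ⊢ <;> omega
  refine seven_core (K := (tch B Q).erase t) (A := fun i => Q \ B i) (T := B t ∩ Q) ?_ ?_ hT ?_ ?_
    ?_ ?_
  · rw [card_erase_of_mem ht, hcard]
  · intro i hi
    have h1 := card_sdiff_add_card_inter Q (B i)
    rw [inter_comm, hK4 i hi, hQ] at h1
    omega
  · intro i hi x hx
    exact hdeg2 x (mem_sdiff.1 hx).1
  · intro x hx
    have h1 := hdeg2 x (mem_inter.1 hx).2
    rw [if_pos hx] at h1
    exact h1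
  · intro i hi j hj hij
    have h1 := hno i j
    rw [not_subset] at h1
    obtain ⟨v, hv, hv'⟩ := h1
    rw [mem_union, not_or] at hv'
    exact ⟨v, mem_inter.2 ⟨mem_sdiff.2 ⟨hv, hv'.1⟩, mem_sdiff.2 ⟨hv, hv'.2⟩⟩⟩
  · intro i hi
    by_contra h1
    push Not at h1
    have h2 : (B t ∩ Q) ∩ (Q \ B i) = B t ∩ Q :=
      eq_of_subset_of_card_le inter_subset_left (by omega)
    have h3 : B t ∩ Q ⊆ Q \ B i := by
      rw [← h2]
      exact inter_subset_right
    have h4' : (Q \ B i).card = 3 := by
      have h5 := card_sdiff_add_card_inter Q (B i)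
      rw [inter_comm, hK4 i hi, hQ] at h5
      omega
    have h6 : B t ∩ Q = Q \ B i := eq_of_subset_of_card_le h3 (by omega)
    refine hno t i fun v hv => ?_
    by_cases hvi : v ∈ B i
    · exact mem_union_right _ hvi
    · have : v ∈ B t ∩ Q := by
        rw [h6]
        exact mem_sdiff.2 ⟨hv, hvi⟩
      exact mem_union_left _ (mem_inter.1 this).1

/-- a system with seven points, traces of at most four points and value at least one is not
exceptional. -/
theorem Pv_seven {Q : Finset V} (hr : Reg B Q) (h4 : Tr4 B Q) (hQ : Q.card = 7)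
    (hs : 1 ≤ sv B Q) : 3 ≤ Pv B Q := by
  have h1 : 35 ≤ 4 * cm B Q := by
    have h2 := sum_inc hr
    rw [hQ] at h2
    have h3 : ∑ i ∈ tch B Q, (B i ∩ Q).card = ∑ i, (B i ∩ Q).card := by
      refine sum_subset (subset_univ _) fun i _ hi => ?_
      unfold tch at hi
      rw [mem_filter, not_and] at hi
      exact card_eq_zero.2 (not_nonempty_iff_eq_empty.1 (hi (mem_univ i)))
    have h5 : ∑ i ∈ tch B Q, (B i ∩ Q).card ≤ (tch B Q).card • 4 :=
      sum_le_card_nsmul _ _ _ fun i _ => h4 i
    rw [h3, h2] at h5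
    unfold cm
    simp only [smul_eq_mul] at h5
    omega
  have h6 : rho B Q ≤ 3 := by
    unfold sv at hs
    rw [hQ] at hs
    push_cast at hs
    omega
  rw [Pv_eq, hQ]
  push_cast
  by_cases h7 : rho B Q ≤ 2
  · omega
  · have h8 : cm B Q ≠ 9 := fun h => h7 (rho_seven hr h4 hQ h)
    omega

end Pool.Agent.Hyp6
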