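import Pool.Agent.Hyp6.KExch

/-!
# HYP6 STAR: the star property of a rich member

Counting lemma: the blocks `i ∈ A` have pairs of points `S i ⊆ B i`, every block of `N` (disjoint from `A`)
meets every pair and contains at most four points of the pairs. Then `|N| ≤ 8` if `A` is not empty, and
`(5 |A| - 8) |N| ≤ 24 |A|`.
-/

set_option autoImplicit false

namespace Pool.Agent.Hyp6

open Finset Pool.Agent.Hyp5

universe u v

variable {V : Type v} [DecidableEq V] {ι : Type u} [Fintype ι] [DecidableEq ι] {B : ι → Finset V}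

/-- the data of the counting lemma. -/
structure StarSys (B : ι → Finset V) (U : Finset V) (A N : Finset ι) (S : ι → Finset V) : Prop where
  sub : ∀ i ∈ A, S i ⊆ B i
  subU : ∀ i ∈ A, S i ⊆ U
  two : ∀ i ∈ A, (S i).card = 2
  dis : Disjoint A N
  hit : ∀ i ∈ A, ∀ n ∈ N, (S i ∩ B n).Nonempty
  four : ∀ n ∈ N, (B n ∩ A.biUnion S).card ≤ 4

variable {U : Finset V} {A N : Finset ι} {S : ι → Finset V}

theorem StarSys.le8 (h : StarSys B U A N S) (hr : Reg B U) (hA : A.Nonempty) : N.card ≤ 8 := by
  obtain ⟨i, hi⟩ := hA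
  have h1 : N ⊆ (S i).biUnion (fun s => (univ.filter (fun n => s ∈ B n)).erase i) := by
    intro n hn
    obtain ⟨s, hs⟩ := h.hit i hi n hn
    rw [mem_inter] at hs
    rw [mem_biUnion]
    refine ⟨s, hs.1, mem_erase.2 ⟨?_, mem_filter.2 ⟨mem_univ _, hs.2⟩⟩⟩
    rintro rfl
    exact Finset.disjoint_left.1 h.dis hi hn
  have h2 := card_le_card h1
  have h3 : ((S i).biUnion (fun s => (univ.filter (fun n => s ∈ B n)).erase i)).card ≤
      ∑ s ∈ S i, 4 := by
    refine card_biUnion_le.trans (sum_le_sum fun s hs => ?_)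
    have h4 := hr s (h.subU i hi hs)
    have h6 : i ∈ univ.filter (fun n => s ∈ B n) := mem_filter.2 ⟨mem_univ _, h.sub i hi hs⟩
    rw [card_erase_of_mem h6]
    omega
  rw [sum_const, h.two i hi, smul_eq_mul] at h3
  omega

theorem StarSys.count (h : StarSys B U A N S) (hr : Reg B U) :
    5 * (A.card * N.card) ≤ 8 * N.card + 24 * A.card := by
  classical
  set P := A.biUnion S with hP
  set al : V → ℕ := fun s => (A.filter (fun i => s ∈ S i)).card with hal
  set be : V → ℕ := fun s => (N.filter (fun n => s ∈ B n)).card with hbe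
  -- the sum of `al`
  have h1 : ∑ s ∈ P, al s = 2 * A.card := by
    have e1 : ∑ s ∈ P, al s = ∑ i ∈ A, (S i ∩ P).card := by
      simp only [hal, card_filter]
      rw [sum_comm]
      refine sum_congr rfl fun i _ => ?_
      rw [← card_filter, inter_comm, ← filter_mem_eq_inter]
    rw [e1, sum_congr rfl fun i hi => by
      rw [inter_eq_left.2 (subset_biUnion_of_mem S hi), h.two i hi]]
    rw [sum_const, smul_eq_mul, mul_comm]
  -- the sum of `be`
  have h2 : ∑ s ∈ P, be s ≤ 4 * N.card := by
    have e1 : ∑ s ∈ P, be s = ∑ n ∈ N, (B n ∩ P).card := by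
      simp only [hbe, card_filter]
      rw [sum_comm]
      refine sum_congr rfl fun n _ => ?_
      rw [← card_filter, inter_comm, ← filter_mem_eq_inter]
    rw [e1]
    calc ∑ n ∈ N, (B n ∩ P).card ≤ ∑ n ∈ N, 4 := sum_le_sum fun n hn => h.four n hn
      _ = 4 * N.card := by rw [sum_const, smul_eq_mul, mul_comm]
  -- the sum of the products
  have h3 : A.card * N.card ≤ ∑ s ∈ P, al s * be s := by
    have e1 : ∑ s ∈ P, al s * be s = ∑ i ∈ A, ∑ n ∈ N, (S i ∩ B n).card := by
      have e2 : ∀ s ∈ P, al s * be s =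
          ∑ i ∈ A, ∑ n ∈ N, if s ∈ S i ∧ s ∈ B n then 1 else 0 := by
        intro s _
        simp only [hal, hbe, card_filter]
        rw [sum_mul_sum]
        refine sum_congr rfl fun i _ => sum_congr rfl fun n _ => ?_
        by_cases g1 : s ∈ S i <;> by_cases g2 : s ∈ B n <;> simp [g1, g2]
      rw [sum_congr rfl e2, sum_comm]
      refine sum_congr rfl fun i hi => ?_
      rw [sum_comm]
      refine sum_congr rfl fun n _ => ?_
      rw [← card_filter]
      congr 1
      ext s
      rw [mem_filter, mem_inter]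
      constructor
      · exact fun g => g.2
      · exact fun g => ⟨subset_biUnion_of_mem S hi g.1, g⟩
    rw [e1]
    calc A.card * N.card = ∑ i ∈ A, ∑ n ∈ N, 1 := by
          simp only [sum_const, smul_eq_mul, mul_one]
      _ ≤ _ := sum_le_sum fun i hi => sum_le_sum fun n hn => card_pos.2 (h.hit i hi n hn)
  -- the degrees
  have h4 : ∀ s ∈ P, 5 * (al s * be s) ≤ 2 * be s + 12 * al s := by
    intro s hs
    obtain ⟨i0, hi0, hsi0⟩ := mem_biUnion.1 hs
    have h5 : al s + be s ≤ 5 := by
      have e1 : Disjoint (A.filter (fun i => s ∈ S i)) (N.filter (fun n => s ∈ B n)) :=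
        h.dis.mono (filter_subset _ _) (filter_subset _ _)
      simp only [hal, hbe]
      rw [← card_union_of_disjoint e1, ← hr s (h.subU i0 hi0 hsi0)]
      refine card_le_card fun i hi => mem_filter.2 ⟨mem_univ _, ?_⟩
      rcases mem_union.1 hi with hi | hi
      · exact h.sub i (mem_filter.1 hi).1 (mem_filter.1 hi).2
      · exact (mem_filter.1 hi).2
    have h6 : 1 ≤ al s := card_pos.2 ⟨i0, mem_filter.2 ⟨hi0, hsi0⟩⟩
    have h7 : al s ≤ 5 := by omega
    generalize al s = x at *
    generalize be s = y at *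
    interval_cases x <;> omega
  have h5 : 5 * ∑ s ∈ P, al s * be s ≤ 2 * ∑ s ∈ P, be s + 12 * ∑ s ∈ P, al s := by
    rw [mul_sum, mul_sum, mul_sum, ← sum_add_distrib]
    exact sum_le_sum h4
  nlinarith

end Pool.Agent.Hyp6
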