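import Pool.Agent.Hyp6.L3Tq
import Pool.Agent.Hyp6.Cb5
import Pool.Agent.Hyp6.CfgR

/-!
# HYP6 TQ1: the configuration of the tight case

`CfQ`: the structure `TQ` as a configuration `Cf` with `6 + n` points and `1 + n` components,
`n = 1, 2`; the points `0, 1, 2` and `3, 4, 5` are the traces of the two full blocks, the point `6` is the
further point of `X`, for `n = 2` the point `7` is the further point of `Z`.
-/

set_option autoImplicit false

namespace Pool.Agent.Hyp6

open Finset Pool.Agent.Hyp5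

universe u v

variable {V : Type v} [DecidableEq V] {ι : Type u} [Fintype ι] {B : ι → Finset V}
variable {Q X Z : Finset V} {F : Finset (Finset V)} {i j : ι} {n : ℕ} {x : ℕ → V} {D : ℕ → Finset V}

/-- the configuration of the tight case. -/
structure CfQ (B : ι → Finset V) (Q : Finset V) (n : ℕ) (x : ℕ → V) (D : ℕ → Finset V)
    (i j : ι) : Prop where
  n1 : 1 ≤ n
  n2 : n ≤ 2
  cf : Cf B Q (6 + n) (1 + n) x D 2
  i7 : B i ∩ Q = ptm x (6 + n) 7
  j56 : B j ∩ Q = ptm x (6 + n) 56
  tq : TQ B Q (ptm x (6 + n) 71) (ptm x (6 + n) 184) ((range (1 + n)).image D) i j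

theorem TQ.ij (h : TQ B Q X Z F i j) : i ≠ j := by
  rintro rfl
  obtain ⟨v, hv⟩ := card_pos.1 (by rw [h.fj]; norm_num : 0 < (B i ∩ Q).card)
  exact (mem_sdiff.1 (h.jL hv)).2 (h.inc hv)

/-- the number of the points of the closure. -/
theorem TQ.cardZ (h : TQ B Q X Z F i j) : 3 ≤ Z.card ∧ Z.card ≤ 4 := by
  classical
  have h0 := card_le_card h.jZ
  rw [h.fj] at h0
  refine ⟨h0, ?_⟩
  have h1 := h.sum_p
  have h2 := two_ee_le (B := B) Q (X ∪ Z)
  have hi : i ∈ ins B Q (X ∪ Z) := mem_ins.2
    ⟨card_pos.1 (by rw [h.c3]; norm_num), h.inc.trans subset_union_left⟩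
  have hj : j ∈ ins B Q (X ∪ Z) := mem_ins.2
    ⟨card_pos.1 (by rw [h.fj]; norm_num), h.jZ.trans subset_union_right⟩
  have h3 : (ins B Q (X ∪ Z)).filter (fun k => (B k ∩ Q).card = 1) ⊆
      ((ins B Q (X ∪ Z)).erase i).erase j := by
    intro k hk
    rw [mem_filter] at hk
    refine mem_erase.2 ⟨?_, mem_erase.2 ⟨?_, hk.1⟩⟩
    · rintro rfl
      rw [h.fj] at hk
      exact absurd hk.2 (by norm_num)
    · rintro rfl
      rw [h.c3] at hk
      exact absurd hk.2 (by norm_num)
  have h4 := card_le_card h3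
  rw [card_erase_of_mem (mem_erase.2 ⟨h.ij.symm, hj⟩), card_erase_of_mem hi] at h4
  have h5 : 1 < (ins B Q (X ∪ Z)).card := one_lt_card.2 ⟨i, hi, j, hj, h.ij⟩
  have h6 : (0 : ℤ) ≤ ∑ D ∈ F, (dv B Q D + 1) := sum_nonneg fun D hD => h.nonneg hD
  omega

/-- **the labelled configuration.** -/
theorem TQ.exists_cfQ (h : TQ B Q X Z F i j) : ∃ n x D, CfQ B Q n x D i j := by
  classical
  set T1 := B i ∩ Q with hT1
  set T2 := B j ∩ Q with hT2
  set U := Z \ T2 with hU
  have h1c : T1.card = 3 := h.c3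
  have h2c : T2.card = 3 := h.fj
  obtain ⟨v0, _⟩ : T1.Nonempty := card_pos.1 (by rw [h1c]; norm_num)
  obtain ⟨u, hu⟩ : ∃ u, X \ T1 = {u} := by
    rw [← card_eq_one]
    have h3 : (X \ T1).card + T1.card = X.card := card_sdiff_add_card_eq_card h.inc
    rw [h.x4, h1c] at h3
    omega
  have huX : u ∈ X ∧ u ∉ T1 := by
    have : u ∈ X \ T1 := by rw [hu]; simp
    exact mem_sdiff.1 this
  have hXe : ∀ v, v ∈ X ↔ v ∈ T1 ∨ v = u := by
    intro v
    constructor
    · intro hv
      by_cases h3 : v ∈ T1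
      · exact Or.inl h3
      · right
        have : v ∈ X \ T1 := mem_sdiff.2 ⟨hv, h3⟩
        rw [hu, mem_singleton] at this
        exact this
    · rintro (h3 | rfl)
      · exact h.inc h3
      · exact huX.1
  have hZe : ∀ v, v ∈ Z ↔ v ∈ T2 ∨ v ∈ U := by
    intro v
    rw [hU, mem_sdiff]
    constructor
    · intro hv
      by_cases h3 : v ∈ T2
      · exact Or.inl h3
      · exact Or.inr ⟨hv, h3⟩
    · rintro (h3 | h3)
      · exact h.jZ h3
      · exact h3.1
  have hXZ : ∀ v, v ∈ X → v ∉ Z := fun v hv hv' => (mem_sdiff.1 (h.ZL hv')).2 hv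
  have h12 : ∀ v, v ∈ T1 → v ∉ T2 := fun v hv hv' => hXZ v (h.inc hv) (h.jZ hv')
  set l := T1.toList ++ (T2.toList ++ (u :: U.toList)) with hl
  obtain ⟨n, hn⟩ : ∃ n, n = U.card + 1 := ⟨_, rfl⟩
  have hZc := h.cardZ
  have hUc : U.card + 3 = Z.card := by
    have h3 : (Z \ T2).card + T2.card = Z.card := card_sdiff_add_card_eq_card h.jZ
    rw [h2c] at h3
    exact h3
  have hn1 : 1 ≤ n := by omega
  have hn2 : n ≤ 2 := by omega
  have l1 : T1.toList.length = 3 := by rw [length_toList, h1c]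
  have l2 : T2.toList.length = 3 := by rw [length_toList, h2c]
  have l3 : U.toList.length + 1 = n := by rw [length_toList, hn]
  have hlen : l.length = 6 + n := by
    rw [hl, List.length_append, List.length_append, List.length_cons, l1, l2, l3]
    omega
  have huU : u ∉ U := fun hc => hXZ u huX.1 (mem_sdiff.1 hc).1
  have huT2 : u ∉ T2 := fun hc => hXZ u huX.1 (h.jZ hc)
  have hnd : l.Nodup := by
    rw [hl, List.nodup_append]
    refine ⟨nodup_toList _, ?_, ?_⟩
    · rw [List.nodup_append]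
      refine ⟨nodup_toList _, ?_, ?_⟩
      · rw [List.nodup_cons, mem_toList]
        exact ⟨huU, nodup_toList _⟩
      · intro a ha b hb hab
        subst hab
        rw [mem_toList] at ha
        rw [List.mem_cons, mem_toList] at hb
        rcases hb with rfl | hb
        · exact huT2 ha
        · exact (mem_sdiff.1 hb).2 ha
    · intro a ha b hb hab
      subst hab
      rw [mem_toList] at ha
      rw [List.mem_append, List.mem_cons, mem_toList, mem_toList] at hb
      rcases hb with hb | rfl | hb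
      · exact h12 a ha hb
      · exact huX.2 ha
      · exact hXZ a (h.inc ha) (mem_sdiff.1 hb).1
  set x : ℕ → V := fun a => l.getD a v0 with hx
  have hx1 : ∀ a < 3, x a = T1.toList.getD a v0 := by
    intro a ha
    rw [hx]
    simp only
    rw [hl, List.getD_append _ _ _ _ (by omega)]
  have hx2 : ∀ a < 3, x (3 + a) = T2.toList.getD a v0 := by
    intro a ha
    rw [hx]
    simp only
    rw [hl, List.getD_append_right _ _ _ _ (by omega), l1, List.getD_append _ _ _ _ (by omega)]
    congr 1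
    omega
  have hx3 : ∀ a, x (6 + a) = (u :: U.toList).getD a v0 := by
    intro a
    rw [hx]
    simp only
    rw [hl, List.getD_append_right _ _ _ _ (by omega), l1,
      List.getD_append_right _ _ _ _ (by omega), l2]
    congr 1
    omega
  have hx6 : x 6 = u := by
    have h3 := hx3 0
    simpa using h3
  have m1 : ∀ v, v ∈ T1 ↔ ∃ a < 3, x a = v := by
    intro v
    rw [← mem_toList, mem_iff_getD (d := v0), l1]
    constructor
    · rintro ⟨a, ha, rfl⟩
      exact ⟨a, ha, hx1 a ha⟩
    · rintro ⟨a, ha, rfl⟩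
      exact ⟨a, ha, (hx1 a ha).symm⟩
  have m2 : ∀ v, v ∈ T2 ↔ ∃ a, 3 ≤ a ∧ a < 6 ∧ x a = v := by
    intro v
    rw [← mem_toList, mem_iff_getD (d := v0), l2]
    constructor
    · rintro ⟨a, ha, rfl⟩
      exact ⟨3 + a, by omega, by omega, hx2 a ha⟩
    · rintro ⟨a, ha, ha', rfl⟩
      refine ⟨a - 3, by omega, ?_⟩
      rw [← hx2 (a - 3) (by omega)]
      congr 1
      omega
  have m3 : ∀ v, v ∈ U ↔ ∃ a, 7 ≤ a ∧ a < 6 + n ∧ x a = v := by
    intro v
    rw [← mem_toList, mem_iff_getD (d := v0)]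
    constructor
    · rintro ⟨a, ha, rfl⟩
      refine ⟨7 + a, by omega, by omega, ?_⟩
      have h3 := hx3 (1 + a)
      rw [show 6 + (1 + a) = 7 + a by omega, show 1 + a = a + 1 by omega,
        List.getD_cons_succ] at h3
      exact h3
    · rintro ⟨a, ha, ha', rfl⟩
      refine ⟨a - 7, by omega, ?_⟩
      have h3 := hx3 (a - 6)
      rw [show 6 + (a - 6) = a by omega, show a - 6 = (a - 7) + 1 by omega,
        List.getD_cons_succ] at h3
      exact h3.symm
  have h8 : ∀ a, a < 6 + n → a < 8 := fun a ha => by omega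
  have h7 : T1 = ptm x (6 + n) 7 := by
    ext v
    rw [mem_ptm, m1]
    constructor
    · rintro ⟨a, ha, rfl⟩
      exact ⟨a, by omega, by interval_cases a <;> rfl, rfl⟩
    · rintro ⟨a, ha, hb, rfl⟩
      refine ⟨a, ?_, rfl⟩
      have := h8 a ha
      interval_cases a <;> first | omega | exact absurd hb (by decide)
  have h56 : T2 = ptm x (6 + n) 56 := by
    ext v
    rw [mem_ptm, m2]
    constructor
    · rintro ⟨a, ha, ha', rfl⟩
      exact ⟨a, by omega, by interval_cases a <;> rfl, rfl⟩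
    · rintro ⟨a, ha, hb, rfl⟩
      refine ⟨a, ?_, ?_, rfl⟩ <;>
      · have := h8 a ha
        interval_cases a <;> first | omega | exact absurd hb (by decide)
  have h71 : X = ptm x (6 + n) 71 := by
    ext v
    rw [mem_ptm, hXe, m1]
    constructor
    · rintro (⟨a, ha, rfl⟩ | rfl)
      · exact ⟨a, by omega, by interval_cases a <;> rfl, rfl⟩
      · exact ⟨6, by omega, rfl, hx6⟩
    · rintro ⟨a, ha, hb, rfl⟩
      by_cases h3 : a < 3
      · exact Or.inl ⟨a, h3, rfl⟩
      · right
        have : a = 6 := by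
          have := h8 a ha
          interval_cases a <;> first | omega | exact absurd hb (by decide)
        rw [this, hx6]
  have h184 : Z = ptm x (6 + n) 184 := by
    ext v
    rw [mem_ptm, hZe, m2, m3]
    constructor
    · rintro (⟨a, ha, ha', rfl⟩ | ⟨a, ha, ha', rfl⟩)
      · exact ⟨a, by omega, by interval_cases a <;> rfl, rfl⟩
      · refine ⟨a, ha', ?_, rfl⟩
        have h3 : a = 7 := by omega
        rw [h3]
        rfl
    · rintro ⟨a, ha, hb, rfl⟩
      by_cases h3 : a < 6
      · left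
        refine ⟨a, ?_, h3, rfl⟩
        interval_cases a <;> first | omega | exact absurd hb (by decide)
      · right
        refine ⟨a, ?_, ha, rfl⟩
        have := h8 a ha
        interval_cases a <;> first | omega | exact absurd hb (by decide)
  -- the components
  set lF := F.toList with hlF
  have hlenF : lF.length = 1 + n := by
    rw [hlF, length_toList]
    have := h.cardF.1
    omega
  have hndF : lF.Nodup := nodup_toList _
  set D : ℕ → Finset V := fun a => lF.getD a ∅ with hD
  have hDF : ∀ L, L ∈ F ↔ ∃ a < 1 + n, D a = L := by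
    intro L
    rw [← mem_toList, ← hlF, mem_iff_getD (d := ∅), hlenF]
  have hDm : ∀ a < 1 + n, D a ∈ F := fun a ha => (hDF _).2 ⟨a, ha, rfl⟩
  have hDinj : ∀ a < 1 + n, ∀ b < 1 + n, D a = D b → a = b := fun a ha b hb he =>
    getD_inj hndF (by omega) (by omega) he
  have hFim : F = (range (1 + n)).image D := by
    ext L
    rw [hDF, mem_image]
    constructor
    · rintro ⟨a, ha, he⟩
      exact ⟨a, mem_range.2 ha, he⟩
    · rintro ⟨a, ha, he⟩
      exact ⟨a, mem_range.1 ha, he⟩
  have hsum : ∀ f : Finset V → ℕ, ∑ a ∈ range (1 + n), f (D a) = ∑ L ∈ F, f L := by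
    intro f
    refine sum_bij (fun a _ => D a) (fun a ha => hDm a (mem_range.1 ha)) ?_ ?_ (fun _ _ => rfl)
    · intro a ha b hb he
      exact hDinj a (mem_range.1 ha) b (mem_range.1 hb) he
    · intro L hL
      obtain ⟨a, ha, he⟩ := (hDF L).1 hL
      exact ⟨a, mem_range.2 ha, he⟩
  have hXZx : ∀ a < 6 + n, x a ∈ X ∨ x a ∈ Z := by
    intro a ha
    rw [hXe, hZe]
    have := h8 a ha
    by_cases c1 : a < 3
    · exact Or.inl (Or.inl ((m1 _).2 ⟨a, c1, rfl⟩))
    by_cases c2 : a < 6
    · exact Or.inr (Or.inl ((m2 _).2 ⟨a, by omega, c2, rfl⟩))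
    by_cases c3 : a = 6
    · left
      right
      rw [c3, hx6]
    · exact Or.inr (Or.inr ((m3 _).2 ⟨a, by omega, ha, rfl⟩))
  have hxQ : ∀ a < 6 + n, x a ∈ Q := by
    intro a ha
    rcases hXZx a ha with h3 | h3
    · exact h.clo.sub h3
    · exact (mem_sdiff.1 (h.ZL h3)).1
  refine ⟨n, x, D, hn1, hn2, ?_, h7, h56, ?_⟩
  · refine ⟨h.reg, h.tr, ?_, hxQ, fun a ha => h.subQ (hDm a ha), ?_, ?_,
      ?_, ?_, fun a ha => (h.cz.parts _ (hDm a ha)).2.2, fun a ha => h.cz.crit _ (hDm a ha), ?_⟩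
    · intro a ha b hb he
      exact getD_inj hnd (by omega) (by omega) he
    · intro a ha b hb
      rcases hXZx a ha with h3 | h3
      · exact h.notX (hDm b hb) h3
      · exact h.cz.notMem (hDm b hb) h3
    · intro v hv
      by_cases hvX : v ∈ X
      · left
        rw [h71, mem_ptm] at hvX
        obtain ⟨a, ha, _, he⟩ := hvX
        exact ⟨a, ha, he.symm⟩
      by_cases hvZ : v ∈ Z
      · left
        rw [h184, mem_ptm] at hvZ
        obtain ⟨a, ha, _, he⟩ := hvZ
        exact ⟨a, ha, he.symm⟩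
      · right
        have h3 : v ∈ F.biUnion id := by
          rw [h.cz.un]
          exact mem_sdiff.2 ⟨mem_sdiff.2 ⟨hv, hvX⟩, hvZ⟩
        obtain ⟨L, hL, hvL⟩ := mem_biUnion.1 h3
        obtain ⟨a, ha, he⟩ := (hDF L).1 hL
        exact ⟨a, ha, he ▸ hvL⟩
    · intro a ha b hb hne
      exact (h.cz.sep _ (hDm a ha) _ (hDm b hb) (fun he => hne (hDinj a ha b hb he))).1
    · intro a ha b hb hne
      exact (h.cz.sep _ (hDm a ha) _ (hDm b hb) (fun he => hne (hDinj a ha b hb he))).2
    · rw [hsum (fun L => rho B L), h.rhoQ]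
  · rw [← h71, ← h184, ← hFim]
    exact h

end Pool.Agent.Hyp6
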