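import Pool.Agent.Hyp6.Tq1

/-!
# HYP6 TQ2: the instances of the tight case

`CfQI`: the configuration `CfQ` with upper bounds for the values of the components and the list of the
masks of the further inner blocks. `Xr`: the two reasons special to the tight case: Hall's condition
inside the rest, and the cover number of the rest. `CfQI.absurd`: a checked instance has no configuration.
-/

set_option autoImplicit false

namespace Pool.Agent.Hyp6

open Finset Pool.Agent.Hyp5 Rup

universe u v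

/-! ### the special reasons -/

/-- the numeric facts special to the tight case. -/
structure Nx (N r : ℕ) (ec rr : ℕ → ℕ → ℕ) : Prop where
  h1 : ∀ S A : List ℕ, S.Nodup → A.Nodup → S ≠ [] → (∀ s ∈ S, s < r) → (∀ a ∈ A, a < N) →
    (∀ a ∈ A, (71).testBit a = false) → N ≤ S.length + A.length + 4 →
    ∃ s ∈ S, ∃ a ∈ A, 1 ≤ ec s (2 ^ a)
  l1 : ∀ m : ℕ → ℕ, (∀ a < N, (71).testBit a = false → ∃ j < r, (m j).testBit a = true) →
    1 ≤ ∑ j ∈ range r, rr j (m j)

/-- the special reasons. -/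
inductive Xr : Type
  | h (S A : List ℕ)
  | l (ms : List ℕ)

/-- the clause of a special reason. -/
def Xr.cl (r : ℕ) : Xr → List ℕ
  | .h S A => S.flatMap (fun s => A.map (fun a => 2 * vE s (2 ^ a) 1))
  | .l ms => (List.range r).flatMap (fun j => oR j (ms.getD j 0) 1)

/-- the special reason is correct. -/
def Xr.ok (N r : ℕ) : Xr → Bool
  | .h S A => decide (S.Nodup) && decide (A.Nodup) && !(S.isEmpty) &&
      S.all (fun s => Nat.blt s r) && A.all (fun a => Nat.blt a N && !((71).testBit a)) &&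
      Nat.ble N (S.length + A.length + 4)
  | .l ms => (List.range r).all (fun j => Nat.blt (ms.getD j 0) 256) &&
      (List.range N).all (fun a => (71).testBit a ||
        (List.range r).any (fun j => (ms.getD j 0).testBit a))

theorem Xr.sound {N r : ℕ} {ec lc rr : ℕ → ℕ → ℕ} (hN : N ≤ 8) (hr : r ≤ 4) (hr0 : ∀ j < r, rr j 0 = 0)
    (h : Nx N r ec rr) (q : Xr) (hok : q.ok N r = true) : Sat (Vl ec lc rr) (q.cl r) := by
  cases q with
  | h S A =>
    apply sat_of
    intro hf
    simp only [Xr.ok, Bool.and_eq_true, Nat.blt_eq, List.all_eq_true, decide_eq_true_eq,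
      Bool.not_eq_true', Nat.ble_eq] at hok
    obtain ⟨⟨⟨⟨⟨h1, h2⟩, h3⟩, h4⟩, h5⟩, h6⟩ := hok
    obtain ⟨s, hs, a, ha, h7⟩ := h.h1 S A h1 h2 (by
      rintro rfl
      simp at h3) h4 (fun a ha => (h5 a ha).1) (fun a ha => (h5 a ha).2) h6
    have := hf (2 * vE s (2 ^ a) 1) (by
      simp only [Xr.cl, List.mem_flatMap, List.mem_map]
      exact ⟨s, hs, a, ha, rfl⟩)
    rw [pE (lt_of_lt_of_le (h4 s hs) hr) (two_pow_lt (h5 a ha).1 hN) (by norm_num)] at this
    exact this h7
  | l ms =>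
    apply sat_of
    intro hf
    simp only [Xr.ok, Bool.and_eq_true, Nat.blt_eq, List.all_eq_true, List.mem_range,
      Bool.or_eq_true, List.any_eq_true] at hok
    obtain ⟨h1, h2⟩ := hok
    have h3 := h.l1 (fun j => ms.getD j 0) (fun a ha h71 => by
      rcases h2 a ha with h4 | ⟨j, hj, h4⟩
      · rw [h71] at h4
        exact absurd h4 (by simp)
      · exact ⟨j, hj, h4⟩)
    have h4 : ∑ j ∈ range r, rr j (ms.getD j 0) = 0 := by
      refine sum_eq_zero fun j hj => ?_
      rw [mem_range] at hj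
      by_cases h5 : ms.getD j 0 = 0
      · rw [h5]
        exact hr0 j hj
      · have := hf (2 * vR j (ms.getD j 0) 1) (by
          simp only [Xr.cl, List.mem_flatMap, List.mem_range]
          exact ⟨j, hj, mem_oR.2 ⟨h5, rfl⟩⟩)
        rw [pR (lt_of_lt_of_le hj hr) (h1 j hj) (by norm_num)] at this
        omega
    omega

/-- the check of an instance of the tight case. -/
noncomputable def instT (n : ℕ) (ub ins : List ℕ) (base : List Rs) (ext : List Xr)
    (gads : List Gt) (nm : Tr) (cnf : List (List ℕ)) (db : Tr) (prf : List ℕ) : Bool :=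
  base.all (fun q => q.ok (6 + n) (1 + n) (7 :: 56 :: ins) big4 big4 []) &&
  (ext.all (fun q => q.ok (6 + n) (1 + n)) &&
  (gads.all (fun g => Nat.blt g.j (1 + n) && g.ok (6 + n) (ub.getD g.j 0)) &&
  (!(cnf.isEmpty) && (okcR cnf && (cmpR nm cnf (cls (1 + n) base ++
    (ext.map (Xr.cl (1 + n)) ++ gads.map Gt.cl)) && chk cnf db prf)))))

/-- the check from its parts. -/
theorem instT_of {n : ℕ} {ub ins : List ℕ} {base : List Rs} {ext : List Xr}
    {gads : List Gt} {nm : Tr} {cnf : List (List ℕ)} {db : Tr} {prf : List ℕ}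
    (h1 : base.all (fun q => q.ok (6 + n) (1 + n) (7 :: 56 :: ins) big4 big4 []) = true)
    (h2 : ext.all (fun q => q.ok (6 + n) (1 + n)) = true)
    (h3 : gads.all (fun g => Nat.blt g.j (1 + n) && g.ok (6 + n) (ub.getD g.j 0)) = true)
    (h4 : (!(cnf.isEmpty)) = true) (h5 : okcR cnf = true)
    (h6 : cmpR nm cnf (cls (1 + n) base ++ (ext.map (Xr.cl (1 + n)) ++ gads.map Gt.cl)) = true)
    (h7 : chk cnf db prf = true) : instT n ub ins base ext gads nm cnf db prf = true := by
  unfold instT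
  rw [h1, h2, h3, h4, h5, h6, h7]
  rfl

variable {V : Type v} [DecidableEq V] {ι : Type u} [Fintype ι] {B : ι → Finset V}
variable {Q : Finset V} {i j : ι} {n : ℕ} {x : ℕ → V} {D : ℕ → Finset V} {ub ins : List ℕ}

/-! ### the facts of the configuration -/

theorem CfQ.Dinj (h : CfQ B Q n x D i j) : ∀ a < 1 + n, ∀ b < 1 + n, D a = D b → a = b := by
  intro a ha b hb he
  by_contra hne
  have h5 := h.cf.dis a ha b hb hne
  rw [he, disjoint_self_iff_empty] at h5
  have h6 := (h.cf.conn b hb).1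
  rw [h5] at h6
  exact absurd h6 (by simp)

theorem CfQ.memF (_ : CfQ B Q n x D i j) {a : ℕ} (ha : a < 1 + n) :
    D a ∈ (range (1 + n)).image D := mem_image.2 ⟨a, mem_range.2 ha, rfl⟩

/-- Hall's condition from a lower bound for the number of points seen. -/
theorem CfQ.hall_of (h : CfQ B Q n x D i j) {W : Finset V} {m : ℕ} (hW : W.card ≤ m)
    (hb : ∀ S ⊆ (range (1 + n)).image D, S.Nonempty → S.card + 1 ≤ (nbX B W S).card)
    {S A : List ℕ} (hS : S.Nodup) (hA : A.Nodup) (hne : S ≠ []) (hSr : ∀ s ∈ S, s < 1 + n)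
    (hAN : ∀ a ∈ A, a < 6 + n) (hAW : ∀ a ∈ A, x a ∈ W) (hle : m ≤ S.length + A.length) :
    ∃ s ∈ S, ∃ a ∈ A, 1 ≤ ecB B x (6 + n) D s (2 ^ a) := by
  classical
  by_contra hcon
  push Not at hcon
  have h1 := hb (S.toFinset.image D) (by
    intro L hL
    obtain ⟨s, hs, rfl⟩ := mem_image.1 hL
    exact h.memF (hSr s (List.mem_toFinset.1 hs))) (by
    rw [image_nonempty, ← card_pos, List.toFinset_card_of_nodup hS]
    exact List.length_pos_of_ne_nil hne)
  have h2 : (S.toFinset.image D).card = S.length := by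
    rw [card_image_of_injOn, List.toFinset_card_of_nodup hS]
    intro a ha b hb he
    rw [mem_coe, List.mem_toFinset] at ha hb
    exact h.Dinj a (hSr a ha) b (hSr b hb) he
  rw [h2] at h1
  have h3 : nbX B W (S.toFinset.image D) ⊆ W \ A.toFinset.image x := by
    intro v hv
    rw [mem_nbX] at hv
    obtain ⟨hvW, L, hL, hE⟩ := hv
    rw [mem_sdiff]
    refine ⟨hvW, fun hvA => ?_⟩
    obtain ⟨a, ha, rfl⟩ := mem_image.1 hvA
    obtain ⟨s, hs, rfl⟩ := mem_image.1 hL
    rw [List.mem_toFinset] at ha hs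
    obtain ⟨k, hk⟩ := hE
    rw [mem_Ez] at hk
    have h4 := hcon s hs a ha
    have h5 : 1 ≤ ecB B x (6 + n) D s (2 ^ a) :=
      card_pos.2 ⟨k, (mem_cxs_bit (hAN a ha)).2 ⟨hk.2, hk.1⟩⟩
    omega
  have h4 : A.toFinset.image x ⊆ W := by
    intro v hv
    obtain ⟨a, ha, rfl⟩ := mem_image.1 hv
    exact hAW a (List.mem_toFinset.1 ha)
  have h5 := card_le_card h3
  have h6 := card_sdiff_add_card_eq_card h4
  have h8 : (A.toFinset.image x).card = A.length := by
    rw [card_image_of_injOn, List.toFinset_card_of_nodup hA]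
    intro a ha b hb he
    rw [mem_coe, List.mem_toFinset] at ha hb
    exact h.cf.inj a (hAN a ha) b (hAN b hb) he
  omega

theorem CfQ.bit8 (h : CfQ B Q n x D i j) {a : ℕ} (ha : a < 6 + n) : a < 8 := by
  have := h.n2
  omega

theorem CfQ.cX (h : CfQ B Q n x D i j) : (ptm x (6 + n) 71).card = 4 := h.tq.x4

theorem CfQ.cZ (h : CfQ B Q n x D i j) : (ptm x (6 + n) 184).card = 2 + n := by
  have h1 := h.tq.cardF.1
  have h2 : ((range (1 + n)).image D).card = 1 + n := by
    rw [card_image_of_injOn, card_range]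
    intro a ha b hb he
    exact h.Dinj a (by simpa using ha) b (by simpa using hb) he
  omega

/-- Hall's condition inside the rest. -/
theorem CfQ.hz (h : CfQ B Q n x D i j) {S A : List ℕ} (hS : S.Nodup) (hA : A.Nodup) (hne : S ≠ [])
    (hSr : ∀ s ∈ S, s < 1 + n) (hAN : ∀ a ∈ A, a < 6 + n)
    (hA71 : ∀ a ∈ A, (71).testBit a = false) (hle : 6 + n ≤ S.length + A.length + 4) :
    ∃ s ∈ S, ∃ a ∈ A, 1 ≤ ecB B x (6 + n) D s (2 ^ a) := by
  refine h.hall_of (W := ptm x (6 + n) 184) (m := 2 + n) h.cZ.le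
    (fun S hS hS' => h.tq.hall1 hS hS') hS hA hne hSr hAN ?_ (by omega)
  intro a ha
  rw [h.cf.mem_pt (hAN a ha)]
  have h1 := h.bit8 (hAN a ha)
  have h2 := hA71 a ha
  interval_cases a <;> first | rfl | exact absurd h2 (by decide)

/-- Hall's condition outside one of the full blocks. -/
theorem CfQ.hallB (h : CfQ B Q n x D i j) (S A : List ℕ) (hS : S.Nodup) (hA : A.Nodup)
    (hne : S ≠ []) (hSr : ∀ s ∈ S, s < 1 + n) (hAN : ∀ a ∈ A, a < 6 + n)
    (hT : (∀ a ∈ A, (7).testBit a = false) ∨ ∀ a ∈ A, (56).testBit a = false)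
    (hle : 6 + n ≤ S.length + A.length + 3) :
    ∃ s ∈ S, ∃ a ∈ A, 1 ≤ ecB B x (6 + n) D s (2 ^ a) := by
  classical
  rcases hT with hT | hT
  · obtain ⟨s, hs, a, ha, h1⟩ := h.hz (S := S) (A := A.erase 6) hS (hA.erase 6) hne hSr
      (fun a ha => hAN a (List.mem_of_mem_erase ha)) (by
        intro a ha
        have h2 := (hA.mem_erase_iff).1 ha
        have h3 := hT a h2.2
        have h4 := h.bit8 (hAN a h2.2)
        have h5 := h2.1
        interval_cases a <;> first | rfl | exact absurd h3 (by decide) | exact absurd rfl h5) (by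
        have h2 := List.length_erase_add_one (a := 6) (l := A)
        by_cases h3 : 6 ∈ A
        · have := h2 h3
          omega
        · rw [List.erase_of_not_mem h3]
          omega)
    exact ⟨s, hs, a, List.mem_of_mem_erase ha, h1⟩
  · refine h.hall_of (W := (ptm x (6 + n) 71 ∪ ptm x (6 + n) 184) \ (B j ∩ Q)) (m := 3 + n) ?_
      (fun S hS hS' => h.tq.hall2 hS hS') hS hA hne hSr hAN ?_ (by omega)
    · have h1 := card_sdiff_add_card_eq_card (h.tq.jZ.trans
        (subset_union_right (s₁ := ptm x (6 + n) 71)))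
      have h2 := card_union_of_disjoint h.tq.XZ
      have h3 := h.cX
      have h4 := h.cZ
      have h5 := h.tq.fj
      omega
    · intro a ha
      have h2 := hT a ha
      rw [h.j56, mem_sdiff, mem_union, h.cf.mem_pt (hAN a ha), h.cf.mem_pt (hAN a ha),
        h.cf.mem_pt (hAN a ha), h2]
      have h1 := h.bit8 (hAN a ha)
      refine ⟨?_, by simp⟩
      interval_cases a <;> first | exact Or.inl rfl | exact Or.inr rfl

theorem CfQ.pt255 (h : CfQ B Q n x D i j) {v : V} :
    v ∈ ptm x (6 + n) 71 ∪ ptm x (6 + n) 184 ↔ ∃ a < 6 + n, x a = v := by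
  rw [mem_union, mem_ptm, mem_ptm]
  constructor
  · rintro (⟨a, ha, _, he⟩ | ⟨a, ha, _, he⟩)
    · exact ⟨a, ha, he⟩
    · exact ⟨a, ha, he⟩
  · rintro ⟨a, ha, he⟩
    have h1 := h.bit8 ha
    have h2 : (71).testBit a = true ∨ (184).testBit a = true := by
      interval_cases a <;> first | exact Or.inl rfl | exact Or.inr rfl
    rcases h2 with h2 | h2
    · exact Or.inl ⟨a, ha, h2, he⟩
    · exact Or.inr ⟨a, ha, h2, he⟩

/-- the cover number of the rest. -/
theorem CfQ.lz (h : CfQ B Q n x D i j) (m : ℕ → ℕ)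
    (hm : ∀ a < 6 + n, (71).testBit a = false → ∃ j < 1 + n, (m j).testBit a = true) :
    1 ≤ ∑ j ∈ range (1 + n), rrB B x (6 + n) D j (m j) := by
  classical
  have hT : ∀ c ∈ range (1 + n), ∃ T : Finset ι, D c ∪ ptm x (6 + n) (m c) ⊆ T.biUnion B ∧
      T.card = rho B (D c) + rrB B x (6 + n) D c (m c) := by
    intro c hc
    rw [mem_range] at hc
    obtain ⟨T, h1, h2⟩ := exists_cover (h.cf.covJ hc (m c))
    exact ⟨T, h1, by rw [h2, h.cf.rho_rr hc]⟩
  choose! T hT1 hT2 using hT
  have h1 : Q \ ptm x (6 + n) 71 ⊆ ((range (1 + n)).biUnion T).biUnion B := by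
    intro v hv
    rw [mem_sdiff] at hv
    have key : ∀ c < 1 + n, v ∈ D c ∪ ptm x (6 + n) (m c) →
        v ∈ ((range (1 + n)).biUnion T).biUnion B := by
      intro c hc hvc
      obtain ⟨t, ht, hvt⟩ := mem_biUnion.1 (hT1 c (mem_range.2 hc) hvc)
      exact mem_biUnion.2 ⟨t, mem_biUnion.2 ⟨c, mem_range.2 hc, ht⟩, hvt⟩
    rcases h.cf.all v hv.1 with ⟨a, ha, rfl⟩ | ⟨c, hc, hvc⟩
    · have h2 : (71).testBit a = false := by
        rw [h.cf.mem_pt ha] at hv
        exact Bool.eq_false_iff.2 hv.2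
      obtain ⟨c, hc, hb⟩ := hm a ha h2
      exact key c hc (mem_union_right _ ((h.cf.mem_pt ha).2 hb))
    · exact key c hc (mem_union_left _ hvc)
  have h2 := Hyp6.rho_le h1
  have h3 : ((range (1 + n)).biUnion T).card ≤ ∑ c ∈ range (1 + n), (T c).card := card_biUnion_le
  have h4 : ∑ c ∈ range (1 + n), (T c).card =
      ∑ c ∈ range (1 + n), rho B (D c) + ∑ c ∈ range (1 + n), rrB B x (6 + n) D c (m c) := by
    rw [← sum_add_distrib]
    exact sum_congr rfl hT2
  have h5 := h.tq.rhoL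
  rw [sum_image] at h5
  · omega
  · intro a ha b hb he
    exact h.Dinj a (by simpa using ha) b (by simpa using hb) he

/-- an instance of the tight case. -/
structure CfQI (B : ι → Finset V) (Q : Finset V) (n : ℕ) (x : ℕ → V) (D : ℕ → Finset V) (i j : ι)
    (ub ins : List ℕ) : Prop extends CfQ B Q n x D i j where
  cnt : ∀ A < 2 ^ (6 + n), A ≠ 0 → (ib B Q x (6 + n) A).card = (7 :: 56 :: ins).count A
  kle : ∀ a < 1 + n, kpv B Q (D a) ≤ (ub.getD a 0 : ℤ)

theorem CfQI.ci (h : CfQI B Q n x D i j ub ins) (hins : ∀ A ∈ ins, A < 2 ^ (6 + n)) :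
    Ci B Q (6 + n) (1 + n) x D (7 :: 56 :: ins) where
  cf := h.cf
  N8 := by have := h.n2; omega
  r4 := by have := h.n2; omega
  N6 := by omega
  i7 := by simp
  i56 := by simp
  insN := by
    have h64 : 64 ≤ 2 ^ (6 + n) := by
      calc 64 = 2 ^ 6 := by norm_num
        _ ≤ 2 ^ (6 + n) := Nat.pow_le_pow_right (by norm_num) (by omega)
    intro A hA
    simp only [List.mem_cons] at hA
    rcases hA with rfl | rfl | hA
    · omega
    · omega
    · exact hins A hA
  cnt := h.cnt
  hall := h.hallB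

/-- **a checked instance has no configuration.** -/
theorem CfQI.absurd (h : CfQI B Q n x D i j ub ins) (hins : ∀ A ∈ ins, A < 2 ^ (6 + n))
    {base : List Rs} {ext : List Xr} {gads : List Gt} {nm db : Tr} {cnf : List (List ℕ)}
    {prf : List ℕ} (hb : instT n ub ins base ext gads nm cnf db prf = true) : False := by
  unfold instT at hb
  simp only [Bool.and_eq_true] at hb
  obtain ⟨hbase, hext, hgads, hne, hok, hcmp, hchk⟩ := hb
  have hci := h.ci hins
  have hnm := hci.nm
  have hn1 := h.n1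
  have hn2 := h.n2
  refine hnm.unsat_nm hnm.nt srt_nil base hbase (ext.map (Xr.cl (1 + n)) ++ gads.map Gt.cl) ?_ (by
    rintro rfl
    simp at hne) hcmp hok hchk
  intro c hc
  rw [List.mem_append] at hc
  rcases hc with hc | hc
  · obtain ⟨q, hq, rfl⟩ := List.mem_map.1 hc
    exact Xr.sound (by omega) (by omega) hnm.r0
      ⟨fun S A h1 h2 h3 h4 h5 h6 h7 => h.hz h1 h2 h3 h4 h5 h6 h7, h.lz⟩ q
      (List.all_eq_true.1 hext q hq)
  · obtain ⟨g, hg, rfl⟩ := List.mem_map.1 hc
    have h1 := List.all_eq_true.1 hgads g hg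
    rw [Bool.and_eq_true, Nat.blt_eq] at h1
    refine Gt.sat h.cf h.tq.ih (by omega) (by omega) (by omega) g h1.1 (kap := ub.getD g.j 0) ?_
      h1.2 (fun J => le_rfl) (fun A => le_rfl) (fun J => (h.cf.rho_rr h1.1 J).le)
    have h2 := h.kle g.j h1.1
    unfold kpv at h2
    linarith

end Pool.Agent.Hyp6
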