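import Pool.Agent.Hyp5.GlobalCover

/-!
# HYP6: cover numbers

`rho B W` is the least number of blocks covering `W`, and `sv B W = |W| - 2 * rho B W` is the largest
value of the sum of `|part| - 2` over the partitions of `W` into subsets of blocks.
-/

set_option autoImplicit false

namespace Pool.Agent.Hyp6

open Finset Pool.Agent.Hyp5

variable {V : Type*} [DecidableEq V] {ι : Type*}

/-- every point of `W` lies in a block. -/
def Cov (B : ι → Finset V) (W : Finset V) : Prop := ∀ v ∈ W, ∃ i, v ∈ B i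

/-- the least number of blocks covering `W`. -/
noncomputable def rho (B : ι → Finset V) (W : Finset V) : ℕ :=
  sInf {k | ∃ T : Finset ι, W ⊆ T.biUnion B ∧ T.card = k}

/-- the value of `W`. -/
noncomputable def sv (B : ι → Finset V) (W : Finset V) : ℤ := (W.card : ℤ) - 2 * (rho B W : ℤ)

variable {B : ι → Finset V}

omit [DecidableEq V] in
theorem Cov.mono {W W' : Finset V} (h : Cov B W') (hs : W ⊆ W') : Cov B W :=
  fun v hv => h v (hs hv)

theorem Cov.union {W W' : Finset V} (h : Cov B W) (h' : Cov B W') : Cov B (W ∪ W') := by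
  intro v hv
  rcases mem_union.1 hv with hv | hv
  · exact h v hv
  · exact h' v hv

theorem cov_of_reg [Fintype ι] {W : Finset V} (h : Reg B W) : Cov B W := by
  intro v hv
  have h1 : 0 < (univ.filter (fun i => v ∈ B i)).card := by rw [h v hv]; norm_num
  obtain ⟨i, hi⟩ := card_pos.1 h1
  exact ⟨i, (mem_filter.1 hi).2⟩

theorem cov_of_subset {W : Finset V} {T : Finset ι} (h : W ⊆ T.biUnion B) : Cov B W := by
  intro v hv
  obtain ⟨i, _, hi⟩ := mem_biUnion.1 (h hv)
  exact ⟨i, hi⟩

theorem exists_cov {W : Finset V} (h : Cov B W) : ∃ T : Finset ι, W ⊆ T.biUnion B := by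
  classical
  rcases W.eq_empty_or_nonempty with rfl | ⟨w, hw⟩
  · exact ⟨∅, empty_subset _⟩
  · obtain ⟨i0, _⟩ := h w hw
    have : Nonempty ι := ⟨i0⟩
    choose! g hg using h
    refine ⟨W.image g, fun v hv => ?_⟩
    exact mem_biUnion.2 ⟨g v, mem_image_of_mem _ hv, hg v hv⟩

theorem exists_cover {W : Finset V} (h : Cov B W) :
    ∃ T : Finset ι, W ⊆ T.biUnion B ∧ T.card = rho B W := by
  obtain ⟨T, hT⟩ := exists_cov h
  exact Nat.sInf_mem (s := {k | ∃ T : Finset ι, W ⊆ T.biUnion B ∧ T.card = k}) ⟨_, T, hT, rfl⟩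

theorem rho_le {W : Finset V} {T : Finset ι} (h : W ⊆ T.biUnion B) : rho B W ≤ T.card :=
  Nat.sInf_le ⟨T, h, rfl⟩

theorem rho_le_of {W : Finset V} {k : ℕ} (h : ∃ T : Finset ι, W ⊆ T.biUnion B ∧ T.card ≤ k) :
    rho B W ≤ k := by
  obtain ⟨T, h1, h2⟩ := h
  exact (rho_le h1).trans h2

theorem le_rho {W : Finset V} (h : Cov B W) {k : ℕ}
    (hk : ∀ T : Finset ι, W ⊆ T.biUnion B → k ≤ T.card) : k ≤ rho B W := by
  obtain ⟨T, h1, h2⟩ := exists_cover h
  rw [← h2]
  exact hk T h1

@[simp] theorem rho_empty : rho B ∅ = 0 := by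
  have h : rho B ∅ ≤ (∅ : Finset ι).card := rho_le (empty_subset _)
  simpa using h

@[simp] theorem sv_empty : sv B ∅ = 0 := by simp [sv]

theorem rho_mono {W W' : Finset V} (h : W ⊆ W') (hc : Cov B W') : rho B W ≤ rho B W' := by
  obtain ⟨T, h1, h2⟩ := exists_cover hc
  rw [← h2]
  exact rho_le (h.trans h1)

theorem rho_union_le {W W' : Finset V} (h : Cov B W) (h' : Cov B W') :
    rho B (W ∪ W') ≤ rho B W + rho B W' := by
  classical
  obtain ⟨T, h1, h2⟩ := exists_cover h
  obtain ⟨T', h1', h2'⟩ := exists_cover h'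
  rw [← h2, ← h2']
  refine (rho_le (T := T ∪ T') ?_).trans (card_union_le _ _)
  rw [union_biUnion]
  exact union_subset_union h1 h1'

theorem rho_biUnion_le {F : Finset (Finset V)} (h : ∀ C ∈ F, Cov B C) :
    rho B (F.biUnion id) ≤ ∑ C ∈ F, rho B C := by
  classical
  induction F using Finset.induction_on with
  | empty => simp
  | insert C F hC ih =>
    rw [biUnion_insert, sum_insert hC]
    have h1 : Cov B (F.biUnion id) := by
      intro v hv
      obtain ⟨D, hD, hv⟩ := mem_biUnion.1 hv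
      exact h D (mem_insert_of_mem hD) v hv
    refine (rho_union_le (h C (mem_insert_self _ _)) h1).trans ?_
    exact Nat.add_le_add_left (ih fun D hD => h D (mem_insert_of_mem hD)) _

/-- a set inside one block has cover number at most one. -/
theorem rho_le_one {W : Finset V} {i : ι} (h : W ⊆ B i) : rho B W ≤ 1 := by
  have h1 : rho B W ≤ ({i} : Finset ι).card := rho_le (by simpa using h)
  simpa using h1

theorem rho_pos {W : Finset V} (hc : Cov B W) (hne : W.Nonempty) : 1 ≤ rho B W := by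
  refine le_rho hc fun T hT => ?_
  obtain ⟨v, hv⟩ := hne
  obtain ⟨i, hi, _⟩ := mem_biUnion.1 (hT hv)
  exact card_pos.2 ⟨i, hi⟩

omit [DecidableEq V] in
theorem cov_of_sub_block {W : Finset V} {i : ι} (h : W ⊆ B i) : Cov B W :=
  fun _ hv => ⟨i, h hv⟩

/-- deleting a part of a block lowers the cover number by at most one. -/
theorem rho_le_sdiff {W Z : Finset V} {i : ι} (hZ : Z ⊆ B i) (hc : Cov B W) :
    rho B W ≤ rho B (W \ Z) + 1 := by
  have h1 : Cov B (W \ Z) := hc.mono sdiff_subset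
  have h2 : Cov B (W \ Z ∪ Z) := h1.union (cov_of_sub_block hZ)
  have h3 : rho B W ≤ rho B (W \ Z ∪ Z) :=
    rho_mono (by rw [sdiff_union_self_eq_union]; exact subset_union_left) h2
  have h4 := rho_union_le h1 (cov_of_sub_block hZ)
  have h5 := rho_le_one hZ
  omega

theorem rho_erase_le {W : Finset V} {x : V} (hc : Cov B W) : rho B (W.erase x) ≤ rho B W :=
  rho_mono (erase_subset _ _) hc

theorem rho_le_erase {W : Finset V} {x : V} (hc : Cov B W) :
    rho B W ≤ rho B (W.erase x) + 1 := by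
  by_cases hx : x ∈ W
  · obtain ⟨i, hi⟩ := hc x hx
    rw [← sdiff_singleton_eq_erase]
    exact rho_le_sdiff (i := i) (singleton_subset_iff.2 hi) hc
  · rw [erase_eq_of_notMem hx]
    exact Nat.le_succ _

/-- the blocks have at most `k` points. -/
theorem card_le_mul_rho {W : Finset V} {k : ℕ} (hk : ∀ i, (B i ∩ W).card ≤ k) (hc : Cov B W) :
    W.card ≤ k * rho B W := by
  classical
  obtain ⟨T, h1, h2⟩ := exists_cover hc
  rw [← h2, mul_comm]
  have h3 : W ⊆ T.biUnion (fun i => B i ∩ W) := by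
    intro v hv
    obtain ⟨i, hi, hvi⟩ := mem_biUnion.1 (h1 hv)
    exact mem_biUnion.2 ⟨i, hi, mem_inter.2 ⟨hvi, hv⟩⟩
  exact (card_le_card h3).trans (card_biUnion_le_card_mul _ _ _ fun i _ => hk i)

/-- the cover number only depends on the traces of the blocks. -/
theorem rho_congr {B' : ι → Finset V} {W : Finset V} (h : ∀ i, B i ∩ W = B' i ∩ W) :
    rho B W = rho B' W := by
  unfold rho
  congr 1
  ext k
  have key : ∀ (T : Finset ι), W ⊆ T.biUnion B ↔ W ⊆ T.biUnion B' := by
    intro T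
    constructor
    · intro hT v hv
      obtain ⟨i, hi, hvi⟩ := mem_biUnion.1 (hT hv)
      have h1 : v ∈ B i ∩ W := mem_inter.2 ⟨hvi, hv⟩
      rw [h i] at h1
      exact mem_biUnion.2 ⟨i, hi, (mem_inter.1 h1).1⟩
    · intro hT v hv
      obtain ⟨i, hi, hvi⟩ := mem_biUnion.1 (hT hv)
      have h1 : v ∈ B' i ∩ W := mem_inter.2 ⟨hvi, hv⟩
      rw [← h i] at h1
      exact mem_biUnion.2 ⟨i, hi, (mem_inter.1 h1).1⟩
  constructor
  · rintro ⟨T, hT, hk⟩
    exact ⟨T, (key T).1 hT, hk⟩
  · rintro ⟨T, hT, hk⟩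
    exact ⟨T, (key T).2 hT, hk⟩

theorem sv_congr {B' : ι → Finset V} {W : Finset V} (h : ∀ i, B i ∩ W = B' i ∩ W) :
    sv B W = sv B' W := by
  unfold sv
  rw [rho_congr h]

end Pool.Agent.Hyp6
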