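import Pool.Agent.Hyp6.Val

/-!
# HYP6: additivity of the cover number; values of matchable and factor-critical sets
-/

set_option autoImplicit false

namespace Pool.Agent.Hyp6

open Finset Pool.Agent.Hyp5

variable {V : Type*} [DecidableEq V] {ι : Type*} {B : ι → Finset V}

/-- no block meets both sets. -/
def Sep (B : ι → Finset V) (W W' : Finset V) : Prop :=
  ∀ i, (B i ∩ W).Nonempty → (B i ∩ W').Nonempty → False

theorem Sep.symm {W W' : Finset V} (h : Sep B W W') : Sep B W' W := fun i h1 h2 => h i h2 h1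

theorem Sep.mono {W W' U U' : Finset V} (h : Sep B W W') (h1 : U ⊆ W) (h2 : U' ⊆ W') :
    Sep B U U' := fun i a b =>
  h i (a.mono (inter_subset_inter_left h1)) (b.mono (inter_subset_inter_left h2))

/-- a closed set and its complement are separated. -/
theorem sep_of_closed {W C D : Finset V} (h : Closed (gr B) W C) (hD : D ⊆ W)
    (hd : Disjoint C D) : Sep B C D := by
  intro i h1 h2
  have h3 := block_closed h i h1
  obtain ⟨y, hy⟩ := h2
  rw [mem_inter] at hy
  exact disjoint_left.1 hd (h3 (mem_inter.2 ⟨hy.1, hD hy.2⟩)) hy.2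

theorem closed_of_sep {W C : Finset V} (hC : C ⊆ W) (h : Sep B C (W \ C)) :
    Closed (gr B) W C := by
  refine ⟨hC, fun x hx y hy hxy => ?_⟩
  obtain ⟨_, i, hi1, hi2⟩ := hxy
  by_contra hyC
  exact h i ⟨x, mem_inter.2 ⟨hi1, hx⟩⟩ ⟨y, mem_inter.2 ⟨hi2, mem_sdiff.2 ⟨hy, hyC⟩⟩⟩

/-- the cover number is additive over separated sets. -/
theorem rho_add {W W' : Finset V} (h : Cov B W) (h' : Cov B W') (hs : Sep B W W') :
    rho B (W ∪ W') = rho B W + rho B W' := by
  classical
  refine le_antisymm (rho_union_le h h') (le_rho (h.union h') fun T hT => ?_)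
  set T1 := T.filter (fun i => (B i ∩ W).Nonempty) with hT1
  set T2 := T.filter (fun i => (B i ∩ W').Nonempty) with hT2
  have h1 : W ⊆ T1.biUnion B := by
    intro v hv
    obtain ⟨i, hi, hvi⟩ := mem_biUnion.1 (hT (mem_union_left _ hv))
    exact mem_biUnion.2 ⟨i, mem_filter.2 ⟨hi, v, mem_inter.2 ⟨hvi, hv⟩⟩, hvi⟩
  have h2 : W' ⊆ T2.biUnion B := by
    intro v hv
    obtain ⟨i, hi, hvi⟩ := mem_biUnion.1 (hT (mem_union_right _ hv))
    exact mem_biUnion.2 ⟨i, mem_filter.2 ⟨hi, v, mem_inter.2 ⟨hvi, hv⟩⟩, hvi⟩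
  have hd : Disjoint T1 T2 := by
    rw [disjoint_left]
    intro i hi1 hi2
    exact hs i (mem_filter.1 hi1).2 (mem_filter.1 hi2).2
  have h3 : T1.card + T2.card ≤ T.card := by
    rw [← card_union_of_disjoint hd]
    exact card_le_card (union_subset (filter_subset _ _) (filter_subset _ _))
  have h4 := rho_le h1
  have h5 := rho_le h2
  omega

theorem sv_add {W W' : Finset V} (h : Cov B W) (h' : Cov B W') (hs : Sep B W W')
    (hd : Disjoint W W') : sv B (W ∪ W') = sv B W + sv B W' := by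
  unfold sv
  rw [rho_add h h' hs, card_union_of_disjoint hd]
  push_cast
  ring

/-- values are superadditive. -/
theorem sv_union_ge {W W' : Finset V} (h : Cov B W) (h' : Cov B W') (hd : Disjoint W W') :
    sv B W + sv B W' ≤ sv B (W ∪ W') := by
  have h1 := rho_union_le h h'
  unfold sv
  rw [card_union_of_disjoint hd]
  push_cast
  have h2 : (rho B (W ∪ W') : ℤ) ≤ rho B W + rho B W' := by exact_mod_cast h1
  linarith

/-- separated families. -/
def SepF (B : ι → Finset V) (F : Finset (Finset V)) : Prop :=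
  ∀ C ∈ F, ∀ D ∈ F, C ≠ D → Disjoint C D ∧ Sep B C D

theorem SepF.mono {F F' : Finset (Finset V)} (h : SepF B F) (hs : F' ⊆ F) : SepF B F' :=
  fun C hC D hD hne => h C (hs hC) D (hs hD) hne

theorem sepF_of_fcSys {W : Finset V} {F : Finset (Finset V)} (h : FCSys (gr B) W F) : SepF B F :=
  fun C hC D hD hne => ⟨h.disj C hC D hD hne,
    sep_of_closed (h.closed C hC) (h.closed D hD).1 (h.disj C hC D hD hne)⟩

theorem sep_biUnion {F : Finset (Finset V)} {C : Finset V} (h : ∀ D ∈ F, Sep B C D) :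
    Sep B C (F.biUnion id) := by
  intro i h1 h2
  obtain ⟨y, hy⟩ := h2
  rw [mem_inter, mem_biUnion] at hy
  obtain ⟨hyi, D, hD, hyD⟩ := hy
  exact h D hD i h1 ⟨y, mem_inter.2 ⟨hyi, hyD⟩⟩

theorem disjoint_biUnion {F : Finset (Finset V)} {C : Finset V} (h : ∀ D ∈ F, Disjoint C D) :
    Disjoint C (F.biUnion id) := by
  rw [disjoint_biUnion_right]
  exact h

theorem cov_biUnion {F : Finset (Finset V)} (h : ∀ C ∈ F, Cov B C) : Cov B (F.biUnion id) := by
  intro v hv
  obtain ⟨D, hD, hv⟩ := mem_biUnion.1 hv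
  exact h D hD v hv

theorem sv_biUnion {F : Finset (Finset V)} (hc : ∀ C ∈ F, Cov B C) (h : SepF B F) :
    sv B (F.biUnion id) = ∑ C ∈ F, sv B C := by
  classical
  induction F using Finset.induction_on with
  | empty => simp
  | insert C F hC ih =>
    have hne : ∀ D ∈ F, C ≠ D := fun D hD he => hC (he ▸ hD)
    have h1 : ∀ D ∈ F, Disjoint C D ∧ Sep B C D := fun D hD =>
      h C (mem_insert_self _ _) D (mem_insert_of_mem hD) (hne D hD)
    rw [biUnion_insert, sum_insert hC]
    simp only [id]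
    rw [sv_add (hc C (mem_insert_self _ _)) (cov_biUnion fun D hD => hc D (mem_insert_of_mem hD))
      (sep_biUnion fun D hD => (h1 D hD).2) (disjoint_biUnion fun D hD => (h1 D hD).1)]
    have h2 := ih (fun D hD => hc D (mem_insert_of_mem hD)) (h.mono (subset_insert _ _))
    rw [h2]

variable [Fintype ι]

theorem pm_sv_nonneg {Q : Finset V} (h : PM (gr B) Q) : 0 ≤ sv B Q := by
  obtain ⟨T, h1, h2⟩ := h.cover
  have h3 := rho_le h1
  unfold sv
  have h4 : ((2 * rho B Q : ℕ) : ℤ) ≤ Q.card := by exact_mod_cast (by omega : 2 * rho B Q ≤ Q.card)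
  push_cast at h4
  linarith

theorem pm_cov {Q : Finset V} (h : PM (gr B) Q) : Cov B Q := by
  obtain ⟨T, h1, _⟩ := h.cover
  exact cov_of_subset h1

theorem fc_sv_ge {Q : Finset V} (h : FC (gr B) Q) (hc : Cov B Q) : -1 ≤ sv B Q := by
  obtain ⟨⟨v, hv⟩, h2⟩ := h
  have h3 := pm_sv_nonneg (h2 v hv)
  have h4 := rho_le_erase (x := v) hc
  have h5 := card_erase_add_one hv
  unfold sv at h3 ⊢
  have h6 : (rho B Q : ℤ) ≤ rho B (Q.erase v) + 1 := by exact_mod_cast h4
  have h7 : ((Q.erase v).card : ℤ) + 1 = Q.card := by exact_mod_cast h5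
  linarith

omit [Fintype ι] in
/-- the value has the parity of the number of points. -/
theorem sv_parity (W : Finset V) : ∃ k : ℤ, sv B W = W.card - 2 * k := ⟨rho B W, rfl⟩

omit [Fintype ι] in
theorem sv_sdiff {W Z : Finset V} {i : ι} (hZ : Z ⊆ B i) (hZW : Z ⊆ W) (hc : Cov B W) :
    sv B (W \ Z) + Z.card - 2 ≤ sv B W := by
  have h1 := rho_le_sdiff hZ hc
  have h2 : (W \ Z).card + Z.card = W.card := card_sdiff_add_card_eq_card hZW
  unfold sv
  have h3 : (rho B W : ℤ) ≤ rho B (W \ Z) + 1 := by exact_mod_cast h1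
  have h4 : ((W \ Z).card : ℤ) + Z.card = W.card := by exact_mod_cast h2
  linarith

end Pool.Agent.Hyp6
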